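import Pool.Agent.Helper11.CT.T.T1_1_1_1_u_p0

set_option autoImplicit false
set_option linter.all false

namespace Helper11.CT.T1_1_1_1_u

open Helper11.CT

noncomputable def t7 : Tre :=
  .I [1,-1,0,1,0,0,0,0,1] t5 t6

theorem ok7 : chk (cU 1 true 3) t7 r9 = true :=
  chk_I (e' := [0,1,0,-1,0,0,0,0,-1]) (by decide +kernel) (by decide +kernel) ok5 ok6

noncomputable def t8 : Tre :=
  .I [1,0,1,0,0,0,0,-1] t4 t7

theorem ok8 : chk (cU 1 true 3) t8 l8 = true :=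
  chk_I (e' := [0,0,-1,0,0,0,0,1]) (by decide +kernel) (by decide +kernel) ok4 ok7

noncomputable def t10 : Tre :=
  .Q [0,0,-2,0,1,0,-2,0,0,0,-2] (.p false [0,0,1] [0,1,-1] (⟨0,[(21,0)]⟩,⟨0,[(20,0)]⟩) .k 2 (⟨0,[(1,
  0)]⟩,⟨0,[(21,0),(1,0)]⟩) .k (.r 0 ⟨0,[(19,1)]⟩ ⟨0,[(0,1),(15,1),(12,0)]⟩)) t8 t9

theorem ok10 : chk (cU 1 true 3) t10 l7 = true :=
  chk_Q (e' := [0,0,2,0,-1,0,2,0,0,0,2]) (by decide +kernel) (by decide +kernel) ok8 ok9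

noncomputable def t12 : Tre :=
  .Q [0,0,0,0,0,0,1,0,0,0,1] (.p true [0,0,1] [] (⟨0,[(20,0)]⟩,⟨0,[(19,0)]⟩) .k 0 (⟨0,[]⟩,⟨0,[]⟩)
  .k .k) t10 t11

theorem ok12 : chk (cU 1 true 3) t12 l6 = true :=
  chk_Q (e' := [0,0,0,0,0,0,-1,0,0,0,-1]) (by decide +kernel) (by decide +kernel) ok10 ok11

noncomputable def t16 : Tre :=
  .Q [0,0,0,0,0,1,0,0,0,0,0,-1] (.ed true [1,-1,0,1] .k) t14 t15

theorem ok16 : chk (cU 1 true 3) t16 l13 = true :=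
  chk_Q (e' := [0,0,0,0,0,-1,0,0,0,0,0,1]) (by decide +kernel) (by decide +kernel) ok14 ok15

noncomputable def t18 : Tre :=
  .I [1,1,0,-1,0,0,0,-1] t16 t17

theorem ok18 : chk (cU 1 true 3) t18 r12 = true :=
  chk_I (e' := [0,-1,0,1,0,0,0,1]) (by decide +kernel) (by decide +kernel) ok16 ok17

noncomputable def t19 : Tre :=
  .Q [0,0,0,0,0,0,1,0,0,0,1] (.p true [0,0,1] [] (⟨0,[(21,0)]⟩,⟨0,[(20,0)]⟩) .k 0 (⟨0,[]⟩,⟨0,[]⟩)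
  .k .k) t13 t18

theorem ok19 : chk (cU 1 true 3) t19 l11 = true :=
  chk_Q (e' := [0,0,0,0,0,0,-1,0,0,0,-1]) (by decide +kernel) (by decide +kernel) ok13 ok18

noncomputable def t21 : Tre :=
  .I [0,0,1,1,0,0,0,-1] t19 t20

theorem ok21 : chk (cU 1 true 3) t21 r6 = true :=
  chk_I (e' := [1,0,-1,-1,0,0,0,1]) (by decide +kernel) (by decide +kernel) ok19 ok20

noncomputable def t22 : Tre :=
  .Q [0,0,0,0,0,1,0,0,0,0,-1] (.ed true [1,-1,1] .k) t12 t21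

theorem ok22 : chk (cU 1 true 3) t22 r5 = true :=
  chk_Q (e' := [0,0,0,0,0,-1,0,0,0,0,1]) (by decide +kernel) (by decide +kernel) ok12 ok21

noncomputable def t23 : Tre :=
  .Q [0,1,1,1,-1,0,0,0,1,-1,0,1] (.p true [0,0,0,1] [1] (⟨0,[(9,0)]⟩,⟨0,[(8,0)]⟩) .k 1 (⟨0,[]⟩,⟨0,
  []⟩) .k .k) t3 t22

theorem ok23 : chk (cU 1 true 3) t23 r4 = true :=
  chk_Q (e' := [0,-1,-1,-1,1,0,0,0,-1,1,0,-1]) (by decide +kernel) (by decide +kernel) ok3 ok22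

noncomputable def t24 : Tre :=
  .Q [0,1,-1,0,0,0,0,0,-1,1,0,-1] (.p false [0,0,0,1] [1] (⟨0,[(8,0)]⟩,⟨0,[(7,0)]⟩) .k 1 (⟨0,[]⟩,⟨0,
  []⟩) .k .k) t2 t23

theorem ok24 : chk (cU 1 true 3) t24 r3 = true :=
  chk_Q (e' := [0,-1,1,0,0,0,0,0,1,-1,0,1]) (by decide +kernel) (by decide +kernel) ok2 ok23

noncomputable def t25 : Tre :=
  .Q [0,1,1,0,-1,0,0,0,1,-1,0,1] (.p true [0,0,0,1] [1] (⟨0,[(7,0)]⟩,⟨0,[(6,0)]⟩) .k 1 (⟨0,[]⟩,⟨0,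
  []⟩) .k .k) t1 t24

theorem ok25 : chk (cU 1 true 3) t25 l2 = true :=
  chk_Q (e' := [0,-1,-1,0,1,0,0,0,-1,1,0,-1]) (by decide +kernel) (by decide +kernel) ok1 ok24

noncomputable def t30 : Tre :=
  .I [1,0,1,0,0,0,0,-1,-1] t28 t29

theorem ok30 : chk (cU 1 true 3) t30 r20 = true :=
  chk_I (e' := [0,0,-1,0,0,0,0,1,1]) (by decide +kernel) (by decide +kernel) ok28 ok29

noncomputable def t31 : Tre :=
  .Q [0,0,0,0,0,1,0,0,0,0,0,-1] (.ed true [1,-1,0,1] .k) t27 t30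

theorem ok31 : chk (cU 1 true 3) t31 r19 = true :=
  chk_Q (e' := [0,0,0,0,0,-1,0,0,0,0,0,1]) (by decide +kernel) (by decide +kernel) ok27 ok30

noncomputable def t32 : Tre :=
  .Q [0,1,-1,0,0,0,0,0,-1,1,0,-1] (.p false [0,0,0,1] [1] (⟨0,[(11,0)]⟩,⟨0,[(10,0)]⟩) .k 1 (⟨0,[]⟩,
  ⟨0,[]⟩) .k .k) t26 t31

theorem ok32 : chk (cU 1 true 3) t32 l18 = true :=
  chk_Q (e' := [0,-1,1,0,0,0,0,0,1,-1,0,1]) (by decide +kernel) (by decide +kernel) ok26 ok31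

noncomputable def t34 : Tre :=
  .I [0,0,-2,0,1,-1] t32 t33

theorem ok34 : chk (cU 1 true 3) t34 l17 = true :=
  chk_I (e' := [1,0,2,0,-1,1]) (by decide +kernel) (by decide +kernel) ok32 ok33

noncomputable def t36 : Tre :=
  .Q [0,-1,-1,-1,1,0,0,0,-1,1,0,-1] (.p false [0,0,0,1] [1] (⟨0,[(9,0)]⟩,⟨0,[(8,0)]⟩) .k 1 (⟨0,[]⟩,
  ⟨0,[]⟩) .k .k) t34 t35

theorem ok36 : chk (cU 1 true 3) t36 l16 = true :=
  chk_Q (e' := [0,1,1,1,-1,0,0,0,1,-1,0,1]) (by decide +kernel) (by decide +kernel) ok34 ok35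

noncomputable def t38 : Tre :=
  .Q [0,0,-2,0,1,0,0,0,0,0,0,-1] (.p false [0,0,0,1] [] (⟨0,[(8,0)]⟩,⟨0,[(7,0)]⟩) .k 0 (⟨0,[]⟩,⟨0,
  []⟩) .k .k) t36 t37

theorem ok38 : chk (cU 1 true 3) t38 l15 = true :=
  chk_Q (e' := [0,0,2,0,-1,0,0,0,0,0,0,1]) (by decide +kernel) (by decide +kernel) ok36 ok37

noncomputable def t40 : Tre :=
  .Q [0,-1,-1,0,1,0,0,0,-1,1,0,-1] (.p false [0,0,0,1] [1] (⟨0,[(7,0)]⟩,⟨0,[(6,0)]⟩) .k 1 (⟨0,[]⟩,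
  ⟨0,[]⟩) .k .k) t38 t39

theorem ok40 : chk (cU 1 true 3) t40 r2 = true :=
  chk_Q (e' := [0,1,1,0,-1,0,0,0,1,-1,0,1]) (by decide +kernel) (by decide +kernel) ok38 ok39

noncomputable def t41 : Tre :=
  .I [0,0,-1,-1,0,0,0,0,1] t25 t40

theorem ok41 : chk (cU 1 true 3) t41 r1 = true :=
  chk_I (e' := [1,0,1,1,0,0,0,0,-1]) (by decide +kernel) (by decide +kernel) ok25 ok40

noncomputable def t42 : Tre :=
  .I [1,0,0,1,0,0,0,0,-1] t0 t41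

theorem ok42 : chk (cU 1 true 3) t42 l0 = true :=
  chk_I (e' := [0,0,0,-1,0,0,0,0,1]) (by decide +kernel) (by decide +kernel) ok0 ok41

noncomputable def t46 : Tre :=
  .I [1,0,1,0,0,0,0,-1] t44 t45

theorem ok46 : chk (cU 1 true 3) t46 l23 = true :=
  chk_I (e' := [0,0,-1,0,0,0,0,1]) (by decide +kernel) (by decide +kernel) ok44 ok45

noncomputable def t48 : Tre :=
  .Q [0,0,-2,0,1,0,0,0,0,-1] (.pp true [-1,1]) t46 t47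

theorem ok48 : chk (cU 1 true 3) t48 r22 = true :=
  chk_Q (e' := [0,0,2,0,-1,0,0,0,0,1]) (by decide +kernel) (by decide +kernel) ok46 ok47

noncomputable def t49 : Tre :=
  .Q [0,0,0,0,0,-1,0,0,0,0,1] (.ed false [1,-1,1] .k) t43 t48

theorem ok49 : chk (cU 1 true 3) t49 r0 = true :=
  chk_Q (e' := [0,0,0,0,0,1,0,0,0,0,-1]) (by decide +kernel) (by decide +kernel) ok43 ok48

noncomputable def t50 : Tre :=
  .Q [0,1,1,0,0,0,0,0,1,-1,0,1] (.p true [0,0,0,1] [1] (⟨0,[(4,0)]⟩,⟨0,[(3,0)]⟩) .k 1 (⟨0,[]⟩,⟨0,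
  []⟩) .k .k) t42 t49

theorem ok50 : chk (cU 1 true 3) t50 base = true :=
  chk_Q (e' := [0,-1,-1,0,0,0,0,0,-1,1,0,-1]) (by decide +kernel) (by decide +kernel) ok42 ok49

theorem ok : chkB (cU 1 true 3) (fax (fcU 1) true 1 1 3 true (tU true)) t50 base = true :=
  chkB_of (by decide +kernel) ok50

end Helper11.CT.T1_1_1_1_u
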