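import Pool.Agent.Helper11.CT.T.T1_1_1_1_v_p0
import Pool.Agent.Helper11.CT.T.T1_1_1_1_v_p1

set_option autoImplicit false
set_option linter.all false

namespace Helper11.CT.T1_1_1_1_v

open Helper11.CT

noncomputable def t6 : Tre :=
  .Q [0,0,0,-2,0,0,1,1,0,0,1] (.p true [0,0,1] [] (⟨0,[(21,0)]⟩,⟨0,[(20,0)]⟩) .k 0 (⟨0,[]⟩,⟨0,[]⟩)
  .k .k) t4 t5

theorem ok6 : chk (cU 1 false 3) t6 r7 = true :=
  chk_Q (e' := [0,0,0,2,0,0,-1,-1,0,0,-1]) (by decide +kernel) (by decide +kernel) ok4 ok5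

noncomputable def t7 : Tre :=
  .Q [0,0,0,1,0,0,-1,-1,0,1,-1] (.p false [0,0,1] [1] (⟨0,[(20,0)]⟩,⟨0,[(19,0)]⟩) .k 1 (⟨0,[]⟩,⟨0,
  []⟩) .k .k) t3 t6

theorem ok7 : chk (cU 1 false 3) t7 r6 = true :=
  chk_Q (e' := [0,0,0,-1,0,0,1,1,0,-1,1]) (by decide +kernel) (by decide +kernel) ok3 ok6

noncomputable def t8 : Tre :=
  .Q [0,0,0,0,0,0,-1,-1,0,1,-1] (.p false [0,0,1] [1] (⟨0,[(19,0)]⟩,⟨0,[(18,0)]⟩) .k 1 (⟨0,[]⟩,⟨0,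
  []⟩) .k .k) t2 t7

theorem ok8 : chk (cU 1 false 3) t8 r5 = true :=
  chk_Q (e' := [0,0,0,0,0,0,1,1,0,-1,1]) (by decide +kernel) (by decide +kernel) ok2 ok7

noncomputable def t9 : Tre :=
  .Q [0,0,0,1,0,0,-2,-2,0,1,-2] (.p false [0,0,1] [1,0,-1] (⟨0,[(18,0)]⟩,⟨0,[(17,0)]⟩) .k 2 (⟨0,
  [(17,0)]⟩,⟨0,[(18,0)]⟩) .k (.r 0 ⟨0,[(16,1)]⟩ ⟨2,[(0,1),(0,1),(21,1),(2,0)]⟩)) t1 t8

theorem ok9 : chk (cU 1 false 3) t9 l4 = true :=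
  chk_Q (e' := [0,0,0,-1,0,0,2,2,0,-1,2]) (by decide +kernel) (by decide +kernel) ok1 ok8

noncomputable def t12 : Tre :=
  .I [1,0,-1,-1,0,0,0,1] t10 t11

theorem ok12 : chk (cU 1 false 3) t12 l12 = true :=
  chk_I (e' := [0,0,1,1,0,0,0,-1]) (by decide +kernel) (by decide +kernel) ok10 ok11

noncomputable def t14 : Tre :=
  .I [0,0,-1,0,0,0,0,1] t12 t13

theorem ok14 : chk (cU 1 false 3) t14 l11 = true :=
  chk_I (e' := [1,0,1,0,0,0,0,-1]) (by decide +kernel) (by decide +kernel) ok12 ok13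

noncomputable def t16 : Tre :=
  .Q [0,0,0,0,0,0,1,1,0,-1,1] (.p true [0,0,1] [1] (⟨0,[(20,0)]⟩,⟨0,[(19,0)]⟩) .k 1 (⟨0,[]⟩,⟨0,[]⟩)
  .k .k) t14 t15

theorem ok16 : chk (cU 1 false 3) t16 l10 = true :=
  chk_Q (e' := [0,0,0,0,0,0,-1,-1,0,1,-1]) (by decide +kernel) (by decide +kernel) ok14 ok15

noncomputable def t18 : Tre :=
  .Q [0,0,0,1,0,0,1,1,0,-1,1] (.p true [0,0,1] [1] (⟨0,[(19,0)]⟩,⟨0,[(18,0)]⟩) .k 1 (⟨0,[]⟩,⟨0,[]⟩)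
  .k .k) t16 t17

theorem ok18 : chk (cU 1 false 3) t18 l9 = true :=
  chk_Q (e' := [0,0,0,-1,0,0,-1,-1,0,1,-1]) (by decide +kernel) (by decide +kernel) ok16 ok17

noncomputable def t20 : Tre :=
  .I [0,-1,1,0,0,0,0,1] t18 t19

theorem ok20 : chk (cU 1 false 3) t20 r4 = true :=
  chk_I (e' := [1,1,-1,0,0,0,0,-1]) (by decide +kernel) (by decide +kernel) ok18 ok19

noncomputable def t21 : Tre :=
  .I [0,0,1,1,0,0,0,-2] t9 t20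

theorem ok21 : chk (cU 1 false 3) t21 l3 = true :=
  chk_I (e' := [1,0,-1,-1,0,0,0,2]) (by decide +kernel) (by decide +kernel) ok9 ok20

noncomputable def t26 : Tre :=
  .Q [0,0,0,0,0,1,0,0,0,-1,1] (.ed false [0,1,1] .k) t24 t25

theorem ok26 : chk (cU 1 false 3) t26 r15 = true :=
  chk_Q (e' := [0,0,0,0,0,-1,0,0,0,1,-1]) (by decide +kernel) (by decide +kernel) ok24 ok25

noncomputable def t27 : Tre :=
  .Q [0,-1,0,1,0,0,1,1,0,-1,1] (.p true [0,0,1] [1] (⟨0,[(18,0)]⟩,⟨0,[(17,0)]⟩) .k 1 (⟨0,[]⟩,⟨0,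
  []⟩) .k .k) t23 t26

theorem ok27 : chk (cU 1 false 3) t27 r14 = true :=
  chk_Q (e' := [0,1,0,-1,0,0,-1,-1,0,1,-1]) (by decide +kernel) (by decide +kernel) ok23 ok26

noncomputable def t28 : Tre :=
  .Q [0,0,0,-1,0,0,0,0,0,1] (.pp false [-1,1]) t22 t27

theorem ok28 : chk (cU 1 false 3) t28 r3 = true :=
  chk_Q (e' := [0,0,0,1,0,0,0,0,0,-1]) (by decide +kernel) (by decide +kernel) ok22 ok27

noncomputable def t29 : Tre :=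
  .I [1,0,-1,0,1,0,0,-1] t21 t28

theorem ok29 : chk (cU 1 false 3) t29 l2 = true :=
  chk_I (e' := [0,0,1,0,-1,0,0,1]) (by decide +kernel) (by decide +kernel) ok21 ok28

noncomputable def t31 : Tre :=
  .Q [0,0,0,-1,0,0,1,1,0,0,1] (.p true [0,0,1] [] (⟨0,[(15,0)]⟩,⟨0,[(14,0)]⟩) .k 0 (⟨0,[]⟩,⟨0,[]⟩)
  .k .k) t29 t30

theorem ok31 : chk (cU 1 false 3) t31 r1 = true :=
  chk_Q (e' := [0,0,0,1,0,0,-1,-1,0,0,-1]) (by decide +kernel) (by decide +kernel) ok29 ok30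

noncomputable def t32 : Tre :=
  .Q [0,0,0,0,0,0,1,0,0,0,1] (.p true [0,0,1] [] (⟨0,[(14,0)]⟩,⟨0,[(13,0)]⟩) .k 0 (⟨0,[]⟩,⟨0,[]⟩)
  .k .k) t0 t31

theorem ok32 : chk (cU 1 false 3) t32 l0 = true :=
  chk_Q (e' := [0,0,0,0,0,0,-1,0,0,0,-1]) (by decide +kernel) (by decide +kernel) ok0 ok31

noncomputable def t35 : Tre :=
  .I [0,0,1,1,0,0,0,-1] t33 t34

theorem ok35 : chk (cU 1 false 3) t35 l18 = true :=
  chk_I (e' := [1,0,-1,-1,0,0,0,1]) (by decide +kernel) (by decide +kernel) ok33 ok34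

noncomputable def t38 : Tre :=
  .I [1,-1,0,-1,0,0,0,1] t36 t37

theorem ok38 : chk (cU 1 false 3) t38 r18 = true :=
  chk_I (e' := [0,1,0,1,0,0,0,-1]) (by decide +kernel) (by decide +kernel) ok36 ok37

noncomputable def t39 : Tre :=
  .Q [0,0,0,0,0,0,1,0,0,0,1] (.p true [0,0,1] [] (⟨0,[(15,0)]⟩,⟨0,[(14,0)]⟩) .k 0 (⟨0,[]⟩,⟨0,[]⟩)
  .k .k) t35 t38

theorem ok39 : chk (cU 1 false 3) t39 l17 = true :=
  chk_Q (e' := [0,0,0,0,0,0,-1,0,0,0,-1]) (by decide +kernel) (by decide +kernel) ok35 ok38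

noncomputable def t41 : Tre :=
  .Q [0,0,-1,0,1,0,-1,0,0,-1,-1] (.p false [1,-1,1] [] (⟨0,[(14,0),(1,0)]⟩,⟨0,[(0,0)]⟩) .k 0 (⟨0,
  []⟩,⟨0,[]⟩) .k .k) t39 t40

theorem ok41 : chk (cU 1 false 3) t41 r0 = true :=
  chk_Q (e' := [0,0,1,0,-1,0,1,0,0,1,1]) (by decide +kernel) (by decide +kernel) ok39 ok40

noncomputable def t42 : Tre :=
  .Q [0,0,0,0,0,-1,0,0,0,0,1] (.ed false [1,-1,1] .k) t32 t41

theorem ok42 : chk (cU 1 false 3) t42 base = true :=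
  chk_Q (e' := [0,0,0,0,0,1,0,0,0,0,-1]) (by decide +kernel) (by decide +kernel) ok32 ok41

theorem ok : chkB (cU 1 false 3) (fax (fcU 1) true 1 1 3 true (tU false)) t42 base = true :=
  chkB_of (by decide +kernel) ok42

end Helper11.CT.T1_1_1_1_v
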