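import Pool.Agent.Helper11.CT.Cfg
import Pool.Agent.Helper11.CT.Cut

set_option autoImplicit false
set_option linter.all false

namespace Helper11.CT.T1_1_m1_1_u

open Helper11.CT

noncomputable def base : List Con :=
  [(false,[0,0,0,0,0,0,2,2,0,1,-2]),
  (true,[0,0,0,0,1,0,0,0,-2]),
  (true,[0,0,0,0,1,0,0,0,2]),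
  (false,[0,0,0,0,0,0,0,0,0,1,0,-1]),
  (false,[0,0,0,0,0,0,0,0,0,0,0,1]),
  (false,[0,1,0,0,0,0,-1,-1,0,-1,1]),
  (false,[0,0,1,0,0,0,-1,0,0,-1,1]),
  (false,[0,1,0,0,0,0,1,1,0,0,-1]),
  (false,[0,1,0,0,0,0,-1,-1,0,0,1]),
  (false,[0,0,1,0,0,0,1,0,0,0,-1]),
  (false,[0,0,1,0,0,0,-1,0,0,0,1]),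
  (true,[0,0,0,0,0,0,0,1]),
  (false,[0,0,0,0,0,0,0,0,0,1,-1]),
  (false,[0,0,0,0,0,0,0,0,0,0,1]),
  (false,[0,0,0,0,1,0,0,0,0,-2]),
  (false,[0,0,0,0,0,-1,0,0,0,1]),
  (true,[0,0,0,0,0,1]),
  (true,[0,1,-1,-1]),
  (true,[0,1,0,-1]),
  (true,[0,0,0,1]),
  (true,[0,0,-2,0,1]),
  (true,[0,-2,0,0,1]),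
  (true,[-1,0,1]),
  (true,[-1,1])]

noncomputable def l0 : List Con := (true, [0,-1,-1,-1,1,0,0,-1]) :: base

noncomputable def r0 : List Con := (true, [1,1,1,1,-1,0,0,1]) :: base

noncomputable def l1 : List Con := (false, [0,0,0,0,0,-1,0,0,0,0,1]) :: l0

noncomputable def r1 : List Con := (false, [0,0,0,0,0,1,0,0,0,0,-1]) :: l0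

noncomputable def t0 : Tre :=
  (.Q [0,0,0,1,0,0,-1,-1,0,0,1] (.p true [0,0,1] [] (⟨0,[(15,0)]⟩,⟨0,[(14,0)]⟩) .k 0 (⟨0,[]⟩,⟨0,
  []⟩) .k .k) (.Q [0,0,0,0,0,0,1,0,0,1,-1] (.p false [0,0,1] [1] (⟨0,[(16,0)]⟩,⟨0,[(15,0)]⟩) .k 1
  (⟨0,[]⟩,⟨0,[]⟩) .k .k) (.Q [0,0,0,0,0,0,-1,0,0,0,1] (.p true [0,0,1] [] (⟨0,[(17,0)]⟩,⟨0,[(16,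
  0)]⟩) .k 0 (⟨0,[]⟩,⟨0,[]⟩) .k .k) (.K ⟨0,[0,-1,1],0,0,(⟨0,[(3,0)]⟩,⟨0,[(17,0),(3,0)]⟩),.k,(.r
  (-1) ⟨0,[(4,0),(11,1),(5,0)]⟩ ⟨1,[(2,1),(11,2),(0,0),(8,1)]⟩),.k,.k,.k,[⟨0,[(0,0)]⟩,⟨0,[(1,0)]⟩,
  ⟨0,[(13,0),(10,0)]⟩,⟨1,[(5,0),(5,0),(2,0),(7,1)]⟩]⟩) (.Q [0,0,0,0,0,1,0,0,0,-1,1] (.ed false [0,1,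
  1] .k) (.Q [0,1,0,-1,0,0,-1,-1,0,-1,1] (.p true [0,0,1] [1] (⟨0,[(19,0)]⟩,⟨0,[(18,0)]⟩) .k 1 (⟨0,
  []⟩,⟨0,[]⟩) .k .k) (.K ⟨2,[-1,1,1],0,0,(⟨0,[(1,0)]⟩,⟨0,[(19,0),(2,0)]⟩),.k,.k,(.r 0 ⟨1,[(7,0),(5,
  0),(2,0),(0,1),(8,3)]⟩ ⟨0,[(6,0),(17,0)]⟩),.k,.k,[⟨1,[(4,1),(2,0),(2,0),(0,0)]⟩,⟨0,[(0,0)]⟩,⟨1,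
  [(13,1),(2,0),(0,0)]⟩,⟨0,[(3,0)]⟩]⟩) (.R ⟨2,true,false,true,[0,1],[1,0,-1],[1,1,1],(⟨0,[]⟩,⟨0,
  []⟩),(⟨0,[(19,0)]⟩,⟨0,[(20,0)]⟩),⟨0,[]⟩,.k,.k,.k,.k,.k,.k,⟨false,0,⟨0,[(18,0)]⟩,⟨2,[(3,1),(0,0),
  (1,0),(8,0),(5,0),(5,0)]⟩⟩,⟨true,0,⟨0,[(13,0)]⟩,⟨0,[(3,0)]⟩⟩,⟨true,0,⟨0,[(25,0)]⟩,⟨0,[(26,0)]⟩⟩,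
  ⟨false,1,⟨11,[(6,7),(1,0),(0,0),(3,7),(1,3),(5,1),(3,3)]⟩,⟨0,[(0,0)]⟩⟩,⟨false,0,⟨0,[]⟩,⟨3,[(8,0),
  (0,0),(18,1)]⟩⟩,⟨true,0,⟨0,[(12,0)]⟩,⟨1,[(7,0),(2,0),(0,0)]⟩⟩,[]⟩)) (.Q [0,1,0,-1,0,0,-1,-1,0,0,
  1] (.p true [0,0,1] [] (⟨0,[(19,0)]⟩,⟨0,[(18,0)]⟩) .k 0 (⟨0,[]⟩,⟨0,[]⟩) .k .k) (.K ⟨2,[0,1,1],0,0,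
  (⟨0,[(20,0),(2,0)]⟩,⟨0,[(1,0)]⟩),.k,.k,(.r 0 ⟨1,[(7,0),(5,0),(2,0),(0,1),(8,3)]⟩ ⟨0,[(6,0),(17,
  0)]⟩),.k,.k,[⟨0,[(26,0)]⟩,⟨0,[(0,0)]⟩,⟨1,[(16,0),(0,2)]⟩,⟨0,[(2,0)]⟩]⟩) (.R ⟨2,true,false,true,[0,
  1],[1,0,-1],[1,1,1],(⟨0,[]⟩,⟨0,[]⟩),(⟨0,[(19,0)]⟩,⟨0,[(20,0)]⟩),⟨0,[]⟩,.k,.k,.k,.k,.k,.k,⟨false,0,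
  ⟨0,[(18,0)]⟩,⟨2,[(3,1),(0,0),(1,0),(8,0),(5,0),(5,0)]⟩⟩,⟨true,0,⟨0,[(13,0)]⟩,⟨0,[(3,0)]⟩⟩,⟨true,0,
  ⟨0,[(25,0)]⟩,⟨0,[(26,0)]⟩⟩,⟨false,1,⟨11,[(6,7),(1,0),(0,0),(3,7),(1,3),(5,1),(3,3)]⟩,⟨0,[(0,0),(9,
  0),(0,0)]⟩⟩,⟨false,0,⟨0,[]⟩,⟨3,[(8,0),(0,0),(18,1)]⟩⟩,⟨true,0,⟨0,[(12,0)]⟩,⟨1,[(7,0),(2,0),(0,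
  0)]⟩⟩,[]⟩)))) (.Q [0,0,0,0,0,0,-1,-1,0,0,1] (.p true [0,0,1] [] (⟨0,[(17,0)]⟩,⟨0,[(16,0)]⟩) .k 0
  (⟨0,[]⟩,⟨0,[]⟩) .k .k) (.R ⟨2,false,false,false,[0,1],[0,0,1],[1,1,1],(⟨0,[]⟩,⟨0,[]⟩),(⟨0,[(18,
  0)]⟩,⟨0,[(17,0)]⟩),⟨0,[]⟩,.k,.k,.k,.k,.k,.k,⟨false,0,⟨0,[(2,0),(11,0),(7,0)]⟩,⟨1,[(16,1),(8,0),(0,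
  0)]⟩⟩,⟨true,0,⟨0,[(14,0)]⟩,⟨0,[(0,0),(15,0)]⟩⟩,⟨true,0,⟨0,[(23,0)]⟩,⟨0,[(24,0)]⟩⟩,⟨false,1,⟨0,[(4,
  0),(0,0),(5,0)]⟩,⟨0,[(2,0)]⟩⟩,⟨false,0,⟨0,[]⟩,⟨3,[(6,0),(0,0),(18,1)]⟩⟩,⟨false,1,⟨7,[(5,3),(0,0),
  (0,0),(11,1),(6,3)]⟩,⟨0,[(0,0)]⟩⟩,[.a ⟨true,0,⟨1,[(5,0),(2,0),(0,0)]⟩,⟨0,[(0,0)]⟩⟩ ⟨false,0,⟨0,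
  [(28,0)]⟩,⟨1,[(25,0),(0,0)]⟩⟩ ⟨true,0,⟨1,[(5,0),(5,0),(2,0)]⟩,⟨0,[(0,0)]⟩⟩,.o ⟨false,1,⟨7,[(5,3),
  (0,0),(0,0),(11,1),(6,3)]⟩,⟨0,[(10,0)]⟩⟩,.o ⟨false,1,⟨3,[(6,0),(0,0),(17,1)]⟩,⟨0,[(1,0),(12,0)]⟩⟩,
  .e ⟨false,0,⟨0,[]⟩,⟨3,[(6,0),(0,0),(18,1)]⟩⟩ ⟨false,1,⟨7,[(5,3),(0,0),(0,0),(11,1),(6,3)]⟩,⟨0,[(0,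
  0)]⟩⟩]⟩) (.R ⟨2,true,false,false,[0,1],[0,0,1],[1,1,1],(⟨0,[]⟩,⟨0,[]⟩),(⟨0,[(18,0)]⟩,⟨0,[(17,
  0)]⟩),⟨0,[]⟩,.k,.k,.k,.k,.k,.k,⟨false,0,⟨0,[(2,0),(11,0),(7,0)]⟩,⟨1,[(16,1),(8,0),(0,0)]⟩⟩,⟨true,
  0,⟨0,[(14,0)]⟩,⟨0,[(1,0),(6,0),(0,0)]⟩⟩,⟨true,0,⟨0,[(23,0)]⟩,⟨0,[(24,0)]⟩⟩,⟨false,1,⟨0,[(0,0),(22,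
  0),(2,0)]⟩,⟨0,[(2,0)]⟩⟩,⟨false,0,⟨0,[]⟩,⟨3,[(6,0),(0,0),(18,1)]⟩⟩,⟨true,0,⟨0,[(0,0)]⟩,⟨0,[(13,
  0)]⟩⟩,[]⟩))) (.Q [0,0,1,0,0,0,0,0,0,-1] (.pp true [-1,1]) (.Q [0,1,-1,0,0,0,0,0,-1,0,0,1] (.p
  true [0,0,0,1] [] (⟨0,[(8,0)]⟩,⟨0,[(7,0)]⟩) .k 0 (⟨0,[]⟩,⟨0,[]⟩) .k .k) (.Q [0,1,1,0,0,0,0,0,1,0,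
  0,-1] (.p false [0,0,0,1] [] (⟨0,[(9,0)]⟩,⟨0,[(8,0)]⟩) .k 0 (⟨0,[]⟩,⟨0,[]⟩) .k .k) (.I [0,0,1,1,0,
  0,0,0,-1] (.K ⟨0,[0,0,0,1],0,0,(⟨0,[(11,0)]⟩,⟨0,[(10,0)]⟩),.k,(.r (-1) ⟨1,[(6,0),(2,0),(8,0),(5,
  0)]⟩ ⟨0,[(0,0)]⟩),(.x 0 ⟨0,[(23,0)]⟩ ⟨3,[(8,0),(0,0),(11,1),(0,3)]⟩),.k,.k,[⟨0,[(11,0)]⟩,⟨0,[(10,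
  0)]⟩,⟨0,[(2,0)]⟩,⟨0,[(1,0)]⟩]⟩) (.K ⟨0,[0,0,0,1],0,0,(⟨0,[(11,0)]⟩,⟨0,[(10,0)]⟩),.k,(.x 0 ⟨0,[(13,
  0),(2,0),(5,0)]⟩ ⟨0,[(23,0),(3,0)]⟩),(.x 0 ⟨0,[(23,0)]⟩ ⟨3,[(8,0),(0,0),(11,1),(0,3)]⟩),.k,.k,[⟨0,
  [(11,0)]⟩,⟨0,[(10,0)]⟩,⟨0,[(2,0)]⟩,⟨0,[(1,0)]⟩]⟩)) (.Q [0,0,0,0,0,1,0,0,0,-1,0,1] (.p true [0,0,0,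
  1] [1] (⟨0,[(10,0)]⟩,⟨0,[(9,0)]⟩) .k 1 (⟨0,[]⟩,⟨0,[]⟩) .k .k) (.R ⟨0,false,false,false,[1,0,0,-1],
  [0,1],[0,1,0,0,0,0,0,0,-1],(⟨0,[(10,0)]⟩,⟨0,[(11,0)]⟩),(⟨0,[(23,0)]⟩,⟨0,[(22,0)]⟩),⟨0,[(0,0)]⟩,.k,
  .k,(.x (-1) ⟨3,[(8,0),(0,0),(11,1),(0,3)]⟩ ⟨0,[(23,0)]⟩),(.x (-1) ⟨3,[(8,0),(0,0),(11,1),(0,3)]⟩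
  ⟨0,[(23,0)]⟩),.k,.k,⟨false,0,⟨0,[(1,0),(1,0),(6,0),(13,1),(1,0)]⟩,⟨1,[(9,0),(6,0),(0,0),(8,1),(1,
  0)]⟩⟩,⟨true,0,⟨0,[(10,0)]⟩,⟨0,[(3,0),(7,0)]⟩⟩,⟨true,0,⟨0,[(30,0)]⟩,⟨0,[]⟩⟩,⟨false,1,⟨1,[(9,0),(0,
  1),(5,0),(0,0),(8,1),(1,0)]⟩,⟨0,[(1,0),(1,0),(20,0)]⟩⟩,⟨false,0,⟨0,[]⟩,⟨0,[]⟩⟩,⟨false,0,⟨0,[]⟩,⟨0,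
  []⟩⟩,[.o ⟨false,0,⟨0,[(26,0)]⟩,⟨1,[(21,0),(3,1),(2,0)]⟩⟩,.o ⟨false,1,⟨3,[(8,0),(0,0),(16,3),(1,
  1)]⟩,⟨0,[(3,0),(20,0)]⟩⟩,.o ⟨false,1,⟨1,[(11,1),(9,0),(5,0)]⟩,⟨0,[(3,0),(6,0)]⟩⟩,.a ⟨true,0,⟨0,
  [(11,0)]⟩,⟨0,[(10,0)]⟩⟩ ⟨false,0,⟨0,[(1,0),(1,0),(6,0),(13,0),(1,0)]⟩,⟨1,[(9,0),(6,0),(0,0),(10,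
  0)]⟩⟩ ⟨true,0,⟨0,[(10,0),(15,0)]⟩,⟨0,[(3,0),(7,0),(12,0)]⟩⟩]⟩) (.Q [0,0,0,0,0,0,-1,0,0,0,1,-1]
  (.p true [0,0,1] [0,0,0,1] (⟨0,[(20,0)]⟩,⟨0,[(19,0)]⟩) .k 2 (⟨0,[(11,0)]⟩,⟨0,[(10,0)]⟩) .k (.r 0
  ⟨1,[(1,0),(0,0),(0,1),(6,1),(7,1)]⟩ ⟨1,[(6,0),(2,0),(5,0),(0,0),(9,0)]⟩)) (.I [0,0,-2,-2,0,0,0,0,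
  -1] (.R ⟨1,false,false,false,[1,0,0,-1],[0,1],[0,1,0,0,0,0,0,0,-1],(⟨0,[(12,0)]⟩,⟨0,[(13,0)]⟩),
  (⟨0,[(25,0)]⟩,⟨0,[(24,0)]⟩),⟨0,[(2,0)]⟩,.k,.k,(.x (-1) ⟨3,[(10,0),(0,0),(11,1),(0,3)]⟩ ⟨0,[(25,
  0)]⟩),(.x (-1) ⟨3,[(10,0),(0,0),(11,1),(0,3)]⟩ ⟨0,[(25,0)]⟩),(.r 0 ⟨0,[(0,0)]⟩ ⟨3,[(10,0),(0,2),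
  (6,3),(0,3),(8,7)]⟩),.k,⟨false,0,⟨3,[(0,2),(3,0),(7,0),(1,0),(1,0),(9,0),(1,2)]⟩,⟨1,[(11,0),(6,0),
  (0,0),(8,1),(1,0)]⟩⟩,⟨true,0,⟨0,[(12,0)]⟩,⟨0,[(5,0),(7,0)]⟩⟩,⟨true,0,⟨0,[(32,0)]⟩,⟨0,[]⟩⟩,⟨false,
  1,⟨1,[(11,0),(0,1),(5,0),(0,0),(8,1),(1,0)]⟩,⟨0,[(3,0),(1,0),(20,0)]⟩⟩,⟨false,0,⟨0,[(28,0)]⟩,⟨0,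
  [(27,0),(2,0)]⟩⟩,⟨false,1,⟨1,[(11,0),(0,1),(5,0),(0,0),(8,3),(1,0)]⟩,⟨0,[(0,0),(4,0),(7,0)]⟩⟩,[.o
  ⟨false,0,⟨0,[(28,0)]⟩,⟨1,[(23,0),(3,1),(2,0)]⟩⟩,.o ⟨false,1,⟨3,[(10,0),(0,0),(16,3),(1,1)]⟩,⟨0,
  [(5,0),(20,0)]⟩⟩,.o ⟨false,1,⟨1,[(13,1),(9,0),(5,0)]⟩,⟨0,[(5,0),(6,0)]⟩⟩,.a ⟨true,0,⟨0,[(13,0)]⟩,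
  ⟨0,[(12,0)]⟩⟩ ⟨false,0,⟨3,[(0,1),(2,0),(0,0),(0,1),(6,1),(15,3)]⟩,⟨1,[(11,0),(6,0),(0,0),(10,
  0)]⟩⟩ ⟨true,0,⟨0,[(12,0),(15,0)]⟩,⟨0,[(5,0),(7,0),(12,0)]⟩⟩]⟩) (.R ⟨1,false,false,false,[1,0,0,
  -1],[1,1,-1],[1,0,0,-1,0,0,0,0,-1],(⟨0,[(12,0)]⟩,⟨0,[(13,0)]⟩),(⟨0,[(21,0),(3,0)]⟩,⟨0,[(7,0)]⟩),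
  ⟨0,[(2,0)]⟩,.k,.k,(.x (-1) ⟨3,[(10,0),(0,0),(11,1),(0,3)]⟩ ⟨0,[(25,0)]⟩),(.r 0 ⟨1,[(1,1),(1,0),(0,
  0),(1,1)]⟩ ⟨15,[(0,11),(7,7),(1,0),(0,2),(5,7),(0,7),(10,3)]⟩),(.r 0 ⟨0,[(1,0),(1,0),(2,0),(19,
  0)]⟩ ⟨15,[(0,19),(7,7),(1,2),(0,0),(5,7),(0,7),(10,3)]⟩),.k,⟨false,0,⟨0,[(1,0),(1,0),(2,0),(19,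
  0)]⟩,⟨1,[(0,1),(7,0),(8,0),(0,0),(9,0),(0,0)]⟩⟩,⟨true,0,⟨0,[(1,0)]⟩,⟨0,[(13,0),(4,0)]⟩⟩,⟨false,1,
  ⟨0,[(27,0),(2,0)]⟩,⟨0,[(28,0)]⟩⟩,⟨false,1,⟨0,[(0,0),(0,0),(6,0)]⟩,⟨1,[(3,0),(0,0),(1,1)]⟩⟩,⟨true,
  0,⟨0,[]⟩,⟨0,[(32,0)]⟩⟩,⟨false,1,⟨0,[(0,0),(0,0),(6,0),(19,0)]⟩,⟨0,[(3,0),(2,0),(20,0)]⟩⟩,[.o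
  ⟨false,1,⟨5,[(0,1),(9,0),(3,5),(13,1),(0,1),(0,2)]⟩,⟨0,[(6,0)]⟩⟩,.o ⟨false,1,⟨0,[(14,0),(13,0),(1,
  0)]⟩,⟨1,[(6,0),(9,0),(10,0)]⟩⟩,.o ⟨false,1,⟨1,[(13,1),(9,0),(5,0)]⟩,⟨0,[(5,0),(6,0)]⟩⟩,.a ⟨true,0,
  ⟨0,[(13,0)]⟩,⟨0,[(12,0)]⟩⟩ ⟨true,0,⟨0,[(3,0),(1,0),(6,0),(13,0)]⟩,⟨0,[(0,0),(25,0)]⟩⟩ ⟨false,1,⟨0,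
  [(12,0),(1,0),(13,0),(1,0)]⟩,⟨0,[(6,0),(6,0)]⟩⟩]⟩)) (.R ⟨1,false,false,true,[1,0,0,-1],[1,0,-1],
  [0,1,0,0,0,0,0,0,-1],(⟨0,[(11,0)]⟩,⟨0,[(12,0)]⟩),(⟨0,[(20,0)]⟩,⟨0,[(21,0)]⟩),⟨0,[(1,0)]⟩,.k,.k,
  (.x (-1) ⟨3,[(9,0),(0,0),(11,1),(0,3)]⟩ ⟨0,[(24,0)]⟩),.k,(.r 0 ⟨0,[(2,0),(1,0),(6,0),(7,0),(5,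
  0)]⟩ ⟨1,[(10,0),(5,1),(0,1),(9,1),(1,0)]⟩),.k,⟨false,0,⟨0,[(2,0),(1,0),(6,0),(7,0),(5,0),(1,0)]⟩,
  ⟨1,[(7,0),(2,0),(5,0),(0,0),(9,0)]⟩⟩,⟨true,0,⟨0,[(11,0),(2,0)]⟩,⟨0,[(0,0)]⟩⟩,⟨true,0,⟨0,[(31,0)]⟩,
  ⟨0,[]⟩⟩,⟨false,1,⟨1,[(4,1),(5,0),(0,1),(4,1),(12,0)]⟩,⟨0,[(2,0),(2,0),(21,0)]⟩⟩,⟨false,0,⟨0,[(27,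
  0)]⟩,⟨0,[(26,0),(2,0)]⟩⟩,⟨false,1,⟨1,[(4,1),(5,0),(0,1),(4,1),(10,1),(1,0)]⟩,⟨0,[(2,0),(2,0)]⟩⟩,
  [.o ⟨false,0,⟨0,[(13,0)]⟩,⟨7,[(8,3),(0,0),(0,0),(11,1),(6,3)]⟩⟩,.o ⟨false,1,⟨1,[(16,1),(5,0),(6,
  0)]⟩,⟨0,[(5,0),(21,0)]⟩⟩,.o ⟨false,1,⟨1,[(12,1),(9,0),(5,0)]⟩,⟨0,[(4,0),(6,0)]⟩⟩,.a ⟨true,0,⟨0,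
  [(12,0)]⟩,⟨0,[(11,0)]⟩⟩ ⟨false,0,⟨0,[(2,0),(1,0),(6,0),(13,0),(1,0)]⟩,⟨1,[(10,0),(6,0),(0,0),(10,
  0)]⟩⟩ ⟨true,0,⟨0,[(11,0),(1,0)]⟩,⟨0,[(0,0),(18,0)]⟩⟩]⟩)))) (.Q [0,0,0,0,0,-1,0,0,0,1,0,-1] (.p
  false [0,0,0,1] [1] (⟨0,[(9,0)]⟩,⟨0,[(8,0)]⟩) .k 1 (⟨0,[]⟩,⟨0,[]⟩) .k .k) (.I [0,0,-2,-2,1,0,0,0,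
  -1] (.R ⟨1,false,false,false,[1,0,0,-1],[0,1],[0,1,0,0,0,0,0,0,-1],(⟨0,[(10,0)]⟩,⟨0,[(11,0)]⟩),
  (⟨0,[(23,0)]⟩,⟨0,[(22,0)]⟩),⟨0,[(1,0)]⟩,.k,.k,(.x (-1) ⟨3,[(8,0),(0,0),(11,1),(0,3)]⟩ ⟨0,[(23,
  0)]⟩),(.x (-1) ⟨3,[(8,0),(0,0),(11,1),(0,3)]⟩ ⟨0,[(23,0)]⟩),(.r (-1) ⟨0,[(0,0)]⟩ ⟨1,[(2,1),(8,1),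
  (4,0),(0,0),(8,3),(3,1)]⟩),.k,⟨false,1,⟨1,[(8,0),(15,1),(2,0)]⟩,⟨0,[(2,0),(8,0),(14,0)]⟩⟩,⟨true,0,
  ⟨0,[(10,0)]⟩,⟨0,[(3,0),(7,0)]⟩⟩,⟨true,0,⟨0,[(30,0)]⟩,⟨0,[]⟩⟩,⟨false,0,⟨0,[(2,0),(7,0),(0,0),(14,
  0)]⟩,⟨0,[(0,0),(2,0),(7,0),(14,0)]⟩⟩,⟨false,0,⟨0,[(26,0)]⟩,⟨0,[(25,0),(2,0)]⟩⟩,⟨false,0,⟨0,[(2,0),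
  (7,0),(0,0),(14,1)]⟩,⟨0,[(0,0),(2,0),(7,0)]⟩⟩,[.o ⟨false,0,⟨0,[(26,0)]⟩,⟨1,[(21,0),(3,1),(2,0)]⟩⟩,
  .o ⟨false,1,⟨3,[(8,0),(0,0),(16,3),(1,1)]⟩,⟨0,[(3,0),(20,0)]⟩⟩,.o ⟨false,1,⟨1,[(11,1),(9,0),(5,
  0)]⟩,⟨0,[(3,0),(6,0)]⟩⟩,.a ⟨true,0,⟨0,[(11,0)]⟩,⟨0,[(10,0)]⟩⟩ ⟨false,1,⟨1,[(8,0),(18,0)]⟩,⟨0,[(2,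
  0),(8,0)]⟩⟩ ⟨true,0,⟨0,[(10,0),(15,0)]⟩,⟨0,[(3,0),(7,0),(12,0)]⟩⟩]⟩) (.Q [0,0,0,0,0,1,0,0,0,-1,1]
  (.ed false [0,1,1] .k) (.Q [0,0,-1,0,0,0,1,0,0,2,-1] (.p false [-1,1,1] [1] (⟨0,[(0,0)]⟩,⟨0,[(20,
  0),(2,0)]⟩) .k 1 (⟨0,[]⟩,⟨0,[]⟩) .k .k) (.R ⟨0,false,false,false,[-1,1,1],[0,0,1],[0,1,1,1,0,0,0,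
  1],(⟨0,[(1,0)]⟩,⟨0,[(21,0),(2,0)]⟩),(⟨0,[(22,0)]⟩,⟨0,[(21,0)]⟩),⟨0,[(21,0)]⟩,.k,.k,.k,.k,.k,.k,
  ⟨false,0,⟨0,[(28,0),(3,0)]⟩,⟨0,[(8,0),(11,0)]⟩⟩,⟨true,0,⟨0,[(5,0)]⟩,⟨1,[(0,0),(18,0)]⟩⟩,⟨true,0,
  ⟨0,[(32,0)]⟩,⟨0,[]⟩⟩,⟨false,1,⟨3,[(6,1),(1,1),(6,1),(7,0),(6,0)]⟩,⟨1,[(0,0),(18,0),(8,1)]⟩⟩,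
  ⟨false,0,⟨0,[]⟩,⟨0,[]⟩⟩,⟨false,0,⟨0,[]⟩,⟨0,[]⟩⟩,[.o ⟨false,0,⟨0,[(6,0),(21,0)]⟩,⟨1,[(17,1),(5,0),
  (6,0)]⟩⟩,.o ⟨false,1,⟨7,[(9,3),(0,0),(0,0),(11,1),(6,3)]⟩,⟨0,[(14,0)]⟩⟩,.a ⟨true,0,⟨0,[(0,0)]⟩,⟨0,
  [(15,0)]⟩⟩ ⟨false,0,⟨7,[(2,3),(7,2),(0,0),(8,7)]⟩,⟨0,[(8,0)]⟩⟩ ⟨true,0,⟨0,[(5,0),(14,0)]⟩,⟨0,[(0,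
  0),(13,0)]⟩⟩,.o ⟨false,0,⟨1,[(0,0),(17,0)]⟩,⟨1,[(15,1),(7,0),(5,0)]⟩⟩]⟩) (.Q [0,0,1,1,-1,0,1,1,1,
  2,-1,-1] (.p false [-1,1,1] [1,0,0,-1] (⟨0,[(1,0)]⟩,⟨0,[(21,0),(2,0)]⟩) .k 2 (⟨0,[(12,0)]⟩,⟨0,
  [(13,0)]⟩) .k (.r 0 ⟨2,[(2,0),(1,1),(8,1),(6,2),(5,1),(2,0)]⟩ ⟨1,[(8,0),(1,0),(6,0),(0,0),(9,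
  0)]⟩)) (.Q [0,0,0,0,0,0,1,0,0,1,-1] (.p false [0,0,1] [1] (⟨0,[(23,0)]⟩,⟨0,[(22,0)]⟩) .k 1 (⟨0,
  []⟩,⟨0,[]⟩) .k .k) (.R ⟨1,false,false,true,[1,0,0,-1],[-1,1,1],[1,0,0,-1,0,0,0,0,-1],(⟨0,[(14,
  0)]⟩,⟨0,[(15,0)]⟩),(⟨0,[(3,0)]⟩,⟨0,[(23,0),(2,0)]⟩),⟨0,[(5,0)]⟩,.k,.k,(.x (-1) ⟨3,[(12,0),(0,0),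
  (11,1),(0,3)]⟩ ⟨0,[(27,0)]⟩),(.x (-1) ⟨1,[(17,1),(5,1),(1,0),(0,1),(4,0)]⟩ ⟨0,[(0,0),(2,0)]⟩),(.r
  (-2) ⟨1,[(10,1),(1,0),(16,1),(1,0)]⟩ ⟨0,[(4,0),(17,0)]⟩),.k,⟨false,2,⟨1,[(10,2),(1,0),(9,0),(5,
  0)]⟩,⟨0,[(4,0),(17,0),(5,0),(1,0)]⟩⟩,⟨true,0,⟨0,[(0,0),(13,0)]⟩,⟨0,[(2,0),(12,0)]⟩⟩,⟨false,1,⟨0,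
  [(29,0),(2,0)]⟩,⟨0,[(30,0)]⟩⟩,⟨false,(-1),⟨0,[(1,0)]⟩,⟨1,[(2,1),(7,1),(1,0),(2,1),(15,0)]⟩⟩,⟨true,
  0,⟨0,[]⟩,⟨0,[(34,0)]⟩⟩,⟨false,(-1),⟨0,[(1,0),(28,0)]⟩,⟨1,[(2,1),(7,2),(1,0),(2,1),(6,0),(5,0)]⟩⟩,
  [.o ⟨false,0,⟨5,[(1,1),(9,1),(0,0),(2,1),(14,3),(0,0),(2,5)]⟩,⟨0,[(2,0),(7,0)]⟩⟩,.o ⟨false,0,⟨5,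
  [(1,1),(9,1),(0,0),(2,1),(14,3),(0,0)]⟩,⟨2,[(2,1),(7,1),(8,0),(5,0),(3,0)]⟩⟩,.o ⟨false,1,⟨1,[(15,
  1),(9,0),(5,0)]⟩,⟨0,[(7,0),(6,0)]⟩⟩,.a ⟨true,0,⟨0,[(15,0)]⟩,⟨0,[(14,0)]⟩⟩ ⟨true,1,⟨1,[(10,0),(1,
  0),(9,0),(5,0)]⟩,⟨0,[(4,0),(23,0)]⟩⟩ ⟨false,0,⟨1,[(1,1),(10,0),(18,0)]⟩,⟨0,[(2,0),(7,0),(4,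
  0)]⟩⟩]⟩) (.Q [0,-1,0,0,0,0,2,2,0,2,-2] (.p false [0,0,1] [2,-1,-1] (⟨0,[(24,0)]⟩,⟨0,[(23,0)]⟩) .k
  2 (⟨0,[(23,0),(2,0)]⟩,⟨0,[(3,0)]⟩) .k (.r 0 ⟨0,[(22,1)]⟩ ⟨0,[(10,0),(8,0),(0,0),(9,0)]⟩)) (.Q [0,
  -1,-1,-1,1,0,1,1,-1,0,-1,1] (.p false [0,0,1] [0,0,0,1] (⟨0,[(25,0)]⟩,⟨0,[(24,0)]⟩) .k 2 (⟨0,[(16,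
  0)]⟩,⟨0,[(15,0)]⟩) .k (.r (-1) ⟨3,[(13,2),(0,0),(8,3)]⟩ ⟨0,[(5,0),(5,0),(17,0)]⟩)) (.R ⟨1,false,
  false,false,[1,0,0,-1],[1,1,-1],[1,0,0,-1,0,0,0,0,-1],(⟨0,[(16,0)]⟩,⟨0,[(17,0)]⟩),(⟨0,[(25,0),(3,
  0)]⟩,⟨0,[(11,0)]⟩),⟨0,[(7,0)]⟩,.k,.k,(.x (-1) ⟨3,[(14,0),(0,0),(11,1),(0,3)]⟩ ⟨0,[(29,0)]⟩),(.r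
  (-1) ⟨3,[(0,1),(1,1),(11,0),(1,1),(7,1),(6,1),(1,0)]⟩ ⟨13,[(6,11),(5,7),(2,0),(5,5),(0,5),(7,1),
  (2,2)]⟩),(.r (-1) ⟨0,[(0,0),(1,0),(13,0),(13,0)]⟩ ⟨15,[(6,19),(5,7),(1,4),(0,2),(5,7),(0,7),(10,
  3)]⟩),.k,⟨false,1,⟨0,[(0,0),(1,0),(13,0),(13,0)]⟩,⟨1,[(6,1),(5,0),(8,0),(0,0),(9,0),(0,0)]⟩⟩,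
  ⟨true,0,⟨0,[(2,0),(13,0)]⟩,⟨0,[(17,0),(4,0)]⟩⟩,⟨false,1,⟨0,[(31,0),(2,0)]⟩,⟨0,[(32,0)]⟩⟩,⟨false,0,
  ⟨0,[(2,0),(3,0),(5,0),(3,0)]⟩,⟨0,[(0,0),(35,0)]⟩⟩,⟨true,0,⟨0,[]⟩,⟨0,[(36,0)]⟩⟩,⟨false,0,⟨0,[(2,0),
  (3,0),(5,0),(3,0),(15,0)]⟩,⟨0,[(0,0),(30,0)]⟩⟩,[.o ⟨false,1,⟨1,[(21,1),(5,0),(4,1),(1,0)]⟩,⟨0,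
  [(10,0)]⟩⟩,.o ⟨false,1,⟨0,[(18,0),(13,0),(1,0)]⟩,⟨1,[(10,0),(9,0),(10,0)]⟩⟩,.o ⟨false,1,⟨1,[(17,
  1),(9,0),(5,0)]⟩,⟨0,[(9,0),(6,0)]⟩⟩,.a ⟨true,0,⟨0,[(17,0)]⟩,⟨0,[(16,0)]⟩⟩ ⟨true,1,⟨7,[(0,1),(1,1),
  (9,1),(1,2),(1,1),(13,1),(0,1),(1,0)]⟩,⟨0,[(6,0),(23,0)]⟩⟩ ⟨false,1,⟨0,[(16,0),(1,0),(13,0),(1,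
  0)]⟩,⟨0,[(10,0),(6,0)]⟩⟩]⟩) (.I [0,0,-1,-1,0,0,0,0,1] (.K ⟨0,[0,0,0,1],0,(-1),(⟨0,[(18,0)]⟩,⟨0,
  [(17,0)]⟩),.k,(.r 0 ⟨0,[(0,0)]⟩ ⟨7,[(7,3),(7,8),(0,2)]⟩),(.x 0 ⟨0,[(30,0)]⟩ ⟨3,[(15,0),(0,0),(11,
  1),(0,3)]⟩),.k,.k,[⟨0,[(18,0)]⟩,⟨0,[(17,0)]⟩,⟨1,[(15,0),(2,1),(15,0),(2,1)]⟩,⟨0,[(1,0),(9,0)]⟩]⟩)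
  (.K ⟨0,[0,0,0,1],0,(-1),(⟨0,[(18,0)]⟩,⟨0,[(17,0)]⟩),.k,(.x 0 ⟨0,[(20,0),(2,0),(5,0)]⟩ ⟨0,[(30,0),
  (3,0)]⟩),(.x 0 ⟨0,[(30,0)]⟩ ⟨3,[(15,0),(0,0),(11,1),(0,3)]⟩),.k,.k,[⟨0,[(18,0)]⟩,⟨0,[(17,0)]⟩,⟨1,
  [(15,0),(2,1),(15,0),(2,1)]⟩,⟨0,[(1,0),(9,0)]⟩]⟩))) (.K ⟨0,[0,0,0,1],0,(-1),(⟨0,[(16,0)]⟩,⟨0,[(15,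
  0)]⟩),.k,(.x 0 ⟨0,[(18,0),(2,0),(5,0)]⟩ ⟨0,[(28,0),(3,0)]⟩),(.x 0 ⟨0,[(28,0)]⟩ ⟨3,[(13,0),(0,0),
  (11,1),(0,3)]⟩),.k,.k,[⟨0,[(16,0)]⟩,⟨0,[(15,0)]⟩,⟨1,[(13,0),(2,1),(15,0),(2,1)]⟩,⟨0,[(0,0),(1,0),
  (6,0)]⟩]⟩))) (.R ⟨1,false,false,false,[1,0,0,-1],[0,1],[0,1,0,0,0,0,0,0,-1],(⟨0,[(13,0)]⟩,⟨0,[(14,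
  0)]⟩),(⟨0,[(26,0)]⟩,⟨0,[(25,0)]⟩),⟨0,[(4,0)]⟩,.k,.k,(.x (-1) ⟨3,[(11,0),(0,0),(11,1),(0,3)]⟩ ⟨0,
  [(26,0)]⟩),(.x (-1) ⟨3,[(11,0),(0,0),(11,1),(0,3)]⟩ ⟨0,[(26,0)]⟩),(.x 0 ⟨0,[(0,0),(2,0),(0,0),(2,
  0),(17,0)]⟩ ⟨3,[(11,0),(0,0),(13,7),(3,1)]⟩),.k,⟨false,1,⟨1,[(11,0),(15,1),(2,0)]⟩,⟨3,[(3,1),(1,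
  1),(8,1),(15,0),(0,0)]⟩⟩,⟨true,0,⟨0,[(13,0)]⟩,⟨0,[(6,0),(7,0)]⟩⟩,⟨true,0,⟨0,[(33,0)]⟩,⟨0,[]⟩⟩,
  ⟨false,0,⟨3,[(3,1),(1,1),(7,3),(0,1),(15,0),(0,0)]⟩,⟨3,[(0,1),(6,1),(3,0),(2,1),(15,0)]⟩⟩,⟨false,
  0,⟨0,[(29,0)]⟩,⟨0,[(28,0),(2,0)]⟩⟩,⟨false,0,⟨1,[(3,1),(9,1),(16,0),(0,0)]⟩,⟨0,[(0,0),(6,0),(5,0),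
  (0,0)]⟩⟩,[.o ⟨false,0,⟨0,[(29,0)]⟩,⟨1,[(24,0),(3,1),(2,0)]⟩⟩,.o ⟨false,1,⟨7,[(3,3),(7,2),(0,0),
  (17,3),(0,3)]⟩,⟨0,[(6,0),(20,0)]⟩⟩,.o ⟨false,1,⟨1,[(14,1),(9,0),(5,0)]⟩,⟨0,[(6,0),(6,0)]⟩⟩,.a
  ⟨true,0,⟨0,[(14,0)]⟩,⟨0,[(13,0)]⟩⟩ ⟨false,1,⟨1,[(11,0),(18,0)]⟩,⟨0,[(5,0),(8,0)]⟩⟩ ⟨true,0,⟨0,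
  [(13,0),(15,0)]⟩,⟨0,[(6,0),(7,0),(12,0)]⟩⟩]⟩))) (.Q [0,0,-1,-2,1,0,0,0,-1,-1,0,1] (.p true [0,0,0,
  1] [1] (⟨0,[(12,0)]⟩,⟨0,[(11,0)]⟩) .k 1 (⟨0,[]⟩,⟨0,[]⟩) .k .k) (.R ⟨1,false,false,false,[1,0,0,
  -1],[0,1],[0,1,0,0,0,0,0,0,-1],(⟨0,[(12,0)]⟩,⟨0,[(13,0)]⟩),(⟨0,[(25,0)]⟩,⟨0,[(24,0)]⟩),⟨0,[(3,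
  0)]⟩,.k,.k,(.x (-1) ⟨7,[(1,3),(5,3),(2,2),(0,2),(11,1)]⟩ ⟨0,[(25,0)]⟩),(.x (-1) ⟨7,[(1,3),(5,3),
  (2,2),(0,2),(11,1)]⟩ ⟨0,[(25,0)]⟩),(.x 0 ⟨0,[(1,0),(3,0),(1,0)]⟩ ⟨3,[(10,0),(0,0),(13,7),(3,1)]⟩),
  .k,⟨false,1,⟨1,[(10,0),(15,1),(2,0)]⟩,⟨3,[(2,1),(1,1),(8,1),(15,0),(0,0)]⟩⟩,⟨true,0,⟨0,[(12,0)]⟩,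
  ⟨0,[(0,0),(1,0)]⟩⟩,⟨true,0,⟨0,[(32,0)]⟩,⟨0,[]⟩⟩,⟨false,0,⟨3,[(2,1),(1,1),(7,3),(0,1),(15,0),(0,
  0)]⟩,⟨0,[(0,0),(27,0)]⟩⟩,⟨false,0,⟨0,[(28,0)]⟩,⟨0,[(27,0),(2,0)]⟩⟩,⟨false,0,⟨1,[(2,1),(9,1),(16,
  0),(0,0)]⟩,⟨0,[(0,0)]⟩⟩,[.o ⟨false,0,⟨0,[(28,0)]⟩,⟨5,[(0,1),(3,1),(5,0),(0,0),(11,1),(3,1)]⟩⟩,.o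
  ⟨false,1,⟨7,[(2,3),(7,2),(0,0),(17,3),(0,3)]⟩,⟨0,[(5,0),(20,0)]⟩⟩,.o ⟨false,1,⟨1,[(13,1),(9,0),(5,
  0)]⟩,⟨0,[(5,0),(6,0)]⟩⟩,.a ⟨true,0,⟨0,[(13,0)]⟩,⟨0,[(12,0)]⟩⟩ ⟨false,1,⟨1,[(10,0),(18,0)]⟩,⟨0,[(4,
  0),(8,0)]⟩⟩ ⟨true,0,⟨0,[(12,0),(15,0)]⟩,⟨0,[(0,0),(1,0),(23,0)]⟩⟩]⟩) (.Q [0,0,-1,-1,1,0,0,0,-1,-1,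
  0,1] (.p true [0,0,0,1] [1] (⟨0,[(13,0)]⟩,⟨0,[(12,0)]⟩) .k 1 (⟨0,[]⟩,⟨0,[]⟩) .k .k) (.R ⟨1,true,
  false,false,[1,0,0,-1],[0,1],[0,1,0,0,0,0,0,0,-1],(⟨0,[(13,0)]⟩,⟨0,[(14,0)]⟩),(⟨0,[(26,0)]⟩,⟨0,
  [(25,0)]⟩),⟨0,[(4,0)]⟩,.k,.k,(.x (-1) ⟨7,[(2,3),(5,3),(2,2),(0,2),(11,1)]⟩ ⟨0,[(26,0)]⟩),(.x (-1)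
  ⟨7,[(2,3),(5,3),(2,2),(0,2),(11,1)]⟩ ⟨0,[(26,0)]⟩),(.r (-2) ⟨1,[(9,1),(1,0),(9,1),(6,1),(1,0)]⟩
  ⟨0,[(1,0),(4,0),(7,0)]⟩),.k,⟨false,1,⟨1,[(11,0),(15,1),(2,0)]⟩,⟨3,[(3,1),(1,1),(8,1),(15,0),(0,
  0)]⟩⟩,⟨true,0,⟨0,[(13,0)]⟩,⟨0,[(6,0),(7,0)]⟩⟩,⟨true,0,⟨0,[(33,0)]⟩,⟨0,[]⟩⟩,⟨false,0,⟨7,[(1,1),(1,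
  1),(1,1),(6,0),(0,5),(0,1),(16,2)]⟩,⟨0,[(0,0)]⟩⟩,⟨false,0,⟨0,[(29,0)]⟩,⟨0,[(28,0),(2,0)]⟩⟩,⟨true,
  (-1),⟨0,[(1,0)]⟩,⟨0,[(0,0),(27,0)]⟩⟩,[]⟩) (.K ⟨0,[0,0,0,1],0,(-1),(⟨0,[(14,0)]⟩,⟨0,[(13,0)]⟩),.k,
  (.x 0 ⟨1,[(2,0),(5,0),(7,0),(2,1),(0,0)]⟩ ⟨0,[(26,0),(3,0)]⟩),(.x 0 ⟨0,[(26,0)]⟩ ⟨7,[(2,3),(5,3),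
  (2,2),(0,2),(11,1)]⟩),.k,.k,[⟨0,[(14,0)]⟩,⟨0,[(13,0)]⟩,⟨1,[(11,0),(2,1),(15,0),(2,1)]⟩,⟨0,[(0,0),
  (5,0),(20,0)]⟩]⟩))))) (.Q [0,0,-1,-1,1,0,0,0,-1,-1,0,1] (.p true [0,0,0,1] [1] (⟨0,[(10,0)]⟩,⟨0,
  [(9,0)]⟩) .k 1 (⟨0,[]⟩,⟨0,[]⟩) .k .k) (.R ⟨0,false,false,false,[1,0,0,-1],[0,1],[0,1,0,0,0,0,0,0,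
  -1],(⟨0,[(10,0)]⟩,⟨0,[(11,0)]⟩),(⟨0,[(23,0)]⟩,⟨0,[(22,0)]⟩),⟨0,[(1,0)]⟩,.k,.k,(.x (-1) ⟨3,[(8,0),
  (0,0),(11,1),(0,3)]⟩ ⟨0,[(23,0)]⟩),(.x (-1) ⟨3,[(8,0),(0,0),(11,1),(0,3)]⟩ ⟨0,[(23,0)]⟩),.k,.k,
  ⟨false,1,⟨1,[(8,0),(15,1),(2,0)]⟩,⟨0,[(2,0),(8,0),(14,0)]⟩⟩,⟨true,0,⟨0,[(10,0)]⟩,⟨0,[(3,0),(7,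
  0)]⟩⟩,⟨true,0,⟨0,[(30,0)]⟩,⟨0,[]⟩⟩,⟨false,0,⟨0,[(2,0),(7,0),(0,0),(14,0)]⟩,⟨0,[(0,0)]⟩⟩,⟨false,0,
  ⟨0,[]⟩,⟨0,[]⟩⟩,⟨false,0,⟨0,[]⟩,⟨0,[]⟩⟩,[.o ⟨false,0,⟨0,[(26,0)]⟩,⟨1,[(21,0),(3,1),(2,0)]⟩⟩,.o
  ⟨false,1,⟨3,[(8,0),(0,0),(16,3),(1,1)]⟩,⟨0,[(3,0),(20,0)]⟩⟩,.o ⟨false,1,⟨1,[(11,1),(9,0),(5,0)]⟩,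
  ⟨0,[(3,0),(6,0)]⟩⟩,.a ⟨true,0,⟨0,[(11,0)]⟩,⟨0,[(10,0)]⟩⟩ ⟨false,1,⟨1,[(8,0),(18,0)]⟩,⟨0,[(2,0),(8,
  0)]⟩⟩ ⟨true,0,⟨0,[(10,0),(15,0)]⟩,⟨0,[(3,0),(7,0),(12,0)]⟩⟩]⟩) (.R ⟨0,false,false,false,[1,0,0,
  -1],[0,1],[0,0,1],(⟨0,[(10,0)]⟩,⟨0,[(11,0)]⟩),(⟨0,[(23,0)]⟩,⟨0,[(22,0)]⟩),⟨0,[(1,0)]⟩,.k,.k,(.x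
  (-1) ⟨3,[(8,0),(0,0),(11,1),(0,3)]⟩ ⟨0,[(23,0)]⟩),(.x (-1) ⟨3,[(8,0),(0,0),(11,1),(0,3)]⟩ ⟨0,[(23,
  0)]⟩),.k,.k,⟨false,1,⟨1,[(25,1),(1,0),(0,0)]⟩,⟨0,[(26,0)]⟩⟩,⟨true,0,⟨0,[(10,0)]⟩,⟨0,[(3,0),(7,
  0)]⟩⟩,⟨false,0,⟨0,[(2,0),(8,0)]⟩,⟨1,[(8,0),(18,0)]⟩⟩,⟨true,(-1),⟨0,[(0,0)]⟩,⟨1,[(8,0),(2,1),(9,0),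
  (2,1)]⟩⟩,⟨false,0,⟨0,[]⟩,⟨0,[]⟩⟩,⟨false,0,⟨0,[]⟩,⟨0,[]⟩⟩,[.o ⟨false,0,⟨0,[(26,0)]⟩,⟨1,[(21,0),(3,
  1),(2,0)]⟩⟩,.o ⟨false,1,⟨3,[(8,0),(0,0),(16,3),(1,1)]⟩,⟨0,[(3,0),(20,0)]⟩⟩,.o ⟨false,1,⟨1,[(11,1),
  (9,0),(5,0)]⟩,⟨0,[(3,0),(6,0)]⟩⟩,.a ⟨true,0,⟨0,[(11,0)]⟩,⟨0,[(10,0)]⟩⟩ ⟨false,1,⟨3,[(8,0),(0,0),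
  (18,1)]⟩,⟨0,[]⟩⟩ ⟨true,0,⟨0,[(10,0),(15,0)]⟩,⟨0,[(3,0),(7,0),(12,0)]⟩⟩]⟩)))) (.R ⟨1,false,false,
  false,[0,0,1],[1,-1],[0,0,0,0,0,0,0,1],(⟨0,[(17,0)]⟩,⟨0,[(16,0)]⟩),(⟨0,[(19,0)]⟩,⟨0,[(20,0)]⟩),⟨0,
  [(2,0)]⟩,.k,.k,.k,.k,.k,.k,⟨false,0,⟨0,[(15,0),(7,0)]⟩,⟨0,[(3,0),(23,0)]⟩⟩,⟨true,0,⟨0,[(10,0)]⟩,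
  ⟨0,[(0,0),(12,0)]⟩⟩,⟨false,1,⟨3,[(5,0),(0,0),(18,1)]⟩,⟨0,[]⟩⟩,⟨false,1,⟨0,[(3,0),(6,0)]⟩,⟨1,[(4,
  0),(2,0),(0,0),(14,1)]⟩⟩,⟨true,0,⟨0,[(23,0)]⟩,⟨0,[(22,0)]⟩⟩,⟨false,1,⟨0,[(9,0),(15,0)]⟩,⟨1,[(4,0),
  (2,0),(0,0)]⟩⟩,[.o ⟨false,1,⟨1,[(18,0),(3,1),(2,0)]⟩,⟨0,[(23,0)]⟩⟩,.o ⟨false,1,⟨3,[(1,1),(1,1),(6,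
  1),(7,0),(6,0)]⟩,⟨0,[(23,0),(3,0)]⟩⟩,.a ⟨true,0,⟨0,[(0,0),(12,0)]⟩,⟨0,[(0,0),(9,0)]⟩⟩ ⟨true,0,⟨0,
  [(15,0)]⟩,⟨0,[(0,0),(8,0),(3,0)]⟩⟩ ⟨false,1,⟨0,[(3,0),(6,0),(4,0)]⟩,⟨0,[(0,0),(12,0),(9,0)]⟩⟩,.o
  ⟨false,0,⟨0,[(13,0)]⟩,⟨0,[(10,0),(13,0)]⟩⟩]⟩)))

theorem ok0 : chk (cU (-1) true 3) t0 l1 = true := by decide +kernel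

noncomputable def t1 : Tre :=
  (.Q [0,-1,0,1,0,0,-1,-1,0,1,1] (.p true [1,-1,1] [] (⟨0,[(15,0),(1,0)]⟩,⟨0,[(0,0)]⟩) .k 0 (⟨0,[]⟩,
  ⟨0,[]⟩) .k .k) (.K ⟨1,[0,1,-1],0,0,(⟨0,[(1,0)]⟩,⟨0,[(16,0),(1,0)]⟩),.k,.k,(.r 0 ⟨1,[(0,0),(8,0),
  (1,0),(0,2),(9,2)]⟩ ⟨0,[(2,0),(11,1),(5,0)]⟩),.k,.k,[⟨1,[(12,2),(0,0)]⟩,⟨1,[(0,0),(8,0),(4,0),(5,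
  0)]⟩,⟨1,[(3,0),(5,0),(2,0),(7,1)]⟩,⟨0,[(0,0)]⟩]⟩) (.Q [0,0,-1,0,0,0,0,0,0,1] (.pp false [-1,1])
  (.R ⟨0,false,false,false,[0,0,1],[1,-1],[0,1],(⟨0,[(17,0)]⟩,⟨0,[(16,0)]⟩),(⟨0,[(19,0)]⟩,⟨0,[(20,
  0)]⟩),⟨0,[(2,0)]⟩,.k,.k,.k,.k,.k,.k,⟨false,0,⟨0,[(23,0),(3,0)]⟩,⟨0,[(3,0),(11,0)]⟩⟩,⟨true,0,⟨0,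
  [(10,0)]⟩,⟨0,[(0,0),(12,0)]⟩⟩,⟨true,0,⟨0,[(0,0),(8,0),(3,0)]⟩,⟨0,[(15,0)]⟩⟩,⟨false,1,⟨0,[(3,0),(6,
  0)]⟩,⟨1,[(4,0),(2,0),(0,0),(14,1)]⟩⟩,⟨false,0,⟨0,[]⟩,⟨0,[]⟩⟩,⟨false,0,⟨0,[]⟩,⟨0,[]⟩⟩,[.o ⟨false,1,
  ⟨1,[(18,0),(3,1),(2,0)]⟩,⟨0,[(23,0)]⟩⟩,.o ⟨false,1,⟨1,[(1,0),(1,0),(6,0),(14,0)]⟩,⟨0,[(23,0),(3,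
  0)]⟩⟩,.a ⟨true,0,⟨0,[(0,0),(12,0)]⟩,⟨0,[(0,0),(9,0)]⟩⟩ ⟨true,0,⟨0,[(27,0)]⟩,⟨0,[]⟩⟩ ⟨false,1,⟨0,
  [(3,0),(6,0),(4,0)]⟩,⟨0,[(0,0),(12,0),(9,0)]⟩⟩,.o ⟨false,0,⟨0,[(13,0)]⟩,⟨0,[(10,0),(13,0)]⟩⟩]⟩)
  (.Q [0,0,0,0,0,0,1,1,0,0,-1] (.p false [0,0,1] [] (⟨0,[(17,0)]⟩,⟨0,[(16,0)]⟩) .k 0 (⟨0,[]⟩,⟨0,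
  []⟩) .k .k) (.Q [0,0,0,0,0,0,1,0,0,1,-1] (.p false [0,0,1] [1] (⟨0,[(18,0)]⟩,⟨0,[(17,0)]⟩) .k 1
  (⟨0,[]⟩,⟨0,[]⟩) .k .k) (.Q [0,0,0,0,0,0,1,0,0,0,-1] (.p false [0,0,1] [] (⟨0,[(19,0)]⟩,⟨0,[(18,
  0)]⟩) .k 0 (⟨0,[]⟩,⟨0,[]⟩) .k .k) (.Q [0,0,0,0,0,0,-1,0,0,1,1] (.p true [1,-1,1] [] (⟨0,[(20,0),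
  (1,0)]⟩,⟨0,[(5,0)]⟩) .k 0 (⟨0,[]⟩,⟨0,[]⟩) .k .k) (.R ⟨0,false,false,false,[0,1,-1],[0,1],[1,0,1,0,
  0,0,0,-1],(⟨0,[(6,0)]⟩,⟨0,[(21,0),(1,0)]⟩),(⟨0,[(24,0)]⟩,⟨0,[(23,0)]⟩),⟨0,[(21,0)]⟩,.k,.k,.k,.k,
  .k,.k,⟨false,1,⟨0,[(7,0),(23,0)]⟩,⟨0,[(19,0),(7,0)]⟩⟩,⟨true,0,⟨0,[(1,0)]⟩,⟨0,[(18,0)]⟩⟩,⟨false,1,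
  ⟨0,[(26,0),(2,0)]⟩,⟨0,[(27,0)]⟩⟩,⟨true,0,⟨0,[(3,0)]⟩,⟨0,[(16,0)]⟩⟩,⟨false,0,⟨0,[]⟩,⟨0,[]⟩⟩,⟨false,
  0,⟨0,[]⟩,⟨0,[]⟩⟩,[.o ⟨false,0,⟨0,[(27,0)]⟩,⟨1,[(22,0),(3,1),(2,0)]⟩⟩,.o ⟨false,1,⟨3,[(9,0),(0,0),
  (16,3),(1,1)]⟩,⟨0,[(4,0),(20,0)]⟩⟩,.o ⟨false,1,⟨7,[(0,3),(8,0),(0,0),(3,3),(13,5)]⟩,⟨0,[(1,0),(2,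
  0)]⟩⟩,.a ⟨true,0,⟨0,[(0,0)]⟩,⟨0,[(1,0)]⟩⟩ ⟨false,1,⟨1,[(7,0),(8,0),(0,0),(9,0),(1,0)]⟩,⟨0,[(19,
  0)]⟩⟩ ⟨true,0,⟨0,[(1,0),(25,0)]⟩,⟨1,[(0,0),(13,0),(10,0),(0,0)]⟩⟩]⟩) (.Q [0,0,0,0,0,1,0,0,0,-1,1]
  (.ed false [0,1,1] .k) (.Q [0,1,0,-1,0,0,-1,-1,0,-1,1] (.p true [0,0,1] [1] (⟨0,[(22,0)]⟩,⟨0,[(21,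
  0)]⟩) .k 1 (⟨0,[]⟩,⟨0,[]⟩) .k .k) (.K ⟨2,[-1,1,1],0,0,(⟨0,[(1,0)]⟩,⟨0,[(22,0),(2,0)]⟩),.k,.k,(.r
  0 ⟨1,[(10,0),(5,0),(2,0),(0,1),(8,3)]⟩ ⟨0,[(9,0),(17,0)]⟩),.k,.k,[⟨0,[(13,0),(0,0),(14,0)]⟩,⟨0,
  [(0,0)]⟩,⟨1,[(16,1),(2,0),(0,0)]⟩,⟨0,[(4,0)]⟩]⟩) (.R ⟨2,true,false,true,[0,1],[1,0,-1],[1,1,1],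
  (⟨0,[]⟩,⟨0,[]⟩),(⟨0,[(22,0)]⟩,⟨0,[(23,0)]⟩),⟨0,[]⟩,.k,.k,.k,.k,.k,.k,⟨false,0,⟨0,[(21,0)]⟩,⟨7,[(3,
  3),(5,3),(1,0),(0,0),(5,3),(10,3),(0,1)]⟩⟩,⟨true,0,⟨0,[(16,0)]⟩,⟨0,[(4,0)]⟩⟩,⟨true,0,⟨0,[(28,0)]⟩,
  ⟨0,[(29,0)]⟩⟩,⟨false,1,⟨11,[(9,7),(1,0),(0,0),(3,7),(1,3),(5,1),(3,3)]⟩,⟨0,[(0,0)]⟩⟩,⟨false,0,⟨0,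
  []⟩,⟨3,[(11,0),(0,0),(18,1)]⟩⟩,⟨true,0,⟨0,[(15,0)]⟩,⟨1,[(10,0),(2,0),(0,0)]⟩⟩,[]⟩)) (.Q [0,-1,0,1,
  0,0,1,1,0,1,-1] (.p false [0,0,1] [1] (⟨0,[(22,0)]⟩,⟨0,[(21,0)]⟩) .k 1 (⟨0,[]⟩,⟨0,[]⟩) .k .k) (.R
  ⟨2,true,false,true,[0,1],[1,0,-1],[1,1,1],(⟨0,[]⟩,⟨0,[]⟩),(⟨0,[(22,0)]⟩,⟨0,[(23,0)]⟩),⟨0,[]⟩,.k,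
  .k,.k,.k,.k,.k,⟨false,0,⟨0,[(21,0)]⟩,⟨7,[(3,3),(5,3),(1,0),(0,0),(5,3),(10,3),(0,1)]⟩⟩,⟨true,0,⟨0,
  [(16,0)]⟩,⟨0,[(4,0)]⟩⟩,⟨true,0,⟨0,[(28,0)]⟩,⟨0,[(29,0)]⟩⟩,⟨false,1,⟨11,[(9,7),(1,0),(0,0),(3,7),
  (1,3),(5,1),(3,3)]⟩,⟨0,[(0,0)]⟩⟩,⟨false,0,⟨0,[]⟩,⟨3,[(11,0),(0,0),(18,1)]⟩⟩,⟨true,0,⟨0,[(15,0)]⟩,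
  ⟨1,[(10,0),(2,0),(0,0)]⟩⟩,[]⟩) (.K ⟨2,[0,1,1],0,0,(⟨0,[(23,0),(2,0)]⟩,⟨0,[(1,0)]⟩),.k,.k,(.r 0 ⟨1,
  [(10,0),(5,0),(2,0),(0,1),(8,3)]⟩ ⟨0,[(9,0),(17,0)]⟩),.k,.k,[⟨0,[(29,0)]⟩,⟨0,[(0,0),(12,0),(0,
  0)]⟩,⟨1,[(19,0),(0,2)]⟩,⟨0,[(3,0)]⟩]⟩)))) (.R ⟨0,false,false,false,[0,0,1],[1,-1],[0,1],(⟨0,[(20,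
  0)]⟩,⟨0,[(19,0)]⟩),(⟨0,[(22,0)]⟩,⟨0,[(23,0)]⟩),⟨0,[(5,0)]⟩,.k,.k,.k,.k,.k,.k,⟨false,0,⟨0,[(26,0),
  (3,0)]⟩,⟨0,[(6,0),(11,0)]⟩⟩,⟨true,0,⟨0,[(13,0)]⟩,⟨0,[(1,0)]⟩⟩,⟨true,0,⟨0,[(1,0),(10,0)]⟩,⟨0,[(18,
  0)]⟩⟩,⟨false,1,⟨0,[(6,0),(6,0)]⟩,⟨1,[(7,0),(2,0),(0,0),(14,1)]⟩⟩,⟨false,0,⟨0,[]⟩,⟨0,[]⟩⟩,⟨false,0,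
  ⟨0,[]⟩,⟨0,[]⟩⟩,[.o ⟨false,1,⟨1,[(21,0),(3,1),(2,0)]⟩,⟨0,[(26,0)]⟩⟩,.o ⟨false,1,⟨1,[(4,0),(1,0),(6,
  0),(14,0)]⟩,⟨0,[(26,0),(3,0)]⟩⟩,.a ⟨true,0,⟨0,[(1,0)]⟩,⟨0,[(0,0)]⟩⟩ ⟨true,0,⟨0,[(30,0)]⟩,⟨0,[]⟩⟩
  ⟨false,1,⟨1,[(0,1),(3,0),(1,0),(6,0),(14,0)]⟩,⟨0,[(1,0),(24,0)]⟩⟩,.o ⟨false,0,⟨0,[(16,0)]⟩,⟨1,[(0,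
  1),(20,0),(5,0)]⟩⟩]⟩)) (.Q [0,0,0,1,0,0,-1,-1,0,0,1] (.p true [0,0,1] [] (⟨0,[(19,0)]⟩,⟨0,[(18,
  0)]⟩) .k 0 (⟨0,[]⟩,⟨0,[]⟩) .k .k) (.R ⟨2,true,false,false,[0,1],[0,0,1],[1,1,1],(⟨0,[]⟩,⟨0,[]⟩),
  (⟨0,[(20,0)]⟩,⟨0,[(19,0)]⟩),⟨0,[]⟩,.k,.k,.k,.k,.k,.k,⟨false,0,⟨0,[(0,0),(15,0),(7,0)]⟩,⟨1,[(18,1),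
  (8,0),(0,0)]⟩⟩,⟨true,0,⟨0,[(16,0)]⟩,⟨0,[(1,0),(8,0),(0,0)]⟩⟩,⟨true,0,⟨0,[(25,0)]⟩,⟨0,[(26,0)]⟩⟩,
  ⟨false,1,⟨2,[(4,0),(2,0),(17,1),(2,2)]⟩,⟨0,[(0,0)]⟩⟩,⟨false,0,⟨0,[]⟩,⟨3,[(8,0),(0,0),(18,1)]⟩⟩,
  ⟨true,0,⟨0,[(2,0)]⟩,⟨0,[(15,0)]⟩⟩,[]⟩) (.Q [0,0,-1,0,0,0,-2,0,0,0,2] (.p true [0,0,1] [0,1,-1]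
  (⟨0,[(20,0)]⟩,⟨0,[(19,0)]⟩) .k 2 (⟨0,[(5,0)]⟩,⟨0,[(20,0),(1,0)]⟩) .k (.r 0 ⟨0,[(18,1)]⟩ ⟨0,[(6,0),
  (8,0),(0,0),(9,0)]⟩)) (.Q [0,0,-1,0,0,0,-1,0,0,1,1] (.p true [1,-1,1] [] (⟨0,[(21,0),(1,0)]⟩,⟨0,
  [(6,0)]⟩) .k 0 (⟨0,[]⟩,⟨0,[]⟩) .k .k) (.R ⟨0,false,false,true,[0,1,-1],[1,0,-1],[0,1,1],(⟨0,[(7,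
  0)]⟩,⟨0,[(22,0),(1,0)]⟩),(⟨0,[(21,0)]⟩,⟨0,[(22,0)]⟩),⟨0,[(22,0)]⟩,.k,.k,.k,.k,.k,.k,⟨false,0,⟨0,
  [(20,0)]⟩,⟨1,[(8,0),(8,0),(0,0),(9,0),(0,0)]⟩⟩,⟨true,0,⟨0,[(5,0)]⟩,⟨0,[(12,0),(0,0)]⟩⟩,⟨false,0,
  ⟨2,[(1,0),(0,2),(16,0)]⟩,⟨1,[(8,0),(8,0),(0,0),(9,2),(1,0)]⟩⟩,⟨true,0,⟨0,[(2,0),(11,0)]⟩,⟨0,[(12,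
  0),(0,0),(14,0)]⟩⟩,⟨false,0,⟨0,[]⟩,⟨0,[]⟩⟩,⟨false,0,⟨0,[]⟩,⟨0,[]⟩⟩,[.o ⟨false,0,⟨0,[(14,0)]⟩,⟨7,
  [(9,3),(0,0),(0,0),(11,1),(6,3)]⟩⟩,.o ⟨false,1,⟨1,[(17,1),(5,0),(6,0)]⟩,⟨0,[(4,0)]⟩⟩,.a ⟨true,0,
  ⟨0,[(0,0)]⟩,⟨0,[(18,0)]⟩⟩ ⟨false,0,⟨1,[(18,0),(0,0)]⟩,⟨1,[(29,0),(0,0)]⟩⟩ ⟨true,0,⟨0,[(14,0),(3,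
  0)]⟩,⟨0,[(0,0),(3,0)]⟩⟩,.o ⟨false,0,⟨2,[(1,0),(17,0)]⟩,⟨1,[(18,1),(4,0),(5,0)]⟩⟩]⟩) (.Q [0,0,0,1,
  0,0,-1,-1,0,1,1] (.p true [1,-1,1] [] (⟨0,[(22,0),(1,0)]⟩,⟨0,[(7,0)]⟩) .k 0 (⟨0,[]⟩,⟨0,[]⟩) .k
  .k) (.R ⟨2,false,false,false,[0,1],[0,1,-1],[1,1,1],(⟨0,[]⟩,⟨0,[]⟩),(⟨0,[(8,0)]⟩,⟨0,[(23,0),(1,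
  0)]⟩),⟨0,[]⟩,.k,.k,.k,.k,.k,.k,⟨false,0,⟨5,[(2,2),(4,1),(2,1),(16,2),(0,0)]⟩,⟨7,[(0,3),(0,3),(7,
  3),(1,0),(0,0),(16,7),(1,1)]⟩⟩,⟨true,0,⟨2,[(2,0),(17,0)]⟩,⟨0,[(19,0)]⟩⟩,⟨true,0,⟨0,[(28,0)]⟩,⟨0,
  [(29,0)]⟩⟩,⟨false,1,⟨0,[(18,0),(12,0)]⟩,⟨0,[(5,0)]⟩⟩,⟨false,0,⟨0,[]⟩,⟨3,[(11,0),(0,0),(18,1)]⟩⟩,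
  ⟨false,1,⟨1,[(0,1),(23,0),(6,0)]⟩,⟨0,[(3,0)]⟩⟩,[.a ⟨true,0,⟨0,[(0,0)]⟩,⟨0,[(3,0)]⟩⟩ ⟨false,0,⟨0,
  [(33,0)]⟩,⟨1,[(30,0),(0,0)]⟩⟩ ⟨true,0,⟨1,[(0,1),(0,0),(14,0)]⟩,⟨0,[(3,0)]⟩⟩,.o ⟨false,1,⟨1,[(0,1),
  (23,0),(6,0)]⟩,⟨0,[(7,0)]⟩⟩,.o ⟨false,1,⟨3,[(11,0),(0,0),(17,1)]⟩,⟨0,[(6,0)]⟩⟩,.e ⟨false,0,⟨0,[]⟩,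
  ⟨3,[(11,0),(0,0),(18,1)]⟩⟩ ⟨false,1,⟨1,[(0,1),(23,0),(6,0)]⟩,⟨0,[(3,0)]⟩⟩]⟩) (.Q [0,-1,1,1,0,0,0,
  0,1,1,0,-1] (.p false [0,0,0,1] [1] (⟨0,[(14,0)]⟩,⟨0,[(13,0)]⟩) .k 1 (⟨0,[]⟩,⟨0,[]⟩) .k .k) (.Q
  [0,1,-1,0,0,0,0,0,-1,0,0,1] (.p true [0,0,0,1] [] (⟨0,[(15,0)]⟩,⟨0,[(14,0)]⟩) .k 0 (⟨0,[]⟩,⟨0,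
  []⟩) .k .k) (.K ⟨0,[0,0,0,1],0,0,(⟨0,[(16,0)]⟩,⟨0,[(15,0)]⟩),.k,(.x 0 ⟨0,[(18,0),(2,0),(5,0)]⟩ ⟨0,
  [(28,0),(3,0)]⟩),(.x 0 ⟨0,[(28,0)]⟩ ⟨3,[(13,0),(0,0),(11,1),(0,3)]⟩),.k,.k,[⟨0,[(16,0)]⟩,⟨0,[(15,
  0)]⟩,⟨0,[(0,0)]⟩,⟨0,[(1,0),(7,0),(10,0)]⟩]⟩) (.Q [0,0,0,0,0,1,0,0,0,-1,0,1] (.p true [0,0,0,1]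
  [1] (⟨0,[(16,0)]⟩,⟨0,[(15,0)]⟩) .k 1 (⟨0,[]⟩,⟨0,[]⟩) .k .k) (.R ⟨0,false,false,false,[1,0,0,-1],
  [0,1],[0,1,0,0,0,0,0,0,-1],(⟨0,[(16,0)]⟩,⟨0,[(17,0)]⟩),(⟨0,[(29,0)]⟩,⟨0,[(28,0)]⟩),⟨0,[(0,0)]⟩,.k,
  .k,(.x (-1) ⟨3,[(14,0),(0,0),(11,1),(0,3)]⟩ ⟨0,[(29,0)]⟩),(.x (-1) ⟨3,[(14,0),(0,0),(11,1),(0,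
  3)]⟩ ⟨0,[(29,0)]⟩),.k,.k,⟨false,1,⟨1,[(14,0),(15,1),(2,0)]⟩,⟨0,[(1,0),(15,0),(14,0)]⟩⟩,⟨true,0,⟨0,
  [(16,0)]⟩,⟨1,[(4,0),(12,1),(1,0)]⟩⟩,⟨true,0,⟨0,[(36,0)]⟩,⟨0,[]⟩⟩,⟨false,0,⟨0,[(2,0)]⟩,⟨1,[(3,0),
  (3,0),(4,0),(1,0),(2,1),(12,0),(1,0)]⟩⟩,⟨false,0,⟨0,[]⟩,⟨0,[]⟩⟩,⟨false,0,⟨0,[]⟩,⟨0,[]⟩⟩,[.o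
  ⟨false,0,⟨0,[(32,0)]⟩,⟨1,[(27,0),(3,1),(2,0)]⟩⟩,.o ⟨false,1,⟨3,[(14,0),(0,0),(16,3),(1,1)]⟩,⟨1,
  [(3,0),(14,0),(12,0)]⟩⟩,.o ⟨false,1,⟨1,[(17,1),(9,0),(5,0)]⟩,⟨1,[(4,0),(11,1),(2,0)]⟩⟩,.a ⟨true,0,
  ⟨0,[(17,0)]⟩,⟨0,[(16,0)]⟩⟩ ⟨false,1,⟨1,[(14,0),(18,0)]⟩,⟨0,[(1,0),(15,0)]⟩⟩ ⟨true,0,⟨0,[(16,0),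
  (15,0)]⟩,⟨1,[(3,0),(13,1),(0,0),(12,0)]⟩⟩]⟩) (.I [0,0,-2,-2,1,0,0,0,-1] (.R ⟨1,false,false,false,
  [1,0,0,-1],[0,1],[0,1,0,0,0,0,0,0,-1],(⟨0,[(17,0)]⟩,⟨0,[(18,0)]⟩),(⟨0,[(30,0)]⟩,⟨0,[(29,0)]⟩),⟨0,
  [(1,0)]⟩,.k,.k,(.x (-1) ⟨3,[(15,0),(0,0),(11,1),(0,3)]⟩ ⟨0,[(30,0)]⟩),(.x (-1) ⟨3,[(15,0),(0,0),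
  (11,1),(0,3)]⟩ ⟨0,[(30,0)]⟩),(.r (-1) ⟨0,[(0,0)]⟩ ⟨1,[(3,1),(1,0),(12,1),(1,0),(12,1),(3,1)]⟩),.k,
  ⟨false,1,⟨1,[(15,0),(15,1),(2,0)]⟩,⟨0,[(2,0),(15,0),(14,0)]⟩⟩,⟨true,0,⟨0,[(17,0)]⟩,⟨1,[(5,0),(12,
  1),(1,0)]⟩⟩,⟨true,0,⟨0,[(37,0)]⟩,⟨0,[]⟩⟩,⟨false,0,⟨0,[(3,0)]⟩,⟨5,[(0,3),(4,1),(2,1),(6,0),(2,5),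
  (9,0),(4,1)]⟩⟩,⟨false,0,⟨0,[(33,0)]⟩,⟨0,[(32,0),(2,0)]⟩⟩,⟨false,0,⟨0,[(3,0),(29,0)]⟩,⟨1,[(0,1),(4,
  0),(12,1),(1,0)]⟩⟩,[.o ⟨false,0,⟨0,[(33,0)]⟩,⟨1,[(28,0),(3,1),(2,0)]⟩⟩,.o ⟨false,1,⟨3,[(15,0),(0,
  0),(16,3),(1,1)]⟩,⟨1,[(4,0),(14,0),(12,0)]⟩⟩,.o ⟨false,1,⟨1,[(18,1),(9,0),(5,0)]⟩,⟨1,[(5,0),(11,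
  1),(2,0)]⟩⟩,.a ⟨true,0,⟨0,[(18,0)]⟩,⟨0,[(17,0)]⟩⟩ ⟨false,1,⟨1,[(15,0),(18,0)]⟩,⟨0,[(2,0),(15,
  0)]⟩⟩ ⟨true,0,⟨0,[(17,0),(15,0)]⟩,⟨1,[(4,0),(13,1),(0,0),(12,0)]⟩⟩]⟩) (.I [0,0,-2,-2,1,0,0,1,-1]
  (.R ⟨1,false,false,false,[1,0,0,-1],[0,1,-1],[1,0,0,-1,0,0,0,0,-1],(⟨0,[(18,0)]⟩,⟨0,[(19,0)]⟩),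
  (⟨0,[(13,0)]⟩,⟨0,[(28,0),(1,0)]⟩),⟨0,[(2,0)]⟩,.k,.k,(.x (-1) ⟨3,[(16,0),(0,0),(11,1),(0,3)]⟩ ⟨0,
  [(31,0)]⟩),(.r (-1) ⟨7,[(0,3),(15,2),(0,0),(8,3)]⟩ ⟨13,[(1,11),(12,7),(2,0),(5,5),(0,5),(7,1),(2,
  2)]⟩),(.r (-1) ⟨0,[(0,0)]⟩ ⟨3,[(1,3),(12,1),(1,0),(0,0),(5,1),(0,1),(9,1)]⟩),.k,⟨false,1,⟨0,[(0,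
  0)]⟩,⟨1,[(1,1),(12,0),(8,0),(0,0),(9,0),(0,0)]⟩⟩,⟨true,0,⟨2,[(7,0),(10,2),(6,0)]⟩,⟨0,[(6,0),(12,
  0)]⟩⟩,⟨false,1,⟨0,[(33,0),(2,0)]⟩,⟨0,[(34,0)]⟩⟩,⟨false,0,⟨2,[(1,2),(5,0),(6,2),(3,2),(6,0)]⟩,⟨1,
  [(5,1),(10,0),(2,1),(15,0)]⟩⟩,⟨true,0,⟨0,[]⟩,⟨0,[(38,0)]⟩⟩,⟨false,0,⟨6,[(1,6),(2,1),(2,2),(6,5),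
  (1,0),(1,4),(4,0),(10,3)]⟩,⟨0,[(0,0),(5,0),(12,0)]⟩⟩,[.o ⟨false,1,⟨3,[(16,0),(0,0),(5,3),(10,3),
  (1,1)]⟩,⟨0,[(5,0)]⟩⟩,.o ⟨false,1,⟨0,[(23,0),(10,0),(1,0)]⟩,⟨0,[(12,0)]⟩⟩,.o ⟨false,1,⟨1,[(19,1),
  (9,0),(5,0)]⟩,⟨1,[(6,0),(11,1),(2,0)]⟩⟩,.a ⟨true,0,⟨0,[(19,0)]⟩,⟨0,[(18,0)]⟩⟩ ⟨true,1,⟨7,[(0,1),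
  (13,1),(1,2),(16,1),(1,0)]⟩,⟨0,[(1,0),(30,0)]⟩⟩ ⟨false,1,⟨6,[(4,5),(2,1),(6,3),(1,2),(1,0),(4,2),
  (10,4)]⟩,⟨0,[(5,0),(13,0)]⟩⟩]⟩) (.K ⟨0,[0,0,0,1],0,(-1),(⟨0,[(19,0)]⟩,⟨0,[(18,0)]⟩),.k,(.r 0 ⟨1,
  [(0,1),(4,0),(1,1),(0,0),(5,1),(0,0),(16,1)]⟩ ⟨7,[(1,3),(14,8),(0,2)]⟩),(.x 0 ⟨0,[(31,0)]⟩ ⟨3,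
  [(16,0),(0,0),(11,1),(0,3)]⟩),.k,.k,[⟨0,[(19,0)]⟩,⟨0,[(18,0)]⟩,⟨1,[(16,0),(2,1),(15,0),(2,1)]⟩,⟨1,
  [(0,1),(4,1),(1,0),(10,1),(13,0),(0,0)]⟩]⟩))))) (.Q [0,1,1,0,0,0,0,0,1,0,0,-1] (.p false [0,0,0,
  1] [] (⟨0,[(15,0)]⟩,⟨0,[(14,0)]⟩) .k 0 (⟨0,[]⟩,⟨0,[]⟩) .k .k) (.I [0,0,1,1,0,0,0,0,-1] (.K ⟨0,[0,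
  0,0,1],0,0,(⟨0,[(17,0)]⟩,⟨0,[(16,0)]⟩),.k,(.r (-1) ⟨5,[(5,0),(0,1),(5,1),(2,2),(14,0),(0,0),(1,
  0)]⟩ ⟨0,[(0,0)]⟩),(.x 0 ⟨0,[(29,0)]⟩ ⟨3,[(14,0),(0,0),(11,1),(0,3)]⟩),.k,.k,[⟨0,[(17,0)]⟩,⟨0,[(16,
  0)]⟩,⟨0,[(2,0),(13,0),(0,0),(14,0)]⟩,⟨0,[(1,0)]⟩]⟩) (.K ⟨0,[0,0,0,1],0,0,(⟨0,[(17,0)]⟩,⟨0,[(16,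
  0)]⟩),.k,(.x 0 ⟨0,[(19,0),(2,0),(5,0)]⟩ ⟨0,[(29,0),(3,0)]⟩),(.x 0 ⟨0,[(29,0)]⟩ ⟨3,[(14,0),(0,0),
  (11,1),(0,3)]⟩),.k,.k,[⟨0,[(17,0)]⟩,⟨0,[(16,0)]⟩,⟨0,[(2,0),(13,0),(0,0),(14,0)]⟩,⟨0,[(1,0)]⟩]⟩))
  (.Q [0,0,0,0,0,1,0,0,0,-1,0,1] (.p true [0,0,0,1] [1] (⟨0,[(16,0)]⟩,⟨0,[(15,0)]⟩) .k 1 (⟨0,[]⟩,⟨0,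
  []⟩) .k .k) (.R ⟨0,false,false,false,[1,0,0,-1],[0,0,1],[0,1,0,0,0,0,0,0,-1],(⟨0,[(16,0)]⟩,⟨0,
  [(17,0)]⟩),(⟨0,[(26,0)]⟩,⟨0,[(25,0)]⟩),⟨0,[(0,0)]⟩,.k,.k,(.x (-1) ⟨3,[(14,0),(0,0),(11,1),(0,3)]⟩
  ⟨0,[(29,0)]⟩),.k,.k,.k,⟨false,0,⟨0,[(1,0),(2,0),(11,0),(4,0),(8,0),(1,0)]⟩,⟨1,[(15,0),(8,1),(9,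
  0)]⟩⟩,⟨true,0,⟨0,[(16,0),(5,0)]⟩,⟨0,[(7,0),(9,0)]⟩⟩,⟨true,0,⟨0,[(36,0)]⟩,⟨0,[]⟩⟩,⟨false,1,⟨1,[(13,
  0),(1,0),(0,1),(2,0),(2,0),(11,0)]⟩,⟨0,[(1,0),(16,0)]⟩⟩,⟨false,0,⟨0,[]⟩,⟨0,[]⟩⟩,⟨false,0,⟨0,[]⟩,
  ⟨0,[]⟩⟩,[.o ⟨false,0,⟨0,[(8,0)]⟩,⟨1,[(21,1),(5,0),(6,0)]⟩⟩,.o ⟨false,1,⟨7,[(13,3),(0,0),(0,0),(11,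
  1),(6,3)]⟩,⟨0,[(18,0)]⟩⟩,.o ⟨false,1,⟨1,[(17,1),(9,0),(5,0)]⟩,⟨1,[(4,0),(11,1),(2,0)]⟩⟩,.a ⟨true,
  0,⟨0,[(17,0)]⟩,⟨0,[(16,0)]⟩⟩ ⟨false,0,⟨2,[(1,1),(0,0),(0,0),(12,2),(1,0),(13,1)]⟩,⟨1,[(15,0),(6,
  0),(0,0),(10,0)]⟩⟩ ⟨true,0,⟨2,[(3,0),(9,0),(2,2),(15,0)]⟩,⟨0,[(17,0),(0,0)]⟩⟩]⟩) (.I [0,0,-2,-2,0,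
  0,0,0,-1] (.R ⟨1,false,false,false,[1,0,0,-1],[0,1],[0,1,0,0,0,0,0,0,-1],(⟨0,[(17,0)]⟩,⟨0,[(18,
  0)]⟩),(⟨0,[(30,0)]⟩,⟨0,[(29,0)]⟩),⟨0,[(1,0)]⟩,.k,.k,(.x (-1) ⟨3,[(15,0),(0,0),(11,1),(0,3)]⟩ ⟨0,
  [(30,0)]⟩),(.x (-1) ⟨3,[(15,0),(0,0),(11,1),(0,3)]⟩ ⟨0,[(30,0)]⟩),(.r 0 ⟨0,[(0,0)]⟩ ⟨3,[(15,0),(0,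
  2),(6,3),(0,3),(8,7)]⟩),.k,⟨false,0,⟨0,[(0,0),(32,0),(3,0)]⟩,⟨1,[(16,0),(6,0),(0,0),(8,1),(1,
  0)]⟩⟩,⟨true,0,⟨0,[(17,0)]⟩,⟨1,[(5,0),(12,1),(1,0)]⟩⟩,⟨true,0,⟨0,[(37,0)]⟩,⟨0,[]⟩⟩,⟨false,1,⟨1,
  [(16,0),(0,1),(5,0),(0,0),(8,1),(1,0)]⟩,⟨2,[(0,0),(1,0),(0,0),(1,0),(2,0),(9,0)]⟩⟩,⟨false,0,⟨0,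
  [(33,0)]⟩,⟨0,[(32,0),(2,0)]⟩⟩,⟨false,1,⟨1,[(16,0),(0,1),(5,0),(0,0),(8,3),(1,0)]⟩,⟨1,[(0,1),(4,0),
  (12,1),(1,0)]⟩⟩,[.o ⟨false,0,⟨0,[(33,0)]⟩,⟨1,[(28,0),(3,1),(2,0)]⟩⟩,.o ⟨false,1,⟨3,[(15,0),(0,0),
  (16,3),(1,1)]⟩,⟨1,[(4,0),(14,0),(12,0)]⟩⟩,.o ⟨false,1,⟨1,[(18,1),(9,0),(5,0)]⟩,⟨1,[(5,0),(11,1),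
  (2,0)]⟩⟩,.a ⟨true,0,⟨0,[(18,0)]⟩,⟨0,[(17,0)]⟩⟩ ⟨false,0,⟨4,[(0,0),(1,1),(0,1),(1,0),(2,0),(8,3),
  (15,3)]⟩,⟨1,[(16,0),(6,0),(0,0),(10,0)]⟩⟩ ⟨true,0,⟨0,[(17,0),(15,0)]⟩,⟨1,[(4,0),(13,1),(0,0),(12,
  0)]⟩⟩]⟩) (.R ⟨1,false,false,false,[1,0,0,-1],[0,1,-1],[1,0,0,-1,0,0,0,0,-1],(⟨0,[(17,0)]⟩,⟨0,[(18,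
  0)]⟩),(⟨0,[(12,0)]⟩,⟨0,[(27,0),(1,0)]⟩),⟨0,[(1,0)]⟩,.k,.k,(.x (-1) ⟨3,[(15,0),(0,0),(11,1),(0,
  3)]⟩ ⟨0,[(30,0)]⟩),(.r 0 ⟨5,[(2,2),(0,2),(0,1),(1,0),(0,0),(9,5),(2,0),(4,2)]⟩ ⟨15,[(0,11),(12,7),
  (1,0),(0,2),(5,7),(0,7),(10,3)]⟩),(.r 0 ⟨1,[(2,1),(1,1),(1,0),(10,1),(13,0),(0,0)]⟩ ⟨15,[(0,19),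
  (12,7),(1,2),(0,0),(5,7),(0,7),(10,3)]⟩),.k,⟨false,0,⟨1,[(2,1),(1,1),(1,0),(10,1),(13,0),(0,0)]⟩,
  ⟨1,[(0,1),(12,0),(8,0),(0,0),(9,0),(0,0)]⟩⟩,⟨true,0,⟨2,[(6,0),(10,2),(6,0)]⟩,⟨0,[(5,0),(12,0)]⟩⟩,
  ⟨false,1,⟨0,[(32,0),(2,0)]⟩,⟨0,[(33,0)]⟩⟩,⟨false,1,⟨2,[(0,2),(5,0),(6,2),(3,2),(6,0)]⟩,⟨0,[(2,0),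
  (8,0)]⟩⟩,⟨true,0,⟨0,[]⟩,⟨0,[(37,0)]⟩⟩,⟨false,1,⟨2,[(0,2),(5,0),(6,1),(3,2),(4,0),(10,1),(1,0)]⟩,
  ⟨0,[(2,0),(1,0),(27,0)]⟩⟩,[.o ⟨false,1,⟨5,[(0,1),(14,0),(6,5),(10,1),(0,1),(0,2)]⟩,⟨0,[(4,0)]⟩⟩,
  .o ⟨false,1,⟨0,[(22,0),(10,0),(1,0)]⟩,⟨0,[(11,0)]⟩⟩,.o ⟨false,1,⟨1,[(18,1),(9,0),(5,0)]⟩,⟨1,[(5,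
  0),(11,1),(2,0)]⟩⟩,.a ⟨true,0,⟨0,[(18,0)]⟩,⟨0,[(17,0)]⟩⟩ ⟨true,0,⟨1,[(2,1),(1,0),(12,1),(1,0),(12,
  0)]⟩,⟨0,[(0,0),(30,0)]⟩⟩ ⟨false,1,⟨0,[(17,0),(4,0),(10,0),(1,0)]⟩,⟨0,[(4,0),(13,0)]⟩⟩]⟩)))))))
  (.Q [0,0,0,1,0,0,-1,-1,0,1,1] (.p true [1,-1,1] [] (⟨0,[(21,0),(1,0)]⟩,⟨0,[(6,0)]⟩) .k 0 (⟨0,[]⟩,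
  ⟨0,[]⟩) .k .k) (.R ⟨2,false,false,false,[0,1],[0,1,-1],[1,1,1],(⟨0,[]⟩,⟨0,[]⟩),(⟨0,[(7,0)]⟩,⟨0,
  [(22,0),(1,0)]⟩),⟨0,[]⟩,.k,.k,.k,.k,.k,.k,⟨false,0,⟨0,[(20,0),(5,0)]⟩,⟨2,[(0,1),(0,0),(6,0),(14,
  0),(4,1),(1,0)]⟩⟩,⟨true,0,⟨0,[(0,0),(1,0),(0,0)]⟩,⟨0,[(18,0)]⟩⟩,⟨true,0,⟨0,[(27,0)]⟩,⟨0,[(28,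
  0)]⟩⟩,⟨false,1,⟨0,[(17,0),(12,0)]⟩,⟨0,[(4,0)]⟩⟩,⟨false,0,⟨0,[]⟩,⟨3,[(10,0),(0,0),(18,1)]⟩⟩,⟨false,
  1,⟨1,[(0,1),(22,0),(6,0)]⟩,⟨0,[(2,0)]⟩⟩,[.a ⟨true,0,⟨0,[(0,0)]⟩,⟨0,[(2,0)]⟩⟩ ⟨false,0,⟨0,[(32,
  0)]⟩,⟨1,[(29,0),(0,0)]⟩⟩ ⟨true,0,⟨0,[(0,0),(4,0)]⟩,⟨0,[(2,0)]⟩⟩,.o ⟨false,1,⟨1,[(0,1),(22,0),(6,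
  0)]⟩,⟨0,[(6,0)]⟩⟩,.o ⟨false,1,⟨3,[(10,0),(0,0),(17,1)]⟩,⟨0,[(5,0)]⟩⟩,.e ⟨false,0,⟨0,[]⟩,⟨3,[(10,
  0),(0,0),(18,1)]⟩⟩ ⟨false,1,⟨1,[(0,1),(22,0),(6,0)]⟩,⟨0,[(2,0)]⟩⟩]⟩) (.Q [0,0,0,0,0,1,0,0,0,-1,1]
  (.ed false [0,1,1] .k) (.Q [0,0,0,0,0,0,1,0,0,2,-1] (.p false [-1,1,1] [1] (⟨0,[(0,0)]⟩,⟨0,[(22,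
  0),(2,0)]⟩) .k 1 (⟨0,[]⟩,⟨0,[]⟩) .k .k) (.R ⟨0,false,false,true,[-1,1,1],[0,1],[1,0,1],(⟨0,[(1,
  0)]⟩,⟨0,[(23,0),(2,0)]⟩),(⟨0,[(27,0)]⟩,⟨0,[(26,0)]⟩),⟨0,[(23,0)]⟩,.k,.k,.k,.k,.k,.k,⟨false,1,⟨0,
  [(10,0),(11,0)]⟩,⟨0,[(30,0),(3,0)]⟩⟩,⟨true,0,⟨0,[(5,0)]⟩,⟨3,[(0,1),(19,2),(0,0)]⟩⟩,⟨false,1,⟨1,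
  [(10,1),(9,0),(0,0)]⟩,⟨0,[(22,0),(7,0)]⟩⟩,⟨true,0,⟨0,[(16,0)]⟩,⟨2,[(0,0),(10,0),(10,0)]⟩⟩,⟨false,
  0,⟨0,[]⟩,⟨0,[]⟩⟩,⟨false,0,⟨0,[]⟩,⟨0,[]⟩⟩,[.o ⟨false,0,⟨0,[(30,0),(3,0)]⟩,⟨3,[(4,1),(5,1),(6,1),(7,
  0),(6,0)]⟩⟩,.o ⟨false,0,⟨0,[(30,0)]⟩,⟨1,[(25,0),(3,1),(2,0)]⟩⟩,.o ⟨false,1,⟨15,[(0,7),(2,3),(8,2),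
  (0,2),(17,9)]⟩,⟨0,[(5,0),(1,0)]⟩⟩,.a ⟨true,0,⟨0,[(0,0)]⟩,⟨0,[(5,0)]⟩⟩ ⟨true,0,⟨0,[]⟩,⟨0,[(34,
  0)]⟩⟩ ⟨false,0,⟨0,[(5,0),(24,0)]⟩,⟨23,[(0,11),(2,3),(0,3),(5,3),(1,0),(0,0),(15,15),(2,17)]⟩⟩]⟩)
  (.Q [0,1,-1,-1,0,0,0,0,-1,-1,0,1] (.p true [0,0,0,1] [1] (⟨0,[(15,0)]⟩,⟨0,[(14,0)]⟩) .k 1 (⟨0,[]⟩,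
  ⟨0,[]⟩) .k .k) (.Q [0,0,-1,-1,0,0,1,1,-1,-1,-1,1] (.p false [1,-1,1] [0,0,0,1] (⟨0,[(25,0),(1,
  0)]⟩,⟨0,[(10,0)]⟩) .k 2 (⟨0,[(16,0)]⟩,⟨0,[(15,0)]⟩) .k (.x (-1) ⟨7,[(4,3),(8,0),(0,0),(10,7),(6,
  5)]⟩ ⟨0,[(18,0),(5,0)]⟩)) (.Q [0,1,1,0,0,0,0,0,1,0,0,-1] (.p false [0,0,0,1] [] (⟨0,[(17,0)]⟩,⟨0,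
  [(16,0)]⟩) .k 0 (⟨0,[]⟩,⟨0,[]⟩) .k .k) (.Q [0,-1,-1,0,1,0,-1,-1,-1,-1,1,1] (.p true [0,0,1] [1,0,
  0,-1] (⟨0,[(27,0)]⟩,⟨0,[(26,0)]⟩) .k 2 (⟨0,[(17,0)]⟩,⟨0,[(18,0)]⟩) .k (.x 0 ⟨0,[(23,0),(3,0)]⟩ ⟨0,
  [(20,0),(5,0),(7,0)]⟩)) (.I [0,0,1,1,0,0,0,0,-1] (.K ⟨0,[0,0,0,1],0,0,(⟨0,[(20,0)]⟩,⟨0,[(19,0)]⟩),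
  .k,(.r (-1) ⟨1,[(15,0),(2,0),(8,0),(5,0)]⟩ ⟨0,[(0,0)]⟩),(.x 0 ⟨0,[(32,0)]⟩ ⟨3,[(17,0),(0,0),(11,
  1),(0,3)]⟩),.k,.k,[⟨0,[(20,0)]⟩,⟨0,[(19,0)]⟩,⟨0,[(4,0),(14,0),(0,0),(14,0)]⟩,⟨0,[(2,0)]⟩]⟩) (.K
  ⟨0,[0,0,0,1],0,0,(⟨0,[(20,0)]⟩,⟨0,[(19,0)]⟩),.k,(.x 0 ⟨0,[(22,0),(2,0),(5,0)]⟩ ⟨0,[(32,0),(3,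
  0)]⟩),(.x 0 ⟨0,[(32,0)]⟩ ⟨3,[(17,0),(0,0),(11,1),(0,3)]⟩),.k,.k,[⟨0,[(20,0)]⟩,⟨0,[(19,0)]⟩,⟨0,[(4,
  0),(14,0),(0,0),(14,0)]⟩,⟨0,[(2,0)]⟩]⟩)) (.K ⟨0,[0,0,0,1],0,0,(⟨0,[(19,0)]⟩,⟨0,[(18,0)]⟩),.k,(.x
  0 ⟨0,[(21,0),(2,0),(5,0)]⟩ ⟨0,[(31,0),(3,0)]⟩),(.x 0 ⟨0,[(31,0)]⟩ ⟨3,[(16,0),(0,0),(11,1),(0,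
  3)]⟩),.k,.k,[⟨0,[(19,0)]⟩,⟨0,[(18,0)]⟩,⟨0,[(3,0),(14,0),(0,0),(14,0)]⟩,⟨0,[(1,0)]⟩]⟩)) (.Q [0,0,0,
  0,0,1,0,0,0,-1,0,1] (.p true [0,0,0,1] [1] (⟨0,[(18,0)]⟩,⟨0,[(17,0)]⟩) .k 1 (⟨0,[]⟩,⟨0,[]⟩) .k
  .k) (.R ⟨0,false,false,false,[1,0,0,-1],[0,1],[0,1,0,0,0,0,0,0,-1],(⟨0,[(18,0)]⟩,⟨0,[(19,0)]⟩),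
  (⟨0,[(31,0)]⟩,⟨0,[(30,0)]⟩),⟨0,[(0,0)]⟩,.k,.k,(.x (-1) ⟨3,[(16,0),(0,0),(11,1),(0,3)]⟩ ⟨0,[(31,
  0)]⟩),(.x (-1) ⟨3,[(16,0),(0,0),(11,1),(0,3)]⟩ ⟨0,[(31,0)]⟩),.k,.k,⟨false,0,⟨1,[(1,0),(0,0),(15,
  1),(1,0),(11,1),(1,0)]⟩,⟨1,[(17,0),(6,0),(0,0),(8,1),(1,0)]⟩⟩,⟨true,0,⟨0,[(18,0)]⟩,⟨0,[(11,0),(7,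
  0)]⟩⟩,⟨true,0,⟨0,[(38,0)]⟩,⟨0,[]⟩⟩,⟨false,1,⟨1,[(17,0),(0,1),(5,0),(0,0),(8,1),(1,0)]⟩,⟨1,[(1,1),
  (4,0),(13,0),(12,0)]⟩⟩,⟨false,0,⟨0,[]⟩,⟨0,[]⟩⟩,⟨false,0,⟨0,[]⟩,⟨0,[]⟩⟩,[.o ⟨false,0,⟨0,[(34,0)]⟩,
  ⟨1,[(29,0),(3,1),(2,0)]⟩⟩,.o ⟨false,1,⟨3,[(16,0),(0,0),(16,3),(1,1)]⟩,⟨1,[(6,0),(13,0),(12,0)]⟩⟩,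
  .o ⟨false,1,⟨1,[(19,1),(9,0),(5,0)]⟩,⟨0,[(11,0),(6,0)]⟩⟩,.a ⟨true,0,⟨0,[(19,0)]⟩,⟨0,[(18,0)]⟩⟩
  ⟨false,0,⟨1,[(1,0),(0,0),(15,1),(1,0),(13,0)]⟩,⟨1,[(17,0),(6,0),(0,0),(10,0)]⟩⟩ ⟨true,0,⟨0,[(18,
  0),(15,0)]⟩,⟨1,[(6,0),(12,1),(0,0),(12,0)]⟩⟩]⟩) (.Q [0,0,1,1,0,0,1,1,1,1,-1,-1] (.p false [0,0,1]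
  [1,0,0,-1] (⟨0,[(28,0)]⟩,⟨0,[(27,0)]⟩) .k 2 (⟨0,[(18,0)]⟩,⟨0,[(19,0)]⟩) .k (.r (-1) ⟨3,[(16,0),(0,
  2),(8,3)]⟩ ⟨1,[(1,1),(5,0),(3,0),(6,1),(1,0),(2,0)]⟩)) (.R ⟨1,true,false,false,[1,0,0,-1],[0,0,1],
  [0,1,0,0,0,0,0,0,-1],(⟨0,[(19,0)]⟩,⟨0,[(20,0)]⟩),(⟨0,[(29,0)]⟩,⟨0,[(28,0)]⟩),⟨0,[(1,0)]⟩,.k,.k,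
  (.x (-1) ⟨3,[(17,0),(0,0),(11,1),(0,3)]⟩ ⟨0,[(32,0)]⟩),.k,(.r (-1) ⟨16,[(2,0),(1,5),(3,2),(6,10),
  (1,4),(1,6),(1,0),(2,4),(11,0)]⟩ ⟨0,[(0,0),(9,0),(9,0)]⟩),.k,⟨false,0,⟨3,[(2,2),(1,0),(3,1),(10,
  3),(1,2),(2,0),(8,1),(1,2)]⟩,⟨1,[(18,0),(8,1),(9,0)]⟩⟩,⟨true,0,⟨0,[(19,0),(5,0)]⟩,⟨0,[(10,0),(9,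
  0)]⟩⟩,⟨true,0,⟨0,[(39,0)]⟩,⟨0,[]⟩⟩,⟨false,1,⟨0,[(0,0),(33,0),(2,0)]⟩,⟨0,[(2,0),(18,0)]⟩⟩,⟨false,0,
  ⟨0,[(35,0)]⟩,⟨0,[(34,0),(2,0)]⟩⟩,⟨true,0,⟨0,[(0,0)]⟩,⟨0,[(2,0),(18,0),(12,0)]⟩⟩,[]⟩) (.R ⟨1,false,
  false,false,[1,0,0,-1],[0,0,1],[0,1,0,0,0,0,0,0,-1],(⟨0,[(19,0)]⟩,⟨0,[(20,0)]⟩),(⟨0,[(29,0)]⟩,⟨0,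
  [(28,0)]⟩),⟨0,[(1,0)]⟩,.k,.k,(.x (-1) ⟨3,[(17,0),(0,0),(11,1),(0,3)]⟩ ⟨0,[(32,0)]⟩),.k,(.x 0 ⟨0,
  [(5,0),(22,0),(2,0)]⟩ ⟨7,[(8,3),(8,2),(0,2),(10,7),(2,7),(3,1)]⟩),.k,⟨false,0,⟨3,[(0,2),(3,0),(3,
  1),(10,3),(4,0),(8,1),(1,5)]⟩,⟨1,[(18,0),(8,1),(9,0)]⟩⟩,⟨true,0,⟨0,[(19,0),(5,0)]⟩,⟨0,[(10,0),(9,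
  0)]⟩⟩,⟨true,0,⟨0,[(39,0)]⟩,⟨0,[]⟩⟩,⟨false,1,⟨1,[(16,0),(1,0),(0,1),(2,0),(2,0),(11,0)]⟩,⟨0,[(0,0),
  (34,0)]⟩⟩,⟨false,0,⟨0,[(35,0)]⟩,⟨0,[(34,0),(2,0)]⟩⟩,⟨false,1,⟨1,[(16,0),(1,0),(0,1),(2,0),(2,0),
  (9,1),(1,0)]⟩,⟨0,[(0,0)]⟩⟩,[.o ⟨false,0,⟨0,[(11,0)]⟩,⟨1,[(24,1),(5,0),(6,0)]⟩⟩,.o ⟨false,1,⟨7,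
  [(16,3),(0,0),(0,0),(11,1),(6,3)]⟩,⟨0,[(21,0)]⟩⟩,.o ⟨false,1,⟨1,[(20,1),(9,0),(5,0)]⟩,⟨0,[(12,0),
  (6,0)]⟩⟩,.a ⟨true,0,⟨0,[(20,0)]⟩,⟨0,[(19,0)]⟩⟩ ⟨false,0,⟨1,[(0,0),(2,0),(15,1),(15,1)]⟩,⟨1,[(18,
  0),(6,0),(0,0),(10,0)]⟩⟩ ⟨true,0,⟨2,[(7,0),(8,0),(2,2),(15,0)]⟩,⟨0,[(20,0),(0,0)]⟩⟩]⟩)))) (.I [0,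
  0,1,1,0,0,0,-1,-1] (.K ⟨0,[0,0,0,1],0,0,(⟨0,[(18,0)]⟩,⟨0,[(17,0)]⟩),.k,(.r (-1) ⟨1,[(13,0),(2,0),
  (8,0),(5,0)]⟩ ⟨0,[(0,0),(24,0)]⟩),(.x 0 ⟨0,[(30,0)]⟩ ⟨3,[(15,0),(0,0),(11,1),(0,3)]⟩),.k,.k,[⟨0,
  [(18,0)]⟩,⟨0,[(17,0)]⟩,⟨0,[(2,0),(14,0),(0,0),(14,0)]⟩,⟨0,[(1,0),(9,0)]⟩]⟩) (.I [0,0,1,1,0,0,0,0,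
  -1] (.K ⟨0,[0,0,0,1],0,0,(⟨0,[(19,0)]⟩,⟨0,[(18,0)]⟩),.k,(.r (-1) ⟨11,[(1,3),(12,3),(1,0),(0,4),
  (15,3),(1,1)]⟩ ⟨0,[(0,0)]⟩),(.x 0 ⟨0,[(31,0)]⟩ ⟨3,[(16,0),(0,0),(11,1),(0,3)]⟩),.k,.k,[⟨0,[(19,
  0)]⟩,⟨0,[(18,0)]⟩,⟨0,[(3,0),(14,0),(0,0),(14,0)]⟩,⟨0,[(2,0),(9,0)]⟩]⟩) (.K ⟨0,[0,0,0,1],0,0,(⟨0,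
  [(19,0)]⟩,⟨0,[(18,0)]⟩),.k,(.x 0 ⟨0,[(21,0),(2,0),(5,0)]⟩ ⟨0,[(31,0),(3,0)]⟩),(.x 0 ⟨0,[(31,0)]⟩
  ⟨3,[(16,0),(0,0),(11,1),(0,3)]⟩),.k,.k,[⟨0,[(19,0)]⟩,⟨0,[(18,0)]⟩,⟨0,[(3,0),(14,0),(0,0),(14,0)]⟩,
  ⟨0,[(2,0),(9,0)]⟩]⟩)))) (.I [1,0,0,-1,0,0,0,0,1] (.Q [0,1,1,0,-1,0,0,0,1,0,0,-1] (.p false [0,0,0,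
  1] [] (⟨0,[(17,0)]⟩,⟨0,[(16,0)]⟩) .k 0 (⟨0,[]⟩,⟨0,[]⟩) .k .k) (.K ⟨0,[0,0,0,1],0,(-1),(⟨0,[(18,
  0)]⟩,⟨0,[(17,0)]⟩),.k,(.x 0 ⟨0,[(20,0),(2,0),(5,0)]⟩ ⟨0,[(30,0),(3,0)]⟩),(.x 0 ⟨0,[(30,0)]⟩ ⟨3,
  [(15,0),(0,0),(11,1),(0,3)]⟩),.k,.k,[⟨0,[(18,0)]⟩,⟨0,[(17,0)]⟩,⟨1,[(15,0),(2,1),(15,0),(2,1)]⟩,⟨0,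
  [(0,0)]⟩]⟩) (.Q [0,0,0,0,0,1,0,0,0,-1,0,1] (.p true [0,0,0,1] [1] (⟨0,[(18,0)]⟩,⟨0,[(17,0)]⟩) .k
  1 (⟨0,[]⟩,⟨0,[]⟩) .k .k) (.Q [0,0,-2,0,1,0,0,0,-2,-1,0,2] (.p true [0,0,0,1] [1,0,0,-1] (⟨0,[(19,
  0)]⟩,⟨0,[(18,0)]⟩) .k 2 (⟨0,[(18,0)]⟩,⟨0,[(19,0)]⟩) .k (.r 0 ⟨0,[(2,1),(31,1)]⟩ ⟨0,[(16,0)]⟩))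
  (.I [1,-1,-1,0,1,0,0,0,-1] (.R ⟨0,false,false,false,[1,0,0,-1],[0,1],[1,0,0,0,0,0,0,0,-1],(⟨0,
  [(20,0)]⟩,⟨0,[(21,0)]⟩),(⟨0,[(33,0)]⟩,⟨0,[(32,0)]⟩),⟨0,[(2,0)]⟩,.k,.k,(.x (-1) ⟨3,[(18,0),(0,0),
  (11,1),(0,3)]⟩ ⟨0,[(33,0)]⟩),(.x (-1) ⟨3,[(18,0),(0,0),(11,1),(0,3)]⟩ ⟨0,[(33,0)]⟩),.k,.k,⟨false,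
  1,⟨0,[(0,0),(33,0)]⟩,⟨8,[(4,0),(0,7),(0,1),(2,0),(11,7),(0,3),(1,3),(11,1)]⟩⟩,⟨true,0,⟨0,[(20,
  0)]⟩,⟨0,[(13,0),(7,0)]⟩⟩,⟨true,0,⟨0,[]⟩,⟨0,[(40,0)]⟩⟩,⟨false,0,⟨0,[(5,0)]⟩,⟨8,[(1,2),(1,2),(4,1),
  (7,1),(6,1),(7,0),(3,4)]⟩⟩,⟨false,0,⟨0,[]⟩,⟨0,[]⟩⟩,⟨false,0,⟨0,[]⟩,⟨0,[]⟩⟩,[.o ⟨false,0,⟨0,[(36,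
  0)]⟩,⟨1,[(31,0),(3,1),(2,0)]⟩⟩,.o ⟨false,1,⟨7,[(1,3),(3,7),(12,0),(0,0),(11,1)]⟩,⟨1,[(8,0),(13,0),
  (12,0)]⟩⟩,.o ⟨false,1,⟨6,[(1,2),(4,1),(2,0),(9,2),(1,0),(15,0)]⟩,⟨0,[(13,0),(6,0)]⟩⟩,.a ⟨true,0,
  ⟨0,[(21,0)]⟩,⟨0,[(20,0)]⟩⟩ ⟨false,1,⟨0,[(0,0)]⟩,⟨1,[(4,0),(0,0),(7,0),(7,0),(18,0)]⟩⟩ ⟨true,0,⟨0,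
  [(20,0),(15,0)]⟩,⟨1,[(8,0),(12,1),(0,0),(12,0)]⟩⟩]⟩) (.R ⟨0,false,false,false,[1,0,0,-1],[0,1],[1,
  1,1],(⟨0,[(20,0)]⟩,⟨0,[(21,0)]⟩),(⟨0,[(33,0)]⟩,⟨0,[(32,0)]⟩),⟨0,[(2,0)]⟩,.k,.k,(.x (-1) ⟨3,[(18,
  0),(0,0),(11,1),(0,3)]⟩ ⟨0,[(33,0)]⟩),(.x (-1) ⟨3,[(18,0),(0,0),(11,1),(0,3)]⟩ ⟨0,[(33,0)]⟩),.k,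
  .k,⟨false,0,⟨0,[(34,0)]⟩,⟨7,[(1,3),(3,7),(12,0),(0,0),(11,1)]⟩⟩,⟨true,0,⟨0,[(20,0)]⟩,⟨0,[(13,0),
  (7,0)]⟩⟩,⟨true,(-1),⟨0,[(0,0)]⟩,⟨1,[(18,0),(18,0)]⟩⟩,⟨false,0,⟨0,[(5,0)]⟩,⟨8,[(1,2),(1,2),(4,1),
  (7,1),(6,1),(7,0),(3,4)]⟩⟩,⟨false,0,⟨0,[]⟩,⟨0,[]⟩⟩,⟨false,0,⟨0,[]⟩,⟨0,[]⟩⟩,[.o ⟨false,0,⟨0,[(36,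
  0)]⟩,⟨1,[(31,0),(3,1),(2,0)]⟩⟩,.o ⟨false,1,⟨7,[(1,3),(3,7),(12,0),(0,0),(11,1)]⟩,⟨1,[(8,0),(13,0),
  (12,0)]⟩⟩,.o ⟨false,1,⟨6,[(1,2),(4,1),(2,0),(9,2),(1,0),(15,0)]⟩,⟨0,[(13,0),(6,0)]⟩⟩,.a ⟨true,0,
  ⟨0,[(21,0)]⟩,⟨0,[(20,0)]⟩⟩ ⟨false,0,⟨0,[]⟩,⟨3,[(18,0),(0,0),(18,1)]⟩⟩ ⟨true,0,⟨0,[(20,0),(15,0)]⟩,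
  ⟨1,[(0,0),(0,0),(2,0),(8,0),(21,0)]⟩⟩]⟩)) (.I [1,-1,1,0,0,0,0,0,1] (.R ⟨0,false,false,true,[1,0,0,
  -1],[0,1,-1],[0,1,0,0,0,0,0,0,-1],(⟨0,[(20,0)]⟩,⟨0,[(21,0)]⟩),(⟨0,[(15,0)]⟩,⟨0,[(30,0),(1,0)]⟩),
  ⟨0,[(2,0)]⟩,.k,.k,(.x (-1) ⟨3,[(18,0),(0,0),(11,1),(0,3)]⟩ ⟨0,[(33,0)]⟩),(.r (-1) ⟨1,[(16,0),(1,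
  0),(9,2),(5,0)]⟩ ⟨2,[(0,0),(0,0),(7,0),(6,0),(4,1),(0,0),(2,0),(10,3)]⟩),.k,.k,⟨false,1,⟨2,[(3,2),
  (2,1),(10,0),(2,2),(7,0),(5,2)]⟩,⟨2,[(0,0),(0,0),(7,0),(6,0),(4,1),(0,0),(2,0),(10,3)]⟩⟩,⟨true,0,
  ⟨0,[(11,0),(8,1),(0,0)]⟩,⟨2,[(6,0),(2,1),(3,0),(7,2)]⟩⟩,⟨true,0,⟨0,[(40,0)]⟩,⟨0,[]⟩⟩,⟨false,0,⟨0,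
  [(5,0),(19,0)]⟩,⟨0,[(3,0),(4,0)]⟩⟩,⟨false,0,⟨0,[]⟩,⟨0,[]⟩⟩,⟨false,0,⟨0,[]⟩,⟨0,[]⟩⟩,[.o ⟨false,0,
  ⟨0,[(25,0),(10,0)]⟩,⟨1,[(10,1),(20,0),(6,0)]⟩⟩,.o ⟨false,1,⟨7,[(3,3),(1,3),(12,0),(0,0),(5,7),(5,
  1),(4,3)]⟩,⟨0,[(8,0)]⟩⟩,.o ⟨false,1,⟨1,[(21,1),(9,0),(5,0)]⟩,⟨6,[(1,2),(4,1),(2,0),(8,2),(1,0)]⟩⟩,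
  .a ⟨true,0,⟨0,[(21,0)]⟩,⟨0,[(20,0)]⟩⟩ ⟨false,1,⟨1,[(18,0),(18,0)]⟩,⟨0,[(0,0)]⟩⟩ ⟨true,0,⟨0,[(20,
  0),(4,0),(10,0)]⟩,⟨0,[(8,0),(12,0)]⟩⟩]⟩) (.R ⟨0,false,false,false,[1,0,0,-1],[0,1],[1,0,0,0,0,0,0,
  0,-1],(⟨0,[(20,0)]⟩,⟨0,[(21,0)]⟩),(⟨0,[(33,0)]⟩,⟨0,[(32,0)]⟩),⟨0,[(2,0)]⟩,.k,.k,(.x (-1) ⟨3,[(18,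
  0),(0,0),(11,1),(0,3)]⟩ ⟨0,[(33,0)]⟩),(.x (-1) ⟨3,[(18,0),(0,0),(11,1),(0,3)]⟩ ⟨0,[(33,0)]⟩),.k,
  .k,⟨false,1,⟨4,[(0,2),(2,1),(6,1),(0,1),(4,1),(3,1),(13,0),(2,0)]⟩,⟨3,[(1,0),(17,0),(1,1),(1,0),
  (2,0),(9,3)]⟩⟩,⟨true,0,⟨0,[(20,0)]⟩,⟨0,[(13,0),(7,0)]⟩⟩,⟨true,0,⟨0,[]⟩,⟨0,[(40,0)]⟩⟩,⟨false,0,⟨0,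
  [(5,0)]⟩,⟨1,[(3,1),(4,0),(13,0),(12,0)]⟩⟩,⟨false,0,⟨0,[]⟩,⟨0,[]⟩⟩,⟨false,0,⟨0,[]⟩,⟨0,[]⟩⟩,[.o
  ⟨false,0,⟨0,[(36,0)]⟩,⟨1,[(31,0),(3,1),(2,0)]⟩⟩,.o ⟨false,1,⟨7,[(3,3),(1,3),(12,0),(0,0),(11,1),
  (4,3)]⟩,⟨1,[(8,0),(13,0),(12,0)]⟩⟩,.o ⟨false,1,⟨1,[(21,1),(9,0),(5,0)]⟩,⟨6,[(1,2),(4,1),(2,0),(8,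
  2),(1,0)]⟩⟩,.a ⟨true,0,⟨0,[(21,0)]⟩,⟨0,[(20,0)]⟩⟩ ⟨false,1,⟨0,[(0,0),(37,0)]⟩,⟨3,[(1,0),(17,0),(1,
  1),(1,0),(2,0)]⟩⟩ ⟨true,0,⟨0,[(0,0),(4,0)]⟩,⟨1,[(8,0),(12,1),(0,0),(12,0)]⟩⟩]⟩))) (.I [1,-1,1,0,0,
  0,0,0,1] (.Q [0,0,-1,-2,1,0,0,0,-1,-1,0,1] (.p true [0,0,0,1] [1] (⟨0,[(20,0)]⟩,⟨0,[(19,0)]⟩) .k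
  1 (⟨0,[]⟩,⟨0,[]⟩) .k .k) (.R ⟨1,false,false,false,[1,0,0,-1],[0,1],[0,1,0,0,0,0,0,0,-1],(⟨0,[(20,
  0)]⟩,⟨0,[(21,0)]⟩),(⟨0,[(33,0)]⟩,⟨0,[(32,0)]⟩),⟨0,[(2,0)]⟩,.k,.k,(.x (-1) ⟨3,[(18,0),(0,0),(11,1),
  (0,3)]⟩ ⟨0,[(33,0)]⟩),(.x (-1) ⟨3,[(18,0),(0,0),(11,1),(0,3)]⟩ ⟨0,[(33,0)]⟩),(.x 0 ⟨2,[(6,1),(2,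
  0),(3,1),(18,5)]⟩ ⟨3,[(18,0),(0,0),(13,7),(3,1)]⟩),.k,⟨false,1,⟨1,[(18,0),(15,1),(2,0)]⟩,⟨0,[(1,
  0),(34,0)]⟩⟩,⟨true,0,⟨0,[(20,0)]⟩,⟨0,[(13,0),(7,0)]⟩⟩,⟨true,0,⟨0,[(40,0)]⟩,⟨0,[]⟩⟩,⟨false,0,⟨0,
  [(5,0)]⟩,⟨2,[(0,0),(2,1),(10,0),(7,0)]⟩⟩,⟨false,0,⟨0,[(36,0)]⟩,⟨0,[(0,0),(4,0)]⟩⟩,⟨false,0,⟨0,[(5,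
  0),(30,0)]⟩,⟨0,[(0,0)]⟩⟩,[.o ⟨false,0,⟨0,[(36,0)]⟩,⟨1,[(0,0),(4,0),(25,0),(3,0)]⟩⟩,.o ⟨false,1,⟨7,
  [(3,3),(1,3),(12,0),(0,0),(11,1),(4,3)]⟩,⟨1,[(8,0),(13,0),(12,0)]⟩⟩,.o ⟨false,1,⟨1,[(21,1),(9,0),
  (5,0)]⟩,⟨0,[(13,0),(6,0)]⟩⟩,.a ⟨true,0,⟨0,[(21,0)]⟩,⟨0,[(20,0)]⟩⟩ ⟨false,1,⟨1,[(18,0),(18,0)]⟩,⟨0,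
  [(1,0)]⟩⟩ ⟨true,0,⟨0,[(20,0),(15,0)]⟩,⟨1,[(8,0),(12,1),(0,0),(12,0)]⟩⟩]⟩) (.R ⟨1,true,false,false,
  [1,0,0,-1],[0,1],[0,1,0,0,0,0,0,0,-1],(⟨0,[(20,0)]⟩,⟨0,[(21,0)]⟩),(⟨0,[(33,0)]⟩,⟨0,[(32,0)]⟩),⟨0,
  [(2,0)]⟩,.k,.k,(.x (-1) ⟨3,[(18,0),(0,0),(11,1),(0,3)]⟩ ⟨0,[(33,0)]⟩),(.x (-1) ⟨3,[(18,0),(0,0),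
  (11,1),(0,3)]⟩ ⟨0,[(33,0)]⟩),(.x 0 ⟨2,[(6,1),(2,0),(3,1),(18,5)]⟩ ⟨3,[(18,0),(0,0),(13,7),(3,
  1)]⟩),.k,⟨false,1,⟨1,[(18,0),(15,1),(2,0)]⟩,⟨3,[(0,1),(0,1),(19,1),(9,0),(6,0)]⟩⟩,⟨true,0,⟨0,[(20,
  0)]⟩,⟨0,[(13,0),(7,0)]⟩⟩,⟨true,0,⟨0,[(40,0)]⟩,⟨0,[]⟩⟩,⟨false,0,⟨0,[(5,0)]⟩,⟨1,[(3,1),(4,0),(13,0),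
  (12,0)]⟩⟩,⟨false,0,⟨0,[(36,0)]⟩,⟨0,[(35,0),(2,0)]⟩⟩,⟨true,(-1),⟨0,[(0,0)]⟩,⟨1,[(3,1),(4,0),(13,0),
  (12,2)]⟩⟩,[]⟩)) (.K ⟨0,[0,0,0,1],0,0,(⟨0,[(20,0)]⟩,⟨0,[(19,0)]⟩),.k,(.x 0 ⟨0,[(22,0),(2,0),(5,
  0)]⟩ ⟨0,[(32,0),(3,0)]⟩),(.x 0 ⟨0,[(32,0)]⟩ ⟨3,[(17,0),(0,0),(11,1),(0,3)]⟩),.k,.k,[⟨0,[(20,0)]⟩,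
  ⟨0,[(19,0)]⟩,⟨0,[(0,0),(19,0)]⟩,⟨0,[(4,0),(8,0),(10,0)]⟩]⟩)))) (.K ⟨0,[0,0,0,1],0,0,(⟨0,[(17,0)]⟩,
  ⟨0,[(16,0)]⟩),.k,(.r (-1) ⟨1,[(12,0),(2,0),(8,0),(5,0)]⟩ ⟨1,[(0,1),(21,0),(0,0)]⟩),(.x 0 ⟨0,[(29,
  0)]⟩ ⟨3,[(14,0),(0,0),(11,1),(0,3)]⟩),.k,.k,[⟨0,[(17,0)]⟩,⟨0,[(16,0)]⟩,⟨0,[(0,0),(16,0),(12,0)]⟩,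
  ⟨0,[(1,0),(8,0),(10,0)]⟩]⟩)))) (.I [1,-1,1,0,0,0,0,0,1] (.Q [0,0,0,0,0,1,0,0,0,-1,0,1] (.p true
  [0,0,0,1] [1] (⟨0,[(15,0)]⟩,⟨0,[(14,0)]⟩) .k 1 (⟨0,[]⟩,⟨0,[]⟩) .k .k) (.R ⟨0,false,false,false,[1,
  0,0,-1],[0,1],[0,1,0,0,0,0,0,0,-1],(⟨0,[(15,0)]⟩,⟨0,[(16,0)]⟩),(⟨0,[(28,0)]⟩,⟨0,[(27,0)]⟩),⟨0,[(0,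
  0)]⟩,.k,.k,(.x (-1) ⟨3,[(13,0),(0,0),(11,1),(0,3)]⟩ ⟨0,[(28,0)]⟩),(.x (-1) ⟨3,[(13,0),(0,0),(11,
  1),(0,3)]⟩ ⟨0,[(28,0)]⟩),.k,.k,⟨false,1,⟨1,[(13,0),(15,1),(2,0)]⟩,⟨0,[(1,0),(29,0)]⟩⟩,⟨true,0,⟨0,
  [(15,0)]⟩,⟨0,[(8,0),(7,0)]⟩⟩,⟨true,0,⟨0,[(35,0)]⟩,⟨0,[]⟩⟩,⟨false,0,⟨0,[(1,0),(13,0),(15,0)]⟩,⟨1,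
  [(3,0),(2,0),(4,0),(1,0),(2,1),(12,0),(1,0)]⟩⟩,⟨false,0,⟨0,[]⟩,⟨0,[]⟩⟩,⟨false,0,⟨0,[]⟩,⟨0,[]⟩⟩,
  [.o ⟨false,0,⟨0,[(31,0)]⟩,⟨1,[(26,0),(3,1),(2,0)]⟩⟩,.o ⟨false,1,⟨3,[(13,0),(0,0),(16,3),(1,1)]⟩,
  ⟨1,[(3,0),(13,0),(12,0)]⟩⟩,.o ⟨false,1,⟨1,[(16,1),(9,0),(5,0)]⟩,⟨0,[(8,0),(6,0)]⟩⟩,.a ⟨true,0,⟨0,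
  [(16,0)]⟩,⟨0,[(15,0)]⟩⟩ ⟨false,1,⟨1,[(13,0),(18,0)]⟩,⟨0,[(1,0)]⟩⟩ ⟨true,0,⟨0,[(15,0),(15,0)]⟩,⟨1,
  [(3,0),(12,1),(0,0),(12,0)]⟩⟩]⟩) (.Q [0,0,-1,-2,1,0,0,0,-1,-1,0,1] (.p true [0,0,0,1] [1] (⟨0,
  [(16,0)]⟩,⟨0,[(15,0)]⟩) .k 1 (⟨0,[]⟩,⟨0,[]⟩) .k .k) (.R ⟨1,false,false,false,[1,0,0,-1],[0,1],[0,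
  1,0,0,0,0,0,0,-1],(⟨0,[(16,0)]⟩,⟨0,[(17,0)]⟩),(⟨0,[(29,0)]⟩,⟨0,[(28,0)]⟩),⟨0,[(1,0)]⟩,.k,.k,(.x
  (-1) ⟨3,[(14,0),(0,0),(11,1),(0,3)]⟩ ⟨0,[(29,0)]⟩),(.x (-1) ⟨3,[(14,0),(0,0),(11,1),(0,3)]⟩ ⟨0,
  [(29,0)]⟩),(.x 0 ⟨0,[(5,0),(1,1),(20,1)]⟩ ⟨3,[(14,0),(0,0),(13,7),(3,1)]⟩),.k,⟨false,1,⟨1,[(14,0),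
  (15,1),(2,0)]⟩,⟨0,[(2,0),(29,0)]⟩⟩,⟨true,0,⟨0,[(16,0)]⟩,⟨0,[(9,0),(7,0)]⟩⟩,⟨true,0,⟨0,[(36,0)]⟩,
  ⟨0,[]⟩⟩,⟨false,0,⟨0,[(2,0),(13,0),(15,0)]⟩,⟨0,[(0,0),(31,0)]⟩⟩,⟨false,0,⟨0,[(32,0)]⟩,⟨0,[(31,0),
  (2,0)]⟩⟩,⟨false,0,⟨0,[(2,0),(13,0),(15,1)]⟩,⟨0,[(0,0)]⟩⟩,[.o ⟨false,0,⟨0,[(32,0)]⟩,⟨1,[(27,0),(3,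
  1),(2,0)]⟩⟩,.o ⟨false,1,⟨3,[(14,0),(0,0),(16,3),(1,1)]⟩,⟨1,[(4,0),(13,0),(12,0)]⟩⟩,.o ⟨false,1,⟨1,
  [(17,1),(9,0),(5,0)]⟩,⟨0,[(9,0),(6,0)]⟩⟩,.a ⟨true,0,⟨0,[(17,0)]⟩,⟨0,[(16,0)]⟩⟩ ⟨false,1,⟨1,[(14,
  0),(18,0)]⟩,⟨0,[(2,0)]⟩⟩ ⟨true,0,⟨0,[(16,0),(15,0)]⟩,⟨1,[(4,0),(12,1),(0,0),(12,0)]⟩⟩]⟩) (.R ⟨1,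
  true,false,false,[1,0,0,-1],[0,1],[0,1,0,0,0,0,0,0,-1],(⟨0,[(16,0)]⟩,⟨0,[(17,0)]⟩),(⟨0,[(29,0)]⟩,
  ⟨0,[(28,0)]⟩),⟨0,[(1,0)]⟩,.k,.k,(.x (-1) ⟨3,[(14,0),(0,0),(11,1),(0,3)]⟩ ⟨0,[(29,0)]⟩),(.x (-1)
  ⟨3,[(14,0),(0,0),(11,1),(0,3)]⟩ ⟨0,[(29,0)]⟩),(.x 0 ⟨0,[(5,0),(1,1),(20,1)]⟩ ⟨3,[(14,0),(0,0),(13,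
  7),(3,1)]⟩),.k,⟨false,1,⟨1,[(14,0),(15,1),(2,0)]⟩,⟨3,[(0,1),(1,1),(14,1),(9,0),(6,0)]⟩⟩,⟨true,0,
  ⟨0,[(16,0)]⟩,⟨0,[(9,0),(7,0)]⟩⟩,⟨true,0,⟨0,[(36,0)]⟩,⟨0,[]⟩⟩,⟨false,0,⟨7,[(0,3),(1,3),(11,0),(0,
  0),(0,3),(17,1)]⟩,⟨1,[(4,0),(2,0),(4,0),(1,0),(2,1),(12,0),(1,0)]⟩⟩,⟨false,0,⟨0,[(32,0)]⟩,⟨0,[(31,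
  0),(2,0)]⟩⟩,⟨true,(-1),⟨0,[(0,0)]⟩,⟨5,[(4,1),(2,1),(4,1),(1,2),(2,5),(9,0),(2,3),(0,3)]⟩⟩,[]⟩)))
  (.Q [0,1,1,0,0,0,0,0,1,0,0,-1] (.p false [0,0,0,1] [] (⟨0,[(15,0)]⟩,⟨0,[(14,0)]⟩) .k 0 (⟨0,[]⟩,⟨0,
  []⟩) .k .k) (.I [0,0,1,1,0,0,0,0,-1] (.K ⟨0,[0,0,0,1],0,0,(⟨0,[(17,0)]⟩,⟨0,[(16,0)]⟩),.k,(.r (-1)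
  ⟨1,[(12,0),(2,0),(8,0),(5,0)]⟩ ⟨0,[(0,0)]⟩),(.x 0 ⟨0,[(29,0)]⟩ ⟨3,[(14,0),(0,0),(11,1),(0,3)]⟩),
  .k,.k,[⟨0,[(17,0)]⟩,⟨0,[(16,0)]⟩,⟨0,[(2,0),(14,0)]⟩,⟨0,[(1,0)]⟩]⟩) (.K ⟨0,[0,0,0,1],0,0,(⟨0,[(17,
  0)]⟩,⟨0,[(16,0)]⟩),.k,(.x 0 ⟨0,[(19,0),(2,0),(5,0)]⟩ ⟨0,[(29,0),(3,0)]⟩),(.x 0 ⟨0,[(29,0)]⟩ ⟨3,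
  [(14,0),(0,0),(11,1),(0,3)]⟩),.k,.k,[⟨0,[(17,0)]⟩,⟨0,[(16,0)]⟩,⟨0,[(2,0),(14,0)]⟩,⟨0,[(1,0)]⟩]⟩))
  (.Q [0,0,0,0,0,1,0,0,0,-1,0,1] (.p true [0,0,0,1] [1] (⟨0,[(16,0)]⟩,⟨0,[(15,0)]⟩) .k 1 (⟨0,[]⟩,⟨0,
  []⟩) .k .k) (.R ⟨0,false,false,false,[1,0,0,-1],[0,1],[0,1,0,0,0,0,0,0,-1],(⟨0,[(16,0)]⟩,⟨0,[(17,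
  0)]⟩),(⟨0,[(29,0)]⟩,⟨0,[(28,0)]⟩),⟨0,[(0,0)]⟩,.k,.k,(.x (-1) ⟨3,[(14,0),(0,0),(11,1),(0,3)]⟩ ⟨0,
  [(29,0)]⟩),(.x (-1) ⟨3,[(14,0),(0,0),(11,1),(0,3)]⟩ ⟨0,[(29,0)]⟩),.k,.k,⟨false,0,⟨2,[(1,1),(0,0),
  (1,0),(11,1),(1,0),(11,2),(1,0)]⟩,⟨1,[(15,0),(6,0),(0,0),(8,1),(1,0)]⟩⟩,⟨true,0,⟨0,[(16,0)]⟩,⟨0,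
  [(9,0),(7,0)]⟩⟩,⟨true,0,⟨0,[(36,0)]⟩,⟨0,[]⟩⟩,⟨false,1,⟨1,[(15,0),(0,1),(5,0),(0,0),(8,1),(1,0)]⟩,
  ⟨1,[(1,1),(2,0),(13,0),(12,0)]⟩⟩,⟨false,0,⟨0,[]⟩,⟨0,[]⟩⟩,⟨false,0,⟨0,[]⟩,⟨0,[]⟩⟩,[.o ⟨false,0,⟨0,
  [(32,0)]⟩,⟨1,[(27,0),(3,1),(2,0)]⟩⟩,.o ⟨false,1,⟨3,[(14,0),(0,0),(16,3),(1,1)]⟩,⟨1,[(4,0),(13,0),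
  (12,0)]⟩⟩,.o ⟨false,1,⟨1,[(17,1),(9,0),(5,0)]⟩,⟨0,[(9,0),(6,0)]⟩⟩,.a ⟨true,0,⟨0,[(17,0)]⟩,⟨0,[(16,
  0)]⟩⟩ ⟨false,0,⟨2,[(1,1),(0,0),(1,0),(11,1),(1,0),(13,0)]⟩,⟨1,[(15,0),(6,0),(0,0),(10,0)]⟩⟩ ⟨true,
  0,⟨0,[(16,0),(15,0)]⟩,⟨1,[(4,0),(12,1),(0,0),(12,0)]⟩⟩]⟩) (.Q [0,0,-1,-1,0,0,-1,-1,-1,-1,1,1] (.p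
  true [0,0,1] [1,0,0,-1] (⟨0,[(26,0)]⟩,⟨0,[(25,0)]⟩) .k 2 (⟨0,[(16,0)]⟩,⟨0,[(17,0)]⟩) .k (.r (-1)
  ⟨3,[(14,0),(0,2),(8,3)]⟩ ⟨1,[(1,1),(3,0),(3,0),(6,1),(1,0),(2,0)]⟩)) (.R ⟨1,false,false,false,[1,
  0,0,-1],[0,1],[0,1,0,0,0,0,0,0,-1],(⟨0,[(17,0)]⟩,⟨0,[(18,0)]⟩),(⟨0,[(30,0)]⟩,⟨0,[(29,0)]⟩),⟨0,[(1,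
  0)]⟩,.k,.k,(.x (-1) ⟨3,[(15,0),(0,0),(11,1),(0,3)]⟩ ⟨0,[(30,0)]⟩),(.x (-1) ⟨3,[(15,0),(0,0),(11,
  1),(0,3)]⟩ ⟨0,[(30,0)]⟩),(.x 0 ⟨0,[(6,0),(1,1),(20,1)]⟩ ⟨3,[(15,0),(0,0),(13,7),(3,1)]⟩),.k,
  ⟨false,0,⟨2,[(0,0),(1,0),(0,0),(1,0),(11,1),(13,2),(1,1)]⟩,⟨1,[(16,0),(6,0),(0,0),(8,1),(1,0)]⟩⟩,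
  ⟨true,0,⟨0,[(17,0)]⟩,⟨0,[(10,0),(7,0)]⟩⟩,⟨true,0,⟨0,[(37,0)]⟩,⟨0,[]⟩⟩,⟨false,1,⟨1,[(16,0),(0,1),
  (5,0),(0,0),(8,1),(1,0)]⟩,⟨1,[(0,0),(1,0),(8,0)]⟩⟩,⟨false,0,⟨0,[(33,0)]⟩,⟨0,[(32,0),(2,0)]⟩⟩,
  ⟨false,1,⟨1,[(16,0),(0,1),(5,0),(0,0),(8,3),(1,0)]⟩,⟨0,[(0,0),(6,0)]⟩⟩,[.o ⟨false,0,⟨0,[(33,0)]⟩,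
  ⟨1,[(28,0),(3,1),(2,0)]⟩⟩,.o ⟨false,1,⟨3,[(15,0),(0,0),(16,3),(1,1)]⟩,⟨1,[(5,0),(13,0),(12,0)]⟩⟩,
  .o ⟨false,1,⟨1,[(18,1),(9,0),(5,0)]⟩,⟨0,[(10,0),(6,0)]⟩⟩,.a ⟨true,0,⟨0,[(18,0)]⟩,⟨0,[(17,0)]⟩⟩
  ⟨false,0,⟨2,[(0,0),(1,0),(0,0),(1,0),(11,1),(15,1)]⟩,⟨1,[(16,0),(6,0),(0,0),(10,0)]⟩⟩ ⟨true,0,⟨0,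
  [(17,0),(15,0)]⟩,⟨1,[(5,0),(12,1),(0,0),(12,0)]⟩⟩]⟩) (.R ⟨1,true,false,false,[1,0,-1],[0,0,0,1],
  [1,1,0,-1,0,0,0,-1],(⟨0,[(26,0)]⟩,⟨0,[(27,0)]⟩),(⟨0,[(18,0)]⟩,⟨0,[(17,0)]⟩),⟨0,[(4,0)]⟩,.k,.k,.k,
  .k,(.r (-1) ⟨6,[(2,0),(0,1),(2,0),(6,4),(1,1),(1,0),(1,0),(2,0),(9,1)]⟩ ⟨0,[(0,0),(7,0),(9,0)]⟩),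
  .k,⟨false,0,⟨1,[(2,1),(3,0),(10,1),(1,1),(11,0),(0,0)]⟩,⟨1,[(16,0),(8,1),(7,1),(1,0)]⟩⟩,⟨true,0,
  ⟨0,[(17,0),(5,0)]⟩,⟨0,[(8,0),(9,0)]⟩⟩,⟨true,0,⟨0,[(32,0)]⟩,⟨0,[(33,0)]⟩⟩,⟨false,1,⟨0,[(0,0),(31,
  0),(2,0)]⟩,⟨0,[(2,0),(16,0)]⟩⟩,⟨false,0,⟨0,[]⟩,⟨3,[(15,0),(0,0),(18,1)]⟩⟩,⟨true,0,⟨0,[(0,0)]⟩,⟨0,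
  [(2,0),(16,0),(12,0)]⟩⟩,[]⟩)))))))))) (.R ⟨2,false,false,false,[0,1],[0,0,1],[1,1,1],(⟨0,[]⟩,⟨0,
  []⟩),(⟨0,[(18,0)]⟩,⟨0,[(17,0)]⟩),⟨0,[]⟩,.k,.k,.k,.k,.k,.k,⟨false,0,⟨0,[(0,0),(13,0),(7,0),(1,0)]⟩,
  ⟨1,[(16,1),(8,0),(0,0)]⟩⟩,⟨true,0,⟨0,[(14,0)]⟩,⟨0,[(0,0),(15,0)]⟩⟩,⟨true,0,⟨0,[(23,0)]⟩,⟨0,[(24,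
  0)]⟩⟩,⟨false,1,⟨2,[(2,0),(2,0),(17,1),(2,2)]⟩,⟨0,[(0,0),(23,0)]⟩⟩,⟨false,0,⟨0,[]⟩,⟨3,[(6,0),(0,0),
  (18,1)]⟩⟩,⟨false,1,⟨7,[(5,3),(0,0),(0,0),(11,1),(6,3)]⟩,⟨0,[(0,0)]⟩⟩,[.a ⟨true,0,⟨1,[(5,0),(2,0),
  (0,0)]⟩,⟨0,[(0,0)]⟩⟩ ⟨false,0,⟨0,[(28,0)]⟩,⟨1,[(25,0),(0,0)]⟩⟩ ⟨true,0,⟨1,[(5,0),(5,0),(2,0)]⟩,⟨0,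
  [(0,0)]⟩⟩,.o ⟨false,1,⟨7,[(5,3),(0,0),(0,0),(11,1),(6,3)]⟩,⟨0,[(10,0)]⟩⟩,.o ⟨false,1,⟨3,[(6,0),(0,
  0),(17,1)]⟩,⟨0,[(1,0)]⟩⟩,.e ⟨false,0,⟨0,[]⟩,⟨3,[(6,0),(0,0),(18,1)]⟩⟩ ⟨false,1,⟨7,[(5,3),(0,0),(0,
  0),(11,1),(6,3)]⟩,⟨0,[(0,0)]⟩⟩]⟩))))

theorem ok1 : chk (cU (-1) true 3) t1 r1 = true := by decide +kernel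

noncomputable def t2 : Tre :=
  .Q [0,0,0,0,0,-1,0,0,0,0,1] (.ed false [1,-1,1] .k) t0 t1

theorem ok2 : chk (cU (-1) true 3) t2 l0 = true :=
  chk_Q (e' := [0,0,0,0,0,1,0,0,0,0,-1]) (by decide +kernel) (by decide +kernel) ok0 ok1

noncomputable def t3 : Tre :=
  (.I [0,0,1,1,0,0,0,0,-1] (.Q [0,1,-1,0,0,0,0,0,-1,0,0,1] (.p true [0,0,0,1] [] (⟨0,[(6,0)]⟩,⟨0,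
  [(5,0)]⟩) .k 0 (⟨0,[]⟩,⟨0,[]⟩) .k .k) (.Q [0,1,1,0,0,0,0,0,1,0,0,-1] (.p false [0,0,0,1] [] (⟨0,
  [(7,0)]⟩,⟨0,[(6,0)]⟩) .k 0 (⟨0,[]⟩,⟨0,[]⟩) .k .k) (.K ⟨0,[0,0,0,1],0,0,(⟨0,[(8,0)]⟩,⟨0,[(7,0)]⟩),
  .k,(.r (-1) ⟨1,[(6,0),(14,1),(3,0)]⟩ ⟨0,[(2,0)]⟩),(.x 0 ⟨0,[(20,0)]⟩ ⟨3,[(5,0),(0,0),(11,1),(0,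
  3)]⟩),.k,.k,[⟨0,[(8,0)]⟩,⟨0,[(7,0)]⟩,⟨0,[(1,0)]⟩,⟨0,[(0,0)]⟩]⟩) (.I [0,0,1,1,0,0,0,0,1] (.Q [0,0,
  0,0,0,1,0,0,0,-1,0,1] (.p true [0,0,0,1] [1] (⟨0,[(9,0)]⟩,⟨0,[(8,0)]⟩) .k 1 (⟨0,[]⟩,⟨0,[]⟩) .k
  .k) (.R ⟨0,false,false,true,[1,0,0,-1],[1,-1],[1,1,0,-1,0,0,0,0,-1],(⟨0,[(9,0)]⟩,⟨0,[(10,0)]⟩),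
  (⟨0,[(21,0)]⟩,⟨0,[(22,0)]⟩),⟨0,[(0,0)]⟩,.k,.k,(.r (-1) ⟨1,[(7,0),(15,1),(3,0)]⟩ ⟨0,[(1,0)]⟩),(.r
  0 ⟨0,[(4,0)]⟩ ⟨1,[(8,0),(14,1),(3,0)]⟩),.k,.k,⟨false,0,⟨7,[(2,5),(2,1),(1,0),(1,5),(1,1),(0,1),(2,
  3),(4,0),(2,1)]⟩,⟨1,[(8,0),(17,0)]⟩⟩,⟨true,0,⟨0,[(9,0),(2,0),(2,0)]⟩,⟨0,[(1,0),(0,0),(20,0)]⟩⟩,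
  ⟨true,0,⟨0,[(24,0)]⟩,⟨0,[(25,0)]⟩⟩,⟨false,1,⟨1,[(8,0),(0,1),(2,1),(2,1),(7,1),(3,0)]⟩,⟨0,[(2,0),
  (22,0)]⟩⟩,⟨false,0,⟨0,[]⟩,⟨0,[]⟩⟩,⟨false,0,⟨0,[]⟩,⟨0,[]⟩⟩,[.a ⟨true,0,⟨0,[(24,0)]⟩,⟨0,[(1,0),(0,
  0),(6,0)]⟩⟩ ⟨false,0,⟨7,[(2,5),(2,1),(1,0),(1,5),(1,1),(0,1),(2,3),(4,0),(2,9)]⟩,⟨1,[(8,0),(16,1),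
  (1,0)]⟩⟩ ⟨true,0,⟨0,[(9,0),(2,0),(2,0),(7,0)]⟩,⟨0,[(1,0),(0,0)]⟩⟩,.o ⟨false,1,⟨1,[(20,0),(3,1),(2,
  0)]⟩,⟨0,[(25,0)]⟩⟩,.a ⟨true,0,⟨0,[(1,0),(0,0),(20,0)]⟩,⟨1,[(9,1),(5,0),(0,0)]⟩⟩ ⟨false,0,⟨0,[(2,
  0),(6,0),(2,0),(2,0),(7,0)]⟩,⟨1,[(8,0),(16,1),(1,0)]⟩⟩ ⟨true,0,⟨0,[(9,0),(2,0),(2,0),(7,0)]⟩,⟨0,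
  [(1,0),(0,0),(20,0),(1,0)]⟩⟩,.a ⟨true,0,⟨0,[(10,0)]⟩,⟨0,[(9,0)]⟩⟩ ⟨true,0,⟨7,[(2,5),(2,1),(1,0),
  (1,5),(1,1),(0,1),(2,3),(4,0),(2,9)]⟩,⟨0,[(1,0)]⟩⟩ ⟨false,1,⟨1,[(9,1),(10,0),(3,1),(2,0)]⟩,⟨0,[(1,
  0),(0,0)]⟩⟩]⟩) (.R ⟨1,false,false,true,[1,0,0,-1],[1,-1],[1,1,0,-1,0,0,0,0,-1],(⟨0,[(9,0)]⟩,⟨0,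
  [(10,0)]⟩),(⟨0,[(21,0)]⟩,⟨0,[(22,0)]⟩),⟨0,[(0,0)]⟩,.k,.k,(.r (-1) ⟨1,[(7,0),(15,1),(3,0)]⟩ ⟨0,[(1,
  0)]⟩),(.r 0 ⟨0,[(4,0)]⟩ ⟨1,[(8,0),(14,1),(3,0)]⟩),.k,.k,⟨false,0,⟨7,[(2,5),(2,1),(1,0),(1,5),(1,
  1),(0,1),(2,3),(4,0),(2,1)]⟩,⟨1,[(8,0),(17,0)]⟩⟩,⟨true,0,⟨0,[(9,0),(2,0),(2,0)]⟩,⟨0,[(1,0),(0,0),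
  (20,0)]⟩⟩,⟨true,0,⟨0,[(24,0)]⟩,⟨0,[(25,0)]⟩⟩,⟨false,1,⟨1,[(8,0),(0,1),(2,1),(2,1),(7,1),(3,0)]⟩,
  ⟨0,[(2,0),(22,0)]⟩⟩,⟨false,0,⟨0,[]⟩,⟨3,[(7,0),(0,0),(18,1)]⟩⟩,⟨false,1,⟨7,[(7,0),(0,4),(0,7),(2,
  3),(2,3),(4,1)]⟩,⟨0,[(2,0)]⟩⟩,[.a ⟨true,0,⟨0,[(24,0)]⟩,⟨0,[(1,0),(0,0),(6,0)]⟩⟩ ⟨false,0,⟨7,[(2,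
  5),(2,1),(1,0),(1,5),(1,1),(0,1),(2,3),(4,0),(2,9)]⟩,⟨1,[(8,0),(16,1),(1,0)]⟩⟩ ⟨true,0,⟨0,[(9,0),
  (2,0),(2,0),(7,0)]⟩,⟨0,[(1,0),(0,0)]⟩⟩,.o ⟨false,1,⟨1,[(20,0),(3,1),(2,0)]⟩,⟨0,[(25,0)]⟩⟩,.a
  ⟨true,0,⟨0,[(1,0),(0,0),(20,0)]⟩,⟨1,[(9,1),(5,0),(0,0)]⟩⟩ ⟨false,0,⟨0,[(2,0),(6,0),(2,0),(2,0),(7,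
  0)]⟩,⟨1,[(8,0),(16,1),(1,0)]⟩⟩ ⟨true,0,⟨0,[(9,0),(2,0),(2,0),(7,0)]⟩,⟨0,[(1,0),(0,0),(20,0),(1,
  0)]⟩⟩,.a ⟨true,0,⟨0,[(10,0)]⟩,⟨0,[(9,0)]⟩⟩ ⟨true,0,⟨7,[(2,5),(2,1),(1,0),(1,5),(1,1),(0,1),(2,3),
  (4,0),(2,9)]⟩,⟨0,[(1,0)]⟩⟩ ⟨false,1,⟨1,[(9,1),(10,0),(3,1),(2,0)]⟩,⟨0,[(1,0),(0,0)]⟩⟩]⟩)) (.Q [0,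
  -1,0,1,0,0,1,1,0,1,-1] (.p false [0,0,1] [1] (⟨0,[(18,0)]⟩,⟨0,[(17,0)]⟩) .k 1 (⟨0,[]⟩,⟨0,[]⟩) .k
  .k) (.Q [0,0,0,0,0,0,1,0,0,1,-1] (.p false [0,0,1] [1] (⟨0,[(19,0)]⟩,⟨0,[(18,0)]⟩) .k 1 (⟨0,[]⟩,
  ⟨0,[]⟩) .k .k) (.R ⟨2,true,false,true,[0,1],[1,0,-1],[1,1,1],(⟨0,[]⟩,⟨0,[]⟩),(⟨0,[(19,0)]⟩,⟨0,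
  [(20,0)]⟩),⟨0,[]⟩,.k,.k,.k,.k,.k,.k,⟨false,0,⟨0,[(18,0)]⟩,⟨1,[(0,1),(11,1),(14,0),(0,0)]⟩⟩,⟨true,
  0,⟨0,[(13,0)]⟩,⟨0,[(0,0)]⟩⟩,⟨true,0,⟨0,[(25,0)]⟩,⟨0,[(26,0)]⟩⟩,⟨false,1,⟨0,[(12,0),(12,0),(2,0)]⟩,
  ⟨0,[(1,0)]⟩⟩,⟨false,0,⟨0,[]⟩,⟨3,[(8,0),(0,0),(18,1)]⟩⟩,⟨true,0,⟨0,[(12,0)]⟩,⟨1,[(7,0),(2,0),(0,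
  0)]⟩⟩,[]⟩) (.Q [0,0,0,0,0,1,0,0,0,-1,0,1] (.p true [0,0,0,1] [1] (⟨0,[(11,0)]⟩,⟨0,[(10,0)]⟩) .k 1
  (⟨0,[]⟩,⟨0,[]⟩) .k .k) (.R ⟨0,false,false,false,[1,0,0,-1],[0,1],[1,1,0,-1,0,0,0,0,-1],(⟨0,[(11,
  0)]⟩,⟨0,[(12,0)]⟩),(⟨0,[(24,0)]⟩,⟨0,[(23,0)]⟩),⟨0,[(0,0)]⟩,.k,.k,(.x (-1) ⟨3,[(9,0),(0,0),(11,1),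
  (0,3)]⟩ ⟨0,[(24,0)]⟩),(.x (-1) ⟨3,[(9,0),(0,0),(11,1),(0,3)]⟩ ⟨0,[(24,0)]⟩),.k,.k,⟨false,0,⟨0,[(3,
  0),(21,0)]⟩,⟨1,[(10,0),(6,0),(0,0),(8,3),(1,0)]⟩⟩,⟨true,0,⟨0,[(11,0)]⟩,⟨0,[(1,0),(10,0),(4,0)]⟩⟩,
  ⟨true,0,⟨0,[(26,0)]⟩,⟨0,[(27,0)]⟩⟩,⟨false,1,⟨1,[(10,0),(0,1),(5,0),(0,0),(8,1),(1,0)]⟩,⟨0,[(1,0),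
  (2,0),(12,0),(7,0)]⟩⟩,⟨false,0,⟨0,[]⟩,⟨0,[]⟩⟩,⟨false,0,⟨0,[]⟩,⟨0,[]⟩⟩,[.o ⟨false,0,⟨0,[(27,0)]⟩,
  ⟨1,[(22,0),(3,1),(2,0)]⟩⟩,.o ⟨false,1,⟨3,[(6,1),(3,0),(16,1),(0,0),(0,1)]⟩,⟨0,[(1,0),(15,0),(7,
  0)]⟩⟩,.o ⟨false,1,⟨1,[(4,0),(0,0),(4,0),(11,0)]⟩,⟨0,[(1,0),(9,0),(5,0)]⟩⟩,.a ⟨true,0,⟨0,[(12,0)]⟩,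
  ⟨0,[(11,0)]⟩⟩ ⟨false,0,⟨0,[(3,0)]⟩,⟨1,[(10,0),(6,0),(0,0),(8,1),(1,0)]⟩⟩ ⟨true,0,⟨0,[(11,0),(15,
  0)]⟩,⟨0,[(1,0),(10,0),(4,0),(7,0)]⟩⟩]⟩) (.Q [0,0,1,1,0,0,1,1,1,1,-1,-1] (.p false [0,0,1] [1,0,0,
  -1] (⟨0,[(21,0)]⟩,⟨0,[(20,0)]⟩) .k 2 (⟨0,[(11,0)]⟩,⟨0,[(12,0)]⟩) .k (.r (-1) ⟨3,[(9,0),(0,2),(8,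
  3)]⟩ ⟨0,[(4,0),(6,0),(1,0),(3,0)]⟩)) (.R ⟨1,true,false,false,[1,0,0,-1],[0,0,1],[0,1,0,0,0,0,0,0,
  -1],(⟨0,[(12,0)]⟩,⟨0,[(13,0)]⟩),(⟨0,[(22,0)]⟩,⟨0,[(21,0)]⟩),⟨0,[(1,0)]⟩,.k,.k,(.x (-1) ⟨3,[(10,0),
  (0,0),(11,1),(0,3)]⟩ ⟨0,[(25,0)]⟩),.k,(.r (-1) ⟨1,[(4,1),(12,1),(0,1),(10,0),(0,0)]⟩ ⟨1,[(3,0),(4,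
  0),(2,0),(3,0)]⟩),.k,⟨false,0,⟨0,[(5,0),(6,0),(1,0),(3,0),(7,0),(1,0)]⟩,⟨1,[(11,0),(8,1),(9,0)]⟩⟩,
  ⟨true,0,⟨0,[(12,0),(5,0)]⟩,⟨0,[(2,0),(10,0)]⟩⟩,⟨true,0,⟨0,[(32,0)]⟩,⟨0,[]⟩⟩,⟨false,1,⟨0,[(0,0),
  (26,0),(2,0)]⟩,⟨0,[(5,0),(8,0)]⟩⟩,⟨false,0,⟨0,[(28,0)]⟩,⟨0,[(27,0),(2,0)]⟩⟩,⟨true,0,⟨0,[(0,0)]⟩,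
  ⟨0,[(5,0),(8,0),(12,0)]⟩⟩,[]⟩) (.R ⟨1,false,false,false,[1,0,0,-1],[0,0,1],[1,1,0,-1,0,0,0,0,-1],
  (⟨0,[(12,0)]⟩,⟨0,[(13,0)]⟩),(⟨0,[(22,0)]⟩,⟨0,[(21,0)]⟩),⟨0,[(1,0)]⟩,.k,.k,(.x (-1) ⟨3,[(10,0),(0,
  0),(11,1),(0,3)]⟩ ⟨0,[(25,0)]⟩),.k,(.r (-1) ⟨7,[(0,5),(9,0),(1,5),(4,1),(0,7),(8,1),(1,4),(0,1)]⟩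
  ⟨1,[(3,0),(4,0),(2,0),(3,0)]⟩),.k,⟨false,0,⟨0,[(0,0),(11,0),(5,0),(7,0),(1,0)]⟩,⟨3,[(2,3),(0,3),
  (6,0),(0,2)]⟩⟩,⟨true,0,⟨0,[(12,0),(5,0)]⟩,⟨0,[(2,0),(10,0)]⟩⟩,⟨true,0,⟨0,[(27,0)]⟩,⟨0,[(28,0)]⟩⟩,
  ⟨false,1,⟨1,[(9,0),(1,0),(0,1),(2,0),(2,0),(11,0)]⟩,⟨0,[(0,0),(27,0)]⟩⟩,⟨false,0,⟨0,[]⟩,⟨3,[(10,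
  0),(0,0),(18,1)]⟩⟩,⟨false,1,⟨7,[(3,5),(3,1),(1,0),(1,4),(0,7),(2,2),(2,2),(4,1),(6,0)]⟩,⟨0,[(0,
  0)]⟩⟩,[.o ⟨false,0,⟨0,[(2,0),(0,0),(14,0),(7,0)]⟩,⟨1,[(17,1),(5,0),(6,0)]⟩⟩,.o ⟨false,1,⟨7,[(9,3),
  (0,0),(0,0),(11,1),(6,3)]⟩,⟨0,[(14,0)]⟩⟩,.o ⟨false,1,⟨1,[(5,0),(0,0),(4,0),(11,0)]⟩,⟨0,[(2,0),(9,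
  0),(5,0)]⟩⟩,.a ⟨true,0,⟨0,[(13,0)]⟩,⟨0,[(12,0)]⟩⟩ ⟨false,0,⟨0,[(4,0)]⟩,⟨1,[(11,0),(6,0),(0,0),(8,
  1),(1,0)]⟩⟩ ⟨true,0,⟨0,[(2,0),(0,0),(8,0),(5,0),(7,0)]⟩,⟨0,[(13,0),(0,0)]⟩⟩]⟩)))) (.Q [0,0,0,0,0,
  -1,0,0,0,1,-1] (.ed true [0,1,1] .k) (.Q [0,-1,1,0,1,0,0,0,1,0,0,-1] (.p false [0,0,0,1] [] (⟨0,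
  [(11,0)]⟩,⟨0,[(10,0)]⟩) .k 0 (⟨0,[]⟩,⟨0,[]⟩) .k .k) (.I [0,1,0,-1,0,0,0,-1] (.Q [0,1,-2,0,-1,0,0,
  0,-2,-1,0,2] (.p true [0,0,0,1] [1,0,0,-1] (⟨0,[(13,0)]⟩,⟨0,[(12,0)]⟩) .k 2 (⟨0,[(12,0)]⟩,⟨0,[(13,
  0)]⟩) .k (.r (-1) ⟨0,[(11,0)]⟩ ⟨0,[(4,0),(2,0)]⟩)) (.Q [0,0,0,0,0,0,1,0,0,1,-1] (.p false [0,0,1]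
  [1] (⟨0,[(23,0)]⟩,⟨0,[(22,0)]⟩) .k 1 (⟨0,[]⟩,⟨0,[]⟩) .k .k) (.R ⟨1,false,false,false,[1,0,-1],[0,
  0,0,1],[0,1,0,0,0,0,0,-1],(⟨0,[(23,0)]⟩,⟨0,[(24,0)]⟩),(⟨0,[(15,0)]⟩,⟨0,[(14,0)]⟩),⟨0,[(4,0)]⟩,.k,
  .k,.k,.k,(.r (-1) ⟨3,[(2,3),(4,1),(4,0),(1,1),(10,0),(5,0),(0,0)]⟩ ⟨1,[(10,1),(2,0),(18,0)]⟩),.k,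
  ⟨false,0,⟨2,[(1,0),(0,2),(4,0),(6,2),(10,0),(4,2)]⟩,⟨1,[(13,0),(8,1),(9,0)]⟩⟩,⟨true,0,⟨0,[(14,0),
  (5,0)]⟩,⟨1,[(5,0),(1,1),(2,0),(2,0),(3,0)]⟩⟩,⟨true,0,⟨0,[(34,0)]⟩,⟨0,[]⟩⟩,⟨false,1,⟨7,[(0,1),(2,
  5),(7,3),(1,0),(0,1),(6,1),(10,0)]⟩,⟨0,[(7,0),(8,0)]⟩⟩,⟨false,0,⟨0,[(30,0)]⟩,⟨0,[(29,0),(2,0)]⟩⟩,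
  ⟨false,1,⟨9,[(0,1),(2,5),(5,1),(0,1),(0,3),(1,2),(0,3),(15,5),(1,2)]⟩,⟨0,[(5,0),(1,0)]⟩⟩,[.o
  ⟨false,1,⟨0,[(3,0),(30,0)]⟩,⟨2,[(1,0),(5,0),(17,0)]⟩⟩,.o ⟨false,1,⟨0,[(3,0)]⟩,⟨2,[(1,0),(6,0),(16,
  0),(8,0)]⟩⟩,.a ⟨true,0,⟨1,[(5,0),(1,1),(2,0),(2,0),(0,1),(2,0)]⟩,⟨0,[(0,0)]⟩⟩ ⟨true,0,⟨0,[(2,0),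
  (27,0)]⟩,⟨0,[(22,0)]⟩⟩ ⟨false,1,⟨0,[(0,0),(2,0)]⟩,⟨3,[(1,1),(5,1),(5,0),(0,1),(2,3),(13,0)]⟩⟩,.o
  ⟨false,0,⟨0,[(17,0)]⟩,⟨1,[(0,1),(24,0),(5,0)]⟩⟩]⟩) (.Q [0,0,0,0,0,1,0,0,0,-1,0,1] (.p true [0,0,0,
  1] [1] (⟨0,[(15,0)]⟩,⟨0,[(14,0)]⟩) .k 1 (⟨0,[]⟩,⟨0,[]⟩) .k .k) (.R ⟨0,false,false,false,[1,0,0,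
  -1],[0,1],[1,1,1],(⟨0,[(15,0)]⟩,⟨0,[(16,0)]⟩),(⟨0,[(28,0)]⟩,⟨0,[(27,0)]⟩),⟨0,[(0,0)]⟩,.k,.k,(.x
  (-1) ⟨3,[(13,0),(0,0),(11,1),(0,3)]⟩ ⟨0,[(28,0)]⟩),(.x (-1) ⟨3,[(13,0),(0,0),(11,1),(0,3)]⟩ ⟨0,
  [(28,0)]⟩),.k,.k,⟨false,0,⟨0,[(29,0)]⟩,⟨3,[(10,1),(3,0),(16,1),(0,0),(0,1)]⟩⟩,⟨true,0,⟨0,[(15,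
  0)]⟩,⟨0,[(1,0),(14,0),(4,0)]⟩⟩,⟨true,0,⟨3,[(3,1),(7,1),(2,1),(6,0),(0,0)]⟩,⟨2,[(2,0),(5,0),(6,2),
  (10,0)]⟩⟩,⟨false,1,⟨0,[(4,0),(10,0),(0,0),(14,0)]⟩,⟨0,[(1,0),(6,0),(12,0),(7,0)]⟩⟩,⟨false,0,⟨0,
  []⟩,⟨0,[]⟩⟩,⟨false,0,⟨0,[]⟩,⟨0,[]⟩⟩,[.o ⟨false,0,⟨0,[(31,0)]⟩,⟨1,[(26,0),(3,1),(2,0)]⟩⟩,.o ⟨false,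
  1,⟨3,[(10,1),(3,0),(16,1),(0,0),(0,1)]⟩,⟨0,[(1,0),(19,0),(7,0)]⟩⟩,.o ⟨false,1,⟨1,[(8,0),(0,0),(4,
  0),(11,0)]⟩,⟨0,[(1,0),(13,0),(5,0)]⟩⟩,.a ⟨true,0,⟨0,[(16,0)]⟩,⟨0,[(15,0)]⟩⟩ ⟨false,0,⟨0,[]⟩,⟨3,
  [(13,0),(0,0),(18,1)]⟩⟩ ⟨true,0,⟨0,[(15,0),(15,0)]⟩,⟨0,[(1,0),(14,0),(4,0),(7,0)]⟩⟩]⟩) (.Q [0,0,0,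
  0,0,0,-1,-1,0,0,1] (.p true [0,0,1] [] (⟨0,[(25,0)]⟩,⟨0,[(24,0)]⟩) .k 0 (⟨0,[]⟩,⟨0,[]⟩) .k .k)
  (.R ⟨2,false,false,false,[0,1],[0,0,1],[0,1,1,1],(⟨0,[]⟩,⟨0,[]⟩),(⟨0,[(26,0)]⟩,⟨0,[(25,0)]⟩),⟨0,
  []⟩,.k,.k,.k,.k,.k,.k,⟨false,0,⟨0,[(4,0),(27,1)]⟩,⟨0,[(24,0),(5,0),(3,0)]⟩⟩,⟨true,0,⟨0,[(22,0)]⟩,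
  ⟨0,[(0,0),(23,0)]⟩⟩,⟨true,0,⟨0,[(36,0)]⟩,⟨0,[]⟩⟩,⟨false,1,⟨0,[(7,0),(5,0),(20,0)]⟩,⟨0,[(0,0),(31,
  0)]⟩⟩,⟨false,0,⟨0,[(32,0)]⟩,⟨0,[(31,0),(2,0)]⟩⟩,⟨false,1,⟨7,[(13,3),(0,0),(0,0),(11,1),(6,3)]⟩,⟨0,
  [(0,0)]⟩⟩,[.a ⟨true,0,⟨1,[(13,0),(2,0),(0,0)]⟩,⟨0,[(0,0)]⟩⟩ ⟨false,0,⟨0,[(32,0),(3,0)]⟩,⟨0,[(30,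
  0),(3,0)]⟩⟩ ⟨true,0,⟨1,[(13,0),(5,0),(2,0)]⟩,⟨0,[(0,0)]⟩⟩,.o ⟨false,1,⟨7,[(13,3),(0,0),(0,0),(11,
  1),(6,3)]⟩,⟨0,[(18,0)]⟩⟩,.o ⟨false,1,⟨3,[(14,0),(0,0),(17,1)]⟩,⟨0,[(2,0),(19,0)]⟩⟩,.e ⟨false,0,⟨0,
  [(32,0)]⟩,⟨0,[(31,0),(2,0)]⟩⟩ ⟨false,1,⟨7,[(13,3),(0,0),(0,0),(11,1),(6,3)]⟩,⟨0,[(0,0)]⟩⟩]⟩) (.R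
  ⟨1,false,false,false,[1,0,0,-1],[0,0,1],[0,1,0,0,0,0,0,0,-1],(⟨0,[(16,0)]⟩,⟨0,[(17,0)]⟩),(⟨0,[(26,
  0)]⟩,⟨0,[(25,0)]⟩),⟨0,[(1,0)]⟩,.k,.k,(.x (-1) ⟨3,[(14,0),(0,0),(11,1),(0,3)]⟩ ⟨0,[(29,0)]⟩),.k,
  (.r (-1) ⟨3,[(4,3),(4,1),(4,0),(1,1),(10,0),(5,0),(0,0)]⟩ ⟨1,[(12,1),(2,0),(18,0)]⟩),.k,⟨false,0,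
  ⟨2,[(3,0),(0,2),(4,0),(6,2),(10,0),(4,2)]⟩,⟨1,[(15,0),(8,1),(9,0)]⟩⟩,⟨true,0,⟨0,[(16,0),(5,0)]⟩,
  ⟨0,[(2,0),(14,0)]⟩⟩,⟨true,0,⟨0,[(36,0)]⟩,⟨0,[]⟩⟩,⟨false,1,⟨1,[(5,1),(7,0),(2,0),(0,0)]⟩,⟨0,[(9,0),
  (8,0)]⟩⟩,⟨false,0,⟨0,[(32,0)]⟩,⟨0,[(31,0),(2,0)]⟩⟩,⟨false,1,⟨4,[(5,1),(5,0),(0,0),(0,1),(1,1),(0,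
  2),(5,0),(9,2),(1,1)]⟩,⟨0,[(7,0),(1,0)]⟩⟩,[.o ⟨false,0,⟨0,[(0,0)]⟩,⟨1,[(21,1),(5,0),(6,0)]⟩⟩,.o
  ⟨false,1,⟨7,[(13,3),(0,0),(0,0),(11,1),(6,3)]⟩,⟨0,[(18,0)]⟩⟩,.o ⟨false,1,⟨1,[(9,0),(0,0),(4,0),
  (11,0)]⟩,⟨0,[(2,0),(13,0),(5,0)]⟩⟩,.a ⟨true,0,⟨0,[(17,0)]⟩,⟨0,[(16,0)]⟩⟩ ⟨false,0,⟨2,[(3,0),(5,0),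
  (6,2),(10,0)]⟩,⟨0,[(5,0),(11,0)]⟩⟩ ⟨true,0,⟨0,[(0,0),(15,0)]⟩,⟨0,[(17,0),(0,0)]⟩⟩]⟩)))) (.I [1,-1,
  1,0,0,0,0,1] (.Q [0,0,-1,0,0,0,0,0,-1,-1,0,1] (.p true [0,0,0,1] [1] (⟨0,[(15,0)]⟩,⟨0,[(14,0)]⟩)
  .k 1 (⟨0,[]⟩,⟨0,[]⟩) .k .k) (.Q [0,0,0,0,0,0,1,0,0,1,-1] (.p false [0,0,1] [1] (⟨0,[(25,0)]⟩,⟨0,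
  [(24,0)]⟩) .k 1 (⟨0,[]⟩,⟨0,[]⟩) .k .k) (.R ⟨1,false,false,false,[1,0,-1],[0,0,0,1],[0,1,0,0,0,0,0,
  -1],(⟨0,[(25,0)]⟩,⟨0,[(26,0)]⟩),(⟨0,[(17,0)]⟩,⟨0,[(16,0)]⟩),⟨0,[(6,0)]⟩,.k,.k,.k,.k,(.r (-1) ⟨3,
  [(1,1),(2,3),(9,0),(1,1),(16,0),(0,1)]⟩ ⟨1,[(12,1),(2,0),(18,0)]⟩),.k,⟨false,0,⟨0,[(1,0),(2,0),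
  (11,0),(15,0)]⟩,⟨1,[(15,0),(8,1),(9,0)]⟩⟩,⟨true,0,⟨0,[(16,0),(5,0)]⟩,⟨1,[(7,0),(1,1),(2,0),(2,0),
  (3,0)]⟩⟩,⟨true,0,⟨0,[(36,0)]⟩,⟨0,[]⟩⟩,⟨false,1,⟨7,[(3,3),(9,3),(0,0),(0,0),(18,1)]⟩,⟨0,[(9,0),(8,
  0)]⟩⟩,⟨false,0,⟨0,[(32,0)]⟩,⟨0,[(31,0),(2,0)]⟩⟩,⟨false,1,⟨7,[(3,3),(7,1),(1,3),(1,0),(16,5),(0,0),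
  (0,1)]⟩,⟨0,[(7,0),(1,0)]⟩⟩,[.o ⟨false,1,⟨7,[(3,3),(10,0),(0,0),(11,1),(8,3)]⟩,⟨0,[(1,0)]⟩⟩,.o
  ⟨false,1,⟨0,[(5,0)]⟩,⟨2,[(1,1),(8,0),(7,0),(1,0)]⟩⟩,.a ⟨true,0,⟨1,[(7,0),(1,1),(2,0),(2,0),(0,1),
  (2,0)]⟩,⟨0,[(0,0)]⟩⟩ ⟨true,0,⟨0,[(4,0),(27,0)]⟩,⟨0,[(24,0)]⟩⟩ ⟨false,1,⟨3,[(0,3),(2,1),(23,0),(6,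
  0)]⟩,⟨1,[(7,0),(1,1),(2,0),(6,0),(13,0)]⟩⟩,.o ⟨false,0,⟨0,[(19,0)]⟩,⟨1,[(0,1),(26,0),(5,0)]⟩⟩]⟩)
  (.Q [0,0,0,0,0,1,0,0,0,0,-1] (.ed true [1,-1,1] .k) (.R ⟨0,false,false,false,[0,1,-1],[1,0,-1],[1,
  0,1],(⟨0,[(0,0)]⟩,⟨0,[(27,0),(1,0)]⟩),(⟨0,[(26,0)]⟩,⟨0,[(27,0)]⟩),⟨0,[(27,0)]⟩,.k,.k,.k,.k,.k,.k,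
  ⟨false,0,⟨0,[(25,0)]⟩,⟨1,[(5,1),(27,1),(0,0),(0,0)]⟩⟩,⟨true,0,⟨0,[(1,0),(21,0)]⟩,⟨0,[(17,0),(0,
  0)]⟩⟩,⟨true,0,⟨0,[(3,0),(27,0)]⟩,⟨0,[(5,0),(27,1)]⟩⟩,⟨false,1,⟨0,[(1,0),(21,0),(7,0),(3,0)]⟩,⟨0,
  [(17,0),(0,0),(14,0)]⟩⟩,⟨false,0,⟨0,[]⟩,⟨0,[]⟩⟩,⟨false,0,⟨0,[]⟩,⟨0,[]⟩⟩,[.e ⟨false,0,⟨0,[]⟩,⟨3,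
  [(15,0),(0,0),(17,1)]⟩⟩ ⟨false,1,⟨1,[(5,1),(22,0),(4,1),(1,0)]⟩,⟨1,[(10,1),(2,0),(2,0),(0,1),(7,
  0),(5,0)]⟩⟩,.o ⟨false,1,⟨0,[(19,0),(15,0)]⟩,⟨0,[(21,0)]⟩⟩,.a ⟨true,0,⟨0,[(8,0),(1,1),(2,0),(2,0),
  (0,1)]⟩,⟨0,[(23,0)]⟩⟩ ⟨true,0,⟨1,[(23,0),(0,0)]⟩,⟨0,[(31,0),(1,0)]⟩⟩ ⟨false,1,⟨0,[(19,0),(3,0),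
  (11,0)]⟩,⟨1,[(10,1),(2,0),(2,0),(0,1),(7,0),(5,0)]⟩⟩,.o ⟨false,0,⟨0,[(1,0),(15,0),(0,0)]⟩,⟨1,[(23,
  1),(4,0),(5,0)]⟩⟩]⟩) (.R ⟨1,false,false,false,[0,0,0,1],[1,0,0,-1],[0,0,0,0,0,0,0,0,1],(⟨0,[(18,
  0)]⟩,⟨0,[(17,0)]⟩),(⟨0,[(17,0)]⟩,⟨0,[(18,0)]⟩),⟨1,[(0,0),(6,0),(0,0),(1,1),(2,0),(2,0),(6,0)]⟩,.k,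
  .k,(.r (-1) ⟨1,[(16,0),(14,1),(3,0)]⟩ ⟨0,[(12,0)]⟩),.k,(.r (-2) ⟨1,[(16,1),(15,1),(1,0),(0,0)]⟩
  ⟨0,[(1,0),(8,1),(2,0),(3,1),(1,0),(3,1)]⟩),.k,⟨true,1,⟨0,[(16,0)]⟩,⟨0,[(1,0),(6,0),(1,1),(2,0),(3,
  1),(5,1)]⟩⟩,⟨false,1,⟨0,[(2,0),(7,0),(5,0),(14,0),(1,0)]⟩,⟨0,[(17,1),(2,0),(2,0)]⟩⟩,⟨false,1,⟨3,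
  [(15,0),(0,0),(18,1)]⟩,⟨0,[]⟩⟩,⟨false,0,⟨0,[(2,0),(7,0)]⟩,⟨0,[(4,0),(32,0)]⟩⟩,⟨true,0,⟨0,[(33,
  0)]⟩,⟨0,[(32,0)]⟩⟩,⟨false,0,⟨0,[(2,0),(7,0),(22,0)]⟩,⟨0,[(4,0),(27,0)]⟩⟩,[.o ⟨false,0,⟨0,[(2,0)]⟩,
  ⟨7,[(4,3),(10,0),(0,0),(11,1),(8,3)]⟩⟩,.a ⟨true,0,⟨0,[(10,0)]⟩,⟨7,[(4,1),(0,3),(7,3),(0,0),(1,1),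
  (0,4),(0,0),(3,1)]⟩⟩ ⟨true,1,⟨1,[(16,0),(18,0)]⟩,⟨0,[(8,0),(1,0),(2,0),(3,0),(5,0)]⟩⟩ ⟨false,1,⟨1,
  [(2,1),(7,1),(5,0),(17,0)]⟩,⟨17,[(4,9),(0,11),(2,1),(4,13),(1,0),(1,15),(5,1),(4,2)]⟩⟩,.o ⟨false,
  0,⟨0,[(1,0),(15,0),(5,0)]⟩,⟨3,[(2,3),(12,0),(0,2)]⟩⟩,.o ⟨false,0,⟨0,[(17,0),(2,0),(2,0)]⟩,⟨1,[(2,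
  1),(13,0),(17,0)]⟩⟩]⟩))) (.Q [0,0,0,0,0,-1,0,0,0,0,1] (.ed false [1,-1,1] .k) (.K ⟨0,[0,-1,1],0,0,
  (⟨0,[(0,0)]⟩,⟨0,[(25,0),(3,0)]⟩),.k,(.r (-1) ⟨0,[(24,0),(5,1),(3,0)]⟩ ⟨1,[(1,1),(7,1),(8,0),(0,0),
  (1,0),(0,2),(9,3)]⟩),.k,.k,.k,[⟨1,[(7,0),(1,1),(2,0),(2,0),(0,1),(2,0)]⟩,⟨0,[(1,0),(7,0),(12,0),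
  (7,0),(1,0)]⟩,⟨0,[(21,0),(10,0)]⟩,⟨0,[(7,0),(5,0)]⟩]⟩) (.K ⟨1,[0,1,-1],0,0,(⟨0,[(0,0)]⟩,⟨0,[(26,
  0),(1,0)]⟩),.k,.k,(.r 0 ⟨1,[(1,1),(7,1),(8,0),(0,0),(1,0),(0,2),(9,3)]⟩ ⟨0,[(24,0),(5,1),(3,0)]⟩),
  .k,.k,[⟨1,[(22,2),(0,0)]⟩,⟨1,[(7,0),(1,1),(2,0),(2,0),(0,1),(2,0)]⟩,⟨0,[(7,0),(5,0)]⟩,⟨0,[(1,1),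
  (7,1),(8,0),(13,0)]⟩]⟩))) (.R ⟨1,false,false,false,[1,0,-1],[0,0,0,1],[0,1,0,0,0,0,0,-1],(⟨0,[(23,
  0)]⟩,⟨0,[(24,0)]⟩),(⟨0,[(15,0)]⟩,⟨0,[(14,0)]⟩),⟨0,[(4,0)]⟩,.k,.k,.k,.k,(.r (-1) ⟨5,[(0,1),(1,3),
  (3,1),(5,1),(18,0),(0,2)]⟩ ⟨1,[(10,1),(2,0),(18,0)]⟩),.k,⟨false,0,⟨1,[(0,1),(5,0),(2,0)]⟩,⟨1,[(13,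
  0),(8,1),(9,0)]⟩⟩,⟨true,0,⟨0,[(14,0),(5,0)]⟩,⟨1,[(5,0),(1,1),(2,0),(2,0),(3,0)]⟩⟩,⟨true,0,⟨0,[(34,
  0)]⟩,⟨0,[]⟩⟩,⟨false,1,⟨7,[(1,3),(9,3),(0,0),(0,0),(18,1)]⟩,⟨0,[(7,0),(8,0)]⟩⟩,⟨false,0,⟨0,[(30,
  0)]⟩,⟨0,[(29,0),(2,0)]⟩⟩,⟨false,1,⟨7,[(1,3),(7,1),(1,3),(1,0),(16,5),(0,0),(0,1)]⟩,⟨0,[(5,0),(1,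
  0)]⟩⟩,[.e ⟨false,0,⟨0,[(0,0)]⟩,⟨3,[(12,0),(0,0),(8,3),(9,1)]⟩⟩ ⟨false,1,⟨7,[(0,7),(0,3),(9,3),(0,
  0),(0,0),(18,1)]⟩,⟨1,[(5,0),(1,1),(2,0),(6,0),(13,0)]⟩⟩,.o ⟨false,1,⟨0,[(3,0)]⟩,⟨2,[(0,0),(4,0),
  (1,1),(0,0),(1,0),(7,0),(6,0)]⟩⟩,.a ⟨true,0,⟨1,[(5,0),(1,1),(2,0),(2,0),(0,1),(2,0)]⟩,⟨0,[(0,0),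
  (0,0),(5,1),(2,0),(9,0),(7,0)]⟩⟩ ⟨true,0,⟨1,[(0,0),(18,0),(0,0)]⟩,⟨0,[(22,0)]⟩⟩ ⟨false,1,⟨3,[(0,
  1),(0,1),(9,0),(2,0),(0,0),(4,1),(11,1)]⟩,⟨1,[(5,0),(1,1),(2,0),(6,0),(13,0)]⟩⟩,.o ⟨false,0,⟨0,
  [(17,0)]⟩,⟨0,[(20,0),(10,0)]⟩⟩]⟩))) (.Q [0,0,0,0,0,1,0,0,0,-1,0,1] (.p true [0,0,0,1] [1] (⟨0,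
  [(13,0)]⟩,⟨0,[(12,0)]⟩) .k 1 (⟨0,[]⟩,⟨0,[]⟩) .k .k) (.R ⟨0,false,false,false,[1,0,0,-1],[0,1],[1,
  1,0,-1,0,0,0,0,-1],(⟨0,[(13,0)]⟩,⟨0,[(14,0)]⟩),(⟨0,[(26,0)]⟩,⟨0,[(25,0)]⟩),⟨0,[(0,0)]⟩,.k,.k,(.x
  (-1) ⟨3,[(11,0),(0,0),(11,1),(0,3)]⟩ ⟨0,[(26,0)]⟩),(.x (-1) ⟨3,[(11,0),(0,0),(11,1),(0,3)]⟩ ⟨0,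
  [(26,0)]⟩),.k,.k,⟨false,0,⟨0,[(5,0),(21,0)]⟩,⟨0,[(2,0),(11,0),(14,1)]⟩⟩,⟨true,0,⟨0,[(13,0)]⟩,⟨1,
  [(4,0),(1,1),(2,0),(2,0),(3,0),(2,1)]⟩⟩,⟨true,0,⟨0,[(28,0)]⟩,⟨0,[(29,0)]⟩⟩,⟨false,1,⟨0,[(2,0),(10,
  0),(0,0),(14,0)]⟩,⟨0,[(1,0),(2,0),(1,0),(12,0),(7,0)]⟩⟩,⟨false,0,⟨0,[]⟩,⟨0,[]⟩⟩,⟨false,0,⟨0,[]⟩,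
  ⟨0,[]⟩⟩,[.o ⟨false,0,⟨0,[(29,0)]⟩,⟨1,[(24,0),(3,1),(2,0)]⟩⟩,.o ⟨false,1,⟨3,[(8,1),(3,0),(16,1),(0,
  0),(0,1)]⟩,⟨0,[(1,0),(2,0),(14,0),(7,0)]⟩⟩,.o ⟨false,1,⟨1,[(6,0),(0,0),(4,0),(11,0)]⟩,⟨0,[(1,0),
  (2,0),(8,0),(5,0)]⟩⟩,.a ⟨true,0,⟨0,[(14,0)]⟩,⟨0,[(13,0)]⟩⟩ ⟨false,0,⟨0,[(5,0)]⟩,⟨0,[(2,0),(11,0),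
  (14,0)]⟩⟩ ⟨true,0,⟨0,[(13,0),(15,0)]⟩,⟨1,[(4,2),(1,1),(2,0),(0,0),(1,0),(6,0)]⟩⟩]⟩) (.R ⟨1,false,
  false,false,[1,0,0,-1],[0,0,1],[1,1,0,-1,0,0,0,0,-1],(⟨0,[(13,0)]⟩,⟨0,[(14,0)]⟩),(⟨0,[(23,0)]⟩,⟨0,
  [(22,0)]⟩),⟨0,[(0,0)]⟩,.k,.k,(.x (-1) ⟨3,[(11,0),(0,0),(11,1),(0,3)]⟩ ⟨0,[(26,0)]⟩),.k,(.r (-1)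
  ⟨1,[(5,1),(12,1),(0,1),(10,0),(0,0)]⟩ ⟨1,[(9,1),(2,0),(18,0)]⟩),.k,⟨false,0,⟨0,[(6,0),(6,0),(1,0),
  (3,0),(7,0)]⟩,⟨3,[(1,3),(9,0),(0,2)]⟩⟩,⟨true,0,⟨0,[(13,0),(5,0)]⟩,⟨1,[(4,0),(1,1),(2,0),(2,0),(3,
  0)]⟩⟩,⟨true,0,⟨0,[(28,0)]⟩,⟨0,[(29,0)]⟩⟩,⟨false,1,⟨1,[(2,1),(7,0),(2,0),(0,0)]⟩,⟨0,[(6,0),(8,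
  0)]⟩⟩,⟨false,0,⟨0,[]⟩,⟨3,[(11,0),(0,0),(18,1)]⟩⟩,⟨false,1,⟨5,[(1,1),(0,1),(5,1),(1,1),(1,2),(0,3),
  (5,1),(9,1),(1,0)]⟩,⟨0,[(4,0),(1,0)]⟩⟩,[.o ⟨false,0,⟨0,[(1,0),(17,0),(7,0)]⟩,⟨1,[(18,1),(5,0),(6,
  0)]⟩⟩,.o ⟨false,1,⟨7,[(10,3),(0,0),(0,0),(11,1),(6,3)]⟩,⟨0,[(15,0)]⟩⟩,.o ⟨false,1,⟨1,[(6,0),(0,0),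
  (4,0),(11,0)]⟩,⟨0,[(1,0),(2,0),(8,0),(5,0)]⟩⟩,.a ⟨true,0,⟨0,[(14,0)]⟩,⟨0,[(13,0)]⟩⟩ ⟨false,0,⟨0,
  [(5,0)]⟩,⟨0,[(2,0),(11,0),(14,0)]⟩⟩ ⟨true,0,⟨0,[(1,0),(11,0),(5,0),(7,0)]⟩,⟨0,[(14,0),(0,
  0)]⟩⟩]⟩))) (.K ⟨0,[0,0,0,1],0,1,(⟨0,[(12,0)]⟩,⟨0,[(11,0)]⟩),.k,(.r (-1) ⟨1,[(10,0),(14,1),(3,0)]⟩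
  ⟨0,[(6,0)]⟩),(.x 0 ⟨0,[(24,0)]⟩ ⟨3,[(9,0),(0,0),(11,1),(0,3)]⟩),.k,.k,[⟨0,[(12,0)]⟩,⟨0,[(11,0)]⟩,
  ⟨0,[(0,0)]⟩,⟨2,[(6,0),(3,1),(0,2),(2,0),(2,0),(4,0),(3,0),(4,1)]⟩]⟩)) (.Q [0,1,1,0,0,0,1,0,1,1,-1,
  -1] (.p false [0,0,1] [1,0,0,-1] (⟨0,[(20,0)]⟩,⟨0,[(19,0)]⟩) .k 2 (⟨0,[(10,0)]⟩,⟨0,[(11,0)]⟩) .k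
  (.r (-1) ⟨3,[(8,0),(0,2),(8,3)]⟩ ⟨0,[(3,0),(6,0),(1,0),(3,0)]⟩)) (.R ⟨0,false,false,true,[1,0,-1],
  [0,0,0,1],[0,1],(⟨0,[(20,0)]⟩,⟨0,[(21,0)]⟩),(⟨0,[(12,0)]⟩,⟨0,[(11,0)]⟩),⟨0,[(1,0)]⟩,.k,.k,.k,.k,
  .k,.k,⟨false,0,⟨0,[(3,0),(23,0)]⟩,⟨3,[(9,0),(0,2)]⟩⟩,⟨true,0,⟨0,[(11,0),(5,0)]⟩,⟨1,[(2,0),(1,1),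
  (2,0),(2,0),(3,0)]⟩⟩,⟨false,0,⟨0,[(19,0)]⟩,⟨0,[(0,0),(3,0),(8,0),(15,0)]⟩⟩,⟨true,0,⟨0,[(0,0),(18,
  0)]⟩,⟨0,[(4,0),(8,0)]⟩⟩,⟨false,0,⟨0,[]⟩,⟨0,[]⟩⟩,⟨false,0,⟨0,[]⟩,⟨0,[]⟩⟩,[.a ⟨true,0,⟨3,[(0,1),(1,
  0),(4,0),(2,0),(0,2),(0,0),(5,0)]⟩,⟨0,[(4,0)]⟩⟩ ⟨false,0,⟨0,[(25,0),(1,0)]⟩,⟨3,[(9,0),(0,0),(18,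
  1)]⟩⟩ ⟨true,0,⟨0,[(0,0)]⟩,⟨0,[(4,0),(9,0)]⟩⟩,.e ⟨false,1,⟨3,[(9,0),(0,0),(17,1)]⟩,⟨0,[]⟩⟩ ⟨false,
  1,⟨1,[(0,1),(27,0),(0,0)]⟩,⟨1,[(2,0),(1,1),(2,0),(6,0),(13,0)]⟩⟩,.e ⟨true,0,⟨0,[(31,0)]⟩,⟨0,[]⟩⟩
  ⟨true,0,⟨0,[(0,0)]⟩,⟨1,[(2,0),(1,1),(2,0),(6,0),(13,0)]⟩⟩,.o ⟨false,0,⟨0,[(14,0)]⟩,⟨0,[(17,0),(10,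
  0)]⟩⟩]⟩) (.Q [0,0,0,0,0,1,0,0,0,-1,0,1] (.p true [0,0,0,1] [1] (⟨0,[(12,0)]⟩,⟨0,[(11,0)]⟩) .k 1
  (⟨0,[]⟩,⟨0,[]⟩) .k .k) (.R ⟨0,false,false,true,[1,0,0,-1],[0,1],[1,1],(⟨0,[(12,0)]⟩,⟨0,[(13,0)]⟩),
  (⟨0,[(25,0)]⟩,⟨0,[(24,0)]⟩),⟨0,[(0,0)]⟩,.k,.k,(.x (-1) ⟨3,[(10,0),(0,0),(11,1),(0,3)]⟩ ⟨0,[(25,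
  0)]⟩),(.x (-1) ⟨3,[(10,0),(0,0),(11,1),(0,3)]⟩ ⟨0,[(25,0)]⟩),.k,.k,⟨false,1,⟨1,[(26,1),(2,0),(0,
  0)]⟩,⟨1,[(18,0),(0,0),(8,1)]⟩⟩,⟨true,0,⟨0,[(12,0)]⟩,⟨3,[(1,1),(1,0),(4,0),(2,0),(1,1),(1,0),(2,
  3)]⟩⟩,⟨false,1,⟨3,[(10,0),(0,2)]⟩,⟨0,[(1,0),(10,0),(5,0)]⟩⟩,⟨true,0,⟨1,[(8,0),(2,0),(0,1),(4,0),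
  (0,0),(9,0)]⟩,⟨0,[(1,0),(16,0),(7,0)]⟩⟩,⟨false,0,⟨0,[]⟩,⟨0,[]⟩⟩,⟨false,0,⟨0,[]⟩,⟨0,[]⟩⟩,[.e
  ⟨false,0,⟨0,[(26,0),(1,0)]⟩,⟨3,[(10,0),(0,0),(18,1)]⟩⟩ ⟨false,0,⟨0,[(12,0),(15,0),(3,0)]⟩,⟨1,[(1,
  1),(9,0),(6,1),(7,1),(3,0)]⟩⟩,.o ⟨false,0,⟨0,[(28,0)]⟩,⟨1,[(23,0),(3,1),(2,0)]⟩⟩,.e ⟨false,0,⟨0,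
  []⟩,⟨3,[(10,0),(0,0),(18,1)]⟩⟩ ⟨false,0,⟨1,[(12,1),(5,0),(0,0),(8,1)]⟩,⟨1,[(1,1),(9,0),(6,1),(7,
  1),(3,0)]⟩⟩,.a ⟨true,0,⟨0,[(13,0)]⟩,⟨0,[(12,0)]⟩⟩ ⟨true,0,⟨0,[(26,0),(1,0)]⟩,⟨1,[(18,0),(0,0)]⟩⟩
  ⟨false,0,⟨0,[(12,0),(15,0)]⟩,⟨1,[(1,1),(9,0),(6,1),(8,1),(2,0)]⟩⟩]⟩) (.Q [0,0,0,0,0,0,-1,0,0,-1,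
  1] (.p true [0,0,1] [1] (⟨0,[(22,0)]⟩,⟨0,[(21,0)]⟩) .k 1 (⟨0,[]⟩,⟨0,[]⟩) .k .k) (.R ⟨1,false,
  false,true,[1,0,0,-1],[2,-1,-1],[0,1,0,0,0,0,0,0,-1],(⟨0,[(13,0)]⟩,⟨0,[(14,0)]⟩),(⟨0,[(22,0),(2,
  0)]⟩,⟨0,[(3,0)]⟩),⟨0,[(1,0)]⟩,.k,.k,(.x (-1) ⟨3,[(11,0),(0,0),(11,1),(0,3)]⟩ ⟨0,[(26,0)]⟩),(.r 1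
  ⟨0,[(2,0),(6,0),(3,0),(5,0)]⟩ ⟨1,[(12,0),(5,1),(0,1),(7,1),(2,0),(0,1)]⟩),.k,.k,⟨true,(-1),⟨0,[(2,
  0),(6,0),(3,0),(5,0)]⟩,⟨0,[(4,0),(1,0),(5,0),(0,0),(5,0)]⟩⟩,⟨false,0,⟨0,[(0,1),(12,0),(5,0)]⟩,⟨1,
  [(6,2),(0,0),(4,1),(0,1),(5,1),(7,1),(1,1)]⟩⟩,⟨true,0,⟨0,[(33,0)]⟩,⟨0,[]⟩⟩,⟨false,1,⟨1,[(0,1),(3,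
  1),(7,0),(0,1),(5,1),(11,0)]⟩,⟨1,[(6,1),(3,0),(2,0),(0,0),(14,1)]⟩⟩,⟨false,0,⟨0,[(29,0)]⟩,⟨0,[(28,
  0),(2,0)]⟩⟩,⟨false,1,⟨1,[(0,1),(11,0),(0,1),(1,1),(3,1),(11,0)]⟩,⟨1,[(6,1),(3,0),(2,0),(0,0)]⟩⟩,
  [.a ⟨true,0,⟨0,[(4,0)]⟩,⟨0,[(6,1),(2,0),(2,0),(0,1),(5,0)]⟩⟩ ⟨false,0,⟨2,[(5,1),(1,0),(5,0),(1,0),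
  (1,0),(11,1)]⟩,⟨1,[(12,0),(18,0)]⟩⟩ ⟨true,0,⟨0,[(0,0),(3,0),(8,0),(5,0)]⟩,⟨0,[(6,1),(2,0),(2,0),
  (0,0),(5,0)]⟩⟩,.o ⟨false,1,⟨1,[(4,1),(19,0),(6,0)]⟩,⟨1,[(10,0),(2,0),(0,0),(14,1)]⟩⟩,.o ⟨false,1,
  ⟨1,[(6,0),(0,0),(4,0),(11,0)]⟩,⟨0,[(0,0),(12,0),(5,0)]⟩⟩,.e ⟨false,0,⟨0,[(5,0),(23,0)]⟩,⟨1,[(12,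
  0),(6,0),(0,0),(10,0)]⟩⟩ ⟨false,1,⟨1,[(4,1),(8,1),(10,0),(6,0)]⟩,⟨0,[(6,1),(2,0),(2,0),(0,0),(5,
  0)]⟩⟩]⟩) (.K ⟨1,[-1,1,1],0,0,(⟨0,[(3,0)]⟩,⟨0,[(22,0),(2,0)]⟩),.k,.k,(.x (-1) ⟨0,[(0,0),(2,0),(22,
  0),(3,0)]⟩ ⟨3,[(1,5),(0,5),(1,2),(4,2),(2,2),(3,2),(2,7),(2,3),(2,1)]⟩),.k,.k,[⟨1,[(16,1),(2,0),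
  (0,0)]⟩,⟨0,[(0,0)]⟩,⟨0,[(4,0)]⟩,⟨1,[(0,1),(5,1),(2,1),(2,0),(0,1),(17,0)]⟩]⟩)))))))) (.Q [0,1,-1,
  1,0,0,0,0,-1,0,0,1] (.p true [0,0,0,1] [] (⟨0,[(7,0)]⟩,⟨0,[(6,0)]⟩) .k 0 (⟨0,[]⟩,⟨0,[]⟩) .k .k)
  (.R ⟨2,true,false,false,[0,1],[0,0,0,1],[0,0,1,1],(⟨0,[]⟩,⟨0,[]⟩),(⟨0,[(8,0)]⟩,⟨0,[(7,0)]⟩),⟨0,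
  []⟩,.k,.k,.k,(.r 0 ⟨0,[(2,0)]⟩ ⟨1,[(6,0),(14,1),(3,0)]⟩),.k,.k,⟨true,0,⟨0,[(2,0)]⟩,⟨0,[(1,0),(6,
  0),(12,0)]⟩⟩,⟨false,0,⟨0,[(1,0),(0,0),(18,0)]⟩,⟨0,[(8,0),(15,0)]⟩⟩,⟨false,1,⟨3,[(5,0),(0,0),(18,
  1)]⟩,⟨0,[]⟩⟩,⟨true,0,⟨0,[(1,0),(20,0)]⟩,⟨0,[(0,0)]⟩⟩,⟨true,0,⟨0,[(23,0)]⟩,⟨0,[(22,0)]⟩⟩,⟨false,0,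
  ⟨0,[(1,0)]⟩,⟨1,[(5,0),(2,1),(15,0)]⟩⟩,[]⟩) (.Q [0,1,1,0,-1,0,0,0,1,0,0,-1] (.p false [0,0,0,1] []
  (⟨0,[(8,0)]⟩,⟨0,[(7,0)]⟩) .k 0 (⟨0,[]⟩,⟨0,[]⟩) .k .k) (.K ⟨0,[0,0,0,1],0,(-1),(⟨0,[(9,0)]⟩,⟨0,[(8,
  0)]⟩),.k,(.r (-1) ⟨1,[(7,0),(14,1),(3,0)]⟩ ⟨0,[(3,0)]⟩),(.x 0 ⟨0,[(21,0)]⟩ ⟨3,[(6,0),(0,0),(11,1),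
  (0,3)]⟩),.k,.k,[⟨0,[(9,0)]⟩,⟨0,[(8,0)]⟩,⟨1,[(6,0),(2,1),(15,0),(2,1)]⟩,⟨0,[(0,0)]⟩]⟩) (.Q [0,0,2,
  0,-1,0,0,0,0,1,0,-1] (.p false [0,0,0,1] [1] (⟨0,[(9,0)]⟩,⟨0,[(8,0)]⟩) .k 1 (⟨0,[]⟩,⟨0,[]⟩) .k
  .k) (.K ⟨1,[1,0,0,-1],1,1,(⟨0,[(9,0)]⟩,⟨0,[(10,0)]⟩),.k,(.x (-1) ⟨3,[(7,0),(0,0),(11,1),(0,3)]⟩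
  ⟨0,[(22,0)]⟩),(.r 0 ⟨0,[(4,0)]⟩ ⟨1,[(8,0),(14,1),(3,0)]⟩),.k,.k,[⟨0,[(0,0)]⟩,⟨3,[(7,0),(0,0),(1,
  3),(9,1)]⟩,⟨0,[(0,0),(2,0),(6,0),(12,1),(1,1)]⟩,⟨0,[(1,0)]⟩]⟩) (.Q [0,0,0,0,0,1,0,0,0,-1,0,1] (.p
  true [0,0,0,1] [1] (⟨0,[(10,0)]⟩,⟨0,[(9,0)]⟩) .k 1 (⟨0,[]⟩,⟨0,[]⟩) .k .k) (.Q [0,1,0,-1,0,0,0,0,0,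
  -1] (.pp true [-1,1]) (.R ⟨0,false,false,true,[1,0,0,-1],[1,-1],[1,1,-1,-1],(⟨0,[(11,0)]⟩,⟨0,[(12,
  0)]⟩),(⟨0,[(23,0)]⟩,⟨0,[(24,0)]⟩),⟨0,[(1,0)]⟩,.k,.k,(.x (-1) ⟨3,[(9,0),(0,0),(11,1),(0,3)]⟩ ⟨0,
  [(24,0)]⟩),(.r 0 ⟨0,[(6,0)]⟩ ⟨1,[(10,0),(14,1),(3,0)]⟩),.k,.k,⟨true,0,⟨0,[]⟩,⟨1,[(17,0),(0,0)]⟩⟩,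
  ⟨false,0,⟨1,[(0,0),(4,0),(0,0),(4,0)]⟩,⟨0,[(12,0),(15,0)]⟩⟩,⟨true,0,⟨0,[(5,0),(6,0),(12,1),(1,
  0)]⟩,⟨0,[(6,0)]⟩⟩,⟨false,0,⟨0,[(4,0),(26,0)]⟩,⟨0,[(3,0),(23,0)]⟩⟩,⟨false,0,⟨0,[]⟩,⟨0,[]⟩⟩,⟨false,
  0,⟨0,[]⟩,⟨0,[]⟩⟩,[.o ⟨false,0,⟨0,[(0,0)]⟩,⟨3,[(6,1),(3,0),(16,1),(0,0),(0,1)]⟩⟩,.o ⟨false,1,⟨1,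
  [(22,0),(3,1),(2,0)]⟩,⟨0,[(27,0)]⟩⟩,.o ⟨false,1,⟨7,[(2,3),(6,0),(0,0),(1,3),(9,1)]⟩,⟨1,[(0,0),(4,
  0),(0,0),(4,0)]⟩⟩,.a ⟨true,0,⟨0,[(12,0)]⟩,⟨0,[(11,0)]⟩⟩ ⟨false,1,⟨1,[(25,1),(2,0),(0,0)]⟩,⟨0,[(5,
  0),(0,0),(5,0)]⟩⟩ ⟨true,0,⟨0,[(0,0),(10,0)]⟩,⟨0,[(12,0),(14,0)]⟩⟩]⟩) (.Q [0,0,0,0,0,1,0,0,0,0,0,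
  -1] (.p false [0,0,0,1] [] (⟨0,[(12,0)]⟩,⟨0,[(11,0)]⟩) .k 0 (⟨0,[]⟩,⟨0,[]⟩) .k .k) (.R ⟨0,false,
  false,false,[0,0,0,1],[0,1],[1,1],(⟨0,[(13,0)]⟩,⟨0,[(12,0)]⟩),(⟨0,[(25,0)]⟩,⟨0,[(24,0)]⟩),⟨0,[(0,
  0)]⟩,.k,.k,(.r (-1) ⟨1,[(11,0),(14,1),(3,0)]⟩ ⟨0,[(7,0)]⟩),(.r (-1) ⟨1,[(11,0),(14,1),(3,0)]⟩ ⟨0,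
  [(7,0)]⟩),.k,.k,⟨true,0,⟨0,[(26,0)]⟩,⟨0,[(6,0),(0,0),(5,0)]⟩⟩,⟨false,1,⟨0,[(1,0),(1,0),(22,0)]⟩,
  ⟨0,[(5,0),(1,0),(24,0)]⟩⟩,⟨true,0,⟨0,[(7,0),(18,0)]⟩,⟨0,[(6,0),(6,0),(12,0),(1,0)]⟩⟩,⟨false,1,⟨1,
  [(1,0),(1,0),(0,0),(2,0)]⟩,⟨0,[(5,0),(26,0)]⟩⟩,⟨false,0,⟨0,[]⟩,⟨0,[]⟩⟩,⟨false,0,⟨0,[]⟩,⟨0,[]⟩⟩,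
  [.o ⟨false,0,⟨0,[(28,0)]⟩,⟨1,[(23,0),(3,1),(2,0)]⟩⟩,.a ⟨true,0,⟨0,[(1,0)]⟩,⟨0,[(27,0)]⟩⟩ ⟨true,0,
  ⟨0,[]⟩,⟨1,[(18,0),(0,0)]⟩⟩ ⟨false,1,⟨0,[(1,0),(1,0)]⟩,⟨11,[(5,5),(2,3),(1,2),(1,5),(1,3),(3,3),(4,
  0),(2,1),(0,7)]⟩⟩,.o ⟨false,0,⟨0,[(6,0),(0,0),(18,0)]⟩,⟨7,[(3,3),(6,0),(0,0),(1,3),(9,1)]⟩⟩,.o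
  ⟨false,0,⟨0,[(5,0),(1,0),(24,0)]⟩,⟨0,[(3,0)]⟩⟩]⟩) (.Q [0,0,0,0,0,1,0,0,0,0,-1] (.ed true [1,-1,1]
  .k) (.Q [0,-1,0,1,0,0,-1,-1,0,1,1] (.p true [1,-1,1] [] (⟨0,[(23,0),(1,0)]⟩,⟨0,[(0,0)]⟩) .k 0 (⟨0,
  []⟩,⟨0,[]⟩) .k .k) (.K ⟨1,[0,1,-1],0,0,(⟨0,[(1,0)]⟩,⟨0,[(24,0),(1,0)]⟩),.k,.k,(.r 0 ⟨5,[(0,3),(8,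
  1),(0,0),(2,0),(2,2),(0,0),(2,7),(9,4)]⟩ ⟨0,[(22,0),(5,1),(3,0)]⟩),.k,.k,[⟨1,[(20,2),(0,0)]⟩,⟨1,
  [(0,0),(16,0),(4,0),(5,0)]⟩,⟨1,[(11,0),(5,0),(2,0),(7,1)]⟩,⟨0,[(0,0)]⟩]⟩) (.R ⟨2,true,false,false,
  [0,1],[0,0,1],[1,1,1],(⟨0,[]⟩,⟨0,[]⟩),(⟨0,[(24,0)]⟩,⟨0,[(23,0)]⟩),⟨0,[]⟩,.k,.k,.k,.k,.k,.k,⟨false,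
  0,⟨0,[(3,0),(12,0),(3,0),(7,0)]⟩,⟨1,[(22,1),(8,0),(0,0)]⟩⟩,⟨true,0,⟨0,[(20,0)]⟩,⟨0,[(3,0),(13,0),
  (10,0)]⟩⟩,⟨true,0,⟨0,[(29,0)]⟩,⟨0,[(30,0)]⟩⟩,⟨false,1,⟨2,[(0,0),(10,0),(17,1),(2,2)]⟩,⟨0,[(3,0),
  (12,0)]⟩⟩,⟨false,0,⟨0,[]⟩,⟨3,[(12,0),(0,0),(18,1)]⟩⟩,⟨true,0,⟨0,[(0,0),(2,0)]⟩,⟨0,[(19,0)]⟩⟩,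
  []⟩)) (.K ⟨0,[0,-1,1],0,0,(⟨0,[(0,0)]⟩,⟨0,[(22,0),(3,0)]⟩),.k,(.r (-1) ⟨0,[(21,0),(5,1),(3,0)]⟩
  ⟨3,[(1,0),(0,1),(0,0),(3,1),(0,1),(6,0),(2,2),(0,3),(9,3)]⟩),.k,.k,.k,[⟨0,[(2,0),(13,0),(10,0)]⟩,
  ⟨0,[(2,0),(16,0),(7,0)]⟩,⟨0,[(18,0),(10,0)]⟩,⟨1,[(10,0),(5,0),(2,0),(7,1)]⟩]⟩)))) (.Q [0,1,0,-1,0,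
  0,0,0,0,-1] (.pp true [-1,1]) (.R ⟨1,false,false,true,[1,0,0,-1],[1,-1],[0,1,0,0,0,0,0,0,-1],(⟨0,
  [(11,0)]⟩,⟨0,[(12,0)]⟩),(⟨0,[(23,0)]⟩,⟨0,[(24,0)]⟩),⟨0,[(1,0)]⟩,.k,.k,(.x (-1) ⟨3,[(9,0),(0,0),
  (11,1),(0,3)]⟩ ⟨0,[(24,0)]⟩),(.r 0 ⟨0,[(6,0)]⟩ ⟨1,[(10,0),(14,1),(3,0)]⟩),.k,.k,⟨true,0,⟨0,[(6,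
  0)]⟩,⟨0,[(5,0),(6,0),(12,0)]⟩⟩,⟨false,0,⟨1,[(0,0),(4,0),(0,0),(4,0)]⟩,⟨0,[(12,0),(15,0)]⟩⟩,⟨true,
  0,⟨0,[(31,0)]⟩,⟨0,[]⟩⟩,⟨false,0,⟨0,[(4,0),(26,0)]⟩,⟨0,[(3,0),(23,0)]⟩⟩,⟨false,0,⟨0,[(27,0)]⟩,⟨0,
  [(26,0),(2,0)]⟩⟩,⟨false,0,⟨0,[(5,0),(25,0)]⟩,⟨0,[(3,0)]⟩⟩,[.o ⟨false,0,⟨0,[(0,0)]⟩,⟨3,[(6,1),(3,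
  0),(16,1),(0,0),(0,1)]⟩⟩,.o ⟨false,1,⟨1,[(22,0),(3,1),(2,0)]⟩,⟨0,[(27,0)]⟩⟩,.o ⟨false,1,⟨7,[(2,3),
  (6,0),(0,0),(1,3),(9,1)]⟩,⟨1,[(0,0),(4,0),(0,0),(4,0)]⟩⟩,.a ⟨true,0,⟨0,[(12,0)]⟩,⟨0,[(11,0)]⟩⟩
  ⟨false,1,⟨1,[(9,0),(18,0)]⟩,⟨0,[(5,0),(6,0)]⟩⟩ ⟨true,0,⟨0,[(0,0),(10,0)]⟩,⟨0,[(12,0),(14,0)]⟩⟩]⟩)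
  (.Q [0,-1,0,1,0,0,1,1,0,1,-1] (.p false [0,0,1] [1] (⟨0,[(21,0)]⟩,⟨0,[(20,0)]⟩) .k 1 (⟨0,[]⟩,⟨0,
  []⟩) .k .k) (.R ⟨2,true,false,true,[0,1],[1,0,-1],[1,1,1],(⟨0,[]⟩,⟨0,[]⟩),(⟨0,[(21,0)]⟩,⟨0,[(22,
  0)]⟩),⟨0,[]⟩,.k,.k,.k,.k,.k,.k,⟨false,0,⟨0,[(20,0)]⟩,⟨1,[(1,1),(12,1),(3,1),(7,1),(2,0),(0,0)]⟩⟩,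
  ⟨true,0,⟨0,[(15,0)]⟩,⟨0,[(1,0),(16,0),(7,0)]⟩⟩,⟨true,0,⟨0,[(27,0)]⟩,⟨0,[(28,0)]⟩⟩,⟨false,1,⟨2,[(4,
  1),(0,1),(8,0),(2,1),(5,0),(3,0)]⟩,⟨0,[(0,0)]⟩⟩,⟨false,0,⟨0,[]⟩,⟨3,[(10,0),(0,0),(18,1)]⟩⟩,⟨true,
  0,⟨0,[(14,0)]⟩,⟨1,[(9,0),(2,0),(0,0)]⟩⟩,[]⟩) (.Q [0,0,0,0,0,1,0,0,0,0,-1] (.ed true [1,-1,1] .k)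
  (.K ⟨1,[0,1,-1],0,0,(⟨0,[(0,0)]⟩,⟨0,[(23,0),(1,0)]⟩),.k,.k,(.r 0 ⟨5,[(2,6),(4,0),(0,2),(0,0),(2,
  0),(1,0),(0,6),(3,6),(9,0)]⟩ ⟨0,[(21,0),(5,1),(3,0)]⟩),.k,.k,[⟨1,[(19,2),(0,0)]⟩,⟨0,[(1,0),(0,0),
  (18,0)]⟩,⟨0,[(1,0),(8,0)]⟩,⟨0,[(1,0),(0,1)]⟩]⟩) (.K ⟨0,[0,-1,1],0,0,(⟨0,[(0,0)]⟩,⟨0,[(22,0),(3,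
  0)]⟩),.k,(.r (-1) ⟨0,[(21,0),(5,1),(3,0)]⟩ ⟨5,[(2,6),(4,0),(0,2),(0,0),(2,0),(1,0),(0,6),(3,6),(9,
  0)]⟩),.k,.k,.k,[⟨0,[(1,0),(0,0),(18,0)]⟩,⟨0,[(2,0),(16,0),(7,0)]⟩,⟨0,[(18,0),(10,0)]⟩,⟨0,[(1,0),
  (8,0)]⟩]⟩))))))))) (.Q [0,1,1,0,-1,0,0,0,1,0,0,-1] (.p false [0,0,0,1] [] (⟨0,[(6,0)]⟩,⟨0,[(5,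
  0)]⟩) .k 0 (⟨0,[]⟩,⟨0,[]⟩) .k .k) (.K ⟨0,[0,0,0,1],0,(-1),(⟨0,[(7,0)]⟩,⟨0,[(6,0)]⟩),.k,(.x 0 ⟨0,
  [(9,0),(2,0),(5,0)]⟩ ⟨0,[(19,0),(3,0)]⟩),(.x 0 ⟨0,[(19,0)]⟩ ⟨3,[(4,0),(0,0),(11,1),(0,3)]⟩),.k,.k,
  [⟨0,[(7,0)]⟩,⟨0,[(6,0)]⟩,⟨1,[(4,0),(2,1),(15,0),(2,1)]⟩,⟨0,[(0,0)]⟩]⟩) (.Q [0,1,-1,0,0,0,0,0,-1,0,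
  0,1] (.p true [0,0,0,1] [] (⟨0,[(7,0)]⟩,⟨0,[(6,0)]⟩) .k 0 (⟨0,[]⟩,⟨0,[]⟩) .k .k) (.K ⟨0,[0,0,0,1],
  0,0,(⟨0,[(8,0)]⟩,⟨0,[(7,0)]⟩),.k,(.x 0 ⟨0,[(10,0),(2,0),(5,0)]⟩ ⟨0,[(20,0),(3,0)]⟩),(.x 0 ⟨0,[(20,
  0)]⟩ ⟨3,[(5,0),(0,0),(11,1),(0,3)]⟩),.k,.k,[⟨0,[(8,0)]⟩,⟨0,[(7,0)]⟩,⟨0,[(0,0)]⟩,⟨12,[(2,4),(0,5),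
  (2,3),(0,12),(1,5),(0,2),(2,8),(4,1),(3,0)]⟩]⟩) (.Q [0,0,0,0,0,0,1,0,0,1,-1] (.p false [0,0,1]
  [1] (⟨0,[(17,0)]⟩,⟨0,[(16,0)]⟩) .k 1 (⟨0,[]⟩,⟨0,[]⟩) .k .k) (.Q [0,-1,0,1,0,0,1,1,0,1,-1] (.p
  false [0,0,1] [1] (⟨0,[(18,0)]⟩,⟨0,[(17,0)]⟩) .k 1 (⟨0,[]⟩,⟨0,[]⟩) .k .k) (.R ⟨2,true,false,true,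
  [0,1],[1,0,-1],[1,1,1],(⟨0,[]⟩,⟨0,[]⟩),(⟨0,[(18,0)]⟩,⟨0,[(19,0)]⟩),⟨0,[]⟩,.k,.k,.k,.k,.k,.k,
  ⟨false,0,⟨0,[(17,0)]⟩,⟨1,[(1,1),(9,1),(14,0),(0,0)]⟩⟩,⟨true,0,⟨0,[(12,0)]⟩,⟨0,[(1,0)]⟩⟩,⟨true,0,
  ⟨0,[(24,0)]⟩,⟨0,[(25,0)]⟩⟩,⟨false,1,⟨0,[(11,0),(12,0),(2,0)]⟩,⟨0,[(0,0)]⟩⟩,⟨false,0,⟨0,[]⟩,⟨3,[(7,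
  0),(0,0),(18,1)]⟩⟩,⟨true,0,⟨0,[(11,0)]⟩,⟨1,[(6,0),(2,0),(0,0)]⟩⟩,[]⟩) (.Q [0,0,0,0,0,-1,0,0,0,1,
  -1] (.ed true [0,1,1] .k) (.Q [0,-1,0,-1,1,0,0,0,0,-1] (.pp true [-1,1]) (.Q [0,0,0,0,0,0,-1,-1,0,
  0,1] (.p true [0,0,1] [] (⟨0,[(21,0)]⟩,⟨0,[(20,0)]⟩) .k 0 (⟨0,[]⟩,⟨0,[]⟩) .k .k) (.R ⟨1,false,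
  false,false,[1,0,-1],[1,-1],[0,1,0,0,0,0,0,-1],(⟨0,[(21,0)]⟩,⟨0,[(22,0)]⟩),(⟨0,[(24,0)]⟩,⟨0,[(25,
  0)]⟩),⟨0,[(2,0)]⟩,.k,.k,.k,.k,.k,.k,⟨false,0,⟨0,[(4,0),(9,0),(13,0)]⟩,⟨1,[(7,1),(2,0),(9,1),(9,
  0)]⟩⟩,⟨true,0,⟨0,[(18,0)]⟩,⟨0,[(0,0),(19,0)]⟩⟩,⟨true,0,⟨0,[(32,0)]⟩,⟨0,[]⟩⟩,⟨false,1,⟨1,[(1,0),(7,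
  0),(17,0),(2,0)]⟩,⟨0,[(0,0),(27,0)]⟩⟩,⟨false,0,⟨0,[(28,0)]⟩,⟨0,[(27,0),(2,0)]⟩⟩,⟨false,1,⟨7,[(9,
  3),(0,0),(0,0),(11,1),(6,3)]⟩,⟨0,[(0,0)]⟩⟩,[.o ⟨false,1,⟨7,[(1,3),(8,0),(0,0),(11,1),(3,3)]⟩,⟨0,
  [(28,0)]⟩⟩,.o ⟨false,1,⟨0,[(1,0)]⟩,⟨0,[(28,0),(3,0)]⟩⟩,.a ⟨true,0,⟨0,[(0,0),(19,0)]⟩,⟨0,[(4,0)]⟩⟩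
  ⟨true,0,⟨0,[(4,0),(9,0)]⟩,⟨0,[(20,0)]⟩⟩ ⟨false,1,⟨0,[(1,0),(2,0)]⟩,⟨0,[(0,0),(19,0),(7,0)]⟩⟩,.o
  ⟨false,0,⟨0,[(15,0)]⟩,⟨0,[(18,0),(10,0)]⟩⟩]⟩) (.I [1,0,-2,-2,1,0,0,-1] (.Q [0,0,0,0,0,1,0,0,0,-1,
  0,1] (.p true [0,0,0,1] [1] (⟨0,[(14,0)]⟩,⟨0,[(13,0)]⟩) .k 1 (⟨0,[]⟩,⟨0,[]⟩) .k .k) (.I [0,1,0,0,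
  0,0,0,0,-1] (.R ⟨0,false,false,true,[1,0,0,-1],[1,-1,-1],[1,1,-1,-1,0,0,0,-1],(⟨0,[(15,0)]⟩,⟨0,
  [(16,0)]⟩),(⟨0,[(5,0)]⟩,⟨0,[(25,0),(2,0)]⟩),⟨0,[(1,0)]⟩,.k,.k,(.x (-1) ⟨3,[(13,0),(0,0),(11,1),(0,
  3)]⟩ ⟨0,[(28,0)]⟩),(.r 0 ⟨1,[(11,1),(1,0),(19,0)]⟩ ⟨2,[(2,1),(4,0),(0,0),(5,0),(1,0),(0,0),(13,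
  0)]⟩),.k,.k,⟨true,0,⟨0,[]⟩,⟨1,[(21,0),(0,0)]⟩⟩,⟨false,0,⟨0,[(15,0),(2,0)]⟩,⟨0,[(2,0),(0,0),(12,0),
  (14,1)]⟩⟩,⟨true,0,⟨0,[(7,0),(2,0),(6,0)]⟩,⟨1,[(11,1),(1,0),(19,0)]⟩⟩,⟨false,0,⟨0,[(6,0),(1,0),(6,
  0),(0,0)]⟩,⟨0,[(3,0),(5,0),(21,0)]⟩⟩,⟨false,0,⟨0,[]⟩,⟨0,[]⟩⟩,⟨false,0,⟨0,[]⟩,⟨0,[]⟩⟩,[.o ⟨false,0,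
  ⟨0,[(6,0)]⟩,⟨7,[(12,3),(0,0),(0,0),(11,1),(4,7),(1,3)]⟩⟩,.o ⟨false,1,⟨0,[(4,0),(15,0)]⟩,⟨0,[(3,0),
  (27,0)]⟩⟩,.o ⟨false,1,⟨1,[(16,1),(9,0),(5,0)]⟩,⟨0,[(0,0),(7,0)]⟩⟩,.a ⟨true,0,⟨0,[(16,0)]⟩,⟨0,[(15,
  0)]⟩⟩ ⟨false,1,⟨0,[(2,0),(28,0)]⟩,⟨1,[(11,1),(9,0),(0,0),(10,1)]⟩⟩ ⟨true,0,⟨0,[(6,0),(8,0)]⟩,⟨0,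
  [(3,0),(12,0),(14,0)]⟩⟩]⟩) (.R ⟨0,false,false,true,[1,0,0,-1],[0,1],[1,1],(⟨0,[(15,0)]⟩,⟨0,[(16,
  0)]⟩),(⟨0,[(28,0)]⟩,⟨0,[(27,0)]⟩),⟨0,[(1,0)]⟩,.k,.k,(.x (-1) ⟨3,[(13,0),(0,0),(11,1),(0,3)]⟩ ⟨0,
  [(28,0)]⟩),(.x (-1) ⟨3,[(13,0),(0,0),(11,1),(0,3)]⟩ ⟨0,[(28,0)]⟩),.k,.k,⟨false,1,⟨1,[(2,0),(20,0),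
  (8,0)]⟩,⟨1,[(21,0),(0,0),(8,1)]⟩⟩,⟨true,0,⟨0,[(15,0)]⟩,⟨0,[(0,0),(5,0),(2,0),(1,0),(9,0)]⟩⟩,
  ⟨false,0,⟨4,[(0,1),(6,0),(2,0),(0,0),(2,0),(2,0)]⟩,⟨1,[(13,0),(19,0)]⟩⟩,⟨true,(-1),⟨0,[(0,0),(6,
  0),(3,0),(3,0),(1,0)]⟩,⟨0,[(3,0),(2,0),(2,0)]⟩⟩,⟨false,0,⟨0,[]⟩,⟨0,[]⟩⟩,⟨false,0,⟨0,[]⟩,⟨0,[]⟩⟩,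
  [.o ⟨false,0,⟨0,[(31,0),(3,0)]⟩,⟨0,[(4,0)]⟩⟩,.o ⟨false,0,⟨0,[(31,0)]⟩,⟨7,[(4,3),(8,0),(0,0),(11,
  1),(3,3)]⟩⟩,.e ⟨false,0,⟨0,[]⟩,⟨3,[(13,0),(0,0),(18,1)]⟩⟩ ⟨false,0,⟨1,[(15,1),(5,0),(0,0),(8,1)]⟩,
  ⟨0,[(0,0),(2,0),(2,0),(2,0)]⟩⟩,.a ⟨true,0,⟨0,[(16,0)]⟩,⟨0,[(15,0)]⟩⟩ ⟨true,0,⟨0,[(29,0),(1,0)]⟩,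
  ⟨1,[(21,0),(0,0)]⟩⟩ ⟨false,0,⟨0,[(15,0),(15,0)]⟩,⟨0,[(4,0),(11,0)]⟩⟩]⟩)) (.I [1,0,0,-1,0,0,0,-1,
  1] (.Q [0,0,1,0,0,0,0,0,0,0,0,-1] (.p false [0,0,0,1] [] (⟨0,[(16,0)]⟩,⟨0,[(15,0)]⟩) .k 0 (⟨0,[]⟩,
  ⟨0,[]⟩) .k .k) (.R ⟨1,false,false,true,[1,0,0,-1],[1,-1,-1],[0,1,0,0,0,0,0,0,-1],(⟨0,[(16,0)]⟩,⟨0,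
  [(17,0)]⟩),(⟨0,[(6,0)]⟩,⟨0,[(26,0),(2,0)]⟩),⟨0,[(2,0)]⟩,.k,.k,(.x (-1) ⟨3,[(14,0),(0,0),(11,1),(0,
  3)]⟩ ⟨0,[(29,0)]⟩),(.r 0 ⟨1,[(12,1),(1,0),(19,0)]⟩ ⟨3,[(1,3),(12,0),(0,0),(17,1)]⟩),.k,.k,⟨true,0,
  ⟨1,[(12,1),(1,0),(19,0)]⟩,⟨0,[(1,0)]⟩⟩,⟨false,0,⟨0,[(16,0),(2,0)]⟩,⟨0,[(3,0),(0,0),(12,0),(14,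
  1)]⟩⟩,⟨true,0,⟨0,[(36,0)]⟩,⟨0,[]⟩⟩,⟨false,0,⟨1,[(1,0),(5,0),(1,0),(6,0),(6,0)]⟩,⟨0,[(4,0),(5,0),
  (21,0)]⟩⟩,⟨false,0,⟨0,[(32,0)]⟩,⟨0,[(31,0),(2,0)]⟩⟩,⟨false,0,⟨0,[(9,0),(11,0)]⟩,⟨0,[(4,0),(5,
  0)]⟩⟩,[.o ⟨false,0,⟨0,[(7,0)]⟩,⟨7,[(13,3),(0,0),(0,0),(11,1),(4,7),(1,3)]⟩⟩,.o ⟨false,1,⟨0,[(5,0),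
  (15,0)]⟩,⟨0,[(4,0),(27,0)]⟩⟩,.o ⟨false,1,⟨1,[(17,1),(9,0),(5,0)]⟩,⟨0,[(0,0)]⟩⟩,.a ⟨true,0,⟨0,[(17,
  0)]⟩,⟨0,[(16,0)]⟩⟩ ⟨false,1,⟨1,[(14,0),(18,0)]⟩,⟨0,[(9,0),(7,0)]⟩⟩ ⟨true,0,⟨0,[(7,0),(8,0)]⟩,⟨0,
  [(4,0),(12,0),(14,0)]⟩⟩]⟩) (.R ⟨1,false,false,false,[1,0,-1],[0,0,0,1],[0,1,0,0,0,0,0,-1],(⟨0,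
  [(25,0)]⟩,⟨0,[(26,0)]⟩),(⟨0,[(17,0)]⟩,⟨0,[(16,0)]⟩),⟨0,[(6,0)]⟩,.k,.k,.k,.k,(.r (-2) ⟨3,[(1,3),
  (12,4),(0,0),(17,1)]⟩ ⟨0,[(0,0),(8,0),(2,0)]⟩),.k,⟨false,1,⟨1,[(8,1),(5,0),(3,1),(14,0)]⟩,⟨0,[(11,
  0),(0,0),(21,0)]⟩⟩,⟨true,0,⟨0,[(16,0),(5,0)]⟩,⟨0,[(0,0),(18,0)]⟩⟩,⟨true,0,⟨0,[(36,0)]⟩,⟨0,[]⟩⟩,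
  ⟨false,0,⟨1,[(9,1),(3,0),(2,0),(0,0)]⟩,⟨0,[(10,0),(7,0)]⟩⟩,⟨false,0,⟨0,[(32,0)]⟩,⟨0,[(31,0),(2,
  0)]⟩⟩,⟨false,0,⟨11,[(0,1),(7,3),(0,9),(2,3),(0,3),(1,0),(0,3),(15,7),(1,2)]⟩,⟨0,[(7,0),(2,0)]⟩⟩,
  [.o ⟨false,0,⟨0,[(9,0),(26,0)]⟩,⟨1,[(0,1),(13,0),(12,0)]⟩⟩,.o ⟨false,0,⟨0,[(9,0)]⟩,⟨1,[(0,1),(13,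
  0),(12,0),(8,1)]⟩⟩,.a ⟨true,0,⟨0,[(0,0),(15,0),(2,0)]⟩,⟨0,[(8,0)]⟩⟩ ⟨true,0,⟨0,[(8,0),(9,0)]⟩,⟨0,
  [(24,0)]⟩⟩ ⟨false,0,⟨0,[(8,0),(0,0)]⟩,⟨1,[(0,1),(13,0),(4,1),(13,0)]⟩⟩,.o ⟨false,0,⟨0,[(19,0)]⟩,
  ⟨0,[(22,0),(10,0)]⟩⟩]⟩)) (.I [0,0,0,0,0,0,0,-1,1] (.R ⟨1,false,false,true,[1,0,0,-1],[1,-1,-1],[0,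
  1,0,-1,0,0,0,-1],(⟨0,[(16,0)]⟩,⟨0,[(17,0)]⟩),(⟨0,[(6,0)]⟩,⟨0,[(26,0),(2,0)]⟩),⟨0,[(2,0)]⟩,.k,.k,
  (.x (-1) ⟨3,[(14,0),(0,0),(11,1),(0,3)]⟩ ⟨0,[(29,0)]⟩),(.r 0 ⟨1,[(1,1),(20,0),(0,0)]⟩ ⟨7,[(0,3),
  (2,3),(10,0),(0,2)]⟩),.k,.k,⟨true,0,⟨1,[(22,0),(0,0)]⟩,⟨0,[]⟩⟩,⟨false,0,⟨0,[(16,0),(2,0)]⟩,⟨0,[(3,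
  0),(0,0),(12,0),(14,1)]⟩⟩,⟨true,0,⟨0,[(0,0),(30,0)]⟩,⟨0,[(1,0)]⟩⟩,⟨false,0,⟨0,[(7,0),(1,0),(6,0),
  (0,0)]⟩,⟨0,[(4,0),(5,0),(21,0)]⟩⟩,⟨false,0,⟨0,[(0,0)]⟩,⟨1,[(14,0),(9,1),(9,0)]⟩⟩,⟨false,0,⟨0,[(9,
  0),(11,0)]⟩,⟨0,[(4,0),(5,0)]⟩⟩,[.o ⟨false,0,⟨0,[(7,0)]⟩,⟨7,[(13,3),(0,0),(0,0),(11,1),(4,7),(1,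
  3)]⟩⟩,.o ⟨false,1,⟨0,[(5,0),(15,0)]⟩,⟨0,[(4,0),(27,0)]⟩⟩,.o ⟨false,1,⟨1,[(17,1),(9,0),(5,0)]⟩,⟨1,
  [(1,0),(5,0),(1,0),(6,0),(5,0)]⟩⟩,.a ⟨true,0,⟨0,[(17,0)]⟩,⟨0,[(16,0)]⟩⟩ ⟨false,1,⟨7,[(0,3),(2,3),
  (10,2),(0,0)]⟩,⟨0,[(12,0),(21,0)]⟩⟩ ⟨true,0,⟨0,[(7,0),(8,0)]⟩,⟨0,[(4,0),(12,0),(14,0)]⟩⟩]⟩) (.Q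
  [0,0,0,0,0,0,-1,0,0,0,1] (.p true [0,0,1] [] (⟨0,[(26,0)]⟩,⟨0,[(25,0)]⟩) .k 0 (⟨0,[]⟩,⟨0,[]⟩) .k
  .k) (.R ⟨1,false,false,false,[1,0,-1],[1,-1],[0,1,0,0,0,0,0,-1],(⟨0,[(26,0)]⟩,⟨0,[(27,0)]⟩),(⟨0,
  [(29,0)]⟩,⟨0,[(30,0)]⟩),⟨0,[(7,0)]⟩,.k,.k,.k,.k,.k,.k,⟨false,0,⟨0,[(9,0),(9,0),(13,0)]⟩,⟨1,[(4,0),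
  (20,2),(9,0)]⟩⟩,⟨true,0,⟨0,[(23,0)]⟩,⟨0,[(0,0)]⟩⟩,⟨true,0,⟨0,[(37,0)]⟩,⟨0,[]⟩⟩,⟨true,0,⟨0,[(1,0),
  (10,0),(10,0)]⟩,⟨0,[(22,0),(10,0)]⟩⟩,⟨false,0,⟨0,[(33,0)]⟩,⟨0,[(32,0),(2,0)]⟩⟩,⟨true,0,⟨0,[(5,
  0)]⟩,⟨0,[(22,0)]⟩⟩,[.o ⟨false,1,⟨7,[(6,3),(8,0),(0,0),(11,1),(3,3)]⟩,⟨0,[(33,0)]⟩⟩,.o ⟨false,1,⟨0,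
  [(6,0)]⟩,⟨0,[(33,0),(3,0)]⟩⟩,.a ⟨true,0,⟨0,[(0,0)]⟩,⟨0,[(9,0)]⟩⟩ ⟨true,0,⟨0,[(9,0),(9,0)]⟩,⟨0,
  [(25,0)]⟩⟩ ⟨false,1,⟨5,[(4,1),(1,0),(7,0),(8,3),(8,0),(2,2)]⟩,⟨0,[(0,0),(32,0)]⟩⟩,.o ⟨false,0,⟨0,
  [(20,0)]⟩,⟨0,[(23,0),(10,0)]⟩⟩]⟩) (.K ⟨2,[0,1,1],0,0,(⟨0,[(27,0),(2,0)]⟩,⟨0,[(7,0)]⟩),.k,.k,(.r 0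
  ⟨3,[(2,1),(10,1),(2,0),(6,2),(0,2),(8,3),(1,0)]⟩ ⟨0,[(0,0),(2,0),(4,0),(2,0),(0,0),(17,0)]⟩),.k,
  .k,[⟨0,[(33,0)]⟩,⟨0,[(8,0),(8,0),(0,0)]⟩,⟨1,[(23,0),(0,2)]⟩,⟨0,[(0,0)]⟩]⟩))))) (.K ⟨0,[1,-1,-1],0,
  0,(⟨0,[(3,0)]⟩,⟨0,[(23,0),(2,0)]⟩),.k,(.r (-2) ⟨1,[(2,1),(2,1),(2,1),(2,0),(6,1),(11,0)]⟩ ⟨0,[(0,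
  0)]⟩),.k,.k,.k,[⟨0,[(5,0)]⟩,⟨0,[(0,0),(3,0),(2,0),(0,0),(4,0)]⟩,⟨0,[(10,0),(7,0),(10,0)]⟩,⟨0,[(4,
  0)]⟩]⟩))) (.Q [0,0,0,0,0,1,0,0,0,0,-1] (.ed true [1,-1,1] .k) (.K ⟨1,[0,1,-1],0,0,(⟨0,[(0,0)]⟩,⟨0,
  [(22,0),(1,0)]⟩),.k,.k,(.r 0 ⟨1,[(1,1),(12,0),(0,0),(1,0),(0,2),(9,1),(1,1)]⟩ ⟨0,[(7,1),(2,0),(9,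
  0)]⟩),.k,.k,[⟨1,[(18,2),(0,0)]⟩,⟨1,[(1,0),(4,0),(0,0),(4,0),(2,1)]⟩,⟨0,[(3,0),(5,0)]⟩,⟨0,[(1,1),
  (1,0),(26,1)]⟩]⟩) (.K ⟨0,[0,-1,1],0,0,(⟨0,[(0,0)]⟩,⟨0,[(21,0),(3,0)]⟩),.k,(.r (-1) ⟨0,[(7,1),(2,
  0),(9,0)]⟩ ⟨1,[(1,1),(12,0),(0,0),(1,0),(0,2),(9,1),(1,1)]⟩),.k,.k,.k,[⟨1,[(1,0),(4,0),(0,0),(4,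
  0),(2,1)]⟩,⟨0,[(4,0)]⟩,⟨0,[(17,0),(10,0)]⟩,⟨0,[(3,0),(5,0)]⟩]⟩))) (.I [0,0,-2,-2,1,0,0,-1] (.K ⟨2,
  [-1,1,1],0,0,(⟨0,[(1,0)]⟩,⟨0,[(20,0),(2,0)]⟩),.k,.k,(.r 0 ⟨3,[(7,3),(1,0),(0,0),(6,1),(0,1),(8,3),
  (1,1)]⟩ ⟨0,[(0,0)]⟩),.k,.k,[⟨0,[(11,0),(0,0),(14,0)]⟩,⟨0,[(2,0)]⟩,⟨1,[(14,1),(2,0),(0,0)]⟩,⟨0,[(3,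
  0)]⟩]⟩) (.Q [0,0,-1,-1,1,0,0,0,-1,-1,0,1] (.p true [0,0,0,1] [1] (⟨0,[(12,0)]⟩,⟨0,[(11,0)]⟩) .k 1
  (⟨0,[]⟩,⟨0,[]⟩) .k .k) (.R ⟨0,false,false,true,[1,0,-1],[0,1],[0,1,0,-1,0,0,0,-1],(⟨0,[(21,0)]⟩,
  ⟨0,[(22,0)]⟩),(⟨0,[(25,0)]⟩,⟨0,[(24,0)]⟩),⟨0,[(2,0)]⟩,.k,.k,.k,.k,.k,.k,⟨true,1,⟨1,[(0,0),(2,1),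
  (0,1),(2,0),(4,0),(17,0)]⟩,⟨0,[(1,0)]⟩⟩,⟨false,1,⟨0,[(4,0),(24,0)]⟩,⟨0,[(15,0)]⟩⟩,⟨true,0,⟨0,[(27,
  0)]⟩,⟨0,[(28,0)]⟩⟩,⟨false,0,⟨3,[(1,1),(2,1),(4,0),(2,0),(0,0),(15,1)]⟩,⟨0,[(3,0),(26,0)]⟩⟩,⟨false,
  0,⟨0,[]⟩,⟨0,[]⟩⟩,⟨false,0,⟨0,[]⟩,⟨0,[]⟩⟩,[.o ⟨false,0,⟨0,[(28,0),(3,0)]⟩,⟨0,[(0,0),(4,0)]⟩⟩,.o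
  ⟨false,0,⟨0,[(28,0)]⟩,⟨1,[(23,0),(3,1),(2,0)]⟩⟩,.a ⟨true,0,⟨0,[(1,0),(1,0),(2,0),(0,0),(4,0)]⟩,⟨0,
  [(4,0)]⟩⟩ ⟨true,0,⟨0,[(3,0),(0,0)]⟩,⟨1,[(1,0),(18,0),(8,0)]⟩⟩ ⟨false,0,⟨0,[(4,0),(23,0)]⟩,⟨1,[(0,
  0),(6,0),(4,0),(2,1),(14,0)]⟩⟩,.o ⟨false,0,⟨0,[(15,0)]⟩,⟨0,[(18,0),(10,0)]⟩⟩]⟩) (.R ⟨0,false,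
  false,true,[1,0,-1],[1,-1],[0,1],(⟨0,[(21,0)]⟩,⟨0,[(22,0)]⟩),(⟨0,[(24,0)]⟩,⟨0,[(25,0)]⟩),⟨0,[(2,
  0)]⟩,.k,.k,.k,.k,.k,.k,⟨false,0,⟨0,[(28,0)]⟩,⟨3,[(7,3),(2,2),(0,0)]⟩⟩,⟨true,0,⟨0,[(18,0)]⟩,⟨1,[(0,
  0),(2,0),(2,1),(0,0),(0,0),(3,0),(2,0)]⟩⟩,⟨false,0,⟨0,[(20,0)]⟩,⟨0,[(4,0),(9,0),(15,0)]⟩⟩,⟨true,0,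
  ⟨0,[(3,0),(5,0)]⟩,⟨0,[(0,0),(5,0),(7,0)]⟩⟩,⟨false,0,⟨0,[]⟩,⟨0,[]⟩⟩,⟨false,0,⟨0,[]⟩,⟨0,[]⟩⟩,[.a
  ⟨true,0,⟨0,[(27,0)]⟩,⟨0,[(0,0),(5,0)]⟩⟩ ⟨false,0,⟨0,[(26,0),(1,0)]⟩,⟨3,[(10,0),(0,0),(18,1)]⟩⟩
  ⟨true,0,⟨0,[(18,0),(7,0)]⟩,⟨0,[(0,0),(5,0),(8,0)]⟩⟩,.o ⟨false,1,⟨1,[(23,0),(3,1),(2,0)]⟩,⟨0,[(28,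
  0)]⟩⟩,.e ⟨true,0,⟨0,[(32,0)]⟩,⟨0,[]⟩⟩ ⟨true,0,⟨0,[(18,0),(7,0)]⟩,⟨3,[(0,2),(5,3),(0,0),(0,1),(3,
  0),(1,1),(0,1),(13,0)]⟩⟩,.o ⟨false,0,⟨0,[(15,0)]⟩,⟨0,[(18,0),(10,0)]⟩⟩]⟩))))) (.Q [0,0,0,0,0,1,0,
  0,0,-1,0,1] (.p true [0,0,0,1] [1] (⟨0,[(9,0)]⟩,⟨0,[(8,0)]⟩) .k 1 (⟨0,[]⟩,⟨0,[]⟩) .k .k) (.R ⟨0,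
  false,false,false,[1,0,0,-1],[0,1],[0,1,0,0,0,0,0,0,-1],(⟨0,[(9,0)]⟩,⟨0,[(10,0)]⟩),(⟨0,[(22,0)]⟩,
  ⟨0,[(21,0)]⟩),⟨0,[(0,0)]⟩,.k,.k,(.x (-1) ⟨3,[(7,0),(0,0),(11,1),(0,3)]⟩ ⟨0,[(22,0)]⟩),(.x (-1) ⟨3,
  [(7,0),(0,0),(11,1),(0,3)]⟩ ⟨0,[(22,0)]⟩),.k,.k,⟨false,1,⟨1,[(7,0),(15,1),(2,0)]⟩,⟨0,[(2,0),(7,0),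
  (14,0)]⟩⟩,⟨true,0,⟨0,[(9,0)]⟩,⟨0,[(1,0),(8,0),(4,0)]⟩⟩,⟨true,0,⟨0,[(29,0)]⟩,⟨0,[]⟩⟩,⟨false,0,⟨0,
  [(2,0),(6,0),(0,0),(14,0)]⟩,⟨0,[(1,0),(1,0),(11,0),(7,0)]⟩⟩,⟨false,0,⟨0,[]⟩,⟨0,[]⟩⟩,⟨false,0,⟨0,
  []⟩,⟨0,[]⟩⟩,[.o ⟨false,0,⟨0,[(25,0)]⟩,⟨1,[(20,0),(3,1),(2,0)]⟩⟩,.o ⟨false,1,⟨3,[(7,0),(0,0),(16,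
  3),(1,1)]⟩,⟨0,[(1,0),(13,0),(7,0)]⟩⟩,.o ⟨false,1,⟨1,[(10,1),(9,0),(5,0)]⟩,⟨0,[(1,0),(7,0),(5,
  0)]⟩⟩,.a ⟨true,0,⟨0,[(10,0)]⟩,⟨0,[(9,0)]⟩⟩ ⟨false,1,⟨1,[(7,0),(18,0)]⟩,⟨0,[(2,0),(7,0)]⟩⟩ ⟨true,0,
  ⟨0,[(9,0),(15,0)]⟩,⟨0,[(1,0),(8,0),(4,0),(7,0)]⟩⟩]⟩) (.Q [0,0,1,2,-1,0,0,0,1,1,0,-1] (.p false [0,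
  0,0,1] [1] (⟨0,[(10,0)]⟩,⟨0,[(9,0)]⟩) .k 1 (⟨0,[]⟩,⟨0,[]⟩) .k .k) (.R ⟨1,true,false,false,[1,0,0,
  -1],[0,1],[0,1,0,0,0,0,0,0,-1],(⟨0,[(10,0)]⟩,⟨0,[(11,0)]⟩),(⟨0,[(23,0)]⟩,⟨0,[(22,0)]⟩),⟨0,[(1,
  0)]⟩,.k,.k,(.x (-1) ⟨3,[(8,0),(0,0),(11,1),(0,3)]⟩ ⟨0,[(23,0)]⟩),(.x (-1) ⟨3,[(8,0),(0,0),(11,1),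
  (0,3)]⟩ ⟨0,[(23,0)]⟩),(.r (-2) ⟨3,[(5,7),(2,6),(0,0)]⟩ ⟨0,[(0,0),(1,0),(8,0),(4,0)]⟩),.k,⟨false,1,
  ⟨1,[(8,0),(15,1),(2,0)]⟩,⟨3,[(0,1),(2,1),(7,3),(9,0),(6,0)]⟩⟩,⟨true,0,⟨0,[(10,0)]⟩,⟨0,[(2,0),(8,
  0),(4,0)]⟩⟩,⟨true,0,⟨0,[(30,0)]⟩,⟨0,[]⟩⟩,⟨false,0,⟨7,[(0,3),(2,1),(5,0),(0,3),(0,1),(4,0),(0,0),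
  (10,2)]⟩,⟨0,[(2,0),(1,0),(11,0),(7,0)]⟩⟩,⟨false,0,⟨0,[(26,0)]⟩,⟨0,[(25,0),(2,0)]⟩⟩,⟨true,(-1),⟨0,
  [(0,0)]⟩,⟨0,[(4,0),(8,0),(2,0),(7,1)]⟩⟩,[]⟩) (.I [0,0,1,0,0,-2] (.R ⟨1,false,false,false,[1,0,0,
  -1],[0,1],[0,1,0,0,0,0,0,0,-1],(⟨0,[(11,0)]⟩,⟨0,[(12,0)]⟩),(⟨0,[(24,0)]⟩,⟨0,[(23,0)]⟩),⟨0,[(2,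
  0)]⟩,.k,.k,(.x (-1) ⟨7,[(0,3),(8,2),(0,2),(17,1)]⟩ ⟨0,[(24,0)]⟩),(.x (-1) ⟨7,[(0,3),(8,2),(0,2),
  (17,1)]⟩ ⟨0,[(24,0)]⟩),(.x 0 ⟨0,[(0,0)]⟩ ⟨3,[(9,0),(0,0),(13,7),(3,1)]⟩),.k,⟨false,1,⟨1,[(9,0),
  (15,1),(2,0)]⟩,⟨0,[(4,0),(7,0),(14,0)]⟩⟩,⟨true,0,⟨0,[(11,0)]⟩,⟨0,[(3,0),(8,0),(4,0)]⟩⟩,⟨true,0,⟨0,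
  [(31,0)]⟩,⟨0,[]⟩⟩,⟨false,0,⟨0,[(4,0),(6,0),(0,0),(14,0)]⟩,⟨0,[(1,0),(25,0)]⟩⟩,⟨false,0,⟨0,[(27,
  0)]⟩,⟨0,[(26,0),(2,0)]⟩⟩,⟨false,0,⟨0,[(4,0),(6,0),(0,0),(14,1)]⟩,⟨0,[(1,0)]⟩⟩,[.o ⟨false,0,⟨0,
  [(27,0)]⟩,⟨5,[(1,1),(2,1),(4,0),(0,0),(11,1),(3,1)]⟩⟩,.o ⟨false,1,⟨3,[(9,0),(0,0),(16,3),(1,1)]⟩,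
  ⟨0,[(3,0),(13,0),(7,0)]⟩⟩,.o ⟨false,1,⟨1,[(12,1),(9,0),(5,0)]⟩,⟨0,[(3,0),(7,0),(5,0)]⟩⟩,.a ⟨true,
  0,⟨0,[(12,0)]⟩,⟨0,[(11,0)]⟩⟩ ⟨false,1,⟨1,[(9,0),(18,0)]⟩,⟨0,[(4,0),(7,0)]⟩⟩ ⟨true,0,⟨0,[(11,0),
  (15,0)]⟩,⟨1,[(1,0),(4,0),(0,0),(4,0),(0,0),(3,0)]⟩⟩]⟩) (.Q [0,0,0,0,0,1,0,0,0,-1,1] (.ed false [0,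
  1,1] .k) (.R ⟨0,false,false,false,[-1,1,1],[0,1],[],(⟨0,[(0,0)]⟩,⟨0,[(21,0),(2,0)]⟩),(⟨0,[(25,
  0)]⟩,⟨0,[(24,0)]⟩),⟨0,[(21,0)]⟩,.k,.k,.k,.k,.k,.k,⟨false,1,⟨2,[(2,0),(4,0),(4,0),(16,1)]⟩,⟨1,[(18,
  0),(0,0),(8,1)]⟩⟩,⟨true,0,⟨0,[(4,0)]⟩,⟨0,[(12,0),(0,0),(4,0)]⟩⟩,⟨true,1,⟨15,[(1,5),(0,1),(0,11),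
  (2,9),(0,11),(6,9),(2,5),(0,15),(10,0),(0,2)]⟩,⟨0,[(8,0)]⟩⟩,⟨false,1,⟨0,[(14,0),(15,0)]⟩,⟨1,[(9,
  0),(2,0),(0,0)]⟩⟩,⟨false,0,⟨0,[]⟩,⟨0,[]⟩⟩,⟨false,0,⟨0,[]⟩,⟨0,[]⟩⟩,[.o ⟨false,0,⟨0,[(28,0)]⟩,⟨5,
  [(2,1),(2,1),(4,0),(0,0),(11,1),(3,1)]⟩⟩,.o ⟨false,1,⟨3,[(10,0),(0,0),(16,3),(1,1)]⟩,⟨0,[(4,0),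
  (13,0),(7,0)]⟩⟩,.o ⟨false,1,⟨10,[(1,3),(4,1),(2,0),(1,0),(0,1),(4,1),(0,10),(5,7),(4,7)]⟩,⟨0,[(4,
  1),(13,0)]⟩⟩,.a ⟨true,0,⟨0,[(1,0),(16,0),(5,1)]⟩,⟨0,[(4,0)]⟩⟩ ⟨false,1,⟨1,[(29,0),(0,0)]⟩,⟨1,[(18,
  0),(0,0)]⟩⟩ ⟨true,0,⟨0,[(4,0),(23,0)]⟩,⟨1,[(1,0),(16,1),(5,1),(1,0),(0,0)]⟩⟩]⟩) (.I [1,0,-1,-1,0,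
  0,0,1] (.R ⟨0,false,false,false,[0,1,-1],[1,0,-1],[1],(⟨0,[(1,0),(0,0),(2,0),(13,0)]⟩,⟨0,[(23,0),
  (1,0)]⟩),(⟨0,[(22,0)]⟩,⟨0,[(23,0)]⟩),⟨0,[(23,0)]⟩,.k,.k,.k,.k,.k,.k,⟨false,0,⟨0,[(0,0),(28,0)]⟩,
  ⟨1,[(18,1),(0,1),(10,0),(0,0)]⟩⟩,⟨true,0,⟨0,[(5,0),(13,0)]⟩,⟨0,[(13,0),(0,0)]⟩⟩,⟨true,0,⟨0,[(0,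
  0)]⟩,⟨0,[(18,0),(0,0),(9,0)]⟩⟩,⟨false,1,⟨3,[(3,1),(2,1),(17,0),(6,0)]⟩,⟨0,[(13,0),(0,0),(14,0)]⟩⟩,
  ⟨false,0,⟨0,[]⟩,⟨0,[]⟩⟩,⟨false,0,⟨0,[]⟩,⟨0,[]⟩⟩,[.o ⟨false,1,⟨1,[(18,1),(5,0),(6,0)]⟩,⟨0,[(0,0),
  (18,0),(9,0)]⟩⟩,.o ⟨false,1,⟨0,[(15,0),(15,0)]⟩,⟨0,[(17,0)]⟩⟩,.a ⟨true,0,⟨0,[(2,0),(2,0),(19,1)]⟩,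
  ⟨0,[(19,0)]⟩⟩ ⟨true,0,⟨0,[]⟩,⟨0,[(33,0)]⟩⟩ ⟨false,1,⟨0,[(15,0),(3,0),(11,0)]⟩,⟨1,[(0,0),(1,0),(18,
  0),(3,1),(3,0)]⟩⟩,.o ⟨false,0,⟨2,[(2,0),(2,1),(14,0),(4,1)]⟩,⟨1,[(19,1),(4,0),(5,0)]⟩⟩]⟩) (.R ⟨0,
  false,false,false,[0,1,-1],[1,0,-1],[0,1],(⟨0,[(1,0),(0,0),(2,0),(13,0)]⟩,⟨0,[(23,0),(1,0)]⟩),(⟨0,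
  [(22,0)]⟩,⟨0,[(23,0)]⟩),⟨0,[(23,0)]⟩,.k,.k,.k,.k,.k,.k,⟨false,0,⟨1,[(9,0),(11,0),(5,0),(2,0)]⟩,⟨5,
  [(0,5),(2,1),(4,1),(4,1),(16,0),(0,2)]⟩⟩,⟨true,0,⟨0,[(5,0),(13,0)]⟩,⟨0,[(13,0),(0,0)]⟩⟩,⟨true,0,
  ⟨0,[(21,0),(5,0)]⟩,⟨0,[(0,0)]⟩⟩,⟨false,1,⟨3,[(3,1),(2,1),(17,0),(6,0)]⟩,⟨8,[(0,1),(1,3),(7,0),(9,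
  1),(4,7),(3,6)]⟩⟩,⟨false,0,⟨0,[]⟩,⟨0,[]⟩⟩,⟨false,0,⟨0,[]⟩,⟨0,[]⟩⟩,[.e ⟨false,0,⟨0,[(27,0),(1,0)]⟩,
  ⟨3,[(11,0),(0,0),(18,1)]⟩⟩ ⟨false,1,⟨5,[(0,5),(2,1),(4,1),(4,1),(10,2),(5,0)]⟩,⟨1,[(2,0),(1,0),(2,
  0),(0,0),(0,0),(11,0),(3,0)]⟩⟩,.o ⟨false,1,⟨0,[(15,0),(15,0)]⟩,⟨0,[(17,0)]⟩⟩,.a ⟨true,0,⟨0,[(2,0),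
  (2,0),(19,1)]⟩,⟨0,[(19,0)]⟩⟩ ⟨true,0,⟨0,[(33,0)]⟩,⟨0,[]⟩⟩ ⟨false,1,⟨3,[(0,3),(2,1),(2,1),(17,0),
  (6,0)]⟩,⟨1,[(2,0),(1,0),(2,0),(0,0),(0,0),(11,0),(3,0)]⟩⟩,.o ⟨false,0,⟨2,[(2,0),(2,1),(14,0),(4,
  1)]⟩,⟨1,[(19,1),(4,0),(5,0)]⟩⟩]⟩))))))))))

theorem ok3 : chk (cU (-1) true 3) t3 r0 = true := by decide +kernel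

noncomputable def t4 : Tre :=
  .I [0,-1,-1,-1,1,0,0,-1] t2 t3

theorem ok4 : chk (cU (-1) true 3) t4 base = true :=
  chk_I (e' := [1,1,1,1,-1,0,0,1]) (by decide +kernel) (by decide +kernel) ok2 ok3

theorem ok : chkB (cU (-1) true 3) (fax (fcU (-1)) true 1 (-1) 3 true (tU true)) t4 base = true :=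
  chkB_of (by decide +kernel) ok4

end Helper11.CT.T1_1_m1_1_u
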