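import Pool.Agent.Helper11.CT.Cfg
import Pool.Agent.Helper11.CT.Cut

set_option autoImplicit false
set_option linter.all false

namespace Helper11.CT.T1_1_m1_1_v

open Helper11.CT

noncomputable def base : List Con :=
  [(false,[0,0,0,0,0,0,2,2,0,1,-2]),
  (true,[0,0,0,0,1,0,0,0,-2]),
  (true,[0,0,0,0,1,0,0,0,2]),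
  (false,[0,0,0,0,0,0,0,0,0,1,0,-2]),
  (false,[0,0,0,0,0,0,0,0,0,0,0,1]),
  (false,[0,1,0,0,0,0,-1,-1,0,-1,1]),
  (false,[0,0,1,0,0,0,-1,0,0,-1,1]),
  (false,[0,1,0,0,0,0,1,1,0,0,-1]),
  (false,[0,1,0,0,0,0,-1,-1,0,0,1]),
  (false,[0,0,1,0,0,0,1,0,0,0,-1]),
  (false,[0,0,1,0,0,0,-1,0,0,0,1]),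
  (true,[0,0,0,0,0,0,0,1]),
  (false,[0,0,0,0,0,0,0,0,0,1,-1]),
  (false,[0,0,0,0,0,0,0,0,0,0,1]),
  (false,[0,0,0,0,1,0,0,0,0,-2]),
  (false,[0,0,0,0,0,-1,0,0,0,1]),
  (true,[0,0,0,0,0,1]),
  (true,[0,1,-1,-1]),
  (true,[0,1,0,-1]),
  (true,[0,0,0,1]),
  (true,[0,0,-2,0,1]),
  (true,[0,-2,0,0,1]),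
  (true,[-1,0,1]),
  (true,[-1,1])]

noncomputable def l0 : List Con := (false, [0,0,0,0,0,-1,0,0,0,0,1]) :: base

noncomputable def r0 : List Con := (false, [0,0,0,0,0,1,0,0,0,0,-1]) :: base

noncomputable def t0 : Tre :=
  (.Q [0,1,0,-1,0,0,0,0,0,-1] (.pp true [-1,1]) (.Q [0,0,0,0,0,0,1,0,0,1,-1] (.p false [0,0,1] [1]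
  (⟨0,[(15,0)]⟩,⟨0,[(14,0)]⟩) .k 1 (⟨0,[]⟩,⟨0,[]⟩) .k .k) (.Q [0,0,0,1,0,0,-1,-1,0,0,1] (.p true [0,
  0,1] [] (⟨0,[(16,0)]⟩,⟨0,[(15,0)]⟩) .k 0 (⟨0,[]⟩,⟨0,[]⟩) .k .k) (.Q [0,0,0,0,0,0,-1,0,0,0,1] (.p
  true [0,0,1] [] (⟨0,[(17,0)]⟩,⟨0,[(16,0)]⟩) .k 0 (⟨0,[]⟩,⟨0,[]⟩) .k .k) (.K ⟨0,[0,-1,1],0,0,(⟨0,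
  [(4,0)]⟩,⟨0,[(17,0),(3,0)]⟩),.k,(.r (-1) ⟨0,[(16,0),(5,1),(3,0)]⟩ ⟨1,[(1,1),(12,2),(0,0),(8,1)]⟩),
  .k,.k,.k,[⟨0,[(0,0)]⟩,⟨0,[(2,0)]⟩,⟨0,[(1,0),(26,0)]⟩,⟨1,[(3,0),(1,0),(17,0)]⟩]⟩) (.Q [0,1,0,-1,0,
  0,-1,-1,0,-1,1] (.p true [0,0,1] [1] (⟨0,[(18,0)]⟩,⟨0,[(17,0)]⟩) .k 1 (⟨0,[]⟩,⟨0,[]⟩) .k .k) (.Q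
  [0,0,0,0,0,1,0,0,0,-1,1] (.ed false [0,1,1] .k) (.Q [0,-1,0,1,0,0,1,1,0,2,-1] (.p false [-1,1,1]
  [1] (⟨0,[(0,0)]⟩,⟨0,[(19,0),(2,0)]⟩) .k 1 (⟨0,[]⟩,⟨0,[]⟩) .k .k) (.R ⟨2,false,false,false,[0,1],
  [-1,1,1],[1,0,1],(⟨0,[]⟩,⟨0,[]⟩),(⟨0,[(1,0)]⟩,⟨0,[(20,0),(2,0)]⟩),⟨0,[]⟩,.k,.k,.k,.k,.k,.k,⟨false,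
  1,⟨1,[(2,1),(2,1),(22,0),(0,0)]⟩,⟨0,[(19,0),(7,0)]⟩⟩,⟨true,0,⟨0,[(5,0)]⟩,⟨0,[(14,0)]⟩⟩,⟨false,1,
  ⟨0,[(26,0),(2,0)]⟩,⟨0,[(27,0)]⟩⟩,⟨true,0,⟨2,[(0,0),(7,0),(17,0)]⟩,⟨0,[(13,0)]⟩⟩,⟨true,0,⟨0,[]⟩,⟨0,
  [(31,0)]⟩⟩,⟨true,0,⟨1,[(0,0),(14,0),(11,0)]⟩,⟨0,[(2,0)]⟩⟩,[.o ⟨false,0,⟨1,[(0,0),(14,0),(11,0)]⟩,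
  ⟨1,[(2,1),(19,0),(6,0)]⟩⟩,.a ⟨true,0,⟨0,[(0,0)]⟩,⟨0,[(2,0)]⟩⟩ ⟨false,1,⟨3,[(9,0),(0,0),(18,1)]⟩,
  ⟨0,[(25,0),(1,0)]⟩⟩ ⟨true,0,⟨0,[(0,0),(2,0),(10,0)]⟩,⟨0,[(2,0)]⟩⟩,.o ⟨false,1,⟨3,[(9,0),(0,0),(17,
  1)]⟩,⟨0,[(3,0),(10,0)]⟩⟩,.e ⟨true,0,⟨0,[]⟩,⟨0,[(31,0)]⟩⟩ ⟨true,0,⟨1,[(0,0),(14,0),(11,0)]⟩,⟨0,[(2,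
  0)]⟩⟩]⟩) (.I [0,0,-2,-2,1,0,0,-1] (.K ⟨2,[-1,1,1],0,0,(⟨0,[(2,0)]⟩,⟨0,[(21,0),(2,0)]⟩),.k,.k,(.r
  0 ⟨1,[(9,0),(5,0),(2,0),(0,1),(8,3)]⟩ ⟨0,[(0,0)]⟩),.k,.k,[⟨1,[(5,1),(3,0),(11,0),(0,0)]⟩,⟨0,[(3,
  0)]⟩,⟨1,[(15,1),(2,0),(0,0)]⟩,⟨0,[(6,0)]⟩]⟩) (.K ⟨2,[-1,1,1],0,0,(⟨0,[(2,0)]⟩,⟨0,[(21,0),(2,0)]⟩),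
  .k,.k,(.x (-1) ⟨0,[(2,0),(3,0),(18,0),(3,0)]⟩ ⟨0,[(0,0),(0,0),(5,0),(13,0),(2,1),(5,0)]⟩),.k,.k,
  [⟨1,[(5,1),(3,0),(11,0),(0,0)]⟩,⟨0,[(3,0)]⟩,⟨1,[(15,1),(2,0),(0,0)]⟩,⟨0,[(6,0)]⟩]⟩))) (.I [0,0,-2,
  -2,1,0,0,-1] (.K ⟨2,[0,1,1],0,0,(⟨0,[(21,0),(2,0)]⟩,⟨0,[(1,0)]⟩),.k,.k,(.r 0 ⟨1,[(8,0),(5,0),(2,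
  0),(0,1),(8,3)]⟩ ⟨0,[(0,0)]⟩),.k,.k,[⟨0,[(27,0)]⟩,⟨0,[(2,0),(17,0),(0,0)]⟩,⟨1,[(17,0),(0,2)]⟩,⟨0,
  [(3,0)]⟩]⟩) (.K ⟨2,[0,1,1],0,0,(⟨0,[(21,0),(2,0)]⟩,⟨0,[(1,0)]⟩),.k,.k,(.x (-1) ⟨0,[(3,0),(17,0),
  (2,1),(3,0)]⟩ ⟨1,[(1,2),(5,0),(6,2),(2,0)]⟩),.k,.k,[⟨0,[(27,0)]⟩,⟨0,[(2,0),(17,0),(0,0)]⟩,⟨1,[(17,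
  0),(0,2)]⟩,⟨0,[(3,0)]⟩]⟩))) (.R ⟨2,true,false,true,[0,1],[1,0,-1],[1,1,1],(⟨0,[]⟩,⟨0,[]⟩),(⟨0,
  [(18,0)]⟩,⟨0,[(19,0)]⟩),⟨0,[]⟩,.k,.k,.k,.k,.k,.k,⟨false,0,⟨0,[(17,0)]⟩,⟨1,[(1,1),(12,1),(11,0),(0,
  0)]⟩⟩,⟨true,0,⟨0,[(12,0)]⟩,⟨0,[(3,0)]⟩⟩,⟨true,0,⟨0,[(24,0)]⟩,⟨0,[(25,0)]⟩⟩,⟨false,1,⟨0,[(4,0),(9,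
  0),(12,0)]⟩,⟨0,[(0,0)]⟩⟩,⟨false,0,⟨0,[]⟩,⟨3,[(7,0),(0,0),(18,1)]⟩⟩,⟨true,0,⟨0,[(11,0)]⟩,⟨1,[(6,0),
  (11,0),(0,0)]⟩⟩,[]⟩))) (.Q [0,1,0,-1,0,0,-1,-1,0,-1,1] (.p true [0,0,1] [1] (⟨0,[(17,0)]⟩,⟨0,[(16,
  0)]⟩) .k 1 (⟨0,[]⟩,⟨0,[]⟩) .k .k) (.Q [0,0,0,0,0,0,1,0,0,0,-1] (.p false [0,0,1] [] (⟨0,[(18,0)]⟩,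
  ⟨0,[(17,0)]⟩) .k 0 (⟨0,[]⟩,⟨0,[]⟩) .k .k) (.Q [0,0,0,0,0,1,0,0,0,-1,1] (.ed false [0,1,1] .k) (.I
  [0,0,-2,-2,1,0,0,-1] (.K ⟨2,[-1,1,1],0,0,(⟨0,[(1,0)]⟩,⟨0,[(20,0),(2,0)]⟩),.k,.k,(.r 0 ⟨1,[(8,0),
  (5,0),(2,0),(0,1),(8,3)]⟩ ⟨0,[(0,0)]⟩),.k,.k,[⟨0,[(20,0),(0,0),(5,0)]⟩,⟨0,[(3,0)]⟩,⟨1,[(14,1),(2,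
  0),(0,0)]⟩,⟨0,[(5,0)]⟩]⟩) (.Q [0,-1,0,1,0,0,1,1,0,2,-1] (.p false [-1,1,1] [1] (⟨0,[(1,0)]⟩,⟨0,
  [(20,0),(2,0)]⟩) .k 1 (⟨0,[]⟩,⟨0,[]⟩) .k .k) (.R ⟨2,false,false,false,[0,1],[-1,1,1],[1,0,1],(⟨0,
  []⟩,⟨0,[]⟩),(⟨0,[(2,0)]⟩,⟨0,[(21,0),(2,0)]⟩),⟨0,[]⟩,.k,.k,.k,.k,.k,.k,⟨false,1,⟨1,[(4,1),(1,1),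
  (22,0),(0,0)]⟩,⟨1,[(1,0),(18,0),(8,0)]⟩⟩,⟨true,0,⟨0,[(6,0)]⟩,⟨0,[(15,0)]⟩⟩,⟨false,1,⟨0,[(27,0),(2,
  0)]⟩,⟨0,[(28,0)]⟩⟩,⟨true,0,⟨2,[(0,0),(8,0),(17,0)]⟩,⟨0,[(14,0)]⟩⟩,⟨true,0,⟨0,[]⟩,⟨0,[(32,0)]⟩⟩,
  ⟨true,0,⟨1,[(0,0),(15,0),(11,0)]⟩,⟨0,[(4,0)]⟩⟩,[.o ⟨false,0,⟨1,[(0,0),(15,0),(11,0)]⟩,⟨1,[(4,1),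
  (18,0),(6,0)]⟩⟩,.a ⟨true,0,⟨0,[(0,0)]⟩,⟨0,[(4,0)]⟩⟩ ⟨false,1,⟨3,[(10,0),(0,0),(18,1)]⟩,⟨0,[(26,0),
  (1,0)]⟩⟩ ⟨true,0,⟨13,[(0,5),(0,3),(7,1),(8,4),(0,0),(10,3)]⟩,⟨0,[(4,0)]⟩⟩,.o ⟨false,1,⟨3,[(10,0),
  (0,0),(17,1)]⟩,⟨0,[(3,0),(11,0)]⟩⟩,.e ⟨true,0,⟨0,[]⟩,⟨0,[(32,0)]⟩⟩ ⟨true,0,⟨1,[(0,0),(15,0),(11,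
  0)]⟩,⟨0,[(4,0)]⟩⟩]⟩) (.K ⟨2,[-1,1,1],0,0,(⟨0,[(2,0)]⟩,⟨0,[(21,0),(2,0)]⟩),.k,.k,(.x (-1) ⟨0,[(2,
  0),(3,0),(18,0),(3,0)]⟩ ⟨15,[(0,17),(0,11),(3,5),(9,5),(2,1),(2,15),(1,2),(0,31),(5,8)]⟩),.k,.k,
  [⟨0,[(21,0),(0,0),(5,0)]⟩,⟨0,[(4,0)]⟩,⟨1,[(15,1),(2,0),(0,0)]⟩,⟨0,[(6,0)]⟩]⟩))) (.I [0,0,-2,-2,1,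
  0,0,-1] (.K ⟨2,[0,1,1],0,0,(⟨0,[(21,0),(2,0)]⟩,⟨0,[(1,0)]⟩),.k,.k,(.r 0 ⟨1,[(8,0),(5,0),(2,0),(0,
  1),(8,3)]⟩ ⟨0,[(0,0)]⟩),.k,.k,[⟨0,[(27,0)]⟩,⟨0,[(3,0),(16,0),(0,0)]⟩,⟨1,[(17,0),(0,2)]⟩,⟨0,[(2,
  0)]⟩]⟩) (.K ⟨2,[0,1,1],0,0,(⟨0,[(21,0),(2,0)]⟩,⟨0,[(1,0)]⟩),.k,.k,(.x (-1) ⟨0,[(2,0),(18,0),(2,1),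
  (3,0)]⟩ ⟨1,[(1,2),(5,0),(6,2),(2,0)]⟩),.k,.k,[⟨0,[(27,0)]⟩,⟨0,[(3,0),(16,0),(0,0)]⟩,⟨1,[(17,0),(0,
  2)]⟩,⟨0,[(2,0)]⟩]⟩))) (.R ⟨1,false,false,true,[0,0,1],[1,-1],[0,1,0,0,0,0,0,1],(⟨0,[(19,0)]⟩,⟨0,
  [(18,0)]⟩),(⟨0,[(21,0)]⟩,⟨0,[(22,0)]⟩),⟨0,[(5,0)]⟩,.k,.k,.k,.k,.k,.k,⟨false,0,⟨0,[(17,0),(7,0)]⟩,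
  ⟨1,[(1,1),(1,1),(22,0),(0,0)]⟩⟩,⟨true,0,⟨0,[(12,0)]⟩,⟨0,[(3,0)]⟩⟩,⟨true,0,⟨0,[(29,0)]⟩,⟨0,[]⟩⟩,
  ⟨true,0,⟨0,[(1,0)]⟩,⟨1,[(6,0),(11,0),(0,0),(5,1)]⟩⟩,⟨false,0,⟨0,[(25,0)]⟩,⟨0,[(24,0),(2,0)]⟩⟩,
  ⟨true,0,⟨0,[(11,0)]⟩,⟨1,[(6,0),(11,0),(0,0)]⟩⟩,[.o ⟨false,0,⟨0,[(4,0)]⟩,⟨3,[(7,0),(0,0),(16,3),(1,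
  1)]⟩⟩,.o ⟨false,1,⟨3,[(4,3),(2,0),(0,0),(18,1)]⟩,⟨0,[(25,0)]⟩⟩,.a ⟨true,0,⟨0,[(3,0)]⟩,⟨0,[(0,
  0)]⟩⟩ ⟨false,0,⟨0,[(17,0)]⟩,⟨0,[(3,0),(7,0),(15,0)]⟩⟩ ⟨true,0,⟨0,[(0,0),(3,0)]⟩,⟨0,[(3,0),(21,
  0)]⟩⟩,.o ⟨false,0,⟨0,[(15,0)]⟩,⟨1,[(0,1),(19,0),(5,0)]⟩⟩]⟩)) (.R ⟨2,true,false,true,[0,1],[1,0,
  -1],[1,1,1],(⟨0,[]⟩,⟨0,[]⟩),(⟨0,[(17,0)]⟩,⟨0,[(18,0)]⟩),⟨0,[]⟩,.k,.k,.k,.k,.k,.k,⟨false,0,⟨0,[(16,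
  0)]⟩,⟨1,[(2,1),(7,1),(14,0),(0,0)]⟩⟩,⟨true,0,⟨0,[(11,0)]⟩,⟨0,[(2,0)]⟩⟩,⟨true,0,⟨0,[(23,0)]⟩,⟨0,
  [(24,0)]⟩⟩,⟨false,1,⟨0,[(3,0),(9,0),(12,0)]⟩,⟨0,[(0,0)]⟩⟩,⟨false,0,⟨0,[]⟩,⟨3,[(6,0),(0,0),(18,
  1)]⟩⟩,⟨true,0,⟨0,[(10,0)]⟩,⟨1,[(5,0),(11,0),(0,0)]⟩⟩,[]⟩))) (.Q [0,0,0,0,0,0,1,1,0,0,-1] (.p
  false [0,0,1] [] (⟨0,[(16,0)]⟩,⟨0,[(15,0)]⟩) .k 0 (⟨0,[]⟩,⟨0,[]⟩) .k .k) (.Q [0,0,0,-1,0,0,1,1,0,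
  0,-1] (.p false [0,0,1] [] (⟨0,[(17,0)]⟩,⟨0,[(16,0)]⟩) .k 0 (⟨0,[]⟩,⟨0,[]⟩) .k .k) (.Q [0,0,0,0,0,
  1,0,0,0,-1,1] (.ed false [0,1,1] .k) (.Q [0,0,0,0,0,0,1,0,0,2,-1] (.p false [-1,1,1] [1] (⟨0,[(0,
  0)]⟩,⟨0,[(18,0),(2,0)]⟩) .k 1 (⟨0,[]⟩,⟨0,[]⟩) .k .k) (.I [1,-1,0,1,0,0,0,1] (.R ⟨0,false,false,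
  false,[-1,1,1],[0,1],[1,0,1,1,0,0,0,1],(⟨0,[(2,0)]⟩,⟨0,[(20,0),(2,0)]⟩),(⟨0,[(24,0)]⟩,⟨0,[(23,
  0)]⟩),⟨0,[(20,0)]⟩,.k,.k,.k,.k,.k,.k,⟨false,0,⟨0,[(0,0),(24,0)]⟩,⟨1,[(16,1),(0,1),(10,0),(0,0)]⟩⟩,
  ⟨true,0,⟨0,[(5,0)]⟩,⟨3,[(1,1),(15,2),(0,0)]⟩⟩,⟨true,0,⟨0,[]⟩,⟨0,[(31,0)]⟩⟩,⟨false,1,⟨0,[(13,0),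
  (15,0)]⟩,⟨2,[(1,0),(6,0),(10,0)]⟩⟩,⟨false,0,⟨0,[]⟩,⟨0,[]⟩⟩,⟨false,0,⟨0,[]⟩,⟨0,[]⟩⟩,[.o ⟨false,0,
  ⟨0,[(27,0)]⟩,⟨3,[(6,3),(2,0),(0,0),(18,1)]⟩⟩,.o ⟨false,1,⟨3,[(9,0),(0,0),(16,3),(1,1)]⟩,⟨0,[(6,
  0)]⟩⟩,.o ⟨false,1,⟨1,[(1,1),(20,0),(5,0)]⟩,⟨0,[(5,1),(11,0)]⟩⟩,.a ⟨true,0,⟨0,[(1,0)]⟩,⟨0,[(5,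
  0)]⟩⟩ ⟨false,0,⟨0,[(0,0)]⟩,⟨0,[(1,0),(4,0),(6,0),(15,0)]⟩⟩ ⟨true,0,⟨0,[(5,0),(21,0)]⟩,⟨0,[(1,0),
  (4,0)]⟩⟩]⟩) (.R ⟨0,false,false,false,[-1,1,1],[0,1],[1,1,1],(⟨0,[(2,0)]⟩,⟨0,[(20,0),(2,0)]⟩),(⟨0,
  [(24,0)]⟩,⟨0,[(23,0)]⟩),⟨0,[(20,0)]⟩,.k,.k,.k,.k,.k,.k,⟨false,0,⟨0,[(25,0)]⟩,⟨3,[(9,0),(0,0),(16,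
  3),(1,1)]⟩⟩,⟨true,0,⟨0,[(5,0)]⟩,⟨3,[(1,1),(15,2),(0,0)]⟩⟩,⟨true,0,⟨0,[(0,0)]⟩,⟨0,[(19,0),(7,0)]⟩⟩,
  ⟨false,1,⟨0,[(13,0),(15,0)]⟩,⟨2,[(1,0),(6,0),(10,0)]⟩⟩,⟨false,0,⟨0,[]⟩,⟨0,[]⟩⟩,⟨false,0,⟨0,[]⟩,⟨0,
  []⟩⟩,[.o ⟨false,0,⟨0,[(27,0)]⟩,⟨3,[(6,3),(2,0),(0,0),(18,1)]⟩⟩,.o ⟨false,1,⟨3,[(9,0),(0,0),(16,3),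
  (1,1)]⟩,⟨0,[(6,0)]⟩⟩,.o ⟨false,1,⟨1,[(1,1),(20,0),(5,0)]⟩,⟨0,[(5,1),(11,0)]⟩⟩,.a ⟨true,0,⟨0,[(1,
  0)]⟩,⟨0,[(5,0)]⟩⟩ ⟨false,0,⟨0,[]⟩,⟨3,[(9,0),(0,0),(18,1)]⟩⟩ ⟨true,0,⟨0,[(5,0),(21,0)]⟩,⟨2,[(0,1),
  (0,0),(6,0),(17,0)]⟩⟩]⟩)) (.Q [0,0,0,0,0,0,-1,-1,-1,-1,1,1] (.p true [0,0,1] [1,0,0,-1] (⟨0,[(20,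
  0)]⟩,⟨0,[(19,0)]⟩) .k 2 (⟨1,[(10,0),(8,0),(0,0)]⟩,⟨0,[(11,0)]⟩) .k (.x (-1) ⟨3,[(8,0),(0,0),(6,3),
  (3,3),(6,1)]⟩ ⟨0,[(4,0),(14,0)]⟩)) (.Q [0,0,0,0,0,1,0,0,0,0,0,-1] (.p false [0,0,0,1] [] (⟨0,[(12,
  0)]⟩,⟨1,[(11,0),(8,0),(0,0)]⟩) .k 0 (⟨0,[]⟩,⟨0,[]⟩) .k .k) (.R ⟨0,false,false,true,[0,0,0,1],[1,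
  -1],[1,0,0,0,0,0,0,0,1],(⟨0,[(13,0)]⟩,⟨1,[(12,0),(8,0),(0,0)]⟩),(⟨0,[(24,0)]⟩,⟨0,[(25,0)]⟩),⟨0,
  [(0,0)]⟩,.k,.k,(.r (-1) ⟨1,[(11,0),(14,1),(3,0)]⟩ ⟨1,[(1,1),(7,0),(2,0),(5,0),(0,0),(8,1)]⟩),(.x
  (-1) ⟨3,[(10,0),(0,0),(13,3),(3,1)]⟩ ⟨2,[(2,0),(12,0),(2,1),(5,2)]⟩),.k,.k,⟨false,1,⟨1,[(11,0),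
  (16,1),(1,0)]⟩,⟨1,[(1,1),(7,0),(2,0),(13,1)]⟩⟩,⟨true,0,⟨2,[(2,0),(10,2),(1,0),(2,1)]⟩,⟨1,[(12,0),
  (8,0),(0,0)]⟩⟩,⟨true,0,⟨0,[]⟩,⟨0,[(32,0)]⟩⟩,⟨false,0,⟨0,[(1,0),(2,0)]⟩,⟨1,[(11,0),(0,0),(8,0),(0,
  0),(5,1),(1,0)]⟩⟩,⟨false,0,⟨0,[]⟩,⟨0,[]⟩⟩,⟨false,0,⟨0,[]⟩,⟨0,[]⟩⟩,[.o ⟨false,0,⟨0,[(7,0)]⟩,⟨3,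
  [(10,0),(0,0),(16,3),(1,1)]⟩⟩,.o ⟨false,1,⟨3,[(7,3),(2,0),(0,0),(18,1)]⟩,⟨0,[(28,0)]⟩⟩,.a ⟨true,0,
  ⟨1,[(12,0),(8,0),(0,0)]⟩,⟨0,[(13,0)]⟩⟩ ⟨false,1,⟨1,[(11,0),(18,0)]⟩,⟨1,[(1,1),(7,0),(2,0)]⟩⟩
  ⟨true,0,⟨0,[(7,0),(5,0)]⟩,⟨1,[(12,0),(8,0),(0,0),(5,1)]⟩⟩,.o ⟨false,0,⟨1,[(12,0),(2,0),(2,0)]⟩,⟨1,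
  [(13,1),(9,0),(5,0)]⟩⟩]⟩) (.R ⟨1,false,false,true,[0,0,0,1],[1,-1],[0,0,0,0,0,0,0,0,1],(⟨0,[(13,
  0)]⟩,⟨1,[(12,0),(8,0),(0,0)]⟩),(⟨0,[(24,0)]⟩,⟨0,[(25,0)]⟩),⟨0,[(0,0)]⟩,.k,.k,(.r (-1) ⟨1,[(11,0),
  (14,1),(3,0)]⟩ ⟨1,[(1,1),(7,0),(2,0),(5,0),(0,0),(8,1)]⟩),(.x (-1) ⟨3,[(10,0),(0,0),(13,3),(3,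
  1)]⟩ ⟨1,[(0,1),(11,0),(2,0),(2,0)]⟩),.k,.k,⟨false,1,⟨1,[(11,0),(16,1),(1,0)]⟩,⟨1,[(1,1),(7,0),(2,
  0),(13,1)]⟩⟩,⟨true,0,⟨2,[(2,0),(10,2),(1,0),(2,1)]⟩,⟨1,[(12,0),(8,0),(0,0)]⟩⟩,⟨false,1,⟨3,[(10,0),
  (0,0),(18,1)]⟩,⟨0,[]⟩⟩,⟨false,0,⟨0,[(1,0),(2,0)]⟩,⟨1,[(11,0),(0,0),(8,0),(0,0),(5,1),(1,0)]⟩⟩,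
  ⟨true,0,⟨0,[(28,0)]⟩,⟨0,[(27,0)]⟩⟩,⟨false,0,⟨0,[(1,0),(3,0)]⟩,⟨1,[(11,0),(0,0),(8,0),(0,0),(7,
  0)]⟩⟩,[.o ⟨false,0,⟨0,[(7,0)]⟩,⟨3,[(10,0),(0,0),(16,3),(1,1)]⟩⟩,.o ⟨false,1,⟨3,[(7,3),(2,0),(0,0),
  (18,1)]⟩,⟨0,[(28,0)]⟩⟩,.a ⟨true,0,⟨1,[(12,0),(8,0),(0,0)]⟩,⟨0,[(13,0)]⟩⟩ ⟨false,1,⟨1,[(11,0),(18,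
  0)]⟩,⟨1,[(1,1),(7,0),(2,0)]⟩⟩ ⟨true,0,⟨0,[(7,0),(5,0)]⟩,⟨1,[(12,0),(8,0),(0,0),(5,1)]⟩⟩,.o ⟨false,
  0,⟨1,[(12,0),(2,0),(2,0)]⟩,⟨1,[(13,1),(9,0),(5,0)]⟩⟩]⟩)) (.Q [0,0,0,-1,0,0,1,1,1,1,-1,-1] (.p
  false [0,0,1] [1,0,0,-1] (⟨0,[(21,0)]⟩,⟨0,[(20,0)]⟩) .k 2 (⟨1,[(11,0),(8,0),(0,0)]⟩,⟨0,[(12,0)]⟩)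
  .k (.x (-1) ⟨3,[(9,0),(0,0),(6,3),(3,3),(6,1)]⟩ ⟨0,[(5,0),(14,0)]⟩)) (.I [0,0,1,1,0,0,0,0,-1] (.Q
  [0,0,0,0,0,0,-1,-1,1,0,1,-1] (.p true [0,0,1] [0,0,0,1] (⟨0,[(23,0)]⟩,⟨0,[(22,0)]⟩) .k 2 (⟨0,[(14,
  0)]⟩,⟨1,[(13,0),(8,0),(0,0)]⟩) .k (.x (-1) ⟨3,[(11,0),(0,0),(6,3),(3,3),(6,1)]⟩ ⟨0,[(7,0),(14,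
  0)]⟩)) (.K ⟨2,[0,0,0,1],0,0,(⟨0,[(15,0)]⟩,⟨1,[(14,0),(8,0),(0,0)]⟩),.k,(.r (-1) ⟨1,[(13,0),(14,1),
  (3,0)]⟩ ⟨0,[(1,0)]⟩),(.r 0 ⟨1,[(0,0),(2,0),(11,1),(1,0),(2,0),(9,1)]⟩ ⟨1,[(12,0),(15,1),(3,0)]⟩),
  .k,.k,[⟨0,[(0,0)]⟩,⟨0,[(1,0),(13,0),(12,0)]⟩,⟨1,[(15,1),(4,0),(0,0)]⟩,⟨1,[(14,0),(2,0),(2,0)]⟩]⟩)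
  (.Q [0,0,0,1,0,0,0,0,-1,0,0,1] (.p true [0,0,0,1] [] (⟨0,[(15,0)]⟩,⟨1,[(14,0),(8,0),(0,0)]⟩) .k 0
  (⟨0,[]⟩,⟨0,[]⟩) .k .k) (.Q [0,0,0,0,0,0,0,0,-1,0,0,1] (.p true [0,0,0,1] [] (⟨0,[(16,0)]⟩,⟨1,[(15,
  0),(8,0),(0,0)]⟩) .k 0 (⟨0,[]⟩,⟨0,[]⟩) .k .k) (.I [0,0,0,0,0,0,0,0,-1] (.I [1,0,-1,0,0,0,0,1] (.Q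
  [0,0,0,0,0,1,0,0,0,0,0,-1] (.p false [0,0,0,1] [] (⟨0,[(19,0)]⟩,⟨1,[(18,0),(8,0),(0,0)]⟩) .k 0
  (⟨0,[]⟩,⟨0,[]⟩) .k .k) (.R ⟨0,false,false,false,[0,0,0,1],[1,0,-1],[1],(⟨0,[(20,0)]⟩,⟨1,[(19,0),
  (8,0),(0,0)]⟩),(⟨0,[(28,0)]⟩,⟨0,[(29,0)]⟩),⟨0,[(0,0)]⟩,.k,.k,(.r (-1) ⟨1,[(18,0),(14,1),(3,0)]⟩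
  ⟨0,[(6,0)]⟩),.k,.k,.k,⟨false,0,⟨0,[(1,0)]⟩,⟨1,[(24,1),(0,1),(10,0),(0,0)]⟩⟩,⟨true,0,⟨0,[(13,0),(6,
  0)]⟩,⟨1,[(19,0),(5,1),(2,0),(0,0)]⟩⟩,⟨true,0,⟨0,[(2,0)]⟩,⟨0,[(8,0),(11,0),(0,0)]⟩⟩,⟨false,1,⟨0,
  [(3,0),(17,0),(15,0)]⟩,⟨0,[(8,0)]⟩⟩,⟨false,0,⟨0,[]⟩,⟨0,[]⟩⟩,⟨false,0,⟨0,[]⟩,⟨0,[]⟩⟩,[.o ⟨false,1,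
  ⟨1,[(24,1),(5,0),(6,0)]⟩,⟨0,[(12,0)]⟩⟩,.o ⟨false,1,⟨0,[(21,0),(15,0)]⟩,⟨0,[(23,0)]⟩⟩,.a ⟨true,0,
  ⟨1,[(19,0),(8,0),(0,0)]⟩,⟨0,[(20,0)]⟩⟩ ⟨true,0,⟨0,[]⟩,⟨0,[(39,0)]⟩⟩ ⟨false,1,⟨0,[(20,0),(0,0),(15,
  0)]⟩,⟨1,[(16,0),(2,0)]⟩⟩,.o ⟨false,0,⟨1,[(19,0),(2,0),(2,0)]⟩,⟨1,[(20,1),(9,0),(5,0)]⟩⟩]⟩) (.I [0,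
  1,0,1,0,0,0,-1,-1] (.R ⟨1,false,false,true,[0,0,0,1],[1,0,-1],[1,0,0,-1,0,0,0,0,1],(⟨0,[(21,0)]⟩,
  ⟨1,[(20,0),(8,0),(0,0)]⟩),(⟨0,[(29,0)]⟩,⟨0,[(30,0)]⟩),⟨0,[(1,0)]⟩,.k,.k,(.r (-1) ⟨1,[(19,0),(14,
  1),(3,0)]⟩ ⟨0,[(7,0)]⟩),.k,(.x 0 ⟨0,[(16,0),(9,0)]⟩ ⟨0,[(23,0),(5,0),(3,0),(3,0)]⟩),.k,⟨false,1,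
  ⟨3,[(2,1),(5,1),(5,1),(4,0),(1,1),(12,1),(3,2)]⟩,⟨0,[(0,0)]⟩⟩,⟨true,0,⟨0,[(14,0),(6,0)]⟩,⟨1,[(20,
  0),(5,1),(2,0),(0,0)]⟩⟩,⟨false,1,⟨0,[(35,0),(2,0)]⟩,⟨0,[(36,0)]⟩⟩,⟨true,0,⟨0,[(4,0),(17,0)]⟩,⟨0,
  [(9,0)]⟩⟩,⟨true,0,⟨0,[]⟩,⟨0,[(40,0)]⟩⟩,⟨true,0,⟨0,[(5,0),(16,0)]⟩,⟨0,[(8,0)]⟩⟩,[.o ⟨false,0,⟨0,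
  [(22,0)]⟩,⟨7,[(17,3),(0,0),(0,0),(11,1),(6,3)]⟩⟩,.o ⟨false,1,⟨1,[(25,1),(5,0),(6,0)]⟩,⟨0,[(13,
  0)]⟩⟩,.a ⟨true,0,⟨1,[(20,0),(8,0),(0,0)]⟩,⟨0,[(21,0)]⟩⟩ ⟨false,1,⟨0,[(8,0),(12,0),(0,0),(15,0)]⟩,
  ⟨0,[(3,0),(32,0)]⟩⟩ ⟨true,0,⟨0,[(21,0),(0,0)]⟩,⟨1,[(17,0),(2,0)]⟩⟩,.o ⟨false,0,⟨1,[(20,0),(2,0),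
  (2,0)]⟩,⟨1,[(21,1),(9,0),(5,0)]⟩⟩]⟩) (.R ⟨1,false,false,true,[1,0,0,-1],[1,-1],[0,1,0,0,0,0,0,0,
  -1],(⟨1,[(20,0),(8,0),(0,0)]⟩,⟨0,[(21,0)]⟩),(⟨0,[(32,0)]⟩,⟨0,[(33,0)]⟩),⟨0,[(1,0),(18,0)]⟩,.k,.k,
  (.r (-1) ⟨1,[(18,0),(15,1),(3,0)]⟩ ⟨0,[(0,0),(24,0),(0,0),(9,1)]⟩),(.r 0 ⟨0,[(7,0)]⟩ ⟨1,[(19,0),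
  (14,1),(3,0)]⟩),.k,.k,⟨false,0,⟨0,[(3,0),(32,0)]⟩,⟨1,[(19,0),(14,1),(3,0)]⟩⟩,⟨true,0,⟨1,[(20,0),
  (2,0),(2,0)]⟩,⟨0,[(21,0)]⟩⟩,⟨true,0,⟨0,[(40,0)]⟩,⟨0,[]⟩⟩,⟨true,0,⟨0,[(8,0),(13,0)]⟩,⟨0,[(5,0)]⟩⟩,
  ⟨false,0,⟨0,[(36,0)]⟩,⟨0,[(35,0),(2,0)]⟩⟩,⟨true,0,⟨0,[(9,0),(12,0)]⟩,⟨0,[(4,0)]⟩⟩,[.o ⟨false,0,⟨0,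
  [(15,0)]⟩,⟨3,[(18,0),(0,0),(16,3),(1,1)]⟩⟩,.o ⟨false,1,⟨3,[(15,3),(2,0),(0,0),(18,1)]⟩,⟨0,[(36,
  0)]⟩⟩,.a ⟨true,0,⟨0,[(21,0)]⟩,⟨1,[(20,0),(8,0),(0,0)]⟩⟩ ⟨false,0,⟨0,[(3,0)]⟩,⟨1,[(19,0),(18,0)]⟩⟩
  ⟨true,0,⟨1,[(15,0),(4,0),(14,0)]⟩,⟨0,[(21,0),(14,0)]⟩⟩,.o ⟨false,0,⟨2,[(10,0),(10,2),(1,0),(2,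
  1)]⟩,⟨7,[(18,0),(0,0),(0,3),(10,1),(5,3)]⟩⟩]⟩))) (.Q [0,0,0,0,0,1,0,0,0,0,0,-1] (.p false [0,0,0,
  1] [] (⟨0,[(19,0)]⟩,⟨1,[(18,0),(8,0),(0,0)]⟩) .k 0 (⟨0,[]⟩,⟨0,[]⟩) .k .k) (.R ⟨0,false,false,
  false,[0,0,0,1],[1,0,-1],[1,0,1,0,0,0,0,-1],(⟨0,[(20,0)]⟩,⟨1,[(19,0),(8,0),(0,0)]⟩),(⟨0,[(28,0)]⟩,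
  ⟨0,[(29,0)]⟩),⟨0,[(0,0)]⟩,.k,.k,(.r (-1) ⟨1,[(18,0),(14,1),(3,0)]⟩ ⟨0,[(6,0)]⟩),.k,.k,.k,⟨false,0,
  ⟨0,[]⟩,⟨3,[(17,0),(0,0),(17,1)]⟩⟩,⟨true,0,⟨0,[(13,0),(6,0)]⟩,⟨1,[(1,1),(14,0),(2,0)]⟩⟩,⟨true,0,⟨0,
  [(1,0),(0,0)]⟩,⟨0,[(8,0),(4,0),(6,0),(12,0),(1,0)]⟩⟩,⟨false,1,⟨0,[(3,0),(17,0),(15,0)]⟩,⟨0,[(8,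
  0)]⟩⟩,⟨false,0,⟨0,[]⟩,⟨0,[]⟩⟩,⟨false,0,⟨0,[]⟩,⟨0,[]⟩⟩,[.o ⟨false,1,⟨1,[(24,1),(5,0),(6,0)]⟩,⟨0,
  [(12,0)]⟩⟩,.o ⟨false,1,⟨0,[(21,0),(15,0)]⟩,⟨0,[(23,0)]⟩⟩,.a ⟨true,0,⟨1,[(19,0),(8,0),(0,0)]⟩,⟨0,
  [(20,0)]⟩⟩ ⟨true,0,⟨0,[(1,0)]⟩,⟨0,[(27,0),(5,0),(1,0)]⟩⟩ ⟨false,1,⟨0,[(20,0),(0,0),(15,0)]⟩,⟨1,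
  [(16,0),(2,0)]⟩⟩,.o ⟨false,0,⟨1,[(19,0),(2,0),(2,0)]⟩,⟨1,[(20,1),(9,0),(5,0)]⟩⟩]⟩) (.R ⟨1,false,
  false,true,[1,0,0,-1],[1,-1],[0,1,0,0,0,0,0,0,-1],(⟨1,[(19,0),(8,0),(0,0)]⟩,⟨0,[(20,0)]⟩),(⟨0,
  [(31,0)]⟩,⟨0,[(32,0)]⟩),⟨0,[(0,0),(18,0)]⟩,.k,.k,(.r (-1) ⟨1,[(17,0),(15,1),(3,0)]⟩ ⟨0,[(1,0),(6,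
  0),(4,0),(6,0),(14,0)]⟩),(.r 0 ⟨0,[(6,0)]⟩ ⟨1,[(18,0),(14,1),(3,0)]⟩),.k,.k,⟨false,0,⟨0,[(2,0),
  (32,0)]⟩,⟨1,[(18,0),(14,1),(3,0)]⟩⟩,⟨true,0,⟨1,[(19,0),(2,0),(2,0)]⟩,⟨0,[(20,0)]⟩⟩,⟨true,0,⟨0,
  [(39,0)]⟩,⟨0,[]⟩⟩,⟨true,0,⟨0,[(7,0),(13,0)]⟩,⟨0,[(4,0)]⟩⟩,⟨false,0,⟨0,[(35,0)]⟩,⟨0,[(34,0),(2,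
  0)]⟩⟩,⟨true,0,⟨0,[(8,0),(12,0)]⟩,⟨0,[(3,0)]⟩⟩,[.o ⟨false,0,⟨0,[(14,0)]⟩,⟨3,[(17,0),(0,0),(16,3),
  (1,1)]⟩⟩,.o ⟨false,1,⟨3,[(14,3),(2,0),(0,0),(18,1)]⟩,⟨0,[(35,0)]⟩⟩,.a ⟨true,0,⟨0,[(20,0)]⟩,⟨1,
  [(19,0),(8,0),(0,0)]⟩⟩ ⟨false,0,⟨0,[(2,0)]⟩,⟨1,[(18,0),(18,0)]⟩⟩ ⟨true,0,⟨1,[(14,0),(4,0),(14,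
  0)]⟩,⟨0,[(20,0),(14,0)]⟩⟩,.o ⟨false,0,⟨2,[(9,0),(10,2),(1,0),(2,1)]⟩,⟨7,[(17,0),(0,0),(0,3),(10,
  1),(5,3)]⟩⟩]⟩))) (.R ⟨2,false,false,false,[0,1],[0,0,0,1],[1,1,1],(⟨0,[]⟩,⟨0,[]⟩),(⟨0,[(18,0)]⟩,
  ⟨1,[(17,0),(8,0),(0,0)]⟩),⟨0,[]⟩,.k,.k,.k,(.r 0 ⟨0,[(4,0)]⟩ ⟨1,[(16,0),(14,1),(3,0)]⟩),.k,.k,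
  ⟨false,0,⟨0,[(4,0),(26,0)]⟩,⟨1,[(0,1),(33,0),(0,0)]⟩⟩,⟨true,0,⟨1,[(17,0),(2,0),(2,0)]⟩,⟨0,[(18,
  0)]⟩⟩,⟨true,0,⟨0,[(32,0)]⟩,⟨0,[(33,0)]⟩⟩,⟨false,1,⟨0,[(5,0),(13,0),(15,0)]⟩,⟨0,[(2,0)]⟩⟩,⟨false,0,
  ⟨0,[]⟩,⟨3,[(15,0),(0,0),(18,1)]⟩⟩,⟨false,1,⟨3,[(0,1),(15,0),(0,1),(10,0),(6,1)]⟩,⟨0,[(1,0)]⟩⟩,[.a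
  ⟨true,0,⟨1,[(0,1),(16,0),(8,0),(0,0)]⟩,⟨0,[(1,0)]⟩⟩ ⟨false,0,⟨0,[(37,0)]⟩,⟨1,[(34,0),(0,0)]⟩⟩
  ⟨true,0,⟨1,[(0,1),(16,0),(2,0),(2,0)]⟩,⟨0,[(1,0)]⟩⟩,.o ⟨false,1,⟨3,[(0,1),(15,0),(0,1),(10,0),(6,
  1)]⟩,⟨0,[(2,0),(9,0)]⟩⟩,.o ⟨false,1,⟨3,[(15,0),(0,0),(17,1)]⟩,⟨2,[(7,0),(12,0),(2,1)]⟩⟩,.e ⟨false,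
  0,⟨0,[]⟩,⟨3,[(15,0),(0,0),(18,1)]⟩⟩ ⟨false,1,⟨3,[(0,1),(15,0),(0,1),(10,0),(6,1)]⟩,⟨0,[(1,
  0)]⟩⟩]⟩)) (.R ⟨2,true,false,false,[0,1],[0,0,0,1],[1,1,1],(⟨0,[]⟩,⟨0,[]⟩),(⟨0,[(17,0)]⟩,⟨1,[(16,
  0),(8,0),(0,0)]⟩),⟨0,[]⟩,.k,.k,.k,(.r 0 ⟨0,[(3,0)]⟩ ⟨1,[(15,0),(14,1),(3,0)]⟩),.k,.k,⟨false,0,⟨0,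
  [(3,0),(26,0)]⟩,⟨1,[(0,1),(16,1),(15,0),(0,0)]⟩⟩,⟨true,0,⟨1,[(16,0),(2,0),(2,0)]⟩,⟨0,[(17,0)]⟩⟩,
  ⟨true,0,⟨0,[(31,0)]⟩,⟨0,[(32,0)]⟩⟩,⟨false,1,⟨1,[(0,0),(3,0),(6,0),(9,0),(12,1)]⟩,⟨0,[(1,0)]⟩⟩,
  ⟨false,0,⟨0,[]⟩,⟨3,[(14,0),(0,0),(18,1)]⟩⟩,⟨true,0,⟨0,[(0,0)]⟩,⟨0,[(1,0),(29,0)]⟩⟩,[]⟩)) (.Q [0,0,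
  0,0,0,-1,0,0,0,1,0,-1] (.p false [0,0,0,1] [1] (⟨0,[(16,0)]⟩,⟨1,[(15,0),(8,0),(0,0)]⟩) .k 1 (⟨0,
  []⟩,⟨0,[]⟩) .k .k) (.R ⟨1,false,false,true,[1,0,0,-1],[1,-1],[0,0,0,0,0,0,0,0,-1],(⟨1,[(16,0),(8,
  0),(0,0)]⟩,⟨0,[(17,0)]⟩),(⟨0,[(28,0)]⟩,⟨0,[(29,0)]⟩),⟨0,[(0,0)]⟩,.k,.k,(.r (-1) ⟨1,[(14,0),(15,1),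
  (3,0)]⟩ ⟨1,[(1,1),(15,1),(4,0),(0,0),(8,3)]⟩),(.r 0 ⟨0,[(3,0)]⟩ ⟨1,[(15,0),(14,1),(3,0)]⟩),.k,.k,
  ⟨false,1,⟨1,[(14,0),(17,1),(1,0)]⟩,⟨0,[(1,0),(15,0),(12,0),(1,0)]⟩⟩,⟨true,0,⟨1,[(16,0),(2,0),(2,
  0)]⟩,⟨0,[(17,0)]⟩⟩,⟨false,1,⟨3,[(14,0),(0,0),(18,1)]⟩,⟨0,[]⟩⟩,⟨false,0,⟨0,[(1,0)]⟩,⟨1,[(14,0),(2,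
  1),(14,1),(1,0)]⟩⟩,⟨true,0,⟨0,[(32,0)]⟩,⟨0,[(31,0)]⟩⟩,⟨false,0,⟨0,[(1,0),(30,0)]⟩,⟨1,[(14,0),(2,
  1),(16,0)]⟩⟩,[.o ⟨false,0,⟨0,[(11,0)]⟩,⟨3,[(14,0),(0,0),(16,3),(1,1)]⟩⟩,.o ⟨false,1,⟨3,[(11,3),(2,
  0),(0,0),(18,1)]⟩,⟨0,[(32,0)]⟩⟩,.a ⟨true,0,⟨0,[(17,0)]⟩,⟨1,[(16,0),(8,0),(0,0)]⟩⟩ ⟨false,1,⟨1,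
  [(14,0),(19,0)]⟩,⟨0,[(1,0),(15,0),(14,0)]⟩⟩ ⟨true,0,⟨1,[(11,0),(4,0),(14,0)]⟩,⟨0,[(17,0),(14,
  0)]⟩⟩,.o ⟨false,0,⟨2,[(6,0),(10,2),(1,0),(2,1)]⟩,⟨7,[(14,0),(0,0),(0,3),(10,1),(5,3)]⟩⟩]⟩) (.R ⟨0,
  false,false,true,[1,0,0,-1],[1,-1],[],(⟨1,[(16,0),(8,0),(0,0)]⟩,⟨0,[(17,0)]⟩),(⟨0,[(28,0)]⟩,⟨0,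
  [(29,0)]⟩),⟨0,[(0,0)]⟩,.k,.k,(.r (-1) ⟨1,[(14,0),(15,1),(3,0)]⟩ ⟨1,[(1,1),(15,1),(4,0),(0,0),(8,
  3)]⟩),(.r 0 ⟨0,[(3,0)]⟩ ⟨1,[(15,0),(14,1),(3,0)]⟩),.k,.k,⟨false,1,⟨3,[(14,0),(0,0),(16,3),(1,1)]⟩,
  ⟨0,[(30,0)]⟩⟩,⟨true,0,⟨1,[(16,0),(2,0),(2,0)]⟩,⟨0,[(17,0)]⟩⟩,⟨true,0,⟨0,[(1,0),(15,0),(14,0)]⟩,⟨0,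
  [(3,0),(26,0)]⟩⟩,⟨false,0,⟨0,[(1,0)]⟩,⟨1,[(14,0),(2,1),(14,1),(1,0)]⟩⟩,⟨false,0,⟨0,[]⟩,⟨0,[]⟩⟩,
  ⟨false,0,⟨0,[]⟩,⟨0,[]⟩⟩,[.o ⟨false,0,⟨0,[(11,0)]⟩,⟨3,[(14,0),(0,0),(16,3),(1,1)]⟩⟩,.o ⟨false,1,⟨3,
  [(11,3),(2,0),(0,0),(18,1)]⟩,⟨0,[(32,0)]⟩⟩,.a ⟨true,0,⟨0,[(17,0)]⟩,⟨1,[(16,0),(8,0),(0,0)]⟩⟩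
  ⟨false,1,⟨3,[(14,0),(0,0),(18,1)]⟩,⟨0,[]⟩⟩ ⟨true,0,⟨1,[(11,0),(4,0),(14,0)]⟩,⟨0,[(17,0),(14,0)]⟩⟩,
  .o ⟨false,0,⟨2,[(6,0),(10,2),(1,0),(2,1)]⟩,⟨7,[(14,0),(0,0),(0,3),(10,1),(5,3)]⟩⟩]⟩)))) (.Q [0,0,
  0,0,0,-1,0,0,0,1,0,-1] (.p false [0,0,0,1] [1] (⟨0,[(14,0)]⟩,⟨1,[(13,0),(8,0),(0,0)]⟩) .k 1 (⟨0,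
  []⟩,⟨0,[]⟩) .k .k) (.R ⟨1,false,false,true,[1,0,0,-1],[1,-1],[0,0,0,0,0,0,0,0,-1],(⟨1,[(14,0),(8,
  0),(0,0)]⟩,⟨0,[(15,0)]⟩),(⟨0,[(26,0)]⟩,⟨0,[(27,0)]⟩),⟨0,[(0,0)]⟩,.k,.k,(.r (-1) ⟨1,[(12,0),(15,1),
  (3,0)]⟩ ⟨0,[(1,0),(18,0),(0,0),(8,1)]⟩),(.x (-1) ⟨3,[(12,0),(0,0),(13,3),(3,1)]⟩ ⟨2,[(4,0),(12,0),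
  (2,1),(5,2)]⟩),.k,.k,⟨false,1,⟨1,[(12,0),(17,1),(1,0)]⟩,⟨0,[(1,0),(32,0)]⟩⟩,⟨true,0,⟨1,[(14,0),(2,
  0),(2,0)]⟩,⟨0,[(15,0)]⟩⟩,⟨false,1,⟨3,[(12,0),(0,0),(18,1)]⟩,⟨0,[]⟩⟩,⟨false,0,⟨1,[(1,1),(12,0),(2,
  0),(2,0)]⟩,⟨1,[(12,0),(2,1),(14,1),(1,0)]⟩⟩,⟨true,0,⟨0,[(30,0)]⟩,⟨0,[(29,0)]⟩⟩,⟨false,0,⟨1,[(1,1),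
  (12,0),(2,0),(2,0),(9,1)]⟩,⟨1,[(12,0),(2,1),(16,0)]⟩⟩,[.o ⟨false,0,⟨0,[(9,0)]⟩,⟨3,[(12,0),(0,0),
  (16,3),(1,1)]⟩⟩,.o ⟨false,1,⟨3,[(9,3),(2,0),(0,0),(18,1)]⟩,⟨0,[(30,0)]⟩⟩,.a ⟨true,0,⟨0,[(15,0)]⟩,
  ⟨1,[(14,0),(8,0),(0,0)]⟩⟩ ⟨false,1,⟨1,[(12,0),(19,0)]⟩,⟨1,[(1,1),(18,0),(0,0),(8,1)]⟩⟩ ⟨true,0,⟨1,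
  [(9,0),(4,0),(14,0)]⟩,⟨0,[(15,0),(14,0)]⟩⟩,.o ⟨false,0,⟨2,[(4,0),(10,2),(1,0),(2,1)]⟩,⟨7,[(12,0),
  (0,0),(0,3),(10,1),(5,3)]⟩⟩]⟩) (.R ⟨0,false,false,true,[1,0,0,-1],[1,-1],[1,0,0,0,0,0,0,0,-1],(⟨1,
  [(14,0),(8,0),(0,0)]⟩,⟨0,[(15,0)]⟩),(⟨0,[(26,0)]⟩,⟨0,[(27,0)]⟩),⟨0,[(0,0)]⟩,.k,.k,(.r (-1) ⟨1,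
  [(12,0),(15,1),(3,0)]⟩ ⟨0,[(1,0),(18,0),(0,0),(8,1)]⟩),(.x (-1) ⟨3,[(12,0),(0,0),(13,3),(3,1)]⟩
  ⟨2,[(4,0),(12,0),(2,1),(5,2)]⟩),.k,.k,⟨false,1,⟨1,[(12,0),(17,1),(1,0)]⟩,⟨0,[(1,0),(32,0)]⟩⟩,
  ⟨true,0,⟨1,[(14,0),(2,0),(2,0)]⟩,⟨0,[(15,0)]⟩⟩,⟨true,0,⟨0,[]⟩,⟨0,[(34,0)]⟩⟩,⟨false,0,⟨1,[(1,1),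
  (12,0),(2,0),(2,0)]⟩,⟨1,[(12,0),(2,1),(14,1),(1,0)]⟩⟩,⟨false,0,⟨0,[]⟩,⟨0,[]⟩⟩,⟨false,0,⟨0,[]⟩,⟨0,
  []⟩⟩,[.o ⟨false,0,⟨0,[(9,0)]⟩,⟨3,[(12,0),(0,0),(16,3),(1,1)]⟩⟩,.o ⟨false,1,⟨3,[(9,3),(2,0),(0,0),
  (18,1)]⟩,⟨0,[(30,0)]⟩⟩,.a ⟨true,0,⟨0,[(15,0)]⟩,⟨1,[(14,0),(8,0),(0,0)]⟩⟩ ⟨false,1,⟨1,[(12,0),(19,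
  0)]⟩,⟨1,[(1,1),(18,0),(0,0),(8,1)]⟩⟩ ⟨true,0,⟨1,[(9,0),(4,0),(14,0)]⟩,⟨0,[(15,0),(14,0)]⟩⟩,.o
  ⟨false,0,⟨2,[(4,0),(10,2),(1,0),(2,1)]⟩,⟨7,[(12,0),(0,0),(0,3),(10,1),(5,3)]⟩⟩]⟩))) (.R ⟨1,true,
  false,false,[0,0,1],[1,0,0,-1],[0,1,0,0,0,0,0,1],(⟨0,[(22,0)]⟩,⟨0,[(21,0)]⟩),(⟨1,[(12,0),(8,0),(0,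
  0)]⟩,⟨0,[(13,0)]⟩),⟨0,[(8,0)]⟩,.k,.k,.k,.k,(.r (-1) ⟨1,[(11,0),(8,1),(5,1),(3,0)]⟩ ⟨1,[(0,1),(11,
  0),(5,1),(2,0),(0,0)]⟩),.k,⟨false,0,⟨0,[(1,0),(4,0),(6,0),(12,0),(1,0)]⟩,⟨1,[(0,1),(11,0),(5,1),
  (2,0),(0,0),(3,1),(3,1)]⟩⟩,⟨true,0,⟨0,[(6,0),(6,0)]⟩,⟨1,[(12,0),(5,1),(2,0),(0,0)]⟩⟩,⟨true,0,⟨0,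
  [(32,0)]⟩,⟨0,[]⟩⟩,⟨false,1,⟨0,[(0,0),(26,0),(2,0)]⟩,⟨0,[(1,0)]⟩⟩,⟨false,0,⟨0,[(28,0)]⟩,⟨0,[(27,0),
  (2,0)]⟩⟩,⟨true,0,⟨0,[(0,0)]⟩,⟨0,[(1,0),(25,0)]⟩⟩,[]⟩)))) (.Q [0,0,0,0,0,0,-1,-1,1,0,1,-1] (.p
  true [0,0,1] [0,0,0,1] (⟨0,[(19,0)]⟩,⟨0,[(18,0)]⟩) .k 2 (⟨0,[(10,0)]⟩,⟨1,[(9,0),(8,0),(0,0)]⟩) .k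
  (.x (-1) ⟨3,[(7,0),(0,0),(6,3),(3,3),(6,1)]⟩ ⟨0,[(3,0),(14,0)]⟩)) (.R ⟨1,false,false,true,[1,0,0,
  -1],[1,-1],[0,0,0,0,0,0,0,0,-1],(⟨1,[(10,0),(8,0),(0,0)]⟩,⟨0,[(11,0)]⟩),(⟨0,[(22,0)]⟩,⟨0,[(23,
  0)]⟩),⟨1,[(1,0),(4,0),(3,0)]⟩,.k,.k,(.r (-1) ⟨1,[(8,0),(15,1),(3,0)]⟩ ⟨1,[(0,1),(6,0),(3,1),(1,0),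
  (2,0),(9,1)]⟩),(.x (-1) ⟨3,[(8,0),(0,0),(13,3),(3,1)]⟩ ⟨1,[(1,0),(4,0),(6,0),(2,0)]⟩),.k,.k,
  ⟨false,1,⟨1,[(8,0),(17,1),(1,0)]⟩,⟨0,[(0,0),(2,0),(7,0),(12,0)]⟩⟩,⟨true,0,⟨1,[(10,0),(2,0),(2,
  0)]⟩,⟨0,[(11,0)]⟩⟩,⟨false,1,⟨3,[(8,0),(0,0),(18,1)]⟩,⟨0,[]⟩⟩,⟨false,0,⟨0,[(0,0),(1,0)]⟩,⟨1,[(8,0),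
  (2,1),(14,1),(1,0)]⟩⟩,⟨true,0,⟨0,[(26,0)]⟩,⟨0,[(25,0)]⟩⟩,⟨false,0,⟨0,[(0,0),(2,0)]⟩,⟨1,[(8,0),(2,
  1),(16,0)]⟩⟩,[.o ⟨false,0,⟨0,[(5,0)]⟩,⟨3,[(8,0),(0,0),(16,3),(1,1)]⟩⟩,.o ⟨false,1,⟨3,[(5,3),(2,0),
  (0,0),(18,1)]⟩,⟨0,[(26,0)]⟩⟩,.a ⟨true,0,⟨0,[(11,0)]⟩,⟨1,[(10,0),(8,0),(0,0)]⟩⟩ ⟨false,1,⟨1,[(8,0),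
  (19,0)]⟩,⟨0,[(0,0),(2,0),(7,0)]⟩⟩ ⟨true,0,⟨1,[(5,0),(4,0),(14,0)]⟩,⟨0,[(11,0),(14,0)]⟩⟩,.o ⟨false,
  0,⟨0,[(4,0),(6,0),(4,0)]⟩,⟨7,[(8,0),(0,0),(0,3),(10,1),(5,3)]⟩⟩]⟩) (.I [1,1,0,0,0,0,0,0,1] (.Q [0,
  0,0,0,0,0,1,1,1,1,-1,-1] (.p false [0,0,1] [1,0,0,-1] (⟨0,[(21,0)]⟩,⟨0,[(20,0)]⟩) .k 2 (⟨1,[(11,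
  0),(8,0),(0,0)]⟩,⟨0,[(12,0)]⟩) .k (.x (-1) ⟨3,[(9,0),(0,0),(6,3),(3,3),(6,1)]⟩ ⟨0,[(5,0),(14,
  0)]⟩)) (.Q [0,0,2,0,-1,0,-1,0,0,0,1] (.p true [0,0,1] [] (⟨0,[(22,0)]⟩,⟨0,[(21,0)]⟩) .k 0 (⟨0,[]⟩,
  ⟨0,[]⟩) .k .k) (.Q [0,1,0,-1,0,0,-1,-1,0,0,1] (.p true [0,0,1] [] (⟨0,[(23,0)]⟩,⟨0,[(22,0)]⟩) .k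
  0 (⟨0,[]⟩,⟨0,[]⟩) .k .k) (.K ⟨2,[0,1,1],1,0,(⟨0,[(24,0),(2,0)]⟩,⟨0,[(5,0)]⟩),.k,.k,(.r 1 ⟨0,[(1,
  0),(5,0),(22,1)]⟩ ⟨0,[(0,0),(19,0),(7,0),(2,0),(0,0)]⟩),.k,.k,[⟨0,[(30,0)]⟩,⟨0,[(0,0)]⟩,⟨0,[(1,
  0)]⟩,⟨3,[(12,0),(0,0),(6,3),(10,1)]⟩]⟩) (.R ⟨2,true,false,true,[0,1],[1,0,-1],[1,1,1],(⟨0,[]⟩,⟨0,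
  []⟩),(⟨0,[(23,0)]⟩,⟨0,[(24,0)]⟩),⟨0,[]⟩,.k,.k,.k,.k,.k,.k,⟨true,(-1),⟨0,[(0,0),(0,0),(26,0)]⟩,⟨1,
  [(19,1),(0,1),(10,0),(0,0)]⟩⟩,⟨false,0,⟨0,[(8,0)]⟩,⟨0,[(20,0),(2,0),(0,0),(6,0)]⟩⟩,⟨true,0,⟨0,
  [(29,0)]⟩,⟨0,[(30,0)]⟩⟩,⟨false,1,⟨0,[(9,0),(9,0),(12,0)]⟩,⟨0,[(0,0),(22,0),(0,0)]⟩⟩,⟨false,0,⟨0,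
  []⟩,⟨3,[(12,0),(0,0),(18,1)]⟩⟩,⟨true,0,⟨0,[(16,0)]⟩,⟨1,[(11,0),(11,0),(0,0)]⟩⟩,[]⟩)) (.Q [0,0,0,
  -1,0,0,1,1,-1,0,-1,1] (.p false [0,0,1] [0,0,0,1] (⟨0,[(23,0)]⟩,⟨0,[(22,0)]⟩) .k 2 (⟨0,[(14,0)]⟩,
  ⟨1,[(13,0),(8,0),(0,0)]⟩) .k (.x (-1) ⟨2,[(0,0),(10,0),(0,0),(6,1),(3,2)]⟩ ⟨0,[(7,0),(14,0)]⟩))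
  (.I [0,0,0,0,0,0,0,0,-1] (.Q [0,1,0,-1,0,0,0,0,1,0,0,-1] (.p false [0,0,0,1] [] (⟨0,[(16,0)]⟩,⟨1,
  [(15,0),(8,0),(0,0)]⟩) .k 0 (⟨0,[]⟩,⟨0,[]⟩) .k .k) (.R ⟨1,false,false,true,[1,0,0,-1],[1,-1],[0,1,
  0,0,0,0,0,0,-1],(⟨1,[(16,0),(8,0),(0,0)]⟩,⟨0,[(17,0)]⟩),(⟨0,[(28,0)]⟩,⟨0,[(29,0)]⟩),⟨1,[(7,0),(4,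
  0),(3,0)]⟩,.k,.k,(.x 0 ⟨1,[(7,0),(4,0),(6,0),(2,0)]⟩ ⟨3,[(14,0),(0,0),(13,3),(3,1)]⟩),(.r 0 ⟨1,
  [(1,1),(20,0),(0,0),(8,1)]⟩ ⟨1,[(15,0),(14,1),(3,0)]⟩),.k,.k,⟨false,0,⟨0,[(1,0),(30,0)]⟩,⟨1,[(15,
  0),(14,1),(3,0)]⟩⟩,⟨true,0,⟨1,[(16,0),(2,0),(2,0)]⟩,⟨0,[(17,0)]⟩⟩,⟨true,0,⟨0,[(36,0)]⟩,⟨0,[]⟩⟩,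
  ⟨true,0,⟨0,[(0,0)]⟩,⟨0,[(1,0),(15,0),(14,0)]⟩⟩,⟨false,0,⟨0,[(32,0)]⟩,⟨0,[(31,0),(2,0)]⟩⟩,⟨true,0,
  ⟨0,[(4,0),(13,0)]⟩,⟨0,[(1,0),(15,0)]⟩⟩,[.o ⟨false,0,⟨0,[(11,0)]⟩,⟨3,[(14,0),(0,0),(16,3),(1,1)]⟩⟩,
  .o ⟨false,1,⟨3,[(11,3),(2,0),(0,0),(18,1)]⟩,⟨0,[(32,0)]⟩⟩,.a ⟨true,0,⟨0,[(17,0)]⟩,⟨1,[(16,0),(8,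
  0),(0,0)]⟩⟩ ⟨false,0,⟨0,[(1,0)]⟩,⟨1,[(15,0),(18,0)]⟩⟩ ⟨true,0,⟨1,[(11,0),(4,0),(14,0)]⟩,⟨0,[(17,
  0),(14,0)]⟩⟩,.o ⟨false,0,⟨0,[(10,0),(6,0),(4,0)]⟩,⟨7,[(14,0),(0,0),(0,3),(10,1),(5,3)]⟩⟩]⟩) (.R
  ⟨2,true,false,true,[0,1],[0,0,0,1],[0,1,1,1],(⟨0,[]⟩,⟨0,[]⟩),(⟨0,[(17,0)]⟩,⟨1,[(16,0),(8,0),(0,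
  0)]⟩),⟨0,[]⟩,.k,.k,.k,(.r 0 ⟨1,[(1,1),(20,0),(0,0),(8,1)]⟩ ⟨1,[(15,0),(14,1),(3,0)]⟩),.k,.k,
  ⟨false,0,⟨0,[(1,0),(30,0)]⟩,⟨1,[(15,0),(14,1),(3,0)]⟩⟩,⟨true,0,⟨1,[(16,0),(2,0),(2,0)]⟩,⟨0,[(17,
  0)]⟩⟩,⟨true,0,⟨0,[(36,0)]⟩,⟨0,[]⟩⟩,⟨false,1,⟨1,[(11,0),(3,0),(0,0),(14,0),(2,0)]⟩,⟨0,[(0,0)]⟩⟩,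
  ⟨false,0,⟨0,[(32,0)]⟩,⟨0,[(31,0),(2,0)]⟩⟩,⟨true,0,⟨0,[(4,0),(13,0)]⟩,⟨1,[(0,0),(1,0),(18,0)]⟩⟩,
  []⟩)) (.I [0,-1,0,1,1,0,0,-1,1] (.R ⟨1,false,false,false,[1,0,0,-1],[1,0,-1],[1,1,0,-1,0,0,0,0,
  -1],(⟨1,[(16,0),(8,0),(0,0)]⟩,⟨0,[(17,0)]⟩),(⟨0,[(25,0)]⟩,⟨0,[(26,0)]⟩),⟨1,[(7,0),(4,0),(3,0)]⟩,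
  .k,.k,(.r (-1) ⟨1,[(14,0),(15,1),(3,0)]⟩ ⟨1,[(1,1),(20,0),(0,0),(8,1)]⟩),.k,(.x 0 ⟨0,[(12,0),(9,
  0)]⟩ ⟨0,[(19,0),(5,0),(3,0),(3,0)]⟩),.k,⟨false,0,⟨1,[(6,1),(3,1),(5,0),(8,0),(0,0),(3,1)]⟩,⟨0,[(0,
  0)]⟩⟩,⟨true,0,⟨1,[(10,1),(5,0),(8,0),(0,0)]⟩,⟨0,[(17,0),(4,0)]⟩⟩,⟨true,0,⟨0,[(31,0)]⟩,⟨0,[(32,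
  0)]⟩⟩,⟨false,1,⟨1,[(1,1),(14,0),(1,0),(2,0),(12,1)]⟩,⟨0,[(6,0)]⟩⟩,⟨false,0,⟨0,[]⟩,⟨3,[(14,0),(0,
  0),(18,1)]⟩⟩,⟨false,1,⟨1,[(0,0),(0,0),(8,0),(5,0),(4,0),(10,0),(1,0)]⟩,⟨0,[(2,0)]⟩⟩,[.o ⟨false,1,
  ⟨1,[(21,1),(5,0),(6,0)]⟩,⟨0,[(9,0)]⟩⟩,.o ⟨false,1,⟨0,[(18,0),(15,0)]⟩,⟨0,[(20,0)]⟩⟩,.a ⟨true,0,⟨0,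
  [(17,0)]⟩,⟨1,[(16,0),(8,0),(0,0)]⟩⟩ ⟨true,0,⟨1,[(2,1),(13,0),(1,0),(2,0)]⟩,⟨0,[(1,0),(30,0)]⟩⟩
  ⟨false,1,⟨1,[(16,0),(1,0),(2,0),(12,1)]⟩,⟨0,[(1,0),(4,0)]⟩⟩,.o ⟨false,0,⟨0,[(10,0),(6,0),(4,0)]⟩,
  ⟨7,[(14,0),(0,0),(0,3),(10,1),(5,3)]⟩⟩]⟩) (.Q [0,-1,0,0,1,0,-1,-1,-1,-1,1,1] (.p true [0,0,1] [1,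
  0,0,-1] (⟨0,[(26,0)]⟩,⟨0,[(25,0)]⟩) .k 2 (⟨1,[(16,0),(8,0),(0,0)]⟩,⟨0,[(17,0)]⟩) .k (.x (-1) ⟨2,
  [(3,0),(10,0),(0,0),(6,1),(3,2)]⟩ ⟨0,[(10,0),(14,0)]⟩)) (.R ⟨1,false,false,true,[1,0,0,-1],[0,-1,
  1],[0,1,0,0,0,0,0,0,-1],(⟨1,[(17,0),(8,0),(0,0)]⟩,⟨0,[(18,0)]⟩),(⟨0,[(13,0)]⟩,⟨0,[(26,0),(3,0)]⟩),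
  ⟨1,[(8,0),(4,0),(3,0)]⟩,.k,.k,(.r (-1) ⟨1,[(15,0),(15,1),(3,0)]⟩ ⟨1,[(2,1),(20,0),(0,0),(8,1)]⟩),
  (.r (-1) ⟨1,[(15,0),(6,1),(0,1),(9,1),(1,0)]⟩ ⟨1,[(1,1),(0,3),(31,0),(0,0)]⟩),.k,.k,⟨false,1,⟨5,
  [(0,3),(3,1),(2,1),(9,2),(4,3),(0,3),(2,0),(0,0),(5,5)]⟩,⟨1,[(1,1),(0,3),(31,0),(0,0)]⟩⟩,⟨true,0,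
  ⟨1,[(17,0),(5,1),(2,0),(0,0)]⟩,⟨0,[(11,0),(6,0)]⟩⟩,⟨true,0,⟨0,[(37,0)]⟩,⟨0,[]⟩⟩,⟨false,0,⟨1,[(2,
  1),(6,1),(7,0),(8,0),(0,0)]⟩,⟨0,[(0,0),(32,0)]⟩⟩,⟨false,0,⟨0,[(33,0)]⟩,⟨0,[(32,0),(2,0)]⟩⟩,⟨false,
  0,⟨0,[(5,0)]⟩,⟨0,[(0,0)]⟩⟩,[.o ⟨false,0,⟨1,[(12,0),(1,0),(17,0)]⟩,⟨0,[(19,0),(13,0),(1,0)]⟩⟩,.o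
  ⟨false,0,⟨0,[(9,0)]⟩,⟨3,[(0,1),(15,0),(0,0),(1,0),(2,0),(5,0),(4,3)]⟩⟩,.a ⟨true,0,⟨0,[(18,0)]⟩,⟨1,
  [(17,0),(8,0),(0,0)]⟩⟩ ⟨true,0,⟨6,[(1,2),(2,0),(10,1),(6,2),(0,1),(9,2),(3,0)]⟩,⟨0,[(2,0)]⟩⟩
  ⟨false,0,⟨1,[(9,1),(7,0),(8,0),(0,0)]⟩,⟨0,[(0,0),(1,0),(30,0)]⟩⟩,.o ⟨false,0,⟨0,[(11,0),(6,0),(4,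
  0)]⟩,⟨7,[(15,0),(0,0),(0,3),(10,1),(5,3)]⟩⟩]⟩) (.I [0,1,0,0,1,0,0,-2] (.Q [0,1,0,-1,0,0,0,0,-2,-1,
  0,2] (.p true [0,0,0,1] [1,0,0,-1] (⟨0,[(19,0)]⟩,⟨1,[(18,0),(8,0),(0,0)]⟩) .k 2 (⟨1,[(18,0),(8,0),
  (0,0)]⟩,⟨0,[(19,0)]⟩) .k .k) (.R ⟨1,false,false,false,[1,0,0,-1],[0,0,0,1],[0,0,0,0,0,0,0,0,-1],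
  (⟨1,[(19,0),(8,0),(0,0)]⟩,⟨0,[(20,0)]⟩),(⟨0,[(20,0)]⟩,⟨1,[(19,0),(8,0),(0,0)]⟩),⟨1,[(10,0),(4,0),
  (3,0)]⟩,.k,.k,(.r (-1) ⟨1,[(17,0),(15,1),(3,0)]⟩ ⟨1,[(4,1),(20,0),(0,0),(8,1)]⟩),.k,(.r (-1) ⟨1,
  [(0,1),(18,1),(16,0),(0,0)]⟩ ⟨1,[(4,3),(20,0),(0,0),(8,1)]⟩),.k,⟨false,1,⟨1,[(0,1),(18,1),(15,1),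
  (0,0),(0,0)]⟩,⟨0,[(4,1)]⟩⟩,⟨true,0,⟨0,[(19,0)]⟩,⟨0,[(13,0),(6,1),(4,0)]⟩⟩,⟨false,1,⟨3,[(17,0),(0,
  0),(18,1)]⟩,⟨0,[]⟩⟩,⟨true,0,⟨0,[(4,1),(14,0)]⟩,⟨0,[(0,0),(34,0)]⟩⟩,⟨true,0,⟨0,[(35,0)]⟩,⟨0,[(34,
  0)]⟩⟩,⟨true,0,⟨0,[(4,1),(14,0),(15,0)]⟩,⟨0,[(0,0)]⟩⟩,[.o ⟨false,0,⟨0,[(2,0),(18,0),(15,0)]⟩,⟨1,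
  [(17,0),(2,1),(9,0)]⟩⟩,.o ⟨false,1,⟨3,[(4,1),(13,0),(0,1),(10,0),(6,1)]⟩,⟨4,[(0,2),(1,0),(18,0),
  (8,0),(4,2)]⟩⟩,.a ⟨true,0,⟨0,[(20,0)]⟩,⟨1,[(19,0),(8,0),(0,0)]⟩⟩ ⟨false,1,⟨1,[(17,0),(19,0)]⟩,⟨0,
  [(4,0)]⟩⟩ ⟨true,0,⟨0,[(4,0),(14,0)]⟩,⟨4,[(0,2),(1,0),(17,4),(0,0),(8,0),(4,2)]⟩⟩,.o ⟨false,0,⟨0,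
  [(13,0),(6,0),(4,0)]⟩,⟨7,[(17,0),(0,0),(0,3),(10,1),(5,3)]⟩⟩]⟩) (.R ⟨1,false,false,true,[1,0,0,
  -1],[1,-1],[0,0,0,0,0,0,0,0,-1],(⟨1,[(19,0),(8,0),(0,0)]⟩,⟨0,[(20,0)]⟩),(⟨0,[(31,0)]⟩,⟨0,[(32,
  0)]⟩),⟨1,[(10,0),(4,0),(3,0)]⟩,.k,.k,(.r (-1) ⟨1,[(17,0),(15,1),(3,0)]⟩ ⟨1,[(4,1),(20,0),(0,0),(8,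
  1)]⟩),(.r 0 ⟨0,[(3,0),(20,0),(0,0),(9,1),(1,0)]⟩ ⟨1,[(18,0),(14,1),(3,0)]⟩),.k,.k,⟨false,1,⟨1,
  [(17,0),(17,1),(1,0)]⟩,⟨0,[(4,0),(28,0)]⟩⟩,⟨true,0,⟨1,[(19,0),(2,0),(2,0)]⟩,⟨0,[(20,0)]⟩⟩,⟨false,
  1,⟨3,[(17,0),(0,0),(18,1)]⟩,⟨0,[]⟩⟩,⟨false,0,⟨0,[(0,0),(2,0),(16,0),(0,0),(3,0),(7,0),(3,0)]⟩,⟨1,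
  [(17,0),(2,1),(14,1),(1,0)]⟩⟩,⟨true,0,⟨0,[(35,0)]⟩,⟨0,[(34,0)]⟩⟩,⟨false,0,⟨1,[(0,0),(13,0)]⟩,⟨1,
  [(17,0),(2,1),(16,0)]⟩⟩,[.o ⟨false,0,⟨0,[(14,0)]⟩,⟨3,[(17,0),(0,0),(16,3),(1,1)]⟩⟩,.o ⟨false,1,⟨3,
  [(14,3),(2,0),(0,0),(18,1)]⟩,⟨0,[(35,0)]⟩⟩,.a ⟨true,0,⟨0,[(20,0)]⟩,⟨1,[(19,0),(8,0),(0,0)]⟩⟩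
  ⟨false,1,⟨1,[(17,0),(19,0)]⟩,⟨0,[(4,0)]⟩⟩ ⟨true,0,⟨1,[(14,0),(4,0),(14,0)]⟩,⟨0,[(20,0),(14,0)]⟩⟩,
  .o ⟨false,0,⟨0,[(13,0),(6,0),(4,0)]⟩,⟨7,[(17,0),(0,0),(0,3),(10,1),(5,3)]⟩⟩]⟩)) (.I [1,0,0,-1,1,0,
  0,-1,-1] (.R ⟨1,false,false,true,[1,0,0,-1],[0,0,1],[1,1,0,-1,0,0,0,0,-1],(⟨1,[(19,0),(8,0),(0,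
  0)]⟩,⟨0,[(20,0)]⟩),(⟨0,[(29,0)]⟩,⟨0,[(28,0)]⟩),⟨1,[(10,0),(4,0),(3,0)]⟩,.k,.k,(.r (-1) ⟨1,[(17,0),
  (15,1),(3,0)]⟩ ⟨1,[(4,1),(20,0),(0,0),(8,1)]⟩),.k,(.r (-2) ⟨3,[(0,3),(16,0),(0,0),(17,1)]⟩ ⟨0,[(1,
  0),(2,0),(19,0),(0,0),(9,0)]⟩),.k,⟨true,1,⟨0,[(0,0)]⟩,⟨0,[(1,0),(2,0),(19,0),(0,0),(9,0)]⟩⟩,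
  ⟨false,1,⟨3,[(0,1),(5,1),(0,1),(11,0),(8,0),(0,0),(5,1)]⟩,⟨0,[(13,0),(6,0)]⟩⟩,⟨true,0,⟨0,[(34,
  0)]⟩,⟨0,[(35,0)]⟩⟩,⟨true,(-1),⟨0,[(2,0)]⟩,⟨1,[(17,0),(2,1),(0,1),(15,0)]⟩⟩,⟨false,0,⟨0,[]⟩,⟨3,
  [(17,0),(0,0),(18,1)]⟩⟩,⟨true,(-1),⟨0,[(2,0),(32,0)]⟩,⟨0,[(0,0),(12,0),(6,0)]⟩⟩,[.o ⟨false,0,⟨0,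
  [(23,0)]⟩,⟨0,[(21,0),(15,0)]⟩⟩,.o ⟨false,0,⟨0,[(12,0)]⟩,⟨1,[(24,1),(5,0),(6,0)]⟩⟩,.a ⟨true,0,⟨0,
  [(20,0)]⟩,⟨1,[(19,0),(8,0),(0,0)]⟩⟩ ⟨true,0,⟨1,[(0,0),(2,0),(35,0)]⟩,⟨0,[(4,0),(30,0)]⟩⟩ ⟨false,0,
  ⟨1,[(16,0),(2,0)]⟩,⟨0,[(20,0),(0,0),(15,0)]⟩⟩,.o ⟨false,0,⟨0,[(13,0),(6,0),(4,0)]⟩,⟨7,[(17,0),(0,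
  0),(0,3),(10,1),(5,3)]⟩⟩]⟩) (.Q [0,-1,0,1,0,0,1,1,0,1,-1] (.p false [0,0,1] [1] (⟨0,[(29,0)]⟩,⟨0,
  [(28,0)]⟩) .k 1 (⟨0,[]⟩,⟨0,[]⟩) .k .k) (.R ⟨2,true,false,true,[0,1],[1,0,-1],[1,1,1],(⟨0,[]⟩,⟨0,
  []⟩),(⟨0,[(29,0)]⟩,⟨0,[(30,0)]⟩),⟨0,[]⟩,.k,.k,.k,.k,.k,.k,⟨true,(-1),⟨0,[(2,0),(22,0),(0,0)]⟩,⟨11,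
  [(7,3),(10,0),(0,0),(5,11),(0,7),(11,5)]⟩⟩,⟨false,0,⟨0,[(14,0)]⟩,⟨5,[(7,3),(10,0),(0,0),(6,1),(2,
  5),(0,5)]⟩⟩,⟨true,0,⟨0,[(35,0)]⟩,⟨0,[(36,0)]⟩⟩,⟨false,1,⟨0,[(15,0),(9,0),(12,0)]⟩,⟨0,[(0,0)]⟩⟩,
  ⟨false,0,⟨0,[]⟩,⟨3,[(18,0),(0,0),(18,1)]⟩⟩,⟨true,0,⟨0,[(22,0)]⟩,⟨1,[(17,0),(11,0),(0,0)]⟩⟩,[]⟩)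
  (.R ⟨1,false,false,true,[1,0,0,-1],[1,-1],[0,0,0,0,0,0,0,0,-1],(⟨1,[(20,0),(8,0),(0,0)]⟩,⟨0,[(21,
  0)]⟩),(⟨0,[(32,0)]⟩,⟨0,[(33,0)]⟩),⟨1,[(11,0),(4,0),(3,0)]⟩,.k,.k,(.r (-1) ⟨1,[(18,0),(15,1),(3,
  0)]⟩ ⟨1,[(5,1),(20,0),(0,0),(8,1)]⟩),(.r 0 ⟨0,[(4,0),(20,0),(0,0),(9,1),(1,0)]⟩ ⟨1,[(19,0),(14,1),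
  (3,0)]⟩),.k,.k,⟨false,1,⟨1,[(18,0),(17,1),(1,0)]⟩,⟨0,[(5,0),(28,0)]⟩⟩,⟨true,0,⟨1,[(20,0),(2,0),(2,
  0)]⟩,⟨0,[(21,0)]⟩⟩,⟨false,1,⟨3,[(18,0),(0,0),(18,1)]⟩,⟨0,[]⟩⟩,⟨false,0,⟨0,[(0,0),(2,0),(34,0)]⟩,
  ⟨1,[(18,0),(2,1),(14,1),(1,0)]⟩⟩,⟨true,0,⟨0,[(36,0)]⟩,⟨0,[(35,0)]⟩⟩,⟨false,0,⟨15,[(0,5),(0,5),(3,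
  9),(1,1),(12,7),(5,3),(4,0),(6,2)]⟩,⟨1,[(18,0),(2,1),(16,0)]⟩⟩,[.o ⟨false,0,⟨0,[(15,0)]⟩,⟨3,[(18,
  0),(0,0),(16,3),(1,1)]⟩⟩,.o ⟨false,1,⟨3,[(15,3),(2,0),(0,0),(18,1)]⟩,⟨0,[(36,0)]⟩⟩,.a ⟨true,0,⟨0,
  [(21,0)]⟩,⟨1,[(20,0),(8,0),(0,0)]⟩⟩ ⟨false,1,⟨1,[(18,0),(19,0)]⟩,⟨0,[(5,0)]⟩⟩ ⟨true,0,⟨1,[(15,0),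
  (4,0),(14,0)]⟩,⟨0,[(21,0),(14,0)]⟩⟩,.o ⟨false,0,⟨0,[(14,0),(6,0),(4,0)]⟩,⟨7,[(18,0),(0,0),(0,3),
  (10,1),(5,3)]⟩⟩]⟩))))))) (.R ⟨1,true,false,false,[0,0,1],[0,0,0,1],[0,1,0,0,0,0,0,1],(⟨0,[(24,
  0)]⟩,⟨0,[(23,0)]⟩),(⟨0,[(15,0)]⟩,⟨1,[(14,0),(8,0),(0,0)]⟩),⟨0,[(10,0)]⟩,.k,.k,.k,.k,(.r (-1) ⟨1,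
  [(12,0),(9,1),(5,1),(3,0)]⟩ ⟨0,[(0,0),(14,0),(4,0)]⟩),.k,⟨false,0,⟨1,[(4,1),(3,1),(5,0),(8,0),(0,
  0),(3,1),(1,1)]⟩,⟨0,[(0,0),(14,0),(4,0),(7,0),(3,0)]⟩⟩,⟨true,0,⟨1,[(8,1),(5,0),(8,0),(0,0)]⟩,⟨0,
  [(15,0),(4,0)]⟩⟩,⟨true,0,⟨0,[(34,0)]⟩,⟨0,[]⟩⟩,⟨false,1,⟨0,[(0,0),(28,0),(2,0)]⟩,⟨0,[(4,0)]⟩⟩,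
  ⟨false,0,⟨0,[(30,0)]⟩,⟨0,[(29,0),(2,0)]⟩⟩,⟨true,0,⟨0,[(0,0)]⟩,⟨0,[(4,0),(24,0)]⟩⟩,[]⟩))) (.K ⟨2,
  [1,0,0,-1],0,0,(⟨1,[(12,0),(8,0),(0,0)]⟩,⟨0,[(13,0)]⟩),.k,(.x 0 ⟨1,[(3,0),(4,0),(6,0),(2,0)]⟩ ⟨3,
  [(10,0),(0,0),(13,3),(3,1)]⟩),(.r 0 ⟨1,[(0,0),(1,0),(9,0),(5,0),(0,0),(8,1)]⟩ ⟨1,[(11,0),(14,1),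
  (3,0)]⟩),.k,.k,[⟨0,[(0,0)]⟩,⟨1,[(1,1),(10,0),(8,0),(0,0)]⟩,⟨1,[(12,0),(5,0),(0,0),(1,0),(0,0)]⟩,
  ⟨0,[(6,0),(6,0),(4,0)]⟩]⟩)) (.R ⟨1,false,false,true,[1,0,0,-1],[1,-1],[0,0,0,0,0,0,0,0,-1],(⟨1,
  [(11,0),(8,0),(0,0)]⟩,⟨0,[(12,0)]⟩),(⟨0,[(23,0)]⟩,⟨0,[(24,0)]⟩),⟨1,[(2,0),(4,0),(3,0)]⟩,.k,.k,(.r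
  0 ⟨0,[(0,0),(24,0)]⟩ ⟨3,[(9,0),(0,2),(6,1),(0,1),(8,3)]⟩),(.r 0 ⟨3,[(0,1),(0,1),(9,0),(2,0),(1,1),
  (0,1),(0,0),(8,3)]⟩ ⟨1,[(10,0),(14,1),(3,0)]⟩),.k,.k,⟨false,0,⟨0,[(0,0),(26,0)]⟩,⟨1,[(10,0),(15,
  1),(1,0)]⟩⟩,⟨true,0,⟨1,[(11,0),(2,0),(2,0)]⟩,⟨0,[(12,0)]⟩⟩,⟨false,1,⟨3,[(9,0),(0,0),(18,1)]⟩,⟨0,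
  []⟩⟩,⟨false,1,⟨1,[(6,0),(3,0),(0,0),(14,0),(2,0)]⟩,⟨0,[(0,0),(11,0),(14,0)]⟩⟩,⟨true,0,⟨0,[(27,
  0)]⟩,⟨0,[(26,0)]⟩⟩,⟨false,1,⟨7,[(9,0),(0,4),(0,3),(10,1)]⟩,⟨0,[(0,0),(11,0)]⟩⟩,[.o ⟨false,0,⟨0,
  [(6,0)]⟩,⟨3,[(9,0),(0,0),(16,3),(1,1)]⟩⟩,.o ⟨false,1,⟨3,[(6,3),(2,0),(0,0),(18,1)]⟩,⟨0,[(27,0)]⟩⟩,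
  .a ⟨true,0,⟨0,[(12,0)]⟩,⟨1,[(11,0),(8,0),(0,0)]⟩⟩ ⟨false,0,⟨0,[(0,0)]⟩,⟨3,[(9,0),(0,2)]⟩⟩ ⟨true,0,
  ⟨1,[(6,0),(4,0),(14,0)]⟩,⟨0,[(12,0),(14,0)]⟩⟩,.o ⟨false,0,⟨0,[(5,0),(6,0),(4,0)]⟩,⟨7,[(9,0),(0,0),
  (0,3),(10,1),(5,3)]⟩⟩]⟩)))) (.R ⟨2,true,false,false,[0,1],[0,0,1],[1,1,1],(⟨0,[]⟩,⟨0,[]⟩),(⟨0,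
  [(18,0)]⟩,⟨0,[(17,0)]⟩),⟨0,[]⟩,.k,.k,.k,.k,.k,.k,⟨false,0,⟨0,[(0,0),(13,0),(7,0)]⟩,⟨1,[(16,1),(8,
  0),(0,0)]⟩⟩,⟨true,0,⟨0,[(14,0)]⟩,⟨0,[(2,0),(14,0),(0,0)]⟩⟩,⟨true,0,⟨0,[(23,0)]⟩,⟨0,[(24,0)]⟩⟩,
  ⟨false,1,⟨1,[(3,0),(1,0),(17,0),(2,1)]⟩,⟨0,[(0,0)]⟩⟩,⟨false,0,⟨0,[]⟩,⟨3,[(6,0),(0,0),(18,1)]⟩⟩,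
  ⟨true,0,⟨0,[(1,0)]⟩,⟨0,[(13,0)]⟩⟩,[]⟩)) (.R ⟨2,false,false,false,[0,1],[0,0,1],[1,1,1],(⟨0,[]⟩,⟨0,
  []⟩),(⟨0,[(17,0)]⟩,⟨0,[(16,0)]⟩),⟨0,[]⟩,.k,.k,.k,.k,.k,.k,⟨false,0,⟨0,[(0,0),(12,0),(7,0),(1,0)]⟩,
  ⟨1,[(15,1),(8,0),(0,0)]⟩⟩,⟨true,0,⟨0,[(13,0)]⟩,⟨0,[(0,0),(14,0)]⟩⟩,⟨true,0,⟨0,[(22,0)]⟩,⟨0,[(23,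
  0)]⟩⟩,⟨false,1,⟨1,[(2,0),(1,0),(17,0),(2,1)]⟩,⟨0,[(0,0),(22,0)]⟩⟩,⟨false,0,⟨0,[]⟩,⟨3,[(5,0),(0,0),
  (18,1)]⟩⟩,⟨false,1,⟨7,[(4,3),(0,0),(0,0),(11,1),(6,3)]⟩,⟨0,[(0,0)]⟩⟩,[.a ⟨true,0,⟨1,[(4,0),(11,0),
  (0,0)]⟩,⟨0,[(0,0)]⟩⟩ ⟨false,0,⟨0,[(27,0)]⟩,⟨1,[(24,0),(0,0)]⟩⟩ ⟨true,0,⟨1,[(4,0),(5,0),(2,0)]⟩,⟨0,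
  [(0,0)]⟩⟩,.o ⟨false,1,⟨7,[(4,3),(0,0),(0,0),(11,1),(6,3)]⟩,⟨0,[(9,0)]⟩⟩,.o ⟨false,1,⟨3,[(5,0),(0,
  0),(17,1)]⟩,⟨0,[(1,0),(11,0)]⟩⟩,.e ⟨false,0,⟨0,[]⟩,⟨3,[(5,0),(0,0),(18,1)]⟩⟩ ⟨false,1,⟨7,[(4,3),
  (0,0),(0,0),(11,1),(6,3)]⟩,⟨0,[(0,0)]⟩⟩]⟩))) (.K ⟨0,[0,-1,1],0,0,(⟨0,[(1,0)]⟩,⟨0,[(14,0),(3,0)]⟩),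
  .k,(.r (-1) ⟨0,[(13,0),(5,1),(3,0)]⟩ ⟨1,[(0,1),(6,0),(0,0),(1,0),(0,2),(9,1)]⟩),.k,.k,.k,[⟨0,[(0,
  0),(7,0),(10,0)]⟩,⟨0,[(0,0),(10,0),(7,0)]⟩,⟨0,[(10,0),(10,0)]⟩,⟨1,[(2,0),(5,0),(2,0),(7,1)]⟩]⟩))

theorem ok0 : chk (cU (-1) false 3) t0 l0 = true := by decide +kernel

noncomputable def t1 : Tre :=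
  (.Q [0,-1,0,1,0,0,-1,-1,0,1,1] (.p true [1,-1,1] [] (⟨0,[(14,0),(1,0)]⟩,⟨0,[(0,0)]⟩) .k 0 (⟨0,[]⟩,
  ⟨0,[]⟩) .k .k) (.K ⟨1,[0,1,-1],0,0,(⟨0,[(1,0)]⟩,⟨0,[(15,0),(1,0)]⟩),.k,.k,(.r 0 ⟨1,[(0,0),(7,0),
  (1,0),(0,2),(9,2)]⟩ ⟨0,[(13,0),(5,1),(3,0)]⟩),.k,.k,[⟨1,[(11,2),(0,0)]⟩,⟨1,[(0,0),(7,0),(4,0),(5,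
  0)]⟩,⟨1,[(2,0),(5,0),(2,0),(7,1)]⟩,⟨0,[(0,0)]⟩]⟩) (.Q [0,0,0,0,0,0,1,0,0,1,-1] (.p false [0,0,1]
  [1] (⟨0,[(15,0)]⟩,⟨0,[(14,0)]⟩) .k 1 (⟨0,[]⟩,⟨0,[]⟩) .k .k) (.Q [0,-1,0,1,0,0,1,1,0,1,-1] (.p
  false [0,0,1] [1] (⟨0,[(16,0)]⟩,⟨0,[(15,0)]⟩) .k 1 (⟨0,[]⟩,⟨0,[]⟩) .k .k) (.R ⟨2,true,false,true,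
  [0,1],[1,0,-1],[1,1,1],(⟨0,[]⟩,⟨0,[]⟩),(⟨0,[(16,0)]⟩,⟨0,[(17,0)]⟩),⟨0,[]⟩,.k,.k,.k,.k,.k,.k,
  ⟨false,0,⟨0,[(15,0)]⟩,⟨1,[(1,1),(7,1),(14,0),(0,0)]⟩⟩,⟨true,0,⟨0,[(10,0)]⟩,⟨0,[(1,0)]⟩⟩,⟨true,0,
  ⟨0,[(22,0)]⟩,⟨0,[(23,0)]⟩⟩,⟨false,1,⟨0,[(9,0),(12,0),(2,0)]⟩,⟨0,[(0,0)]⟩⟩,⟨false,0,⟨0,[]⟩,⟨3,[(5,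
  0),(0,0),(18,1)]⟩⟩,⟨true,0,⟨0,[(9,0)]⟩,⟨1,[(4,0),(11,0),(0,0)]⟩⟩,[]⟩) (.Q [0,0,0,0,0,0,-1,0,0,0,
  1] (.p true [0,0,1] [] (⟨0,[(17,0)]⟩,⟨0,[(16,0)]⟩) .k 0 (⟨0,[]⟩,⟨0,[]⟩) .k .k) (.R ⟨0,false,false,
  true,[0,0,1],[1,-1],[],(⟨0,[(18,0)]⟩,⟨0,[(17,0)]⟩),(⟨0,[(20,0)]⟩,⟨0,[(21,0)]⟩),⟨0,[(4,0)]⟩,.k,.k,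
  .k,.k,.k,.k,⟨false,1,⟨3,[(6,0),(0,0),(16,3),(1,1)]⟩,⟨0,[(22,0)]⟩⟩,⟨true,0,⟨0,[(11,0)]⟩,⟨0,[(2,
  0)]⟩⟩,⟨false,1,⟨0,[(2,0),(7,0),(15,0)]⟩,⟨0,[(16,0)]⟩⟩,⟨true,0,⟨0,[(1,0)]⟩,⟨1,[(5,0),(11,0),(0,0),
  (5,1)]⟩⟩,⟨false,0,⟨0,[]⟩,⟨0,[]⟩⟩,⟨false,0,⟨0,[]⟩,⟨0,[]⟩⟩,[.o ⟨false,0,⟨1,[(1,0),(1,0)]⟩,⟨3,[(6,0),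
  (0,0),(16,3),(1,1)]⟩⟩,.o ⟨false,1,⟨1,[(19,0),(3,1),(2,0)]⟩,⟨0,[(24,0)]⟩⟩,.a ⟨true,0,⟨0,[(2,0)]⟩,
  ⟨0,[(0,0)]⟩⟩ ⟨false,1,⟨3,[(6,0),(0,0),(18,1)]⟩,⟨0,[]⟩⟩ ⟨true,0,⟨0,[(1,0),(14,0)]⟩,⟨0,[(2,0),(21,
  0)]⟩⟩,.o ⟨false,0,⟨0,[(14,0)]⟩,⟨0,[(11,0),(13,0)]⟩⟩]⟩) (.Q [0,0,0,0,0,0,-1,0,0,1,1] (.p true [1,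
  -1,1] [] (⟨0,[(18,0),(1,0)]⟩,⟨0,[(4,0)]⟩) .k 0 (⟨0,[]⟩,⟨0,[]⟩) .k .k) (.R ⟨0,false,false,false,[0,
  1,-1],[0,1],[1,0,1,0,0,0,0,-1],(⟨0,[(5,0)]⟩,⟨0,[(19,0),(1,0)]⟩),(⟨0,[(22,0)]⟩,⟨0,[(21,0)]⟩),⟨0,
  [(19,0)]⟩,.k,.k,.k,.k,.k,.k,⟨false,1,⟨1,[(2,1),(0,1),(22,0),(0,0)]⟩,⟨0,[(17,0),(7,0)]⟩⟩,⟨true,0,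
  ⟨0,[(1,0)]⟩,⟨0,[(16,0)]⟩⟩,⟨false,1,⟨0,[(24,0),(2,0)]⟩,⟨0,[(25,0)]⟩⟩,⟨true,0,⟨0,[(1,0),(15,0)]⟩,⟨0,
  [(14,0)]⟩⟩,⟨false,0,⟨0,[]⟩,⟨0,[]⟩⟩,⟨false,0,⟨0,[]⟩,⟨0,[]⟩⟩,[.o ⟨false,0,⟨0,[(25,0)]⟩,⟨1,[(20,0),
  (3,1),(2,0)]⟩⟩,.o ⟨false,1,⟨3,[(7,0),(0,0),(16,3),(1,1)]⟩,⟨1,[(2,0),(1,0)]⟩⟩,.o ⟨false,1,⟨1,[(0,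
  1),(19,0),(5,0)]⟩,⟨0,[(1,1),(10,0)]⟩⟩,.a ⟨true,0,⟨0,[(0,0)]⟩,⟨0,[(1,0)]⟩⟩ ⟨false,1,⟨0,[(1,0),(12,
  0),(12,0)]⟩,⟨0,[(17,0)]⟩⟩ ⟨true,0,⟨0,[(1,0),(23,0)]⟩,⟨1,[(0,0),(1,0),(14,0),(6,0)]⟩⟩]⟩) (.Q [0,0,
  0,0,0,1,0,0,0,-1,1] (.ed false [0,1,1] .k) (.I [0,0,-2,-2,1,0,0,-1] (.K ⟨2,[-1,1,1],0,0,(⟨0,[(1,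
  0)]⟩,⟨0,[(20,0),(2,0)]⟩),.k,.k,(.r 0 ⟨1,[(8,0),(5,0),(2,0),(0,1),(8,3)]⟩ ⟨0,[(0,0)]⟩),.k,.k,[⟨0,
  [(20,0),(0,0),(5,0)]⟩,⟨0,[(4,0)]⟩,⟨1,[(14,1),(2,0),(0,0)]⟩,⟨0,[(5,0)]⟩]⟩) (.K ⟨2,[-1,1,1],0,0,(⟨0,
  [(1,0)]⟩,⟨0,[(20,0),(2,0)]⟩),.k,.k,(.x (-1) ⟨0,[(1,0),(3,0),(18,0),(3,0)]⟩ ⟨0,[(2,0),(11,1),(5,0),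
  (2,1)]⟩),.k,.k,[⟨0,[(20,0),(0,0),(5,0)]⟩,⟨0,[(4,0)]⟩,⟨1,[(14,1),(2,0),(0,0)]⟩,⟨0,[(5,0)]⟩]⟩)) (.K
  ⟨2,[0,1,1],0,0,(⟨0,[(20,0),(2,0)]⟩,⟨0,[(0,0)]⟩),.k,.k,(.x (-1) ⟨1,[(1,0),(2,0),(15,1),(2,3),(3,
  1)]⟩ ⟨2,[(0,2),(0,0),(11,4),(2,0),(5,2)]⟩),.k,.k,[⟨0,[(26,0)]⟩,⟨0,[(3,0),(15,0),(0,0)]⟩,⟨1,[(16,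
  0),(0,2)]⟩,⟨0,[(2,0)]⟩]⟩))))) (.Q [0,0,0,0,0,0,1,1,0,0,-1] (.p false [0,0,1] [] (⟨0,[(16,0)]⟩,⟨0,
  [(15,0)]⟩) .k 0 (⟨0,[]⟩,⟨0,[]⟩) .k .k) (.Q [0,0,0,1,0,0,-1,-1,0,0,1] (.p true [0,0,1] [] (⟨0,[(17,
  0)]⟩,⟨0,[(16,0)]⟩) .k 0 (⟨0,[]⟩,⟨0,[]⟩) .k .k) (.R ⟨2,true,false,false,[0,1],[0,0,1],[1,1,1],(⟨0,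
  []⟩,⟨0,[]⟩),(⟨0,[(18,0)]⟩,⟨0,[(17,0)]⟩),⟨0,[]⟩,.k,.k,.k,.k,.k,.k,⟨false,0,⟨0,[(0,0),(13,0),(7,
  0)]⟩,⟨1,[(16,1),(8,0),(0,0)]⟩⟩,⟨true,0,⟨0,[(14,0)]⟩,⟨0,[(2,0),(14,0),(0,0)]⟩⟩,⟨true,0,⟨0,[(23,
  0)]⟩,⟨0,[(24,0)]⟩⟩,⟨false,1,⟨2,[(3,0),(1,0),(17,1),(2,2)]⟩,⟨0,[(0,0)]⟩⟩,⟨false,0,⟨0,[]⟩,⟨3,[(6,0),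
  (0,0),(18,1)]⟩⟩,⟨true,0,⟨0,[(1,0)]⟩,⟨0,[(13,0)]⟩⟩,[]⟩) (.Q [0,0,-1,0,0,0,-1,0,0,1,1] (.p true [1,
  -1,1] [] (⟨0,[(18,0),(1,0)]⟩,⟨0,[(4,0)]⟩) .k 0 (⟨0,[]⟩,⟨0,[]⟩) .k .k) (.I [1,0,0,1,1,0,0,-2] (.R
  ⟨0,false,false,true,[0,1,-1],[1,0,-1],[0,1,1],(⟨0,[(6,0)]⟩,⟨0,[(20,0),(1,0)]⟩),(⟨0,[(19,0)]⟩,⟨0,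
  [(20,0)]⟩),⟨0,[(20,0)]⟩,.k,.k,.k,.k,.k,.k,⟨false,0,⟨0,[(18,0)]⟩,⟨3,[(0,1),(23,1),(2,0),(0,0)]⟩⟩,
  ⟨true,0,⟨0,[(4,0),(11,0)]⟩,⟨0,[(19,0),(0,0)]⟩⟩,⟨false,0,⟨1,[(1,0),(0,1),(10,0)]⟩,⟨1,[(0,0),(25,0),
  (1,0)]⟩⟩,⟨true,0,⟨0,[(2,0),(9,0)]⟩,⟨0,[(19,0),(0,0),(5,0)]⟩⟩,⟨false,0,⟨0,[]⟩,⟨0,[]⟩⟩,⟨false,0,⟨0,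
  []⟩,⟨0,[]⟩⟩,[.o ⟨false,0,⟨0,[(12,0)]⟩,⟨7,[(7,3),(0,0),(0,0),(11,1),(6,3)]⟩⟩,.o ⟨false,1,⟨1,[(15,
  1),(5,0),(6,0)]⟩,⟨0,[(3,0)]⟩⟩,.a ⟨true,0,⟨0,[(1,0)]⟩,⟨0,[(16,0)]⟩⟩ ⟨false,0,⟨1,[(16,0),(0,0)]⟩,⟨1,
  [(27,0),(0,0)]⟩⟩ ⟨true,0,⟨0,[(12,0),(3,0)]⟩,⟨0,[(1,0),(1,0)]⟩⟩,.o ⟨false,0,⟨1,[(1,0),(11,0)]⟩,⟨3,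
  [(0,1),(2,1),(1,1),(15,0),(6,0)]⟩⟩]⟩) (.R ⟨0,false,false,false,[0,1,-1],[1,0,-1],[1],(⟨0,[(6,0)]⟩,
  ⟨0,[(20,0),(1,0)]⟩),(⟨0,[(19,0)]⟩,⟨0,[(20,0)]⟩),⟨0,[(20,0)]⟩,.k,.k,.k,.k,.k,.k,⟨false,0,⟨1,[(0,0),
  (25,0),(0,0)]⟩,⟨1,[(15,1),(0,1),(10,0),(0,0)]⟩⟩,⟨true,0,⟨0,[(4,0),(11,0)]⟩,⟨0,[(19,0),(0,0)]⟩⟩,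
  ⟨true,0,⟨3,[(0,1),(23,1),(2,0),(0,0)]⟩,⟨0,[(15,0),(0,0),(9,0)]⟩⟩,⟨false,1,⟨0,[(2,0),(9,0),(15,
  0)]⟩,⟨0,[(19,0),(0,0),(5,0)]⟩⟩,⟨false,0,⟨0,[]⟩,⟨0,[]⟩⟩,⟨false,0,⟨0,[]⟩,⟨0,[]⟩⟩,[.o ⟨false,1,⟨1,
  [(15,1),(5,0),(6,0)]⟩,⟨0,[(3,0)]⟩⟩,.o ⟨false,1,⟨0,[(12,0),(15,0)]⟩,⟨0,[(14,0)]⟩⟩,.a ⟨true,0,⟨0,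
  [(1,0)]⟩,⟨0,[(16,0)]⟩⟩ ⟨true,0,⟨0,[]⟩,⟨0,[(30,0)]⟩⟩ ⟨false,1,⟨0,[(12,0),(3,0),(11,0)]⟩,⟨5,[(0,0),
  (0,3),(5,1),(18,0),(0,0)]⟩⟩,.o ⟨false,0,⟨1,[(1,0),(11,0)]⟩,⟨1,[(16,1),(4,0),(5,0)]⟩⟩]⟩)) (.I [1,
  -1,0,0,1,0,0,-1] (.Q [0,0,0,-1,0,0,1,1,0,-1,-1] (.p false [1,-1,1] [] (⟨0,[(20,0),(1,0)]⟩,⟨0,[(6,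
  0)]⟩) .k 0 (⟨0,[]⟩,⟨0,[]⟩) .k .k) (.I [0,0,-1,-1,0,0,0,0,-1] (.Q [0,0,0,0,0,1,0,0,0,0,0,-1] (.p
  false [0,0,0,1] [] (⟨0,[(13,0)]⟩,⟨1,[(12,0),(8,0),(0,0)]⟩) .k 0 (⟨0,[]⟩,⟨0,[]⟩) .k .k) (.R ⟨0,
  false,false,true,[0,0,0,1],[1,-1],[1,0,0,0,0,0,0,0,1],(⟨0,[(14,0)]⟩,⟨1,[(13,0),(8,0),(0,0)]⟩),(⟨0,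
  [(25,0)]⟩,⟨0,[(26,0)]⟩),⟨0,[(0,0)]⟩,.k,.k,(.r (-1) ⟨0,[(1,0),(10,0)]⟩ ⟨0,[(1,0),(17,0),(0,0),(8,
  1)]⟩),(.r (-1) ⟨3,[(11,0),(0,2),(6,1),(0,1),(8,3)]⟩ ⟨0,[(1,0)]⟩),.k,.k,⟨false,1,⟨1,[(12,0),(16,1),
  (1,0)]⟩,⟨0,[(1,0),(31,0)]⟩⟩,⟨true,0,⟨1,[(4,0),(9,1),(1,0)]⟩,⟨1,[(13,0),(8,0),(0,0)]⟩⟩,⟨true,0,⟨0,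
  []⟩,⟨0,[(33,0)]⟩⟩,⟨false,0,⟨1,[(1,1),(2,0),(9,1),(1,0)]⟩,⟨1,[(12,0),(0,0),(8,0),(0,0),(5,1),(1,
  0)]⟩⟩,⟨false,0,⟨0,[]⟩,⟨0,[]⟩⟩,⟨false,0,⟨0,[]⟩,⟨0,[]⟩⟩,[.o ⟨false,0,⟨1,[(2,0),(12,0),(12,0)]⟩,⟨3,
  [(11,0),(0,0),(16,3),(1,1)]⟩⟩,.o ⟨false,1,⟨1,[(24,0),(3,1),(2,0)]⟩,⟨0,[(29,0)]⟩⟩,.a ⟨true,0,⟨1,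
  [(13,0),(8,0),(0,0)]⟩,⟨0,[(14,0)]⟩⟩ ⟨false,1,⟨1,[(12,0),(18,0)]⟩,⟨1,[(1,1),(17,0),(0,0),(8,1)]⟩⟩
  ⟨true,0,⟨1,[(2,0),(11,1),(0,0),(12,0)]⟩,⟨1,[(13,0),(8,0),(0,0),(5,1)]⟩⟩,.o ⟨false,0,⟨1,[(13,0),(2,
  0),(2,0)]⟩,⟨1,[(14,1),(9,0),(5,0)]⟩⟩]⟩) (.R ⟨1,false,false,true,[0,0,0,1],[1,-1],[0,0,0,0,0,0,0,0,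
  1],(⟨0,[(14,0)]⟩,⟨1,[(13,0),(8,0),(0,0)]⟩),(⟨0,[(25,0)]⟩,⟨0,[(26,0)]⟩),⟨0,[(0,0)]⟩,.k,.k,(.r (-1)
  ⟨0,[(1,0),(10,0)]⟩ ⟨0,[(1,0),(17,0),(0,0),(8,1)]⟩),(.r (-1) ⟨3,[(11,0),(0,2),(6,1),(0,1),(8,3)]⟩
  ⟨0,[(1,0)]⟩),.k,.k,⟨false,1,⟨1,[(12,0),(16,1),(1,0)]⟩,⟨0,[(1,0),(31,0)]⟩⟩,⟨true,0,⟨1,[(4,0),(9,1),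
  (1,0)]⟩,⟨1,[(13,0),(8,0),(0,0)]⟩⟩,⟨false,1,⟨3,[(11,0),(0,0),(18,1)]⟩,⟨0,[]⟩⟩,⟨false,0,⟨1,[(1,1),
  (2,0),(9,1),(1,0)]⟩,⟨1,[(12,0),(0,0),(8,0),(0,0),(5,1),(1,0)]⟩⟩,⟨true,0,⟨0,[(29,0)]⟩,⟨0,[(28,
  0)]⟩⟩,⟨false,0,⟨1,[(1,1),(2,0),(9,1),(1,0),(12,1)]⟩,⟨1,[(12,0),(0,0),(8,0),(0,0),(7,0)]⟩⟩,[.o
  ⟨false,0,⟨1,[(2,0),(12,0),(12,0)]⟩,⟨3,[(11,0),(0,0),(16,3),(1,1)]⟩⟩,.o ⟨false,1,⟨1,[(24,0),(3,1),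
  (2,0)]⟩,⟨0,[(29,0)]⟩⟩,.a ⟨true,0,⟨1,[(13,0),(8,0),(0,0)]⟩,⟨0,[(14,0)]⟩⟩ ⟨false,1,⟨1,[(12,0),(18,
  0)]⟩,⟨1,[(1,1),(17,0),(0,0),(8,1)]⟩⟩ ⟨true,0,⟨1,[(2,0),(11,1),(0,0),(12,0)]⟩,⟨1,[(13,0),(8,0),(0,
  0),(5,1)]⟩⟩,.o ⟨false,0,⟨1,[(13,0),(2,0),(2,0)]⟩,⟨1,[(14,1),(9,0),(5,0)]⟩⟩]⟩)) (.Q [0,0,0,0,0,1,0,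
  0,0,-1,1] (.ed false [0,1,1] .k) (.Q [0,0,0,0,0,0,1,0,0,2,-1] (.p false [-1,1,1] [1] (⟨0,[(0,0)]⟩,
  ⟨0,[(22,0),(2,0)]⟩) .k 1 (⟨0,[]⟩,⟨0,[]⟩) .k .k) (.R ⟨0,false,false,false,[-1,1,1],[0,1],[0,1,1,0,
  0,0,0,1],(⟨0,[(1,0)]⟩,⟨0,[(23,0),(2,0)]⟩),(⟨0,[(27,0)]⟩,⟨0,[(26,0)]⟩),⟨0,[(23,0)]⟩,.k,.k,.k,.k,.k,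
  .k,⟨false,0,⟨0,[(22,0),(5,0)]⟩,⟨0,[(4,0),(25,0)]⟩⟩,⟨true,0,⟨0,[(8,0)]⟩,⟨3,[(0,1),(19,2),(0,0)]⟩⟩,
  ⟨true,0,⟨0,[(29,0)]⟩,⟨0,[(30,0)]⟩⟩,⟨false,1,⟨0,[(4,0),(3,0)]⟩,⟨2,[(0,0),(10,0),(10,0)]⟩⟩,⟨false,0,
  ⟨0,[]⟩,⟨0,[]⟩⟩,⟨false,0,⟨0,[]⟩,⟨0,[]⟩⟩,[.o ⟨false,0,⟨0,[(30,0)]⟩,⟨1,[(25,0),(3,1),(2,0)]⟩⟩,.o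
  ⟨false,1,⟨3,[(2,1),(9,0),(17,1),(0,0),(0,1)]⟩,⟨1,[(3,0),(12,0),(12,0)]⟩⟩,.o ⟨false,1,⟨1,[(0,0),(3,
  0),(13,0),(12,0)]⟩,⟨1,[(5,0),(2,1),(8,0)]⟩⟩,.a ⟨true,0,⟨0,[(0,0)]⟩,⟨0,[(8,0)]⟩⟩ ⟨false,0,⟨0,[(22,
  0)]⟩,⟨0,[(4,0)]⟩⟩ ⟨true,0,⟨0,[(8,0),(21,0)]⟩,⟨2,[(0,1),(4,0),(22,0),(0,1)]⟩⟩]⟩) (.Q [0,0,0,-1,0,0,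
  0,0,-1,-1,0,1] (.p true [0,0,0,1] [1] (⟨0,[(15,0)]⟩,⟨1,[(14,0),(8,0),(0,0)]⟩) .k 1 (⟨0,[]⟩,⟨0,
  []⟩) .k .k) (.R ⟨0,false,false,false,[0,0,0,1],[1,-1],[0,1],(⟨0,[(16,0)]⟩,⟨1,[(15,0),(8,0),(0,
  0)]⟩),(⟨0,[(27,0)]⟩,⟨0,[(28,0)]⟩),⟨1,[(2,0),(8,0),(3,0)]⟩,.k,.k,(.r (-1) ⟨1,[(14,0),(14,1),(3,
  0)]⟩ ⟨1,[(0,1),(14,0),(5,0),(0,0),(1,0),(0,0),(5,3)]⟩),(.x (-1) ⟨3,[(13,0),(0,0),(13,3),(3,1)]⟩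
  ⟨1,[(6,0),(11,0),(8,1)]⟩),.k,.k,⟨false,0,⟨0,[(31,0),(3,0)]⟩,⟨0,[(29,0),(3,0)]⟩⟩,⟨true,0,⟨0,[(0,0),
  (2,0)]⟩,⟨1,[(15,0),(8,0),(0,0)]⟩⟩,⟨false,0,⟨1,[(0,1),(14,0),(8,0),(0,0),(5,1)]⟩,⟨1,[(14,0),(18,
  0)]⟩⟩,⟨true,0,⟨0,[(0,0)]⟩,⟨1,[(3,1),(11,0),(8,0),(0,0),(3,1),(1,1)]⟩⟩,⟨false,0,⟨0,[]⟩,⟨0,[]⟩⟩,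
  ⟨false,0,⟨0,[]⟩,⟨0,[]⟩⟩,[.o ⟨false,1,⟨1,[(26,0),(3,1),(2,0)]⟩,⟨0,[(31,0)]⟩⟩,.o ⟨false,1,⟨2,[(1,0),
  (2,0),(0,0),(24,1),(2,1)]⟩,⟨0,[(31,0),(3,0)]⟩⟩,.a ⟨true,0,⟨1,[(15,0),(8,0),(0,0)]⟩,⟨0,[(16,0)]⟩⟩
  ⟨true,0,⟨0,[(35,0)]⟩,⟨0,[]⟩⟩ ⟨false,1,⟨1,[(0,1),(13,0),(18,0)]⟩,⟨1,[(15,0),(8,0),(0,0),(5,1)]⟩⟩,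
  .o ⟨false,0,⟨1,[(15,0),(2,0),(2,0)]⟩,⟨1,[(16,1),(9,0),(5,0)]⟩⟩]⟩) (.I [1,-1,0,0,0,0,0,0,1] (.R ⟨0,
  false,false,true,[0,0,0,1],[1,-1],[1,0,0,0,0,0,0,0,1],(⟨0,[(17,0)]⟩,⟨1,[(16,0),(8,0),(0,0)]⟩),(⟨0,
  [(28,0)]⟩,⟨0,[(29,0)]⟩),⟨1,[(3,0),(8,0),(3,0)]⟩,.k,.k,(.r 0 ⟨0,[(0,0),(29,0)]⟩ ⟨0,[(4,0),(9,0)]⟩),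
  (.r 0 ⟨0,[(0,0),(1,1),(4,1),(20,5),(0,5),(0,0),(1,1)]⟩ ⟨1,[(14,0),(15,1),(3,0)]⟩),.k,.k,⟨false,0,
  ⟨0,[(0,0),(31,0)]⟩,⟨1,[(14,0),(16,1),(1,0)]⟩⟩,⟨true,0,⟨1,[(7,0),(9,1),(1,0)]⟩,⟨1,[(16,0),(8,0),(0,
  0)]⟩⟩,⟨true,0,⟨0,[]⟩,⟨0,[(36,0)]⟩⟩,⟨false,1,⟨5,[(2,1),(2,1),(0,1),(7,2),(2,5),(13,3),(2,0)]⟩,⟨1,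
  [(0,1),(15,0),(8,0),(0,0),(5,1)]⟩⟩,⟨false,0,⟨0,[]⟩,⟨0,[]⟩⟩,⟨false,0,⟨0,[]⟩,⟨0,[]⟩⟩,[.o ⟨false,0,
  ⟨1,[(5,0),(12,0),(12,0)]⟩,⟨3,[(4,1),(9,0),(17,1),(0,0),(0,1)]⟩⟩,.o ⟨false,1,⟨1,[(27,0),(3,1),(2,
  0)]⟩,⟨0,[(32,0)]⟩⟩,.a ⟨true,0,⟨1,[(16,0),(8,0),(0,0)]⟩,⟨0,[(17,0)]⟩⟩ ⟨false,0,⟨0,[(0,0)]⟩,⟨3,[(14,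
  2),(0,0)]⟩⟩ ⟨true,0,⟨1,[(5,0),(11,1),(0,0),(12,0)]⟩,⟨1,[(16,0),(8,0),(0,0),(5,1)]⟩⟩,.o ⟨false,0,
  ⟨1,[(16,0),(2,0),(2,0)]⟩,⟨1,[(17,1),(9,0),(5,0)]⟩⟩]⟩) (.I [1,0,0,0,0,0,0,0,-1] (.R ⟨0,false,false,
  false,[0,0,0,1],[1,0,-1],[0,1,0,0,0,0,0,0,1],(⟨0,[(18,0)]⟩,⟨1,[(17,0),(8,0),(0,0)]⟩),(⟨0,[(26,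
  0)]⟩,⟨0,[(27,0)]⟩),⟨1,[(4,0),(8,0),(3,0)]⟩,.k,.k,(.r (-1) ⟨1,[(16,0),(14,1),(3,0)]⟩ ⟨0,[(0,0),(32,
  0),(2,0)]⟩),.k,.k,.k,⟨false,0,⟨2,[(2,2),(0,1),(10,0),(3,2),(6,0),(5,2)]⟩,⟨0,[(0,0),(6,0)]⟩⟩,⟨true,
  0,⟨0,[(11,0),(6,0)]⟩,⟨1,[(17,0),(5,1),(2,0),(0,0)]⟩⟩,⟨true,0,⟨0,[(37,0)]⟩,⟨0,[]⟩⟩,⟨false,1,⟨1,[(0,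
  1),(2,0),(3,0),(10,1),(3,0),(12,0)]⟩,⟨0,[(2,0),(6,0)]⟩⟩,⟨false,0,⟨0,[]⟩,⟨0,[]⟩⟩,⟨false,0,⟨0,[]⟩,
  ⟨0,[]⟩⟩,[.o ⟨false,1,⟨1,[(22,1),(5,0),(6,0)]⟩,⟨0,[(10,0)]⟩⟩,.o ⟨false,1,⟨1,[(3,0),(3,0),(14,0),
  (12,0)]⟩,⟨0,[(21,0)]⟩⟩,.a ⟨true,0,⟨1,[(17,0),(8,0),(0,0)]⟩,⟨0,[(18,0)]⟩⟩ ⟨true,0,⟨0,[(5,0),(25,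
  0)]⟩,⟨0,[(0,0)]⟩⟩ ⟨false,1,⟨1,[(3,0),(3,0),(10,1),(3,0),(12,0)]⟩,⟨1,[(14,0),(2,0)]⟩⟩,.o ⟨false,0,
  ⟨1,[(17,0),(2,0),(2,0)]⟩,⟨1,[(18,1),(9,0),(5,0)]⟩⟩]⟩) (.Q [0,0,0,0,0,0,-1,-1,1,0,1,-1] (.p true
  [0,0,1] [0,0,0,1] (⟨0,[(27,0)]⟩,⟨0,[(26,0)]⟩) .k 2 (⟨0,[(18,0)]⟩,⟨1,[(17,0),(8,0),(0,0)]⟩) .k (.x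
  (-1) ⟨0,[(7,0),(13,0),(5,0)]⟩ ⟨0,[(11,0),(14,0)]⟩)) (.K ⟨2,[0,0,0,1],0,0,(⟨0,[(19,0)]⟩,⟨1,[(18,0),
  (8,0),(0,0)]⟩),.k,(.x 0 ⟨1,[(9,0),(11,0),(8,1)]⟩ ⟨3,[(16,0),(0,0),(13,3),(3,1)]⟩),(.r 0 ⟨0,[(0,0),
  (3,0),(2,0),(1,0),(9,0),(10,3),(0,3),(2,1)]⟩ ⟨1,[(16,0),(15,1),(3,0)]⟩),.k,.k,[⟨0,[(0,0)]⟩,⟨0,[(2,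
  0),(16,0)]⟩,⟨1,[(19,1),(4,0),(0,0)]⟩,⟨1,[(18,0),(2,0),(2,0)]⟩]⟩) (.Q [0,0,0,0,0,1,0,0,0,-1,0,1]
  (.p true [0,0,0,1] [1] (⟨0,[(19,0)]⟩,⟨1,[(18,0),(8,0),(0,0)]⟩) .k 1 (⟨0,[]⟩,⟨0,[]⟩) .k .k) (.R ⟨0,
  false,false,false,[1,0,0,-1],[1,0,-1],[0,1,0,0,0,0,0,0,-1],(⟨1,[(19,0),(8,0),(0,0)]⟩,⟨0,[(20,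
  0)]⟩),(⟨0,[(28,0)]⟩,⟨0,[(29,0)]⟩),⟨0,[(0,0)]⟩,.k,.k,(.r (-1) ⟨1,[(17,0),(15,1),(3,0)]⟩ ⟨0,[(2,0),
  (2,0),(4,0),(20,2),(0,2),(2,0)]⟩),.k,.k,.k,⟨false,0,⟨1,[(1,1),(11,1),(5,0),(8,0),(0,0),(3,1),(1,
  1)]⟩,⟨0,[(2,0),(6,0)]⟩⟩,⟨true,0,⟨1,[(13,1),(5,0),(8,0),(0,0)]⟩,⟨0,[(20,0),(4,0)]⟩⟩,⟨true,0,⟨0,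
  [(39,0)]⟩,⟨0,[]⟩⟩,⟨false,1,⟨3,[(2,3),(2,0),(3,0),(9,1),(4,2),(12,2)]⟩,⟨0,[(1,0)]⟩⟩,⟨false,0,⟨0,
  []⟩,⟨0,[]⟩⟩,⟨false,0,⟨0,[]⟩,⟨0,[]⟩⟩,[.o ⟨false,1,⟨1,[(24,1),(5,0),(6,0)]⟩,⟨0,[(12,0)]⟩⟩,.o ⟨false,
  1,⟨1,[(5,0),(3,0),(14,0),(12,0)]⟩,⟨0,[(23,0)]⟩⟩,.a ⟨true,0,⟨0,[(20,0)]⟩,⟨1,[(19,0),(8,0),(0,0)]⟩⟩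
  ⟨true,0,⟨0,[(3,0)]⟩,⟨0,[(2,0)]⟩⟩ ⟨false,1,⟨3,[(5,0),(3,0),(9,1),(4,2),(12,2)]⟩,⟨0,[(12,0),(7,
  0)]⟩⟩,.o ⟨false,0,⟨1,[(10,0),(9,1),(1,0)]⟩,⟨7,[(17,0),(0,0),(0,3),(10,1),(5,3)]⟩⟩]⟩) (.Q [0,0,0,
  -1,0,0,1,1,-1,0,-1,1] (.p false [0,0,1] [0,0,0,1] (⟨0,[(29,0)]⟩,⟨0,[(28,0)]⟩) .k 2 (⟨0,[(20,0)]⟩,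
  ⟨1,[(19,0),(8,0),(0,0)]⟩) .k (.r 0 ⟨1,[(1,1),(11,1),(5,0),(8,0),(0,0)]⟩ ⟨3,[(2,1),(6,1),(8,0),(5,
  1),(0,1),(10,0)]⟩)) (.R ⟨1,false,false,false,[1,0,0,-1],[1,0,-1],[0,1,0,0,0,0,0,0,-1],(⟨1,[(20,0),
  (8,0),(0,0)]⟩,⟨0,[(21,0)]⟩),(⟨0,[(29,0)]⟩,⟨0,[(30,0)]⟩),⟨0,[(1,0)]⟩,.k,.k,(.r (-1) ⟨1,[(18,0),(15,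
  1),(3,0)]⟩ ⟨0,[(1,2),(1,0),(2,0),(4,0),(9,2),(11,2),(2,0)]⟩),.k,(.x 0 ⟨0,[(11,0),(18,0),(1,0)]⟩
  ⟨0,[(16,0),(10,0),(9,0)]⟩),.k,⟨false,0,⟨1,[(2,1),(11,1),(5,0),(8,0),(0,0),(3,1),(1,1)]⟩,⟨0,[(3,0),
  (6,0)]⟩⟩,⟨true,0,⟨1,[(14,1),(5,0),(8,0),(0,0)]⟩,⟨0,[(21,0),(4,0)]⟩⟩,⟨true,0,⟨0,[(40,0)]⟩,⟨0,[]⟩⟩,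
  ⟨false,1,⟨3,[(3,3),(2,0),(3,0),(9,1),(4,2),(12,2)]⟩,⟨0,[(2,0)]⟩⟩,⟨false,0,⟨0,[(36,0)]⟩,⟨0,[(35,0),
  (2,0)]⟩⟩,⟨false,1,⟨1,[(5,1),(0,0),(3,0),(14,0),(12,0)]⟩,⟨0,[(0,0)]⟩⟩,[.o ⟨false,1,⟨1,[(25,1),(5,
  0),(6,0)]⟩,⟨0,[(13,0)]⟩⟩,.o ⟨false,1,⟨1,[(6,0),(3,0),(14,0),(12,0)]⟩,⟨0,[(24,0)]⟩⟩,.a ⟨true,0,⟨0,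
  [(21,0)]⟩,⟨1,[(20,0),(8,0),(0,0)]⟩⟩ ⟨true,0,⟨0,[(4,0)]⟩,⟨0,[(3,0)]⟩⟩ ⟨false,1,⟨3,[(6,0),(3,0),(9,
  1),(4,2),(12,2)]⟩,⟨0,[(13,0),(7,0)]⟩⟩,.o ⟨false,0,⟨1,[(11,0),(9,1),(1,0)]⟩,⟨7,[(18,0),(0,0),(0,3),
  (10,1),(5,3)]⟩⟩]⟩) (.R ⟨1,true,false,false,[1,0,0,-1],[1,0,-1],[0,1,0,0,0,0,0,0,-1],(⟨1,[(20,0),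
  (8,0),(0,0)]⟩,⟨0,[(21,0)]⟩),(⟨0,[(29,0)]⟩,⟨0,[(30,0)]⟩),⟨0,[(1,0)]⟩,.k,.k,(.r (-1) ⟨1,[(18,0),(15,
  1),(3,0)]⟩ ⟨0,[(0,0),(0,3),(4,0),(2,0),(1,0),(9,4),(11,3),(2,0)]⟩),.k,(.r (-1) ⟨1,[(18,0),(9,1),
  (5,1),(3,0)]⟩ ⟨0,[(0,0),(20,0),(4,0)]⟩),.k,⟨false,0,⟨1,[(2,1),(11,1),(5,0),(8,0),(0,0),(3,1),(1,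
  1)]⟩,⟨0,[(3,0),(6,0)]⟩⟩,⟨true,0,⟨1,[(14,1),(5,0),(8,0),(0,0)]⟩,⟨0,[(21,0),(4,0)]⟩⟩,⟨true,0,⟨0,
  [(40,0)]⟩,⟨0,[]⟩⟩,⟨false,1,⟨0,[(0,0),(34,0),(2,0)]⟩,⟨0,[(2,0)]⟩⟩,⟨false,0,⟨0,[(36,0)]⟩,⟨0,[(35,0),
  (2,0)]⟩⟩,⟨true,0,⟨0,[(0,0)]⟩,⟨0,[(2,0),(32,0)]⟩⟩,[]⟩)))))))) (.Q [0,0,2,0,-1,0,-1,0,0,0,1] (.p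
  true [0,0,1] [] (⟨0,[(23,0)]⟩,⟨0,[(22,0)]⟩) .k 0 (⟨0,[]⟩,⟨0,[]⟩) .k .k) (.K ⟨2,[0,1,1],1,0,(⟨0,
  [(24,0),(2,0)]⟩,⟨0,[(1,0)]⟩),.k,.k,(.r 1 ⟨0,[(0,0),(6,0),(22,1)]⟩ ⟨1,[(4,1),(23,1),(0,1),(1,0),(0,
  0)]⟩),.k,.k,[⟨0,[(30,0)]⟩,⟨1,[(0,0),(3,0),(14,0),(8,1)]⟩,⟨0,[(0,0)]⟩,⟨0,[(4,0),(13,0)]⟩]⟩) (.I [1,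
  0,0,0,0,0,0,0,-1] (.Q [0,0,0,0,0,0,1,1,1,1,-1,-1] (.p false [0,0,1] [1,0,0,-1] (⟨0,[(25,0)]⟩,⟨0,
  [(24,0)]⟩) .k 2 (⟨1,[(15,0),(8,0),(0,0)]⟩,⟨0,[(16,0)]⟩) .k (.x (-1) ⟨2,[(1,0),(11,0),(0,0),(6,1),
  (3,2)]⟩ ⟨0,[(9,0),(14,0)]⟩)) (.Q [0,0,0,0,0,1,0,0,0,0,0,-1] (.p false [0,0,0,1] [] (⟨0,[(17,0)]⟩,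
  ⟨1,[(16,0),(8,0),(0,0)]⟩) .k 0 (⟨0,[]⟩,⟨0,[]⟩) .k .k) (.R ⟨0,false,false,false,[0,0,0,1],[1,0,-1],
  [0,1,0,0,0,0,0,0,1],(⟨0,[(18,0)]⟩,⟨1,[(17,0),(8,0),(0,0)]⟩),(⟨0,[(26,0)]⟩,⟨0,[(27,0)]⟩),⟨0,[(0,
  0)]⟩,.k,.k,(.r (-1) ⟨1,[(16,0),(14,1),(3,0)]⟩ ⟨0,[(2,0),(30,0),(2,0)]⟩),.k,.k,.k,⟨false,0,⟨0,[(1,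
  0),(9,0),(6,0),(12,0),(1,0)]⟩,⟨0,[(2,0),(4,0)]⟩⟩,⟨true,0,⟨0,[(11,0),(6,0)]⟩,⟨1,[(17,0),(5,1),(2,
  0),(0,0)]⟩⟩,⟨true,0,⟨0,[(37,0)]⟩,⟨0,[]⟩⟩,⟨false,1,⟨0,[(2,0),(4,0),(3,0),(6,0)]⟩,⟨0,[(1,0)]⟩⟩,
  ⟨false,0,⟨0,[]⟩,⟨0,[]⟩⟩,⟨false,0,⟨0,[]⟩,⟨0,[]⟩⟩,[.o ⟨false,1,⟨1,[(22,1),(5,0),(6,0)]⟩,⟨0,[(10,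
  0)]⟩⟩,.o ⟨false,1,⟨0,[(7,0),(3,0)]⟩,⟨0,[(21,0)]⟩⟩,.a ⟨true,0,⟨1,[(17,0),(8,0),(0,0)]⟩,⟨0,[(18,
  0)]⟩⟩ ⟨true,0,⟨0,[(5,0),(25,0)]⟩,⟨0,[(2,0)]⟩⟩ ⟨false,1,⟨0,[(7,0),(3,0),(6,0)]⟩,⟨1,[(14,0),(2,
  0)]⟩⟩,.o ⟨false,0,⟨1,[(17,0),(2,0),(2,0)]⟩,⟨1,[(18,1),(9,0),(5,0)]⟩⟩]⟩) (.Q [0,0,0,-1,0,0,1,1,1,1,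
  -1,-1] (.p false [0,0,1] [1,0,0,-1] (⟨0,[(27,0)]⟩,⟨0,[(26,0)]⟩) .k 2 (⟨1,[(17,0),(8,0),(0,0)]⟩,⟨0,
  [(18,0)]⟩) .k (.r 0 ⟨0,[(1,0),(9,0),(6,0)]⟩ ⟨5,[(2,1),(0,0),(3,2),(7,1),(6,2),(0,1)]⟩)) (.R ⟨1,
  false,false,false,[0,0,0,1],[1,0,-1],[0,1,0,0,0,0,0,0,1],(⟨0,[(19,0)]⟩,⟨1,[(18,0),(8,0),(0,0)]⟩),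
  (⟨0,[(27,0)]⟩,⟨0,[(28,0)]⟩),⟨0,[(1,0)]⟩,.k,.k,(.r (-1) ⟨1,[(17,0),(14,1),(3,0)]⟩ ⟨0,[(3,0),(30,0),
  (2,0)]⟩),.k,(.x 0 ⟨0,[(9,0),(18,0),(1,0)]⟩ ⟨0,[(14,0),(10,0),(9,0)]⟩),.k,⟨false,0,⟨0,[(2,0),(9,0),
  (6,0),(12,0),(1,0)]⟩,⟨0,[(3,0),(4,0)]⟩⟩,⟨true,0,⟨0,[(12,0),(6,0)]⟩,⟨1,[(18,0),(5,1),(2,0),(0,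
  0)]⟩⟩,⟨true,0,⟨0,[(38,0)]⟩,⟨0,[]⟩⟩,⟨false,1,⟨0,[(3,0),(4,0),(3,0),(6,0)]⟩,⟨0,[(2,0)]⟩⟩,⟨false,0,
  ⟨0,[(34,0)]⟩,⟨0,[(33,0),(2,0)]⟩⟩,⟨false,1,⟨0,[(3,0),(4,0),(3,0),(6,0),(14,0)]⟩,⟨0,[(0,0)]⟩⟩,[.o
  ⟨false,1,⟨1,[(23,1),(5,0),(6,0)]⟩,⟨0,[(11,0)]⟩⟩,.o ⟨false,1,⟨0,[(8,0),(3,0)]⟩,⟨0,[(22,0)]⟩⟩,.a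
  ⟨true,0,⟨1,[(18,0),(8,0),(0,0)]⟩,⟨0,[(19,0)]⟩⟩ ⟨true,0,⟨0,[(6,0),(25,0)]⟩,⟨0,[(3,0)]⟩⟩ ⟨false,1,
  ⟨0,[(8,0),(3,0),(6,0)]⟩,⟨1,[(15,0),(2,0)]⟩⟩,.o ⟨false,0,⟨1,[(18,0),(2,0),(2,0)]⟩,⟨1,[(19,1),(9,0),
  (5,0)]⟩⟩]⟩) (.R ⟨1,true,false,false,[0,0,0,1],[1,0,-1],[0,1,0,0,0,0,0,0,1],(⟨0,[(19,0)]⟩,⟨1,[(18,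
  0),(8,0),(0,0)]⟩),(⟨0,[(27,0)]⟩,⟨0,[(28,0)]⟩),⟨0,[(1,0)]⟩,.k,.k,(.r (-1) ⟨1,[(17,0),(14,1),(3,
  0)]⟩ ⟨1,[(0,1),(14,0),(2,0),(18,1)]⟩),.k,(.r (-1) ⟨1,[(17,0),(8,1),(5,1),(3,0)]⟩ ⟨1,[(0,1),(17,0),
  (5,1),(2,0),(0,0)]⟩),.k,⟨false,0,⟨0,[(2,0),(9,0),(6,0),(12,0),(1,0)]⟩,⟨0,[(3,0),(4,0)]⟩⟩,⟨true,0,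
  ⟨0,[(12,0),(6,0)]⟩,⟨1,[(18,0),(5,1),(2,0),(0,0)]⟩⟩,⟨true,0,⟨0,[(38,0)]⟩,⟨0,[]⟩⟩,⟨false,1,⟨0,[(0,
  0),(32,0),(2,0)]⟩,⟨0,[(2,0)]⟩⟩,⟨false,0,⟨0,[(34,0)]⟩,⟨0,[(33,0),(2,0)]⟩⟩,⟨true,0,⟨0,[(0,0)]⟩,⟨0,
  [(2,0),(30,0)]⟩⟩,[]⟩))) (.K ⟨2,[1,0,0,-1],0,0,(⟨1,[(16,0),(8,0),(0,0)]⟩,⟨0,[(17,0)]⟩),.k,(.x 0 ⟨1,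
  [(7,0),(11,0),(8,1)]⟩ ⟨3,[(14,0),(0,0),(13,3),(3,1)]⟩),(.r 0 ⟨0,[(1,0),(30,0),(2,0)]⟩ ⟨1,[(15,0),
  (14,1),(3,0)]⟩),.k,.k,[⟨0,[(0,0)]⟩,⟨1,[(4,1),(11,0),(8,0),(0,0),(3,1)]⟩,⟨1,[(16,0),(5,0),(0,0),(1,
  0),(0,0)]⟩,⟨1,[(7,0),(9,1),(1,0)]⟩]⟩)) (.I [0,0,-1,-1,0,0,0,0,1] (.Q [0,0,0,0,0,-1,0,0,0,1,0,-1]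
  (.p false [0,0,0,1] [1] (⟨0,[(17,0)]⟩,⟨1,[(16,0),(8,0),(0,0)]⟩) .k 1 (⟨0,[]⟩,⟨0,[]⟩) .k .k) (.R
  ⟨1,false,false,true,[1,0,0,-1],[1,-1],[0,0,0,0,0,0,0,0,-1],(⟨1,[(17,0),(8,0),(0,0)]⟩,⟨0,[(18,
  0)]⟩),(⟨0,[(29,0)]⟩,⟨0,[(30,0)]⟩),⟨0,[(0,0)]⟩,.k,.k,(.r (-1) ⟨1,[(15,0),(15,1),(3,0)]⟩ ⟨0,[(1,0),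
  (2,3),(3,1),(2,1),(15,3),(2,3),(2,1)]⟩),(.r (-1) ⟨0,[(5,0),(9,0)]⟩ ⟨0,[(1,0)]⟩),.k,.k,⟨false,1,⟨1,
  [(15,0),(17,1),(1,0)]⟩,⟨0,[(1,0),(35,0)]⟩⟩,⟨true,0,⟨1,[(17,0),(2,0),(2,0)]⟩,⟨0,[(18,0)]⟩⟩,⟨false,
  1,⟨3,[(15,0),(0,0),(18,1)]⟩,⟨0,[]⟩⟩,⟨false,0,⟨1,[(1,1),(15,0),(2,0),(2,0)]⟩,⟨1,[(15,0),(2,1),(14,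
  1),(1,0)]⟩⟩,⟨true,0,⟨0,[(33,0)]⟩,⟨0,[(32,0)]⟩⟩,⟨false,0,⟨3,[(1,0),(0,2),(5,0),(2,0),(5,1),(15,
  0)]⟩,⟨1,[(15,0),(2,1),(16,0)]⟩⟩,[.o ⟨false,0,⟨1,[(6,0),(12,0),(12,0)]⟩,⟨3,[(5,1),(9,0),(17,1),(0,
  0),(0,1)]⟩⟩,.o ⟨false,1,⟨1,[(28,0),(3,1),(2,0)]⟩,⟨0,[(33,0)]⟩⟩,.a ⟨true,0,⟨0,[(18,0)]⟩,⟨1,[(17,0),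
  (8,0),(0,0)]⟩⟩ ⟨false,1,⟨1,[(15,0),(19,0)]⟩,⟨0,[(2,0)]⟩⟩ ⟨true,0,⟨3,[(6,0),(10,1),(1,0),(12,2)]⟩,
  ⟨0,[(18,0),(14,0)]⟩⟩,.o ⟨false,0,⟨1,[(8,0),(9,1),(1,0)]⟩,⟨7,[(15,0),(0,0),(0,3),(10,1),(5,
  3)]⟩⟩]⟩) (.R ⟨0,false,false,true,[1,0,0,-1],[1,-1],[1,0,0,0,0,0,0,0,-1],(⟨1,[(17,0),(8,0),(0,0)]⟩,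
  ⟨0,[(18,0)]⟩),(⟨0,[(29,0)]⟩,⟨0,[(30,0)]⟩),⟨0,[(0,0)]⟩,.k,.k,(.r (-1) ⟨1,[(15,0),(15,1),(3,0)]⟩ ⟨0,
  [(1,0),(2,3),(3,1),(2,1),(15,3),(2,3),(2,1)]⟩),(.r (-1) ⟨0,[(5,0),(9,0)]⟩ ⟨0,[(1,0)]⟩),.k,.k,
  ⟨false,1,⟨1,[(15,0),(17,1),(1,0)]⟩,⟨0,[(1,0),(35,0)]⟩⟩,⟨true,0,⟨1,[(17,0),(2,0),(2,0)]⟩,⟨0,[(18,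
  0)]⟩⟩,⟨true,0,⟨0,[]⟩,⟨0,[(37,0)]⟩⟩,⟨false,0,⟨1,[(1,1),(15,0),(2,0),(2,0)]⟩,⟨1,[(15,0),(2,1),(14,
  1),(1,0)]⟩⟩,⟨false,0,⟨0,[]⟩,⟨0,[]⟩⟩,⟨false,0,⟨0,[]⟩,⟨0,[]⟩⟩,[.o ⟨false,0,⟨1,[(6,0),(12,0),(12,
  0)]⟩,⟨3,[(5,1),(9,0),(17,1),(0,0),(0,1)]⟩⟩,.o ⟨false,1,⟨1,[(28,0),(3,1),(2,0)]⟩,⟨0,[(33,0)]⟩⟩,.a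
  ⟨true,0,⟨0,[(18,0)]⟩,⟨1,[(17,0),(8,0),(0,0)]⟩⟩ ⟨false,1,⟨1,[(15,0),(19,0)]⟩,⟨0,[(2,0)]⟩⟩ ⟨true,0,
  ⟨3,[(6,0),(10,1),(1,0),(12,2)]⟩,⟨0,[(18,0),(14,0)]⟩⟩,.o ⟨false,0,⟨1,[(8,0),(9,1),(1,0)]⟩,⟨7,[(15,
  0),(0,0),(0,3),(10,1),(5,3)]⟩⟩]⟩)) (.Q [0,-1,0,-1,1,0,0,0,-1,-1,0,1] (.p true [0,0,0,1] [1] (⟨0,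
  [(17,0)]⟩,⟨1,[(16,0),(8,0),(0,0)]⟩) .k 1 (⟨0,[]⟩,⟨0,[]⟩) .k .k) (.I [0,0,1,1,0,0,0,-1,1] (.Q [0,0,
  0,0,0,1,0,0,0,0,0,-1] (.p false [0,0,0,1] [] (⟨0,[(19,0)]⟩,⟨1,[(18,0),(8,0),(0,0)]⟩) .k 0 (⟨0,[]⟩,
  ⟨0,[]⟩) .k .k) (.R ⟨0,false,false,false,[0,0,0,1],[1,-1],[0,1],(⟨0,[(20,0)]⟩,⟨1,[(19,0),(8,0),(0,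
  0)]⟩),(⟨0,[(31,0)]⟩,⟨0,[(32,0)]⟩),⟨0,[(0,0)]⟩,.k,.k,(.x 0 ⟨1,[(10,0),(11,0),(8,1)]⟩ ⟨3,[(17,0),(0,
  0),(13,3),(3,1)]⟩),(.r 0 ⟨0,[(4,0),(1,1),(3,0),(2,0),(15,1),(2,1),(2,0)]⟩ ⟨1,[(17,0),(15,1),(3,
  0)]⟩),.k,.k,⟨false,0,⟨0,[(35,0),(3,0)]⟩,⟨0,[(33,0),(3,0)]⟩⟩,⟨true,0,⟨1,[(10,0),(9,1),(1,0)]⟩,⟨1,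
  [(19,0),(8,0),(0,0)]⟩⟩,⟨true,0,⟨0,[(3,0),(29,0)]⟩,⟨0,[(4,0)]⟩⟩,⟨false,1,⟨0,[(2,0)]⟩,⟨1,[(4,1),(14,
  0),(8,0),(0,0),(5,1)]⟩⟩,⟨false,0,⟨0,[]⟩,⟨0,[]⟩⟩,⟨false,0,⟨0,[]⟩,⟨0,[]⟩⟩,[.o ⟨false,1,⟨7,[(2,3),(5,
  0),(9,1),(0,1),(1,0),(8,1),(3,2)]⟩,⟨0,[(35,0)]⟩⟩,.o ⟨false,1,⟨1,[(8,0),(0,0),(3,0),(20,0),(2,0)]⟩,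
  ⟨0,[(35,0),(3,0)]⟩⟩,.a ⟨true,0,⟨1,[(19,0),(8,0),(0,0)]⟩,⟨0,[(20,0)]⟩⟩ ⟨true,0,⟨0,[(39,0)]⟩,⟨0,
  []⟩⟩ ⟨false,1,⟨0,[(2,0),(1,0)]⟩,⟨1,[(19,0),(8,0),(0,0),(5,1)]⟩⟩,.o ⟨false,0,⟨1,[(19,0),(2,0),(2,
  0)]⟩,⟨1,[(20,1),(9,0),(5,0)]⟩⟩]⟩) (.R ⟨1,false,false,false,[0,0,0,1],[1,-1],[0,0,0,0,0,0,0,0,1],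
  (⟨0,[(20,0)]⟩,⟨1,[(19,0),(8,0),(0,0)]⟩),(⟨0,[(31,0)]⟩,⟨0,[(32,0)]⟩),⟨0,[(0,0)]⟩,.k,.k,(.x 0 ⟨1,
  [(10,0),(11,0),(8,1)]⟩ ⟨3,[(17,0),(0,0),(13,3),(3,1)]⟩),(.r 0 ⟨0,[(0,3),(3,0),(5,0),(2,0),(5,1),
  (12,3),(2,0)]⟩ ⟨1,[(17,0),(15,1),(3,0)]⟩),.k,.k,⟨false,0,⟨0,[(4,0),(30,0)]⟩,⟨1,[(17,0),(15,1),(3,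
  0)]⟩⟩,⟨true,0,⟨1,[(10,0),(9,1),(1,0)]⟩,⟨1,[(19,0),(8,0),(0,0)]⟩⟩,⟨false,1,⟨3,[(17,0),(0,0),(18,
  1)]⟩,⟨0,[]⟩⟩,⟨false,1,⟨0,[(2,0)]⟩,⟨1,[(4,1),(14,0),(8,0),(0,0),(5,1)]⟩⟩,⟨true,0,⟨0,[(35,0)]⟩,⟨0,
  [(34,0)]⟩⟩,⟨false,1,⟨0,[(2,0),(32,0)]⟩,⟨1,[(4,1),(14,0),(8,0),(0,0)]⟩⟩,[.o ⟨false,1,⟨7,[(2,3),(5,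
  0),(9,1),(0,1),(1,0),(8,1),(3,2)]⟩,⟨0,[(35,0)]⟩⟩,.o ⟨false,1,⟨1,[(8,0),(0,0),(3,0),(20,0),(2,0)]⟩,
  ⟨0,[(35,0),(3,0)]⟩⟩,.a ⟨true,0,⟨1,[(19,0),(8,0),(0,0)]⟩,⟨0,[(20,0)]⟩⟩ ⟨true,0,⟨0,[(4,0)]⟩,⟨0,[(3,
  0),(29,0)]⟩⟩ ⟨false,1,⟨0,[(2,0),(1,0)]⟩,⟨1,[(19,0),(8,0),(0,0),(5,1)]⟩⟩,.o ⟨false,0,⟨1,[(19,0),(2,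
  0),(2,0)]⟩,⟨1,[(20,1),(9,0),(5,0)]⟩⟩]⟩)) (.Q [0,0,0,0,0,1,0,0,0,0,0,-1] (.p false [0,0,0,1] []
  (⟨0,[(19,0)]⟩,⟨1,[(18,0),(8,0),(0,0)]⟩) .k 0 (⟨0,[]⟩,⟨0,[]⟩) .k .k) (.R ⟨0,false,false,false,[0,0,
  0,1],[1,-1],[0,1],(⟨0,[(20,0)]⟩,⟨1,[(19,0),(8,0),(0,0)]⟩),(⟨0,[(31,0)]⟩,⟨0,[(32,0)]⟩),⟨0,[(0,0)]⟩,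
  .k,.k,(.x 0 ⟨1,[(10,0),(11,0),(8,1)]⟩ ⟨3,[(17,0),(0,0),(13,3),(3,1)]⟩),(.r 0 ⟨0,[(4,0),(1,1),(3,
  0),(2,0),(15,1),(2,1),(2,0)]⟩ ⟨3,[(1,1),(7,1),(7,0),(16,1),(1,0)]⟩),.k,.k,⟨false,0,⟨0,[(35,0),(3,
  0)]⟩,⟨0,[(33,0),(3,0)]⟩⟩,⟨true,0,⟨1,[(10,0),(9,1),(1,0)]⟩,⟨1,[(19,0),(8,0),(0,0)]⟩⟩,⟨true,0,⟨0,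
  [(3,0),(29,0)]⟩,⟨0,[(4,0)]⟩⟩,⟨false,1,⟨0,[(2,0)]⟩,⟨1,[(4,1),(14,0),(8,0),(0,0),(5,1)]⟩⟩,⟨false,0,
  ⟨0,[]⟩,⟨0,[]⟩⟩,⟨false,0,⟨0,[]⟩,⟨0,[]⟩⟩,[.o ⟨false,1,⟨7,[(2,3),(5,0),(9,1),(0,1),(1,0),(8,1),(3,
  2)]⟩,⟨0,[(35,0)]⟩⟩,.o ⟨false,1,⟨1,[(8,0),(0,0),(3,0),(20,0),(2,0)]⟩,⟨0,[(35,0),(3,0)]⟩⟩,.a ⟨true,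
  0,⟨1,[(19,0),(8,0),(0,0)]⟩,⟨0,[(20,0)]⟩⟩ ⟨true,0,⟨0,[(39,0)]⟩,⟨0,[]⟩⟩ ⟨false,1,⟨0,[(2,0),(1,0)]⟩,
  ⟨1,[(19,0),(8,0),(0,0),(5,1)]⟩⟩,.o ⟨false,0,⟨1,[(19,0),(2,0),(2,0)]⟩,⟨1,[(20,1),(9,0),(5,0)]⟩⟩]⟩)
  (.R ⟨1,false,false,false,[0,0,0,1],[1,-1],[0,0,0,0,0,0,0,0,1],(⟨0,[(20,0)]⟩,⟨1,[(19,0),(8,0),(0,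
  0)]⟩),(⟨0,[(31,0)]⟩,⟨0,[(32,0)]⟩),⟨0,[(0,0)]⟩,.k,.k,(.x 0 ⟨1,[(10,0),(11,0),(8,1)]⟩ ⟨3,[(17,0),(0,
  0),(13,3),(3,1)]⟩),(.r 0 ⟨0,[(0,3),(3,0),(5,0),(2,0),(5,1),(12,3),(2,0)]⟩ ⟨3,[(1,1),(7,1),(7,0),
  (16,1),(1,0)]⟩),.k,.k,⟨false,0,⟨0,[(4,0),(30,0)]⟩,⟨3,[(1,1),(7,1),(7,0),(16,1),(1,0)]⟩⟩,⟨true,0,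
  ⟨1,[(10,0),(9,1),(1,0)]⟩,⟨1,[(19,0),(8,0),(0,0)]⟩⟩,⟨false,1,⟨3,[(17,0),(0,0),(18,1)]⟩,⟨0,[]⟩⟩,
  ⟨false,1,⟨0,[(2,0)]⟩,⟨1,[(4,1),(14,0),(8,0),(0,0),(5,1)]⟩⟩,⟨true,0,⟨0,[(35,0)]⟩,⟨0,[(34,0)]⟩⟩,
  ⟨false,1,⟨0,[(2,0),(32,0)]⟩,⟨1,[(4,1),(14,0),(8,0),(0,0)]⟩⟩,[.o ⟨false,1,⟨7,[(2,3),(5,0),(9,1),(0,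
  1),(1,0),(8,1),(3,2)]⟩,⟨0,[(35,0)]⟩⟩,.o ⟨false,1,⟨1,[(8,0),(0,0),(3,0),(20,0),(2,0)]⟩,⟨0,[(35,0),
  (3,0)]⟩⟩,.a ⟨true,0,⟨1,[(19,0),(8,0),(0,0)]⟩,⟨0,[(20,0)]⟩⟩ ⟨true,0,⟨0,[(4,0)]⟩,⟨0,[(3,0),(29,
  0)]⟩⟩ ⟨false,1,⟨0,[(2,0),(1,0)]⟩,⟨1,[(19,0),(8,0),(0,0),(5,1)]⟩⟩,.o ⟨false,0,⟨1,[(19,0),(2,0),(2,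
  0)]⟩,⟨1,[(20,1),(9,0),(5,0)]⟩⟩]⟩))) (.I [0,0,1,1,0,0,0,0,-1] (.Q [0,-1,0,0,1,0,0,0,-1,-1,0,1] (.p
  true [0,0,0,1] [1] (⟨0,[(19,0)]⟩,⟨1,[(18,0),(8,0),(0,0)]⟩) .k 1 (⟨0,[]⟩,⟨0,[]⟩) .k .k) (.R ⟨2,
  true,false,false,[0,1],[1,0,0,-1],[1,0,1],(⟨0,[]⟩,⟨0,[]⟩),(⟨1,[(19,0),(8,0),(0,0)]⟩,⟨0,[(20,0)]⟩),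
  ⟨0,[]⟩,.k,.k,.k,(.r 0 ⟨0,[(1,0),(0,1),(3,1),(3,1),(2,1),(6,1),(8,1),(2,1),(0,1),(3,1)]⟩ ⟨1,[(17,
  0),(15,1),(3,0)]⟩),.k,.k,⟨false,0,⟨0,[(4,0)]⟩,⟨1,[(17,0),(18,0)]⟩⟩,⟨true,0,⟨1,[(10,0),(9,1),(1,
  0)]⟩,⟨1,[(19,0),(8,0),(0,0)]⟩⟩,⟨false,1,⟨0,[(34,0),(2,0)]⟩,⟨0,[(35,0)]⟩⟩,⟨true,1,⟨0,[(0,0),(33,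
  0)]⟩,⟨0,[(2,0)]⟩⟩,⟨true,0,⟨0,[]⟩,⟨0,[(39,0)]⟩⟩,⟨false,1,⟨0,[(0,0)]⟩,⟨1,[(4,1),(14,0),(8,0),(0,
  0)]⟩⟩,[]⟩) (.K ⟨1,[1,0,0,-1],0,1,(⟨1,[(19,0),(8,0),(0,0)]⟩,⟨0,[(20,0)]⟩),.k,(.r (-1) ⟨1,[(17,0),
  (15,1),(3,0)]⟩ ⟨0,[(0,3),(0,2),(8,1),(2,1),(6,3),(12,3),(1,1),(1,3)]⟩),(.r 0 ⟨0,[(1,0)]⟩ ⟨1,[(18,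
  0),(14,1),(3,0)]⟩),.k,.k,[⟨1,[(19,0),(5,0),(0,0),(1,0),(0,0)]⟩,⟨1,[(10,0),(9,1),(1,0)]⟩,⟨0,[(0,
  0)]⟩,⟨1,[(17,0),(2,1),(16,0)]⟩]⟩)) (.Q [0,0,0,0,0,0,-1,-1,1,0,1,-1] (.p true [0,0,1] [0,0,0,1]
  (⟨0,[(28,0)]⟩,⟨0,[(27,0)]⟩) .k 2 (⟨0,[(19,0)]⟩,⟨1,[(18,0),(8,0),(0,0)]⟩) .k (.x (-1) ⟨2,[(4,0),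
  (11,0),(0,0),(6,1),(3,2)]⟩ ⟨0,[(12,0),(14,0)]⟩)) (.K ⟨2,[0,0,0,1],0,0,(⟨0,[(20,0)]⟩,⟨1,[(19,0),(8,
  0),(0,0)]⟩),.k,(.x 0 ⟨1,[(10,0),(11,0),(8,1)]⟩ ⟨3,[(17,0),(0,0),(13,3),(3,1)]⟩),(.r 0 ⟨0,[(2,0),
  (3,2),(3,1),(2,1),(6,0),(8,2),(2,2),(0,0),(1,0),(1,0)]⟩ ⟨1,[(17,0),(15,1),(3,0)]⟩),.k,.k,[⟨0,[(0,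
  0)]⟩,⟨0,[(3,0),(16,0),(12,0)]⟩,⟨1,[(20,1),(4,0),(0,0)]⟩,⟨1,[(19,0),(2,0),(2,0)]⟩]⟩) (.R ⟨2,true,
  false,false,[0,1],[1,0,0,-1],[1,0,1],(⟨0,[]⟩,⟨0,[]⟩),(⟨1,[(19,0),(8,0),(0,0)]⟩,⟨0,[(20,0)]⟩),⟨0,
  []⟩,.k,.k,.k,(.r 0 ⟨0,[(0,1),(0,0),(0,1),(3,3),(3,1),(2,1),(7,1),(7,3),(2,3),(4,1)]⟩ ⟨1,[(17,0),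
  (15,1),(3,0)]⟩),.k,.k,⟨false,0,⟨0,[(4,0)]⟩,⟨1,[(17,0),(18,0)]⟩⟩,⟨true,0,⟨1,[(10,0),(9,1),(1,0)]⟩,
  ⟨1,[(19,0),(8,0),(0,0)]⟩⟩,⟨false,1,⟨0,[(34,0),(2,0)]⟩,⟨0,[(35,0)]⟩⟩,⟨true,1,⟨1,[(8,0),(0,0),(3,0),
  (3,0),(2,1),(13,0)]⟩,⟨0,[(2,0)]⟩⟩,⟨true,0,⟨0,[]⟩,⟨0,[(39,0)]⟩⟩,⟨false,1,⟨0,[(0,0),(8,0),(3,0)]⟩,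
  ⟨5,[(1,1),(0,1),(15,0),(0,1),(5,0),(0,0),(1,1),(0,1),(7,0)]⟩⟩,[]⟩))))))))) (.R ⟨2,false,false,
  false,[0,1],[0,1,-1],[0,1,1,1],(⟨0,[]⟩,⟨0,[]⟩),(⟨0,[(7,0)]⟩,⟨0,[(21,0),(1,0)]⟩),⟨0,[]⟩,.k,.k,.k,
  .k,.k,.k,⟨false,0,⟨0,[(19,0),(5,0),(1,0)]⟩,⟨0,[(1,0)]⟩⟩,⟨true,0,⟨0,[(5,0),(14,0),(0,0)]⟩,⟨0,[(17,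
  0)]⟩⟩,⟨true,0,⟨0,[(31,0)]⟩,⟨0,[]⟩⟩,⟨false,1,⟨0,[(16,0),(12,0)]⟩,⟨0,[(4,0)]⟩⟩,⟨false,0,⟨0,[(27,
  0)]⟩,⟨0,[(26,0),(2,0)]⟩⟩,⟨false,1,⟨1,[(0,1),(21,0),(6,0)]⟩,⟨0,[(3,0)]⟩⟩,[.a ⟨true,0,⟨0,[(0,0)]⟩,
  ⟨0,[(3,0)]⟩⟩ ⟨false,0,⟨0,[(27,0),(3,0)]⟩,⟨0,[(25,0),(3,0)]⟩⟩ ⟨true,0,⟨1,[(0,1),(1,0),(11,0)]⟩,⟨0,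
  [(3,0)]⟩⟩,.o ⟨false,1,⟨1,[(0,1),(21,0),(6,0)]⟩,⟨0,[(6,0)]⟩⟩,.o ⟨false,1,⟨3,[(9,0),(0,0),(17,1)]⟩,
  ⟨1,[(2,0),(11,0)]⟩⟩,.e ⟨false,0,⟨0,[(27,0)]⟩,⟨0,[(26,0),(2,0)]⟩⟩ ⟨false,1,⟨1,[(0,1),(21,0),(6,
  0)]⟩,⟨0,[(3,0)]⟩⟩]⟩)) (.Q [0,-1,0,0,1,0,-1,-1,-1,-1,1,1] (.p true [0,0,1] [1,0,0,-1] (⟨0,[(20,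
  0)]⟩,⟨0,[(19,0)]⟩) .k 2 (⟨1,[(10,0),(8,0),(0,0)]⟩,⟨0,[(11,0)]⟩) .k (.x (-1) ⟨3,[(8,0),(0,0),(6,3),
  (3,3),(6,1)]⟩ ⟨0,[(4,0),(14,0)]⟩)) (.I [1,-1,0,0,1,0,0,-1,-1] (.Q [0,1,0,-1,-1,0,1,1,-1,-1,-1,1]
  (.p false [1,-1,1] [0,0,0,1] (⟨0,[(22,0),(1,0)]⟩,⟨0,[(8,0)]⟩) .k 2 (⟨0,[(13,0)]⟩,⟨1,[(12,0),(8,0),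
  (0,0)]⟩) .k (.x (-1) ⟨3,[(0,1),(10,0),(4,1),(1,1),(3,3),(6,0)]⟩ ⟨0,[(6,0),(14,0)]⟩)) (.Q [0,0,0,0,
  0,1,0,0,0,0,0,-1] (.p false [0,0,0,1] [] (⟨0,[(14,0)]⟩,⟨1,[(13,0),(8,0),(0,0)]⟩) .k 0 (⟨0,[]⟩,⟨0,
  []⟩) .k .k) (.R ⟨0,false,false,true,[0,0,0,1],[1,-1],[1,0,0,0,0,0,0,0,1],(⟨0,[(15,0)]⟩,⟨1,[(14,0),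
  (8,0),(0,0)]⟩),(⟨0,[(26,0)]⟩,⟨0,[(27,0)]⟩),⟨0,[(0,0)]⟩,.k,.k,(.r (-1) ⟨1,[(13,0),(14,1),(3,0)]⟩
  ⟨1,[(2,1),(1,1),(15,0),(0,0),(8,1)]⟩),(.x (-1) ⟨3,[(12,0),(0,0),(13,3),(3,1)]⟩ ⟨1,[(5,0),(11,0),
  (8,1)]⟩),.k,.k,⟨false,1,⟨1,[(13,0),(16,1),(1,0)]⟩,⟨0,[(2,0),(1,0),(23,0)]⟩⟩,⟨true,0,⟨1,[(5,0),(9,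
  1),(1,0)]⟩,⟨1,[(14,0),(8,0),(0,0)]⟩⟩,⟨true,0,⟨0,[]⟩,⟨0,[(34,0)]⟩⟩,⟨false,0,⟨0,[(1,0),(17,0),(12,
  0)]⟩,⟨1,[(13,0),(0,0),(8,0),(0,0),(5,1),(1,0)]⟩⟩,⟨false,0,⟨0,[]⟩,⟨0,[]⟩⟩,⟨false,0,⟨0,[]⟩,⟨0,[]⟩⟩,
  [.o ⟨false,0,⟨1,[(5,0),(2,0),(19,0),(0,0)]⟩,⟨3,[(12,0),(0,0),(16,3),(1,1)]⟩⟩,.o ⟨false,1,⟨1,[(25,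
  0),(3,1),(2,0)]⟩,⟨0,[(30,0)]⟩⟩,.a ⟨true,0,⟨1,[(14,0),(8,0),(0,0)]⟩,⟨0,[(15,0)]⟩⟩ ⟨false,1,⟨1,[(13,
  0),(18,0)]⟩,⟨0,[(2,0),(1,0)]⟩⟩ ⟨true,0,⟨3,[(1,1),(11,0),(1,1),(0,1),(12,1),(2,0)]⟩,⟨1,[(14,0),(8,
  0),(0,0),(5,1)]⟩⟩,.o ⟨false,0,⟨1,[(14,0),(2,0),(2,0)]⟩,⟨1,[(15,1),(9,0),(5,0)]⟩⟩]⟩) (.R ⟨1,false,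
  false,true,[0,0,0,1],[1,-1],[0,0,0,0,0,0,0,0,1],(⟨0,[(15,0)]⟩,⟨1,[(14,0),(8,0),(0,0)]⟩),(⟨0,[(26,
  0)]⟩,⟨0,[(27,0)]⟩),⟨0,[(0,0)]⟩,.k,.k,(.r (-1) ⟨1,[(13,0),(14,1),(3,0)]⟩ ⟨1,[(2,1),(1,1),(15,0),(0,
  0),(8,1)]⟩),(.x (-1) ⟨3,[(12,0),(0,0),(13,3),(3,1)]⟩ ⟨1,[(5,0),(11,0),(8,1)]⟩),.k,.k,⟨false,1,⟨1,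
  [(13,0),(16,1),(1,0)]⟩,⟨0,[(2,0),(1,0),(23,0)]⟩⟩,⟨true,0,⟨1,[(5,0),(9,1),(1,0)]⟩,⟨1,[(14,0),(8,0),
  (0,0)]⟩⟩,⟨false,1,⟨3,[(12,0),(0,0),(18,1)]⟩,⟨0,[]⟩⟩,⟨false,0,⟨0,[(1,0),(17,0),(12,0)]⟩,⟨1,[(13,0),
  (0,0),(8,0),(0,0),(5,1),(1,0)]⟩⟩,⟨true,0,⟨0,[(30,0)]⟩,⟨0,[(29,0)]⟩⟩,⟨false,0,⟨1,[(1,0),(1,0),(26,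
  0)]⟩,⟨1,[(13,0),(0,0),(8,0),(0,0),(7,0)]⟩⟩,[.o ⟨false,0,⟨1,[(5,0),(2,0),(19,0),(0,0)]⟩,⟨3,[(12,0),
  (0,0),(16,3),(1,1)]⟩⟩,.o ⟨false,1,⟨1,[(25,0),(3,1),(2,0)]⟩,⟨0,[(30,0)]⟩⟩,.a ⟨true,0,⟨1,[(14,0),(8,
  0),(0,0)]⟩,⟨0,[(15,0)]⟩⟩ ⟨false,1,⟨1,[(13,0),(18,0)]⟩,⟨0,[(2,0),(1,0)]⟩⟩ ⟨true,0,⟨3,[(1,1),(11,0),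
  (1,1),(0,1),(12,1),(2,0)]⟩,⟨1,[(14,0),(8,0),(0,0),(5,1)]⟩⟩,.o ⟨false,0,⟨1,[(14,0),(2,0),(2,0)]⟩,
  ⟨1,[(15,1),(9,0),(5,0)]⟩⟩]⟩)) (.Q [0,0,0,0,0,1,0,0,0,0,0,-1] (.p false [0,0,0,1] [] (⟨0,[(14,0)]⟩,
  ⟨1,[(13,0),(8,0),(0,0)]⟩) .k 0 (⟨0,[]⟩,⟨0,[]⟩) .k .k) (.R ⟨0,false,false,true,[0,0,0,1],[1,-1,1],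
  [0,1,0,0,0,0,0,0,1],(⟨0,[(15,0)]⟩,⟨1,[(14,0),(8,0),(0,0)]⟩),(⟨0,[(24,0),(1,0)]⟩,⟨0,[(10,0)]⟩),⟨0,
  [(0,0)]⟩,.k,.k,(.r (-1) ⟨1,[(13,0),(14,1),(3,0)]⟩ ⟨1,[(2,1),(1,1),(15,0),(0,0),(8,1)]⟩),(.r (-1)
  ⟨3,[(1,0),(1,0),(9,1),(5,1),(0,3),(9,2)]⟩ ⟨0,[(2,0),(1,1),(23,0),(3,0)]⟩),.k,.k,⟨false,1,⟨0,[(1,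
  0),(3,0),(9,0),(12,0),(1,0)]⟩,⟨0,[(2,0),(1,1),(23,0),(3,0)]⟩⟩,⟨true,0,⟨0,[(5,0),(9,0)]⟩,⟨1,[(4,1),
  (9,0),(4,1),(3,0),(0,0),(7,1)]⟩⟩,⟨true,0,⟨0,[(34,0)]⟩,⟨0,[]⟩⟩,⟨false,0,⟨0,[(2,0),(1,1),(0,0),(9,
  0),(12,0),(3,0)]⟩,⟨0,[(1,0)]⟩⟩,⟨false,0,⟨0,[]⟩,⟨0,[]⟩⟩,⟨false,0,⟨0,[]⟩,⟨0,[]⟩⟩,[.o ⟨false,0,⟨0,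
  [(9,0)]⟩,⟨1,[(1,0),(1,0),(26,0)]⟩⟩,.o ⟨false,0,⟨0,[(4,0),(0,0),(22,0),(3,0)]⟩,⟨3,[(1,0),(1,0),(8,
  0),(0,0),(5,1),(10,2)]⟩⟩,.a ⟨true,0,⟨1,[(14,0),(8,0),(0,0)]⟩,⟨0,[(15,0)]⟩⟩ ⟨true,0,⟨0,[(1,0),(2,
  0),(0,0),(9,0),(12,0)]⟩,⟨0,[(2,0),(1,0)]⟩⟩ ⟨false,0,⟨0,[(4,0),(0,0),(9,0),(12,0),(3,0)]⟩,⟨0,[(1,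
  0),(0,0),(1,0)]⟩⟩,.o ⟨false,0,⟨1,[(14,0),(2,0),(2,0)]⟩,⟨1,[(15,1),(9,0),(5,0)]⟩⟩]⟩) (.Q [0,1,0,0,
  -1,0,1,1,-1,-1,-1,1] (.p false [1,-1,1] [0,0,0,1] (⟨0,[(24,0),(1,0)]⟩,⟨0,[(10,0)]⟩) .k 2 (⟨0,[(15,
  0)]⟩,⟨1,[(14,0),(8,0),(0,0)]⟩) .k (.r 0 ⟨1,[(4,1),(7,0),(19,0)]⟩ ⟨0,[(1,0),(3,0),(9,0),(12,0)]⟩))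
  (.R ⟨1,true,false,true,[0,0,0,1],[1,-1,1],[0,1,0,0,0,0,0,0,1],(⟨0,[(16,0)]⟩,⟨1,[(15,0),(8,0),(0,
  0)]⟩),(⟨0,[(25,0),(1,0)]⟩,⟨0,[(11,0)]⟩),⟨0,[(1,0)]⟩,.k,.k,(.r (-1) ⟨1,[(14,0),(14,1),(3,0)]⟩ ⟨3,
  [(0,1),(2,1),(11,0),(5,0),(0,2),(1,0),(0,0),(5,3)]⟩),(.r (-1) ⟨3,[(2,0),(1,0),(9,1),(5,1),(0,3),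
  (9,2)]⟩ ⟨0,[(3,0),(1,1),(23,0),(3,0)]⟩),.k,.k,⟨false,1,⟨0,[(2,0),(3,0),(9,0),(12,0),(1,0)]⟩,⟨0,
  [(3,0),(1,1),(23,0),(3,0)]⟩⟩,⟨true,0,⟨0,[(6,0),(9,0)]⟩,⟨1,[(5,1),(9,0),(4,1),(3,0),(0,0),(7,1)]⟩⟩,
  ⟨true,0,⟨0,[(35,0)]⟩,⟨0,[]⟩⟩,⟨false,0,⟨1,[(0,0),(3,0),(2,1)]⟩,⟨0,[(2,0)]⟩⟩,⟨false,0,⟨0,[(31,0)]⟩,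
  ⟨0,[(30,0),(2,0)]⟩⟩,⟨true,(-1),⟨0,[(0,0)]⟩,⟨0,[(2,0),(27,0)]⟩⟩,[]⟩) (.R ⟨1,false,false,true,[0,0,
  0,1],[1,-1,1],[0,1,0,0,0,0,0,0,1],(⟨0,[(16,0)]⟩,⟨1,[(15,0),(8,0),(0,0)]⟩),(⟨0,[(25,0),(1,0)]⟩,⟨0,
  [(11,0)]⟩),⟨0,[(1,0)]⟩,.k,.k,(.r (-1) ⟨1,[(14,0),(14,1),(3,0)]⟩ ⟨1,[(3,1),(1,1),(15,0),(0,0),(8,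
  1)]⟩),(.r (-1) ⟨3,[(2,0),(1,0),(9,1),(5,1),(0,3),(9,2)]⟩ ⟨0,[(3,0),(1,1),(23,0),(3,0)]⟩),.k,.k,
  ⟨false,1,⟨0,[(2,0),(3,0),(9,0),(12,0),(1,0)]⟩,⟨0,[(3,0),(1,1),(23,0),(3,0)]⟩⟩,⟨true,0,⟨0,[(6,0),
  (9,0)]⟩,⟨1,[(0,0),(3,0),(0,1),(9,0),(8,0),(0,0)]⟩⟩,⟨true,0,⟨0,[(35,0)]⟩,⟨0,[]⟩⟩,⟨false,0,⟨0,[(3,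
  0),(1,1),(0,0),(9,0),(12,0),(3,0)]⟩,⟨0,[(2,0)]⟩⟩,⟨false,0,⟨0,[(31,0)]⟩,⟨0,[(30,0),(2,0)]⟩⟩,⟨false,
  0,⟨1,[(3,1),(1,3),(0,1),(9,1),(15,0),(0,0)]⟩,⟨0,[(0,0)]⟩⟩,[.o ⟨false,0,⟨0,[(10,0)]⟩,⟨1,[(2,0),(1,
  0),(26,0)]⟩⟩,.o ⟨false,0,⟨0,[(5,0),(0,0),(22,0),(3,0)]⟩,⟨3,[(2,0),(1,0),(8,0),(0,0),(5,1),(10,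
  2)]⟩⟩,.a ⟨true,0,⟨1,[(15,0),(8,0),(0,0)]⟩,⟨0,[(16,0)]⟩⟩ ⟨true,0,⟨0,[(2,0),(2,0),(0,0),(9,0),(12,
  0)]⟩,⟨0,[(3,0),(1,0)]⟩⟩ ⟨false,0,⟨0,[(5,0),(0,0),(9,0),(12,0),(3,0)]⟩,⟨0,[(2,0),(0,0),(1,0)]⟩⟩,.o
  ⟨false,0,⟨1,[(15,0),(2,0),(2,0)]⟩,⟨1,[(16,1),(9,0),(5,0)]⟩⟩]⟩)))) (.Q [0,0,0,0,0,1,0,0,0,0,0,-1]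
  (.p false [0,0,0,1] [] (⟨0,[(13,0)]⟩,⟨1,[(12,0),(8,0),(0,0)]⟩) .k 0 (⟨0,[]⟩,⟨0,[]⟩) .k .k) (.R ⟨0,
  false,false,false,[0,0,0,1],[1,0,-1],[0,0,0,0,0,0,0,-1],(⟨0,[(14,0)]⟩,⟨1,[(13,0),(8,0),(0,0)]⟩),
  (⟨0,[(22,0)]⟩,⟨0,[(23,0)]⟩),⟨0,[(0,0)]⟩,.k,.k,(.r (-1) ⟨1,[(12,0),(14,1),(3,0)]⟩ ⟨1,[(2,1),(0,1),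
  (9,0),(5,1),(2,0),(0,0),(5,1)]⟩),.k,.k,.k,⟨false,1,⟨3,[(11,0),(0,0),(17,1)]⟩,⟨0,[]⟩⟩,⟨true,0,⟨0,
  [(1,0),(0,0)]⟩,⟨1,[(13,0),(5,1),(2,0),(0,0)]⟩⟩,⟨true,1,⟨1,[(2,1),(10,0),(5,1),(2,0),(0,0),(3,1),
  (1,1)]⟩,⟨0,[(1,0)]⟩⟩,⟨false,1,⟨0,[(2,0)]⟩,⟨1,[(1,1),(11,0),(5,1),(2,0),(0,0),(6,0),(0,0)]⟩⟩,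
  ⟨false,0,⟨0,[]⟩,⟨0,[]⟩⟩,⟨false,0,⟨0,[]⟩,⟨0,[]⟩⟩,[.o ⟨false,1,⟨3,[(2,1),(9,0),(0,0),(1,0),(2,0),(5,
  0)]⟩,⟨0,[(6,0)]⟩⟩,.o ⟨false,1,⟨0,[(15,0),(15,0)]⟩,⟨0,[(17,0)]⟩⟩,.a ⟨true,0,⟨1,[(13,0),(8,0),(0,
  0)]⟩,⟨0,[(14,0)]⟩⟩ ⟨true,1,⟨1,[(18,1),(0,1),(10,0),(0,0)]⟩,⟨0,[(3,0)]⟩⟩ ⟨false,1,⟨0,[(14,0),(0,0),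
  (15,0)]⟩,⟨1,[(10,0),(2,0)]⟩⟩,.o ⟨false,0,⟨1,[(13,0),(2,0),(2,0)]⟩,⟨1,[(14,1),(9,0),(5,0)]⟩⟩]⟩)
  (.I [0,0,0,1,0,0,0,0,1] (.R ⟨1,false,false,true,[1,0,0,-1],[1,-1,1],[1,1,0,-1,0,0,0,0,-1],(⟨1,
  [(14,0),(8,0),(0,0)]⟩,⟨0,[(15,0)]⟩),(⟨0,[(24,0),(1,0)]⟩,⟨0,[(10,0)]⟩),⟨0,[(1,0),(12,0)]⟩,.k,.k,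
  (.r (-1) ⟨1,[(12,0),(15,1),(3,0)]⟩ ⟨1,[(0,1),(19,0),(0,0)]⟩),(.r (-1) ⟨1,[(12,0),(6,1),(0,1),(9,
  1),(1,0)]⟩ ⟨0,[(2,0),(25,0),(3,0)]⟩),.k,.k,⟨false,1,⟨1,[(3,1),(10,0),(5,1),(2,0),(0,0),(3,1),(1,
  1)]⟩,⟨1,[(2,1),(28,0),(0,0)]⟩⟩,⟨true,0,⟨1,[(5,0),(8,0),(5,0)]⟩,⟨0,[(4,0),(10,0),(3,0),(12,0)]⟩⟩,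
  ⟨true,0,⟨0,[(29,0)]⟩,⟨0,[(30,0)]⟩⟩,⟨false,0,⟨1,[(2,1),(2,0),(8,0),(5,0),(7,1),(3,1)]⟩,⟨0,[(3,0),
  (19,0),(0,0),(5,0)]⟩⟩,⟨false,0,⟨0,[]⟩,⟨3,[(12,0),(0,0),(18,1)]⟩⟩,⟨false,0,⟨3,[(0,1),(1,1),(2,1),
  (0,1),(7,1),(16,0),(0,0)]⟩,⟨0,[(3,0),(19,0),(0,0)]⟩⟩,[.o ⟨false,0,⟨0,[(9,0)]⟩,⟨0,[(19,0),(10,0),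
  (1,0)]⟩⟩,.o ⟨false,0,⟨0,[(4,0),(0,0),(22,0),(3,0)]⟩,⟨1,[(0,1),(11,0),(6,1),(12,0)]⟩⟩,.a ⟨true,0,
  ⟨0,[(15,0)]⟩,⟨1,[(14,0),(8,0),(0,0)]⟩⟩ ⟨true,0,⟨1,[(3,1),(0,1),(9,0),(5,1),(2,0),(0,0),(3,1)]⟩,⟨0,
  [(0,0)]⟩⟩ ⟨false,0,⟨1,[(4,0),(0,0),(0,0),(7,0),(13,0),(3,0)]⟩,⟨0,[(15,0),(3,0),(10,0),(1,0)]⟩⟩,.o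
  ⟨false,0,⟨1,[(5,0),(9,1),(1,0)]⟩,⟨7,[(12,0),(0,0),(0,3),(10,1),(5,3)]⟩⟩]⟩) (.R ⟨1,false,false,
  false,[1,0,0,-1],[1,-1],[1,0,0,-1,0,0,0,0,-1],(⟨1,[(14,0),(8,0),(0,0)]⟩,⟨0,[(15,0)]⟩),(⟨0,[(26,
  0)]⟩,⟨0,[(27,0)]⟩),⟨0,[(1,0),(12,0)]⟩,.k,.k,(.r (-1) ⟨3,[(0,1),(11,0),(16,1),(1,1),(0,0)]⟩ ⟨0,[(2,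
  0),(16,0),(0,0),(9,0),(1,0)]⟩),(.r 0 ⟨1,[(0,1),(19,0),(0,0),(8,3)]⟩ ⟨1,[(13,0),(14,1),(3,0)]⟩),.k,
  .k,⟨false,0,⟨0,[(0,0),(29,0)]⟩,⟨1,[(13,0),(17,0)]⟩⟩,⟨true,0,⟨1,[(14,0),(2,0),(2,0)]⟩,⟨0,[(15,
  0)]⟩⟩,⟨false,1,⟨0,[(29,0),(2,0)]⟩,⟨0,[(30,0)]⟩⟩,⟨false,1,⟨1,[(2,1),(2,0),(8,0),(4,1),(0,0),(7,1),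
  (3,3)]⟩,⟨0,[(0,0),(14,0),(14,1)]⟩⟩,⟨true,0,⟨0,[]⟩,⟨0,[(34,0)]⟩⟩,⟨false,1,⟨7,[(2,1),(2,1),(7,2),(0,
  3),(1,1),(14,0),(0,5)]⟩,⟨0,[(0,0),(14,0),(14,0)]⟩⟩,[.o ⟨false,1,⟨1,[(25,0),(3,1),(2,0)]⟩,⟨0,[(30,
  0)]⟩⟩,.o ⟨false,1,⟨1,[(5,0),(2,0),(19,0),(0,0),(2,1)]⟩,⟨0,[(30,0),(3,0)]⟩⟩,.a ⟨true,0,⟨0,[(15,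
  0)]⟩,⟨1,[(14,0),(8,0),(0,0)]⟩⟩ ⟨true,0,⟨0,[(0,0)]⟩,⟨3,[(2,1),(10,0),(5,1),(0,1),(9,3),(0,0)]⟩⟩
  ⟨false,1,⟨3,[(5,0),(2,0),(5,1),(13,0),(0,2),(2,3)]⟩,⟨0,[(15,0),(14,0)]⟩⟩,.o ⟨false,0,⟨1,[(5,0),(9,
  1),(1,0)]⟩,⟨7,[(12,0),(0,0),(0,3),(10,1),(5,3)]⟩⟩]⟩)))) (.Q [0,0,0,0,0,1,0,0,0,0,0,-1] (.p false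
  [0,0,0,1] [] (⟨0,[(12,0)]⟩,⟨1,[(11,0),(8,0),(0,0)]⟩) .k 0 (⟨0,[]⟩,⟨0,[]⟩) .k .k) (.R ⟨0,false,
  false,false,[0,0,0,1],[1,0,-1],[1],(⟨0,[(13,0)]⟩,⟨1,[(12,0),(8,0),(0,0)]⟩),(⟨0,[(21,0)]⟩,⟨0,[(22,
  0)]⟩),⟨0,[(0,0)]⟩,.k,.k,(.x 0 ⟨1,[(3,0),(11,0),(8,1)]⟩ ⟨3,[(10,0),(0,0),(13,3),(3,1)]⟩),.k,.k,.k,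
  ⟨false,0,⟨1,[(2,1),(26,0),(0,0)]⟩,⟨1,[(17,1),(0,1),(10,0),(0,0)]⟩⟩,⟨true,0,⟨0,[(6,0),(6,0)]⟩,⟨1,
  [(12,0),(5,1),(2,0),(0,0)]⟩⟩,⟨false,1,⟨1,[(10,0),(19,0)]⟩,⟨0,[(1,0),(11,0),(0,0),(15,0)]⟩⟩,⟨true,
  1,⟨1,[(10,0),(2,1),(0,1),(15,0)]⟩,⟨0,[(1,0)]⟩⟩,⟨false,0,⟨0,[]⟩,⟨0,[]⟩⟩,⟨false,0,⟨0,[]⟩,⟨0,[]⟩⟩,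
  [.o ⟨false,1,⟨1,[(17,1),(5,0),(6,0)]⟩,⟨0,[(5,0)]⟩⟩,.o ⟨false,1,⟨0,[(14,0),(15,0)]⟩,⟨0,[(16,0)]⟩⟩,
  .a ⟨true,0,⟨1,[(12,0),(8,0),(0,0)]⟩,⟨0,[(13,0)]⟩⟩ ⟨true,0,⟨0,[]⟩,⟨0,[(32,0)]⟩⟩ ⟨false,1,⟨0,[(13,
  0),(0,0),(15,0)]⟩,⟨1,[(9,0),(2,0)]⟩⟩,.o ⟨false,0,⟨1,[(12,0),(2,0),(2,0)]⟩,⟨1,[(13,1),(9,0),(5,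
  0)]⟩⟩]⟩) (.I [0,0,-1,-1,0,0,0,0,1] (.R ⟨1,false,false,true,[1,0,0,-1],[1,-1],[0,0,0,0,0,0,0,0,-1],
  (⟨1,[(13,0),(8,0),(0,0)]⟩,⟨0,[(14,0)]⟩),(⟨0,[(25,0)]⟩,⟨0,[(26,0)]⟩),⟨0,[(1,0),(11,0)]⟩,.k,.k,(.r
  (-1) ⟨1,[(11,0),(15,1),(3,0)]⟩ ⟨0,[(0,0),(18,0),(0,0),(8,1)]⟩),(.r (-1) ⟨3,[(11,2),(0,0),(6,1),(0,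
  1),(8,3)]⟩ ⟨0,[(0,0)]⟩),.k,.k,⟨false,1,⟨1,[(11,0),(17,1),(1,0)]⟩,⟨4,[(0,1),(1,0),(9,0),(1,0),(0,
  0),(11,2)]⟩⟩,⟨true,0,⟨1,[(13,0),(2,0),(2,0)]⟩,⟨0,[(14,0)]⟩⟩,⟨false,1,⟨3,[(11,0),(0,0),(18,1)]⟩,⟨0,
  []⟩⟩,⟨false,0,⟨1,[(0,1),(12,0),(2,0),(2,0)]⟩,⟨1,[(11,0),(2,1),(14,1),(1,0)]⟩⟩,⟨true,0,⟨0,[(29,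
  0)]⟩,⟨0,[(28,0)]⟩⟩,⟨false,0,⟨0,[(2,0),(12,0),(15,0)]⟩,⟨1,[(11,0),(2,1),(16,0)]⟩⟩,[.o ⟨false,0,⟨1,
  [(4,0),(2,0),(19,0),(0,0)]⟩,⟨3,[(11,0),(0,0),(16,3),(1,1)]⟩⟩,.o ⟨false,1,⟨1,[(24,0),(3,1),(2,0)]⟩,
  ⟨0,[(29,0)]⟩⟩,.a ⟨true,0,⟨0,[(14,0)]⟩,⟨1,[(13,0),(8,0),(0,0)]⟩⟩ ⟨false,1,⟨1,[(11,0),(19,0)]⟩,⟨1,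
  [(0,1),(18,0),(0,0),(8,1)]⟩⟩ ⟨true,0,⟨3,[(4,0),(2,0),(5,1),(13,0),(0,2)]⟩,⟨0,[(14,0),(14,0)]⟩⟩,.o
  ⟨false,0,⟨1,[(4,0),(9,1),(1,0)]⟩,⟨7,[(11,0),(0,0),(0,3),(10,1),(5,3)]⟩⟩]⟩) (.Q [0,0,0,-1,0,0,1,1,
  -1,-1,-1,1] (.p false [1,-1,1] [0,0,0,1] (⟨0,[(23,0),(1,0)]⟩,⟨0,[(9,0)]⟩) .k 2 (⟨0,[(14,0)]⟩,⟨1,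
  [(13,0),(8,0),(0,0)]⟩) .k (.r 0 ⟨1,[(3,1),(7,0),(19,0)]⟩ ⟨1,[(2,1),(1,1),(9,1),(3,3),(11,0),(0,
  2)]⟩)) (.I [0,0,1,1,0,0,0,0,-1] (.R ⟨1,false,false,false,[0,0,0,1],[1,-1],[0,0,0,0,0,0,0,0,1],(⟨0,
  [(16,0)]⟩,⟨1,[(15,0),(8,0),(0,0)]⟩),(⟨0,[(27,0)]⟩,⟨0,[(28,0)]⟩),⟨0,[(3,0)]⟩,.k,.k,(.r (-1) ⟨1,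
  [(14,0),(14,1),(3,0)]⟩ ⟨0,[(0,0)]⟩),(.r 0 ⟨1,[(4,1),(1,0),(9,1),(1,0),(1,1),(10,1),(1,1)]⟩ ⟨1,
  [(13,0),(15,1),(3,0)]⟩),.k,.k,⟨false,0,⟨0,[(4,0),(11,0),(0,0),(13,0),(1,0)]⟩,⟨1,[(13,0),(15,1),(3,
  0)]⟩⟩,⟨true,0,⟨1,[(6,0),(9,1),(1,0)]⟩,⟨1,[(15,0),(8,0),(0,0)]⟩⟩,⟨false,1,⟨3,[(13,0),(0,0),(18,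
  1)]⟩,⟨0,[]⟩⟩,⟨false,1,⟨0,[(1,0),(18,0),(12,0)]⟩,⟨0,[(4,0),(15,0),(10,0),(1,0)]⟩⟩,⟨true,0,⟨0,[(31,
  0)]⟩,⟨0,[(30,0)]⟩⟩,⟨false,1,⟨3,[(0,1),(0,1),(14,1),(0,1),(14,0),(0,2)]⟩,⟨0,[(4,0),(15,0),(12,
  0)]⟩⟩,[.o ⟨false,1,⟨1,[(26,0),(3,1),(2,0)]⟩,⟨0,[(31,0)]⟩⟩,.o ⟨false,1,⟨1,[(6,0),(2,0),(19,0),(0,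
  0),(2,1)]⟩,⟨0,[(31,0),(3,0)]⟩⟩,.a ⟨true,0,⟨1,[(15,0),(8,0),(0,0)]⟩,⟨0,[(16,0)]⟩⟩ ⟨true,0,⟨0,[(4,
  0),(11,0),(0,0),(15,0)]⟩,⟨0,[(0,0),(28,0)]⟩⟩ ⟨false,1,⟨1,[(6,0),(2,0),(6,1),(12,0),(0,0),(2,1)]⟩,
  ⟨1,[(15,0),(8,0),(0,0),(5,1)]⟩⟩,.o ⟨false,0,⟨1,[(15,0),(2,0),(2,0)]⟩,⟨1,[(16,1),(9,0),(5,0)]⟩⟩]⟩)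
  (.R ⟨1,false,false,false,[0,0,0,1],[1,-1],[0,0,0,0,0,0,0,0,1],(⟨0,[(16,0)]⟩,⟨1,[(15,0),(8,0),(0,
  0)]⟩),(⟨0,[(27,0)]⟩,⟨0,[(28,0)]⟩),⟨0,[(3,0)]⟩,.k,.k,(.x 0 ⟨1,[(6,0),(11,0),(8,1)]⟩ ⟨3,[(13,0),(0,
  0),(13,3),(3,1)]⟩),(.r 0 ⟨0,[(0,0),(20,0),(0,0),(8,1)]⟩ ⟨0,[(0,0),(12,0)]⟩),.k,.k,⟨false,0,⟨1,[(0,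
  1),(20,0),(0,0),(8,3)]⟩,⟨0,[(0,0),(12,0)]⟩⟩,⟨true,0,⟨1,[(6,0),(9,1),(1,0)]⟩,⟨1,[(15,0),(8,0),(0,
  0)]⟩⟩,⟨false,1,⟨3,[(13,0),(0,0),(18,1)]⟩,⟨0,[]⟩⟩,⟨false,1,⟨0,[(1,0),(18,0),(12,0)]⟩,⟨0,[(4,0),(15,
  0),(10,0),(1,0)]⟩⟩,⟨true,0,⟨0,[(31,0)]⟩,⟨0,[(30,0)]⟩⟩,⟨false,1,⟨3,[(1,1),(11,0),(2,1),(0,1),(13,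
  1),(1,2)]⟩,⟨0,[(4,0),(15,0),(12,0)]⟩⟩,[.o ⟨false,1,⟨1,[(26,0),(3,1),(2,0)]⟩,⟨0,[(31,0)]⟩⟩,.o
  ⟨false,1,⟨6,[(0,1),(0,1),(4,0),(8,0),(1,1),(0,0),(7,0),(3,2),(2,5)]⟩,⟨0,[(31,0),(3,0)]⟩⟩,.a ⟨true,
  0,⟨1,[(15,0),(8,0),(0,0)]⟩,⟨0,[(16,0)]⟩⟩ ⟨true,0,⟨1,[(0,1),(20,0),(0,0),(8,1)]⟩,⟨0,[(2,0),(26,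
  0)]⟩⟩ ⟨false,1,⟨9,[(0,1),(0,3),(4,0),(7,0),(1,5),(0,3),(0,0),(11,3),(2,8)]⟩,⟨1,[(15,0),(8,0),(0,
  0),(5,1)]⟩⟩,.o ⟨false,0,⟨1,[(15,0),(2,0),(2,0)]⟩,⟨1,[(16,1),(9,0),(5,0)]⟩⟩]⟩)) (.Q [0,0,0,0,0,0,
  -1,-1,1,1,1,-1] (.p true [1,-1,1] [0,0,0,1] (⟨0,[(24,0),(1,0)]⟩,⟨0,[(10,0)]⟩) .k 2 (⟨0,[(15,0)]⟩,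
  ⟨1,[(14,0),(8,0),(0,0)]⟩) .k (.r 0 ⟨1,[(4,1),(7,0),(19,0)]⟩ ⟨3,[(0,1),(4,1),(7,0),(1,1),(3,1),(0,
  1),(7,1),(2,0),(0,1)]⟩)) (.R ⟨1,false,false,true,[0,0,0,1],[1,-1,1],[0,0,0,0,0,0,0,0,1],(⟨0,[(16,
  0)]⟩,⟨1,[(15,0),(8,0),(0,0)]⟩),(⟨0,[(25,0),(1,0)]⟩,⟨0,[(11,0)]⟩),⟨0,[(3,0)]⟩,.k,.k,(.x 0 ⟨1,[(6,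
  0),(11,0),(8,1)]⟩ ⟨3,[(13,0),(0,0),(13,3),(3,1)]⟩),(.r 0 ⟨0,[(1,0),(4,0),(9,0)]⟩ ⟨1,[(13,0),(9,1),
  (5,1),(3,0)]⟩),.k,.k,⟨false,1,⟨1,[(1,1),(4,1),(9,1),(15,0),(0,0)]⟩,⟨1,[(5,1),(7,0),(15,1),(3,
  0)]⟩⟩,⟨true,0,⟨0,[(6,0),(9,0)]⟩,⟨1,[(0,1),(4,1),(7,0),(19,0)]⟩⟩,⟨false,1,⟨3,[(13,0),(0,0),(18,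
  1)]⟩,⟨0,[]⟩⟩,⟨true,0,⟨1,[(5,1),(0,1),(6,0),(2,1),(12,1),(3,0)]⟩,⟨0,[(1,0)]⟩⟩,⟨true,0,⟨0,[(31,0)]⟩,
  ⟨0,[(30,0)]⟩⟩,⟨true,0,⟨1,[(5,1),(0,1),(6,0),(2,1),(15,0)]⟩,⟨0,[(0,0)]⟩⟩,[.o ⟨false,0,⟨0,[(10,0)]⟩,
  ⟨0,[(20,0),(10,0),(1,0)]⟩⟩,.o ⟨false,0,⟨0,[(5,0),(0,0),(22,0),(3,0)]⟩,⟨3,[(13,0),(0,0),(5,3),(10,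
  3),(1,1)]⟩⟩,.a ⟨true,0,⟨1,[(15,0),(8,0),(0,0)]⟩,⟨0,[(16,0)]⟩⟩ ⟨true,0,⟨3,[(0,1),(3,1),(1,1),(2,1),
  (6,3),(15,0),(0,0)]⟩,⟨0,[(2,0),(26,0)]⟩⟩ ⟨false,0,⟨0,[(5,0),(0,0),(9,0),(12,0),(3,0)]⟩,⟨1,[(1,1),
  (11,0),(19,0)]⟩⟩,.o ⟨false,0,⟨1,[(15,0),(2,0),(2,0)]⟩,⟨1,[(16,1),(9,0),(5,0)]⟩⟩]⟩) (.I [0,0,1,1,0,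
  0,0,0,-1] (.R ⟨1,true,false,false,[0,0,0,1],[1,-1,1],[0,1,0,0,0,0,0,0,1],(⟨0,[(17,0)]⟩,⟨1,[(16,0),
  (8,0),(0,0)]⟩),(⟨0,[(26,0),(1,0)]⟩,⟨0,[(12,0)]⟩),⟨0,[(4,0)]⟩,.k,.k,(.r (-1) ⟨1,[(15,0),(14,1),(3,
  0)]⟩ ⟨0,[(0,0)]⟩),(.r 0 ⟨0,[(2,0),(4,0),(9,0)]⟩ ⟨1,[(14,0),(9,1),(5,1),(3,0)]⟩),.k,.k,⟨false,0,⟨0,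
  [(2,0),(4,0),(9,0),(12,0),(1,0)]⟩,⟨1,[(6,1),(7,0),(15,1),(3,2)]⟩⟩,⟨true,0,⟨0,[(7,0),(9,0)]⟩,⟨1,
  [(6,1),(9,0),(4,1),(3,0),(0,0),(7,1)]⟩⟩,⟨true,0,⟨0,[(36,0)]⟩,⟨0,[]⟩⟩,⟨false,1,⟨0,[(1,0),(29,0),(2,
  0)]⟩,⟨0,[(2,0)]⟩⟩,⟨false,0,⟨0,[(32,0)]⟩,⟨0,[(31,0),(2,0)]⟩⟩,⟨true,0,⟨0,[(1,0)]⟩,⟨0,[(2,0),(28,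
  0)]⟩⟩,[]⟩) (.R ⟨1,true,false,true,[0,0,0,1],[1,-1,1],[1,0,0,-1,0,0,0,0,1],(⟨0,[(17,0)]⟩,⟨1,[(16,
  0),(8,0),(0,0)]⟩),(⟨0,[(26,0),(1,0)]⟩,⟨0,[(12,0)]⟩),⟨0,[(4,0)]⟩,.k,.k,(.x 0 ⟨1,[(7,0),(11,0),(8,
  1)]⟩ ⟨3,[(14,0),(0,0),(13,3),(3,1)]⟩),(.r 0 ⟨0,[(2,0),(4,0),(9,0)]⟩ ⟨1,[(14,0),(9,1),(5,1),(3,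
  0)]⟩),.k,.k,⟨false,1,⟨3,[(0,1),(1,1),(4,1),(9,1),(3,1),(0,1),(10,0),(0,2)]⟩,⟨1,[(6,1),(7,0),(18,
  0)]⟩⟩,⟨true,0,⟨0,[(7,0),(9,0)]⟩,⟨1,[(6,1),(9,0),(4,1),(3,0),(0,0),(7,1)]⟩⟩,⟨false,1,⟨0,[(31,0),(2,
  0)]⟩,⟨0,[(32,0)]⟩⟩,⟨true,0,⟨0,[(1,0),(29,0)]⟩,⟨0,[(2,0)]⟩⟩,⟨true,0,⟨0,[]⟩,⟨0,[(36,0)]⟩⟩,⟨false,0,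
  ⟨0,[(1,0)]⟩,⟨0,[(2,0),(28,0),(2,0)]⟩⟩,[]⟩)))))))))) (.R ⟨2,false,false,false,[0,1],[0,0,1],[1,1,
  1],(⟨0,[]⟩,⟨0,[]⟩),(⟨0,[(17,0)]⟩,⟨0,[(16,0)]⟩),⟨0,[]⟩,.k,.k,.k,.k,.k,.k,⟨false,0,⟨0,[(0,0),(12,0),
  (7,0),(1,0)]⟩,⟨1,[(15,1),(8,0),(0,0)]⟩⟩,⟨true,0,⟨0,[(13,0)]⟩,⟨0,[(0,0),(14,0)]⟩⟩,⟨true,0,⟨0,[(22,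
  0)]⟩,⟨0,[(23,0)]⟩⟩,⟨false,1,⟨2,[(2,0),(1,0),(17,1),(2,2)]⟩,⟨0,[(0,0),(22,0)]⟩⟩,⟨false,0,⟨0,[]⟩,⟨3,
  [(5,0),(0,0),(18,1)]⟩⟩,⟨false,1,⟨7,[(4,3),(0,0),(0,0),(11,1),(6,3)]⟩,⟨0,[(0,0)]⟩⟩,[.a ⟨true,0,⟨1,
  [(4,0),(11,0),(0,0)]⟩,⟨0,[(0,0)]⟩⟩ ⟨false,0,⟨0,[(27,0)]⟩,⟨1,[(24,0),(0,0)]⟩⟩ ⟨true,0,⟨1,[(4,0),(5,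
  0),(2,0)]⟩,⟨0,[(0,0)]⟩⟩,.o ⟨false,1,⟨7,[(4,3),(0,0),(0,0),(11,1),(6,3)]⟩,⟨0,[(9,0)]⟩⟩,.o ⟨false,1,
  ⟨3,[(5,0),(0,0),(17,1)]⟩,⟨0,[(1,0),(11,0)]⟩⟩,.e ⟨false,0,⟨0,[]⟩,⟨3,[(5,0),(0,0),(18,1)]⟩⟩ ⟨false,
  1,⟨7,[(4,3),(0,0),(0,0),(11,1),(6,3)]⟩,⟨0,[(0,0)]⟩⟩]⟩))))

theorem ok1 : chk (cU (-1) false 3) t1 r0 = true := by decide +kernel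

noncomputable def t2 : Tre :=
  .Q [0,0,0,0,0,-1,0,0,0,0,1] (.ed false [1,-1,1] .k) t0 t1

theorem ok2 : chk (cU (-1) false 3) t2 base = true :=
  chk_Q (e' := [0,0,0,0,0,1,0,0,0,0,-1]) (by decide +kernel) (by decide +kernel) ok0 ok1

theorem ok : chkB (cU (-1) false 3) (fax (fcU (-1)) true 1 (-1) 3 true (tU false)) t2 base = true :=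
  chkB_of (by decide +kernel) ok2

end Helper11.CT.T1_1_m1_1_v
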