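import Pool.Agent.Helper11.CT.Cfg
import Pool.Agent.Helper11.CT.Cut

set_option autoImplicit false
set_option linter.all false

namespace Helper11.CT.T1_1_m1_1_v2

open Helper11.CT

noncomputable def base : List Con :=
  [(false,[0,0,0,0,0,2,2,0,-2,2]),
  (false,[0,0,0,0,0,0,0,0,0,1]),
  (false,[0,1,0,0,0,-1,-1,0,1,-2]),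
  (false,[0,0,1,0,0,-1,0,0,1,-2]),
  (false,[0,1,0,0,0,1,1,0,-1]),
  (false,[0,1,0,0,0,-1,-1,0,1]),
  (false,[0,0,1,0,0,1,0,0,-1]),
  (false,[0,0,1,0,0,-1,0,0,1]),
  (true,[0,0,0,0,0,0,1]),
  (false,[0,0,0,0,0,0,0,0,-1,2]),
  (false,[0,0,0,0,0,0,0,0,1]),
  (false,[0,0,0,0,0,0,0,2,0,-4]),
  (false,[0,0,0,0,-1,0,0,0,0,2]),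
  (true,[0,0,0,0,1]),
  (true,[0,1,-1,-1]),
  (true,[0,1,0,-1]),
  (true,[0,0,0,1]),
  (true,[0,0,-2,0,0,0,0,2]),
  (true,[0,-2,0,0,0,0,0,2]),
  (true,[-1,0,1]),
  (true,[-1,1])]

noncomputable def t0 : Tre :=
  (.Q [0,1,0,0,0,0,0,-1,0,1] (.p true [0,0,0,1] [] (⟨0,[(1,0)]⟩,⟨0,[(1,0)]⟩) .k 0 (⟨0,[]⟩,⟨0,[]⟩)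
  .k .k) (.K ⟨1,[0,0,0,1],0,0,(⟨0,[(2,0)]⟩,⟨0,[(2,0)]⟩),.k,(.r 0 ⟨1,[(15,1),(3,0)]⟩ ⟨5,[(1,1),(4,3),
  (0,2),(0,2),(3,0),(4,5),(1,1)]⟩),(.r 0 ⟨5,[(1,1),(4,3),(0,2),(0,2),(3,0),(4,5),(1,1)]⟩ ⟨1,[(15,1),
  (3,0)]⟩),.k,.k,[⟨1,[(7,0),(0,0),(1,0),(0,0)]⟩,⟨1,[(4,0),(2,0)]⟩,⟨0,[(0,0)]⟩,⟨1,[(10,0),(0,0),(7,
  0)]⟩]⟩) (.Q [0,1,0,1,0,0,0,-1,0,1] (.p true [0,0,0,1] [] (⟨0,[(2,0)]⟩,⟨0,[(2,0)]⟩) .k 0 (⟨0,[]⟩,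
  ⟨0,[]⟩) .k .k) (.R ⟨2,true,false,false,[0,1],[0,0,0,1],[1,0,1],(⟨0,[]⟩,⟨0,[]⟩),(⟨0,[(3,0)]⟩,⟨0,
  [(3,0)]⟩),⟨0,[]⟩,.k,.k,.k,(.r (-1) ⟨5,[(0,5),(1,0),(4,1),(0,2),(0,2),(3,1),(6,3)]⟩ ⟨1,[(16,1),(3,
  0)]⟩),.k,.k,⟨false,1,⟨5,[(2,1),(4,3),(5,0),(6,1)]⟩,⟨1,[(19,0)]⟩⟩,⟨true,0,⟨1,[(5,0),(2,0)]⟩,⟨0,[(3,
  0)]⟩⟩,⟨false,1,⟨0,[(17,0),(2,0)]⟩,⟨0,[(18,0)]⟩⟩,⟨true,0,⟨0,[(1,0),(15,0)]⟩,⟨0,[(0,0)]⟩⟩,⟨true,0,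
  ⟨0,[]⟩,⟨0,[(22,0)]⟩⟩,⟨false,0,⟨0,[(1,0)]⟩,⟨1,[(2,0),(4,1),(12,0)]⟩⟩,[]⟩) (.Q [0,0,0,0,1,0,0,0,0,
  -1] (.p false [0,0,0,1] [] (⟨0,[(3,0)]⟩,⟨0,[(3,0)]⟩) .k 0 (⟨0,[]⟩,⟨0,[]⟩) .k .k) (.Q [0,1,0,-1,0,
  0,0,0,0,-2] (.pp true [-1,1]) (.R ⟨0,false,false,true,[0,0,0,1],[1,-1],[1,0,0,0,0,0,0,1],(⟨0,[(5,
  0)]⟩,⟨0,[(5,0)]⟩),(⟨0,[(16,0)]⟩,⟨0,[(17,0)]⟩),⟨0,[(1,0)]⟩,.k,.k,(.r 0 ⟨1,[(18,1),(3,0)]⟩ ⟨5,[(4,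
  1),(4,3),(0,2),(0,2),(3,0),(4,5),(1,1)]⟩),(.r 0 ⟨5,[(4,1),(4,3),(0,2),(0,2),(3,0),(4,5),(1,1)]⟩
  ⟨1,[(18,1),(3,0)]⟩),.k,.k,⟨false,0,⟨1,[(20,1),(1,0)]⟩,⟨1,[(19,1),(1,0)]⟩⟩,⟨true,0,⟨1,[(7,0),(2,
  0)]⟩,⟨0,[(5,0)]⟩⟩,⟨true,0,⟨0,[]⟩,⟨0,[(24,0)]⟩⟩,⟨false,1,⟨5,[(2,1),(12,0),(3,3),(2,0)]⟩,⟨1,[(13,0),
  (0,0),(5,1),(1,0)]⟩⟩,⟨false,0,⟨0,[]⟩,⟨0,[]⟩⟩,⟨false,0,⟨0,[]⟩,⟨0,[]⟩⟩,[.o ⟨false,0,⟨0,[(0,0)]⟩,⟨5,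
  [(4,1),(4,3),(5,0),(4,5),(1,4)]⟩⟩,.o ⟨false,1,⟨1,[(15,0),(3,1),(2,0)]⟩,⟨0,[(20,0)]⟩⟩,.a ⟨true,0,
  ⟨0,[(5,0)]⟩,⟨0,[(5,0)]⟩⟩ ⟨false,0,⟨1,[(22,0)]⟩,⟨5,[(4,1),(4,3),(5,0),(6,1)]⟩⟩ ⟨true,0,⟨1,[(0,0),
  (18,0)]⟩,⟨1,[(13,0),(0,0),(5,1)]⟩⟩,.o ⟨false,0,⟨1,[(7,0),(2,0)]⟩,⟨5,[(4,0),(4,1),(5,1),(5,2),(0,
  0)]⟩⟩]⟩) (.Q [0,0,0,0,1,0,0,0,-1] (.ed true [1,-1,1] .k) (.R ⟨0,false,false,false,[0,0,1],[1,-1],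
  [0,1],(⟨0,[(15,0)]⟩,⟨0,[(14,0)]⟩),(⟨0,[(17,0)]⟩,⟨0,[(18,0)]⟩),⟨0,[(0,0)]⟩,.k,.k,.k,.k,.k,.k,
  ⟨false,0,⟨0,[(21,0),(3,0)]⟩,⟨0,[(19,0),(3,0)]⟩⟩,⟨true,0,⟨0,[(8,0)]⟩,⟨0,[(1,0),(9,0),(7,0)]⟩⟩,
  ⟨true,0,⟨0,[(1,0),(5,0),(3,0),(7,0)]⟩,⟨0,[(13,0)]⟩⟩,⟨false,1,⟨1,[(3,1),(3,0),(2,0),(12,0)]⟩,⟨2,
  [(1,0),(3,1),(4,0),(10,1)]⟩⟩,⟨false,0,⟨0,[]⟩,⟨0,[]⟩⟩,⟨false,0,⟨0,[]⟩,⟨0,[]⟩⟩,[.o ⟨false,1,⟨1,[(16,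
  0),(3,1),(2,0)]⟩,⟨0,[(21,0)]⟩⟩,.o ⟨false,1,⟨2,[(3,1),(12,0),(3,0),(2,0)]⟩,⟨0,[(21,0),(3,0)]⟩⟩,.a
  ⟨true,0,⟨0,[(1,0),(9,0),(7,0)]⟩,⟨0,[(1,0),(6,0),(10,0)]⟩⟩ ⟨true,0,⟨0,[(25,0)]⟩,⟨0,[]⟩⟩ ⟨false,1,
  ⟨1,[(3,1),(4,0),(3,0),(9,0)]⟩,⟨0,[(1,0),(9,0),(7,0),(1,0)]⟩⟩,.o ⟨false,0,⟨0,[(11,0)]⟩,⟨0,[(8,0),
  (13,0)]⟩⟩]⟩) (.K ⟨0,[0,-1,1],0,0,(⟨0,[(0,0)]⟩,⟨0,[(14,0),(3,0)]⟩),.k,(.r (-1) ⟨0,[(13,0),(5,1),(3,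
  0)]⟩ ⟨1,[(1,1),(5,0),(0,0),(1,0),(0,2),(9,1)]⟩),.k,.k,.k,[⟨0,[(1,0),(6,0),(10,0)]⟩,⟨0,[(1,0),(9,
  0),(7,0)]⟩,⟨0,[(10,0),(10,0)]⟩,⟨1,[(5,0),(2,0),(2,0),(7,1)]⟩]⟩))) (.Q [0,1,0,-1,0,0,0,0,0,-2]
  (.pp true [-1,1]) (.R ⟨1,false,false,true,[0,0,0,1],[1,-1],[0,0,0,0,0,0,0,1],(⟨0,[(5,0)]⟩,⟨0,[(5,
  0)]⟩),(⟨0,[(16,0)]⟩,⟨0,[(17,0)]⟩),⟨0,[(1,0)]⟩,.k,.k,(.r 0 ⟨1,[(18,1),(3,0)]⟩ ⟨5,[(4,1),(4,3),(0,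
  2),(0,2),(3,0),(4,5),(1,1)]⟩),(.r 0 ⟨5,[(4,1),(4,3),(0,2),(0,2),(3,0),(4,5),(1,1)]⟩ ⟨1,[(18,1),(3,
  0)]⟩),.k,.k,⟨false,0,⟨1,[(20,1),(1,0)]⟩,⟨1,[(19,1),(1,0)]⟩⟩,⟨true,0,⟨1,[(7,0),(2,0)]⟩,⟨0,[(5,
  0)]⟩⟩,⟨false,1,⟨5,[(4,1),(4,3),(5,0),(6,4)]⟩,⟨0,[]⟩⟩,⟨false,1,⟨5,[(2,1),(12,0),(3,3),(2,0)]⟩,⟨1,
  [(13,0),(0,0),(5,1),(1,0)]⟩⟩,⟨true,0,⟨0,[(20,0)]⟩,⟨0,[(19,0)]⟩⟩,⟨false,1,⟨5,[(4,0),(4,1),(5,1),(6,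
  0)]⟩,⟨1,[(13,0),(0,0),(7,0)]⟩⟩,[.o ⟨false,0,⟨0,[(0,0)]⟩,⟨5,[(4,1),(4,3),(5,0),(4,5),(1,4)]⟩⟩,.o
  ⟨false,1,⟨1,[(15,0),(3,1),(2,0)]⟩,⟨0,[(20,0)]⟩⟩,.a ⟨true,0,⟨0,[(5,0)]⟩,⟨0,[(5,0)]⟩⟩ ⟨false,0,⟨1,
  [(22,0)]⟩,⟨5,[(4,1),(4,3),(5,0),(6,1)]⟩⟩ ⟨true,0,⟨1,[(0,0),(18,0)]⟩,⟨1,[(13,0),(0,0),(5,1)]⟩⟩,.o
  ⟨false,0,⟨1,[(7,0),(2,0)]⟩,⟨5,[(4,0),(4,1),(5,1),(5,2),(0,0)]⟩⟩]⟩) (.Q [0,0,0,0,-1,0,0,0,1] (.ed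
  false [1,-1,1] .k) (.K ⟨0,[0,-1,1],0,0,(⟨0,[(0,0)]⟩,⟨0,[(14,0),(3,0)]⟩),.k,(.r (-1) ⟨0,[(13,0),(5,
  1),(3,0)]⟩ ⟨1,[(1,1),(5,0),(0,0),(1,0),(0,2),(9,1)]⟩),.k,.k,.k,[⟨0,[(1,0),(6,0),(10,0)]⟩,⟨0,[(1,
  0),(9,0),(7,0)]⟩,⟨0,[(10,0),(10,0)]⟩,⟨1,[(5,0),(2,0),(2,0),(7,1)]⟩]⟩) (.R ⟨0,false,false,false,[0,
  0,1],[1,-1],[0,1],(⟨0,[(15,0)]⟩,⟨0,[(14,0)]⟩),(⟨0,[(17,0)]⟩,⟨0,[(18,0)]⟩),⟨0,[(0,0)]⟩,.k,.k,.k,.k,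
  .k,.k,⟨false,0,⟨0,[(21,0),(3,0)]⟩,⟨0,[(19,0),(3,0)]⟩⟩,⟨true,0,⟨0,[(8,0)]⟩,⟨0,[(1,0),(9,0),(7,
  0)]⟩⟩,⟨true,0,⟨0,[(1,0),(5,0),(3,0),(7,0)]⟩,⟨0,[(13,0)]⟩⟩,⟨false,1,⟨1,[(3,1),(3,0),(2,0),(12,0)]⟩,
  ⟨2,[(1,0),(3,1),(4,0),(10,1)]⟩⟩,⟨false,0,⟨0,[]⟩,⟨0,[]⟩⟩,⟨false,0,⟨0,[]⟩,⟨0,[]⟩⟩,[.o ⟨false,1,⟨1,
  [(16,0),(3,1),(2,0)]⟩,⟨0,[(21,0)]⟩⟩,.o ⟨false,1,⟨2,[(3,1),(12,0),(3,0),(2,0)]⟩,⟨0,[(21,0),(3,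
  0)]⟩⟩,.a ⟨true,0,⟨0,[(1,0),(9,0),(7,0)]⟩,⟨0,[(1,0),(6,0),(10,0)]⟩⟩ ⟨true,0,⟨0,[(25,0)]⟩,⟨0,[]⟩⟩
  ⟨false,1,⟨1,[(3,1),(4,0),(3,0),(9,0)]⟩,⟨0,[(1,0),(9,0),(7,0),(1,0)]⟩⟩,.o ⟨false,0,⟨0,[(11,0)]⟩,⟨0,
  [(8,0),(13,0)]⟩⟩]⟩))))))

theorem ok0 : chk (cW (-1) 3) t0 base = true := by decide +kernel

theorem ok : chkB (cW (-1) 3) (fax (fcW (-1)) true 1 (-1) 3 true tW) t0 base = true :=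
  chkB_of (by decide +kernel) ok0

end Helper11.CT.T1_1_m1_1_v2
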