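import Pool.Agent.Helper11.CT.Cfg
import Pool.Agent.Helper11.CT.Cut

set_option autoImplicit false
set_option linter.all false

namespace Helper11.CT.T1_1_m1_m1_v2

open Helper11.CT

noncomputable def base : List Con :=
  [(false,[0,0,0,0,0,2,2,0,-2,2]),
  (false,[0,0,0,0,0,0,0,0,0,1]),
  (false,[0,1,0,0,0,-1,-1,0,1,-2]),
  (false,[0,0,1,0,0,-1,0,0,1,-2]),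
  (false,[0,1,0,0,0,1,1,0,-1]),
  (false,[0,1,0,0,0,-1,-1,0,1]),
  (false,[0,0,1,0,0,1,0,0,-1]),
  (false,[0,0,1,0,0,-1,0,0,1]),
  (true,[0,0,0,0,0,0,-1]),
  (false,[0,0,0,0,0,0,0,0,-1,2]),
  (false,[0,0,0,0,0,0,0,0,1]),
  (false,[0,0,0,0,0,0,0,2,0,-4]),
  (false,[0,0,0,0,-1,0,0,0,0,2]),
  (true,[0,0,0,0,1]),
  (true,[0,1,-1,-1]),
  (true,[0,1,0,-1]),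
  (true,[0,0,0,1]),
  (true,[0,0,-2,0,0,0,0,2]),
  (true,[0,-2,0,0,0,0,0,2]),
  (true,[-1,0,1]),
  (true,[-1,1])]

noncomputable def t0 : Tre :=
  (.Q [0,0,0,0,-1,0,0,0,-1,2] (.ed true [0,1,1] .k) (.Q [0,0,0,0,0,-1,0,0,1] (.p true [0,0,1] []
  (⟨0,[(11,0)]⟩,⟨0,[(10,0)]⟩) .k 0 (⟨0,[]⟩,⟨0,[]⟩) .k .k) (.K ⟨0,[1,-1,-1],0,0,(⟨0,[(1,0)]⟩,⟨0,[(12,
  0),(2,0)]⟩),.k,(.r (-1) ⟨0,[(10,0),(5,1),(3,0)]⟩ ⟨1,[(2,0),(2,0),(2,0),(0,1),(8,3)]⟩),.k,.k,.k,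
  [⟨1,[(2,0),(7,1),(0,0),(0,0)]⟩,⟨0,[(0,0)]⟩,⟨0,[(2,0),(4,0),(10,0)]⟩,⟨0,[(5,0),(4,0),(5,0)]⟩]⟩)
  (.K ⟨2,[0,1,1],0,0,(⟨0,[(12,0),(2,0)]⟩,⟨0,[(1,0)]⟩),.k,.k,(.r 0 ⟨1,[(2,0),(2,0),(2,0),(0,1),(8,
  3)]⟩ ⟨0,[(10,0),(5,1),(3,0)]⟩),.k,.k,[⟨0,[(18,0)]⟩,⟨0,[(9,0),(0,0),(5,0)]⟩,⟨1,[(8,0),(0,2)]⟩,⟨0,
  [(0,0)]⟩]⟩)) (.K ⟨2,[-1,1,1],0,0,(⟨0,[(0,0)]⟩,⟨0,[(10,0),(2,0)]⟩),.k,.k,(.r 0 ⟨1,[(1,0),(2,0),(2,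
  0),(0,1),(8,3)]⟩ ⟨0,[(9,0),(5,1),(3,0)]⟩),.k,.k,[⟨0,[(10,0),(0,0),(5,0)]⟩,⟨0,[(4,0),(4,0),(5,0)]⟩,
  ⟨1,[(4,1),(2,0),(0,0)]⟩,⟨1,[(1,0),(7,1),(0,0),(0,0)]⟩]⟩))

theorem ok0 : chk (cW (-1) 3) t0 base = true := by decide +kernel

theorem ok : chkB (cW (-1) 3) (fax (fcW (-1)) true 1 (-1) 3 false tW) t0 base = true :=
  chkB_of (by decide +kernel) ok0

end Helper11.CT.T1_1_m1_m1_v2
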