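import Pool.Agent.Helper11.CT.Cfg
import Pool.Agent.Helper11.CT.Cut

set_option autoImplicit false
set_option linter.all false

namespace Helper11.CT.T1_2_m1_1_u

open Helper11.CT

noncomputable def base : List Con :=
  [(false,[0,0,0,0,0,0,2,2,0,1,-2]),
  (true,[0,0,0,0,1,0,0,0,-2]),
  (true,[0,0,0,0,1,0,0,0,2]),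
  (false,[0,0,0,0,0,0,0,0,0,1,0,-1]),
  (false,[0,0,0,0,0,0,0,0,0,0,0,1]),
  (false,[0,1,0,0,0,0,-1,-1,0,-1,1]),
  (false,[0,0,1,0,0,0,-1,0,0,-1,1]),
  (false,[0,1,0,0,0,0,1,1,0,0,-1]),
  (false,[0,1,0,0,0,0,-1,-1,0,0,1]),
  (false,[0,0,1,0,0,0,1,0,0,0,-1]),
  (false,[0,0,1,0,0,0,-1,0,0,0,1]),
  (true,[0,0,0,0,0,0,0,1]),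
  (false,[0,0,0,0,0,0,0,0,0,1,-1]),
  (false,[0,0,0,0,0,0,0,0,0,0,1]),
  (false,[0,0,0,0,1,0,0,0,0,-2]),
  (false,[0,0,0,0,0,-1,0,0,0,1]),
  (true,[0,0,0,0,0,1]),
  (true,[1,-1,1,1]),
  (true,[0,1,-1]),
  (true,[0,1,0,-1]),
  (true,[0,0,0,1]),
  (true,[0,0,-2,0,1]),
  (true,[0,-2,0,0,1]),
  (true,[-1,0,1]),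
  (true,[-1,1])]

noncomputable def l0 : List Con := (false, [0,-1,0,1,0,0,1,0,0,1,-1]) :: base

noncomputable def r0 : List Con := (false, [0,1,0,-1,0,0,-1,0,0,-1,1]) :: base

noncomputable def t0 : Tre :=
  (.R ⟨2,true,false,true,[0,1],[1,0,-1],[1,1,1],(⟨0,[]⟩,⟨0,[]⟩),(⟨0,[(13,0)]⟩,⟨0,[(14,0)]⟩),⟨0,[]⟩,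
  .k,.k,.k,.k,.k,.k,⟨false,0,⟨0,[(12,0)]⟩,⟨1,[(0,1),(5,1),(13,1),(1,0),(0,0)]⟩⟩,⟨true,0,⟨0,[(7,0)]⟩,
  ⟨0,[(0,0),(19,0)]⟩⟩,⟨true,0,⟨0,[(20,0)]⟩,⟨0,[(21,0)]⟩⟩,⟨false,1,⟨0,[(6,0),(13,0),(2,0)]⟩,⟨0,[(0,
  0),(11,0)]⟩⟩,⟨false,0,⟨0,[]⟩,⟨3,[(2,0),(0,0),(19,1)]⟩⟩,⟨true,0,⟨0,[(6,0)]⟩,⟨1,[(1,0),(2,0),(0,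
  0)]⟩⟩,[]⟩)

theorem ok0 : chk (cU (-1) true 3) t0 l0 = true := by decide +kernel

noncomputable def l1 : List Con := (false, [0,0,0,0,0,0,1,0,0,1,-1]) :: r0

noncomputable def r1 : List Con := (false, [0,0,0,0,0,0,-1,0,0,-1,1]) :: r0

noncomputable def t1 : Tre :=
  (.Q [0,-1,0,1,0,0,1,1,0,1,-1] (.p false [0,0,1] [1] (⟨0,[(15,0)]⟩,⟨0,[(14,0)]⟩) .k 1 (⟨0,[]⟩,⟨0,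
  []⟩) .k .k) (.R ⟨2,true,false,true,[0,1],[1,0,-1],[1,1,1],(⟨0,[]⟩,⟨0,[]⟩),(⟨0,[(15,0)]⟩,⟨0,[(16,
  0)]⟩),⟨0,[]⟩,.k,.k,.k,.k,.k,.k,⟨false,0,⟨0,[(14,0)]⟩,⟨1,[(1,1),(6,1),(15,0),(0,0)]⟩⟩,⟨true,0,⟨0,
  [(9,0)]⟩,⟨0,[(1,0)]⟩⟩,⟨true,0,⟨0,[(22,0)]⟩,⟨0,[(23,0)]⟩⟩,⟨false,1,⟨0,[(8,0),(13,0),(2,0)]⟩,⟨0,[(0,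
  0)]⟩⟩,⟨false,0,⟨0,[]⟩,⟨3,[(4,0),(0,0),(19,1)]⟩⟩,⟨true,0,⟨0,[(8,0)]⟩,⟨1,[(3,0),(2,0),(0,0)]⟩⟩,[]⟩)
  (.Q [0,0,0,0,0,1,0,0,0,0,-1] (.ed true [1,-1,1] .k) (.Q [0,0,0,0,0,0,-2,-1,0,-1,2] (.p true [0,0,
  1] [1,0,-1] (⟨0,[(17,0)]⟩,⟨0,[(16,0)]⟩) .k 2 (⟨0,[(16,0)]⟩,⟨0,[(17,0)]⟩) .k (.r 0 ⟨0,[(15,1)]⟩ ⟨0,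
  [(2,1),(6,1),(16,0)]⟩)) (.R ⟨0,false,false,false,[0,0,1],[1,0,-1],[0,1],(⟨0,[(18,0)]⟩,⟨0,[(17,
  0)]⟩),(⟨0,[(17,0)]⟩,⟨0,[(18,0)]⟩),⟨0,[(1,0)]⟩,.k,.k,.k,.k,.k,.k,⟨false,0,⟨0,[(16,0),(6,0)]⟩,⟨0,
  [(3,0),(6,0),(16,0)]⟩⟩,⟨true,0,⟨0,[(0,0),(15,0)]⟩,⟨0,[(3,0),(10,0)]⟩⟩,⟨true,0,⟨0,[(3,0),(6,0)]⟩,
  ⟨0,[(16,0)]⟩⟩,⟨false,1,⟨0,[(0,0),(2,0),(6,0),(16,0)]⟩,⟨0,[(5,0)]⟩⟩,⟨false,0,⟨0,[]⟩,⟨0,[]⟩⟩,⟨false,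
  0,⟨0,[]⟩,⟨0,[]⟩⟩,[.a ⟨true,0,⟨0,[(0,0),(2,0)]⟩,⟨1,[(5,0),(2,0),(0,0)]⟩⟩ ⟨false,0,⟨0,[(23,0)]⟩,⟨3,
  [(6,0),(0,0),(19,1)]⟩⟩ ⟨true,0,⟨0,[(0,0)]⟩,⟨3,[(3,1),(1,1),(8,2),(0,0)]⟩⟩,.o ⟨false,1,⟨0,[(10,0),
  (16,0)]⟩,⟨0,[(12,0)]⟩⟩,.e ⟨true,0,⟨0,[(29,0)]⟩,⟨0,[]⟩⟩ ⟨true,0,⟨0,[(0,0)]⟩,⟨0,[(3,0),(8,0)]⟩⟩,.o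
  ⟨false,0,⟨0,[(14,0)]⟩,⟨2,[(0,0),(14,0),(0,0),(2,0),(6,1)]⟩⟩]⟩) (.Q [0,0,-2,0,0,0,-1,0,0,1,1] (.p
  true [1,-1,1] [] (⟨0,[(18,0),(1,0)]⟩,⟨0,[(1,0)]⟩) .k 0 (⟨0,[]⟩,⟨0,[]⟩) .k .k) (.Q [0,-1,0,-1,1,0,
  2,2,0,0,-2] (.p false [0,0,1] [0,1,-1] (⟨0,[(19,0)]⟩,⟨0,[(18,0)]⟩) .k 2 (⟨0,[(2,0)]⟩,⟨0,[(19,0),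
  (1,0)]⟩) .k (.r 0 ⟨0,[(17,1)]⟩ ⟨0,[(4,1),(6,1),(16,0)]⟩)) (.K ⟨0,[0,1,-1],0,0,(⟨0,[(3,0)]⟩,⟨0,
  [(20,0),(1,0)]⟩),.k,.k,(.r 0 ⟨0,[(15,0),(0,0),(7,0),(2,0)]⟩ ⟨0,[(0,0),(0,0),(2,0)]⟩),.k,.k,[⟨1,
  [(16,2),(0,0)]⟩,⟨0,[(1,0)]⟩,⟨0,[(2,0),(3,0)]⟩,⟨0,[(15,0),(11,0)]⟩]⟩) (.R ⟨0,false,false,false,[0,
  1,-1],[0,0,1],[1,0,1],(⟨0,[(3,0)]⟩,⟨0,[(20,0),(1,0)]⟩),(⟨0,[(20,0)]⟩,⟨0,[(19,0)]⟩),⟨0,[(20,0)]⟩,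
  .k,.k,.k,(.r 0 ⟨1,[(0,1),(15,3),(11,0),(0,0)]⟩ ⟨5,[(1,1),(4,5),(0,3),(0,0),(0,0),(8,3),(9,0),(0,
  2)]⟩),.k,.k,⟨true,0,⟨5,[(0,1),(3,1),(0,1),(10,4),(0,0),(11,1)]⟩,⟨0,[(18,0)]⟩⟩,⟨false,1,⟨0,[(16,1),
  (11,0)]⟩,⟨0,[(1,0),(11,0)]⟩⟩,⟨false,1,⟨7,[(1,0),(4,4),(0,3),(9,1),(8,2),(2,7)]⟩,⟨1,[(0,1),(1,1),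
  (18,0),(7,0)]⟩⟩,⟨true,1,⟨1,[(7,1),(13,0),(4,1),(2,0)]⟩,⟨0,[(0,0)]⟩⟩,⟨false,0,⟨0,[]⟩,⟨0,[]⟩⟩,
  ⟨false,0,⟨0,[]⟩,⟨0,[]⟩⟩,[.e ⟨false,0,⟨0,[]⟩,⟨3,[(8,0),(0,0),(18,1)]⟩⟩ ⟨false,1,⟨3,[(2,3),(5,0),(0,
  0),(11,1)]⟩,⟨1,[(0,0),(0,0),(4,0),(22,0)]⟩⟩,.o ⟨false,1,⟨7,[(7,3),(0,0),(0,0),(11,1),(7,3)]⟩,⟨0,
  [(12,0)]⟩⟩,.a ⟨true,0,⟨3,[(1,2),(3,0),(11,1)]⟩,⟨0,[(16,0)]⟩⟩ ⟨true,0,⟨1,[(16,0),(0,0)]⟩,⟨0,[(25,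
  0)]⟩⟩ ⟨false,1,⟨7,[(7,3),(0,0),(0,0),(6,7),(4,1),(7,3)]⟩,⟨1,[(0,0),(0,0),(4,0),(22,0)]⟩⟩,.o
  ⟨false,0,⟨2,[(1,0),(11,0),(3,0)]⟩,⟨1,[(16,1),(4,0),(6,0)]⟩⟩]⟩)) (.I [1,-1,-1,-1,1] (.Q [0,0,0,0,0,
  0,-1,0,0,0,1] (.p true [0,0,1] [] (⟨0,[(20,0)]⟩,⟨0,[(19,0)]⟩) .k 0 (⟨0,[]⟩,⟨0,[]⟩) .k .k) (.Q [0,
  -1,0,-1,1,0,0,0,0,-1] (.pp true [-1,1]) (.R ⟨0,false,false,false,[0,0,1],[1,-1],[0,1],(⟨0,[(22,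
  0)]⟩,⟨0,[(21,0)]⟩),(⟨0,[(24,0)]⟩,⟨0,[(25,0)]⟩),⟨0,[(5,0)]⟩,.k,.k,.k,.k,.k,.k,⟨false,0,⟨0,[(29,0),
  (3,0)]⟩,⟨0,[(2,0)]⟩⟩,⟨true,0,⟨0,[(15,0)]⟩,⟨0,[(7,0)]⟩⟩,⟨true,0,⟨0,[(7,0),(6,0)]⟩,⟨0,[(20,0)]⟩⟩,
  ⟨false,1,⟨0,[(6,0),(24,0)]⟩,⟨1,[(9,0),(2,0),(0,0),(15,1)]⟩⟩,⟨false,0,⟨0,[]⟩,⟨0,[]⟩⟩,⟨false,0,⟨0,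
  []⟩,⟨0,[]⟩⟩,[.o ⟨false,1,⟨7,[(0,3),(9,0),(0,0),(11,1),(4,3)]⟩,⟨0,[(29,0)]⟩⟩,.o ⟨false,1,⟨0,[(0,
  0)]⟩,⟨0,[(29,0),(3,0)]⟩⟩,.a ⟨true,0,⟨0,[(7,0)]⟩,⟨0,[(1,0)]⟩⟩ ⟨true,0,⟨0,[(33,0)]⟩,⟨0,[]⟩⟩ ⟨false,
  1,⟨0,[(8,0),(22,0)]⟩,⟨0,[(7,0),(21,0)]⟩⟩,.o ⟨false,0,⟨0,[(18,0)]⟩,⟨1,[(1,1),(21,0),(6,0)]⟩⟩]⟩)
  (.I [0,0,-2,-2,1,0,0,1] (.K ⟨1,[1,-1,1],0,1,(⟨0,[(23,0),(1,0)]⟩,⟨0,[(6,0)]⟩),.k,(.r (-1) ⟨0,[(0,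
  0)]⟩ ⟨0,[(18,0),(0,0),(7,0),(2,0)]⟩),.k,.k,.k,[⟨0,[(2,0),(10,0),(0,0)]⟩,⟨0,[(4,0)]⟩,⟨0,[(1,1),(5,
  0),(24,0)]⟩,⟨2,[(0,0),(3,0),(5,0),(18,0),(2,1)]⟩]⟩) (.R ⟨0,false,false,false,[0,0,1],[0,1],[1,1,
  1],(⟨0,[(23,0)]⟩,⟨0,[(22,0)]⟩),(⟨0,[(26,0)]⟩,⟨0,[(25,0)]⟩),⟨0,[(6,0)]⟩,.k,.k,.k,.k,.k,.k,⟨true,0,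
  ⟨0,[(29,0)]⟩,⟨1,[(0,0),(20,0),(10,0)]⟩⟩,⟨false,1,⟨0,[(2,0),(28,0)]⟩,⟨0,[(19,0)]⟩⟩,⟨false,0,⟨5,[(0,
  1),(6,3),(0,3),(10,0),(0,0),(11,1)]⟩,⟨1,[(21,1),(9,0),(0,0)]⟩⟩,⟨true,0,⟨1,[(0,0),(0,0),(0,0),(4,
  0),(23,0),(0,0)]⟩,⟨0,[(5,0),(3,0)]⟩⟩,⟨false,0,⟨0,[]⟩,⟨0,[]⟩⟩,⟨false,0,⟨0,[]⟩,⟨0,[]⟩⟩,[.o ⟨false,0,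
  ⟨0,[(30,0)]⟩,⟨7,[(3,3),(0,1),(4,1),(1,0),(0,0),(11,1),(4,1)]⟩⟩,.e ⟨false,0,⟨0,[]⟩,⟨3,[(11,0),(0,
  0),(18,1)]⟩⟩ ⟨false,1,⟨1,[(2,1),(27,1),(0,0),(0,0)]⟩,⟨0,[(5,0),(1,0)]⟩⟩,.a ⟨true,0,⟨0,[(8,0)]⟩,⟨0,
  [(2,0)]⟩⟩ ⟨false,0,⟨1,[(19,0),(0,0)]⟩,⟨1,[(31,0),(0,0)]⟩⟩ ⟨true,0,⟨0,[(2,0),(27,0)]⟩,⟨0,[(5,0),(1,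
  0)]⟩⟩,.o ⟨false,0,⟨0,[(19,0)]⟩,⟨1,[(2,1),(21,0),(6,0)]⟩⟩]⟩))) (.Q [0,0,0,0,0,0,-1,0,0,1,1] (.p
  true [1,-1,1] [] (⟨0,[(21,0),(1,0)]⟩,⟨0,[(4,0)]⟩) .k 0 (⟨0,[]⟩,⟨0,[]⟩) .k .k) (.R ⟨0,false,false,
  false,[0,1,-1],[0,1],[1,0,1,0,0,0,0,-1],(⟨0,[(5,0)]⟩,⟨0,[(22,0),(1,0)]⟩),(⟨0,[(25,0)]⟩,⟨0,[(24,
  0)]⟩),⟨0,[(22,0)]⟩,.k,.k,.k,.k,.k,.k,⟨false,1,⟨1,[(6,1),(0,1),(22,0),(0,0)]⟩,⟨0,[(20,0),(8,0)]⟩⟩,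
  ⟨true,0,⟨0,[(1,0)]⟩,⟨0,[(19,0)]⟩⟩,⟨false,1,⟨0,[(28,0),(2,0)]⟩,⟨0,[(29,0)]⟩⟩,⟨true,0,⟨0,[(1,0),(18,
  0)]⟩,⟨0,[(17,0)]⟩⟩,⟨false,0,⟨0,[]⟩,⟨0,[]⟩⟩,⟨false,0,⟨0,[]⟩,⟨0,[]⟩⟩,[.o ⟨false,0,⟨0,[(29,0)]⟩,⟨7,
  [(2,3),(0,1),(4,1),(1,0),(0,0),(11,1),(4,1)]⟩⟩,.o ⟨false,1,⟨3,[(10,0),(0,0),(17,3),(1,1)]⟩,⟨0,[(1,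
  0),(6,0)]⟩⟩,.o ⟨false,1,⟨1,[(0,1),(22,0),(6,0)]⟩,⟨0,[(1,1),(13,0)]⟩⟩,.a ⟨true,0,⟨0,[(0,0)]⟩,⟨0,
  [(1,0)]⟩⟩ ⟨false,1,⟨0,[(1,0),(15,0),(13,0)]⟩,⟨0,[(20,0)]⟩⟩ ⟨true,0,⟨0,[(1,0),(27,0)]⟩,⟨1,[(0,0),
  (7,0),(19,0)]⟩⟩]⟩) (.Q [0,0,0,0,0,1,0,0,0,-1,1] (.ed false [0,1,1] .k) (.K ⟨2,[-1,1,1],0,0,(⟨0,
  [(0,0)]⟩,⟨0,[(22,0),(2,0)]⟩),.k,.k,(.x (-1) ⟨0,[(0,0),(7,0),(17,0),(4,0)]⟩ ⟨0,[(1,0),(14,1),(5,0),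
  (2,1)]⟩),.k,.k,[⟨0,[(13,0),(0,0),(15,0)]⟩,⟨0,[(7,0)]⟩,⟨2,[(4,0),(11,1),(3,1)]⟩,⟨0,[(8,0)]⟩]⟩) (.K
  ⟨2,[0,1,1],0,0,(⟨0,[(23,0),(2,0)]⟩,⟨0,[(0,0)]⟩),.k,.k,(.x (-1) ⟨0,[(2,0),(20,0),(2,1),(4,0)]⟩ ⟨3,
  [(0,3),(0,0),(2,0),(11,5),(8,3)]⟩),.k,.k,[⟨0,[(30,0)]⟩,⟨0,[(7,0),(5,0),(0,0)]⟩,⟨1,[(19,0),(0,2)]⟩,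
  ⟨0,[(2,0)]⟩]⟩)))) (.Q [0,0,0,0,0,1,0,0,0,-1,1] (.ed false [0,1,1] .k) (.K ⟨2,[-1,1,1],0,0,(⟨0,[(0,
  0)]⟩,⟨0,[(20,0),(2,0)]⟩),.k,.k,(.r 1 ⟨0,[(1,0),(17,0),(5,0)]⟩ ⟨0,[(5,0),(0,0),(20,0),(1,0),(0,
  0)]⟩),.k,.k,[⟨0,[(11,0),(0,0),(15,0)]⟩,⟨0,[(5,0)]⟩,⟨2,[(2,0),(11,1),(3,1)]⟩,⟨0,[(6,0)]⟩]⟩) (.Q [0,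
  0,0,0,0,0,-1,0,0,0,1] (.p true [0,0,1] [] (⟨0,[(21,0)]⟩,⟨0,[(20,0)]⟩) .k 0 (⟨0,[]⟩,⟨0,[]⟩) .k .k)
  (.K ⟨0,[1,-1,-1],0,0,(⟨0,[(1,0)]⟩,⟨0,[(22,0),(2,0)]⟩),.k,(.r (-2) ⟨0,[(6,0),(0,0),(20,0),(1,0),(0,
  0)]⟩ ⟨0,[(2,0),(17,0),(5,0)]⟩),.k,.k,.k,[⟨0,[(7,0)]⟩,⟨0,[(0,0)]⟩,⟨0,[(9,0),(7,0),(11,0)]⟩,⟨0,[(6,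
  0)]⟩]⟩) (.K ⟨2,[0,1,1],0,0,(⟨0,[(22,0),(2,0)]⟩,⟨0,[(1,0)]⟩),.k,.k,(.r 1 ⟨0,[(2,0),(17,0),(5,0)]⟩
  ⟨0,[(6,0),(0,0),(20,0),(1,0),(0,0)]⟩),.k,.k,[⟨0,[(29,0)]⟩,⟨0,[(6,0),(5,0),(0,0)]⟩,⟨1,[(18,0),(0,
  2)]⟩,⟨0,[(0,0)]⟩]⟩)))))) (.I [0,0,-2,-2,1,0,0,1] (.Q [0,0,0,0,0,0,-1,0,0,0,1] (.p true [0,0,1] []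
  (⟨0,[(18,0)]⟩,⟨0,[(17,0)]⟩) .k 0 (⟨0,[]⟩,⟨0,[]⟩) .k .k) (.K ⟨0,[0,-1,1],0,0,(⟨0,[(2,0)]⟩,⟨0,[(18,
  0),(3,0)]⟩),.k,(.r (-1) ⟨0,[(1,0)]⟩ ⟨0,[(14,0),(0,0),(7,0),(2,0)]⟩),.k,.k,.k,[⟨0,[(0,0)]⟩,⟨0,[(4,
  0)]⟩,⟨0,[(14,0),(11,0)]⟩,⟨0,[(3,0),(2,0)]⟩]⟩) (.Q [0,0,0,0,0,1,0,0,0,-1,1] (.ed false [0,1,1] .k)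
  (.Q [0,-1,0,1,0,0,1,1,0,2,-1] (.p false [-1,1,1] [1] (⟨0,[(0,0)]⟩,⟨0,[(19,0),(2,0)]⟩) .k 1 (⟨0,
  []⟩,⟨0,[]⟩) .k .k) (.R ⟨2,false,false,false,[0,1],[-1,1,1],[0,1],(⟨0,[]⟩,⟨0,[]⟩),(⟨0,[(1,0)]⟩,⟨0,
  [(20,0),(2,0)]⟩),⟨0,[]⟩,.k,.k,.k,.k,.k,.k,⟨false,1,⟨0,[(5,0),(0,0),(22,0)]⟩,⟨0,[(19,0),(5,0)]⟩⟩,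
  ⟨true,0,⟨0,[(6,0)]⟩,⟨0,[(14,0)]⟩⟩,⟨false,1,⟨5,[(3,1),(1,1),(0,1),(2,0),(0,0),(18,0),(0,0)]⟩,⟨0,
  [(25,0)]⟩⟩,⟨true,0,⟨2,[(0,0),(7,0),(18,0)]⟩,⟨0,[(13,0)]⟩⟩,⟨true,0,⟨0,[(26,0)]⟩,⟨1,[(17,0),(0,
  0)]⟩⟩,⟨true,0,⟨1,[(0,0),(14,0),(12,0)]⟩,⟨0,[(5,0)]⟩⟩,[.o ⟨false,0,⟨1,[(0,0),(14,0),(12,0)]⟩,⟨1,
  [(5,1),(16,0),(7,0)]⟩⟩,.a ⟨true,0,⟨0,[(0,0)]⟩,⟨0,[(5,0)]⟩⟩ ⟨false,1,⟨3,[(9,0),(0,0),(18,1)]⟩,⟨0,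
  []⟩⟩ ⟨true,0,⟨5,[(0,1),(7,1),(8,0),(0,0),(6,3)]⟩,⟨0,[(5,0)]⟩⟩,.o ⟨false,1,⟨3,[(9,0),(0,0),(18,
  1)]⟩,⟨0,[(2,0),(11,0)]⟩⟩,.e ⟨true,0,⟨0,[(26,0)]⟩,⟨1,[(17,0),(0,0)]⟩⟩ ⟨true,0,⟨1,[(0,0),(14,0),(12,
  0)]⟩,⟨0,[(5,0)]⟩⟩]⟩) (.K ⟨2,[-1,1,1],0,0,(⟨0,[(1,0)]⟩,⟨0,[(20,0),(2,0)]⟩),.k,.k,(.x (-1) ⟨0,[(1,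
  0),(4,0),(17,0),(4,0)]⟩ ⟨1,[(0,2),(7,0),(5,0),(4,0),(0,1),(2,3),(1,2)]⟩),.k,.k,[⟨0,[(11,0),(0,0),
  (15,0)]⟩,⟨0,[(5,0)]⟩,⟨1,[(14,1),(2,0),(0,0)]⟩,⟨0,[(6,0)]⟩]⟩)) (.K ⟨2,[0,1,1],0,0,(⟨0,[(20,0),(2,
  0)]⟩,⟨0,[(0,0)]⟩),.k,.k,(.x (-1) ⟨0,[(1,0),(18,0),(2,1),(4,0)]⟩ ⟨1,[(0,2),(2,0),(9,2),(2,0)]⟩),.k,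
  .k,[⟨0,[(27,0)]⟩,⟨0,[(4,0),(5,0),(0,0)]⟩,⟨1,[(16,0),(0,2)]⟩,⟨0,[(1,0)]⟩]⟩))) (.Q [0,0,0,0,0,1,0,0,
  0,-1,1] (.ed false [0,1,1] .k) (.K ⟨2,[-1,1,1],0,0,(⟨0,[(0,0)]⟩,⟨0,[(18,0),(2,0)]⟩),.k,.k,(.r 1
  ⟨0,[(1,0),(15,1)]⟩ ⟨0,[(3,0),(0,0),(20,0),(1,0),(0,0)]⟩),.k,.k,[⟨0,[(9,0),(0,0),(15,0)]⟩,⟨0,[(3,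
  0)]⟩,⟨1,[(12,1),(2,0),(0,0)]⟩,⟨0,[(4,0)]⟩]⟩) (.Q [0,0,0,0,0,0,-1,0,0,0,1] (.p true [0,0,1] [] (⟨0,
  [(19,0)]⟩,⟨0,[(18,0)]⟩) .k 0 (⟨0,[]⟩,⟨0,[]⟩) .k .k) (.K ⟨0,[1,-1,-1],0,0,(⟨0,[(1,0)]⟩,⟨0,[(20,0),
  (2,0)]⟩),.k,(.r (-2) ⟨0,[(4,0),(0,0),(20,0),(1,0),(0,0)]⟩ ⟨0,[(2,0),(15,1)]⟩),.k,.k,.k,[⟨0,[(5,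
  0)]⟩,⟨0,[(0,0)]⟩,⟨0,[(7,0),(7,0),(11,0)]⟩,⟨0,[(4,0)]⟩]⟩) (.K ⟨2,[0,1,1],0,0,(⟨0,[(20,0),(2,0)]⟩,
  ⟨0,[(1,0)]⟩),.k,.k,(.r 1 ⟨0,[(2,0),(15,1)]⟩ ⟨0,[(4,0),(0,0),(20,0),(1,0),(0,0)]⟩),.k,.k,[⟨0,[(27,
  0)]⟩,⟨0,[(4,0),(5,0),(0,0)]⟩,⟨1,[(16,0),(0,2)]⟩,⟨0,[(0,0)]⟩]⟩))))))

theorem ok1 : chk (cU (-1) true 3) t1 l1 = true := by decide +kernel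

noncomputable def l2 : List Con := (false, [0,0,0,0,0,0,1,1,0,0,-1]) :: r1

noncomputable def r2 : List Con := (false, [0,0,0,0,0,0,-1,-1,0,0,1]) :: r1

noncomputable def l3 : List Con := (false, [0,0,0,1,0,0,-1,-1,0,0,1]) :: l2

noncomputable def r3 : List Con := (false, [0,0,0,-1,0,0,1,1,0,0,-1]) :: l2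

noncomputable def t2 : Tre :=
  (.I [1,-1,0,0,0,0,0,1] (.R ⟨2,true,false,false,[0,1],[0,0,1],[1,0,1,0,0,0,0,1],(⟨0,[]⟩,⟨0,[]⟩),
  (⟨0,[(18,0)]⟩,⟨0,[(17,0)]⟩),⟨0,[]⟩,.k,.k,.k,.k,.k,.k,⟨false,0,⟨0,[]⟩,⟨3,[(6,0),(0,0),(18,1)]⟩⟩,
  ⟨true,0,⟨0,[(14,0)]⟩,⟨0,[(0,0),(12,0)]⟩⟩,⟨true,0,⟨0,[(0,0),(23,0)]⟩,⟨0,[(1,0),(12,0),(8,0)]⟩⟩,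
  ⟨false,1,⟨0,[(2,0),(21,0),(2,0)]⟩,⟨0,[(1,0)]⟩⟩,⟨false,0,⟨0,[(0,0)]⟩,⟨1,[(13,1),(0,1),(11,0),(0,
  0)]⟩⟩,⟨true,0,⟨0,[(2,0)]⟩,⟨0,[(13,0)]⟩⟩,[]⟩) (.R ⟨2,true,false,false,[0,1],[0,0,1],[1,1,1],(⟨0,
  []⟩,⟨0,[]⟩),(⟨0,[(18,0)]⟩,⟨0,[(17,0)]⟩),⟨0,[]⟩,.k,.k,.k,.k,.k,.k,⟨false,0,⟨0,[(0,0)]⟩,⟨1,[(16,1),
  (9,0),(0,0)]⟩⟩,⟨true,0,⟨0,[(14,0)]⟩,⟨0,[(3,0),(4,0),(0,0)]⟩⟩,⟨true,0,⟨0,[(24,0)]⟩,⟨0,[(25,0)]⟩⟩,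
  ⟨false,1,⟨0,[(2,0),(21,0),(2,0)]⟩,⟨0,[(1,0)]⟩⟩,⟨false,0,⟨0,[]⟩,⟨3,[(6,0),(0,0),(19,1)]⟩⟩,⟨true,0,
  ⟨0,[(2,0)]⟩,⟨0,[(13,0)]⟩⟩,[]⟩))

theorem ok2 : chk (cU (-1) true 3) t2 l3 = true := by decide +kernel

noncomputable def l4 : List Con := (true, [1,0,-1,-1,0,0,0,1]) :: r3

noncomputable def r4 : List Con := (true, [0,0,1,1,0,0,0,-1]) :: r3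

noncomputable def t3 : Tre :=
  (.I [1,-1,-1,-1,1] (.I [1,0,1,1,0,0,0,-1] (.N [0,-1,1] 0 ⟨0,[(2,0)]⟩ ⟨0,[(0,0)]⟩ .k) (.Q [0,0,0,0,
  0,1,0,0,0,0,-1] (.ed true [1,-1,1] .k) (.Q [0,0,-1,0,0,0,-1,0,0,1,1] (.p true [1,-1,1] [] (⟨0,
  [(21,0),(1,0)]⟩,⟨0,[(0,0)]⟩) .k 0 (⟨0,[]⟩,⟨0,[]⟩) .k .k) (.R ⟨0,false,false,false,[0,1,-1],[0,1],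
  [1,0,1,1],(⟨0,[(1,0)]⟩,⟨0,[(22,0),(1,0)]⟩),(⟨0,[(25,0)]⟩,⟨0,[(24,0)]⟩),⟨0,[(22,0)]⟩,.k,.k,.k,.k,
  .k,.k,⟨true,0,⟨0,[]⟩,⟨1,[(18,0),(0,0)]⟩⟩,⟨false,1,⟨0,[(18,0),(11,0)]⟩,⟨2,[(0,0),(6,0),(11,0)]⟩⟩,
  ⟨false,0,⟨0,[(4,0),(21,0)]⟩,⟨1,[(17,1),(0,1),(11,0),(0,0)]⟩⟩,⟨true,0,⟨0,[(6,0)]⟩,⟨0,[(17,0)]⟩⟩,
  ⟨false,0,⟨0,[]⟩,⟨0,[]⟩⟩,⟨false,0,⟨0,[]⟩,⟨0,[]⟩⟩,[.o ⟨false,0,⟨0,[(29,0)]⟩,⟨3,[(3,1),(14,0),(0,0),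
  (3,1),(4,1)]⟩⟩,.o ⟨false,1,⟨3,[(10,0),(0,0),(17,3),(1,1)]⟩,⟨0,[(5,0),(8,0)]⟩⟩,.a ⟨true,0,⟨0,[(0,
  0)]⟩,⟨0,[(18,0)]⟩⟩ ⟨false,0,⟨0,[(26,0)]⟩,⟨7,[(3,3),(6,0),(0,0),(16,3),(1,1)]⟩⟩ ⟨true,0,⟨0,[(18,0),
  (10,0)]⟩,⟨1,[(0,0),(3,0),(9,0),(13,0)]⟩⟩,.o ⟨false,0,⟨2,[(0,0),(6,0),(11,0)]⟩,⟨1,[(18,1),(4,0),(6,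
  0)]⟩⟩]⟩) (.Q [0,1,1,0,-1,0,0,0,1,0,0,-1] (.p false [0,0,0,1] [] (⟨0,[(13,0)]⟩,⟨0,[(12,0)]⟩) .k 0
  (⟨0,[]⟩,⟨0,[]⟩) .k .k) (.K ⟨0,[0,0,0,1],0,(-1),(⟨0,[(14,0)]⟩,⟨0,[(13,0)]⟩),.k,(.x 0 ⟨0,[(16,0),(2,
  0),(5,0)]⟩ ⟨0,[(26,0),(4,0)]⟩),(.x 0 ⟨0,[(26,0)]⟩ ⟨3,[(11,0),(0,0),(11,1),(0,3)]⟩),.k,.k,[⟨0,[(14,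
  0)]⟩,⟨0,[(13,0)]⟩,⟨1,[(11,0),(2,1),(16,0),(2,1)]⟩,⟨0,[(0,0)]⟩]⟩) (.I [0,1,2,1,-1] (.I [0,1,-2,-2,
  0,0,0,1,-1] (.Q [0,1,-1,0,0,0,0,0,-1,0,0,1] (.p true [0,0,0,1] [] (⟨0,[(16,0)]⟩,⟨0,[(15,0)]⟩) .k
  0 (⟨0,[]⟩,⟨0,[]⟩) .k .k) (.K ⟨0,[0,0,0,1],0,0,(⟨0,[(17,0)]⟩,⟨0,[(16,0)]⟩),.k,(.x 0 ⟨0,[(19,0),(2,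
  0),(5,0)]⟩ ⟨0,[(29,0),(4,0)]⟩),(.x 0 ⟨0,[(29,0)]⟩ ⟨3,[(14,0),(0,0),(11,1),(0,3)]⟩),.k,.k,[⟨0,[(17,
  0)]⟩,⟨0,[(16,0)]⟩,⟨0,[(0,0)]⟩,⟨1,[(2,0),(1,0),(3,0),(6,0),(0,1),(1,0)]⟩]⟩) (.Q [0,0,0,0,0,1,0,0,0,
  -1,0,1] (.p true [0,0,0,1] [1] (⟨0,[(17,0)]⟩,⟨0,[(16,0)]⟩) .k 1 (⟨0,[]⟩,⟨0,[]⟩) .k .k) (.R ⟨0,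
  false,false,true,[1,0,0,-1],[1,0,-1],[0,1,1,0,0,0,0,-1],(⟨0,[(17,0)]⟩,⟨0,[(18,0)]⟩),(⟨0,[(26,0)]⟩,
  ⟨0,[(27,0)]⟩),⟨0,[(0,0)]⟩,.k,.k,(.x (-1) ⟨3,[(15,0),(0,0),(11,1),(0,3)]⟩ ⟨0,[(30,0)]⟩),.k,.k,.k,
  ⟨true,0,⟨1,[(23,0),(0,0)]⟩,⟨0,[]⟩⟩,⟨false,0,⟨0,[(12,0),(4,0)]⟩,⟨0,[(18,0),(4,0),(11,0)]⟩⟩,⟨true,0,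
  ⟨0,[(1,0),(16,0),(3,0),(0,0),(8,0)]⟩,⟨0,[(2,0),(28,0),(2,0)]⟩⟩,⟨false,0,⟨0,[(1,0),(20,0)]⟩,⟨0,[(4,
  0),(6,0)]⟩⟩,⟨false,0,⟨0,[]⟩,⟨0,[]⟩⟩,⟨false,0,⟨0,[]⟩,⟨0,[]⟩⟩,[.o ⟨false,0,⟨0,[(19,0)]⟩,⟨7,[(14,3),
  (0,0),(0,0),(11,1),(7,3)]⟩⟩,.o ⟨false,1,⟨1,[(22,1),(5,0),(7,0)]⟩,⟨0,[(11,0)]⟩⟩,.o ⟨false,1,⟨1,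
  [(18,1),(9,0),(6,0)]⟩,⟨13,[(1,7),(0,1),(0,3),(1,1),(9,2),(1,5),(1,1),(8,0)]⟩⟩,.a ⟨true,0,⟨0,[(18,
  0)]⟩,⟨0,[(17,0)]⟩⟩ ⟨false,1,⟨1,[(22,1),(0,1),(11,0),(0,0)]⟩,⟨0,[(9,0),(21,0)]⟩⟩ ⟨true,0,⟨0,[(17,
  0),(1,0)]⟩,⟨0,[(11,0),(6,0)]⟩⟩]⟩) (.R ⟨1,false,false,true,[1,0,0,-1],[1,-1],[1,1,0,-1,0,0,0,0,-1],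
  (⟨0,[(17,0)]⟩,⟨0,[(18,0)]⟩),(⟨0,[(29,0)]⟩,⟨0,[(30,0)]⟩),⟨0,[(0,0)]⟩,.k,.k,(.x (-1) ⟨3,[(15,0),(0,
  0),(11,1),(0,3)]⟩ ⟨0,[(30,0)]⟩),(.r 0 ⟨2,[(2,0),(0,1),(0,1),(0,0),(11,1),(1,0),(11,1),(2,0)]⟩ ⟨2,
  [(1,0),(6,1),(7,0),(1,0),(13,1),(0,0)]⟩),.k,.k,⟨true,0,⟨0,[(2,0),(19,0),(0,0),(7,1)]⟩,⟨0,[(1,0),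
  (16,0),(13,0)]⟩⟩,⟨false,0,⟨13,[(1,7),(0,1),(0,3),(1,1),(9,2),(1,5),(1,1),(8,0)]⟩,⟨0,[(18,0),(16,
  0)]⟩⟩,⟨true,0,⟨0,[(33,0)]⟩,⟨0,[(34,0)]⟩⟩,⟨false,0,⟨0,[(1,0),(31,0)]⟩,⟨0,[(4,0),(29,0)]⟩⟩,⟨false,0,
  ⟨0,[]⟩,⟨3,[(15,0),(0,0),(19,1)]⟩⟩,⟨false,0,⟨7,[(1,5),(1,0),(12,0),(0,1),(1,1),(1,1),(11,0)]⟩,⟨0,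
  [(4,0)]⟩⟩,[.o ⟨false,0,⟨1,[(5,0),(3,0),(9,0),(13,0)]⟩,⟨3,[(15,0),(0,0),(17,3),(1,1)]⟩⟩,.o ⟨false,
  1,⟨3,[(8,1),(14,0),(0,0),(3,1),(4,1)]⟩,⟨0,[(34,0)]⟩⟩,.o ⟨false,1,⟨1,[(18,1),(9,0),(6,0)]⟩,⟨13,[(1,
  7),(0,1),(0,3),(1,1),(9,2),(1,5),(1,1),(8,0)]⟩⟩,.a ⟨true,0,⟨0,[(18,0)]⟩,⟨0,[(17,0)]⟩⟩ ⟨false,1,⟨7,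
  [(2,1),(5,3),(6,2),(6,1),(0,1),(11,0)]⟩,⟨0,[(1,0),(16,0),(15,0)]⟩⟩ ⟨true,0,⟨6,[(1,1),(0,1),(2,1),
  (11,4),(1,2),(1,0),(11,2)]⟩,⟨0,[(18,0),(15,0)]⟩⟩]⟩))) (.Q [0,0,0,0,0,1,0,0,0,-1,0,1] (.p true [0,
  0,0,1] [1] (⟨0,[(16,0)]⟩,⟨0,[(15,0)]⟩) .k 1 (⟨0,[]⟩,⟨0,[]⟩) .k .k) (.R ⟨0,false,false,true,[1,0,0,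
  -1],[0,1,-1],[0,1,0,-1,0,0,0,0,-1],(⟨0,[(16,0)]⟩,⟨0,[(17,0)]⟩),(⟨0,[(5,0)]⟩,⟨0,[(26,0),(1,0)]⟩),
  ⟨0,[(0,0)]⟩,.k,.k,(.x (-1) ⟨3,[(14,0),(0,0),(11,1),(0,3)]⟩ ⟨0,[(29,0)]⟩),(.x (-1) ⟨1,[(22,1),(3,
  1),(0,0),(0,1),(5,0)]⟩ ⟨0,[(11,0),(13,0),(3,0)]⟩),.k,.k,⟨false,1,⟨1,[(3,1),(0,0),(3,2),(7,1),(1,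
  0),(13,0)]⟩,⟨0,[(1,0),(29,0)]⟩⟩,⟨true,0,⟨0,[(11,0),(4,1),(0,0)]⟩,⟨0,[(4,0),(12,0)]⟩⟩,⟨true,0,⟨0,
  [(32,0)]⟩,⟨0,[(33,0)]⟩⟩,⟨false,0,⟨0,[(1,0),(6,0),(7,0),(4,0)]⟩,⟨0,[(3,0),(0,0),(3,0)]⟩⟩,⟨false,0,
  ⟨0,[]⟩,⟨0,[]⟩⟩,⟨false,0,⟨0,[]⟩,⟨0,[]⟩⟩,[.o ⟨false,0,⟨0,[(21,0),(11,0)]⟩,⟨1,[(9,1),(17,0),(7,0)]⟩⟩,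
  .o ⟨false,1,⟨3,[(1,1),(12,0),(6,1),(1,1),(10,2)]⟩,⟨0,[(4,0),(3,0)]⟩⟩,.o ⟨false,1,⟨1,[(17,1),(9,0),
  (6,0)]⟩,⟨1,[(4,0),(11,1),(2,0)]⟩⟩,.a ⟨true,0,⟨0,[(17,0)]⟩,⟨0,[(16,0)]⟩⟩ ⟨false,1,⟨1,[(3,1),(0,0),
  (3,0),(7,1),(1,0),(13,0)]⟩,⟨0,[(1,0),(6,0)]⟩⟩ ⟨true,0,⟨0,[(16,0),(4,0),(11,0)]⟩,⟨0,[(4,0),(3,0),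
  (8,0)]⟩⟩]⟩) (.Q [0,0,-1,-1,1,0,-1,-1,-1,-1,1,1] (.p true [0,0,1] [1,0,0,-1] (⟨0,[(26,0)]⟩,⟨0,[(25,
  0)]⟩) .k 2 (⟨0,[(16,0)]⟩,⟨0,[(17,0)]⟩) .k (.r 0 ⟨2,[(1,0),(0,0),(5,3),(6,0),(17,0)]⟩ ⟨0,[(3,0),
  (12,0),(1,0),(3,0)]⟩)) (.R ⟨1,false,false,false,[1,0,0,-1],[0,1],[1,1,0,-1,0,0,0,0,-1],(⟨0,[(17,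
  0)]⟩,⟨0,[(18,0)]⟩),(⟨0,[(30,0)]⟩,⟨0,[(29,0)]⟩),⟨0,[(1,0)]⟩,.k,.k,(.x (-1) ⟨3,[(15,0),(0,0),(11,1),
  (0,3)]⟩ ⟨0,[(30,0)]⟩),(.x (-1) ⟨3,[(15,0),(0,0),(11,1),(0,3)]⟩ ⟨0,[(30,0)]⟩),(.x 0 ⟨0,[(5,0),(6,
  0),(16,1)]⟩ ⟨3,[(15,0),(0,0),(13,7),(4,1)]⟩),.k,⟨false,1,⟨0,[(0,0),(9,0),(6,0),(14,0)]⟩,⟨0,[(2,0),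
  (6,0),(24,0)]⟩⟩,⟨true,0,⟨0,[(17,0)]⟩,⟨1,[(5,0),(12,1),(1,0)]⟩⟩,⟨true,0,⟨0,[(33,0)]⟩,⟨0,[(34,0)]⟩⟩,
  ⟨false,0,⟨0,[(2,0),(6,0),(7,0)]⟩,⟨0,[(0,0),(10,0)]⟩⟩,⟨false,0,⟨0,[]⟩,⟨3,[(15,0),(0,0),(19,1)]⟩⟩,
  ⟨false,0,⟨0,[(2,0),(6,0),(7,0),(16,0)]⟩,⟨0,[(0,0),(9,0)]⟩⟩,[.o ⟨false,0,⟨0,[(34,0)]⟩,⟨3,[(8,1),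
  (14,0),(0,0),(3,1),(4,1)]⟩⟩,.o ⟨false,1,⟨3,[(15,0),(0,0),(17,3),(1,1)]⟩,⟨1,[(5,0),(3,0),(9,0),(13,
  0)]⟩⟩,.o ⟨false,1,⟨1,[(18,1),(9,0),(6,0)]⟩,⟨1,[(5,0),(11,1),(2,0)]⟩⟩,.a ⟨true,0,⟨0,[(18,0)]⟩,⟨0,
  [(17,0)]⟩⟩ ⟨false,1,⟨2,[(0,0),(7,0),(1,0),(4,0),(1,0),(14,0)]⟩,⟨0,[(2,0),(4,0)]⟩⟩ ⟨true,0,⟨0,[(17,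
  0),(16,0)]⟩,⟨1,[(5,0),(3,0),(8,1),(0,0),(13,0)]⟩⟩]⟩) (.R ⟨1,true,false,false,[1,0,0,-1],[0,0,1],
  [0,1,0,0,0,0,0,0,-1],(⟨0,[(17,0)]⟩,⟨0,[(18,0)]⟩),(⟨0,[(27,0)]⟩,⟨0,[(26,0)]⟩),⟨0,[(1,0)]⟩,.k,.k,
  (.x (-1) ⟨3,[(15,0),(0,0),(11,1),(0,3)]⟩ ⟨0,[(30,0)]⟩),.k,(.r (-2) ⟨1,[(8,1),(6,0),(6,1),(0,1),
  (11,0)]⟩ ⟨0,[(0,0),(11,0),(5,0)]⟩),.k,⟨false,1,⟨0,[(4,0),(12,0),(1,0),(3,0),(8,0)]⟩,⟨0,[(2,0),(6,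
  1)]⟩⟩,⟨true,0,⟨0,[(17,0),(5,0)]⟩,⟨0,[(12,0),(5,0)]⟩⟩,⟨true,0,⟨0,[(38,0)]⟩,⟨0,[]⟩⟩,⟨false,0,⟨1,[(0,
  1),(7,1),(14,0),(0,0)]⟩,⟨0,[(4,0),(14,0)]⟩⟩,⟨false,0,⟨0,[(34,0)]⟩,⟨1,[(8,1),(14,0),(0,0)]⟩⟩,⟨true,
  (-1),⟨0,[(0,0)]⟩,⟨0,[(4,0),(14,0),(13,0)]⟩⟩,[]⟩)))) (.Q [0,1,-1,0,0,0,0,0,-1,0,0,1] (.p true [0,0,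
  0,1] [] (⟨0,[(15,0)]⟩,⟨0,[(14,0)]⟩) .k 0 (⟨0,[]⟩,⟨0,[]⟩) .k .k) (.Q [0,1,1,0,0,0,0,0,1,0,0,-1]
  (.p false [0,0,0,1] [] (⟨0,[(16,0)]⟩,⟨0,[(15,0)]⟩) .k 0 (⟨0,[]⟩,⟨0,[]⟩) .k .k) (.K ⟨0,[0,0,0,1],0,
  0,(⟨0,[(17,0)]⟩,⟨0,[(16,0)]⟩),.k,(.r (-1) ⟨1,[(2,0),(12,0),(16,0)]⟩ ⟨1,[(1,1),(2,0),(11,1),(2,0),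
  (10,1)]⟩),(.x 0 ⟨0,[(29,0)]⟩ ⟨3,[(14,0),(0,0),(11,1),(0,3)]⟩),.k,.k,[⟨0,[(17,0)]⟩,⟨0,[(16,0)]⟩,⟨0,
  [(1,0)]⟩,⟨0,[(0,0)]⟩]⟩) (.Q [0,0,0,0,0,1,0,0,0,-1,0,1] (.p true [0,0,0,1] [1] (⟨0,[(17,0)]⟩,⟨0,
  [(16,0)]⟩) .k 1 (⟨0,[]⟩,⟨0,[]⟩) .k .k) (.R ⟨0,false,false,false,[1,0,0,-1],[0,1],[0,1,0,0,0,0,0,0,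
  -1],(⟨0,[(17,0)]⟩,⟨0,[(18,0)]⟩),(⟨0,[(30,0)]⟩,⟨0,[(29,0)]⟩),⟨0,[(0,0)]⟩,.k,.k,(.x (-1) ⟨3,[(15,0),
  (0,0),(11,1),(0,3)]⟩ ⟨0,[(30,0)]⟩),(.x (-1) ⟨3,[(15,0),(0,0),(11,1),(0,3)]⟩ ⟨0,[(30,0)]⟩),.k,.k,
  ⟨false,0,⟨1,[(1,1),(3,0),(3,0),(7,1),(1,0),(12,1),(0,0)]⟩,⟨3,[(15,0),(0,2),(14,3)]⟩⟩,⟨true,0,⟨0,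
  [(17,0)]⟩,⟨1,[(5,0),(12,1),(1,0)]⟩⟩,⟨true,0,⟨0,[(38,0)]⟩,⟨0,[]⟩⟩,⟨false,1,⟨3,[(15,0),(0,2),(0,3),
  (13,3)]⟩,⟨1,[(1,1),(3,0),(3,0),(9,0),(13,0)]⟩⟩,⟨false,0,⟨0,[]⟩,⟨0,[]⟩⟩,⟨false,0,⟨0,[]⟩,⟨0,[]⟩⟩,
  [.o ⟨false,0,⟨0,[(34,0)]⟩,⟨3,[(8,1),(14,0),(0,0),(3,1),(4,1)]⟩⟩,.o ⟨false,1,⟨3,[(15,0),(0,0),(17,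
  3),(1,1)]⟩,⟨1,[(5,0),(3,0),(9,0),(13,0)]⟩⟩,.o ⟨false,1,⟨1,[(18,1),(9,0),(6,0)]⟩,⟨1,[(5,0),(11,1),
  (2,0)]⟩⟩,.a ⟨true,0,⟨0,[(18,0)]⟩,⟨0,[(17,0)]⟩⟩ ⟨false,0,⟨3,[(1,2),(0,0),(2,1),(6,1),(4,3),(14,
  1)]⟩,⟨1,[(16,0),(6,0),(0,0),(11,0)]⟩⟩ ⟨true,0,⟨0,[(17,0),(16,0)]⟩,⟨1,[(5,0),(3,0),(8,1),(0,0),(13,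
  0)]⟩⟩]⟩) (.I [1,-1,-1,-1,0,0,0,0,-1] (.R ⟨1,false,false,false,[1,0,0,-1],[0,1],[0,0,0,0,0,0,0,0,
  -1],(⟨0,[(18,0)]⟩,⟨0,[(19,0)]⟩),(⟨0,[(31,0)]⟩,⟨0,[(30,0)]⟩),⟨0,[(1,0)]⟩,.k,.k,(.x (-1) ⟨3,[(16,0),
  (0,0),(11,1),(0,3)]⟩ ⟨0,[(31,0)]⟩),(.x (-1) ⟨3,[(16,0),(0,0),(11,1),(0,3)]⟩ ⟨0,[(31,0)]⟩),(.x 0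
  ⟨0,[(6,0),(6,0),(16,1)]⟩ ⟨3,[(16,0),(0,0),(13,7),(4,1)]⟩),.k,⟨false,0,⟨0,[(0,0),(32,0)]⟩,⟨3,[(16,
  0),(0,2),(14,3),(6,3)]⟩⟩,⟨true,0,⟨0,[(18,0)]⟩,⟨1,[(6,0),(12,1),(1,0)]⟩⟩,⟨false,1,⟨3,[(16,0),(0,0),
  (19,1)]⟩,⟨0,[]⟩⟩,⟨false,1,⟨3,[(16,0),(0,2),(0,3),(13,3)]⟩,⟨1,[(0,0),(1,0),(3,0),(7,0),(4,0),(13,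
  0)]⟩⟩,⟨true,0,⟨0,[(35,0)]⟩,⟨0,[(34,0)]⟩⟩,⟨false,1,⟨3,[(16,0),(0,2),(0,3),(13,3),(2,3)]⟩,⟨1,[(0,1),
  (5,0),(3,0),(8,1),(0,0),(13,0)]⟩⟩,[.o ⟨false,0,⟨0,[(35,0)]⟩,⟨3,[(9,1),(14,0),(0,0),(3,1),(4,1)]⟩⟩,
  .o ⟨false,1,⟨3,[(16,0),(0,0),(17,3),(1,1)]⟩,⟨1,[(6,0),(3,0),(9,0),(13,0)]⟩⟩,.o ⟨false,1,⟨1,[(19,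
  1),(9,0),(6,0)]⟩,⟨1,[(6,0),(11,1),(2,0)]⟩⟩,.a ⟨true,0,⟨0,[(19,0)]⟩,⟨0,[(18,0)]⟩⟩ ⟨false,0,⟨0,[(0,
  0),(34,0)]⟩,⟨3,[(16,0),(0,2),(6,1),(0,1)]⟩⟩ ⟨true,0,⟨0,[(18,0),(16,0)]⟩,⟨1,[(6,0),(3,0),(8,1),(0,
  0),(13,0)]⟩⟩]⟩) (.R ⟨1,false,false,false,[1,0,0,-1],[0,1,-1],[1,0,0,-1,0,0,0,0,-1],(⟨0,[(18,0)]⟩,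
  ⟨0,[(19,0)]⟩),(⟨0,[(7,0)]⟩,⟨0,[(28,0),(1,0)]⟩),⟨0,[(1,0)]⟩,.k,.k,(.x (-1) ⟨3,[(16,0),(0,0),(11,1),
  (0,3)]⟩ ⟨0,[(31,0)]⟩),(.r 0 ⟨0,[(2,0),(9,0),(1,0),(3,0)]⟩ ⟨1,[(17,0),(5,1),(0,1),(10,1),(1,0)]⟩),
  (.r 0 ⟨1,[(2,1),(3,0),(3,2),(7,1),(1,0),(13,0)]⟩ ⟨3,[(16,0),(0,2),(5,3),(0,3),(7,3),(2,3)]⟩),.k,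
  ⟨false,0,⟨1,[(2,1),(3,0),(3,2),(7,1),(1,0),(13,0)]⟩,⟨1,[(17,0),(5,1),(0,1),(10,3),(1,0)]⟩⟩,⟨true,
  0,⟨0,[(13,0),(4,1),(0,0)]⟩,⟨0,[(6,0),(12,0)]⟩⟩,⟨false,1,⟨1,[(9,1),(14,0),(0,0)]⟩,⟨0,[(35,0)]⟩⟩,
  ⟨false,1,⟨1,[(17,0),(0,1),(4,1),(8,1),(4,0)]⟩,⟨1,[(2,0),(0,0),(2,1),(3,1)]⟩⟩,⟨true,0,⟨0,[]⟩,⟨0,
  [(39,0)]⟩⟩,⟨false,1,⟨1,[(17,0),(0,1),(4,1),(8,1),(2,1),(1,0)]⟩,⟨0,[(2,0),(3,0),(3,0),(23,0)]⟩⟩,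
  [.o ⟨false,1,⟨3,[(16,0),(0,0),(5,3),(11,3),(1,1)]⟩,⟨0,[(6,0),(3,0)]⟩⟩,.o ⟨false,1,⟨0,[(23,0),(11,
  0),(1,0)]⟩,⟨2,[(6,1),(3,0),(0,0),(2,0),(7,0),(10,0)]⟩⟩,.o ⟨false,1,⟨1,[(19,1),(9,0),(6,0)]⟩,⟨1,
  [(6,0),(11,1),(2,0)]⟩⟩,.a ⟨true,0,⟨0,[(19,0)]⟩,⟨0,[(18,0)]⟩⟩ ⟨true,0,⟨1,[(2,1),(3,0),(3,0),(7,1),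
  (1,0),(13,0)]⟩,⟨0,[(0,0)]⟩⟩ ⟨false,1,⟨0,[(18,0),(4,0),(11,0),(1,0)]⟩,⟨0,[(6,0),(3,0),(8,
  0)]⟩⟩]⟩)))) (.Q [0,0,0,0,0,1,0,0,0,-1,0,1] (.p true [0,0,0,1] [1] (⟨0,[(16,0)]⟩,⟨0,[(15,0)]⟩) .k
  1 (⟨0,[]⟩,⟨0,[]⟩) .k .k) (.R ⟨0,false,false,false,[1,0,0,-1],[0,1],[0,1,0,0,0,0,0,0,-1],(⟨0,[(16,
  0)]⟩,⟨0,[(17,0)]⟩),(⟨0,[(29,0)]⟩,⟨0,[(28,0)]⟩),⟨0,[(0,0)]⟩,.k,.k,(.x (-1) ⟨3,[(14,0),(0,0),(11,1),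
  (0,3)]⟩ ⟨0,[(29,0)]⟩),(.x (-1) ⟨3,[(14,0),(0,0),(11,1),(0,3)]⟩ ⟨0,[(29,0)]⟩),.k,.k,⟨false,1,⟨1,
  [(2,0),(11,0),(16,1),(0,0)]⟩,⟨0,[(1,0),(15,0),(15,0)]⟩⟩,⟨true,0,⟨0,[(16,0)]⟩,⟨1,[(4,0),(12,1),(1,
  0)]⟩⟩,⟨true,0,⟨0,[(37,0)]⟩,⟨0,[]⟩⟩,⟨false,0,⟨0,[(1,0),(14,0),(0,0),(15,0)]⟩,⟨1,[(3,1),(0,0),(3,0),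
  (9,0),(13,0)]⟩⟩,⟨false,0,⟨0,[]⟩,⟨0,[]⟩⟩,⟨false,0,⟨0,[]⟩,⟨0,[]⟩⟩,[.o ⟨false,0,⟨0,[(33,0)]⟩,⟨3,[(7,
  1),(14,0),(0,0),(3,1),(4,1)]⟩⟩,.o ⟨false,1,⟨3,[(14,0),(0,0),(17,3),(1,1)]⟩,⟨1,[(4,0),(3,0),(9,0),
  (13,0)]⟩⟩,.o ⟨false,1,⟨1,[(17,1),(9,0),(6,0)]⟩,⟨1,[(4,0),(11,1),(2,0)]⟩⟩,.a ⟨true,0,⟨0,[(17,0)]⟩,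
  ⟨0,[(16,0)]⟩⟩ ⟨false,1,⟨1,[(14,0),(19,0)]⟩,⟨0,[(1,0),(15,0)]⟩⟩ ⟨true,0,⟨0,[(16,0),(16,0)]⟩,⟨1,[(4,
  0),(3,0),(8,1),(0,0),(13,0)]⟩⟩]⟩) (.Q [0,0,-1,-2,1,0,0,0,-1,-1,0,1] (.p true [0,0,0,1] [1] (⟨0,
  [(17,0)]⟩,⟨0,[(16,0)]⟩) .k 1 (⟨0,[]⟩,⟨0,[]⟩) .k .k) (.R ⟨1,false,false,false,[1,0,0,-1],[0,1],[0,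
  1,0,0,0,0,0,0,-1],(⟨0,[(17,0)]⟩,⟨0,[(18,0)]⟩),(⟨0,[(30,0)]⟩,⟨0,[(29,0)]⟩),⟨0,[(1,0)]⟩,.k,.k,(.x
  (-1) ⟨3,[(15,0),(0,0),(11,1),(0,3)]⟩ ⟨0,[(30,0)]⟩),(.x (-1) ⟨3,[(15,0),(0,0),(11,1),(0,3)]⟩ ⟨0,
  [(30,0)]⟩),(.x 0 ⟨0,[(5,0),(6,0),(16,1)]⟩ ⟨3,[(15,0),(0,0),(13,7),(4,1)]⟩),.k,⟨false,1,⟨1,[(3,0),
  (11,0),(16,1),(0,0)]⟩,⟨0,[(2,0),(15,0),(15,0)]⟩⟩,⟨true,0,⟨0,[(17,0)]⟩,⟨1,[(5,0),(12,1),(1,0)]⟩⟩,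
  ⟨true,0,⟨0,[(38,0)]⟩,⟨0,[]⟩⟩,⟨false,0,⟨0,[(2,0),(14,0),(0,0),(15,0)]⟩,⟨5,[(0,2),(3,2),(0,0),(6,0),
  (6,0),(1,0),(10,0)]⟩⟩,⟨false,0,⟨0,[(34,0)]⟩,⟨1,[(8,1),(14,0),(0,0)]⟩⟩,⟨false,0,⟨0,[(2,0),(14,0),
  (0,0),(15,1)]⟩,⟨0,[(0,0)]⟩⟩,[.o ⟨false,0,⟨0,[(34,0)]⟩,⟨5,[(0,1),(1,1),(12,0),(0,0),(11,1),(4,
  1)]⟩⟩,.o ⟨false,1,⟨3,[(15,0),(0,0),(17,3),(1,1)]⟩,⟨1,[(5,0),(3,0),(9,0),(13,0)]⟩⟩,.o ⟨false,1,⟨1,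
  [(18,1),(9,0),(6,0)]⟩,⟨1,[(5,0),(11,1),(2,0)]⟩⟩,.a ⟨true,0,⟨0,[(18,0)]⟩,⟨0,[(17,0)]⟩⟩ ⟨false,1,⟨1,
  [(15,0),(19,0)]⟩,⟨0,[(2,0),(15,0)]⟩⟩ ⟨true,0,⟨0,[(17,0),(16,0)]⟩,⟨1,[(5,0),(3,0),(8,1),(0,0),(13,
  0)]⟩⟩]⟩) (.R ⟨1,true,false,false,[1,0,0,-1],[0,1],[0,1,0,0,0,0,0,0,-1],(⟨0,[(17,0)]⟩,⟨0,[(18,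
  0)]⟩),(⟨0,[(30,0)]⟩,⟨0,[(29,0)]⟩),⟨0,[(1,0)]⟩,.k,.k,(.x (-1) ⟨3,[(15,0),(0,0),(11,1),(0,3)]⟩ ⟨0,
  [(30,0)]⟩),(.x (-1) ⟨3,[(15,0),(0,0),(11,1),(0,3)]⟩ ⟨0,[(30,0)]⟩),(.r (-2) ⟨3,[(3,3),(11,2),(0,0),
  (16,3)]⟩ ⟨1,[(0,1),(4,0),(12,1),(1,0)]⟩),.k,⟨false,1,⟨1,[(3,0),(11,0),(16,1),(0,0)]⟩,⟨15,[(0,5),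
  (1,7),(0,1),(12,0),(1,13),(9,2),(2,5)]⟩⟩,⟨true,0,⟨0,[(17,0)]⟩,⟨1,[(5,0),(12,1),(1,0)]⟩⟩,⟨true,0,
  ⟨0,[(38,0)]⟩,⟨0,[]⟩⟩,⟨false,0,⟨7,[(0,3),(1,1),(13,0),(0,3),(0,1),(4,0),(0,0),(11,2)]⟩,⟨1,[(4,1),
  (0,0),(3,0),(9,0),(13,0)]⟩⟩,⟨false,0,⟨0,[(34,0)]⟩,⟨1,[(8,1),(14,0),(0,0)]⟩⟩,⟨true,(-1),⟨0,[(0,
  0)]⟩,⟨1,[(4,1),(0,0),(3,0),(9,0),(13,2)]⟩⟩,[]⟩))))))) (.I [0,-1,2,2,0,0,0,-1] (.Q [0,0,0,2,0,0,-1,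
  -1,0,0,1] (.p true [0,0,1] [] (⟨0,[(22,0)]⟩,⟨0,[(21,0)]⟩) .k 0 (⟨0,[]⟩,⟨0,[]⟩) .k .k) (.R ⟨1,true,
  false,false,[0,0,1],[0,1],[1,1,0,-1,0,0,0,1],(⟨0,[(23,0)]⟩,⟨0,[(22,0)]⟩),(⟨0,[(26,0)]⟩,⟨0,[(25,
  0)]⟩),⟨0,[(2,0)]⟩,.k,.k,.k,.k,(.r (-1) ⟨7,[(4,3),(0,7),(5,0),(0,0),(16,3),(1,1)]⟩ ⟨0,[(1,0),(32,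
  0)]⟩),.k,⟨true,0,⟨0,[(5,0),(23,0)]⟩,⟨0,[(1,0)]⟩⟩,⟨false,1,⟨4,[(0,1),(3,0),(0,2),(12,0),(1,1),(10,
  3)]⟩,⟨0,[(19,0)]⟩⟩,⟨true,0,⟨0,[(29,0)]⟩,⟨0,[(30,0)]⟩⟩,⟨false,1,⟨7,[(0,3),(10,0),(0,0),(5,3),(13,
  5)]⟩,⟨0,[(6,0)]⟩⟩,⟨false,0,⟨0,[]⟩,⟨3,[(11,0),(0,0),(19,1)]⟩⟩,⟨true,0,⟨0,[(0,0)]⟩,⟨0,[(6,0),(22,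
  0)]⟩⟩,[]⟩) (.Q [0,1,1,0,-1,0,0,0,1,0,0,-1] (.p false [0,0,0,1] [] (⟨0,[(14,0)]⟩,⟨0,[(13,0)]⟩) .k
  0 (⟨0,[]⟩,⟨0,[]⟩) .k .k) (.K ⟨0,[0,0,0,1],0,(-1),(⟨0,[(15,0)]⟩,⟨0,[(14,0)]⟩),.k,(.x 0 ⟨0,[(17,0),
  (2,0),(5,0)]⟩ ⟨0,[(27,0),(4,0)]⟩),(.x 0 ⟨0,[(27,0)]⟩ ⟨3,[(12,0),(0,0),(11,1),(0,3)]⟩),.k,.k,[⟨0,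
  [(15,0)]⟩,⟨0,[(14,0)]⟩,⟨1,[(12,0),(2,1),(16,0),(2,1)]⟩,⟨0,[(0,0)]⟩]⟩) (.I [0,1,1,1,-1,0,0,0,-1]
  (.Q [0,1,1,0,0,0,0,0,1,0,0,-1] (.p false [0,0,0,1] [] (⟨0,[(16,0)]⟩,⟨0,[(15,0)]⟩) .k 0 (⟨0,[]⟩,⟨0,
  []⟩) .k .k) (.K ⟨0,[0,0,0,1],0,0,(⟨0,[(17,0)]⟩,⟨0,[(16,0)]⟩),.k,(.x 0 ⟨0,[(19,0),(2,0),(5,0)]⟩ ⟨0,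
  [(29,0),(4,0)]⟩),(.x 0 ⟨0,[(29,0)]⟩ ⟨3,[(14,0),(0,0),(11,1),(0,3)]⟩),.k,.k,[⟨0,[(17,0)]⟩,⟨0,[(16,
  0)]⟩,⟨0,[(1,0),(5,0),(9,0),(13,0)]⟩,⟨0,[(0,0)]⟩]⟩) (.Q [0,0,0,0,0,1,0,0,0,-1,0,1] (.p true [0,0,0,
  1] [1] (⟨0,[(17,0)]⟩,⟨0,[(16,0)]⟩) .k 1 (⟨0,[]⟩,⟨0,[]⟩) .k .k) (.R ⟨0,false,false,true,[1,0,0,-1],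
  [0,1],[1,0,1],(⟨0,[(17,0)]⟩,⟨0,[(18,0)]⟩),(⟨0,[(30,0)]⟩,⟨0,[(29,0)]⟩),⟨0,[(0,0)]⟩,.k,.k,(.x (-1)
  ⟨3,[(15,0),(0,0),(11,1),(0,3)]⟩ ⟨0,[(30,0)]⟩),(.x (-1) ⟨3,[(15,0),(0,0),(11,1),(0,3)]⟩ ⟨0,[(30,
  0)]⟩),.k,.k,⟨false,1,⟨0,[(8,0)]⟩,⟨0,[(34,0),(3,0)]⟩⟩,⟨true,0,⟨0,[(17,0)]⟩,⟨0,[(12,0),(5,0),(4,
  0)]⟩⟩,⟨false,1,⟨1,[(16,0),(6,0),(0,0),(11,0)]⟩,⟨0,[(1,0),(9,0),(5,0),(1,0)]⟩⟩,⟨true,0,⟨0,[(2,0),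
  (13,0),(0,0)]⟩,⟨1,[(1,1),(2,0),(6,0),(7,1)]⟩⟩,⟨false,0,⟨0,[]⟩,⟨0,[]⟩⟩,⟨false,0,⟨0,[]⟩,⟨0,[]⟩⟩,[.o
  ⟨false,0,⟨0,[(34,0),(3,0)]⟩,⟨3,[(4,1),(14,1),(8,0),(7,2)]⟩⟩,.o ⟨false,0,⟨0,[(34,0)]⟩,⟨3,[(8,1),
  (14,0),(0,0),(3,1),(4,1)]⟩⟩,.o ⟨false,1,⟨1,[(18,1),(9,0),(6,0)]⟩,⟨0,[(12,0),(4,0),(5,0)]⟩⟩,.a
  ⟨true,0,⟨0,[(18,0)]⟩,⟨0,[(17,0)]⟩⟩ ⟨true,0,⟨0,[]⟩,⟨0,[(38,0)]⟩⟩ ⟨false,0,⟨0,[(17,0),(16,0)]⟩,⟨3,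
  [(4,1),(13,3),(0,1),(8,0),(7,2)]⟩⟩]⟩) (.R ⟨1,false,false,false,[1,0,0,-1],[0,1],[0,1,0,0,0,0,0,0,
  -1],(⟨0,[(17,0)]⟩,⟨0,[(18,0)]⟩),(⟨0,[(30,0)]⟩,⟨0,[(29,0)]⟩),⟨0,[(0,0)]⟩,.k,.k,(.x (-1) ⟨3,[(15,0),
  (0,0),(11,1),(0,3)]⟩ ⟨0,[(30,0)]⟩),(.x (-1) ⟨3,[(15,0),(0,0),(11,1),(0,3)]⟩ ⟨0,[(30,0)]⟩),(.r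
  (-1) ⟨8,[(1,4),(2,4),(3,6),(6,1),(1,4),(1,4),(12,5),(0,0)]⟩ ⟨0,[(2,0),(13,0),(14,0)]⟩),.k,⟨false,
  0,⟨1,[(1,1),(2,0),(6,0),(5,1),(1,1),(12,1)]⟩,⟨3,[(15,0),(0,2),(14,3)]⟩⟩,⟨true,0,⟨0,[(17,0)]⟩,⟨0,
  [(12,0),(5,0),(4,0)]⟩⟩,⟨true,0,⟨0,[(38,0)]⟩,⟨0,[]⟩⟩,⟨false,1,⟨3,[(15,0),(0,2),(0,3),(13,3)]⟩,⟨1,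
  [(1,1),(2,0),(6,0),(7,1)]⟩⟩,⟨false,0,⟨0,[(34,0)]⟩,⟨1,[(8,1),(14,0),(0,0)]⟩⟩,⟨false,1,⟨3,[(15,0),
  (0,2),(0,3),(13,3),(2,3)]⟩,⟨0,[(1,0),(2,0),(14,0)]⟩⟩,[.o ⟨false,0,⟨0,[(34,0)]⟩,⟨3,[(8,1),(14,0),
  (0,0),(3,1),(4,1)]⟩⟩,.o ⟨false,1,⟨3,[(15,0),(0,0),(17,3),(1,1)]⟩,⟨1,[(4,0),(6,0),(7,1)]⟩⟩,.o
  ⟨false,1,⟨1,[(18,1),(9,0),(6,0)]⟩,⟨0,[(12,0),(4,0),(5,0)]⟩⟩,.a ⟨true,0,⟨0,[(18,0)]⟩,⟨0,[(17,0)]⟩⟩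
  ⟨false,0,⟨0,[(1,0),(9,0),(5,0),(1,0)]⟩,⟨1,[(16,0),(6,0),(0,0),(11,0)]⟩⟩ ⟨true,0,⟨0,[(17,0),(16,
  0)]⟩,⟨1,[(4,0),(6,0),(6,1),(0,1)]⟩⟩]⟩))) (.I [1,1,1,0,-1,0,0,0,1] (.R ⟨1,false,false,false,[0,0,
  1],[1,0,0,-1],[1,1,0,-1,0,0,0,1],(⟨0,[(26,0)]⟩,⟨0,[(25,0)]⟩),(⟨0,[(16,0)]⟩,⟨0,[(17,0)]⟩),⟨0,[(5,
  0)]⟩,.k,.k,.k,.k,(.r 0 ⟨1,[(0,0),(0,0),(6,1),(24,0)]⟩ ⟨7,[(4,3),(9,4),(0,0),(5,3),(0,3),(11,1)]⟩),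
  .k,⟨true,(-1),⟨0,[(0,0),(7,0)]⟩,⟨2,[(2,0),(1,1),(2,0),(6,0),(1,0),(1,0),(3,0)]⟩⟩,⟨false,1,⟨0,[(11,
  0),(5,0),(16,0)]⟩,⟨0,[(16,0),(5,0)]⟩⟩,⟨true,0,⟨0,[(32,0)]⟩,⟨0,[(33,0)]⟩⟩,⟨true,1,⟨0,[(2,0),(15,
  0)]⟩,⟨0,[(0,0),(9,0),(5,0)]⟩⟩,⟨false,0,⟨0,[]⟩,⟨3,[(14,0),(0,0),(19,1)]⟩⟩,⟨true,1,⟨0,[(2,0),(15,0),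
  (14,0)]⟩,⟨1,[(0,1),(2,0),(6,0),(5,1)]⟩⟩,[.o ⟨false,1,⟨0,[(2,0),(7,0),(7,0)]⟩,⟨1,[(0,1),(15,1),(10,
  0),(7,0)]⟩⟩,.a ⟨true,1,⟨0,[(2,0)]⟩,⟨0,[(0,0),(15,0)]⟩⟩ ⟨false,0,⟨0,[(8,0)]⟩,⟨7,[(4,3),(9,0),(0,0),
  (5,3),(0,3),(11,5)]⟩⟩ ⟨true,1,⟨0,[(2,0),(8,0)]⟩,⟨0,[(0,0),(15,0),(5,0)]⟩⟩,.o ⟨false,1,⟨3,[(14,0),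
  (0,0),(6,3),(11,1)]⟩,⟨0,[(11,0)]⟩⟩,.o ⟨false,0,⟨0,[(22,0)]⟩,⟨3,[(11,1),(11,1),(3,0),(6,2)]⟩⟩]⟩)
  (.Q [0,1,-1,0,0,0,0,0,-1,0,0,1] (.p true [0,0,0,1] [] (⟨0,[(17,0)]⟩,⟨0,[(16,0)]⟩) .k 0 (⟨0,[]⟩,⟨0,
  []⟩) .k .k) (.Q [0,1,1,0,0,0,0,0,1,0,0,-1] (.p false [0,0,0,1] [] (⟨0,[(18,0)]⟩,⟨0,[(17,0)]⟩) .k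
  0 (⟨0,[]⟩,⟨0,[]⟩) .k .k) (.K ⟨0,[0,0,0,1],0,0,(⟨0,[(19,0)]⟩,⟨0,[(18,0)]⟩),.k,(.r (-1) ⟨3,[(3,1),
  (13,0),(16,1),(1,0)]⟩ ⟨0,[(1,0),(11,0),(4,0),(5,0),(7,0)]⟩),(.x 0 ⟨0,[(31,0)]⟩ ⟨3,[(16,0),(0,0),
  (11,1),(0,3)]⟩),.k,.k,[⟨0,[(19,0)]⟩,⟨0,[(18,0)]⟩,⟨0,[(1,0)]⟩,⟨0,[(0,0)]⟩]⟩) (.Q [0,0,0,0,0,1,0,0,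
  0,-1,0,1] (.p true [0,0,0,1] [1] (⟨0,[(19,0)]⟩,⟨0,[(18,0)]⟩) .k 1 (⟨0,[]⟩,⟨0,[]⟩) .k .k) (.R ⟨0,
  false,false,false,[1,0,0,-1],[0,1],[0,1,0,0,0,0,0,0,-1],(⟨0,[(19,0)]⟩,⟨0,[(20,0)]⟩),(⟨0,[(32,0)]⟩,
  ⟨0,[(31,0)]⟩),⟨0,[(0,0)]⟩,.k,.k,(.x (-1) ⟨3,[(17,0),(0,0),(11,1),(0,3)]⟩ ⟨0,[(32,0)]⟩),(.x (-1)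
  ⟨3,[(17,0),(0,0),(11,1),(0,3)]⟩ ⟨0,[(32,0)]⟩),.k,.k,⟨false,0,⟨1,[(1,1),(4,0),(6,0),(5,1),(1,1),
  (12,1)]⟩,⟨3,[(17,0),(0,2),(14,3)]⟩⟩,⟨true,0,⟨0,[(19,0)]⟩,⟨0,[(14,0),(5,0),(4,0)]⟩⟩,⟨true,0,⟨0,
  [(40,0)]⟩,⟨0,[]⟩⟩,⟨false,1,⟨3,[(17,0),(0,2),(0,3),(13,3)]⟩,⟨1,[(1,1),(4,0),(6,0),(7,1)]⟩⟩,⟨false,
  0,⟨0,[]⟩,⟨0,[]⟩⟩,⟨false,0,⟨0,[]⟩,⟨0,[]⟩⟩,[.o ⟨false,0,⟨0,[(36,0)]⟩,⟨3,[(10,1),(14,0),(0,0),(3,1),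
  (4,1)]⟩⟩,.o ⟨false,1,⟨7,[(3,3),(13,0),(0,2),(14,3),(2,3)]⟩,⟨1,[(6,0),(6,0),(7,1)]⟩⟩,.o ⟨false,1,
  ⟨1,[(20,1),(9,0),(6,0)]⟩,⟨0,[(14,0),(4,0),(5,0)]⟩⟩,.a ⟨true,0,⟨0,[(20,0)]⟩,⟨0,[(19,0)]⟩⟩ ⟨false,0,
  ⟨0,[(1,0),(11,0),(5,0),(1,0)]⟩,⟨1,[(18,0),(6,0),(0,0),(11,0)]⟩⟩ ⟨true,0,⟨0,[(19,0),(16,0)]⟩,⟨1,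
  [(6,0),(6,0),(6,1),(0,1)]⟩⟩]⟩) (.R ⟨1,false,false,true,[1,0,0,-1],[1,1,-1],[0,1,0,0,0,0,0,0,-1],
  (⟨0,[(19,0)]⟩,⟨0,[(20,0)]⟩),(⟨0,[(28,0),(3,0)]⟩,⟨0,[(8,0)]⟩),⟨0,[(0,0)]⟩,.k,.k,(.x (-1) ⟨3,[(17,
  0),(0,0),(11,1),(0,3)]⟩ ⟨0,[(32,0)]⟩),(.r 0 ⟨0,[(1,0),(11,0),(1,0),(3,0)]⟩ ⟨7,[(7,3),(9,0),(0,4),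
  (5,3),(0,3),(11,1)]⟩),(.r 0 ⟨1,[(1,1),(4,0),(4,1),(1,0),(5,1),(1,1)]⟩ ⟨3,[(7,3),(9,0),(0,2),(21,
  3)]⟩),.k,⟨false,0,⟨0,[(1,0),(9,0),(1,0),(5,0),(1,0)]⟩,⟨7,[(7,3),(9,0),(0,4),(5,3),(0,3),(11,1)]⟩⟩,
  ⟨true,0,⟨0,[(14,0),(4,0)]⟩,⟨0,[(20,0),(4,0)]⟩⟩,⟨true,0,⟨0,[(40,0)]⟩,⟨0,[]⟩⟩,⟨false,1,⟨3,[(7,1),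
  (10,1),(0,3),(1,1),(4,1),(3,0),(6,0)]⟩,⟨1,[(1,1),(4,0),(6,0)]⟩⟩,⟨false,0,⟨0,[(36,0)]⟩,⟨1,[(10,1),
  (14,0),(0,0)]⟩⟩,⟨false,1,⟨3,[(7,1),(10,1),(0,3),(1,1),(4,1),(3,0),(5,3),(0,0)]⟩,⟨0,[(1,0),(4,
  0)]⟩⟩,[.o ⟨false,0,⟨0,[(21,0),(14,0)]⟩,⟨15,[(6,7),(9,3),(0,2),(0,2),(11,1),(7,7)]⟩⟩,.o ⟨false,1,
  ⟨3,[(7,1),(13,1),(4,1),(3,0),(6,2)]⟩,⟨0,[(12,0)]⟩⟩,.o ⟨false,1,⟨1,[(20,1),(9,0),(6,0)]⟩,⟨0,[(14,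
  0),(4,0),(5,0)]⟩⟩,.a ⟨true,0,⟨0,[(20,0)]⟩,⟨0,[(19,0)]⟩⟩ ⟨false,0,⟨0,[(1,0),(11,0),(5,0),(1,0)]⟩,
  ⟨1,[(18,0),(6,0),(0,0),(11,0)]⟩⟩ ⟨true,0,⟨0,[(19,0),(1,0),(14,0)]⟩,⟨1,[(6,0),(6,0),(6,1)]⟩⟩]⟩)))
  (.Q [0,0,0,0,0,1,0,0,0,-1,0,1] (.p true [0,0,0,1] [1] (⟨0,[(18,0)]⟩,⟨0,[(17,0)]⟩) .k 1 (⟨0,[]⟩,⟨0,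
  []⟩) .k .k) (.R ⟨0,false,false,false,[1,0,0,-1],[0,1],[0,1,0,0,0,0,0,0,-1],(⟨0,[(18,0)]⟩,⟨0,[(19,
  0)]⟩),(⟨0,[(31,0)]⟩,⟨0,[(30,0)]⟩),⟨0,[(0,0)]⟩,.k,.k,(.x (-1) ⟨3,[(16,0),(0,0),(11,1),(0,3)]⟩ ⟨0,
  [(31,0)]⟩),(.x (-1) ⟨3,[(16,0),(0,0),(11,1),(0,3)]⟩ ⟨0,[(31,0)]⟩),.k,.k,⟨false,1,⟨0,[(2,0),(30,0),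
  (0,0)]⟩,⟨0,[(1,0),(17,0),(15,0)]⟩⟩,⟨true,0,⟨0,[(18,0)]⟩,⟨0,[(13,0),(5,0),(4,0)]⟩⟩,⟨true,0,⟨0,[(39,
  0)]⟩,⟨0,[]⟩⟩,⟨false,0,⟨0,[(1,0),(16,0),(0,0),(15,0)]⟩,⟨1,[(4,1),(0,0),(6,0),(7,1)]⟩⟩,⟨false,0,⟨0,
  []⟩,⟨0,[]⟩⟩,⟨false,0,⟨0,[]⟩,⟨0,[]⟩⟩,[.o ⟨false,0,⟨0,[(35,0)]⟩,⟨3,[(9,1),(14,0),(0,0),(3,1),(4,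
  1)]⟩⟩,.o ⟨false,1,⟨7,[(2,3),(13,0),(0,2),(14,3),(2,3)]⟩,⟨1,[(5,0),(6,0),(7,1)]⟩⟩,.o ⟨false,1,⟨1,
  [(19,1),(9,0),(6,0)]⟩,⟨0,[(13,0),(4,0),(5,0)]⟩⟩,.a ⟨true,0,⟨0,[(19,0)]⟩,⟨0,[(18,0)]⟩⟩ ⟨false,1,⟨1,
  [(16,0),(19,0)]⟩,⟨0,[(1,0),(17,0)]⟩⟩ ⟨true,0,⟨0,[(18,0),(16,0)]⟩,⟨1,[(5,0),(6,0),(6,1),(0,
  1)]⟩⟩]⟩) (.R ⟨1,false,false,true,[1,0,0,-1],[1,1,-1],[0,0,0,0,0,0,0,0,-1],(⟨0,[(18,0)]⟩,⟨0,[(19,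
  0)]⟩),(⟨0,[(27,0),(3,0)]⟩,⟨0,[(7,0)]⟩),⟨0,[(0,0)]⟩,.k,.k,(.x (-1) ⟨3,[(16,0),(0,0),(11,1),(0,3)]⟩
  ⟨0,[(31,0)]⟩),(.x (-1) ⟨3,[(7,3),(8,0),(0,0),(6,3),(11,1)]⟩ ⟨0,[(13,0),(13,0),(3,0)]⟩),(.r (-1)
  ⟨0,[(2,0),(7,0),(23,0)]⟩ ⟨0,[(1,0),(4,0),(12,0),(13,0),(5,0)]⟩),.k,⟨false,1,⟨0,[(2,0),(7,0)]⟩,⟨1,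
  [(1,1),(4,0),(12,1),(3,0),(0,0),(8,2),(5,0)]⟩⟩,⟨true,0,⟨0,[(13,0),(4,0)]⟩,⟨0,[(19,0),(4,0)]⟩⟩,
  ⟨false,1,⟨3,[(16,0),(0,0),(19,1)]⟩,⟨0,[]⟩⟩,⟨false,0,⟨0,[(1,0),(21,0),(11,0)]⟩,⟨1,[(4,1),(0,0),(6,
  0)]⟩⟩,⟨true,0,⟨0,[(35,0)]⟩,⟨0,[(34,0)]⟩⟩,⟨false,0,⟨0,[(1,0),(21,0),(11,1)]⟩,⟨0,[(4,0),(0,0)]⟩⟩,
  [.o ⟨false,0,⟨0,[(20,0),(14,0)]⟩,⟨15,[(5,7),(9,3),(0,2),(0,2),(11,1),(7,7)]⟩⟩,.o ⟨false,1,⟨3,[(6,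
  1),(13,1),(4,1),(3,0),(6,2)]⟩,⟨0,[(11,0)]⟩⟩,.o ⟨false,1,⟨1,[(19,1),(9,0),(6,0)]⟩,⟨0,[(13,0),(4,0),
  (5,0)]⟩⟩,.a ⟨true,0,⟨0,[(19,0)]⟩,⟨0,[(18,0)]⟩⟩ ⟨false,1,⟨0,[(2,0)]⟩,⟨0,[(1,0),(17,0),(19,0)]⟩⟩
  ⟨true,0,⟨0,[(18,0),(1,0),(14,0)]⟩,⟨1,[(5,0),(6,0),(6,1)]⟩⟩]⟩))))))) (.Q [0,1,-1,0,0,0,0,0,-1,0,0,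
  1] (.p true [0,0,0,1] [] (⟨0,[(13,0)]⟩,⟨0,[(12,0)]⟩) .k 0 (⟨0,[]⟩,⟨0,[]⟩) .k .k) (.Q [0,1,1,0,0,0,
  0,0,1,0,0,-1] (.p false [0,0,0,1] [] (⟨0,[(14,0)]⟩,⟨0,[(13,0)]⟩) .k 0 (⟨0,[]⟩,⟨0,[]⟩) .k .k) (.K
  ⟨0,[0,0,0,1],0,0,(⟨0,[(15,0)]⟩,⟨0,[(14,0)]⟩),.k,(.x 0 ⟨0,[(17,0),(2,0),(5,0)]⟩ ⟨0,[(27,0),(4,
  0)]⟩),(.x 0 ⟨0,[(27,0)]⟩ ⟨3,[(12,0),(0,0),(11,1),(0,3)]⟩),.k,.k,[⟨0,[(15,0)]⟩,⟨0,[(14,0)]⟩,⟨0,[(1,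
  0)]⟩,⟨0,[(0,0)]⟩]⟩) (.Q [0,0,0,0,0,1,0,0,0,-1,0,1] (.p true [0,0,0,1] [1] (⟨0,[(15,0)]⟩,⟨0,[(14,
  0)]⟩) .k 1 (⟨0,[]⟩,⟨0,[]⟩) .k .k) (.R ⟨0,false,false,false,[1,0,0,-1],[0,1],[0,1,0,0,0,0,0,0,-1],
  (⟨0,[(15,0)]⟩,⟨0,[(16,0)]⟩),(⟨0,[(28,0)]⟩,⟨0,[(27,0)]⟩),⟨0,[(0,0)]⟩,.k,.k,(.x (-1) ⟨3,[(13,0),(0,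
  0),(11,1),(0,3)]⟩ ⟨0,[(28,0)]⟩),(.x (-1) ⟨3,[(13,0),(0,0),(11,1),(0,3)]⟩ ⟨0,[(28,0)]⟩),.k,.k,
  ⟨false,0,⟨1,[(1,1),(1,0),(5,0),(5,1),(1,1),(3,0),(8,0)]⟩,⟨3,[(13,0),(0,2),(14,3)]⟩⟩,⟨true,0,⟨0,
  [(15,0)]⟩,⟨0,[(10,0),(5,0),(4,0)]⟩⟩,⟨true,0,⟨0,[(36,0)]⟩,⟨0,[]⟩⟩,⟨false,1,⟨3,[(13,0),(0,2),(0,3),
  (13,3)]⟩,⟨0,[(1,0),(6,0),(8,0)]⟩⟩,⟨false,0,⟨0,[]⟩,⟨0,[]⟩⟩,⟨false,0,⟨0,[]⟩,⟨0,[]⟩⟩,[.o ⟨false,0,⟨0,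
  [(32,0)]⟩,⟨3,[(6,1),(14,0),(0,0),(3,1),(4,1)]⟩⟩,.o ⟨false,1,⟨3,[(13,0),(0,0),(17,3),(1,1)]⟩,⟨0,
  [(8,0),(8,0)]⟩⟩,.o ⟨false,1,⟨1,[(1,0),(0,0),(11,0),(11,0)]⟩,⟨0,[(10,0),(4,0),(5,0)]⟩⟩,.a ⟨true,0,
  ⟨0,[(16,0)]⟩,⟨0,[(15,0)]⟩⟩ ⟨false,0,⟨0,[(1,0),(7,0),(5,0),(1,0)]⟩,⟨1,[(14,0),(6,0),(0,0),(11,
  0)]⟩⟩ ⟨true,0,⟨0,[(15,0),(16,0)]⟩,⟨0,[(8,0),(7,0),(0,0)]⟩⟩]⟩) (.I [1,-1,-1,-1,0,0,0,0,-1] (.R ⟨1,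
  false,false,true,[1,0,0,-1],[1,1,-1],[1,0,0,-1,0,0,0,0,-1],(⟨0,[(16,0)]⟩,⟨0,[(17,0)]⟩),(⟨0,[(25,
  0),(3,0)]⟩,⟨0,[(5,0)]⟩),⟨0,[(1,0)]⟩,.k,.k,(.x (-1) ⟨3,[(14,0),(0,0),(11,1),(0,3)]⟩ ⟨0,[(29,0)]⟩),
  (.r 0 ⟨3,[(0,2),(2,0),(8,0),(3,0),(3,0),(3,2)]⟩ ⟨1,[(15,0),(5,1),(0,1),(10,1),(1,0)]⟩),(.r 0 ⟨7,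
  [(0,6),(2,0),(0,3),(7,0),(3,0),(3,0),(3,2)]⟩ ⟨3,[(14,0),(0,2),(5,3),(0,3),(7,3),(2,3)]⟩),.k,
  ⟨false,0,⟨0,[(0,0),(7,0)]⟩,⟨3,[(14,0),(0,2),(5,3),(0,3),(10,7)]⟩⟩,⟨true,0,⟨0,[(11,0),(4,0)]⟩,⟨0,
  [(17,0),(4,0)]⟩⟩,⟨false,1,⟨1,[(7,1),(14,0),(0,0)]⟩,⟨0,[(33,0)]⟩⟩,⟨false,1,⟨1,[(15,0),(0,1),(4,1),
  (5,0),(2,1)]⟩,⟨0,[(2,0),(6,0)]⟩⟩,⟨true,0,⟨0,[]⟩,⟨0,[(37,0)]⟩⟩,⟨false,1,⟨1,[(15,0),(0,1),(4,1),(5,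
  0),(2,1),(2,1)]⟩,⟨0,[(0,0),(8,0),(7,0)]⟩⟩,[.o ⟨false,0,⟨0,[(18,0),(14,0)]⟩,⟨3,[(9,3),(4,0),(0,0),
  (19,1)]⟩⟩,.o ⟨false,1,⟨1,[(21,1),(5,0),(5,1),(1,0)]⟩,⟨0,[(9,0)]⟩⟩,.o ⟨false,1,⟨1,[(2,0),(0,0),(11,
  0),(11,0)]⟩,⟨0,[(11,0),(4,0),(5,0)]⟩⟩,.a ⟨true,0,⟨0,[(17,0)]⟩,⟨0,[(16,0)]⟩⟩ ⟨false,0,⟨0,[(0,0)]⟩,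
  ⟨3,[(14,0),(0,2),(14,3),(6,3)]⟩⟩ ⟨true,0,⟨0,[(16,0),(1,0),(14,0)]⟩,⟨0,[(9,0),(7,0)]⟩⟩]⟩) (.R ⟨1,
  false,false,false,[1,0,0,-1],[1,1,-1],[1,0,0,-1,0,0,0,0,-1],(⟨0,[(16,0)]⟩,⟨0,[(17,0)]⟩),(⟨0,[(25,
  0),(3,0)]⟩,⟨0,[(5,0)]⟩),⟨0,[(1,0)]⟩,.k,.k,(.x (-1) ⟨3,[(14,0),(0,0),(11,1),(0,3)]⟩ ⟨0,[(29,0)]⟩),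
  (.r 0 ⟨0,[(2,0),(7,0),(1,0),(3,0)]⟩ ⟨1,[(15,0),(5,1),(0,1),(10,1),(1,0)]⟩),(.r 0 ⟨1,[(2,1),(1,0),
  (4,1),(1,0),(4,1),(1,0)]⟩ ⟨0,[(0,0),(20,0),(0,0),(10,0),(1,0)]⟩),.k,⟨false,0,⟨1,[(2,1),(1,0),(4,
  1),(1,0),(4,1),(1,0)]⟩,⟨1,[(15,0),(5,1),(0,1),(10,3),(1,0)]⟩⟩,⟨true,0,⟨0,[(11,0),(4,0)]⟩,⟨0,[(17,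
  0),(4,0)]⟩⟩,⟨false,1,⟨1,[(7,1),(14,0),(0,0)]⟩,⟨0,[(33,0)]⟩⟩,⟨false,1,⟨1,[(15,0),(0,1),(1,1),(11,
  1),(4,0)]⟩,⟨1,[(2,0),(0,0),(5,1)]⟩⟩,⟨true,0,⟨0,[]⟩,⟨0,[(37,0)]⟩⟩,⟨false,1,⟨1,[(15,0),(0,1),(1,1),
  (11,1),(2,1),(1,0)]⟩,⟨0,[(2,0),(6,0),(22,0)]⟩⟩,[.o ⟨false,1,⟨1,[(21,1),(5,0),(5,1),(1,0)]⟩,⟨0,[(9,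
  0)]⟩⟩,.o ⟨false,1,⟨0,[(18,0),(14,0),(1,0)]⟩,⟨1,[(9,0),(10,0),(11,0)]⟩⟩,.o ⟨false,1,⟨1,[(2,0),(0,
  0),(11,0),(11,0)]⟩,⟨0,[(11,0),(4,0),(5,0)]⟩⟩,.a ⟨true,0,⟨0,[(17,0)]⟩,⟨0,[(16,0)]⟩⟩ ⟨true,0,⟨0,[(2,
  0),(6,0),(6,0),(1,0)]⟩,⟨0,[(0,0)]⟩⟩ ⟨false,1,⟨0,[(16,0),(1,0),(14,0),(1,0)]⟩,⟨0,[(9,0),(7,
  0)]⟩⟩]⟩)))) (.Q [0,1,1,0,-1,0,0,0,1,0,0,-1] (.p false [0,0,0,1] [] (⟨0,[(14,0)]⟩,⟨0,[(13,0)]⟩) .k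
  0 (⟨0,[]⟩,⟨0,[]⟩) .k .k) (.K ⟨0,[0,0,0,1],0,(-1),(⟨0,[(15,0)]⟩,⟨0,[(14,0)]⟩),.k,(.x 0 ⟨0,[(17,0),
  (2,0),(5,0)]⟩ ⟨0,[(27,0),(4,0)]⟩),(.x 0 ⟨0,[(27,0)]⟩ ⟨3,[(12,0),(0,0),(11,1),(0,3)]⟩),.k,.k,[⟨0,
  [(15,0)]⟩,⟨0,[(14,0)]⟩,⟨1,[(12,0),(2,1),(16,0),(2,1)]⟩,⟨0,[(0,0)]⟩]⟩) (.Q [0,0,0,0,0,-1,0,0,0,1,0,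
  -1] (.p false [0,0,0,1] [1] (⟨0,[(15,0)]⟩,⟨0,[(14,0)]⟩) .k 1 (⟨0,[]⟩,⟨0,[]⟩) .k .k) (.I [0,1,1,1,
  0,0,0,-1,-1] (.R ⟨1,false,false,false,[1,0,0,-1],[0,-1,1],[0,1,0,0,0,0,0,0,-1],(⟨0,[(16,0)]⟩,⟨0,
  [(17,0)]⟩),(⟨0,[(5,0)]⟩,⟨0,[(25,0),(3,0)]⟩),⟨0,[(1,0)]⟩,.k,.k,(.x (-1) ⟨3,[(14,0),(0,0),(11,1),(0,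
  3)]⟩ ⟨0,[(29,0)]⟩),(.r (-1) ⟨3,[(0,3),(13,0),(0,0),(19,1)]⟩ ⟨0,[(3,0),(4,0),(8,0),(13,0)]⟩),.k,.k,
  ⟨true,0,⟨0,[(0,0)]⟩,⟨0,[(3,0),(4,0),(8,0)]⟩⟩,⟨false,0,⟨0,[(16,0),(5,0)]⟩,⟨0,[(11,0),(5,0),(16,
  0)]⟩⟩,⟨true,0,⟨0,[(37,0)]⟩,⟨0,[]⟩⟩,⟨false,0,⟨0,[(3,0),(5,0),(6,0),(0,0)]⟩,⟨0,[(2,0),(15,0),(14,
  0)]⟩⟩,⟨false,0,⟨0,[(33,0)]⟩,⟨1,[(7,1),(14,0),(0,0)]⟩⟩,⟨false,0,⟨1,[(3,1),(9,0),(2,0),(0,0)]⟩,⟨0,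
  [(2,0),(15,0)]⟩⟩,[.o ⟨false,0,⟨0,[(9,0)]⟩,⟨1,[(21,1),(5,0),(5,1),(1,0)]⟩⟩,.o ⟨false,1,⟨3,[(9,3),
  (4,0),(0,0),(19,1)]⟩,⟨0,[(18,0),(14,0)]⟩⟩,.o ⟨false,1,⟨1,[(17,1),(9,0),(6,0)]⟩,⟨1,[(0,0),(2,0),(5,
  0),(1,0),(4,0)]⟩⟩,.a ⟨true,0,⟨0,[(17,0)]⟩,⟨0,[(16,0)]⟩⟩ ⟨false,1,⟨1,[(14,0),(19,0)]⟩,⟨0,[(3,0),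
  (13,0)]⟩⟩ ⟨true,0,⟨0,[(9,0),(6,0)]⟩,⟨0,[(17,0),(0,0),(14,0)]⟩⟩]⟩) (.Q [0,0,-1,-1,1,0,-1,-1,-1,-1,
  1,1] (.p true [0,0,1] [1,0,0,-1] (⟨0,[(26,0)]⟩,⟨0,[(25,0)]⟩) .k 2 (⟨0,[(16,0)]⟩,⟨0,[(17,0)]⟩) .k
  (.r 0 ⟨2,[(0,1),(2,0),(13,0),(2,0),(2,0),(9,1),(3,1)]⟩ ⟨0,[(2,0),(13,0),(1,0),(3,0)]⟩)) (.I [0,0,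
  -2,-2,1,0,0,0,-1] (.R ⟨1,false,false,false,[1,0,0,-1],[0,1],[0,0,0,0,0,0,0,0,-1],(⟨0,[(18,0)]⟩,⟨0,
  [(19,0)]⟩),(⟨0,[(31,0)]⟩,⟨0,[(30,0)]⟩),⟨0,[(3,0)]⟩,.k,.k,(.x (-1) ⟨3,[(16,0),(0,0),(11,1),(0,3)]⟩
  ⟨0,[(31,0)]⟩),(.x (-1) ⟨3,[(16,0),(0,0),(11,1),(0,3)]⟩ ⟨0,[(31,0)]⟩),(.r (-1) ⟨0,[(0,0)]⟩ ⟨0,[(5,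
  0),(13,0),(12,0),(2,0),(3,1)]⟩),.k,⟨false,1,⟨0,[(0,0),(34,0)]⟩,⟨0,[(5,0),(13,0),(15,0),(3,0)]⟩⟩,
  ⟨true,0,⟨0,[(18,0)]⟩,⟨0,[(13,0),(5,0),(4,0)]⟩⟩,⟨false,1,⟨3,[(16,0),(0,0),(19,1)]⟩,⟨0,[]⟩⟩,⟨false,
  0,⟨0,[(5,0),(12,0),(0,0),(15,0)]⟩,⟨0,[(1,0),(10,0)]⟩⟩,⟨true,0,⟨0,[(35,0)]⟩,⟨0,[(34,0)]⟩⟩,⟨false,0,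
  ⟨0,[(5,0),(12,0),(0,0),(15,1)]⟩,⟨0,[(1,0),(9,0)]⟩⟩,[.o ⟨false,0,⟨0,[(35,0)]⟩,⟨3,[(9,1),(14,0),(0,
  0),(3,1),(4,1)]⟩⟩,.o ⟨false,1,⟨3,[(16,0),(0,0),(17,3),(1,1)]⟩,⟨0,[(11,0),(8,0)]⟩⟩,.o ⟨false,1,⟨1,
  [(19,1),(9,0),(6,0)]⟩,⟨0,[(13,0),(4,0),(5,0)]⟩⟩,.a ⟨true,0,⟨0,[(19,0)]⟩,⟨0,[(18,0)]⟩⟩ ⟨false,1,⟨0,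
  [(0,0),(31,0),(2,0)]⟩,⟨0,[(5,0),(13,0),(19,0)]⟩⟩ ⟨true,0,⟨0,[(18,0),(16,0)]⟩,⟨0,[(11,0),(7,0),(0,
  0)]⟩⟩]⟩) (.R ⟨1,false,false,false,[1,0,0,-1],[0,0,1],[0,1,0,0,0,0,0,0,-1],(⟨0,[(18,0)]⟩,⟨0,[(19,
  0)]⟩),(⟨0,[(28,0)]⟩,⟨0,[(27,0)]⟩),⟨0,[(3,0)]⟩,.k,.k,(.x (-1) ⟨3,[(16,0),(0,0),(11,1),(0,3)]⟩ ⟨0,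
  [(31,0)]⟩),.k,(.r (-2) ⟨1,[(9,1),(6,0),(6,1),(0,1),(11,0)]⟩ ⟨0,[(0,0),(7,0)]⟩),.k,⟨false,1,⟨0,[(4,
  0),(13,0),(1,0),(3,0),(8,0)]⟩,⟨13,[(0,3),(1,7),(14,0),(8,5),(10,2)]⟩⟩,⟨true,0,⟨0,[(18,0),(5,0)]⟩,
  ⟨0,[(13,0),(5,0)]⟩⟩,⟨true,0,⟨0,[(39,0)]⟩,⟨0,[]⟩⟩,⟨false,0,⟨1,[(5,1),(9,0),(2,0),(0,0)]⟩,⟨0,[(4,0),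
  (15,0)]⟩⟩,⟨false,0,⟨0,[(35,0)]⟩,⟨1,[(9,1),(14,0),(0,0)]⟩⟩,⟨false,0,⟨3,[(0,1),(4,1),(9,1),(2,1),
  (17,0),(0,0)]⟩,⟨0,[(1,0)]⟩⟩,[.o ⟨false,0,⟨0,[(12,0)]⟩,⟨1,[(23,1),(5,0),(7,0)]⟩⟩,.o ⟨false,1,⟨7,
  [(15,3),(0,0),(0,0),(11,1),(7,3)]⟩,⟨0,[(20,0)]⟩⟩,.o ⟨false,1,⟨1,[(19,1),(9,0),(6,0)]⟩,⟨0,[(13,0),
  (4,0),(5,0)]⟩⟩,.a ⟨true,0,⟨0,[(19,0)]⟩,⟨0,[(18,0)]⟩⟩ ⟨false,1,⟨1,[(16,0),(19,0)]⟩,⟨0,[(5,0),(13,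
  0)]⟩⟩ ⟨true,0,⟨0,[(12,0),(5,0)]⟩,⟨0,[(19,0),(0,0)]⟩⟩]⟩)) (.R ⟨1,true,false,false,[1,0,0,-1],[0,0,
  1],[0,1,0,0,0,0,0,0,-1],(⟨0,[(17,0)]⟩,⟨0,[(18,0)]⟩),(⟨0,[(27,0)]⟩,⟨0,[(26,0)]⟩),⟨0,[(2,0)]⟩,.k,.k,
  (.x (-1) ⟨3,[(15,0),(0,0),(11,1),(0,3)]⟩ ⟨0,[(30,0)]⟩),.k,(.r (-2) ⟨1,[(8,1),(6,0),(6,1),(0,1),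
  (11,0)]⟩ ⟨0,[(0,0),(11,0),(5,0)]⟩),.k,⟨false,1,⟨0,[(3,0),(13,0),(1,0),(3,0),(8,0)]⟩,⟨6,[(0,0),(0,
  3),(10,0),(3,0),(1,0),(6,1),(5,2)]⟩⟩,⟨true,0,⟨0,[(17,0),(5,0)]⟩,⟨0,[(12,0),(5,0)]⟩⟩,⟨true,0,⟨0,
  [(38,0)]⟩,⟨0,[]⟩⟩,⟨false,0,⟨1,[(4,1),(9,0),(2,0),(0,0)]⟩,⟨0,[(3,0),(15,0)]⟩⟩,⟨false,0,⟨0,[(34,
  0)]⟩,⟨1,[(8,1),(14,0),(0,0)]⟩⟩,⟨true,(-1),⟨0,[(0,0)]⟩,⟨0,[(3,0),(15,0),(13,0)]⟩⟩,[]⟩))) (.R ⟨0,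
  false,false,false,[1,0,0,-1],[0,1],[0,1,0,0,0,0,0,0,-1],(⟨0,[(15,0)]⟩,⟨0,[(16,0)]⟩),(⟨0,[(28,0)]⟩,
  ⟨0,[(27,0)]⟩),⟨0,[(0,0)]⟩,.k,.k,(.x (-1) ⟨3,[(13,0),(0,0),(11,1),(0,3)]⟩ ⟨0,[(28,0)]⟩),(.x (-1)
  ⟨3,[(13,0),(0,0),(11,1),(0,3)]⟩ ⟨0,[(28,0)]⟩),.k,.k,⟨false,1,⟨2,[(1,0),(1,0),(2,0),(6,0),(1,0),(1,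
  0),(3,0),(8,2)]⟩,⟨0,[(2,0),(13,0),(15,0)]⟩⟩,⟨true,0,⟨0,[(15,0)]⟩,⟨0,[(10,0),(5,0),(4,0)]⟩⟩,⟨true,
  0,⟨0,[(36,0)]⟩,⟨0,[]⟩⟩,⟨false,0,⟨0,[(2,0),(12,0),(0,0),(15,0)]⟩,⟨0,[(1,0),(6,0),(8,0)]⟩⟩,⟨false,0,
  ⟨0,[]⟩,⟨0,[]⟩⟩,⟨false,0,⟨0,[]⟩,⟨0,[]⟩⟩,[.o ⟨false,0,⟨0,[(32,0)]⟩,⟨3,[(6,1),(14,0),(0,0),(3,1),(4,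
  1)]⟩⟩,.o ⟨false,1,⟨3,[(13,0),(0,0),(17,3),(1,1)]⟩,⟨0,[(8,0),(8,0)]⟩⟩,.o ⟨false,1,⟨1,[(16,1),(9,0),
  (6,0)]⟩,⟨0,[(10,0),(4,0),(5,0)]⟩⟩,.a ⟨true,0,⟨0,[(16,0)]⟩,⟨0,[(15,0)]⟩⟩ ⟨false,1,⟨1,[(13,0),(19,
  0)]⟩,⟨0,[(2,0),(13,0)]⟩⟩ ⟨true,0,⟨0,[(15,0),(16,0)]⟩,⟨0,[(8,0),(7,0),(0,0)]⟩⟩]⟩))))))) (.Q [0,-1,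
  0,1,0,0,1,1,0,1,-1] (.p false [0,0,1] [1] (⟨0,[(19,0)]⟩,⟨0,[(18,0)]⟩) .k 1 (⟨0,[]⟩,⟨0,[]⟩) .k .k)
  (.R ⟨2,true,false,true,[0,1],[1,0,-1],[1],(⟨0,[]⟩,⟨0,[]⟩),(⟨0,[(19,0)]⟩,⟨0,[(20,0)]⟩),⟨0,[]⟩,.k,
  .k,.k,.k,.k,.k,⟨true,0,⟨0,[(2,0),(21,0)]⟩,⟨0,[(15,0),(0,0)]⟩⟩,⟨false,0,⟨0,[(5,0)]⟩,⟨0,[(10,0),(0,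
  0),(4,0),(11,0)]⟩⟩,⟨true,1,⟨1,[(26,1),(1,0),(0,0)]⟩,⟨0,[(1,0)]⟩⟩,⟨false,1,⟨0,[(12,0),(13,0),(2,
  0)]⟩,⟨0,[(0,0)]⟩⟩,⟨false,1,⟨1,[(28,0),(0,0)]⟩,⟨1,[(16,0),(0,0)]⟩⟩,⟨true,0,⟨0,[(12,0)]⟩,⟨1,[(7,0),
  (2,0),(0,0)]⟩⟩,[]⟩) (.Q [0,1,-1,0,0,0,0,0,-1,0,0,1] (.p true [0,0,0,1] [] (⟨0,[(11,0)]⟩,⟨0,[(10,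
  0)]⟩) .k 0 (⟨0,[]⟩,⟨0,[]⟩) .k .k) (.K ⟨0,[0,0,0,1],0,0,(⟨0,[(12,0)]⟩,⟨0,[(11,0)]⟩),.k,(.x 0 ⟨0,
  [(14,0),(2,0),(5,0)]⟩ ⟨0,[(24,0),(4,0)]⟩),(.x 0 ⟨0,[(24,0)]⟩ ⟨3,[(9,0),(0,0),(11,1),(0,3)]⟩),.k,
  .k,[⟨0,[(12,0)]⟩,⟨0,[(11,0)]⟩,⟨0,[(0,0)]⟩,⟨5,[(1,1),(0,3),(1,1),(1,1),(3,2),(0,5),(5,1),(4,
  0)]⟩]⟩) (.Q [0,1,1,0,-1,0,0,0,1,0,0,-1] (.p false [0,0,0,1] [] (⟨0,[(12,0)]⟩,⟨0,[(11,0)]⟩) .k 0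
  (⟨0,[]⟩,⟨0,[]⟩) .k .k) (.K ⟨0,[0,0,0,1],0,(-1),(⟨0,[(13,0)]⟩,⟨0,[(12,0)]⟩),.k,(.r (-1) ⟨0,[(1,0),
  (11,0),(14,0),(1,0)]⟩ ⟨1,[(3,0),(6,0),(15,0)]⟩),(.x 0 ⟨0,[(25,0)]⟩ ⟨3,[(10,0),(0,0),(11,1),(0,
  3)]⟩),.k,.k,[⟨0,[(13,0)]⟩,⟨0,[(12,0)]⟩,⟨1,[(10,0),(2,1),(16,0),(2,1)]⟩,⟨0,[(0,0)]⟩]⟩) (.R ⟨2,true,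
  false,false,[0,1],[0,0,0,1],[0,1],(⟨0,[]⟩,⟨0,[]⟩),(⟨0,[(13,0)]⟩,⟨0,[(12,0)]⟩),⟨0,[]⟩,.k,.k,.k,(.r
  0 ⟨1,[(3,0),(6,0),(15,0)]⟩ ⟨0,[(1,0),(11,0),(14,0),(1,0)]⟩),.k,.k,⟨true,0,⟨2,[(0,0),(1,0),(0,1),
  (1,0),(4,0),(1,0),(14,0)]⟩,⟨0,[(1,0),(11,0)]⟩⟩,⟨false,0,⟨9,[(1,5),(0,1),(0,3),(1,1),(4,2),(1,3),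
  (10,0)]⟩,⟨0,[(13,0),(16,0)]⟩⟩,⟨false,1,⟨1,[(28,1),(1,0),(0,0)]⟩,⟨0,[(26,0)]⟩⟩,⟨true,0,⟨0,[(1,0),
  (26,0)]⟩,⟨0,[(0,0),(2,0),(23,0)]⟩⟩,⟨true,0,⟨0,[(27,0)]⟩,⟨1,[(18,0),(0,0)]⟩⟩,⟨false,0,⟨0,[(1,0)]⟩,
  ⟨1,[(10,0),(2,1),(16,0)]⟩⟩,[]⟩)))))

theorem ok3 : chk (cU (-1) true 3) t3 l4 = true := by decide +kernel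

noncomputable def l5 : List Con := (false, [0,0,0,0,0,1,0,0,0,0,-1]) :: r4

noncomputable def r5 : List Con := (false, [0,0,0,0,0,-1,0,0,0,0,1]) :: r4

noncomputable def t4 : Tre :=
  (.Q [0,0,0,1,0,0,-1,-1,0,1,1] (.p true [1,-1,1] [] (⟨0,[(19,0),(1,0)]⟩,⟨0,[(0,0)]⟩) .k 0 (⟨0,[]⟩,
  ⟨0,[]⟩) .k .k) (.R ⟨2,false,false,true,[0,1],[0,1,-1],[0,1],(⟨0,[]⟩,⟨0,[]⟩),(⟨0,[(1,0)]⟩,⟨0,[(20,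
  0),(1,0)]⟩),⟨0,[]⟩,.k,.k,.k,.k,.k,.k,⟨false,1,⟨0,[(3,0),(1,0),(4,0),(0,0),(16,0)]⟩,⟨0,[(2,0)]⟩⟩,
  ⟨true,0,⟨0,[(5,0),(4,0),(0,0)]⟩,⟨0,[(16,0)]⟩⟩,⟨false,1,⟨1,[(26,1),(1,0),(0,0)]⟩,⟨0,[(24,0)]⟩⟩,
  ⟨true,0,⟨0,[(15,0)]⟩,⟨0,[(4,0)]⟩⟩,⟨true,0,⟨0,[(25,0)]⟩,⟨1,[(16,0),(0,0)]⟩⟩,⟨true,0,⟨1,[(0,0),(11,
  0),(14,0),(3,0)]⟩,⟨0,[(3,0)]⟩⟩,[.o ⟨false,0,⟨1,[(0,0),(11,0),(14,0),(3,0)]⟩,⟨1,[(3,1),(17,0),(7,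
  0)]⟩⟩,.a ⟨true,0,⟨0,[(0,0)]⟩,⟨0,[(3,0)]⟩⟩ ⟨false,1,⟨3,[(8,0),(0,0),(18,1)]⟩,⟨0,[]⟩⟩ ⟨true,0,⟨1,
  [(0,0),(1,0),(10,0)]⟩,⟨0,[(3,0)]⟩⟩,.o ⟨false,1,⟨3,[(8,0),(0,0),(18,1)]⟩,⟨0,[(5,0),(10,0)]⟩⟩,.e
  ⟨true,0,⟨0,[(25,0)]⟩,⟨1,[(16,0),(0,0)]⟩⟩ ⟨true,0,⟨1,[(0,0),(11,0),(14,0),(3,0)]⟩,⟨0,[(3,0)]⟩⟩]⟩)
  (.I [1,0,-1,-1,1,0,0,-1] (.Q [0,0,0,0,0,1,0,0,0,-1,1] (.ed false [0,1,1] .k) (.Q [0,0,0,0,0,0,1,0,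
  0,2,-1] (.p false [-1,1,1] [1] (⟨0,[(0,0)]⟩,⟨0,[(21,0),(2,0)]⟩) .k 1 (⟨0,[]⟩,⟨0,[]⟩) .k .k) (.R
  ⟨0,false,false,false,[-1,1,1],[0,1],[0,1,1,0,0,0,0,1],(⟨0,[(1,0)]⟩,⟨0,[(22,0),(2,0)]⟩),(⟨0,[(26,
  0)]⟩,⟨0,[(25,0)]⟩),⟨0,[(22,0)]⟩,.k,.k,.k,.k,.k,.k,⟨false,0,⟨0,[(6,0),(1,0),(4,0),(0,0),(13,0)]⟩,
  ⟨1,[(5,1),(25,0),(0,0)]⟩⟩,⟨true,0,⟨0,[(8,0)]⟩,⟨3,[(0,1),(18,2),(0,0)]⟩⟩,⟨true,0,⟨0,[(29,0)]⟩,⟨0,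
  [(30,0)]⟩⟩,⟨false,1,⟨0,[(15,0),(16,0)]⟩,⟨2,[(0,0),(9,0),(10,0)]⟩⟩,⟨false,0,⟨0,[]⟩,⟨0,[]⟩⟩,⟨false,
  0,⟨0,[]⟩,⟨0,[]⟩⟩,[.o ⟨false,0,⟨0,[(30,0)]⟩,⟨1,[(24,0),(4,1),(2,0)]⟩⟩,.o ⟨false,1,⟨3,[(11,0),(0,0),
  (17,3),(1,1)]⟩,⟨1,[(3,0),(11,0),(13,0)]⟩⟩,.o ⟨false,1,⟨1,[(0,1),(23,0),(6,0)]⟩,⟨1,[(3,0),(4,0),(6,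
  0),(0,0),(10,0)]⟩⟩,.a ⟨true,0,⟨0,[(0,0)]⟩,⟨0,[(8,0)]⟩⟩ ⟨false,0,⟨0,[(21,0)]⟩,⟨1,[(2,0),(2,0),(26,
  0)]⟩⟩ ⟨true,0,⟨0,[(8,0),(21,0)]⟩,⟨1,[(0,1),(2,0),(11,0),(13,0)]⟩⟩]⟩) (.I [0,-1,-1,0,1,0,0,0,-1]
  (.Q [0,1,-1,0,0,0,0,0,-1,0,0,1] (.p true [0,0,0,1] [] (⟨0,[(15,0)]⟩,⟨0,[(14,0)]⟩) .k 0 (⟨0,[]⟩,⟨0,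
  []⟩) .k .k) (.Q [0,1,1,0,0,0,0,0,1,0,0,-1] (.p false [0,0,0,1] [] (⟨0,[(16,0)]⟩,⟨0,[(15,0)]⟩) .k
  0 (⟨0,[]⟩,⟨0,[]⟩) .k .k) (.K ⟨0,[0,0,0,1],0,0,(⟨0,[(17,0)]⟩,⟨0,[(16,0)]⟩),.k,(.x 0 ⟨0,[(19,0),(2,
  0),(5,0)]⟩ ⟨0,[(29,0),(4,0)]⟩),(.x 0 ⟨0,[(29,0)]⟩ ⟨3,[(14,0),(0,0),(11,1),(0,3)]⟩),.k,.k,[⟨0,[(17,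
  0)]⟩,⟨0,[(16,0)]⟩,⟨0,[(1,0)]⟩,⟨0,[(0,0)]⟩]⟩) (.Q [0,0,0,0,0,1,0,0,0,-1,0,1] (.p true [0,0,0,1]
  [1] (⟨0,[(17,0)]⟩,⟨0,[(16,0)]⟩) .k 1 (⟨0,[]⟩,⟨0,[]⟩) .k .k) (.R ⟨0,false,false,false,[1,0,0,-1],
  [0,1],[0,1,0,0,0,0,0,0,-1],(⟨0,[(17,0)]⟩,⟨0,[(18,0)]⟩),(⟨0,[(30,0)]⟩,⟨0,[(29,0)]⟩),⟨0,[(0,0)]⟩,.k,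
  .k,(.x (-1) ⟨3,[(15,0),(0,0),(11,1),(0,3)]⟩ ⟨0,[(30,0)]⟩),(.x (-1) ⟨3,[(15,0),(0,0),(11,1),(0,
  3)]⟩ ⟨0,[(30,0)]⟩),.k,.k,⟨false,0,⟨1,[(1,1),(5,0),(9,1),(1,0),(12,1),(0,0)]⟩,⟨3,[(15,0),(0,2),(14,
  3)]⟩⟩,⟨true,0,⟨0,[(17,0)]⟩,⟨2,[(4,0),(13,2),(1,0),(2,1)]⟩⟩,⟨true,0,⟨0,[(38,0)]⟩,⟨0,[]⟩⟩,⟨false,1,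
  ⟨3,[(15,0),(0,2),(0,3),(13,3)]⟩,⟨1,[(1,1),(5,0),(11,0),(13,0)]⟩⟩,⟨false,0,⟨0,[]⟩,⟨0,[]⟩⟩,⟨false,0,
  ⟨0,[]⟩,⟨0,[]⟩⟩,[.o ⟨false,0,⟨0,[(34,0)]⟩,⟨1,[(28,0),(4,1),(2,0)]⟩⟩,.o ⟨false,1,⟨7,[(3,3),(11,0),
  (0,2),(14,3),(2,3)]⟩,⟨1,[(7,0),(11,0),(13,0)]⟩⟩,.o ⟨false,1,⟨1,[(18,1),(9,0),(6,0)]⟩,⟨2,[(4,0),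
  (12,2),(2,0),(2,1)]⟩⟩,.a ⟨true,0,⟨0,[(18,0)]⟩,⟨0,[(17,0)]⟩⟩ ⟨false,0,⟨2,[(1,1),(0,0),(1,0),(2,0),
  (1,0),(7,2),(14,0)]⟩,⟨1,[(16,0),(6,0),(0,0),(11,0)]⟩⟩ ⟨true,0,⟨0,[(17,0),(16,0)]⟩,⟨1,[(7,0),(10,
  1),(0,0),(13,0)]⟩⟩]⟩) (.Q [0,0,-1,-1,0,0,-1,-1,-1,-1,1,1] (.p true [0,0,1] [1,0,0,-1] (⟨0,[(27,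
  0)]⟩,⟨0,[(26,0)]⟩) .k 2 (⟨0,[(17,0)]⟩,⟨0,[(18,0)]⟩) .k (.r (-1) ⟨3,[(15,0),(0,2),(8,3)]⟩ ⟨0,[(1,
  0),(15,0),(1,0),(3,0)]⟩)) (.R ⟨1,false,false,false,[1,0,0,-1],[0,0,1],[0,1,0,0,0,0,0,0,-1],(⟨0,
  [(18,0)]⟩,⟨0,[(19,0)]⟩),(⟨0,[(28,0)]⟩,⟨0,[(27,0)]⟩),⟨0,[(1,0)]⟩,.k,.k,(.x (-1) ⟨3,[(16,0),(0,0),
  (11,1),(0,3)]⟩ ⟨0,[(31,0)]⟩),.k,(.x 0 ⟨0,[(5,0),(21,0),(2,0)]⟩ ⟨3,[(6,1),(0,1),(2,1),(4,1),(0,0),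
  (0,0),(10,1),(2,1)]⟩),.k,⟨false,0,⟨3,[(0,1),(1,0),(0,0),(4,1),(1,3),(7,3),(14,3)]⟩,⟨1,[(17,0),(8,
  1),(10,0)]⟩⟩,⟨true,0,⟨0,[(18,0),(5,0)]⟩,⟨0,[(13,0),(5,0)]⟩⟩,⟨true,0,⟨0,[(39,0)]⟩,⟨0,[]⟩⟩,⟨false,1,
  ⟨1,[(15,0),(1,0),(0,1),(2,0),(2,0),(12,0)]⟩,⟨0,[(2,0),(17,0)]⟩⟩,⟨false,0,⟨0,[(35,0)]⟩,⟨0,[(34,0),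
  (2,0)]⟩⟩,⟨false,1,⟨7,[(15,3),(0,0),(0,4),(0,7),(10,1),(2,7)]⟩,⟨0,[(0,0)]⟩⟩,[.o ⟨false,0,⟨0,[(12,
  0)]⟩,⟨1,[(23,1),(5,0),(7,0)]⟩⟩,.o ⟨false,1,⟨7,[(15,3),(0,0),(0,0),(11,1),(7,3)]⟩,⟨0,[(20,0)]⟩⟩,.o
  ⟨false,1,⟨1,[(19,1),(9,0),(6,0)]⟩,⟨2,[(5,0),(12,2),(2,0),(2,1)]⟩⟩,.a ⟨true,0,⟨0,[(19,0)]⟩,⟨0,[(18,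
  0)]⟩⟩ ⟨false,0,⟨2,[(2,1),(0,0),(1,0),(2,0),(1,0),(7,2),(14,0)]⟩,⟨1,[(17,0),(6,0),(0,0),(11,0)]⟩⟩
  ⟨true,0,⟨0,[(12,0),(5,0)]⟩,⟨0,[(19,0),(0,0)]⟩⟩]⟩) (.R ⟨1,true,false,false,[1,0,0,-1],[0,0,1],[0,1,
  0,0,0,0,0,0,-1],(⟨0,[(18,0)]⟩,⟨0,[(19,0)]⟩),(⟨0,[(28,0)]⟩,⟨0,[(27,0)]⟩),⟨0,[(1,0)]⟩,.k,.k,(.x
  (-1) ⟨3,[(16,0),(0,0),(11,1),(0,3)]⟩ ⟨0,[(31,0)]⟩),.k,(.r (-1) ⟨7,[(2,3),(4,5),(0,0),(7,1),(1,3),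
  (1,2),(3,1),(9,0)]⟩ ⟨0,[(0,0),(12,0),(5,0)]⟩),.k,⟨false,0,⟨0,[(2,0),(15,0),(1,0),(3,0),(8,0)]⟩,⟨1,
  [(17,0),(8,1),(10,0)]⟩⟩,⟨true,0,⟨0,[(18,0),(5,0)]⟩,⟨0,[(13,0),(5,0)]⟩⟩,⟨true,0,⟨0,[(39,0)]⟩,⟨0,
  []⟩⟩,⟨false,1,⟨0,[(0,0),(33,0),(2,0)]⟩,⟨0,[(2,0),(17,0)]⟩⟩,⟨false,0,⟨0,[(35,0)]⟩,⟨0,[(34,0),(2,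
  0)]⟩⟩,⟨true,0,⟨0,[(0,0)]⟩,⟨0,[(2,0),(17,0),(13,0)]⟩⟩,[]⟩)))) (.Q [0,0,0,0,0,1,0,0,0,-1,0,1] (.p
  true [0,0,0,1] [1] (⟨0,[(16,0)]⟩,⟨0,[(15,0)]⟩) .k 1 (⟨0,[]⟩,⟨0,[]⟩) .k .k) (.R ⟨0,false,false,
  false,[1,0,0,-1],[0,1],[0,1,0,0,0,0,0,0,-1],(⟨0,[(16,0)]⟩,⟨0,[(17,0)]⟩),(⟨0,[(29,0)]⟩,⟨0,[(28,
  0)]⟩),⟨0,[(0,0)]⟩,.k,.k,(.x (-1) ⟨3,[(14,0),(0,0),(11,1),(0,3)]⟩ ⟨0,[(29,0)]⟩),(.x (-1) ⟨3,[(14,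
  0),(0,0),(11,1),(0,3)]⟩ ⟨0,[(29,0)]⟩),.k,.k,⟨false,1,⟨0,[(2,0),(28,0),(0,0)]⟩,⟨0,[(1,0),(15,0),
  (15,0)]⟩⟩,⟨true,0,⟨0,[(16,0)]⟩,⟨2,[(3,0),(13,2),(1,0),(2,1)]⟩⟩,⟨true,0,⟨0,[(37,0)]⟩,⟨0,[]⟩⟩,
  ⟨false,0,⟨0,[(1,0),(14,0),(0,0),(15,0)]⟩,⟨1,[(2,1),(3,0),(10,1),(0,0),(13,0)]⟩⟩,⟨false,0,⟨0,[]⟩,
  ⟨0,[]⟩⟩,⟨false,0,⟨0,[]⟩,⟨0,[]⟩⟩,[.o ⟨false,0,⟨0,[(33,0)]⟩,⟨1,[(27,0),(4,1),(2,0)]⟩⟩,.o ⟨false,1,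
  ⟨7,[(2,3),(11,0),(0,2),(14,3),(2,3)]⟩,⟨1,[(6,0),(11,0),(13,0)]⟩⟩,.o ⟨false,1,⟨1,[(17,1),(9,0),(6,
  0)]⟩,⟨2,[(3,0),(12,2),(2,0),(2,1)]⟩⟩,.a ⟨true,0,⟨0,[(17,0)]⟩,⟨0,[(16,0)]⟩⟩ ⟨false,1,⟨1,[(14,0),
  (19,0)]⟩,⟨0,[(1,0),(15,0)]⟩⟩ ⟨true,0,⟨0,[(16,0),(16,0)]⟩,⟨1,[(6,0),(10,1),(0,0),(13,0)]⟩⟩]⟩) (.Q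
  [0,0,-1,-1,1,0,-1,-1,-1,-1,1,1] (.p true [0,0,1] [1,0,0,-1] (⟨0,[(26,0)]⟩,⟨0,[(25,0)]⟩) .k 2 (⟨0,
  [(16,0)]⟩,⟨0,[(17,0)]⟩) .k (.r 0 ⟨0,[(1,0),(15,0),(6,0),(6,0)]⟩ ⟨1,[(5,0),(2,0),(5,0)]⟩)) (.R ⟨1,
  false,false,false,[1,0,0,-1],[0,1],[0,1,0,0,0,0,0,0,-1],(⟨0,[(17,0)]⟩,⟨0,[(18,0)]⟩),(⟨0,[(30,0)]⟩,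
  ⟨0,[(29,0)]⟩),⟨0,[(1,0)]⟩,.k,.k,(.x (-1) ⟨3,[(15,0),(0,0),(11,1),(0,3)]⟩ ⟨0,[(30,0)]⟩),(.x (-1)
  ⟨3,[(15,0),(0,0),(11,1),(0,3)]⟩ ⟨0,[(30,0)]⟩),(.x 0 ⟨0,[(4,0),(18,0),(5,1)]⟩ ⟨3,[(15,0),(0,0),(13,
  7),(4,1)]⟩),.k,⟨false,1,⟨0,[(3,0),(28,0),(0,0)]⟩,⟨0,[(2,0),(15,0),(15,0)]⟩⟩,⟨true,0,⟨0,[(17,0)]⟩,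
  ⟨2,[(4,0),(13,2),(1,0),(2,1)]⟩⟩,⟨true,0,⟨0,[(38,0)]⟩,⟨0,[]⟩⟩,⟨false,0,⟨0,[(2,0),(14,0),(0,0),(15,
  0)]⟩,⟨2,[(0,1),(2,0),(3,0),(10,0),(2,0)]⟩⟩,⟨false,0,⟨0,[(34,0)]⟩,⟨0,[(33,0),(2,0)]⟩⟩,⟨false,0,⟨0,
  [(2,0),(14,0),(0,0),(15,1)]⟩,⟨0,[(0,0),(9,0)]⟩⟩,[.o ⟨false,0,⟨0,[(34,0)]⟩,⟨1,[(28,0),(4,1),(2,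
  0)]⟩⟩,.o ⟨false,1,⟨7,[(3,3),(11,0),(0,2),(14,3),(2,3)]⟩,⟨1,[(7,0),(11,0),(13,0)]⟩⟩,.o ⟨false,1,⟨1,
  [(18,1),(9,0),(6,0)]⟩,⟨2,[(4,0),(12,2),(2,0),(2,1)]⟩⟩,.a ⟨true,0,⟨0,[(18,0)]⟩,⟨0,[(17,0)]⟩⟩
  ⟨false,1,⟨1,[(15,0),(19,0)]⟩,⟨0,[(2,0),(15,0)]⟩⟩ ⟨true,0,⟨0,[(17,0),(16,0)]⟩,⟨1,[(7,0),(10,1),(0,
  0),(13,0)]⟩⟩]⟩) (.R ⟨1,true,false,true,[1,0,0,-1],[0,0,1],[1,0,0,-1,0,0,0,0,-1],(⟨0,[(17,0)]⟩,⟨0,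
  [(18,0)]⟩),(⟨0,[(27,0)]⟩,⟨0,[(26,0)]⟩),⟨0,[(1,0)]⟩,.k,.k,(.x (-1) ⟨3,[(15,0),(0,0),(11,1),(0,3)]⟩
  ⟨0,[(30,0)]⟩),.k,(.r (-2) ⟨3,[(6,3),(8,2),(0,0)]⟩ ⟨0,[(0,0),(11,0),(5,0)]⟩),.k,⟨false,2,⟨1,[(6,1),
  (8,0),(20,0)]⟩,⟨0,[(0,0),(11,0),(5,0),(13,0)]⟩⟩,⟨true,0,⟨0,[(17,0),(5,0)]⟩,⟨0,[(12,0),(5,0)]⟩⟩,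
  ⟨false,1,⟨0,[(33,0),(2,0)]⟩,⟨0,[(34,0)]⟩⟩,⟨true,(-1),⟨0,[(0,0),(32,0)]⟩,⟨0,[(3,0),(14,0),(0,0)]⟩⟩,
  ⟨true,0,⟨0,[]⟩,⟨0,[(38,0)]⟩⟩,⟨false,(-1),⟨0,[(0,0)]⟩,⟨3,[(3,1),(2,1),(6,1),(1,0),(2,3),(0,1),(16,
  2)]⟩⟩,[]⟩)))) (.Q [0,1,1,0,-1,0,0,0,1,0,0,-1] (.p false [0,0,0,1] [] (⟨0,[(15,0)]⟩,⟨0,[(14,0)]⟩)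
  .k 0 (⟨0,[]⟩,⟨0,[]⟩) .k .k) (.K ⟨0,[0,0,0,1],0,(-1),(⟨0,[(16,0)]⟩,⟨0,[(15,0)]⟩),.k,(.x 0 ⟨0,[(18,
  0),(2,0),(5,0)]⟩ ⟨0,[(28,0),(4,0)]⟩),(.x 0 ⟨0,[(28,0)]⟩ ⟨3,[(13,0),(0,0),(11,1),(0,3)]⟩),.k,.k,
  [⟨0,[(16,0)]⟩,⟨0,[(15,0)]⟩,⟨1,[(13,0),(2,1),(16,0),(2,1)]⟩,⟨0,[(0,0)]⟩]⟩) (.R ⟨0,false,false,true,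
  [1,0,-1],[0,0,0,1],[0,0,1],(⟨0,[(24,0)]⟩,⟨0,[(25,0)]⟩),(⟨0,[(16,0)]⟩,⟨0,[(15,0)]⟩),⟨0,[(3,0)]⟩,.k,
  .k,.k,.k,.k,.k,⟨false,1,⟨1,[(13,0),(20,0)]⟩,⟨0,[(1,0),(31,0)]⟩⟩,⟨true,0,⟨0,[(15,0),(5,0)]⟩,⟨0,
  [(10,0),(5,0)]⟩⟩,⟨false,0,⟨0,[(8,0),(1,0),(4,0),(0,0),(12,0)]⟩,⟨1,[(4,0),(2,0),(25,0)]⟩⟩,⟨true,
  (-1),⟨0,[(1,0),(7,0),(5,0)]⟩,⟨0,[(0,0),(16,0)]⟩⟩,⟨false,0,⟨0,[]⟩,⟨0,[]⟩⟩,⟨false,0,⟨0,[]⟩,⟨0,[]⟩⟩,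
  [.a ⟨true,(-1),⟨0,[(1,0),(13,0)]⟩,⟨0,[(0,0)]⟩⟩ ⟨true,0,⟨1,[(21,0),(0,0)]⟩,⟨0,[]⟩⟩ ⟨false,0,⟨0,[(1,
  0),(13,0),(5,0),(11,0)]⟩,⟨0,[(0,0),(9,0)]⟩⟩,.o ⟨false,0,⟨1,[(1,1),(13,1),(10,0),(7,0)]⟩,⟨4,[(0,2),
  (1,0),(2,0),(1,0),(5,0),(2,1),(9,0),(3,2)]⟩⟩,.o ⟨false,0,⟨0,[(10,0)]⟩,⟨7,[(4,3),(2,3),(4,3),(0,0),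
  (0,0),(11,1)]⟩⟩,.o ⟨false,0,⟨0,[(18,0)]⟩,⟨0,[(21,0),(11,0)]⟩⟩]⟩)))) (.Q [0,0,2,0,-1,0,-1,0,0,0,1]
  (.p true [0,0,1] [] (⟨0,[(22,0)]⟩,⟨0,[(21,0)]⟩) .k 0 (⟨0,[]⟩,⟨0,[]⟩) .k .k) (.K ⟨2,[0,1,1],1,0,
  (⟨0,[(23,0),(2,0)]⟩,⟨0,[(1,0)]⟩),.k,.k,(.r 1 ⟨0,[(0,0),(6,0),(22,1)]⟩ ⟨1,[(2,1),(26,1),(1,0),(0,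
  0)]⟩),.k,.k,[⟨0,[(30,0)]⟩,⟨0,[(0,0),(1,0),(25,0)]⟩,⟨0,[(0,0)]⟩,⟨7,[(2,3),(2,3),(4,3),(0,0),(0,0),
  (11,1)]⟩]⟩) (.Q [0,1,-1,0,0,0,0,0,-1,0,0,1] (.p true [0,0,0,1] [] (⟨0,[(14,0)]⟩,⟨0,[(13,0)]⟩) .k
  0 (⟨0,[]⟩,⟨0,[]⟩) .k .k) (.Q [0,1,1,0,0,0,0,0,1,0,0,-1] (.p false [0,0,0,1] [] (⟨0,[(15,0)]⟩,⟨0,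
  [(14,0)]⟩) .k 0 (⟨0,[]⟩,⟨0,[]⟩) .k .k) (.K ⟨0,[0,0,0,1],0,0,(⟨0,[(16,0)]⟩,⟨0,[(15,0)]⟩),.k,(.x 0
  ⟨0,[(18,0),(2,0),(5,0)]⟩ ⟨0,[(28,0),(4,0)]⟩),(.x 0 ⟨0,[(28,0)]⟩ ⟨3,[(13,0),(0,0),(11,1),(0,3)]⟩),
  .k,.k,[⟨0,[(16,0)]⟩,⟨0,[(15,0)]⟩,⟨0,[(1,0)]⟩,⟨0,[(0,0)]⟩]⟩) (.Q [0,0,0,0,0,1,0,0,0,-1,0,1] (.p
  true [0,0,0,1] [1] (⟨0,[(16,0)]⟩,⟨0,[(15,0)]⟩) .k 1 (⟨0,[]⟩,⟨0,[]⟩) .k .k) (.R ⟨0,false,false,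
  false,[1,0,0,-1],[0,1],[0,1,0,0,0,0,0,0,-1],(⟨0,[(16,0)]⟩,⟨0,[(17,0)]⟩),(⟨0,[(29,0)]⟩,⟨0,[(28,
  0)]⟩),⟨0,[(0,0)]⟩,.k,.k,(.x (-1) ⟨3,[(14,0),(0,0),(11,1),(0,3)]⟩ ⟨0,[(29,0)]⟩),(.x (-1) ⟨3,[(14,
  0),(0,0),(11,1),(0,3)]⟩ ⟨0,[(29,0)]⟩),.k,.k,⟨false,0,⟨1,[(1,1),(4,0),(9,1),(1,0),(12,1),(0,0)]⟩,
  ⟨3,[(14,0),(0,2),(14,3)]⟩⟩,⟨true,0,⟨0,[(16,0)]⟩,⟨1,[(6,0),(1,0),(8,1),(1,0)]⟩⟩,⟨true,0,⟨0,[(37,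
  0)]⟩,⟨0,[]⟩⟩,⟨false,1,⟨3,[(14,0),(0,2),(0,3),(13,3)]⟩,⟨1,[(1,1),(4,0),(11,0),(13,0)]⟩⟩,⟨false,0,
  ⟨0,[]⟩,⟨0,[]⟩⟩,⟨false,0,⟨0,[]⟩,⟨0,[]⟩⟩,[.o ⟨false,0,⟨0,[(33,0)]⟩,⟨1,[(27,0),(4,1),(2,0)]⟩⟩,.o
  ⟨false,1,⟨3,[(14,0),(0,0),(17,3),(1,1)]⟩,⟨1,[(6,0),(11,0),(13,0)]⟩⟩,.o ⟨false,1,⟨1,[(17,1),(9,0),
  (6,0)]⟩,⟨1,[(6,0),(1,0),(7,1),(2,0)]⟩⟩,.a ⟨true,0,⟨0,[(17,0)]⟩,⟨0,[(16,0)]⟩⟩ ⟨false,0,⟨3,[(1,2),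
  (0,0),(3,1),(9,3),(1,1),(14,1)]⟩,⟨1,[(15,0),(6,0),(0,0),(11,0)]⟩⟩ ⟨true,0,⟨0,[(16,0),(16,0)]⟩,⟨1,
  [(6,0),(10,1),(0,0),(13,0)]⟩⟩]⟩) (.Q [0,0,-1,-1,0,0,-1,-1,-1,-1,1,1] (.p true [0,0,1] [1,0,0,-1]
  (⟨0,[(26,0)]⟩,⟨0,[(25,0)]⟩) .k 2 (⟨0,[(16,0)]⟩,⟨0,[(17,0)]⟩) .k (.r (-1) ⟨3,[(14,0),(0,2),(8,3)]⟩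
  ⟨0,[(1,0),(14,0),(1,0),(3,0)]⟩)) (.R ⟨1,false,false,false,[1,0,0,-1],[0,0,1],[0,1,0,0,0,0,0,0,-1],
  (⟨0,[(17,0)]⟩,⟨0,[(18,0)]⟩),(⟨0,[(27,0)]⟩,⟨0,[(26,0)]⟩),⟨0,[(1,0)]⟩,.k,.k,(.x (-1) ⟨3,[(15,0),(0,
  0),(11,1),(0,3)]⟩ ⟨0,[(30,0)]⟩),.k,(.x 0 ⟨0,[(5,0),(6,0)]⟩ ⟨2,[(4,0),(10,0),(0,0),(6,1),(3,2),(2,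
  2)]⟩),.k,⟨false,0,⟨3,[(0,1),(1,0),(0,0),(3,1),(1,3),(7,3),(14,3)]⟩,⟨1,[(16,0),(8,1),(10,0)]⟩⟩,
  ⟨true,0,⟨0,[(17,0),(5,0)]⟩,⟨0,[(12,0),(5,0)]⟩⟩,⟨true,0,⟨0,[(38,0)]⟩,⟨0,[]⟩⟩,⟨false,1,⟨1,[(14,0),
  (1,0),(0,1),(2,0),(2,0),(12,0)]⟩,⟨0,[(2,0),(16,0)]⟩⟩,⟨false,0,⟨0,[(34,0)]⟩,⟨0,[(33,0),(2,0)]⟩⟩,
  ⟨false,1,⟨7,[(14,3),(0,0),(0,4),(0,7),(10,1),(2,7)]⟩,⟨0,[(0,0)]⟩⟩,[.o ⟨false,0,⟨0,[(11,0)]⟩,⟨1,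
  [(22,1),(5,0),(7,0)]⟩⟩,.o ⟨false,1,⟨7,[(14,3),(0,0),(0,0),(11,1),(7,3)]⟩,⟨0,[(19,0)]⟩⟩,.o ⟨false,
  1,⟨1,[(18,1),(9,0),(6,0)]⟩,⟨1,[(7,0),(1,0),(7,1),(2,0)]⟩⟩,.a ⟨true,0,⟨0,[(18,0)]⟩,⟨0,[(17,0)]⟩⟩
  ⟨false,0,⟨3,[(2,2),(0,0),(3,1),(9,3),(1,1),(14,1)]⟩,⟨1,[(16,0),(6,0),(0,0),(11,0)]⟩⟩ ⟨true,0,⟨0,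
  [(11,0),(5,0)]⟩,⟨0,[(18,0),(0,0)]⟩⟩]⟩) (.R ⟨1,true,false,false,[1,0,-1],[0,0,0,1],[0,1,0,0,0,0,0,
  -1],(⟨0,[(26,0)]⟩,⟨0,[(27,0)]⟩),(⟨0,[(18,0)]⟩,⟨0,[(17,0)]⟩),⟨0,[(5,0)]⟩,.k,.k,.k,.k,(.r (-1) ⟨7,
  [(2,3),(3,5),(0,0),(7,1),(1,3),(1,2),(3,1),(9,0)]⟩ ⟨0,[(0,0),(11,0),(5,0)]⟩),.k,⟨false,0,⟨0,[(2,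
  0),(14,0),(1,0),(3,0),(8,0)]⟩,⟨1,[(16,0),(8,1),(10,0)]⟩⟩,⟨true,0,⟨0,[(17,0),(5,0)]⟩,⟨0,[(12,0),(5,
  0)]⟩⟩,⟨true,0,⟨0,[(38,0)]⟩,⟨0,[]⟩⟩,⟨false,1,⟨0,[(0,0),(32,0),(2,0)]⟩,⟨0,[(2,0),(16,0)]⟩⟩,⟨false,0,
  ⟨0,[(34,0)]⟩,⟨0,[(33,0),(2,0)]⟩⟩,⟨true,0,⟨0,[(0,0)]⟩,⟨0,[(2,0),(16,0),(13,0)]⟩⟩,[]⟩)))) (.Q [0,1,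
  1,0,-1,0,0,0,1,0,0,-1] (.p false [0,0,0,1] [] (⟨0,[(15,0)]⟩,⟨0,[(14,0)]⟩) .k 0 (⟨0,[]⟩,⟨0,[]⟩) .k
  .k) (.K ⟨0,[0,0,0,1],0,(-1),(⟨0,[(16,0)]⟩,⟨0,[(15,0)]⟩),.k,(.x 0 ⟨0,[(18,0),(2,0),(5,0)]⟩ ⟨0,[(28,
  0),(4,0)]⟩),(.x 0 ⟨0,[(28,0)]⟩ ⟨3,[(13,0),(0,0),(11,1),(0,3)]⟩),.k,.k,[⟨0,[(16,0)]⟩,⟨0,[(15,0)]⟩,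
  ⟨1,[(13,0),(2,1),(16,0),(2,1)]⟩,⟨0,[(0,0)]⟩]⟩) (.Q [0,0,0,0,0,1,0,0,0,-1,0,1] (.p true [0,0,0,1]
  [1] (⟨0,[(16,0)]⟩,⟨0,[(15,0)]⟩) .k 1 (⟨0,[]⟩,⟨0,[]⟩) .k .k) (.R ⟨0,false,false,false,[1,0,0,-1],
  [0,1],[0,1,0,0,0,0,0,0,-1],(⟨0,[(16,0)]⟩,⟨0,[(17,0)]⟩),(⟨0,[(29,0)]⟩,⟨0,[(28,0)]⟩),⟨0,[(0,0)]⟩,.k,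
  .k,(.x (-1) ⟨3,[(14,0),(0,0),(11,1),(0,3)]⟩ ⟨0,[(29,0)]⟩),(.x (-1) ⟨3,[(14,0),(0,0),(11,1),(0,
  3)]⟩ ⟨0,[(29,0)]⟩),.k,.k,⟨false,1,⟨1,[(1,1),(4,0),(9,1),(1,0),(12,1),(0,0)]⟩,⟨0,[(2,0),(14,0),(15,
  0)]⟩⟩,⟨true,0,⟨0,[(16,0)]⟩,⟨1,[(6,0),(1,0),(8,1),(1,0)]⟩⟩,⟨true,0,⟨0,[(37,0)]⟩,⟨0,[]⟩⟩,⟨false,0,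
  ⟨0,[(2,0),(13,0),(0,0),(15,0)]⟩,⟨1,[(1,1),(4,0),(11,0),(13,0)]⟩⟩,⟨false,0,⟨0,[]⟩,⟨0,[]⟩⟩,⟨false,0,
  ⟨0,[]⟩,⟨0,[]⟩⟩,[.o ⟨false,0,⟨0,[(33,0)]⟩,⟨1,[(27,0),(4,1),(2,0)]⟩⟩,.o ⟨false,1,⟨3,[(14,0),(0,0),
  (17,3),(1,1)]⟩,⟨1,[(6,0),(11,0),(13,0)]⟩⟩,.o ⟨false,1,⟨1,[(17,1),(9,0),(6,0)]⟩,⟨1,[(6,0),(1,0),(7,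
  1),(2,0)]⟩⟩,.a ⟨true,0,⟨0,[(17,0)]⟩,⟨0,[(16,0)]⟩⟩ ⟨false,1,⟨1,[(14,0),(19,0)]⟩,⟨0,[(2,0),(14,
  0)]⟩⟩ ⟨true,0,⟨0,[(16,0),(16,0)]⟩,⟨1,[(6,0),(10,1),(0,0),(13,0)]⟩⟩]⟩) (.Q [0,-1,-1,-2,1,0,1,1,-1,
  -1,-1,1] (.p false [1,-1,1] [0,0,0,1] (⟨0,[(26,0),(1,0)]⟩,⟨0,[(7,0)]⟩) .k 2 (⟨0,[(17,0)]⟩,⟨0,[(16,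
  0)]⟩) .k (.x (-1) ⟨5,[(3,3),(10,0),(0,0),(6,1),(3,5)]⟩ ⟨0,[(19,0),(5,0)]⟩)) (.R ⟨1,false,false,
  false,[1,0,0,-1],[0,1],[0,1,0,0,0,0,0,0,-1],(⟨0,[(17,0)]⟩,⟨0,[(18,0)]⟩),(⟨0,[(30,0)]⟩,⟨0,[(29,
  0)]⟩),⟨0,[(1,0)]⟩,.k,.k,(.x (-1) ⟨3,[(15,0),(0,0),(11,1),(0,3)]⟩ ⟨0,[(30,0)]⟩),(.x (-1) ⟨3,[(15,
  0),(0,0),(11,1),(0,3)]⟩ ⟨0,[(30,0)]⟩),(.x 0 ⟨0,[(7,0),(11,0),(9,1),(1,0)]⟩ ⟨3,[(15,0),(0,0),(13,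
  7),(4,1)]⟩),.k,⟨false,1,⟨3,[(0,0),(1,0),(3,0),(6,0),(1,0),(1,1),(14,4)]⟩,⟨0,[(3,0),(14,0),(15,
  0)]⟩⟩,⟨true,0,⟨0,[(17,0)]⟩,⟨1,[(7,0),(1,0),(8,1),(1,0)]⟩⟩,⟨true,0,⟨0,[(38,0)]⟩,⟨0,[]⟩⟩,⟨false,0,
  ⟨0,[(3,0),(13,0),(0,0),(15,0)]⟩,⟨4,[(0,1),(1,0),(1,0),(8,0),(1,0),(2,1),(0,1)]⟩⟩,⟨false,0,⟨0,[(34,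
  0)]⟩,⟨0,[(33,0),(2,0)]⟩⟩,⟨false,0,⟨0,[(3,0),(13,0),(0,0),(15,1)]⟩,⟨0,[(0,0),(21,0)]⟩⟩,[.o ⟨false,
  0,⟨0,[(34,0)]⟩,⟨9,[(0,1),(2,1),(2,1),(8,0),(0,0),(7,1),(3,3),(4,3)]⟩⟩,.o ⟨false,1,⟨3,[(15,0),(0,
  0),(17,3),(1,1)]⟩,⟨1,[(7,0),(11,0),(13,0)]⟩⟩,.o ⟨false,1,⟨1,[(18,1),(9,0),(6,0)]⟩,⟨1,[(7,0),(1,0),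
  (7,1),(2,0)]⟩⟩,.a ⟨true,0,⟨0,[(18,0)]⟩,⟨0,[(17,0)]⟩⟩ ⟨false,1,⟨1,[(15,0),(19,0)]⟩,⟨0,[(3,0),(14,
  0)]⟩⟩ ⟨true,0,⟨0,[(17,0),(16,0)]⟩,⟨1,[(7,0),(10,1),(0,0),(13,0)]⟩⟩]⟩) (.Q [0,0,1,1,-1,0,1,1,1,1,
  -1,-1] (.p false [0,0,1] [1,0,0,-1] (⟨0,[(27,0)]⟩,⟨0,[(26,0)]⟩) .k 2 (⟨0,[(17,0)]⟩,⟨0,[(18,0)]⟩)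
  .k (.r 0 ⟨0,[(3,0),(14,0),(6,0),(6,0)]⟩ ⟨1,[(6,0),(2,0),(5,0)]⟩)) (.R ⟨1,true,false,true,[1,0,-1],
  [0,0,0,1],[1,0,0,-1,0,0,0,-1],(⟨0,[(27,0)]⟩,⟨0,[(28,0)]⟩),(⟨0,[(19,0)]⟩,⟨0,[(18,0)]⟩),⟨0,[(6,0)]⟩,
  .k,.k,.k,.k,(.r (-2) ⟨3,[(7,3),(8,2),(0,0)]⟩ ⟨0,[(0,0),(12,0),(5,0)]⟩),.k,⟨false,2,⟨1,[(7,1),(8,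
  0),(20,0)]⟩,⟨0,[(0,0),(12,0),(5,0),(13,0)]⟩⟩,⟨true,0,⟨0,[(18,0),(5,0)]⟩,⟨0,[(13,0),(5,0)]⟩⟩,
  ⟨false,1,⟨0,[(34,0),(2,0)]⟩,⟨0,[(35,0)]⟩⟩,⟨true,(-1),⟨0,[(0,0),(33,0)]⟩,⟨0,[(3,0),(16,0)]⟩⟩,⟨true,
  0,⟨0,[]⟩,⟨0,[(39,0)]⟩⟩,⟨false,(-1),⟨0,[(0,0)]⟩,⟨0,[(3,0),(3,0),(13,0)]⟩⟩,[]⟩) (.R ⟨1,false,false,
  false,[1,0,0,-1],[0,1],[0,1,0,0,0,0,0,0,-1],(⟨0,[(18,0)]⟩,⟨0,[(19,0)]⟩),(⟨0,[(31,0)]⟩,⟨0,[(30,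
  0)]⟩),⟨0,[(2,0)]⟩,.k,.k,(.x (-1) ⟨3,[(16,0),(0,0),(11,1),(0,3)]⟩ ⟨0,[(31,0)]⟩),(.x (-1) ⟨3,[(16,
  0),(0,0),(11,1),(0,3)]⟩ ⟨0,[(31,0)]⟩),(.r (-2) ⟨7,[(0,5),(6,3),(3,1),(2,3),(0,3),(0,0),(1,5),(17,
  2),(0,1)]⟩ ⟨0,[(1,0),(6,0),(10,0),(12,0)]⟩),.k,⟨false,1,⟨3,[(0,1),(10,1),(4,0),(1,1),(14,3),(2,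
  0)]⟩,⟨0,[(4,0),(14,0),(15,0)]⟩⟩,⟨true,0,⟨0,[(18,0)]⟩,⟨1,[(8,0),(1,0),(8,1),(1,0)]⟩⟩,⟨true,0,⟨0,
  [(39,0)]⟩,⟨0,[]⟩⟩,⟨false,0,⟨3,[(1,1),(2,1),(10,0),(2,0),(0,0),(17,1)]⟩,⟨2,[(0,1),(2,0),(4,0),(13,
  0)]⟩⟩,⟨false,0,⟨0,[(35,0)]⟩,⟨0,[(34,0),(2,0)]⟩⟩,⟨false,0,⟨2,[(1,1),(2,0),(10,0),(19,1),(1,1)]⟩,⟨0,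
  [(0,0),(10,0)]⟩⟩,[.o ⟨false,0,⟨0,[(35,0)]⟩,⟨1,[(29,0),(4,1),(2,0)]⟩⟩,.o ⟨false,1,⟨3,[(16,0),(0,0),
  (17,3),(1,1)]⟩,⟨1,[(8,0),(11,0),(13,0)]⟩⟩,.o ⟨false,1,⟨1,[(19,1),(9,0),(6,0)]⟩,⟨1,[(8,0),(1,0),(7,
  1),(2,0)]⟩⟩,.a ⟨true,0,⟨0,[(19,0)]⟩,⟨0,[(18,0)]⟩⟩ ⟨false,1,⟨1,[(16,0),(19,0)]⟩,⟨0,[(4,0),(14,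
  0)]⟩⟩ ⟨true,0,⟨0,[(18,0),(16,0)]⟩,⟨1,[(8,0),(10,1),(0,0),(13,0)]⟩⟩]⟩)))))))) (.I [1,0,1,2,-1] (.R
  ⟨2,true,false,true,[0,1],[1,-1],[0,1,0,-1],(⟨0,[]⟩,⟨0,[]⟩),(⟨0,[(24,0)]⟩,⟨0,[(25,0)]⟩),⟨0,[]⟩,.k,
  .k,.k,(.r 1 ⟨0,[(1,0),(2,0)]⟩ ⟨0,[(28,1),(1,0),(0,0)]⟩),.k,.k,⟨true,0,⟨1,[(18,0),(0,0)]⟩,⟨0,[]⟩⟩,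
  ⟨false,0,⟨1,[(2,0),(1,0),(10,0)]⟩,⟨0,[(12,0),(0,0),(16,0)]⟩⟩,⟨true,1,⟨1,[(28,3),(1,0),(0,0)]⟩,⟨0,
  [(0,0)]⟩⟩,⟨false,1,⟨1,[(2,0),(11,0),(13,2),(2,1)]⟩,⟨1,[(0,1),(11,1),(0,1),(16,0),(0,0)]⟩⟩,⟨false,
  1,⟨1,[(28,1),(1,0),(0,0)]⟩,⟨0,[(26,0)]⟩⟩,⟨true,0,⟨1,[(2,0),(11,0),(13,0)]⟩,⟨0,[(12,0),(0,0),(15,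
  0)]⟩⟩,[]⟩) (.Q [0,-1,0,1,0,0,1,1,0,1,-1] (.p false [0,0,1] [1] (⟨0,[(22,0)]⟩,⟨0,[(21,0)]⟩) .k 1
  (⟨0,[]⟩,⟨0,[]⟩) .k .k) (.R ⟨2,true,false,true,[0,1],[1,0,-1],[0,1,1,1],(⟨0,[]⟩,⟨0,[]⟩),(⟨0,[(22,
  0)]⟩,⟨0,[(23,0)]⟩),⟨0,[]⟩,.k,.k,.k,.k,.k,.k,⟨true,(-1),⟨0,[(2,0)]⟩,⟨0,[(1,0),(3,0)]⟩⟩,⟨false,0,⟨0,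
  [(8,0)]⟩,⟨0,[(13,0),(0,0),(4,0),(11,0)]⟩⟩,⟨true,0,⟨0,[(34,0)]⟩,⟨0,[]⟩⟩,⟨false,1,⟨2,[(1,1),(3,0),
  (9,1),(0,0),(15,0)]⟩,⟨0,[(0,0)]⟩⟩,⟨false,0,⟨0,[(30,0)]⟩,⟨3,[(1,1),(17,0),(0,0),(11,1)]⟩⟩,⟨true,0,
  ⟨0,[(15,0)]⟩,⟨1,[(10,0),(2,0),(0,0)]⟩⟩,[]⟩) (.Q [0,1,-1,0,0,0,0,0,-1,0,0,1] (.p true [0,0,0,1] []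
  (⟨0,[(14,0)]⟩,⟨0,[(13,0)]⟩) .k 0 (⟨0,[]⟩,⟨0,[]⟩) .k .k) (.K ⟨0,[0,0,0,1],0,0,(⟨0,[(15,0)]⟩,⟨0,
  [(14,0)]⟩),.k,(.x 0 ⟨0,[(17,0),(2,0),(5,0)]⟩ ⟨0,[(27,0),(4,0)]⟩),(.x 0 ⟨0,[(27,0)]⟩ ⟨3,[(12,0),(0,
  0),(11,1),(0,3)]⟩),.k,.k,[⟨0,[(15,0)]⟩,⟨0,[(14,0)]⟩,⟨0,[(0,0)]⟩,⟨5,[(1,1),(1,2),(0,0),(8,2),(0,5),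
  (1,2),(1,0),(1,2)]⟩]⟩) (.Q [0,1,1,0,-1,0,0,0,1,0,0,-1] (.p false [0,0,0,1] [] (⟨0,[(15,0)]⟩,⟨0,
  [(14,0)]⟩) .k 0 (⟨0,[]⟩,⟨0,[]⟩) .k .k) (.K ⟨0,[0,0,0,1],0,(-1),(⟨0,[(16,0)]⟩,⟨0,[(15,0)]⟩),.k,(.r
  (-1) ⟨3,[(0,0),(0,0),(1,1),(10,0),(1,1),(16,1)]⟩ ⟨1,[(4,0),(2,0),(5,0)]⟩),(.x 0 ⟨0,[(28,0)]⟩ ⟨3,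
  [(13,0),(0,0),(11,1),(0,3)]⟩),.k,.k,[⟨0,[(16,0)]⟩,⟨0,[(15,0)]⟩,⟨1,[(13,0),(2,1),(16,0),(2,1)]⟩,⟨0,
  [(0,0)]⟩]⟩) (.Q [0,0,0,0,0,1,0,0,0,-1,0,1] (.p true [0,0,0,1] [1] (⟨0,[(16,0)]⟩,⟨0,[(15,0)]⟩) .k
  1 (⟨0,[]⟩,⟨0,[]⟩) .k .k) (.R ⟨0,false,false,false,[1,0,0,-1],[0,1],[0,1,0,0,0,0,0,0,-1],(⟨0,[(16,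
  0)]⟩,⟨0,[(17,0)]⟩),(⟨0,[(29,0)]⟩,⟨0,[(28,0)]⟩),⟨0,[(0,0)]⟩,.k,.k,(.x (-1) ⟨3,[(14,0),(0,0),(11,1),
  (0,3)]⟩ ⟨0,[(29,0)]⟩),(.x (-1) ⟨3,[(14,0),(0,0),(11,1),(0,3)]⟩ ⟨0,[(29,0)]⟩),.k,.k,⟨false,1,⟨3,
  [(1,1),(1,0),(0,0),(1,0),(7,0),(1,1),(14,4)]⟩,⟨0,[(2,0),(14,0),(15,0)]⟩⟩,⟨true,0,⟨0,[(16,0)]⟩,⟨1,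
  [(6,0),(1,0),(8,1),(1,0)]⟩⟩,⟨true,0,⟨0,[(37,0)]⟩,⟨0,[]⟩⟩,⟨false,0,⟨0,[(2,0),(13,0),(0,0),(15,0)]⟩,
  ⟨2,[(1,2),(1,1),(2,0),(13,0)]⟩⟩,⟨false,0,⟨0,[]⟩,⟨0,[]⟩⟩,⟨false,0,⟨0,[]⟩,⟨0,[]⟩⟩,[.o ⟨false,0,⟨0,
  [(33,0)]⟩,⟨3,[(4,1),(17,0),(0,0),(3,1)]⟩⟩,.o ⟨false,1,⟨3,[(14,0),(0,0),(17,3),(1,1)]⟩,⟨2,[(3,1),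
  (2,0),(13,0)]⟩⟩,.o ⟨false,1,⟨1,[(17,1),(9,0),(6,0)]⟩,⟨5,[(2,1),(0,1),(1,1),(8,0),(1,3),(5,1),(4,
  0)]⟩⟩,.a ⟨true,0,⟨0,[(17,0)]⟩,⟨0,[(16,0)]⟩⟩ ⟨false,1,⟨1,[(14,0),(19,0)]⟩,⟨0,[(2,0),(14,0)]⟩⟩
  ⟨true,0,⟨0,[(16,0),(16,0)]⟩,⟨2,[(3,1),(2,0),(10,2),(2,0)]⟩⟩]⟩) (.R ⟨1,false,false,true,[1,0,0,-1],
  [1,-1],[1,1,0,-1,0,0,0,0,-1],(⟨0,[(16,0)]⟩,⟨0,[(17,0)]⟩),(⟨0,[(28,0)]⟩,⟨0,[(29,0)]⟩),⟨0,[(0,0)]⟩,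
  .k,.k,(.x (-1) ⟨3,[(14,0),(0,0),(11,1),(0,3)]⟩ ⟨0,[(29,0)]⟩),(.r 0 ⟨1,[(5,0),(2,0),(5,0)]⟩ ⟨3,[(2,
  1),(1,1),(10,0),(1,1),(13,1),(2,0)]⟩),.k,.k,⟨true,0,⟨0,[(1,0),(1,0),(1,0),(10,0),(5,0)]⟩,⟨0,[(2,
  0),(14,0),(13,0)]⟩⟩,⟨false,0,⟨5,[(2,1),(0,1),(1,1),(8,0),(1,3),(5,1),(4,0)]⟩,⟨0,[(17,0),(16,0)]⟩⟩,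
  ⟨true,0,⟨0,[(32,0)]⟩,⟨0,[(33,0)]⟩⟩,⟨false,0,⟨0,[(2,0),(29,0)]⟩,⟨0,[(1,0),(31,0)]⟩⟩,⟨false,0,⟨0,
  []⟩,⟨3,[(14,0),(0,0),(19,1)]⟩⟩,⟨false,0,⟨0,[(2,0),(34,0)]⟩,⟨0,[(1,0)]⟩⟩,[.o ⟨false,0,⟨2,[(3,1),(2,
  0),(13,0)]⟩,⟨3,[(14,0),(0,0),(17,3),(1,1)]⟩⟩,.o ⟨false,1,⟨3,[(4,1),(17,0),(0,0),(3,1)]⟩,⟨0,[(33,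
  0)]⟩⟩,.o ⟨false,1,⟨1,[(17,1),(9,0),(6,0)]⟩,⟨5,[(2,1),(0,1),(1,1),(8,0),(1,3),(5,1),(4,0)]⟩⟩,.a
  ⟨true,0,⟨0,[(17,0)]⟩,⟨0,[(16,0)]⟩⟩ ⟨false,1,⟨3,[(1,1),(1,0),(0,0),(1,0),(7,0),(1,1),(14,0)]⟩,⟨0,
  [(2,0),(14,0),(15,0)]⟩⟩ ⟨true,0,⟨2,[(3,1),(2,0),(9,2),(3,0)]⟩,⟨0,[(17,0),(15,0)]⟩⟩]⟩))))))))

theorem ok4 : chk (cU (-1) true 3) t4 l5 = true := by decide +kernel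

noncomputable def l6 : List Con := (false, [0,1,0,2,-1,0,0,0,0,1]) :: r5

noncomputable def r6 : List Con := (false, [0,-1,0,-2,1,0,0,0,0,-1]) :: r5

noncomputable def t5 : Tre :=
  (.I [0,1,1,1,-1] (.R ⟨2,true,false,false,[0,1],[1,-1],[0,1],(⟨0,[]⟩,⟨0,[]⟩),(⟨0,[(23,0)]⟩,⟨0,[(24,
  0)]⟩),⟨0,[]⟩,.k,.k,.k,(.r 1 ⟨0,[(0,0),(24,0)]⟩ ⟨0,[(27,1),(1,0),(0,0)]⟩),.k,.k,⟨true,(-1),⟨0,[(0,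
  0)]⟩,⟨0,[(27,0),(2,0)]⟩⟩,⟨false,0,⟨0,[(6,0),(10,0)]⟩,⟨0,[(11,0),(0,0),(16,0)]⟩⟩,⟨false,1,⟨1,[(27,
  1),(1,0),(0,0)]⟩,⟨0,[(25,0)]⟩⟩,⟨true,1,⟨0,[(4,0),(8,0),(13,0),(2,0)]⟩,⟨0,[(1,0)]⟩⟩,⟨true,0,⟨0,
  [(26,0)]⟩,⟨1,[(17,0),(0,0)]⟩⟩,⟨false,1,⟨0,[(4,0),(8,0),(16,0)]⟩,⟨7,[(1,3),(7,0),(0,0),(0,3),(0,3),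
  (17,1)]⟩⟩,[]⟩) (.R ⟨1,true,false,false,[0,0,1],[0,1],[0,1,1],(⟨0,[(21,0)]⟩,⟨0,[(20,0)]⟩),(⟨0,[(24,
  0)]⟩,⟨0,[(23,0)]⟩),⟨0,[(2,0)]⟩,.k,.k,.k,.k,(.r (-1) ⟨0,[(0,1),(0,0),(2,0),(2,0)]⟩ ⟨27,[(1,3),(1,
  35),(5,0),(0,0),(4,7),(2,7),(3,1),(2,11)]⟩),.k,⟨true,0,⟨0,[(27,0)]⟩,⟨0,[(25,0)]⟩⟩,⟨false,1,⟨2,[(0,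
  2),(0,1),(4,0),(0,0),(10,0),(10,1)]⟩,⟨0,[(17,0)]⟩⟩,⟨true,0,⟨0,[(3,0),(23,0)]⟩,⟨0,[(0,0),(0,0),(2,
  0),(1,0)]⟩⟩,⟨false,1,⟨3,[(1,1),(14,3),(5,0),(7,4)]⟩,⟨0,[(4,0)]⟩⟩,⟨false,0,⟨0,[(3,0)]⟩,⟨0,[(0,0),
  (18,0)]⟩⟩,⟨true,0,⟨0,[(1,0),(11,0),(16,0)]⟩,⟨0,[(4,0),(22,0)]⟩⟩,[]⟩))

theorem ok5 : chk (cU (-1) true 3) t5 l6 = true := by decide +kernel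

noncomputable def l7 : List Con := (true, [1,-1,2,1,0,0,0,-1]) :: r6

noncomputable def r7 : List Con := (true, [0,1,-2,-1,0,0,0,1]) :: r6

noncomputable def t6 : Tre :=
  (.Q [0,1,1,0,-1,0,0,0,1,0,0,-1] (.p false [0,0,0,1] [] (⟨0,[(12,0)]⟩,⟨0,[(11,0)]⟩) .k 0 (⟨0,[]⟩,
  ⟨0,[]⟩) .k .k) (.K ⟨0,[0,0,0,1],0,(-1),(⟨0,[(13,0)]⟩,⟨0,[(12,0)]⟩),.k,(.x 0 ⟨0,[(15,0),(2,0),(5,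
  0)]⟩ ⟨0,[(25,0),(4,0)]⟩),(.x 0 ⟨0,[(25,0)]⟩ ⟨3,[(10,0),(0,0),(11,1),(0,3)]⟩),.k,.k,[⟨0,[(13,0)]⟩,
  ⟨0,[(12,0)]⟩,⟨1,[(10,0),(2,1),(16,0),(2,1)]⟩,⟨0,[(0,0)]⟩]⟩) (.Q [0,0,0,2,0,0,-1,-1,0,0,1] (.p
  true [0,0,1] [] (⟨0,[(22,0)]⟩,⟨0,[(21,0)]⟩) .k 0 (⟨0,[]⟩,⟨0,[]⟩) .k .k) (.I [0,0,-2,-2,1,0,0,1]
  (.R ⟨1,true,false,false,[0,0,1],[0,1],[0,1,0,0,0,0,0,1],(⟨0,[(24,0)]⟩,⟨0,[(23,0)]⟩),(⟨0,[(27,0)]⟩,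
  ⟨0,[(26,0)]⟩),⟨0,[(5,0)]⟩,.k,.k,.k,.k,(.r (-1) ⟨0,[(0,0)]⟩ ⟨4,[(1,1),(1,2),(2,2),(11,2),(2,0)]⟩),
  .k,⟨true,0,⟨0,[(7,0),(1,0),(4,0),(0,0),(13,0)]⟩,⟨0,[(3,0)]⟩⟩,⟨false,1,⟨0,[(0,0),(0,0)]⟩,⟨0,[(20,
  0)]⟩⟩,⟨true,0,⟨0,[(35,0)]⟩,⟨0,[]⟩⟩,⟨false,1,⟨7,[(1,3),(10,0),(0,0),(5,3),(13,5)]⟩,⟨0,[(7,0)]⟩⟩,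
  ⟨false,0,⟨0,[(31,0)]⟩,⟨0,[(30,0),(2,0)]⟩⟩,⟨true,0,⟨0,[(1,0)]⟩,⟨0,[(7,0),(22,0)]⟩⟩,[]⟩) (.R ⟨1,
  true,false,false,[0,0,1],[0,1],[0,1,0,0,0,0,0,1],(⟨0,[(24,0)]⟩,⟨0,[(23,0)]⟩),(⟨0,[(27,0)]⟩,⟨0,
  [(26,0)]⟩),⟨0,[(5,0)]⟩,.k,.k,.k,.k,(.x 0 ⟨7,[(0,2),(3,0),(0,7),(1,2),(2,0),(6,1),(2,7),(4,1),(0,
  7)]⟩ ⟨0,[(9,0),(13,0),(3,1),(4,0)]⟩),.k,⟨true,0,⟨0,[(7,0),(1,0),(4,0),(0,0),(13,0)]⟩,⟨0,[(3,0)]⟩⟩,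
  ⟨false,1,⟨0,[(9,0),(4,0),(0,0),(16,0)]⟩,⟨0,[(20,0)]⟩⟩,⟨true,0,⟨0,[(35,0)]⟩,⟨0,[]⟩⟩,⟨false,1,⟨7,
  [(1,3),(10,0),(0,0),(5,3),(13,5)]⟩,⟨0,[(7,0)]⟩⟩,⟨false,0,⟨0,[(31,0)]⟩,⟨0,[(30,0),(2,0)]⟩⟩,⟨true,0,
  ⟨0,[(1,0)]⟩,⟨0,[(7,0),(22,0)]⟩⟩,[]⟩)) (.Q [0,1,-1,0,0,0,0,0,-1,0,0,1] (.p true [0,0,0,1] [] (⟨0,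
  [(14,0)]⟩,⟨0,[(13,0)]⟩) .k 0 (⟨0,[]⟩,⟨0,[]⟩) .k .k) (.Q [0,1,1,0,0,0,0,0,1,0,0,-1] (.p false [0,0,
  0,1] [] (⟨0,[(15,0)]⟩,⟨0,[(14,0)]⟩) .k 0 (⟨0,[]⟩,⟨0,[]⟩) .k .k) (.K ⟨0,[0,0,0,1],0,0,(⟨0,[(16,
  0)]⟩,⟨0,[(15,0)]⟩),.k,(.x 0 ⟨0,[(18,0),(2,0),(5,0)]⟩ ⟨0,[(28,0),(4,0)]⟩),(.x 0 ⟨0,[(28,0)]⟩ ⟨3,
  [(13,0),(0,0),(11,1),(0,3)]⟩),.k,.k,[⟨0,[(16,0)]⟩,⟨0,[(15,0)]⟩,⟨0,[(1,0)]⟩,⟨0,[(0,0)]⟩]⟩) (.Q [0,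
  0,0,0,0,1,0,0,0,-1,0,1] (.p true [0,0,0,1] [1] (⟨0,[(16,0)]⟩,⟨0,[(15,0)]⟩) .k 1 (⟨0,[]⟩,⟨0,[]⟩)
  .k .k) (.R ⟨0,false,false,false,[1,0,0,-1],[0,1],[0,1,0,0,0,0,0,0,-1],(⟨0,[(16,0)]⟩,⟨0,[(17,0)]⟩),
  (⟨0,[(29,0)]⟩,⟨0,[(28,0)]⟩),⟨0,[(0,0)]⟩,.k,.k,(.x (-1) ⟨3,[(14,0),(0,0),(11,1),(0,3)]⟩ ⟨0,[(29,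
  0)]⟩),(.x (-1) ⟨3,[(14,0),(0,0),(11,1),(0,3)]⟩ ⟨0,[(29,0)]⟩),.k,.k,⟨false,0,⟨1,[(1,1),(1,0),(6,0),
  (5,1),(1,1),(12,1)]⟩,⟨3,[(14,0),(0,2),(14,3)]⟩⟩,⟨true,0,⟨0,[(16,0)]⟩,⟨0,[(11,0),(5,0),(4,0)]⟩⟩,
  ⟨true,0,⟨0,[(37,0)]⟩,⟨0,[]⟩⟩,⟨false,1,⟨3,[(14,0),(0,2),(0,3),(13,3)]⟩,⟨1,[(1,1),(1,0),(6,0),(7,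
  1)]⟩⟩,⟨false,0,⟨0,[]⟩,⟨0,[]⟩⟩,⟨false,0,⟨0,[]⟩,⟨0,[]⟩⟩,[.o ⟨false,0,⟨0,[(33,0)]⟩,⟨5,[(6,1),(7,0),
  (0,0),(11,1),(4,1)]⟩⟩,.o ⟨false,1,⟨3,[(14,0),(0,0),(17,3),(1,1)]⟩,⟨1,[(3,0),(6,0),(7,1)]⟩⟩,.o
  ⟨false,1,⟨1,[(17,1),(9,0),(6,0)]⟩,⟨0,[(11,0),(4,0),(5,0)]⟩⟩,.a ⟨true,0,⟨0,[(17,0)]⟩,⟨0,[(16,0)]⟩⟩
  ⟨false,0,⟨0,[(1,0),(8,0),(5,0),(1,0)]⟩,⟨23,[(5,7),(0,3),(6,3),(0,0),(0,12),(7,7),(11,5)]⟩⟩ ⟨true,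
  0,⟨0,[(16,0),(16,0)]⟩,⟨1,[(3,0),(6,0),(6,1),(0,1)]⟩⟩]⟩) (.R ⟨1,false,false,true,[1,0,0,-1],[1,1,
  -1],[0,1,0,0,0,0,0,0,-1],(⟨0,[(16,0)]⟩,⟨0,[(17,0)]⟩),(⟨0,[(25,0),(3,0)]⟩,⟨0,[(7,0)]⟩),⟨0,[(0,0)]⟩,
  .k,.k,(.x (-1) ⟨3,[(14,0),(0,0),(11,1),(0,3)]⟩ ⟨0,[(29,0)]⟩),(.r 0 ⟨0,[(1,0),(8,0),(1,0),(3,0)]⟩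
  ⟨3,[(8,3),(5,0),(0,2)]⟩),(.r 0 ⟨0,[(1,0),(1,0),(7,0),(4,0),(14,0)]⟩ ⟨11,[(5,3),(2,11),(5,2),(0,8),
  (4,3),(2,3),(9,7)]⟩),.k,⟨false,0,⟨1,[(1,1),(1,0),(6,0),(0,1),(4,1),(14,1)]⟩,⟨3,[(8,3),(5,0),(0,
  2)]⟩⟩,⟨true,0,⟨0,[(11,0),(4,0)]⟩,⟨0,[(17,0),(4,0)]⟩⟩,⟨true,0,⟨0,[(37,0)]⟩,⟨0,[]⟩⟩,⟨false,1,⟨1,
  [(15,0),(0,1),(4,1),(5,0),(2,1)]⟩,⟨1,[(1,1),(1,0),(6,0)]⟩⟩,⟨false,0,⟨0,[(33,0)]⟩,⟨0,[(32,0),(2,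
  0)]⟩⟩,⟨false,1,⟨1,[(15,0),(0,1),(4,1),(5,0),(2,1),(2,1)]⟩,⟨0,[(1,0),(1,0)]⟩⟩,[.o ⟨false,0,⟨0,[(18,
  0),(14,0)]⟩,⟨7,[(6,3),(6,3),(0,0),(0,0),(19,1)]⟩⟩,.o ⟨false,1,⟨1,[(21,1),(5,0),(5,1),(1,0)]⟩,⟨0,
  [(9,0)]⟩⟩,.o ⟨false,1,⟨1,[(17,1),(9,0),(6,0)]⟩,⟨0,[(11,0),(4,0),(5,0)]⟩⟩,.a ⟨true,0,⟨0,[(17,0)]⟩,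
  ⟨0,[(16,0)]⟩⟩ ⟨false,0,⟨0,[(1,0),(8,0),(5,0),(1,0)]⟩,⟨23,[(5,7),(0,3),(6,3),(0,0),(0,12),(7,7),
  (11,5)]⟩⟩ ⟨true,0,⟨0,[(16,0),(1,0),(14,0)]⟩,⟨1,[(3,0),(6,0),(6,1)]⟩⟩]⟩))) (.Q [0,0,0,0,0,1,0,0,0,
  -1,0,1] (.p true [0,0,0,1] [1] (⟨0,[(15,0)]⟩,⟨0,[(14,0)]⟩) .k 1 (⟨0,[]⟩,⟨0,[]⟩) .k .k) (.R ⟨0,
  false,false,false,[1,0,0,-1],[0,1],[0,1,0,0,0,0,0,0,-1],(⟨0,[(15,0)]⟩,⟨0,[(16,0)]⟩),(⟨0,[(28,0)]⟩,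
  ⟨0,[(27,0)]⟩),⟨0,[(0,0)]⟩,.k,.k,(.x (-1) ⟨3,[(13,0),(0,0),(11,1),(0,3)]⟩ ⟨0,[(28,0)]⟩),(.x (-1)
  ⟨3,[(13,0),(0,0),(11,1),(0,3)]⟩ ⟨0,[(28,0)]⟩),.k,.k,⟨false,1,⟨3,[(2,1),(0,1),(9,0),(1,1),(1,1),
  (12,3),(2,0)]⟩,⟨0,[(1,0),(14,0),(15,0)]⟩⟩,⟨true,0,⟨0,[(15,0)]⟩,⟨0,[(10,0),(5,0),(4,0)]⟩⟩,⟨true,0,
  ⟨0,[(36,0)]⟩,⟨0,[]⟩⟩,⟨false,0,⟨0,[(1,0),(13,0),(0,0),(15,0)]⟩,⟨1,[(2,0),(0,1),(5,0),(7,1)]⟩⟩,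
  ⟨false,0,⟨0,[]⟩,⟨0,[]⟩⟩,⟨false,0,⟨0,[]⟩,⟨0,[]⟩⟩,[.o ⟨false,0,⟨0,[(32,0)]⟩,⟨5,[(5,1),(7,0),(0,0),
  (11,1),(4,1)]⟩⟩,.o ⟨false,1,⟨3,[(13,0),(0,0),(17,3),(1,1)]⟩,⟨1,[(2,0),(6,0),(7,1)]⟩⟩,.o ⟨false,1,
  ⟨1,[(16,1),(9,0),(6,0)]⟩,⟨0,[(10,0),(4,0),(5,0)]⟩⟩,.a ⟨true,0,⟨0,[(16,0)]⟩,⟨0,[(15,0)]⟩⟩ ⟨false,1,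
  ⟨1,[(13,0),(19,0)]⟩,⟨0,[(1,0),(14,0)]⟩⟩ ⟨true,0,⟨0,[(15,0),(16,0)]⟩,⟨1,[(2,0),(6,0),(6,1),(0,
  1)]⟩⟩]⟩) (.R ⟨1,false,false,true,[1,0,0,-1],[1,1,-1],[0,1,0,0,0,0,0,0,-1],(⟨0,[(15,0)]⟩,⟨0,[(16,
  0)]⟩),(⟨0,[(24,0),(3,0)]⟩,⟨0,[(6,0)]⟩),⟨0,[(0,0)]⟩,.k,.k,(.x (-1) ⟨3,[(13,0),(0,0),(11,1),(0,3)]⟩
  ⟨0,[(28,0)]⟩),(.r (-1) ⟨2,[(2,0),(0,0),(7,0),(1,0),(1,0),(7,1),(9,0)]⟩ ⟨0,[(1,0),(5,0),(8,0),(13,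
  0)]⟩),(.r (-1) ⟨0,[(2,0),(0,0),(6,0),(4,0),(14,0)]⟩ ⟨0,[(1,0),(5,0),(8,0),(15,0),(3,0)]⟩),.k,
  ⟨false,1,⟨1,[(2,0),(0,1),(5,0),(0,1),(4,1),(14,1)]⟩,⟨0,[(1,0),(5,0),(8,0),(13,0)]⟩⟩,⟨true,0,⟨0,
  [(10,0),(4,0)]⟩,⟨0,[(16,0),(4,0)]⟩⟩,⟨true,0,⟨0,[(36,0)]⟩,⟨0,[]⟩⟩,⟨false,0,⟨0,[(1,0),(18,0),(11,
  0)]⟩,⟨1,[(2,0),(0,1),(5,0)]⟩⟩,⟨false,0,⟨0,[(32,0)]⟩,⟨0,[(31,0),(2,0)]⟩⟩,⟨false,0,⟨0,[(1,0),(18,0),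
  (11,1)]⟩,⟨0,[(2,0),(0,0)]⟩⟩,[.o ⟨false,0,⟨0,[(17,0),(14,0)]⟩,⟨7,[(5,3),(6,3),(0,0),(0,0),(19,
  1)]⟩⟩,.o ⟨false,1,⟨1,[(20,1),(5,0),(5,1),(1,0)]⟩,⟨0,[(8,0)]⟩⟩,.o ⟨false,1,⟨1,[(16,1),(9,0),(6,
  0)]⟩,⟨0,[(10,0),(4,0),(5,0)]⟩⟩,.a ⟨true,0,⟨0,[(16,0)]⟩,⟨0,[(15,0)]⟩⟩ ⟨false,1,⟨1,[(13,0),(19,0)]⟩,
  ⟨0,[(1,0),(14,0)]⟩⟩ ⟨true,0,⟨0,[(15,0),(1,0),(14,0)]⟩,⟨1,[(2,0),(6,0),(6,1)]⟩⟩]⟩)))))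

theorem ok6 : chk (cU (-1) true 3) t6 l7 = true := by decide +kernel

noncomputable def l8 : List Con := (false, [0,0,0,2,0,0,-1,-1,0,0,1]) :: r7

noncomputable def r8 : List Con := (false, [0,0,0,-2,0,0,1,1,0,0,-1]) :: r7

noncomputable def t7 : Tre :=
  (.R ⟨1,true,false,false,[0,0,1],[0,1],[0,1,1],(⟨0,[(22,0)]⟩,⟨0,[(21,0)]⟩),(⟨0,[(25,0)]⟩,⟨0,[(24,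
  0)]⟩),⟨0,[(3,0)]⟩,.k,.k,.k,.k,(.r (-1) ⟨0,[(1,0),(26,0),(2,0)]⟩ ⟨6,[(0,0),(3,8),(11,2),(2,1),(6,
  2)]⟩),.k,⟨true,0,⟨0,[(28,0)]⟩,⟨0,[(26,0)]⟩⟩,⟨false,1,⟨5,[(0,1),(0,3),(15,1),(1,1),(10,2),(0,2)]⟩,
  ⟨0,[(18,0)]⟩⟩,⟨true,0,⟨0,[(4,0),(23,0)]⟩,⟨0,[(1,0),(24,0)]⟩⟩,⟨false,1,⟨7,[(0,3),(9,0),(0,0),(5,3),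
  (13,5)]⟩,⟨0,[(5,0)]⟩⟩,⟨false,0,⟨0,[(4,0)]⟩,⟨23,[(1,15),(0,3),(6,3),(0,0),(0,0),(7,7),(11,17)]⟩⟩,
  ⟨true,0,⟨0,[(0,0)]⟩,⟨0,[(5,0),(22,0)]⟩⟩,[]⟩)

theorem ok7 : chk (cU (-1) true 3) t7 l8 = true := by decide +kernel

noncomputable def l9 : List Con := (false, [0,1,1,0,-1,0,0,0,1,0,0,-1]) :: r8

noncomputable def r9 : List Con := (false, [0,-1,-1,0,1,0,0,0,-1,0,0,1]) :: r8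

noncomputable def t8 : Tre :=
  (.K ⟨0,[0,0,0,1],0,(-1),(⟨0,[(14,0)]⟩,⟨0,[(13,0)]⟩),.k,(.x 0 ⟨0,[(16,0),(2,0),(5,0)]⟩ ⟨0,[(26,0),
  (4,0)]⟩),(.x 0 ⟨0,[(26,0)]⟩ ⟨3,[(11,0),(0,0),(11,1),(0,3)]⟩),.k,.k,[⟨0,[(14,0)]⟩,⟨0,[(13,0)]⟩,⟨1,
  [(11,0),(2,1),(16,0),(2,1)]⟩,⟨0,[(0,0)]⟩]⟩)

theorem ok8 : chk (cU (-1) true 3) t8 l9 = true := by decide +kernel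

noncomputable def l10 : List Con := (true, [0,0,2,2,-1,0,0,1]) :: r9

noncomputable def r10 : List Con := (true, [1,0,-2,-2,1,0,0,-1]) :: r9

noncomputable def t9 : Tre :=
  (.Q [0,1,-1,0,0,0,0,0,-1,0,0,1] (.p true [0,0,0,1] [] (⟨0,[(15,0)]⟩,⟨0,[(14,0)]⟩) .k 0 (⟨0,[]⟩,⟨0,
  []⟩) .k .k) (.Q [0,1,1,1,0,0,-1,-1,1,0,1,-1] (.p true [0,0,1] [0,0,0,1] (⟨0,[(25,0)]⟩,⟨0,[(24,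
  0)]⟩) .k 2 (⟨0,[(16,0)]⟩,⟨0,[(15,0)]⟩) .k (.x (-1) ⟨0,[(21,0),(3,0),(7,0)]⟩ ⟨0,[(18,0),(5,0)]⟩))
  (.K ⟨0,[0,0,0,1],0,0,(⟨0,[(17,0)]⟩,⟨0,[(16,0)]⟩),.k,(.x 0 ⟨0,[(19,0),(2,0),(5,0)]⟩ ⟨0,[(29,0),(4,
  0)]⟩),(.x 0 ⟨0,[(29,0)]⟩ ⟨3,[(14,0),(0,0),(11,1),(0,3)]⟩),.k,.k,[⟨0,[(17,0)]⟩,⟨0,[(16,0)]⟩,⟨0,[(1,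
  0)]⟩,⟨1,[(0,1),(3,0),(5,0)]⟩]⟩) (.Q [0,1,1,0,0,0,0,0,1,0,0,-1] (.p false [0,0,0,1] [] (⟨0,[(17,
  0)]⟩,⟨0,[(16,0)]⟩) .k 0 (⟨0,[]⟩,⟨0,[]⟩) .k .k) (.K ⟨0,[0,0,0,1],0,0,(⟨0,[(18,0)]⟩,⟨0,[(17,0)]⟩),
  .k,(.r (-1) ⟨0,[(1,0),(14,0),(0,0),(1,0)]⟩ ⟨4,[(1,0),(1,1),(5,1),(5,1),(1,0),(1,0)]⟩),(.x 0 ⟨0,
  [(30,0)]⟩ ⟨3,[(15,0),(0,0),(11,1),(0,3)]⟩),.k,.k,[⟨0,[(18,0)]⟩,⟨0,[(17,0)]⟩,⟨0,[(2,0)]⟩,⟨0,[(0,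
  0)]⟩]⟩) (.Q [0,1,1,0,0,0,0,0,1,1,0,-1] (.p false [0,0,0,1] [1] (⟨0,[(18,0)]⟩,⟨0,[(17,0)]⟩) .k 1
  (⟨0,[]⟩,⟨0,[]⟩) .k .k) (.R ⟨1,false,false,false,[0,0,1],[1,0,0,-1],[0,1,0,0,0,0,0,1],(⟨0,[(28,
  0)]⟩,⟨0,[(27,0)]⟩),(⟨0,[(18,0)]⟩,⟨0,[(19,0)]⟩),⟨0,[(9,0)]⟩,.k,.k,.k,.k,(.r (-1) ⟨23,[(7,15),(0,3),
  (6,3),(0,0),(0,12),(7,7),(11,5)]⟩ ⟨4,[(2,2),(1,0),(5,5),(5,0),(1,2),(1,2)]⟩),.k,⟨true,0,⟨1,[(4,0),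
  (2,0),(9,0),(16,0)]⟩,⟨0,[(1,0),(4,0),(3,0),(7,0),(1,0),(11,0)]⟩⟩,⟨false,1,⟨0,[(13,0),(5,0),(16,
  0)]⟩,⟨0,[(18,0),(5,0)]⟩⟩,⟨true,0,⟨0,[(39,0)]⟩,⟨0,[]⟩⟩,⟨true,0,⟨0,[(1,0),(18,0)]⟩,⟨0,[(0,0),(11,
  0)]⟩⟩,⟨false,0,⟨0,[(35,0)]⟩,⟨3,[(0,0),(4,0),(2,1),(9,0),(0,0),(17,0)]⟩⟩,⟨true,0,⟨0,[(1,0),(18,0),
  (14,0)]⟩,⟨1,[(0,1),(5,0),(5,0)]⟩⟩,[.o ⟨false,0,⟨0,[(2,0),(17,0),(14,0)]⟩,⟨1,[(0,1),(28,0),(7,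
  0)]⟩⟩,.a ⟨true,0,⟨0,[(1,0)]⟩,⟨0,[(0,0)]⟩⟩ ⟨false,0,⟨0,[(7,0),(24,0)]⟩,⟨7,[(5,1),(2,1),(1,7),(6,0),
  (0,1),(15,3),(1,2)]⟩⟩ ⟨true,0,⟨0,[(1,0),(11,0)]⟩,⟨0,[(0,0),(23,0)]⟩⟩,.o ⟨false,1,⟨3,[(16,0),(0,0),
  (6,3),(11,1)]⟩,⟨0,[(13,0)]⟩⟩,.o ⟨false,0,⟨0,[(24,0)]⟩,⟨3,[(13,1),(11,1),(3,0),(6,2)]⟩⟩]⟩) (.Q [0,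
  0,0,0,0,-2,0,0,0,1] (.pp false [-1,1]) (.R ⟨1,true,false,false,[1,-1],[0,1],[1,0,-1,-2],(⟨0,[(31,
  0)]⟩,⟨0,[(32,0)]⟩),(⟨0,[(32,0)]⟩,⟨0,[(31,0)]⟩),⟨0,[(0,0)]⟩,.k,.k,(.r (-1) ⟨1,[(1,1),(5,1),(10,0),
  (0,1),(4,1),(12,0)]⟩ ⟨2,[(5,1),(5,1),(5,0),(0,0)]⟩),(.r (-1) ⟨1,[(1,1),(5,1),(10,0),(0,1),(4,1),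
  (12,0)]⟩ ⟨2,[(5,1),(5,1),(5,0),(0,0)]⟩),(.r (-2) ⟨3,[(2,1),(4,3),(1,1),(8,0),(0,1),(4,3),(12,4)]⟩
  ⟨0,[(5,0),(5,0)]⟩),.k,⟨true,1,⟨3,[(1,5),(5,5),(10,2),(0,5),(4,5),(12,0)]⟩,⟨0,[(5,0),(5,0)]⟩⟩,
  ⟨false,1,⟨1,[(2,1),(15,0),(0,1),(14,1),(2,0)]⟩,⟨0,[(22,0),(2,0)]⟩⟩,⟨false,1,⟨0,[(35,0),(2,0)]⟩,⟨0,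
  [(36,0)]⟩⟩,⟨true,0,⟨0,[(19,0),(0,0),(15,1)]⟩,⟨0,[(7,0),(13,0)]⟩⟩,⟨true,0,⟨0,[]⟩,⟨0,[(40,0)]⟩⟩,
  ⟨false,0,⟨0,[(1,0),(0,0),(2,0),(5,0),(6,0),(0,1),(14,0)]⟩,⟨0,[(9,0),(25,0)]⟩⟩,[]⟩) (.Q [0,0,0,0,0,
  1,0,0,0,-1,0,1] (.p true [0,0,0,1] [1] (⟨0,[(20,0)]⟩,⟨0,[(19,0)]⟩) .k 1 (⟨0,[]⟩,⟨0,[]⟩) .k .k)
  (.R ⟨0,false,false,true,[1,0,0,-1],[0,-1,1],[1,0,0,-1,0,0,0,0,-1],(⟨0,[(20,0)]⟩,⟨0,[(21,0)]⟩),(⟨0,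
  [(11,0)]⟩,⟨0,[(29,0),(3,0)]⟩),⟨0,[(0,0)]⟩,.k,.k,(.x (-1) ⟨3,[(18,0),(0,0),(11,1),(0,3)]⟩ ⟨0,[(33,
  0)]⟩),(.r 0 ⟨4,[(2,2),(3,0),(5,5),(5,0),(1,2),(15,2)]⟩ ⟨23,[(9,15),(0,3),(6,3),(0,0),(0,12),(7,7),
  (11,5)]⟩),.k,.k,⟨true,0,⟨0,[(2,0),(5,0),(3,0),(7,0),(4,0),(8,0)]⟩,⟨1,[(6,0),(2,0),(9,0),(16,0)]⟩⟩,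
  ⟨false,0,⟨0,[(20,0),(5,0)]⟩,⟨0,[(15,0),(5,0),(16,0)]⟩⟩,⟨false,1,⟨0,[(36,0),(2,0)]⟩,⟨0,[(37,0)]⟩⟩,
  ⟨true,0,⟨1,[(6,0),(1,1),(3,0),(6,0),(0,1),(14,0),(0,0)]⟩,⟨0,[(2,0),(22,0),(11,0)]⟩⟩,⟨false,0,⟨0,
  []⟩,⟨0,[]⟩⟩,⟨false,0,⟨0,[]⟩,⟨0,[]⟩⟩,[.o ⟨false,0,⟨2,[(8,0),(15,1),(11,0)]⟩,⟨0,[(22,0),(14,0),(1,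
  0)]⟩⟩,.o ⟨false,0,⟨0,[(13,0)]⟩,⟨1,[(25,1),(5,0),(5,1),(1,0)]⟩⟩,.o ⟨false,1,⟨5,[(2,1),(2,2),(1,0),
  (11,2),(11,1)]⟩,⟨0,[(15,0),(4,0),(5,0)]⟩⟩,.a ⟨true,0,⟨0,[(21,0)]⟩,⟨0,[(20,0)]⟩⟩ ⟨true,0,⟨0,[(2,0),
  (17,0),(15,0)]⟩,⟨1,[(6,0),(5,0),(6,0),(15,0),(0,0)]⟩⟩ ⟨false,0,⟨1,[(8,0),(5,0),(5,1)]⟩,⟨1,[(2,0),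
  (4,0),(11,0),(2,0),(2,0),(8,1)]⟩⟩]⟩) (.R ⟨1,true,false,true,[1,0,0,-1],[0,0,1],[1,0,0,-1,0,0,0,0,
  -1],(⟨0,[(20,0)]⟩,⟨0,[(21,0)]⟩),(⟨0,[(30,0)]⟩,⟨0,[(29,0)]⟩),⟨0,[(0,0)]⟩,.k,.k,(.x (-1) ⟨3,[(18,0),
  (0,0),(11,1),(0,3)]⟩ ⟨0,[(33,0)]⟩),.k,(.r (-1) ⟨15,[(2,7),(1,5),(5,5),(1,15),(5,0),(1,13),(4,5),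
  (10,13),(1,8)]⟩ ⟨1,[(6,0),(12,0),(8,0)]⟩),.k,⟨false,1,⟨1,[(2,0),(0,0),(4,0),(1,0),(1,1),(7,1),(4,
  0),(12,0)]⟩,⟨5,[(6,3),(2,1),(9,2),(15,1),(2,0),(2,1)]⟩⟩,⟨true,0,⟨0,[(20,0),(5,0)]⟩,⟨0,[(15,0),(5,
  0)]⟩⟩,⟨false,1,⟨0,[(36,0),(2,0)]⟩,⟨0,[(37,0)]⟩⟩,⟨true,0,⟨5,[(6,2),(1,1),(10,2),(0,5),(3,0),(1,2),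
  (8,2),(0,1)]⟩,⟨0,[(2,0),(22,0)]⟩⟩,⟨true,0,⟨0,[]⟩,⟨0,[(41,0)]⟩⟩,⟨false,0,⟨0,[(2,0),(3,0),(1,0),(3,
  0),(6,0),(0,1),(14,0)]⟩,⟨3,[(2,1),(0,0),(3,0),(2,1),(14,3),(13,0)]⟩⟩,[]⟩)))))) (.Q [0,0,0,0,0,1,0,
  0,0,-1,0,1] (.p true [0,0,0,1] [1] (⟨0,[(16,0)]⟩,⟨0,[(15,0)]⟩) .k 1 (⟨0,[]⟩,⟨0,[]⟩) .k .k) (.R ⟨0,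
  false,false,false,[1,0,0,-1],[0,1],[0,1,0,0,0,0,0,0,-1],(⟨0,[(16,0)]⟩,⟨0,[(17,0)]⟩),(⟨0,[(29,0)]⟩,
  ⟨0,[(28,0)]⟩),⟨0,[(0,0)]⟩,.k,.k,(.x (-1) ⟨3,[(14,0),(0,0),(11,1),(0,3)]⟩ ⟨0,[(29,0)]⟩),(.x (-1)
  ⟨3,[(14,0),(0,0),(11,1),(0,3)]⟩ ⟨0,[(29,0)]⟩),.k,.k,⟨false,1,⟨3,[(3,1),(0,0),(1,0),(7,0),(1,1),(1,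
  0),(12,5)]⟩,⟨0,[(1,0),(15,0),(15,0)]⟩⟩,⟨true,0,⟨0,[(16,0)]⟩,⟨0,[(11,0),(5,0),(4,0)]⟩⟩,⟨true,0,⟨0,
  [(37,0)]⟩,⟨0,[]⟩⟩,⟨false,0,⟨0,[(1,0),(14,0),(0,0),(15,0)]⟩,⟨1,[(3,1),(0,0),(5,0),(7,1)]⟩⟩,⟨false,
  0,⟨0,[]⟩,⟨0,[]⟩⟩,⟨false,0,⟨0,[]⟩,⟨0,[]⟩⟩,[.o ⟨false,0,⟨0,[(33,0)]⟩,⟨5,[(6,1),(7,0),(0,0),(11,1),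
  (4,1)]⟩⟩,.o ⟨false,1,⟨3,[(14,0),(0,0),(17,3),(1,1)]⟩,⟨1,[(4,0),(5,0),(7,1)]⟩⟩,.o ⟨false,1,⟨1,[(17,
  1),(9,0),(6,0)]⟩,⟨0,[(11,0),(4,0),(5,0)]⟩⟩,.a ⟨true,0,⟨0,[(17,0)]⟩,⟨0,[(16,0)]⟩⟩ ⟨false,1,⟨1,[(14,
  0),(19,0)]⟩,⟨0,[(1,0),(15,0)]⟩⟩ ⟨true,0,⟨0,[(16,0),(16,0)]⟩,⟨1,[(4,0),(5,0),(6,1),(0,1)]⟩⟩]⟩) (.R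
  ⟨1,false,false,true,[1,0,0,-1],[1,1,-1],[0,1,0,0,0,0,0,0,-1],(⟨0,[(16,0)]⟩,⟨0,[(17,0)]⟩),(⟨0,[(25,
  0),(3,0)]⟩,⟨0,[(7,0)]⟩),⟨0,[(0,0)]⟩,.k,.k,(.x (-1) ⟨3,[(14,0),(0,0),(11,1),(0,3)]⟩ ⟨0,[(29,0)]⟩),
  (.r (-1) ⟨23,[(5,15),(0,3),(6,3),(0,12),(0,0),(7,7),(11,5)]⟩ ⟨0,[(1,0),(6,0),(8,0),(13,0)]⟩),(.r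
  (-1) ⟨5,[(3,3),(0,2),(0,3),(0,0),(4,1),(2,0),(1,3),(1,0)]⟩ ⟨2,[(1,0),(0,0),(5,3),(6,0),(1,0),(13,
  0)]⟩),.k,⟨false,1,⟨1,[(5,1),(8,0),(20,0)]⟩,⟨0,[(1,0),(6,0),(8,0),(13,0)]⟩⟩,⟨true,0,⟨0,[(11,0),(4,
  0)]⟩,⟨0,[(17,0),(4,0)]⟩⟩,⟨true,0,⟨0,[(37,0)]⟩,⟨0,[]⟩⟩,⟨false,0,⟨0,[(1,0),(19,0),(11,0)]⟩,⟨1,[(3,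
  1),(0,0),(5,0)]⟩⟩,⟨false,0,⟨0,[(33,0)]⟩,⟨0,[(32,0),(2,0)]⟩⟩,⟨false,0,⟨0,[(1,0),(19,0),(11,1)]⟩,⟨0,
  [(3,0),(0,0)]⟩⟩,[.o ⟨false,0,⟨0,[(18,0),(14,0)]⟩,⟨7,[(6,3),(6,3),(0,0),(0,0),(19,1)]⟩⟩,.o ⟨false,
  1,⟨1,[(21,1),(5,0),(5,1),(1,0)]⟩,⟨0,[(9,0)]⟩⟩,.o ⟨false,1,⟨1,[(17,1),(9,0),(6,0)]⟩,⟨0,[(11,0),(4,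
  0),(5,0)]⟩⟩,.a ⟨true,0,⟨0,[(17,0)]⟩,⟨0,[(16,0)]⟩⟩ ⟨false,1,⟨1,[(14,0),(19,0)]⟩,⟨0,[(1,0),(15,
  0)]⟩⟩ ⟨true,0,⟨0,[(16,0),(1,0),(14,0)]⟩,⟨1,[(4,0),(5,0),(6,1)]⟩⟩]⟩)))

theorem ok9 : chk (cU (-1) true 3) t9 l10 = true := by decide +kernel

noncomputable def t10 : Tre :=
  (.Q [0,0,0,0,0,1,0,0,0,-1,1] (.ed false [0,1,1] .k) (.Q [0,0,0,0,0,0,1,0,0,2,-1] (.p false [-1,1,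
  1] [1] (⟨0,[(0,0)]⟩,⟨0,[(24,0),(2,0)]⟩) .k 1 (⟨0,[]⟩,⟨0,[]⟩) .k .k) (.R ⟨0,false,false,true,[-1,1,
  1],[0,1],[1,0,1],(⟨0,[(1,0)]⟩,⟨0,[(25,0),(2,0)]⟩),(⟨0,[(29,0)]⟩,⟨0,[(28,0)]⟩),⟨0,[(25,0)]⟩,.k,.k,
  .k,.k,.k,.k,⟨false,1,⟨37,[(0,1),(1,9),(2,9),(0,3),(7,0),(0,0),(7,1),(11,21)]⟩,⟨0,[(33,0),(3,0)]⟩⟩,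
  ⟨true,0,⟨0,[(11,0)]⟩,⟨3,[(0,1),(21,2),(0,0)]⟩⟩,⟨false,1,⟨4,[(0,0),(1,2),(3,1),(1,1),(14,0),(6,
  2)]⟩,⟨0,[(24,0),(8,0)]⟩⟩,⟨true,0,⟨0,[(18,0)]⟩,⟨2,[(0,0),(12,0),(10,0)]⟩⟩,⟨false,0,⟨0,[]⟩,⟨0,[]⟩⟩,
  ⟨false,0,⟨0,[]⟩,⟨0,[]⟩⟩,[.o ⟨false,0,⟨0,[(33,0),(3,0)]⟩,⟨3,[(6,1),(20,0),(7,0)]⟩⟩,.o ⟨false,0,⟨0,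
  [(33,0)]⟩,⟨5,[(6,1),(7,0),(0,0),(11,1),(4,1)]⟩⟩,.o ⟨false,1,⟨1,[(0,1),(26,0),(6,0)]⟩,⟨0,[(11,1),
  (10,0)]⟩⟩,.a ⟨true,0,⟨0,[(0,0)]⟩,⟨0,[(11,0)]⟩⟩ ⟨true,0,⟨0,[]⟩,⟨0,[(37,0)]⟩⟩ ⟨false,0,⟨0,[(11,0),
  (21,0)]⟩,⟨71,[(0,47),(1,7),(3,27),(6,3),(0,6),(0,6),(6,15),(12,21)]⟩⟩]⟩) (.Q [0,1,-1,0,0,0,0,0,-1,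
  0,0,1] (.p true [0,0,0,1] [] (⟨0,[(17,0)]⟩,⟨0,[(16,0)]⟩) .k 0 (⟨0,[]⟩,⟨0,[]⟩) .k .k) (.Q [0,1,1,0,
  0,0,0,0,1,0,0,-1] (.p false [0,0,0,1] [] (⟨0,[(18,0)]⟩,⟨0,[(17,0)]⟩) .k 0 (⟨0,[]⟩,⟨0,[]⟩) .k .k)
  (.K ⟨0,[0,0,0,1],0,0,(⟨0,[(19,0)]⟩,⟨0,[(18,0)]⟩),.k,(.r (-1) ⟨71,[(4,23),(2,15),(0,3),(6,3),(0,0),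
  (0,36),(7,7),(11,5)]⟩ ⟨2,[(1,2),(0,0),(15,2),(2,0),(2,1),(7,2)]⟩),(.x 0 ⟨0,[(31,0)]⟩ ⟨3,[(16,0),
  (0,0),(11,1),(0,3)]⟩),.k,.k,[⟨0,[(19,0)]⟩,⟨0,[(18,0)]⟩,⟨0,[(1,0)]⟩,⟨0,[(0,0)]⟩]⟩) (.Q [0,0,0,0,0,
  1,0,0,0,-1,0,1] (.p true [0,0,0,1] [1] (⟨0,[(19,0)]⟩,⟨0,[(18,0)]⟩) .k 1 (⟨0,[]⟩,⟨0,[]⟩) .k .k)
  (.R ⟨0,false,false,false,[1,0,0,-1],[0,1],[0,1,0,0,0,0,0,0,-1],(⟨0,[(19,0)]⟩,⟨0,[(20,0)]⟩),(⟨0,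
  [(32,0)]⟩,⟨0,[(31,0)]⟩),⟨0,[(0,0)]⟩,.k,.k,(.x (-1) ⟨3,[(17,0),(0,0),(11,1),(0,3)]⟩ ⟨0,[(32,0)]⟩),
  (.x (-1) ⟨3,[(17,0),(0,0),(11,1),(0,3)]⟩ ⟨0,[(32,0)]⟩),.k,.k,⟨false,0,⟨0,[(1,0),(6,0),(10,0),(1,
  0),(3,0)]⟩,⟨3,[(17,0),(0,2),(14,3)]⟩⟩,⟨true,0,⟨0,[(19,0)]⟩,⟨2,[(3,0),(16,2),(1,0),(2,1)]⟩⟩,⟨true,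
  0,⟨0,[(40,0)]⟩,⟨0,[]⟩⟩,⟨false,1,⟨3,[(17,0),(0,2),(0,3),(13,3)]⟩,⟨9,[(1,8),(0,0),(0,1),(3,3),(0,1),
  (12,5),(3,3)]⟩⟩,⟨false,0,⟨0,[]⟩,⟨0,[]⟩⟩,⟨false,0,⟨0,[]⟩,⟨0,[]⟩⟩,[.o ⟨false,0,⟨0,[(36,0)]⟩,⟨5,[(9,
  1),(7,0),(0,0),(11,1),(4,1)]⟩⟩,.o ⟨false,1,⟨3,[(17,0),(0,0),(17,3),(1,1)]⟩,⟨6,[(3,0),(3,2),(0,0),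
  (12,4),(1,0),(1,1)]⟩⟩,.o ⟨false,1,⟨1,[(20,1),(9,0),(6,0)]⟩,⟨2,[(3,0),(15,2),(2,0),(2,1)]⟩⟩,.a
  ⟨true,0,⟨0,[(20,0)]⟩,⟨0,[(19,0)]⟩⟩ ⟨false,0,⟨3,[(1,2),(0,0),(0,1),(15,3),(5,1),(8,1)]⟩,⟨1,[(18,0),
  (6,0),(0,0),(11,0)]⟩⟩ ⟨true,0,⟨0,[(19,0),(16,0)]⟩,⟨6,[(3,0),(3,2),(0,0),(11,6),(0,4),(1,0),(1,
  1)]⟩⟩]⟩) (.R ⟨1,false,false,false,[1,0,0,-1],[0,1],[0,1,0,0,0,0,0,0,-1],(⟨0,[(19,0)]⟩,⟨0,[(20,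
  0)]⟩),(⟨0,[(32,0)]⟩,⟨0,[(31,0)]⟩),⟨0,[(0,0)]⟩,.k,.k,(.x (-1) ⟨3,[(17,0),(0,0),(11,1),(0,3)]⟩ ⟨0,
  [(32,0)]⟩),(.x (-1) ⟨3,[(17,0),(0,0),(11,1),(0,3)]⟩ ⟨0,[(32,0)]⟩),(.x 0 ⟨0,[(3,0),(21,0),(5,1)]⟩
  ⟨3,[(17,0),(0,0),(13,7),(4,1)]⟩),.k,⟨false,0,⟨0,[(1,0),(6,0),(10,0),(1,0),(3,0)]⟩,⟨3,[(17,0),(0,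
  2),(14,3)]⟩⟩,⟨true,0,⟨0,[(19,0)]⟩,⟨2,[(3,0),(16,2),(1,0),(2,1)]⟩⟩,⟨true,0,⟨0,[(40,0)]⟩,⟨0,[]⟩⟩,
  ⟨false,1,⟨3,[(17,0),(0,2),(0,3),(13,3)]⟩,⟨9,[(1,8),(0,0),(0,1),(3,3),(0,1),(12,5),(3,3)]⟩⟩,⟨false,
  0,⟨0,[(36,0)]⟩,⟨7,[(5,1),(1,1),(9,0),(0,0),(6,0),(0,2),(11,3)]⟩⟩,⟨false,1,⟨3,[(17,0),(0,2),(0,3),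
  (13,3),(2,3)]⟩,⟨0,[(1,0),(5,0),(13,0)]⟩⟩,[.o ⟨false,0,⟨0,[(36,0)]⟩,⟨5,[(9,1),(7,0),(0,0),(11,1),
  (4,1)]⟩⟩,.o ⟨false,1,⟨3,[(17,0),(0,0),(17,3),(1,1)]⟩,⟨6,[(3,0),(3,2),(0,0),(12,4),(1,0),(1,1)]⟩⟩,
  .o ⟨false,1,⟨1,[(20,1),(9,0),(6,0)]⟩,⟨2,[(3,0),(15,2),(2,0),(2,1)]⟩⟩,.a ⟨true,0,⟨0,[(20,0)]⟩,⟨0,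
  [(19,0)]⟩⟩ ⟨false,0,⟨3,[(1,2),(0,0),(0,1),(15,3),(5,1),(8,1)]⟩,⟨1,[(18,0),(6,0),(0,0),(11,0)]⟩⟩
  ⟨true,0,⟨0,[(19,0),(16,0)]⟩,⟨6,[(3,0),(3,2),(0,0),(11,6),(0,4),(1,0),(1,1)]⟩⟩]⟩))) (.Q [0,0,0,0,0,
  1,0,0,0,-1,0,1] (.p true [0,0,0,1] [1] (⟨0,[(18,0)]⟩,⟨0,[(17,0)]⟩) .k 1 (⟨0,[]⟩,⟨0,[]⟩) .k .k)
  (.R ⟨0,false,false,false,[1,0,0,-1],[0,1],[0,1,0,0,0,0,0,0,-1],(⟨0,[(18,0)]⟩,⟨0,[(19,0)]⟩),(⟨0,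
  [(31,0)]⟩,⟨0,[(30,0)]⟩),⟨0,[(0,0)]⟩,.k,.k,(.x (-1) ⟨3,[(16,0),(0,0),(11,1),(0,3)]⟩ ⟨0,[(31,0)]⟩),
  (.x (-1) ⟨3,[(16,0),(0,0),(11,1),(0,3)]⟩ ⟨0,[(31,0)]⟩),.k,.k,⟨false,1,⟨5,[(4,1),(2,1),(8,2),(16,
  1),(2,0),(2,1)]⟩,⟨0,[(1,0),(17,0),(15,0)]⟩⟩,⟨true,0,⟨0,[(18,0)]⟩,⟨2,[(2,0),(16,2),(1,0),(2,1)]⟩⟩,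
  ⟨true,0,⟨0,[(39,0)]⟩,⟨0,[]⟩⟩,⟨false,0,⟨0,[(1,0),(16,0),(0,0),(15,0)]⟩,⟨13,[(2,6),(1,4),(0,3),(0,
  0),(0,1),(8,4),(2,9),(2,1),(1,3)]⟩⟩,⟨false,0,⟨0,[]⟩,⟨0,[]⟩⟩,⟨false,0,⟨0,[]⟩,⟨0,[]⟩⟩,[.o ⟨false,0,
  ⟨0,[(35,0)]⟩,⟨5,[(8,1),(7,0),(0,0),(11,1),(4,1)]⟩⟩,.o ⟨false,1,⟨3,[(16,0),(0,0),(17,3),(1,1)]⟩,⟨6,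
  [(2,0),(3,2),(0,0),(12,4),(1,0),(1,1)]⟩⟩,.o ⟨false,1,⟨1,[(19,1),(9,0),(6,0)]⟩,⟨2,[(2,0),(15,2),(2,
  0),(2,1)]⟩⟩,.a ⟨true,0,⟨0,[(19,0)]⟩,⟨0,[(18,0)]⟩⟩ ⟨false,1,⟨1,[(16,0),(19,0)]⟩,⟨0,[(1,0),(17,
  0)]⟩⟩ ⟨true,0,⟨0,[(18,0),(16,0)]⟩,⟨6,[(2,0),(3,2),(0,0),(11,6),(0,4),(1,0),(1,1)]⟩⟩]⟩) (.R ⟨1,
  false,false,false,[1,0,0,-1],[0,1],[0,1,0,0,0,0,0,0,-1],(⟨0,[(18,0)]⟩,⟨0,[(19,0)]⟩),(⟨0,[(31,0)]⟩,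
  ⟨0,[(30,0)]⟩),⟨0,[(0,0)]⟩,.k,.k,(.x (-1) ⟨3,[(16,0),(0,0),(11,1),(0,3)]⟩ ⟨0,[(31,0)]⟩),(.x (-1)
  ⟨3,[(16,0),(0,0),(11,1),(0,3)]⟩ ⟨0,[(31,0)]⟩),(.x 0 ⟨0,[(2,0),(21,0),(5,1)]⟩ ⟨3,[(16,0),(0,0),(13,
  7),(4,1)]⟩),.k,⟨false,1,⟨5,[(4,1),(2,1),(8,2),(16,1),(2,0),(2,1)]⟩,⟨0,[(1,0),(17,0),(15,0)]⟩⟩,
  ⟨true,0,⟨0,[(18,0)]⟩,⟨2,[(2,0),(16,2),(1,0),(2,1)]⟩⟩,⟨true,0,⟨0,[(39,0)]⟩,⟨0,[]⟩⟩,⟨false,0,⟨0,[(1,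
  0),(16,0),(0,0),(15,0)]⟩,⟨13,[(2,6),(1,4),(0,3),(0,0),(0,1),(8,4),(2,9),(2,1),(1,3)]⟩⟩,⟨false,0,
  ⟨0,[(35,0)]⟩,⟨7,[(4,1),(1,1),(9,0),(0,0),(6,0),(0,2),(11,3)]⟩⟩,⟨false,0,⟨0,[(1,0),(16,0),(0,0),
  (15,1)]⟩,⟨1,[(2,0),(1,0),(1,0),(9,0),(2,1)]⟩⟩,[.o ⟨false,0,⟨0,[(35,0)]⟩,⟨5,[(8,1),(7,0),(0,0),(11,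
  1),(4,1)]⟩⟩,.o ⟨false,1,⟨3,[(16,0),(0,0),(17,3),(1,1)]⟩,⟨6,[(2,0),(3,2),(0,0),(12,4),(1,0),(1,
  1)]⟩⟩,.o ⟨false,1,⟨1,[(19,1),(9,0),(6,0)]⟩,⟨2,[(2,0),(15,2),(2,0),(2,1)]⟩⟩,.a ⟨true,0,⟨0,[(19,
  0)]⟩,⟨0,[(18,0)]⟩⟩ ⟨false,1,⟨1,[(16,0),(19,0)]⟩,⟨0,[(1,0),(17,0)]⟩⟩ ⟨true,0,⟨0,[(18,0),(16,0)]⟩,
  ⟨6,[(2,0),(3,2),(0,0),(11,6),(0,4),(1,0),(1,1)]⟩⟩]⟩)))) (.I [0,-1,-1,0,1,0,0,0,-1] (.Q [0,-1,0,-1,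
  0,0,2,2,0,1,-2] (.p false [0,0,1] [1,0,-1] (⟨0,[(26,0)]⟩,⟨0,[(25,0)]⟩) .k 2 (⟨0,[(25,0)]⟩,⟨0,[(26,
  0)]⟩) .k (.r 0 ⟨0,[(24,1)]⟩ ⟨5,[(2,3),(5,7),(5,0),(0,0)]⟩)) (.Q [0,1,0,2,0,0,-2,-2,0,-1,2] (.p
  true [0,0,1] [1,0,-1] (⟨0,[(27,0)]⟩,⟨0,[(26,0)]⟩) .k 2 (⟨0,[(26,0)]⟩,⟨0,[(27,0)]⟩) .k (.r 0 ⟨0,
  [(25,1)]⟩ ⟨5,[(3,3),(5,7),(5,0),(0,0)]⟩)) (.Q [0,0,1,0,0,0,2,0,0,1,-2] (.p false [0,0,1] [1,0,-1]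
  (⟨0,[(28,0)]⟩,⟨0,[(27,0)]⟩) .k 2 (⟨0,[(27,0)]⟩,⟨0,[(28,0)]⟩) .k (.r 0 ⟨0,[(26,1)]⟩ ⟨5,[(4,3),(5,
  7),(5,0),(0,0)]⟩)) (.R ⟨1,true,false,true,[0,0,1],[1,1,-1],[1,1,0,-1,0,0,0,1],(⟨0,[(29,0)]⟩,⟨0,
  [(28,0)]⟩),(⟨0,[(28,0),(3,0)]⟩,⟨0,[(10,0)]⟩),⟨0,[(10,0)]⟩,.k,.k,.k,(.r 0 ⟨1,[(2,0),(5,1),(5,0),
  (11,0),(6,0)]⟩ ⟨2,[(5,0),(5,4),(5,0),(0,0)]⟩),(.r (-1) ⟨15,[(2,3),(5,19),(0,3),(7,2),(0,2),(7,7),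
  (0,3),(10,5)]⟩ ⟨0,[(11,1)]⟩),.k,⟨true,0,⟨1,[(2,0),(4,0),(0,0),(5,2),(4,1),(0,1)]⟩,⟨0,[(11,1)]⟩⟩,
  ⟨false,1,⟨3,[(1,1),(6,3),(5,1),(11,1),(10,0),(0,2)]⟩,⟨0,[(0,0)]⟩⟩,⟨true,0,⟨0,[(35,0)]⟩,⟨0,[(36,
  0)]⟩⟩,⟨false,1,⟨35,[(1,29),(3,7),(3,5),(1,3),(5,4),(0,4),(7,11),(11,11)]⟩,⟨0,[(2,0)]⟩⟩,⟨false,0,
  ⟨0,[]⟩,⟨3,[(17,0),(0,0),(19,1)]⟩⟩,⟨true,0,⟨0,[(1,0)]⟩,⟨0,[(2,0),(32,0)]⟩⟩,[]⟩) (.R ⟨1,true,false,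
  true,[0,0,1],[1,1,-1],[0,1,0,0,0,0,0,1],(⟨0,[(29,0)]⟩,⟨0,[(28,0)]⟩),(⟨0,[(28,0),(3,0)]⟩,⟨0,[(10,
  0)]⟩),⟨0,[(10,0)]⟩,.k,.k,.k,(.r 0 ⟨13,[(0,8),(1,6),(5,3),(6,2),(0,4),(9,2)]⟩ ⟨2,[(5,0),(5,4),(5,
  0),(0,0)]⟩),(.r (-1) ⟨17,[(0,3),(1,7),(5,19),(0,3),(7,4),(0,4),(7,7),(11,3)]⟩ ⟨0,[(11,1)]⟩),.k,
  ⟨false,0,⟨2,[(0,1),(1,1),(5,1),(27,0)]⟩,⟨2,[(5,0),(5,4),(5,0),(0,0)]⟩⟩,⟨true,0,⟨0,[(0,0)]⟩,⟨0,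
  [(19,0),(0,0),(4,1)]⟩⟩,⟨true,0,⟨0,[(40,0)]⟩,⟨0,[]⟩⟩,⟨false,1,⟨35,[(1,29),(3,7),(3,5),(1,3),(5,4),
  (0,4),(7,11),(11,11)]⟩,⟨0,[(2,0)]⟩⟩,⟨false,0,⟨0,[(36,0)]⟩,⟨27,[(2,3),(2,7),(3,3),(7,2),(0,2),(6,
  3),(0,11),(11,9)]⟩⟩,⟨true,0,⟨0,[(1,0)]⟩,⟨0,[(2,0),(32,0)]⟩⟩,[]⟩)) (.Q [0,0,0,0,0,-2,0,0,0,0,1]
  (.p true [0,0,1] [] (⟨0,[(28,0)]⟩,⟨0,[(27,0)]⟩) .k 0 (⟨0,[]⟩,⟨0,[]⟩) .k .k) (.I [0,0,2,2,-1,0,0,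
  2] (.Q [0,-1,-1,0,1,0,0,0,-1,-1,0,1] (.p true [0,0,0,1] [1] (⟨0,[(21,0)]⟩,⟨0,[(20,0)]⟩) .k 1 (⟨0,
  []⟩,⟨0,[]⟩) .k .k) (.Q [0,1,1,0,0,0,0,0,1,0,0,-1] (.p false [0,0,0,1] [] (⟨0,[(22,0)]⟩,⟨0,[(21,
  0)]⟩) .k 0 (⟨0,[]⟩,⟨0,[]⟩) .k .k) (.Q [0,1,-1,0,0,0,0,0,-1,0,0,1] (.p true [0,0,0,1] [] (⟨0,[(23,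
  0)]⟩,⟨0,[(22,0)]⟩) .k 0 (⟨0,[]⟩,⟨0,[]⟩) .k .k) (.K ⟨0,[0,0,0,1],0,0,(⟨0,[(24,0)]⟩,⟨0,[(23,0)]⟩),
  .k,(.r (-1) ⟨25,[(5,0),(3,7),(2,5),(0,0),(7,0),(0,13),(7,1),(11,1)]⟩ ⟨0,[(0,0),(17,0),(4,0),(5,0),
  (7,0)]⟩),(.x 0 ⟨0,[(36,0)]⟩ ⟨11,[(4,3),(3,3),(12,4),(0,4),(11,1)]⟩),.k,.k,[⟨0,[(24,0)]⟩,⟨0,[(23,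
  0)]⟩,⟨0,[(0,0)]⟩,⟨0,[(1,0)]⟩]⟩) (.Q [0,0,0,0,0,1,0,0,0,-1,0,1] (.p true [0,0,0,1] [1] (⟨0,[(24,
  0)]⟩,⟨0,[(23,0)]⟩) .k 1 (⟨0,[]⟩,⟨0,[]⟩) .k .k) (.R ⟨0,false,false,false,[1,0,0,-1],[0,1],[0,1,0,0,
  0,0,0,0,-1],(⟨0,[(24,0)]⟩,⟨0,[(25,0)]⟩),(⟨0,[(37,0)]⟩,⟨0,[(36,0)]⟩),⟨0,[(0,0)]⟩,.k,.k,(.x (-1)
  ⟨11,[(5,3),(3,3),(12,4),(0,4),(11,1)]⟩ ⟨0,[(37,0)]⟩),(.x (-1) ⟨11,[(5,3),(3,3),(12,4),(0,4),(11,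
  1)]⟩ ⟨0,[(37,0)]⟩),.k,.k,⟨false,1,⟨5,[(10,1),(2,1),(8,2),(16,1),(2,0),(2,1)]⟩,⟨0,[(1,0),(23,0),
  (15,0)]⟩⟩,⟨true,0,⟨0,[(24,0)]⟩,⟨3,[(0,2),(4,0),(3,0),(15,0),(1,1),(2,1)]⟩⟩,⟨true,0,⟨0,[(45,0)]⟩,
  ⟨0,[]⟩⟩,⟨false,0,⟨0,[(1,0),(22,0),(0,0),(15,0)]⟩,⟨0,[(3,0),(36,0)]⟩⟩,⟨false,0,⟨0,[]⟩,⟨0,[]⟩⟩,
  ⟨false,0,⟨0,[]⟩,⟨0,[]⟩⟩,[.o ⟨false,0,⟨0,[(41,0)]⟩,⟨5,[(14,1),(7,0),(0,0),(11,1),(4,1)]⟩⟩,.o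
  ⟨false,1,⟨7,[(4,0),(3,5),(7,1),(6,2),(14,1),(2,1)]⟩,⟨1,[(12,0),(5,0),(7,1)]⟩⟩,.o ⟨false,1,⟨1,[(25,
  1),(9,0),(6,0)]⟩,⟨0,[(19,0),(4,0),(5,0)]⟩⟩,.a ⟨true,0,⟨0,[(25,0)]⟩,⟨0,[(24,0)]⟩⟩ ⟨false,1,⟨1,[(22,
  0),(19,0)]⟩,⟨0,[(1,0),(23,0)]⟩⟩ ⟨true,0,⟨0,[(24,0),(16,0)]⟩,⟨7,[(0,2),(4,0),(3,0),(2,3),(12,4),(0,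
  5),(1,1)]⟩⟩]⟩) (.R ⟨1,false,false,true,[1,0,0,-1],[1,1,-1],[0,1,0,0,0,0,0,0,-1],(⟨0,[(24,0)]⟩,⟨0,
  [(25,0)]⟩),(⟨0,[(33,0),(3,0)]⟩,⟨0,[(15,0)]⟩),⟨0,[(0,0)]⟩,.k,.k,(.x (-1) ⟨11,[(5,3),(3,3),(12,4),
  (0,4),(11,1)]⟩ ⟨0,[(37,0)]⟩),(.r (-1) ⟨17,[(4,0),(1,1),(6,11),(0,1),(7,10),(0,1),(7,3),(11,3)]⟩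
  ⟨0,[(1,0),(14,0),(8,0),(13,0)]⟩),(.r (-1) ⟨2,[(6,0),(1,0),(1,0),(2,1),(5,0),(2,0),(8,0)]⟩ ⟨3,[(1,
  1),(2,0),(11,5),(6,0),(1,1),(13,1)]⟩),.k,⟨false,1,⟨1,[(13,1),(8,0),(20,0)]⟩,⟨0,[(1,0),(14,0),(8,
  0),(13,0)]⟩⟩,⟨true,0,⟨0,[(19,0),(4,0)]⟩,⟨0,[(25,0),(4,0)]⟩⟩,⟨true,0,⟨0,[(45,0)]⟩,⟨0,[]⟩⟩,⟨false,0,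
  ⟨0,[(1,0),(27,0),(11,0)]⟩,⟨4,[(3,1),(2,1),(4,2),(16,0),(11,0)]⟩⟩,⟨false,0,⟨0,[(41,0)]⟩,⟨7,[(6,0),
  (3,1),(3,0),(7,0),(0,0),(6,0),(0,2),(11,2)]⟩⟩,⟨false,0,⟨0,[(1,0),(27,0),(11,1)]⟩,⟨0,[(11,0),(0,
  0)]⟩⟩,[.o ⟨false,0,⟨0,[(26,0),(14,0)]⟩,⟨3,[(6,1),(15,0),(0,0),(11,0),(7,0)]⟩⟩,.o ⟨false,1,⟨9,[(8,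
  5),(7,1),(6,2),(2,7),(4,1),(3,0),(2,1),(2,5)]⟩,⟨0,[(17,0)]⟩⟩,.o ⟨false,1,⟨1,[(25,1),(9,0),(6,0)]⟩,
  ⟨0,[(19,0),(4,0),(5,0)]⟩⟩,.a ⟨true,0,⟨0,[(25,0)]⟩,⟨0,[(24,0)]⟩⟩ ⟨false,1,⟨1,[(22,0),(19,0)]⟩,⟨0,
  [(1,0),(23,0)]⟩⟩ ⟨true,0,⟨0,[(24,0),(1,0),(14,0)]⟩,⟨1,[(12,0),(5,0),(6,1)]⟩⟩]⟩))) (.Q [0,0,0,0,0,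
  1,0,0,0,-1,0,1] (.p true [0,0,0,1] [1] (⟨0,[(23,0)]⟩,⟨0,[(22,0)]⟩) .k 1 (⟨0,[]⟩,⟨0,[]⟩) .k .k)
  (.R ⟨0,false,false,false,[1,0,0,-1],[0,1],[0,1,0,0,0,0,0,0,-1],(⟨0,[(23,0)]⟩,⟨0,[(24,0)]⟩),(⟨0,
  [(36,0)]⟩,⟨0,[(35,0)]⟩),⟨0,[(0,0)]⟩,.k,.k,(.x (-1) ⟨11,[(4,3),(3,3),(12,4),(0,4),(11,1)]⟩ ⟨0,[(36,
  0)]⟩),(.x (-1) ⟨11,[(4,3),(3,3),(12,4),(0,4),(11,1)]⟩ ⟨0,[(36,0)]⟩),.k,.k,⟨false,0,⟨0,[(1,0),(10,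
  0),(10,0),(1,0),(3,0)]⟩,⟨3,[(21,0),(0,2),(14,3)]⟩⟩,⟨true,0,⟨0,[(23,0)]⟩,⟨3,[(0,2),(3,0),(3,0),(15,
  0),(1,1),(2,1)]⟩⟩,⟨true,0,⟨0,[(44,0)]⟩,⟨0,[]⟩⟩,⟨false,1,⟨3,[(21,0),(0,2),(0,3),(13,3)]⟩,⟨1,[(1,1),
  (9,0),(5,0),(7,1)]⟩⟩,⟨false,0,⟨0,[]⟩,⟨0,[]⟩⟩,⟨false,0,⟨0,[]⟩,⟨0,[]⟩⟩,[.o ⟨false,0,⟨0,[(40,0)]⟩,⟨5,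
  [(13,1),(7,0),(0,0),(11,1),(4,1)]⟩⟩,.o ⟨false,1,⟨7,[(3,0),(3,5),(7,1),(6,2),(14,1),(2,1)]⟩,⟨1,
  [(11,0),(5,0),(7,1)]⟩⟩,.o ⟨false,1,⟨1,[(24,1),(9,0),(6,0)]⟩,⟨0,[(18,0),(4,0),(5,0)]⟩⟩,.a ⟨true,0,
  ⟨0,[(24,0)]⟩,⟨0,[(23,0)]⟩⟩ ⟨false,0,⟨0,[(1,0),(15,0),(5,0),(1,0)]⟩,⟨1,[(22,0),(6,0),(0,0),(11,
  0)]⟩⟩ ⟨true,0,⟨0,[(23,0),(16,0)]⟩,⟨7,[(0,2),(3,0),(3,0),(2,3),(12,4),(0,5),(1,1)]⟩⟩]⟩) (.R ⟨1,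
  false,false,false,[1,0,0,-1],[0,1],[0,1,0,0,0,0,0,0,-1],(⟨0,[(23,0)]⟩,⟨0,[(24,0)]⟩),(⟨0,[(36,0)]⟩,
  ⟨0,[(35,0)]⟩),⟨0,[(0,0)]⟩,.k,.k,(.x (-1) ⟨11,[(4,3),(3,3),(12,4),(0,4),(11,1)]⟩ ⟨0,[(36,0)]⟩),(.x
  (-1) ⟨11,[(4,3),(3,3),(12,4),(0,4),(11,1)]⟩ ⟨0,[(36,0)]⟩),(.r (-1) ⟨3,[(1,0),(5,0),(1,1),(1,0),(0,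
  0),(6,0),(1,0),(1,0)]⟩ ⟨1,[(3,0),(11,1),(6,0)]⟩),.k,⟨false,0,⟨0,[(1,0),(10,0),(10,0),(1,0),(3,
  0)]⟩,⟨3,[(21,0),(0,2),(14,3)]⟩⟩,⟨true,0,⟨0,[(23,0)]⟩,⟨0,[(18,0),(5,0),(4,0)]⟩⟩,⟨true,0,⟨0,[(44,
  0)]⟩,⟨0,[]⟩⟩,⟨false,1,⟨3,[(21,0),(0,2),(0,3),(13,3)]⟩,⟨1,[(1,1),(9,0),(5,0),(7,1)]⟩⟩,⟨false,0,⟨0,
  [(40,0)]⟩,⟨7,[(5,0),(3,1),(3,0),(7,0),(0,0),(6,0),(0,2),(11,2)]⟩⟩,⟨false,1,⟨3,[(3,0),(3,1),(7,1),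
  (6,2),(0,3),(13,1),(2,1)]⟩,⟨0,[(1,0),(9,0),(13,0)]⟩⟩,[.o ⟨false,0,⟨0,[(40,0)]⟩,⟨5,[(13,1),(7,0),
  (0,0),(11,1),(4,1)]⟩⟩,.o ⟨false,1,⟨7,[(3,0),(3,5),(7,1),(6,2),(14,1),(2,1)]⟩,⟨1,[(11,0),(5,0),(7,
  1)]⟩⟩,.o ⟨false,1,⟨1,[(24,1),(9,0),(6,0)]⟩,⟨0,[(18,0),(4,0),(5,0)]⟩⟩,.a ⟨true,0,⟨0,[(24,0)]⟩,⟨0,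
  [(23,0)]⟩⟩ ⟨false,0,⟨0,[(1,0),(15,0),(5,0),(1,0)]⟩,⟨1,[(22,0),(6,0),(0,0),(11,0)]⟩⟩ ⟨true,0,⟨0,
  [(23,0),(16,0)]⟩,⟨1,[(11,0),(5,0),(6,1),(0,1)]⟩⟩]⟩))) (.R ⟨1,false,false,true,[0,-1,1],[0,0,0,1],
  [1,1,-1,-2,0,0,0,1],(⟨0,[(12,0)]⟩,⟨0,[(30,0),(3,0)]⟩),(⟨0,[(22,0)]⟩,⟨0,[(21,0)]⟩),⟨0,[(2,0)]⟩,.k,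
  .k,(.r (-1) ⟨12,[(3,1),(3,2),(2,11),(0,1),(7,1),(0,1),(7,3),(11,3)]⟩ ⟨7,[(1,1),(11,11),(5,0),(0,
  0)]⟩),(.r (-1) ⟨17,[(1,0),(1,1),(6,11),(0,1),(7,10),(0,1),(7,3),(11,3)]⟩ ⟨0,[(0,0),(6,0),(7,0),(6,
  0),(0,0),(11,1),(2,0)]⟩),(.r (-1) ⟨2,[(3,0),(1,0),(1,0),(2,1),(5,0),(2,0),(8,0)]⟩ ⟨3,[(0,1),(12,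
  3),(6,0),(1,1),(9,0),(2,1),(2,1)]⟩),.k,⟨false,1,⟨2,[(3,0),(1,0),(1,0),(2,1),(5,0),(2,0),(8,0)]⟩,
  ⟨0,[(0,0),(6,0),(7,0),(6,0),(0,0),(11,1),(2,1)]⟩⟩,⟨true,0,⟨0,[(16,0),(4,0)]⟩,⟨0,[(22,0),(4,0)]⟩⟩,
  ⟨true,0,⟨0,[(37,0)]⟩,⟨0,[(38,0)]⟩⟩,⟨false,0,⟨0,[(0,0),(22,0),(14,0),(1,0)]⟩,⟨1,[(8,1),(0,0),(5,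
  0)]⟩⟩,⟨false,0,⟨0,[]⟩,⟨3,[(19,0),(0,0),(19,1)]⟩⟩,⟨false,0,⟨0,[(0,0),(22,0),(14,1),(1,0)]⟩,⟨0,[(8,
  0),(0,0)]⟩⟩,[.a ⟨true,(-1),⟨0,[(0,0)]⟩,⟨0,[(8,0)]⟩⟩ ⟨true,0,⟨1,[(3,0),(6,0),(6,0),(8,0)]⟩,⟨0,[(13,
  0),(21,0)]⟩⟩ ⟨false,0,⟨0,[(0,0),(15,0),(22,0)]⟩,⟨0,[(8,0),(18,0)]⟩⟩,.o ⟨false,0,⟨1,[(0,1),(31,0),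
  (7,0)]⟩,⟨0,[(8,0),(6,0),(7,0)]⟩⟩,.o ⟨false,0,⟨0,[(27,0)]⟩,⟨3,[(16,1),(11,1),(3,0),(6,2)]⟩⟩,.o
  ⟨false,0,⟨1,[(27,2),(0,0)]⟩,⟨0,[(16,0),(22,0)]⟩⟩]⟩)) (.Q [0,-1,0,1,0,0,1,1,0,1,-1] (.p false [0,0,
  1] [1] (⟨0,[(30,0)]⟩,⟨0,[(29,0)]⟩) .k 1 (⟨0,[]⟩,⟨0,[]⟩) .k .k) (.Q [0,1,0,-1,0,0,-1,-1,0,0,1] (.p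
  true [0,0,1] [] (⟨0,[(31,0)]⟩,⟨0,[(30,0)]⟩) .k 0 (⟨0,[]⟩,⟨0,[]⟩) .k .k) (.R ⟨1,false,false,true,
  [0,-1,1],[1,-1,-1],[1,1,-1,-2,0,0,0,1],(⟨0,[(13,0)]⟩,⟨0,[(31,0),(3,0)]⟩),(⟨0,[(7,0)]⟩,⟨0,[(32,0),
  (2,0)]⟩),⟨0,[(3,0)]⟩,.k,.k,(.r (-1) ⟨12,[(4,1),(3,2),(2,11),(0,1),(7,1),(0,1),(7,3),(11,3)]⟩ ⟨2,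
  [(14,3),(11,0),(2,0),(6,0),(2,0)]⟩),.k,(.r 0 ⟨2,[(1,0),(2,0),(6,1),(5,1),(11,0),(0,0)]⟩ ⟨7,[(2,1),
  (11,11),(5,2),(0,2)]⟩),.k,⟨false,0,⟨2,[(1,0),(2,0),(6,1),(5,1),(11,0),(0,0)]⟩,⟨7,[(2,1),(11,11),
  (5,0),(0,0),(18,3)]⟩⟩,⟨true,0,⟨0,[(17,1),(4,0),(0,0)]⟩,⟨0,[(4,0),(9,1),(22,0)]⟩⟩,⟨true,0,⟨0,[(38,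
  0)]⟩,⟨0,[(39,0)]⟩⟩,⟨false,1,⟨0,[(24,0),(2,0),(13,0)]⟩,⟨1,[(1,0),(3,0),(10,0)]⟩⟩,⟨false,0,⟨0,[]⟩,
  ⟨3,[(20,0),(0,0),(19,1)]⟩⟩,⟨false,1,⟨0,[(24,0),(2,0),(11,0),(1,0)]⟩,⟨0,[(5,0)]⟩⟩,[.a ⟨true,0,⟨0,
  [(0,0)]⟩,⟨0,[(1,0)]⟩⟩ ⟨true,0,⟨8,[(0,1),(3,2),(6,4),(6,2),(10,0),(8,1)]⟩,⟨0,[(14,0),(21,0)]⟩⟩
  ⟨false,1,⟨7,[(8,2),(2,0),(5,6),(0,0),(8,5),(1,1),(10,4)]⟩,⟨0,[(1,0),(26,0)]⟩⟩,.o ⟨false,1,⟨1,[(2,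
  0),(26,1),(3,0)]⟩,⟨0,[(16,0),(22,0)]⟩⟩,.o ⟨false,0,⟨0,[(28,0)]⟩,⟨3,[(17,1),(11,1),(3,0),(6,2)]⟩⟩,
  .o ⟨false,0,⟨1,[(28,2),(0,0)]⟩,⟨0,[(17,0),(22,0)]⟩⟩]⟩) (.I [0,0,-1,0,0,0,0,0,-1] (.Q [0,1,1,0,0,0,
  0,0,1,0,0,-1] (.p false [0,0,0,1] [] (⟨0,[(24,0)]⟩,⟨0,[(23,0)]⟩) .k 0 (⟨0,[]⟩,⟨0,[]⟩) .k .k) (.K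
  ⟨0,[0,0,0,1],0,0,(⟨0,[(25,0)]⟩,⟨0,[(24,0)]⟩),.k,(.r (-1) ⟨25,[(6,0),(3,7),(2,5),(0,0),(7,0),(0,
  13),(7,1),(11,1)]⟩ ⟨3,[(1,3),(14,1),(11,1),(1,0),(0,2),(6,1)]⟩),(.x 0 ⟨0,[(37,0)]⟩ ⟨11,[(5,3),(3,
  3),(12,4),(0,4),(11,1)]⟩),.k,.k,[⟨0,[(25,0)]⟩,⟨0,[(24,0)]⟩,⟨0,[(1,0),(23,0),(19,0)]⟩,⟨0,[(0,
  0)]⟩]⟩) (.Q [0,0,0,0,0,-1,0,0,0,1,0,-1] (.p false [0,0,0,1] [1] (⟨0,[(25,0)]⟩,⟨0,[(24,0)]⟩) .k 1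
  (⟨0,[]⟩,⟨0,[]⟩) .k .k) (.R ⟨1,false,false,true,[1,0,0,-1],[1,1,-1],[0,1,0,0,0,0,0,0,-1],(⟨0,[(25,
  0)]⟩,⟨0,[(26,0)]⟩),(⟨0,[(34,0),(3,0)]⟩,⟨0,[(16,0)]⟩),⟨0,[(0,0)]⟩,.k,.k,(.x (-1) ⟨11,[(6,3),(3,3),
  (12,4),(0,4),(11,1)]⟩ ⟨0,[(38,0)]⟩),(.r 0 ⟨5,[(2,5),(4,1),(6,0),(5,0),(0,0),(10,1),(0,0)]⟩ ⟨3,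
  [(17,3),(5,0),(0,2)]⟩),(.r 0 ⟨3,[(1,2),(0,0),(10,2),(0,1),(5,1),(4,2),(1,0)]⟩ ⟨11,[(17,15),(5,2),
  (0,8),(4,3),(2,3),(6,3),(2,3)]⟩),.k,⟨false,0,⟨3,[(1,0),(0,2),(4,0),(6,1),(5,1),(4,0)]⟩,⟨3,[(17,3),
  (5,0),(0,2)]⟩⟩,⟨true,0,⟨0,[(20,0),(4,0)]⟩,⟨0,[(26,0),(4,0)]⟩⟩,⟨true,0,⟨0,[(46,0)]⟩,⟨0,[]⟩⟩,⟨false,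
  1,⟨4,[(9,0),(7,1),(6,2),(0,4),(1,2),(4,1),(3,0),(2,1),(2,0)]⟩,⟨1,[(1,1),(11,0),(5,0)]⟩⟩,⟨false,0,
  ⟨0,[(42,0)]⟩,⟨5,[(5,0),(1,0),(7,0),(7,0),(0,0),(7,1),(11,1)]⟩⟩,⟨false,1,⟨4,[(9,0),(7,1),(6,2),(0,
  4),(1,2),(4,1),(3,0),(2,1),(2,5)]⟩,⟨0,[(1,0),(11,0)]⟩⟩,[.o ⟨false,0,⟨0,[(27,0),(14,0)]⟩,⟨3,[(7,1),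
  (15,0),(0,0),(11,0),(7,0)]⟩⟩,.o ⟨false,1,⟨9,[(9,5),(7,1),(6,2),(2,7),(4,1),(3,0),(2,1),(2,5)]⟩,⟨0,
  [(18,0)]⟩⟩,.o ⟨false,1,⟨1,[(26,1),(9,0),(6,0)]⟩,⟨0,[(20,0),(4,0),(5,0)]⟩⟩,.a ⟨true,0,⟨0,[(26,0)]⟩,
  ⟨0,[(25,0)]⟩⟩ ⟨false,0,⟨0,[(2,0)]⟩,⟨1,[(24,0),(6,0),(0,0),(11,0)]⟩⟩ ⟨true,0,⟨0,[(25,0),(1,0),(14,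
  0)]⟩,⟨1,[(13,0),(5,0),(6,1)]⟩⟩]⟩) (.R ⟨0,false,false,false,[1,0,0,-1],[0,1],[0,1,0,0,0,0,0,0,-1],
  (⟨0,[(25,0)]⟩,⟨0,[(26,0)]⟩),(⟨0,[(38,0)]⟩,⟨0,[(37,0)]⟩),⟨0,[(0,0)]⟩,.k,.k,(.x (-1) ⟨11,[(6,3),(3,
  3),(12,4),(0,4),(11,1)]⟩ ⟨0,[(38,0)]⟩),(.x (-1) ⟨11,[(6,3),(3,3),(12,4),(0,4),(11,1)]⟩ ⟨0,[(38,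
  0)]⟩),.k,.k,⟨false,0,⟨1,[(1,0),(0,0),(10,0),(11,0),(1,0),(12,1)]⟩,⟨3,[(23,0),(0,2),(14,3)]⟩⟩,
  ⟨true,0,⟨0,[(25,0)]⟩,⟨3,[(0,2),(5,0),(3,0),(15,0),(1,1),(2,1)]⟩⟩,⟨true,0,⟨0,[(46,0)]⟩,⟨0,[]⟩⟩,
  ⟨false,1,⟨3,[(23,0),(0,2),(0,3),(13,3)]⟩,⟨1,[(1,1),(11,0),(5,0),(7,1)]⟩⟩,⟨false,0,⟨0,[]⟩,⟨0,[]⟩⟩,
  ⟨false,0,⟨0,[]⟩,⟨0,[]⟩⟩,[.o ⟨false,0,⟨0,[(42,0)]⟩,⟨5,[(15,1),(7,0),(0,0),(11,1),(4,1)]⟩⟩,.o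
  ⟨false,1,⟨7,[(9,3),(13,0),(0,2),(14,3),(2,3)]⟩,⟨1,[(13,0),(5,0),(7,1)]⟩⟩,.o ⟨false,1,⟨1,[(26,1),
  (9,0),(6,0)]⟩,⟨0,[(20,0),(4,0),(5,0)]⟩⟩,.a ⟨true,0,⟨0,[(26,0)]⟩,⟨0,[(25,0)]⟩⟩ ⟨false,0,⟨0,[(2,
  0)]⟩,⟨1,[(24,0),(6,0),(0,0),(11,0)]⟩⟩ ⟨true,0,⟨0,[(25,0),(16,0)]⟩,⟨7,[(0,2),(5,0),(3,0),(2,3),(12,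
  4),(0,5),(1,1)]⟩⟩]⟩))) (.I [1,0,0,-1,0,0,0,0,1] (.Q [0,0,0,0,0,-1,0,0,0,1,0,-1] (.p false [0,0,0,
  1] [1] (⟨0,[(25,0)]⟩,⟨0,[(24,0)]⟩) .k 1 (⟨0,[]⟩,⟨0,[]⟩) .k .k) (.R ⟨1,false,false,false,[1,0,0,
  -1],[0,0,1],[0,0,0,0,0,0,0,0,-1],(⟨0,[(25,0)]⟩,⟨0,[(26,0)]⟩),(⟨0,[(35,0)]⟩,⟨0,[(34,0)]⟩),⟨0,[(0,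
  0)]⟩,.k,.k,(.x (-1) ⟨11,[(6,3),(3,3),(12,4),(0,4),(11,1)]⟩ ⟨0,[(38,0)]⟩),.k,(.r (-1) ⟨1,[(5,0),
  (17,0)]⟩ ⟨0,[(2,0),(30,0),(8,0)]⟩),.k,⟨false,1,⟨3,[(5,0),(3,1),(7,1),(5,0),(16,1)]⟩,⟨1,[(2,1),(1,
  0),(9,0),(5,0)]⟩⟩,⟨true,0,⟨0,[(25,0),(5,0)]⟩,⟨0,[(20,0),(5,0)]⟩⟩,⟨false,1,⟨3,[(23,0),(0,0),(19,
  1)]⟩,⟨0,[]⟩⟩,⟨false,0,⟨5,[(1,2),(0,2),(0,3),(3,0),(17,5),(2,0),(2,0),(7,0)]⟩,⟨0,[(12,0),(14,0)]⟩⟩,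
  ⟨true,0,⟨0,[(42,0)]⟩,⟨0,[(41,0)]⟩⟩,⟨false,0,⟨0,[(2,0),(0,0),(21,0)]⟩,⟨1,[(5,0),(14,1),(2,0),(2,
  1)]⟩⟩,[.o ⟨false,0,⟨0,[(19,0)]⟩,⟨1,[(30,1),(5,0),(7,0)]⟩⟩,.o ⟨false,1,⟨7,[(22,3),(0,0),(0,0),(11,
  1),(7,3)]⟩,⟨0,[(27,0)]⟩⟩,.o ⟨false,1,⟨1,[(26,1),(9,0),(6,0)]⟩,⟨0,[(20,0),(4,0),(5,0)]⟩⟩,.a ⟨true,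
  0,⟨0,[(26,0)]⟩,⟨0,[(25,0)]⟩⟩ ⟨false,1,⟨0,[(9,0)]⟩,⟨0,[(2,0)]⟩⟩ ⟨true,0,⟨0,[(19,0),(5,0)]⟩,⟨0,[(26,
  0),(0,0)]⟩⟩]⟩) (.R ⟨0,false,false,false,[1,0,0,-1],[0,1],[1,0,0,0,0,0,0,0,-1],(⟨0,[(25,0)]⟩,⟨0,
  [(26,0)]⟩),(⟨0,[(38,0)]⟩,⟨0,[(37,0)]⟩),⟨0,[(0,0)]⟩,.k,.k,(.x (-1) ⟨11,[(6,3),(3,3),(12,4),(0,4),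
  (11,1)]⟩ ⟨0,[(38,0)]⟩),(.x (-1) ⟨11,[(6,3),(3,3),(12,4),(0,4),(11,1)]⟩ ⟨0,[(38,0)]⟩),.k,.k,⟨false,
  1,⟨3,[(5,0),(3,1),(4,1),(8,0)]⟩,⟨0,[(2,0),(39,0)]⟩⟩,⟨true,0,⟨0,[(25,0)]⟩,⟨3,[(0,2),(5,0),(3,0),
  (15,0),(1,1),(2,1)]⟩⟩,⟨true,0,⟨0,[]⟩,⟨0,[(46,0)]⟩⟩,⟨false,0,⟨0,[(1,0),(23,0),(13,0),(2,0)]⟩,⟨11,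
  [(0,5),(4,0),(0,1),(3,1),(1,5),(0,3),(0,1),(8,2),(3,3),(8,1)]⟩⟩,⟨false,0,⟨0,[]⟩,⟨0,[]⟩⟩,⟨false,0,
  ⟨0,[]⟩,⟨0,[]⟩⟩,[.o ⟨false,0,⟨0,[(42,0)]⟩,⟨5,[(15,1),(7,0),(0,0),(11,1),(4,1)]⟩⟩,.o ⟨false,1,⟨7,
  [(9,3),(13,0),(0,2),(14,3),(2,3)]⟩,⟨1,[(13,0),(5,0),(7,1)]⟩⟩,.o ⟨false,1,⟨1,[(26,1),(9,0),(6,0)]⟩,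
  ⟨0,[(20,0),(4,0),(5,0)]⟩⟩,.a ⟨true,0,⟨0,[(26,0)]⟩,⟨0,[(25,0)]⟩⟩ ⟨false,1,⟨0,[(9,0)]⟩,⟨0,[(1,0),(1,
  1),(2,2),(0,0),(2,2),(6,0),(2,0),(6,2),(10,8)]⟩⟩ ⟨true,0,⟨0,[(25,0),(16,0)]⟩,⟨7,[(0,2),(5,0),(3,
  0),(2,3),(12,4),(0,5),(1,1)]⟩⟩]⟩)) (.Q [0,1,-1,0,0,0,0,0,-1,0,0,1] (.p true [0,0,0,1] [] (⟨0,[(25,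
  0)]⟩,⟨0,[(24,0)]⟩) .k 0 (⟨0,[]⟩,⟨0,[]⟩) .k .k) (.K ⟨0,[0,0,0,1],0,0,(⟨0,[(26,0)]⟩,⟨0,[(25,0)]⟩),
  .k,(.r (-1) ⟨25,[(7,0),(3,7),(2,5),(0,0),(7,0),(0,13),(7,1),(11,1)]⟩ ⟨1,[(1,1),(29,0),(0,0)]⟩),
  (.x 0 ⟨0,[(38,0)]⟩ ⟨11,[(6,3),(3,3),(12,4),(0,4),(11,1)]⟩),.k,.k,[⟨0,[(26,0)]⟩,⟨0,[(25,0)]⟩,⟨0,
  [(0,0)]⟩,⟨0,[(2,0),(16,0),(5,0),(1,0)]⟩]⟩) (.R ⟨2,true,false,false,[0,1],[0,0,0,1],[1,0,1],(⟨0,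
  []⟩,⟨0,[]⟩),(⟨0,[(26,0)]⟩,⟨0,[(25,0)]⟩),⟨0,[]⟩,.k,.k,.k,(.r 0 ⟨1,[(1,1),(29,0),(0,0)]⟩ ⟨25,[(7,0),
  (3,7),(2,5),(0,0),(7,0),(0,13),(7,1),(11,1)]⟩),.k,.k,⟨true,0,⟨0,[(1,0),(11,0),(16,0),(8,0)]⟩,⟨0,
  [(0,0),(25,0),(13,0)]⟩⟩,⟨false,0,⟨1,[(0,0),(0,0),(19,0),(3,0),(5,0)]⟩,⟨0,[(26,0),(16,0)]⟩⟩,⟨false,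
  1,⟨5,[(5,0),(1,0),(7,0),(7,0),(0,0),(7,1),(11,1)]⟩,⟨0,[(42,0)]⟩⟩,⟨true,0,⟨0,[(0,0),(40,0)]⟩,⟨0,
  [(1,0),(24,0),(13,0)]⟩⟩,⟨true,0,⟨0,[]⟩,⟨0,[(46,0)]⟩⟩,⟨false,0,⟨0,[(0,0)]⟩,⟨0,[(12,0),(33,0)]⟩⟩,
  []⟩))))) (.I [1,0,0,0,0,0,0,1,1] (.Q [0,1,-1,0,0,0,0,0,-1,0,0,1] (.p true [0,0,0,1] [] (⟨0,[(23,
  0)]⟩,⟨0,[(22,0)]⟩) .k 0 (⟨0,[]⟩,⟨0,[]⟩) .k .k) (.K ⟨0,[0,0,0,1],0,0,(⟨0,[(24,0)]⟩,⟨0,[(23,0)]⟩),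
  .k,(.r (-1) ⟨25,[(5,0),(3,7),(2,5),(0,0),(7,0),(0,13),(7,1),(11,1)]⟩ ⟨0,[(0,0),(17,0),(4,0),(5,0),
  (7,0)]⟩),(.x 0 ⟨0,[(36,0)]⟩ ⟨11,[(4,3),(3,3),(12,4),(0,4),(11,1)]⟩),.k,.k,[⟨0,[(24,0)]⟩,⟨0,[(23,
  0)]⟩,⟨0,[(0,0)]⟩,⟨0,[(1,0),(21,0),(1,0),(3,0)]⟩]⟩) (.Q [0,0,0,0,0,-1,0,0,0,1,0,-1] (.p false [0,0,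
  0,1] [1] (⟨0,[(24,0)]⟩,⟨0,[(23,0)]⟩) .k 1 (⟨0,[]⟩,⟨0,[]⟩) .k .k) (.R ⟨1,false,false,false,[1,0,0,
  -1],[0,0,1],[0,0,0,0,0,0,0,0,-1],(⟨0,[(24,0)]⟩,⟨0,[(25,0)]⟩),(⟨0,[(34,0)]⟩,⟨0,[(33,0)]⟩),⟨0,[(0,
  0)]⟩,.k,.k,(.x (-1) ⟨11,[(5,3),(3,3),(12,4),(0,4),(11,1)]⟩ ⟨0,[(37,0)]⟩),.k,(.r (-1) ⟨1,[(4,0),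
  (17,0)]⟩ ⟨2,[(2,2),(13,0),(11,0),(2,0),(6,0),(2,0)]⟩),.k,⟨false,1,⟨3,[(4,0),(3,1),(7,1),(5,0),(16,
  1)]⟩,⟨0,[(2,0)]⟩⟩,⟨true,0,⟨0,[(24,0),(5,0)]⟩,⟨0,[(19,0),(5,0)]⟩⟩,⟨false,1,⟨3,[(22,0),(0,0),(19,
  1)]⟩,⟨0,[]⟩⟩,⟨false,0,⟨1,[(1,1),(19,0),(2,0),(0,0)]⟩,⟨0,[(11,0),(14,0)]⟩⟩,⟨true,0,⟨0,[(41,0)]⟩,⟨0,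
  [(40,0)]⟩⟩,⟨false,0,⟨1,[(1,1),(19,0),(2,0),(0,0),(15,1)]⟩,⟨0,[(3,0),(7,0)]⟩⟩,[.o ⟨false,0,⟨0,[(18,
  0)]⟩,⟨1,[(29,1),(5,0),(7,0)]⟩⟩,.o ⟨false,1,⟨7,[(21,3),(0,0),(0,0),(11,1),(7,3)]⟩,⟨0,[(26,0)]⟩⟩,.o
  ⟨false,1,⟨1,[(25,1),(9,0),(6,0)]⟩,⟨0,[(19,0),(4,0),(5,0)]⟩⟩,.a ⟨true,0,⟨0,[(25,0)]⟩,⟨0,[(24,0)]⟩⟩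
  ⟨false,1,⟨0,[(8,0)]⟩,⟨1,[(1,0),(0,0),(13,0),(8,0),(14,0)]⟩⟩ ⟨true,0,⟨0,[(18,0),(5,0)]⟩,⟨0,[(25,0),
  (0,0)]⟩⟩]⟩) (.R ⟨0,false,false,false,[1,0,0,-1],[0,1],[1,0,0,0,0,0,0,0,-1],(⟨0,[(24,0)]⟩,⟨0,[(25,
  0)]⟩),(⟨0,[(37,0)]⟩,⟨0,[(36,0)]⟩),⟨0,[(0,0)]⟩,.k,.k,(.x (-1) ⟨11,[(5,3),(3,3),(12,4),(0,4),(11,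
  1)]⟩ ⟨0,[(37,0)]⟩),(.x (-1) ⟨11,[(5,3),(3,3),(12,4),(0,4),(11,1)]⟩ ⟨0,[(37,0)]⟩),.k,.k,⟨false,1,
  ⟨3,[(4,0),(3,1),(4,1),(8,0)]⟩,⟨0,[(2,0),(13,0)]⟩⟩,⟨true,0,⟨0,[(24,0)]⟩,⟨3,[(0,2),(4,0),(3,0),(15,
  0),(1,1),(2,1)]⟩⟩,⟨true,0,⟨0,[]⟩,⟨0,[(45,0)]⟩⟩,⟨false,0,⟨0,[(1,0),(22,0),(0,0),(15,0)]⟩,⟨9,[(0,5),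
  (2,1),(0,0),(0,1),(3,1),(1,3),(0,1),(0,1),(8,2),(12,1)]⟩⟩,⟨false,0,⟨0,[]⟩,⟨0,[]⟩⟩,⟨false,0,⟨0,[]⟩,
  ⟨0,[]⟩⟩,[.o ⟨false,0,⟨0,[(41,0)]⟩,⟨5,[(14,1),(7,0),(0,0),(11,1),(4,1)]⟩⟩,.o ⟨false,1,⟨7,[(8,3),
  (13,0),(0,2),(14,3),(2,3)]⟩,⟨0,[(3,0),(14,0)]⟩⟩,.o ⟨false,1,⟨1,[(25,1),(9,0),(6,0)]⟩,⟨0,[(19,0),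
  (4,0),(5,0)]⟩⟩,.a ⟨true,0,⟨0,[(25,0)]⟩,⟨0,[(24,0)]⟩⟩ ⟨false,1,⟨0,[(8,0)]⟩,⟨1,[(1,0),(0,0),(13,0),
  (8,0),(14,0)]⟩⟩ ⟨true,0,⟨0,[(24,0),(16,0)]⟩,⟨4,[(0,2),(2,2),(1,0),(3,0),(2,0),(12,1),(2,
  1)]⟩⟩]⟩))) (.Q [0,1,1,0,0,0,0,0,1,0,0,-1] (.p false [0,0,0,1] [] (⟨0,[(23,0)]⟩,⟨0,[(22,0)]⟩) .k 0
  (⟨0,[]⟩,⟨0,[]⟩) .k .k) (.K ⟨0,[0,0,0,1],0,0,(⟨0,[(24,0)]⟩,⟨0,[(23,0)]⟩),.k,(.r (-1) ⟨25,[(5,0),(3,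
  7),(2,5),(0,0),(7,0),(0,13),(7,1),(11,1)]⟩ ⟨1,[(1,1),(25,0),(2,0),(0,0),(5,0),(2,0)]⟩),(.x 0 ⟨0,
  [(36,0)]⟩ ⟨11,[(4,3),(3,3),(12,4),(0,4),(11,1)]⟩),.k,.k,[⟨0,[(24,0)]⟩,⟨0,[(23,0)]⟩,⟨2,[(1,2),(10,
  1),(11,2),(2,0),(2,0),(9,1)]⟩,⟨0,[(0,0)]⟩]⟩) (.Q [0,0,0,0,0,-1,0,0,0,1,0,-1] (.p false [0,0,0,1]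
  [1] (⟨0,[(24,0)]⟩,⟨0,[(23,0)]⟩) .k 1 (⟨0,[]⟩,⟨0,[]⟩) .k .k) (.R ⟨1,false,false,false,[1,0,0,-1],
  [0,0,1],[0,1,0,0,0,0,0,0,-1],(⟨0,[(24,0)]⟩,⟨0,[(25,0)]⟩),(⟨0,[(34,0)]⟩,⟨0,[(33,0)]⟩),⟨0,[(0,0)]⟩,
  .k,.k,(.x (-1) ⟨11,[(5,3),(3,3),(12,4),(0,4),(11,1)]⟩ ⟨0,[(37,0)]⟩),.k,(.x 0 ⟨0,[(9,0),(9,0)]⟩ ⟨3,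
  [(22,0),(0,0),(6,3),(3,3),(2,3),(4,1)]⟩),.k,⟨false,0,⟨0,[(2,0),(36,0)]⟩,⟨1,[(23,0),(8,1),(10,
  0)]⟩⟩,⟨true,0,⟨0,[(24,0),(5,0)]⟩,⟨0,[(19,0),(5,0)]⟩⟩,⟨true,0,⟨0,[(45,0)]⟩,⟨0,[]⟩⟩,⟨false,1,⟨11,
  [(6,1),(14,3),(1,5),(0,11),(5,3),(0,3),(3,2),(2,3),(4,2)]⟩,⟨0,[(1,0),(24,0)]⟩⟩,⟨false,0,⟨0,[(41,
  0)]⟩,⟨5,[(4,0),(1,0),(7,0),(7,0),(0,0),(7,1),(11,1)]⟩⟩,⟨false,1,⟨7,[(21,3),(0,0),(0,4),(0,7),(10,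
  1),(2,7)]⟩,⟨0,[(1,0),(1,0)]⟩⟩,[.o ⟨false,0,⟨0,[(18,0)]⟩,⟨1,[(29,1),(5,0),(7,0)]⟩⟩,.o ⟨false,1,⟨7,
  [(21,3),(0,0),(0,0),(11,1),(7,3)]⟩,⟨0,[(26,0)]⟩⟩,.o ⟨false,1,⟨1,[(25,1),(9,0),(6,0)]⟩,⟨0,[(19,0),
  (4,0),(5,0)]⟩⟩,.a ⟨true,0,⟨0,[(25,0)]⟩,⟨0,[(24,0)]⟩⟩ ⟨false,0,⟨2,[(1,0),(0,1),(10,0),(4,0),(0,0),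
  (4,0),(16,0)]⟩,⟨1,[(23,0),(6,0),(0,0),(11,0)]⟩⟩ ⟨true,0,⟨0,[(18,0),(5,0)]⟩,⟨0,[(25,0),(0,0)]⟩⟩]⟩)
  (.R ⟨0,false,false,false,[1,0,0,-1],[0,1],[0,1,0,0,0,0,0,0,-1],(⟨0,[(24,0)]⟩,⟨0,[(25,0)]⟩),(⟨0,
  [(37,0)]⟩,⟨0,[(36,0)]⟩),⟨0,[(0,0)]⟩,.k,.k,(.x (-1) ⟨11,[(5,3),(3,3),(12,4),(0,4),(11,1)]⟩ ⟨0,[(37,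
  0)]⟩),(.x (-1) ⟨11,[(5,3),(3,3),(12,4),(0,4),(11,1)]⟩ ⟨0,[(37,0)]⟩),.k,.k,⟨false,0,⟨0,[(2,0),(10,
  0)]⟩,⟨3,[(22,0),(0,2),(14,3)]⟩⟩,⟨true,0,⟨0,[(24,0)]⟩,⟨3,[(0,2),(4,0),(3,0),(15,0),(1,1),(2,1)]⟩⟩,
  ⟨true,0,⟨0,[(45,0)]⟩,⟨0,[]⟩⟩,⟨false,1,⟨3,[(22,0),(0,2),(0,3),(13,3)]⟩,⟨0,[(1,0),(1,0),(14,0)]⟩⟩,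
  ⟨false,0,⟨0,[]⟩,⟨0,[]⟩⟩,⟨false,0,⟨0,[]⟩,⟨0,[]⟩⟩,[.o ⟨false,0,⟨0,[(41,0)]⟩,⟨5,[(14,1),(7,0),(0,0),
  (11,1),(4,1)]⟩⟩,.o ⟨false,1,⟨7,[(8,3),(13,0),(0,2),(14,3),(2,3)]⟩,⟨0,[(3,0),(14,0)]⟩⟩,.o ⟨false,1,
  ⟨1,[(25,1),(9,0),(6,0)]⟩,⟨0,[(19,0),(4,0),(5,0)]⟩⟩,.a ⟨true,0,⟨0,[(25,0)]⟩,⟨0,[(24,0)]⟩⟩ ⟨false,0,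
  ⟨2,[(1,0),(0,1),(10,0),(4,0),(0,0),(4,0),(16,0)]⟩,⟨1,[(23,0),(6,0),(0,0),(11,0)]⟩⟩ ⟨true,0,⟨0,
  [(24,0),(16,0)]⟩,⟨4,[(0,2),(2,2),(1,0),(3,0),(2,0),(12,1),(2,1)]⟩⟩]⟩)))))) (.Q [0,1,0,-1,0,0,-1,
  -1,0,0,1] (.p true [0,0,1] [] (⟨0,[(29,0)]⟩,⟨0,[(28,0)]⟩) .k 0 (⟨0,[]⟩,⟨0,[]⟩) .k .k) (.Q [0,-1,0,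
  1,0,0,1,1,0,1,-1] (.p false [0,0,1] [1] (⟨0,[(30,0)]⟩,⟨0,[(29,0)]⟩) .k 1 (⟨0,[]⟩,⟨0,[]⟩) .k .k)
  (.R ⟨0,false,false,true,[0,-1,1],[1,-1,-1],[1],(⟨0,[(12,0)]⟩,⟨0,[(2,0),(30,0)]⟩),(⟨0,[(6,0)]⟩,⟨1,
  [(2,0),(28,2)]⟩),⟨0,[(2,0)]⟩,.k,.k,(.r (-1) ⟨12,[(3,1),(3,2),(2,11),(0,1),(7,1),(0,1),(7,3),(11,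
  3)]⟩ ⟨2,[(13,3),(11,0),(2,0),(6,0),(2,0)]⟩),.k,.k,.k,⟨false,0,⟨0,[(0,0),(15,0)]⟩,⟨5,[(7,3),(5,1),
  (5,0),(0,0),(21,5)]⟩⟩,⟨true,0,⟨0,[(16,1),(4,0),(0,0)]⟩,⟨0,[(3,0),(9,1),(22,0)]⟩⟩,⟨true,0,⟨0,[(13,
  0)]⟩,⟨4,[(10,2),(6,0),(0,0),(9,0),(8,0)]⟩⟩,⟨false,1,⟨0,[(23,0),(2,0),(13,0)]⟩,⟨1,[(0,0),(3,0),(10,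
  0)]⟩⟩,⟨false,0,⟨0,[]⟩,⟨0,[]⟩⟩,⟨false,0,⟨0,[]⟩,⟨0,[]⟩⟩,[.a ⟨true,0,⟨0,[(1,0)]⟩,⟨0,[(0,0)]⟩⟩ ⟨true,
  0,⟨0,[]⟩,⟨1,[(27,0),(0,0)]⟩⟩ ⟨false,1,⟨0,[(1,0),(14,0),(22,0)]⟩,⟨0,[(0,0),(26,0)]⟩⟩,.o ⟨false,1,
  ⟨1,[(1,1),(30,0),(7,0)]⟩,⟨0,[(15,0),(22,0)]⟩⟩,.o ⟨false,0,⟨0,[(27,0)]⟩,⟨3,[(16,1),(11,1),(3,0),(6,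
  2)]⟩⟩,.o ⟨false,0,⟨1,[(27,2),(0,0)]⟩,⟨0,[(16,0),(22,0)]⟩⟩]⟩) (.Q [0,1,-1,0,0,0,0,0,-1,0,0,1] (.p
  true [0,0,0,1] [] (⟨0,[(22,0)]⟩,⟨0,[(21,0)]⟩) .k 0 (⟨0,[]⟩,⟨0,[]⟩) .k .k) (.Q [0,1,1,0,0,0,0,0,1,
  0,0,-1] (.p false [0,0,0,1] [] (⟨0,[(23,0)]⟩,⟨0,[(22,0)]⟩) .k 0 (⟨0,[]⟩,⟨0,[]⟩) .k .k) (.K ⟨0,[0,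
  0,0,1],0,0,(⟨0,[(24,0)]⟩,⟨0,[(23,0)]⟩),.k,(.r (-1) ⟨25,[(5,0),(3,7),(2,5),(0,0),(7,0),(0,13),(7,
  1),(11,1)]⟩ ⟨0,[(1,0),(16,0),(4,0),(5,0),(7,0)]⟩),(.x 0 ⟨0,[(36,0)]⟩ ⟨3,[(21,0),(0,0),(11,1),(0,
  3)]⟩),.k,.k,[⟨0,[(24,0)]⟩,⟨0,[(23,0)]⟩,⟨0,[(1,0)]⟩,⟨0,[(0,0)]⟩]⟩) (.Q [0,0,0,0,0,1,0,0,0,-1,0,1]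
  (.p true [0,0,0,1] [1] (⟨0,[(24,0)]⟩,⟨0,[(23,0)]⟩) .k 1 (⟨0,[]⟩,⟨0,[]⟩) .k .k) (.R ⟨0,false,false,
  false,[1,0,0,-1],[0,1],[0,1,0,0,0,0,0,0,-1],(⟨0,[(24,0)]⟩,⟨0,[(25,0)]⟩),(⟨0,[(37,0)]⟩,⟨0,[(36,
  0)]⟩),⟨0,[(0,0)]⟩,.k,.k,(.x (-1) ⟨3,[(22,0),(0,0),(11,1),(0,3)]⟩ ⟨0,[(37,0)]⟩),(.x (-1) ⟨3,[(22,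
  0),(0,0),(11,1),(0,3)]⟩ ⟨0,[(37,0)]⟩),.k,.k,⟨false,0,⟨0,[(1,0),(11,0),(10,0),(1,0),(3,0)]⟩,⟨3,
  [(22,0),(0,2),(14,3)]⟩⟩,⟨true,0,⟨0,[(24,0)]⟩,⟨0,[(19,0),(5,0),(4,0)]⟩⟩,⟨true,0,⟨0,[(45,0)]⟩,⟨0,
  []⟩⟩,⟨false,1,⟨3,[(22,0),(0,2),(0,3),(13,3)]⟩,⟨0,[(1,0),(1,0),(14,0)]⟩⟩,⟨false,0,⟨0,[]⟩,⟨0,[]⟩⟩,
  ⟨false,0,⟨0,[]⟩,⟨0,[]⟩⟩,[.o ⟨false,0,⟨0,[(41,0)]⟩,⟨5,[(14,1),(7,0),(0,0),(11,1),(4,1)]⟩⟩,.o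
  ⟨false,1,⟨7,[(8,3),(13,0),(0,2),(14,3),(2,3)]⟩,⟨0,[(3,0),(14,0)]⟩⟩,.o ⟨false,1,⟨1,[(25,1),(9,0),
  (6,0)]⟩,⟨0,[(19,0),(4,0),(5,0)]⟩⟩,.a ⟨true,0,⟨0,[(25,0)]⟩,⟨0,[(24,0)]⟩⟩ ⟨false,0,⟨0,[(1,0),(16,0),
  (5,0),(1,0)]⟩,⟨1,[(23,0),(6,0),(0,0),(11,0)]⟩⟩ ⟨true,0,⟨0,[(24,0),(16,0)]⟩,⟨0,[(3,0),(14,0),(6,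
  0)]⟩⟩]⟩) (.R ⟨1,false,false,false,[1,0,0,-1],[0,1],[0,1,0,0,0,0,0,0,-1],(⟨0,[(24,0)]⟩,⟨0,[(25,
  0)]⟩),(⟨0,[(37,0)]⟩,⟨0,[(36,0)]⟩),⟨0,[(0,0)]⟩,.k,.k,(.x (-1) ⟨3,[(22,0),(0,0),(11,1),(0,3)]⟩ ⟨0,
  [(37,0)]⟩),(.x (-1) ⟨3,[(22,0),(0,0),(11,1),(0,3)]⟩ ⟨0,[(37,0)]⟩),(.x 0 ⟨0,[(9,0),(5,0),(3,0),(10,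
  0)]⟩ ⟨3,[(5,3),(16,0),(0,0),(10,3),(7,1)]⟩),.k,⟨false,0,⟨0,[(1,0),(11,0),(10,0),(1,0),(3,0)]⟩,⟨3,
  [(22,0),(0,2),(14,3)]⟩⟩,⟨true,0,⟨0,[(24,0)]⟩,⟨0,[(19,0),(5,0),(4,0)]⟩⟩,⟨true,0,⟨0,[(45,0)]⟩,⟨0,
  []⟩⟩,⟨false,1,⟨3,[(22,0),(0,2),(0,3),(13,3)]⟩,⟨0,[(1,0),(1,0),(14,0)]⟩⟩,⟨false,0,⟨0,[(41,0)]⟩,⟨5,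
  [(4,1),(1,0),(7,0),(7,0),(0,0),(19,2)]⟩⟩,⟨false,1,⟨3,[(22,0),(0,2),(0,3),(13,3),(2,3)]⟩,⟨1,[(1,1),
  (1,1),(8,0),(5,0)]⟩⟩,[.o ⟨false,0,⟨0,[(41,0)]⟩,⟨5,[(14,1),(7,0),(0,0),(11,1),(4,1)]⟩⟩,.o ⟨false,1,
  ⟨7,[(8,3),(13,0),(0,2),(14,3),(2,3)]⟩,⟨0,[(3,0),(14,0)]⟩⟩,.o ⟨false,1,⟨1,[(25,1),(9,0),(6,0)]⟩,⟨0,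
  [(19,0),(4,0),(5,0)]⟩⟩,.a ⟨true,0,⟨0,[(25,0)]⟩,⟨0,[(24,0)]⟩⟩ ⟨false,0,⟨0,[(1,0),(16,0),(5,0),(1,
  0)]⟩,⟨1,[(23,0),(6,0),(0,0),(11,0)]⟩⟩ ⟨true,0,⟨0,[(24,0),(16,0)]⟩,⟨0,[(3,0),(14,0),(6,0)]⟩⟩]⟩)))
  (.Q [0,0,0,0,0,-1,0,0,0,1,0,-1] (.p false [0,0,0,1] [1] (⟨0,[(23,0)]⟩,⟨0,[(22,0)]⟩) .k 1 (⟨0,[]⟩,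
  ⟨0,[]⟩) .k .k) (.R ⟨1,false,false,false,[1,0,0,-1],[0,0,1],[0,1,0,0,0,0,0,0,-1],(⟨0,[(23,0)]⟩,⟨0,
  [(24,0)]⟩),(⟨0,[(33,0)]⟩,⟨0,[(32,0)]⟩),⟨0,[(0,0)]⟩,.k,.k,(.x (-1) ⟨3,[(21,0),(0,0),(11,1),(0,3)]⟩
  ⟨0,[(36,0)]⟩),.k,(.x 0 ⟨0,[(8,0),(9,0)]⟩ ⟨3,[(4,1),(16,0),(0,0),(6,3),(3,5),(7,1)]⟩),.k,⟨false,1,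
  ⟨5,[(9,1),(5,3),(5,2),(16,3),(2,0),(2,1)]⟩,⟨0,[(1,0),(10,0),(11,0),(12,0)]⟩⟩,⟨true,0,⟨0,[(23,0),
  (5,0)]⟩,⟨0,[(18,0),(5,0)]⟩⟩,⟨true,0,⟨0,[(44,0)]⟩,⟨0,[]⟩⟩,⟨false,0,⟨1,[(1,1),(18,0),(2,0),(0,0)]⟩,
  ⟨0,[(10,0),(14,0)]⟩⟩,⟨false,0,⟨0,[(40,0)]⟩,⟨5,[(3,1),(1,0),(7,0),(7,0),(0,0),(19,2)]⟩⟩,⟨false,0,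
  ⟨1,[(1,1),(18,0),(2,0),(0,0),(15,1)]⟩,⟨0,[(2,0),(7,0)]⟩⟩,[.o ⟨false,0,⟨0,[(17,0)]⟩,⟨1,[(28,1),(5,
  0),(7,0)]⟩⟩,.o ⟨false,1,⟨7,[(20,3),(0,0),(0,0),(11,1),(7,3)]⟩,⟨0,[(25,0)]⟩⟩,.o ⟨false,1,⟨1,[(24,
  1),(9,0),(6,0)]⟩,⟨0,[(18,0),(4,0),(5,0)]⟩⟩,.a ⟨true,0,⟨0,[(24,0)]⟩,⟨0,[(23,0)]⟩⟩ ⟨false,1,⟨1,[(21,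
  0),(19,0)]⟩,⟨0,[(1,0),(22,0)]⟩⟩ ⟨true,0,⟨0,[(17,0),(5,0)]⟩,⟨0,[(24,0),(0,0)]⟩⟩]⟩) (.R ⟨0,false,
  false,false,[1,0,0,-1],[0,1],[0,1,0,0,0,0,0,0,-1],(⟨0,[(23,0)]⟩,⟨0,[(24,0)]⟩),(⟨0,[(36,0)]⟩,⟨0,
  [(35,0)]⟩),⟨0,[(0,0)]⟩,.k,.k,(.x (-1) ⟨3,[(21,0),(0,0),(11,1),(0,3)]⟩ ⟨0,[(36,0)]⟩),(.x (-1) ⟨3,
  [(21,0),(0,0),(11,1),(0,3)]⟩ ⟨0,[(36,0)]⟩),.k,.k,⟨false,1,⟨5,[(9,1),(2,1),(8,2),(16,1),(2,0),(2,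
  1)]⟩,⟨0,[(1,0),(22,0),(15,0)]⟩⟩,⟨true,0,⟨0,[(23,0)]⟩,⟨0,[(18,0),(5,0),(4,0)]⟩⟩,⟨true,0,⟨0,[(44,
  0)]⟩,⟨0,[]⟩⟩,⟨false,0,⟨0,[(1,0),(21,0),(0,0),(15,0)]⟩,⟨0,[(2,0),(7,0),(6,0)]⟩⟩,⟨false,0,⟨0,[]⟩,⟨0,
  []⟩⟩,⟨false,0,⟨0,[]⟩,⟨0,[]⟩⟩,[.o ⟨false,0,⟨0,[(40,0)]⟩,⟨5,[(13,1),(7,0),(0,0),(11,1),(4,1)]⟩⟩,.o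
  ⟨false,1,⟨7,[(7,3),(13,0),(0,2),(14,3),(2,3)]⟩,⟨0,[(2,0),(14,0)]⟩⟩,.o ⟨false,1,⟨1,[(24,1),(9,0),
  (6,0)]⟩,⟨0,[(18,0),(4,0),(5,0)]⟩⟩,.a ⟨true,0,⟨0,[(24,0)]⟩,⟨0,[(23,0)]⟩⟩ ⟨false,1,⟨1,[(21,0),(19,
  0)]⟩,⟨0,[(1,0),(22,0)]⟩⟩ ⟨true,0,⟨0,[(23,0),(16,0)]⟩,⟨0,[(2,0),(14,0),(6,0)]⟩⟩]⟩)))) (.Q [0,1,-1,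
  0,0,0,0,0,-1,0,0,1] (.p true [0,0,0,1] [] (⟨0,[(21,0)]⟩,⟨0,[(20,0)]⟩) .k 0 (⟨0,[]⟩,⟨0,[]⟩) .k .k)
  (.Q [0,1,1,0,0,0,0,0,1,0,0,-1] (.p false [0,0,0,1] [] (⟨0,[(22,0)]⟩,⟨0,[(21,0)]⟩) .k 0 (⟨0,[]⟩,⟨0,
  []⟩) .k .k) (.K ⟨0,[0,0,0,1],0,0,(⟨0,[(23,0)]⟩,⟨0,[(22,0)]⟩),.k,(.r (-1) ⟨25,[(4,0),(3,7),(2,5),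
  (0,0),(7,0),(0,13),(7,1),(11,1)]⟩ ⟨0,[(1,0),(15,0),(4,0),(5,0),(7,0)]⟩),(.x 0 ⟨0,[(35,0)]⟩ ⟨3,
  [(20,0),(0,0),(11,1),(0,3)]⟩),.k,.k,[⟨0,[(23,0)]⟩,⟨0,[(22,0)]⟩,⟨0,[(1,0)]⟩,⟨0,[(0,0)]⟩]⟩) (.Q [0,
  0,0,0,0,-1,0,0,0,1,0,-1] (.p false [0,0,0,1] [1] (⟨0,[(23,0)]⟩,⟨0,[(22,0)]⟩) .k 1 (⟨0,[]⟩,⟨0,[]⟩)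
  .k .k) (.R ⟨1,false,false,true,[1,0,0,-1],[1,1,-1],[0,1,0,0,0,0,0,0,-1],(⟨0,[(23,0)]⟩,⟨0,[(24,
  0)]⟩),(⟨0,[(4,0),(30,0)]⟩,⟨0,[(14,0)]⟩),⟨0,[(0,0)]⟩,.k,.k,(.x (-1) ⟨3,[(21,0),(0,0),(11,1),(0,
  3)]⟩ ⟨0,[(36,0)]⟩),(.r 0 ⟨0,[(1,0),(15,0),(1,0),(3,0)]⟩ ⟨3,[(15,3),(5,0),(0,2)]⟩),(.r 0 ⟨3,[(1,3),
  (1,0),(7,2),(0,1),(5,0),(0,0),(3,3),(1,1)]⟩ ⟨11,[(15,15),(5,2),(0,8),(4,3),(2,3),(6,3),(2,3)]⟩),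
  .k,⟨false,0,⟨3,[(1,3),(1,1),(7,0),(0,1),(4,0),(1,1),(3,3),(1,1)]⟩,⟨3,[(15,3),(5,0),(0,2)]⟩⟩,⟨true,
  0,⟨0,[(18,0),(4,0)]⟩,⟨0,[(24,0),(4,0)]⟩⟩,⟨true,0,⟨0,[(44,0)]⟩,⟨0,[]⟩⟩,⟨false,1,⟨1,[(22,0),(0,1),
  (4,1),(5,0),(2,1)]⟩,⟨1,[(1,1),(9,0),(5,0)]⟩⟩,⟨false,0,⟨0,[(40,0)]⟩,⟨7,[(5,0),(3,1),(3,0),(7,0),(0,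
  0),(6,0),(0,2),(11,2)]⟩⟩,⟨false,1,⟨1,[(22,0),(0,1),(4,1),(5,0),(2,1),(2,1)]⟩,⟨0,[(1,0),(9,0)]⟩⟩,
  [.o ⟨false,0,⟨0,[(25,0),(14,0)]⟩,⟨3,[(5,1),(15,0),(0,0),(11,0),(7,0)]⟩⟩,.o ⟨false,1,⟨3,[(7,1),(14,
  0),(2,1),(2,1),(5,0),(2,1),(2,1)]⟩,⟨0,[(16,0)]⟩⟩,.o ⟨false,1,⟨1,[(24,1),(9,0),(6,0)]⟩,⟨0,[(18,0),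
  (4,0),(5,0)]⟩⟩,.a ⟨true,0,⟨0,[(24,0)]⟩,⟨0,[(23,0)]⟩⟩ ⟨false,0,⟨0,[(1,0),(15,0),(5,0),(1,0)]⟩,⟨1,
  [(22,0),(6,0),(0,0),(11,0)]⟩⟩ ⟨true,0,⟨0,[(23,0),(1,0),(14,0)]⟩,⟨1,[(11,0),(5,0),(6,1)]⟩⟩]⟩) (.R
  ⟨0,false,false,false,[1,0,0,-1],[0,1],[0,1,0,0,0,0,0,0,-1],(⟨0,[(23,0)]⟩,⟨0,[(24,0)]⟩),(⟨0,[(36,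
  0)]⟩,⟨0,[(35,0)]⟩),⟨0,[(0,0)]⟩,.k,.k,(.x (-1) ⟨3,[(21,0),(0,0),(11,1),(0,3)]⟩ ⟨0,[(36,0)]⟩),(.x
  (-1) ⟨3,[(21,0),(0,0),(11,1),(0,3)]⟩ ⟨0,[(36,0)]⟩),.k,.k,⟨false,0,⟨0,[(1,0),(10,0),(10,0),(1,0),
  (3,0)]⟩,⟨3,[(21,0),(0,2),(14,3)]⟩⟩,⟨true,0,⟨0,[(23,0)]⟩,⟨0,[(18,0),(5,0),(4,0)]⟩⟩,⟨true,0,⟨0,[(44,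
  0)]⟩,⟨0,[]⟩⟩,⟨false,1,⟨3,[(21,0),(0,2),(0,3),(13,3)]⟩,⟨1,[(1,1),(9,0),(5,0),(7,1)]⟩⟩,⟨false,0,⟨0,
  []⟩,⟨0,[]⟩⟩,⟨false,0,⟨0,[]⟩,⟨0,[]⟩⟩,[.o ⟨false,0,⟨0,[(40,0)]⟩,⟨5,[(13,1),(7,0),(0,0),(11,1),(4,
  1)]⟩⟩,.o ⟨false,1,⟨7,[(7,3),(13,0),(0,2),(14,3),(2,3)]⟩,⟨1,[(11,0),(5,0),(7,1)]⟩⟩,.o ⟨false,1,⟨1,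
  [(24,1),(9,0),(6,0)]⟩,⟨0,[(18,0),(4,0),(5,0)]⟩⟩,.a ⟨true,0,⟨0,[(24,0)]⟩,⟨0,[(23,0)]⟩⟩ ⟨false,0,⟨0,
  [(1,0),(15,0),(5,0),(1,0)]⟩,⟨1,[(22,0),(6,0),(0,0),(11,0)]⟩⟩ ⟨true,0,⟨0,[(23,0),(16,0)]⟩,⟨1,[(11,
  0),(5,0),(6,1),(0,1)]⟩⟩]⟩))) (.Q [0,0,0,0,0,-1,0,0,0,1,0,-1] (.p false [0,0,0,1] [1] (⟨0,[(22,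
  0)]⟩,⟨0,[(21,0)]⟩) .k 1 (⟨0,[]⟩,⟨0,[]⟩) .k .k) (.R ⟨1,false,false,true,[1,0,0,-1],[1,1,-1],[0,1,0,
  0,0,0,0,0,-1],(⟨0,[(22,0)]⟩,⟨0,[(23,0)]⟩),(⟨0,[(3,0),(30,0)]⟩,⟨0,[(13,0)]⟩),⟨0,[(0,0)]⟩,.k,.k,(.x
  (-1) ⟨3,[(20,0),(0,0),(11,1),(0,3)]⟩ ⟨0,[(35,0)]⟩),(.r (-1) ⟨9,[(4,0),(6,5),(0,0),(7,5),(0,0),(7,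
  1),(0,1),(10,1)]⟩ ⟨0,[(1,0),(12,0),(8,0),(13,0)]⟩),(.r (-1) ⟨2,[(4,0),(1,0),(1,0),(2,1),(5,0),(2,
  0),(8,0)]⟩ ⟨0,[(1,0),(12,0),(8,0),(15,0),(3,0)]⟩),.k,⟨false,1,⟨1,[(11,1),(8,0),(20,0)]⟩,⟨0,[(1,0),
  (12,0),(8,0),(13,0)]⟩⟩,⟨true,0,⟨0,[(17,0),(4,0)]⟩,⟨0,[(23,0),(4,0)]⟩⟩,⟨true,0,⟨0,[(43,0)]⟩,⟨0,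
  []⟩⟩,⟨false,0,⟨0,[(1,0),(25,0),(11,0)]⟩,⟨1,[(9,1),(0,0),(5,0)]⟩⟩,⟨false,0,⟨0,[(39,0)]⟩,⟨7,[(4,0),
  (3,1),(3,0),(7,0),(0,0),(6,0),(0,2),(11,2)]⟩⟩,⟨false,0,⟨0,[(1,0),(25,0),(11,1)]⟩,⟨0,[(9,0),(0,
  0)]⟩⟩,[.o ⟨false,0,⟨0,[(24,0),(14,0)]⟩,⟨3,[(4,1),(15,0),(0,0),(11,0),(7,0)]⟩⟩,.o ⟨false,1,⟨3,[(6,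
  1),(14,0),(2,1),(2,1),(5,0),(2,1),(2,1)]⟩,⟨0,[(15,0)]⟩⟩,.o ⟨false,1,⟨1,[(23,1),(9,0),(6,0)]⟩,⟨0,
  [(17,0),(4,0),(5,0)]⟩⟩,.a ⟨true,0,⟨0,[(23,0)]⟩,⟨0,[(22,0)]⟩⟩ ⟨false,1,⟨1,[(20,0),(19,0)]⟩,⟨0,[(1,
  0),(21,0)]⟩⟩ ⟨true,0,⟨0,[(22,0),(1,0),(14,0)]⟩,⟨1,[(10,0),(5,0),(6,1)]⟩⟩]⟩) (.R ⟨0,false,false,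
  false,[1,0,0,-1],[0,1],[0,1,0,0,0,0,0,0,-1],(⟨0,[(22,0)]⟩,⟨0,[(23,0)]⟩),(⟨0,[(35,0)]⟩,⟨0,[(34,
  0)]⟩),⟨0,[(0,0)]⟩,.k,.k,(.x (-1) ⟨3,[(20,0),(0,0),(11,1),(0,3)]⟩ ⟨0,[(35,0)]⟩),(.x (-1) ⟨3,[(20,
  0),(0,0),(11,1),(0,3)]⟩ ⟨0,[(35,0)]⟩),.k,.k,⟨false,1,⟨5,[(8,1),(2,1),(8,2),(16,1),(2,0),(2,1)]⟩,
  ⟨0,[(1,0),(21,0),(15,0)]⟩⟩,⟨true,0,⟨0,[(22,0)]⟩,⟨0,[(17,0),(5,0),(4,0)]⟩⟩,⟨true,0,⟨0,[(43,0)]⟩,⟨0,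
  []⟩⟩,⟨false,0,⟨0,[(1,0),(20,0),(0,0),(15,0)]⟩,⟨11,[(2,1),(6,9),(0,5),(0,1),(8,0),(2,1),(0,9),(3,
  1),(4,0)]⟩⟩,⟨false,0,⟨0,[]⟩,⟨0,[]⟩⟩,⟨false,0,⟨0,[]⟩,⟨0,[]⟩⟩,[.o ⟨false,0,⟨0,[(39,0)]⟩,⟨5,[(12,1),
  (7,0),(0,0),(11,1),(4,1)]⟩⟩,.o ⟨false,1,⟨7,[(6,3),(13,0),(0,2),(14,3),(2,3)]⟩,⟨1,[(10,0),(5,0),(7,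
  1)]⟩⟩,.o ⟨false,1,⟨1,[(23,1),(9,0),(6,0)]⟩,⟨0,[(17,0),(4,0),(5,0)]⟩⟩,.a ⟨true,0,⟨0,[(23,0)]⟩,⟨0,
  [(22,0)]⟩⟩ ⟨false,1,⟨1,[(20,0),(19,0)]⟩,⟨0,[(1,0),(21,0)]⟩⟩ ⟨true,0,⟨0,[(22,0),(16,0)]⟩,⟨1,[(10,
  0),(5,0),(6,1),(0,1)]⟩⟩]⟩)))))) (.Q [0,0,1,0,0,0,2,0,0,1,-2] (.p false [0,0,1] [1,0,-1] (⟨0,[(27,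
  0)]⟩,⟨0,[(26,0)]⟩) .k 2 (⟨0,[(26,0)]⟩,⟨0,[(27,0)]⟩) .k (.r 0 ⟨0,[(25,1)]⟩ ⟨5,[(3,3),(5,7),(5,0),
  (0,0)]⟩)) (.Q [0,-1,0,0,0,0,2,2,0,1,-2] (.p false [0,0,1] [1,0,-1] (⟨0,[(28,0)]⟩,⟨0,[(27,0)]⟩) .k
  2 (⟨0,[(27,0)]⟩,⟨0,[(28,0)]⟩) .k (.r 0 ⟨0,[(26,1)]⟩ ⟨5,[(4,3),(5,7),(5,0),(0,0)]⟩)) (.R ⟨1,true,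
  false,true,[0,0,1],[1,0,-1],[0,1,1],(⟨0,[(29,0)]⟩,⟨0,[(28,0)]⟩),(⟨0,[(28,0)]⟩,⟨0,[(29,0)]⟩),⟨0,
  [(10,0)]⟩,.k,.k,.k,.k,(.r 0 ⟨1,[(7,0),(0,2),(17,0),(6,2)]⟩ ⟨2,[(5,0),(5,4),(5,0),(0,0)]⟩),.k,
  ⟨false,0,⟨0,[(27,0)]⟩,⟨11,[(5,3),(5,7),(5,0),(0,0),(18,5)]⟩⟩,⟨true,0,⟨0,[(14,1),(4,0),(0,0)]⟩,⟨0,
  [(1,0)]⟩⟩,⟨true,0,⟨0,[(11,0),(23,0)]⟩,⟨0,[(8,0),(24,0)]⟩⟩,⟨false,1,⟨59,[(2,47),(2,15),(3,11),(1,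
  7),(5,6),(0,6),(7,23),(11,17)]⟩,⟨0,[(0,0)]⟩⟩,⟨false,0,⟨0,[(11,0)]⟩,⟨11,[(0,1),(7,7),(0,1),(7,0),
  (0,0),(7,3),(11,7)]⟩⟩,⟨true,0,⟨0,[(2,0)]⟩,⟨3,[(7,1),(8,2),(2,0),(0,0)]⟩⟩,[]⟩) (.I [0,0,-1,-1,1,0,
  0,-1,-1] (.Q [0,1,-1,0,0,0,0,0,-1,0,0,1] (.p true [0,0,0,1] [] (⟨0,[(21,0)]⟩,⟨0,[(20,0)]⟩) .k 0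
  (⟨0,[]⟩,⟨0,[]⟩) .k .k) (.Q [0,1,1,0,0,0,0,0,1,0,0,-1] (.p false [0,0,0,1] [] (⟨0,[(22,0)]⟩,⟨0,
  [(21,0)]⟩) .k 0 (⟨0,[]⟩,⟨0,[]⟩) .k .k) (.K ⟨0,[0,0,0,1],0,0,(⟨0,[(23,0)]⟩,⟨0,[(22,0)]⟩),.k,(.r
  (-1) ⟨71,[(8,23),(2,15),(0,3),(6,3),(0,0),(0,36),(7,7),(11,5)]⟩ ⟨0,[(1,0),(15,0),(4,0),(5,0),(7,
  0)]⟩),(.x 0 ⟨0,[(35,0)]⟩ ⟨3,[(20,0),(0,0),(11,1),(0,3)]⟩),.k,.k,[⟨0,[(23,0)]⟩,⟨0,[(22,0)]⟩,⟨0,[(1,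
  0)]⟩,⟨0,[(0,0)]⟩]⟩) (.Q [0,0,0,0,0,1,0,0,0,-1,0,1] (.p true [0,0,0,1] [1] (⟨0,[(23,0)]⟩,⟨0,[(22,
  0)]⟩) .k 1 (⟨0,[]⟩,⟨0,[]⟩) .k .k) (.R ⟨0,false,false,false,[1,0,0,-1],[0,1],[0,1,0,0,0,0,0,0,-1],
  (⟨0,[(23,0)]⟩,⟨0,[(24,0)]⟩),(⟨0,[(36,0)]⟩,⟨0,[(35,0)]⟩),⟨0,[(0,0)]⟩,.k,.k,(.x (-1) ⟨3,[(21,0),(0,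
  0),(11,1),(0,3)]⟩ ⟨0,[(36,0)]⟩),(.x (-1) ⟨3,[(21,0),(0,0),(11,1),(0,3)]⟩ ⟨0,[(36,0)]⟩),.k,.k,
  ⟨false,0,⟨0,[(1,0),(10,0),(10,0),(1,0),(3,0)]⟩,⟨3,[(21,0),(0,2),(14,3)]⟩⟩,⟨true,0,⟨0,[(23,0)]⟩,⟨0,
  [(18,0),(5,0),(4,0)]⟩⟩,⟨true,0,⟨0,[(44,0)]⟩,⟨0,[]⟩⟩,⟨false,1,⟨3,[(21,0),(0,2),(0,3),(13,3)]⟩,⟨1,
  [(1,1),(9,0),(5,0),(7,1)]⟩⟩,⟨false,0,⟨0,[]⟩,⟨0,[]⟩⟩,⟨false,0,⟨0,[]⟩,⟨0,[]⟩⟩,[.o ⟨false,0,⟨0,[(40,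
  0)]⟩,⟨5,[(13,1),(7,0),(0,0),(11,1),(4,1)]⟩⟩,.o ⟨false,1,⟨7,[(7,3),(13,0),(0,2),(14,3),(2,3)]⟩,⟨1,
  [(11,0),(5,0),(7,1)]⟩⟩,.o ⟨false,1,⟨1,[(24,1),(9,0),(6,0)]⟩,⟨0,[(18,0),(4,0),(5,0)]⟩⟩,.a ⟨true,0,
  ⟨0,[(24,0)]⟩,⟨0,[(23,0)]⟩⟩ ⟨false,0,⟨0,[(1,0),(15,0),(5,0),(1,0)]⟩,⟨1,[(22,0),(6,0),(0,0),(11,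
  0)]⟩⟩ ⟨true,0,⟨0,[(23,0),(16,0)]⟩,⟨1,[(11,0),(5,0),(6,1),(0,1)]⟩⟩]⟩) (.R ⟨1,false,false,true,[1,0,
  0,-1],[1,1,-1],[0,1,0,0,0,0,0,0,-1],(⟨0,[(23,0)]⟩,⟨0,[(24,0)]⟩),(⟨0,[(32,0),(3,0)]⟩,⟨0,[(14,0)]⟩),
  ⟨0,[(0,0)]⟩,.k,.k,(.x (-1) ⟨3,[(21,0),(0,0),(11,1),(0,3)]⟩ ⟨0,[(36,0)]⟩),(.r 0 ⟨0,[(1,0),(15,0),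
  (1,0),(3,0)]⟩ ⟨3,[(15,3),(5,0),(0,2)]⟩),(.r 0 ⟨3,[(1,3),(9,2),(0,1),(4,0),(0,1),(4,3),(1,1)]⟩ ⟨11,
  [(15,15),(5,2),(0,8),(4,3),(2,3),(6,3),(2,3)]⟩),.k,⟨false,0,⟨3,[(1,3),(9,0),(0,1),(4,2),(0,1),(4,
  3),(1,1)]⟩,⟨3,[(15,3),(5,0),(0,2)]⟩⟩,⟨true,0,⟨0,[(18,0),(4,0)]⟩,⟨0,[(24,0),(4,0)]⟩⟩,⟨true,0,⟨0,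
  [(44,0)]⟩,⟨0,[]⟩⟩,⟨false,1,⟨11,[(6,3),(8,3),(5,0),(0,6),(0,11),(6,3),(3,3),(2,3)]⟩,⟨1,[(1,1),(9,
  0),(5,0)]⟩⟩,⟨false,0,⟨0,[(40,0)]⟩,⟨55,[(5,3),(3,11),(1,11),(1,3),(7,6),(0,6),(7,19),(11,25)]⟩⟩,
  ⟨false,1,⟨11,[(6,3),(8,3),(5,0),(0,6),(0,11),(6,3),(3,3),(2,3),(2,11)]⟩,⟨0,[(1,0),(9,0)]⟩⟩,[.o
  ⟨false,0,⟨0,[(25,0),(14,0)]⟩,⟨7,[(13,3),(6,3),(0,0),(0,0),(19,1)]⟩⟩,.o ⟨false,1,⟨15,[(6,7),(0,3),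
  (13,2),(0,4),(11,3),(2,3),(2,3)]⟩,⟨0,[(16,0)]⟩⟩,.o ⟨false,1,⟨1,[(24,1),(9,0),(6,0)]⟩,⟨0,[(18,0),
  (4,0),(5,0)]⟩⟩,.a ⟨true,0,⟨0,[(24,0)]⟩,⟨0,[(23,0)]⟩⟩ ⟨false,0,⟨0,[(1,0),(15,0),(5,0),(1,0)]⟩,⟨1,
  [(22,0),(6,0),(0,0),(11,0)]⟩⟩ ⟨true,0,⟨0,[(23,0),(1,0),(14,0)]⟩,⟨1,[(11,0),(5,0),(6,1)]⟩⟩]⟩)))
  (.Q [0,0,0,0,0,1,0,0,0,-1,0,1] (.p true [0,0,0,1] [1] (⟨0,[(22,0)]⟩,⟨0,[(21,0)]⟩) .k 1 (⟨0,[]⟩,⟨0,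
  []⟩) .k .k) (.R ⟨0,false,false,false,[1,0,0,-1],[0,1],[1,0,0,0,0,0,0,0,-1],(⟨0,[(22,0)]⟩,⟨0,[(23,
  0)]⟩),(⟨0,[(35,0)]⟩,⟨0,[(34,0)]⟩),⟨0,[(0,0)]⟩,.k,.k,(.x (-1) ⟨3,[(20,0),(0,0),(11,1),(0,3)]⟩ ⟨0,
  [(35,0)]⟩),(.x (-1) ⟨3,[(20,0),(0,0),(11,1),(0,3)]⟩ ⟨0,[(35,0)]⟩),.k,.k,⟨false,1,⟨1,[(2,0),(3,0),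
  (4,0)]⟩,⟨0,[(1,0),(21,0),(15,0),(3,0)]⟩⟩,⟨true,0,⟨0,[(22,0)]⟩,⟨0,[(17,0),(5,0),(4,0)]⟩⟩,⟨true,0,
  ⟨0,[]⟩,⟨0,[(43,0)]⟩⟩,⟨false,0,⟨0,[(1,0),(20,0),(0,0),(15,0)]⟩,⟨1,[(9,1),(0,0),(5,0),(7,1)]⟩⟩,
  ⟨false,0,⟨0,[]⟩,⟨0,[]⟩⟩,⟨false,0,⟨0,[]⟩,⟨0,[]⟩⟩,[.o ⟨false,0,⟨0,[(39,0)]⟩,⟨5,[(12,1),(7,0),(0,0),
  (11,1),(4,1)]⟩⟩,.o ⟨false,1,⟨7,[(6,3),(13,0),(0,2),(14,3),(2,3)]⟩,⟨1,[(10,0),(5,0),(7,1)]⟩⟩,.o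
  ⟨false,1,⟨1,[(23,1),(9,0),(6,0)]⟩,⟨0,[(17,0),(4,0),(5,0)]⟩⟩,.a ⟨true,0,⟨0,[(23,0)]⟩,⟨0,[(22,0)]⟩⟩
  ⟨false,1,⟨0,[(6,0)]⟩,⟨0,[(1,0),(21,0),(19,0)]⟩⟩ ⟨true,0,⟨0,[(22,0),(16,0)]⟩,⟨1,[(10,0),(5,0),(6,
  1),(0,1)]⟩⟩]⟩) (.R ⟨1,false,false,false,[1,0,0,-1],[0,0,1],[0,0,0,0,0,0,0,0,-1],(⟨0,[(22,0)]⟩,⟨0,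
  [(23,0)]⟩),(⟨0,[(32,0)]⟩,⟨0,[(31,0)]⟩),⟨0,[(0,0)]⟩,.k,.k,(.x (-1) ⟨3,[(20,0),(0,0),(11,1),(0,3)]⟩
  ⟨0,[(35,0)]⟩),.k,(.r (-1) ⟨0,[(2,0)]⟩ ⟨2,[(1,2),(9,0),(11,2),(2,1),(2,1),(9,3)]⟩),.k,⟨false,1,⟨2,
  [(2,0),(1,0),(0,0),(0,1),(30,0)]⟩,⟨2,[(1,2),(9,1),(11,2),(2,0),(2,0),(9,1)]⟩⟩,⟨true,0,⟨0,[(22,0),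
  (5,0)]⟩,⟨0,[(17,0),(5,0)]⟩⟩,⟨false,1,⟨3,[(20,0),(0,0),(19,1)]⟩,⟨0,[]⟩⟩,⟨false,0,⟨1,[(1,1),(17,0),
  (2,0),(0,0)]⟩,⟨0,[(9,0),(14,0)]⟩⟩,⟨true,0,⟨0,[(39,0)]⟩,⟨0,[(38,0)]⟩⟩,⟨false,0,⟨1,[(1,1),(17,0),(2,
  0),(0,0),(15,1)]⟩,⟨1,[(3,0),(5,1),(0,0),(13,0)]⟩⟩,[.o ⟨false,0,⟨0,[(16,0)]⟩,⟨3,[(3,1),(16,0),(0,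
  0),(11,0),(7,0)]⟩⟩,.o ⟨false,1,⟨7,[(19,3),(0,0),(0,0),(11,1),(7,3)]⟩,⟨0,[(24,0)]⟩⟩,.o ⟨false,1,⟨1,
  [(23,1),(9,0),(6,0)]⟩,⟨0,[(17,0),(4,0),(5,0)]⟩⟩,.a ⟨true,0,⟨0,[(23,0)]⟩,⟨0,[(22,0)]⟩⟩ ⟨false,1,⟨0,
  [(6,0)]⟩,⟨0,[(1,0),(21,0),(19,0)]⟩⟩ ⟨true,0,⟨0,[(16,0),(5,0)]⟩,⟨0,[(23,0),(0,0)]⟩⟩]⟩))) (.Q [0,0,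
  0,0,0,-1,0,0,0,1,0,-1] (.p false [0,0,0,1] [1] (⟨0,[(21,0)]⟩,⟨0,[(20,0)]⟩) .k 1 (⟨0,[]⟩,⟨0,[]⟩)
  .k .k) (.R ⟨1,false,false,false,[1,0,0,-1],[0,1],[0,1,0,0,0,0,0,0,-1],(⟨0,[(21,0)]⟩,⟨0,[(22,0)]⟩),
  (⟨0,[(34,0)]⟩,⟨0,[(33,0)]⟩),⟨0,[(0,0)]⟩,.k,.k,(.x (-1) ⟨3,[(19,0),(0,0),(11,1),(0,3)]⟩ ⟨0,[(34,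
  0)]⟩),(.x (-1) ⟨3,[(19,0),(0,0),(11,1),(0,3)]⟩ ⟨0,[(34,0)]⟩),(.r (-2) ⟨17,[(7,11),(2,7),(0,1),(6,
  1),(0,13),(0,4),(7,3),(11,2)]⟩ ⟨0,[(1,0),(11,0)]⟩),.k,⟨false,1,⟨5,[(7,1),(2,1),(8,2),(16,1),(2,0),
  (2,1)]⟩,⟨9,[(1,7),(5,1),(5,5),(6,0),(19,4)]⟩⟩,⟨true,0,⟨0,[(21,0)]⟩,⟨0,[(16,0),(5,0),(4,0)]⟩⟩,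
  ⟨true,0,⟨0,[(42,0)]⟩,⟨0,[]⟩⟩,⟨false,0,⟨9,[(1,7),(5,1),(5,5),(6,0),(0,9),(18,4)]⟩,⟨1,[(8,1),(0,0),
  (5,0),(7,1)]⟩⟩,⟨false,0,⟨0,[(38,0)]⟩,⟨55,[(3,3),(3,11),(1,11),(1,3),(7,6),(0,6),(7,19),(11,25)]⟩⟩,
  ⟨false,0,⟨1,[(1,1),(11,1),(7,1),(17,0),(0,0)]⟩,⟨0,[(8,0),(0,0),(13,0)]⟩⟩,[.o ⟨false,0,⟨0,[(38,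
  0)]⟩,⟨5,[(11,1),(7,0),(0,0),(11,1),(4,1)]⟩⟩,.o ⟨false,1,⟨7,[(5,3),(13,0),(0,2),(14,3),(2,3)]⟩,⟨1,
  [(9,0),(5,0),(7,1)]⟩⟩,.o ⟨false,1,⟨1,[(22,1),(9,0),(6,0)]⟩,⟨0,[(16,0),(4,0),(5,0)]⟩⟩,.a ⟨true,0,
  ⟨0,[(22,0)]⟩,⟨0,[(21,0)]⟩⟩ ⟨false,1,⟨1,[(19,0),(19,0)]⟩,⟨4,[(1,4),(0,1),(0,1),(3,1),(1,0),(18,0),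
  (6,0),(4,2)]⟩⟩ ⟨true,0,⟨0,[(21,0),(16,0)]⟩,⟨1,[(9,0),(5,0),(6,1),(0,1)]⟩⟩]⟩) (.R ⟨0,false,false,
  true,[1,0,0,-1],[0,0,1],[1,0,0,-1,0,0,0,0,-1],(⟨0,[(21,0)]⟩,⟨0,[(22,0)]⟩),(⟨0,[(31,0)]⟩,⟨0,[(30,
  0)]⟩),⟨0,[(0,0)]⟩,.k,.k,(.x (-1) ⟨3,[(19,0),(0,0),(11,1),(0,3)]⟩ ⟨0,[(34,0)]⟩),.k,.k,.k,⟨false,2,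
  ⟨5,[(7,3),(5,1),(5,3),(0,0),(19,2)]⟩,⟨0,[(1,0),(34,0)]⟩⟩,⟨true,0,⟨0,[(21,0),(5,0)]⟩,⟨0,[(16,0),(5,
  0)]⟩⟩,⟨false,1,⟨55,[(3,3),(3,11),(1,11),(1,3),(7,6),(0,6),(7,19),(11,25)]⟩,⟨0,[(38,0)]⟩⟩,⟨true,
  (-1),⟨2,[(1,2),(1,1),(5,0),(0,0),(10,2),(1,1)]⟩,⟨0,[(8,0),(14,0)]⟩⟩,⟨false,0,⟨0,[]⟩,⟨0,[]⟩⟩,
  ⟨false,0,⟨0,[]⟩,⟨0,[]⟩⟩,[.o ⟨false,0,⟨0,[(25,0)]⟩,⟨3,[(2,1),(29,0),(7,2)]⟩⟩,.o ⟨false,0,⟨0,[(15,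
  0)]⟩,⟨3,[(2,1),(16,0),(0,0),(11,0),(7,0)]⟩⟩,.o ⟨false,1,⟨1,[(22,1),(9,0),(6,0)]⟩,⟨0,[(16,0),(4,0),
  (5,0)]⟩⟩,.a ⟨true,0,⟨0,[(22,0)]⟩,⟨0,[(21,0)]⟩⟩ ⟨true,1,⟨71,[(7,23),(2,15),(0,3),(6,3),(0,36),(0,
  0),(7,7),(11,5)]⟩,⟨1,[(1,1),(0,0),(0,0),(32,0)]⟩⟩ ⟨false,0,⟨0,[(15,0),(5,0)]⟩,⟨3,[(2,1),(19,3),(9,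
  0),(7,2)]⟩⟩]⟩)))) (.Q [0,1,-1,0,0,0,0,0,-1,0,0,1] (.p true [0,0,0,1] [] (⟨0,[(19,0)]⟩,⟨0,[(18,
  0)]⟩) .k 0 (⟨0,[]⟩,⟨0,[]⟩) .k .k) (.Q [0,1,1,0,0,0,0,0,1,0,0,-1] (.p false [0,0,0,1] [] (⟨0,[(20,
  0)]⟩,⟨0,[(19,0)]⟩) .k 0 (⟨0,[]⟩,⟨0,[]⟩) .k .k) (.K ⟨0,[0,0,0,1],0,0,(⟨0,[(21,0)]⟩,⟨0,[(20,0)]⟩),
  .k,(.r (-1) ⟨71,[(6,23),(2,15),(0,3),(6,3),(0,0),(0,36),(7,7),(11,5)]⟩ ⟨0,[(1,0),(13,0),(4,0),(5,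
  0),(7,0)]⟩),(.x 0 ⟨0,[(33,0)]⟩ ⟨3,[(18,0),(0,0),(11,1),(0,3)]⟩),.k,.k,[⟨0,[(21,0)]⟩,⟨0,[(20,0)]⟩,
  ⟨0,[(1,0)]⟩,⟨0,[(0,0)]⟩]⟩) (.Q [0,0,0,0,0,1,0,0,0,-1,0,1] (.p true [0,0,0,1] [1] (⟨0,[(21,0)]⟩,⟨0,
  [(20,0)]⟩) .k 1 (⟨0,[]⟩,⟨0,[]⟩) .k .k) (.R ⟨0,false,false,false,[1,0,0,-1],[0,1],[0,1,0,0,0,0,0,0,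
  -1],(⟨0,[(21,0)]⟩,⟨0,[(22,0)]⟩),(⟨0,[(34,0)]⟩,⟨0,[(33,0)]⟩),⟨0,[(0,0)]⟩,.k,.k,(.x (-1) ⟨3,[(19,0),
  (0,0),(11,1),(0,3)]⟩ ⟨0,[(34,0)]⟩),(.x (-1) ⟨3,[(19,0),(0,0),(11,1),(0,3)]⟩ ⟨0,[(34,0)]⟩),.k,.k,
  ⟨false,0,⟨0,[(1,0),(8,0),(10,0),(1,0),(3,0)]⟩,⟨3,[(19,0),(0,2),(14,3)]⟩⟩,⟨true,0,⟨0,[(21,0)]⟩,⟨0,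
  [(16,0),(5,0),(4,0)]⟩⟩,⟨true,0,⟨0,[(42,0)]⟩,⟨0,[]⟩⟩,⟨false,1,⟨3,[(19,0),(0,2),(0,3),(13,3)]⟩,⟨1,
  [(1,1),(7,0),(5,0),(7,1)]⟩⟩,⟨false,0,⟨0,[]⟩,⟨0,[]⟩⟩,⟨false,0,⟨0,[]⟩,⟨0,[]⟩⟩,[.o ⟨false,0,⟨0,[(38,
  0)]⟩,⟨5,[(11,1),(7,0),(0,0),(11,1),(4,1)]⟩⟩,.o ⟨false,1,⟨7,[(5,3),(13,0),(0,2),(14,3),(2,3)]⟩,⟨1,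
  [(9,0),(5,0),(7,1)]⟩⟩,.o ⟨false,1,⟨1,[(22,1),(9,0),(6,0)]⟩,⟨0,[(16,0),(4,0),(5,0)]⟩⟩,.a ⟨true,0,
  ⟨0,[(22,0)]⟩,⟨0,[(21,0)]⟩⟩ ⟨false,0,⟨0,[(1,0),(13,0),(5,0),(1,0)]⟩,⟨1,[(20,0),(6,0),(0,0),(11,
  0)]⟩⟩ ⟨true,0,⟨0,[(21,0),(16,0)]⟩,⟨1,[(9,0),(5,0),(6,1),(0,1)]⟩⟩]⟩) (.R ⟨1,false,false,false,[1,0,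
  0,-1],[0,1],[0,1,0,0,0,0,0,0,-1],(⟨0,[(21,0)]⟩,⟨0,[(22,0)]⟩),(⟨0,[(34,0)]⟩,⟨0,[(33,0)]⟩),⟨0,[(0,
  0)]⟩,.k,.k,(.x (-1) ⟨3,[(19,0),(0,0),(11,1),(0,3)]⟩ ⟨0,[(34,0)]⟩),(.x (-1) ⟨3,[(19,0),(0,0),(11,
  1),(0,3)]⟩ ⟨0,[(34,0)]⟩),(.x 0 ⟨0,[(6,0),(5,0),(3,0),(10,0)]⟩ ⟨3,[(19,0),(0,0),(13,7),(4,1)]⟩),.k,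
  ⟨false,0,⟨0,[(1,0),(8,0),(10,0),(1,0),(3,0)]⟩,⟨3,[(19,0),(0,2),(14,3)]⟩⟩,⟨true,0,⟨0,[(21,0)]⟩,⟨0,
  [(16,0),(5,0),(4,0)]⟩⟩,⟨true,0,⟨0,[(42,0)]⟩,⟨0,[]⟩⟩,⟨false,1,⟨3,[(19,0),(0,2),(0,3),(13,3)]⟩,⟨1,
  [(1,1),(7,0),(5,0),(7,1)]⟩⟩,⟨false,0,⟨0,[(38,0)]⟩,⟨7,[(7,1),(1,1),(9,0),(0,0),(6,0),(0,2),(11,
  3)]⟩⟩,⟨false,1,⟨3,[(19,0),(0,2),(0,3),(13,3),(2,3)]⟩,⟨0,[(1,0),(7,0),(13,0)]⟩⟩,[.o ⟨false,0,⟨0,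
  [(38,0)]⟩,⟨5,[(11,1),(7,0),(0,0),(11,1),(4,1)]⟩⟩,.o ⟨false,1,⟨7,[(5,3),(13,0),(0,2),(14,3),(2,
  3)]⟩,⟨1,[(9,0),(5,0),(7,1)]⟩⟩,.o ⟨false,1,⟨1,[(22,1),(9,0),(6,0)]⟩,⟨0,[(16,0),(4,0),(5,0)]⟩⟩,.a
  ⟨true,0,⟨0,[(22,0)]⟩,⟨0,[(21,0)]⟩⟩ ⟨false,0,⟨0,[(1,0),(13,0),(5,0),(1,0)]⟩,⟨1,[(20,0),(6,0),(0,0),
  (11,0)]⟩⟩ ⟨true,0,⟨0,[(21,0),(16,0)]⟩,⟨1,[(9,0),(5,0),(6,1),(0,1)]⟩⟩]⟩))) (.Q [0,0,0,0,0,-1,0,0,0,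
  1,0,-1] (.p false [0,0,0,1] [1] (⟨0,[(20,0)]⟩,⟨0,[(19,0)]⟩) .k 1 (⟨0,[]⟩,⟨0,[]⟩) .k .k) (.R ⟨1,
  false,false,false,[1,0,0,-1],[0,0,1],[0,1,0,0,0,0,0,0,-1],(⟨0,[(20,0)]⟩,⟨0,[(21,0)]⟩),(⟨0,[(30,
  0)]⟩,⟨0,[(29,0)]⟩),⟨0,[(0,0)]⟩,.k,.k,(.x (-1) ⟨3,[(18,0),(0,0),(11,1),(0,3)]⟩ ⟨0,[(33,0)]⟩),.k,
  (.x 0 ⟨0,[(5,0),(9,0)]⟩ ⟨3,[(18,0),(0,0),(6,3),(3,3),(2,3),(4,1)]⟩),.k,⟨false,1,⟨5,[(6,1),(5,3),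
  (5,2),(16,3),(2,0),(2,1)]⟩,⟨0,[(1,0),(7,0),(11,0),(12,0)]⟩⟩,⟨true,0,⟨0,[(20,0),(5,0)]⟩,⟨0,[(15,0),
  (5,0)]⟩⟩,⟨true,0,⟨0,[(41,0)]⟩,⟨0,[]⟩⟩,⟨false,0,⟨1,[(1,1),(15,0),(2,0),(0,0)]⟩,⟨0,[(7,0),(14,0)]⟩⟩,
  ⟨false,0,⟨0,[(37,0)]⟩,⟨7,[(6,1),(1,1),(9,0),(0,0),(6,0),(0,2),(11,3)]⟩⟩,⟨false,0,⟨1,[(1,1),(15,0),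
  (2,0),(0,0),(15,1)]⟩,⟨0,[(3,0),(3,0),(0,0)]⟩⟩,[.o ⟨false,0,⟨0,[(14,0)]⟩,⟨7,[(3,3),(6,1),(7,1),(0,
  1),(11,0),(7,0)]⟩⟩,.o ⟨false,1,⟨7,[(17,3),(0,0),(0,0),(11,1),(7,3)]⟩,⟨0,[(22,0)]⟩⟩,.o ⟨false,1,⟨1,
  [(21,1),(9,0),(6,0)]⟩,⟨0,[(15,0),(4,0),(5,0)]⟩⟩,.a ⟨true,0,⟨0,[(21,0)]⟩,⟨0,[(20,0)]⟩⟩ ⟨false,1,⟨1,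
  [(18,0),(19,0)]⟩,⟨0,[(1,0),(19,0)]⟩⟩ ⟨true,0,⟨0,[(14,0),(5,0)]⟩,⟨0,[(21,0),(0,0)]⟩⟩]⟩) (.R ⟨0,
  false,false,false,[1,0,0,-1],[0,1],[0,1,0,0,0,0,0,0,-1],(⟨0,[(20,0)]⟩,⟨0,[(21,0)]⟩),(⟨0,[(33,0)]⟩,
  ⟨0,[(32,0)]⟩),⟨0,[(0,0)]⟩,.k,.k,(.x (-1) ⟨3,[(18,0),(0,0),(11,1),(0,3)]⟩ ⟨0,[(33,0)]⟩),(.x (-1)
  ⟨3,[(18,0),(0,0),(11,1),(0,3)]⟩ ⟨0,[(33,0)]⟩),.k,.k,⟨false,1,⟨5,[(6,1),(2,1),(8,2),(16,1),(2,0),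
  (2,1)]⟩,⟨0,[(1,0),(19,0),(15,0)]⟩⟩,⟨true,0,⟨0,[(20,0)]⟩,⟨0,[(15,0),(5,0),(4,0)]⟩⟩,⟨true,0,⟨0,[(41,
  0)]⟩,⟨0,[]⟩⟩,⟨false,0,⟨0,[(1,0),(18,0),(0,0),(15,0)]⟩,⟨1,[(7,1),(0,0),(5,0),(7,1)]⟩⟩,⟨false,0,⟨0,
  []⟩,⟨0,[]⟩⟩,⟨false,0,⟨0,[]⟩,⟨0,[]⟩⟩,[.o ⟨false,0,⟨0,[(37,0)]⟩,⟨5,[(10,1),(7,0),(0,0),(11,1),(4,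
  1)]⟩⟩,.o ⟨false,1,⟨7,[(4,3),(13,0),(0,2),(14,3),(2,3)]⟩,⟨1,[(8,0),(5,0),(7,1)]⟩⟩,.o ⟨false,1,⟨1,
  [(21,1),(9,0),(6,0)]⟩,⟨0,[(15,0),(4,0),(5,0)]⟩⟩,.a ⟨true,0,⟨0,[(21,0)]⟩,⟨0,[(20,0)]⟩⟩ ⟨false,1,⟨1,
  [(18,0),(19,0)]⟩,⟨0,[(1,0),(19,0)]⟩⟩ ⟨true,0,⟨0,[(20,0),(16,0)]⟩,⟨1,[(8,0),(5,0),(6,1),(0,
  1)]⟩⟩]⟩))))) (.R ⟨1,false,false,false,[0,0,1],[1,0,0,-1],[1,1,1],(⟨0,[(26,0)]⟩,⟨0,[(25,0)]⟩),(⟨0,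
  [(16,0)]⟩,⟨0,[(17,0)]⟩),⟨0,[(7,0)]⟩,.k,.k,.k,.k,(.r 0 ⟨0,[(0,0),(4,0),(29,0)]⟩ ⟨3,[(8,3),(5,2),(0,
  0)]⟩),.k,⟨true,(-1),⟨0,[(0,0)]⟩,⟨1,[(14,0),(20,0)]⟩⟩,⟨false,1,⟨0,[(11,0),(5,0),(16,0)]⟩,⟨0,[(16,
  0),(5,0)]⟩⟩,⟨true,0,⟨0,[(8,0),(23,0)]⟩,⟨0,[(5,0),(24,0)]⟩⟩,⟨true,1,⟨0,[(3,0),(14,0)]⟩,⟨0,[(0,0),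
  (9,0),(5,0)]⟩⟩,⟨false,0,⟨0,[(8,0)]⟩,⟨23,[(5,15),(0,3),(6,3),(0,0),(0,0),(7,7),(11,17)]⟩⟩,⟨true,1,
  ⟨0,[(3,0),(14,0),(14,0)]⟩,⟨1,[(0,1),(3,0),(5,0),(5,1)]⟩⟩,[.o ⟨false,1,⟨0,[(3,0),(6,0),(7,0)]⟩,⟨1,
  [(0,1),(15,1),(10,0),(7,0)]⟩⟩,.a ⟨true,1,⟨0,[(3,0)]⟩,⟨0,[(0,0),(15,0)]⟩⟩ ⟨false,0,⟨0,[]⟩,⟨3,[(14,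
  0),(0,0),(18,1)]⟩⟩ ⟨true,1,⟨0,[(3,0),(7,0)]⟩,⟨0,[(0,0),(15,0),(5,0)]⟩⟩,.o ⟨false,1,⟨3,[(14,0),(0,
  0),(6,3),(11,1)]⟩,⟨0,[(11,0)]⟩⟩,.o ⟨false,0,⟨0,[(22,0)]⟩,⟨3,[(11,1),(11,1),(3,0),(6,2)]⟩⟩]⟩)))

theorem ok10 : chk (cU (-1) true 3) t10 r10 = true := by decide +kernel

noncomputable def t11 : Tre :=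
  .I [0,0,2,2,-1,0,0,1] t9 t10

theorem ok11 : chk (cU (-1) true 3) t11 r9 = true :=
  chk_I (e' := [1,0,-2,-2,1,0,0,-1]) (by decide +kernel) (by decide +kernel) ok9 ok10

noncomputable def t12 : Tre :=
  .Q [0,1,1,0,-1,0,0,0,1,0,0,-1] (.p false [0,0,0,1] [] (⟨0,[(13,0)]⟩,⟨0,[(12,0)]⟩) .k 0 (⟨0,[]⟩,⟨0,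
  []⟩) .k .k) t8 t11

theorem ok12 : chk (cU (-1) true 3) t12 r8 = true :=
  chk_Q (e' := [0,-1,-1,0,1,0,0,0,-1,0,0,1]) (by decide +kernel) (by decide +kernel) ok8 ok11

noncomputable def t13 : Tre :=
  .Q [0,0,0,2,0,0,-1,-1,0,0,1] (.p true [0,0,1] [] (⟨0,[(21,0)]⟩,⟨0,[(20,0)]⟩) .k 0 (⟨0,[]⟩,⟨0,[]⟩)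
  .k .k) t7 t12

theorem ok13 : chk (cU (-1) true 3) t13 r7 = true :=
  chk_Q (e' := [0,0,0,-2,0,0,1,1,0,0,-1]) (by decide +kernel) (by decide +kernel) ok7 ok12

noncomputable def t14 : Tre :=
  .I [1,-1,2,1,0,0,0,-1] t6 t13

theorem ok14 : chk (cU (-1) true 3) t14 r6 = true :=
  chk_I (e' := [0,1,-2,-1,0,0,0,1]) (by decide +kernel) (by decide +kernel) ok6 ok13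

noncomputable def t15 : Tre :=
  .Q [0,1,0,2,-1,0,0,0,0,1] (.pp false [-1,1]) t5 t14

theorem ok15 : chk (cU (-1) true 3) t15 r5 = true :=
  chk_Q (e' := [0,-1,0,-2,1,0,0,0,0,-1]) (by decide +kernel) (by decide +kernel) ok5 ok14

noncomputable def t16 : Tre :=
  .Q [0,0,0,0,0,1,0,0,0,0,-1] (.ed true [1,-1,1] .k) t4 t15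

theorem ok16 : chk (cU (-1) true 3) t16 r4 = true :=
  chk_Q (e' := [0,0,0,0,0,-1,0,0,0,0,1]) (by decide +kernel) (by decide +kernel) ok4 ok15

noncomputable def t17 : Tre :=
  .I [1,0,-1,-1,0,0,0,1] t3 t16

theorem ok17 : chk (cU (-1) true 3) t17 r3 = true :=
  chk_I (e' := [0,0,1,1,0,0,0,-1]) (by decide +kernel) (by decide +kernel) ok3 ok16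

noncomputable def t18 : Tre :=
  .Q [0,0,0,1,0,0,-1,-1,0,0,1] (.p true [0,0,1] [] (⟨0,[(16,0)]⟩,⟨0,[(15,0)]⟩) .k 0 (⟨0,[]⟩,⟨0,[]⟩)
  .k .k) t2 t17

theorem ok18 : chk (cU (-1) true 3) t18 l2 = true :=
  chk_Q (e' := [0,0,0,-1,0,0,1,1,0,0,-1]) (by decide +kernel) (by decide +kernel) ok2 ok17

noncomputable def t19 : Tre :=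
  (.Q [0,1,0,-1,0,0,1,1,0,0,-1] (.p false [0,0,1] [] (⟨0,[(16,0)]⟩,⟨0,[(15,0)]⟩) .k 0 (⟨0,[]⟩,⟨0,
  []⟩) .k .k) (.R ⟨2,false,false,true,[0,1],[0,0,1],[0,1],(⟨0,[]⟩,⟨0,[]⟩),(⟨0,[(17,0)]⟩,⟨0,[(16,
  0)]⟩),⟨0,[]⟩,.k,.k,.k,.k,.k,.k,⟨false,1,⟨0,[(1,0),(11,0),(11,0)]⟩,⟨0,[(15,0)]⟩⟩,⟨true,0,⟨0,[(13,
  0)]⟩,⟨0,[(1,0),(13,0)]⟩⟩,⟨false,1,⟨1,[(23,1),(1,0),(0,0)]⟩,⟨0,[(21,0)]⟩⟩,⟨true,0,⟨0,[(0,0)]⟩,⟨0,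
  [(1,0),(22,0)]⟩⟩,⟨true,0,⟨0,[(22,0)]⟩,⟨1,[(13,0),(0,0)]⟩⟩,⟨true,0,⟨0,[(11,0)]⟩,⟨0,[(1,0)]⟩⟩,[.o
  ⟨false,0,⟨0,[(11,0)]⟩,⟨1,[(1,1),(16,0),(7,0)]⟩⟩,.a ⟨true,0,⟨1,[(4,0),(2,0),(0,0)]⟩,⟨0,[(1,0)]⟩⟩
  ⟨false,1,⟨3,[(5,0),(0,0),(18,1)]⟩,⟨0,[]⟩⟩ ⟨true,0,⟨1,[(4,0),(5,0),(2,0)]⟩,⟨0,[(1,0)]⟩⟩,.o ⟨false,
  1,⟨3,[(5,0),(0,0),(18,1)]⟩,⟨0,[(2,0),(10,0)]⟩⟩,.e ⟨true,0,⟨0,[(22,0)]⟩,⟨1,[(13,0),(0,0)]⟩⟩ ⟨true,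
  0,⟨0,[(11,0)]⟩,⟨0,[(1,0)]⟩⟩]⟩) (.R ⟨2,true,false,true,[0,1],[0,0,1],[0,1,1,1],(⟨0,[]⟩,⟨0,[]⟩),(⟨0,
  [(17,0)]⟩,⟨0,[(16,0)]⟩),⟨0,[]⟩,.k,.k,.k,.k,.k,.k,⟨false,0,⟨0,[(0,0),(12,0),(8,0)]⟩,⟨1,[(15,1),(7,
  1),(1,0),(0,0)]⟩⟩,⟨true,0,⟨0,[(13,0)]⟩,⟨0,[(1,0),(13,0)]⟩⟩,⟨true,0,⟨0,[(28,0)]⟩,⟨0,[]⟩⟩,⟨false,1,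
  ⟨7,[(4,3),(0,0),(0,0),(11,1),(4,7),(2,3)]⟩,⟨0,[(0,0)]⟩⟩,⟨false,0,⟨0,[(24,0)]⟩,⟨0,[(23,0),(2,0)]⟩⟩,
  ⟨true,0,⟨0,[(11,0)]⟩,⟨0,[(1,0)]⟩⟩,[]⟩))

theorem ok19 : chk (cU (-1) true 3) t19 r2 = true := by decide +kernel

noncomputable def t20 : Tre :=
  .Q [0,0,0,0,0,0,1,1,0,0,-1] (.p false [0,0,1] [] (⟨0,[(15,0)]⟩,⟨0,[(14,0)]⟩) .k 0 (⟨0,[]⟩,⟨0,[]⟩)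
  .k .k) t18 t19

theorem ok20 : chk (cU (-1) true 3) t20 r1 = true :=
  chk_Q (e' := [0,0,0,0,0,0,-1,-1,0,0,1]) (by decide +kernel) (by decide +kernel) ok18 ok19

noncomputable def t21 : Tre :=
  .Q [0,0,0,0,0,0,1,0,0,1,-1] (.p false [0,0,1] [1] (⟨0,[(14,0)]⟩,⟨0,[(13,0)]⟩) .k 1 (⟨0,[]⟩,⟨0,
  []⟩) .k .k) t1 t20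

theorem ok21 : chk (cU (-1) true 3) t21 r0 = true :=
  chk_Q (e' := [0,0,0,0,0,0,-1,0,0,-1,1]) (by decide +kernel) (by decide +kernel) ok1 ok20

noncomputable def t22 : Tre :=
  .Q [0,-1,0,1,0,0,1,0,0,1,-1] (.p false [0,0,1] [1] (⟨0,[(13,0)]⟩,⟨0,[(12,0)]⟩) .k 1 (⟨0,[]⟩,⟨0,
  []⟩) .k .k) t0 t21

theorem ok22 : chk (cU (-1) true 3) t22 base = true :=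
  chk_Q (e' := [0,1,0,-1,0,0,-1,0,0,-1,1]) (by decide +kernel) (by decide +kernel) ok0 ok21

theorem ok : chkB (cU (-1) true 3) (fax (fcU (-1)) true 2 (-1) 3 true (tU true)) t22 base = true :=
  chkB_of (by decide +kernel) ok22

end Helper11.CT.T1_2_m1_1_u
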