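import Pool.Agent.Helper11.CT.Cfg
import Pool.Agent.Helper11.CT.Cut

set_option autoImplicit false
set_option linter.all false

namespace Helper11.CT.T1_2_m1_1_v2

open Helper11.CT

noncomputable def base : List Con :=
  [(false,[0,0,0,0,0,2,2,0,-2,2]),
  (false,[0,0,0,0,0,0,0,0,0,1]),
  (false,[0,1,0,0,0,-1,-1,0,1,-2]),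
  (false,[0,0,1,0,0,-1,0,0,1,-2]),
  (false,[0,1,0,0,0,1,1,0,-1]),
  (false,[0,1,0,0,0,-1,-1,0,1]),
  (false,[0,0,1,0,0,1,0,0,-1]),
  (false,[0,0,1,0,0,-1,0,0,1]),
  (true,[0,0,0,0,0,0,1]),
  (false,[0,0,0,0,0,0,0,0,-1,2]),
  (false,[0,0,0,0,0,0,0,0,1]),
  (false,[0,0,0,0,0,0,0,2,0,-4]),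
  (false,[0,0,0,0,-1,0,0,0,0,2]),
  (true,[0,0,0,0,1]),
  (true,[1,-1,1,1]),
  (true,[0,1,-1]),
  (true,[0,1,0,-1]),
  (true,[0,0,0,1]),
  (true,[0,0,-2,0,0,0,0,2]),
  (true,[0,-2,0,0,0,0,0,2]),
  (true,[-1,0,1]),
  (true,[-1,1])]

noncomputable def t0 : Tre :=
  (.I [1,-1,-1,-1,0,0,0,2] (.Q [0,0,0,0,0,1,0,0,-1,2] (.p false [0,0,1] [1] (⟨0,[(11,0)]⟩,⟨0,[(10,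
  0)]⟩) .k 1 (⟨0,[]⟩,⟨0,[]⟩) .k .k) (.Q [0,-1,0,1,0,1,1,0,-1,2] (.p false [0,0,1] [1] (⟨0,[(12,0)]⟩,
  ⟨0,[(11,0)]⟩) .k 1 (⟨0,[]⟩,⟨0,[]⟩) .k .k) (.R ⟨2,true,false,true,[0,1],[1,0,-1],[1,1,1],(⟨0,[]⟩,
  ⟨0,[]⟩),(⟨0,[(12,0)]⟩,⟨0,[(13,0)]⟩),⟨0,[]⟩,.k,.k,.k,.k,.k,.k,⟨false,0,⟨0,[(11,0)]⟩,⟨1,[(1,1),(3,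
  1),(15,0),(0,0)]⟩⟩,⟨true,0,⟨0,[(6,0)]⟩,⟨0,[(1,0)]⟩⟩,⟨true,0,⟨0,[(19,0)]⟩,⟨0,[(20,0)]⟩⟩,⟨false,1,
  ⟨0,[(5,0),(13,0),(2,0)]⟩,⟨0,[(0,0)]⟩⟩,⟨false,0,⟨0,[]⟩,⟨0,[(22,0),(1,0)]⟩⟩,⟨true,0,⟨0,[(5,0)]⟩,⟨1,
  [(3,0),(0,1)]⟩⟩,[]⟩) (.Q [0,0,1,0,0,0,0,0,0,-2] (.pp true [-1,1]) (.Q [0,0,0,0,0,-1,-1,0,1] (.p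
  true [0,0,1] [] (⟨0,[(14,0)]⟩,⟨0,[(13,0)]⟩) .k 0 (⟨0,[]⟩,⟨0,[]⟩) .k .k) (.R ⟨2,false,false,true,
  [0,1],[0,0,1],[0,1],(⟨0,[]⟩,⟨0,[]⟩),(⟨0,[(15,0)]⟩,⟨0,[(14,0)]⟩),⟨0,[]⟩,.k,.k,.k,.k,.k,.k,⟨false,1,
  ⟨0,[(0,0),(10,0),(11,0)]⟩,⟨0,[(13,0)]⟩⟩,⟨true,0,⟨0,[(11,0)]⟩,⟨0,[(0,0),(12,0)]⟩⟩,⟨false,1,⟨0,[(4,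
  0),(21,0)]⟩,⟨0,[(19,0)]⟩⟩,⟨true,0,⟨0,[(2,0),(2,0)]⟩,⟨0,[(0,0),(21,0)]⟩⟩,⟨true,0,⟨0,[(20,0)]⟩,⟨1,
  [(11,0),(0,0)]⟩⟩,⟨true,0,⟨0,[(9,0)]⟩,⟨0,[(0,0)]⟩⟩,[.o ⟨false,0,⟨0,[(9,0)]⟩,⟨0,[(7,0),(16,0)]⟩⟩,.a
  ⟨true,0,⟨1,[(5,0),(0,1)]⟩,⟨0,[(0,0)]⟩⟩ ⟨false,1,⟨1,[(23,0),(0,0),(1,1)]⟩,⟨0,[]⟩⟩ ⟨true,0,⟨3,[(1,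
  1),(3,1),(5,0),(0,0)]⟩,⟨0,[(0,0)]⟩⟩,.o ⟨false,1,⟨1,[(23,0),(0,0),(1,1)]⟩,⟨0,[(1,0)]⟩⟩,.e ⟨true,0,
  ⟨0,[(20,0)]⟩,⟨1,[(11,0),(0,0)]⟩⟩ ⟨true,0,⟨0,[(9,0)]⟩,⟨0,[(0,0)]⟩⟩]⟩) (.Q [0,0,0,0,1,0,0,0,1,-2]
  (.ed false [0,1,1] .k) (.Q [0,-1,0,1,0,1,1,0,-1,4] (.p false [-1,1,1] [1] (⟨0,[(0,0)]⟩,⟨0,[(15,0),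
  (2,0)]⟩) .k 1 (⟨0,[]⟩,⟨0,[]⟩) .k .k) (.R ⟨2,false,false,false,[0,1],[-1,1,1],[0,1],(⟨0,[]⟩,⟨0,
  []⟩),(⟨0,[(1,0)]⟩,⟨0,[(16,0),(2,0)]⟩),⟨0,[]⟩,.k,.k,.k,.k,.k,.k,⟨false,1,⟨0,[(4,0),(0,0),(19,0)]⟩,
  ⟨0,[(15,0),(5,0)]⟩⟩,⟨true,0,⟨0,[(5,0)]⟩,⟨0,[(10,0)]⟩⟩,⟨false,1,⟨0,[(6,0),(21,0)]⟩,⟨0,[(21,0)]⟩⟩,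
  ⟨true,0,⟨2,[(0,0),(6,0),(15,0)]⟩,⟨0,[(9,0)]⟩⟩,⟨true,0,⟨0,[(22,0)]⟩,⟨1,[(13,0),(0,0)]⟩⟩,⟨true,0,⟨1,
  [(0,0),(10,0),(12,0)]⟩,⟨0,[(4,0)]⟩⟩,[.o ⟨false,0,⟨1,[(0,0),(10,0),(12,0)]⟩,⟨1,[(4,1),(13,0),(7,
  0)]⟩⟩,.a ⟨true,0,⟨0,[(0,0)]⟩,⟨0,[(4,0)]⟩⟩ ⟨false,1,⟨1,[(25,0),(0,0),(1,1)]⟩,⟨0,[]⟩⟩ ⟨true,0,⟨5,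
  [(0,1),(6,1),(5,0),(0,0),(6,3)]⟩,⟨0,[(4,0)]⟩⟩,.o ⟨false,1,⟨1,[(25,0),(0,0),(1,1)]⟩,⟨0,[(3,0)]⟩⟩,
  .e ⟨true,0,⟨0,[(22,0)]⟩,⟨1,[(13,0),(0,0)]⟩⟩ ⟨true,0,⟨1,[(0,0),(10,0),(12,0)]⟩,⟨0,[(4,0)]⟩⟩]⟩) (.Q
  [0,0,0,0,1,0,0,0,0,-1] (.p false [0,0,0,1] [] (⟨0,[(8,0)]⟩,⟨0,[(8,0)]⟩) .k 0 (⟨0,[]⟩,⟨0,[]⟩) .k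
  .k) (.K ⟨2,[-1,1,1],0,0,(⟨0,[(2,0)]⟩,⟨0,[(17,0),(2,0)]⟩),.k,.k,(.x (-1) ⟨0,[(2,0),(3,0),(14,0),(4,
  0)]⟩ ⟨0,[(1,0),(2,0),(11,0),(0,0),(2,1),(1,0)]⟩),.k,.k,[⟨0,[(9,1),(15,0)]⟩,⟨0,[(5,0)]⟩,⟨0,[(4,0),
  (10,0)]⟩,⟨0,[(6,0)]⟩]⟩) (.K ⟨2,[-1,1,1],0,0,(⟨0,[(2,0)]⟩,⟨0,[(17,0),(2,0)]⟩),.k,.k,(.x (-1) ⟨0,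
  [(2,0),(3,0),(14,0),(4,0)]⟩ ⟨0,[(0,1),(3,0),(6,0),(5,0)]⟩),.k,.k,[⟨0,[(9,1),(15,0)]⟩,⟨0,[(5,0)]⟩,
  ⟨0,[(4,0),(10,0)]⟩,⟨0,[(6,0)]⟩]⟩))) (.Q [0,1,0,0,0,0,0,-1,0,1] (.p true [0,0,0,1] [] (⟨0,[(7,0)]⟩,
  ⟨0,[(7,0)]⟩) .k 0 (⟨0,[]⟩,⟨0,[]⟩) .k .k) (.K ⟨1,[0,0,0,1],0,0,(⟨0,[(8,0)]⟩,⟨0,[(8,0)]⟩),.k,(.x 0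
  ⟨0,[(3,0),(15,0)]⟩ ⟨1,[(20,1),(4,0),(0,0),(1,1)]⟩),(.x (-1) ⟨1,[(20,1),(4,0),(0,0),(1,1)]⟩ ⟨0,[(3,
  0),(15,0)]⟩),.k,.k,[⟨3,[(5,1),(7,0),(0,2)]⟩,⟨3,[(3,1),(9,0),(0,0)]⟩,⟨0,[(0,0)]⟩,⟨1,[(8,1),(17,
  0)]⟩]⟩) (.Q [0,0,0,0,-1,0,0,0,0,1] (.p true [0,0,0,1] [] (⟨0,[(8,0)]⟩,⟨0,[(8,0)]⟩) .k 0 (⟨0,[]⟩,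
  ⟨0,[]⟩) .k .k) (.I [0,0,-1,-1,0,0,0,1] (.R ⟨1,false,false,true,[0,0,0,1],[1,-1],[0,0,0,0,0,0,0,1],
  (⟨0,[(10,0)]⟩,⟨0,[(10,0)]⟩),(⟨0,[(21,0)]⟩,⟨0,[(22,0)]⟩),⟨0,[(1,0)]⟩,.k,.k,(.r 0 ⟨0,[(0,0)]⟩ ⟨1,
  [(23,1),(4,0),(1,3)]⟩),(.r 0 ⟨1,[(23,1),(4,0),(1,3)]⟩ ⟨0,[(0,0)]⟩),.k,.k,⟨false,0,⟨1,[(26,1),(1,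
  0)]⟩,⟨1,[(25,1),(1,0)]⟩⟩,⟨true,0,⟨3,[(5,1),(9,0),(0,0)]⟩,⟨0,[(10,0)]⟩⟩,⟨false,1,⟨0,[(28,0),(1,
  0)]⟩,⟨0,[]⟩⟩,⟨false,1,⟨1,[(5,0),(2,0),(16,0)]⟩,⟨1,[(10,1),(15,1),(1,0)]⟩⟩,⟨true,0,⟨0,[(26,0)]⟩,⟨0,
  [(25,0)]⟩⟩,⟨false,1,⟨3,[(20,0),(7,0),(1,1)]⟩,⟨1,[(10,1),(17,0)]⟩⟩,[.o ⟨false,0,⟨0,[(4,0),(1,0)]⟩,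
  ⟨0,[(26,0),(1,0),(1,0)]⟩⟩,.o ⟨false,1,⟨1,[(20,0),(4,1),(2,0)]⟩,⟨0,[(26,0)]⟩⟩,.a ⟨true,0,⟨0,[(10,
  0)]⟩,⟨0,[(10,0)]⟩⟩ ⟨false,0,⟨1,[(28,0)]⟩,⟨1,[(28,0),(1,1)]⟩⟩ ⟨true,0,⟨1,[(4,0),(1,0),(18,0)]⟩,⟨0,
  [(10,0),(15,0)]⟩⟩,.o ⟨false,0,⟨3,[(5,1),(9,0),(0,0)]⟩,⟨3,[(20,0),(6,1),(0,0),(1,1)]⟩⟩]⟩) (.R ⟨2,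
  true,false,false,[0,1],[0,0,0,1],[0,1],(⟨0,[]⟩,⟨0,[]⟩),(⟨0,[(10,0)]⟩,⟨0,[(10,0)]⟩),⟨0,[]⟩,.k,.k,
  .k,(.x (-1) ⟨1,[(22,1),(4,0),(0,0),(1,1)]⟩ ⟨0,[(5,0),(15,0)]⟩),.k,.k,⟨false,1,⟨1,[(27,0),(2,1)]⟩,
  ⟨1,[(28,0)]⟩⟩,⟨true,0,⟨3,[(5,1),(9,0),(0,0)]⟩,⟨0,[(10,0)]⟩⟩,⟨false,1,⟨0,[(8,0),(21,0)]⟩,⟨0,[(23,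
  0)]⟩⟩,⟨true,0,⟨1,[(5,0),(2,0),(16,0)]⟩,⟨0,[(0,0),(9,0),(13,0)]⟩⟩,⟨true,0,⟨0,[(24,0)]⟩,⟨1,[(15,0),
  (0,0)]⟩⟩,⟨false,0,⟨0,[(2,0)]⟩,⟨3,[(7,1),(8,1),(10,0),(0,0),(1,1)]⟩⟩,[]⟩)) (.I [0,0,-1,-1,0,0,0,1]
  (.R ⟨0,false,false,true,[0,0,0,1],[1,-1],[1,0,0,0,0,0,0,1],(⟨0,[(10,0)]⟩,⟨0,[(10,0)]⟩),(⟨0,[(21,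
  0)]⟩,⟨0,[(22,0)]⟩),⟨0,[(1,0)]⟩,.k,.k,(.r 0 ⟨0,[(0,0)]⟩ ⟨1,[(23,1),(4,0),(1,3)]⟩),(.r 0 ⟨1,[(23,1),
  (4,0),(1,3)]⟩ ⟨0,[(0,0)]⟩),.k,.k,⟨false,0,⟨1,[(26,1),(1,0)]⟩,⟨1,[(25,1),(1,0)]⟩⟩,⟨true,0,⟨3,[(5,
  1),(9,0),(0,0)]⟩,⟨0,[(10,0)]⟩⟩,⟨true,0,⟨0,[]⟩,⟨0,[(30,0)]⟩⟩,⟨false,1,⟨1,[(5,0),(2,0),(16,0)]⟩,⟨1,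
  [(10,1),(15,1),(1,0)]⟩⟩,⟨false,0,⟨0,[]⟩,⟨0,[]⟩⟩,⟨false,0,⟨0,[]⟩,⟨0,[]⟩⟩,[.o ⟨false,0,⟨0,[(4,0),(1,
  0)]⟩,⟨0,[(26,0),(1,0),(1,0)]⟩⟩,.o ⟨false,1,⟨1,[(20,0),(4,1),(2,0)]⟩,⟨0,[(26,0)]⟩⟩,.a ⟨true,0,⟨0,
  [(10,0)]⟩,⟨0,[(10,0)]⟩⟩ ⟨false,0,⟨1,[(28,0)]⟩,⟨1,[(28,0),(1,1)]⟩⟩ ⟨true,0,⟨1,[(4,0),(1,0),(18,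
  0)]⟩,⟨0,[(10,0),(15,0)]⟩⟩,.o ⟨false,0,⟨3,[(5,1),(9,0),(0,0)]⟩,⟨3,[(20,0),(6,1),(0,0),(1,1)]⟩⟩]⟩)
  (.R ⟨2,true,false,false,[0,1],[0,0,0,1],[1,0,1],(⟨0,[]⟩,⟨0,[]⟩),(⟨0,[(10,0)]⟩,⟨0,[(10,0)]⟩),⟨0,
  []⟩,.k,.k,.k,(.x (-1) ⟨1,[(22,1),(4,0),(0,0),(1,1)]⟩ ⟨0,[(5,0),(15,0)]⟩),.k,.k,⟨false,1,⟨1,[(28,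
  0),(1,1)]⟩,⟨1,[(27,0)]⟩⟩,⟨true,0,⟨3,[(5,1),(9,0),(0,0)]⟩,⟨0,[(10,0)]⟩⟩,⟨false,1,⟨0,[(25,0),(2,
  0)]⟩,⟨0,[(26,0)]⟩⟩,⟨true,0,⟨1,[(5,0),(2,0),(16,0)]⟩,⟨0,[(0,0),(9,0),(13,0)]⟩⟩,⟨true,0,⟨0,[]⟩,⟨0,
  [(30,0)]⟩⟩,⟨false,0,⟨0,[(2,0)]⟩,⟨3,[(7,1),(8,1),(10,0),(0,0),(1,1)]⟩⟩,[]⟩)))))) (.I [1,0,-1,-1,0,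
  0,0,1] (.Q [0,0,0,0,1,0,0,0,-1] (.ed true [1,-1,1] .k) (.K ⟨1,[0,1,-1],0,0,(⟨0,[(0,0)]⟩,⟨0,[(16,
  0),(1,0)]⟩),.k,.k,(.r 0 ⟨0,[(11,0),(0,0),(7,0),(2,0)]⟩ ⟨0,[(1,1),(12,0)]⟩),.k,.k,[⟨1,[(12,2),(0,
  0)]⟩,⟨0,[(2,0),(6,0)]⟩,⟨0,[(3,0),(2,0)]⟩,⟨0,[(2,1),(0,0),(16,1)]⟩]⟩) (.K ⟨0,[0,-1,1],0,0,(⟨0,[(0,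
  0)]⟩,⟨0,[(15,0),(3,0)]⟩),.k,(.r (-1) ⟨0,[(1,1),(12,0)]⟩ ⟨0,[(11,0),(0,0),(7,0),(2,0)]⟩),.k,.k,.k,
  [⟨0,[(2,0),(6,0)]⟩,⟨0,[(4,0)]⟩,⟨0,[(11,0),(11,0)]⟩,⟨0,[(3,0),(2,0)]⟩]⟩)) (.K ⟨1,[0,0,0,1],0,0,(⟨0,
  [(6,0)]⟩,⟨0,[(6,0)]⟩),.k,(.r (-1) ⟨1,[(4,1),(19,0),(1,3)]⟩ ⟨0,[(0,0)]⟩),(.r 1 ⟨0,[(0,0)]⟩ ⟨1,[(4,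
  1),(19,0),(1,3)]⟩),.k,.k,[⟨3,[(3,1),(7,0),(0,2)]⟩,⟨1,[(8,0),(2,0)]⟩,⟨1,[(0,1),(0,1),(0,1),(2,0)]⟩,
  ⟨3,[(1,0),(1,0),(8,0),(11,1)]⟩]⟩)))) (.Q [0,0,0,0,0,1,1,0,-1] (.p false [0,0,1] [] (⟨0,[(12,0)]⟩,
  ⟨0,[(11,0)]⟩) .k 0 (⟨0,[]⟩,⟨0,[]⟩) .k .k) (.Q [0,0,0,1,0,-1,-1,0,1] (.p true [0,0,1] [] (⟨0,[(13,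
  0)]⟩,⟨0,[(12,0)]⟩) .k 0 (⟨0,[]⟩,⟨0,[]⟩) .k .k) (.R ⟨2,true,false,false,[0,1],[0,0,1],[0,1,1,1],
  (⟨0,[]⟩,⟨0,[]⟩),(⟨0,[(14,0)]⟩,⟨0,[(13,0)]⟩),⟨0,[]⟩,.k,.k,.k,.k,.k,.k,⟨false,0,⟨0,[(0,0),(9,0),(8,
  0)]⟩,⟨0,[(3,0),(8,0)]⟩⟩,⟨true,0,⟨0,[(10,0)]⟩,⟨0,[(2,0),(2,1)]⟩⟩,⟨true,0,⟨0,[(25,0)]⟩,⟨0,[]⟩⟩,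
  ⟨false,1,⟨1,[(3,1),(0,0),(2,0),(2,0)]⟩,⟨0,[(0,0)]⟩⟩,⟨false,0,⟨0,[(21,0)]⟩,⟨0,[(20,0),(2,0)]⟩⟩,
  ⟨true,0,⟨0,[(1,0)]⟩,⟨0,[(9,0)]⟩⟩,[]⟩) (.Q [0,0,0,0,1,0,0,0,0,-1] (.p false [0,0,0,1] [] (⟨0,[(5,
  0)]⟩,⟨0,[(5,0)]⟩) .k 0 (⟨0,[]⟩,⟨0,[]⟩) .k .k) (.R ⟨0,false,false,true,[0,0,0,1],[1,-1],[1,0,0,0,0,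
  0,0,1],(⟨0,[(6,0)]⟩,⟨0,[(6,0)]⟩),(⟨0,[(17,0)]⟩,⟨0,[(18,0)]⟩),⟨0,[(0,0)]⟩,.k,.k,(.x 0 ⟨0,[(3,0),(7,
  0),(5,0)]⟩ ⟨1,[(18,1),(4,0),(0,0),(1,1)]⟩),(.x (-1) ⟨1,[(18,1),(4,0),(0,0),(1,1)]⟩ ⟨0,[(3,0),(7,
  0),(5,0)]⟩),.k,.k,⟨false,0,⟨1,[(22,1),(1,0)]⟩,⟨1,[(21,1),(1,0)]⟩⟩,⟨true,0,⟨1,[(8,0),(2,0)]⟩,⟨0,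
  [(6,0)]⟩⟩,⟨true,0,⟨0,[]⟩,⟨0,[(26,0)]⟩⟩,⟨false,1,⟨3,[(1,0),(2,1),(2,0),(0,0),(2,0),(9,0)]⟩,⟨1,[(6,
  1),(15,1),(1,0)]⟩⟩,⟨false,0,⟨0,[]⟩,⟨0,[]⟩⟩,⟨false,0,⟨0,[]⟩,⟨0,[]⟩⟩,[.o ⟨false,0,⟨0,[(1,0),(5,0)]⟩,
  ⟨0,[(22,0),(1,0),(1,0)]⟩⟩,.o ⟨false,1,⟨1,[(16,0),(4,1),(2,0)]⟩,⟨0,[(22,0)]⟩⟩,.a ⟨true,0,⟨0,[(6,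
  0)]⟩,⟨0,[(6,0)]⟩⟩ ⟨false,0,⟨1,[(24,0)]⟩,⟨1,[(24,0),(1,1)]⟩⟩ ⟨true,0,⟨1,[(1,0),(5,0),(13,0)]⟩,⟨0,
  [(6,0),(15,0)]⟩⟩,.o ⟨false,0,⟨1,[(8,0),(2,0)]⟩,⟨3,[(16,0),(6,1),(0,0),(1,1)]⟩⟩]⟩) (.R ⟨1,false,
  false,true,[0,0,0,1],[1,-1],[0,0,0,0,0,0,0,1],(⟨0,[(6,0)]⟩,⟨0,[(6,0)]⟩),(⟨0,[(17,0)]⟩,⟨0,[(18,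
  0)]⟩),⟨0,[(0,0)]⟩,.k,.k,(.x 0 ⟨1,[(0,1),(7,0),(2,0)]⟩ ⟨1,[(18,1),(4,0),(0,0),(1,1)]⟩),(.x (-1) ⟨1,
  [(18,1),(4,0),(0,0),(1,1)]⟩ ⟨1,[(0,1),(7,0),(2,0)]⟩),.k,.k,⟨false,0,⟨1,[(22,1),(1,0)]⟩,⟨1,[(21,1),
  (1,0)]⟩⟩,⟨true,0,⟨1,[(8,0),(2,0)]⟩,⟨0,[(6,0)]⟩⟩,⟨false,1,⟨0,[(24,0),(1,0)]⟩,⟨0,[]⟩⟩,⟨false,1,⟨3,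
  [(1,0),(2,1),(2,0),(0,0),(2,0),(9,0)]⟩,⟨1,[(6,1),(15,1),(1,0)]⟩⟩,⟨true,0,⟨0,[(22,0)]⟩,⟨0,[(21,
  0)]⟩⟩,⟨false,1,⟨3,[(16,0),(7,0),(1,1)]⟩,⟨1,[(6,1),(17,0)]⟩⟩,[.o ⟨false,0,⟨0,[(1,0),(5,0)]⟩,⟨0,
  [(22,0),(1,0),(1,0)]⟩⟩,.o ⟨false,1,⟨1,[(16,0),(4,1),(2,0)]⟩,⟨0,[(22,0)]⟩⟩,.a ⟨true,0,⟨0,[(6,0)]⟩,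
  ⟨0,[(6,0)]⟩⟩ ⟨false,0,⟨1,[(24,0)]⟩,⟨1,[(24,0),(1,1)]⟩⟩ ⟨true,0,⟨1,[(1,0),(5,0),(13,0)]⟩,⟨0,[(6,0),
  (15,0)]⟩⟩,.o ⟨false,0,⟨1,[(8,0),(2,0)]⟩,⟨3,[(16,0),(6,1),(0,0),(1,1)]⟩⟩]⟩))) (.R ⟨2,false,false,
  false,[0,1],[0,0,1],[0,1,1,1],(⟨0,[]⟩,⟨0,[]⟩),(⟨0,[(13,0)]⟩,⟨0,[(12,0)]⟩),⟨0,[]⟩,.k,.k,.k,.k,.k,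
  .k,⟨false,0,⟨0,[(0,0),(8,0),(8,0),(1,0)]⟩,⟨0,[(2,0),(8,0)]⟩⟩,⟨true,0,⟨0,[(9,0)]⟩,⟨0,[(0,0),(10,
  0)]⟩⟩,⟨true,0,⟨0,[(24,0)]⟩,⟨0,[]⟩⟩,⟨false,1,⟨1,[(2,1),(0,0),(2,0),(2,0)]⟩,⟨0,[(0,0),(19,0)]⟩⟩,
  ⟨false,0,⟨0,[(20,0)]⟩,⟨0,[(19,0),(2,0)]⟩⟩,⟨false,1,⟨0,[(7,0),(14,0)]⟩,⟨0,[(0,0)]⟩⟩,[.a ⟨true,0,⟨1,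
  [(3,0),(0,1)]⟩,⟨0,[(0,0)]⟩⟩ ⟨false,0,⟨0,[(20,0),(3,0)]⟩,⟨0,[(2,0)]⟩⟩ ⟨true,0,⟨1,[(3,0),(2,0),(2,
  0)]⟩,⟨0,[(0,0)]⟩⟩,.o ⟨false,1,⟨0,[(7,0),(14,0)]⟩,⟨0,[(5,0)]⟩⟩,.o ⟨false,1,⟨1,[(21,0),(0,0),(1,
  1)]⟩,⟨0,[(1,0),(7,0)]⟩⟩,.e ⟨false,0,⟨0,[(20,0)]⟩,⟨0,[(19,0),(2,0)]⟩⟩ ⟨false,1,⟨0,[(7,0),(14,0)]⟩,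
  ⟨0,[(0,0)]⟩⟩]⟩))) (.Q [0,1,0,0,0,0,0,-1,0,1] (.p true [0,0,0,1] [] (⟨0,[(2,0)]⟩,⟨0,[(2,0)]⟩) .k 0
  (⟨0,[]⟩,⟨0,[]⟩) .k .k) (.K ⟨1,[0,0,0,1],0,0,(⟨0,[(3,0)]⟩,⟨0,[(3,0)]⟩),.k,(.r (-1) ⟨1,[(18,1),(1,
  0),(0,1),(1,1)]⟩ ⟨1,[(1,0),(14,0)]⟩),(.r 1 ⟨1,[(1,0),(14,0)]⟩ ⟨1,[(18,1),(1,0),(0,1),(1,1)]⟩),.k,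
  .k,[⟨1,[(3,1),(4,0),(0,0)]⟩,⟨1,[(5,0),(2,0)]⟩,⟨0,[(0,0)]⟩,⟨1,[(3,1),(17,0)]⟩]⟩) (.R ⟨2,true,false,
  false,[0,1],[0,0,0,1],[0,1],(⟨0,[]⟩,⟨0,[]⟩),(⟨0,[(3,0)]⟩,⟨0,[(3,0)]⟩),⟨0,[]⟩,.k,.k,.k,(.r 0 ⟨1,
  [(1,0),(14,0)]⟩ ⟨1,[(18,1),(1,0),(0,1),(1,1)]⟩),.k,.k,⟨false,1,⟨1,[(20,0),(2,1)]⟩,⟨1,[(21,0)]⟩⟩,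
  ⟨true,0,⟨1,[(5,0),(2,0)]⟩,⟨0,[(3,0)]⟩⟩,⟨false,1,⟨1,[(18,1),(1,0),(0,0)]⟩,⟨0,[(16,0)]⟩⟩,⟨true,0,⟨0,
  [(0,0),(17,0)]⟩,⟨1,[(1,1),(1,1),(16,0)]⟩⟩,⟨true,0,⟨0,[(17,0)]⟩,⟨1,[(8,0),(0,0)]⟩⟩,⟨false,0,⟨0,[(0,
  0)]⟩,⟨1,[(2,0),(4,1),(13,0)]⟩⟩,[]⟩)))

theorem ok0 : chk (cW (-1) 3) t0 base = true := by decide +kernel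

theorem ok : chkB (cW (-1) 3) (fax (fcW (-1)) true 2 (-1) 3 true tW) t0 base = true :=
  chkB_of (by decide +kernel) ok0

end Helper11.CT.T1_2_m1_1_v2
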