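import Pool.Agent.Helper11.CT.Cfg
import Pool.Agent.Helper11.CT.Cut

set_option autoImplicit false
set_option linter.all false

namespace Helper11.CT.T1_2_m1_m1_u

open Helper11.CT

noncomputable def base : List Con :=
  [(false,[0,0,0,0,0,0,2,2,0,1,-2]),
  (true,[0,0,0,0,1,0,0,0,-2]),
  (true,[0,0,0,0,1,0,0,0,2]),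
  (false,[0,0,0,0,0,0,0,0,0,1,0,-1]),
  (false,[0,0,0,0,0,0,0,0,0,0,0,1]),
  (false,[0,1,0,0,0,0,-1,-1,0,-1,1]),
  (false,[0,0,1,0,0,0,-1,0,0,-1,1]),
  (false,[0,1,0,0,0,0,1,1,0,0,-1]),
  (false,[0,1,0,0,0,0,-1,-1,0,0,1]),
  (false,[0,0,1,0,0,0,1,0,0,0,-1]),
  (false,[0,0,1,0,0,0,-1,0,0,0,1]),
  (true,[0,0,0,0,0,0,0,-1]),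
  (false,[0,0,0,0,0,0,0,0,0,1,-1]),
  (false,[0,0,0,0,0,0,0,0,0,0,1]),
  (false,[0,0,0,0,1,0,0,0,0,-2]),
  (false,[0,0,0,0,0,-1,0,0,0,1]),
  (true,[0,0,0,0,0,1]),
  (true,[1,-1,1,1]),
  (true,[0,1,-1]),
  (true,[0,1,0,-1]),
  (true,[0,0,0,1]),
  (true,[0,0,-2,0,1]),
  (true,[0,-2,0,0,1]),
  (true,[-1,0,1]),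
  (true,[-1,1])]

noncomputable def t0 : Tre :=
  (.Q [0,1,0,-1,0,0,-1,-1,0,-1,1] (.p true [0,0,1] [1] (⟨0,[(13,0)]⟩,⟨0,[(12,0)]⟩) .k 1 (⟨0,[]⟩,⟨0,
  []⟩) .k .k) (.Q [0,0,1,0,0,0,0,0,0,-1] (.pp true [-1,1]) (.Q [0,0,0,0,0,0,-1,-1,0,0,1] (.p true
  [0,0,1] [] (⟨0,[(15,0)]⟩,⟨0,[(14,0)]⟩) .k 0 (⟨0,[]⟩,⟨0,[]⟩) .k .k) (.R ⟨2,false,false,true,[0,1],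
  [1,0,-1],[0,1],(⟨0,[]⟩,⟨0,[]⟩),(⟨0,[(15,0)]⟩,⟨0,[(16,0)]⟩),⟨0,[]⟩,.k,.k,.k,.k,.k,.k,⟨false,1,⟨1,
  [(3,0),(5,0),(3,0),(10,1)]⟩,⟨0,[(14,0)]⟩⟩,⟨true,0,⟨0,[(9,0)]⟩,⟨1,[(3,0),(2,0),(0,0),(6,1)]⟩⟩,
  ⟨false,1,⟨1,[(22,1),(1,0),(0,0)]⟩,⟨0,[(20,0)]⟩⟩,⟨true,0,⟨0,[(2,0)]⟩,⟨1,[(3,0),(2,0),(0,0),(15,
  1)]⟩⟩,⟨true,0,⟨0,[(21,0)]⟩,⟨1,[(12,0),(0,0)]⟩⟩,⟨true,0,⟨0,[(8,0)]⟩,⟨1,[(3,0),(2,0),(0,0)]⟩⟩,[.o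
  ⟨false,0,⟨0,[(8,0)]⟩,⟨7,[(3,3),(0,0),(0,0),(11,1),(7,3)]⟩⟩,.a ⟨true,0,⟨0,[(0,0)]⟩,⟨1,[(3,0),(2,0),
  (0,0)]⟩⟩ ⟨false,1,⟨3,[(4,0),(0,0),(18,1)]⟩,⟨0,[]⟩⟩ ⟨true,0,⟨0,[(2,0),(17,0)]⟩,⟨1,[(3,0),(2,0),(0,
  0)]⟩⟩,.o ⟨false,1,⟨3,[(4,0),(0,0),(18,1)]⟩,⟨0,[(1,0)]⟩⟩,.e ⟨true,0,⟨0,[(21,0)]⟩,⟨1,[(12,0),(0,
  0)]⟩⟩ ⟨true,0,⟨0,[(8,0)]⟩,⟨1,[(3,0),(2,0),(0,0)]⟩⟩]⟩) (.Q [0,0,0,1,0,0,-1,-1,0,0,1] (.p true [0,0,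
  1] [] (⟨0,[(16,0)]⟩,⟨0,[(15,0)]⟩) .k 0 (⟨0,[]⟩,⟨0,[]⟩) .k .k) (.R ⟨2,true,false,true,[0,1],[0,0,
  1],[0,1],(⟨0,[]⟩,⟨0,[]⟩),(⟨0,[(17,0)]⟩,⟨0,[(16,0)]⟩),⟨0,[]⟩,.k,.k,.k,.k,.k,.k,⟨true,0,⟨0,[(15,
  0)]⟩,⟨1,[(4,0),(5,0),(3,0)]⟩⟩,⟨false,0,⟨0,[(1,0),(13,0)]⟩,⟨0,[(14,0),(10,0)]⟩⟩,⟨false,1,⟨1,[(23,
  1),(1,0),(0,0)]⟩,⟨0,[(21,0)]⟩⟩,⟨true,0,⟨0,[(1,0),(21,0)]⟩,⟨0,[(0,0)]⟩⟩,⟨true,0,⟨0,[(22,0)]⟩,⟨1,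
  [(13,0),(0,0)]⟩⟩,⟨false,0,⟨0,[(1,0)]⟩,⟨0,[(12,0),(13,0)]⟩⟩,[]⟩) (.Q [0,0,0,0,0,1,0,0,0,0,-1] (.ed
  true [1,-1,1] .k) (.Q [0,0,0,1,0,0,-1,-1,0,1,1] (.p true [1,-1,1] [] (⟨0,[(18,0),(1,0)]⟩,⟨0,[(0,
  0)]⟩) .k 0 (⟨0,[]⟩,⟨0,[]⟩) .k .k) (.R ⟨2,false,false,false,[0,1],[0,1,-1],[1,1,1],(⟨0,[]⟩,⟨0,[]⟩),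
  (⟨0,[(1,0)]⟩,⟨0,[(19,0),(1,0)]⟩),⟨0,[]⟩,.k,.k,.k,.k,.k,.k,⟨true,0,⟨0,[(2,0),(13,0),(7,0)]⟩,⟨0,
  [(17,0),(5,0)]⟩⟩,⟨false,1,⟨0,[(16,0),(10,0)]⟩,⟨0,[(3,0),(13,0)]⟩⟩,⟨true,0,⟨0,[(25,0)]⟩,⟨0,[(26,
  0)]⟩⟩,⟨false,1,⟨7,[(0,3),(4,3),(1,0),(0,0),(19,5)]⟩,⟨0,[(3,0)]⟩⟩,⟨false,0,⟨0,[]⟩,⟨3,[(7,0),(0,0),
  (19,1)]⟩⟩,⟨false,1,⟨1,[(0,1),(19,0),(7,0)]⟩,⟨0,[(2,0)]⟩⟩,[.a ⟨true,0,⟨0,[(0,0)]⟩,⟨0,[(2,0)]⟩⟩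
  ⟨false,0,⟨0,[(30,0)]⟩,⟨1,[(27,0),(0,0)]⟩⟩ ⟨true,0,⟨3,[(0,1),(10,1),(3,0),(0,0),(6,1)]⟩,⟨0,[(2,
  0)]⟩⟩,.o ⟨false,1,⟨1,[(0,1),(19,0),(7,0)]⟩,⟨0,[(3,1),(1,0)]⟩⟩,.o ⟨false,1,⟨3,[(7,0),(0,0),(18,
  1)]⟩,⟨0,[(4,0)]⟩⟩,.e ⟨false,0,⟨0,[]⟩,⟨3,[(7,0),(0,0),(19,1)]⟩⟩ ⟨false,1,⟨1,[(0,1),(19,0),(7,0)]⟩,
  ⟨0,[(2,0)]⟩⟩]⟩) (.Q [0,0,0,0,0,1,0,0,0,-1,1] (.ed false [0,1,1] .k) (.I [0,0,-2,-2,1,0,0,-1] (.K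
  ⟨2,[-1,1,1],0,0,(⟨0,[(1,0)]⟩,⟨0,[(20,0),(2,0)]⟩),.k,.k,(.r 0 ⟨0,[(15,0),(2,0),(6,0),(2,0)]⟩ ⟨0,
  [(0,0)]⟩),.k,.k,[⟨0,[(11,0),(0,0),(15,0)]⟩,⟨0,[(7,0)]⟩,⟨1,[(14,1),(2,0),(0,0)]⟩,⟨1,[(8,0),(2,0),
  (0,0),(6,1)]⟩]⟩) (.K ⟨2,[-1,1,1],0,0,(⟨0,[(1,0)]⟩,⟨0,[(20,0),(2,0)]⟩),.k,.k,(.x (-1) ⟨1,[(1,0),(6,
  0),(10,1),(1,0),(2,2),(4,1)]⟩ ⟨0,[(2,0),(10,0),(0,0),(5,0),(2,1),(1,0)]⟩),.k,.k,[⟨0,[(11,0),(0,0),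
  (15,0)]⟩,⟨0,[(7,0)]⟩,⟨0,[(6,0),(11,0)]⟩,⟨1,[(8,0),(2,0),(0,0),(6,1)]⟩]⟩)) (.I [0,0,-2,-2,1,0,0,
  -1] (.K ⟨2,[0,1,1],0,0,(⟨0,[(21,0),(2,0)]⟩,⟨0,[(1,0)]⟩),.k,.k,(.r 0 ⟨0,[(15,0),(2,0),(6,0),(2,
  0)]⟩ ⟨0,[(0,0)]⟩),.k,.k,[⟨0,[(28,0)]⟩,⟨0,[(7,0),(3,0),(0,0)]⟩,⟨1,[(17,0),(0,2)]⟩,⟨0,[(5,0),(13,
  0)]⟩]⟩) (.K ⟨2,[0,1,1],0,0,(⟨0,[(21,0),(2,0)]⟩,⟨0,[(1,0)]⟩),.k,.k,(.x (-1) ⟨0,[(5,0),(13,0),(1,0),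
  (2,1),(4,0)]⟩ ⟨0,[(1,0),(4,0),(7,0),(8,0)]⟩),.k,.k,[⟨0,[(28,0)]⟩,⟨0,[(7,0),(3,0),(0,0)]⟩,⟨1,[(17,
  0),(0,2)]⟩,⟨0,[(5,0),(13,0)]⟩]⟩)))) (.Q [0,0,0,0,0,1,0,0,0,-1,1] (.ed false [0,1,1] .k) (.I [0,0,
  -2,-2,1,0,0,-1] (.K ⟨2,[-1,1,1],0,0,(⟨0,[(1,0)]⟩,⟨0,[(19,0),(2,0)]⟩),.k,.k,(.r 0 ⟨0,[(14,0),(2,0),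
  (6,0),(2,0)]⟩ ⟨0,[(0,0)]⟩),.k,.k,[⟨0,[(10,0),(0,0),(15,0)]⟩,⟨0,[(6,0)]⟩,⟨1,[(13,1),(2,0),(0,0)]⟩,
  ⟨1,[(7,0),(2,0),(0,0),(6,1)]⟩]⟩) (.Q [0,-1,0,1,0,0,1,1,0,2,-1] (.p false [-1,1,1] [1] (⟨0,[(1,
  0)]⟩,⟨0,[(19,0),(2,0)]⟩) .k 1 (⟨0,[]⟩,⟨0,[]⟩) .k .k) (.R ⟨0,false,false,true,[1,0,-1],[2,-1,-1],
  [1,1,0,0,0,0,0,-1],(⟨0,[(20,0)]⟩,⟨0,[(21,0)]⟩),(⟨0,[(20,0),(2,0)]⟩,⟨0,[(2,0)]⟩),⟨0,[(2,0)]⟩,.k,.k,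
  .k,.k,.k,.k,⟨false,0,⟨0,[(28,0)]⟩,⟨1,[(27,1),(1,0),(0,0)]⟩⟩,⟨true,0,⟨0,[(6,0)]⟩,⟨0,[(0,0),(6,
  0)]⟩⟩,⟨false,0,⟨0,[]⟩,⟨3,[(9,0),(0,0),(19,1)]⟩⟩,⟨true,0,⟨0,[(5,0),(1,0)]⟩,⟨1,[(0,0),(15,0),(11,
  0)]⟩⟩,⟨false,0,⟨0,[]⟩,⟨0,[]⟩⟩,⟨false,0,⟨0,[]⟩,⟨0,[]⟩⟩,[.a ⟨true,0,⟨0,[(7,0)]⟩,⟨0,[(0,0)]⟩⟩ ⟨false,
  0,⟨0,[(19,0),(6,0)]⟩,⟨1,[(8,0),(5,0),(3,0),(10,0),(0,0)]⟩⟩ ⟨true,0,⟨0,[(5,0),(1,0),(11,0)]⟩,⟨0,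
  [(0,0),(13,0)]⟩⟩,.o ⟨false,1,⟨1,[(7,1),(14,0),(7,0)]⟩,⟨1,[(0,0),(14,0),(12,0)]⟩⟩,.o ⟨false,1,⟨1,
  [(18,1),(3,0),(6,0)]⟩,⟨0,[(5,0),(13,0)]⟩⟩,.o ⟨false,0,⟨0,[(14,0)]⟩,⟨0,[(17,0),(11,0)]⟩⟩]⟩) (.K ⟨2,
  [-1,1,1],0,0,(⟨0,[(2,0)]⟩,⟨0,[(20,0),(2,0)]⟩),.k,.k,(.x (-1) ⟨1,[(2,0),(5,0),(10,1),(1,0),(2,2),
  (4,1)]⟩ ⟨5,[(0,5),(0,3),(2,1),(1,1),(7,1),(5,5),(1,0),(0,11),(6,2)]⟩),.k,.k,[⟨0,[(11,0),(0,0),(15,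
  0)]⟩,⟨0,[(7,0)]⟩,⟨0,[(6,0),(11,0)]⟩,⟨1,[(8,0),(2,0),(0,0),(6,1)]⟩]⟩))) (.I [0,0,-2,-2,1,0,0,-1]
  (.K ⟨2,[0,1,1],0,0,(⟨0,[(20,0),(2,0)]⟩,⟨0,[(1,0)]⟩),.k,.k,(.r 0 ⟨0,[(14,0),(2,0),(6,0),(2,0)]⟩ ⟨0,
  [(0,0)]⟩),.k,.k,[⟨0,[(27,0)]⟩,⟨0,[(6,0),(3,0),(0,0)]⟩,⟨1,[(16,0),(0,2)]⟩,⟨0,[(4,0),(13,0)]⟩]⟩)
  (.K ⟨2,[0,1,1],0,0,(⟨0,[(20,0),(2,0)]⟩,⟨0,[(1,0)]⟩),.k,.k,(.x (-1) ⟨0,[(4,0),(13,0),(1,0),(2,1),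
  (4,0)]⟩ ⟨1,[(1,2),(0,0),(2,1),(7,0),(3,0)]⟩),.k,.k,[⟨0,[(27,0)]⟩,⟨0,[(6,0),(3,0),(0,0)]⟩,⟨1,[(16,
  0),(0,2)]⟩,⟨0,[(4,0),(13,0)]⟩]⟩)))))) (.Q [0,0,0,0,0,-1,0,0,0,1,-1] (.ed true [0,1,1] .k) (.I [0,
  0,-2,-2,1,0,0,-1] (.K ⟨0,[1,-1,-1],0,0,(⟨0,[(1,0)]⟩,⟨0,[(17,0),(2,0)]⟩),.k,(.r (-1) ⟨0,[(0,0)]⟩
  ⟨0,[(11,0),(2,0),(6,0),(2,0)]⟩),.k,.k,.k,[⟨0,[(2,0),(10,0)]⟩,⟨0,[(2,0),(7,0)]⟩,⟨0,[(4,0),(7,0),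
  (11,0)]⟩,⟨0,[(3,0)]⟩]⟩) (.Q [0,0,0,0,0,-1,0,0,0,0,1] (.ed false [1,-1,1] .k) (.K ⟨0,[0,-1,1],0,0,
  (⟨0,[(0,0)]⟩,⟨0,[(17,0),(3,0)]⟩),.k,(.r (-2) ⟨0,[(3,0),(0,0),(0,0),(5,0),(12,0),(1,0),(0,0)]⟩ ⟨0,
  [(1,0),(14,1)]⟩),.k,.k,.k,[⟨0,[(3,0),(7,0)]⟩,⟨0,[(3,0),(10,0)]⟩,⟨0,[(13,0),(11,0)]⟩,⟨0,[(4,0),(0,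
  0)]⟩]⟩) (.K ⟨1,[0,1,-1],0,0,(⟨0,[(0,0)]⟩,⟨0,[(18,0),(1,0)]⟩),.k,.k,(.r 1 ⟨0,[(1,0),(14,1)]⟩ ⟨0,
  [(3,0),(0,0),(0,0),(5,0),(12,0),(1,0),(0,0)]⟩),.k,.k,[⟨1,[(14,2),(0,0)]⟩,⟨0,[(3,0),(7,0)]⟩,⟨0,[(4,
  0),(0,0)]⟩,⟨0,[(3,1),(0,0),(17,1)]⟩]⟩))) (.I [0,0,-2,-2,1,0,0,-1] (.K ⟨1,[-1,1,1],0,0,(⟨0,[(1,
  0)]⟩,⟨0,[(16,0),(2,0)]⟩),.k,.k,(.r 0 ⟨0,[(11,0),(2,0),(6,0),(2,0)]⟩ ⟨0,[(0,0)]⟩),.k,.k,[⟨1,[(10,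
  1),(2,0),(0,0)]⟩,⟨0,[(2,0),(10,0)]⟩,⟨0,[(3,0)]⟩,⟨1,[(2,1),(1,0),(2,0),(0,0),(12,1)]⟩]⟩) (.Q [0,0,
  0,0,0,1,0,0,0,0,-1] (.ed true [1,-1,1] .k) (.K ⟨1,[0,1,-1],0,0,(⟨0,[(0,0)]⟩,⟨0,[(18,0),(1,0)]⟩),
  .k,.k,(.r 1 ⟨0,[(1,0),(14,1)]⟩ ⟨0,[(3,0),(0,0),(0,0),(5,0),(12,0),(1,0),(0,0)]⟩),.k,.k,[⟨1,[(14,
  2),(0,0)]⟩,⟨0,[(3,0),(7,0)]⟩,⟨0,[(4,0),(0,0)]⟩,⟨0,[(3,1),(0,0),(17,1)]⟩]⟩) (.K ⟨0,[0,-1,1],0,0,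
  (⟨0,[(0,0)]⟩,⟨0,[(17,0),(3,0)]⟩),.k,(.r (-2) ⟨0,[(3,0),(0,0),(0,0),(5,0),(12,0),(1,0),(0,0)]⟩ ⟨0,
  [(1,0),(14,1)]⟩),.k,.k,.k,[⟨0,[(3,0),(7,0)]⟩,⟨0,[(3,0),(10,0)]⟩,⟨0,[(13,0),(11,0)]⟩,⟨0,[(4,0),(0,
  0)]⟩]⟩))))) (.R ⟨2,true,false,true,[0,1],[1,0,-1],[0,1,1,1],(⟨0,[]⟩,⟨0,[]⟩),(⟨0,[(13,0)]⟩,⟨0,[(14,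
  0)]⟩),⟨0,[]⟩,.k,.k,.k,.k,.k,.k,⟨false,0,⟨0,[(0,0),(6,0),(11,0)]⟩,⟨1,[(12,1),(7,1),(1,0),(0,0)]⟩⟩,
  ⟨true,0,⟨0,[(7,0)]⟩,⟨1,[(1,0),(2,0),(0,0),(6,1)]⟩⟩,⟨true,0,⟨0,[(25,0)]⟩,⟨0,[]⟩⟩,⟨false,1,⟨0,[(6,
  0),(13,0),(2,0)]⟩,⟨0,[(0,0)]⟩⟩,⟨false,0,⟨0,[(21,0)]⟩,⟨0,[(20,0),(2,0)]⟩⟩,⟨true,0,⟨0,[(6,0)]⟩,⟨1,
  [(1,0),(2,0),(0,0)]⟩⟩,[]⟩))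

theorem ok0 : chk (cU (-1) true 3) t0 base = true := by decide +kernel

theorem ok : chkB (cU (-1) true 3) (fax (fcU (-1)) true 2 (-1) 3 false (tU true)) t0 base = true :=
  chkB_of (by decide +kernel) ok0

end Helper11.CT.T1_2_m1_m1_u
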