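import Pool.Agent.Helper11.CT.Cfg
import Pool.Agent.Helper11.CT.Cut

set_option autoImplicit false
set_option linter.all false

namespace Helper11.CT.T1_2_m1_m1_v2

open Helper11.CT

noncomputable def base : List Con :=
  [(false,[0,0,0,0,0,2,2,0,-2,2]),
  (false,[0,0,0,0,0,0,0,0,0,1]),
  (false,[0,1,0,0,0,-1,-1,0,1,-2]),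
  (false,[0,0,1,0,0,-1,0,0,1,-2]),
  (false,[0,1,0,0,0,1,1,0,-1]),
  (false,[0,1,0,0,0,-1,-1,0,1]),
  (false,[0,0,1,0,0,1,0,0,-1]),
  (false,[0,0,1,0,0,-1,0,0,1]),
  (true,[0,0,0,0,0,0,-1]),
  (false,[0,0,0,0,0,0,0,0,-1,2]),
  (false,[0,0,0,0,0,0,0,0,1]),
  (false,[0,0,0,0,0,0,0,2,0,-4]),
  (false,[0,0,0,0,-1,0,0,0,0,2]),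
  (true,[0,0,0,0,1]),
  (true,[1,-1,1,1]),
  (true,[0,1,-1]),
  (true,[0,1,0,-1]),
  (true,[0,0,0,1]),
  (true,[0,0,-2,0,0,0,0,2]),
  (true,[0,-2,0,0,0,0,0,2]),
  (true,[-1,0,1]),
  (true,[-1,1])]

noncomputable def t0 : Tre :=
  (.Q [0,1,0,-1,0,-1,-1,0,1,-2] (.p true [0,0,1] [1] (⟨0,[(10,0)]⟩,⟨0,[(9,0)]⟩) .k 1 (⟨0,[]⟩,⟨0,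
  []⟩) .k .k) (.Q [0,0,1,0,0,0,0,0,0,-2] (.pp true [-1,1]) (.Q [0,0,0,0,0,-1,-1,0,1] (.p true [0,0,
  1] [] (⟨0,[(12,0)]⟩,⟨0,[(11,0)]⟩) .k 0 (⟨0,[]⟩,⟨0,[]⟩) .k .k) (.R ⟨2,false,false,true,[0,1],[1,0,
  -1],[0,1],(⟨0,[]⟩,⟨0,[]⟩),(⟨0,[(12,0)]⟩,⟨0,[(13,0)]⟩),⟨0,[]⟩,.k,.k,.k,.k,.k,.k,⟨false,1,⟨1,[(3,0),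
  (2,0),(3,0),(10,1)]⟩,⟨0,[(11,0)]⟩⟩,⟨true,0,⟨0,[(6,0)]⟩,⟨1,[(3,0),(0,1),(6,1)]⟩⟩,⟨false,1,⟨1,[(19,
  1),(1,0),(0,0)]⟩,⟨0,[(17,0)]⟩⟩,⟨true,0,⟨0,[(2,0)]⟩,⟨1,[(3,0),(0,1),(15,1)]⟩⟩,⟨true,0,⟨0,[(18,0)]⟩,
  ⟨1,[(9,0),(0,0)]⟩⟩,⟨true,0,⟨0,[(5,0)]⟩,⟨1,[(3,0),(0,1)]⟩⟩,[.o ⟨false,0,⟨0,[(5,0)]⟩,⟨0,[(7,0),(14,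
  0)]⟩⟩,.a ⟨true,0,⟨0,[(0,0)]⟩,⟨1,[(3,0),(0,1)]⟩⟩ ⟨false,1,⟨1,[(21,0),(0,0),(1,1)]⟩,⟨0,[]⟩⟩ ⟨true,0,
  ⟨0,[(2,0),(14,0)]⟩,⟨1,[(3,0),(0,1)]⟩⟩,.o ⟨false,1,⟨1,[(21,0),(0,0),(1,1)]⟩,⟨0,[(1,0)]⟩⟩,.e ⟨true,
  0,⟨0,[(18,0)]⟩,⟨1,[(9,0),(0,0)]⟩⟩ ⟨true,0,⟨0,[(5,0)]⟩,⟨1,[(3,0),(0,1)]⟩⟩]⟩) (.Q [0,0,0,1,0,-1,-1,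
  0,1] (.p true [0,0,1] [] (⟨0,[(13,0)]⟩,⟨0,[(12,0)]⟩) .k 0 (⟨0,[]⟩,⟨0,[]⟩) .k .k) (.R ⟨2,true,
  false,true,[0,1],[0,0,1],[0,1],(⟨0,[]⟩,⟨0,[]⟩),(⟨0,[(14,0)]⟩,⟨0,[(13,0)]⟩),⟨0,[]⟩,.k,.k,.k,.k,.k,
  .k,⟨true,0,⟨0,[(12,0)]⟩,⟨1,[(4,0),(2,0),(3,0)]⟩⟩,⟨false,0,⟨0,[(1,0),(10,0)]⟩,⟨0,[(11,0),(10,0)]⟩⟩,
  ⟨false,1,⟨1,[(20,1),(1,0),(0,0)]⟩,⟨0,[(18,0)]⟩⟩,⟨true,0,⟨0,[(1,0),(18,0)]⟩,⟨0,[(0,0)]⟩⟩,⟨true,0,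
  ⟨0,[(19,0)]⟩,⟨1,[(10,0),(0,0)]⟩⟩,⟨false,0,⟨0,[(1,0)]⟩,⟨0,[(9,0),(13,0)]⟩⟩,[]⟩) (.Q [0,1,0,0,0,0,0,
  -1,0,1] (.p true [0,0,0,1] [] (⟨0,[(5,0)]⟩,⟨0,[(5,0)]⟩) .k 0 (⟨0,[]⟩,⟨0,[]⟩) .k .k) (.K ⟨1,[0,0,0,
  1],0,0,(⟨0,[(6,0)]⟩,⟨0,[(6,0)]⟩),.k,(.x 0 ⟨0,[(3,0),(13,0)]⟩ ⟨1,[(18,1),(4,0),(0,0),(1,1)]⟩),(.x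
  (-1) ⟨1,[(18,1),(4,0),(0,0),(1,1)]⟩ ⟨0,[(3,0),(13,0)]⟩),.k,.k,[⟨1,[(6,1),(4,0),(0,0)]⟩,⟨1,[(8,0),
  (2,0)]⟩,⟨0,[(0,0)]⟩,⟨1,[(6,1),(17,0)]⟩]⟩) (.Q [0,0,0,0,2,0,0,0,0,-2] (.pp true [-1,1]) (.R ⟨0,
  false,false,true,[0,0,0,1],[1,-1],[1,0,0,0,0,0,0,1],(⟨0,[(7,0)]⟩,⟨0,[(7,0)]⟩),(⟨0,[(18,0)]⟩,⟨0,
  [(19,0)]⟩),⟨1,[(0,0)]⟩,.k,.k,(.x 0 ⟨0,[(4,0),(13,0)]⟩ ⟨1,[(19,1),(4,0),(0,0),(1,1)]⟩),(.x (-1) ⟨1,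
  [(19,1),(4,0),(0,0),(1,1)]⟩ ⟨0,[(4,0),(13,0)]⟩),.k,.k,⟨false,0,⟨1,[(23,1),(1,0)]⟩,⟨1,[(22,1),(1,
  0)]⟩⟩,⟨true,0,⟨1,[(9,0),(2,0)]⟩,⟨0,[(7,0)]⟩⟩,⟨true,0,⟨0,[]⟩,⟨0,[(27,0)]⟩⟩,⟨false,1,⟨7,[(2,1),(2,
  1),(11,0),(4,3),(2,2)]⟩,⟨1,[(7,1),(15,1),(1,0)]⟩⟩,⟨false,0,⟨0,[]⟩,⟨0,[]⟩⟩,⟨false,0,⟨0,[]⟩,⟨0,[]⟩⟩,
  [.o ⟨false,0,⟨0,[(2,0),(5,0)]⟩,⟨0,[(23,0),(1,0),(1,0)]⟩⟩,.o ⟨false,1,⟨1,[(17,0),(4,1),(2,0)]⟩,⟨0,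
  [(23,0)]⟩⟩,.a ⟨true,0,⟨0,[(7,0)]⟩,⟨0,[(7,0)]⟩⟩ ⟨false,0,⟨1,[(25,0)]⟩,⟨1,[(25,0),(1,1)]⟩⟩ ⟨true,0,
  ⟨3,[(2,0),(2,1),(4,0),(11,0)]⟩,⟨0,[(7,0),(15,0)]⟩⟩,.o ⟨false,0,⟨1,[(9,0),(2,0)]⟩,⟨3,[(17,0),(6,1),
  (0,0),(1,1)]⟩⟩]⟩) (.R ⟨1,false,false,true,[0,0,0,1],[1,-1],[0,0,0,0,0,0,0,1],(⟨0,[(7,0)]⟩,⟨0,[(7,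
  0)]⟩),(⟨0,[(18,0)]⟩,⟨0,[(19,0)]⟩),⟨1,[(0,0)]⟩,.k,.k,(.x 0 ⟨1,[(0,0),(8,0),(2,0)]⟩ ⟨1,[(19,1),(4,
  0),(0,0),(1,1)]⟩),(.x (-1) ⟨1,[(19,1),(4,0),(0,0),(1,1)]⟩ ⟨1,[(0,0),(8,0),(2,0)]⟩),.k,.k,⟨false,0,
  ⟨1,[(23,1),(1,0)]⟩,⟨1,[(22,1),(1,0)]⟩⟩,⟨true,0,⟨1,[(9,0),(2,0)]⟩,⟨0,[(7,0)]⟩⟩,⟨false,1,⟨0,[(25,0),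
  (1,0)]⟩,⟨0,[]⟩⟩,⟨false,1,⟨7,[(2,1),(2,1),(11,0),(4,3),(2,2)]⟩,⟨1,[(7,1),(15,1),(1,0)]⟩⟩,⟨true,0,
  ⟨0,[(23,0)]⟩,⟨0,[(22,0)]⟩⟩,⟨false,1,⟨3,[(17,0),(7,0),(1,1)]⟩,⟨1,[(7,1),(17,0)]⟩⟩,[.o ⟨false,0,⟨0,
  [(2,0),(5,0)]⟩,⟨0,[(23,0),(1,0),(1,0)]⟩⟩,.o ⟨false,1,⟨1,[(17,0),(4,1),(2,0)]⟩,⟨0,[(23,0)]⟩⟩,.a
  ⟨true,0,⟨0,[(7,0)]⟩,⟨0,[(7,0)]⟩⟩ ⟨false,0,⟨1,[(25,0)]⟩,⟨1,[(25,0),(1,1)]⟩⟩ ⟨true,0,⟨3,[(2,0),(2,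
  1),(4,0),(11,0)]⟩,⟨0,[(7,0),(15,0)]⟩⟩,.o ⟨false,0,⟨1,[(9,0),(2,0)]⟩,⟨3,[(17,0),(6,1),(0,0),(1,
  1)]⟩⟩]⟩))))) (.I [1,0,-2,-2,0,0,0,2] (.Q [0,0,0,0,-1,0,0,0,-1,2] (.ed true [0,1,1] .k) (.K ⟨0,[1,
  -1,-1],0,0,(⟨0,[(0,0)]⟩,⟨0,[(14,0),(2,0)]⟩),.k,(.r (-1) ⟨0,[(1,0),(10,0)]⟩ ⟨0,[(8,0),(2,0),(6,0),
  (2,0)]⟩),.k,.k,.k,[⟨0,[(2,0),(7,0)]⟩,⟨0,[(2,0),(4,0)]⟩,⟨0,[(4,0),(4,0),(11,0)]⟩,⟨0,[(3,0)]⟩]⟩)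
  (.K ⟨1,[-1,1,1],0,0,(⟨0,[(0,0)]⟩,⟨0,[(13,0),(2,0)]⟩),.k,.k,(.r 0 ⟨0,[(8,0),(2,0),(6,0),(2,0)]⟩ ⟨0,
  [(1,0),(10,0)]⟩),.k,.k,[⟨1,[(7,1),(2,0),(0,0)]⟩,⟨0,[(2,0),(7,0)]⟩,⟨0,[(3,0)]⟩,⟨1,[(2,1),(1,0),(0,
  1),(12,1)]⟩]⟩)) (.K ⟨1,[0,0,0,1],0,0,(⟨0,[(4,0)]⟩,⟨0,[(4,0)]⟩),.k,(.r (-1) ⟨1,[(19,1),(1,0),(0,1),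
  (1,1)]⟩ ⟨1,[(0,0)]⟩),(.r 1 ⟨1,[(0,0)]⟩ ⟨1,[(19,1),(1,0),(0,1),(1,1)]⟩),.k,.k,[⟨1,[(4,1),(4,0),(0,
  0)]⟩,⟨1,[(6,0),(2,0)]⟩,⟨1,[(0,0),(0,1),(0,1),(0,0)]⟩,⟨1,[(4,1),(17,0)]⟩]⟩))) (.R ⟨2,true,false,
  true,[0,1],[1,0,-1],[0,1,1,1],(⟨0,[]⟩,⟨0,[]⟩),(⟨0,[(10,0)]⟩,⟨0,[(11,0)]⟩),⟨0,[]⟩,.k,.k,.k,.k,.k,
  .k,⟨false,0,⟨0,[(0,0),(3,0),(11,0)]⟩,⟨1,[(9,1),(7,1),(1,0),(0,0)]⟩⟩,⟨true,0,⟨0,[(4,0)]⟩,⟨1,[(1,0),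
  (0,1),(6,1)]⟩⟩,⟨true,0,⟨0,[(22,0)]⟩,⟨0,[]⟩⟩,⟨false,1,⟨0,[(3,0),(13,0),(2,0)]⟩,⟨0,[(0,0)]⟩⟩,⟨false,
  0,⟨0,[(18,0)]⟩,⟨0,[(17,0),(2,0)]⟩⟩,⟨true,0,⟨0,[(3,0)]⟩,⟨1,[(1,0),(0,1)]⟩⟩,[]⟩))

theorem ok0 : chk (cW (-1) 3) t0 base = true := by decide +kernel

theorem ok : chkB (cW (-1) 3) (fax (fcW (-1)) true 2 (-1) 3 false tW) t0 base = true :=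
  chkB_of (by decide +kernel) ok0

end Helper11.CT.T1_2_m1_m1_v2
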