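import Pool.Agent.Helper11.CT.T.T1_34_1_m1_u_p0
import Pool.Agent.Helper11.CT.T.T1_34_1_m1_u_p1
import Pool.Agent.Helper11.CT.T.T1_34_1_m1_u_p2
import Pool.Agent.Helper11.CT.T.T1_34_1_m1_u_p3

set_option autoImplicit false
set_option linter.all false

namespace Helper11.CT.T1_34_1_m1_u

open Helper11.CT

noncomputable def t4 : Tre :=
  .Q [0,0,0,-1,0,0,2,2,0,0,2] (.p true [0,0,1] [0,1,-1] (⟨0,[(18,0)]⟩,⟨0,[(17,0)]⟩) .k 2 (⟨0,[(3,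
  0)]⟩,⟨0,[(18,0),(1,0)]⟩) .k (.r (-1) ⟨0,[(2,1),(23,0)]⟩ ⟨0,[(16,1)]⟩)) t2 t3

theorem ok4 : chk (cU 1 true 10) t4 r3 = true :=
  chk_Q (e' := [0,0,0,1,0,0,-2,-2,0,0,-2]) (by decide +kernel) (by decide +kernel) ok2 ok3

noncomputable def t5 : Tre :=
  .Q [0,-1,0,-1,0,0,0,0,0,1] (.pp false [-1,1]) t1 t4

theorem ok5 : chk (cU 1 true 10) t5 l2 = true :=
  chk_Q (e' := [0,1,0,1,0,0,0,0,0,-1]) (by decide +kernel) (by decide +kernel) ok1 ok4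

noncomputable def t7 : Tre :=
  .Q [0,0,-1,0,1,0,0,1,0,-1] (.pp true [-1,1]) t5 t6

theorem ok7 : chk (cU 1 true 10) t7 r1 = true :=
  chk_Q (e' := [0,0,1,0,-1,0,0,-1,0,1]) (by decide +kernel) (by decide +kernel) ok5 ok6

noncomputable def t8 : Tre :=
  .I [1,-1,0,0,0,0,0,-1] t0 t7

theorem ok8 : chk (cU 1 true 10) t8 l0 = true :=
  chk_I (e' := [0,1,0,0,0,0,0,1]) (by decide +kernel) (by decide +kernel) ok0 ok7

noncomputable def t22 : Tre :=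
  .Q [0,0,0,-1,0,0,-2,-2,0,1,-2] (.p false [0,0,1] [1,0,-1] (⟨0,[(31,0)]⟩,⟨0,[(30,0)]⟩) .k 2 (⟨0,
  [(30,0)]⟩,⟨0,[(31,0)]⟩) .k (.r (-1) ⟨9,[(0,1),(0,7),(8,3),(2,1),(5,0),(0,0),(4,7),(6,1)]⟩ ⟨0,[(29,
  1)]⟩)) t20 t21

theorem ok22 : chk (cU 1 true 10) t22 l20 = true :=
  chk_Q (e' := [0,0,0,1,0,0,2,2,0,-1,2]) (by decide +kernel) (by decide +kernel) ok20 ok21

noncomputable def t24 : Tre :=
  .Q [0,0,1,0,0,0,-2,0,0,1,-2] (.p false [0,0,1] [1,0,-1] (⟨0,[(30,0)]⟩,⟨0,[(29,0)]⟩) .k 2 (⟨0,[(29,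
  0)]⟩,⟨0,[(30,0)]⟩) .k (.r (-1) ⟨33,[(0,31),(8,11),(2,7),(3,7),(1,2),(0,2),(4,23),(6,7)]⟩ ⟨0,[(28,
  1)]⟩)) t22 t23

theorem ok24 : chk (cU 1 true 10) t24 r19 = true :=
  chk_Q (e' := [0,0,-1,0,0,0,2,0,0,-1,2]) (by decide +kernel) (by decide +kernel) ok22 ok23

noncomputable def t25 : Tre :=
  .I [0,1,-1,-1,0,0,0,-1] t19 t24

theorem ok25 : chk (cU 1 true 10) t25 r18 = true :=
  chk_I (e' := [1,-1,1,1,0,0,0,1]) (by decide +kernel) (by decide +kernel) ok19 ok24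

noncomputable def t26 : Tre :=
  .Q [0,0,0,0,0,2,0,0,0,-1,1] (.p true [0,0,1] [1] (⟨0,[(28,0)]⟩,⟨0,[(27,0)]⟩) .k 1 (⟨0,[]⟩,⟨0,[]⟩)
  .k .k) t18 t25

theorem ok26 : chk (cU 1 true 10) t26 r17 = true :=
  chk_Q (e' := [0,0,0,0,0,-2,0,0,0,1,-1]) (by decide +kernel) (by decide +kernel) ok18 ok25

noncomputable def t27 : Tre :=
  .Q [0,-1,0,1,0,0,1,1,0,0,1] (.p true [0,0,1] [] (⟨0,[(27,0)]⟩,⟨0,[(26,0)]⟩) .k 0 (⟨0,[]⟩,⟨0,[]⟩)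
  .k .k) t17 t26

theorem ok27 : chk (cU 1 true 10) t27 r16 = true :=
  chk_Q (e' := [0,1,0,-1,0,0,-1,-1,0,0,-1]) (by decide +kernel) (by decide +kernel) ok17 ok26

noncomputable def t28 : Tre :=
  .I [0,1,0,0,0,0,0,1] t16 t27

theorem ok28 : chk (cU 1 true 10) t28 r15 = true :=
  chk_I (e' := [1,-1,0,0,0,0,0,-1]) (by decide +kernel) (by decide +kernel) ok16 ok27

noncomputable def t29 : Tre :=
  .Q [0,0,0,0,0,1,0,0,0,-1,1] (.ed false [0,1,1] .k) t15 t28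

theorem ok29 : chk (cU 1 true 10) t29 r14 = true :=
  chk_Q (e' := [0,0,0,0,0,-1,0,0,0,1,-1]) (by decide +kernel) (by decide +kernel) ok15 ok28

noncomputable def t30 : Tre :=
  .Q [0,0,0,0,0,0,-1,0,0,1,-1] (.p false [0,0,1] [1] (⟨0,[(24,0)]⟩,⟨0,[(23,0)]⟩) .k 1 (⟨0,[]⟩,⟨0,
  []⟩) .k .k) t14 t29

theorem ok30 : chk (cU 1 true 10) t30 r13 = true :=
  chk_Q (e' := [0,0,0,0,0,0,1,0,0,-1,1]) (by decide +kernel) (by decide +kernel) ok14 ok29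

noncomputable def t31 : Tre :=
  .I [0,0,-2,-2,1,0,0,1] t13 t30

theorem ok31 : chk (cU 1 true 10) t31 r12 = true :=
  chk_I (e' := [1,0,2,2,-1,0,0,-1]) (by decide +kernel) (by decide +kernel) ok13 ok30

noncomputable def t32 : Tre :=
  .I [0,0,-2,0,1,-2,-1] t12 t31

theorem ok32 : chk (cU 1 true 10) t32 r11 = true :=
  chk_I (e' := [1,0,2,0,-1,2,1]) (by decide +kernel) (by decide +kernel) ok12 ok31

noncomputable def t33 : Tre :=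
  .I [0,0,2,0,-1,2,1] t11 t32

theorem ok33 : chk (cU 1 true 10) t33 r10 = true :=
  chk_I (e' := [1,0,-2,0,1,-2,-1]) (by decide +kernel) (by decide +kernel) ok11 ok32

noncomputable def t34 : Tre :=
  .I [0,0,2,2,-1,0,0,-1] t10 t33

theorem ok34 : chk (cU 1 true 10) t34 l9 = true :=
  chk_I (e' := [1,0,-2,-2,1,0,0,1]) (by decide +kernel) (by decide +kernel) ok10 ok33

noncomputable def t36 : Tre :=
  .Q [0,0,0,-1,0,0,1,0,0,0,1] (.p true [0,0,1] [] (⟨0,[(19,0)]⟩,⟨0,[(18,0)]⟩) .k 0 (⟨0,[]⟩,⟨0,[]⟩)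
  .k .k) t34 t35

theorem ok36 : chk (cU 1 true 10) t36 l8 = true :=
  chk_Q (e' := [0,0,0,1,0,0,-1,0,0,0,-1]) (by decide +kernel) (by decide +kernel) ok34 ok35

noncomputable def t46 : Tre :=
  .Q [0,0,0,-2,0,0,-1,-1,0,1,-1] (.p false [0,0,1] [1] (⟨0,[(31,0)]⟩,⟨0,[(30,0)]⟩) .k 1 (⟨0,[]⟩,⟨0,
  []⟩) .k .k) t44 t45

theorem ok46 : chk (cU 1 true 10) t46 r33 = true :=
  chk_Q (e' := [0,0,0,2,0,0,1,1,0,-1,1]) (by decide +kernel) (by decide +kernel) ok44 ok45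

noncomputable def t47 : Tre :=
  .Q [0,0,0,-1,0,0,0,0,0,1] (.pp false [-1,1]) t43 t46

theorem ok47 : chk (cU 1 true 10) t47 l32 = true :=
  chk_Q (e' := [0,0,0,1,0,0,0,0,0,-1]) (by decide +kernel) (by decide +kernel) ok43 ok46

noncomputable def t51 : Tre :=
  .I [0,-1,0,0,0,0,0,0,1] t49 t50

theorem ok51 : chk (cU 1 true 10) t51 l36 = true :=
  chk_I (e' := [1,1,0,0,0,0,0,0,-1]) (by decide +kernel) (by decide +kernel) ok49 ok50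

noncomputable def t53 : Tre :=
  .Q [0,-1,1,0,0,0,0,0,1,-1,0,1] (.p true [0,0,0,1] [1] (⟨0,[(22,0)]⟩,⟨0,[(21,0)]⟩) .k 1 (⟨0,[]⟩,⟨0,
  []⟩) .k .k) t51 t52

theorem ok53 : chk (cU 1 true 10) t53 r35 = true :=
  chk_Q (e' := [0,1,-1,0,0,0,0,0,-1,1,0,-1]) (by decide +kernel) (by decide +kernel) ok51 ok52

noncomputable def t54 : Tre :=
  .I [0,0,-2,-2,1] t48 t53

theorem ok54 : chk (cU 1 true 10) t54 r32 = true :=
  chk_I (e' := [1,0,2,2,-1]) (by decide +kernel) (by decide +kernel) ok48 ok53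

noncomputable def t55 : Tre :=
  .I [0,1,1,1,-1,0,0,-1] t47 t54

theorem ok55 : chk (cU 1 true 10) t55 r31 = true :=
  chk_I (e' := [1,-1,-1,-1,1,0,0,1]) (by decide +kernel) (by decide +kernel) ok47 ok54

noncomputable def t56 : Tre :=
  .I [1,1,2,1,-1,0,0,1] t42 t55

theorem ok56 : chk (cU 1 true 10) t56 r30 = true :=
  chk_I (e' := [0,-1,-2,-1,1,0,0,-1]) (by decide +kernel) (by decide +kernel) ok42 ok55

noncomputable def t57 : Tre :=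
  .Q [0,0,0,0,0,2,0,0,0,-1,1] (.p true [0,0,1] [1] (⟨0,[(27,0)]⟩,⟨0,[(26,0)]⟩) .k 1 (⟨0,[]⟩,⟨0,[]⟩)
  .k .k) t41 t56

theorem ok57 : chk (cU 1 true 10) t57 r29 = true :=
  chk_Q (e' := [0,0,0,0,0,-2,0,0,0,1,-1]) (by decide +kernel) (by decide +kernel) ok41 ok56

noncomputable def t58 : Tre :=
  .I [0,1,0,0,0,0,0,1] t40 t57

theorem ok58 : chk (cU 1 true 10) t58 l28 = true :=
  chk_I (e' := [1,-1,0,0,0,0,0,-1]) (by decide +kernel) (by decide +kernel) ok40 ok57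

noncomputable def t60 : Tre :=
  .I [1,-1,1,1,0,0,0,1] t58 t59

theorem ok60 : chk (cU 1 true 10) t60 r27 = true :=
  chk_I (e' := [0,1,-1,-1,0,0,0,-1]) (by decide +kernel) (by decide +kernel) ok58 ok59

noncomputable def t61 : Tre :=
  .Q [0,-1,0,1,0,0,1,1,0,0,1] (.p true [0,0,1] [] (⟨0,[(24,0)]⟩,⟨0,[(23,0)]⟩) .k 0 (⟨0,[]⟩,⟨0,[]⟩)
  .k .k) t39 t60

theorem ok61 : chk (cU 1 true 10) t61 l26 = true :=
  chk_Q (e' := [0,1,0,-1,0,0,-1,-1,0,0,-1]) (by decide +kernel) (by decide +kernel) ok39 ok60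

noncomputable def t63 : Tre :=
  .Q [0,0,0,0,0,-1,0,0,0,1,-1] (.ed true [0,1,1] .k) t61 t62

theorem ok63 : chk (cU 1 true 10) t63 r25 = true :=
  chk_Q (e' := [0,0,0,0,0,1,0,0,0,-1,1]) (by decide +kernel) (by decide +kernel) ok61 ok62

noncomputable def t64 : Tre :=
  .Q [0,0,0,0,0,2,0,0,0,0,-1] (.p false [0,0,1] [] (⟨0,[(22,0)]⟩,⟨0,[(21,0)]⟩) .k 0 (⟨0,[]⟩,⟨0,[]⟩)
  .k .k) t38 t63

theorem ok64 : chk (cU 1 true 10) t64 l24 = true :=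
  chk_Q (e' := [0,0,0,0,0,-2,0,0,0,0,1]) (by decide +kernel) (by decide +kernel) ok38 ok63

noncomputable def t66 : Tre :=
  .Q [0,0,0,-1,0,0,-1,-1,0,1,-1] (.p false [0,0,1] [1] (⟨0,[(21,0)]⟩,⟨0,[(20,0)]⟩) .k 1 (⟨0,[]⟩,⟨0,
  []⟩) .k .k) t64 t65

theorem ok66 : chk (cU 1 true 10) t66 l23 = true :=
  chk_Q (e' := [0,0,0,1,0,0,1,1,0,-1,1]) (by decide +kernel) (by decide +kernel) ok64 ok65

noncomputable def t68 : Tre :=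
  .Q [0,0,0,0,0,0,-1,-1,0,1,-1] (.p false [0,0,1] [1] (⟨0,[(20,0)]⟩,⟨0,[(19,0)]⟩) .k 1 (⟨0,[]⟩,⟨0,
  []⟩) .k .k) t66 t67

theorem ok68 : chk (cU 1 true 10) t68 r22 = true :=
  chk_Q (e' := [0,0,0,0,0,0,1,1,0,-1,1]) (by decide +kernel) (by decide +kernel) ok66 ok67

noncomputable def t69 : Tre :=
  .Q [0,-1,0,1,0,0,-1,-1,0,1,-1] (.p false [0,0,1] [1] (⟨0,[(19,0)]⟩,⟨0,[(18,0)]⟩) .k 1 (⟨0,[]⟩,⟨0,
  []⟩) .k .k) t37 t68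

theorem ok69 : chk (cU 1 true 10) t69 r8 = true :=
  chk_Q (e' := [0,1,0,-1,0,0,1,1,0,-1,1]) (by decide +kernel) (by decide +kernel) ok37 ok68

noncomputable def t70 : Tre :=
  .Q [0,0,-2,0,1,0,-1,0,0,1,-1] (.p false [0,0,1] [1] (⟨0,[(18,0)]⟩,⟨0,[(17,0)]⟩) .k 1 (⟨0,[]⟩,⟨0,
  []⟩) .k .k) t36 t69

theorem ok70 : chk (cU 1 true 10) t70 r7 = true :=
  chk_Q (e' := [0,0,2,0,-1,0,1,0,0,-1,1]) (by decide +kernel) (by decide +kernel) ok36 ok69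

noncomputable def t71 : Tre :=
  .Q [0,0,1,0,-1,0,2,0,0,-1,2] (.p true [0,0,1] [1,0,-1] (⟨0,[(17,0)]⟩,⟨0,[(16,0)]⟩) .k 2 (⟨0,[(16,
  0)]⟩,⟨0,[(17,0)]⟩) .k (.r (-1) ⟨0,[(3,1),(5,1),(11,1),(1,1),(0,0)]⟩ ⟨0,[(15,1)]⟩)) t9 t70

theorem ok71 : chk (cU 1 true 10) t71 l6 = true :=
  chk_Q (e' := [0,0,-1,0,1,0,-2,0,0,1,-2]) (by decide +kernel) (by decide +kernel) ok9 ok70

noncomputable def t80 : Tre :=
  .Q [0,0,0,0,0,2,0,0,0,0,-1] (.p false [0,0,1] [] (⟨0,[(30,0)]⟩,⟨0,[(29,0)]⟩) .k 0 (⟨0,[]⟩,⟨0,[]⟩)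
  .k .k) t78 t79

theorem ok80 : chk (cU 1 true 10) t80 r50 = true :=
  chk_Q (e' := [0,0,0,0,0,-2,0,0,0,0,1]) (by decide +kernel) (by decide +kernel) ok78 ok79

noncomputable def t81 : Tre :=
  .I [0,0,-1,0,0,-1,2] t77 t80

theorem ok81 : chk (cU 1 true 10) t81 r49 = true :=
  chk_I (e' := [1,0,1,0,0,1,-2]) (by decide +kernel) (by decide +kernel) ok77 ok80

noncomputable def t82 : Tre :=
  .Q [0,0,0,0,0,2,0,0,0,-1,1] (.p true [0,0,1] [1] (⟨0,[(28,0)]⟩,⟨0,[(27,0)]⟩) .k 1 (⟨0,[]⟩,⟨0,[]⟩)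
  .k .k) t76 t81

theorem ok82 : chk (cU 1 true 10) t82 r48 = true :=
  chk_Q (e' := [0,0,0,0,0,-2,0,0,0,1,-1]) (by decide +kernel) (by decide +kernel) ok76 ok81

noncomputable def t83 : Tre :=
  .I [0,1,0,0,0,0,0,1] t75 t82

theorem ok83 : chk (cU 1 true 10) t83 l47 = true :=
  chk_I (e' := [1,-1,0,0,0,0,0,-1]) (by decide +kernel) (by decide +kernel) ok75 ok82

noncomputable def t85 : Tre :=
  .Q [0,0,0,-1,0,0,1,1,0,0,1] (.p true [0,0,1] [] (⟨0,[(26,0)]⟩,⟨0,[(25,0)]⟩) .k 0 (⟨0,[]⟩,⟨0,[]⟩)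
  .k .k) t83 t84

theorem ok85 : chk (cU 1 true 10) t85 l46 = true :=
  chk_Q (e' := [0,0,0,1,0,0,-1,-1,0,0,-1]) (by decide +kernel) (by decide +kernel) ok83 ok84

noncomputable def t87 : Tre :=
  .Q [0,0,0,0,0,0,1,1,0,0,1] (.p true [0,0,1] [] (⟨0,[(25,0)]⟩,⟨0,[(24,0)]⟩) .k 0 (⟨0,[]⟩,⟨0,[]⟩)
  .k .k) t85 t86

theorem ok87 : chk (cU 1 true 10) t87 l45 = true :=
  chk_Q (e' := [0,0,0,0,0,0,-1,-1,0,0,-1]) (by decide +kernel) (by decide +kernel) ok85 ok86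

noncomputable def t89 : Tre :=
  .Q [0,-1,-1,0,1,0,0,0,-1,1,0,-1] (.p false [0,0,0,1] [1] (⟨0,[(15,0)]⟩,⟨0,[(14,0)]⟩) .k 1 (⟨0,[]⟩,
  ⟨0,[]⟩) .k .k) t87 t88

theorem ok89 : chk (cU 1 true 10) t89 r44 = true :=
  chk_Q (e' := [0,1,1,0,-1,0,0,0,1,-1,0,1]) (by decide +kernel) (by decide +kernel) ok87 ok88

noncomputable def t90 : Tre :=
  .Q [0,1,-1,0,0,0,0,0,-1,1,0,-1] (.p false [0,0,0,1] [1] (⟨0,[(14,0)]⟩,⟨0,[(13,0)]⟩) .k 1 (⟨0,[]⟩,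
  ⟨0,[]⟩) .k .k) t74 t89

theorem ok90 : chk (cU 1 true 10) t90 r43 = true :=
  chk_Q (e' := [0,-1,1,0,0,0,0,0,1,-1,0,1]) (by decide +kernel) (by decide +kernel) ok74 ok89

noncomputable def t91 : Tre :=
  .Q [0,-1,0,1,0,0,1,1,0,0,1] (.p true [0,0,1] [] (⟨0,[(22,0)]⟩,⟨0,[(21,0)]⟩) .k 0 (⟨0,[]⟩,⟨0,[]⟩)
  .k .k) t73 t90

theorem ok91 : chk (cU 1 true 10) t91 l42 = true :=
  chk_Q (e' := [0,1,0,-1,0,0,-1,-1,0,0,-1]) (by decide +kernel) (by decide +kernel) ok73 ok90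

noncomputable def t93 : Tre :=
  .I [0,0,-2,-2,1,0,0,-1] t91 t92

theorem ok93 : chk (cU 1 true 10) t93 l41 = true :=
  chk_I (e' := [1,0,2,2,-1,0,0,1]) (by decide +kernel) (by decide +kernel) ok91 ok92

noncomputable def t95 : Tre :=
  .I [0,-1,-1,-2,1] t93 t94

theorem ok95 : chk (cU 1 true 10) t95 l40 = true :=
  chk_I (e' := [1,1,1,2,-1]) (by decide +kernel) (by decide +kernel) ok93 ok94

noncomputable def t100 : Tre :=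
  .Q [0,1,1,0,-1,0,0,0,1,-1,0,1] (.p true [0,0,0,1] [1] (⟨0,[(13,0)]⟩,⟨0,[(12,0)]⟩) .k 1 (⟨0,[]⟩,⟨0,
  []⟩) .k .k) t98 t99

theorem ok100 : chk (cU 1 true 10) t100 r53 = true :=
  chk_Q (e' := [0,-1,-1,0,1,0,0,0,-1,1,0,-1]) (by decide +kernel) (by decide +kernel) ok98 ok99

noncomputable def t101 : Tre :=
  .I [0,0,1,1,-1,0,0,-1,-1] t97 t100

theorem ok101 : chk (cU 1 true 10) t101 r52 = true :=
  chk_I (e' := [1,0,-1,-1,1,0,0,1,1]) (by decide +kernel) (by decide +kernel) ok97 ok100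

noncomputable def t102 : Tre :=
  .Q [0,0,0,-1,0,0,0,0,0,1] (.pp false [-1,1]) t96 t101

theorem ok102 : chk (cU 1 true 10) t102 r40 = true :=
  chk_Q (e' := [0,0,0,1,0,0,0,0,0,-1]) (by decide +kernel) (by decide +kernel) ok96 ok101

noncomputable def t103 : Tre :=
  .I [1,-1,1,2,0,0,0,1] t95 t102

theorem ok103 : chk (cU 1 true 10) t103 r39 = true :=
  chk_I (e' := [0,1,-1,-2,0,0,0,-1]) (by decide +kernel) (by decide +kernel) ok95 ok102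

noncomputable def t104 : Tre :=
  .Q [0,0,0,0,0,1,0,0,0,-1,1] (.ed false [0,1,1] .k) t72 t103

theorem ok104 : chk (cU 1 true 10) t104 l38 = true :=
  chk_Q (e' := [0,0,0,0,0,-1,0,0,0,1,-1]) (by decide +kernel) (by decide +kernel) ok72 ok103

noncomputable def t106 : Tre :=
  .Q [0,0,0,0,0,0,1,0,0,-1,1] (.p true [0,0,1] [1] (⟨0,[(17,0)]⟩,⟨0,[(16,0)]⟩) .k 1 (⟨0,[]⟩,⟨0,[]⟩)
  .k .k) t104 t105

theorem ok106 : chk (cU 1 true 10) t106 r6 = true :=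
  chk_Q (e' := [0,0,0,0,0,0,-1,0,0,1,-1]) (by decide +kernel) (by decide +kernel) ok104 ok105

noncomputable def t107 : Tre :=
  .Q [0,0,2,0,-1,0,1,0,0,0,1] (.p true [0,0,1] [] (⟨0,[(16,0)]⟩,⟨0,[(15,0)]⟩) .k 0 (⟨0,[]⟩,⟨0,[]⟩)
  .k .k) t71 t106

theorem ok107 : chk (cU 1 true 10) t107 l5 = true :=
  chk_Q (e' := [0,0,-2,0,1,0,-1,0,0,0,-1]) (by decide +kernel) (by decide +kernel) ok71 ok106

noncomputable def t109 : Tre :=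
  .Q [0,0,0,1,0,0,1,0,0,-1,1] (.p true [0,0,1] [1] (⟨0,[(15,0)]⟩,⟨0,[(14,0)]⟩) .k 1 (⟨0,[]⟩,⟨0,[]⟩)
  .k .k) t107 t108

theorem ok109 : chk (cU 1 true 10) t109 r0 = true :=
  chk_Q (e' := [0,0,0,-1,0,0,-1,0,0,1,-1]) (by decide +kernel) (by decide +kernel) ok107 ok108

noncomputable def t110 : Tre :=
  .Q [0,0,0,0,0,1,0,0,0,0,-1] (.ed true [1,-1,1] .k) t8 t109

theorem ok110 : chk (cU 1 true 10) t110 base = true :=
  chk_Q (e' := [0,0,0,0,0,-1,0,0,0,0,1]) (by decide +kernel) (by decide +kernel) ok8 ok109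

theorem ok : chkB (cU 1 true 10) (fax (fcU 1) true 34 1 10 false (tU true)) t110 base = true :=
  chkB_of (by decide +kernel) ok110

end Helper11.CT.T1_34_1_m1_u
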