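import Pool.Agent.Helper11.CT.T.T1_34_1_m1_v_p0

set_option autoImplicit false
set_option linter.all false

namespace Helper11.CT.T1_34_1_m1_v

open Helper11.CT

noncomputable def t2 : Tre :=
  .I [0,-1,1,0,0,0,0,1] t0 t1

theorem ok2 : chk (cU 1 false 10) t2 l0 = true :=
  chk_I (e' := [1,1,-1,0,0,0,0,-1]) (by decide +kernel) (by decide +kernel) ok0 ok1

noncomputable def t10 : Tre :=
  .I [0,1,0,1,0,0,0,1] t8 t9

theorem ok10 : chk (cU 1 false 10) t10 r11 = true :=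
  chk_I (e' := [1,-1,0,-1,0,0,0,-1]) (by decide +kernel) (by decide +kernel) ok8 ok9

noncomputable def t11 : Tre :=
  .Q [0,-1,0,1,0,0,1,1,0,0,1] (.p true [0,0,1] [] (⟨0,[(24,0)]⟩,⟨0,[(23,0)]⟩) .k 0 (⟨0,[]⟩,⟨0,[]⟩)
  .k .k) t7 t10

theorem ok11 : chk (cU 1 false 10) t11 l10 = true :=
  chk_Q (e' := [0,1,0,-1,0,0,-1,-1,0,0,-1]) (by decide +kernel) (by decide +kernel) ok7 ok10

noncomputable def t13 : Tre :=
  .I [1,0,2,2,-1] t11 t12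

theorem ok13 : chk (cU 1 false 10) t13 l9 = true :=
  chk_I (e' := [0,0,-2,-2,1]) (by decide +kernel) (by decide +kernel) ok11 ok12

noncomputable def t15 : Tre :=
  .Q [0,0,0,0,0,-1,0,0,0,1,-1] (.ed true [0,1,1] .k) t13 t14

theorem ok15 : chk (cU 1 false 10) t15 l8 = true :=
  chk_Q (e' := [0,0,0,0,0,1,0,0,0,-1,1]) (by decide +kernel) (by decide +kernel) ok13 ok14

noncomputable def t17 : Tre :=
  .Q [0,0,0,-1,0,0,-1,-1,0,1,-1] (.p false [0,0,1] [1] (⟨0,[(21,0)]⟩,⟨0,[(20,0)]⟩) .k 1 (⟨0,[]⟩,⟨0,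
  []⟩) .k .k) t15 t16

theorem ok17 : chk (cU 1 false 10) t17 r7 = true :=
  chk_Q (e' := [0,0,0,1,0,0,1,1,0,-1,1]) (by decide +kernel) (by decide +kernel) ok15 ok16

noncomputable def t18 : Tre :=
  .I [1,1,1,0,-1,0,0,-1] t6 t17

theorem ok18 : chk (cU 1 false 10) t18 r6 = true :=
  chk_I (e' := [0,-1,-1,0,1,0,0,1]) (by decide +kernel) (by decide +kernel) ok6 ok17

noncomputable def t19 : Tre :=
  .Q [0,0,-2,0,1,0,-1,0,0,1,-1] (.p false [0,0,1] [1] (⟨0,[(19,0)]⟩,⟨0,[(18,0)]⟩) .k 1 (⟨0,[]⟩,⟨0,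
  []⟩) .k .k) t5 t18

theorem ok19 : chk (cU 1 false 10) t19 r5 = true :=
  chk_Q (e' := [0,0,2,0,-1,0,1,0,0,-1,1]) (by decide +kernel) (by decide +kernel) ok5 ok18

noncomputable def t20 : Tre :=
  .Q [0,-1,0,1,0,0,-1,-1,0,1,-1] (.p false [0,0,1] [1] (⟨0,[(18,0)]⟩,⟨0,[(17,0)]⟩) .k 1 (⟨0,[]⟩,⟨0,
  []⟩) .k .k) t4 t19

theorem ok20 : chk (cU 1 false 10) t20 l4 = true :=
  chk_Q (e' := [0,1,0,-1,0,0,1,1,0,-1,1]) (by decide +kernel) (by decide +kernel) ok4 ok19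

noncomputable def t24 : Tre :=
  .I [1,1,0,-1,0,0,0,1] t22 t23

theorem ok24 : chk (cU 1 false 10) t24 l14 = true :=
  chk_I (e' := [0,-1,0,1,0,0,0,-1]) (by decide +kernel) (by decide +kernel) ok22 ok23

noncomputable def t26 : Tre :=
  .I [1,-1,1,1,0,0,0,1] t24 t25

theorem ok26 : chk (cU 1 false 10) t26 r13 = true :=
  chk_I (e' := [0,1,-1,-1,0,0,0,-1]) (by decide +kernel) (by decide +kernel) ok24 ok25

noncomputable def t27 : Tre :=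
  .Q [0,0,0,0,0,1,0,0,0,-1,1] (.ed false [0,1,1] .k) t21 t26

theorem ok27 : chk (cU 1 false 10) t27 r4 = true :=
  chk_Q (e' := [0,0,0,0,0,-1,0,0,0,1,-1]) (by decide +kernel) (by decide +kernel) ok21 ok26

noncomputable def t28 : Tre :=
  .I [1,-1,2,2,-1,0,0,-1] t20 t27

theorem ok28 : chk (cU 1 false 10) t28 r3 = true :=
  chk_I (e' := [0,1,-2,-2,1,0,0,1]) (by decide +kernel) (by decide +kernel) ok20 ok27

noncomputable def t29 : Tre :=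
  .Q [0,0,0,0,0,0,-1,0,0,1,-1] (.p false [0,0,1] [1] (⟨0,[(16,0)]⟩,⟨0,[(15,0)]⟩) .k 1 (⟨0,[]⟩,⟨0,
  []⟩) .k .k) t3 t28

theorem ok29 : chk (cU 1 false 10) t29 l2 = true :=
  chk_Q (e' := [0,0,0,0,0,0,1,0,0,-1,1]) (by decide +kernel) (by decide +kernel) ok3 ok28

noncomputable def t31 : Tre :=
  .Q [0,0,0,1,0,0,1,0,0,-1,1] (.p true [0,0,1] [1] (⟨0,[(15,0)]⟩,⟨0,[(14,0)]⟩) .k 1 (⟨0,[]⟩,⟨0,[]⟩)
  .k .k) t29 t30

theorem ok31 : chk (cU 1 false 10) t31 r0 = true :=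
  chk_Q (e' := [0,0,0,-1,0,0,-1,0,0,1,-1]) (by decide +kernel) (by decide +kernel) ok29 ok30

noncomputable def t32 : Tre :=
  .Q [0,0,0,0,0,1,0,0,0,0,-1] (.ed true [1,-1,1] .k) t2 t31

theorem ok32 : chk (cU 1 false 10) t32 base = true :=
  chk_Q (e' := [0,0,0,0,0,-1,0,0,0,0,1]) (by decide +kernel) (by decide +kernel) ok2 ok31

theorem ok : chkB (cU 1 false 10) (fax (fcU 1) true 34 1 10 false (tU false)) t32 base = true :=
  chkB_of (by decide +kernel) ok32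

end Helper11.CT.T1_34_1_m1_v
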