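import Pool.Agent.Helper11.CT.Cfg
import Pool.Agent.Helper11.CT.Cut

set_option autoImplicit false
set_option linter.all false

namespace Helper11.CT.T1_34_m1_1_u

open Helper11.CT

noncomputable def base : List Con :=
  [(false,[0,1,0,-1,0,0,-1,0,0,0,1]),
  (false,[0,0,0,0,0,0,2,0,0,1,-2]),
  (true,[0,0,0,0,1,0,0,0,-2]),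
  (true,[0,0,0,0,1,0,0,0,2]),
  (false,[0,0,0,0,0,0,0,0,0,1,0,-1]),
  (false,[0,0,0,0,0,0,0,0,0,0,0,1]),
  (false,[0,1,0,0,0,0,-1,-1,0,-1,1]),
  (false,[0,0,1,0,0,0,-1,0,0,-1,1]),
  (false,[0,1,0,0,0,0,1,1,0,0,-1]),
  (false,[0,1,0,0,0,0,-1,-1,0,0,1]),
  (false,[0,0,1,0,0,0,1,0,0,0,-1]),
  (false,[0,0,1,0,0,0,-1,0,0,0,1]),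
  (true,[0,0,0,0,0,0,0,1]),
  (false,[0,0,0,0,0,0,0,0,0,1,-1]),
  (false,[0,0,0,0,0,0,0,0,0,0,1]),
  (false,[0,0,0,0,1,0,0,0,0,-2]),
  (false,[0,0,0,0,0,-1,0,0,0,1]),
  (true,[0,0,0,0,0,1]),
  (true,[1,-2,1]),
  (true,[0,1,0,-1]),
  (true,[0,0,0,1]),
  (true,[0,0,-2,0,1]),
  (true,[0,-2,0,0,1]),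
  (true,[-1,0,1]),
  (true,[-1,1])]

noncomputable def l0 : List Con := (false, [0,0,0,0,0,1,0,0,0,0,-1]) :: base

noncomputable def r0 : List Con := (false, [0,0,0,0,0,-1,0,0,0,0,1]) :: base

noncomputable def t0 : Tre :=
  (.Q [0,0,0,0,0,0,-1,0,0,0,1] (.p true [0,0,1] [] (⟨0,[(15,0)]⟩,⟨0,[(14,0)]⟩) .k 0 (⟨0,[]⟩,⟨0,[]⟩)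
  .k .k) (.R ⟨0,false,false,false,[0,0,1],[1,-1],[0,1],(⟨0,[(16,0)]⟩,⟨0,[(15,0)]⟩),(⟨0,[(18,0)]⟩,⟨0,
  [(19,0)]⟩),⟨0,[(1,0)]⟩,.k,.k,.k,.k,.k,.k,⟨false,0,⟨0,[(22,0),(3,0)]⟩,⟨0,[(20,0),(0,0),(1,0)]⟩⟩,
  ⟨true,0,⟨0,[(9,0)]⟩,⟨1,[(3,0),(2,0),(0,0)]⟩⟩,⟨true,0,⟨1,[(3,0),(4,0),(2,0)]⟩,⟨0,[(14,0)]⟩⟩,⟨false,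
  1,⟨1,[(8,1),(11,1),(0,1),(1,0),(0,0)]⟩,⟨1,[(3,0),(2,0),(0,0),(6,1),(7,1)]⟩⟩,⟨false,0,⟨0,[]⟩,⟨0,
  []⟩⟩,⟨false,0,⟨0,[]⟩,⟨0,[]⟩⟩,[.o ⟨false,1,⟨1,[(17,0),(3,1),(2,0)]⟩,⟨0,[(22,0)]⟩⟩,.o ⟨false,1,⟨1,
  [(17,0),(2,1),(0,1),(1,0)]⟩,⟨0,[(22,0),(3,0)]⟩⟩,.a ⟨true,0,⟨1,[(3,0),(2,0),(0,0)]⟩,⟨0,[(0,0)]⟩⟩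
  ⟨true,0,⟨0,[(26,0)]⟩,⟨0,[]⟩⟩ ⟨false,1,⟨1,[(2,1),(14,0),(2,1),(2,0)]⟩,⟨1,[(3,0),(2,0),(0,0),(14,
  1)]⟩⟩,.o ⟨false,0,⟨0,[(12,0)]⟩,⟨0,[(9,0),(13,0)]⟩⟩]⟩) (.Q [0,0,0,0,0,0,-1,0,0,1,1] (.p true [1,-1,
  1] [] (⟨0,[(16,0),(1,0)]⟩,⟨0,[(1,0)]⟩) .k 0 (⟨0,[]⟩,⟨0,[]⟩) .k .k) (.R ⟨0,false,false,false,[0,1,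
  -1],[0,1],[1,0,1,0,0,0,0,-1],(⟨0,[(2,0)]⟩,⟨0,[(17,0),(1,0)]⟩),(⟨0,[(20,0)]⟩,⟨0,[(19,0)]⟩),⟨0,[(17,
  0)]⟩,.k,.k,.k,.k,.k,.k,⟨false,1,⟨1,[(4,0),(4,0),(2,0),(8,1),(0,1),(1,1)]⟩,⟨0,[(15,0),(7,0)]⟩⟩,
  ⟨true,0,⟨0,[(1,0)]⟩,⟨0,[(14,0)]⟩⟩,⟨false,1,⟨0,[(22,0),(2,0)]⟩,⟨0,[(23,0)]⟩⟩,⟨true,0,⟨0,[(1,0),(13,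
  0)]⟩,⟨0,[(12,0)]⟩⟩,⟨false,0,⟨0,[]⟩,⟨0,[]⟩⟩,⟨false,0,⟨0,[]⟩,⟨0,[]⟩⟩,[.o ⟨false,0,⟨0,[(23,0)]⟩,⟨1,
  [(18,0),(3,1),(2,0)]⟩⟩,.e ⟨true,0,⟨1,[(4,0),(4,0),(2,0),(8,1)]⟩,⟨0,[(15,0),(11,0)]⟩⟩ ⟨true,0,⟨1,
  [(1,0),(11,0),(7,0),(1,1)]⟩,⟨0,[(3,0)]⟩⟩,.o ⟨false,1,⟨1,[(0,1),(17,0),(5,0)]⟩,⟨0,[(1,1),(8,0)]⟩⟩,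
  .a ⟨true,0,⟨0,[(0,0)]⟩,⟨0,[(1,0)]⟩⟩ ⟨false,1,⟨1,[(4,0),(4,0),(2,0),(12,1)]⟩,⟨0,[(15,0)]⟩⟩ ⟨true,0,
  ⟨0,[(1,0),(21,0)]⟩,⟨0,[(3,0)]⟩⟩]⟩) (.Q [0,-1,0,1,0,0,1,1,0,1,-1] (.p false [0,0,1] [1] (⟨0,[(17,
  0)]⟩,⟨0,[(16,0)]⟩) .k 1 (⟨0,[]⟩,⟨0,[]⟩) .k .k) (.R ⟨2,true,false,true,[0,1],[1,0,-1],[1,1,1],(⟨0,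
  []⟩,⟨0,[]⟩),(⟨0,[(17,0)]⟩,⟨0,[(18,0)]⟩),⟨0,[]⟩,.k,.k,.k,.k,.k,.k,⟨false,0,⟨0,[(16,0)]⟩,⟨1,[(5,0),
  (4,0),(2,0),(11,0),(0,0)]⟩⟩,⟨true,0,⟨0,[(11,0)]⟩,⟨1,[(5,0),(2,0),(0,0)]⟩⟩,⟨true,0,⟨0,[(23,0)]⟩,⟨0,
  [(24,0)]⟩⟩,⟨false,1,⟨0,[(10,0),(12,0),(2,0)]⟩,⟨0,[(0,0)]⟩⟩,⟨false,0,⟨0,[]⟩,⟨3,[(6,0),(0,0),(18,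
  1)]⟩⟩,⟨true,0,⟨0,[(10,0)]⟩,⟨0,[(0,0),(22,0)]⟩⟩,[]⟩) (.Q [0,0,0,1,0,0,-1,-1,0,0,1] (.p true [0,0,
  1] [] (⟨0,[(18,0)]⟩,⟨0,[(17,0)]⟩) .k 0 (⟨0,[]⟩,⟨0,[]⟩) .k .k) (.R ⟨2,true,false,true,[0,1],[0,0,
  1],[1,0,1],(⟨0,[]⟩,⟨0,[]⟩),(⟨0,[(19,0)]⟩,⟨0,[(18,0)]⟩),⟨0,[]⟩,.k,.k,.k,.k,.k,.k,⟨true,0,⟨4,[(0,1),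
  (0,1),(4,1),(7,0),(0,0),(7,3)]⟩,⟨0,[(17,0),(11,0)]⟩⟩,⟨false,0,⟨0,[(3,0)]⟩,⟨0,[(16,0),(9,0)]⟩⟩,
  ⟨false,1,⟨0,[(24,0),(2,0)]⟩,⟨0,[(25,0)]⟩⟩,⟨true,0,⟨2,[(2,0),(3,0),(10,2),(6,2)]⟩,⟨0,[(0,0)]⟩⟩,
  ⟨true,0,⟨0,[]⟩,⟨0,[(29,0)]⟩⟩,⟨false,0,⟨2,[(2,0),(3,0),(10,2)]⟩,⟨0,[(14,0),(12,0)]⟩⟩,[]⟩) (.Q [0,0,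
  0,-1,0,0,1,1,0,-1,-1] (.p false [1,-1,1] [] (⟨0,[(19,0),(1,0)]⟩,⟨0,[(4,0)]⟩) .k 0 (⟨0,[]⟩,⟨0,[]⟩)
  .k .k) (.Q [0,0,0,0,0,1,0,0,0,-1,1] (.ed false [0,1,1] .k) (.Q [0,-1,0,1,0,0,1,1,0,2,-1] (.p
  false [-1,1,1] [1] (⟨0,[(0,0)]⟩,⟨0,[(20,0),(2,0)]⟩) .k 1 (⟨0,[]⟩,⟨0,[]⟩) .k .k) (.R ⟨0,false,
  false,false,[0,0,1],[-1,1,1],[0,1,1],(⟨0,[(22,0)]⟩,⟨0,[(21,0)]⟩),(⟨0,[(1,0)]⟩,⟨0,[(21,0),(2,0)]⟩),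
  ⟨0,[(7,0)]⟩,.k,.k,.k,.k,.k,.k,⟨true,0,⟨1,[(4,1),(4,0),(2,0),(0,0)]⟩,⟨3,[(0,1),(4,0),(9,2),(4,1),
  (5,0),(1,1)]⟩⟩,⟨false,1,⟨0,[(12,0),(0,0),(15,0)]⟩,⟨2,[(5,0),(9,1),(2,0)]⟩⟩,⟨false,0,⟨3,[(9,0),(4,
  0),(2,2),(0,1),(7,1)]⟩,⟨1,[(20,1),(8,0),(0,0)]⟩⟩,⟨true,0,⟨1,[(0,0),(16,0),(10,0)]⟩,⟨2,[(2,0),(1,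
  1),(11,0)]⟩⟩,⟨false,0,⟨0,[]⟩,⟨0,[]⟩⟩,⟨false,0,⟨0,[]⟩,⟨0,[]⟩⟩,[.o ⟨false,0,⟨1,[(0,0),(15,0),(11,
  0)]⟩,⟨1,[(4,1),(18,0),(6,0)]⟩⟩,.a ⟨true,0,⟨0,[(0,0)]⟩,⟨0,[(4,0)]⟩⟩ ⟨true,0,⟨1,[(18,0),(0,0)]⟩,⟨0,
  []⟩⟩ ⟨false,1,⟨0,[(0,0),(14,0),(13,0)]⟩,⟨2,[(4,2),(0,0),(3,0)]⟩⟩,.o ⟨false,0,⟨0,[(6,0)]⟩,⟨3,[(10,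
  0),(0,0),(3,3),(13,1)]⟩⟩,.o ⟨false,0,⟨0,[(18,0)]⟩,⟨0,[(15,0),(13,0)]⟩⟩]⟩) (.I [1,-1,1,0,0,0,0,0,
  1] (.I [1,-1,-1,0,1,0,0,0,-1] (.I [0,0,0,0,0,0,0,0,1] (.Q [0,0,0,0,0,1,0,0,0,-1,0,1] (.p true [0,
  0,0,1] [1] (⟨0,[(16,0)]⟩,⟨0,[(15,0)]⟩) .k 1 (⟨0,[]⟩,⟨0,[]⟩) .k .k) (.R ⟨0,false,false,true,[1,0,0,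
  -1],[1,0,-1],[1,0,0,0,0,0,0,0,-1],(⟨0,[(16,0)]⟩,⟨0,[(17,0)]⟩),(⟨0,[(25,0)]⟩,⟨0,[(26,0)]⟩),⟨0,[(0,
  0)]⟩,.k,.k,(.x (-1) ⟨3,[(14,0),(0,0),(11,1),(0,3)]⟩ ⟨0,[(29,0)]⟩),.k,.k,.k,⟨false,1,⟨0,[(2,0),(21,
  0)]⟩,⟨1,[(1,1),(11,0),(4,0),(2,0)]⟩⟩,⟨true,0,⟨0,[(16,0),(2,0)]⟩,⟨2,[(9,0),(3,0),(3,2)]⟩⟩,⟨true,0,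
  ⟨0,[]⟩,⟨0,[(36,0)]⟩⟩,⟨false,0,⟨0,[(3,0),(12,0),(1,0)]⟩,⟨2,[(2,2),(6,0),(3,0),(3,2),(6,2)]⟩⟩,
  ⟨false,0,⟨0,[]⟩,⟨0,[]⟩⟩,⟨false,0,⟨0,[]⟩,⟨0,[]⟩⟩,[.o ⟨false,0,⟨0,[(18,0)]⟩,⟨0,[(20,0),(13,0)]⟩⟩,.o
  ⟨false,1,⟨1,[(21,1),(5,0),(6,0)]⟩,⟨2,[(9,0),(3,0),(10,2)]⟩⟩,.o ⟨false,1,⟨1,[(17,1),(9,0),(5,0)]⟩,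
  ⟨2,[(9,0),(6,2),(2,1),(2,0)]⟩⟩,.a ⟨true,0,⟨0,[(17,0)]⟩,⟨0,[(16,0)]⟩⟩ ⟨false,1,⟨0,[(2,0)]⟩,⟨1,[(1,
  1),(20,0),(0,0)]⟩⟩ ⟨true,0,⟨0,[(16,0),(1,0)]⟩,⟨2,[(9,0),(3,0),(3,2),(6,2)]⟩⟩]⟩) (.I [1,-1,-1,-1,1,
  0,0,0,-1] (.R ⟨1,false,false,true,[1,0,0,-1],[1,0,-1],[1,0,0,-1,0,0,0,0,-1],(⟨0,[(17,0)]⟩,⟨0,[(18,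
  0)]⟩),(⟨0,[(26,0)]⟩,⟨0,[(27,0)]⟩),⟨0,[(1,0)]⟩,.k,.k,(.x (-1) ⟨3,[(15,0),(0,0),(11,1),(0,3)]⟩ ⟨0,
  [(30,0)]⟩),.k,(.r (-1) ⟨5,[(0,3),(12,1),(1,0),(5,1),(3,3),(8,0)]⟩ ⟨1,[(4,1),(9,0),(4,0),(2,0),(10,
  1)]⟩),.k,⟨false,1,⟨0,[(0,0),(24,0)]⟩,⟨1,[(2,1),(11,0),(4,0),(2,0),(10,1)]⟩⟩,⟨true,0,⟨0,[(17,0),(2,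
  0)]⟩,⟨2,[(10,0),(3,0),(3,2)]⟩⟩,⟨false,1,⟨0,[(32,0),(2,0)]⟩,⟨0,[(33,0)]⟩⟩,⟨false,0,⟨0,[(4,0),(12,
  0),(1,0)]⟩,⟨2,[(3,2),(6,0),(3,0),(3,2),(6,2)]⟩⟩,⟨true,0,⟨0,[]⟩,⟨0,[(37,0)]⟩⟩,⟨false,0,⟨0,[(4,0),
  (12,0),(1,0),(13,0)]⟩,⟨0,[(3,0),(4,0),(9,0)]⟩⟩,[.o ⟨false,0,⟨0,[(19,0)]⟩,⟨0,[(21,0),(13,0)]⟩⟩,.o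
  ⟨false,1,⟨1,[(22,1),(5,0),(6,0)]⟩,⟨2,[(10,0),(3,0),(10,2)]⟩⟩,.o ⟨false,1,⟨1,[(18,1),(9,0),(5,0)]⟩,
  ⟨2,[(10,0),(6,2),(2,1),(2,0)]⟩⟩,.a ⟨true,0,⟨0,[(18,0)]⟩,⟨0,[(17,0)]⟩⟩ ⟨false,1,⟨0,[(0,0)]⟩,⟨1,[(2,
  1),(20,0),(0,0),(8,1)]⟩⟩ ⟨true,0,⟨0,[(17,0),(1,0)]⟩,⟨2,[(10,0),(3,0),(3,2),(6,2)]⟩⟩]⟩) (.R ⟨1,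
  false,false,true,[1,0,0,-1],[0,1],[0,1,1],(⟨0,[(17,0)]⟩,⟨0,[(18,0)]⟩),(⟨0,[(30,0)]⟩,⟨0,[(29,0)]⟩),
  ⟨0,[(1,0)]⟩,.k,.k,(.x (-1) ⟨3,[(15,0),(0,0),(11,1),(0,3)]⟩ ⟨0,[(30,0)]⟩),(.x (-1) ⟨3,[(15,0),(0,
  0),(11,1),(0,3)]⟩ ⟨0,[(30,0)]⟩),(.r (-2) ⟨1,[(3,1),(28,3),(1,0),(0,0)]⟩ ⟨3,[(0,5),(14,0),(15,1),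
  (1,1),(1,0)]⟩),.k,⟨false,1,⟨1,[(32,1),(1,0),(0,0)]⟩,⟨0,[(33,0)]⟩⟩,⟨true,0,⟨0,[(17,0)]⟩,⟨2,[(10,0),
  (7,2),(1,1),(2,0)]⟩⟩,⟨false,0,⟨4,[(0,0),(3,1),(11,0),(6,0),(0,0),(7,0)]⟩,⟨0,[(3,0)]⟩⟩,⟨true,(-1),
  ⟨0,[(0,0),(16,0)]⟩,⟨5,[(3,3),(1,1),(1,1),(7,0),(2,5),(13,1),(1,0)]⟩⟩,⟨true,(-1),⟨0,[(0,0)]⟩,⟨0,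
  [(3,0),(28,0)]⟩⟩,⟨true,(-1),⟨0,[(0,0),(16,0),(15,0)]⟩,⟨0,[(3,0),(4,0),(0,0),(8,0)]⟩⟩,[.o ⟨false,0,
  ⟨0,[(33,0),(3,0)]⟩,⟨7,[(5,1),(1,1),(20,0),(3,3),(2,6)]⟩⟩,.o ⟨false,0,⟨0,[(33,0)]⟩,⟨1,[(28,0),(3,
  1),(2,0)]⟩⟩,.o ⟨false,1,⟨1,[(18,1),(9,0),(5,0)]⟩,⟨2,[(10,0),(6,2),(2,1),(2,0)]⟩⟩,.a ⟨true,0,⟨0,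
  [(18,0)]⟩,⟨0,[(17,0)]⟩⟩ ⟨true,0,⟨0,[(37,0)]⟩,⟨0,[]⟩⟩ ⟨false,0,⟨0,[(17,0),(15,0)]⟩,⟨7,[(5,1),(1,1),
  (10,7),(9,0),(3,3),(2,6)]⟩⟩]⟩))) (.Q [0,0,0,0,0,1,0,0,0,-1,0,1] (.p true [0,0,0,1] [1] (⟨0,[(16,
  0)]⟩,⟨0,[(15,0)]⟩) .k 1 (⟨0,[]⟩,⟨0,[]⟩) .k .k) (.R ⟨0,false,false,false,[1,0,0,-1],[0,1],[0,1,0,0,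
  0,0,0,0,-1],(⟨0,[(16,0)]⟩,⟨0,[(17,0)]⟩),(⟨0,[(29,0)]⟩,⟨0,[(28,0)]⟩),⟨0,[(0,0)]⟩,.k,.k,(.x (-1) ⟨3,
  [(14,0),(0,0),(11,1),(0,3)]⟩ ⟨0,[(29,0)]⟩),(.x (-1) ⟨3,[(14,0),(0,0),(11,1),(0,3)]⟩ ⟨0,[(29,0)]⟩),
  .k,.k,⟨false,1,⟨0,[(1,0),(29,0),(1,0)]⟩,⟨0,[(3,0),(28,0)]⟩⟩,⟨true,0,⟨0,[(16,0)]⟩,⟨2,[(9,0),(7,2),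
  (1,1),(2,0)]⟩⟩,⟨true,0,⟨0,[(36,0)]⟩,⟨0,[]⟩⟩,⟨false,0,⟨0,[(3,0),(12,0),(15,0)]⟩,⟨5,[(2,3),(1,1),(1,
  1),(7,0),(2,5),(13,1),(1,0)]⟩⟩,⟨false,0,⟨0,[]⟩,⟨0,[]⟩⟩,⟨false,0,⟨0,[]⟩,⟨0,[]⟩⟩,[.o ⟨false,0,⟨0,
  [(32,0)]⟩,⟨1,[(27,0),(3,1),(2,0)]⟩⟩,.o ⟨false,1,⟨3,[(14,0),(0,0),(16,3),(1,1)]⟩,⟨4,[(4,1),(1,0),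
  (13,0),(10,1)]⟩⟩,.o ⟨false,1,⟨1,[(17,1),(9,0),(5,0)]⟩,⟨2,[(9,0),(6,2),(2,1),(2,0)]⟩⟩,.a ⟨true,0,
  ⟨0,[(17,0)]⟩,⟨0,[(16,0)]⟩⟩ ⟨false,1,⟨1,[(14,0),(18,0)]⟩,⟨0,[(3,0)]⟩⟩ ⟨true,0,⟨0,[(16,0),(15,0)]⟩,
  ⟨4,[(4,1),(1,0),(10,4),(2,0),(10,1)]⟩⟩]⟩) (.R ⟨1,false,false,false,[1,0,0,-1],[0,1],[0,1,0,0,0,0,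
  0,0,-1],(⟨0,[(16,0)]⟩,⟨0,[(17,0)]⟩),(⟨0,[(29,0)]⟩,⟨0,[(28,0)]⟩),⟨0,[(0,0)]⟩,.k,.k,(.x (-1) ⟨3,
  [(14,0),(0,0),(11,1),(0,3)]⟩ ⟨0,[(29,0)]⟩),(.x (-1) ⟨3,[(14,0),(0,0),(11,1),(0,3)]⟩ ⟨0,[(29,0)]⟩),
  (.x 0 ⟨0,[(9,0),(9,0),(8,1)]⟩ ⟨3,[(14,0),(0,0),(13,7),(3,1)]⟩),.k,⟨false,1,⟨0,[(1,0),(29,0),(1,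
  0)]⟩,⟨0,[(3,0),(28,0)]⟩⟩,⟨true,0,⟨0,[(16,0)]⟩,⟨2,[(9,0),(7,2),(1,1),(2,0)]⟩⟩,⟨true,0,⟨0,[(36,0)]⟩,
  ⟨0,[]⟩⟩,⟨false,0,⟨0,[(3,0),(12,0),(15,0)]⟩,⟨5,[(2,3),(1,1),(1,1),(7,0),(2,5),(13,1),(1,0)]⟩⟩,
  ⟨false,0,⟨0,[(32,0)]⟩,⟨0,[(31,0),(2,0)]⟩⟩,⟨false,0,⟨0,[(3,0),(12,0),(15,1)]⟩,⟨0,[(2,0),(4,0),(0,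
  0),(8,0)]⟩⟩,[.o ⟨false,0,⟨0,[(32,0)]⟩,⟨1,[(27,0),(3,1),(2,0)]⟩⟩,.o ⟨false,1,⟨3,[(14,0),(0,0),(16,
  3),(1,1)]⟩,⟨4,[(4,1),(1,0),(13,0),(10,1)]⟩⟩,.o ⟨false,1,⟨1,[(17,1),(9,0),(5,0)]⟩,⟨2,[(9,0),(6,2),
  (2,1),(2,0)]⟩⟩,.a ⟨true,0,⟨0,[(17,0)]⟩,⟨0,[(16,0)]⟩⟩ ⟨false,1,⟨1,[(14,0),(18,0)]⟩,⟨0,[(3,0)]⟩⟩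
  ⟨true,0,⟨0,[(16,0),(15,0)]⟩,⟨4,[(4,1),(1,0),(10,4),(2,0),(10,1)]⟩⟩]⟩))) (.Q [0,1,1,0,-1,0,0,0,1,0,
  0,-1] (.p false [0,0,0,1] [] (⟨0,[(15,0)]⟩,⟨0,[(14,0)]⟩) .k 0 (⟨0,[]⟩,⟨0,[]⟩) .k .k) (.K ⟨0,[0,0,
  0,1],0,(-1),(⟨0,[(16,0)]⟩,⟨0,[(15,0)]⟩),.k,(.x 0 ⟨0,[(18,0),(2,0),(5,0)]⟩ ⟨0,[(28,0),(3,0)]⟩),(.x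
  0 ⟨0,[(28,0)]⟩ ⟨3,[(13,0),(0,0),(11,1),(0,3)]⟩),.k,.k,[⟨0,[(16,0)]⟩,⟨0,[(15,0)]⟩,⟨1,[(13,0),(2,1),
  (15,0),(2,1)]⟩,⟨0,[(0,0)]⟩]⟩) (.R ⟨0,false,false,true,[0,0,1],[0,0,0,1],[1,1],(⟨0,[(25,0)]⟩,⟨0,
  [(24,0)]⟩),(⟨0,[(16,0)]⟩,⟨0,[(15,0)]⟩),⟨0,[(10,0)]⟩,.k,.k,.k,.k,.k,.k,⟨false,1,⟨1,[(13,0),(18,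
  0)]⟩,⟨1,[(1,0),(0,0),(29,0)]⟩⟩,⟨true,0,⟨0,[(15,0),(2,0)]⟩,⟨2,[(8,0),(3,0),(3,2)]⟩⟩,⟨true,0,⟨1,
  [(12,0),(4,0),(2,0)]⟩,⟨0,[(23,0)]⟩⟩,⟨false,0,⟨0,[(2,0),(12,0),(1,0)]⟩,⟨2,[(0,2),(7,0),(3,0),(10,
  2)]⟩⟩,⟨false,0,⟨0,[]⟩,⟨0,[]⟩⟩,⟨false,0,⟨0,[]⟩,⟨0,[]⟩⟩,[.a ⟨true,(-1),⟨0,[(1,0),(13,0)]⟩,⟨0,[(0,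
  0)]⟩⟩ ⟨true,0,⟨0,[(35,0)]⟩,⟨3,[(21,0),(0,0),(6,1)]⟩⟩ ⟨false,0,⟨0,[(1,0),(13,0),(2,0),(13,0)]⟩,⟨2,
  [(0,2),(7,0),(3,0)]⟩⟩,.o ⟨false,0,⟨1,[(1,0),(0,0),(12,1),(10,0)]⟩,⟨1,[(0,1),(2,0),(15,0),(11,
  0)]⟩⟩,.o ⟨false,0,⟨0,[(9,0)]⟩,⟨3,[(13,0),(0,0),(3,3),(13,1)]⟩⟩,.o ⟨false,0,⟨0,[(21,0)]⟩,⟨0,[(18,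
  0),(13,0)]⟩⟩]⟩))) (.Q [0,1,1,0,0,0,0,0,1,0,0,-1] (.p false [0,0,0,1] [] (⟨0,[(14,0)]⟩,⟨0,[(13,
  0)]⟩) .k 0 (⟨0,[]⟩,⟨0,[]⟩) .k .k) (.K ⟨0,[0,0,0,1],0,0,(⟨0,[(15,0)]⟩,⟨0,[(14,0)]⟩),.k,(.x 0 ⟨0,
  [(17,0),(2,0),(5,0)]⟩ ⟨0,[(27,0),(3,0)]⟩),(.x 0 ⟨0,[(27,0)]⟩ ⟨3,[(12,0),(0,0),(11,1),(0,3)]⟩),.k,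
  .k,[⟨0,[(15,0)]⟩,⟨0,[(14,0)]⟩,⟨0,[(1,0),(13,0)]⟩,⟨0,[(0,0)]⟩]⟩) (.Q [0,0,0,0,0,1,0,0,0,-1,0,1]
  (.p true [0,0,0,1] [1] (⟨0,[(15,0)]⟩,⟨0,[(14,0)]⟩) .k 1 (⟨0,[]⟩,⟨0,[]⟩) .k .k) (.R ⟨0,false,false,
  true,[1,0,0,-1],[1,0,-1],[0,1,0,0,0,0,0,0,-1],(⟨0,[(15,0)]⟩,⟨0,[(16,0)]⟩),(⟨0,[(24,0)]⟩,⟨0,[(25,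
  0)]⟩),⟨0,[(0,0)]⟩,.k,.k,(.x (-1) ⟨3,[(13,0),(0,0),(11,1),(0,3)]⟩ ⟨0,[(28,0)]⟩),.k,.k,.k,⟨false,0,
  ⟨4,[(1,2),(0,1),(0,0),(4,0),(6,2),(7,5),(7,0)]⟩,⟨1,[(12,0),(1,0),(2,0),(2,0),(12,0)]⟩⟩,⟨true,0,⟨0,
  [(15,0),(2,0)]⟩,⟨2,[(8,0),(3,0),(3,2)]⟩⟩,⟨true,0,⟨0,[(35,0)]⟩,⟨0,[]⟩⟩,⟨false,1,⟨5,[(14,2),(0,5),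
  (2,1),(1,5),(0,1),(4,1),(2,1),(3,0)]⟩,⟨2,[(1,2),(6,0),(3,0),(10,2)]⟩⟩,⟨false,0,⟨0,[]⟩,⟨0,[]⟩⟩,
  ⟨false,0,⟨0,[]⟩,⟨0,[]⟩⟩,[.o ⟨false,0,⟨0,[(17,0)]⟩,⟨0,[(19,0),(13,0)]⟩⟩,.o ⟨false,1,⟨1,[(20,1),(5,
  0),(6,0)]⟩,⟨2,[(8,0),(3,0),(10,2)]⟩⟩,.o ⟨false,1,⟨1,[(16,1),(9,0),(5,0)]⟩,⟨2,[(8,0),(6,2),(2,1),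
  (2,0)]⟩⟩,.a ⟨true,0,⟨0,[(16,0)]⟩,⟨0,[(15,0)]⟩⟩ ⟨false,0,⟨4,[(1,2),(0,1),(0,0),(4,0),(6,2),(7,0),
  (7,0)]⟩,⟨1,[(14,0),(6,0),(0,0),(10,0)]⟩⟩ ⟨true,0,⟨0,[(15,0),(1,0)]⟩,⟨2,[(8,0),(3,0),(3,2),(6,
  2)]⟩⟩]⟩) (.R ⟨1,false,false,true,[1,0,0,-1],[1,0,-1],[0,1,0,0,0,0,0,0,-1],(⟨0,[(15,0)]⟩,⟨0,[(16,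
  0)]⟩),(⟨0,[(24,0)]⟩,⟨0,[(25,0)]⟩),⟨0,[(0,0)]⟩,.k,.k,(.x (-1) ⟨3,[(13,0),(0,0),(11,1),(0,3)]⟩ ⟨0,
  [(28,0)]⟩),.k,(.r 0 ⟨7,[(1,5),(0,1),(0,0),(1,3),(5,2),(3,5),(7,4)]⟩ ⟨1,[(14,0),(5,1),(0,1),(9,1),
  (1,0)]⟩),.k,⟨false,0,⟨4,[(1,2),(0,1),(0,0),(4,0),(6,2),(7,5),(7,0)]⟩,⟨1,[(12,0),(1,0),(2,0),(2,0),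
  (12,0)]⟩⟩,⟨true,0,⟨0,[(15,0),(2,0)]⟩,⟨2,[(8,0),(3,0),(3,2)]⟩⟩,⟨true,0,⟨0,[(35,0)]⟩,⟨0,[]⟩⟩,⟨false,
  1,⟨5,[(14,2),(0,5),(2,1),(1,5),(0,1),(4,1),(2,1),(3,0)]⟩,⟨2,[(1,2),(6,0),(3,0),(10,2)]⟩⟩,⟨false,0,
  ⟨0,[(31,0)]⟩,⟨0,[(30,0),(2,0)]⟩⟩,⟨false,1,⟨5,[(14,2),(0,5),(2,1),(1,5),(0,1),(4,1),(2,1),(1,5),(1,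
  0)]⟩,⟨0,[(1,0),(4,0)]⟩⟩,[.o ⟨false,0,⟨0,[(17,0)]⟩,⟨0,[(19,0),(13,0)]⟩⟩,.o ⟨false,1,⟨1,[(20,1),(5,
  0),(6,0)]⟩,⟨2,[(8,0),(3,0),(10,2)]⟩⟩,.o ⟨false,1,⟨1,[(16,1),(9,0),(5,0)]⟩,⟨2,[(8,0),(6,2),(2,1),
  (2,0)]⟩⟩,.a ⟨true,0,⟨0,[(16,0)]⟩,⟨0,[(15,0)]⟩⟩ ⟨false,0,⟨4,[(1,2),(0,1),(0,0),(4,0),(6,2),(7,0),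
  (7,0)]⟩,⟨1,[(14,0),(6,0),(0,0),(10,0)]⟩⟩ ⟨true,0,⟨0,[(15,0),(1,0)]⟩,⟨2,[(8,0),(3,0),(3,2),(6,
  2)]⟩⟩]⟩))))) (.I [1,1,1,0,-1,0,0,0,-1] (.Q [0,1,1,0,0,0,0,0,1,0,0,-1] (.p false [0,0,0,1] [] (⟨0,
  [(13,0)]⟩,⟨0,[(12,0)]⟩) .k 0 (⟨0,[]⟩,⟨0,[]⟩) .k .k) (.K ⟨0,[0,0,0,1],0,0,(⟨0,[(14,0)]⟩,⟨0,[(13,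
  0)]⟩),.k,(.x 0 ⟨0,[(16,0),(2,0),(5,0)]⟩ ⟨0,[(26,0),(3,0)]⟩),(.x 0 ⟨0,[(26,0)]⟩ ⟨3,[(11,0),(0,0),
  (11,1),(0,3)]⟩),.k,.k,[⟨0,[(14,0)]⟩,⟨0,[(13,0)]⟩,⟨0,[(1,0),(12,0),(15,0)]⟩,⟨0,[(0,0)]⟩]⟩) (.R ⟨0,
  false,false,true,[0,0,1],[0,0,0,1],[1,1],(⟨0,[(23,0)]⟩,⟨0,[(22,0)]⟩),(⟨0,[(14,0)]⟩,⟨0,[(13,0)]⟩),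
  ⟨0,[(8,0)]⟩,.k,.k,.k,.k,.k,.k,⟨false,0,⟨2,[(0,1),(0,0),(4,0),(6,1),(1,0),(5,0),(8,0)]⟩,⟨3,[(11,0),
  (0,2)]⟩⟩,⟨true,0,⟨0,[(13,0),(2,0)]⟩,⟨2,[(6,0),(3,0),(3,2)]⟩⟩,⟨true,0,⟨1,[(10,0),(4,0),(2,0)]⟩,⟨0,
  [(21,0)]⟩⟩,⟨false,1,⟨5,[(12,2),(0,5),(2,1),(1,5),(0,1),(4,1),(2,1),(3,0)]⟩,⟨2,[(0,2),(5,0),(3,0),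
  (10,2)]⟩⟩,⟨false,0,⟨0,[]⟩,⟨0,[]⟩⟩,⟨false,0,⟨0,[]⟩,⟨0,[]⟩⟩,[.a ⟨true,0,⟨0,[(1,0),(10,0),(0,0)]⟩,⟨0,
  [(0,0)]⟩⟩ ⟨true,0,⟨0,[(33,0)]⟩,⟨3,[(19,0),(0,0),(6,1)]⟩⟩ ⟨false,1,⟨1,[(12,0),(0,1),(4,1),(2,1),(2,
  0)]⟩,⟨2,[(0,2),(5,0),(3,0)]⟩⟩,.o ⟨false,1,⟨7,[(11,0),(0,4),(0,7),(2,3),(2,3),(4,1)]⟩,⟨2,[(0,2),(5,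
  0),(8,1),(1,0),(3,0)]⟩⟩,.o ⟨false,0,⟨0,[(7,0)]⟩,⟨3,[(11,0),(0,0),(3,3),(13,1)]⟩⟩,.o ⟨false,0,⟨0,
  [(19,0)]⟩,⟨0,[(16,0),(13,0)]⟩⟩]⟩)) (.I [0,0,2,2,-1,0,0,1] (.Q [0,-1,0,2,0,0,1,1,0,1,-1] (.p false
  [0,0,1] [1] (⟨0,[(23,0)]⟩,⟨0,[(22,0)]⟩) .k 1 (⟨0,[]⟩,⟨0,[]⟩) .k .k) (.R ⟨1,true,false,false,[1,0,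
  -1],[0,1],[1,0,0,-1,0,0,0,-1],(⟨0,[(23,0)]⟩,⟨0,[(24,0)]⟩),(⟨0,[(27,0)]⟩,⟨0,[(26,0)]⟩),⟨0,[(3,0)]⟩,
  .k,.k,.k,.k,(.r (-2) ⟨0,[(6,0),(3,0),(0,0),(19,0),(0,0)]⟩ ⟨0,[(1,0)]⟩),.k,⟨true,1,⟨0,[(6,0),(3,0),
  (0,0),(16,0),(2,0)]⟩,⟨0,[(1,0)]⟩⟩,⟨false,1,⟨1,[(11,0),(2,0),(0,0),(15,1)]⟩,⟨0,[(17,0)]⟩⟩,⟨false,1,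
  ⟨0,[(29,0),(2,0)]⟩,⟨0,[(30,0)]⟩⟩,⟨true,0,⟨3,[(0,2),(9,1),(0,0),(6,0)]⟩,⟨0,[(6,0)]⟩⟩,⟨true,0,⟨0,
  []⟩,⟨0,[(34,0)]⟩⟩,⟨false,0,⟨0,[(0,0)]⟩,⟨0,[(6,0),(22,0),(2,0)]⟩⟩,[]⟩) (.Q [0,1,1,0,-1,0,0,0,1,0,0,
  -1] (.p false [0,0,0,1] [] (⟨0,[(15,0)]⟩,⟨0,[(14,0)]⟩) .k 0 (⟨0,[]⟩,⟨0,[]⟩) .k .k) (.K ⟨0,[0,0,0,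
  1],0,(-1),(⟨0,[(16,0)]⟩,⟨0,[(15,0)]⟩),.k,(.x 0 ⟨0,[(18,0),(2,0),(5,0)]⟩ ⟨0,[(28,0),(3,0)]⟩),(.x 0
  ⟨0,[(28,0)]⟩ ⟨3,[(13,0),(0,0),(11,1),(0,3)]⟩),.k,.k,[⟨0,[(16,0)]⟩,⟨0,[(15,0)]⟩,⟨1,[(13,0),(2,1),
  (15,0),(2,1)]⟩,⟨0,[(0,0)]⟩]⟩) (.Q [0,1,-1,0,0,0,0,0,-1,0,0,1] (.p true [0,0,0,1] [] (⟨0,[(16,0)]⟩,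
  ⟨0,[(15,0)]⟩) .k 0 (⟨0,[]⟩,⟨0,[]⟩) .k .k) (.K ⟨0,[0,0,0,1],0,0,(⟨0,[(17,0)]⟩,⟨0,[(16,0)]⟩),.k,(.r
  (-1) ⟨0,[(4,0),(26,0)]⟩ ⟨13,[(0,1),(2,5),(9,2),(0,5),(1,1),(1,4),(2,0),(8,3),(1,1)]⟩),(.x 0 ⟨0,
  [(29,0)]⟩ ⟨3,[(14,0),(0,0),(11,1),(0,3)]⟩),.k,.k,[⟨0,[(17,0)]⟩,⟨0,[(16,0)]⟩,⟨0,[(0,0)]⟩,⟨1,[(2,0),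
  (0,0),(5,0),(5,0),(0,1),(19,0)]⟩]⟩) (.Q [0,0,0,0,0,1,0,0,0,-1,0,1] (.p true [0,0,0,1] [1] (⟨0,
  [(17,0)]⟩,⟨0,[(16,0)]⟩) .k 1 (⟨0,[]⟩,⟨0,[]⟩) .k .k) (.I [1,0,0,1,0,0,0,0,-1] (.R ⟨0,false,false,
  false,[1,0,0,-1],[0,1],[0,1,0,0,0,0,0,0,-1],(⟨0,[(18,0)]⟩,⟨0,[(19,0)]⟩),(⟨0,[(31,0)]⟩,⟨0,[(30,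
  0)]⟩),⟨0,[(1,0)]⟩,.k,.k,(.x (-1) ⟨3,[(16,0),(0,0),(11,1),(0,3)]⟩ ⟨0,[(31,0)]⟩),(.x (-1) ⟨3,[(16,
  0),(0,0),(11,1),(0,3)]⟩ ⟨0,[(31,0)]⟩),.k,.k,⟨false,1,⟨3,[(0,3),(3,1),(4,1),(4,1),(0,0),(2,0),(0,
  0),(15,3)]⟩,⟨0,[(2,0),(16,0),(14,0)]⟩⟩,⟨true,0,⟨0,[(18,0)]⟩,⟨2,[(11,0),(7,2),(1,1),(2,0)]⟩⟩,⟨true,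
  0,⟨0,[(38,0)]⟩,⟨0,[]⟩⟩,⟨false,0,⟨0,[(2,0),(15,0),(0,0),(14,0)]⟩,⟨2,[(3,2),(0,0),(3,0),(11,0),(1,
  0)]⟩⟩,⟨false,0,⟨0,[]⟩,⟨0,[]⟩⟩,⟨false,0,⟨0,[]⟩,⟨0,[]⟩⟩,[.o ⟨false,0,⟨0,[(34,0)]⟩,⟨5,[(4,1),(3,1),
  (7,1),(0,1),(11,0),(6,0)]⟩⟩,.o ⟨false,1,⟨3,[(16,0),(0,0),(16,3),(1,1)]⟩,⟨2,[(4,0),(3,0),(11,0),(1,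
  0)]⟩⟩,.o ⟨false,1,⟨1,[(19,1),(9,0),(5,0)]⟩,⟨6,[(2,1),(1,1),(0,1),(5,0),(4,0),(1,4),(5,0),(4,0)]⟩⟩,
  .a ⟨true,0,⟨0,[(19,0)]⟩,⟨0,[(18,0)]⟩⟩ ⟨false,1,⟨1,[(16,0),(18,0)]⟩,⟨0,[(2,0),(16,0)]⟩⟩ ⟨true,0,⟨0,
  [(18,0),(15,0)]⟩,⟨2,[(4,0),(3,0),(10,2),(0,0),(1,0)]⟩⟩]⟩) (.R ⟨0,false,false,true,[1,0,0,-1],[1,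
  -1],[0,1,0,0,0,0,0,0,-1],(⟨0,[(18,0)]⟩,⟨0,[(19,0)]⟩),(⟨0,[(30,0)]⟩,⟨0,[(31,0)]⟩),⟨0,[(1,0)]⟩,.k,
  .k,(.x (-1) ⟨3,[(16,0),(0,0),(11,1),(0,3)]⟩ ⟨0,[(31,0)]⟩),(.r 0 ⟨5,[(3,5),(0,2),(0,5),(5,1),(3,1),
  (2,5),(1,2)]⟩ ⟨0,[(6,0),(26,0)]⟩),.k,.k,⟨true,0,⟨5,[(3,5),(0,2),(0,5),(5,1),(3,1),(2,5),(1,2)]⟩,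
  ⟨0,[(0,0)]⟩⟩,⟨false,0,⟨6,[(2,1),(1,1),(0,1),(5,0),(4,0),(1,4),(5,0),(4,0)]⟩,⟨0,[(19,0),(15,0)]⟩⟩,
  ⟨true,0,⟨0,[(38,0)]⟩,⟨0,[]⟩⟩,⟨false,0,⟨0,[(2,0),(30,0)]⟩,⟨0,[(3,0),(30,0)]⟩⟩,⟨false,0,⟨0,[]⟩,⟨0,
  []⟩⟩,⟨false,0,⟨0,[]⟩,⟨0,[]⟩⟩,[.o ⟨false,0,⟨2,[(4,0),(3,0),(11,0),(1,0)]⟩,⟨3,[(16,0),(0,0),(16,3),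
  (1,1)]⟩⟩,.o ⟨false,1,⟨5,[(4,1),(3,1),(7,1),(0,1),(11,0),(6,0)]⟩,⟨0,[(34,0)]⟩⟩,.o ⟨false,1,⟨1,[(19,
  1),(9,0),(5,0)]⟩,⟨6,[(2,1),(1,1),(0,1),(5,0),(4,0),(1,4),(5,0),(4,0)]⟩⟩,.a ⟨true,0,⟨0,[(19,0)]⟩,
  ⟨0,[(18,0)]⟩⟩ ⟨false,1,⟨1,[(16,0),(18,0)]⟩,⟨0,[(2,0),(16,0)]⟩⟩ ⟨true,0,⟨2,[(4,0),(3,0),(9,2),(1,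
  0),(1,0)]⟩,⟨0,[(19,0),(14,0)]⟩⟩]⟩)) (.I [0,0,0,1,0,0,0,-1,1] (.R ⟨1,false,false,true,[1,0,0,-1],
  [1,0,-1],[1,1,0,-1,0,0,0,0,-1],(⟨0,[(18,0)]⟩,⟨0,[(19,0)]⟩),(⟨0,[(27,0)]⟩,⟨0,[(28,0)]⟩),⟨0,[(1,
  0)]⟩,.k,.k,(.x (-1) ⟨3,[(16,0),(0,0),(11,1),(0,3)]⟩ ⟨0,[(31,0)]⟩),.k,(.r (-1) ⟨3,[(3,1),(4,1),(5,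
  1),(1,0),(1,1),(7,1),(8,0)]⟩ ⟨1,[(0,1),(23,0),(0,0)]⟩),.k,⟨false,1,⟨3,[(3,1),(4,1),(5,1),(1,0),(1,
  1),(7,1),(8,0)]⟩,⟨0,[(0,0)]⟩⟩,⟨true,0,⟨0,[(18,0),(2,0)]⟩,⟨2,[(11,0),(3,0),(3,2)]⟩⟩,⟨true,0,⟨0,
  [(33,0)]⟩,⟨0,[(34,0)]⟩⟩,⟨false,0,⟨0,[(2,0),(20,0)]⟩,⟨5,[(3,5),(1,0),(2,1),(6,1),(10,2),(8,0)]⟩⟩,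
  ⟨false,0,⟨0,[]⟩,⟨3,[(16,0),(0,0),(18,1)]⟩⟩,⟨false,0,⟨0,[(2,0),(20,0),(10,0)]⟩,⟨0,[(3,0),(5,0)]⟩⟩,
  [.o ⟨false,0,⟨0,[(20,0)]⟩,⟨0,[(22,0),(13,0)]⟩⟩,.o ⟨false,1,⟨1,[(23,1),(5,0),(6,0)]⟩,⟨5,[(5,0),(2,
  1),(6,1),(10,2),(8,0)]⟩⟩,.o ⟨false,1,⟨1,[(19,1),(9,0),(5,0)]⟩,⟨6,[(2,1),(1,1),(0,1),(5,0),(4,0),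
  (1,4),(5,0),(4,0)]⟩⟩,.a ⟨true,0,⟨0,[(19,0)]⟩,⟨0,[(18,0)]⟩⟩ ⟨false,1,⟨2,[(3,0),(0,0),(4,0),(6,0),
  (1,0),(16,0)]⟩,⟨5,[(0,1),(1,0),(2,1),(0,0),(10,0),(1,0),(12,1)]⟩⟩ ⟨true,0,⟨0,[(18,0),(1,0)]⟩,⟨5,
  [(5,0),(2,1),(6,1),(3,5),(6,2),(8,0)]⟩⟩]⟩) (.R ⟨1,false,false,false,[1,0,0,-1],[0,1],[0,1,0,0,0,0,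
  0,0,-1],(⟨0,[(18,0)]⟩,⟨0,[(19,0)]⟩),(⟨0,[(31,0)]⟩,⟨0,[(30,0)]⟩),⟨0,[(1,0)]⟩,.k,.k,(.x (-1) ⟨3,
  [(16,0),(0,0),(11,1),(0,3)]⟩ ⟨0,[(31,0)]⟩),(.x (-1) ⟨3,[(16,0),(0,0),(11,1),(0,3)]⟩ ⟨0,[(31,0)]⟩),
  (.x 0 ⟨0,[(11,0),(9,0),(8,1)]⟩ ⟨3,[(16,0),(0,0),(13,7),(3,1)]⟩),.k,⟨false,1,⟨1,[(0,1),(14,0),(4,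
  0),(2,0),(11,1)]⟩,⟨0,[(2,0),(16,0),(14,0)]⟩⟩,⟨true,0,⟨0,[(18,0)]⟩,⟨2,[(11,0),(7,2),(1,1),(2,0)]⟩⟩,
  ⟨true,0,⟨0,[(38,0)]⟩,⟨0,[]⟩⟩,⟨false,0,⟨0,[(2,0),(15,0),(0,0),(14,0)]⟩,⟨2,[(3,2),(0,0),(3,0),(11,
  0),(1,0)]⟩⟩,⟨false,0,⟨0,[(34,0)]⟩,⟨0,[(33,0),(2,0)]⟩⟩,⟨false,0,⟨0,[(2,0),(15,0),(0,0),(14,1)]⟩,⟨1,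
  [(3,1),(0,0),(3,0),(24,0)]⟩⟩,[.o ⟨false,0,⟨0,[(34,0)]⟩,⟨5,[(4,1),(3,1),(7,1),(0,1),(11,0),(6,
  0)]⟩⟩,.o ⟨false,1,⟨3,[(16,0),(0,0),(16,3),(1,1)]⟩,⟨2,[(4,0),(3,0),(11,0),(1,0)]⟩⟩,.o ⟨false,1,⟨1,
  [(19,1),(9,0),(5,0)]⟩,⟨6,[(2,1),(1,1),(0,1),(5,0),(4,0),(1,4),(5,0),(4,0)]⟩⟩,.a ⟨true,0,⟨0,[(19,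
  0)]⟩,⟨0,[(18,0)]⟩⟩ ⟨false,1,⟨1,[(16,0),(18,0)]⟩,⟨0,[(2,0),(16,0)]⟩⟩ ⟨true,0,⟨0,[(18,0),(15,0)]⟩,
  ⟨2,[(4,0),(3,0),(10,2),(0,0),(1,0)]⟩⟩]⟩)))))) (.Q [0,0,0,0,0,-1,0,0,0,1,0,-1] (.p false [0,0,0,1]
  [1] (⟨0,[(14,0)]⟩,⟨0,[(13,0)]⟩) .k 1 (⟨0,[]⟩,⟨0,[]⟩) .k .k) (.I [0,0,2,2,-1,0,0,0,1] (.I [1,-1,-1,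
  -1,1,0,0,0,-1] (.R ⟨1,false,false,true,[1,0,0,-1],[1,0,-1],[1,0,0,-1,0,0,0,0,-1],(⟨0,[(16,0)]⟩,⟨0,
  [(17,0)]⟩),(⟨0,[(25,0)]⟩,⟨0,[(26,0)]⟩),⟨0,[(2,0)]⟩,.k,.k,(.x (-1) ⟨3,[(14,0),(0,0),(11,1),(0,3)]⟩
  ⟨0,[(29,0)]⟩),.k,(.r (-1) ⟨2,[(0,0),(6,0),(4,0),(1,0),(9,1),(8,0)]⟩ ⟨7,[(1,5),(1,1),(9,2),(1,0),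
  (2,2),(2,2),(12,2)]⟩),.k,⟨false,1,⟨0,[(0,0),(23,0)]⟩,⟨3,[(1,3),(1,1),(9,0),(4,0),(2,0),(11,1),(2,
  1)]⟩⟩,⟨true,0,⟨0,[(16,0),(2,0)]⟩,⟨2,[(9,0),(3,0),(3,2)]⟩⟩,⟨false,1,⟨0,[(31,0),(2,0)]⟩,⟨0,[(32,
  0)]⟩⟩,⟨false,0,⟨4,[(1,1),(2,0),(3,3),(6,0),(0,4),(1,0),(11,1)]⟩,⟨2,[(0,2),(8,0),(3,0),(3,2),(6,2),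
  (7,2)]⟩⟩,⟨true,0,⟨0,[]⟩,⟨0,[(36,0)]⟩⟩,⟨false,0,⟨7,[(1,3),(2,1),(10,0),(0,7),(1,7),(11,1),(3,0)]⟩,
  ⟨2,[(0,2),(8,0),(3,0),(3,2),(6,2)]⟩⟩,[.o ⟨false,0,⟨0,[(18,0)]⟩,⟨0,[(20,0),(13,0)]⟩⟩,.o ⟨false,1,
  ⟨1,[(21,1),(5,0),(6,0)]⟩,⟨2,[(9,0),(3,0),(10,2)]⟩⟩,.o ⟨false,1,⟨1,[(17,1),(9,0),(5,0)]⟩,⟨2,[(9,0),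
  (6,2),(2,1),(2,0)]⟩⟩,.a ⟨true,0,⟨0,[(17,0)]⟩,⟨0,[(16,0)]⟩⟩ ⟨false,1,⟨0,[(0,0)]⟩,⟨7,[(1,3),(12,0),
  (0,2)]⟩⟩ ⟨true,0,⟨0,[(16,0),(1,0)]⟩,⟨2,[(9,0),(3,0),(3,2),(6,2)]⟩⟩]⟩) (.R ⟨1,false,false,false,[1,
  0,0,-1],[1,0,-1],[1,0,0,-1,0,0,0,0,-1],(⟨0,[(16,0)]⟩,⟨0,[(17,0)]⟩),(⟨0,[(25,0)]⟩,⟨0,[(26,0)]⟩),⟨0,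
  [(2,0)]⟩,.k,.k,(.x (-1) ⟨3,[(14,0),(0,0),(11,1),(0,3)]⟩ ⟨0,[(29,0)]⟩),.k,(.r (-1) ⟨1,[(3,0),(10,
  0),(9,2)]⟩ ⟨7,[(1,5),(1,1),(9,2),(1,0),(2,2),(2,2),(12,2)]⟩),.k,⟨false,1,⟨1,[(3,0),(10,0),(9,2)]⟩,
  ⟨0,[(1,0),(1,0),(28,0)]⟩⟩,⟨true,0,⟨0,[(16,0),(2,0)]⟩,⟨2,[(9,0),(3,0),(3,2)]⟩⟩,⟨false,1,⟨0,[(31,0),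
  (2,0)]⟩,⟨0,[(32,0)]⟩⟩,⟨false,0,⟨1,[(0,0),(3,0),(3,0),(7,1),(1,0),(11,1)]⟩,⟨5,[(9,1),(3,1),(0,2),
  (2,5),(6,5),(8,2)]⟩⟩,⟨true,0,⟨0,[]⟩,⟨0,[(36,0)]⟩⟩,⟨false,0,⟨2,[(0,0),(0,0),(2,0),(11,2),(1,2),(11,
  2),(2,0)]⟩,⟨1,[(7,1),(6,0),(2,1),(15,0)]⟩⟩,[.o ⟨false,1,⟨1,[(21,1),(5,0),(6,0)]⟩,⟨2,[(9,0),(3,0),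
  (10,2)]⟩⟩,.o ⟨false,1,⟨0,[(18,0),(15,0)]⟩,⟨0,[(20,0)]⟩⟩,.o ⟨false,1,⟨1,[(17,1),(9,0),(5,0)]⟩,⟨2,
  [(9,0),(6,2),(2,1),(2,0)]⟩⟩,.a ⟨true,0,⟨0,[(17,0)]⟩,⟨0,[(16,0)]⟩⟩ ⟨true,1,⟨1,[(3,0),(10,0),(9,
  0)]⟩,⟨0,[(0,0)]⟩⟩ ⟨false,1,⟨0,[(16,0),(1,0),(15,0)]⟩,⟨2,[(9,0),(3,0),(3,2),(6,2)]⟩⟩]⟩)) (.I [0,-1,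
  1,1,0,0,0,0,1] (.R ⟨1,false,false,false,[1,0,0,-1],[0,1],[1,0,0,-1,0,0,0,0,-1],(⟨0,[(16,0)]⟩,⟨0,
  [(17,0)]⟩),(⟨0,[(29,0)]⟩,⟨0,[(28,0)]⟩),⟨0,[(2,0)]⟩,.k,.k,(.x (-1) ⟨3,[(14,0),(0,0),(11,1),(0,3)]⟩
  ⟨0,[(29,0)]⟩),(.x (-1) ⟨3,[(14,0),(0,0),(11,1),(0,3)]⟩ ⟨0,[(29,0)]⟩),(.x 0 ⟨0,[(9,0),(9,0),(8,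
  1)]⟩ ⟨3,[(14,0),(0,0),(13,7),(3,1)]⟩),.k,⟨false,1,⟨0,[(1,0)]⟩,⟨0,[(0,0),(31,0),(3,0)]⟩⟩,⟨true,0,
  ⟨0,[(16,0)]⟩,⟨2,[(9,0),(7,2),(1,1),(2,0)]⟩⟩,⟨false,1,⟨0,[(31,0),(2,0)]⟩,⟨0,[(32,0)]⟩⟩,⟨false,0,⟨0,
  [(0,0),(15,0)]⟩,⟨5,[(1,3),(7,1),(4,0),(2,5),(1,1),(7,0),(4,1)]⟩⟩,⟨true,0,⟨0,[]⟩,⟨0,[(36,0)]⟩⟩,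
  ⟨false,0,⟨0,[(0,0),(15,0),(15,0)]⟩,⟨6,[(1,4),(4,1),(1,1),(5,0),(2,6),(1,0),(2,0),(4,0),(2,0)]⟩⟩,
  [.o ⟨false,0,⟨0,[(32,0)]⟩,⟨1,[(27,0),(3,1),(2,0)]⟩⟩,.o ⟨false,1,⟨3,[(14,0),(0,0),(16,3),(1,1)]⟩,
  ⟨2,[(6,0),(1,1),(11,0)]⟩⟩,.o ⟨false,1,⟨1,[(17,1),(9,0),(5,0)]⟩,⟨2,[(9,0),(6,2),(2,1),(2,0)]⟩⟩,.a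
  ⟨true,0,⟨0,[(17,0)]⟩,⟨0,[(16,0)]⟩⟩ ⟨false,1,⟨3,[(1,1),(12,0),(15,1),(2,0)]⟩,⟨0,[(0,0),(35,0)]⟩⟩
  ⟨true,0,⟨0,[(16,0),(15,0)]⟩,⟨2,[(6,0),(1,1),(8,2),(2,0)]⟩⟩]⟩) (.Q [0,-1,-1,-1,0,0,1,1,-1,0,-1,1]
  (.p false [0,0,1] [0,0,0,1] (⟨0,[(26,0)]⟩,⟨0,[(25,0)]⟩) .k 2 (⟨0,[(17,0)]⟩,⟨0,[(16,0)]⟩) .k (.r 0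
  ⟨3,[(0,3),(21,0),(0,0),(0,3),(5,1),(1,3)]⟩ ⟨1,[(13,0),(1,0),(2,0),(2,0),(12,0)]⟩)) (.R ⟨1,false,
  false,true,[1,0,0,-1],[1,0,-1],[0,1,0,0,0,0,0,0,-1],(⟨0,[(17,0)]⟩,⟨0,[(18,0)]⟩),(⟨0,[(26,0)]⟩,⟨0,
  [(27,0)]⟩),⟨0,[(3,0)]⟩,.k,.k,(.x (-1) ⟨3,[(15,0),(0,0),(11,1),(0,3)]⟩ ⟨0,[(30,0)]⟩),.k,(.r 0 ⟨0,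
  [(0,0),(16,0),(1,0),(5,0)]⟩ ⟨1,[(16,0),(5,1),(0,1),(9,1),(1,0)]⟩),.k,⟨false,0,⟨0,[(0,0),(16,0),(1,
  0),(5,0),(7,0)]⟩,⟨1,[(14,0),(1,0),(2,0),(2,0),(12,0)]⟩⟩,⟨true,0,⟨0,[(17,0),(2,0)]⟩,⟨2,[(10,0),(3,
  0),(3,2)]⟩⟩,⟨true,0,⟨0,[(37,0)]⟩,⟨0,[]⟩⟩,⟨false,1,⟨5,[(16,2),(0,5),(2,1),(1,5),(0,1),(4,1),(2,1),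
  (3,0)]⟩,⟨0,[(0,0),(32,0)]⟩⟩,⟨false,0,⟨0,[(33,0)]⟩,⟨0,[(32,0),(2,0)]⟩⟩,⟨false,1,⟨5,[(16,2),(0,5),
  (2,1),(1,5),(0,1),(4,1),(2,1),(1,5),(1,0)]⟩,⟨0,[(0,0)]⟩⟩,[.o ⟨false,0,⟨0,[(19,0)]⟩,⟨0,[(21,0),(13,
  0)]⟩⟩,.o ⟨false,1,⟨1,[(22,1),(5,0),(6,0)]⟩,⟨2,[(10,0),(3,0),(10,2)]⟩⟩,.o ⟨false,1,⟨1,[(18,1),(9,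
  0),(5,0)]⟩,⟨2,[(10,0),(6,2),(2,1),(2,0)]⟩⟩,.a ⟨true,0,⟨0,[(18,0)]⟩,⟨0,[(17,0)]⟩⟩ ⟨false,0,⟨0,[(0,
  0),(16,0),(1,0),(13,0)]⟩,⟨1,[(16,0),(6,0),(0,0),(10,0)]⟩⟩ ⟨true,0,⟨0,[(17,0),(1,0)]⟩,⟨2,[(10,0),
  (3,0),(3,2),(6,2)]⟩⟩]⟩) (.K ⟨0,[0,0,0,1],0,0,(⟨0,[(18,0)]⟩,⟨0,[(17,0)]⟩),.k,(.r (-1) ⟨7,[(4,1),(0,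
  1),(2,1),(4,1),(2,2),(17,0)]⟩ ⟨3,[(1,3),(21,2),(0,2),(6,1),(1,7)]⟩),(.x 0 ⟨0,[(30,0)]⟩ ⟨3,[(15,0),
  (0,0),(11,1),(0,3)]⟩),.k,.k,[⟨0,[(18,0)]⟩,⟨0,[(17,0)]⟩,⟨0,[(1,0),(16,0),(14,0)]⟩,⟨0,[(0,0),(7,
  0)]⟩]⟩)))) (.Q [0,-1,-1,0,0,0,1,1,-1,0,-1,1] (.p false [0,0,1] [0,0,0,1] (⟨0,[(24,0)]⟩,⟨0,[(23,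
  0)]⟩) .k 2 (⟨0,[(15,0)]⟩,⟨0,[(14,0)]⟩) .k (.x (-1) ⟨7,[(11,3),(0,0),(0,0),(10,7),(0,1),(5,3)]⟩ ⟨0,
  [(17,0),(5,0)]⟩)) (.R ⟨0,false,false,true,[1,0,0,-1],[1,0,-1],[0,1,0,0,0,0,0,0,-1],(⟨0,[(15,0)]⟩,
  ⟨0,[(16,0)]⟩),(⟨0,[(24,0)]⟩,⟨0,[(25,0)]⟩),⟨0,[(1,0)]⟩,.k,.k,(.x (-1) ⟨3,[(13,0),(0,0),(11,1),(0,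
  3)]⟩ ⟨0,[(28,0)]⟩),.k,.k,.k,⟨false,0,⟨0,[(0,0),(14,0),(1,0),(5,0)]⟩,⟨1,[(12,0),(1,0),(2,0),(2,0),
  (12,0)]⟩⟩,⟨true,0,⟨0,[(15,0),(2,0)]⟩,⟨2,[(8,0),(3,0),(3,2)]⟩⟩,⟨true,0,⟨0,[(35,0)]⟩,⟨0,[]⟩⟩,⟨false,
  1,⟨5,[(14,2),(0,5),(2,1),(1,5),(0,1),(4,1),(2,1),(3,0)]⟩,⟨0,[(0,0)]⟩⟩,⟨false,0,⟨0,[]⟩,⟨0,[]⟩⟩,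
  ⟨false,0,⟨0,[]⟩,⟨0,[]⟩⟩,[.o ⟨false,0,⟨0,[(17,0)]⟩,⟨0,[(19,0),(13,0)]⟩⟩,.o ⟨false,1,⟨1,[(20,1),(5,
  0),(6,0)]⟩,⟨2,[(8,0),(3,0),(10,2)]⟩⟩,.o ⟨false,1,⟨1,[(16,1),(9,0),(5,0)]⟩,⟨2,[(8,0),(6,2),(2,1),
  (2,0)]⟩⟩,.a ⟨true,0,⟨0,[(16,0)]⟩,⟨0,[(15,0)]⟩⟩ ⟨false,0,⟨0,[(0,0),(14,0),(1,0)]⟩,⟨1,[(14,0),(6,0),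
  (0,0),(10,0)]⟩⟩ ⟨true,0,⟨0,[(15,0),(1,0)]⟩,⟨2,[(8,0),(3,0),(3,2),(6,2)]⟩⟩]⟩) (.I [1,0,0,0,0,0,0,0,
  -1] (.Q [0,-1,1,1,0,0,0,0,1,1,0,-1] (.p false [0,0,0,1] [1] (⟨0,[(17,0)]⟩,⟨0,[(16,0)]⟩) .k 1 (⟨0,
  []⟩,⟨0,[]⟩) .k .k) (.R ⟨0,false,false,false,[1,0,0,-1],[0,1],[1,0,0,0,0,0,0,0,-1],(⟨0,[(17,0)]⟩,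
  ⟨0,[(18,0)]⟩),(⟨0,[(30,0)]⟩,⟨0,[(29,0)]⟩),⟨0,[(3,0)]⟩,.k,.k,(.x (-1) ⟨3,[(15,0),(0,0),(11,1),(0,
  3)]⟩ ⟨0,[(30,0)]⟩),(.x (-1) ⟨3,[(15,0),(0,0),(11,1),(0,3)]⟩ ⟨0,[(30,0)]⟩),.k,.k,⟨false,1,⟨1,[(1,
  1),(2,0),(20,0),(8,0)]⟩,⟨1,[(0,0),(1,0),(7,0),(7,1),(6,0),(7,0)]⟩⟩,⟨true,0,⟨0,[(17,0)]⟩,⟨2,[(10,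
  0),(7,2),(1,1),(2,0)]⟩⟩,⟨true,0,⟨0,[]⟩,⟨0,[(37,0)]⟩⟩,⟨false,0,⟨0,[(0,0)]⟩,⟨5,[(1,3),(2,1),(2,1),
  (7,0),(2,5),(1,1),(7,0),(5,1)]⟩⟩,⟨false,0,⟨0,[]⟩,⟨0,[]⟩⟩,⟨false,0,⟨0,[]⟩,⟨0,[]⟩⟩,[.o ⟨false,0,⟨0,
  [(33,0)]⟩,⟨1,[(28,0),(3,1),(2,0)]⟩⟩,.o ⟨false,1,⟨3,[(15,0),(0,0),(16,3),(1,1)]⟩,⟨2,[(7,0),(1,1),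
  (11,0)]⟩⟩,.o ⟨false,1,⟨1,[(18,1),(9,0),(5,0)]⟩,⟨2,[(10,0),(6,2),(2,1),(2,0)]⟩⟩,.a ⟨true,0,⟨0,[(18,
  0)]⟩,⟨0,[(17,0)]⟩⟩ ⟨false,1,⟨1,[(1,1),(32,0),(0,0)]⟩,⟨1,[(0,0),(1,0),(4,0),(10,1)]⟩⟩ ⟨true,0,⟨0,
  [(17,0),(15,0)]⟩,⟨2,[(7,0),(1,1),(8,2),(2,0)]⟩⟩]⟩) (.K ⟨0,[0,0,0,1],0,0,(⟨0,[(18,0)]⟩,⟨0,[(17,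
  0)]⟩),.k,(.r (-1) ⟨7,[(4,1),(0,1),(2,1),(4,1),(2,2),(17,0)]⟩ ⟨1,[(1,1),(21,0),(0,0),(8,1)]⟩),(.x
  0 ⟨0,[(30,0)]⟩ ⟨3,[(15,0),(0,0),(11,1),(0,3)]⟩),.k,.k,[⟨0,[(18,0)]⟩,⟨0,[(17,0)]⟩,⟨0,[(0,0),(16,0),
  (0,0),(14,0)]⟩,⟨2,[(2,2),(4,0),(6,0),(10,1),(7,0)]⟩]⟩)) (.Q [0,1,1,1,-1,0,0,0,1,1,0,-1] (.p false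
  [0,0,0,1] [1] (⟨0,[(17,0)]⟩,⟨0,[(16,0)]⟩) .k 1 (⟨0,[]⟩,⟨0,[]⟩) .k .k) (.Q [0,-1,-1,0,1,0,1,1,-1,0,
  -1,1] (.p false [0,0,1] [0,0,0,1] (⟨0,[(27,0)]⟩,⟨0,[(26,0)]⟩) .k 2 (⟨0,[(18,0)]⟩,⟨0,[(17,0)]⟩) .k
  (.r (-1) ⟨3,[(15,2),(0,0),(8,3)]⟩ ⟨5,[(0,2),(0,2),(2,2),(5,0),(3,0),(3,2),(0,2),(11,2),(1,2)]⟩))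
  (.R ⟨0,false,false,true,[1,0,0,-1],[0,1],[1,0,1],(⟨0,[(18,0)]⟩,⟨0,[(19,0)]⟩),(⟨0,[(31,0)]⟩,⟨0,
  [(30,0)]⟩),⟨0,[(4,0)]⟩,.k,.k,(.x (-1) ⟨3,[(16,0),(0,0),(11,1),(0,3)]⟩ ⟨0,[(31,0)]⟩),(.x (-1) ⟨3,
  [(16,0),(0,0),(11,1),(0,3)]⟩ ⟨0,[(31,0)]⟩),.k,.k,⟨false,1,⟨1,[(5,0),(20,0),(9,0)]⟩,⟨0,[(34,0),(3,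
  0)]⟩⟩,⟨true,0,⟨0,[(18,0)]⟩,⟨2,[(11,0),(7,2),(1,1),(2,0)]⟩⟩,⟨false,0,⟨5,[(1,0),(0,1),(0,0),(4,0),
  (8,0),(1,1),(12,3)]⟩,⟨1,[(16,0),(18,0)]⟩⟩,⟨true,(-1),⟨0,[(1,0)]⟩,⟨0,[(0,0),(9,0)]⟩⟩,⟨false,0,⟨0,
  []⟩,⟨0,[]⟩⟩,⟨false,0,⟨0,[]⟩,⟨0,[]⟩⟩,[.o ⟨false,0,⟨0,[(34,0),(3,0)]⟩,⟨5,[(8,1),(1,1),(18,0),(3,1),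
  (2,4)]⟩⟩,.o ⟨false,0,⟨0,[(34,0)]⟩,⟨1,[(29,0),(3,1),(2,0)]⟩⟩,.o ⟨false,1,⟨1,[(19,1),(9,0),(5,0)]⟩,
  ⟨3,[(1,0),(1,0),(4,0),(2,0),(4,0),(1,1),(2,0),(10,0)]⟩⟩,.a ⟨true,0,⟨0,[(19,0)]⟩,⟨0,[(18,0)]⟩⟩
  ⟨true,0,⟨0,[]⟩,⟨0,[(38,0)]⟩⟩ ⟨false,0,⟨0,[(18,0),(15,0)]⟩,⟨5,[(8,1),(1,1),(8,5),(9,0),(3,1),(2,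
  4)]⟩⟩]⟩) (.K ⟨0,[0,0,0,1],0,(-1),(⟨0,[(19,0)]⟩,⟨0,[(18,0)]⟩),.k,(.x 0 ⟨0,[(21,0),(2,0),(5,0)]⟩ ⟨0,
  [(31,0),(3,0)]⟩),(.x 0 ⟨0,[(31,0)]⟩ ⟨3,[(16,0),(0,0),(11,1),(0,3)]⟩),.k,.k,[⟨0,[(19,0)]⟩,⟨0,[(18,
  0)]⟩,⟨1,[(16,0),(2,1),(15,0),(2,1)]⟩,⟨1,[(0,0),(0,0),(6,0)]⟩]⟩)) (.R ⟨0,false,false,true,[1,0,0,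
  -1],[1,0,-1],[1,0,0,0,0,0,0,0,-1],(⟨0,[(17,0)]⟩,⟨0,[(18,0)]⟩),(⟨0,[(26,0)]⟩,⟨0,[(27,0)]⟩),⟨0,[(3,
  0)]⟩,.k,.k,(.x (-1) ⟨3,[(15,0),(0,0),(11,1),(0,3)]⟩ ⟨0,[(30,0)]⟩),.k,.k,.k,⟨false,1,⟨0,[(0,0),(16,
  0),(7,0),(7,0)]⟩,⟨1,[(1,1),(12,0),(4,0),(2,0)]⟩⟩,⟨true,0,⟨0,[(17,0),(2,0)]⟩,⟨2,[(10,0),(3,0),(3,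
  2)]⟩⟩,⟨true,0,⟨0,[]⟩,⟨0,[(37,0)]⟩⟩,⟨false,0,⟨1,[(1,0),(0,0),(14,0),(1,0),(11,0)]⟩,⟨1,[(0,1),(13,
  0),(2,0),(0,0),(6,1),(7,1)]⟩⟩,⟨false,0,⟨0,[]⟩,⟨0,[]⟩⟩,⟨false,0,⟨0,[]⟩,⟨0,[]⟩⟩,[.o ⟨false,0,⟨0,
  [(19,0)]⟩,⟨0,[(21,0),(13,0)]⟩⟩,.o ⟨false,1,⟨1,[(22,1),(5,0),(6,0)]⟩,⟨2,[(10,0),(3,0),(10,2)]⟩⟩,.o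
  ⟨false,1,⟨1,[(18,1),(9,0),(5,0)]⟩,⟨2,[(10,0),(6,2),(2,1),(2,0)]⟩⟩,.a ⟨true,0,⟨0,[(18,0)]⟩,⟨0,[(17,
  0)]⟩⟩ ⟨false,1,⟨0,[(0,0),(16,0),(15,0)]⟩,⟨1,[(1,1),(21,0),(0,0)]⟩⟩ ⟨true,0,⟨0,[(17,0),(1,0)]⟩,⟨2,
  [(10,0),(3,0),(3,2),(6,2)]⟩⟩]⟩)))))))) (.R ⟨2,false,false,false,[0,1],[0,1,-1],[1,1,1],(⟨0,[]⟩,⟨0,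
  []⟩),(⟨0,[(5,0)]⟩,⟨0,[(20,0),(1,0)]⟩),⟨0,[]⟩,.k,.k,.k,.k,.k,.k,⟨true,0,⟨2,[(1,0),(4,1),(7,0),(3,
  0)]⟩,⟨5,[(0,5),(2,4),(9,0),(2,1),(7,2)]⟩⟩,⟨false,1,⟨0,[(17,0),(9,0)]⟩,⟨0,[(4,0)]⟩⟩,⟨true,0,⟨0,
  [(25,0)]⟩,⟨0,[(26,0)]⟩⟩,⟨false,1,⟨0,[(15,0),(12,0)]⟩,⟨2,[(3,0),(3,0),(10,2)]⟩⟩,⟨false,0,⟨0,[]⟩,⟨3,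
  [(8,0),(0,0),(18,1)]⟩⟩,⟨false,1,⟨1,[(0,1),(20,0),(6,0)]⟩,⟨0,[(1,0)]⟩⟩,[.a ⟨true,0,⟨0,[(0,0)]⟩,⟨0,
  [(1,0)]⟩⟩ ⟨false,0,⟨0,[(30,0)]⟩,⟨1,[(27,0),(0,0)]⟩⟩ ⟨true,0,⟨2,[(0,2),(2,0),(9,1),(2,0)]⟩,⟨0,[(1,
  0)]⟩⟩,.o ⟨false,1,⟨1,[(0,1),(20,0),(6,0)]⟩,⟨1,[(1,0),(0,0),(0,0),(10,0),(3,0)]⟩⟩,.o ⟨false,1,⟨3,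
  [(8,0),(0,0),(17,1)]⟩,⟨2,[(3,0),(9,1),(2,0)]⟩⟩,.e ⟨false,0,⟨0,[]⟩,⟨3,[(8,0),(0,0),(18,1)]⟩⟩
  ⟨false,1,⟨1,[(0,1),(20,0),(6,0)]⟩,⟨0,[(1,0)]⟩⟩]⟩))))))

theorem ok0 : chk (cU (-1) true 10) t0 l0 = true := by decide +kernel

noncomputable def t1 : Tre :=
  (.Q [0,0,0,0,0,1,0,0,0,-1,1] (.ed false [0,1,1] .k) (.Q [0,-1,0,1,0,0,1,1,0,1,-1] (.p false [0,0,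
  1] [1] (⟨0,[(16,0)]⟩,⟨0,[(15,0)]⟩) .k 1 (⟨0,[]⟩,⟨0,[]⟩) .k .k) (.R ⟨2,true,false,true,[0,1],[1,0,
  -1],[1,1,1],(⟨0,[]⟩,⟨0,[]⟩),(⟨0,[(16,0)]⟩,⟨0,[(17,0)]⟩),⟨0,[]⟩,.k,.k,.k,.k,.k,.k,⟨false,0,⟨0,[(15,
  0)]⟩,⟨1,[(4,0),(4,0),(2,0),(11,0),(0,0)]⟩⟩,⟨true,0,⟨0,[(10,0)]⟩,⟨1,[(4,0),(2,0),(0,0)]⟩⟩,⟨true,0,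
  ⟨0,[(22,0)]⟩,⟨0,[(23,0)]⟩⟩,⟨false,1,⟨0,[(9,0),(12,0),(2,0)]⟩,⟨0,[(0,0)]⟩⟩,⟨false,0,⟨0,[]⟩,⟨3,[(5,
  0),(0,0),(18,1)]⟩⟩,⟨true,0,⟨0,[(9,0)]⟩,⟨0,[(0,0),(21,0)]⟩⟩,[]⟩) (.Q [0,0,0,0,0,0,-1,0,0,0,1] (.p
  true [0,0,1] [] (⟨0,[(17,0)]⟩,⟨0,[(16,0)]⟩) .k 0 (⟨0,[]⟩,⟨0,[]⟩) .k .k) (.R ⟨1,false,false,true,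
  [0,0,1],[1,-1],[0,1,0,0,0,0,0,1],(⟨0,[(18,0)]⟩,⟨0,[(17,0)]⟩),(⟨0,[(20,0)]⟩,⟨0,[(21,0)]⟩),⟨0,[(3,
  0)]⟩,.k,.k,.k,.k,.k,.k,⟨false,0,⟨0,[(16,0),(7,0)]⟩,⟨2,[(1,1),(2,0),(0,1),(7,0),(8,0),(2,1),(0,
  0)]⟩⟩,⟨true,0,⟨0,[(11,0)]⟩,⟨1,[(5,0),(2,0),(0,0)]⟩⟩,⟨true,0,⟨0,[(28,0)]⟩,⟨0,[]⟩⟩,⟨true,0,⟨0,[(1,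
  0)]⟩,⟨1,[(5,0),(2,0),(0,0),(6,1),(7,1)]⟩⟩,⟨false,0,⟨0,[(24,0)]⟩,⟨0,[(23,0),(2,0)]⟩⟩,⟨true,0,⟨0,
  [(10,0)]⟩,⟨1,[(5,0),(2,0),(0,0),(6,1)]⟩⟩,[.e ⟨true,0,⟨0,[(16,0),(11,0)]⟩,⟨1,[(5,0),(4,0),(2,0),(8,
  1)]⟩⟩ ⟨true,0,⟨0,[(1,0),(14,0)]⟩,⟨3,[(5,2),(2,0),(0,0),(5,1),(6,1),(1,3)]⟩⟩,.o ⟨false,1,⟨1,[(19,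
  0),(3,1),(2,0)]⟩,⟨0,[(24,0)]⟩⟩,.a ⟨true,0,⟨1,[(5,0),(2,0),(0,0)]⟩,⟨0,[(0,0)]⟩⟩ ⟨false,0,⟨0,[(16,
  0)]⟩,⟨1,[(5,0),(4,0),(2,0),(12,1)]⟩⟩ ⟨true,0,⟨0,[(1,0),(14,0)]⟩,⟨1,[(5,0),(2,0),(0,0),(14,1)]⟩⟩,
  .o ⟨false,0,⟨0,[(14,0)]⟩,⟨0,[(11,0),(13,0)]⟩⟩]⟩) (.Q [0,-1,0,1,0,0,1,1,0,2,-1] (.p false [-1,1,1]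
  [1] (⟨0,[(2,0)]⟩,⟨0,[(17,0),(2,0)]⟩) .k 1 (⟨0,[]⟩,⟨0,[]⟩) .k .k) (.R ⟨0,false,false,true,[1,0,-1],
  [2,-1,-1],[1,0,1],(⟨0,[(18,0)]⟩,⟨0,[(19,0)]⟩),(⟨0,[(18,0),(2,0)]⟩,⟨0,[(3,0)]⟩),⟨0,[(3,0)]⟩,.k,.k,
  .k,.k,.k,.k,⟨false,0,⟨3,[(0,0),(11,1),(0,0),(3,1),(5,1),(1,2)]⟩,⟨1,[(2,1),(3,0),(2,0),(0,0),(15,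
  1)]⟩⟩,⟨true,0,⟨0,[(1,0),(10,0)]⟩,⟨0,[(9,0),(0,0)]⟩⟩,⟨false,0,⟨3,[(15,0),(0,0),(0,3),(5,1)]⟩,⟨1,
  [(6,0),(4,0),(2,0),(11,0),(0,0)]⟩⟩,⟨true,0,⟨0,[(1,0),(0,0),(14,0)]⟩,⟨1,[(0,0),(13,0),(10,0)]⟩⟩,
  ⟨false,0,⟨0,[]⟩,⟨0,[]⟩⟩,⟨false,0,⟨0,[]⟩,⟨0,[]⟩⟩,[.a ⟨true,0,⟨0,[(2,0)]⟩,⟨0,[(0,0)]⟩⟩ ⟨false,0,⟨0,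
  []⟩,⟨3,[(7,0),(0,0),(17,1)]⟩⟩ ⟨true,0,⟨0,[(1,0),(0,0)]⟩,⟨0,[(0,0),(11,0)]⟩⟩,.o ⟨false,1,⟨1,[(2,1),
  (17,0),(6,0)]⟩,⟨1,[(0,0),(12,0),(11,0)]⟩⟩,.o ⟨false,1,⟨3,[(7,0),(0,0),(3,3),(13,1)]⟩,⟨0,[(1,0)]⟩⟩,
  .o ⟨false,0,⟨0,[(12,0)]⟩,⟨7,[(6,3),(0,0),(0,0),(11,1),(5,3)]⟩⟩]⟩) (.Q [0,1,-1,0,0,0,0,0,-1,0,0,1]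
  (.p true [0,0,0,1] [] (⟨0,[(10,0)]⟩,⟨0,[(9,0)]⟩) .k 0 (⟨0,[]⟩,⟨0,[]⟩) .k .k) (.Q [0,1,1,0,0,0,0,0,
  1,0,0,-1] (.p false [0,0,0,1] [] (⟨0,[(11,0)]⟩,⟨0,[(10,0)]⟩) .k 0 (⟨0,[]⟩,⟨0,[]⟩) .k .k) (.K ⟨0,
  [0,0,0,1],0,0,(⟨0,[(12,0)]⟩,⟨0,[(11,0)]⟩),.k,(.x 0 ⟨0,[(14,0),(2,0),(5,0)]⟩ ⟨0,[(24,0),(3,0)]⟩),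
  (.x 0 ⟨0,[(24,0)]⟩ ⟨3,[(9,0),(0,0),(11,1),(0,3)]⟩),.k,.k,[⟨0,[(12,0)]⟩,⟨0,[(11,0)]⟩,⟨0,[(1,0)]⟩,
  ⟨0,[(0,0)]⟩]⟩) (.Q [0,0,0,0,0,1,0,0,0,-1,0,1] (.p true [0,0,0,1] [1] (⟨0,[(12,0)]⟩,⟨0,[(11,0)]⟩)
  .k 1 (⟨0,[]⟩,⟨0,[]⟩) .k .k) (.R ⟨0,false,false,true,[1,0,0,-1],[1,0,-1],[0,1,0,0,0,0,0,0,-1],(⟨0,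
  [(12,0)]⟩,⟨0,[(13,0)]⟩),(⟨0,[(21,0)]⟩,⟨0,[(22,0)]⟩),⟨0,[(0,0)]⟩,.k,.k,(.x (-1) ⟨3,[(10,0),(0,0),
  (11,1),(0,3)]⟩ ⟨0,[(25,0)]⟩),.k,.k,.k,⟨false,0,⟨1,[(1,1),(1,0),(8,1),(3,0),(3,1),(7,0)]⟩,⟨1,[(9,
  0),(1,0),(2,0),(2,0),(12,0)]⟩⟩,⟨true,0,⟨0,[(12,0),(2,0)]⟩,⟨0,[(4,0),(8,0)]⟩⟩,⟨true,0,⟨0,[(32,0)]⟩,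
  ⟨0,[]⟩⟩,⟨false,1,⟨5,[(11,2),(0,5),(2,1),(1,5),(0,1),(4,1),(2,1),(3,0)]⟩,⟨0,[(1,0),(2,0),(15,0)]⟩⟩,
  ⟨false,0,⟨0,[]⟩,⟨0,[]⟩⟩,⟨false,0,⟨0,[]⟩,⟨0,[]⟩⟩,[.o ⟨false,0,⟨0,[(14,0)]⟩,⟨0,[(16,0),(13,0)]⟩⟩,.o
  ⟨false,1,⟨1,[(17,1),(5,0),(6,0)]⟩,⟨0,[(4,0),(15,0)]⟩⟩,.o ⟨false,1,⟨1,[(1,0),(0,0),(8,0),(11,0)]⟩,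
  ⟨2,[(3,0),(8,2),(2,0),(0,0),(1,0),(7,0),(1,0)]⟩⟩,.a ⟨true,0,⟨0,[(13,0)]⟩,⟨0,[(12,0)]⟩⟩ ⟨false,0,
  ⟨1,[(1,1),(1,0),(8,1),(3,0),(11,0)]⟩,⟨1,[(11,0),(6,0),(0,0),(10,0)]⟩⟩ ⟨true,0,⟨0,[(12,0),(1,0)]⟩,
  ⟨0,[(4,0),(8,0),(6,0)]⟩⟩]⟩) (.I [1,-1,-1,-1,0,0,0,1,-1] (.R ⟨1,false,false,true,[1,0,0,-1],[1,0,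
  -1],[0,1,0,0,0,0,0,0,-1],(⟨0,[(13,0)]⟩,⟨0,[(14,0)]⟩),(⟨0,[(22,0)]⟩,⟨0,[(23,0)]⟩),⟨0,[(1,0)]⟩,.k,
  .k,(.x (-1) ⟨3,[(11,0),(0,0),(11,1),(0,3)]⟩ ⟨0,[(26,0)]⟩),.k,(.r 0 ⟨7,[(0,5),(2,1),(0,0),(4,0),(3,
  1),(3,1),(3,0)]⟩ ⟨1,[(12,0),(5,1),(0,1),(9,1),(1,0)]⟩),.k,⟨false,0,⟨3,[(0,2),(2,0),(9,0),(1,0),(1,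
  0),(3,0),(7,2)]⟩,⟨1,[(10,0),(1,0),(2,0),(2,0),(12,0)]⟩⟩,⟨true,0,⟨0,[(13,0),(2,0)]⟩,⟨0,[(5,0),(8,
  0)]⟩⟩,⟨true,0,⟨0,[(33,0)]⟩,⟨0,[]⟩⟩,⟨false,1,⟨5,[(12,2),(0,5),(2,1),(1,5),(0,1),(4,1),(2,1),(3,
  0)]⟩,⟨0,[(2,0),(2,0),(15,0)]⟩⟩,⟨false,0,⟨0,[(29,0)]⟩,⟨0,[(28,0),(2,0)]⟩⟩,⟨false,1,⟨5,[(12,2),(0,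
  5),(2,1),(1,5),(0,1),(4,1),(2,1),(1,5),(1,0)]⟩,⟨0,[(0,0),(4,0),(8,0)]⟩⟩,[.o ⟨false,0,⟨0,[(15,0)]⟩,
  ⟨0,[(17,0),(13,0)]⟩⟩,.o ⟨false,1,⟨1,[(18,1),(5,0),(6,0)]⟩,⟨0,[(5,0),(15,0)]⟩⟩,.o ⟨false,1,⟨1,[(2,
  0),(0,0),(8,0),(11,0)]⟩,⟨2,[(4,0),(8,2),(2,0),(0,0),(1,0),(7,0),(1,0)]⟩⟩,.a ⟨true,0,⟨0,[(14,0)]⟩,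
  ⟨0,[(13,0)]⟩⟩ ⟨false,0,⟨2,[(0,0),(1,0),(0,0),(0,0),(0,0),(7,1),(15,1)]⟩,⟨1,[(12,0),(6,0),(0,0),
  (10,0)]⟩⟩ ⟨true,0,⟨0,[(13,0),(1,0)]⟩,⟨0,[(5,0),(8,0),(6,0)]⟩⟩]⟩) (.R ⟨1,false,false,false,[1,0,0,
  -1],[1,0,-1],[1,0,0,-1,0,0,0,0,-1],(⟨0,[(13,0)]⟩,⟨0,[(14,0)]⟩),(⟨0,[(22,0)]⟩,⟨0,[(23,0)]⟩),⟨0,[(1,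
  0)]⟩,.k,.k,(.x (-1) ⟨3,[(11,0),(0,0),(11,1),(0,3)]⟩ ⟨0,[(26,0)]⟩),.k,(.r 0 ⟨2,[(2,2),(1,1),(5,0),
  (2,2),(7,4),(6,0)]⟩ ⟨3,[(0,3),(10,0),(0,0),(18,1)]⟩),.k,⟨false,0,⟨2,[(2,2),(1,1),(5,0),(2,2),(7,
  4),(6,0)]⟩,⟨1,[(0,1),(29,0),(0,0)]⟩⟩,⟨true,0,⟨0,[(13,0),(2,0)]⟩,⟨0,[(5,0),(8,0)]⟩⟩,⟨false,1,⟨0,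
  [(28,0),(2,0)]⟩,⟨0,[(29,0)]⟩⟩,⟨false,1,⟨2,[(0,0),(3,0),(7,0),(0,2),(2,0),(1,0),(8,0),(3,1)]⟩,⟨0,
  [(2,0),(14,0)]⟩⟩,⟨true,0,⟨0,[]⟩,⟨0,[(33,0)]⟩⟩,⟨false,1,⟨2,[(0,0),(11,0),(0,2),(1,1),(0,0),(10,0),
  (1,1),(1,1)]⟩,⟨2,[(2,2),(1,0),(5,1),(10,3),(6,1)]⟩⟩,[.o ⟨false,1,⟨1,[(18,1),(5,0),(6,0)]⟩,⟨0,[(5,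
  0),(15,0)]⟩⟩,.o ⟨false,1,⟨0,[(15,0),(15,0)]⟩,⟨0,[(17,0)]⟩⟩,.o ⟨false,1,⟨1,[(2,0),(0,0),(8,0),(11,
  0)]⟩,⟨2,[(4,0),(8,2),(2,0),(0,0),(1,0),(7,0),(1,0)]⟩⟩,.a ⟨true,0,⟨0,[(14,0)]⟩,⟨0,[(13,0)]⟩⟩ ⟨true,
  0,⟨2,[(2,2),(1,1),(5,0),(2,2),(7,1),(6,0)]⟩,⟨0,[(0,0),(20,0)]⟩⟩ ⟨false,1,⟨0,[(13,0),(1,0),(15,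
  0)]⟩,⟨0,[(5,0),(8,0),(6,0)]⟩⟩]⟩)))) (.Q [0,0,-1,-1,1,0,-1,-1,-1,-2,1,1] (.p true [-1,1,1] [1,0,0,
  -1] (⟨0,[(4,0)]⟩,⟨0,[(19,0),(2,0)]⟩) .k 2 (⟨0,[(10,0)]⟩,⟨0,[(11,0)]⟩) .k (.x 0 ⟨0,[(16,0),(3,0)]⟩
  ⟨0,[(13,0),(5,0),(7,0)]⟩)) (.Q [0,0,0,0,0,1,0,0,0,-1,0,1] (.p true [0,0,0,1] [1] (⟨0,[(12,0)]⟩,⟨0,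
  [(11,0)]⟩) .k 1 (⟨0,[]⟩,⟨0,[]⟩) .k .k) (.I [0,1,-2,-1,1,0,0,0,-1] (.R ⟨0,false,false,false,[1,0,0,
  -1],[0,1],[0,1,0,0,0,0,0,0,-1],(⟨0,[(13,0)]⟩,⟨0,[(14,0)]⟩),(⟨0,[(26,0)]⟩,⟨0,[(25,0)]⟩),⟨0,[(1,
  0)]⟩,.k,.k,(.x (-1) ⟨3,[(11,0),(0,0),(11,1),(0,3)]⟩ ⟨0,[(26,0)]⟩),(.x (-1) ⟨3,[(11,0),(0,0),(11,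
  1),(0,3)]⟩ ⟨0,[(26,0)]⟩),.k,.k,⟨false,1,⟨0,[(0,0)]⟩,⟨0,[(3,0),(10,0),(14,0)]⟩⟩,⟨true,0,⟨0,[(13,
  0)]⟩,⟨2,[(4,0),(9,2),(1,0),(0,0),(1,0),(7,0),(1,0)]⟩⟩,⟨true,0,⟨0,[(33,0)]⟩,⟨0,[]⟩⟩,⟨false,0,⟨0,
  [(3,0),(9,0),(0,0),(14,0)]⟩,⟨17,[(0,3),(1,11),(7,5),(0,0),(2,5),(6,11),(5,1),(0,1),(2,0)]⟩⟩,
  ⟨false,0,⟨0,[]⟩,⟨0,[]⟩⟩,⟨false,0,⟨0,[]⟩,⟨0,[]⟩⟩,[.o ⟨false,0,⟨0,[(29,0)]⟩,⟨1,[(24,0),(3,1),(2,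
  0)]⟩⟩,.o ⟨false,1,⟨3,[(11,0),(0,0),(16,3),(1,1)]⟩,⟨2,[(4,1),(5,0),(10,1),(6,0)]⟩⟩,.o ⟨false,1,⟨1,
  [(14,1),(9,0),(5,0)]⟩,⟨2,[(4,0),(8,2),(2,0),(0,0),(1,0),(7,0),(1,0)]⟩⟩,.a ⟨true,0,⟨0,[(14,0)]⟩,⟨0,
  [(13,0)]⟩⟩ ⟨false,1,⟨1,[(11,0),(18,0)]⟩,⟨0,[(3,0),(10,0)]⟩⟩ ⟨true,0,⟨0,[(13,0),(15,0)]⟩,⟨2,[(4,1),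
  (5,0),(3,2),(6,1),(6,0)]⟩⟩]⟩) (.Q [0,-1,-1,-1,1,0,1,1,-1,0,-1,1] (.p false [0,0,1] [0,0,0,1] (⟨0,
  [(23,0)]⟩,⟨0,[(22,0)]⟩) .k 2 (⟨0,[(14,0)]⟩,⟨0,[(13,0)]⟩) .k (.r (-1) ⟨3,[(11,2),(0,0),(8,3)]⟩ ⟨1,
  [(0,1),(5,1),(3,0),(2,0),(0,0),(15,1)]⟩)) (.R ⟨0,false,false,true,[1,0,0,-1],[1,0,-1],[0,1,0,0,0,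
  0,0,0,-1],(⟨0,[(14,0)]⟩,⟨0,[(15,0)]⟩),(⟨0,[(23,0)]⟩,⟨0,[(24,0)]⟩),⟨0,[(2,0)]⟩,.k,.k,(.x (-1) ⟨3,
  [(12,0),(0,0),(11,1),(0,3)]⟩ ⟨0,[(27,0)]⟩),.k,.k,.k,⟨false,1,⟨1,[(12,0),(9,1),(8,0)]⟩,⟨1,[(1,1),
  (5,1),(3,0),(2,0),(0,0),(15,1)]⟩⟩,⟨true,0,⟨0,[(14,0),(2,0)]⟩,⟨0,[(6,0),(8,0)]⟩⟩,⟨true,0,⟨0,[(34,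
  0)]⟩,⟨0,[]⟩⟩,⟨false,0,⟨0,[(4,0),(14,0)]⟩,⟨0,[(0,0),(29,0)]⟩⟩,⟨false,0,⟨0,[]⟩,⟨0,[]⟩⟩,⟨false,0,⟨0,
  []⟩,⟨0,[]⟩⟩,[.o ⟨false,0,⟨0,[(16,0)]⟩,⟨0,[(18,0),(13,0)]⟩⟩,.o ⟨false,1,⟨1,[(19,1),(5,0),(6,0)]⟩,
  ⟨0,[(6,0),(15,0)]⟩⟩,.o ⟨false,1,⟨1,[(15,1),(9,0),(5,0)]⟩,⟨2,[(1,0),(2,0),(0,0),(6,0),(1,1),(3,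
  0)]⟩⟩,.a ⟨true,0,⟨0,[(15,0)]⟩,⟨0,[(14,0)]⟩⟩ ⟨false,1,⟨1,[(12,0),(18,0)]⟩,⟨0,[(4,0),(10,0)]⟩⟩
  ⟨true,0,⟨0,[(14,0),(1,0)]⟩,⟨0,[(6,0),(8,0),(6,0)]⟩⟩]⟩) (.R ⟨0,false,false,true,[1,0,0,-1],[0,1],
  [1,0,1],(⟨0,[(14,0)]⟩,⟨0,[(15,0)]⟩),(⟨0,[(27,0)]⟩,⟨0,[(26,0)]⟩),⟨0,[(2,0)]⟩,.k,.k,(.x (-1) ⟨3,
  [(12,0),(0,0),(11,1),(0,3)]⟩ ⟨0,[(27,0)]⟩),(.x (-1) ⟨3,[(12,0),(0,0),(11,1),(0,3)]⟩ ⟨0,[(27,0)]⟩),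
  .k,.k,⟨false,1,⟨0,[(28,0),(0,0),(1,0)]⟩,⟨0,[(30,0),(3,0)]⟩⟩,⟨true,0,⟨0,[(14,0)]⟩,⟨2,[(1,0),(1,0),
  (11,1),(1,0),(0,0),(1,0)]⟩⟩,⟨false,0,⟨0,[(4,0),(10,0)]⟩,⟨1,[(12,0),(18,0)]⟩⟩,⟨true,(-1),⟨1,[(0,1),
  (10,0),(2,0),(0,0),(6,1)]⟩,⟨1,[(3,1),(7,0),(2,0),(0,0),(6,1)]⟩⟩,⟨false,0,⟨0,[]⟩,⟨0,[]⟩⟩,⟨false,0,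
  ⟨0,[]⟩,⟨0,[]⟩⟩,[.o ⟨false,0,⟨0,[(30,0),(3,0)]⟩,⟨2,[(3,1),(0,1),(6,0),(10,1),(6,0),(2,0)]⟩⟩,.o
  ⟨false,0,⟨0,[(30,0)]⟩,⟨1,[(25,0),(3,1),(2,0)]⟩⟩,.o ⟨false,1,⟨1,[(15,1),(9,0),(5,0)]⟩,⟨2,[(1,0),(2,
  0),(0,0),(6,0),(1,1),(3,0)]⟩⟩,.a ⟨true,0,⟨0,[(15,0)]⟩,⟨0,[(14,0)]⟩⟩ ⟨true,0,⟨0,[]⟩,⟨0,[(34,0)]⟩⟩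
  ⟨false,0,⟨0,[(14,0),(15,0)]⟩,⟨2,[(3,1),(7,0),(1,0),(1,0),(6,1),(5,1),(0,0)]⟩⟩]⟩))) (.I [0,1,-2,-1,
  1,0,0,-1,-1] (.R ⟨1,false,false,false,[1,0,0,-1],[-1,1,1],[0,1,0,0,0,0,0,0,-1],(⟨0,[(13,0)]⟩,⟨0,
  [(14,0)]⟩),(⟨0,[(7,0)]⟩,⟨0,[(22,0),(2,0)]⟩),⟨0,[(1,0)]⟩,.k,.k,(.x (-1) ⟨3,[(11,0),(0,0),(11,1),(0,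
  3)]⟩ ⟨0,[(26,0)]⟩),(.r (-1) ⟨6,[(0,4),(5,0),(3,0),(0,0),(6,0),(8,2),(0,0),(2,0)]⟩ ⟨0,[(3,0),(10,
  0),(6,0),(7,0),(3,0)]⟩),(.x 0 ⟨1,[(4,2),(12,0),(3,1),(0,1),(2,3),(1,1),(1,2)]⟩ ⟨3,[(7,1),(2,1),(0,
  0),(0,0),(10,1),(2,5),(3,1)]⟩),.k,⟨false,1,⟨0,[(0,0)]⟩,⟨0,[(3,0),(10,0),(6,0),(7,0)]⟩⟩,⟨true,0,⟨1,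
  [(10,0),(2,2),(0,0)]⟩,⟨3,[(4,2),(9,3),(1,1),(0,0),(3,1),(5,1),(1,2)]⟩⟩,⟨true,0,⟨0,[(33,0)]⟩,⟨0,
  []⟩⟩,⟨false,0,⟨1,[(3,1),(6,0),(2,2),(0,2),(6,1),(7,1)]⟩,⟨0,[(2,0)]⟩⟩,⟨false,0,⟨0,[(29,0)]⟩,⟨0,
  [(28,0),(2,0)]⟩⟩,⟨false,0,⟨1,[(3,1),(6,0),(2,2),(0,2),(6,1),(7,3)]⟩,⟨0,[(0,0),(3,0),(9,0),(6,0),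
  (5,0)]⟩⟩,[.o ⟨false,0,⟨1,[(10,0),(2,0),(0,0),(6,1),(7,1)]⟩,⟨1,[(6,1),(17,0),(6,0)]⟩⟩,.o ⟨false,1,
  ⟨3,[(10,1),(0,0),(0,0),(0,1),(0,1),(6,3),(7,3),(1,1)]⟩,⟨0,[(4,0)]⟩⟩,.o ⟨false,1,⟨1,[(14,1),(9,0),
  (5,0)]⟩,⟨2,[(4,0),(8,2),(2,0),(0,0),(1,0),(7,0),(1,0)]⟩⟩,.a ⟨true,0,⟨0,[(14,0)]⟩,⟨0,[(13,0)]⟩⟩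
  ⟨false,1,⟨1,[(11,0),(18,0)]⟩,⟨0,[(3,0),(10,0)]⟩⟩ ⟨true,0,⟨1,[(10,0),(2,2),(0,0),(6,1),(7,1)]⟩,⟨0,
  [(4,0),(9,0)]⟩⟩]⟩) (.I [1,1,1,0,-1,0,0,0,1] (.R ⟨1,false,false,true,[1,0,0,-1],[0,0,1],[0,0,0,0,0,
  0,0,0,-1],(⟨0,[(14,0)]⟩,⟨0,[(15,0)]⟩),(⟨0,[(24,0)]⟩,⟨0,[(23,0)]⟩),⟨0,[(2,0)]⟩,.k,.k,(.x (-1) ⟨3,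
  [(12,0),(0,0),(11,1),(0,3)]⟩ ⟨0,[(27,0)]⟩),.k,(.r (-1) ⟨1,[(3,1),(7,0),(2,2),(0,0)]⟩ ⟨2,[(1,0),
  (11,0),(4,0),(2,0),(0,0),(7,1)]⟩),.k,⟨true,1,⟨3,[(3,1),(7,1),(0,0),(1,1),(4,1),(8,1),(1,1),(1,
  0)]⟩,⟨0,[(0,0),(21,0)]⟩⟩,⟨false,0,⟨0,[(6,0),(7,0)]⟩,⟨0,[(15,0),(1,0),(13,0)]⟩⟩,⟨false,1,⟨3,[(12,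
  0),(0,0),(18,1)]⟩,⟨0,[]⟩⟩,⟨true,(-1),⟨0,[(0,0),(5,0),(7,0),(7,0)]⟩,⟨0,[(3,0),(10,0),(0,0),(14,
  0)]⟩⟩,⟨true,0,⟨0,[(30,0)]⟩,⟨0,[(29,0)]⟩⟩,⟨true,(-1),⟨0,[(0,0),(5,0),(7,0),(7,0),(7,0)]⟩,⟨0,[(3,0),
  (10,0),(0,0)]⟩⟩,[.o ⟨false,0,⟨0,[(18,0)]⟩,⟨0,[(16,0),(15,0)]⟩⟩,.o ⟨false,0,⟨0,[(6,0),(15,0)]⟩,⟨1,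
  [(19,1),(5,0),(6,0)]⟩⟩,.o ⟨false,1,⟨1,[(15,1),(9,0),(5,0)]⟩,⟨5,[(1,1),(3,1),(6,0),(1,5),(5,1),(4,
  0)]⟩⟩,.a ⟨true,0,⟨0,[(15,0)]⟩,⟨0,[(14,0)]⟩⟩ ⟨true,1,⟨1,[(12,0),(18,0)]⟩,⟨0,[(0,0)]⟩⟩ ⟨false,0,⟨0,
  [(6,0),(7,0),(7,0)]⟩,⟨3,[(3,1),(9,0),(1,1),(3,1),(8,1),(1,1),(1,0)]⟩⟩]⟩) (.Q [0,-1,-1,-1,1,0,1,1,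
  -1,0,-1,1] (.p false [0,0,1] [0,0,0,1] (⟨0,[(24,0)]⟩,⟨0,[(23,0)]⟩) .k 2 (⟨0,[(15,0)]⟩,⟨0,[(14,
  0)]⟩) .k (.x (-1) ⟨7,[(11,3),(0,0),(0,0),(10,7),(0,1),(5,3)]⟩ ⟨0,[(17,0),(5,0)]⟩)) (.R ⟨1,false,
  false,true,[1,0,0,-1],[1,0,-1],[0,0,0,0,0,0,0,0,-1],(⟨0,[(15,0)]⟩,⟨0,[(16,0)]⟩),(⟨0,[(24,0)]⟩,⟨0,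
  [(25,0)]⟩),⟨0,[(3,0)]⟩,.k,.k,(.x (-1) ⟨3,[(13,0),(0,0),(11,1),(0,3)]⟩ ⟨0,[(28,0)]⟩),.k,(.r (-1)
  ⟨3,[(0,1),(5,0),(4,0),(1,0),(1,1),(7,2),(8,0)]⟩ ⟨1,[(5,1),(6,0),(3,1),(0,0),(2,0),(10,1)]⟩),.k,
  ⟨false,1,⟨0,[(1,0),(21,0)]⟩,⟨0,[(2,0),(5,0),(3,0),(7,0),(11,0)]⟩⟩,⟨true,0,⟨0,[(15,0),(2,0)]⟩,⟨0,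
  [(7,0),(8,0)]⟩⟩,⟨false,1,⟨3,[(13,0),(0,0),(18,1)]⟩,⟨0,[]⟩⟩,⟨false,0,⟨0,[(5,0),(14,0)]⟩,⟨0,[(0,0),
  (30,0)]⟩⟩,⟨true,0,⟨0,[(31,0)]⟩,⟨0,[(30,0)]⟩⟩,⟨false,0,⟨0,[(5,0),(14,0),(10,0)]⟩,⟨0,[(0,0)]⟩⟩,[.o
  ⟨false,0,⟨0,[(17,0)]⟩,⟨0,[(19,0),(13,0)]⟩⟩,.o ⟨false,1,⟨1,[(20,1),(5,0),(6,0)]⟩,⟨0,[(7,0),(15,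
  0)]⟩⟩,.o ⟨false,1,⟨1,[(16,1),(9,0),(5,0)]⟩,⟨5,[(2,1),(3,1),(6,0),(1,5),(5,1),(4,0)]⟩⟩,.a ⟨true,0,
  ⟨0,[(16,0)]⟩,⟨0,[(15,0)]⟩⟩ ⟨false,1,⟨0,[(1,0)]⟩,⟨14,[(2,4),(5,0),(3,0),(1,4),(5,3),(0,2),(7,1),(0,
  3)]⟩⟩ ⟨true,0,⟨0,[(15,0),(1,0)]⟩,⟨0,[(7,0),(8,0),(6,0)]⟩⟩]⟩) (.R ⟨2,true,false,true,[0,1],[0,0,1],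
  [0,0,1,1],(⟨0,[]⟩,⟨0,[]⟩),(⟨0,[(25,0)]⟩,⟨0,[(24,0)]⟩),⟨0,[]⟩,.k,.k,.k,.k,.k,.k,⟨true,0,⟨8,[(0,1),
  (3,1),(7,3),(7,4),(0,0),(7,7),(1,8)]⟩,⟨0,[(23,0),(6,0)]⟩⟩,⟨false,0,⟨0,[(7,0)]⟩,⟨0,[(22,0),(9,
  0)]⟩⟩,⟨false,1,⟨3,[(13,0),(0,0),(18,1)]⟩,⟨0,[]⟩⟩,⟨true,0,⟨2,[(6,0),(5,1),(10,3),(6,1)]⟩,⟨0,[(0,0),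
  (0,0),(14,0)]⟩⟩,⟨true,0,⟨0,[(31,0)]⟩,⟨0,[(30,0)]⟩⟩,⟨false,0,⟨0,[(7,0),(15,0)]⟩,⟨0,[(20,0),(12,
  0)]⟩⟩,[]⟩))))) (.K ⟨0,[0,0,0,1],0,(-1),(⟨0,[(12,0)]⟩,⟨0,[(11,0)]⟩),.k,(.x 0 ⟨0,[(14,0),(2,0),(5,
  0)]⟩ ⟨0,[(24,0),(3,0)]⟩),(.x 0 ⟨0,[(24,0)]⟩ ⟨3,[(9,0),(0,0),(11,1),(0,3)]⟩),.k,.k,[⟨0,[(12,0)]⟩,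
  ⟨0,[(11,0)]⟩,⟨1,[(9,0),(2,1),(15,0),(2,1)]⟩,⟨0,[(0,0),(1,0)]⟩]⟩)))))) (.Q [0,0,0,0,0,0,-1,0,0,0,
  1] (.p true [0,0,1] [] (⟨0,[(16,0)]⟩,⟨0,[(15,0)]⟩) .k 0 (⟨0,[]⟩,⟨0,[]⟩) .k .k) (.R ⟨1,false,false,
  false,[0,0,1],[1,-1],[0,0,0,0,0,0,0,1],(⟨0,[(17,0)]⟩,⟨0,[(16,0)]⟩),(⟨0,[(19,0)]⟩,⟨0,[(20,0)]⟩),⟨0,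
  [(2,0)]⟩,.k,.k,.k,.k,.k,.k,⟨false,0,⟨0,[(15,0),(7,0)]⟩,⟨1,[(4,0),(4,0),(2,0),(8,1),(0,1),(1,1)]⟩⟩,
  ⟨true,0,⟨0,[(10,0)]⟩,⟨1,[(4,0),(2,0),(0,0)]⟩⟩,⟨false,1,⟨3,[(5,0),(0,0),(18,1)]⟩,⟨0,[]⟩⟩,⟨false,1,
  ⟨1,[(9,1),(11,1),(0,1),(1,0),(0,0)]⟩,⟨1,[(4,0),(2,0),(0,0),(6,1),(7,1)]⟩⟩,⟨true,0,⟨0,[(23,0)]⟩,⟨0,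
  [(22,0)]⟩⟩,⟨false,1,⟨0,[(9,0),(15,0)]⟩,⟨1,[(4,0),(2,0),(0,0),(6,1)]⟩⟩,[.o ⟨false,1,⟨1,[(18,0),(3,
  1),(2,0)]⟩,⟨0,[(23,0)]⟩⟩,.o ⟨false,1,⟨1,[(18,0),(2,1),(0,1),(1,0)]⟩,⟨0,[(23,0),(3,0)]⟩⟩,.a ⟨true,
  0,⟨1,[(4,0),(2,0),(0,0)]⟩,⟨0,[(0,0)]⟩⟩ ⟨true,0,⟨0,[(15,0)]⟩,⟨1,[(4,0),(4,0),(2,0)]⟩⟩ ⟨false,1,⟨1,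
  [(3,1),(14,0),(2,1),(2,0)]⟩,⟨1,[(4,0),(2,0),(0,0),(14,1)]⟩⟩,.o ⟨false,0,⟨0,[(13,0)]⟩,⟨1,[(0,1),
  (17,0),(5,0)]⟩⟩]⟩) (.Q [0,-1,0,1,0,0,1,1,0,1,-1] (.p false [0,0,1] [1] (⟨0,[(17,0)]⟩,⟨0,[(16,
  0)]⟩) .k 1 (⟨0,[]⟩,⟨0,[]⟩) .k .k) (.R ⟨2,true,false,true,[0,1],[1,0,-1],[1,1,1],(⟨0,[]⟩,⟨0,[]⟩),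
  (⟨0,[(17,0)]⟩,⟨0,[(18,0)]⟩),⟨0,[]⟩,.k,.k,.k,.k,.k,.k,⟨false,0,⟨0,[(16,0)]⟩,⟨1,[(5,0),(4,0),(2,0),
  (11,0),(0,0)]⟩⟩,⟨true,0,⟨0,[(11,0)]⟩,⟨1,[(5,0),(2,0),(0,0)]⟩⟩,⟨true,0,⟨0,[(23,0)]⟩,⟨0,[(24,0)]⟩⟩,
  ⟨false,1,⟨0,[(10,0),(12,0),(2,0)]⟩,⟨0,[(0,0)]⟩⟩,⟨false,0,⟨0,[]⟩,⟨3,[(6,0),(0,0),(18,1)]⟩⟩,⟨true,0,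
  ⟨0,[(10,0)]⟩,⟨0,[(0,0),(22,0)]⟩⟩,[]⟩) (.I [1,1,1,0,-1,0,0,0,-1] (.Q [0,1,1,0,0,0,0,0,1,0,0,-1]
  (.p false [0,0,0,1] [] (⟨0,[(10,0)]⟩,⟨0,[(9,0)]⟩) .k 0 (⟨0,[]⟩,⟨0,[]⟩) .k .k) (.K ⟨0,[0,0,0,1],0,
  0,(⟨0,[(11,0)]⟩,⟨0,[(10,0)]⟩),.k,(.x 0 ⟨1,[(4,0),(0,0),(7,0),(2,1),(0,0)]⟩ ⟨0,[(23,0),(3,0)]⟩),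
  (.x 0 ⟨0,[(23,0)]⟩ ⟨7,[(4,3),(0,3),(2,2),(0,2),(11,1)]⟩),.k,.k,[⟨0,[(11,0)]⟩,⟨0,[(10,0)]⟩,⟨0,[(1,
  0),(9,0),(15,0)]⟩,⟨0,[(0,0)]⟩]⟩) (.R ⟨1,false,false,true,[1,0,-1],[0,0,0,1],[0,0,0,0,0,0,0,-1],
  (⟨0,[(19,0)]⟩,⟨0,[(20,0)]⟩),(⟨0,[(11,0)]⟩,⟨0,[(10,0)]⟩),⟨0,[(4,0)]⟩,.k,.k,.k,.k,(.r 0 ⟨0,[(0,0),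
  (1,0),(0,0),(6,0)]⟩ ⟨3,[(8,0),(0,2),(6,1),(0,1),(0,3),(7,3)]⟩),.k,⟨true,0,⟨11,[(0,8),(0,0),(1,5),
  (3,2),(0,0),(1,8),(1,11),(11,7)]⟩,⟨0,[(1,0),(7,0),(8,0)]⟩⟩,⟨false,0,⟨0,[(3,0),(6,0)]⟩,⟨0,[(11,0),
  (1,0),(13,0)]⟩⟩,⟨false,1,⟨3,[(8,0),(0,0),(18,1)]⟩,⟨0,[]⟩⟩,⟨true,0,⟨0,[(1,0),(1,0),(5,0),(0,0),(7,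
  0)]⟩,⟨0,[(0,0),(11,0)]⟩⟩,⟨true,0,⟨0,[(26,0)]⟩,⟨0,[(25,0)]⟩⟩,⟨true,0,⟨0,[(1,0),(1,0),(5,0),(0,0),
  (7,0),(7,0)]⟩,⟨0,[(0,0),(1,0)]⟩⟩,[.a ⟨true,0,⟨0,[(1,0),(7,0),(0,0)]⟩,⟨0,[(0,0)]⟩⟩ ⟨false,1,⟨1,[(7,
  0),(4,0),(2,0),(11,0),(0,0)]⟩,⟨0,[(18,0)]⟩⟩ ⟨true,0,⟨0,[(1,0),(1,0),(5,0),(0,0)]⟩,⟨0,[(0,0),(12,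
  0)]⟩⟩,.o ⟨false,1,⟨7,[(8,0),(0,4),(0,7),(2,3),(2,3),(4,1)]⟩,⟨0,[(0,0),(2,0),(8,0),(5,0)]⟩⟩,.o
  ⟨false,1,⟨3,[(8,0),(0,0),(3,3),(13,1)]⟩,⟨0,[(3,0)]⟩⟩,.o ⟨false,0,⟨0,[(13,0)]⟩,⟨7,[(7,3),(0,0),(0,
  0),(11,1),(5,3)]⟩⟩]⟩)) (.Q [0,0,0,1,0,0,-1,-1,0,0,1] (.p true [0,0,1] [] (⟨0,[(19,0)]⟩,⟨0,[(18,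
  0)]⟩) .k 0 (⟨0,[]⟩,⟨0,[]⟩) .k .k) (.R ⟨2,true,false,true,[0,1],[0,0,1],[1,0,1],(⟨0,[]⟩,⟨0,[]⟩),
  (⟨0,[(20,0)]⟩,⟨0,[(19,0)]⟩),⟨0,[]⟩,.k,.k,.k,.k,.k,.k,⟨true,0,⟨4,[(0,1),(1,1),(4,1),(7,0),(0,0),(7,
  3)]⟩,⟨0,[(18,0),(11,0)]⟩⟩,⟨false,0,⟨0,[(3,0)]⟩,⟨0,[(17,0),(9,0)]⟩⟩,⟨false,1,⟨0,[(25,0),(2,0)]⟩,⟨0,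
  [(26,0)]⟩⟩,⟨true,0,⟨0,[(3,0),(14,0),(6,0)]⟩,⟨0,[(0,0)]⟩⟩,⟨true,0,⟨0,[]⟩,⟨0,[(30,0)]⟩⟩,⟨false,0,⟨0,
  [(3,0),(14,0)]⟩,⟨0,[(15,0),(12,0)]⟩⟩,[]⟩) (.Q [0,-1,-1,0,1,0,0,0,-1,0,0,1] (.p true [0,0,0,1] []
  (⟨0,[(11,0)]⟩,⟨0,[(10,0)]⟩) .k 0 (⟨0,[]⟩,⟨0,[]⟩) .k .k) (.I [0,0,2,2,-1,0,0,1] (.Q [0,-1,0,2,0,0,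
  1,1,0,1,-1] (.p false [0,0,1] [1] (⟨0,[(22,0)]⟩,⟨0,[(21,0)]⟩) .k 1 (⟨0,[]⟩,⟨0,[]⟩) .k .k) (.R ⟨1,
  true,false,false,[1,0,-1],[0,1],[1,0,0,-1,0,0,0,-1],(⟨0,[(22,0)]⟩,⟨0,[(23,0)]⟩),(⟨0,[(26,0)]⟩,⟨0,
  [(25,0)]⟩),⟨0,[(7,0)]⟩,.k,.k,.k,.k,(.r (-2) ⟨1,[(2,0),(1,0),(0,1),(4,0),(2,0),(14,1),(1,0),(0,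
  0)]⟩ ⟨0,[(1,0)]⟩),.k,⟨true,1,⟨0,[(5,0),(3,0),(0,0),(16,0),(2,0)]⟩,⟨0,[(1,0)]⟩⟩,⟨false,1,⟨1,[(10,
  0),(2,0),(0,0),(15,1)]⟩,⟨0,[(16,0)]⟩⟩,⟨false,1,⟨0,[(28,0),(2,0)]⟩,⟨0,[(29,0)]⟩⟩,⟨true,0,⟨3,[(0,2),
  (8,1),(0,0),(6,0)]⟩,⟨0,[(5,0)]⟩⟩,⟨true,0,⟨0,[]⟩,⟨0,[(33,0)]⟩⟩,⟨false,0,⟨0,[(0,0)]⟩,⟨0,[(5,0),(22,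
  0),(2,0)]⟩⟩,[]⟩) (.Q [0,1,-1,0,0,0,0,0,-1,0,0,1] (.p true [0,0,0,1] [] (⟨0,[(14,0)]⟩,⟨0,[(13,
  0)]⟩) .k 0 (⟨0,[]⟩,⟨0,[]⟩) .k .k) (.K ⟨0,[0,0,0,1],0,0,(⟨0,[(15,0)]⟩,⟨0,[(14,0)]⟩),.k,(.r (-1) ⟨0,
  [(5,0),(23,0)]⟩ ⟨13,[(0,1),(1,5),(8,2),(0,5),(1,1),(1,4),(2,0),(8,3),(1,1)]⟩),(.x 0 ⟨0,[(27,0)]⟩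
  ⟨7,[(8,3),(0,3),(2,2),(0,2),(11,1)]⟩),.k,.k,[⟨0,[(15,0)]⟩,⟨0,[(14,0)]⟩,⟨0,[(0,0)]⟩,⟨3,[(1,0),(0,
  1),(1,1),(2,1),(5,1),(0,3),(1,2)]⟩]⟩) (.Q [0,1,1,0,-1,0,0,0,1,1,0,-1] (.p false [0,0,0,1] [1] (⟨0,
  [(15,0)]⟩,⟨0,[(14,0)]⟩) .k 1 (⟨0,[]⟩,⟨0,[]⟩) .k .k) (.R ⟨2,false,false,true,[0,1],[0,0,0,1],[0,1,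
  1,1],(⟨0,[]⟩,⟨0,[]⟩),(⟨0,[(16,0)]⟩,⟨0,[(15,0)]⟩),⟨0,[]⟩,.k,.k,.k,(.r 0 ⟨1,[(2,0),(0,1),(0,1),(3,
  1),(6,1),(1,0)]⟩ ⟨0,[(6,0),(23,0)]⟩),.k,.k,⟨true,0,⟨1,[(2,0),(0,1),(0,1),(3,1),(6,1),(1,0)]⟩,⟨0,
  [(0,0),(4,0),(10,0),(0,0),(11,0),(2,0)]⟩⟩,⟨false,0,⟨5,[(1,1),(0,1),(0,1),(4,1),(4,0),(1,3),(10,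
  0)]⟩,⟨0,[(16,0),(15,0)]⟩⟩,⟨true,0,⟨0,[(35,0)]⟩,⟨0,[]⟩⟩,⟨false,0,⟨0,[(1,0),(28,0)]⟩,⟨0,[(4,0),(26,
  0)]⟩⟩,⟨false,0,⟨0,[(31,0)]⟩,⟨0,[(30,0),(2,0)]⟩⟩,⟨false,0,⟨7,[(0,3),(0,3),(11,0),(0,0),(11,1)]⟩,⟨0,
  [(4,0)]⟩⟩,[.a ⟨true,(-1),⟨0,[(0,0)]⟩,⟨0,[(4,0)]⟩⟩ ⟨false,0,⟨0,[(31,0),(3,0)]⟩,⟨2,[(2,0),(1,0),(0,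
  0),(0,0),(8,0),(13,0),(2,0)]⟩⟩ ⟨true,(-1),⟨4,[(0,3),(0,0),(0,1),(0,1),(4,0),(12,0),(4,0)]⟩,⟨0,[(4,
  0)]⟩⟩,.o ⟨false,0,⟨7,[(0,3),(0,3),(11,0),(0,0),(11,1)]⟩,⟨2,[(3,0),(0,2),(0,1),(2,0),(8,2),(14,
  0)]⟩⟩,.o ⟨false,1,⟨3,[(13,0),(0,0),(17,1)]⟩,⟨5,[(2,1),(0,1),(4,0),(12,0),(4,1),(2,0)]⟩⟩,.e ⟨false,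
  0,⟨0,[(31,0)]⟩,⟨0,[(30,0),(2,0)]⟩⟩ ⟨false,0,⟨7,[(0,3),(0,3),(11,0),(0,0),(11,1)]⟩,⟨0,[(4,0)]⟩⟩]⟩)
  (.Q [0,0,0,0,0,-1,0,0,0,1,0,-1] (.p false [0,0,0,1] [1] (⟨0,[(16,0)]⟩,⟨0,[(15,0)]⟩) .k 1 (⟨0,[]⟩,
  ⟨0,[]⟩) .k .k) (.I [0,1,0,-1,0,0,0,0,-1] (.R ⟨1,false,false,false,[1,0,0,-1],[0,1],[0,1,0,0,0,0,0,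
  0,-1],(⟨0,[(17,0)]⟩,⟨0,[(18,0)]⟩),(⟨0,[(30,0)]⟩,⟨0,[(29,0)]⟩),⟨0,[(1,0)]⟩,.k,.k,(.x (-1) ⟨7,[(11,
  3),(0,3),(2,2),(0,2),(11,1)]⟩ ⟨0,[(30,0)]⟩),(.x (-1) ⟨7,[(11,3),(0,3),(2,2),(0,2),(11,1)]⟩ ⟨0,
  [(30,0)]⟩),(.x 0 ⟨5,[(4,1),(0,1),(4,0),(0,5),(0,5),(10,0),(4,1),(2,0)]⟩ ⟨3,[(15,0),(0,0),(13,7),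
  (3,1)]⟩),.k,⟨false,1,⟨0,[(0,0),(33,0)]⟩,⟨0,[(3,0),(14,0),(14,0)]⟩⟩,⟨true,0,⟨0,[(17,0)]⟩,⟨5,[(4,1),
  (0,1),(4,0),(7,5),(4,0),(4,1),(2,0)]⟩⟩,⟨true,0,⟨0,[(37,0)]⟩,⟨0,[]⟩⟩,⟨false,0,⟨0,[(3,0),(13,0),(0,
  0),(14,0)]⟩,⟨0,[(2,0),(29,0)]⟩⟩,⟨false,0,⟨0,[(33,0)]⟩,⟨0,[(32,0),(2,0)]⟩⟩,⟨false,0,⟨0,[(3,0),(13,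
  0),(0,0),(14,1)]⟩,⟨1,[(2,0),(1,0),(1,0),(0,0),(24,0)]⟩⟩,[.o ⟨false,0,⟨0,[(33,0)]⟩,⟨11,[(4,3),(2,
  3),(7,2),(0,2),(11,3),(6,1)]⟩⟩,.o ⟨false,1,⟨3,[(15,0),(0,0),(16,3),(1,1)]⟩,⟨0,[(7,0),(11,0)]⟩⟩,.o
  ⟨false,1,⟨1,[(18,1),(9,0),(5,0)]⟩,⟨9,[(0,3),(2,5),(1,1),(4,1),(4,0),(1,3),(1,1),(8,0)]⟩⟩,.a ⟨true,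
  0,⟨0,[(18,0)]⟩,⟨0,[(17,0)]⟩⟩ ⟨false,1,⟨1,[(15,0),(18,0)]⟩,⟨0,[(3,0),(14,0)]⟩⟩ ⟨true,0,⟨0,[(17,0),
  (15,0)]⟩,⟨0,[(7,0),(10,0),(0,0)]⟩⟩]⟩) (.R ⟨1,false,false,true,[1,0,0,-1],[1,-1],[0,1,0,0,0,0,0,0,
  -1],(⟨0,[(17,0)]⟩,⟨0,[(18,0)]⟩),(⟨0,[(29,0)]⟩,⟨0,[(30,0)]⟩),⟨0,[(1,0)]⟩,.k,.k,(.x (-1) ⟨7,[(11,3),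
  (0,3),(2,2),(0,2),(11,1)]⟩ ⟨0,[(30,0)]⟩),(.r 0 ⟨1,[(2,1),(1,0),(0,1),(8,0),(2,1),(4,0)]⟩ ⟨0,[(8,
  0),(23,0)]⟩),.k,.k,⟨true,0,⟨1,[(2,1),(1,0),(0,1),(8,0),(2,1),(4,0)]⟩,⟨3,[(0,3),(3,1),(2,1),(5,1),
  (0,0),(2,0),(0,0)]⟩⟩,⟨false,0,⟨5,[(3,1),(0,1),(0,1),(4,1),(4,0),(1,3),(10,0)]⟩,⟨0,[(18,0),(15,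
  0)]⟩⟩,⟨true,0,⟨0,[(37,0)]⟩,⟨0,[]⟩⟩,⟨false,0,⟨0,[(3,0),(28,0)]⟩,⟨0,[(6,0),(26,0)]⟩⟩,⟨false,0,⟨0,
  [(33,0)]⟩,⟨0,[(32,0),(2,0)]⟩⟩,⟨false,0,⟨0,[(3,0),(33,0)]⟩,⟨0,[(6,0)]⟩⟩,[.o ⟨false,0,⟨0,[(7,0),(11,
  0)]⟩,⟨3,[(0,3),(14,2),(0,0)]⟩⟩,.o ⟨false,1,⟨11,[(4,3),(2,3),(7,2),(0,2),(11,3),(6,1)]⟩,⟨0,[(33,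
  0)]⟩⟩,.o ⟨false,1,⟨1,[(18,1),(9,0),(5,0)]⟩,⟨5,[(3,1),(0,1),(0,1),(4,1),(4,0),(1,3),(10,0)]⟩⟩,.a
  ⟨true,0,⟨0,[(18,0)]⟩,⟨0,[(17,0)]⟩⟩ ⟨false,1,⟨1,[(15,0),(18,0)]⟩,⟨0,[(3,0),(14,0)]⟩⟩ ⟨true,0,⟨0,
  [(7,0),(9,0),(1,0)]⟩,⟨0,[(18,0),(14,0)]⟩⟩]⟩)) (.I [1,0,0,0,0,0,0,0,1] (.R ⟨0,false,false,true,[1,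
  0,0,-1],[1,-1],[0,1,0,-1,0,0,0,0,-1],(⟨0,[(17,0)]⟩,⟨0,[(18,0)]⟩),(⟨0,[(29,0)]⟩,⟨0,[(30,0)]⟩),⟨0,
  [(1,0)]⟩,.k,.k,(.x (-1) ⟨7,[(11,3),(0,3),(2,2),(0,2),(11,1)]⟩ ⟨0,[(30,0)]⟩),(.r 0 ⟨1,[(2,1),(1,0),
  (0,1),(8,0),(2,1),(4,0)]⟩ ⟨0,[(8,0),(23,0)]⟩),.k,.k,⟨true,0,⟨1,[(2,0),(1,1),(0,1),(0,0),(7,0),(2,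
  1)]⟩,⟨0,[(0,0)]⟩⟩,⟨false,0,⟨5,[(3,1),(0,1),(0,1),(4,1),(4,0),(1,3),(10,0)]⟩,⟨0,[(18,0),(15,0)]⟩⟩,
  ⟨true,0,⟨0,[(32,0)]⟩,⟨0,[(33,0)]⟩⟩,⟨false,0,⟨0,[(3,0),(28,0)]⟩,⟨0,[(6,0),(26,0)]⟩⟩,⟨false,0,⟨0,
  []⟩,⟨0,[]⟩⟩,⟨false,0,⟨0,[]⟩,⟨0,[]⟩⟩,[.o ⟨false,0,⟨0,[(7,0),(11,0)]⟩,⟨3,[(15,0),(0,0),(16,3),(1,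
  1)]⟩⟩,.o ⟨false,1,⟨11,[(4,3),(2,3),(7,2),(0,2),(11,3),(6,1)]⟩,⟨0,[(33,0)]⟩⟩,.o ⟨false,1,⟨1,[(18,
  1),(9,0),(5,0)]⟩,⟨5,[(3,1),(0,1),(0,1),(4,1),(4,0),(1,3),(10,0)]⟩⟩,.a ⟨true,0,⟨0,[(18,0)]⟩,⟨0,
  [(17,0)]⟩⟩ ⟨false,1,⟨2,[(4,0),(1,0),(0,0),(7,0),(1,0),(16,0)]⟩,⟨9,[(0,5),(4,1),(8,0),(1,1),(2,0),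
  (2,0),(8,5),(1,5)]⟩⟩ ⟨true,0,⟨0,[(7,0),(9,0),(1,0)]⟩,⟨0,[(18,0),(14,0)]⟩⟩]⟩) (.R ⟨0,false,false,
  false,[1,0,0,-1],[0,1],[0,1,0,0,0,0,0,0,-1],(⟨0,[(17,0)]⟩,⟨0,[(18,0)]⟩),(⟨0,[(30,0)]⟩,⟨0,[(29,
  0)]⟩),⟨0,[(1,0)]⟩,.k,.k,(.x (-1) ⟨7,[(11,3),(0,3),(2,2),(0,2),(11,1)]⟩ ⟨0,[(30,0)]⟩),(.x (-1) ⟨7,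
  [(11,3),(0,3),(2,2),(0,2),(11,1)]⟩ ⟨0,[(30,0)]⟩),.k,.k,⟨false,1,⟨0,[(0,0),(31,0),(1,0)]⟩,⟨0,[(3,
  0),(14,0),(14,0)]⟩⟩,⟨true,0,⟨0,[(17,0)]⟩,⟨5,[(4,1),(0,1),(4,0),(7,5),(4,0),(4,1),(2,0)]⟩⟩,⟨true,0,
  ⟨0,[(37,0)]⟩,⟨0,[]⟩⟩,⟨false,0,⟨0,[(3,0),(13,0),(0,0),(14,0)]⟩,⟨0,[(2,0),(29,0)]⟩⟩,⟨false,0,⟨0,[]⟩,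
  ⟨0,[]⟩⟩,⟨false,0,⟨0,[]⟩,⟨0,[]⟩⟩,[.o ⟨false,0,⟨0,[(33,0)]⟩,⟨11,[(4,3),(2,3),(7,2),(0,2),(11,3),(6,
  1)]⟩⟩,.o ⟨false,1,⟨3,[(15,0),(0,0),(16,3),(1,1)]⟩,⟨0,[(7,0),(11,0)]⟩⟩,.o ⟨false,1,⟨1,[(18,1),(9,
  0),(5,0)]⟩,⟨3,[(0,0),(2,0),(0,0),(0,0),(11,2),(5,0),(4,0)]⟩⟩,.a ⟨true,0,⟨0,[(18,0)]⟩,⟨0,[(17,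
  0)]⟩⟩ ⟨false,1,⟨1,[(15,0),(18,0)]⟩,⟨0,[(3,0),(14,0)]⟩⟩ ⟨true,0,⟨0,[(17,0),(15,0)]⟩,⟨0,[(7,0),(10,
  0),(0,0)]⟩⟩]⟩)))))) (.Q [0,1,-1,0,0,0,0,0,-1,0,0,1] (.p true [0,0,0,1] [] (⟨0,[(13,0)]⟩,⟨0,[(12,
  0)]⟩) .k 0 (⟨0,[]⟩,⟨0,[]⟩) .k .k) (.Q [0,1,1,0,0,0,0,0,1,0,0,-1] (.p false [0,0,0,1] [] (⟨0,[(14,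
  0)]⟩,⟨0,[(13,0)]⟩) .k 0 (⟨0,[]⟩,⟨0,[]⟩) .k .k) (.K ⟨0,[0,0,0,1],0,0,(⟨0,[(15,0)]⟩,⟨0,[(14,0)]⟩),
  .k,(.r (-1) ⟨1,[(2,0),(10,0),(8,0)]⟩ ⟨1,[(1,1),(5,0),(6,1),(2,1),(2,0),(7,0),(1,1)]⟩),(.x 0 ⟨0,
  [(27,0)]⟩ ⟨7,[(8,3),(0,3),(2,2),(0,2),(11,1)]⟩),.k,.k,[⟨0,[(15,0)]⟩,⟨0,[(14,0)]⟩,⟨0,[(1,0)]⟩,⟨0,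
  [(0,0)]⟩]⟩) (.Q [0,0,0,0,0,1,0,0,0,-1,0,1] (.p true [0,0,0,1] [1] (⟨0,[(15,0)]⟩,⟨0,[(14,0)]⟩) .k
  1 (⟨0,[]⟩,⟨0,[]⟩) .k .k) (.R ⟨0,false,false,true,[1,0,0,-1],[1,0,-1],[0,1,0,0,0,0,0,0,-1],(⟨0,
  [(15,0)]⟩,⟨0,[(16,0)]⟩),(⟨0,[(24,0)]⟩,⟨0,[(25,0)]⟩),⟨0,[(0,0)]⟩,.k,.k,(.x (-1) ⟨7,[(9,3),(0,3),(2,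
  2),(0,2),(11,1)]⟩ ⟨0,[(28,0)]⟩),.k,.k,.k,⟨false,0,⟨0,[(1,0),(6,0),(6,0),(1,0),(5,1)]⟩,⟨1,[(12,0),
  (1,0),(2,0),(2,0),(12,0)]⟩⟩,⟨true,0,⟨0,[(15,0),(2,0)]⟩,⟨0,[(8,0),(7,0)]⟩⟩,⟨true,0,⟨0,[(35,0)]⟩,⟨0,
  []⟩⟩,⟨false,1,⟨5,[(14,2),(0,5),(2,1),(1,5),(0,1),(4,1),(2,1),(3,0)]⟩,⟨0,[(1,0),(6,0),(14,0)]⟩⟩,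
  ⟨false,0,⟨0,[]⟩,⟨0,[]⟩⟩,⟨false,0,⟨0,[]⟩,⟨0,[]⟩⟩,[.o ⟨false,0,⟨0,[(17,0)]⟩,⟨0,[(19,0),(13,0)]⟩⟩,.o
  ⟨false,1,⟨1,[(20,1),(5,0),(6,0)]⟩,⟨0,[(8,0),(14,0)]⟩⟩,.o ⟨false,1,⟨1,[(16,1),(9,0),(5,0)]⟩,⟨0,[(8,
  0),(6,0),(2,0)]⟩⟩,.a ⟨true,0,⟨0,[(16,0)]⟩,⟨0,[(15,0)]⟩⟩ ⟨false,0,⟨0,[(1,0),(6,0),(6,0),(1,0),(5,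
  0)]⟩,⟨1,[(14,0),(6,0),(0,0),(10,0)]⟩⟩ ⟨true,0,⟨0,[(15,0),(1,0)]⟩,⟨0,[(5,0),(10,0),(14,0)]⟩⟩]⟩)
  (.R ⟨1,false,false,true,[1,0,0,-1],[1,0,-1],[0,1,0,0,0,0,0,0,-1],(⟨0,[(15,0)]⟩,⟨0,[(16,0)]⟩),(⟨0,
  [(24,0)]⟩,⟨0,[(25,0)]⟩),⟨0,[(0,0)]⟩,.k,.k,(.x (-1) ⟨7,[(9,3),(0,3),(2,2),(0,2),(11,1)]⟩ ⟨0,[(28,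
  0)]⟩),.k,(.r 0 ⟨0,[(1,0),(3,0),(9,0),(1,0),(5,0)]⟩ ⟨1,[(14,0),(5,1),(0,1),(9,1),(1,0)]⟩),.k,
  ⟨false,0,⟨0,[(1,0),(6,0),(6,0),(1,0),(5,1)]⟩,⟨1,[(12,0),(1,0),(2,0),(2,0),(12,0)]⟩⟩,⟨true,0,⟨0,
  [(15,0),(2,0)]⟩,⟨0,[(8,0),(7,0)]⟩⟩,⟨true,0,⟨0,[(35,0)]⟩,⟨0,[]⟩⟩,⟨false,1,⟨5,[(14,2),(0,5),(2,1),
  (1,5),(0,1),(4,1),(2,1),(3,0)]⟩,⟨0,[(1,0),(6,0),(14,0)]⟩⟩,⟨false,0,⟨0,[(31,0)]⟩,⟨0,[(30,0),(2,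
  0)]⟩⟩,⟨false,1,⟨5,[(14,2),(0,5),(2,1),(1,5),(0,1),(4,1),(2,1),(1,5),(1,0)]⟩,⟨0,[(1,0),(3,0)]⟩⟩,
  [.o ⟨false,0,⟨0,[(17,0)]⟩,⟨0,[(19,0),(13,0)]⟩⟩,.o ⟨false,1,⟨1,[(20,1),(5,0),(6,0)]⟩,⟨0,[(8,0),(14,
  0)]⟩⟩,.o ⟨false,1,⟨1,[(16,1),(9,0),(5,0)]⟩,⟨0,[(8,0),(6,0),(2,0)]⟩⟩,.a ⟨true,0,⟨0,[(16,0)]⟩,⟨0,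
  [(15,0)]⟩⟩ ⟨false,0,⟨0,[(1,0),(6,0),(6,0),(1,0),(5,0)]⟩,⟨1,[(14,0),(6,0),(0,0),(10,0)]⟩⟩ ⟨true,0,
  ⟨0,[(15,0),(1,0)]⟩,⟨0,[(8,0),(7,0),(6,0)]⟩⟩]⟩))) (.Q [0,0,0,0,0,-1,0,0,0,1,0,-1] (.p false [0,0,0,
  1] [1] (⟨0,[(14,0)]⟩,⟨0,[(13,0)]⟩) .k 1 (⟨0,[]⟩,⟨0,[]⟩) .k .k) (.I [0,-1,1,1,0,0,0,1,-1] (.I [0,1,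
  0,1,0,0,0,-1,1] (.R ⟨1,false,false,true,[1,0,0,-1],[1,0,-1],[1,0,0,-1,0,0,0,0,-1],(⟨0,[(16,0)]⟩,
  ⟨0,[(17,0)]⟩),(⟨0,[(25,0)]⟩,⟨0,[(26,0)]⟩),⟨0,[(2,0)]⟩,.k,.k,(.x (-1) ⟨7,[(10,3),(0,3),(2,2),(0,2),
  (11,1)]⟩ ⟨0,[(29,0)]⟩),.k,(.r (-1) ⟨1,[(4,0),(9,0),(9,2)]⟩ ⟨3,[(0,3),(21,0),(0,0),(6,1)]⟩),.k,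
  ⟨false,1,⟨0,[(1,0),(2,0),(19,0)]⟩,⟨0,[(0,0)]⟩⟩,⟨true,0,⟨0,[(16,0),(2,0)]⟩,⟨0,[(9,0),(7,0)]⟩⟩,
  ⟨false,1,⟨0,[(31,0),(2,0)]⟩,⟨0,[(32,0)]⟩⟩,⟨false,0,⟨0,[(3,0),(17,0)]⟩,⟨0,[(5,0),(3,0),(14,0)]⟩⟩,
  ⟨true,0,⟨0,[]⟩,⟨0,[(36,0)]⟩⟩,⟨false,0,⟨0,[(3,0),(17,0),(10,0)]⟩,⟨0,[(5,0),(0,0)]⟩⟩,[.o ⟨false,0,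
  ⟨0,[(18,0)]⟩,⟨0,[(20,0),(13,0)]⟩⟩,.o ⟨false,1,⟨1,[(21,1),(5,0),(6,0)]⟩,⟨0,[(9,0),(14,0)]⟩⟩,.o
  ⟨false,1,⟨1,[(17,1),(9,0),(5,0)]⟩,⟨4,[(1,1),(1,1),(4,1),(0,0),(6,2),(1,0),(1,0),(1,0)]⟩⟩,.a ⟨true,
  0,⟨0,[(17,0)]⟩,⟨0,[(16,0)]⟩⟩ ⟨false,1,⟨0,[(1,0),(2,0)]⟩,⟨6,[(0,4),(0,1),(1,3),(13,3),(2,0),(2,0),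
  (0,1)]⟩⟩ ⟨true,0,⟨0,[(16,0),(1,0)]⟩,⟨0,[(9,0),(7,0),(6,0)]⟩⟩]⟩) (.R ⟨1,false,false,false,[1,0,0,
  -1],[0,1],[0,0,0,0,0,0,0,0,-1],(⟨0,[(16,0)]⟩,⟨0,[(17,0)]⟩),(⟨0,[(29,0)]⟩,⟨0,[(28,0)]⟩),⟨0,[(2,
  0)]⟩,.k,.k,(.x (-1) ⟨7,[(10,3),(0,3),(2,2),(0,2),(11,1)]⟩ ⟨0,[(29,0)]⟩),(.x (-1) ⟨7,[(10,3),(0,3),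
  (2,2),(0,2),(11,1)]⟩ ⟨0,[(29,0)]⟩),(.r (-1) ⟨3,[(0,3),(3,1),(8,0),(4,0),(2,0),(11,1),(2,1)]⟩ ⟨1,
  [(3,1),(13,1),(4,0),(0,0),(8,3),(3,1)]⟩),.k,⟨false,1,⟨1,[(0,1),(12,0),(4,0),(2,0),(11,1)]⟩,⟨0,[(3,
  0),(13,0),(14,0),(3,0)]⟩⟩,⟨true,0,⟨0,[(16,0)]⟩,⟨0,[(9,0),(7,0),(1,0)]⟩⟩,⟨false,1,⟨3,[(14,0),(0,0),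
  (18,1)]⟩,⟨0,[]⟩⟩,⟨false,0,⟨0,[(3,0),(12,0),(0,0),(14,0)]⟩,⟨0,[(5,0),(0,0),(11,0)]⟩⟩,⟨true,0,⟨0,
  [(32,0)]⟩,⟨0,[(31,0)]⟩⟩,⟨false,0,⟨0,[(3,0),(12,0),(0,0),(14,1)]⟩,⟨0,[(5,0),(0,0),(1,0)]⟩⟩,[.o
  ⟨false,0,⟨0,[(32,0)]⟩,⟨1,[(27,0),(3,1),(2,0)]⟩⟩,.o ⟨false,1,⟨3,[(14,0),(0,0),(16,3),(1,1)]⟩,⟨0,
  [(6,0),(11,0)]⟩⟩,.o ⟨false,1,⟨1,[(17,1),(9,0),(5,0)]⟩,⟨4,[(1,1),(1,1),(4,1),(0,0),(6,2),(1,0),(1,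
  0),(1,0)]⟩⟩,.a ⟨true,0,⟨0,[(17,0)]⟩,⟨0,[(16,0)]⟩⟩ ⟨false,1,⟨2,[(0,0),(3,0),(9,0),(15,0),(1,2),(0,
  0)]⟩,⟨0,[(3,0),(13,0),(18,0)]⟩⟩ ⟨true,0,⟨0,[(16,0),(15,0)]⟩,⟨0,[(6,0),(10,0),(0,0)]⟩⟩]⟩)) (.R ⟨1,
  false,false,true,[1,0,0,-1],[1,0,-1],[0,1,0,0,0,0,0,0,-1],(⟨0,[(15,0)]⟩,⟨0,[(16,0)]⟩),(⟨0,[(24,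
  0)]⟩,⟨0,[(25,0)]⟩),⟨0,[(1,0)]⟩,.k,.k,(.x (-1) ⟨7,[(9,3),(0,3),(2,2),(0,2),(11,1)]⟩ ⟨0,[(28,0)]⟩),
  .k,(.r (-1) ⟨1,[(3,0),(9,0),(9,2)]⟩ ⟨4,[(0,1),(1,2),(13,2),(3,2),(0,2),(7,0),(1,6)]⟩),.k,⟨false,1,
  ⟨1,[(13,0),(9,1),(8,0)]⟩,⟨4,[(0,3),(1,0),(13,0),(3,0),(0,0),(7,1),(1,3)]⟩⟩,⟨true,0,⟨0,[(15,0),(2,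
  0)]⟩,⟨0,[(8,0),(7,0)]⟩⟩,⟨true,0,⟨0,[(35,0)]⟩,⟨0,[]⟩⟩,⟨false,0,⟨0,[(2,0),(17,0)]⟩,⟨0,[(4,0),(3,0),
  (14,0)]⟩⟩,⟨false,0,⟨0,[(31,0)]⟩,⟨0,[(30,0),(2,0)]⟩⟩,⟨false,0,⟨0,[(2,0),(17,0),(10,0)]⟩,⟨0,[(4,0),
  (0,0)]⟩⟩,[.o ⟨false,0,⟨0,[(17,0)]⟩,⟨0,[(19,0),(13,0)]⟩⟩,.o ⟨false,1,⟨1,[(20,1),(5,0),(6,0)]⟩,⟨0,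
  [(8,0),(14,0)]⟩⟩,.o ⟨false,1,⟨1,[(16,1),(9,0),(5,0)]⟩,⟨0,[(8,0),(6,0),(2,0)]⟩⟩,.a ⟨true,0,⟨0,[(16,
  0)]⟩,⟨0,[(15,0)]⟩⟩ ⟨false,1,⟨1,[(13,0),(18,0)]⟩,⟨0,[(2,0),(13,0)]⟩⟩ ⟨true,0,⟨0,[(15,0),(1,0)]⟩,⟨0,
  [(8,0),(7,0),(6,0)]⟩⟩]⟩)) (.I [1,0,0,-1,0,0,0,0,1] (.I [0,0,1,0,0,0,0,0,-1] (.R ⟨0,false,false,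
  true,[1,0,0,-1],[1,-1],[0,1,0,0,0,0,0,0,-1],(⟨0,[(16,0)]⟩,⟨0,[(17,0)]⟩),(⟨0,[(28,0)]⟩,⟨0,[(29,
  0)]⟩),⟨0,[(2,0)]⟩,.k,.k,(.x (-1) ⟨7,[(10,3),(0,3),(2,2),(0,2),(11,1)]⟩ ⟨0,[(29,0)]⟩),(.r 0 ⟨0,[(0,
  0),(31,0)]⟩ ⟨1,[(4,0),(10,0),(8,0)]⟩),.k,.k,⟨true,0,⟨0,[(0,0),(31,0)]⟩,⟨0,[(1,0)]⟩⟩,⟨false,0,⟨0,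
  [(9,0),(6,0),(2,0)]⟩,⟨0,[(17,0),(15,0)]⟩⟩,⟨true,0,⟨0,[(36,0)]⟩,⟨0,[]⟩⟩,⟨false,0,⟨0,[(3,0),(27,
  0)]⟩,⟨0,[(5,0),(26,0)]⟩⟩,⟨false,0,⟨0,[]⟩,⟨0,[]⟩⟩,⟨false,0,⟨0,[]⟩,⟨0,[]⟩⟩,[.o ⟨false,0,⟨0,[(6,0),
  (11,0)]⟩,⟨3,[(14,0),(0,0),(16,3),(1,1)]⟩⟩,.o ⟨false,1,⟨1,[(27,0),(3,1),(2,0)]⟩,⟨0,[(32,0)]⟩⟩,.o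
  ⟨false,1,⟨1,[(17,1),(9,0),(5,0)]⟩,⟨0,[(9,0),(6,0),(2,0)]⟩⟩,.a ⟨true,0,⟨0,[(17,0)]⟩,⟨0,[(16,0)]⟩⟩
  ⟨false,1,⟨1,[(14,0),(18,0)]⟩,⟨0,[(3,0),(13,0)]⟩⟩ ⟨true,0,⟨0,[(6,0),(9,0),(1,0)]⟩,⟨0,[(17,0),(14,
  0)]⟩⟩]⟩) (.R ⟨0,false,false,true,[1,0,0,-1],[1,0,-1],[0,1,0,0,0,0,0,0,-1],(⟨0,[(16,0)]⟩,⟨0,[(17,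
  0)]⟩),(⟨0,[(25,0)]⟩,⟨0,[(26,0)]⟩),⟨0,[(2,0)]⟩,.k,.k,(.x (-1) ⟨7,[(10,3),(0,3),(2,2),(0,2),(11,
  1)]⟩ ⟨0,[(29,0)]⟩),.k,.k,.k,⟨false,1,⟨1,[(14,0),(9,1),(8,0)]⟩,⟨5,[(0,3),(2,1),(9,2),(3,1),(0,2),
  (2,2),(8,1)]⟩⟩,⟨true,0,⟨0,[(16,0),(2,0)]⟩,⟨0,[(9,0),(7,0)]⟩⟩,⟨true,0,⟨0,[(36,0)]⟩,⟨0,[]⟩⟩,⟨false,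
  0,⟨0,[(3,0),(17,0)]⟩,⟨0,[(5,0),(3,0),(14,0)]⟩⟩,⟨false,0,⟨0,[]⟩,⟨0,[]⟩⟩,⟨false,0,⟨0,[]⟩,⟨0,[]⟩⟩,
  [.o ⟨false,0,⟨0,[(18,0)]⟩,⟨0,[(20,0),(13,0)]⟩⟩,.o ⟨false,1,⟨1,[(21,1),(5,0),(6,0)]⟩,⟨0,[(9,0),(14,
  0)]⟩⟩,.o ⟨false,1,⟨1,[(17,1),(9,0),(5,0)]⟩,⟨0,[(9,0),(6,0),(2,0)]⟩⟩,.a ⟨true,0,⟨0,[(17,0)]⟩,⟨0,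
  [(16,0)]⟩⟩ ⟨false,1,⟨1,[(14,0),(18,0)]⟩,⟨0,[(3,0),(13,0)]⟩⟩ ⟨true,0,⟨0,[(16,0),(1,0)]⟩,⟨0,[(6,0),
  (10,0),(14,0)]⟩⟩]⟩)) (.R ⟨0,false,false,false,[1,0,0,-1],[0,1],[1,0,0,0,0,0,0,0,-1],(⟨0,[(15,0)]⟩,
  ⟨0,[(16,0)]⟩),(⟨0,[(28,0)]⟩,⟨0,[(27,0)]⟩),⟨0,[(1,0)]⟩,.k,.k,(.x (-1) ⟨7,[(9,3),(0,3),(2,2),(0,2),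
  (11,1)]⟩ ⟨0,[(28,0)]⟩),(.x (-1) ⟨7,[(9,3),(0,3),(2,2),(0,2),(11,1)]⟩ ⟨0,[(28,0)]⟩),.k,.k,⟨false,1,
  ⟨0,[(0,0),(2,0),(19,0)]⟩,⟨0,[(2,0),(13,0),(14,0),(3,0)]⟩⟩,⟨true,0,⟨0,[(15,0)]⟩,⟨0,[(8,0),(7,0),(1,
  0)]⟩⟩,⟨true,0,⟨0,[]⟩,⟨0,[(35,0)]⟩⟩,⟨false,0,⟨0,[(2,0),(12,0),(0,0),(14,0)]⟩,⟨5,[(0,1),(3,3),(0,3),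
  (1,3),(8,1),(9,0),(5,0)]⟩⟩,⟨false,0,⟨0,[]⟩,⟨0,[]⟩⟩,⟨false,0,⟨0,[]⟩,⟨0,[]⟩⟩,[.o ⟨false,0,⟨0,[(31,
  0)]⟩,⟨1,[(26,0),(3,1),(2,0)]⟩⟩,.o ⟨false,1,⟨1,[(0,1),(13,0),(18,0)]⟩,⟨0,[(5,0),(11,0)]⟩⟩,.o
  ⟨false,1,⟨1,[(16,1),(9,0),(5,0)]⟩,⟨6,[(0,2),(1,2),(2,0),(1,1),(7,3),(2,1),(0,0),(1,1)]⟩⟩,.a ⟨true,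
  0,⟨0,[(16,0)]⟩,⟨0,[(15,0)]⟩⟩ ⟨false,1,⟨3,[(0,1),(2,0),(9,0),(9,0),(5,1),(2,1)]⟩,⟨0,[(2,0),(13,0),
  (18,0)]⟩⟩ ⟨true,0,⟨0,[(15,0),(15,0)]⟩,⟨0,[(5,0),(10,0),(0,0)]⟩⟩]⟩))))) (.K ⟨0,[0,0,0,1],0,(-1),
  (⟨0,[(12,0)]⟩,⟨0,[(11,0)]⟩),.k,(.x 0 ⟨1,[(5,0),(0,0),(7,0),(2,1),(0,0)]⟩ ⟨0,[(24,0),(3,0)]⟩),(.x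
  0 ⟨0,[(24,0)]⟩ ⟨7,[(5,3),(0,3),(2,2),(0,2),(11,1)]⟩),.k,.k,[⟨0,[(12,0)]⟩,⟨0,[(11,0)]⟩,⟨1,[(9,0),
  (2,1),(15,0),(2,1)]⟩,⟨0,[(0,0)]⟩]⟩)))))))

theorem ok1 : chk (cU (-1) true 10) t1 r0 = true := by decide +kernel

noncomputable def t2 : Tre :=
  .Q [0,0,0,0,0,1,0,0,0,0,-1] (.ed true [1,-1,1] .k) t0 t1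

theorem ok2 : chk (cU (-1) true 10) t2 base = true :=
  chk_Q (e' := [0,0,0,0,0,-1,0,0,0,0,1]) (by decide +kernel) (by decide +kernel) ok0 ok1

theorem ok : chkB (cU (-1) true 10) (fax (fcU (-1)) true 34 (-1) 10 true (tU true)) t2 base = true :=
  chkB_of (by decide +kernel) ok2

end Helper11.CT.T1_34_m1_1_u
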