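import Pool.Agent.Helper11.CT.T.T1_35_1_1_u_p0
import Pool.Agent.Helper11.CT.T.T1_35_1_1_u_p1
import Pool.Agent.Helper11.CT.T.T1_35_1_1_u_p2
import Pool.Agent.Helper11.CT.T.T1_35_1_1_u_p3

set_option autoImplicit false
set_option linter.all false

namespace Helper11.CT.T1_35_1_1_u

open Helper11.CT

noncomputable def t5 : Tre :=
  .Q [0,0,-1,0,1,0,1,0,0,-2,1] (.p true [-1,1,1] [1] (⟨0,[(1,0)]⟩,⟨0,[(19,0),(2,0)]⟩) .k 1 (⟨0,[]⟩,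
  ⟨0,[]⟩) .k .k) t3 t4

theorem ok5 : chk (cU 1 true 3) t5 l6 = true :=
  chk_Q (e' := [0,0,1,0,-1,0,-1,0,0,2,-1]) (by decide +kernel) (by decide +kernel) ok3 ok4

noncomputable def t7 : Tre :=
  .Q [0,1,0,-1,0,0,1,0,0,0,1] (.p true [0,0,1] [] (⟨0,[(19,0)]⟩,⟨0,[(18,0)]⟩) .k 0 (⟨0,[]⟩,⟨0,[]⟩)
  .k .k) t5 t6

theorem ok7 : chk (cU 1 true 3) t7 r5 = true :=
  chk_Q (e' := [0,-1,0,1,0,0,-1,0,0,0,-1]) (by decide +kernel) (by decide +kernel) ok5 ok6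

noncomputable def t8 : Tre :=
  .Q [0,0,0,0,0,-1,0,0,0,1,-1] (.ed true [0,1,1] .k) t2 t7

theorem ok8 : chk (cU 1 true 3) t8 r4 = true :=
  chk_Q (e' := [0,0,0,0,0,1,0,0,0,-1,1]) (by decide +kernel) (by decide +kernel) ok2 ok7

noncomputable def t9 : Tre :=
  .Q [0,-1,0,-1,0,0,0,1,0,1] (.pp false [-1,1]) t1 t8

theorem ok9 : chk (cU 1 true 3) t9 l3 = true :=
  chk_Q (e' := [0,1,0,1,0,0,0,-1,0,-1]) (by decide +kernel) (by decide +kernel) ok1 ok8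

noncomputable def t13 : Tre :=
  .Q [0,0,0,0,0,-2,0,0,0,1,-1] (.p false [0,0,1] [1] (⟨0,[(18,0)]⟩,⟨0,[(17,0)]⟩) .k 1 (⟨0,[]⟩,⟨0,
  []⟩) .k .k) t11 t12

theorem ok13 : chk (cU 1 true 3) t13 r8 = true :=
  chk_Q (e' := [0,0,0,0,0,2,0,0,0,-1,1]) (by decide +kernel) (by decide +kernel) ok11 ok12

noncomputable def t14 : Tre :=
  .I [0,-1,0,1,0,0,0,1] t10 t13

theorem ok14 : chk (cU 1 true 3) t14 r3 = true :=
  chk_I (e' := [1,1,0,-1,0,0,0,-1]) (by decide +kernel) (by decide +kernel) ok10 ok13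

noncomputable def t15 : Tre :=
  .Q [0,0,0,0,0,1,0,0,0,0,-1] (.ed true [1,-1,1] .k) t9 t14

theorem ok15 : chk (cU 1 true 3) t15 r2 = true :=
  chk_Q (e' := [0,0,0,0,0,-1,0,0,0,0,1]) (by decide +kernel) (by decide +kernel) ok9 ok14

noncomputable def t16 : Tre :=
  .Q [0,0,0,0,0,0,-1,-1,0,1,-1] (.p false [0,0,1] [1] (⟨0,[(15,0)]⟩,⟨0,[(14,0)]⟩) .k 1 (⟨0,[]⟩,⟨0,
  []⟩) .k .k) t0 t15

theorem ok16 : chk (cU 1 true 3) t16 l1 = true :=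
  chk_Q (e' := [0,0,0,0,0,0,1,1,0,-1,1]) (by decide +kernel) (by decide +kernel) ok0 ok15

noncomputable def t20 : Tre :=
  .Q [0,0,0,0,0,1,0,0,0,0,-1] (.ed true [1,-1,1] .k) t18 t19

theorem ok20 : chk (cU 1 true 3) t20 l14 = true :=
  chk_Q (e' := [0,0,0,0,0,-1,0,0,0,0,1]) (by decide +kernel) (by decide +kernel) ok18 ok19

noncomputable def t22 : Tre :=
  .I [0,0,-1,-1,1,0,0,-1] t20 t21

theorem ok22 : chk (cU 1 true 3) t22 l13 = true :=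
  chk_I (e' := [1,0,1,1,-1,0,0,1]) (by decide +kernel) (by decide +kernel) ok20 ok21

noncomputable def t27 : Tre :=
  .Q [0,1,1,-1,0,0,0,-1,0,1] (.pp false [-1,1]) t25 t26

theorem ok27 : chk (cU 1 true 3) t27 l19 = true :=
  chk_Q (e' := [0,-1,-1,1,0,0,0,1,0,-1]) (by decide +kernel) (by decide +kernel) ok25 ok26

noncomputable def t29 : Tre :=
  .Q [0,0,0,-2,0,0,2,2,0,0,2] (.p true [0,0,1] [0,1,-1] (⟨0,[(22,0)]⟩,⟨0,[(21,0)]⟩) .k 2 (⟨0,[(1,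
  0)]⟩,⟨0,[(22,0),(1,0)]⟩) .k (.x (-1) ⟨0,[(4,0),(3,0),(6,0),(5,1)]⟩ ⟨2,[(3,1),(15,1),(2,1),(2,
  1)]⟩)) t27 t28

theorem ok29 : chk (cU 1 true 3) t29 r18 = true :=
  chk_Q (e' := [0,0,0,2,0,0,-2,-2,0,0,-2]) (by decide +kernel) (by decide +kernel) ok27 ok28

noncomputable def t30 : Tre :=
  .Q [0,0,0,0,0,0,1,0,0,1,1] (.p true [1,-1,1] [] (⟨0,[(21,0),(1,0)]⟩,⟨0,[(0,0)]⟩) .k 0 (⟨0,[]⟩,⟨0,
  []⟩) .k .k) t24 t29

theorem ok30 : chk (cU 1 true 3) t30 l17 = true :=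
  chk_Q (e' := [0,0,0,0,0,0,-1,0,0,-1,-1]) (by decide +kernel) (by decide +kernel) ok24 ok29

noncomputable def t36 : Tre :=
  .I [1,0,1,0,-1,0,0,2] t34 t35

theorem ok36 : chk (cU 1 true 3) t36 r23 = true :=
  chk_I (e' := [0,0,-1,0,1,0,0,-2]) (by decide +kernel) (by decide +kernel) ok34 ok35

noncomputable def t37 : Tre :=
  .Q [0,0,2,1,-1,0,-1,0,0,1,-1] (.p false [0,0,1] [1] (⟨0,[(23,0)]⟩,⟨0,[(22,0)]⟩) .k 1 (⟨0,[]⟩,⟨0,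
  []⟩) .k .k) t33 t36

theorem ok37 : chk (cU 1 true 3) t37 r22 = true :=
  chk_Q (e' := [0,0,-2,-1,1,0,1,0,0,-1,1]) (by decide +kernel) (by decide +kernel) ok33 ok36

noncomputable def t38 : Tre :=
  .Q [0,0,0,2,0,0,-1,-1,0,0,-1] (.p false [0,0,1] [] (⟨0,[(22,0)]⟩,⟨0,[(21,0)]⟩) .k 0 (⟨0,[]⟩,⟨0,
  []⟩) .k .k) t32 t37

theorem ok38 : chk (cU 1 true 3) t38 r21 = true :=
  chk_Q (e' := [0,0,0,-2,0,0,1,1,0,0,1]) (by decide +kernel) (by decide +kernel) ok32 ok37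

noncomputable def t39 : Tre :=
  .Q [0,0,0,1,0,0,-1,-1,0,1,-1] (.p false [0,0,1] [1] (⟨0,[(21,0)]⟩,⟨0,[(20,0)]⟩) .k 1 (⟨0,[]⟩,⟨0,
  []⟩) .k .k) t31 t38

theorem ok39 : chk (cU 1 true 3) t39 r17 = true :=
  chk_Q (e' := [0,0,0,-1,0,0,1,1,0,-1,1]) (by decide +kernel) (by decide +kernel) ok31 ok38

noncomputable def t40 : Tre :=
  .Q [0,0,0,0,0,1,0,0,0,0,-1] (.ed true [1,-1,1] .k) t30 t39

theorem ok40 : chk (cU 1 true 3) t40 r16 = true :=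
  chk_Q (e' := [0,0,0,0,0,-1,0,0,0,0,1]) (by decide +kernel) (by decide +kernel) ok30 ok39

noncomputable def t41 : Tre :=
  .I [1,0,1,1,-1,0,0,1] t23 t40

theorem ok41 : chk (cU 1 true 3) t41 r13 = true :=
  chk_I (e' := [0,0,-1,-1,1,0,0,-1]) (by decide +kernel) (by decide +kernel) ok23 ok40

noncomputable def t42 : Tre :=
  .I [0,0,1,0,0,1,2] t22 t41

theorem ok42 : chk (cU 1 true 3) t42 l12 = true :=
  chk_I (e' := [1,0,-1,0,0,-1,-2]) (by decide +kernel) (by decide +kernel) ok22 ok41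

noncomputable def t44 : Tre :=
  .I [1,0,-1,-1,1,0,0,-1] t42 t43

theorem ok44 : chk (cU 1 true 3) t44 r11 = true :=
  chk_I (e' := [0,0,1,1,-1,0,0,1]) (by decide +kernel) (by decide +kernel) ok42 ok43

noncomputable def t45 : Tre :=
  .I [0,1,1,1,-1] t17 t44

theorem ok45 : chk (cU 1 true 3) t45 l10 = true :=
  chk_I (e' := [1,-1,-1,-1,1]) (by decide +kernel) (by decide +kernel) ok17 ok44

noncomputable def t54 : Tre :=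
  .I [0,0,-2,-2,1] t52 t53

theorem ok54 : chk (cU 1 true 3) t54 l40 = true :=
  chk_I (e' := [1,0,2,2,-1]) (by decide +kernel) (by decide +kernel) ok52 ok53

noncomputable def t56 : Tre :=
  .Q [0,0,0,0,0,-1,0,0,0,1,-1] (.ed true [0,1,1] .k) t54 t55

theorem ok56 : chk (cU 1 true 3) t56 r39 = true :=
  chk_Q (e' := [0,0,0,0,0,1,0,0,0,-1,1]) (by decide +kernel) (by decide +kernel) ok54 ok55

noncomputable def t57 : Tre :=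
  .Q [0,0,2,0,-1,0,-1,0,0,1,-1] (.p false [0,0,1] [1] (⟨0,[(30,0)]⟩,⟨0,[(29,0)]⟩) .k 1 (⟨0,[]⟩,⟨0,
  []⟩) .k .k) t51 t56

theorem ok57 : chk (cU 1 true 3) t57 l38 = true :=
  chk_Q (e' := [0,0,-2,0,1,0,1,0,0,-1,1]) (by decide +kernel) (by decide +kernel) ok51 ok56

noncomputable def t60 : Tre :=
  .Q [0,-1,0,-1,0,0,2,2,0,-1,2] (.p true [0,0,1] [1,0,-1] (⟨0,[(30,0)]⟩,⟨0,[(29,0)]⟩) .k 2 (⟨0,[(29,
  0)]⟩,⟨0,[(30,0)]⟩) .k (.x (-1) ⟨0,[(23,1),(5,1),(8,0)]⟩ ⟨4,[(0,3),(0,1),(6,1),(16,1),(1,1),(2,9),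
  (4,1)]⟩)) t58 t59

theorem ok60 : chk (cU 1 true 3) t60 r38 = true :=
  chk_Q (e' := [0,1,0,1,0,0,-2,-2,0,1,-2]) (by decide +kernel) (by decide +kernel) ok58 ok59

noncomputable def t61 : Tre :=
  .Q [0,0,1,0,0,0,2,0,0,-1,2] (.p true [0,0,1] [1,0,-1] (⟨0,[(29,0)]⟩,⟨0,[(28,0)]⟩) .k 2 (⟨0,[(28,
  0)]⟩,⟨0,[(29,0)]⟩) .k (.x (-1) ⟨0,[(22,1),(5,1),(8,0)]⟩ ⟨0,[(14,1),(9,1),(4,1)]⟩)) t57 t60

theorem ok61 : chk (cU 1 true 3) t61 r37 = true :=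
  chk_Q (e' := [0,0,-1,0,0,0,-2,0,0,1,-2]) (by decide +kernel) (by decide +kernel) ok57 ok60

noncomputable def t62 : Tre :=
  .Q [0,0,0,-1,0,0,0,0,0,1] (.pp false [-1,1]) t50 t61

theorem ok62 : chk (cU 1 true 3) t62 l36 = true :=
  chk_Q (e' := [0,0,0,1,0,0,0,0,0,-1]) (by decide +kernel) (by decide +kernel) ok50 ok61

noncomputable def t66 : Tre :=
  .I [1,-1,-1,-2,1] t64 t65

theorem ok66 : chk (cU 1 true 3) t66 l46 = true :=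
  chk_I (e' := [0,1,1,2,-1]) (by decide +kernel) (by decide +kernel) ok64 ok65

noncomputable def t68 : Tre :=
  .I [0,0,-1,-1,1,0,0,0,1] t66 t67

theorem ok68 : chk (cU 1 true 3) t68 l45 = true :=
  chk_I (e' := [1,0,1,1,-1,0,0,0,-1]) (by decide +kernel) (by decide +kernel) ok66 ok67

noncomputable def t70 : Tre :=
  .I [1,-1,0,-1,1,0,0,-1] t68 t69

theorem ok70 : chk (cU 1 true 3) t70 r44 = true :=
  chk_I (e' := [0,1,0,1,-1,0,0,1]) (by decide +kernel) (by decide +kernel) ok68 ok69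

noncomputable def t71 : Tre :=
  .Q [0,0,2,0,-1,0,0,0,0,1] (.pp false [-1,1]) t63 t70

theorem ok71 : chk (cU 1 true 3) t71 l43 = true :=
  chk_Q (e' := [0,0,-2,0,1,0,0,0,0,-1]) (by decide +kernel) (by decide +kernel) ok63 ok70

noncomputable def t73 : Tre :=
  .I [1,0,-2,-1,1] t71 t72

theorem ok73 : chk (cU 1 true 3) t73 r36 = true :=
  chk_I (e' := [0,0,2,1,-1]) (by decide +kernel) (by decide +kernel) ok71 ok72

noncomputable def t74 : Tre :=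
  .Q [0,0,0,0,0,2,0,0,0,0,-1] (.p false [0,0,1] [] (⟨0,[(27,0)]⟩,⟨0,[(26,0)]⟩) .k 0 (⟨0,[]⟩,⟨0,[]⟩)
  .k .k) t62 t73

theorem ok74 : chk (cU 1 true 3) t74 l35 = true :=
  chk_Q (e' := [0,0,0,0,0,-2,0,0,0,0,1]) (by decide +kernel) (by decide +kernel) ok62 ok73

noncomputable def t76 : Tre :=
  .I [0,0,-1,-1,1,0,0,0,-1] t74 t75

theorem ok76 : chk (cU 1 true 3) t76 l34 = true :=
  chk_I (e' := [1,0,1,1,-1,0,0,0,1]) (by decide +kernel) (by decide +kernel) ok74 ok75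

noncomputable def t78 : Tre :=
  .I [1,-1,2,1,0,0,0,-1] t76 t77

theorem ok78 : chk (cU 1 true 3) t78 r33 = true :=
  chk_I (e' := [0,1,-2,-1,0,0,0,1]) (by decide +kernel) (by decide +kernel) ok76 ok77

noncomputable def t79 : Tre :=
  .Q [0,0,2,0,-1,0,0,0,0,0,0,1] (.p true [0,0,0,1] [] (⟨0,[(15,0)]⟩,⟨0,[(14,0)]⟩) .k 0 (⟨0,[]⟩,⟨0,
  []⟩) .k .k) t49 t78

theorem ok79 : chk (cU 1 true 3) t79 l32 = true :=
  chk_Q (e' := [0,0,-2,0,1,0,0,0,0,0,0,-1]) (by decide +kernel) (by decide +kernel) ok49 ok78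

noncomputable def t81 : Tre :=
  .Q [0,0,0,-2,0,0,1,1,0,0,1] (.p true [0,0,1] [] (⟨0,[(23,0)]⟩,⟨0,[(22,0)]⟩) .k 0 (⟨0,[]⟩,⟨0,[]⟩)
  .k .k) t79 t80

theorem ok81 : chk (cU 1 true 3) t81 l31 = true :=
  chk_Q (e' := [0,0,0,2,0,0,-1,-1,0,0,-1]) (by decide +kernel) (by decide +kernel) ok79 ok80

noncomputable def t83 : Tre :=
  .I [1,-1,-1,-1,1] t81 t82

theorem ok83 : chk (cU 1 true 3) t83 r30 = true :=
  chk_I (e' := [0,1,1,1,-1]) (by decide +kernel) (by decide +kernel) ok81 ok82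

noncomputable def t84 : Tre :=
  .Q [0,0,0,1,0,0,-1,-1,0,1,-1] (.p false [0,0,1] [1] (⟨0,[(21,0)]⟩,⟨0,[(20,0)]⟩) .k 1 (⟨0,[]⟩,⟨0,
  []⟩) .k .k) t48 t83

theorem ok84 : chk (cU 1 true 3) t84 l29 = true :=
  chk_Q (e' := [0,0,0,-1,0,0,1,1,0,-1,1]) (by decide +kernel) (by decide +kernel) ok48 ok83

noncomputable def t86 : Tre :=
  .Q [0,0,0,-2,0,0,2,2,0,-1,2] (.p true [0,0,1] [1,0,-1] (⟨0,[(20,0)]⟩,⟨0,[(19,0)]⟩) .k 2 (⟨0,[(19,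
  0)]⟩,⟨0,[(20,0)]⟩) .k (.x (-1) ⟨0,[(13,1),(5,1),(8,0)]⟩ ⟨0,[(5,1),(9,1),(4,1)]⟩)) t84 t85

theorem ok86 : chk (cU 1 true 3) t86 l28 = true :=
  chk_Q (e' := [0,0,0,2,0,0,-2,-2,0,1,-2]) (by decide +kernel) (by decide +kernel) ok84 ok85

noncomputable def t88 : Tre :=
  .I [1,-1,-2,-1,1,0,0,1] t86 t87

theorem ok88 : chk (cU 1 true 3) t88 r27 = true :=
  chk_I (e' := [0,1,2,1,-1,0,0,-1]) (by decide +kernel) (by decide +kernel) ok86 ok87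

noncomputable def t89 : Tre :=
  .I [1,0,-1,-2,0,0,0,1] t47 t88

theorem ok89 : chk (cU 1 true 3) t89 r26 = true :=
  chk_I (e' := [0,0,1,2,0,0,0,-1]) (by decide +kernel) (by decide +kernel) ok47 ok88

noncomputable def t90 : Tre :=
  .Q [0,0,0,0,0,1,0,0,0,0,-1] (.ed true [1,-1,1] .k) t46 t89

theorem ok90 : chk (cU 1 true 3) t90 l25 = true :=
  chk_Q (e' := [0,0,0,0,0,-1,0,0,0,0,1]) (by decide +kernel) (by decide +kernel) ok46 ok89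

noncomputable def t92 : Tre :=
  .Q [0,0,0,0,0,0,1,1,0,-1,1] (.p true [0,0,1] [1] (⟨0,[(16,0)]⟩,⟨0,[(15,0)]⟩) .k 1 (⟨0,[]⟩,⟨0,[]⟩)
  .k .k) t90 t91

theorem ok92 : chk (cU 1 true 3) t92 r10 = true :=
  chk_Q (e' := [0,0,0,0,0,0,-1,-1,0,1,-1]) (by decide +kernel) (by decide +kernel) ok90 ok91

noncomputable def t93 : Tre :=
  .Q [0,-1,0,1,0,0,1,1,0,-1,1] (.p true [0,0,1] [1] (⟨0,[(15,0)]⟩,⟨0,[(14,0)]⟩) .k 1 (⟨0,[]⟩,⟨0,
  []⟩) .k .k) t45 t92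

theorem ok93 : chk (cU 1 true 3) t93 r1 = true :=
  chk_Q (e' := [0,1,0,-1,0,0,-1,-1,0,1,-1]) (by decide +kernel) (by decide +kernel) ok45 ok92

noncomputable def t94 : Tre :=
  .I [0,1,0,0,0,0,0,-1] t16 t93

theorem ok94 : chk (cU 1 true 3) t94 l0 = true :=
  chk_I (e' := [1,-1,0,0,0,0,0,1]) (by decide +kernel) (by decide +kernel) ok16 ok93

noncomputable def t105 : Tre :=
  .Q [0,0,0,2,0,0,1,1,0,-1,1] (.p true [0,0,1] [1] (⟨0,[(25,0)]⟩,⟨0,[(24,0)]⟩) .k 1 (⟨0,[]⟩,⟨0,[]⟩)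
  .k .k) t103 t104

theorem ok105 : chk (cU 1 true 3) t105 r58 = true :=
  chk_Q (e' := [0,0,0,-2,0,0,-1,-1,0,1,-1]) (by decide +kernel) (by decide +kernel) ok103 ok104

noncomputable def t106 : Tre :=
  .I [0,0,-1,0,0,-1,-2] t102 t105

theorem ok106 : chk (cU 1 true 3) t106 r57 = true :=
  chk_I (e' := [1,0,1,0,0,1,2]) (by decide +kernel) (by decide +kernel) ok102 ok105

noncomputable def t107 : Tre :=
  .Q [0,0,0,0,0,2,0,0,0,0,-1] (.p false [0,0,1] [] (⟨0,[(23,0)]⟩,⟨0,[(22,0)]⟩) .k 0 (⟨0,[]⟩,⟨0,[]⟩)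
  .k .k) t101 t106

theorem ok107 : chk (cU 1 true 3) t107 r56 = true :=
  chk_Q (e' := [0,0,0,0,0,-2,0,0,0,0,1]) (by decide +kernel) (by decide +kernel) ok101 ok106

noncomputable def t108 : Tre :=
  .Q [0,-1,0,1,0,0,-1,-1,0,1,-1] (.p false [0,0,1] [1] (⟨0,[(22,0)]⟩,⟨0,[(21,0)]⟩) .k 1 (⟨0,[]⟩,⟨0,
  []⟩) .k .k) t100 t107

theorem ok108 : chk (cU 1 true 3) t108 l55 = true :=
  chk_Q (e' := [0,1,0,-1,0,0,1,1,0,-1,1]) (by decide +kernel) (by decide +kernel) ok100 ok107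

noncomputable def t110 : Tre :=
  .Q [0,0,-2,0,1,0,0,0,0,-1] (.pp true [-1,1]) t108 t109

theorem ok110 : chk (cU 1 true 3) t110 l54 = true :=
  chk_Q (e' := [0,0,2,0,-1,0,0,0,0,1]) (by decide +kernel) (by decide +kernel) ok108 ok109

noncomputable def t112 : Tre :=
  .I [1,-1,1,1,0,0,0,-1] t110 t111

theorem ok112 : chk (cU 1 true 3) t112 r53 = true :=
  chk_I (e' := [0,1,-1,-1,0,0,0,1]) (by decide +kernel) (by decide +kernel) ok110 ok111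

noncomputable def t113 : Tre :=
  .Q [0,0,0,0,0,1,0,0,0,0,-1] (.ed true [1,-1,1] .k) t99 t112

theorem ok113 : chk (cU 1 true 3) t113 r52 = true :=
  chk_Q (e' := [0,0,0,0,0,-1,0,0,0,0,1]) (by decide +kernel) (by decide +kernel) ok99 ok112

noncomputable def t114 : Tre :=
  .I [0,1,0,0,0,0,0,-1] t98 t113

theorem ok114 : chk (cU 1 true 3) t114 r51 = true :=
  chk_I (e' := [1,-1,0,0,0,0,0,1]) (by decide +kernel) (by decide +kernel) ok98 ok113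

noncomputable def t115 : Tre :=
  .Q [0,0,0,0,0,0,1,0,0,0,1] (.p true [0,0,1] [] (⟨0,[(17,0)]⟩,⟨0,[(16,0)]⟩) .k 0 (⟨0,[]⟩,⟨0,[]⟩)
  .k .k) t97 t114

theorem ok115 : chk (cU 1 true 3) t115 l50 = true :=
  chk_Q (e' := [0,0,0,0,0,0,-1,0,0,0,-1]) (by decide +kernel) (by decide +kernel) ok97 ok114

noncomputable def t123 : Tre :=
  .Q [0,0,0,0,0,2,0,0,0,-1,1] (.p true [0,0,1] [1] (⟨0,[(24,0)]⟩,⟨0,[(23,0)]⟩) .k 1 (⟨0,[]⟩,⟨0,[]⟩)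
  .k .k) t121 t122

theorem ok123 : chk (cU 1 true 3) t123 l66 = true :=
  chk_Q (e' := [0,0,0,0,0,-2,0,0,0,1,-1]) (by decide +kernel) (by decide +kernel) ok121 ok122

noncomputable def t125 : Tre :=
  .Q [0,0,0,0,0,-2,0,0,0,0,1] (.p true [0,0,1] [] (⟨0,[(23,0)]⟩,⟨0,[(22,0)]⟩) .k 0 (⟨0,[]⟩,⟨0,[]⟩)
  .k .k) t123 t124

theorem ok125 : chk (cU 1 true 3) t125 r65 = true :=
  chk_Q (e' := [0,0,0,0,0,2,0,0,0,0,-1]) (by decide +kernel) (by decide +kernel) ok123 ok124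

noncomputable def t126 : Tre :=
  .I [0,1,-1,-1,0,0,0,1] t120 t125

theorem ok126 : chk (cU 1 true 3) t126 l64 = true :=
  chk_I (e' := [1,-1,1,1,0,0,0,-1]) (by decide +kernel) (by decide +kernel) ok120 ok125

noncomputable def t128 : Tre :=
  .Q [0,0,0,-2,0,0,1,1,0,0,1] (.p true [0,0,1] [] (⟨0,[(21,0)]⟩,⟨0,[(20,0)]⟩) .k 0 (⟨0,[]⟩,⟨0,[]⟩)
  .k .k) t126 t127

theorem ok128 : chk (cU 1 true 3) t128 r63 = true :=
  chk_Q (e' := [0,0,0,2,0,0,-1,-1,0,0,-1]) (by decide +kernel) (by decide +kernel) ok126 ok127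

noncomputable def t129 : Tre :=
  .Q [0,0,0,0,0,1,0,0,0,0,-1] (.ed true [1,-1,1] .k) t119 t128

theorem ok129 : chk (cU 1 true 3) t129 r62 = true :=
  chk_Q (e' := [0,0,0,0,0,-1,0,0,0,0,1]) (by decide +kernel) (by decide +kernel) ok119 ok128

noncomputable def t130 : Tre :=
  .I [0,1,0,0,0,0,0,-1] t118 t129

theorem ok130 : chk (cU 1 true 3) t130 r61 = true :=
  chk_I (e' := [1,-1,0,0,0,0,0,1]) (by decide +kernel) (by decide +kernel) ok118 ok129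

noncomputable def t131 : Tre :=
  .Q [0,0,0,0,0,0,1,0,0,0,1] (.p true [0,0,1] [] (⟨0,[(18,0)]⟩,⟨0,[(17,0)]⟩) .k 0 (⟨0,[]⟩,⟨0,[]⟩)
  .k .k) t117 t130

theorem ok131 : chk (cU 1 true 3) t131 r60 = true :=
  chk_Q (e' := [0,0,0,0,0,0,-1,0,0,0,-1]) (by decide +kernel) (by decide +kernel) ok117 ok130

noncomputable def t132 : Tre :=
  .I [0,0,2,0,-1,2,-1] t116 t131

theorem ok132 : chk (cU 1 true 3) t132 r50 = true :=
  chk_I (e' := [1,0,-2,0,1,-2,1]) (by decide +kernel) (by decide +kernel) ok116 ok131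

noncomputable def t133 : Tre :=
  .Q [0,-1,0,1,0,0,1,1,0,0,1] (.p true [0,0,1] [] (⟨0,[(16,0)]⟩,⟨0,[(15,0)]⟩) .k 0 (⟨0,[]⟩,⟨0,[]⟩)
  .k .k) t115 t132

theorem ok133 : chk (cU 1 true 3) t133 r49 = true :=
  chk_Q (e' := [0,1,0,-1,0,0,-1,-1,0,0,-1]) (by decide +kernel) (by decide +kernel) ok115 ok132

noncomputable def t134 : Tre :=
  .I [1,0,2,1,-1,0,0,1] t96 t133

theorem ok134 : chk (cU 1 true 3) t134 r48 = true :=
  chk_I (e' := [0,0,-2,-1,1,0,0,-1]) (by decide +kernel) (by decide +kernel) ok96 ok133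

noncomputable def t135 : Tre :=
  .Q [0,0,0,0,0,1,0,0,0,-1,1] (.ed false [0,1,1] .k) t95 t134

theorem ok135 : chk (cU 1 true 3) t135 r0 = true :=
  chk_Q (e' := [0,0,0,0,0,-1,0,0,0,1,-1]) (by decide +kernel) (by decide +kernel) ok95 ok134

noncomputable def t136 : Tre :=
  .Q [0,0,0,1,0,0,1,1,0,-1,1] (.p true [0,0,1] [1] (⟨0,[(13,0)]⟩,⟨0,[(12,0)]⟩) .k 1 (⟨0,[]⟩,⟨0,[]⟩)
  .k .k) t94 t135

theorem ok136 : chk (cU 1 true 3) t136 base = true :=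
  chk_Q (e' := [0,0,0,-1,0,0,-1,-1,0,1,-1]) (by decide +kernel) (by decide +kernel) ok94 ok135

theorem ok : chkB (cU 1 true 3) (fax (fcU 1) true 35 1 3 true (tU true)) t136 base = true :=
  chkB_of (by decide +kernel) ok136

end Helper11.CT.T1_35_1_1_u
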