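import Pool.Agent.Helper11.CT.T.T1_35_1_m1_v_p0
import Pool.Agent.Helper11.CT.T.T1_35_1_m1_v_p1

set_option autoImplicit false
set_option linter.all false

namespace Helper11.CT.T1_35_1_m1_v

open Helper11.CT

noncomputable def t4 : Tre :=
  .I [0,0,-1,0,0,-1,2] t2 t3

theorem ok4 : chk (cU 1 false 10) t4 l8 = true :=
  chk_I (e' := [1,0,1,0,0,1,-2]) (by decide +kernel) (by decide +kernel) ok2 ok3

noncomputable def t6 : Tre :=
  .Q [0,0,0,-1,0,0,-1,-1,0,1,-1] (.p false [0,0,1] [1] (⟨0,[(21,0)]⟩,⟨0,[(20,0)]⟩) .k 1 (⟨0,[]⟩,⟨0,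
  []⟩) .k .k) t4 t5

theorem ok6 : chk (cU 1 false 10) t6 l7 = true :=
  chk_Q (e' := [0,0,0,1,0,0,1,1,0,-1,1]) (by decide +kernel) (by decide +kernel) ok4 ok5

noncomputable def t8 : Tre :=
  .Q [0,0,0,0,0,0,1,0,0,-2,1] (.p true [-1,1,1] [1] (⟨0,[(2,0)]⟩,⟨0,[(19,0),(2,0)]⟩) .k 1 (⟨0,[]⟩,
  ⟨0,[]⟩) .k .k) t6 t7

theorem ok8 : chk (cU 1 false 10) t8 r6 = true :=
  chk_Q (e' := [0,0,0,0,0,0,-1,0,0,2,-1]) (by decide +kernel) (by decide +kernel) ok6 ok7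

noncomputable def t9 : Tre :=
  .Q [0,0,0,-1,0,0,0,0,0,1] (.pp false [-1,1]) t1 t8

theorem ok9 : chk (cU 1 false 10) t9 r5 = true :=
  chk_Q (e' := [0,0,0,1,0,0,0,0,0,-1]) (by decide +kernel) (by decide +kernel) ok1 ok8

noncomputable def t10 : Tre :=
  .I [1,1,0,0,0,0,0,1] t0 t9

theorem ok10 : chk (cU 1 false 10) t10 l4 = true :=
  chk_I (e' := [0,-1,0,0,0,0,0,-1]) (by decide +kernel) (by decide +kernel) ok0 ok9

noncomputable def t13 : Tre :=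
  .I [0,1,0,1,0,0,0,1] t11 t12

theorem ok13 : chk (cU 1 false 10) t13 l10 = true :=
  chk_I (e' := [1,-1,0,-1,0,0,0,-1]) (by decide +kernel) (by decide +kernel) ok11 ok12

noncomputable def t15 : Tre :=
  .Q [0,0,0,0,0,0,-1,-1,0,0,-1] (.p false [0,0,1] [] (⟨0,[(18,0)]⟩,⟨0,[(17,0)]⟩) .k 0 (⟨0,[]⟩,⟨0,
  []⟩) .k .k) t13 t14

theorem ok15 : chk (cU 1 false 10) t15 r4 = true :=
  chk_Q (e' := [0,0,0,0,0,0,1,1,0,0,1]) (by decide +kernel) (by decide +kernel) ok13 ok14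

noncomputable def t16 : Tre :=
  .Q [0,0,0,0,0,1,0,0,0,-1,1] (.ed false [0,1,1] .k) t10 t15

theorem ok16 : chk (cU 1 false 10) t16 l3 = true :=
  chk_Q (e' := [0,0,0,0,0,-1,0,0,0,1,-1]) (by decide +kernel) (by decide +kernel) ok10 ok15

noncomputable def t18 : Tre :=
  .I [0,0,0,-1,0,0,0,-1] t16 t17

theorem ok18 : chk (cU 1 false 10) t18 l2 = true :=
  chk_I (e' := [1,0,0,1,0,0,0,1]) (by decide +kernel) (by decide +kernel) ok16 ok17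

noncomputable def t23 : Tre :=
  .Q [0,0,0,0,0,2,0,0,0,-1,1] (.p true [0,0,1] [1] (⟨0,[(21,0)]⟩,⟨0,[(20,0)]⟩) .k 1 (⟨0,[]⟩,⟨0,[]⟩)
  .k .k) t21 t22

theorem ok23 : chk (cU 1 false 10) t23 r16 = true :=
  chk_Q (e' := [0,0,0,0,0,-2,0,0,0,1,-1]) (by decide +kernel) (by decide +kernel) ok21 ok22

noncomputable def t24 : Tre :=
  .I [0,1,1,1,-1,0,0,-1] t20 t23

theorem ok24 : chk (cU 1 false 10) t24 r15 = true :=
  chk_I (e' := [1,-1,-1,-1,1,0,0,1]) (by decide +kernel) (by decide +kernel) ok20 ok23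

noncomputable def t25 : Tre :=
  .I [0,1,0,0,0,0,0,1] t19 t24

theorem ok25 : chk (cU 1 false 10) t25 l14 = true :=
  chk_I (e' := [1,-1,0,0,0,0,0,-1]) (by decide +kernel) (by decide +kernel) ok19 ok24

noncomputable def t27 : Tre :=
  .I [0,-1,-1,-1,1,0,0,-1] t25 t26

theorem ok27 : chk (cU 1 false 10) t27 l13 = true :=
  chk_I (e' := [1,1,1,1,-1,0,0,1]) (by decide +kernel) (by decide +kernel) ok25 ok26

noncomputable def t29 : Tre :=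
  .I [0,1,0,1,0,0,0,1] t27 t28

theorem ok29 : chk (cU 1 false 10) t29 l12 = true :=
  chk_I (e' := [1,-1,0,-1,0,0,0,-1]) (by decide +kernel) (by decide +kernel) ok27 ok28

noncomputable def t31 : Tre :=
  .Q [0,0,0,0,0,-1,0,0,0,1,-1] (.ed true [0,1,1] .k) t29 t30

theorem ok31 : chk (cU 1 false 10) t31 r2 = true :=
  chk_Q (e' := [0,0,0,0,0,1,0,0,0,-1,1]) (by decide +kernel) (by decide +kernel) ok29 ok30

noncomputable def t32 : Tre :=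
  .Q [0,0,0,1,0,0,-1,-1,0,0,-1] (.p false [0,0,1] [] (⟨0,[(15,0)]⟩,⟨0,[(14,0)]⟩) .k 0 (⟨0,[]⟩,⟨0,
  []⟩) .k .k) t18 t31

theorem ok32 : chk (cU 1 false 10) t32 l1 = true :=
  chk_Q (e' := [0,0,0,-1,0,0,1,1,0,0,1]) (by decide +kernel) (by decide +kernel) ok18 ok31

noncomputable def t34 : Tre :=
  .I [0,0,0,-1,1,0,0,1] t32 t33

theorem ok34 : chk (cU 1 false 10) t34 l0 = true :=
  chk_I (e' := [1,0,0,1,-1,0,0,-1]) (by decide +kernel) (by decide +kernel) ok32 ok33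

noncomputable def t36 : Tre :=
  .Q [0,0,0,0,0,0,1,0,0,-1,1] (.p true [0,0,1] [1] (⟨0,[(13,0)]⟩,⟨0,[(12,0)]⟩) .k 1 (⟨0,[]⟩,⟨0,[]⟩)
  .k .k) t34 t35

theorem ok36 : chk (cU 1 false 10) t36 base = true :=
  chk_Q (e' := [0,0,0,0,0,0,-1,0,0,1,-1]) (by decide +kernel) (by decide +kernel) ok34 ok35

theorem ok : chkB (cU 1 false 10) (fax (fcU 1) true 35 1 10 false (tU false)) t36 base = true :=
  chkB_of (by decide +kernel) ok36

end Helper11.CT.T1_35_1_m1_v
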