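import Pool.Agent.Helper11.CT.Cfg
import Pool.Agent.Helper11.CT.Cut

set_option autoImplicit false
set_option linter.all false

namespace Helper11.CT.T1_35_m1_1_u

open Helper11.CT

noncomputable def base : List Con :=
  [(false,[0,0,0,0,0,0,2,2,0,1,-2]),
  (true,[0,0,0,0,1,0,0,0,-2]),
  (true,[0,0,0,0,1,0,0,0,2]),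
  (false,[0,0,0,0,0,0,0,0,0,1,0,-1]),
  (false,[0,0,0,0,0,0,0,0,0,0,0,1]),
  (false,[0,1,0,0,0,0,-1,-1,0,-1,1]),
  (false,[0,0,1,0,0,0,-1,0,0,-1,1]),
  (false,[0,1,0,0,0,0,1,1,0,0,-1]),
  (false,[0,1,0,0,0,0,-1,-1,0,0,1]),
  (false,[0,0,1,0,0,0,1,0,0,0,-1]),
  (false,[0,0,1,0,0,0,-1,0,0,0,1]),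
  (true,[0,0,0,0,0,0,0,1]),
  (false,[0,0,0,0,0,0,0,0,0,1,-1]),
  (false,[0,0,0,0,0,0,0,0,0,0,1]),
  (false,[0,0,0,0,1,0,0,0,0,-2]),
  (false,[0,0,0,0,0,-1,0,0,0,1]),
  (true,[0,0,0,0,0,1]),
  (true,[0,2,-1]),
  (true,[1,-1,1]),
  (true,[0,1,0,-1]),
  (true,[0,0,0,1]),
  (true,[0,0,-2,0,1]),
  (true,[0,-2,0,0,1]),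
  (true,[-1,0,1]),
  (true,[-1,1])]

noncomputable def l0 : List Con := (true, [0,0,0,1,0,0,0,-1]) :: base

noncomputable def r0 : List Con := (true, [1,0,0,-1,0,0,0,1]) :: base

noncomputable def t0 : Tre :=
  (.Q [0,-1,0,1,0,0,1,0,0,1,-1] (.p false [0,0,1] [1] (⟨0,[(14,0)]⟩,⟨0,[(13,0)]⟩) .k 1 (⟨0,[]⟩,⟨0,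
  []⟩) .k .k) (.R ⟨2,true,false,true,[0,1],[1,0,-1],[1,1,1],(⟨0,[]⟩,⟨0,[]⟩),(⟨0,[(14,0)]⟩,⟨0,[(15,
  0)]⟩),⟨0,[]⟩,.k,.k,.k,.k,.k,.k,⟨false,0,⟨0,[(13,0)]⟩,⟨1,[(1,1),(19,1),(1,0),(0,0)]⟩⟩,⟨true,0,⟨0,
  [(8,0)]⟩,⟨0,[(0,0),(20,0)]⟩⟩,⟨true,0,⟨0,[(21,0)]⟩,⟨0,[(22,0)]⟩⟩,⟨false,1,⟨0,[(7,0),(13,0),(2,0)]⟩,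
  ⟨0,[(0,0),(12,0)]⟩⟩,⟨false,0,⟨0,[]⟩,⟨3,[(3,0),(0,0),(19,1)]⟩⟩,⟨true,0,⟨0,[(7,0)]⟩,⟨1,[(2,0),(2,0),
  (0,0)]⟩⟩,[]⟩) (.Q [0,-1,0,1,0,0,-1,-1,0,0,1] (.p true [0,0,1] [] (⟨0,[(15,0)]⟩,⟨0,[(14,0)]⟩) .k 0
  (⟨0,[]⟩,⟨0,[]⟩) .k .k) (.R ⟨2,true,false,true,[0,1],[0,0,1],[0,1,1,1],(⟨0,[]⟩,⟨0,[]⟩),(⟨0,[(16,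
  0)]⟩,⟨0,[(15,0)]⟩),⟨0,[]⟩,.k,.k,.k,.k,.k,.k,⟨false,0,⟨0,[(2,0)]⟩,⟨1,[(14,1),(7,1),(1,0),(0,0)]⟩⟩,
  ⟨true,0,⟨0,[(12,0)]⟩,⟨1,[(0,0),(0,0),(4,0),(0,0),(6,0)]⟩⟩,⟨true,0,⟨0,[(27,0)]⟩,⟨0,[]⟩⟩,⟨false,1,
  ⟨7,[(3,3),(0,0),(0,0),(11,1),(4,7),(2,3)]⟩,⟨0,[(0,0)]⟩⟩,⟨false,0,⟨0,[(23,0)]⟩,⟨0,[(22,0),(2,0)]⟩⟩,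
  ⟨true,0,⟨0,[(10,0)]⟩,⟨0,[(0,0),(21,0)]⟩⟩,[]⟩) (.Q [0,0,0,0,0,0,-2,-1,0,-1,2] (.p true [0,0,1] [1,
  0,-1] (⟨0,[(16,0)]⟩,⟨0,[(15,0)]⟩) .k 2 (⟨0,[(15,0)]⟩,⟨0,[(16,0)]⟩) .k (.r 0 ⟨0,[(14,1)]⟩ ⟨0,[(2,
  1),(19,1),(2,0)]⟩)) (.Q [0,0,0,0,0,1,0,0,0,0,-1] (.ed true [1,-1,1] .k) (.I [0,0,2,2,-1,0,0,-1]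
  (.K ⟨2,[0,1,-1],0,0,(⟨0,[(1,0)]⟩,⟨0,[(19,0),(1,0)]⟩),.k,.k,(.r 1 ⟨0,[(0,0)]⟩ ⟨0,[(17,0),(7,1),(1,
  0),(0,0)]⟩),(.r 0 ⟨0,[(5,1),(18,0),(0,0)]⟩ ⟨1,[(17,3),(7,1),(1,0),(0,0)]⟩),.k,[⟨0,[(2,0),(2,0),(3,
  0),(0,0)]⟩,⟨0,[(3,0)]⟩,⟨1,[(15,2),(0,0)]⟩,⟨1,[(2,0),(6,0),(0,0),(6,0)]⟩]⟩) (.Q [0,0,0,0,0,0,1,0,0,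
  1,-1] (.p false [0,0,1] [1] (⟨0,[(19,0)]⟩,⟨0,[(18,0)]⟩) .k 1 (⟨0,[]⟩,⟨0,[]⟩) .k .k) (.R ⟨0,false,
  false,true,[0,0,1],[1,0,-1],[1,0,0,-1,0,0,0,1],(⟨0,[(20,0)]⟩,⟨0,[(19,0)]⟩),(⟨0,[(19,0)]⟩,⟨0,[(20,
  0)]⟩),⟨0,[(2,0)]⟩,.k,.k,.k,.k,.k,.k,⟨false,1,⟨1,[(1,0),(16,2),(10,0)]⟩,⟨0,[(6,1),(19,0)]⟩⟩,⟨true,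
  0,⟨0,[(3,0),(14,0)]⟩,⟨0,[(0,0),(15,0)]⟩⟩,⟨false,1,⟨0,[(26,0),(2,0)]⟩,⟨0,[(27,0)]⟩⟩,⟨true,0,⟨0,[(3,
  0),(2,0),(19,0)]⟩,⟨0,[(7,0)]⟩⟩,⟨false,0,⟨0,[]⟩,⟨0,[]⟩⟩,⟨false,0,⟨0,[]⟩,⟨0,[]⟩⟩,[.o ⟨false,0,⟨0,
  [(12,0)]⟩,⟨7,[(7,3),(0,0),(0,0),(11,1),(7,3)]⟩⟩,.a ⟨true,0,⟨0,[(0,0),(2,0)]⟩,⟨1,[(7,0),(2,0),(0,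
  0)]⟩⟩ ⟨false,1,⟨1,[(1,0),(16,0),(10,0)]⟩,⟨0,[(6,0),(24,0)]⟩⟩ ⟨true,0,⟨0,[(3,0)]⟩,⟨3,[(0,1),(6,1),
  (8,2),(0,0)]⟩⟩,.e ⟨false,1,⟨5,[(1,1),(2,1),(2,0),(5,0),(3,2),(11,3)]⟩,⟨0,[(6,0)]⟩⟩ ⟨false,0,⟨0,
  [(3,0)]⟩,⟨7,[(0,3),(6,3),(0,0),(0,0),(6,3),(11,1),(0,3)]⟩⟩,.o ⟨false,0,⟨0,[(16,0)]⟩,⟨2,[(3,0),(13,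
  0),(0,0),(2,0),(6,1)]⟩⟩]⟩) (.Q [0,0,0,0,0,0,-1,-1,0,0,1] (.p true [0,0,1] [] (⟨0,[(20,0)]⟩,⟨0,
  [(19,0)]⟩) .k 0 (⟨0,[]⟩,⟨0,[]⟩) .k .k) (.R ⟨2,false,false,false,[0,1],[0,0,1],[1,1,1],(⟨0,[]⟩,⟨0,
  []⟩),(⟨0,[(21,0)]⟩,⟨0,[(20,0)]⟩),⟨0,[]⟩,.k,.k,.k,.k,.k,.k,⟨false,0,⟨0,[(7,0),(19,0)]⟩,⟨1,[(19,1),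
  (9,0),(0,0)]⟩⟩,⟨true,0,⟨0,[(17,0)]⟩,⟨0,[(0,0),(18,0)]⟩⟩,⟨true,0,⟨0,[(27,0)]⟩,⟨0,[(28,0)]⟩⟩,⟨false,
  1,⟨0,[(5,0),(24,0)]⟩,⟨0,[(0,0),(27,0)]⟩⟩,⟨false,0,⟨0,[]⟩,⟨3,[(9,0),(0,0),(19,1)]⟩⟩,⟨false,1,⟨7,
  [(8,3),(0,0),(0,0),(11,1),(7,3)]⟩,⟨0,[(0,0)]⟩⟩,[.a ⟨true,0,⟨1,[(8,0),(2,0),(0,0)]⟩,⟨0,[(0,0)]⟩⟩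
  ⟨false,0,⟨0,[(32,0)]⟩,⟨1,[(29,0),(0,0)]⟩⟩ ⟨true,0,⟨1,[(8,0),(5,0),(2,0)]⟩,⟨0,[(0,0)]⟩⟩,.o ⟨false,
  1,⟨7,[(8,3),(0,0),(0,0),(11,1),(7,3)]⟩,⟨0,[(13,0)]⟩⟩,.o ⟨false,1,⟨3,[(9,0),(0,0),(18,1)]⟩,⟨0,[(1,
  0),(15,0)]⟩⟩,.e ⟨false,0,⟨0,[]⟩,⟨3,[(9,0),(0,0),(19,1)]⟩⟩ ⟨false,1,⟨7,[(8,3),(0,0),(0,0),(11,1),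
  (7,3)]⟩,⟨0,[(0,0)]⟩⟩]⟩) (.R ⟨2,true,false,false,[0,1],[0,0,1],[1,1,1],(⟨0,[]⟩,⟨0,[]⟩),(⟨0,[(21,
  0)]⟩,⟨0,[(20,0)]⟩),⟨0,[]⟩,.k,.k,.k,.k,.k,.k,⟨false,0,⟨0,[(7,0),(19,0)]⟩,⟨1,[(19,1),(9,0),(0,0)]⟩⟩,
  ⟨true,0,⟨0,[(17,0)]⟩,⟨1,[(4,0),(6,0),(0,0),(6,0)]⟩⟩,⟨true,0,⟨0,[(27,0)]⟩,⟨0,[(28,0)]⟩⟩,⟨false,1,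
  ⟨0,[(5,0),(24,0)]⟩,⟨1,[(4,0),(2,0),(3,0),(0,0),(15,0)]⟩⟩,⟨false,0,⟨0,[]⟩,⟨3,[(9,0),(0,0),(19,
  1)]⟩⟩,⟨true,0,⟨0,[(0,0)]⟩,⟨0,[(16,0)]⟩⟩,[]⟩)))) (.Q [0,0,0,0,0,0,1,0,0,1,-1] (.p false [0,0,1]
  [1] (⟨0,[(18,0)]⟩,⟨0,[(17,0)]⟩) .k 1 (⟨0,[]⟩,⟨0,[]⟩) .k .k) (.R ⟨1,true,false,true,[0,0,1],[1,0,
  -1],[],(⟨0,[(19,0)]⟩,⟨0,[(18,0)]⟩),(⟨0,[(18,0)]⟩,⟨0,[(19,0)]⟩),⟨0,[(1,0)]⟩,.k,.k,.k,.k,(.r (-1)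
  ⟨1,[(17,3),(7,1),(1,0),(0,0)]⟩ ⟨0,[(5,1),(18,0),(0,0)]⟩),.k,⟨false,1,⟨1,[(17,1),(9,0),(0,0)]⟩,⟨0,
  [(5,0),(19,0)]⟩⟩,⟨true,0,⟨0,[(2,0),(14,0)]⟩,⟨0,[(0,0),(14,0)]⟩⟩,⟨false,1,⟨0,[(5,0),(19,0),(2,0)]⟩,
  ⟨0,[(17,0)]⟩⟩,⟨true,0,⟨0,[(2,0),(2,0),(19,0)]⟩,⟨0,[(6,0)]⟩⟩,⟨true,0,⟨0,[(5,0)]⟩,⟨0,[(17,0),(7,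
  0)]⟩⟩,⟨false,0,⟨0,[(2,0),(2,0)]⟩,⟨0,[(6,0),(18,0),(2,0)]⟩⟩,[]⟩) (.R ⟨2,true,false,true,[0,1],[1,1,
  -1],[0,0,1,1],(⟨0,[]⟩,⟨0,[]⟩),(⟨0,[(18,0),(3,0)]⟩,⟨0,[(1,0)]⟩),⟨0,[]⟩,.k,.k,.k,.k,.k,.k,⟨false,1,
  ⟨1,[(17,1),(9,0),(0,0)]⟩,⟨0,[(5,0),(19,0)]⟩⟩,⟨true,0,⟨0,[(0,0)]⟩,⟨0,[(9,0),(0,0),(4,0)]⟩⟩,⟨false,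
  1,⟨3,[(7,0),(0,0),(19,1)]⟩,⟨0,[]⟩⟩,⟨true,0,⟨0,[(11,0)]⟩,⟨1,[(6,0),(2,0),(0,0)]⟩⟩,⟨true,0,⟨0,[(26,
  0)]⟩,⟨0,[(25,0)]⟩⟩,⟨false,0,⟨0,[(0,0),(4,0)]⟩,⟨1,[(6,0),(2,0),(0,0),(14,1),(2,1)]⟩⟩,[]⟩))) (.Q [0,
  0,0,0,0,0,1,0,0,1,-1] (.p false [0,0,1] [1] (⟨0,[(17,0)]⟩,⟨0,[(16,0)]⟩) .k 1 (⟨0,[]⟩,⟨0,[]⟩) .k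
  .k) (.Q [0,-1,0,1,0,0,1,1,0,1,-1] (.p false [0,0,1] [1] (⟨0,[(18,0)]⟩,⟨0,[(17,0)]⟩) .k 1 (⟨0,[]⟩,
  ⟨0,[]⟩) .k .k) (.R ⟨2,true,false,true,[0,1],[1,0,-1],[1,1,1],(⟨0,[]⟩,⟨0,[]⟩),(⟨0,[(18,0)]⟩,⟨0,
  [(19,0)]⟩),⟨0,[]⟩,.k,.k,.k,.k,.k,.k,⟨false,0,⟨0,[(17,0)]⟩,⟨1,[(5,1),(19,1),(1,0),(0,0)]⟩⟩,⟨true,0,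
  ⟨0,[(12,0)]⟩,⟨0,[(1,0)]⟩⟩,⟨true,0,⟨0,[(25,0)]⟩,⟨0,[(26,0)]⟩⟩,⟨false,1,⟨0,[(11,0),(13,0),(2,0)]⟩,
  ⟨0,[(0,0)]⟩⟩,⟨false,0,⟨0,[]⟩,⟨3,[(7,0),(0,0),(19,1)]⟩⟩,⟨true,0,⟨0,[(11,0)]⟩,⟨1,[(6,0),(2,0),(0,
  0)]⟩⟩,[]⟩) (.Q [0,0,0,0,0,-1,0,0,0,0,1] (.ed false [1,-1,1] .k) (.Q [0,0,2,0,-1,0,1,0,0,1,-1] (.p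
  false [0,0,1] [1] (⟨0,[(20,0)]⟩,⟨0,[(19,0)]⟩) .k 1 (⟨0,[]⟩,⟨0,[]⟩) .k .k) (.Q [0,-1,0,-1,1,0,0,0,
  0,-1] (.pp true [-1,1]) (.Q [0,0,0,0,0,0,-1,0,0,0,1] (.p true [0,0,1] [] (⟨0,[(22,0)]⟩,⟨0,[(21,
  0)]⟩) .k 0 (⟨0,[]⟩,⟨0,[]⟩) .k .k) (.R ⟨1,false,false,false,[0,0,1],[1,-1],[0,0,0,0,0,0,0,1],(⟨0,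
  [(23,0)]⟩,⟨0,[(22,0)]⟩),(⟨0,[(25,0)]⟩,⟨0,[(26,0)]⟩),⟨0,[(3,0)]⟩,.k,.k,.k,.k,.k,.k,⟨false,0,⟨0,
  [(21,0),(8,0)]⟩,⟨1,[(4,1),(0,1),(25,0),(0,0)]⟩⟩,⟨true,0,⟨0,[(16,0)]⟩,⟨0,[(5,0)]⟩⟩,⟨false,1,⟨3,
  [(11,0),(0,0),(19,1)]⟩,⟨0,[]⟩⟩,⟨false,1,⟨0,[(4,0),(27,0)]⟩,⟨1,[(10,0),(2,0),(0,0),(15,1)]⟩⟩,⟨true,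
  0,⟨0,[(30,0)]⟩,⟨0,[(29,0)]⟩⟩,⟨false,1,⟨0,[(15,0),(16,0)]⟩,⟨1,[(10,0),(2,0),(0,0)]⟩⟩,[.o ⟨false,1,
  ⟨7,[(1,3),(9,0),(0,0),(11,1),(4,3)]⟩,⟨0,[(30,0)]⟩⟩,.o ⟨false,1,⟨0,[(1,0)]⟩,⟨0,[(30,0),(3,0)]⟩⟩,.a
  ⟨true,0,⟨0,[(5,0)]⟩,⟨0,[(0,0)]⟩⟩ ⟨true,0,⟨0,[(21,0)]⟩,⟨4,[(4,1),(0,1),(3,1),(8,0),(0,0),(7,0)]⟩⟩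
  ⟨false,1,⟨0,[(8,0),(23,0)]⟩,⟨0,[(5,0),(24,0)]⟩⟩,.o ⟨false,0,⟨0,[(19,0)]⟩,⟨1,[(0,1),(23,0),(6,
  0)]⟩⟩]⟩) (.Q [0,0,0,0,0,1,0,0,0,-1,1] (.ed false [0,1,1] .k) (.Q [0,-1,0,1,0,0,1,1,0,2,-1] (.p
  false [-1,1,1] [1] (⟨0,[(0,0)]⟩,⟨0,[(23,0),(2,0)]⟩) .k 1 (⟨0,[]⟩,⟨0,[]⟩) .k .k) (.R ⟨0,false,
  false,true,[1,0,-1],[2,-1,-1],[1,0,1],(⟨0,[(24,0)]⟩,⟨0,[(25,0)]⟩),(⟨0,[(24,0),(2,0)]⟩,⟨0,[(1,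
  0)]⟩),⟨0,[(1,0)]⟩,.k,.k,.k,.k,.k,.k,⟨false,0,⟨0,[(23,0),(6,0),(1,0)]⟩,⟨0,[(6,0),(0,0),(25,0)]⟩⟩,
  ⟨true,0,⟨0,[(2,0),(15,0)]⟩,⟨0,[(15,0),(0,0)]⟩⟩,⟨false,0,⟨0,[(23,0),(6,0)]⟩,⟨7,[(6,3),(0,3),(3,3),
  (1,0),(0,0),(18,3),(0,1)]⟩⟩,⟨true,0,⟨0,[(2,0),(7,0)]⟩,⟨1,[(0,0),(19,0),(11,0)]⟩⟩,⟨false,0,⟨0,[]⟩,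
  ⟨0,[]⟩⟩,⟨false,0,⟨0,[]⟩,⟨0,[]⟩⟩,[.a ⟨true,0,⟨0,[(6,0)]⟩,⟨0,[(0,0)]⟩⟩ ⟨false,0,⟨0,[]⟩,⟨3,[(13,0),
  (0,0),(18,1)]⟩⟩ ⟨true,0,⟨0,[(2,0),(3,0)]⟩,⟨0,[(0,0),(17,0)]⟩⟩,.o ⟨false,1,⟨1,[(6,1),(19,0),(7,
  0)]⟩,⟨1,[(0,0),(18,0),(12,0)]⟩⟩,.o ⟨false,1,⟨1,[(22,1),(3,0),(6,0)]⟩,⟨0,[(2,0)]⟩⟩,.o ⟨false,0,⟨0,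
  [(18,0)]⟩,⟨1,[(7,1),(18,0),(6,0)]⟩⟩]⟩) (.I [0,0,2,2,-1,0,0,1] (.K ⟨2,[-1,1,1],0,0,(⟨0,[(2,0)]⟩,⟨0,
  [(25,0),(2,0)]⟩),.k,.k,(.r 1 ⟨0,[(0,0)]⟩ ⟨0,[(7,0),(0,0),(23,0),(1,0),(0,0)]⟩),.k,.k,[⟨2,[(0,0),
  (11,0),(3,2),(0,2),(16,0)]⟩,⟨0,[(7,0)]⟩,⟨2,[(5,0),(13,1),(3,1),(3,0)]⟩,⟨0,[(8,0)]⟩]⟩) (.K ⟨2,[-1,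
  1,1],0,0,(⟨0,[(2,0)]⟩,⟨0,[(25,0),(2,0)]⟩),.k,.k,(.x (-1) ⟨0,[(2,0),(5,0),(20,0),(4,0)]⟩ ⟨2,[(1,3),
  (3,0),(18,3),(0,2),(1,0),(0,5),(2,3),(1,3)]⟩),.k,.k,[⟨0,[(16,0),(0,0),(15,0)]⟩,⟨0,[(7,0)]⟩,⟨2,[(5,
  0),(13,1),(3,1),(3,0)]⟩,⟨0,[(8,0)]⟩]⟩))) (.I [0,0,2,2,-1,0,0,1] (.K ⟨2,[0,1,1],0,0,(⟨0,[(25,0),(2,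
  0)]⟩,⟨0,[(1,0)]⟩),.k,.k,(.r 1 ⟨0,[(0,0)]⟩ ⟨0,[(6,0),(0,0),(23,0),(1,0),(0,0)]⟩),.k,.k,[⟨0,[(32,
  0)]⟩,⟨0,[(6,0),(8,0),(0,0)]⟩,⟨1,[(21,0),(0,2)]⟩,⟨0,[(2,0)]⟩]⟩) (.K ⟨2,[0,1,1],0,0,(⟨0,[(25,0),(2,
  0)]⟩,⟨0,[(1,0)]⟩),.k,.k,(.x (-1) ⟨0,[(2,0),(22,0),(2,1),(4,0)]⟩ ⟨5,[(1,8),(2,1),(0,2),(12,6),(3,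
  0),(3,1)]⟩),.k,.k,[⟨0,[(32,0)]⟩,⟨0,[(6,0),(8,0),(0,0)]⟩,⟨1,[(21,0),(0,2)]⟩,⟨0,[(2,0)]⟩]⟩)))) (.R
  ⟨1,false,false,false,[0,0,1],[1,-1],[],(⟨0,[(22,0)]⟩,⟨0,[(21,0)]⟩),(⟨0,[(24,0)]⟩,⟨0,[(25,0)]⟩),⟨0,
  [(2,0)]⟩,.k,.k,.k,.k,.k,.k,⟨false,0,⟨0,[(29,0)]⟩,⟨1,[(28,1),(1,0),(0,0)]⟩⟩,⟨true,0,⟨0,[(15,0)]⟩,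
  ⟨0,[(4,0)]⟩⟩,⟨false,1,⟨7,[(3,3),(0,3),(3,3),(1,0),(0,0),(19,5)]⟩,⟨0,[(20,0)]⟩⟩,⟨false,1,⟨0,[(3,0),
  (27,0)]⟩,⟨7,[(0,3),(8,3),(0,0),(0,0),(17,3),(1,1)]⟩⟩,⟨true,0,⟨0,[(8,0)]⟩,⟨0,[(20,0),(7,0)]⟩⟩,
  ⟨false,1,⟨0,[(14,0),(16,0)]⟩,⟨1,[(9,0),(2,0),(0,0)]⟩⟩,[.o ⟨false,1,⟨1,[(23,0),(4,1),(2,0)]⟩,⟨0,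
  [(29,0)]⟩⟩,.a ⟨true,1,⟨0,[(28,0),(2,0)]⟩,⟨0,[(0,0)]⟩⟩ ⟨false,1,⟨1,[(30,0),(0,0)]⟩,⟨0,[(33,0)]⟩⟩
  ⟨true,1,⟨0,[(7,0),(23,0)]⟩,⟨1,[(0,0),(0,0),(6,0),(7,0)]⟩⟩,.e ⟨false,1,⟨3,[(10,0),(0,0),(19,1)]⟩,
  ⟨0,[]⟩⟩ ⟨false,1,⟨0,[(7,0),(23,0)]⟩,⟨11,[(0,3),(3,3),(3,7),(0,3),(0,0),(0,0),(19,1)]⟩⟩,.o ⟨false,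
  0,⟨0,[(18,0)]⟩,⟨0,[(15,0),(14,0)]⟩⟩]⟩)) (.Q [0,0,0,0,0,0,-1,0,0,0,1] (.p true [0,0,1] [] (⟨0,[(21,
  0)]⟩,⟨0,[(20,0)]⟩) .k 0 (⟨0,[]⟩,⟨0,[]⟩) .k .k) (.R ⟨1,false,false,false,[0,0,1],[1,-1],[0,0,0,0,0,
  0,0,1],(⟨0,[(22,0)]⟩,⟨0,[(21,0)]⟩),(⟨0,[(24,0)]⟩,⟨0,[(25,0)]⟩),⟨0,[(2,0)]⟩,.k,.k,.k,.k,.k,.k,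
  ⟨false,0,⟨0,[(20,0),(8,0)]⟩,⟨1,[(3,1),(0,1),(25,0),(0,0)]⟩⟩,⟨true,0,⟨0,[(15,0)]⟩,⟨0,[(4,0)]⟩⟩,
  ⟨false,1,⟨3,[(10,0),(0,0),(19,1)]⟩,⟨0,[]⟩⟩,⟨false,1,⟨0,[(3,0),(27,0)]⟩,⟨1,[(9,0),(2,0),(0,0),(15,
  1)]⟩⟩,⟨true,0,⟨0,[(29,0)]⟩,⟨0,[(28,0)]⟩⟩,⟨false,1,⟨0,[(14,0),(16,0)]⟩,⟨1,[(9,0),(2,0),(0,0)]⟩⟩,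
  [.o ⟨false,1,⟨1,[(23,0),(4,1),(2,0)]⟩,⟨0,[(29,0)]⟩⟩,.o ⟨false,1,⟨0,[(1,0),(1,0),(1,0),(21,1)]⟩,⟨0,
  [(29,0),(3,0)]⟩⟩,.a ⟨true,0,⟨0,[(4,0)]⟩,⟨0,[(0,0)]⟩⟩ ⟨true,0,⟨0,[(20,0)]⟩,⟨4,[(3,1),(0,1),(3,1),
  (8,0),(0,0),(7,0)]⟩⟩ ⟨false,1,⟨0,[(7,0),(23,0)]⟩,⟨0,[(4,0),(24,0)]⟩⟩,.o ⟨false,0,⟨0,[(18,0)]⟩,⟨11,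
  [(1,7),(8,0),(0,0),(7,3),(3,1)]⟩⟩]⟩) (.Q [0,0,0,1,0,0,-1,-1,0,0,1] (.p true [0,0,1] [] (⟨0,[(22,
  0)]⟩,⟨0,[(21,0)]⟩) .k 0 (⟨0,[]⟩,⟨0,[]⟩) .k .k) (.R ⟨2,true,false,true,[0,1],[0,0,1],[0,0,1,1],(⟨0,
  []⟩,⟨0,[]⟩),(⟨0,[(23,0)]⟩,⟨0,[(22,0)]⟩),⟨0,[]⟩,.k,.k,.k,.k,.k,.k,⟨true,0,⟨0,[(9,0),(18,0)]⟩,⟨0,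
  [(21,0),(7,0)]⟩⟩,⟨false,0,⟨0,[(1,0)]⟩,⟨0,[(20,0),(10,0)]⟩⟩,⟨false,1,⟨3,[(11,0),(0,0),(19,1)]⟩,⟨0,
  []⟩⟩,⟨true,0,⟨0,[(7,0)]⟩,⟨0,[(0,0)]⟩⟩,⟨true,0,⟨0,[(30,0)]⟩,⟨0,[(29,0)]⟩⟩,⟨false,0,⟨0,[(1,0),(19,
  0)]⟩,⟨0,[(18,0),(13,0)]⟩⟩,[]⟩) (.I [0,0,2,0,0,-2,-1] (.Q [0,0,0,0,0,1,0,0,0,-1,1] (.ed false [0,1,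
  1] .k) (.K ⟨2,[-1,1,1],0,0,(⟨0,[(0,0)]⟩,⟨0,[(24,0),(2,0)]⟩),.k,.k,(.x (-1) ⟨0,[(0,0),(6,0),(20,0),
  (4,0)]⟩ ⟨0,[(1,0)]⟩),.k,.k,[⟨0,[(15,0),(0,0),(15,0)]⟩,⟨0,[(6,0)]⟩,⟨1,[(18,1),(2,0),(0,0)]⟩,⟨0,[(7,
  0)]⟩]⟩) (.K ⟨2,[0,1,1],0,0,(⟨0,[(25,0),(2,0)]⟩,⟨0,[(0,0)]⟩),.k,.k,(.x (-1) ⟨0,[(3,0),(21,0),(2,1),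
  (4,0)]⟩ ⟨0,[(1,0)]⟩),.k,.k,[⟨0,[(32,0)]⟩,⟨0,[(6,0),(8,0),(0,0)]⟩,⟨1,[(21,0),(0,2)]⟩,⟨0,[(3,
  0)]⟩]⟩)) (.K ⟨2,[-1,1,1],0,0,(⟨2,[(0,1),(3,0),(12,2),(2,0)]⟩,⟨0,[(23,0),(2,0)]⟩),.k,.k,(.r 0 ⟨1,
  [(11,0),(5,0),(2,0),(0,1),(9,3)]⟩ ⟨3,[(0,2),(0,1),(0,3),(0,2),(1,5),(17,2),(2,5),(2,3),(3,0)]⟩),
  .k,.k,[⟨3,[(0,0),(5,0),(14,1),(1,0),(2,1),(4,3)]⟩,⟨0,[(5,0)]⟩,⟨1,[(17,1),(2,0),(0,0)]⟩,⟨0,[(6,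
  0)]⟩]⟩))))) (.Q [0,0,0,0,0,0,-1,0,0,0,1] (.p true [0,0,1] [] (⟨0,[(20,0)]⟩,⟨0,[(19,0)]⟩) .k 0 (⟨0,
  []⟩,⟨0,[]⟩) .k .k) (.R ⟨0,false,false,false,[0,0,1],[0,1],[1,1,1],(⟨0,[(21,0)]⟩,⟨0,[(20,0)]⟩),(⟨0,
  [(24,0)]⟩,⟨0,[(23,0)]⟩),⟨0,[(1,0)]⟩,.k,.k,.k,.k,.k,.k,⟨true,0,⟨0,[(27,0)]⟩,⟨0,[(26,0),(1,0)]⟩⟩,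
  ⟨false,1,⟨0,[(0,0),(28,0)]⟩,⟨0,[(17,0)]⟩⟩,⟨false,0,⟨2,[(2,0),(0,0),(3,0),(8,0),(0,0),(8,1)]⟩,⟨1,
  [(19,1),(9,0),(0,0)]⟩⟩,⟨true,0,⟨0,[(0,0),(6,0)]⟩,⟨0,[(5,0)]⟩⟩,⟨false,0,⟨0,[]⟩,⟨0,[]⟩⟩,⟨false,0,⟨0,
  []⟩,⟨0,[]⟩⟩,[.o ⟨false,0,⟨0,[(28,0)]⟩,⟨1,[(22,0),(4,1),(2,0)]⟩⟩,.e ⟨false,0,⟨0,[]⟩,⟨3,[(9,0),(0,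
  0),(18,1)]⟩⟩ ⟨false,1,⟨1,[(0,1),(27,1),(0,0),(0,0)]⟩,⟨0,[(2,0),(1,0)]⟩⟩,.a ⟨true,0,⟨0,[(3,0)]⟩,⟨0,
  [(0,0)]⟩⟩ ⟨false,0,⟨1,[(17,0),(0,0)]⟩,⟨1,[(29,0),(0,0)]⟩⟩ ⟨true,0,⟨0,[(0,0),(27,0)]⟩,⟨0,[(2,0),(1,
  0)]⟩⟩,.o ⟨false,0,⟨0,[(17,0)]⟩,⟨1,[(0,1),(21,0),(6,0)]⟩⟩]⟩) (.Q [0,0,0,0,0,1,0,0,0,-1,1] (.ed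
  false [0,1,1] .k) (.I [0,0,2,2,-1] (.K ⟨2,[-1,1,1],0,0,(⟨0,[(1,0)]⟩,⟨0,[(22,0),(2,0)]⟩),.k,.k,(.r
  1 ⟨0,[(0,0),(20,0)]⟩ ⟨0,[(4,0),(0,0),(23,0),(1,0),(0,0)]⟩),.k,.k,[⟨0,[(13,0),(0,0),(15,0)]⟩,⟨0,
  [(4,0)]⟩,⟨1,[(16,1),(2,0),(0,0)]⟩,⟨0,[(5,0)]⟩]⟩) (.Q [0,0,0,0,0,0,-1,0,0,1,1] (.p true [1,-1,1]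
  [] (⟨0,[(23,0),(1,0)]⟩,⟨0,[(3,0)]⟩) .k 0 (⟨0,[]⟩,⟨0,[]⟩) .k .k) (.K ⟨0,[1,-1,1],0,0,(⟨0,[(24,0),
  (1,0)]⟩,⟨0,[(4,0)]⟩),.k,(.r (-1) ⟨0,[(1,0),(20,0)]⟩ ⟨0,[(10,0),(9,0),(0,0),(9,0)]⟩),.k,.k,.k,[⟨0,
  [(0,0)]⟩,⟨0,[(3,0)]⟩,⟨0,[(0,0),(9,0),(24,0)]⟩,⟨0,[(3,1),(5,0),(12,0)]⟩]⟩) (.K ⟨2,[-1,1,1],0,0,(⟨0,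
  [(2,0)]⟩,⟨0,[(23,0),(2,0)]⟩),.k,.k,(.x (-1) ⟨0,[(2,0),(3,0),(20,0),(4,0)]⟩ ⟨0,[(0,0),(16,1),(5,0),
  (2,1)]⟩),.k,.k,[⟨0,[(14,0),(0,0),(15,0)]⟩,⟨0,[(5,0)]⟩,⟨1,[(17,1),(2,0),(0,0)]⟩,⟨0,[(6,0)]⟩]⟩)))
  (.I [0,0,2,2,-1,0,0,1] (.K ⟨2,[0,1,1],0,0,(⟨0,[(23,0),(2,0)]⟩,⟨0,[(1,0)]⟩),.k,.k,(.r 1 ⟨0,[(0,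
  0)]⟩ ⟨0,[(4,0),(0,0),(23,0),(1,0),(0,0)]⟩),.k,.k,[⟨0,[(30,0)]⟩,⟨0,[(4,0),(8,0),(0,0)]⟩,⟨1,[(19,0),
  (0,2)]⟩,⟨0,[(2,0)]⟩]⟩) (.I [0,0,-2,-2,1,0,0,-1] (.K ⟨2,[0,1,1],0,0,(⟨0,[(24,0),(2,0)]⟩,⟨0,[(2,
  0)]⟩),.k,.k,(.r 0 ⟨1,[(11,0),(5,0),(2,0),(0,1),(9,3)]⟩ ⟨0,[(0,0)]⟩),.k,.k,[⟨0,[(31,0)]⟩,⟨0,[(5,0),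
  (8,0),(0,0)]⟩,⟨1,[(20,0),(0,2)]⟩,⟨0,[(3,0)]⟩]⟩) (.K ⟨2,[0,1,1],0,0,(⟨0,[(24,0),(2,0)]⟩,⟨0,[(2,
  0)]⟩),.k,.k,(.x (-1) ⟨0,[(3,0),(20,0),(2,1),(4,0)]⟩ ⟨1,[(0,0),(1,1),(2,0),(3,0),(15,0),(0,1),(2,
  1)]⟩),.k,.k,[⟨0,[(31,0)]⟩,⟨0,[(5,0),(8,0),(0,0)]⟩,⟨1,[(20,0),(0,2)]⟩,⟨0,[(3,0)]⟩]⟩))))))) (.R ⟨2,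
  true,false,false,[0,1],[0,0,1],[1,1,1],(⟨0,[]⟩,⟨0,[]⟩),(⟨0,[(18,0)]⟩,⟨0,[(17,0)]⟩),⟨0,[]⟩,.k,.k,
  .k,.k,.k,.k,⟨false,0,⟨0,[(4,0),(19,0)]⟩,⟨1,[(16,1),(9,0),(0,0)]⟩⟩,⟨true,0,⟨0,[(14,0)]⟩,⟨0,[(0,0),
  (7,0),(0,0)]⟩⟩,⟨true,0,⟨0,[(24,0)]⟩,⟨0,[(25,0)]⟩⟩,⟨false,1,⟨0,[(2,0),(24,0)]⟩,⟨0,[(0,0),(3,0),(3,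
  0),(0,0)]⟩⟩,⟨false,0,⟨0,[]⟩,⟨3,[(6,0),(0,0),(19,1)]⟩⟩,⟨true,0,⟨0,[(0,0),(0,0)]⟩,⟨0,[(13,0)]⟩⟩,
  []⟩)))))

theorem ok0 : chk (cU (-1) true 3) t0 l0 = true := by decide +kernel

noncomputable def l1 : List Con := (false, [0,0,0,0,0,0,1,0,0,1,-1]) :: r0

noncomputable def r1 : List Con := (false, [0,0,0,0,0,0,-1,0,0,-1,1]) :: r0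

noncomputable def t1 : Tre :=
  (.Q [0,-1,0,1,0,0,1,1,0,1,-1] (.p false [0,0,1] [1] (⟨0,[(15,0)]⟩,⟨0,[(14,0)]⟩) .k 1 (⟨0,[]⟩,⟨0,
  []⟩) .k .k) (.R ⟨2,true,false,true,[0,1],[1,0,-1],[1,1,1],(⟨0,[]⟩,⟨0,[]⟩),(⟨0,[(15,0)]⟩,⟨0,[(16,
  0)]⟩),⟨0,[]⟩,.k,.k,.k,.k,.k,.k,⟨false,0,⟨0,[(14,0)]⟩,⟨1,[(1,1),(6,1),(15,0),(0,0)]⟩⟩,⟨true,0,⟨0,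
  [(9,0)]⟩,⟨0,[(1,0)]⟩⟩,⟨true,0,⟨0,[(22,0)]⟩,⟨0,[(23,0)]⟩⟩,⟨false,1,⟨0,[(8,0),(13,0),(2,0)]⟩,⟨0,[(0,
  0)]⟩⟩,⟨false,0,⟨0,[]⟩,⟨3,[(4,0),(0,0),(19,1)]⟩⟩,⟨true,0,⟨0,[(8,0)]⟩,⟨1,[(3,0),(2,0),(0,0)]⟩⟩,[]⟩)
  (.Q [0,0,0,0,0,-1,0,0,0,0,1] (.ed false [1,-1,1] .k) (.Q [0,0,0,1,0,0,-2,-2,0,-1,2] (.p true [0,0,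
  1] [1,0,-1] (⟨0,[(17,0)]⟩,⟨0,[(16,0)]⟩) .k 2 (⟨0,[(16,0)]⟩,⟨0,[(17,0)]⟩) .k (.r 0 ⟨0,[(15,1)]⟩ ⟨0,
  [(2,1),(6,1),(16,0)]⟩)) (.R ⟨1,false,false,true,[0,0,1],[1,0,-1],[],(⟨0,[(18,0)]⟩,⟨0,[(17,0)]⟩),
  (⟨0,[(17,0)]⟩,⟨0,[(18,0)]⟩),⟨0,[(1,0)]⟩,.k,.k,.k,.k,(.r (-1) ⟨3,[(4,3),(1,0),(0,0),(8,3),(9,1)]⟩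
  ⟨0,[(0,0),(2,0),(10,0)]⟩),.k,⟨false,1,⟨1,[(16,1),(9,0),(0,0)]⟩,⟨2,[(0,0),(1,0),(0,1),(10,0),(7,
  0)]⟩⟩,⟨true,0,⟨0,[(0,0),(3,0),(11,0)]⟩,⟨0,[(3,0),(10,0)]⟩⟩,⟨false,1,⟨11,[(0,3),(1,3),(0,7),(2,0),
  (0,0),(6,3),(11,1),(0,7)]⟩,⟨0,[(16,0)]⟩⟩,⟨true,0,⟨1,[(0,0),(1,0),(10,0)]⟩,⟨0,[(5,0)]⟩⟩,⟨false,1,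
  ⟨7,[(0,3),(2,3),(2,0),(0,0),(6,3),(10,3),(0,1),(0,3)]⟩,⟨0,[(4,0)]⟩⟩,⟨false,0,⟨0,[(0,0)]⟩,⟨0,[(5,
  0),(18,0),(2,0)]⟩⟩,[.o ⟨false,0,⟨0,[(10,0)]⟩,⟨7,[(5,3),(0,0),(0,0),(11,1),(7,3)]⟩⟩,.a ⟨true,0,⟨0,
  [(0,0),(2,0),(0,0)]⟩,⟨1,[(5,0),(2,0),(0,0)]⟩⟩ ⟨false,1,⟨1,[(26,0),(0,0)]⟩,⟨0,[(29,0)]⟩⟩ ⟨true,0,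
  ⟨0,[(0,0),(3,0)]⟩,⟨3,[(3,1),(1,1),(8,2),(0,0)]⟩⟩,.e ⟨false,1,⟨3,[(6,0),(0,0),(19,1)]⟩,⟨0,[]⟩⟩
  ⟨false,0,⟨0,[(0,0),(3,0)]⟩,⟨7,[(3,3),(1,3),(0,0),(0,0),(6,3),(11,1),(0,3)]⟩⟩,.o ⟨false,0,⟨0,[(14,
  0)]⟩,⟨0,[(11,0),(14,0)]⟩⟩]⟩) (.Q [0,1,1,0,-1,0,0,0,1,0,0,-1] (.p false [0,0,0,1] [] (⟨0,[(9,0)]⟩,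
  ⟨0,[(8,0)]⟩) .k 0 (⟨0,[]⟩,⟨0,[]⟩) .k .k) (.K ⟨0,[0,0,0,1],0,(-1),(⟨0,[(10,0)]⟩,⟨0,[(9,0)]⟩),.k,
  (.x 0 ⟨0,[(12,0),(2,0),(5,0)]⟩ ⟨0,[(22,0),(4,0)]⟩),(.x 0 ⟨0,[(22,0)]⟩ ⟨3,[(7,0),(0,0),(11,1),(0,
  3)]⟩),.k,.k,[⟨0,[(10,0)]⟩,⟨0,[(9,0)]⟩,⟨7,[(7,4),(0,0),(1,7),(12,3),(3,1)]⟩,⟨0,[(0,0)]⟩]⟩) (.Q [0,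
  0,-2,0,1,0,-2,-1,0,-1,2] (.p true [0,0,1] [1,0,-1] (⟨0,[(19,0)]⟩,⟨0,[(18,0)]⟩) .k 2 (⟨0,[(18,0)]⟩,
  ⟨0,[(19,0)]⟩) .k (.r 0 ⟨0,[(17,1)]⟩ ⟨0,[(4,1),(6,1),(16,0)]⟩)) (.I [0,0,2,2,-1,0,0,1] (.Q [0,0,0,
  0,0,1,0,0,0,-1,1] (.ed false [0,1,1] .k) (.K ⟨2,[-1,1,1],0,0,(⟨0,[(0,0)]⟩,⟨0,[(21,0),(2,0)]⟩),.k,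
  .k,(.r 1 ⟨0,[(1,0)]⟩ ⟨0,[(6,0),(0,0),(20,0),(1,0),(0,0)]⟩),.k,.k,[⟨0,[(12,0),(0,0),(15,0)]⟩,⟨0,
  [(6,0)]⟩,⟨1,[(15,1),(2,0),(0,0)]⟩,⟨0,[(7,0)]⟩]⟩) (.Q [0,0,0,0,0,0,-1,0,0,0,1] (.p true [0,0,1] []
  (⟨0,[(22,0)]⟩,⟨0,[(21,0)]⟩) .k 0 (⟨0,[]⟩,⟨0,[]⟩) .k .k) (.K ⟨0,[1,-1,-1],0,0,(⟨0,[(1,0)]⟩,⟨0,[(23,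
  0),(2,0)]⟩),.k,(.r (-2) ⟨0,[(7,0),(0,0),(20,0),(1,0),(0,0)]⟩ ⟨0,[(2,0)]⟩),.k,.k,.k,[⟨0,[(8,0)]⟩,
  ⟨0,[(0,0)]⟩,⟨31,[(2,15),(1,7),(3,15),(1,7),(0,0),(0,4),(0,7),(13,19),(3,1)]⟩,⟨0,[(7,0)]⟩]⟩) (.K
  ⟨2,[0,1,1],0,0,(⟨0,[(23,0),(2,0)]⟩,⟨0,[(1,0)]⟩),.k,.k,(.r 1 ⟨0,[(2,0)]⟩ ⟨0,[(7,0),(0,0),(20,0),(1,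
  0),(0,0)]⟩),.k,.k,[⟨0,[(30,0)]⟩,⟨0,[(7,0),(5,0),(0,0)]⟩,⟨1,[(19,0),(0,2)]⟩,⟨0,[(0,0)]⟩]⟩))) (.Q
  [0,0,0,0,0,0,-1,0,0,0,1] (.p true [0,0,1] [] (⟨0,[(21,0)]⟩,⟨0,[(20,0)]⟩) .k 0 (⟨0,[]⟩,⟨0,[]⟩) .k
  .k) (.K ⟨0,[0,-1,1],0,0,(⟨0,[(5,0)]⟩,⟨0,[(21,0),(3,0)]⟩),.k,(.r (-1) ⟨2,[(1,0),(6,3),(21,1)]⟩ ⟨0,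
  [(17,0),(0,0),(8,0),(1,1)]⟩),.k,.k,.k,[⟨0,[(0,0)]⟩,⟨0,[(7,0)]⟩,⟨0,[(17,0),(11,0)]⟩,⟨1,[(4,0),(1,
  0),(9,0)]⟩]⟩) (.I [1,1,0,-1,0,0,0,-2] (.Q [0,0,0,0,0,1,0,0,0,-1,1] (.ed false [0,1,1] .k) (.Q [0,
  -1,0,1,0,0,1,1,0,2,-1] (.p false [-1,1,1] [1] (⟨0,[(0,0)]⟩,⟨0,[(23,0),(2,0)]⟩) .k 1 (⟨0,[]⟩,⟨0,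
  []⟩) .k .k) (.R ⟨0,false,false,true,[1,0,-1],[2,-1,-1],[1,0,1],(⟨0,[(24,0)]⟩,⟨0,[(25,0)]⟩),(⟨0,
  [(24,0),(2,0)]⟩,⟨0,[(1,0)]⟩),⟨0,[(1,0)]⟩,.k,.k,.k,.k,.k,.k,⟨false,0,⟨0,[(23,0),(6,0),(1,0)]⟩,⟨11,
  [(2,3),(1,3),(8,0),(0,0),(14,3),(3,5)]⟩⟩,⟨true,0,⟨0,[(3,0),(14,0)]⟩,⟨0,[(15,0),(0,0)]⟩⟩,⟨false,0,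
  ⟨0,[(23,0),(6,0)]⟩,⟨7,[(2,3),(10,0),(0,0),(17,3),(0,3),(0,1)]⟩⟩,⟨true,0,⟨0,[(3,0),(7,0),(5,0)]⟩,
  ⟨1,[(0,0),(19,0),(11,0)]⟩⟩,⟨false,0,⟨0,[]⟩,⟨0,[]⟩⟩,⟨false,0,⟨0,[]⟩,⟨0,[]⟩⟩,[.a ⟨true,0,⟨0,[(9,
  0)]⟩,⟨0,[(0,0)]⟩⟩ ⟨false,0,⟨0,[]⟩,⟨3,[(13,0),(0,0),(18,1)]⟩⟩ ⟨true,0,⟨0,[(3,0),(5,0)]⟩,⟨0,[(0,0),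
  (17,0)]⟩⟩,.o ⟨false,1,⟨1,[(9,1),(16,0),(7,0)]⟩,⟨1,[(0,0),(18,0),(12,0)]⟩⟩,.o ⟨false,1,⟨15,[(5,3),
  (7,2),(0,2),(7,7),(0,3),(2,5)]⟩,⟨0,[(3,0)]⟩⟩,.o ⟨false,0,⟨0,[(18,0)]⟩,⟨0,[(21,0),(11,0)]⟩⟩]⟩) (.K
  ⟨2,[-1,1,1],0,0,(⟨0,[(1,0)]⟩,⟨0,[(24,0),(2,0)]⟩),.k,.k,(.x (-1) ⟨0,[(1,0),(8,0),(17,0),(4,0)]⟩ ⟨1,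
  [(0,2),(11,0),(5,0),(4,0),(0,1),(2,3),(2,2),(1,2)]⟩),.k,.k,[⟨0,[(15,0),(0,0),(15,0)]⟩,⟨0,[(9,0)]⟩,
  ⟨1,[(18,1),(2,0),(0,0)]⟩,⟨0,[(10,0)]⟩]⟩)) (.K ⟨2,[0,1,1],0,0,(⟨0,[(24,0),(2,0)]⟩,⟨0,[(0,0)]⟩),.k,
  .k,(.x (-1) ⟨0,[(2,0),(21,0),(2,1),(4,0)]⟩ ⟨1,[(0,2),(6,0),(9,2),(2,0)]⟩),.k,.k,[⟨0,[(31,0)]⟩,⟨0,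
  [(8,0),(5,0),(0,0)]⟩,⟨1,[(20,0),(0,2)]⟩,⟨0,[(2,0)]⟩]⟩)) (.Q [0,0,0,0,0,1,0,0,0,-1,1] (.ed false
  [0,1,1] .k) (.K ⟨2,[-1,1,1],0,0,(⟨0,[(0,0)]⟩,⟨0,[(23,0),(2,0)]⟩),.k,.k,(.x (-1) ⟨0,[(0,0),(8,0),
  (17,0),(4,0)]⟩ ⟨0,[(1,0),(0,1),(5,0),(7,0),(0,0),(5,0),(2,1),(2,0)]⟩),.k,.k,[⟨0,[(14,0),(0,0),(15,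
  0)]⟩,⟨0,[(8,0)]⟩,⟨1,[(17,1),(2,0),(0,0)]⟩,⟨0,[(9,0)]⟩]⟩) (.K ⟨2,[0,1,1],0,0,(⟨0,[(24,0),(2,0)]⟩,
  ⟨0,[(0,0)]⟩),.k,.k,(.x (-1) ⟨0,[(2,0),(21,0),(2,1),(4,0)]⟩ ⟨1,[(0,2),(6,0),(9,2),(2,0)]⟩),.k,.k,
  [⟨0,[(31,0)]⟩,⟨0,[(8,0),(5,0),(0,0)]⟩,⟨1,[(20,0),(0,2)]⟩,⟨0,[(2,0)]⟩]⟩))))) (.I [0,0,-2,0,1,2,-1]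
  (.Q [0,0,0,0,0,0,-1,0,0,0,1] (.p true [0,0,1] [] (⟨0,[(21,0)]⟩,⟨0,[(20,0)]⟩) .k 0 (⟨0,[]⟩,⟨0,[]⟩)
  .k .k) (.K ⟨0,[0,-1,1],0,0,(⟨0,[(5,0)]⟩,⟨0,[(21,0),(3,0)]⟩),.k,(.x 0 ⟨1,[(2,0),(2,1),(8,0),(3,0),
  (4,0),(0,1),(2,0)]⟩ ⟨0,[(1,0)]⟩),.k,.k,.k,[⟨0,[(0,0)]⟩,⟨0,[(7,0)]⟩,⟨0,[(17,0),(11,0)]⟩,⟨1,[(4,0),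
  (1,0),(9,0)]⟩]⟩) (.Q [0,1,-1,0,0,0,0,0,-1,0,0,1] (.p true [0,0,0,1] [] (⟨0,[(13,0)]⟩,⟨0,[(12,
  0)]⟩) .k 0 (⟨0,[]⟩,⟨0,[]⟩) .k .k) (.Q [0,1,1,0,0,0,0,0,1,0,0,-1] (.p false [0,0,0,1] [] (⟨0,[(14,
  0)]⟩,⟨0,[(13,0)]⟩) .k 0 (⟨0,[]⟩,⟨0,[]⟩) .k .k) (.K ⟨0,[0,0,0,1],0,0,(⟨0,[(15,0)]⟩,⟨0,[(14,0)]⟩),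
  .k,(.x 0 ⟨0,[(17,0),(2,0),(5,0)]⟩ ⟨1,[(2,0),(0,0),(20,0),(7,0)]⟩),(.x 0 ⟨0,[(27,0)]⟩ ⟨3,[(12,0),
  (0,0),(11,1),(0,3)]⟩),.k,.k,[⟨0,[(15,0)]⟩,⟨0,[(14,0)]⟩,⟨0,[(1,0)]⟩,⟨0,[(0,0)]⟩]⟩) (.I [1,1,-1,0,0,
  0,0,1] (.Q [0,0,0,0,0,-2,0,0,0,1,-1] (.p false [0,0,1] [1] (⟨0,[(25,0)]⟩,⟨0,[(24,0)]⟩) .k 1 (⟨0,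
  []⟩,⟨0,[]⟩) .k .k) (.K ⟨2,[0,1,1],0,0,(⟨0,[(26,0),(2,0)]⟩,⟨1,[(0,0),(24,0)]⟩),.k,.k,(.r 0 ⟨2,[(6,
  0),(6,0),(9,3),(3,0),(5,5)]⟩ ⟨3,[(2,5),(1,5),(5,5),(1,1),(2,2),(0,5),(17,0)]⟩),.k,.k,[⟨0,[(33,
  0)]⟩,⟨0,[(10,0),(5,0),(0,0)]⟩,⟨1,[(22,0),(0,2)]⟩,⟨0,[(4,0)]⟩]⟩) (.Q [0,0,0,0,0,1,0,0,0,-1,1] (.ed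
  false [0,1,1] .k) (.K ⟨1,[-1,1,1],0,0,(⟨0,[(0,0)]⟩,⟨0,[(26,0),(2,0)]⟩),.k,.k,(.r 0 ⟨2,[(7,0),(6,
  0),(9,3),(3,0),(5,5)]⟩ ⟨3,[(3,5),(1,5),(5,5),(1,1),(2,2),(0,5),(17,0)]⟩),.k,.k,[⟨1,[(20,1),(2,0),
  (0,0)]⟩,⟨0,[(12,0)]⟩,⟨0,[(11,0)]⟩,⟨3,[(1,0),(1,3),(3,1),(8,1),(0,3),(7,1),(0,0),(2,1),(4,3)]⟩]⟩)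
  (.K ⟨2,[0,1,1],0,0,(⟨0,[(1,0),(27,0)]⟩,⟨0,[(0,0)]⟩),.k,.k,(.r 0 ⟨2,[(7,0),(6,0),(9,3),(3,0),(5,
  5)]⟩ ⟨3,[(3,5),(1,5),(5,5),(1,1),(2,2),(0,5),(17,0)]⟩),.k,.k,[⟨0,[(34,0)]⟩,⟨1,[(1,0),(9,1),(14,0),
  (2,1)]⟩,⟨1,[(23,0),(0,2)]⟩,⟨0,[(5,0)]⟩]⟩))) (.R ⟨1,false,false,true,[0,0,1],[0,0,0,1],[0,1,0,0,0,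
  0,0,1],(⟨0,[(25,0)]⟩,⟨0,[(24,0)]⟩),(⟨0,[(16,0)]⟩,⟨0,[(15,0)]⟩),⟨0,[(8,0)]⟩,.k,.k,.k,.k,(.r 0 ⟨0,
  [(1,0),(1,0),(7,0),(3,0),(1,0),(5,0)]⟩ ⟨3,[(0,1),(12,0),(0,2),(5,1),(0,1),(10,3)]⟩),.k,⟨false,0,
  ⟨0,[(1,0),(1,0),(11,0),(1,0),(5,1)]⟩,⟨1,[(0,0),(13,0),(5,0),(0,0),(11,0)]⟩⟩,⟨true,0,⟨0,[(15,0),(2,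
  0)]⟩,⟨0,[(3,0),(12,0)]⟩⟩,⟨true,0,⟨0,[(36,0)]⟩,⟨0,[]⟩⟩,⟨false,1,⟨1,[(0,0),(13,0),(0,1),(4,0),(1,0),
  (3,0)]⟩,⟨0,[(1,0),(1,0),(19,0)]⟩⟩,⟨false,0,⟨0,[(32,0)]⟩,⟨0,[(31,0),(2,0)]⟩⟩,⟨false,1,⟨1,[(0,0),
  (13,0),(0,1),(4,0),(1,0),(3,0),(5,1)]⟩,⟨0,[(1,0),(1,0),(7,0)]⟩⟩,[.a ⟨true,0,⟨1,[(5,0),(8,0),(0,1),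
  (1,0),(2,0),(2,0)]⟩,⟨0,[(1,0)]⟩⟩ ⟨true,0,⟨2,[(19,0),(2,0),(0,1),(5,0)]⟩,⟨0,[(0,0)]⟩⟩ ⟨false,1,⟨3,
  [(14,1),(0,3),(2,1),(3,1),(3,0),(2,1),(3,0)]⟩,⟨0,[(1,0),(1,0)]⟩⟩,.o ⟨false,1,⟨1,[(14,0),(0,1),(5,
  0),(0,0),(3,0)]⟩,⟨0,[(1,0),(1,0),(13,0),(5,0)]⟩⟩,.o ⟨false,0,⟨0,[(3,0)]⟩,⟨1,[(22,1),(3,0),(6,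
  0)]⟩⟩,.o ⟨false,0,⟨0,[(21,0)]⟩,⟨0,[(18,0),(14,0)]⟩⟩]⟩))) (.Q [0,0,0,0,0,-1,0,0,0,1,-1] (.ed true
  [0,1,1] .k) (.K ⟨2,[0,1,1],0,0,(⟨0,[(24,0),(2,0)]⟩,⟨0,[(0,0)]⟩),.k,.k,(.x (-1) ⟨0,[(2,1),(0,0),
  (20,1)]⟩ ⟨1,[(0,2),(6,0),(9,2),(2,0)]⟩),.k,.k,[⟨0,[(31,0)]⟩,⟨0,[(8,0),(5,0),(0,0)]⟩,⟨1,[(20,0),(0,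
  2)]⟩,⟨0,[(2,0)]⟩]⟩) (.Q [0,-1,0,1,0,0,1,1,0,2,-1] (.p false [-1,1,1] [1] (⟨0,[(0,0)]⟩,⟨0,[(23,0),
  (2,0)]⟩) .k 1 (⟨0,[]⟩,⟨0,[]⟩) .k .k) (.R ⟨0,false,false,true,[1,0,-1],[2,-1,-1],[1,0,1],(⟨0,[(24,
  0)]⟩,⟨0,[(25,0)]⟩),(⟨0,[(24,0),(2,0)]⟩,⟨0,[(1,0)]⟩),⟨0,[(1,0)]⟩,.k,.k,.k,.k,.k,.k,⟨false,0,⟨0,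
  [(23,0),(6,0),(1,0)]⟩,⟨0,[(9,0),(0,0),(22,0)]⟩⟩,⟨true,0,⟨0,[(3,0),(14,0)]⟩,⟨0,[(15,0),(0,0)]⟩⟩,
  ⟨false,0,⟨0,[(23,0),(6,0)]⟩,⟨1,[(10,1),(6,1),(15,0),(0,0)]⟩⟩,⟨true,0,⟨0,[(3,0),(7,0),(5,0)]⟩,⟨1,
  [(0,0),(19,0),(11,0)]⟩⟩,⟨false,0,⟨0,[]⟩,⟨0,[]⟩⟩,⟨false,0,⟨0,[]⟩,⟨0,[]⟩⟩,[.a ⟨true,0,⟨0,[(9,0)]⟩,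
  ⟨0,[(0,0)]⟩⟩ ⟨false,0,⟨0,[]⟩,⟨3,[(13,0),(0,0),(18,1)]⟩⟩ ⟨true,0,⟨0,[(3,0),(5,0)]⟩,⟨0,[(0,0),(17,
  0)]⟩⟩,.o ⟨false,1,⟨1,[(9,1),(16,0),(7,0)]⟩,⟨1,[(0,0),(18,0),(12,0)]⟩⟩,.o ⟨false,1,⟨1,[(22,1),(3,
  0),(6,0)]⟩,⟨0,[(3,0)]⟩⟩,.o ⟨false,0,⟨0,[(18,0)]⟩,⟨0,[(21,0),(11,0)]⟩⟩]⟩) (.K ⟨2,[-1,1,1],0,0,(⟨0,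
  [(1,0)]⟩,⟨0,[(24,0),(2,0)]⟩),.k,.k,(.x (-1) ⟨2,[(1,3),(2,0),(5,3),(22,1)]⟩ ⟨3,[(0,4),(4,0),(12,0),
  (4,3),(0,3),(1,0),(0,7),(2,4),(1,4)]⟩),.k,.k,[⟨0,[(15,0),(0,0),(15,0)]⟩,⟨0,[(9,0)]⟩,⟨1,[(18,1),(2,
  0),(0,0)]⟩,⟨0,[(10,0)]⟩]⟩))))) (.Q [0,0,0,0,0,1,0,0,0,-1,1] (.ed false [0,1,1] .k) (.K ⟨2,[-1,1,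
  1],0,0,(⟨0,[(0,0)]⟩,⟨0,[(21,0),(2,0)]⟩),.k,.k,(.x (-1) ⟨0,[(0,0),(6,0),(17,0),(4,0)]⟩ ⟨0,[(1,0),
  (13,1),(5,1),(8,0)]⟩),.k,.k,[⟨0,[(12,0),(0,0),(15,0)]⟩,⟨0,[(6,0)]⟩,⟨1,[(15,1),(2,0),(0,0)]⟩,⟨0,
  [(7,0)]⟩]⟩) (.Q [0,1,-1,0,0,0,0,0,-1,0,0,1] (.p true [0,0,0,1] [] (⟨0,[(13,0)]⟩,⟨0,[(12,0)]⟩) .k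
  0 (⟨0,[]⟩,⟨0,[]⟩) .k .k) (.Q [0,0,1,0,0,0,0,0,1,1,0,-1] (.p false [0,0,0,1] [1] (⟨0,[(14,0)]⟩,⟨0,
  [(13,0)]⟩) .k 1 (⟨0,[]⟩,⟨0,[]⟩) .k .k) (.Q [0,1,1,0,0,0,0,0,1,0,0,-1] (.p false [0,0,0,1] [] (⟨0,
  [(15,0)]⟩,⟨0,[(14,0)]⟩) .k 0 (⟨0,[]⟩,⟨0,[]⟩) .k .k) (.K ⟨0,[0,0,0,1],0,0,(⟨0,[(16,0)]⟩,⟨0,[(15,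
  0)]⟩),.k,(.x 0 ⟨11,[(3,3),(0,3),(8,0),(0,0),(6,5),(0,9),(3,1)]⟩ ⟨0,[(28,0),(4,0)]⟩),(.x 0 ⟨0,[(28,
  0)]⟩ ⟨3,[(13,0),(0,0),(11,1),(0,3)]⟩),.k,.k,[⟨0,[(16,0)]⟩,⟨0,[(15,0)]⟩,⟨0,[(2,0)]⟩,⟨0,[(0,0)]⟩]⟩)
  (.K ⟨0,[1,-1,-1],0,0,(⟨0,[(3,0)]⟩,⟨0,[(25,0),(2,0)]⟩),.k,(.x 0 ⟨2,[(3,3),(0,0),(13,1),(3,1),(3,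
  0)]⟩ ⟨0,[(4,0),(23,3),(4,1)]⟩),.k,.k,.k,[⟨0,[(10,0)]⟩,⟨0,[(0,0),(0,0),(15,0),(5,0)]⟩,⟨21,[(1,9),
  (0,9),(2,1),(6,9),(0,0),(0,0),(7,1),(6,5),(2,21)]⟩,⟨0,[(9,0)]⟩]⟩)) (.Q [0,0,0,0,0,0,1,0,0,0,-1]
  (.p false [0,0,1] [] (⟨0,[(24,0)]⟩,⟨0,[(23,0)]⟩) .k 0 (⟨0,[]⟩,⟨0,[]⟩) .k .k) (.K ⟨2,[0,1,1],0,0,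
  (⟨0,[(25,0),(2,0)]⟩,⟨0,[(3,0)]⟩),.k,.k,(.x (-1) ⟨0,[(0,0),(24,0),(2,1),(4,0)]⟩ ⟨2,[(3,3),(0,0),
  (13,1),(3,1),(3,0)]⟩),.k,.k,[⟨0,[(32,0)]⟩,⟨0,[(9,0),(5,0),(0,0)]⟩,⟨1,[(21,0),(0,2)]⟩,⟨0,[(0,
  0)]⟩]⟩) (.K ⟨0,[1,-1,-1],0,0,(⟨0,[(3,0)]⟩,⟨0,[(25,0),(2,0)]⟩),.k,(.x 0 ⟨2,[(3,3),(0,0),(13,1),(3,
  1),(3,0)]⟩ ⟨0,[(4,0),(23,3),(4,1)]⟩),.k,.k,.k,[⟨0,[(10,0)]⟩,⟨0,[(0,0)]⟩,⟨1,[(10,0),(1,0),(9,0),(6,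
  0),(2,1)]⟩,⟨0,[(9,0)]⟩]⟩))) (.Q [0,0,0,0,0,0,-1,0,0,0,1] (.p true [0,0,1] [] (⟨0,[(23,0)]⟩,⟨0,
  [(22,0)]⟩) .k 0 (⟨0,[]⟩,⟨0,[]⟩) .k .k) (.K ⟨0,[1,-1,-1],0,0,(⟨0,[(2,0)]⟩,⟨0,[(24,0),(2,0)]⟩),.k,
  (.x 0 ⟨2,[(2,3),(0,0),(13,1),(3,1),(3,0)]⟩ ⟨0,[(3,0),(23,3),(4,1)]⟩),.k,.k,.k,[⟨0,[(9,0)]⟩,⟨0,[(0,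
  0)]⟩,⟨1,[(9,0),(1,0),(9,0),(6,0),(2,1)]⟩,⟨0,[(8,0)]⟩]⟩) (.K ⟨2,[0,1,1],0,0,(⟨0,[(24,0),(2,0)]⟩,⟨0,
  [(2,0)]⟩),.k,.k,(.x (-1) ⟨0,[(0,0),(23,0),(2,1),(4,0)]⟩ ⟨2,[(2,3),(0,0),(13,1),(3,1),(3,0)]⟩),.k,
  .k,[⟨0,[(31,0)]⟩,⟨0,[(8,0),(5,0),(0,0)]⟩,⟨1,[(20,0),(0,2)]⟩,⟨0,[(0,0)]⟩]⟩)))))))) (.Q [0,0,0,0,0,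
  0,-2,-1,0,-1,2] (.p true [0,0,1] [1,0,-1] (⟨0,[(17,0)]⟩,⟨0,[(16,0)]⟩) .k 2 (⟨0,[(16,0)]⟩,⟨0,[(17,
  0)]⟩) .k (.r 0 ⟨0,[(15,1)]⟩ ⟨0,[(2,1),(6,1),(16,0)]⟩)) (.R ⟨0,false,false,true,[0,0,1],[1,0,-1],
  [],(⟨0,[(18,0)]⟩,⟨0,[(17,0)]⟩),(⟨0,[(17,0)]⟩,⟨0,[(18,0)]⟩),⟨0,[(1,0)]⟩,.k,.k,.k,.k,.k,.k,⟨false,1,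
  ⟨1,[(16,1),(9,0),(0,0)]⟩,⟨0,[(3,0),(6,0)]⟩⟩,⟨true,0,⟨0,[(0,0),(15,0)]⟩,⟨0,[(3,0),(10,0)]⟩⟩,⟨false,
  1,⟨0,[(3,0),(6,0),(16,0)]⟩,⟨0,[(16,0)]⟩⟩,⟨true,0,⟨0,[(0,0),(2,0),(6,0)]⟩,⟨0,[(5,0)]⟩⟩,⟨false,0,⟨0,
  []⟩,⟨0,[]⟩⟩,⟨false,0,⟨0,[]⟩,⟨0,[]⟩⟩,[.o ⟨false,0,⟨0,[(10,0)]⟩,⟨7,[(5,3),(0,0),(0,0),(11,1),(7,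
  3)]⟩⟩,.a ⟨true,0,⟨0,[(0,0),(2,0)]⟩,⟨1,[(5,0),(2,0),(0,0)]⟩⟩ ⟨false,1,⟨1,[(26,0),(0,0)]⟩,⟨0,[(29,
  0)]⟩⟩ ⟨true,0,⟨0,[(0,0)]⟩,⟨3,[(3,1),(1,1),(8,2),(0,0)]⟩⟩,.e ⟨false,1,⟨3,[(6,0),(0,0),(19,1)]⟩,⟨0,
  []⟩⟩ ⟨false,0,⟨0,[(0,0)]⟩,⟨7,[(3,3),(1,3),(0,0),(0,0),(6,3),(11,1),(0,3)]⟩⟩,.o ⟨false,0,⟨0,[(14,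
  0)]⟩,⟨2,[(0,0),(14,0),(0,0),(2,0),(6,1)]⟩⟩]⟩) (.Q [0,0,0,1,0,0,-1,-1,0,0,1] (.p true [0,0,1] []
  (⟨0,[(18,0)]⟩,⟨0,[(17,0)]⟩) .k 0 (⟨0,[]⟩,⟨0,[]⟩) .k .k) (.R ⟨0,false,false,false,[0,0,1],[0,1],[1,
  1,1],(⟨0,[(19,0)]⟩,⟨0,[(18,0)]⟩),(⟨0,[(22,0)]⟩,⟨0,[(21,0)]⟩),⟨0,[(2,0)]⟩,.k,.k,.k,.k,.k,.k,⟨true,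
  0,⟨0,[(25,0)]⟩,⟨0,[(24,0),(1,0)]⟩⟩,⟨false,1,⟨0,[(0,0),(4,0),(21,0)]⟩,⟨0,[(15,0)]⟩⟩,⟨false,0,⟨1,
  [(0,0),(2,0),(0,0),(10,0),(8,0)]⟩,⟨1,[(17,1),(9,0),(0,0)]⟩⟩,⟨true,0,⟨0,[(0,0)]⟩,⟨1,[(1,0),(1,0),
  (1,0),(7,0)]⟩⟩,⟨false,0,⟨0,[]⟩,⟨0,[]⟩⟩,⟨false,0,⟨0,[]⟩,⟨0,[]⟩⟩,[.o ⟨false,0,⟨0,[(26,0)]⟩,⟨1,[(20,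
  0),(4,1),(2,0)]⟩⟩,.e ⟨false,0,⟨0,[]⟩,⟨3,[(7,0),(0,0),(18,1)]⟩⟩ ⟨false,1,⟨1,[(0,1),(16,1),(9,0),(0,
  0)]⟩,⟨0,[(1,0),(1,0)]⟩⟩,.a ⟨true,0,⟨0,[(4,0)]⟩,⟨0,[(0,0),(4,0)]⟩⟩ ⟨false,0,⟨1,[(15,0),(0,0)]⟩,⟨1,
  [(27,0),(0,0)]⟩⟩ ⟨true,0,⟨0,[(0,0),(16,0)]⟩,⟨0,[(1,0),(1,0)]⟩⟩,.o ⟨false,0,⟨0,[(15,0)]⟩,⟨0,[(12,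
  0),(14,0)]⟩⟩]⟩) (.Q [0,0,0,0,0,1,0,0,0,-1,1] (.ed false [0,1,1] .k) (.Q [0,-1,0,1,0,0,1,1,0,2,-1]
  (.p false [-1,1,1] [1] (⟨0,[(0,0)]⟩,⟨0,[(19,0),(2,0)]⟩) .k 1 (⟨0,[]⟩,⟨0,[]⟩) .k .k) (.R ⟨0,false,
  false,true,[1,-1],[2,-1,-1],[1],(⟨0,[(23,0)]⟩,⟨0,[(24,0)]⟩),(⟨0,[(20,0),(2,0)]⟩,⟨0,[(1,0)]⟩),⟨0,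
  [(1,0),(2,0)]⟩,.k,.k,(.x 0 ⟨0,[(2,1),(10,1),(9,1),(2,1),(1,1)]⟩ ⟨0,[(24,1),(4,0)]⟩),.k,.k,.k,
  ⟨true,0,⟨0,[(19,0),(6,0),(1,0)]⟩,⟨0,[(5,0),(0,0)]⟩⟩,⟨false,1,⟨0,[(14,0),(14,0)]⟩,⟨0,[(6,0)]⟩⟩,
  ⟨false,0,⟨0,[(26,0),(1,0)]⟩,⟨1,[(27,1),(1,0),(0,0)]⟩⟩,⟨true,0,⟨0,[(13,0)]⟩,⟨2,[(0,0),(7,0),(18,
  0)]⟩⟩,⟨false,0,⟨0,[]⟩,⟨0,[]⟩⟩,⟨false,0,⟨0,[]⟩,⟨0,[]⟩⟩,[.a ⟨true,0,⟨0,[(5,0)]⟩,⟨0,[(0,0)]⟩⟩ ⟨true,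
  0,⟨0,[]⟩,⟨1,[(17,0),(0,0)]⟩⟩ ⟨false,1,⟨0,[(5,0),(23,0)]⟩,⟨3,[(0,1),(7,0),(5,0),(2,0),(8,1),(1,
  1)]⟩⟩,.o ⟨false,1,⟨1,[(5,1),(16,0),(7,0)]⟩,⟨1,[(0,0),(14,0),(12,0)]⟩⟩,.o ⟨false,0,⟨0,[(2,0),(10,
  0),(12,0),(1,0)]⟩,⟨3,[(9,0),(0,0),(18,1)]⟩⟩,.o ⟨false,0,⟨0,[(14,0),(2,0)]⟩,⟨0,[(29,0)]⟩⟩]⟩) (.K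
  ⟨2,[-1,1,1],0,0,(⟨0,[(1,0)]⟩,⟨0,[(20,0),(2,0)]⟩),.k,.k,(.x (-1) ⟨0,[(1,0),(4,0),(17,0),(4,0)]⟩ ⟨0,
  [(0,0),(1,0),(11,0),(5,0),(2,1),(2,0),(1,1)]⟩),.k,.k,[⟨0,[(11,0),(0,0),(15,0)]⟩,⟨0,[(5,0)]⟩,⟨1,
  [(14,1),(2,0),(0,0)]⟩,⟨0,[(6,0)]⟩]⟩)) (.Q [0,0,0,0,0,0,-1,0,0,0,1] (.p true [0,0,1] [] (⟨0,[(20,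
  0)]⟩,⟨0,[(19,0)]⟩) .k 0 (⟨0,[]⟩,⟨0,[]⟩) .k .k) (.R ⟨0,false,false,true,[0,0,1],[1,-1],[0,1,-1,-1],
  (⟨0,[(21,0)]⟩,⟨0,[(20,0)]⟩),(⟨0,[(23,0)]⟩,⟨0,[(24,0)]⟩),⟨0,[(4,0)]⟩,.k,.k,.k,.k,.k,.k,⟨false,1,⟨3,
  [(9,0),(0,0),(18,1)]⟩,⟨0,[]⟩⟩,⟨true,0,⟨0,[(14,0)]⟩,⟨0,[(6,0)]⟩⟩,⟨false,1,⟨1,[(5,1),(0,1),(22,0),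
  (0,0)]⟩,⟨0,[(19,0),(6,0),(1,0)]⟩⟩,⟨true,0,⟨0,[(5,0)]⟩,⟨1,[(8,0),(2,0),(0,0),(15,1)]⟩⟩,⟨false,0,⟨0,
  []⟩,⟨0,[]⟩⟩,⟨false,0,⟨0,[]⟩,⟨0,[]⟩⟩,[.o ⟨false,0,⟨0,[(2,0),(10,0)]⟩,⟨3,[(9,0),(0,0),(17,3),(1,
  1)]⟩⟩,.o ⟨false,1,⟨1,[(22,0),(4,1),(2,0)]⟩,⟨0,[(28,0)]⟩⟩,.a ⟨true,0,⟨0,[(6,0)]⟩,⟨0,[(0,0)]⟩⟩
  ⟨false,1,⟨1,[(27,1),(1,0),(0,0)]⟩,⟨0,[(26,0),(1,0)]⟩⟩ ⟨true,0,⟨0,[(7,0),(5,0)]⟩,⟨0,[(6,0),(21,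
  0)]⟩⟩,.o ⟨false,0,⟨0,[(17,0)]⟩,⟨1,[(0,1),(21,0),(6,0)]⟩⟩]⟩) (.I [0,0,2,2,-1,0,0,1] (.K ⟨2,[0,1,1],
  0,0,(⟨0,[(22,0),(2,0)]⟩,⟨0,[(2,0)]⟩),.k,.k,(.r 1 ⟨0,[(0,0)]⟩ ⟨0,[(6,0),(0,0),(20,0),(1,0),(0,
  0)]⟩),.k,.k,[⟨0,[(29,0)]⟩,⟨0,[(6,0),(5,0),(0,0)]⟩,⟨1,[(18,0),(0,2)]⟩,⟨0,[(1,0)]⟩]⟩) (.I [0,0,-2,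
  -2,1,0,0,-1] (.K ⟨2,[0,1,1],0,0,(⟨0,[(23,0),(2,0)]⟩,⟨0,[(3,0)]⟩),.k,.k,(.r 0 ⟨1,[(10,0),(5,0),(2,
  0),(0,1),(9,3)]⟩ ⟨0,[(0,0)]⟩),.k,.k,[⟨0,[(30,0)]⟩,⟨0,[(7,0),(5,0),(0,0)]⟩,⟨1,[(19,0),(0,2)]⟩,⟨0,
  [(2,0)]⟩]⟩) (.K ⟨2,[0,1,1],0,0,(⟨0,[(23,0),(2,0)]⟩,⟨0,[(3,0)]⟩),.k,.k,(.x (-1) ⟨0,[(2,0),(20,0),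
  (2,1),(4,0)]⟩ ⟨4,[(0,1),(2,4),(0,0),(2,2),(8,2),(7,1),(0,4),(2,2)]⟩),.k,.k,[⟨0,[(30,0)]⟩,⟨0,[(7,
  0),(5,0),(0,0)]⟩,⟨1,[(19,0),(0,2)]⟩,⟨0,[(2,0)]⟩]⟩)))))))))

theorem ok1 : chk (cU (-1) true 3) t1 l1 = true := by decide +kernel

noncomputable def l2 : List Con := (false, [0,0,0,0,0,0,-1,-1,0,0,1]) :: r1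

noncomputable def r2 : List Con := (false, [0,0,0,0,0,0,1,1,0,0,-1]) :: r1

noncomputable def t2 : Tre :=
  (.I [1,1,0,0,0,0,0,-1] (.R ⟨2,false,false,false,[0,1],[0,0,1],[1,1,1],(⟨0,[]⟩,⟨0,[]⟩),(⟨0,[(17,
  0)]⟩,⟨0,[(16,0)]⟩),⟨0,[]⟩,.k,.k,.k,.k,.k,.k,⟨false,0,⟨0,[(0,0)]⟩,⟨1,[(15,1),(9,0),(0,0)]⟩⟩,⟨true,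
  0,⟨0,[(13,0)]⟩,⟨0,[(1,0),(13,0)]⟩⟩,⟨true,0,⟨0,[(23,0)]⟩,⟨0,[(24,0)]⟩⟩,⟨false,1,⟨1,[(3,1),(9,1),
  (11,0),(0,0)]⟩,⟨0,[(1,0),(22,0)]⟩⟩,⟨false,0,⟨0,[]⟩,⟨3,[(5,0),(0,0),(19,1)]⟩⟩,⟨false,1,⟨7,[(4,3),
  (0,0),(0,0),(11,1),(7,3)]⟩,⟨0,[(1,0)]⟩⟩,[.a ⟨true,0,⟨1,[(4,0),(2,0),(0,0)]⟩,⟨0,[(1,0)]⟩⟩ ⟨false,0,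
  ⟨0,[(28,0)]⟩,⟨1,[(25,0),(0,0)]⟩⟩ ⟨true,0,⟨1,[(4,0),(5,0),(2,0)]⟩,⟨0,[(1,0)]⟩⟩,.o ⟨false,1,⟨7,[(4,
  3),(0,0),(0,0),(11,1),(7,3)]⟩,⟨0,[(9,0)]⟩⟩,.o ⟨false,1,⟨3,[(5,0),(0,0),(18,1)]⟩,⟨0,[(2,0),(10,
  0)]⟩⟩,.e ⟨false,0,⟨0,[]⟩,⟨3,[(5,0),(0,0),(19,1)]⟩⟩ ⟨false,1,⟨7,[(4,3),(0,0),(0,0),(11,1),(7,3)]⟩,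
  ⟨0,[(1,0)]⟩⟩]⟩) (.I [1,-1,0,-1,0,0,0,1] (.Q [0,0,0,0,0,1,0,0,0,0,-1] (.ed true [1,-1,1] .k) (.K
  ⟨2,[0,1,-1],0,0,(⟨0,[(0,0)]⟩,⟨0,[(19,0),(1,0)]⟩),.k,.k,(.r 0 ⟨1,[(3,1),(11,2),(0,0),(9,3)]⟩ ⟨0,
  [(1,0),(23,0),(1,0)]⟩),(.r (-1) ⟨3,[(3,7),(3,0),(0,0),(6,7),(10,3),(0,1)]⟩ ⟨0,[(1,0),(0,0),(20,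
  0)]⟩),.k,[⟨0,[(3,1),(22,0)]⟩,⟨0,[(1,0),(13,0),(7,0)]⟩,⟨1,[(15,2),(0,0)]⟩,⟨2,[(2,1),(0,1),(12,0),
  (6,0)]⟩]⟩) (.Q [0,0,0,-1,0,0,1,1,0,1,-1] (.p false [0,0,1] [1] (⟨0,[(19,0)]⟩,⟨0,[(18,0)]⟩) .k 1
  (⟨0,[]⟩,⟨0,[]⟩) .k .k) (.R ⟨2,false,false,false,[0,1],[1,1,-1],[1,1,1],(⟨0,[]⟩,⟨0,[]⟩),(⟨0,[(19,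
  0),(3,0)]⟩,⟨0,[(1,0)]⟩),⟨0,[]⟩,.k,.k,.k,.k,.k,.k,⟨false,0,⟨0,[(2,0),(21,0)]⟩,⟨1,[(4,1),(11,1),(10,
  1),(0,0),(0,0)]⟩⟩,⟨true,0,⟨0,[(5,0)]⟩,⟨0,[(10,0),(0,0),(4,0)]⟩⟩,⟨true,0,⟨0,[(26,0)]⟩,⟨0,[(27,
  0)]⟩⟩,⟨false,1,⟨1,[(4,1),(16,0),(7,0)]⟩,⟨1,[(7,0),(2,0),(0,0)]⟩⟩,⟨false,0,⟨0,[]⟩,⟨3,[(8,0),(0,0),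
  (19,1)]⟩⟩,⟨false,1,⟨1,[(4,1),(16,0),(5,1),(1,0)]⟩,⟨0,[(0,0)]⟩⟩,[.a ⟨true,0,⟨0,[(4,0),(22,0)]⟩,⟨0,
  [(0,0)]⟩⟩ ⟨false,0,⟨0,[(31,0)]⟩,⟨1,[(28,0),(0,0)]⟩⟩ ⟨true,0,⟨0,[(12,0),(12,0),(1,0)]⟩,⟨0,[(0,
  0)]⟩⟩,.o ⟨false,1,⟨1,[(4,1),(16,0),(5,1),(1,0)]⟩,⟨0,[(2,0),(13,0),(7,0)]⟩⟩,.o ⟨false,1,⟨3,[(8,0),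
  (0,0),(18,1)]⟩,⟨0,[(5,0),(10,0)]⟩⟩,.e ⟨false,0,⟨0,[]⟩,⟨3,[(8,0),(0,0),(19,1)]⟩⟩ ⟨false,1,⟨1,[(4,
  1),(16,0),(5,1),(1,0)]⟩,⟨0,[(0,0)]⟩⟩]⟩) (.R ⟨2,true,false,false,[0,1],[1,1,-1],[1,1,1],(⟨0,[]⟩,⟨0,
  []⟩),(⟨0,[(19,0),(3,0)]⟩,⟨0,[(1,0)]⟩),⟨0,[]⟩,.k,.k,.k,.k,.k,.k,⟨false,0,⟨0,[(2,0),(21,0)]⟩,⟨1,[(4,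
  1),(11,1),(10,1),(0,0),(0,0)]⟩⟩,⟨true,0,⟨0,[(5,0)]⟩,⟨0,[(10,0),(0,0),(4,0)]⟩⟩,⟨true,0,⟨0,[(26,
  0)]⟩,⟨0,[(27,0)]⟩⟩,⟨false,1,⟨1,[(4,1),(16,0),(7,0)]⟩,⟨1,[(7,0),(2,0),(0,0)]⟩⟩,⟨false,0,⟨0,[]⟩,⟨3,
  [(8,0),(0,0),(19,1)]⟩⟩,⟨true,0,⟨0,[(0,0)]⟩,⟨1,[(7,0),(2,0),(0,0),(14,1)]⟩⟩,[]⟩))) (.R ⟨2,false,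
  false,false,[0,1],[0,0,1],[1,0,1,0,0,0,0,1],(⟨0,[]⟩,⟨0,[]⟩),(⟨0,[(18,0)]⟩,⟨0,[(17,0)]⟩),⟨0,[]⟩,.k,
  .k,.k,.k,.k,.k,⟨false,0,⟨0,[]⟩,⟨3,[(6,0),(0,0),(18,1)]⟩⟩,⟨true,0,⟨0,[(14,0)]⟩,⟨2,[(1,1),(0,1),(12,
  0),(6,0)]⟩⟩,⟨true,0,⟨0,[(4,0)]⟩,⟨0,[(0,0)]⟩⟩,⟨false,1,⟨1,[(4,1),(9,1),(11,0),(0,0)]⟩,⟨0,[(2,0),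
  (22,0)]⟩⟩,⟨false,0,⟨0,[(1,0)]⟩,⟨0,[(0,0),(23,0),(2,0)]⟩⟩,⟨false,1,⟨7,[(5,3),(0,0),(0,0),(11,1),(7,
  3)]⟩,⟨0,[(2,0)]⟩⟩,[.a ⟨true,0,⟨1,[(5,0),(2,0),(0,0)]⟩,⟨0,[(2,0)]⟩⟩ ⟨false,0,⟨0,[(16,0)]⟩,⟨0,[(2,
  0),(11,0),(11,0)]⟩⟩ ⟨true,0,⟨1,[(5,0),(5,0),(2,0)]⟩,⟨0,[(2,0)]⟩⟩,.o ⟨false,1,⟨7,[(5,3),(0,0),(0,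
  0),(11,1),(7,3)]⟩,⟨0,[(10,0)]⟩⟩,.o ⟨false,1,⟨3,[(6,0),(0,0),(18,1)]⟩,⟨0,[(3,0),(10,0)]⟩⟩,.e
  ⟨false,0,⟨0,[(1,0)]⟩,⟨0,[(0,0),(23,0),(2,0)]⟩⟩ ⟨false,1,⟨7,[(5,3),(0,0),(0,0),(11,1),(7,3)]⟩,⟨0,
  [(2,0)]⟩⟩]⟩)))

theorem ok2 : chk (cU (-1) true 3) t2 l2 = true := by decide +kernel

noncomputable def l3 : List Con := (true, [0,1,0,1,0,0,0,-1]) :: r2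

noncomputable def r3 : List Con := (true, [1,-1,0,-1,0,0,0,1]) :: r2

noncomputable def l4 : List Con := (false, [0,0,0,1,0,0,-1,-1,0,0,1]) :: l3

noncomputable def r4 : List Con := (false, [0,0,0,-1,0,0,1,1,0,0,-1]) :: l3

noncomputable def t3 : Tre :=
  (.R ⟨2,true,false,false,[0,1],[0,0,1],[0,1,1,1],(⟨0,[]⟩,⟨0,[]⟩),(⟨0,[(18,0)]⟩,⟨0,[(17,0)]⟩),⟨0,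
  []⟩,.k,.k,.k,.k,.k,.k,⟨false,0,⟨0,[(1,0)]⟩,⟨1,[(4,1),(21,0),(0,0)]⟩⟩,⟨true,0,⟨0,[(14,0)]⟩,⟨0,[(0,
  0),(3,0)]⟩⟩,⟨true,0,⟨0,[(29,0)]⟩,⟨0,[]⟩⟩,⟨false,1,⟨0,[(2,0),(21,0),(2,0)]⟩,⟨0,[(0,0)]⟩⟩,⟨false,0,
  ⟨0,[(25,0)]⟩,⟨0,[(24,0),(2,0)]⟩⟩,⟨true,0,⟨0,[(2,0)]⟩,⟨0,[(13,0)]⟩⟩,[]⟩)

theorem ok3 : chk (cU (-1) true 3) t3 l4 = true := by decide +kernel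

noncomputable def l5 : List Con := (false, [0,0,0,0,0,1,0,0,0,0,-1]) :: r4

noncomputable def r5 : List Con := (false, [0,0,0,0,0,-1,0,0,0,0,1]) :: r4

noncomputable def t4 : Tre :=
  (.Q [0,0,0,1,0,0,-1,-1,0,1,1] (.p true [1,-1,1] [] (⟨0,[(19,0),(1,0)]⟩,⟨0,[(0,0)]⟩) .k 0 (⟨0,[]⟩,
  ⟨0,[]⟩) .k .k) (.R ⟨0,false,false,true,[0,0,1],[1,-1,1],[0,1,-1,-1,0,0,0,1],(⟨0,[(20,0)]⟩,⟨0,[(19,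
  0)]⟩),(⟨0,[(20,0),(1,0)]⟩,⟨0,[(1,0)]⟩),⟨0,[(1,0)]⟩,.k,.k,.k,.k,.k,.k,⟨false,1,⟨3,[(8,0),(0,0),(18,
  1)]⟩,⟨0,[]⟩⟩,⟨true,0,⟨0,[(5,0),(10,0)]⟩,⟨0,[(10,0),(0,0)]⟩⟩,⟨false,1,⟨1,[(26,1),(1,0),(0,0)]⟩,⟨0,
  [(25,0),(1,0)]⟩⟩,⟨true,0,⟨0,[(2,0),(9,0)]⟩,⟨2,[(0,1),(6,0),(19,0)]⟩⟩,⟨false,0,⟨0,[]⟩,⟨0,[]⟩⟩,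
  ⟨false,0,⟨0,[]⟩,⟨0,[]⟩⟩,[.o ⟨false,0,⟨0,[(2,0),(1,0),(7,0)]⟩,⟨1,[(0,1),(20,0),(7,0)]⟩⟩,.a ⟨true,0,
  ⟨0,[(2,0)]⟩,⟨0,[(0,0)]⟩⟩ ⟨false,1,⟨0,[(6,0),(21,0)]⟩,⟨0,[(3,0),(21,0)]⟩⟩ ⟨true,0,⟨0,[(2,0),(2,
  0)]⟩,⟨0,[(0,0),(15,0)]⟩⟩,.o ⟨false,1,⟨3,[(8,0),(0,0),(6,3),(11,1)]⟩,⟨0,[(5,0)]⟩⟩,.o ⟨false,0,⟨0,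
  [(16,0)]⟩,⟨3,[(5,1),(11,1),(3,0),(6,2)]⟩⟩]⟩) (.I [0,1,0,-1,-1,0,0,1,-1] (.Q [0,1,1,0,0,0,0,0,1,0,
  0,-1] (.p false [0,0,0,1] [] (⟨0,[(12,0)]⟩,⟨0,[(11,0)]⟩) .k 0 (⟨0,[]⟩,⟨0,[]⟩) .k .k) (.K ⟨0,[0,0,
  0,1],0,0,(⟨0,[(13,0)]⟩,⟨0,[(12,0)]⟩),.k,(.x 0 ⟨0,[(15,0),(2,0),(5,0)]⟩ ⟨0,[(25,0),(4,0)]⟩),(.x 0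
  ⟨0,[(25,0)]⟩ ⟨3,[(10,0),(0,0),(11,1),(0,3)]⟩),.k,.k,[⟨0,[(13,0)]⟩,⟨0,[(12,0)]⟩,⟨1,[(1,1),(3,1),(7,
  1),(16,0),(0,0)]⟩,⟨0,[(0,0)]⟩]⟩) (.R ⟨0,false,false,false,[0,0,1],[1,0,0,-1],[0,0,1,0,0,0,0,0,-1],
  (⟨0,[(22,0)]⟩,⟨0,[(21,0)]⟩),(⟨0,[(12,0)]⟩,⟨0,[(13,0)]⟩),⟨0,[(3,0)]⟩,.k,.k,.k,.k,.k,.k,⟨true,0,⟨1,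
  [(18,0),(0,0)]⟩,⟨0,[]⟩⟩,⟨false,1,⟨0,[(7,0),(5,0),(16,0)]⟩,⟨0,[(12,0),(5,0)]⟩⟩,⟨false,0,⟨0,[(0,0),
  (11,0),(1,0),(3,0),(8,0)]⟩,⟨1,[(11,0),(8,1),(9,0)]⟩⟩,⟨true,0,⟨0,[(0,0),(13,0)]⟩,⟨0,[(1,0),(9,0),
  (0,0),(5,0),(10,0)]⟩⟩,⟨false,0,⟨0,[]⟩,⟨0,[]⟩⟩,⟨false,0,⟨0,[]⟩,⟨0,[]⟩⟩,[.o ⟨false,0,⟨7,[(0,6),(0,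
  0),(0,2),(2,0),(7,0),(0,2),(8,0),(2,0),(2,2)]⟩,⟨1,[(11,0),(0,1),(5,0),(0,0),(3,0)]⟩⟩,.a ⟨true,0,
  ⟨0,[(0,0)]⟩,⟨0,[(1,0),(3,0),(5,0),(0,0),(14,0)]⟩⟩ ⟨false,0,⟨4,[(0,3),(0,0),(0,0),(2,0),(6,3),(1,
  0),(8,0),(3,3),(1,0)]⟩,⟨7,[(10,0),(0,4),(14,3),(3,1)]⟩⟩ ⟨true,0,⟨0,[(0,0),(6,0)]⟩,⟨0,[(1,0),(3,0),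
  (5,0),(0,0),(5,0),(8,0)]⟩⟩,.o ⟨false,1,⟨3,[(10,0),(0,0),(6,3),(11,1)]⟩,⟨0,[(7,0)]⟩⟩,.o ⟨false,0,
  ⟨0,[(18,0)]⟩,⟨3,[(7,1),(11,1),(3,0),(6,2)]⟩⟩]⟩)) (.Q [0,0,-1,0,1,0,-1,-1,-1,-1,1,1] (.p true [0,0,
  1] [1,0,0,-1] (⟨0,[(21,0)]⟩,⟨0,[(20,0)]⟩) .k 2 (⟨0,[(11,0)]⟩,⟨0,[(12,0)]⟩) .k (.x 0 ⟨0,[(17,0),(3,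
  0)]⟩ ⟨3,[(6,1),(11,1),(1,3),(1,0),(6,2)]⟩)) (.Q [0,1,-1,0,0,0,0,0,-1,0,0,1] (.p true [0,0,0,1] []
  (⟨0,[(13,0)]⟩,⟨0,[(12,0)]⟩) .k 0 (⟨0,[]⟩,⟨0,[]⟩) .k .k) (.Q [0,1,1,0,0,0,0,0,1,0,0,-1] (.p false
  [0,0,0,1] [] (⟨0,[(14,0)]⟩,⟨0,[(13,0)]⟩) .k 0 (⟨0,[]⟩,⟨0,[]⟩) .k .k) (.K ⟨0,[0,0,0,1],0,0,(⟨0,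
  [(15,0)]⟩,⟨0,[(14,0)]⟩),.k,(.x 0 ⟨0,[(17,0),(2,0),(5,0)]⟩ ⟨0,[(27,0),(4,0)]⟩),(.x 0 ⟨0,[(27,0)]⟩
  ⟨3,[(12,0),(0,0),(11,1),(0,3)]⟩),.k,.k,[⟨0,[(15,0)]⟩,⟨0,[(14,0)]⟩,⟨0,[(1,0)]⟩,⟨0,[(0,0)]⟩]⟩) (.Q
  [0,0,0,0,0,1,0,0,0,-1,0,1] (.p true [0,0,0,1] [1] (⟨0,[(15,0)]⟩,⟨0,[(14,0)]⟩) .k 1 (⟨0,[]⟩,⟨0,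
  []⟩) .k .k) (.R ⟨0,false,false,false,[1,0,0,-1],[0,0,1],[0,1,0,0,0,0,0,0,-1],(⟨0,[(15,0)]⟩,⟨0,
  [(16,0)]⟩),(⟨0,[(25,0)]⟩,⟨0,[(24,0)]⟩),⟨0,[(0,0)]⟩,.k,.k,(.x (-1) ⟨3,[(13,0),(0,0),(11,1),(0,3)]⟩
  ⟨0,[(28,0)]⟩),.k,.k,.k,⟨false,0,⟨1,[(1,1),(3,0),(2,1),(6,1),(1,0),(13,0)]⟩,⟨1,[(14,0),(8,1),(10,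
  0)]⟩⟩,⟨true,0,⟨0,[(15,0),(5,0)]⟩,⟨0,[(10,0),(5,0)]⟩⟩,⟨true,0,⟨0,[(36,0)]⟩,⟨0,[]⟩⟩,⟨false,1,⟨3,
  [(12,1),(1,1),(0,3),(5,0),(0,0),(3,0),(3,1),(3,0)]⟩,⟨0,[(1,0),(15,0)]⟩⟩,⟨false,0,⟨0,[]⟩,⟨0,[]⟩⟩,
  ⟨false,0,⟨0,[]⟩,⟨0,[]⟩⟩,[.o ⟨false,0,⟨0,[(9,0)]⟩,⟨1,[(20,1),(5,0),(7,0)]⟩⟩,.o ⟨false,1,⟨7,[(12,3),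
  (0,0),(0,0),(11,1),(7,3)]⟩,⟨0,[(17,0)]⟩⟩,.o ⟨false,1,⟨1,[(1,0),(0,0),(11,0),(11,0)]⟩,⟨0,[(10,0),
  (4,0),(5,0)]⟩⟩,.a ⟨true,0,⟨0,[(16,0)]⟩,⟨0,[(15,0)]⟩⟩ ⟨false,0,⟨3,[(1,2),(0,0),(2,1),(9,3),(1,1),
  (14,1)]⟩,⟨1,[(14,0),(6,0),(0,0),(11,0)]⟩⟩ ⟨true,0,⟨0,[(9,0),(5,0)]⟩,⟨0,[(16,0),(0,0)]⟩⟩]⟩) (.Q [0,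
  1,1,0,0,0,0,0,1,1,0,-1] (.p false [0,0,0,1] [1] (⟨0,[(16,0)]⟩,⟨0,[(15,0)]⟩) .k 1 (⟨0,[]⟩,⟨0,[]⟩)
  .k .k) (.R ⟨0,false,false,false,[0,0,1],[1,0,0,-1],[0,0,1,0,0,0,0,0,-1],(⟨0,[(26,0)]⟩,⟨0,[(25,
  0)]⟩),(⟨0,[(16,0)]⟩,⟨0,[(17,0)]⟩),⟨0,[(7,0)]⟩,.k,.k,.k,.k,.k,.k,⟨true,0,⟨1,[(22,0),(0,0)]⟩,⟨0,
  []⟩⟩,⟨false,1,⟨1,[(2,0),(0,0),(7,1),(3,0),(18,0)]⟩,⟨0,[(16,0),(5,0)]⟩⟩,⟨false,0,⟨0,[(2,0),(13,0),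
  (1,0),(3,0),(8,0)]⟩,⟨1,[(15,0),(8,1),(9,0)]⟩⟩,⟨true,0,⟨0,[(2,0),(15,0)]⟩,⟨0,[(0,0),(9,0)]⟩⟩,
  ⟨false,0,⟨0,[]⟩,⟨0,[]⟩⟩,⟨false,0,⟨0,[]⟩,⟨0,[]⟩⟩,[.o ⟨false,0,⟨3,[(2,2),(0,0),(2,1),(11,1),(14,
  1)]⟩,⟨1,[(0,1),(26,0),(7,0)]⟩⟩,.a ⟨true,0,⟨0,[(2,0)]⟩,⟨0,[(0,0)]⟩⟩ ⟨false,0,⟨0,[(2,0),(8,0),(4,0),
  (5,0)]⟩,⟨7,[(14,0),(0,4),(14,3),(3,1)]⟩⟩ ⟨true,0,⟨0,[(2,0),(8,0)]⟩,⟨0,[(0,0),(21,0)]⟩⟩,.o ⟨false,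
  1,⟨3,[(14,0),(0,0),(6,3),(11,1)]⟩,⟨0,[(11,0)]⟩⟩,.o ⟨false,0,⟨0,[(22,0)]⟩,⟨3,[(11,1),(11,1),(3,0),
  (6,2)]⟩⟩]⟩) (.I [0,0,-1,-1,0,0,0,-1,-1] (.R ⟨1,false,false,false,[1,0,0,-1],[0,0,1],[0,0,0,0,0,0,
  0,0,-1],(⟨0,[(17,0)]⟩,⟨0,[(18,0)]⟩),(⟨0,[(27,0)]⟩,⟨0,[(26,0)]⟩),⟨0,[(2,0)]⟩,.k,.k,(.x (-1) ⟨3,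
  [(15,0),(0,0),(11,1),(0,3)]⟩ ⟨0,[(30,0)]⟩),.k,(.r 0 ⟨0,[(0,0)]⟩ ⟨7,[(14,3),(0,0),(0,4),(7,7),(3,
  1),(5,7)]⟩),.k,⟨false,0,⟨1,[(0,0),(0,0),(8,0),(6,0)]⟩,⟨3,[(15,0),(0,2),(8,3)]⟩⟩,⟨true,0,⟨0,[(17,
  0),(5,0)]⟩,⟨0,[(12,0),(5,0)]⟩⟩,⟨false,1,⟨3,[(15,0),(0,0),(19,1)]⟩,⟨0,[]⟩⟩,⟨false,1,⟨3,[(14,1),(1,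
  1),(0,3),(5,0),(0,0),(3,0),(3,1),(3,0)]⟩,⟨0,[(3,0),(15,0)]⟩⟩,⟨true,0,⟨0,[(34,0)]⟩,⟨0,[(33,0)]⟩⟩,
  ⟨false,1,⟨0,[(6,0),(7,0),(2,0),(2,0)]⟩,⟨0,[(0,0),(11,0),(5,0)]⟩⟩,[.o ⟨false,0,⟨0,[(11,0)]⟩,⟨1,
  [(22,1),(5,0),(7,0)]⟩⟩,.o ⟨false,1,⟨7,[(14,3),(0,0),(0,0),(11,1),(7,3)]⟩,⟨0,[(19,0)]⟩⟩,.o ⟨false,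
  1,⟨7,[(1,2),(2,2),(0,1),(8,0),(1,3),(11,1)]⟩,⟨0,[(12,0),(4,0),(5,0)]⟩⟩,.a ⟨true,0,⟨0,[(18,0)]⟩,⟨0,
  [(17,0)]⟩⟩ ⟨false,0,⟨0,[(1,0),(15,0)]⟩,⟨3,[(15,0),(0,2),(6,1),(0,1)]⟩⟩ ⟨true,0,⟨0,[(11,0),(5,0)]⟩,
  ⟨0,[(18,0),(0,0)]⟩⟩]⟩) (.Q [0,-1,-1,-2,0,0,1,1,-1,-1,-1,1] (.p false [1,-1,1] [0,0,0,1] (⟨0,[(27,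
  0),(1,0)]⟩,⟨0,[(8,0)]⟩) .k 2 (⟨0,[(18,0)]⟩,⟨0,[(17,0)]⟩) .k (.r 0 ⟨1,[(1,0),(2,0),(9,0),(2,1),(2,
  1)]⟩ ⟨0,[(6,0),(26,0)]⟩)) (.I [0,1,-2,-1,0,0,0,0,-1] (.R ⟨1,false,false,false,[1,0,0,-1],[0,1],[0,
  1,0,0,0,0,0,0,-1],(⟨0,[(19,0)]⟩,⟨0,[(20,0)]⟩),(⟨0,[(32,0)]⟩,⟨0,[(31,0)]⟩),⟨0,[(4,0)]⟩,.k,.k,(.x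
  (-1) ⟨3,[(17,0),(0,0),(11,1),(0,3)]⟩ ⟨0,[(32,0)]⟩),(.x (-1) ⟨3,[(17,0),(0,0),(11,1),(0,3)]⟩ ⟨0,
  [(32,0)]⟩),(.r (-1) ⟨0,[(0,0),(34,0),(2,0)]⟩ ⟨0,[(2,0),(9,0),(21,0)]⟩),.k,⟨false,0,⟨0,[(0,0)]⟩,⟨7,
  [(2,3),(5,3),(8,0),(0,0),(6,1),(0,1),(11,1)]⟩⟩,⟨true,0,⟨0,[(19,0)]⟩,⟨5,[(2,0),(0,0),(5,0),(10,4),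
  (0,1),(0,1),(2,2),(8,0)]⟩⟩,⟨true,0,⟨0,[(40,0)]⟩,⟨0,[]⟩⟩,⟨false,1,⟨7,[(2,3),(5,3),(8,0),(0,0),(0,
  7),(5,1),(0,1),(11,1)]⟩,⟨3,[(1,1),(3,0),(0,0),(14,1)]⟩⟩,⟨false,0,⟨0,[(36,0)]⟩,⟨0,[(35,0),(2,0)]⟩⟩,
  ⟨false,1,⟨3,[(2,2),(5,2),(8,0),(1,3),(14,0),(1,1)]⟩,⟨0,[(1,0),(22,0)]⟩⟩,[.o ⟨false,0,⟨0,[(36,0)]⟩,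
  ⟨1,[(30,0),(4,1),(2,0)]⟩⟩,.o ⟨false,1,⟨7,[(2,1),(5,1),(8,1),(18,3),(0,0),(0,2)]⟩,⟨1,[(9,0),(11,0),
  (13,0)]⟩⟩,.o ⟨false,1,⟨7,[(3,2),(2,2),(0,1),(8,0),(1,3),(11,1)]⟩,⟨0,[(14,0),(4,0),(5,0)]⟩⟩,.a
  ⟨true,0,⟨0,[(20,0)]⟩,⟨0,[(19,0)]⟩⟩ ⟨false,0,⟨5,[(0,1),(2,2),(2,0),(12,3),(2,0),(2,0),(10,1)]⟩,⟨1,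
  [(18,0),(6,0),(0,0),(11,0)]⟩⟩ ⟨true,0,⟨0,[(19,0),(16,0)]⟩,⟨1,[(9,0),(10,1),(0,0),(13,0)]⟩⟩]⟩) (.R
  ⟨1,false,false,true,[1,0,0,-1],[0,1],[1,0,0,-1,0,0,0,0,-1],(⟨0,[(19,0)]⟩,⟨0,[(20,0)]⟩),(⟨0,[(32,
  0)]⟩,⟨0,[(31,0)]⟩),⟨0,[(4,0)]⟩,.k,.k,(.x (-1) ⟨3,[(17,0),(0,0),(11,1),(0,3)]⟩ ⟨0,[(32,0)]⟩),(.x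
  (-1) ⟨3,[(17,0),(0,0),(11,1),(0,3)]⟩ ⟨0,[(32,0)]⟩),(.r (-1) ⟨5,[(1,3),(5,1),(11,5),(4,1),(10,3),
  (1,2),(0,0)]⟩ ⟨3,[(0,2),(1,0),(9,1),(10,0),(2,0),(9,1)]⟩),.k,⟨false,1,⟨1,[(1,1),(17,1),(4,1),(12,
  0),(0,0)]⟩,⟨0,[(2,0),(9,0)]⟩⟩,⟨true,0,⟨0,[(19,0)]⟩,⟨11,[(0,1),(2,1),(5,1),(10,9),(0,2),(0,4),(0,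
  0),(1,4)]⟩⟩,⟨false,1,⟨0,[(35,0),(2,0)]⟩,⟨0,[(36,0)]⟩⟩,⟨true,0,⟨0,[(0,0),(18,0),(13,0)]⟩,⟨3,[(1,1),
  (3,0),(0,0),(14,1)]⟩⟩,⟨true,0,⟨0,[]⟩,⟨0,[(40,0)]⟩⟩,⟨true,0,⟨0,[(2,0),(9,0),(6,0)]⟩,⟨0,[(1,0),(22,
  0)]⟩⟩,[.o ⟨false,0,⟨3,[(12,0),(10,0),(2,0),(6,0),(2,2)]⟩,⟨1,[(9,0),(11,0),(13,0),(2,1)]⟩⟩,.o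
  ⟨false,0,⟨0,[(36,0)]⟩,⟨1,[(30,0),(4,1),(2,0)]⟩⟩,.o ⟨false,1,⟨7,[(3,2),(2,2),(0,1),(8,0),(1,3),(11,
  1)]⟩,⟨0,[(14,0),(4,0),(5,0)]⟩⟩,.a ⟨true,0,⟨0,[(20,0)]⟩,⟨0,[(19,0)]⟩⟩ ⟨true,0,⟨3,[(1,1),(3,0),(0,
  0),(12,3),(1,1)]⟩,⟨0,[(0,0),(32,0)]⟩⟩ ⟨false,0,⟨0,[(19,0),(16,0)]⟩,⟨3,[(0,1),(0,1),(5,1),(10,0),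
  (16,1),(2,0)]⟩⟩]⟩)) (.Q [0,0,1,1,0,0,1,1,1,1,-1,-1] (.p false [0,0,1] [1,0,0,-1] (⟨0,[(28,0)]⟩,⟨0,
  [(27,0)]⟩) .k 2 (⟨0,[(18,0)]⟩,⟨0,[(19,0)]⟩) .k (.r (-1) ⟨3,[(1,1),(12,1),(1,0),(0,1),(18,0)]⟩ ⟨0,
  [(4,0),(13,0),(1,0),(3,0)]⟩)) (.R ⟨1,true,false,false,[1,0,0,-1],[0,0,1],[0,1,0,0,0,0,0,0,-1],(⟨0,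
  [(19,0)]⟩,⟨0,[(20,0)]⟩),(⟨0,[(29,0)]⟩,⟨0,[(28,0)]⟩),⟨0,[(4,0)]⟩,.k,.k,(.x (-1) ⟨3,[(17,0),(0,0),
  (11,1),(0,3)]⟩ ⟨0,[(32,0)]⟩),.k,(.r (-1) ⟨1,[(3,1),(3,0),(0,0),(10,2),(5,0),(9,2)]⟩ ⟨0,[(0,0),(13,
  0),(5,0)]⟩),.k,⟨false,0,⟨0,[(3,0),(8,0),(6,0),(15,0)]⟩,⟨3,[(2,1),(12,1),(2,0),(18,0),(0,1)]⟩⟩,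
  ⟨true,0,⟨0,[(19,0),(5,0)]⟩,⟨0,[(14,0),(5,0)]⟩⟩,⟨true,0,⟨0,[(40,0)]⟩,⟨0,[]⟩⟩,⟨false,1,⟨0,[(0,0),
  (34,0),(2,0)]⟩,⟨0,[(5,0),(15,0)]⟩⟩,⟨false,0,⟨0,[(36,0)]⟩,⟨0,[(35,0),(2,0)]⟩⟩,⟨true,0,⟨0,[(0,0)]⟩,
  ⟨0,[(5,0),(15,0),(13,0)]⟩⟩,[]⟩) (.R ⟨1,false,false,true,[1,0,0,-1],[0,1],[1,0,0,-1,0,0,0,0,-1],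
  (⟨0,[(19,0)]⟩,⟨0,[(20,0)]⟩),(⟨0,[(32,0)]⟩,⟨0,[(31,0)]⟩),⟨0,[(4,0)]⟩,.k,.k,(.x (-1) ⟨3,[(17,0),(0,
  0),(11,1),(0,3)]⟩ ⟨0,[(32,0)]⟩),(.x (-1) ⟨3,[(17,0),(0,0),(11,1),(0,3)]⟩ ⟨0,[(32,0)]⟩),(.r (-1)
  ⟨7,[(0,5),(10,5),(5,0),(1,5),(15,3),(1,4),(0,1)]⟩ ⟨0,[(2,0),(9,0),(21,0)]⟩),.k,⟨false,1,⟨1,[(0,1),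
  (10,1),(7,1),(17,0),(0,0)]⟩,⟨0,[(2,0),(9,0)]⟩⟩,⟨true,0,⟨0,[(19,0)]⟩,⟨5,[(2,0),(0,0),(5,0),(10,4),
  (0,1),(0,1),(2,2),(8,0)]⟩⟩,⟨false,1,⟨0,[(35,0),(2,0)]⟩,⟨0,[(36,0)]⟩⟩,⟨true,0,⟨0,[(1,0),(9,0)]⟩,⟨5,
  [(0,3),(2,0),(2,0),(2,1),(6,0)]⟩⟩,⟨true,0,⟨0,[]⟩,⟨0,[(40,0)]⟩⟩,⟨true,0,⟨0,[(1,0),(11,0)]⟩,⟨0,[(0,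
  0),(10,0)]⟩⟩,[.o ⟨false,0,⟨4,[(1,0),(4,0),(14,0),(1,1),(12,2)]⟩,⟨1,[(9,0),(11,0),(13,0),(2,1)]⟩⟩,
  .o ⟨false,0,⟨0,[(36,0)]⟩,⟨1,[(30,0),(4,1),(2,0)]⟩⟩,.o ⟨false,1,⟨7,[(3,2),(2,2),(0,1),(8,0),(1,3),
  (11,1)]⟩,⟨0,[(14,0),(4,0),(5,0)]⟩⟩,.a ⟨true,0,⟨0,[(20,0)]⟩,⟨0,[(19,0)]⟩⟩ ⟨true,0,⟨5,[(0,3),(2,0),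
  (2,0),(2,1),(6,0),(2,5)]⟩,⟨0,[(1,0),(7,0),(10,0)]⟩⟩ ⟨false,0,⟨0,[(19,0),(16,0)]⟩,⟨3,[(0,1),(14,1),
  (2,0),(1,1),(4,1),(4,0),(7,1)]⟩⟩]⟩))))))) (.Q [0,0,0,0,0,1,0,0,0,-1,0,1] (.p true [0,0,0,1] [1]
  (⟨0,[(14,0)]⟩,⟨0,[(13,0)]⟩) .k 1 (⟨0,[]⟩,⟨0,[]⟩) .k .k) (.I [1,1,1,0,-1,0,0,0,1] (.R ⟨0,false,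
  false,true,[1,0,0,-1],[0,1],[0,0,0,0,0,0,0,0,-1],(⟨0,[(15,0)]⟩,⟨0,[(16,0)]⟩),(⟨0,[(28,0)]⟩,⟨0,
  [(27,0)]⟩),⟨0,[(1,0)]⟩,.k,.k,(.x (-1) ⟨3,[(13,0),(0,0),(11,1),(0,3)]⟩ ⟨0,[(28,0)]⟩),(.x (-1) ⟨3,
  [(13,0),(0,0),(11,1),(0,3)]⟩ ⟨0,[(28,0)]⟩),.k,.k,⟨false,2,⟨1,[(3,1),(3,1),(7,1),(17,0),(0,0)]⟩,⟨0,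
  [(0,0),(31,0)]⟩⟩,⟨true,0,⟨0,[(15,0)]⟩,⟨0,[(10,0),(5,0),(4,0)]⟩⟩,⟨false,1,⟨3,[(13,0),(0,0),(19,
  1)]⟩,⟨0,[]⟩⟩,⟨true,(-1),⟨0,[(0,0),(14,0),(16,0)]⟩,⟨0,[(3,0),(3,0)]⟩⟩,⟨false,0,⟨0,[]⟩,⟨0,[]⟩⟩,
  ⟨false,0,⟨0,[]⟩,⟨0,[]⟩⟩,[.o ⟨false,0,⟨3,[(8,0),(10,0),(2,0),(6,0),(2,2)]⟩,⟨1,[(5,0),(11,0),(13,0),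
  (2,1)]⟩⟩,.o ⟨false,0,⟨0,[(32,0)]⟩,⟨1,[(26,0),(4,1),(2,0)]⟩⟩,.o ⟨false,1,⟨1,[(16,1),(9,0),(6,0)]⟩,
  ⟨0,[(10,0),(4,0),(5,0)]⟩⟩,.a ⟨true,0,⟨0,[(16,0)]⟩,⟨0,[(15,0)]⟩⟩ ⟨true,1,⟨1,[(13,0),(19,0)]⟩,⟨0,
  [(0,0)]⟩⟩ ⟨false,0,⟨0,[(15,0),(16,0)]⟩,⟨1,[(5,0),(10,1),(0,0),(13,0),(2,1)]⟩⟩]⟩) (.I [0,1,1,1,0,0,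
  0,-1,-1] (.I [1,0,1,0,0,0,0,0,-1] (.I [0,1,0,0,0,0,0,0,-1] (.I [0,1,-2,-1,1,0,0,0,-1] (.R ⟨0,
  false,false,false,[1,0,0,-1],[0,1],[0,1,0,0,0,0,0,0,-1],(⟨0,[(19,0)]⟩,⟨0,[(20,0)]⟩),(⟨0,[(32,0)]⟩,
  ⟨0,[(31,0)]⟩),⟨0,[(5,0)]⟩,.k,.k,(.x (-1) ⟨3,[(17,0),(0,0),(11,1),(0,3)]⟩ ⟨0,[(32,0)]⟩),(.x (-1)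
  ⟨3,[(17,0),(0,0),(11,1),(0,3)]⟩ ⟨0,[(32,0)]⟩),.k,.k,⟨false,1,⟨0,[(0,0)]⟩,⟨0,[(6,0),(13,0),(15,
  0)]⟩⟩,⟨true,0,⟨0,[(19,0)]⟩,⟨0,[(14,0),(5,0),(4,0)]⟩⟩,⟨true,0,⟨0,[(40,0)]⟩,⟨0,[]⟩⟩,⟨false,0,⟨0,[(6,
  0),(12,0),(0,0),(15,0)]⟩,⟨0,[(7,0),(3,0)]⟩⟩,⟨false,0,⟨0,[]⟩,⟨0,[]⟩⟩,⟨false,0,⟨0,[]⟩,⟨0,[]⟩⟩,[.o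
  ⟨false,0,⟨0,[(36,0)]⟩,⟨1,[(30,0),(4,1),(2,0)]⟩⟩,.o ⟨false,1,⟨3,[(17,0),(0,0),(17,3),(1,1)]⟩,⟨1,
  [(9,0),(11,0),(13,0)]⟩⟩,.o ⟨false,1,⟨1,[(20,1),(9,0),(6,0)]⟩,⟨0,[(1,0),(4,0)]⟩⟩,.a ⟨true,0,⟨0,
  [(20,0)]⟩,⟨0,[(19,0)]⟩⟩ ⟨false,1,⟨1,[(17,0),(19,0)]⟩,⟨0,[(6,0),(13,0)]⟩⟩ ⟨true,0,⟨0,[(19,0),(16,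
  0)]⟩,⟨1,[(9,0),(10,1),(0,0),(13,0)]⟩⟩]⟩) (.R ⟨0,false,false,true,[1,0,0,-1],[0,1],[0,1,1],(⟨0,
  [(19,0)]⟩,⟨0,[(20,0)]⟩),(⟨0,[(32,0)]⟩,⟨0,[(31,0)]⟩),⟨0,[(5,0)]⟩,.k,.k,(.x (-1) ⟨3,[(17,0),(0,0),
  (11,1),(0,3)]⟩ ⟨0,[(32,0)]⟩),(.x (-1) ⟨3,[(17,0),(0,0),(11,1),(0,3)]⟩ ⟨0,[(32,0)]⟩),.k,.k,⟨false,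
  1,⟨1,[(35,1),(1,0),(0,0)]⟩,⟨0,[(36,0)]⟩⟩,⟨true,0,⟨0,[(19,0)]⟩,⟨10,[(0,1),(2,0),(3,0),(1,2),(10,9),
  (0,0),(0,3),(2,2),(4,0)]⟩⟩,⟨false,0,⟨5,[(0,1),(17,1),(6,0),(0,0),(8,1)]⟩,⟨0,[(4,0)]⟩⟩,⟨true,(-1),
  ⟨0,[(0,0),(18,0),(13,0)]⟩,⟨0,[(7,0),(3,0)]⟩⟩,⟨false,0,⟨0,[]⟩,⟨0,[]⟩⟩,⟨false,0,⟨0,[]⟩,⟨0,[]⟩⟩,[.o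
  ⟨false,0,⟨20,[(0,0),(2,2),(14,0),(4,2),(2,2),(6,7),(2,16)]⟩,⟨1,[(9,0),(11,0),(13,0),(2,1)]⟩⟩,.o
  ⟨false,0,⟨0,[(36,0)]⟩,⟨1,[(30,0),(4,1),(2,0)]⟩⟩,.o ⟨false,1,⟨1,[(20,1),(9,0),(6,0)]⟩,⟨0,[(1,0),(4,
  0)]⟩⟩,.a ⟨true,0,⟨0,[(20,0)]⟩,⟨0,[(19,0)]⟩⟩ ⟨true,0,⟨24,[(0,0),(2,2),(14,0),(4,2),(2,2),(6,7),(1,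
  3)]⟩,⟨0,[]⟩⟩ ⟨false,0,⟨0,[(19,0),(16,0)]⟩,⟨1,[(9,0),(10,1),(0,0),(13,0),(2,1)]⟩⟩]⟩)) (.R ⟨0,false,
  false,false,[1,0,0,-1],[0,0,1],[0,1,0,0,0,0,0,0,-1],(⟨0,[(18,0)]⟩,⟨0,[(19,0)]⟩),(⟨0,[(28,0)]⟩,⟨0,
  [(27,0)]⟩),⟨0,[(4,0)]⟩,.k,.k,(.x (-1) ⟨3,[(16,0),(0,0),(11,1),(0,3)]⟩ ⟨0,[(31,0)]⟩),.k,.k,.k,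
  ⟨false,1,⟨0,[(3,0),(7,0),(22,0)]⟩,⟨0,[(0,0),(25,0)]⟩⟩,⟨true,0,⟨0,[(18,0),(5,0)]⟩,⟨0,[(13,0),(5,
  0)]⟩⟩,⟨true,0,⟨0,[(39,0)]⟩,⟨0,[]⟩⟩,⟨false,0,⟨1,[(5,1),(9,0),(2,0),(0,0)]⟩,⟨0,[(6,0)]⟩⟩,⟨false,0,
  ⟨0,[]⟩,⟨0,[]⟩⟩,⟨false,0,⟨0,[]⟩,⟨0,[]⟩⟩,[.o ⟨false,0,⟨0,[(12,0)]⟩,⟨1,[(23,1),(5,0),(7,0)]⟩⟩,.o
  ⟨false,1,⟨7,[(15,3),(0,0),(0,0),(11,1),(7,3)]⟩,⟨0,[(20,0)]⟩⟩,.o ⟨false,1,⟨1,[(19,1),(9,0),(6,0)]⟩,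
  ⟨2,[(2,0),(2,0),(2,0),(9,1),(2,0)]⟩⟩,.a ⟨true,0,⟨0,[(19,0)]⟩,⟨0,[(18,0)]⟩⟩ ⟨false,1,⟨1,[(16,0),
  (19,0)]⟩,⟨0,[(5,0),(13,0)]⟩⟩ ⟨true,0,⟨0,[(12,0),(5,0)]⟩,⟨0,[(19,0),(0,0)]⟩⟩]⟩)) (.R ⟨0,false,
  false,false,[1,0,0,-1],[0,0,1],[0,1,0,0,0,0,0,0,-1],(⟨0,[(17,0)]⟩,⟨0,[(18,0)]⟩),(⟨0,[(27,0)]⟩,⟨0,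
  [(26,0)]⟩),⟨0,[(3,0)]⟩,.k,.k,(.x (-1) ⟨3,[(15,0),(0,0),(11,1),(0,3)]⟩ ⟨0,[(30,0)]⟩),.k,.k,.k,
  ⟨false,1,⟨0,[(2,0),(7,0),(22,0)]⟩,⟨0,[(0,0),(24,0),(6,0)]⟩⟩,⟨true,0,⟨0,[(17,0),(5,0)]⟩,⟨0,[(12,0),
  (5,0)]⟩⟩,⟨true,0,⟨0,[(38,0)]⟩,⟨0,[]⟩⟩,⟨false,0,⟨1,[(4,1),(9,0),(2,0),(0,0)]⟩,⟨0,[(5,0)]⟩⟩,⟨false,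
  0,⟨0,[]⟩,⟨0,[]⟩⟩,⟨false,0,⟨0,[]⟩,⟨0,[]⟩⟩,[.o ⟨false,0,⟨0,[(11,0)]⟩,⟨1,[(22,1),(5,0),(7,0)]⟩⟩,.o
  ⟨false,1,⟨7,[(14,3),(0,0),(0,0),(11,1),(7,3)]⟩,⟨0,[(19,0)]⟩⟩,.o ⟨false,1,⟨1,[(18,1),(9,0),(6,0)]⟩,
  ⟨2,[(1,0),(2,0),(2,0),(9,1),(2,0)]⟩⟩,.a ⟨true,0,⟨0,[(18,0)]⟩,⟨0,[(17,0)]⟩⟩ ⟨false,1,⟨1,[(15,0),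
  (19,0)]⟩,⟨0,[(4,0),(13,0)]⟩⟩ ⟨true,0,⟨0,[(11,0),(5,0)]⟩,⟨0,[(18,0),(0,0)]⟩⟩]⟩)) (.R ⟨0,false,
  false,false,[1,0,0,-1],[0,0,1],[0,1,0,0,0,0,0,0,-1],(⟨0,[(16,0)]⟩,⟨0,[(17,0)]⟩),(⟨0,[(26,0)]⟩,⟨0,
  [(25,0)]⟩),⟨0,[(2,0)]⟩,.k,.k,(.x (-1) ⟨3,[(14,0),(0,0),(11,1),(0,3)]⟩ ⟨0,[(29,0)]⟩),.k,.k,.k,
  ⟨false,1,⟨0,[(1,0),(7,0),(22,0)]⟩,⟨5,[(0,3),(2,1),(9,0),(3,1),(1,0),(3,0),(9,3)]⟩⟩,⟨true,0,⟨0,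
  [(16,0),(5,0)]⟩,⟨0,[(11,0),(5,0)]⟩⟩,⟨true,0,⟨0,[(37,0)]⟩,⟨0,[]⟩⟩,⟨false,0,⟨1,[(3,1),(9,0),(2,0),
  (0,0)]⟩,⟨0,[(4,0)]⟩⟩,⟨false,0,⟨0,[]⟩,⟨0,[]⟩⟩,⟨false,0,⟨0,[]⟩,⟨0,[]⟩⟩,[.o ⟨false,0,⟨0,[(10,0)]⟩,⟨1,
  [(21,1),(5,0),(7,0)]⟩⟩,.o ⟨false,1,⟨7,[(13,3),(0,0),(0,0),(11,1),(7,3)]⟩,⟨0,[(18,0)]⟩⟩,.o ⟨false,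
  1,⟨1,[(17,1),(9,0),(6,0)]⟩,⟨0,[(11,0),(4,0),(5,0)]⟩⟩,.a ⟨true,0,⟨0,[(17,0)]⟩,⟨0,[(16,0)]⟩⟩ ⟨false,
  1,⟨1,[(14,0),(19,0)]⟩,⟨0,[(3,0),(13,0)]⟩⟩ ⟨true,0,⟨0,[(10,0),(5,0)]⟩,⟨0,[(17,0),(0,0)]⟩⟩]⟩))) (.I
  [0,0,-2,-1,1,0,0,0,-1] (.R ⟨1,false,false,false,[1,0,0,-1],[0,1],[0,0,0,0,0,0,0,0,-1],(⟨0,[(15,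
  0)]⟩,⟨0,[(16,0)]⟩),(⟨0,[(28,0)]⟩,⟨0,[(27,0)]⟩),⟨0,[(1,0)]⟩,.k,.k,(.x (-1) ⟨3,[(13,0),(0,0),(11,1),
  (0,3)]⟩ ⟨0,[(28,0)]⟩),(.x (-1) ⟨3,[(13,0),(0,0),(11,1),(0,3)]⟩ ⟨0,[(28,0)]⟩),(.x 0 ⟨0,[(5,0),(11,
  0),(9,1),(2,0),(1,0)]⟩ ⟨3,[(13,0),(0,0),(13,7),(4,1)]⟩),.k,⟨false,1,⟨0,[(0,0)]⟩,⟨3,[(2,3),(5,0),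
  (7,3),(2,0),(2,0),(6,0),(2,2)]⟩⟩,⟨true,0,⟨0,[(15,0)]⟩,⟨0,[(10,0),(5,0),(4,0)]⟩⟩,⟨false,1,⟨3,[(13,
  0),(0,0),(19,1)]⟩,⟨0,[]⟩⟩,⟨false,0,⟨0,[(2,0),(12,0),(0,0),(15,0)]⟩,⟨0,[(3,0),(3,0)]⟩⟩,⟨true,0,⟨0,
  [(32,0)]⟩,⟨0,[(31,0)]⟩⟩,⟨false,0,⟨0,[(2,0),(12,0),(0,0),(15,1)]⟩,⟨1,[(0,1),(4,0),(10,1),(0,0),(12,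
  1),(0,0)]⟩⟩,[.o ⟨false,0,⟨0,[(32,0)]⟩,⟨1,[(26,0),(4,1),(2,0)]⟩⟩,.o ⟨false,1,⟨3,[(13,0),(0,0),(17,
  3),(1,1)]⟩,⟨1,[(5,0),(11,0),(13,0)]⟩⟩,.o ⟨false,1,⟨1,[(16,1),(9,0),(6,0)]⟩,⟨0,[(10,0),(4,0),(5,
  0)]⟩⟩,.a ⟨true,0,⟨0,[(16,0)]⟩,⟨0,[(15,0)]⟩⟩ ⟨false,1,⟨0,[(0,0),(29,0),(1,0)]⟩,⟨0,[(2,0),(13,0),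
  (19,0)]⟩⟩ ⟨true,0,⟨0,[(15,0),(16,0)]⟩,⟨1,[(5,0),(10,1),(0,0),(13,0)]⟩⟩]⟩) (.Q [0,0,-1,-2,1,0,0,0,
  -1,-1,0,1] (.p true [0,0,0,1] [1] (⟨0,[(16,0)]⟩,⟨0,[(15,0)]⟩) .k 1 (⟨0,[]⟩,⟨0,[]⟩) .k .k) (.I [0,
  1,1,1,-1,0,0,0,1] (.R ⟨1,false,false,true,[1,0,0,-1],[0,1],[1,0,0,-1,0,0,0,0,-1],(⟨0,[(17,0)]⟩,⟨0,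
  [(18,0)]⟩),(⟨0,[(30,0)]⟩,⟨0,[(29,0)]⟩),⟨0,[(3,0)]⟩,.k,.k,(.x (-1) ⟨3,[(15,0),(0,0),(11,1),(0,3)]⟩
  ⟨0,[(30,0)]⟩),(.x (-1) ⟨3,[(15,0),(0,0),(11,1),(0,3)]⟩ ⟨0,[(30,0)]⟩),(.r (-2) ⟨3,[(1,3),(13,0),(0,
  0),(0,3),(17,1)]⟩ ⟨0,[(2,0),(31,0)]⟩),.k,⟨false,2,⟨1,[(1,1),(15,1),(17,0),(0,0)]⟩,⟨0,[(0,0),(33,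
  0)]⟩⟩,⟨true,0,⟨0,[(17,0)]⟩,⟨7,[(1,1),(0,5),(2,1),(1,1),(7,0),(2,3),(9,0)]⟩⟩,⟨false,1,⟨0,[(33,0),
  (2,0)]⟩,⟨0,[(34,0)]⟩⟩,⟨true,(-1),⟨0,[(0,0),(16,0)]⟩,⟨4,[(1,1),(3,2),(1,0),(6,0)]⟩⟩,⟨true,0,⟨0,[]⟩,
  ⟨0,[(38,0)]⟩⟩,⟨true,(-1),⟨0,[(0,0),(16,0),(16,0)]⟩,⟨0,[(1,0)]⟩⟩,[.o ⟨false,0,⟨11,[(0,3),(14,2),(0,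
  0),(14,3),(2,7)]⟩,⟨3,[(1,1),(2,1),(23,0),(7,0)]⟩⟩,.o ⟨false,0,⟨0,[(34,0)]⟩,⟨5,[(1,1),(2,1),(10,0),
  (0,0),(11,1),(4,1)]⟩⟩,.o ⟨false,1,⟨1,[(18,1),(9,0),(6,0)]⟩,⟨2,[(2,0),(1,0),(2,0),(7,0),(1,1),(1,
  0)]⟩⟩,.a ⟨true,0,⟨0,[(18,0)]⟩,⟨0,[(17,0)]⟩⟩ ⟨true,1,⟨3,[(1,1),(13,0),(1,1),(17,0)]⟩,⟨0,[(0,0)]⟩⟩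
  ⟨false,0,⟨0,[(17,0),(16,0)]⟩,⟨11,[(1,7),(0,3),(3,1),(0,1),(4,1),(3,0),(1,3),(17,4)]⟩⟩]⟩) (.R ⟨1,
  false,false,false,[1,0,0,-1],[0,1],[0,1,0,0,0,0,0,0,-1],(⟨0,[(17,0)]⟩,⟨0,[(18,0)]⟩),(⟨0,[(30,0)]⟩,
  ⟨0,[(29,0)]⟩),⟨0,[(3,0)]⟩,.k,.k,(.x (-1) ⟨3,[(15,0),(0,0),(11,1),(0,3)]⟩ ⟨0,[(30,0)]⟩),(.x (-1)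
  ⟨3,[(15,0),(0,0),(11,1),(0,3)]⟩ ⟨0,[(30,0)]⟩),(.r (-2) ⟨3,[(1,3),(13,0),(0,0),(0,3),(17,1)]⟩ ⟨0,
  [(2,0),(31,0)]⟩),.k,⟨false,1,⟨0,[(0,0),(30,0)]⟩,⟨1,[(2,1),(32,0),(0,0)]⟩⟩,⟨true,0,⟨0,[(17,0)]⟩,⟨7,
  [(1,1),(0,5),(2,1),(1,1),(7,0),(2,3),(9,0)]⟩⟩,⟨true,0,⟨0,[(38,0)]⟩,⟨0,[]⟩⟩,⟨false,0,⟨1,[(2,1),(14,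
  1),(17,0),(0,0)]⟩,⟨4,[(1,1),(3,2),(1,0),(6,0)]⟩⟩,⟨false,0,⟨0,[(34,0)]⟩,⟨0,[(33,0),(2,0)]⟩⟩,⟨false,
  0,⟨1,[(2,1),(14,1),(16,1),(0,0),(0,0)]⟩,⟨0,[(1,0)]⟩⟩,[.o ⟨false,0,⟨0,[(34,0)]⟩,⟨5,[(1,1),(2,1),
  (10,0),(0,0),(11,1),(4,1)]⟩⟩,.o ⟨false,1,⟨3,[(15,0),(0,0),(17,3),(1,1)]⟩,⟨1,[(7,0),(11,0),(13,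
  0)]⟩⟩,.o ⟨false,1,⟨1,[(18,1),(9,0),(6,0)]⟩,⟨2,[(2,0),(1,0),(2,0),(7,0),(1,1),(1,0)]⟩⟩,.a ⟨true,0,
  ⟨0,[(18,0)]⟩,⟨0,[(17,0)]⟩⟩ ⟨false,1,⟨1,[(15,0),(19,0)]⟩,⟨0,[(4,0),(13,0)]⟩⟩ ⟨true,0,⟨0,[(17,0),
  (16,0)]⟩,⟨1,[(7,0),(10,1),(0,0),(13,0)]⟩⟩]⟩)) (.R ⟨1,true,false,true,[1,0,0,-1],[0,1],[0,0,0,0,0,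
  0,0,0,-1],(⟨0,[(16,0)]⟩,⟨0,[(17,0)]⟩),(⟨0,[(29,0)]⟩,⟨0,[(28,0)]⟩),⟨0,[(2,0)]⟩,.k,.k,(.x (-1) ⟨3,
  [(14,0),(0,0),(11,1),(0,3)]⟩ ⟨0,[(29,0)]⟩),(.x (-1) ⟨3,[(14,0),(0,0),(11,1),(0,3)]⟩ ⟨0,[(29,0)]⟩),
  (.r (-2) ⟨1,[(4,1),(3,1),(7,1),(15,1),(1,0),(0,0)]⟩ ⟨0,[(1,0),(31,0)]⟩),.k,⟨false,2,⟨1,[(4,1),(3,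
  1),(7,1),(17,0),(0,0)]⟩,⟨1,[(0,1),(5,0),(10,1),(0,0),(13,0)]⟩⟩,⟨true,0,⟨0,[(16,0)]⟩,⟨2,[(1,0),(2,
  0),(1,0),(10,1),(1,0),(2,0)]⟩⟩,⟨false,1,⟨3,[(14,0),(0,0),(19,1)]⟩,⟨0,[]⟩⟩,⟨true,(-1),⟨0,[(0,0),
  (31,0)]⟩,⟨0,[(4,0),(3,0)]⟩⟩,⟨true,0,⟨0,[(33,0)]⟩,⟨0,[(32,0)]⟩⟩,⟨false,(-1),⟨0,[(0,0)]⟩,⟨0,[(4,0),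
  (3,0),(23,0),(2,0)]⟩⟩,[]⟩))))) (.I [0,0,1,1,0,0,0,0,-1] (.K ⟨0,[0,0,0,1],0,(-1),(⟨0,[(14,0)]⟩,⟨0,
  [(13,0)]⟩),.k,(.r (-1) ⟨0,[(1,0),(12,0),(0,0),(13,0),(1,0),(0,0)]⟩ ⟨0,[(0,0)]⟩),(.x 0 ⟨0,[(26,
  0)]⟩ ⟨3,[(11,0),(0,0),(11,1),(0,3)]⟩),.k,.k,[⟨0,[(14,0)]⟩,⟨0,[(13,0)]⟩,⟨7,[(11,4),(0,0),(1,7),(12,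
  3),(3,1)]⟩,⟨0,[(1,0),(13,0)]⟩]⟩) (.K ⟨0,[0,0,0,1],0,(-1),(⟨0,[(14,0)]⟩,⟨0,[(13,0)]⟩),.k,(.x 0 ⟨0,
  [(16,0),(2,0),(5,0)]⟩ ⟨0,[(26,0),(4,0)]⟩),(.x 0 ⟨0,[(26,0)]⟩ ⟨3,[(11,0),(0,0),(11,1),(0,3)]⟩),.k,
  .k,[⟨0,[(14,0)]⟩,⟨0,[(13,0)]⟩,⟨7,[(11,4),(0,0),(1,7),(12,3),(3,1)]⟩,⟨0,[(1,0),(13,0)]⟩]⟩)))))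

theorem ok4 : chk (cU (-1) true 3) t4 l5 = true := by decide +kernel

noncomputable def l6 : List Con := (true, [1,0,1,0,0,0,0,-1]) :: r5

noncomputable def r6 : List Con := (true, [0,0,-1,0,0,0,0,1]) :: r5

noncomputable def l7 : List Con := (true, [1,1,1,0,-1,0,0,0,-1]) :: l6

noncomputable def r7 : List Con := (true, [0,-1,-1,0,1,0,0,0,1]) :: l6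

noncomputable def t5 : Tre :=
  (.Q [0,1,1,0,0,0,0,0,1,0,0,-1] (.p false [0,0,0,1] [] (⟨0,[(12,0)]⟩,⟨0,[(11,0)]⟩) .k 0 (⟨0,[]⟩,⟨0,
  []⟩) .k .k) (.K ⟨0,[0,0,0,1],0,0,(⟨0,[(13,0)]⟩,⟨0,[(12,0)]⟩),.k,(.x 0 ⟨0,[(15,0),(2,0),(5,0)]⟩ ⟨0,
  [(25,0),(4,0)]⟩),(.x 0 ⟨0,[(25,0)]⟩ ⟨3,[(10,0),(0,0),(11,1),(0,3)]⟩),.k,.k,[⟨0,[(13,0)]⟩,⟨0,[(12,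
  0)]⟩,⟨0,[(1,0),(11,0),(16,0)]⟩,⟨0,[(0,0)]⟩]⟩) (.Q [0,0,0,0,0,1,0,0,0,-1,0,1] (.p true [0,0,0,1]
  [1] (⟨0,[(13,0)]⟩,⟨0,[(12,0)]⟩) .k 1 (⟨0,[]⟩,⟨0,[]⟩) .k .k) (.R ⟨0,false,false,true,[1,0,0,-1],[0,
  1],[1,0,1],(⟨0,[(13,0)]⟩,⟨0,[(14,0)]⟩),(⟨0,[(26,0)]⟩,⟨0,[(25,0)]⟩),⟨0,[(0,0)]⟩,.k,.k,(.x (-1) ⟨3,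
  [(11,0),(0,0),(11,1),(0,3)]⟩ ⟨0,[(26,0)]⟩),(.x (-1) ⟨3,[(11,0),(0,0),(11,1),(0,3)]⟩ ⟨0,[(26,0)]⟩),
  .k,.k,⟨false,1,⟨1,[(1,1),(3,1),(6,0),(0,1),(1,1),(16,0)]⟩,⟨3,[(6,0),(10,0),(2,0),(6,0),(2,2)]⟩⟩,
  ⟨true,0,⟨0,[(13,0)]⟩,⟨0,[(8,0),(5,0),(4,0)]⟩⟩,⟨false,1,⟨1,[(12,0),(6,0),(0,0),(11,0)]⟩,⟨0,[(1,0),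
  (5,0),(5,0),(1,0)]⟩⟩,⟨true,0,⟨0,[(2,0),(9,0),(0,0),(16,0)]⟩,⟨0,[(1,0),(3,0),(9,0)]⟩⟩,⟨false,0,⟨0,
  []⟩,⟨0,[]⟩⟩,⟨false,0,⟨0,[]⟩,⟨0,[]⟩⟩,[.o ⟨false,0,⟨3,[(6,0),(10,0),(2,0),(6,0),(2,2)]⟩,⟨0,[(5,0),
  (9,0),(16,0)]⟩⟩,.o ⟨false,0,⟨0,[(30,0)]⟩,⟨1,[(24,0),(4,1),(2,0)]⟩⟩,.o ⟨false,1,⟨1,[(14,1),(9,0),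
  (6,0)]⟩,⟨0,[(8,0),(4,0),(5,0)]⟩⟩,.a ⟨true,0,⟨0,[(14,0)]⟩,⟨0,[(13,0)]⟩⟩ ⟨true,0,⟨0,[]⟩,⟨0,[(34,
  0)]⟩⟩ ⟨false,0,⟨0,[(13,0),(16,0)]⟩,⟨0,[(5,0),(8,0),(0,0),(16,0)]⟩⟩]⟩) (.Q [0,0,1,2,0,0,0,0,1,1,0,
  -1] (.p false [0,0,0,1] [1] (⟨0,[(14,0)]⟩,⟨0,[(13,0)]⟩) .k 1 (⟨0,[]⟩,⟨0,[]⟩) .k .k) (.R ⟨1,true,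
  false,true,[1,0,0,-1],[0,1],[0,0,0,0,0,0,0,0,-1],(⟨0,[(14,0)]⟩,⟨0,[(15,0)]⟩),(⟨0,[(27,0)]⟩,⟨0,
  [(26,0)]⟩),⟨0,[(1,0)]⟩,.k,.k,(.x (-1) ⟨3,[(12,0),(0,0),(11,1),(0,3)]⟩ ⟨0,[(27,0)]⟩),(.x (-1) ⟨3,
  [(12,0),(0,0),(11,1),(0,3)]⟩ ⟨0,[(27,0)]⟩),(.r (-1) ⟨1,[(2,1),(3,1),(7,1),(1,1),(13,1),(1,0),(0,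
  0)]⟩ ⟨0,[(0,0),(8,0),(5,0),(4,0)]⟩),.k,⟨false,1,⟨1,[(2,1),(3,1),(7,1),(1,1),(15,0),(0,0)]⟩,⟨1,[(0,
  0),(2,0),(4,0),(4,0),(1,0),(0,0)]⟩⟩,⟨true,0,⟨0,[(14,0)]⟩,⟨0,[(9,0),(5,0),(4,0)]⟩⟩,⟨false,1,⟨3,
  [(12,0),(0,0),(19,1)]⟩,⟨0,[]⟩⟩,⟨true,0,⟨0,[(0,0),(29,0)]⟩,⟨0,[(2,0),(3,0),(9,0)]⟩⟩,⟨true,0,⟨0,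
  [(31,0)]⟩,⟨0,[(30,0)]⟩⟩,⟨false,0,⟨0,[(0,0)]⟩,⟨0,[(2,0),(3,0),(9,0),(13,0),(2,0)]⟩⟩,[]⟩) (.R ⟨1,
  false,false,true,[1,0,0,-1],[0,1],[0,0,0,0,0,0,0,0,-1],(⟨0,[(14,0)]⟩,⟨0,[(15,0)]⟩),(⟨0,[(27,0)]⟩,
  ⟨0,[(26,0)]⟩),⟨0,[(1,0)]⟩,.k,.k,(.x (-1) ⟨3,[(12,0),(0,0),(11,1),(0,3)]⟩ ⟨0,[(27,0)]⟩),(.x (-1)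
  ⟨3,[(12,0),(0,0),(11,1),(0,3)]⟩ ⟨0,[(27,0)]⟩),(.r (-1) ⟨7,[(0,5),(11,0),(1,5),(15,3),(1,4),(0,
  1)]⟩ ⟨0,[(3,0),(9,0),(15,0),(1,1)]⟩),.k,⟨false,1,⟨3,[(0,1),(1,1),(11,3),(10,0),(6,1),(0,0)]⟩,⟨0,
  [(3,0),(9,0),(17,0)]⟩⟩,⟨true,0,⟨0,[(14,0)]⟩,⟨0,[(9,0),(5,0),(4,0)]⟩⟩,⟨false,1,⟨3,[(12,0),(0,0),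
  (19,1)]⟩,⟨0,[]⟩⟩,⟨true,0,⟨0,[(3,0),(9,0),(0,0),(16,0)]⟩,⟨0,[(0,0),(30,0)]⟩⟩,⟨true,0,⟨0,[(31,0)]⟩,
  ⟨0,[(30,0)]⟩⟩,⟨true,0,⟨0,[(3,0),(9,0),(0,0),(16,1)]⟩,⟨0,[(0,0)]⟩⟩,[.o ⟨false,0,⟨3,[(7,0),(10,0),
  (2,0),(6,0),(2,2)]⟩,⟨3,[(0,1),(12,0),(0,1),(10,1),(3,1),(3,0)]⟩⟩,.o ⟨false,0,⟨0,[(31,0)]⟩,⟨1,[(25,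
  0),(4,1),(2,0)]⟩⟩,.o ⟨false,1,⟨1,[(15,1),(9,0),(6,0)]⟩,⟨0,[(9,0),(4,0),(5,0)]⟩⟩,.a ⟨true,0,⟨0,
  [(15,0)]⟩,⟨0,[(14,0)]⟩⟩ ⟨true,0,⟨0,[(0,0),(13,0),(16,1)]⟩,⟨0,[(3,0),(9,0)]⟩⟩ ⟨false,0,⟨0,[(14,0),
  (16,0)]⟩,⟨3,[(0,1),(12,0),(1,1),(4,0),(0,0),(3,0),(7,1)]⟩⟩]⟩))))

theorem ok5 : chk (cU (-1) true 3) t5 l7 = true := by decide +kernel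

noncomputable def l8 : List Con := (false, [0,0,0,0,0,1,0,0,0,-1,1]) :: r7

noncomputable def r8 : List Con := (false, [0,0,0,0,0,-1,0,0,0,1,-1]) :: r7

noncomputable def t6 : Tre :=
  (.Q [0,0,0,0,0,0,1,0,0,2,-1] (.p false [-1,1,1] [1] (⟨0,[(0,0)]⟩,⟨0,[(21,0),(2,0)]⟩) .k 1 (⟨0,[]⟩,
  ⟨0,[]⟩) .k .k) (.R ⟨0,false,false,false,[-1,1,1],[0,0,1],[0,1,1,0,0,0,0,1],(⟨0,[(1,0)]⟩,⟨0,[(22,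
  0),(2,0)]⟩),(⟨0,[(23,0)]⟩,⟨0,[(22,0)]⟩),⟨0,[(22,0)]⟩,.k,.k,.k,.k,.k,.k,⟨false,0,⟨0,[(34,0)]⟩,⟨1,
  [(31,0),(0,0)]⟩⟩,⟨true,0,⟨0,[(8,0),(10,0)]⟩,⟨0,[(13,0),(0,0)]⟩⟩,⟨true,0,⟨0,[(29,0)]⟩,⟨0,[(30,
  0)]⟩⟩,⟨false,1,⟨0,[(5,0),(9,0),(16,0)]⟩,⟨0,[(13,0),(0,0),(15,0)]⟩⟩,⟨false,0,⟨0,[]⟩,⟨0,[]⟩⟩,⟨false,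
  0,⟨0,[]⟩,⟨0,[]⟩⟩,[.o ⟨false,0,⟨0,[(7,0)]⟩,⟨1,[(18,1),(5,0),(7,0)]⟩⟩,.o ⟨false,1,⟨7,[(10,3),(0,0),
  (0,0),(11,1),(7,3)]⟩,⟨0,[(15,0)]⟩⟩,.o ⟨false,1,⟨1,[(0,1),(23,0),(6,0)]⟩,⟨0,[(8,1),(10,0)]⟩⟩,.a
  ⟨true,0,⟨0,[(0,0)]⟩,⟨0,[(8,0)]⟩⟩ ⟨false,0,⟨0,[(21,0)]⟩,⟨1,[(3,1),(27,0),(0,0)]⟩⟩ ⟨true,0,⟨0,[(7,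
  0),(0,0)]⟩,⟨0,[(0,0),(14,0)]⟩⟩]⟩) (.Q [0,0,-1,-1,1,0,0,0,-1,-1,0,1] (.p true [0,0,0,1] [1] (⟨0,
  [(14,0)]⟩,⟨0,[(13,0)]⟩) .k 1 (⟨0,[]⟩,⟨0,[]⟩) .k .k) (.I [0,1,-1,-1,0,0,0,1] (.Q [0,0,0,2,0,0,-1,
  -1,0,0,1] (.p true [0,0,1] [] (⟨0,[(25,0)]⟩,⟨0,[(24,0)]⟩) .k 0 (⟨0,[]⟩,⟨0,[]⟩) .k .k) (.R ⟨1,true,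
  false,false,[0,0,1],[0,1],[0,1,0,0,0,0,0,1],(⟨0,[(26,0)]⟩,⟨0,[(25,0)]⟩),(⟨0,[(29,0)]⟩,⟨0,[(28,
  0)]⟩),⟨0,[(7,0)]⟩,.k,.k,.k,.k,(.x 0 ⟨2,[(3,0),(3,2),(11,0),(2,4),(5,2)]⟩ ⟨0,[(11,0),(13,0),(3,1),
  (4,0)]⟩),.k,⟨true,0,⟨0,[(1,0)]⟩,⟨1,[(0,0),(5,0),(15,0),(8,1)]⟩⟩,⟨false,1,⟨0,[(11,0),(4,0),(0,0),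
  (16,0)]⟩,⟨0,[(22,0)]⟩⟩,⟨true,0,⟨0,[(37,0)]⟩,⟨0,[]⟩⟩,⟨false,1,⟨7,[(0,3),(13,0),(0,0),(5,3),(13,
  5)]⟩,⟨0,[(8,0)]⟩⟩,⟨false,0,⟨0,[(33,0)]⟩,⟨0,[(32,0),(2,0)]⟩⟩,⟨true,0,⟨0,[(0,0)]⟩,⟨0,[(8,0),(23,
  0)]⟩⟩,[]⟩) (.Q [0,1,-1,0,0,0,0,0,-1,0,0,1] (.p true [0,0,0,1] [] (⟨0,[(17,0)]⟩,⟨0,[(16,0)]⟩) .k 0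
  (⟨0,[]⟩,⟨0,[]⟩) .k .k) (.Q [0,1,1,0,0,0,0,0,1,0,0,-1] (.p false [0,0,0,1] [] (⟨0,[(18,0)]⟩,⟨0,
  [(17,0)]⟩) .k 0 (⟨0,[]⟩,⟨0,[]⟩) .k .k) (.K ⟨0,[0,0,0,1],0,0,(⟨0,[(19,0)]⟩,⟨0,[(18,0)]⟩),.k,(.r
  (-1) ⟨0,[(7,0),(26,0)]⟩ ⟨2,[(1,2),(3,0),(12,2),(2,0),(2,1),(8,2),(1,2)]⟩),(.x 0 ⟨0,[(31,0)]⟩ ⟨3,
  [(16,0),(0,0),(11,1),(0,3)]⟩),.k,.k,[⟨0,[(19,0)]⟩,⟨0,[(18,0)]⟩,⟨0,[(1,0)]⟩,⟨0,[(0,0)]⟩]⟩) (.Q [0,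
  0,0,0,0,1,0,0,0,-1,0,1] (.p true [0,0,0,1] [1] (⟨0,[(19,0)]⟩,⟨0,[(18,0)]⟩) .k 1 (⟨0,[]⟩,⟨0,[]⟩)
  .k .k) (.R ⟨0,false,false,false,[1,0,0,-1],[0,0,1],[0,1,0,0,0,0,0,0,-1],(⟨0,[(19,0)]⟩,⟨0,[(20,
  0)]⟩),(⟨0,[(29,0)]⟩,⟨0,[(28,0)]⟩),⟨0,[(0,0)]⟩,.k,.k,(.x (-1) ⟨3,[(17,0),(0,0),(11,1),(0,3)]⟩ ⟨0,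
  [(32,0)]⟩),.k,.k,.k,⟨false,0,⟨3,[(1,3),(1,1),(2,0),(5,3),(6,3),(1,1),(3,0),(7,0)]⟩,⟨1,[(18,0),(8,
  1),(10,0)]⟩⟩,⟨true,0,⟨0,[(19,0),(5,0)]⟩,⟨0,[(14,0),(5,0)]⟩⟩,⟨true,0,⟨0,[(40,0)]⟩,⟨0,[]⟩⟩,⟨false,1,
  ⟨3,[(16,1),(1,1),(0,3),(5,0),(0,0),(3,0),(3,1),(3,0)]⟩,⟨0,[(1,0),(19,0)]⟩⟩,⟨false,0,⟨0,[]⟩,⟨0,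
  []⟩⟩,⟨false,0,⟨0,[]⟩,⟨0,[]⟩⟩,[.o ⟨false,0,⟨0,[(13,0)]⟩,⟨1,[(24,1),(5,0),(7,0)]⟩⟩,.o ⟨false,1,⟨7,
  [(16,3),(0,0),(0,0),(11,1),(7,3)]⟩,⟨0,[(21,0)]⟩⟩,.o ⟨false,1,⟨1,[(20,1),(9,0),(6,0)]⟩,⟨2,[(6,0),
  (12,2),(2,0),(2,1)]⟩⟩,.a ⟨true,0,⟨0,[(20,0)]⟩,⟨0,[(19,0)]⟩⟩ ⟨false,0,⟨1,[(1,1),(4,0),(12,1),(5,0),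
  (7,0)]⟩,⟨1,[(18,0),(6,0),(0,0),(11,0)]⟩⟩ ⟨true,0,⟨0,[(13,0),(5,0)]⟩,⟨0,[(20,0),(0,0)]⟩⟩]⟩) (.I [0,
  -1,-1,0,0,0,0,0,-1] (.I [0,1,-2,-1,0,0,0,0,-1] (.R ⟨1,false,false,false,[1,0,0,-1],[0,1],[0,1,0,0,
  0,0,0,0,-1],(⟨0,[(21,0)]⟩,⟨0,[(22,0)]⟩),(⟨0,[(34,0)]⟩,⟨0,[(33,0)]⟩),⟨0,[(2,0)]⟩,.k,.k,(.x (-1) ⟨3,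
  [(19,0),(0,0),(11,1),(0,3)]⟩ ⟨0,[(34,0)]⟩),(.x (-1) ⟨3,[(19,0),(0,0),(11,1),(0,3)]⟩ ⟨0,[(34,0)]⟩),
  (.x 0 ⟨0,[(8,0),(18,0),(5,1)]⟩ ⟨3,[(19,0),(0,0),(13,7),(4,1)]⟩),.k,⟨false,0,⟨0,[(0,0)]⟩,⟨1,[(20,
  0),(6,0),(0,0),(9,1),(1,0)]⟩⟩,⟨true,0,⟨0,[(21,0)]⟩,⟨2,[(8,0),(13,2),(1,0),(2,1)]⟩⟩,⟨true,0,⟨0,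
  [(42,0)]⟩,⟨0,[]⟩⟩,⟨false,1,⟨1,[(20,0),(0,1),(5,0),(0,0),(9,1),(1,0)]⟩,⟨2,[(0,0),(2,1),(1,0),(2,0),
  (13,0),(0,0),(3,0)]⟩⟩,⟨false,0,⟨0,[(38,0)]⟩,⟨0,[(37,0),(2,0)]⟩⟩,⟨false,1,⟨1,[(20,0),(0,1),(5,0),
  (0,0),(9,3),(1,0)]⟩,⟨0,[(3,0),(1,0),(17,0)]⟩⟩,[.o ⟨false,0,⟨0,[(38,0)]⟩,⟨1,[(32,0),(4,1),(2,0)]⟩⟩,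
  .o ⟨false,1,⟨3,[(19,0),(0,0),(17,3),(1,1)]⟩,⟨3,[(5,1),(2,0),(14,1),(3,0),(7,0)]⟩⟩,.o ⟨false,1,⟨1,
  [(22,1),(9,0),(6,0)]⟩,⟨2,[(8,0),(12,2),(2,0),(2,1)]⟩⟩,.a ⟨true,0,⟨0,[(22,0)]⟩,⟨0,[(21,0)]⟩⟩
  ⟨false,0,⟨5,[(0,0),(0,3),(2,0),(9,0),(6,0),(2,0),(0,0)]⟩,⟨1,[(20,0),(6,0),(0,0),(11,0)]⟩⟩ ⟨true,0,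
  ⟨0,[(21,0),(16,0)]⟩,⟨3,[(5,1),(2,0),(13,3),(0,1),(3,0),(7,0)]⟩⟩]⟩) (.R ⟨1,false,false,true,[1,0,0,
  -1],[0,1],[1,0,0,-1,0,0,0,0,-1],(⟨0,[(21,0)]⟩,⟨0,[(22,0)]⟩),(⟨0,[(34,0)]⟩,⟨0,[(33,0)]⟩),⟨0,[(2,
  0)]⟩,.k,.k,(.x (-1) ⟨3,[(19,0),(0,0),(11,1),(0,3)]⟩ ⟨0,[(34,0)]⟩),(.x (-1) ⟨3,[(19,0),(0,0),(11,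
  1),(0,3)]⟩ ⟨0,[(34,0)]⟩),(.r (-1) ⟨9,[(1,5),(3,7),(1,3),(13,3),(4,7),(12,4),(0,0)]⟩ ⟨3,[(0,3),(13,
  0),(10,0),(2,0),(6,0),(2,2)]⟩),.k,⟨false,1,⟨1,[(1,1),(3,1),(20,1),(12,0),(0,0)]⟩,⟨0,[(0,0),(34,0),
  (2,0)]⟩⟩,⟨true,0,⟨0,[(21,0)]⟩,⟨2,[(8,0),(13,2),(1,0),(2,1)]⟩⟩,⟨false,1,⟨0,[(37,0),(2,0)]⟩,⟨0,[(38,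
  0)]⟩⟩,⟨true,0,⟨0,[(0,0),(20,0),(13,0)]⟩,⟨3,[(3,3),(1,1),(2,0),(14,1),(3,0),(7,0)]⟩⟩,⟨true,0,⟨0,
  []⟩,⟨0,[(42,0)]⟩⟩,⟨true,0,⟨0,[(0,0),(20,0),(13,0),(2,0)]⟩,⟨0,[(3,0),(1,0),(17,0)]⟩⟩,[.o ⟨false,0,
  ⟨3,[(14,0),(10,0),(2,0),(6,0),(2,2)]⟩,⟨3,[(5,1),(17,1),(8,0),(7,2)]⟩⟩,.o ⟨false,0,⟨0,[(38,0)]⟩,⟨1,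
  [(32,0),(4,1),(2,0)]⟩⟩,.o ⟨false,1,⟨1,[(22,1),(9,0),(6,0)]⟩,⟨2,[(8,0),(12,2),(2,0),(2,1)]⟩⟩,.a
  ⟨true,0,⟨0,[(22,0)]⟩,⟨0,[(21,0)]⟩⟩ ⟨true,0,⟨0,[(1,0),(35,0)]⟩,⟨0,[(0,0),(34,0)]⟩⟩ ⟨false,0,⟨0,
  [(21,0),(16,0)]⟩,⟨5,[(5,1),(1,1),(0,1),(2,1),(8,0),(1,3),(17,2)]⟩⟩]⟩)) (.R ⟨0,false,false,true,[1,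
  0,-1],[0,0,0,1],[0,1],(⟨0,[(29,0)]⟩,⟨0,[(30,0)]⟩),(⟨0,[(21,0)]⟩,⟨0,[(20,0)]⟩),⟨0,[(8,0)]⟩,.k,.k,
  .k,.k,.k,.k,⟨false,0,⟨1,[(2,1),(4,0),(12,1),(5,0),(7,0)]⟩,⟨3,[(18,0),(0,2)]⟩⟩,⟨true,0,⟨0,[(20,0),
  (5,0)]⟩,⟨0,[(15,0),(5,0)]⟩⟩,⟨false,0,⟨0,[(28,0)]⟩,⟨1,[(10,1),(27,0),(0,0)]⟩⟩,⟨true,0,⟨0,[(0,0),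
  (13,0),(5,0)]⟩,⟨0,[(2,0),(19,0)]⟩⟩,⟨false,0,⟨0,[]⟩,⟨0,[]⟩⟩,⟨false,0,⟨0,[]⟩,⟨0,[]⟩⟩,[.a ⟨true,0,⟨0,
  [(0,0),(19,0)]⟩,⟨0,[(2,0)]⟩⟩ ⟨true,0,⟨0,[(41,0)]⟩,⟨0,[(35,0)]⟩⟩ ⟨false,1,⟨7,[(18,0),(0,4),(0,7),
  (5,7),(7,3),(3,1)]⟩,⟨0,[(2,0),(12,0)]⟩⟩,.o ⟨false,1,⟨1,[(19,0),(0,1),(5,0),(0,0),(3,0)]⟩,⟨1,[(2,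
  1),(4,0),(18,0),(7,0)]⟩⟩,.o ⟨false,0,⟨0,[(15,0)]⟩,⟨3,[(18,0),(0,0),(6,3),(11,1)]⟩⟩,.o ⟨false,0,⟨0,
  [(23,0)]⟩,⟨0,[(26,0),(11,0)]⟩⟩]⟩)))) (.Q [0,1,1,0,-1,0,0,0,1,0,0,-1] (.p false [0,0,0,1] [] (⟨0,
  [(18,0)]⟩,⟨0,[(17,0)]⟩) .k 0 (⟨0,[]⟩,⟨0,[]⟩) .k .k) (.K ⟨0,[0,0,0,1],0,(-1),(⟨0,[(19,0)]⟩,⟨0,[(18,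
  0)]⟩),.k,(.x 0 ⟨0,[(21,0),(2,0),(5,0)]⟩ ⟨0,[(31,0),(4,0)]⟩),(.x 0 ⟨0,[(31,0)]⟩ ⟨3,[(16,0),(0,0),
  (11,1),(0,3)]⟩),.k,.k,[⟨0,[(19,0)]⟩,⟨0,[(18,0)]⟩,⟨7,[(16,4),(0,0),(1,7),(12,3),(3,1)]⟩,⟨0,[(0,
  0)]⟩]⟩) (.Q [0,0,0,0,0,-1,0,0,0,1,0,-1] (.p false [0,0,0,1] [1] (⟨0,[(19,0)]⟩,⟨0,[(18,0)]⟩) .k 1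
  (⟨0,[]⟩,⟨0,[]⟩) .k .k) (.I [1,-1,-1,-1,1,0,0,0,-1] (.R ⟨1,false,false,false,[1,0,0,-1],[0,0,1],[0,
  0,0,0,0,0,0,0,-1],(⟨0,[(20,0)]⟩,⟨0,[(21,0)]⟩),(⟨0,[(30,0)]⟩,⟨0,[(29,0)]⟩),⟨0,[(1,0)]⟩,.k,.k,(.x
  (-1) ⟨3,[(18,0),(0,0),(11,1),(0,3)]⟩ ⟨0,[(33,0)]⟩),.k,(.x 0 ⟨0,[(7,0),(21,0),(2,0)]⟩ ⟨3,[(18,0),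
  (0,0),(6,3),(3,3),(2,3),(4,1)]⟩),.k,⟨false,1,⟨0,[(0,0),(12,0)]⟩,⟨0,[(3,0),(1,0),(15,0),(15,0)]⟩⟩,
  ⟨true,0,⟨0,[(20,0),(5,0)]⟩,⟨0,[(15,0),(5,0)]⟩⟩,⟨false,1,⟨3,[(18,0),(0,0),(19,1)]⟩,⟨0,[]⟩⟩,⟨false,
  0,⟨1,[(3,1),(13,0),(2,0),(0,0)]⟩,⟨0,[(2,0),(19,0)]⟩⟩,⟨true,0,⟨0,[(37,0)]⟩,⟨0,[(36,0)]⟩⟩,⟨false,0,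
  ⟨1,[(3,1),(13,0),(2,0),(0,0),(15,1)]⟩,⟨0,[(0,0),(20,0),(0,0)]⟩⟩,[.o ⟨false,0,⟨0,[(14,0)]⟩,⟨1,[(25,
  1),(5,0),(7,0)]⟩⟩,.o ⟨false,1,⟨7,[(17,3),(0,0),(0,0),(11,1),(7,3)]⟩,⟨0,[(22,0)]⟩⟩,.o ⟨false,1,⟨1,
  [(21,1),(9,0),(6,0)]⟩,⟨2,[(7,0),(12,2),(2,0),(2,1)]⟩⟩,.a ⟨true,0,⟨0,[(21,0)]⟩,⟨0,[(20,0)]⟩⟩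
  ⟨false,1,⟨0,[(0,0),(36,0)]⟩,⟨0,[(3,0),(17,0),(19,0)]⟩⟩ ⟨true,0,⟨0,[(14,0),(5,0)]⟩,⟨0,[(21,0),(0,
  0)]⟩⟩]⟩) (.R ⟨1,false,false,true,[1,0,0,-1],[0,1],[1,0,0,-1,0,0,0,0,-1],(⟨0,[(20,0)]⟩,⟨0,[(21,
  0)]⟩),(⟨0,[(33,0)]⟩,⟨0,[(32,0)]⟩),⟨0,[(1,0)]⟩,.k,.k,(.x (-1) ⟨3,[(18,0),(0,0),(11,1),(0,3)]⟩ ⟨0,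
  [(33,0)]⟩),(.x (-1) ⟨3,[(18,0),(0,0),(11,1),(0,3)]⟩ ⟨0,[(33,0)]⟩),(.r (-2) ⟨1,[(6,2),(2,0),(10,2),
  (15,0)]⟩ ⟨0,[(0,0),(34,0),(1,0)]⟩),.k,⟨false,2,⟨1,[(2,1),(1,1),(15,1),(1,1),(15,0),(0,0)]⟩,⟨0,[(0,
  0),(36,0)]⟩⟩,⟨true,0,⟨0,[(20,0)]⟩,⟨2,[(7,0),(13,2),(1,0),(2,1)]⟩⟩,⟨false,1,⟨0,[(36,0),(2,0)]⟩,⟨0,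
  [(37,0)]⟩⟩,⟨true,(-1),⟨0,[(0,0),(19,0)]⟩,⟨0,[(6,0)]⟩⟩,⟨true,0,⟨0,[]⟩,⟨0,[(41,0)]⟩⟩,⟨true,(-1),⟨0,
  [(0,0),(19,0),(16,0)]⟩,⟨0,[(2,0),(1,0),(17,0)]⟩⟩,[.o ⟨false,0,⟨11,[(0,3),(17,2),(0,0),(14,3),(2,
  7)]⟩,⟨3,[(4,1),(17,1),(8,0),(7,2)]⟩⟩,.o ⟨false,0,⟨0,[(37,0)]⟩,⟨1,[(31,0),(4,1),(2,0)]⟩⟩,.o ⟨false,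
  1,⟨1,[(21,1),(9,0),(6,0)]⟩,⟨2,[(7,0),(12,2),(2,0),(2,1)]⟩⟩,.a ⟨true,0,⟨0,[(21,0)]⟩,⟨0,[(20,0)]⟩⟩
  ⟨true,1,⟨0,[(6,0),(13,0)]⟩,⟨0,[(0,0)]⟩⟩ ⟨false,0,⟨0,[(20,0),(16,0)]⟩,⟨5,[(4,1),(1,1),(0,1),(2,1),
  (8,0),(1,3),(17,2)]⟩⟩]⟩)) (.I [1,-1,0,0,0,0,0,1,1] (.R ⟨0,false,false,false,[1,0,0,-1],[0,0,1],[0,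
  1,0,0,0,0,0,0,-1],(⟨0,[(20,0)]⟩,⟨0,[(21,0)]⟩),(⟨0,[(30,0)]⟩,⟨0,[(29,0)]⟩),⟨0,[(1,0)]⟩,.k,.k,(.x
  (-1) ⟨3,[(18,0),(0,0),(11,1),(0,3)]⟩ ⟨0,[(33,0)]⟩),.k,.k,.k,⟨false,1,⟨0,[(6,0),(6,0),(6,0)]⟩,⟨0,
  [(0,0)]⟩⟩,⟨true,0,⟨0,[(20,0),(5,0)]⟩,⟨0,[(15,0),(5,0)]⟩⟩,⟨true,0,⟨0,[(41,0)]⟩,⟨0,[]⟩⟩,⟨false,0,⟨1,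
  [(3,1),(13,0),(2,0),(0,0)]⟩,⟨0,[(2,0),(19,0)]⟩⟩,⟨false,0,⟨0,[]⟩,⟨0,[]⟩⟩,⟨false,0,⟨0,[]⟩,⟨0,[]⟩⟩,
  [.o ⟨false,0,⟨0,[(14,0)]⟩,⟨1,[(25,1),(5,0),(7,0)]⟩⟩,.o ⟨false,1,⟨7,[(17,3),(0,0),(0,0),(11,1),(7,
  3)]⟩,⟨0,[(22,0)]⟩⟩,.o ⟨false,1,⟨1,[(21,1),(9,0),(6,0)]⟩,⟨2,[(7,0),(12,2),(2,0),(2,1)]⟩⟩,.a ⟨true,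
  0,⟨0,[(21,0)]⟩,⟨0,[(20,0)]⟩⟩ ⟨false,1,⟨1,[(18,0),(19,0)]⟩,⟨0,[(3,0),(17,0)]⟩⟩ ⟨true,0,⟨0,[(14,0),
  (5,0)]⟩,⟨0,[(21,0),(0,0)]⟩⟩]⟩) (.R ⟨0,false,false,false,[1,0,0,-1],[0,1],[0,1,0,0,0,0,0,0,-1],(⟨0,
  [(20,0)]⟩,⟨0,[(21,0)]⟩),(⟨0,[(33,0)]⟩,⟨0,[(32,0)]⟩),⟨0,[(1,0)]⟩,.k,.k,(.x (-1) ⟨3,[(18,0),(0,0),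
  (11,1),(0,3)]⟩ ⟨0,[(33,0)]⟩),(.x (-1) ⟨3,[(18,0),(0,0),(11,1),(0,3)]⟩ ⟨0,[(33,0)]⟩),.k,.k,⟨false,
  1,⟨1,[(0,0),(4,0),(0,0),(13,0),(17,0)]⟩,⟨0,[(3,0),(17,0),(15,0)]⟩⟩,⟨true,0,⟨0,[(20,0)]⟩,⟨2,[(7,0),
  (13,2),(1,0),(2,1)]⟩⟩,⟨true,0,⟨0,[(41,0)]⟩,⟨0,[]⟩⟩,⟨false,0,⟨0,[(3,0),(16,0),(0,0),(15,0)]⟩,⟨0,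
  [(6,0)]⟩⟩,⟨false,0,⟨0,[]⟩,⟨0,[]⟩⟩,⟨false,0,⟨0,[]⟩,⟨0,[]⟩⟩,[.o ⟨false,0,⟨0,[(37,0)]⟩,⟨1,[(31,0),(4,
  1),(2,0)]⟩⟩,.o ⟨false,1,⟨3,[(18,0),(0,0),(17,3),(1,1)]⟩,⟨3,[(4,1),(2,0),(14,1),(3,0),(7,0)]⟩⟩,.o
  ⟨false,1,⟨1,[(21,1),(9,0),(6,0)]⟩,⟨2,[(7,0),(12,2),(2,0),(2,1)]⟩⟩,.a ⟨true,0,⟨0,[(21,0)]⟩,⟨0,[(20,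
  0)]⟩⟩ ⟨false,1,⟨1,[(18,0),(19,0)]⟩,⟨0,[(3,0),(17,0)]⟩⟩ ⟨true,0,⟨0,[(20,0),(16,0)]⟩,⟨3,[(4,1),(2,
  0),(13,3),(0,1),(3,0),(7,0)]⟩⟩]⟩)))))) (.Q [0,1,-1,0,0,0,0,0,-1,0,0,1] (.p true [0,0,0,1] [] (⟨0,
  [(16,0)]⟩,⟨0,[(15,0)]⟩) .k 0 (⟨0,[]⟩,⟨0,[]⟩) .k .k) (.Q [0,1,1,0,0,0,0,0,1,0,0,-1] (.p false [0,0,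
  0,1] [] (⟨0,[(17,0)]⟩,⟨0,[(16,0)]⟩) .k 0 (⟨0,[]⟩,⟨0,[]⟩) .k .k) (.K ⟨0,[0,0,0,1],0,0,(⟨0,[(18,
  0)]⟩,⟨0,[(17,0)]⟩),.k,(.r (-1) ⟨0,[(6,0),(26,0)]⟩ ⟨5,[(1,5),(0,5),(1,1),(9,2),(2,5),(2,4),(2,
  0)]⟩),(.x 0 ⟨0,[(30,0)]⟩ ⟨3,[(15,0),(0,0),(11,1),(0,3)]⟩),.k,.k,[⟨0,[(18,0)]⟩,⟨0,[(17,0)]⟩,⟨0,[(1,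
  0)]⟩,⟨0,[(0,0)]⟩]⟩) (.Q [0,0,0,0,0,-1,0,0,0,1,0,-1] (.p false [0,0,0,1] [1] (⟨0,[(18,0)]⟩,⟨0,[(17,
  0)]⟩) .k 1 (⟨0,[]⟩,⟨0,[]⟩) .k .k) (.Q [0,0,-1,-2,0,0,0,0,-1,-1,0,1] (.p true [0,0,0,1] [1] (⟨0,
  [(19,0)]⟩,⟨0,[(18,0)]⟩) .k 1 (⟨0,[]⟩,⟨0,[]⟩) .k .k) (.I [0,1,1,1,0,0,0,0,1] (.R ⟨1,false,false,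
  true,[1,0,0,-1],[0,1],[1,0,0,-1,0,0,0,0,-1],(⟨0,[(20,0)]⟩,⟨0,[(21,0)]⟩),(⟨0,[(33,0)]⟩,⟨0,[(32,
  0)]⟩),⟨0,[(2,0)]⟩,.k,.k,(.x (-1) ⟨3,[(18,0),(0,0),(11,1),(0,3)]⟩ ⟨0,[(33,0)]⟩),(.x (-1) ⟨3,[(18,
  0),(0,0),(11,1),(0,3)]⟩ ⟨0,[(33,0)]⟩),(.r (-1) ⟨5,[(1,3),(4,2),(2,0),(10,6),(15,0),(1,1)]⟩ ⟨0,[(0,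
  0),(34,0),(1,0)]⟩),.k,⟨false,1,⟨1,[(1,1),(18,1),(17,0),(0,0)]⟩,⟨0,[(0,0),(36,0)]⟩⟩,⟨true,0,⟨0,
  [(20,0)]⟩,⟨2,[(7,0),(13,2),(1,0),(2,1)]⟩⟩,⟨false,1,⟨0,[(36,0),(2,0)]⟩,⟨0,[(37,0)]⟩⟩,⟨true,0,⟨0,
  [(0,0),(19,0)]⟩,⟨9,[(1,5),(1,2),(0,0),(2,1),(5,1),(0,1)]⟩⟩,⟨true,0,⟨0,[]⟩,⟨0,[(41,0)]⟩⟩,⟨true,0,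
  ⟨0,[(0,0),(19,0),(16,0)]⟩,⟨0,[(1,0)]⟩⟩,[.o ⟨false,0,⟨3,[(13,0),(10,0),(2,0),(6,0),(2,2)]⟩,⟨7,[(1,
  1),(5,1),(2,1),(1,1),(6,0),(0,1),(10,1),(4,1),(2,4)]⟩⟩,.o ⟨false,0,⟨0,[(37,0)]⟩,⟨1,[(31,0),(4,1),
  (2,0)]⟩⟩,.o ⟨false,1,⟨1,[(4,0),(4,0),(11,0),(9,0)]⟩,⟨2,[(7,0),(12,2),(2,0),(2,1)]⟩⟩,.a ⟨true,0,⟨0,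
  [(21,0)]⟩,⟨0,[(20,0)]⟩⟩ ⟨true,0,⟨9,[(1,5),(1,2),(0,0),(2,1),(5,1),(0,1),(5,9)]⟩,⟨0,[(0,0)]⟩⟩
  ⟨false,0,⟨0,[(20,0),(16,0)]⟩,⟨5,[(1,1),(4,1),(12,1),(1,1),(9,0),(3,3),(3,0)]⟩⟩]⟩) (.R ⟨1,false,
  false,false,[1,0,0,-1],[0,1],[0,1,0,0,0,0,0,0,-1],(⟨0,[(20,0)]⟩,⟨0,[(21,0)]⟩),(⟨0,[(33,0)]⟩,⟨0,
  [(32,0)]⟩),⟨0,[(2,0)]⟩,.k,.k,(.x (-1) ⟨3,[(18,0),(0,0),(11,1),(0,3)]⟩ ⟨0,[(33,0)]⟩),(.x (-1) ⟨3,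
  [(18,0),(0,0),(11,1),(0,3)]⟩ ⟨0,[(33,0)]⟩),(.x 0 ⟨0,[(7,0),(18,0),(5,1)]⟩ ⟨3,[(18,0),(0,0),(13,7),
  (4,1)]⟩),.k,⟨false,0,⟨0,[(0,0),(33,0)]⟩,⟨15,[(5,7),(11,3),(0,0),(0,8),(7,7),(3,1),(5,7),(1,3)]⟩⟩,
  ⟨true,0,⟨0,[(20,0)]⟩,⟨2,[(7,0),(13,2),(1,0),(2,1)]⟩⟩,⟨true,0,⟨0,[(41,0)]⟩,⟨0,[]⟩⟩,⟨false,1,⟨15,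
  [(5,7),(11,3),(0,0),(0,8),(0,15),(6,7),(3,1),(5,7),(1,3)]⟩,⟨9,[(1,5),(1,2),(0,0),(2,1),(5,1),(0,
  1)]⟩⟩,⟨false,0,⟨0,[(37,0)]⟩,⟨0,[(36,0),(2,0)]⟩⟩,⟨false,1,⟨15,[(5,7),(11,3),(0,0),(0,8),(0,15),(6,
  7),(3,1),(5,23),(1,3)]⟩,⟨0,[(1,0)]⟩⟩,[.o ⟨false,0,⟨0,[(37,0)]⟩,⟨1,[(31,0),(4,1),(2,0)]⟩⟩,.o
  ⟨false,1,⟨3,[(18,0),(0,0),(17,3),(1,1)]⟩,⟨0,[(12,0),(9,0)]⟩⟩,.o ⟨false,1,⟨1,[(4,0),(4,0),(11,0),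
  (9,0)]⟩,⟨2,[(7,0),(12,2),(2,0),(2,1)]⟩⟩,.a ⟨true,0,⟨0,[(21,0)]⟩,⟨0,[(20,0)]⟩⟩ ⟨false,0,⟨5,[(0,3),
  (3,1),(2,0),(5,0),(6,1),(3,0),(12,2)]⟩,⟨1,[(19,0),(6,0),(0,0),(11,0)]⟩⟩ ⟨true,0,⟨0,[(20,0),(16,
  0)]⟩,⟨0,[(12,0),(8,0),(0,0)]⟩⟩]⟩)) (.R ⟨1,true,false,true,[1,0,0,-1],[0,1],[0,0,0,0,0,0,0,0,-1],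
  (⟨0,[(19,0)]⟩,⟨0,[(20,0)]⟩),(⟨0,[(32,0)]⟩,⟨0,[(31,0)]⟩),⟨0,[(1,0)]⟩,.k,.k,(.x (-1) ⟨3,[(17,0),(0,
  0),(11,1),(0,3)]⟩ ⟨0,[(32,0)]⟩),(.x (-1) ⟨3,[(17,0),(0,0),(11,1),(0,3)]⟩ ⟨0,[(32,0)]⟩),(.r (-1)
  ⟨1,[(2,1),(2,0),(2,0),(2,1),(7,2),(1,1),(13,0)]⟩ ⟨2,[(0,2),(5,0),(13,2),(1,0),(2,1)]⟩),.k,⟨false,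
  1,⟨2,[(2,2),(2,0),(0,0),(1,0),(0,0),(1,1),(7,3),(1,0),(15,0)]⟩,⟨0,[(0,0),(10,0),(8,0),(0,0)]⟩⟩,
  ⟨true,0,⟨0,[(19,0)]⟩,⟨2,[(6,0),(13,2),(1,0),(2,1)]⟩⟩,⟨false,1,⟨3,[(17,0),(0,0),(19,1)]⟩,⟨0,[]⟩⟩,
  ⟨true,0,⟨0,[(0,0),(34,0)]⟩,⟨0,[(2,0),(8,0),(9,0)]⟩⟩,⟨true,0,⟨0,[(36,0)]⟩,⟨0,[(35,0)]⟩⟩,⟨false,0,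
  ⟨0,[(0,0)]⟩,⟨0,[(2,0),(8,0),(9,0),(13,0),(2,0)]⟩⟩,[]⟩)) (.R ⟨0,false,false,false,[1,0,0,-1],[0,0,
  1],[0,1,0,0,0,0,0,0,-1],(⟨0,[(18,0)]⟩,⟨0,[(19,0)]⟩),(⟨0,[(28,0)]⟩,⟨0,[(27,0)]⟩),⟨0,[(0,0)]⟩,.k,.k,
  (.x (-1) ⟨3,[(16,0),(0,0),(11,1),(0,3)]⟩ ⟨0,[(31,0)]⟩),.k,.k,.k,⟨false,0,⟨0,[(1,0),(8,0),(0,0),(6,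
  0),(1,0)]⟩,⟨1,[(17,0),(8,1),(10,0)]⟩⟩,⟨true,0,⟨0,[(18,0),(5,0)]⟩,⟨0,[(13,0),(5,0)]⟩⟩,⟨true,0,⟨0,
  [(39,0)]⟩,⟨0,[]⟩⟩,⟨false,1,⟨3,[(15,1),(1,1),(0,3),(5,0),(0,0),(3,0),(3,1),(3,0)]⟩,⟨0,[(1,0),(18,
  0)]⟩⟩,⟨false,0,⟨0,[]⟩,⟨0,[]⟩⟩,⟨false,0,⟨0,[]⟩,⟨0,[]⟩⟩,[.o ⟨false,0,⟨0,[(12,0)]⟩,⟨1,[(23,1),(5,0),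
  (7,0)]⟩⟩,.o ⟨false,1,⟨7,[(15,3),(0,0),(0,0),(11,1),(7,3)]⟩,⟨0,[(20,0)]⟩⟩,.o ⟨false,1,⟨1,[(2,0),(4,
  0),(11,0),(9,0)]⟩,⟨2,[(5,0),(12,2),(2,0),(2,1)]⟩⟩,.a ⟨true,0,⟨0,[(19,0)]⟩,⟨0,[(18,0)]⟩⟩ ⟨false,0,
  ⟨1,[(1,1),(3,0),(12,1),(5,0),(7,0)]⟩,⟨1,[(17,0),(6,0),(0,0),(11,0)]⟩⟩ ⟨true,0,⟨0,[(12,0),(5,0)]⟩,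
  ⟨0,[(19,0),(0,0)]⟩⟩]⟩))) (.I [1,1,1,0,-1,0,0,0,1] (.Q [0,1,1,0,-1,0,0,0,1,0,0,-1] (.p false [0,0,
  0,1] [] (⟨0,[(18,0)]⟩,⟨0,[(17,0)]⟩) .k 0 (⟨0,[]⟩,⟨0,[]⟩) .k .k) (.K ⟨0,[0,0,0,1],0,(-1),(⟨0,[(19,
  0)]⟩,⟨0,[(18,0)]⟩),.k,(.x 0 ⟨0,[(21,0),(2,0),(5,0)]⟩ ⟨0,[(31,0),(4,0)]⟩),(.x 0 ⟨0,[(31,0)]⟩ ⟨3,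
  [(16,0),(0,0),(11,1),(0,3)]⟩),.k,.k,[⟨0,[(19,0)]⟩,⟨0,[(18,0)]⟩,⟨7,[(16,4),(0,0),(1,7),(12,3),(3,
  1)]⟩,⟨0,[(0,0)]⟩]⟩) (.R ⟨0,false,false,true,[1,0,-1],[0,0,0,1],[0,1],(⟨0,[(27,0)]⟩,⟨0,[(28,0)]⟩),
  (⟨0,[(19,0)]⟩,⟨0,[(18,0)]⟩),⟨0,[(6,0)]⟩,.k,.k,.k,.k,.k,.k,⟨false,1,⟨1,[(16,0),(19,0)]⟩,⟨1,[(1,0),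
  (5,0)]⟩⟩,⟨true,0,⟨0,[(18,0),(5,0)]⟩,⟨0,[(13,0),(5,0)]⟩⟩,⟨false,0,⟨0,[(26,0)]⟩,⟨1,[(8,1),(27,0),(0,
  0)]⟩⟩,⟨true,(-1),⟨0,[(1,0),(10,0),(5,0)]⟩,⟨0,[(0,0),(19,0)]⟩⟩,⟨false,0,⟨0,[]⟩,⟨0,[]⟩⟩,⟨false,0,⟨0,
  []⟩,⟨0,[]⟩⟩,[.a ⟨true,(-1),⟨0,[(1,0),(16,0)]⟩,⟨0,[(0,0)]⟩⟩ ⟨true,0,⟨0,[(39,0)]⟩,⟨0,[(33,0)]⟩⟩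
  ⟨false,0,⟨0,[(1,0),(16,0),(5,0),(11,0)]⟩,⟨0,[(0,0),(12,0)]⟩⟩,.o ⟨false,0,⟨0,[(2,0),(36,0)]⟩,⟨0,
  [(4,0),(30,0)]⟩⟩,.o ⟨false,0,⟨0,[(13,0)]⟩,⟨3,[(16,0),(0,0),(6,3),(11,1)]⟩⟩,.o ⟨false,0,⟨0,[(21,
  0)]⟩,⟨0,[(24,0),(11,0)]⟩⟩]⟩)) (.Q [0,0,0,0,0,-1,0,0,0,1,0,-1] (.p false [0,0,0,1] [1] (⟨0,[(18,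
  0)]⟩,⟨0,[(17,0)]⟩) .k 1 (⟨0,[]⟩,⟨0,[]⟩) .k .k) (.Q [0,-1,-1,-2,1,0,1,1,-1,0,-1,1] (.p false [0,0,
  1] [0,0,0,1] (⟨0,[(28,0)]⟩,⟨0,[(27,0)]⟩) .k 2 (⟨0,[(19,0)]⟩,⟨0,[(18,0)]⟩) .k (.x (-1) ⟨0,[(24,0),
  (3,0),(7,0)]⟩ ⟨0,[(21,0),(5,0)]⟩)) (.I [0,1,-2,-1,1,0,0,0,-1] (.R ⟨1,false,false,false,[1,0,0,-1],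
  [0,1],[0,1,0,0,0,0,0,0,-1],(⟨0,[(20,0)]⟩,⟨0,[(21,0)]⟩),(⟨0,[(33,0)]⟩,⟨0,[(32,0)]⟩),⟨0,[(2,0)]⟩,.k,
  .k,(.x (-1) ⟨3,[(18,0),(0,0),(11,1),(0,3)]⟩ ⟨0,[(33,0)]⟩),(.x (-1) ⟨3,[(18,0),(0,0),(11,1),(0,
  3)]⟩ ⟨0,[(33,0)]⟩),(.x 0 ⟨0,[(7,0),(18,0),(5,1)]⟩ ⟨3,[(18,0),(0,0),(13,7),(4,1)]⟩),.k,⟨false,1,⟨0,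
  [(0,0)]⟩,⟨0,[(4,0),(16,0),(15,0)]⟩⟩,⟨true,0,⟨0,[(20,0)]⟩,⟨2,[(7,0),(13,2),(1,0),(2,1)]⟩⟩,⟨true,0,
  ⟨0,[(41,0)]⟩,⟨0,[]⟩⟩,⟨false,0,⟨0,[(4,0),(15,0),(0,0),(15,0)]⟩,⟨0,[(6,0)]⟩⟩,⟨false,0,⟨0,[(37,0)]⟩,
  ⟨0,[(36,0),(2,0)]⟩⟩,⟨false,0,⟨0,[(4,0),(15,0),(0,0),(15,1)]⟩,⟨0,[(1,0),(20,0)]⟩⟩,[.o ⟨false,0,⟨0,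
  [(37,0)]⟩,⟨1,[(31,0),(4,1),(2,0)]⟩⟩,.o ⟨false,1,⟨3,[(18,0),(0,0),(17,3),(1,1)]⟩,⟨0,[(12,0),(9,
  0)]⟩⟩,.o ⟨false,1,⟨1,[(21,1),(9,0),(6,0)]⟩,⟨2,[(7,0),(12,2),(2,0),(2,1)]⟩⟩,.a ⟨true,0,⟨0,[(21,
  0)]⟩,⟨0,[(20,0)]⟩⟩ ⟨false,1,⟨1,[(18,0),(19,0)]⟩,⟨0,[(4,0),(16,0)]⟩⟩ ⟨true,0,⟨0,[(20,0),(16,0)]⟩,
  ⟨0,[(12,0),(8,0),(0,0)]⟩⟩]⟩) (.R ⟨1,false,false,true,[1,0,0,-1],[0,1],[1,0,0,-1,0,0,0,0,-1],(⟨0,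
  [(20,0)]⟩,⟨0,[(21,0)]⟩),(⟨0,[(33,0)]⟩,⟨0,[(32,0)]⟩),⟨0,[(2,0)]⟩,.k,.k,(.x (-1) ⟨3,[(18,0),(0,0),
  (11,1),(0,3)]⟩ ⟨0,[(33,0)]⟩),(.x (-1) ⟨3,[(18,0),(0,0),(11,1),(0,3)]⟩ ⟨0,[(33,0)]⟩),(.r (-2) ⟨1,
  [(6,2),(2,0),(10,2),(15,0)]⟩ ⟨3,[(0,3),(12,0),(10,0),(2,0),(6,0),(2,2)]⟩),.k,⟨false,2,⟨1,[(1,1),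
  (18,1),(1,1),(15,0),(0,0)]⟩,⟨0,[(0,0),(33,0),(2,0)]⟩⟩,⟨true,0,⟨0,[(20,0)]⟩,⟨2,[(7,0),(13,2),(1,0),
  (2,1)]⟩⟩,⟨false,1,⟨0,[(36,0),(2,0)]⟩,⟨0,[(37,0)]⟩⟩,⟨true,(-1),⟨0,[(0,0),(19,0),(13,0)]⟩,⟨0,[(6,
  0)]⟩⟩,⟨true,0,⟨0,[]⟩,⟨0,[(41,0)]⟩⟩,⟨true,(-1),⟨0,[(0,0),(19,0),(13,0),(2,0)]⟩,⟨0,[(1,0),(20,0)]⟩⟩,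
  [.o ⟨false,0,⟨3,[(13,0),(10,0),(2,0),(6,0),(2,2)]⟩,⟨0,[(4,0),(1,0)]⟩⟩,.o ⟨false,0,⟨0,[(37,0)]⟩,⟨1,
  [(31,0),(4,1),(2,0)]⟩⟩,.o ⟨false,1,⟨1,[(21,1),(9,0),(6,0)]⟩,⟨2,[(7,0),(12,2),(2,0),(2,1)]⟩⟩,.a
  ⟨true,0,⟨0,[(21,0)]⟩,⟨0,[(20,0)]⟩⟩ ⟨true,1,⟨0,[(6,0),(13,0)]⟩,⟨0,[(0,0),(33,0)]⟩⟩ ⟨false,0,⟨0,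
  [(20,0),(16,0)]⟩,⟨3,[(1,1),(5,1),(2,1),(8,0),(1,1),(17,0)]⟩⟩]⟩)) (.R ⟨1,false,false,true,[1,0,0,
  -1],[1,1,-1],[0,0,1],(⟨0,[(19,0)]⟩,⟨0,[(20,0)]⟩),(⟨0,[(28,0),(3,0)]⟩,⟨0,[(10,0)]⟩),⟨0,[(1,0)]⟩,.k,
  .k,(.x (-1) ⟨3,[(17,0),(0,0),(11,1),(0,3)]⟩ ⟨0,[(32,0)]⟩),(.r (-1) ⟨1,[(15,1),(1,0),(19,0)]⟩ ⟨1,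
  [(0,0),(7,0),(0,0),(10,0),(4,0)]⟩),(.r (-2) ⟨3,[(5,3),(9,3),(1,0),(0,0),(0,3),(17,1)]⟩ ⟨0,[(0,0),
  (3,0),(6,0),(8,0)]⟩),.k,⟨false,1,⟨1,[(15,1),(21,0),(0,0)]⟩,⟨0,[(12,0)]⟩⟩,⟨true,0,⟨0,[(14,0),(4,
  0)]⟩,⟨0,[(20,0),(4,0)]⟩⟩,⟨false,0,⟨0,[(3,0),(16,0)]⟩,⟨1,[(17,0),(19,0)]⟩⟩,⟨false,0,⟨7,[(0,3),(2,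
  3),(13,0),(0,0),(5,3),(13,1)]⟩,⟨0,[(2,0),(8,0),(8,0)]⟩⟩,⟨false,0,⟨13,[(0,5),(2,6),(0,1),(1,1),(1,
  0),(7,3),(3,12),(17,4)]⟩,⟨0,[(5,0),(13,0)]⟩⟩,⟨true,(-1),⟨0,[(0,0)]⟩,⟨0,[(5,0),(5,0),(7,0),(0,
  0)]⟩⟩,[.o ⟨false,0,⟨0,[(0,0),(4,0)]⟩,⟨3,[(11,3),(5,0),(0,0),(19,1)]⟩⟩,.o ⟨false,1,⟨3,[(0,3),(4,3),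
  (11,0),(0,0),(19,1)]⟩,⟨0,[(11,0)]⟩⟩,.o ⟨false,1,⟨1,[(20,1),(9,0),(6,0)]⟩,⟨2,[(6,0),(12,2),(2,0),
  (2,1)]⟩⟩,.a ⟨true,0,⟨0,[(20,0)]⟩,⟨0,[(19,0)]⟩⟩ ⟨false,1,⟨3,[(17,0),(0,0),(19,1)]⟩,⟨0,[]⟩⟩ ⟨true,0,
  ⟨3,[(0,1),(16,0),(1,1),(1,1),(15,0)]⟩,⟨0,[(11,0),(8,0)]⟩⟩]⟩)) (.I [1,1,0,1,0,0,0,-1,-1] (.Q [0,-1,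
  0,2,0,0,0,0,0,1] (.pp false [-1,1]) (.I [0,0,-2,-1,1,0,0,1,-1] (.R ⟨0,false,false,true,[1,0,0,-1],
  [1,1,-1],[0,1,0,0,0,0,0,0,-1],(⟨0,[(21,0)]⟩,⟨0,[(22,0)]⟩),(⟨0,[(30,0),(3,0)]⟩,⟨0,[(12,0)]⟩),⟨0,
  [(3,0)]⟩,.k,.k,(.x (-1) ⟨3,[(19,0),(0,0),(11,1),(0,3)]⟩ ⟨0,[(34,0)]⟩),(.r (-1) ⟨7,[(0,3),(16,3),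
  (1,2),(0,0)]⟩ ⟨0,[(5,0),(8,0),(7,0)]⟩),.k,.k,⟨false,1,⟨0,[(0,0)]⟩,⟨0,[(5,0),(8,0),(7,0)]⟩⟩,⟨true,
  0,⟨0,[(16,0),(4,0)]⟩,⟨0,[(22,0),(4,0)]⟩⟩,⟨true,0,⟨0,[(42,0)]⟩,⟨0,[]⟩⟩,⟨false,0,⟨4,[(1,1),(3,4),(8,
  0),(8,1),(2,1),(1,0),(6,0)]⟩,⟨0,[(4,0),(8,0),(8,0)]⟩⟩,⟨false,0,⟨0,[]⟩,⟨0,[]⟩⟩,⟨false,0,⟨0,[]⟩,⟨0,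
  []⟩⟩,[.o ⟨false,0,⟨6,[(1,1),(6,1),(5,2),(8,3),(0,0),(10,0)]⟩,⟨3,[(13,3),(5,0),(0,0),(19,1)]⟩⟩,.o
  ⟨false,1,⟨3,[(1,1),(24,3),(5,2),(7,0)]⟩,⟨0,[(13,0)]⟩⟩,.o ⟨false,1,⟨1,[(22,1),(9,0),(6,0)]⟩,⟨2,[(8,
  0),(12,2),(2,0),(2,1)]⟩⟩,.a ⟨true,0,⟨0,[(22,0)]⟩,⟨0,[(21,0)]⟩⟩ ⟨false,1,⟨1,[(19,0),(19,0)]⟩,⟨0,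
  [(5,0),(16,0)]⟩⟩ ⟨true,0,⟨12,[(1,4),(0,2),(2,2),(2,1),(12,9),(1,9),(0,0),(10,3)]⟩,⟨0,[(13,0),(8,
  0)]⟩⟩]⟩) (.R ⟨0,false,false,false,[1,0,0,-1],[0,0,1],[1],(⟨0,[(21,0)]⟩,⟨0,[(22,0)]⟩),(⟨0,[(31,
  0)]⟩,⟨0,[(30,0)]⟩),⟨0,[(3,0)]⟩,.k,.k,(.x (-1) ⟨3,[(19,0),(0,0),(11,1),(0,3)]⟩ ⟨0,[(34,0)]⟩),.k,.k,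
  .k,⟨false,1,⟨0,[(11,0),(27,0)]⟩,⟨0,[(29,0)]⟩⟩,⟨true,0,⟨0,[(21,0),(5,0)]⟩,⟨0,[(16,0),(5,0)]⟩⟩,
  ⟨true,0,⟨0,[(0,0),(16,0),(21,0)]⟩,⟨0,[(2,0),(5,0),(3,1),(0,0),(16,1),(3,1)]⟩⟩,⟨false,0,⟨1,[(5,1),
  (12,0),(2,0),(0,0)]⟩,⟨0,[(4,0),(17,0),(0,0)]⟩⟩,⟨false,0,⟨0,[]⟩,⟨0,[]⟩⟩,⟨false,0,⟨0,[]⟩,⟨0,[]⟩⟩,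
  [.o ⟨false,0,⟨0,[(15,0)]⟩,⟨1,[(26,1),(5,0),(7,0)]⟩⟩,.o ⟨false,1,⟨7,[(18,3),(0,0),(0,0),(11,1),(7,
  3)]⟩,⟨0,[(23,0)]⟩⟩,.o ⟨false,1,⟨1,[(22,1),(9,0),(6,0)]⟩,⟨2,[(8,0),(12,2),(2,0),(2,1)]⟩⟩,.a ⟨true,
  0,⟨0,[(22,0)]⟩,⟨0,[(21,0)]⟩⟩ ⟨false,1,⟨1,[(39,0),(0,0)]⟩,⟨1,[(27,0),(0,0)]⟩⟩ ⟨true,0,⟨0,[(15,0),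
  (5,0)]⟩,⟨0,[(22,0),(0,0)]⟩⟩]⟩)) (.I [1,0,2,1,-1,0,0,0,1] (.R ⟨0,false,false,false,[1,0,0,-1],[0,0,
  1],[1,0,0,0,0,0,0,0,-1],(⟨0,[(21,0)]⟩,⟨0,[(22,0)]⟩),(⟨0,[(31,0)]⟩,⟨0,[(30,0)]⟩),⟨0,[(3,0)]⟩,.k,.k,
  (.x (-1) ⟨3,[(19,0),(0,0),(11,1),(0,3)]⟩ ⟨0,[(34,0)]⟩),.k,.k,.k,⟨false,1,⟨1,[(1,0),(0,0),(1,0),(1,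
  0),(14,0),(0,0),(16,0)]⟩,⟨0,[(0,0),(16,0),(21,0)]⟩⟩,⟨true,0,⟨0,[(21,0),(5,0)]⟩,⟨0,[(16,0),(5,
  0)]⟩⟩,⟨true,0,⟨0,[]⟩,⟨0,[(42,0)]⟩⟩,⟨false,0,⟨1,[(5,1),(12,0),(2,0),(0,0)]⟩,⟨0,[(4,0),(17,0),(0,
  0)]⟩⟩,⟨false,0,⟨0,[]⟩,⟨0,[]⟩⟩,⟨false,0,⟨0,[]⟩,⟨0,[]⟩⟩,[.o ⟨false,0,⟨0,[(15,0)]⟩,⟨1,[(26,1),(5,0),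
  (7,0)]⟩⟩,.o ⟨false,1,⟨7,[(18,3),(0,0),(0,0),(11,1),(7,3)]⟩,⟨0,[(23,0)]⟩⟩,.o ⟨false,1,⟨1,[(22,1),
  (9,0),(6,0)]⟩,⟨11,[(0,2),(0,1),(0,0),(2,3),(2,2),(10,2),(1,7),(3,0),(1,1)]⟩⟩,.a ⟨true,0,⟨0,[(22,
  0)]⟩,⟨0,[(21,0)]⟩⟩ ⟨false,1,⟨0,[(4,0)]⟩,⟨2,[(0,0),(10,0),(5,0),(2,0)]⟩⟩ ⟨true,0,⟨0,[(15,0),(5,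
  0)]⟩,⟨0,[(22,0),(0,0)]⟩⟩]⟩) (.R ⟨0,false,false,false,[1,0,0,-1],[0,1],[1,0,0,0,0,0,0,0,-1],(⟨0,
  [(21,0)]⟩,⟨0,[(22,0)]⟩),(⟨0,[(34,0)]⟩,⟨0,[(33,0)]⟩),⟨0,[(3,0)]⟩,.k,.k,(.x (-1) ⟨3,[(19,0),(0,0),
  (11,1),(0,3)]⟩ ⟨0,[(34,0)]⟩),(.x (-1) ⟨3,[(19,0),(0,0),(11,1),(0,3)]⟩ ⟨0,[(34,0)]⟩),.k,.k,⟨false,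
  1,⟨0,[(0,0)]⟩,⟨3,[(5,3),(8,0),(7,3),(2,0),(2,0),(6,0),(2,2)]⟩⟩,⟨true,0,⟨0,[(21,0)]⟩,⟨2,[(8,0),(13,
  2),(1,0),(2,1)]⟩⟩,⟨true,0,⟨0,[]⟩,⟨0,[(42,0)]⟩⟩,⟨false,0,⟨0,[(5,0),(15,0),(0,0),(15,0)]⟩,⟨0,[(7,
  0)]⟩⟩,⟨false,0,⟨0,[]⟩,⟨0,[]⟩⟩,⟨false,0,⟨0,[]⟩,⟨0,[]⟩⟩,[.o ⟨false,0,⟨0,[(38,0)]⟩,⟨3,[(1,1),(17,0),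
  (0,0),(11,0),(7,0)]⟩⟩,.o ⟨false,1,⟨3,[(19,0),(0,0),(17,3),(1,1)]⟩,⟨3,[(1,1),(6,0),(18,0),(7,0)]⟩⟩,
  .o ⟨false,1,⟨1,[(22,1),(9,0),(6,0)]⟩,⟨2,[(8,0),(12,2),(2,0),(2,1)]⟩⟩,.a ⟨true,0,⟨0,[(22,0)]⟩,⟨0,
  [(21,0)]⟩⟩ ⟨false,1,⟨0,[(4,0)]⟩,⟨0,[(5,0),(16,0),(19,0)]⟩⟩ ⟨true,0,⟨0,[(21,0),(16,0)]⟩,⟨3,[(1,1),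
  (6,0),(13,3),(4,0),(7,0)]⟩⟩]⟩))) (.R ⟨0,false,false,false,[1,0,0,-1],[0,0,1],[0,1,0,0,0,0,0,0,-1],
  (⟨0,[(19,0)]⟩,⟨0,[(20,0)]⟩),(⟨0,[(29,0)]⟩,⟨0,[(28,0)]⟩),⟨0,[(1,0)]⟩,.k,.k,(.x (-1) ⟨3,[(17,0),(0,
  0),(11,1),(0,3)]⟩ ⟨0,[(32,0)]⟩),.k,.k,.k,⟨false,1,⟨0,[(5,0),(6,0),(6,0)]⟩,⟨0,[(0,0),(35,0)]⟩⟩,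
  ⟨true,0,⟨0,[(19,0),(5,0)]⟩,⟨0,[(14,0),(5,0)]⟩⟩,⟨true,0,⟨0,[(40,0)]⟩,⟨0,[]⟩⟩,⟨false,0,⟨1,[(3,1),
  (12,0),(2,0),(0,0)]⟩,⟨0,[(2,0),(17,0),(0,0)]⟩⟩,⟨false,0,⟨0,[]⟩,⟨0,[]⟩⟩,⟨false,0,⟨0,[]⟩,⟨0,[]⟩⟩,
  [.o ⟨false,0,⟨0,[(13,0)]⟩,⟨1,[(24,1),(5,0),(7,0)]⟩⟩,.o ⟨false,1,⟨7,[(16,3),(0,0),(0,0),(11,1),(7,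
  3)]⟩,⟨0,[(21,0)]⟩⟩,.o ⟨false,1,⟨1,[(20,1),(9,0),(6,0)]⟩,⟨2,[(6,0),(12,2),(2,0),(2,1)]⟩⟩,.a ⟨true,
  0,⟨0,[(20,0)]⟩,⟨0,[(19,0)]⟩⟩ ⟨false,1,⟨1,[(17,0),(19,0)]⟩,⟨0,[(3,0),(16,0)]⟩⟩ ⟨true,0,⟨0,[(13,0),
  (5,0)]⟩,⟨0,[(20,0),(0,0)]⟩⟩]⟩)))))) (.K ⟨0,[0,0,0,1],0,(-1),(⟨0,[(15,0)]⟩,⟨0,[(14,0)]⟩),.k,(.x 0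
  ⟨0,[(17,0),(2,0),(5,0)]⟩ ⟨0,[(27,0),(4,0)]⟩),(.x 0 ⟨0,[(27,0)]⟩ ⟨3,[(12,0),(0,0),(11,1),(0,3)]⟩),
  .k,.k,[⟨0,[(15,0)]⟩,⟨0,[(14,0)]⟩,⟨7,[(12,4),(0,0),(1,7),(12,3),(3,1)]⟩,⟨0,[(0,0),(5,0),(9,
  0)]⟩]⟩)))

theorem ok6 : chk (cU (-1) true 3) t6 l8 = true := by decide +kernel

noncomputable def t7 : Tre :=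
  (.I [1,0,-1,-1,1,0,0,0,-1] (.Q [0,1,1,0,-1,0,0,0,1,0,0,-1] (.p false [0,0,0,1] [] (⟨0,[(14,0)]⟩,
  ⟨0,[(13,0)]⟩) .k 0 (⟨0,[]⟩,⟨0,[]⟩) .k .k) (.K ⟨0,[0,0,0,1],0,(-1),(⟨0,[(15,0)]⟩,⟨0,[(14,0)]⟩),.k,
  (.x 0 ⟨1,[(2,0),(2,0),(11,0),(2,1),(0,0)]⟩ ⟨0,[(27,0),(4,0)]⟩),(.x 0 ⟨0,[(27,0)]⟩ ⟨3,[(12,0),(0,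
  0),(11,1),(0,3)]⟩),.k,.k,[⟨0,[(15,0)]⟩,⟨0,[(14,0)]⟩,⟨7,[(12,4),(0,0),(1,7),(12,3),(3,1)]⟩,⟨0,[(0,
  0)]⟩]⟩) (.Q [0,0,2,0,-1,0,-1,0,0,0,1] (.p true [0,0,1] [] (⟨0,[(24,0)]⟩,⟨0,[(23,0)]⟩) .k 0 (⟨0,
  []⟩,⟨0,[]⟩) .k .k) (.Q [0,1,0,-1,0,0,-1,-1,0,0,1] (.p true [0,0,1] [] (⟨0,[(25,0)]⟩,⟨0,[(24,0)]⟩)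
  .k 0 (⟨0,[]⟩,⟨0,[]⟩) .k .k) (.K ⟨2,[0,1,1],1,0,(⟨0,[(26,0),(2,0)]⟩,⟨0,[(4,0)]⟩),.k,.k,(.r 1 ⟨0,
  [(1,0),(8,0),(22,1)]⟩ ⟨1,[(0,1),(5,1),(1,1),(25,2),(0,0)]⟩),.k,.k,[⟨0,[(33,0)]⟩,⟨0,[(0,0)]⟩,⟨0,
  [(1,0)]⟩,⟨3,[(14,0),(0,0),(6,3),(11,1)]⟩]⟩) (.I [0,0,1,1,-1,0,0,1] (.R ⟨2,true,false,true,[0,1],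
  [1,0,-1],[0,1,1,1],(⟨0,[]⟩,⟨0,[]⟩),(⟨0,[(26,0)]⟩,⟨0,[(27,0)]⟩),⟨0,[]⟩,.k,.k,.k,.k,.k,.k,⟨true,
  (-1),⟨0,[(0,0)]⟩,⟨1,[(4,0),(1,0),(0,1),(25,0)]⟩⟩,⟨false,0,⟨0,[(12,0)]⟩,⟨1,[(7,1),(6,0),(2,0),(0,
  0),(16,1)]⟩⟩,⟨true,0,⟨0,[(38,0)]⟩,⟨0,[]⟩⟩,⟨false,1,⟨0,[(19,0),(13,0),(2,0)]⟩,⟨0,[(1,0),(15,0),(0,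
  0)]⟩⟩,⟨false,0,⟨0,[(34,0)]⟩,⟨0,[(33,0),(2,0)]⟩⟩,⟨true,0,⟨0,[(19,0)]⟩,⟨1,[(14,0),(2,0),(0,0)]⟩⟩,
  []⟩) (.Q [0,-1,0,2,0,0,0,0,0,1] (.pp false [-1,1]) (.R ⟨2,true,false,true,[0,1],[1,-1],[0,1,1,1],
  (⟨0,[]⟩,⟨0,[]⟩),(⟨0,[(30,0)]⟩,⟨0,[(31,0)]⟩),⟨0,[]⟩,.k,.k,.k,(.r 1 ⟨0,[(2,0),(0,0),(7,0)]⟩ ⟨2,[(1,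
  1),(3,1),(8,1),(2,0),(18,0)]⟩),.k,.k,⟨true,(-1),⟨0,[(2,0),(0,0),(7,0)]⟩,⟨0,[(1,0),(12,0)]⟩⟩,
  ⟨false,0,⟨0,[(13,0),(10,0)]⟩,⟨0,[(18,0),(0,0),(16,0)]⟩⟩,⟨true,0,⟨0,[(39,0)]⟩,⟨0,[]⟩⟩,⟨false,1,⟨1,
  [(1,1),(1,0),(6,0),(3,0),(14,0)]⟩,⟨0,[(0,0)]⟩⟩,⟨false,0,⟨0,[(35,0)]⟩,⟨0,[(34,0),(2,0)]⟩⟩,⟨true,0,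
  ⟨0,[(10,0),(9,0)]⟩,⟨3,[(0,1),(14,0),(2,0),(0,0),(3,1)]⟩⟩,[]⟩) (.Q [0,1,-1,0,0,0,0,0,-1,0,0,1] (.p
  true [0,0,0,1] [] (⟨0,[(19,0)]⟩,⟨0,[(18,0)]⟩) .k 0 (⟨0,[]⟩,⟨0,[]⟩) .k .k) (.K ⟨0,[0,0,0,1],0,0,
  (⟨0,[(20,0)]⟩,⟨0,[(19,0)]⟩),.k,(.r (-1) ⟨0,[(8,0),(26,0)]⟩ ⟨1,[(3,0),(0,0),(7,0),(4,0)]⟩),(.x 0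
  ⟨0,[(32,0)]⟩ ⟨3,[(17,0),(0,0),(11,1),(0,3)]⟩),.k,.k,[⟨0,[(20,0)]⟩,⟨0,[(19,0)]⟩,⟨0,[(0,0)]⟩,⟨9,[(1,
  5),(1,6),(0,4),(7,4),(5,4),(0,9),(1,3),(1,1)]⟩]⟩) (.Q [0,0,0,0,0,-1,0,0,0,1,0,-1] (.p false [0,0,
  0,1] [1] (⟨0,[(20,0)]⟩,⟨0,[(19,0)]⟩) .k 1 (⟨0,[]⟩,⟨0,[]⟩) .k .k) (.I [0,0,0,0,0,0,0,0,1] (.R ⟨1,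
  false,false,true,[1,0,0,-1],[1,-1],[1,1,0,-1,0,0,0,0,-1],(⟨0,[(21,0)]⟩,⟨0,[(22,0)]⟩),(⟨0,[(33,
  0)]⟩,⟨0,[(34,0)]⟩),⟨0,[(1,0)]⟩,.k,.k,(.x (-1) ⟨3,[(19,0),(0,0),(11,1),(0,3)]⟩ ⟨0,[(34,0)]⟩),(.r 0
  ⟨1,[(5,0),(0,0),(7,0),(4,0)]⟩ ⟨0,[(10,0),(26,0)]⟩),.k,.k,⟨true,0,⟨0,[(3,0),(1,0),(0,0),(0,0),(6,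
  0),(6,0)]⟩,⟨0,[(0,0)]⟩⟩,⟨false,0,⟨13,[(2,1),(0,1),(1,3),(0,3),(12,0),(1,11),(1,3),(3,3),(4,2)]⟩,
  ⟨0,[(22,0),(16,0)]⟩⟩,⟨true,0,⟨0,[(37,0)]⟩,⟨0,[(38,0)]⟩⟩,⟨false,0,⟨0,[(2,0),(34,0)]⟩,⟨0,[(7,0),(30,
  0)]⟩⟩,⟨false,0,⟨0,[]⟩,⟨3,[(19,0),(0,0),(19,1)]⟩⟩,⟨false,0,⟨0,[(2,0),(39,0)]⟩,⟨0,[(7,0)]⟩⟩,[.o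
  ⟨false,0,⟨4,[(3,2),(1,0),(17,1),(1,0)]⟩,⟨3,[(19,0),(0,0),(17,3),(1,1)]⟩⟩,.o ⟨false,1,⟨3,[(3,1),
  (15,0),(0,0),(11,0),(7,0)]⟩,⟨0,[(38,0)]⟩⟩,.o ⟨false,1,⟨1,[(22,1),(9,0),(6,0)]⟩,⟨13,[(2,1),(0,1),
  (1,3),(0,3),(12,0),(1,11),(1,3),(3,3),(4,2)]⟩⟩,.a ⟨true,0,⟨0,[(22,0)]⟩,⟨0,[(21,0)]⟩⟩ ⟨false,1,⟨0,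
  [(8,0)]⟩,⟨0,[(2,0),(19,0),(15,0)]⟩⟩ ⟨true,0,⟨4,[(3,2),(1,0),(15,4),(1,1),(1,0)]⟩,⟨0,[(22,0),(15,
  0)]⟩⟩]⟩) (.R ⟨1,false,false,true,[1,0,0,-1],[1,0,-1],[1,1,0,-1,0,0,0,0,-1],(⟨0,[(21,0)]⟩,⟨0,[(22,
  0)]⟩),(⟨0,[(30,0)]⟩,⟨0,[(31,0)]⟩),⟨0,[(1,0)]⟩,.k,.k,(.x (-1) ⟨3,[(19,0),(0,0),(11,1),(0,3)]⟩ ⟨0,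
  [(34,0)]⟩),.k,(.r (-1) ⟨1,[(17,1),(1,0),(19,0)]⟩ ⟨0,[(2,0),(11,0),(7,0)]⟩),.k,⟨true,0,⟨0,[(0,0),
  (16,0)]⟩,⟨0,[(2,0),(11,0),(7,0)]⟩⟩,⟨false,0,⟨0,[(16,0),(4,0)]⟩,⟨0,[(22,0),(4,0),(11,0)]⟩⟩,⟨true,0,
  ⟨0,[(37,0)]⟩,⟨0,[(38,0)]⟩⟩,⟨false,0,⟨0,[(2,0),(23,0)]⟩,⟨0,[(7,0),(7,0)]⟩⟩,⟨false,0,⟨0,[]⟩,⟨3,[(19,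
  0),(0,0),(19,1)]⟩⟩,⟨false,0,⟨0,[(2,0),(23,0),(11,0)]⟩,⟨0,[(7,0),(5,0)]⟩⟩,[.o ⟨false,0,⟨0,[(23,
  0)]⟩,⟨7,[(18,3),(0,0),(0,0),(11,1),(7,3)]⟩⟩,.o ⟨false,1,⟨1,[(26,1),(5,0),(7,0)]⟩,⟨0,[(15,0)]⟩⟩,.o
  ⟨false,1,⟨1,[(22,1),(9,0),(6,0)]⟩,⟨4,[(0,1),(1,1),(3,0),(14,2),(1,0),(1,0),(1,0),(4,0)]⟩⟩,.a
  ⟨true,0,⟨0,[(22,0)]⟩,⟨0,[(21,0)]⟩⟩ ⟨false,1,⟨0,[(8,0)]⟩,⟨0,[(2,0),(19,0),(15,0)]⟩⟩ ⟨true,0,⟨0,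
  [(21,0),(1,0)]⟩,⟨0,[(15,0),(6,0)]⟩⟩]⟩)) (.I [0,0,0,0,0,0,0,0,1] (.R ⟨0,false,false,false,[1,0,0,
  -1],[0,0,1],[1,1,0,-1,0,0,0,0,-1],(⟨0,[(21,0)]⟩,⟨0,[(22,0)]⟩),(⟨0,[(31,0)]⟩,⟨0,[(30,0)]⟩),⟨0,[(1,
  0)]⟩,.k,.k,(.x (-1) ⟨3,[(19,0),(0,0),(11,1),(0,3)]⟩ ⟨0,[(34,0)]⟩),.k,.k,.k,⟨false,1,⟨0,[(3,0),(3,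
  0),(6,0),(6,0)]⟩,⟨0,[(0,0),(4,0),(0,0),(32,0)]⟩⟩,⟨true,0,⟨0,[(21,0),(5,0)]⟩,⟨0,[(16,0),(5,0)]⟩⟩,
  ⟨true,0,⟨0,[(37,0)]⟩,⟨0,[(38,0)]⟩⟩,⟨false,0,⟨1,[(2,1),(15,0),(2,0),(0,0)]⟩,⟨0,[(7,0),(15,0)]⟩⟩,
  ⟨false,0,⟨0,[]⟩,⟨0,[]⟩⟩,⟨false,0,⟨0,[]⟩,⟨0,[]⟩⟩,[.o ⟨false,0,⟨0,[(15,0)]⟩,⟨1,[(26,1),(5,0),(7,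
  0)]⟩⟩,.o ⟨false,1,⟨7,[(18,3),(0,0),(0,0),(11,1),(7,3)]⟩,⟨0,[(23,0)]⟩⟩,.o ⟨false,1,⟨1,[(22,1),(9,
  0),(6,0)]⟩,⟨13,[(2,1),(0,1),(1,3),(0,3),(12,0),(1,11),(1,3),(3,3),(4,2)]⟩⟩,.a ⟨true,0,⟨0,[(22,
  0)]⟩,⟨0,[(21,0)]⟩⟩ ⟨false,1,⟨0,[(8,0)]⟩,⟨0,[(2,0),(19,0),(15,0)]⟩⟩ ⟨true,0,⟨0,[(15,0),(5,0)]⟩,⟨0,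
  [(22,0),(0,0)]⟩⟩]⟩) (.R ⟨0,false,false,true,[1,0,0,-1],[1,0,-1],[0,1],(⟨0,[(21,0)]⟩,⟨0,[(22,0)]⟩),
  (⟨0,[(30,0)]⟩,⟨0,[(31,0)]⟩),⟨0,[(1,0)]⟩,.k,.k,(.x (-1) ⟨3,[(19,0),(0,0),(11,1),(0,3)]⟩ ⟨0,[(34,
  0)]⟩),.k,.k,.k,⟨true,0,⟨0,[(29,0)]⟩,⟨0,[(11,0)]⟩⟩,⟨false,0,⟨0,[(16,0),(4,0)]⟩,⟨0,[(22,0),(4,0),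
  (11,0)]⟩⟩,⟨true,0,⟨0,[(2,0),(19,0),(12,0)]⟩,⟨0,[(0,0)]⟩⟩,⟨false,0,⟨0,[(2,0),(23,0)]⟩,⟨0,[(7,0),(7,
  0)]⟩⟩,⟨false,0,⟨0,[]⟩,⟨0,[]⟩⟩,⟨false,0,⟨0,[]⟩,⟨0,[]⟩⟩,[.o ⟨false,0,⟨0,[(23,0)]⟩,⟨7,[(18,3),(0,0),
  (0,0),(11,1),(7,3)]⟩⟩,.o ⟨false,1,⟨1,[(26,1),(5,0),(7,0)]⟩,⟨0,[(15,0)]⟩⟩,.o ⟨false,1,⟨1,[(22,1),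
  (9,0),(6,0)]⟩,⟨4,[(0,1),(1,1),(3,0),(14,2),(1,0),(1,0),(1,0),(4,0)]⟩⟩,.a ⟨true,0,⟨0,[(22,0)]⟩,⟨0,
  [(21,0)]⟩⟩ ⟨false,1,⟨3,[(19,0),(0,0),(18,1)]⟩,⟨0,[(36,0)]⟩⟩ ⟨true,0,⟨0,[(21,0),(1,0)]⟩,⟨0,[(15,0),
  (6,0)]⟩⟩]⟩))))))) (.I [0,0,-2,-2,1,0,0,1] (.Q [0,0,0,2,0,0,-1,-1,0,0,1] (.p true [0,0,1] [] (⟨0,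
  [(26,0)]⟩,⟨0,[(25,0)]⟩) .k 0 (⟨0,[]⟩,⟨0,[]⟩) .k .k) (.I [0,1,-1,-1,0,0,0,1] (.R ⟨1,true,false,
  false,[0,0,1],[0,1],[0,1,0,0,0,0,0,1],(⟨0,[(28,0)]⟩,⟨0,[(27,0)]⟩),(⟨0,[(31,0)]⟩,⟨0,[(30,0)]⟩),⟨0,
  [(9,0)]⟩,.k,.k,.k,.k,(.r (-1) ⟨0,[(2,0)]⟩ ⟨1,[(1,1),(22,2),(0,0)]⟩),.k,⟨true,0,⟨0,[(0,0)]⟩,⟨1,[(1,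
  0),(6,0),(15,0),(8,1)]⟩⟩,⟨false,1,⟨0,[(1,0),(0,0)]⟩,⟨0,[(24,0)]⟩⟩,⟨true,0,⟨0,[(39,0)]⟩,⟨0,[]⟩⟩,
  ⟨false,1,⟨7,[(1,3),(14,0),(0,0),(5,3),(13,5)]⟩,⟨0,[(10,0)]⟩⟩,⟨false,0,⟨0,[(35,0)]⟩,⟨0,[(34,0),(2,
  0)]⟩⟩,⟨true,0,⟨0,[(1,0)]⟩,⟨0,[(10,0),(23,0)]⟩⟩,[]⟩) (.Q [0,1,-1,0,0,0,0,0,-1,0,0,1] (.p true [0,0,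
  0,1] [] (⟨0,[(19,0)]⟩,⟨0,[(18,0)]⟩) .k 0 (⟨0,[]⟩,⟨0,[]⟩) .k .k) (.Q [0,1,1,0,0,0,0,0,1,0,0,-1]
  (.p false [0,0,0,1] [] (⟨0,[(20,0)]⟩,⟨0,[(19,0)]⟩) .k 0 (⟨0,[]⟩,⟨0,[]⟩) .k .k) (.K ⟨0,[0,0,0,1],0,
  0,(⟨0,[(21,0)]⟩,⟨0,[(20,0)]⟩),.k,(.r (-1) ⟨0,[(9,0),(26,0)]⟩ ⟨0,[(1,0),(0,0),(11,0),(5,0),(2,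
  0)]⟩),(.x 0 ⟨0,[(33,0)]⟩ ⟨3,[(18,0),(0,0),(11,1),(0,3)]⟩),.k,.k,[⟨0,[(21,0)]⟩,⟨0,[(20,0)]⟩,⟨0,[(1,
  0)]⟩,⟨0,[(0,0)]⟩]⟩) (.Q [0,0,0,0,0,-1,0,0,0,1,0,-1] (.p false [0,0,0,1] [1] (⟨0,[(21,0)]⟩,⟨0,[(20,
  0)]⟩) .k 1 (⟨0,[]⟩,⟨0,[]⟩) .k .k) (.I [0,1,-2,-1,0,0,0,0,-1] (.Q [0,0,-1,-2,0,0,0,0,-1,-1,0,1]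
  (.p true [0,0,0,1] [1] (⟨0,[(23,0)]⟩,⟨0,[(22,0)]⟩) .k 1 (⟨0,[]⟩,⟨0,[]⟩) .k .k) (.R ⟨1,false,false,
  false,[1,0,0,-1],[0,1],[0,1,0,0,0,0,0,0,-1],(⟨0,[(23,0)]⟩,⟨0,[(24,0)]⟩),(⟨0,[(36,0)]⟩,⟨0,[(35,
  0)]⟩),⟨0,[(2,0)]⟩,.k,.k,(.x (-1) ⟨3,[(21,0),(0,0),(11,1),(0,3)]⟩ ⟨0,[(36,0)]⟩),(.x (-1) ⟨3,[(21,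
  0),(0,0),(11,1),(0,3)]⟩ ⟨0,[(36,0)]⟩),(.x 0 ⟨0,[(11,0),(2,0),(3,0),(10,0)]⟩ ⟨3,[(21,0),(0,0),(13,
  7),(4,1)]⟩),.k,⟨false,0,⟨0,[(1,0)]⟩,⟨31,[(5,15),(0,7),(13,11),(0,0),(0,16),(7,15),(3,5),(7,7)]⟩⟩,
  ⟨true,0,⟨0,[(23,0)]⟩,⟨0,[(18,0),(5,0),(4,0)]⟩⟩,⟨true,0,⟨0,[(44,0)]⟩,⟨0,[]⟩⟩,⟨false,1,⟨31,[(5,15),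
  (0,7),(13,11),(0,0),(0,16),(0,31),(6,15),(3,5),(7,7)]⟩,⟨1,[(0,0),(2,0),(13,0),(7,0)]⟩⟩,⟨false,0,
  ⟨0,[(40,0)]⟩,⟨0,[(39,0),(2,0)]⟩⟩,⟨false,1,⟨7,[(5,3),(0,5),(13,4),(1,3),(0,7),(2,0),(3,2),(3,1),(7,
  1)]⟩,⟨0,[(0,0)]⟩⟩,[.o ⟨false,0,⟨0,[(40,0)]⟩,⟨1,[(34,0),(4,1),(2,0)]⟩⟩,.o ⟨false,1,⟨15,[(6,7),(13,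
  3),(0,2),(0,2),(11,1),(7,7)]⟩,⟨0,[(15,0),(9,0)]⟩⟩,.o ⟨false,1,⟨1,[(4,0),(7,0),(11,0),(9,0)]⟩,⟨0,
  [(18,0),(4,0),(5,0)]⟩⟩,.a ⟨true,0,⟨0,[(24,0)]⟩,⟨0,[(23,0)]⟩⟩ ⟨false,0,⟨2,[(1,1),(1,0),(1,0),(11,
  0),(5,0),(2,0),(13,0)]⟩,⟨1,[(22,0),(6,0),(0,0),(11,0)]⟩⟩ ⟨true,0,⟨0,[(23,0),(16,0)]⟩,⟨0,[(15,0),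
  (8,0),(0,0)]⟩⟩]⟩) (.R ⟨1,true,false,false,[1,0,0,-1],[0,1],[1,0,2,1],(⟨0,[(23,0)]⟩,⟨0,[(24,0)]⟩),
  (⟨0,[(36,0)]⟩,⟨0,[(35,0)]⟩),⟨0,[(2,0)]⟩,.k,.k,(.x (-1) ⟨3,[(21,0),(0,0),(11,1),(0,3)]⟩ ⟨0,[(36,
  0)]⟩),(.x (-1) ⟨3,[(21,0),(0,0),(11,1),(0,3)]⟩ ⟨0,[(36,0)]⟩),(.r (-1) ⟨3,[(1,2),(5,1),(2,0),(2,1),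
  (24,0),(3,0)]⟩ ⟨0,[(0,0),(17,0),(5,0),(4,0)]⟩),.k,⟨false,0,⟨0,[]⟩,⟨3,[(21,0),(0,0),(18,1)]⟩⟩,
  ⟨true,0,⟨0,[(23,0)]⟩,⟨0,[(18,0),(5,0),(4,0)]⟩⟩,⟨true,0,⟨0,[(0,0),(14,0),(8,0),(0,0),(12,0)]⟩,⟨0,
  [(1,0)]⟩⟩,⟨false,1,⟨7,[(0,3),(20,0),(0,2),(0,3),(5,1),(0,1),(11,3)]⟩,⟨0,[(3,0),(11,0),(9,0)]⟩⟩,
  ⟨false,0,⟨0,[(0,0),(4,0),(9,0),(2,0),(5,0)]⟩,⟨3,[(1,2),(5,1),(2,0),(2,1),(24,0),(3,0)]⟩⟩,⟨true,0,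
  ⟨0,[(0,0)]⟩,⟨0,[(3,0),(11,0),(9,0),(13,0)]⟩⟩,[]⟩)) (.Q [0,0,1,2,0,0,0,0,1,1,0,-1] (.p false [0,0,
  0,1] [1] (⟨0,[(23,0)]⟩,⟨0,[(22,0)]⟩) .k 1 (⟨0,[]⟩,⟨0,[]⟩) .k .k) (.R ⟨1,true,false,true,[1,0,0,
  -1],[0,1],[1,0,0,-1,0,0,0,0,-1],(⟨0,[(23,0)]⟩,⟨0,[(24,0)]⟩),(⟨0,[(36,0)]⟩,⟨0,[(35,0)]⟩),⟨0,[(2,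
  0)]⟩,.k,.k,(.x (-1) ⟨3,[(21,0),(0,0),(11,1),(0,3)]⟩ ⟨0,[(36,0)]⟩),(.x (-1) ⟨3,[(21,0),(0,0),(11,
  1),(0,3)]⟩ ⟨0,[(36,0)]⟩),(.r (-1) ⟨6,[(3,4),(3,3),(0,0),(1,1),(2,2),(1,3),(7,4),(1,4)]⟩ ⟨6,[(0,0),
  (0,6),(2,0),(1,1),(9,0),(9,0),(0,2),(9,0)]⟩),.k,⟨false,1,⟨0,[(3,0),(1,0),(1,0),(7,0),(7,0),(1,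
  0)]⟩,⟨0,[(1,0),(35,0),(2,0)]⟩⟩,⟨true,0,⟨0,[(23,0)]⟩,⟨0,[(18,0),(5,0),(4,0)]⟩⟩,⟨false,1,⟨0,[(39,0),
  (2,0)]⟩,⟨0,[(40,0)]⟩⟩,⟨true,0,⟨0,[(0,0),(38,0)]⟩,⟨0,[(3,0),(11,0),(9,0)]⟩⟩,⟨true,0,⟨0,[]⟩,⟨0,[(44,
  0)]⟩⟩,⟨false,0,⟨0,[(0,0)]⟩,⟨3,[(3,3),(3,2),(5,3),(1,1),(9,0),(0,0),(7,0),(3,0)]⟩⟩,[]⟩) (.R ⟨1,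
  false,false,true,[1,0,0,-1],[0,1],[1,0,0,-1,0,0,0,0,-1],(⟨0,[(23,0)]⟩,⟨0,[(24,0)]⟩),(⟨0,[(36,0)]⟩,
  ⟨0,[(35,0)]⟩),⟨0,[(2,0)]⟩,.k,.k,(.x (-1) ⟨3,[(21,0),(0,0),(11,1),(0,3)]⟩ ⟨0,[(36,0)]⟩),(.x (-1)
  ⟨3,[(21,0),(0,0),(11,1),(0,3)]⟩ ⟨0,[(36,0)]⟩),(.r (-1) ⟨7,[(0,4),(6,0),(0,0),(1,3),(1,0),(10,4),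
  (4,0),(12,0)]⟩ ⟨6,[(1,6),(4,2),(9,0),(10,3),(2,0),(6,0)]⟩),.k,⟨false,1,⟨1,[(0,1),(22,1),(17,0),(0,
  0)]⟩,⟨0,[(1,0),(35,0),(2,0)]⟩⟩,⟨true,0,⟨0,[(23,0)]⟩,⟨0,[(18,0),(5,0),(4,0)]⟩⟩,⟨false,1,⟨0,[(39,0),
  (2,0)]⟩,⟨0,[(40,0)]⟩⟩,⟨true,0,⟨0,[(1,0),(21,0),(13,0)]⟩,⟨1,[(0,0),(2,0),(13,0),(7,0)]⟩⟩,⟨true,0,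
  ⟨0,[]⟩,⟨0,[(44,0)]⟩⟩,⟨true,0,⟨0,[(1,0),(21,0),(13,0),(2,0)]⟩,⟨0,[(0,0)]⟩⟩,[.o ⟨false,0,⟨6,[(6,2),
  (9,0),(10,3),(2,0),(6,0)]⟩,⟨3,[(0,1),(21,0),(0,1),(10,1),(3,1),(3,0)]⟩⟩,.o ⟨false,0,⟨0,[(40,0)]⟩,
  ⟨1,[(34,0),(4,1),(2,0)]⟩⟩,.o ⟨false,1,⟨1,[(4,0),(7,0),(11,0),(9,0)]⟩,⟨0,[(18,0),(4,0),(5,0)]⟩⟩,.a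
  ⟨true,0,⟨0,[(24,0)]⟩,⟨0,[(23,0)]⟩⟩ ⟨true,0,⟨1,[(0,0),(2,0),(13,0),(5,1),(1,0)]⟩,⟨0,[(1,0),(35,
  0)]⟩⟩ ⟨false,0,⟨0,[(23,0),(16,0)]⟩,⟨7,[(0,5),(0,3),(7,1),(11,0),(0,2),(11,0),(7,0)]⟩⟩]⟩))) (.R ⟨0,
  false,false,false,[1,0,0,-1],[0,0,1],[0,1,0,0,0,0,0,0,-1],(⟨0,[(21,0)]⟩,⟨0,[(22,0)]⟩),(⟨0,[(31,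
  0)]⟩,⟨0,[(30,0)]⟩),⟨0,[(0,0)]⟩,.k,.k,(.x (-1) ⟨3,[(19,0),(0,0),(11,1),(0,3)]⟩ ⟨0,[(34,0)]⟩),.k,.k,
  .k,⟨false,0,⟨0,[(1,0),(11,0),(0,0),(6,0),(1,0)]⟩,⟨1,[(20,0),(8,1),(10,0)]⟩⟩,⟨true,0,⟨0,[(21,0),(5,
  0)]⟩,⟨0,[(16,0),(5,0)]⟩⟩,⟨true,0,⟨0,[(42,0)]⟩,⟨0,[]⟩⟩,⟨false,1,⟨3,[(18,1),(1,1),(0,3),(5,0),(0,0),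
  (3,0),(3,1),(3,0)]⟩,⟨0,[(1,0),(21,0)]⟩⟩,⟨false,0,⟨0,[]⟩,⟨0,[]⟩⟩,⟨false,0,⟨0,[]⟩,⟨0,[]⟩⟩,[.o
  ⟨false,0,⟨0,[(15,0)]⟩,⟨1,[(26,1),(5,0),(7,0)]⟩⟩,.o ⟨false,1,⟨7,[(18,3),(0,0),(0,0),(11,1),(7,3)]⟩,
  ⟨0,[(23,0)]⟩⟩,.o ⟨false,1,⟨1,[(2,0),(7,0),(11,0),(9,0)]⟩,⟨0,[(16,0),(4,0),(5,0)]⟩⟩,.a ⟨true,0,⟨0,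
  [(22,0)]⟩,⟨0,[(21,0)]⟩⟩ ⟨false,0,⟨0,[(1,0),(13,0),(5,0),(1,0)]⟩,⟨1,[(20,0),(6,0),(0,0),(11,0)]⟩⟩
  ⟨true,0,⟨0,[(15,0),(5,0)]⟩,⟨0,[(22,0),(0,0)]⟩⟩]⟩))) (.Q [0,0,0,0,0,-1,0,0,0,1,0,-1] (.p false [0,
  0,0,1] [1] (⟨0,[(20,0)]⟩,⟨0,[(19,0)]⟩) .k 1 (⟨0,[]⟩,⟨0,[]⟩) .k .k) (.I [1,0,-2,-2,1,0,0,1,-1] (.R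
  ⟨1,false,false,true,[1,0,0,-1],[1,1,-1],[1,1,0,-1,0,0,0,0,-1],(⟨0,[(21,0)]⟩,⟨0,[(22,0)]⟩),(⟨0,
  [(30,0),(3,0)]⟩,⟨0,[(12,0)]⟩),⟨0,[(1,0)]⟩,.k,.k,(.x (-1) ⟨3,[(19,0),(0,0),(11,1),(0,3)]⟩ ⟨0,[(34,
  0)]⟩),(.r (-1) ⟨7,[(0,3),(18,2),(0,0),(8,3)]⟩ ⟨0,[(2,0),(11,0),(7,0)]⟩),(.x 0 ⟨1,[(3,0),(5,0),(2,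
  2),(0,0),(1,0),(7,0),(3,0)]⟩ ⟨4,[(4,2),(0,2),(10,0),(11,0),(1,4),(1,1),(1,9)]⟩),.k,⟨false,1,⟨0,
  [(0,0)]⟩,⟨0,[(2,0),(11,0),(7,0),(15,0)]⟩⟩,⟨true,0,⟨0,[(16,0),(4,0)]⟩,⟨0,[(22,0),(4,0)]⟩⟩,⟨true,0,
  ⟨0,[(37,0)]⟩,⟨0,[(38,0)]⟩⟩,⟨false,0,⟨4,[(2,4),(1,1),(9,0),(11,1),(1,0),(6,0)]⟩,⟨0,[(7,0),(5,0)]⟩⟩,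
  ⟨false,0,⟨0,[]⟩,⟨3,[(19,0),(0,0),(19,1)]⟩⟩,⟨false,0,⟨6,[(2,6),(1,5),(9,1),(10,0),(2,1),(6,1)]⟩,⟨0,
  [(0,0),(2,0),(9,0),(8,0)]⟩⟩,[.o ⟨false,0,⟨0,[(23,0),(14,0)]⟩,⟨3,[(13,3),(5,0),(0,0),(19,1)]⟩⟩,.o
  ⟨false,1,⟨7,[(4,3),(14,0),(0,0),(5,3),(5,3),(7,1)]⟩,⟨0,[(13,0)]⟩⟩,.o ⟨false,1,⟨1,[(22,1),(9,0),(6,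
  0)]⟩,⟨0,[(16,0),(4,0),(5,0)]⟩⟩,.a ⟨true,0,⟨0,[(22,0)]⟩,⟨0,[(21,0)]⟩⟩ ⟨false,1,⟨0,[(8,0)]⟩,⟨0,[(2,
  0),(19,0),(15,0)]⟩⟩ ⟨true,0,⟨0,[(21,0),(1,0),(14,0)]⟩,⟨0,[(13,0),(8,0)]⟩⟩]⟩) (.Q [0,1,1,2,-1,0,-1,
  -1,1,0,1,-1] (.p true [0,0,1] [0,0,0,1] (⟨0,[(31,0)]⟩,⟨0,[(30,0)]⟩) .k 2 (⟨0,[(22,0)]⟩,⟨0,[(21,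
  0)]⟩) .k (.x (-1) ⟨5,[(6,3),(12,0),(0,0),(6,1),(3,5)]⟩ ⟨0,[(24,0),(5,0)]⟩)) (.R ⟨1,false,false,
  true,[1,0,0,-1],[1,1,-1],[0,0,1],(⟨0,[(22,0)]⟩,⟨0,[(23,0)]⟩),(⟨0,[(31,0),(3,0)]⟩,⟨0,[(13,0)]⟩),⟨0,
  [(2,0)]⟩,.k,.k,(.x (-1) ⟨3,[(20,0),(0,0),(11,1),(0,3)]⟩ ⟨0,[(35,0)]⟩),(.r (-1) ⟨1,[(6,0),(13,0),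
  (9,0)]⟩ ⟨4,[(1,1),(9,0),(0,1),(2,0),(5,0)]⟩),(.r (-2) ⟨3,[(6,3),(13,2),(0,0)]⟩ ⟨0,[(1,0)]⟩),.k,
  ⟨false,1,⟨1,[(6,0),(23,0),(10,0)]⟩,⟨0,[(15,0)]⟩⟩,⟨true,0,⟨0,[(17,0),(4,0)]⟩,⟨0,[(23,0),(4,0)]⟩⟩,
  ⟨false,0,⟨0,[(3,0),(19,0)]⟩,⟨1,[(20,0),(19,0)]⟩⟩,⟨false,0,⟨7,[(0,1),(2,5),(1,1),(14,0),(0,0),(5,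
  3)]⟩,⟨0,[(8,0),(5,0)]⟩⟩,⟨false,0,⟨2,[(1,1),(9,0),(6,0),(11,0),(10,0)]⟩,⟨0,[(9,0)]⟩⟩,⟨true,(-1),⟨0,
  [(0,0)]⟩,⟨0,[(8,0),(5,0),(23,0)]⟩⟩,[.o ⟨false,0,⟨0,[(24,0),(14,0)]⟩,⟨3,[(14,3),(5,0),(0,0),(19,
  1)]⟩⟩,.o ⟨false,1,⟨7,[(5,3),(14,0),(0,0),(5,3),(5,3),(7,1)]⟩,⟨0,[(14,0)]⟩⟩,.o ⟨false,1,⟨1,[(23,1),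
  (9,0),(6,0)]⟩,⟨2,[(0,0),(2,0),(10,1),(5,0),(1,0),(1,0),(12,0)]⟩⟩,.a ⟨true,0,⟨0,[(23,0)]⟩,⟨0,[(22,
  0)]⟩⟩ ⟨false,1,⟨3,[(20,0),(0,0),(19,1)]⟩,⟨0,[]⟩⟩ ⟨true,0,⟨0,[(0,0),(8,0)]⟩,⟨0,[(14,0),(8,0)]⟩⟩]⟩)
  (.I [0,1,-2,-1,1,0,0,0,-1] (.R ⟨1,false,false,false,[1,0,0,-1],[0,1],[0,1,0,0,0,0,0,0,-1],(⟨0,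
  [(23,0)]⟩,⟨0,[(24,0)]⟩),(⟨0,[(36,0)]⟩,⟨0,[(35,0)]⟩),⟨0,[(3,0)]⟩,.k,.k,(.x (-1) ⟨3,[(21,0),(0,0),
  (11,1),(0,3)]⟩ ⟨0,[(36,0)]⟩),(.x (-1) ⟨3,[(21,0),(0,0),(11,1),(0,3)]⟩ ⟨0,[(36,0)]⟩),(.r (-2) ⟨6,
  [(0,0),(6,1),(2,8),(1,0),(0,1),(8,0)]⟩ ⟨0,[(2,0),(28,0)]⟩),.k,⟨false,1,⟨0,[(0,0)]⟩,⟨2,[(2,1),(9,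
  0),(6,0),(11,0),(10,0)]⟩⟩,⟨true,0,⟨0,[(23,0)]⟩,⟨0,[(18,0),(5,0),(4,0)]⟩⟩,⟨true,0,⟨0,[(44,0)]⟩,⟨0,
  []⟩⟩,⟨false,0,⟨2,[(2,1),(9,0),(6,0),(3,2),(7,0),(10,0)]⟩,⟨1,[(1,0),(7,0),(7,0),(7,1)]⟩⟩,⟨false,0,
  ⟨0,[(40,0)]⟩,⟨9,[(1,1),(2,1),(2,1),(2,1),(2,3),(8,0),(7,1),(11,2)]⟩⟩,⟨false,0,⟨3,[(2,1),(1,0),(1,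
  1),(5,0),(7,0),(2,2),(7,1),(10,0)]⟩,⟨0,[(1,0),(23,0)]⟩⟩,[.o ⟨false,0,⟨0,[(40,0)]⟩,⟨13,[(1,1),(2,
  1),(2,1),(2,1),(2,3),(8,0),(7,1),(3,6),(4,3)]⟩⟩,.o ⟨false,1,⟨15,[(6,7),(13,3),(0,2),(0,2),(11,1),
  (7,7)]⟩,⟨0,[(15,0),(9,0)]⟩⟩,.o ⟨false,1,⟨1,[(24,1),(9,0),(6,0)]⟩,⟨0,[(18,0),(4,0),(5,0)]⟩⟩,.a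
  ⟨true,0,⟨0,[(24,0)]⟩,⟨0,[(23,0)]⟩⟩ ⟨false,1,⟨1,[(21,0),(19,0)]⟩,⟨0,[(4,0),(19,0)]⟩⟩ ⟨true,0,⟨0,
  [(23,0),(16,0)]⟩,⟨0,[(15,0),(8,0),(0,0)]⟩⟩]⟩) (.R ⟨1,false,false,true,[1,0,0,-1],[0,1],[1,0,0,-1,
  0,0,0,0,-1],(⟨0,[(23,0)]⟩,⟨0,[(24,0)]⟩),(⟨0,[(36,0)]⟩,⟨0,[(35,0)]⟩),⟨0,[(3,0)]⟩,.k,.k,(.x (-1) ⟨3,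
  [(21,0),(0,0),(11,1),(0,3)]⟩ ⟨0,[(36,0)]⟩),(.x (-1) ⟨3,[(21,0),(0,0),(11,1),(0,3)]⟩ ⟨0,[(36,0)]⟩),
  (.r (-2) ⟨12,[(7,3),(0,0),(1,17),(1,0),(0,2),(8,1),(5,0)]⟩ ⟨0,[(2,0),(28,0)]⟩),.k,⟨false,2,⟨0,[(5,
  0),(1,0),(2,0)]⟩,⟨0,[(0,0),(36,0),(2,0)]⟩⟩,⟨true,0,⟨0,[(23,0)]⟩,⟨0,[(18,0),(5,0),(4,0)]⟩⟩,⟨false,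
  1,⟨9,[(1,1),(2,1),(2,1),(2,1),(2,3),(8,0),(7,1),(11,2)]⟩,⟨0,[(40,0)]⟩⟩,⟨true,(-1),⟨0,[(0,0),(22,
  0),(13,0)]⟩,⟨1,[(1,0),(7,0),(7,0),(7,1)]⟩⟩,⟨true,0,⟨0,[]⟩,⟨0,[(44,0)]⟩⟩,⟨true,(-1),⟨0,[(0,0),(22,
  0),(13,0),(2,0)]⟩,⟨0,[(1,0),(23,0)]⟩⟩,[.o ⟨false,0,⟨47,[(2,3),(3,19),(14,2),(0,0),(4,23),(2,3),(6,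
  11)]⟩,⟨3,[(1,1),(2,1),(20,1),(8,0),(7,0)]⟩⟩,.o ⟨false,0,⟨0,[(40,0)]⟩,⟨13,[(1,1),(2,1),(2,1),(2,1),
  (2,3),(8,0),(7,1),(3,6),(4,3)]⟩⟩,.o ⟨false,1,⟨1,[(24,1),(9,0),(6,0)]⟩,⟨0,[(18,0),(4,0),(5,0)]⟩⟩,
  .a ⟨true,0,⟨0,[(24,0)]⟩,⟨0,[(23,0)]⟩⟩ ⟨true,1,⟨0,[(10,0)]⟩,⟨0,[(0,0),(36,0)]⟩⟩ ⟨false,0,⟨0,[(23,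
  0),(16,0)]⟩,⟨5,[(0,1),(0,3),(20,0),(1,1),(0,3),(8,0),(7,1)]⟩⟩]⟩)))) (.I [0,1,-2,-1,1,0,0,0,-1]
  (.R ⟨0,false,false,false,[1,0,0,-1],[0,1],[0,1,0,0,0,0,0,0,-1],(⟨0,[(21,0)]⟩,⟨0,[(22,0)]⟩),(⟨0,
  [(34,0)]⟩,⟨0,[(33,0)]⟩),⟨0,[(1,0)]⟩,.k,.k,(.x (-1) ⟨3,[(19,0),(0,0),(11,1),(0,3)]⟩ ⟨0,[(34,0)]⟩),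
  (.x (-1) ⟨3,[(19,0),(0,0),(11,1),(0,3)]⟩ ⟨0,[(34,0)]⟩),.k,.k,⟨false,1,⟨0,[(0,0)]⟩,⟨0,[(2,0),(19,
  0),(15,0)]⟩⟩,⟨true,0,⟨0,[(21,0)]⟩,⟨0,[(16,0),(5,0),(4,0)]⟩⟩,⟨true,0,⟨0,[(42,0)]⟩,⟨0,[]⟩⟩,⟨false,0,
  ⟨3,[(2,3),(1,1),(13,0),(2,2),(0,2)]⟩,⟨0,[(7,0),(5,0),(9,0)]⟩⟩,⟨false,0,⟨0,[]⟩,⟨0,[]⟩⟩,⟨false,0,⟨0,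
  []⟩,⟨0,[]⟩⟩,[.o ⟨false,0,⟨0,[(38,0)]⟩,⟨1,[(32,0),(4,1),(2,0)]⟩⟩,.o ⟨false,1,⟨15,[(4,7),(13,3),(0,
  2),(0,2),(11,1),(7,7)]⟩,⟨0,[(13,0),(9,0)]⟩⟩,.o ⟨false,1,⟨1,[(22,1),(9,0),(6,0)]⟩,⟨0,[(16,0),(4,0),
  (5,0)]⟩⟩,.a ⟨true,0,⟨0,[(22,0)]⟩,⟨0,[(21,0)]⟩⟩ ⟨false,1,⟨1,[(19,0),(19,0)]⟩,⟨0,[(2,0),(19,0)]⟩⟩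
  ⟨true,0,⟨0,[(21,0),(16,0)]⟩,⟨0,[(13,0),(8,0),(0,0)]⟩⟩]⟩) (.R ⟨0,false,false,true,[1,0,0,-1],[0,1],
  [1,0,1],(⟨0,[(21,0)]⟩,⟨0,[(22,0)]⟩),(⟨0,[(34,0)]⟩,⟨0,[(33,0)]⟩),⟨0,[(1,0)]⟩,.k,.k,(.x (-1) ⟨3,
  [(19,0),(0,0),(11,1),(0,3)]⟩ ⟨0,[(34,0)]⟩),(.x (-1) ⟨3,[(19,0),(0,0),(11,1),(0,3)]⟩ ⟨0,[(34,0)]⟩),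
  .k,.k,⟨false,1,⟨0,[(3,0),(1,0)]⟩,⟨6,[(4,2),(9,0),(10,3),(2,0),(6,0)]⟩⟩,⟨true,0,⟨0,[(21,0)]⟩,⟨0,
  [(16,0),(5,0),(4,0)]⟩⟩,⟨false,0,⟨5,[(0,3),(4,1),(5,1),(8,0),(19,0)]⟩,⟨1,[(19,0),(19,0)]⟩⟩,⟨true,
  (-1),⟨0,[(0,0),(20,0),(13,0)]⟩,⟨0,[(7,0),(5,0),(9,0)]⟩⟩,⟨false,0,⟨0,[]⟩,⟨0,[]⟩⟩,⟨false,0,⟨0,[]⟩,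
  ⟨0,[]⟩⟩,[.o ⟨false,0,⟨6,[(4,2),(9,0),(10,3),(2,0),(6,0)]⟩,⟨0,[(13,0),(9,0),(16,0)]⟩⟩,.o ⟨false,0,
  ⟨0,[(38,0)]⟩,⟨1,[(32,0),(4,1),(2,0)]⟩⟩,.o ⟨false,1,⟨1,[(22,1),(9,0),(6,0)]⟩,⟨0,[(16,0),(4,0),(5,
  0)]⟩⟩,.a ⟨true,0,⟨0,[(22,0)]⟩,⟨0,[(21,0)]⟩⟩ ⟨true,0,⟨0,[]⟩,⟨0,[(42,0)]⟩⟩ ⟨false,0,⟨0,[(21,0),(16,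
  0)]⟩,⟨0,[(13,0),(8,0),(0,0),(16,0)]⟩⟩]⟩))))) (.Q [0,1,-1,0,0,0,0,0,-1,0,0,1] (.p true [0,0,0,1]
  [] (⟨0,[(18,0)]⟩,⟨0,[(17,0)]⟩) .k 0 (⟨0,[]⟩,⟨0,[]⟩) .k .k) (.Q [0,1,1,0,0,0,0,0,1,0,0,-1] (.p
  false [0,0,0,1] [] (⟨0,[(19,0)]⟩,⟨0,[(18,0)]⟩) .k 0 (⟨0,[]⟩,⟨0,[]⟩) .k .k) (.K ⟨0,[0,0,0,1],0,0,
  (⟨0,[(20,0)]⟩,⟨0,[(19,0)]⟩),.k,(.r (-1) ⟨0,[(8,0),(26,0)]⟩ ⟨0,[(1,0),(12,0),(4,0),(5,0),(8,0),(1,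
  0)]⟩),(.x 0 ⟨0,[(32,0)]⟩ ⟨3,[(17,0),(0,0),(11,1),(0,3)]⟩),.k,.k,[⟨0,[(20,0)]⟩,⟨0,[(19,0)]⟩,⟨0,[(1,
  0)]⟩,⟨0,[(0,0)]⟩]⟩) (.Q [0,0,0,0,0,1,0,0,0,-1,0,1] (.p true [0,0,0,1] [1] (⟨0,[(20,0)]⟩,⟨0,[(19,
  0)]⟩) .k 1 (⟨0,[]⟩,⟨0,[]⟩) .k .k) (.R ⟨0,false,false,false,[1,0,0,-1],[0,0,1],[0,1,0,0,0,0,0,0,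
  -1],(⟨0,[(20,0)]⟩,⟨0,[(21,0)]⟩),(⟨0,[(30,0)]⟩,⟨0,[(29,0)]⟩),⟨0,[(0,0)]⟩,.k,.k,(.x (-1) ⟨3,[(18,0),
  (0,0),(11,1),(0,3)]⟩ ⟨0,[(33,0)]⟩),.k,.k,.k,⟨false,0,⟨0,[(1,0),(10,0),(0,0),(6,0),(1,0)]⟩,⟨1,[(19,
  0),(8,1),(10,0)]⟩⟩,⟨true,0,⟨0,[(20,0),(5,0)]⟩,⟨0,[(15,0),(5,0)]⟩⟩,⟨true,0,⟨0,[(41,0)]⟩,⟨0,[]⟩⟩,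
  ⟨false,1,⟨3,[(17,1),(1,1),(0,3),(5,0),(0,0),(3,0),(3,1),(3,0)]⟩,⟨0,[(1,0),(20,0)]⟩⟩,⟨false,0,⟨0,
  []⟩,⟨0,[]⟩⟩,⟨false,0,⟨0,[]⟩,⟨0,[]⟩⟩,[.o ⟨false,0,⟨0,[(14,0)]⟩,⟨1,[(25,1),(5,0),(7,0)]⟩⟩,.o ⟨false,
  1,⟨7,[(17,3),(0,0),(0,0),(11,1),(7,3)]⟩,⟨0,[(22,0)]⟩⟩,.o ⟨false,1,⟨1,[(2,0),(6,0),(11,0),(9,0)]⟩,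
  ⟨0,[(15,0),(4,0),(5,0)]⟩⟩,.a ⟨true,0,⟨0,[(21,0)]⟩,⟨0,[(20,0)]⟩⟩ ⟨false,0,⟨0,[(1,0),(12,0),(5,0),
  (1,0)]⟩,⟨1,[(19,0),(6,0),(0,0),(11,0)]⟩⟩ ⟨true,0,⟨0,[(14,0),(5,0)]⟩,⟨0,[(21,0),(0,0)]⟩⟩]⟩) (.I [0,
  0,-2,-2,0,0,0,1,-1] (.R ⟨1,false,false,true,[1,0,0,-1],[1,1,-1],[0,1,0,0,0,0,0,0,-1],(⟨0,[(21,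
  0)]⟩,⟨0,[(22,0)]⟩),(⟨0,[(30,0),(3,0)]⟩,⟨0,[(12,0)]⟩),⟨0,[(1,0)]⟩,.k,.k,(.x (-1) ⟨3,[(19,0),(0,0),
  (11,1),(0,3)]⟩ ⟨0,[(34,0)]⟩),(.r 0 ⟨1,[(0,0),(1,0),(18,0),(2,0),(0,0)]⟩ ⟨1,[(14,1),(5,0),(6,0),(0,
  0),(11,0)]⟩),(.r 0 ⟨0,[(0,0)]⟩ ⟨1,[(14,1),(5,0),(6,1),(0,1),(9,1),(1,0)]⟩),.k,⟨false,0,⟨0,[(0,0),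
  (37,0)]⟩,⟨1,[(14,1),(5,0),(6,0),(0,0),(11,0)]⟩⟩,⟨true,0,⟨0,[(16,0),(4,0)]⟩,⟨0,[(22,0),(4,0)]⟩⟩,
  ⟨true,0,⟨0,[(42,0)]⟩,⟨0,[]⟩⟩,⟨false,1,⟨1,[(14,1),(5,0),(0,1),(2,1),(15,0)]⟩,⟨0,[(2,0),(10,0)]⟩⟩,
  ⟨false,0,⟨0,[(38,0)]⟩,⟨9,[(4,1),(0,1),(2,1),(2,3),(8,0),(7,1),(11,4)]⟩⟩,⟨false,1,⟨1,[(14,1),(5,0),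
  (0,1),(2,1),(13,1),(1,0)]⟩,⟨0,[(2,0),(1,0)]⟩⟩,[.o ⟨false,0,⟨0,[(23,0),(14,0)]⟩,⟨15,[(4,7),(13,3),
  (0,2),(0,2),(11,1),(7,7)]⟩⟩,.o ⟨false,1,⟨1,[(26,1),(5,0),(5,1),(1,0)]⟩,⟨0,[(13,0)]⟩⟩,.o ⟨false,1,
  ⟨1,[(2,0),(0,0),(16,0),(11,0)]⟩,⟨0,[(16,0),(4,0),(5,0)]⟩⟩,.a ⟨true,0,⟨0,[(22,0)]⟩,⟨0,[(21,0)]⟩⟩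
  ⟨false,0,⟨1,[(0,0),(1,0),(18,0),(1,0),(3,0),(10,1)]⟩,⟨1,[(20,0),(6,0),(0,0),(11,0)]⟩⟩ ⟨true,0,⟨0,
  [(21,0),(1,0),(14,0)]⟩,⟨0,[(13,0),(8,0)]⟩⟩]⟩) (.I [0,1,-2,-1,0,0,0,0,-1] (.R ⟨1,false,false,false,
  [1,0,0,-1],[0,1],[0,1,0,0,0,0,0,0,-1],(⟨0,[(22,0)]⟩,⟨0,[(23,0)]⟩),(⟨0,[(35,0)]⟩,⟨0,[(34,0)]⟩),⟨0,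
  [(2,0)]⟩,.k,.k,(.x (-1) ⟨3,[(20,0),(0,0),(11,1),(0,3)]⟩ ⟨0,[(35,0)]⟩),(.x (-1) ⟨3,[(20,0),(0,0),
  (11,1),(0,3)]⟩ ⟨0,[(35,0)]⟩),(.r (-1) ⟨9,[(0,7),(4,0),(0,3),(2,1),(2,4),(16,0),(11,3)]⟩ ⟨0,[(1,0),
  (28,0)]⟩),.k,⟨false,0,⟨0,[(0,0)]⟩,⟨7,[(1,3),(18,0),(0,2),(8,3),(10,3)]⟩⟩,⟨true,0,⟨0,[(22,0)]⟩,⟨0,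
  [(17,0),(5,0),(4,0)]⟩⟩,⟨true,0,⟨0,[(43,0)]⟩,⟨0,[]⟩⟩,⟨false,1,⟨7,[(1,3),(18,0),(0,2),(0,7),(7,3),
  (10,3)]⟩,⟨0,[(3,0),(10,0),(9,0)]⟩⟩,⟨false,0,⟨0,[(39,0)]⟩,⟨9,[(5,1),(0,1),(2,1),(2,3),(8,0),(7,1),
  (11,4)]⟩⟩,⟨false,1,⟨7,[(1,3),(18,0),(0,2),(0,7),(7,3),(8,7),(1,3)]⟩,⟨0,[(3,0),(1,0),(18,0)]⟩⟩,[.o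
  ⟨false,0,⟨0,[(39,0)]⟩,⟨9,[(5,1),(0,1),(2,1),(2,3),(8,0),(7,1),(3,4)]⟩⟩,.o ⟨false,1,⟨3,[(20,0),(0,
  0),(17,3),(1,1)]⟩,⟨0,[(14,0),(9,0)]⟩⟩,.o ⟨false,1,⟨1,[(3,0),(0,0),(16,0),(11,0)]⟩,⟨0,[(17,0),(4,
  0),(5,0)]⟩⟩,.a ⟨true,0,⟨0,[(23,0)]⟩,⟨0,[(22,0)]⟩⟩ ⟨false,0,⟨1,[(0,0),(2,0),(13,0),(4,0),(5,0),(10,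
  0)]⟩,⟨1,[(21,0),(6,0),(0,0),(11,0)]⟩⟩ ⟨true,0,⟨0,[(22,0),(16,0)]⟩,⟨0,[(14,0),(8,0),(0,0)]⟩⟩]⟩)
  (.R ⟨1,false,false,true,[1,0,0,-1],[0,1],[1,0,0,-1,0,0,0,0,-1],(⟨0,[(22,0)]⟩,⟨0,[(23,0)]⟩),(⟨0,
  [(35,0)]⟩,⟨0,[(34,0)]⟩),⟨0,[(2,0)]⟩,.k,.k,(.x (-1) ⟨3,[(20,0),(0,0),(11,1),(0,3)]⟩ ⟨0,[(35,0)]⟩),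
  (.x (-1) ⟨3,[(20,0),(0,0),(11,1),(0,3)]⟩ ⟨0,[(35,0)]⟩),(.r (-1) ⟨4,[(3,2),(1,1),(0,1),(0,0),(1,1),
  (2,0),(9,2),(1,2)]⟩ ⟨0,[(1,0),(28,0)]⟩),.k,⟨false,1,⟨3,[(3,3),(1,2),(0,0),(0,0),(14,3),(1,3),(16,
  1)]⟩,⟨0,[(0,0),(35,0),(2,0)]⟩⟩,⟨true,0,⟨0,[(22,0)]⟩,⟨0,[(17,0),(5,0),(4,0)]⟩⟩,⟨false,1,⟨9,[(5,1),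
  (0,1),(2,1),(2,3),(8,0),(7,1),(11,4)]⟩,⟨0,[(39,0)]⟩⟩,⟨true,0,⟨0,[(0,0),(21,0),(13,0)]⟩,⟨0,[(3,0),
  (10,0),(9,0)]⟩⟩,⟨true,0,⟨0,[]⟩,⟨0,[(43,0)]⟩⟩,⟨true,0,⟨0,[(0,0),(21,0),(13,0),(2,0)]⟩,⟨0,[(3,0),(1,
  0),(18,0)]⟩⟩,[.o ⟨false,0,⟨3,[(15,0),(10,0),(2,0),(6,0),(2,2)]⟩,⟨3,[(5,1),(18,1),(8,0),(7,2)]⟩⟩,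
  .o ⟨false,0,⟨0,[(39,0)]⟩,⟨9,[(5,1),(0,1),(2,1),(2,3),(8,0),(7,1),(3,4)]⟩⟩,.o ⟨false,1,⟨1,[(3,0),
  (0,0),(16,0),(11,0)]⟩,⟨0,[(17,0),(4,0),(5,0)]⟩⟩,.a ⟨true,0,⟨0,[(23,0)]⟩,⟨0,[(22,0)]⟩⟩ ⟨true,0,⟨0,
  [(3,0),(10,0),(7,0),(1,0)]⟩,⟨0,[(0,0),(35,0)]⟩⟩ ⟨false,0,⟨0,[(22,0),(16,0)]⟩,⟨3,[(5,1),(17,3),(0,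
  1),(8,0),(7,2)]⟩⟩]⟩))))) (.Q [0,0,0,0,0,-1,0,0,0,1,0,-1] (.p false [0,0,0,1] [1] (⟨0,[(19,0)]⟩,⟨0,
  [(18,0)]⟩) .k 1 (⟨0,[]⟩,⟨0,[]⟩) .k .k) (.I [1,1,-2,-2,1,0,0,0,-1] (.R ⟨1,false,false,false,[1,0,0,
  -1],[0,1],[1,1,0,-1,0,0,0,0,-1],(⟨0,[(20,0)]⟩,⟨0,[(21,0)]⟩),(⟨0,[(33,0)]⟩,⟨0,[(32,0)]⟩),⟨0,[(1,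
  0)]⟩,.k,.k,(.x (-1) ⟨3,[(18,0),(0,0),(11,1),(0,3)]⟩ ⟨0,[(33,0)]⟩),(.x (-1) ⟨3,[(18,0),(0,0),(11,
  1),(0,3)]⟩ ⟨0,[(33,0)]⟩),(.x 0 ⟨0,[(8,0),(2,0),(3,0),(10,0)]⟩ ⟨3,[(18,0),(0,0),(13,7),(4,1)]⟩),.k,
  ⟨false,1,⟨0,[(0,0)]⟩,⟨0,[(2,0),(18,0),(15,1)]⟩⟩,⟨true,0,⟨0,[(20,0)]⟩,⟨0,[(15,0),(5,0),(4,0)]⟩⟩,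
  ⟨true,0,⟨0,[(36,0)]⟩,⟨0,[(37,0)]⟩⟩,⟨false,0,⟨0,[(2,0),(17,0),(0,0),(15,0)]⟩,⟨0,[(6,0),(5,0),(9,
  0)]⟩⟩,⟨false,0,⟨0,[]⟩,⟨3,[(18,0),(0,0),(19,1)]⟩⟩,⟨false,0,⟨0,[(2,0),(17,0),(0,0),(15,1)]⟩,⟨0,[(3,
  0),(2,0),(15,0)]⟩⟩,[.o ⟨false,0,⟨0,[(37,0)]⟩,⟨7,[(0,1),(2,1),(6,1),(8,0),(7,1),(3,3),(7,0)]⟩⟩,.o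
  ⟨false,1,⟨3,[(18,0),(0,0),(17,3),(1,1)]⟩,⟨0,[(12,0),(9,0)]⟩⟩,.o ⟨false,1,⟨1,[(21,1),(9,0),(6,0)]⟩,
  ⟨0,[(15,0),(4,0),(5,0)]⟩⟩,.a ⟨true,0,⟨0,[(21,0)]⟩,⟨0,[(20,0)]⟩⟩ ⟨false,1,⟨0,[(7,0)]⟩,⟨0,[(2,0),
  (18,0),(15,0)]⟩⟩ ⟨true,0,⟨0,[(20,0),(16,0)]⟩,⟨0,[(12,0),(8,0),(0,0)]⟩⟩]⟩) (.I [1,1,1,0,-1,0,0,0,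
  1] (.R ⟨1,false,false,true,[1,0,0,-1],[0,1],[0,0,0,0,0,0,0,0,-1],(⟨0,[(21,0)]⟩,⟨0,[(22,0)]⟩),(⟨0,
  [(34,0)]⟩,⟨0,[(33,0)]⟩),⟨0,[(2,0)]⟩,.k,.k,(.x (-1) ⟨3,[(19,0),(0,0),(11,1),(0,3)]⟩ ⟨0,[(34,0)]⟩),
  (.x (-1) ⟨3,[(19,0),(0,0),(11,1),(0,3)]⟩ ⟨0,[(34,0)]⟩),(.r (-2) ⟨12,[(5,3),(0,0),(1,17),(1,0),(0,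
  2),(8,1),(5,0)]⟩ ⟨7,[(0,0),(0,6),(12,1),(10,1),(2,1),(6,0)]⟩),.k,⟨false,2,⟨1,[(8,1),(30,0),(0,
  0)]⟩,⟨1,[(0,0),(0,0),(33,0)]⟩⟩,⟨true,0,⟨0,[(21,0)]⟩,⟨0,[(16,0),(5,0),(4,0)]⟩⟩,⟨false,1,⟨3,[(19,0),
  (0,0),(19,1)]⟩,⟨0,[]⟩⟩,⟨true,(-1),⟨1,[(0,0),(0,0),(19,1),(13,0)]⟩,⟨0,[(7,0),(5,0),(9,0)]⟩⟩,⟨true,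
  0,⟨0,[(38,0)]⟩,⟨0,[(37,0)]⟩⟩,⟨true,(-1),⟨0,[(1,0),(19,0),(13,0)]⟩,⟨0,[(4,0),(2,0),(15,0)]⟩⟩,[.o
  ⟨false,0,⟨11,[(1,3),(17,2),(0,0),(14,7),(2,3)]⟩,⟨3,[(4,1),(18,1),(8,0),(7,2)]⟩⟩,.o ⟨false,0,⟨0,
  [(38,0)]⟩,⟨9,[(4,1),(0,1),(2,1),(2,3),(8,0),(7,1),(3,4)]⟩⟩,.o ⟨false,1,⟨1,[(22,1),(9,0),(6,0)]⟩,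
  ⟨0,[(16,0),(4,0),(5,0)]⟩⟩,.a ⟨true,0,⟨0,[(22,0)]⟩,⟨0,[(21,0)]⟩⟩ ⟨true,1,⟨1,[(19,0),(19,0)]⟩,⟨0,
  [(0,0)]⟩⟩ ⟨false,0,⟨0,[(21,0),(16,0)]⟩,⟨3,[(4,1),(17,3),(0,1),(8,0),(7,2)]⟩⟩]⟩) (.I [0,0,1,1,-1,0,
  0,1,1] (.I [1,-1,0,0,0,0,0,1] (.I [0,0,-1,-1,0,0,0,2] (.I [0,0,-2,-1,1,0,0,1,-1] (.R ⟨1,false,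
  false,true,[1,0,0,-1],[1,1,-1],[0,1,0,0,0,0,0,0,-1],(⟨0,[(25,0)]⟩,⟨0,[(26,0)]⟩),(⟨0,[(34,0),(3,
  0)]⟩,⟨0,[(16,0)]⟩),⟨0,[(6,0)]⟩,.k,.k,(.x (-1) ⟨3,[(23,0),(0,0),(11,1),(0,3)]⟩ ⟨0,[(38,0)]⟩),(.r
  (-1) ⟨11,[(1,3),(7,3),(13,6),(0,0)]⟩ ⟨8,[(5,4),(2,0),(1,2),(4,4),(2,0),(5,1),(5,3)]⟩),(.x 0 ⟨1,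
  [(4,0),(0,0),(2,0),(4,0),(2,2),(0,0),(0,0),(8,0),(3,0)]⟩ ⟨3,[(20,1),(11,1),(1,3),(1,0),(1,7),(4,
  2)]⟩),.k,⟨false,1,⟨0,[(0,0)]⟩,⟨8,[(5,4),(2,0),(1,2),(4,4),(2,0),(5,1),(5,3)]⟩⟩,⟨true,0,⟨0,[(20,0),
  (4,0)]⟩,⟨0,[(26,0),(4,0)]⟩⟩,⟨true,0,⟨0,[(46,0)]⟩,⟨0,[]⟩⟩,⟨false,0,⟨3,[(5,1),(18,0),(0,3),(1,3),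
  (16,0)]⟩,⟨0,[(11,0),(5,0)]⟩⟩,⟨false,0,⟨0,[(42,0)]⟩,⟨9,[(8,1),(0,1),(2,1),(2,3),(8,0),(7,1),(11,
  4)]⟩⟩,⟨false,0,⟨3,[(5,1),(18,0),(0,3),(1,3),(14,3),(1,0)]⟩,⟨0,[(8,0),(2,0)]⟩⟩,[.o ⟨false,0,⟨0,
  [(27,0),(14,0)]⟩,⟨15,[(8,7),(13,3),(0,2),(0,2),(11,1),(7,7)]⟩⟩,.o ⟨false,1,⟨1,[(30,1),(5,0),(5,1),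
  (1,0)]⟩,⟨0,[(17,0)]⟩⟩,.o ⟨false,1,⟨1,[(26,1),(9,0),(6,0)]⟩,⟨0,[(20,0),(4,0),(5,0)]⟩⟩,.a ⟨true,0,
  ⟨0,[(26,0)]⟩,⟨0,[(25,0)]⟩⟩ ⟨false,1,⟨1,[(23,0),(19,0)]⟩,⟨0,[(7,0),(18,0)]⟩⟩ ⟨true,0,⟨0,[(25,0),(1,
  0),(14,0)]⟩,⟨0,[(17,0),(8,0)]⟩⟩]⟩) (.R ⟨1,false,false,true,[1,0,0,-1],[0,1],[1,0,0,-1,0,0,0,0,-1],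
  (⟨0,[(25,0)]⟩,⟨0,[(26,0)]⟩),(⟨0,[(38,0)]⟩,⟨0,[(37,0)]⟩),⟨0,[(6,0)]⟩,.k,.k,(.x (-1) ⟨3,[(23,0),(0,
  0),(11,1),(0,3)]⟩ ⟨0,[(38,0)]⟩),(.x (-1) ⟨3,[(23,0),(0,0),(11,1),(0,3)]⟩ ⟨0,[(38,0)]⟩),(.r (-2)
  ⟨12,[(9,3),(0,0),(1,17),(1,0),(0,2),(8,1),(5,0)]⟩ ⟨7,[(0,0),(4,6),(12,0),(10,1),(2,1),(6,1)]⟩),.k,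
  ⟨false,2,⟨0,[(4,0),(4,0),(5,0)]⟩,⟨0,[(5,0),(33,0)]⟩⟩,⟨true,0,⟨0,[(25,0)]⟩,⟨0,[(20,0),(5,0),(4,
  0)]⟩⟩,⟨false,1,⟨9,[(8,1),(0,1),(2,1),(2,3),(8,0),(7,1),(11,4)]⟩,⟨0,[(42,0)]⟩⟩,⟨true,(-1),⟨1,[(0,
  0),(2,0),(21,1),(13,0)]⟩,⟨0,[(11,0),(5,0),(9,0)]⟩⟩,⟨true,0,⟨0,[]⟩,⟨0,[(46,0)]⟩⟩,⟨true,(-1),⟨0,[(5,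
  0),(19,0),(13,0)]⟩,⟨0,[(8,0),(2,0),(15,0)]⟩⟩,[.o ⟨false,0,⟨11,[(5,3),(17,2),(0,0),(14,7),(2,3)]⟩,
  ⟨3,[(8,1),(18,1),(8,0),(7,2)]⟩⟩,.o ⟨false,0,⟨0,[(42,0)]⟩,⟨9,[(8,1),(0,1),(2,1),(2,3),(8,0),(7,1),
  (3,4)]⟩⟩,.o ⟨false,1,⟨1,[(26,1),(9,0),(6,0)]⟩,⟨0,[(20,0),(4,0),(5,0)]⟩⟩,.a ⟨true,0,⟨0,[(26,0)]⟩,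
  ⟨0,[(25,0)]⟩⟩ ⟨true,1,⟨0,[(12,0)]⟩,⟨1,[(0,0),(2,0),(35,0)]⟩⟩ ⟨false,0,⟨0,[(25,0),(16,0)]⟩,⟨3,[(8,
  1),(17,3),(0,1),(8,0),(7,2)]⟩⟩]⟩)) (.Q [0,0,1,1,-1,0,1,1,1,1,-1,-1] (.p false [0,0,1] [1,0,0,-1]
  (⟨0,[(34,0)]⟩,⟨0,[(33,0)]⟩) .k 2 (⟨0,[(24,0)]⟩,⟨0,[(25,0)]⟩) .k (.r 0 ⟨3,[(2,1),(5,0),(14,0),(8,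
  0)]⟩ ⟨7,[(0,3),(10,3),(10,2),(0,0)]⟩)) (.R ⟨1,true,false,false,[1,0,-1],[0,0,0,1],[0,1,0,0,0,0,0,
  -1],(⟨0,[(34,0)]⟩,⟨0,[(35,0)]⟩),(⟨0,[(26,0)]⟩,⟨0,[(25,0)]⟩),⟨0,[(13,0)]⟩,.k,.k,.k,.k,(.r (-2) ⟨7,
  [(1,3),(10,11),(10,0),(0,2)]⟩ ⟨0,[(3,0)]⟩),.k,⟨false,1,⟨3,[(1,1),(10,1),(10,0),(15,1),(3,0)]⟩,⟨0,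
  [(5,0),(3,0)]⟩⟩,⟨true,0,⟨0,[(25,0),(5,0)]⟩,⟨0,[(20,0),(5,0)]⟩⟩,⟨true,0,⟨0,[(46,0)]⟩,⟨0,[]⟩⟩,
  ⟨false,0,⟨4,[(0,1),(6,0),(0,0),(13,0),(1,0),(0,1),(14,1),(3,0)]⟩,⟨0,[(11,0),(15,0)]⟩⟩,⟨false,0,⟨0,
  [(42,0)]⟩,⟨9,[(8,1),(0,1),(2,1),(2,3),(8,0),(7,1),(11,4)]⟩⟩,⟨true,(-1),⟨0,[(0,0)]⟩,⟨0,[(11,0),(15,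
  0),(13,0)]⟩⟩,[]⟩) (.R ⟨1,false,false,false,[1,0,0,-1],[0,0,1],[1,1,0,-1,0,0,0,0,-1],(⟨0,[(25,0)]⟩,
  ⟨0,[(26,0)]⟩),(⟨0,[(35,0)]⟩,⟨0,[(34,0)]⟩),⟨0,[(6,0)]⟩,.k,.k,(.x (-1) ⟨3,[(23,0),(0,0),(11,1),(0,
  3)]⟩ ⟨0,[(38,0)]⟩),.k,(.r (-2) ⟨7,[(1,3),(10,11),(10,0),(0,2)]⟩ ⟨0,[(3,0)]⟩),.k,⟨false,1,⟨3,[(0,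
  0),(0,1),(6,0),(3,2),(12,0),(13,1)]⟩,⟨1,[(2,0),(0,0),(10,0),(27,0)]⟩⟩,⟨true,0,⟨0,[(25,0),(5,0)]⟩,
  ⟨0,[(20,0),(5,0)]⟩⟩,⟨true,0,⟨0,[(41,0)]⟩,⟨0,[(42,0)]⟩⟩,⟨false,0,⟨5,[(5,1),(1,1),(0,1),(13,1),(1,
  0),(0,3),(18,0)]⟩,⟨0,[(11,0),(15,0)]⟩⟩,⟨false,0,⟨0,[]⟩,⟨3,[(23,0),(0,0),(19,1)]⟩⟩,⟨false,0,⟨7,[(5,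
  1),(1,3),(14,3),(1,0),(0,3),(16,3),(1,0)]⟩,⟨0,[(0,0)]⟩⟩,[.o ⟨false,0,⟨0,[(19,0)]⟩,⟨1,[(30,1),(5,
  0),(7,0)]⟩⟩,.o ⟨false,1,⟨7,[(22,3),(0,0),(0,0),(11,1),(7,3)]⟩,⟨0,[(27,0)]⟩⟩,.o ⟨false,1,⟨1,[(26,
  1),(9,0),(6,0)]⟩,⟨0,[(20,0),(4,0),(5,0)]⟩⟩,.a ⟨true,0,⟨0,[(26,0)]⟩,⟨0,[(25,0)]⟩⟩ ⟨false,1,⟨0,[(12,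
  0)]⟩,⟨3,[(5,1),(18,0),(19,0)]⟩⟩ ⟨true,0,⟨0,[(19,0),(5,0)]⟩,⟨0,[(26,0),(0,0)]⟩⟩]⟩))) (.R ⟨1,false,
  false,true,[1,0,0,-1],[0,1],[1,0,0,-1,0,0,0,0,-1],(⟨0,[(23,0)]⟩,⟨0,[(24,0)]⟩),(⟨0,[(36,0)]⟩,⟨0,
  [(35,0)]⟩),⟨0,[(4,0)]⟩,.k,.k,(.x (-1) ⟨3,[(21,0),(0,0),(11,1),(0,3)]⟩ ⟨0,[(36,0)]⟩),(.x (-1) ⟨3,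
  [(21,0),(0,0),(11,1),(0,3)]⟩ ⟨0,[(36,0)]⟩),(.r (-2) ⟨6,[(0,0),(6,1),(2,9),(1,0),(0,0),(8,0)]⟩ ⟨0,
  [(3,0),(40,0)]⟩),.k,⟨false,2,⟨0,[(2,0),(4,0),(5,0)]⟩,⟨0,[(3,0),(33,0)]⟩⟩,⟨true,0,⟨0,[(23,0)]⟩,⟨0,
  [(18,0),(5,0),(4,0)]⟩⟩,⟨false,1,⟨9,[(6,1),(0,1),(2,1),(2,3),(8,0),(7,1),(11,4)]⟩,⟨0,[(40,0)]⟩⟩,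
  ⟨true,(-1),⟨0,[(0,0),(0,0),(21,0)]⟩,⟨0,[(9,0),(5,0),(9,0)]⟩⟩,⟨true,0,⟨0,[]⟩,⟨0,[(44,0)]⟩⟩,⟨true,
  (-1),⟨0,[(3,0),(19,0),(13,0)]⟩,⟨0,[(6,0),(2,0),(15,0)]⟩⟩,[.o ⟨false,0,⟨11,[(3,3),(17,2),(0,0),(14,
  7),(2,3)]⟩,⟨3,[(6,1),(18,1),(8,0),(7,2)]⟩⟩,.o ⟨false,0,⟨0,[(40,0)]⟩,⟨9,[(6,1),(0,1),(2,1),(2,3),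
  (8,0),(7,1),(3,4)]⟩⟩,.o ⟨false,1,⟨1,[(24,1),(9,0),(6,0)]⟩,⟨0,[(18,0),(4,0),(5,0)]⟩⟩,.a ⟨true,0,⟨0,
  [(24,0)]⟩,⟨0,[(23,0)]⟩⟩ ⟨true,1,⟨0,[(10,0)]⟩,⟨0,[(0,0),(0,0)]⟩⟩ ⟨false,0,⟨0,[(23,0),(16,0)]⟩,⟨3,
  [(6,1),(17,3),(0,1),(8,0),(7,2)]⟩⟩]⟩)) (.R ⟨1,false,false,false,[1,0,0,-1],[0,0,1],[0,0,0,0,0,0,0,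
  0,-1],(⟨0,[(22,0)]⟩,⟨0,[(23,0)]⟩),(⟨0,[(32,0)]⟩,⟨0,[(31,0)]⟩),⟨0,[(3,0)]⟩,.k,.k,(.x (-1) ⟨3,[(20,
  0),(0,0),(11,1),(0,3)]⟩ ⟨0,[(35,0)]⟩),.k,(.x 0 ⟨0,[(10,0),(6,0)]⟩ ⟨2,[(7,0),(12,0),(0,0),(6,1),(3,
  2),(2,2)]⟩),.k,⟨false,1,⟨1,[(0,0),(0,0),(13,0)]⟩,⟨5,[(2,3),(3,2),(11,1),(2,0),(8,0),(5,1)]⟩⟩,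
  ⟨true,0,⟨0,[(22,0),(5,0)]⟩,⟨0,[(17,0),(5,0)]⟩⟩,⟨false,1,⟨3,[(20,0),(0,0),(19,1)]⟩,⟨0,[]⟩⟩,⟨false,
  0,⟨5,[(2,1),(1,1),(0,1),(13,1),(1,0),(0,3),(18,0)]⟩,⟨0,[(8,0),(15,0)]⟩⟩,⟨true,0,⟨0,[(39,0)]⟩,⟨0,
  [(38,0)]⟩⟩,⟨false,0,⟨7,[(2,1),(1,3),(14,3),(1,0),(0,3),(16,3),(1,0)]⟩,⟨0,[(0,0),(16,0),(5,0)]⟩⟩,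
  [.o ⟨false,0,⟨0,[(16,0)]⟩,⟨1,[(27,1),(5,0),(7,0)]⟩⟩,.o ⟨false,1,⟨7,[(19,3),(0,0),(0,0),(11,1),(7,
  3)]⟩,⟨0,[(24,0)]⟩⟩,.o ⟨false,1,⟨1,[(23,1),(9,0),(6,0)]⟩,⟨0,[(17,0),(4,0),(5,0)]⟩⟩,.a ⟨true,0,⟨0,
  [(23,0)]⟩,⟨0,[(22,0)]⟩⟩ ⟨false,1,⟨0,[(1,0)]⟩,⟨5,[(2,1),(2,0),(6,0),(8,1),(7,0),(8,1)]⟩⟩ ⟨true,0,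
  ⟨0,[(16,0),(5,0)]⟩,⟨0,[(23,0),(0,0)]⟩⟩]⟩)))) (.I [1,1,1,1,-1,0,0,0,1] (.R ⟨0,false,false,true,[1,
  0,0,-1],[0,1],[0,0,0,-1,0,0,0,0,-1],(⟨0,[(20,0)]⟩,⟨0,[(21,0)]⟩),(⟨0,[(33,0)]⟩,⟨0,[(32,0)]⟩),⟨0,
  [(1,0)]⟩,.k,.k,(.x (-1) ⟨3,[(18,0),(0,0),(11,1),(0,3)]⟩ ⟨0,[(33,0)]⟩),(.x (-1) ⟨3,[(18,0),(0,0),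
  (11,1),(0,3)]⟩ ⟨0,[(33,0)]⟩),.k,.k,⟨false,2,⟨3,[(3,2),(0,0),(0,0),(0,3),(13,3),(1,3),(16,1)]⟩,⟨0,
  [(0,0),(36,0)]⟩⟩,⟨true,0,⟨0,[(20,0)]⟩,⟨0,[(15,0),(5,0),(4,0)]⟩⟩,⟨false,1,⟨9,[(3,1),(0,1),(2,1),(2,
  3),(8,0),(7,1),(11,4)]⟩,⟨0,[(37,0)]⟩⟩,⟨true,(-1),⟨0,[(0,0),(19,0)]⟩,⟨0,[(6,0),(5,0),(9,0)]⟩⟩,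
  ⟨false,0,⟨0,[]⟩,⟨0,[]⟩⟩,⟨false,0,⟨0,[]⟩,⟨0,[]⟩⟩,[.o ⟨false,0,⟨11,[(0,3),(17,2),(0,0),(14,3),(2,
  7)]⟩,⟨3,[(3,1),(18,1),(8,0),(7,2)]⟩⟩,.o ⟨false,0,⟨0,[(37,0)]⟩,⟨9,[(3,1),(0,1),(2,1),(2,3),(8,0),
  (7,1),(3,4)]⟩⟩,.o ⟨false,1,⟨1,[(21,1),(9,0),(6,0)]⟩,⟨0,[(15,0),(4,0),(5,0)]⟩⟩,.a ⟨true,0,⟨0,[(21,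
  0)]⟩,⟨0,[(20,0)]⟩⟩ ⟨true,1,⟨0,[(3,0),(2,0),(13,0),(1,0),(14,0)]⟩,⟨0,[(0,0)]⟩⟩ ⟨false,0,⟨0,[(20,0),
  (16,0)]⟩,⟨3,[(3,1),(17,3),(0,1),(8,0),(7,2)]⟩⟩]⟩) (.R ⟨0,false,false,false,[1,0,0,-1],[0,1],[0,1,
  0,0,0,0,0,0,-1],(⟨0,[(20,0)]⟩,⟨0,[(21,0)]⟩),(⟨0,[(33,0)]⟩,⟨0,[(32,0)]⟩),⟨0,[(1,0)]⟩,.k,.k,(.x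
  (-1) ⟨3,[(18,0),(0,0),(11,1),(0,3)]⟩ ⟨0,[(33,0)]⟩),(.x (-1) ⟨3,[(18,0),(0,0),(11,1),(0,3)]⟩ ⟨0,
  [(33,0)]⟩),.k,.k,⟨false,1,⟨0,[(0,0),(33,0)]⟩,⟨0,[(2,0),(18,0),(15,0)]⟩⟩,⟨true,0,⟨0,[(20,0)]⟩,⟨0,
  [(15,0),(5,0),(4,0)]⟩⟩,⟨true,0,⟨0,[(41,0)]⟩,⟨0,[]⟩⟩,⟨false,0,⟨0,[(2,0),(17,0),(0,0),(15,0)]⟩,⟨0,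
  [(6,0),(5,0),(9,0)]⟩⟩,⟨false,0,⟨0,[]⟩,⟨0,[]⟩⟩,⟨false,0,⟨0,[]⟩,⟨0,[]⟩⟩,[.o ⟨false,0,⟨0,[(37,0)]⟩,
  ⟨9,[(3,1),(0,1),(2,1),(2,3),(8,0),(7,1),(3,4)]⟩⟩,.o ⟨false,1,⟨3,[(18,0),(0,0),(17,3),(1,1)]⟩,⟨0,
  [(12,0),(9,0)]⟩⟩,.o ⟨false,1,⟨1,[(21,1),(9,0),(6,0)]⟩,⟨0,[(15,0),(4,0),(5,0)]⟩⟩,.a ⟨true,0,⟨0,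
  [(21,0)]⟩,⟨0,[(20,0)]⟩⟩ ⟨false,1,⟨1,[(18,0),(19,0)]⟩,⟨0,[(2,0),(18,0)]⟩⟩ ⟨true,0,⟨0,[(20,0),(16,
  0)]⟩,⟨0,[(12,0),(8,0),(0,0)]⟩⟩]⟩))))) (.R ⟨1,true,false,true,[0,0,1],[0,1],[0,0,0,0,0,0,0,1],(⟨0,
  [(26,0)]⟩,⟨0,[(25,0)]⟩),(⟨0,[(29,0)]⟩,⟨0,[(28,0)]⟩),⟨0,[(7,0)]⟩,.k,.k,.k,.k,(.x 0 ⟨1,[(4,0),(2,2),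
  (11,0),(2,2)]⟩ ⟨0,[(11,0),(13,0),(3,1),(4,0)]⟩),.k,⟨true,1,⟨1,[(12,1),(21,0),(0,0)]⟩,⟨0,[(0,0),
  (31,0)]⟩⟩,⟨false,1,⟨0,[(11,0),(4,0),(0,0),(16,0)]⟩,⟨0,[(22,0)]⟩⟩,⟨false,1,⟨3,[(14,0),(0,0),(19,
  1)]⟩,⟨0,[]⟩⟩,⟨true,0,⟨0,[(21,0),(11,0)]⟩,⟨0,[(8,0)]⟩⟩,⟨true,0,⟨0,[(33,0)]⟩,⟨0,[(32,0)]⟩⟩,⟨false,0,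
  ⟨0,[(0,0),(10,0),(4,0),(0,0),(16,0)]⟩,⟨0,[(8,0),(23,0),(2,0)]⟩⟩,[]⟩)))) (.K ⟨0,[0,0,0,1],0,(-1),
  (⟨0,[(14,0)]⟩,⟨0,[(13,0)]⟩),.k,(.r (-1) ⟨0,[(2,0),(26,0)]⟩ ⟨0,[(0,0),(10,0)]⟩),(.r 1 ⟨0,[(0,0)]⟩
  ⟨0,[(2,0),(8,0),(17,0)]⟩),.k,.k,[⟨0,[(14,0)]⟩,⟨0,[(13,0)]⟩,⟨7,[(11,4),(0,0),(1,7),(12,3),(3,1)]⟩,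
  ⟨0,[(0,0),(4,0),(7,0),(1,0)]⟩]⟩))

theorem ok7 : chk (cU (-1) true 3) t7 r8 = true := by decide +kernel

noncomputable def t8 : Tre :=
  .Q [0,0,0,0,0,1,0,0,0,-1,1] (.ed false [0,1,1] .k) t6 t7

theorem ok8 : chk (cU (-1) true 3) t8 r7 = true :=
  chk_Q (e' := [0,0,0,0,0,-1,0,0,0,1,-1]) (by decide +kernel) (by decide +kernel) ok6 ok7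

noncomputable def t9 : Tre :=
  .I [1,1,1,0,-1,0,0,0,-1] t5 t8

theorem ok9 : chk (cU (-1) true 3) t9 l6 = true :=
  chk_I (e' := [0,-1,-1,0,1,0,0,0,1]) (by decide +kernel) (by decide +kernel) ok5 ok8

noncomputable def t10 : Tre :=
  (.Q [0,1,0,1,-1,0,1,1,0,1,-1] (.p false [0,0,1] [1] (⟨0,[(20,0)]⟩,⟨0,[(19,0)]⟩) .k 1 (⟨0,[]⟩,⟨0,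
  []⟩) .k .k) (.R ⟨1,true,false,false,[0,0,1],[1,-1],[0,1],(⟨0,[(21,0)]⟩,⟨0,[(20,0)]⟩),(⟨0,[(23,
  0)]⟩,⟨0,[(24,0)]⟩),⟨0,[(2,0)]⟩,.k,.k,.k,.k,.k,.k,⟨true,(-1),⟨0,[(0,0),(12,0),(12,0)]⟩,⟨0,[(27,0),
  (2,0)]⟩⟩,⟨false,0,⟨0,[(6,0)]⟩,⟨0,[(11,0),(0,0),(4,0),(11,0)]⟩⟩,⟨false,1,⟨1,[(16,1),(0,1),(11,0),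
  (0,0)]⟩,⟨0,[(1,0),(24,0)]⟩⟩,⟨true,1,⟨0,[(13,0),(13,0),(2,0)]⟩,⟨0,[(0,0)]⟩⟩,⟨true,0,⟨0,[(4,0)]⟩,⟨0,
  [(7,0)]⟩⟩,⟨false,1,⟨0,[(13,0),(16,0)]⟩,⟨1,[(8,0),(2,0),(0,0)]⟩⟩,[]⟩) (.Q [0,0,0,2,0,0,-1,-1,0,0,
  1] (.p true [0,0,1] [] (⟨0,[(21,0)]⟩,⟨0,[(20,0)]⟩) .k 0 (⟨0,[]⟩,⟨0,[]⟩) .k .k) (.I [0,0,-2,-2,1,0,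
  0,1] (.R ⟨1,true,false,false,[0,0,1],[0,1],[0,1,0,0,0,0,0,1],(⟨0,[(23,0)]⟩,⟨0,[(22,0)]⟩),(⟨0,[(26,
  0)]⟩,⟨0,[(25,0)]⟩),⟨0,[(4,0)]⟩,.k,.k,.k,.k,(.r (-1) ⟨0,[(0,0)]⟩ ⟨1,[(1,1),(17,2),(0,0)]⟩),.k,
  ⟨true,0,⟨0,[(3,0),(25,0)]⟩,⟨0,[(6,0),(21,1)]⟩⟩,⟨false,1,⟨0,[(0,0),(0,0)]⟩,⟨0,[(19,0)]⟩⟩,⟨true,0,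
  ⟨0,[(34,0)]⟩,⟨0,[]⟩⟩,⟨false,1,⟨7,[(1,3),(9,0),(0,0),(5,3),(13,5)]⟩,⟨0,[(5,0)]⟩⟩,⟨false,0,⟨0,[(30,
  0)]⟩,⟨0,[(29,0),(2,0)]⟩⟩,⟨true,0,⟨0,[(1,0)]⟩,⟨0,[(5,0),(23,0)]⟩⟩,[]⟩) (.R ⟨1,true,false,false,[0,
  0,1],[0,1],[0,1,0,0,0,0,0,1],(⟨0,[(23,0)]⟩,⟨0,[(22,0)]⟩),(⟨0,[(26,0)]⟩,⟨0,[(25,0)]⟩),⟨0,[(4,0)]⟩,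
  .k,.k,.k,.k,(.x 0 ⟨8,[(0,2),(1,0),(1,8),(0,4),(9,0),(0,2),(2,8),(4,1),(0,8)]⟩ ⟨0,[(8,0),(13,0),(3,
  1),(4,0)]⟩),.k,⟨true,0,⟨0,[(3,0),(25,0)]⟩,⟨1,[(0,0),(17,0),(0,0),(8,0),(3,0)]⟩⟩,⟨false,1,⟨1,[(3,
  1),(14,1),(12,0),(0,0)]⟩,⟨0,[(19,0)]⟩⟩,⟨true,0,⟨0,[(34,0)]⟩,⟨0,[]⟩⟩,⟨false,1,⟨7,[(1,3),(9,0),(0,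
  0),(5,3),(13,5)]⟩,⟨0,[(5,0)]⟩⟩,⟨false,0,⟨0,[(30,0)]⟩,⟨0,[(29,0),(2,0)]⟩⟩,⟨true,0,⟨0,[(1,0)]⟩,⟨0,
  [(5,0),(23,0)]⟩⟩,[]⟩)) (.Q [0,1,1,0,-1,0,0,0,1,0,0,-1] (.p false [0,0,0,1] [] (⟨0,[(13,0)]⟩,⟨0,
  [(12,0)]⟩) .k 0 (⟨0,[]⟩,⟨0,[]⟩) .k .k) (.K ⟨0,[0,0,0,1],0,(-1),(⟨0,[(14,0)]⟩,⟨0,[(13,0)]⟩),.k,(.x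
  0 ⟨0,[(16,0),(2,0),(5,0)]⟩ ⟨0,[(26,0),(4,0)]⟩),(.x 0 ⟨0,[(26,0)]⟩ ⟨3,[(11,0),(0,0),(11,1),(0,
  3)]⟩),.k,.k,[⟨0,[(14,0)]⟩,⟨0,[(13,0)]⟩,⟨7,[(11,4),(0,0),(1,7),(12,3),(3,1)]⟩,⟨0,[(0,0)]⟩]⟩) (.Q
  [0,1,-1,0,0,0,0,0,-1,0,0,1] (.p true [0,0,0,1] [] (⟨0,[(14,0)]⟩,⟨0,[(13,0)]⟩) .k 0 (⟨0,[]⟩,⟨0,
  []⟩) .k .k) (.Q [0,1,1,0,0,0,0,0,1,0,0,-1] (.p false [0,0,0,1] [] (⟨0,[(15,0)]⟩,⟨0,[(14,0)]⟩) .k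
  0 (⟨0,[]⟩,⟨0,[]⟩) .k .k) (.K ⟨0,[0,0,0,1],0,0,(⟨0,[(16,0)]⟩,⟨0,[(15,0)]⟩),.k,(.x 0 ⟨0,[(18,0),(2,
  0),(5,0)]⟩ ⟨0,[(28,0),(4,0)]⟩),(.x 0 ⟨0,[(28,0)]⟩ ⟨3,[(13,0),(0,0),(11,1),(0,3)]⟩),.k,.k,[⟨0,[(16,
  0)]⟩,⟨0,[(15,0)]⟩,⟨0,[(1,0)]⟩,⟨0,[(0,0)]⟩]⟩) (.Q [0,0,0,0,0,1,0,0,0,-1,0,1] (.p true [0,0,0,1]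
  [1] (⟨0,[(16,0)]⟩,⟨0,[(15,0)]⟩) .k 1 (⟨0,[]⟩,⟨0,[]⟩) .k .k) (.R ⟨0,false,false,false,[1,0,0,-1],
  [0,1],[0,1,0,0,0,0,0,0,-1],(⟨0,[(16,0)]⟩,⟨0,[(17,0)]⟩),(⟨0,[(29,0)]⟩,⟨0,[(28,0)]⟩),⟨0,[(0,0)]⟩,.k,
  .k,(.x (-1) ⟨3,[(14,0),(0,0),(11,1),(0,3)]⟩ ⟨0,[(29,0)]⟩),(.x (-1) ⟨3,[(14,0),(0,0),(11,1),(0,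
  3)]⟩ ⟨0,[(29,0)]⟩),.k,.k,⟨false,0,⟨0,[(1,0),(2,0),(1,0),(2,0),(6,0),(1,0)]⟩,⟨1,[(15,0),(6,0),(0,
  0),(9,1),(1,0)]⟩⟩,⟨true,0,⟨0,[(16,0)]⟩,⟨0,[(11,0),(5,0),(4,0)]⟩⟩,⟨true,0,⟨0,[(37,0)]⟩,⟨0,[]⟩⟩,
  ⟨false,1,⟨1,[(15,0),(0,1),(5,0),(0,0),(9,1),(1,0)]⟩,⟨0,[(1,0),(6,0),(9,0)]⟩⟩,⟨false,0,⟨0,[]⟩,⟨0,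
  []⟩⟩,⟨false,0,⟨0,[]⟩,⟨0,[]⟩⟩,[.o ⟨false,0,⟨0,[(33,0)]⟩,⟨15,[(4,3),(0,3),(8,2),(0,2),(11,5),(4,
  3)]⟩⟩,.o ⟨false,1,⟨3,[(14,0),(0,0),(17,3),(1,1)]⟩,⟨0,[(8,0),(9,0)]⟩⟩,.o ⟨false,1,⟨1,[(17,1),(9,0),
  (6,0)]⟩,⟨0,[(11,0),(4,0),(5,0)]⟩⟩,.a ⟨true,0,⟨0,[(17,0)]⟩,⟨0,[(16,0)]⟩⟩ ⟨false,0,⟨0,[(1,0),(8,0),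
  (5,0),(1,0)]⟩,⟨1,[(15,0),(6,0),(0,0),(11,0)]⟩⟩ ⟨true,0,⟨0,[(16,0),(16,0)]⟩,⟨0,[(8,0),(8,0),(0,
  0)]⟩⟩]⟩) (.R ⟨1,false,false,true,[1,0,0,-1],[1,1,-1],[0,1,0,0,0,0,0,0,-1],(⟨0,[(16,0)]⟩,⟨0,[(17,
  0)]⟩),(⟨0,[(25,0),(3,0)]⟩,⟨0,[(7,0)]⟩),⟨0,[(0,0)]⟩,.k,.k,(.x (-1) ⟨3,[(14,0),(0,0),(11,1),(0,3)]⟩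
  ⟨0,[(29,0)]⟩),(.r 0 ⟨1,[(1,0),(0,0),(5,1),(2,1),(4,1)]⟩ ⟨1,[(9,1),(5,0),(6,0),(0,0),(11,0)]⟩),(.r
  0 ⟨0,[(1,0),(2,0),(1,0),(9,0),(1,0)]⟩ ⟨1,[(9,1),(5,0),(6,1),(0,1),(9,1),(1,0)]⟩),.k,⟨false,0,⟨0,
  [(1,0),(4,0),(1,0),(7,0),(1,0)]⟩,⟨1,[(9,1),(5,0),(6,0),(0,0),(11,0)]⟩⟩,⟨true,0,⟨0,[(11,0),(4,0)]⟩,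
  ⟨0,[(17,0),(4,0)]⟩⟩,⟨true,0,⟨0,[(37,0)]⟩,⟨0,[]⟩⟩,⟨false,1,⟨1,[(9,1),(5,0),(0,1),(2,1),(15,0)]⟩,⟨0,
  [(1,0),(6,0)]⟩⟩,⟨false,0,⟨0,[(33,0)]⟩,⟨0,[(32,0),(2,0)]⟩⟩,⟨false,1,⟨1,[(9,1),(5,0),(0,1),(2,1),
  (13,1),(1,0)]⟩,⟨0,[(1,0),(2,0)]⟩⟩,[.o ⟨false,0,⟨0,[(18,0),(14,0)]⟩,⟨15,[(4,7),(8,3),(0,2),(0,2),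
  (11,1),(7,7)]⟩⟩,.o ⟨false,1,⟨1,[(21,1),(5,0),(5,1),(1,0)]⟩,⟨0,[(8,0)]⟩⟩,.o ⟨false,1,⟨1,[(17,1),(9,
  0),(6,0)]⟩,⟨0,[(11,0),(4,0),(5,0)]⟩⟩,.a ⟨true,0,⟨0,[(17,0)]⟩,⟨0,[(16,0)]⟩⟩ ⟨false,0,⟨0,[(1,0),(8,
  0),(5,0),(1,0)]⟩,⟨1,[(15,0),(6,0),(0,0),(11,0)]⟩⟩ ⟨true,0,⟨0,[(16,0),(1,0),(14,0)]⟩,⟨0,[(8,0),(8,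
  0)]⟩⟩]⟩))) (.Q [0,0,0,0,0,-1,0,0,0,1,0,-1] (.p false [0,0,0,1] [1] (⟨0,[(15,0)]⟩,⟨0,[(14,0)]⟩) .k
  1 (⟨0,[]⟩,⟨0,[]⟩) .k .k) (.R ⟨1,false,false,true,[1,0,0,-1],[1,1,-1],[0,1,0,0,0,0,0,0,-1],(⟨0,
  [(15,0)]⟩,⟨0,[(16,0)]⟩),(⟨0,[(24,0),(3,0)]⟩,⟨0,[(6,0)]⟩),⟨0,[(0,0)]⟩,.k,.k,(.x (-1) ⟨3,[(13,0),(0,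
  0),(11,1),(0,3)]⟩ ⟨0,[(28,0)]⟩),(.r (-1) ⟨1,[(11,1),(1,0),(19,0)]⟩ ⟨0,[(1,0),(6,0),(7,0)]⟩),(.r
  (-1) ⟨0,[(2,0),(0,0),(1,0),(9,0),(1,0)]⟩ ⟨1,[(1,1),(6,1),(7,1),(4,0),(0,0),(9,1)]⟩),.k,⟨false,1,
  ⟨3,[(2,1),(0,1),(1,3),(7,0),(1,1),(1,1),(15,0)]⟩,⟨0,[(1,0),(6,0),(7,0)]⟩⟩,⟨true,0,⟨0,[(10,0),(4,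
  0)]⟩,⟨0,[(16,0),(4,0)]⟩⟩,⟨true,0,⟨0,[(36,0)]⟩,⟨0,[]⟩⟩,⟨false,0,⟨0,[(1,0),(18,0),(11,0)]⟩,⟨0,[(2,
  0),(4,0)]⟩⟩,⟨false,0,⟨0,[(32,0)]⟩,⟨0,[(31,0),(2,0)]⟩⟩,⟨false,0,⟨0,[(1,0),(18,0),(11,1)]⟩,⟨0,[(2,
  0),(0,0)]⟩⟩,[.o ⟨false,0,⟨0,[(17,0),(14,0)]⟩,⟨15,[(3,7),(8,3),(0,2),(0,2),(11,1),(7,7)]⟩⟩,.o
  ⟨false,1,⟨1,[(20,1),(5,0),(5,1),(1,0)]⟩,⟨0,[(7,0)]⟩⟩,.o ⟨false,1,⟨1,[(16,1),(9,0),(6,0)]⟩,⟨0,[(10,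
  0),(4,0),(5,0)]⟩⟩,.a ⟨true,0,⟨0,[(16,0)]⟩,⟨0,[(15,0)]⟩⟩ ⟨false,1,⟨1,[(13,0),(19,0)]⟩,⟨0,[(1,0),
  (14,0)]⟩⟩ ⟨true,0,⟨0,[(15,0),(1,0),(14,0)]⟩,⟨0,[(7,0),(8,0)]⟩⟩]⟩) (.R ⟨0,false,false,false,[1,0,0,
  -1],[0,1],[0,1,0,0,0,0,0,0,-1],(⟨0,[(15,0)]⟩,⟨0,[(16,0)]⟩),(⟨0,[(28,0)]⟩,⟨0,[(27,0)]⟩),⟨0,[(0,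
  0)]⟩,.k,.k,(.x (-1) ⟨3,[(13,0),(0,0),(11,1),(0,3)]⟩ ⟨0,[(28,0)]⟩),(.x (-1) ⟨3,[(13,0),(0,0),(11,
  1),(0,3)]⟩ ⟨0,[(28,0)]⟩),.k,.k,⟨false,1,⟨0,[(2,0),(0,0),(1,0),(2,0),(6,0),(1,0)]⟩,⟨0,[(1,0),(14,
  0),(15,0)]⟩⟩,⟨true,0,⟨0,[(15,0)]⟩,⟨0,[(10,0),(5,0),(4,0)]⟩⟩,⟨true,0,⟨0,[(36,0)]⟩,⟨0,[]⟩⟩,⟨false,0,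
  ⟨0,[(1,0),(13,0),(0,0),(15,0)]⟩,⟨0,[(2,0),(4,0),(9,0)]⟩⟩,⟨false,0,⟨0,[]⟩,⟨0,[]⟩⟩,⟨false,0,⟨0,[]⟩,
  ⟨0,[]⟩⟩,[.o ⟨false,0,⟨0,[(32,0)]⟩,⟨15,[(3,3),(0,3),(8,2),(0,2),(11,5),(4,3)]⟩⟩,.o ⟨false,1,⟨3,
  [(13,0),(0,0),(17,3),(1,1)]⟩,⟨0,[(7,0),(9,0)]⟩⟩,.o ⟨false,1,⟨1,[(16,1),(9,0),(6,0)]⟩,⟨0,[(10,0),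
  (4,0),(5,0)]⟩⟩,.a ⟨true,0,⟨0,[(16,0)]⟩,⟨0,[(15,0)]⟩⟩ ⟨false,1,⟨1,[(13,0),(19,0)]⟩,⟨0,[(1,0),(14,
  0)]⟩⟩ ⟨true,0,⟨0,[(15,0),(16,0)]⟩,⟨0,[(7,0),(8,0),(0,0)]⟩⟩]⟩))))))

theorem ok10 : chk (cU (-1) true 3) t10 r6 = true := by decide +kernel

noncomputable def t11 : Tre :=
  .I [1,0,1,0,0,0,0,-1] t9 t10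

theorem ok11 : chk (cU (-1) true 3) t11 r5 = true :=
  chk_I (e' := [0,0,-1,0,0,0,0,1]) (by decide +kernel) (by decide +kernel) ok9 ok10

noncomputable def t12 : Tre :=
  .Q [0,0,0,0,0,1,0,0,0,0,-1] (.ed true [1,-1,1] .k) t4 t11

theorem ok12 : chk (cU (-1) true 3) t12 r4 = true :=
  chk_Q (e' := [0,0,0,0,0,-1,0,0,0,0,1]) (by decide +kernel) (by decide +kernel) ok4 ok11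

noncomputable def t13 : Tre :=
  .Q [0,0,0,1,0,0,-1,-1,0,0,1] (.p true [0,0,1] [] (⟨0,[(17,0)]⟩,⟨0,[(16,0)]⟩) .k 0 (⟨0,[]⟩,⟨0,[]⟩)
  .k .k) t3 t12

theorem ok13 : chk (cU (-1) true 3) t13 l3 = true :=
  chk_Q (e' := [0,0,0,-1,0,0,1,1,0,0,-1]) (by decide +kernel) (by decide +kernel) ok3 ok12

noncomputable def l9 : List Con := (false, [0,0,0,1,0,0,-1,-1,0,0,1]) :: r3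

noncomputable def r9 : List Con := (false, [0,0,0,-1,0,0,1,1,0,0,-1]) :: r3

noncomputable def t14 : Tre :=
  (.R ⟨2,true,false,true,[0,1],[0,0,1],[0,0,1,1],(⟨0,[]⟩,⟨0,[]⟩),(⟨0,[(18,0)]⟩,⟨0,[(17,0)]⟩),⟨0,[]⟩,
  .k,.k,.k,.k,.k,.k,⟨false,1,⟨1,[(0,1),(13,1),(11,0),(0,0)]⟩,⟨0,[(1,0),(20,0)]⟩⟩,⟨true,0,⟨0,[(14,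
  0)]⟩,⟨0,[(0,0),(3,0)]⟩⟩,⟨false,1,⟨3,[(6,0),(0,0),(19,1)]⟩,⟨0,[]⟩⟩,⟨true,0,⟨0,[(2,0),(21,0)]⟩,⟨0,
  [(0,0)]⟩⟩,⟨true,0,⟨0,[(25,0)]⟩,⟨0,[(24,0)]⟩⟩,⟨false,0,⟨0,[(2,0)]⟩,⟨0,[(13,0),(13,0)]⟩⟩,[]⟩)

theorem ok14 : chk (cU (-1) true 3) t14 l9 = true := by decide +kernel

noncomputable def l10 : List Con := (false, [0,0,0,0,0,1,0,0,0,0,-1]) :: r9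

noncomputable def r10 : List Con := (false, [0,0,0,0,0,-1,0,0,0,0,1]) :: r9

noncomputable def t15 : Tre :=
  (.Q [0,0,-1,0,0,0,-1,0,0,1,1] (.p true [1,-1,1] [] (⟨0,[(19,0),(1,0)]⟩,⟨0,[(0,0)]⟩) .k 0 (⟨0,[]⟩,
  ⟨0,[]⟩) .k .k) (.R ⟨0,false,false,false,[0,1,-1],[0,1],[1,0,1,1],(⟨0,[(1,0)]⟩,⟨0,[(20,0),(1,0)]⟩),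
  (⟨0,[(23,0)]⟩,⟨0,[(22,0)]⟩),⟨0,[(20,0)]⟩,.k,.k,.k,.k,.k,.k,⟨true,0,⟨0,[]⟩,⟨1,[(16,0),(0,0)]⟩⟩,
  ⟨false,1,⟨0,[(16,0),(11,0)]⟩,⟨2,[(0,0),(4,0),(11,0)]⟩⟩,⟨false,0,⟨0,[(3,0),(23,0)]⟩,⟨1,[(15,1),(0,
  1),(11,0),(0,0)]⟩⟩,⟨true,0,⟨0,[(4,0)]⟩,⟨0,[(15,0)]⟩⟩,⟨false,0,⟨0,[]⟩,⟨0,[]⟩⟩,⟨false,0,⟨0,[]⟩,⟨0,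
  []⟩⟩,[.o ⟨false,0,⟨0,[(27,0)]⟩,⟨1,[(21,0),(4,1),(2,0)]⟩⟩,.o ⟨false,1,⟨3,[(8,0),(0,0),(17,3),(1,
  1)]⟩,⟨0,[(2,0),(9,0)]⟩⟩,.a ⟨true,0,⟨0,[(0,0)]⟩,⟨0,[(16,0)]⟩⟩ ⟨false,0,⟨0,[(25,0),(1,0)]⟩,⟨1,[(26,
  1),(1,0),(0,0)]⟩⟩ ⟨true,0,⟨0,[(16,0),(10,0)]⟩,⟨0,[(0,0),(1,0),(9,0)]⟩⟩,.o ⟨false,0,⟨2,[(0,0),(4,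
  0),(11,0)]⟩,⟨1,[(16,1),(4,0),(6,0)]⟩⟩]⟩) (.Q [0,0,0,1,0,0,-1,-1,0,1,1] (.p true [1,-1,1] [] (⟨0,
  [(20,0),(1,0)]⟩,⟨0,[(1,0)]⟩) .k 0 (⟨0,[]⟩,⟨0,[]⟩) .k .k) (.R ⟨2,false,false,false,[0,1],[0,1,-1],
  [1,1,1],(⟨0,[]⟩,⟨0,[]⟩),(⟨0,[(2,0)]⟩,⟨0,[(21,0),(1,0)]⟩),⟨0,[]⟩,.k,.k,.k,.k,.k,.k,⟨false,0,⟨0,[(4,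
  0),(20,0)]⟩,⟨1,[(0,1),(0,1),(27,0),(0,0)]⟩⟩,⟨true,0,⟨1,[(0,0),(5,0),(0,0)]⟩,⟨0,[(17,0)]⟩⟩,⟨true,0,
  ⟨0,[(27,0)]⟩,⟨0,[(28,0)]⟩⟩,⟨false,1,⟨0,[(16,0),(13,0)]⟩,⟨0,[(5,0)]⟩⟩,⟨false,0,⟨0,[]⟩,⟨3,[(9,0),(0,
  0),(19,1)]⟩⟩,⟨false,1,⟨1,[(0,1),(21,0),(7,0)]⟩,⟨0,[(3,0)]⟩⟩,[.a ⟨true,0,⟨0,[(0,0)]⟩,⟨0,[(3,0)]⟩⟩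
  ⟨false,0,⟨0,[(32,0)]⟩,⟨1,[(29,0),(0,0)]⟩⟩ ⟨true,0,⟨1,[(0,1),(0,0),(12,0)]⟩,⟨0,[(3,0)]⟩⟩,.o ⟨false,
  1,⟨1,[(0,1),(21,0),(7,0)]⟩,⟨1,[(1,0),(1,1),(2,0),(18,0)]⟩⟩,.o ⟨false,1,⟨3,[(9,0),(0,0),(18,1)]⟩,
  ⟨1,[(1,0),(12,0)]⟩⟩,.e ⟨false,0,⟨0,[]⟩,⟨3,[(9,0),(0,0),(19,1)]⟩⟩ ⟨false,1,⟨1,[(0,1),(21,0),(7,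
  0)]⟩,⟨0,[(3,0)]⟩⟩]⟩) (.Q [0,1,-1,0,0,0,0,0,-1,0,0,1] (.p true [0,0,0,1] [] (⟨0,[(12,0)]⟩,⟨0,[(11,
  0)]⟩) .k 0 (⟨0,[]⟩,⟨0,[]⟩) .k .k) (.Q [0,1,1,0,0,0,0,0,1,0,0,-1] (.p false [0,0,0,1] [] (⟨0,[(13,
  0)]⟩,⟨0,[(12,0)]⟩) .k 0 (⟨0,[]⟩,⟨0,[]⟩) .k .k) (.K ⟨0,[0,0,0,1],0,0,(⟨0,[(14,0)]⟩,⟨0,[(13,0)]⟩),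
  .k,(.x 0 ⟨0,[(16,0),(2,0),(5,0)]⟩ ⟨0,[(26,0),(4,0)]⟩),(.x 0 ⟨0,[(26,0)]⟩ ⟨3,[(11,0),(0,0),(11,1),
  (0,3)]⟩),.k,.k,[⟨0,[(14,0)]⟩,⟨0,[(13,0)]⟩,⟨0,[(1,0)]⟩,⟨0,[(0,0)]⟩]⟩) (.Q [0,1,1,0,0,0,0,0,1,1,0,
  -1] (.p false [0,0,0,1] [1] (⟨0,[(14,0)]⟩,⟨0,[(13,0)]⟩) .k 1 (⟨0,[]⟩,⟨0,[]⟩) .k .k) (.R ⟨0,false,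
  false,false,[0,0,1],[1,0,0,-1],[0,0,1,0,0,0,0,0,-1],(⟨0,[(24,0)]⟩,⟨0,[(23,0)]⟩),(⟨0,[(14,0)]⟩,⟨0,
  [(15,0)]⟩),⟨0,[(5,0)]⟩,.k,.k,.k,.k,.k,.k,⟨true,0,⟨1,[(20,0),(0,0)]⟩,⟨0,[]⟩⟩,⟨false,1,⟨0,[(9,0),(5,
  0),(16,0)]⟩,⟨0,[(14,0),(5,0)]⟩⟩,⟨false,0,⟨0,[(1,0),(12,0),(1,0),(3,0),(8,0)]⟩,⟨1,[(13,0),(8,1),(9,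
  0)]⟩⟩,⟨true,0,⟨0,[(1,0),(14,0)]⟩,⟨0,[(0,0),(7,0)]⟩⟩,⟨false,0,⟨0,[]⟩,⟨0,[]⟩⟩,⟨false,0,⟨0,[]⟩,⟨0,
  []⟩⟩,[.o ⟨false,0,⟨3,[(1,2),(0,0),(0,1),(12,1),(14,1)]⟩,⟨1,[(0,1),(24,0),(7,0)]⟩⟩,.a ⟨true,0,⟨0,
  [(1,0)]⟩,⟨0,[(0,0)]⟩⟩ ⟨false,0,⟨1,[(1,1),(2,0),(9,1),(2,0)]⟩,⟨7,[(12,0),(0,4),(14,3),(3,1)]⟩⟩
  ⟨true,0,⟨0,[(1,0),(7,0)]⟩,⟨0,[(0,0),(19,0)]⟩⟩,.o ⟨false,1,⟨3,[(12,0),(0,0),(6,3),(11,1)]⟩,⟨0,[(9,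
  0)]⟩⟩,.o ⟨false,0,⟨0,[(20,0)]⟩,⟨3,[(9,1),(11,1),(3,0),(6,2)]⟩⟩]⟩) (.Q [0,0,0,0,0,1,0,0,0,-1,0,1]
  (.p true [0,0,0,1] [1] (⟨0,[(15,0)]⟩,⟨0,[(14,0)]⟩) .k 1 (⟨0,[]⟩,⟨0,[]⟩) .k .k) (.R ⟨0,false,false,
  true,[1,0,0,-1],[0,1,-1],[0,1,0,0,0,0,0,0,-1],(⟨0,[(15,0)]⟩,⟨0,[(16,0)]⟩),(⟨0,[(6,0)]⟩,⟨0,[(25,0),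
  (1,0)]⟩),⟨0,[(0,0)]⟩,.k,.k,(.x (-1) ⟨3,[(13,0),(0,0),(11,1),(0,3)]⟩ ⟨0,[(28,0)]⟩),(.r 0 ⟨3,[(1,1),
  (1,1),(0,0),(5,0),(0,2),(3,3)]⟩ ⟨1,[(14,0),(5,1),(0,1),(10,1),(1,0)]⟩),.k,.k,⟨false,0,⟨0,[(1,0),
  (6,0),(6,0),(13,0)]⟩,⟨1,[(14,0),(5,1),(0,1),(10,1),(1,0)]⟩⟩,⟨true,0,⟨0,[(10,0),(4,1),(0,0)]⟩,⟨0,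
  [(5,0),(10,0)]⟩⟩,⟨true,0,⟨0,[(36,0)]⟩,⟨0,[]⟩⟩,⟨false,1,⟨1,[(14,0),(0,1),(4,1),(0,0),(0,0),(9,1),
  (1,0)]⟩,⟨0,[(1,0),(5,0)]⟩⟩,⟨false,0,⟨0,[]⟩,⟨0,[]⟩⟩,⟨false,0,⟨0,[]⟩,⟨0,[]⟩⟩,[.o ⟨false,0,⟨0,[(20,
  0),(11,0)]⟩,⟨1,[(7,1),(18,0),(7,0)]⟩⟩,.o ⟨false,1,⟨3,[(13,0),(0,0),(5,3),(11,3),(1,1)]⟩,⟨0,[(4,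
  0)]⟩⟩,.o ⟨false,1,⟨1,[(16,1),(9,0),(6,0)]⟩,⟨1,[(5,0),(9,1),(2,0)]⟩⟩,.a ⟨true,0,⟨0,[(16,0)]⟩,⟨0,
  [(15,0)]⟩⟩ ⟨false,0,⟨3,[(1,2),(1,0),(11,3),(1,0),(1,0)]⟩,⟨1,[(14,0),(6,0),(0,0),(11,0)]⟩⟩ ⟨true,0,
  ⟨0,[(15,0),(4,0),(11,0)]⟩,⟨0,[(4,0),(11,0)]⟩⟩]⟩) (.Q [0,0,-1,-2,0,0,0,0,-1,-1,0,1] (.p true [0,0,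
  0,1] [1] (⟨0,[(16,0)]⟩,⟨0,[(15,0)]⟩) .k 1 (⟨0,[]⟩,⟨0,[]⟩) .k .k) (.Q [0,0,-1,-1,0,0,-1,-1,-1,-1,1,
  1] (.p true [0,0,1] [1,0,0,-1] (⟨0,[(26,0)]⟩,⟨0,[(25,0)]⟩) .k 2 (⟨0,[(16,0)]⟩,⟨0,[(17,0)]⟩) .k
  (.r (-1) ⟨3,[(14,0),(0,2),(8,3)]⟩ ⟨0,[(2,0),(13,0),(4,0),(0,0)]⟩)) (.I [0,1,-2,-1,0,0,0,0,-1] (.R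
  ⟨1,false,false,false,[1,0,0,-1],[0,1],[0,1,0,0,0,0,0,0,-1],(⟨0,[(18,0)]⟩,⟨0,[(19,0)]⟩),(⟨0,[(31,
  0)]⟩,⟨0,[(30,0)]⟩),⟨0,[(3,0)]⟩,.k,.k,(.x (-1) ⟨3,[(16,0),(0,0),(11,1),(0,3)]⟩ ⟨0,[(31,0)]⟩),(.x
  (-1) ⟨3,[(16,0),(0,0),(11,1),(0,3)]⟩ ⟨0,[(31,0)]⟩),(.x 0 ⟨0,[(8,0),(4,0),(16,1)]⟩ ⟨3,[(16,0),(0,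
  0),(13,7),(4,1)]⟩),.k,⟨false,0,⟨0,[(0,0)]⟩,⟨1,[(17,0),(6,0),(0,0),(9,1),(1,0)]⟩⟩,⟨true,0,⟨0,[(18,
  0)]⟩,⟨1,[(8,0),(10,1),(1,0)]⟩⟩,⟨true,0,⟨0,[(39,0)]⟩,⟨0,[]⟩⟩,⟨false,1,⟨1,[(17,0),(0,1),(5,0),(0,0),
  (9,1),(1,0)]⟩,⟨8,[(2,3),(1,2),(1,1),(0,0),(12,0)]⟩⟩,⟨false,0,⟨0,[(35,0)]⟩,⟨0,[(34,0),(2,0)]⟩⟩,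
  ⟨false,1,⟨1,[(17,0),(0,1),(5,0),(0,0),(9,3),(1,0)]⟩,⟨0,[(2,0)]⟩⟩,[.o ⟨false,0,⟨0,[(35,0)]⟩,⟨1,
  [(29,0),(4,1),(2,0)]⟩⟩,.o ⟨false,1,⟨3,[(16,0),(0,0),(17,3),(1,1)]⟩,⟨1,[(7,0),(12,0),(13,0)]⟩⟩,.o
  ⟨false,1,⟨1,[(19,1),(9,0),(6,0)]⟩,⟨1,[(8,0),(9,1),(2,0)]⟩⟩,.a ⟨true,0,⟨0,[(19,0)]⟩,⟨0,[(18,0)]⟩⟩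
  ⟨false,0,⟨7,[(0,1),(3,3),(1,1),(1,0),(9,5),(2,0),(13,1)]⟩,⟨1,[(17,0),(6,0),(0,0),(11,0)]⟩⟩ ⟨true,
  0,⟨0,[(18,0),(16,0)]⟩,⟨1,[(7,0),(11,1),(0,0),(13,0)]⟩⟩]⟩) (.R ⟨1,false,false,true,[1,0,0,-1],[0,
  1],[1,0,0,-1,0,0,0,0,-1],(⟨0,[(18,0)]⟩,⟨0,[(19,0)]⟩),(⟨0,[(31,0)]⟩,⟨0,[(30,0)]⟩),⟨0,[(3,0)]⟩,.k,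
  .k,(.x (-1) ⟨3,[(16,0),(0,0),(11,1),(0,3)]⟩ ⟨0,[(31,0)]⟩),(.x (-1) ⟨3,[(16,0),(0,0),(11,1),(0,
  3)]⟩ ⟨0,[(31,0)]⟩),(.x 0 ⟨0,[(8,0),(4,0),(16,1)]⟩ ⟨3,[(16,0),(0,0),(13,7),(4,1)]⟩),.k,⟨false,1,⟨1,
  [(2,1),(15,1),(17,0),(0,0)]⟩,⟨0,[(0,0),(31,0),(2,0)]⟩⟩,⟨true,0,⟨0,[(18,0)]⟩,⟨1,[(8,0),(10,1),(1,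
  0)]⟩⟩,⟨false,1,⟨0,[(34,0),(2,0)]⟩,⟨0,[(35,0)]⟩⟩,⟨true,0,⟨0,[(0,0),(17,0),(13,0)]⟩,⟨8,[(2,3),(1,2),
  (1,1),(0,0),(12,0)]⟩⟩,⟨true,0,⟨0,[]⟩,⟨0,[(39,0)]⟩⟩,⟨true,0,⟨0,[(0,0),(17,0),(13,0),(2,0)]⟩,⟨0,[(2,
  0)]⟩⟩,[.o ⟨false,0,⟨0,[(35,0),(3,0)]⟩,⟨1,[(7,0),(12,0),(13,0),(2,1)]⟩⟩,.o ⟨false,0,⟨0,[(35,0)]⟩,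
  ⟨1,[(29,0),(4,1),(2,0)]⟩⟩,.o ⟨false,1,⟨1,[(19,1),(9,0),(6,0)]⟩,⟨1,[(8,0),(9,1),(2,0)]⟩⟩,.a ⟨true,
  0,⟨0,[(19,0)]⟩,⟨0,[(18,0)]⟩⟩ ⟨true,0,⟨8,[(2,3),(1,2),(1,1),(0,0),(10,8),(1,0)]⟩,⟨0,[(0,0),(31,
  0)]⟩⟩ ⟨false,0,⟨0,[(18,0),(16,0)]⟩,⟨5,[(0,1),(1,3),(13,0),(0,1),(1,1),(9,0),(7,1)]⟩⟩]⟩)) (.R ⟨1,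
  false,false,true,[1,0,0,-1],[0,1],[1,0,0,-1,0,0,0,0,-1],(⟨0,[(17,0)]⟩,⟨0,[(18,0)]⟩),(⟨0,[(30,0)]⟩,
  ⟨0,[(29,0)]⟩),⟨0,[(2,0)]⟩,.k,.k,(.x (-1) ⟨3,[(15,0),(0,0),(11,1),(0,3)]⟩ ⟨0,[(30,0)]⟩),(.x (-1)
  ⟨3,[(15,0),(0,0),(11,1),(0,3)]⟩ ⟨0,[(30,0)]⟩),(.r (-1) ⟨7,[(1,5),(13,0),(1,5),(15,3),(1,4),(0,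
  1)]⟩ ⟨0,[(0,0),(17,0),(0,0),(12,0),(1,0)]⟩),.k,⟨false,1,⟨1,[(1,1),(15,1),(17,0),(0,0)]⟩,⟨0,[(0,0),
  (17,0),(0,0),(14,0)]⟩⟩,⟨true,0,⟨0,[(17,0)]⟩,⟨1,[(7,0),(10,1),(1,0)]⟩⟩,⟨false,1,⟨0,[(33,0),(2,0)]⟩,
  ⟨0,[(34,0)]⟩⟩,⟨true,0,⟨0,[(0,0),(21,0)]⟩,⟨8,[(1,3),(1,2),(1,1),(0,0),(12,0)]⟩⟩,⟨true,0,⟨0,[]⟩,⟨0,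
  [(38,0)]⟩⟩,⟨true,0,⟨0,[(0,0),(21,0),(11,0)]⟩,⟨0,[(1,0)]⟩⟩,[.o ⟨false,0,⟨0,[(34,0),(3,0)]⟩,⟨1,[(6,
  0),(12,0),(13,0),(2,1)]⟩⟩,.o ⟨false,0,⟨0,[(34,0)]⟩,⟨1,[(28,0),(4,1),(2,0)]⟩⟩,.o ⟨false,1,⟨1,[(18,
  1),(9,0),(6,0)]⟩,⟨1,[(7,0),(9,1),(2,0)]⟩⟩,.a ⟨true,0,⟨0,[(18,0)]⟩,⟨0,[(17,0)]⟩⟩ ⟨true,0,⟨8,[(1,3),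
  (1,2),(1,1),(0,0),(10,8),(1,0)]⟩,⟨0,[(0,0),(17,0),(0,0)]⟩⟩ ⟨false,0,⟨0,[(17,0),(16,0)]⟩,⟨3,[(1,1),
  (14,0),(1,1),(4,0),(0,0),(3,0),(7,1)]⟩⟩]⟩)) (.R ⟨1,true,false,true,[1,0,0,-1],[0,1],[0,0,0,0,0,0,
  0,0,-1],(⟨0,[(16,0)]⟩,⟨0,[(17,0)]⟩),(⟨0,[(29,0)]⟩,⟨0,[(28,0)]⟩),⟨0,[(1,0)]⟩,.k,.k,(.x (-1) ⟨3,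
  [(14,0),(0,0),(11,1),(0,3)]⟩ ⟨0,[(29,0)]⟩),(.x (-1) ⟨3,[(14,0),(0,0),(11,1),(0,3)]⟩ ⟨0,[(29,0)]⟩),
  (.r (-1) ⟨1,[(2,1),(13,1),(15,3),(1,0),(0,0)]⟩ ⟨1,[(0,1),(5,0),(10,1),(1,0)]⟩),.k,⟨false,1,⟨1,[(2,
  1),(13,1),(15,1),(1,0),(0,0)]⟩,⟨1,[(0,1),(4,0),(11,1),(0,0),(13,0)]⟩⟩,⟨true,0,⟨0,[(16,0)]⟩,⟨1,[(6,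
  0),(10,1),(1,0)]⟩⟩,⟨false,1,⟨3,[(14,0),(0,0),(19,1)]⟩,⟨0,[]⟩⟩,⟨true,0,⟨0,[(0,0),(31,0)]⟩,⟨0,[(2,
  0),(29,0)]⟩⟩,⟨true,0,⟨0,[(33,0)]⟩,⟨0,[(32,0)]⟩⟩,⟨false,0,⟨0,[(0,0)]⟩,⟨0,[(2,0),(29,1),(2,0)]⟩⟩,
  []⟩))))) (.Q [0,1,1,0,-1,0,0,0,1,0,0,-1] (.p false [0,0,0,1] [] (⟨0,[(13,0)]⟩,⟨0,[(12,0)]⟩) .k 0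
  (⟨0,[]⟩,⟨0,[]⟩) .k .k) (.K ⟨0,[0,0,0,1],0,(-1),(⟨0,[(14,0)]⟩,⟨0,[(13,0)]⟩),.k,(.x 0 ⟨0,[(16,0),(2,
  0),(5,0)]⟩ ⟨0,[(26,0),(4,0)]⟩),(.x 0 ⟨0,[(26,0)]⟩ ⟨3,[(11,0),(0,0),(11,1),(0,3)]⟩),.k,.k,[⟨0,[(14,
  0)]⟩,⟨0,[(13,0)]⟩,⟨7,[(11,4),(0,0),(1,7),(12,3),(3,1)]⟩,⟨0,[(0,0)]⟩]⟩) (.Q [0,0,0,0,0,1,0,0,0,-1,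
  0,1] (.p true [0,0,0,1] [1] (⟨0,[(14,0)]⟩,⟨0,[(13,0)]⟩) .k 1 (⟨0,[]⟩,⟨0,[]⟩) .k .k) (.I [1,-1,-2,
  -1,1,0,0,1,-1] (.I [0,1,-2,-1,1,0,0,0,-1] (.R ⟨0,false,false,false,[1,0,0,-1],[0,1],[0,1,0,0,0,0,
  0,0,-1],(⟨0,[(16,0)]⟩,⟨0,[(17,0)]⟩),(⟨0,[(29,0)]⟩,⟨0,[(28,0)]⟩),⟨0,[(2,0)]⟩,.k,.k,(.x (-1) ⟨3,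
  [(14,0),(0,0),(11,1),(0,3)]⟩ ⟨0,[(29,0)]⟩),(.x (-1) ⟨3,[(14,0),(0,0),(11,1),(0,3)]⟩ ⟨0,[(29,0)]⟩),
  .k,.k,⟨false,1,⟨0,[(0,0)]⟩,⟨0,[(4,0),(12,0),(15,0)]⟩⟩,⟨true,0,⟨0,[(16,0)]⟩,⟨1,[(6,0),(10,1),(1,
  0)]⟩⟩,⟨true,0,⟨0,[(37,0)]⟩,⟨0,[]⟩⟩,⟨false,0,⟨0,[(4,0),(11,0),(0,0),(15,0)]⟩,⟨1,[(3,1),(1,0),(12,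
  0),(13,0)]⟩⟩,⟨false,0,⟨0,[]⟩,⟨0,[]⟩⟩,⟨false,0,⟨0,[]⟩,⟨0,[]⟩⟩,[.o ⟨false,0,⟨0,[(33,0)]⟩,⟨1,[(27,0),
  (4,1),(2,0)]⟩⟩,.o ⟨false,1,⟨3,[(14,0),(0,0),(17,3),(1,1)]⟩,⟨1,[(5,0),(12,0),(13,0)]⟩⟩,.o ⟨false,1,
  ⟨1,[(17,1),(9,0),(6,0)]⟩,⟨1,[(6,0),(9,1),(2,0)]⟩⟩,.a ⟨true,0,⟨0,[(17,0)]⟩,⟨0,[(16,0)]⟩⟩ ⟨false,1,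
  ⟨1,[(14,0),(19,0)]⟩,⟨0,[(4,0),(12,0)]⟩⟩ ⟨true,0,⟨0,[(16,0),(16,0)]⟩,⟨1,[(5,0),(11,1),(0,0),(13,
  0)]⟩⟩]⟩) (.R ⟨0,false,false,true,[1,0,0,-1],[0,1,-1],[0,1,0,0,0,0,0,0,-1],(⟨0,[(16,0)]⟩,⟨0,[(17,
  0)]⟩),(⟨0,[(7,0)]⟩,⟨0,[(26,0),(1,0)]⟩),⟨0,[(2,0)]⟩,.k,.k,(.x (-1) ⟨3,[(14,0),(0,0),(11,1),(0,3)]⟩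
  ⟨0,[(29,0)]⟩),(.r (-1) ⟨19,[(1,7),(10,11),(1,8),(0,2),(14,3)]⟩ ⟨0,[(0,0),(20,0),(0,0),(11,0)]⟩),
  .k,.k,⟨false,1,⟨19,[(1,15),(10,3),(1,2),(0,0),(14,7)]⟩,⟨0,[(0,0),(20,0),(0,0),(11,0)]⟩⟩,⟨true,0,
  ⟨1,[(0,0),(0,0),(14,1),(4,1),(2,0)]⟩,⟨0,[(6,0),(10,0)]⟩⟩,⟨true,0,⟨0,[(37,0)]⟩,⟨0,[]⟩⟩,⟨false,0,⟨3,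
  [(0,1),(14,0),(0,3),(4,3),(11,1),(1,0)]⟩,⟨0,[(3,0),(1,0)]⟩⟩,⟨false,0,⟨0,[]⟩,⟨0,[]⟩⟩,⟨false,0,⟨0,
  []⟩,⟨0,[]⟩⟩,[.o ⟨false,0,⟨0,[(21,0),(11,0)]⟩,⟨1,[(8,1),(18,0),(7,0)]⟩⟩,.o ⟨false,1,⟨3,[(14,0),(0,
  0),(5,3),(11,3),(1,1)]⟩,⟨0,[(5,0)]⟩⟩,.o ⟨false,1,⟨1,[(17,1),(9,0),(6,0)]⟩,⟨1,[(6,0),(9,1),(2,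
  0)]⟩⟩,.a ⟨true,0,⟨0,[(17,0)]⟩,⟨0,[(16,0)]⟩⟩ ⟨false,1,⟨1,[(14,0),(19,0)]⟩,⟨0,[(4,0),(12,0)]⟩⟩
  ⟨true,0,⟨0,[(16,0),(4,0),(11,0)]⟩,⟨0,[(5,0),(11,0)]⟩⟩]⟩)) (.I [0,0,-2,-1,1,0,0,1,-1] (.R ⟨0,false,
  false,true,[1,0,0,-1],[0,1,-1],[0,1,0,0,0,0,0,0,-1],(⟨0,[(16,0)]⟩,⟨0,[(17,0)]⟩),(⟨0,[(7,0)]⟩,⟨0,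
  [(26,0),(1,0)]⟩),⟨0,[(2,0)]⟩,.k,.k,(.x (-1) ⟨3,[(14,0),(0,0),(11,1),(0,3)]⟩ ⟨0,[(29,0)]⟩),(.r
  (-1) ⟨7,[(0,3),(11,3),(1,2),(0,0)]⟩ ⟨1,[(1,1),(32,0),(0,0)]⟩),.k,.k,⟨false,1,⟨0,[(0,0)]⟩,⟨1,[(1,
  1),(32,0),(0,0)]⟩⟩,⟨true,0,⟨0,[(11,0),(4,1),(0,0)]⟩,⟨0,[(6,0),(10,0)]⟩⟩,⟨true,0,⟨35,[(1,3),(12,2),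
  (0,0),(4,3),(2,3),(6,11),(1,3)]⟩,⟨0,[]⟩⟩,⟨false,0,⟨0,[(4,0),(11,0),(0,0),(3,0),(11,0)]⟩,⟨0,[(3,0),
  (1,0)]⟩⟩,⟨false,0,⟨0,[]⟩,⟨0,[]⟩⟩,⟨false,0,⟨0,[]⟩,⟨0,[]⟩⟩,[.o ⟨false,0,⟨0,[(21,0),(11,0)]⟩,⟨1,[(8,
  1),(18,0),(7,0)]⟩⟩,.o ⟨false,1,⟨3,[(14,0),(0,0),(5,3),(11,3),(1,1)]⟩,⟨0,[(5,0)]⟩⟩,.o ⟨false,1,⟨1,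
  [(17,1),(9,0),(6,0)]⟩,⟨1,[(6,0),(9,1),(2,0)]⟩⟩,.a ⟨true,0,⟨0,[(17,0)]⟩,⟨0,[(16,0)]⟩⟩ ⟨false,1,⟨1,
  [(14,0),(19,0)]⟩,⟨0,[(4,0),(12,0)]⟩⟩ ⟨true,0,⟨0,[(16,0),(4,0),(11,0)]⟩,⟨0,[(5,0),(11,0)]⟩⟩]⟩) (.R
  ⟨0,false,false,false,[1,0,0,-1],[0,1,-1],[1,0,2,1,0,0,0,-1],(⟨0,[(16,0)]⟩,⟨0,[(17,0)]⟩),(⟨0,[(7,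
  0)]⟩,⟨0,[(26,0),(1,0)]⟩),⟨0,[(2,0)]⟩,.k,.k,(.x (-1) ⟨3,[(14,0),(0,0),(11,1),(0,3)]⟩ ⟨0,[(29,0)]⟩),
  (.r (-1) ⟨1,[(12,1),(1,0),(19,0)]⟩ ⟨3,[(0,3),(13,0),(0,0),(18,1)]⟩),.k,.k,⟨false,0,⟨0,[]⟩,⟨3,[(14,
  0),(0,0),(18,1)]⟩⟩,⟨true,0,⟨0,[(11,0),(4,1),(0,0)]⟩,⟨0,[(6,0),(10,0)]⟩⟩,⟨true,(-1),⟨0,[(0,0)]⟩,⟨1,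
  [(9,1),(4,0),(15,1),(3,0)]⟩⟩,⟨false,0,⟨1,[(0,1),(10,1),(4,3),(0,1),(16,0),(0,0)]⟩,⟨9,[(3,7),(1,7),
  (8,0),(2,1),(2,1),(6,0),(2,1),(1,1)]⟩⟩,⟨false,0,⟨0,[]⟩,⟨0,[]⟩⟩,⟨false,0,⟨0,[]⟩,⟨0,[]⟩⟩,[.o ⟨false,
  1,⟨3,[(14,0),(0,0),(5,3),(11,3),(1,1)]⟩,⟨0,[(5,0)]⟩⟩,.o ⟨false,1,⟨0,[(21,0),(11,0),(1,0)]⟩,⟨3,[(5,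
  2),(12,0),(1,1),(11,0)]⟩⟩,.o ⟨false,1,⟨1,[(17,1),(9,0),(6,0)]⟩,⟨1,[(6,0),(9,1),(2,0)]⟩⟩,.a ⟨true,
  0,⟨0,[(17,0)]⟩,⟨0,[(16,0)]⟩⟩ ⟨true,0,⟨1,[(0,1),(13,0),(19,0)]⟩,⟨0,[(9,0),(20,0)]⟩⟩ ⟨false,1,⟨0,
  [(16,0),(4,0),(11,0),(1,0)]⟩,⟨0,[(5,0),(11,0)]⟩⟩]⟩))) (.I [0,0,-1,-1,1,0,0,-1,-1] (.R ⟨1,false,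
  false,false,[1,0,0,-1],[0,0,1],[0,0,0,0,0,0,0,0,-1],(⟨0,[(15,0)]⟩,⟨0,[(16,0)]⟩),(⟨0,[(25,0)]⟩,⟨0,
  [(24,0)]⟩),⟨0,[(1,0)]⟩,.k,.k,(.x (-1) ⟨3,[(13,0),(0,0),(11,1),(0,3)]⟩ ⟨0,[(28,0)]⟩),.k,(.r (-1)
  ⟨0,[(0,0)]⟩ ⟨2,[(3,2),(12,2),(2,0),(2,0),(0,1),(5,0),(2,2)]⟩),.k,⟨false,1,⟨0,[(0,0),(31,0)]⟩,⟨0,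
  [(3,0),(4,0),(7,0),(12,0),(2,0)]⟩⟩,⟨true,0,⟨0,[(15,0),(5,0)]⟩,⟨0,[(10,0),(5,0)]⟩⟩,⟨false,1,⟨3,
  [(13,0),(0,0),(19,1)]⟩,⟨0,[]⟩⟩,⟨false,0,⟨1,[(3,1),(8,0),(2,0),(0,0)]⟩,⟨0,[(2,0),(14,0)]⟩⟩,⟨true,0,
  ⟨0,[(32,0)]⟩,⟨0,[(31,0)]⟩⟩,⟨false,0,⟨1,[(3,1),(8,0),(2,0),(0,0),(15,1)]⟩,⟨0,[(0,0),(9,0),(5,0)]⟩⟩,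
  [.o ⟨false,0,⟨0,[(9,0)]⟩,⟨1,[(20,1),(5,0),(7,0)]⟩⟩,.o ⟨false,1,⟨7,[(12,3),(0,0),(0,0),(11,1),(7,
  3)]⟩,⟨0,[(17,0)]⟩⟩,.o ⟨false,1,⟨1,[(16,1),(9,0),(6,0)]⟩,⟨1,[(5,0),(9,1),(2,0)]⟩⟩,.a ⟨true,0,⟨0,
  [(16,0)]⟩,⟨0,[(15,0)]⟩⟩ ⟨false,1,⟨0,[(0,0),(7,0),(23,1)]⟩,⟨0,[(3,0),(12,0),(19,0)]⟩⟩ ⟨true,0,⟨0,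
  [(9,0),(5,0)]⟩,⟨0,[(16,0),(0,0)]⟩⟩]⟩) (.I [1,1,1,0,0,0,0,-1,-1] (.R ⟨1,false,false,false,[1,0,0,
  -1],[1,-1,1],[1,1,0,-1,0,0,0,0,-1],(⟨0,[(16,0)]⟩,⟨0,[(17,0)]⟩),(⟨0,[(26,0),(1,0)]⟩,⟨0,[(7,0)]⟩),
  ⟨0,[(2,0)]⟩,.k,.k,(.x (-1) ⟨3,[(14,0),(0,0),(11,1),(0,3)]⟩ ⟨0,[(29,0)]⟩),(.x (-1) ⟨0,[(11,0),(13,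
  0),(3,0),(4,0)]⟩ ⟨1,[(6,0),(12,0),(2,1),(3,1),(1,1)]⟩),.k,.k,⟨true,0,⟨0,[(0,0)]⟩,⟨1,[(1,0),(2,0),
  (4,0),(7,0),(16,0)]⟩⟩,⟨false,0,⟨0,[(6,0),(9,0)]⟩,⟨1,[(1,0),(1,0),(5,0),(7,0),(3,1),(12,1)]⟩⟩,
  ⟨true,0,⟨0,[(32,0)]⟩,⟨0,[(33,0)]⟩⟩,⟨false,0,⟨0,[(4,0),(3,0)]⟩,⟨0,[(3,0),(17,0),(11,0)]⟩⟩,⟨false,0,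
  ⟨0,[]⟩,⟨3,[(14,0),(0,0),(19,1)]⟩⟩,⟨false,0,⟨0,[(4,0),(5,0)]⟩,⟨0,[(3,0),(17,0)]⟩⟩,[.o ⟨false,0,⟨0,
  [(5,0)]⟩,⟨3,[(14,0),(0,0),(5,3),(11,3),(1,1)]⟩⟩,.o ⟨false,1,⟨1,[(8,1),(18,0),(7,0)]⟩,⟨0,[(21,0),
  (11,0)]⟩⟩,.o ⟨false,1,⟨1,[(17,1),(9,0),(6,0)]⟩,⟨1,[(6,0),(9,1),(2,0)]⟩⟩,.a ⟨true,0,⟨0,[(17,0)]⟩,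
  ⟨0,[(16,0)]⟩⟩ ⟨false,1,⟨0,[(0,0),(8,0),(24,0)]⟩,⟨0,[(4,0),(12,0),(15,0)]⟩⟩ ⟨true,0,⟨0,[(5,0),(10,
  0)]⟩,⟨0,[(17,0),(3,0),(11,0)]⟩⟩]⟩) (.Q [0,1,1,0,-1,0,0,0,1,1,0,-1] (.p false [0,0,0,1] [1] (⟨0,
  [(17,0)]⟩,⟨0,[(16,0)]⟩) .k 1 (⟨0,[]⟩,⟨0,[]⟩) .k .k) (.I [1,1,-1,0,0,0,0,0,1] (.R ⟨0,false,false,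
  false,[0,0,1],[1,0,0,-1],[0,0,1,0,0,0,0,0,-1],(⟨0,[(28,0)]⟩,⟨0,[(27,0)]⟩),(⟨0,[(18,0)]⟩,⟨0,[(19,
  0)]⟩),⟨0,[(9,0)]⟩,.k,.k,.k,.k,.k,.k,⟨true,0,⟨1,[(24,0),(0,0)]⟩,⟨0,[]⟩⟩,⟨false,1,⟨0,[(13,0),(5,0),
  (16,0)]⟩,⟨0,[(18,0),(5,0)]⟩⟩,⟨false,1,⟨0,[(5,0),(12,0),(1,0),(3,0),(8,0)]⟩,⟨10,[(2,7),(0,0),(10,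
  0),(2,0),(8,0),(5,3)]⟩⟩,⟨true,1,⟨0,[(5,0),(14,0)]⟩,⟨0,[(1,0),(10,0)]⟩⟩,⟨false,0,⟨0,[]⟩,⟨0,[]⟩⟩,
  ⟨false,0,⟨0,[]⟩,⟨0,[]⟩⟩,[.o ⟨false,1,⟨1,[(5,1),(2,0),(4,0),(18,0)]⟩,⟨7,[(1,3),(4,3),(9,0),(0,0),
  (11,1)]⟩⟩,.a ⟨true,1,⟨0,[(5,0)]⟩,⟨0,[(1,0)]⟩⟩ ⟨false,1,⟨1,[(16,0),(20,0)]⟩,⟨0,[(0,0)]⟩⟩ ⟨true,1,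
  ⟨0,[(5,0),(7,0)]⟩,⟨0,[(1,0),(22,0)]⟩⟩,.o ⟨false,1,⟨3,[(16,0),(0,0),(6,3),(11,1)]⟩,⟨0,[(13,0)]⟩⟩,
  .o ⟨false,0,⟨0,[(24,0)]⟩,⟨3,[(13,1),(11,1),(3,0),(6,2)]⟩⟩]⟩) (.K ⟨1,[1,0,0,-1],1,1,(⟨0,[(18,0)]⟩,
  ⟨0,[(19,0)]⟩),.k,(.x (-1) ⟨3,[(16,0),(0,0),(11,1),(0,3)]⟩ ⟨0,[(31,0)]⟩),(.r 0 ⟨3,[(0,2),(2,0),(12,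
  0),(6,0),(0,0),(7,0),(2,2)]⟩ ⟨0,[(6,0),(12,0),(14,0),(1,0)]⟩),.k,.k,[⟨0,[(0,0),(0,0)]⟩,⟨3,[(16,0),
  (0,0),(1,3),(9,1)]⟩,⟨0,[(1,0)]⟩,⟨0,[(5,0)]⟩]⟩)) (.Q [0,0,1,1,-1,0,1,1,1,1,-1,-1] (.p false [0,0,
  1] [1,0,0,-1] (⟨0,[(27,0)]⟩,⟨0,[(26,0)]⟩) .k 2 (⟨0,[(17,0)]⟩,⟨0,[(18,0)]⟩) .k (.r 0 ⟨10,[(1,1),(0,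
  2),(10,2),(2,2),(8,2),(5,0)]⟩ ⟨0,[(4,0),(12,0),(1,0),(3,0)]⟩)) (.R ⟨1,false,false,false,[1,0,0,
  -1],[0,0,1],[0,1],(⟨0,[(18,0)]⟩,⟨0,[(19,0)]⟩),(⟨0,[(28,0)]⟩,⟨0,[(27,0)]⟩),⟨0,[(4,0)]⟩,.k,.k,(.x
  (-1) ⟨3,[(16,0),(0,0),(11,1),(0,3)]⟩ ⟨0,[(31,0)]⟩),.k,(.r (-2) ⟨1,[(5,1),(12,1),(1,1),(3,1),(9,1),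
  (1,0),(0,0)]⟩ ⟨0,[(0,1),(0,0),(2,0),(6,0),(7,1),(0,1),(10,0)]⟩),.k,⟨false,1,⟨0,[(23,0),(0,0),(11,
  0)]⟩,⟨1,[(0,0),(4,0),(5,0),(1,0)]⟩⟩,⟨true,0,⟨0,[(18,0),(5,0)]⟩,⟨0,[(13,0),(5,0)]⟩⟩,⟨false,0,⟨0,
  [(2,0),(20,0),(0,0)]⟩,⟨1,[(16,0),(20,0)]⟩⟩,⟨false,0,⟨3,[(0,1),(10,1),(5,0),(0,1),(5,1),(12,0)]⟩,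
  ⟨0,[(5,0),(14,0)]⟩⟩,⟨false,0,⟨1,[(0,0),(5,0),(12,1),(0,0),(14,0),(0,0)]⟩,⟨0,[(1,0),(16,0),(14,0),
  (0,0)]⟩⟩,⟨true,(-1),⟨0,[(0,0)]⟩,⟨0,[(5,0),(14,0),(13,0)]⟩⟩,[.o ⟨false,0,⟨0,[(12,0)]⟩,⟨1,[(23,1),
  (5,0),(7,0)]⟩⟩,.o ⟨false,1,⟨7,[(15,3),(0,0),(0,0),(11,1),(7,3)]⟩,⟨0,[(20,0)]⟩⟩,.o ⟨false,1,⟨1,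
  [(19,1),(9,0),(6,0)]⟩,⟨1,[(8,0),(9,1),(2,0)]⟩⟩,.a ⟨true,0,⟨0,[(19,0)]⟩,⟨0,[(18,0)]⟩⟩ ⟨false,1,⟨3,
  [(16,0),(0,0),(18,1)]⟩,⟨0,[(33,0)]⟩⟩ ⟨true,0,⟨7,[(0,1),(6,1),(7,1),(0,0),(1,5),(17,0)]⟩,⟨0,[(19,
  0),(0,0)]⟩⟩]⟩) (.I [0,1,-2,-1,1,0,0,0,-1] (.R ⟨1,false,false,false,[1,0,0,-1],[0,1],[0,1,0,0,0,0,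
  0,0,-1],(⟨0,[(19,0)]⟩,⟨0,[(20,0)]⟩),(⟨0,[(32,0)]⟩,⟨0,[(31,0)]⟩),⟨0,[(5,0)]⟩,.k,.k,(.x (-1) ⟨3,
  [(17,0),(0,0),(11,1),(0,3)]⟩ ⟨0,[(32,0)]⟩),(.x (-1) ⟨3,[(17,0),(0,0),(11,1),(0,3)]⟩ ⟨0,[(32,0)]⟩),
  (.x 0 ⟨0,[(9,0),(4,0),(16,1)]⟩ ⟨3,[(17,0),(0,0),(13,7),(4,1)]⟩),.k,⟨false,1,⟨0,[(0,0)]⟩,⟨0,[(7,0),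
  (12,0),(15,0)]⟩⟩,⟨true,0,⟨0,[(19,0)]⟩,⟨1,[(9,0),(10,1),(1,0)]⟩⟩,⟨true,0,⟨0,[(40,0)]⟩,⟨0,[]⟩⟩,
  ⟨false,0,⟨0,[(7,0),(11,0),(0,0),(15,0)]⟩,⟨4,[(1,3),(0,0),(5,0),(7,0),(6,0)]⟩⟩,⟨false,0,⟨0,[(36,
  0)]⟩,⟨0,[(35,0),(2,0)]⟩⟩,⟨false,0,⟨0,[(7,0),(11,0),(0,0),(15,1)]⟩,⟨0,[(1,0),(9,0)]⟩⟩,[.o ⟨false,0,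
  ⟨0,[(36,0)]⟩,⟨1,[(30,0),(4,1),(2,0)]⟩⟩,.o ⟨false,1,⟨3,[(17,0),(0,0),(17,3),(1,1)]⟩,⟨1,[(8,0),(12,
  0),(13,0)]⟩⟩,.o ⟨false,1,⟨1,[(20,1),(9,0),(6,0)]⟩,⟨1,[(9,0),(9,1),(2,0)]⟩⟩,.a ⟨true,0,⟨0,[(20,
  0)]⟩,⟨0,[(19,0)]⟩⟩ ⟨false,1,⟨1,[(17,0),(19,0)]⟩,⟨0,[(7,0),(12,0)]⟩⟩ ⟨true,0,⟨0,[(19,0),(16,0)]⟩,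
  ⟨1,[(8,0),(11,1),(0,0),(13,0)]⟩⟩]⟩) (.R ⟨1,false,false,true,[1,0,0,-1],[0,1],[1,0,0,-1,0,0,0,0,
  -1],(⟨0,[(19,0)]⟩,⟨0,[(20,0)]⟩),(⟨0,[(32,0)]⟩,⟨0,[(31,0)]⟩),⟨0,[(5,0)]⟩,.k,.k,(.x (-1) ⟨3,[(17,0),
  (0,0),(11,1),(0,3)]⟩ ⟨0,[(32,0)]⟩),(.x (-1) ⟨3,[(17,0),(0,0),(11,1),(0,3)]⟩ ⟨0,[(32,0)]⟩),(.x 0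
  ⟨0,[(9,0),(4,0),(16,1)]⟩ ⟨3,[(17,0),(0,0),(13,7),(4,1)]⟩),.k,⟨false,2,⟨1,[(1,1),(9,1),(7,1),(17,
  0),(0,0)]⟩,⟨0,[(0,0),(32,0),(2,0)]⟩⟩,⟨true,0,⟨0,[(19,0)]⟩,⟨1,[(9,0),(10,1),(1,0)]⟩⟩,⟨false,1,⟨0,
  [(35,0),(2,0)]⟩,⟨0,[(36,0)]⟩⟩,⟨true,(-1),⟨0,[(0,0),(18,0),(13,0)]⟩,⟨4,[(1,3),(0,0),(5,0),(7,0),(6,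
  0)]⟩⟩,⟨true,0,⟨0,[]⟩,⟨0,[(40,0)]⟩⟩,⟨true,(-1),⟨0,[(0,0),(18,0),(13,0),(2,0)]⟩,⟨0,[(1,0),(9,0)]⟩⟩,
  [.o ⟨false,0,⟨0,[(36,0),(3,0)]⟩,⟨5,[(1,1),(5,1),(0,1),(21,0),(4,1),(2,2)]⟩⟩,.o ⟨false,0,⟨0,[(36,
  0)]⟩,⟨1,[(30,0),(4,1),(2,0)]⟩⟩,.o ⟨false,1,⟨1,[(20,1),(9,0),(6,0)]⟩,⟨1,[(9,0),(9,1),(2,0)]⟩⟩,.a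
  ⟨true,0,⟨0,[(20,0)]⟩,⟨0,[(19,0)]⟩⟩ ⟨true,1,⟨3,[(1,1),(9,1),(5,0),(1,1),(17,0)]⟩,⟨0,[(0,0),(32,
  0)]⟩⟩ ⟨false,0,⟨0,[(19,0),(16,0)]⟩,⟨3,[(1,1),(6,1),(9,0),(1,1),(13,1),(3,0)]⟩⟩]⟩)))))))))))

theorem ok15 : chk (cU (-1) true 3) t15 l10 = true := by decide +kernel

noncomputable def t16 : Tre :=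
  (.Q [0,0,0,2,0,0,-1,-1,0,0,1] (.p true [0,0,1] [] (⟨0,[(19,0)]⟩,⟨0,[(18,0)]⟩) .k 0 (⟨0,[]⟩,⟨0,
  []⟩) .k .k) (.I [1,-1,2,1,0,0,0,-1] (.R ⟨1,true,false,false,[0,0,1],[0,1],[0,1,0,0,0,0,0,1],(⟨0,
  [(21,0)]⟩,⟨0,[(20,0)]⟩),(⟨0,[(24,0)]⟩,⟨0,[(23,0)]⟩),⟨0,[(2,0)]⟩,.k,.k,.k,.k,(.r (-1) ⟨0,[(4,0),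
  (22,0),(1,0)]⟩ ⟨10,[(0,11),(0,4),(13,5),(2,0),(6,2)]⟩),.k,⟨true,0,⟨0,[(4,0),(20,0)]⟩,⟨0,[(0,0)]⟩⟩,
  ⟨false,1,⟨1,[(1,0),(2,0),(2,0),(8,0),(12,1)]⟩,⟨0,[(17,0)]⟩⟩,⟨true,0,⟨0,[(32,0)]⟩,⟨0,[]⟩⟩,⟨false,1,
  ⟨7,[(1,3),(7,0),(0,0),(5,3),(13,5)]⟩,⟨0,[(3,0)]⟩⟩,⟨false,0,⟨0,[(28,0)]⟩,⟨0,[(27,0),(2,0)]⟩⟩,⟨true,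
  0,⟨0,[(1,0)]⟩,⟨0,[(3,0),(23,0)]⟩⟩,[]⟩) (.R ⟨1,true,false,false,[0,0,1],[0,1],[1,1,0,-1,0,0,0,1],
  (⟨0,[(21,0)]⟩,⟨0,[(20,0)]⟩),(⟨0,[(24,0)]⟩,⟨0,[(23,0)]⟩),⟨0,[(2,0)]⟩,.k,.k,.k,.k,(.r (-1) ⟨0,[(0,
  0),(26,0),(2,0)]⟩ ⟨1,[(1,1),(15,2),(0,0)]⟩),.k,⟨true,0,⟨1,[(0,0),(3,0),(22,1)]⟩,⟨0,[(1,0),(15,0),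
  (8,0)]⟩⟩,⟨false,1,⟨5,[(0,3),(0,1),(14,1),(1,1),(10,2),(0,2)]⟩,⟨0,[(17,0)]⟩⟩,⟨true,0,⟨0,[(27,0)]⟩,
  ⟨0,[(28,0)]⟩⟩,⟨false,1,⟨7,[(1,3),(7,0),(0,0),(5,3),(13,5)]⟩,⟨0,[(3,0)]⟩⟩,⟨false,0,⟨0,[]⟩,⟨3,[(9,
  0),(0,0),(19,1)]⟩⟩,⟨true,0,⟨0,[(1,0)]⟩,⟨0,[(3,0),(23,0)]⟩⟩,[]⟩)) (.I [0,1,0,0,-1,0,0,1,-1] (.I [0,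
  1,-1,-1,0,0,0,0,-1] (.Q [0,1,1,0,0,0,0,0,1,0,0,-1] (.p false [0,0,0,1] [] (⟨0,[(13,0)]⟩,⟨0,[(12,
  0)]⟩) .k 0 (⟨0,[]⟩,⟨0,[]⟩) .k .k) (.K ⟨0,[0,0,0,1],0,0,(⟨0,[(14,0)]⟩,⟨0,[(13,0)]⟩),.k,(.x 0 ⟨0,
  [(16,0),(2,0),(5,0)]⟩ ⟨0,[(26,0),(4,0)]⟩),(.x 0 ⟨0,[(26,0)]⟩ ⟨3,[(11,0),(0,0),(11,1),(0,3)]⟩),.k,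
  .k,[⟨0,[(14,0)]⟩,⟨0,[(13,0)]⟩,⟨0,[(1,0),(12,0),(15,0)]⟩,⟨0,[(0,0)]⟩]⟩) (.Q [0,0,0,0,0,1,0,0,0,-1,
  0,1] (.p true [0,0,0,1] [1] (⟨0,[(14,0)]⟩,⟨0,[(13,0)]⟩) .k 1 (⟨0,[]⟩,⟨0,[]⟩) .k .k) (.R ⟨0,false,
  false,true,[1,0,0,-1],[0,0,1],[1,0,1],(⟨0,[(14,0)]⟩,⟨0,[(15,0)]⟩),(⟨0,[(24,0)]⟩,⟨0,[(23,0)]⟩),⟨0,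
  [(0,0)]⟩,.k,.k,(.x (-1) ⟨3,[(12,0),(0,0),(11,1),(0,3)]⟩ ⟨0,[(27,0)]⟩),.k,.k,.k,⟨false,1,⟨1,[(1,1),
  (11,0),(0,1),(1,1),(3,1),(12,0)]⟩,⟨1,[(3,1),(9,0),(18,0)]⟩⟩,⟨true,0,⟨0,[(14,0),(5,0)]⟩,⟨0,[(9,0),
  (5,0)]⟩⟩,⟨false,1,⟨1,[(13,0),(6,0),(0,0),(11,0)]⟩,⟨0,[(1,0),(6,0),(5,0),(1,0)]⟩⟩,⟨true,0,⟨0,[(3,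
  0),(9,0),(0,0),(5,0)]⟩,⟨0,[(1,0),(14,0)]⟩⟩,⟨false,0,⟨0,[]⟩,⟨0,[]⟩⟩,⟨false,0,⟨0,[]⟩,⟨0,[]⟩⟩,[.o
  ⟨false,0,⟨0,[(18,0)]⟩,⟨0,[(16,0),(16,0)]⟩⟩,.o ⟨false,0,⟨0,[(8,0)]⟩,⟨1,[(19,1),(5,0),(7,0)]⟩⟩,.o
  ⟨false,1,⟨1,[(15,1),(9,0),(6,0)]⟩,⟨0,[(9,0),(4,0),(5,0)]⟩⟩,.a ⟨true,0,⟨0,[(15,0)]⟩,⟨0,[(14,0)]⟩⟩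
  ⟨true,0,⟨0,[]⟩,⟨0,[(35,0)]⟩⟩ ⟨false,0,⟨0,[(8,0),(5,0)]⟩,⟨0,[(15,0),(0,0),(16,0)]⟩⟩]⟩) (.I [0,0,-1,
  0,0,0,0,1] (.R ⟨1,false,false,true,[1,0,0,-1],[1,1,-1],[0,1,0,0,0,0,0,0,-1],(⟨0,[(15,0)]⟩,⟨0,[(16,
  0)]⟩),(⟨0,[(24,0),(3,0)]⟩,⟨0,[(6,0)]⟩),⟨0,[(1,0)]⟩,.k,.k,(.x (-1) ⟨3,[(13,0),(0,0),(11,1),(0,3)]⟩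
  ⟨0,[(28,0)]⟩),(.r 0 ⟨2,[(0,0),(2,1),(0,0),(3,0),(25,0)]⟩ ⟨1,[(14,0),(5,1),(0,1),(10,1),(1,0)]⟩),
  (.r 0 ⟨0,[(0,0),(1,0),(2,0),(9,0),(1,0)]⟩ ⟨1,[(14,0),(5,1),(0,2),(0,0),(9,3),(1,0)]⟩),.k,⟨false,0,
  ⟨1,[(0,1),(1,1),(2,0),(3,0),(5,1),(1,1)]⟩,⟨1,[(14,0),(5,1),(0,1),(10,1),(1,0)]⟩⟩,⟨true,0,⟨0,[(10,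
  0),(4,0)]⟩,⟨0,[(16,0),(4,0)]⟩⟩,⟨true,0,⟨0,[(36,0)]⟩,⟨0,[]⟩⟩,⟨false,1,⟨1,[(14,0),(0,1),(1,1),(3,0),
  (0,0),(9,1),(1,0)]⟩,⟨1,[(2,1),(2,0),(3,0)]⟩⟩,⟨false,0,⟨0,[(32,0)]⟩,⟨0,[(31,0),(2,0)]⟩⟩,⟨false,1,
  ⟨1,[(14,0),(0,1),(1,1),(3,0),(0,0),(9,3),(1,0)]⟩,⟨0,[(2,0),(2,0)]⟩⟩,[.o ⟨false,0,⟨0,[(17,0),(14,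
  0)]⟩,⟨15,[(5,7),(6,3),(0,2),(0,2),(11,1),(7,7)]⟩⟩,.o ⟨false,1,⟨1,[(20,1),(5,0),(5,1),(1,0)]⟩,⟨0,
  [(7,0)]⟩⟩,.o ⟨false,1,⟨1,[(16,1),(9,0),(6,0)]⟩,⟨0,[(10,0),(4,0),(5,0)]⟩⟩,.a ⟨true,0,⟨0,[(16,0)]⟩,
  ⟨0,[(15,0)]⟩⟩ ⟨false,0,⟨0,[(2,0),(6,0),(5,0),(1,0)]⟩,⟨1,[(14,0),(6,0),(0,0),(11,0)]⟩⟩ ⟨true,0,⟨0,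
  [(15,0),(1,0),(14,0)]⟩,⟨1,[(5,0),(3,0),(6,1)]⟩⟩]⟩) (.R ⟨1,false,false,true,[1,0,0,-1],[0,1],[0,0,
  0,0,0,0,0,0,-1],(⟨0,[(15,0)]⟩,⟨0,[(16,0)]⟩),(⟨0,[(28,0)]⟩,⟨0,[(27,0)]⟩),⟨0,[(1,0)]⟩,.k,.k,(.x
  (-1) ⟨3,[(13,0),(0,0),(11,1),(0,3)]⟩ ⟨0,[(28,0)]⟩),(.x (-1) ⟨3,[(13,0),(0,0),(11,1),(0,3)]⟩ ⟨0,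
  [(28,0)]⟩),(.r (-1) ⟨5,[(2,1),(0,3),(1,3),(9,1),(1,1),(2,1),(12,2),(0,2)]⟩ ⟨0,[(0,0),(3,0),(9,0),
  (15,0),(1,1)]⟩),.k,⟨false,1,⟨3,[(2,3),(2,1),(9,3),(1,1),(8,0),(6,1),(0,0)]⟩,⟨0,[(0,0),(3,0),(9,0),
  (17,0)]⟩⟩,⟨true,0,⟨0,[(15,0)]⟩,⟨0,[(10,0),(5,0),(4,0)]⟩⟩,⟨false,1,⟨3,[(13,0),(0,0),(19,1)]⟩,⟨0,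
  []⟩⟩,⟨true,0,⟨0,[(0,0),(3,0),(9,0),(0,0),(16,0)]⟩,⟨1,[(2,1),(2,0),(3,0),(7,1)]⟩⟩,⟨true,0,⟨0,[(32,
  0)]⟩,⟨0,[(31,0)]⟩⟩,⟨true,0,⟨0,[(0,0),(3,0),(9,0),(0,0),(16,1)]⟩,⟨0,[(2,0),(2,0),(11,0)]⟩⟩,[.o
  ⟨false,0,⟨0,[(32,0),(3,0)]⟩,⟨3,[(5,1),(11,1),(8,0),(7,2)]⟩⟩,.o ⟨false,0,⟨0,[(32,0)]⟩,⟨1,[(26,0),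
  (4,1),(2,0)]⟩⟩,.o ⟨false,1,⟨1,[(16,1),(9,0),(6,0)]⟩,⟨0,[(10,0),(4,0),(5,0)]⟩⟩,.a ⟨true,0,⟨0,[(16,
  0)]⟩,⟨0,[(15,0)]⟩⟩ ⟨true,0,⟨0,[(2,0),(6,0),(5,0),(1,0)]⟩,⟨0,[(0,0),(3,0),(9,0)]⟩⟩ ⟨false,0,⟨0,
  [(15,0),(16,0)]⟩,⟨3,[(5,1),(10,3),(0,1),(8,0),(7,2)]⟩⟩]⟩)))) (.Q [0,1,-1,0,0,0,0,0,-1,0,0,1] (.p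
  true [0,0,0,1] [] (⟨0,[(13,0)]⟩,⟨0,[(12,0)]⟩) .k 0 (⟨0,[]⟩,⟨0,[]⟩) .k .k) (.K ⟨0,[0,0,0,1],0,0,
  (⟨0,[(14,0)]⟩,⟨0,[(13,0)]⟩),.k,(.r (-1) ⟨0,[(1,0),(1,0),(14,0),(12,0)]⟩ ⟨2,[(2,0),(8,0),(6,0),(0,
  0),(8,1),(1,2)]⟩),(.x 0 ⟨0,[(26,0)]⟩ ⟨3,[(11,0),(0,0),(11,1),(0,3)]⟩),.k,.k,[⟨0,[(14,0)]⟩,⟨0,[(13,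
  0)]⟩,⟨0,[(0,0)]⟩,⟨2,[(1,1),(0,0),(0,0),(8,0),(0,2),(1,2),(1,0),(1,0)]⟩]⟩) (.Q [0,-1,0,1,0,0,1,1,0,
  1,-1] (.p false [0,0,1] [1] (⟨0,[(23,0)]⟩,⟨0,[(22,0)]⟩) .k 1 (⟨0,[]⟩,⟨0,[]⟩) .k .k) (.R ⟨2,true,
  false,true,[0,1],[1,0,-1],[1,1,1],(⟨0,[]⟩,⟨0,[]⟩),(⟨0,[(23,0)]⟩,⟨0,[(24,0)]⟩),⟨0,[]⟩,.k,.k,.k,.k,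
  .k,.k,⟨true,(-1),⟨0,[(1,0),(1,0),(11,0)]⟩,⟨1,[(19,1),(0,1),(11,0),(0,0)]⟩⟩,⟨false,0,⟨0,[(9,0)]⟩,
  ⟨0,[(14,0),(0,0),(4,0),(11,0)]⟩⟩,⟨true,0,⟨0,[(30,0)]⟩,⟨0,[(31,0)]⟩⟩,⟨false,1,⟨0,[(16,0),(13,0),(2,
  0)]⟩,⟨0,[(0,0)]⟩⟩,⟨false,0,⟨0,[]⟩,⟨3,[(12,0),(0,0),(19,1)]⟩⟩,⟨true,0,⟨0,[(16,0)]⟩,⟨1,[(11,0),(2,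
  0),(0,0)]⟩⟩,[]⟩) (.Q [0,0,0,0,0,-1,0,0,0,1,-1] (.ed true [0,1,1] .k) (.I [0,0,-2,-2,2,0,0,-1] (.K
  ⟨2,[0,1,1],1,0,(⟨0,[(26,0),(2,0)]⟩,⟨0,[(1,0)]⟩),.k,.k,(.r 1 ⟨1,[(4,1),(0,1),(16,0),(0,0),(9,1)]⟩
  ⟨0,[(0,0)]⟩),.k,.k,[⟨0,[(33,0)]⟩,⟨0,[(2,0),(13,0),(0,0)]⟩,⟨0,[(3,0),(1,0),(11,0),(3,0),(9,0)]⟩,⟨3,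
  [(14,0),(0,0),(6,3),(11,1)]⟩]⟩) (.K ⟨2,[0,1,1],1,0,(⟨0,[(26,0),(2,0)]⟩,⟨0,[(1,0)]⟩),.k,.k,(.x
  (-2) ⟨3,[(14,0),(0,0),(6,3),(3,3),(2,7),(4,5)]⟩ ⟨33,[(0,20),(0,50),(0,30),(3,0),(0,16),(1,8),(9,
  3),(7,7),(3,21)]⟩),.k,.k,[⟨0,[(33,0)]⟩,⟨0,[(2,0),(13,0),(0,0)]⟩,⟨5,[(0,2),(5,1),(2,1),(11,6),(1,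
  0),(7,4)]⟩,⟨3,[(14,0),(0,0),(6,3),(11,1)]⟩]⟩)) (.I [0,0,-2,-2,2,0,0,-1] (.K ⟨2,[-1,1,1],1,0,(⟨0,
  [(1,0)]⟩,⟨0,[(25,0),(2,0)]⟩),.k,.k,(.r 1 ⟨1,[(4,1),(0,1),(16,0),(0,0),(9,1)]⟩ ⟨0,[(0,0)]⟩),.k,.k,
  [⟨0,[(16,0),(0,0),(15,0)]⟩,⟨0,[(2,0)]⟩,⟨0,[(2,0),(1,0),(0,0),(25,0)]⟩,⟨5,[(0,1),(12,0),(0,0),(0,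
  0),(0,4),(0,4),(4,3),(10,3)]⟩]⟩) (.K ⟨2,[-1,1,1],1,0,(⟨0,[(1,0)]⟩,⟨0,[(25,0),(2,0)]⟩),.k,.k,(.x
  (-2) ⟨3,[(14,0),(0,0),(6,3),(3,3),(2,7),(4,5)]⟩ ⟨5,[(0,11),(1,15),(3,3),(15,5),(2,5),(1,0),(0,11),
  (5,8),(0,7)]⟩),.k,.k,[⟨0,[(16,0),(0,0),(15,0)]⟩,⟨0,[(2,0)]⟩,⟨9,[(0,4),(1,6),(3,0),(2,0),(9,2),(3,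
  0),(7,5)]⟩,⟨3,[(14,0),(0,0),(0,3),(0,3),(4,3),(11,1)]⟩]⟩)))))) (.Q [0,0,0,0,0,-1,0,0,0,1,-1] (.ed
  true [0,1,1] .k) (.I [1,-1,-2,-2,2,0,0,0,-1] (.Q [0,0,2,0,-1,0,-1,0,0,0,1] (.p true [0,0,1] []
  (⟨0,[(23,0)]⟩,⟨0,[(22,0)]⟩) .k 0 (⟨0,[]⟩,⟨0,[]⟩) .k .k) (.Q [0,1,0,-1,0,0,-1,-1,0,0,1] (.p true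
  [0,0,1] [] (⟨0,[(24,0)]⟩,⟨0,[(23,0)]⟩) .k 0 (⟨0,[]⟩,⟨0,[]⟩) .k .k) (.I [0,0,-2,-2,2,0,0,-1] (.K
  ⟨2,[0,1,1],1,0,(⟨0,[(26,0),(2,0)]⟩,⟨0,[(4,0)]⟩),.k,.k,(.r 1 ⟨0,[(2,0),(7,0),(22,1)]⟩ ⟨0,[(0,0)]⟩),
  .k,.k,[⟨0,[(33,0)]⟩,⟨0,[(1,0)]⟩,⟨0,[(2,0)]⟩,⟨7,[(5,3),(7,1),(0,1),(7,3),(4,0),(2,1),(3,0)]⟩]⟩)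
  (.K ⟨2,[0,1,1],1,0,(⟨0,[(26,0),(2,0)]⟩,⟨0,[(4,0)]⟩),.k,.k,(.x (-2) ⟨7,[(5,3),(7,1),(0,1),(7,3),(3,
  7),(0,0),(1,15),(0,1),(3,8)]⟩ ⟨1,[(0,0),(3,2),(1,0),(0,0),(3,0),(6,1),(12,1)]⟩),.k,.k,[⟨0,[(33,
  0)]⟩,⟨0,[(1,0)]⟩,⟨0,[(2,0)]⟩,⟨7,[(5,3),(7,1),(0,1),(7,3),(4,0),(2,1),(3,0)]⟩]⟩)) (.I [1,0,1,0,-1,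
  0,0,1] (.R ⟨2,true,false,true,[0,1],[1,0,-1],[1,1,1],(⟨0,[]⟩,⟨0,[]⟩),(⟨0,[(25,0)]⟩,⟨0,[(26,0)]⟩),
  ⟨0,[]⟩,.k,.k,.k,.k,.k,.k,⟨true,(-1),⟨0,[(0,0)]⟩,⟨3,[(5,1),(8,0),(6,1),(0,1),(11,0)]⟩⟩,⟨false,0,⟨0,
  [(11,0)]⟩,⟨0,[(16,0),(0,0),(4,0),(11,0)]⟩⟩,⟨true,0,⟨0,[(32,0)]⟩,⟨0,[(33,0)]⟩⟩,⟨false,1,⟨4,[(2,1),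
  (0,1),(1,1),(12,2),(8,0),(4,0)]⟩,⟨0,[(1,0),(14,0),(0,0)]⟩⟩,⟨false,0,⟨0,[]⟩,⟨3,[(14,0),(0,0),(19,
  1)]⟩⟩,⟨true,0,⟨0,[(18,0)]⟩,⟨1,[(13,0),(2,0),(0,0)]⟩⟩,[]⟩) (.Q [0,1,-1,0,0,0,0,0,-1,0,0,1] (.p
  true [0,0,0,1] [] (⟨0,[(17,0)]⟩,⟨0,[(16,0)]⟩) .k 0 (⟨0,[]⟩,⟨0,[]⟩) .k .k) (.K ⟨0,[0,0,0,1],0,0,
  (⟨0,[(18,0)]⟩,⟨0,[(17,0)]⟩),.k,(.r (-1) ⟨0,[(6,0),(3,0),(20,0)]⟩ ⟨2,[(0,0),(1,0),(0,0),(11,0),(1,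
  0),(1,0),(3,0),(8,0),(1,1)]⟩),(.x 0 ⟨0,[(30,0)]⟩ ⟨3,[(15,0),(0,0),(11,1),(0,3)]⟩),.k,.k,[⟨0,[(18,
  0)]⟩,⟨0,[(17,0)]⟩,⟨0,[(0,0)]⟩,⟨3,[(2,3),(0,2),(2,1),(0,1),(8,0),(0,3),(1,3),(3,0),(7,2)]⟩]⟩) (.I
  [0,0,1,1,-1,0,0,1] (.R ⟨2,true,false,true,[0,1],[1,0,-1],[0,1,1,1],(⟨0,[]⟩,⟨0,[]⟩),(⟨0,[(27,0)]⟩,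
  ⟨0,[(28,0)]⟩),⟨0,[]⟩,.k,.k,.k,.k,.k,.k,⟨true,(-1),⟨0,[(0,0)]⟩,⟨3,[(2,1),(1,0),(0,0),(1,0),(0,0),
  (14,1),(0,1)]⟩⟩,⟨false,0,⟨0,[(13,0)]⟩,⟨1,[(2,1),(12,0),(2,0),(0,0)]⟩⟩,⟨true,0,⟨0,[(39,0)]⟩,⟨0,
  []⟩⟩,⟨false,1,⟨4,[(4,1),(0,1),(1,1),(12,2),(8,0),(4,0)]⟩,⟨0,[(3,0),(14,0),(0,0)]⟩⟩,⟨false,0,⟨0,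
  [(35,0)]⟩,⟨19,[(4,5),(0,7),(1,1),(0,1),(8,2),(6,3),(12,4)]⟩⟩,⟨true,0,⟨0,[(20,0)]⟩,⟨1,[(15,0),(2,
  0),(0,0)]⟩⟩,[]⟩) (.I [1,0,1,1,-1,0,0,1] (.N [0,1,1] 1 ⟨0,[(0,0)]⟩ ⟨0,[(1,0)]⟩ .k) (.Q [0,-1,-1,0,
  1,0,0,0,-1,0,0,1] (.p true [0,0,0,1] [] (⟨0,[(20,0)]⟩,⟨0,[(19,0)]⟩) .k 0 (⟨0,[]⟩,⟨0,[]⟩) .k .k)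
  (.Q [0,0,-1,-1,1,0,-1,-1,-1,-1,1,1] (.p true [0,0,1] [1,0,0,-1] (⟨0,[(30,0)]⟩,⟨0,[(29,0)]⟩) .k 2
  (⟨0,[(20,0)]⟩,⟨0,[(21,0)]⟩) .k (.r 0 ⟨1,[(3,1),(1,0),(0,0),(6,0),(7,1),(12,1),(3,0)]⟩ ⟨0,[(0,0),
  (19,0),(1,0),(3,0)]⟩)) (.Q [0,0,0,0,0,-1,0,0,0,1,0,-1] (.p false [0,0,0,1] [1] (⟨0,[(22,0)]⟩,⟨0,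
  [(21,0)]⟩) .k 1 (⟨0,[]⟩,⟨0,[]⟩) .k .k) (.I [0,1,-2,-1,1,0,0,0,-1] (.R ⟨1,false,false,false,[1,0,0,
  -1],[0,1],[0,1,0,0,0,0,0,0,-1],(⟨0,[(23,0)]⟩,⟨0,[(24,0)]⟩),(⟨0,[(36,0)]⟩,⟨0,[(35,0)]⟩),⟨0,[(1,
  0)]⟩,.k,.k,(.x (-1) ⟨3,[(21,0),(0,0),(11,1),(0,3)]⟩ ⟨0,[(36,0)]⟩),(.x (-1) ⟨3,[(21,0),(0,0),(11,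
  1),(0,3)]⟩ ⟨0,[(36,0)]⟩),(.x 0 ⟨6,[(8,1),(0,1),(1,6),(1,0),(0,6),(10,2),(3,1),(4,1),(3,0)]⟩ ⟨3,
  [(21,0),(0,0),(13,7),(4,1)]⟩),.k,⟨false,1,⟨0,[(0,0)]⟩,⟨0,[(6,0),(17,0),(15,0)]⟩⟩,⟨true,0,⟨0,[(23,
  0)]⟩,⟨6,[(8,1),(0,1),(3,0),(10,6),(0,2),(3,1),(4,1),(3,0)]⟩⟩,⟨true,0,⟨0,[(44,0)]⟩,⟨0,[]⟩⟩,⟨false,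
  0,⟨0,[(6,0),(16,0),(0,0),(15,0)]⟩,⟨0,[(2,0),(14,0)]⟩⟩,⟨false,0,⟨0,[(40,0)]⟩,⟨19,[(9,5),(0,7),(1,
  1),(0,1),(8,2),(6,3),(12,4)]⟩⟩,⟨false,0,⟨0,[(6,0),(16,0),(0,0),(15,1)]⟩,⟨1,[(2,1),(10,0),(3,0)]⟩⟩,
  [.o ⟨false,0,⟨0,[(40,0)]⟩,⟨53,[(4,3),(4,11),(0,13),(2,3),(8,6),(6,7),(4,26),(4,13)]⟩⟩,.o ⟨false,1,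
  ⟨3,[(21,0),(0,0),(17,3),(1,1)]⟩,⟨1,[(13,0),(3,0),(7,1)]⟩⟩,.o ⟨false,1,⟨1,[(24,1),(9,0),(6,0)]⟩,
  ⟨13,[(6,1),(1,3),(0,3),(3,1),(7,0),(1,11),(1,5),(3,3),(4,2)]⟩⟩,.a ⟨true,0,⟨0,[(24,0)]⟩,⟨0,[(23,
  0)]⟩⟩ ⟨false,1,⟨1,[(21,0),(19,0)]⟩,⟨0,[(6,0),(17,0)]⟩⟩ ⟨true,0,⟨0,[(23,0),(16,0)]⟩,⟨1,[(13,0),(3,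
  0),(6,1),(0,1)]⟩⟩]⟩) (.R ⟨1,false,false,true,[1,0,0,-1],[0,1],[1,0,0,-1,0,0,0,0,-1],(⟨0,[(23,0)]⟩,
  ⟨0,[(24,0)]⟩),(⟨0,[(36,0)]⟩,⟨0,[(35,0)]⟩),⟨0,[(1,0)]⟩,.k,.k,(.x (-1) ⟨3,[(21,0),(0,0),(11,1),(0,
  3)]⟩ ⟨0,[(36,0)]⟩),(.x (-1) ⟨3,[(21,0),(0,0),(11,1),(0,3)]⟩ ⟨0,[(36,0)]⟩),(.x 0 ⟨28,[(0,1),(0,1),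
  (0,1),(5,7),(0,8),(1,27),(1,3),(0,27),(10,9),(3,8),(4,8)]⟩ ⟨3,[(21,0),(0,0),(13,7),(4,1)]⟩),.k,
  ⟨false,2,⟨0,[(10,0)]⟩,⟨0,[(0,0),(36,0),(2,0)]⟩⟩,⟨true,0,⟨0,[(23,0)]⟩,⟨15,[(0,0),(1,0),(5,3),(0,4),
  (3,1),(10,14),(0,4),(3,4),(4,4)]⟩⟩,⟨false,1,⟨19,[(9,5),(0,7),(1,1),(0,1),(8,2),(6,3),(12,4)]⟩,⟨0,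
  [(40,0)]⟩⟩,⟨true,(-1),⟨0,[(0,0),(22,0),(13,0)]⟩,⟨0,[(2,0),(14,0)]⟩⟩,⟨true,0,⟨0,[]⟩,⟨0,[(44,0)]⟩⟩,
  ⟨true,(-1),⟨0,[(0,0),(22,0),(13,0),(2,0)]⟩,⟨1,[(2,1),(10,0),(3,0)]⟩⟩,[.o ⟨false,0,⟨0,[(40,0),(3,
  0)]⟩,⟨2,[(2,0),(3,0),(6,0),(20,0),(7,0)]⟩⟩,.o ⟨false,0,⟨0,[(40,0)]⟩,⟨53,[(4,3),(4,11),(0,13),(2,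
  3),(8,6),(6,7),(4,26),(4,13)]⟩⟩,.o ⟨false,1,⟨1,[(24,1),(9,0),(6,0)]⟩,⟨13,[(6,1),(1,3),(0,3),(3,1),
  (7,0),(1,11),(1,5),(3,3),(4,2)]⟩⟩,.a ⟨true,0,⟨0,[(24,0)]⟩,⟨0,[(23,0)]⟩⟩ ⟨true,1,⟨2,[(2,0),(10,0),
  (7,0),(1,0),(17,0)]⟩,⟨0,[(0,0),(36,0)]⟩⟩ ⟨false,0,⟨0,[(23,0),(16,0)]⟩,⟨9,[(0,1),(1,3),(10,3),(8,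
  0),(1,5),(9,2),(7,3)]⟩⟩]⟩)) (.I [1,0,0,0,0,0,0,0,-1] (.R ⟨0,false,false,false,[1,0,0,-1],[0,1],[0,
  1],(⟨0,[(23,0)]⟩,⟨0,[(24,0)]⟩),(⟨0,[(36,0)]⟩,⟨0,[(35,0)]⟩),⟨0,[(1,0)]⟩,.k,.k,(.x (-1) ⟨3,[(21,0),
  (0,0),(11,1),(0,3)]⟩ ⟨0,[(36,0)]⟩),(.x (-1) ⟨3,[(21,0),(0,0),(11,1),(0,3)]⟩ ⟨0,[(36,0)]⟩),.k,.k,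
  ⟨false,1,⟨1,[(4,0),(14,0),(17,0),(3,0)]⟩,⟨0,[(38,0),(1,0)]⟩⟩,⟨true,0,⟨0,[(23,0)]⟩,⟨2,[(1,1),(7,0),
  (1,0),(2,0),(9,0),(4,0),(4,0)]⟩⟩,⟨true,0,⟨0,[(6,0),(17,0),(12,0)]⟩,⟨0,[(0,0)]⟩⟩,⟨false,0,⟨0,[(6,
  0),(16,0),(0,0),(15,0)]⟩,⟨0,[(2,0),(14,0)]⟩⟩,⟨false,0,⟨0,[]⟩,⟨0,[]⟩⟩,⟨false,0,⟨0,[]⟩,⟨0,[]⟩⟩,[.o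
  ⟨false,0,⟨0,[(40,0)]⟩,⟨53,[(4,3),(4,11),(0,13),(2,3),(8,6),(6,7),(4,26),(4,13)]⟩⟩,.o ⟨false,1,⟨3,
  [(21,0),(0,0),(17,3),(1,1)]⟩,⟨1,[(13,0),(3,0),(7,1)]⟩⟩,.o ⟨false,1,⟨1,[(24,1),(9,0),(6,0)]⟩,⟨4,
  [(0,1),(5,1),(2,0),(13,2),(1,0),(1,0),(1,0),(4,0)]⟩⟩,.a ⟨true,0,⟨0,[(24,0)]⟩,⟨0,[(23,0)]⟩⟩ ⟨false,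
  1,⟨3,[(21,0),(0,0),(18,1)]⟩,⟨0,[(38,0)]⟩⟩ ⟨true,0,⟨0,[(23,0),(16,0)]⟩,⟨1,[(13,0),(3,0),(6,1),(0,
  1)]⟩⟩]⟩) (.I [1,0,1,0,0,0,0,-1,1] (.R ⟨0,false,false,true,[1,0,0,-1],[1,1,-1],[0,1,0,0,0,0,0,0,
  -1],(⟨0,[(24,0)]⟩,⟨0,[(25,0)]⟩),(⟨0,[(33,0),(3,0)]⟩,⟨0,[(15,0)]⟩),⟨0,[(2,0)]⟩,.k,.k,(.x (-1) ⟨3,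
  [(22,0),(0,0),(11,1),(0,3)]⟩ ⟨0,[(37,0)]⟩),(.r (-1) ⟨1,[(20,1),(1,0),(19,0)]⟩ ⟨0,[(0,0),(40,0)]⟩),
  .k,.k,⟨false,1,⟨0,[(3,0),(5,0),(7,0),(6,0),(13,0)]⟩,⟨0,[(0,0),(40,0)]⟩⟩,⟨true,0,⟨0,[(19,0),(4,
  0)]⟩,⟨0,[(25,0),(4,0)]⟩⟩,⟨true,0,⟨0,[(45,0)]⟩,⟨0,[]⟩⟩,⟨false,0,⟨0,[(7,0),(21,0),(11,0)]⟩,⟨1,[(4,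
  1),(9,0),(3,0)]⟩⟩,⟨false,0,⟨0,[]⟩,⟨0,[]⟩⟩,⟨false,0,⟨0,[]⟩,⟨0,[]⟩⟩,[.o ⟨false,0,⟨0,[(26,0),(14,
  0)]⟩,⟨15,[(14,7),(6,3),(0,2),(0,2),(11,1),(7,7)]⟩⟩,.o ⟨false,1,⟨3,[(8,1),(17,1),(4,1),(3,0),(5,3),
  (1,0)]⟩,⟨0,[(16,0)]⟩⟩,.o ⟨false,1,⟨1,[(25,1),(9,0),(6,0)]⟩,⟨13,[(7,1),(1,3),(0,3),(3,1),(7,0),(1,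
  11),(1,5),(3,3),(4,2)]⟩⟩,.a ⟨true,0,⟨0,[(25,0)]⟩,⟨0,[(24,0)]⟩⟩ ⟨false,1,⟨1,[(22,0),(19,0)]⟩,⟨3,
  [(0,1),(0,1),(7,0),(0,0),(6,0),(25,0)]⟩⟩ ⟨true,0,⟨0,[(24,0),(1,0),(14,0)]⟩,⟨1,[(14,0),(3,0),(6,
  1)]⟩⟩]⟩) (.R ⟨0,false,false,false,[1,0,0,-1],[0,0,1],[],(⟨0,[(24,0)]⟩,⟨0,[(25,0)]⟩),(⟨0,[(34,0)]⟩,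
  ⟨0,[(33,0)]⟩),⟨0,[(2,0)]⟩,.k,.k,(.x (-1) ⟨3,[(22,0),(0,0),(11,1),(0,3)]⟩ ⟨0,[(37,0)]⟩),.k,.k,.k,
  ⟨false,1,⟨0,[(8,0)]⟩,⟨0,[(32,0)]⟩⟩,⟨true,0,⟨0,[(24,0),(5,0)]⟩,⟨0,[(19,0),(5,0)]⟩⟩,⟨true,0,⟨0,[(1,
  0)]⟩,⟨0,[(0,0),(28,0),(0,0)]⟩⟩,⟨false,0,⟨1,[(7,1),(13,0),(2,0),(0,0)]⟩,⟨0,[(3,0),(37,0)]⟩⟩,⟨false,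
  0,⟨0,[]⟩,⟨0,[]⟩⟩,⟨false,0,⟨0,[]⟩,⟨0,[]⟩⟩,[.o ⟨false,0,⟨0,[(18,0)]⟩,⟨3,[(8,1),(17,1),(4,1),(3,0),
  (7,0)]⟩⟩,.o ⟨false,1,⟨7,[(21,3),(0,0),(0,0),(11,1),(7,3)]⟩,⟨0,[(26,0)]⟩⟩,.o ⟨false,1,⟨1,[(25,1),
  (9,0),(6,0)]⟩,⟨3,[(0,0),(6,0),(2,0),(13,2),(1,0),(3,1),(4,0)]⟩⟩,.a ⟨true,0,⟨0,[(25,0)]⟩,⟨0,[(24,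
  0)]⟩⟩ ⟨false,1,⟨1,[(42,0),(0,0)]⟩,⟨5,[(10,1),(11,0),(0,0),(6,1)]⟩⟩ ⟨true,0,⟨0,[(18,0),(5,0)]⟩,⟨0,
  [(25,0),(0,0)]⟩⟩]⟩)))) (.I [0,0,-1,0,0,0,0,1] (.R ⟨1,true,false,true,[1,0,-1],[0,0,0,1],[1,0,0,-1,
  0,0,0,-1],(⟨0,[(31,0)]⟩,⟨0,[(32,0)]⟩),(⟨0,[(23,0)]⟩,⟨0,[(22,0)]⟩),⟨0,[(10,0)]⟩,.k,.k,.k,.k,(.r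
  (-2) ⟨3,[(3,3),(16,2),(0,0)]⟩ ⟨0,[(1,0),(15,0),(5,0)]⟩),.k,⟨false,2,⟨1,[(3,1),(16,0),(20,0)]⟩,⟨0,
  [(0,0),(0,0),(21,0),(0,0)]⟩⟩,⟨true,0,⟨0,[(22,0),(5,0)]⟩,⟨0,[(17,0),(5,0)]⟩⟩,⟨false,1,⟨19,[(8,5),
  (0,7),(1,1),(0,1),(8,2),(6,3),(12,4)]⟩,⟨0,[(39,0)]⟩⟩,⟨true,(-1),⟨0,[(1,0),(36,0)]⟩,⟨0,[(2,0),(21,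
  0)]⟩⟩,⟨true,0,⟨0,[]⟩,⟨0,[(43,0)]⟩⟩,⟨false,(-1),⟨0,[(1,0)]⟩,⟨7,[(2,6),(0,1),(4,2),(0,2),(1,1),(11,
  0),(0,3),(4,0),(3,1)]⟩⟩,[]⟩) (.Q [0,1,1,0,-1,0,0,0,1,1,0,-1] (.p false [0,0,0,1] [1] (⟨0,[(23,
  0)]⟩,⟨0,[(22,0)]⟩) .k 1 (⟨0,[]⟩,⟨0,[]⟩) .k .k) (.R ⟨1,false,false,true,[1,0,-1],[0,0,0,1],[0,1],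
  (⟨0,[(32,0)]⟩,⟨0,[(33,0)]⟩),(⟨0,[(24,0)]⟩,⟨0,[(23,0)]⟩),⟨0,[(11,0)]⟩,.k,.k,.k,.k,(.r (-2) ⟨3,[(4,
  3),(16,2),(0,0)]⟩ ⟨0,[(2,0),(15,0),(5,0)]⟩),.k,⟨false,1,⟨1,[(21,0),(19,0)]⟩,⟨3,[(2,2),(1,0),(7,0),
  (3,1),(7,2),(0,2),(15,0)]⟩⟩,⟨true,0,⟨0,[(23,0),(5,0)]⟩,⟨0,[(18,0),(5,0)]⟩⟩,⟨false,0,⟨0,[(31,0)]⟩,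
  ⟨1,[(1,0),(5,0),(34,0)]⟩⟩,⟨true,(-1),⟨4,[(0,2),(1,1),(10,0),(13,1)]⟩,⟨0,[(3,0),(21,0)]⟩⟩,⟨false,0,
  ⟨0,[(31,0),(8,0)]⟩,⟨0,[(4,0),(33,0)]⟩⟩,⟨false,(-1),⟨0,[(2,0)]⟩,⟨7,[(3,6),(0,1),(4,2),(0,2),(1,1),
  (11,0),(0,3),(4,0),(3,1)]⟩⟩,[.a ⟨true,(-1),⟨0,[(0,0)]⟩,⟨0,[(3,0)]⟩⟩ ⟨true,0,⟨0,[(44,0)]⟩,⟨0,[(38,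
  0)]⟩⟩ ⟨false,0,⟨1,[(0,0),(1,0),(1,0),(2,0),(19,0)]⟩,⟨0,[(3,0),(14,0)]⟩⟩,.o ⟨false,0,⟨7,[(0,3),(5,
  3),(14,0),(0,0),(11,1)]⟩,⟨0,[(3,0),(13,0),(7,0)]⟩⟩,.o ⟨false,0,⟨0,[(18,0)]⟩,⟨15,[(7,7),(12,3),(0,
  2),(0,2),(6,7),(4,1)]⟩⟩,.o ⟨false,0,⟨0,[(26,0)]⟩,⟨0,[(7,0),(9,0)]⟩⟩]⟩) (.R ⟨1,true,false,false,[1,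
  0,-1],[0,0,0,1],[0,1,0,0,0,0,0,-1],(⟨0,[(32,0)]⟩,⟨0,[(33,0)]⟩),(⟨0,[(24,0)]⟩,⟨0,[(23,0)]⟩),⟨0,
  [(11,0)]⟩,.k,.k,.k,.k,(.r (-2) ⟨3,[(4,3),(16,2),(0,0)]⟩ ⟨0,[(2,0),(15,0),(5,0)]⟩),.k,⟨false,1,⟨0,
  [(0,0),(0,0),(21,0),(13,0)]⟩,⟨2,[(2,1),(9,0),(3,1),(1,1),(5,1),(16,0)]⟩⟩,⟨true,0,⟨0,[(23,0),(5,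
  0)]⟩,⟨0,[(18,0),(5,0)]⟩⟩,⟨true,0,⟨0,[(44,0)]⟩,⟨0,[]⟩⟩,⟨false,0,⟨11,[(2,3),(3,3),(2,1),(2,1),(0,1),
  (6,3),(1,0),(0,3),(18,2)]⟩,⟨0,[(0,0),(27,0)]⟩⟩,⟨false,0,⟨0,[(40,0)]⟩,⟨19,[(9,5),(0,7),(1,1),(0,1),
  (8,2),(6,3),(12,4)]⟩⟩,⟨true,(-1),⟨0,[(2,0)]⟩,⟨0,[(3,0),(21,0),(13,0)]⟩⟩,[]⟩)))) (.K ⟨0,[0,0,0,1],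
  0,(-1),(⟨0,[(21,0)]⟩,⟨0,[(20,0)]⟩),.k,(.x 0 ⟨11,[(6,7),(11,0),(0,0),(6,7),(4,5),(0,11)]⟩ ⟨0,[(33,
  0),(4,0)]⟩),(.x 0 ⟨0,[(33,0)]⟩ ⟨3,[(18,0),(0,0),(11,1),(0,3)]⟩),.k,.k,[⟨0,[(21,0)]⟩,⟨0,[(20,0)]⟩,
  ⟨7,[(18,4),(0,0),(1,7),(12,3),(3,1)]⟩,⟨0,[(0,0)]⟩]⟩))))))) (.Q [0,1,-1,0,0,0,0,0,-1,0,0,1] (.p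
  true [0,0,0,1] [] (⟨0,[(15,0)]⟩,⟨0,[(14,0)]⟩) .k 0 (⟨0,[]⟩,⟨0,[]⟩) .k .k) (.Q [0,1,1,0,0,0,0,0,1,
  0,0,-1] (.p false [0,0,0,1] [] (⟨0,[(16,0)]⟩,⟨0,[(15,0)]⟩) .k 0 (⟨0,[]⟩,⟨0,[]⟩) .k .k) (.K ⟨0,[0,
  0,0,1],0,0,(⟨0,[(17,0)]⟩,⟨0,[(16,0)]⟩),.k,(.r (-1) ⟨0,[(5,0),(3,0),(20,0)]⟩ ⟨0,[(1,0),(9,0),(4,0),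
  (5,0),(8,0),(1,0)]⟩),(.x 0 ⟨0,[(29,0)]⟩ ⟨3,[(14,0),(0,0),(11,1),(0,3)]⟩),.k,.k,[⟨0,[(17,0)]⟩,⟨0,
  [(16,0)]⟩,⟨0,[(1,0)]⟩,⟨0,[(0,0)]⟩]⟩) (.Q [0,0,0,0,0,1,0,0,0,-1,0,1] (.p true [0,0,0,1] [1] (⟨0,
  [(17,0)]⟩,⟨0,[(16,0)]⟩) .k 1 (⟨0,[]⟩,⟨0,[]⟩) .k .k) (.I [0,1,0,1,0,0,0,1,1] (.Q [0,1,1,1,0,0,0,0,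
  1,1,0,-1] (.p false [0,0,0,1] [1] (⟨0,[(19,0)]⟩,⟨0,[(18,0)]⟩) .k 1 (⟨0,[]⟩,⟨0,[]⟩) .k .k) (.R ⟨0,
  false,false,true,[1,0,0,-1],[0,1],[1,0,1],(⟨0,[(19,0)]⟩,⟨0,[(20,0)]⟩),(⟨0,[(32,0)]⟩,⟨0,[(31,0)]⟩),
  ⟨0,[(2,0)]⟩,.k,.k,(.x (-1) ⟨3,[(17,0),(0,0),(11,1),(0,3)]⟩ ⟨0,[(32,0)]⟩),(.x (-1) ⟨3,[(17,0),(0,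
  0),(11,1),(0,3)]⟩ ⟨0,[(32,0)]⟩),.k,.k,⟨false,1,⟨13,[(3,1),(1,0),(0,2),(1,4),(0,0),(2,5),(6,1),(1,
  1),(15,1)]⟩,⟨3,[(0,0),(3,0),(16,0),(1,0),(12,2)]⟩⟩,⟨true,0,⟨0,[(19,0)]⟩,⟨0,[(14,0),(5,0),(4,0)]⟩⟩,
  ⟨false,1,⟨1,[(18,0),(6,0),(0,0),(11,0)]⟩,⟨0,[(3,0),(9,0),(5,0),(1,0)]⟩⟩,⟨true,0,⟨0,[(0,0)]⟩,⟨1,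
  [(3,1),(5,0),(3,0),(7,1)]⟩⟩,⟨false,0,⟨0,[]⟩,⟨0,[]⟩⟩,⟨false,0,⟨0,[]⟩,⟨0,[]⟩⟩,[.o ⟨false,0,⟨3,[(0,
  0),(3,0),(16,0),(1,0),(12,2)]⟩,⟨3,[(9,1),(11,1),(8,0),(7,2)]⟩⟩,.o ⟨false,0,⟨0,[(36,0)]⟩,⟨11,[(6,
  1),(1,1),(0,1),(15,0),(0,2),(3,5),(4,3)]⟩⟩,.o ⟨false,1,⟨1,[(20,1),(9,0),(6,0)]⟩,⟨0,[(14,0),(4,0),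
  (5,0)]⟩⟩,.a ⟨true,0,⟨0,[(20,0)]⟩,⟨0,[(19,0)]⟩⟩ ⟨true,0,⟨0,[]⟩,⟨0,[(40,0)]⟩⟩ ⟨false,0,⟨0,[(19,0),
  (16,0)]⟩,⟨15,[(3,3),(2,1),(1,5),(0,5),(10,11),(1,5),(7,4),(3,1),(3,0)]⟩⟩]⟩) (.R ⟨0,false,false,
  false,[1,0,0,-1],[0,1],[0,1,0,0,0,0,0,0,-1],(⟨0,[(19,0)]⟩,⟨0,[(20,0)]⟩),(⟨0,[(32,0)]⟩,⟨0,[(31,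
  0)]⟩),⟨0,[(2,0)]⟩,.k,.k,(.x (-1) ⟨3,[(17,0),(0,0),(11,1),(0,3)]⟩ ⟨0,[(32,0)]⟩),(.x (-1) ⟨3,[(17,
  0),(0,0),(11,1),(0,3)]⟩ ⟨0,[(32,0)]⟩),.k,.k,⟨false,0,⟨0,[(0,0),(18,0),(13,0)]⟩,⟨1,[(18,0),(6,0),
  (0,0),(9,1),(1,0)]⟩⟩,⟨true,0,⟨0,[(19,0)]⟩,⟨0,[(14,0),(5,0),(4,0)]⟩⟩,⟨true,0,⟨0,[(40,0)]⟩,⟨0,[]⟩⟩,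
  ⟨false,1,⟨1,[(18,0),(0,1),(5,0),(0,0),(9,1),(1,0)]⟩,⟨4,[(0,3),(3,0),(16,0),(1,0),(11,0)]⟩⟩,⟨false,
  0,⟨0,[]⟩,⟨0,[]⟩⟩,⟨false,0,⟨0,[]⟩,⟨0,[]⟩⟩,[.o ⟨false,0,⟨0,[(36,0)]⟩,⟨11,[(6,1),(1,1),(0,1),(15,0),
  (0,2),(3,5),(4,3)]⟩⟩,.o ⟨false,1,⟨3,[(17,0),(0,0),(17,3),(1,1)]⟩,⟨1,[(9,0),(3,0),(7,1)]⟩⟩,.o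
  ⟨false,1,⟨1,[(20,1),(9,0),(6,0)]⟩,⟨0,[(14,0),(4,0),(5,0)]⟩⟩,.a ⟨true,0,⟨0,[(20,0)]⟩,⟨0,[(19,0)]⟩⟩
  ⟨false,0,⟨3,[(0,2),(3,0),(14,3),(1,0),(1,0),(12,2)]⟩,⟨1,[(18,0),(6,0),(0,0),(11,0)]⟩⟩ ⟨true,0,⟨0,
  [(19,0),(16,0)]⟩,⟨5,[(0,0),(0,0),(7,2),(10,4),(0,4),(1,0),(1,0)]⟩⟩]⟩)) (.R ⟨0,false,false,false,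
  [1,0,0,-1],[0,0,1],[0,1,0,0,0,0,0,0,-1],(⟨0,[(18,0)]⟩,⟨0,[(19,0)]⟩),(⟨0,[(28,0)]⟩,⟨0,[(27,0)]⟩),
  ⟨0,[(1,0)]⟩,.k,.k,(.x (-1) ⟨3,[(16,0),(0,0),(11,1),(0,3)]⟩ ⟨0,[(31,0)]⟩),.k,.k,.k,⟨false,0,⟨0,[(0,
  0),(31,0),(2,0)]⟩,⟨1,[(17,0),(8,1),(10,0)]⟩⟩,⟨true,0,⟨0,[(18,0),(5,0)]⟩,⟨0,[(13,0),(5,0)]⟩⟩,⟨true,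
  0,⟨0,[(39,0)]⟩,⟨0,[]⟩⟩,⟨false,1,⟨3,[(15,1),(1,1),(0,3),(5,0),(0,0),(3,0),(3,1),(3,0)]⟩,⟨0,[(2,0),
  (17,0)]⟩⟩,⟨false,0,⟨0,[]⟩,⟨0,[]⟩⟩,⟨false,0,⟨0,[]⟩,⟨0,[]⟩⟩,[.o ⟨false,0,⟨0,[(12,0)]⟩,⟨1,[(23,1),(5,
  0),(7,0)]⟩⟩,.o ⟨false,1,⟨7,[(15,3),(0,0),(0,0),(11,1),(7,3)]⟩,⟨0,[(20,0)]⟩⟩,.o ⟨false,1,⟨1,[(19,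
  1),(9,0),(6,0)]⟩,⟨0,[(13,0),(4,0),(5,0)]⟩⟩,.a ⟨true,0,⟨0,[(19,0)]⟩,⟨0,[(18,0)]⟩⟩ ⟨false,0,⟨1,[(0,
  0),(1,0),(9,0),(0,0),(4,0),(13,0),(2,0)]⟩,⟨1,[(17,0),(6,0),(0,0),(11,0)]⟩⟩ ⟨true,0,⟨0,[(12,0),(5,
  0)]⟩,⟨0,[(19,0),(0,0)]⟩⟩]⟩)) (.I [1,-1,-1,-1,0,0,0,0,-1] (.R ⟨1,false,false,true,[1,0,0,-1],[1,1,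
  -1],[0,1,0,0,0,0,0,0,-1],(⟨0,[(18,0)]⟩,⟨0,[(19,0)]⟩),(⟨0,[(27,0),(3,0)]⟩,⟨0,[(9,0)]⟩),⟨0,[(1,0)]⟩,
  .k,.k,(.x (-1) ⟨3,[(16,0),(0,0),(11,1),(0,3)]⟩ ⟨0,[(31,0)]⟩),(.r 0 ⟨4,[(0,3),(2,0),(10,0),(3,0),
  (2,0),(0,0),(3,2),(5,0)]⟩ ⟨7,[(7,3),(8,0),(0,2),(5,3),(0,5),(0,1),(9,7)]⟩),(.r 0 ⟨0,[(0,0),(10,0),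
  (20,0)]⟩ ⟨7,[(7,3),(8,0),(0,2),(5,3),(0,9),(0,5),(9,15)]⟩),.k,⟨false,0,⟨0,[(0,0),(10,0),(20,0),(2,
  0)]⟩,⟨7,[(7,3),(8,0),(0,2),(5,3),(0,5),(0,1),(9,7)]⟩⟩,⟨true,0,⟨0,[(13,0),(4,0)]⟩,⟨0,[(19,0),(4,
  0)]⟩⟩,⟨true,0,⟨0,[(39,0)]⟩,⟨0,[]⟩⟩,⟨false,1,⟨3,[(7,1),(9,0),(0,3),(1,1),(3,0),(0,2),(3,0),(5,3)]⟩,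
  ⟨1,[(2,1),(5,0),(3,0)]⟩⟩,⟨false,0,⟨0,[(35,0)]⟩,⟨7,[(5,1),(1,1),(0,1),(15,0),(0,2),(11,1)]⟩⟩,
  ⟨false,1,⟨3,[(7,1),(9,0),(0,3),(1,1),(3,0),(0,2),(3,0),(5,7)]⟩,⟨0,[(2,0),(5,0)]⟩⟩,[.o ⟨false,0,⟨0,
  [(20,0),(14,0)]⟩,⟨15,[(8,7),(6,3),(0,2),(0,2),(11,1),(7,7)]⟩⟩,.o ⟨false,1,⟨1,[(23,1),(5,0),(5,1),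
  (1,0)]⟩,⟨0,[(10,0)]⟩⟩,.o ⟨false,1,⟨1,[(19,1),(9,0),(6,0)]⟩,⟨0,[(13,0),(4,0),(5,0)]⟩⟩,.a ⟨true,0,
  ⟨0,[(19,0)]⟩,⟨0,[(18,0)]⟩⟩ ⟨false,0,⟨3,[(0,2),(2,0),(14,0),(1,0),(1,0),(12,2)]⟩,⟨1,[(17,0),(6,0),
  (0,0),(11,0)]⟩⟩ ⟨true,0,⟨0,[(18,0),(1,0),(14,0)]⟩,⟨1,[(8,0),(3,0),(6,1)]⟩⟩]⟩) (.R ⟨1,false,false,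
  true,[1,0,0,-1],[0,1],[1,0,0,-1,0,0,0,0,-1],(⟨0,[(18,0)]⟩,⟨0,[(19,0)]⟩),(⟨0,[(31,0)]⟩,⟨0,[(30,
  0)]⟩),⟨0,[(1,0)]⟩,.k,.k,(.x (-1) ⟨3,[(16,0),(0,0),(11,1),(0,3)]⟩ ⟨0,[(31,0)]⟩),(.x (-1) ⟨3,[(16,
  0),(0,0),(11,1),(0,3)]⟩ ⟨0,[(31,0)]⟩),(.r (-1) ⟨4,[(2,2),(2,1),(2,2),(9,2),(1,2),(11,0),(3,0)]⟩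
  ⟨0,[(0,0),(32,0),(1,0)]⟩),.k,⟨false,1,⟨8,[(2,7),(1,2),(0,1),(1,0),(0,4),(2,3),(6,7),(1,7),(16,
  0)]⟩,⟨0,[(0,0),(34,0)]⟩⟩,⟨true,0,⟨0,[(18,0)]⟩,⟨0,[(13,0),(5,0),(4,0)]⟩⟩,⟨false,1,⟨7,[(5,1),(1,1),
  (0,1),(15,0),(0,2),(11,1)]⟩,⟨0,[(35,0)]⟩⟩,⟨true,0,⟨0,[(0,0),(17,0)]⟩,⟨1,[(2,1),(5,0),(3,0),(7,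
  1)]⟩⟩,⟨true,0,⟨0,[]⟩,⟨0,[(39,0)]⟩⟩,⟨true,0,⟨0,[(0,0),(17,0),(16,0)]⟩,⟨0,[(2,0),(5,0),(11,0)]⟩⟩,
  [.o ⟨false,0,⟨0,[(35,0),(3,0)]⟩,⟨3,[(8,1),(11,1),(8,0),(7,2)]⟩⟩,.o ⟨false,0,⟨0,[(35,0)]⟩,⟨11,[(5,
  1),(1,1),(0,1),(15,0),(0,2),(3,5),(4,3)]⟩⟩,.o ⟨false,1,⟨1,[(19,1),(9,0),(6,0)]⟩,⟨0,[(13,0),(4,0),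
  (5,0)]⟩⟩,.a ⟨true,0,⟨0,[(19,0)]⟩,⟨0,[(18,0)]⟩⟩ ⟨true,0,⟨1,[(2,1),(5,0),(3,0),(5,1),(1,1)]⟩,⟨0,[(0,
  0)]⟩⟩ ⟨false,0,⟨0,[(18,0),(16,0)]⟩,⟨15,[(2,3),(2,1),(1,5),(0,5),(10,11),(1,5),(7,4),(3,1),(3,
  0)]⟩⟩]⟩)))) (.Q [0,0,0,0,0,-1,0,0,0,1,0,-1] (.p false [0,0,0,1] [1] (⟨0,[(16,0)]⟩,⟨0,[(15,0)]⟩)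
  .k 1 (⟨0,[]⟩,⟨0,[]⟩) .k .k) (.Q [0,0,-1,0,1,0,-1,-1,-1,-1,1,1] (.p true [0,0,1] [1,0,0,-1] (⟨0,
  [(26,0)]⟩,⟨0,[(25,0)]⟩) .k 2 (⟨0,[(16,0)]⟩,⟨0,[(17,0)]⟩) .k (.x 0 ⟨0,[(22,0),(3,0)]⟩ ⟨3,[(11,1),
  (11,1),(1,3),(1,0),(6,2)]⟩)) (.I [0,-1,-1,0,1,0,0,0,-1] (.I [0,1,-2,-1,1,0,0,0,-1] (.R ⟨1,false,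
  false,false,[1,0,0,-1],[0,1],[0,1,0,0,0,0,0,0,-1],(⟨0,[(19,0)]⟩,⟨0,[(20,0)]⟩),(⟨0,[(32,0)]⟩,⟨0,
  [(31,0)]⟩),⟨0,[(3,0)]⟩,.k,.k,(.x (-1) ⟨3,[(17,0),(0,0),(11,1),(0,3)]⟩ ⟨0,[(32,0)]⟩),(.x (-1) ⟨3,
  [(17,0),(0,0),(11,1),(0,3)]⟩ ⟨0,[(32,0)]⟩),(.x 0 ⟨0,[(7,0),(2,0),(3,0),(10,0)]⟩ ⟨3,[(17,0),(0,0),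
  (13,7),(4,1)]⟩),.k,⟨false,1,⟨0,[(0,0)]⟩,⟨0,[(4,0),(15,0),(15,0)]⟩⟩,⟨true,0,⟨0,[(19,0)]⟩,⟨0,[(14,
  0),(5,0),(4,0)]⟩⟩,⟨true,0,⟨0,[(40,0)]⟩,⟨0,[]⟩⟩,⟨false,0,⟨0,[(4,0),(14,0),(0,0),(15,0)]⟩,⟨1,[(2,1),
  (6,0),(3,0)]⟩⟩,⟨false,0,⟨0,[(36,0)]⟩,⟨7,[(6,1),(1,1),(0,1),(15,0),(0,2),(11,1)]⟩⟩,⟨false,0,⟨0,[(4,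
  0),(14,0),(0,0),(15,1)]⟩,⟨0,[(2,0),(6,0)]⟩⟩,[.o ⟨false,0,⟨0,[(36,0)]⟩,⟨11,[(6,1),(1,1),(0,1),(15,
  0),(0,2),(3,5),(4,3)]⟩⟩,.o ⟨false,1,⟨3,[(17,0),(0,0),(17,3),(1,1)]⟩,⟨1,[(9,0),(3,0),(7,1)]⟩⟩,.o
  ⟨false,1,⟨1,[(20,1),(9,0),(6,0)]⟩,⟨0,[(14,0),(4,0),(5,0)]⟩⟩,.a ⟨true,0,⟨0,[(20,0)]⟩,⟨0,[(19,0)]⟩⟩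
  ⟨false,1,⟨1,[(17,0),(19,0)]⟩,⟨0,[(4,0),(15,0)]⟩⟩ ⟨true,0,⟨0,[(19,0),(16,0)]⟩,⟨1,[(9,0),(3,0),(6,
  1),(0,1)]⟩⟩]⟩) (.R ⟨1,false,false,true,[1,0,0,-1],[0,1],[1,0,0,-1,0,0,0,0,-1],(⟨0,[(19,0)]⟩,⟨0,
  [(20,0)]⟩),(⟨0,[(32,0)]⟩,⟨0,[(31,0)]⟩),⟨0,[(3,0)]⟩,.k,.k,(.x (-1) ⟨3,[(17,0),(0,0),(11,1),(0,3)]⟩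
  ⟨0,[(32,0)]⟩),(.x (-1) ⟨3,[(17,0),(0,0),(11,1),(0,3)]⟩ ⟨0,[(32,0)]⟩),(.x 0 ⟨0,[(7,0),(2,0),(3,0),
  (10,0)]⟩ ⟨3,[(17,0),(0,0),(13,7),(4,1)]⟩),.k,⟨false,2,⟨0,[(6,0)]⟩,⟨0,[(0,0),(32,0),(2,0)]⟩⟩,⟨true,
  0,⟨0,[(19,0)]⟩,⟨0,[(14,0),(5,0),(4,0)]⟩⟩,⟨false,1,⟨7,[(6,1),(1,1),(0,1),(15,0),(0,2),(11,1)]⟩,⟨0,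
  [(36,0)]⟩⟩,⟨true,(-1),⟨0,[(0,0),(18,0),(13,0)]⟩,⟨1,[(2,1),(6,0),(3,0)]⟩⟩,⟨true,0,⟨0,[]⟩,⟨0,[(40,
  0)]⟩⟩,⟨true,(-1),⟨0,[(0,0),(18,0),(13,0),(2,0)]⟩,⟨0,[(2,0),(6,0)]⟩⟩,[.o ⟨false,0,⟨0,[(36,0),(3,
  0)]⟩,⟨4,[(0,2),(5,2),(2,0),(11,0),(8,1)]⟩⟩,.o ⟨false,0,⟨0,[(36,0)]⟩,⟨11,[(6,1),(1,1),(0,1),(15,0),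
  (0,2),(3,5),(4,3)]⟩⟩,.o ⟨false,1,⟨1,[(20,1),(9,0),(6,0)]⟩,⟨0,[(14,0),(4,0),(5,0)]⟩⟩,.a ⟨true,0,⟨0,
  [(20,0)]⟩,⟨0,[(19,0)]⟩⟩ ⟨true,1,⟨5,[(1,2),(4,0),(2,1),(7,0),(6,1),(8,0)]⟩,⟨0,[(0,0),(32,0)]⟩⟩
  ⟨false,0,⟨0,[(19,0),(16,0)]⟩,⟨7,[(0,0),(1,2),(5,1),(0,3),(2,0),(7,4),(1,0),(7,1),(7,1)]⟩⟩]⟩)) (.R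
  ⟨1,false,false,true,[1,0,0,-1],[0,1],[0,0,0,0,0,0,0,0,-1],(⟨0,[(18,0)]⟩,⟨0,[(19,0)]⟩),(⟨0,[(31,
  0)]⟩,⟨0,[(30,0)]⟩),⟨0,[(2,0)]⟩,.k,.k,(.x (-1) ⟨3,[(16,0),(0,0),(11,1),(0,3)]⟩ ⟨0,[(31,0)]⟩),(.x
  (-1) ⟨3,[(16,0),(0,0),(11,1),(0,3)]⟩ ⟨0,[(31,0)]⟩),(.r (-2) ⟨27,[(5,23),(10,4),(0,2),(14,7),(1,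
  7)]⟩ ⟨0,[(0,0),(32,0),(1,1)]⟩),.k,⟨false,2,⟨3,[(5,1),(10,0),(19,1),(0,0)]⟩,⟨0,[(0,0),(34,0)]⟩⟩,
  ⟨true,0,⟨0,[(18,0)]⟩,⟨0,[(13,0),(5,0),(4,0)]⟩⟩,⟨false,1,⟨3,[(16,0),(0,0),(19,1)]⟩,⟨0,[]⟩⟩,⟨true,
  (-1),⟨0,[(0,0),(17,0),(16,0)]⟩,⟨1,[(1,1),(6,0),(3,0)]⟩⟩,⟨true,0,⟨0,[(35,0)]⟩,⟨0,[(34,0)]⟩⟩,⟨true,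
  (-1),⟨0,[(0,0),(17,0),(16,1)]⟩,⟨0,[(1,0),(6,0)]⟩⟩,[.o ⟨false,0,⟨0,[(35,0),(3,0)]⟩,⟨3,[(8,1),(11,
  1),(8,0),(7,2)]⟩⟩,.o ⟨false,0,⟨0,[(35,0)]⟩,⟨11,[(5,1),(1,1),(0,1),(15,0),(0,2),(3,5),(4,3)]⟩⟩,.o
  ⟨false,1,⟨1,[(19,1),(9,0),(6,0)]⟩,⟨0,[(13,0),(4,0),(5,0)]⟩⟩,.a ⟨true,0,⟨0,[(19,0)]⟩,⟨0,[(18,0)]⟩⟩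
  ⟨true,1,⟨1,[(16,0),(19,0)]⟩,⟨0,[(0,0)]⟩⟩ ⟨false,0,⟨0,[(18,0),(16,0)]⟩,⟨2,[(1,0),(5,0),(0,0),(2,0),
  (7,1),(9,0),(3,0)]⟩⟩]⟩)) (.I [1,0,1,1,0,0,0,-1] (.K ⟨0,[0,0,0,1],0,(-1),(⟨0,[(19,0)]⟩,⟨0,[(18,
  0)]⟩),.k,(.x 0 ⟨1,[(6,0),(2,0),(11,0),(2,1),(0,0)]⟩ ⟨0,[(31,0),(4,0)]⟩),(.x 0 ⟨0,[(31,0)]⟩ ⟨3,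
  [(16,0),(0,0),(11,1),(0,3)]⟩),.k,.k,[⟨0,[(19,0)]⟩,⟨0,[(18,0)]⟩,⟨7,[(16,4),(0,0),(1,7),(12,3),(3,
  1)]⟩,⟨0,[(1,0),(18,0)]⟩]⟩) (.K ⟨0,[0,0,0,1],0,(-1),(⟨0,[(19,0)]⟩,⟨0,[(18,0)]⟩),.k,(.x 0 ⟨1,[(6,0),
  (2,0),(11,0),(2,1),(0,0)]⟩ ⟨0,[(31,0),(4,0)]⟩),(.x 0 ⟨0,[(31,0)]⟩ ⟨3,[(16,0),(0,0),(11,1),(0,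
  3)]⟩),.k,.k,[⟨0,[(19,0)]⟩,⟨0,[(18,0)]⟩,⟨7,[(16,4),(0,0),(1,7),(12,3),(3,1)]⟩,⟨0,[(1,0),(18,
  0)]⟩]⟩))) (.I [0,1,-2,-1,1,0,0,0,-1] (.Q [0,0,-1,-1,1,0,0,0,-1,-1,0,1] (.p true [0,0,0,1] [1] (⟨0,
  [(18,0)]⟩,⟨0,[(17,0)]⟩) .k 1 (⟨0,[]⟩,⟨0,[]⟩) .k .k) (.R ⟨0,false,false,false,[1,0,0,-1],[0,1],[0,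
  1,0,0,0,0,0,0,-1],(⟨0,[(18,0)]⟩,⟨0,[(19,0)]⟩),(⟨0,[(31,0)]⟩,⟨0,[(30,0)]⟩),⟨0,[(2,0)]⟩,.k,.k,(.x
  (-1) ⟨3,[(16,0),(0,0),(11,1),(0,3)]⟩ ⟨0,[(31,0)]⟩),(.x (-1) ⟨3,[(16,0),(0,0),(11,1),(0,3)]⟩ ⟨0,
  [(31,0)]⟩),.k,.k,⟨false,1,⟨0,[(1,0)]⟩,⟨0,[(3,0),(15,0),(15,0)]⟩⟩,⟨true,0,⟨0,[(18,0)]⟩,⟨0,[(13,0),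
  (5,0),(4,0)]⟩⟩,⟨true,0,⟨0,[(39,0)]⟩,⟨0,[]⟩⟩,⟨false,0,⟨0,[(3,0),(14,0),(0,0),(15,0)]⟩,⟨0,[(0,0)]⟩⟩,
  ⟨false,0,⟨0,[]⟩,⟨0,[]⟩⟩,⟨false,0,⟨0,[]⟩,⟨0,[]⟩⟩,[.o ⟨false,0,⟨0,[(35,0)]⟩,⟨11,[(5,1),(1,1),(0,1),
  (15,0),(0,2),(3,5),(4,3)]⟩⟩,.o ⟨false,1,⟨3,[(16,0),(0,0),(17,3),(1,1)]⟩,⟨1,[(8,0),(3,0),(7,1)]⟩⟩,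
  .o ⟨false,1,⟨1,[(19,1),(9,0),(6,0)]⟩,⟨0,[(13,0),(4,0),(5,0)]⟩⟩,.a ⟨true,0,⟨0,[(19,0)]⟩,⟨0,[(18,
  0)]⟩⟩ ⟨false,1,⟨1,[(16,0),(19,0)]⟩,⟨0,[(3,0),(15,0)]⟩⟩ ⟨true,0,⟨0,[(18,0),(16,0)]⟩,⟨1,[(8,0),(3,
  0),(6,1),(0,1)]⟩⟩]⟩) (.K ⟨0,[0,0,0,1],0,(-1),(⟨0,[(19,0)]⟩,⟨0,[(18,0)]⟩),.k,(.x 0 ⟨1,[(6,0),(2,0),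
  (11,0),(2,1),(0,0)]⟩ ⟨0,[(31,0),(4,0)]⟩),(.x 0 ⟨0,[(31,0)]⟩ ⟨3,[(16,0),(0,0),(11,1),(0,3)]⟩),.k,
  .k,[⟨0,[(19,0)]⟩,⟨0,[(18,0)]⟩,⟨7,[(16,4),(0,0),(1,7),(12,3),(3,1)]⟩,⟨1,[(0,1),(7,0),(3,0),(7,
  1)]⟩]⟩)) (.I [1,0,0,0,1,0,0,-2] (.Q [0,0,-1,-1,1,0,0,0,-1,-1,0,1] (.p true [0,0,0,1] [1] (⟨0,[(19,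
  0)]⟩,⟨0,[(18,0)]⟩) .k 1 (⟨0,[]⟩,⟨0,[]⟩) .k .k) (.R ⟨0,false,false,true,[1,0,0,-1],[0,1],[1,0,1],
  (⟨0,[(19,0)]⟩,⟨0,[(20,0)]⟩),(⟨0,[(32,0)]⟩,⟨0,[(31,0)]⟩),⟨0,[(3,0)]⟩,.k,.k,(.x (-1) ⟨3,[(17,0),(0,
  0),(11,1),(0,3)]⟩ ⟨0,[(32,0)]⟩),(.x (-1) ⟨3,[(17,0),(0,0),(11,1),(0,3)]⟩ ⟨0,[(32,0)]⟩),.k,.k,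
  ⟨false,1,⟨1,[(1,0),(10,1),(24,0)]⟩,⟨0,[(36,0),(3,0)]⟩⟩,⟨true,0,⟨0,[(19,0)]⟩,⟨3,[(0,1),(1,1),(17,
  1),(0,0),(0,0),(0,0),(1,0)]⟩⟩,⟨false,0,⟨8,[(2,3),(5,2),(0,0),(2,1),(5,0),(7,0)]⟩,⟨1,[(17,0),(19,
  0)]⟩⟩,⟨true,(-1),⟨0,[(2,0),(16,0),(13,0)]⟩,⟨0,[(0,0)]⟩⟩,⟨false,0,⟨0,[]⟩,⟨0,[]⟩⟩,⟨false,0,⟨0,[]⟩,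
  ⟨0,[]⟩⟩,[.o ⟨false,0,⟨0,[(36,0),(3,0)]⟩,⟨0,[(0,0),(3,0)]⟩⟩,.o ⟨false,0,⟨0,[(36,0)]⟩,⟨13,[(1,1),(4,
  1),(2,3),(8,0),(7,3),(3,6),(4,1)]⟩⟩,.o ⟨false,1,⟨1,[(20,1),(9,0),(6,0)]⟩,⟨0,[(14,0),(4,0),(5,
  0)]⟩⟩,.a ⟨true,0,⟨0,[(20,0)]⟩,⟨0,[(19,0)]⟩⟩ ⟨true,0,⟨0,[]⟩,⟨0,[(40,0)]⟩⟩ ⟨false,0,⟨0,[(19,0),(16,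
  0)]⟩,⟨11,[(0,9),(1,3),(5,3),(0,1),(2,1),(5,0),(1,1),(1,1),(15,0)]⟩⟩]⟩) (.R ⟨2,true,false,false,[0,
  1],[1,0,0,-1],[0,1,1,1],(⟨0,[]⟩,⟨0,[]⟩),(⟨0,[(19,0)]⟩,⟨0,[(20,0)]⟩),⟨0,[]⟩,.k,.k,.k,(.x 0 ⟨0,[(32,
  0)]⟩ ⟨3,[(17,0),(0,0),(11,1),(0,3)]⟩),.k,.k,⟨true,(-1),⟨0,[(2,0),(30,0)]⟩,⟨1,[(1,0),(10,1),(4,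
  0)]⟩⟩,⟨false,1,⟨1,[(20,1),(9,0),(6,0)]⟩,⟨0,[(19,0)]⟩⟩,⟨true,0,⟨0,[(40,0)]⟩,⟨0,[]⟩⟩,⟨false,2,⟨3,
  [(6,1),(10,0),(2,3),(9,1),(7,0)]⟩,⟨0,[(0,0)]⟩⟩,⟨false,0,⟨0,[(36,0)]⟩,⟨7,[(6,1),(1,1),(0,1),(15,0),
  (0,2),(11,1)]⟩⟩,⟨true,1,⟨1,[(3,1),(1,0),(1,0),(2,0),(3,0),(2,0)]⟩,⟨0,[(0,0),(34,0)]⟩⟩,[]⟩)) (.R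
  ⟨0,false,false,true,[1,0,0,-1],[1,0,-1],[1,1,0,0,0,0,0,-1],(⟨0,[(18,0)]⟩,⟨0,[(19,0)]⟩),(⟨0,[(27,
  0)]⟩,⟨0,[(28,0)]⟩),⟨0,[(2,0)]⟩,.k,.k,(.x (-1) ⟨3,[(16,0),(0,0),(11,1),(0,3)]⟩ ⟨0,[(31,0)]⟩),.k,.k,
  .k,⟨true,0,⟨0,[]⟩,⟨1,[(24,0),(0,0)]⟩⟩,⟨false,0,⟨0,[(13,0),(4,0)]⟩,⟨5,[(4,3),(11,0),(0,0),(1,5),(4,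
  1)]⟩⟩,⟨true,0,⟨0,[(1,0),(2,0),(18,0),(10,0)]⟩,⟨1,[(0,0),(15,0)]⟩⟩,⟨false,0,⟨0,[(3,0),(19,0)]⟩,⟨1,
  [(0,0),(3,1),(11,0),(2,1),(13,1)]⟩⟩,⟨false,0,⟨0,[]⟩,⟨0,[]⟩⟩,⟨false,0,⟨0,[]⟩,⟨0,[]⟩⟩,[.o ⟨false,0,
  ⟨0,[(20,0)]⟩,⟨7,[(15,3),(0,0),(0,0),(11,1),(7,3)]⟩⟩,.o ⟨false,1,⟨1,[(23,1),(5,0),(7,0)]⟩,⟨0,[(12,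
  0)]⟩⟩,.o ⟨false,1,⟨1,[(19,1),(9,0),(6,0)]⟩,⟨3,[(0,0),(2,1),(12,0),(1,1),(1,1),(3,1)]⟩⟩,.a ⟨true,0,
  ⟨0,[(19,0)]⟩,⟨0,[(18,0)]⟩⟩ ⟨false,1,⟨0,[(4,0),(18,0),(9,0)]⟩,⟨3,[(0,0),(14,0),(5,0),(3,0),(7,1),
  (3,0)]⟩⟩ ⟨true,0,⟨0,[(18,0),(1,0)]⟩,⟨0,[(12,0),(6,0)]⟩⟩]⟩)))))) (.K ⟨0,[0,0,0,1],0,(-1),(⟨0,[(14,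
  0)]⟩,⟨0,[(13,0)]⟩),.k,(.r (-1) ⟨21,[(0,1),(1,5),(0,9),(2,5),(5,6),(5,9),(12,12)]⟩ ⟨3,[(0,1),(10,
  2),(20,0)]⟩),(.x 0 ⟨0,[(26,0)]⟩ ⟨3,[(11,0),(0,0),(11,1),(0,3)]⟩),.k,.k,[⟨0,[(14,0)]⟩,⟨0,[(13,0)]⟩,
  ⟨7,[(11,4),(0,0),(1,7),(12,3),(3,1)]⟩,⟨1,[(0,1),(2,1),(9,1),(1,1),(15,0),(0,0)]⟩]⟩)) (.Q [0,0,0,0,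
  0,0,1,0,0,2,-1] (.p false [-1,1,1] [1] (⟨0,[(0,0)]⟩,⟨0,[(21,0),(2,0)]⟩) .k 1 (⟨0,[]⟩,⟨0,[]⟩) .k
  .k) (.R ⟨0,false,false,true,[-1,1,1],[0,1],[0,1,1],(⟨0,[(1,0)]⟩,⟨0,[(22,0),(2,0)]⟩),(⟨0,[(26,0)]⟩,
  ⟨0,[(25,0)]⟩),⟨0,[(22,0)]⟩,.k,.k,.k,.k,.k,.k,⟨false,1,⟨1,[(29,1),(1,0),(0,0)]⟩,⟨0,[(30,0)]⟩⟩,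
  ⟨true,0,⟨0,[(8,0)]⟩,⟨3,[(0,1),(18,2),(0,0)]⟩⟩,⟨false,1,⟨3,[(0,1),(1,1),(0,1),(7,0),(3,3),(16,0)]⟩,
  ⟨0,[(6,0),(23,1)]⟩⟩,⟨true,0,⟨0,[(15,0)]⟩,⟨2,[(0,0),(9,0),(10,0)]⟩⟩,⟨false,0,⟨0,[]⟩,⟨0,[]⟩⟩,⟨false,
  0,⟨0,[]⟩,⟨0,[]⟩⟩,[.o ⟨false,0,⟨0,[(30,0),(3,0)]⟩,⟨3,[(3,1),(11,1),(8,0),(7,2)]⟩⟩,.o ⟨false,0,⟨0,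
  [(30,0)]⟩,⟨1,[(24,0),(4,1),(2,0)]⟩⟩,.o ⟨false,1,⟨1,[(0,1),(23,0),(6,0)]⟩,⟨0,[(8,1),(10,0)]⟩⟩,.a
  ⟨true,0,⟨0,[(0,0)]⟩,⟨0,[(8,0)]⟩⟩ ⟨true,0,⟨0,[(34,0)]⟩,⟨0,[]⟩⟩ ⟨false,0,⟨0,[(8,0),(21,0)]⟩,⟨3,[(0,
  1),(1,1),(0,1),(7,0),(20,0)]⟩⟩]⟩) (.Q [0,-1,-1,0,1,0,0,0,-1,0,0,1] (.p true [0,0,0,1] [] (⟨0,[(14,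
  0)]⟩,⟨0,[(13,0)]⟩) .k 0 (⟨0,[]⟩,⟨0,[]⟩) .k .k) (.I [1,-1,1,0,0,0,0,0,1] (.Q [0,0,0,0,0,1,0,0,0,-1,
  0,1] (.p true [0,0,0,1] [1] (⟨0,[(16,0)]⟩,⟨0,[(15,0)]⟩) .k 1 (⟨0,[]⟩,⟨0,[]⟩) .k .k) (.I [0,1,-2,
  -2,1,0,0,0,-1] (.R ⟨0,false,false,false,[1,0,0,-1],[0,1],[0,1,0,0,0,0,0,0,-1],(⟨0,[(17,0)]⟩,⟨0,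
  [(18,0)]⟩),(⟨0,[(30,0)]⟩,⟨0,[(29,0)]⟩),⟨0,[(1,0)]⟩,.k,.k,(.x (-1) ⟨3,[(15,0),(0,0),(11,1),(0,3)]⟩
  ⟨0,[(30,0)]⟩),(.x (-1) ⟨3,[(15,0),(0,0),(11,1),(0,3)]⟩ ⟨0,[(30,0)]⟩),.k,.k,⟨false,1,⟨0,[(0,0),(33,
  0)]⟩,⟨0,[(2,0),(31,0)]⟩⟩,⟨true,0,⟨0,[(17,0)]⟩,⟨2,[(4,0),(13,2),(1,0),(2,1)]⟩⟩,⟨true,0,⟨0,[(38,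
  0)]⟩,⟨0,[]⟩⟩,⟨false,0,⟨0,[(2,0),(14,0),(16,0)]⟩,⟨1,[(0,0),(2,0),(0,0),(13,0),(4,0)]⟩⟩,⟨false,0,⟨0,
  []⟩,⟨0,[]⟩⟩,⟨false,0,⟨0,[]⟩,⟨0,[]⟩⟩,[.o ⟨false,0,⟨0,[(34,0)]⟩,⟨13,[(0,1),(5,3),(0,3),(7,0),(8,3),
  (3,6),(4,1)]⟩⟩,.o ⟨false,1,⟨3,[(15,0),(0,0),(17,3),(1,1)]⟩,⟨3,[(4,0),(2,1),(11,1),(3,0),(7,0)]⟩⟩,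
  .o ⟨false,1,⟨1,[(18,1),(9,0),(6,0)]⟩,⟨2,[(4,0),(12,2),(2,0),(2,1)]⟩⟩,.a ⟨true,0,⟨0,[(18,0)]⟩,⟨0,
  [(17,0)]⟩⟩ ⟨false,1,⟨1,[(15,0),(19,0)]⟩,⟨0,[(2,0)]⟩⟩ ⟨true,0,⟨0,[(17,0),(16,0)]⟩,⟨3,[(4,0),(2,1),
  (10,3),(0,1),(3,0),(7,0)]⟩⟩]⟩) (.I [1,0,1,0,-1,0,0,1] (.R ⟨0,false,false,true,[1,0,0,-1],[1,-1],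
  [0,1,0,-1,0,0,0,0,-1],(⟨0,[(18,0)]⟩,⟨0,[(19,0)]⟩),(⟨0,[(30,0)]⟩,⟨0,[(31,0)]⟩),⟨0,[(2,0)]⟩,.k,.k,
  (.x (-1) ⟨3,[(16,0),(0,0),(11,1),(0,3)]⟩ ⟨0,[(31,0)]⟩),(.r 0 ⟨0,[(0,0),(3,0),(13,0),(1,0),(3,0),
  (10,0)]⟩ ⟨3,[(3,1),(4,1),(8,0),(5,1),(12,2)]⟩),.k,.k,⟨true,0,⟨0,[(0,0),(3,0),(13,0),(1,0),(3,0)]⟩,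
  ⟨0,[(1,0),(6,0),(14,0),(12,0)]⟩⟩,⟨false,0,⟨2,[(5,0),(12,2),(2,0),(2,1)]⟩,⟨0,[(19,0),(16,0)]⟩⟩,
  ⟨true,0,⟨0,[(34,0)]⟩,⟨0,[(35,0)]⟩⟩,⟨false,0,⟨5,[(1,0),(1,2),(1,0),(2,3),(8,0),(0,5),(1,3),(3,0)]⟩,
  ⟨0,[(4,0),(30,0)]⟩⟩,⟨false,0,⟨0,[]⟩,⟨0,[]⟩⟩,⟨false,0,⟨0,[]⟩,⟨0,[]⟩⟩,[.o ⟨false,0,⟨3,[(5,0),(2,1),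
  (11,1),(3,0),(7,0)]⟩,⟨3,[(16,0),(0,0),(17,3),(1,1)]⟩⟩,.o ⟨false,1,⟨1,[(29,0),(4,1),(2,0)]⟩,⟨0,
  [(35,0)]⟩⟩,.o ⟨false,1,⟨1,[(19,1),(9,0),(6,0)]⟩,⟨2,[(5,0),(12,2),(2,0),(2,1)]⟩⟩,.a ⟨true,0,⟨0,
  [(19,0)]⟩,⟨0,[(18,0)]⟩⟩ ⟨false,1,⟨3,[(4,1),(3,1),(7,0),(1,1),(1,1),(15,0)]⟩,⟨3,[(1,1),(15,0),(19,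
  0)]⟩⟩ ⟨true,0,⟨3,[(5,0),(2,1),(9,3),(1,1),(3,0),(7,0)]⟩,⟨0,[(19,0),(15,0)]⟩⟩]⟩) (.R ⟨0,false,
  false,true,[1,0,0,-1],[0,0,1],[1,0,1],(⟨0,[(18,0)]⟩,⟨0,[(19,0)]⟩),(⟨0,[(28,0)]⟩,⟨0,[(27,0)]⟩),⟨0,
  [(2,0)]⟩,.k,.k,(.x (-1) ⟨3,[(16,0),(0,0),(11,1),(0,3)]⟩ ⟨0,[(31,0)]⟩),.k,.k,.k,⟨false,1,⟨0,[(0,0),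
  (32,0)]⟩,⟨0,[(11,0),(20,0),(2,0)]⟩⟩,⟨true,0,⟨0,[(18,0),(5,0)]⟩,⟨0,[(13,0),(5,0)]⟩⟩,⟨false,0,⟨0,
  [(3,0)]⟩,⟨1,[(16,0),(19,0)]⟩⟩,⟨true,(-1),⟨0,[(1,0),(6,0),(9,0),(13,0)]⟩,⟨0,[(4,0),(15,0)]⟩⟩,
  ⟨false,0,⟨0,[]⟩,⟨0,[]⟩⟩,⟨false,0,⟨0,[]⟩,⟨0,[]⟩⟩,[.o ⟨false,0,⟨0,[(22,0)]⟩,⟨0,[(20,0),(16,0)]⟩⟩,.o
  ⟨false,0,⟨0,[(12,0)]⟩,⟨3,[(0,1),(19,1),(4,1),(3,0),(7,0)]⟩⟩,.o ⟨false,1,⟨1,[(19,1),(9,0),(6,0)]⟩,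
  ⟨2,[(5,0),(12,2),(2,0),(2,1)]⟩⟩,.a ⟨true,0,⟨0,[(19,0)]⟩,⟨0,[(18,0)]⟩⟩ ⟨true,0,⟨0,[]⟩,⟨0,[(39,
  0)]⟩⟩ ⟨false,0,⟨0,[(12,0),(5,0)]⟩,⟨0,[(19,0),(0,0),(16,0)]⟩⟩]⟩))) (.I [0,0,1,2,0,0,0,-1,1] (.I [0,
  0,-2,-2,1,0,0,1,-1] (.R ⟨1,false,false,true,[1,0,0,-1],[1,1,-1],[1,1,0,-1,0,0,0,0,-1],(⟨0,[(18,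
  0)]⟩,⟨0,[(19,0)]⟩),(⟨0,[(27,0),(3,0)]⟩,⟨0,[(9,0)]⟩),⟨0,[(2,0)]⟩,.k,.k,(.x (-1) ⟨3,[(16,0),(0,0),
  (11,1),(0,3)]⟩ ⟨0,[(31,0)]⟩),(.x (-1) ⟨7,[(7,3),(1,7),(5,1),(0,1),(7,3),(4,0),(2,1),(3,0)]⟩ ⟨0,
  [(13,0),(13,0),(3,0)]⟩),(.r (-1) ⟨0,[(0,0)]⟩ ⟨1,[(1,1),(22,0),(0,0)]⟩),.k,⟨false,1,⟨0,[(0,0)]⟩,⟨0,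
  [(1,0)]⟩⟩,⟨true,0,⟨0,[(13,0),(4,0)]⟩,⟨0,[(19,0),(4,0)]⟩⟩,⟨true,0,⟨0,[(34,0)]⟩,⟨0,[(35,0)]⟩⟩,
  ⟨false,0,⟨1,[(1,0),(1,0),(1,0),(12,1),(4,0)]⟩,⟨1,[(4,1),(3,0),(3,0)]⟩⟩,⟨false,0,⟨0,[]⟩,⟨3,[(16,0),
  (0,0),(19,1)]⟩⟩,⟨false,0,⟨0,[(1,0),(11,0),(4,0)]⟩,⟨0,[(4,0),(3,0)]⟩⟩,[.o ⟨false,0,⟨0,[(20,0),(14,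
  0)]⟩,⟨15,[(8,7),(6,3),(0,2),(0,2),(11,1),(7,7)]⟩⟩,.o ⟨false,1,⟨11,[(1,5),(3,1),(10,2),(3,5),(4,3),
  (3,0),(6,4),(0,2)]⟩,⟨0,[(10,0)]⟩⟩,.o ⟨false,1,⟨1,[(19,1),(9,0),(6,0)]⟩,⟨2,[(5,0),(12,2),(2,0),(2,
  1)]⟩⟩,.a ⟨true,0,⟨0,[(19,0)]⟩,⟨0,[(18,0)]⟩⟩ ⟨false,1,⟨1,[(0,0),(3,0),(13,0),(1,0),(3,0)]⟩,⟨0,[(3,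
  0),(31,0)]⟩⟩ ⟨true,0,⟨0,[(18,0),(1,0),(14,0)]⟩,⟨1,[(8,0),(3,0),(6,1)]⟩⟩]⟩) (.R ⟨1,false,false,
  true,[1,0,0,-1],[0,1],[1,0,0,-1,0,0,0,0,-1],(⟨0,[(18,0)]⟩,⟨0,[(19,0)]⟩),(⟨0,[(31,0)]⟩,⟨0,[(30,
  0)]⟩),⟨0,[(2,0)]⟩,.k,.k,(.x (-1) ⟨3,[(16,0),(0,0),(11,1),(0,3)]⟩ ⟨0,[(31,0)]⟩),(.x (-1) ⟨3,[(16,
  0),(0,0),(11,1),(0,3)]⟩ ⟨0,[(31,0)]⟩),(.r (-2) ⟨1,[(8,1),(7,0),(6,1),(12,1),(0,0)]⟩ ⟨0,[(0,0),(25,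
  0)]⟩),.k,⟨false,2,⟨1,[(4,1),(3,1),(9,1),(1,1),(15,0),(0,0)]⟩,⟨0,[(0,0),(10,0),(20,0),(2,0)]⟩⟩,
  ⟨true,0,⟨0,[(18,0)]⟩,⟨2,[(5,0),(13,2),(1,0),(2,1)]⟩⟩,⟨false,1,⟨0,[(34,0),(2,0)]⟩,⟨0,[(35,0)]⟩⟩,
  ⟨true,(-1),⟨0,[(0,0),(10,0),(6,0),(13,0)]⟩,⟨3,[(4,3),(0,0),(2,1),(11,1),(3,0),(7,0)]⟩⟩,⟨true,0,⟨0,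
  []⟩,⟨0,[(39,0)]⟩⟩,⟨true,(-1),⟨0,[(0,0),(10,0),(6,0),(13,0),(2,0)]⟩,⟨0,[(4,0),(3,0),(11,0)]⟩⟩,[.o
  ⟨false,0,⟨11,[(0,0),(0,0),(14,0),(5,1),(2,1),(6,4),(2,7)]⟩,⟨3,[(8,1),(11,1),(8,0),(7,2)]⟩⟩,.o
  ⟨false,0,⟨0,[(35,0)]⟩,⟨1,[(29,0),(4,1),(2,0)]⟩⟩,.o ⟨false,1,⟨1,[(19,1),(9,0),(6,0)]⟩,⟨2,[(5,0),
  (12,2),(2,0),(2,1)]⟩⟩,.a ⟨true,0,⟨0,[(19,0)]⟩,⟨0,[(18,0)]⟩⟩ ⟨true,1,⟨3,[(4,1),(3,1),(7,0),(1,1),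
  (1,1),(15,0)]⟩,⟨0,[(0,0),(10,0),(20,0)]⟩⟩ ⟨false,0,⟨0,[(18,0),(16,0)]⟩,⟨13,[(4,5),(0,2),(1,5),(0,
  6),(10,7),(0,0),(0,2),(7,1),(3,2)]⟩⟩]⟩)) (.I [1,0,0,0,0,0,0,0,-1] (.R ⟨1,false,false,true,[1,0,0,
  -1],[1,-1],[1,0,0,-1,0,0,0,0,-1],(⟨0,[(18,0)]⟩,⟨0,[(19,0)]⟩),(⟨0,[(30,0)]⟩,⟨0,[(31,0)]⟩),⟨0,[(2,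
  0)]⟩,.k,.k,(.x (-1) ⟨3,[(16,0),(0,0),(11,1),(0,3)]⟩ ⟨0,[(31,0)]⟩),(.r 0 ⟨1,[(0,1),(23,0),(0,0),(9,
  1)]⟩ ⟨3,[(1,1),(1,1),(3,1),(9,0),(14,1),(3,0)]⟩),.k,.k,⟨true,0,⟨0,[(0,0),(32,0)]⟩,⟨0,[(3,0),(28,
  0)]⟩⟩,⟨false,0,⟨2,[(5,0),(12,2),(2,0),(2,1)]⟩,⟨0,[(19,0),(16,0)]⟩⟩,⟨false,1,⟨15,[(1,3),(5,7),(0,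
  3),(7,2),(0,0),(7,3),(11,3)]⟩,⟨0,[(35,0)]⟩⟩,⟨false,0,⟨3,[(3,3),(1,0),(2,1),(9,3),(1,1),(3,0),(7,
  0)]⟩,⟨0,[(4,0),(30,0)]⟩⟩,⟨true,0,⟨0,[]⟩,⟨0,[(39,0)]⟩⟩,⟨false,0,⟨1,[(3,1),(1,0),(12,1),(5,0),(7,
  0)]⟩,⟨0,[(4,0)]⟩⟩,[.o ⟨false,0,⟨3,[(5,0),(2,1),(11,1),(3,0),(7,0)]⟩,⟨3,[(16,0),(0,0),(17,3),(1,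
  1)]⟩⟩,.o ⟨false,1,⟨23,[(1,3),(5,7),(0,3),(7,2),(0,0),(7,3),(3,11),(4,7)]⟩,⟨0,[(35,0)]⟩⟩,.o ⟨false,
  1,⟨1,[(19,1),(9,0),(6,0)]⟩,⟨2,[(5,0),(12,2),(2,0),(2,1)]⟩⟩,.a ⟨true,0,⟨0,[(19,0)]⟩,⟨0,[(18,0)]⟩⟩
  ⟨false,1,⟨3,[(0,3),(0,1),(5,1),(28,0),(0,0)]⟩,⟨0,[(3,0),(31,0),(3,0)]⟩⟩ ⟨true,0,⟨3,[(5,0),(2,1),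
  (9,3),(1,1),(3,0),(7,0)]⟩,⟨0,[(19,0),(15,0)]⟩⟩]⟩) (.R ⟨1,false,false,true,[1,0,0,-1],[1,-1],[1,1,
  0,-1,0,0,0,0,-1],(⟨0,[(18,0)]⟩,⟨0,[(19,0)]⟩),(⟨0,[(30,0)]⟩,⟨0,[(31,0)]⟩),⟨0,[(2,0)]⟩,.k,.k,(.x
  (-1) ⟨3,[(16,0),(0,0),(11,1),(0,3)]⟩ ⟨0,[(31,0)]⟩),(.r 0 ⟨0,[(1,0),(21,0),(0,0),(8,0),(1,2)]⟩ ⟨2,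
  [(0,0),(0,0),(5,0),(9,0),(16,0),(1,0)]⟩),.k,.k,⟨true,0,⟨0,[(1,0),(21,0),(0,0),(8,0),(1,1)]⟩,⟨0,
  [(0,0)]⟩⟩,⟨false,0,⟨2,[(5,0),(12,2),(2,0),(2,1)]⟩,⟨0,[(19,0),(16,0)]⟩⟩,⟨true,0,⟨0,[(34,0)]⟩,⟨0,
  [(35,0)]⟩⟩,⟨false,0,⟨2,[(0,0),(2,1),(1,0),(2,0),(9,2),(1,0),(3,0),(9,0)]⟩,⟨0,[(4,0),(30,0)]⟩⟩,
  ⟨false,0,⟨0,[]⟩,⟨3,[(16,0),(0,0),(19,1)]⟩⟩,⟨false,0,⟨2,[(0,2),(4,0),(12,2),(2,0),(2,1)]⟩,⟨0,[(4,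
  0)]⟩⟩,[.o ⟨false,0,⟨3,[(5,0),(2,1),(11,1),(3,0),(7,0)]⟩,⟨3,[(16,0),(0,0),(17,3),(1,1)]⟩⟩,.o
  ⟨false,1,⟨23,[(1,3),(5,7),(0,3),(7,2),(0,0),(7,3),(3,11),(4,7)]⟩,⟨0,[(35,0)]⟩⟩,.o ⟨false,1,⟨1,
  [(19,1),(9,0),(6,0)]⟩,⟨2,[(5,0),(12,2),(2,0),(2,1)]⟩⟩,.a ⟨true,0,⟨0,[(19,0)]⟩,⟨0,[(18,0)]⟩⟩
  ⟨false,1,⟨7,[(1,3),(5,1),(8,2),(6,1),(0,1),(11,2)]⟩,⟨0,[(3,0),(31,0)]⟩⟩ ⟨true,0,⟨3,[(5,0),(2,1),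
  (9,3),(1,1),(3,0),(7,0)]⟩,⟨0,[(19,0),(15,0)]⟩⟩]⟩)))) (.Q [0,1,1,0,0,0,0,0,1,0,0,-1] (.p false [0,
  0,0,1] [] (⟨0,[(16,0)]⟩,⟨0,[(15,0)]⟩) .k 0 (⟨0,[]⟩,⟨0,[]⟩) .k .k) (.K ⟨0,[0,0,0,1],0,0,(⟨0,[(17,
  0)]⟩,⟨0,[(16,0)]⟩),.k,(.r (-1) ⟨0,[(5,0),(3,0),(20,0)]⟩ ⟨1,[(1,1),(20,0),(0,0),(7,1),(1,1)]⟩),(.x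
  0 ⟨0,[(29,0)]⟩ ⟨3,[(14,0),(0,0),(11,1),(0,3)]⟩),.k,.k,[⟨0,[(17,0)]⟩,⟨0,[(16,0)]⟩,⟨0,[(1,0),(15,
  0)]⟩,⟨0,[(0,0)]⟩]⟩) (.Q [0,0,0,0,0,-1,0,0,0,1,0,-1] (.p false [0,0,0,1] [1] (⟨0,[(17,0)]⟩,⟨0,[(16,
  0)]⟩) .k 1 (⟨0,[]⟩,⟨0,[]⟩) .k .k) (.I [1,-1,-1,-1,0,0,0,0,-1] (.R ⟨1,false,false,true,[1,0,0,-1],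
  [1,1,-1],[0,1,0,0,0,0,0,0,-1],(⟨0,[(18,0)]⟩,⟨0,[(19,0)]⟩),(⟨0,[(27,0),(3,0)]⟩,⟨0,[(9,0)]⟩),⟨0,[(1,
  0)]⟩,.k,.k,(.x (-1) ⟨3,[(16,0),(0,0),(11,1),(0,3)]⟩ ⟨0,[(31,0)]⟩),(.r 0 ⟨1,[(0,0),(2,0),(10,0),
  (11,0)]⟩ ⟨7,[(7,3),(8,0),(0,2),(5,3),(0,5),(0,1),(9,7)]⟩),(.r 0 ⟨0,[(0,0),(10,0),(20,0)]⟩ ⟨7,[(7,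
  3),(8,0),(0,2),(5,3),(0,9),(0,5),(9,15)]⟩),.k,⟨false,0,⟨0,[(0,0),(10,0),(20,0),(2,0)]⟩,⟨7,[(7,3),
  (8,0),(0,2),(5,3),(0,5),(0,1),(9,7)]⟩⟩,⟨true,0,⟨0,[(13,0),(4,0)]⟩,⟨0,[(19,0),(4,0)]⟩⟩,⟨true,0,⟨0,
  [(39,0)]⟩,⟨0,[]⟩⟩,⟨false,1,⟨3,[(7,1),(9,0),(0,3),(1,1),(3,0),(0,2),(3,0),(5,3)]⟩,⟨1,[(2,1),(5,0),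
  (3,0)]⟩⟩,⟨false,0,⟨0,[(35,0)]⟩,⟨0,[(34,0),(2,0)]⟩⟩,⟨false,1,⟨3,[(7,1),(9,0),(0,3),(1,1),(3,0),(0,
  2),(3,0),(5,7)]⟩,⟨0,[(2,0),(5,0)]⟩⟩,[.o ⟨false,0,⟨0,[(20,0),(14,0)]⟩,⟨15,[(8,7),(6,3),(0,2),(0,2),
  (11,1),(7,7)]⟩⟩,.o ⟨false,1,⟨1,[(23,1),(5,0),(5,1),(1,0)]⟩,⟨0,[(10,0)]⟩⟩,.o ⟨false,1,⟨1,[(19,1),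
  (9,0),(6,0)]⟩,⟨2,[(5,0),(12,2),(2,0),(2,1)]⟩⟩,.a ⟨true,0,⟨0,[(19,0)]⟩,⟨0,[(18,0)]⟩⟩ ⟨false,0,⟨1,
  [(0,0),(2,0),(31,0)]⟩,⟨1,[(17,0),(6,0),(0,0),(11,0)]⟩⟩ ⟨true,0,⟨0,[(18,0),(1,0),(14,0)]⟩,⟨1,[(8,
  0),(3,0),(6,1)]⟩⟩]⟩) (.R ⟨1,false,false,true,[1,0,0,-1],[0,1],[1,0,0,-1,0,0,0,0,-1],(⟨0,[(18,0)]⟩,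
  ⟨0,[(19,0)]⟩),(⟨0,[(31,0)]⟩,⟨0,[(30,0)]⟩),⟨0,[(1,0)]⟩,.k,.k,(.x (-1) ⟨3,[(16,0),(0,0),(11,1),(0,
  3)]⟩ ⟨0,[(31,0)]⟩),(.x (-1) ⟨3,[(16,0),(0,0),(11,1),(0,3)]⟩ ⟨0,[(31,0)]⟩),(.r (-1) ⟨5,[(2,3),(5,
  5),(7,0),(1,3),(1,3),(2,1),(12,3),(0,0)]⟩ ⟨0,[(0,0),(32,0),(1,0)]⟩),.k,⟨false,1,⟨1,[(2,1),(5,1),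
  (9,1),(1,1),(15,0),(0,0)]⟩,⟨0,[(0,0),(34,0)]⟩⟩,⟨true,0,⟨0,[(18,0)]⟩,⟨2,[(5,0),(13,2),(1,0),(2,
  1)]⟩⟩,⟨false,1,⟨0,[(34,0),(2,0)]⟩,⟨0,[(35,0)]⟩⟩,⟨true,0,⟨0,[(0,0),(17,0)]⟩,⟨3,[(2,3),(2,0),(2,1),
  (11,1),(3,0),(7,0)]⟩⟩,⟨true,0,⟨0,[]⟩,⟨0,[(39,0)]⟩⟩,⟨true,0,⟨0,[(0,0),(17,0),(16,0)]⟩,⟨0,[(2,0),(5,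
  0),(11,0)]⟩⟩,[.o ⟨false,0,⟨1,[(0,0),(2,0),(31,0)]⟩,⟨3,[(8,1),(11,1),(8,0),(7,2)]⟩⟩,.o ⟨false,0,⟨0,
  [(35,0)]⟩,⟨1,[(29,0),(4,1),(2,0)]⟩⟩,.o ⟨false,1,⟨1,[(19,1),(9,0),(6,0)]⟩,⟨2,[(5,0),(12,2),(2,0),
  (2,1)]⟩⟩,.a ⟨true,0,⟨0,[(19,0)]⟩,⟨0,[(18,0)]⟩⟩ ⟨true,0,⟨3,[(2,3),(2,0),(2,1),(9,3),(1,1),(3,0),(7,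
  0)]⟩,⟨0,[(0,0)]⟩⟩ ⟨false,0,⟨0,[(18,0),(16,0)]⟩,⟨3,[(2,0),(1,0),(2,1),(0,1),(10,1),(1,1),(7,
  0)]⟩⟩]⟩)) (.I [1,-1,-1,0,0,0,0,0,-1] (.R ⟨0,false,false,true,[1,0,0,-1],[1,1,-1],[0,1,0,0,0,0,0,0,
  -1],(⟨0,[(18,0)]⟩,⟨0,[(19,0)]⟩),(⟨0,[(27,0),(3,0)]⟩,⟨0,[(9,0)]⟩),⟨0,[(1,0)]⟩,.k,.k,(.x (-1) ⟨3,
  [(16,0),(0,0),(11,1),(0,3)]⟩ ⟨0,[(31,0)]⟩),(.r 0 ⟨1,[(0,0),(2,0),(10,1)]⟩ ⟨7,[(7,3),(8,0),(0,2),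
  (5,3),(0,5),(0,1),(9,7)]⟩),.k,.k,⟨false,0,⟨0,[(0,0),(10,0),(20,0)]⟩,⟨7,[(7,3),(8,0),(0,2),(5,3),
  (0,5),(0,1),(9,7)]⟩⟩,⟨true,0,⟨0,[(13,0),(4,0)]⟩,⟨0,[(19,0),(4,0)]⟩⟩,⟨true,0,⟨0,[(39,0)]⟩,⟨0,[]⟩⟩,
  ⟨false,1,⟨3,[(7,1),(9,0),(0,3),(1,1),(3,0),(0,2),(3,0),(5,3)]⟩,⟨1,[(2,1),(5,0),(3,0)]⟩⟩,⟨false,0,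
  ⟨0,[]⟩,⟨0,[]⟩⟩,⟨false,0,⟨0,[]⟩,⟨0,[]⟩⟩,[.o ⟨false,0,⟨0,[(20,0),(14,0)]⟩,⟨15,[(8,7),(6,3),(0,2),(0,
  2),(11,1),(7,7)]⟩⟩,.o ⟨false,1,⟨1,[(23,1),(5,0),(5,1),(1,0)]⟩,⟨0,[(10,0)]⟩⟩,.o ⟨false,1,⟨1,[(19,
  1),(9,0),(6,0)]⟩,⟨2,[(5,0),(12,2),(2,0),(2,1)]⟩⟩,.a ⟨true,0,⟨0,[(19,0)]⟩,⟨0,[(18,0)]⟩⟩ ⟨false,0,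
  ⟨1,[(0,0),(2,0)]⟩,⟨1,[(17,0),(6,0),(0,0),(11,0)]⟩⟩ ⟨true,0,⟨0,[(18,0),(1,0),(14,0)]⟩,⟨1,[(8,0),(3,
  0),(6,1)]⟩⟩]⟩) (.R ⟨0,false,false,true,[1,0,-1],[0,0,0,1],[0,1],(⟨0,[(27,0)]⟩,⟨0,[(28,0)]⟩),(⟨0,
  [(19,0)]⟩,⟨0,[(18,0)]⟩),⟨0,[(6,0)]⟩,.k,.k,.k,.k,.k,.k,⟨false,0,⟨1,[(2,1),(2,0),(12,1),(5,0),(7,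
  0)]⟩,⟨3,[(16,0),(0,2)]⟩⟩,⟨true,0,⟨0,[(18,0),(5,0)]⟩,⟨0,[(13,0),(5,0)]⟩⟩,⟨false,0,⟨0,[(26,0)]⟩,⟨5,
  [(2,1),(4,3),(8,0),(1,1),(1,1),(3,1),(12,0)]⟩⟩,⟨true,0,⟨0,[(0,0),(11,0),(5,0)]⟩,⟨0,[(2,0),(17,
  0)]⟩⟩,⟨false,0,⟨0,[]⟩,⟨0,[]⟩⟩,⟨false,0,⟨0,[]⟩,⟨0,[]⟩⟩,[.a ⟨true,0,⟨0,[(0,0),(17,0)]⟩,⟨0,[(2,0)]⟩⟩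
  ⟨true,0,⟨0,[(39,0)]⟩,⟨0,[(33,0)]⟩⟩ ⟨false,1,⟨23,[(7,7),(7,3),(0,2),(0,10),(0,23),(5,15),(4,1),(2,
  15)]⟩,⟨0,[(2,0),(10,0)]⟩⟩,.o ⟨false,1,⟨1,[(17,0),(0,1),(5,0),(0,0),(3,0)]⟩,⟨1,[(2,1),(2,0),(18,0),
  (7,0)]⟩⟩,.o ⟨false,0,⟨0,[(13,0)]⟩,⟨7,[(7,3),(7,1),(0,1),(7,3),(4,0),(2,1),(3,0)]⟩⟩,.o ⟨false,0,⟨0,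
  [(21,0)]⟩,⟨0,[(24,0),(11,0)]⟩⟩]⟩))))) (.I [0,0,1,1,0,0,0,0,-1] (.K ⟨0,[0,0,0,1],0,(-1),(⟨0,[(16,
  0)]⟩,⟨0,[(15,0)]⟩),.k,(.r (-1) ⟨15,[(1,1),(2,3),(0,5),(2,3),(5,4),(1,1),(3,5),(12,8)]⟩ ⟨0,[(0,
  0)]⟩),(.x 0 ⟨0,[(28,0)]⟩ ⟨3,[(13,0),(0,0),(11,1),(0,3)]⟩),.k,.k,[⟨0,[(16,0)]⟩,⟨0,[(15,0)]⟩,⟨7,
  [(13,4),(0,0),(1,7),(12,3),(3,1)]⟩,⟨0,[(1,0)]⟩]⟩) (.K ⟨0,[0,0,0,1],0,(-1),(⟨0,[(16,0)]⟩,⟨0,[(15,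
  0)]⟩),.k,(.x 0 ⟨0,[(18,0),(2,0),(5,0)]⟩ ⟨0,[(28,0),(4,0)]⟩),(.x 0 ⟨0,[(28,0)]⟩ ⟨3,[(13,0),(0,0),
  (11,1),(0,3)]⟩),.k,.k,[⟨0,[(16,0)]⟩,⟨0,[(15,0)]⟩,⟨7,[(13,4),(0,0),(1,7),(12,3),(3,1)]⟩,⟨0,[(1,
  0)]⟩]⟩)))))))

theorem ok16 : chk (cU (-1) true 3) t16 r10 = true := by decide +kernel

noncomputable def t17 : Tre :=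
  .Q [0,0,0,0,0,1,0,0,0,0,-1] (.ed true [1,-1,1] .k) t15 t16

theorem ok17 : chk (cU (-1) true 3) t17 r9 = true :=
  chk_Q (e' := [0,0,0,0,0,-1,0,0,0,0,1]) (by decide +kernel) (by decide +kernel) ok15 ok16

noncomputable def t18 : Tre :=
  .Q [0,0,0,1,0,0,-1,-1,0,0,1] (.p true [0,0,1] [] (⟨0,[(17,0)]⟩,⟨0,[(16,0)]⟩) .k 0 (⟨0,[]⟩,⟨0,[]⟩)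
  .k .k) t14 t17

theorem ok18 : chk (cU (-1) true 3) t18 r3 = true :=
  chk_Q (e' := [0,0,0,-1,0,0,1,1,0,0,-1]) (by decide +kernel) (by decide +kernel) ok14 ok17

noncomputable def t19 : Tre :=
  .I [0,1,0,1,0,0,0,-1] t13 t18

theorem ok19 : chk (cU (-1) true 3) t19 r2 = true :=
  chk_I (e' := [1,-1,0,-1,0,0,0,1]) (by decide +kernel) (by decide +kernel) ok13 ok18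

noncomputable def t20 : Tre :=
  .Q [0,0,0,0,0,0,-1,-1,0,0,1] (.p true [0,0,1] [] (⟨0,[(15,0)]⟩,⟨0,[(14,0)]⟩) .k 0 (⟨0,[]⟩,⟨0,[]⟩)
  .k .k) t2 t19

theorem ok20 : chk (cU (-1) true 3) t20 r1 = true :=
  chk_Q (e' := [0,0,0,0,0,0,1,1,0,0,-1]) (by decide +kernel) (by decide +kernel) ok2 ok19

noncomputable def t21 : Tre :=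
  .Q [0,0,0,0,0,0,1,0,0,1,-1] (.p false [0,0,1] [1] (⟨0,[(14,0)]⟩,⟨0,[(13,0)]⟩) .k 1 (⟨0,[]⟩,⟨0,
  []⟩) .k .k) t1 t20

theorem ok21 : chk (cU (-1) true 3) t21 r0 = true :=
  chk_Q (e' := [0,0,0,0,0,0,-1,0,0,-1,1]) (by decide +kernel) (by decide +kernel) ok1 ok20

noncomputable def t22 : Tre :=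
  .I [0,0,0,1,0,0,0,-1] t0 t21

theorem ok22 : chk (cU (-1) true 3) t22 base = true :=
  chk_I (e' := [1,0,0,-1,0,0,0,1]) (by decide +kernel) (by decide +kernel) ok0 ok21

theorem ok : chkB (cU (-1) true 3) (fax (fcU (-1)) true 35 (-1) 3 true (tU true)) t22 base = true :=
  chkB_of (by decide +kernel) ok22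

end Helper11.CT.T1_35_m1_1_u
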