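import Pool.Agent.Helper11.CT.Cfg
import Pool.Agent.Helper11.CT.Cut

set_option autoImplicit false
set_option linter.all false

namespace Helper11.CT.T1_35_m1_m1_u

open Helper11.CT

noncomputable def base : List Con :=
  [(false,[0,0,0,0,0,0,2,2,0,1,-2]),
  (true,[0,0,0,0,1,0,0,0,-2]),
  (true,[0,0,0,0,1,0,0,0,2]),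
  (false,[0,0,0,0,0,0,0,0,0,1,0,-1]),
  (false,[0,0,0,0,0,0,0,0,0,0,0,1]),
  (false,[0,1,0,0,0,0,-1,-1,0,-1,1]),
  (false,[0,0,1,0,0,0,-1,0,0,-1,1]),
  (false,[0,1,0,0,0,0,1,1,0,0,-1]),
  (false,[0,1,0,0,0,0,-1,-1,0,0,1]),
  (false,[0,0,1,0,0,0,1,0,0,0,-1]),
  (false,[0,0,1,0,0,0,-1,0,0,0,1]),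
  (true,[0,0,0,0,0,0,0,-1]),
  (false,[0,0,0,0,0,0,0,0,0,1,-1]),
  (false,[0,0,0,0,0,0,0,0,0,0,1]),
  (false,[0,0,0,0,1,0,0,0,0,-2]),
  (false,[0,0,0,0,0,-1,0,0,0,1]),
  (true,[0,0,0,0,0,1]),
  (true,[0,2,-1]),
  (true,[1,-1,1]),
  (true,[0,1,0,-1]),
  (true,[0,0,0,1]),
  (true,[0,0,-2,0,1]),
  (true,[0,-2,0,0,1]),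
  (true,[-1,0,1]),
  (true,[-1,1])]

noncomputable def l0 : List Con := (false, [0,1,0,-1,0,0,-1,-1,0,-1,1]) :: base

noncomputable def r0 : List Con := (false, [0,-1,0,1,0,0,1,1,0,1,-1]) :: base

noncomputable def t0 : Tre :=
  (.I [0,-1,0,0,1,0,0,2] (.Q [0,1,0,-1,0,0,0,-1,0,-1] (.pp true [-1,1]) (.I [1,-1,-2,-2,1,0,0,-2]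
  (.Q [0,0,0,0,0,1,0,0,0,-1,1] (.ed false [0,1,1] .k) (.I [0,0,-2,-2,1,0,0,-1] (.K ⟨2,[-1,1,1],0,0,
  (⟨0,[(1,0)]⟩,⟨0,[(18,0),(2,0)]⟩),.k,.k,(.r 0 ⟨1,[(6,0),(5,0),(2,0),(0,1),(9,3)]⟩ ⟨0,[(0,0)]⟩),.k,
  .k,[⟨0,[(9,0),(0,0),(15,0)]⟩,⟨0,[(5,0)]⟩,⟨1,[(12,1),(2,0),(0,0)]⟩,⟨1,[(6,0),(2,0),(0,0),(6,
  1)]⟩]⟩) (.Q [0,0,0,0,0,1,0,0,0,0,-1] (.ed true [1,-1,1] .k) (.Q [0,-1,0,1,0,0,-1,-1,0,1,1] (.p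
  true [1,-1,1] [] (⟨0,[(20,0),(1,0)]⟩,⟨0,[(0,0)]⟩) .k 0 (⟨0,[]⟩,⟨0,[]⟩) .k .k) (.K ⟨1,[0,1,-1],1,0,
  (⟨0,[(1,0)]⟩,⟨0,[(21,0),(1,0)]⟩),.k,.k,(.r 1 ⟨0,[(2,0),(16,1)]⟩ ⟨15,[(4,5),(1,13),(2,0),(0,0),(16,
  19),(1,9)]⟩),.k,.k,[⟨0,[(2,2),(1,1),(2,0),(0,0),(18,0)]⟩,⟨3,[(0,0),(5,1),(0,0),(1,0),(0,0),(5,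
  1)]⟩,⟨0,[(7,0),(0,0)]⟩,⟨0,[(0,0)]⟩]⟩) (.K ⟨2,[-1,1,1],0,0,(⟨0,[(3,0)]⟩,⟨0,[(20,0),(2,0)]⟩),.k,.k,
  (.x (-1) ⟨1,[(3,0),(4,0),(10,1),(1,0),(2,2),(4,1)]⟩ ⟨4,[(0,3),(1,6),(1,4),(8,0),(0,7),(5,4),(1,0),
  (0,9),(5,0)]⟩),.k,.k,[⟨0,[(11,0),(0,0),(15,0)]⟩,⟨0,[(7,0)]⟩,⟨1,[(14,1),(2,0),(0,0)]⟩,⟨1,[(8,0),(2,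
  0),(0,0),(6,1)]⟩]⟩)) (.R ⟨2,true,false,true,[0,1],[1,1,-1],[1,0,1],(⟨0,[]⟩,⟨0,[]⟩),(⟨0,[(19,0),(3,
  0)]⟩,⟨0,[(0,0)]⟩),⟨0,[]⟩,.k,.k,.k,.k,.k,.k,⟨true,1,⟨3,[(3,0),(1,2),(19,1),(0,1)]⟩,⟨0,[(1,2),(1,1),
  (20,0),(1,0)]⟩⟩,⟨false,1,⟨0,[(13,0),(14,0)]⟩,⟨1,[(7,0),(2,0),(0,0),(6,1)]⟩⟩,⟨false,1,⟨0,[(26,0),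
  (2,0)]⟩,⟨0,[(27,0)]⟩⟩,⟨true,0,⟨0,[(12,0)]⟩,⟨1,[(7,0),(2,0),(0,0)]⟩⟩,⟨true,0,⟨0,[]⟩,⟨0,[(31,0)]⟩⟩,
  ⟨false,0,⟨0,[(1,1),(1,0),(2,0),(21,0)]⟩,⟨7,[(3,3),(3,7),(0,0),(0,0),(7,7),(11,1)]⟩⟩,[]⟩))) (.Q [0,
  0,0,0,0,0,1,0,0,0,-1] (.p false [0,0,1] [] (⟨0,[(18,0)]⟩,⟨0,[(17,0)]⟩) .k 0 (⟨0,[]⟩,⟨0,[]⟩) .k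
  .k) (.I [0,0,-2,-2,1,0,0,-1] (.K ⟨2,[0,1,1],0,0,(⟨0,[(20,0),(2,0)]⟩,⟨0,[(2,0)]⟩),.k,.k,(.r 0 ⟨1,
  [(7,0),(5,0),(2,0),(0,1),(9,3)]⟩ ⟨0,[(0,0)]⟩),.k,.k,[⟨0,[(27,0)]⟩,⟨0,[(6,0),(3,0),(0,0)]⟩,⟨1,[(16,
  0),(0,2)]⟩,⟨0,[(1,0)]⟩]⟩) (.K ⟨2,[0,1,1],0,0,(⟨0,[(20,0),(2,0)]⟩,⟨0,[(2,0)]⟩),.k,.k,(.x (-1) ⟨0,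
  [(1,0),(18,0),(2,1),(4,0)]⟩ ⟨0,[(1,0),(0,0),(10,1),(8,0)]⟩),.k,.k,[⟨0,[(27,0)]⟩,⟨0,[(6,0),(3,0),
  (0,0)]⟩,⟨1,[(16,0),(0,2)]⟩,⟨0,[(1,0)]⟩]⟩)) (.K ⟨0,[1,-1,-1],0,0,(⟨0,[(1,0)]⟩,⟨0,[(19,0),(2,0)]⟩),
  .k,(.r (-1) ⟨2,[(0,0),(1,1),(2,0),(0,0),(18,0),(1,0)]⟩ ⟨1,[(6,0),(5,0),(2,0),(0,1),(9,3)]⟩),.k,.k,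
  .k,[⟨1,[(6,0),(2,0),(0,0),(6,1)]⟩,⟨0,[(0,0)]⟩,⟨0,[(6,0),(7,0),(11,0)]⟩,⟨0,[(5,0)]⟩]⟩))) (.Q [0,0,
  1,0,0,0,0,0,0,-1] (.pp true [-1,1]) (.Q [0,0,0,0,0,0,-1,0,0,0,1] (.p true [0,0,1] [] (⟨0,[(18,
  0)]⟩,⟨0,[(17,0)]⟩) .k 0 (⟨0,[]⟩,⟨0,[]⟩) .k .k) (.R ⟨2,false,false,false,[0,1],[1,0,-1],[1,1,1],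
  (⟨0,[]⟩,⟨0,[]⟩),(⟨0,[(18,0)]⟩,⟨0,[(19,0)]⟩),⟨0,[]⟩,.k,.k,.k,.k,.k,.k,⟨false,0,⟨5,[(0,1),(1,0),(1,
  0),(0,1),(0,1),(16,1)]⟩,⟨1,[(17,1),(9,0),(0,0)]⟩⟩,⟨true,0,⟨0,[(12,0)]⟩,⟨1,[(6,0),(2,0),(0,0),(6,
  1)]⟩⟩,⟨true,0,⟨0,[(25,0)]⟩,⟨0,[(26,0)]⟩⟩,⟨false,1,⟨0,[(5,0),(22,0)]⟩,⟨1,[(6,0),(2,0),(0,0),(15,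
  1)]⟩⟩,⟨false,0,⟨0,[]⟩,⟨3,[(7,0),(0,0),(19,1)]⟩⟩,⟨false,1,⟨0,[(11,0),(16,0)]⟩,⟨1,[(6,0),(2,0),(0,
  0)]⟩⟩,[.a ⟨true,0,⟨0,[(0,0),(16,0)]⟩,⟨1,[(6,0),(2,0),(0,0)]⟩⟩ ⟨false,0,⟨25,[(2,1),(4,0),(0,0),(5,
  3),(0,3),(7,7),(1,3)]⟩,⟨1,[(27,0),(0,0)]⟩⟩ ⟨true,0,⟨0,[(11,0),(12,0)]⟩,⟨1,[(6,0),(2,0),(0,0)]⟩⟩,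
  .o ⟨false,1,⟨0,[(11,0),(16,0)]⟩,⟨0,[(13,0)]⟩⟩,.o ⟨false,1,⟨3,[(7,0),(0,0),(18,1)]⟩,⟨0,[(1,0)]⟩⟩,
  .e ⟨false,0,⟨0,[]⟩,⟨3,[(7,0),(0,0),(19,1)]⟩⟩ ⟨false,1,⟨0,[(11,0),(16,0)]⟩,⟨1,[(6,0),(2,0),(0,
  0)]⟩⟩]⟩) (.I [0,0,-1,-1,1,0,0,0,1] (.I [0,0,-1,-1,1,0,0,1] (.Q [0,0,0,0,0,0,-1,-1,0,0,1] (.p true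
  [0,0,1] [] (⟨0,[(21,0)]⟩,⟨0,[(20,0)]⟩) .k 0 (⟨0,[]⟩,⟨0,[]⟩) .k .k) (.I [1,1,1,1,-1] (.R ⟨2,false,
  false,false,[0,1],[0,0,1],[],(⟨0,[]⟩,⟨0,[]⟩),(⟨0,[(23,0)]⟩,⟨0,[(22,0)]⟩),⟨0,[]⟩,.k,.k,.k,.k,.k,.k,
  ⟨true,0,⟨0,[(21,0)]⟩,⟨3,[(6,0),(1,0),(19,1),(0,1)]⟩⟩,⟨false,0,⟨0,[(4,0)]⟩,⟨0,[(20,0),(10,0)]⟩⟩,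
  ⟨true,1,⟨1,[(29,1),(1,0),(0,0)]⟩,⟨0,[(0,0)]⟩⟩,⟨false,1,⟨1,[(2,0),(4,0),(2,0),(17,0),(3,0)]⟩,⟨0,
  [(1,0),(28,0)]⟩⟩,⟨false,1,⟨1,[(31,0),(0,0)]⟩,⟨1,[(19,0),(0,0)]⟩⟩,⟨false,1,⟨7,[(10,3),(0,0),(0,0),
  (11,1),(7,3)]⟩,⟨0,[(1,0)]⟩⟩,[.a ⟨true,0,⟨1,[(10,0),(2,0),(0,0)]⟩,⟨0,[(1,0)]⟩⟩ ⟨false,1,⟨3,[(11,0),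
  (0,0),(18,1)]⟩,⟨0,[]⟩⟩ ⟨true,0,⟨3,[(5,1),(4,1),(8,0),(0,0)]⟩,⟨0,[(1,0)]⟩⟩,.o ⟨false,1,⟨7,[(10,3),
  (0,0),(0,0),(11,1),(7,3)]⟩,⟨0,[(15,0)]⟩⟩,.o ⟨false,1,⟨3,[(11,0),(0,0),(18,1)]⟩,⟨0,[(5,0)]⟩⟩,.e
  ⟨false,1,⟨1,[(31,0),(0,0)]⟩,⟨1,[(19,0),(0,0)]⟩⟩ ⟨false,1,⟨7,[(10,3),(0,0),(0,0),(11,1),(7,3)]⟩,⟨0,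
  [(1,0)]⟩⟩]⟩) (.R ⟨2,false,false,false,[0,1],[1,0,-1],[0,1,1,1],(⟨0,[]⟩,⟨0,[]⟩),(⟨0,[(22,0)]⟩,⟨0,
  [(23,0)]⟩),⟨0,[]⟩,.k,.k,.k,.k,.k,.k,⟨false,0,⟨15,[(6,7),(4,0),(0,0),(14,3),(3,5)]⟩,⟨0,[(0,0),(20,
  0)]⟩⟩,⟨true,0,⟨0,[(16,0)]⟩,⟨1,[(10,0),(2,0),(0,0),(6,1)]⟩⟩,⟨true,0,⟨25,[(6,1),(4,0),(0,0),(5,3),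
  (0,3),(7,7),(1,3)]⟩,⟨0,[]⟩⟩,⟨false,1,⟨0,[(9,0),(22,0)]⟩,⟨1,[(10,0),(2,0),(0,0),(15,1)]⟩⟩,⟨false,0,
  ⟨0,[(30,0)]⟩,⟨0,[(29,0),(2,0)]⟩⟩,⟨false,1,⟨0,[(15,0),(16,0)]⟩,⟨1,[(10,0),(2,0),(0,0)]⟩⟩,[.a ⟨true,
  0,⟨0,[(1,0)]⟩,⟨1,[(10,0),(2,0),(0,0)]⟩⟩ ⟨false,0,⟨21,[(6,1),(4,0),(0,0),(5,3),(0,3),(7,7),(2,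
  17)]⟩,⟨0,[(0,0)]⟩⟩ ⟨true,0,⟨0,[(15,0),(12,0)]⟩,⟨1,[(10,0),(2,0),(0,0)]⟩⟩,.o ⟨false,1,⟨0,[(15,0),
  (16,0)]⟩,⟨0,[(17,0)]⟩⟩,.o ⟨false,1,⟨3,[(11,0),(0,0),(18,1)]⟩,⟨0,[(5,0)]⟩⟩,.e ⟨false,0,⟨0,[(30,
  0)]⟩,⟨0,[(29,0),(2,0)]⟩⟩ ⟨false,1,⟨0,[(15,0),(16,0)]⟩,⟨1,[(10,0),(2,0),(0,0)]⟩⟩]⟩)) (.Q [0,0,0,1,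
  0,0,-1,-1,0,0,1] (.p true [0,0,1] [] (⟨0,[(22,0)]⟩,⟨0,[(21,0)]⟩) .k 0 (⟨0,[]⟩,⟨0,[]⟩) .k .k) (.I
  [0,1,1,1,-1,0,0,-1] (.R ⟨2,true,false,false,[0,1],[0,0,1],[0,1,1,1],(⟨0,[]⟩,⟨0,[]⟩),(⟨0,[(24,0)]⟩,
  ⟨0,[(23,0)]⟩),⟨0,[]⟩,.k,.k,.k,.k,.k,.k,⟨true,(-1),⟨0,[(0,0)]⟩,⟨0,[(3,0),(25,0)]⟩⟩,⟨false,0,⟨0,[(5,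
  0)]⟩,⟨0,[(1,0),(1,0)]⟩⟩,⟨true,0,⟨25,[(7,1),(4,0),(0,0),(5,3),(0,3),(7,7),(1,3)]⟩,⟨0,[]⟩⟩,⟨false,1,
  ⟨1,[(3,0),(4,0),(2,0),(17,0),(3,0)]⟩,⟨0,[(1,0)]⟩⟩,⟨false,0,⟨0,[(31,0)]⟩,⟨0,[(30,0),(2,0)]⟩⟩,⟨true,
  0,⟨0,[(2,0)]⟩,⟨0,[(19,0)]⟩⟩,[]⟩) (.R ⟨2,true,false,true,[0,1],[0,0,1],[1,0,1],(⟨0,[]⟩,⟨0,[]⟩),(⟨0,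
  [(24,0)]⟩,⟨0,[(23,0)]⟩),⟨0,[]⟩,.k,.k,.k,.k,.k,.k,⟨true,0,⟨0,[(22,0),(6,0)]⟩,⟨2,[(0,0),(6,0),(20,
  0),(1,0)]⟩⟩,⟨false,0,⟨0,[(5,0)]⟩,⟨0,[(1,0),(1,0)]⟩⟩,⟨false,1,⟨0,[(30,0),(2,0)]⟩,⟨0,[(31,0)]⟩⟩,
  ⟨true,0,⟨0,[(10,0),(0,0)]⟩,⟨0,[(1,0)]⟩⟩,⟨true,0,⟨0,[]⟩,⟨25,[(7,1),(4,0),(0,0),(5,3),(0,3),(7,7),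
  (1,3)]⟩⟩,⟨false,0,⟨0,[(2,0)]⟩,⟨0,[(19,0),(13,0)]⟩⟩,[]⟩)) (.Q [0,1,-1,0,0,0,0,0,-1,0,0,1] (.p true
  [0,0,0,1] [] (⟨0,[(14,0)]⟩,⟨0,[(13,0)]⟩) .k 0 (⟨0,[]⟩,⟨0,[]⟩) .k .k) (.Q [0,1,1,0,0,0,0,0,1,0,0,
  -1] (.p false [0,0,0,1] [] (⟨0,[(15,0)]⟩,⟨0,[(14,0)]⟩) .k 0 (⟨0,[]⟩,⟨0,[]⟩) .k .k) (.K ⟨0,[0,0,0,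
  1],0,0,(⟨0,[(16,0)]⟩,⟨0,[(15,0)]⟩),.k,(.r (-1) ⟨0,[(5,0)]⟩ ⟨0,[(1,0),(5,0),(7,0),(14,0),(1,0)]⟩),
  (.x 0 ⟨0,[(28,0)]⟩ ⟨3,[(13,0),(0,0),(11,1),(0,3)]⟩),.k,.k,[⟨0,[(16,0)]⟩,⟨0,[(15,0)]⟩,⟨0,[(1,0)]⟩,
  ⟨0,[(0,0)]⟩]⟩) (.Q [0,0,0,0,0,1,0,0,0,-1,0,1] (.p true [0,0,0,1] [1] (⟨0,[(16,0)]⟩,⟨0,[(15,0)]⟩)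
  .k 1 (⟨0,[]⟩,⟨0,[]⟩) .k .k) (.R ⟨0,false,false,true,[1,0,0,-1],[0,1],[1,0,1],(⟨0,[(16,0)]⟩,⟨0,
  [(17,0)]⟩),(⟨0,[(29,0)]⟩,⟨0,[(28,0)]⟩),⟨0,[(0,0)]⟩,.k,.k,(.x (-1) ⟨3,[(14,0),(0,0),(11,1),(0,3)]⟩
  ⟨0,[(29,0)]⟩),(.x (-1) ⟨3,[(14,0),(0,0),(11,1),(0,3)]⟩ ⟨0,[(29,0)]⟩),.k,.k,⟨false,1,⟨5,[(1,1),(1,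
  1),(2,1),(5,1),(3,1),(17,0),(0,2)]⟩,⟨21,[(9,1),(4,0),(0,0),(5,3),(0,3),(7,7),(2,17)]⟩⟩,⟨true,0,⟨0,
  [(16,0)]⟩,⟨0,[(8,0),(8,0)]⟩⟩,⟨false,1,⟨1,[(15,0),(6,0),(0,0),(11,0)]⟩,⟨0,[(1,0),(2,0),(11,0),(1,
  0)]⟩⟩,⟨true,0,⟨5,[(9,2),(5,2),(0,5),(4,0),(0,0),(1,4),(5,0)]⟩,⟨0,[(1,0),(1,0),(14,0)]⟩⟩,⟨false,0,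
  ⟨0,[]⟩,⟨0,[]⟩⟩,⟨false,0,⟨0,[]⟩,⟨0,[]⟩⟩,[.o ⟨false,0,⟨21,[(9,1),(4,0),(0,0),(5,3),(0,3),(7,7),(2,
  17)]⟩,⟨3,[(3,1),(8,1),(14,0),(7,2)]⟩⟩,.o ⟨false,0,⟨0,[(33,0)]⟩,⟨1,[(27,0),(4,1),(2,0)]⟩⟩,.o
  ⟨false,1,⟨1,[(17,1),(9,0),(6,0)]⟩,⟨0,[(8,0),(7,0)]⟩⟩,.a ⟨true,0,⟨0,[(17,0)]⟩,⟨0,[(16,0)]⟩⟩ ⟨true,
  0,⟨0,[]⟩,⟨25,[(9,1),(4,0),(0,0),(5,3),(0,3),(7,7),(1,3)]⟩⟩ ⟨false,0,⟨0,[(16,0),(16,0)]⟩,⟨3,[(3,1),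
  (8,1),(4,3),(9,0),(7,2)]⟩⟩]⟩) (.R ⟨1,false,false,true,[1,0,0,-1],[0,1],[1,0,0,-1,0,0,0,0,-1],(⟨0,
  [(16,0)]⟩,⟨0,[(17,0)]⟩),(⟨0,[(29,0)]⟩,⟨0,[(28,0)]⟩),⟨0,[(0,0)]⟩,.k,.k,(.x (-1) ⟨3,[(14,0),(0,0),
  (11,1),(0,3)]⟩ ⟨0,[(29,0)]⟩),(.x (-1) ⟨3,[(14,0),(0,0),(11,1),(0,3)]⟩ ⟨0,[(29,0)]⟩),(.r (-1) ⟨0,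
  [(1,0),(3,0),(4,0),(5,0)]⟩ ⟨3,[(9,1),(5,1),(6,0),(0,0),(0,3),(6,1),(1,3)]⟩),.k,⟨false,1,⟨1,[(1,1),
  (1,1),(8,1),(3,1),(17,0),(0,0)]⟩,⟨5,[(9,2),(5,2),(5,0),(0,0),(1,4),(5,0),(2,5)]⟩⟩,⟨true,0,⟨0,[(16,
  0)]⟩,⟨0,[(8,0),(8,0)]⟩⟩,⟨false,1,⟨0,[(32,0),(2,0)]⟩,⟨0,[(33,0)]⟩⟩,⟨true,0,⟨5,[(9,2),(5,2),(0,5),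
  (4,0),(0,0),(1,4),(5,0)]⟩,⟨0,[(1,0),(1,0),(14,0)]⟩⟩,⟨true,0,⟨0,[]⟩,⟨25,[(9,1),(4,0),(0,0),(5,3),
  (0,3),(7,7),(1,3)]⟩⟩,⟨true,0,⟨5,[(9,2),(5,2),(0,5),(4,0),(0,0),(1,4),(5,0),(2,5)]⟩,⟨0,[(1,0),(1,
  0),(8,0)]⟩⟩,[.o ⟨false,0,⟨21,[(9,1),(4,0),(0,0),(5,3),(0,3),(7,7),(2,17)]⟩,⟨3,[(3,1),(8,1),(14,0),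
  (7,2)]⟩⟩,.o ⟨false,0,⟨0,[(33,0)]⟩,⟨1,[(27,0),(4,1),(2,0)]⟩⟩,.o ⟨false,1,⟨1,[(17,1),(9,0),(6,0)]⟩,
  ⟨0,[(8,0),(7,0)]⟩⟩,.a ⟨true,0,⟨0,[(17,0)]⟩,⟨0,[(16,0)]⟩⟩ ⟨true,0,⟨0,[(1,0),(1,0),(12,0),(1,0)]⟩,
  ⟨5,[(9,2),(5,2),(5,0),(0,0),(1,4),(5,0)]⟩⟩ ⟨false,0,⟨0,[(16,0),(16,0)]⟩,⟨3,[(3,1),(8,1),(4,3),(9,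
  0),(7,2)]⟩⟩]⟩))) (.Q [0,1,1,0,-1,0,0,0,1,0,0,-1] (.p false [0,0,0,1] [] (⟨0,[(15,0)]⟩,⟨0,[(14,
  0)]⟩) .k 0 (⟨0,[]⟩,⟨0,[]⟩) .k .k) (.K ⟨0,[0,0,0,1],0,(-1),(⟨0,[(16,0)]⟩,⟨0,[(15,0)]⟩),.k,(.x 0 ⟨1,
  [(7,1),(13,0),(0,0),(4,1)]⟩ ⟨0,[(28,0),(4,0)]⟩),(.x 0 ⟨0,[(28,0)]⟩ ⟨3,[(13,0),(0,0),(11,1),(0,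
  3)]⟩),.k,.k,[⟨0,[(16,0)]⟩,⟨0,[(15,0)]⟩,⟨7,[(13,4),(0,0),(1,7),(12,3),(3,1)]⟩,⟨0,[(0,0)]⟩]⟩) (.Q
  [0,0,0,0,0,1,0,0,0,0,-1] (.ed true [1,-1,1] .k) (.Q [0,0,0,1,0,0,-1,-1,0,1,1] (.p true [1,-1,1]
  [] (⟨0,[(26,0),(1,0)]⟩,⟨0,[(0,0)]⟩) .k 0 (⟨0,[]⟩,⟨0,[]⟩) .k .k) (.R ⟨0,false,false,false,[0,0,1],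
  [1,-1,1],[1],(⟨0,[(27,0)]⟩,⟨0,[(26,0)]⟩),(⟨0,[(27,0),(1,0)]⟩,⟨0,[(1,0)]⟩),⟨0,[(1,0)]⟩,.k,.k,.k,.k,
  .k,.k,⟨false,0,⟨0,[(25,0),(8,0)]⟩,⟨0,[(6,0)]⟩⟩,⟨true,0,⟨0,[(9,0)]⟩,⟨0,[(17,0),(0,0)]⟩⟩,⟨true,0,⟨0,
  [(25,0)]⟩,⟨1,[(4,0),(5,0),(2,0),(3,0),(0,0),(16,0)]⟩⟩,⟨false,1,⟨3,[(4,1),(8,1),(14,0),(7,2)]⟩,⟨2,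
  [(0,1),(13,0),(19,0)]⟩⟩,⟨false,0,⟨0,[]⟩,⟨0,[]⟩⟩,⟨false,0,⟨0,[]⟩,⟨0,[]⟩⟩,[.a ⟨true,0,⟨0,[(4,0)]⟩,
  ⟨0,[(0,0)]⟩⟩ ⟨true,0,⟨0,[]⟩,⟨1,[(23,0),(0,0)]⟩⟩ ⟨false,1,⟨0,[(4,0),(15,0),(14,0)]⟩,⟨0,[(0,0),(7,
  0)]⟩⟩,.o ⟨false,1,⟨1,[(4,1),(23,0),(7,0)]⟩,⟨17,[(0,10),(9,0),(8,8),(3,1),(4,0),(2,3),(2,4)]⟩⟩,.o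
  ⟨false,0,⟨0,[(8,0)]⟩,⟨1,[(0,0),(11,0),(0,0),(14,0)]⟩⟩,.o ⟨false,0,⟨0,[(23,0)]⟩,⟨0,[(20,0),(14,
  0)]⟩⟩]⟩) (.Q [0,0,0,0,0,1,0,0,0,-1,1] (.ed false [0,1,1] .k) (.K ⟨2,[-1,1,1],0,0,(⟨0,[(0,0)]⟩,⟨0,
  [(27,0),(2,0)]⟩),.k,.k,(.x (-1) ⟨0,[(9,0),(18,0),(2,1),(4,0)]⟩ ⟨0,[(1,0),(18,0),(0,0),(5,0),(2,1),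
  (2,0),(1,0)]⟩),.k,.k,[⟨0,[(18,0),(0,0),(15,0)]⟩,⟨0,[(14,0)]⟩,⟨0,[(10,0),(14,0)]⟩,⟨1,[(15,0),(2,0),
  (0,0),(6,1)]⟩]⟩) (.K ⟨2,[0,1,1],0,0,(⟨0,[(28,0),(2,0)]⟩,⟨0,[(0,0)]⟩),.k,.k,(.x (-1) ⟨0,[(9,0),(18,
  0),(2,1),(4,0)]⟩ ⟨0,[(0,0),(9,0),(10,0),(8,0)]⟩),.k,.k,[⟨0,[(35,0)]⟩,⟨0,[(14,0),(3,0),(0,0)]⟩,⟨1,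
  [(24,0),(0,2)]⟩,⟨0,[(9,0)]⟩]⟩))) (.Q [0,0,0,0,0,1,0,0,0,-1,1] (.ed false [0,1,1] .k) (.I [1,1,1,0,
  -1,0,0,0,1] (.R ⟨0,false,false,true,[1,0,-1],[0,0,0,1],[],(⟨0,[(27,0)]⟩,⟨0,[(28,0)]⟩),(⟨0,[(19,
  0)]⟩,⟨0,[(18,0)]⟩),⟨0,[(1,0)]⟩,.k,.k,.k,.k,.k,.k,⟨true,1,⟨1,[(16,0),(20,0)]⟩,⟨0,[(0,0)]⟩⟩,⟨false,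
  0,⟨0,[(9,0),(8,0)]⟩,⟨0,[(19,0),(1,0),(14,0)]⟩⟩,⟨false,1,⟨7,[(13,3),(2,0),(0,0),(19,1)]⟩,⟨0,[(26,
  0)]⟩⟩,⟨true,(-1),⟨0,[(0,0),(5,0),(11,0)]⟩,⟨0,[(3,0),(16,0)]⟩⟩,⟨false,0,⟨0,[]⟩,⟨0,[]⟩⟩,⟨false,0,⟨0,
  []⟩,⟨0,[]⟩⟩,[.a ⟨true,(-1),⟨0,[(0,0),(17,0)]⟩,⟨0,[(3,0)]⟩⟩ ⟨false,1,⟨3,[(16,0),(0,0),(18,1)]⟩,⟨0,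
  []⟩⟩ ⟨true,(-1),⟨0,[(0,0),(8,0),(8,0)]⟩,⟨0,[(3,0),(17,0)]⟩⟩,.o ⟨false,0,⟨4,[(4,2),(6,0),(0,1),(4,
  0),(0,1)]⟩,⟨0,[(3,0),(2,0),(13,0)]⟩⟩,.o ⟨false,1,⟨1,[(25,1),(3,0),(6,0)]⟩,⟨0,[(9,0)]⟩⟩,.o ⟨false,
  0,⟨0,[(21,0)]⟩,⟨3,[(9,3),(6,0),(0,0),(18,1)]⟩⟩]⟩) (.I [0,0,-2,-2,1,0,0,-1] (.K ⟨2,[-1,1,1],0,0,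
  (⟨0,[(2,0)]⟩,⟨0,[(28,0),(2,0)]⟩),.k,.k,(.r 0 ⟨7,[(12,3),(4,0),(0,0),(6,3),(0,3),(9,7),(1,1)]⟩ ⟨0,
  [(0,0)]⟩),.k,.k,[⟨0,[(19,0),(0,0),(15,0)]⟩,⟨0,[(15,0)]⟩,⟨0,[(11,0),(14,0)]⟩,⟨1,[(16,0),(2,0),(0,
  0),(6,1)]⟩]⟩) (.Q [0,0,-1,0,0,0,1,0,0,2,-1] (.p false [-1,1,1] [1] (⟨0,[(2,0)]⟩,⟨0,[(28,0),(2,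
  0)]⟩) .k 1 (⟨0,[]⟩,⟨0,[]⟩) .k .k) (.R ⟨0,false,false,false,[-1,1,1],[0,0,1],[0,1,1,0,0,0,0,1],(⟨0,
  [(3,0)]⟩,⟨0,[(29,0),(2,0)]⟩),(⟨0,[(30,0)]⟩,⟨0,[(29,0)]⟩),⟨0,[(29,0)]⟩,.k,.k,.k,.k,.k,.k,⟨false,0,
  ⟨25,[(13,1),(4,0),(0,0),(5,3),(0,3),(7,7),(1,3)]⟩,⟨1,[(38,0),(0,0)]⟩⟩,⟨true,0,⟨0,[(12,0)]⟩,⟨1,[(0,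
  0),(26,0)]⟩⟩,⟨true,0,⟨0,[(36,0)]⟩,⟨0,[(37,0)]⟩⟩,⟨false,1,⟨3,[(7,1),(8,1),(14,0),(7,2)]⟩,⟨3,[(0,1),
  (0,1),(23,1),(12,0),(0,0)]⟩⟩,⟨false,0,⟨0,[]⟩,⟨0,[]⟩⟩,⟨false,0,⟨0,[]⟩,⟨0,[]⟩⟩,[.o ⟨false,0,⟨0,[(8,
  0)]⟩,⟨1,[(25,1),(5,0),(7,0)]⟩⟩,.o ⟨false,1,⟨7,[(17,3),(0,0),(0,0),(11,1),(7,3)]⟩,⟨0,[(22,0)]⟩⟩,.a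
  ⟨true,0,⟨0,[(0,0)]⟩,⟨0,[(23,0)]⟩⟩ ⟨false,0,⟨5,[(7,1),(5,0),(1,0),(10,0),(0,2)]⟩,⟨1,[(28,1),(9,0),
  (0,0)]⟩⟩ ⟨true,0,⟨5,[(1,1),(5,3),(15,3),(7,0),(6,0)]⟩,⟨0,[(0,0),(21,0)]⟩⟩,.o ⟨false,0,⟨1,[(0,0),
  (25,0)]⟩,⟨1,[(23,1),(7,0),(6,0)]⟩⟩]⟩) (.K ⟨2,[-1,1,1],0,0,(⟨0,[(3,0)]⟩,⟨0,[(29,0),(2,0)]⟩),.k,.k,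
  (.x (-1) ⟨0,[(11,0),(18,0),(2,1),(4,0)]⟩ ⟨1,[(0,2),(25,0),(2,1),(2,3)]⟩),.k,.k,[⟨0,[(20,0),(0,0),
  (15,0)]⟩,⟨0,[(16,0)]⟩,⟨1,[(0,0),(25,0),(0,1)]⟩,⟨1,[(17,0),(2,0),(0,0),(6,1)]⟩]⟩)))) (.K ⟨2,[0,1,
  1],0,0,(⟨0,[(27,0),(2,0)]⟩,⟨0,[(0,0)]⟩),.k,.k,(.x (-1) ⟨0,[(8,0),(18,0),(2,1),(4,0)]⟩ ⟨1,[(0,2),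
  (0,0),(7,1),(10,0),(3,0)]⟩),.k,.k,[⟨0,[(34,0)]⟩,⟨0,[(13,0),(3,0),(0,0)]⟩,⟨1,[(23,0),(0,2)]⟩,⟨0,
  [(8,0)]⟩]⟩))))))) (.Q [0,0,0,0,0,0,-1,-1,0,0,1] (.p true [0,0,1] [] (⟨0,[(21,0)]⟩,⟨0,[(20,0)]⟩)
  .k 0 (⟨0,[]⟩,⟨0,[]⟩) .k .k) (.R ⟨2,false,false,false,[0,1],[0,0,1],[1,1,1],(⟨0,[]⟩,⟨0,[]⟩),(⟨0,
  [(22,0)]⟩,⟨0,[(21,0)]⟩),⟨0,[]⟩,.k,.k,.k,.k,.k,.k,⟨true,(-1),⟨0,[(1,0),(26,0)]⟩,⟨7,[(7,3),(2,0),(0,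
  0),(19,1)]⟩⟩,⟨false,0,⟨0,[(3,0)]⟩,⟨0,[(19,0),(10,0)]⟩⟩,⟨true,0,⟨0,[(28,0)]⟩,⟨0,[(29,0)]⟩⟩,⟨false,
  1,⟨0,[(8,0),(0,0),(21,0)]⟩,⟨0,[(0,0),(28,0)]⟩⟩,⟨false,0,⟨0,[]⟩,⟨3,[(10,0),(0,0),(19,1)]⟩⟩,⟨false,
  1,⟨7,[(9,3),(0,0),(0,0),(11,1),(7,3)]⟩,⟨0,[(0,0)]⟩⟩,[.a ⟨true,0,⟨1,[(9,0),(2,0),(0,0)]⟩,⟨0,[(0,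
  0)]⟩⟩ ⟨false,0,⟨25,[(5,1),(4,0),(0,0),(5,3),(0,3),(7,7),(1,3)]⟩,⟨1,[(30,0),(0,0)]⟩⟩ ⟨true,0,⟨3,
  [(4,1),(4,1),(8,0),(0,0)]⟩,⟨0,[(0,0)]⟩⟩,.o ⟨false,1,⟨7,[(9,3),(0,0),(0,0),(11,1),(7,3)]⟩,⟨0,[(14,
  0)]⟩⟩,.o ⟨false,1,⟨3,[(10,0),(0,0),(18,1)]⟩,⟨0,[(4,0)]⟩⟩,.e ⟨false,0,⟨0,[]⟩,⟨3,[(10,0),(0,0),(19,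
  1)]⟩⟩ ⟨false,1,⟨7,[(9,3),(0,0),(0,0),(11,1),(7,3)]⟩,⟨0,[(0,0)]⟩⟩]⟩) (.R ⟨2,true,false,false,[0,1],
  [0,0,1],[1,1,1],(⟨0,[]⟩,⟨0,[]⟩),(⟨0,[(22,0)]⟩,⟨0,[(21,0)]⟩),⟨0,[]⟩,.k,.k,.k,.k,.k,.k,⟨true,(-1),
  ⟨0,[(1,0),(26,0)]⟩,⟨7,[(7,3),(2,0),(0,0),(19,1)]⟩⟩,⟨false,0,⟨0,[(3,0)]⟩,⟨0,[(19,0),(10,0)]⟩⟩,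
  ⟨true,0,⟨0,[(28,0)]⟩,⟨0,[(29,0)]⟩⟩,⟨false,1,⟨0,[(8,0),(0,0),(21,0)]⟩,⟨0,[(1,0),(17,0),(10,0)]⟩⟩,
  ⟨false,0,⟨0,[]⟩,⟨3,[(10,0),(0,0),(19,1)]⟩⟩,⟨true,0,⟨0,[(0,0)]⟩,⟨0,[(17,0)]⟩⟩,[]⟩))) (.Q [0,1,1,0,
  0,0,0,0,1,0,0,-1] (.p false [0,0,0,1] [] (⟨0,[(11,0)]⟩,⟨0,[(10,0)]⟩) .k 0 (⟨0,[]⟩,⟨0,[]⟩) .k .k)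
  (.K ⟨0,[0,0,0,1],0,0,(⟨0,[(12,0)]⟩,⟨0,[(11,0)]⟩),.k,(.x 0 ⟨1,[(3,1),(13,0),(0,0),(4,1)]⟩ ⟨0,[(24,
  0),(4,0)]⟩),(.x 0 ⟨0,[(24,0)]⟩ ⟨3,[(9,0),(0,0),(11,1),(0,3)]⟩),.k,.k,[⟨0,[(12,0)]⟩,⟨0,[(11,0)]⟩,
  ⟨0,[(1,0),(10,0),(14,0),(1,0)]⟩,⟨0,[(0,0)]⟩]⟩) (.R ⟨2,false,false,false,[0,1],[1,0,-1],[1,1,1],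
  (⟨0,[]⟩,⟨0,[]⟩),(⟨0,[(20,0)]⟩,⟨0,[(21,0)]⟩),⟨0,[]⟩,.k,.k,.k,.k,.k,.k,⟨false,0,⟨3,[(0,1),(3,1),(2,
  3),(0,1),(1,0),(0,1),(17,0)]⟩,⟨1,[(19,1),(9,0),(0,0)]⟩⟩,⟨true,0,⟨0,[(14,0)]⟩,⟨1,[(8,0),(2,0),(0,
  0),(6,1)]⟩⟩,⟨true,0,⟨0,[(27,0)]⟩,⟨0,[(28,0)]⟩⟩,⟨false,1,⟨0,[(7,0),(22,0)]⟩,⟨1,[(8,0),(2,0),(0,0),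
  (15,1)]⟩⟩,⟨false,0,⟨0,[]⟩,⟨3,[(9,0),(0,0),(19,1)]⟩⟩,⟨false,1,⟨0,[(13,0),(16,0)]⟩,⟨1,[(8,0),(2,0),
  (0,0)]⟩⟩,[.a ⟨true,0,⟨0,[(0,0),(0,0),(5,0),(2,0),(0,0)]⟩,⟨1,[(8,0),(2,0),(0,0)]⟩⟩ ⟨false,0,⟨25,
  [(4,1),(4,0),(0,0),(5,3),(0,3),(7,7),(1,3)]⟩,⟨1,[(29,0),(0,0)]⟩⟩ ⟨true,0,⟨0,[(13,0),(12,0)]⟩,⟨1,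
  [(8,0),(2,0),(0,0)]⟩⟩,.o ⟨false,1,⟨0,[(13,0),(16,0)]⟩,⟨0,[(15,0)]⟩⟩,.o ⟨false,1,⟨3,[(9,0),(0,0),
  (18,1)]⟩,⟨0,[(3,0)]⟩⟩,.e ⟨false,0,⟨0,[]⟩,⟨3,[(9,0),(0,0),(19,1)]⟩⟩ ⟨false,1,⟨0,[(13,0),(16,0)]⟩,
  ⟨1,[(8,0),(2,0),(0,0)]⟩⟩]⟩)))) (.Q [0,0,0,0,0,1,0,0,0,0,-1] (.ed true [1,-1,1] .k) (.R ⟨0,false,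
  false,true,[0,1,-1],[1,0,-1],[1,1,1],(⟨0,[(0,0)]⟩,⟨0,[(19,0),(1,0)]⟩),(⟨0,[(18,0)]⟩,⟨0,[(19,0)]⟩),
  ⟨0,[(19,0)]⟩,.k,.k,.k,.k,.k,.k,⟨true,0,⟨3,[(2,0),(1,0),(19,1),(0,1)]⟩,⟨0,[(17,0)]⟩⟩,⟨false,1,⟨3,
  [(7,0),(0,0),(11,1)]⟩,⟨0,[(1,0)]⟩⟩,⟨true,0,⟨0,[(1,0),(3,0),(0,0),(5,0)]⟩,⟨0,[(17,0),(8,0)]⟩⟩,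
  ⟨false,1,⟨1,[(20,0),(4,1),(2,0)]⟩,⟨0,[(1,0),(22,0),(1,0)]⟩⟩,⟨false,0,⟨0,[]⟩,⟨0,[]⟩⟩,⟨false,0,⟨0,
  []⟩,⟨0,[]⟩⟩,[.o ⟨false,0,⟨0,[(11,0)]⟩,⟨7,[(6,3),(0,0),(0,0),(11,1),(7,3)]⟩⟩,.a ⟨true,0,⟨0,[(1,0),
  (9,0),(12,0)]⟩,⟨3,[(1,1),(4,1),(8,0),(0,0)]⟩⟩ ⟨false,0,⟨0,[]⟩,⟨3,[(7,0),(0,0),(18,1)]⟩⟩ ⟨true,0,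
  ⟨0,[(3,0),(20,0),(1,0)]⟩,⟨3,[(1,3),(0,0),(1,0),(19,1),(0,1)]⟩⟩,.e ⟨false,0,⟨1,[(15,0),(0,0)]⟩,⟨1,
  [(27,0),(0,0)]⟩⟩ ⟨false,0,⟨0,[(3,0),(20,0),(1,0)]⟩,⟨7,[(1,7),(2,3),(2,0),(0,0),(19,1)]⟩⟩,.o
  ⟨false,0,⟨0,[(1,0),(10,0)]⟩,⟨1,[(15,1),(4,0),(6,0)]⟩⟩]⟩) (.I [0,0,2,2,-1,0,0,-1] (.K ⟨0,[0,-1,1],
  0,0,(⟨0,[(1,0)]⟩,⟨0,[(19,0),(3,0)]⟩),.k,(.r (-2) ⟨3,[(2,1),(2,1),(0,3),(0,1),(18,3),(1,2),(0,2)]⟩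
  ⟨0,[(0,0)]⟩),.k,.k,.k,[⟨0,[(2,0),(10,0)]⟩,⟨0,[(2,0),(13,0)]⟩,⟨0,[(15,0),(11,0)]⟩,⟨0,[(6,0),(0,
  0)]⟩]⟩) (.R ⟨1,false,false,false,[0,0,1],[1,-1],[0,1,0,0,0,0,0,1],(⟨0,[(20,0)]⟩,⟨0,[(19,0)]⟩),(⟨0,
  [(22,0)]⟩,⟨0,[(23,0)]⟩),⟨0,[(1,0)]⟩,.k,.k,.k,.k,.k,.k,⟨false,0,⟨15,[(3,7),(4,0),(0,0),(14,3),(3,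
  5)]⟩,⟨1,[(0,0),(17,2),(10,0)]⟩⟩,⟨true,0,⟨0,[(13,0)]⟩,⟨0,[(2,0),(13,0)]⟩⟩,⟨true,0,⟨25,[(3,1),(4,0),
  (0,0),(5,3),(0,3),(7,7),(1,3)]⟩,⟨0,[]⟩⟩,⟨false,1,⟨0,[(6,0),(22,0)]⟩,⟨23,[(2,15),(0,3),(3,7),(0,0),
  (0,0),(6,7),(10,15),(1,1)]⟩⟩,⟨false,0,⟨0,[(27,0)]⟩,⟨0,[(26,0),(2,0)]⟩⟩,⟨false,1,⟨0,[(12,0),(16,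
  0)]⟩,⟨3,[(2,1),(4,1),(8,0),(0,0)]⟩⟩,[.o ⟨false,1,⟨1,[(21,0),(4,1),(2,0)]⟩,⟨0,[(27,0)]⟩⟩,.o ⟨false,
  1,⟨2,[(0,0),(3,0),(16,0),(3,1),(3,0)]⟩,⟨21,[(3,1),(4,0),(0,0),(5,3),(0,3),(7,7),(2,17)]⟩⟩,.a
  ⟨true,0,⟨0,[(2,0),(13,0)]⟩,⟨0,[(2,0),(10,0)]⟩⟩ ⟨true,0,⟨6,[(0,0),(2,1),(1,0),(18,1),(1,1)]⟩,⟨0,
  [(18,0)]⟩⟩ ⟨false,1,⟨2,[(0,0),(5,0),(6,1),(15,1)]⟩,⟨0,[(2,0),(13,0),(10,0)]⟩⟩,.o ⟨false,0,⟨0,[(16,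
  0)]⟩,⟨0,[(13,0),(14,0)]⟩⟩]⟩))))) (.Q [0,0,-1,0,0,0,0,0,0,1] (.pp false [-1,1]) (.Q [0,0,0,0,0,-1,
  0,0,0,1,-1] (.ed true [0,1,1] .k) (.Q [0,-1,0,-1,1,0,0,0,0,-1] (.pp true [-1,1]) (.R ⟨1,false,
  false,false,[1,0,-1],[1,-1],[0,0,0,0,0,0,0,-1],(⟨0,[(18,0)]⟩,⟨0,[(19,0)]⟩),(⟨0,[(21,0)]⟩,⟨0,[(22,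
  0)]⟩),⟨0,[(1,0)]⟩,.k,.k,.k,.k,.k,.k,⟨false,0,⟨0,[(17,0),(8,0)]⟩,⟨3,[(0,0),(1,1),(1,1),(0,1),(0,0),
  (18,0),(1,0)]⟩⟩,⟨true,0,⟨0,[(15,0)]⟩,⟨0,[(3,0),(1,0)]⟩⟩,⟨false,1,⟨3,[(7,0),(0,0),(19,1)]⟩,⟨0,[]⟩⟩,
  ⟨false,1,⟨1,[(0,0),(5,0),(18,0),(2,0)]⟩,⟨0,[(3,0),(7,0),(5,0)]⟩⟩,⟨true,0,⟨0,[(26,0)]⟩,⟨0,[(25,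
  0)]⟩⟩,⟨false,1,⟨7,[(6,3),(0,0),(0,0),(11,1),(7,3)]⟩,⟨0,[(3,0),(1,0),(11,0)]⟩⟩,[.o ⟨false,1,⟨7,[(0,
  3),(6,0),(0,0),(11,1),(4,3)]⟩,⟨0,[(26,0)]⟩⟩,.o ⟨false,1,⟨0,[(0,0)]⟩,⟨0,[(26,0),(3,0)]⟩⟩,.a ⟨true,
  0,⟨0,[(3,0),(1,0)]⟩,⟨0,[(2,0),(12,0)]⟩⟩ ⟨true,0,⟨0,[(17,0)]⟩,⟨1,[(3,0),(1,0),(0,0),(5,0),(10,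
  0)]⟩⟩ ⟨false,1,⟨0,[(0,0),(1,0),(12,0)]⟩,⟨0,[(3,0),(7,0)]⟩⟩,.o ⟨false,0,⟨0,[(12,0)]⟩,⟨0,[(15,0),
  (11,0)]⟩⟩]⟩) (.Q [0,0,0,0,0,1,0,0,0,0,-1] (.ed true [1,-1,1] .k) (.K ⟨1,[1,-1,1],0,1,(⟨0,[(20,0),
  (1,0)]⟩,⟨0,[(0,0)]⟩),.k,(.r (-2) ⟨3,[(3,1),(1,1),(0,3),(0,1),(18,3),(1,2),(0,2)]⟩ ⟨0,[(1,1),(16,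
  0),(2,0),(3,1)]⟩),.k,.k,.k,[⟨0,[(3,0),(13,0)]⟩,⟨0,[(1,0),(4,0),(0,0),(10,0),(2,0),(3,1)]⟩,⟨0,[(1,
  1),(4,0),(22,0)]⟩,⟨0,[(6,0),(0,0),(21,0)]⟩]⟩) (.K ⟨0,[0,-1,1],0,0,(⟨0,[(0,0)]⟩,⟨0,[(19,0),(3,
  0)]⟩),.k,(.r (-2) ⟨3,[(3,1),(1,1),(0,3),(0,1),(18,3),(1,2),(0,2)]⟩ ⟨0,[(1,1),(16,0),(2,0),(3,
  1)]⟩),.k,.k,.k,[⟨0,[(4,0),(1,0)]⟩,⟨0,[(3,0),(12,0)]⟩,⟨0,[(15,0),(11,0)]⟩,⟨0,[(6,0),(0,0)]⟩]⟩)))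
  (.Q [0,-1,0,1,0,0,1,0,0,1,-1] (.p false [0,0,1] [1] (⟨0,[(18,0)]⟩,⟨0,[(17,0)]⟩) .k 1 (⟨0,[]⟩,⟨0,
  []⟩) .k .k) (.R ⟨0,false,false,false,[1,0,-1],[0,1],[1,1,1],(⟨0,[(18,0)]⟩,⟨0,[(19,0)]⟩),(⟨0,[(22,
  0)]⟩,⟨0,[(21,0)]⟩),⟨0,[(1,0)]⟩,.k,.k,.k,.k,.k,.k,⟨true,0,⟨0,[(25,0)]⟩,⟨0,[(0,0),(11,0)]⟩⟩,⟨false,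
  1,⟨0,[(0,0),(24,0),(1,0)]⟩,⟨0,[(12,0)]⟩⟩,⟨false,0,⟨1,[(6,0),(5,0),(3,0)]⟩,⟨1,[(17,1),(9,0),(0,
  0)]⟩⟩,⟨true,0,⟨1,[(0,0),(2,0),(9,0),(16,0)]⟩,⟨0,[(5,0)]⟩⟩,⟨false,0,⟨0,[]⟩,⟨0,[]⟩⟩,⟨false,0,⟨0,[]⟩,
  ⟨0,[]⟩⟩,[.o ⟨false,0,⟨0,[(26,0)]⟩,⟨1,[(20,0),(4,1),(2,0)]⟩⟩,.a ⟨true,0,⟨0,[(3,0),(13,0)]⟩,⟨0,[(25,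
  0)]⟩⟩ ⟨false,0,⟨0,[]⟩,⟨3,[(7,0),(0,0),(18,1)]⟩⟩ ⟨true,0,⟨0,[(0,0)]⟩,⟨0,[(12,0),(12,0)]⟩⟩,.e
  ⟨false,0,⟨1,[(15,0),(0,0)]⟩,⟨1,[(27,0),(0,0)]⟩⟩ ⟨false,0,⟨0,[(0,0)]⟩,⟨7,[(4,3),(0,7),(1,0),(0,0),
  (19,1)]⟩⟩,.o ⟨false,0,⟨0,[(12,0)]⟩,⟨0,[(15,0),(11,0)]⟩⟩]⟩) (.R ⟨0,false,false,false,[1,0,-1],[0,
  1],[1,1,1],(⟨0,[(18,0)]⟩,⟨0,[(19,0)]⟩),(⟨0,[(22,0)]⟩,⟨0,[(21,0)]⟩),⟨0,[(1,0)]⟩,.k,.k,.k,.k,.k,.k,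
  ⟨true,0,⟨0,[(25,0)]⟩,⟨0,[(24,0),(1,0)]⟩⟩,⟨false,1,⟨0,[(2,0),(12,0),(11,0)]⟩,⟨0,[(12,0)]⟩⟩,⟨false,
  0,⟨1,[(6,0),(5,0),(3,0)]⟩,⟨1,[(17,1),(9,0),(0,0)]⟩⟩,⟨true,0,⟨3,[(2,0),(0,1),(2,0),(8,1),(7,0),(2,
  1)]⟩,⟨0,[(5,0)]⟩⟩,⟨false,0,⟨0,[]⟩,⟨0,[]⟩⟩,⟨false,0,⟨0,[]⟩,⟨0,[]⟩⟩,[.o ⟨false,0,⟨0,[(26,0)]⟩,⟨1,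
  [(20,0),(4,1),(2,0)]⟩⟩,.e ⟨false,0,⟨0,[]⟩,⟨3,[(7,0),(0,0),(18,1)]⟩⟩ ⟨false,1,⟨1,[(2,1),(12,1),(10,
  1),(0,0),(0,0)]⟩,⟨0,[(0,0)]⟩⟩,.a ⟨true,0,⟨0,[(3,0),(1,0)]⟩,⟨0,[(2,0),(12,0)]⟩⟩ ⟨false,0,⟨1,[(15,
  0),(0,0)]⟩,⟨1,[(27,0),(0,0)]⟩⟩ ⟨true,0,⟨0,[(2,0),(12,0),(10,0)]⟩,⟨0,[(0,0)]⟩⟩,.o ⟨false,0,⟨0,[(12,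
  0)]⟩,⟨0,[(15,0),(11,0)]⟩⟩]⟩))) (.R ⟨2,false,false,false,[0,1],[1,0,-1],[1,1,1],(⟨0,[]⟩,⟨0,[]⟩),
  (⟨0,[(16,0)]⟩,⟨0,[(17,0)]⟩),⟨0,[]⟩,.k,.k,.k,.k,.k,.k,⟨false,0,⟨1,[(1,0),(1,0),(0,0),(5,0),(10,
  0)]⟩,⟨1,[(15,1),(9,0),(0,0)]⟩⟩,⟨true,0,⟨0,[(10,0)]⟩,⟨1,[(4,0),(2,0),(0,0),(6,1)]⟩⟩,⟨true,0,⟨0,
  [(23,0)]⟩,⟨0,[(24,0)]⟩⟩,⟨false,1,⟨0,[(3,0),(22,0)]⟩,⟨2,[(1,1),(2,0),(8,0),(1,0),(5,0),(2,0)]⟩⟩,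
  ⟨false,0,⟨0,[]⟩,⟨3,[(5,0),(0,0),(19,1)]⟩⟩,⟨false,1,⟨0,[(9,0),(16,0)]⟩,⟨1,[(4,0),(2,0),(0,0)]⟩⟩,
  [.a ⟨true,0,⟨0,[(1,0),(1,0),(11,0)]⟩,⟨1,[(4,0),(2,0),(0,0)]⟩⟩ ⟨false,0,⟨0,[(28,0)]⟩,⟨1,[(25,0),(0,
  0)]⟩⟩ ⟨true,0,⟨0,[(9,0),(12,0)]⟩,⟨1,[(4,0),(2,0),(0,0)]⟩⟩,.o ⟨false,1,⟨0,[(9,0),(16,0)]⟩,⟨0,[(11,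
  0)]⟩⟩,.o ⟨false,1,⟨3,[(5,0),(0,0),(18,1)]⟩,⟨0,[(0,0)]⟩⟩,.e ⟨false,0,⟨0,[]⟩,⟨3,[(5,0),(0,0),(19,
  1)]⟩⟩ ⟨false,1,⟨0,[(9,0),(16,0)]⟩,⟨1,[(4,0),(2,0),(0,0)]⟩⟩]⟩))) (.Q [0,0,0,0,0,0,-1,-1,0,0,1] (.p
  true [0,0,1] [] (⟨0,[(15,0)]⟩,⟨0,[(14,0)]⟩) .k 0 (⟨0,[]⟩,⟨0,[]⟩) .k .k) (.R ⟨2,false,false,false,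
  [0,1],[0,0,1],[1,1,1],(⟨0,[]⟩,⟨0,[]⟩),(⟨0,[(16,0)]⟩,⟨0,[(15,0)]⟩),⟨0,[]⟩,.k,.k,.k,.k,.k,.k,⟨true,
  (-1),⟨1,[(1,1),(1,0),(5,0),(3,0)]⟩,⟨1,[(3,0),(5,0),(3,0),(10,0),(0,0)]⟩⟩,⟨false,0,⟨3,[(1,1),(1,1),
  (13,0),(7,0)]⟩,⟨0,[(13,0),(10,0)]⟩⟩,⟨true,0,⟨0,[(22,0)]⟩,⟨0,[(23,0)]⟩⟩,⟨false,1,⟨0,[(2,0),(0,0),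
  (21,0)]⟩,⟨0,[(0,0),(22,0)]⟩⟩,⟨false,0,⟨0,[]⟩,⟨3,[(4,0),(0,0),(19,1)]⟩⟩,⟨false,1,⟨7,[(3,3),(0,0),
  (0,0),(11,1),(7,3)]⟩,⟨0,[(0,0)]⟩⟩,[.a ⟨true,0,⟨1,[(3,0),(2,0),(0,0)]⟩,⟨0,[(0,0)]⟩⟩ ⟨false,0,⟨0,
  [(27,0)]⟩,⟨1,[(24,0),(0,0)]⟩⟩ ⟨true,0,⟨1,[(3,0),(5,0),(2,0)]⟩,⟨0,[(0,0)]⟩⟩,.o ⟨false,1,⟨7,[(3,3),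
  (0,0),(0,0),(11,1),(7,3)]⟩,⟨0,[(8,0)]⟩⟩,.o ⟨false,1,⟨3,[(4,0),(0,0),(18,1)]⟩,⟨2,[(1,0),(1,0),(5,
  1),(7,0),(3,0)]⟩⟩,.e ⟨false,0,⟨0,[]⟩,⟨3,[(4,0),(0,0),(19,1)]⟩⟩ ⟨false,1,⟨7,[(3,3),(0,0),(0,0),(11,
  1),(7,3)]⟩,⟨0,[(0,0)]⟩⟩]⟩) (.Q [0,0,0,1,0,0,-1,-1,0,0,1] (.p true [0,0,1] [] (⟨0,[(16,0)]⟩,⟨0,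
  [(15,0)]⟩) .k 0 (⟨0,[]⟩,⟨0,[]⟩) .k .k) (.R ⟨2,true,false,false,[0,1],[0,0,1],[1,1,1],(⟨0,[]⟩,⟨0,
  []⟩),(⟨0,[(17,0)]⟩,⟨0,[(16,0)]⟩),⟨0,[]⟩,.k,.k,.k,.k,.k,.k,⟨true,(-1),⟨1,[(2,1),(1,0),(5,0),(3,
  0)]⟩,⟨1,[(4,0),(5,0),(3,0),(10,0),(0,0)]⟩⟩,⟨false,0,⟨3,[(2,1),(1,1),(13,0),(7,0)]⟩,⟨0,[(14,0),(10,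
  0)]⟩⟩,⟨true,0,⟨0,[(23,0)]⟩,⟨0,[(24,0)]⟩⟩,⟨false,1,⟨0,[(1,0),(21,0),(2,0)]⟩,⟨0,[(0,0)]⟩⟩,⟨false,0,
  ⟨0,[]⟩,⟨3,[(5,0),(0,0),(19,1)]⟩⟩,⟨true,0,⟨0,[(1,0)]⟩,⟨0,[(12,0)]⟩⟩,[]⟩) (.Q [0,0,0,0,0,-1,0,0,0,1,
  -1] (.ed true [0,1,1] .k) (.K ⟨2,[0,1,1],0,0,(⟨0,[(18,0),(2,0)]⟩,⟨0,[(0,0)]⟩),.k,.k,(.x (-1) ⟨3,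
  [(3,1),(1,1),(12,3),(0,0),(1,7),(4,3),(0,0)]⟩ ⟨4,[(0,4),(1,1),(0,0),(7,7),(2,0),(4,0),(0,4),(2,
  0)]⟩),.k,.k,[⟨0,[(25,0)]⟩,⟨0,[(4,0),(3,0),(0,0)]⟩,⟨1,[(14,0),(0,2)]⟩,⟨3,[(3,1),(1,1),(13,0),(7,
  0)]⟩]⟩) (.Q [0,-1,0,-1,1,0,-2,-2,0,-2,2] (.p true [0,0,1] [2,-1,-1] (⟨0,[(18,0)]⟩,⟨0,[(17,0)]⟩)
  .k 2 (⟨0,[(17,0),(2,0)]⟩,⟨0,[(0,0)]⟩) .k (.r (-1) ⟨0,[(5,0),(5,0),(3,0),(10,0)]⟩ ⟨3,[(3,3),(2,0),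
  (0,0),(19,1)]⟩)) (.I [0,0,-2,-2,1,0,0,-1] (.K ⟨2,[-1,1,1],0,0,(⟨0,[(2,0)]⟩,⟨0,[(19,0),(2,0)]⟩),.k,
  .k,(.r 0 ⟨1,[(7,0),(5,0),(2,0),(0,1),(9,3)]⟩ ⟨0,[(0,0)]⟩),.k,.k,[⟨0,[(10,0),(0,0),(15,0)]⟩,⟨0,[(6,
  0)]⟩,⟨1,[(13,1),(2,0),(0,0)]⟩,⟨7,[(5,3),(1,3),(0,0),(0,0),(0,3),(0,3),(17,1)]⟩]⟩) (.K ⟨2,[-1,1,1],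
  0,0,(⟨0,[(2,0)]⟩,⟨0,[(19,0),(2,0)]⟩),.k,.k,(.x (-1) ⟨5,[(2,1),(2,1),(1,1),(8,1),(3,3),(2,9),(4,6),
  (0,0)]⟩ ⟨0,[(0,0),(0,0),(2,1),(1,0),(12,0),(2,1)]⟩),.k,.k,[⟨0,[(10,0),(0,0),(15,0)]⟩,⟨0,[(6,0)]⟩,
  ⟨1,[(13,1),(2,0),(0,0)]⟩,⟨7,[(5,3),(1,3),(0,0),(0,0),(0,3),(0,3),(17,1)]⟩]⟩)) (.K ⟨2,[-1,1,1],0,0,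
  (⟨0,[(1,0)]⟩,⟨0,[(18,0),(2,0)]⟩),.k,.k,(.x (-1) ⟨5,[(1,1),(2,1),(1,1),(8,1),(3,3),(2,9),(4,6),(0,
  0)]⟩ ⟨1,[(3,3),(0,1),(7,5),(5,1),(2,3),(5,0),(0,0)]⟩),.k,.k,[⟨0,[(9,0),(0,0),(15,0)]⟩,⟨0,[(5,0)]⟩,
  ⟨1,[(12,1),(2,0),(0,0)]⟩,⟨7,[(0,3),(3,3),(2,0),(0,0),(16,3),(2,5)]⟩]⟩))))))

theorem ok0 : chk (cU (-1) true 3) t0 l0 = true := by decide +kernel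

noncomputable def l1 : List Con := (true, [0,0,0,1,0,0,0,1]) :: r0

noncomputable def r1 : List Con := (true, [1,0,0,-1,0,0,0,-1]) :: r0

noncomputable def t1 : Tre :=
  (.R ⟨2,true,false,true,[0,1],[1,0,-1],[0,1,1,1],(⟨0,[]⟩,⟨0,[]⟩),(⟨0,[(14,0)]⟩,⟨0,[(15,0)]⟩),⟨0,
  []⟩,.k,.k,.k,.k,.k,.k,⟨false,0,⟨0,[(0,0)]⟩,⟨1,[(13,1),(7,1),(1,0),(0,0)]⟩⟩,⟨true,0,⟨0,[(8,0)]⟩,⟨1,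
  [(2,0),(2,0),(0,0),(6,1)]⟩⟩,⟨true,0,⟨0,[(26,0)]⟩,⟨0,[]⟩⟩,⟨false,1,⟨0,[(7,0),(13,0),(2,0)]⟩,⟨0,[(1,
  0)]⟩⟩,⟨false,0,⟨0,[(22,0)]⟩,⟨0,[(21,0),(2,0)]⟩⟩,⟨true,0,⟨0,[(7,0)]⟩,⟨1,[(2,0),(2,0),(0,0)]⟩⟩,[]⟩)

theorem ok1 : chk (cU (-1) true 3) t1 l1 = true := by decide +kernel

noncomputable def l2 : List Con := (false, [0,0,-1,0,0,0,0,0,0,1]) :: r1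

noncomputable def r2 : List Con := (false, [0,0,1,0,0,0,0,0,0,-1]) :: r1

noncomputable def t2 : Tre :=
  (.Q [0,-1,0,1,0,0,-1,-1,0,0,1] (.p true [0,0,1] [] (⟨0,[(16,0)]⟩,⟨0,[(15,0)]⟩) .k 0 (⟨0,[]⟩,⟨0,
  []⟩) .k .k) (.R ⟨2,true,false,true,[0,1],[0,0,1],[1,1,1],(⟨0,[]⟩,⟨0,[]⟩),(⟨0,[(17,0)]⟩,⟨0,[(16,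
  0)]⟩),⟨0,[]⟩,.k,.k,.k,.k,.k,.k,⟨false,0,⟨0,[(15,0)]⟩,⟨1,[(4,0),(5,0),(3,0),(10,1)]⟩⟩,⟨true,0,⟨0,
  [(13,0)]⟩,⟨0,[(1,0),(8,0)]⟩⟩,⟨true,0,⟨0,[(23,0)]⟩,⟨0,[(24,0)]⟩⟩,⟨false,1,⟨7,[(4,3),(0,0),(0,0),
  (11,1),(4,7),(2,3)]⟩,⟨0,[(0,0)]⟩⟩,⟨false,0,⟨0,[]⟩,⟨3,[(5,0),(0,0),(19,1)]⟩⟩,⟨true,0,⟨0,[(11,0)]⟩,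
  ⟨2,[(0,0),(0,0),(0,0),(6,0),(4,0)]⟩⟩,[]⟩) (.Q [0,0,0,0,0,-1,0,0,0,1,-1] (.ed true [0,1,1] .k) (.R
  ⟨1,false,false,true,[1,0,-1],[1,-1],[1,1,0,-1,0,0,0,-1],(⟨0,[(17,0)]⟩,⟨0,[(18,0)]⟩),(⟨0,[(20,0)]⟩,
  ⟨0,[(21,0)]⟩),⟨0,[(0,0)]⟩,.k,.k,.k,.k,.k,.k,⟨false,0,⟨0,[(16,0)]⟩,⟨1,[(5,0),(5,0),(3,0),(10,1)]⟩⟩,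
  ⟨true,0,⟨0,[(14,0)]⟩,⟨0,[(2,0),(8,0)]⟩⟩,⟨true,0,⟨0,[(24,0)]⟩,⟨0,[(25,0)]⟩⟩,⟨true,0,⟨0,[(1,0)]⟩,⟨0,
  [(2,0),(7,0),(12,0),(1,0)]⟩⟩,⟨false,0,⟨0,[]⟩,⟨3,[(6,0),(0,0),(19,1)]⟩⟩,⟨true,0,⟨0,[(12,0)]⟩,⟨0,
  [(2,0),(7,0),(12,0)]⟩⟩,[.e ⟨true,0,⟨3,[(3,2),(9,0),(0,0),(7,0),(1,0)]⟩,⟨0,[(4,0),(6,0)]⟩⟩ ⟨true,0,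
  ⟨0,[(3,0),(8,0)]⟩,⟨0,[(2,0),(8,0),(11,0),(1,0)]⟩⟩,.o ⟨false,1,⟨1,[(19,0),(4,1),(2,0)]⟩,⟨0,[(25,
  0)]⟩⟩,.a ⟨true,0,⟨0,[(2,0),(8,0)]⟩,⟨0,[(2,0),(11,0)]⟩⟩ ⟨false,0,⟨0,[(3,0)]⟩,⟨1,[(4,1),(10,1),(3,
  0),(6,0)]⟩⟩ ⟨true,0,⟨0,[(3,0),(8,0)]⟩,⟨0,[(2,0),(8,0),(13,0)]⟩⟩,.o ⟨false,0,⟨0,[(11,0)]⟩,⟨0,[(14,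
  0),(11,0)]⟩⟩]⟩) (.R ⟨2,false,false,false,[0,1],[-1,1,1],[0,1],(⟨0,[]⟩,⟨0,[]⟩),(⟨0,[(0,0)]⟩,⟨0,
  [(17,0),(2,0)]⟩),⟨0,[]⟩,.k,.k,.k,.k,.k,.k,⟨false,1,⟨7,[(3,7),(2,0),(0,0),(14,3),(3,5)]⟩,⟨0,[(4,0),
  (6,0)]⟩⟩,⟨true,0,⟨0,[(2,0),(11,0)]⟩,⟨0,[(11,0)]⟩⟩,⟨false,1,⟨1,[(24,1),(1,0),(0,0)]⟩,⟨0,[(23,0),(1,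
  0)]⟩⟩,⟨true,0,⟨3,[(2,1),(2,1),(8,0),(0,0)]⟩,⟨0,[(10,0)]⟩⟩,⟨false,1,⟨3,[(6,0),(0,0),(18,1)]⟩,⟨0,
  [(23,0)]⟩⟩,⟨false,0,⟨0,[(4,0)]⟩,⟨0,[(10,0),(13,0),(2,0)]⟩⟩,[.o ⟨false,0,⟨0,[(4,0),(24,0)]⟩,⟨1,[(3,
  1),(7,1),(7,0),(6,0)]⟩⟩,.o ⟨false,0,⟨0,[(4,0)]⟩,⟨1,[(10,1),(8,0),(4,1),(2,0)]⟩⟩,.a ⟨true,0,⟨0,[(2,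
  0)]⟩,⟨1,[(14,0),(0,0)]⟩⟩ ⟨true,0,⟨0,[(29,0)]⟩,⟨0,[]⟩⟩ ⟨false,0,⟨1,[(4,1),(9,0),(0,0)]⟩,⟨0,[(3,0),
  (7,0),(14,0)]⟩⟩,.e ⟨false,1,⟨3,[(6,0),(0,0),(18,1)]⟩,⟨0,[(23,0)]⟩⟩ ⟨false,0,⟨0,[(4,0)]⟩,⟨0,[(10,
  0),(13,0),(2,0)]⟩⟩]⟩)))

theorem ok2 : chk (cU (-1) true 3) t2 l2 = true := by decide +kernel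

noncomputable def l3 : List Con := (true, [0,1,0,0,0,0,0,1]) :: r2

noncomputable def r3 : List Con := (true, [1,-1,0,0,0,0,0,-1]) :: r2

noncomputable def l4 : List Con := (false, [0,0,0,0,0,0,-1,-1,0,0,1]) :: l3

noncomputable def r4 : List Con := (false, [0,0,0,0,0,0,1,1,0,0,-1]) :: l3

noncomputable def t3 : Tre :=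
  (.R ⟨2,false,false,false,[0,1],[1,0,-1],[1,1,1],(⟨0,[]⟩,⟨0,[]⟩),(⟨0,[(17,0)]⟩,⟨0,[(18,0)]⟩),⟨0,
  []⟩,.k,.k,.k,.k,.k,.k,⟨false,0,⟨0,[(1,0)]⟩,⟨1,[(16,1),(9,0),(0,0)]⟩⟩,⟨true,0,⟨0,[(11,0)]⟩,⟨4,[(3,
  3),(0,3),(0,0),(7,1),(0,0),(7,0)]⟩⟩,⟨true,0,⟨0,[(24,0)]⟩,⟨0,[(25,0)]⟩⟩,⟨false,1,⟨1,[(3,1),(7,1),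
  (14,0),(0,0)]⟩,⟨0,[(4,0),(24,0)]⟩⟩,⟨false,0,⟨0,[]⟩,⟨3,[(6,0),(0,0),(19,1)]⟩⟩,⟨false,1,⟨1,[(0,1),
  (18,0),(7,0)]⟩,⟨1,[(5,0),(2,0),(0,0)]⟩⟩,[.a ⟨true,0,⟨0,[(0,0)]⟩,⟨1,[(5,0),(2,0),(0,0)]⟩⟩ ⟨false,0,
  ⟨0,[(29,0)]⟩,⟨1,[(26,0),(0,0)]⟩⟩ ⟨true,0,⟨0,[(0,0),(1,0)]⟩,⟨1,[(5,0),(2,0),(0,0)]⟩⟩,.o ⟨false,1,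
  ⟨1,[(0,1),(18,0),(7,0)]⟩,⟨0,[(12,0)]⟩⟩,.o ⟨false,1,⟨3,[(6,0),(0,0),(18,1)]⟩,⟨0,[(2,0)]⟩⟩,.e
  ⟨false,0,⟨0,[]⟩,⟨3,[(6,0),(0,0),(19,1)]⟩⟩ ⟨false,1,⟨1,[(0,1),(18,0),(7,0)]⟩,⟨1,[(5,0),(2,0),(0,
  0)]⟩⟩]⟩)

theorem ok3 : chk (cU (-1) true 3) t3 l4 = true := by decide +kernel

noncomputable def l5 : List Con := (false, [0,0,0,1,0,0,-1,-1,0,0,1]) :: r4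

noncomputable def r5 : List Con := (false, [0,0,0,-1,0,0,1,1,0,0,-1]) :: r4

noncomputable def t4 : Tre :=
  (.R ⟨2,true,false,true,[0,1],[0,0,1],[1,0,1],(⟨0,[]⟩,⟨0,[]⟩),(⟨0,[(19,0)]⟩,⟨0,[(18,0)]⟩),⟨0,[]⟩,
  .k,.k,.k,.k,.k,.k,⟨true,0,⟨0,[(17,0),(6,0)]⟩,⟨0,[(2,0)]⟩⟩,⟨false,0,⟨0,[(1,0),(15,0)]⟩,⟨0,[(16,0),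
  (10,0)]⟩⟩,⟨false,1,⟨0,[(25,0),(2,0)]⟩,⟨0,[(26,0)]⟩⟩,⟨true,0,⟨0,[(1,0),(23,0)]⟩,⟨0,[(0,0)]⟩⟩,⟨true,
  0,⟨0,[]⟩,⟨0,[(30,0)]⟩⟩,⟨false,0,⟨0,[(1,0)]⟩,⟨0,[(14,0),(13,0)]⟩⟩,[]⟩)

theorem ok4 : chk (cU (-1) true 3) t4 l5 = true := by decide +kernel

noncomputable def l6 : List Con := (false, [0,0,0,0,0,-1,0,0,0,1,-1]) :: r5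

noncomputable def r6 : List Con := (false, [0,0,0,0,0,1,0,0,0,-1,1]) :: r5

noncomputable def l7 : List Con := (false, [0,1,0,-1,0,0,-1,-1,0,0,1]) :: l6

noncomputable def r7 : List Con := (false, [0,-1,0,1,0,0,1,1,0,0,-1]) :: l6

noncomputable def t5 : Tre :=
  (.K ⟨1,[0,1,1],0,0,(⟨0,[(21,0),(2,0)]⟩,⟨0,[(1,0)]⟩),.k,.k,(.x (-1) ⟨0,[(3,0),(15,0),(1,0),(2,1),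
  (4,0)]⟩ ⟨0,[(1,0),(3,0),(8,0),(8,0)]⟩),.k,.k,[⟨1,[(17,0),(0,2)]⟩,⟨0,[(3,0),(15,0)]⟩,⟨0,[(0,0)]⟩,
  ⟨0,[(7,0)]⟩]⟩)

theorem ok5 : chk (cU (-1) true 3) t5 l7 = true := by decide +kernel

noncomputable def l8 : List Con := (true, [1,-1,2,1,-1,0,0,-2]) :: r7

noncomputable def r8 : List Con := (true, [0,1,-2,-1,1,0,0,2]) :: r7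

noncomputable def t6 : Tre :=
  (.Q [0,-1,0,2,0,0,0,0,0,1] (.pp false [-1,1]) (.I [0,0,2,2,-1] (.R ⟨2,true,false,true,[0,1],[1,
  -1],[0,1,1,1],(⟨0,[]⟩,⟨0,[]⟩),(⟨0,[(26,0)]⟩,⟨0,[(27,0)]⟩),⟨0,[]⟩,.k,.k,.k,(.r 1 ⟨0,[(0,0)]⟩ ⟨0,
  [(30,1),(1,0),(0,0)]⟩),.k,.k,⟨true,(-1),⟨0,[(0,0)]⟩,⟨0,[(5,0),(3,0),(11,0),(10,0)]⟩⟩,⟨false,0,⟨0,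
  [(8,0)]⟩,⟨0,[(14,0),(0,0),(16,0)]⟩⟩,⟨true,0,⟨0,[(35,0)]⟩,⟨0,[]⟩⟩,⟨false,1,⟨3,[(5,1),(3,1),(7,1),
  (7,0),(4,3),(1,0),(0,1)]⟩,⟨0,[(1,0)]⟩⟩,⟨false,0,⟨0,[(31,0)]⟩,⟨0,[(30,0),(2,0)]⟩⟩,⟨true,0,⟨0,[(5,
  0),(10,0)]⟩,⟨3,[(1,1),(9,0),(2,0),(0,0),(3,1)]⟩⟩,[]⟩) (.Q [0,0,0,0,0,-2,0,0,0,1] (.pp false [-1,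
  1]) (.R ⟨1,true,false,false,[1,-1],[1,0,-1],[0,1,-1,-1],(⟨0,[(27,0)]⟩,⟨0,[(28,0)]⟩),(⟨0,[(24,0)]⟩,
  ⟨0,[(25,0)]⟩),⟨0,[(0,0)]⟩,.k,.k,(.x 0 ⟨1,[(0,1),(8,1),(11,0),(0,0)]⟩ ⟨0,[(28,1),(4,0)]⟩),.k,(.r
  (-2) ⟨3,[(1,3),(6,3),(4,0),(0,0),(19,1)]⟩ ⟨0,[(3,0),(4,0),(23,0)]⟩),.k,⟨false,1,⟨1,[(1,0),(6,1),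
  (24,0)]⟩,⟨7,[(2,1),(0,3),(9,0),(0,0),(11,0),(7,0)]⟩⟩,⟨true,1,⟨0,[(22,0),(10,0)]⟩,⟨0,[(3,0),(2,0),
  (1,0)]⟩⟩,⟨true,0,⟨0,[(36,0)]⟩,⟨0,[]⟩⟩,⟨false,1,⟨3,[(2,1),(17,3),(5,0),(7,2)]⟩,⟨0,[(6,0)]⟩⟩,⟨false,
  0,⟨0,[(32,0)]⟩,⟨0,[(31,0),(2,0)]⟩⟩,⟨true,0,⟨0,[(2,0),(14,0)]⟩,⟨0,[(6,0),(24,0)]⟩⟩,[]⟩) (.Q [0,0,0,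
  1,0,0,-1,-1,0,1,1] (.p true [1,-1,1] [] (⟨0,[(25,0),(1,0)]⟩,⟨0,[(0,0),(4,0)]⟩) .k 0 (⟨0,[]⟩,⟨0,
  []⟩) .k .k) (.R ⟨2,false,false,false,[0,1],[0,1,-1],[0,1,1,1],(⟨0,[]⟩,⟨0,[]⟩),(⟨0,[(1,0),(4,0)]⟩,
  ⟨0,[(26,0),(1,0)]⟩),⟨0,[]⟩,.k,.k,.k,.k,.k,.k,⟨true,0,⟨0,[(9,0)]⟩,⟨5,[(4,1),(6,1),(10,0),(0,0),(11,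
  1)]⟩⟩,⟨false,1,⟨0,[(23,0),(10,0)]⟩,⟨12,[(2,3),(1,3),(0,5),(1,1),(14,4),(7,4)]⟩⟩,⟨true,0,⟨0,[(37,
  0)]⟩,⟨0,[]⟩⟩,⟨false,1,⟨0,[(21,0),(13,0)]⟩,⟨0,[(8,0)]⟩⟩,⟨false,0,⟨0,[(33,0)]⟩,⟨0,[(32,0),(2,0)]⟩⟩,
  ⟨false,1,⟨1,[(0,1),(26,0),(7,0)]⟩,⟨0,[(7,0)]⟩⟩,[.a ⟨true,0,⟨0,[(0,0)]⟩,⟨0,[(7,0)]⟩⟩ ⟨false,0,⟨1,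
  [(3,0),(6,0),(19,0),(6,0)]⟩,⟨1,[(2,0),(32,0)]⟩⟩ ⟨true,0,⟨0,[(0,0),(9,0)]⟩,⟨0,[(7,0)]⟩⟩,.o ⟨false,
  1,⟨1,[(0,1),(26,0),(7,0)]⟩,⟨2,[(5,0),(1,3),(2,0),(7,1),(11,0)]⟩⟩,.o ⟨false,1,⟨3,[(14,0),(0,0),(18,
  1)]⟩,⟨0,[(10,0)]⟩⟩,.e ⟨false,0,⟨0,[(33,0)]⟩,⟨0,[(32,0),(2,0)]⟩⟩ ⟨false,1,⟨1,[(0,1),(26,0),(7,0)]⟩,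
  ⟨0,[(7,0)]⟩⟩]⟩) (.Q [0,1,-1,0,0,0,0,0,-1,0,0,1] (.p true [0,0,0,1] [] (⟨0,[(17,0)]⟩,⟨0,[(16,0)]⟩)
  .k 0 (⟨0,[]⟩,⟨0,[]⟩) .k .k) (.K ⟨0,[0,0,0,1],0,0,(⟨0,[(18,0)]⟩,⟨0,[(17,0)]⟩),.k,(.r (-1) ⟨1,[(3,
  0),(12,0)]⟩ ⟨8,[(0,0),(3,0),(0,3),(0,1),(3,5),(4,3),(1,0),(2,1),(13,0)]⟩),(.x 0 ⟨0,[(30,0)]⟩ ⟨3,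
  [(15,0),(0,0),(11,1),(0,3)]⟩),.k,.k,[⟨0,[(18,0)]⟩,⟨0,[(17,0)]⟩,⟨0,[(0,0)]⟩,⟨1,[(1,0),(3,0),(4,0),
  (5,0),(0,1),(2,0),(10,0)]⟩]⟩) (.Q [0,-1,-1,0,1,0,0,0,-1,0,0,1] (.p true [0,0,0,1] [] (⟨0,[(18,
  0)]⟩,⟨0,[(17,0)]⟩) .k 0 (⟨0,[]⟩,⟨0,[]⟩) .k .k) (.Q [0,0,0,0,0,-1,0,0,0,1,0,-1] (.p false [0,0,0,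
  1] [1] (⟨0,[(19,0)]⟩,⟨0,[(18,0)]⟩) .k 1 (⟨0,[]⟩,⟨0,[]⟩) .k .k) (.I [1,-1,1,0,0,0,0,0,-1] (.R ⟨1,
  false,false,true,[1,0,0,-1],[1,-1],[1,0,0,-1,0,0,0,0,-1],(⟨0,[(20,0)]⟩,⟨0,[(21,0)]⟩),(⟨0,[(32,
  0)]⟩,⟨0,[(33,0)]⟩),⟨0,[(1,0)]⟩,.k,.k,(.x (-1) ⟨3,[(18,0),(0,0),(11,1),(0,3)]⟩ ⟨0,[(33,0)]⟩),(.r 0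
  ⟨2,[(0,0),(7,0),(4,1),(4,0),(18,1)]⟩ ⟨1,[(6,0),(12,0)]⟩),.k,.k,⟨true,0,⟨0,[(0,0)]⟩,⟨0,[(3,0),(17,
  0),(12,0)]⟩⟩,⟨false,0,⟨0,[(14,0),(5,0)]⟩,⟨0,[(21,0),(16,0)]⟩⟩,⟨false,1,⟨0,[(36,0),(2,0)]⟩,⟨0,[(37,
  0)]⟩⟩,⟨false,0,⟨0,[(3,0),(32,0)]⟩,⟨0,[(2,0),(34,0)]⟩⟩,⟨true,0,⟨0,[]⟩,⟨0,[(41,0)]⟩⟩,⟨false,0,⟨0,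
  [(3,0),(37,0)]⟩,⟨0,[(2,0)]⟩⟩,[.o ⟨false,0,⟨1,[(4,0),(17,0),(13,0)]⟩,⟨3,[(7,1),(10,0),(0,0),(11,0),
  (7,0)]⟩⟩,.o ⟨false,1,⟨1,[(31,0),(4,1),(2,0)]⟩,⟨0,[(37,0)]⟩⟩,.o ⟨false,1,⟨1,[(21,1),(9,0),(6,0)]⟩,
  ⟨0,[(14,0),(5,0)]⟩⟩,.a ⟨true,0,⟨0,[(21,0)]⟩,⟨0,[(20,0)]⟩⟩ ⟨false,1,⟨1,[(0,1),(5,0),(31,0)]⟩,⟨4,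
  [(3,0),(3,0),(0,1),(0,0),(3,2),(5,1),(1,0),(1,0),(10,0)]⟩⟩ ⟨true,0,⟨1,[(4,0),(15,1),(1,0),(13,
  0)]⟩,⟨0,[(21,0),(15,0)]⟩⟩]⟩) (.I [0,1,0,1,0,0,0,-1,-1] (.R ⟨1,false,false,false,[1,0,0,-1],[1,-1,
  1],[0,1,0,0,0,0,0,0,-1],(⟨0,[(21,0)]⟩,⟨0,[(22,0)]⟩),(⟨0,[(31,0),(1,0)]⟩,⟨0,[(6,0),(4,0)]⟩),⟨0,[(2,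
  0)]⟩,.k,.k,(.x (-1) ⟨3,[(19,0),(0,0),(11,1),(0,3)]⟩ ⟨0,[(34,0)]⟩),(.r 0 ⟨6,[(0,2),(7,0),(0,1),(5,
  0),(3,1),(7,0),(0,0)]⟩ ⟨9,[(1,3),(3,1),(1,6),(2,3),(3,1),(2,1),(2,2),(7,7)]⟩),.k,.k,⟨false,0,⟨0,
  [(0,0)]⟩,⟨1,[(1,0),(2,0),(2,1),(2,1),(11,0),(5,1)]⟩⟩,⟨true,(-1),⟨0,[(5,0),(3,0),(4,0),(6,0)]⟩,⟨0,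
  [(22,0),(5,0),(10,0)]⟩⟩,⟨true,0,⟨0,[(42,0)]⟩,⟨0,[]⟩⟩,⟨false,0,⟨0,[(4,0),(7,0)]⟩,⟨20,[(0,2),(2,19),
  (4,8),(11,0),(1,0),(0,8),(2,8),(1,2),(6,3)]⟩⟩,⟨false,0,⟨0,[(38,0)]⟩,⟨0,[(37,0),(2,0)]⟩⟩,⟨false,0,
  ⟨4,[(4,4),(0,0),(4,0),(7,0),(6,0)]⟩,⟨0,[(3,0),(22,0)]⟩⟩,[.o ⟨false,0,⟨0,[(5,0)]⟩,⟨3,[(8,1),(10,0),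
  (0,0),(5,3),(5,0),(7,0)]⟩⟩,.o ⟨false,1,⟨1,[(12,1),(19,0),(7,0)]⟩,⟨20,[(0,1),(7,8),(0,0),(10,0),(2,
  8),(2,7),(1,3),(6,5)]⟩⟩,.o ⟨false,1,⟨1,[(22,1),(9,0),(6,0)]⟩,⟨0,[(15,0),(5,0)]⟩⟩,.a ⟨true,0,⟨0,
  [(22,0)]⟩,⟨0,[(21,0)]⟩⟩ ⟨false,1,⟨1,[(19,0),(19,0)]⟩,⟨0,[(4,0),(17,0)]⟩⟩ ⟨true,0,⟨0,[(5,0),(15,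
  0)]⟩,⟨20,[(0,1),(7,8),(0,0),(10,0),(1,20),(0,8),(2,7),(1,3),(6,5)]⟩⟩]⟩) (.R ⟨1,false,false,true,
  [1,0,0,-1],[1,-1,1],[1,0,0,-1,0,0,0,0,-1],(⟨0,[(21,0)]⟩,⟨0,[(22,0)]⟩),(⟨0,[(31,0),(1,0)]⟩,⟨0,[(6,
  0),(4,0)]⟩),⟨0,[(2,0)]⟩,.k,.k,(.x (-1) ⟨3,[(19,0),(0,0),(11,1),(0,3)]⟩ ⟨0,[(34,0)]⟩),(.r 0 ⟨3,[(8,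
  0),(0,1),(5,0),(3,1),(15,0),(6,0)]⟩ ⟨5,[(0,1),(6,1),(6,3),(5,1),(18,0),(0,0)]⟩),.k,.k,⟨false,1,⟨7,
  [(7,1),(1,3),(9,4),(0,0),(18,1),(0,1)]⟩,⟨3,[(0,2),(0,0),(6,0),(1,0),(13,0),(10,3)]⟩⟩,⟨true,(-1),
  ⟨0,[(5,0),(3,0),(4,0),(6,0)]⟩,⟨0,[(22,0),(5,0),(10,0)]⟩⟩,⟨false,1,⟨0,[(37,0),(2,0)]⟩,⟨0,[(38,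
  0)]⟩⟩,⟨true,(-1),⟨0,[(0,0),(4,0),(3,0),(4,0),(6,0),(13,0)]⟩,⟨11,[(3,9),(4,5),(10,0),(2,1),(0,3),
  (2,7),(5,0),(2,1)]⟩⟩,⟨true,0,⟨0,[]⟩,⟨0,[(42,0)]⟩⟩,⟨true,(-1),⟨2,[(0,1),(0,0),(0,1),(2,1),(0,0),(2,
  2),(0,0),(3,3),(6,0),(13,1)]⟩,⟨0,[(3,0),(22,0)]⟩⟩,[.o ⟨false,0,⟨3,[(5,2),(9,0),(9,0),(9,0),(1,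
  0)]⟩,⟨3,[(8,1),(17,3),(5,0),(7,2)]⟩⟩,.o ⟨false,0,⟨0,[(5,0)]⟩,⟨3,[(8,1),(10,0),(0,0),(5,3),(5,0),
  (7,0)]⟩⟩,.o ⟨false,1,⟨1,[(22,1),(9,0),(6,0)]⟩,⟨0,[(15,0),(5,0)]⟩⟩,.a ⟨true,0,⟨0,[(22,0)]⟩,⟨0,[(21,
  0)]⟩⟩ ⟨true,1,⟨1,[(7,0),(11,0)]⟩,⟨3,[(0,2),(0,0),(6,0),(0,3),(0,0),(3,3),(9,0),(10,3)]⟩⟩ ⟨false,0,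
  ⟨0,[(5,0),(15,0)]⟩,⟨6,[(3,3),(4,2),(0,0),(10,1),(1,2),(0,2),(2,1),(1,1),(11,1)]⟩⟩]⟩))) (.I [0,1,
  -2,-1,1,0,0,0,-1] (.R ⟨0,false,false,false,[1,0,0,-1],[0,1],[0,1,0,0,0,0,0,0,-1],(⟨0,[(20,0)]⟩,⟨0,
  [(21,0)]⟩),(⟨0,[(33,0)]⟩,⟨0,[(32,0)]⟩),⟨0,[(1,0)]⟩,.k,.k,(.x (-1) ⟨3,[(18,0),(0,0),(11,1),(0,3)]⟩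
  ⟨0,[(33,0)]⟩),(.x (-1) ⟨3,[(18,0),(0,0),(11,1),(0,3)]⟩ ⟨0,[(33,0)]⟩),.k,.k,⟨false,1,⟨0,[(0,0)]⟩,
  ⟨9,[(3,7),(3,2),(0,0),(0,2),(9,0),(1,7),(0,0),(0,1),(10,1)]⟩⟩,⟨true,0,⟨0,[(20,0)]⟩,⟨0,[(14,0),(6,
  0)]⟩⟩,⟨true,0,⟨0,[(41,0)]⟩,⟨0,[]⟩⟩,⟨false,0,⟨6,[(3,4),(3,2),(0,0),(4,1),(5,0),(0,3),(0,1)]⟩,⟨3,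
  [(2,1),(1,1),(1,0),(11,0),(2,1),(0,1)]⟩⟩,⟨false,0,⟨0,[]⟩,⟨0,[]⟩⟩,⟨false,0,⟨0,[]⟩,⟨0,[]⟩⟩,[.o
  ⟨false,0,⟨0,[(37,0)]⟩,⟨1,[(31,0),(4,1),(2,0)]⟩⟩,.o ⟨false,1,⟨3,[(7,1),(10,0),(0,0),(11,0),(7,0)]⟩,
  ⟨1,[(4,0),(17,0),(13,0)]⟩⟩,.o ⟨false,1,⟨1,[(21,1),(9,0),(6,0)]⟩,⟨0,[(14,0),(5,0)]⟩⟩,.a ⟨true,0,⟨0,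
  [(21,0)]⟩,⟨0,[(20,0)]⟩⟩ ⟨false,1,⟨1,[(18,0),(19,0)]⟩,⟨0,[(3,0),(17,0)]⟩⟩ ⟨true,0,⟨0,[(20,0),(16,
  0)]⟩,⟨1,[(4,0),(16,1),(0,0),(13,0)]⟩⟩]⟩) (.R ⟨0,false,false,true,[1,0,0,-1],[0,1],[1,0,1],(⟨0,
  [(20,0)]⟩,⟨0,[(21,0)]⟩),(⟨0,[(33,0)]⟩,⟨0,[(32,0)]⟩),⟨0,[(1,0)]⟩,.k,.k,(.x (-1) ⟨3,[(18,0),(0,0),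
  (11,1),(0,3)]⟩ ⟨0,[(33,0)]⟩),(.x (-1) ⟨3,[(18,0),(0,0),(11,1),(0,3)]⟩ ⟨0,[(33,0)]⟩),.k,.k,⟨false,
  1,⟨1,[(6,0),(32,0)]⟩,⟨1,[(7,0),(6,0),(19,0),(6,0)]⟩⟩,⟨true,0,⟨0,[(20,0)]⟩,⟨0,[(14,0),(6,0)]⟩⟩,
  ⟨false,0,⟨3,[(0,1),(5,0),(12,0),(15,1)]⟩,⟨1,[(18,0),(19,0)]⟩⟩,⟨true,(-1),⟨0,[(0,0),(19,0),(13,
  0)]⟩,⟨3,[(2,1),(1,1),(1,0),(11,0),(2,1),(0,1)]⟩⟩,⟨false,0,⟨0,[]⟩,⟨0,[]⟩⟩,⟨false,0,⟨0,[]⟩,⟨0,[]⟩⟩,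
  [.o ⟨false,0,⟨1,[(7,0),(6,0),(19,0),(6,0)]⟩,⟨1,[(6,0),(7,1),(24,0)]⟩⟩,.o ⟨false,0,⟨0,[(37,0)]⟩,⟨1,
  [(31,0),(4,1),(2,0)]⟩⟩,.o ⟨false,1,⟨1,[(21,1),(9,0),(6,0)]⟩,⟨0,[(14,0),(5,0)]⟩⟩,.a ⟨true,0,⟨0,
  [(21,0)]⟩,⟨0,[(20,0)]⟩⟩ ⟨true,0,⟨0,[]⟩,⟨0,[(41,0)]⟩⟩ ⟨false,0,⟨0,[(20,0),(16,0)]⟩,⟨1,[(6,0),(7,1),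
  (6,1),(17,0)]⟩⟩]⟩))) (.K ⟨0,[0,0,0,1],0,(-1),(⟨0,[(19,0)]⟩,⟨0,[(18,0)]⟩),.k,(.x 0 ⟨1,[(12,1),(11,
  0),(0,0),(4,1)]⟩ ⟨0,[(31,0),(4,0)]⟩),(.x 0 ⟨0,[(31,0)]⟩ ⟨3,[(16,0),(0,0),(11,1),(0,3)]⟩),.k,.k,
  [⟨0,[(19,0)]⟩,⟨0,[(18,0)]⟩,⟨7,[(16,4),(0,0),(1,7),(12,3),(3,1)]⟩,⟨0,[(0,0)]⟩]⟩)))))) (.Q [0,1,0,1,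
  -1,0,2,2,0,1,-2] (.p false [0,0,1] [1,0,-1] (⟨0,[(23,0)]⟩,⟨0,[(22,0)]⟩) .k 2 (⟨0,[(22,0)]⟩,⟨0,
  [(23,0)]⟩) .k (.r (-1) ⟨0,[(6,1),(25,0)]⟩ ⟨0,[(21,1)]⟩)) (.Q [0,-1,0,0,1,0,-2,-2,0,-1,2] (.p true
  [0,0,1] [1,0,-1] (⟨0,[(24,0)]⟩,⟨0,[(23,0)]⟩) .k 2 (⟨0,[(23,0)]⟩,⟨0,[(24,0)]⟩) .k (.r (-1) ⟨0,[(7,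
  1),(25,0)]⟩ ⟨0,[(22,1)]⟩)) (.R ⟨1,true,false,true,[1,0,-1],[0,0,1],[1,1,0,-1,0,0,0,-1],(⟨0,[(24,
  0)]⟩,⟨0,[(25,0)]⟩),(⟨0,[(25,0)]⟩,⟨0,[(24,0)]⟩),⟨0,[(5,0)]⟩,.k,.k,.k,.k,(.r (-1) ⟨3,[(10,3),(2,0),
  (0,0),(8,3),(9,1)]⟩ ⟨0,[(4,0),(3,0),(13,0)]⟩),.k,⟨true,0,⟨0,[(10,0),(12,0)]⟩,⟨0,[(4,0),(3,0),(13,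
  0)]⟩⟩,⟨false,0,⟨1,[(1,0),(1,0),(6,1),(1,0),(20,1)]⟩,⟨0,[(18,0),(3,0),(10,0)]⟩⟩,⟨true,0,⟨0,[(31,
  0)]⟩,⟨0,[(32,0)]⟩⟩,⟨false,0,⟨0,[(12,0)]⟩,⟨0,[(0,0)]⟩⟩,⟨false,0,⟨0,[]⟩,⟨3,[(13,0),(0,0),(19,1)]⟩⟩,
  ⟨true,(-1),⟨0,[(1,0)]⟩,⟨0,[(0,0),(30,0)]⟩⟩,[]⟩) (.I [0,1,1,1,-1] (.Q [0,1,0,2,-1,0,1,1,0,1,-1]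
  (.p false [0,0,1] [1] (⟨0,[(26,0)]⟩,⟨0,[(25,0)]⟩) .k 1 (⟨0,[]⟩,⟨0,[]⟩) .k .k) (.R ⟨1,true,false,
  true,[1,0,-1],[0,1],[1,1,0,-1,0,0,0,-1],(⟨0,[(26,0)]⟩,⟨0,[(27,0)]⟩),(⟨0,[(30,0)]⟩,⟨0,[(29,0)]⟩),
  ⟨0,[(7,0)]⟩,.k,.k,.k,.k,(.r (-2) ⟨3,[(12,3),(2,0),(0,0),(16,3),(1,3),(0,1)]⟩ ⟨0,[(1,0),(4,0),(17,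
  0)]⟩),.k,⟨true,1,⟨1,[(12,1),(20,1),(1,0),(0,0)]⟩,⟨0,[(1,0),(4,0),(17,0)]⟩⟩,⟨false,1,⟨7,[(12,7),(0,
  7),(1,0),(0,0),(14,3),(3,5)]⟩,⟨0,[(20,0)]⟩⟩,⟨true,0,⟨0,[(33,0)]⟩,⟨0,[(34,0)]⟩⟩,⟨false,0,⟨7,[(0,1),
  (12,3),(0,1),(0,0),(0,0),(5,1)]⟩,⟨1,[(12,1),(7,1),(14,0),(0,0)]⟩⟩,⟨false,0,⟨0,[]⟩,⟨3,[(15,0),(0,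
  0),(19,1)]⟩⟩,⟨true,(-1),⟨0,[(0,0)]⟩,⟨0,[(4,0),(17,0),(13,0)]⟩⟩,[]⟩) (.I [0,0,1,1,-1,0,0,0,-1] (.K
  ⟨0,[0,0,0,1],0,0,(⟨0,[(19,0)]⟩,⟨0,[(18,0)]⟩),.k,(.r (-2) ⟨5,[(1,1),(13,0),(0,1),(0,4),(0,0),(0,0),
  (14,1),(1,2)]⟩ ⟨0,[(0,0)]⟩),(.x 0 ⟨0,[(31,0)]⟩ ⟨3,[(16,0),(0,0),(11,1),(0,3)]⟩),.k,.k,[⟨0,[(19,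
  0)]⟩,⟨0,[(18,0)]⟩,⟨0,[(0,0),(18,0),(14,0),(1,0)]⟩,⟨5,[(2,3),(2,1),(6,1),(4,2),(0,5),(10,0)]⟩]⟩)
  (.Q [0,1,-1,0,0,0,0,0,-1,0,0,1] (.p true [0,0,0,1] [] (⟨0,[(19,0)]⟩,⟨0,[(18,0)]⟩) .k 0 (⟨0,[]⟩,⟨0,
  []⟩) .k .k) (.K ⟨0,[0,0,0,1],0,0,(⟨0,[(20,0)]⟩,⟨0,[(19,0)]⟩),.k,(.x 0 ⟨1,[(13,1),(11,0),(0,0),(4,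
  1)]⟩ ⟨0,[(32,0),(4,0)]⟩),(.x 0 ⟨0,[(32,0)]⟩ ⟨3,[(17,0),(0,0),(11,1),(0,3)]⟩),.k,.k,[⟨0,[(20,0)]⟩,
  ⟨0,[(19,0)]⟩,⟨0,[(0,0)]⟩,⟨5,[(3,3),(2,1),(6,1),(4,2),(0,5),(10,0)]⟩]⟩) (.Q [0,1,1,0,-1,0,0,0,1,0,
  0,-1] (.p false [0,0,0,1] [] (⟨0,[(20,0)]⟩,⟨0,[(19,0)]⟩) .k 0 (⟨0,[]⟩,⟨0,[]⟩) .k .k) (.K ⟨0,[0,0,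
  0,1],0,(-1),(⟨0,[(21,0)]⟩,⟨0,[(20,0)]⟩),.k,(.r (-1) ⟨0,[(0,0),(2,4),(0,5),(0,0),(3,2),(0,3),(10,
  0),(8,3),(2,3),(4,3)]⟩ ⟨13,[(4,5),(3,1),(0,1),(6,1),(1,6),(8,3),(3,0),(5,1)]⟩),(.x 0 ⟨0,[(33,0)]⟩
  ⟨3,[(18,0),(0,0),(11,1),(0,3)]⟩),.k,.k,[⟨0,[(21,0)]⟩,⟨0,[(20,0)]⟩,⟨7,[(18,4),(0,0),(1,7),(12,3),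
  (3,1)]⟩,⟨0,[(0,0)]⟩]⟩) (.Q [0,0,0,0,0,-1,0,0,0,1,0,-1] (.p false [0,0,0,1] [1] (⟨0,[(21,0)]⟩,⟨0,
  [(20,0)]⟩) .k 1 (⟨0,[]⟩,⟨0,[]⟩) .k .k) (.R ⟨1,false,false,false,[1,0,0,-1],[0,1],[0,1,0,0,0,0,0,0,
  -1],(⟨0,[(21,0)]⟩,⟨0,[(22,0)]⟩),(⟨0,[(34,0)]⟩,⟨0,[(33,0)]⟩),⟨0,[(0,0)]⟩,.k,.k,(.x (-1) ⟨3,[(19,0),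
  (0,0),(11,1),(0,3)]⟩ ⟨0,[(34,0)]⟩),(.x (-1) ⟨3,[(19,0),(0,0),(11,1),(0,3)]⟩ ⟨0,[(34,0)]⟩),(.r
  (-2) ⟨7,[(1,2),(1,0),(0,2),(7,2),(6,2),(1,2),(15,5),(1,5)]⟩ ⟨0,[(2,0),(2,0),(16,0),(15,0)]⟩),.k,
  ⟨false,1,⟨1,[(1,1),(4,0),(1,0),(12,1),(1,1),(15,0)]⟩,⟨0,[(2,0),(19,0),(15,0)]⟩⟩,⟨true,0,⟨0,[(21,
  0)]⟩,⟨0,[(15,0),(6,0)]⟩⟩,⟨true,0,⟨0,[(42,0)]⟩,⟨0,[]⟩⟩,⟨false,0,⟨0,[(2,0),(14,0),(8,0)]⟩,⟨6,[(1,6),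
  (5,0),(0,3),(14,1),(8,0)]⟩⟩,⟨false,0,⟨0,[(38,0)]⟩,⟨13,[(1,1),(2,5),(11,1),(1,3),(0,0),(0,1),(0,1),
  (6,1),(11,2)]⟩⟩,⟨false,0,⟨0,[(2,0),(14,0),(8,0),(11,0)]⟩,⟨0,[(1,0),(6,0)]⟩⟩,[.o ⟨false,0,⟨0,[(38,
  0)]⟩,⟨31,[(4,7),(3,7),(9,3),(0,6),(0,6),(11,9)]⟩⟩,.o ⟨false,1,⟨3,[(19,0),(0,0),(17,3),(1,1)]⟩,⟨6,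
  [(7,0),(0,3),(14,1),(8,0)]⟩⟩,.o ⟨false,1,⟨1,[(22,1),(9,0),(6,0)]⟩,⟨9,[(2,5),(2,3),(2,1),(10,2),(1,
  3),(10,0)]⟩⟩,.a ⟨true,0,⟨0,[(22,0)]⟩,⟨0,[(21,0)]⟩⟩ ⟨false,1,⟨1,[(19,0),(19,0)]⟩,⟨0,[(2,0),(19,
  0)]⟩⟩ ⟨true,0,⟨0,[(21,0),(16,0)]⟩,⟨6,[(7,0),(0,3),(13,6),(0,1),(8,0)]⟩⟩]⟩) (.R ⟨0,false,false,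
  true,[1,0,0,-1],[0,0,1],[1,0,1],(⟨0,[(21,0)]⟩,⟨0,[(22,0)]⟩),(⟨0,[(31,0)]⟩,⟨0,[(30,0)]⟩),⟨0,[(0,
  0)]⟩,.k,.k,(.x (-1) ⟨3,[(19,0),(0,0),(11,1),(0,3)]⟩ ⟨0,[(34,0)]⟩),.k,.k,.k,⟨true,0,⟨5,[(9,1),(6,
  1),(10,0),(0,0),(11,1)]⟩,⟨0,[(14,0)]⟩⟩,⟨false,0,⟨21,[(7,5),(1,1),(0,3),(5,11),(4,21),(5,5),(4,2),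
  (6,4)]⟩,⟨0,[(22,0),(1,0),(14,0)]⟩⟩,⟨false,0,⟨0,[(2,0),(19,0)]⟩,⟨1,[(19,0),(19,0)]⟩⟩,⟨true,(-1),⟨0,
  [(2,0),(3,0),(19,0)]⟩,⟨0,[(1,0),(21,0)]⟩⟩,⟨false,0,⟨0,[]⟩,⟨0,[]⟩⟩,⟨false,0,⟨0,[]⟩,⟨0,[]⟩⟩,[.o
  ⟨false,0,⟨0,[(25,0)]⟩,⟨0,[(23,0),(16,0)]⟩⟩,.o ⟨false,0,⟨0,[(13,0)]⟩,⟨1,[(26,1),(5,0),(7,0)]⟩⟩,.o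
  ⟨false,1,⟨1,[(22,1),(9,0),(6,0)]⟩,⟨9,[(2,5),(2,3),(2,1),(10,2),(1,3),(10,0)]⟩⟩,.a ⟨true,0,⟨0,[(22,
  0)]⟩,⟨0,[(21,0)]⟩⟩ ⟨true,0,⟨0,[]⟩,⟨0,[(42,0)]⟩⟩ ⟨false,0,⟨6,[(7,0),(2,0),(1,1),(5,0),(2,6),(10,
  0)]⟩,⟨0,[(22,0),(0,0),(16,0)]⟩⟩]⟩)))))) (.Q [0,1,-1,0,0,0,0,0,-1,0,0,1] (.p true [0,0,0,1] [] (⟨0,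
  [(17,0)]⟩,⟨0,[(16,0)]⟩) .k 0 (⟨0,[]⟩,⟨0,[]⟩) .k .k) (.K ⟨0,[0,0,0,1],0,0,(⟨0,[(18,0)]⟩,⟨0,[(17,
  0)]⟩),.k,(.x 0 ⟨1,[(11,1),(11,0),(0,0),(4,1)]⟩ ⟨0,[(30,0),(4,0)]⟩),(.x 0 ⟨0,[(30,0)]⟩ ⟨3,[(15,0),
  (0,0),(11,1),(0,3)]⟩),.k,.k,[⟨0,[(18,0)]⟩,⟨0,[(17,0)]⟩,⟨0,[(0,0)]⟩,⟨7,[(3,2),(0,1),(0,0),(5,3),(4,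
  3),(0,7),(1,3),(0,0),(3,0)]⟩]⟩) (.Q [0,1,1,0,-1,0,0,0,1,0,0,-1] (.p false [0,0,0,1] [] (⟨0,[(18,
  0)]⟩,⟨0,[(17,0)]⟩) .k 0 (⟨0,[]⟩,⟨0,[]⟩) .k .k) (.K ⟨0,[0,0,0,1],0,(-1),(⟨0,[(19,0)]⟩,⟨0,[(18,
  0)]⟩),.k,(.r (-1) ⟨2,[(0,0),(1,2),(14,0),(1,0),(12,0)]⟩ ⟨3,[(4,0),(1,0),(9,1),(4,0),(3,0),(9,
  1)]⟩),(.x 0 ⟨0,[(31,0)]⟩ ⟨3,[(16,0),(0,0),(11,1),(0,3)]⟩),.k,.k,[⟨0,[(19,0)]⟩,⟨0,[(18,0)]⟩,⟨7,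
  [(16,4),(0,0),(1,7),(12,3),(3,1)]⟩,⟨0,[(0,0)]⟩]⟩) (.Q [0,0,0,0,0,-1,0,0,0,1,0,-1] (.p false [0,0,
  0,1] [1] (⟨0,[(19,0)]⟩,⟨0,[(18,0)]⟩) .k 1 (⟨0,[]⟩,⟨0,[]⟩) .k .k) (.R ⟨1,false,false,true,[1,0,0,
  -1],[1,0,-1],[1,1,0,-1,0,0,0,0,-1],(⟨0,[(19,0)]⟩,⟨0,[(20,0)]⟩),(⟨0,[(28,0)]⟩,⟨0,[(29,0)]⟩),⟨0,[(0,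
  0)]⟩,.k,.k,(.x (-1) ⟨3,[(17,0),(0,0),(11,1),(0,3)]⟩ ⟨0,[(32,0)]⟩),.k,(.r (-1) ⟨1,[(1,1),(2,0),(1,
  0),(12,1),(2,1),(14,0)]⟩ ⟨1,[(7,0),(10,0),(17,0),(3,0)]⟩),.k,⟨false,1,⟨1,[(1,1),(2,0),(1,0),(12,
  1),(2,1),(14,0)]⟩,⟨1,[(2,1),(2,0),(1,0),(12,1),(0,0),(2,0),(12,1)]⟩⟩,⟨true,0,⟨0,[(19,0),(2,0)]⟩,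
  ⟨21,[(5,5),(1,1),(0,3),(5,11),(5,21),(4,5),(4,2),(6,4)]⟩⟩,⟨true,0,⟨0,[(35,0)]⟩,⟨0,[(36,0)]⟩⟩,
  ⟨false,0,⟨0,[(2,0),(21,0)]⟩,⟨6,[(1,6),(3,0),(2,0),(1,1),(5,0),(13,0)]⟩⟩,⟨false,0,⟨0,[]⟩,⟨3,[(17,
  0),(0,0),(19,1)]⟩⟩,⟨false,0,⟨0,[(2,0),(21,0),(11,0)]⟩,⟨0,[(1,0),(8,0)]⟩⟩,[.o ⟨false,0,⟨0,[(21,
  0)]⟩,⟨7,[(16,3),(0,0),(0,0),(11,1),(7,3)]⟩⟩,.o ⟨false,1,⟨1,[(24,1),(5,0),(7,0)]⟩,⟨0,[(11,0)]⟩⟩,.o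
  ⟨false,1,⟨1,[(20,1),(9,0),(6,0)]⟩,⟨0,[(13,0),(5,0)]⟩⟩,.a ⟨true,0,⟨0,[(20,0)]⟩,⟨0,[(19,0)]⟩⟩
  ⟨false,1,⟨3,[(1,1),(4,1),(10,0),(1,1),(17,0)]⟩,⟨0,[(2,0),(17,0),(15,0)]⟩⟩ ⟨true,0,⟨0,[(19,0),(1,
  0)]⟩,⟨6,[(5,0),(2,0),(1,1),(5,0),(3,6),(9,0)]⟩⟩]⟩) (.R ⟨0,false,false,true,[1,0,0,-1],[0,0,1],[1,
  0,1],(⟨0,[(19,0)]⟩,⟨0,[(20,0)]⟩),(⟨0,[(29,0)]⟩,⟨0,[(28,0)]⟩),⟨0,[(0,0)]⟩,.k,.k,(.x (-1) ⟨3,[(17,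
  0),(0,0),(11,1),(0,3)]⟩ ⟨0,[(32,0)]⟩),.k,.k,.k,⟨true,0,⟨5,[(7,1),(6,1),(10,0),(0,0),(11,1)]⟩,⟨0,
  [(12,0)]⟩⟩,⟨false,0,⟨21,[(5,5),(1,1),(0,3),(5,11),(4,21),(5,5),(4,2),(6,4)]⟩,⟨0,[(20,0),(1,0),(14,
  0)]⟩⟩,⟨false,0,⟨0,[(2,0),(17,0)]⟩,⟨1,[(17,0),(19,0)]⟩⟩,⟨true,(-1),⟨0,[(2,0),(1,0),(19,0)]⟩,⟨0,[(1,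
  0),(19,0)]⟩⟩,⟨false,0,⟨0,[]⟩,⟨0,[]⟩⟩,⟨false,0,⟨0,[]⟩,⟨0,[]⟩⟩,[.o ⟨false,0,⟨0,[(23,0)]⟩,⟨0,[(21,0),
  (16,0)]⟩⟩,.o ⟨false,0,⟨0,[(11,0)]⟩,⟨1,[(24,1),(5,0),(7,0)]⟩⟩,.o ⟨false,1,⟨1,[(20,1),(9,0),(6,0)]⟩,
  ⟨0,[(13,0),(5,0)]⟩⟩,.a ⟨true,0,⟨0,[(20,0)]⟩,⟨0,[(19,0)]⟩⟩ ⟨true,0,⟨0,[]⟩,⟨0,[(40,0)]⟩⟩ ⟨false,0,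
  ⟨6,[(5,0),(2,0),(1,1),(5,0),(2,6),(10,0)]⟩,⟨0,[(20,0),(0,0),(16,0)]⟩⟩]⟩)))))) (.Q [0,1,1,0,-1,0,0,
  0,1,0,0,-1] (.p false [0,0,0,1] [] (⟨0,[(15,0)]⟩,⟨0,[(14,0)]⟩) .k 0 (⟨0,[]⟩,⟨0,[]⟩) .k .k) (.K ⟨0,
  [0,0,0,1],0,(-1),(⟨0,[(16,0)]⟩,⟨0,[(15,0)]⟩),.k,(.x 0 ⟨1,[(9,1),(11,0),(0,0),(4,1)]⟩ ⟨0,[(28,0),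
  (4,0)]⟩),(.x 0 ⟨0,[(28,0)]⟩ ⟨3,[(13,0),(0,0),(11,1),(0,3)]⟩),.k,.k,[⟨0,[(16,0)]⟩,⟨0,[(15,0)]⟩,⟨7,
  [(13,4),(0,0),(1,7),(12,3),(3,1)]⟩,⟨0,[(0,0)]⟩]⟩) (.I [0,0,1,1,-1,0,0,0,-1] (.K ⟨0,[0,0,0,1],0,0,
  (⟨0,[(17,0)]⟩,⟨0,[(16,0)]⟩),.k,(.r (-2) ⟨3,[(14,0),(0,2),(16,3),(1,1),(0,1)]⟩ ⟨0,[(0,0)]⟩),(.x 0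
  ⟨0,[(29,0)]⟩ ⟨3,[(14,0),(0,0),(11,1),(0,3)]⟩),.k,.k,[⟨0,[(17,0)]⟩,⟨0,[(16,0)]⟩,⟨0,[(0,0),(16,0),
  (14,0),(1,0)]⟩,⟨4,[(0,4),(2,2),(1,0),(4,0),(4,4),(0,4),(1,0),(11,0)]⟩]⟩) (.Q [0,1,-1,0,0,0,0,0,-1,
  0,0,1] (.p true [0,0,0,1] [] (⟨0,[(17,0)]⟩,⟨0,[(16,0)]⟩) .k 0 (⟨0,[]⟩,⟨0,[]⟩) .k .k) (.K ⟨0,[0,0,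
  0,1],0,0,(⟨0,[(18,0)]⟩,⟨0,[(17,0)]⟩),.k,(.x 0 ⟨1,[(11,1),(11,0),(0,0),(4,1)]⟩ ⟨0,[(30,0),(4,0)]⟩),
  (.x 0 ⟨0,[(30,0)]⟩ ⟨3,[(15,0),(0,0),(11,1),(0,3)]⟩),.k,.k,[⟨0,[(18,0)]⟩,⟨0,[(17,0)]⟩,⟨0,[(0,0)]⟩,
  ⟨1,[(4,0),(0,0),(0,0),(3,0),(5,0),(0,1),(2,0),(10,0)]⟩]⟩) (.Q [0,0,0,0,0,-1,0,0,0,1,0,-1] (.p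
  false [0,0,0,1] [1] (⟨0,[(18,0)]⟩,⟨0,[(17,0)]⟩) .k 1 (⟨0,[]⟩,⟨0,[]⟩) .k .k) (.Q [0,0,-1,-1,1,0,-1,
  -1,-1,-1,1,1] (.p true [0,0,1] [1,0,0,-1] (⟨0,[(28,0)]⟩,⟨0,[(27,0)]⟩) .k 2 (⟨0,[(18,0)]⟩,⟨0,[(19,
  0)]⟩) .k (.x 0 ⟨0,[(24,0),(3,0)]⟩ ⟨0,[(21,0),(5,0),(8,0)]⟩)) (.I [1,0,0,-1,0,0,0,-1,-1] (.R ⟨1,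
  false,false,false,[1,0,0,-1],[0,0,1],[0,0,0,0,0,0,0,0,-1],(⟨0,[(20,0)]⟩,⟨0,[(21,0)]⟩),(⟨0,[(30,
  0)]⟩,⟨0,[(29,0)]⟩),⟨0,[(2,0)]⟩,.k,.k,(.x (-1) ⟨3,[(18,0),(0,0),(11,1),(0,3)]⟩ ⟨0,[(33,0)]⟩),.k,
  (.r (-1) ⟨3,[(0,3),(17,0),(0,0),(18,1)]⟩ ⟨0,[(3,0),(9,0),(7,0),(15,0)]⟩),.k,⟨true,0,⟨0,[(0,0),(36,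
  0)]⟩,⟨0,[(3,0),(9,0),(7,0)]⟩⟩,⟨false,0,⟨2,[(9,1),(5,1),(4,2),(5,0),(7,0)]⟩,⟨0,[(21,0),(1,0),(14,
  0)]⟩⟩,⟨false,1,⟨3,[(18,0),(0,0),(19,1)]⟩,⟨0,[]⟩⟩,⟨false,0,⟨1,[(3,1),(13,0),(2,0),(0,0)]⟩,⟨0,[(1,
  0),(35,0)]⟩⟩,⟨true,0,⟨0,[(37,0)]⟩,⟨0,[(36,0)]⟩⟩,⟨false,0,⟨6,[(3,4),(4,0),(4,1),(2,4),(2,0),(0,1),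
  (3,1),(12,0)]⟩,⟨0,[(1,0)]⟩⟩,[.o ⟨false,0,⟨0,[(12,0)]⟩,⟨5,[(6,1),(11,0),(0,0),(5,1),(5,1),(5,1)]⟩⟩,
  .o ⟨false,1,⟨7,[(17,3),(0,0),(0,0),(11,1),(7,3)]⟩,⟨0,[(22,0)]⟩⟩,.o ⟨false,1,⟨1,[(21,1),(9,0),(6,
  0)]⟩,⟨0,[(14,0),(5,0)]⟩⟩,.a ⟨true,0,⟨0,[(21,0)]⟩,⟨0,[(20,0)]⟩⟩ ⟨false,1,⟨0,[(1,0),(7,0),(10,0)]⟩,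
  ⟨3,[(3,1),(4,0),(4,1),(5,0),(1,1),(14,0)]⟩⟩ ⟨true,0,⟨2,[(9,0),(1,0),(8,2),(3,0)]⟩,⟨0,[(21,0),(0,
  0)]⟩⟩]⟩) (.R ⟨1,false,false,true,[1,0,0,-1],[1,0,-1],[0,1,0,0,0,0,0,0,-1],(⟨0,[(20,0)]⟩,⟨0,[(21,
  0)]⟩),(⟨0,[(29,0)]⟩,⟨0,[(30,0)]⟩),⟨0,[(2,0)]⟩,.k,.k,(.x (-1) ⟨3,[(18,0),(0,0),(11,1),(0,3)]⟩ ⟨0,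
  [(33,0)]⟩),.k,(.x 0 ⟨4,[(7,2),(0,1),(0,4),(5,0),(14,4),(0,0),(0,4),(1,1),(3,0)]⟩ ⟨1,[(27,1),(1,1),
  (1,0),(1,1),(4,0)]⟩),.k,⟨false,1,⟨0,[(1,0),(7,0),(3,0),(6,0)]⟩,⟨4,[(0,3),(3,0),(3,1),(6,4),(18,0),
  (3,0)]⟩⟩,⟨true,0,⟨0,[(20,0),(2,0)]⟩,⟨2,[(9,1),(5,1),(5,2),(4,0),(7,0)]⟩⟩,⟨true,0,⟨0,[(41,0)]⟩,⟨0,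
  []⟩⟩,⟨false,0,⟨0,[(3,0),(21,0)]⟩,⟨1,[(1,0),(3,0),(3,0),(7,0)]⟩⟩,⟨false,0,⟨0,[(37,0)]⟩,⟨0,[(36,0),
  (2,0)]⟩⟩,⟨false,0,⟨0,[(3,0),(21,0),(11,0)]⟩,⟨0,[(5,0),(5,0)]⟩⟩,[.o ⟨false,0,⟨0,[(22,0)]⟩,⟨7,[(17,
  3),(0,0),(0,0),(11,1),(7,3)]⟩⟩,.o ⟨false,1,⟨5,[(6,1),(11,0),(0,0),(5,1),(5,1),(5,1)]⟩,⟨0,[(12,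
  0)]⟩⟩,.o ⟨false,1,⟨1,[(21,1),(9,0),(6,0)]⟩,⟨0,[(14,0),(5,0)]⟩⟩,.a ⟨true,0,⟨0,[(21,0)]⟩,⟨0,[(20,
  0)]⟩⟩ ⟨false,1,⟨1,[(18,0),(19,0)]⟩,⟨0,[(3,0),(17,0)]⟩⟩ ⟨true,0,⟨0,[(20,0),(1,0)]⟩,⟨2,[(9,0),(1,0),
  (9,2),(2,0)]⟩⟩]⟩)) (.R ⟨1,false,false,true,[1,0,0,-1],[0,0,1],[1,0,1],(⟨0,[(19,0)]⟩,⟨0,[(20,0)]⟩),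
  (⟨0,[(29,0)]⟩,⟨0,[(28,0)]⟩),⟨0,[(1,0)]⟩,.k,.k,(.x (-1) ⟨3,[(17,0),(0,0),(11,1),(0,3)]⟩ ⟨0,[(32,
  0)]⟩),.k,(.r (-1) ⟨1,[(14,1),(2,0),(19,0)]⟩ ⟨2,[(0,0),(7,0),(3,0),(5,0),(1,0),(1,0),(3,0),(9,
  0)]⟩),.k,⟨true,0,⟨5,[(7,1),(6,1),(10,0),(0,0),(11,1)]⟩,⟨0,[(12,0)]⟩⟩,⟨false,0,⟨2,[(8,1),(5,1),(4,
  2),(5,0),(7,0)]⟩,⟨0,[(20,0),(1,0),(14,0)]⟩⟩,⟨false,0,⟨0,[(2,0),(17,0)]⟩,⟨1,[(17,0),(19,0)]⟩⟩,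
  ⟨true,(-1),⟨0,[(0,0),(34,0)]⟩,⟨0,[(4,0),(16,0)]⟩⟩,⟨false,0,⟨7,[(0,3),(4,2),(1,0),(0,3),(9,1),(1,
  3),(1,0),(3,0),(9,1)]⟩,⟨3,[(4,1),(1,1),(10,0),(1,1),(17,0)]⟩⟩,⟨false,(-1),⟨0,[(0,0)]⟩,⟨23,[(4,21),
  (0,11),(0,5),(10,5),(0,4),(1,1),(9,2),(2,1)]⟩⟩,[.o ⟨false,0,⟨0,[(23,0)]⟩,⟨3,[(5,1),(24,0),(5,1),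
  (1,0)]⟩⟩,.o ⟨false,0,⟨0,[(11,0)]⟩,⟨5,[(5,1),(11,0),(0,0),(5,1),(5,1),(5,1)]⟩⟩,.o ⟨false,1,⟨1,[(20,
  1),(9,0),(6,0)]⟩,⟨0,[(13,0),(5,0)]⟩⟩,.a ⟨true,0,⟨0,[(20,0)]⟩,⟨0,[(19,0)]⟩⟩ ⟨true,0,⟨0,[]⟩,⟨0,[(40,
  0)]⟩⟩ ⟨false,0,⟨15,[(0,1),(7,3),(1,5),(5,1),(0,0),(1,13),(10,0),(2,1)]⟩,⟨3,[(5,1),(14,3),(9,0),(5,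
  1),(1,0)]⟩⟩]⟩)) (.I [0,1,-2,-1,1,0,0,0,-1] (.R ⟨0,false,false,false,[1,0,0,-1],[0,1],[0,1,0,0,0,0,
  0,0,-1],(⟨0,[(19,0)]⟩,⟨0,[(20,0)]⟩),(⟨0,[(32,0)]⟩,⟨0,[(31,0)]⟩),⟨0,[(1,0)]⟩,.k,.k,(.x (-1) ⟨3,
  [(17,0),(0,0),(11,1),(0,3)]⟩ ⟨0,[(32,0)]⟩),(.x (-1) ⟨3,[(17,0),(0,0),(11,1),(0,3)]⟩ ⟨0,[(32,0)]⟩),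
  .k,.k,⟨false,1,⟨0,[(0,0)]⟩,⟨0,[(2,0),(17,0),(15,0)]⟩⟩,⟨true,0,⟨0,[(19,0)]⟩,⟨0,[(13,0),(6,0)]⟩⟩,
  ⟨true,0,⟨0,[(40,0)]⟩,⟨0,[]⟩⟩,⟨false,0,⟨0,[(2,0),(12,0),(8,0)]⟩,⟨15,[(4,13),(1,9),(1,3),(8,0),(2,
  1),(0,3),(8,0),(2,1)]⟩⟩,⟨false,0,⟨0,[]⟩,⟨0,[]⟩⟩,⟨false,0,⟨0,[]⟩,⟨0,[]⟩⟩,[.o ⟨false,0,⟨0,[(36,0)]⟩,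
  ⟨3,[(6,1),(10,0),(0,0),(11,0),(7,0)]⟩⟩,.o ⟨false,1,⟨3,[(17,0),(0,0),(17,3),(1,1)]⟩,⟨4,[(6,2),(1,
  0),(4,0),(7,0),(11,0)]⟩⟩,.o ⟨false,1,⟨1,[(20,1),(9,0),(6,0)]⟩,⟨0,[(13,0),(5,0)]⟩⟩,.a ⟨true,0,⟨0,
  [(20,0)]⟩,⟨0,[(19,0)]⟩⟩ ⟨false,1,⟨1,[(17,0),(19,0)]⟩,⟨0,[(2,0),(17,0)]⟩⟩ ⟨true,0,⟨0,[(19,0),(16,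
  0)]⟩,⟨4,[(6,2),(1,0),(4,0),(6,4),(0,0),(11,0)]⟩⟩]⟩) (.R ⟨0,false,false,true,[1,0,0,-1],[0,1],[1,0,
  1],(⟨0,[(19,0)]⟩,⟨0,[(20,0)]⟩),(⟨0,[(32,0)]⟩,⟨0,[(31,0)]⟩),⟨0,[(1,0)]⟩,.k,.k,(.x (-1) ⟨3,[(17,0),
  (0,0),(11,1),(0,3)]⟩ ⟨0,[(32,0)]⟩),(.x (-1) ⟨3,[(17,0),(0,0),(11,1),(0,3)]⟩ ⟨0,[(32,0)]⟩),.k,.k,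
  ⟨false,1,⟨0,[(0,0),(3,0),(1,0),(12,0),(17,0)]⟩,⟨0,[(36,0),(3,0)]⟩⟩,⟨true,0,⟨0,[(19,0)]⟩,⟨0,[(13,
  0),(6,0)]⟩⟩,⟨false,0,⟨1,[(0,0),(2,0),(30,0)]⟩,⟨1,[(17,0),(19,0)]⟩⟩,⟨true,(-1),⟨0,[(0,0),(18,0),
  (13,0)]⟩,⟨15,[(4,13),(1,9),(1,3),(8,0),(2,1),(0,3),(8,0),(2,1)]⟩⟩,⟨false,0,⟨0,[]⟩,⟨0,[]⟩⟩,⟨false,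
  0,⟨0,[]⟩,⟨0,[]⟩⟩,[.o ⟨false,0,⟨0,[(36,0),(3,0)]⟩,⟨3,[(6,1),(23,0),(7,2)]⟩⟩,.o ⟨false,0,⟨0,[(36,
  0)]⟩,⟨3,[(6,1),(10,0),(0,0),(11,0),(7,0)]⟩⟩,.o ⟨false,1,⟨1,[(20,1),(9,0),(6,0)]⟩,⟨0,[(13,0),(5,
  0)]⟩⟩,.a ⟨true,0,⟨0,[(20,0)]⟩,⟨0,[(19,0)]⟩⟩ ⟨true,0,⟨0,[]⟩,⟨0,[(40,0)]⟩⟩ ⟨false,0,⟨0,[(19,0),(16,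
  0)]⟩,⟨3,[(6,1),(13,3),(9,0),(7,2)]⟩⟩]⟩))))))))

theorem ok6 : chk (cU (-1) true 3) t6 l8 = true := by decide +kernel

noncomputable def l9 : List Con := (false, [0,-1,0,2,0,0,0,0,0,1]) :: r8

noncomputable def r9 : List Con := (false, [0,1,0,-2,0,0,0,0,0,-1]) :: r8

noncomputable def t7 : Tre :=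
  (.I [1,0,-2,-2,1] (.Q [0,0,0,0,0,1,0,0,0,0,-1] (.ed true [1,-1,1] .k) (.Q [0,0,0,1,0,0,-1,-1,0,1,
  1] (.p true [1,-1,1] [] (⟨0,[(25,0),(1,0)]⟩,⟨0,[(0,0)]⟩) .k 0 (⟨0,[]⟩,⟨0,[]⟩) .k .k) (.R ⟨2,false,
  false,false,[0,1],[0,1,-1],[0,1,1,1],(⟨0,[]⟩,⟨0,[]⟩),(⟨0,[(1,0)]⟩,⟨0,[(26,0),(1,0)]⟩),⟨0,[]⟩,.k,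
  .k,.k,.k,.k,.k,⟨true,0,⟨0,[(9,0)]⟩,⟨0,[(24,0),(6,0)]⟩⟩,⟨false,1,⟨1,[(0,0),(3,0),(13,0),(16,0)]⟩,
  ⟨2,[(5,1),(5,1),(10,0),(7,0)]⟩⟩,⟨true,0,⟨0,[(37,0)]⟩,⟨0,[]⟩⟩,⟨false,1,⟨0,[(21,0),(13,0)]⟩,⟨0,[(8,
  0)]⟩⟩,⟨false,0,⟨0,[(33,0)]⟩,⟨0,[(32,0),(2,0)]⟩⟩,⟨false,1,⟨1,[(0,1),(26,0),(7,0)]⟩,⟨0,[(7,0)]⟩⟩,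
  [.a ⟨true,0,⟨0,[(0,0)]⟩,⟨0,[(7,0)]⟩⟩ ⟨false,0,⟨1,[(3,0),(6,0),(19,0),(6,0)]⟩,⟨1,[(2,0),(32,0)]⟩⟩
  ⟨true,0,⟨0,[(0,0),(9,0)]⟩,⟨0,[(7,0)]⟩⟩,.o ⟨false,1,⟨1,[(0,1),(26,0),(7,0)]⟩,⟨2,[(5,0),(1,3),(2,0),
  (7,1),(11,0)]⟩⟩,.o ⟨false,1,⟨3,[(14,0),(0,0),(18,1)]⟩,⟨0,[(10,0)]⟩⟩,.e ⟨false,0,⟨0,[(33,0)]⟩,⟨0,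
  [(32,0),(2,0)]⟩⟩ ⟨false,1,⟨1,[(0,1),(26,0),(7,0)]⟩,⟨0,[(7,0)]⟩⟩]⟩) (.I [1,-1,1,0,0,0,0,0,1] (.Q
  [0,0,0,0,0,-1,0,0,0,1,0,-1] (.p false [0,0,0,1] [1] (⟨0,[(18,0)]⟩,⟨0,[(17,0)]⟩) .k 1 (⟨0,[]⟩,⟨0,
  []⟩) .k .k) (.I [0,1,-2,-1,1,0,0,0,-1] (.Q [0,0,-1,-2,1,0,0,0,-1,-1,0,1] (.p true [0,0,0,1] [1]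
  (⟨0,[(20,0)]⟩,⟨0,[(19,0)]⟩) .k 1 (⟨0,[]⟩,⟨0,[]⟩) .k .k) (.R ⟨1,false,false,false,[1,0,0,-1],[0,1],
  [0,1,0,0,0,0,0,0,-1],(⟨0,[(20,0)]⟩,⟨0,[(21,0)]⟩),(⟨0,[(33,0)]⟩,⟨0,[(32,0)]⟩),⟨0,[(2,0)]⟩,.k,.k,
  (.x (-1) ⟨3,[(18,0),(0,0),(11,1),(0,3)]⟩ ⟨0,[(33,0)]⟩),(.x (-1) ⟨3,[(18,0),(0,0),(11,1),(0,3)]⟩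
  ⟨0,[(33,0)]⟩),(.x 0 ⟨1,[(4,0),(4,0),(4,0),(7,1),(9,3),(2,0)]⟩ ⟨3,[(18,0),(0,0),(13,7),(4,1)]⟩),.k,
  ⟨false,1,⟨0,[(1,0)]⟩,⟨0,[(3,0),(33,0)]⟩⟩,⟨true,0,⟨0,[(20,0)]⟩,⟨0,[(14,0),(6,0)]⟩⟩,⟨true,0,⟨0,[(41,
  0)]⟩,⟨0,[]⟩⟩,⟨false,0,⟨0,[(3,0),(16,0),(16,0)]⟩,⟨13,[(0,9),(0,1),(5,1),(1,3),(8,0),(2,3),(0,3),(8,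
  0)]⟩⟩,⟨false,0,⟨0,[(37,0)]⟩,⟨0,[(36,0),(2,0)]⟩⟩,⟨false,0,⟨0,[(3,0),(16,0),(16,1)]⟩,⟨0,[(0,0)]⟩⟩,
  [.o ⟨false,0,⟨0,[(37,0)]⟩,⟨1,[(31,0),(4,1),(2,0)]⟩⟩,.o ⟨false,1,⟨3,[(7,1),(10,0),(0,0),(11,0),(7,
  0)]⟩,⟨1,[(4,0),(17,0),(13,0)]⟩⟩,.o ⟨false,1,⟨1,[(21,1),(9,0),(6,0)]⟩,⟨0,[(14,0),(5,0)]⟩⟩,.a ⟨true,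
  0,⟨0,[(21,0)]⟩,⟨0,[(20,0)]⟩⟩ ⟨false,1,⟨1,[(18,0),(19,0)]⟩,⟨0,[(3,0)]⟩⟩ ⟨true,0,⟨0,[(20,0),(16,
  0)]⟩,⟨1,[(4,0),(16,1),(0,0),(13,0)]⟩⟩]⟩) (.R ⟨1,true,false,false,[1,0,0,-1],[0,1],[0,1,0,0,0,0,0,
  0,-1],(⟨0,[(20,0)]⟩,⟨0,[(21,0)]⟩),(⟨0,[(33,0)]⟩,⟨0,[(32,0)]⟩),⟨0,[(2,0)]⟩,.k,.k,(.x (-1) ⟨3,[(18,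
  0),(0,0),(11,1),(0,3)]⟩ ⟨0,[(33,0)]⟩),(.x (-1) ⟨3,[(18,0),(0,0),(11,1),(0,3)]⟩ ⟨0,[(33,0)]⟩),(.x
  0 ⟨1,[(4,0),(4,0),(4,0),(7,1),(9,3),(2,0)]⟩ ⟨3,[(18,0),(0,0),(13,7),(4,1)]⟩),.k,⟨false,1,⟨0,[(1,
  0)]⟩,⟨3,[(0,0),(2,2),(3,0),(13,0),(9,0)]⟩⟩,⟨true,0,⟨0,[(20,0)]⟩,⟨0,[(14,0),(6,0)]⟩⟩,⟨true,0,⟨0,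
  [(41,0)]⟩,⟨0,[]⟩⟩,⟨false,0,⟨7,[(0,3),(2,1),(15,0),(0,3),(5,0),(0,0),(11,2)]⟩,⟨0,[(1,0),(7,0),(5,
  0),(5,0),(1,0)]⟩⟩,⟨false,0,⟨0,[(37,0)]⟩,⟨0,[(36,0),(2,0)]⟩⟩,⟨true,(-1),⟨0,[(0,0)]⟩,⟨1,[(4,0),(1,
  0),(11,0),(2,1),(0,0),(13,0)]⟩⟩,[]⟩)) (.Q [0,-1,-2,-1,2,0,0,0,-2,-1,0,2] (.p true [0,0,0,1] [1,0,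
  0,-1] (⟨0,[(20,0)]⟩,⟨0,[(19,0)]⟩) .k 2 (⟨0,[(19,0)]⟩,⟨0,[(20,0)]⟩) .k (.r 0 ⟨2,[(0,3),(4,1),(12,
  0),(14,1),(3,0)]⟩ ⟨0,[(17,0)]⟩)) (.Q [0,1,1,0,-1,0,0,0,1,0,0,-1] (.p false [0,0,0,1] [] (⟨0,[(21,
  0)]⟩,⟨0,[(20,0)]⟩) .k 0 (⟨0,[]⟩,⟨0,[]⟩) .k .k) (.K ⟨0,[0,0,0,1],0,(-1),(⟨0,[(22,0)]⟩,⟨0,[(21,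
  0)]⟩),.k,(.x 0 ⟨1,[(15,1),(11,0),(0,0),(4,1)]⟩ ⟨0,[(34,0),(4,0)]⟩),(.x 0 ⟨0,[(34,0)]⟩ ⟨3,[(19,0),
  (0,0),(11,1),(0,3)]⟩),.k,.k,[⟨0,[(22,0)]⟩,⟨0,[(21,0)]⟩,⟨35,[(1,7),(6,3),(9,3),(0,14),(0,4),(1,19),
  (3,7),(8,19)]⟩,⟨0,[(0,0)]⟩]⟩) (.I [0,0,-1,0,1,0,0,1,-1] (.R ⟨1,false,false,true,[1,0,0,-1],[1,0,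
  -1],[0,1,0,0,0,0,0,0,-1],(⟨0,[(22,0)]⟩,⟨0,[(23,0)]⟩),(⟨0,[(31,0)]⟩,⟨0,[(32,0)]⟩),⟨0,[(4,0)]⟩,.k,
  .k,(.x (-1) ⟨3,[(20,0),(0,0),(11,1),(0,3)]⟩ ⟨0,[(35,0)]⟩),.k,(.x 0 ⟨7,[(6,4),(4,4),(12,2),(3,0),
  (1,6),(1,7),(1,7),(1,0)]⟩ ⟨3,[(0,1),(6,3),(13,0),(5,1),(1,1),(11,0)]⟩),.k,⟨false,1,⟨0,[(0,0)]⟩,⟨5,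
  [(3,3),(4,1),(12,0),(8,5),(5,1),(3,0)]⟩⟩,⟨true,0,⟨0,[(22,0),(2,0)]⟩,⟨8,[(6,1),(4,1),(7,1),(3,8),
  (4,0),(1,7),(5,0)]⟩⟩,⟨true,0,⟨0,[(43,0)]⟩,⟨0,[]⟩⟩,⟨false,0,⟨0,[(5,0),(16,0),(1,0)]⟩,⟨3,[(2,1),(8,
  0),(6,0),(0,0)]⟩⟩,⟨false,0,⟨0,[(39,0)]⟩,⟨0,[(38,0),(2,0)]⟩⟩,⟨false,0,⟨7,[(3,3),(5,1),(11,1),(0,7),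
  (1,7),(8,0),(7,0)]⟩,⟨0,[(1,0),(11,0)]⟩⟩,[.o ⟨false,0,⟨0,[(24,0)]⟩,⟨7,[(19,3),(0,0),(0,0),(11,1),
  (7,3)]⟩⟩,.o ⟨false,1,⟨1,[(27,1),(5,0),(7,0)]⟩,⟨0,[(14,0)]⟩⟩,.o ⟨false,1,⟨1,[(23,1),(9,0),(6,0)]⟩,
  ⟨0,[(16,0),(5,0)]⟩⟩,.a ⟨true,0,⟨0,[(23,0)]⟩,⟨0,[(22,0)]⟩⟩ ⟨false,1,⟨1,[(20,0),(19,0)]⟩,⟨0,[(5,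
  0)]⟩⟩ ⟨true,0,⟨0,[(22,0),(1,0)]⟩,⟨4,[(6,0),(4,0),(7,0),(3,4),(2,0)]⟩⟩]⟩) (.R ⟨1,false,false,true,
  [1,0,0,-1],[0,0,1],[1,0,1],(⟨0,[(22,0)]⟩,⟨0,[(23,0)]⟩),(⟨0,[(32,0)]⟩,⟨0,[(31,0)]⟩),⟨0,[(4,0)]⟩,.k,
  .k,(.x (-1) ⟨3,[(20,0),(0,0),(11,1),(0,3)]⟩ ⟨0,[(35,0)]⟩),.k,(.r (-1) ⟨1,[(8,0),(11,0),(9,1)]⟩ ⟨9,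
  [(3,3),(5,1),(1,1),(3,7),(5,2),(7,1),(3,0)]⟩),.k,⟨true,0,⟨3,[(3,1),(13,1),(2,0),(9,1),(10,0)]⟩,⟨0,
  [(15,0)]⟩⟩,⟨false,0,⟨8,[(6,1),(4,1),(7,1),(2,8),(5,0),(1,7),(5,0)]⟩,⟨0,[(23,0),(1,0),(14,0)]⟩⟩,
  ⟨false,0,⟨0,[(5,0)]⟩,⟨1,[(20,0),(19,0)]⟩⟩,⟨true,(-1),⟨0,[(3,0),(9,0),(8,0),(13,0)]⟩,⟨0,[(1,0),(22,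
  0)]⟩⟩,⟨false,0,⟨7,[(3,3),(5,1),(11,1),(11,0),(7,0)]⟩,⟨1,[(8,0),(11,0)]⟩⟩,⟨false,(-1),⟨0,[(0,0),
  (10,0),(3,0),(6,0)]⟩,⟨7,[(2,3),(5,0),(8,1),(9,5),(1,1),(3,1),(7,4)]⟩⟩,[.o ⟨false,0,⟨0,[(26,0)]⟩,
  ⟨0,[(24,0),(16,0)]⟩⟩,.o ⟨false,0,⟨0,[(14,0)]⟩,⟨1,[(27,1),(5,0),(7,0)]⟩⟩,.o ⟨false,1,⟨1,[(23,1),(9,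
  0),(6,0)]⟩,⟨0,[(16,0),(5,0)]⟩⟩,.a ⟨true,0,⟨0,[(23,0)]⟩,⟨0,[(22,0)]⟩⟩ ⟨true,0,⟨0,[]⟩,⟨0,[(43,0)]⟩⟩
  ⟨false,0,⟨4,[(6,0),(4,0),(7,0),(2,4),(3,0)]⟩,⟨0,[(23,0),(0,0),(16,0)]⟩⟩]⟩))) (.K ⟨0,[0,0,0,1],0,
  (-1),(⟨0,[(21,0)]⟩,⟨0,[(20,0)]⟩),.k,(.x 0 ⟨1,[(14,1),(11,0),(0,0),(4,1)]⟩ ⟨0,[(33,0),(4,0)]⟩),(.x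
  0 ⟨0,[(33,0)]⟩ ⟨3,[(18,0),(0,0),(11,1),(0,3)]⟩),.k,.k,[⟨0,[(21,0)]⟩,⟨0,[(20,0)]⟩,⟨7,[(18,4),(0,0),
  (1,7),(12,3),(3,1)]⟩,⟨3,[(0,1),(3,0),(17,0),(13,0)]⟩]⟩))) (.I [0,1,-2,-1,1,0,0,0,-1] (.R ⟨0,false,
  false,false,[1,0,0,-1],[0,1],[0,1,0,0,0,0,0,0,-1],(⟨0,[(19,0)]⟩,⟨0,[(20,0)]⟩),(⟨0,[(32,0)]⟩,⟨0,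
  [(31,0)]⟩),⟨0,[(1,0)]⟩,.k,.k,(.x (-1) ⟨3,[(17,0),(0,0),(11,1),(0,3)]⟩ ⟨0,[(32,0)]⟩),(.x (-1) ⟨3,
  [(17,0),(0,0),(11,1),(0,3)]⟩ ⟨0,[(32,0)]⟩),.k,.k,⟨false,1,⟨0,[(0,0)]⟩,⟨0,[(2,0),(33,0)]⟩⟩,⟨true,0,
  ⟨0,[(19,0)]⟩,⟨0,[(13,0),(6,0)]⟩⟩,⟨true,0,⟨0,[(40,0)]⟩,⟨0,[]⟩⟩,⟨false,0,⟨0,[(2,0),(16,0),(16,0)]⟩,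
  ⟨0,[(0,0),(7,0),(5,0),(5,0),(1,0)]⟩⟩,⟨false,0,⟨0,[]⟩,⟨0,[]⟩⟩,⟨false,0,⟨0,[]⟩,⟨0,[]⟩⟩,[.o ⟨false,0,
  ⟨0,[(36,0)]⟩,⟨1,[(30,0),(4,1),(2,0)]⟩⟩,.o ⟨false,1,⟨3,[(6,1),(10,0),(0,0),(11,0),(7,0)]⟩,⟨1,[(3,
  0),(17,0),(13,0)]⟩⟩,.o ⟨false,1,⟨1,[(20,1),(9,0),(6,0)]⟩,⟨0,[(13,0),(5,0)]⟩⟩,.a ⟨true,0,⟨0,[(20,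
  0)]⟩,⟨0,[(19,0)]⟩⟩ ⟨false,1,⟨1,[(17,0),(19,0)]⟩,⟨0,[(2,0)]⟩⟩ ⟨true,0,⟨0,[(19,0),(16,0)]⟩,⟨1,[(3,
  0),(16,1),(0,0),(13,0)]⟩⟩]⟩) (.Q [0,1,1,0,-1,0,0,0,1,0,0,-1] (.p false [0,0,0,1] [] (⟨0,[(20,0)]⟩,
  ⟨0,[(19,0)]⟩) .k 0 (⟨0,[]⟩,⟨0,[]⟩) .k .k) (.K ⟨0,[0,0,0,1],0,(-1),(⟨0,[(21,0)]⟩,⟨0,[(20,0)]⟩),.k,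
  (.x 0 ⟨1,[(14,1),(11,0),(0,0),(4,1)]⟩ ⟨0,[(33,0),(4,0)]⟩),(.x 0 ⟨0,[(33,0)]⟩ ⟨3,[(18,0),(0,0),(11,
  1),(0,3)]⟩),.k,.k,[⟨0,[(21,0)]⟩,⟨0,[(20,0)]⟩,⟨7,[(18,4),(0,0),(1,7),(12,3),(3,1)]⟩,⟨0,[(0,0)]⟩]⟩)
  (.R ⟨0,false,false,true,[1,0,0,-1],[0,1],[1,0,1],(⟨0,[(20,0)]⟩,⟨0,[(21,0)]⟩),(⟨0,[(33,0)]⟩,⟨0,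
  [(32,0)]⟩),⟨0,[(2,0)]⟩,.k,.k,(.x (-1) ⟨3,[(18,0),(0,0),(11,1),(0,3)]⟩ ⟨0,[(33,0)]⟩),(.x (-1) ⟨3,
  [(18,0),(0,0),(11,1),(0,3)]⟩ ⟨0,[(33,0)]⟩),.k,.k,⟨false,1,⟨1,[(6,0),(32,0)]⟩,⟨1,[(7,0),(6,0),(19,
  0),(6,0)]⟩⟩,⟨true,0,⟨0,[(20,0)]⟩,⟨0,[(14,0),(6,0)]⟩⟩,⟨false,0,⟨0,[(3,0)]⟩,⟨1,[(18,0),(19,0)]⟩⟩,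
  ⟨true,(-1),⟨0,[(1,0),(18,0),(13,0)]⟩,⟨3,[(0,1),(3,1),(1,0),(11,0),(2,1),(0,1)]⟩⟩,⟨false,0,⟨0,[]⟩,
  ⟨0,[]⟩⟩,⟨false,0,⟨0,[]⟩,⟨0,[]⟩⟩,[.o ⟨false,0,⟨1,[(7,0),(6,0),(19,0),(6,0)]⟩,⟨1,[(6,0),(7,1),(24,
  0)]⟩⟩,.o ⟨false,0,⟨0,[(37,0)]⟩,⟨1,[(31,0),(4,1),(2,0)]⟩⟩,.o ⟨false,1,⟨1,[(21,1),(9,0),(6,0)]⟩,⟨0,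
  [(14,0),(5,0)]⟩⟩,.a ⟨true,0,⟨0,[(21,0)]⟩,⟨0,[(20,0)]⟩⟩ ⟨true,0,⟨0,[]⟩,⟨0,[(41,0)]⟩⟩ ⟨false,0,⟨0,
  [(20,0),(16,0)]⟩,⟨1,[(6,0),(7,1),(6,1),(17,0)]⟩⟩]⟩)))) (.I [0,0,-1,-1,0,0,0,1,-1] (.Q [0,0,0,0,0,
  -1,0,0,0,1,0,-1] (.p false [0,0,0,1] [1] (⟨0,[(19,0)]⟩,⟨0,[(18,0)]⟩) .k 1 (⟨0,[]⟩,⟨0,[]⟩) .k .k)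
  (.R ⟨1,false,false,true,[1,0,0,-1],[1,0,-1],[0,1,0,0,0,0,0,0,-1],(⟨0,[(19,0)]⟩,⟨0,[(20,0)]⟩),(⟨0,
  [(28,0)]⟩,⟨0,[(29,0)]⟩),⟨0,[(0,0)]⟩,.k,.k,(.x (-1) ⟨3,[(17,0),(0,0),(11,1),(0,3)]⟩ ⟨0,[(32,0)]⟩),
  .k,(.r 0 ⟨0,[(1,0)]⟩ ⟨3,[(6,1),(11,1),(5,3),(0,3),(4,0),(7,0)]⟩),.k,⟨false,0,⟨6,[(1,5),(0,0),(3,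
  1),(1,1),(12,0),(0,0),(10,0)]⟩,⟨3,[(17,0),(0,2),(8,3)]⟩⟩,⟨true,0,⟨0,[(19,0),(2,0)]⟩,⟨8,[(3,1),(4,
  1),(7,1),(3,8),(4,0),(1,7),(5,0)]⟩⟩,⟨true,0,⟨0,[(40,0)]⟩,⟨0,[]⟩⟩,⟨false,1,⟨1,[(18,0),(0,1),(1,1),
  (3,0),(0,0),(11,0)]⟩,⟨0,[(1,0),(6,0),(11,0),(6,0)]⟩⟩,⟨false,0,⟨0,[(36,0)]⟩,⟨0,[(35,0),(2,0)]⟩⟩,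
  ⟨false,1,⟨3,[(6,1),(11,1),(0,3),(1,3),(3,1),(0,1),(3,0),(7,0)]⟩,⟨0,[(1,0),(6,0),(5,0),(5,0)]⟩⟩,
  [.o ⟨false,0,⟨0,[(21,0)]⟩,⟨7,[(16,3),(0,0),(0,0),(11,1),(7,3)]⟩⟩,.o ⟨false,1,⟨1,[(24,1),(5,0),(7,
  0)]⟩,⟨0,[(11,0)]⟩⟩,.o ⟨false,1,⟨1,[(20,1),(9,0),(6,0)]⟩,⟨0,[(13,0),(5,0)]⟩⟩,.a ⟨true,0,⟨0,[(20,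
  0)]⟩,⟨0,[(19,0)]⟩⟩ ⟨false,0,⟨3,[(1,2),(0,0),(3,0),(1,0),(12,0),(5,2)]⟩,⟨1,[(18,0),(6,0),(0,0),(11,
  0)]⟩⟩ ⟨true,0,⟨0,[(19,0),(1,0)]⟩,⟨4,[(3,0),(4,0),(7,0),(3,4),(2,0)]⟩⟩]⟩) (.R ⟨0,false,false,true,
  [1,0,0,-1],[1,0,-1],[0,1,0,-1,0,0,0,0,-1],(⟨0,[(19,0)]⟩,⟨0,[(20,0)]⟩),(⟨0,[(28,0)]⟩,⟨0,[(29,0)]⟩),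
  ⟨0,[(0,0)]⟩,.k,.k,(.x (-1) ⟨3,[(17,0),(0,0),(11,1),(0,3)]⟩ ⟨0,[(32,0)]⟩),.k,.k,.k,⟨false,0,⟨0,[(1,
  0)]⟩,⟨23,[(6,11),(10,2),(0,14),(5,3),(0,3),(1,19),(2,5),(2,3)]⟩⟩,⟨true,0,⟨0,[(19,0),(2,0)]⟩,⟨8,
  [(3,1),(4,1),(7,1),(3,8),(4,0),(1,7),(5,0)]⟩⟩,⟨true,0,⟨0,[(35,0)]⟩,⟨0,[(36,0)]⟩⟩,⟨false,1,⟨1,[(18,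
  0),(0,1),(1,1),(3,0),(0,0),(11,0)]⟩,⟨0,[(1,0),(6,0),(11,0),(6,0)]⟩⟩,⟨false,0,⟨0,[]⟩,⟨0,[]⟩⟩,
  ⟨false,0,⟨0,[]⟩,⟨0,[]⟩⟩,[.o ⟨false,0,⟨0,[(21,0)]⟩,⟨7,[(16,3),(0,0),(0,0),(11,1),(7,3)]⟩⟩,.o
  ⟨false,1,⟨1,[(24,1),(5,0),(7,0)]⟩,⟨0,[(11,0)]⟩⟩,.o ⟨false,1,⟨1,[(20,1),(9,0),(6,0)]⟩,⟨0,[(13,0),
  (5,0)]⟩⟩,.a ⟨true,0,⟨0,[(20,0)]⟩,⟨0,[(19,0)]⟩⟩ ⟨false,0,⟨0,[(1,0),(25,0)]⟩,⟨3,[(6,1),(11,1),(6,1),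
  (0,1),(3,0),(7,0)]⟩⟩ ⟨true,0,⟨0,[(19,0),(1,0)]⟩,⟨4,[(3,0),(4,0),(7,0),(3,4),(2,0)]⟩⟩]⟩)) (.Q [0,1,
  1,0,0,0,0,0,1,0,0,-1] (.p false [0,0,0,1] [] (⟨0,[(19,0)]⟩,⟨0,[(18,0)]⟩) .k 0 (⟨0,[]⟩,⟨0,[]⟩) .k
  .k) (.K ⟨0,[0,0,0,1],0,0,(⟨0,[(20,0)]⟩,⟨0,[(19,0)]⟩),.k,(.r (-1) ⟨1,[(5,0),(12,0)]⟩ ⟨1,[(2,1),(3,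
  0),(6,0),(11,0),(0,0),(7,0)]⟩),(.x 0 ⟨0,[(32,0)]⟩ ⟨3,[(17,0),(0,0),(11,1),(0,3)]⟩),.k,.k,[⟨0,[(20,
  0)]⟩,⟨0,[(19,0)]⟩,⟨0,[(2,0),(17,0)]⟩,⟨0,[(0,0)]⟩]⟩) (.Q [0,0,0,0,0,1,0,0,0,-1,0,1] (.p true [0,0,
  0,1] [1] (⟨0,[(20,0)]⟩,⟨0,[(19,0)]⟩) .k 1 (⟨0,[]⟩,⟨0,[]⟩) .k .k) (.R ⟨0,false,false,true,[1,0,0,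
  -1],[0,1],[1,0,1],(⟨0,[(20,0)]⟩,⟨0,[(21,0)]⟩),(⟨0,[(33,0)]⟩,⟨0,[(32,0)]⟩),⟨0,[(0,0)]⟩,.k,.k,(.x
  (-1) ⟨3,[(18,0),(0,0),(11,1),(0,3)]⟩ ⟨0,[(33,0)]⟩),(.x (-1) ⟨3,[(18,0),(0,0),(11,1),(0,3)]⟩ ⟨0,
  [(33,0)]⟩),.k,.k,⟨false,1,⟨1,[(6,0),(32,0)]⟩,⟨1,[(7,0),(6,0),(19,0),(6,0)]⟩⟩,⟨true,0,⟨0,[(20,0)]⟩,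
  ⟨0,[(14,0),(6,0)]⟩⟩,⟨false,1,⟨1,[(19,0),(6,0),(0,0),(11,0)]⟩,⟨4,[(1,2),(1,1),(0,0),(4,0),(10,2),
  (1,1)]⟩⟩,⟨true,0,⟨0,[(2,0),(10,0),(6,0)]⟩,⟨1,[(1,1),(2,0),(17,0),(13,0)]⟩⟩,⟨false,0,⟨0,[]⟩,⟨0,
  []⟩⟩,⟨false,0,⟨0,[]⟩,⟨0,[]⟩⟩,[.o ⟨false,0,⟨1,[(7,0),(6,0),(19,0),(6,0)]⟩,⟨1,[(6,0),(7,1),(24,
  0)]⟩⟩,.o ⟨false,0,⟨0,[(37,0)]⟩,⟨1,[(31,0),(4,1),(2,0)]⟩⟩,.o ⟨false,1,⟨1,[(21,1),(9,0),(6,0)]⟩,⟨0,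
  [(14,0),(5,0)]⟩⟩,.a ⟨true,0,⟨0,[(21,0)]⟩,⟨0,[(20,0)]⟩⟩ ⟨true,0,⟨0,[]⟩,⟨0,[(41,0)]⟩⟩ ⟨false,0,⟨0,
  [(20,0),(16,0)]⟩,⟨1,[(6,0),(7,1),(6,1),(17,0)]⟩⟩]⟩) (.Q [0,1,1,2,0,0,-1,-1,1,1,1,-1] (.p true [1,
  -1,1] [0,0,0,1] (⟨0,[(30,0),(1,0)]⟩,⟨0,[(5,0)]⟩) .k 2 (⟨0,[(21,0)]⟩,⟨0,[(20,0)]⟩) .k (.r 0 ⟨1,[(1,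
  0),(1,0),(13,0),(2,0),(2,1)]⟩ ⟨3,[(2,3),(3,1),(11,0),(0,0)]⟩)) (.R ⟨1,false,false,true,[1,0,0,-1],
  [0,1,-1],[1,1,1,1,0,0,0,-1],(⟨0,[(21,0)]⟩,⟨0,[(22,0)]⟩),(⟨0,[(6,0)]⟩,⟨0,[(31,0),(1,0)]⟩),⟨0,[(1,
  0)]⟩,.k,.k,(.x (-1) ⟨3,[(19,0),(0,0),(11,1),(0,3)]⟩ ⟨0,[(34,0)]⟩),(.x 0 ⟨7,[(5,4),(4,4),(12,2),(3,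
  0),(1,6),(1,7),(1,7),(1,0)]⟩ ⟨3,[(6,3),(12,0),(0,0),(7,3),(10,1)]⟩),(.r (-1) ⟨7,[(2,3),(1,1),(0,
  3),(1,4),(1,1),(9,0),(1,3),(6,3)]⟩ ⟨2,[(0,0),(2,1),(4,0),(6,1),(6,0),(4,0)]⟩),.k,⟨true,0,⟨0,[]⟩,
  ⟨1,[(27,0),(0,0)]⟩⟩,⟨false,1,⟨0,[(21,0),(6,0),(10,0)]⟩,⟨9,[(2,6),(0,6),(1,7),(4,0),(11,2),(0,1),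
  (3,2),(7,2)]⟩⟩,⟨false,0,⟨0,[(3,0)]⟩,⟨13,[(2,7),(2,5),(1,1),(1,3),(9,2),(1,7),(2,1),(3,3),(11,
  4)]⟩⟩,⟨false,1,⟨11,[(0,7),(15,3),(2,2),(0,4),(0,3),(6,3),(11,3)]⟩,⟨0,[(2,0),(2,0)]⟩⟩,⟨false,0,⟨0,
  [(3,0),(34,0)]⟩,⟨27,[(2,17),(2,17),(1,14),(1,1),(2,5),(6,4),(1,17),(6,23),(11,5)]⟩⟩,⟨true,0,⟨0,
  [(0,0)]⟩,⟨0,[(2,0),(2,0),(31,0)]⟩⟩,[.o ⟨false,0,⟨3,[(0,1),(1,0),(1,0),(17,0),(0,1)]⟩,⟨1,[(12,1),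
  (19,0),(7,0)]⟩⟩,.o ⟨false,1,⟨3,[(0,1),(1,1),(16,0),(0,0),(5,1),(5,0),(7,0)]⟩,⟨0,[(5,0)]⟩⟩,.o
  ⟨false,1,⟨1,[(22,1),(9,0),(6,0)]⟩,⟨0,[(15,0),(5,0)]⟩⟩,.a ⟨true,0,⟨0,[(22,0)]⟩,⟨0,[(21,0)]⟩⟩
  ⟨false,0,⟨3,[(3,0),(0,0),(3,0),(1,0),(12,0),(5,2)]⟩,⟨19,[(7,1),(1,3),(2,11),(6,0),(0,0),(7,11),
  (11,11)]⟩⟩ ⟨true,0,⟨3,[(0,1),(1,0),(1,0),(16,2),(1,0),(2,0)]⟩,⟨0,[(5,0),(16,0)]⟩⟩]⟩) (.R ⟨1,false,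
  false,false,[1,0,0,-1],[1,0,-1],[1,0,1,0,0,0,0,-1],(⟨0,[(21,0)]⟩,⟨0,[(22,0)]⟩),(⟨0,[(30,0)]⟩,⟨0,
  [(31,0)]⟩),⟨0,[(1,0)]⟩,.k,.k,(.x (-1) ⟨3,[(19,0),(0,0),(11,1),(0,3)]⟩ ⟨0,[(34,0)]⟩),.k,(.x 0 ⟨7,
  [(5,4),(4,4),(12,2),(3,0),(1,6),(1,7),(1,7),(1,0)]⟩ ⟨3,[(6,3),(12,0),(0,0),(7,3),(10,1)]⟩),.k,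
  ⟨false,0,⟨0,[]⟩,⟨3,[(19,0),(0,0),(18,1)]⟩⟩,⟨true,0,⟨0,[(21,0),(2,0)]⟩,⟨3,[(0,0),(1,0),(0,1),(14,
  0),(3,1),(4,0),(1,0),(5,0)]⟩⟩,⟨false,1,⟨7,[(3,3),(12,3),(2,0),(0,2),(6,1),(0,1),(11,3)]⟩,⟨0,[(0,
  0),(7,0),(12,0),(2,0),(10,0)]⟩⟩,⟨false,1,⟨2,[(3,0),(12,0),(3,0),(0,2),(1,0),(0,1),(15,1)]⟩,⟨0,[(2,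
  0),(22,0)]⟩⟩,⟨true,0,⟨0,[(3,0)]⟩,⟨3,[(0,1),(1,0),(1,0),(9,1),(6,2),(2,0),(3,0),(6,1)]⟩⟩,⟨false,1,
  ⟨7,[(3,3),(4,1),(11,1),(0,7),(1,3),(0,3),(7,0),(7,4)]⟩,⟨2,[(0,0),(1,0),(1,0),(13,0),(3,0),(14,
  0)]⟩⟩,[.o ⟨false,1,⟨1,[(26,1),(5,0),(7,0)]⟩,⟨0,[(13,0)]⟩⟩,.o ⟨false,1,⟨0,[(23,0),(16,0)]⟩,⟨0,[(25,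
  0)]⟩⟩,.o ⟨false,1,⟨1,[(22,1),(9,0),(6,0)]⟩,⟨0,[(15,0),(5,0)]⟩⟩,.a ⟨true,0,⟨0,[(22,0)]⟩,⟨0,[(21,
  0)]⟩⟩ ⟨true,0,⟨0,[(29,0)]⟩,⟨0,[(14,0)]⟩⟩ ⟨false,1,⟨0,[(21,0),(1,0),(16,0)]⟩,⟨4,[(5,0),(4,0),(7,0),
  (3,4),(2,0)]⟩⟩]⟩))))))) (.Q [0,0,2,0,-1,0,1,0,0,0,-1] (.p false [0,0,1] [] (⟨0,[(25,0)]⟩,⟨0,[(24,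
  0)]⟩) .k 0 (⟨0,[]⟩,⟨0,[]⟩) .k .k) (.R ⟨1,true,false,false,[0,0,1],[0,1],[0,1,0,0,0,0,0,1],(⟨0,
  [(26,0)]⟩,⟨0,[(25,0)]⟩),(⟨0,[(29,0)]⟩,⟨0,[(28,0)]⟩),⟨0,[(1,0)]⟩,.k,.k,.k,.k,(.r (-2) ⟨19,[(2,13),
  (1,7),(2,3),(6,6),(0,6),(7,3),(11,3)]⟩ ⟨0,[(0,0),(2,0),(14,0)]⟩),.k,⟨false,1,⟨15,[(2,3),(1,7),(9,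
  0),(0,0),(14,3),(3,1)]⟩,⟨1,[(0,0),(2,0),(14,0),(5,0),(10,0)]⟩⟩,⟨true,1,⟨0,[(23,0),(10,0)]⟩,⟨0,[(0,
  0)]⟩⟩,⟨true,0,⟨0,[(37,0)]⟩,⟨0,[]⟩⟩,⟨false,1,⟨3,[(3,1),(17,3),(5,0),(7,2)]⟩,⟨0,[(7,0)]⟩⟩,⟨false,0,
  ⟨0,[(33,0)]⟩,⟨0,[(32,0),(2,0)]⟩⟩,⟨true,0,⟨0,[(3,0),(14,0)]⟩,⟨0,[(7,0),(24,0)]⟩⟩,[]⟩) (.I [0,1,2,2,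
  -1,0,0,-1] (.I [1,0,-2,-2,1,0,0,1] (.I [0,0,-2,0,1,2,-1] (.R ⟨1,true,false,true,[0,0,1],[0,1],[1,
  0,0,-1,0,0,0,1],(⟨0,[(29,0)]⟩,⟨0,[(28,0)]⟩),(⟨0,[(32,0)]⟩,⟨0,[(31,0)]⟩),⟨0,[(4,0)]⟩,.k,.k,.k,.k,
  (.x 0 ⟨0,[(4,0),(8,0),(11,0),(5,0)]⟩ ⟨0,[(0,0)]⟩),.k,⟨true,1,⟨0,[(1,0),(32,0)]⟩,⟨0,[(2,0)]⟩⟩,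
  ⟨false,1,⟨0,[(3,0)]⟩,⟨0,[(25,0)]⟩⟩,⟨false,1,⟨0,[(35,0),(2,0)]⟩,⟨0,[(36,0)]⟩⟩,⟨true,0,⟨1,[(2,0),(0,
  0),(20,0)]⟩,⟨0,[(10,0)]⟩⟩,⟨true,0,⟨0,[]⟩,⟨15,[(2,1),(9,1),(4,0),(0,0),(14,3),(1,3)]⟩⟩,⟨false,0,⟨0,
  [(6,0),(14,0)]⟩,⟨0,[(10,0),(24,0),(2,0)]⟩⟩,[]⟩) (.Q [0,0,1,2,-1,0,0,0,1,1,0,-1] (.p false [0,0,0,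
  1] [1] (⟨0,[(20,0)]⟩,⟨0,[(19,0)]⟩) .k 1 (⟨0,[]⟩,⟨0,[]⟩) .k .k) (.Q [0,1,1,0,-1,0,0,0,1,0,0,-1]
  (.p false [0,0,0,1] [] (⟨0,[(21,0)]⟩,⟨0,[(20,0)]⟩) .k 0 (⟨0,[]⟩,⟨0,[]⟩) .k .k) (.K ⟨0,[0,0,0,1],0,
  (-1),(⟨0,[(22,0)]⟩,⟨0,[(21,0)]⟩),.k,(.x 0 ⟨11,[(2,3),(8,3),(7,0),(0,0),(6,5),(0,9),(3,1)]⟩ ⟨0,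
  [(34,0),(4,0)]⟩),(.x 0 ⟨0,[(34,0)]⟩ ⟨3,[(19,0),(0,0),(11,1),(0,3)]⟩),.k,.k,[⟨0,[(22,0)]⟩,⟨0,[(21,
  0)]⟩,⟨7,[(19,4),(0,0),(1,7),(12,3),(3,1)]⟩,⟨0,[(0,0)]⟩]⟩) (.R ⟨1,true,false,true,[1,-1],[0,0,0,1],
  [1,0,-1,-2],(⟨0,[(33,0)]⟩,⟨0,[(34,0)]⟩),(⟨0,[(22,0)]⟩,⟨0,[(21,0)]⟩),⟨1,[(2,0),(2,0),(5,0),(21,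
  0)]⟩,.k,.k,(.r (-1) ⟨0,[(0,0),(0,0),(0,0),(0,1),(6,0),(0,0),(4,0),(6,1),(10,2)]⟩ ⟨5,[(4,3),(12,3),
  (1,0),(0,0),(7,3),(3,1)]⟩),(.x (-1) ⟨3,[(19,0),(0,0),(11,1),(0,3)]⟩ ⟨0,[(34,0)]⟩),(.r (-2) ⟨3,[(7,
  3),(11,2),(0,0)]⟩ ⟨0,[(1,0),(13,0),(6,0)]⟩),.k,⟨false,2,⟨1,[(7,1),(11,0),(20,0)]⟩,⟨2,[(1,2),(8,0),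
  (1,0),(2,0),(6,2),(0,1),(11,0)]⟩⟩,⟨true,0,⟨0,[(21,0)]⟩,⟨0,[(15,0),(6,0)]⟩⟩,⟨false,1,⟨0,[(37,0),(2,
  0)]⟩,⟨0,[(38,0)]⟩⟩,⟨true,(-1),⟨0,[(1,0),(35,0)]⟩,⟨0,[(0,0),(11,0),(10,0)]⟩⟩,⟨true,0,⟨0,[]⟩,⟨15,
  [(4,1),(9,1),(4,0),(0,0),(14,3),(1,3)]⟩⟩,⟨false,(-1),⟨0,[(1,0)]⟩,⟨1,[(0,1),(6,0),(7,1),(21,1),(2,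
  0)]⟩⟩,[]⟩)) (.Q [0,1,-1,0,0,0,0,0,-1,0,0,1] (.p true [0,0,0,1] [] (⟨0,[(21,0)]⟩,⟨0,[(20,0)]⟩) .k
  0 (⟨0,[]⟩,⟨0,[]⟩) .k .k) (.Q [0,1,1,0,0,0,0,0,1,0,0,-1] (.p false [0,0,0,1] [] (⟨0,[(22,0)]⟩,⟨0,
  [(21,0)]⟩) .k 0 (⟨0,[]⟩,⟨0,[]⟩) .k .k) (.K ⟨0,[0,0,0,1],0,0,(⟨0,[(23,0)]⟩,⟨0,[(22,0)]⟩),.k,(.r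
  (-1) ⟨1,[(8,0),(12,0)]⟩ ⟨2,[(1,0),(3,0),(5,0),(8,0),(1,0),(2,0),(11,0)]⟩),(.x 0 ⟨0,[(35,0)]⟩ ⟨3,
  [(20,0),(0,0),(11,1),(0,3)]⟩),.k,.k,[⟨0,[(23,0)]⟩,⟨0,[(22,0)]⟩,⟨0,[(1,0)]⟩,⟨0,[(0,0)]⟩]⟩) (.R ⟨1,
  false,false,true,[1,0,-1],[0,0,0,1],[],(⟨0,[(31,0)]⟩,⟨0,[(32,0)]⟩),(⟨0,[(23,0)]⟩,⟨0,[(22,0)]⟩),⟨0,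
  [(12,0)]⟩,.k,.k,.k,.k,(.r 0 ⟨22,[(0,20),(4,0),(5,8),(1,11),(3,21),(2,0),(1,20),(1,20),(11,3)]⟩ ⟨9,
  [(5,0),(3,3),(5,2),(3,3),(0,0),(0,5),(7,7),(3,3)]⟩),.k,⟨true,0,⟨0,[(0,0),(15,0),(5,0)]⟩,⟨1,[(3,0),
  (17,0),(3,0),(5,0),(3,1),(0,0)]⟩⟩,⟨false,0,⟨2,[(11,1),(5,1),(4,2),(5,0),(7,0)]⟩,⟨2,[(6,1),(16,2),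
  (1,0),(7,0)]⟩⟩,⟨false,1,⟨31,[(10,7),(7,7),(0,3),(0,0),(0,0),(7,15),(3,5),(7,15)]⟩,⟨0,[(30,0)]⟩⟩,
  ⟨true,0,⟨1,[(5,0),(7,1),(1,0),(5,0),(0,1)]⟩,⟨0,[(0,0),(23,0)]⟩⟩,⟨false,1,⟨15,[(9,5),(0,3),(7,7),
  (1,0),(0,0),(7,7),(3,6),(7,2)]⟩,⟨0,[(17,0)]⟩⟩,⟨false,0,⟨1,[(3,0),(7,1),(9,0),(0,1),(2,0),(5,0),(3,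
  1),(0,0)]⟩,⟨10,[(0,6),(1,3),(3,0),(10,2),(6,6),(2,0),(1,1),(11,5)]⟩⟩,[.a ⟨true,0,⟨1,[(3,0),(17,0),
  (0,1),(2,0),(5,0),(3,1),(0,0)]⟩,⟨0,[(0,0)]⟩⟩ ⟨false,1,⟨3,[(20,0),(0,0),(18,1)]⟩,⟨0,[]⟩⟩ ⟨true,0,
  ⟨3,[(5,1),(7,2),(3,0),(3,1),(0,3),(5,0),(7,0)]⟩,⟨0,[(0,0),(24,0)]⟩⟩,.o ⟨false,1,⟨1,[(21,0),(0,1),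
  (5,0),(0,0),(3,0)]⟩,⟨3,[(0,2),(0,0),(9,1),(1,1),(10,3)]⟩⟩,.o ⟨false,1,⟨11,[(6,3),(13,0),(0,0),(7,
  7),(3,5)]⟩,⟨2,[(11,1),(5,1),(10,0),(7,0)]⟩⟩,.o ⟨false,0,⟨0,[(25,0)]⟩,⟨0,[(28,0),(11,0)]⟩⟩]⟩)) (.Q
  [0,0,-1,-1,1,0,-1,-1,-1,-1,1,1] (.p true [0,0,1] [1,0,0,-1] (⟨0,[(31,0)]⟩,⟨0,[(30,0)]⟩) .k 2 (⟨0,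
  [(21,0)]⟩,⟨0,[(22,0)]⟩) .k (.x 0 ⟨0,[(27,0),(3,0)]⟩ ⟨2,[(5,1),(18,0),(5,2),(1,0)]⟩)) (.Q [0,0,0,0,
  0,1,0,0,0,-1,0,1] (.p true [0,0,0,1] [1] (⟨0,[(23,0)]⟩,⟨0,[(22,0)]⟩) .k 1 (⟨0,[]⟩,⟨0,[]⟩) .k .k)
  (.I [1,0,-1,-1,1,0,0,1,-1] (.I [0,0,0,1,0,0,0,-1,1] (.R ⟨0,false,false,true,[1,0,0,-1],[1,0,-1],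
  [1,1,0,-1,0,0,0,0,-1],(⟨0,[(25,0)]⟩,⟨0,[(26,0)]⟩),(⟨0,[(34,0)]⟩,⟨0,[(35,0)]⟩),⟨0,[(2,0)]⟩,.k,.k,
  (.x (-1) ⟨3,[(23,0),(0,0),(11,1),(0,3)]⟩ ⟨0,[(38,0)]⟩),.k,.k,.k,⟨false,1,⟨0,[(1,0)]⟩,⟨0,[(0,0)]⟩⟩,
  ⟨true,0,⟨0,[(25,0),(2,0)]⟩,⟨8,[(0,0),(1,2),(2,0),(0,0),(7,1),(0,0),(4,0),(1,2),(3,4),(6,5),(5,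
  0)]⟩⟩,⟨true,0,⟨0,[(41,0)]⟩,⟨0,[(42,0)]⟩⟩,⟨false,0,⟨0,[(4,0),(25,0)]⟩,⟨3,[(5,1),(8,1),(6,1),(1,0),
  (2,1),(16,0)]⟩⟩,⟨false,0,⟨0,[]⟩,⟨0,[]⟩⟩,⟨false,0,⟨0,[]⟩,⟨0,[]⟩⟩,[.o ⟨false,0,⟨0,[(27,0)]⟩,⟨7,[(22,
  3),(0,0),(0,0),(11,1),(7,3)]⟩⟩,.o ⟨false,1,⟨1,[(30,1),(5,0),(7,0)]⟩,⟨0,[(17,0)]⟩⟩,.o ⟨false,1,⟨1,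
  [(26,1),(9,0),(6,0)]⟩,⟨0,[(19,0),(5,0)]⟩⟩,.a ⟨true,0,⟨0,[(26,0)]⟩,⟨0,[(25,0)]⟩⟩ ⟨false,1,⟨1,[(11,
  0),(11,0)]⟩,⟨17,[(0,3),(3,11),(3,0),(3,3),(1,3),(3,0),(5,0),(1,11),(1,3)]⟩⟩ ⟨true,0,⟨0,[(25,0),(1,
  0)]⟩,⟨2,[(14,0),(1,0),(9,2),(2,0)]⟩⟩]⟩) (.R ⟨0,false,false,true,[1,0,0,-1],[1,0,-1],[1,0,0,0,0,0,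
  0,0,-1],(⟨0,[(25,0)]⟩,⟨0,[(26,0)]⟩),(⟨0,[(34,0)]⟩,⟨0,[(35,0)]⟩),⟨0,[(2,0)]⟩,.k,.k,(.x (-1) ⟨3,
  [(23,0),(0,0),(11,1),(0,3)]⟩ ⟨0,[(38,0)]⟩),.k,.k,.k,⟨false,1,⟨3,[(0,1),(8,1),(4,1),(8,0),(20,0)]⟩,
  ⟨0,[(4,0),(21,0),(6,0),(5,0)]⟩⟩,⟨true,0,⟨0,[(25,0),(2,0)]⟩,⟨7,[(2,2),(3,0),(4,0),(2,1),(0,0),(6,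
  1),(3,4),(4,0),(1,5),(5,0)]⟩⟩,⟨true,0,⟨0,[]⟩,⟨15,[(8,1),(9,1),(4,0),(0,0),(14,3),(1,3)]⟩⟩,⟨false,
  0,⟨0,[(4,0),(25,0)]⟩,⟨3,[(5,1),(8,1),(6,1),(1,0),(2,1),(16,0)]⟩⟩,⟨false,0,⟨0,[]⟩,⟨0,[]⟩⟩,⟨false,0,
  ⟨0,[]⟩,⟨0,[]⟩⟩,[.o ⟨false,0,⟨0,[(27,0)]⟩,⟨7,[(22,3),(0,0),(0,0),(11,1),(7,3)]⟩⟩,.o ⟨false,1,⟨1,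
  [(30,1),(5,0),(7,0)]⟩,⟨0,[(17,0)]⟩⟩,.o ⟨false,1,⟨1,[(26,1),(9,0),(6,0)]⟩,⟨0,[(19,0),(5,0)]⟩⟩,.a
  ⟨true,0,⟨0,[(26,0)]⟩,⟨0,[(25,0)]⟩⟩ ⟨false,1,⟨0,[(3,0),(10,0),(10,0)]⟩,⟨5,[(4,3),(3,0),(9,0),(5,0),
  (1,3),(14,1)]⟩⟩ ⟨true,0,⟨0,[(25,0),(1,0)]⟩,⟨2,[(14,0),(1,0),(9,2),(2,0)]⟩⟩]⟩)) (.R ⟨0,false,false,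
  true,[1,0,0,-1],[1,0,-1],[0,1,0,0,0,0,0,0,-1],(⟨0,[(24,0)]⟩,⟨0,[(25,0)]⟩),(⟨0,[(33,0)]⟩,⟨0,[(34,
  0)]⟩),⟨0,[(1,0)]⟩,.k,.k,(.x (-1) ⟨3,[(22,0),(0,0),(11,1),(0,3)]⟩ ⟨0,[(37,0)]⟩),.k,.k,.k,⟨false,1,
  ⟨0,[(2,0),(10,0),(3,0),(6,0)]⟩,⟨3,[(0,1),(9,0),(12,0),(8,1)]⟩⟩,⟨true,0,⟨0,[(24,0),(2,0)]⟩,⟨6,[(0,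
  1),(3,1),(8,1),(7,1),(3,4),(4,0),(1,3),(5,0)]⟩⟩,⟨true,0,⟨15,[(7,1),(9,1),(4,0),(0,0),(14,3),(1,
  3)]⟩,⟨0,[]⟩⟩,⟨false,0,⟨0,[(3,0),(25,0)]⟩,⟨3,[(4,1),(8,1),(6,1),(1,0),(2,1),(16,0)]⟩⟩,⟨false,0,⟨0,
  []⟩,⟨0,[]⟩⟩,⟨false,0,⟨0,[]⟩,⟨0,[]⟩⟩,[.o ⟨false,0,⟨0,[(26,0)]⟩,⟨7,[(21,3),(0,0),(0,0),(11,1),(7,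
  3)]⟩⟩,.o ⟨false,1,⟨1,[(29,1),(5,0),(7,0)]⟩,⟨0,[(16,0)]⟩⟩,.o ⟨false,1,⟨1,[(25,1),(9,0),(6,0)]⟩,⟨0,
  [(18,0),(5,0)]⟩⟩,.a ⟨true,0,⟨0,[(25,0)]⟩,⟨0,[(24,0)]⟩⟩ ⟨false,1,⟨1,[(22,0),(19,0)]⟩,⟨0,[(3,0),(21,
  0)]⟩⟩ ⟨true,0,⟨0,[(24,0),(1,0)]⟩,⟨2,[(13,0),(1,0),(9,2),(2,0)]⟩⟩]⟩)) (.I [0,1,-2,-1,1,0,0,0,-1]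
  (.Q [0,1,-1,1,0,0,1,1,-1,0,-1,1] (.p false [0,0,1] [0,0,0,1] (⟨0,[(34,0)]⟩,⟨0,[(33,0)]⟩) .k 2 (⟨0,
  [(25,0)]⟩,⟨0,[(24,0)]⟩) .k (.x (-1) ⟨0,[(30,0),(3,0),(7,0)]⟩ ⟨0,[(27,0),(5,0)]⟩)) (.R ⟨1,false,
  false,false,[1,0,0,-1],[0,1],[0,1,0,0,0,0,0,0,-1],(⟨0,[(25,0)]⟩,⟨0,[(26,0)]⟩),(⟨0,[(38,0)]⟩,⟨0,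
  [(37,0)]⟩),⟨0,[(2,0)]⟩,.k,.k,(.x (-1) ⟨3,[(23,0),(0,0),(11,1),(0,3)]⟩ ⟨0,[(38,0)]⟩),(.x (-1) ⟨3,
  [(23,0),(0,0),(11,1),(0,3)]⟩ ⟨0,[(38,0)]⟩),(.x 0 ⟨2,[(6,1),(2,0),(5,1),(16,0),(3,0)]⟩ ⟨3,[(23,0),
  (0,0),(13,7),(4,1)]⟩),.k,⟨false,1,⟨0,[(1,0)]⟩,⟨13,[(4,11),(3,0),(3,3),(1,3),(9,0),(1,11),(0,2),(0,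
  0),(10,0)]⟩⟩,⟨true,0,⟨0,[(25,0)]⟩,⟨0,[(19,0),(6,0)]⟩⟩,⟨true,0,⟨15,[(8,1),(9,1),(4,0),(0,0),(14,3),
  (1,3)]⟩,⟨0,[]⟩⟩,⟨false,0,⟨9,[(4,7),(3,0),(3,3),(5,0),(5,0),(0,5),(0,3)]⟩,⟨7,[(0,1),(2,1),(1,3),
  (30,0),(7,0)]⟩⟩,⟨false,0,⟨0,[(42,0)]⟩,⟨0,[(41,0),(2,0)]⟩⟩,⟨false,0,⟨53,[(4,39),(3,15),(3,41),(0,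
  7),(10,6),(0,13),(10,0),(2,1)]⟩,⟨0,[(5,0)]⟩⟩,[.o ⟨false,0,⟨0,[(42,0)]⟩,⟨5,[(4,1),(0,1),(17,0),(0,
  0),(11,1),(4,1)]⟩⟩,.o ⟨false,1,⟨3,[(12,1),(10,0),(0,0),(11,0),(7,0)]⟩,⟨0,[(16,0),(10,0)]⟩⟩,.o
  ⟨false,1,⟨1,[(26,1),(9,0),(6,0)]⟩,⟨0,[(19,0),(5,0)]⟩⟩,.a ⟨true,0,⟨0,[(26,0)]⟩,⟨0,[(25,0)]⟩⟩
  ⟨false,1,⟨1,[(23,0),(19,0)]⟩,⟨0,[(4,0),(21,0)]⟩⟩ ⟨true,0,⟨2,[(8,0),(0,0),(4,0),(10,2)]⟩,⟨0,[(16,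
  0),(9,0),(0,0)]⟩⟩]⟩) (.I [0,0,-1,-1,1,0,0,1,-1] (.R ⟨1,false,false,true,[1,0,0,-1],[1,0,-1],[0,1,
  0,0,0,0,0,0,-1],(⟨0,[(26,0)]⟩,⟨0,[(27,0)]⟩),(⟨0,[(35,0)]⟩,⟨0,[(36,0)]⟩),⟨0,[(3,0)]⟩,.k,.k,(.x
  (-1) ⟨3,[(24,0),(0,0),(11,1),(0,3)]⟩ ⟨0,[(39,0)]⟩),.k,(.r (-1) ⟨0,[(0,0)]⟩ ⟨16,[(1,2),(7,6),(3,0),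
  (1,3),(9,6),(1,2),(0,0),(5,9)]⟩),.k,⟨false,1,⟨2,[(0,0),(9,0),(4,0),(3,0),(4,0)]⟩,⟨0,[(1,0),(13,0),
  (11,0),(6,0),(5,0)]⟩⟩,⟨true,0,⟨0,[(26,0),(2,0)]⟩,⟨2,[(15,1),(5,1),(5,2),(4,0),(7,0)]⟩⟩,⟨true,0,
  ⟨15,[(9,1),(9,1),(4,0),(0,0),(14,3),(1,3)]⟩,⟨0,[]⟩⟩,⟨false,0,⟨0,[(5,0),(25,0)]⟩,⟨3,[(6,1),(8,1),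
  (6,1),(1,0),(2,1),(16,0)]⟩⟩,⟨false,0,⟨0,[(43,0)]⟩,⟨19,[(1,7),(4,3),(5,1),(10,3),(0,4),(0,2),(1,3),
  (17,5)]⟩⟩,⟨false,0,⟨1,[(5,1),(3,0),(0,0),(20,0)]⟩,⟨0,[(6,0),(15,0)]⟩⟩,[.o ⟨false,0,⟨0,[(28,0)]⟩,
  ⟨7,[(23,3),(0,0),(0,0),(11,1),(7,3)]⟩⟩,.o ⟨false,1,⟨1,[(31,1),(5,0),(7,0)]⟩,⟨0,[(18,0)]⟩⟩,.o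
  ⟨false,1,⟨1,[(27,1),(9,0),(6,0)]⟩,⟨0,[(20,0),(5,0)]⟩⟩,.a ⟨true,0,⟨0,[(27,0)]⟩,⟨0,[(26,0)]⟩⟩
  ⟨false,1,⟨1,[(24,0),(19,0)]⟩,⟨0,[(5,0),(21,0)]⟩⟩ ⟨true,0,⟨0,[(26,0),(1,0)]⟩,⟨2,[(15,0),(1,0),(9,
  2),(2,0)]⟩⟩]⟩) (.R ⟨1,false,false,true,[1,0,0,-1],[1,0,-1],[0,1,0,0,0,0,0,0,-1],(⟨0,[(26,0)]⟩,⟨0,
  [(27,0)]⟩),(⟨0,[(35,0)]⟩,⟨0,[(36,0)]⟩),⟨0,[(3,0)]⟩,.k,.k,(.x (-1) ⟨3,[(24,0),(0,0),(11,1),(0,3)]⟩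
  ⟨0,[(39,0)]⟩),.k,(.x 0 ⟨7,[(0,1),(1,1),(4,3),(4,0),(2,1),(16,1),(3,3),(7,2)]⟩ ⟨11,[(10,3),(13,0),
  (0,0),(7,7),(1,11),(1,5),(1,11)]⟩),.k,⟨false,1,⟨2,[(2,0),(5,0),(4,0),(1,0),(3,0),(4,0),(4,0)]⟩,⟨3,
  [(0,1),(11,0),(12,0),(8,1)]⟩⟩,⟨true,0,⟨0,[(26,0),(2,0)]⟩,⟨3,[(0,1),(1,0),(3,0),(8,0),(7,0),(3,2),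
  (4,0),(1,0)]⟩⟩,⟨true,0,⟨15,[(9,1),(9,1),(4,0),(0,0),(14,3),(1,3)]⟩,⟨0,[]⟩⟩,⟨false,0,⟨0,[(5,0),(25,
  0)]⟩,⟨3,[(6,1),(8,1),(6,1),(1,0),(2,1),(16,0)]⟩⟩,⟨false,0,⟨0,[(43,0)]⟩,⟨19,[(1,7),(4,3),(5,1),(10,
  3),(0,4),(0,2),(1,3),(17,5)]⟩⟩,⟨false,0,⟨1,[(5,1),(3,0),(0,0),(20,0)]⟩,⟨0,[(6,0),(15,0)]⟩⟩,[.o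
  ⟨false,0,⟨0,[(28,0)]⟩,⟨7,[(23,3),(0,0),(0,0),(11,1),(7,3)]⟩⟩,.o ⟨false,1,⟨1,[(31,1),(5,0),(7,0)]⟩,
  ⟨0,[(18,0)]⟩⟩,.o ⟨false,1,⟨1,[(27,1),(9,0),(6,0)]⟩,⟨0,[(20,0),(5,0)]⟩⟩,.a ⟨true,0,⟨0,[(27,0)]⟩,⟨0,
  [(26,0)]⟩⟩ ⟨false,1,⟨1,[(24,0),(19,0)]⟩,⟨0,[(5,0),(21,0)]⟩⟩ ⟨true,0,⟨0,[(26,0),(1,0)]⟩,⟨2,[(15,0),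
  (1,0),(9,2),(2,0)]⟩⟩]⟩))) (.R ⟨1,true,false,false,[1,0,0,-1],[0,1,1],[0,1,0,0,0,0,0,0,-1],(⟨0,
  [(24,0)]⟩,⟨0,[(25,0)]⟩),(⟨0,[(34,0),(2,0)]⟩,⟨0,[(14,0)]⟩),⟨0,[(1,0)]⟩,.k,.k,(.x (-1) ⟨3,[(22,0),
  (0,0),(11,1),(0,3)]⟩ ⟨0,[(37,0)]⟩),(.r (-1) ⟨1,[(10,0),(11,0),(9,1)]⟩ ⟨9,[(0,3),(10,1),(1,1),(3,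
  7),(5,2),(7,1),(3,0)]⟩),(.r (-2) ⟨3,[(10,3),(11,2),(0,0),(8,3)]⟩ ⟨3,[(0,3),(6,0),(3,0),(0,0),(0,
  0),(3,1),(9,0),(10,0)]⟩),.k,⟨false,1,⟨0,[(2,0),(10,0),(5,0),(4,0),(13,0)]⟩,⟨13,[(0,7),(10,1),(0,
  3),(0,5),(9,2),(3,1),(3,3),(11,0)]⟩⟩,⟨true,0,⟨2,[(13,1),(5,1),(4,2),(5,0),(7,0)]⟩,⟨0,[(25,0),(1,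
  0)]⟩⟩,⟨true,0,⟨15,[(7,1),(9,1),(4,0),(0,0),(14,3),(1,3)]⟩,⟨0,[]⟩⟩,⟨false,0,⟨14,[(3,12),(3,1),(3,
  5),(0,0),(8,6),(1,0),(0,1),(3,0)]⟩,⟨0,[(2,0)]⟩⟩,⟨false,0,⟨0,[(41,0)]⟩,⟨0,[(40,0),(2,0)]⟩⟩,⟨true,
  (-1),⟨0,[(0,0),(12,0),(10,0),(13,0)]⟩,⟨0,[(2,0),(37,0)]⟩⟩,[]⟩))) (.I [1,1,1,0,-1,0,0,0,1] (.R ⟨1,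
  false,false,true,[1,0,-1],[0,0,0,1],[],(⟨0,[(32,0)]⟩,⟨0,[(33,0)]⟩),(⟨0,[(24,0)]⟩,⟨0,[(23,0)]⟩),⟨0,
  [(13,0)]⟩,.k,.k,.k,.k,(.r (-1) ⟨1,[(9,0),(11,0),(9,1)]⟩ ⟨25,[(0,7),(5,0),(3,3),(1,15),(3,10),(5,
  8),(3,3),(3,11)]⟩),.k,⟨true,1,⟨1,[(21,0),(20,0)]⟩,⟨0,[(0,0)]⟩⟩,⟨false,0,⟨2,[(12,1),(5,1),(4,2),(5,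
  0),(7,0)]⟩,⟨2,[(7,1),(16,2),(1,0),(7,0)]⟩⟩,⟨false,1,⟨31,[(11,7),(7,7),(0,3),(0,0),(0,0),(7,15),(3,
  5),(7,15)]⟩,⟨0,[(31,0)]⟩⟩,⟨true,(-1),⟨0,[(1,0),(37,0)]⟩,⟨0,[(3,0),(6,0),(14,0)]⟩⟩,⟨false,1,⟨15,
  [(10,5),(0,3),(7,7),(1,0),(0,0),(7,7),(3,6),(7,2)]⟩,⟨0,[(18,0)]⟩⟩,⟨false,(-1),⟨0,[(1,0)]⟩,⟨7,[(3,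
  3),(3,1),(13,1),(2,3),(0,1),(2,3),(2,1),(2,0),(7,6)]⟩⟩,[.a ⟨true,(-1),⟨0,[(0,0),(22,0)]⟩,⟨0,[(3,
  0),(6,0)]⟩⟩ ⟨false,1,⟨3,[(21,0),(0,0),(18,1)]⟩,⟨0,[]⟩⟩ ⟨true,(-1),⟨2,[(0,0),(0,1),(16,1),(4,0),(5,
  0),(7,0)]⟩,⟨0,[(3,0),(6,0),(15,0)]⟩⟩,.o ⟨false,0,⟨13,[(2,11),(3,1),(9,1),(5,0),(0,1),(10,0),(2,1),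
  (1,3)]⟩,⟨7,[(3,5),(6,3),(1,3),(8,0),(2,1),(0,3),(8,0),(2,1)]⟩⟩,.o ⟨false,1,⟨11,[(7,3),(13,0),(0,
  0),(7,7),(3,5)]⟩,⟨2,[(12,1),(5,1),(10,0),(7,0)]⟩⟩,.o ⟨false,0,⟨0,[(26,0)]⟩,⟨0,[(29,0),(11,
  0)]⟩⟩]⟩) (.Q [0,0,3,0,-1,0,0,0,0,0,0,-1] (.p false [0,0,0,1] [] (⟨0,[(24,0)]⟩,⟨0,[(23,0)]⟩) .k 0
  (⟨0,[]⟩,⟨0,[]⟩) .k .k) (.Q [0,0,0,0,0,-1,0,0,0,1,0,-1] (.p false [0,0,0,1] [1] (⟨0,[(25,0)]⟩,⟨0,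
  [(24,0)]⟩) .k 1 (⟨0,[]⟩,⟨0,[]⟩) .k .k) (.R ⟨1,false,false,true,[1,0,0,-1],[0,1],[1,0,0,-1,0,0,0,0,
  -1],(⟨0,[(25,0)]⟩,⟨0,[(26,0)]⟩),(⟨0,[(38,0)]⟩,⟨0,[(37,0)]⟩),⟨0,[(0,0)]⟩,.k,.k,(.x (-1) ⟨3,[(23,0),
  (0,0),(11,1),(0,3)]⟩ ⟨0,[(38,0)]⟩),(.x (-1) ⟨3,[(23,0),(0,0),(11,1),(0,3)]⟩ ⟨0,[(38,0)]⟩),(.r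
  (-2) ⟨3,[(11,3),(11,2),(0,0)]⟩ ⟨3,[(3,2),(0,0),(3,0),(3,0),(1,0),(11,3),(0,2),(0,0),(11,0)]⟩),.k,
  ⟨false,2,⟨1,[(11,1),(11,0),(20,0)]⟩,⟨2,[(3,2),(4,0),(0,0),(4,0),(11,2),(0,2)]⟩⟩,⟨true,0,⟨0,[(25,
  0)]⟩,⟨0,[(19,0),(6,0)]⟩⟩,⟨false,1,⟨31,[(1,3),(3,3),(5,7),(8,7),(1,3),(0,2),(0,4),(7,7),(11,15)]⟩,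
  ⟨0,[(42,0)]⟩⟩,⟨true,(-1),⟨0,[(3,0),(26,0)]⟩,⟨15,[(2,3),(2,9),(8,3),(8,0),(2,5),(0,3),(8,0),(2,
  1)]⟩⟩,⟨true,0,⟨0,[]⟩,⟨15,[(8,1),(9,1),(4,0),(0,0),(14,3),(1,3)]⟩⟩,⟨true,(-1),⟨1,[(3,1),(4,0),(0,
  0),(20,0)]⟩,⟨0,[(5,0)]⟩⟩,[.o ⟨false,0,⟨33,[(8,11),(3,7),(0,5),(9,0),(0,0),(11,3),(2,11)]⟩,⟨3,[(4,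
  1),(0,1),(30,0),(7,0)]⟩⟩,.o ⟨false,0,⟨0,[(42,0)]⟩,⟨7,[(1,1),(3,1),(5,1),(11,0),(0,1),(11,2)]⟩⟩,.o
  ⟨false,1,⟨1,[(26,1),(9,0),(6,0)]⟩,⟨2,[(1,0),(23,1),(10,0)]⟩⟩,.a ⟨true,0,⟨0,[(26,0)]⟩,⟨0,[(25,
  0)]⟩⟩ ⟨true,1,⟨1,[(11,0),(11,0)]⟩,⟨0,[(3,0),(22,0),(0,0)]⟩⟩ ⟨false,0,⟨15,[(3,1),(8,5),(1,1),(8,0),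
  (1,13),(1,3),(8,0),(2,1)]⟩,⟨3,[(4,1),(0,1),(20,3),(9,0),(7,0)]⟩⟩]⟩) (.R ⟨0,false,false,true,[1,0,
  0,-1],[0,1],[1,0,0,-1,0,0,0,0,-1],(⟨0,[(25,0)]⟩,⟨0,[(26,0)]⟩),(⟨0,[(38,0)]⟩,⟨0,[(37,0)]⟩),⟨0,[(0,
  0)]⟩,.k,.k,(.x (-1) ⟨3,[(23,0),(0,0),(11,1),(0,3)]⟩ ⟨0,[(38,0)]⟩),(.x (-1) ⟨3,[(23,0),(0,0),(11,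
  1),(0,3)]⟩ ⟨0,[(38,0)]⟩),.k,.k,⟨false,2,⟨1,[(11,1),(11,0),(20,0)]⟩,⟨2,[(3,2),(4,0),(0,0),(4,0),
  (11,2),(0,2)]⟩⟩,⟨true,0,⟨0,[(25,0)]⟩,⟨0,[(19,0),(6,0)]⟩⟩,⟨false,1,⟨31,[(1,3),(3,3),(5,7),(8,7),(1,
  3),(0,2),(0,4),(7,7),(11,15)]⟩,⟨0,[(42,0)]⟩⟩,⟨true,(-1),⟨0,[(3,0),(26,0)]⟩,⟨15,[(2,3),(2,9),(8,3),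
  (8,0),(2,5),(0,3),(8,0),(2,1)]⟩⟩,⟨false,0,⟨0,[]⟩,⟨0,[]⟩⟩,⟨false,0,⟨0,[]⟩,⟨0,[]⟩⟩,[.o ⟨false,0,⟨33,
  [(8,11),(3,7),(0,5),(9,0),(0,0),(11,3),(2,11)]⟩,⟨3,[(4,1),(0,1),(30,0),(7,0)]⟩⟩,.o ⟨false,0,⟨0,
  [(42,0)]⟩,⟨7,[(1,1),(3,1),(5,1),(11,0),(0,1),(11,2)]⟩⟩,.o ⟨false,1,⟨1,[(26,1),(9,0),(6,0)]⟩,⟨2,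
  [(1,0),(23,1),(10,0)]⟩⟩,.a ⟨true,0,⟨0,[(26,0)]⟩,⟨0,[(25,0)]⟩⟩ ⟨true,1,⟨1,[(11,0),(11,0)]⟩,⟨0,[(3,
  0),(22,0),(0,0)]⟩⟩ ⟨false,0,⟨15,[(3,1),(8,5),(1,1),(8,0),(1,13),(1,3),(8,0),(2,1)]⟩,⟨3,[(4,1),(0,
  1),(20,3),(9,0),(7,0)]⟩⟩]⟩)) (.Q [0,-1,-1,2,1,0,-1,-1,-1,-1,1,1] (.p true [0,0,1] [1,0,0,-1] (⟨0,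
  [(34,0)]⟩,⟨0,[(33,0)]⟩) .k 2 (⟨0,[(24,0)]⟩,⟨0,[(25,0)]⟩) .k (.r 0 ⟨16,[(0,3),(1,11),(0,0),(2,5),
  (16,1),(1,8),(0,0),(0,10)]⟩ ⟨3,[(22,2),(0,0),(8,3)]⟩)) (.R ⟨1,true,false,false,[0,0,0,1],[1,1,-1],
  [1,0,0,-1,0,0,0,0,1],(⟨0,[(26,0)]⟩,⟨0,[(25,0)]⟩),(⟨0,[(34,0),(3,0)]⟩,⟨0,[(10,0)]⟩),⟨2,[(1,0),(4,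
  0),(8,0),(10,1),(1,0)]⟩,.k,.k,(.x 0 ⟨11,[(6,3),(8,3),(7,0),(0,0),(6,5),(0,9),(3,1)]⟩ ⟨0,[(38,0),
  (4,0)]⟩),(.r (-1) ⟨2,[(4,0),(2,0),(5,0),(10,0),(1,0)]⟩ ⟨1,[(2,1),(3,0),(1,0),(18,0),(6,0),(3,
  1)]⟩),(.r (-1) ⟨13,[(1,1),(1,5),(0,5),(2,13),(3,2),(12,0),(1,9),(0,5)]⟩ ⟨1,[(8,1),(14,0),(20,
  0)]⟩),.k,⟨false,1,⟨13,[(1,1),(1,5),(0,5),(2,13),(3,2),(12,0),(1,9),(0,5)]⟩,⟨0,[(2,0),(5,0)]⟩⟩,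
  ⟨true,1,⟨0,[(1,0),(26,0)]⟩,⟨5,[(3,5),(2,0),(1,1),(7,2),(3,6),(2,2),(4,0),(3,2),(1,0),(3,1),(1,
  1)]⟩⟩,⟨false,1,⟨0,[(41,0),(2,0)]⟩,⟨0,[(42,0)]⟩⟩,⟨true,1,⟨11,[(0,7),(4,1),(17,0),(2,1),(3,3),(5,0),
  (2,1)]⟩,⟨0,[(3,0),(2,0),(0,0),(19,0),(6,0),(3,1)]⟩⟩,⟨true,0,⟨0,[]⟩,⟨15,[(8,1),(9,1),(4,0),(0,0),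
  (14,3),(1,3)]⟩⟩,⟨false,1,⟨0,[(0,0)]⟩,⟨2,[(3,0),(0,1),(2,0),(12,2),(1,1),(9,1),(8,1)]⟩⟩,[]⟩) (.R
  ⟨1,true,false,true,[0,0,1],[0,1],[1,0,0,-1,0,0,0,1],(⟨0,[(35,0)]⟩,⟨0,[(34,0)]⟩),(⟨0,[(38,0)]⟩,⟨0,
  [(37,0)]⟩),⟨0,[(10,0)]⟩,.k,.k,.k,.k,(.r (-1) ⟨0,[(0,0),(0,0),(0,0),(25,0)]⟩ ⟨3,[(8,3),(14,0),(0,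
  0),(19,1)]⟩),.k,⟨true,1,⟨0,[(7,0),(32,0)]⟩,⟨0,[(8,0)]⟩⟩,⟨false,1,⟨0,[(9,0)]⟩,⟨0,[(31,0)]⟩⟩,⟨false,
  1,⟨11,[(0,1),(4,1),(5,0),(8,1),(2,1),(0,1),(7,1),(11,6)]⟩,⟨0,[(42,0)]⟩⟩,⟨true,0,⟨1,[(8,0),(0,0),
  (20,0)]⟩,⟨0,[(16,0)]⟩⟩,⟨true,0,⟨0,[]⟩,⟨15,[(8,1),(9,1),(4,0),(0,0),(14,3),(1,3)]⟩⟩,⟨false,0,⟨0,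
  [(12,0),(14,0)]⟩,⟨15,[(0,7),(4,7),(16,3),(0,0),(0,0),(11,1),(7,11)]⟩⟩,[]⟩)))))))) (.R ⟨1,true,
  false,true,[0,0,1],[0,1],[0,0,0,0,0,0,0,1],(⟨0,[(28,0)]⟩,⟨0,[(27,0)]⟩),(⟨0,[(31,0)]⟩,⟨0,[(30,
  0)]⟩),⟨0,[(3,0)]⟩,.k,.k,.k,.k,(.r (-2) ⟨19,[(4,13),(1,7),(2,3),(6,6),(0,6),(7,3),(11,3)]⟩ ⟨0,[(0,
  0)]⟩),.k,⟨true,1,⟨0,[(4,0),(2,0),(17,0)]⟩,⟨0,[(0,0),(33,0)]⟩⟩,⟨false,1,⟨0,[(2,0)]⟩,⟨0,[(24,0)]⟩⟩,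
  ⟨false,1,⟨3,[(16,0),(0,0),(19,1)]⟩,⟨0,[]⟩⟩,⟨true,0,⟨1,[(1,0),(0,0),(20,0)]⟩,⟨0,[(9,0)]⟩⟩,⟨true,0,
  ⟨0,[(35,0)]⟩,⟨0,[(34,0)]⟩⟩,⟨false,0,⟨0,[(0,0),(1,0)]⟩,⟨0,[(9,0),(24,0),(2,0)]⟩⟩,[]⟩)) (.Q [0,0,-1,
  -1,0,0,0,0,-1,-1,0,1] (.p true [0,0,0,1] [1] (⟨0,[(18,0)]⟩,⟨0,[(17,0)]⟩) .k 1 (⟨0,[]⟩,⟨0,[]⟩) .k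
  .k) (.Q [0,0,0,0,0,-1,0,0,0,1,0,-1] (.p false [0,0,0,1] [1] (⟨0,[(19,0)]⟩,⟨0,[(18,0)]⟩) .k 1 (⟨0,
  []⟩,⟨0,[]⟩) .k .k) (.Q [0,0,-1,-2,0,0,0,0,-1,-1,0,1] (.p true [0,0,0,1] [1] (⟨0,[(20,0)]⟩,⟨0,[(19,
  0)]⟩) .k 1 (⟨0,[]⟩,⟨0,[]⟩) .k .k) (.I [0,0,-1,0,0,0,0,1,-1] (.R ⟨1,false,false,true,[1,0,0,-1],[1,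
  0,-1],[0,1,0,0,0,0,0,0,-1],(⟨0,[(21,0)]⟩,⟨0,[(22,0)]⟩),(⟨0,[(30,0)]⟩,⟨0,[(31,0)]⟩),⟨0,[(2,0)]⟩,.k,
  .k,(.x (-1) ⟨3,[(19,0),(0,0),(11,1),(0,3)]⟩ ⟨0,[(34,0)]⟩),.k,(.x 0 ⟨2,[(6,2),(3,1),(5,1),(10,0),
  (7,0)]⟩ ⟨11,[(5,3),(13,0),(0,0),(7,7),(1,11),(1,5),(1,11)]⟩),.k,⟨false,0,⟨0,[(0,0)]⟩,⟨3,[(19,0),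
  (0,2),(8,3)]⟩⟩,⟨true,0,⟨0,[(21,0),(2,0)]⟩,⟨2,[(10,1),(5,1),(5,2),(4,0),(7,0)]⟩⟩,⟨true,0,⟨0,[(42,
  0)]⟩,⟨0,[]⟩⟩,⟨false,1,⟨1,[(20,0),(0,1),(1,1),(3,0),(0,0),(11,0)]⟩,⟨0,[(3,0),(13,0)]⟩⟩,⟨false,0,⟨0,
  [(38,0)]⟩,⟨0,[(37,0),(2,0)]⟩⟩,⟨false,1,⟨3,[(8,1),(11,1),(0,3),(1,3),(3,1),(0,1),(3,0),(7,0)]⟩,⟨0,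
  [(1,0),(15,0)]⟩⟩,[.o ⟨false,0,⟨0,[(23,0)]⟩,⟨7,[(18,3),(0,0),(0,0),(11,1),(7,3)]⟩⟩,.o ⟨false,1,⟨1,
  [(26,1),(5,0),(7,0)]⟩,⟨0,[(13,0)]⟩⟩,.o ⟨false,1,⟨1,[(22,1),(9,0),(6,0)]⟩,⟨0,[(15,0),(5,0)]⟩⟩,.a
  ⟨true,0,⟨0,[(22,0)]⟩,⟨0,[(21,0)]⟩⟩ ⟨false,0,⟨0,[(0,0),(28,0)]⟩,⟨1,[(20,0),(6,0),(0,0),(11,0)]⟩⟩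
  ⟨true,0,⟨0,[(21,0),(1,0)]⟩,⟨2,[(10,0),(1,0),(9,2),(2,0)]⟩⟩]⟩) (.R ⟨1,false,false,true,[1,0,0,-1],
  [0,1],[1,0,0,-1,0,0,0,0,-1],(⟨0,[(21,0)]⟩,⟨0,[(22,0)]⟩),(⟨0,[(34,0)]⟩,⟨0,[(33,0)]⟩),⟨0,[(2,0)]⟩,
  .k,.k,(.x (-1) ⟨3,[(19,0),(0,0),(11,1),(0,3)]⟩ ⟨0,[(34,0)]⟩),(.x (-1) ⟨3,[(19,0),(0,0),(11,1),(0,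
  3)]⟩ ⟨0,[(34,0)]⟩),(.r (-1) ⟨3,[(3,1),(3,2),(11,0),(1,1)]⟩ ⟨0,[(0,0),(7,0),(15,0),(0,0)]⟩),.k,
  ⟨false,1,⟨1,[(3,1),(3,0),(13,1),(18,0)]⟩,⟨0,[(0,0),(13,0),(23,1)]⟩⟩,⟨true,0,⟨0,[(21,0)]⟩,⟨0,[(15,
  0),(6,0)]⟩⟩,⟨false,1,⟨0,[(37,0),(2,0)]⟩,⟨0,[(38,0)]⟩⟩,⟨true,0,⟨0,[(0,0),(13,0),(6,0),(16,0)]⟩,⟨0,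
  [(3,0)]⟩⟩,⟨true,0,⟨0,[]⟩,⟨0,[(42,0)]⟩⟩,⟨true,0,⟨0,[(0,0),(13,0),(6,0),(16,1)]⟩,⟨0,[(1,0)]⟩⟩,[.o
  ⟨false,0,⟨1,[(8,0),(6,0),(19,0),(6,0)]⟩,⟨1,[(7,0),(7,1),(24,0)]⟩⟩,.o ⟨false,0,⟨0,[(38,0)]⟩,⟨1,
  [(32,0),(4,1),(2,0)]⟩⟩,.o ⟨false,1,⟨1,[(22,1),(9,0),(6,0)]⟩,⟨0,[(15,0),(5,0)]⟩⟩,.a ⟨true,0,⟨0,
  [(22,0)]⟩,⟨0,[(21,0)]⟩⟩ ⟨true,0,⟨0,[(3,0),(17,0)]⟩,⟨0,[(0,0),(13,0),(23,0)]⟩⟩ ⟨false,0,⟨0,[(21,0),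
  (16,0)]⟩,⟨3,[(1,1),(18,0),(1,1),(4,0),(0,0),(3,0),(7,1)]⟩⟩]⟩)) (.R ⟨1,true,false,true,[1,0,0,-1],
  [0,1],[0,0,0,0,0,0,0,0,-1],(⟨0,[(20,0)]⟩,⟨0,[(21,0)]⟩),(⟨0,[(33,0)]⟩,⟨0,[(32,0)]⟩),⟨0,[(1,0)]⟩,.k,
  .k,(.x (-1) ⟨3,[(18,0),(0,0),(11,1),(0,3)]⟩ ⟨0,[(33,0)]⟩),(.x (-1) ⟨3,[(18,0),(0,0),(11,1),(0,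
  3)]⟩ ⟨0,[(33,0)]⟩),(.r (-1) ⟨3,[(2,1),(3,2),(11,0),(1,1)]⟩ ⟨0,[(0,0),(13,0),(6,0)]⟩),.k,⟨false,1,
  ⟨1,[(2,1),(17,1),(17,0),(0,0)]⟩,⟨0,[(0,0),(10,0),(9,0),(0,0)]⟩⟩,⟨true,0,⟨0,[(20,0)]⟩,⟨0,[(14,0),
  (6,0)]⟩⟩,⟨false,1,⟨3,[(18,0),(0,0),(19,1)]⟩,⟨0,[]⟩⟩,⟨true,0,⟨0,[(0,0),(35,0)]⟩,⟨0,[(2,0)]⟩⟩,⟨true,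
  0,⟨0,[(37,0)]⟩,⟨0,[(36,0)]⟩⟩,⟨false,0,⟨0,[(0,0)]⟩,⟨0,[(2,0),(33,0),(2,0)]⟩⟩,[]⟩)) (.I [0,1,-2,-1,
  0,0,0,0,-1] (.R ⟨0,false,false,false,[1,0,0,-1],[0,1],[0,1,0,0,0,0,0,0,-1],(⟨0,[(20,0)]⟩,⟨0,[(21,
  0)]⟩),(⟨0,[(33,0)]⟩,⟨0,[(32,0)]⟩),⟨0,[(1,0)]⟩,.k,.k,(.x (-1) ⟨3,[(18,0),(0,0),(11,1),(0,3)]⟩ ⟨0,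
  [(33,0)]⟩),(.x (-1) ⟨3,[(18,0),(0,0),(11,1),(0,3)]⟩ ⟨0,[(33,0)]⟩),.k,.k,⟨false,0,⟨0,[(0,0)]⟩,⟨3,
  [(7,1),(11,1),(6,1),(0,1),(3,0),(7,0)]⟩⟩,⟨true,0,⟨0,[(20,0)]⟩,⟨0,[(14,0),(6,0)]⟩⟩,⟨true,0,⟨0,[(41,
  0)]⟩,⟨0,[]⟩⟩,⟨false,1,⟨3,[(7,1),(11,1),(0,3),(5,1),(0,1),(3,0),(7,0)]⟩,⟨0,[(2,0)]⟩⟩,⟨false,0,⟨0,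
  []⟩,⟨0,[]⟩⟩,⟨false,0,⟨0,[]⟩,⟨0,[]⟩⟩,[.o ⟨false,0,⟨0,[(37,0)]⟩,⟨1,[(31,0),(4,1),(2,0)]⟩⟩,.o ⟨false,
  1,⟨3,[(7,1),(10,0),(0,0),(11,0),(7,0)]⟩,⟨0,[(11,0),(10,0)]⟩⟩,.o ⟨false,1,⟨1,[(21,1),(9,0),(6,0)]⟩,
  ⟨0,[(14,0),(5,0)]⟩⟩,.a ⟨true,0,⟨0,[(21,0)]⟩,⟨0,[(20,0)]⟩⟩ ⟨false,0,⟨1,[(0,0),(1,0),(4,0),(6,0),(5,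
  0)]⟩,⟨1,[(19,0),(6,0),(0,0),(11,0)]⟩⟩ ⟨true,0,⟨0,[(20,0),(16,0)]⟩,⟨0,[(11,0),(9,0),(0,0)]⟩⟩]⟩)
  (.R ⟨0,false,false,true,[1,0,0,-1],[0,1],[1,0,1],(⟨0,[(20,0)]⟩,⟨0,[(21,0)]⟩),(⟨0,[(33,0)]⟩,⟨0,
  [(32,0)]⟩),⟨0,[(1,0)]⟩,.k,.k,(.x (-1) ⟨3,[(18,0),(0,0),(11,1),(0,3)]⟩ ⟨0,[(33,0)]⟩),(.x (-1) ⟨3,
  [(18,0),(0,0),(11,1),(0,3)]⟩ ⟨0,[(33,0)]⟩),.k,.k,⟨false,1,⟨1,[(6,0),(32,0)]⟩,⟨1,[(7,0),(6,0),(19,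
  0),(6,0)]⟩⟩,⟨true,0,⟨0,[(20,0)]⟩,⟨0,[(14,0),(6,0)]⟩⟩,⟨false,1,⟨1,[(19,0),(6,0),(0,0),(11,0)]⟩,⟨0,
  [(2,0),(17,0),(16,0)]⟩⟩,⟨true,0,⟨0,[(0,0),(19,0),(13,0)]⟩,⟨0,[(2,0)]⟩⟩,⟨false,0,⟨0,[]⟩,⟨0,[]⟩⟩,
  ⟨false,0,⟨0,[]⟩,⟨0,[]⟩⟩,[.o ⟨false,0,⟨1,[(7,0),(6,0),(19,0),(6,0)]⟩,⟨1,[(6,0),(7,1),(24,0)]⟩⟩,.o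
  ⟨false,0,⟨0,[(37,0)]⟩,⟨1,[(31,0),(4,1),(2,0)]⟩⟩,.o ⟨false,1,⟨1,[(21,1),(9,0),(6,0)]⟩,⟨0,[(14,0),
  (5,0)]⟩⟩,.a ⟨true,0,⟨0,[(21,0)]⟩,⟨0,[(20,0)]⟩⟩ ⟨true,0,⟨0,[]⟩,⟨0,[(41,0)]⟩⟩ ⟨false,0,⟨0,[(20,0),
  (16,0)]⟩,⟨1,[(6,0),(7,1),(6,1),(17,0)]⟩⟩]⟩))) (.I [1,-1,1,0,0,0,0,1,1] (.Q [0,0,0,0,0,-1,0,0,0,1,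
  0,-1] (.p false [0,0,0,1] [1] (⟨0,[(20,0)]⟩,⟨0,[(19,0)]⟩) .k 1 (⟨0,[]⟩,⟨0,[]⟩) .k .k) (.R ⟨1,
  false,false,true,[1,0,0,-1],[1,0,-1],[1,1,0,-1,0,0,0,0,-1],(⟨0,[(20,0)]⟩,⟨0,[(21,0)]⟩),(⟨0,[(29,
  0)]⟩,⟨0,[(30,0)]⟩),⟨0,[(0,0)]⟩,.k,.k,(.x (-1) ⟨3,[(18,0),(0,0),(11,1),(0,3)]⟩ ⟨0,[(33,0)]⟩),.k,
  (.r (-1) ⟨1,[(3,0),(9,0),(4,0)]⟩ ⟨6,[(1,2),(0,3),(6,2),(11,3),(0,3),(3,0),(1,8),(5,0)]⟩),.k,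
  ⟨false,1,⟨1,[(3,0),(9,0),(4,0)]⟩,⟨0,[(1,0),(5,0),(1,0),(5,1),(6,0),(11,0)]⟩⟩,⟨true,0,⟨0,[(20,0),
  (2,0)]⟩,⟨2,[(9,1),(5,1),(5,2),(4,0),(7,0)]⟩⟩,⟨true,0,⟨0,[(36,0)]⟩,⟨0,[(37,0)]⟩⟩,⟨false,0,⟨0,[(1,
  0),(18,0),(1,0),(5,0)]⟩,⟨1,[(6,0),(2,1),(8,0),(2,1)]⟩⟩,⟨false,0,⟨0,[]⟩,⟨3,[(18,0),(0,0),(19,1)]⟩⟩,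
  ⟨false,0,⟨3,[(1,2),(0,0),(4,0),(1,0),(10,2),(1,4),(5,2)]⟩,⟨5,[(3,1),(2,0),(2,3),(1,1),(3,1),(2,2),
  (2,5)]⟩⟩,[.o ⟨false,0,⟨0,[(22,0)]⟩,⟨7,[(17,3),(0,0),(0,0),(11,1),(7,3)]⟩⟩,.o ⟨false,1,⟨1,[(25,1),
  (5,0),(7,0)]⟩,⟨0,[(12,0)]⟩⟩,.o ⟨false,1,⟨1,[(21,1),(9,0),(6,0)]⟩,⟨0,[(14,0),(5,0)]⟩⟩,.a ⟨true,0,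
  ⟨0,[(21,0)]⟩,⟨0,[(20,0)]⟩⟩ ⟨false,1,⟨1,[(6,0),(11,0)]⟩,⟨4,[(1,3),(0,0),(4,0),(1,1),(11,0),(0,1),
  (5,3)]⟩⟩ ⟨true,0,⟨0,[(20,0),(1,0)]⟩,⟨2,[(9,0),(1,0),(9,2),(2,0)]⟩⟩]⟩) (.R ⟨0,false,false,true,[1,
  0,0,-1],[1,0,-1],[0,1,0,-1,0,0,0,0,-1],(⟨0,[(20,0)]⟩,⟨0,[(21,0)]⟩),(⟨0,[(29,0)]⟩,⟨0,[(30,0)]⟩),⟨0,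
  [(0,0)]⟩,.k,.k,(.x (-1) ⟨3,[(18,0),(0,0),(11,1),(0,3)]⟩ ⟨0,[(33,0)]⟩),.k,.k,.k,⟨false,1,⟨1,[(3,0),
  (9,0),(4,0)]⟩,⟨0,[(1,0),(5,0),(1,0),(5,1),(6,0),(11,0)]⟩⟩,⟨true,0,⟨0,[(20,0),(2,0)]⟩,⟨2,[(9,1),(5,
  1),(5,2),(4,0),(7,0)]⟩⟩,⟨true,0,⟨0,[(36,0)]⟩,⟨0,[(37,0)]⟩⟩,⟨false,0,⟨0,[(1,0),(18,0),(1,0),(5,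
  0)]⟩,⟨1,[(6,0),(2,1),(8,0),(2,1)]⟩⟩,⟨false,0,⟨0,[]⟩,⟨0,[]⟩⟩,⟨false,0,⟨0,[]⟩,⟨0,[]⟩⟩,[.o ⟨false,0,
  ⟨0,[(22,0)]⟩,⟨7,[(17,3),(0,0),(0,0),(11,1),(7,3)]⟩⟩,.o ⟨false,1,⟨1,[(25,1),(5,0),(7,0)]⟩,⟨0,[(12,
  0)]⟩⟩,.o ⟨false,1,⟨1,[(21,1),(9,0),(6,0)]⟩,⟨0,[(14,0),(5,0)]⟩⟩,.a ⟨true,0,⟨0,[(21,0)]⟩,⟨0,[(20,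
  0)]⟩⟩ ⟨false,1,⟨1,[(6,0),(11,0)]⟩,⟨4,[(1,3),(0,0),(4,0),(1,1),(11,0),(0,1),(5,3)]⟩⟩ ⟨true,0,⟨0,
  [(20,0),(1,0)]⟩,⟨2,[(9,0),(1,0),(9,2),(2,0)]⟩⟩]⟩)) (.Q [0,1,-1,0,0,0,0,0,-1,0,0,1] (.p true [0,0,
  0,1] [] (⟨0,[(20,0)]⟩,⟨0,[(19,0)]⟩) .k 0 (⟨0,[]⟩,⟨0,[]⟩) .k .k) (.K ⟨0,[0,0,0,1],0,0,(⟨0,[(21,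
  0)]⟩,⟨0,[(20,0)]⟩),.k,(.r (-1) ⟨1,[(6,0),(12,0)]⟩ ⟨0,[(1,0),(12,0),(1,0),(10,0)]⟩),(.x 0 ⟨0,[(33,
  0)]⟩ ⟨3,[(18,0),(0,0),(11,1),(0,3)]⟩),.k,.k,[⟨0,[(21,0)]⟩,⟨0,[(20,0)]⟩,⟨0,[(0,0)]⟩,⟨0,[(2,0),(8,
  0),(10,0)]⟩]⟩) (.Q [0,0,0,0,0,-1,0,0,0,1,0,-1] (.p false [0,0,0,1] [1] (⟨0,[(21,0)]⟩,⟨0,[(20,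
  0)]⟩) .k 1 (⟨0,[]⟩,⟨0,[]⟩) .k .k) (.R ⟨1,false,false,false,[1,0,0,-1],[0,1],[0,0,0,0,0,0,0,0,-1],
  (⟨0,[(21,0)]⟩,⟨0,[(22,0)]⟩),(⟨0,[(34,0)]⟩,⟨0,[(33,0)]⟩),⟨0,[(0,0)]⟩,.k,.k,(.x (-1) ⟨3,[(19,0),(0,
  0),(11,1),(0,3)]⟩ ⟨0,[(34,0)]⟩),(.x (-1) ⟨3,[(19,0),(0,0),(11,1),(0,3)]⟩ ⟨0,[(34,0)]⟩),(.r (-1)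
  ⟨3,[(2,1),(1,2),(11,0),(2,0),(17,0)]⟩ ⟨0,[(3,0),(11,0),(6,0),(15,0)]⟩),.k,⟨false,1,⟨3,[(2,1),(1,
  1),(14,0),(19,0)]⟩,⟨4,[(1,1),(1,2),(6,1),(4,0),(6,4),(0,1),(11,0)]⟩⟩,⟨true,0,⟨0,[(21,0)]⟩,⟨0,[(15,
  0),(6,0)]⟩⟩,⟨false,1,⟨3,[(19,0),(0,0),(19,1)]⟩,⟨0,[]⟩⟩,⟨false,0,⟨2,[(1,1),(1,0),(4,0),(12,0),(0,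
  0)]⟩,⟨3,[(2,1),(1,1),(10,1),(3,0),(2,3),(9,0)]⟩⟩,⟨true,0,⟨0,[(38,0)]⟩,⟨0,[(37,0)]⟩⟩,⟨false,0,⟨4,
  [(1,1),(1,2),(4,2),(1,0),(12,0)]⟩,⟨3,[(2,1),(1,1),(2,0),(4,0),(2,2),(0,0),(2,0),(2,3),(1,0)]⟩⟩,
  [.o ⟨false,0,⟨0,[(38,0)]⟩,⟨1,[(32,0),(4,1),(2,0)]⟩⟩,.o ⟨false,1,⟨3,[(8,1),(10,0),(0,0),(11,0),(7,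
  0)]⟩,⟨0,[(12,0),(10,0)]⟩⟩,.o ⟨false,1,⟨1,[(22,1),(9,0),(6,0)]⟩,⟨0,[(15,0),(5,0)]⟩⟩,.a ⟨true,0,⟨0,
  [(22,0)]⟩,⟨0,[(21,0)]⟩⟩ ⟨false,1,⟨35,[(2,17),(1,9),(0,1),(2,5),(1,7),(8,8),(4,5),(15,14)]⟩,⟨3,[(1,
  2),(1,0),(11,0),(6,3),(12,0),(1,0)]⟩⟩ ⟨true,0,⟨0,[(21,0),(16,0)]⟩,⟨0,[(12,0),(9,0),(0,0)]⟩⟩]⟩)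
  (.R ⟨0,false,false,false,[1,0,0,-1],[0,1],[1,0,0,0,0,0,0,0,-1],(⟨0,[(21,0)]⟩,⟨0,[(22,0)]⟩),(⟨0,
  [(34,0)]⟩,⟨0,[(33,0)]⟩),⟨0,[(0,0)]⟩,.k,.k,(.x (-1) ⟨3,[(19,0),(0,0),(11,1),(0,3)]⟩ ⟨0,[(34,0)]⟩),
  (.x (-1) ⟨3,[(19,0),(0,0),(11,1),(0,3)]⟩ ⟨0,[(34,0)]⟩),.k,.k,⟨false,1,⟨3,[(2,1),(1,1),(14,0),(19,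
  0)]⟩,⟨4,[(1,1),(1,2),(6,1),(4,0),(6,4),(0,1),(11,0)]⟩⟩,⟨true,0,⟨0,[(21,0)]⟩,⟨0,[(15,0),(6,0)]⟩⟩,
  ⟨true,0,⟨0,[]⟩,⟨0,[(42,0)]⟩⟩,⟨false,0,⟨2,[(1,1),(1,0),(4,0),(12,0),(0,0)]⟩,⟨3,[(2,1),(1,1),(10,1),
  (3,0),(2,3),(9,0)]⟩⟩,⟨false,0,⟨0,[]⟩,⟨0,[]⟩⟩,⟨false,0,⟨0,[]⟩,⟨0,[]⟩⟩,[.o ⟨false,0,⟨0,[(38,0)]⟩,⟨1,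
  [(32,0),(4,1),(2,0)]⟩⟩,.o ⟨false,1,⟨3,[(8,1),(10,0),(0,0),(11,0),(7,0)]⟩,⟨0,[(12,0),(10,0)]⟩⟩,.o
  ⟨false,1,⟨1,[(22,1),(9,0),(6,0)]⟩,⟨0,[(15,0),(5,0)]⟩⟩,.a ⟨true,0,⟨0,[(22,0)]⟩,⟨0,[(21,0)]⟩⟩
  ⟨false,1,⟨35,[(2,17),(1,9),(0,1),(2,5),(1,7),(8,8),(4,5),(15,14)]⟩,⟨3,[(1,2),(1,0),(11,0),(6,3),
  (12,0),(1,0)]⟩⟩ ⟨true,0,⟨0,[(21,0),(16,0)]⟩,⟨0,[(12,0),(9,0),(0,0)]⟩⟩]⟩)))))))) (.R ⟨2,true,false,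
  true,[0,1],[1,-1],[0,1,1,1],(⟨0,[]⟩,⟨0,[]⟩),(⟨0,[(26,0)]⟩,⟨0,[(27,0)]⟩),⟨0,[]⟩,.k,.k,.k,(.r 1 ⟨0,
  [(0,0)]⟩ ⟨2,[(2,1),(6,3),(2,0),(0,0),(18,0),(0,0)]⟩),.k,.k,⟨true,(-1),⟨0,[(0,0)]⟩,⟨1,[(2,0),(6,1),
  (20,0),(2,0)]⟩⟩,⟨false,0,⟨0,[(8,0)]⟩,⟨0,[(14,0),(0,0),(16,0)]⟩⟩,⟨true,0,⟨0,[(35,0)]⟩,⟨0,[]⟩⟩,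
  ⟨false,1,⟨5,[(2,0),(2,1),(3,3),(7,1),(7,1),(4,4),(2,2)]⟩,⟨0,[(1,0)]⟩⟩,⟨false,0,⟨0,[(31,0)]⟩,⟨0,
  [(30,0),(2,0)]⟩⟩,⟨true,0,⟨0,[(5,0),(10,0)]⟩,⟨3,[(1,1),(9,0),(2,0),(0,0),(3,1)]⟩⟩,[]⟩))

theorem ok7 : chk (cU (-1) true 3) t7 l9 = true := by decide +kernel

noncomputable def t8 : Tre :=
  (.I [1,1,1,0,-1,0,0,0,-1] (.Q [0,0,1,0,0,0,1,1,1,1,-1,-1] (.p false [0,0,1] [1,0,0,-1] (⟨0,[(24,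
  0)]⟩,⟨0,[(23,0)]⟩) .k 2 (⟨0,[(14,0)]⟩,⟨0,[(15,0)]⟩) .k (.r (-1) ⟨31,[(2,7),(7,7),(0,3),(0,0),(0,
  16),(7,15),(3,5)]⟩ ⟨1,[(0,1),(21,1),(9,0),(0,0)]⟩)) (.K ⟨0,[0,0,0,1],0,0,(⟨0,[(16,0)]⟩,⟨0,[(15,
  0)]⟩),.k,(.x 0 ⟨1,[(9,1),(11,0),(0,0),(4,1)]⟩ ⟨0,[(28,0),(4,0)]⟩),(.x 0 ⟨0,[(28,0)]⟩ ⟨3,[(13,0),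
  (0,0),(11,1),(0,3)]⟩),.k,.k,[⟨0,[(16,0)]⟩,⟨0,[(15,0)]⟩,⟨0,[(1,0),(14,0),(16,0)]⟩,⟨0,[(0,0),(16,
  0)]⟩]⟩) (.Q [0,1,1,0,0,0,0,0,1,0,0,-1] (.p false [0,0,0,1] [] (⟨0,[(16,0)]⟩,⟨0,[(15,0)]⟩) .k 0
  (⟨0,[]⟩,⟨0,[]⟩) .k .k) (.K ⟨0,[0,0,0,1],0,0,(⟨0,[(17,0)]⟩,⟨0,[(16,0)]⟩),.k,(.r (-1) ⟨0,[(1,0),(5,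
  0),(7,0),(0,0)]⟩ ⟨5,[(2,1),(11,1),(7,0),(0,0),(7,1),(1,5)]⟩),(.x 0 ⟨0,[(29,0)]⟩ ⟨3,[(14,0),(0,0),
  (11,1),(0,3)]⟩),.k,.k,[⟨0,[(17,0)]⟩,⟨0,[(16,0)]⟩,⟨8,[(1,5),(0,0),(10,2),(0,0),(1,2),(0,5),(12,
  3)]⟩,⟨0,[(0,0)]⟩]⟩) (.R ⟨1,false,false,true,[1,0,-1],[0,0,0,1],[],(⟨0,[(25,0)]⟩,⟨0,[(26,0)]⟩),(⟨0,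
  [(17,0)]⟩,⟨0,[(16,0)]⟩),⟨0,[(6,0)]⟩,.k,.k,.k,.k,(.r 0 ⟨4,[(0,0),(0,1),(0,1),(0,0),(1,1),(5,4),(4,
  2),(17,1)]⟩ ⟨7,[(12,3),(1,0),(0,4),(4,3),(2,7),(3,1),(5,3)]⟩),.k,⟨true,0,⟨4,[(0,0),(0,1),(0,1),(0,
  0),(1,1),(10,2),(14,0),(3,1)]⟩,⟨0,[(2,0),(12,0)]⟩⟩,⟨false,0,⟨2,[(5,1),(5,1),(4,2),(5,0),(7,0)]⟩,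
  ⟨5,[(1,3),(2,1),(10,1),(1,1),(5,1),(3,0),(5,1),(1,0)]⟩⟩,⟨false,1,⟨31,[(4,7),(7,7),(0,3),(0,0),(0,
  0),(7,15),(3,5),(7,15)]⟩,⟨0,[(24,0)]⟩⟩,⟨true,0,⟨2,[(2,2),(2,0),(1,0),(7,2),(0,2),(3,0)]⟩,⟨0,[(1,
  0)]⟩⟩,⟨false,1,⟨15,[(4,3),(7,7),(1,0),(0,0),(7,7),(3,3),(5,11),(1,5)]⟩,⟨0,[(11,0)]⟩⟩,⟨false,0,⟨0,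
  [(2,0),(2,0),(9,0),(0,0)]⟩,⟨18,[(1,14),(1,3),(0,2),(6,7),(2,1),(2,3),(3,1),(1,1),(11,13)]⟩⟩,[.a
  ⟨true,0,⟨0,[(2,0),(12,0),(0,0)]⟩,⟨0,[(0,0)]⟩⟩ ⟨false,1,⟨3,[(14,0),(0,0),(18,1)]⟩,⟨0,[]⟩⟩ ⟨true,0,
  ⟨2,[(2,2),(2,1),(5,1),(3,2),(0,2),(5,0),(7,0)]⟩,⟨0,[(0,0),(18,0)]⟩⟩,.o ⟨false,1,⟨1,[(15,0),(0,1),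
  (5,0),(0,0),(3,0)]⟩,⟨2,[(1,2),(3,0),(1,0),(12,0)]⟩⟩,.o ⟨false,1,⟨1,[(23,1),(3,0),(6,0)]⟩,⟨2,[(5,
  1),(5,1),(10,0),(7,0)]⟩⟩,.o ⟨false,0,⟨0,[(19,0)]⟩,⟨0,[(22,0),(11,0)]⟩⟩]⟩))) (.Q [0,1,1,0,-1,0,0,0,
  1,0,0,-1] (.p false [0,0,0,1] [] (⟨0,[(15,0)]⟩,⟨0,[(14,0)]⟩) .k 0 (⟨0,[]⟩,⟨0,[]⟩) .k .k) (.K ⟨0,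
  [0,0,0,1],0,(-1),(⟨0,[(16,0)]⟩,⟨0,[(15,0)]⟩),.k,(.x 0 ⟨1,[(9,1),(11,0),(0,0),(4,1)]⟩ ⟨0,[(28,0),
  (4,0)]⟩),(.x 0 ⟨0,[(28,0)]⟩ ⟨3,[(13,0),(0,0),(11,1),(0,3)]⟩),.k,.k,[⟨0,[(16,0)]⟩,⟨0,[(15,0)]⟩,⟨7,
  [(13,4),(0,0),(1,7),(12,3),(3,1)]⟩,⟨0,[(0,0)]⟩]⟩) (.Q [0,0,0,0,0,-1,0,0,0,1,0,-1] (.p false [0,0,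
  0,1] [1] (⟨0,[(16,0)]⟩,⟨0,[(15,0)]⟩) .k 1 (⟨0,[]⟩,⟨0,[]⟩) .k .k) (.Q [0,1,-1,0,0,0,0,0,-1,0,0,1]
  (.p true [0,0,0,1] [] (⟨0,[(17,0)]⟩,⟨0,[(16,0)]⟩) .k 0 (⟨0,[]⟩,⟨0,[]⟩) .k .k) (.Q [0,1,1,0,0,0,0,
  0,1,0,0,-1] (.p false [0,0,0,1] [] (⟨0,[(18,0)]⟩,⟨0,[(17,0)]⟩) .k 0 (⟨0,[]⟩,⟨0,[]⟩) .k .k) (.K ⟨0,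
  [0,0,0,1],0,0,(⟨0,[(19,0)]⟩,⟨0,[(18,0)]⟩),.k,(.r (-1) ⟨2,[(4,0),(1,0),(6,1),(3,0)]⟩ ⟨0,[(1,0),(10,
  0),(5,0),(14,0),(1,0)]⟩),(.x 0 ⟨0,[(31,0)]⟩ ⟨3,[(16,0),(0,0),(11,1),(0,3)]⟩),.k,.k,[⟨0,[(19,0)]⟩,
  ⟨0,[(18,0)]⟩,⟨0,[(1,0)]⟩,⟨0,[(0,0)]⟩]⟩) (.I [0,-1,-1,0,0,0,0,0,-1] (.R ⟨1,false,false,true,[1,0,0,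
  -1],[1,0,-1],[0,1,0,0,0,0,0,0,-1],(⟨0,[(19,0)]⟩,⟨0,[(20,0)]⟩),(⟨0,[(28,0)]⟩,⟨0,[(29,0)]⟩),⟨0,[(3,
  0)]⟩,.k,.k,(.x (-1) ⟨3,[(17,0),(0,0),(11,1),(0,3)]⟩ ⟨0,[(32,0)]⟩),.k,(.x 0 ⟨7,[(6,4),(1,9),(12,2),
  (3,0),(1,6),(1,7),(1,7),(1,0)]⟩ ⟨1,[(26,1),(1,1),(1,0),(1,1),(4,0)]⟩),.k,⟨false,0,⟨0,[(0,0),(11,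
  0)]⟩,⟨3,[(17,0),(0,2),(8,3)]⟩⟩,⟨true,0,⟨0,[(19,0),(2,0)]⟩,⟨2,[(8,1),(5,1),(5,2),(4,0),(7,0)]⟩⟩,
  ⟨true,0,⟨0,[(40,0)]⟩,⟨0,[]⟩⟩,⟨false,1,⟨1,[(18,0),(0,1),(1,1),(3,0),(0,0),(11,0)]⟩,⟨2,[(1,2),(6,0),
  (1,0),(12,0)]⟩⟩,⟨false,0,⟨0,[(36,0)]⟩,⟨0,[(35,0),(2,0)]⟩⟩,⟨false,1,⟨1,[(18,0),(0,1),(1,1),(3,0),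
  (0,0),(9,1),(1,0)]⟩,⟨0,[(1,0),(8,0)]⟩⟩,[.o ⟨false,0,⟨0,[(21,0)]⟩,⟨7,[(16,3),(0,0),(0,0),(11,1),(7,
  3)]⟩⟩,.o ⟨false,1,⟨1,[(24,1),(5,0),(7,0)]⟩,⟨0,[(11,0)]⟩⟩,.o ⟨false,1,⟨1,[(20,1),(9,0),(6,0)]⟩,⟨0,
  [(13,0),(5,0)]⟩⟩,.a ⟨true,0,⟨0,[(20,0)]⟩,⟨0,[(19,0)]⟩⟩ ⟨false,0,⟨3,[(0,2),(1,0),(10,0),(5,0),(13,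
  0)]⟩,⟨1,[(18,0),(6,0),(0,0),(11,0)]⟩⟩ ⟨true,0,⟨0,[(19,0),(1,0)]⟩,⟨2,[(8,0),(1,0),(9,2),(2,
  0)]⟩⟩]⟩) (.R ⟨1,false,false,true,[1,0,0,-1],[0,1],[0,0,0,0,0,0,0,0,-1],(⟨0,[(19,0)]⟩,⟨0,[(20,
  0)]⟩),(⟨0,[(32,0)]⟩,⟨0,[(31,0)]⟩),⟨0,[(3,0)]⟩,.k,.k,(.x (-1) ⟨3,[(17,0),(0,0),(11,1),(0,3)]⟩ ⟨0,
  [(32,0)]⟩),(.x (-1) ⟨3,[(17,0),(0,0),(11,1),(0,3)]⟩ ⟨0,[(32,0)]⟩),(.r (-1) ⟨15,[(1,9),(4,9),(0,3),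
  (6,7),(2,2),(1,9),(17,6),(0,1)]⟩ ⟨0,[(0,0),(33,0),(1,1)]⟩),.k,⟨false,1,⟨3,[(1,3),(4,1),(12,3),(10,
  0),(6,1),(0,0)]⟩,⟨0,[(0,0),(35,0)]⟩⟩,⟨true,0,⟨0,[(19,0)]⟩,⟨0,[(13,0),(6,0)]⟩⟩,⟨false,1,⟨3,[(17,0),
  (0,0),(19,1)]⟩,⟨0,[]⟩⟩,⟨true,0,⟨0,[(0,0),(18,0),(16,0)]⟩,⟨5,[(1,4),(0,0),(3,3),(1,1),(12,1)]⟩⟩,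
  ⟨true,0,⟨0,[(36,0)]⟩,⟨0,[(35,0)]⟩⟩,⟨true,0,⟨0,[(0,0),(18,0),(16,1)]⟩,⟨0,[(1,0),(4,0)]⟩⟩,[.o
  ⟨false,0,⟨0,[(36,0),(3,0)]⟩,⟨3,[(6,1),(23,0),(7,2)]⟩⟩,.o ⟨false,0,⟨0,[(36,0)]⟩,⟨3,[(6,1),(10,0),
  (0,0),(11,0),(7,0)]⟩⟩,.o ⟨false,1,⟨1,[(20,1),(9,0),(6,0)]⟩,⟨0,[(13,0),(5,0)]⟩⟩,.a ⟨true,0,⟨0,[(20,
  0)]⟩,⟨0,[(19,0)]⟩⟩ ⟨true,0,⟨2,[(1,1),(0,0),(3,0),(1,1),(10,2),(1,1)]⟩,⟨0,[(0,0)]⟩⟩ ⟨false,0,⟨0,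
  [(19,0),(16,0)]⟩,⟨3,[(6,1),(13,3),(9,0),(7,2)]⟩⟩]⟩))) (.I [0,-1,-1,0,1,0,0,1,-1] (.R ⟨1,false,
  false,true,[1,0,0,-1],[1,0,-1],[0,0,0,0,0,0,0,0,-1],(⟨0,[(18,0)]⟩,⟨0,[(19,0)]⟩),(⟨0,[(27,0)]⟩,⟨0,
  [(28,0)]⟩),⟨0,[(2,0)]⟩,.k,.k,(.x (-1) ⟨3,[(16,0),(0,0),(11,1),(0,3)]⟩ ⟨0,[(31,0)]⟩),.k,(.r (-1)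
  ⟨0,[(0,0),(33,0)]⟩ ⟨2,[(1,2),(17,2),(3,0),(0,0),(1,1),(5,0),(2,2)]⟩),.k,⟨false,1,⟨0,[(0,0)]⟩,⟨0,
  [(1,0),(17,0),(6,0),(5,0)]⟩⟩,⟨true,0,⟨0,[(18,0),(2,0)]⟩,⟨2,[(7,1),(5,1),(5,2),(4,0),(7,0)]⟩⟩,
  ⟨false,1,⟨3,[(16,0),(0,0),(19,1)]⟩,⟨0,[]⟩⟩,⟨false,0,⟨0,[(1,0),(21,0)]⟩,⟨2,[(3,2),(3,0),(1,0),(12,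
  0)]⟩⟩,⟨true,0,⟨0,[(35,0)]⟩,⟨0,[(34,0)]⟩⟩,⟨false,0,⟨0,[(1,0),(21,0),(11,0)]⟩,⟨0,[(3,0),(5,0)]⟩⟩,
  [.o ⟨false,0,⟨0,[(20,0)]⟩,⟨7,[(15,3),(0,0),(0,0),(11,1),(7,3)]⟩⟩,.o ⟨false,1,⟨1,[(23,1),(5,0),(7,
  0)]⟩,⟨0,[(10,0)]⟩⟩,.o ⟨false,1,⟨1,[(19,1),(9,0),(6,0)]⟩,⟨0,[(12,0),(5,0)]⟩⟩,.a ⟨true,0,⟨0,[(19,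
  0)]⟩,⟨0,[(18,0)]⟩⟩ ⟨false,1,⟨0,[(0,0),(25,0)]⟩,⟨0,[(1,0),(17,0),(19,0)]⟩⟩ ⟨true,0,⟨0,[(18,0),(1,
  0)]⟩,⟨2,[(7,0),(1,0),(9,2),(2,0)]⟩⟩]⟩) (.I [0,1,-2,-1,1,0,0,0,-1] (.R ⟨1,false,false,false,[1,0,0,
  -1],[0,1],[0,1,0,0,0,0,0,0,-1],(⟨0,[(19,0)]⟩,⟨0,[(20,0)]⟩),(⟨0,[(32,0)]⟩,⟨0,[(31,0)]⟩),⟨0,[(3,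
  0)]⟩,.k,.k,(.x (-1) ⟨3,[(17,0),(0,0),(11,1),(0,3)]⟩ ⟨0,[(32,0)]⟩),(.x (-1) ⟨3,[(17,0),(0,0),(11,
  1),(0,3)]⟩ ⟨0,[(32,0)]⟩),(.r (-2) ⟨0,[(0,0),(34,0),(2,0)]⟩ ⟨0,[(1,0),(6,0),(17,0),(9,0)]⟩),.k,
  ⟨false,1,⟨0,[(0,0)]⟩,⟨2,[(1,1),(3,0),(2,1),(17,1),(9,0),(1,0)]⟩⟩,⟨true,0,⟨0,[(19,0)]⟩,⟨0,[(13,0),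
  (6,0)]⟩⟩,⟨true,0,⟨0,[(40,0)]⟩,⟨0,[]⟩⟩,⟨false,0,⟨0,[(2,0),(12,0),(8,0)]⟩,⟨15,[(4,13),(1,9),(1,3),
  (8,0),(2,1),(0,3),(8,0),(2,1)]⟩⟩,⟨false,0,⟨0,[(36,0)]⟩,⟨0,[(35,0),(2,0)]⟩⟩,⟨false,0,⟨0,[(2,0),(12,
  0),(8,0),(11,0)]⟩,⟨0,[(4,0),(1,0)]⟩⟩,[.o ⟨false,0,⟨0,[(36,0)]⟩,⟨3,[(6,1),(10,0),(0,0),(11,0),(7,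
  0)]⟩⟩,.o ⟨false,1,⟨3,[(17,0),(0,0),(17,3),(1,1)]⟩,⟨4,[(6,2),(1,0),(4,0),(7,0),(11,0)]⟩⟩,.o ⟨false,
  1,⟨1,[(20,1),(9,0),(6,0)]⟩,⟨0,[(13,0),(5,0)]⟩⟩,.a ⟨true,0,⟨0,[(20,0)]⟩,⟨0,[(19,0)]⟩⟩ ⟨false,1,⟨1,
  [(17,0),(19,0)]⟩,⟨0,[(2,0),(17,0)]⟩⟩ ⟨true,0,⟨0,[(19,0),(16,0)]⟩,⟨4,[(6,2),(1,0),(4,0),(6,4),(0,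
  0),(11,0)]⟩⟩]⟩) (.R ⟨1,false,false,true,[1,0,0,-1],[0,1],[1,0,0,-1,0,0,0,0,-1],(⟨0,[(19,0)]⟩,⟨0,
  [(20,0)]⟩),(⟨0,[(32,0)]⟩,⟨0,[(31,0)]⟩),⟨0,[(3,0)]⟩,.k,.k,(.x (-1) ⟨3,[(17,0),(0,0),(11,1),(0,3)]⟩
  ⟨0,[(32,0)]⟩),(.x (-1) ⟨3,[(17,0),(0,0),(11,1),(0,3)]⟩ ⟨0,[(32,0)]⟩),(.r (-2) ⟨5,[(5,1),(1,3),(6,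
  7),(2,3),(19,0),(0,0)]⟩ ⟨0,[(0,0),(35,0),(3,0)]⟩),.k,⟨false,2,⟨1,[(4,1),(1,1),(12,1),(17,0),(0,
  0)]⟩,⟨0,[(0,0),(32,0),(2,0)]⟩⟩,⟨true,0,⟨0,[(19,0)]⟩,⟨0,[(13,0),(6,0)]⟩⟩,⟨false,1,⟨0,[(35,0),(2,
  0)]⟩,⟨0,[(36,0)]⟩⟩,⟨true,(-1),⟨0,[(0,0),(18,0),(13,0)]⟩,⟨15,[(4,13),(1,9),(1,3),(8,0),(2,1),(0,3),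
  (8,0),(2,1)]⟩⟩,⟨true,0,⟨0,[]⟩,⟨0,[(40,0)]⟩⟩,⟨true,(-1),⟨0,[(0,0),(18,0),(13,0),(2,0)]⟩,⟨0,[(4,0),
  (1,0)]⟩⟩,[.o ⟨false,0,⟨0,[(36,0),(3,0)]⟩,⟨3,[(6,1),(23,0),(7,2)]⟩⟩,.o ⟨false,0,⟨0,[(36,0)]⟩,⟨3,
  [(6,1),(10,0),(0,0),(11,0),(7,0)]⟩⟩,.o ⟨false,1,⟨1,[(20,1),(9,0),(6,0)]⟩,⟨0,[(13,0),(5,0)]⟩⟩,.a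
  ⟨true,0,⟨0,[(20,0)]⟩,⟨0,[(19,0)]⟩⟩ ⟨true,1,⟨3,[(4,1),(1,1),(10,0),(1,1),(17,0)]⟩,⟨0,[(0,0),(32,
  0)]⟩⟩ ⟨false,0,⟨0,[(19,0),(16,0)]⟩,⟨3,[(6,1),(13,3),(9,0),(7,2)]⟩⟩]⟩)))) (.Q [0,1,1,0,-1,0,1,1,1,
  1,-1,-1] (.p false [0,0,1] [1,0,0,-1] (⟨0,[(26,0)]⟩,⟨0,[(25,0)]⟩) .k 2 (⟨0,[(16,0)]⟩,⟨0,[(17,
  0)]⟩) .k (.x 0 ⟨0,[(22,0),(3,0)]⟩ ⟨0,[(19,0),(5,0),(8,0)]⟩)) (.R ⟨0,false,false,true,[1,0,0,-1],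
  [0,0,1],[0,1,1,0,0,0,0,1],(⟨0,[(17,0)]⟩,⟨0,[(18,0)]⟩),(⟨0,[(27,0)]⟩,⟨0,[(26,0)]⟩),⟨0,[(1,0)]⟩,.k,
  .k,(.x (-1) ⟨3,[(15,0),(0,0),(11,1),(0,3)]⟩ ⟨0,[(30,0)]⟩),.k,.k,.k,⟨true,0,⟨1,[(23,0),(0,0)]⟩,⟨0,
  []⟩⟩,⟨false,0,⟨2,[(6,1),(5,1),(4,2),(5,0),(7,0)]⟩,⟨0,[(18,0),(1,0),(14,0)]⟩⟩,⟨false,0,⟨19,[(0,8),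
  (2,4),(1,0),(0,4),(1,3),(7,2),(1,8),(1,8),(3,8)]⟩,⟨0,[(2,0),(3,0),(5,0),(4,0),(1,0)]⟩⟩,⟨true,(-1),
  ⟨0,[(0,0)]⟩,⟨0,[(2,0),(16,0)]⟩⟩,⟨false,0,⟨0,[]⟩,⟨0,[]⟩⟩,⟨false,0,⟨0,[]⟩,⟨0,[]⟩⟩,[.o ⟨false,0,⟨0,
  [(21,0)]⟩,⟨0,[(19,0),(16,0)]⟩⟩,.o ⟨false,0,⟨0,[(9,0)]⟩,⟨1,[(22,1),(5,0),(7,0)]⟩⟩,.o ⟨false,1,⟨1,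
  [(18,1),(9,0),(6,0)]⟩,⟨0,[(11,0),(5,0)]⟩⟩,.a ⟨true,0,⟨0,[(18,0)]⟩,⟨0,[(17,0)]⟩⟩ ⟨true,0,⟨0,[(10,
  0)]⟩,⟨0,[(25,0)]⟩⟩ ⟨false,0,⟨2,[(6,0),(1,0),(8,2),(3,0)]⟩,⟨0,[(18,0),(0,0),(16,0)]⟩⟩]⟩) (.Q [0,-1,
  1,1,0,0,0,0,1,1,0,-1] (.p false [0,0,0,1] [1] (⟨0,[(18,0)]⟩,⟨0,[(17,0)]⟩) .k 1 (⟨0,[]⟩,⟨0,[]⟩) .k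
  .k) (.I [1,-1,1,1,0,0,0,0,1] (.I [0,0,0,0,0,0,0,-1,-1] (.R ⟨0,false,false,false,[1,0,0,-1],[0,1],
  [0,1,0,-1,0,0,0,0,-1],(⟨0,[(20,0)]⟩,⟨0,[(21,0)]⟩),(⟨0,[(33,0)]⟩,⟨0,[(32,0)]⟩),⟨0,[(4,0)]⟩,.k,.k,
  (.x (-1) ⟨3,[(18,0),(0,0),(11,1),(0,3)]⟩ ⟨0,[(33,0)]⟩),(.x (-1) ⟨3,[(18,0),(0,0),(11,1),(0,3)]⟩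
  ⟨0,[(33,0)]⟩),.k,.k,⟨false,1,⟨0,[(0,0),(7,0),(6,0)]⟩,⟨0,[(1,0),(35,0)]⟩⟩,⟨true,0,⟨0,[(20,0)]⟩,⟨0,
  [(14,0),(6,0)]⟩⟩,⟨true,0,⟨0,[(36,0)]⟩,⟨0,[(37,0)]⟩⟩,⟨false,0,⟨0,[(2,0)]⟩,⟨1,[(3,0),(1,0),(1,0),
  (16,0)]⟩⟩,⟨false,0,⟨0,[]⟩,⟨0,[]⟩⟩,⟨false,0,⟨0,[]⟩,⟨0,[]⟩⟩,[.o ⟨false,0,⟨0,[(37,0)]⟩,⟨3,[(7,1),(10,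
  0),(0,0),(11,0),(7,0)]⟩⟩,.o ⟨false,1,⟨1,[(1,0),(4,0),(11,0),(18,0)]⟩,⟨4,[(7,2),(1,0),(4,0),(7,0),
  (11,0)]⟩⟩,.o ⟨false,1,⟨1,[(21,1),(9,0),(6,0)]⟩,⟨0,[(14,0),(5,0)]⟩⟩,.a ⟨true,0,⟨0,[(21,0)]⟩,⟨0,
  [(20,0)]⟩⟩ ⟨false,1,⟨3,[(5,1),(1,1),(10,0),(1,1),(17,0)]⟩,⟨0,[(1,0)]⟩⟩ ⟨true,0,⟨0,[(20,0),(16,
  0)]⟩,⟨4,[(7,2),(1,0),(4,0),(6,4),(0,0),(11,0)]⟩⟩]⟩) (.R ⟨0,false,false,false,[1,0,0,-1],[0,1],[0,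
  1,0,0,0,0,0,0,-1],(⟨0,[(20,0)]⟩,⟨0,[(21,0)]⟩),(⟨0,[(33,0)]⟩,⟨0,[(32,0)]⟩),⟨0,[(4,0)]⟩,.k,.k,(.x
  (-1) ⟨3,[(18,0),(0,0),(11,1),(0,3)]⟩ ⟨0,[(33,0)]⟩),(.x (-1) ⟨3,[(18,0),(0,0),(11,1),(0,3)]⟩ ⟨0,
  [(33,0)]⟩),.k,.k,⟨false,1,⟨0,[(3,0),(7,0),(8,0),(13,0)]⟩,⟨0,[(1,0)]⟩⟩,⟨true,0,⟨0,[(20,0)]⟩,⟨0,
  [(14,0),(6,0)]⟩⟩,⟨true,0,⟨0,[(41,0)]⟩,⟨0,[]⟩⟩,⟨false,0,⟨0,[(2,0)]⟩,⟨1,[(3,0),(1,0),(1,0),(16,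
  0)]⟩⟩,⟨false,0,⟨0,[]⟩,⟨0,[]⟩⟩,⟨false,0,⟨0,[]⟩,⟨0,[]⟩⟩,[.o ⟨false,0,⟨0,[(37,0)]⟩,⟨3,[(7,1),(10,0),
  (0,0),(11,0),(7,0)]⟩⟩,.o ⟨false,1,⟨1,[(1,0),(4,0),(11,0),(18,0)]⟩,⟨4,[(7,2),(1,0),(4,0),(7,0),(11,
  0)]⟩⟩,.o ⟨false,1,⟨1,[(21,1),(9,0),(6,0)]⟩,⟨0,[(14,0),(5,0)]⟩⟩,.a ⟨true,0,⟨0,[(21,0)]⟩,⟨0,[(20,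
  0)]⟩⟩ ⟨false,1,⟨1,[(18,0),(19,0)]⟩,⟨1,[(0,0),(0,0),(13,0),(19,0)]⟩⟩ ⟨true,0,⟨0,[(20,0),(16,0)]⟩,
  ⟨4,[(7,2),(1,0),(4,0),(6,4),(0,0),(11,0)]⟩⟩]⟩)) (.R ⟨0,false,false,false,[1,0,0,-1],[0,1],[0,0,1],
  (⟨0,[(19,0)]⟩,⟨0,[(20,0)]⟩),(⟨0,[(32,0)]⟩,⟨0,[(31,0)]⟩),⟨0,[(3,0)]⟩,.k,.k,(.x (-1) ⟨3,[(17,0),(0,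
  0),(11,1),(0,3)]⟩ ⟨0,[(32,0)]⟩),(.x (-1) ⟨3,[(17,0),(0,0),(11,1),(0,3)]⟩ ⟨0,[(32,0)]⟩),.k,.k,
  ⟨false,1,⟨11,[(5,3),(1,3),(6,7),(2,2),(0,0)]⟩,⟨0,[(36,0)]⟩⟩,⟨true,0,⟨0,[(19,0)]⟩,⟨0,[(13,0),(6,
  0)]⟩⟩,⟨true,0,⟨4,[(1,4),(4,2),(1,0),(4,0),(6,4),(0,0),(11,0)]⟩,⟨0,[(0,0),(35,0)]⟩⟩,⟨false,0,⟨0,
  [(1,0)]⟩,⟨2,[(0,0),(3,1),(1,0),(13,0),(9,0)]⟩⟩,⟨false,0,⟨0,[]⟩,⟨0,[]⟩⟩,⟨false,0,⟨0,[]⟩,⟨0,[]⟩⟩,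
  [.o ⟨false,0,⟨0,[(36,0)]⟩,⟨3,[(6,1),(10,0),(0,0),(11,0),(7,0)]⟩⟩,.o ⟨false,1,⟨11,[(1,3),(0,3),(12,
  3),(1,2),(0,2),(11,1),(5,3)]⟩,⟨4,[(6,2),(1,0),(4,0),(7,0),(11,0)]⟩⟩,.o ⟨false,1,⟨1,[(20,1),(9,0),
  (6,0)]⟩,⟨0,[(13,0),(5,0)]⟩⟩,.a ⟨true,0,⟨0,[(20,0)]⟩,⟨0,[(19,0)]⟩⟩ ⟨false,1,⟨3,[(17,0),(0,0),(19,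
  1)]⟩,⟨0,[]⟩⟩ ⟨true,0,⟨0,[(19,0),(16,0)]⟩,⟨4,[(6,2),(1,0),(4,0),(6,4),(0,0),(11,0)]⟩⟩]⟩)) (.Q [0,1,
  1,0,0,0,0,0,1,0,0,-1] (.p false [0,0,0,1] [] (⟨0,[(19,0)]⟩,⟨0,[(18,0)]⟩) .k 0 (⟨0,[]⟩,⟨0,[]⟩) .k
  .k) (.K ⟨0,[0,0,0,1],0,0,(⟨0,[(20,0)]⟩,⟨0,[(19,0)]⟩),.k,(.r (-1) ⟨2,[(5,0),(1,0),(6,1),(3,0)]⟩ ⟨1,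
  [(1,1),(17,1),(5,0),(0,0),(7,1),(1,3)]⟩),(.x 0 ⟨0,[(32,0)]⟩ ⟨3,[(17,0),(0,0),(11,1),(0,3)]⟩),.k,
  .k,[⟨0,[(20,0)]⟩,⟨0,[(19,0)]⟩,⟨0,[(1,0),(13,0),(8,0)]⟩,⟨0,[(0,0)]⟩]⟩) (.I [1,-1,-1,0,0,0,0,0,-1]
  (.R ⟨0,false,false,true,[1,0,0,-1],[1,0,-1],[0,1,0,0,0,0,0,0,-1],(⟨0,[(20,0)]⟩,⟨0,[(21,0)]⟩),(⟨0,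
  [(29,0)]⟩,⟨0,[(30,0)]⟩),⟨0,[(4,0)]⟩,.k,.k,(.x (-1) ⟨3,[(18,0),(0,0),(11,1),(0,3)]⟩ ⟨0,[(33,0)]⟩),
  .k,.k,.k,⟨false,0,⟨0,[(0,0),(12,0)]⟩,⟨3,[(18,0),(0,2),(8,3)]⟩⟩,⟨true,0,⟨0,[(20,0),(2,0)]⟩,⟨2,[(9,
  1),(5,1),(5,2),(4,0),(7,0)]⟩⟩,⟨true,0,⟨0,[(41,0)]⟩,⟨0,[]⟩⟩,⟨false,1,⟨1,[(19,0),(0,1),(1,1),(3,0),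
  (0,0),(11,0)]⟩,⟨4,[(1,3),(0,0),(6,1),(1,0),(5,0)]⟩⟩,⟨false,0,⟨0,[]⟩,⟨0,[]⟩⟩,⟨false,0,⟨0,[]⟩,⟨0,
  []⟩⟩,[.o ⟨false,0,⟨0,[(22,0)]⟩,⟨7,[(17,3),(0,0),(0,0),(11,1),(7,3)]⟩⟩,.o ⟨false,1,⟨1,[(25,1),(5,
  0),(7,0)]⟩,⟨0,[(12,0)]⟩⟩,.o ⟨false,1,⟨1,[(21,1),(9,0),(6,0)]⟩,⟨0,[(14,0),(5,0)]⟩⟩,.a ⟨true,0,⟨0,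
  [(21,0)]⟩,⟨0,[(20,0)]⟩⟩ ⟨false,0,⟨0,[(0,0),(40,0)]⟩,⟨1,[(19,0),(6,0),(0,0),(11,0)]⟩⟩ ⟨true,0,⟨0,
  [(20,0),(1,0)]⟩,⟨2,[(9,0),(1,0),(9,2),(2,0)]⟩⟩]⟩) (.R ⟨0,false,false,false,[1,0,0,-1],[1,0,-1],[0,
  1,1],(⟨0,[(20,0)]⟩,⟨0,[(21,0)]⟩),(⟨0,[(29,0)]⟩,⟨0,[(30,0)]⟩),⟨0,[(4,0)]⟩,.k,.k,(.x (-1) ⟨3,[(18,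
  0),(0,0),(11,1),(0,3)]⟩ ⟨0,[(33,0)]⟩),.k,.k,.k,⟨false,0,⟨0,[(13,0)]⟩,⟨1,[(28,1),(9,0),(0,0)]⟩⟩,
  ⟨true,0,⟨0,[(20,0),(2,0)]⟩,⟨2,[(9,1),(5,1),(5,2),(4,0),(7,0)]⟩⟩,⟨true,0,⟨0,[(0,0)]⟩,⟨1,[(1,0),(0,
  0),(6,0),(10,1),(1,0)]⟩⟩,⟨false,1,⟨1,[(19,0),(0,1),(1,1),(12,1),(3,0)]⟩,⟨0,[(1,0),(22,0)]⟩⟩,
  ⟨false,0,⟨0,[]⟩,⟨0,[]⟩⟩,⟨false,0,⟨0,[]⟩,⟨0,[]⟩⟩,[.o ⟨false,1,⟨1,[(25,1),(5,0),(7,0)]⟩,⟨0,[(12,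
  0)]⟩⟩,.o ⟨false,1,⟨0,[(22,0),(16,0)]⟩,⟨0,[(24,0)]⟩⟩,.o ⟨false,1,⟨1,[(21,1),(9,0),(6,0)]⟩,⟨0,[(14,
  0),(5,0)]⟩⟩,.a ⟨true,0,⟨0,[(21,0)]⟩,⟨0,[(20,0)]⟩⟩ ⟨true,0,⟨0,[(41,0)]⟩,⟨0,[]⟩⟩ ⟨false,1,⟨0,[(20,
  0),(1,0),(16,0)]⟩,⟨2,[(9,0),(1,0),(9,2),(2,0)]⟩⟩]⟩))))))))

theorem ok8 : chk (cU (-1) true 3) t8 r9 = true := by decide +kernel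

noncomputable def t9 : Tre :=
  .Q [0,-1,0,2,0,0,0,0,0,1] (.pp false [-1,1]) t7 t8

theorem ok9 : chk (cU (-1) true 3) t9 r8 = true :=
  chk_Q (e' := [0,1,0,-2,0,0,0,0,0,-1]) (by decide +kernel) (by decide +kernel) ok7 ok8

noncomputable def t10 : Tre :=
  .I [1,-1,2,1,-1,0,0,-2] t6 t9

theorem ok10 : chk (cU (-1) true 3) t10 r7 = true :=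
  chk_I (e' := [0,1,-2,-1,1,0,0,2]) (by decide +kernel) (by decide +kernel) ok6 ok9

noncomputable def t11 : Tre :=
  .Q [0,1,0,-1,0,0,-1,-1,0,0,1] (.p true [0,0,1] [] (⟨0,[(20,0)]⟩,⟨0,[(19,0)]⟩) .k 0 (⟨0,[]⟩,⟨0,
  []⟩) .k .k) t5 t10

theorem ok11 : chk (cU (-1) true 3) t11 l6 = true :=
  chk_Q (e' := [0,-1,0,1,0,0,1,1,0,0,-1]) (by decide +kernel) (by decide +kernel) ok5 ok10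

noncomputable def t12 : Tre :=
  (.Q [0,0,-1,0,0,0,1,0,0,2,-1] (.p false [-1,1,1] [1] (⟨0,[(0,0)]⟩,⟨0,[(19,0),(2,0)]⟩) .k 1 (⟨0,
  []⟩,⟨0,[]⟩) .k .k) (.R ⟨0,false,false,false,[-1,1,1],[0,0,1],[1,0,1],(⟨0,[(1,0)]⟩,⟨0,[(20,0),(2,
  0)]⟩),(⟨0,[(21,0)]⟩,⟨0,[(20,0)]⟩),⟨0,[(20,0)]⟩,.k,.k,.k,.k,.k,.k,⟨false,0,⟨0,[(19,0)]⟩,⟨1,[(4,1),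
  (24,0),(0,0)]⟩⟩,⟨true,0,⟨0,[(5,0)]⟩,⟨1,[(0,0),(17,0)]⟩⟩,⟨true,0,⟨0,[(6,0)]⟩,⟨0,[(4,0),(23,0)]⟩⟩,
  ⟨false,1,⟨3,[(2,1),(3,1),(7,1),(7,0),(6,0),(0,1)]⟩,⟨0,[(7,0),(8,0)]⟩⟩,⟨false,0,⟨0,[]⟩,⟨0,[]⟩⟩,
  ⟨false,0,⟨0,[]⟩,⟨0,[]⟩⟩,[.o ⟨false,0,⟨0,[(3,0)]⟩,⟨1,[(16,1),(5,0),(7,0)]⟩⟩,.o ⟨false,1,⟨7,[(8,3),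
  (0,0),(0,0),(11,1),(7,3)]⟩,⟨0,[(13,0)]⟩⟩,.a ⟨true,0,⟨0,[(0,0)]⟩,⟨0,[(14,0)]⟩⟩ ⟨false,0,⟨0,[(26,
  0)]⟩,⟨3,[(9,0),(0,0),(18,1)]⟩⟩ ⟨true,0,⟨0,[(3,0),(10,0)]⟩,⟨0,[(0,0),(12,0)]⟩⟩,.o ⟨false,0,⟨1,[(0,
  0),(16,0)]⟩,⟨1,[(14,1),(7,0),(6,0)]⟩⟩]⟩) (.Q [0,0,0,0,0,1,0,0,0,0,-1] (.ed true [1,-1,1] .k) (.Q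
  [0,0,0,1,0,0,-1,-1,0,1,1] (.p true [1,-1,1] [] (⟨0,[(22,0),(1,0)]⟩,⟨0,[(0,0)]⟩) .k 0 (⟨0,[]⟩,⟨0,
  []⟩) .k .k) (.R ⟨0,false,false,false,[0,0,1],[1,-1,1],[1],(⟨0,[(23,0)]⟩,⟨0,[(22,0)]⟩),(⟨0,[(23,0),
  (1,0)]⟩,⟨0,[(1,0)]⟩),⟨0,[(1,0)]⟩,.k,.k,.k,.k,.k,.k,⟨false,0,⟨0,[(21,0),(8,0)]⟩,⟨0,[(4,0),(15,0),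
  (10,0)]⟩⟩,⟨true,0,⟨0,[(7,0)]⟩,⟨0,[(0,0),(3,0)]⟩⟩,⟨true,0,⟨0,[(21,0)]⟩,⟨0,[(6,0)]⟩⟩,⟨false,1,⟨5,
  [(2,1),(1,1),(3,1),(15,0),(4,1),(1,0),(0,3)]⟩,⟨2,[(0,1),(8,0),(7,0)]⟩⟩,⟨false,0,⟨0,[]⟩,⟨0,[]⟩⟩,
  ⟨false,0,⟨0,[]⟩,⟨0,[]⟩⟩,[.a ⟨true,0,⟨0,[(4,0)]⟩,⟨0,[(0,0)]⟩⟩ ⟨true,0,⟨0,[]⟩,⟨1,[(19,0),(0,0)]⟩⟩
  ⟨false,1,⟨1,[(2,0),(1,1),(15,0),(10,1)]⟩,⟨4,[(0,2),(8,1),(9,0),(1,3),(5,0)]⟩⟩,.o ⟨false,1,⟨1,[(4,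
  1),(19,0),(7,0)]⟩,⟨1,[(0,0),(14,0),(14,0),(3,0)]⟩⟩,.o ⟨false,0,⟨0,[(5,0),(15,0)]⟩,⟨1,[(20,1),(3,
  0),(6,0)]⟩⟩,.o ⟨false,0,⟨0,[(19,0)]⟩,⟨1,[(2,0),(17,0),(10,1)]⟩⟩]⟩) (.I [0,1,1,1,-1,0,0,1,-1] (.Q
  [0,1,1,0,0,0,0,0,1,0,0,-1] (.p false [0,0,0,1] [] (⟨0,[(15,0)]⟩,⟨0,[(14,0)]⟩) .k 0 (⟨0,[]⟩,⟨0,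
  []⟩) .k .k) (.K ⟨0,[0,0,0,1],0,0,(⟨0,[(16,0)]⟩,⟨0,[(15,0)]⟩),.k,(.x 0 ⟨1,[(4,0),(16,1),(0,0),(4,
  1)]⟩ ⟨0,[(28,0),(4,0)]⟩),(.x 0 ⟨0,[(28,0)]⟩ ⟨3,[(13,0),(0,0),(11,1),(0,3)]⟩),.k,.k,[⟨0,[(16,0)]⟩,
  ⟨0,[(15,0)]⟩,⟨0,[(1,0),(8,0),(5,0),(16,0)]⟩,⟨0,[(0,0)]⟩]⟩) (.R ⟨0,false,false,true,[0,0,1],[0,0,0,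
  1],[0,1,0,0,0,0,0,1],(⟨0,[(25,0)]⟩,⟨0,[(24,0)]⟩),(⟨0,[(16,0)]⟩,⟨0,[(15,0)]⟩),⟨0,[(3,0)]⟩,.k,.k,.k,
  .k,.k,.k,⟨false,0,⟨1,[(0,2),(0,0),(0,0),(1,0),(9,0),(0,2),(13,0)]⟩,⟨3,[(13,0),(0,2),(8,3)]⟩⟩,
  ⟨true,0,⟨1,[(4,0),(10,1),(6,0)]⟩,⟨4,[(2,1),(8,1),(4,4),(4,0),(1,3),(5,0)]⟩⟩,⟨true,0,⟨0,[(36,0)]⟩,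
  ⟨0,[]⟩⟩,⟨false,1,⟨1,[(14,0),(0,1),(1,1),(3,0),(0,0),(11,0)]⟩,⟨2,[(0,2),(1,0),(8,0),(7,0)]⟩⟩,
  ⟨false,0,⟨0,[]⟩,⟨0,[]⟩⟩,⟨false,0,⟨0,[]⟩,⟨0,[]⟩⟩,[.a ⟨true,0,⟨0,[(1,0),(8,0),(3,0),(0,0)]⟩,⟨0,[(0,
  0)]⟩⟩ ⟨true,0,⟨0,[(8,0)]⟩,⟨0,[(23,0),(6,0)]⟩⟩ ⟨false,1,⟨3,[(4,0),(9,1),(0,3),(6,2),(3,0),(2,1),(3,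
  0)]⟩,⟨4,[(0,4),(1,1),(8,1),(9,0),(1,3),(5,0)]⟩⟩,.o ⟨false,1,⟨1,[(14,0),(0,1),(5,0),(0,0),(3,0)]⟩,
  ⟨14,[(0,13),(0,0),(0,5),(13,0),(0,6),(3,0),(4,0),(2,2),(2,4)]⟩⟩,.o ⟨false,0,⟨4,[(2,1),(8,1),(9,0),
  (1,3),(5,0)]⟩,⟨1,[(22,1),(3,0),(6,0)]⟩⟩,.o ⟨false,0,⟨0,[(21,0)]⟩,⟨1,[(4,0),(17,0),(10,1)]⟩⟩]⟩))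
  (.Q [0,1,1,0,-1,0,0,0,1,0,0,-1] (.p false [0,0,0,1] [] (⟨0,[(15,0)]⟩,⟨0,[(14,0)]⟩) .k 0 (⟨0,[]⟩,
  ⟨0,[]⟩) .k .k) (.K ⟨0,[0,0,0,1],0,(-1),(⟨0,[(16,0)]⟩,⟨0,[(15,0)]⟩),.k,(.x 0 ⟨1,[(4,0),(16,1),(0,
  0),(4,1)]⟩ ⟨0,[(28,0),(4,0)]⟩),(.x 0 ⟨0,[(28,0)]⟩ ⟨3,[(13,0),(0,0),(11,1),(0,3)]⟩),.k,.k,[⟨0,[(16,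
  0)]⟩,⟨0,[(15,0)]⟩,⟨7,[(13,4),(0,0),(1,7),(12,3),(3,1)]⟩,⟨0,[(0,0)]⟩]⟩) (.Q [0,-1,1,1,0,0,0,0,1,1,
  0,-1] (.p false [0,0,0,1] [1] (⟨0,[(16,0)]⟩,⟨0,[(15,0)]⟩) .k 1 (⟨0,[]⟩,⟨0,[]⟩) .k .k) (.Q [0,1,-1,
  0,0,0,0,0,-1,0,0,1] (.p true [0,0,0,1] [] (⟨0,[(17,0)]⟩,⟨0,[(16,0)]⟩) .k 0 (⟨0,[]⟩,⟨0,[]⟩) .k .k)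
  (.K ⟨0,[0,0,0,1],0,0,(⟨0,[(18,0)]⟩,⟨0,[(17,0)]⟩),.k,(.r (-1) ⟨0,[(3,0),(6,0)]⟩ ⟨1,[(0,1),(5,0),
  (10,1),(5,0),(8,1),(1,1)]⟩),(.x 0 ⟨0,[(30,0)]⟩ ⟨3,[(15,0),(0,0),(11,1),(0,3)]⟩),.k,.k,[⟨0,[(18,
  0)]⟩,⟨0,[(17,0)]⟩,⟨0,[(0,0)]⟩,⟨3,[(1,3),(2,0),(1,0),(12,0),(3,0),(7,1),(1,2)]⟩]⟩) (.I [1,1,1,0,-1,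
  0,0,0,1] (.R ⟨0,false,false,true,[1,0,-1],[0,0,0,1],[],(⟨0,[(27,0)]⟩,⟨0,[(28,0)]⟩),(⟨0,[(19,0)]⟩,
  ⟨0,[(18,0)]⟩),⟨0,[(8,0)]⟩,.k,.k,.k,.k,.k,.k,⟨true,1,⟨1,[(16,0),(20,0)]⟩,⟨0,[(0,0)]⟩⟩,⟨false,0,⟨4,
  [(5,1),(8,1),(3,4),(5,0),(1,3),(5,0)]⟩,⟨1,[(7,0),(11,1),(5,0),(10,1)]⟩⟩,⟨false,1,⟨0,[(11,0),(25,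
  0)]⟩,⟨0,[(26,0)]⟩⟩,⟨true,(-1),⟨2,[(0,2),(4,0),(8,0),(3,2),(3,0)]⟩,⟨0,[(3,0),(16,0)]⟩⟩,⟨false,0,⟨0,
  []⟩,⟨0,[]⟩⟩,⟨false,0,⟨0,[]⟩,⟨0,[]⟩⟩,[.a ⟨true,(-1),⟨0,[(0,0),(17,0)]⟩,⟨0,[(3,0)]⟩⟩ ⟨false,1,⟨3,
  [(16,0),(0,0),(18,1)]⟩,⟨0,[]⟩⟩ ⟨true,(-1),⟨4,[(0,4),(4,1),(8,1),(3,4),(5,0),(1,3),(5,0)]⟩,⟨1,[(3,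
  1),(3,0),(17,0)]⟩⟩,.o ⟨false,0,⟨2,[(0,0),(0,0),(0,0),(15,0),(10,0),(4,0)]⟩,⟨9,[(3,7),(1,3),(10,0),
  (2,1),(0,3),(8,0),(2,1),(2,3)]⟩⟩,.o ⟨false,1,⟨1,[(25,1),(3,0),(6,0)]⟩,⟨4,[(5,1),(8,1),(9,0),(1,3),
  (5,0)]⟩⟩,.o ⟨false,0,⟨0,[(21,0)]⟩,⟨0,[(24,0),(11,0)]⟩⟩]⟩) (.Q [0,0,0,0,0,1,0,0,0,-1,0,1] (.p true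
  [0,0,0,1] [1] (⟨0,[(19,0)]⟩,⟨0,[(18,0)]⟩) .k 1 (⟨0,[]⟩,⟨0,[]⟩) .k .k) (.I [1,-1,-1,0,1,0,0,1,-1]
  (.R ⟨0,false,false,false,[1,0,0,-1],[0,1],[0,1,0,0,0,0,0,0,-1],(⟨0,[(20,0)]⟩,⟨0,[(21,0)]⟩),(⟨0,
  [(33,0)]⟩,⟨0,[(32,0)]⟩),⟨0,[(1,0)]⟩,.k,.k,(.x (-1) ⟨3,[(18,0),(0,0),(11,1),(0,3)]⟩ ⟨0,[(33,0)]⟩),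
  (.x (-1) ⟨3,[(18,0),(0,0),(11,1),(0,3)]⟩ ⟨0,[(33,0)]⟩),.k,.k,⟨false,1,⟨0,[(0,0),(14,0),(18,0)]⟩,
  ⟨0,[(3,0),(17,0),(15,0)]⟩⟩,⟨true,0,⟨0,[(20,0)]⟩,⟨1,[(9,0),(11,1),(4,0)]⟩⟩,⟨true,0,⟨0,[(41,0)]⟩,⟨0,
  []⟩⟩,⟨false,0,⟨0,[(4,0)]⟩,⟨1,[(5,1),(1,0),(14,0),(13,0)]⟩⟩,⟨false,0,⟨0,[]⟩,⟨0,[]⟩⟩,⟨false,0,⟨0,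
  []⟩,⟨0,[]⟩⟩,[.o ⟨false,0,⟨0,[(37,0)]⟩,⟨1,[(31,0),(4,1),(2,0)]⟩⟩,.o ⟨false,1,⟨7,[(4,3),(0,3),(12,
  0),(0,0),(11,1),(5,3)]⟩,⟨1,[(7,0),(14,0),(13,0)]⟩⟩,.o ⟨false,1,⟨1,[(21,1),(9,0),(6,0)]⟩,⟨1,[(9,0),
  (10,1),(5,0)]⟩⟩,.a ⟨true,0,⟨0,[(21,0)]⟩,⟨0,[(20,0)]⟩⟩ ⟨false,1,⟨1,[(18,0),(19,0)]⟩,⟨0,[(3,0),(17,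
  0)]⟩⟩ ⟨true,0,⟨0,[(20,0),(16,0)]⟩,⟨1,[(7,0),(13,1),(0,0),(13,0)]⟩⟩]⟩) (.R ⟨0,false,false,true,[1,
  0,0,-1],[1,0,-1],[1,1,1,0,0,0,0,-1],(⟨0,[(20,0)]⟩,⟨0,[(21,0)]⟩),(⟨0,[(29,0)]⟩,⟨0,[(30,0)]⟩),⟨0,
  [(1,0)]⟩,.k,.k,(.x (-1) ⟨3,[(18,0),(0,0),(11,1),(0,3)]⟩ ⟨0,[(33,0)]⟩),.k,.k,.k,⟨false,0,⟨0,[]⟩,⟨3,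
  [(18,0),(0,0),(18,1)]⟩⟩,⟨true,0,⟨1,[(9,0),(10,1),(6,0)]⟩,⟨4,[(7,1),(8,1),(4,4),(4,0),(1,3),(5,
  0)]⟩⟩,⟨true,(-1),⟨0,[(0,0)]⟩,⟨0,[(2,0),(10,0)]⟩⟩,⟨false,0,⟨0,[(3,0),(21,0)]⟩,⟨2,[(5,2),(1,0),(8,
  0),(7,0)]⟩⟩,⟨false,0,⟨0,[]⟩,⟨0,[]⟩⟩,⟨false,0,⟨0,[]⟩,⟨0,[]⟩⟩,[.o ⟨false,0,⟨0,[(22,0)]⟩,⟨7,[(17,3),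
  (0,0),(0,0),(11,1),(7,3)]⟩⟩,.o ⟨false,1,⟨1,[(25,1),(5,0),(7,0)]⟩,⟨0,[(12,0)]⟩⟩,.o ⟨false,1,⟨1,
  [(21,1),(9,0),(6,0)]⟩,⟨1,[(9,0),(10,1),(5,0)]⟩⟩,.a ⟨true,0,⟨0,[(21,0)]⟩,⟨0,[(20,0)]⟩⟩ ⟨false,0,⟨0,
  [(28,0)]⟩,⟨0,[(13,0),(25,0)]⟩⟩ ⟨true,0,⟨0,[(20,0),(1,0)]⟩,⟨2,[(7,0),(8,0),(4,2),(2,0)]⟩⟩]⟩)) (.I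
  [0,0,0,0,0,0,0,0,1] (.R ⟨1,false,false,true,[1,0,0,-1],[1,0,-1],[0,1,0,0,0,0,0,0,-1],(⟨0,[(20,
  0)]⟩,⟨0,[(21,0)]⟩),(⟨0,[(29,0)]⟩,⟨0,[(30,0)]⟩),⟨0,[(1,0)]⟩,.k,.k,(.x (-1) ⟨3,[(18,0),(0,0),(11,1),
  (0,3)]⟩ ⟨0,[(33,0)]⟩),.k,(.x 0 ⟨0,[(7,0),(20,0),(1,0),(1,0),(4,0)]⟩ ⟨3,[(8,3),(9,0),(0,0),(7,3),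
  (10,1)]⟩),.k,⟨false,1,⟨0,[(2,0),(10,0)]⟩,⟨0,[(0,0),(27,0)]⟩⟩,⟨true,0,⟨1,[(9,0),(10,1),(6,0)]⟩,⟨4,
  [(7,1),(8,1),(4,4),(4,0),(1,3),(5,0)]⟩⟩,⟨true,0,⟨0,[(41,0)]⟩,⟨0,[]⟩⟩,⟨false,0,⟨0,[(3,0),(21,0)]⟩,
  ⟨2,[(5,2),(1,0),(8,0),(7,0)]⟩⟩,⟨false,0,⟨0,[(37,0)]⟩,⟨0,[(36,0),(2,0)]⟩⟩,⟨false,0,⟨0,[(4,0),(17,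
  0)]⟩,⟨0,[(5,0),(5,0)]⟩⟩,[.o ⟨false,0,⟨0,[(22,0)]⟩,⟨7,[(17,3),(0,0),(0,0),(11,1),(7,3)]⟩⟩,.o
  ⟨false,1,⟨1,[(25,1),(5,0),(7,0)]⟩,⟨0,[(12,0)]⟩⟩,.o ⟨false,1,⟨1,[(21,1),(9,0),(6,0)]⟩,⟨1,[(9,0),
  (10,1),(5,0)]⟩⟩,.a ⟨true,0,⟨0,[(21,0)]⟩,⟨0,[(20,0)]⟩⟩ ⟨false,1,⟨1,[(18,0),(19,0)]⟩,⟨0,[(3,0),(17,
  0)]⟩⟩ ⟨true,0,⟨0,[(20,0),(1,0)]⟩,⟨2,[(7,0),(8,0),(4,2),(2,0)]⟩⟩]⟩) (.R ⟨1,false,false,false,[1,0,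
  0,-1],[0,0,1],[0,0,0,0,0,0,0,0,-1],(⟨0,[(20,0)]⟩,⟨0,[(21,0)]⟩),(⟨0,[(30,0)]⟩,⟨0,[(29,0)]⟩),⟨0,[(1,
  0)]⟩,.k,.k,(.x (-1) ⟨3,[(18,0),(0,0),(11,1),(0,3)]⟩ ⟨0,[(33,0)]⟩),.k,(.r (-1) ⟨1,[(15,1),(2,0),
  (19,0)]⟩ ⟨1,[(3,0),(0,0),(4,0),(3,0),(2,0),(4,1),(12,0)]⟩),.k,⟨true,0,⟨0,[(0,0),(27,0)]⟩,⟨0,[(3,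
  0),(9,0),(7,0)]⟩⟩,⟨false,0,⟨4,[(7,1),(8,1),(3,4),(5,0),(1,3),(5,0)]⟩,⟨1,[(9,0),(11,1),(5,0),(10,
  1)]⟩⟩,⟨false,1,⟨3,[(18,0),(0,0),(19,1)]⟩,⟨0,[]⟩⟩,⟨false,0,⟨0,[(4,0),(6,0)]⟩,⟨0,[(5,0),(16,0)]⟩⟩,
  ⟨true,0,⟨0,[(37,0)]⟩,⟨0,[(36,0)]⟩⟩,⟨false,0,⟨2,[(4,2),(2,0),(8,0),(7,0)]⟩,⟨1,[(0,1),(8,0),(5,1),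
  (5,1),(5,0),(10,1)]⟩⟩,[.o ⟨false,0,⟨0,[(12,0)]⟩,⟨1,[(25,1),(5,0),(7,0)]⟩⟩,.o ⟨false,1,⟨7,[(17,3),
  (0,0),(0,0),(11,1),(7,3)]⟩,⟨0,[(22,0)]⟩⟩,.o ⟨false,1,⟨1,[(21,1),(9,0),(6,0)]⟩,⟨1,[(9,0),(10,1),(5,
  0)]⟩⟩,.a ⟨true,0,⟨0,[(21,0)]⟩,⟨0,[(20,0)]⟩⟩ ⟨false,1,⟨0,[(2,0)]⟩,⟨5,[(3,3),(0,1),(4,0),(11,5),(4,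
  0),(7,1),(1,1)]⟩⟩ ⟨true,0,⟨2,[(7,0),(8,0),(3,2),(3,0)]⟩,⟨0,[(21,0),(0,0)]⟩⟩]⟩))))) (.I [1,-1,-1,0,
  0,0,0,0,-1] (.Q [0,0,0,0,0,1,0,0,0,-1,0,1] (.p true [0,0,0,1] [1] (⟨0,[(18,0)]⟩,⟨0,[(17,0)]⟩) .k
  1 (⟨0,[]⟩,⟨0,[]⟩) .k .k) (.R ⟨0,false,false,true,[1,0,0,-1],[1,0,-1],[0,1,0,0,0,0,0,0,-1],(⟨0,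
  [(18,0)]⟩,⟨0,[(19,0)]⟩),(⟨0,[(27,0)]⟩,⟨0,[(28,0)]⟩),⟨0,[(0,0)]⟩,.k,.k,(.x (-1) ⟨3,[(16,0),(0,0),
  (11,1),(0,3)]⟩ ⟨0,[(31,0)]⟩),.k,.k,.k,⟨false,0,⟨0,[(1,0),(9,0)]⟩,⟨3,[(16,0),(0,2),(8,3)]⟩⟩,⟨true,
  0,⟨1,[(7,0),(10,1),(6,0)]⟩,⟨4,[(5,1),(8,1),(4,4),(4,0),(1,3),(5,0)]⟩⟩,⟨true,0,⟨0,[(39,0)]⟩,⟨0,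
  []⟩⟩,⟨false,1,⟨1,[(17,0),(0,1),(1,1),(3,0),(0,0),(11,0)]⟩,⟨2,[(1,1),(0,0),(2,0),(8,1),(4,1)]⟩⟩,
  ⟨false,0,⟨0,[]⟩,⟨0,[]⟩⟩,⟨false,0,⟨0,[]⟩,⟨0,[]⟩⟩,[.o ⟨false,0,⟨0,[(20,0)]⟩,⟨7,[(15,3),(0,0),(0,0),
  (11,1),(7,3)]⟩⟩,.o ⟨false,1,⟨1,[(23,1),(5,0),(7,0)]⟩,⟨0,[(10,0)]⟩⟩,.o ⟨false,1,⟨1,[(19,1),(9,0),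
  (6,0)]⟩,⟨1,[(7,0),(10,1),(5,0)]⟩⟩,.a ⟨true,0,⟨0,[(19,0)]⟩,⟨0,[(18,0)]⟩⟩ ⟨false,0,⟨0,[(1,0),(37,
  0)]⟩,⟨1,[(17,0),(6,0),(0,0),(11,0)]⟩⟩ ⟨true,0,⟨0,[(18,0),(1,0)]⟩,⟨2,[(5,0),(8,0),(4,2),(2,
  0)]⟩⟩]⟩) (.Q [0,0,1,1,0,0,1,1,1,1,-1,-1] (.p false [0,0,1] [1,0,0,-1] (⟨0,[(28,0)]⟩,⟨0,[(27,0)]⟩)
  .k 2 (⟨0,[(18,0)]⟩,⟨0,[(19,0)]⟩) .k (.r (-1) ⟨1,[(11,1),(5,0),(19,0)]⟩ ⟨0,[(1,0),(21,0),(0,0)]⟩))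
  (.R ⟨1,false,false,true,[1,0,0,-1],[0,0,1],[0,1,1,0,0,0,0,1],(⟨0,[(19,0)]⟩,⟨0,[(20,0)]⟩),(⟨0,[(29,
  0)]⟩,⟨0,[(28,0)]⟩),⟨0,[(1,0)]⟩,.k,.k,(.x (-1) ⟨3,[(17,0),(0,0),(11,1),(0,3)]⟩ ⟨0,[(32,0)]⟩),.k,
  (.r 0 ⟨1,[(2,0),(0,0),(10,0),(4,0),(7,0)]⟩ ⟨5,[(0,1),(11,1),(2,1),(1,0),(0,2),(1,1),(5,3),(3,1),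
  (5,1)]⟩),.k,⟨true,0,⟨1,[(25,0),(0,0)]⟩,⟨0,[]⟩⟩,⟨false,0,⟨8,[(0,1),(1,1),(3,1),(9,1),(2,6),(5,0),
  (1,7),(5,0)]⟩,⟨1,[(8,0),(11,1),(5,0),(10,1)]⟩⟩,⟨false,1,⟨7,[(16,3),(0,0),(0,4),(7,7),(3,1)]⟩,⟨0,
  [(2,0),(24,0)]⟩⟩,⟨true,0,⟨0,[(0,0),(34,0)]⟩,⟨0,[(2,0),(17,0),(0,0)]⟩⟩,⟨false,1,⟨5,[(0,1),(11,1),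
  (2,1),(1,0),(0,2),(1,1),(5,3),(3,1),(5,1)]⟩,⟨0,[(2,0),(11,0)]⟩⟩,⟨false,0,⟨0,[(0,0)]⟩,⟨7,[(2,3),(0,
  1),(0,4),(0,2),(2,1),(5,2),(5,0),(0,1),(4,3)]⟩⟩,[.o ⟨false,0,⟨0,[(23,0)]⟩,⟨0,[(21,0),(16,0)]⟩⟩,.o
  ⟨false,0,⟨0,[(11,0)]⟩,⟨1,[(24,1),(5,0),(7,0)]⟩⟩,.o ⟨false,1,⟨1,[(20,1),(9,0),(6,0)]⟩,⟨1,[(8,0),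
  (10,1),(5,0)]⟩⟩,.a ⟨true,0,⟨0,[(20,0)]⟩,⟨0,[(19,0)]⟩⟩ ⟨true,0,⟨0,[(12,0)]⟩,⟨0,[(27,0)]⟩⟩ ⟨false,0,
  ⟨4,[(0,0),(1,0),(3,0),(9,0),(2,3),(3,0)]⟩,⟨0,[(20,0),(0,0),(16,0)]⟩⟩]⟩) (.I [0,1,-2,-1,0,0,0,0,
  -1] (.R ⟨1,false,false,false,[1,0,0,-1],[0,1],[0,1,0,0,0,0,0,0,-1],(⟨0,[(20,0)]⟩,⟨0,[(21,0)]⟩),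
  (⟨0,[(33,0)]⟩,⟨0,[(32,0)]⟩),⟨0,[(2,0)]⟩,.k,.k,(.x (-1) ⟨3,[(18,0),(0,0),(11,1),(0,3)]⟩ ⟨0,[(33,
  0)]⟩),(.x (-1) ⟨3,[(18,0),(0,0),(11,1),(0,3)]⟩ ⟨0,[(33,0)]⟩),(.x 0 ⟨3,[(7,1),(1,2),(16,0),(1,1),
  (3,7),(4,1)]⟩ ⟨3,[(18,0),(0,0),(13,7),(4,1)]⟩),.k,⟨false,0,⟨0,[(0,0)]⟩,⟨1,[(19,0),(6,0),(0,0),(9,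
  1),(1,0)]⟩⟩,⟨true,0,⟨0,[(20,0)]⟩,⟨1,[(9,0),(11,1),(4,0)]⟩⟩,⟨true,0,⟨0,[(41,0)]⟩,⟨0,[]⟩⟩,⟨false,1,
  ⟨1,[(19,0),(0,1),(5,0),(0,0),(9,1),(1,0)]⟩,⟨2,[(1,1),(2,0),(2,0),(8,0)]⟩⟩,⟨false,0,⟨0,[(37,0)]⟩,
  ⟨0,[(36,0),(2,0)]⟩⟩,⟨false,1,⟨1,[(19,0),(0,1),(5,0),(0,0),(9,3),(1,0)]⟩,⟨0,[(1,0),(9,0)]⟩⟩,[.o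
  ⟨false,0,⟨0,[(37,0)]⟩,⟨1,[(31,0),(4,1),(2,0)]⟩⟩,.o ⟨false,1,⟨3,[(18,0),(0,0),(17,3),(1,1)]⟩,⟨1,
  [(7,0),(14,0),(13,0)]⟩⟩,.o ⟨false,1,⟨1,[(21,1),(9,0),(6,0)]⟩,⟨1,[(9,0),(10,1),(5,0)]⟩⟩,.a ⟨true,0,
  ⟨0,[(21,0)]⟩,⟨0,[(20,0)]⟩⟩ ⟨false,0,⟨0,[(3,0),(37,0)]⟩,⟨1,[(19,0),(6,0),(0,0),(11,0)]⟩⟩ ⟨true,0,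
  ⟨0,[(20,0),(16,0)]⟩,⟨1,[(7,0),(13,1),(0,0),(13,0)]⟩⟩]⟩) (.R ⟨1,false,false,false,[1,0,0,-1],[1,0,
  -1],[0,1,1],(⟨0,[(20,0)]⟩,⟨0,[(21,0)]⟩),(⟨0,[(29,0)]⟩,⟨0,[(30,0)]⟩),⟨0,[(2,0)]⟩,.k,.k,(.x (-1) ⟨3,
  [(18,0),(0,0),(11,1),(0,3)]⟩ ⟨0,[(33,0)]⟩),.k,(.x 0 ⟨0,[(7,0),(20,0),(1,0),(1,0),(4,0)]⟩ ⟨3,[(8,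
  3),(9,0),(0,0),(7,3),(10,1)]⟩),.k,⟨false,0,⟨0,[(13,0)]⟩,⟨1,[(28,1),(9,0),(0,0)]⟩⟩,⟨true,0,⟨1,[(9,
  0),(10,1),(6,0)]⟩,⟨4,[(7,1),(8,1),(4,4),(4,0),(1,3),(5,0)]⟩⟩,⟨false,1,⟨3,[(18,0),(0,2),(6,1),(0,
  1)]⟩,⟨0,[(3,0)]⟩⟩,⟨false,1,⟨3,[(0,1),(5,1),(13,3),(1,1),(4,1),(3,0),(7,0)]⟩,⟨0,[(4,0),(11,0)]⟩⟩,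
  ⟨true,0,⟨0,[(0,0),(33,0)]⟩,⟨2,[(1,0),(1,0),(0,0),(6,0),(8,1)]⟩⟩,⟨false,1,⟨3,[(0,1),(18,0),(0,3),
  (1,3),(14,1),(1,2)]⟩,⟨0,[(1,0),(15,0)]⟩⟩,[.o ⟨false,1,⟨1,[(25,1),(5,0),(7,0)]⟩,⟨0,[(12,0)]⟩⟩,.o
  ⟨false,1,⟨0,[(22,0),(16,0)]⟩,⟨0,[(24,0)]⟩⟩,.o ⟨false,1,⟨1,[(21,1),(9,0),(6,0)]⟩,⟨1,[(9,0),(10,1),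
  (5,0)]⟩⟩,.a ⟨true,0,⟨0,[(21,0)]⟩,⟨0,[(20,0)]⟩⟩ ⟨true,0,⟨0,[(41,0)]⟩,⟨0,[]⟩⟩ ⟨false,1,⟨0,[(20,0),
  (1,0),(16,0)]⟩,⟨2,[(7,0),(8,0),(4,2),(2,0)]⟩⟩]⟩)))) (.Q [0,1,1,-1,0,0,0,0,1,0,0,-1] (.p false [0,
  0,0,1] [] (⟨0,[(18,0)]⟩,⟨0,[(17,0)]⟩) .k 0 (⟨0,[]⟩,⟨0,[]⟩) .k .k) (.K ⟨0,[0,0,0,1],0,0,(⟨0,[(19,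
  0)]⟩,⟨0,[(18,0)]⟩),.k,(.r (-1) ⟨0,[(4,0),(6,0)]⟩ ⟨1,[(2,1),(15,1),(5,0),(0,0),(7,1),(1,3)]⟩),(.x
  0 ⟨0,[(31,0)]⟩ ⟨3,[(16,0),(0,0),(11,1),(0,3)]⟩),.k,.k,[⟨0,[(19,0)]⟩,⟨0,[(18,0)]⟩,⟨0,[(2,0),(11,0),
  (8,0)]⟩,⟨0,[(0,0),(34,0)]⟩]⟩) (.Q [0,1,1,0,0,0,0,0,1,0,0,-1] (.p false [0,0,0,1] [] (⟨0,[(19,0)]⟩,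
  ⟨0,[(18,0)]⟩) .k 0 (⟨0,[]⟩,⟨0,[]⟩) .k .k) (.K ⟨0,[0,0,0,1],0,0,(⟨0,[(20,0)]⟩,⟨0,[(19,0)]⟩),.k,(.r
  (-1) ⟨0,[(5,0),(6,0)]⟩ ⟨1,[(1,1),(6,0),(10,1),(5,1),(0,0),(13,1)]⟩),(.x 0 ⟨0,[(32,0)]⟩ ⟨3,[(17,0),
  (0,0),(11,1),(0,3)]⟩),.k,.k,[⟨0,[(20,0)]⟩,⟨0,[(19,0)]⟩,⟨1,[(1,0),(1,0),(12,0),(7,1)]⟩,⟨0,[(0,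
  0)]⟩]⟩) (.R ⟨0,false,false,false,[0,0,1],[1,0,0,-1],[0,1,1],(⟨0,[(29,0)]⟩,⟨0,[(28,0)]⟩),(⟨0,[(19,
  0)]⟩,⟨0,[(20,0)]⟩),⟨0,[(7,0)]⟩,.k,.k,.k,.k,.k,.k,⟨true,0,⟨0,[(2,0)]⟩,⟨1,[(0,1),(7,0),(10,1),(5,
  0)]⟩⟩,⟨false,1,⟨0,[(0,1),(7,0),(9,0),(0,0),(13,0)]⟩,⟨0,[(19,0),(5,0)]⟩⟩,⟨false,0,⟨1,[(25,0),(0,0),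
  (0,1)]⟩,⟨3,[(0,1),(7,1),(1,1),(4,1),(2,0),(0,1),(6,1),(10,2)]⟩⟩,⟨true,0,⟨0,[(0,0),(20,0)]⟩,⟨2,[(2,
  2),(3,0),(8,0),(3,2),(3,0)]⟩⟩,⟨false,0,⟨0,[]⟩,⟨0,[]⟩⟩,⟨false,0,⟨0,[]⟩,⟨0,[]⟩⟩,[.o ⟨false,0,⟨2,[(1,
  1),(1,0),(2,0),(14,0)]⟩,⟨1,[(18,0),(0,1),(5,0),(0,0),(3,0)]⟩⟩,.a ⟨true,0,⟨0,[(0,0)]⟩,⟨0,[(2,0),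
  (16,0)]⟩⟩ ⟨true,0,⟨1,[(25,0),(0,0)]⟩,⟨0,[]⟩⟩ ⟨false,1,⟨1,[(0,1),(7,0),(17,0),(10,1)]⟩,⟨4,[(2,4),
  (3,1),(8,1),(3,4),(5,0),(1,3),(5,0)]⟩⟩,.o ⟨false,0,⟨4,[(6,1),(8,1),(9,0),(1,3),(5,0)]⟩,⟨1,[(26,1),
  (3,0),(6,0)]⟩⟩,.o ⟨false,0,⟨0,[(25,0)]⟩,⟨1,[(8,0),(17,0),(10,1)]⟩⟩]⟩)))))))) (.Q [0,1,-1,0,0,0,0,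
  0,-1,0,0,1] (.p true [0,0,0,1] [] (⟨0,[(13,0)]⟩,⟨0,[(12,0)]⟩) .k 0 (⟨0,[]⟩,⟨0,[]⟩) .k .k) (.Q [0,
  1,1,0,0,0,0,0,1,0,0,-1] (.p false [0,0,0,1] [] (⟨0,[(14,0)]⟩,⟨0,[(13,0)]⟩) .k 0 (⟨0,[]⟩,⟨0,[]⟩)
  .k .k) (.K ⟨0,[0,0,0,1],0,0,(⟨0,[(15,0)]⟩,⟨0,[(14,0)]⟩),.k,(.x 0 ⟨1,[(3,0),(16,1),(0,0),(4,1)]⟩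
  ⟨0,[(27,0),(4,0)]⟩),(.x 0 ⟨0,[(27,0)]⟩ ⟨3,[(12,0),(0,0),(11,1),(0,3)]⟩),.k,.k,[⟨0,[(15,0)]⟩,⟨0,
  [(14,0)]⟩,⟨0,[(1,0)]⟩,⟨0,[(0,0)]⟩]⟩) (.Q [0,1,1,0,0,0,0,0,1,1,0,-1] (.p false [0,0,0,1] [1] (⟨0,
  [(15,0)]⟩,⟨0,[(14,0)]⟩) .k 1 (⟨0,[]⟩,⟨0,[]⟩) .k .k) (.R ⟨0,false,false,true,[1,0,-1],[0,0,0,1],[1,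
  1,0,0,0,0,0,0,1],(⟨0,[(24,0)]⟩,⟨0,[(25,0)]⟩),(⟨0,[(16,0)]⟩,⟨0,[(15,0)]⟩),⟨0,[(5,0)]⟩,.k,.k,.k,.k,
  .k,.k,⟨true,0,⟨0,[]⟩,⟨1,[(21,0),(0,0)]⟩⟩,⟨false,0,⟨0,[(7,0),(7,0),(7,0)]⟩,⟨1,[(1,0),(0,0),(1,0),
  (9,0),(7,0),(10,0)]⟩⟩,⟨false,1,⟨1,[(8,1),(5,0),(19,0)]⟩,⟨1,[(1,1),(2,0),(10,1),(5,0),(1,1)]⟩⟩,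
  ⟨true,0,⟨0,[(0,0),(6,0)]⟩,⟨0,[(1,0),(15,0)]⟩⟩,⟨false,0,⟨0,[]⟩,⟨0,[]⟩⟩,⟨false,0,⟨0,[]⟩,⟨0,[]⟩⟩,[.a
  ⟨true,0,⟨0,[(0,0)]⟩,⟨0,[(1,0)]⟩⟩ ⟨false,1,⟨7,[(13,0),(0,4),(14,3),(3,1)]⟩,⟨1,[(1,1),(2,0),(10,1),
  (5,0)]⟩⟩ ⟨true,0,⟨0,[(0,0),(6,0),(15,0)]⟩,⟨1,[(1,1),(2,0),(17,0)]⟩⟩,.o ⟨false,1,⟨1,[(0,1),(25,0),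
  (7,0)]⟩,⟨0,[(1,0),(5,0),(9,0)]⟩⟩,.o ⟨false,1,⟨1,[(22,1),(3,0),(6,0)]⟩,⟨0,[(7,0),(15,0)]⟩⟩,.o
  ⟨false,0,⟨0,[(18,0)]⟩,⟨0,[(21,0),(11,0)]⟩⟩]⟩) (.Q [0,0,0,0,0,1,0,0,0,-1,0,1] (.p true [0,0,0,1]
  [1] (⟨0,[(16,0)]⟩,⟨0,[(15,0)]⟩) .k 1 (⟨0,[]⟩,⟨0,[]⟩) .k .k) (.R ⟨0,false,false,true,[1,0,0,-1],[1,
  0,-1],[0,1,0,0,0,0,0,0,-1],(⟨0,[(16,0)]⟩,⟨0,[(17,0)]⟩),(⟨0,[(25,0)]⟩,⟨0,[(26,0)]⟩),⟨0,[(0,0)]⟩,.k,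
  .k,(.x (-1) ⟨3,[(14,0),(0,0),(11,1),(0,3)]⟩ ⟨0,[(29,0)]⟩),.k,.k,.k,⟨false,0,⟨0,[(1,0),(7,0),(6,
  0)]⟩,⟨3,[(14,0),(0,2),(8,3)]⟩⟩,⟨true,0,⟨1,[(5,0),(10,1),(6,0)]⟩,⟨0,[(8,0),(8,0),(6,0)]⟩⟩,⟨true,0,
  ⟨0,[(37,0)]⟩,⟨0,[]⟩⟩,⟨false,1,⟨1,[(15,0),(0,1),(1,1),(3,0),(0,0),(11,0)]⟩,⟨1,[(1,0),(0,0),(10,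
  0)]⟩⟩,⟨false,0,⟨0,[]⟩,⟨0,[]⟩⟩,⟨false,0,⟨0,[]⟩,⟨0,[]⟩⟩,[.o ⟨false,0,⟨0,[(18,0)]⟩,⟨7,[(13,3),(0,0),
  (0,0),(11,1),(7,3)]⟩⟩,.o ⟨false,1,⟨1,[(21,1),(5,0),(7,0)]⟩,⟨0,[(8,0)]⟩⟩,.o ⟨false,1,⟨1,[(2,0),(0,
  0),(11,0),(11,0)]⟩,⟨1,[(5,0),(10,1),(5,0)]⟩⟩,.a ⟨true,0,⟨0,[(17,0)]⟩,⟨0,[(16,0)]⟩⟩ ⟨false,0,⟨7,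
  [(1,5),(1,1),(1,0),(10,7),(5,0),(7,1)]⟩,⟨1,[(15,0),(6,0),(0,0),(11,0)]⟩⟩ ⟨true,0,⟨0,[(16,0),(1,
  0)]⟩,⟨0,[(8,0),(8,0)]⟩⟩]⟩) (.I [0,1,-2,-1,0,0,0,0,-1] (.Q [0,0,-1,-2,0,0,0,0,-1,-1,0,1] (.p true
  [0,0,0,1] [1] (⟨0,[(18,0)]⟩,⟨0,[(17,0)]⟩) .k 1 (⟨0,[]⟩,⟨0,[]⟩) .k .k) (.R ⟨1,false,false,false,[1,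
  0,0,-1],[0,1],[0,1,0,0,0,0,0,0,-1],(⟨0,[(18,0)]⟩,⟨0,[(19,0)]⟩),(⟨0,[(31,0)]⟩,⟨0,[(30,0)]⟩),⟨0,[(2,
  0)]⟩,.k,.k,(.x (-1) ⟨3,[(16,0),(0,0),(11,1),(0,3)]⟩ ⟨0,[(31,0)]⟩),(.x (-1) ⟨3,[(16,0),(0,0),(11,
  1),(0,3)]⟩ ⟨0,[(31,0)]⟩),(.x 0 ⟨0,[(7,0),(2,0),(15,0),(3,1)]⟩ ⟨3,[(16,0),(0,0),(13,7),(4,1)]⟩),.k,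
  ⟨false,0,⟨0,[(1,0)]⟩,⟨1,[(17,0),(6,0),(0,0),(9,1),(1,0)]⟩⟩,⟨true,0,⟨0,[(18,0)]⟩,⟨1,[(7,0),(11,1),
  (4,0)]⟩⟩,⟨true,0,⟨0,[(39,0)]⟩,⟨0,[]⟩⟩,⟨false,1,⟨1,[(17,0),(0,1),(5,0),(0,0),(9,1),(1,0)]⟩,⟨15,[(0,
  7),(2,5),(1,1),(1,0),(16,0),(7,1)]⟩⟩,⟨false,0,⟨0,[(35,0)]⟩,⟨0,[(34,0),(2,0)]⟩⟩,⟨false,1,⟨1,[(17,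
  0),(0,1),(5,0),(0,0),(9,3),(1,0)]⟩,⟨0,[(0,0)]⟩⟩,[.o ⟨false,0,⟨0,[(35,0)]⟩,⟨1,[(29,0),(4,1),(2,
  0)]⟩⟩,.o ⟨false,1,⟨3,[(16,0),(0,0),(17,3),(1,1)]⟩,⟨0,[(9,0),(10,0)]⟩⟩,.o ⟨false,1,⟨1,[(4,0),(0,0),
  (11,0),(11,0)]⟩,⟨1,[(7,0),(10,1),(5,0)]⟩⟩,.a ⟨true,0,⟨0,[(19,0)]⟩,⟨0,[(18,0)]⟩⟩ ⟨false,0,⟨7,[(1,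
  1),(1,3),(1,1),(1,0),(10,5),(5,0),(10,1)]⟩,⟨1,[(17,0),(6,0),(0,0),(11,0)]⟩⟩ ⟨true,0,⟨0,[(18,0),
  (16,0)]⟩,⟨0,[(9,0),(9,0),(0,0)]⟩⟩]⟩) (.R ⟨1,true,false,false,[1,0,0,-1],[0,1],[0,1,0,0,0,0,0,0,
  -1],(⟨0,[(18,0)]⟩,⟨0,[(19,0)]⟩),(⟨0,[(31,0)]⟩,⟨0,[(30,0)]⟩),⟨0,[(2,0)]⟩,.k,.k,(.x (-1) ⟨3,[(16,0),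
  (0,0),(11,1),(0,3)]⟩ ⟨0,[(31,0)]⟩),(.x (-1) ⟨3,[(16,0),(0,0),(11,1),(0,3)]⟩ ⟨0,[(31,0)]⟩),(.x 0
  ⟨0,[(7,0),(2,0),(15,0),(3,1)]⟩ ⟨3,[(16,0),(0,0),(13,7),(4,1)]⟩),.k,⟨false,0,⟨0,[(1,0)]⟩,⟨3,[(0,1),
  (16,0),(1,1),(4,0),(0,0),(3,0),(7,1)]⟩⟩,⟨true,0,⟨0,[(18,0)]⟩,⟨1,[(7,0),(11,1),(4,0)]⟩⟩,⟨true,0,⟨0,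
  [(39,0)]⟩,⟨0,[]⟩⟩,⟨false,1,⟨7,[(0,3),(15,0),(0,2),(0,3),(5,1),(0,1),(11,3)]⟩,⟨0,[(3,0),(30,0)]⟩⟩,
  ⟨false,0,⟨0,[(35,0)]⟩,⟨0,[(34,0),(2,0)]⟩⟩,⟨true,0,⟨0,[(0,0)]⟩,⟨0,[(3,0),(30,1)]⟩⟩,[]⟩)) (.R ⟨1,
  false,false,false,[1,0,0,-1],[1,0,-1],[0,1,1],(⟨0,[(17,0)]⟩,⟨0,[(18,0)]⟩),(⟨0,[(26,0)]⟩,⟨0,[(27,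
  0)]⟩),⟨0,[(1,0)]⟩,.k,.k,(.x (-1) ⟨3,[(15,0),(0,0),(11,1),(0,3)]⟩ ⟨0,[(30,0)]⟩),.k,(.x 0 ⟨0,[(5,0),
  (3,0),(15,0)]⟩ ⟨1,[(24,1),(1,1),(1,0),(1,1),(4,0)]⟩),.k,⟨false,0,⟨0,[(10,0)]⟩,⟨1,[(25,1),(9,0),(0,
  0)]⟩⟩,⟨true,0,⟨1,[(6,0),(10,1),(6,0)]⟩,⟨0,[(9,0),(8,0),(6,0)]⟩⟩,⟨false,1,⟨3,[(15,0),(0,2),(6,1),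
  (0,1)]⟩,⟨0,[(2,0),(14,0)]⟩⟩,⟨false,1,⟨5,[(0,1),(5,0),(5,1),(3,1),(0,5),(1,3),(4,0),(11,3)]⟩,⟨1,
  [(2,0),(1,0),(9,0)]⟩⟩,⟨true,0,⟨0,[(0,0),(30,0)]⟩,⟨0,[(2,0),(14,0),(15,0)]⟩⟩,⟨false,1,⟨3,[(0,1),
  (15,0),(0,3),(1,3),(14,1),(1,2)]⟩,⟨1,[(3,0),(0,0),(3,1)]⟩⟩,[.o ⟨false,1,⟨1,[(22,1),(5,0),(7,0)]⟩,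
  ⟨0,[(9,0)]⟩⟩,.o ⟨false,1,⟨0,[(19,0),(16,0)]⟩,⟨0,[(21,0)]⟩⟩,.o ⟨false,1,⟨1,[(3,0),(0,0),(11,0),(11,
  0)]⟩,⟨1,[(6,0),(10,1),(5,0)]⟩⟩,.a ⟨true,0,⟨0,[(18,0)]⟩,⟨0,[(17,0)]⟩⟩ ⟨true,0,⟨0,[(38,0)]⟩,⟨0,[]⟩⟩
  ⟨false,1,⟨0,[(17,0),(1,0),(16,0)]⟩,⟨0,[(9,0),(8,0)]⟩⟩]⟩))))) (.Q [0,1,1,0,-1,0,0,0,1,0,0,-1] (.p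
  false [0,0,0,1] [] (⟨0,[(14,0)]⟩,⟨0,[(13,0)]⟩) .k 0 (⟨0,[]⟩,⟨0,[]⟩) .k .k) (.K ⟨0,[0,0,0,1],0,
  (-1),(⟨0,[(15,0)]⟩,⟨0,[(14,0)]⟩),.k,(.x 0 ⟨1,[(3,0),(16,1),(0,0),(4,1)]⟩ ⟨0,[(27,0),(4,0)]⟩),(.x
  0 ⟨0,[(27,0)]⟩ ⟨3,[(12,0),(0,0),(11,1),(0,3)]⟩),.k,.k,[⟨0,[(15,0)]⟩,⟨0,[(14,0)]⟩,⟨7,[(12,4),(0,0),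
  (1,7),(12,3),(3,1)]⟩,⟨0,[(0,0)]⟩]⟩) (.Q [0,0,0,0,0,1,0,0,0,-1,0,1] (.p true [0,0,0,1] [1] (⟨0,
  [(15,0)]⟩,⟨0,[(14,0)]⟩) .k 1 (⟨0,[]⟩,⟨0,[]⟩) .k .k) (.I [0,1,-2,-1,1,0,0,0,-1] (.R ⟨0,false,false,
  false,[1,0,0,-1],[0,1],[0,1,0,0,0,0,0,0,-1],(⟨0,[(16,0)]⟩,⟨0,[(17,0)]⟩),(⟨0,[(29,0)]⟩,⟨0,[(28,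
  0)]⟩),⟨0,[(1,0)]⟩,.k,.k,(.x (-1) ⟨3,[(14,0),(0,0),(11,1),(0,3)]⟩ ⟨0,[(29,0)]⟩),(.x (-1) ⟨3,[(14,
  0),(0,0),(11,1),(0,3)]⟩ ⟨0,[(29,0)]⟩),.k,.k,⟨false,1,⟨0,[(0,0)]⟩,⟨0,[(3,0),(13,0),(15,0)]⟩⟩,⟨true,
  0,⟨0,[(16,0)]⟩,⟨1,[(5,0),(11,1),(4,0)]⟩⟩,⟨true,0,⟨0,[(37,0)]⟩,⟨0,[]⟩⟩,⟨false,0,⟨0,[(3,0),(8,0),(8,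
  0)]⟩,⟨0,[(2,0),(4,0),(10,0)]⟩⟩,⟨false,0,⟨0,[]⟩,⟨0,[]⟩⟩,⟨false,0,⟨0,[]⟩,⟨0,[]⟩⟩,[.o ⟨false,0,⟨0,
  [(33,0)]⟩,⟨1,[(27,0),(4,1),(2,0)]⟩⟩,.o ⟨false,1,⟨3,[(14,0),(0,0),(17,3),(1,1)]⟩,⟨0,[(7,0),(10,
  0)]⟩⟩,.o ⟨false,1,⟨1,[(17,1),(9,0),(6,0)]⟩,⟨1,[(5,0),(10,1),(5,0)]⟩⟩,.a ⟨true,0,⟨0,[(17,0)]⟩,⟨0,
  [(16,0)]⟩⟩ ⟨false,1,⟨1,[(14,0),(19,0)]⟩,⟨0,[(3,0),(13,0)]⟩⟩ ⟨true,0,⟨0,[(16,0),(16,0)]⟩,⟨0,[(7,0),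
  (9,0),(0,0)]⟩⟩]⟩) (.R ⟨0,false,false,true,[1,0,0,-1],[0,0,1],[1,0,1],(⟨0,[(16,0)]⟩,⟨0,[(17,0)]⟩),
  (⟨0,[(26,0)]⟩,⟨0,[(25,0)]⟩),⟨0,[(1,0)]⟩,.k,.k,(.x (-1) ⟨3,[(14,0),(0,0),(11,1),(0,3)]⟩ ⟨0,[(29,
  0)]⟩),.k,.k,.k,⟨true,0,⟨3,[(0,1),(10,1),(2,0),(9,1),(10,0)]⟩,⟨0,[(9,0)]⟩⟩,⟨false,0,⟨0,[(8,0),(7,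
  0),(7,0)]⟩,⟨1,[(5,0),(11,1),(5,0),(10,1)]⟩⟩,⟨false,0,⟨0,[(3,0),(13,0)]⟩,⟨1,[(14,0),(19,0)]⟩⟩,
  ⟨true,(-1),⟨0,[(0,0),(6,0),(8,0),(13,0)]⟩,⟨0,[(2,0),(15,0)]⟩⟩,⟨false,0,⟨0,[]⟩,⟨0,[]⟩⟩,⟨false,0,⟨0,
  []⟩,⟨0,[]⟩⟩,[.o ⟨false,0,⟨0,[(20,0)]⟩,⟨0,[(18,0),(16,0)]⟩⟩,.o ⟨false,0,⟨0,[(8,0)]⟩,⟨1,[(21,1),(5,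
  0),(7,0)]⟩⟩,.o ⟨false,1,⟨1,[(17,1),(9,0),(6,0)]⟩,⟨1,[(5,0),(10,1),(5,0)]⟩⟩,.a ⟨true,0,⟨0,[(17,
  0)]⟩,⟨0,[(16,0)]⟩⟩ ⟨true,0,⟨0,[]⟩,⟨0,[(37,0)]⟩⟩ ⟨false,0,⟨0,[(8,0),(7,0)]⟩,⟨0,[(17,0),(0,0),(16,
  0)]⟩⟩]⟩)) (.I [0,-1,-1,0,1,0,0,1,-1] (.R ⟨1,false,false,true,[1,0,0,-1],[1,0,-1],[0,0,0,0,0,0,0,0,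
  -1],(⟨0,[(16,0)]⟩,⟨0,[(17,0)]⟩),(⟨0,[(25,0)]⟩,⟨0,[(26,0)]⟩),⟨0,[(1,0)]⟩,.k,.k,(.x (-1) ⟨3,[(14,0),
  (0,0),(11,1),(0,3)]⟩ ⟨0,[(29,0)]⟩),.k,(.r (-1) ⟨0,[(0,0),(31,0)]⟩ ⟨2,[(3,2),(13,2),(3,0),(0,0),(1,
  1),(5,0),(2,2)]⟩),.k,⟨false,1,⟨0,[(0,0)]⟩,⟨0,[(3,0),(13,0),(6,0),(5,0)]⟩⟩,⟨true,0,⟨1,[(5,0),(10,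
  1),(6,0)]⟩,⟨0,[(8,0),(8,0),(6,0)]⟩⟩,⟨false,1,⟨3,[(14,0),(0,0),(19,1)]⟩,⟨0,[]⟩⟩,⟨false,0,⟨0,[(3,0),
  (17,0)]⟩,⟨0,[(2,0),(5,0)]⟩⟩,⟨true,0,⟨0,[(33,0)]⟩,⟨0,[(32,0)]⟩⟩,⟨false,0,⟨0,[(3,0),(17,0),(11,0)]⟩,
  ⟨0,[(2,0),(4,0)]⟩⟩,[.o ⟨false,0,⟨0,[(18,0)]⟩,⟨7,[(13,3),(0,0),(0,0),(11,1),(7,3)]⟩⟩,.o ⟨false,1,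
  ⟨1,[(21,1),(5,0),(7,0)]⟩,⟨0,[(8,0)]⟩⟩,.o ⟨false,1,⟨1,[(17,1),(9,0),(6,0)]⟩,⟨1,[(5,0),(10,1),(5,
  0)]⟩⟩,.a ⟨true,0,⟨0,[(17,0)]⟩,⟨0,[(16,0)]⟩⟩ ⟨false,1,⟨0,[(0,0),(23,0)]⟩,⟨0,[(3,0),(13,0),(19,
  0)]⟩⟩ ⟨true,0,⟨0,[(16,0),(1,0)]⟩,⟨0,[(8,0),(8,0)]⟩⟩]⟩) (.I [1,-1,-1,0,1,0,0,0,-1] (.R ⟨1,false,
  false,true,[1,0,0,-1],[1,0,-1],[0,1,0,0,0,0,0,0,-1],(⟨0,[(17,0)]⟩,⟨0,[(18,0)]⟩),(⟨0,[(26,0)]⟩,⟨0,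
  [(27,0)]⟩),⟨0,[(2,0)]⟩,.k,.k,(.x (-1) ⟨3,[(15,0),(0,0),(11,1),(0,3)]⟩ ⟨0,[(30,0)]⟩),.k,(.x 0 ⟨0,
  [(5,0),(3,0),(15,0)]⟩ ⟨1,[(24,1),(1,1),(1,0),(1,1),(4,0)]⟩),.k,⟨false,1,⟨0,[(0,0),(9,0)]⟩,⟨1,[(1,
  1),(33,0),(0,0)]⟩⟩,⟨true,0,⟨1,[(6,0),(10,1),(6,0)]⟩,⟨0,[(1,0),(1,0),(5,0)]⟩⟩,⟨true,0,⟨0,[(38,0)]⟩,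
  ⟨0,[]⟩⟩,⟨false,0,⟨0,[(4,0),(17,0)]⟩,⟨0,[(3,0),(5,0)]⟩⟩,⟨false,0,⟨0,[(34,0)]⟩,⟨0,[(33,0),(2,0)]⟩⟩,
  ⟨false,0,⟨0,[(4,0),(17,0),(11,0)]⟩,⟨0,[(3,0),(4,0)]⟩⟩,[.o ⟨false,0,⟨0,[(19,0)]⟩,⟨7,[(14,3),(0,0),
  (0,0),(11,1),(7,3)]⟩⟩,.o ⟨false,1,⟨1,[(22,1),(5,0),(7,0)]⟩,⟨0,[(9,0)]⟩⟩,.o ⟨false,1,⟨1,[(18,1),(9,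
  0),(6,0)]⟩,⟨1,[(6,0),(10,1),(5,0)]⟩⟩,.a ⟨true,0,⟨0,[(18,0)]⟩,⟨0,[(17,0)]⟩⟩ ⟨false,1,⟨1,[(15,0),
  (19,0)]⟩,⟨0,[(4,0),(13,0)]⟩⟩ ⟨true,0,⟨0,[(17,0),(1,0)]⟩,⟨0,[(9,0),(8,0)]⟩⟩]⟩) (.R ⟨0,false,false,
  true,[1,0,-1],[0,0,0,1],[],(⟨0,[(26,0)]⟩,⟨0,[(27,0)]⟩),(⟨0,[(18,0)]⟩,⟨0,[(17,0)]⟩),⟨0,[(7,0)]⟩,.k,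
  .k,.k,.k,.k,.k,⟨true,1,⟨1,[(15,0),(20,0)]⟩,⟨0,[(0,0)]⟩⟩,⟨false,0,⟨0,[(9,0),(7,0),(7,0)]⟩,⟨1,[(6,
  0),(11,1),(5,0),(10,1)]⟩⟩,⟨false,1,⟨0,[(10,0),(25,0)]⟩,⟨0,[(25,0)]⟩⟩,⟨true,(-1),⟨0,[(0,0),(8,0),
  (7,0)]⟩,⟨0,[(3,0),(15,0)]⟩⟩,⟨false,0,⟨0,[]⟩,⟨0,[]⟩⟩,⟨false,0,⟨0,[]⟩,⟨0,[]⟩⟩,[.a ⟨true,(-1),⟨0,[(0,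
  0),(16,0)]⟩,⟨0,[(3,0)]⟩⟩ ⟨false,1,⟨3,[(15,0),(0,0),(18,1)]⟩,⟨0,[]⟩⟩ ⟨true,(-1),⟨0,[(1,0),(7,0),(7,
  0)]⟩,⟨1,[(3,1),(2,0),(17,0)]⟩⟩,.o ⟨false,0,⟨0,[(4,0),(33,0)]⟩,⟨0,[(3,0),(5,0),(9,0)]⟩⟩,.o ⟨false,
  1,⟨1,[(24,1),(3,0),(6,0)]⟩,⟨0,[(9,0),(15,0)]⟩⟩,.o ⟨false,0,⟨0,[(20,0)]⟩,⟨0,[(23,0),(11,
  0)]⟩⟩]⟩))))))))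

theorem ok12 : chk (cU (-1) true 3) t12 r6 = true := by decide +kernel

noncomputable def t13 : Tre :=
  .Q [0,0,0,0,0,-1,0,0,0,1,-1] (.ed true [0,1,1] .k) t11 t12

theorem ok13 : chk (cU (-1) true 3) t13 r5 = true :=
  chk_Q (e' := [0,0,0,0,0,1,0,0,0,-1,1]) (by decide +kernel) (by decide +kernel) ok11 ok12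

noncomputable def t14 : Tre :=
  .Q [0,0,0,1,0,0,-1,-1,0,0,1] (.p true [0,0,1] [] (⟨0,[(18,0)]⟩,⟨0,[(17,0)]⟩) .k 0 (⟨0,[]⟩,⟨0,[]⟩)
  .k .k) t4 t13

theorem ok14 : chk (cU (-1) true 3) t14 r4 = true :=
  chk_Q (e' := [0,0,0,-1,0,0,1,1,0,0,-1]) (by decide +kernel) (by decide +kernel) ok4 ok13

noncomputable def t15 : Tre :=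
  .Q [0,0,0,0,0,0,-1,-1,0,0,1] (.p true [0,0,1] [] (⟨0,[(17,0)]⟩,⟨0,[(16,0)]⟩) .k 0 (⟨0,[]⟩,⟨0,[]⟩)
  .k .k) t3 t14

theorem ok15 : chk (cU (-1) true 3) t15 l3 = true :=
  chk_Q (e' := [0,0,0,0,0,0,1,1,0,0,-1]) (by decide +kernel) (by decide +kernel) ok3 ok14

noncomputable def l10 : List Con := (false, [0,0,0,0,0,0,-1,-1,0,0,1]) :: r3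

noncomputable def r10 : List Con := (false, [0,0,0,0,0,0,1,1,0,0,-1]) :: r3

noncomputable def t16 : Tre :=
  (.R ⟨2,false,false,false,[0,1],[1,0,-1],[1,0,1,0,0,0,0,-1],(⟨0,[]⟩,⟨0,[]⟩),(⟨0,[(17,0)]⟩,⟨0,[(18,
  0)]⟩),⟨0,[]⟩,.k,.k,.k,.k,.k,.k,⟨false,0,⟨0,[]⟩,⟨3,[(6,0),(0,0),(18,1)]⟩⟩,⟨true,0,⟨0,[(11,0)]⟩,⟨4,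
  [(3,3),(0,3),(0,0),(7,1),(0,0),(7,0)]⟩⟩,⟨true,0,⟨0,[(3,0)]⟩,⟨0,[(4,0),(6,0),(10,0)]⟩⟩,⟨false,1,⟨1,
  [(3,1),(7,1),(14,0),(0,0)]⟩,⟨0,[(4,0),(24,0)]⟩⟩,⟨false,0,⟨0,[(1,0)]⟩,⟨7,[(5,3),(0,0),(0,0),(7,7),
  (3,1),(6,3)]⟩⟩,⟨false,1,⟨1,[(0,1),(18,0),(7,0)]⟩,⟨1,[(5,0),(2,0),(0,0)]⟩⟩,[.a ⟨true,0,⟨0,[(0,0)]⟩,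
  ⟨1,[(5,0),(2,0),(0,0)]⟩⟩ ⟨false,0,⟨0,[(16,0)]⟩,⟨1,[(5,0),(5,0),(3,0),(10,1)]⟩⟩ ⟨true,0,⟨0,[(0,0),
  (1,0)]⟩,⟨1,[(5,0),(2,0),(0,0)]⟩⟩,.o ⟨false,1,⟨1,[(0,1),(18,0),(7,0)]⟩,⟨0,[(12,0)]⟩⟩,.o ⟨false,1,
  ⟨3,[(6,0),(0,0),(18,1)]⟩,⟨0,[(2,0)]⟩⟩,.e ⟨false,0,⟨0,[(1,0)]⟩,⟨7,[(5,3),(0,0),(0,0),(7,7),(3,1),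
  (6,3)]⟩⟩ ⟨false,1,⟨1,[(0,1),(18,0),(7,0)]⟩,⟨1,[(5,0),(2,0),(0,0)]⟩⟩]⟩)

theorem ok16 : chk (cU (-1) true 3) t16 l10 = true := by decide +kernel

noncomputable def l11 : List Con := (false, [0,0,0,0,0,1,0,0,0,-1,1]) :: r10

noncomputable def r11 : List Con := (false, [0,0,0,0,0,-1,0,0,0,1,-1]) :: r10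

noncomputable def t17 : Tre :=
  (.Q [0,-1,0,1,0,0,0,0,0,1] (.pp false [-1,1]) (.R ⟨0,false,false,true,[1,0,-1],[1,-1],[],(⟨0,[(19,
  0)]⟩,⟨0,[(20,0)]⟩),(⟨0,[(22,0)]⟩,⟨0,[(23,0)]⟩),⟨0,[(1,0)]⟩,.k,.k,.k,.k,.k,.k,⟨true,0,⟨0,[(0,0),(3,
  0)]⟩,⟨0,[(26,0)]⟩⟩,⟨false,0,⟨2,[(2,1),(0,1),(12,0),(7,0)]⟩,⟨0,[(17,0),(10,0)]⟩⟩,⟨false,1,⟨1,[(7,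
  0),(5,0),(3,0),(10,0),(0,0)]⟩,⟨0,[(18,0)]⟩⟩,⟨true,0,⟨0,[(2,0),(23,0)]⟩,⟨0,[(0,0),(11,0)]⟩⟩,⟨false,
  0,⟨0,[]⟩,⟨0,[]⟩⟩,⟨false,0,⟨0,[]⟩,⟨0,[]⟩⟩,[.a ⟨true,0,⟨0,[(26,0)]⟩,⟨0,[(0,0)]⟩⟩ ⟨false,1,⟨3,[(8,0),
  (0,0),(18,1)]⟩,⟨0,[]⟩⟩ ⟨true,0,⟨0,[(5,0),(8,0)]⟩,⟨0,[(0,0),(12,0)]⟩⟩,.o ⟨false,1,⟨1,[(21,0),(4,1),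
  (2,0)]⟩,⟨0,[(27,0)]⟩⟩,.o ⟨false,1,⟨1,[(17,1),(3,0),(6,0)]⟩,⟨2,[(2,1),(0,1),(12,0),(7,0)]⟩⟩,.o
  ⟨false,0,⟨0,[(13,0)]⟩,⟨0,[(16,0),(11,0)]⟩⟩]⟩) (.Q [0,0,-1,0,0,0,1,0,0,2,-1] (.p false [-1,1,1]
  [1] (⟨0,[(1,0)]⟩,⟨0,[(19,0),(2,0)]⟩) .k 1 (⟨0,[]⟩,⟨0,[]⟩) .k .k) (.R ⟨0,false,false,false,[-1,1,
  1],[0,0,1],[1,0,1],(⟨0,[(2,0)]⟩,⟨0,[(20,0),(2,0)]⟩),(⟨0,[(21,0)]⟩,⟨0,[(20,0)]⟩),⟨0,[(20,0)]⟩,.k,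
  .k,.k,.k,.k,.k,⟨false,0,⟨0,[(19,0)]⟩,⟨1,[(8,0),(5,0),(3,0),(10,1)]⟩⟩,⟨true,0,⟨0,[(5,0)]⟩,⟨1,[(0,
  0),(17,0)]⟩⟩,⟨true,0,⟨0,[(6,0)]⟩,⟨0,[(7,0),(6,0),(10,0)]⟩⟩,⟨false,1,⟨0,[(1,0),(28,0)]⟩,⟨0,[(7,0),
  (8,0)]⟩⟩,⟨false,0,⟨0,[]⟩,⟨0,[]⟩⟩,⟨false,0,⟨0,[]⟩,⟨0,[]⟩⟩,[.o ⟨false,0,⟨0,[(3,0)]⟩,⟨1,[(16,1),(5,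
  0),(7,0)]⟩⟩,.o ⟨false,1,⟨7,[(8,3),(0,0),(0,0),(11,1),(7,3)]⟩,⟨0,[(13,0)]⟩⟩,.a ⟨true,0,⟨0,[(0,0)]⟩,
  ⟨0,[(14,0)]⟩⟩ ⟨false,0,⟨0,[(26,0)]⟩,⟨3,[(9,0),(0,0),(18,1)]⟩⟩ ⟨true,0,⟨0,[(3,0),(10,0)]⟩,⟨0,[(0,
  0),(12,0)]⟩⟩,.o ⟨false,0,⟨1,[(0,0),(16,0)]⟩,⟨1,[(14,1),(7,0),(6,0)]⟩⟩]⟩) (.I [0,0,1,2,-1,0,0,-1]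
  (.I [1,0,2,2,-1,0,0,1] (.R ⟨2,true,false,true,[0,1],[1,-1],[1,1,1],(⟨0,[]⟩,⟨0,[]⟩),(⟨0,[(25,0)]⟩,
  ⟨0,[(26,0)]⟩),⟨0,[]⟩,.k,.k,.k,(.r 1 ⟨3,[(0,1),(0,1),(17,0),(0,0)]⟩ ⟨0,[(29,1),(1,0),(0,0)]⟩),.k,
  .k,⟨true,(-1),⟨0,[(0,0),(7,0)]⟩,⟨1,[(29,1),(1,0),(0,0)]⟩⟩,⟨false,0,⟨0,[(7,0)]⟩,⟨0,[(13,0),(0,0),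
  (16,0)]⟩⟩,⟨true,0,⟨0,[(29,0)]⟩,⟨0,[(30,0)]⟩⟩,⟨false,1,⟨0,[(3,0),(25,0),(2,0)]⟩,⟨0,[(0,0),(5,0),(6,
  0),(0,0),(16,0)]⟩⟩,⟨false,0,⟨0,[]⟩,⟨3,[(11,0),(0,0),(19,1)]⟩⟩,⟨true,0,⟨0,[(3,0)]⟩,⟨0,[(9,0),(8,
  0)]⟩⟩,[]⟩) (.Q [0,-1,0,2,0,0,0,0,0,1] (.pp false [-1,1]) (.R ⟨2,true,false,true,[0,1],[1,-1],[0,1,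
  1,1],(⟨0,[]⟩,⟨0,[]⟩),(⟨0,[(26,0)]⟩,⟨0,[(27,0)]⟩),⟨0,[]⟩,.k,.k,.k,(.r 1 ⟨3,[(2,3),(0,0),(7,1),(9,
  2)]⟩ ⟨7,[(1,7),(9,3),(0,0),(0,0),(7,7),(3,1),(6,3)]⟩),.k,.k,⟨true,(-1),⟨3,[(2,3),(0,0),(7,1),(9,
  2)]⟩,⟨3,[(1,3),(1,0),(7,1),(9,2)]⟩⟩,⟨false,0,⟨0,[(8,0)]⟩,⟨0,[(14,0),(0,0),(16,0)]⟩⟩,⟨true,0,⟨0,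
  [(35,0)]⟩,⟨0,[]⟩⟩,⟨false,1,⟨0,[(4,0),(25,0),(2,0)]⟩,⟨0,[(0,0)]⟩⟩,⟨false,0,⟨0,[(31,0)]⟩,⟨0,[(30,0),
  (2,0)]⟩⟩,⟨true,0,⟨0,[(4,0)]⟩,⟨3,[(0,1),(10,0),(2,0),(0,0),(3,1)]⟩⟩,[]⟩) (.Q [0,1,-1,0,0,0,0,0,-1,
  0,0,1] (.p true [0,0,0,1] [] (⟨0,[(15,0)]⟩,⟨0,[(14,0)]⟩) .k 0 (⟨0,[]⟩,⟨0,[]⟩) .k .k) (.K ⟨0,[0,0,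
  0,1],0,0,(⟨0,[(16,0)]⟩,⟨0,[(15,0)]⟩),.k,(.x 0 ⟨1,[(4,0),(16,1),(0,0),(4,1)]⟩ ⟨0,[(28,0),(4,0)]⟩),
  (.x 0 ⟨0,[(28,0)]⟩ ⟨3,[(13,0),(0,0),(11,1),(0,3)]⟩),.k,.k,[⟨0,[(16,0)]⟩,⟨0,[(15,0)]⟩,⟨0,[(0,0)]⟩,
  ⟨3,[(1,1),(1,1),(0,0),(9,1),(0,3),(3,1),(2,0)]⟩]⟩) (.Q [0,1,1,0,-1,0,0,0,1,0,0,-1] (.p false [0,0,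
  0,1] [] (⟨0,[(16,0)]⟩,⟨0,[(15,0)]⟩) .k 0 (⟨0,[]⟩,⟨0,[]⟩) .k .k) (.K ⟨0,[0,0,0,1],0,(-1),(⟨0,[(17,
  0)]⟩,⟨0,[(16,0)]⟩),.k,(.r (-1) ⟨5,[(0,0),(0,0),(0,1),(0,1),(8,1),(2,1),(1,1),(5,1),(10,2)]⟩ ⟨7,
  [(4,3),(0,0),(7,1),(0,3),(8,2)]⟩),(.x 0 ⟨0,[(29,0)]⟩ ⟨3,[(14,0),(0,0),(11,1),(0,3)]⟩),.k,.k,[⟨0,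
  [(17,0)]⟩,⟨0,[(16,0)]⟩,⟨7,[(14,4),(0,0),(1,7),(12,3),(3,1)]⟩,⟨0,[(0,0)]⟩]⟩) (.Q [0,0,0,0,0,1,0,0,
  0,0,-1] (.ed true [1,-1,1] .k) (.Q [0,0,0,-1,0,0,1,1,0,-1,-1] (.p false [1,-1,1] [] (⟨0,[(27,0),
  (1,0)]⟩,⟨0,[(0,0)]⟩) .k 0 (⟨0,[]⟩,⟨0,[]⟩) .k .k) (.Q [0,0,0,0,0,-2,0,0,0,1,1] (.p true [1,-1,1]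
  [] (⟨0,[(28,0),(1,0)]⟩,⟨0,[(1,0)]⟩) .k 0 (⟨0,[]⟩,⟨0,[]⟩) .k .k) (.R ⟨1,true,true,true,[1,-1,1],[],
  [0,0,-1,-1,0,0,0,1],(⟨1,[(0,0),(18,0),(0,0),(8,0)]⟩,⟨0,[(2,0)]⟩),(⟨0,[]⟩,⟨0,[]⟩),⟨0,[(0,0)]⟩,.k,
  .k,(.r (-2) ⟨2,[(5,1),(0,0),(9,1),(9,3),(10,3),(0,0)]⟩ ⟨1,[(7,1),(17,0),(0,0)]⟩),.k,(.r (-2) ⟨2,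
  [(5,1),(0,0),(9,1),(9,3),(10,3),(0,0)]⟩ ⟨1,[(7,1),(17,0),(0,0)]⟩),.k,⟨false,2,⟨9,[(1,5),(4,3),(8,
  3),(0,1),(9,13),(10,12),(0,2)]⟩,⟨0,[(7,0),(27,0)]⟩⟩,⟨true,1,⟨0,[(19,0),(0,0),(5,0),(10,0)]⟩,⟨11,
  [(1,3),(3,9),(1,11),(0,0),(7,3),(8,0),(8,9)]⟩⟩,⟨false,1,⟨3,[(17,0),(0,0),(19,1)]⟩,⟨0,[]⟩⟩,⟨true,0,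
  ⟨0,[(15,0),(8,1)]⟩,⟨0,[(1,0)]⟩⟩,⟨true,0,⟨0,[(36,0)]⟩,⟨0,[(35,0)]⟩⟩,⟨false,0,⟨0,[(7,0),(11,0),(0,
  0),(5,0),(10,0)]⟩,⟨11,[(1,3),(3,9),(10,3),(13,0),(7,10)]⟩⟩,[]⟩) (.Q [0,-1,-1,0,1,0,0,0,-1,-1,0,1]
  (.p true [0,0,0,1] [1] (⟨0,[(20,0)]⟩,⟨0,[(19,0)]⟩) .k 1 (⟨0,[]⟩,⟨0,[]⟩) .k .k) (.Q [0,1,1,1,-1,0,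
  0,0,1,1,0,-1] (.p false [0,0,0,1] [1] (⟨0,[(21,0)]⟩,⟨0,[(20,0)]⟩) .k 1 (⟨0,[]⟩,⟨0,[]⟩) .k .k) (.Q
  [0,0,0,0,0,1,0,0,0,-1,0,1] (.p true [0,0,0,1] [1] (⟨0,[(22,0)]⟩,⟨0,[(21,0)]⟩) .k 1 (⟨0,[]⟩,⟨0,
  []⟩) .k .k) (.R ⟨0,false,false,true,[1,0,0,-1],[0,1],[1,0,1],(⟨0,[(22,0)]⟩,⟨0,[(23,0)]⟩),(⟨0,[(35,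
  0)]⟩,⟨0,[(34,0)]⟩),⟨0,[(0,0)]⟩,.k,.k,(.x (-1) ⟨3,[(20,0),(0,0),(11,1),(0,3)]⟩ ⟨0,[(35,0)]⟩),(.x
  (-1) ⟨3,[(20,0),(0,0),(11,1),(0,3)]⟩ ⟨0,[(35,0)]⟩),.k,.k,⟨false,1,⟨1,[(9,1),(1,0),(6,1),(10,0)]⟩,
  ⟨9,[(10,1),(9,0),(0,0),(4,1),(2,1),(6,3),(2,5)]⟩⟩,⟨true,0,⟨0,[(22,0)]⟩,⟨1,[(11,0),(11,1),(4,0)]⟩⟩,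
  ⟨false,0,⟨0,[(7,0),(15,0)]⟩,⟨1,[(20,0),(19,0)]⟩⟩,⟨true,(-1),⟨0,[(1,0)]⟩,⟨11,[(2,3),(3,5),(1,5),
  (11,0),(2,1),(9,0),(2,1)]⟩⟩,⟨false,0,⟨0,[]⟩,⟨0,[]⟩⟩,⟨false,0,⟨0,[]⟩,⟨0,[]⟩⟩,[.o ⟨false,0,⟨9,[(10,
  1),(9,0),(0,0),(4,1),(2,1),(6,3),(2,5)]⟩,⟨3,[(8,1),(24,0),(7,2)]⟩⟩,.o ⟨false,0,⟨0,[(39,0)]⟩,⟨3,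
  [(8,1),(11,0),(0,0),(11,0),(7,0)]⟩⟩,.o ⟨false,1,⟨1,[(23,1),(9,0),(6,0)]⟩,⟨9,[(1,2),(2,0),(2,4),(0,
  1),(1,0),(0,0),(8,3),(1,1)]⟩⟩,.a ⟨true,0,⟨0,[(23,0)]⟩,⟨0,[(22,0)]⟩⟩ ⟨true,0,⟨0,[]⟩,⟨0,[(43,0)]⟩⟩
  ⟨false,0,⟨0,[(22,0),(16,0)]⟩,⟨3,[(8,1),(14,3),(9,0),(7,2)]⟩⟩]⟩) (.R ⟨1,false,false,true,[1,0,0,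
  -1],[1,-1],[0,0,0,0,0,0,0,0,-1],(⟨0,[(22,0)]⟩,⟨0,[(23,0)]⟩),(⟨0,[(34,0)]⟩,⟨0,[(35,0)]⟩),⟨0,[(0,
  0)]⟩,.k,.k,(.x (-1) ⟨3,[(20,0),(0,0),(11,1),(0,3)]⟩ ⟨0,[(35,0)]⟩),(.r 0 ⟨7,[(10,3),(0,0),(7,1),(0,
  3),(8,2)]⟩ ⟨6,[(1,0),(5,1),(0,2),(0,1),(8,1),(2,1),(1,2),(5,1),(10,3)]⟩),.k,.k,⟨true,0,⟨0,[(4,0),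
  (1,0),(3,0),(11,0),(6,0)]⟩,⟨6,[(1,3),(5,0),(0,4),(0,0),(8,0),(2,0),(1,4),(5,0),(10,1)]⟩⟩,⟨false,0,
  ⟨9,[(1,2),(2,0),(2,4),(0,1),(1,0),(0,0),(8,3),(1,1)]⟩,⟨0,[(23,0),(16,0)]⟩⟩,⟨false,1,⟨3,[(20,0),(0,
  0),(19,1)]⟩,⟨0,[]⟩⟩,⟨false,0,⟨0,[(7,0),(30,0)]⟩,⟨0,[(6,0),(32,0)]⟩⟩,⟨true,0,⟨0,[(39,0)]⟩,⟨0,[(38,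
  0)]⟩⟩,⟨false,0,⟨19,[(1,7),(5,11),(0,3),(11,2),(0,2),(11,1)]⟩,⟨0,[(6,0)]⟩⟩,[.o ⟨false,0,⟨0,[(12,
  0)]⟩,⟨3,[(20,0),(0,0),(17,3),(1,1)]⟩⟩,.o ⟨false,1,⟨3,[(8,1),(11,0),(0,0),(11,0),(7,0)]⟩,⟨0,[(39,
  0)]⟩⟩,.o ⟨false,1,⟨1,[(23,1),(9,0),(6,0)]⟩,⟨9,[(1,2),(2,0),(2,4),(0,1),(1,0),(0,0),(8,3),(1,1)]⟩⟩,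
  .a ⟨true,0,⟨0,[(23,0)]⟩,⟨0,[(22,0)]⟩⟩ ⟨false,1,⟨0,[(2,0),(19,0)]⟩,⟨11,[(1,3),(6,1),(2,0),(9,3),(1,
  3),(4,0),(8,5)]⟩⟩ ⟨true,0,⟨49,[(1,1),(2,3),(3,27),(1,3),(0,3),(8,0),(1,47),(10,4),(2,9)]⟩,⟨0,[(23,
  0),(15,0)]⟩⟩]⟩)) (.Q [0,0,0,0,0,1,0,0,0,-1,0,1] (.p true [0,0,0,1] [1] (⟨0,[(22,0)]⟩,⟨0,[(21,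
  0)]⟩) .k 1 (⟨0,[]⟩,⟨0,[]⟩) .k .k) (.R ⟨0,false,false,false,[1,0,0,-1],[0,1],[0,1,0,0,0,0,0,0,-1],
  (⟨0,[(22,0)]⟩,⟨0,[(23,0)]⟩),(⟨0,[(35,0)]⟩,⟨0,[(34,0)]⟩),⟨0,[(0,0)]⟩,.k,.k,(.x (-1) ⟨3,[(20,0),(0,
  0),(11,1),(0,3)]⟩ ⟨0,[(35,0)]⟩),(.x (-1) ⟨3,[(20,0),(0,0),(11,1),(0,3)]⟩ ⟨0,[(35,0)]⟩),.k,.k,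
  ⟨false,1,⟨0,[(1,0),(20,0),(13,0)]⟩,⟨5,[(7,3),(2,1),(0,0),(6,1),(2,0),(1,3),(5,0),(10,0)]⟩⟩,⟨true,
  0,⟨0,[(22,0)]⟩,⟨1,[(11,0),(11,1),(4,0)]⟩⟩,⟨true,0,⟨0,[(43,0)]⟩,⟨0,[]⟩⟩,⟨false,0,⟨0,[(7,0),(10,0),
  (8,0)]⟩,⟨27,[(1,19),(6,3),(11,4),(0,0),(1,7),(9,1),(2,7)]⟩⟩,⟨false,0,⟨0,[]⟩,⟨0,[]⟩⟩,⟨false,0,⟨0,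
  []⟩,⟨0,[]⟩⟩,[.o ⟨false,0,⟨0,[(39,0)]⟩,⟨3,[(8,1),(11,0),(0,0),(11,0),(7,0)]⟩⟩,.o ⟨false,1,⟨3,[(20,
  0),(0,0),(17,3),(1,1)]⟩,⟨0,[(12,0)]⟩⟩,.o ⟨false,1,⟨1,[(23,1),(9,0),(6,0)]⟩,⟨1,[(11,0),(10,1),(5,
  0)]⟩⟩,.a ⟨true,0,⟨0,[(23,0)]⟩,⟨0,[(22,0)]⟩⟩ ⟨false,1,⟨1,[(20,0),(19,0)]⟩,⟨0,[(7,0),(15,0)]⟩⟩
  ⟨true,0,⟨0,[(22,0),(16,0)]⟩,⟨0,[(12,0),(10,0)]⟩⟩]⟩) (.R ⟨1,false,false,true,[1,0,0,-1],[1,-1],[1,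
  0,0,-1,0,0,0,0,-1],(⟨0,[(22,0)]⟩,⟨0,[(23,0)]⟩),(⟨0,[(34,0)]⟩,⟨0,[(35,0)]⟩),⟨0,[(0,0)]⟩,.k,.k,(.x
  (-1) ⟨3,[(20,0),(0,0),(11,1),(0,3)]⟩ ⟨0,[(35,0)]⟩),(.r 0 ⟨7,[(10,3),(0,0),(7,1),(0,3),(8,2)]⟩ ⟨3,
  [(7,1),(0,1),(12,0),(0,1),(0,3),(16,2)]⟩),.k,.k,⟨true,0,⟨0,[(1,0),(6,0),(1,0),(7,0),(3,0),(6,0)]⟩,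
  ⟨0,[(7,0),(15,0),(12,0)]⟩⟩,⟨false,0,⟨1,[(11,0),(10,1),(5,0)]⟩,⟨0,[(23,0),(16,0)]⟩⟩,⟨false,1,⟨0,
  [(38,0),(2,0)]⟩,⟨0,[(39,0)]⟩⟩,⟨false,0,⟨0,[(7,0),(30,0)]⟩,⟨0,[(6,0),(32,0)]⟩⟩,⟨true,0,⟨0,[]⟩,⟨0,
  [(43,0)]⟩⟩,⟨false,0,⟨0,[(7,0),(35,0)]⟩,⟨0,[(6,0)]⟩⟩,[.o ⟨false,0,⟨0,[(12,0)]⟩,⟨3,[(20,0),(0,0),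
  (17,3),(1,1)]⟩⟩,.o ⟨false,1,⟨3,[(8,1),(11,0),(0,0),(11,0),(7,0)]⟩,⟨0,[(39,0)]⟩⟩,.o ⟨false,1,⟨1,
  [(23,1),(9,0),(6,0)]⟩,⟨1,[(11,0),(10,1),(5,0)]⟩⟩,.a ⟨true,0,⟨0,[(23,0)]⟩,⟨0,[(22,0)]⟩⟩ ⟨false,1,
  ⟨0,[(1,0),(20,0)]⟩,⟨7,[(10,3),(0,0),(7,1),(1,3),(7,2)]⟩⟩ ⟨true,0,⟨0,[(12,0),(9,0)]⟩,⟨0,[(23,0),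
  (15,0)]⟩⟩]⟩))) (.R ⟨2,false,false,true,[0,1],[0,0,0,1],[0,1,1,1],(⟨0,[]⟩,⟨0,[]⟩),(⟨0,[(21,0)]⟩,⟨0,
  [(20,0)]⟩),⟨0,[]⟩,.k,.k,.k,(.r 0 ⟨7,[(8,3),(0,0),(7,1),(0,3),(8,2)]⟩ ⟨19,[(0,3),(1,5),(2,1),(1,7),
  (8,1),(2,6),(1,5),(5,7),(10,8)]⟩),.k,.k,⟨true,0,⟨7,[(8,3),(0,0),(7,1),(0,3),(8,2)]⟩,⟨0,[(0,0),(6,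
  0),(1,0),(6,0),(4,0)]⟩⟩,⟨false,0,⟨1,[(9,0),(10,1),(5,0)]⟩,⟨0,[(21,0),(16,0)]⟩⟩,⟨true,0,⟨0,[(41,
  0)]⟩,⟨0,[]⟩⟩,⟨false,0,⟨0,[(5,0),(30,0)]⟩,⟨0,[(4,0),(32,0)]⟩⟩,⟨false,0,⟨0,[(37,0)]⟩,⟨0,[(36,0),(2,
  0)]⟩⟩,⟨false,0,⟨7,[(0,3),(4,3),(12,0),(0,0),(11,1)]⟩,⟨0,[(4,0)]⟩⟩,[.a ⟨true,(-1),⟨0,[(0,0)]⟩,⟨0,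
  [(4,0)]⟩⟩ ⟨false,0,⟨9,[(8,1),(9,0),(0,0),(4,1),(2,1),(6,3),(2,5)]⟩,⟨1,[(7,1),(1,0),(6,1),(10,
  0)]⟩⟩ ⟨true,(-1),⟨1,[(0,1),(8,0),(16,0)]⟩,⟨0,[(4,0)]⟩⟩,.o ⟨false,0,⟨7,[(0,3),(4,3),(12,0),(0,0),
  (11,1)]⟩,⟨23,[(2,3),(1,21),(1,1),(1,3),(0,3),(8,0),(2,1),(9,4),(2,9)]⟩⟩,.o ⟨false,1,⟨3,[(18,0),(0,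
  0),(18,1)]⟩,⟨0,[(14,0)]⟩⟩,.e ⟨false,0,⟨0,[(37,0)]⟩,⟨0,[(36,0),(2,0)]⟩⟩ ⟨false,0,⟨7,[(0,3),(4,3),
  (12,0),(0,0),(11,1)]⟩,⟨0,[(4,0)]⟩⟩]⟩))) (.R ⟨0,false,false,false,[1,-1],[1,-1,1],[0,0,-1,-1,0,0,0,
  1],(⟨0,[(30,0)]⟩,⟨0,[(31,0)]⟩),(⟨0,[(28,0),(1,0)]⟩,⟨0,[(1,0)]⟩),⟨0,[(1,0),(7,0)]⟩,.k,.k,(.r (-2)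
  ⟨11,[(4,3),(0,7),(9,3),(0,2),(0,2),(7,7),(10,7),(0,1)]⟩ ⟨3,[(6,3),(0,0),(7,1),(9,2)]⟩),.k,.k,.k,
  ⟨false,1,⟨3,[(16,0),(0,0),(18,1)]⟩,⟨0,[]⟩⟩,⟨true,0,⟨2,[(5,0),(0,0),(3,1),(13,0)]⟩,⟨0,[(25,0)]⟩⟩,
  ⟨false,1,⟨3,[(7,0),(7,1),(9,2),(10,1),(0,1)]⟩,⟨0,[(26,0)]⟩⟩,⟨true,0,⟨0,[(10,0)]⟩,⟨0,[(23,0)]⟩⟩,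
  ⟨false,0,⟨0,[]⟩,⟨0,[]⟩⟩,⟨false,0,⟨0,[]⟩,⟨0,[]⟩⟩,[.a ⟨true,0,⟨0,[(4,0),(9,0)]⟩,⟨0,[(0,0)]⟩⟩ ⟨true,
  1,⟨0,[(4,0),(9,0),(10,0),(10,0)]⟩,⟨0,[(6,0),(26,0),(0,0)]⟩⟩ ⟨false,1,⟨0,[(4,0),(9,0),(21,0)]⟩,⟨1,
  [(0,1),(6,0),(16,0)]⟩⟩,.o ⟨false,1,⟨3,[(4,1),(5,3),(18,0),(7,2)]⟩,⟨4,[(0,2),(5,0),(13,0),(4,0),(3,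
  0),(2,1)]⟩⟩,.o ⟨false,0,⟨0,[(12,0)]⟩,⟨3,[(16,0),(0,0),(18,1)]⟩⟩,.o ⟨false,0,⟨1,[(7,0),(16,1),(0,
  0)]⟩,⟨0,[(36,0)]⟩⟩]⟩)) (.R ⟨1,true,false,true,[0,0,1],[0,1],[0,0,0,0,0,0,0,1],(⟨0,[(27,0)]⟩,⟨0,
  [(26,0)]⟩),(⟨0,[(30,0)]⟩,⟨0,[(29,0)]⟩),⟨0,[(0,0)]⟩,.k,.k,.k,.k,(.r (-2) ⟨2,[(3,1),(0,0),(9,1),(9,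
  3),(10,3),(0,0)]⟩ ⟨1,[(5,1),(17,0),(0,0)]⟩),.k,⟨false,2,⟨1,[(3,1),(9,1),(10,1),(10,2),(0,0)]⟩,⟨0,
  [(5,0),(27,0)]⟩⟩,⟨true,1,⟨0,[(24,0),(10,0)]⟩,⟨1,[(3,1),(1,1),(6,0),(0,0),(0,0),(9,0),(7,0)]⟩⟩,
  ⟨false,1,⟨3,[(15,0),(0,0),(19,1)]⟩,⟨0,[]⟩⟩,⟨true,0,⟨0,[(22,0),(11,0)]⟩,⟨0,[(3,0),(9,0)]⟩⟩,⟨true,0,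
  ⟨0,[(34,0)]⟩,⟨0,[(33,0)]⟩⟩,⟨false,0,⟨0,[(5,0),(18,0),(10,0)]⟩,⟨2,[(3,1),(0,0),(9,1),(9,0),(7,0),
  (3,1)]⟩⟩,[]⟩)))))) (.I [1,-1,1,0,0,0,0,0,1] (.I [0,0,-1,0,1,0,0,1,-1] (.Q [0,0,0,0,0,-1,0,0,0,1,0,
  -1] (.p false [0,0,0,1] [1] (⟨0,[(15,0)]⟩,⟨0,[(14,0)]⟩) .k 1 (⟨0,[]⟩,⟨0,[]⟩) .k .k) (.I [1,-1,-1,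
  -1,1,0,0,0,-1] (.R ⟨1,false,false,false,[1,0,0,-1],[0,1],[0,1,0,0,0,0,0,0,-1],(⟨0,[(16,0)]⟩,⟨0,
  [(17,0)]⟩),(⟨0,[(29,0)]⟩,⟨0,[(28,0)]⟩),⟨0,[(1,0)]⟩,.k,.k,(.x (-1) ⟨3,[(14,0),(0,0),(11,1),(0,3)]⟩
  ⟨0,[(29,0)]⟩),(.x (-1) ⟨3,[(14,0),(0,0),(11,1),(0,3)]⟩ ⟨0,[(29,0)]⟩),(.x 0 ⟨2,[(5,2),(2,1),(0,1),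
  (12,0),(5,5),(1,0)]⟩ ⟨3,[(14,0),(0,0),(13,7),(4,1)]⟩),.k,⟨false,1,⟨0,[(0,0),(29,0)]⟩,⟨0,[(3,0),
  (29,0)]⟩⟩,⟨true,0,⟨0,[(16,0)]⟩,⟨1,[(5,0),(11,1),(4,0)]⟩⟩,⟨true,0,⟨0,[(37,0)]⟩,⟨0,[]⟩⟩,⟨false,0,⟨0,
  [(3,0),(12,0),(16,0)]⟩,⟨11,[(0,9),(4,3),(0,1),(1,3),(0,3),(4,0),(2,11),(9,0),(2,5)]⟩⟩,⟨false,0,⟨0,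
  [(33,0)]⟩,⟨11,[(4,3),(6,3),(2,0),(0,0),(6,1),(0,1),(11,5)]⟩⟩,⟨false,0,⟨0,[(3,0),(12,0),(16,1)]⟩,
  ⟨0,[(0,0),(5,0),(10,0)]⟩⟩,[.o ⟨false,0,⟨0,[(33,0)]⟩,⟨11,[(4,3),(6,3),(2,0),(0,0),(6,1),(0,1),(3,
  5)]⟩⟩,.o ⟨false,1,⟨3,[(14,0),(0,0),(17,3),(1,1)]⟩,⟨0,[(6,0)]⟩⟩,.o ⟨false,1,⟨1,[(17,1),(9,0),(6,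
  0)]⟩,⟨1,[(5,0),(10,1),(5,0)]⟩⟩,.a ⟨true,0,⟨0,[(17,0)]⟩,⟨0,[(16,0)]⟩⟩ ⟨false,1,⟨1,[(14,0),(19,0)]⟩,
  ⟨0,[(3,0)]⟩⟩ ⟨true,0,⟨0,[(16,0),(16,0)]⟩,⟨0,[(6,0),(10,0)]⟩⟩]⟩) (.Q [0,0,-1,-2,1,0,0,0,-1,-1,0,1]
  (.p true [0,0,0,1] [1] (⟨0,[(17,0)]⟩,⟨0,[(16,0)]⟩) .k 1 (⟨0,[]⟩,⟨0,[]⟩) .k .k) (.R ⟨1,false,false,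
  true,[1,0,0,-1],[0,1],[1,0,0,-1,0,0,0,0,-1],(⟨0,[(17,0)]⟩,⟨0,[(18,0)]⟩),(⟨0,[(30,0)]⟩,⟨0,[(29,
  0)]⟩),⟨0,[(2,0)]⟩,.k,.k,(.x (-1) ⟨3,[(15,0),(0,0),(11,1),(0,3)]⟩ ⟨0,[(30,0)]⟩),(.x (-1) ⟨3,[(15,
  0),(0,0),(11,1),(0,3)]⟩ ⟨0,[(30,0)]⟩),(.r (-2) ⟨11,[(5,7),(6,7),(2,6),(0,0),(18,7)]⟩ ⟨0,[(1,0),
  (30,0),(1,0)]⟩),.k,⟨false,2,⟨1,[(0,1),(16,1),(17,0),(0,0)]⟩,⟨0,[(1,0),(32,0)]⟩⟩,⟨true,0,⟨0,[(17,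
  0)]⟩,⟨1,[(6,0),(11,1),(4,0)]⟩⟩,⟨false,1,⟨11,[(5,3),(6,3),(2,0),(0,0),(6,1),(0,1),(11,5)]⟩,⟨0,[(34,
  0)]⟩⟩,⟨true,(-1),⟨0,[(1,0),(15,0)]⟩,⟨0,[(0,0),(33,0)]⟩⟩,⟨true,0,⟨0,[]⟩,⟨0,[(38,0)]⟩⟩,⟨true,(-1),
  ⟨0,[(1,0),(15,0),(16,0)]⟩,⟨0,[(0,0)]⟩⟩,[.o ⟨false,0,⟨11,[(1,3),(13,2),(0,0),(14,3),(2,7)]⟩,⟨3,[(5,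
  0),(0,0),(2,0),(2,1),(15,0),(7,1)]⟩⟩,.o ⟨false,0,⟨0,[(34,0)]⟩,⟨11,[(5,3),(6,3),(2,0),(0,0),(6,1),
  (0,1),(3,5)]⟩⟩,.o ⟨false,1,⟨1,[(18,1),(9,0),(6,0)]⟩,⟨1,[(6,0),(10,1),(5,0)]⟩⟩,.a ⟨true,0,⟨0,[(18,
  0)]⟩,⟨0,[(17,0)]⟩⟩ ⟨true,1,⟨3,[(0,1),(14,0),(1,1),(17,0)]⟩,⟨0,[(1,0)]⟩⟩ ⟨false,0,⟨0,[(17,0),(16,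
  0)]⟩,⟨3,[(0,1),(3,1),(13,1),(9,0),(7,0)]⟩⟩]⟩) (.R ⟨1,true,false,true,[1,0,0,-1],[0,1],[0,0,0,0,0,
  0,0,0,-1],(⟨0,[(17,0)]⟩,⟨0,[(18,0)]⟩),(⟨0,[(30,0)]⟩,⟨0,[(29,0)]⟩),⟨0,[(2,0)]⟩,.k,.k,(.x (-1) ⟨3,
  [(15,0),(0,0),(11,1),(0,3)]⟩ ⟨0,[(30,0)]⟩),(.x (-1) ⟨3,[(15,0),(0,0),(11,1),(0,3)]⟩ ⟨0,[(30,0)]⟩),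
  (.r (-2) ⟨11,[(5,7),(6,7),(2,6),(0,0),(18,7)]⟩ ⟨1,[(0,1),(5,0),(11,1),(4,0)]⟩),.k,⟨false,2,⟨3,[(5,
  1),(4,1),(4,1),(19,2),(0,0)]⟩,⟨0,[(1,0)]⟩⟩,⟨true,0,⟨0,[(17,0)]⟩,⟨1,[(6,0),(11,1),(4,0)]⟩⟩,⟨false,
  1,⟨3,[(15,0),(0,0),(19,1)]⟩,⟨0,[]⟩⟩,⟨true,(-1),⟨0,[(1,0),(15,0)]⟩,⟨0,[(3,0),(3,0),(2,0),(7,0)]⟩⟩,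
  ⟨true,0,⟨0,[(34,0)]⟩,⟨0,[(33,0)]⟩⟩,⟨false,(-1),⟨0,[(0,0)]⟩,⟨1,[(5,1),(4,1),(4,0),(2,1),(9,0)]⟩⟩,
  []⟩))) (.R ⟨0,false,false,true,[1,0,0,-1],[1,0,-1],[0,1,0,0,0,0,0,0,-1],(⟨0,[(15,0)]⟩,⟨0,[(16,
  0)]⟩),(⟨0,[(24,0)]⟩,⟨0,[(25,0)]⟩),⟨0,[(0,0)]⟩,.k,.k,(.x (-1) ⟨3,[(13,0),(0,0),(11,1),(0,3)]⟩ ⟨0,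
  [(28,0)]⟩),.k,.k,.k,⟨false,1,⟨0,[(1,0)]⟩,⟨0,[(2,0),(5,0),(20,0)]⟩⟩,⟨true,0,⟨1,[(4,0),(10,1),(6,
  0)]⟩,⟨2,[(7,1),(0,1),(7,2),(4,0),(7,0)]⟩⟩,⟨true,0,⟨0,[(36,0)]⟩,⟨0,[]⟩⟩,⟨false,0,⟨0,[(2,0),(12,0),
  (1,0)]⟩,⟨0,[(1,0),(5,0),(0,0),(7,0)]⟩⟩,⟨false,0,⟨0,[]⟩,⟨0,[]⟩⟩,⟨false,0,⟨0,[]⟩,⟨0,[]⟩⟩,[.o ⟨false,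
  0,⟨0,[(17,0)]⟩,⟨7,[(12,3),(0,0),(0,0),(11,1),(7,3)]⟩⟩,.o ⟨false,1,⟨1,[(20,1),(5,0),(7,0)]⟩,⟨0,[(7,
  0)]⟩⟩,.o ⟨false,1,⟨1,[(16,1),(9,0),(6,0)]⟩,⟨1,[(4,0),(10,1),(5,0)]⟩⟩,.a ⟨true,0,⟨0,[(16,0)]⟩,⟨0,
  [(15,0)]⟩⟩ ⟨false,1,⟨1,[(13,0),(19,0)]⟩,⟨0,[(2,0)]⟩⟩ ⟨true,0,⟨0,[(15,0),(1,0)]⟩,⟨0,[(7,0),(8,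
  0)]⟩⟩]⟩)) (.I [0,0,-1,-1,1,0,0,0,-1] (.Q [0,0,-1,-1,1,0,0,0,-1,-1,0,1] (.p true [0,0,0,1] [1] (⟨0,
  [(16,0)]⟩,⟨0,[(15,0)]⟩) .k 1 (⟨0,[]⟩,⟨0,[]⟩) .k .k) (.Q [0,0,0,0,0,1,0,0,0,-1,0,1] (.p true [0,0,
  0,1] [1] (⟨0,[(17,0)]⟩,⟨0,[(16,0)]⟩) .k 1 (⟨0,[]⟩,⟨0,[]⟩) .k .k) (.R ⟨0,false,false,true,[1,0,0,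
  -1],[0,1],[1,0,1],(⟨0,[(17,0)]⟩,⟨0,[(18,0)]⟩),(⟨0,[(30,0)]⟩,⟨0,[(29,0)]⟩),⟨0,[(0,0)]⟩,.k,.k,(.r
  (-1) ⟨0,[(2,0)]⟩ ⟨11,[(3,3),(2,0),(6,1),(2,3),(4,1),(1,1),(0,4),(9,9)]⟩),(.r (-1) ⟨0,[(2,0)]⟩ ⟨11,
  [(3,3),(2,0),(6,1),(2,3),(4,1),(1,1),(0,4),(9,9)]⟩),.k,.k,⟨false,1,⟨3,[(5,1),(4,1),(24,0),(0,0)]⟩,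
  ⟨0,[(34,0),(3,0)]⟩⟩,⟨true,0,⟨0,[(17,0)]⟩,⟨1,[(6,0),(11,1),(4,0)]⟩⟩,⟨false,0,⟨0,[(4,0)]⟩,⟨1,[(15,
  0),(19,0)]⟩⟩,⟨true,(-1),⟨1,[(3,1),(2,0),(6,1),(3,1),(6,0),(6,1)]⟩,⟨0,[(1,0)]⟩⟩,⟨false,0,⟨0,[]⟩,⟨0,
  []⟩⟩,⟨false,0,⟨0,[]⟩,⟨0,[]⟩⟩,[.o ⟨false,0,⟨0,[(34,0),(3,0)]⟩,⟨3,[(5,0),(0,0),(2,0),(2,1),(15,0),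
  (7,1)]⟩⟩,.o ⟨false,0,⟨0,[(34,0)]⟩,⟨11,[(5,3),(6,3),(2,0),(0,0),(6,1),(0,1),(3,5)]⟩⟩,.o ⟨false,1,
  ⟨1,[(18,1),(9,0),(6,0)]⟩,⟨1,[(6,0),(10,1),(5,0)]⟩⟩,.a ⟨true,0,⟨0,[(18,0)]⟩,⟨0,[(17,0)]⟩⟩ ⟨true,0,
  ⟨0,[]⟩,⟨0,[(38,0)]⟩⟩ ⟨false,0,⟨0,[(17,0),(16,0)]⟩,⟨0,[(1,0),(2,0)]⟩⟩]⟩) (.Q [0,0,1,2,-1,0,0,0,1,1,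
  0,-1] (.p false [0,0,0,1] [1] (⟨0,[(18,0)]⟩,⟨0,[(17,0)]⟩) .k 1 (⟨0,[]⟩,⟨0,[]⟩) .k .k) (.R ⟨1,true,
  false,true,[1,0,0,-1],[0,1],[0,0,0,0,0,0,0,0,-1],(⟨0,[(18,0)]⟩,⟨0,[(19,0)]⟩),(⟨0,[(31,0)]⟩,⟨0,
  [(30,0)]⟩),⟨0,[(1,0)]⟩,.k,.k,(.r (-1) ⟨0,[(3,0)]⟩ ⟨3,[(0,1),(16,0),(1,1),(4,0),(0,0),(3,0)]⟩),(.r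
  (-1) ⟨0,[(3,0)]⟩ ⟨3,[(0,1),(16,0),(1,1),(4,0),(0,0),(3,0)]⟩),(.r (-2) ⟨4,[(3,6),(2,0),(6,0),(3,0),
  (18,0)]⟩ ⟨1,[(0,1),(6,0),(11,1),(4,0)]⟩),.k,⟨false,2,⟨1,[(3,1),(32,0),(0,0)]⟩,⟨7,[(0,3),(3,3),(2,
  2),(7,1),(3,3),(5,0),(6,3)]⟩⟩,⟨true,0,⟨0,[(18,0)]⟩,⟨1,[(7,0),(11,1),(4,0)]⟩⟩,⟨false,1,⟨3,[(16,0),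
  (0,0),(19,1)]⟩,⟨0,[]⟩⟩,⟨true,(-1),⟨0,[(0,0),(33,0)]⟩,⟨0,[(2,0)]⟩⟩,⟨true,0,⟨0,[(35,0)]⟩,⟨0,[(34,
  0)]⟩⟩,⟨false,(-1),⟨0,[(0,0)]⟩,⟨11,[(2,11),(3,3),(6,3),(2,0),(0,0),(6,1),(0,1),(11,5)]⟩⟩,[]⟩) (.R
  ⟨1,false,false,true,[1,0,0,-1],[0,1],[1,0,0,-1,0,0,0,0,-1],(⟨0,[(18,0)]⟩,⟨0,[(19,0)]⟩),(⟨0,[(31,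
  0)]⟩,⟨0,[(30,0)]⟩),⟨0,[(1,0)]⟩,.k,.k,(.r (-1) ⟨0,[(3,0)]⟩ ⟨11,[(4,3),(2,0),(6,1),(2,3),(4,1),(1,
  1),(0,4),(9,9)]⟩),(.r (-1) ⟨0,[(3,0)]⟩ ⟨11,[(4,3),(2,0),(6,1),(2,3),(4,1),(1,1),(0,4),(9,9)]⟩),
  (.r (-2) ⟨4,[(3,6),(2,0),(6,0),(3,0),(18,0)]⟩ ⟨3,[(4,3),(2,0),(6,1),(7,1),(2,2),(9,5)]⟩),.k,
  ⟨false,2,⟨3,[(3,3),(2,1),(4,1),(24,0),(0,0)]⟩,⟨1,[(4,1),(2,0),(6,1),(10,0),(6,1),(2,1)]⟩⟩,⟨true,0,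
  ⟨0,[(18,0)]⟩,⟨1,[(7,0),(11,1),(4,0)]⟩⟩,⟨false,1,⟨11,[(6,3),(6,3),(2,0),(0,0),(6,1),(0,1),(11,5)]⟩,
  ⟨0,[(35,0)]⟩⟩,⟨true,(-1),⟨1,[(4,1),(2,0),(6,1),(3,1),(6,0),(6,1)]⟩,⟨0,[(2,0)]⟩⟩,⟨true,0,⟨0,[]⟩,⟨0,
  [(39,0)]⟩⟩,⟨true,(-1),⟨1,[(4,1),(2,0),(6,1),(3,1),(6,0),(6,1),(2,1)]⟩,⟨0,[(0,0)]⟩⟩,[.o ⟨false,0,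
  ⟨0,[(35,0),(3,0)]⟩,⟨3,[(6,0),(0,0),(2,0),(2,1),(15,0),(7,1)]⟩⟩,.o ⟨false,0,⟨0,[(35,0)]⟩,⟨11,[(6,
  3),(6,3),(2,0),(0,0),(6,1),(0,1),(3,5)]⟩⟩,.o ⟨false,1,⟨1,[(19,1),(9,0),(6,0)]⟩,⟨1,[(7,0),(10,1),
  (5,0)]⟩⟩,.a ⟨true,0,⟨0,[(19,0)]⟩,⟨0,[(18,0)]⟩⟩ ⟨true,1,⟨0,[(3,0)]⟩,⟨1,[(4,1),(2,0),(6,1),(10,0),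
  (6,1)]⟩⟩ ⟨false,0,⟨0,[(18,0),(16,0)]⟩,⟨3,[(0,1),(4,1),(13,1),(9,0),(7,0)]⟩⟩]⟩))) (.K ⟨0,[0,0,0,1],
  0,(-1),(⟨0,[(17,0)]⟩,⟨0,[(16,0)]⟩),.k,(.x 0 ⟨1,[(5,0),(16,1),(0,0),(4,1)]⟩ ⟨0,[(29,0),(4,0)]⟩),
  (.r 0 ⟨5,[(0,1),(4,0),(9,1),(1,1),(4,1),(0,0),(9,3)]⟩ ⟨0,[(1,0)]⟩),.k,.k,[⟨0,[(17,0)]⟩,⟨0,[(16,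
  0)]⟩,⟨7,[(14,4),(0,0),(1,7),(12,3),(3,1)]⟩,⟨0,[(0,0),(5,0)]⟩]⟩)) (.K ⟨0,[0,0,0,1],0,(-1),(⟨0,[(16,
  0)]⟩,⟨0,[(15,0)]⟩),.k,(.r (-1) ⟨4,[(1,0),(1,1),(6,0),(3,1),(18,1)]⟩ ⟨0,[(0,0),(12,0)]⟩),(.x 0 ⟨0,
  [(28,0)]⟩ ⟨3,[(13,0),(0,0),(11,1),(0,3)]⟩),.k,.k,[⟨0,[(16,0)]⟩,⟨0,[(15,0)]⟩,⟨7,[(13,4),(0,0),(1,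
  7),(12,3),(3,1)]⟩,⟨0,[(0,0),(4,0),(9,0)]⟩]⟩))) (.Q [0,1,1,0,0,0,0,0,1,0,0,-1] (.p false [0,0,0,1]
  [] (⟨0,[(14,0)]⟩,⟨0,[(13,0)]⟩) .k 0 (⟨0,[]⟩,⟨0,[]⟩) .k .k) (.K ⟨0,[0,0,0,1],0,0,(⟨0,[(15,0)]⟩,⟨0,
  [(14,0)]⟩),.k,(.x 0 ⟨1,[(3,0),(16,1),(0,0),(4,1)]⟩ ⟨0,[(27,0),(4,0)]⟩),(.x 0 ⟨0,[(27,0)]⟩ ⟨3,[(12,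
  0),(0,0),(11,1),(0,3)]⟩),.k,.k,[⟨0,[(15,0)]⟩,⟨0,[(14,0)]⟩,⟨0,[(1,0),(13,0)]⟩,⟨0,[(0,0)]⟩]⟩) (.I
  [0,1,-2,-1,0,0,0,0,-1] (.Q [0,0,0,0,0,1,0,0,0,-1,0,1] (.p true [0,0,0,1] [1] (⟨0,[(16,0)]⟩,⟨0,
  [(15,0)]⟩) .k 1 (⟨0,[]⟩,⟨0,[]⟩) .k .k) (.R ⟨0,false,false,false,[1,0,0,-1],[0,1],[0,1,0,0,0,0,0,0,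
  -1],(⟨0,[(16,0)]⟩,⟨0,[(17,0)]⟩),(⟨0,[(29,0)]⟩,⟨0,[(28,0)]⟩),⟨0,[(0,0)]⟩,.k,.k,(.x (-1) ⟨3,[(14,0),
  (0,0),(11,1),(0,3)]⟩ ⟨0,[(29,0)]⟩),(.x (-1) ⟨3,[(14,0),(0,0),(11,1),(0,3)]⟩ ⟨0,[(29,0)]⟩),.k,.k,
  ⟨false,0,⟨0,[(1,0)]⟩,⟨1,[(15,0),(6,0),(0,0),(9,1),(1,0)]⟩⟩,⟨true,0,⟨0,[(16,0)]⟩,⟨1,[(5,0),(11,1),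
  (4,0)]⟩⟩,⟨true,0,⟨0,[(37,0)]⟩,⟨0,[]⟩⟩,⟨false,1,⟨1,[(15,0),(0,1),(5,0),(0,0),(9,1),(1,0)]⟩,⟨0,[(2,
  0),(3,0)]⟩⟩,⟨false,0,⟨0,[]⟩,⟨0,[]⟩⟩,⟨false,0,⟨0,[]⟩,⟨0,[]⟩⟩,[.o ⟨false,0,⟨0,[(33,0)]⟩,⟨11,[(4,3),
  (6,3),(2,0),(0,0),(6,1),(0,1),(3,5)]⟩⟩,.o ⟨false,1,⟨3,[(14,0),(0,0),(17,3),(1,1)]⟩,⟨0,[(6,0)]⟩⟩,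
  .o ⟨false,1,⟨1,[(17,1),(9,0),(6,0)]⟩,⟨1,[(5,0),(10,1),(5,0)]⟩⟩,.a ⟨true,0,⟨0,[(17,0)]⟩,⟨0,[(16,
  0)]⟩⟩ ⟨false,0,⟨3,[(1,0),(0,0),(0,1),(1,0),(3,0),(2,0),(3,0)]⟩,⟨1,[(15,0),(6,0),(0,0),(11,0)]⟩⟩
  ⟨true,0,⟨0,[(16,0),(16,0)]⟩,⟨0,[(6,0),(10,0)]⟩⟩]⟩) (.I [0,0,1,1,0,0,0,-1,1] (.Q [0,0,1,2,0,0,1,1,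
  1,2,-1,-1] (.p false [-1,1,1] [1,0,0,-1] (⟨0,[(8,0)]⟩,⟨0,[(26,0),(2,0)]⟩) .k 2 (⟨0,[(17,0)]⟩,⟨0,
  [(18,0)]⟩) .k (.r (-1) ⟨3,[(6,0),(7,1),(1,1),(7,2),(10,1)]⟩ ⟨1,[(4,1),(5,1),(12,0),(0,0)]⟩)) (.R
  ⟨1,true,false,false,[1,0,0,-1],[-1,1,1],[0,1,0,0,0,0,0,0,-1],(⟨0,[(18,0)]⟩,⟨0,[(19,0)]⟩),(⟨0,[(9,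
  0)]⟩,⟨0,[(27,0),(2,0)]⟩),⟨0,[(2,0)]⟩,.k,.k,(.x (-1) ⟨3,[(16,0),(0,0),(11,1),(0,3)]⟩ ⟨0,[(31,0)]⟩),
  (.r 0 ⟨1,[(3,0),(1,0),(5,0),(1,0),(19,0)]⟩ ⟨7,[(0,5),(5,1),(0,1),(9,0),(1,5),(5,3),(3,3),(6,0)]⟩),
  (.r (-1) ⟨13,[(3,7),(2,1),(6,15),(2,2),(19,4),(0,3)]⟩ ⟨0,[(0,0),(6,0),(11,0)]⟩),.k,⟨false,0,⟨0,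
  [(3,0),(22,0)]⟩,⟨1,[(14,1),(2,0),(7,1),(3,0)]⟩⟩,⟨true,0,⟨3,[(0,1),(3,0),(0,0),(7,3),(1,0),(2,2)]⟩,
  ⟨0,[(7,0),(11,0)]⟩⟩,⟨true,0,⟨0,[(39,0)]⟩,⟨0,[]⟩⟩,⟨false,1,⟨11,[(0,11),(5,3),(6,3),(2,0),(0,0),(6,
  1),(0,1),(11,5)]⟩,⟨0,[(3,0),(3,0),(3,0),(7,0)]⟩⟩,⟨false,0,⟨0,[(35,0)]⟩,⟨11,[(6,3),(6,3),(2,0),(0,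
  0),(6,1),(0,1),(11,5)]⟩⟩,⟨true,0,⟨0,[(0,0)]⟩,⟨0,[(3,0),(3,0),(5,0),(5,0)]⟩⟩,[]⟩) (.R ⟨1,false,
  false,false,[1,0,0,-1],[0,1],[0,1,0,0,0,0,0,0,-1],(⟨0,[(18,0)]⟩,⟨0,[(19,0)]⟩),(⟨0,[(31,0)]⟩,⟨0,
  [(30,0)]⟩),⟨0,[(2,0)]⟩,.k,.k,(.x (-1) ⟨3,[(16,0),(0,0),(11,1),(0,3)]⟩ ⟨0,[(31,0)]⟩),(.x (-1) ⟨3,
  [(16,0),(0,0),(11,1),(0,3)]⟩ ⟨0,[(31,0)]⟩),(.r (-1) ⟨13,[(3,9),(2,5),(6,5),(2,1),(19,0),(0,4)]⟩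
  ⟨3,[(1,3),(5,0),(6,1),(7,1),(2,2),(9,1)]⟩),.k,⟨false,0,⟨0,[(3,0)]⟩,⟨7,[(1,3),(12,3),(1,0),(0,2),
  (7,3),(3,1),(7,1)]⟩⟩,⟨true,0,⟨0,[(18,0)]⟩,⟨1,[(7,0),(11,1),(4,0)]⟩⟩,⟨true,0,⟨0,[(39,0)]⟩,⟨0,[]⟩⟩,
  ⟨false,1,⟨7,[(1,3),(12,3),(1,0),(0,2),(0,7),(6,3),(3,1),(7,1)]⟩,⟨1,[(0,0),(3,0),(17,0)]⟩⟩,⟨false,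
  0,⟨0,[(35,0)]⟩,⟨11,[(6,3),(6,3),(2,0),(0,0),(6,1),(0,1),(11,5)]⟩⟩,⟨false,1,⟨7,[(1,3),(12,3),(1,0),
  (0,2),(0,7),(6,3),(3,1),(5,7),(1,1)]⟩,⟨1,[(0,1),(14,0),(2,0),(0,0)]⟩⟩,[.o ⟨false,0,⟨0,[(35,0)]⟩,
  ⟨11,[(6,3),(6,3),(2,0),(0,0),(6,1),(0,1),(3,5)]⟩⟩,.o ⟨false,1,⟨3,[(16,0),(0,0),(17,3),(1,1)]⟩,⟨0,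
  [(8,0)]⟩⟩,.o ⟨false,1,⟨1,[(19,1),(9,0),(6,0)]⟩,⟨1,[(7,0),(10,1),(5,0)]⟩⟩,.a ⟨true,0,⟨0,[(19,0)]⟩,
  ⟨0,[(18,0)]⟩⟩ ⟨false,0,⟨3,[(3,0),(0,0),(0,1),(1,0),(3,0),(2,0),(3,0)]⟩,⟨1,[(17,0),(6,0),(0,0),(11,
  0)]⟩⟩ ⟨true,0,⟨0,[(18,0),(16,0)]⟩,⟨0,[(8,0),(10,0)]⟩⟩]⟩)) (.R ⟨1,false,false,false,[1,0,0,-1],[0,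
  1],[0,1,0,0,0,0,0,0,-1],(⟨0,[(17,0)]⟩,⟨0,[(18,0)]⟩),(⟨0,[(30,0)]⟩,⟨0,[(29,0)]⟩),⟨0,[(1,0)]⟩,.k,.k,
  (.x (-1) ⟨3,[(15,0),(0,0),(11,1),(0,3)]⟩ ⟨0,[(30,0)]⟩),(.x (-1) ⟨3,[(15,0),(0,0),(11,1),(0,3)]⟩
  ⟨0,[(30,0)]⟩),(.x 0 ⟨2,[(6,2),(2,1),(0,1),(12,0),(5,5),(1,0)]⟩ ⟨3,[(15,0),(0,0),(13,7),(4,1)]⟩),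
  .k,⟨false,0,⟨0,[(2,0)]⟩,⟨1,[(16,0),(6,0),(0,0),(9,1),(1,0)]⟩⟩,⟨true,0,⟨0,[(17,0)]⟩,⟨1,[(6,0),(11,
  1),(4,0)]⟩⟩,⟨true,0,⟨0,[(38,0)]⟩,⟨0,[]⟩⟩,⟨false,1,⟨1,[(16,0),(0,1),(5,0),(0,0),(9,1),(1,0)]⟩,⟨0,
  [(3,0),(3,0)]⟩⟩,⟨false,0,⟨0,[(34,0)]⟩,⟨11,[(5,3),(6,3),(2,0),(0,0),(6,1),(0,1),(11,5)]⟩⟩,⟨false,1,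
  ⟨1,[(16,0),(0,1),(5,0),(0,0),(9,3),(1,0)]⟩,⟨0,[(0,0),(6,0),(2,0),(7,0)]⟩⟩,[.o ⟨false,0,⟨0,[(34,
  0)]⟩,⟨11,[(5,3),(6,3),(2,0),(0,0),(6,1),(0,1),(3,5)]⟩⟩,.o ⟨false,1,⟨3,[(15,0),(0,0),(17,3),(1,
  1)]⟩,⟨0,[(7,0)]⟩⟩,.o ⟨false,1,⟨1,[(18,1),(9,0),(6,0)]⟩,⟨1,[(6,0),(10,1),(5,0)]⟩⟩,.a ⟨true,0,⟨0,
  [(18,0)]⟩,⟨0,[(17,0)]⟩⟩ ⟨false,0,⟨3,[(2,0),(0,0),(0,1),(1,0),(3,0),(2,0),(3,0)]⟩,⟨1,[(16,0),(6,0),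
  (0,0),(11,0)]⟩⟩ ⟨true,0,⟨0,[(17,0),(16,0)]⟩,⟨0,[(7,0),(10,0)]⟩⟩]⟩))) (.Q [0,0,0,0,0,1,0,0,0,-1,0,
  1] (.p true [0,0,0,1] [1] (⟨0,[(16,0)]⟩,⟨0,[(15,0)]⟩) .k 1 (⟨0,[]⟩,⟨0,[]⟩) .k .k) (.R ⟨0,false,
  false,true,[1,0,0,-1],[0,1],[1,0,1],(⟨0,[(16,0)]⟩,⟨0,[(17,0)]⟩),(⟨0,[(29,0)]⟩,⟨0,[(28,0)]⟩),⟨0,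
  [(0,0)]⟩,.k,.k,(.x (-1) ⟨3,[(14,0),(0,0),(11,1),(0,3)]⟩ ⟨0,[(29,0)]⟩),(.x (-1) ⟨3,[(14,0),(0,0),
  (11,1),(0,3)]⟩ ⟨0,[(29,0)]⟩),.k,.k,⟨false,1,⟨3,[(4,1),(4,1),(24,0),(0,0)]⟩,⟨0,[(33,0),(3,0)]⟩⟩,
  ⟨true,0,⟨0,[(16,0)]⟩,⟨1,[(5,0),(11,1),(4,0)]⟩⟩,⟨false,1,⟨4,[(1,2),(2,0),(6,0),(2,0),(0,1),(19,
  0)]⟩,⟨2,[(2,1),(0,0),(1,0),(2,0),(0,0),(6,1),(13,0)]⟩⟩,⟨true,0,⟨0,[(1,0),(14,0),(13,0)]⟩,⟨0,[(2,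
  0),(3,0)]⟩⟩,⟨false,0,⟨0,[]⟩,⟨0,[]⟩⟩,⟨false,0,⟨0,[]⟩,⟨0,[]⟩⟩,[.o ⟨false,0,⟨0,[(33,0),(3,0)]⟩,⟨3,
  [(4,0),(0,0),(2,0),(2,1),(15,0),(7,1)]⟩⟩,.o ⟨false,0,⟨0,[(33,0)]⟩,⟨11,[(4,3),(6,3),(2,0),(0,0),(6,
  1),(0,1),(3,5)]⟩⟩,.o ⟨false,1,⟨1,[(17,1),(9,0),(6,0)]⟩,⟨1,[(5,0),(10,1),(5,0)]⟩⟩,.a ⟨true,0,⟨0,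
  [(17,0)]⟩,⟨0,[(16,0)]⟩⟩ ⟨true,0,⟨0,[]⟩,⟨0,[(37,0)]⟩⟩ ⟨false,0,⟨0,[(16,0),(16,0)]⟩,⟨5,[(2,1),(1,1),
  (0,1),(5,1),(3,0),(1,3),(4,1),(4,0),(7,1)]⟩⟩]⟩) (.Q [0,0,1,2,0,0,0,0,1,1,0,-1] (.p false [0,0,0,
  1] [1] (⟨0,[(17,0)]⟩,⟨0,[(16,0)]⟩) .k 1 (⟨0,[]⟩,⟨0,[]⟩) .k .k) (.R ⟨1,true,false,true,[1,0,0,-1],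
  [0,1],[0,0,0,0,0,0,0,0,-1],(⟨0,[(17,0)]⟩,⟨0,[(18,0)]⟩),(⟨0,[(30,0)]⟩,⟨0,[(29,0)]⟩),⟨0,[(1,0)]⟩,.k,
  .k,(.x (-1) ⟨3,[(15,0),(0,0),(11,1),(0,3)]⟩ ⟨0,[(30,0)]⟩),(.x (-1) ⟨3,[(15,0),(0,0),(11,1),(0,
  3)]⟩ ⟨0,[(30,0)]⟩),(.r (-1) ⟨0,[(4,0),(0,0),(4,0)]⟩ ⟨1,[(0,1),(5,0),(11,1),(4,0)]⟩),.k,⟨false,1,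
  ⟨2,[(3,2),(1,0),(1,0),(2,0),(6,2),(10,0),(6,0)]⟩,⟨0,[(2,0),(28,0)]⟩⟩,⟨true,0,⟨0,[(17,0)]⟩,⟨1,[(6,
  0),(11,1),(4,0)]⟩⟩,⟨false,1,⟨3,[(15,0),(0,0),(19,1)]⟩,⟨0,[]⟩⟩,⟨true,0,⟨0,[(0,0),(32,0)]⟩,⟨0,[(3,
  0),(3,0)]⟩⟩,⟨true,0,⟨0,[(34,0)]⟩,⟨0,[(33,0)]⟩⟩,⟨false,0,⟨0,[(0,0)]⟩,⟨17,[(3,15),(1,11),(0,4),(5,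
  11),(2,0),(2,1),(4,4),(4,3),(7,0)]⟩⟩,[]⟩) (.R ⟨1,false,false,true,[1,0,0,-1],[0,1],[1,0,0,-1,0,0,
  0,0,-1],(⟨0,[(17,0)]⟩,⟨0,[(18,0)]⟩),(⟨0,[(30,0)]⟩,⟨0,[(29,0)]⟩),⟨0,[(1,0)]⟩,.k,.k,(.x (-1) ⟨3,
  [(15,0),(0,0),(11,1),(0,3)]⟩ ⟨0,[(30,0)]⟩),(.x (-1) ⟨3,[(15,0),(0,0),(11,1),(0,3)]⟩ ⟨0,[(30,0)]⟩),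
  (.r (-1) ⟨15,[(0,9),(4,3),(6,3),(2,2),(1,9),(17,8)]⟩ ⟨0,[(2,0),(31,0),(3,0)]⟩),.k,⟨false,1,⟨1,[(0,
  1),(16,1),(17,0),(0,0)]⟩,⟨0,[(2,0),(28,0),(2,0)]⟩⟩,⟨true,0,⟨0,[(17,0)]⟩,⟨1,[(6,0),(11,1),(4,0)]⟩⟩,
  ⟨false,1,⟨19,[(2,3),(2,7),(6,7),(2,2),(0,0),(19,7)]⟩,⟨0,[(34,0)]⟩⟩,⟨true,0,⟨0,[(2,0),(14,0),(13,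
  0)]⟩,⟨0,[(3,0),(3,0)]⟩⟩,⟨true,0,⟨0,[]⟩,⟨0,[(38,0)]⟩⟩,⟨true,0,⟨0,[(2,0),(14,0),(13,0),(2,0)]⟩,⟨0,
  [(0,0)]⟩⟩,[.o ⟨false,0,⟨0,[(34,0),(3,0)]⟩,⟨3,[(5,0),(0,0),(2,0),(2,1),(15,0),(7,1)]⟩⟩,.o ⟨false,0,
  ⟨0,[(34,0)]⟩,⟨11,[(5,3),(6,3),(2,0),(0,0),(6,1),(0,1),(3,5)]⟩⟩,.o ⟨false,1,⟨1,[(18,1),(9,0),(6,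
  0)]⟩,⟨1,[(6,0),(10,1),(5,0)]⟩⟩,.a ⟨true,0,⟨0,[(18,0)]⟩,⟨0,[(17,0)]⟩⟩ ⟨true,0,⟨5,[(0,2),(2,1),(0,
  0),(1,0),(2,0),(0,0),(6,4),(13,0)]⟩,⟨0,[(2,0),(28,0)]⟩⟩ ⟨false,0,⟨0,[(17,0),(16,0)]⟩,⟨5,[(0,3),(1,
  1),(12,0),(0,1),(1,1),(9,0),(7,1)]⟩⟩]⟩)))))))))

theorem ok17 : chk (cU (-1) true 3) t17 l11 = true := by decide +kernel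

noncomputable def t18 : Tre :=
  (.Q [0,1,0,-1,0,0,-1,-1,0,0,1] (.p true [0,0,1] [] (⟨0,[(19,0)]⟩,⟨0,[(18,0)]⟩) .k 0 (⟨0,[]⟩,⟨0,
  []⟩) .k .k) (.R ⟨1,false,false,false,[1,0,-1],[0,1,1],[0,1],(⟨0,[(19,0)]⟩,⟨0,[(20,0)]⟩),(⟨0,[(20,
  0),(2,0)]⟩,⟨0,[(1,0)]⟩),⟨0,[(1,0)]⟩,.k,.k,.k,(.x (-1) ⟨1,[(1,1),(11,1),(3,1),(1,1),(1,0),(6,0)]⟩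
  ⟨0,[(2,1),(0,1),(16,1),(2,0),(0,0)]⟩),(.r (-1) ⟨0,[(5,1),(22,0)]⟩ ⟨0,[(6,0),(6,0),(0,0),(2,0),(9,
  0)]⟩),.k,⟨false,1,⟨7,[(5,7),(2,0),(0,0),(14,3),(3,5)]⟩,⟨0,[(6,0),(6,0)]⟩⟩,⟨true,0,⟨0,[(3,1),(3,0),
  (16,0)]⟩,⟨0,[(13,0),(3,0)]⟩⟩,⟨false,1,⟨7,[(7,3),(0,0),(0,0),(7,7),(3,1),(6,3)]⟩,⟨0,[(3,0)]⟩⟩,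
  ⟨false,0,⟨0,[(2,0),(3,0)]⟩,⟨0,[(0,0),(11,0),(16,0)]⟩⟩,⟨true,0,⟨0,[(6,0),(6,0),(10,0)]⟩,⟨0,[(5,
  0)]⟩⟩,⟨false,0,⟨0,[(2,0),(3,0),(20,0)]⟩,⟨1,[(0,1),(4,1),(7,1),(14,0),(0,0)]⟩⟩,[.o ⟨false,0,⟨0,[(2,
  0),(24,0)]⟩,⟨1,[(0,1),(20,0),(7,0)]⟩⟩,.a ⟨true,0,⟨0,[(6,0)]⟩,⟨0,[(0,0)]⟩⟩ ⟨false,1,⟨3,[(8,0),(0,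
  0),(18,1)]⟩,⟨0,[]⟩⟩ ⟨true,0,⟨2,[(2,1),(0,1),(2,2),(9,0),(7,0)]⟩,⟨0,[(0,0),(12,0)]⟩⟩,.o ⟨false,1,
  ⟨1,[(17,1),(3,0),(6,0)]⟩,⟨2,[(2,1),(0,1),(12,0),(7,0)]⟩⟩,.o ⟨false,0,⟨0,[(13,0)]⟩,⟨0,[(16,0),(11,
  0)]⟩⟩]⟩) (.Q [0,-1,0,1,0,0,0,0,0,1] (.pp false [-1,1]) (.R ⟨1,false,false,true,[1,0,-1],[1,-1],[],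
  (⟨0,[(20,0)]⟩,⟨0,[(21,0)]⟩),(⟨0,[(23,0)]⟩,⟨0,[(24,0)]⟩),⟨0,[(2,0)]⟩,.k,.k,.k,.k,.k,.k,⟨true,0,⟨0,
  [(0,0),(4,0)]⟩,⟨0,[(27,0)]⟩⟩,⟨false,0,⟨2,[(1,1),(4,1),(10,0),(7,0)]⟩,⟨0,[(18,0),(10,0)]⟩⟩,⟨false,
  1,⟨1,[(8,0),(5,0),(3,0),(10,0),(0,0)]⟩,⟨0,[(19,0)]⟩⟩,⟨true,0,⟨0,[(3,0),(23,0)]⟩,⟨0,[(0,0),(12,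
  0)]⟩⟩,⟨false,1,⟨1,[(7,1),(10,1),(3,0),(6,0)]⟩,⟨0,[(6,0)]⟩⟩,⟨false,0,⟨0,[(3,0)]⟩,⟨0,[(16,0),(13,
  0)]⟩⟩,[.a ⟨true,0,⟨0,[(27,0)]⟩,⟨0,[(0,0)]⟩⟩ ⟨false,1,⟨3,[(9,0),(0,0),(18,1)]⟩,⟨0,[]⟩⟩ ⟨true,0,⟨0,
  [(6,0),(8,0)]⟩,⟨0,[(0,0),(13,0)]⟩⟩,.o ⟨false,1,⟨1,[(22,0),(4,1),(2,0)]⟩,⟨0,[(28,0)]⟩⟩,.o ⟨false,1,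
  ⟨1,[(18,1),(3,0),(6,0)]⟩,⟨2,[(1,1),(4,1),(10,0),(7,0)]⟩⟩,.o ⟨false,0,⟨0,[(14,0)]⟩,⟨0,[(17,0),(11,
  0)]⟩⟩]⟩) (.I [0,0,1,2,-1,0,0,-1] (.I [0,1,0,1,-1,0,0,-2] (.I [1,-1,1,1,-1,0,0,-2] (.Q [0,1,1,0,-1,
  0,0,0,1,0,0,-1] (.p false [0,0,0,1] [] (⟨0,[(15,0)]⟩,⟨0,[(14,0)]⟩) .k 0 (⟨0,[]⟩,⟨0,[]⟩) .k .k)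
  (.K ⟨0,[0,0,0,1],0,(-1),(⟨0,[(16,0)]⟩,⟨0,[(15,0)]⟩),.k,(.r (-1) ⟨0,[(0,0),(15,0),(14,0),(1,0),(0,
  0)]⟩ ⟨3,[(3,1),(8,0),(0,1),(4,0),(3,0)]⟩),(.x 0 ⟨0,[(28,0)]⟩ ⟨3,[(13,0),(0,0),(11,1),(0,3)]⟩),.k,
  .k,[⟨0,[(16,0)]⟩,⟨0,[(15,0)]⟩,⟨7,[(13,4),(0,0),(1,7),(12,3),(3,1)]⟩,⟨0,[(0,0)]⟩]⟩) (.I [1,1,1,1,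
  -1] (.R ⟨2,true,false,false,[0,1],[0,0,1],[],(⟨0,[]⟩,⟨0,[]⟩),(⟨0,[(26,0)]⟩,⟨0,[(25,0)]⟩),⟨0,[]⟩,
  .k,.k,.k,.k,.k,.k,⟨true,0,⟨0,[(24,0)]⟩,⟨1,[(13,0),(5,0),(3,0)]⟩⟩,⟨false,0,⟨11,[(2,1),(0,1),(7,3),
  (1,5),(13,2),(6,0)]⟩,⟨0,[(23,0),(10,0)]⟩⟩,⟨true,1,⟨1,[(32,1),(1,0),(0,0)]⟩,⟨0,[(0,0)]⟩⟩,⟨false,1,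
  ⟨1,[(5,0),(7,0),(18,0),(2,1)]⟩,⟨1,[(0,0),(1,0),(20,1),(10,1)]⟩⟩,⟨false,1,⟨1,[(34,0),(0,0)]⟩,⟨1,
  [(22,0),(0,0)]⟩⟩,⟨true,0,⟨0,[(8,0)]⟩,⟨0,[(21,0)]⟩⟩,[]⟩) (.Q [0,-1,0,2,0,0,0,0,0,1] (.pp false [-1,
  1]) (.R ⟨2,true,false,true,[0,1],[1,-1],[0,1,1,1],(⟨0,[]⟩,⟨0,[]⟩),(⟨0,[(29,0)]⟩,⟨0,[(30,0)]⟩),⟨0,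
  []⟩,.k,.k,.k,(.r 1 ⟨1,[(5,1),(8,0),(5,0),(3,0)]⟩ ⟨3,[(1,5),(13,0),(0,0),(14,1),(1,1)]⟩),.k,.k,
  ⟨true,(-1),⟨1,[(5,1),(8,0),(5,0),(3,0)]⟩,⟨0,[(1,0),(31,0)]⟩⟩,⟨false,0,⟨0,[(11,0)]⟩,⟨0,[(17,0),(0,
  0),(16,0)]⟩⟩,⟨true,0,⟨0,[(38,0)]⟩,⟨0,[]⟩⟩,⟨false,1,⟨0,[(6,0),(26,0),(2,0)]⟩,⟨0,[(0,0)]⟩⟩,⟨false,0,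
  ⟨0,[(34,0)]⟩,⟨0,[(33,0),(2,0)]⟩⟩,⟨true,0,⟨0,[(6,0)]⟩,⟨3,[(0,1),(13,0),(2,0),(0,0),(3,1)]⟩⟩,[]⟩)
  (.Q [0,0,0,0,0,-2,0,0,0,1] (.pp false [-1,1]) (.R ⟨1,true,false,false,[1,-1],[0,1],[1,0,-1,-2],
  (⟨0,[(30,0)]⟩,⟨0,[(31,0)]⟩),(⟨0,[(31,0)]⟩,⟨0,[(30,0)]⟩),⟨0,[(0,0)]⟩,.k,.k,(.r (-2) ⟨3,[(2,5),(13,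
  0),(0,0),(14,1),(1,1)]⟩ ⟨1,[(6,1),(8,0),(5,0),(3,0)]⟩),(.r (-2) ⟨3,[(2,5),(13,0),(0,0),(14,1),(1,
  1)]⟩ ⟨1,[(6,1),(8,0),(5,0),(3,0)]⟩),(.r (-2) ⟨0,[(1,0),(0,0),(15,0),(0,0),(16,0)]⟩ ⟨5,[(6,7),(7,
  1),(0,1),(6,1),(1,0),(0,8),(3,1)]⟩),.k,⟨false,2,⟨0,[(1,0),(0,0),(15,0),(0,0),(16,0)]⟩,⟨1,[(6,1),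
  (7,0),(6,0),(0,0),(2,0),(9,0)]⟩⟩,⟨true,1,⟨0,[(18,0),(0,0),(16,0)]⟩,⟨5,[(1,3),(2,3),(1,1),(5,1),(2,
  4),(5,4),(3,4)]⟩⟩,⟨false,1,⟨0,[(34,0),(2,0)]⟩,⟨0,[(35,0)]⟩⟩,⟨true,0,⟨0,[(14,0),(8,0),(11,0)]⟩,⟨0,
  [(1,0)]⟩⟩,⟨true,0,⟨0,[]⟩,⟨0,[(39,0)]⟩⟩,⟨false,0,⟨0,[(6,0),(7,0),(10,0),(10,0)]⟩,⟨0,[(1,0),(32,0),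
  (2,0)]⟩⟩,[]⟩) (.Q [0,-1,1,1,0,0,0,0,1,1,0,-1] (.p false [0,0,0,1] [1] (⟨0,[(19,0)]⟩,⟨0,[(18,0)]⟩)
  .k 1 (⟨0,[]⟩,⟨0,[]⟩) .k .k) (.Q [0,-1,1,0,0,0,-1,-1,1,0,1,-1] (.p true [0,0,1] [0,0,0,1] (⟨0,[(29,
  0)]⟩,⟨0,[(28,0)]⟩) .k 2 (⟨0,[(20,0)]⟩,⟨0,[(19,0)]⟩) .k (.x (-1) ⟨0,[(25,0),(3,0),(7,0)]⟩ ⟨0,[(22,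
  0),(5,0)]⟩)) (.Q [0,1,-1,1,0,0,1,1,-1,0,-1,1] (.p false [0,0,1] [0,0,0,1] (⟨0,[(30,0)]⟩,⟨0,[(29,
  0)]⟩) .k 2 (⟨0,[(21,0)]⟩,⟨0,[(20,0)]⟩) .k (.r (-1) ⟨1,[(17,0),(0,0),(4,0),(3,0),(10,0)]⟩ ⟨3,[(0,
  1),(2,1),(3,1),(8,1),(2,0),(1,1),(16,0)]⟩)) (.R ⟨1,true,false,true,[1,0,-1],[1,0,0,-1],[0,1,0,0,0,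
  0,0,-1],(⟨0,[(30,0)]⟩,⟨0,[(31,0)]⟩),(⟨0,[(21,0)]⟩,⟨0,[(22,0)]⟩),⟨0,[(12,0)]⟩,.k,.k,.k,.k,(.r (-1)
  ⟨1,[(16,1),(3,0),(18,0)]⟩ ⟨9,[(0,5),(3,1),(2,1),(9,5),(0,0),(0,1),(1,5),(2,10),(3,2)]⟩),.k,⟨true,
  0,⟨3,[(1,1),(2,1),(3,1),(8,1),(2,0),(1,1),(16,0)]⟩,⟨2,[(0,1),(3,2),(1,0),(0,0),(9,2),(3,2),(2,2),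
  (3,1)]⟩⟩,⟨false,1,⟨9,[(0,5),(3,1),(0,6),(1,2),(0,1),(9,1),(1,2),(1,3),(16,4)]⟩,⟨0,[(21,0),(2,
  0)]⟩⟩,⟨true,0,⟨0,[(42,0)]⟩,⟨0,[]⟩⟩,⟨false,1,⟨39,[(0,15),(3,7),(1,23),(11,11),(0,6),(0,6),(11,1)]⟩,
  ⟨0,[(1,0)]⟩⟩,⟨false,0,⟨0,[(38,0)]⟩,⟨0,[(37,0),(2,0)]⟩⟩,⟨true,0,⟨0,[(0,0)]⟩,⟨0,[(1,0),(35,0)]⟩⟩,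
  []⟩) (.Q [0,0,0,0,0,-1,0,0,0,0,0,1] (.p true [0,0,0,1] [] (⟨0,[(22,0)]⟩,⟨0,[(21,0)]⟩) .k 0 (⟨0,
  []⟩,⟨0,[]⟩) .k .k) (.R ⟨0,false,false,false,[1,0,0,-1],[0,0,1],[0,1,0,-1,0,0,0,0,-1],(⟨0,[(22,
  0)]⟩,⟨0,[(23,0)]⟩),(⟨0,[(32,0)]⟩,⟨0,[(31,0)]⟩),⟨0,[(0,0),(3,0)]⟩,.k,.k,(.x (-1) ⟨3,[(20,0),(0,0),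
  (11,1),(0,3)]⟩ ⟨0,[(35,0)]⟩),.k,.k,.k,⟨true,0,⟨2,[(5,2),(1,0),(1,1),(8,0),(1,0),(1,1),(0,0),(5,
  0)]⟩,⟨0,[(1,0),(10,0),(5,0),(4,0),(1,0),(10,0)]⟩⟩,⟨false,0,⟨7,[(6,0),(1,0),(0,1),(7,1),(1,3),(2,
  7),(10,1)]⟩,⟨0,[(23,0),(1,0),(14,0)]⟩⟩,⟨true,0,⟨0,[(38,0)]⟩,⟨0,[(39,0)]⟩⟩,⟨false,0,⟨5,[(1,2),(1,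
  2),(7,0),(0,0),(6,3)]⟩,⟨0,[(7,0),(16,0)]⟩⟩,⟨false,0,⟨0,[]⟩,⟨0,[]⟩⟩,⟨false,0,⟨0,[]⟩,⟨0,[]⟩⟩,[.o
  ⟨false,0,⟨0,[(14,0)]⟩,⟨1,[(27,1),(5,0),(7,0)]⟩⟩,.o ⟨false,1,⟨7,[(19,3),(0,0),(0,0),(11,1),(7,3)]⟩,
  ⟨0,[(24,0)]⟩⟩,.o ⟨false,1,⟨1,[(23,1),(9,0),(6,0)]⟩,⟨0,[(16,0),(5,0)]⟩⟩,.a ⟨true,0,⟨0,[(23,0)]⟩,⟨0,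
  [(22,0)]⟩⟩ ⟨false,1,⟨3,[(5,1),(1,1),(12,0),(1,1),(17,0)]⟩,⟨3,[(1,0),(1,0),(6,0),(1,1),(8,0),(1,1),
  (1,0)]⟩⟩ ⟨true,0,⟨2,[(11,0),(0,0),(6,0),(2,2)]⟩,⟨0,[(23,0),(0,0)]⟩⟩]⟩) (.Q [0,0,0,0,0,-1,0,0,0,1,
  0,-1] (.p false [0,0,0,1] [1] (⟨0,[(23,0)]⟩,⟨0,[(22,0)]⟩) .k 1 (⟨0,[]⟩,⟨0,[]⟩) .k .k) (.R ⟨1,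
  false,false,true,[1,0,0,-1],[1,-1],[1,1,0,-1,0,0,0,0,-1],(⟨0,[(23,0)]⟩,⟨0,[(24,0)]⟩),(⟨0,[(35,
  0)]⟩,⟨0,[(36,0)]⟩),⟨0,[(0,0)]⟩,.k,.k,(.x (-1) ⟨3,[(21,0),(0,0),(11,1),(0,3)]⟩ ⟨0,[(36,0)]⟩),(.r 0
  ⟨3,[(11,1),(8,0),(0,1),(4,0),(3,0)]⟩ ⟨9,[(2,3),(3,1),(0,1),(12,1),(1,2),(1,3),(12,1),(3,4)]⟩),.k,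
  .k,⟨true,0,⟨2,[(6,2),(1,0),(2,1),(7,1),(1,0),(1,0),(6,1)]⟩,⟨0,[(2,0),(10,0),(10,0),(12,0)]⟩⟩,
  ⟨false,0,⟨3,[(0,1),(0,1),(15,1),(11,0),(0,0)]⟩,⟨0,[(24,0),(16,0)]⟩⟩,⟨true,0,⟨0,[(39,0)]⟩,⟨0,[(40,
  0)]⟩⟩,⟨false,0,⟨0,[(2,0),(24,0)]⟩,⟨0,[(8,0),(31,0)]⟩⟩,⟨false,0,⟨0,[]⟩,⟨3,[(21,0),(0,0),(19,1)]⟩⟩,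
  ⟨false,0,⟨0,[(4,0),(7,0)]⟩,⟨0,[(8,0)]⟩⟩,[.o ⟨false,0,⟨0,[(12,0)]⟩,⟨7,[(4,3),(3,3),(12,0),(0,0),
  (11,1),(5,3)]⟩⟩,.o ⟨false,1,⟨3,[(6,1),(14,0),(0,0),(11,0),(7,0)]⟩,⟨0,[(40,0)]⟩⟩,.o ⟨false,1,⟨1,
  [(24,1),(9,0),(6,0)]⟩,⟨3,[(0,1),(0,1),(15,1),(11,0),(0,0)]⟩⟩,.a ⟨true,0,⟨0,[(24,0)]⟩,⟨0,[(23,
  0)]⟩⟩ ⟨false,1,⟨3,[(6,1),(1,1),(12,0),(1,1),(17,0)]⟩,⟨3,[(2,0),(1,0),(6,0),(1,1),(8,0),(1,1),(1,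
  0)]⟩⟩ ⟨true,0,⟨1,[(0,0),(0,0),(10,0),(26,0)]⟩,⟨0,[(24,0),(15,0)]⟩⟩]⟩) (.R ⟨0,false,false,true,[1,
  0,0,-1],[1,-1],[1,1,0,-1,0,0,0,0,-1],(⟨0,[(23,0)]⟩,⟨0,[(24,0)]⟩),(⟨0,[(35,0)]⟩,⟨0,[(36,0)]⟩),⟨0,
  [(0,0)]⟩,.k,.k,(.x (-1) ⟨3,[(21,0),(0,0),(11,1),(0,3)]⟩ ⟨0,[(36,0)]⟩),(.r 0 ⟨3,[(11,1),(8,0),(0,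
  1),(4,0),(3,0)]⟩ ⟨9,[(2,3),(3,1),(0,1),(12,1),(1,2),(1,3),(12,1),(3,4)]⟩),.k,.k,⟨true,0,⟨2,[(6,2),
  (1,0),(2,1),(7,1),(1,0),(1,0),(6,1)]⟩,⟨0,[(2,0),(10,0),(10,0),(12,0)]⟩⟩,⟨false,0,⟨0,[(17,0),(5,
  0)]⟩,⟨0,[(24,0),(16,0)]⟩⟩,⟨true,0,⟨0,[(39,0)]⟩,⟨0,[(40,0)]⟩⟩,⟨false,0,⟨0,[(2,0),(24,0)]⟩,⟨0,[(8,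
  0),(31,0)]⟩⟩,⟨false,0,⟨0,[]⟩,⟨0,[]⟩⟩,⟨false,0,⟨0,[]⟩,⟨0,[]⟩⟩,[.o ⟨false,0,⟨0,[(12,0)]⟩,⟨7,[(4,3),
  (3,3),(12,0),(0,0),(11,1),(5,3)]⟩⟩,.o ⟨false,1,⟨3,[(6,1),(14,0),(0,0),(11,0),(7,0)]⟩,⟨0,[(40,
  0)]⟩⟩,.o ⟨false,1,⟨1,[(24,1),(9,0),(6,0)]⟩,⟨0,[(17,0),(5,0)]⟩⟩,.a ⟨true,0,⟨0,[(24,0)]⟩,⟨0,[(23,
  0)]⟩⟩ ⟨false,1,⟨3,[(6,1),(1,1),(12,0),(1,1),(17,0)]⟩,⟨3,[(2,0),(1,0),(6,0),(1,1),(8,0),(1,1),(1,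
  0)]⟩⟩ ⟨true,0,⟨0,[(12,0),(10,0)]⟩,⟨0,[(24,0),(15,0)]⟩⟩]⟩)))) (.Q [0,0,0,0,0,-2,0,0,0,1,1] (.p
  true [1,-1,1] [] (⟨0,[(30,0),(1,0)]⟩,⟨0,[(2,0),(8,0)]⟩) .k 0 (⟨0,[]⟩,⟨0,[]⟩) .k .k) (.R ⟨1,true,
  true,true,[1,-1,1],[],[1,0,-1,-2,0,0,0,1],(⟨1,[(0,0),(20,0),(0,0),(8,0)]⟩,⟨0,[(3,0),(8,0)]⟩),(⟨0,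
  []⟩,⟨0,[]⟩),⟨0,[(0,0)]⟩,.k,.k,(.r (-2) ⟨11,[(4,3),(0,15),(12,5),(9,11),(3,0),(2,5),(3,6)]⟩ ⟨1,[(9,
  1),(17,0),(0,0)]⟩),.k,(.r (-2) ⟨11,[(4,3),(0,15),(12,5),(9,11),(3,0),(2,5),(3,6)]⟩ ⟨1,[(9,1),(17,
  0),(0,0)]⟩),.k,⟨false,2,⟨0,[(4,0),(0,0),(11,0),(10,0),(10,0)]⟩,⟨0,[(9,0),(32,0)]⟩⟩,⟨true,1,⟨0,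
  [(21,0),(0,0),(5,0),(10,0)]⟩,⟨7,[(4,5),(2,4),(1,2),(1,0),(3,2),(2,5),(5,4)]⟩⟩,⟨false,1,⟨0,[(37,0),
  (2,0)]⟩,⟨0,[(38,0)]⟩⟩,⟨true,0,⟨0,[(17,0),(8,1)]⟩,⟨0,[(4,0),(6,0)]⟩⟩,⟨true,0,⟨0,[]⟩,⟨0,[(42,0)]⟩⟩,
  ⟨false,0,⟨0,[(8,0),(8,0),(10,1),(10,0)]⟩,⟨11,[(4,13),(6,3),(6,3),(13,0),(7,10)]⟩⟩,[]⟩) (.Q [0,1,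
  -1,0,0,0,0,0,-1,0,0,1] (.p true [0,0,0,1] [] (⟨0,[(22,0)]⟩,⟨0,[(21,0)]⟩) .k 0 (⟨0,[]⟩,⟨0,[]⟩) .k
  .k) (.K ⟨0,[0,0,0,1],0,0,(⟨0,[(23,0)]⟩,⟨0,[(22,0)]⟩),.k,(.r (-1) ⟨0,[(3,0),(1,0),(17,0),(16,0)]⟩
  ⟨3,[(10,1),(8,0),(0,1),(4,0),(3,0)]⟩),(.x 0 ⟨0,[(35,0)]⟩ ⟨3,[(20,0),(0,0),(11,1),(0,3)]⟩),.k,.k,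
  [⟨0,[(23,0)]⟩,⟨0,[(22,0)]⟩,⟨0,[(0,0)]⟩,⟨0,[(3,0),(7,0),(31,0)]⟩]⟩) (.Q [0,0,0,0,0,-1,0,0,0,1,0,
  -1] (.p false [0,0,0,1] [1] (⟨0,[(23,0)]⟩,⟨0,[(22,0)]⟩) .k 1 (⟨0,[]⟩,⟨0,[]⟩) .k .k) (.R ⟨1,false,
  false,true,[1,0,0,-1],[1,-1],[1,0,0,-1,0,0,0,0,-1],(⟨0,[(23,0)]⟩,⟨0,[(24,0)]⟩),(⟨0,[(35,0)]⟩,⟨0,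
  [(36,0)]⟩),⟨0,[(0,0)]⟩,.k,.k,(.x (-1) ⟨3,[(21,0),(0,0),(11,1),(0,3)]⟩ ⟨0,[(36,0)]⟩),(.r 0 ⟨3,[(11,
  1),(8,0),(0,1),(4,0),(3,0)]⟩ ⟨3,[(1,1),(4,1),(15,0),(0,1),(0,3),(16,2)]⟩),.k,.k,⟨true,0,⟨1,[(3,0),
  (2,0),(1,0),(0,0),(9,0),(3,1),(2,1),(11,0)]⟩,⟨0,[(1,0),(22,0),(12,0)]⟩⟩,⟨false,0,⟨0,[(17,0),(5,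
  0)]⟩,⟨0,[(24,0),(16,0)]⟩⟩,⟨false,1,⟨0,[(39,0),(2,0)]⟩,⟨0,[(40,0)]⟩⟩,⟨false,0,⟨0,[(4,0),(1,0)]⟩,⟨0,
  [(8,0),(31,0)]⟩⟩,⟨true,0,⟨0,[]⟩,⟨0,[(44,0)]⟩⟩,⟨false,0,⟨0,[(4,0),(7,0)]⟩,⟨0,[(8,0)]⟩⟩,[.o ⟨false,
  0,⟨0,[(12,0)]⟩,⟨7,[(4,3),(3,3),(12,0),(0,0),(11,1),(5,3)]⟩⟩,.o ⟨false,1,⟨3,[(6,1),(14,0),(0,0),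
  (11,0),(7,0)]⟩,⟨0,[(40,0)]⟩⟩,.o ⟨false,1,⟨1,[(24,1),(9,0),(6,0)]⟩,⟨0,[(17,0),(5,0)]⟩⟩,.a ⟨true,0,
  ⟨0,[(24,0)]⟩,⟨0,[(23,0)]⟩⟩ ⟨false,1,⟨1,[(3,1),(3,2),(1,0),(13,1),(2,1)]⟩,⟨3,[(11,1),(8,0),(1,1),
  (3,0),(3,0)]⟩⟩ ⟨true,0,⟨0,[(12,0),(10,0)]⟩,⟨0,[(24,0),(15,0)]⟩⟩]⟩) (.R ⟨0,false,false,false,[1,0,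
  0,-1],[0,1],[0,1],(⟨0,[(23,0)]⟩,⟨0,[(24,0)]⟩),(⟨0,[(36,0)]⟩,⟨0,[(35,0)]⟩),⟨0,[(0,0)]⟩,.k,.k,(.x
  (-1) ⟨3,[(21,0),(0,0),(11,1),(0,3)]⟩ ⟨0,[(36,0)]⟩),(.x (-1) ⟨3,[(21,0),(0,0),(11,1),(0,3)]⟩ ⟨0,
  [(36,0)]⟩),.k,.k,⟨false,1,⟨0,[(7,0),(29,0)]⟩,⟨2,[(11,0),(5,0),(1,0),(10,0),(11,0)]⟩⟩,⟨true,0,⟨0,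
  [(23,0)]⟩,⟨0,[(17,0),(6,0)]⟩⟩,⟨true,0,⟨0,[(1,0),(22,0),(12,0)]⟩,⟨1,[(3,1),(3,0),(1,0),(13,1),(2,
  1)]⟩⟩,⟨false,0,⟨0,[(4,0)]⟩,⟨5,[(3,0),(2,2),(1,4),(16,0),(8,0)]⟩⟩,⟨false,0,⟨0,[]⟩,⟨0,[]⟩⟩,⟨false,0,
  ⟨0,[]⟩,⟨0,[]⟩⟩,[.o ⟨false,0,⟨0,[(40,0)]⟩,⟨3,[(6,1),(14,0),(0,0),(11,0),(7,0)]⟩⟩,.o ⟨false,1,⟨7,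
  [(4,3),(3,3),(12,0),(0,0),(11,1),(5,3)]⟩,⟨0,[(12,0)]⟩⟩,.o ⟨false,1,⟨1,[(24,1),(9,0),(6,0)]⟩,⟨0,
  [(17,0),(5,0)]⟩⟩,.a ⟨true,0,⟨0,[(24,0)]⟩,⟨0,[(23,0)]⟩⟩ ⟨false,1,⟨3,[(21,0),(0,0),(18,1)]⟩,⟨0,[(38,
  0)]⟩⟩ ⟨true,0,⟨0,[(23,0),(16,0)]⟩,⟨0,[(12,0),(11,0)]⟩⟩]⟩))))) (.I [0,0,1,1,-1,0,0,0,-1] (.K ⟨0,[0,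
  0,0,1],0,0,(⟨0,[(21,0)]⟩,⟨0,[(20,0)]⟩),.k,(.r (-2) ⟨7,[(4,5),(13,2),(0,6),(14,1),(1,1)]⟩ ⟨0,[(0,
  0)]⟩),(.x 0 ⟨0,[(33,0)]⟩ ⟨3,[(18,0),(0,0),(11,1),(0,3)]⟩),.k,.k,[⟨0,[(21,0)]⟩,⟨0,[(20,0)]⟩,⟨4,[(0,
  1),(0,1),(3,0),(14,1),(0,3),(12,1),(3,0)]⟩,⟨1,[(3,0),(4,0),(10,0),(0,1),(2,0),(0,0)]⟩]⟩) (.I [0,0,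
  -1,-1,1,0,0,0,1] (.K ⟨0,[0,0,0,1],0,0,(⟨0,[(22,0)]⟩,⟨0,[(21,0)]⟩),.k,(.r (-1) ⟨0,[(0,0)]⟩ ⟨3,[(9,
  1),(8,0),(0,1),(4,0),(3,0)]⟩),(.x 0 ⟨0,[(34,0)]⟩ ⟨3,[(19,0),(0,0),(11,1),(0,3)]⟩),.k,.k,[⟨0,[(22,
  0)]⟩,⟨0,[(21,0)]⟩,⟨0,[(2,0),(14,0),(8,0)]⟩,⟨1,[(4,0),(4,0),(10,0),(0,1),(2,0),(0,0)]⟩]⟩) (.K ⟨0,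
  [0,0,0,1],0,0,(⟨0,[(22,0)]⟩,⟨0,[(21,0)]⟩),.k,(.x 0 ⟨1,[(15,1),(11,0),(0,0),(4,1)]⟩ ⟨0,[(34,0),(4,
  0)]⟩),(.x 0 ⟨0,[(34,0)]⟩ ⟨3,[(19,0),(0,0),(11,1),(0,3)]⟩),.k,.k,[⟨0,[(22,0)]⟩,⟨0,[(21,0)]⟩,⟨4,[(0,
  1),(1,1),(3,0),(14,1),(0,3),(12,1),(3,0)]⟩,⟨1,[(4,0),(4,0),(10,0),(0,1),(2,0),(0,0)]⟩]⟩))))))))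
  (.Q [0,-1,0,2,0,0,0,0,0,1] (.pp false [-1,1]) (.R ⟨2,true,false,true,[0,1],[1,-1],[0,1,1,1],(⟨0,
  []⟩,⟨0,[]⟩),(⟨0,[(27,0)]⟩,⟨0,[(28,0)]⟩),⟨0,[]⟩,.k,.k,.k,(.r 1 ⟨1,[(3,1),(8,0),(5,0),(3,0)]⟩ ⟨5,
  [(1,3),(8,7),(2,0),(0,0),(18,3),(0,1)]⟩),.k,.k,⟨true,(-1),⟨1,[(3,1),(8,0),(5,0),(3,0)]⟩,⟨0,[(1,0),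
  (6,0),(1,0)]⟩⟩,⟨false,0,⟨0,[(9,0)]⟩,⟨0,[(15,0),(0,0),(16,0)]⟩⟩,⟨true,0,⟨0,[(36,0)]⟩,⟨0,[]⟩⟩,
  ⟨false,1,⟨0,[(4,0),(26,0),(2,0)]⟩,⟨0,[(0,0)]⟩⟩,⟨false,0,⟨0,[(32,0)]⟩,⟨0,[(31,0),(2,0)]⟩⟩,⟨true,0,
  ⟨0,[(4,0)]⟩,⟨3,[(0,1),(11,0),(2,0),(0,0),(3,1)]⟩⟩,[]⟩) (.Q [0,1,-1,0,0,0,0,0,-1,0,0,1] (.p true
  [0,0,0,1] [] (⟨0,[(16,0)]⟩,⟨0,[(15,0)]⟩) .k 0 (⟨0,[]⟩,⟨0,[]⟩) .k .k) (.I [0,0,1,1,-1,0,0,0,-1]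
  (.K ⟨0,[0,0,0,1],0,0,(⟨0,[(18,0)]⟩,⟨0,[(17,0)]⟩),.k,(.r (-2) ⟨5,[(3,1),(8,3),(2,1),(0,4),(18,1),
  (0,0)]⟩ ⟨0,[(0,0)]⟩),(.x 0 ⟨0,[(30,0)]⟩ ⟨3,[(15,0),(0,0),(11,1),(0,3)]⟩),.k,.k,[⟨0,[(18,0)]⟩,⟨0,
  [(17,0)]⟩,⟨0,[(1,0)]⟩,⟨1,[(2,0),(2,0),(10,0),(0,1),(2,0),(0,0)]⟩]⟩) (.K ⟨0,[0,0,0,1],0,0,(⟨0,[(18,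
  0)]⟩,⟨0,[(17,0)]⟩),.k,(.x 0 ⟨1,[(11,1),(11,0),(0,0),(4,1)]⟩ ⟨0,[(30,0),(4,0)]⟩),(.x 0 ⟨0,[(30,
  0)]⟩ ⟨3,[(15,0),(0,0),(11,1),(0,3)]⟩),.k,.k,[⟨0,[(18,0)]⟩,⟨0,[(17,0)]⟩,⟨0,[(1,0)]⟩,⟨1,[(2,0),(2,
  0),(10,0),(0,1),(2,0),(0,0)]⟩]⟩)) (.Q [0,1,1,0,-1,0,0,0,1,0,0,-1] (.p false [0,0,0,1] [] (⟨0,[(17,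
  0)]⟩,⟨0,[(16,0)]⟩) .k 0 (⟨0,[]⟩,⟨0,[]⟩) .k .k) (.K ⟨0,[0,0,0,1],0,(-1),(⟨0,[(18,0)]⟩,⟨0,[(17,
  0)]⟩),.k,(.r (-1) ⟨5,[(0,0),(0,2),(1,1),(8,3),(3,0),(1,3),(16,3)]⟩ ⟨3,[(5,1),(8,0),(0,1),(4,0),(3,
  0)]⟩),(.x 0 ⟨0,[(30,0)]⟩ ⟨3,[(15,0),(0,0),(11,1),(0,3)]⟩),.k,.k,[⟨0,[(18,0)]⟩,⟨0,[(17,0)]⟩,⟨7,
  [(15,4),(0,0),(1,7),(12,3),(3,1)]⟩,⟨0,[(0,0)]⟩]⟩) (.Q [0,0,0,0,0,-1,0,0,0,0,0,1] (.p true [0,0,0,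
  1] [] (⟨0,[(18,0)]⟩,⟨0,[(17,0)]⟩) .k 0 (⟨0,[]⟩,⟨0,[]⟩) .k .k) (.Q [0,0,0,0,0,-2,0,0,0,1] (.pp
  false [-1,1]) (.R ⟨1,true,false,false,[1,-1],[0,1],[0,0,-1,-1],(⟨0,[(31,0)]⟩,⟨0,[(32,0)]⟩),(⟨0,
  [(32,0)]⟩,⟨0,[(31,0)]⟩),⟨0,[(0,0)]⟩,.k,.k,(.r (-2) ⟨5,[(5,3),(8,7),(2,0),(0,0),(18,3),(0,1)]⟩ ⟨1,
  [(7,1),(8,0),(5,0),(3,0)]⟩),(.r (-2) ⟨5,[(5,3),(8,7),(2,0),(0,0),(18,3),(0,1)]⟩ ⟨1,[(7,1),(8,0),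
  (5,0),(3,0)]⟩),(.r (-2) ⟨0,[(4,0),(0,0),(6,1),(6,0),(0,0),(16,0)]⟩ ⟨5,[(7,7),(7,1),(0,1),(6,1),(1,
  0),(0,8),(3,1)]⟩),.k,⟨false,2,⟨0,[(5,0),(6,0),(1,0),(22,0)]⟩,⟨1,[(7,1),(8,0),(5,0),(3,0)]⟩⟩,⟨true,
  1,⟨0,[(19,0),(0,0),(16,0)]⟩,⟨1,[(4,1),(2,1),(8,0),(5,0),(3,0),(7,1)]⟩⟩,⟨false,1,⟨3,[(17,0),(0,0),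
  (19,1)]⟩,⟨0,[]⟩⟩,⟨true,0,⟨0,[(15,0),(8,0),(11,0)]⟩,⟨0,[(4,0)]⟩⟩,⟨true,0,⟨0,[(36,0)]⟩,⟨0,[(35,
  0)]⟩⟩,⟨false,0,⟨0,[(7,0),(7,0),(10,0),(10,0)]⟩,⟨0,[(4,0),(30,0),(2,0)]⟩⟩,[]⟩) (.I [0,0,-1,0,1,0,0,
  1,-1] (.R ⟨0,false,false,true,[1,0,0,-1],[1,0,-1],[0,1,0,0,0,0,0,0,-1],(⟨0,[(20,0)]⟩,⟨0,[(21,
  0)]⟩),(⟨0,[(29,0)]⟩,⟨0,[(30,0)]⟩),⟨0,[(1,0),(0,0)]⟩,.k,.k,(.x (-1) ⟨3,[(18,0),(0,0),(11,1),(0,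
  3)]⟩ ⟨0,[(33,0)]⟩),.k,.k,.k,⟨false,1,⟨0,[(0,0)]⟩,⟨7,[(4,5),(0,1),(1,3),(11,0),(0,1),(0,7),(16,
  2)]⟩⟩,⟨true,0,⟨0,[(20,0),(2,0)]⟩,⟨3,[(7,0),(5,0),(1,0),(1,1),(3,3),(9,0)]⟩⟩,⟨true,0,⟨0,[(41,0)]⟩,
  ⟨0,[]⟩⟩,⟨false,0,⟨0,[(4,0),(20,0)]⟩,⟨2,[(3,2),(5,0),(0,0),(6,0)]⟩⟩,⟨false,0,⟨0,[]⟩,⟨0,[]⟩⟩,⟨false,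
  0,⟨0,[]⟩,⟨0,[]⟩⟩,[.o ⟨false,0,⟨0,[(22,0)]⟩,⟨7,[(17,3),(0,0),(0,0),(11,1),(7,3)]⟩⟩,.o ⟨false,1,⟨1,
  [(25,1),(5,0),(7,0)]⟩,⟨0,[(12,0)]⟩⟩,.o ⟨false,1,⟨1,[(21,1),(9,0),(6,0)]⟩,⟨0,[(14,0),(5,0)]⟩⟩,.a
  ⟨true,0,⟨0,[(21,0)]⟩,⟨0,[(20,0)]⟩⟩ ⟨false,1,⟨1,[(18,0),(19,0)]⟩,⟨0,[(4,0),(16,0)]⟩⟩ ⟨true,0,⟨0,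
  [(20,0),(1,0)]⟩,⟨2,[(9,0),(0,0),(6,0),(3,2)]⟩⟩]⟩) (.R ⟨0,false,false,false,[1,0,0,-1],[0,0,1],[0,
  1,0,0,0,0,0,0,-1],(⟨0,[(20,0)]⟩,⟨0,[(21,0)]⟩),(⟨0,[(30,0)]⟩,⟨0,[(29,0)]⟩),⟨0,[(1,0),(0,0)]⟩,.k,.k,
  (.x (-1) ⟨3,[(18,0),(0,0),(11,1),(0,3)]⟩ ⟨0,[(33,0)]⟩),.k,.k,.k,⟨true,0,⟨1,[(7,0),(10,0),(17,0)]⟩,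
  ⟨0,[(0,0),(5,0),(6,0),(2,0),(6,0)]⟩⟩,⟨false,0,⟨3,[(7,0),(5,0),(1,0),(1,1),(2,3),(10,0)]⟩,⟨0,[(21,
  0),(1,0),(14,0)]⟩⟩,⟨true,0,⟨0,[(41,0)]⟩,⟨0,[]⟩⟩,⟨false,0,⟨25,[(0,7),(3,15),(1,1),(9,1),(0,13),(1,
  0),(0,9),(6,3),(11,4)]⟩,⟨0,[(3,0),(18,0)]⟩⟩,⟨false,0,⟨0,[]⟩,⟨0,[]⟩⟩,⟨false,0,⟨0,[]⟩,⟨0,[]⟩⟩,[.o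
  ⟨false,0,⟨0,[(12,0)]⟩,⟨1,[(25,1),(5,0),(7,0)]⟩⟩,.o ⟨false,1,⟨7,[(17,3),(0,0),(0,0),(11,1),(7,3)]⟩,
  ⟨0,[(22,0)]⟩⟩,.o ⟨false,1,⟨1,[(21,1),(9,0),(6,0)]⟩,⟨0,[(14,0),(5,0)]⟩⟩,.a ⟨true,0,⟨0,[(21,0)]⟩,⟨0,
  [(20,0)]⟩⟩ ⟨false,1,⟨1,[(18,0),(19,0)]⟩,⟨0,[(4,0),(16,0)]⟩⟩ ⟨true,0,⟨2,[(9,0),(0,0),(6,0),(2,2)]⟩,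
  ⟨0,[(21,0),(0,0)]⟩⟩]⟩))) (.Q [0,1,-1,1,0,0,0,0,-1,0,0,1] (.p true [0,0,0,1] [] (⟨0,[(19,0)]⟩,⟨0,
  [(18,0)]⟩) .k 0 (⟨0,[]⟩,⟨0,[]⟩) .k .k) (.Q [0,0,0,0,0,-1,0,0,0,1,0,-1] (.p false [0,0,0,1] [1]
  (⟨0,[(20,0)]⟩,⟨0,[(19,0)]⟩) .k 1 (⟨0,[]⟩,⟨0,[]⟩) .k .k) (.R ⟨1,false,false,true,[1,0,0,-1],[1,-1],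
  [1,0,0,-1,0,0,0,0,-1],(⟨0,[(20,0)]⟩,⟨0,[(21,0)]⟩),(⟨0,[(32,0)]⟩,⟨0,[(33,0)]⟩),⟨0,[(0,0)]⟩,.k,.k,
  (.x (-1) ⟨3,[(18,0),(0,0),(11,1),(0,3)]⟩ ⟨0,[(33,0)]⟩),(.r 0 ⟨3,[(8,1),(8,0),(0,1),(4,0),(3,0)]⟩
  ⟨3,[(4,1),(0,1),(13,0),(0,1),(0,3),(16,2)]⟩),.k,.k,⟨true,0,⟨1,[(0,0),(0,1),(0,0),(2,1),(7,1),(2,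
  1),(6,0),(3,0),(7,1)]⟩,⟨0,[(4,0),(16,0),(12,0)]⟩⟩,⟨false,0,⟨3,[(0,1),(1,1),(11,1),(11,0),(0,0)]⟩,
  ⟨0,[(21,0),(16,0)]⟩⟩,⟨false,1,⟨0,[(36,0),(2,0)]⟩,⟨0,[(37,0)]⟩⟩,⟨false,0,⟨0,[(4,0),(31,0)]⟩,⟨0,[(1,
  0),(37,0)]⟩⟩,⟨true,0,⟨0,[]⟩,⟨0,[(41,0)]⟩⟩,⟨false,0,⟨0,[(4,0),(36,0)]⟩,⟨0,[(3,0)]⟩⟩,[.o ⟨false,0,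
  ⟨0,[(9,0)]⟩,⟨3,[(18,0),(0,0),(17,3),(1,1)]⟩⟩,.o ⟨false,1,⟨3,[(5,1),(12,0),(0,0),(11,0),(7,0)]⟩,⟨0,
  [(37,0)]⟩⟩,.o ⟨false,1,⟨1,[(21,1),(9,0),(6,0)]⟩,⟨3,[(0,1),(1,1),(11,1),(11,0),(0,0)]⟩⟩,.a ⟨true,0,
  ⟨0,[(21,0)]⟩,⟨0,[(20,0)]⟩⟩ ⟨false,1,⟨1,[(0,0),(0,1),(0,0),(2,1),(0,1),(6,5),(2,1),(6,0),(3,0)]⟩,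
  ⟨3,[(8,1),(8,0),(1,1),(3,0),(3,0)]⟩⟩ ⟨true,0,⟨1,[(0,0),(1,0),(6,0),(26,0)]⟩,⟨0,[(21,0),(15,
  0)]⟩⟩]⟩) (.R ⟨0,false,false,false,[1,0,0,-1],[0,1],[0,1],(⟨0,[(20,0)]⟩,⟨0,[(21,0)]⟩),(⟨0,[(33,
  0)]⟩,⟨0,[(32,0)]⟩),⟨0,[(0,0)]⟩,.k,.k,(.x (-1) ⟨3,[(18,0),(0,0),(11,1),(0,3)]⟩ ⟨0,[(33,0)]⟩),(.x
  (-1) ⟨3,[(18,0),(0,0),(11,1),(0,3)]⟩ ⟨0,[(33,0)]⟩),.k,.k,⟨false,1,⟨0,[(36,0),(1,0)]⟩,⟨2,[(8,0),(5,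
  0),(1,0),(10,0),(11,0)]⟩⟩,⟨true,0,⟨0,[(20,0)]⟩,⟨0,[(14,0),(6,0)]⟩⟩,⟨true,0,⟨0,[(4,0),(16,0),(12,
  0)]⟩,⟨0,[(1,0),(3,0),(7,0),(2,0),(3,0),(2,0)]⟩⟩,⟨false,0,⟨0,[(4,0),(11,0),(8,0)]⟩,⟨4,[(1,0),(1,3),
  (1,2),(25,0)]⟩⟩,⟨false,0,⟨0,[]⟩,⟨0,[]⟩⟩,⟨false,0,⟨0,[]⟩,⟨0,[]⟩⟩,[.o ⟨false,0,⟨0,[(37,0)]⟩,⟨3,[(5,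
  1),(12,0),(0,0),(11,0),(7,0)]⟩⟩,.o ⟨false,1,⟨3,[(18,0),(0,0),(17,3),(1,1)]⟩,⟨0,[(9,0)]⟩⟩,.o
  ⟨false,1,⟨1,[(21,1),(9,0),(6,0)]⟩,⟨0,[(14,0),(5,0)]⟩⟩,.a ⟨true,0,⟨0,[(21,0)]⟩,⟨0,[(20,0)]⟩⟩
  ⟨false,1,⟨3,[(18,0),(0,0),(18,1)]⟩,⟨0,[(35,0)]⟩⟩ ⟨true,0,⟨0,[(20,0),(16,0)]⟩,⟨0,[(9,0),(11,
  0)]⟩⟩]⟩)) (.Q [0,0,0,0,0,-1,0,0,0,1,0,-1] (.p false [0,0,0,1] [1] (⟨0,[(20,0)]⟩,⟨0,[(19,0)]⟩) .k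
  1 (⟨0,[]⟩,⟨0,[]⟩) .k .k) (.Q [0,-1,-1,0,1,0,-1,-1,-1,-1,1,1] (.p true [0,0,1] [1,0,0,-1] (⟨0,[(30,
  0)]⟩,⟨0,[(29,0)]⟩) .k 2 (⟨0,[(20,0)]⟩,⟨0,[(21,0)]⟩) .k (.r (-1) ⟨5,[(6,1),(9,1),(2,2),(7,1),(3,
  0)]⟩ ⟨0,[(3,0),(1,0),(2,0),(11,0)]⟩)) (.R ⟨1,false,false,true,[1,0,0,-1],[1,-1],[0,0,0,0,0,0,0,0,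
  -1],(⟨0,[(21,0)]⟩,⟨0,[(22,0)]⟩),(⟨0,[(33,0)]⟩,⟨0,[(34,0)]⟩),⟨0,[(1,0)]⟩,.k,.k,(.x (-1) ⟨3,[(19,0),
  (0,0),(11,1),(0,3)]⟩ ⟨0,[(34,0)]⟩),(.r 0 ⟨3,[(9,1),(8,0),(0,1),(4,0),(3,0)]⟩ ⟨3,[(2,1),(17,0),(1,
  1),(14,1),(1,2)]⟩),.k,.k,⟨true,0,⟨9,[(0,5),(0,2),(1,2),(2,9),(2,7),(7,13),(1,1),(4,0),(3,6)]⟩,⟨0,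
  [(2,0),(19,0),(12,0)]⟩⟩,⟨false,0,⟨3,[(1,1),(1,1),(11,1),(11,0),(0,0)]⟩,⟨0,[(22,0),(16,0)]⟩⟩,
  ⟨false,1,⟨3,[(19,0),(0,0),(19,1)]⟩,⟨0,[]⟩⟩,⟨false,0,⟨0,[(2,0),(39,0)]⟩,⟨0,[(4,0),(33,0)]⟩⟩,⟨true,
  0,⟨0,[(38,0)]⟩,⟨0,[(37,0)]⟩⟩,⟨false,0,⟨0,[(5,0),(36,0)]⟩,⟨0,[(4,0)]⟩⟩,[.o ⟨false,0,⟨0,[(10,0)]⟩,
  ⟨3,[(19,0),(0,0),(17,3),(1,1)]⟩⟩,.o ⟨false,1,⟨3,[(6,1),(12,0),(0,0),(11,0),(7,0)]⟩,⟨0,[(38,0)]⟩⟩,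
  .o ⟨false,1,⟨1,[(22,1),(9,0),(6,0)]⟩,⟨3,[(1,1),(1,1),(11,1),(11,0),(0,0)]⟩⟩,.a ⟨true,0,⟨0,[(22,
  0)]⟩,⟨0,[(21,0)]⟩⟩ ⟨false,1,⟨13,[(0,3),(0,5),(1,5),(0,7),(1,1),(4,3),(7,0),(19,0)]⟩,⟨6,[(2,2),(6,
  1),(10,1),(1,2),(2,1),(2,1),(8,0)]⟩⟩ ⟨true,0,⟨1,[(1,0),(1,0),(6,0),(26,0)]⟩,⟨0,[(22,0),(15,
  0)]⟩⟩]⟩) (.R ⟨1,false,false,true,[1,0,0,-1],[1,-1],[1,1,0,-1,0,0,0,0,-1],(⟨0,[(21,0)]⟩,⟨0,[(22,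
  0)]⟩),(⟨0,[(33,0)]⟩,⟨0,[(34,0)]⟩),⟨0,[(1,0)]⟩,.k,.k,(.x (-1) ⟨3,[(19,0),(0,0),(11,1),(0,3)]⟩ ⟨0,
  [(34,0)]⟩),(.r 0 ⟨3,[(9,1),(8,0),(0,1),(4,0),(3,0)]⟩ ⟨3,[(2,1),(17,0),(1,1),(14,1),(1,2)]⟩),.k,.k,
  ⟨true,0,⟨2,[(4,0),(1,2),(2,1),(7,1),(1,0),(1,0),(6,1)]⟩,⟨0,[(0,0),(13,0),(7,0),(1,0),(14,0)]⟩⟩,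
  ⟨false,0,⟨11,[(0,2),(0,1),(0,1),(0,1),(1,2),(3,0),(5,1),(3,3),(3,1),(0,0)]⟩,⟨0,[(22,0),(16,0)]⟩⟩,
  ⟨true,0,⟨0,[(37,0)]⟩,⟨0,[(38,0)]⟩⟩,⟨false,0,⟨15,[(0,3),(1,11),(16,0),(0,0),(5,3),(5,1),(4,3)]⟩,⟨0,
  [(4,0),(33,0)]⟩⟩,⟨false,0,⟨0,[]⟩,⟨3,[(19,0),(0,0),(19,1)]⟩⟩,⟨false,0,⟨11,[(0,3),(4,7),(13,0),(0,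
  0),(5,3),(5,1)]⟩,⟨0,[(4,0)]⟩⟩,[.o ⟨false,0,⟨0,[(10,0)]⟩,⟨3,[(19,0),(0,0),(17,3),(1,1)]⟩⟩,.o
  ⟨false,1,⟨3,[(6,1),(12,0),(0,0),(11,0),(7,0)]⟩,⟨0,[(38,0)]⟩⟩,.o ⟨false,1,⟨1,[(22,1),(9,0),(6,0)]⟩,
  ⟨11,[(0,2),(0,1),(0,1),(0,1),(1,2),(3,0),(5,1),(3,3),(3,1),(0,0)]⟩⟩,.a ⟨true,0,⟨0,[(22,0)]⟩,⟨0,
  [(21,0)]⟩⟩ ⟨false,1,⟨3,[(4,1),(1,1),(12,0),(1,1),(17,0)]⟩,⟨5,[(5,3),(3,1),(7,1),(2,0),(1,3),(1,1),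
  (14,0)]⟩⟩ ⟨true,0,⟨21,[(0,1),(0,9),(1,9),(2,7),(12,0),(3,1),(8,0),(2,1),(1,5)]⟩,⟨0,[(22,0),(15,
  0)]⟩⟩]⟩)) (.I [1,-1,-1,0,1,0,0,0,-1] (.R ⟨0,false,false,false,[1,0,0,-1],[0,0,1],[1,0,0,0,0,0,0,0,
  -1],(⟨0,[(21,0)]⟩,⟨0,[(22,0)]⟩),(⟨0,[(31,0)]⟩,⟨0,[(30,0)]⟩),⟨0,[(1,0)]⟩,.k,.k,(.x (-1) ⟨3,[(19,0),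
  (0,0),(11,1),(0,3)]⟩ ⟨0,[(34,0)]⟩),.k,.k,.k,⟨true,0,⟨0,[(4,0),(1,0),(2,0),(11,0)]⟩,⟨0,[(2,0),(4,
  0),(1,0),(12,0)]⟩⟩,⟨false,0,⟨25,[(0,5),(1,5),(3,1),(1,9),(9,9),(2,19),(5,5),(4,0),(6,2)]⟩,⟨0,[(22,
  0),(1,0),(14,0)]⟩⟩,⟨true,0,⟨0,[]⟩,⟨0,[(42,0)]⟩⟩,⟨false,0,⟨6,[(2,3),(2,0),(3,0),(7,1),(0,2),(1,0),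
  (0,1),(6,0)]⟩,⟨0,[(4,0),(18,0)]⟩⟩,⟨false,0,⟨0,[]⟩,⟨0,[]⟩⟩,⟨false,0,⟨0,[]⟩,⟨0,[]⟩⟩,[.o ⟨false,0,⟨0,
  [(13,0)]⟩,⟨1,[(26,1),(5,0),(7,0)]⟩⟩,.o ⟨false,1,⟨7,[(18,3),(0,0),(0,0),(11,1),(7,3)]⟩,⟨0,[(23,
  0)]⟩⟩,.o ⟨false,1,⟨1,[(22,1),(9,0),(6,0)]⟩,⟨0,[(15,0),(5,0)]⟩⟩,.a ⟨true,0,⟨0,[(22,0)]⟩,⟨0,[(21,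
  0)]⟩⟩ ⟨false,1,⟨0,[(0,0)]⟩,⟨6,[(2,2),(6,1),(10,1),(1,2),(2,1),(2,1),(8,0)]⟩⟩ ⟨true,0,⟨2,[(10,0),
  (0,0),(6,0),(2,2)]⟩,⟨0,[(22,0),(0,0)]⟩⟩]⟩) (.R ⟨0,false,false,false,[1,0,0,-1],[0,0,1],[0,1,0,0,0,
  0,0,0,-1],(⟨0,[(21,0)]⟩,⟨0,[(22,0)]⟩),(⟨0,[(31,0)]⟩,⟨0,[(30,0)]⟩),⟨0,[(1,0)]⟩,.k,.k,(.x (-1) ⟨3,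
  [(19,0),(0,0),(11,1),(0,3)]⟩ ⟨0,[(34,0)]⟩),.k,.k,.k,⟨true,0,⟨1,[(8,0),(10,0),(17,0)]⟩,⟨0,[(0,0),
  (6,0),(6,1),(2,0),(6,0)]⟩⟩,⟨false,0,⟨3,[(2,1),(5,1),(9,1),(0,0),(1,1),(17,0)]⟩,⟨0,[(22,0),(1,0),
  (14,0)]⟩⟩,⟨true,0,⟨0,[(42,0)]⟩,⟨0,[]⟩⟩,⟨false,0,⟨9,[(0,0),(1,3),(2,2),(11,3),(0,2),(1,0),(0,2),(5,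
  0),(0,0)]⟩,⟨0,[(4,0),(18,0)]⟩⟩,⟨false,0,⟨0,[]⟩,⟨0,[]⟩⟩,⟨false,0,⟨0,[]⟩,⟨0,[]⟩⟩,[.o ⟨false,0,⟨0,
  [(13,0)]⟩,⟨1,[(26,1),(5,0),(7,0)]⟩⟩,.o ⟨false,1,⟨7,[(18,3),(0,0),(0,0),(11,1),(7,3)]⟩,⟨0,[(23,
  0)]⟩⟩,.o ⟨false,1,⟨1,[(22,1),(9,0),(6,0)]⟩,⟨0,[(15,0),(5,0)]⟩⟩,.a ⟨true,0,⟨0,[(22,0)]⟩,⟨0,[(21,
  0)]⟩⟩ ⟨false,1,⟨1,[(19,0),(19,0)]⟩,⟨0,[(5,0),(16,0)]⟩⟩ ⟨true,0,⟨2,[(10,0),(0,0),(6,0),(2,2)]⟩,⟨0,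
  [(22,0),(0,0)]⟩⟩]⟩))))))))) (.Q [0,-1,0,2,0,0,0,0,0,1] (.pp false [-1,1]) (.R ⟨2,true,false,true,
  [0,1],[1,-1],[0,1,1,1],(⟨0,[]⟩,⟨0,[]⟩),(⟨0,[(26,0)]⟩,⟨0,[(27,0)]⟩),⟨0,[]⟩,.k,.k,.k,(.r 1 ⟨1,[(2,
  1),(8,0),(5,0),(3,0)]⟩ ⟨3,[(1,1),(7,3),(2,0),(0,0),(16,1),(1,3)]⟩),.k,.k,⟨true,(-1),⟨1,[(2,1),(8,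
  0),(5,0),(3,0)]⟩,⟨1,[(1,0),(7,1),(20,0),(1,0)]⟩⟩,⟨false,0,⟨0,[(8,0)]⟩,⟨0,[(14,0),(0,0),(16,0)]⟩⟩,
  ⟨true,0,⟨0,[(35,0)]⟩,⟨0,[]⟩⟩,⟨false,1,⟨1,[(1,0),(7,1),(15,0),(4,0)]⟩,⟨0,[(0,0)]⟩⟩,⟨false,0,⟨0,
  [(31,0)]⟩,⟨5,[(1,1),(7,3),(2,0),(0,0),(19,1)]⟩⟩,⟨true,0,⟨0,[(3,0)]⟩,⟨3,[(0,1),(10,0),(2,0),(0,0),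
  (3,1)]⟩⟩,[]⟩) (.I [0,0,1,1,-1,0,0,0,-1] (.K ⟨0,[0,0,0,1],0,0,(⟨0,[(16,0)]⟩,⟨0,[(15,0)]⟩),.k,(.r
  (-2) ⟨7,[(2,1),(7,3),(2,2),(0,6),(16,1),(1,3)]⟩ ⟨0,[(0,0)]⟩),(.x 0 ⟨0,[(28,0)]⟩ ⟨3,[(13,0),(0,0),
  (11,1),(0,3)]⟩),.k,.k,[⟨0,[(16,0)]⟩,⟨0,[(15,0)]⟩,⟨0,[(0,0),(15,0),(14,0),(1,0)]⟩,⟨1,[(1,0),(1,0),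
  (10,0),(0,1),(2,0),(0,0)]⟩]⟩) (.Q [0,1,-1,0,0,0,0,0,-1,0,0,1] (.p true [0,0,0,1] [] (⟨0,[(16,0)]⟩,
  ⟨0,[(15,0)]⟩) .k 0 (⟨0,[]⟩,⟨0,[]⟩) .k .k) (.K ⟨0,[0,0,0,1],0,0,(⟨0,[(17,0)]⟩,⟨0,[(16,0)]⟩),.k,(.x
  0 ⟨1,[(10,1),(11,0),(0,0),(4,1)]⟩ ⟨0,[(29,0),(4,0)]⟩),(.x 0 ⟨0,[(29,0)]⟩ ⟨3,[(14,0),(0,0),(11,1),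
  (0,3)]⟩),.k,.k,[⟨0,[(17,0)]⟩,⟨0,[(16,0)]⟩,⟨0,[(0,0)]⟩,⟨1,[(2,0),(1,0),(10,0),(0,1),(2,0),(0,
  0)]⟩]⟩) (.Q [0,0,0,0,0,-2,0,0,0,1] (.pp false [-1,1]) (.R ⟨1,true,false,false,[1,-1],[0,1],[0,0,
  -1,-1],(⟨0,[(29,0)]⟩,⟨0,[(30,0)]⟩),(⟨0,[(30,0)]⟩,⟨0,[(29,0)]⟩),⟨0,[(0,0)]⟩,.k,.k,(.r (-2) ⟨2,[(2,
  1),(1,0),(7,1),(2,0),(17,0),(1,1)]⟩ ⟨1,[(5,1),(8,0),(5,0),(3,0)]⟩),(.r (-2) ⟨2,[(2,1),(1,0),(7,1),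
  (2,0),(17,0),(1,1)]⟩ ⟨1,[(5,1),(8,0),(5,0),(3,0)]⟩),(.r (-2) ⟨1,[(3,1),(0,0),(5,0),(1,0),(4,1),(0,
  1),(16,2)]⟩ ⟨5,[(5,7),(7,1),(0,1),(6,1),(1,0),(0,8),(3,1)]⟩),.k,⟨false,2,⟨1,[(4,0),(7,1),(20,0),
  (1,2)]⟩,⟨1,[(5,1),(8,0),(5,0),(3,0)]⟩⟩,⟨true,1,⟨0,[(17,0),(0,0),(16,0)]⟩,⟨1,[(3,1),(1,1),(8,0),(5,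
  0),(3,0),(7,1)]⟩⟩,⟨false,1,⟨3,[(15,0),(0,0),(19,1)]⟩,⟨0,[]⟩⟩,⟨true,0,⟨0,[(13,0),(8,0),(11,0)]⟩,⟨0,
  [(3,0)]⟩⟩,⟨true,0,⟨0,[(34,0)]⟩,⟨0,[(33,0)]⟩⟩,⟨false,0,⟨0,[(5,0),(7,0),(10,0),(10,0)]⟩,⟨5,[(3,5),
  (0,1),(7,3),(2,0),(0,0),(19,1)]⟩⟩,[]⟩) (.Q [0,0,0,0,0,-2,0,0,0,1,1] (.p true [1,-1,1] [] (⟨0,[(27,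
  0),(1,0)]⟩,⟨0,[(0,0),(7,0)]⟩) .k 0 (⟨0,[]⟩,⟨0,[]⟩) .k .k) (.R ⟨1,true,true,true,[1,-1,1],[],[0,0,
  -1,-1,0,0,0,1],(⟨1,[(0,0),(17,0),(0,0),(8,0)]⟩,⟨0,[(1,0),(7,0)]⟩),(⟨0,[]⟩,⟨0,[]⟩),⟨0,[(0,0)]⟩,.k,
  .k,(.r (-2) ⟨5,[(3,1),(1,3),(7,1),(2,0),(17,3),(1,4)]⟩ ⟨1,[(6,1),(17,0),(0,0)]⟩),.k,(.r (-2) ⟨5,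
  [(3,1),(1,3),(7,1),(2,0),(17,3),(1,4)]⟩ ⟨1,[(6,1),(17,0),(0,0)]⟩),.k,⟨false,2,⟨9,[(3,1),(1,5),(7,
  1),(2,0),(19,8),(0,1)]⟩,⟨0,[(6,0),(27,0)]⟩⟩,⟨true,1,⟨0,[(18,0),(0,0),(5,0),(10,0)]⟩,⟨5,[(4,6),(1,
  5),(1,1),(3,0),(2,1),(17,4)]⟩⟩,⟨false,1,⟨3,[(16,0),(0,0),(19,1)]⟩,⟨0,[]⟩⟩,⟨true,0,⟨0,[(14,0),(8,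
  1)]⟩,⟨0,[(4,0),(3,0)]⟩⟩,⟨true,0,⟨0,[(35,0)]⟩,⟨0,[(34,0)]⟩⟩,⟨false,0,⟨0,[(6,0),(11,0),(0,0),(5,0),
  (10,0)]⟩,⟨11,[(4,13),(3,3),(6,3),(13,0),(7,10)]⟩⟩,[]⟩) (.Q [0,-1,-1,-1,1,0,1,1,-1,-1,-1,1] (.p
  false [1,-1,1] [0,0,0,1] (⟨0,[(28,0),(1,0)]⟩,⟨1,[(0,0),(26,0)]⟩) .k 2 (⟨0,[(19,0)]⟩,⟨0,[(18,0)]⟩)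
  .k (.r (-1) ⟨27,[(5,11),(10,14),(0,0),(4,3),(2,3),(6,3),(2,11)]⟩ ⟨0,[(2,0),(8,0),(7,0),(12,0)]⟩))
  (.Q [0,0,-1,-1,1,0,-1,-1,-1,-1,1,1] (.p true [0,0,1] [1,0,0,-1] (⟨0,[(29,0)]⟩,⟨0,[(28,0)]⟩) .k 2
  (⟨0,[(19,0)]⟩,⟨0,[(20,0)]⟩) .k (.x 0 ⟨0,[(25,0),(3,0)]⟩ ⟨2,[(1,0),(8,1),(11,0),(3,1),(10,2)]⟩))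
  (.Q [0,0,0,0,0,1,0,0,0,-1,0,1] (.p true [0,0,0,1] [1] (⟨0,[(21,0)]⟩,⟨0,[(20,0)]⟩) .k 1 (⟨0,[]⟩,⟨0,
  []⟩) .k .k) (.I [0,0,-1,0,1,0,0,1,-1] (.R ⟨0,false,false,true,[1,0,0,-1],[1,0,-1],[0,1,0,0,0,0,0,
  0,-1],(⟨0,[(22,0)]⟩,⟨0,[(23,0)]⟩),(⟨0,[(31,0)]⟩,⟨0,[(32,0)]⟩),⟨0,[(1,0)]⟩,.k,.k,(.x (-1) ⟨3,[(20,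
  0),(0,0),(11,1),(0,3)]⟩ ⟨0,[(35,0)]⟩),.k,.k,.k,⟨false,1,⟨0,[(0,0)]⟩,⟨0,[(6,0),(8,0),(7,0),(12,
  0)]⟩⟩,⟨true,0,⟨0,[(22,0),(2,0)]⟩,⟨22,[(3,6),(3,0),(0,0),(1,10),(6,11),(1,7),(1,2),(1,15),(12,
  2)]⟩⟩,⟨true,0,⟨0,[(43,0)]⟩,⟨0,[]⟩⟩,⟨false,0,⟨0,[(6,0),(20,0)]⟩,⟨3,[(3,1),(14,1),(1,0),(2,1),(16,
  0)]⟩⟩,⟨false,0,⟨0,[]⟩,⟨0,[]⟩⟩,⟨false,0,⟨0,[]⟩,⟨0,[]⟩⟩,[.o ⟨false,0,⟨0,[(24,0)]⟩,⟨7,[(19,3),(0,0),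
  (0,0),(11,1),(7,3)]⟩⟩,.o ⟨false,1,⟨1,[(27,1),(5,0),(7,0)]⟩,⟨0,[(14,0)]⟩⟩,.o ⟨false,1,⟨1,[(23,1),
  (9,0),(6,0)]⟩,⟨0,[(16,0),(5,0)]⟩⟩,.a ⟨true,0,⟨0,[(23,0)]⟩,⟨0,[(22,0)]⟩⟩ ⟨false,1,⟨1,[(20,0),(19,
  0)]⟩,⟨0,[(6,0),(16,0)]⟩⟩ ⟨true,0,⟨0,[(22,0),(1,0)]⟩,⟨4,[(8,0),(3,1),(6,0),(3,4),(2,0)]⟩⟩]⟩) (.R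
  ⟨0,false,false,false,[1,0,0,-1],[0,0,1],[0,1,0,0,0,0,0,0,-1],(⟨0,[(22,0)]⟩,⟨0,[(23,0)]⟩),(⟨0,[(32,
  0)]⟩,⟨0,[(31,0)]⟩),⟨0,[(1,0)]⟩,.k,.k,(.x (-1) ⟨3,[(20,0),(0,0),(11,1),(0,3)]⟩ ⟨0,[(35,0)]⟩),.k,.k,
  .k,⟨true,0,⟨9,[(2,0),(0,0),(4,2),(1,5),(6,3),(2,3),(1,4),(0,2),(12,3)]⟩,⟨0,[(0,0),(8,0),(29,0)]⟩⟩,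
  ⟨false,0,⟨12,[(8,1),(3,3),(2,7),(3,1),(2,12),(5,4),(7,4)]⟩,⟨0,[(23,0),(1,0),(14,0)]⟩⟩,⟨true,0,⟨0,
  [(43,0)]⟩,⟨0,[]⟩⟩,⟨false,0,⟨8,[(0,1),(5,4),(2,0),(8,0),(0,3),(1,0),(0,3),(14,1)]⟩,⟨0,[(2,0),(36,
  0)]⟩⟩,⟨false,0,⟨0,[]⟩,⟨0,[]⟩⟩,⟨false,0,⟨0,[]⟩,⟨0,[]⟩⟩,[.o ⟨false,0,⟨0,[(14,0)]⟩,⟨1,[(27,1),(5,0),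
  (7,0)]⟩⟩,.o ⟨false,1,⟨7,[(19,3),(0,0),(0,0),(11,1),(7,3)]⟩,⟨0,[(24,0)]⟩⟩,.o ⟨false,1,⟨1,[(23,1),
  (9,0),(6,0)]⟩,⟨0,[(16,0),(5,0)]⟩⟩,.a ⟨true,0,⟨0,[(23,0)]⟩,⟨0,[(22,0)]⟩⟩ ⟨false,1,⟨1,[(20,0),(19,
  0)]⟩,⟨0,[(6,0),(16,0)]⟩⟩ ⟨true,0,⟨4,[(8,0),(3,1),(6,0),(2,4),(3,0)]⟩,⟨0,[(23,0),(0,0)]⟩⟩]⟩)) (.I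
  [1,1,0,-1,0,0,0,0,1] (.R ⟨1,false,false,true,[1,0,0,-1],[1,-1],[0,0,0,0,0,0,0,0,-1],(⟨0,[(22,0)]⟩,
  ⟨0,[(23,0)]⟩),(⟨0,[(34,0)]⟩,⟨0,[(35,0)]⟩),⟨0,[(1,0)]⟩,.k,.k,(.x (-1) ⟨3,[(20,0),(0,0),(11,1),(0,
  3)]⟩ ⟨0,[(35,0)]⟩),(.r 0 ⟨3,[(10,1),(8,0),(0,1),(4,0),(3,0)]⟩ ⟨0,[(0,0),(7,1),(1,0),(1,1),(0,3),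
  (1,0),(9,1),(6,3),(2,3),(4,1)]⟩),.k,.k,⟨true,0,⟨0,[(3,0),(6,0),(11,0),(6,0)]⟩,⟨0,[(0,0)]⟩⟩,⟨false,
  0,⟨0,[(16,0),(5,0)]⟩,⟨0,[(23,0),(16,0)]⟩⟩,⟨false,1,⟨3,[(20,0),(0,0),(19,1)]⟩,⟨0,[]⟩⟩,⟨false,0,⟨0,
  [(6,0),(31,0)]⟩,⟨0,[(2,0),(15,0),(20,0)]⟩⟩,⟨true,0,⟨0,[(39,0)]⟩,⟨0,[(38,0)]⟩⟩,⟨false,0,⟨0,[(6,0),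
  (36,0)]⟩,⟨0,[(2,0),(15,0)]⟩⟩,[.o ⟨false,0,⟨0,[(11,0)]⟩,⟨3,[(20,0),(0,0),(17,3),(1,1)]⟩⟩,.o ⟨false,
  1,⟨3,[(8,1),(11,0),(0,0),(11,0),(7,0)]⟩,⟨0,[(39,0)]⟩⟩,.o ⟨false,1,⟨1,[(23,1),(9,0),(6,0)]⟩,⟨0,
  [(16,0),(5,0)]⟩⟩,.a ⟨true,0,⟨0,[(23,0)]⟩,⟨0,[(22,0)]⟩⟩ ⟨false,1,⟨0,[(2,0),(9,0),(9,0)]⟩,⟨23,[(0,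
  7),(5,7),(3,3),(5,1),(2,1),(1,3),(1,7),(4,2),(0,6)]⟩⟩ ⟨true,0,⟨0,[(11,0),(10,0)]⟩,⟨0,[(23,0),(15,
  0)]⟩⟩]⟩) (.R ⟨1,false,false,false,[1,0,0,-1],[0,0,1],[1,0,0,-1,0,0,0,0,-1],(⟨0,[(22,0)]⟩,⟨0,[(23,
  0)]⟩),(⟨0,[(32,0)]⟩,⟨0,[(31,0)]⟩),⟨0,[(1,0)]⟩,.k,.k,(.x (-1) ⟨3,[(20,0),(0,0),(11,1),(0,3)]⟩ ⟨0,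
  [(35,0)]⟩),.k,(.r (-1) ⟨1,[(17,1),(2,0),(19,0)]⟩ ⟨0,[(6,0),(11,0),(4,0),(1,0),(10,0)]⟩),.k,⟨true,
  0,⟨0,[(0,0),(16,0),(20,0)]⟩,⟨0,[(6,0),(11,0),(4,0),(1,0),(10,0)]⟩⟩,⟨false,0,⟨2,[(1,1),(3,0),(9,1),
  (3,0),(2,0),(5,0),(7,0)]⟩,⟨0,[(23,0),(1,0),(14,0)]⟩⟩,⟨false,1,⟨5,[(9,1),(7,3),(2,0),(0,0),(19,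
  1)]⟩,⟨0,[(39,0)]⟩⟩,⟨false,0,⟨1,[(6,1),(12,0),(2,0),(0,0)]⟩,⟨0,[(2,0),(36,0)]⟩⟩,⟨true,0,⟨0,[]⟩,⟨0,
  [(43,0)]⟩⟩,⟨false,0,⟨6,[(6,4),(3,0),(7,4),(2,0),(0,1),(3,2),(2,0)]⟩,⟨0,[(2,0)]⟩⟩,[.o ⟨false,0,⟨0,
  [(14,0)]⟩,⟨1,[(27,1),(5,0),(7,0)]⟩⟩,.o ⟨false,1,⟨7,[(19,3),(0,0),(0,0),(11,1),(7,3)]⟩,⟨0,[(24,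
  0)]⟩⟩,.o ⟨false,1,⟨1,[(23,1),(9,0),(6,0)]⟩,⟨0,[(16,0),(5,0)]⟩⟩,.a ⟨true,0,⟨0,[(23,0)]⟩,⟨0,[(22,
  0)]⟩⟩ ⟨false,1,⟨5,[(0,3),(1,0),(0,0),(4,0),(0,1),(7,3),(4,2),(0,0),(16,1)]⟩,⟨3,[(10,1),(8,0),(1,
  1),(3,0),(3,0)]⟩⟩ ⟨true,0,⟨1,[(1,1),(3,0),(13,0)]⟩,⟨0,[(23,0),(0,0)]⟩⟩]⟩))) (.Q [0,-1,-1,0,1,0,0,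
  0,-1,0,0,1] (.p true [0,0,0,1] [] (⟨0,[(21,0)]⟩,⟨0,[(20,0)]⟩) .k 0 (⟨0,[]⟩,⟨0,[]⟩) .k .k) (.R ⟨1,
  true,false,false,[1,0,-1],[0,0,0,1],[0,1,0,0,0,0,0,-1],(⟨0,[(30,0)]⟩,⟨0,[(31,0)]⟩),(⟨0,[(22,0)]⟩,
  ⟨0,[(21,0)]⟩),⟨0,[(12,0)]⟩,.k,.k,.k,.k,(.r (-1) ⟨1,[(16,1),(2,0),(19,0)]⟩ ⟨18,[(1,8),(6,3),(11,4),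
  (1,8),(1,8),(0,1),(2,1),(6,0),(2,13)]⟩),.k,⟨true,0,⟨2,[(0,0),(6,0),(1,1),(6,0),(2,0),(1,0),(13,0),
  (1,0)]⟩,⟨6,[(1,5),(4,0),(0,0),(0,2),(5,4),(7,5),(1,4),(3,0),(10,1)]⟩⟩,⟨false,0,⟨6,[(1,1),(0,1),
  (11,3),(6,6),(5,2),(7,2)]⟩,⟨0,[(22,0),(1,0),(14,0)]⟩⟩,⟨true,0,⟨0,[(42,0)]⟩,⟨0,[]⟩⟩,⟨false,0,⟨6,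
  [(1,1),(3,2),(2,0),(7,1),(0,0),(0,1),(1,0),(0,1),(14,1)]⟩,⟨0,[(0,0),(22,0)]⟩⟩,⟨false,0,⟨0,[(38,
  0)]⟩,⟨5,[(8,1),(7,3),(2,0),(0,0),(19,1)]⟩⟩,⟨true,(-1),⟨0,[(1,0)]⟩,⟨11,[(0,9),(6,5),(11,0),(2,1),
  (0,3),(2,7),(5,0),(2,1)]⟩⟩,[]⟩) (.K ⟨0,[0,0,0,1],0,(-1),(⟨0,[(22,0)]⟩,⟨0,[(21,0)]⟩),.k,(.r (-1)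
  ⟨0,[(0,0),(6,5),(1,2),(1,4),(0,10),(1,1),(7,0),(1,4),(6,10),(2,10),(4,4)]⟩ ⟨3,[(9,1),(8,0),(0,1),
  (4,0),(3,0)]⟩),(.x 0 ⟨0,[(34,0)]⟩ ⟨3,[(19,0),(0,0),(11,1),(0,3)]⟩),.k,.k,[⟨0,[(22,0)]⟩,⟨0,[(21,
  0)]⟩,⟨7,[(19,4),(0,0),(1,7),(12,3),(3,1)]⟩,⟨0,[(0,0)]⟩]⟩))) (.K ⟨0,[0,0,0,1],0,(-1),(⟨0,[(20,0)]⟩,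
  ⟨0,[(19,0)]⟩),.k,(.r (-1) ⟨0,[(0,0),(4,6),(1,2),(1,5),(0,10),(1,1),(7,0),(1,4),(6,10),(2,10),(4,
  4)]⟩ ⟨3,[(7,1),(8,0),(0,1),(4,0),(3,0)]⟩),(.x 0 ⟨0,[(32,0)]⟩ ⟨3,[(17,0),(0,0),(11,1),(0,3)]⟩),.k,
  .k,[⟨0,[(20,0)]⟩,⟨0,[(19,0)]⟩,⟨7,[(17,4),(0,0),(1,7),(12,3),(3,1)]⟩,⟨0,[(0,0),(4,0),(3,
  0)]⟩]⟩)))))))) (.I [1,-1,1,0,0,0,0,0,1] (.Q [0,0,0,0,0,-1,0,0,0,1,0,-1] (.p false [0,0,0,1] [1]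
  (⟨0,[(14,0)]⟩,⟨0,[(13,0)]⟩) .k 1 (⟨0,[]⟩,⟨0,[]⟩) .k .k) (.I [0,1,-2,-1,1,0,0,0,-1] (.Q [0,0,-1,-2,
  1,0,0,0,-1,-1,0,1] (.p true [0,0,0,1] [1] (⟨0,[(16,0)]⟩,⟨0,[(15,0)]⟩) .k 1 (⟨0,[]⟩,⟨0,[]⟩) .k .k)
  (.R ⟨1,false,false,false,[1,0,0,-1],[0,1],[0,1,0,0,0,0,0,0,-1],(⟨0,[(16,0)]⟩,⟨0,[(17,0)]⟩),(⟨0,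
  [(29,0)]⟩,⟨0,[(28,0)]⟩),⟨0,[(2,0)]⟩,.k,.k,(.x (-1) ⟨3,[(14,0),(0,0),(11,1),(0,3)]⟩ ⟨0,[(29,0)]⟩),
  (.x (-1) ⟨3,[(14,0),(0,0),(11,1),(0,3)]⟩ ⟨0,[(29,0)]⟩),(.x 0 ⟨2,[(5,1),(0,1),(2,0),(0,1),(7,0),(0,
  0),(8,5)]⟩ ⟨3,[(14,0),(0,0),(13,7),(4,1)]⟩),.k,⟨false,1,⟨0,[(1,0)]⟩,⟨0,[(3,0),(29,0)]⟩⟩,⟨true,0,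
  ⟨0,[(16,0)]⟩,⟨0,[(10,0),(6,0)]⟩⟩,⟨true,0,⟨0,[(37,0)]⟩,⟨0,[]⟩⟩,⟨false,0,⟨0,[(3,0),(12,0),(16,0)]⟩,
  ⟨0,[(0,0),(32,0)]⟩⟩,⟨false,0,⟨0,[(33,0)]⟩,⟨11,[(4,3),(6,3),(2,0),(0,0),(6,1),(0,1),(11,5)]⟩⟩,
  ⟨false,0,⟨0,[(3,0),(12,0),(16,1)]⟩,⟨0,[(0,0)]⟩⟩,[.o ⟨false,0,⟨0,[(33,0)]⟩,⟨11,[(4,3),(6,3),(2,0),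
  (0,0),(6,1),(0,1),(3,5)]⟩⟩,.o ⟨false,1,⟨3,[(14,0),(0,0),(17,3),(1,1)]⟩,⟨0,[(5,0)]⟩⟩,.o ⟨false,1,
  ⟨1,[(17,1),(9,0),(6,0)]⟩,⟨0,[(10,0),(5,0)]⟩⟩,.a ⟨true,0,⟨0,[(17,0)]⟩,⟨0,[(16,0)]⟩⟩ ⟨false,1,⟨1,
  [(14,0),(19,0)]⟩,⟨0,[(3,0)]⟩⟩ ⟨true,0,⟨0,[(16,0),(16,0)]⟩,⟨0,[(5,0),(11,0)]⟩⟩]⟩) (.R ⟨1,true,
  false,false,[1,0,0,-1],[0,1],[1,0,2,1],(⟨0,[(16,0)]⟩,⟨0,[(17,0)]⟩),(⟨0,[(29,0)]⟩,⟨0,[(28,0)]⟩),⟨0,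
  [(2,0)]⟩,.k,.k,(.x (-1) ⟨3,[(14,0),(0,0),(11,1),(0,3)]⟩ ⟨0,[(29,0)]⟩),(.x (-1) ⟨3,[(14,0),(0,0),
  (11,1),(0,3)]⟩ ⟨0,[(29,0)]⟩),(.r (-2) ⟨19,[(1,15),(2,7),(6,7),(2,4),(0,2),(19,7)]⟩ ⟨0,[(0,0),(9,
  0),(6,0)]⟩),.k,⟨false,0,⟨0,[]⟩,⟨3,[(14,0),(0,0),(18,1)]⟩⟩,⟨true,0,⟨0,[(16,0)]⟩,⟨0,[(10,0),(6,
  0)]⟩⟩,⟨true,(-1),⟨0,[(0,0),(4,0),(11,0),(13,0)]⟩,⟨0,[(1,0)]⟩⟩,⟨false,0,⟨7,[(0,3),(2,1),(11,0),(0,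
  3),(5,0),(0,0),(11,2)]⟩,⟨5,[(1,3),(2,0),(0,2),(0,2),(2,3),(4,0),(2,5),(1,2)]⟩⟩,⟨false,(-1),⟨1,[(0,
  1),(4,0),(0,0),(2,0),(7,1),(1,0),(11,0)]⟩,⟨19,[(1,15),(2,7),(6,7),(2,4),(0,2),(19,7)]⟩⟩,⟨true,
  (-1),⟨0,[(0,0)]⟩,⟨2,[(1,0),(2,0),(0,2),(3,0),(4,0),(2,2)]⟩⟩,[]⟩)) (.Q [0,0,1,1,-1,0,1,1,1,1,-1,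
  -1] (.p false [0,0,1] [1,0,0,-1] (⟨0,[(25,0)]⟩,⟨0,[(24,0)]⟩) .k 2 (⟨0,[(15,0)]⟩,⟨0,[(16,0)]⟩) .k
  (.x 0 ⟨0,[(21,0),(3,0)]⟩ ⟨0,[(18,0),(5,0),(8,0)]⟩)) (.Q [0,0,-1,0,1,0,-1,-1,-1,-1,1,1] (.p true
  [0,0,1] [1,0,0,-1] (⟨0,[(26,0)]⟩,⟨0,[(25,0)]⟩) .k 2 (⟨0,[(16,0)]⟩,⟨0,[(17,0)]⟩) .k (.x 0 ⟨0,[(22,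
  0),(3,0)]⟩ ⟨0,[(19,0),(5,0),(8,0)]⟩)) (.R ⟨1,false,false,false,[1,0,0,-1],[0,0,1],[0,0,1,0,0,0,0,
  1],(⟨0,[(17,0)]⟩,⟨0,[(18,0)]⟩),(⟨0,[(27,0)]⟩,⟨0,[(26,0)]⟩),⟨0,[(3,0)]⟩,.k,.k,(.x (-1) ⟨3,[(15,0),
  (0,0),(11,1),(0,3)]⟩ ⟨0,[(30,0)]⟩),.k,(.r (-1) ⟨1,[(12,1),(2,0),(19,0)]⟩ ⟨2,[(1,0),(11,1),(2,0),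
  (1,0),(1,2),(10,0)]⟩),.k,⟨true,0,⟨1,[(23,0),(0,0)]⟩,⟨0,[]⟩⟩,⟨false,0,⟨8,[(6,1),(0,1),(2,5),(3,1),
  (2,8),(5,2),(7,2)]⟩,⟨0,[(18,0),(1,0),(14,0)]⟩⟩,⟨false,0,⟨13,[(1,1),(0,9),(2,7),(7,3),(2,0),(1,1),
  (1,5),(14,2)]⟩,⟨1,[(15,0),(9,1),(9,0)]⟩⟩,⟨false,0,⟨2,[(1,1),(2,0),(0,0),(11,0),(5,0),(12,0)]⟩,⟨0,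
  [(0,0)]⟩⟩,⟨false,0,⟨6,[(1,1),(0,2),(2,0),(7,3),(2,0),(1,1),(1,5),(14,2)]⟩,⟨1,[(12,1),(2,0),(19,
  0)]⟩⟩,⟨true,(-1),⟨0,[(1,0)]⟩,⟨0,[(0,0),(32,0)]⟩⟩,[.o ⟨false,0,⟨0,[(9,0)]⟩,⟨1,[(22,1),(5,0),(7,
  0)]⟩⟩,.o ⟨false,1,⟨7,[(14,3),(0,0),(0,0),(11,1),(7,3)]⟩,⟨0,[(19,0)]⟩⟩,.o ⟨false,1,⟨1,[(18,1),(9,
  0),(6,0)]⟩,⟨0,[(11,0),(5,0)]⟩⟩,.a ⟨true,0,⟨0,[(18,0)]⟩,⟨0,[(17,0)]⟩⟩ ⟨false,1,⟨5,[(5,1),(7,3),(10,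
  3),(3,1),(6,0),(0,0)]⟩,⟨0,[(25,0)]⟩⟩ ⟨true,0,⟨2,[(6,0),(0,0),(6,0),(2,2)]⟩,⟨0,[(18,0),(0,0)]⟩⟩]⟩)
  (.I [0,1,1,1,-1,0,0,-1] (.K ⟨0,[0,0,0,1],0,(-1),(⟨0,[(19,0)]⟩,⟨0,[(18,0)]⟩),.k,(.r (-1) ⟨7,[(1,0),
  (1,0),(2,2),(6,2),(3,2),(1,0),(0,0),(15,3)]⟩ ⟨1,[(0,0),(13,0),(1,0),(4,0)]⟩),(.x 0 ⟨0,[(31,0)]⟩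
  ⟨3,[(16,0),(0,0),(11,1),(0,3)]⟩),.k,.k,[⟨0,[(19,0)]⟩,⟨0,[(18,0)]⟩,⟨7,[(16,4),(0,0),(1,7),(12,3),
  (3,1)]⟩,⟨0,[(1,0),(18,0)]⟩]⟩) (.K ⟨0,[0,0,0,1],0,(-1),(⟨0,[(19,0)]⟩,⟨0,[(18,0)]⟩),.k,(.x 0 ⟨1,
  [(12,1),(11,0),(0,0),(4,1)]⟩ ⟨0,[(31,0),(4,0)]⟩),(.x 0 ⟨0,[(31,0)]⟩ ⟨3,[(16,0),(0,0),(11,1),(0,
  3)]⟩),.k,.k,[⟨0,[(19,0)]⟩,⟨0,[(18,0)]⟩,⟨7,[(16,4),(0,0),(1,7),(12,3),(3,1)]⟩,⟨0,[(1,0),(18,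
  0)]⟩]⟩))) (.R ⟨1,true,false,false,[1,0,0,-1],[0,1,1],[0,1,0,0,0,0,0,0,-1],(⟨0,[(16,0)]⟩,⟨0,[(17,
  0)]⟩),(⟨0,[(26,0),(2,0)]⟩,⟨0,[(7,0)]⟩),⟨0,[(2,0)]⟩,.k,.k,(.x (-1) ⟨3,[(14,0),(0,0),(11,1),(0,3)]⟩
  ⟨0,[(29,0)]⟩),(.r (-1) ⟨1,[(11,1),(2,0),(19,0)]⟩ ⟨19,[(1,7),(2,1),(7,15),(0,0),(1,5),(3,16),(3,0),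
  (6,11)]⟩),(.r (-2) ⟨5,[(4,1),(6,7),(2,3),(0,0),(18,4)]⟩ ⟨0,[(1,0),(10,0),(6,0),(10,0)]⟩),.k,
  ⟨false,1,⟨0,[(0,0),(5,0),(4,0),(4,0),(13,0)]⟩,⟨7,[(1,5),(2,1),(7,5),(2,0),(3,5),(10,1),(3,2)]⟩⟩,
  ⟨true,0,⟨2,[(6,1),(4,1),(4,2),(5,0),(7,0)]⟩,⟨0,[(17,0),(1,0)]⟩⟩,⟨true,0,⟨0,[(37,0)]⟩,⟨0,[]⟩⟩,
  ⟨false,0,⟨3,[(1,1),(4,0),(5,0),(0,0),(1,0),(0,3),(10,0)]⟩,⟨0,[(0,0)]⟩⟩,⟨false,0,⟨0,[(33,0)]⟩,⟨11,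
  [(4,3),(6,3),(2,0),(0,0),(6,1),(0,1),(11,5)]⟩⟩,⟨true,(-1),⟨0,[(1,0),(4,0),(9,0),(13,0)]⟩,⟨0,[(0,
  0),(31,0)]⟩⟩,[]⟩))) (.I [1,-1,-1,0,1,0,0,0,-1] (.I [0,1,-2,-1,1,0,0,0,-1] (.R ⟨0,false,false,
  false,[1,0,0,-1],[0,1],[0,1,0,0,0,0,0,0,-1],(⟨0,[(16,0)]⟩,⟨0,[(17,0)]⟩),(⟨0,[(29,0)]⟩,⟨0,[(28,
  0)]⟩),⟨0,[(2,0)]⟩,.k,.k,(.x (-1) ⟨3,[(14,0),(0,0),(11,1),(0,3)]⟩ ⟨0,[(29,0)]⟩),(.x (-1) ⟨3,[(14,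
  0),(0,0),(11,1),(0,3)]⟩ ⟨0,[(29,0)]⟩),.k,.k,⟨false,1,⟨0,[(0,0)]⟩,⟨0,[(3,0),(29,0)]⟩⟩,⟨true,0,⟨0,
  [(16,0)]⟩,⟨0,[(10,0),(6,0)]⟩⟩,⟨true,0,⟨0,[(37,0)]⟩,⟨0,[]⟩⟩,⟨false,0,⟨0,[(3,0),(12,0),(16,0)]⟩,⟨0,
  [(1,0),(3,0),(11,0)]⟩⟩,⟨false,0,⟨0,[]⟩,⟨0,[]⟩⟩,⟨false,0,⟨0,[]⟩,⟨0,[]⟩⟩,[.o ⟨false,0,⟨0,[(33,0)]⟩,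
  ⟨11,[(4,3),(6,3),(2,0),(0,0),(6,1),(0,1),(3,5)]⟩⟩,.o ⟨false,1,⟨3,[(14,0),(0,0),(17,3),(1,1)]⟩,⟨0,
  [(5,0)]⟩⟩,.o ⟨false,1,⟨1,[(17,1),(9,0),(6,0)]⟩,⟨0,[(10,0),(5,0)]⟩⟩,.a ⟨true,0,⟨0,[(17,0)]⟩,⟨0,
  [(16,0)]⟩⟩ ⟨false,1,⟨1,[(14,0),(19,0)]⟩,⟨0,[(3,0)]⟩⟩ ⟨true,0,⟨0,[(16,0),(16,0)]⟩,⟨0,[(5,0),(11,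
  0)]⟩⟩]⟩) (.R ⟨0,false,false,true,[1,0,0,-1],[0,1],[1,0,1],(⟨0,[(16,0)]⟩,⟨0,[(17,0)]⟩),(⟨0,[(29,
  0)]⟩,⟨0,[(28,0)]⟩),⟨0,[(2,0)]⟩,.k,.k,(.x (-1) ⟨3,[(14,0),(0,0),(11,1),(0,3)]⟩ ⟨0,[(29,0)]⟩),(.x
  (-1) ⟨3,[(14,0),(0,0),(11,1),(0,3)]⟩ ⟨0,[(29,0)]⟩),.k,.k,⟨false,1,⟨3,[(4,1),(4,1),(24,0),(0,0)]⟩,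
  ⟨0,[(33,0),(3,0)]⟩⟩,⟨true,0,⟨0,[(16,0)]⟩,⟨0,[(10,0),(6,0)]⟩⟩,⟨false,0,⟨0,[(3,0)]⟩,⟨1,[(14,0),(19,
  0)]⟩⟩,⟨true,(-1),⟨0,[(0,0),(15,0),(13,0)]⟩,⟨0,[(1,0),(3,0),(11,0)]⟩⟩,⟨false,0,⟨0,[]⟩,⟨0,[]⟩⟩,
  ⟨false,0,⟨0,[]⟩,⟨0,[]⟩⟩,[.o ⟨false,0,⟨0,[(33,0),(3,0)]⟩,⟨0,[(5,0),(29,0)]⟩⟩,.o ⟨false,0,⟨0,[(33,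
  0)]⟩,⟨11,[(4,3),(6,3),(2,0),(0,0),(6,1),(0,1),(3,5)]⟩⟩,.o ⟨false,1,⟨1,[(17,1),(9,0),(6,0)]⟩,⟨0,
  [(10,0),(5,0)]⟩⟩,.a ⟨true,0,⟨0,[(17,0)]⟩,⟨0,[(16,0)]⟩⟩ ⟨true,0,⟨0,[]⟩,⟨0,[(37,0)]⟩⟩ ⟨false,0,⟨0,
  [(16,0),(16,0)]⟩,⟨0,[(5,0),(11,0),(17,0)]⟩⟩]⟩)) (.Q [0,0,-1,-1,1,0,0,0,-1,-1,0,1] (.p true [0,0,0,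
  1] [1] (⟨0,[(16,0)]⟩,⟨0,[(15,0)]⟩) .k 1 (⟨0,[]⟩,⟨0,[]⟩) .k .k) (.R ⟨0,false,false,true,[1,0,0,-1],
  [0,1],[1,0,1],(⟨0,[(16,0)]⟩,⟨0,[(17,0)]⟩),(⟨0,[(29,0)]⟩,⟨0,[(28,0)]⟩),⟨0,[(2,0)]⟩,.k,.k,(.x (-1)
  ⟨3,[(14,0),(0,0),(11,1),(0,3)]⟩ ⟨0,[(29,0)]⟩),(.x (-1) ⟨3,[(14,0),(0,0),(11,1),(0,3)]⟩ ⟨0,[(29,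
  0)]⟩),.k,.k,⟨false,1,⟨3,[(4,1),(4,1),(24,0),(0,0)]⟩,⟨0,[(33,0),(3,0)]⟩⟩,⟨true,0,⟨0,[(16,0)]⟩,⟨0,
  [(10,0),(6,0)]⟩⟩,⟨false,0,⟨0,[(3,0)]⟩,⟨1,[(14,0),(19,0)]⟩⟩,⟨true,(-1),⟨0,[(1,0),(14,0),(16,0)]⟩,
  ⟨0,[(0,0)]⟩⟩,⟨false,0,⟨0,[]⟩,⟨0,[]⟩⟩,⟨false,0,⟨0,[]⟩,⟨0,[]⟩⟩,[.o ⟨false,0,⟨0,[(33,0),(3,0)]⟩,⟨0,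
  [(5,0),(29,0)]⟩⟩,.o ⟨false,0,⟨0,[(33,0)]⟩,⟨11,[(4,3),(6,3),(2,0),(0,0),(6,1),(0,1),(3,5)]⟩⟩,.o
  ⟨false,1,⟨1,[(17,1),(9,0),(6,0)]⟩,⟨0,[(10,0),(5,0)]⟩⟩,.a ⟨true,0,⟨0,[(17,0)]⟩,⟨0,[(16,0)]⟩⟩ ⟨true,
  0,⟨0,[]⟩,⟨0,[(37,0)]⟩⟩ ⟨false,0,⟨0,[(16,0),(16,0)]⟩,⟨0,[(0,0),(2,0)]⟩⟩]⟩) (.K ⟨0,[0,0,0,1],0,(-1),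
  (⟨0,[(17,0)]⟩,⟨0,[(16,0)]⟩),.k,(.x 0 ⟨1,[(10,1),(11,0),(0,0),(4,1)]⟩ ⟨0,[(29,0),(4,0)]⟩),(.x 0 ⟨0,
  [(29,0)]⟩ ⟨3,[(14,0),(0,0),(11,1),(0,3)]⟩),.k,.k,[⟨0,[(17,0)]⟩,⟨0,[(16,0)]⟩,⟨7,[(14,4),(0,0),(1,
  7),(12,3),(3,1)]⟩,⟨0,[(0,0),(4,0)]⟩]⟩)))) (.Q [0,1,1,0,0,0,0,0,1,0,0,-1] (.p false [0,0,0,1] []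
  (⟨0,[(14,0)]⟩,⟨0,[(13,0)]⟩) .k 0 (⟨0,[]⟩,⟨0,[]⟩) .k .k) (.K ⟨0,[0,0,0,1],0,0,(⟨0,[(15,0)]⟩,⟨0,
  [(14,0)]⟩),.k,(.x 0 ⟨1,[(8,1),(11,0),(0,0),(4,1)]⟩ ⟨0,[(27,0),(4,0)]⟩),(.x 0 ⟨0,[(27,0)]⟩ ⟨3,[(12,
  0),(0,0),(11,1),(0,3)]⟩),.k,.k,[⟨0,[(15,0)]⟩,⟨0,[(14,0)]⟩,⟨0,[(1,0),(13,0)]⟩,⟨0,[(0,0)]⟩]⟩) (.Q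
  [0,0,0,0,0,-1,0,0,0,1,0,-1] (.p false [0,0,0,1] [1] (⟨0,[(15,0)]⟩,⟨0,[(14,0)]⟩) .k 1 (⟨0,[]⟩,⟨0,
  []⟩) .k .k) (.Q [0,0,-1,-2,0,0,0,0,-1,-1,0,1] (.p true [0,0,0,1] [1] (⟨0,[(16,0)]⟩,⟨0,[(15,0)]⟩)
  .k 1 (⟨0,[]⟩,⟨0,[]⟩) .k .k) (.I [0,0,-1,0,0,0,0,1,-1] (.R ⟨1,false,false,true,[1,0,0,-1],[1,0,-1],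
  [0,1,0,0,0,0,0,0,-1],(⟨0,[(17,0)]⟩,⟨0,[(18,0)]⟩),(⟨0,[(26,0)]⟩,⟨0,[(27,0)]⟩),⟨0,[(2,0)]⟩,.k,.k,
  (.x (-1) ⟨3,[(15,0),(0,0),(11,1),(0,3)]⟩ ⟨0,[(30,0)]⟩),.k,(.x 0 ⟨0,[(6,0),(0,0),(17,0),(1,0),(1,
  0)]⟩ ⟨1,[(24,1),(1,1),(1,0),(1,1),(4,0)]⟩),.k,⟨false,0,⟨0,[(0,0)]⟩,⟨3,[(15,0),(0,2),(8,3)]⟩⟩,
  ⟨true,0,⟨0,[(17,0),(2,0)]⟩,⟨2,[(7,1),(4,1),(5,2),(4,0),(7,0)]⟩⟩,⟨true,0,⟨0,[(38,0)]⟩,⟨0,[]⟩⟩,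
  ⟨false,1,⟨1,[(16,0),(0,1),(1,1),(3,0),(0,0),(11,0)]⟩,⟨4,[(1,0),(1,3),(3,1),(6,0),(6,0)]⟩⟩,⟨false,
  0,⟨0,[(34,0)]⟩,⟨11,[(5,3),(6,3),(2,0),(0,0),(6,1),(0,1),(11,5)]⟩⟩,⟨false,1,⟨1,[(16,0),(0,1),(1,1),
  (3,0),(0,0),(9,1),(1,0)]⟩,⟨0,[(1,0),(11,0)]⟩⟩,[.o ⟨false,0,⟨0,[(19,0)]⟩,⟨7,[(14,3),(0,0),(0,0),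
  (11,1),(7,3)]⟩⟩,.o ⟨false,1,⟨1,[(22,1),(5,0),(7,0)]⟩,⟨0,[(9,0)]⟩⟩,.o ⟨false,1,⟨1,[(18,1),(9,0),(6,
  0)]⟩,⟨0,[(11,0),(5,0)]⟩⟩,.a ⟨true,0,⟨0,[(18,0)]⟩,⟨0,[(17,0)]⟩⟩ ⟨false,0,⟨1,[(0,0),(3,0),(5,0)]⟩,
  ⟨1,[(16,0),(6,0),(0,0),(11,0)]⟩⟩ ⟨true,0,⟨0,[(17,0),(1,0)]⟩,⟨2,[(6,0),(0,0),(6,0),(3,2)]⟩⟩]⟩) (.R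
  ⟨1,false,false,true,[1,0,0,-1],[0,1],[1,0,0,-1,0,0,0,0,-1],(⟨0,[(17,0)]⟩,⟨0,[(18,0)]⟩),(⟨0,[(30,
  0)]⟩,⟨0,[(29,0)]⟩),⟨0,[(2,0)]⟩,.k,.k,(.x (-1) ⟨3,[(15,0),(0,0),(11,1),(0,3)]⟩ ⟨0,[(30,0)]⟩),(.x
  (-1) ⟨3,[(15,0),(0,0),(11,1),(0,3)]⟩ ⟨0,[(30,0)]⟩),(.r (-1) ⟨15,[(1,9),(3,3),(6,3),(2,2),(1,9),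
  (17,8)]⟩ ⟨1,[(0,1),(12,0),(6,0),(0,0),(2,0),(9,2)]⟩),.k,⟨false,1,⟨1,[(1,1),(15,1),(17,0),(0,0)]⟩,
  ⟨0,[(0,0),(12,0),(6,0),(10,0),(2,0)]⟩⟩,⟨true,0,⟨0,[(17,0)]⟩,⟨0,[(11,0),(6,0)]⟩⟩,⟨false,1,⟨9,[(0,
  1),(4,3),(6,1),(2,0),(7,0),(0,0),(11,4)]⟩,⟨0,[(34,0)]⟩⟩,⟨true,0,⟨0,[(0,0),(12,0),(3,0),(2,0),(10,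
  0)]⟩,⟨4,[(1,2),(1,1),(3,0),(3,0),(7,0),(11,0)]⟩⟩,⟨true,0,⟨0,[]⟩,⟨0,[(38,0)]⟩⟩,⟨true,0,⟨0,[(0,0),
  (12,0),(3,0),(2,0),(10,0),(2,0)]⟩,⟨0,[(1,0)]⟩⟩,[.o ⟨false,0,⟨0,[(34,0),(3,0)]⟩,⟨0,[(6,0),(29,
  0)]⟩⟩,.o ⟨false,0,⟨0,[(34,0)]⟩,⟨6,[(0,1),(4,2),(5,0),(0,0),(2,0),(12,2)]⟩⟩,.o ⟨false,1,⟨1,[(18,1),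
  (9,0),(6,0)]⟩,⟨0,[(11,0),(5,0)]⟩⟩,.a ⟨true,0,⟨0,[(18,0)]⟩,⟨0,[(17,0)]⟩⟩ ⟨true,0,⟨4,[(1,2),(1,0),
  (0,0),(2,0),(9,3),(1,0)]⟩,⟨0,[(0,0),(12,0),(6,0),(10,0)]⟩⟩ ⟨false,0,⟨0,[(17,0),(16,0)]⟩,⟨3,[(1,1),
  (14,0),(1,1),(4,0),(0,0),(3,0),(7,1)]⟩⟩]⟩)) (.R ⟨1,true,false,true,[1,0,0,-1],[0,1],[0,0,0,0,0,0,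
  0,0,-1],(⟨0,[(16,0)]⟩,⟨0,[(17,0)]⟩),(⟨0,[(29,0)]⟩,⟨0,[(28,0)]⟩),⟨0,[(1,0)]⟩,.k,.k,(.x (-1) ⟨3,
  [(14,0),(0,0),(11,1),(0,3)]⟩ ⟨0,[(29,0)]⟩),(.x (-1) ⟨3,[(14,0),(0,0),(11,1),(0,3)]⟩ ⟨0,[(29,0)]⟩),
  (.r (-1) ⟨0,[(3,0),(0,0),(4,0)]⟩ ⟨0,[(0,0),(9,0),(6,0)]⟩),.k,⟨false,1,⟨2,[(2,2),(1,0),(0,0),(3,0),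
  (6,2),(10,0),(6,0)]⟩,⟨0,[(0,0),(4,0),(11,0)]⟩⟩,⟨true,0,⟨0,[(16,0)]⟩,⟨0,[(10,0),(6,0)]⟩⟩,⟨false,1,
  ⟨3,[(14,0),(0,0),(19,1)]⟩,⟨0,[]⟩⟩,⟨true,0,⟨0,[(0,0),(31,0)]⟩,⟨0,[(2,0),(2,0)]⟩⟩,⟨true,0,⟨0,[(33,
  0)]⟩,⟨0,[(32,0)]⟩⟩,⟨false,0,⟨0,[(0,0)]⟩,⟨17,[(2,15),(1,11),(5,9),(0,11),(2,0),(2,1),(9,3),(7,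
  0)]⟩⟩,[]⟩)) (.I [0,1,-2,-1,0,0,0,0,-1] (.R ⟨0,false,false,false,[1,0,0,-1],[0,1],[0,1,0,0,0,0,0,0,
  -1],(⟨0,[(16,0)]⟩,⟨0,[(17,0)]⟩),(⟨0,[(29,0)]⟩,⟨0,[(28,0)]⟩),⟨0,[(1,0)]⟩,.k,.k,(.x (-1) ⟨3,[(14,0),
  (0,0),(11,1),(0,3)]⟩ ⟨0,[(29,0)]⟩),(.x (-1) ⟨3,[(14,0),(0,0),(11,1),(0,3)]⟩ ⟨0,[(29,0)]⟩),.k,.k,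
  ⟨false,0,⟨0,[(0,0)]⟩,⟨1,[(15,0),(6,0),(0,0),(9,1),(1,0)]⟩⟩,⟨true,0,⟨0,[(16,0)]⟩,⟨0,[(10,0),(6,
  0)]⟩⟩,⟨true,0,⟨0,[(37,0)]⟩,⟨0,[]⟩⟩,⟨false,1,⟨1,[(15,0),(0,1),(5,0),(0,0),(9,1),(1,0)]⟩,⟨0,[(2,0),
  (2,0)]⟩⟩,⟨false,0,⟨0,[]⟩,⟨0,[]⟩⟩,⟨false,0,⟨0,[]⟩,⟨0,[]⟩⟩,[.o ⟨false,0,⟨0,[(33,0)]⟩,⟨11,[(4,3),(6,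
  3),(2,0),(0,0),(6,1),(0,1),(3,5)]⟩⟩,.o ⟨false,1,⟨3,[(14,0),(0,0),(17,3),(1,1)]⟩,⟨0,[(5,0)]⟩⟩,.o
  ⟨false,1,⟨1,[(17,1),(9,0),(6,0)]⟩,⟨0,[(10,0),(5,0)]⟩⟩,.a ⟨true,0,⟨0,[(17,0)]⟩,⟨0,[(16,0)]⟩⟩
  ⟨false,0,⟨3,[(0,0),(1,0),(0,1),(2,0),(2,0),(6,0),(2,0)]⟩,⟨1,[(15,0),(6,0),(0,0),(11,0)]⟩⟩ ⟨true,0,
  ⟨0,[(16,0),(16,0)]⟩,⟨0,[(5,0),(11,0)]⟩⟩]⟩) (.R ⟨0,false,false,true,[1,0,0,-1],[0,1],[1,0,1],(⟨0,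
  [(16,0)]⟩,⟨0,[(17,0)]⟩),(⟨0,[(29,0)]⟩,⟨0,[(28,0)]⟩),⟨0,[(1,0)]⟩,.k,.k,(.x (-1) ⟨3,[(14,0),(0,0),
  (11,1),(0,3)]⟩ ⟨0,[(29,0)]⟩),(.x (-1) ⟨3,[(14,0),(0,0),(11,1),(0,3)]⟩ ⟨0,[(29,0)]⟩),.k,.k,⟨false,
  1,⟨3,[(4,1),(4,1),(24,0),(0,0)]⟩,⟨0,[(33,0),(3,0)]⟩⟩,⟨true,0,⟨0,[(16,0)]⟩,⟨0,[(10,0),(6,0)]⟩⟩,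
  ⟨false,1,⟨4,[(0,2),(3,0),(6,0),(2,0),(0,1),(19,0)]⟩,⟨2,[(2,1),(0,0),(1,0),(0,0),(9,1),(1,0)]⟩⟩,
  ⟨true,0,⟨0,[(0,0),(15,0),(13,0)]⟩,⟨0,[(2,0),(2,0)]⟩⟩,⟨false,0,⟨0,[]⟩,⟨0,[]⟩⟩,⟨false,0,⟨0,[]⟩,⟨0,
  []⟩⟩,[.o ⟨false,0,⟨0,[(33,0),(3,0)]⟩,⟨0,[(5,0),(29,0)]⟩⟩,.o ⟨false,0,⟨0,[(33,0)]⟩,⟨11,[(4,3),(6,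
  3),(2,0),(0,0),(6,1),(0,1),(3,5)]⟩⟩,.o ⟨false,1,⟨1,[(17,1),(9,0),(6,0)]⟩,⟨0,[(10,0),(5,0)]⟩⟩,.a
  ⟨true,0,⟨0,[(17,0)]⟩,⟨0,[(16,0)]⟩⟩ ⟨true,0,⟨0,[]⟩,⟨0,[(37,0)]⟩⟩ ⟨false,0,⟨0,[(16,0),(16,0)]⟩,⟨0,
  [(5,0),(11,0),(17,0)]⟩⟩]⟩))))))))

theorem ok18 : chk (cU (-1) true 3) t18 r11 = true := by decide +kernel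

noncomputable def t19 : Tre :=
  .Q [0,0,0,0,0,1,0,0,0,-1,1] (.ed false [0,1,1] .k) t17 t18

theorem ok19 : chk (cU (-1) true 3) t19 r10 = true :=
  chk_Q (e' := [0,0,0,0,0,-1,0,0,0,1,-1]) (by decide +kernel) (by decide +kernel) ok17 ok18

noncomputable def t20 : Tre :=
  .Q [0,0,0,0,0,0,-1,-1,0,0,1] (.p true [0,0,1] [] (⟨0,[(17,0)]⟩,⟨0,[(16,0)]⟩) .k 0 (⟨0,[]⟩,⟨0,[]⟩)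
  .k .k) t16 t19

theorem ok20 : chk (cU (-1) true 3) t20 r3 = true :=
  chk_Q (e' := [0,0,0,0,0,0,1,1,0,0,-1]) (by decide +kernel) (by decide +kernel) ok16 ok19

noncomputable def t21 : Tre :=
  .I [0,1,0,0,0,0,0,1] t15 t20

theorem ok21 : chk (cU (-1) true 3) t21 r2 = true :=
  chk_I (e' := [1,-1,0,0,0,0,0,-1]) (by decide +kernel) (by decide +kernel) ok15 ok20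

noncomputable def t22 : Tre :=
  .Q [0,0,-1,0,0,0,0,0,0,1] (.pp false [-1,1]) t2 t21

theorem ok22 : chk (cU (-1) true 3) t22 r1 = true :=
  chk_Q (e' := [0,0,1,0,0,0,0,0,0,-1]) (by decide +kernel) (by decide +kernel) ok2 ok21

noncomputable def t23 : Tre :=
  .I [0,0,0,1,0,0,0,1] t1 t22

theorem ok23 : chk (cU (-1) true 3) t23 r0 = true :=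
  chk_I (e' := [1,0,0,-1,0,0,0,-1]) (by decide +kernel) (by decide +kernel) ok1 ok22

noncomputable def t24 : Tre :=
  .Q [0,1,0,-1,0,0,-1,-1,0,-1,1] (.p true [0,0,1] [1] (⟨0,[(13,0)]⟩,⟨0,[(12,0)]⟩) .k 1 (⟨0,[]⟩,⟨0,
  []⟩) .k .k) t0 t23

theorem ok24 : chk (cU (-1) true 3) t24 base = true :=
  chk_Q (e' := [0,-1,0,1,0,0,1,1,0,1,-1]) (by decide +kernel) (by decide +kernel) ok0 ok23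

theorem ok : chkB (cU (-1) true 3) (fax (fcU (-1)) true 35 (-1) 3 false (tU true)) t24 base = true :=
  chkB_of (by decide +kernel) ok24

end Helper11.CT.T1_35_m1_m1_u
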