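import Pool.Agent.Helper11.CT.T.T1_3_m1_1_v_q

set_option autoImplicit false
set_option linter.all false

namespace Helper11.CT.T1_3_m1_1_v

open Helper11.CT

noncomputable def t4 : Tre :=
  (.R ⟨0,false,false,false,[-1,1,1],[0,1],[0,1],(⟨0,[(4,0)]⟩,⟨0,[(21,0),(2,0)]⟩),(⟨0,[(25,0)]⟩,⟨0,
  [(24,0)]⟩),⟨0,[(21,0)]⟩,.k,.k,.k,.k,.k,.k,⟨false,1,⟨0,[(27,0),(1,0)]⟩,⟨0,[(26,0),(1,0)]⟩⟩,⟨true,0,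
  ⟨0,[(7,0)]⟩,⟨3,[(0,1),(17,2),(0,0)]⟩⟩,⟨false,1,⟨0,[(2,0)]⟩,⟨0,[(20,0),(5,0),(1,0)]⟩⟩,⟨true,0,⟨0,
  [(1,0)]⟩,⟨1,[(0,0),(15,0),(3,0),(11,0)]⟩⟩,⟨false,0,⟨0,[]⟩,⟨0,[]⟩⟩,⟨false,0,⟨0,[]⟩,⟨0,[]⟩⟩,[.o
  ⟨false,0,⟨0,[(28,0)]⟩,⟨1,[(23,0),(3,1),(2,0)]⟩⟩,.o ⟨false,1,⟨3,[(10,0),(0,0),(16,3),(1,1)]⟩,⟨0,
  [(3,0)]⟩⟩,.o ⟨false,1,⟨1,[(0,1),(22,0),(5,0)]⟩,⟨0,[(7,1),(10,0)]⟩⟩,.a ⟨true,0,⟨0,[(0,0)]⟩,⟨0,[(7,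
  0)]⟩⟩ ⟨false,1,⟨3,[(10,0),(0,0),(17,1)]⟩,⟨0,[(26,0)]⟩⟩ ⟨true,0,⟨0,[(7,0),(20,0)]⟩,⟨0,[(0,0),(2,
  0)]⟩⟩]⟩)

theorem ok4 : chk (cU (-1) false 2) t4 l8 = true := by decide +kernel

noncomputable def t20 : Tre :=
  (.Q [0,0,-1,0,1,0,2,0,0,1,-2] (.p false [0,0,1] [1,0,-1] (⟨0,[(33,0)]⟩,⟨0,[(32,0)]⟩) .k 2 (⟨0,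
  [(32,0)]⟩,⟨0,[(33,0)]⟩) .k (.r 0 ⟨0,[(31,1)]⟩ ⟨1,[(4,0),(11,0),(2,0),(8,0),(0,0)]⟩)) (.K ⟨2,[1,-1,
  -1],(-1),0,(⟨0,[(16,0)]⟩,⟨0,[(34,0),(2,0)]⟩),.k,(.r (-2) ⟨5,[(15,1),(1,7),(4,0),(0,0)]⟩ ⟨0,[(4,0),
  (1,0),(33,2)]⟩),.k,(.x 0 ⟨2,[(4,0),(11,2),(4,1),(5,0),(5,2),(1,0)]⟩ ⟨0,[(1,0),(35,1),(3,0)]⟩),.k,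
  [⟨0,[(0,0)]⟩,⟨0,[(4,0)]⟩,⟨0,[(28,0),(4,0),(0,0),(5,0)]⟩,⟨0,[(12,0)]⟩]⟩) (.I [0,0,1,1,0,0,0,-1,-1]
  (.Q [0,0,0,0,0,2,0,0,0,-1,1] (.p true [0,0,1] [1] (⟨0,[(35,0)]⟩,⟨0,[(34,0)]⟩) .k 1 (⟨0,[]⟩,⟨0,
  []⟩) .k .k) (.Q [0,0,0,1,0,0,2,2,0,1,-2] (.p false [0,0,1] [1,0,-1] (⟨0,[(36,0)]⟩,⟨0,[(35,0)]⟩)
  .k 2 (⟨0,[(35,0)]⟩,⟨0,[(36,0)]⟩) .k (.r 0 ⟨0,[(34,1)]⟩ ⟨1,[(7,0),(11,0),(2,0),(8,0),(0,0)]⟩)) (.R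
  ⟨0,false,false,false,[1,-1,-1],[0,0,1],[0,0,1,0,0,0,0,1],(⟨0,[(19,0)]⟩,⟨0,[(37,0),(2,0)]⟩),(⟨0,
  [(37,0)]⟩,⟨0,[(36,0)]⟩),⟨0,[(1,0)]⟩,.k,.k,(.r (-2) ⟨5,[(18,1),(1,7),(4,0),(0,0)]⟩ ⟨1,[(0,1),(2,0),
  (3,0),(0,0),(23,0),(10,0)]⟩),(.r (-2) ⟨7,[(2,3),(17,11),(4,0),(0,2)]⟩ ⟨0,[(0,0),(2,0)]⟩),.k,.k,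
  ⟨true,0,⟨1,[(33,0),(0,0)]⟩,⟨0,[]⟩⟩,⟨false,2,⟨0,[(0,0),(19,0),(2,0)]⟩,⟨0,[(3,0)]⟩⟩,⟨false,(-1),⟨0,
  [(0,0),(2,0),(37,0)]⟩,⟨0,[(20,0),(2,0)]⟩⟩,⟨true,0,⟨0,[(0,0)]⟩,⟨0,[(15,0),(1,0)]⟩⟩,⟨false,0,⟨0,[]⟩,
  ⟨0,[]⟩⟩,⟨false,0,⟨0,[]⟩,⟨0,[]⟩⟩,[.a ⟨true,0,⟨2,[(0,0),(8,0),(26,0),(0,0)]⟩,⟨0,[(17,0)]⟩⟩ ⟨false,0,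
  ⟨0,[(35,0)]⟩,⟨0,[(23,0)]⟩⟩ ⟨true,1,⟨0,[(0,0),(19,0)]⟩,⟨0,[(7,0),(9,0)]⟩⟩,.o ⟨false,1,⟨9,[(0,3),
  (12,1),(11,0),(0,0),(11,1),(6,5)]⟩,⟨0,[(29,0)]⟩⟩,.o ⟨false,0,⟨0,[(30,0)]⟩,⟨0,[(33,0),(10,0)]⟩⟩,.o
  ⟨false,(-1),⟨0,[(7,0)]⟩,⟨15,[(0,7),(17,3),(4,19),(1,0),(0,0),(11,3),(5,1)]⟩⟩]⟩) (.R ⟨0,false,
  false,true,[1,-1,-1],[0,0,1],[1,1,1],(⟨0,[(19,0)]⟩,⟨0,[(37,0),(2,0)]⟩),(⟨0,[(37,0)]⟩,⟨0,[(36,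
  0)]⟩),⟨0,[(1,0)]⟩,.k,.k,(.r (-2) ⟨5,[(18,1),(1,7),(4,0),(0,0)]⟩ ⟨0,[(7,0),(1,0),(33,2)]⟩),(.x 0
  ⟨2,[(3,0),(15,2),(4,0),(5,1),(5,2),(1,0)]⟩ ⟨0,[(4,0),(35,1),(3,0)]⟩),.k,.k,⟨true,0,⟨4,[(0,0),(7,
  1),(0,0),(22,1),(0,2)]⟩,⟨0,[(35,0)]⟩⟩,⟨false,2,⟨0,[(9,0),(13,0),(9,0),(9,0),(0,0)]⟩,⟨0,[(3,0)]⟩⟩,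
  ⟨false,(-1),⟨0,[(7,0),(1,0),(33,1)]⟩,⟨2,[(12,0),(7,1),(2,1),(21,0)]⟩⟩,⟨true,0,⟨0,[(9,0),(21,0),
  (11,1)]⟩,⟨0,[(0,0)]⟩⟩,⟨false,0,⟨0,[]⟩,⟨0,[]⟩⟩,⟨false,0,⟨0,[]⟩,⟨0,[]⟩⟩,[.o ⟨false,0,⟨0,[(31,0)]⟩,
  ⟨15,[(0,3),(1,1),(5,1),(14,3),(0,3),(1,0),(11,3),(6,6)]⟩⟩,.a ⟨true,0,⟨0,[(9,0),(33,0)]⟩,⟨0,[(17,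
  0)]⟩⟩ ⟨false,0,⟨0,[]⟩,⟨3,[(25,0),(0,0),(17,1)]⟩⟩ ⟨true,1,⟨0,[(9,0),(23,0),(9,0),(0,0)]⟩,⟨0,[(7,0),
  (9,0)]⟩⟩,.o ⟨false,0,⟨0,[(30,0)]⟩,⟨0,[(33,0),(10,0)]⟩⟩,.o ⟨false,(-1),⟨0,[(7,0)]⟩,⟨1,[(23,1),(7,
  1),(12,0),(0,0)]⟩⟩]⟩)) (.I [1,0,0,0,0,0,0,0,-1] (.I [1,-1,0,-1,0,0,0,0,-1] (.I [0,0,1,1,0,0,0,0,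
  1] (.R ⟨1,false,false,true,[1,0,0,-1],[1,-1],[1,0,0,-1,0,0,0,0,-1],(⟨1,[(29,0),(8,0),(0,0)]⟩,⟨0,
  [(30,0)]⟩),(⟨0,[(41,0)]⟩,⟨0,[(42,0)]⟩),⟨3,[(3,0),(14,0),(10,1),(11,0)]⟩,.k,.k,(.r (-1) ⟨2,[(2,0),
  (17,0),(1,0),(4,0)]⟩ ⟨0,[(0,0)]⟩),(.x (-1) ⟨3,[(27,0),(0,0),(13,3),(3,1)]⟩ ⟨4,[(3,1),(2,0),(2,1),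
  (17,0),(0,0)]⟩),.k,.k,⟨false,0,⟨0,[(1,0),(43,0)]⟩,⟨1,[(28,0),(17,0),(2,1)]⟩⟩,⟨true,0,⟨23,[(9,7),
  (17,2),(0,2),(0,11),(5,7),(4,1)]⟩,⟨0,[(30,0)]⟩⟩,⟨false,1,⟨7,[(7,1),(7,1),(11,0),(0,0),(7,1),(10,
  3)]⟩,⟨0,[(45,0)]⟩⟩,⟨false,1,⟨15,[(7,3),(7,3),(11,0),(0,8),(0,7),(2,3),(7,1)]⟩,⟨0,[(1,0),(28,0),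
  (14,1)]⟩⟩,⟨true,0,⟨0,[]⟩,⟨0,[(49,0)]⟩⟩,⟨false,1,⟨7,[(27,0),(0,4),(0,3),(10,1)]⟩,⟨0,[(1,0),(28,0),
  (14,0)]⟩⟩,[.e ⟨true,0,⟨1,[(1,0),(0,0),(41,0)]⟩,⟨0,[(0,0)]⟩⟩ ⟨true,0,⟨3,[(15,0),(1,1),(11,1),(3,
  0)]⟩,⟨0,[(10,0),(19,0),(6,0)]⟩⟩,.o ⟨false,1,⟨15,[(7,3),(7,3),(11,2),(0,2),(3,3),(7,5)]⟩,⟨0,[(45,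
  0)]⟩⟩,.a ⟨true,0,⟨0,[(30,0)]⟩,⟨1,[(29,0),(8,0),(0,0)]⟩⟩ ⟨false,0,⟨0,[(1,0)]⟩,⟨3,[(27,0),(0,2),(16,
  3)]⟩⟩ ⟨true,0,⟨3,[(15,0),(1,1),(11,1),(3,0)]⟩,⟨0,[(30,0),(14,0)]⟩⟩,.o ⟨false,0,⟨2,[(9,0),(20,2),
  (4,0),(4,0)]⟩,⟨7,[(27,0),(0,0),(0,3),(10,1),(5,3)]⟩⟩]⟩) (.R ⟨1,false,false,true,[1,0,0,-1],[1,1,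
  -1],[1,1,0,-1,0,0,0,0,-1],(⟨1,[(29,0),(8,0),(0,0)]⟩,⟨0,[(30,0)]⟩),(⟨0,[(38,0),(3,0)]⟩,⟨0,[(18,
  0)]⟩),⟨3,[(3,0),(14,0),(10,1),(11,0)]⟩,.k,.k,(.x 0 ⟨4,[(3,1),(2,0),(2,1),(17,0),(0,0)]⟩ ⟨3,[(27,
  0),(0,0),(13,3),(3,1)]⟩),(.r 0 ⟨1,[(0,5),(2,1),(1,1),(0,0),(3,1),(4,1),(0,0),(11,1),(13,4),(2,
  6)]⟩ ⟨0,[(4,0),(23,0)]⟩),(.r (-1) ⟨6,[(0,2),(15,0),(3,4),(6,1)]⟩ ⟨1,[(6,0),(2,0),(0,0),(17,0),(2,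
  0),(6,1),(3,0),(2,2)]⟩),.k,⟨true,0,⟨34,[(0,23),(0,6),(3,6),(5,6),(3,6),(0,7),(3,4),(6,1)]⟩,⟨1,[(6,
  0),(2,0),(0,0),(17,0),(2,0),(6,1),(3,0),(2,2)]⟩⟩,⟨false,1,⟨1,[(26,0),(2,0),(16,1)]⟩,⟨0,[(30,0),(4,
  0)]⟩⟩,⟨true,0,⟨0,[(44,0)]⟩,⟨0,[(45,0)]⟩⟩,⟨false,1,⟨3,[(13,3),(13,0),(0,2)]⟩,⟨0,[(0,0),(9,0),(5,0),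
  (13,0),(4,0)]⟩⟩,⟨false,0,⟨0,[]⟩,⟨3,[(27,0),(0,0),(18,1)]⟩⟩,⟨false,1,⟨3,[(13,3),(13,0),(0,2),(16,
  3)]⟩,⟨0,[(0,0),(9,1),(4,0),(0,0),(13,0)]⟩⟩,[.o ⟨false,0,⟨0,[(31,0),(13,0)]⟩,⟨1,[(15,0),(17,0),(13,
  1)]⟩⟩,.a ⟨true,0,⟨0,[(19,0),(25,0)]⟩,⟨0,[(11,0)]⟩⟩ ⟨false,0,⟨0,[(0,0)]⟩,⟨3,[(27,0),(0,2),(16,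
  3)]⟩⟩ ⟨true,0,⟨0,[(13,0)]⟩,⟨4,[(9,0),(1,0),(3,1),(14,4),(4,2),(1,1),(9,0)]⟩⟩,.e ⟨false,0,⟨8,[(0,
  2),(0,2),(2,0),(4,0),(1,0),(15,0),(16,2)]⟩,⟨1,[(28,0),(16,1),(1,0)]⟩⟩ ⟨false,0,⟨0,[(13,0)]⟩,⟨1,
  [(15,0),(14,1),(2,0),(13,1)]⟩⟩,.o ⟨false,0,⟨2,[(9,0),(20,2),(4,0),(4,0)]⟩,⟨7,[(27,0),(0,0),(0,3),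
  (10,1),(5,3)]⟩⟩]⟩)) (.I [0,0,0,0,0,0,0,0,-1] (.Q [0,-1,0,2,0,0,0,0,-1,0,0,1] (.p true [0,0,0,1]
  [] (⟨0,[(30,0)]⟩,⟨1,[(29,0),(8,0),(0,0)]⟩) .k 0 (⟨0,[]⟩,⟨0,[]⟩) .k .k) (.I [1,0,0,-1,0,0,0,0,-1]
  (.R ⟨1,false,false,false,[1,0,0,-1],[1,-1],[1,0,0,-1,0,0,0,0,-1],(⟨1,[(31,0),(8,0),(0,0)]⟩,⟨0,
  [(32,0)]⟩),(⟨0,[(43,0)]⟩,⟨0,[(44,0)]⟩),⟨3,[(5,0),(14,0),(10,1),(11,0)]⟩,.k,.k,(.r (-1) ⟨7,[(0,1),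
  (21,1),(1,1),(4,2),(18,0)]⟩ ⟨0,[(3,0),(41,0)]⟩),(.r 0 ⟨11,[(1,3),(4,3),(4,1),(17,1),(1,1),(3,3),
  (1,0),(0,2)]⟩ ⟨2,[(3,0),(5,0),(12,0),(7,0)]⟩),.k,.k,⟨false,0,⟨0,[(4,0)]⟩,⟨1,[(30,0),(17,0)]⟩⟩,
  ⟨true,0,⟨23,[(11,7),(17,2),(0,2),(0,11),(5,7),(4,1)]⟩,⟨0,[(32,0)]⟩⟩,⟨false,1,⟨7,[(9,1),(7,1),(11,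
  0),(0,0),(7,1),(10,3)]⟩,⟨0,[(47,0)]⟩⟩,⟨false,1,⟨17,[(9,5),(1,6),(0,2),(3,8),(13,8),(0,8),(5,6),(4,
  0)]⟩,⟨0,[(1,0),(44,0)]⟩⟩,⟨true,0,⟨0,[]⟩,⟨0,[(51,0)]⟩⟩,⟨false,1,⟨5,[(11,0),(0,2),(3,2),(13,2),(0,
  2),(5,0),(4,0)]⟩,⟨1,[(0,0),(0,0),(30,0),(13,0)]⟩⟩,[.o ⟨false,1,⟨15,[(9,3),(7,3),(11,2),(0,2),(3,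
  3),(7,5)]⟩,⟨0,[(47,0)]⟩⟩,.o ⟨false,1,⟨11,[(9,1),(1,1),(2,1),(2,1),(24,4),(6,4)]⟩,⟨3,[(1,0),(1,0),
  (11,0),(19,0),(15,2)]⟩⟩,.a ⟨true,0,⟨0,[(32,0)]⟩,⟨1,[(31,0),(8,0),(0,0)]⟩⟩ ⟨true,0,⟨0,[(0,0)]⟩,⟨0,
  [(3,0)]⟩⟩ ⟨false,1,⟨23,[(9,3),(1,3),(2,3),(2,3),(11,2),(0,2),(0,11),(10,3),(6,9)]⟩,⟨2,[(1,0),(1,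
  0),(28,1)]⟩⟩,.o ⟨false,0,⟨2,[(11,0),(20,2),(4,0),(4,0)]⟩,⟨7,[(29,0),(0,0),(0,3),(10,1),(5,
  3)]⟩⟩]⟩) (.R ⟨1,false,false,false,[1,0,0,-1],[1,-1],[0,1],(⟨1,[(31,0),(8,0),(0,0)]⟩,⟨0,[(32,0)]⟩),
  (⟨0,[(43,0)]⟩,⟨0,[(44,0)]⟩),⟨3,[(5,0),(14,0),(10,1),(11,0)]⟩,.k,.k,(.r (-1) ⟨2,[(4,0),(17,0),(1,
  0),(4,0)]⟩ ⟨1,[(0,1),(36,0),(0,0)]⟩),(.r 0 ⟨11,[(1,3),(4,3),(4,1),(17,1),(1,1),(3,3),(1,0),(0,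
  2)]⟩ ⟨2,[(3,0),(5,0),(12,0),(7,0)]⟩),.k,.k,⟨false,0,⟨3,[(1,0),(1,0),(11,0),(19,0),(15,2)]⟩,⟨3,
  [(14,0),(1,0),(7,0),(24,0)]⟩⟩,⟨true,0,⟨23,[(11,7),(17,2),(0,2),(0,11),(5,7),(4,1)]⟩,⟨0,[(32,0)]⟩⟩,
  ⟨true,0,⟨2,[(0,0),(2,1),(6,0),(2,0)]⟩,⟨0,[(4,0)]⟩⟩,⟨false,1,⟨15,[(0,1),(8,5),(1,5),(4,5),(13,6),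
  (0,7),(5,5),(4,0),(6,1)]⟩,⟨0,[(1,0),(44,0)]⟩⟩,⟨false,0,⟨0,[(0,0)]⟩,⟨1,[(14,0),(14,0),(15,0)]⟩⟩,
  ⟨false,1,⟨15,[(0,5),(8,1),(1,1),(4,1),(13,4),(0,7),(5,1),(4,2),(6,5)]⟩,⟨0,[(4,0),(27,0)]⟩⟩,[.o
  ⟨false,1,⟨15,[(9,3),(7,3),(11,2),(0,2),(3,3),(7,5)]⟩,⟨0,[(47,0)]⟩⟩,.o ⟨false,1,⟨11,[(9,1),(1,1),
  (2,1),(2,1),(24,4),(6,4)]⟩,⟨3,[(1,0),(1,0),(11,0),(19,0),(15,2)]⟩⟩,.a ⟨true,0,⟨0,[(32,0)]⟩,⟨1,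
  [(31,0),(8,0),(0,0)]⟩⟩ ⟨true,0,⟨0,[(51,0)]⟩,⟨0,[]⟩⟩ ⟨false,1,⟨23,[(9,3),(1,3),(2,3),(2,3),(11,2),
  (0,2),(0,11),(10,3),(6,9)]⟩,⟨2,[(1,0),(1,0),(28,1)]⟩⟩,.o ⟨false,0,⟨2,[(11,0),(20,2),(4,0),(4,0)]⟩,
  ⟨7,[(29,0),(0,0),(0,3),(10,1),(5,3)]⟩⟩]⟩)) (.R ⟨1,false,false,false,[1,0,0,-1],[1,-1],[0,0,0,0,0,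
  0,0,0,-1],(⟨1,[(30,0),(8,0),(0,0)]⟩,⟨0,[(31,0)]⟩),(⟨0,[(42,0)]⟩,⟨0,[(43,0)]⟩),⟨3,[(4,0),(14,0),
  (10,1),(11,0)]⟩,.k,.k,(.r (-1) ⟨2,[(3,0),(17,0),(1,0),(4,0)]⟩ ⟨0,[(2,0),(41,0)]⟩),(.r 0 ⟨0,[(5,0),
  (32,0)]⟩ ⟨11,[(0,1),(7,1),(12,1),(7,4),(1,1),(15,2)]⟩),.k,.k,⟨false,0,⟨0,[(3,0),(42,0)]⟩,⟨11,[(0,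
  1),(7,1),(12,1),(7,4),(1,1),(15,2)]⟩⟩,⟨true,0,⟨23,[(10,7),(17,2),(0,2),(0,11),(5,7),(4,1)]⟩,⟨0,
  [(31,0)]⟩⟩,⟨false,1,⟨3,[(28,0),(0,0),(18,1)]⟩,⟨0,[]⟩⟩,⟨false,1,⟨11,[(0,5),(9,0),(0,2),(3,2),(13,
  2),(0,2),(5,0),(4,0),(6,5)]⟩,⟨0,[(3,0),(27,0),(14,0)]⟩⟩,⟨true,0,⟨0,[(46,0)]⟩,⟨0,[(45,0)]⟩⟩,⟨false,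
  1,⟨5,[(10,0),(0,2),(3,2),(13,2),(0,2),(5,0),(4,0)]⟩,⟨0,[(3,0),(27,0)]⟩⟩,[.o ⟨false,1,⟨15,[(8,3),
  (7,3),(11,2),(0,2),(3,3),(7,5)]⟩,⟨0,[(46,0)]⟩⟩,.o ⟨false,1,⟨11,[(8,1),(1,1),(2,1),(2,1),(24,4),(6,
  4)]⟩,⟨0,[(46,0),(3,0)]⟩⟩,.a ⟨true,0,⟨0,[(31,0)]⟩,⟨1,[(30,0),(8,0),(0,0)]⟩⟩ ⟨true,0,⟨0,[(1,0)]⟩,⟨2,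
  [(0,0),(1,1),(28,0)]⟩⟩ ⟨false,1,⟨35,[(0,11),(9,1),(2,5),(14,5),(1,11),(5,1),(4,4),(6,20)]⟩,⟨0,
  [(31,0),(14,0)]⟩⟩,.o ⟨false,0,⟨2,[(10,0),(20,2),(4,0),(4,0)]⟩,⟨7,[(28,0),(0,0),(0,3),(10,1),(5,
  3)]⟩⟩]⟩)) (.N [0,0,0,1] 0 ⟨0,[(0,0)]⟩ ⟨0,[(2,0)]⟩ .k))) (.I [0,1,2,2,-1,0,0,-1,1] (.R ⟨1,false,
  false,true,[1,0,0,-1],[1,1,-1],[1,0,0,-1,0,0,0,0,-1],(⟨1,[(28,0),(8,0),(0,0)]⟩,⟨0,[(29,0)]⟩),(⟨0,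
  [(37,0),(3,0)]⟩,⟨0,[(17,0)]⟩),⟨3,[(2,0),(14,0),(10,1),(11,0)]⟩,.k,.k,(.r (-1) ⟨4,[(3,0),(2,0),(0,
  0),(2,0),(4,0),(10,1),(18,1)]⟩ ⟨3,[(0,1),(26,0),(8,1),(9,0)]⟩),(.r (-1) ⟨11,[(15,3),(3,3),(6,6),
  (0,0)]⟩ ⟨8,[(0,3),(0,0),(4,0),(2,2),(14,0),(2,1)]⟩),(.x 0 ⟨9,[(2,5),(2,7),(2,5),(17,2),(0,2)]⟩ ⟨0,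
  [(23,0),(13,0),(3,1),(3,0)]⟩),.k,⟨true,1,⟨2,[(3,0),(2,1),(8,2),(10,0),(15,0)]⟩,⟨0,[(0,0)]⟩⟩,
  ⟨false,1,⟨1,[(25,0),(2,0),(16,1)]⟩,⟨0,[(29,0),(4,0)]⟩⟩,⟨false,1,⟨7,[(6,1),(7,1),(11,0),(0,0),(7,
  1),(10,3)]⟩,⟨0,[(44,0)]⟩⟩,⟨false,0,⟨0,[(1,0),(10,0)]⟩,⟨5,[(3,1),(2,0),(6,2),(1,2),(10,1),(2,5),(4,
  5),(7,1)]⟩⟩,⟨true,0,⟨0,[]⟩,⟨0,[(48,0)]⟩⟩,⟨false,0,⟨0,[(1,0),(10,0),(31,0)]⟩,⟨2,[(3,0),(2,1),(8,2),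
  (10,0),(2,2),(4,2),(7,0)]⟩⟩,[.o ⟨false,0,⟨0,[(30,0),(13,0)]⟩,⟨1,[(14,0),(17,0),(13,1)]⟩⟩,.a ⟨true,
  0,⟨0,[(18,0),(25,0)]⟩,⟨0,[(10,0)]⟩⟩ ⟨false,1,⟨1,[(3,1),(2,0),(6,0),(1,0)]⟩,⟨5,[(0,3),(14,1),(11,
  0),(17,2),(2,1)]⟩⟩ ⟨true,0,⟨0,[(12,0)]⟩,⟨4,[(8,0),(1,0),(3,1),(14,4),(4,2),(1,1),(9,0)]⟩⟩,.e
  ⟨false,1,⟨1,[(11,0),(14,0),(15,0)]⟩,⟨0,[(1,0),(42,0)]⟩⟩ ⟨false,0,⟨0,[(12,0)]⟩,⟨1,[(14,0),(14,1),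
  (2,0),(13,1)]⟩⟩,.o ⟨false,0,⟨2,[(8,0),(20,2),(4,0),(4,0)]⟩,⟨7,[(26,0),(0,0),(0,3),(10,1),(5,
  3)]⟩⟩]⟩) (.Q [0,0,0,0,0,0,0,0,-1,0,0,1] (.p true [0,0,0,1] [] (⟨0,[(29,0)]⟩,⟨1,[(28,0),(8,0),(0,
  0)]⟩) .k 0 (⟨0,[]⟩,⟨0,[]⟩) .k .k) (.R ⟨2,false,false,false,[0,1],[1,0,0,-1],[1,1,1],(⟨0,[]⟩,⟨0,
  []⟩),(⟨1,[(29,0),(8,0),(0,0)]⟩,⟨0,[(30,0)]⟩),⟨0,[]⟩,.k,.k,.k,(.r 0 ⟨4,[(2,0),(3,0),(2,1),(18,1),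
  (9,1),(3,0),(2,4)]⟩ ⟨7,[(1,1),(20,1),(4,2),(16,1),(1,0)]⟩),.k,.k,⟨false,0,⟨0,[(2,0),(46,0)]⟩,⟨0,
  [(4,0),(9,0)]⟩⟩,⟨true,0,⟨2,[(9,0),(20,2),(4,0),(4,0)]⟩,⟨1,[(29,0),(8,0),(0,0)]⟩⟩,⟨true,0,⟨0,[(44,
  0)]⟩,⟨0,[(45,0)]⟩⟩,⟨false,1,⟨11,[(0,11),(6,1),(1,1),(2,1),(2,1),(24,4),(6,4)]⟩,⟨1,[(2,1),(26,0),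
  (8,0),(0,0),(5,1)]⟩⟩,⟨false,0,⟨0,[]⟩,⟨3,[(27,0),(0,0),(18,1)]⟩⟩,⟨false,1,⟨1,[(0,1),(39,0),(6,0)]⟩,
  ⟨1,[(2,1),(26,0),(8,0),(0,0)]⟩⟩,[.a ⟨true,0,⟨0,[(0,0)]⟩,⟨1,[(2,1),(26,0),(8,0),(0,0)]⟩⟩ ⟨false,0,
  ⟨0,[(49,0)]⟩,⟨1,[(46,0),(0,0)]⟩⟩ ⟨true,0,⟨2,[(0,2),(8,0),(25,0),(4,0)]⟩,⟨1,[(2,1),(26,0),(8,0),(0,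
  0)]⟩⟩,.o ⟨false,1,⟨1,[(0,1),(39,0),(6,0)]⟩,⟨1,[(2,1),(26,0),(1,0),(1,0)]⟩⟩,.o ⟨false,1,⟨3,[(27,0),
  (0,0),(17,1)]⟩,⟨2,[(9,0),(25,0),(4,0)]⟩⟩,.e ⟨false,0,⟨0,[]⟩,⟨3,[(27,0),(0,0),(18,1)]⟩⟩ ⟨false,1,
  ⟨1,[(0,1),(39,0),(6,0)]⟩,⟨1,[(2,1),(26,0),(8,0),(0,0)]⟩⟩]⟩) (.I [0,1,0,0,0,0,0,0,-1] (.R ⟨1,false,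
  false,true,[1,0,0,-1],[0,0,0,1],[0,1,0,0,0,0,0,0,-1],(⟨1,[(30,0),(8,0),(0,0)]⟩,⟨0,[(31,0)]⟩),(⟨0,
  [(31,0)]⟩,⟨1,[(30,0),(8,0),(0,0)]⟩),⟨3,[(4,0),(14,0),(10,1),(11,0)]⟩,.k,.k,(.r (-1) ⟨5,[(0,0),(1,
  0),(18,0),(1,1),(4,1)]⟩ ⟨4,[(3,0),(3,0),(2,1),(18,1),(9,1),(3,0),(2,4)]⟩),.k,(.r (-1) ⟨11,[(0,7),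
  (1,5),(2,3),(2,1),(19,2),(18,0)]⟩ ⟨4,[(3,5),(3,0),(2,1),(18,1),(9,1),(3,0),(2,4)]⟩),.k,⟨false,1,
  ⟨3,[(0,1),(1,1),(2,1),(22,0),(17,1),(0,0)]⟩,⟨0,[(3,1)]⟩⟩,⟨true,0,⟨0,[(30,0)]⟩,⟨2,[(10,0),(20,5),
  (4,0),(4,0)]⟩⟩,⟨true,0,⟨0,[(50,0)]⟩,⟨0,[]⟩⟩,⟨false,0,⟨0,[(3,1),(26,0)]⟩,⟨2,[(2,2),(2,2),(4,0),(20,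
  5),(4,0),(4,0),(4,2)]⟩⟩,⟨false,0,⟨0,[(46,0)]⟩,⟨7,[(8,1),(7,1),(11,0),(0,0),(7,1),(10,3)]⟩⟩,⟨false,
  0,⟨0,[(3,1),(26,0),(15,0)]⟩,⟨2,[(2,2),(2,2),(4,0),(20,5),(4,0),(4,0)]⟩⟩,[.o ⟨false,0,⟨0,[(1,0),
  (48,0)]⟩,⟨5,[(2,1),(2,3),(5,1),(5,1),(13,5),(9,2),(6,0)]⟩⟩,.o ⟨false,0,⟨0,[(1,0)]⟩,⟨1,[(28,0),(2,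
  1),(9,0)]⟩⟩,.a ⟨true,0,⟨0,[(31,0)]⟩,⟨1,[(30,0),(8,0),(0,0)]⟩⟩ ⟨true,0,⟨0,[(0,0)]⟩,⟨0,[(3,0)]⟩⟩
  ⟨false,0,⟨0,[(3,0),(26,0)]⟩,⟨5,[(2,1),(2,3),(5,1),(5,1),(13,11),(9,2),(6,0)]⟩⟩,.o ⟨false,0,⟨2,
  [(10,0),(20,2),(4,0),(4,0)]⟩,⟨7,[(28,0),(0,0),(0,3),(10,1),(5,3)]⟩⟩]⟩) (.Q [0,-1,0,1,0,0,0,0,0,1,
  0,-1] (.p false [0,0,0,1] [1] (⟨0,[(31,0)]⟩,⟨1,[(30,0),(8,0),(0,0)]⟩) .k 1 (⟨0,[]⟩,⟨0,[]⟩) .k .k)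
  (.I [0,0,2,2,-1,0,0,0,1] (.R ⟨1,false,false,false,[1,0,0,-1],[0,1],[1,0,0,-1,0,0,0,0,-1],(⟨2,[(1,
  0),(12,0),(17,0),(4,0)]⟩,⟨0,[(33,0)]⟩),(⟨0,[(45,0)]⟩,⟨0,[(44,0)]⟩),⟨3,[(6,0),(14,0),(10,1),(11,
  0)]⟩,.k,.k,(.r (-1) ⟨7,[(4,1),(20,1),(4,2),(16,1),(1,0)]⟩ ⟨7,[(0,3),(29,0),(0,2)]⟩),(.r (-1) ⟨7,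
  [(4,1),(20,1),(4,2),(16,1),(1,0)]⟩ ⟨7,[(0,3),(29,0),(0,2)]⟩),(.r (-2) ⟨11,[(23,7),(1,7),(4,6),(0,
  0)]⟩ ⟨0,[(0,0)]⟩),.k,⟨true,1,⟨2,[(4,0),(5,0),(19,0),(16,1)]⟩,⟨0,[(0,0)]⟩⟩,⟨false,1,⟨2,[(1,0),(12,
  0),(17,0),(4,0),(11,2)]⟩,⟨2,[(12,0),(20,2),(4,0),(4,0)]⟩⟩,⟨false,1,⟨7,[(10,1),(7,1),(11,0),(0,0),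
  (7,1),(10,3)]⟩,⟨0,[(48,0)]⟩⟩,⟨false,0,⟨0,[(1,0),(3,0)]⟩,⟨71,[(4,1),(5,11),(0,3),(0,9),(2,3),(2,
  13),(11,34),(2,71),(9,28)]⟩⟩,⟨true,0,⟨0,[]⟩,⟨0,[(52,0)]⟩⟩,⟨false,0,⟨1,[(0,0),(0,1),(3,0),(43,0)]⟩,
  ⟨35,[(4,1),(5,11),(0,3),(0,9),(2,3),(2,13),(11,16),(2,35),(9,10)]⟩⟩,[.o ⟨false,0,⟨0,[(48,0)]⟩,⟨15,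
  [(10,3),(7,3),(11,2),(0,2),(3,3),(7,5)]⟩⟩,.a ⟨true,0,⟨0,[(1,0),(31,0)]⟩,⟨0,[(47,0)]⟩⟩ ⟨false,1,
  ⟨11,[(4,5),(2,3),(2,1),(19,0),(18,0),(0,1)]⟩,⟨1,[(0,0),(4,0),(43,0),(2,1)]⟩⟩ ⟨true,0,⟨0,[(1,0)]⟩,
  ⟨2,[(12,0),(20,2),(4,0),(4,0),(3,2)]⟩⟩,.e ⟨false,1,⟨1,[(15,0),(14,0),(15,0)]⟩,⟨1,[(0,0),(4,0),(43,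
  0)]⟩⟩ ⟨false,0,⟨0,[(1,0)]⟩,⟨15,[(10,3),(7,3),(11,2),(0,2),(1,15),(1,3),(7,5)]⟩⟩,.o ⟨false,0,⟨2,
  [(12,0),(20,2),(4,0),(4,0)]⟩,⟨7,[(30,0),(0,0),(0,3),(10,1),(5,3)]⟩⟩]⟩) (.Q [0,1,0,0,0,0,0,0,-1,0,
  0,1] (.p true [0,0,0,1] [] (⟨0,[(33,0)]⟩,⟨2,[(1,0),(12,0),(17,0),(4,0)]⟩) .k 0 (⟨0,[]⟩,⟨0,[]⟩) .k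
  .k) (.K ⟨1,[0,0,0,1],0,0,(⟨0,[(34,0)]⟩,⟨2,[(2,0),(12,0),(17,0),(4,0)]⟩),.k,(.r (-1) ⟨2,[(6,0),(17,
  0),(1,0),(5,0)]⟩ ⟨0,[(8,0),(32,0)]⟩),(.r 0 ⟨4,[(6,0),(3,0),(2,1),(18,1),(9,1),(3,0),(2,4)]⟩ ⟨4,
  [(1,0),(22,0),(1,0),(4,1)]⟩),.k,.k,[⟨1,[(34,1),(4,0),(0,0)]⟩,⟨23,[(13,7),(17,2),(0,2),(0,11),(5,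
  7),(4,1)]⟩,⟨0,[(0,0)]⟩,⟨2,[(2,0),(0,2),(11,0),(17,0),(4,0)]⟩]⟩) (.I [0,1,-1,0,0,0,0,1,1] (.R ⟨1,
  false,false,true,[1,0,0,-1],[0,-1,1],[1,0,0,-1,0,0,0,0,-1],(⟨2,[(3,0),(12,0),(17,0),(4,0)]⟩,⟨0,
  [(35,0)]⟩),(⟨0,[(23,0)]⟩,⟨0,[(43,0),(3,0)]⟩),⟨3,[(8,0),(14,0),(10,1),(11,0)]⟩,.k,.k,(.r (-1) ⟨4,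
  [(2,0),(22,0),(1,0),(4,1)]⟩ ⟨4,[(7,0),(3,0),(2,1),(18,1),(9,1),(3,0),(2,4)]⟩),(.r 0 ⟨0,[(9,0)]⟩
  ⟨11,[(21,3),(3,3),(6,0),(0,6)]⟩),.k,.k,⟨false,1,⟨11,[(2,1),(6,7),(2,1),(17,1),(1,0),(19,4)]⟩,⟨0,
  [(0,0)]⟩⟩,⟨true,0,⟨7,[(11,1),(22,3),(5,4),(0,0),(1,3),(3,1)]⟩,⟨0,[(29,0),(5,0)]⟩⟩,⟨false,1,⟨7,
  [(12,1),(7,1),(11,0),(0,0),(7,1),(10,3)]⟩,⟨0,[(50,0)]⟩⟩,⟨false,0,⟨0,[(5,0),(10,0)]⟩,⟨1,[(9,1),(19,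
  1),(5,1),(15,0),(0,0)]⟩⟩,⟨true,0,⟨0,[]⟩,⟨0,[(54,0)]⟩⟩,⟨false,0,⟨1,[(0,0),(2,0),(1,0),(10,0),(23,
  0)]⟩,⟨15,[(2,3),(6,11),(2,1),(16,11),(0,1),(0,1),(3,15),(9,0),(6,6)]⟩⟩,[.o ⟨false,0,⟨0,[(28,0)]⟩,
  ⟨3,[(15,1),(14,1),(0,1),(13,0),(4,1),(1,0)]⟩⟩,.a ⟨true,0,⟨0,[(16,0)]⟩,⟨0,[(24,0),(25,0)]⟩⟩ ⟨false,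
  1,⟨2,[(2,0),(3,0),(2,0),(42,0)]⟩,⟨0,[(7,0),(42,0),(3,0)]⟩⟩ ⟨true,0,⟨0,[(3,0),(16,0)]⟩,⟨5,[(9,1),
  (0,1),(4,1),(17,0),(1,5),(0,1),(8,0),(4,1)]⟩⟩,.e ⟨false,1,⟨1,[(17,0),(14,0),(15,0)]⟩,⟨0,[(7,0),
  (42,0)]⟩⟩ ⟨false,0,⟨0,[(3,0),(16,0)]⟩,⟨3,[(15,1),(14,1),(0,1),(3,3),(9,0),(4,1),(1,0)]⟩⟩,.o
  ⟨false,0,⟨2,[(14,0),(20,2),(4,0),(4,0)]⟩,⟨7,[(32,0),(0,0),(0,3),(10,1),(5,3)]⟩⟩]⟩) (.Q [0,0,0,0,0,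
  1,0,0,0,0,0,-1] (.p false [0,0,0,1] [] (⟨0,[(35,0)]⟩,⟨2,[(3,0),(12,0),(17,0),(4,0)]⟩) .k 0 (⟨0,
  []⟩,⟨0,[]⟩) .k .k) (.R ⟨0,false,false,true,[0,0,0,1],[1,-1],[0,1,0,0,0,0,0,0,1],(⟨0,[(36,0)]⟩,⟨2,
  [(4,0),(12,0),(17,0),(4,0)]⟩),(⟨0,[(47,0)]⟩,⟨0,[(48,0)]⟩),⟨0,[(0,0)]⟩,.k,.k,(.r (-1) ⟨2,[(8,0),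
  (17,0),(1,0),(5,0)]⟩ ⟨0,[(10,0),(32,0)]⟩),(.r 0 ⟨4,[(8,0),(3,0),(2,1),(18,1),(9,1),(3,0),(2,4)]⟩
  ⟨4,[(3,0),(22,0),(1,0),(4,1)]⟩),.k,.k,⟨false,0,⟨0,[(8,0),(42,0)]⟩,⟨4,[(3,0),(22,0),(1,0),(4,1)]⟩⟩,
  ⟨true,0,⟨2,[(15,0),(20,2),(4,0),(4,0)]⟩,⟨2,[(4,0),(12,0),(17,0),(4,0)]⟩⟩,⟨true,0,⟨0,[(55,0)]⟩,⟨0,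
  []⟩⟩,⟨false,1,⟨143,[(1,11),(5,1),(6,15),(0,9),(2,27),(2,25),(11,64),(2,143),(9,58)]⟩,⟨0,[(4,0),(3,
  0)]⟩⟩,⟨false,0,⟨0,[]⟩,⟨0,[]⟩⟩,⟨false,0,⟨0,[]⟩,⟨0,[]⟩⟩,[.a ⟨true,0,⟨0,[(50,0)]⟩,⟨0,[(4,0),(31,
  0)]⟩⟩ ⟨true,0,⟨0,[(8,0),(46,0)]⟩,⟨0,[(1,0),(41,0)]⟩⟩ ⟨false,1,⟨11,[(21,1),(1,1),(2,1),(1,1),(7,
  11),(9,4),(5,2),(2,7)]⟩,⟨0,[(4,0)]⟩⟩,.o ⟨false,1,⟨15,[(13,3),(7,3),(11,2),(0,2),(3,3),(7,5)]⟩,⟨0,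
  [(51,0)]⟩⟩,.e ⟨false,0,⟨0,[(8,0)]⟩,⟨1,[(33,0),(19,0)]⟩⟩ ⟨false,1,⟨15,[(13,3),(7,3),(11,2),(0,2),
  (1,15),(1,3),(7,5)]⟩,⟨0,[(4,0)]⟩⟩,.o ⟨false,0,⟨23,[(15,7),(17,2),(0,2),(0,11),(5,7),(4,1)]⟩,⟨1,
  [(36,1),(9,0),(5,0)]⟩⟩]⟩) (.R ⟨1,false,false,true,[0,0,0,1],[1,-1],[0,1,0,0,0,0,0,0,1],(⟨0,[(36,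
  0)]⟩,⟨2,[(4,0),(12,0),(17,0),(4,0)]⟩),(⟨0,[(47,0)]⟩,⟨0,[(48,0)]⟩),⟨0,[(0,0)]⟩,.k,.k,(.r (-1) ⟨2,
  [(8,0),(17,0),(1,0),(5,0)]⟩ ⟨0,[(10,0),(32,0)]⟩),(.r 0 ⟨4,[(8,0),(3,0),(2,1),(18,1),(9,1),(3,0),
  (2,4)]⟩ ⟨4,[(3,0),(22,0),(1,0),(4,1)]⟩),.k,.k,⟨false,0,⟨0,[(8,0),(42,0)]⟩,⟨4,[(3,0),(22,0),(1,0),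
  (4,1)]⟩⟩,⟨true,0,⟨2,[(15,0),(20,2),(4,0),(4,0)]⟩,⟨2,[(4,0),(12,0),(17,0),(4,0)]⟩⟩,⟨true,0,⟨0,[(55,
  0)]⟩,⟨0,[]⟩⟩,⟨false,1,⟨143,[(1,11),(5,1),(6,15),(0,9),(2,27),(2,25),(11,64),(2,143),(9,58)]⟩,⟨0,
  [(4,0),(3,0)]⟩⟩,⟨false,0,⟨0,[(51,0)]⟩,⟨7,[(13,1),(7,1),(11,0),(0,0),(7,1),(10,3)]⟩⟩,⟨false,1,⟨1,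
  [(33,0),(2,1),(9,0)]⟩,⟨2,[(4,0),(0,2),(11,0),(17,0),(4,0)]⟩⟩,[.a ⟨true,0,⟨0,[(50,0)]⟩,⟨0,[(4,0),
  (31,0)]⟩⟩ ⟨true,0,⟨0,[(8,0),(46,0)]⟩,⟨0,[(1,0),(41,0)]⟩⟩ ⟨false,1,⟨11,[(21,1),(1,1),(2,1),(1,1),
  (7,11),(9,4),(5,2),(2,7)]⟩,⟨0,[(4,0)]⟩⟩,.o ⟨false,1,⟨15,[(13,3),(7,3),(11,2),(0,2),(3,3),(7,5)]⟩,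
  ⟨0,[(51,0)]⟩⟩,.e ⟨false,0,⟨0,[(8,0)]⟩,⟨1,[(33,0),(19,0)]⟩⟩ ⟨false,1,⟨15,[(13,3),(7,3),(11,2),(0,
  2),(1,15),(1,3),(7,5)]⟩,⟨0,[(4,0)]⟩⟩,.o ⟨false,0,⟨23,[(15,7),(17,2),(0,2),(0,11),(5,7),(4,1)]⟩,⟨1,
  [(36,1),(9,0),(5,0)]⟩⟩]⟩))))) (.I [0,0,2,2,-1,0,0,0,1] (.R ⟨1,false,false,false,[1,0,0,-1],[0,1],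
  [1,0,0,-1,0,0,0,0,-1],(⟨1,[(32,0),(8,0),(0,0)]⟩,⟨0,[(33,0)]⟩),(⟨0,[(45,0)]⟩,⟨0,[(44,0)]⟩),⟨3,[(6,
  0),(14,0),(10,1),(11,0)]⟩,.k,.k,(.r (-1) ⟨7,[(4,1),(20,1),(4,2),(16,1),(1,0)]⟩ ⟨7,[(0,3),(29,0),
  (0,2)]⟩),(.r (-1) ⟨7,[(4,1),(20,1),(4,2),(16,1),(1,0)]⟩ ⟨7,[(0,3),(29,0),(0,2)]⟩),(.r (-2) ⟨11,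
  [(23,7),(1,7),(4,6),(0,0)]⟩ ⟨0,[(0,0)]⟩),.k,⟨true,1,⟨2,[(4,0),(5,0),(19,0),(16,1)]⟩,⟨0,[(0,0)]⟩⟩,
  ⟨false,1,⟨1,[(32,0),(8,0),(0,0),(6,1)]⟩,⟨2,[(12,0),(20,2),(4,0),(4,0)]⟩⟩,⟨false,1,⟨7,[(10,1),(7,
  1),(11,0),(0,0),(7,1),(10,3)]⟩,⟨0,[(48,0)]⟩⟩,⟨false,0,⟨1,[(2,1),(29,0),(8,0),(0,0),(5,1)]⟩,⟨1,[(1,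
  1),(28,0),(19,0)]⟩⟩,⟨true,0,⟨0,[]⟩,⟨0,[(52,0)]⟩⟩,⟨false,0,⟨1,[(2,1),(29,0),(8,0),(0,0),(5,3)]⟩,⟨1,
  [(1,1),(13,0),(14,0),(15,0)]⟩⟩,[.o ⟨false,0,⟨0,[(48,0)]⟩,⟨15,[(10,3),(7,3),(11,2),(0,2),(3,3),(7,
  5)]⟩⟩,.e ⟨false,1,⟨11,[(4,5),(2,3),(2,1),(19,0),(18,0),(0,1)]⟩,⟨1,[(0,0),(4,0),(43,0),(2,1)]⟩⟩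
  ⟨false,1,⟨1,[(32,0),(8,0),(0,0),(5,1),(0,0),(0,0)]⟩,⟨0,[(1,0)]⟩⟩,.a ⟨true,0,⟨0,[(33,0)]⟩,⟨1,[(32,
  0),(8,0),(0,0)]⟩⟩ ⟨false,1,⟨1,[(15,0),(14,0),(15,0)]⟩,⟨1,[(0,0),(4,0),(43,0)]⟩⟩ ⟨true,0,⟨1,[(32,
  0),(8,0),(0,0),(5,1)]⟩,⟨0,[(1,0)]⟩⟩,.o ⟨false,0,⟨2,[(12,0),(20,2),(4,0),(4,0)]⟩,⟨7,[(30,0),(0,0),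
  (0,3),(10,1),(5,3)]⟩⟩]⟩) (.K ⟨1,[0,0,0,1],0,0,(⟨0,[(33,0)]⟩,⟨1,[(32,0),(8,0),(0,0)]⟩),.k,(.r (-1)
  ⟨2,[(5,0),(17,0),(1,0),(5,0)]⟩ ⟨0,[(7,0),(32,0)]⟩),(.r 0 ⟨4,[(5,0),(3,0),(2,1),(18,1),(9,1),(3,0),
  (2,4)]⟩ ⟨4,[(0,0),(22,0),(1,0),(4,1)]⟩),.k,.k,[⟨1,[(33,1),(4,0),(0,0)]⟩,⟨23,[(12,7),(17,2),(0,2),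
  (0,11),(5,7),(4,1)]⟩,⟨0,[(0,0),(0,0),(6,0),(0,0),(31,1),(3,0),(2,2)]⟩,⟨1,[(2,1),(29,0),(8,0),(0,
  0)]⟩]⟩)))))))) (.I [1,0,2,1,-1,0,0,-1,1] (.R ⟨1,false,false,true,[1,0,0,-1],[1,1,-1],[0,1,0,0,0,0,
  0,0,-1],(⟨1,[(26,0),(8,0),(0,0)]⟩,⟨0,[(27,0)]⟩),(⟨0,[(35,0),(3,0)]⟩,⟨0,[(15,0)]⟩),⟨1,[(15,0),(2,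
  0),(7,0)]⟩,.k,.k,(.x 0 ⟨2,[(3,0),(14,1),(10,1)]⟩ ⟨3,[(24,0),(0,0),(13,3),(3,1)]⟩),(.r (-1) ⟨11,
  [(13,3),(3,3),(6,6),(0,0)]⟩ ⟨11,[(0,7),(21,3),(1,0),(0,2),(16,3)]⟩),(.r (-2) ⟨3,[(17,3),(6,2),(0,
  0)]⟩ ⟨0,[(0,0),(41,0)]⟩),.k,⟨true,1,⟨11,[(13,3),(3,3),(6,6),(0,0)]⟩,⟨0,[(0,0)]⟩⟩,⟨false,1,⟨1,[(23,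
  0),(2,0),(16,1)]⟩,⟨0,[(27,0),(4,0)]⟩⟩,⟨true,0,⟨0,[(46,0)]⟩,⟨0,[]⟩⟩,⟨false,0,⟨5,[(0,1),(0,1),(8,5),
  (14,0),(17,0)]⟩,⟨3,[(4,0),(2,1),(3,0),(1,2),(10,1),(2,3),(4,3)]⟩⟩,⟨false,0,⟨0,[(42,0)]⟩,⟨7,[(4,1),
  (7,1),(11,0),(0,0),(7,1),(10,3)]⟩⟩,⟨false,0,⟨5,[(0,1),(0,1),(8,5),(14,0),(16,5),(0,0)]⟩,⟨1,[(4,0),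
  (2,1),(4,0),(0,1),(10,0),(2,1),(4,0)]⟩⟩,[.o ⟨false,0,⟨0,[(28,0),(13,0)]⟩,⟨1,[(12,0),(17,0),(13,
  1)]⟩⟩,.a ⟨true,0,⟨0,[(16,0),(25,0)]⟩,⟨0,[(8,0)]⟩⟩ ⟨false,1,⟨1,[(24,0),(18,0)]⟩,⟨5,[(0,1),(0,1),
  (23,0),(17,0)]⟩⟩ ⟨true,0,⟨0,[(10,0)]⟩,⟨4,[(6,0),(1,0),(3,1),(14,4),(4,2),(1,1),(9,0)]⟩⟩,.e ⟨false,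
  1,⟨3,[(24,2),(0,0)]⟩,⟨0,[(1,0),(5,0)]⟩⟩ ⟨false,0,⟨0,[(10,0)]⟩,⟨1,[(12,0),(14,1),(2,0),(13,1)]⟩⟩,
  .o ⟨false,0,⟨2,[(6,0),(20,2),(4,0),(4,0)]⟩,⟨7,[(24,0),(0,0),(0,3),(10,1),(5,3)]⟩⟩]⟩) (.Q [0,1,0,
  -1,0,0,0,0,0,-1,0,1] (.p true [0,0,0,1] [1] (⟨0,[(27,0)]⟩,⟨1,[(26,0),(8,0),(0,0)]⟩) .k 1 (⟨0,[]⟩,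
  ⟨0,[]⟩) .k .k) (.I [1,0,2,1,-1,0,0,0,1] (.R ⟨1,false,false,false,[1,0,0,-1],[0,1],[0,0,0,0,0,0,0,
  0,-1],(⟨1,[(28,0),(8,0),(0,0)]⟩,⟨0,[(29,0)]⟩),(⟨0,[(41,0)]⟩,⟨0,[(40,0)]⟩),⟨1,[(17,0),(2,0),(7,
  0)]⟩,.k,.k,(.r (-1) ⟨5,[(2,1),(3,0),(14,0),(4,1),(16,0)]⟩ ⟨7,[(0,3),(25,0),(0,2),(16,3)]⟩),(.r
  (-1) ⟨5,[(2,1),(3,0),(14,0),(4,1),(16,0)]⟩ ⟨7,[(0,3),(25,0),(0,2),(16,3)]⟩),(.r (-2) ⟨11,[(19,7),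
  (1,7),(4,6),(0,0)]⟩ ⟨0,[(0,0),(43,0)]⟩),.k,⟨true,1,⟨5,[(2,1),(3,0),(14,0),(4,1),(16,0)]⟩,⟨0,[(0,
  0)]⟩⟩,⟨false,1,⟨1,[(28,0),(8,0),(0,0),(6,1)]⟩,⟨2,[(8,0),(20,2),(4,0),(4,0)]⟩⟩,⟨false,1,⟨3,[(26,0),
  (0,0),(18,1)]⟩,⟨0,[]⟩⟩,⟨false,0,⟨1,[(3,1),(5,1),(18,0),(8,0),(0,0),(5,1)]⟩,⟨1,[(1,1),(24,0),(19,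
  0)]⟩⟩,⟨true,0,⟨0,[(44,0)]⟩,⟨0,[(43,0)]⟩⟩,⟨false,0,⟨1,[(3,1),(5,1),(18,0),(8,0),(0,0),(5,3)]⟩,⟨1,
  [(1,1),(9,0),(14,0),(15,0)]⟩⟩,[.o ⟨false,0,⟨0,[(44,0)]⟩,⟨15,[(6,3),(7,3),(11,2),(0,2),(3,3),(7,
  5)]⟩⟩,.e ⟨false,1,⟨0,[(2,0),(6,0)]⟩,⟨1,[(0,0),(2,0),(20,0),(23,1)]⟩⟩ ⟨false,1,⟨1,[(28,0),(8,0),(0,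
  0),(5,1),(0,0),(0,0)]⟩,⟨0,[(1,0)]⟩⟩,.a ⟨true,0,⟨0,[(29,0)]⟩,⟨1,[(28,0),(8,0),(0,0)]⟩⟩ ⟨false,1,⟨1,
  [(26,0),(19,0)]⟩,⟨1,[(0,0),(2,0),(20,0)]⟩⟩ ⟨true,0,⟨1,[(28,0),(8,0),(0,0),(5,1)]⟩,⟨0,[(1,0)]⟩⟩,.o
  ⟨false,0,⟨2,[(8,0),(20,2),(4,0),(4,0)]⟩,⟨7,[(26,0),(0,0),(0,3),(10,1),(5,3)]⟩⟩]⟩) (.K ⟨1,[0,0,0,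
  1],0,0,(⟨0,[(29,0)]⟩,⟨1,[(28,0),(8,0),(0,0)]⟩),.k,(.r (-1) ⟨4,[(3,0),(15,0),(1,1),(5,1)]⟩ ⟨2,[(0,
  0),(4,0),(2,1),(17,0),(10,1),(3,0),(2,3)]⟩),(.r 0 ⟨4,[(3,0),(1,0),(2,1),(0,0),(17,1),(9,1),(3,0),
  (2,4),(3,0)]⟩ ⟨9,[(0,1),(5,0),(12,1),(1,0),(4,3),(16,0)]⟩),.k,.k,[⟨1,[(29,1),(4,0),(0,0)]⟩,⟨23,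
  [(8,7),(17,2),(0,2),(0,11),(5,7),(4,1)]⟩,⟨0,[(0,0),(0,0),(2,0),(0,0),(31,1),(3,0),(2,1)]⟩,⟨1,[(3,
  1),(5,1),(18,0),(8,0),(0,0)]⟩]⟩)) (.R ⟨1,false,false,true,[1,0,0,-1],[0,-1,1],[0,1,0,0,0,0,0,0,
  -1],(⟨2,[(0,0),(8,0),(17,0),(4,0)]⟩,⟨0,[(28,0)]⟩),(⟨0,[(16,0)]⟩,⟨0,[(36,0),(3,0)]⟩),⟨1,[(16,0),(2,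
  0),(7,0)]⟩,.k,.k,(.r (-1) ⟨5,[(1,1),(3,0),(14,0),(4,1),(16,0)]⟩ ⟨4,[(2,0),(1,0),(2,1),(0,0),(17,
  1),(9,1),(3,0),(2,4),(3,0)]⟩),(.x (-1) ⟨7,[(24,3),(0,0),(0,0),(9,7),(1,1),(1,7),(3,3)]⟩ ⟨2,[(4,1),
  (14,0),(10,0)]⟩),.k,.k,⟨false,1,⟨1,[(8,0),(14,0),(1,0),(17,0),(3,0)]⟩,⟨0,[(2,0)]⟩⟩,⟨true,0,⟨7,[(4,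
  1),(22,3),(5,4),(0,0),(1,3),(3,1)]⟩,⟨0,[(22,0),(5,0)]⟩⟩,⟨true,0,⟨0,[(47,0)]⟩,⟨0,[]⟩⟩,⟨false,0,⟨13,
  [(2,11),(1,2),(2,0),(1,1),(16,0),(0,6),(5,6),(2,5),(3,2)]⟩,⟨1,[(8,1),(13,1),(2,0),(2,1),(15,0)]⟩⟩,
  ⟨false,0,⟨0,[(43,0)]⟩,⟨7,[(5,1),(7,1),(11,0),(0,0),(7,1),(10,3)]⟩⟩,⟨false,0,⟨0,[(0,0),(1,0),(30,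
  0),(13,0)]⟩,⟨5,[(5,1),(2,3),(13,5),(2,2),(2,5),(15,0)]⟩⟩,[.o ⟨false,0,⟨0,[(21,0)]⟩,⟨3,[(8,1),(14,
  1),(0,1),(13,0),(4,1),(1,0)]⟩⟩,.a ⟨true,0,⟨0,[(9,0)]⟩,⟨0,[(17,0),(25,0)]⟩⟩ ⟨false,1,⟨1,[(25,0),
  (18,0)]⟩,⟨0,[(2,0),(5,0),(38,0)]⟩⟩ ⟨true,0,⟨0,[(0,0),(12,0)]⟩,⟨1,[(8,0),(19,1),(0,0),(0,0),(12,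
  0)]⟩⟩,.e ⟨false,1,⟨3,[(25,2),(0,0)]⟩,⟨0,[(2,0),(5,0)]⟩⟩ ⟨false,0,⟨0,[(0,0),(12,0)]⟩,⟨3,[(8,1),(14,
  1),(0,1),(3,3),(9,0),(4,1),(1,0)]⟩⟩,.o ⟨false,0,⟨2,[(7,0),(20,2),(4,0),(4,0)]⟩,⟨7,[(25,0),(0,0),
  (0,3),(10,1),(5,3)]⟩⟩]⟩)))))

theorem ok20 : chk (cU (-1) false 2) t20 r24 = true := by decide +kernel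

noncomputable def t25 : Tre :=
  (.K ⟨2,[1,1,-1],0,0,(⟨0,[(33,0),(3,0)]⟩,⟨0,[(13,0)]⟩),.k,.k,(.r 0 ⟨5,[(0,3),(4,2),(21,3),(1,2),(1,
  0),(8,8)]⟩ ⟨0,[(15,0)]⟩),(.x (-1) ⟨1,[(21,1),(11,3),(1,0),(1,1),(3,0)]⟩ ⟨0,[(1,0)]⟩),.k,[⟨0,[(0,
  0)]⟩,⟨0,[(19,0)]⟩,⟨0,[(6,0),(37,0)]⟩,⟨0,[(26,0),(13,0)]⟩]⟩)

theorem ok25 : chk (cU (-1) false 2) t25 l28 = true := by decide +kernel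

noncomputable def t39 : Tre :=
  (.R ⟨2,true,false,true,[0,1],[0,1,1],[1,0,1],(⟨0,[]⟩,⟨0,[]⟩),(⟨0,[(27,0),(2,0)]⟩,⟨0,[(9,0)]⟩),⟨0,
  []⟩,.k,.k,.k,.k,.k,.k,⟨true,1,⟨0,[(10,0),(20,0)]⟩,⟨6,[(0,6),(2,1),(0,2),(2,0),(16,0),(6,1)]⟩⟩,
  ⟨false,1,⟨0,[(23,0),(10,0)]⟩,⟨1,[(14,0),(11,0),(0,0)]⟩⟩,⟨false,1,⟨2,[(3,0),(6,0),(13,0),(10,1)]⟩,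
  ⟨0,[(33,0)]⟩⟩,⟨true,0,⟨0,[(21,0)]⟩,⟨0,[(7,0)]⟩⟩,⟨true,0,⟨0,[]⟩,⟨0,[(37,0)]⟩⟩,⟨false,0,⟨0,[(0,0),
  (1,0),(20,0)]⟩,⟨2,[(3,0),(3,2),(2,0),(13,0),(10,1)]⟩⟩,[]⟩)

theorem ok39 : chk (cU (-1) false 2) t39 r18 = true := by decide +kernel

noncomputable def t42 : Tre :=
  (.R ⟨1,false,false,true,[1,0,0,-1],[0,-1,1],[0,1,0,0,0,0,0,0,-1],(⟨1,[(18,0),(8,0),(0,0)]⟩,⟨0,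
  [(19,0)]⟩),(⟨0,[(7,0)]⟩,⟨0,[(27,0),(3,0)]⟩),⟨1,[(7,0),(2,0),(7,0)]⟩,.k,.k,(.x 0 ⟨1,[(7,0),(2,0),
  (10,0),(2,0)]⟩ ⟨3,[(16,0),(0,0),(13,3),(3,1)]⟩),(.r (-1) ⟨3,[(1,1),(14,2),(0,0),(5,1),(0,1),(9,
  3)]⟩ ⟨0,[(0,0)]⟩),.k,.k,⟨false,1,⟨3,[(1,0),(12,1),(1,1),(6,0),(0,0),(9,3)]⟩,⟨0,[(0,0)]⟩⟩,⟨true,0,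
  ⟨1,[(18,0),(5,1),(2,0),(0,0)]⟩,⟨0,[(13,0),(5,0)]⟩⟩,⟨true,0,⟨0,[(38,0)]⟩,⟨0,[]⟩⟩,⟨false,0,⟨1,[(0,
  1),(17,0),(5,1),(2,0),(0,0)]⟩,⟨1,[(1,1),(11,1),(2,0),(2,1),(14,1),(0,0)]⟩⟩,⟨false,0,⟨0,[(34,0)]⟩,
  ⟨2,[(4,0),(6,0),(13,0),(10,1)]⟩⟩,⟨false,0,⟨1,[(0,1),(17,0),(5,1),(2,0),(0,0),(5,1)]⟩,⟨1,[(1,1),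
  (11,1),(2,0),(2,1),(15,0)]⟩⟩,[.o ⟨false,0,⟨0,[(12,0)]⟩,⟨1,[(8,1),(20,0),(4,1),(1,0)]⟩⟩,.a ⟨true,0,
  ⟨1,[(2,1),(15,0),(8,0),(0,0)]⟩,⟨0,[(8,0),(25,0)]⟩⟩ ⟨false,1,⟨1,[(16,0),(18,0)]⟩,⟨1,[(0,1),(0,0),
  (21,0),(0,0),(9,1)]⟩⟩ ⟨true,0,⟨0,[(2,0),(15,0)]⟩,⟨1,[(1,0),(17,1),(0,0),(0,0),(12,1)]⟩⟩,.e ⟨false,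
  1,⟨3,[(16,2),(0,0)]⟩,⟨0,[(0,0),(0,0),(32,0)]⟩⟩ ⟨false,0,⟨0,[(2,0),(15,0)]⟩,⟨1,[(8,1),(10,1),(9,0),
  (4,1),(1,0)]⟩⟩,.o ⟨false,0,⟨0,[(13,0),(5,0),(4,0)]⟩,⟨7,[(16,0),(0,0),(0,3),(10,1),(5,3)]⟩⟩]⟩)

theorem ok42 : chk (cU (-1) false 2) t42 l31 = true := by decide +kernel

noncomputable def t54 : Tre :=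
  (.R ⟨1,false,false,true,[0,0,1],[1,-1],[1,1,-1,-1],(⟨0,[(22,0)]⟩,⟨0,[(21,0)]⟩),(⟨0,[(24,0)]⟩,⟨0,
  [(25,0)]⟩),⟨0,[(1,0)]⟩,.k,.k,.k,.k,.k,.k,⟨true,0,⟨0,[]⟩,⟨1,[(18,0),(0,0)]⟩⟩,⟨false,0,⟨0,[(7,0)]⟩,
  ⟨0,[(0,0),(4,0),(26,0)]⟩⟩,⟨false,1,⟨0,[(5,0)]⟩,⟨0,[(0,0),(14,0)]⟩⟩,⟨false,1,⟨0,[(5,0),(9,0)]⟩,⟨0,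
  [(0,0)]⟩⟩,⟨false,1,⟨0,[(8,0)]⟩,⟨0,[(20,0),(5,0)]⟩⟩,⟨true,0,⟨0,[(14,0)]⟩,⟨0,[(0,0),(26,0)]⟩⟩,[.a
  ⟨true,0,⟨0,[(27,0)]⟩,⟨0,[(0,0),(1,0)]⟩⟩ ⟨false,1,⟨0,[(27,0),(1,0)]⟩,⟨0,[(26,0),(1,0)]⟩⟩ ⟨true,0,
  ⟨0,[(7,0),(19,0)]⟩,⟨0,[(0,0),(1,0),(15,0)]⟩⟩,.o ⟨false,1,⟨1,[(23,0),(3,1),(2,0)]⟩,⟨0,[(28,0)]⟩⟩,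
  .o ⟨false,1,⟨15,[(0,3),(4,3),(2,3),(1,2),(0,2),(4,3),(1,7),(4,1)]⟩,⟨0,[(7,0)]⟩⟩,.o ⟨false,0,⟨0,
  [(18,0)]⟩,⟨7,[(9,3),(0,0),(0,0),(11,1),(5,3)]⟩⟩]⟩)

theorem ok54 : chk (cU (-1) false 2) t54 r13 = true := by decide +kernel

noncomputable def t61 : Tre :=
  (.Q [0,1,0,-1,0,0,-1,-1,0,0,1] (.p true [0,0,1] [] (⟨0,[(29,0)]⟩,⟨0,[(28,0)]⟩) .k 0 (⟨0,[]⟩,⟨0,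
  []⟩) .k .k) (.K ⟨1,[0,1,1],1,0,(⟨0,[(30,0),(2,0)]⟩,⟨0,[(12,0)]⟩),.k,.k,(.r 1 ⟨0,[(2,0),(33,0),(3,
  0)]⟩ ⟨5,[(11,1),(1,7),(4,0),(0,0)]⟩),.k,.k,[⟨0,[(3,0)]⟩,⟨3,[(10,1),(5,1),(1,0),(0,0),(6,1)]⟩,⟨0,
  [(0,0)]⟩,⟨0,[(1,0)]⟩]⟩) (.I [0,0,2,2,-1] (.R ⟨2,true,false,true,[0,1],[1,-1],[1,1,-1,-1],(⟨0,[]⟩,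
  ⟨0,[]⟩),(⟨0,[(33,0)]⟩,⟨0,[(34,0)]⟩),⟨0,[]⟩,.k,.k,.k,(.r 1 ⟨0,[(0,0)]⟩ ⟨2,[(12,1),(1,1),(4,0),(0,
  0)]⟩),.k,.k,⟨true,0,⟨0,[]⟩,⟨5,[(4,1),(14,0),(0,0),(6,1)]⟩⟩,⟨false,0,⟨13,[(0,0),(2,1),(0,1),(2,1),
  (1,3),(17,1),(4,4)]⟩,⟨0,[(2,0),(2,0),(20,0)]⟩⟩,⟨true,1,⟨0,[(5,0),(30,0)]⟩,⟨0,[(0,0)]⟩⟩,⟨false,1,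
  ⟨0,[(9,0),(26,0),(2,0)]⟩,⟨0,[(2,0),(5,0)]⟩⟩,⟨false,1,⟨0,[(5,0)]⟩,⟨5,[(0,2),(3,1),(14,0),(0,0),(6,
  1),(11,2)]⟩⟩,⟨true,0,⟨0,[(9,0)]⟩,⟨0,[(2,0),(23,0)]⟩⟩,[]⟩) (.I [1,-1,2,1,-1,0,0,0,-1] (.Q [0,0,0,0,
  0,1,0,0,0,0,0,-1] (.p false [0,0,0,1] [] (⟨0,[(23,0)]⟩,⟨1,[(22,0),(8,0),(0,0)]⟩) .k 0 (⟨0,[]⟩,⟨0,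
  []⟩) .k .k) (.R ⟨0,false,false,false,[0,0,0,1],[0,1],[0,1,0,0,0,0,0,0,1],(⟨0,[(24,0)]⟩,⟨1,[(23,0),
  (8,0),(0,0)]⟩),(⟨0,[(36,0)]⟩,⟨0,[(35,0)]⟩),⟨0,[(0,0)]⟩,.k,.k,(.r (-1) ⟨1,[(2,0),(19,0)]⟩ ⟨7,[(1,
  3),(19,2),(0,0),(16,3),(3,3)]⟩),(.r (-1) ⟨1,[(2,0),(19,0)]⟩ ⟨7,[(1,3),(19,2),(0,0),(16,3),(3,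
  3)]⟩),.k,.k,⟨true,1,⟨1,[(2,0),(19,0),(20,1)]⟩,⟨0,[(1,0)]⟩⟩,⟨false,1,⟨0,[(24,0),(15,0)]⟩,⟨1,[(23,
  0),(2,0),(2,0)]⟩⟩,⟨true,0,⟨0,[(43,0)]⟩,⟨0,[]⟩⟩,⟨false,0,⟨0,[(1,0),(22,0),(15,0)]⟩,⟨1,[(11,0),(10,
  0),(0,0),(14,0),(2,0)]⟩⟩,⟨false,0,⟨0,[]⟩,⟨0,[]⟩⟩,⟨false,0,⟨0,[]⟩,⟨0,[]⟩⟩,[.o ⟨false,0,⟨0,[(39,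
  0)]⟩,⟨1,[(34,0),(3,1),(2,0)]⟩⟩,.o ⟨false,1,⟨7,[(3,3),(6,3),(10,2),(0,2),(18,1)]⟩,⟨0,[(11,0)]⟩⟩,.a
  ⟨true,0,⟨1,[(23,0),(8,0),(0,0)]⟩,⟨0,[(24,0)]⟩⟩ ⟨false,1,⟨3,[(21,0),(0,2)]⟩,⟨0,[(1,0),(5,0)]⟩⟩
  ⟨true,0,⟨0,[(24,0),(14,0)]⟩,⟨1,[(11,0),(11,0),(14,0)]⟩⟩,.o ⟨false,0,⟨1,[(23,0),(2,0),(2,0)]⟩,⟨1,
  [(24,1),(9,0),(5,0)]⟩⟩]⟩) (.R ⟨1,false,false,false,[0,0,0,1],[0,1],[0,0,0,0,0,0,0,0,1],(⟨0,[(24,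
  0)]⟩,⟨1,[(23,0),(8,0),(0,0)]⟩),(⟨0,[(36,0)]⟩,⟨0,[(35,0)]⟩),⟨0,[(0,0)]⟩,.k,.k,(.r (-1) ⟨1,[(2,0),
  (19,0)]⟩ ⟨7,[(1,3),(19,2),(0,0),(16,3),(3,3)]⟩),(.r (-1) ⟨1,[(2,0),(19,0)]⟩ ⟨7,[(1,3),(19,2),(0,
  0),(16,3),(3,3)]⟩),(.r (-2) ⟨11,[(14,7),(1,7),(4,0),(0,6)]⟩ ⟨0,[(1,0),(37,0),(3,0)]⟩),.k,⟨true,1,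
  ⟨1,[(2,0),(19,0)]⟩,⟨0,[(1,0),(41,0)]⟩⟩,⟨false,1,⟨0,[(24,0),(15,0)]⟩,⟨1,[(23,0),(2,0),(2,0)]⟩⟩,
  ⟨false,1,⟨3,[(21,0),(0,0),(18,1)]⟩,⟨0,[]⟩⟩,⟨false,0,⟨0,[(1,0),(22,0),(15,0)]⟩,⟨1,[(11,0),(10,0),
  (0,0),(14,0),(2,0)]⟩⟩,⟨true,0,⟨0,[(39,0)]⟩,⟨0,[(38,0)]⟩⟩,⟨false,0,⟨0,[(1,0),(22,0),(14,0),(0,0)]⟩,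
  ⟨3,[(8,1),(0,0),(1,1),(4,0),(5,1),(0,1),(14,2),(2,0)]⟩⟩,[.o ⟨false,0,⟨0,[(39,0)]⟩,⟨1,[(34,0),(3,
  1),(2,0)]⟩⟩,.o ⟨false,1,⟨7,[(3,3),(6,3),(10,2),(0,2),(18,1)]⟩,⟨0,[(11,0)]⟩⟩,.a ⟨true,0,⟨1,[(23,0),
  (8,0),(0,0)]⟩,⟨0,[(24,0)]⟩⟩ ⟨false,1,⟨1,[(22,0),(18,0)]⟩,⟨0,[(1,0),(5,0),(35,0)]⟩⟩ ⟨true,0,⟨0,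
  [(24,0),(14,0)]⟩,⟨1,[(11,0),(11,0),(14,0)]⟩⟩,.o ⟨false,0,⟨1,[(23,0),(2,0),(2,0)]⟩,⟨1,[(24,1),(9,
  0),(5,0)]⟩⟩]⟩)) (.I [1,-1,0,0,0,0,0,0,-1] (.Q [0,0,0,0,0,-1,0,0,0,1,0,-1] (.p false [0,0,0,1] [1]
  (⟨0,[(24,0)]⟩,⟨1,[(23,0),(8,0),(0,0)]⟩) .k 1 (⟨0,[]⟩,⟨0,[]⟩) .k .k) (.R ⟨1,false,false,true,[1,0,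
  0,-1],[1,-1],[0,1,0,0,0,0,0,0,-1],(⟨1,[(24,0),(8,0),(0,0)]⟩,⟨0,[(25,0)]⟩),(⟨0,[(36,0)]⟩,⟨0,[(37,
  0)]⟩),⟨0,[(0,0)]⟩,.k,.k,(.r (-1) ⟨1,[(3,0),(18,0)]⟩ ⟨0,[(2,0),(3,0),(4,0),(18,0)]⟩),(.r 0 ⟨2,[(1,
  0),(5,0),(14,0),(7,0),(9,2),(3,0)]⟩ ⟨1,[(3,0),(19,0)]⟩),.k,.k,⟨false,0,⟨0,[(1,0),(38,0),(3,0)]⟩,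
  ⟨1,[(3,0),(19,0)]⟩⟩,⟨true,0,⟨1,[(24,0),(2,0),(2,0)]⟩,⟨0,[(25,0)]⟩⟩,⟨true,0,⟨0,[(44,0)]⟩,⟨0,[]⟩⟩,
  ⟨false,1,⟨1,[(12,0),(10,0),(0,0),(14,0),(2,0)]⟩,⟨0,[(1,0),(23,0),(14,0)]⟩⟩,⟨false,0,⟨0,[(40,0)]⟩,
  ⟨0,[(39,0),(2,0)]⟩⟩,⟨false,1,⟨7,[(22,0),(0,4),(0,3),(10,1)]⟩,⟨0,[(1,0),(23,0)]⟩⟩,[.o ⟨false,0,⟨0,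
  [(12,0)]⟩,⟨7,[(4,3),(6,3),(10,2),(0,2),(18,1)]⟩⟩,.o ⟨false,1,⟨1,[(35,0),(3,1),(2,0)]⟩,⟨0,[(40,
  0)]⟩⟩,.a ⟨true,0,⟨0,[(25,0)]⟩,⟨1,[(24,0),(8,0),(0,0)]⟩⟩ ⟨false,0,⟨0,[(1,0),(42,0)]⟩,⟨1,[(23,0),
  (18,0)]⟩⟩ ⟨true,0,⟨1,[(12,0),(11,0),(14,0)]⟩,⟨0,[(25,0),(14,0)]⟩⟩,.o ⟨false,0,⟨8,[(6,1),(0,0),(2,
  0),(1,1),(12,8),(0,0),(3,1),(4,2)]⟩,⟨7,[(22,0),(0,0),(0,3),(10,1),(5,3)]⟩⟩]⟩) (.R ⟨0,false,false,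
  true,[1,0,0,-1],[1,-1],[1,0,0,0,0,0,0,0,-1],(⟨1,[(24,0),(8,0),(0,0)]⟩,⟨0,[(25,0)]⟩),(⟨0,[(36,0)]⟩,
  ⟨0,[(37,0)]⟩),⟨0,[(0,0)]⟩,.k,.k,(.r (-1) ⟨1,[(3,0),(18,0)]⟩ ⟨0,[(2,0),(3,0),(4,0),(18,0)]⟩),(.r 0
  ⟨2,[(1,0),(5,0),(14,0),(7,0),(9,2),(3,0)]⟩ ⟨1,[(3,0),(19,0)]⟩),.k,.k,⟨false,0,⟨0,[(1,0),(38,0)]⟩,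
  ⟨7,[(2,3),(19,0),(0,2),(15,3)]⟩⟩,⟨true,0,⟨1,[(24,0),(2,0),(2,0)]⟩,⟨0,[(25,0)]⟩⟩,⟨true,0,⟨0,[]⟩,⟨0,
  [(44,0)]⟩⟩,⟨false,1,⟨1,[(12,0),(10,0),(0,0),(14,0),(2,0)]⟩,⟨0,[(1,0),(23,0),(14,0)]⟩⟩,⟨false,0,⟨0,
  []⟩,⟨0,[]⟩⟩,⟨false,0,⟨0,[]⟩,⟨0,[]⟩⟩,[.o ⟨false,0,⟨0,[(12,0)]⟩,⟨7,[(4,3),(6,3),(10,2),(0,2),(18,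
  1)]⟩⟩,.o ⟨false,1,⟨1,[(35,0),(3,1),(2,0)]⟩,⟨0,[(40,0)]⟩⟩,.a ⟨true,0,⟨0,[(25,0)]⟩,⟨1,[(24,0),(8,0),
  (0,0)]⟩⟩ ⟨false,0,⟨0,[(1,0)]⟩,⟨3,[(22,0),(0,2)]⟩⟩ ⟨true,0,⟨1,[(12,0),(11,0),(14,0)]⟩,⟨0,[(25,0),
  (14,0)]⟩⟩,.o ⟨false,0,⟨8,[(6,1),(0,0),(2,0),(1,1),(12,8),(0,0),(3,1),(4,2)]⟩,⟨7,[(22,0),(0,0),(0,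
  3),(10,1),(5,3)]⟩⟩]⟩)) (.I [0,0,0,0,0,0,0,0,1] (.Q [0,0,0,0,0,1,0,0,0,0,-1] (.ed true [1,-1,1]
  .k) (.Q [0,-1,0,1,0,0,0,0,1,1,0,-1] (.p false [0,0,0,1] [1] (⟨0,[(26,0)]⟩,⟨1,[(25,0),(8,0),(0,
  0)]⟩) .k 1 (⟨0,[]⟩,⟨0,[]⟩) .k .k) (.Q [0,0,0,0,0,1,0,0,0,0,0,-1] (.p false [0,0,0,1] [] (⟨0,[(27,
  0)]⟩,⟨1,[(26,0),(8,0),(0,0)]⟩) .k 0 (⟨0,[]⟩,⟨0,[]⟩) .k .k) (.R ⟨0,false,false,true,[0,0,0,1],[1,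
  -1],[0,1,0,0,0,0,0,0,1],(⟨0,[(28,0)]⟩,⟨1,[(27,0),(8,0),(0,0)]⟩),(⟨0,[(39,0)]⟩,⟨0,[(40,0)]⟩),⟨0,
  [(0,0)]⟩,.k,.k,(.x 0 ⟨8,[(9,1),(0,0),(2,0),(1,1),(13,0),(3,1),(4,2),(0,8)]⟩ ⟨3,[(25,0),(0,0),(13,
  3),(3,1)]⟩),(.r 0 ⟨2,[(4,0),(4,0),(4,0),(11,0),(6,0),(9,0)]⟩ ⟨1,[(6,0),(18,0)]⟩),.k,.k,⟨false,0,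
  ⟨0,[(3,0),(39,0)]⟩,⟨1,[(6,0),(18,0)]⟩⟩,⟨true,0,⟨8,[(9,1),(0,0),(2,0),(1,1),(12,8),(0,0),(3,1),(4,
  2)]⟩,⟨1,[(27,0),(8,0),(0,0)]⟩⟩,⟨true,0,⟨0,[(47,0)]⟩,⟨0,[]⟩⟩,⟨false,1,⟨1,[(15,1),(9,0),(2,1),(16,
  0)]⟩,⟨0,[(1,0)]⟩⟩,⟨false,0,⟨0,[]⟩,⟨0,[]⟩⟩,⟨false,0,⟨0,[]⟩,⟨0,[]⟩⟩,[.o ⟨false,0,⟨0,[(15,0)]⟩,⟨7,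
  [(7,3),(6,3),(10,2),(0,2),(18,1)]⟩⟩,.o ⟨false,1,⟨1,[(38,0),(3,1),(2,0)]⟩,⟨0,[(43,0)]⟩⟩,.a ⟨true,0,
  ⟨1,[(27,0),(8,0),(0,0)]⟩,⟨0,[(28,0)]⟩⟩ ⟨false,0,⟨0,[(3,0)]⟩,⟨1,[(25,0),(19,0)]⟩⟩ ⟨true,0,⟨0,[(15,
  0),(12,0)]⟩,⟨1,[(8,0),(18,0),(4,0),(10,0)]⟩⟩,.o ⟨false,0,⟨1,[(27,0),(2,0),(2,0)]⟩,⟨1,[(28,1),(9,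
  0),(5,0)]⟩⟩]⟩) (.I [1,0,-1,-2,1,0,0,0,-1] (.I [0,0,2,2,-1,0,0,0,1] (.R ⟨1,false,false,false,[1,0,
  0,-1],[0,1],[1,0,0,-1,0,0,0,0,-1],(⟨1,[(29,0),(8,0),(0,0)]⟩,⟨0,[(30,0)]⟩),(⟨0,[(42,0)]⟩,⟨0,[(41,
  0)]⟩),⟨0,[(2,0),(26,0)]⟩,.k,.k,(.r (-1) ⟨1,[(8,0),(18,0)]⟩ ⟨7,[(0,3),(26,0),(0,2)]⟩),(.r (-1) ⟨1,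
  [(8,0),(18,0)]⟩ ⟨7,[(0,3),(26,0),(0,2)]⟩),(.r (-2) ⟨11,[(20,7),(1,7),(4,6),(0,0)]⟩ ⟨0,[(0,0)]⟩),
  .k,⟨true,1,⟨0,[(1,0)]⟩,⟨0,[(0,0)]⟩⟩,⟨false,1,⟨1,[(10,0),(2,0),(15,0),(4,0),(11,0)]⟩,⟨8,[(11,1),(0,
  0),(2,0),(1,1),(12,8),(0,0),(3,1),(4,2)]⟩⟩,⟨false,1,⟨29,[(1,13),(10,3),(1,1),(0,1),(12,6),(6,3),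
  (11,12)]⟩,⟨0,[(45,0)]⟩⟩,⟨false,0,⟨0,[(3,0)]⟩,⟨21,[(1,7),(10,1),(1,1),(0,1),(1,3),(9,6),(2,21),(4,
  1),(4,8)]⟩⟩,⟨true,0,⟨0,[]⟩,⟨0,[(49,0)]⟩⟩,⟨false,0,⟨0,[(3,0),(41,0)]⟩,⟨21,[(1,15),(10,3),(1,3),(0,
  3),(1,7),(9,2),(2,21),(4,3),(4,6)]⟩⟩,[.o ⟨false,0,⟨0,[(45,0)]⟩,⟨57,[(1,25),(10,7),(1,1),(0,1),(1,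
  3),(10,12),(6,7),(4,26)]⟩⟩,.o ⟨false,1,⟨7,[(9,3),(6,3),(10,2),(0,2),(18,1)]⟩,⟨0,[(17,0)]⟩⟩,.a
  ⟨true,0,⟨0,[(30,0)]⟩,⟨1,[(29,0),(8,0),(0,0)]⟩⟩ ⟨false,1,⟨17,[(1,7),(10,1),(1,1),(0,1),(11,4),(7,
  1),(11,6)]⟩,⟨1,[(0,0),(4,0),(40,0)]⟩⟩ ⟨true,0,⟨1,[(10,0),(18,0),(4,0),(10,0)]⟩,⟨0,[(17,0),(12,
  0)]⟩⟩,.o ⟨false,0,⟨8,[(11,1),(0,0),(2,0),(1,1),(12,8),(0,0),(3,1),(4,2)]⟩,⟨7,[(27,0),(0,0),(0,3),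
  (10,1),(5,3)]⟩⟩]⟩) (.Q [0,0,0,1,0,0,0,0,-1,0,0,1] (.p true [0,0,0,1] [] (⟨0,[(30,0)]⟩,⟨1,[(29,0),
  (8,0),(0,0)]⟩) .k 0 (⟨0,[]⟩,⟨0,[]⟩) .k .k) (.R ⟨2,true,false,false,[0,1],[0,0,0,1],[0,1,1,1],(⟨0,
  []⟩,⟨0,[]⟩),(⟨0,[(31,0)]⟩,⟨1,[(30,0),(8,0),(0,0)]⟩),⟨0,[]⟩,.k,.k,.k,(.r 0 ⟨5,[(0,1),(11,0),(0,0),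
  (14,1),(1,0),(1,0),(3,1),(9,2)]⟩ ⟨1,[(9,0),(19,0)]⟩),.k,.k,⟨false,0,⟨1,[(0,1),(29,0),(1,0),(1,
  0)]⟩,⟨1,[(6,1),(2,0),(38,0)]⟩⟩,⟨true,0,⟨1,[(30,0),(2,0),(2,0)]⟩,⟨0,[(31,0)]⟩⟩,⟨true,0,⟨0,[(50,
  0)]⟩,⟨0,[]⟩⟩,⟨false,1,⟨3,[(9,0),(5,1),(0,1),(12,1),(0,1),(10,0)]⟩,⟨0,[(0,0)]⟩⟩,⟨false,0,⟨0,[(46,
  0)]⟩,⟨29,[(2,13),(10,3),(1,1),(0,1),(12,6),(6,3),(11,12)]⟩⟩,⟨true,0,⟨0,[(4,0),(13,0)]⟩,⟨0,[(0,0),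
  (44,0)]⟩⟩,[]⟩) (.I [0,-1,0,0,0,0,0,0,1] (.R ⟨1,false,false,true,[0,0,0,1],[1,-1],[0,0,0,0,0,0,0,0,
  1],(⟨0,[(32,0)]⟩,⟨1,[(31,0),(8,0),(0,0)]⟩),(⟨0,[(43,0)]⟩,⟨0,[(44,0)]⟩),⟨0,[(4,0)]⟩,.k,.k,(.r (-1)
  ⟨1,[(10,0),(19,0)]⟩ ⟨0,[(2,0),(11,0),(22,0),(9,2)]⟩),(.r 0 ⟨2,[(8,0),(4,0),(4,0),(11,0),(6,0),(9,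
  0)]⟩ ⟨4,[(2,0),(19,0),(1,0),(4,1)]⟩),.k,.k,⟨false,0,⟨1,[(0,0),(6,0),(3,0),(6,0)]⟩,⟨3,[(2,0),(6,0),
  (19,1),(16,0),(4,1)]⟩⟩,⟨true,0,⟨8,[(13,1),(0,0),(2,0),(1,1),(12,8),(0,0),(3,1),(4,2)]⟩,⟨1,[(31,0),
  (8,0),(0,0)]⟩⟩,⟨false,1,⟨3,[(29,0),(0,0),(18,1)]⟩,⟨0,[]⟩⟩,⟨false,1,⟨21,[(3,7),(10,1),(1,1),(0,1),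
  (1,3),(9,6),(2,21),(4,1),(4,8)]⟩,⟨0,[(5,0)]⟩⟩,⟨true,0,⟨0,[(47,0)]⟩,⟨0,[(46,0)]⟩⟩,⟨false,1,⟨1,[(29,
  0),(2,1),(9,0)]⟩,⟨1,[(0,1),(30,0),(8,0),(0,0)]⟩⟩,[.o ⟨false,0,⟨0,[(19,0)]⟩,⟨7,[(11,3),(6,3),(10,
  2),(0,2),(18,1)]⟩⟩,.o ⟨false,1,⟨57,[(3,25),(10,7),(1,1),(0,1),(1,3),(10,12),(6,7),(4,26)]⟩,⟨0,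
  [(47,0)]⟩⟩,.a ⟨true,0,⟨1,[(31,0),(8,0),(0,0)]⟩,⟨0,[(32,0)]⟩⟩ ⟨false,0,⟨0,[(0,0)]⟩,⟨3,[(29,2),(0,
  0)]⟩⟩ ⟨true,0,⟨0,[(19,0),(12,0)]⟩,⟨1,[(12,0),(18,0),(4,0),(10,0)]⟩⟩,.o ⟨false,0,⟨1,[(31,0),(2,0),
  (2,0)]⟩,⟨1,[(32,1),(9,0),(5,0)]⟩⟩]⟩) (.R ⟨1,false,false,false,[0,0,0,1],[0,1],[0,1,1],(⟨0,[(32,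
  0)]⟩,⟨1,[(31,0),(8,0),(0,0)]⟩),(⟨0,[(44,0)]⟩,⟨0,[(43,0)]⟩),⟨0,[(4,0)]⟩,.k,.k,(.r (-1) ⟨1,[(10,0),
  (19,0)]⟩ ⟨2,[(0,0),(12,0),(4,0),(10,0),(7,0),(9,0)]⟩),(.r (-1) ⟨1,[(10,0),(19,0)]⟩ ⟨2,[(0,0),(12,
  0),(4,0),(10,0),(7,0),(9,0)]⟩),(.r (-1) ⟨0,[(7,0),(2,0)]⟩ ⟨11,[(14,7),(14,6),(0,0),(6,7),(9,
  23)]⟩),.k,⟨true,0,⟨0,[(46,0)]⟩,⟨5,[(11,1),(1,1),(3,1),(0,1),(10,0),(0,0)]⟩⟩,⟨false,1,⟨0,[(32,0),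
  (15,0)]⟩,⟨1,[(31,0),(2,0),(2,0)]⟩⟩,⟨false,0,⟨12,[(0,3),(1,0),(10,1),(0,2),(2,1),(11,3),(7,2)]⟩,⟨1,
  [(7,1),(40,0),(0,0)]⟩⟩,⟨false,1,⟨7,[(11,3),(6,3),(10,4),(0,0),(1,7),(16,1)]⟩,⟨0,[(1,0)]⟩⟩,⟨false,
  0,⟨2,[(0,0),(12,0),(4,0),(10,0),(7,0),(9,0)]⟩,⟨1,[(7,1),(2,0),(38,0)]⟩⟩,⟨true,0,⟨0,[(0,0),(10,0),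
  (6,0),(13,0)]⟩,⟨0,[(1,0),(44,0)]⟩⟩,[.o ⟨false,0,⟨0,[(47,0)]⟩,⟨57,[(3,25),(10,7),(1,1),(0,1),(1,3),
  (10,12),(6,7),(4,26)]⟩⟩,.o ⟨false,1,⟨7,[(11,3),(6,3),(10,2),(0,2),(18,1)]⟩,⟨0,[(19,0)]⟩⟩,.a ⟨true,
  0,⟨1,[(31,0),(8,0),(0,0)]⟩,⟨0,[(32,0)]⟩⟩ ⟨false,0,⟨5,[(14,1),(14,0),(0,0),(6,1)]⟩,⟨1,[(48,0),(0,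
  0)]⟩⟩ ⟨true,0,⟨0,[(32,0),(14,0)]⟩,⟨1,[(19,0),(11,0),(14,0)]⟩⟩,.o ⟨false,0,⟨1,[(31,0),(2,0),(2,
  0)]⟩,⟨1,[(32,1),(9,0),(5,0)]⟩⟩]⟩)))) (.R ⟨1,false,false,true,[0,0,0,1],[1,-1],[0,1,0,0,0,0,0,0,1],
  (⟨0,[(29,0)]⟩,⟨1,[(28,0),(8,0),(0,0)]⟩),(⟨0,[(40,0)]⟩,⟨0,[(41,0)]⟩),⟨0,[(1,0)]⟩,.k,.k,(.x 0 ⟨2,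
  [(1,1),(9,0),(16,0),(5,0),(4,0),(0,0)]⟩ ⟨3,[(26,0),(0,0),(13,3),(3,1)]⟩),(.r 0 ⟨23,[(0,11),(10,3),
  (14,4),(0,10),(6,3)]⟩ ⟨1,[(7,0),(18,0)]⟩),.k,.k,⟨false,0,⟨3,[(0,1),(26,0),(17,0)]⟩,⟨1,[(7,0),(18,
  0)]⟩⟩,⟨true,0,⟨8,[(10,1),(0,0),(2,0),(1,1),(12,8),(0,0),(3,1),(4,2)]⟩,⟨1,[(28,0),(8,0),(0,0)]⟩⟩,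
  ⟨true,0,⟨0,[(48,0)]⟩,⟨0,[]⟩⟩,⟨false,1,⟨1,[(16,1),(9,0),(2,1),(16,0)]⟩,⟨0,[(2,0)]⟩⟩,⟨false,0,⟨0,
  [(44,0)]⟩,⟨0,[(43,0),(2,0)]⟩⟩,⟨false,1,⟨1,[(26,0),(2,1),(9,0)]⟩,⟨5,[(0,1),(1,3),(4,1),(5,1),(0,1),
  (13,0),(8,0),(0,0),(4,1)]⟩⟩,[.o ⟨false,0,⟨0,[(16,0)]⟩,⟨7,[(8,3),(6,3),(10,2),(0,2),(18,1)]⟩⟩,.o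
  ⟨false,1,⟨1,[(39,0),(3,1),(2,0)]⟩,⟨0,[(44,0)]⟩⟩,.a ⟨true,0,⟨1,[(28,0),(8,0),(0,0)]⟩,⟨0,[(29,0)]⟩⟩
  ⟨false,0,⟨0,[(4,0)]⟩,⟨1,[(26,0),(19,0)]⟩⟩ ⟨true,0,⟨0,[(16,0),(12,0)]⟩,⟨1,[(9,0),(18,0),(4,0),(10,
  0)]⟩⟩,.o ⟨false,0,⟨1,[(28,0),(2,0),(2,0)]⟩,⟨1,[(29,1),(9,0),(5,0)]⟩⟩]⟩))) (.Q [0,0,0,0,0,0,0,0,1,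
  0,0,-1] (.p false [0,0,0,1] [] (⟨0,[(27,0)]⟩,⟨1,[(26,0),(8,0),(0,0)]⟩) .k 0 (⟨0,[]⟩,⟨0,[]⟩) .k
  .k) (.R ⟨2,true,false,false,[0,1],[0,0,0,1],[1,1,1],(⟨0,[]⟩,⟨0,[]⟩),(⟨0,[(28,0)]⟩,⟨1,[(27,0),(8,
  0),(0,0)]⟩),⟨0,[]⟩,.k,.k,.k,(.r 0 ⟨5,[(1,1),(6,0),(0,0),(0,0),(3,1),(10,1),(1,0),(5,1),(9,3)]⟩ ⟨1,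
  [(6,0),(19,0)]⟩),.k,.k,⟨false,0,⟨1,[(1,1),(6,0),(18,0),(4,0),(10,0)]⟩,⟨1,[(3,1),(40,0),(0,0)]⟩⟩,
  ⟨true,0,⟨1,[(27,0),(2,0),(2,0)]⟩,⟨0,[(28,0)]⟩⟩,⟨true,0,⟨0,[(42,0)]⟩,⟨0,[(43,0)]⟩⟩,⟨false,1,⟨3,[(6,
  0),(5,1),(0,1),(12,1),(0,1),(10,0)]⟩,⟨0,[(1,0),(6,0),(5,0)]⟩⟩,⟨false,0,⟨0,[]⟩,⟨3,[(25,0),(0,0),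
  (18,1)]⟩⟩,⟨true,0,⟨0,[(0,0)]⟩,⟨0,[(1,0),(6,0),(23,0)]⟩⟩,[]⟩) (.R ⟨0,false,false,true,[0,0,1],[0,0,
  0,1],[1],(⟨0,[(37,0)]⟩,⟨0,[(36,0)]⟩),(⟨0,[(28,0)]⟩,⟨1,[(27,0),(8,0),(0,0)]⟩),⟨0,[(2,0)]⟩,.k,.k,.k,
  .k,.k,.k,⟨false,1,⟨5,[(0,3),(6,1),(3,1),(1,1),(8,1),(2,0),(1,1),(16,1),(0,0)]⟩,⟨0,[(4,0)]⟩⟩,⟨true,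
  0,⟨1,[(24,0),(2,0)]⟩,⟨0,[(28,0),(4,0)]⟩⟩,⟨false,1,⟨7,[(13,3),(9,3),(1,0),(0,0),(18,1)]⟩,⟨0,[(35,
  0)]⟩⟩,⟨true,0,⟨1,[(3,1),(23,0),(1,0),(2,0)]⟩,⟨0,[(0,0),(16,0)]⟩⟩,⟨false,0,⟨0,[]⟩,⟨0,[]⟩⟩,⟨false,0,
  ⟨0,[]⟩,⟨0,[]⟩⟩,[.o ⟨false,0,⟨3,[(3,0),(0,2),(2,0),(7,0),(11,1),(1,0)]⟩,⟨1,[(0,1),(37,0),(6,0)]⟩⟩,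
  .a ⟨true,0,⟨1,[(3,1),(23,0),(8,0),(0,0)]⟩,⟨0,[(0,0)]⟩⟩ ⟨false,1,⟨1,[(44,0),(0,0)]⟩,⟨0,[(47,0)]⟩⟩
  ⟨true,0,⟨1,[(3,1),(20,0),(2,0)]⟩,⟨0,[(0,0),(32,0)]⟩⟩,.o ⟨false,1,⟨3,[(17,1),(5,1),(1,0),(0,0),(6,
  1)]⟩,⟨0,[(22,0)]⟩⟩,.o ⟨false,0,⟨0,[(33,0)]⟩,⟨7,[(24,3),(0,0),(0,0),(11,1),(5,3)]⟩⟩]⟩))) (.I [1,-1,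
  0,0,0,0,0,0,1] (.I [1,0,2,1,-1,0,0,0,1] (.R ⟨1,false,false,false,[1,0,0,-1],[0,1],[0,0,0,0,0,0,0,
  0,-1],(⟨1,[(27,0),(8,0),(0,0)]⟩,⟨0,[(28,0)]⟩),(⟨0,[(40,0)]⟩,⟨0,[(39,0)]⟩),⟨1,[(2,0),(16,0),(7,
  0)]⟩,.k,.k,(.r (-1) ⟨1,[(6,0),(18,0)]⟩ ⟨7,[(0,3),(24,0),(0,2),(16,3)]⟩),(.r (-1) ⟨1,[(6,0),(18,
  0)]⟩ ⟨7,[(0,3),(24,0),(0,2),(16,3)]⟩),(.r (-2) ⟨11,[(18,7),(1,7),(4,6),(0,0)]⟩ ⟨0,[(0,0),(42,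
  0)]⟩),.k,⟨true,1,⟨1,[(6,0),(18,0)]⟩,⟨0,[(0,0)]⟩⟩,⟨false,1,⟨1,[(8,0),(2,0),(15,0),(4,0),(11,0)]⟩,
  ⟨8,[(9,1),(0,0),(2,0),(1,1),(12,8),(0,0),(3,1),(4,2)]⟩⟩,⟨false,1,⟨3,[(25,0),(0,0),(18,1)]⟩,⟨0,
  []⟩⟩,⟨false,0,⟨5,[(0,0),(0,3),(3,0),(2,2),(5,2),(12,2)]⟩,⟨1,[(15,1),(9,0),(2,1),(16,0)]⟩⟩,⟨true,0,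
  ⟨0,[(43,0)]⟩,⟨0,[(42,0)]⟩⟩,⟨false,0,⟨5,[(0,1),(0,1),(3,1),(1,2),(0,2),(5,5),(12,2)]⟩,⟨3,[(12,1),
  (0,0),(1,3),(4,0),(4,1),(2,3),(13,0),(2,0)]⟩⟩,[.o ⟨false,0,⟨0,[(43,0)]⟩,⟨1,[(38,0),(3,1),(2,0)]⟩⟩,
  .o ⟨false,1,⟨7,[(7,3),(6,3),(10,2),(0,2),(18,1)]⟩,⟨0,[(15,0)]⟩⟩,.a ⟨true,0,⟨0,[(28,0)]⟩,⟨1,[(27,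
  0),(8,0),(0,0)]⟩⟩ ⟨false,1,⟨1,[(25,0),(19,0)]⟩,⟨2,[(0,0),(0,0),(3,0)]⟩⟩ ⟨true,0,⟨1,[(8,0),(18,0),
  (4,0),(10,0)]⟩,⟨0,[(15,0),(12,0)]⟩⟩,.o ⟨false,0,⟨8,[(9,1),(0,0),(2,0),(1,1),(12,8),(0,0),(3,1),(4,
  2)]⟩,⟨7,[(25,0),(0,0),(0,3),(10,1),(5,3)]⟩⟩]⟩) (.Q [0,1,0,0,0,0,0,0,-1,0,0,1] (.p true [0,0,0,1]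
  [] (⟨0,[(28,0)]⟩,⟨1,[(27,0),(8,0),(0,0)]⟩) .k 0 (⟨0,[]⟩,⟨0,[]⟩) .k .k) (.K ⟨1,[0,0,0,1],0,0,(⟨0,
  [(29,0)]⟩,⟨1,[(28,0),(8,0),(0,0)]⟩),.k,(.r (-1) ⟨1,[(7,0),(19,0)]⟩ ⟨5,[(0,1),(9,1),(3,0),(11,1),
  (1,0),(1,0),(3,0),(9,3)]⟩),(.r 0 ⟨2,[(5,0),(4,0),(4,0),(11,0),(6,0),(9,0)]⟩ ⟨1,[(7,0),(18,0)]⟩),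
  .k,.k,[⟨5,[(11,1),(14,0),(0,0),(1,5),(4,1)]⟩,⟨1,[(28,0),(2,0),(2,0)]⟩,⟨0,[(0,0)]⟩,⟨1,[(2,1),(25,
  0),(8,0),(0,0)]⟩]⟩) (.Q [0,0,0,1,0,0,-1,-1,0,-1,1,1] (.p true [0,0,1] [1,0,0,-1] (⟨0,[(38,0)]⟩,⟨0,
  [(37,0)]⟩) .k 2 (⟨1,[(28,0),(8,0),(0,0)]⟩,⟨0,[(29,0)]⟩) .k (.r 0 ⟨0,[(4,0),(31,0)]⟩ ⟨3,[(14,0),(9,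
  1),(1,1),(6,0),(0,0)]⟩)) (.Q [0,0,0,-1,0,0,1,1,0,1,-1] (.p false [0,0,1] [1] (⟨0,[(39,0)]⟩,⟨0,
  [(38,0)]⟩) .k 1 (⟨0,[]⟩,⟨0,[]⟩) .k .k) (.R ⟨1,false,false,false,[1,-1],[0,-1,1],[0,1],(⟨0,[(42,
  0)]⟩,⟨0,[(43,0)]⟩),(⟨0,[(5,0)]⟩,⟨0,[(39,0),(3,0)]⟩),⟨0,[(5,0),(16,0)]⟩,.k,.k,(.r (-1) ⟨0,[(0,0),
  (0,0),(0,0),(0,0),(1,0),(12,0),(3,0),(20,1)]⟩ ⟨2,[(13,1),(14,0),(0,0),(6,1),(9,5)]⟩),.k,.k,.k,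
  ⟨true,0,⟨0,[(35,0),(0,0),(9,0)]⟩,⟨0,[(15,0)]⟩⟩,⟨false,1,⟨1,[(0,0),(10,0),(14,1),(23,0)]⟩,⟨0,[(25,
  0)]⟩⟩,⟨false,0,⟨5,[(13,1),(14,0),(0,0),(6,1),(9,5)]⟩,⟨1,[(9,0),(38,0)]⟩⟩,⟨true,0,⟨1,[(0,0),(10,0),
  (38,0)]⟩,⟨0,[(32,0)]⟩⟩,⟨false,0,⟨5,[(13,1),(14,0),(0,0),(6,1),(9,11)]⟩,⟨0,[(15,0),(7,0)]⟩⟩,⟨false,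
  0,⟨0,[(11,0)]⟩,⟨0,[(23,0),(9,0)]⟩⟩,[.a ⟨true,0,⟨0,[(0,0)]⟩,⟨0,[(17,0)]⟩⟩ ⟨true,0,⟨0,[(50,0)]⟩,⟨0,
  [(44,0)]⟩⟩ ⟨false,1,⟨1,[(0,0),(2,0),(4,0),(2,0)]⟩,⟨8,[(12,1),(0,0),(2,0),(0,6),(14,2),(3,1),(4,
  2)]⟩⟩,.o ⟨false,1,⟨1,[(0,1),(40,0),(6,0)]⟩,⟨0,[(32,0),(13,0)]⟩⟩,.o ⟨false,0,⟨8,[(12,1),(0,0),(2,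
  0),(1,1),(13,0),(3,1),(4,2)]⟩,⟨3,[(28,0),(0,0),(17,1)]⟩⟩,.o ⟨false,0,⟨0,[(33,0),(2,0)]⟩,⟨0,[(47,
  0)]⟩⟩]⟩) (.I [0,0,2,2,-1,0,0,0,1] (.R ⟨1,false,false,false,[1,0,0,-1],[0,1],[0,0,2,1],(⟨1,[(31,0),
  (8,0),(0,0)]⟩,⟨0,[(32,0)]⟩),(⟨0,[(44,0)]⟩,⟨0,[(43,0)]⟩),⟨1,[(6,0),(16,0),(7,0)]⟩,.k,.k,(.r (-1)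
  ⟨1,[(10,0),(18,0)]⟩ ⟨7,[(0,3),(28,0),(0,2)]⟩),(.r (-1) ⟨1,[(10,0),(18,0)]⟩ ⟨7,[(0,3),(28,0),(0,
  2)]⟩),(.r (-2) ⟨11,[(22,7),(1,7),(4,6),(0,0)]⟩ ⟨0,[(0,0)]⟩),.k,⟨true,0,⟨5,[(14,1),(14,0),(0,0),(6,
  1)]⟩,⟨0,[]⟩⟩,⟨false,1,⟨1,[(4,0),(4,0),(2,0),(5,0),(12,0)]⟩,⟨11,[(2,0),(10,1),(0,1),(2,0),(1,2),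
  (12,10),(4,2),(4,3)]⟩⟩,⟨false,0,⟨23,[(0,11),(13,7),(14,0),(0,6),(6,7),(11,11)]⟩,⟨0,[(4,0)]⟩⟩,
  ⟨false,0,⟨7,[(0,0),(4,5),(3,0),(2,3),(5,2),(12,3),(4,0)]⟩,⟨1,[(19,1),(9,0),(2,1),(16,0)]⟩⟩,⟨true,
  (-1),⟨0,[(0,0)]⟩,⟨0,[(4,0),(41,0)]⟩⟩,⟨false,0,⟨10,[(0,3),(2,4),(5,1),(2,7),(5,7),(12,2),(16,1)]⟩,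
  ⟨3,[(16,1),(0,0),(1,3),(4,0),(4,1),(2,3),(13,0),(2,0)]⟩⟩,[.o ⟨false,0,⟨0,[(47,0)]⟩,⟨1,[(42,0),(3,
  1),(2,0)]⟩⟩,.o ⟨false,1,⟨7,[(1,3),(10,3),(16,2),(0,2),(18,1)]⟩,⟨0,[(19,0)]⟩⟩,.a ⟨true,0,⟨0,[(32,
  0)]⟩,⟨1,[(31,0),(8,0),(0,0)]⟩⟩ ⟨false,0,⟨23,[(0,11),(13,7),(14,6),(0,0),(6,7),(11,11)]⟩,⟨0,[(15,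
  0)]⟩⟩ ⟨true,0,⟨1,[(12,0),(18,0),(4,0),(10,0)]⟩,⟨0,[(19,0),(12,0)]⟩⟩,.o ⟨false,0,⟨11,[(2,0),(10,1),
  (0,1),(2,0),(1,2),(12,10),(4,2),(4,3)]⟩,⟨7,[(29,0),(0,0),(0,3),(10,1),(5,3)]⟩⟩]⟩) (.Q [0,0,0,0,0,
  -1,0,0,0,0,0,1] (.p true [0,0,0,1] [] (⟨0,[(32,0)]⟩,⟨1,[(31,0),(8,0),(0,0)]⟩) .k 0 (⟨0,[]⟩,⟨0,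
  []⟩) .k .k) (.R ⟨1,false,false,true,[0,0,0,1],[1,-1],[0,1,0,0,0,0,0,0,1],(⟨0,[(33,0)]⟩,⟨1,[(32,0),
  (8,0),(0,0)]⟩),(⟨0,[(44,0)]⟩,⟨0,[(45,0)]⟩),⟨0,[(0,0)]⟩,.k,.k,(.r (-1) ⟨1,[(11,0),(19,0)]⟩ ⟨0,[(5,
  0),(9,0),(22,0),(9,1)]⟩),(.r 0 ⟨2,[(9,0),(4,0),(4,0),(11,0),(6,0),(9,0)]⟩ ⟨4,[(1,0),(21,0),(1,0),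
  (4,1)]⟩),.k,.k,⟨false,0,⟨1,[(2,0),(5,0),(0,0),(3,0)]⟩,⟨4,[(1,0),(21,0),(1,0),(4,1)]⟩⟩,⟨true,0,⟨11,
  [(3,0),(10,1),(0,1),(2,0),(1,2),(12,10),(4,2),(4,3)]⟩,⟨1,[(32,0),(8,0),(0,0)]⟩⟩,⟨true,0,⟨0,[(52,
  0)]⟩,⟨0,[]⟩⟩,⟨false,1,⟨1,[(20,1),(9,0),(2,1),(16,0)]⟩,⟨1,[(6,0),(1,0),(4,0),(5,0),(12,0)]⟩⟩,
  ⟨false,0,⟨0,[(48,0)]⟩,⟨0,[(47,0),(2,0)]⟩⟩,⟨false,1,⟨1,[(30,0),(2,1),(9,0)]⟩,⟨1,[(6,1),(25,0),(8,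
  0),(0,0)]⟩⟩,[.o ⟨false,0,⟨0,[(20,0)]⟩,⟨7,[(2,3),(10,3),(16,2),(0,2),(18,1)]⟩⟩,.o ⟨false,1,⟨1,[(43,
  0),(3,1),(2,0)]⟩,⟨0,[(48,0)]⟩⟩,.a ⟨true,0,⟨1,[(32,0),(8,0),(0,0)]⟩,⟨0,[(33,0)]⟩⟩ ⟨false,0,⟨0,[(8,
  0)]⟩,⟨1,[(30,0),(19,0)]⟩⟩ ⟨true,0,⟨0,[(20,0),(12,0)]⟩,⟨1,[(13,0),(18,0),(4,0),(10,0)]⟩⟩,.o ⟨false,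
  0,⟨1,[(32,0),(2,0),(2,0)]⟩,⟨1,[(33,1),(9,0),(5,0)]⟩⟩]⟩) (.R ⟨0,false,false,true,[0,0,0,1],[1,-1],
  [0,1,0,0,0,0,0,0,1],(⟨0,[(33,0)]⟩,⟨1,[(32,0),(8,0),(0,0)]⟩),(⟨0,[(44,0)]⟩,⟨0,[(45,0)]⟩),⟨0,[(0,
  0)]⟩,.k,.k,(.r (-1) ⟨1,[(11,0),(19,0)]⟩ ⟨0,[(5,0),(9,0),(22,0),(9,1)]⟩),(.r 0 ⟨2,[(9,0),(4,0),(4,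
  0),(11,0),(6,0),(9,0)]⟩ ⟨4,[(1,0),(21,0),(1,0),(4,1)]⟩),.k,.k,⟨false,0,⟨1,[(2,0),(5,0),(0,0),(3,
  0)]⟩,⟨4,[(1,0),(21,0),(1,0),(4,1)]⟩⟩,⟨true,0,⟨11,[(3,0),(10,1),(0,1),(2,0),(1,2),(12,10),(4,2),(4,
  3)]⟩,⟨1,[(32,0),(8,0),(0,0)]⟩⟩,⟨true,0,⟨0,[(52,0)]⟩,⟨0,[]⟩⟩,⟨false,1,⟨1,[(20,1),(9,0),(2,1),(16,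
  0)]⟩,⟨1,[(6,0),(1,0),(4,0),(5,0),(12,0)]⟩⟩,⟨false,0,⟨0,[]⟩,⟨0,[]⟩⟩,⟨false,0,⟨0,[]⟩,⟨0,[]⟩⟩,[.o
  ⟨false,0,⟨0,[(20,0)]⟩,⟨7,[(2,3),(10,3),(16,2),(0,2),(18,1)]⟩⟩,.o ⟨false,1,⟨1,[(43,0),(3,1),(2,
  0)]⟩,⟨0,[(48,0)]⟩⟩,.a ⟨true,0,⟨1,[(32,0),(8,0),(0,0)]⟩,⟨0,[(33,0)]⟩⟩ ⟨false,0,⟨0,[(8,0)]⟩,⟨1,[(30,
  0),(19,0)]⟩⟩ ⟨true,0,⟨0,[(20,0),(12,0)]⟩,⟨1,[(13,0),(18,0),(4,0),(10,0)]⟩⟩,.o ⟨false,0,⟨1,[(32,0),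
  (2,0),(2,0)]⟩,⟨1,[(33,1),(9,0),(5,0)]⟩⟩]⟩)))) (.R ⟨1,false,false,false,[1,-1],[0,-1,1],[0,1],(⟨0,
  [(41,0)]⟩,⟨0,[(42,0)]⟩),(⟨0,[(4,0)]⟩,⟨0,[(38,0),(3,0)]⟩),⟨0,[(4,0),(16,0)]⟩,.k,.k,(.r (-1) ⟨0,[(1,
  0),(0,0),(1,0),(12,0),(3,0),(8,0),(11,1)]⟩ ⟨2,[(12,1),(14,0),(0,0),(6,1),(9,5)]⟩),.k,.k,.k,⟨true,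
  0,⟨0,[(34,0),(0,0),(9,0)]⟩,⟨0,[(14,0)]⟩⟩,⟨false,1,⟨0,[(10,0),(11,0),(26,0)]⟩,⟨0,[(24,0)]⟩⟩,⟨false,
  0,⟨5,[(12,1),(14,0),(0,0),(6,1),(9,5)]⟩,⟨1,[(8,0),(38,0)]⟩⟩,⟨true,0,⟨0,[(10,0),(33,0)]⟩,⟨0,[(31,
  0)]⟩⟩,⟨false,0,⟨5,[(12,1),(14,0),(0,0),(6,1),(9,11)]⟩,⟨0,[(14,0),(7,0)]⟩⟩,⟨false,0,⟨0,[(10,0)]⟩,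
  ⟨0,[(22,0),(9,0)]⟩⟩,[.a ⟨true,0,⟨0,[(0,0),(29,0)]⟩,⟨0,[(16,0)]⟩⟩ ⟨true,0,⟨0,[(49,0)]⟩,⟨0,[(43,
  0)]⟩⟩ ⟨false,1,⟨1,[(0,0),(1,0),(4,0),(2,0),(19,0)]⟩,⟨8,[(11,1),(0,0),(2,0),(0,6),(14,2),(3,1),(4,
  2)]⟩⟩,.o ⟨false,1,⟨0,[(23,0),(23,0)]⟩,⟨0,[(31,0),(13,0)]⟩⟩,.o ⟨false,0,⟨8,[(11,1),(0,0),(2,0),(1,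
  1),(13,0),(3,1),(4,2)]⟩,⟨3,[(27,0),(0,0),(17,1)]⟩⟩,.o ⟨false,0,⟨0,[(32,0),(2,0)]⟩,⟨0,[(46,
  0)]⟩⟩]⟩)))) (.Q [0,1,0,0,0,0,-1,-1,-1,-1,1,1] (.p true [0,0,1] [1,0,0,-1] (⟨0,[(36,0)]⟩,⟨0,[(35,
  0)]⟩) .k 2 (⟨1,[(26,0),(8,0),(0,0)]⟩,⟨0,[(27,0)]⟩) .k (.r 0 ⟨0,[(2,0),(31,0)]⟩ ⟨3,[(12,0),(9,1),
  (1,1),(6,0),(0,0)]⟩)) (.R ⟨1,false,false,false,[1,0,0,-1],[0,0,1],[1,0,1],(⟨1,[(27,0),(8,0),(0,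
  0)]⟩,⟨0,[(28,0)]⟩),(⟨0,[(37,0)]⟩,⟨0,[(36,0)]⟩),⟨1,[(2,0),(16,0),(7,0)]⟩,.k,.k,(.r (-1) ⟨1,[(6,0),
  (18,0)]⟩ ⟨2,[(4,0),(4,0),(4,0),(11,0),(6,0),(9,0)]⟩),.k,(.r (-1) ⟨0,[(1,0),(9,0),(1,0)]⟩ ⟨4,[(4,
  0),(4,1),(16,1),(4,0),(2,0),(0,1),(7,2)]⟩),.k,⟨true,0,⟨1,[(13,0),(18,0),(0,0)]⟩,⟨0,[(35,0)]⟩⟩,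
  ⟨false,1,⟨1,[(8,0),(11,0),(2,0),(3,0),(3,0)]⟩,⟨0,[(22,0),(5,0)]⟩⟩,⟨false,0,⟨3,[(3,1),(5,0),(2,0),
  (0,1),(12,0)]⟩,⟨1,[(25,0),(18,0)]⟩⟩,⟨true,0,⟨1,[(3,1),(4,0),(12,0),(5,0)]⟩,⟨0,[(0,0)]⟩⟩,⟨false,0,
  ⟨2,[(3,0),(3,0),(1,0),(3,0),(0,0),(11,0)]⟩,⟨1,[(6,0),(18,0)]⟩⟩,⟨false,0,⟨1,[(3,1),(3,0),(0,0),(18,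
  0)]⟩,⟨0,[(0,0),(41,0),(2,0)]⟩⟩,[.o ⟨false,0,⟨0,[(17,0)]⟩,⟨1,[(32,1),(5,0),(6,0)]⟩⟩,.o ⟨false,1,⟨3,
  [(17,3),(7,0),(0,0),(18,1)]⟩,⟨0,[(29,0)]⟩⟩,.a ⟨true,0,⟨0,[(28,0)]⟩,⟨1,[(27,0),(8,0),(0,0)]⟩⟩
  ⟨false,0,⟨0,[(41,0)]⟩,⟨3,[(25,0),(0,0),(17,1)]⟩⟩ ⟨true,0,⟨1,[(8,0),(12,0),(5,0)]⟩,⟨0,[(0,0),(2,
  0)]⟩⟩,.o ⟨false,0,⟨8,[(0,0),(2,0),(5,1),(0,0),(2,0),(1,1),(12,7),(4,1),(4,2)]⟩,⟨7,[(25,0),(0,0),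
  (0,3),(10,1),(5,3)]⟩⟩]⟩) (.R ⟨1,false,false,true,[1,0,0,-1],[0,0,0,1],[0,1,0,0,0,0,0,0,-1],(⟨1,
  [(27,0),(8,0),(0,0)]⟩,⟨0,[(28,0)]⟩),(⟨0,[(28,0)]⟩,⟨1,[(27,0),(8,0),(0,0)]⟩),⟨1,[(2,0),(16,0),(7,
  0)]⟩,.k,.k,(.r (-1) ⟨1,[(6,0),(18,0)]⟩ ⟨2,[(4,0),(4,0),(4,0),(11,0),(6,0),(9,0)]⟩),.k,(.r (-1) ⟨3,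
  [(1,5),(4,2),(0,1),(4,1),(0,1),(0,1),(10,0)]⟩ ⟨2,[(3,2),(0,0),(4,0),(4,0),(11,0),(6,0),(9,0)]⟩),
  .k,⟨false,1,⟨7,[(1,9),(4,4),(0,5),(4,1),(0,1),(0,5),(10,2)]⟩,⟨0,[(3,1)]⟩⟩,⟨true,0,⟨0,[(27,0)]⟩,⟨8,
  [(9,1),(0,0),(2,0),(1,1),(12,17),(0,0),(3,1),(4,2)]⟩⟩,⟨true,0,⟨0,[(47,0)]⟩,⟨0,[]⟩⟩,⟨false,0,⟨0,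
  [(3,1),(23,0)]⟩,⟨1,[(1,1),(4,0),(0,1),(5,1),(8,1),(2,0),(2,3)]⟩⟩,⟨false,0,⟨0,[(43,0)]⟩,⟨0,[(42,0),
  (2,0)]⟩⟩,⟨false,0,⟨0,[(3,1),(23,0),(15,0)]⟩,⟨4,[(1,5),(4,2),(0,3),(4,1),(0,5),(1,0),(6,3),(2,1),
  (2,9)]⟩⟩,[.o ⟨false,0,⟨4,[(0,0),(3,3),(2,0),(7,0),(11,1),(1,1)]⟩,⟨3,[(6,0),(0,1),(5,1),(8,1),(2,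
  1),(2,3),(9,0)]⟩⟩,.o ⟨false,0,⟨0,[(0,0),(28,0)]⟩,⟨1,[(25,0),(2,1),(9,0)]⟩⟩,.a ⟨true,0,⟨0,[(28,
  0)]⟩,⟨1,[(27,0),(8,0),(0,0)]⟩⟩ ⟨true,0,⟨0,[(1,0)]⟩,⟨0,[(3,0)]⟩⟩ ⟨false,0,⟨0,[(3,0),(23,0)]⟩,⟨3,
  [(6,0),(0,1),(5,1),(8,1),(2,1),(2,7),(9,0)]⟩⟩,.o ⟨false,0,⟨8,[(9,1),(0,0),(2,0),(1,1),(12,8),(0,
  0),(3,1),(4,2)]⟩,⟨7,[(25,0),(0,0),(0,3),(10,1),(5,3)]⟩⟩]⟩)))) (.Q [0,1,0,0,0,0,0,0,1,0,0,-1] (.p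
  false [0,0,0,1] [] (⟨0,[(25,0)]⟩,⟨1,[(24,0),(8,0),(0,0)]⟩) .k 0 (⟨0,[]⟩,⟨0,[]⟩) .k .k) (.Q [0,-1,
  0,1,0,0,0,0,-1,0,0,1] (.p true [0,0,0,1] [] (⟨0,[(26,0)]⟩,⟨1,[(25,0),(8,0),(0,0)]⟩) .k 0 (⟨0,[]⟩,
  ⟨0,[]⟩) .k .k) (.R ⟨2,true,false,true,[0,1],[0,0,0,1],[1,1,1],(⟨0,[]⟩,⟨0,[]⟩),(⟨0,[(27,0)]⟩,⟨1,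
  [(26,0),(8,0),(0,0)]⟩),⟨0,[]⟩,.k,.k,.k,(.r 0 ⟨2,[(2,0),(6,0),(14,0),(7,0),(9,2)]⟩ ⟨1,[(5,0),(19,
  0)]⟩),.k,.k,⟨false,0,⟨0,[(2,0)]⟩,⟨1,[(25,0),(17,0)]⟩⟩,⟨true,0,⟨1,[(26,0),(2,0),(2,0)]⟩,⟨0,[(27,
  0)]⟩⟩,⟨true,0,⟨0,[(41,0)]⟩,⟨0,[(42,0)]⟩⟩,⟨false,1,⟨1,[(14,0),(10,0),(0,0),(14,0),(2,0)]⟩,⟨0,[(0,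
  0)]⟩⟩,⟨false,0,⟨0,[]⟩,⟨3,[(24,0),(0,0),(18,1)]⟩⟩,⟨true,0,⟨0,[(1,0)]⟩,⟨0,[(0,0),(40,0)]⟩⟩,[]⟩) (.Q
  [0,0,0,0,0,0,0,0,1,1,0,-1] (.p false [0,0,0,1] [1] (⟨0,[(27,0)]⟩,⟨1,[(26,0),(8,0),(0,0)]⟩) .k 1
  (⟨0,[]⟩,⟨0,[]⟩) .k .k) (.R ⟨2,false,false,false,[0,1],[1,0,0,-1],[1,1,1],(⟨0,[]⟩,⟨0,[]⟩),(⟨1,[(27,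
  0),(8,0),(0,0)]⟩,⟨0,[(28,0)]⟩),⟨0,[]⟩,.k,.k,.k,(.r 0 ⟨2,[(4,0),(4,0),(4,0),(11,0),(6,0),(9,0)]⟩
  ⟨1,[(6,0),(18,0)]⟩),.k,.k,⟨false,0,⟨0,[(4,0)]⟩,⟨1,[(3,1),(40,0),(0,0)]⟩⟩,⟨true,0,⟨8,[(9,1),(0,0),
  (2,0),(1,1),(12,8),(0,0),(3,1),(4,2)]⟩,⟨1,[(27,0),(8,0),(0,0)]⟩⟩,⟨true,0,⟨0,[(42,0)]⟩,⟨0,[(43,
  0)]⟩⟩,⟨false,1,⟨3,[(3,1),(2,0),(5,1),(0,1),(11,0),(2,3),(9,1)]⟩,⟨0,[(0,0),(42,0)]⟩⟩,⟨false,0,⟨0,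
  []⟩,⟨3,[(25,0),(0,0),(18,1)]⟩⟩,⟨false,1,⟨1,[(3,1),(24,1),(9,0),(6,0)]⟩,⟨0,[(0,0)]⟩⟩,[.a ⟨true,0,
  ⟨0,[(3,0),(24,0)]⟩,⟨0,[(0,0)]⟩⟩ ⟨false,0,⟨0,[(47,0)]⟩,⟨1,[(44,0),(0,0)]⟩⟩ ⟨true,0,⟨8,[(3,8),(5,1),
  (0,0),(2,0),(1,1),(12,8),(0,0),(3,1),(4,2)]⟩,⟨0,[(0,0)]⟩⟩,.o ⟨false,1,⟨1,[(3,1),(24,1),(9,0),(6,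
  0)]⟩,⟨0,[(2,0)]⟩⟩,.o ⟨false,1,⟨3,[(25,0),(0,0),(17,1)]⟩,⟨8,[(9,1),(0,0),(2,0),(1,1),(13,0),(3,1),
  (4,2)]⟩⟩,.e ⟨false,0,⟨0,[]⟩,⟨3,[(25,0),(0,0),(18,1)]⟩⟩ ⟨false,1,⟨1,[(3,1),(24,1),(9,0),(6,0)]⟩,⟨0,
  [(0,0)]⟩⟩]⟩) (.R ⟨2,true,false,false,[0,1],[1,0,0,-1],[1,1,1],(⟨0,[]⟩,⟨0,[]⟩),(⟨1,[(27,0),(8,0),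
  (0,0)]⟩,⟨0,[(28,0)]⟩),⟨0,[]⟩,.k,.k,.k,(.r 0 ⟨2,[(4,0),(4,0),(4,0),(11,0),(6,0),(9,0)]⟩ ⟨1,[(6,0),
  (18,0)]⟩),.k,.k,⟨false,0,⟨0,[(4,0)]⟩,⟨1,[(3,1),(40,0),(0,0)]⟩⟩,⟨true,0,⟨5,[(0,4),(3,0),(4,0),(0,
  0),(2,0),(1,0),(10,1),(1,0),(4,0)]⟩,⟨1,[(27,0),(8,0),(0,0)]⟩⟩,⟨true,0,⟨0,[(42,0)]⟩,⟨0,[(43,0)]⟩⟩,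
  ⟨false,1,⟨0,[(0,0),(41,0),(2,0)]⟩,⟨0,[(1,0),(6,0),(5,0)]⟩⟩,⟨false,0,⟨0,[]⟩,⟨3,[(25,0),(0,0),(18,
  1)]⟩⟩,⟨true,0,⟨0,[(0,0)]⟩,⟨1,[(4,1),(22,0),(8,0),(0,0)]⟩⟩,[]⟩))) (.K ⟨1,[1,0,0,-1],0,0,(⟨1,[(25,
  0),(8,0),(0,0)]⟩,⟨0,[(26,0)]⟩),.k,(.r (-1) ⟨1,[(4,0),(18,0)]⟩ ⟨2,[(2,0),(4,0),(4,0),(11,0),(6,0),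
  (9,0)]⟩),(.r 0 ⟨2,[(1,0),(6,0),(14,0),(7,0),(9,2)]⟩ ⟨1,[(4,0),(19,0)]⟩),.k,.k,[⟨5,[(8,1),(14,0),
  (0,0),(0,2),(5,1),(2,2),(0,2)]⟩,⟨8,[(7,1),(0,0),(2,0),(1,1),(12,8),(0,0),(3,1),(4,2)]⟩,⟨1,[(2,1),
  (22,0),(8,0),(0,0)]⟩,⟨0,[(0,0)]⟩]⟩)))))))

theorem ok61 : chk (cU (-1) false 2) t61 l42 = true := by decide +kernel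

noncomputable def t67 : Tre :=
  (.I [0,0,-1,-1,0,0,0,1,-1] (.Q [0,0,0,0,0,1,0,0,0,0,0,-1] (.p false [0,0,0,1] [] (⟨0,[(21,0)]⟩,⟨1,
  [(20,0),(8,0),(0,0)]⟩) .k 0 (⟨0,[]⟩,⟨0,[]⟩) .k .k) (.I [0,0,-1,-1,1,0,0,0,1] (.R ⟨0,false,false,
  true,[0,0,0,1],[1,-1,1],[1,0,0,0,0,0,0,0,1],(⟨0,[(23,0)]⟩,⟨1,[(22,0),(8,0),(0,0)]⟩),(⟨0,[(32,0),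
  (1,0)]⟩,⟨0,[(4,0)]⟩),⟨0,[(1,0)]⟩,.k,.k,(.r (-1) ⟨0,[(0,0)]⟩ ⟨1,[(2,1),(6,1),(18,2),(0,0),(8,1)]⟩),
  (.r (-1) ⟨3,[(9,3),(10,0),(0,2),(6,3)]⟩ ⟨0,[(2,0)]⟩),.k,.k,⟨false,1,⟨5,[(5,1),(2,3),(0,1),(11,2),
  (16,3),(1,0)]⟩,⟨0,[(2,0),(39,0)]⟩⟩,⟨true,0,⟨0,[(8,0),(1,0),(1,0),(10,0),(14,0)]⟩,⟨5,[(3,1),(18,2),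
  (6,1),(1,0),(0,4),(1,1)]⟩⟩,⟨true,0,⟨0,[]⟩,⟨0,[(42,0)]⟩⟩,⟨false,0,⟨0,[(2,0),(5,0),(1,0),(1,0),(10,
  0),(14,0)]⟩,⟨1,[(9,1),(11,0),(0,0),(8,0),(0,0),(7,0)]⟩⟩,⟨false,0,⟨0,[]⟩,⟨0,[]⟩⟩,⟨false,0,⟨0,[]⟩,
  ⟨0,[]⟩⟩,[.o ⟨false,0,⟨0,[(10,0),(1,0)]⟩,⟨3,[(9,3),(10,0),(0,0),(18,1)]⟩⟩,.o ⟨false,1,⟨1,[(16,1),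
  (16,0),(6,0)]⟩,⟨0,[(9,0)]⟩⟩,.a ⟨true,0,⟨1,[(22,0),(8,0),(0,0)]⟩,⟨0,[(23,0)]⟩⟩ ⟨false,1,⟨1,[(21,0),
  (18,0)]⟩,⟨0,[(2,0),(6,0),(18,0)]⟩⟩ ⟨true,0,⟨0,[(10,0),(1,0),(10,0)]⟩,⟨1,[(9,1),(12,0),(8,0),(0,
  0)]⟩⟩,.o ⟨false,0,⟨1,[(22,0),(2,0),(2,0)]⟩,⟨1,[(23,1),(9,0),(5,0)]⟩⟩]⟩) (.R ⟨0,false,false,true,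
  [0,0,0,1],[1,-1,1],[1,0,0,0,0,0,0,0,1],(⟨0,[(23,0)]⟩,⟨1,[(22,0),(8,0),(0,0)]⟩),(⟨0,[(32,0),(1,
  0)]⟩,⟨0,[(4,0)]⟩),⟨0,[(1,0)]⟩,.k,.k,(.x 0 ⟨0,[(17,0),(10,0),(5,0)]⟩ ⟨3,[(20,0),(0,0),(13,3),(3,
  1)]⟩),(.r (-1) ⟨3,[(9,3),(10,0),(0,2),(6,3)]⟩ ⟨0,[(2,0)]⟩),.k,.k,⟨false,1,⟨5,[(5,1),(2,3),(0,1),
  (11,2),(16,3),(1,0)]⟩,⟨0,[(2,0),(39,0)]⟩⟩,⟨true,0,⟨7,[(0,5),(4,1),(2,5),(1,5),(1,5),(8,2),(1,7),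
  (9,0)]⟩,⟨5,[(3,1),(18,2),(6,1),(1,0),(0,4),(1,1)]⟩⟩,⟨true,0,⟨0,[]⟩,⟨0,[(42,0)]⟩⟩,⟨false,0,⟨9,[(0,
  2),(1,6),(2,0),(2,5),(1,5),(1,8),(10,9),(9,1)]⟩,⟨1,[(9,1),(11,0),(0,0),(8,0),(0,0),(7,0)]⟩⟩,
  ⟨false,0,⟨0,[]⟩,⟨0,[]⟩⟩,⟨false,0,⟨0,[]⟩,⟨0,[]⟩⟩,[.o ⟨false,0,⟨0,[(10,0),(1,0)]⟩,⟨3,[(9,3),(10,0),
  (0,0),(18,1)]⟩⟩,.o ⟨false,1,⟨1,[(16,1),(16,0),(6,0)]⟩,⟨0,[(9,0)]⟩⟩,.a ⟨true,0,⟨1,[(22,0),(8,0),(0,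
  0)]⟩,⟨0,[(23,0)]⟩⟩ ⟨false,1,⟨1,[(21,0),(18,0)]⟩,⟨4,[(0,1),(1,0),(12,0),(4,0)]⟩⟩ ⟨true,0,⟨0,[(10,
  0),(1,0),(10,0)]⟩,⟨1,[(9,1),(12,0),(8,0),(0,0)]⟩⟩,.o ⟨false,0,⟨1,[(22,0),(2,0),(2,0)]⟩,⟨1,[(23,1),
  (9,0),(5,0)]⟩⟩]⟩)) (.R ⟨1,false,false,true,[0,0,0,1],[1,-1,1],[0,0,0,0,0,0,0,0,1],(⟨0,[(22,0)]⟩,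
  ⟨1,[(21,0),(8,0),(0,0)]⟩),(⟨0,[(31,0),(1,0)]⟩,⟨0,[(3,0)]⟩),⟨0,[(0,0)]⟩,.k,.k,(.x 0 ⟨1,[(0,1),(20,
  0),(2,0),(2,0)]⟩ ⟨3,[(19,0),(0,0),(13,3),(3,1)]⟩),(.r (-1) ⟨3,[(8,3),(10,0),(0,2),(6,3)]⟩ ⟨0,[(1,
  0)]⟩),.k,.k,⟨false,1,⟨5,[(4,1),(2,3),(0,1),(11,2),(16,3),(1,0)]⟩,⟨0,[(1,0),(39,0)]⟩⟩,⟨true,0,⟨0,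
  [(7,0),(1,0),(1,0),(10,0),(14,0)]⟩,⟨5,[(2,1),(18,2),(6,1),(1,0),(0,4),(1,1)]⟩⟩,⟨false,1,⟨3,[(19,
  0),(0,0),(18,1)]⟩,⟨0,[]⟩⟩,⟨false,0,⟨0,[(1,0),(5,0),(1,0),(1,0),(10,0),(14,0)]⟩,⟨1,[(8,1),(11,0),
  (0,0),(8,0),(0,0),(7,0)]⟩⟩,⟨true,0,⟨0,[(37,0)]⟩,⟨0,[(36,0)]⟩⟩,⟨false,0,⟨0,[(1,0),(5,0),(1,0),(1,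
  0),(10,0),(14,1)]⟩,⟨5,[(2,1),(4,2),(0,0),(5,0),(5,2),(0,2),(4,0),(3,0),(0,4),(1,1),(5,1)]⟩⟩,[.o
  ⟨false,0,⟨0,[(9,0),(1,0)]⟩,⟨3,[(8,3),(10,0),(0,0),(18,1)]⟩⟩,.o ⟨false,1,⟨1,[(15,1),(16,0),(6,0)]⟩,
  ⟨0,[(8,0)]⟩⟩,.a ⟨true,0,⟨1,[(21,0),(8,0),(0,0)]⟩,⟨0,[(22,0)]⟩⟩ ⟨false,1,⟨1,[(20,0),(18,0)]⟩,⟨0,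
  [(1,0),(6,0),(18,0)]⟩⟩ ⟨true,0,⟨0,[(9,0),(1,0),(10,0)]⟩,⟨1,[(8,1),(12,0),(8,0),(0,0)]⟩⟩,.o ⟨false,
  0,⟨1,[(21,0),(2,0),(2,0)]⟩,⟨1,[(22,1),(9,0),(5,0)]⟩⟩]⟩)) (.Q [0,-1,0,1,0,0,1,1,0,1,-1] (.p false
  [0,0,1] [1] (⟨0,[(30,0)]⟩,⟨0,[(29,0)]⟩) .k 1 (⟨0,[]⟩,⟨0,[]⟩) .k .k) (.Q [0,1,0,-1,0,0,-1,-1,0,0,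
  1] (.p true [0,0,1] [] (⟨0,[(31,0)]⟩,⟨0,[(30,0)]⟩) .k 0 (⟨0,[]⟩,⟨0,[]⟩) .k .k) (.R ⟨0,false,false,
  false,[0,1,-1],[0,1,1],[1,0,1,1,0,0,0,1],(⟨0,[(4,0)]⟩,⟨0,[(32,0),(1,0)]⟩),(⟨0,[(32,0),(2,0)]⟩,⟨0,
  [(14,0)]⟩),⟨0,[(32,0)]⟩,.k,.k,.k,.k,.k,.k,⟨true,0,⟨0,[]⟩,⟨1,[(28,0),(0,0)]⟩⟩,⟨false,1,⟨0,[(5,0),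
  (22,0)]⟩,⟨4,[(3,1),(15,1),(9,1),(2,3),(1,1)]⟩⟩,⟨false,0,⟨1,[(1,0),(5,0),(9,0),(12,1)]⟩,⟨1,[(8,0),
  (9,1),(8,0),(0,0)]⟩⟩,⟨true,0,⟨0,[(12,1)]⟩,⟨0,[(0,0),(8,0)]⟩⟩,⟨false,0,⟨0,[]⟩,⟨0,[]⟩⟩,⟨false,0,⟨0,
  []⟩,⟨0,[]⟩⟩,[.o ⟨false,0,⟨0,[(12,0),(25,0)]⟩,⟨0,[(15,0),(9,0)]⟩⟩,.a ⟨true,0,⟨0,[(1,0)]⟩,⟨0,[(0,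
  0)]⟩⟩ ⟨false,0,⟨0,[(1,0),(15,0)]⟩,⟨0,[(15,0),(26,0)]⟩⟩ ⟨true,0,⟨0,[(8,0),(3,1),(25,0)]⟩,⟨4,[(0,4),
  (2,0),(15,0),(9,0),(2,1),(1,0)]⟩⟩,.o ⟨false,1,⟨0,[(29,0),(9,0)]⟩,⟨0,[(8,0),(1,0),(1,0),(25,0)]⟩⟩,
  .o ⟨false,0,⟨4,[(3,0),(15,0),(9,0),(2,1),(1,0)]⟩,⟨11,[(5,3),(14,0),(0,0),(6,7),(4,5)]⟩⟩]⟩) (.I [0,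
  0,-1,-1,0,0,0,0,1] (.Q [0,0,0,0,0,1,0,0,0,0,0,-1] (.p false [0,0,0,1] [] (⟨0,[(24,0)]⟩,⟨1,[(23,0),
  (8,0),(0,0)]⟩) .k 0 (⟨0,[]⟩,⟨0,[]⟩) .k .k) (.R ⟨0,false,false,true,[0,0,0,1],[1,0,-1],[1,0,0,0,0,
  0,0,0,1],(⟨0,[(25,0)]⟩,⟨1,[(24,0),(8,0),(0,0)]⟩),(⟨0,[(33,0)]⟩,⟨0,[(34,0)]⟩),⟨0,[(0,0)]⟩,.k,.k,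
  (.r 0 ⟨0,[(1,0)]⟩ ⟨7,[(3,1),(0,3),(17,6),(0,0),(3,1),(0,1),(2,1),(8,1)]⟩),.k,.k,.k,⟨false,0,⟨1,
  [(1,1),(0,0),(0,0),(17,0)]⟩,⟨1,[(20,0),(1,0),(6,0),(0,0),(13,0)]⟩⟩,⟨true,0,⟨0,[(19,0),(5,0)]⟩,⟨1,
  [(24,0),(5,1),(2,0),(0,0)]⟩⟩,⟨true,0,⟨0,[]⟩,⟨0,[(44,0)]⟩⟩,⟨false,1,⟨3,[(10,0),(0,0),(5,0),(3,0),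
  (0,1),(2,3),(0,0),(8,0)]⟩,⟨1,[(1,0),(1,0),(0,0),(4,0),(4,0),(9,0)]⟩⟩,⟨false,0,⟨0,[]⟩,⟨0,[]⟩⟩,
  ⟨false,0,⟨0,[]⟩,⟨0,[]⟩⟩,[.o ⟨false,0,⟨0,[(26,0)]⟩,⟨3,[(14,3),(7,0),(0,0),(18,1)]⟩⟩,.o ⟨false,1,⟨1,
  [(29,1),(5,0),(6,0)]⟩,⟨0,[(14,0)]⟩⟩,.a ⟨true,0,⟨1,[(24,0),(8,0),(0,0)]⟩,⟨0,[(25,0)]⟩⟩ ⟨false,0,
  ⟨11,[(1,7),(0,2),(0,2),(0,3),(4,1),(0,3),(10,2)]⟩,⟨3,[(22,2),(0,0)]⟩⟩ ⟨true,0,⟨0,[(25,0),(0,0)]⟩,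
  ⟨1,[(3,0),(14,0),(5,0)]⟩⟩,.o ⟨false,0,⟨1,[(24,0),(2,0),(2,0)]⟩,⟨1,[(25,1),(9,0),(5,0)]⟩⟩]⟩) (.R
  ⟨1,false,false,true,[0,0,0,1],[1,0,-1],[0,1,0,0,0,0,0,0,1],(⟨0,[(25,0)]⟩,⟨1,[(24,0),(8,0),(0,
  0)]⟩),(⟨0,[(33,0)]⟩,⟨0,[(34,0)]⟩),⟨0,[(0,0)]⟩,.k,.k,(.r 0 ⟨0,[(1,0)]⟩ ⟨7,[(3,1),(0,3),(17,6),(0,
  0),(3,1),(0,1),(2,1),(8,1)]⟩),.k,(.r 0 ⟨0,[(1,0),(30,0)]⟩ ⟨0,[(4,0),(17,0)]⟩),.k,⟨false,0,⟨0,[(1,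
  0),(30,0),(7,0)]⟩,⟨3,[(10,0),(9,1),(1,1),(6,0),(0,0)]⟩⟩,⟨true,0,⟨0,[(19,0),(5,0)]⟩,⟨1,[(24,0),(5,
  1),(2,0),(0,0)]⟩⟩,⟨true,0,⟨0,[(44,0)]⟩,⟨0,[]⟩⟩,⟨false,1,⟨3,[(10,0),(0,0),(5,0),(3,0),(0,1),(2,3),
  (0,0),(8,0)]⟩,⟨1,[(1,0),(1,0),(0,0),(4,0),(4,0),(9,0)]⟩⟩,⟨false,0,⟨0,[(40,0)]⟩,⟨0,[(39,0),(2,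
  0)]⟩⟩,⟨false,1,⟨1,[(11,1),(10,0),(2,1),(9,0)]⟩,⟨3,[(1,2),(1,1),(0,0),(4,2),(14,1),(5,1),(8,0)]⟩⟩,
  [.o ⟨false,0,⟨0,[(26,0)]⟩,⟨3,[(14,3),(7,0),(0,0),(18,1)]⟩⟩,.o ⟨false,1,⟨1,[(29,1),(5,0),(6,0)]⟩,
  ⟨0,[(14,0)]⟩⟩,.a ⟨true,0,⟨1,[(24,0),(8,0),(0,0)]⟩,⟨0,[(25,0)]⟩⟩ ⟨false,0,⟨1,[(1,0),(2,0),(27,0)]⟩,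
  ⟨1,[(22,0),(19,0)]⟩⟩ ⟨true,0,⟨0,[(25,0),(0,0)]⟩,⟨1,[(3,0),(14,0),(5,0)]⟩⟩,.o ⟨false,0,⟨1,[(24,0),
  (2,0),(2,0)]⟩,⟨1,[(25,1),(9,0),(5,0)]⟩⟩]⟩)) (.I [1,-1,1,1,0,0,0,-1,-1] (.I [1,0,0,0,0,0,0,0,-1]
  (.Q [0,0,0,-1,0,0,0,0,-1,-1,0,1] (.p true [0,0,0,1] [1] (⟨0,[(26,0)]⟩,⟨1,[(25,0),(8,0),(0,0)]⟩)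
  .k 1 (⟨0,[]⟩,⟨0,[]⟩) .k .k) (.Q [0,0,0,0,0,-1,0,0,0,1,0,-1] (.p false [0,0,0,1] [1] (⟨0,[(27,0)]⟩,
  ⟨1,[(26,0),(8,0),(0,0)]⟩) .k 1 (⟨0,[]⟩,⟨0,[]⟩) .k .k) (.Q [0,-1,0,0,0,0,0,0,-1,0,0,1] (.p true [0,
  0,0,1] [] (⟨0,[(28,0)]⟩,⟨1,[(27,0),(8,0),(0,0)]⟩) .k 0 (⟨0,[]⟩,⟨0,[]⟩) .k .k) (.R ⟨1,false,false,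
  true,[1,0,0,-1],[1,-1],[1,1,0,-1,0,0,0,0,-1],(⟨1,[(28,0),(8,0),(0,0)]⟩,⟨0,[(29,0)]⟩),(⟨0,[(40,
  0)]⟩,⟨0,[(41,0)]⟩),⟨0,[(1,0)]⟩,.k,.k,(.r (-1) ⟨2,[(3,0),(15,0),(1,0),(4,0)]⟩ ⟨0,[(8,0),(27,0)]⟩),
  (.r 0 ⟨0,[(0,0),(0,8),(4,5),(2,0),(4,1),(0,3),(0,8),(12,7),(8,1),(2,7)]⟩ ⟨0,[(8,0),(10,0)]⟩),.k,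
  .k,⟨false,0,⟨0,[(3,0)]⟩,⟨1,[(27,0),(17,0)]⟩⟩,⟨true,0,⟨1,[(28,0),(2,0),(2,0)]⟩,⟨0,[(29,0)]⟩⟩,⟨true,
  0,⟨0,[(43,0)]⟩,⟨0,[(44,0)]⟩⟩,⟨false,1,⟨1,[(16,0),(10,0),(0,0),(14,0),(2,0)]⟩,⟨0,[(0,0),(43,0)]⟩⟩,
  ⟨false,0,⟨0,[]⟩,⟨3,[(26,0),(0,0),(18,1)]⟩⟩,⟨false,1,⟨7,[(26,0),(0,4),(0,3),(10,1)]⟩,⟨0,[(0,0)]⟩⟩,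
  [.o ⟨false,0,⟨0,[(16,0)]⟩,⟨3,[(26,0),(0,0),(16,3),(1,1)]⟩⟩,.o ⟨false,1,⟨1,[(39,0),(3,1),(2,0)]⟩,
  ⟨0,[(44,0)]⟩⟩,.a ⟨true,0,⟨0,[(29,0)]⟩,⟨1,[(28,0),(8,0),(0,0)]⟩⟩ ⟨false,0,⟨1,[(0,0),(1,0),(25,0),
  (14,0)]⟩,⟨1,[(27,0),(16,1),(1,0)]⟩⟩ ⟨true,0,⟨1,[(16,0),(11,0),(14,0)]⟩,⟨0,[(29,0),(14,0)]⟩⟩,.o
  ⟨false,0,⟨1,[(2,0),(5,0),(9,0),(10,0),(1,0)]⟩,⟨7,[(26,0),(0,0),(0,3),(10,1),(5,3)]⟩⟩]⟩) (.R ⟨2,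
  true,false,true,[0,1],[0,0,0,1],[1,1,1],(⟨0,[]⟩,⟨0,[]⟩),(⟨0,[(29,0)]⟩,⟨1,[(28,0),(8,0),(0,0)]⟩),
  ⟨0,[]⟩,.k,.k,.k,(.r 0 ⟨0,[(0,7),(0,8),(0,8),(3,5),(2,0),(4,1),(0,3),(13,7),(8,1),(2,7)]⟩ ⟨0,[(8,
  0),(10,0)]⟩),.k,.k,⟨false,0,⟨0,[(3,0)]⟩,⟨1,[(27,0),(17,0)]⟩⟩,⟨true,0,⟨1,[(28,0),(2,0),(2,0)]⟩,⟨0,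
  [(29,0)]⟩⟩,⟨true,0,⟨0,[(43,0)]⟩,⟨0,[(44,0)]⟩⟩,⟨false,1,⟨1,[(16,0),(10,0),(0,0),(14,0),(2,0)]⟩,⟨0,
  [(2,0),(4,0),(7,0)]⟩⟩,⟨false,0,⟨0,[]⟩,⟨3,[(26,0),(0,0),(18,1)]⟩⟩,⟨true,0,⟨0,[(0,0)]⟩,⟨0,[(3,0),
  (25,0)]⟩⟩,[]⟩)) (.R ⟨0,false,false,true,[1,0,0,-1],[1,-1],[1,1,0,-1,0,0,0,0,-1],(⟨1,[(27,0),(8,0),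
  (0,0)]⟩,⟨0,[(28,0)]⟩),(⟨0,[(39,0)]⟩,⟨0,[(40,0)]⟩),⟨0,[(0,0)]⟩,.k,.k,(.r (-1) ⟨2,[(2,0),(15,0),(1,
  0),(4,0)]⟩ ⟨0,[(7,0),(27,0)]⟩),(.r 0 ⟨1,[(1,1),(3,11),(2,1),(4,3),(0,7),(0,15),(3,16),(7,0),(9,
  20),(2,14)]⟩ ⟨0,[(7,0),(10,0)]⟩),.k,.k,⟨false,0,⟨0,[(2,0)]⟩,⟨1,[(26,0),(17,0)]⟩⟩,⟨true,0,⟨1,[(27,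
  0),(2,0),(2,0)]⟩,⟨0,[(28,0)]⟩⟩,⟨true,0,⟨0,[(42,0)]⟩,⟨0,[(43,0)]⟩⟩,⟨false,1,⟨1,[(15,0),(10,0),(0,
  0),(14,0),(2,0)]⟩,⟨0,[(1,0),(4,0),(7,0)]⟩⟩,⟨false,0,⟨0,[]⟩,⟨0,[]⟩⟩,⟨false,0,⟨0,[]⟩,⟨0,[]⟩⟩,[.o
  ⟨false,0,⟨0,[(15,0)]⟩,⟨3,[(25,0),(0,0),(16,3),(1,1)]⟩⟩,.o ⟨false,1,⟨1,[(38,0),(3,1),(2,0)]⟩,⟨0,
  [(43,0)]⟩⟩,.a ⟨true,0,⟨0,[(28,0)]⟩,⟨1,[(27,0),(8,0),(0,0)]⟩⟩ ⟨false,0,⟨1,[(1,1),(25,0),(8,0),(0,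
  0)]⟩,⟨1,[(26,0),(16,1),(1,0)]⟩⟩ ⟨true,0,⟨1,[(15,0),(11,0),(14,0)]⟩,⟨0,[(28,0),(14,0)]⟩⟩,.o ⟨false,
  0,⟨1,[(1,0),(5,0),(9,0),(10,0),(1,0)]⟩,⟨7,[(25,0),(0,0),(0,3),(10,1),(5,3)]⟩⟩]⟩)) (.Q [0,0,0,0,0,
  1,0,0,0,0,0,-1] (.p false [0,0,0,1] [] (⟨0,[(27,0)]⟩,⟨1,[(26,0),(8,0),(0,0)]⟩) .k 0 (⟨0,[]⟩,⟨0,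
  []⟩) .k .k) (.R ⟨0,false,false,true,[0,0,0,1],[1,-1],[1,1],(⟨0,[(28,0)]⟩,⟨1,[(27,0),(8,0),(0,
  0)]⟩),(⟨0,[(39,0)]⟩,⟨0,[(40,0)]⟩),⟨0,[(0,0)]⟩,.k,.k,(.r (-1) ⟨0,[(7,0),(10,0)]⟩ ⟨0,[(2,0),(2,4),
  (2,0),(4,1),(0,2),(0,6),(3,6),(17,8),(2,5)]⟩),(.r 0 ⟨0,[(7,0),(27,0)]⟩ ⟨2,[(2,0),(15,0),(1,0),(4,
  0)]⟩),.k,.k,⟨false,0,⟨0,[(43,0)]⟩,⟨5,[(18,1),(1,1),(4,0),(0,0)]⟩⟩,⟨true,0,⟨9,[(3,0),(1,2),(1,0),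
  (5,0),(1,4),(12,9),(1,4),(2,1)]⟩,⟨1,[(27,0),(8,0),(0,0)]⟩⟩,⟨false,0,⟨0,[(2,0)]⟩,⟨1,[(26,0),(18,
  0)]⟩⟩,⟨true,0,⟨0,[(2,0),(12,0),(12,0)]⟩,⟨0,[(1,0)]⟩⟩,⟨false,0,⟨0,[]⟩,⟨0,[]⟩⟩,⟨false,0,⟨0,[]⟩,⟨0,
  []⟩⟩,[.o ⟨false,0,⟨0,[(15,0)]⟩,⟨3,[(25,0),(0,0),(16,3),(1,1)]⟩⟩,.o ⟨false,1,⟨1,[(38,0),(3,1),(2,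
  0)]⟩,⟨0,[(43,0)]⟩⟩,.a ⟨true,0,⟨1,[(27,0),(8,0),(0,0)]⟩,⟨0,[(28,0)]⟩⟩ ⟨false,0,⟨0,[]⟩,⟨3,[(25,0),
  (0,0),(18,1)]⟩⟩ ⟨true,0,⟨0,[(15,0),(12,0)]⟩,⟨1,[(6,0),(20,0),(4,0),(10,0)]⟩⟩,.o ⟨false,0,⟨1,[(27,
  0),(2,0),(2,0)]⟩,⟨1,[(28,1),(9,0),(5,0)]⟩⟩]⟩) (.Q [0,-1,0,2,0,0,0,0,1,1,0,-1] (.p false [0,0,0,1]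
  [1] (⟨0,[(28,0)]⟩,⟨1,[(27,0),(8,0),(0,0)]⟩) .k 1 (⟨0,[]⟩,⟨0,[]⟩) .k .k) (.R ⟨1,false,false,false,
  [1,0,0,-1],[0,1],[0,1,1],(⟨1,[(28,0),(8,0),(0,0)]⟩,⟨0,[(29,0)]⟩),(⟨0,[(41,0)]⟩,⟨0,[(40,0)]⟩),⟨0,
  [(1,0),(26,0)]⟩,.k,.k,(.r (-1) ⟨2,[(3,0),(15,0),(1,0),(4,0)]⟩ ⟨0,[(8,0),(27,0)]⟩),(.r (-1) ⟨2,[(3,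
  0),(15,0),(1,0),(4,0)]⟩ ⟨0,[(8,0),(27,0)]⟩),(.x 0 ⟨0,[(1,1),(26,0),(2,0),(2,0)]⟩ ⟨0,[(41,1),(3,
  0)]⟩),.k,⟨true,0,⟨0,[(43,0)]⟩,⟨7,[(0,0),(3,1),(1,0),(0,1),(0,0),(20,0),(1,2),(10,1)]⟩⟩,⟨false,1,
  ⟨1,[(7,0),(4,0),(15,0),(4,0),(11,0)]⟩,⟨9,[(4,0),(1,2),(1,0),(5,0),(1,4),(12,9),(1,4),(2,1)]⟩⟩,
  ⟨false,0,⟨7,[(2,0),(5,6),(4,3),(8,2),(2,0),(3,0),(5,0),(7,0)]⟩,⟨1,[(3,1),(41,0),(0,0)]⟩⟩,⟨true,0,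
  ⟨0,[(2,0)]⟩,⟨0,[(3,0),(12,0),(12,0)]⟩⟩,⟨false,0,⟨0,[(8,0),(27,0)]⟩,⟨0,[(4,0),(14,0)]⟩⟩,⟨false,0,
  ⟨0,[(0,0)]⟩,⟨3,[(13,1),(0,0),(1,3),(4,0),(4,1),(2,3),(13,0),(2,0)]⟩⟩,[.o ⟨false,0,⟨0,[(44,0)]⟩,⟨1,
  [(39,0),(3,1),(2,0)]⟩⟩,.o ⟨false,1,⟨3,[(26,0),(0,0),(16,3),(1,1)]⟩,⟨0,[(16,0)]⟩⟩,.a ⟨true,0,⟨0,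
  [(29,0)]⟩,⟨1,[(28,0),(8,0),(0,0)]⟩⟩ ⟨false,0,⟨1,[(34,0),(0,0)]⟩,⟨1,[(45,0),(0,0)]⟩⟩ ⟨true,0,⟨2,
  [(0,0),(2,0),(3,0),(20,0),(4,0),(14,0)]⟩,⟨0,[(16,0),(12,0)]⟩⟩,.o ⟨false,0,⟨9,[(4,0),(1,2),(1,0),
  (5,0),(1,4),(12,9),(1,4),(2,1)]⟩,⟨7,[(26,0),(0,0),(0,3),(10,1),(5,3)]⟩⟩]⟩) (.R ⟨1,false,false,
  true,[0,0,0,1],[1,-1],[1,1],(⟨0,[(29,0)]⟩,⟨1,[(28,0),(8,0),(0,0)]⟩),(⟨0,[(40,0)]⟩,⟨0,[(41,0)]⟩),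
  ⟨0,[(1,0)]⟩,.k,.k,(.r (-1) ⟨0,[(8,0),(10,0)]⟩ ⟨0,[(0,0),(0,14),(4,5),(2,0),(4,1),(0,3),(0,6),(11,
  7),(9,1),(2,13)]⟩),(.r 0 ⟨0,[(8,0),(27,0)]⟩ ⟨2,[(3,0),(15,0),(1,0),(4,0)]⟩),.k,.k,⟨false,0,⟨0,
  [(44,0)]⟩,⟨5,[(19,1),(1,1),(4,0),(0,0)]⟩⟩,⟨true,0,⟨1,[(0,0),(5,0),(1,0),(20,0),(1,0)]⟩,⟨1,[(28,0),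
  (8,0),(0,0)]⟩⟩,⟨false,0,⟨0,[(3,0)]⟩,⟨1,[(27,0),(18,0)]⟩⟩,⟨true,0,⟨0,[(0,0),(43,0)]⟩,⟨0,[(2,0)]⟩⟩,
  ⟨false,0,⟨0,[(3,0),(40,0)]⟩,⟨3,[(13,1),(0,0),(6,0),(5,1),(15,0),(2,0)]⟩⟩,⟨false,0,⟨0,[(0,0),(5,0),
  (8,0)]⟩,⟨1,[(27,0),(0,0),(8,0),(0,0),(7,0)]⟩⟩,[.o ⟨false,0,⟨0,[(16,0)]⟩,⟨3,[(26,0),(0,0),(16,3),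
  (1,1)]⟩⟩,.o ⟨false,1,⟨15,[(0,7),(25,0),(0,4),(0,3),(10,5),(6,3)]⟩,⟨0,[(44,0)]⟩⟩,.a ⟨true,0,⟨1,
  [(28,0),(8,0),(0,0)]⟩,⟨0,[(29,0)]⟩⟩ ⟨false,0,⟨0,[]⟩,⟨3,[(26,0),(0,0),(18,1)]⟩⟩ ⟨true,0,⟨0,[(16,0),
  (12,0)]⟩,⟨1,[(7,0),(20,0),(4,0),(10,0)]⟩⟩,.o ⟨false,0,⟨1,[(28,0),(2,0),(2,0)]⟩,⟨1,[(29,1),(9,0),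
  (5,0)]⟩⟩]⟩)))) (.Q [0,-1,0,1,0,0,0,0,1,1,0,-1] (.p false [0,0,0,1] [1] (⟨0,[(26,0)]⟩,⟨1,[(25,0),
  (8,0),(0,0)]⟩) .k 1 (⟨0,[]⟩,⟨0,[]⟩) .k .k) (.Q [0,0,0,0,0,1,0,0,0,0,0,-1] (.p false [0,0,0,1] []
  (⟨0,[(27,0)]⟩,⟨1,[(26,0),(8,0),(0,0)]⟩) .k 0 (⟨0,[]⟩,⟨0,[]⟩) .k .k) (.R ⟨0,false,false,true,[0,0,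
  0,1],[1,-1],[0,1,0,0,0,0,0,0,1],(⟨0,[(28,0)]⟩,⟨1,[(27,0),(8,0),(0,0)]⟩),(⟨0,[(39,0)]⟩,⟨0,[(40,
  0)]⟩),⟨0,[(0,0)]⟩,.k,.k,(.r (-1) ⟨2,[(2,0),(15,0),(1,0),(5,0)]⟩ ⟨0,[(3,0),(1,3),(2,0),(4,0),(0,1),
  (0,5),(3,5),(17,7),(2,4)]⟩),(.r 0 ⟨0,[(7,0),(27,0)]⟩ ⟨2,[(3,0),(7,0),(6,0),(6,0),(16,0)]⟩),.k,.k,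
  ⟨false,0,⟨0,[(2,0),(40,0)]⟩,⟨2,[(3,0),(7,0),(6,0),(6,0),(16,0)]⟩⟩,⟨true,0,⟨9,[(3,0),(1,2),(1,0),
  (5,0),(1,4),(12,9),(1,4),(2,1)]⟩,⟨1,[(27,0),(8,0),(0,0)]⟩⟩,⟨true,0,⟨0,[(47,0)]⟩,⟨0,[]⟩⟩,⟨false,1,
  ⟨1,[(15,1),(9,0),(2,1),(16,0)]⟩,⟨0,[(1,0)]⟩⟩,⟨false,0,⟨0,[]⟩,⟨0,[]⟩⟩,⟨false,0,⟨0,[]⟩,⟨0,[]⟩⟩,[.o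
  ⟨false,0,⟨0,[(15,0)]⟩,⟨3,[(25,0),(0,0),(16,3),(1,1)]⟩⟩,.o ⟨false,1,⟨1,[(38,0),(3,1),(2,0)]⟩,⟨0,
  [(43,0)]⟩⟩,.a ⟨true,0,⟨1,[(27,0),(8,0),(0,0)]⟩,⟨0,[(28,0)]⟩⟩ ⟨false,0,⟨0,[(2,0)]⟩,⟨1,[(25,0),(19,
  0)]⟩⟩ ⟨true,0,⟨0,[(15,0),(12,0)]⟩,⟨1,[(6,0),(20,0),(4,0),(10,0)]⟩⟩,.o ⟨false,0,⟨1,[(27,0),(2,0),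
  (2,0)]⟩,⟨1,[(28,1),(9,0),(5,0)]⟩⟩]⟩) (.Q [0,1,0,0,0,0,0,0,-1,0,0,1] (.p true [0,0,0,1] [] (⟨0,
  [(28,0)]⟩,⟨1,[(27,0),(8,0),(0,0)]⟩) .k 0 (⟨0,[]⟩,⟨0,[]⟩) .k .k) (.Q [0,0,0,0,0,0,1,1,-1,0,-1,1]
  (.p false [0,0,1] [0,0,0,1] (⟨0,[(38,0)]⟩,⟨0,[(37,0)]⟩) .k 2 (⟨0,[(29,0)]⟩,⟨1,[(28,0),(8,0),(0,
  0)]⟩) .k (.r 0 ⟨1,[(0,1),(5,0),(6,0),(9,0),(4,0)]⟩ ⟨7,[(8,3),(12,3),(4,0),(0,2)]⟩)) (.R ⟨2,true,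
  false,true,[0,1],[1,0,0,-1],[0,1,1,1],(⟨0,[]⟩,⟨0,[]⟩),(⟨1,[(29,0),(8,0),(0,0)]⟩,⟨0,[(30,0)]⟩),⟨0,
  []⟩,.k,.k,.k,(.r 0 ⟨0,[(9,0),(27,0)]⟩ ⟨10,[(1,1),(3,2),(7,0),(3,0),(2,4),(1,1),(4,2),(1,0)]⟩),.k,
  .k,⟨false,0,⟨0,[(4,0),(40,0)]⟩,⟨10,[(1,1),(3,2),(7,0),(3,0),(2,4),(1,1),(4,2),(1,0)]⟩⟩,⟨true,0,⟨3,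
  [(0,0),(6,0),(1,0),(5,0),(1,1),(12,2),(1,1)]⟩,⟨1,[(29,0),(8,0),(0,0)]⟩⟩,⟨true,0,⟨0,[(49,0)]⟩,⟨0,
  []⟩⟩,⟨false,1,⟨1,[(17,1),(9,0),(2,1),(16,0)]⟩,⟨0,[(3,0)]⟩⟩,⟨false,0,⟨0,[(45,0)]⟩,⟨0,[(44,0),(2,
  0)]⟩⟩,⟨true,0,⟨0,[(0,0),(30,0)]⟩,⟨0,[(3,0),(40,0)]⟩⟩,[]⟩) (.R ⟨1,false,false,false,[0,0,0,1],[0,0,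
  1],[1,0,1],(⟨0,[(30,0)]⟩,⟨1,[(29,0),(8,0),(0,0)]⟩),(⟨0,[(39,0)]⟩,⟨0,[(38,0)]⟩),⟨0,[(2,0)]⟩,.k,.k,
  (.r (-1) ⟨2,[(4,0),(15,0),(1,0),(5,0)]⟩ ⟨0,[(0,0),(1,12),(2,1),(1,3),(2,0),(5,0),(0,5),(11,5),(9,
  1),(2,11)]⟩),.k,(.r (-1) ⟨0,[(4,0),(17,0)]⟩ ⟨0,[(6,0),(30,0)]⟩),.k,⟨true,0,⟨1,[(15,0),(18,0),(0,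
  0)]⟩,⟨0,[(37,0)]⟩⟩,⟨false,1,⟨5,[(12,3),(14,0),(0,0),(1,5),(4,1)]⟩,⟨1,[(26,0),(2,0)]⟩⟩,⟨false,0,⟨2,
  [(5,1),(0,0),(7,1),(29,0)]⟩,⟨1,[(28,0),(17,0)]⟩⟩,⟨false,1,⟨1,[(19,1),(7,0),(2,1),(16,0)]⟩,⟨0,[(0,
  0)]⟩⟩,⟨false,0,⟨7,[(5,3),(0,3),(0,0),(0,0),(5,1),(11,0)]⟩,⟨2,[(4,0),(15,0),(1,0),(5,0)]⟩⟩,⟨true,0,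
  ⟨0,[(1,0),(5,0)]⟩,⟨0,[(0,0),(43,0)]⟩⟩,[.o ⟨false,0,⟨0,[(19,0)]⟩,⟨1,[(34,1),(5,0),(6,0)]⟩⟩,.o
  ⟨false,1,⟨3,[(19,3),(7,0),(0,0),(18,1)]⟩,⟨0,[(31,0)]⟩⟩,.a ⟨true,0,⟨1,[(29,0),(8,0),(0,0)]⟩,⟨0,
  [(30,0)]⟩⟩ ⟨false,0,⟨0,[(43,0)]⟩,⟨3,[(27,0),(0,0),(17,1)]⟩⟩ ⟨true,0,⟨0,[(19,0),(10,0)]⟩,⟨1,[(29,
  0),(1,0),(2,0)]⟩⟩,.o ⟨false,0,⟨1,[(29,0),(2,0),(2,0)]⟩,⟨1,[(30,1),(9,0),(5,0)]⟩⟩]⟩)) (.R ⟨1,false,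
  false,true,[0,0,0,1],[1,-1],[0,1,0,0,0,0,0,0,1],(⟨0,[(29,0)]⟩,⟨1,[(28,0),(8,0),(0,0)]⟩),(⟨0,[(40,
  0)]⟩,⟨0,[(41,0)]⟩),⟨0,[(1,0)]⟩,.k,.k,(.r (-1) ⟨2,[(3,0),(15,0),(1,0),(5,0)]⟩ ⟨0,[(0,0),(0,14),(2,
  1),(1,3),(2,0),(5,1),(0,6),(11,6),(9,1),(2,13)]⟩),(.r 0 ⟨0,[(8,0),(27,0)]⟩ ⟨2,[(4,0),(7,0),(6,0),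
  (6,0),(16,0)]⟩),.k,.k,⟨false,0,⟨0,[(3,0),(40,0)]⟩,⟨2,[(4,0),(7,0),(6,0),(6,0),(16,0)]⟩⟩,⟨true,0,
  ⟨9,[(4,0),(1,2),(1,0),(5,0),(1,4),(12,9),(1,4),(2,1)]⟩,⟨1,[(28,0),(8,0),(0,0)]⟩⟩,⟨true,0,⟨0,[(48,
  0)]⟩,⟨0,[]⟩⟩,⟨false,1,⟨1,[(16,1),(9,0),(2,1),(16,0)]⟩,⟨0,[(2,0)]⟩⟩,⟨false,0,⟨0,[(44,0)]⟩,⟨0,[(43,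
  0),(2,0)]⟩⟩,⟨false,1,⟨1,[(26,0),(2,1),(9,0)]⟩,⟨0,[(0,0),(36,0),(0,0)]⟩⟩,[.o ⟨false,0,⟨0,[(16,0)]⟩,
  ⟨3,[(26,0),(0,0),(16,3),(1,1)]⟩⟩,.o ⟨false,1,⟨1,[(39,0),(3,1),(2,0)]⟩,⟨0,[(44,0)]⟩⟩,.a ⟨true,0,⟨1,
  [(28,0),(8,0),(0,0)]⟩,⟨0,[(29,0)]⟩⟩ ⟨false,0,⟨0,[(3,0)]⟩,⟨1,[(26,0),(19,0)]⟩⟩ ⟨true,0,⟨0,[(16,0),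
  (12,0)]⟩,⟨1,[(7,0),(20,0),(4,0),(10,0)]⟩⟩,.o ⟨false,0,⟨1,[(28,0),(2,0),(2,0)]⟩,⟨1,[(29,1),(9,0),
  (5,0)]⟩⟩]⟩))) (.Q [0,0,0,0,0,1,0,0,0,0,0,-1] (.p false [0,0,0,1] [] (⟨0,[(27,0)]⟩,⟨1,[(26,0),(8,
  0),(0,0)]⟩) .k 0 (⟨0,[]⟩,⟨0,[]⟩) .k .k) (.R ⟨0,false,false,true,[0,0,0,1],[1,-1],[0,1,-1,-1],(⟨0,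
  [(28,0)]⟩,⟨1,[(27,0),(8,0),(0,0)]⟩),(⟨0,[(39,0)]⟩,⟨0,[(40,0)]⟩),⟨0,[(0,0)]⟩,.k,.k,(.r (-1) ⟨2,[(2,
  0),(15,0),(1,0),(5,0)]⟩ ⟨1,[(1,13),(0,11),(2,9),(2,1),(4,3),(0,5),(4,6),(7,6),(9,10),(2,4)]⟩),(.r
  0 ⟨0,[(7,0),(27,0)]⟩ ⟨11,[(1,1),(1,1),(7,1),(6,3),(1,1),(4,3),(1,0),(8,0),(0,0)]⟩),.k,.k,⟨false,1,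
  ⟨3,[(25,0),(0,0),(17,1)]⟩,⟨0,[]⟩⟩,⟨true,0,⟨2,[(1,1),(3,0),(1,1),(4,0),(15,0),(1,0)]⟩,⟨1,[(27,0),
  (8,0),(0,0)]⟩⟩,⟨false,1,⟨11,[(1,1),(1,1),(7,1),(6,3),(1,1),(4,3),(1,0),(8,0),(0,0)]⟩,⟨3,[(5,0),(0,
  0),(0,3),(4,1),(11,0)]⟩⟩,⟨true,0,⟨0,[(1,0)]⟩,⟨1,[(2,1),(3,0),(20,0),(4,0),(10,0)]⟩⟩,⟨false,0,⟨0,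
  []⟩,⟨0,[]⟩⟩,⟨false,0,⟨0,[]⟩,⟨0,[]⟩⟩,[.o ⟨false,0,⟨0,[(15,0)]⟩,⟨3,[(25,0),(0,0),(16,3),(1,1)]⟩⟩,.o
  ⟨false,1,⟨1,[(38,0),(3,1),(2,0)]⟩,⟨0,[(43,0)]⟩⟩,.a ⟨true,0,⟨1,[(27,0),(8,0),(0,0)]⟩,⟨0,[(28,0)]⟩⟩
  ⟨false,1,⟨5,[(18,1),(1,1),(4,0),(0,0)]⟩,⟨7,[(3,1),(1,0),(0,2),(0,1),(16,0),(5,1),(10,1)]⟩⟩ ⟨true,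
  0,⟨0,[(15,0),(12,0)]⟩,⟨1,[(6,0),(20,0),(4,0),(10,0)]⟩⟩,.o ⟨false,0,⟨1,[(27,0),(2,0),(2,0)]⟩,⟨1,
  [(28,1),(9,0),(5,0)]⟩⟩]⟩) (.R ⟨1,false,false,true,[0,0,0,1],[1,-1],[0,1,0,0,0,0,0,0,1],(⟨0,[(28,
  0)]⟩,⟨1,[(27,0),(8,0),(0,0)]⟩),(⟨0,[(39,0)]⟩,⟨0,[(40,0)]⟩),⟨0,[(0,0)]⟩,.k,.k,(.r (-1) ⟨2,[(2,0),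
  (15,0),(1,0),(5,0)]⟩ ⟨0,[(0,12),(0,0),(3,4),(2,0),(4,1),(0,2),(0,5),(11,6),(9,1),(2,11)]⟩),(.r 0
  ⟨0,[(7,0),(27,0)]⟩ ⟨11,[(1,1),(1,1),(7,1),(6,3),(1,1),(4,3),(1,0),(8,0),(0,0)]⟩),.k,.k,⟨false,0,
  ⟨0,[(2,0),(40,0)]⟩,⟨11,[(1,1),(1,1),(7,1),(6,3),(1,1),(4,3),(1,0),(8,0),(0,0)]⟩⟩,⟨true,0,⟨2,[(1,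
  1),(3,0),(1,1),(4,0),(15,0),(1,0)]⟩,⟨1,[(27,0),(8,0),(0,0)]⟩⟩,⟨true,0,⟨0,[(47,0)]⟩,⟨0,[]⟩⟩,⟨true,
  0,⟨0,[(1,0)]⟩,⟨1,[(2,1),(3,0),(20,0),(4,0),(10,0)]⟩⟩,⟨false,0,⟨0,[(43,0)]⟩,⟨0,[(42,0),(2,0)]⟩⟩,
  ⟨true,0,⟨0,[(1,0),(41,0)]⟩,⟨1,[(2,1),(24,0),(8,0),(0,0)]⟩⟩,[.o ⟨false,0,⟨0,[(15,0)]⟩,⟨3,[(25,0),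
  (0,0),(16,3),(1,1)]⟩⟩,.o ⟨false,1,⟨1,[(38,0),(3,1),(2,0)]⟩,⟨0,[(43,0)]⟩⟩,.a ⟨true,0,⟨1,[(27,0),(8,
  0),(0,0)]⟩,⟨0,[(28,0)]⟩⟩ ⟨false,0,⟨0,[(2,0)]⟩,⟨1,[(25,0),(19,0)]⟩⟩ ⟨true,0,⟨0,[(15,0),(12,0)]⟩,⟨1,
  [(6,0),(20,0),(4,0),(10,0)]⟩⟩,.o ⟨false,0,⟨1,[(27,0),(2,0),(2,0)]⟩,⟨1,[(28,1),(9,0),(5,
  0)]⟩⟩]⟩)))) (.I [0,1,0,-1,0,0,0,-1,1] (.Q [0,0,0,0,0,1,0,0,0,0,0,-1] (.p false [0,0,0,1] [] (⟨0,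
  [(26,0)]⟩,⟨1,[(25,0),(8,0),(0,0)]⟩) .k 0 (⟨0,[]⟩,⟨0,[]⟩) .k .k) (.R ⟨0,false,false,false,[0,0,0,
  1],[0,0,1],[0,1,0,-1,0,0,0,0,1],(⟨0,[(27,0)]⟩,⟨1,[(26,0),(8,0),(0,0)]⟩),(⟨0,[(36,0)]⟩,⟨0,[(35,
  0)]⟩),⟨0,[(0,0)]⟩,.k,.k,(.x 0 ⟨5,[(4,1),(7,0),(1,1),(13,0),(0,2),(2,1),(5,5)]⟩ ⟨3,[(24,0),(0,0),
  (13,3),(3,1)]⟩),.k,.k,.k,⟨true,0,⟨0,[(1,0)]⟩,⟨3,[(3,3),(0,0),(0,0),(5,1),(11,0)]⟩⟩,⟨false,1,⟨5,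
  [(9,3),(14,0),(0,0),(1,5),(4,1)]⟩,⟨1,[(23,0),(2,0)]⟩⟩,⟨true,0,⟨0,[(41,0)]⟩,⟨0,[(42,0)]⟩⟩,⟨false,1,
  ⟨1,[(16,1),(7,0),(2,1),(16,0)]⟩,⟨1,[(1,1),(2,0),(6,0),(1,1),(7,0),(4,0)]⟩⟩,⟨false,0,⟨0,[]⟩,⟨0,
  []⟩⟩,⟨false,0,⟨0,[]⟩,⟨0,[]⟩⟩,[.o ⟨false,0,⟨0,[(16,0)]⟩,⟨1,[(31,1),(5,0),(6,0)]⟩⟩,.o ⟨false,1,⟨3,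
  [(16,3),(7,0),(0,0),(18,1)]⟩,⟨0,[(28,0)]⟩⟩,.a ⟨true,0,⟨1,[(26,0),(8,0),(0,0)]⟩,⟨0,[(27,0)]⟩⟩
  ⟨false,0,⟨5,[(1,3),(0,0),(1,0),(1,0),(4,3),(1,0)]⟩,⟨1,[(24,0),(17,1),(1,0)]⟩⟩ ⟨true,0,⟨0,[(16,0),
  (10,0)]⟩,⟨1,[(26,0),(1,0),(2,0)]⟩⟩,.o ⟨false,0,⟨1,[(26,0),(2,0),(2,0)]⟩,⟨1,[(27,1),(9,0),(5,
  0)]⟩⟩]⟩) (.R ⟨1,false,false,false,[0,0,0,1],[0,0,1],[0,1,0,0,0,0,0,0,1],(⟨0,[(27,0)]⟩,⟨1,[(26,0),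
  (8,0),(0,0)]⟩),(⟨0,[(36,0)]⟩,⟨0,[(35,0)]⟩),⟨0,[(0,0)]⟩,.k,.k,(.x 0 ⟨1,[(0,1),(25,0),(2,0),(2,0)]⟩
  ⟨3,[(24,0),(0,0),(13,3),(3,1)]⟩),.k,(.r (-1) ⟨2,[(1,1),(4,0),(3,1),(33,0)]⟩ ⟨0,[(3,0),(30,0)]⟩),
  .k,⟨true,0,⟨0,[(1,0),(40,0)]⟩,⟨0,[(3,0),(7,0)]⟩⟩,⟨false,1,⟨5,[(9,3),(14,0),(0,0),(1,5),(4,1)]⟩,⟨1,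
  [(23,0),(2,0)]⟩⟩,⟨true,0,⟨0,[(46,0)]⟩,⟨0,[]⟩⟩,⟨false,1,⟨1,[(16,1),(7,0),(2,1),(16,0)]⟩,⟨1,[(1,1),
  (2,0),(6,0),(1,1),(7,0),(4,0)]⟩⟩,⟨false,0,⟨0,[(42,0)]⟩,⟨0,[(41,0),(2,0)]⟩⟩,⟨false,1,⟨3,[(4,3),(19,
  2),(0,0),(1,3)]⟩,⟨0,[(0,0),(0,0),(2,0),(2,0),(4,0),(1,0),(11,0),(9,1)]⟩⟩,[.o ⟨false,0,⟨0,[(16,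
  0)]⟩,⟨1,[(31,1),(5,0),(6,0)]⟩⟩,.o ⟨false,1,⟨3,[(16,3),(7,0),(0,0),(18,1)]⟩,⟨0,[(28,0)]⟩⟩,.a ⟨true,
  0,⟨1,[(26,0),(8,0),(0,0)]⟩,⟨0,[(27,0)]⟩⟩ ⟨false,0,⟨2,[(1,0),(0,0),(1,0),(1,0),(4,0),(1,0)]⟩,⟨1,
  [(24,0),(19,0)]⟩⟩ ⟨true,0,⟨0,[(16,0),(10,0)]⟩,⟨1,[(26,0),(1,0),(2,0)]⟩⟩,.o ⟨false,0,⟨1,[(26,0),(2,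
  0),(2,0)]⟩,⟨1,[(27,1),(9,0),(5,0)]⟩⟩]⟩)) (.Q [0,0,0,0,0,1,0,0,0,0,0,-1] (.p false [0,0,0,1] []
  (⟨0,[(26,0)]⟩,⟨1,[(25,0),(8,0),(0,0)]⟩) .k 0 (⟨0,[]⟩,⟨0,[]⟩) .k .k) (.R ⟨0,false,false,true,[0,0,
  0,1],[1,-1],[0,1,0,0,0,0,0,0,1],(⟨0,[(27,0)]⟩,⟨1,[(26,0),(8,0),(0,0)]⟩),(⟨0,[(38,0)]⟩,⟨0,[(39,
  0)]⟩),⟨0,[(0,0)]⟩,.k,.k,(.r (-1) ⟨4,[(2,0),(7,0),(0,0),(7,1),(5,1)]⟩ ⟨0,[(1,0),(2,1),(7,0),(0,1),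
  (0,3),(3,3),(17,3),(2,3)]⟩),(.r 0 ⟨0,[(6,0),(27,0)]⟩ ⟨2,[(1,0),(8,1),(1,0),(11,0),(16,1)]⟩),.k,.k,
  ⟨false,0,⟨1,[(2,0),(1,0),(1,0),(6,0)]⟩,⟨2,[(1,0),(8,1),(1,0),(11,0),(16,1)]⟩⟩,⟨true,0,⟨5,[(4,1),
  (7,0),(1,1),(12,5),(0,0),(0,2),(2,1)]⟩,⟨1,[(26,0),(8,0),(0,0)]⟩⟩,⟨true,0,⟨0,[(46,0)]⟩,⟨0,[]⟩⟩,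
  ⟨false,1,⟨1,[(14,1),(9,0),(2,1),(16,0)]⟩,⟨1,[(2,1),(1,0),(0,0),(6,1),(0,1),(12,0)]⟩⟩,⟨false,0,⟨0,
  []⟩,⟨0,[]⟩⟩,⟨false,0,⟨0,[]⟩,⟨0,[]⟩⟩,[.o ⟨false,0,⟨0,[(14,0)]⟩,⟨5,[(1,3),(4,1),(15,1),(1,0),(0,1),
  (18,0)]⟩⟩,.o ⟨false,1,⟨1,[(37,0),(3,1),(2,0)]⟩,⟨0,[(42,0)]⟩⟩,.a ⟨true,0,⟨1,[(26,0),(8,0),(0,0)]⟩,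
  ⟨0,[(27,0)]⟩⟩ ⟨false,0,⟨3,[(2,2),(1,0),(1,0),(5,1),(0,0)]⟩,⟨1,[(24,0),(19,0)]⟩⟩ ⟨true,0,⟨0,[(14,
  0),(12,0)]⟩,⟨1,[(5,0),(20,0),(4,0),(10,0)]⟩⟩,.o ⟨false,0,⟨1,[(26,0),(2,0),(2,0)]⟩,⟨1,[(27,1),(9,
  0),(5,0)]⟩⟩]⟩) (.R ⟨1,false,false,true,[1,0,0,-1],[1,-1,1],[1,0,0,-1,0,0,0,0,-1],(⟨1,[(26,0),(8,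
  0),(0,0)]⟩,⟨0,[(27,0)]⟩),(⟨0,[(36,0),(1,0)]⟩,⟨0,[(8,0)]⟩),⟨0,[(0,0),(25,0)]⟩,.k,.k,(.r (-1) ⟨2,
  [(1,0),(8,1),(1,0),(11,0),(16,1)]⟩ ⟨0,[(6,0),(27,0)]⟩),(.x (-1) ⟨7,[(7,3),(16,2),(0,2),(13,3),(3,
  1)]⟩ ⟨5,[(0,5),(3,1),(7,0),(1,1),(11,2),(1,0),(3,4),(3,5)]⟩),.k,.k,⟨false,1,⟨2,[(1,0),(10,1),(6,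
  0),(2,0),(1,0)]⟩,⟨0,[(2,0),(39,0)]⟩⟩,⟨true,0,⟨5,[(4,1),(7,0),(1,1),(11,2),(1,0),(3,4)]⟩,⟨4,[(7,0),
  (15,0),(3,4),(5,0),(2,1),(1,0)]⟩⟩,⟨false,1,⟨0,[(41,0),(2,0)]⟩,⟨0,[(42,0)]⟩⟩,⟨false,0,⟨1,[(2,1),(1,
  0),(7,1),(1,0),(1,0),(9,0)]⟩,⟨1,[(13,1),(10,0),(2,1),(16,0)]⟩⟩,⟨true,0,⟨0,[]⟩,⟨0,[(46,0)]⟩⟩,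
  ⟨false,0,⟨9,[(2,6),(1,8),(1,2),(5,2),(1,4),(11,4),(5,0)]⟩,⟨13,[(7,1),(3,1),(0,5),(0,5),(5,3),(3,
  1),(0,6),(2,13),(8,3),(1,1),(5,2)]⟩⟩,[.o ⟨false,0,⟨0,[(14,0),(1,0)]⟩,⟨3,[(13,3),(10,0),(0,0),(18,
  1)]⟩⟩,.o ⟨false,1,⟨1,[(20,1),(16,0),(6,0)]⟩,⟨0,[(13,0)]⟩⟩,.a ⟨true,0,⟨0,[(27,0)]⟩,⟨1,[(26,0),(8,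
  0),(0,0)]⟩⟩ ⟨false,1,⟨3,[(11,1),(0,0),(6,0),(4,1),(16,0),(2,0)]⟩,⟨1,[(2,0),(1,0),(1,0),(6,0)]⟩⟩
  ⟨true,0,⟨1,[(14,0),(1,0),(3,0),(5,0)]⟩,⟨0,[(13,0),(13,0)]⟩⟩,.o ⟨false,0,⟨5,[(4,1),(7,0),(1,1),(12,
  5),(0,0),(0,2),(2,1)]⟩,⟨7,[(24,0),(0,0),(0,3),(10,1),(5,3)]⟩⟩]⟩)))))) (.Q [0,0,-1,0,0,0,-2,0,0,0,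
  2] (.p true [0,0,1] [0,1,-1] (⟨0,[(31,0)]⟩,⟨0,[(30,0)]⟩) .k 2 (⟨0,[(3,0)]⟩,⟨0,[(31,0),(1,0)]⟩) .k
  (.r 0 ⟨0,[(29,1)]⟩ ⟨1,[(7,0),(9,1),(8,0),(0,0)]⟩)) (.I [1,0,0,-1,0,0,0,0,1] (.I [1,-1,0,0,0,0,0,0,
  1] (.Q [0,0,0,0,0,1,0,0,0,0,0,-1] (.p false [0,0,0,1] [] (⟨0,[(25,0)]⟩,⟨1,[(24,0),(8,0),(0,0)]⟩)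
  .k 0 (⟨0,[]⟩,⟨0,[]⟩) .k .k) (.R ⟨0,false,false,true,[0,0,0,1],[1,-1],[1,0,0,0,0,0,0,0,1],(⟨0,[(26,
  0)]⟩,⟨1,[(25,0),(8,0),(0,0)]⟩),(⟨0,[(37,0)]⟩,⟨0,[(38,0)]⟩),⟨0,[(0,0)]⟩,.k,.k,(.x 0 ⟨0,[(20,0),(10,
  0),(5,0)]⟩ ⟨3,[(23,0),(0,0),(13,3),(3,1)]⟩),(.r 0 ⟨0,[(5,0),(27,0)]⟩ ⟨1,[(4,0),(3,0),(1,0),(12,0),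
  (10,0),(0,0)]⟩),.k,.k,⟨false,0,⟨0,[(1,0),(39,0)]⟩,⟨3,[(8,0),(7,0),(6,1),(6,0),(9,1),(4,0)]⟩⟩,
  ⟨true,0,⟨0,[(20,0),(5,0),(4,0)]⟩,⟨1,[(25,0),(8,0),(0,0)]⟩⟩,⟨true,0,⟨0,[]⟩,⟨0,[(45,0)]⟩⟩,⟨false,1,
  ⟨1,[(13,1),(9,0),(2,1),(16,0)]⟩,⟨1,[(1,1),(23,0),(8,0),(0,0),(5,1)]⟩⟩,⟨false,0,⟨0,[]⟩,⟨0,[]⟩⟩,
  ⟨false,0,⟨0,[]⟩,⟨0,[]⟩⟩,[.o ⟨false,0,⟨0,[(13,0)]⟩,⟨3,[(23,0),(0,0),(16,3),(1,1)]⟩⟩,.o ⟨false,1,⟨1,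
  [(36,0),(3,1),(2,0)]⟩,⟨0,[(41,0)]⟩⟩,.a ⟨true,0,⟨1,[(25,0),(8,0),(0,0)]⟩,⟨0,[(26,0)]⟩⟩ ⟨false,0,⟨0,
  [(1,0)]⟩,⟨3,[(23,2),(0,0)]⟩⟩ ⟨true,0,⟨0,[(13,0),(12,0)]⟩,⟨1,[(25,0),(8,0),(0,0),(5,1)]⟩⟩,.o
  ⟨false,0,⟨1,[(25,0),(2,0),(2,0)]⟩,⟨1,[(26,1),(9,0),(5,0)]⟩⟩]⟩) (.R ⟨1,false,false,true,[0,0,0,1],
  [1,-1],[1,1,0,-1,0,0,0,0,1],(⟨0,[(26,0)]⟩,⟨1,[(25,0),(8,0),(0,0)]⟩),(⟨0,[(37,0)]⟩,⟨0,[(38,0)]⟩),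
  ⟨0,[(0,0)]⟩,.k,.k,(.x 0 ⟨1,[(0,1),(24,0),(2,0),(2,0)]⟩ ⟨3,[(23,0),(0,0),(13,3),(3,1)]⟩),(.r 0 ⟨0,
  [(5,0),(27,0)]⟩ ⟨1,[(4,0),(3,0),(1,0),(12,0),(10,0),(0,0)]⟩),.k,.k,⟨false,0,⟨0,[(1,0),(43,0)]⟩,⟨1,
  [(23,0),(18,0)]⟩⟩,⟨true,0,⟨0,[(20,0),(5,0),(4,0)]⟩,⟨1,[(25,0),(8,0),(0,0)]⟩⟩,⟨true,0,⟨0,[(40,0)]⟩,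
  ⟨0,[(41,0)]⟩⟩,⟨false,1,⟨1,[(13,1),(9,0),(2,1),(16,0)]⟩,⟨1,[(1,1),(23,0),(8,0),(0,0),(5,1)]⟩⟩,
  ⟨false,0,⟨0,[]⟩,⟨3,[(23,0),(0,0),(18,1)]⟩⟩,⟨false,1,⟨1,[(23,0),(2,1),(9,0)]⟩,⟨1,[(1,1),(23,0),(8,
  0),(0,0)]⟩⟩,[.o ⟨false,0,⟨0,[(13,0)]⟩,⟨3,[(23,0),(0,0),(16,3),(1,1)]⟩⟩,.o ⟨false,1,⟨1,[(36,0),(3,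
  1),(2,0)]⟩,⟨0,[(41,0)]⟩⟩,.a ⟨true,0,⟨1,[(25,0),(8,0),(0,0)]⟩,⟨0,[(26,0)]⟩⟩ ⟨false,0,⟨0,[(2,0)]⟩,
  ⟨1,[(23,0),(17,1),(1,0)]⟩⟩ ⟨true,0,⟨0,[(13,0),(12,0)]⟩,⟨1,[(25,0),(8,0),(0,0),(5,1)]⟩⟩,.o ⟨false,
  0,⟨1,[(25,0),(2,0),(2,0)]⟩,⟨1,[(26,1),(9,0),(5,0)]⟩⟩]⟩)) (.Q [0,0,0,0,0,1,0,0,0,0,0,-1] (.p false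
  [0,0,0,1] [] (⟨0,[(25,0)]⟩,⟨1,[(24,0),(8,0),(0,0)]⟩) .k 0 (⟨0,[]⟩,⟨0,[]⟩) .k .k) (.R ⟨0,false,
  false,false,[0,0,0,1],[1,-1],[0,1],(⟨0,[(26,0)]⟩,⟨1,[(25,0),(8,0),(0,0)]⟩),(⟨0,[(37,0)]⟩,⟨0,[(38,
  0)]⟩),⟨0,[(0,0)]⟩,.k,.k,(.r (-1) ⟨4,[(2,0),(6,0),(6,0),(1,0),(5,1)]⟩ ⟨0,[(1,0),(37,0),(1,0)]⟩),
  (.r 0 ⟨0,[(5,0),(27,0)]⟩ ⟨2,[(1,0),(7,0),(0,0),(7,0),(4,0)]⟩),.k,.k,⟨false,0,⟨0,[(41,0),(3,0)]⟩,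
  ⟨2,[(9,0),(0,0),(7,0),(24,0)]⟩⟩,⟨true,0,⟨0,[(20,0),(5,0),(4,0)]⟩,⟨1,[(25,0),(8,0),(0,0)]⟩⟩,⟨true,
  0,⟨0,[(1,0)]⟩,⟨0,[(2,0),(38,0)]⟩⟩,⟨false,1,⟨5,[(8,1),(1,3),(0,3),(1,1),(6,1),(2,2),(2,5),(9,0)]⟩,
  ⟨1,[(2,1),(22,0),(8,0),(0,0),(5,3)]⟩⟩,⟨false,0,⟨0,[]⟩,⟨0,[]⟩⟩,⟨false,0,⟨0,[]⟩,⟨0,[]⟩⟩,[.o ⟨false,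
  1,⟨1,[(36,0),(3,1),(2,0)]⟩,⟨0,[(41,0)]⟩⟩,.o ⟨false,1,⟨0,[(13,0),(29,0)]⟩,⟨0,[(41,0),(3,0)]⟩⟩,.a
  ⟨true,0,⟨1,[(25,0),(8,0),(0,0)]⟩,⟨0,[(26,0)]⟩⟩ ⟨true,0,⟨0,[(45,0)]⟩,⟨0,[]⟩⟩ ⟨false,1,⟨0,[(13,0),
  (12,0),(16,0)]⟩,⟨1,[(25,0),(8,0),(0,0),(5,1)]⟩⟩,.o ⟨false,0,⟨1,[(25,0),(2,0),(2,0)]⟩,⟨1,[(26,1),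
  (9,0),(5,0)]⟩⟩]⟩) (.R ⟨1,false,false,false,[0,0,0,1],[1,-1],[1,0,0,-1,0,0,0,0,1],(⟨0,[(26,0)]⟩,⟨1,
  [(25,0),(8,0),(0,0)]⟩),(⟨0,[(37,0)]⟩,⟨0,[(38,0)]⟩),⟨0,[(0,0)]⟩,.k,.k,(.r (-1) ⟨4,[(2,0),(6,0),(6,
  0),(1,0),(5,1)]⟩ ⟨0,[(1,0),(37,0),(1,0)]⟩),(.r 0 ⟨0,[(5,0),(27,0)]⟩ ⟨2,[(1,0),(7,0),(0,0),(7,0),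
  (4,0)]⟩),.k,.k,⟨false,0,⟨0,[(2,0),(38,0)]⟩,⟨1,[(23,0),(18,0)]⟩⟩,⟨true,0,⟨0,[(20,0),(5,0),(4,0)]⟩,
  ⟨1,[(25,0),(8,0),(0,0)]⟩⟩,⟨false,1,⟨0,[(40,0),(2,0)]⟩,⟨0,[(41,0)]⟩⟩,⟨false,1,⟨5,[(8,1),(1,3),(0,
  3),(1,1),(6,1),(2,2),(2,5),(9,0)]⟩,⟨1,[(2,1),(22,0),(8,0),(0,0),(5,3)]⟩⟩,⟨true,0,⟨0,[]⟩,⟨0,[(45,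
  0)]⟩⟩,⟨false,1,⟨5,[(8,1),(2,3),(3,3),(4,5),(2,2),(2,5),(16,0)]⟩,⟨1,[(2,1),(22,0),(8,0),(0,0),(5,
  1)]⟩⟩,[.o ⟨false,1,⟨1,[(36,0),(3,1),(2,0)]⟩,⟨0,[(41,0)]⟩⟩,.o ⟨false,1,⟨0,[(13,0),(29,0)]⟩,⟨0,[(41,
  0),(3,0)]⟩⟩,.a ⟨true,0,⟨1,[(25,0),(8,0),(0,0)]⟩,⟨0,[(26,0)]⟩⟩ ⟨true,0,⟨0,[(2,0)]⟩,⟨0,[(1,0),(39,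
  0)]⟩⟩ ⟨false,1,⟨0,[(13,0),(12,0),(16,0)]⟩,⟨1,[(25,0),(8,0),(0,0),(5,1)]⟩⟩,.o ⟨false,0,⟨1,[(25,0),
  (2,0),(2,0)]⟩,⟨1,[(26,1),(9,0),(5,0)]⟩⟩]⟩))) (.Q [0,0,0,-1,0,0,0,0,-1,-1,0,1] (.p true [0,0,0,1]
  [1] (⟨0,[(24,0)]⟩,⟨1,[(23,0),(8,0),(0,0)]⟩) .k 1 (⟨0,[]⟩,⟨0,[]⟩) .k .k) (.Q [0,0,0,0,0,1,0,0,0,0,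
  0,-1] (.p false [0,0,0,1] [] (⟨0,[(25,0)]⟩,⟨1,[(24,0),(8,0),(0,0)]⟩) .k 0 (⟨0,[]⟩,⟨0,[]⟩) .k .k)
  (.I [0,1,-1,-1,0,0,0,1,-1] (.R ⟨0,false,false,true,[0,0,0,1],[1,-1,1],[0,1,-1,-1,0,0,0,1],(⟨0,
  [(27,0)]⟩,⟨1,[(26,0),(8,0),(0,0)]⟩),(⟨0,[(36,0),(1,0)]⟩,⟨0,[(8,0)]⟩),⟨0,[(1,0)]⟩,.k,.k,(.r (-1)
  ⟨0,[(6,0),(10,0)]⟩ ⟨1,[(3,1),(28,0),(0,0)]⟩),(.x (-1) ⟨7,[(7,3),(16,2),(0,2),(13,3),(3,1)]⟩ ⟨0,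
  [(12,0),(1,0),(1,0),(19,0),(1,0),(3,0)]⟩),.k,.k,⟨false,1,⟨3,[(24,0),(0,0),(17,1)]⟩,⟨0,[]⟩⟩,⟨true,
  0,⟨0,[(2,0),(3,0),(9,0)]⟩,⟨5,[(4,1),(21,2),(6,1),(1,2),(0,2)]⟩⟩,⟨true,0,⟨0,[(0,0)]⟩,⟨0,[(6,0)]⟩⟩,
  ⟨false,0,⟨0,[(2,0),(13,0)]⟩,⟨1,[(13,1),(11,0),(0,0),(8,0),(0,0),(7,0)]⟩⟩,⟨false,0,⟨0,[]⟩,⟨0,[]⟩⟩,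
  ⟨false,0,⟨0,[]⟩,⟨0,[]⟩⟩,[.o ⟨false,0,⟨0,[(14,0),(1,0)]⟩,⟨3,[(13,3),(10,0),(0,0),(18,1)]⟩⟩,.o
  ⟨false,1,⟨1,[(20,1),(16,0),(6,0)]⟩,⟨0,[(13,0)]⟩⟩,.a ⟨true,0,⟨1,[(26,0),(8,0),(0,0)]⟩,⟨0,[(27,
  0)]⟩⟩ ⟨false,1,⟨3,[(17,1),(6,0),(0,0),(8,1)]⟩,⟨0,[(12,0),(29,0)]⟩⟩ ⟨true,0,⟨0,[(14,0),(1,0),(10,
  0)]⟩,⟨1,[(13,1),(12,0),(8,0),(0,0)]⟩⟩,.o ⟨false,0,⟨1,[(26,0),(2,0),(2,0)]⟩,⟨1,[(27,1),(9,0),(5,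
  0)]⟩⟩]⟩) (.I [0,0,2,2,-1,0,0,1] (.Q [0,-1,0,2,0,0,1,1,0,1,-1] (.p false [0,0,1] [1] (⟨0,[(37,0)]⟩,
  ⟨0,[(36,0)]⟩) .k 1 (⟨0,[]⟩,⟨0,[]⟩) .k .k) (.R ⟨1,true,false,false,[1,0,-1],[0,1],[1,0,0,-1,0,0,0,
  -1],(⟨0,[(37,0)]⟩,⟨0,[(38,0)]⟩),(⟨0,[(41,0)]⟩,⟨0,[(40,0)]⟩),⟨0,[(20,0)]⟩,.k,.k,.k,.k,(.r (-2) ⟨5,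
  [(19,1),(1,7),(4,0),(0,0)]⟩ ⟨0,[(1,0)]⟩),.k,⟨true,1,⟨0,[(12,0),(1,0),(28,0)]⟩,⟨0,[(1,0)]⟩⟩,⟨false,
  1,⟨0,[(11,0),(25,0),(0,0)]⟩,⟨0,[(31,0)]⟩⟩,⟨false,1,⟨0,[(43,0),(2,0)]⟩,⟨0,[(44,0)]⟩⟩,⟨true,0,⟨0,
  [(0,0),(42,0)]⟩,⟨0,[(7,0)]⟩⟩,⟨true,0,⟨0,[]⟩,⟨0,[(48,0)]⟩⟩,⟨false,0,⟨0,[(0,0)]⟩,⟨4,[(7,0),(5,1),(0,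
  0),(6,4),(9,3),(11,1)]⟩⟩,[]⟩) (.Q [0,1,0,1,0,0,0,0,1,1,0,-1] (.p false [0,0,0,1] [1] (⟨0,[(29,
  0)]⟩,⟨1,[(28,0),(8,0),(0,0)]⟩) .k 1 (⟨0,[]⟩,⟨0,[]⟩) .k .k) (.R ⟨0,false,false,false,[0,0,0,1],[1,
  -1],[0,1],(⟨0,[(30,0)]⟩,⟨1,[(29,0),(8,0),(0,0)]⟩),(⟨0,[(41,0)]⟩,⟨0,[(42,0)]⟩),⟨0,[(4,0)]⟩,.k,.k,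
  (.r (-1) ⟨2,[(3,0),(9,0),(6,0),(7,0),(15,0)]⟩ ⟨5,[(2,1),(3,1),(8,0),(11,1),(6,0),(0,0)]⟩),(.r 0
  ⟨2,[(2,0),(6,0),(18,0)]⟩ ⟨9,[(5,1),(7,1),(6,1),(1,1),(4,3),(1,0),(8,0),(0,0)]⟩),.k,.k,⟨false,0,⟨1,
  [(2,0),(9,0),(21,0),(14,0)]⟩,⟨2,[(13,0),(0,0),(7,0),(24,0)]⟩⟩,⟨true,0,⟨2,[(2,0),(2,2),(3,0),(18,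
  0)]⟩,⟨1,[(29,0),(8,0),(0,0)]⟩⟩,⟨false,0,⟨3,[(5,1),(0,1),(22,0),(8,0),(0,0)]⟩,⟨1,[(28,0),(18,0)]⟩⟩,
  ⟨true,0,⟨0,[(5,0)]⟩,⟨0,[(0,0)]⟩⟩,⟨false,0,⟨0,[]⟩,⟨0,[]⟩⟩,⟨false,0,⟨0,[]⟩,⟨0,[]⟩⟩,[.o ⟨false,1,⟨5,
  [(1,1),(21,1),(3,0),(0,0),(11,1),(6,1)]⟩,⟨0,[(45,0)]⟩⟩,.o ⟨false,1,⟨4,[(1,0),(12,1),(7,0),(12,0),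
  (4,1),(6,1)]⟩,⟨1,[(2,0),(9,0),(21,0),(14,0)]⟩⟩,.a ⟨true,0,⟨1,[(29,0),(8,0),(0,0)]⟩,⟨0,[(30,0)]⟩⟩
  ⟨true,0,⟨0,[(49,0)]⟩,⟨0,[]⟩⟩ ⟨false,1,⟨1,[(5,1),(22,0),(18,0)]⟩,⟨5,[(2,1),(9,1),(3,1),(12,2),(8,
  2),(0,2)]⟩⟩,.o ⟨false,0,⟨1,[(29,0),(2,0),(2,0)]⟩,⟨1,[(30,1),(9,0),(5,0)]⟩⟩]⟩) (.R ⟨0,false,false,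
  false,[0,0,0,1],[0,1,1],[1,0,0,0,0,0,0,0,1],(⟨0,[(30,0)]⟩,⟨1,[(29,0),(8,0),(0,0)]⟩),(⟨0,[(39,0),
  (2,0)]⟩,⟨0,[(21,0)]⟩),⟨0,[(4,0)]⟩,.k,.k,(.r (-1) ⟨2,[(3,0),(9,0),(6,0),(7,0),(15,0)]⟩ ⟨5,[(2,1),
  (3,1),(8,0),(11,1),(6,0),(0,0)]⟩),(.r (-1) ⟨0,[(3,0),(9,0),(30,0)]⟩ ⟨1,[(2,0),(24,0),(9,0)]⟩),.k,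
  .k,⟨true,1,⟨0,[(3,0),(9,0),(30,0)]⟩,⟨1,[(2,1),(2,1),(23,0),(8,0),(0,0)]⟩⟩,⟨false,1,⟨0,[(12,0),(17,
  0)]⟩,⟨1,[(29,0),(2,0),(3,0)]⟩⟩,⟨true,0,⟨0,[]⟩,⟨0,[(49,0)]⟩⟩,⟨false,0,⟨0,[(0,0),(1,0),(9,0),(25,0),
  (0,0)]⟩,⟨1,[(1,0),(26,0),(0,0),(4,0),(12,0)]⟩⟩,⟨false,0,⟨0,[]⟩,⟨0,[]⟩⟩,⟨false,0,⟨0,[]⟩,⟨0,[]⟩⟩,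
  [.o ⟨false,0,⟨1,[(2,0),(9,0),(6,0)]⟩,⟨0,[(22,0),(9,0)]⟩⟩,.o ⟨false,1,⟨3,[(2,1),(9,1),(6,1),(7,0),
  (0,0),(18,1)]⟩,⟨0,[(8,0)]⟩⟩,.a ⟨true,0,⟨1,[(29,0),(8,0),(0,0)]⟩,⟨0,[(30,0)]⟩⟩ ⟨false,1,⟨1,[(28,0),
  (18,0)]⟩,⟨3,[(5,1),(0,1),(22,0),(8,0),(0,0)]⟩⟩ ⟨true,0,⟨1,[(2,0),(9,0),(6,0),(10,1)]⟩,⟨1,[(1,0),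
  (27,0),(4,0)]⟩⟩,.o ⟨false,0,⟨1,[(29,0),(2,0),(2,0)]⟩,⟨1,[(30,1),(9,0),(5,0)]⟩⟩]⟩))) (.Q [0,1,0,1,
  0,0,0,0,1,1,0,-1] (.p false [0,0,0,1] [1] (⟨0,[(28,0)]⟩,⟨1,[(27,0),(8,0),(0,0)]⟩) .k 1 (⟨0,[]⟩,⟨0,
  []⟩) .k .k) (.R ⟨0,false,false,false,[0,0,0,1],[1,-1],[0,1],(⟨0,[(29,0)]⟩,⟨1,[(28,0),(8,0),(0,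
  0)]⟩),(⟨0,[(40,0)]⟩,⟨0,[(41,0)]⟩),⟨0,[(3,0)]⟩,.k,.k,(.r (-1) ⟨3,[(1,0),(17,0),(7,1)]⟩ ⟨1,[(5,1),
  (28,0),(0,0)]⟩),(.r 0 ⟨0,[(8,0),(27,0)]⟩ ⟨3,[(1,0),(17,0),(6,1)]⟩),.k,.k,⟨false,0,⟨0,[(44,0),(3,
  0)]⟩,⟨3,[(1,0),(17,0),(26,1)]⟩⟩,⟨true,0,⟨1,[(4,0),(3,0),(9,0),(10,0),(1,0)]⟩,⟨1,[(28,0),(8,0),(0,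
  0)]⟩⟩,⟨false,0,⟨3,[(4,1),(0,1),(22,0),(8,0),(0,0)]⟩,⟨1,[(27,0),(18,0)]⟩⟩,⟨true,0,⟨0,[(4,0)]⟩,⟨0,
  [(0,0)]⟩⟩,⟨false,0,⟨0,[]⟩,⟨0,[]⟩⟩,⟨false,0,⟨0,[]⟩,⟨0,[]⟩⟩,[.o ⟨false,1,⟨1,[(39,0),(3,1),(2,0)]⟩,
  ⟨0,[(44,0)]⟩⟩,.o ⟨false,1,⟨0,[(16,0),(29,0)]⟩,⟨0,[(44,0),(3,0)]⟩⟩,.a ⟨true,0,⟨1,[(28,0),(8,0),(0,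
  0)]⟩,⟨0,[(29,0)]⟩⟩ ⟨true,0,⟨0,[(48,0)]⟩,⟨0,[]⟩⟩ ⟨false,1,⟨1,[(4,1),(22,0),(18,0)]⟩,⟨1,[(28,0),(8,
  0),(0,0),(5,1)]⟩⟩,.o ⟨false,0,⟨1,[(28,0),(2,0),(2,0)]⟩,⟨1,[(29,1),(9,0),(5,0)]⟩⟩]⟩) (.I [0,1,2,1,
  -1,0,0,1] (.R ⟨0,false,false,false,[0,0,0,1],[0,1,1],[1,0,0,0,0,0,0,0,1],(⟨0,[(30,0)]⟩,⟨1,[(29,0),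
  (8,0),(0,0)]⟩),(⟨0,[(39,0),(2,0)]⟩,⟨0,[(21,0)]⟩),⟨0,[(4,0)]⟩,.k,.k,(.r (-1) ⟨3,[(2,0),(17,0),(7,
  1)]⟩ ⟨5,[(0,1),(2,0),(2,2),(8,0),(11,1)]⟩),(.r (-1) ⟨2,[(2,1),(6,0),(18,0)]⟩ ⟨3,[(0,1),(5,1),(20,
  0),(9,1),(9,0)]⟩),.k,.k,⟨true,1,⟨2,[(2,1),(6,0),(18,0)]⟩,⟨1,[(0,1),(0,1),(27,0),(8,0),(0,0),(5,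
  1)]⟩⟩,⟨false,1,⟨0,[(12,0),(17,0)]⟩,⟨1,[(29,0),(2,0),(3,0)]⟩⟩,⟨true,0,⟨0,[]⟩,⟨0,[(49,0)]⟩⟩,⟨false,
  0,⟨0,[(1,0),(17,0),(18,0),(0,0),(5,1)]⟩,⟨9,[(2,1),(5,3),(6,1),(6,1),(3,0),(1,4),(0,4),(6,3),(10,
  0)]⟩⟩,⟨false,0,⟨0,[]⟩,⟨0,[]⟩⟩,⟨false,0,⟨0,[]⟩,⟨0,[]⟩⟩,[.o ⟨false,0,⟨0,[(19,0),(25,0)]⟩,⟨0,[(22,0),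
  (9,0)]⟩⟩,.o ⟨false,1,⟨3,[(19,3),(7,0),(0,0),(16,3),(1,1)]⟩,⟨0,[(8,0)]⟩⟩,.a ⟨true,0,⟨1,[(29,0),(8,
  0),(0,0)]⟩,⟨0,[(30,0)]⟩⟩ ⟨false,1,⟨1,[(28,0),(18,0)]⟩,⟨3,[(5,1),(0,1),(22,0),(8,0),(0,0)]⟩⟩ ⟨true,
  0,⟨0,[(19,0),(10,0),(14,0)]⟩,⟨1,[(8,1),(20,0),(8,0),(0,0)]⟩⟩,.o ⟨false,0,⟨1,[(29,0),(2,0),(2,0)]⟩,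
  ⟨1,[(30,1),(9,0),(5,0)]⟩⟩]⟩) (.Q [0,0,0,0,0,-1,0,0,0,1,0,-1] (.p false [0,0,0,1] [1] (⟨0,[(30,
  0)]⟩,⟨1,[(29,0),(8,0),(0,0)]⟩) .k 1 (⟨0,[]⟩,⟨0,[]⟩) .k .k) (.R ⟨1,false,false,true,[1,0,0,-1],[1,
  -1],[0,1,0,0,0,0,0,0,-1],(⟨1,[(30,0),(8,0),(0,0)]⟩,⟨0,[(31,0)]⟩),(⟨0,[(42,0)]⟩,⟨0,[(43,0)]⟩),⟨0,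
  [(0,0)]⟩,.k,.k,(.r (-1) ⟨3,[(3,0),(17,0),(6,1)]⟩ ⟨0,[(10,0),(27,0)]⟩),(.r 0 ⟨1,[(7,1),(28,0),(0,
  0)]⟩ ⟨3,[(3,0),(17,0),(7,1)]⟩),.k,.k,⟨false,0,⟨0,[(7,0)]⟩,⟨3,[(3,0),(17,0),(7,1)]⟩⟩,⟨true,0,⟨1,
  [(30,0),(2,0),(2,0)]⟩,⟨0,[(31,0)]⟩⟩,⟨true,0,⟨0,[(50,0)]⟩,⟨0,[]⟩⟩,⟨false,1,⟨1,[(18,0),(10,0),(0,0),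
  (14,0),(2,0)]⟩,⟨0,[(2,0),(36,0),(0,0),(5,1)]⟩⟩,⟨false,0,⟨0,[(46,0)]⟩,⟨0,[(45,0),(2,0)]⟩⟩,⟨false,1,
  ⟨7,[(28,0),(0,4),(0,3),(10,1)]⟩,⟨0,[(2,0),(36,0),(0,0),(5,0)]⟩⟩,[.o ⟨false,0,⟨0,[(18,0)]⟩,⟨3,[(28,
  0),(0,0),(16,3),(1,1)]⟩⟩,.o ⟨false,1,⟨1,[(41,0),(3,1),(2,0)]⟩,⟨0,[(46,0)]⟩⟩,.a ⟨true,0,⟨0,[(31,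
  0)]⟩,⟨1,[(30,0),(8,0),(0,0)]⟩⟩ ⟨false,0,⟨3,[(6,1),(0,1),(22,0),(8,0),(0,0)]⟩,⟨1,[(29,0),(18,0)]⟩⟩
  ⟨true,0,⟨1,[(18,0),(11,0),(14,0)]⟩,⟨0,[(31,0),(14,0)]⟩⟩,.o ⟨false,0,⟨1,[(6,0),(3,0),(9,0),(10,0),
  (1,0)]⟩,⟨7,[(28,0),(0,0),(0,3),(10,1),(5,3)]⟩⟩]⟩) (.R ⟨0,false,false,true,[1,0,0,-1],[1,-1],[0,1,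
  0,0,0,0,0,0,-1],(⟨1,[(30,0),(8,0),(0,0)]⟩,⟨0,[(31,0)]⟩),(⟨0,[(42,0)]⟩,⟨0,[(43,0)]⟩),⟨0,[(0,0)]⟩,
  .k,.k,(.r (-1) ⟨3,[(3,0),(17,0),(6,1)]⟩ ⟨0,[(10,0),(27,0)]⟩),(.r 0 ⟨1,[(7,1),(28,0),(0,0)]⟩ ⟨3,
  [(3,0),(17,0),(7,1)]⟩),.k,.k,⟨false,0,⟨0,[(7,0)]⟩,⟨3,[(3,0),(17,0),(7,1)]⟩⟩,⟨true,0,⟨1,[(30,0),(2,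
  0),(2,0)]⟩,⟨0,[(31,0)]⟩⟩,⟨true,0,⟨0,[(50,0)]⟩,⟨0,[]⟩⟩,⟨false,1,⟨1,[(18,0),(10,0),(0,0),(14,0),(2,
  0)]⟩,⟨0,[(2,0),(36,0),(0,0),(5,1)]⟩⟩,⟨false,0,⟨0,[]⟩,⟨0,[]⟩⟩,⟨false,0,⟨0,[]⟩,⟨0,[]⟩⟩,[.o ⟨false,0,
  ⟨0,[(18,0)]⟩,⟨3,[(28,0),(0,0),(16,3),(1,1)]⟩⟩,.o ⟨false,1,⟨1,[(41,0),(3,1),(2,0)]⟩,⟨0,[(46,0)]⟩⟩,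
  .a ⟨true,0,⟨0,[(31,0)]⟩,⟨1,[(30,0),(8,0),(0,0)]⟩⟩ ⟨false,0,⟨3,[(6,1),(0,1),(22,0),(8,0),(0,0)]⟩,
  ⟨1,[(29,0),(18,0)]⟩⟩ ⟨true,0,⟨1,[(18,0),(11,0),(14,0)]⟩,⟨0,[(31,0),(14,0)]⟩⟩,.o ⟨false,0,⟨1,[(6,
  0),(3,0),(9,0),(10,0),(1,0)]⟩,⟨7,[(28,0),(0,0),(0,3),(10,1),(5,3)]⟩⟩]⟩)))))) (.I [0,1,0,0,0,0,0,0,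
  1] (.R ⟨1,false,false,false,[0,0,0,1],[1,-1],[0,1,0,0,0,0,0,0,1],(⟨0,[(27,0)]⟩,⟨1,[(26,0),(8,0),
  (0,0)]⟩),(⟨0,[(38,0)]⟩,⟨0,[(39,0)]⟩),⟨0,[(1,0)]⟩,.k,.k,(.r (-1) ⟨2,[(0,0),(9,0),(0,0),(7,0),(5,
  0)]⟩ ⟨1,[(3,1),(28,0),(0,0)]⟩),(.r 0 ⟨0,[(6,0),(27,0)]⟩ ⟨9,[(2,1),(7,1),(6,1),(1,1),(4,3),(1,0),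
  (8,0),(0,0)]⟩),.k,.k,⟨false,0,⟨0,[(0,0),(41,0)]⟩,⟨15,[(2,1),(0,5),(6,11),(0,7),(0,7),(11,3),(1,0),
  (8,0),(0,0)]⟩⟩,⟨true,0,⟨1,[(2,0),(3,0),(9,0),(10,0),(1,0)]⟩,⟨1,[(26,0),(8,0),(0,0)]⟩⟩,⟨true,0,⟨0,
  [(46,0)]⟩,⟨0,[]⟩⟩,⟨true,0,⟨0,[(2,0)]⟩,⟨1,[(0,1),(25,0),(8,0),(0,0),(5,1)]⟩⟩,⟨false,0,⟨0,[(42,0)]⟩,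
  ⟨0,[(41,0),(2,0)]⟩⟩,⟨true,0,⟨0,[(2,0),(39,0)]⟩,⟨1,[(0,1),(25,0),(8,0),(0,0)]⟩⟩,[.o ⟨false,1,⟨1,
  [(37,0),(3,1),(2,0)]⟩,⟨0,[(42,0)]⟩⟩,.o ⟨false,1,⟨0,[(14,0),(29,0)]⟩,⟨0,[(42,0),(3,0)]⟩⟩,.a ⟨true,
  0,⟨1,[(26,0),(8,0),(0,0)]⟩,⟨0,[(27,0)]⟩⟩ ⟨true,0,⟨0,[(0,0)]⟩,⟨3,[(2,1),(0,1),(22,0),(8,0),(0,
  0)]⟩⟩ ⟨false,1,⟨1,[(2,1),(22,0),(18,0)]⟩,⟨1,[(26,0),(8,0),(0,0),(5,1)]⟩⟩,.o ⟨false,0,⟨1,[(26,0),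
  (2,0),(2,0)]⟩,⟨1,[(27,1),(9,0),(5,0)]⟩⟩]⟩) (.R ⟨1,false,false,true,[1,0,0,-1],[1,-1],[0,1,0,0,0,0,
  0,0,-1],(⟨1,[(26,0),(8,0),(0,0)]⟩,⟨0,[(27,0)]⟩),(⟨0,[(38,0)]⟩,⟨0,[(39,0)]⟩),⟨0,[(1,0),(24,0)]⟩,.k,
  .k,(.r (-1) ⟨4,[(0,0),(9,0),(6,0),(1,0),(4,1),(16,0)]⟩ ⟨0,[(6,0),(27,0)]⟩),(.r 0 ⟨1,[(3,1),(28,0),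
  (0,0)]⟩ ⟨0,[(6,0),(10,0)]⟩),.k,.k,⟨false,0,⟨0,[(3,0)]⟩,⟨0,[(6,0),(10,0)]⟩⟩,⟨true,0,⟨1,[(26,0),(2,
  0),(2,0)]⟩,⟨0,[(27,0)]⟩⟩,⟨true,0,⟨0,[(46,0)]⟩,⟨0,[]⟩⟩,⟨false,1,⟨1,[(14,0),(10,0),(0,0),(14,0),(2,
  0)]⟩,⟨0,[(0,0),(26,0),(14,0)]⟩⟩,⟨false,0,⟨0,[(42,0)]⟩,⟨0,[(41,0),(2,0)]⟩⟩,⟨false,1,⟨7,[(24,0),(0,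
  4),(0,3),(10,1)]⟩,⟨0,[(0,0),(26,0)]⟩⟩,[.o ⟨false,0,⟨0,[(14,0)]⟩,⟨3,[(24,0),(0,0),(16,3),(1,1)]⟩⟩,
  .o ⟨false,1,⟨1,[(37,0),(3,1),(2,0)]⟩,⟨0,[(42,0)]⟩⟩,.a ⟨true,0,⟨0,[(27,0)]⟩,⟨1,[(26,0),(8,0),(0,
  0)]⟩⟩ ⟨false,0,⟨1,[(0,0),(2,0),(37,0)]⟩,⟨1,[(25,0),(18,0)]⟩⟩ ⟨true,0,⟨1,[(14,0),(11,0),(14,0)]⟩,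
  ⟨0,[(27,0),(14,0)]⟩⟩,.o ⟨false,0,⟨1,[(2,0),(3,0),(9,0),(10,0),(1,0)]⟩,⟨7,[(24,0),(0,0),(0,3),(10,
  1),(5,3)]⟩⟩]⟩))) (.Q [0,0,0,0,0,0,0,0,-1,-1,0,1] (.p true [0,0,0,1] [1] (⟨0,[(25,0)]⟩,⟨1,[(24,0),
  (8,0),(0,0)]⟩) .k 1 (⟨0,[]⟩,⟨0,[]⟩) .k .k) (.R ⟨2,true,false,false,[0,1],[1,0,0,-1],[1,1,1],(⟨0,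
  []⟩,⟨0,[]⟩),(⟨1,[(25,0),(8,0),(0,0)]⟩,⟨0,[(26,0)]⟩),⟨0,[]⟩,.k,.k,.k,(.r 0 ⟨0,[(5,0),(27,0)]⟩ ⟨5,
  [(0,1),(15,1),(1,1),(4,1),(1,0),(8,0),(0,0)]⟩),.k,.k,⟨false,0,⟨0,[(1,0),(11,0),(12,0)]⟩,⟨9,[(2,7),
  (6,5),(0,1),(0,1),(11,0),(19,2)]⟩⟩,⟨true,0,⟨4,[(0,1),(4,1),(4,0),(2,0),(1,0),(10,2),(1,1),(2,0)]⟩,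
  ⟨1,[(25,0),(8,0),(0,0)]⟩⟩,⟨true,0,⟨0,[(40,0)]⟩,⟨0,[(41,0)]⟩⟩,⟨false,1,⟨0,[(0,0),(39,0),(2,0)]⟩,⟨0,
  [(1,0)]⟩⟩,⟨false,0,⟨0,[]⟩,⟨3,[(23,0),(0,0),(18,1)]⟩⟩,⟨true,0,⟨0,[(0,0)]⟩,⟨0,[(1,0),(38,0)]⟩⟩,[]⟩)
  (.I [1,1,-1,0,0,0,0,1,-1] (.R ⟨0,false,false,true,[0,0,1],[1,0,0,-1],[1,1,1,0,0,0,0,0,-1],(⟨0,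
  [(36,0)]⟩,⟨0,[(35,0)]⟩),(⟨1,[(26,0),(8,0),(0,0)]⟩,⟨0,[(27,0)]⟩),⟨0,[(8,0)]⟩,.k,.k,.k,.k,.k,.k,
  ⟨false,0,⟨0,[]⟩,⟨3,[(24,0),(0,0),(17,1)]⟩⟩,⟨true,0,⟨0,[(21,0),(5,0)]⟩,⟨1,[(26,0),(5,1),(2,0),(0,
  0)]⟩⟩,⟨false,0,⟨0,[(3,0),(8,0),(28,0)]⟩,⟨5,[(4,1),(4,1),(1,3),(4,1),(8,2),(16,3),(1,0)]⟩⟩,⟨true,0,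
  ⟨0,[(3,0),(1,0),(21,0)]⟩,⟨0,[(1,0),(14,0)]⟩⟩,⟨false,0,⟨0,[]⟩,⟨0,[]⟩⟩,⟨false,0,⟨0,[]⟩,⟨0,[]⟩⟩,[.o
  ⟨false,0,⟨0,[(3,0),(10,0),(12,0)]⟩,⟨1,[(1,1),(35,0),(6,0)]⟩⟩,.a ⟨true,0,⟨0,[(0,0),(11,0),(14,0)]⟩,
  ⟨0,[(1,0)]⟩⟩ ⟨false,0,⟨0,[(0,0),(11,0)]⟩,⟨1,[(25,0),(17,0)]⟩⟩ ⟨true,0,⟨1,[(3,1),(1,0),(5,0),(9,0),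
  (5,1)]⟩,⟨0,[(1,0),(30,0)]⟩⟩,.o ⟨false,1,⟨2,[(9,0),(14,0),(0,0),(6,1)]⟩,⟨0,[(21,0)]⟩⟩,.o ⟨false,0,
  ⟨0,[(32,0)]⟩,⟨7,[(4,3),(19,0),(0,0),(11,3),(5,1)]⟩⟩]⟩) (.Q [0,0,0,0,0,1,0,0,0,0,0,-1] (.p false
  [0,0,0,1] [] (⟨0,[(27,0)]⟩,⟨1,[(26,0),(8,0),(0,0)]⟩) .k 0 (⟨0,[]⟩,⟨0,[]⟩) .k .k) (.R ⟨0,false,
  false,false,[0,0,0,1],[0,1],[1,0,1,1],(⟨0,[(28,0)]⟩,⟨1,[(27,0),(8,0),(0,0)]⟩),(⟨0,[(40,0)]⟩,⟨0,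
  [(39,0)]⟩),⟨0,[(0,0)]⟩,.k,.k,(.r (-1) ⟨4,[(1,0),(9,1),(6,0),(7,1),(15,0)]⟩ ⟨1,[(4,1),(28,0),(0,
  0)]⟩),(.r (-1) ⟨4,[(1,0),(9,1),(6,0),(7,1),(15,0)]⟩ ⟨1,[(4,1),(28,0),(0,0)]⟩),.k,.k,⟨true,0,⟨0,
  []⟩,⟨1,[(33,0),(0,0)]⟩⟩,⟨false,1,⟨0,[(28,0),(15,0)]⟩,⟨1,[(27,0),(2,0),(2,0)]⟩⟩,⟨false,0,⟨0,[(4,0),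
  (36,0)]⟩,⟨4,[(1,0),(9,1),(6,0),(7,1),(15,0)]⟩⟩,⟨true,0,⟨0,[(4,0),(23,0)]⟩,⟨0,[(2,0),(12,0)]⟩⟩,
  ⟨false,0,⟨0,[]⟩,⟨0,[]⟩⟩,⟨false,0,⟨0,[]⟩,⟨0,[]⟩⟩,[.o ⟨false,0,⟨0,[(43,0)]⟩,⟨1,[(38,0),(3,1),(2,
  0)]⟩⟩,.o ⟨false,1,⟨3,[(25,0),(0,0),(16,3),(1,1)]⟩,⟨0,[(15,0)]⟩⟩,.a ⟨true,0,⟨1,[(27,0),(8,0),(0,
  0)]⟩,⟨0,[(28,0)]⟩⟩ ⟨false,0,⟨0,[(41,0),(1,0)]⟩,⟨5,[(18,1),(1,1),(4,0),(0,0)]⟩⟩ ⟨true,0,⟨0,[(28,0),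
  (14,0)]⟩,⟨1,[(15,0),(11,0),(14,0)]⟩⟩,.o ⟨false,0,⟨1,[(27,0),(2,0),(2,0)]⟩,⟨1,[(28,1),(9,0),(5,
  0)]⟩⟩]⟩) (.R ⟨1,false,false,false,[0,0,0,1],[1,-1],[1,1,0,-1,0,0,0,0,1],(⟨0,[(28,0)]⟩,⟨1,[(27,0),
  (8,0),(0,0)]⟩),(⟨0,[(39,0)]⟩,⟨0,[(40,0)]⟩),⟨0,[(0,0)]⟩,.k,.k,(.r (-1) ⟨4,[(1,0),(9,1),(6,0),(7,1),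
  (15,0)]⟩ ⟨1,[(4,1),(28,0),(0,0)]⟩),(.r 0 ⟨0,[(7,0),(27,0)]⟩ ⟨2,[(4,0),(6,0),(0,0),(7,0),(4,0),(16,
  0)]⟩),.k,.k,⟨false,0,⟨0,[(3,0),(11,0),(12,0)]⟩,⟨9,[(4,7),(6,5),(0,1),(0,1),(11,0),(19,2)]⟩⟩,⟨true,
  0,⟨0,[(22,0),(5,0),(4,0)]⟩,⟨1,[(27,0),(8,0),(0,0)]⟩⟩,⟨true,0,⟨0,[(42,0)]⟩,⟨0,[(43,0)]⟩⟩,⟨false,1,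
  ⟨21,[(4,3),(1,5),(3,5),(1,17),(0,11),(1,1),(9,8),(2,21),(9,6)]⟩,⟨0,[(3,0)]⟩⟩,⟨false,0,⟨0,[]⟩,⟨3,
  [(25,0),(0,0),(18,1)]⟩⟩,⟨false,1,⟨9,[(4,3),(5,1),(1,3),(0,3),(8,1),(2,2),(2,9),(9,3),(6,0)]⟩,⟨0,
  [(2,0)]⟩⟩,[.o ⟨false,1,⟨1,[(38,0),(3,1),(2,0)]⟩,⟨0,[(43,0)]⟩⟩,.o ⟨false,1,⟨0,[(15,0),(29,0)]⟩,⟨0,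
  [(43,0),(3,0)]⟩⟩,.a ⟨true,0,⟨1,[(27,0),(8,0),(0,0)]⟩,⟨0,[(28,0)]⟩⟩ ⟨true,0,⟨0,[(2,0),(12,0),(12,
  0)]⟩,⟨0,[(4,0)]⟩⟩ ⟨false,1,⟨0,[(15,0),(12,0),(16,0)]⟩,⟨3,[(3,1),(0,1),(22,0),(8,0),(0,0)]⟩⟩,.o
  ⟨false,0,⟨1,[(27,0),(2,0),(2,0)]⟩,⟨1,[(28,1),(9,0),(5,0)]⟩⟩]⟩)))))) (.I [0,0,1,1,0,0,0,-2] (.K ⟨2,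
  [0,1,-1],0,0,(⟨0,[(5,0)]⟩,⟨0,[(33,0),(1,0)]⟩),.k,.k,(.r 0 ⟨1,[(0,0),(0,0),(28,1),(8,2)]⟩ ⟨0,[(14,
  0)]⟩),(.r 0 ⟨0,[(0,0)]⟩ ⟨3,[(14,1),(6,0),(0,0),(8,5)]⟩),.k,[⟨0,[(1,0)]⟩,⟨4,[(4,0),(15,0),(9,0),(2,
  1),(1,0)]⟩,⟨0,[(17,0)]⟩,⟨0,[(28,0),(10,0)]⟩]⟩) (.Q [0,0,0,-1,0,0,0,0,1,0,0,-1] (.p false [0,0,0,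
  1] [] (⟨0,[(24,0)]⟩,⟨1,[(23,0),(8,0),(0,0)]⟩) .k 0 (⟨0,[]⟩,⟨0,[]⟩) .k .k) (.I [0,0,-1,0,0,1,-2]
  (.K ⟨2,[0,1,-1],0,0,(⟨0,[(7,0)]⟩,⟨0,[(35,0),(1,0)]⟩),.k,.k,(.r 0 ⟨0,[(3,0),(8,0),(19,0),(8,0)]⟩
  ⟨0,[(16,0)]⟩),(.x 0 ⟨0,[(0,0)]⟩ ⟨3,[(3,3),(19,0),(0,0),(10,7),(0,1),(0,3)]⟩),.k,[⟨0,[(3,0)]⟩,⟨4,
  [(0,0),(21,0),(9,0),(2,1),(1,0)]⟩,⟨0,[(19,0)]⟩,⟨0,[(30,0),(10,0)]⟩]⟩) (.I [1,-1,0,1,0,0,0,0,1]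
  (.Q [0,0,0,0,0,-1,0,0,0,1,0,-1] (.p false [0,0,0,1] [1] (⟨0,[(27,0)]⟩,⟨1,[(26,0),(8,0),(0,0)]⟩)
  .k 1 (⟨0,[]⟩,⟨0,[]⟩) .k .k) (.I [0,1,0,1,0,0,0,-1,1] (.R ⟨1,false,false,true,[1,0,0,-1],[1,0,-1],
  [1,0,0,-1,0,0,0,0,-1],(⟨1,[(28,0),(8,0),(0,0)]⟩,⟨0,[(29,0)]⟩),(⟨0,[(37,0)]⟩,⟨0,[(38,0)]⟩),⟨0,[(1,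
  0)]⟩,.k,.k,(.r (-1) ⟨1,[(7,0),(3,0),(1,0),(12,0),(10,0),(0,0)]⟩ ⟨0,[(8,0),(27,0)]⟩),.k,(.r (-1)
  ⟨11,[(5,3),(13,3),(6,6),(0,0)]⟩ ⟨0,[(2,0),(0,0),(3,1),(5,0),(6,1),(20,2),(2,2)]⟩),.k,⟨false,1,⟨1,
  [(13,1),(12,0),(18,0)]⟩,⟨0,[(0,0)]⟩⟩,⟨true,0,⟨1,[(25,0),(2,0)]⟩,⟨2,[(6,1),(22,2),(5,0)]⟩⟩,⟨false,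
  1,⟨0,[(43,0),(2,0)]⟩,⟨0,[(44,0)]⟩⟩,⟨false,0,⟨0,[(4,0),(10,0)]⟩,⟨1,[(18,1),(7,0),(2,1),(16,0)]⟩⟩,
  ⟨true,0,⟨0,[]⟩,⟨0,[(48,0)]⟩⟩,⟨false,0,⟨7,[(0,1),(1,3),(1,1),(10,3),(9,0),(2,2),(1,1)]⟩,⟨5,[(6,1),
  (6,2),(4,0),(0,0),(2,0),(3,2),(2,5),(16,1)]⟩⟩,[.o ⟨false,0,⟨0,[(30,0)]⟩,⟨3,[(18,3),(7,0),(0,0),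
  (18,1)]⟩⟩,.o ⟨false,1,⟨1,[(33,1),(5,0),(6,0)]⟩,⟨0,[(18,0)]⟩⟩,.a ⟨true,0,⟨0,[(29,0)]⟩,⟨1,[(28,0),
  (8,0),(0,0)]⟩⟩ ⟨false,1,⟨3,[(13,1),(0,0),(6,0),(4,1),(16,0),(2,0)]⟩,⟨1,[(0,0),(1,0),(33,0)]⟩⟩
  ⟨true,0,⟨1,[(28,0),(1,0),(2,0)]⟩,⟨0,[(18,0),(10,0)]⟩⟩,.o ⟨false,0,⟨1,[(6,0),(16,0),(5,1),(1,0)]⟩,
  ⟨7,[(26,0),(0,0),(0,3),(10,1),(5,3)]⟩⟩]⟩) (.Q [0,0,0,0,0,1,0,0,0,0,0,-1] (.p false [0,0,0,1] []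
  (⟨0,[(29,0)]⟩,⟨1,[(28,0),(8,0),(0,0)]⟩) .k 0 (⟨0,[]⟩,⟨0,[]⟩) .k .k) (.R ⟨0,false,false,true,[0,0,
  0,1],[1,-1],[0,1,0,0,0,0,0,0,1],(⟨0,[(30,0)]⟩,⟨1,[(29,0),(8,0),(0,0)]⟩),(⟨0,[(41,0)]⟩,⟨0,[(42,
  0)]⟩),⟨0,[(0,0)]⟩,.k,.k,(.r (-1) ⟨4,[(5,0),(7,0),(6,0),(1,0),(5,1),(1,0)]⟩ ⟨2,[(1,2),(5,1),(26,2),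
  (1,0),(8,5)]⟩),(.r 0 ⟨0,[(9,0),(27,0)]⟩ ⟨4,[(1,0),(11,1),(8,0),(4,1),(16,0)]⟩),.k,.k,⟨false,0,⟨0,
  [(3,0),(45,0)]⟩,⟨4,[(1,0),(11,1),(8,0),(4,1),(16,0)]⟩⟩,⟨true,0,⟨1,[(7,0),(16,0),(5,1),(1,0)]⟩,⟨1,
  [(29,0),(8,0),(0,0)]⟩⟩,⟨true,0,⟨0,[(49,0)]⟩,⟨0,[]⟩⟩,⟨false,1,⟨1,[(17,1),(9,0),(2,1),(16,0)]⟩,⟨1,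
  [(3,1),(25,0),(8,0),(0,0)]⟩⟩,⟨false,0,⟨0,[]⟩,⟨0,[]⟩⟩,⟨false,0,⟨0,[]⟩,⟨0,[]⟩⟩,[.o ⟨false,0,⟨0,[(17,
  0)]⟩,⟨3,[(27,0),(0,0),(16,3),(1,1)]⟩⟩,.o ⟨false,1,⟨1,[(40,0),(3,1),(2,0)]⟩,⟨0,[(45,0)]⟩⟩,.a ⟨true,
  0,⟨1,[(29,0),(8,0),(0,0)]⟩,⟨0,[(30,0)]⟩⟩ ⟨false,0,⟨0,[(3,0),(40,0)]⟩,⟨1,[(27,0),(19,0)]⟩⟩ ⟨true,0,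
  ⟨0,[(17,0),(12,0)]⟩,⟨1,[(29,0),(8,0),(0,0),(5,1)]⟩⟩,.o ⟨false,0,⟨5,[(7,1),(21,2),(2,2),(3,0)]⟩,⟨1,
  [(30,1),(9,0),(5,0)]⟩⟩]⟩) (.I [0,-1,0,0,0,0,0,0,1] (.R ⟨1,false,false,true,[0,0,0,1],[1,-1],[0,0,
  0,0,0,0,0,0,1],(⟨0,[(31,0)]⟩,⟨1,[(30,0),(8,0),(0,0)]⟩),(⟨0,[(42,0)]⟩,⟨0,[(43,0)]⟩),⟨0,[(1,0)]⟩,.k,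
  .k,(.r (-1) ⟨4,[(0,0),(13,0),(6,0),(1,0),(5,1),(15,0)]⟩ ⟨2,[(2,2),(5,1),(26,2),(1,0),(8,5)]⟩),(.r
  0 ⟨0,[(10,0),(27,0)]⟩ ⟨4,[(2,0),(11,1),(8,0),(4,1),(16,0)]⟩),.k,.k,⟨false,0,⟨0,[(0,0),(45,0)]⟩,⟨3,
  [(13,0),(7,0),(6,1),(6,0),(9,1),(4,0)]⟩⟩,⟨true,0,⟨1,[(8,0),(16,0),(5,1),(1,0)]⟩,⟨1,[(30,0),(8,0),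
  (0,0)]⟩⟩,⟨false,1,⟨3,[(28,0),(0,0),(18,1)]⟩,⟨0,[]⟩⟩,⟨false,1,⟨1,[(18,1),(9,0),(2,1),(16,0)]⟩,⟨1,
  [(4,1),(25,0),(8,0),(0,0)]⟩⟩,⟨true,0,⟨0,[(46,0)]⟩,⟨0,[(45,0)]⟩⟩,⟨false,1,⟨1,[(28,0),(2,1),(9,0)]⟩,
  ⟨1,[(0,1),(29,0),(8,0),(0,0)]⟩⟩,[.o ⟨false,0,⟨0,[(18,0)]⟩,⟨3,[(28,0),(0,0),(16,3),(1,1)]⟩⟩,.o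
  ⟨false,1,⟨1,[(41,0),(3,1),(2,0)]⟩,⟨0,[(46,0)]⟩⟩,.a ⟨true,0,⟨1,[(30,0),(8,0),(0,0)]⟩,⟨0,[(31,0)]⟩⟩
  ⟨false,0,⟨0,[(0,0)]⟩,⟨3,[(28,2),(0,0)]⟩⟩ ⟨true,0,⟨0,[(18,0),(12,0)]⟩,⟨1,[(30,0),(8,0),(0,0),(5,
  1)]⟩⟩,.o ⟨false,0,⟨5,[(8,1),(21,2),(2,2),(3,0)]⟩,⟨1,[(31,1),(9,0),(5,0)]⟩⟩]⟩) (.R ⟨1,false,false,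
  false,[0,0,0,1],[1,-1],[0,0,0,0,0,0,0,0,1],(⟨0,[(31,0)]⟩,⟨1,[(30,0),(8,0),(0,0)]⟩),(⟨0,[(42,0)]⟩,
  ⟨0,[(43,0)]⟩),⟨0,[(1,0)]⟩,.k,.k,(.r (-1) ⟨4,[(6,0),(7,0),(6,0),(1,0),(5,1),(1,0)]⟩ ⟨0,[(0,0),(43,
  0),(1,0)]⟩),(.r 0 ⟨0,[(10,0),(27,0)]⟩ ⟨5,[(0,0),(1,0),(11,0),(6,0),(1,1),(4,1)]⟩),.k,.k,⟨false,0,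
  ⟨0,[(4,0),(45,0)]⟩,⟨5,[(0,0),(1,0),(11,0),(6,0),(1,1),(4,1)]⟩⟩,⟨true,0,⟨1,[(8,0),(16,0),(5,1),(1,
  0)]⟩,⟨1,[(30,0),(8,0),(0,0)]⟩⟩,⟨false,1,⟨3,[(28,0),(0,0),(18,1)]⟩,⟨0,[]⟩⟩,⟨false,1,⟨5,[(2,3),(13,
  1),(6,1),(4,0),(2,5),(9,2)]⟩,⟨1,[(4,1),(25,0),(8,0),(0,0),(9,1)]⟩⟩,⟨true,0,⟨0,[(46,0)]⟩,⟨0,[(45,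
  0)]⟩⟩,⟨false,1,⟨11,[(2,5),(10,1),(2,3),(0,1),(10,2),(2,11),(9,5),(4,3),(1,0)]⟩,⟨3,[(4,1),(1,1),
  (23,0),(8,2),(0,2),(9,1)]⟩⟩,[.o ⟨false,1,⟨1,[(41,0),(3,1),(2,0)]⟩,⟨0,[(46,0)]⟩⟩,.o ⟨false,1,⟨0,
  [(18,0),(29,0)]⟩,⟨0,[(46,0),(3,0)]⟩⟩,.a ⟨true,0,⟨1,[(30,0),(8,0),(0,0)]⟩,⟨0,[(31,0)]⟩⟩ ⟨true,0,⟨0,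
  [(4,0),(40,0)]⟩,⟨0,[(0,0)]⟩⟩ ⟨false,1,⟨0,[(18,0),(12,0),(16,0)]⟩,⟨1,[(30,0),(8,0),(0,0),(5,1)]⟩⟩,
  .o ⟨false,0,⟨5,[(8,1),(21,2),(2,2),(3,0)]⟩,⟨1,[(31,1),(9,0),(5,0)]⟩⟩]⟩)))) (.R ⟨0,false,false,
  true,[0,0,0,1],[1,-1],[0,1,0,0,0,0,0,0,1],(⟨0,[(28,0)]⟩,⟨1,[(27,0),(8,0),(0,0)]⟩),(⟨0,[(39,0)]⟩,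
  ⟨0,[(40,0)]⟩),⟨0,[(0,0),(26,0)]⟩,.k,.k,(.x 0 ⟨2,[(2,0),(16,1),(10,1)]⟩ ⟨3,[(25,0),(0,0),(13,3),(3,
  1)]⟩),(.r 0 ⟨0,[(7,0),(27,0)]⟩ ⟨1,[(6,0),(3,0),(1,0),(12,0),(10,0),(0,0)]⟩),.k,.k,⟨false,0,⟨0,[(1,
  0),(45,0)]⟩,⟨1,[(6,0),(3,0),(1,0),(12,0),(10,0),(0,0)]⟩⟩,⟨true,0,⟨1,[(5,0),(16,0),(5,1),(1,0)]⟩,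
  ⟨1,[(27,0),(8,0),(0,0)]⟩⟩,⟨true,0,⟨0,[(47,0)]⟩,⟨0,[]⟩⟩,⟨false,1,⟨1,[(15,1),(9,0),(2,1),(16,0)]⟩,
  ⟨1,[(1,1),(25,0),(8,0),(0,0)]⟩⟩,⟨false,0,⟨0,[]⟩,⟨0,[]⟩⟩,⟨false,0,⟨0,[]⟩,⟨0,[]⟩⟩,[.o ⟨false,0,⟨0,
  [(15,0)]⟩,⟨3,[(25,0),(0,0),(16,3),(1,1)]⟩⟩,.o ⟨false,1,⟨1,[(38,0),(3,1),(2,0)]⟩,⟨0,[(43,0)]⟩⟩,.a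
  ⟨true,0,⟨1,[(27,0),(8,0),(0,0)]⟩,⟨0,[(28,0)]⟩⟩ ⟨false,0,⟨0,[(1,0),(40,0)]⟩,⟨1,[(25,0),(19,0)]⟩⟩
  ⟨true,0,⟨0,[(15,0),(12,0)]⟩,⟨1,[(27,0),(8,0),(0,0),(5,1)]⟩⟩,.o ⟨false,0,⟨5,[(5,1),(21,2),(2,2),(3,
  0)]⟩,⟨1,[(28,1),(9,0),(5,0)]⟩⟩]⟩)) (.Q [0,0,0,0,0,-1,0,0,0,1,0,-1] (.p false [0,0,0,1] [1] (⟨0,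
  [(27,0)]⟩,⟨1,[(26,0),(8,0),(0,0)]⟩) .k 1 (⟨0,[]⟩,⟨0,[]⟩) .k .k) (.R ⟨1,false,false,false,[1,0,0,
  -1],[1,-1],[0,1,0,0,0,0,0,0,-1],(⟨1,[(27,0),(8,0),(0,0)]⟩,⟨0,[(28,0)]⟩),(⟨0,[(39,0)]⟩,⟨0,[(40,
  0)]⟩),⟨0,[(0,0)]⟩,.k,.k,(.r (-1) ⟨4,[(1,0),(9,1),(0,0),(7,0),(4,1)]⟩ ⟨0,[(7,0),(27,0)]⟩),(.r 0 ⟨0,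
  [(1,0),(39,0),(1,1)]⟩ ⟨4,[(3,0),(7,0),(6,0),(1,0),(5,1),(1,0)]⟩),.k,.k,⟨false,0,⟨0,[(1,0),(41,
  1)]⟩,⟨0,[(7,0),(3,0),(0,0)]⟩⟩,⟨true,0,⟨5,[(5,1),(21,2),(2,2),(3,0)]⟩,⟨0,[(28,0)]⟩⟩,⟨true,0,⟨0,
  [(47,0)]⟩,⟨0,[]⟩⟩,⟨true,0,⟨0,[(3,0)]⟩,⟨0,[(1,0),(26,0),(14,1)]⟩⟩,⟨false,0,⟨0,[(43,0)]⟩,⟨0,[(42,0),
  (2,0)]⟩⟩,⟨true,0,⟨0,[(3,0),(39,0)]⟩,⟨0,[(1,0),(26,0),(14,0)]⟩⟩,[.o ⟨false,1,⟨1,[(38,0),(3,1),(2,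
  0)]⟩,⟨0,[(43,0)]⟩⟩,.o ⟨false,1,⟨0,[(15,0),(29,0)]⟩,⟨0,[(43,0),(3,0)]⟩⟩,.a ⟨true,0,⟨0,[(28,0)]⟩,⟨1,
  [(27,0),(8,0),(0,0)]⟩⟩ ⟨true,0,⟨0,[(1,0),(41,0)]⟩,⟨0,[(3,0),(24,0),(14,0)]⟩⟩ ⟨false,1,⟨1,[(3,1),
  (21,0),(19,0)]⟩,⟨0,[(28,0),(14,0)]⟩⟩,.o ⟨false,0,⟨1,[(5,0),(16,0),(5,1),(1,0)]⟩,⟨7,[(25,0),(0,0),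
  (0,3),(10,1),(5,3)]⟩⟩]⟩) (.R ⟨0,false,false,false,[1,0,0,-1],[1,-1],[0,1],(⟨1,[(27,0),(8,0),(0,
  0)]⟩,⟨0,[(28,0)]⟩),(⟨0,[(39,0)]⟩,⟨0,[(40,0)]⟩),⟨0,[(0,0)]⟩,.k,.k,(.r (-1) ⟨4,[(1,0),(9,1),(0,0),
  (7,0),(4,1)]⟩ ⟨0,[(7,0),(27,0)]⟩),(.r 0 ⟨0,[(1,0),(39,0),(1,1)]⟩ ⟨4,[(3,0),(7,0),(6,0),(1,0),(5,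
  1),(1,0)]⟩),.k,.k,⟨false,0,⟨0,[(43,0),(3,0)]⟩,⟨2,[(11,0),(0,0),(7,0),(24,0)]⟩⟩,⟨true,0,⟨5,[(5,1),
  (21,2),(2,2),(3,0)]⟩,⟨0,[(28,0)]⟩⟩,⟨false,0,⟨0,[(3,0),(24,0),(14,0)]⟩,⟨1,[(25,0),(19,0)]⟩⟩,⟨true,
  0,⟨0,[(3,0)]⟩,⟨0,[(1,0),(26,0),(14,1)]⟩⟩,⟨false,0,⟨0,[]⟩,⟨0,[]⟩⟩,⟨false,0,⟨0,[]⟩,⟨0,[]⟩⟩,[.o
  ⟨false,1,⟨1,[(38,0),(3,1),(2,0)]⟩,⟨0,[(43,0)]⟩⟩,.o ⟨false,1,⟨0,[(15,0),(29,0)]⟩,⟨0,[(43,0),(3,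
  0)]⟩⟩,.a ⟨true,0,⟨0,[(28,0)]⟩,⟨1,[(27,0),(8,0),(0,0)]⟩⟩ ⟨true,0,⟨0,[(47,0)]⟩,⟨0,[]⟩⟩ ⟨false,1,⟨1,
  [(3,1),(21,0),(19,0)]⟩,⟨0,[(28,0),(14,0)]⟩⟩,.o ⟨false,0,⟨1,[(5,0),(16,0),(5,1),(1,0)]⟩,⟨7,[(25,0),
  (0,0),(0,3),(10,1),(5,3)]⟩⟩]⟩)))) (.I [0,0,-1,0,0,1,-2] (.K ⟨2,[0,1,-1],0,0,(⟨0,[(7,0)]⟩,⟨0,[(35,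
  0),(1,0)]⟩),.k,.k,(.r 0 ⟨5,[(1,5),(1,1),(1,5),(19,2),(2,2),(3,0)]⟩ ⟨0,[(16,0)]⟩),(.x 0 ⟨0,[(0,
  0)]⟩ ⟨3,[(3,3),(19,0),(0,0),(10,7),(0,1),(0,3)]⟩),.k,[⟨0,[(3,0)]⟩,⟨4,[(0,0),(21,0),(9,0),(2,1),(1,
  0)]⟩,⟨0,[(19,0)]⟩,⟨0,[(30,0),(10,0)]⟩]⟩) (.Q [0,0,0,-1,0,0,-1,-1,-1,-1,1,1] (.p true [0,0,1] [1,0,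
  0,-1] (⟨0,[(35,0)]⟩,⟨0,[(34,0)]⟩) .k 2 (⟨1,[(25,0),(8,0),(0,0)]⟩,⟨0,[(26,0)]⟩) .k (.x (-1) ⟨4,[(0,
  1),(7,0),(14,1),(0,1),(10,0),(2,1)]⟩ ⟨2,[(6,0),(10,0),(10,0)]⟩)) (.Q [0,0,0,0,0,1,0,0,0,0,0,-1]
  (.p false [0,0,0,1] [] (⟨0,[(27,0)]⟩,⟨1,[(26,0),(8,0),(0,0)]⟩) .k 0 (⟨0,[]⟩,⟨0,[]⟩) .k .k) (.Q [0,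
  1,0,1,0,0,0,0,1,1,0,-1] (.p false [0,0,0,1] [1] (⟨0,[(28,0)]⟩,⟨1,[(27,0),(8,0),(0,0)]⟩) .k 1 (⟨0,
  []⟩,⟨0,[]⟩) .k .k) (.R ⟨0,false,false,false,[0,0,0,1],[1,-1],[0,1],(⟨0,[(29,0)]⟩,⟨1,[(28,0),(8,0),
  (0,0)]⟩),(⟨0,[(40,0)]⟩,⟨0,[(41,0)]⟩),⟨0,[(1,0)]⟩,.k,.k,(.r (-1) ⟨0,[(8,0),(10,0)]⟩ ⟨5,[(4,5),(1,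
  1),(21,2),(2,2),(3,0)]⟩),(.r 0 ⟨0,[(8,0),(27,0)]⟩ ⟨21,[(2,3),(0,0),(7,1),(0,0),(6,6),(1,2),(4,8),
  (1,1),(8,1),(3,0)]⟩),.k,.k,⟨false,0,⟨2,[(0,0),(3,0),(25,0),(1,0),(11,0)]⟩,⟨2,[(12,0),(0,0),(7,0),
  (24,0)]⟩⟩,⟨true,0,⟨1,[(6,0),(16,0),(5,1),(1,0)]⟩,⟨1,[(28,0),(8,0),(0,0)]⟩⟩,⟨false,0,⟨1,[(2,0),(1,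
  0),(13,0),(9,0)]⟩,⟨1,[(27,0),(18,0)]⟩⟩,⟨true,0,⟨0,[(2,0),(15,0)]⟩,⟨0,[(0,0)]⟩⟩,⟨false,0,⟨0,[]⟩,⟨0,
  []⟩⟩,⟨false,0,⟨0,[]⟩,⟨0,[]⟩⟩,[.o ⟨false,1,⟨1,[(39,0),(3,1),(2,0)]⟩,⟨0,[(44,0)]⟩⟩,.o ⟨false,1,⟨0,
  [(16,0),(29,0)]⟩,⟨2,[(0,0),(3,0),(25,0),(1,0),(11,0)]⟩⟩,.a ⟨true,0,⟨1,[(28,0),(8,0),(0,0)]⟩,⟨0,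
  [(29,0)]⟩⟩ ⟨true,0,⟨0,[(48,0)]⟩,⟨0,[]⟩⟩ ⟨false,1,⟨21,[(2,9),(3,3),(6,5),(5,1),(2,1),(4,4),(1,11),
  (9,5),(6,8)]⟩,⟨1,[(28,0),(8,0),(0,0),(5,1)]⟩⟩,.o ⟨false,0,⟨5,[(6,1),(21,2),(2,2),(3,0)]⟩,⟨1,[(29,
  1),(9,0),(5,0)]⟩⟩]⟩) (.Q [0,0,0,0,0,-1,0,0,0,1,0,-1] (.p false [0,0,0,1] [1] (⟨0,[(29,0)]⟩,⟨1,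
  [(28,0),(8,0),(0,0)]⟩) .k 1 (⟨0,[]⟩,⟨0,[]⟩) .k .k) (.R ⟨1,false,false,true,[1,0,0,-1],[1,-1],[0,0,
  0,0,0,0,0,0,-1],(⟨1,[(29,0),(8,0),(0,0)]⟩,⟨0,[(30,0)]⟩),(⟨0,[(41,0)]⟩,⟨0,[(42,0)]⟩),⟨0,[(0,0)]⟩,
  .k,.k,(.r (-1) ⟨21,[(3,3),(0,0),(7,1),(0,0),(6,6),(1,2),(4,8),(1,1),(8,1),(3,0)]⟩ ⟨0,[(9,0),(27,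
  0)]⟩),(.r 0 ⟨5,[(5,5),(1,1),(21,2),(2,2),(3,0)]⟩ ⟨0,[(9,0),(10,0)]⟩),.k,.k,⟨false,0,⟨1,[(1,1),(27,
  0),(8,0),(0,0),(5,3)]⟩,⟨3,[(12,0),(7,0),(7,1),(5,0),(9,1),(4,0)]⟩⟩,⟨true,0,⟨5,[(7,1),(21,2),(2,2),
  (3,0)]⟩,⟨0,[(30,0)]⟩⟩,⟨false,1,⟨3,[(27,0),(0,0),(18,1)]⟩,⟨0,[]⟩⟩,⟨false,1,⟨19,[(7,1),(6,5),(7,5),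
  (5,9),(0,9),(2,3),(7,2),(3,7),(2,0)]⟩,⟨0,[(1,0),(36,0),(0,0),(5,1)]⟩⟩,⟨true,0,⟨0,[(45,0)]⟩,⟨0,
  [(44,0)]⟩⟩,⟨false,1,⟨7,[(27,0),(0,4),(0,3),(10,1)]⟩,⟨0,[(1,0),(36,0),(0,0),(5,0)]⟩⟩,[.o ⟨false,0,
  ⟨0,[(17,0)]⟩,⟨3,[(27,0),(0,0),(16,3),(1,1)]⟩⟩,.o ⟨false,1,⟨1,[(40,0),(3,1),(2,0)]⟩,⟨0,[(45,0)]⟩⟩,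
  .a ⟨true,0,⟨0,[(30,0)]⟩,⟨1,[(29,0),(8,0),(0,0)]⟩⟩ ⟨false,0,⟨1,[(1,1),(27,0),(8,0),(0,0),(5,1)]⟩,
  ⟨3,[(27,0),(0,2)]⟩⟩ ⟨true,0,⟨1,[(17,0),(11,0),(14,0)]⟩,⟨0,[(30,0),(14,0)]⟩⟩,.o ⟨false,0,⟨1,[(7,0),
  (16,0),(5,1),(1,0)]⟩,⟨7,[(27,0),(0,0),(0,3),(10,1),(5,3)]⟩⟩]⟩) (.R ⟨0,false,false,true,[1,0,0,-1],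
  [1,-1],[1,0,0,0,0,0,0,0,-1],(⟨1,[(29,0),(8,0),(0,0)]⟩,⟨0,[(30,0)]⟩),(⟨0,[(41,0)]⟩,⟨0,[(42,0)]⟩),
  ⟨0,[(0,0)]⟩,.k,.k,(.r (-1) ⟨21,[(3,3),(0,0),(7,1),(0,0),(6,6),(1,2),(4,8),(1,1),(8,1),(3,0)]⟩ ⟨0,
  [(9,0),(27,0)]⟩),(.r 0 ⟨5,[(5,5),(1,1),(21,2),(2,2),(3,0)]⟩ ⟨0,[(9,0),(10,0)]⟩),.k,.k,⟨false,0,⟨1,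
  [(1,1),(27,0),(8,0),(0,0),(5,3)]⟩,⟨3,[(12,0),(7,0),(7,1),(5,0),(9,1),(4,0)]⟩⟩,⟨true,0,⟨5,[(7,1),
  (21,2),(2,2),(3,0)]⟩,⟨0,[(30,0)]⟩⟩,⟨true,0,⟨0,[]⟩,⟨0,[(49,0)]⟩⟩,⟨false,1,⟨19,[(7,1),(6,5),(7,5),
  (5,9),(0,9),(2,3),(7,2),(3,7),(2,0)]⟩,⟨0,[(1,0),(36,0),(0,0),(5,1)]⟩⟩,⟨false,0,⟨0,[]⟩,⟨0,[]⟩⟩,
  ⟨false,0,⟨0,[]⟩,⟨0,[]⟩⟩,[.o ⟨false,0,⟨0,[(17,0)]⟩,⟨3,[(27,0),(0,0),(16,3),(1,1)]⟩⟩,.o ⟨false,1,⟨1,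
  [(40,0),(3,1),(2,0)]⟩,⟨0,[(45,0)]⟩⟩,.a ⟨true,0,⟨0,[(30,0)]⟩,⟨1,[(29,0),(8,0),(0,0)]⟩⟩ ⟨false,0,⟨1,
  [(1,1),(27,0),(8,0),(0,0),(5,1)]⟩,⟨3,[(27,0),(0,2)]⟩⟩ ⟨true,0,⟨1,[(17,0),(11,0),(14,0)]⟩,⟨0,[(30,
  0),(14,0)]⟩⟩,.o ⟨false,0,⟨1,[(7,0),(16,0),(5,1),(1,0)]⟩,⟨7,[(27,0),(0,0),(0,3),(10,1),(5,
  3)]⟩⟩]⟩))) (.I [1,-1,0,0,0,0,0,0,-1] (.R ⟨1,false,false,true,[1,0,0,-1],[1,-1],[0,1,0,0,0,0,0,0,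
  -1],(⟨1,[(28,0),(8,0),(0,0)]⟩,⟨0,[(29,0)]⟩),(⟨0,[(40,0)]⟩,⟨0,[(41,0)]⟩),⟨0,[(1,0),(26,0)]⟩,.k,.k,
  (.r (-1) ⟨4,[(0,0),(11,0),(6,0),(1,0),(4,1),(16,0)]⟩ ⟨0,[(8,0),(27,0)]⟩),(.r 0 ⟨5,[(4,5),(1,1),
  (21,2),(2,2),(3,0)]⟩ ⟨0,[(8,0),(10,0)]⟩),.k,.k,⟨false,0,⟨2,[(0,0),(3,1),(11,0),(11,0),(15,1)]⟩,⟨0,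
  [(8,0),(10,0)]⟩⟩,⟨true,0,⟨5,[(6,1),(21,2),(2,2),(3,0)]⟩,⟨0,[(29,0)]⟩⟩,⟨true,0,⟨0,[(48,0)]⟩,⟨0,
  []⟩⟩,⟨false,1,⟨19,[(6,1),(6,5),(7,5),(5,9),(0,9),(2,3),(7,2),(3,7),(2,0)]⟩,⟨0,[(0,0),(28,0),(14,
  0)]⟩⟩,⟨false,0,⟨0,[(44,0)]⟩,⟨0,[(43,0),(2,0)]⟩⟩,⟨false,1,⟨7,[(26,0),(0,4),(0,3),(10,1)]⟩,⟨0,[(0,
  0),(28,0)]⟩⟩,[.o ⟨false,0,⟨0,[(16,0)]⟩,⟨3,[(26,0),(0,0),(16,3),(1,1)]⟩⟩,.o ⟨false,1,⟨1,[(39,0),(3,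
  1),(2,0)]⟩,⟨0,[(44,0)]⟩⟩,.a ⟨true,0,⟨0,[(29,0)]⟩,⟨1,[(28,0),(8,0),(0,0)]⟩⟩ ⟨false,0,⟨5,[(0,1),(1,
  0),(1,2),(11,0),(5,0),(5,1)]⟩,⟨1,[(27,0),(18,0)]⟩⟩ ⟨true,0,⟨1,[(16,0),(11,0),(14,0)]⟩,⟨0,[(29,0),
  (14,0)]⟩⟩,.o ⟨false,0,⟨1,[(6,0),(16,0),(5,1),(1,0)]⟩,⟨7,[(26,0),(0,0),(0,3),(10,1),(5,3)]⟩⟩]⟩)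
  (.R ⟨1,false,false,false,[0,0,0,1],[1,-1],[0,1,0,0,0,0,0,0,1],(⟨0,[(29,0)]⟩,⟨1,[(28,0),(8,0),(0,
  0)]⟩),(⟨0,[(40,0)]⟩,⟨0,[(41,0)]⟩),⟨0,[(1,0)]⟩,.k,.k,(.r (-1) ⟨2,[(0,0),(11,0),(0,0),(7,0),(5,0)]⟩
  ⟨5,[(4,5),(1,1),(21,2),(2,2),(3,0)]⟩),(.r 0 ⟨0,[(8,0),(27,0)]⟩ ⟨21,[(2,3),(0,0),(7,1),(0,0),(6,6),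
  (1,2),(4,8),(1,1),(8,1),(3,0)]⟩),.k,.k,⟨false,0,⟨0,[(0,0),(43,0)]⟩,⟨17,[(2,3),(1,3),(6,3),(0,7),
  (0,9),(0,5),(11,4),(1,3),(17,0)]⟩⟩,⟨true,0,⟨1,[(6,0),(16,0),(5,1),(1,0)]⟩,⟨1,[(28,0),(8,0),(0,
  0)]⟩⟩,⟨true,0,⟨0,[(48,0)]⟩,⟨0,[]⟩⟩,⟨true,0,⟨0,[(2,0),(15,0)]⟩,⟨1,[(0,1),(27,0),(8,0),(0,0),(5,
  1)]⟩⟩,⟨false,0,⟨0,[(44,0)]⟩,⟨0,[(43,0),(2,0)]⟩⟩,⟨true,0,⟨0,[(2,0),(15,0),(25,0)]⟩,⟨1,[(0,1),(27,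
  0),(8,0),(0,0)]⟩⟩,[.o ⟨false,1,⟨1,[(39,0),(3,1),(2,0)]⟩,⟨0,[(44,0)]⟩⟩,.o ⟨false,1,⟨0,[(16,0),(29,
  0)]⟩,⟨0,[(44,0),(3,0)]⟩⟩,.a ⟨true,0,⟨1,[(28,0),(8,0),(0,0)]⟩,⟨0,[(29,0)]⟩⟩ ⟨true,0,⟨0,[(0,0)]⟩,⟨1,
  [(2,0),(1,0),(13,0),(9,0)]⟩⟩ ⟨false,1,⟨21,[(2,9),(3,3),(6,5),(5,1),(2,1),(4,4),(1,11),(9,5),(6,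
  8)]⟩,⟨1,[(28,0),(8,0),(0,0),(5,1)]⟩⟩,.o ⟨false,0,⟨5,[(6,1),(21,2),(2,2),(3,0)]⟩,⟨1,[(29,1),(9,0),
  (5,0)]⟩⟩]⟩))) (.I [1,0,0,-1,0,0,0,0,-1] (.Q [0,0,0,0,0,1,0,0,0,0,0,-1] (.p false [0,0,0,1] [] (⟨0,
  [(28,0)]⟩,⟨1,[(27,0),(8,0),(0,0)]⟩) .k 0 (⟨0,[]⟩,⟨0,[]⟩) .k .k) (.R ⟨0,false,false,true,[0,0,0,1],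
  [1,-1,-1],[1,1,-1,-1,0,0,0,-1],(⟨0,[(29,0)]⟩,⟨1,[(28,0),(8,0),(0,0)]⟩),(⟨0,[(20,0)]⟩,⟨0,[(38,0),
  (2,0)]⟩),⟨0,[(0,0)]⟩,.k,.k,(.r (-1) ⟨0,[(8,0),(10,0)]⟩ ⟨5,[(4,5),(1,1),(21,2),(2,2),(3,0)]⟩),(.r
  0 ⟨0,[(8,0),(27,1)]⟩ ⟨0,[(1,0),(22,0)]⟩),.k,.k,⟨true,0,⟨0,[]⟩,⟨2,[(6,0),(28,1)]⟩⟩,⟨false,0,⟨0,
  [(23,0),(5,0)]⟩,⟨17,[(2,7),(0,1),(7,5),(9,7),(4,3),(1,4),(8,4),(0,0),(2,1)]⟩⟩,⟨false,1,⟨0,[(1,0),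
  (22,0)]⟩,⟨1,[(2,0),(1,0),(3,1),(4,1),(9,0),(12,0)]⟩⟩,⟨true,0,⟨1,[(1,0),(2,0),(2,1),(21,0)]⟩,⟨0,
  [(2,0)]⟩⟩,⟨false,0,⟨0,[]⟩,⟨0,[]⟩⟩,⟨false,0,⟨0,[]⟩,⟨0,[]⟩⟩,[.o ⟨false,0,⟨0,[(7,0)]⟩,⟨7,[(2,3),(1,
  3),(13,3),(7,0),(0,0),(11,1),(6,3)]⟩⟩,.o ⟨false,1,⟨0,[(21,0),(9,0)]⟩,⟨0,[(18,0),(25,0)]⟩⟩,.a
  ⟨true,0,⟨1,[(28,0),(8,0),(0,0)]⟩,⟨0,[(29,0)]⟩⟩ ⟨false,1,⟨0,[(21,0)]⟩,⟨1,[(2,0),(1,0),(8,0),(17,0),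
  (10,0),(1,0)]⟩⟩ ⟨true,0,⟨0,[(7,0),(21,0)]⟩,⟨1,[(2,0),(1,0),(13,0),(9,0)]⟩⟩,.o ⟨false,0,⟨5,[(6,1),
  (21,2),(2,2),(3,0)]⟩,⟨1,[(29,1),(9,0),(5,0)]⟩⟩]⟩) (.R ⟨1,false,false,false,[1,0,0,-1],[1,-1],[1,0,
  0,-1,0,0,0,0,-1],(⟨1,[(28,0),(8,0),(0,0)]⟩,⟨0,[(29,0)]⟩),(⟨0,[(40,0)]⟩,⟨0,[(41,0)]⟩),⟨0,[(0,0),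
  (27,0)]⟩,.k,.k,(.r (-1) ⟨4,[(1,0),(10,0),(6,0),(1,0),(4,1)]⟩ ⟨0,[(8,0),(27,0)]⟩),(.r 0 ⟨5,[(4,5),
  (1,1),(21,2),(2,2),(3,0)]⟩ ⟨0,[(8,0),(10,0)]⟩),.k,.k,⟨false,0,⟨0,[(1,0),(42,0)]⟩,⟨1,[(27,0),(17,
  0)]⟩⟩,⟨true,0,⟨5,[(6,1),(21,2),(2,2),(3,0)]⟩,⟨0,[(29,0)]⟩⟩,⟨false,1,⟨0,[(43,0),(2,0)]⟩,⟨0,[(44,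
  0)]⟩⟩,⟨false,1,⟨9,[(7,0),(3,0),(1,6),(0,3),(6,1),(5,4),(0,4),(10,1)]⟩,⟨0,[(4,0)]⟩⟩,⟨true,0,⟨0,[]⟩,
  ⟨0,[(48,0)]⟩⟩,⟨false,1,⟨5,[(8,1),(2,0),(1,1),(9,0),(3,1),(0,2),(10,0),(6,1)]⟩,⟨1,[(1,0),(2,0),(24,
  0)]⟩⟩,[.o ⟨false,1,⟨1,[(39,0),(3,1),(2,0)]⟩,⟨0,[(44,0)]⟩⟩,.o ⟨false,1,⟨0,[(16,0),(29,0)]⟩,⟨0,[(44,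
  0),(3,0)]⟩⟩,.a ⟨true,0,⟨0,[(29,0)]⟩,⟨1,[(28,0),(8,0),(0,0)]⟩⟩ ⟨true,0,⟨0,[(1,0)]⟩,⟨0,[(2,0),(26,
  0),(0,0)]⟩⟩ ⟨false,1,⟨19,[(6,1),(6,5),(7,5),(6,9),(2,3),(7,2),(3,7),(2,10)]⟩,⟨0,[(29,0),(14,0)]⟩⟩,
  .o ⟨false,0,⟨1,[(6,0),(16,0),(5,1),(1,0)]⟩,⟨7,[(26,0),(0,0),(0,3),(10,1),(5,3)]⟩⟩]⟩)) (.Q [0,0,0,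
  0,0,0,0,0,-1,0,0,1] (.p true [0,0,0,1] [] (⟨0,[(28,0)]⟩,⟨1,[(27,0),(8,0),(0,0)]⟩) .k 0 (⟨0,[]⟩,⟨0,
  []⟩) .k .k) (.Q [0,0,0,0,0,1,0,0,0,0,0,-1] (.p false [0,0,0,1] [] (⟨0,[(29,0)]⟩,⟨1,[(28,0),(8,0),
  (0,0)]⟩) .k 0 (⟨0,[]⟩,⟨0,[]⟩) .k .k) (.R ⟨0,false,false,false,[0,0,0,1],[0,0,1],[1,0,1],(⟨0,[(30,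
  0)]⟩,⟨1,[(29,0),(8,0),(0,0)]⟩),(⟨0,[(39,0)]⟩,⟨0,[(38,0)]⟩),⟨0,[(0,0)]⟩,.k,.k,(.r (-1) ⟨0,[(9,0),
  (10,0)]⟩ ⟨5,[(5,5),(1,1),(21,2),(2,2),(3,0)]⟩),.k,.k,.k,⟨true,0,⟨5,[(7,1),(7,2),(18,2),(1,0)]⟩,⟨0,
  [(37,0)]⟩⟩,⟨false,1,⟨4,[(7,0),(4,2),(14,0),(0,0),(1,4)]⟩,⟨1,[(26,0),(2,0)]⟩⟩,⟨false,0,⟨3,[(1,1),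
  (3,1),(1,0),(6,1),(0,1),(8,0),(4,1),(2,0)]⟩,⟨1,[(28,0),(17,0)]⟩⟩,⟨true,0,⟨0,[(1,0),(17,0)]⟩,⟨1,
  [(2,1),(5,1),(20,0),(8,0),(0,0)]⟩⟩,⟨false,0,⟨0,[]⟩,⟨0,[]⟩⟩,⟨false,0,⟨0,[]⟩,⟨0,[]⟩⟩,[.o ⟨false,0,
  ⟨0,[(19,0)]⟩,⟨1,[(34,1),(5,0),(6,0)]⟩⟩,.o ⟨false,1,⟨3,[(19,3),(7,0),(0,0),(18,1)]⟩,⟨0,[(31,0)]⟩⟩,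
  .a ⟨true,0,⟨1,[(29,0),(8,0),(0,0)]⟩,⟨0,[(30,0)]⟩⟩ ⟨false,0,⟨0,[(43,0)]⟩,⟨3,[(27,0),(0,0),(17,
  1)]⟩⟩ ⟨true,0,⟨0,[(19,0),(10,0)]⟩,⟨1,[(29,0),(1,0),(2,0)]⟩⟩,.o ⟨false,0,⟨5,[(7,1),(21,2),(2,2),(3,
  0)]⟩,⟨1,[(30,1),(9,0),(5,0)]⟩⟩]⟩) (.R ⟨1,false,false,false,[1,0,0,-1],[1,-1],[1,1,0,-1,0,0,0,0,
  -1],(⟨1,[(29,0),(8,0),(0,0)]⟩,⟨0,[(30,0)]⟩),(⟨0,[(41,0)]⟩,⟨0,[(42,0)]⟩),⟨0,[(0,0),(28,0)]⟩,.k,.k,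
  (.r (-1) ⟨7,[(1,1),(6,0),(3,0),(1,0),(5,1),(1,1),(4,2),(1,0)]⟩ ⟨0,[(9,0),(27,0)]⟩),(.r 0 ⟨5,[(5,
  5),(1,1),(21,2),(2,2),(3,0)]⟩ ⟨0,[(9,0),(10,0)]⟩),.k,.k,⟨false,0,⟨1,[(5,1),(11,0),(11,0),(14,0)]⟩,
  ⟨9,[(2,7),(10,5),(0,1),(0,1),(12,0),(18,2)]⟩⟩,⟨true,0,⟨5,[(7,1),(21,2),(2,2),(3,0)]⟩,⟨0,[(30,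
  0)]⟩⟩,⟨true,0,⟨0,[(44,0)]⟩,⟨0,[(45,0)]⟩⟩,⟨false,1,⟨9,[(8,0),(3,0),(1,6),(0,3),(6,1),(5,4),(0,4),
  (10,1)]⟩,⟨0,[(5,0)]⟩⟩,⟨false,0,⟨0,[]⟩,⟨3,[(27,0),(0,0),(18,1)]⟩⟩,⟨false,1,⟨9,[(2,1),(9,0),(1,1),
  (0,1),(8,0),(3,3),(0,4),(10,1),(6,2)]⟩,⟨0,[(1,0)]⟩⟩,[.o ⟨false,1,⟨1,[(40,0),(3,1),(2,0)]⟩,⟨0,[(45,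
  0)]⟩⟩,.o ⟨false,1,⟨0,[(17,0),(29,0)]⟩,⟨0,[(45,0),(3,0)]⟩⟩,.a ⟨true,0,⟨0,[(30,0)]⟩,⟨1,[(29,0),(8,
  0),(0,0)]⟩⟩ ⟨true,0,⟨1,[(1,1),(15,0),(11,0),(14,0)]⟩,⟨0,[(2,0)]⟩⟩ ⟨false,1,⟨19,[(7,1),(6,5),(7,5),
  (6,9),(2,3),(7,2),(3,7),(2,10)]⟩,⟨1,[(2,0),(2,0),(24,0)]⟩⟩,.o ⟨false,0,⟨1,[(7,0),(16,0),(5,1),(1,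
  0)]⟩,⟨7,[(27,0),(0,0),(0,3),(10,1),(5,3)]⟩⟩]⟩)) (.R ⟨2,true,false,false,[0,1],[0,0,0,1],[1,1,1],
  (⟨0,[]⟩,⟨0,[]⟩),(⟨0,[(29,0)]⟩,⟨1,[(28,0),(8,0),(0,0)]⟩),⟨0,[]⟩,.k,.k,.k,(.r 0 ⟨5,[(4,5),(1,1),(21,
  2),(2,2),(3,0)]⟩ ⟨2,[(0,0),(18,0),(1,0),(5,0),(1,0)]⟩),.k,.k,⟨false,0,⟨1,[(4,1),(11,0),(11,0),(14,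
  0)]⟩,⟨9,[(1,7),(10,5),(0,1),(0,1),(12,0),(18,2)]⟩⟩,⟨true,0,⟨5,[(6,1),(21,2),(2,2),(3,0)]⟩,⟨0,[(29,
  0)]⟩⟩,⟨true,0,⟨0,[(43,0)]⟩,⟨0,[(44,0)]⟩⟩,⟨false,1,⟨8,[(0,0),(12,5),(0,2),(6,2),(5,3),(0,3),(10,
  1)]⟩,⟨0,[(4,0)]⟩⟩,⟨false,0,⟨0,[]⟩,⟨3,[(26,0),(0,0),(18,1)]⟩⟩,⟨true,0,⟨0,[(0,0)]⟩,⟨0,[(4,0),(38,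
  0)]⟩⟩,[]⟩))))))))))

theorem ok67 : chk (cU (-1) false 2) t67 r44 = true := by decide +kernel

noncomputable def t100 : Tre :=
  (.I [0,0,-1,-1,1,0,0,0,1] (.R ⟨1,false,false,true,[1,0,0,-1],[1,-1],[1,0,0,-1,0,0,0,0,-1],(⟨1,
  [(17,0),(8,0),(0,0)]⟩,⟨0,[(18,0)]⟩),(⟨0,[(29,0)]⟩,⟨0,[(30,0)]⟩),⟨1,[(3,0),(5,0),(7,0)]⟩,.k,.k,(.x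
  0 ⟨1,[(3,0),(5,0),(10,0),(2,0)]⟩ ⟨3,[(15,0),(0,0),(13,3),(3,1)]⟩),(.r 0 ⟨1,[(1,1),(21,0),(0,0),(8,
  3),(3,1)]⟩ ⟨0,[(0,0)]⟩),.k,.k,⟨false,0,⟨0,[(1,0),(31,0)]⟩,⟨1,[(16,0),(17,0),(2,1)]⟩⟩,⟨true,0,⟨1,
  [(17,0),(2,0),(2,0)]⟩,⟨0,[(18,0)]⟩⟩,⟨false,1,⟨0,[(32,0),(2,0)]⟩,⟨0,[(33,0)]⟩⟩,⟨false,1,⟨1,[(0,1),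
  (16,0),(2,0),(2,0)]⟩,⟨0,[(1,0),(16,0),(14,1)]⟩⟩,⟨true,0,⟨0,[]⟩,⟨0,[(37,0)]⟩⟩,⟨false,1,⟨7,[(15,0),
  (0,4),(0,3),(10,1)]⟩,⟨0,[(1,0),(16,0),(14,0)]⟩⟩,[.o ⟨false,0,⟨0,[(5,0)]⟩,⟨3,[(15,0),(0,0),(16,3),
  (1,1)]⟩⟩,.o ⟨false,1,⟨1,[(28,0),(3,1),(2,0)]⟩,⟨0,[(33,0)]⟩⟩,.a ⟨true,0,⟨0,[(18,0)]⟩,⟨1,[(17,0),(8,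
  0),(0,0)]⟩⟩ ⟨false,0,⟨0,[(1,0)]⟩,⟨3,[(15,0),(0,2),(16,3)]⟩⟩ ⟨true,0,⟨1,[(5,0),(11,0),(14,0)]⟩,⟨0,
  [(18,0),(14,0)]⟩⟩,.o ⟨false,0,⟨0,[(12,0),(5,0),(4,0)]⟩,⟨7,[(15,0),(0,0),(0,3),(10,1),(5,3)]⟩⟩]⟩)
  (.R ⟨1,false,false,true,[1,0,0,-1],[1,-1],[1,0,0,-1,0,0,0,0,-1],(⟨1,[(17,0),(8,0),(0,0)]⟩,⟨0,[(18,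
  0)]⟩),(⟨0,[(29,0)]⟩,⟨0,[(30,0)]⟩),⟨1,[(3,0),(5,0),(7,0)]⟩,.k,.k,(.r (-1) ⟨4,[(0,0),(7,1),(1,1),(4,
  1)]⟩ ⟨0,[(0,0),(15,0)]⟩),(.x (-1) ⟨3,[(15,0),(0,0),(13,3),(3,1)]⟩ ⟨1,[(3,0),(5,0),(10,0),(2,0)]⟩),
  .k,.k,⟨false,0,⟨3,[(0,1),(0,1),(32,0),(0,0)]⟩,⟨1,[(16,0),(17,0),(2,1)]⟩⟩,⟨true,0,⟨1,[(17,0),(2,0),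
  (2,0)]⟩,⟨0,[(18,0)]⟩⟩,⟨false,1,⟨0,[(32,0),(2,0)]⟩,⟨0,[(33,0)]⟩⟩,⟨false,1,⟨1,[(5,0),(10,0),(0,0),
  (14,0),(2,0)]⟩,⟨1,[(0,1),(17,1),(15,0),(0,0)]⟩⟩,⟨true,0,⟨0,[]⟩,⟨0,[(37,0)]⟩⟩,⟨false,1,⟨7,[(15,0),
  (0,4),(0,3),(10,1)]⟩,⟨3,[(0,1),(0,1),(16,3),(15,0),(0,0)]⟩⟩,[.o ⟨false,0,⟨0,[(5,0)]⟩,⟨3,[(15,0),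
  (0,0),(16,3),(1,1)]⟩⟩,.o ⟨false,1,⟨1,[(28,0),(3,1),(2,0)]⟩,⟨0,[(33,0)]⟩⟩,.a ⟨true,0,⟨0,[(18,0)]⟩,
  ⟨1,[(17,0),(8,0),(0,0)]⟩⟩ ⟨false,0,⟨0,[(1,0)]⟩,⟨3,[(15,0),(0,2),(16,3)]⟩⟩ ⟨true,0,⟨1,[(5,0),(11,
  0),(14,0)]⟩,⟨0,[(18,0),(14,0)]⟩⟩,.o ⟨false,0,⟨0,[(12,0),(5,0),(4,0)]⟩,⟨7,[(15,0),(0,0),(0,3),(10,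
  1),(5,3)]⟩⟩]⟩))

theorem ok100 : chk (cU (-1) false 2) t100 l58 = true := by decide +kernel

noncomputable def t114 : Tre :=
  (.R ⟨2,true,false,true,[0,1],[1,0,-1],[0,1,1,1],(⟨0,[]⟩,⟨0,[]⟩),(⟨0,[(17,0)]⟩,⟨0,[(18,0)]⟩),⟨0,
  []⟩,.k,.k,.k,.k,.k,.k,⟨true,(-1),⟨0,[(1,0)]⟩,⟨0,[(4,0),(17,0),(0,0)]⟩⟩,⟨false,0,⟨0,[(3,0)]⟩,⟨0,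
  [(0,0),(3,0),(18,0)]⟩⟩,⟨true,0,⟨0,[(28,0)]⟩,⟨0,[]⟩⟩,⟨false,1,⟨0,[(10,0),(12,0),(2,0)]⟩,⟨0,[(0,
  0)]⟩⟩,⟨false,0,⟨0,[(24,0)]⟩,⟨0,[(23,0),(2,0)]⟩⟩,⟨true,0,⟨0,[(10,0)]⟩,⟨0,[(0,0),(22,0)]⟩⟩,[]⟩)

theorem ok114 : chk (cU (-1) false 2) t114 l60 = true := by decide +kernel

noncomputable def t115 : Tre :=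
  (.R ⟨2,false,false,true,[0,1],[1,-1],[1,1,1],(⟨0,[]⟩,⟨0,[]⟩),(⟨0,[(21,0)]⟩,⟨0,[(22,0)]⟩),⟨0,[]⟩,
  .k,.k,.k,(.r 1 ⟨0,[(0,0),(1,0),(8,0),(3,0)]⟩ ⟨0,[(24,1),(1,0),(0,0)]⟩),.k,.k,⟨true,(-1),⟨0,[(0,0),
  (0,0),(0,0),(12,0)]⟩,⟨1,[(24,1),(1,0),(0,0)]⟩⟩,⟨false,0,⟨2,[(1,0),(0,0),(12,0),(4,0),(2,0)]⟩,⟨0,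
  [(0,0),(23,0),(1,0)]⟩⟩,⟨true,0,⟨0,[(24,0)]⟩,⟨0,[(25,0)]⟩⟩,⟨false,1,⟨0,[(1,0),(1,0),(23,0)]⟩,⟨0,
  [(0,0),(24,0)]⟩⟩,⟨false,0,⟨0,[]⟩,⟨3,[(7,0),(0,0),(18,1)]⟩⟩,⟨false,1,⟨1,[(20,0),(3,1),(2,0)]⟩,⟨0,
  [(0,0)]⟩⟩,[.a ⟨true,0,⟨0,[(24,0)]⟩,⟨0,[(0,0)]⟩⟩ ⟨false,0,⟨0,[(29,0)]⟩,⟨1,[(26,0),(0,0)]⟩⟩ ⟨true,0,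
  ⟨1,[(1,0),(1,0),(8,0),(2,0)]⟩,⟨0,[(0,0)]⟩⟩,.o ⟨false,1,⟨1,[(20,0),(3,1),(2,0)]⟩,⟨0,[(25,0)]⟩⟩,.o
  ⟨false,1,⟨3,[(7,0),(0,0),(17,1)]⟩,⟨2,[(1,0),(0,0),(12,0),(4,0),(2,0)]⟩⟩,.e ⟨false,0,⟨0,[]⟩,⟨3,[(7,
  0),(0,0),(18,1)]⟩⟩ ⟨false,1,⟨1,[(20,0),(3,1),(2,0)]⟩,⟨0,[(0,0)]⟩⟩]⟩)

theorem ok115 : chk (cU (-1) false 2) t115 l61 = true := by decide +kernel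

noncomputable def t118 : Tre :=
  (.Q [0,-1,0,2,0,0,1,1,0,1,-1] (.p false [0,0,1] [1] (⟨0,[(21,0)]⟩,⟨0,[(20,0)]⟩) .k 1 (⟨0,[]⟩,⟨0,
  []⟩) .k .k) (.I [0,0,-2,-2,2,0,0,-1] (.R ⟨1,true,false,false,[1,0,-1],[0,1],[1,0,1],(⟨0,[(22,0)]⟩,
  ⟨0,[(23,0)]⟩),(⟨0,[(26,0)]⟩,⟨0,[(25,0)]⟩),⟨0,[(2,0)]⟩,.k,.k,.k,.k,(.r (-2) ⟨0,[(0,0)]⟩ ⟨1,[(1,0),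
  (4,1),(9,0),(1,0),(0,0)]⟩),.k,⟨false,1,⟨1,[(0,0),(20,0)]⟩,⟨0,[(29,0)]⟩⟩,⟨true,1,⟨0,[(19,0),(2,0),
  (0,0),(6,0)]⟩,⟨0,[(5,0),(0,0),(20,0)]⟩⟩,⟨false,0,⟨0,[(21,0),(5,0)]⟩,⟨0,[(9,0)]⟩⟩,⟨true,0,⟨0,[(1,
  0),(26,0)]⟩,⟨0,[(5,0)]⟩⟩,⟨true,(-1),⟨0,[(6,0)]⟩,⟨0,[(9,0),(18,0)]⟩⟩,⟨false,0,⟨0,[(1,0)]⟩,⟨0,[(3,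
  0),(14,0)]⟩⟩,[]⟩) (.R ⟨1,true,false,false,[1,0,-1],[0,1],[1,0,1],(⟨0,[(22,0)]⟩,⟨0,[(23,0)]⟩),(⟨0,
  [(26,0)]⟩,⟨0,[(25,0)]⟩),⟨0,[(2,0)]⟩,.k,.k,.k,.k,(.x 1 ⟨0,[(0,0),(1,0),(0,0),(11,0),(9,0)]⟩ ⟨11,
  [(1,3),(1,3),(5,11),(1,0),(0,0),(4,7),(5,11),(2,23),(3,5)]⟩),.k,⟨false,1,⟨1,[(28,1),(1,0),(0,0)]⟩,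
  ⟨0,[(29,0)]⟩⟩,⟨true,1,⟨0,[(19,0),(2,0),(0,0),(6,0)]⟩,⟨2,[(0,1),(2,0),(1,1),(14,0),(6,0)]⟩⟩,⟨false,
  0,⟨0,[(21,0),(5,0)]⟩,⟨0,[(9,0)]⟩⟩,⟨true,0,⟨0,[(1,0),(26,0)]⟩,⟨0,[(5,0)]⟩⟩,⟨true,(-1),⟨0,[(6,0)]⟩,
  ⟨0,[(9,0),(18,0)]⟩⟩,⟨false,0,⟨0,[(1,0)]⟩,⟨0,[(3,0),(14,0)]⟩⟩,[]⟩)) (.Q [0,0,0,0,0,0,1,1,0,0,-1]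
  (.p false [0,0,1] [] (⟨0,[(22,0)]⟩,⟨0,[(21,0)]⟩) .k 0 (⟨0,[]⟩,⟨0,[]⟩) .k .k) (.Q [0,0,0,1,0,0,-1,
  -1,0,0,1] (.p true [0,0,1] [] (⟨0,[(23,0)]⟩,⟨0,[(22,0)]⟩) .k 0 (⟨0,[]⟩,⟨0,[]⟩) .k .k) (.R ⟨2,true,
  false,true,[0,1],[0,0,1],[1,0,1],(⟨0,[]⟩,⟨0,[]⟩),(⟨0,[(24,0)]⟩,⟨0,[(23,0)]⟩),⟨0,[]⟩,.k,.k,.k,.k,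
  .k,.k,⟨false,1,⟨0,[(10,0),(17,0)]⟩,⟨0,[(7,0),(21,0),(1,0)]⟩⟩,⟨true,0,⟨0,[(20,0)]⟩,⟨1,[(11,0),(11,
  0),(0,0)]⟩⟩,⟨false,1,⟨0,[(29,0),(2,0)]⟩,⟨0,[(30,0)]⟩⟩,⟨true,0,⟨0,[(8,0)]⟩,⟨0,[(0,0)]⟩⟩,⟨true,0,⟨0,
  []⟩,⟨0,[(34,0)]⟩⟩,⟨false,0,⟨0,[(1,0)]⟩,⟨0,[(19,0),(12,0)]⟩⟩,[]⟩) (.Q [0,0,-1,0,1,0,2,0,0,1,-2]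
  (.p false [0,0,1] [1,0,-1] (⟨0,[(24,0)]⟩,⟨0,[(23,0)]⟩) .k 2 (⟨0,[(23,0)]⟩,⟨0,[(24,0)]⟩) .k (.x
  (-1) ⟨0,[(20,1),(3,1),(6,0)]⟩ ⟨0,[(9,1),(13,1)]⟩)) (.K ⟨2,[1,-1,-1],(-1),0,(⟨0,[(4,0)]⟩,⟨0,[(25,
  0),(2,0)]⟩),.k,(.r (-2) ⟨3,[(0,1),(2,1),(1,1),(14,1),(3,1),(0,1),(6,2),(0,0)]⟩ ⟨1,[(8,1),(12,0),
  (0,0),(8,1)]⟩),.k,(.r (-2) ⟨3,[(0,1),(2,0),(1,0),(5,2),(8,3),(0,0),(11,1)]⟩ ⟨0,[(8,0),(14,0)]⟩),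
  .k,[⟨0,[(0,0)]⟩,⟨1,[(3,0),(4,1),(8,0),(11,1)]⟩,⟨0,[(0,0),(7,0),(11,0),(2,0)]⟩,⟨0,[(7,0)]⟩]⟩) (.Q
  [0,0,0,0,0,1,0,0,0,0,-1] (.ed true [1,-1,1] .k) (.Q [0,0,-1,0,0,0,-1,0,0,1,1] (.p true [1,-1,1]
  [] (⟨0,[(26,0),(1,0)]⟩,⟨0,[(0,0)]⟩) .k 0 (⟨0,[]⟩,⟨0,[]⟩) .k .k) (.R ⟨0,false,false,false,[0,1,-1],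
  [0,1],[0,1,1],(⟨0,[(1,0)]⟩,⟨0,[(27,0),(1,0)]⟩),(⟨0,[(30,0)]⟩,⟨0,[(29,0)]⟩),⟨0,[(27,0)]⟩,.k,.k,.k,
  .k,.k,.k,⟨true,0,⟨0,[(32,0)]⟩,⟨0,[(31,0),(1,0)]⟩⟩,⟨false,1,⟨0,[(23,0),(10,0)]⟩,⟨3,[(0,0),(13,0),
  (9,0)]⟩⟩,⟨false,0,⟨6,[(0,1),(1,0),(0,3),(3,0),(3,0),(12,0),(0,1)]⟩,⟨0,[(13,0),(17,0),(1,0)]⟩⟩,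
  ⟨true,0,⟨0,[(4,0)]⟩,⟨0,[(22,0)]⟩⟩,⟨false,0,⟨0,[]⟩,⟨0,[]⟩⟩,⟨false,0,⟨0,[]⟩,⟨0,[]⟩⟩,[.o ⟨false,0,⟨0,
  [(33,0)]⟩,⟨13,[(5,1),(1,3),(3,1),(3,2),(0,2),(11,3)]⟩⟩,.o ⟨false,1,⟨3,[(15,0),(0,0),(16,3),(1,
  1)]⟩,⟨0,[(8,0)]⟩⟩,.a ⟨true,0,⟨0,[(0,0)]⟩,⟨0,[(23,0)]⟩⟩ ⟨false,0,⟨1,[(23,0),(0,0)]⟩,⟨1,[(34,0),(0,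
  0)]⟩⟩ ⟨true,0,⟨0,[(23,0),(9,0)]⟩,⟨0,[(0,0),(7,0)]⟩⟩,.o ⟨false,0,⟨3,[(0,0),(13,0),(9,0)]⟩,⟨1,[(23,
  1),(4,0),(5,0)]⟩⟩]⟩) (.Q [0,0,0,1,0,0,-1,-1,0,1,1] (.p true [1,-1,1] [] (⟨0,[(27,0),(1,0)]⟩,⟨0,
  [(1,0)]⟩) .k 0 (⟨0,[]⟩,⟨0,[]⟩) .k .k) (.R ⟨2,false,false,false,[0,1],[0,1,-1],[1,1,1],(⟨0,[]⟩,⟨0,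
  []⟩),(⟨0,[(2,0)]⟩,⟨0,[(28,0),(1,0)]⟩),⟨0,[]⟩,.k,.k,.k,.k,.k,.k,⟨false,0,⟨1,[(4,0),(1,0),(4,1),(15,
  0),(0,0),(4,0),(1,1)]⟩,⟨1,[(0,0),(0,0),(12,0),(19,0),(1,0)]⟩⟩,⟨true,0,⟨1,[(15,0),(11,0),(0,0)]⟩,
  ⟨0,[(24,0)]⟩⟩,⟨true,0,⟨0,[(33,0)]⟩,⟨0,[(34,0)]⟩⟩,⟨false,1,⟨0,[(23,0),(12,0)]⟩,⟨0,[(5,0)]⟩⟩,⟨false,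
  0,⟨0,[]⟩,⟨3,[(16,0),(0,0),(18,1)]⟩⟩,⟨false,1,⟨1,[(0,1),(28,0),(6,0)]⟩,⟨0,[(4,0)]⟩⟩,[.a ⟨true,0,⟨0,
  [(0,0)]⟩,⟨0,[(4,0)]⟩⟩ ⟨false,0,⟨0,[(38,0)]⟩,⟨1,[(35,0),(0,0)]⟩⟩ ⟨true,0,⟨1,[(0,1),(0,0),(19,0)]⟩,
  ⟨0,[(4,0)]⟩⟩,.o ⟨false,1,⟨1,[(0,1),(28,0),(6,0)]⟩,⟨0,[(5,0),(3,0)]⟩⟩,.o ⟨false,1,⟨3,[(16,0),(0,0),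
  (17,1)]⟩,⟨1,[(1,0),(19,0)]⟩⟩,.e ⟨false,0,⟨0,[]⟩,⟨3,[(16,0),(0,0),(18,1)]⟩⟩ ⟨false,1,⟨1,[(0,1),(28,
  0),(6,0)]⟩,⟨0,[(4,0)]⟩⟩]⟩) (.Q [0,-1,0,1,0,0,1,1,-1,0,-1,1] (.p false [0,0,1] [0,0,0,1] (⟨0,[(28,
  0)]⟩,⟨0,[(27,0)]⟩) .k 2 (⟨0,[(19,0)]⟩,⟨1,[(18,0),(8,0),(0,0)]⟩) .k (.x (-1) ⟨7,[(14,3),(1,0),(0,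
  0),(4,3),(1,3),(3,7),(7,1)]⟩ ⟨1,[(2,0),(4,0),(7,0)]⟩)) (.I [1,0,-1,-1,1,0,0,0,1] (.Q [0,0,0,0,0,1,
  0,0,0,0,0,-1] (.p false [0,0,0,1] [] (⟨0,[(21,0)]⟩,⟨1,[(20,0),(8,0),(0,0)]⟩) .k 0 (⟨0,[]⟩,⟨0,[]⟩)
  .k .k) (.R ⟨0,false,false,false,[0,0,0,1],[0,1,1],[1,0,0,0,0,0,0,0,1],(⟨0,[(22,0)]⟩,⟨1,[(21,0),(8,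
  0),(0,0)]⟩),(⟨0,[(31,0),(2,0)]⟩,⟨0,[(10,0)]⟩),⟨0,[(0,0)]⟩,.k,.k,(.x 0 ⟨1,[(4,0),(19,0),(8,1)]⟩ ⟨3,
  [(19,0),(0,0),(13,3),(3,1)]⟩),(.r (-2) ⟨7,[(1,7),(15,3),(1,0),(0,0),(5,3),(0,3),(11,1)]⟩ ⟨1,[(2,
  1),(6,0),(4,1),(6,0),(4,0)]⟩),.k,.k,⟨false,2,⟨0,[(1,0),(15,0)]⟩,⟨1,[(2,1),(6,0),(4,1),(6,0),(4,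
  0)]⟩⟩,⟨true,1,⟨0,[(22,0),(4,0),(10,0)]⟩,⟨1,[(6,1),(14,0),(5,1),(2,0),(0,0)]⟩⟩,⟨true,0,⟨0,[]⟩,⟨0,
  [(41,0)]⟩⟩,⟨false,0,⟨0,[(2,0)]⟩,⟨1,[(9,0),(10,0),(0,0),(4,0),(12,0)]⟩⟩,⟨false,0,⟨0,[]⟩,⟨0,[]⟩⟩,
  ⟨false,0,⟨0,[]⟩,⟨0,[]⟩⟩,[.o ⟨false,0,⟨0,[(8,0),(28,0)]⟩,⟨3,[(11,1),(14,3),(5,0),(6,0)]⟩⟩,.o
  ⟨false,1,⟨7,[(2,7),(16,0),(0,4),(0,3),(10,1)]⟩,⟨0,[(13,0)]⟩⟩,.a ⟨true,0,⟨1,[(21,0),(8,0),(0,0)]⟩,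
  ⟨0,[(22,0)]⟩⟩ ⟨false,1,⟨1,[(20,0),(18,0)]⟩,⟨1,[(2,1),(6,0),(11,0),(4,0)]⟩⟩ ⟨true,0,⟨0,[(8,0),(13,
  0),(14,0)]⟩,⟨1,[(9,0),(11,0),(4,0)]⟩⟩,.o ⟨false,0,⟨1,[(21,0),(2,0),(2,0)]⟩,⟨1,[(22,1),(9,0),(5,
  0)]⟩⟩]⟩) (.I [0,1,0,0,0,0,0,0,1] (.R ⟨1,false,false,false,[0,0,0,1],[1,-1],[0,1,0,0,0,0,0,0,1],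
  (⟨0,[(23,0)]⟩,⟨1,[(22,0),(8,0),(0,0)]⟩),(⟨0,[(34,0)]⟩,⟨0,[(35,0)]⟩),⟨0,[(1,0)]⟩,.k,.k,(.x 0 ⟨1,
  [(5,0),(19,0),(8,1)]⟩ ⟨3,[(20,0),(0,0),(13,3),(3,1)]⟩),(.r 0 ⟨0,[(0,0),(35,0),(1,0)]⟩ ⟨13,[(3,3),
  (4,1),(1,5),(1,1),(7,4),(1,1),(8,5),(0,5),(6,6)]⟩),.k,.k,⟨false,0,⟨0,[(0,0),(37,0)]⟩,⟨1,[(3,1),(6,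
  1),(11,0),(8,0),(0,0),(6,0),(0,0)]⟩⟩,⟨true,0,⟨1,[(5,0),(17,1),(1,0)]⟩,⟨1,[(22,0),(8,0),(0,0)]⟩⟩,
  ⟨true,0,⟨0,[(42,0)]⟩,⟨0,[]⟩⟩,⟨true,0,⟨0,[(3,0),(6,0)]⟩,⟨1,[(0,1),(21,0),(8,0),(0,0),(5,1)]⟩⟩,
  ⟨false,0,⟨0,[(38,0)]⟩,⟨0,[(37,0),(2,0)]⟩⟩,⟨true,0,⟨1,[(3,1),(6,0),(13,0)]⟩,⟨1,[(0,1),(21,0),(8,0),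
  (0,0)]⟩⟩,[.o ⟨false,1,⟨13,[(10,1),(1,3),(3,1),(3,2),(0,2),(11,3)]⟩,⟨0,[(38,0)]⟩⟩,.o ⟨false,1,⟨3,
  [(12,1),(20,0),(6,0)]⟩,⟨0,[(38,0),(3,0)]⟩⟩,.a ⟨true,0,⟨1,[(22,0),(8,0),(0,0)]⟩,⟨0,[(23,0)]⟩⟩
  ⟨true,0,⟨0,[(0,0)]⟩,⟨1,[(3,1),(6,0),(11,0),(4,0)]⟩⟩ ⟨false,1,⟨3,[(12,1),(10,3),(9,0),(6,0)]⟩,⟨1,
  [(22,0),(8,0),(0,0),(5,1)]⟩⟩,.o ⟨false,0,⟨1,[(22,0),(2,0),(2,0)]⟩,⟨1,[(23,1),(9,0),(5,0)]⟩⟩]⟩)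
  (.R ⟨1,false,false,false,[0,0,0,1],[0,0,1],[1,1,0,-1,0,0,0,0,1],(⟨0,[(23,0)]⟩,⟨1,[(22,0),(8,0),(0,
  0)]⟩),(⟨0,[(32,0)]⟩,⟨0,[(31,0)]⟩),⟨0,[(1,0)]⟩,.k,.k,(.x 0 ⟨1,[(5,0),(19,0),(8,1)]⟩ ⟨3,[(20,0),(0,
  0),(13,3),(3,1)]⟩),.k,(.r (-2) ⟨7,[(2,7),(15,3),(1,0),(0,0),(5,3),(0,3),(11,1)]⟩ ⟨0,[(0,0),(14,0),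
  (26,0)]⟩),.k,⟨true,1,⟨0,[(2,0),(24,0),(0,0)]⟩,⟨0,[(0,0),(14,0)]⟩⟩,⟨false,1,⟨0,[(23,0),(4,0),(10,
  0)]⟩,⟨1,[(19,0),(2,0)]⟩⟩,⟨true,0,⟨0,[(37,0)]⟩,⟨0,[(38,0)]⟩⟩,⟨false,0,⟨1,[(0,0),(2,0),(4,0),(14,
  0)]⟩,⟨1,[(21,0),(0,0),(1,0),(2,0),(12,0)]⟩⟩,⟨false,0,⟨0,[]⟩,⟨3,[(20,0),(0,0),(18,1)]⟩⟩,⟨false,0,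
  ⟨0,[(3,0)]⟩,⟨1,[(10,0),(10,0),(0,0),(4,0),(12,0)]⟩⟩,[.o ⟨false,0,⟨0,[(9,0)]⟩,⟨1,[(27,1),(5,0),(6,
  0)]⟩⟩,.o ⟨false,1,⟨0,[(26,0),(13,0)]⟩,⟨0,[(24,0)]⟩⟩,.a ⟨true,0,⟨1,[(22,0),(8,0),(0,0)]⟩,⟨0,[(23,
  0)]⟩⟩ ⟨false,1,⟨1,[(21,0),(15,1),(2,0)]⟩,⟨0,[(0,0),(37,0)]⟩⟩ ⟨true,0,⟨0,[(9,0),(13,0)]⟩,⟨1,[(22,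
  0),(1,0),(2,0)]⟩⟩,.o ⟨false,0,⟨1,[(22,0),(2,0),(2,0)]⟩,⟨1,[(23,1),(9,0),(5,0)]⟩⟩]⟩))) (.Q [0,0,0,
  0,0,1,0,0,0,0,0,-1] (.p false [0,0,0,1] [] (⟨0,[(21,0)]⟩,⟨1,[(20,0),(8,0),(0,0)]⟩) .k 0 (⟨0,[]⟩,
  ⟨0,[]⟩) .k .k) (.R ⟨0,false,false,false,[0,0,0,1],[0,1],[0,1,1],(⟨0,[(22,0)]⟩,⟨1,[(21,0),(8,0),(0,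
  0)]⟩),(⟨0,[(34,0)]⟩,⟨0,[(33,0)]⟩),⟨0,[(0,0)]⟩,.k,.k,(.r (-2) ⟨3,[(19,0),(0,2),(15,3),(1,1),(0,
  1)]⟩ ⟨0,[(1,0)]⟩),(.r (-2) ⟨3,[(19,0),(0,2),(15,3),(1,1),(0,1)]⟩ ⟨0,[(1,0)]⟩),.k,.k,⟨true,0,⟨0,
  [(36,0)]⟩,⟨1,[(1,1),(18,0),(18,0)]⟩⟩,⟨false,1,⟨0,[(22,0),(15,0)]⟩,⟨1,[(21,0),(2,0),(2,0)]⟩⟩,⟨true,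
  (-1),⟨0,[(1,0),(34,0)]⟩,⟨1,[(20,0),(17,0)]⟩⟩,⟨false,0,⟨1,[(1,1),(20,1),(15,0),(0,0)]⟩,⟨55,[(9,7),
  (1,15),(3,7),(3,4),(0,32),(0,27),(10,1)]⟩⟩,⟨false,0,⟨0,[]⟩,⟨0,[]⟩⟩,⟨false,0,⟨0,[]⟩,⟨0,[]⟩⟩,[.o
  ⟨false,0,⟨0,[(37,0)]⟩,⟨13,[(9,1),(1,3),(3,1),(3,2),(0,2),(11,3)]⟩⟩,.o ⟨false,1,⟨3,[(19,0),(0,0),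
  (16,3),(1,1)]⟩,⟨0,[(12,0)]⟩⟩,.a ⟨true,0,⟨1,[(21,0),(8,0),(0,0)]⟩,⟨0,[(22,0)]⟩⟩ ⟨false,0,⟨1,[(27,
  0),(0,0)]⟩,⟨1,[(38,0),(0,0)]⟩⟩ ⟨true,0,⟨0,[(22,0),(14,0)]⟩,⟨1,[(12,0),(8,0),(14,0)]⟩⟩,.o ⟨false,0,
  ⟨1,[(21,0),(2,0),(2,0)]⟩,⟨1,[(22,1),(9,0),(5,0)]⟩⟩]⟩) (.R ⟨1,false,false,false,[0,0,0,1],[0,1],[0,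
  1,1],(⟨0,[(22,0)]⟩,⟨1,[(21,0),(8,0),(0,0)]⟩),(⟨0,[(34,0)]⟩,⟨0,[(33,0)]⟩),⟨0,[(0,0)]⟩,.k,.k,(.r
  (-2) ⟨3,[(19,0),(0,2),(15,3),(1,1),(0,1)]⟩ ⟨0,[(1,0)]⟩),(.r (-2) ⟨3,[(19,0),(0,2),(15,3),(1,1),(0,
  1)]⟩ ⟨0,[(1,0)]⟩),(.r (-2) ⟨3,[(7,0),(1,0),(1,1),(8,1),(9,2),(0,2),(4,0),(1,3)]⟩ ⟨3,[(1,7),(17,0),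
  (0,2)]⟩),.k,⟨true,0,⟨0,[(36,0)]⟩,⟨1,[(1,1),(18,0),(18,0)]⟩⟩,⟨false,1,⟨0,[(22,0),(15,0)]⟩,⟨1,[(21,
  0),(2,0),(2,0)]⟩⟩,⟨true,(-1),⟨0,[(1,0),(34,0)]⟩,⟨1,[(20,0),(17,0)]⟩⟩,⟨false,0,⟨1,[(1,1),(20,1),
  (15,0),(0,0)]⟩,⟨55,[(9,7),(1,15),(3,7),(3,4),(0,32),(0,27),(10,1)]⟩⟩,⟨false,(-1),⟨0,[(1,0)]⟩,⟨1,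
  [(20,0),(15,1),(1,0),(0,1)]⟩⟩,⟨false,0,⟨1,[(1,1),(20,1),(14,1),(0,0),(0,0)]⟩,⟨3,[(7,0),(1,0),(1,
  1),(8,1),(0,1),(8,0),(0,0),(4,0)]⟩⟩,[.o ⟨false,0,⟨0,[(37,0)]⟩,⟨13,[(9,1),(1,3),(3,1),(3,2),(0,2),
  (11,3)]⟩⟩,.o ⟨false,1,⟨3,[(19,0),(0,0),(16,3),(1,1)]⟩,⟨0,[(12,0)]⟩⟩,.a ⟨true,0,⟨1,[(21,0),(8,0),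
  (0,0)]⟩,⟨0,[(22,0)]⟩⟩ ⟨false,0,⟨1,[(27,0),(0,0)]⟩,⟨1,[(38,0),(0,0)]⟩⟩ ⟨true,0,⟨0,[(22,0),(14,0)]⟩,
  ⟨1,[(12,0),(8,0),(14,0)]⟩⟩,.o ⟨false,0,⟨1,[(21,0),(2,0),(2,0)]⟩,⟨1,[(22,1),(9,0),(5,0)]⟩⟩]⟩)))
  (.I [1,0,0,1,0,0,0,0,-1] (.Q [0,0,0,0,0,1,0,0,0,0,0,-1] (.p false [0,0,0,1] [] (⟨0,[(21,0)]⟩,⟨1,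
  [(20,0),(8,0),(0,0)]⟩) .k 0 (⟨0,[]⟩,⟨0,[]⟩) .k .k) (.R ⟨0,false,false,false,[0,0,0,1],[0,1],[1,0,
  1,1],(⟨0,[(22,0)]⟩,⟨1,[(21,0),(8,0),(0,0)]⟩),(⟨0,[(34,0)]⟩,⟨0,[(33,0)]⟩),⟨0,[(0,0)]⟩,.k,.k,(.r
  (-1) ⟨3,[(2,1),(4,1),(12,0),(1,1),(15,1),(0,0)]⟩ ⟨1,[(1,1),(25,0),(0,0)]⟩),(.r (-1) ⟨3,[(2,1),(4,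
  1),(12,0),(1,1),(15,1),(0,0)]⟩ ⟨1,[(1,1),(25,0),(0,0)]⟩),.k,.k,⟨true,0,⟨0,[]⟩,⟨1,[(27,0),(0,0)]⟩⟩,
  ⟨false,1,⟨0,[(22,0),(15,0)]⟩,⟨1,[(21,0),(2,0),(2,0)]⟩⟩,⟨false,0,⟨0,[(1,0),(33,0)]⟩,⟨3,[(2,1),(4,
  1),(12,0),(1,1),(15,1),(0,0)]⟩⟩,⟨true,0,⟨0,[(1,0),(20,0)]⟩,⟨0,[(2,0),(5,0)]⟩⟩,⟨false,0,⟨0,[]⟩,⟨0,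
  []⟩⟩,⟨false,0,⟨0,[]⟩,⟨0,[]⟩⟩,[.o ⟨false,0,⟨0,[(37,0)]⟩,⟨13,[(9,1),(1,3),(3,1),(3,2),(0,2),(11,
  3)]⟩⟩,.o ⟨false,1,⟨1,[(1,1),(18,0),(18,0)]⟩,⟨0,[(12,0)]⟩⟩,.a ⟨true,0,⟨1,[(21,0),(8,0),(0,0)]⟩,⟨0,
  [(22,0)]⟩⟩ ⟨false,0,⟨0,[(35,0),(1,0)]⟩,⟨1,[(36,1),(1,0),(0,0)]⟩⟩ ⟨true,0,⟨0,[(22,0),(14,0)]⟩,⟨1,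
  [(12,0),(8,0),(14,0)]⟩⟩,.o ⟨false,0,⟨1,[(21,0),(2,0),(2,0)]⟩,⟨1,[(22,1),(9,0),(5,0)]⟩⟩]⟩) (.I [1,
  0,0,0,0,0,0,0,-1] (.R ⟨1,false,false,false,[0,0,0,1],[0,0,1],[1,0,0,-1,0,0,0,0,1],(⟨0,[(23,0)]⟩,
  ⟨1,[(22,0),(8,0),(0,0)]⟩),(⟨0,[(32,0)]⟩,⟨0,[(31,0)]⟩),⟨0,[(1,0)]⟩,.k,.k,(.r (-1) ⟨3,[(3,1),(4,1),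
  (12,0),(1,1),(15,1),(0,0)]⟩ ⟨1,[(2,1),(25,0),(0,0)]⟩),.k,(.r (-2) ⟨1,[(18,1),(2,0),(15,1),(2,0)]⟩
  ⟨0,[(0,0),(14,0)]⟩),.k,⟨true,1,⟨7,[(3,5),(4,1),(9,3),(2,0),(1,5),(4,3),(11,2)]⟩,⟨0,[(0,0),(14,
  0)]⟩⟩,⟨false,1,⟨0,[(23,0),(4,0),(10,0)]⟩,⟨1,[(19,0),(2,0)]⟩⟩,⟨false,1,⟨0,[(37,0),(2,0)]⟩,⟨0,[(38,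
  0)]⟩⟩,⟨true,0,⟨0,[(2,0),(5,0),(14,0)]⟩,⟨0,[(3,0),(34,0)]⟩⟩,⟨true,0,⟨0,[]⟩,⟨0,[(42,0)]⟩⟩,⟨true,0,
  ⟨0,[(2,0),(6,0),(13,0)]⟩,⟨0,[(3,0)]⟩⟩,[.o ⟨false,0,⟨0,[(9,0)]⟩,⟨1,[(27,1),(5,0),(6,0)]⟩⟩,.o
  ⟨false,1,⟨0,[(26,0),(13,0)]⟩,⟨0,[(24,0)]⟩⟩,.a ⟨true,0,⟨1,[(22,0),(8,0),(0,0)]⟩,⟨0,[(23,0)]⟩⟩
  ⟨false,1,⟨3,[(3,1),(4,1),(12,0),(1,1),(16,2)]⟩,⟨0,[(0,0),(14,0),(2,0)]⟩⟩ ⟨true,0,⟨0,[(9,0),(13,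
  0)]⟩,⟨1,[(22,0),(1,0),(2,0)]⟩⟩,.o ⟨false,0,⟨1,[(22,0),(2,0),(2,0)]⟩,⟨1,[(23,1),(9,0),(5,0)]⟩⟩]⟩)
  (.R ⟨1,false,false,true,[0,0,0,1],[1,-1],[1,1],(⟨0,[(23,0)]⟩,⟨1,[(22,0),(8,0),(0,0)]⟩),(⟨0,[(34,
  0)]⟩,⟨0,[(35,0)]⟩),⟨0,[(1,0)]⟩,.k,.k,(.r (-1) ⟨3,[(0,0),(2,0),(4,0),(3,0),(8,0),(1,0),(7,0),(0,0),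
  (6,1)]⟩ ⟨1,[(2,1),(25,0),(0,0)]⟩),(.r 0 ⟨2,[(0,0),(14,0),(5,0),(5,0),(0,0),(7,0),(1,1)]⟩ ⟨3,[(2,
  1),(5,1),(1,1),(9,0),(10,1),(0,1),(6,1),(0,0)]⟩),.k,.k,⟨false,0,⟨0,[(38,0)]⟩,⟨1,[(37,1),(1,0),(0,
  0)]⟩⟩,⟨true,0,⟨1,[(5,0),(17,1),(1,0)]⟩,⟨1,[(22,0),(8,0),(0,0)]⟩⟩,⟨true,0,⟨0,[(2,0),(34,0)]⟩,⟨0,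
  [(0,0)]⟩⟩,⟨true,0,⟨2,[(2,2),(1,0),(5,1),(5,0),(6,2)]⟩,⟨1,[(0,1),(21,0),(8,0),(0,0),(5,1)]⟩⟩,
  ⟨false,0,⟨0,[(2,0)]⟩,⟨3,[(0,1),(11,1),(8,0),(9,1),(0,1),(7,0)]⟩⟩,⟨true,0,⟨0,[(2,0),(10,0),(9,0)]⟩,
  ⟨1,[(0,1),(21,0),(8,0),(0,0)]⟩⟩,[.o ⟨false,0,⟨0,[(13,0)]⟩,⟨1,[(2,1),(18,0),(18,0)]⟩⟩,.o ⟨false,1,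
  ⟨13,[(10,1),(1,3),(3,1),(3,2),(0,2),(11,3)]⟩,⟨0,[(38,0)]⟩⟩,.a ⟨true,0,⟨1,[(22,0),(8,0),(0,0)]⟩,⟨0,
  [(23,0)]⟩⟩ ⟨false,0,⟨0,[]⟩,⟨3,[(20,0),(0,0),(18,1)]⟩⟩ ⟨true,0,⟨0,[(13,0),(9,0)]⟩,⟨1,[(22,0),(8,0),
  (0,0),(5,1)]⟩⟩,.o ⟨false,0,⟨1,[(22,0),(2,0),(2,0)]⟩,⟨1,[(23,1),(9,0),(5,0)]⟩⟩]⟩))) (.I [1,-1,0,1,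
  0,0,0,0,1] (.Q [0,0,0,0,0,-1,0,0,0,1,0,-1] (.p false [0,0,0,1] [1] (⟨0,[(22,0)]⟩,⟨1,[(21,0),(8,0),
  (0,0)]⟩) .k 1 (⟨0,[]⟩,⟨0,[]⟩) .k .k) (.I [1,-1,2,1,-1,0,0,0,1] (.R ⟨1,false,false,false,[1,0,0,
  -1],[0,1],[1,1,0,-1,0,0,0,0,-1],(⟨1,[(23,0),(8,0),(0,0)]⟩,⟨0,[(24,0)]⟩),(⟨0,[(36,0)]⟩,⟨0,[(35,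
  0)]⟩),⟨0,[(1,0)]⟩,.k,.k,(.x 0 ⟨1,[(6,0),(19,0),(8,1)]⟩ ⟨3,[(21,0),(0,0),(13,3),(3,1)]⟩),(.x 0 ⟨1,
  [(6,0),(19,0),(8,1)]⟩ ⟨3,[(21,0),(0,0),(13,3),(3,1)]⟩),(.r (-2) ⟨3,[(9,0),(1,0),(1,1),(7,1),(10,
  2),(0,2),(4,0),(1,3)]⟩ ⟨0,[(0,0),(38,0),(3,0)]⟩),.k,⟨true,1,⟨1,[(9,0),(1,0),(9,0),(10,0),(0,0),(4,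
  0),(1,0)]⟩,⟨0,[(0,0),(38,0)]⟩⟩,⟨false,1,⟨1,[(23,0),(8,0),(0,0),(6,1)]⟩,⟨1,[(6,0),(17,1),(1,0)]⟩⟩,
  ⟨true,0,⟨0,[(38,0)]⟩,⟨0,[(39,0)]⟩⟩,⟨false,0,⟨1,[(2,1),(20,0),(8,0),(0,0)]⟩,⟨5,[(13,1),(0,1),(6,2),
  (2,5),(9,0)]⟩⟩,⟨false,0,⟨0,[]⟩,⟨3,[(21,0),(0,0),(18,1)]⟩⟩,⟨false,0,⟨1,[(2,1),(20,0),(8,0),(0,0),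
  (5,1)]⟩,⟨5,[(5,0),(5,1),(1,2),(3,0),(3,2),(2,5)]⟩⟩,[.o ⟨false,0,⟨0,[(39,0)]⟩,⟨13,[(11,1),(1,3),(3,
  1),(3,2),(0,2),(11,3)]⟩⟩,.o ⟨false,1,⟨3,[(21,0),(0,0),(16,3),(1,1)]⟩,⟨0,[(14,0)]⟩⟩,.a ⟨true,0,⟨0,
  [(24,0)]⟩,⟨1,[(23,0),(8,0),(0,0)]⟩⟩ ⟨false,1,⟨1,[(21,0),(16,1),(2,0)]⟩,⟨0,[(0,0),(39,0)]⟩⟩ ⟨true,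
  0,⟨1,[(23,0),(8,0),(0,0),(5,1)]⟩,⟨0,[(14,0),(9,0)]⟩⟩,.o ⟨false,0,⟨1,[(6,0),(17,1),(1,0)]⟩,⟨7,[(21,
  0),(0,0),(0,3),(10,1),(5,3)]⟩⟩]⟩) (.R ⟨1,false,false,false,[1,0,0,-1],[0,1],[0,0,0,0,0,0,0,0,-1],
  (⟨1,[(23,0),(8,0),(0,0)]⟩,⟨0,[(24,0)]⟩),(⟨0,[(36,0)]⟩,⟨0,[(35,0)]⟩),⟨0,[(1,0)]⟩,.k,.k,(.r (-1) ⟨0,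
  [(0,0),(36,0)]⟩ ⟨5,[(2,1),(13,1),(5,1),(5,1),(0,2),(0,0),(8,1)]⟩),(.r (-1) ⟨0,[(0,0),(36,0)]⟩ ⟨5,
  [(2,1),(13,1),(5,1),(5,1),(0,2),(0,0),(8,1)]⟩),(.r (-2) ⟨0,[(0,0),(37,0),(2,0)]⟩ ⟨0,[(2,0),(13,0),
  (11,0),(0,0)]⟩),.k,⟨true,1,⟨0,[(0,0),(36,0)]⟩,⟨1,[(2,1),(8,0),(4,1),(11,0),(0,1),(2,0),(0,0)]⟩⟩,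
  ⟨false,1,⟨1,[(23,0),(8,0),(0,0),(6,1)]⟩,⟨1,[(6,0),(17,1),(1,0)]⟩⟩,⟨false,1,⟨3,[(21,0),(0,0),(18,
  1)]⟩,⟨0,[]⟩⟩,⟨false,0,⟨1,[(2,1),(20,0),(8,0),(0,0)]⟩,⟨5,[(13,1),(0,1),(6,2),(2,5),(9,0)]⟩⟩,⟨true,
  0,⟨0,[(39,0)]⟩,⟨0,[(38,0)]⟩⟩,⟨false,0,⟨1,[(2,1),(20,0),(8,0),(0,0),(5,1)]⟩,⟨5,[(5,0),(5,1),(1,2),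
  (3,0),(3,2),(2,5)]⟩⟩,[.o ⟨false,0,⟨0,[(39,0)]⟩,⟨13,[(11,1),(1,3),(3,1),(3,2),(0,2),(11,3)]⟩⟩,.o
  ⟨false,1,⟨3,[(21,0),(0,0),(16,3),(1,1)]⟩,⟨0,[(14,0)]⟩⟩,.a ⟨true,0,⟨0,[(24,0)]⟩,⟨1,[(23,0),(8,0),
  (0,0)]⟩⟩ ⟨false,1,⟨1,[(21,0),(19,0)]⟩,⟨1,[(2,0),(0,0),(39,0)]⟩⟩ ⟨true,0,⟨1,[(23,0),(8,0),(0,0),(5,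
  1)]⟩,⟨0,[(14,0),(9,0)]⟩⟩,.o ⟨false,0,⟨1,[(6,0),(17,1),(1,0)]⟩,⟨7,[(21,0),(0,0),(0,3),(10,1),(5,
  3)]⟩⟩]⟩)) (.R ⟨0,false,false,false,[1,0,0,-1],[0,1,1],[0,1,0,-1,0,0,0,0,-1],(⟨1,[(22,0),(8,0),(0,
  0)]⟩,⟨0,[(23,0)]⟩),(⟨0,[(32,0),(2,0)]⟩,⟨0,[(11,0)]⟩),⟨0,[(0,0)]⟩,.k,.k,(.x 0 ⟨1,[(5,0),(19,0),(8,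
  1)]⟩ ⟨3,[(20,0),(0,0),(13,3),(3,1)]⟩),(.r (-2) ⟨1,[(18,1),(1,0),(16,1),(2,0)]⟩ ⟨1,[(1,0),(0,0),
  (12,1),(26,0)]⟩),.k,.k,⟨false,2,⟨1,[(8,0),(1,0),(7,1),(1,0),(10,0),(0,0),(4,0),(1,0)]⟩,⟨0,[(1,0),
  (13,0)]⟩⟩,⟨true,1,⟨1,[(22,0),(5,1),(2,0),(0,0),(6,1)]⟩,⟨0,[(7,0),(15,0),(4,0)]⟩⟩,⟨true,0,⟨0,[(37,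
  0)]⟩,⟨0,[(38,0)]⟩⟩,⟨false,0,⟨1,[(1,1),(7,1),(12,0),(8,0),(0,0)]⟩,⟨1,[(10,0),(9,0),(2,1),(0,0),(15,
  0)]⟩⟩,⟨false,0,⟨0,[]⟩,⟨0,[]⟩⟩,⟨false,0,⟨0,[]⟩,⟨0,[]⟩⟩,[.o ⟨false,0,⟨0,[(9,0),(28,0)]⟩,⟨3,[(12,1),
  (14,3),(5,0),(6,0)]⟩⟩,.o ⟨false,1,⟨0,[(26,0),(11,0),(1,0)]⟩,⟨0,[(14,0)]⟩⟩,.a ⟨true,0,⟨0,[(23,0)]⟩,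
  ⟨1,[(22,0),(8,0),(0,0)]⟩⟩ ⟨false,1,⟨1,[(20,0),(16,1),(2,0)]⟩,⟨0,[(1,0)]⟩⟩ ⟨true,0,⟨1,[(9,1),(12,
  0),(8,0),(0,0),(5,1)]⟩,⟨1,[(10,0),(12,1),(0,0)]⟩⟩,.o ⟨false,0,⟨1,[(5,0),(17,1),(1,0)]⟩,⟨7,[(20,0),
  (0,0),(0,3),(10,1),(5,3)]⟩⟩]⟩)) (.I [1,-1,2,1,0,0,0,-1] (.Q [0,0,0,0,0,-1,0,0,0,1,0,-1] (.p false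
  [0,0,0,1] [1] (⟨0,[(23,0)]⟩,⟨1,[(22,0),(8,0),(0,0)]⟩) .k 1 (⟨0,[]⟩,⟨0,[]⟩) .k .k) (.Q [0,-1,0,1,0,
  0,1,1,1,1,-1,-1] (.p false [0,0,1] [1,0,0,-1] (⟨0,[(33,0)]⟩,⟨0,[(32,0)]⟩) .k 2 (⟨1,[(23,0),(8,0),
  (0,0)]⟩,⟨0,[(24,0)]⟩) .k (.r 0 ⟨3,[(3,1),(12,1),(5,0),(8,1),(8,0)]⟩ ⟨2,[(1,0),(0,0),(16,1),(1,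
  0)]⟩)) (.R ⟨1,false,false,false,[1,0,0,-1],[1,-1],[0,1,0,0,0,0,0,0,-1],(⟨1,[(24,0),(8,0),(0,0)]⟩,
  ⟨0,[(25,0)]⟩),(⟨0,[(36,0)]⟩,⟨0,[(37,0)]⟩),⟨0,[(1,0)]⟩,.k,.k,(.r (-1) ⟨1,[(3,1),(37,0),(0,0)]⟩ ⟨4,
  [(0,0),(1,0),(4,0),(9,1),(5,1),(1,0),(3,1),(10,0)]⟩),(.r 0 ⟨2,[(2,0),(0,0),(13,0),(4,0),(17,1)]⟩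
  ⟨3,[(4,3),(17,0),(0,0),(17,1)]⟩),.k,.k,⟨false,0,⟨0,[(3,0),(36,1)]⟩,⟨1,[(4,1),(36,0),(0,0)]⟩⟩,
  ⟨true,0,⟨1,[(24,0),(2,0),(2,0)]⟩,⟨0,[(25,0)]⟩⟩,⟨true,0,⟨0,[(44,0)]⟩,⟨0,[]⟩⟩,⟨true,0,⟨0,[(0,0),(11,
  0)]⟩,⟨0,[(3,0),(21,0),(14,1)]⟩⟩,⟨false,0,⟨0,[(40,0)]⟩,⟨0,[(39,0),(2,0)]⟩⟩,⟨true,0,⟨1,[(0,1),(11,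
  0),(13,0)]⟩,⟨0,[(3,0),(21,0),(14,0)]⟩⟩,[.o ⟨false,1,⟨13,[(12,1),(1,3),(3,1),(3,2),(0,2),(11,3)]⟩,
  ⟨0,[(40,0)]⟩⟩,.o ⟨false,1,⟨3,[(14,1),(20,0),(6,0)]⟩,⟨0,[(40,0),(3,0)]⟩⟩,.a ⟨true,0,⟨0,[(25,0)]⟩,
  ⟨1,[(24,0),(8,0),(0,0)]⟩⟩ ⟨true,0,⟨0,[(3,0),(36,0)]⟩,⟨0,[(4,0),(35,0)]⟩⟩ ⟨false,1,⟨7,[(14,3),(7,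
  0),(0,0),(0,3),(17,1)]⟩,⟨0,[(25,0),(14,0)]⟩⟩,.o ⟨false,0,⟨1,[(7,0),(17,1),(1,0)]⟩,⟨7,[(22,0),(0,
  0),(0,3),(10,1),(5,3)]⟩⟩]⟩) (.R ⟨1,false,false,false,[1,0,0,-1],[0,0,1],[1,0,0,-1,0,0,0,0,-1],(⟨1,
  [(24,0),(8,0),(0,0)]⟩,⟨0,[(25,0)]⟩),(⟨0,[(34,0)]⟩,⟨0,[(33,0)]⟩),⟨0,[(1,0)]⟩,.k,.k,(.r (-1) ⟨1,[(3,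
  1),(37,0),(0,0)]⟩ ⟨4,[(2,0),(1,0),(12,1),(5,1),(5,0),(0,0),(9,2)]⟩),.k,(.r (-2) ⟨1,[(20,1),(1,0),
  (16,1),(2,0)]⟩ ⟨0,[(4,0),(12,0),(22,0)]⟩),.k,⟨true,1,⟨0,[(3,0),(16,0),(17,0)]⟩,⟨0,[(4,0),(12,0),
  (22,0)]⟩⟩,⟨false,1,⟨1,[(24,0),(5,1),(2,0),(0,0),(6,1)]⟩,⟨0,[(19,0),(5,0)]⟩⟩,⟨false,1,⟨0,[(39,0),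
  (2,0)]⟩,⟨0,[(40,0)]⟩⟩,⟨true,0,⟨1,[(4,1),(6,1),(12,0),(8,0),(0,0),(5,1)]⟩,⟨0,[(0,0),(39,0)]⟩⟩,
  ⟨true,0,⟨0,[]⟩,⟨0,[(44,0)]⟩⟩,⟨true,0,⟨1,[(4,1),(6,1),(12,0),(8,0),(0,0),(5,3)]⟩,⟨0,[(0,0)]⟩⟩,[.o
  ⟨false,0,⟨0,[(11,0)]⟩,⟨1,[(29,1),(5,0),(6,0)]⟩⟩,.o ⟨false,1,⟨0,[(28,0),(13,0)]⟩,⟨0,[(26,0)]⟩⟩,.a
  ⟨true,0,⟨0,[(25,0)]⟩,⟨1,[(24,0),(8,0),(0,0)]⟩⟩ ⟨false,1,⟨0,[(3,0),(38,0)]⟩,⟨0,[(4,0),(35,1)]⟩⟩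
  ⟨true,0,⟨1,[(11,1),(12,0),(8,0),(0,0)]⟩,⟨0,[(25,0),(0,0)]⟩⟩,.o ⟨false,0,⟨1,[(7,0),(17,1),(1,0)]⟩,
  ⟨7,[(22,0),(0,0),(0,3),(10,1),(5,3)]⟩⟩]⟩)) (.Q [0,0,0,-1,0,0,0,0,1,0,0,-1] (.p false [0,0,0,1] []
  (⟨0,[(24,0)]⟩,⟨1,[(23,0),(8,0),(0,0)]⟩) .k 0 (⟨0,[]⟩,⟨0,[]⟩) .k .k) (.R ⟨0,false,false,false,[1,0,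
  0,-1],[1,-1],[1,1,0,0,0,0,0,0,-1],(⟨1,[(24,0),(8,0),(0,0)]⟩,⟨0,[(25,0)]⟩),(⟨0,[(36,0)]⟩,⟨0,[(37,
  0)]⟩),⟨0,[(1,0)]⟩,.k,.k,(.r (-1) ⟨1,[(3,1),(37,0),(0,0)]⟩ ⟨4,[(2,0),(1,0),(12,1),(5,1),(5,0),(0,
  0),(9,2)]⟩),(.r 0 ⟨2,[(2,0),(0,0),(13,0),(4,0),(17,1)]⟩ ⟨3,[(4,3),(17,0),(0,0),(17,1)]⟩),.k,.k,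
  ⟨false,0,⟨0,[(3,0),(36,1)]⟩,⟨1,[(4,1),(36,0),(0,0)]⟩⟩,⟨true,0,⟨1,[(24,0),(2,0),(2,0)]⟩,⟨0,[(25,
  0)]⟩⟩,⟨false,0,⟨0,[]⟩,⟨3,[(22,0),(0,0),(18,1)]⟩⟩,⟨true,0,⟨0,[(0,0)]⟩,⟨0,[(3,0),(21,0),(14,1)]⟩⟩,
  ⟨false,0,⟨0,[]⟩,⟨0,[]⟩⟩,⟨false,0,⟨0,[]⟩,⟨0,[]⟩⟩,[.o ⟨false,1,⟨13,[(12,1),(1,3),(3,1),(3,2),(0,2),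
  (11,3)]⟩,⟨0,[(40,0)]⟩⟩,.o ⟨false,1,⟨3,[(14,1),(20,0),(6,0)]⟩,⟨0,[(40,0),(3,0)]⟩⟩,.a ⟨true,0,⟨0,
  [(25,0)]⟩,⟨1,[(24,0),(8,0),(0,0)]⟩⟩ ⟨true,0,⟨0,[(3,0),(36,0)]⟩,⟨0,[(4,0),(35,0)]⟩⟩ ⟨false,1,⟨7,
  [(14,3),(7,0),(0,0),(0,3),(17,1)]⟩,⟨0,[(25,0),(14,0)]⟩⟩,.o ⟨false,0,⟨1,[(7,0),(17,1),(1,0)]⟩,⟨7,
  [(22,0),(0,0),(0,3),(10,1),(5,3)]⟩⟩]⟩) (.R ⟨0,false,false,false,[1,0,0,-1],[0,1],[1,0,1,1],(⟨1,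
  [(24,0),(8,0),(0,0)]⟩,⟨0,[(25,0)]⟩),(⟨0,[(37,0)]⟩,⟨0,[(36,0)]⟩),⟨0,[(1,0)]⟩,.k,.k,(.r (-1) ⟨1,[(3,
  1),(37,0),(0,0)]⟩ ⟨4,[(2,0),(1,0),(12,1),(5,1),(5,0),(0,0),(9,2)]⟩),(.r (-1) ⟨1,[(3,1),(37,0),(0,
  0)]⟩ ⟨4,[(2,0),(1,0),(12,1),(5,1),(5,0),(0,0),(9,2)]⟩),.k,.k,⟨true,0,⟨0,[]⟩,⟨2,[(2,0),(15,0),(12,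
  0)]⟩⟩,⟨false,1,⟨1,[(24,0),(8,0),(0,0),(6,1)]⟩,⟨1,[(7,0),(17,1),(1,0)]⟩⟩,⟨false,0,⟨2,[(2,0),(1,2),
  (12,0),(22,3),(1,0)]⟩,⟨1,[(3,1),(37,0),(0,0)]⟩⟩,⟨true,0,⟨1,[(4,1),(19,0),(8,0),(0,0),(5,3)]⟩,⟨2,
  [(0,2),(5,0),(5,1),(5,0)]⟩⟩,⟨false,0,⟨0,[]⟩,⟨0,[]⟩⟩,⟨false,0,⟨0,[]⟩,⟨0,[]⟩⟩,[.o ⟨false,0,⟨0,[(40,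
  0)]⟩,⟨13,[(12,1),(1,3),(3,1),(3,2),(0,2),(11,3)]⟩⟩,.o ⟨false,1,⟨3,[(22,0),(0,0),(16,3),(1,1)]⟩,⟨0,
  [(15,0)]⟩⟩,.a ⟨true,0,⟨0,[(25,0)]⟩,⟨1,[(24,0),(8,0),(0,0)]⟩⟩ ⟨false,0,⟨2,[(2,0),(14,0),(22,0),(1,
  0)]⟩,⟨1,[(39,1),(1,0),(0,0)]⟩⟩ ⟨true,0,⟨1,[(24,0),(8,0),(0,0),(5,1)]⟩,⟨0,[(15,0),(9,0)]⟩⟩,.o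
  ⟨false,0,⟨1,[(7,0),(17,1),(1,0)]⟩,⟨7,[(22,0),(0,0),(0,3),(10,1),(5,3)]⟩⟩]⟩))) (.Q [0,0,0,0,0,1,0,
  0,0,0,0,-1] (.p false [0,0,0,1] [] (⟨0,[(23,0)]⟩,⟨1,[(22,0),(8,0),(0,0)]⟩) .k 0 (⟨0,[]⟩,⟨0,[]⟩)
  .k .k) (.Q [0,-1,0,-1,1,0,0,0,-1,-1,0,1] (.p true [0,0,0,1] [1] (⟨0,[(24,0)]⟩,⟨1,[(23,0),(8,0),(0,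
  0)]⟩) .k 1 (⟨0,[]⟩,⟨0,[]⟩) .k .k) (.R ⟨0,false,false,false,[0,0,0,1],[1,-1],[0,1],(⟨0,[(25,0)]⟩,
  ⟨1,[(24,0),(8,0),(0,0)]⟩),(⟨0,[(36,0)]⟩,⟨0,[(37,0)]⟩),⟨0,[(1,0)]⟩,.k,.k,(.r (-1) ⟨5,[(2,1),(1,3),
  (15,1),(1,0),(0,1),(18,0)]⟩ ⟨0,[(3,0),(34,0),(1,1)]⟩),(.r 0 ⟨2,[(4,0),(12,0),(5,0),(5,0),(0,0),(7,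
  0),(1,2)]⟩ ⟨5,[(2,1),(0,3),(16,1),(1,0),(19,2)]⟩),.k,.k,⟨false,0,⟨0,[(40,0),(3,0)]⟩,⟨0,[(2,0),(17,
  0),(17,1)]⟩⟩,⟨true,0,⟨1,[(7,0),(17,1),(1,0)]⟩,⟨1,[(24,0),(8,0),(0,0)]⟩⟩,⟨true,0,⟨0,[(3,0),(36,
  0)]⟩,⟨0,[(4,0),(35,0)]⟩⟩,⟨false,1,⟨0,[(0,0)]⟩,⟨1,[(4,1),(19,0),(8,0),(0,0),(5,3)]⟩⟩,⟨false,0,⟨0,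
  []⟩,⟨0,[]⟩⟩,⟨false,0,⟨0,[]⟩,⟨0,[]⟩⟩,[.o ⟨false,1,⟨13,[(12,1),(1,3),(3,1),(3,2),(0,2),(11,3)]⟩,⟨0,
  [(40,0)]⟩⟩,.o ⟨false,1,⟨3,[(14,1),(20,0),(6,0)]⟩,⟨0,[(40,0),(3,0)]⟩⟩,.a ⟨true,0,⟨1,[(24,0),(8,0),
  (0,0)]⟩,⟨0,[(25,0)]⟩⟩ ⟨true,0,⟨0,[(44,0)]⟩,⟨0,[]⟩⟩ ⟨false,1,⟨3,[(14,1),(10,3),(9,0),(6,0)]⟩,⟨1,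
  [(24,0),(8,0),(0,0),(5,1)]⟩⟩,.o ⟨false,0,⟨1,[(24,0),(2,0),(2,0)]⟩,⟨1,[(25,1),(9,0),(5,0)]⟩⟩]⟩)
  (.K ⟨1,[0,0,0,1],0,0,(⟨0,[(25,0)]⟩,⟨1,[(24,0),(8,0),(0,0)]⟩),.k,(.r (-1) ⟨5,[(2,1),(1,3),(15,1),
  (1,0),(0,1),(18,0)]⟩ ⟨0,[(3,0),(34,0),(1,1)]⟩),(.r 0 ⟨6,[(0,0),(6,0),(9,1),(5,2),(1,0),(3,1),(0,
  0),(7,2),(1,3)]⟩ ⟨5,[(2,1),(0,3),(16,1),(1,0),(19,2)]⟩),.k,.k,[⟨1,[(25,1),(4,0),(0,0)]⟩,⟨1,[(24,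
  0),(2,0),(2,0)]⟩,⟨0,[(3,0),(21,0),(14,0)]⟩,⟨0,[(0,0),(1,0),(17,0),(17,2)]⟩]⟩)) (.I [1,1,-1,-2,0,0,
  0,0,1] (.Q [0,0,0,-1,0,0,0,0,1,0,0,-1] (.p false [0,0,0,1] [] (⟨0,[(25,0)]⟩,⟨1,[(24,0),(8,0),(0,
  0)]⟩) .k 0 (⟨0,[]⟩,⟨0,[]⟩) .k .k) (.R ⟨1,false,false,true,[1,0,0,-1],[1,-1],[0,0,0,0,0,0,0,0,-1],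
  (⟨1,[(25,0),(8,0),(0,0)]⟩,⟨0,[(26,0)]⟩),(⟨0,[(37,0)]⟩,⟨0,[(38,0)]⟩),⟨0,[(2,0),(22,0)]⟩,.k,.k,(.r
  (-1) ⟨5,[(3,1),(0,3),(16,1),(1,0),(19,2)]⟩ ⟨2,[(5,0),(12,0),(5,0),(5,0),(0,0),(7,0),(1,2)]⟩),(.r
  0 ⟨0,[(4,0),(34,0),(1,1)]⟩ ⟨7,[(1,3),(21,0),(0,2),(17,1),(0,1)]⟩),.k,.k,⟨false,1,⟨1,[(23,0),(17,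
  1),(1,0)]⟩,⟨0,[(1,0),(39,0)]⟩⟩,⟨true,0,⟨1,[(25,0),(2,0),(2,0)]⟩,⟨0,[(26,0)]⟩⟩,⟨false,1,⟨3,[(23,0),
  (0,0),(18,1)]⟩,⟨0,[]⟩⟩,⟨false,0,⟨0,[(0,0)]⟩,⟨1,[(23,0),(2,1),(14,1),(1,0)]⟩⟩,⟨true,0,⟨0,[(41,0)]⟩,
  ⟨0,[(40,0)]⟩⟩,⟨false,0,⟨0,[(0,0),(40,0)]⟩,⟨1,[(23,0),(2,1),(16,0)]⟩⟩,[.o ⟨false,0,⟨0,[(16,0)]⟩,⟨3,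
  [(23,0),(0,0),(16,3),(1,1)]⟩⟩,.o ⟨false,1,⟨13,[(13,1),(1,3),(3,1),(3,2),(0,2),(11,3)]⟩,⟨0,[(41,
  0)]⟩⟩,.a ⟨true,0,⟨0,[(26,0)]⟩,⟨1,[(25,0),(8,0),(0,0)]⟩⟩ ⟨false,1,⟨1,[(23,0),(19,0)]⟩,⟨0,[(5,0),
  (35,0)]⟩⟩ ⟨true,0,⟨4,[(4,0),(1,0),(9,1),(2,0),(5,1)]⟩,⟨0,[(26,0),(14,0)]⟩⟩,.o ⟨false,0,⟨1,[(8,0),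
  (17,1),(1,0)]⟩,⟨7,[(23,0),(0,0),(0,3),(10,1),(5,3)]⟩⟩]⟩) (.R ⟨1,false,false,false,[0,0,0,1],[0,1],
  [1,1,0,-1,0,0,0,0,1],(⟨0,[(26,0)]⟩,⟨1,[(25,0),(8,0),(0,0)]⟩),(⟨0,[(38,0)]⟩,⟨0,[(37,0)]⟩),⟨0,[(2,
  0)]⟩,.k,.k,(.r (-1) ⟨7,[(1,3),(21,0),(0,2),(17,1),(0,1)]⟩ ⟨1,[(0,1),(24,0),(2,0),(2,0)]⟩),(.r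
  (-1) ⟨7,[(1,3),(21,0),(0,2),(17,1),(0,1)]⟩ ⟨1,[(0,1),(24,0),(2,0),(2,0)]⟩),(.r (-1) ⟨1,[(1,1),(40,
  0),(0,0)]⟩ ⟨1,[(0,1),(24,0),(2,0),(2,1),(0,0),(8,1)]⟩),.k,⟨true,0,⟨0,[(1,0)]⟩,⟨1,[(0,1),(24,0),(2,
  0),(2,0),(7,1),(1,1)]⟩⟩,⟨false,1,⟨0,[(26,0),(15,0)]⟩,⟨1,[(25,0),(2,0),(2,0)]⟩⟩,⟨true,0,⟨0,[(40,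
  0)]⟩,⟨0,[(41,0)]⟩⟩,⟨true,0,⟨0,[(0,0)]⟩,⟨7,[(1,1),(4,3),(0,0),(0,0),(9,0),(5,0),(0,1),(3,1)]⟩⟩,
  ⟨false,0,⟨0,[]⟩,⟨3,[(23,0),(0,0),(18,1)]⟩⟩,⟨true,0,⟨0,[(0,0),(40,0)]⟩,⟨0,[(6,0),(4,0)]⟩⟩,[.o
  ⟨false,0,⟨0,[(41,0)]⟩,⟨13,[(13,1),(1,3),(3,1),(3,2),(0,2),(11,3)]⟩⟩,.o ⟨false,1,⟨3,[(23,0),(0,0),
  (16,3),(1,1)]⟩,⟨0,[(16,0)]⟩⟩,.a ⟨true,0,⟨1,[(25,0),(8,0),(0,0)]⟩,⟨0,[(26,0)]⟩⟩ ⟨false,0,⟨0,[(5,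
  0)]⟩,⟨1,[(23,0),(17,1),(1,0)]⟩⟩ ⟨true,0,⟨0,[(26,0),(14,0)]⟩,⟨4,[(4,0),(1,0),(9,1),(2,0),(5,1)]⟩⟩,
  .o ⟨false,0,⟨1,[(25,0),(2,0),(2,0)]⟩,⟨1,[(26,1),(9,0),(5,0)]⟩⟩]⟩)) (.R ⟨1,false,false,true,[0,0,0,
  1],[1,-1],[0,1,0,0,0,0,0,0,1],(⟨0,[(25,0)]⟩,⟨1,[(24,0),(8,0),(0,0)]⟩),(⟨0,[(36,0)]⟩,⟨0,[(37,0)]⟩),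
  ⟨0,[(1,0)]⟩,.k,.k,(.r (-1) ⟨5,[(2,1),(1,3),(15,1),(1,0),(0,1),(18,0)]⟩ ⟨2,[(0,0),(16,0),(4,0),(6,
  0),(0,0)]⟩),(.r 0 ⟨2,[(0,0),(3,1),(12,0),(5,0),(5,0),(0,0),(9,1)]⟩ ⟨5,[(2,1),(0,3),(16,1),(1,0),
  (19,2)]⟩),.k,.k,⟨false,0,⟨0,[(4,0),(35,1)]⟩,⟨5,[(2,1),(0,3),(16,1),(1,0),(19,2)]⟩⟩,⟨true,0,⟨1,[(7,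
  0),(17,1),(1,0)]⟩,⟨1,[(24,0),(8,0),(0,0)]⟩⟩,⟨true,0,⟨0,[(44,0)]⟩,⟨0,[]⟩⟩,⟨true,0,⟨1,[(0,0),(1,0),
  (0,0),(3,0),(4,0),(12,1)]⟩,⟨1,[(4,1),(19,0),(8,0),(0,0),(5,3)]⟩⟩,⟨false,0,⟨0,[(40,0)]⟩,⟨0,[(39,0),
  (2,0)]⟩⟩,⟨true,0,⟨1,[(0,0),(1,0),(0,0),(3,0),(17,1),(0,0)]⟩,⟨1,[(4,1),(19,0),(8,0),(0,0),(5,1)]⟩⟩,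
  [.o ⟨false,0,⟨0,[(15,0)]⟩,⟨7,[(0,3),(21,0),(0,2),(17,1),(0,1)]⟩⟩,.o ⟨false,1,⟨13,[(12,1),(1,3),(3,
  1),(3,2),(0,2),(11,3)]⟩,⟨0,[(40,0)]⟩⟩,.a ⟨true,0,⟨1,[(24,0),(8,0),(0,0)]⟩,⟨0,[(25,0)]⟩⟩ ⟨false,0,
  ⟨0,[(4,0),(35,0)]⟩,⟨1,[(22,0),(19,0)]⟩⟩ ⟨true,0,⟨0,[(15,0),(9,0)]⟩,⟨1,[(24,0),(8,0),(0,0),(5,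
  1)]⟩⟩,.o ⟨false,0,⟨1,[(24,0),(2,0),(2,0)]⟩,⟨1,[(25,1),(9,0),(5,0)]⟩⟩]⟩))))))))) (.Q [0,0,0,2,0,0,
  -1,-1,0,0,1] (.p true [0,0,1] [] (⟨0,[(26,0)]⟩,⟨0,[(25,0)]⟩) .k 0 (⟨0,[]⟩,⟨0,[]⟩) .k .k) (.R ⟨1,
  true,false,false,[0,0,1],[0,1],[1,1,0,-1,0,0,0,1],(⟨0,[(27,0)]⟩,⟨0,[(26,0)]⟩),(⟨0,[(30,0)]⟩,⟨0,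
  [(29,0)]⟩),⟨0,[(1,0)]⟩,.k,.k,.k,.k,(.r (-1) ⟨8,[(2,3),(0,9),(1,1),(1,1),(17,0),(0,7),(0,7),(6,
  10)]⟩ ⟨1,[(0,1),(22,2),(0,0)]⟩),.k,⟨true,0,⟨0,[(3,0),(1,0),(4,0),(15,0),(0,0),(6,0)]⟩,⟨0,[(0,0),
  (22,0),(7,0)]⟩⟩,⟨false,1,⟨1,[(14,0),(11,0),(0,0),(6,1)]⟩,⟨0,[(23,0)]⟩⟩,⟨true,0,⟨0,[(32,0)]⟩,⟨0,
  [(33,0)]⟩⟩,⟨false,1,⟨7,[(0,3),(14,0),(0,0),(5,3),(12,5)]⟩,⟨0,[(3,0)]⟩⟩,⟨false,0,⟨0,[]⟩,⟨3,[(15,0),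
  (0,0),(18,1)]⟩⟩,⟨true,0,⟨0,[(0,0)]⟩,⟨0,[(3,0),(28,0)]⟩⟩,[]⟩) (.Q [0,-1,0,-1,1,0,-1,-1,-1,-1,1,1]
  (.p true [0,0,1] [1,0,0,-1] (⟨0,[(27,0)]⟩,⟨0,[(26,0)]⟩) .k 2 (⟨1,[(17,0),(8,0),(0,0)]⟩,⟨0,[(18,
  0)]⟩) .k (.x (-1) ⟨7,[(13,3),(1,0),(0,0),(4,3),(1,3),(3,7),(7,1)]⟩ ⟨0,[(12,0),(13,0)]⟩)) (.Q [0,1,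
  0,-1,0,0,0,0,1,0,0,-1] (.p false [0,0,0,1] [] (⟨0,[(19,0)]⟩,⟨1,[(18,0),(8,0),(0,0)]⟩) .k 0 (⟨0,
  []⟩,⟨0,[]⟩) .k .k) (.I [1,0,1,0,-1,0,0,1,-1] (.R ⟨1,false,false,true,[1,0,0,-1],[1,-1],[0,1,0,0,0,
  0,0,0,-1],(⟨1,[(20,0),(8,0),(0,0)]⟩,⟨0,[(21,0)]⟩),(⟨0,[(32,0)]⟩,⟨0,[(33,0)]⟩),⟨1,[(4,0),(4,0),(10,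
  0)]⟩,.k,.k,(.r (-1) ⟨13,[(0,1),(1,1),(0,3),(4,1),(7,1),(1,4),(1,0),(8,2),(0,2),(6,6)]⟩ ⟨0,[(1,0),
  (19,0),(12,0),(1,1)]⟩),(.r 0 ⟨2,[(0,0),(17,0),(6,0),(0,0),(7,0),(1,2)]⟩ ⟨1,[(1,1),(19,1),(15,0),
  (0,0)]⟩),.k,.k,⟨false,0,⟨0,[(0,0),(15,0),(19,0)]⟩,⟨1,[(1,1),(19,1),(15,0),(0,0)]⟩⟩,⟨true,0,⟨1,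
  [(20,0),(2,0),(2,0)]⟩,⟨0,[(21,0)]⟩⟩,⟨true,0,⟨0,[(40,0)]⟩,⟨0,[]⟩⟩,⟨true,0,⟨0,[(1,0)]⟩,⟨0,[(0,0),
  (15,0),(4,0),(14,0)]⟩⟩,⟨false,0,⟨0,[(36,0)]⟩,⟨11,[(2,3),(0,3),(14,0),(0,2),(0,1),(8,1),(0,1),(7,
  3)]⟩⟩,⟨true,0,⟨0,[(1,0),(34,0)]⟩,⟨0,[(0,0),(15,0),(4,0)]⟩⟩,[.o ⟨false,0,⟨0,[(11,0)]⟩,⟨3,[(18,0),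
  (0,0),(16,3),(1,1)]⟩⟩,.o ⟨false,1,⟨13,[(8,1),(1,3),(3,1),(3,2),(0,2),(11,3)]⟩,⟨0,[(36,0)]⟩⟩,.a
  ⟨true,0,⟨0,[(21,0)]⟩,⟨1,[(20,0),(8,0),(0,0)]⟩⟩ ⟨false,0,⟨0,[(0,0),(15,0)]⟩,⟨1,[(19,0),(18,0)]⟩⟩
  ⟨true,0,⟨1,[(11,0),(8,0),(14,0)]⟩,⟨0,[(21,0),(14,0)]⟩⟩,.o ⟨false,0,⟨2,[(5,0),(15,2),(4,1),(4,0)]⟩,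
  ⟨7,[(18,0),(0,0),(0,3),(10,1),(5,3)]⟩⟩]⟩) (.I [1,1,0,-1,0,0,0,0,-1] (.I [1,0,0,0,0,0,0,0,1] (.R
  ⟨1,false,false,true,[1,0,0,-1],[0,0,1],[1,1,0,-1,0,0,0,0,-1],(⟨1,[(22,0),(8,0),(0,0)]⟩,⟨0,[(23,
  0)]⟩),(⟨0,[(32,0)]⟩,⟨0,[(31,0)]⟩),⟨1,[(6,0),(4,0),(10,0)]⟩,.k,.k,(.r (-1) ⟨7,[(1,1),(2,1),(0,1),
  (14,1),(1,0),(8,0),(0,0),(6,3)]⟩ ⟨2,[(2,0),(12,1),(5,0),(5,0),(0,0),(7,0),(1,0)]⟩),.k,(.r (-2) ⟨7,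
  [(2,5),(1,1),(0,1),(12,1),(1,5),(1,0),(8,0),(0,0),(4,1)]⟩ ⟨0,[(0,0),(14,0)]⟩),.k,⟨true,1,⟨3,[(1,
  1),(2,1),(13,1),(3,0),(5,1),(2,0),(0,0)]⟩,⟨0,[(0,0),(14,0)]⟩⟩,⟨false,1,⟨1,[(22,0),(5,1),(2,0),(0,
  0),(6,1)]⟩,⟨0,[(17,0),(5,0)]⟩⟩,⟨true,0,⟨0,[(37,0)]⟩,⟨0,[(38,0)]⟩⟩,⟨false,0,⟨1,[(0,1),(8,1),(12,0),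
  (8,0),(0,0)]⟩,⟨0,[(4,0),(33,0)]⟩⟩,⟨false,0,⟨0,[]⟩,⟨3,[(20,0),(0,0),(18,1)]⟩⟩,⟨false,0,⟨1,[(2,1),
  (6,1),(5,1),(6,0),(8,0),(0,0)]⟩,⟨0,[(4,0)]⟩⟩,[.o ⟨false,0,⟨0,[(26,0)]⟩,⟨0,[(24,0),(15,0)]⟩⟩,.o
  ⟨false,0,⟨0,[(9,0)]⟩,⟨1,[(27,1),(5,0),(6,0)]⟩⟩,.a ⟨true,0,⟨0,[(23,0)]⟩,⟨1,[(22,0),(8,0),(0,0)]⟩⟩
  ⟨true,0,⟨0,[(1,0)]⟩,⟨0,[(2,0),(12,0)]⟩⟩ ⟨false,0,⟨1,[(9,1),(12,0),(8,0),(0,0)]⟩,⟨7,[(2,3),(1,3),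
  (2,1),(15,3),(9,0),(2,1),(1,3),(1,0)]⟩⟩,.o ⟨false,0,⟨2,[(7,0),(15,2),(4,1),(4,0)]⟩,⟨7,[(20,0),(0,
  0),(0,3),(10,1),(5,3)]⟩⟩]⟩) (.R ⟨1,false,false,true,[1,0,0,-1],[1,-1],[0,1,0,0,0,0,0,0,-1],(⟨1,
  [(22,0),(8,0),(0,0)]⟩,⟨0,[(23,0)]⟩),(⟨0,[(34,0)]⟩,⟨0,[(35,0)]⟩),⟨1,[(6,0),(4,0),(10,0)]⟩,.k,.k,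
  (.r (-1) ⟨7,[(1,1),(2,1),(0,1),(14,1),(1,0),(8,0),(0,0),(6,3)]⟩ ⟨2,[(2,0),(12,1),(5,0),(5,0),(0,
  0),(7,0),(1,0)]⟩),(.r 0 ⟨2,[(0,0),(14,0),(4,0),(6,0),(0,0),(7,0),(1,1)]⟩ ⟨3,[(2,1),(2,1),(13,0),
  (1,0),(9,0),(0,0),(6,0)]⟩),.k,.k,⟨false,0,⟨0,[(0,0),(37,0)]⟩,⟨3,[(2,1),(2,1),(13,0),(1,0),(9,0),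
  (0,0),(6,0)]⟩⟩,⟨true,0,⟨1,[(22,0),(2,0),(2,0)]⟩,⟨0,[(23,0)]⟩⟩,⟨true,0,⟨0,[(42,0)]⟩,⟨0,[]⟩⟩,⟨true,
  0,⟨0,[(3,0)]⟩,⟨0,[(0,0),(22,0),(14,0)]⟩⟩,⟨false,0,⟨0,[(38,0)]⟩,⟨11,[(4,3),(0,3),(14,0),(0,2),(0,
  1),(8,1),(0,1),(7,3)]⟩⟩,⟨true,0,⟨0,[(3,0),(34,0)]⟩,⟨0,[(0,0),(22,0)]⟩⟩,[.o ⟨false,0,⟨0,[(13,0)]⟩,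
  ⟨3,[(20,0),(0,0),(16,3),(1,1)]⟩⟩,.o ⟨false,1,⟨13,[(10,1),(1,3),(3,1),(3,2),(0,2),(11,3)]⟩,⟨0,[(38,
  0)]⟩⟩,.a ⟨true,0,⟨0,[(23,0)]⟩,⟨1,[(22,0),(8,0),(0,0)]⟩⟩ ⟨false,0,⟨0,[(0,0)]⟩,⟨1,[(21,0),(18,0)]⟩⟩
  ⟨true,0,⟨2,[(1,0),(1,0),(9,0),(8,0)]⟩,⟨0,[(23,0),(14,0)]⟩⟩,.o ⟨false,0,⟨2,[(7,0),(15,2),(4,1),(4,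
  0)]⟩,⟨7,[(20,0),(0,0),(0,3),(10,1),(5,3)]⟩⟩]⟩)) (.I [1,0,-1,-2,1,0,0,0,-1] (.R ⟨1,false,false,
  false,[1,0,0,-1],[0,1],[1,0,0,-1,0,0,0,0,-1],(⟨1,[(22,0),(8,0),(0,0)]⟩,⟨0,[(23,0)]⟩),(⟨0,[(35,
  0)]⟩,⟨0,[(34,0)]⟩),⟨1,[(6,0),(4,0),(10,0)]⟩,.k,.k,(.r (-1) ⟨3,[(0,1),(19,0),(18,0)]⟩ ⟨5,[(1,1),
  (13,1),(5,1),(5,1),(0,2),(0,0),(8,1)]⟩),(.r (-1) ⟨3,[(0,1),(19,0),(18,0)]⟩ ⟨5,[(1,1),(13,1),(5,1),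
  (5,1),(0,2),(0,0),(8,1)]⟩),(.r (-2) ⟨3,[(0,3),(19,0),(0,0),(17,1)]⟩ ⟨0,[(1,0),(13,0),(11,0),(0,
  0)]⟩),.k,⟨true,1,⟨0,[(0,0)]⟩,⟨0,[(1,0),(13,0),(11,0),(0,0)]⟩⟩,⟨false,1,⟨1,[(22,0),(8,0),(0,0),(6,
  1)]⟩,⟨2,[(7,0),(15,2),(4,1),(4,0)]⟩⟩,⟨false,1,⟨3,[(0,1),(20,0),(14,1),(3,0)]⟩,⟨0,[(38,0)]⟩⟩,
  ⟨false,0,⟨1,[(1,1),(20,0),(8,0),(0,0)]⟩,⟨3,[(4,1),(11,1),(3,0),(2,1),(9,0)]⟩⟩,⟨true,0,⟨0,[]⟩,⟨0,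
  [(42,0)]⟩⟩,⟨false,0,⟨1,[(1,1),(20,0),(8,0),(0,0),(5,1)]⟩,⟨0,[(4,0),(11,0)]⟩⟩,[.o ⟨false,0,⟨0,[(38,
  0)]⟩,⟨13,[(10,1),(1,3),(3,1),(3,2),(0,2),(11,3)]⟩⟩,.o ⟨false,1,⟨3,[(20,0),(0,0),(16,3),(1,1)]⟩,⟨0,
  [(13,0)]⟩⟩,.a ⟨true,0,⟨0,[(23,0)]⟩,⟨1,[(22,0),(8,0),(0,0)]⟩⟩ ⟨false,1,⟨3,[(0,1),(19,0),(15,1),(3,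
  0)]⟩,⟨0,[(2,0),(12,0)]⟩⟩ ⟨true,0,⟨1,[(22,0),(8,0),(0,0),(5,1)]⟩,⟨0,[(13,0),(9,0)]⟩⟩,.o ⟨false,0,
  ⟨2,[(7,0),(15,2),(4,1),(4,0)]⟩,⟨7,[(20,0),(0,0),(0,3),(10,1),(5,3)]⟩⟩]⟩) (.R ⟨1,false,false,false,
  [1,0,0,-1],[0,1],[1,1,0,-1,0,0,0,0,-1],(⟨1,[(22,0),(8,0),(0,0)]⟩,⟨0,[(23,0)]⟩),(⟨0,[(35,0)]⟩,⟨0,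
  [(34,0)]⟩),⟨1,[(6,0),(4,0),(10,0)]⟩,.k,.k,(.x 0 ⟨1,[(6,0),(4,0),(13,0),(2,0)]⟩ ⟨3,[(20,0),(0,0),
  (13,3),(3,1)]⟩),(.x 0 ⟨1,[(6,0),(4,0),(13,0),(2,0)]⟩ ⟨3,[(20,0),(0,0),(13,3),(3,1)]⟩),(.r (-2) ⟨7,
  [(4,3),(0,3),(14,2),(0,0),(0,1),(8,1),(0,1),(4,3),(1,7)]⟩ ⟨1,[(0,1),(27,0),(0,0)]⟩),.k,⟨true,1,⟨1,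
  [(5,1),(14,0),(6,1),(11,0)]⟩,⟨0,[(0,0),(35,0)]⟩⟩,⟨false,1,⟨1,[(22,0),(8,0),(0,0),(6,1)]⟩,⟨2,[(7,
  0),(15,2),(4,1),(4,0)]⟩⟩,⟨true,0,⟨0,[(37,0)]⟩,⟨0,[(38,0)]⟩⟩,⟨false,0,⟨1,[(1,1),(20,0),(8,0),(0,
  0)]⟩,⟨3,[(4,1),(11,1),(3,0),(2,1),(9,0)]⟩⟩,⟨false,0,⟨0,[]⟩,⟨3,[(20,0),(0,0),(18,1)]⟩⟩,⟨false,0,⟨1,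
  [(0,1),(21,0),(8,0),(0,0),(6,0),(0,0)]⟩,⟨0,[(4,0),(11,0)]⟩⟩,[.o ⟨false,0,⟨0,[(38,0)]⟩,⟨13,[(10,1),
  (1,3),(3,1),(3,2),(0,2),(11,3)]⟩⟩,.o ⟨false,1,⟨3,[(0,1),(19,1),(0,0),(17,0),(0,1)]⟩,⟨0,[(13,0)]⟩⟩,
  .a ⟨true,0,⟨0,[(23,0)]⟩,⟨1,[(22,0),(8,0),(0,0)]⟩⟩ ⟨false,1,⟨15,[(4,3),(0,3),(14,8),(0,2),(0,1),(8,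
  1),(0,1),(4,3)]⟩,⟨0,[(1,0)]⟩⟩ ⟨true,0,⟨3,[(0,1),(19,0),(1,1),(8,1),(0,1),(6,0)]⟩,⟨0,[(13,0),(9,
  0)]⟩⟩,.o ⟨false,0,⟨2,[(7,0),(15,2),(4,1),(4,0)]⟩,⟨7,[(20,0),(0,0),(0,3),(10,1),(5,3)]⟩⟩]⟩)))) (.I
  [0,0,1,1,0,0,0,0,1] (.R ⟨1,false,false,true,[1,0,0,-1],[1,0,-1],[1,1,0,-1,0,0,0,0,-1],(⟨1,[(20,0),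
  (8,0),(0,0)]⟩,⟨0,[(21,0)]⟩),(⟨0,[(29,0)]⟩,⟨0,[(30,0)]⟩),⟨1,[(4,0),(4,0),(10,0)]⟩,.k,.k,(.r (-1)
  ⟨9,[(1,0),(0,0),(0,2),(4,1),(9,3),(1,0),(8,1),(0,1),(6,4)]⟩ ⟨0,[(0,0)]⟩),.k,(.r 0 ⟨1,[(1,1),(1,1),
  (4,0),(4,1),(6,0),(4,0),(11,1)]⟩ ⟨7,[(0,7),(15,3),(1,0),(0,0),(5,3),(0,3),(11,1)]⟩),.k,⟨false,0,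
  ⟨1,[(1,1),(1,1),(4,0),(4,1),(6,0),(4,0),(11,1)]⟩,⟨0,[(0,0),(15,0)]⟩⟩,⟨true,0,⟨1,[(17,0),(2,0)]⟩,
  ⟨0,[(21,0),(4,0)]⟩⟩,⟨true,0,⟨0,[(35,0)]⟩,⟨0,[(36,0)]⟩⟩,⟨false,1,⟨1,[(19,0),(0,0),(1,0),(2,0),(12,
  0)]⟩,⟨0,[(1,0),(4,0)]⟩⟩,⟨false,0,⟨0,[]⟩,⟨3,[(18,0),(0,0),(18,1)]⟩⟩,⟨false,1,⟨1,[(0,1),(15,1),(0,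
  0),(2,0)]⟩,⟨0,[(1,0),(1,0)]⟩⟩,[.o ⟨false,0,⟨0,[(22,0)]⟩,⟨0,[(24,0),(13,0)]⟩⟩,.o ⟨false,1,⟨1,[(25,
  1),(5,0),(6,0)]⟩,⟨0,[(7,0)]⟩⟩,.a ⟨true,0,⟨0,[(21,0)]⟩,⟨1,[(20,0),(8,0),(0,0)]⟩⟩ ⟨false,0,⟨3,[(1,
  3),(1,0),(4,1),(5,0),(5,1),(14,0)]⟩,⟨1,[(0,1),(36,0),(0,0)]⟩⟩ ⟨true,0,⟨1,[(20,0),(1,0),(2,0)]⟩,⟨0,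
  [(7,0),(13,0)]⟩⟩,.o ⟨false,0,⟨2,[(5,0),(15,2),(4,1),(4,0)]⟩,⟨7,[(18,0),(0,0),(0,3),(10,1),(5,
  3)]⟩⟩]⟩) (.R ⟨1,false,false,true,[1,0,0,-1],[1,-1],[0,0,0,0,0,0,0,0,-1],(⟨1,[(20,0),(8,0),(0,0)]⟩,
  ⟨0,[(21,0)]⟩),(⟨0,[(32,0)]⟩,⟨0,[(33,0)]⟩),⟨1,[(4,0),(4,0),(10,0)]⟩,.k,.k,(.x 0 ⟨1,[(4,0),(4,0),
  (13,0),(2,0)]⟩ ⟨3,[(18,0),(0,0),(13,3),(3,1)]⟩),(.r 0 ⟨5,[(1,1),(11,1),(4,1),(1,0),(2,0),(1,1),(0,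
  2),(9,1)]⟩ ⟨0,[(0,0),(18,0)]⟩),.k,.k,⟨false,0,⟨0,[(0,0),(33,0),(1,1)]⟩,⟨1,[(19,0),(15,1),(1,0)]⟩⟩,
  ⟨true,0,⟨1,[(20,0),(2,0),(2,0)]⟩,⟨0,[(21,0)]⟩⟩,⟨false,1,⟨3,[(18,0),(0,0),(18,1)]⟩,⟨0,[]⟩⟩,⟨false,
  1,⟨55,[(8,7),(1,15),(3,7),(3,4),(0,32),(0,27),(10,1)]⟩,⟨0,[(1,0)]⟩⟩,⟨true,0,⟨0,[(36,0)]⟩,⟨0,[(35,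
  0)]⟩⟩,⟨false,1,⟨7,[(18,0),(0,4),(0,3),(10,1)]⟩,⟨1,[(0,0),(0,0),(19,0),(12,0)]⟩⟩,[.o ⟨false,0,⟨0,
  [(11,0)]⟩,⟨3,[(18,0),(0,0),(16,3),(1,1)]⟩⟩,.o ⟨false,1,⟨13,[(8,1),(1,3),(3,1),(3,2),(0,2),(11,
  3)]⟩,⟨0,[(36,0)]⟩⟩,.a ⟨true,0,⟨0,[(21,0)]⟩,⟨1,[(20,0),(8,0),(0,0)]⟩⟩ ⟨false,0,⟨0,[(0,0),(33,0),(1,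
  0)]⟩,⟨3,[(18,0),(0,2)]⟩⟩ ⟨true,0,⟨1,[(11,0),(8,0),(14,0)]⟩,⟨0,[(21,0),(14,0)]⟩⟩,.o ⟨false,0,⟨2,
  [(5,0),(15,2),(4,1),(4,0)]⟩,⟨7,[(18,0),(0,0),(0,3),(10,1),(5,3)]⟩⟩]⟩))) (.I [0,0,-1,-1,1,0,0,0,
  -1] (.R ⟨1,false,false,true,[1,0,0,-1],[1,-1],[0,0,0,0,0,0,0,0,-1],(⟨1,[(19,0),(8,0),(0,0)]⟩,⟨0,
  [(20,0)]⟩),(⟨0,[(31,0)]⟩,⟨0,[(32,0)]⟩),⟨1,[(3,0),(4,0),(10,0)]⟩,.k,.k,(.r (-1) ⟨0,[(0,0)]⟩ ⟨4,[(1,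
  0),(2,0),(13,1),(1,0),(3,0),(0,1),(7,1),(1,3)]⟩),(.x (-1) ⟨3,[(17,0),(0,0),(13,3),(3,1)]⟩ ⟨1,[(3,
  0),(4,0),(13,0),(2,0)]⟩),.k,.k,⟨false,1,⟨1,[(17,0),(17,1),(1,0)]⟩,⟨1,[(1,1),(5,1),(12,1),(15,0),
  (0,0)]⟩⟩,⟨true,0,⟨1,[(19,0),(2,0),(2,0)]⟩,⟨0,[(20,0)]⟩⟩,⟨false,1,⟨3,[(17,0),(0,0),(18,1)]⟩,⟨0,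
  []⟩⟩,⟨false,0,⟨0,[(1,0),(5,0),(29,0)]⟩,⟨1,[(17,0),(2,1),(14,1),(1,0)]⟩⟩,⟨true,0,⟨0,[(35,0)]⟩,⟨0,
  [(34,0)]⟩⟩,⟨false,0,⟨1,[(1,1),(5,0),(13,0),(15,1)]⟩,⟨1,[(17,0),(2,1),(16,0)]⟩⟩,[.o ⟨false,0,⟨0,
  [(10,0)]⟩,⟨3,[(17,0),(0,0),(16,3),(1,1)]⟩⟩,.o ⟨false,1,⟨13,[(7,1),(1,3),(3,1),(3,2),(0,2),(11,
  3)]⟩,⟨0,[(35,0)]⟩⟩,.a ⟨true,0,⟨0,[(20,0)]⟩,⟨1,[(19,0),(8,0),(0,0)]⟩⟩ ⟨false,1,⟨1,[(17,0),(19,0)]⟩,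
  ⟨1,[(1,1),(5,0),(12,1),(0,0),(15,1)]⟩⟩ ⟨true,0,⟨1,[(10,0),(8,0),(14,0)]⟩,⟨0,[(20,0),(14,0)]⟩⟩,.o
  ⟨false,0,⟨2,[(4,0),(15,2),(4,1),(4,0)]⟩,⟨7,[(17,0),(0,0),(0,3),(10,1),(5,3)]⟩⟩]⟩) (.R ⟨1,false,
  false,false,[1,0,0,-1],[0,1],[1,1,0,-1,0,0,0,0,-1],(⟨1,[(19,0),(8,0),(0,0)]⟩,⟨0,[(20,0)]⟩),(⟨0,
  [(32,0)]⟩,⟨0,[(31,0)]⟩),⟨1,[(3,0),(4,0),(10,0)]⟩,.k,.k,(.x 0 ⟨1,[(3,0),(4,0),(13,0),(2,0)]⟩ ⟨3,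
  [(17,0),(0,0),(13,3),(3,1)]⟩),(.x 0 ⟨1,[(3,0),(4,0),(13,0),(2,0)]⟩ ⟨3,[(17,0),(0,0),(13,3),(3,
  1)]⟩),(.r (-2) ⟨1,[(2,1),(14,0),(6,1),(11,1),(0,0)]⟩ ⟨3,[(0,7),(16,2),(0,0)]⟩),.k,⟨true,1,⟨1,[(2,
  1),(14,0),(6,1),(11,0)]⟩,⟨1,[(0,3),(16,0),(19,0)]⟩⟩,⟨false,1,⟨1,[(19,0),(8,0),(0,0),(6,1)]⟩,⟨2,
  [(4,0),(15,2),(4,1),(4,0)]⟩⟩,⟨true,0,⟨0,[(34,0)]⟩,⟨0,[(35,0)]⟩⟩,⟨false,0,⟨1,[(0,1),(18,0),(8,0),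
  (0,0),(6,0),(0,0)]⟩,⟨5,[(2,0),(4,0),(1,0),(7,2),(2,5),(9,1)]⟩⟩,⟨false,0,⟨0,[]⟩,⟨3,[(17,0),(0,0),
  (18,1)]⟩⟩,⟨false,0,⟨1,[(0,1),(18,0),(8,0),(0,0),(5,1),(0,0),(0,0)]⟩,⟨5,[(2,1),(4,1),(1,1),(7,2),
  (2,5),(9,0)]⟩⟩,[.o ⟨false,0,⟨0,[(35,0)]⟩,⟨13,[(7,1),(1,3),(3,1),(3,2),(0,2),(11,3)]⟩⟩,.o ⟨false,1,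
  ⟨3,[(17,0),(0,0),(16,3),(1,1)]⟩,⟨0,[(10,0)]⟩⟩,.a ⟨true,0,⟨0,[(20,0)]⟩,⟨1,[(19,0),(8,0),(0,0)]⟩⟩
  ⟨false,1,⟨1,[(17,0),(16,1),(2,0)]⟩,⟨1,[(0,1),(35,0),(0,0)]⟩⟩ ⟨true,0,⟨1,[(19,0),(8,0),(0,0),(5,
  1)]⟩,⟨0,[(10,0),(9,0)]⟩⟩,.o ⟨false,0,⟨2,[(4,0),(15,2),(4,1),(4,0)]⟩,⟨7,[(17,0),(0,0),(0,3),(10,1),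
  (5,3)]⟩⟩]⟩))))))) (.R ⟨2,true,false,true,[0,1],[0,1,1],[0,0,1,1],(⟨0,[]⟩,⟨0,[]⟩),(⟨0,[(23,0),(2,
  0)]⟩,⟨0,[(2,0)]⟩),⟨0,[]⟩,.k,.k,.k,.k,.k,.k,⟨true,1,⟨1,[(0,0),(8,0),(9,0),(11,0)]⟩,⟨0,[(6,0),(21,
  0)]⟩⟩,⟨false,1,⟨0,[(19,0),(10,0)]⟩,⟨1,[(10,0),(11,0),(0,0)]⟩⟩,⟨false,1,⟨3,[(11,0),(0,0),(18,1)]⟩,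
  ⟨0,[]⟩⟩,⟨true,0,⟨0,[(17,0)]⟩,⟨0,[(0,0)]⟩⟩,⟨true,0,⟨0,[(29,0)]⟩,⟨0,[(28,0)]⟩⟩,⟨false,0,⟨0,[(6,0),
  (12,0),(10,0)]⟩,⟨1,[(1,0),(16,0),(3,0),(0,0),(7,1)]⟩⟩,[]⟩)))

theorem ok118 : chk (cU (-1) false 2) t118 r63 = true := by decide +kernel

noncomputable def t126 : Tre :=
  (.Q [0,0,-1,0,0,0,-1,0,0,1,1] (.p true [1,-1,1] [] (⟨0,[(20,0),(1,0)]⟩,⟨0,[(0,0)]⟩) .k 0 (⟨0,[]⟩,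
  ⟨0,[]⟩) .k .k) (.R ⟨0,false,false,false,[0,1,-1],[1,0,-1],[1,0,1,1,0,0,0,-1],(⟨0,[(1,0)]⟩,⟨0,[(21,
  0),(1,0)]⟩),(⟨0,[(20,0)]⟩,⟨0,[(21,0)]⟩),⟨0,[(21,0)]⟩,.k,.k,.k,.k,.k,.k,⟨false,0,⟨0,[(27,0)]⟩,⟨1,
  [(26,1),(1,0),(0,0)]⟩⟩,⟨true,0,⟨0,[(6,0),(10,0)]⟩,⟨0,[(20,0),(0,0)]⟩⟩,⟨true,0,⟨0,[]⟩,⟨0,[(31,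
  0)]⟩⟩,⟨false,1,⟨0,[(2,0),(26,0)]⟩,⟨0,[(20,0),(0,0),(5,0)]⟩⟩,⟨false,0,⟨0,[]⟩,⟨0,[]⟩⟩,⟨false,0,⟨0,
  []⟩,⟨0,[]⟩⟩,[.o ⟨false,0,⟨0,[(2,0),(2,0)]⟩,⟨3,[(9,0),(0,0),(4,3),(13,1)]⟩⟩,.o ⟨false,1,⟨0,[(13,0),
  (15,0)]⟩,⟨0,[(15,0)]⟩⟩,.a ⟨true,0,⟨0,[(0,0)]⟩,⟨0,[(17,0)]⟩⟩ ⟨false,0,⟨0,[(5,0),(11,0)]⟩,⟨3,[(4,3),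
  (4,0),(0,0),(17,1)]⟩⟩ ⟨true,0,⟨0,[(2,0),(2,0),(11,0)]⟩,⟨0,[(0,0),(14,0)]⟩⟩,.o ⟨false,0,⟨3,[(0,0),
  (7,0),(9,0)]⟩,⟨1,[(17,1),(4,0),(5,0)]⟩⟩]⟩) (.I [1,0,-1,-1,0,0,0,0,-1] (.Q [0,0,0,0,0,1,0,0,0,0,0,
  -1] (.p false [0,0,0,1] [] (⟨0,[(13,0)]⟩,⟨1,[(12,0),(8,0),(0,0)]⟩) .k 0 (⟨0,[]⟩,⟨0,[]⟩) .k .k)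
  (.R ⟨0,false,false,true,[0,0,0,1],[1,-1],[0,1,0,0,0,0,0,0,1],(⟨0,[(14,0)]⟩,⟨1,[(13,0),(8,0),(0,
  0)]⟩),(⟨0,[(25,0)]⟩,⟨0,[(26,0)]⟩),⟨0,[(0,0)]⟩,.k,.k,(.r (-1) ⟨0,[(1,0),(10,0)]⟩ ⟨0,[(1,0),(17,0),
  (0,0),(8,1)]⟩),(.x (-1) ⟨3,[(11,0),(0,0),(13,3),(3,1)]⟩ ⟨1,[(2,0),(13,0),(8,1)]⟩),.k,.k,⟨false,1,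
  ⟨3,[(11,0),(0,2),(16,3)]⟩,⟨0,[(1,0)]⟩⟩,⟨true,0,⟨1,[(2,0),(11,1),(1,0)]⟩,⟨1,[(13,0),(8,0),(0,0)]⟩⟩,
  ⟨true,0,⟨0,[(33,0)]⟩,⟨0,[]⟩⟩,⟨false,0,⟨1,[(1,1),(0,0),(11,1),(1,0)]⟩,⟨1,[(12,0),(0,0),(8,0),(0,0),
  (5,1),(1,0)]⟩⟩,⟨false,0,⟨0,[]⟩,⟨0,[]⟩⟩,⟨false,0,⟨0,[]⟩,⟨0,[]⟩⟩,[.o ⟨false,0,⟨0,[(4,0)]⟩,⟨3,[(11,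
  0),(0,0),(16,3),(1,1)]⟩⟩,.o ⟨false,1,⟨1,[(24,0),(3,1),(2,0)]⟩,⟨0,[(29,0)]⟩⟩,.a ⟨true,0,⟨1,[(13,0),
  (8,0),(0,0)]⟩,⟨0,[(14,0)]⟩⟩ ⟨false,1,⟨3,[(11,0),(0,2)]⟩,⟨0,[(1,0),(25,0),(1,0)]⟩⟩ ⟨true,0,⟨0,[(4,
  0),(9,0)]⟩,⟨1,[(13,0),(8,0),(0,0),(5,1)]⟩⟩,.o ⟨false,0,⟨1,[(13,0),(2,0),(2,0)]⟩,⟨1,[(14,1),(9,0),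
  (5,0)]⟩⟩]⟩) (.R ⟨1,false,false,true,[0,0,0,1],[1,-1],[0,1,0,0,0,0,0,0,1],(⟨0,[(14,0)]⟩,⟨1,[(13,0),
  (8,0),(0,0)]⟩),(⟨0,[(25,0)]⟩,⟨0,[(26,0)]⟩),⟨0,[(0,0)]⟩,.k,.k,(.r (-1) ⟨0,[(1,0),(10,0)]⟩ ⟨0,[(1,
  0),(17,0),(0,0),(8,1)]⟩),(.x (-1) ⟨3,[(11,0),(0,0),(13,3),(3,1)]⟩ ⟨1,[(2,0),(13,0),(8,1)]⟩),.k,.k,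
  ⟨false,1,⟨3,[(11,0),(0,2),(16,3)]⟩,⟨0,[(1,0)]⟩⟩,⟨true,0,⟨1,[(2,0),(11,1),(1,0)]⟩,⟨1,[(13,0),(8,0),
  (0,0)]⟩⟩,⟨true,0,⟨0,[(33,0)]⟩,⟨0,[]⟩⟩,⟨false,0,⟨1,[(1,1),(0,0),(11,1),(1,0)]⟩,⟨1,[(12,0),(0,0),(8,
  0),(0,0),(5,1),(1,0)]⟩⟩,⟨false,0,⟨0,[(29,0)]⟩,⟨0,[(28,0),(2,0)]⟩⟩,⟨false,0,⟨1,[(1,1),(0,0),(11,1),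
  (1,0),(12,1)]⟩,⟨1,[(12,0),(0,0),(8,0),(0,0),(7,0)]⟩⟩,[.o ⟨false,0,⟨0,[(4,0)]⟩,⟨3,[(11,0),(0,0),
  (16,3),(1,1)]⟩⟩,.o ⟨false,1,⟨1,[(24,0),(3,1),(2,0)]⟩,⟨0,[(29,0)]⟩⟩,.a ⟨true,0,⟨1,[(13,0),(8,0),(0,
  0)]⟩,⟨0,[(14,0)]⟩⟩ ⟨false,1,⟨3,[(11,0),(0,2)]⟩,⟨0,[(1,0),(25,0),(1,0)]⟩⟩ ⟨true,0,⟨0,[(4,0),(9,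
  0)]⟩,⟨1,[(13,0),(8,0),(0,0),(5,1)]⟩⟩,.o ⟨false,0,⟨1,[(13,0),(2,0),(2,0)]⟩,⟨1,[(14,1),(9,0),(5,
  0)]⟩⟩]⟩)) (.I [0,0,0,0,0,0,0,-1,-1] (.Q [0,0,0,0,0,0,0,0,-1,-1,0,1] (.p true [0,0,0,1] [1] (⟨0,
  [(14,0)]⟩,⟨1,[(13,0),(8,0),(0,0)]⟩) .k 1 (⟨0,[]⟩,⟨0,[]⟩) .k .k) (.Q [0,0,0,0,0,2,0,0,0,-1] (.pp
  true [-1,1]) (.Q [0,0,0,0,0,0,1,1,-1,0,-1,1] (.p false [0,0,1] [0,0,0,1] (⟨0,[(25,0)]⟩,⟨0,[(24,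
  0)]⟩) .k 2 (⟨0,[(16,0)]⟩,⟨1,[(15,0),(8,0),(0,0)]⟩) .k (.r 0 ⟨0,[(2,0),(20,1)]⟩ ⟨0,[(2,0),(11,
  0)]⟩)) (.Q [0,-1,0,0,0,0,-1,-1,-1,-1,1,1] (.p true [0,0,1] [1,0,0,-1] (⟨0,[(26,0)]⟩,⟨0,[(25,0)]⟩)
  .k 2 (⟨1,[(16,0),(8,0),(0,0)]⟩,⟨0,[(17,0)]⟩) .k (.r (-1) ⟨3,[(14,0),(0,2),(8,3)]⟩ ⟨0,[(3,0)]⟩))
  (.R ⟨0,false,false,false,[0,0,0,1],[1,0,-1],[1,0,0,0,0,0,0,0,1],(⟨0,[(18,0)]⟩,⟨1,[(17,0),(8,0),(0,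
  0)]⟩),(⟨0,[(26,0)]⟩,⟨0,[(27,0)]⟩),⟨1,[(2,0),(14,0)]⟩,.k,.k,(.x 0 ⟨1,[(6,0),(13,0),(8,1)]⟩ ⟨3,[(15,
  0),(0,0),(13,3),(3,1)]⟩),.k,.k,.k,⟨false,1,⟨1,[(16,0),(8,1),(8,0)]⟩,⟨0,[(4,0)]⟩⟩,⟨true,0,⟨0,[(12,
  0),(5,0)]⟩,⟨1,[(17,0),(5,1),(2,0),(0,0)]⟩⟩,⟨true,0,⟨0,[]⟩,⟨0,[(37,0)]⟩⟩,⟨false,0,⟨0,[(0,0)]⟩,⟨0,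
  [(1,0),(14,0),(0,0)]⟩⟩,⟨false,0,⟨0,[]⟩,⟨0,[]⟩⟩,⟨false,0,⟨0,[]⟩,⟨0,[]⟩⟩,[.o ⟨false,0,⟨0,[(8,0),(2,
  0)]⟩,⟨3,[(15,0),(0,0),(4,3),(13,1)]⟩⟩,.o ⟨false,1,⟨0,[(19,0),(15,0)]⟩,⟨0,[(21,0)]⟩⟩,.a ⟨true,0,⟨1,
  [(17,0),(8,0),(0,0)]⟩,⟨0,[(18,0)]⟩⟩ ⟨false,1,⟨1,[(16,0),(18,0)]⟩,⟨3,[(1,1),(2,1),(9,0),(2,0)]⟩⟩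
  ⟨true,0,⟨0,[(8,0),(2,0),(6,0)]⟩,⟨1,[(17,0),(3,1),(4,0),(0,0)]⟩⟩,.o ⟨false,0,⟨1,[(17,0),(2,0),(2,
  0)]⟩,⟨1,[(18,1),(9,0),(5,0)]⟩⟩]⟩) (.R ⟨0,false,false,false,[0,0,0,1],[1,0,-1],[1,0,1],(⟨0,[(18,
  0)]⟩,⟨1,[(17,0),(8,0),(0,0)]⟩),(⟨0,[(26,0)]⟩,⟨0,[(27,0)]⟩),⟨1,[(2,0),(14,0)]⟩,.k,.k,(.x 0 ⟨1,[(6,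
  0),(13,0),(8,1)]⟩ ⟨3,[(15,0),(0,0),(13,3),(3,1)]⟩),.k,.k,.k,⟨false,0,⟨0,[(25,0)]⟩,⟨0,[(13,0)]⟩⟩,
  ⟨true,0,⟨0,[(12,0),(5,0)]⟩,⟨1,[(17,0),(5,1),(2,0),(0,0)]⟩⟩,⟨false,0,⟨3,[(1,1),(2,1),(9,0),(2,0),
  (13,3)]⟩,⟨1,[(16,0),(17,0)]⟩⟩,⟨true,0,⟨2,[(3,0),(0,1),(3,0),(2,0),(2,0),(3,1)]⟩,⟨0,[(0,0)]⟩⟩,
  ⟨false,0,⟨0,[]⟩,⟨0,[]⟩⟩,⟨false,0,⟨0,[]⟩,⟨0,[]⟩⟩,[.o ⟨false,0,⟨0,[(8,0),(2,0)]⟩,⟨3,[(0,1),(0,1),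
  (13,0),(0,0),(11,0),(6,0)]⟩⟩,.o ⟨false,1,⟨0,[(19,0),(15,0)]⟩,⟨0,[(21,0)]⟩⟩,.a ⟨true,0,⟨1,[(17,0),
  (8,0),(0,0)]⟩,⟨0,[(18,0)]⟩⟩ ⟨false,0,⟨0,[(31,0)]⟩,⟨3,[(15,0),(0,0),(17,1)]⟩⟩ ⟨true,0,⟨0,[(8,0),(2,
  0),(6,0)]⟩,⟨1,[(0,0),(0,0),(15,0),(19,0)]⟩⟩,.o ⟨false,0,⟨1,[(17,0),(2,0),(2,0)]⟩,⟨1,[(18,1),(9,0),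
  (5,0)]⟩⟩]⟩)) (.R ⟨0,false,false,true,[0,0,0,1],[0,0,1],[1,1,0,0,0,0,0,1],(⟨0,[(17,0)]⟩,⟨1,[(16,0),
  (8,0),(0,0)]⟩),(⟨0,[(26,0)]⟩,⟨0,[(25,0)]⟩),⟨1,[(1,0),(14,0)]⟩,.k,.k,(.r (-1) ⟨0,[(0,0),(8,0),(7,
  0),(4,0),(10,0)]⟩ ⟨1,[(3,1),(18,0),(0,0),(0,1),(7,1)]⟩),.k,.k,.k,⟨true,0,⟨0,[]⟩,⟨1,[(22,0),(0,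
  0)]⟩⟩,⟨false,1,⟨0,[(17,0),(4,0),(10,0)]⟩,⟨1,[(13,0),(2,0)]⟩⟩,⟨false,0,⟨0,[(3,0),(20,1)]⟩,⟨1,[(0,
  1),(16,1),(4,1),(10,0),(0,0)]⟩⟩,⟨true,0,⟨0,[(2,0),(17,0),(4,0),(0,0)]⟩,⟨0,[(0,0)]⟩⟩,⟨false,0,⟨0,
  []⟩,⟨0,[]⟩⟩,⟨false,0,⟨0,[]⟩,⟨0,[]⟩⟩,[.o ⟨false,0,⟨0,[(20,0)]⟩,⟨0,[(18,0),(15,0)]⟩⟩,.o ⟨false,1,⟨3,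
  [(14,0),(0,0),(4,3),(13,1)]⟩,⟨0,[(7,0),(2,0)]⟩⟩,.a ⟨true,0,⟨1,[(16,0),(8,0),(0,0)]⟩,⟨0,[(17,0)]⟩⟩
  ⟨false,0,⟨0,[(24,0)]⟩,⟨0,[(12,0),(17,0)]⟩⟩ ⟨true,0,⟨0,[(17,0),(2,0)]⟩,⟨3,[(0,1),(2,1),(9,0),(2,
  0)]⟩⟩,.o ⟨false,0,⟨1,[(16,0),(2,0),(2,0)]⟩,⟨1,[(17,1),(9,0),(5,0)]⟩⟩]⟩)) (.Q [0,-1,0,-1,0,0,-1,-1,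
  -1,-1,1,1] (.p true [0,0,1] [1,0,0,-1] (⟨0,[(25,0)]⟩,⟨0,[(24,0)]⟩) .k 2 (⟨1,[(15,0),(8,0),(0,0)]⟩,
  ⟨0,[(16,0)]⟩) .k (.r (-1) ⟨3,[(13,0),(0,2),(8,3)]⟩ ⟨0,[(2,0)]⟩)) (.R ⟨1,false,false,true,[1,0,0,
  -1],[0,0,1],[0,1,0,0,0,0,0,0,-1],(⟨1,[(16,0),(8,0),(0,0)]⟩,⟨0,[(17,0)]⟩),(⟨0,[(26,0)]⟩,⟨0,[(25,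
  0)]⟩),⟨1,[(1,0),(14,0)]⟩,.k,.k,(.r (-1) ⟨3,[(3,1),(5,1),(4,0),(16,1),(1,1),(0,0)]⟩ ⟨0,[(4,0)]⟩),
  .k,(.r (-1) ⟨1,[(3,1),(27,1),(1,0),(0,0)]⟩ ⟨0,[(4,0),(19,0)]⟩),.k,⟨true,0,⟨0,[(3,0)]⟩,⟨0,[(4,0),
  (4,0)]⟩⟩,⟨false,1,⟨1,[(16,0),(5,1),(2,0),(0,0),(6,1)]⟩,⟨0,[(11,0),(5,0)]⟩⟩,⟨true,0,⟨0,[(36,0)]⟩,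
  ⟨0,[]⟩⟩,⟨false,1,⟨1,[(15,0),(0,0),(3,1),(4,0),(0,0),(7,0)]⟩,⟨1,[(0,0),(1,0),(7,0)]⟩⟩,⟨false,0,⟨0,
  [(32,0)]⟩,⟨0,[(31,0),(2,0)]⟩⟩,⟨false,1,⟨1,[(4,1),(11,0),(3,1),(4,0),(0,0),(6,0),(0,0)]⟩,⟨0,[(0,
  0)]⟩⟩,[.o ⟨false,0,⟨0,[(20,0)]⟩,⟨0,[(18,0),(15,0)]⟩⟩,.o ⟨false,1,⟨3,[(14,0),(0,0),(4,3),(13,1)]⟩,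
  ⟨0,[(7,0),(2,0)]⟩⟩,.a ⟨true,0,⟨0,[(17,0)]⟩,⟨1,[(16,0),(8,0),(0,0)]⟩⟩ ⟨false,0,⟨0,[(3,0),(20,0)]⟩,
  ⟨1,[(15,0),(18,0)]⟩⟩ ⟨true,0,⟨1,[(16,0),(3,1),(4,0),(0,0)]⟩,⟨0,[(7,0),(2,0),(6,0)]⟩⟩,.o ⟨false,0,
  ⟨1,[(5,0),(11,1),(1,0)]⟩,⟨7,[(14,0),(0,0),(0,3),(10,1),(5,3)]⟩⟩]⟩) (.Q [0,-1,0,0,0,0,-1,-1,-1,-1,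
  1,1] (.p true [0,0,1] [1,0,0,-1] (⟨0,[(26,0)]⟩,⟨0,[(25,0)]⟩) .k 2 (⟨1,[(16,0),(8,0),(0,0)]⟩,⟨0,
  [(17,0)]⟩) .k (.r (-1) ⟨3,[(14,0),(0,2),(8,3)]⟩ ⟨0,[(3,0)]⟩)) (.R ⟨1,true,false,true,[1,0,-1],[0,
  0,0,1],[0,1,0,0,0,0,0,-1],(⟨0,[(26,0)]⟩,⟨0,[(27,0)]⟩),(⟨0,[(18,0)]⟩,⟨1,[(17,0),(8,0),(0,0)]⟩),⟨0,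
  [(9,0)]⟩,.k,.k,.k,.k,(.r (-1) ⟨1,[(4,1),(27,1),(1,0),(0,0)]⟩ ⟨0,[(5,0),(19,0)]⟩),.k,⟨true,0,⟨0,
  [(4,0)]⟩,⟨0,[(5,0),(4,0)]⟩⟩,⟨false,1,⟨1,[(17,0),(5,1),(2,0),(0,0),(6,1)]⟩,⟨0,[(12,0),(5,0)]⟩⟩,
  ⟨true,0,⟨0,[(37,0)]⟩,⟨0,[]⟩⟩,⟨false,1,⟨0,[(1,0),(30,0),(2,0)]⟩,⟨0,[(0,0)]⟩⟩,⟨false,0,⟨0,[(33,0)]⟩,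
  ⟨0,[(32,0),(2,0)]⟩⟩,⟨true,0,⟨0,[(1,0)]⟩,⟨0,[(0,0),(31,0)]⟩⟩,[]⟩) (.R ⟨2,true,false,false,[0,1],[1,
  0,0,-1],[1,1,1],(⟨0,[]⟩,⟨0,[]⟩),(⟨1,[(17,0),(8,0),(0,0)]⟩,⟨0,[(18,0)]⟩),⟨0,[]⟩,.k,.k,.k,(.r 0 ⟨0,
  [(5,0)]⟩ ⟨3,[(4,1),(5,1),(4,0),(16,1),(1,1),(0,0)]⟩),.k,.k,⟨false,0,⟨0,[(0,0),(7,0),(2,0),(6,0)]⟩,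
  ⟨1,[(4,1),(20,1),(8,0),(0,0)]⟩⟩,⟨true,0,⟨1,[(6,0),(11,1),(1,0)]⟩,⟨1,[(17,0),(8,0),(0,0)]⟩⟩,⟨true,
  0,⟨0,[(32,0)]⟩,⟨0,[(33,0)]⟩⟩,⟨false,1,⟨0,[(3,0),(28,0),(2,0)]⟩,⟨0,[(0,0),(10,0)]⟩⟩,⟨false,0,⟨0,
  []⟩,⟨3,[(15,0),(0,0),(18,1)]⟩⟩,⟨true,0,⟨0,[(3,0)]⟩,⟨0,[(0,0),(10,0),(20,0)]⟩⟩,[]⟩)))) (.R ⟨2,
  false,false,false,[0,1],[1,0,0,-1],[1,1,1],(⟨0,[]⟩,⟨0,[]⟩),(⟨1,[(14,0),(8,0),(0,0)]⟩,⟨0,[(15,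
  0)]⟩),⟨0,[]⟩,.k,.k,.k,(.r 0 ⟨0,[(2,0)]⟩ ⟨3,[(1,1),(5,1),(4,0),(16,1),(1,1),(0,0)]⟩),.k,.k,⟨false,
  0,⟨0,[(0,0),(4,0),(9,0),(14,0)]⟩,⟨1,[(1,1),(20,1),(8,0),(0,0)]⟩⟩,⟨true,0,⟨1,[(3,0),(11,1),(1,0)]⟩,
  ⟨1,[(14,0),(8,0),(0,0)]⟩⟩,⟨true,0,⟨0,[(29,0)]⟩,⟨0,[(30,0)]⟩⟩,⟨false,1,⟨1,[(1,1),(5,1),(7,1),(9,0),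
  (6,0)]⟩,⟨0,[(0,0),(29,0)]⟩⟩,⟨false,0,⟨0,[]⟩,⟨3,[(12,0),(0,0),(18,1)]⟩⟩,⟨false,1,⟨3,[(1,1),(1,1),
  (5,1),(2,0),(2,3),(6,1),(8,0),(0,1)]⟩,⟨0,[(0,0)]⟩⟩,[.a ⟨true,0,⟨0,[(1,0),(13,0),(6,0)]⟩,⟨0,[(0,
  0)]⟩⟩ ⟨false,0,⟨0,[(34,0)]⟩,⟨1,[(31,0),(0,0)]⟩⟩ ⟨true,0,⟨1,[(1,1),(1,0),(11,1),(1,0),(4,1)]⟩,⟨0,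
  [(0,0)]⟩⟩,.o ⟨false,1,⟨3,[(1,1),(1,1),(5,1),(2,0),(2,3),(6,1),(8,0),(0,1)]⟩,⟨0,[(0,0),(4,0),(24,
  0)]⟩⟩,.o ⟨false,1,⟨3,[(12,0),(0,0),(17,1)]⟩,⟨1,[(3,0),(13,0)]⟩⟩,.e ⟨false,0,⟨0,[]⟩,⟨3,[(12,0),(0,
  0),(18,1)]⟩⟩ ⟨false,1,⟨3,[(1,1),(1,1),(5,1),(2,0),(2,3),(6,1),(8,0),(0,1)]⟩,⟨0,[(0,0)]⟩⟩]⟩)) (.I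
  [0,0,-1,-1,0,0,0,0,1] (.Q [0,0,0,0,0,2,0,0,0,-1] (.pp true [-1,1]) (.R ⟨0,false,false,true,[0,0,0,
  1],[1,-1],[1,0,0,0,0,0,0,0,1],(⟨0,[(16,0)]⟩,⟨1,[(15,0),(8,0),(0,0)]⟩),(⟨0,[(27,0)]⟩,⟨0,[(28,0)]⟩),
  ⟨1,[(0,0),(14,0)]⟩,.k,.k,(.r 0 ⟨0,[(1,0)]⟩ ⟨0,[(3,0),(9,0)]⟩),(.r 0 ⟨0,[(3,0)]⟩ ⟨0,[(1,0),(11,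
  0)]⟩),.k,.k,⟨false,0,⟨0,[(1,0),(27,0),(1,1)]⟩,⟨1,[(13,0),(16,1),(1,0)]⟩⟩,⟨true,0,⟨1,[(4,0),(11,1),
  (1,0)]⟩,⟨1,[(15,0),(8,0),(0,0)]⟩⟩,⟨true,0,⟨0,[]⟩,⟨0,[(35,0)]⟩⟩,⟨false,1,⟨1,[(6,1),(6,0),(2,1),(16,
  0)]⟩,⟨1,[(1,1),(13,0),(8,0),(0,0),(3,1),(1,3)]⟩⟩,⟨false,0,⟨0,[]⟩,⟨0,[]⟩⟩,⟨false,0,⟨0,[]⟩,⟨0,[]⟩⟩,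
  [.o ⟨false,0,⟨0,[(6,0)]⟩,⟨3,[(3,1),(9,0),(17,1),(0,0),(0,1)]⟩⟩,.o ⟨false,1,⟨1,[(26,0),(3,1),(2,
  0)]⟩,⟨0,[(31,0)]⟩⟩,.a ⟨true,0,⟨1,[(15,0),(8,0),(0,0)]⟩,⟨0,[(16,0)]⟩⟩ ⟨false,0,⟨0,[(1,0),(27,0),(1,
  0)]⟩,⟨3,[(13,2),(0,0)]⟩⟩ ⟨true,0,⟨0,[(6,0),(9,0)]⟩,⟨1,[(15,0),(8,0),(0,0),(5,1)]⟩⟩,.o ⟨false,0,⟨1,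
  [(15,0),(2,0),(2,0)]⟩,⟨1,[(16,1),(9,0),(5,0)]⟩⟩]⟩) (.R ⟨1,false,false,true,[1,0,0,-1],[1,-1],[0,0,
  0,0,0,0,0,0,-1],(⟨1,[(15,0),(8,0),(0,0)]⟩,⟨0,[(16,0)]⟩),(⟨0,[(27,0)]⟩,⟨0,[(28,0)]⟩),⟨1,[(0,0),(14,
  0)]⟩,.k,.k,(.r (-1) ⟨0,[(1,0),(11,0)]⟩ ⟨0,[(3,0)]⟩),(.r (-1) ⟨0,[(3,0),(9,0)]⟩ ⟨0,[(1,0)]⟩),.k,.k,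
  ⟨false,1,⟨1,[(13,0),(17,1),(1,0)]⟩,⟨0,[(1,0),(33,0)]⟩⟩,⟨true,0,⟨1,[(15,0),(2,0),(2,0)]⟩,⟨0,[(16,
  0)]⟩⟩,⟨false,1,⟨3,[(13,0),(0,0),(18,1)]⟩,⟨0,[]⟩⟩,⟨false,0,⟨1,[(1,1),(13,0),(2,0),(2,0)]⟩,⟨1,[(13,
  0),(2,1),(14,1),(1,0)]⟩⟩,⟨true,0,⟨0,[(31,0)]⟩,⟨0,[(30,0)]⟩⟩,⟨false,0,⟨7,[(1,4),(1,2),(0,1),(5,1),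
  (4,3),(15,1)]⟩,⟨1,[(13,0),(2,1),(16,0)]⟩⟩,[.o ⟨false,0,⟨0,[(6,0)]⟩,⟨3,[(3,1),(9,0),(17,1),(0,0),
  (0,1)]⟩⟩,.o ⟨false,1,⟨1,[(26,0),(3,1),(2,0)]⟩,⟨0,[(31,0)]⟩⟩,.a ⟨true,0,⟨0,[(16,0)]⟩,⟨1,[(15,0),(8,
  0),(0,0)]⟩⟩ ⟨false,1,⟨1,[(13,0),(19,0)]⟩,⟨1,[(1,0),(1,0)]⟩⟩ ⟨true,0,⟨1,[(6,0),(8,0),(14,0)]⟩,⟨0,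
  [(16,0),(14,0)]⟩⟩,.o ⟨false,0,⟨1,[(4,0),(11,1),(1,0)]⟩,⟨7,[(13,0),(0,0),(0,3),(10,1),(5,3)]⟩⟩]⟩))
  (.Q [0,-1,0,1,0,0,0,0,1,1,0,-1] (.p false [0,0,0,1] [1] (⟨0,[(15,0)]⟩,⟨1,[(14,0),(8,0),(0,0)]⟩)
  .k 1 (⟨0,[]⟩,⟨0,[]⟩) .k .k) (.I [0,0,-1,-1,1,0,0,0,-1] (.Q [0,0,0,0,0,1,0,0,0,0,0,-1] (.p false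
  [0,0,0,1] [] (⟨0,[(17,0)]⟩,⟨1,[(16,0),(8,0),(0,0)]⟩) .k 0 (⟨0,[]⟩,⟨0,[]⟩) .k .k) (.R ⟨0,false,
  false,true,[0,0,0,1],[1,-1],[0,1,0,0,0,0,0,0,1],(⟨0,[(18,0)]⟩,⟨1,[(17,0),(8,0),(0,0)]⟩),(⟨0,[(29,
  0)]⟩,⟨0,[(30,0)]⟩),⟨0,[(0,0)]⟩,.k,.k,(.x 0 ⟨1,[(6,0),(13,0),(8,1)]⟩ ⟨3,[(15,0),(0,0),(13,3),(3,
  1)]⟩),(.r 0 ⟨0,[(5,0)]⟩ ⟨0,[(1,0)]⟩),.k,.k,⟨false,0,⟨0,[(2,0),(5,0),(9,0),(14,0)]⟩,⟨0,[(1,0)]⟩⟩,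
  ⟨true,0,⟨1,[(6,0),(11,1),(1,0)]⟩,⟨1,[(17,0),(8,0),(0,0)]⟩⟩,⟨true,0,⟨0,[(37,0)]⟩,⟨0,[]⟩⟩,⟨false,1,
  ⟨1,[(8,1),(6,0),(2,1),(16,0)]⟩,⟨0,[(2,0)]⟩⟩,⟨false,0,⟨0,[]⟩,⟨0,[]⟩⟩,⟨false,0,⟨0,[]⟩,⟨0,[]⟩⟩,[.o
  ⟨false,0,⟨0,[(8,0)]⟩,⟨3,[(5,1),(9,0),(17,1),(0,0),(0,1)]⟩⟩,.o ⟨false,1,⟨1,[(28,0),(3,1),(2,0)]⟩,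
  ⟨0,[(33,0)]⟩⟩,.a ⟨true,0,⟨1,[(17,0),(8,0),(0,0)]⟩,⟨0,[(18,0)]⟩⟩ ⟨false,0,⟨0,[(2,0),(5,0),(9,0)]⟩,
  ⟨1,[(15,0),(19,0)]⟩⟩ ⟨true,0,⟨0,[(8,0),(9,0)]⟩,⟨1,[(17,0),(8,0),(0,0),(5,1)]⟩⟩,.o ⟨false,0,⟨1,
  [(17,0),(2,0),(2,0)]⟩,⟨1,[(18,1),(9,0),(5,0)]⟩⟩]⟩) (.I [0,-1,0,0,0,0,0,0,1] (.R ⟨1,false,false,
  true,[0,0,0,1],[1,-1],[0,0,0,0,0,0,0,0,1],(⟨0,[(19,0)]⟩,⟨1,[(18,0),(8,0),(0,0)]⟩),(⟨0,[(30,0)]⟩,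
  ⟨0,[(31,0)]⟩),⟨0,[(1,0)]⟩,.k,.k,(.x 0 ⟨1,[(7,0),(13,0),(8,1)]⟩ ⟨3,[(16,0),(0,0),(13,3),(3,1)]⟩),
  (.r 0 ⟨0,[(6,0)]⟩ ⟨0,[(2,0)]⟩),.k,.k,⟨false,0,⟨0,[(0,0),(33,0)]⟩,⟨1,[(16,0),(16,1),(1,0)]⟩⟩,⟨true,
  0,⟨1,[(7,0),(11,1),(1,0)]⟩,⟨1,[(18,0),(8,0),(0,0)]⟩⟩,⟨false,1,⟨3,[(16,0),(0,0),(18,1)]⟩,⟨0,[]⟩⟩,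
  ⟨false,1,⟨1,[(9,1),(6,0),(2,1),(16,0)]⟩,⟨0,[(3,0)]⟩⟩,⟨true,0,⟨0,[(34,0)]⟩,⟨0,[(33,0)]⟩⟩,⟨false,1,
  ⟨1,[(16,0),(2,1),(9,0)]⟩,⟨1,[(0,1),(17,0),(8,0),(0,0)]⟩⟩,[.o ⟨false,0,⟨0,[(9,0)]⟩,⟨3,[(6,1),(9,0),
  (17,1),(0,0),(0,1)]⟩⟩,.o ⟨false,1,⟨1,[(29,0),(3,1),(2,0)]⟩,⟨0,[(34,0)]⟩⟩,.a ⟨true,0,⟨1,[(18,0),(8,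
  0),(0,0)]⟩,⟨0,[(19,0)]⟩⟩ ⟨false,0,⟨0,[(0,0)]⟩,⟨3,[(16,2),(0,0)]⟩⟩ ⟨true,0,⟨0,[(9,0),(9,0)]⟩,⟨1,
  [(18,0),(8,0),(0,0),(5,1)]⟩⟩,.o ⟨false,0,⟨1,[(18,0),(2,0),(2,0)]⟩,⟨1,[(19,1),(9,0),(5,0)]⟩⟩]⟩)
  (.R ⟨1,false,false,false,[0,0,0,1],[1,-1],[0,0,0,0,0,0,0,0,1],(⟨0,[(19,0)]⟩,⟨1,[(18,0),(8,0),(0,
  0)]⟩),(⟨0,[(30,0)]⟩,⟨0,[(31,0)]⟩),⟨0,[(1,0)]⟩,.k,.k,(.r (-1) ⟨1,[(3,1),(5,1),(9,1),(13,1),(1,0),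
  (0,0)]⟩ ⟨0,[(0,0),(0,1),(5,0),(4,0),(5,0),(7,0),(4,1)]⟩),(.r 0 ⟨0,[(6,0)]⟩ ⟨0,[(2,0)]⟩),.k,.k,
  ⟨false,0,⟨0,[(3,0),(5,0),(9,0),(14,0)]⟩,⟨0,[(2,0)]⟩⟩,⟨true,0,⟨1,[(7,0),(11,1),(1,0)]⟩,⟨1,[(18,0),
  (8,0),(0,0)]⟩⟩,⟨false,1,⟨3,[(16,0),(0,0),(18,1)]⟩,⟨0,[]⟩⟩,⟨false,1,⟨0,[(2,0),(4,0),(3,0),(0,0),(6,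
  0)]⟩,⟨0,[(3,0),(34,0)]⟩⟩,⟨true,0,⟨0,[(34,0)]⟩,⟨0,[(33,0)]⟩⟩,⟨false,1,⟨1,[(7,1),(3,1),(0,1),(3,0),
  (2,1),(15,0)]⟩,⟨0,[(3,0),(29,0)]⟩⟩,[.o ⟨false,1,⟨1,[(29,0),(3,1),(2,0)]⟩,⟨0,[(34,0)]⟩⟩,.o ⟨false,
  1,⟨0,[(9,0),(26,0)]⟩,⟨0,[(34,0),(3,0)]⟩⟩,.a ⟨true,0,⟨1,[(18,0),(8,0),(0,0)]⟩,⟨0,[(19,0)]⟩⟩ ⟨true,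
  0,⟨0,[(3,0),(5,0),(9,0)]⟩,⟨0,[(0,0)]⟩⟩ ⟨false,1,⟨0,[(9,0),(9,0),(16,0)]⟩,⟨0,[(0,0),(2,0)]⟩⟩,.o
  ⟨false,0,⟨1,[(18,0),(2,0),(2,0)]⟩,⟨1,[(19,1),(9,0),(5,0)]⟩⟩]⟩))) (.Q [0,0,0,0,0,1,0,0,0,0,0,-1]
  (.p false [0,0,0,1] [] (⟨0,[(17,0)]⟩,⟨1,[(16,0),(8,0),(0,0)]⟩) .k 0 (⟨0,[]⟩,⟨0,[]⟩) .k .k) (.R ⟨0,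
  false,false,true,[0,0,0,1],[1,-1],[0,1,-1,-1],(⟨0,[(18,0)]⟩,⟨1,[(17,0),(8,0),(0,0)]⟩),(⟨0,[(29,
  0)]⟩,⟨0,[(30,0)]⟩),⟨0,[(0,0)]⟩,.k,.k,(.r (-1) ⟨1,[(2,1),(5,1),(9,1),(13,1),(1,0),(0,0)]⟩ ⟨0,[(1,
  0),(13,0)]⟩),(.x (-1) ⟨3,[(15,0),(0,0),(13,3),(3,1)]⟩ ⟨1,[(6,0),(13,0),(8,1)]⟩),.k,.k,⟨false,1,⟨3,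
  [(15,0),(0,0),(17,1)]⟩,⟨0,[]⟩⟩,⟨true,0,⟨1,[(6,0),(11,1),(1,0)]⟩,⟨1,[(17,0),(8,0),(0,0)]⟩⟩,⟨true,1,
  ⟨1,[(15,0),(16,1),(1,0)]⟩,⟨0,[(1,0)]⟩⟩,⟨false,1,⟨1,[(8,1),(6,0),(2,1),(16,0)]⟩,⟨0,[(2,0)]⟩⟩,
  ⟨false,0,⟨0,[]⟩,⟨0,[]⟩⟩,⟨false,0,⟨0,[]⟩,⟨0,[]⟩⟩,[.o ⟨false,0,⟨0,[(8,0)]⟩,⟨3,[(5,1),(9,0),(17,1),
  (0,0),(0,1)]⟩⟩,.o ⟨false,1,⟨1,[(28,0),(3,1),(2,0)]⟩,⟨0,[(33,0)]⟩⟩,.a ⟨true,0,⟨1,[(17,0),(8,0),(0,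
  0)]⟩,⟨0,[(18,0)]⟩⟩ ⟨false,1,⟨1,[(32,1),(1,0),(0,0)]⟩,⟨1,[(1,0),(1,0),(31,0)]⟩⟩ ⟨true,0,⟨0,[(8,0),
  (9,0)]⟩,⟨1,[(17,0),(8,0),(0,0),(5,1)]⟩⟩,.o ⟨false,0,⟨1,[(17,0),(2,0),(2,0)]⟩,⟨1,[(18,1),(9,0),(5,
  0)]⟩⟩]⟩) (.I [0,1,-1,-1,0,0,0,0,1] (.R ⟨1,false,false,true,[1,0,0,-1],[1,-1],[1,0,1],(⟨1,[(18,0),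
  (8,0),(0,0)]⟩,⟨0,[(19,0)]⟩),(⟨0,[(30,0)]⟩,⟨0,[(31,0)]⟩),⟨0,[(1,0),(16,0)]⟩,.k,.k,(.x 0 ⟨1,[(7,0),
  (13,0),(8,1)]⟩ ⟨3,[(16,0),(0,0),(13,3),(3,1)]⟩),(.r 0 ⟨0,[(2,0),(13,0)]⟩ ⟨3,[(0,1),(16,0),(15,1),
  (1,0),(0,1)]⟩),.k,.k,⟨false,0,⟨1,[(2,0),(1,0),(31,0)]⟩,⟨0,[(33,0),(1,0)]⟩⟩,⟨true,0,⟨1,[(18,0),(2,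
  0),(2,0)]⟩,⟨0,[(19,0)]⟩⟩,⟨false,0,⟨5,[(0,1),(1,1),(14,0),(14,5),(3,0)]⟩,⟨1,[(16,0),(18,0)]⟩⟩,
  ⟨false,0,⟨1,[(0,1),(6,0),(3,0),(0,0),(5,0),(13,0)]⟩,⟨1,[(16,0),(2,1),(14,1),(1,0)]⟩⟩,⟨true,(-1),
  ⟨0,[(2,0)]⟩,⟨1,[(16,0),(16,1),(1,0)]⟩⟩,⟨false,0,⟨0,[(3,0),(5,0)]⟩,⟨1,[(16,0),(2,1),(16,0)]⟩⟩,[.o
  ⟨false,0,⟨0,[(9,0)]⟩,⟨3,[(6,1),(9,0),(17,1),(0,0),(0,1)]⟩⟩,.o ⟨false,1,⟨1,[(29,0),(3,1),(2,0)]⟩,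
  ⟨0,[(34,0)]⟩⟩,.a ⟨true,0,⟨0,[(19,0)]⟩,⟨1,[(18,0),(8,0),(0,0)]⟩⟩ ⟨false,0,⟨0,[(32,0)]⟩,⟨3,[(16,0),
  (0,0),(17,1)]⟩⟩ ⟨true,0,⟨1,[(9,0),(8,0),(14,0)]⟩,⟨0,[(19,0),(14,0)]⟩⟩,.o ⟨false,0,⟨1,[(7,0),(11,
  1),(1,0)]⟩,⟨7,[(16,0),(0,0),(0,3),(10,1),(5,3)]⟩⟩]⟩) (.R ⟨2,true,false,true,[0,1],[1,-1],[1,1,1],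
  (⟨0,[]⟩,⟨0,[]⟩),(⟨0,[(30,0)]⟩,⟨0,[(31,0)]⟩),⟨0,[]⟩,.k,.k,.k,(.r 1 ⟨0,[(0,1),(0,3),(0,1),(6,1),(8,
  1),(12,3),(3,0)]⟩ ⟨0,[(33,1),(1,0),(0,0)]⟩),.k,.k,⟨true,(-1),⟨0,[(0,0),(1,0),(30,0)]⟩,⟨1,[(33,1),
  (1,0),(0,0)]⟩⟩,⟨false,0,⟨1,[(7,0),(13,0)]⟩,⟨0,[(27,0),(0,0),(6,0)]⟩⟩,⟨true,0,⟨0,[(33,0)]⟩,⟨0,[(34,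
  0)]⟩⟩,⟨false,1,⟨0,[(9,0),(23,0),(2,0)]⟩,⟨0,[(0,0),(1,0),(24,0),(0,0),(6,0)]⟩⟩,⟨false,0,⟨0,[]⟩,⟨3,
  [(16,0),(0,0),(18,1)]⟩⟩,⟨true,0,⟨0,[(9,0)]⟩,⟨0,[(27,0),(0,0),(5,0)]⟩⟩,[]⟩)))) (.Q [0,0,-2,-1,1,0,
  -1,-1,0,0,1] (.p true [0,0,1] [] (⟨0,[(25,0)]⟩,⟨0,[(24,0)]⟩) .k 0 (⟨0,[]⟩,⟨0,[]⟩) .k .k) (.Q [0,0,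
  0,1,0,0,0,0,1,1,0,-1] (.p false [0,0,0,1] [1] (⟨0,[(17,0)]⟩,⟨1,[(16,0),(8,0),(0,0)]⟩) .k 1 (⟨0,
  []⟩,⟨0,[]⟩) .k .k) (.Q [0,0,0,0,0,1,0,0,0,0,0,-1] (.p false [0,0,0,1] [] (⟨0,[(18,0)]⟩,⟨1,[(17,0),
  (8,0),(0,0)]⟩) .k 0 (⟨0,[]⟩,⟨0,[]⟩) .k .k) (.R ⟨0,false,false,true,[0,0,0,1],[1,-1],[0,1,-1,-1],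
  (⟨0,[(19,0)]⟩,⟨1,[(18,0),(8,0),(0,0)]⟩),(⟨0,[(30,0)]⟩,⟨0,[(31,0)]⟩),⟨0,[(0,0)]⟩,.k,.k,(.r (-1) ⟨0,
  [(2,0),(2,0),(18,0)]⟩ ⟨1,[(3,1),(3,1),(2,2),(1,1),(5,0),(7,1),(1,2),(2,2),(2,1)]⟩),(.r 0 ⟨0,[(6,
  0)]⟩ ⟨1,[(3,1),(14,0),(8,0),(0,0),(6,0),(0,0)]⟩),.k,.k,⟨false,1,⟨3,[(16,0),(0,0),(17,1)]⟩,⟨0,[]⟩⟩,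
  ⟨true,0,⟨1,[(7,0),(11,1),(1,0)]⟩,⟨1,[(18,0),(8,0),(0,0)]⟩⟩,⟨false,1,⟨1,[(3,1),(14,0),(8,0),(0,0),
  (6,0),(0,0)]⟩,⟨1,[(1,0),(3,0),(1,0),(4,0),(6,0),(12,0)]⟩⟩,⟨true,0,⟨0,[(3,0)]⟩,⟨0,[(1,0)]⟩⟩,⟨false,
  0,⟨0,[]⟩,⟨0,[]⟩⟩,⟨false,0,⟨0,[]⟩,⟨0,[]⟩⟩,[.o ⟨false,0,⟨0,[(9,0)]⟩,⟨3,[(6,1),(9,0),(17,1),(0,0),(0,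
  1)]⟩⟩,.o ⟨false,1,⟨1,[(29,0),(3,1),(2,0)]⟩,⟨0,[(34,0)]⟩⟩,.a ⟨true,0,⟨1,[(18,0),(8,0),(0,0)]⟩,⟨0,
  [(19,0)]⟩⟩ ⟨false,1,⟨1,[(33,1),(1,0),(0,0)]⟩,⟨0,[(32,0),(1,0)]⟩⟩ ⟨true,0,⟨0,[(9,0),(9,0)]⟩,⟨1,
  [(18,0),(8,0),(0,0),(5,1)]⟩⟩,.o ⟨false,0,⟨1,[(18,0),(2,0),(2,0)]⟩,⟨1,[(19,1),(9,0),(5,0)]⟩⟩]⟩)
  (.I [0,0,0,0,0,0,0,0,-1] (.R ⟨1,false,false,false,[1,0,0,-1],[1,-1],[0,0,0,0,0,0,0,0,-1],(⟨1,[(19,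
  0),(8,0),(0,0)]⟩,⟨0,[(20,0)]⟩),(⟨0,[(31,0)]⟩,⟨0,[(32,0)]⟩),⟨0,[(1,0),(17,0)]⟩,.k,.k,(.r (-1) ⟨3,
  [(0,1),(2,1),(8,1),(4,0),(7,1),(10,0)]⟩ ⟨0,[(7,0)]⟩),(.r 0 ⟨0,[(0,0),(0,3),(6,0),(1,0),(2,0),(5,
  1),(7,0),(4,3),(2,0)]⟩ ⟨0,[(3,0),(2,0),(18,0)]⟩),.k,.k,⟨false,0,⟨0,[(0,0),(34,0)]⟩,⟨0,[(3,0),(2,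
  0),(18,0)]⟩⟩,⟨true,0,⟨1,[(19,0),(2,0),(2,0)]⟩,⟨0,[(20,0)]⟩⟩,⟨false,1,⟨3,[(17,0),(0,0),(18,1)]⟩,⟨0,
  []⟩⟩,⟨false,1,⟨1,[(3,1),(2,1),(1,0),(10,0),(5,0),(7,1)]⟩,⟨0,[(0,0),(19,0),(14,0)]⟩⟩,⟨true,0,⟨0,
  [(35,0)]⟩,⟨0,[(34,0)]⟩⟩,⟨false,1,⟨11,[(3,1),(2,3),(1,3),(4,1),(4,3),(0,5),(10,0),(6,4)]⟩,⟨0,[(0,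
  0),(19,0)]⟩⟩,[.o ⟨false,1,⟨1,[(30,0),(3,1),(2,0)]⟩,⟨0,[(35,0)]⟩⟩,.o ⟨false,1,⟨0,[(10,0),(26,0)]⟩,
  ⟨0,[(35,0),(3,0)]⟩⟩,.a ⟨true,0,⟨0,[(20,0)]⟩,⟨1,[(19,0),(8,0),(0,0)]⟩⟩ ⟨true,0,⟨0,[(0,0)]⟩,⟨0,[(2,
  0),(7,0),(9,0)]⟩⟩ ⟨false,1,⟨1,[(10,0),(8,0),(14,0),(2,1)]⟩,⟨0,[(20,0),(14,0)]⟩⟩,.o ⟨false,0,⟨1,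
  [(8,0),(11,1),(1,0)]⟩,⟨7,[(17,0),(0,0),(0,3),(10,1),(5,3)]⟩⟩]⟩) (.Q [0,0,0,1,0,0,0,0,-2,-1,0,2]
  (.p true [0,0,0,1] [1,0,0,-1] (⟨0,[(20,0)]⟩,⟨1,[(19,0),(8,0),(0,0)]⟩) .k 2 (⟨1,[(19,0),(8,0),(0,
  0)]⟩,⟨0,[(20,0)]⟩) .k .k) (.R ⟨1,true,false,false,[0,0,0,1],[1,0,0,-1],[1,1,0,-1,0,0,0,0,1],(⟨0,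
  [(21,0)]⟩,⟨1,[(20,0),(8,0),(0,0)]⟩),(⟨1,[(20,0),(8,0),(0,0)]⟩,⟨0,[(21,0)]⟩),⟨0,[(2,0)]⟩,.k,.k,(.r
  (-1) ⟨3,[(1,1),(2,1),(8,1),(5,0),(6,1),(10,0)]⟩ ⟨1,[(0,0),(1,7),(6,1),(1,1),(2,1),(5,4),(7,1),(4,
  7),(2,0)]⟩),.k,(.r (-1) ⟨3,[(1,5),(2,1),(8,1),(5,0),(6,1),(10,0)]⟩ ⟨7,[(0,3),(4,1),(0,5),(13,4),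
  (8,0),(0,0),(3,1)]⟩),.k,⟨true,0,⟨0,[(1,1),(33,0)]⟩,⟨0,[(0,0),(19,0),(13,0)]⟩⟩,⟨false,1,⟨1,[(21,3),
  (9,0),(5,0)]⟩,⟨0,[(20,0)]⟩⟩,⟨true,0,⟨0,[(35,0)]⟩,⟨0,[(36,0)]⟩⟩,⟨false,1,⟨3,[(0,1),(4,1),(12,0),(2,
  1),(16,2)]⟩,⟨0,[(1,1),(18,0)]⟩⟩,⟨false,0,⟨0,[]⟩,⟨3,[(18,0),(0,0),(18,1)]⟩⟩,⟨true,0,⟨0,[(0,0)]⟩,⟨0,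
  [(1,1),(18,0),(14,0)]⟩⟩,[]⟩) (.I [1,1,0,0,0,0,0,-1,-1] (.R ⟨1,false,false,false,[1,0,0,-1],[1,-1,
  1],[0,1,0,0,0,0,0,0,-1],(⟨1,[(21,0),(8,0),(0,0)]⟩,⟨0,[(22,0)]⟩),(⟨0,[(31,0),(1,0)]⟩,⟨0,[(11,0)]⟩),
  ⟨0,[(3,0),(17,0)]⟩,.k,.k,(.r (-1) ⟨1,[(0,1),(13,1),(23,0),(0,0)]⟩ ⟨0,[(9,0)]⟩),(.r 0 ⟨1,[(0,0),(6,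
  0),(7,0),(11,0)]⟩ ⟨1,[(14,1),(5,0),(17,0)]⟩),.k,.k,⟨false,0,⟨0,[(0,0),(36,0)]⟩,⟨1,[(2,1),(11,1),
  (23,0),(0,0)]⟩⟩,⟨true,0,⟨1,[(10,0),(10,0),(5,0)]⟩,⟨1,[(18,0),(3,1),(7,0),(0,0)]⟩⟩,⟨true,0,⟨0,[(41,
  0)]⟩,⟨0,[]⟩⟩,⟨false,1,⟨3,[(1,1),(8,1),(3,1),(10,1),(12,0),(0,2)]⟩,⟨0,[(0,0),(14,0),(6,0),(6,0)]⟩⟩,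
  ⟨false,0,⟨0,[(37,0)]⟩,⟨0,[(36,0),(2,0)]⟩⟩,⟨false,1,⟨6,[(1,0),(2,0),(3,3),(1,3),(10,1),(3,2),(12,
  1),(0,4)]⟩,⟨0,[(6,0),(8,0),(14,0),(0,0)]⟩⟩,[.o ⟨false,1,⟨7,[(1,1),(4,3),(3,1),(3,1),(10,5),(6,1),
  (5,0),(0,4)]⟩,⟨1,[(15,0),(10,0),(10,0)]⟩⟩,.o ⟨false,1,⟨1,[(10,1),(3,1),(23,0),(0,0)]⟩,⟨0,[(26,0),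
  (10,0)]⟩⟩,.a ⟨true,0,⟨0,[(22,0)]⟩,⟨1,[(21,0),(8,0),(0,0)]⟩⟩ ⟨true,0,⟨0,[(0,0),(28,0)]⟩,⟨0,[(2,
  0)]⟩⟩ ⟨false,1,⟨1,[(10,0),(3,1),(6,0),(5,0),(10,0),(0,0)]⟩,⟨1,[(15,0),(6,1),(3,0),(10,0)]⟩⟩,.o
  ⟨false,0,⟨1,[(10,0),(11,1),(1,0)]⟩,⟨7,[(19,0),(0,0),(0,3),(10,1),(5,3)]⟩⟩]⟩) (.I [0,0,0,0,0,0,0,0,
  1] (.R ⟨1,false,false,true,[0,0,0,1],[1,-1],[0,1,0,0,0,0,0,0,1],(⟨0,[(23,0)]⟩,⟨1,[(22,0),(8,0),(0,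
  0)]⟩),(⟨0,[(34,0)]⟩,⟨0,[(35,0)]⟩),⟨0,[(4,0)]⟩,.k,.k,(.r (-1) ⟨9,[(1,1),(0,1),(3,3),(0,1),(7,1),(5,
  2),(1,1),(4,3),(10,2)]⟩ ⟨0,[(1,0),(2,3),(2,1),(3,0),(4,0),(5,2),(12,3),(2,1)]⟩),(.r 0 ⟨0,[(10,
  0)]⟩ ⟨1,[(7,1),(14,0),(8,0),(0,0),(6,0),(0,0)]⟩),.k,.k,⟨false,0,⟨0,[(0,0),(37,0)]⟩,⟨1,[(7,1),(14,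
  0),(8,0),(0,0),(6,0),(0,0)]⟩⟩,⟨true,0,⟨1,[(11,0),(11,1),(1,0)]⟩,⟨1,[(22,0),(8,0),(0,0)]⟩⟩,⟨true,0,
  ⟨0,[(42,0)]⟩,⟨0,[]⟩⟩,⟨true,0,⟨0,[(7,0)]⟩,⟨0,[(5,0)]⟩⟩,⟨false,0,⟨0,[(38,0)]⟩,⟨0,[(37,0),(2,0)]⟩⟩,
  ⟨true,0,⟨0,[(7,0),(30,0)]⟩,⟨2,[(2,0),(2,0),(25,0),(0,0)]⟩⟩,[.o ⟨false,0,⟨0,[(13,0)]⟩,⟨3,[(10,1),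
  (9,0),(17,1),(0,0),(0,1)]⟩⟩,.o ⟨false,1,⟨5,[(2,1),(4,3),(12,0),(0,0),(11,1),(6,1)]⟩,⟨0,[(38,0)]⟩⟩,
  .a ⟨true,0,⟨1,[(22,0),(8,0),(0,0)]⟩,⟨0,[(23,0)]⟩⟩ ⟨false,0,⟨0,[(0,0)]⟩,⟨1,[(20,0),(19,0)]⟩⟩ ⟨true,
  0,⟨0,[(0,0),(6,0)]⟩,⟨1,[(22,0),(8,0),(0,0),(5,1)]⟩⟩,.o ⟨false,0,⟨1,[(22,0),(2,0),(2,0)]⟩,⟨1,[(23,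
  1),(9,0),(5,0)]⟩⟩]⟩) (.N [0,0,0,1] 0 ⟨0,[(3,0)]⟩ ⟨0,[(0,0)]⟩ .k)))))) (.I [1,0,1,1,-1,0,0,1,-1]
  (.Q [0,-1,0,1,0,0,0,0,-1,0,0,1] (.p true [0,0,0,1] [] (⟨0,[(19,0)]⟩,⟨1,[(18,0),(8,0),(0,0)]⟩) .k
  0 (⟨0,[]⟩,⟨0,[]⟩) .k .k) (.Q [0,0,0,0,0,1,0,0,0,0,0,-1] (.p false [0,0,0,1] [] (⟨0,[(20,0)]⟩,⟨1,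
  [(19,0),(8,0),(0,0)]⟩) .k 0 (⟨0,[]⟩,⟨0,[]⟩) .k .k) (.R ⟨0,false,false,false,[0,0,0,1],[0,1],[1,0,
  0,0,0,0,0,0,1],(⟨0,[(21,0)]⟩,⟨1,[(20,0),(8,0),(0,0)]⟩),(⟨0,[(33,0)]⟩,⟨0,[(32,0)]⟩),⟨0,[(0,0)]⟩,.k,
  .k,(.r (-1) ⟨0,[(4,0),(2,0),(18,0)]⟩ ⟨3,[(2,5),(0,1),(3,3),(1,9),(1,9),(0,20),(1,9),(5,0),(9,20),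
  (2,20),(3,5)]⟩),(.r (-1) ⟨0,[(4,0),(2,0),(18,0)]⟩ ⟨3,[(2,5),(0,1),(3,3),(1,9),(1,9),(0,20),(1,9),
  (5,0),(9,20),(2,20),(3,5)]⟩),.k,.k,⟨true,1,⟨0,[(4,0),(2,0),(18,0)]⟩,⟨0,[(2,0),(11,0),(11,0),(8,
  0)]⟩⟩,⟨false,1,⟨0,[(21,0),(15,0)]⟩,⟨1,[(20,0),(2,0),(2,0)]⟩⟩,⟨true,0,⟨0,[]⟩,⟨0,[(40,0)]⟩⟩,⟨false,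
  0,⟨0,[(1,0)]⟩,⟨1,[(11,0),(7,0),(0,0),(14,0),(2,0)]⟩⟩,⟨false,0,⟨0,[]⟩,⟨0,[]⟩⟩,⟨false,0,⟨0,[]⟩,⟨0,
  []⟩⟩,[.o ⟨false,0,⟨0,[(36,0)]⟩,⟨1,[(31,0),(3,1),(2,0)]⟩⟩,.o ⟨false,1,⟨3,[(8,1),(9,0),(17,1),(0,0),
  (0,1)]⟩,⟨0,[(11,0)]⟩⟩,.a ⟨true,0,⟨1,[(20,0),(8,0),(0,0)]⟩,⟨0,[(21,0)]⟩⟩ ⟨false,1,⟨1,[(19,0),(18,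
  0)]⟩,⟨1,[(1,0),(3,0),(14,0)]⟩⟩ ⟨true,0,⟨0,[(21,0),(14,0)]⟩,⟨1,[(11,0),(8,0),(14,0)]⟩⟩,.o ⟨false,0,
  ⟨1,[(20,0),(2,0),(2,0)]⟩,⟨1,[(21,1),(9,0),(5,0)]⟩⟩]⟩) (.R ⟨1,false,false,false,[0,0,0,1],[0,1],[0,
  0,0,0,0,0,0,0,1],(⟨0,[(21,0)]⟩,⟨1,[(20,0),(8,0),(0,0)]⟩),(⟨0,[(33,0)]⟩,⟨0,[(32,0)]⟩),⟨0,[(0,0)]⟩,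
  .k,.k,(.r (-1) ⟨0,[(4,0),(2,0),(18,0)]⟩ ⟨1,[(0,20),(1,2),(0,0),(3,1),(1,4),(1,4),(2,4),(5,10),(12,
  20),(3,2)]⟩),(.r (-1) ⟨0,[(4,0),(2,0),(18,0)]⟩ ⟨1,[(0,20),(1,2),(0,0),(3,1),(1,4),(1,4),(2,4),(5,
  10),(12,20),(3,2)]⟩),(.r (-2) ⟨1,[(4,1),(8,1),(5,0),(6,1),(10,0)]⟩ ⟨1,[(2,1),(11,0),(10,0),(0,1),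
  (9,0)]⟩),.k,⟨true,1,⟨0,[(4,0),(2,0),(18,0)]⟩,⟨0,[(2,0),(11,0),(11,0),(8,0)]⟩⟩,⟨false,1,⟨0,[(21,0),
  (15,0)]⟩,⟨1,[(20,0),(2,0),(2,0)]⟩⟩,⟨false,1,⟨3,[(18,0),(0,0),(18,1)]⟩,⟨0,[]⟩⟩,⟨false,0,⟨0,[(1,
  0)]⟩,⟨1,[(11,0),(7,0),(0,0),(14,0),(2,0)]⟩⟩,⟨true,0,⟨0,[(36,0)]⟩,⟨0,[(35,0)]⟩⟩,⟨false,0,⟨0,[(1,0),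
  (34,0)]⟩,⟨1,[(4,1),(2,1),(1,0),(10,0),(5,0),(7,1),(0,1)]⟩⟩,[.o ⟨false,0,⟨0,[(36,0)]⟩,⟨1,[(31,0),
  (3,1),(2,0)]⟩⟩,.o ⟨false,1,⟨3,[(8,1),(9,0),(17,1),(0,0),(0,1)]⟩,⟨0,[(11,0)]⟩⟩,.a ⟨true,0,⟨1,[(20,
  0),(8,0),(0,0)]⟩,⟨0,[(21,0)]⟩⟩ ⟨false,1,⟨1,[(19,0),(18,0)]⟩,⟨1,[(1,0),(3,0),(14,0)]⟩⟩ ⟨true,0,⟨0,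
  [(21,0),(14,0)]⟩,⟨1,[(11,0),(8,0),(14,0)]⟩⟩,.o ⟨false,0,⟨1,[(20,0),(2,0),(2,0)]⟩,⟨1,[(21,1),(9,0),
  (5,0)]⟩⟩]⟩)) (.R ⟨1,true,false,true,[1,0,-1],[1,0,0,-1],[0,0,0,0,0,0,0,-1],(⟨0,[(28,0)]⟩,⟨0,[(29,
  0)]⟩),(⟨1,[(19,0),(8,0),(0,0)]⟩,⟨0,[(20,0)]⟩),⟨0,[(11,0)]⟩,.k,.k,.k,.k,(.x 0 ⟨0,[(11,0),(10,0)]⟩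
  ⟨0,[(25,0),(3,0),(2,0),(3,0)]⟩),.k,⟨true,1,⟨1,[(0,1),(12,1),(6,1),(4,1),(10,0),(0,0)]⟩,⟨0,[(1,0),
  (32,0)]⟩⟩,⟨false,1,⟨0,[(20,0),(4,0),(10,0)]⟩,⟨1,[(16,0),(2,0)]⟩⟩,⟨false,1,⟨3,[(17,0),(0,0),(18,
  1)]⟩,⟨0,[]⟩⟩,⟨true,0,⟨1,[(1,0),(2,0),(15,0),(2,0),(1,0),(2,0),(0,0),(6,0)]⟩,⟨0,[(0,0),(12,0)]⟩⟩,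
  ⟨true,0,⟨0,[(35,0)]⟩,⟨0,[(34,0)]⟩⟩,⟨false,0,⟨0,[(1,0),(18,0),(4,0),(10,0)]⟩,⟨2,[(0,2),(2,0),(9,0),
  (10,0),(8,1),(3,1)]⟩⟩,[]⟩)) (.Q [0,1,0,1,0,0,0,0,1,1,0,-1] (.p false [0,0,0,1] [1] (⟨0,[(19,0)]⟩,
  ⟨1,[(18,0),(8,0),(0,0)]⟩) .k 1 (⟨0,[]⟩,⟨0,[]⟩) .k .k) (.Q [0,0,0,-1,0,0,-1,-1,0,0,1,-1] (.p true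
  [0,0,1] [0,0,0,1] (⟨0,[(29,0)]⟩,⟨0,[(28,0)]⟩) .k 2 (⟨0,[(20,0)]⟩,⟨1,[(19,0),(8,0),(0,0)]⟩) .k (.r
  0 ⟨1,[(2,1),(16,0),(7,1),(0,0),(0,0),(5,1)]⟩ ⟨5,[(1,1),(5,1),(7,1),(2,0),(5,1),(0,1),(11,0)]⟩))
  (.I [1,-1,-1,-1,1,0,0,-1] (.Q [0,0,0,0,0,1,0,0,0,0,0,-1] (.p false [0,0,0,1] [] (⟨0,[(22,0)]⟩,⟨1,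
  [(21,0),(8,0),(0,0)]⟩) .k 0 (⟨0,[]⟩,⟨0,[]⟩) .k .k) (.R ⟨0,false,false,false,[0,0,0,1],[1,-1],[0,
  1],(⟨0,[(23,0)]⟩,⟨1,[(22,0),(8,0),(0,0)]⟩),(⟨0,[(34,0)]⟩,⟨0,[(35,0)]⟩),⟨0,[(0,0)]⟩,.k,.k,(.r (-1)
  ⟨3,[(4,1),(10,1),(5,0),(17,0)]⟩ ⟨1,[(2,1),(2,3),(3,1),(1,1),(2,4),(7,0),(9,4),(2,4),(2,7)]⟩),(.r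
  0 ⟨0,[(10,0)]⟩ ⟨7,[(1,1),(3,1),(9,1),(4,2),(1,0),(8,0),(0,0),(4,1),(1,2)]⟩),.k,.k,⟨false,0,⟨0,
  [(38,0),(3,0)]⟩,⟨3,[(1,1),(13,1),(23,0),(0,0)]⟩⟩,⟨true,0,⟨0,[(5,0),(4,0)]⟩,⟨1,[(22,0),(8,0),(0,
  0)]⟩⟩,⟨false,0,⟨1,[(5,1),(16,0),(8,0),(0,0),(5,1)]⟩,⟨1,[(21,0),(18,0)]⟩⟩,⟨true,0,⟨0,[(5,0)]⟩,⟨0,
  [(3,0)]⟩⟩,⟨false,0,⟨0,[]⟩,⟨0,[]⟩⟩,⟨false,0,⟨0,[]⟩,⟨0,[]⟩⟩,[.o ⟨false,1,⟨1,[(33,0),(3,1),(2,0)]⟩,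
  ⟨0,[(38,0)]⟩⟩,.o ⟨false,1,⟨0,[(13,0),(26,0)]⟩,⟨0,[(38,0),(3,0)]⟩⟩,.a ⟨true,0,⟨1,[(22,0),(8,0),(0,
  0)]⟩,⟨0,[(23,0)]⟩⟩ ⟨true,0,⟨0,[(42,0)]⟩,⟨0,[]⟩⟩ ⟨false,1,⟨1,[(5,1),(15,0),(18,0)]⟩,⟨1,[(22,0),(8,
  0),(0,0),(5,1)]⟩⟩,.o ⟨false,0,⟨1,[(22,0),(2,0),(2,0)]⟩,⟨1,[(23,1),(9,0),(5,0)]⟩⟩]⟩) (.I [0,-1,0,0,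
  0,0,0,0,-1] (.R ⟨1,false,false,true,[1,0,0,-1],[1,-1],[0,0,0,0,0,0,0,0,-1],(⟨1,[(23,0),(8,0),(0,
  0)]⟩,⟨0,[(24,0)]⟩),(⟨0,[(35,0)]⟩,⟨0,[(36,0)]⟩),⟨0,[(1,0),(21,0)]⟩,.k,.k,(.r (-1) ⟨7,[(0,1),(1,1),
  (13,1),(4,2),(16,3),(1,2)]⟩ ⟨0,[(11,0)]⟩),(.r 0 ⟨0,[(0,1),(0,7),(8,0),(1,0),(1,2),(2,0),(5,3),(12,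
  7),(2,2)]⟩ ⟨3,[(5,1),(10,1),(5,0),(17,0)]⟩),.k,.k,⟨false,0,⟨0,[(0,0),(38,0)]⟩,⟨1,[(22,0),(15,1),
  (1,0)]⟩⟩,⟨true,0,⟨1,[(23,0),(2,0),(2,0)]⟩,⟨0,[(24,0)]⟩⟩,⟨false,1,⟨3,[(21,0),(0,0),(18,1)]⟩,⟨0,
  []⟩⟩,⟨false,1,⟨31,[(3,7),(1,7),(10,15),(4,2),(0,14),(0,11),(5,7),(4,5)]⟩,⟨0,[(0,0),(23,0),(14,
  0)]⟩⟩,⟨true,0,⟨0,[(39,0)]⟩,⟨0,[(38,0)]⟩⟩,⟨false,1,⟨7,[(21,0),(0,4),(0,3),(10,1)]⟩,⟨0,[(0,0),(23,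
  0)]⟩⟩,[.o ⟨false,0,⟨0,[(14,0)]⟩,⟨3,[(11,1),(9,0),(17,1),(0,0),(0,1)]⟩⟩,.o ⟨false,1,⟨1,[(34,0),(3,
  1),(2,0)]⟩,⟨0,[(39,0)]⟩⟩,.a ⟨true,0,⟨0,[(24,0)]⟩,⟨1,[(23,0),(8,0),(0,0)]⟩⟩ ⟨false,0,⟨0,[(0,0)]⟩,
  ⟨3,[(21,0),(0,2)]⟩⟩ ⟨true,0,⟨1,[(14,0),(8,0),(14,0)]⟩,⟨0,[(24,0),(14,0)]⟩⟩,.o ⟨false,0,⟨0,[(6,0),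
  (4,0)]⟩,⟨7,[(21,0),(0,0),(0,3),(10,1),(5,3)]⟩⟩]⟩) (.R ⟨1,false,false,false,[1,0,0,-1],[1,-1],[0,0,
  0,0,0,0,0,0,-1],(⟨1,[(23,0),(8,0),(0,0)]⟩,⟨0,[(24,0)]⟩),(⟨0,[(35,0)]⟩,⟨0,[(36,0)]⟩),⟨0,[(1,0),(21,
  0)]⟩,.k,.k,(.r (-1) ⟨7,[(2,1),(3,1),(9,1),(4,2),(1,0),(8,0),(0,0),(4,1),(1,2)]⟩ ⟨0,[(11,0)]⟩),(.r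
  0 ⟨0,[(1,5),(4,1),(3,0),(1,0),(1,0),(2,0),(5,3),(12,5),(2,2)]⟩ ⟨3,[(5,1),(10,1),(5,0),(17,0)]⟩),
  .k,.k,⟨false,0,⟨1,[(6,1),(16,0),(8,0),(0,0),(5,3)]⟩,⟨3,[(5,1),(10,1),(5,0),(17,0)]⟩⟩,⟨true,0,⟨1,
  [(23,0),(2,0),(2,0)]⟩,⟨0,[(24,0)]⟩⟩,⟨false,1,⟨3,[(21,0),(0,0),(18,1)]⟩,⟨0,[]⟩⟩,⟨false,1,⟨5,[(3,1),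
  (1,1),(4,1),(1,1),(3,1),(5,0),(0,1),(17,2)]⟩,⟨0,[(6,0),(25,0),(0,0),(5,1)]⟩⟩,⟨true,0,⟨0,[(39,0)]⟩,
  ⟨0,[(38,0)]⟩⟩,⟨false,1,⟨11,[(5,1),(4,3),(1,1),(4,1),(4,2),(0,5),(10,1),(6,4)]⟩,⟨0,[(6,0),(25,0),
  (0,0),(5,0)]⟩⟩,[.o ⟨false,1,⟨1,[(34,0),(3,1),(2,0)]⟩,⟨0,[(39,0)]⟩⟩,.o ⟨false,1,⟨0,[(14,0),(26,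
  0)]⟩,⟨0,[(39,0),(3,0)]⟩⟩,.a ⟨true,0,⟨0,[(24,0)]⟩,⟨1,[(23,0),(8,0),(0,0)]⟩⟩ ⟨true,0,⟨1,[(6,1),(16,
  0),(8,0),(0,0),(5,1)]⟩,⟨0,[(0,0)]⟩⟩ ⟨false,1,⟨31,[(2,7),(0,7),(12,15),(4,2),(0,2),(0,11),(5,7),(4,
  5),(6,11)]⟩,⟨0,[(24,0),(14,0)]⟩⟩,.o ⟨false,0,⟨0,[(6,0),(4,0)]⟩,⟨7,[(21,0),(0,0),(0,3),(10,1),(5,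
  3)]⟩⟩]⟩))) (.Q [0,0,0,0,0,1,0,0,0,0,0,-1] (.p false [0,0,0,1] [] (⟨0,[(22,0)]⟩,⟨1,[(21,0),(8,0),
  (0,0)]⟩) .k 0 (⟨0,[]⟩,⟨0,[]⟩) .k .k) (.R ⟨0,false,false,true,[0,0,0,1],[0,1],[0,1,0,0,0,0,0,0,1],
  (⟨0,[(23,0)]⟩,⟨1,[(22,0),(8,0),(0,0)]⟩),(⟨0,[(35,0)]⟩,⟨0,[(34,0)]⟩),⟨0,[(0,0)]⟩,.k,.k,(.r (-1) ⟨3,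
  [(4,1),(10,1),(5,0),(17,0)]⟩ ⟨1,[(1,4),(2,1),(0,5),(3,1),(1,4),(2,7),(1,4),(5,2),(9,7),(2,7),(3,
  2)]⟩),(.r (-1) ⟨3,[(4,1),(10,1),(5,0),(17,0)]⟩ ⟨1,[(1,4),(2,1),(0,5),(3,1),(1,4),(2,7),(1,4),(5,
  2),(9,7),(2,7),(3,2)]⟩),.k,.k,⟨true,1,⟨3,[(4,1),(10,1),(5,0),(17,0)]⟩,⟨1,[(1,1),(3,1),(10,1),(5,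
  0),(5,1),(2,0),(0,0)]⟩⟩,⟨false,1,⟨0,[(23,0),(15,0)]⟩,⟨1,[(22,0),(2,0),(2,0)]⟩⟩,⟨true,0,⟨0,[(42,
  0)]⟩,⟨0,[]⟩⟩,⟨false,0,⟨0,[(5,0),(25,0),(0,0),(5,1)]⟩,⟨5,[(2,1),(1,1),(4,1),(1,1),(3,1),(5,0),(0,
  1),(17,2)]⟩⟩,⟨false,0,⟨0,[]⟩,⟨0,[]⟩⟩,⟨false,0,⟨0,[]⟩,⟨0,[]⟩⟩,[.o ⟨false,0,⟨0,[(38,0),(3,0)]⟩,⟨0,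
  [(13,0),(26,0)]⟩⟩,.o ⟨false,0,⟨0,[(38,0)]⟩,⟨1,[(33,0),(3,1),(2,0)]⟩⟩,.a ⟨true,0,⟨1,[(22,0),(8,0),
  (0,0)]⟩,⟨0,[(23,0)]⟩⟩ ⟨true,0,⟨0,[(1,0),(2,0)]⟩,⟨1,[(5,1),(16,0),(8,0),(0,0),(5,1)]⟩⟩ ⟨false,0,⟨0,
  [(23,0),(14,0)]⟩,⟨7,[(2,1),(1,1),(6,0),(3,3),(4,0),(1,2),(5,0),(4,0),(6,3)]⟩⟩,.o ⟨false,0,⟨1,[(22,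
  0),(2,0),(2,0)]⟩,⟨1,[(23,1),(9,0),(5,0)]⟩⟩]⟩) (.R ⟨1,false,false,true,[0,0,0,1],[0,1],[0,1,0,0,0,
  0,0,0,1],(⟨0,[(23,0)]⟩,⟨1,[(22,0),(8,0),(0,0)]⟩),(⟨0,[(35,0)]⟩,⟨0,[(34,0)]⟩),⟨0,[(0,0)]⟩,.k,.k,
  (.r (-1) ⟨3,[(4,1),(10,1),(5,0),(17,0)]⟩ ⟨0,[(0,8),(0,1),(0,0),(2,1),(3,0),(1,2),(4,1),(5,4),(12,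
  8),(3,1)]⟩),(.r (-1) ⟨3,[(4,1),(10,1),(5,0),(17,0)]⟩ ⟨0,[(0,8),(0,1),(0,0),(2,1),(3,0),(1,2),(4,
  1),(5,4),(12,8),(3,1)]⟩),(.r (-2) ⟨3,[(4,3),(10,3),(4,0),(0,0),(17,1)]⟩ ⟨1,[(1,1),(3,1),(10,1),(5,
  0),(5,1),(2,0),(0,0),(5,1)]⟩),.k,⟨true,1,⟨3,[(4,1),(10,1),(5,0),(17,0)]⟩,⟨1,[(1,1),(3,1),(10,1),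
  (5,0),(5,1),(2,0),(0,0)]⟩⟩,⟨false,1,⟨0,[(23,0),(15,0)]⟩,⟨1,[(22,0),(2,0),(2,0)]⟩⟩,⟨true,0,⟨0,[(42,
  0)]⟩,⟨0,[]⟩⟩,⟨false,0,⟨0,[(5,0),(25,0),(0,0),(5,1)]⟩,⟨5,[(2,1),(1,1),(4,1),(1,1),(3,1),(5,0),(0,
  1),(17,2)]⟩⟩,⟨false,0,⟨0,[(38,0)]⟩,⟨0,[(37,0),(2,0)]⟩⟩,⟨false,0,⟨0,[(5,0),(25,0),(0,0),(5,2)]⟩,⟨1,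
  [(4,1),(6,0),(3,2),(0,0),(5,0),(13,0)]⟩⟩,[.o ⟨false,0,⟨0,[(38,0),(3,0)]⟩,⟨0,[(13,0),(26,0)]⟩⟩,.o
  ⟨false,0,⟨0,[(38,0)]⟩,⟨1,[(33,0),(3,1),(2,0)]⟩⟩,.a ⟨true,0,⟨1,[(22,0),(8,0),(0,0)]⟩,⟨0,[(23,0)]⟩⟩
  ⟨true,0,⟨0,[(1,0),(2,0)]⟩,⟨1,[(5,1),(16,0),(8,0),(0,0),(5,1)]⟩⟩ ⟨false,0,⟨0,[(23,0),(14,0)]⟩,⟨7,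
  [(2,1),(1,1),(6,0),(3,3),(4,0),(1,2),(5,0),(4,0),(6,3)]⟩⟩,.o ⟨false,0,⟨1,[(22,0),(2,0),(2,0)]⟩,⟨1,
  [(23,1),(9,0),(5,0)]⟩⟩]⟩))) (.I [0,0,2,2,-1] (.R ⟨2,true,false,true,[0,1],[1,-1],[0,1,1,1],(⟨0,
  []⟩,⟨0,[]⟩),(⟨0,[(33,0)]⟩,⟨0,[(34,0)]⟩),⟨0,[]⟩,.k,.k,.k,(.r 1 ⟨0,[(0,0)]⟩ ⟨1,[(3,1),(10,1),(4,0),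
  (18,0)]⟩),.k,.k,⟨true,(-1),⟨0,[(0,0)]⟩,⟨7,[(3,5),(0,3),(9,5),(4,0),(1,1),(8,1),(0,1),(6,0)]⟩⟩,
  ⟨false,0,⟨1,[(10,0),(13,0)]⟩,⟨0,[(30,0),(0,0),(6,0)]⟩⟩,⟨true,0,⟨0,[(41,0)]⟩,⟨0,[]⟩⟩,⟨false,1,⟨0,
  [(12,0),(23,0),(2,0)]⟩,⟨1,[(1,1),(13,1),(5,0),(8,0),(0,0)]⟩⟩,⟨false,0,⟨0,[(37,0)]⟩,⟨0,[(36,0),(2,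
  0)]⟩⟩,⟨true,0,⟨0,[(12,0)]⟩,⟨2,[(1,1),(13,0),(5,0),(4,0),(3,1),(0,1)]⟩⟩,[]⟩) (.Q [0,0,0,0,0,1,0,0,
  0,0,0,-1] (.p false [0,0,0,1] [] (⟨0,[(22,0)]⟩,⟨1,[(21,0),(8,0),(0,0)]⟩) .k 0 (⟨0,[]⟩,⟨0,[]⟩) .k
  .k) (.R ⟨0,false,false,false,[0,0,0,1],[1,-1],[0,1],(⟨0,[(23,0)]⟩,⟨1,[(22,0),(8,0),(0,0)]⟩),(⟨0,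
  [(34,0)]⟩,⟨0,[(35,0)]⟩),⟨0,[(0,0)]⟩,.k,.k,(.r (-1) ⟨1,[(1,0),(19,0)]⟩ ⟨0,[(5,1),(3,0),(1,0),(1,0),
  (0,2),(1,0),(5,0),(9,2),(2,2),(2,2)]⟩),(.r 0 ⟨0,[(10,0)]⟩ ⟨1,[(1,0),(18,0)]⟩),.k,.k,⟨false,0,⟨0,
  [(38,0),(3,0)]⟩,⟨1,[(1,0),(38,0)]⟩⟩,⟨true,0,⟨0,[(5,0),(4,0)]⟩,⟨1,[(22,0),(8,0),(0,0)]⟩⟩,⟨false,0,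
  ⟨3,[(2,1),(2,1),(1,1),(8,1),(5,2),(8,0),(0,0)]⟩,⟨1,[(21,0),(18,0)]⟩⟩,⟨true,0,⟨0,[(5,0)]⟩,⟨0,[(3,
  0)]⟩⟩,⟨false,0,⟨0,[]⟩,⟨0,[]⟩⟩,⟨false,0,⟨0,[]⟩,⟨0,[]⟩⟩,[.o ⟨false,1,⟨1,[(33,0),(3,1),(2,0)]⟩,⟨0,
  [(38,0)]⟩⟩,.o ⟨false,1,⟨0,[(13,0),(26,0)]⟩,⟨0,[(38,0),(3,0)]⟩⟩,.a ⟨true,0,⟨1,[(22,0),(8,0),(0,
  0)]⟩,⟨0,[(23,0)]⟩⟩ ⟨true,0,⟨0,[(42,0)]⟩,⟨0,[]⟩⟩ ⟨false,1,⟨1,[(5,1),(15,0),(18,0)]⟩,⟨5,[(2,3),(13,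
  1),(5,4),(4,1),(3,0),(0,0)]⟩⟩,.o ⟨false,0,⟨1,[(22,0),(2,0),(2,0)]⟩,⟨1,[(2,0),(3,0),(16,0),(9,
  0)]⟩⟩]⟩) (.Q [0,0,0,-1,0,0,1,1,-1,-1,-1,1] (.p false [1,-1,1] [0,0,0,1] (⟨0,[(32,0),(1,0)]⟩,⟨0,
  [(12,0)]⟩) .k 2 (⟨0,[(23,0)]⟩,⟨1,[(22,0),(8,0),(0,0)]⟩) .k (.r 0 ⟨3,[(2,1),(2,1),(1,1),(8,1),(5,
  2),(7,3),(0,0),(0,0)]⟩ ⟨5,[(4,1),(5,1),(7,1),(2,0),(5,1),(0,1),(11,0)]⟩)) (.R ⟨1,false,false,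
  false,[0,0,0,1],[1,-1],[0,1],(⟨0,[(24,0)]⟩,⟨1,[(23,0),(8,0),(0,0)]⟩),(⟨0,[(35,0)]⟩,⟨0,[(36,0)]⟩),
  ⟨0,[(1,0)]⟩,.k,.k,(.r (-1) ⟨1,[(2,0),(19,0)]⟩ ⟨0,[(0,1),(0,12),(1,2),(6,0),(1,0),(1,5),(2,5),(5,
  8),(12,12)]⟩),(.r 0 ⟨0,[(11,0)]⟩ ⟨1,[(2,0),(18,0)]⟩),.k,.k,⟨false,0,⟨0,[(39,0),(3,0)]⟩,⟨1,[(2,0),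
  (38,0)]⟩⟩,⟨true,0,⟨0,[(6,0),(4,0)]⟩,⟨1,[(23,0),(8,0),(0,0)]⟩⟩,⟨false,0,⟨3,[(3,1),(2,1),(1,1),(8,
  1),(5,2),(8,0),(0,0)]⟩,⟨1,[(22,0),(18,0)]⟩⟩,⟨true,0,⟨0,[(6,0)]⟩,⟨0,[(4,0)]⟩⟩,⟨false,0,⟨0,[(3,0),
  (4,0),(8,0),(5,0)]⟩,⟨3,[(5,1),(10,1),(5,0),(14,1),(3,0)]⟩⟩,⟨false,0,⟨0,[(0,0),(16,0)]⟩,⟨3,[(21,0),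
  (0,2),(0,1),(8,1),(0,1)]⟩⟩,[.o ⟨false,1,⟨1,[(34,0),(3,1),(2,0)]⟩,⟨0,[(39,0)]⟩⟩,.o ⟨false,1,⟨0,
  [(14,0),(26,0)]⟩,⟨0,[(39,0),(3,0)]⟩⟩,.a ⟨true,0,⟨1,[(23,0),(8,0),(0,0)]⟩,⟨0,[(24,0)]⟩⟩ ⟨true,0,⟨0,
  [(43,0)]⟩,⟨0,[]⟩⟩ ⟨false,1,⟨1,[(6,1),(15,0),(18,0)]⟩,⟨5,[(3,3),(13,1),(5,4),(4,1),(3,0),(0,0)]⟩⟩,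
  .o ⟨false,0,⟨1,[(23,0),(2,0),(2,0)]⟩,⟨1,[(3,0),(3,0),(16,0),(9,0)]⟩⟩]⟩) (.R ⟨1,false,false,false,
  [1,0,0,-1],[1,-1],[1,0,0,-1,0,0,0,0,-1],(⟨1,[(23,0),(8,0),(0,0)]⟩,⟨0,[(24,0)]⟩),(⟨0,[(35,0)]⟩,⟨0,
  [(36,0)]⟩),⟨0,[(1,0),(21,0)]⟩,.k,.k,(.r (-1) ⟨1,[(2,0),(18,0)]⟩ ⟨0,[(11,0)]⟩),(.r 0 ⟨0,[(1,8),(1,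
  2),(2,1),(3,0),(1,0),(1,3),(2,3),(5,6),(12,8)]⟩ ⟨1,[(2,0),(19,0)]⟩),.k,.k,⟨false,0,⟨3,[(3,1),(2,
  1),(1,1),(8,1),(5,2),(8,0),(0,0)]⟩,⟨1,[(22,0),(17,0)]⟩⟩,⟨true,0,⟨1,[(23,0),(2,0),(2,0)]⟩,⟨0,[(24,
  0)]⟩⟩,⟨false,1,⟨0,[(38,0),(2,0)]⟩,⟨0,[(39,0)]⟩⟩,⟨false,1,⟨15,[(5,9),(4,3),(1,3),(3,5),(1,3),(3,0),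
  (0,7),(13,5),(3,4)]⟩,⟨1,[(3,1),(4,1),(8,1),(5,0),(8,0),(0,0)]⟩⟩,⟨true,0,⟨0,[]⟩,⟨0,[(43,0)]⟩⟩,
  ⟨false,1,⟨11,[(5,1),(4,3),(1,1),(4,1),(4,2),(0,5),(10,1),(6,4)]⟩,⟨3,[(3,1),(2,1),(1,1),(8,1),(5,
  0),(8,2),(0,2)]⟩⟩,[.o ⟨false,1,⟨1,[(34,0),(3,1),(2,0)]⟩,⟨0,[(39,0)]⟩⟩,.o ⟨false,1,⟨0,[(14,0),(26,
  0)]⟩,⟨0,[(39,0),(3,0)]⟩⟩,.a ⟨true,0,⟨0,[(24,0)]⟩,⟨1,[(23,0),(8,0),(0,0)]⟩⟩ ⟨true,0,⟨1,[(6,1),(16,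
  0),(8,0),(0,0)]⟩,⟨0,[(0,0),(2,0),(10,0)]⟩⟩ ⟨false,1,⟨1,[(14,0),(8,0),(14,0),(2,1)]⟩,⟨2,[(3,1),(13,
  0),(6,0),(3,0)]⟩⟩,.o ⟨false,0,⟨0,[(6,0),(4,0)]⟩,⟨7,[(21,0),(0,0),(0,3),(10,1),(5,3)]⟩⟩]⟩))))) (.Q
  [0,0,0,0,0,-1,0,0,0,1,0,-1] (.p false [0,0,0,1] [1] (⟨0,[(20,0)]⟩,⟨1,[(19,0),(8,0),(0,0)]⟩) .k 1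
  (⟨0,[]⟩,⟨0,[]⟩) .k .k) (.R ⟨1,false,false,true,[1,0,0,-1],[1,-1],[0,0,0,0,0,0,0,0,-1],(⟨1,[(20,0),
  (8,0),(0,0)]⟩,⟨0,[(21,0)]⟩),(⟨0,[(32,0)]⟩,⟨0,[(33,0)]⟩),⟨0,[(0,0)]⟩,.k,.k,(.r (-1) ⟨11,[(1,3),(0,
  1),(10,1),(4,4),(1,1),(8,1),(0,1),(4,3),(1,4)]⟩ ⟨0,[(8,0)]⟩),(.r 0 ⟨0,[(0,5),(0,1),(5,0),(1,0),(1,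
  2),(2,0),(6,3),(11,5),(2,4)]⟩ ⟨3,[(2,1),(10,1),(5,0),(17,0)]⟩),.k,.k,⟨false,0,⟨1,[(1,1),(18,0),(8,
  0),(0,0),(5,3)]⟩,⟨1,[(19,0),(15,1),(1,0)]⟩⟩,⟨true,0,⟨1,[(20,0),(2,0),(2,0)]⟩,⟨0,[(21,0)]⟩⟩,⟨false,
  1,⟨3,[(18,0),(0,0),(18,1)]⟩,⟨0,[]⟩⟩,⟨false,1,⟨1,[(11,0),(7,0),(0,0),(14,0),(2,0)]⟩,⟨0,[(1,0),(27,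
  0),(0,0),(5,1)]⟩⟩,⟨true,0,⟨0,[(36,0)]⟩,⟨0,[(35,0)]⟩⟩,⟨false,1,⟨7,[(18,0),(0,4),(0,3),(10,1)]⟩,⟨0,
  [(1,0),(27,0),(0,0),(5,0)]⟩⟩,[.o ⟨false,0,⟨0,[(11,0)]⟩,⟨3,[(8,1),(9,0),(17,1),(0,0),(0,1)]⟩⟩,.o
  ⟨false,1,⟨1,[(31,0),(3,1),(2,0)]⟩,⟨0,[(36,0)]⟩⟩,.a ⟨true,0,⟨0,[(21,0)]⟩,⟨1,[(20,0),(8,0),(0,0)]⟩⟩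
  ⟨false,0,⟨1,[(1,1),(18,0),(8,0),(0,0),(5,1)]⟩,⟨3,[(18,0),(0,2)]⟩⟩ ⟨true,0,⟨1,[(11,0),(8,0),(14,
  0)]⟩,⟨0,[(21,0),(14,0)]⟩⟩,.o ⟨false,0,⟨1,[(1,0),(3,0),(2,1)]⟩,⟨7,[(18,0),(0,0),(0,3),(10,1),(5,
  3)]⟩⟩]⟩) (.R ⟨0,false,false,true,[1,0,0,-1],[1,-1],[1,0,0,0,0,0,0,0,-1],(⟨1,[(20,0),(8,0),(0,0)]⟩,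
  ⟨0,[(21,0)]⟩),(⟨0,[(32,0)]⟩,⟨0,[(33,0)]⟩),⟨0,[(0,0)]⟩,.k,.k,(.r (-1) ⟨11,[(1,3),(0,1),(10,1),(4,
  4),(1,1),(8,1),(0,1),(4,3),(1,4)]⟩ ⟨0,[(8,0)]⟩),(.r 0 ⟨0,[(1,1),(5,0),(1,0),(1,2),(0,4),(1,0),(5,
  0),(9,4),(2,4),(2,4)]⟩ ⟨3,[(2,1),(10,1),(5,0),(17,0)]⟩),.k,.k,⟨false,0,⟨1,[(1,1),(18,0),(8,0),(0,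
  0),(5,3)]⟩,⟨1,[(19,0),(15,1),(1,0)]⟩⟩,⟨true,0,⟨1,[(20,0),(2,0),(2,0)]⟩,⟨0,[(21,0)]⟩⟩,⟨true,0,⟨0,
  []⟩,⟨0,[(40,0)]⟩⟩,⟨false,1,⟨1,[(11,0),(7,0),(0,0),(14,0),(2,0)]⟩,⟨0,[(1,0),(27,0),(0,0),(5,1)]⟩⟩,
  ⟨false,0,⟨0,[]⟩,⟨0,[]⟩⟩,⟨false,0,⟨0,[]⟩,⟨0,[]⟩⟩,[.o ⟨false,0,⟨0,[(11,0)]⟩,⟨3,[(8,1),(9,0),(17,1),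
  (0,0),(0,1)]⟩⟩,.o ⟨false,1,⟨1,[(31,0),(3,1),(2,0)]⟩,⟨0,[(36,0)]⟩⟩,.a ⟨true,0,⟨0,[(21,0)]⟩,⟨1,[(20,
  0),(8,0),(0,0)]⟩⟩ ⟨false,0,⟨1,[(1,1),(18,0),(8,0),(0,0),(5,1)]⟩,⟨3,[(18,0),(0,2)]⟩⟩ ⟨true,0,⟨1,
  [(11,0),(8,0),(14,0)]⟩,⟨0,[(21,0),(14,0)]⟩⟩,.o ⟨false,0,⟨1,[(1,0),(3,0),(2,1)]⟩,⟨7,[(18,0),(0,0),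
  (0,3),(10,1),(5,3)]⟩⟩]⟩))))) (.R ⟨2,true,false,true,[0,1],[1,-1],[1,1,1],(⟨0,[]⟩,⟨0,[]⟩),(⟨0,[(28,
  0)]⟩,⟨0,[(29,0)]⟩),⟨0,[]⟩,.k,.k,.k,(.r 1 ⟨1,[(0,1),(9,0),(10,0),(10,0)]⟩ ⟨0,[(31,1),(1,0),(0,
  0)]⟩),.k,.k,⟨true,(-1),⟨0,[(0,0),(9,0),(20,0)]⟩,⟨1,[(31,1),(1,0),(0,0)]⟩⟩,⟨false,0,⟨1,[(5,0),(13,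
  0)]⟩,⟨0,[(25,0),(0,0),(6,0)]⟩⟩,⟨true,0,⟨0,[(31,0)]⟩,⟨0,[(32,0)]⟩⟩,⟨false,1,⟨0,[(7,0),(23,0),(2,
  0)]⟩,⟨0,[(0,0),(9,0),(14,0),(0,0),(6,0)]⟩⟩,⟨false,0,⟨0,[]⟩,⟨3,[(14,0),(0,0),(18,1)]⟩⟩,⟨true,0,⟨0,
  [(7,0)]⟩,⟨0,[(25,0),(0,0),(5,0)]⟩⟩,[]⟩)))))))

theorem ok126 : chk (cU (-1) false 2) t126 l67 = true := by decide +kernel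

noncomputable def t127 : Tre :=
  (.Q [0,1,0,-1,0,0,1,1,0,1,-1] (.p false [0,0,1] [1] (⟨0,[(20,0)]⟩,⟨0,[(19,0)]⟩) .k 1 (⟨0,[]⟩,⟨0,
  []⟩) .k .k) (.K ⟨1,[1,1,-1],0,0,(⟨0,[(20,0),(3,0)]⟩,⟨0,[(1,0)]⟩),.k,.k,(.x (-1) ⟨0,[(6,0),(13,0),
  (3,1),(3,0)]⟩ ⟨1,[(1,2),(1,0),(10,0),(2,2)]⟩),.k,.k,[⟨1,[(17,2),(0,0),(1,1),(0,1)]⟩,⟨0,[(6,0)]⟩,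
  ⟨0,[(0,0)]⟩,⟨0,[(5,0)]⟩]⟩) (.I [0,0,0,0,0,0,0,-1,1] (.R ⟨1,false,false,false,[1,0,0,-1],[1,0,-1],
  [0,0,0,0,0,0,0,0,-1],(⟨1,[(12,0),(8,0),(0,0)]⟩,⟨0,[(13,0)]⟩),(⟨0,[(21,0)]⟩,⟨0,[(22,0)]⟩),⟨1,[(2,
  0),(1,0),(7,0)]⟩,.k,.k,(.x 0 ⟨1,[(2,0),(1,0),(10,0),(2,0)]⟩ ⟨3,[(10,0),(0,0),(13,3),(3,1)]⟩),.k,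
  (.r (-1) ⟨1,[(5,1),(4,0),(18,0)]⟩ ⟨1,[(0,1),(17,0),(0,0),(8,1)]⟩),.k,⟨false,1,⟨1,[(10,0),(9,1),(8,
  0)]⟩,⟨0,[(0,0)]⟩⟩,⟨true,0,⟨1,[(9,0),(2,0)]⟩,⟨0,[(13,0),(4,0)]⟩⟩,⟨false,1,⟨3,[(10,0),(0,0),(18,
  1)]⟩,⟨0,[]⟩⟩,⟨false,0,⟨1,[(0,1),(0,0),(3,1),(0,0),(5,0)]⟩,⟨1,[(10,0),(2,1),(2,1),(13,0)]⟩⟩,⟨true,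
  0,⟨0,[(28,0)]⟩,⟨0,[(27,0)]⟩⟩,⟨false,0,⟨1,[(0,1),(0,0),(4,0),(5,0),(7,1)]⟩,⟨1,[(5,1),(4,0),(2,1),
  (4,1),(10,0)]⟩⟩,[.o ⟨false,0,⟨0,[(1,0),(25,0)]⟩,⟨3,[(10,0),(0,0),(4,3),(13,1)]⟩⟩,.o ⟨false,1,⟨0,
  [(14,0),(15,0)]⟩,⟨0,[(16,0)]⟩⟩,.a ⟨true,0,⟨0,[(13,0)]⟩,⟨1,[(12,0),(8,0),(0,0)]⟩⟩ ⟨false,1,⟨1,[(10,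
  0),(19,0)]⟩,⟨0,[(0,0),(19,0)]⟩⟩ ⟨true,0,⟨1,[(1,0),(4,0),(5,0),(14,1)]⟩,⟨0,[(13,0),(2,0)]⟩⟩,.o
  ⟨false,0,⟨0,[(7,0),(5,0),(4,0)]⟩,⟨7,[(10,0),(0,0),(0,3),(10,1),(5,3)]⟩⟩]⟩) (.I [0,0,-2,-1,1,0,0,
  -1,-1] (.I [1,0,1,0,-1,0,0,1,-1] (.I [1,0,0,-1,0,0,0,-1,-1] (.R ⟨1,false,false,true,[1,0,0,-1],[0,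
  0,1],[1,1,0,-1,0,0,0,0,-1],(⟨1,[(15,0),(8,0),(0,0)]⟩,⟨0,[(16,0)]⟩),(⟨0,[(25,0)]⟩,⟨0,[(24,0)]⟩),⟨1,
  [(5,0),(1,0),(7,0)]⟩,.k,.k,(.x 0 ⟨1,[(5,0),(1,0),(10,0),(2,0)]⟩ ⟨3,[(13,0),(0,0),(13,3),(3,1)]⟩),
  .k,(.r (-1) ⟨3,[(0,1),(1,1),(10,0),(0,0)]⟩ ⟨0,[(1,0),(12,0),(16,0)]⟩),.k,⟨true,0,⟨0,[(0,0)]⟩,⟨0,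
  [(1,0),(12,0),(16,0)]⟩⟩,⟨false,1,⟨1,[(15,0),(5,1),(2,0),(0,0),(6,1)]⟩,⟨0,[(10,0),(5,0)]⟩⟩,⟨true,0,
  ⟨0,[(30,0)]⟩,⟨0,[(31,0)]⟩⟩,⟨false,1,⟨1,[(14,0),(0,0),(3,1),(4,0),(0,0),(7,0)]⟩,⟨5,[(0,2),(0,1),(0,
  0),(1,3),(5,1),(5,5),(16,0)]⟩⟩,⟨false,0,⟨0,[]⟩,⟨3,[(13,0),(0,0),(18,1)]⟩⟩,⟨false,1,⟨1,[(14,0),(0,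
  0),(3,1),(4,0),(0,0),(5,1),(1,0)]⟩,⟨0,[(0,0),(3,0),(3,0),(7,0)]⟩⟩,[.o ⟨false,0,⟨0,[(19,0)]⟩,⟨0,
  [(17,0),(15,0)]⟩⟩,.o ⟨false,1,⟨3,[(13,0),(0,0),(4,3),(13,1)]⟩,⟨0,[(4,0),(25,0)]⟩⟩,.a ⟨true,0,⟨0,
  [(16,0)]⟩,⟨1,[(15,0),(8,0),(0,0)]⟩⟩ ⟨false,0,⟨2,[(0,1),(2,0),(4,0)]⟩,⟨1,[(14,0),(16,1),(1,0)]⟩⟩
  ⟨true,0,⟨1,[(15,0),(3,1),(4,0),(0,0)]⟩,⟨0,[(4,0),(11,0),(13,0)]⟩⟩,.o ⟨false,0,⟨7,[(1,1),(2,1),(1,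
  1),(7,0),(1,7),(1,1),(2,3),(4,0)]⟩,⟨7,[(13,0),(0,0),(0,3),(10,1),(5,3)]⟩⟩]⟩) (.Q [0,-1,0,2,0,0,0,
  0,0,1] (.pp false [-1,1]) (.I [0,-1,0,0,0,0,0,0,-1] (.R ⟨1,false,false,true,[1,0,0,-1],[1,-1],[0,
  0,0,0,0,0,0,0,-1],(⟨1,[(17,0),(8,0),(0,0)]⟩,⟨0,[(18,0)]⟩),(⟨0,[(29,0)]⟩,⟨0,[(30,0)]⟩),⟨1,[(7,0),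
  (1,0),(7,0)]⟩,.k,.k,(.r (-1) ⟨7,[(4,3),(5,3),(4,2),(0,0)]⟩ ⟨0,[(2,0),(8,0),(11,0),(8,0)]⟩),(.x
  (-1) ⟨3,[(15,0),(0,0),(13,3),(3,1)]⟩ ⟨1,[(7,0),(1,0),(10,0),(2,0)]⟩),.k,.k,⟨false,0,⟨0,[(0,0),(32,
  0)]⟩,⟨1,[(16,0),(15,1),(1,0)]⟩⟩,⟨true,0,⟨1,[(17,0),(2,0),(2,0)]⟩,⟨0,[(18,0)]⟩⟩,⟨false,1,⟨3,[(15,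
  0),(0,0),(18,1)]⟩,⟨0,[]⟩⟩,⟨false,1,⟨1,[(8,0),(7,0),(0,0),(14,0),(2,0)]⟩,⟨0,[(0,0),(17,0),(14,
  0)]⟩⟩,⟨true,0,⟨0,[(33,0)]⟩,⟨0,[(32,0)]⟩⟩,⟨false,1,⟨7,[(15,0),(0,4),(0,3),(10,1)]⟩,⟨0,[(0,0),(17,
  0)]⟩⟩,[.o ⟨false,0,⟨0,[(8,0)]⟩,⟨3,[(1,1),(13,0),(0,0),(11,0),(6,0)]⟩⟩,.o ⟨false,1,⟨1,[(28,0),(3,
  1),(2,0)]⟩,⟨0,[(33,0)]⟩⟩,.a ⟨true,0,⟨0,[(18,0)]⟩,⟨1,[(17,0),(8,0),(0,0)]⟩⟩ ⟨false,0,⟨0,[(0,0)]⟩,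
  ⟨3,[(15,0),(0,2)]⟩⟩ ⟨true,0,⟨1,[(8,0),(8,0),(14,0)]⟩,⟨0,[(18,0),(14,0)]⟩⟩,.o ⟨false,0,⟨9,[(2,0),
  (0,0),(2,1),(1,2),(9,9),(1,2),(2,4),(4,0),(2,0)]⟩,⟨7,[(15,0),(0,0),(0,3),(10,1),(5,3)]⟩⟩]⟩) (.R
  ⟨2,true,false,true,[0,1],[1,-1],[0,1,1,1],(⟨0,[]⟩,⟨0,[]⟩),(⟨0,[(29,0)]⟩,⟨0,[(30,0)]⟩),⟨0,[]⟩,.k,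
  .k,.k,(.r 1 ⟨2,[(0,2),(0,1),(1,2),(2,1),(15,0),(0,2)]⟩ ⟨3,[(4,3),(5,3),(4,0),(0,2)]⟩),.k,.k,⟨true,
  (-1),⟨2,[(0,2),(0,1),(1,2),(2,1),(15,0),(0,2)]⟩,⟨0,[(0,0),(3,0),(5,0),(20,0)]⟩⟩,⟨false,0,⟨9,[(2,
  0),(0,0),(2,1),(1,2),(11,2),(2,4),(4,0),(2,0)]⟩,⟨0,[(26,0),(0,0),(6,0)]⟩⟩,⟨true,0,⟨0,[(37,0)]⟩,⟨0,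
  []⟩⟩,⟨false,1,⟨0,[(8,0),(23,0),(2,0)]⟩,⟨0,[(1,0)]⟩⟩,⟨false,0,⟨0,[(33,0)]⟩,⟨0,[(32,0),(2,0)]⟩⟩,
  ⟨true,0,⟨0,[(8,0)]⟩,⟨1,[(1,0),(24,0),(0,0),(9,0)]⟩⟩,[]⟩)) (.I [1,1,0,0,0,0,0,0,1] (.R ⟨1,true,
  false,false,[0,0,1],[0,0,0,1],[1,1,0,-1,0,0,0,1],(⟨0,[(27,0)]⟩,⟨0,[(26,0)]⟩),(⟨0,[(18,0)]⟩,⟨1,
  [(17,0),(8,0),(0,0)]⟩),⟨0,[(7,0)]⟩,.k,.k,.k,.k,(.r (-1) ⟨1,[(10,1),(4,0),(18,0)]⟩ ⟨0,[(0,0),(10,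
  0),(11,0)]⟩),.k,⟨false,0,⟨0,[(3,0),(28,0),(1,0)]⟩,⟨1,[(11,1),(4,0),(6,1),(10,0)]⟩⟩,⟨true,0,⟨1,
  [(14,0),(2,0)]⟩,⟨0,[(18,0),(4,0)]⟩⟩,⟨true,0,⟨0,[(32,0)]⟩,⟨0,[(33,0)]⟩⟩,⟨false,1,⟨5,[(1,1),(4,0),
  (4,2),(4,2),(0,2),(4,1),(12,2)]⟩,⟨0,[(3,0),(14,0),(4,0),(10,0)]⟩⟩,⟨false,0,⟨0,[]⟩,⟨3,[(15,0),(0,
  0),(18,1)]⟩⟩,⟨true,0,⟨1,[(0,1),(5,0),(4,0),(5,0)]⟩,⟨14,[(3,6),(0,5),(5,3),(4,0),(2,14),(2,9),(1,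
  4),(8,4)]⟩⟩,[]⟩) (.R ⟨1,false,false,false,[1,0,0,-1],[1,-1,-1],[0,0,0,0,0,0,0,0,-1],(⟨1,[(17,0),
  (8,0),(0,0)]⟩,⟨0,[(18,0)]⟩),(⟨0,[(9,0)]⟩,⟨0,[(27,0),(2,0)]⟩),⟨1,[(7,0),(1,0),(7,0)]⟩,.k,.k,(.r
  (-1) ⟨7,[(4,3),(5,3),(4,2),(0,0)]⟩ ⟨0,[(2,0),(8,0),(11,0),(8,0)]⟩),(.r 1 ⟨0,[(3,0),(29,0)]⟩ ⟨1,
  [(13,1),(2,0),(15,1),(2,0)]⟩),.k,.k,⟨true,(-1),⟨0,[(3,0),(29,0)]⟩,⟨2,[(1,1),(2,0),(6,1),(4,1),(6,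
  1),(2,1),(0,1)]⟩⟩,⟨false,0,⟨1,[(14,0),(2,0)]⟩,⟨0,[(18,0),(4,0),(10,0)]⟩⟩,⟨false,1,⟨3,[(15,0),(0,
  0),(18,1)]⟩,⟨0,[]⟩⟩,⟨false,1,⟨1,[(1,1),(9,1),(4,0),(0,0),(8,0),(0,0),(7,0)]⟩,⟨0,[(0,0),(17,0),(2,
  0),(11,0)]⟩⟩,⟨true,0,⟨0,[(33,0)]⟩,⟨0,[(32,0)]⟩⟩,⟨false,1,⟨5,[(1,1),(4,0),(4,2),(4,2),(0,2),(4,1),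
  (12,2)]⟩,⟨0,[(0,0),(17,0),(2,0)]⟩⟩,[.o ⟨false,0,⟨0,[(1,0),(9,0)]⟩,⟨1,[(2,1),(12,0),(7,1),(10,
  0)]⟩⟩,.o ⟨false,1,⟨2,[(1,1),(4,0),(15,1),(12,2)]⟩,⟨0,[(21,0),(11,0)]⟩⟩,.a ⟨true,0,⟨0,[(18,0)]⟩,⟨1,
  [(17,0),(8,0),(0,0)]⟩⟩ ⟨false,0,⟨0,[(0,0)]⟩,⟨3,[(15,0),(0,2)]⟩⟩ ⟨true,0,⟨1,[(1,1),(9,1),(5,0),(8,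
  0),(0,0)]⟩,⟨0,[(18,0),(2,0),(11,0)]⟩⟩,.o ⟨false,0,⟨8,[(1,0),(0,0),(0,0),(2,1),(1,0),(9,8),(1,2),
  (2,4),(4,0)]⟩,⟨7,[(15,0),(0,0),(0,3),(10,1),(5,3)]⟩⟩]⟩)))) (.Q [0,0,0,0,0,1,0,0,0,0,0,-1] (.p
  false [0,0,0,1] [] (⟨0,[(15,0)]⟩,⟨1,[(14,0),(8,0),(0,0)]⟩) .k 0 (⟨0,[]⟩,⟨0,[]⟩) .k .k) (.I [0,0,0,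
  0,0,0,0,-1,-1] (.R ⟨0,false,false,false,[0,0,0,1],[1,0,-1],[1,0,0,0,0,0,0,0,1],(⟨0,[(17,0)]⟩,⟨1,
  [(16,0),(8,0),(0,0)]⟩),(⟨0,[(25,0)]⟩,⟨0,[(26,0)]⟩),⟨0,[(1,0)]⟩,.k,.k,(.r (-1) ⟨0,[(2,0),(6,0)]⟩
  ⟨1,[(0,0),(3,0),(17,0),(0,0),(8,1)]⟩),.k,.k,.k,⟨false,1,⟨1,[(15,0),(8,1),(8,0)]⟩,⟨0,[(0,0)]⟩⟩,
  ⟨true,0,⟨0,[(11,0),(5,0)]⟩,⟨1,[(16,0),(5,1),(2,0),(0,0)]⟩⟩,⟨true,0,⟨0,[]⟩,⟨0,[(36,0)]⟩⟩,⟨false,0,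
  ⟨0,[(0,0),(4,0),(3,0),(7,0)]⟩,⟨1,[(15,0),(0,0),(3,1),(4,0),(0,0),(7,0)]⟩⟩,⟨false,0,⟨0,[]⟩,⟨0,[]⟩⟩,
  ⟨false,0,⟨0,[]⟩,⟨0,[]⟩⟩,[.o ⟨false,0,⟨0,[(5,0),(25,0)]⟩,⟨3,[(14,0),(0,0),(4,3),(13,1)]⟩⟩,.o
  ⟨false,1,⟨0,[(18,0),(15,0)]⟩,⟨0,[(20,0)]⟩⟩,.a ⟨true,0,⟨1,[(16,0),(8,0),(0,0)]⟩,⟨0,[(17,0)]⟩⟩
  ⟨false,1,⟨1,[(15,0),(18,0)]⟩,⟨1,[(0,0),(3,0)]⟩⟩ ⟨true,0,⟨0,[(5,0),(11,0),(13,0)]⟩,⟨1,[(16,0),(3,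
  1),(4,0),(0,0)]⟩⟩,.o ⟨false,0,⟨1,[(16,0),(2,0),(2,0)]⟩,⟨1,[(17,1),(9,0),(5,0)]⟩⟩]⟩) (.I [1,-1,2,2,
  -1,0,0,0,-1] (.R ⟨0,false,false,false,[0,0,0,1],[0,1],[0,1,0,-1,0,0,0,0,1],(⟨0,[(18,0)]⟩,⟨1,[(17,
  0),(8,0),(0,0)]⟩),(⟨0,[(30,0)]⟩,⟨0,[(29,0)]⟩),⟨0,[(2,0)]⟩,.k,.k,(.r (-1) ⟨0,[(3,0),(6,0)]⟩ ⟨7,[(0,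
  3),(14,2),(0,0),(20,3)]⟩),(.r (-1) ⟨0,[(3,0),(6,0)]⟩ ⟨7,[(0,3),(14,2),(0,0),(20,3)]⟩),.k,.k,⟨true,
  1,⟨0,[(3,0),(6,0),(21,0)]⟩,⟨0,[(0,0)]⟩⟩,⟨false,1,⟨0,[(18,0),(15,0)]⟩,⟨1,[(17,0),(2,0),(2,0)]⟩⟩,
  ⟨true,0,⟨0,[(32,0)]⟩,⟨0,[(33,0)]⟩⟩,⟨false,0,⟨0,[(0,0),(0,0),(2,0),(13,0)]⟩,⟨1,[(8,0),(7,0),(0,0),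
  (14,0),(2,0)]⟩⟩,⟨false,0,⟨0,[]⟩,⟨0,[]⟩⟩,⟨false,0,⟨0,[]⟩,⟨0,[]⟩⟩,[.o ⟨false,0,⟨0,[(33,0)]⟩,⟨1,[(28,
  0),(3,1),(2,0)]⟩⟩,.o ⟨false,1,⟨3,[(15,0),(0,0),(16,3),(1,1)]⟩,⟨0,[(8,0)]⟩⟩,.a ⟨true,0,⟨1,[(17,0),
  (8,0),(0,0)]⟩,⟨0,[(18,0)]⟩⟩ ⟨false,1,⟨1,[(16,0),(15,1),(2,0)]⟩,⟨0,[(0,0),(0,0),(2,0)]⟩⟩ ⟨true,0,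
  ⟨0,[(18,0),(14,0)]⟩,⟨1,[(8,0),(8,0),(14,0)]⟩⟩,.o ⟨false,0,⟨1,[(17,0),(2,0),(2,0)]⟩,⟨1,[(18,1),(9,
  0),(5,0)]⟩⟩]⟩) (.I [0,0,0,1,0,0,0,-1,-1] (.Q [0,1,0,0,0,0,0,0,1,0,0,-1] (.p false [0,0,0,1] []
  (⟨0,[(19,0)]⟩,⟨1,[(18,0),(8,0),(0,0)]⟩) .k 0 (⟨0,[]⟩,⟨0,[]⟩) .k .k) (.R ⟨1,false,false,false,[1,0,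
  0,-1],[1,-1],[0,0,0,0,0,0,0,0,-1],(⟨1,[(19,0),(8,0),(0,0)]⟩,⟨0,[(20,0)]⟩),(⟨0,[(31,0)]⟩,⟨0,[(32,
  0)]⟩),⟨1,[(9,0),(1,0),(7,0)]⟩,.k,.k,(.r (-1) ⟨11,[(2,1),(3,3),(5,3),(4,4),(19,0)]⟩ ⟨1,[(3,1),(9,
  0),(10,0),(0,1),(9,0)]⟩),(.r 0 ⟨1,[(1,0),(5,0),(17,0),(0,0),(8,0)]⟩ ⟨3,[(2,1),(15,0),(18,0)]⟩),.k,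
  .k,⟨false,0,⟨1,[(1,0),(5,0),(27,0)]⟩,⟨3,[(2,1),(15,0),(18,0)]⟩⟩,⟨true,0,⟨1,[(19,0),(2,0),(2,0)]⟩,
  ⟨0,[(20,0)]⟩⟩,⟨false,1,⟨3,[(17,0),(0,0),(18,1)]⟩,⟨0,[]⟩⟩,⟨false,1,⟨5,[(0,1),(1,2),(0,0),(4,0),(1,
  0),(8,1),(5,0),(7,4),(3,2)]⟩,⟨1,[(1,0),(5,0),(12,1),(14,0)]⟩⟩,⟨true,0,⟨0,[(35,0)]⟩,⟨0,[(34,0)]⟩⟩,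
  ⟨false,1,⟨0,[(0,0),(36,0)]⟩,⟨0,[(1,0),(10,0),(7,0)]⟩⟩,[.o ⟨false,1,⟨1,[(30,0),(3,1),(2,0)]⟩,⟨0,
  [(35,0)]⟩⟩,.o ⟨false,1,⟨0,[(10,0),(26,0)]⟩,⟨0,[(35,0),(3,0)]⟩⟩,.a ⟨true,0,⟨0,[(20,0)]⟩,⟨1,[(19,0),
  (8,0),(0,0)]⟩⟩ ⟨true,0,⟨0,[(1,0),(10,0)]⟩,⟨0,[(0,0),(19,0)]⟩⟩ ⟨false,1,⟨1,[(10,0),(8,0),(14,0),(2,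
  1)]⟩,⟨0,[(20,0),(14,0)]⟩⟩,.o ⟨false,0,⟨0,[(14,0),(5,0),(4,0)]⟩,⟨7,[(17,0),(0,0),(0,3),(10,1),(5,
  3)]⟩⟩]⟩) (.R ⟨1,false,false,true,[1,0,0,-1],[1,-1],[0,1,0,0,0,0,0,0,-1],(⟨1,[(19,0),(8,0),(0,0)]⟩,
  ⟨0,[(20,0)]⟩),(⟨0,[(31,0)]⟩,⟨0,[(32,0)]⟩),⟨1,[(9,0),(1,0),(7,0)]⟩,.k,.k,(.r (-1) ⟨11,[(2,1),(3,3),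
  (5,3),(4,4),(19,0)]⟩ ⟨1,[(3,1),(9,0),(10,0),(0,1),(9,0)]⟩),(.r 0 ⟨1,[(1,0),(5,0),(17,0),(0,0),(8,
  0)]⟩ ⟨3,[(2,1),(15,0),(18,0)]⟩),.k,.k,⟨false,0,⟨1,[(1,0),(5,0),(27,0)]⟩,⟨3,[(2,1),(15,0),(18,
  0)]⟩⟩,⟨true,0,⟨1,[(19,0),(2,0),(2,0)]⟩,⟨0,[(20,0)]⟩⟩,⟨true,0,⟨0,[(39,0)]⟩,⟨0,[]⟩⟩,⟨false,1,⟨3,[(2,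
  1),(15,0),(0,1),(2,1),(2,1),(11,0)]⟩,⟨0,[(0,0),(34,0)]⟩⟩,⟨false,0,⟨0,[(35,0)]⟩,⟨0,[(34,0),(2,
  0)]⟩⟩,⟨false,1,⟨7,[(17,0),(0,4),(0,3),(10,1)]⟩,⟨0,[(0,0)]⟩⟩,[.o ⟨false,0,⟨0,[(10,0)]⟩,⟨3,[(17,0),
  (0,0),(16,3),(1,1)]⟩⟩,.o ⟨false,1,⟨1,[(30,0),(3,1),(2,0)]⟩,⟨0,[(35,0)]⟩⟩,.a ⟨true,0,⟨0,[(20,0)]⟩,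
  ⟨1,[(19,0),(8,0),(0,0)]⟩⟩ ⟨false,0,⟨5,[(0,1),(0,1),(5,1),(2,0),(8,0),(14,0)]⟩,⟨1,[(18,0),(18,
  0)]⟩⟩ ⟨true,0,⟨1,[(10,0),(8,0),(14,0)]⟩,⟨0,[(20,0),(14,0)]⟩⟩,.o ⟨false,0,⟨6,[(0,0),(2,0),(4,1),(1,
  1),(9,5),(1,2),(0,0),(1,3)]⟩,⟨7,[(17,0),(0,0),(0,3),(10,1),(5,3)]⟩⟩]⟩)) (.Q [0,1,0,-1,0,0,0,0,-1,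
  -1,0,1] (.p true [0,0,0,1] [1] (⟨0,[(19,0)]⟩,⟨1,[(18,0),(8,0),(0,0)]⟩) .k 1 (⟨0,[]⟩,⟨0,[]⟩) .k
  .k) (.Q [0,0,0,1,0,0,0,0,1,1,0,-1] (.p false [0,0,0,1] [1] (⟨0,[(20,0)]⟩,⟨1,[(19,0),(8,0),(0,
  0)]⟩) .k 1 (⟨0,[]⟩,⟨0,[]⟩) .k .k) (.R ⟨0,false,false,true,[0,0,0,1],[1,-1],[0,1,-1,-1],(⟨0,[(21,
  0)]⟩,⟨1,[(20,0),(8,0),(0,0)]⟩),(⟨0,[(32,0)]⟩,⟨0,[(33,0)]⟩),⟨0,[(5,0)]⟩,.k,.k,(.r (-1) ⟨3,[(3,1),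
  (15,0),(18,0)]⟩ ⟨1,[(8,1),(5,0),(10,0),(0,1),(9,0)]⟩),(.r 0 ⟨5,[(0,3),(3,1),(4,0),(11,3),(0,0),(0,
  1),(2,3),(9,0)]⟩ ⟨11,[(3,1),(3,3),(5,3),(4,4),(19,0)]⟩),.k,.k,⟨false,1,⟨3,[(18,0),(0,0),(17,1)]⟩,
  ⟨0,[]⟩⟩,⟨true,0,⟨2,[(1,0),(2,0),(4,0),(11,1),(1,0),(2,1)]⟩,⟨1,[(20,0),(8,0),(0,0)]⟩⟩,⟨false,1,⟨11,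
  [(3,1),(3,3),(5,3),(4,4),(19,0)]⟩,⟨1,[(0,0),(3,0),(4,0),(11,0),(4,0),(7,0)]⟩⟩,⟨true,0,⟨0,[(1,0)]⟩,
  ⟨0,[(0,0)]⟩⟩,⟨false,0,⟨0,[]⟩,⟨0,[]⟩⟩,⟨false,0,⟨0,[]⟩,⟨0,[]⟩⟩,[.o ⟨false,0,⟨0,[(11,0)]⟩,⟨3,[(18,0),
  (0,0),(16,3),(1,1)]⟩⟩,.o ⟨false,1,⟨1,[(31,0),(3,1),(2,0)]⟩,⟨0,[(36,0)]⟩⟩,.a ⟨true,0,⟨1,[(20,0),(8,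
  0),(0,0)]⟩,⟨0,[(21,0)]⟩⟩ ⟨false,1,⟨3,[(3,1),(14,0),(19,0)]⟩,⟨0,[(34,0),(1,0)]⟩⟩ ⟨true,0,⟨0,[(11,
  0),(9,0)]⟩,⟨1,[(20,0),(8,0),(0,0),(5,1)]⟩⟩,.o ⟨false,0,⟨1,[(20,0),(2,0),(2,0)]⟩,⟨1,[(21,1),(9,0),
  (5,0)]⟩⟩]⟩) (.Q [0,1,0,1,0,0,1,1,1,1,-1,-1] (.p false [0,0,1] [1,0,0,-1] (⟨0,[(30,0)]⟩,⟨0,[(29,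
  0)]⟩) .k 2 (⟨1,[(20,0),(8,0),(0,0)]⟩,⟨0,[(21,0)]⟩) .k (.r 0 ⟨0,[(2,0),(6,0),(0,0),(1,0),(11,0),(8,
  1)]⟩ ⟨8,[(7,0),(6,0),(1,3),(1,3),(6,2),(0,3),(7,1)]⟩)) (.R ⟨0,false,false,false,[0,0,0,1],[1,-1],
  [0,1],(⟨0,[(22,0)]⟩,⟨1,[(21,0),(8,0),(0,0)]⟩),(⟨0,[(33,0)]⟩,⟨0,[(34,0)]⟩),⟨0,[(6,0)]⟩,.k,.k,(.r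
  (-1) ⟨3,[(4,1),(15,0),(18,0)]⟩ ⟨1,[(9,1),(5,0),(10,0),(0,1),(9,0)]⟩),(.r 0 ⟨5,[(0,1),(4,3),(4,0),
  (4,2),(6,1),(1,0),(1,1),(0,4)]⟩ ⟨11,[(4,1),(3,3),(5,3),(4,4),(19,0)]⟩),.k,.k,⟨false,0,⟨0,[(37,0),
  (3,0)]⟩,⟨1,[(3,0),(4,0),(30,0)]⟩⟩,⟨true,0,⟨2,[(2,0),(2,0),(4,0),(11,1),(1,0),(2,1)]⟩,⟨1,[(21,0),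
  (8,0),(0,0)]⟩⟩,⟨false,0,⟨1,[(1,1),(19,0),(8,0),(0,0),(5,1)]⟩,⟨1,[(20,0),(18,0)]⟩⟩,⟨true,0,⟨0,[(1,
  0)]⟩,⟨0,[(0,0),(14,0),(20,0)]⟩⟩,⟨false,0,⟨0,[]⟩,⟨0,[]⟩⟩,⟨false,0,⟨0,[]⟩,⟨0,[]⟩⟩,[.o ⟨false,1,⟨1,
  [(32,0),(3,1),(2,0)]⟩,⟨0,[(37,0)]⟩⟩,.o ⟨false,1,⟨0,[(12,0),(26,0)]⟩,⟨0,[(37,0),(3,0)]⟩⟩,.a ⟨true,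
  0,⟨1,[(21,0),(8,0),(0,0)]⟩,⟨0,[(22,0)]⟩⟩ ⟨true,0,⟨0,[(41,0)]⟩,⟨0,[]⟩⟩ ⟨false,1,⟨1,[(1,1),(18,0),
  (18,0)]⟩,⟨1,[(21,0),(8,0),(0,0),(5,1)]⟩⟩,.o ⟨false,0,⟨1,[(21,0),(2,0),(2,0)]⟩,⟨1,[(22,1),(9,0),(5,
  0)]⟩⟩]⟩) (.Q [0,0,0,1,0,0,-1,-1,1,0,1,-1] (.p true [0,0,1] [0,0,0,1] (⟨0,[(31,0)]⟩,⟨0,[(30,0)]⟩)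
  .k 2 (⟨0,[(22,0)]⟩,⟨1,[(21,0),(8,0),(0,0)]⟩) .k (.r 0 ⟨0,[(0,1),(2,0),(2,1),(3,2),(0,4),(1,4),(11,
  4),(8,7)]⟩ ⟨3,[(7,1),(12,0),(5,1),(0,1),(11,0)]⟩)) (.R ⟨0,false,false,false,[0,0,0,1],[1,-1],[0,
  1],(⟨0,[(23,0)]⟩,⟨1,[(22,0),(8,0),(0,0)]⟩),(⟨0,[(34,0)]⟩,⟨0,[(35,0)]⟩),⟨0,[(7,0)]⟩,.k,.k,(.r (-1)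
  ⟨3,[(5,1),(15,0),(18,0)]⟩ ⟨1,[(10,1),(5,0),(10,0),(0,1),(9,0)]⟩),(.r 0 ⟨3,[(0,1),(5,1),(16,1),(4,
  2),(0,0),(8,1)]⟩ ⟨11,[(5,1),(3,3),(5,3),(4,4),(19,0)]⟩),.k,.k,⟨false,0,⟨0,[(38,0),(3,0)]⟩,⟨1,[(4,
  0),(4,0),(30,0)]⟩⟩,⟨true,0,⟨2,[(3,0),(2,0),(4,0),(11,1),(1,0),(2,1)]⟩,⟨1,[(22,0),(8,0),(0,0)]⟩⟩,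
  ⟨false,0,⟨1,[(2,1),(19,0),(8,0),(0,0),(5,1)]⟩,⟨1,[(21,0),(18,0)]⟩⟩,⟨true,0,⟨0,[(2,0)]⟩,⟨0,[(0,0),
  (25,0),(4,0),(0,0)]⟩⟩,⟨false,0,⟨0,[]⟩,⟨0,[]⟩⟩,⟨false,0,⟨0,[]⟩,⟨0,[]⟩⟩,[.o ⟨false,1,⟨1,[(33,0),(3,
  1),(2,0)]⟩,⟨0,[(38,0)]⟩⟩,.o ⟨false,1,⟨0,[(13,0),(26,0)]⟩,⟨0,[(38,0),(3,0)]⟩⟩,.a ⟨true,0,⟨1,[(22,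
  0),(8,0),(0,0)]⟩,⟨0,[(23,0)]⟩⟩ ⟨true,0,⟨0,[(42,0)]⟩,⟨0,[]⟩⟩ ⟨false,1,⟨1,[(2,1),(18,0),(18,0)]⟩,⟨1,
  [(22,0),(8,0),(0,0),(5,1)]⟩⟩,.o ⟨false,0,⟨1,[(22,0),(2,0),(2,0)]⟩,⟨1,[(23,1),(9,0),(5,0)]⟩⟩]⟩)
  (.R ⟨1,false,false,true,[1,0,0,-1],[1,-1],[0,0,0,0,0,0,0,0,-1],(⟨1,[(22,0),(8,0),(0,0)]⟩,⟨0,[(23,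
  0)]⟩),(⟨0,[(34,0)]⟩,⟨0,[(35,0)]⟩),⟨1,[(12,0),(1,0),(7,0)]⟩,.k,.k,(.r (-1) ⟨11,[(5,1),(3,3),(5,3),
  (4,4),(19,0)]⟩ ⟨1,[(6,1),(9,0),(10,0),(0,1),(9,0)]⟩),(.r 0 ⟨1,[(10,1),(5,0),(10,0),(0,1),(9,0)]⟩
  ⟨3,[(5,1),(15,0),(18,0)]⟩),.k,.k,⟨false,0,⟨1,[(0,1),(10,0),(4,0),(5,0),(15,1)]⟩,⟨7,[(5,3),(14,0),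
  (0,2),(20,3)]⟩⟩,⟨true,0,⟨1,[(22,0),(2,0),(2,0)]⟩,⟨0,[(23,0)]⟩⟩,⟨false,1,⟨3,[(20,0),(0,0),(18,1)]⟩,
  ⟨0,[]⟩⟩,⟨false,1,⟨3,[(5,1),(15,0),(0,1),(2,1),(2,1),(11,0)]⟩,⟨0,[(0,0),(15,0),(21,0)]⟩⟩,⟨true,0,
  ⟨0,[(38,0)]⟩,⟨0,[(37,0)]⟩⟩,⟨false,1,⟨7,[(20,0),(0,4),(0,3),(10,1)]⟩,⟨0,[(0,0),(15,0)]⟩⟩,[.o
  ⟨false,0,⟨0,[(13,0)]⟩,⟨3,[(20,0),(0,0),(16,3),(1,1)]⟩⟩,.o ⟨false,1,⟨1,[(33,0),(3,1),(2,0)]⟩,⟨0,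
  [(38,0)]⟩⟩,.a ⟨true,0,⟨0,[(23,0)]⟩,⟨1,[(22,0),(8,0),(0,0)]⟩⟩ ⟨false,0,⟨1,[(0,1),(10,0),(4,0),(5,
  0)]⟩,⟨3,[(20,0),(0,2)]⟩⟩ ⟨true,0,⟨1,[(13,0),(8,0),(14,0)]⟩,⟨0,[(23,0),(14,0)]⟩⟩,.o ⟨false,0,⟨2,
  [(3,0),(2,0),(4,0),(11,1),(1,0),(2,1)]⟩,⟨7,[(20,0),(0,0),(0,3),(10,1),(5,3)]⟩⟩]⟩)))) (.R ⟨0,false,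
  false,true,[0,0,0,1],[1,-1],[0,1,0,0,0,0,0,0,1],(⟨0,[(20,0)]⟩,⟨1,[(19,0),(8,0),(0,0)]⟩),(⟨0,[(31,
  0)]⟩,⟨0,[(32,0)]⟩),⟨0,[(4,0)]⟩,.k,.k,(.r (-1) ⟨3,[(2,1),(15,0),(18,0)]⟩ ⟨1,[(7,1),(5,0),(10,0),(0,
  1),(9,0)]⟩),(.r 0 ⟨5,[(0,1),(2,3),(4,0),(11,1),(1,0),(1,2),(0,4),(9,2)]⟩ ⟨11,[(2,1),(3,3),(5,3),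
  (4,4),(19,0)]⟩),.k,.k,⟨false,0,⟨2,[(0,2),(7,0),(1,0),(9,2),(0,0),(1,1)]⟩,⟨11,[(2,1),(3,3),(5,3),
  (4,4),(19,0)]⟩⟩,⟨true,0,⟨0,[(14,0),(5,0),(4,0)]⟩,⟨1,[(19,0),(8,0),(0,0)]⟩⟩,⟨true,0,⟨0,[(39,0)]⟩,
  ⟨0,[]⟩⟩,⟨false,1,⟨1,[(10,1),(6,0),(2,1),(16,0)]⟩,⟨0,[(0,0)]⟩⟩,⟨false,0,⟨0,[]⟩,⟨0,[]⟩⟩,⟨false,0,⟨0,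
  []⟩,⟨0,[]⟩⟩,[.o ⟨false,0,⟨0,[(10,0)]⟩,⟨3,[(17,0),(0,0),(16,3),(1,1)]⟩⟩,.o ⟨false,1,⟨1,[(30,0),(3,
  1),(2,0)]⟩,⟨0,[(35,0)]⟩⟩,.a ⟨true,0,⟨1,[(19,0),(8,0),(0,0)]⟩,⟨0,[(20,0)]⟩⟩ ⟨false,0,⟨0,[(0,0),(9,
  0),(9,0)]⟩,⟨1,[(17,0),(19,0)]⟩⟩ ⟨true,0,⟨0,[(10,0),(9,0)]⟩,⟨1,[(19,0),(8,0),(0,0),(5,1)]⟩⟩,.o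
  ⟨false,0,⟨1,[(19,0),(2,0),(2,0)]⟩,⟨1,[(20,1),(9,0),(5,0)]⟩⟩]⟩))))) (.Q [0,-1,0,0,0,0,-1,-1,-1,-1,
  1,1] (.p true [0,0,1] [1,0,0,-1] (⟨0,[(25,0)]⟩,⟨0,[(24,0)]⟩) .k 2 (⟨1,[(15,0),(8,0),(0,0)]⟩,⟨0,
  [(16,0)]⟩) .k (.x (-1) ⟨3,[(1,1),(11,0),(5,1),(1,1),(3,3),(7,0)]⟩ ⟨0,[(10,0),(13,0)]⟩)) (.I [0,0,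
  0,1,0,0,0,-1,-1] (.R ⟨1,false,false,false,[0,0,0,1],[1,0,-1],[1,0,0,-1,0,0,0,0,1],(⟨0,[(18,0)]⟩,
  ⟨1,[(17,0),(8,0),(0,0)]⟩),(⟨0,[(26,0)]⟩,⟨0,[(27,0)]⟩),⟨0,[(2,0)]⟩,.k,.k,(.r (-1) ⟨0,[(3,0),(6,
  0)]⟩ ⟨1,[(0,0),(4,0),(17,0),(0,0),(8,0)]⟩),.k,(.r (-1) ⟨1,[(10,1),(5,0),(17,0)]⟩ ⟨1,[(0,1),(22,0),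
  (0,0)]⟩),.k,⟨false,1,⟨1,[(10,1),(5,0),(17,0)]⟩,⟨0,[(0,0)]⟩⟩,⟨true,0,⟨0,[(12,0),(5,0)]⟩,⟨1,[(17,0),
  (5,1),(2,0),(0,0)]⟩⟩,⟨false,1,⟨0,[(32,0),(2,0)]⟩,⟨0,[(33,0)]⟩⟩,⟨false,0,⟨0,[(1,0)]⟩,⟨1,[(16,0),(0,
  0),(3,1),(4,0),(0,0),(7,0)]⟩⟩,⟨true,0,⟨0,[]⟩,⟨0,[(37,0)]⟩⟩,⟨false,0,⟨0,[(1,0),(31,0)]⟩,⟨3,[(3,1),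
  (6,3),(5,0),(0,1),(3,1),(1,1),(2,1),(0,1),(7,0)]⟩⟩,[.o ⟨false,0,⟨0,[(6,0),(25,0)]⟩,⟨3,[(15,0),(0,
  0),(4,3),(13,1)]⟩⟩,.o ⟨false,1,⟨0,[(19,0),(15,0)]⟩,⟨0,[(21,0)]⟩⟩,.a ⟨true,0,⟨1,[(17,0),(8,0),(0,
  0)]⟩,⟨0,[(18,0)]⟩⟩ ⟨false,1,⟨0,[(3,0),(6,0),(20,0)]⟩,⟨1,[(0,0),(4,0),(27,0)]⟩⟩ ⟨true,0,⟨0,[(6,0),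
  (11,0),(13,0)]⟩,⟨1,[(17,0),(3,1),(4,0),(0,0)]⟩⟩,.o ⟨false,0,⟨1,[(17,0),(2,0),(2,0)]⟩,⟨1,[(18,1),
  (9,0),(5,0)]⟩⟩]⟩) (.Q [0,0,0,1,0,0,0,0,1,1,0,-1] (.p false [0,0,0,1] [1] (⟨0,[(18,0)]⟩,⟨1,[(17,0),
  (8,0),(0,0)]⟩) .k 1 (⟨0,[]⟩,⟨0,[]⟩) .k .k) (.R ⟨2,true,false,false,[0,1],[1,0,0,-1],[0,1,1,1],(⟨0,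
  []⟩,⟨0,[]⟩),(⟨1,[(18,0),(8,0),(0,0)]⟩,⟨0,[(19,0)]⟩),⟨0,[]⟩,.k,.k,.k,(.r 0 ⟨5,[(0,3),(0,1),(5,0),
  (11,3),(0,0),(0,1),(2,3),(9,2)]⟩ ⟨1,[(1,0),(3,0),(10,0)]⟩),.k,.k,⟨false,0,⟨2,[(0,2),(6,0),(1,0),
  (9,2),(0,0),(1,1)]⟩,⟨2,[(5,1),(0,0),(4,0),(20,0),(3,0)]⟩⟩,⟨true,0,⟨6,[(1,0),(0,0),(4,1),(1,0),(9,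
  5),(1,2),(0,1),(1,3)]⟩,⟨1,[(18,0),(8,0),(0,0)]⟩⟩,⟨true,0,⟨0,[(38,0)]⟩,⟨0,[]⟩⟩,⟨false,1,⟨4,[(2,1),
  (2,0),(3,0),(1,2),(4,0),(2,2),(4,1),(4,0),(6,1)]⟩,⟨0,[(0,0)]⟩⟩,⟨false,0,⟨0,[(34,0)]⟩,⟨0,[(33,0),
  (2,0)]⟩⟩,⟨true,0,⟨0,[(2,0),(19,0)]⟩,⟨0,[(0,0),(32,0)]⟩⟩,[]⟩) (.Q [0,-1,0,0,0,0,0,0,-1,0,0,1] (.p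
  true [0,0,0,1] [] (⟨0,[(19,0)]⟩,⟨1,[(18,0),(8,0),(0,0)]⟩) .k 0 (⟨0,[]⟩,⟨0,[]⟩) .k .k) (.R ⟨1,
  false,false,true,[1,0,0,-1],[1,-1],[0,1,0,0,0,0,0,0,-1],(⟨1,[(19,0),(8,0),(0,0)]⟩,⟨0,[(20,0)]⟩),
  (⟨0,[(31,0)]⟩,⟨0,[(32,0)]⟩),⟨1,[(9,0),(1,0),(7,0)]⟩,.k,.k,(.r (-1) ⟨1,[(2,0),(3,0),(10,0)]⟩ ⟨1,
  [(2,1),(10,0),(10,0),(0,1),(9,2)]⟩),(.r 0 ⟨1,[(7,1),(5,0),(10,0),(0,1),(9,0)]⟩ ⟨1,[(2,0),(3,0),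
  (11,0)]⟩),.k,.k,⟨false,0,⟨1,[(0,0),(2,0),(15,0),(3,0),(11,1),(3,0)]⟩,⟨1,[(2,0),(3,0),(11,0)]⟩⟩,
  ⟨true,0,⟨1,[(19,0),(2,0),(2,0)]⟩,⟨0,[(20,0)]⟩⟩,⟨true,0,⟨0,[(39,0)]⟩,⟨0,[]⟩⟩,⟨false,1,⟨1,[(10,0),
  (7,0),(0,0),(14,0),(2,0)]⟩,⟨0,[(0,0),(34,0)]⟩⟩,⟨false,0,⟨0,[(35,0)]⟩,⟨0,[(34,0),(2,0)]⟩⟩,⟨false,1,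
  ⟨7,[(17,0),(0,4),(0,3),(10,1)]⟩,⟨0,[(0,0)]⟩⟩,[.o ⟨false,0,⟨0,[(10,0)]⟩,⟨3,[(17,0),(0,0),(16,3),(1,
  1)]⟩⟩,.o ⟨false,1,⟨1,[(30,0),(3,1),(2,0)]⟩,⟨0,[(35,0)]⟩⟩,.a ⟨true,0,⟨0,[(20,0)]⟩,⟨1,[(19,0),(8,0),
  (0,0)]⟩⟩ ⟨false,0,⟨1,[(0,0),(2,0),(15,0),(3,0),(15,0)]⟩,⟨1,[(18,0),(18,0)]⟩⟩ ⟨true,0,⟨1,[(10,0),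
  (8,0),(14,0)]⟩,⟨0,[(20,0),(14,0)]⟩⟩,.o ⟨false,0,⟨8,[(1,0),(0,0),(5,2),(1,0),(9,7),(1,3),(0,1),(1,
  4)]⟩,⟨7,[(17,0),(0,0),(0,3),(10,1),(5,3)]⟩⟩]⟩) (.R ⟨1,false,false,false,[0,0,0,1],[1,-1],[0,1,0,0,
  0,0,0,0,1],(⟨0,[(20,0)]⟩,⟨1,[(19,0),(8,0),(0,0)]⟩),(⟨0,[(31,0)]⟩,⟨0,[(32,0)]⟩),⟨0,[(4,0)]⟩,.k,.k,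
  (.r (-1) ⟨1,[(2,0),(3,0),(11,0)]⟩ ⟨1,[(7,1),(5,0),(10,0),(0,1),(9,0)]⟩),(.r 0 ⟨3,[(0,1),(1,1),(10,
  1),(6,1),(4,2),(0,0),(8,3)]⟩ ⟨1,[(2,0),(3,0),(10,0)]⟩),.k,.k,⟨false,0,⟨0,[(0,0),(19,0),(14,0)]⟩,
  ⟨2,[(6,1),(0,0),(4,0),(20,0),(3,0)]⟩⟩,⟨true,0,⟨8,[(1,0),(0,0),(5,2),(1,0),(9,7),(1,3),(0,1),(1,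
  4)]⟩,⟨1,[(19,0),(8,0),(0,0)]⟩⟩,⟨true,0,⟨0,[(39,0)]⟩,⟨0,[]⟩⟩,⟨true,0,⟨0,[(1,0)]⟩,⟨0,[(0,0),(27,0),
  (0,0),(5,0)]⟩⟩,⟨false,0,⟨0,[(35,0)]⟩,⟨0,[(34,0),(2,0)]⟩⟩,⟨true,0,⟨0,[(3,0),(19,0)]⟩,⟨0,[(0,0),(27,
  0),(0,0)]⟩⟩,[.o ⟨false,1,⟨1,[(30,0),(3,1),(2,0)]⟩,⟨0,[(35,0)]⟩⟩,.o ⟨false,1,⟨0,[(10,0),(26,0)]⟩,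
  ⟨0,[(35,0),(3,0)]⟩⟩,.a ⟨true,0,⟨1,[(19,0),(8,0),(0,0)]⟩,⟨0,[(20,0)]⟩⟩ ⟨true,0,⟨0,[(0,0),(19,0)]⟩,
  ⟨1,[(3,1),(15,0),(3,1),(4,0),(0,0)]⟩⟩ ⟨false,1,⟨1,[(1,1),(16,0),(18,0)]⟩,⟨1,[(19,0),(8,0),(0,0),
  (5,1)]⟩⟩,.o ⟨false,0,⟨1,[(19,0),(2,0),(2,0)]⟩,⟨1,[(20,1),(9,0),(5,0)]⟩⟩]⟩)))) (.I [1,0,0,0,0,0,0,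
  0,-1] (.R ⟨1,false,false,false,[0,0,0,1],[1,0,-1],[1,0,1],(⟨0,[(18,0)]⟩,⟨1,[(17,0),(8,0),(0,0)]⟩),
  (⟨0,[(26,0)]⟩,⟨0,[(27,0)]⟩),⟨0,[(2,0)]⟩,.k,.k,(.r (-1) ⟨0,[(3,0),(6,0)]⟩ ⟨1,[(0,1),(22,0),(0,0),
  (8,1)]⟩),.k,(.r (-1) ⟨1,[(10,1),(5,0),(17,0)]⟩ ⟨1,[(0,1),(10,0),(10,0),(0,1),(9,0)]⟩),.k,⟨false,0,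
  ⟨0,[(25,0)]⟩,⟨0,[(13,0)]⟩⟩,⟨true,0,⟨0,[(12,0),(5,0)]⟩,⟨1,[(17,0),(5,1),(2,0),(0,0)]⟩⟩,⟨false,0,⟨0,
  [(0,0),(30,0)]⟩,⟨1,[(16,0),(17,0)]⟩⟩,⟨true,0,⟨0,[(0,0),(5,0),(11,0),(13,0)]⟩,⟨0,[(1,0)]⟩⟩,⟨false,
  0,⟨0,[(5,0),(5,0),(11,0)]⟩,⟨0,[(3,0),(6,0)]⟩⟩,⟨false,0,⟨0,[(0,0),(5,0),(11,0)]⟩,⟨0,[(1,0),(30,0),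
  (2,0)]⟩⟩,[.o ⟨false,0,⟨0,[(6,0),(25,0)]⟩,⟨3,[(15,0),(0,0),(4,3),(13,1)]⟩⟩,.o ⟨false,1,⟨0,[(19,0),
  (15,0)]⟩,⟨0,[(21,0)]⟩⟩,.a ⟨true,0,⟨1,[(17,0),(8,0),(0,0)]⟩,⟨0,[(18,0)]⟩⟩ ⟨false,0,⟨0,[(31,0)]⟩,⟨3,
  [(15,0),(0,0),(17,1)]⟩⟩ ⟨true,0,⟨0,[(6,0),(11,0),(13,0)]⟩,⟨0,[(0,0),(0,0)]⟩⟩,.o ⟨false,0,⟨1,[(17,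
  0),(2,0),(2,0)]⟩,⟨1,[(18,1),(9,0),(5,0)]⟩⟩]⟩) (.Q [0,0,0,1,0,0,0,0,-1,0,0,1] (.p true [0,0,0,1]
  [] (⟨0,[(18,0)]⟩,⟨1,[(17,0),(8,0),(0,0)]⟩) .k 0 (⟨0,[]⟩,⟨0,[]⟩) .k .k) (.R ⟨1,false,false,false,
  [0,0,0,1],[1,-1],[0,0,0,0,0,0,0,0,1],(⟨0,[(19,0)]⟩,⟨1,[(18,0),(8,0),(0,0)]⟩),(⟨0,[(30,0)]⟩,⟨0,
  [(31,0)]⟩),⟨0,[(3,0)]⟩,.k,.k,(.r (-1) ⟨0,[(4,0),(6,0)]⟩ ⟨1,[(0,1),(17,0),(2,0),(2,0)]⟩),(.r 0 ⟨1,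
  [(1,1),(22,0),(0,0),(8,1)]⟩ ⟨7,[(5,3),(5,3),(4,2),(0,0)]⟩),.k,.k,⟨false,0,⟨0,[(1,0),(32,0)]⟩,⟨7,
  [(5,3),(5,3),(4,2),(0,0)]⟩⟩,⟨true,0,⟨0,[(13,0),(5,0),(4,0)]⟩,⟨1,[(18,0),(8,0),(0,0)]⟩⟩,⟨false,1,
  ⟨3,[(16,0),(0,0),(18,1)]⟩,⟨0,[]⟩⟩,⟨false,1,⟨2,[(0,0),(4,0),(0,0),(2,2),(9,1),(12,1),(3,1)]⟩,⟨0,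
  [(2,0),(9,0)]⟩⟩,⟨true,0,⟨0,[(34,0)]⟩,⟨0,[(33,0)]⟩⟩,⟨false,1,⟨0,[(0,0),(8,0),(26,0)]⟩,⟨1,[(1,1),
  (16,0),(8,0),(0,0)]⟩⟩,[.o ⟨false,1,⟨1,[(29,0),(3,1),(2,0)]⟩,⟨0,[(34,0)]⟩⟩,.o ⟨false,1,⟨0,[(9,0),
  (26,0)]⟩,⟨0,[(34,0),(3,0)]⟩⟩,.a ⟨true,0,⟨1,[(18,0),(8,0),(0,0)]⟩,⟨0,[(19,0)]⟩⟩ ⟨true,0,⟨0,[(1,
  0)]⟩,⟨1,[(0,1),(8,0),(8,0),(14,0)]⟩⟩ ⟨false,1,⟨0,[(9,0),(9,0),(16,0)]⟩,⟨1,[(0,0),(1,0),(9,0),(5,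
  0)]⟩⟩,.o ⟨false,0,⟨1,[(18,0),(2,0),(2,0)]⟩,⟨1,[(19,1),(9,0),(5,0)]⟩⟩]⟩) (.Q [0,1,0,0,0,0,0,0,-1,
  -1,0,1] (.p true [0,0,0,1] [1] (⟨0,[(19,0)]⟩,⟨1,[(18,0),(8,0),(0,0)]⟩) .k 1 (⟨0,[]⟩,⟨0,[]⟩) .k
  .k) (.R ⟨1,false,false,false,[0,0,0,1],[1,-1],[0,0,0,0,0,0,0,0,1],(⟨0,[(20,0)]⟩,⟨1,[(19,0),(8,0),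
  (0,0)]⟩),(⟨0,[(31,0)]⟩,⟨0,[(32,0)]⟩),⟨0,[(4,0)]⟩,.k,.k,(.r (-1) ⟨0,[(5,0),(6,0)]⟩ ⟨1,[(7,1),(5,0),
  (10,0),(0,1),(9,0)]⟩),(.r 0 ⟨1,[(2,1),(22,0),(0,0),(8,1)]⟩ ⟨7,[(6,3),(5,3),(4,2),(0,0)]⟩),.k,.k,
  ⟨false,0,⟨0,[(2,0),(32,0)]⟩,⟨7,[(6,3),(5,3),(4,2),(0,0)]⟩⟩,⟨true,0,⟨0,[(14,0),(5,0),(4,0)]⟩,⟨1,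
  [(19,0),(8,0),(0,0)]⟩⟩,⟨false,1,⟨3,[(17,0),(0,0),(18,1)]⟩,⟨0,[]⟩⟩,⟨false,1,⟨2,[(0,1),(5,0),(3,0),
  (1,0),(7,0),(12,1),(3,1)]⟩,⟨0,[(3,0),(9,0)]⟩⟩,⟨true,0,⟨0,[(35,0)]⟩,⟨0,[(34,0)]⟩⟩,⟨false,1,⟨0,[(0,
  0),(36,0)]⟩,⟨1,[(2,1),(16,0),(8,0),(0,0)]⟩⟩,[.o ⟨false,1,⟨1,[(30,0),(3,1),(2,0)]⟩,⟨0,[(35,0)]⟩⟩,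
  .o ⟨false,1,⟨0,[(10,0),(26,0)]⟩,⟨0,[(35,0),(3,0)]⟩⟩,.a ⟨true,0,⟨1,[(19,0),(8,0),(0,0)]⟩,⟨0,[(20,
  0)]⟩⟩ ⟨true,0,⟨0,[(2,0)]⟩,⟨1,[(0,1),(18,0),(8,0),(0,0)]⟩⟩ ⟨false,1,⟨0,[(10,0),(9,0),(16,0)]⟩,⟨1,
  [(19,0),(8,0),(0,0),(5,1)]⟩⟩,.o ⟨false,0,⟨1,[(19,0),(2,0),(2,0)]⟩,⟨1,[(20,1),(9,0),(5,0)]⟩⟩]⟩)
  (.R ⟨1,false,false,true,[0,0,0,1],[1,-1],[0,1,0,0,0,0,0,0,1],(⟨0,[(20,0)]⟩,⟨1,[(19,0),(8,0),(0,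
  0)]⟩),(⟨0,[(31,0)]⟩,⟨0,[(32,0)]⟩),⟨0,[(4,0)]⟩,.k,.k,(.r (-1) ⟨0,[(5,0),(6,0)]⟩ ⟨1,[(7,1),(5,0),
  (10,0),(0,1),(9,0)]⟩),(.r 0 ⟨1,[(2,1),(22,0),(0,0),(8,1)]⟩ ⟨7,[(6,3),(5,3),(4,2),(0,0)]⟩),.k,.k,
  ⟨false,0,⟨0,[(2,0),(32,0)]⟩,⟨7,[(6,3),(5,3),(4,2),(0,0)]⟩⟩,⟨true,0,⟨0,[(14,0),(5,0),(4,0)]⟩,⟨1,
  [(19,0),(8,0),(0,0)]⟩⟩,⟨true,0,⟨0,[(39,0)]⟩,⟨0,[]⟩⟩,⟨false,1,⟨1,[(10,1),(6,0),(2,1),(16,0)]⟩,⟨0,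
  [(0,0),(34,0)]⟩⟩,⟨false,0,⟨0,[(35,0)]⟩,⟨0,[(34,0),(2,0)]⟩⟩,⟨false,1,⟨1,[(17,0),(2,1),(9,0)]⟩,⟨0,
  [(0,0)]⟩⟩,[.o ⟨false,0,⟨0,[(10,0)]⟩,⟨3,[(17,0),(0,0),(16,3),(1,1)]⟩⟩,.o ⟨false,1,⟨1,[(30,0),(3,1),
  (2,0)]⟩,⟨0,[(35,0)]⟩⟩,.a ⟨true,0,⟨1,[(19,0),(8,0),(0,0)]⟩,⟨0,[(20,0)]⟩⟩ ⟨false,0,⟨0,[(2,0)]⟩,⟨1,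
  [(17,0),(19,0)]⟩⟩ ⟨true,0,⟨0,[(10,0),(9,0)]⟩,⟨1,[(19,0),(8,0),(0,0),(5,1)]⟩⟩,.o ⟨false,0,⟨1,[(19,
  0),(2,0),(2,0)]⟩,⟨1,[(20,1),(9,0),(5,0)]⟩⟩]⟩))))))) (.Q [0,1,0,2,-1,0,-1,-1,0,0,1] (.p true [0,0,
  1] [] (⟨0,[(23,0)]⟩,⟨0,[(22,0)]⟩) .k 0 (⟨0,[]⟩,⟨0,[]⟩) .k .k) (.R ⟨1,true,false,true,[0,0,1],[0,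
  1],[1,1,0,-1,0,0,0,1],(⟨0,[(24,0)]⟩,⟨0,[(23,0)]⟩),(⟨0,[(27,0)]⟩,⟨0,[(26,0)]⟩),⟨0,[(4,0)]⟩,.k,.k,
  .k,.k,(.r (-2) ⟨3,[(7,3),(4,0),(0,0),(15,3),(1,3),(0,1)]⟩ ⟨0,[(0,0),(19,0),(7,0)]⟩),.k,⟨true,1,⟨1,
  [(7,1),(21,1),(1,0),(0,0)]⟩,⟨0,[(0,0),(19,0),(7,0)]⟩⟩,⟨false,1,⟨1,[(11,0),(11,0),(0,0),(6,1)]⟩,⟨0,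
  [(20,0)]⟩⟩,⟨true,0,⟨0,[(29,0)]⟩,⟨0,[(30,0)]⟩⟩,⟨false,0,⟨7,[(0,1),(7,3),(3,0),(0,0),(5,1)]⟩,⟨1,[(7,
  1),(12,1),(10,0),(0,0)]⟩⟩,⟨false,0,⟨0,[]⟩,⟨3,[(12,0),(0,0),(18,1)]⟩⟩,⟨true,(-1),⟨0,[(0,0)]⟩,⟨1,
  [(7,1),(12,1),(8,1),(1,0),(0,0)]⟩⟩,[]⟩) (.Q [0,-1,0,2,0,0,0,0,0,1] (.pp false [-1,1]) (.I [1,0,2,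
  1,-1] (.R ⟨2,true,false,true,[0,1],[1,-1],[1,1,1],(⟨0,[]⟩,⟨0,[]⟩),(⟨0,[(28,0)]⟩,⟨0,[(29,0)]⟩),⟨0,
  []⟩,.k,.k,.k,(.r 1 ⟨0,[(0,0),(31,0)]⟩ ⟨0,[(2,0),(18,0),(11,0)]⟩),.k,.k,⟨true,(-1),⟨0,[(0,0)]⟩,⟨1,
  [(2,0),(18,0),(11,0)]⟩⟩,⟨false,0,⟨2,[(0,0),(6,0),(19,0),(2,0)]⟩,⟨0,[(25,0),(0,0),(6,0)]⟩⟩,⟨true,0,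
  ⟨0,[(31,0)]⟩,⟨0,[(32,0)]⟩⟩,⟨false,1,⟨0,[(2,0),(15,0)]⟩,⟨0,[(1,0)]⟩⟩,⟨false,0,⟨0,[]⟩,⟨3,[(14,0),(0,
  0),(18,1)]⟩⟩,⟨true,0,⟨0,[(7,0)]⟩,⟨0,[(1,0),(29,0)]⟩⟩,[]⟩) (.I [0,0,2,2,-1] (.R ⟨2,true,false,true,
  [0,1],[1,-1],[0,1,1,1],(⟨0,[]⟩,⟨0,[]⟩),(⟨0,[(29,0)]⟩,⟨0,[(30,0)]⟩),⟨0,[]⟩,.k,.k,.k,(.r 1 ⟨0,[(0,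
  0)]⟩ ⟨3,[(1,3),(1,1),(11,0),(0,0),(5,1)]⟩),.k,.k,⟨true,(-1),⟨0,[(0,0)]⟩,⟨1,[(1,0),(1,0),(7,0),(20,
  1)]⟩⟩,⟨false,0,⟨3,[(0,0),(7,1),(19,0),(2,1)]⟩,⟨0,[(1,0),(0,0),(29,0)]⟩⟩,⟨true,0,⟨0,[(37,0)]⟩,⟨0,
  []⟩⟩,⟨false,1,⟨0,[(3,0),(15,0)]⟩,⟨0,[(2,0)]⟩⟩,⟨false,0,⟨0,[(33,0)]⟩,⟨1,[(3,0),(18,0),(12,0)]⟩⟩,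
  ⟨true,0,⟨0,[(8,0)]⟩,⟨0,[(2,0),(29,0)]⟩⟩,[]⟩) (.Q [0,0,0,0,0,0,0,0,1,0,0,-1] (.p false [0,0,0,1]
  [] (⟨0,[(18,0)]⟩,⟨1,[(17,0),(8,0),(0,0)]⟩) .k 0 (⟨0,[]⟩,⟨0,[]⟩) .k .k) (.I [0,1,0,0,0,0,0,0,-1]
  (.R ⟨1,false,false,true,[1,0,0,-1],[0,0,0,1],[0,1,0,0,0,0,0,0,-1],(⟨1,[(19,0),(8,0),(0,0)]⟩,⟨0,
  [(20,0)]⟩),(⟨0,[(20,0)]⟩,⟨1,[(19,0),(8,0),(0,0)]⟩),⟨1,[(9,0),(1,0),(7,0)]⟩,.k,.k,(.r (-1) ⟨1,[(2,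
  0),(14,0)]⟩ ⟨2,[(4,0),(1,0),(11,0),(2,0),(3,0)]⟩),.k,(.r (-1) ⟨0,[(0,0),(1,0),(4,0),(5,0),(11,
  0)]⟩ ⟨2,[(1,2),(2,0),(1,0),(11,0),(1,2),(0,0),(3,0)]⟩),.k,⟨false,1,⟨3,[(0,3),(1,2),(1,1),(2,1),(0,
  1),(8,0),(7,1)]⟩,⟨0,[(1,1),(18,1)]⟩⟩,⟨true,0,⟨0,[(19,0)]⟩,⟨8,[(6,0),(0,0),(0,1),(1,2),(9,17),(1,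
  1),(2,3),(4,0),(2,0)]⟩⟩,⟨true,0,⟨0,[(39,0)]⟩,⟨0,[]⟩⟩,⟨false,0,⟨0,[(1,1),(26,0),(0,0)]⟩,⟨1,[(2,0),
  (4,1),(0,1),(8,0),(2,3),(4,1)]⟩⟩,⟨false,0,⟨0,[(35,0)]⟩,⟨1,[(5,0),(18,0),(12,0)]⟩⟩,⟨false,0,⟨0,[(1,
  1),(2,0),(29,0)]⟩,⟨0,[(0,0),(1,0),(4,0),(0,0),(11,1),(4,0),(7,0)]⟩⟩,[.o ⟨false,0,⟨0,[(1,0),(37,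
  0)]⟩,⟨5,[(5,1),(1,1),(0,3),(8,1),(2,5),(4,1),(4,0),(5,0)]⟩⟩,.o ⟨false,0,⟨0,[(1,0)]⟩,⟨1,[(17,0),(2,
  1),(9,0)]⟩⟩,.a ⟨true,0,⟨0,[(20,0)]⟩,⟨1,[(19,0),(8,0),(0,0)]⟩⟩ ⟨true,0,⟨0,[(0,0)]⟩,⟨0,[(1,0),(18,
  0)]⟩⟩ ⟨false,0,⟨1,[(1,1),(17,0),(8,0),(0,0)]⟩,⟨5,[(5,1),(1,1),(0,3),(8,1),(2,11),(4,1),(4,0),(5,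
  0)]⟩⟩,.o ⟨false,0,⟨8,[(6,0),(0,0),(0,1),(1,2),(9,8),(1,1),(2,3),(4,0),(2,0)]⟩,⟨7,[(17,0),(0,0),(0,
  3),(10,1),(5,3)]⟩⟩]⟩) (.Q [0,0,0,0,0,1,0,0,0,0,0,-1] (.p false [0,0,0,1] [] (⟨0,[(20,0)]⟩,⟨1,[(19,
  0),(8,0),(0,0)]⟩) .k 0 (⟨0,[]⟩,⟨0,[]⟩) .k .k) (.R ⟨0,false,false,true,[0,0,0,1],[1,-1],[1,0,0,0,0,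
  0,0,0,1],(⟨0,[(21,0)]⟩,⟨1,[(20,0),(8,0),(0,0)]⟩),(⟨0,[(32,0)]⟩,⟨0,[(33,0)]⟩),⟨0,[(0,0)]⟩,.k,.k,
  (.r (-1) ⟨1,[(3,0),(15,0)]⟩ ⟨2,[(5,0),(2,2),(0,0),(15,1),(0,2)]⟩),(.r 0 ⟨2,[(5,0),(1,0),(11,0),(2,
  0),(3,0)]⟩ ⟨1,[(3,0),(14,0)]⟩),.k,.k,⟨false,0,⟨0,[(1,0),(34,0)]⟩,⟨1,[(3,0),(14,0),(21,1)]⟩⟩,⟨true,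
  0,⟨8,[(7,0),(0,0),(0,1),(1,2),(9,8),(1,1),(2,3),(4,0),(2,0)]⟩,⟨1,[(20,0),(8,0),(0,0)]⟩⟩,⟨true,0,
  ⟨0,[]⟩,⟨0,[(40,0)]⟩⟩,⟨false,1,⟨9,[(6,3),(2,1),(1,3),(6,4),(2,9),(0,1),(8,0)]⟩,⟨3,[(1,1),(0,1),(2,
  1),(14,0),(8,0),(0,0)]⟩⟩,⟨false,0,⟨0,[]⟩,⟨0,[]⟩⟩,⟨false,0,⟨0,[]⟩,⟨0,[]⟩⟩,[.o ⟨false,0,⟨0,[(11,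
  0)]⟩,⟨3,[(5,1),(12,0),(0,0),(11,0),(6,0)]⟩⟩,.o ⟨false,1,⟨1,[(6,0),(18,0),(5,0)]⟩,⟨0,[(36,0)]⟩⟩,.a
  ⟨true,0,⟨1,[(20,0),(8,0),(0,0)]⟩,⟨0,[(21,0)]⟩⟩ ⟨false,0,⟨0,[(1,0)]⟩,⟨3,[(18,2),(0,0)]⟩⟩ ⟨true,0,
  ⟨0,[(11,0),(9,0)]⟩,⟨1,[(5,0),(14,0),(19,0)]⟩⟩,.o ⟨false,0,⟨1,[(20,0),(2,0),(2,0)]⟩,⟨1,[(21,1),(9,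
  0),(5,0)]⟩⟩]⟩) (.R ⟨1,false,false,true,[0,0,0,1],[1,-1],[0,1,0,0,0,0,0,0,1],(⟨0,[(21,0)]⟩,⟨1,[(20,
  0),(8,0),(0,0)]⟩),(⟨0,[(32,0)]⟩,⟨0,[(33,0)]⟩),⟨0,[(0,0)]⟩,.k,.k,(.r (-1) ⟨1,[(3,0),(15,0)]⟩ ⟨2,
  [(5,0),(2,2),(0,0),(15,1),(0,2)]⟩),(.r 0 ⟨2,[(5,0),(1,0),(11,0),(2,0),(3,0)]⟩ ⟨1,[(3,0),(14,0)]⟩),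
  .k,.k,⟨false,0,⟨0,[(1,0),(34,0),(3,0)]⟩,⟨1,[(3,0),(14,0)]⟩⟩,⟨true,0,⟨8,[(7,0),(0,0),(0,1),(1,2),
  (9,8),(1,1),(2,3),(4,0),(2,0)]⟩,⟨1,[(20,0),(8,0),(0,0)]⟩⟩,⟨true,0,⟨0,[(40,0)]⟩,⟨0,[]⟩⟩,⟨false,1,
  ⟨9,[(6,3),(2,1),(1,3),(6,4),(2,9),(0,1),(8,0)]⟩,⟨3,[(1,1),(0,1),(2,1),(14,0),(8,0),(0,0)]⟩⟩,
  ⟨false,0,⟨0,[(36,0)]⟩,⟨1,[(6,0),(18,0),(12,0)]⟩⟩,⟨false,1,⟨1,[(18,0),(2,1),(9,0)]⟩,⟨1,[(1,1),(18,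
  0),(8,0),(0,0)]⟩⟩,[.o ⟨false,0,⟨0,[(11,0)]⟩,⟨3,[(5,1),(12,0),(0,0),(11,0),(6,0)]⟩⟩,.o ⟨false,1,⟨1,
  [(6,0),(18,0),(5,0)]⟩,⟨0,[(36,0)]⟩⟩,.a ⟨true,0,⟨1,[(20,0),(8,0),(0,0)]⟩,⟨0,[(21,0)]⟩⟩ ⟨false,0,⟨0,
  [(1,0),(38,0)]⟩,⟨1,[(18,0),(19,0)]⟩⟩ ⟨true,0,⟨0,[(11,0),(9,0)]⟩,⟨1,[(5,0),(14,0),(19,0)]⟩⟩,.o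
  ⟨false,0,⟨1,[(20,0),(2,0),(2,0)]⟩,⟨1,[(21,1),(9,0),(5,0)]⟩⟩]⟩))) (.Q [0,0,0,1,0,0,0,0,1,1,0,-1]
  (.p false [0,0,0,1] [1] (⟨0,[(19,0)]⟩,⟨1,[(18,0),(8,0),(0,0)]⟩) .k 1 (⟨0,[]⟩,⟨0,[]⟩) .k .k) (.Q
  [0,0,0,0,0,0,0,0,1,1,0,-1] (.p false [0,0,0,1] [1] (⟨0,[(20,0)]⟩,⟨1,[(19,0),(8,0),(0,0)]⟩) .k 1
  (⟨0,[]⟩,⟨0,[]⟩) .k .k) (.R ⟨2,false,false,false,[0,1],[1,0,0,-1],[1,1,1],(⟨0,[]⟩,⟨0,[]⟩),(⟨1,[(20,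
  0),(8,0),(0,0)]⟩,⟨0,[(21,0)]⟩),⟨0,[]⟩,.k,.k,.k,(.r 0 ⟨2,[(5,0),(1,0),(11,0),(2,0),(3,0)]⟩ ⟨1,[(3,
  0),(14,0)]⟩),.k,.k,⟨false,0,⟨0,[(1,0),(9,0),(9,0)]⟩,⟨3,[(3,2),(1,1),(2,1),(0,1),(8,0),(7,1)]⟩⟩,
  ⟨true,0,⟨5,[(2,0),(4,0),(1,0),(1,1),(9,4),(1,0),(2,1),(4,0),(2,0)]⟩,⟨1,[(20,0),(8,0),(0,0)]⟩⟩,
  ⟨true,0,⟨0,[(35,0)]⟩,⟨0,[(36,0)]⟩⟩,⟨false,1,⟨5,[(2,5),(3,3),(2,1),(12,1),(8,0),(6,0)]⟩,⟨0,[(1,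
  0)]⟩⟩,⟨false,0,⟨0,[]⟩,⟨3,[(18,0),(0,0),(18,1)]⟩⟩,⟨false,1,⟨1,[(2,1),(28,0),(6,0)]⟩,⟨0,[(0,0)]⟩⟩,
  [.a ⟨true,0,⟨0,[(2,0)]⟩,⟨0,[(0,0)]⟩⟩ ⟨false,0,⟨0,[(40,0)]⟩,⟨1,[(37,0),(0,0)]⟩⟩ ⟨true,0,⟨8,[(2,8),
  (4,0),(0,0),(0,1),(1,2),(11,1),(2,3),(4,0),(2,0)]⟩,⟨0,[(0,0)]⟩⟩,.o ⟨false,1,⟨1,[(2,1),(28,0),(6,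
  0)]⟩,⟨0,[(1,0),(9,0)]⟩⟩,.o ⟨false,1,⟨3,[(18,0),(0,0),(17,1)]⟩,⟨8,[(7,0),(0,0),(0,1),(1,2),(11,1),
  (2,3),(4,0),(2,0)]⟩⟩,.e ⟨false,0,⟨0,[]⟩,⟨3,[(18,0),(0,0),(18,1)]⟩⟩ ⟨false,1,⟨1,[(2,1),(28,0),(6,
  0)]⟩,⟨0,[(0,0)]⟩⟩]⟩) (.R ⟨2,true,false,false,[0,1],[1,0,0,-1],[1,1,1],(⟨0,[]⟩,⟨0,[]⟩),(⟨1,[(20,0),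
  (8,0),(0,0)]⟩,⟨0,[(21,0)]⟩),⟨0,[]⟩,.k,.k,.k,(.r 0 ⟨2,[(5,0),(1,0),(11,0),(2,0),(3,0)]⟩ ⟨1,[(3,0),
  (14,0)]⟩),.k,.k,⟨false,0,⟨0,[(1,0),(9,0),(9,0)]⟩,⟨5,[(0,3),(2,1),(1,1),(12,0),(1,1),(16,0),(0,
  1)]⟩⟩,⟨true,0,⟨7,[(0,2),(6,0),(1,0),(1,1),(7,0),(1,4),(1,1),(2,2),(7,0)]⟩,⟨1,[(20,0),(8,0),(0,
  0)]⟩⟩,⟨true,0,⟨0,[(35,0)]⟩,⟨0,[(36,0)]⟩⟩,⟨false,1,⟨1,[(0,1),(5,0),(18,0),(12,0)]⟩,⟨0,[(1,0)]⟩⟩,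
  ⟨false,0,⟨0,[]⟩,⟨3,[(18,0),(0,0),(18,1)]⟩⟩,⟨true,0,⟨0,[(0,0)]⟩,⟨0,[(1,0),(33,0)]⟩⟩,[]⟩)) (.I [1,
  -1,0,0,0,0,0,0,-1] (.R ⟨1,false,false,true,[1,0,0,-1],[1,-1],[0,1,0,0,0,0,0,0,-1],(⟨1,[(20,0),(8,
  0),(0,0)]⟩,⟨0,[(21,0)]⟩),(⟨0,[(32,0)]⟩,⟨0,[(33,0)]⟩),⟨1,[(10,0),(1,0),(7,0)]⟩,.k,.k,(.r (-1) ⟨1,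
  [(3,0),(14,0)]⟩ ⟨2,[(5,0),(1,0),(11,0),(2,0),(3,0)]⟩),(.r 0 ⟨8,[(0,1),(1,3),(2,0),(1,2),(10,2),(1,
  1),(1,2),(3,2),(9,3)]⟩ ⟨1,[(3,0),(15,0)]⟩),.k,.k,⟨false,0,⟨3,[(0,1),(1,1),(17,0),(1,0),(1,0),(11,
  3)]⟩,⟨1,[(3,0),(15,0)]⟩⟩,⟨true,0,⟨1,[(20,0),(2,0),(2,0)]⟩,⟨0,[(21,0)]⟩⟩,⟨true,0,⟨0,[(40,0)]⟩,⟨0,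
  []⟩⟩,⟨false,1,⟨1,[(6,0),(12,0),(0,0),(1,0)]⟩,⟨0,[(1,0),(3,0)]⟩⟩,⟨false,0,⟨0,[(36,0)]⟩,⟨1,[(6,0),
  (18,0),(12,0)]⟩⟩,⟨false,1,⟨7,[(18,0),(0,4),(0,3),(10,1)]⟩,⟨0,[(0,0),(20,0)]⟩⟩,[.o ⟨false,0,⟨0,
  [(11,0)]⟩,⟨3,[(5,1),(12,0),(0,0),(11,0),(6,0)]⟩⟩,.o ⟨false,1,⟨1,[(6,0),(18,0),(5,0)]⟩,⟨0,[(36,
  0)]⟩⟩,.a ⟨true,0,⟨0,[(21,0)]⟩,⟨1,[(20,0),(8,0),(0,0)]⟩⟩ ⟨false,0,⟨3,[(0,1),(1,1),(17,0),(1,0),(1,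
  0)]⟩,⟨1,[(19,0),(18,0)]⟩⟩ ⟨true,0,⟨1,[(11,0),(8,0),(14,0)]⟩,⟨0,[(21,0),(14,0)]⟩⟩,.o ⟨false,0,⟨19,
  [(1,5),(5,3),(1,1),(9,0),(1,13),(0,1),(0,3),(2,7),(4,2)]⟩,⟨7,[(18,0),(0,0),(0,3),(10,1),(5,
  3)]⟩⟩]⟩) (.R ⟨1,false,false,false,[1,0,0,-1],[1,-1],[0,0,0,0,0,0,0,0,-1],(⟨1,[(20,0),(8,0),(0,
  0)]⟩,⟨0,[(21,0)]⟩),(⟨0,[(32,0)]⟩,⟨0,[(33,0)]⟩),⟨1,[(10,0),(1,0),(7,0)]⟩,.k,.k,(.r (-1) ⟨1,[(3,0),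
  (14,0)]⟩ ⟨2,[(5,0),(1,0),(11,0),(2,0),(3,0)]⟩),(.r 0 ⟨5,[(2,3),(4,1),(1,0),(8,1),(1,1),(1,0),(3,
  1),(9,2)]⟩ ⟨1,[(3,0),(15,0)]⟩),.k,.k,⟨false,0,⟨1,[(1,0),(0,0),(17,0),(15,2)]⟩,⟨1,[(3,0),(15,0)]⟩⟩,
  ⟨true,0,⟨1,[(20,0),(2,0),(2,0)]⟩,⟨0,[(21,0)]⟩⟩,⟨false,1,⟨3,[(18,0),(0,0),(18,1)]⟩,⟨0,[]⟩⟩,⟨false,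
  1,⟨15,[(3,6),(2,3),(0,1),(1,5),(1,1),(7,6),(0,7),(5,1),(7,7)]⟩,⟨0,[(2,0),(33,0)]⟩⟩,⟨true,0,⟨0,
  [(36,0)]⟩,⟨0,[(35,0)]⟩⟩,⟨false,1,⟨11,[(5,1),(0,4),(2,5),(9,5),(0,5),(3,0),(6,0)]⟩,⟨0,[(2,0)]⟩⟩,
  [.o ⟨false,1,⟨1,[(6,0),(18,0),(5,0)]⟩,⟨0,[(36,0)]⟩⟩,.o ⟨false,1,⟨5,[(6,3),(2,1),(12,1),(8,0),(6,
  0)]⟩,⟨0,[(36,0),(3,0)]⟩⟩,.a ⟨true,0,⟨0,[(21,0)]⟩,⟨1,[(20,0),(8,0),(0,0)]⟩⟩ ⟨true,0,⟨1,[(1,0),(0,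
  0),(17,0),(15,0)]⟩,⟨0,[(0,0)]⟩⟩ ⟨false,1,⟨1,[(6,0),(13,0),(1,0),(15,0)]⟩,⟨0,[(21,0),(14,0)]⟩⟩,.o
  ⟨false,0,⟨19,[(1,5),(5,3),(1,1),(9,0),(1,13),(0,1),(0,3),(2,7),(4,2)]⟩,⟨7,[(18,0),(0,0),(0,3),(10,
  1),(5,3)]⟩⟩]⟩)))))) (.Q [0,0,0,1,0,0,0,0,-1,0,0,1] (.p true [0,0,0,1] [] (⟨0,[(16,0)]⟩,⟨1,[(15,0),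
  (8,0),(0,0)]⟩) .k 0 (⟨0,[]⟩,⟨0,[]⟩) .k .k) (.Q [0,1,0,0,0,0,1,1,-1,0,-1,1] (.p false [0,0,1] [0,0,
  0,1] (⟨0,[(26,0)]⟩,⟨0,[(25,0)]⟩) .k 2 (⟨0,[(17,0)]⟩,⟨1,[(16,0),(8,0),(0,0)]⟩) .k (.x (-1) ⟨7,[(12,
  3),(1,0),(0,0),(4,3),(1,3),(3,7),(7,1)]⟩ ⟨0,[(11,0),(13,0)]⟩)) (.Q [0,0,0,0,0,0,-1,-1,1,0,1,-1]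
  (.p true [0,0,1] [0,0,0,1] (⟨0,[(27,0)]⟩,⟨0,[(26,0)]⟩) .k 2 (⟨0,[(18,0)]⟩,⟨1,[(17,0),(8,0),(0,
  0)]⟩) .k (.r 0 ⟨1,[(0,1),(5,1),(0,0),(1,0),(0,1),(6,0),(12,1)]⟩ ⟨5,[(2,0),(8,1),(1,2),(2,2),(5,0),
  (0,2),(2,0),(0,0)]⟩)) (.I [0,0,0,0,0,0,0,0,-1] (.R ⟨1,false,false,false,[1,0,0,-1],[1,-1],[0,0,0,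
  0,0,0,0,0,-1],(⟨1,[(19,0),(8,0),(0,0)]⟩,⟨0,[(20,0)]⟩),(⟨0,[(31,0)]⟩,⟨0,[(32,0)]⟩),⟨1,[(9,0),(1,0),
  (7,0)]⟩,.k,.k,(.r (-1) ⟨1,[(0,1),(4,0),(18,0),(11,0)]⟩ ⟨5,[(6,1),(6,0),(4,1),(5,0),(0,1),(9,2)]⟩),
  (.r 0 ⟨11,[(0,1),(2,5),(2,3),(1,1),(8,3),(1,2),(1,0),(2,0),(0,3)]⟩ ⟨1,[(1,1),(3,0),(14,1),(2,0),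
  (12,0)]⟩),.k,.k,⟨false,0,⟨1,[(2,0),(0,0),(4,0),(10,0)]⟩,⟨1,[(1,1),(3,0),(14,1),(2,0),(12,0)]⟩⟩,
  ⟨true,0,⟨1,[(19,0),(2,0),(2,0)]⟩,⟨0,[(20,0)]⟩⟩,⟨false,1,⟨3,[(17,0),(0,0),(18,1)]⟩,⟨0,[]⟩⟩,⟨false,
  1,⟨2,[(1,0),(3,1),(2,0),(9,0),(0,0)]⟩,⟨0,[(3,0)]⟩⟩,⟨true,0,⟨0,[(35,0)]⟩,⟨0,[(34,0)]⟩⟩,⟨false,1,⟨3,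
  [(5,0),(2,1),(9,1),(0,1),(3,0),(13,0)]⟩,⟨0,[(0,0),(19,0)]⟩⟩,[.o ⟨false,1,⟨1,[(5,0),(18,0),(5,0)]⟩,
  ⟨0,[(35,0)]⟩⟩,.o ⟨false,1,⟨3,[(4,1),(25,0),(6,2)]⟩,⟨0,[(35,0),(3,0)]⟩⟩,.a ⟨true,0,⟨0,[(20,0)]⟩,⟨1,
  [(19,0),(8,0),(0,0)]⟩⟩ ⟨true,0,⟨0,[(0,0)]⟩,⟨0,[(1,0),(18,0),(2,0)]⟩⟩ ⟨false,1,⟨11,[(1,3),(2,1),(0,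
  3),(11,1),(1,3),(10,0),(6,4)]⟩,⟨0,[(20,0),(14,0)]⟩⟩,.o ⟨false,0,⟨14,[(2,1),(1,2),(1,1),(1,3),(11,
  12),(1,3),(2,5),(4,1),(2,0)]⟩,⟨7,[(17,0),(0,0),(0,3),(10,1),(5,3)]⟩⟩]⟩) (.R ⟨1,false,false,false,
  [1,0,0,-1],[1,0,-1],[1,0,1],(⟨1,[(19,0),(8,0),(0,0)]⟩,⟨0,[(20,0)]⟩),(⟨0,[(28,0)]⟩,⟨0,[(29,0)]⟩),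
  ⟨1,[(9,0),(1,0),(7,0)]⟩,.k,.k,(.r (-1) ⟨5,[(3,3),(0,3),(0,1),(7,1),(3,0),(1,1),(8,1),(0,1),(6,
  2)]⟩ ⟨5,[(6,1),(6,0),(4,1),(5,0),(0,1),(9,2)]⟩),.k,(.r (-1) ⟨1,[(12,1),(4,0),(18,0)]⟩ ⟨1,[(0,1),
  (12,0),(10,0),(0,1),(9,0)]⟩),.k,⟨false,0,⟨0,[(27,0)]⟩,⟨0,[(15,0)]⟩⟩,⟨true,0,⟨1,[(16,0),(2,0)]⟩,⟨0,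
  [(20,0),(4,0)]⟩⟩,⟨false,0,⟨0,[(0,0),(32,0)]⟩,⟨1,[(17,0),(18,0)]⟩⟩,⟨true,0,⟨0,[(1,0)]⟩,⟨0,[(2,
  0)]⟩⟩,⟨false,0,⟨2,[(0,1),(5,0),(6,0),(11,0),(9,0),(1,0)]⟩,⟨5,[(3,3),(0,3),(0,1),(7,1),(3,0),(1,1),
  (8,1),(0,1),(6,2)]⟩⟩,⟨false,0,⟨1,[(0,1),(7,0),(4,0),(5,0)]⟩,⟨7,[(2,3),(2,3),(11,2),(0,0),(1,3)]⟩⟩,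
  [.o ⟨false,0,⟨2,[(4,0),(3,1),(15,0)]⟩,⟨3,[(17,0),(0,0),(4,3),(13,1)]⟩⟩,.o ⟨false,1,⟨11,[(4,1),(3,
  3),(15,7),(5,2),(6,8)]⟩,⟨0,[(23,0)]⟩⟩,.a ⟨true,0,⟨0,[(20,0)]⟩,⟨1,[(19,0),(8,0),(0,0)]⟩⟩ ⟨false,0,
  ⟨0,[(33,0)]⟩,⟨3,[(17,0),(0,0),(17,1)]⟩⟩ ⟨true,0,⟨5,[(4,1),(3,0),(4,2),(5,2),(4,1)]⟩,⟨0,[(0,0),(1,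
  0)]⟩⟩,.o ⟨false,0,⟨14,[(2,1),(1,2),(1,1),(1,3),(11,12),(1,3),(2,5),(4,1),(2,0)]⟩,⟨7,[(17,0),(0,0),
  (0,3),(10,1),(5,3)]⟩⟩]⟩)) (.Q [0,1,0,0,0,0,0,0,1,0,0,-1] (.p false [0,0,0,1] [] (⟨0,[(19,0)]⟩,⟨1,
  [(18,0),(8,0),(0,0)]⟩) .k 0 (⟨0,[]⟩,⟨0,[]⟩) .k .k) (.I [0,-1,0,0,1,0,0,-1,1] (.R ⟨1,false,false,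
  false,[1,0,0,-1],[1,0,-1],[0,0,0,0,0,0,0,-1],(⟨1,[(20,0),(8,0),(0,0)]⟩,⟨0,[(21,0)]⟩),(⟨0,[(29,
  0)]⟩,⟨0,[(30,0)]⟩),⟨1,[(10,0),(1,0),(7,0)]⟩,.k,.k,(.r (-1) ⟨13,[(2,3),(2,7),(0,1),(7,5),(3,4),(1,
  1),(8,5),(0,5),(6,6)]⟩ ⟨4,[(0,0),(6,1),(11,0),(5,0),(0,0),(9,2)]⟩),.k,(.r (-1) ⟨1,[(13,1),(4,0),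
  (18,0)]⟩ ⟨0,[(1,0),(12,0),(6,0),(4,0)]⟩),.k,⟨false,1,⟨3,[(18,0),(0,0),(17,1)]⟩,⟨0,[]⟩⟩,⟨true,0,⟨1,
  [(17,0),(2,0)]⟩,⟨0,[(21,0),(4,0)]⟩⟩,⟨false,1,⟨0,[(0,0)]⟩,⟨0,[(8,0)]⟩⟩,⟨false,1,⟨1,[(0,1),(16,0),
  (2,0)]⟩,⟨0,[(2,0)]⟩⟩,⟨false,1,⟨0,[(0,0),(35,0)]⟩,⟨3,[(2,1),(2,1),(2,1),(4,1),(0,1),(5,0),(8,0),(0,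
  0)]⟩⟩,⟨true,0,⟨0,[(1,0),(12,0)]⟩,⟨0,[(2,0),(32,0)]⟩⟩,[.o ⟨false,0,⟨2,[(5,0),(3,1),(15,0)]⟩,⟨3,
  [(18,0),(0,0),(4,3),(13,1)]⟩⟩,.o ⟨false,1,⟨27,[(0,15),(4,5),(3,11),(7,7),(0,7),(12,0),(6,2)]⟩,⟨0,
  [(24,0)]⟩⟩,.a ⟨true,0,⟨0,[(21,0)]⟩,⟨1,[(20,0),(8,0),(0,0)]⟩⟩ ⟨false,1,⟨0,[(16,0),(17,0)]⟩,⟨0,[(28,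
  0)]⟩⟩ ⟨true,0,⟨5,[(5,1),(3,0),(4,2),(5,2),(4,1)]⟩,⟨0,[(21,0),(2,0)]⟩⟩,.o ⟨false,0,⟨13,[(2,0),(1,
  0),(0,2),(1,1),(1,2),(11,11),(1,3),(2,5),(4,1)]⟩,⟨7,[(18,0),(0,0),(0,3),(10,1),(5,3)]⟩⟩]⟩) (.R ⟨1,
  true,false,false,[0,0,1],[0,0,0,1],[0,0,0,0,0,0,0,0,1],(⟨0,[(30,0)]⟩,⟨0,[(29,0)]⟩),(⟨0,[(21,0)]⟩,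
  ⟨1,[(20,0),(8,0),(0,0)]⟩),⟨0,[(10,0)]⟩,.k,.k,.k,.k,(.r (-1) ⟨1,[(13,1),(4,0),(18,0)]⟩ ⟨0,[(1,0),
  (12,0),(6,0),(4,0)]⟩),.k,⟨false,1,⟨3,[(18,0),(0,0),(17,1)]⟩,⟨0,[]⟩⟩,⟨true,0,⟨1,[(17,0),(2,0)]⟩,⟨0,
  [(21,0),(4,0)]⟩⟩,⟨true,1,⟨5,[(5,0),(8,1),(1,2),(2,2),(5,0),(0,2),(2,0),(0,0)]⟩,⟨0,[(0,0)]⟩⟩,
  ⟨false,1,⟨5,[(5,1),(3,0),(4,2),(4,2),(0,2),(4,1),(12,2)]⟩,⟨0,[(2,0)]⟩⟩,⟨false,1,⟨1,[(14,1),(4,0),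
  (6,1),(10,0)]⟩,⟨5,[(0,3),(5,2),(6,1),(0,1),(3,0),(6,0)]⟩⟩,⟨true,0,⟨0,[(1,0),(12,0)]⟩,⟨0,[(2,0),
  (32,0)]⟩⟩,[]⟩)) (.R ⟨1,false,false,true,[1,0,0,-1],[1,-1],[1,1,0,-1,0,0,0,0,-1],(⟨1,[(19,0),(8,0),
  (0,0)]⟩,⟨0,[(20,0)]⟩),(⟨0,[(31,0)]⟩,⟨0,[(32,0)]⟩),⟨1,[(9,0),(1,0),(7,0)]⟩,.k,.k,(.r (-1) ⟨9,[(0,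
  3),(3,1),(0,1),(11,2),(1,1),(4,1),(9,1),(1,4)]⟩ ⟨5,[(6,1),(6,0),(4,1),(5,0),(0,1),(9,2)]⟩),(.x
  (-1) ⟨3,[(17,0),(0,0),(13,3),(3,1)]⟩ ⟨1,[(9,0),(1,0),(10,0),(2,0)]⟩),.k,.k,⟨false,0,⟨5,[(0,1),(1,
  0),(0,2),(0,1),(3,0),(10,2)]⟩,⟨1,[(18,0),(17,0)]⟩⟩,⟨true,0,⟨1,[(19,0),(2,0),(2,0)]⟩,⟨0,[(20,0)]⟩⟩,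
  ⟨true,0,⟨0,[(34,0)]⟩,⟨0,[(35,0)]⟩⟩,⟨false,1,⟨7,[(4,3),(12,0),(0,4),(0,3),(17,1)]⟩,⟨0,[(0,0),(34,
  0)]⟩⟩,⟨false,0,⟨0,[]⟩,⟨3,[(17,0),(0,0),(18,1)]⟩⟩,⟨false,1,⟨7,[(17,0),(0,4),(0,3),(10,1)]⟩,⟨0,[(0,
  0)]⟩⟩,[.o ⟨false,0,⟨0,[(10,0)]⟩,⟨3,[(17,0),(0,0),(16,3),(1,1)]⟩⟩,.o ⟨false,1,⟨1,[(5,0),(18,0),(5,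
  0)]⟩,⟨0,[(35,0)]⟩⟩,.a ⟨true,0,⟨0,[(20,0)]⟩,⟨1,[(19,0),(8,0),(0,0)]⟩⟩ ⟨false,0,⟨5,[(0,4),(1,0),(1,
  2),(14,2),(4,0)]⟩,⟨1,[(18,0),(16,1),(1,0)]⟩⟩ ⟨true,0,⟨1,[(4,0),(14,0),(19,0)]⟩,⟨0,[(20,0),(14,
  0)]⟩⟩,.o ⟨false,0,⟨12,[(0,2),(3,1),(1,2),(1,0),(11,9),(0,1),(0,1),(2,4),(4,2)]⟩,⟨7,[(17,0),(0,0),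
  (0,3),(10,1),(5,3)]⟩⟩]⟩))) (.R ⟨2,true,false,false,[0,1],[0,0,0,1],[1,1,1],(⟨0,[]⟩,⟨0,[]⟩),(⟨0,
  [(18,0)]⟩,⟨1,[(17,0),(8,0),(0,0)]⟩),⟨0,[]⟩,.k,.k,.k,(.r 0 ⟨8,[(1,5),(0,0),(1,2),(1,1),(8,2),(1,2),
  (4,0),(0,2)]⟩ ⟨3,[(0,1),(2,0),(12,0),(1,1),(2,0),(10,1),(1,1)]⟩),.k,.k,⟨false,0,⟨1,[(1,1),(0,0),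
  (14,0),(19,0)]⟩,⟨9,[(0,5),(2,1),(0,3),(13,5),(4,3),(10,10),(0,0)]⟩⟩,⟨true,0,⟨1,[(17,0),(2,0),(2,
  0)]⟩,⟨0,[(18,0)]⟩⟩,⟨true,0,⟨0,[(32,0)]⟩,⟨0,[(33,0)]⟩⟩,⟨false,1,⟨15,[(0,7),(2,7),(11,0),(0,4),(0,
  3),(10,1)]⟩,⟨0,[(1,0)]⟩⟩,⟨false,0,⟨0,[]⟩,⟨3,[(15,0),(0,0),(18,1)]⟩⟩,⟨true,0,⟨0,[(0,0),(20,0)]⟩,⟨0,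
  [(1,0),(30,0)]⟩⟩,[]⟩)) (.Q [0,1,0,0,0,0,0,0,-1,-1,0,1] (.p true [0,0,0,1] [1] (⟨0,[(17,0)]⟩,⟨1,
  [(16,0),(8,0),(0,0)]⟩) .k 1 (⟨0,[]⟩,⟨0,[]⟩) .k .k) (.R ⟨1,false,false,false,[1,0,0,-1],[1,-1],[0,
  1,0,0,0,0,0,0,-1],(⟨1,[(17,0),(8,0),(0,0)]⟩,⟨0,[(18,0)]⟩),(⟨0,[(29,0)]⟩,⟨0,[(30,0)]⟩),⟨1,[(7,0),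
  (1,0),(7,0)]⟩,.k,.k,(.r (-1) ⟨0,[(2,0),(2,0),(5,0),(11,0),(2,0),(0,0),(6,0)]⟩ ⟨5,[(4,1),(6,0),(4,
  1),(5,0),(0,1),(9,2)]⟩),(.r 0 ⟨3,[(0,1),(3,0),(0,0),(5,1),(3,0),(1,0),(5,1),(2,0),(0,0),(5,0)]⟩
  ⟨3,[(1,1),(1,0),(12,0),(1,1),(3,0),(11,1)]⟩),.k,.k,⟨false,0,⟨1,[(0,1),(16,0),(8,0),(0,0),(5,1)]⟩,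
  ⟨1,[(1,1),(16,1),(15,0),(0,0)]⟩⟩,⟨true,0,⟨1,[(17,0),(2,0),(2,0)]⟩,⟨0,[(18,0)]⟩⟩,⟨true,0,⟨0,[(37,
  0)]⟩,⟨0,[]⟩⟩,⟨true,0,⟨0,[(1,0)]⟩,⟨0,[(0,0),(25,0),(0,0),(5,0)]⟩⟩,⟨false,0,⟨0,[(33,0)]⟩,⟨1,[(3,0),
  (18,0),(12,0)]⟩⟩,⟨true,0,⟨0,[(1,0),(31,0)]⟩,⟨0,[(0,0),(25,0),(0,0)]⟩⟩,[.o ⟨false,1,⟨1,[(3,0),(18,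
  0),(5,0)]⟩,⟨0,[(33,0)]⟩⟩,.o ⟨false,1,⟨3,[(2,1),(25,0),(6,2)]⟩,⟨0,[(33,0),(3,0)]⟩⟩,.a ⟨true,0,⟨0,
  [(18,0)]⟩,⟨1,[(17,0),(8,0),(0,0)]⟩⟩ ⟨true,0,⟨1,[(0,1),(16,0),(8,0),(0,0)]⟩,⟨0,[(1,0),(16,0),(14,
  0)]⟩⟩ ⟨false,1,⟨7,[(2,1),(0,1),(13,3),(4,1),(5,0),(6,4)]⟩,⟨0,[(18,0),(14,0)]⟩⟩,.o ⟨false,0,⟨5,[(0,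
  0),(1,0),(1,0),(1,0),(11,4),(1,0),(2,1),(4,0),(2,0)]⟩,⟨7,[(15,0),(0,0),(0,3),(10,1),(5,3)]⟩⟩]⟩)
  (.Q [0,1,0,0,0,0,0,0,-1,0,0,1] (.p true [0,0,0,1] [] (⟨0,[(18,0)]⟩,⟨1,[(17,0),(8,0),(0,0)]⟩) .k 0
  (⟨0,[]⟩,⟨0,[]⟩) .k .k) (.K ⟨1,[0,0,0,1],0,0,(⟨0,[(19,0)]⟩,⟨1,[(18,0),(8,0),(0,0)]⟩),.k,(.r (-1)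
  ⟨5,[(1,1),(1,1),(0,0),(12,1),(1,1),(3,0),(11,2)]⟩ ⟨3,[(0,1),(4,0),(0,0),(0,0),(4,0),(3,0),(1,0),
  (5,1),(9,0)]⟩),(.r 0 ⟨5,[(5,1),(6,0),(4,1),(5,0),(0,1),(9,2)]⟩ ⟨0,[(3,0),(2,0),(5,0),(11,0),(2,0),
  (0,0),(6,0)]⟩),.k,.k,[⟨1,[(19,1),(4,0),(0,0)]⟩,⟨1,[(18,0),(2,0),(2,0)]⟩,⟨0,[(0,0)]⟩,⟨0,[(1,
  0)]⟩]⟩) (.I [0,0,2,2,-1,0,0,1] (.I [1,0,2,1,-1,0,0,0,1] (.R ⟨1,false,false,false,[1,0,0,-1],[0,1],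
  [0,0,0,0,0,0,0,0,-1],(⟨1,[(20,0),(8,0),(0,0)]⟩,⟨0,[(21,0)]⟩),(⟨0,[(33,0)]⟩,⟨0,[(32,0)]⟩),⟨1,[(10,
  0),(1,0),(7,0)]⟩,.k,.k,(.r (-1) ⟨0,[(5,0),(2,0),(5,0),(11,0),(2,0),(0,0),(6,0)]⟩ ⟨2,[(0,0),(0,0),
  (14,0),(2,0)]⟩),(.r (-1) ⟨0,[(5,0),(2,0),(5,0),(11,0),(2,0),(0,0),(6,0)]⟩ ⟨2,[(0,0),(0,0),(14,0),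
  (2,0)]⟩),(.r (-2) ⟨5,[(5,3),(0,2),(7,1),(3,2),(6,0),(3,3),(0,3),(6,5)]⟩ ⟨0,[(0,0),(35,0)]⟩),.k,
  ⟨true,1,⟨0,[(5,0),(2,0),(5,0),(11,0),(2,0),(0,0),(6,0)]⟩,⟨0,[(0,0)]⟩⟩,⟨false,1,⟨1,[(20,0),(8,0),
  (0,0),(6,1)]⟩,⟨10,[(1,1),(3,2),(3,1),(11,10),(1,1),(2,3),(4,1),(2,0)]⟩⟩,⟨false,1,⟨3,[(18,0),(0,0),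
  (18,1)]⟩,⟨0,[]⟩⟩,⟨false,0,⟨0,[(3,0),(32,0)]⟩,⟨3,[(5,1),(12,1),(2,3),(9,0),(6,0)]⟩⟩,⟨true,0,⟨0,
  [(36,0)]⟩,⟨0,[(35,0)]⟩⟩,⟨false,0,⟨0,[(3,0),(32,1)]⟩,⟨1,[(5,1),(12,0),(2,1),(16,0)]⟩⟩,[.o ⟨false,0,
  ⟨0,[(36,0)]⟩,⟨1,[(6,0),(18,0),(5,0)]⟩⟩,.o ⟨false,1,⟨3,[(18,0),(0,0),(16,3),(1,1)]⟩,⟨0,[(11,0)]⟩⟩,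
  .a ⟨true,0,⟨0,[(21,0)]⟩,⟨1,[(20,0),(8,0),(0,0)]⟩⟩ ⟨false,1,⟨1,[(18,0),(19,0)]⟩,⟨1,[(0,0),(3,0),
  (16,0),(15,0)]⟩⟩ ⟨true,0,⟨1,[(20,0),(8,0),(0,0),(5,1)]⟩,⟨0,[(11,0),(9,0)]⟩⟩,.o ⟨false,0,⟨10,[(1,
  1),(3,2),(3,1),(11,10),(1,1),(2,3),(4,1),(2,0)]⟩,⟨7,[(18,0),(0,0),(0,3),(10,1),(5,3)]⟩⟩]⟩) (.Q [0,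
  0,0,0,0,1,0,0,0,0,0,-1] (.p false [0,0,0,1] [] (⟨0,[(21,0)]⟩,⟨1,[(20,0),(8,0),(0,0)]⟩) .k 0 (⟨0,
  []⟩,⟨0,[]⟩) .k .k) (.R ⟨0,false,false,true,[0,0,0,1],[1,-1],[1,1,0,-1,0,0,0,0,1],(⟨0,[(22,0)]⟩,⟨1,
  [(21,0),(8,0),(0,0)]⟩),(⟨0,[(33,0)]⟩,⟨0,[(34,0)]⟩),⟨0,[(0,0)]⟩,.k,.k,(.r (-1) ⟨5,[(1,1),(2,1),(1,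
  1),(13,2),(1,1),(15,0)]⟩ ⟨1,[(1,0),(0,0),(6,0),(5,0),(10,0),(0,1)]⟩),(.r 0 ⟨5,[(8,1),(6,0),(4,1),
  (5,0),(0,1),(9,2)]⟩ ⟨3,[(1,1),(5,0),(11,0),(6,0)]⟩),.k,.k,⟨false,0,⟨0,[(3,0),(18,0),(18,0)]⟩,⟨1,
  [(19,0),(18,0)]⟩⟩,⟨true,0,⟨10,[(2,1),(3,2),(3,1),(11,10),(1,1),(2,3),(4,1),(2,0)]⟩,⟨1,[(21,0),(8,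
  0),(0,0)]⟩⟩,⟨true,0,⟨0,[(36,0)]⟩,⟨0,[(37,0)]⟩⟩,⟨false,1,⟨3,[(6,1),(12,1),(2,3),(9,0),(6,0)]⟩,⟨0,
  [(4,0),(32,0)]⟩⟩,⟨false,0,⟨0,[]⟩,⟨0,[]⟩⟩,⟨false,0,⟨0,[]⟩,⟨0,[]⟩⟩,[.o ⟨false,0,⟨0,[(12,0)]⟩,⟨3,
  [(19,0),(0,0),(16,3),(1,1)]⟩⟩,.o ⟨false,1,⟨1,[(7,0),(18,0),(5,0)]⟩,⟨0,[(37,0)]⟩⟩,.a ⟨true,0,⟨1,
  [(21,0),(8,0),(0,0)]⟩,⟨0,[(22,0)]⟩⟩ ⟨false,0,⟨0,[(5,0),(16,0)]⟩,⟨1,[(19,0),(17,1),(1,0)]⟩⟩ ⟨true,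
  0,⟨0,[(12,0),(9,0)]⟩,⟨1,[(21,0),(8,0),(0,0),(5,1)]⟩⟩,.o ⟨false,0,⟨1,[(21,0),(2,0),(2,0)]⟩,⟨1,[(22,
  1),(9,0),(5,0)]⟩⟩]⟩) (.R ⟨1,false,false,true,[0,0,0,1],[1,-1],[1,1,0,-1,0,0,0,0,1],(⟨0,[(22,0)]⟩,
  ⟨1,[(21,0),(8,0),(0,0)]⟩),(⟨0,[(33,0)]⟩,⟨0,[(34,0)]⟩),⟨0,[(0,0)]⟩,.k,.k,(.r (-1) ⟨5,[(1,1),(2,1),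
  (1,1),(13,2),(1,1),(15,0)]⟩ ⟨1,[(1,0),(0,0),(6,0),(5,0),(10,0),(0,1)]⟩),(.r 0 ⟨5,[(8,1),(6,0),(4,
  1),(5,0),(0,1),(9,2)]⟩ ⟨3,[(1,1),(5,0),(11,0),(6,0)]⟩),.k,.k,⟨false,0,⟨0,[(3,0),(18,0),(18,0)]⟩,
  ⟨1,[(19,0),(18,0)]⟩⟩,⟨true,0,⟨10,[(2,1),(3,2),(3,1),(11,10),(1,1),(2,3),(4,1),(2,0)]⟩,⟨1,[(21,0),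
  (8,0),(0,0)]⟩⟩,⟨true,0,⟨0,[(36,0)]⟩,⟨0,[(37,0)]⟩⟩,⟨false,1,⟨3,[(6,1),(12,1),(2,3),(9,0),(6,0)]⟩,
  ⟨0,[(4,0),(32,0)]⟩⟩,⟨false,0,⟨0,[]⟩,⟨3,[(19,0),(0,0),(18,1)]⟩⟩,⟨false,1,⟨1,[(19,0),(2,1),(9,0)]⟩,
  ⟨0,[(4,0)]⟩⟩,[.o ⟨false,0,⟨0,[(12,0)]⟩,⟨3,[(19,0),(0,0),(16,3),(1,1)]⟩⟩,.o ⟨false,1,⟨1,[(7,0),(18,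
  0),(5,0)]⟩,⟨0,[(37,0)]⟩⟩,.a ⟨true,0,⟨1,[(21,0),(8,0),(0,0)]⟩,⟨0,[(22,0)]⟩⟩ ⟨false,0,⟨0,[(5,0),(16,
  0)]⟩,⟨1,[(19,0),(17,1),(1,0)]⟩⟩ ⟨true,0,⟨0,[(12,0),(9,0)]⟩,⟨1,[(21,0),(8,0),(0,0),(5,1)]⟩⟩,.o
  ⟨false,0,⟨1,[(21,0),(2,0),(2,0)]⟩,⟨1,[(22,1),(9,0),(5,0)]⟩⟩]⟩))) (.Q [0,0,0,0,0,1,0,0,0,0,0,-1]
  (.p false [0,0,0,1] [] (⟨0,[(20,0)]⟩,⟨1,[(19,0),(8,0),(0,0)]⟩) .k 0 (⟨0,[]⟩,⟨0,[]⟩) .k .k) (.R ⟨0,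
  false,false,true,[0,0,0,1],[1,-1],[1,0,0,0,0,0,0,0,1],(⟨0,[(21,0)]⟩,⟨1,[(20,0),(8,0),(0,0)]⟩),(⟨0,
  [(32,0)]⟩,⟨0,[(33,0)]⟩),⟨0,[(0,0)]⟩,.k,.k,(.r (-1) ⟨5,[(1,1),(11,1),(5,2),(17,0)]⟩ ⟨1,[(8,1),(5,
  0),(10,0),(0,1),(9,0)]⟩),(.r 0 ⟨5,[(7,1),(6,0),(4,1),(5,0),(0,1),(9,2)]⟩ ⟨5,[(1,1),(11,1),(4,2),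
  (18,0)]⟩),.k,.k,⟨false,0,⟨0,[(2,0),(18,0),(14,0)]⟩,⟨1,[(18,0),(16,1),(1,0)]⟩⟩,⟨true,0,⟨7,[(5,0),
  (1,0),(0,0),(0,1),(1,0),(9,7),(1,1),(2,3),(4,0)]⟩,⟨1,[(20,0),(8,0),(0,0)]⟩⟩,⟨true,0,⟨0,[]⟩,⟨0,
  [(40,0)]⟩⟩,⟨false,1,⟨3,[(5,1),(12,1),(2,3),(9,0),(6,0)]⟩,⟨0,[(3,0),(32,0)]⟩⟩,⟨false,0,⟨0,[]⟩,⟨0,
  []⟩⟩,⟨false,0,⟨0,[]⟩,⟨0,[]⟩⟩,[.o ⟨false,0,⟨0,[(11,0)]⟩,⟨3,[(18,0),(0,0),(16,3),(1,1)]⟩⟩,.o ⟨false,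
  1,⟨3,[(5,1),(12,0),(0,0),(11,0),(6,0)]⟩,⟨0,[(36,0)]⟩⟩,.a ⟨true,0,⟨1,[(20,0),(8,0),(0,0)]⟩,⟨0,[(21,
  0)]⟩⟩ ⟨false,0,⟨0,[(2,0),(18,0)]⟩,⟨3,[(18,2),(0,0)]⟩⟩ ⟨true,0,⟨0,[(11,0),(9,0)]⟩,⟨1,[(20,0),(8,0),
  (0,0),(5,1)]⟩⟩,.o ⟨false,0,⟨1,[(20,0),(2,0),(2,0)]⟩,⟨1,[(21,1),(9,0),(5,0)]⟩⟩]⟩) (.R ⟨1,false,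
  false,true,[0,0,0,1],[1,-1],[0,1,0,0,0,0,0,0,1],(⟨0,[(21,0)]⟩,⟨1,[(20,0),(8,0),(0,0)]⟩),(⟨0,[(32,
  0)]⟩,⟨0,[(33,0)]⟩),⟨0,[(0,0)]⟩,.k,.k,(.r (-1) ⟨5,[(1,1),(11,1),(5,2),(17,0)]⟩ ⟨1,[(8,1),(5,0),(10,
  0),(0,1),(9,0)]⟩),(.r 0 ⟨5,[(7,1),(6,0),(4,1),(5,0),(0,1),(9,2)]⟩ ⟨5,[(1,1),(11,1),(4,2),(18,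
  0)]⟩),.k,.k,⟨false,0,⟨0,[(2,0),(18,0),(14,0),(3,0)]⟩,⟨5,[(1,1),(11,1),(4,2),(18,0)]⟩⟩,⟨true,0,⟨7,
  [(5,0),(1,0),(0,0),(0,1),(1,0),(9,7),(1,1),(2,3),(4,0)]⟩,⟨1,[(20,0),(8,0),(0,0)]⟩⟩,⟨true,0,⟨0,
  [(40,0)]⟩,⟨0,[]⟩⟩,⟨false,1,⟨3,[(5,1),(12,1),(2,3),(9,0),(6,0)]⟩,⟨0,[(3,0),(32,0)]⟩⟩,⟨false,0,⟨0,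
  [(36,0)]⟩,⟨1,[(6,0),(18,0),(12,0)]⟩⟩,⟨false,1,⟨1,[(18,0),(2,1),(9,0)]⟩,⟨0,[(3,0)]⟩⟩,[.o ⟨false,0,
  ⟨0,[(11,0)]⟩,⟨3,[(18,0),(0,0),(16,3),(1,1)]⟩⟩,.o ⟨false,1,⟨3,[(5,1),(12,0),(0,0),(11,0),(6,0)]⟩,
  ⟨0,[(36,0)]⟩⟩,.a ⟨true,0,⟨1,[(20,0),(8,0),(0,0)]⟩,⟨0,[(21,0)]⟩⟩ ⟨false,0,⟨0,[(2,0),(18,0),(18,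
  0)]⟩,⟨1,[(18,0),(19,0)]⟩⟩ ⟨true,0,⟨0,[(11,0),(9,0)]⟩,⟨1,[(20,0),(8,0),(0,0),(5,1)]⟩⟩,.o ⟨false,0,
  ⟨1,[(20,0),(2,0),(2,0)]⟩,⟨1,[(21,1),(9,0),(5,0)]⟩⟩]⟩)))))))))))

theorem ok127 : chk (cU (-1) false 2) t127 r67 = true := by decide +kernel

end Helper11.CT.T1_3_m1_1_v
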