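import Pool.Agent.Helper11.CT.T.T1_3_m1_1_v_q

set_option autoImplicit false
set_option linter.all false

namespace Helper11.CT.T1_3_m1_1_v

open Helper11.CT

noncomputable def t14 : Tre :=
  (.Q [0,0,0,0,0,0,1,1,0,1,-1] (.p false [0,0,1] [1] (⟨0,[(24,0)]⟩,⟨0,[(23,0)]⟩) .k 1 (⟨0,[]⟩,⟨0,
  []⟩) .k .k) (.R ⟨1,false,false,false,[1,-1],[1,0,-1],[1],(⟨0,[(27,0)]⟩,⟨0,[(28,0)]⟩),(⟨0,[(24,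
  0)]⟩,⟨0,[(25,0)]⟩),⟨0,[(4,0),(2,0)]⟩,.k,.k,(.x 0 ⟨0,[(4,0),(2,0),(10,0),(2,0)]⟩ ⟨0,[(28,1),(3,
  0)]⟩),.k,(.r (-1) ⟨0,[(6,0)]⟩ ⟨1,[(1,1),(19,2),(0,0),(12,1)]⟩),.k,⟨true,0,⟨0,[(23,0)]⟩,⟨0,[(5,0),
  (15,0)]⟩⟩,⟨false,1,⟨7,[(1,2),(0,1),(3,1),(13,2),(1,1),(9,5)]⟩,⟨0,[(21,0)]⟩⟩,⟨false,0,⟨1,[(1,0),
  (19,0),(1,0),(5,0)]⟩,⟨5,[(6,1),(1,1),(4,0),(0,0)]⟩⟩,⟨true,0,⟨1,[(1,0),(18,0)]⟩,⟨0,[(9,0)]⟩⟩,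
  ⟨false,0,⟨0,[(1,0),(19,0),(1,0)]⟩,⟨1,[(6,0),(1,0),(20,0),(0,0)]⟩⟩,⟨false,0,⟨0,[(1,0)]⟩,⟨0,[(9,0),
  (20,0),(2,0)]⟩⟩,[.a ⟨true,0,⟨0,[(5,0)]⟩,⟨0,[(0,0)]⟩⟩ ⟨true,0,⟨0,[]⟩,⟨1,[(21,0),(0,0)]⟩⟩ ⟨false,1,
  ⟨0,[(5,0),(26,0)]⟩,⟨0,[(21,0),(1,0)]⟩⟩,.o ⟨false,1,⟨1,[(5,1),(20,0),(6,0)]⟩,⟨0,[(19,0)]⟩⟩,.o
  ⟨false,0,⟨0,[(10,0),(10,0)]⟩,⟨3,[(13,0),(0,0),(17,1)]⟩⟩,.o ⟨false,0,⟨0,[(18,0),(2,0)]⟩,⟨0,[(32,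
  0)]⟩⟩]⟩) (.I [0,1,1,1,-1,0,0,1] (.Q [0,0,0,1,0,0,1,1,0,1,-1] (.p false [0,0,1] [1] (⟨0,[(26,0)]⟩,
  ⟨0,[(25,0)]⟩) .k 1 (⟨0,[]⟩,⟨0,[]⟩) .k .k) (.R ⟨2,true,false,false,[0,1],[1,0,-1],[0,1,1,1],(⟨0,
  []⟩,⟨0,[]⟩),(⟨0,[(26,0)]⟩,⟨0,[(27,0)]⟩),⟨0,[]⟩,.k,.k,.k,.k,.k,.k,⟨true,(-1),⟨0,[(1,0)]⟩,⟨0,[(10,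
  0),(20,0)]⟩⟩,⟨false,0,⟨0,[(12,0)]⟩,⟨0,[(0,0),(9,0)]⟩⟩,⟨true,0,⟨0,[(37,0)]⟩,⟨0,[]⟩⟩,⟨false,1,⟨0,
  [(5,0),(29,0)]⟩,⟨0,[(0,0)]⟩⟩,⟨false,0,⟨0,[(33,0)]⟩,⟨0,[(32,0),(2,0)]⟩⟩,⟨true,0,⟨0,[(2,0)]⟩,⟨0,[(0,
  0),(31,0)]⟩⟩,[]⟩) (.Q [0,0,0,2,0,0,1,1,0,1,-1] (.p false [0,0,1] [1] (⟨0,[(27,0)]⟩,⟨0,[(26,0)]⟩)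
  .k 1 (⟨0,[]⟩,⟨0,[]⟩) .k .k) (.R ⟨1,true,false,true,[1,0,-1],[0,1],[0,0,0,0,0,0,0,-1],(⟨0,[(27,
  0)]⟩,⟨0,[(28,0)]⟩),(⟨0,[(31,0)]⟩,⟨0,[(30,0)]⟩),⟨0,[(10,0)]⟩,.k,.k,.k,.k,(.r (-2) ⟨5,[(9,1),(1,7),
  (4,0),(0,0)]⟩ ⟨10,[(0,1),(1,11),(1,2),(19,0),(4,0),(2,8)]⟩),.k,⟨false,2,⟨1,[(11,1),(23,0),(0,0)]⟩,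
  ⟨0,[(2,0)]⟩⟩,⟨true,1,⟨0,[(24,0),(2,0),(0,0),(6,0)]⟩,⟨0,[(1,0),(0,0),(29,0)]⟩⟩,⟨false,1,⟨3,[(16,0),
  (0,0),(18,1)]⟩,⟨0,[]⟩⟩,⟨true,0,⟨0,[(0,0),(32,0)]⟩,⟨0,[(1,0)]⟩⟩,⟨true,0,⟨0,[(34,0)]⟩,⟨0,[(33,0)]⟩⟩,
  ⟨false,0,⟨0,[(0,0)]⟩,⟨0,[(1,0),(31,0),(2,0)]⟩⟩,[]⟩) (.I [0,0,1,1,0,0,0,-1,1] (.I [1,-1,0,0,0,0,0,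
  0,1] (.R ⟨1,false,false,true,[1,0,0,-1],[0,0,1],[1,1,0,-1,0,0,0,0,-1],(⟨1,[(20,0),(8,0),(0,0)]⟩,
  ⟨0,[(21,0)]⟩),(⟨0,[(30,0)]⟩,⟨0,[(29,0)]⟩),⟨1,[(9,0),(2,0),(7,0)]⟩,.k,.k,(.x 0 ⟨1,[(9,0),(2,0),(10,
  0),(2,0)]⟩ ⟨3,[(18,0),(0,0),(13,3),(3,1)]⟩),.k,(.r (-2) ⟨3,[(13,3),(4,2),(0,0)]⟩ ⟨0,[(0,0),(3,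
  0)]⟩),.k,⟨true,1,⟨3,[(2,0),(7,0),(2,1),(4,1),(7,1),(2,0),(0,0)]⟩,⟨0,[(0,0),(3,0)]⟩⟩,⟨false,1,⟨1,
  [(20,0),(5,1),(2,0),(0,0),(6,1)]⟩,⟨0,[(15,0),(5,0)]⟩⟩,⟨true,0,⟨0,[(35,0)]⟩,⟨0,[(36,0)]⟩⟩,⟨false,0,
  ⟨1,[(0,1),(19,0),(3,1),(4,0),(0,0)]⟩,⟨1,[(5,1),(12,0),(2,1),(16,0)]⟩⟩,⟨false,0,⟨0,[]⟩,⟨3,[(18,0),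
  (0,0),(18,1)]⟩⟩,⟨false,0,⟨1,[(0,1),(19,0),(3,1),(4,0),(0,0),(5,1)]⟩,⟨1,[(3,1),(14,0),(2,1),(16,
  0)]⟩⟩,[.o ⟨false,0,⟨0,[(24,0)]⟩,⟨3,[(5,1),(19,1),(5,0),(6,2)]⟩⟩,.o ⟨false,1,⟨3,[(18,0),(0,0),(4,
  3),(13,1)]⟩,⟨0,[(5,0)]⟩⟩,.a ⟨true,0,⟨0,[(21,0)]⟩,⟨1,[(20,0),(8,0),(0,0)]⟩⟩ ⟨false,1,⟨1,[(18,0),
  (16,1),(2,0)]⟩,⟨0,[(0,0),(35,0)]⟩⟩ ⟨true,0,⟨1,[(20,0),(3,1),(4,0),(0,0)]⟩,⟨0,[(5,0),(15,0)]⟩⟩,.o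
  ⟨false,0,⟨2,[(3,0),(0,0),(16,2),(4,0),(4,0),(2,0)]⟩,⟨7,[(18,0),(0,0),(0,3),(10,1),(5,3)]⟩⟩]⟩) (.I
  [1,1,-1,-1,0,0,0,1,-1] (.Q [0,0,0,0,0,0,-1,-1,1,0,1,-1] (.p true [0,0,1] [0,0,0,1] (⟨0,[(31,0)]⟩,
  ⟨0,[(30,0)]⟩) .k 2 (⟨0,[(22,0)]⟩,⟨1,[(21,0),(8,0),(0,0)]⟩) .k (.r 0 ⟨6,[(0,4),(4,0),(1,2),(0,1),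
  (10,0),(7,2),(7,2)]⟩ ⟨7,[(2,3),(11,3),(4,0),(0,2)]⟩)) (.Q [0,0,0,0,0,1,0,0,0,0,0,-1] (.p false [0,
  0,0,1] [] (⟨0,[(23,0)]⟩,⟨1,[(22,0),(8,0),(0,0)]⟩) .k 0 (⟨0,[]⟩,⟨0,[]⟩) .k .k) (.R ⟨0,false,false,
  false,[0,0,0,1],[0,1],[1,0,1,1],(⟨0,[(24,0)]⟩,⟨1,[(23,0),(8,0),(0,0)]⟩),(⟨0,[(36,0)]⟩,⟨0,[(35,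
  0)]⟩),⟨0,[(0,0)]⟩,.k,.k,(.r (-1) ⟨0,[(4,0),(9,0)]⟩ ⟨2,[(3,0),(3,0),(1,0),(11,0),(7,0),(7,0)]⟩),
  (.r (-1) ⟨0,[(4,0),(9,0)]⟩ ⟨2,[(3,0),(3,0),(1,0),(11,0),(7,0),(7,0)]⟩),.k,.k,⟨true,0,⟨0,[]⟩,⟨1,
  [(29,0),(0,0)]⟩⟩,⟨false,1,⟨0,[(24,0),(15,0)]⟩,⟨1,[(23,0),(2,0),(2,0)]⟩⟩,⟨false,0,⟨0,[(2,0),(6,0),
  (19,0),(7,0)]⟩,⟨0,[(4,0),(9,0)]⟩⟩,⟨true,0,⟨0,[(2,0),(6,0),(14,0),(4,0)]⟩,⟨0,[(1,0),(15,0)]⟩⟩,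
  ⟨false,0,⟨0,[]⟩,⟨0,[]⟩⟩,⟨false,0,⟨0,[]⟩,⟨0,[]⟩⟩,[.o ⟨false,0,⟨0,[(39,0)]⟩,⟨11,[(5,3),(11,3),(3,2),
  (0,2),(11,3),(6,1)]⟩⟩,.o ⟨false,1,⟨3,[(21,0),(0,0),(16,3),(1,1)]⟩,⟨0,[(8,0),(8,0)]⟩⟩,.a ⟨true,0,
  ⟨1,[(23,0),(8,0),(0,0)]⟩,⟨0,[(24,0)]⟩⟩ ⟨false,0,⟨2,[(7,0),(1,0),(19,0),(7,0),(3,0)]⟩,⟨5,[(14,1),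
  (1,1),(4,0),(0,0)]⟩⟩ ⟨true,0,⟨0,[(24,0),(14,0)]⟩,⟨1,[(11,0),(5,0),(5,0)]⟩⟩,.o ⟨false,0,⟨1,[(23,0),
  (2,0),(2,0)]⟩,⟨1,[(24,1),(9,0),(5,0)]⟩⟩]⟩) (.R ⟨1,false,false,true,[0,0,0,1],[0,-1,1],[1,0,0,-1,0,
  0,0,0,1],(⟨0,[(24,0)]⟩,⟨1,[(23,0),(8,0),(0,0)]⟩),(⟨0,[(12,0)]⟩,⟨0,[(32,0),(3,0)]⟩),⟨0,[(0,0)]⟩,.k,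
  .k,(.r (-1) ⟨0,[(4,0),(9,0)]⟩ ⟨2,[(3,0),(3,0),(1,0),(11,0),(7,0),(7,0)]⟩),(.r 0 ⟨0,[(4,0)]⟩ ⟨11,
  [(10,3),(3,3),(6,6),(0,0)]⟩),.k,.k,⟨false,1,⟨1,[(1,1),(22,1),(4,1),(10,0),(0,0)]⟩,⟨0,[(2,0),(36,
  0)]⟩⟩,⟨true,0,⟨0,[(24,0),(4,0)]⟩,⟨1,[(20,0),(2,0)]⟩⟩,⟨false,1,⟨0,[(38,0),(2,0)]⟩,⟨0,[(39,0)]⟩⟩,
  ⟨true,0,⟨0,[(2,0),(21,0),(4,0)]⟩,⟨0,[(1,0),(37,0)]⟩⟩,⟨true,0,⟨0,[]⟩,⟨0,[(43,0)]⟩⟩,⟨true,0,⟨0,[(2,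
  0),(21,0),(4,0),(9,0)]⟩,⟨0,[(1,0)]⟩⟩,[.o ⟨false,0,⟨0,[(17,0)]⟩,⟨1,[(9,0),(18,0),(5,0),(6,0)]⟩⟩,.o
  ⟨false,1,⟨3,[(17,3),(3,0),(0,0),(18,1)]⟩,⟨0,[(8,0),(30,0)]⟩⟩,.a ⟨true,0,⟨1,[(23,0),(8,0),(0,0)]⟩,
  ⟨0,[(24,0)]⟩⟩ ⟨false,1,⟨3,[(1,1),(12,1),(7,0),(1,1),(4,1),(7,1),(3,0)]⟩,⟨0,[(2,0),(6,0),(19,0)]⟩⟩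
  ⟨true,0,⟨0,[(17,0),(6,0)]⟩,⟨1,[(9,0),(13,0),(1,0)]⟩⟩,.o ⟨false,0,⟨1,[(23,0),(2,0),(2,0)]⟩,⟨1,[(24,
  1),(9,0),(5,0)]⟩⟩]⟩)) (.R ⟨1,false,false,false,[1,0,0,-1],[1,-1,-1],[1,1,0,-1,0,0,0,0,-1],(⟨1,
  [(22,0),(8,0),(0,0)]⟩,⟨0,[(23,0)]⟩),(⟨0,[(14,0)]⟩,⟨0,[(32,0),(2,0)]⟩),⟨1,[(11,0),(2,0),(7,0)]⟩,.k,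
  .k,(.r (-1) ⟨3,[(1,1),(13,1),(4,0),(19,0)]⟩ ⟨3,[(3,1),(2,1),(14,0),(18,0)]⟩),(.x (-1) ⟨0,[(28,0),
  (3,0),(2,0),(3,0)]⟩ ⟨0,[(14,0),(10,0)]⟩),.k,.k,⟨true,(-1),⟨1,[(0,1),(3,0),(1,1),(5,0),(9,0)]⟩,⟨0,
  [(3,0),(0,0),(3,0),(0,0),(18,1),(2,0),(0,0),(6,0)]⟩⟩,⟨false,0,⟨1,[(19,0),(2,0)]⟩,⟨0,[(23,0),(4,0),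
  (10,0)]⟩⟩,⟨true,0,⟨0,[(37,0)]⟩,⟨0,[(38,0)]⟩⟩,⟨false,1,⟨1,[(4,0),(7,0),(8,0),(0,0),(17,0)]⟩,⟨0,[(0,
  0),(37,0)]⟩⟩,⟨false,0,⟨0,[]⟩,⟨3,[(20,0),(0,0),(18,1)]⟩⟩,⟨false,1,⟨1,[(7,0),(4,0),(8,0),(0,0),(17,
  0)]⟩,⟨0,[(0,0)]⟩⟩,[.o ⟨false,0,⟨0,[(5,0)]⟩,⟨3,[(20,0),(0,0),(4,3),(11,3),(1,1)]⟩⟩,.o ⟨false,1,⟨1,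
  [(5,0),(9,0),(9,0),(14,0)]⟩,⟨0,[(26,0),(11,0)]⟩⟩,.a ⟨true,0,⟨0,[(23,0)]⟩,⟨1,[(22,0),(8,0),(0,
  0)]⟩⟩ ⟨false,0,⟨1,[(0,1),(3,0),(7,0),(9,0)]⟩,⟨1,[(21,0),(16,1),(1,0)]⟩⟩ ⟨true,0,⟨1,[(4,0),(7,0),
  (9,0)]⟩,⟨0,[(23,0),(2,0),(11,0)]⟩⟩,.o ⟨false,0,⟨2,[(5,0),(0,0),(16,2),(4,0),(4,0),(2,0)]⟩,⟨7,[(20,
  0),(0,0),(0,3),(10,1),(5,3)]⟩⟩]⟩)) (.Q [0,0,0,0,0,0,0,0,1,0,0,-1] (.p false [0,0,0,1] [] (⟨0,[(22,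
  0)]⟩,⟨1,[(21,0),(8,0),(0,0)]⟩) .k 0 (⟨0,[]⟩,⟨0,[]⟩) .k .k) (.Q [0,-1,0,1,0,0,0,0,1,1,0,-1] (.p
  false [0,0,0,1] [1] (⟨0,[(23,0)]⟩,⟨1,[(22,0),(8,0),(0,0)]⟩) .k 1 (⟨0,[]⟩,⟨0,[]⟩) .k .k) (.R ⟨1,
  false,false,false,[1,0,0,-1],[0,1],[0,0,0,0,0,0,0,0,-1],(⟨1,[(23,0),(8,0),(0,0)]⟩,⟨0,[(24,0)]⟩),
  (⟨0,[(36,0)]⟩,⟨0,[(35,0)]⟩),⟨1,[(12,0),(2,0),(7,0)]⟩,.k,.k,(.r (-1) ⟨0,[(3,0),(1,0),(3,0),(0,0),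
  (18,1),(2,0),(0,0),(6,0)]⟩ ⟨3,[(4,1),(2,1),(14,0),(18,0)]⟩),(.r (-1) ⟨0,[(3,0),(1,0),(3,0),(0,0),
  (18,1),(2,0),(0,0),(6,0)]⟩ ⟨3,[(4,1),(2,1),(14,0),(18,0)]⟩),(.r (-2) ⟨11,[(14,7),(1,7),(4,6),(0,
  0)]⟩ ⟨0,[(2,0),(4,0)]⟩),.k,⟨true,1,⟨0,[(3,0),(1,0),(3,0),(0,0),(18,1),(2,0),(0,0),(6,0)]⟩,⟨1,[(0,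
  0),(1,0),(2,0),(1,1),(16,0),(4,0)]⟩⟩,⟨false,1,⟨1,[(23,0),(8,0),(0,0),(6,1)]⟩,⟨2,[(6,0),(0,0),(16,
  2),(4,0),(4,0),(2,0)]⟩⟩,⟨false,1,⟨3,[(21,0),(0,0),(18,1)]⟩,⟨0,[]⟩⟩,⟨false,0,⟨0,[(0,0)]⟩,⟨5,[(5,1),
  (11,1),(3,2),(2,5),(9,1),(6,0)]⟩⟩,⟨true,0,⟨0,[(39,0)]⟩,⟨0,[(38,0)]⟩⟩,⟨false,0,⟨0,[(0,0),(38,0)]⟩,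
  ⟨5,[(5,3),(11,3),(3,2),(2,5),(9,0),(6,1)]⟩⟩,[.o ⟨false,0,⟨0,[(39,0)]⟩,⟨11,[(5,3),(11,3),(3,2),(0,
  2),(11,3),(6,1)]⟩⟩,.o ⟨false,1,⟨3,[(21,0),(0,0),(16,3),(1,1)]⟩,⟨0,[(8,0),(8,0)]⟩⟩,.a ⟨true,0,⟨0,
  [(24,0)]⟩,⟨1,[(23,0),(8,0),(0,0)]⟩⟩ ⟨false,1,⟨1,[(21,0),(19,0)]⟩,⟨0,[(1,0),(22,0)]⟩⟩ ⟨true,0,⟨0,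
  [(0,0),(2,0)]⟩,⟨0,[(8,0),(8,0),(6,0)]⟩⟩,.o ⟨false,0,⟨2,[(6,0),(0,0),(16,2),(4,0),(4,0),(2,0)]⟩,⟨7,
  [(21,0),(0,0),(0,3),(10,1),(5,3)]⟩⟩]⟩) (.R ⟨1,false,false,true,[1,0,0,-1],[0,1],[1,1,0,-1,0,0,0,0,
  -1],(⟨1,[(23,0),(8,0),(0,0)]⟩,⟨0,[(24,0)]⟩),(⟨0,[(36,0)]⟩,⟨0,[(35,0)]⟩),⟨1,[(12,0),(2,0),(7,0)]⟩,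
  .k,.k,(.r (-1) ⟨1,[(0,1),(22,0),(8,0),(0,0),(6,0),(0,0)]⟩ ⟨3,[(4,1),(2,1),(14,0),(18,0)]⟩),(.r
  (-1) ⟨1,[(0,1),(22,0),(8,0),(0,0),(6,0),(0,0)]⟩ ⟨3,[(4,1),(2,1),(14,0),(18,0)]⟩),(.r (-2) ⟨11,
  [(14,7),(1,7),(4,6),(0,0)]⟩ ⟨0,[(2,0),(4,0)]⟩),.k,⟨true,1,⟨1,[(0,1),(4,1),(3,1),(0,1),(12,0),(5,
  3),(2,2),(0,2),(6,1)]⟩,⟨0,[(2,0),(4,0)]⟩⟩,⟨false,1,⟨1,[(23,0),(8,0),(0,0),(6,1)]⟩,⟨5,[(0,0),(1,0),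
  (2,0),(1,1),(16,4),(4,0),(4,1),(2,1)]⟩⟩,⟨true,0,⟨0,[(38,0)]⟩,⟨0,[(39,0)]⟩⟩,⟨false,0,⟨3,[(1,1),(0,
  1),(4,1),(15,0),(8,2),(0,2),(6,1)]⟩,⟨0,[(0,0),(40,0)]⟩⟩,⟨false,0,⟨0,[]⟩,⟨3,[(21,0),(0,0),(18,
  1)]⟩⟩,⟨false,0,⟨1,[(2,1),(4,1),(15,0),(8,0),(0,0),(6,1)]⟩,⟨1,[(0,1),(4,1),(3,1),(0,1),(18,3),(2,
  1),(0,1),(6,0),(0,0)]⟩⟩,[.o ⟨false,0,⟨0,[(39,0),(3,0)]⟩,⟨2,[(5,0),(11,0),(16,0),(6,1)]⟩⟩,.o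
  ⟨false,0,⟨0,[(39,0)]⟩,⟨11,[(5,3),(11,3),(3,2),(0,2),(11,3),(6,1)]⟩⟩,.a ⟨true,0,⟨0,[(24,0)]⟩,⟨1,
  [(23,0),(8,0),(0,0)]⟩⟩ ⟨true,0,⟨1,[(0,1),(22,0),(8,0),(0,0)]⟩,⟨1,[(1,0),(0,0),(4,0),(16,0),(15,
  0)]⟩⟩ ⟨false,0,⟨1,[(23,0),(8,0),(0,0),(5,1)]⟩,⟨2,[(5,0),(11,0),(6,2),(9,0),(6,1)]⟩⟩,.o ⟨false,0,
  ⟨5,[(0,0),(1,0),(2,0),(1,1),(16,4),(4,0),(4,1),(2,1)]⟩,⟨7,[(21,0),(0,0),(0,3),(10,1),(5,3)]⟩⟩]⟩))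
  (.I [0,1,1,1,-1,0,0,1,1] (.R ⟨1,false,false,false,[1,0,0,-1],[0,1],[1,0,0,-1,0,0,0,0,-1],(⟨1,[(23,
  0),(8,0),(0,0)]⟩,⟨0,[(24,0)]⟩),(⟨0,[(36,0)]⟩,⟨0,[(35,0)]⟩),⟨1,[(12,0),(2,0),(7,0)]⟩,.k,.k,(.r
  (-1) ⟨13,[(1,3),(3,1),(8,3),(1,1),(4,4),(1,1),(5,1),(10,2)]⟩ ⟨3,[(4,1),(2,1),(14,0),(18,0)]⟩),(.r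
  (-1) ⟨13,[(1,3),(3,1),(8,3),(1,1),(4,4),(1,1),(5,1),(10,2)]⟩ ⟨3,[(4,1),(2,1),(14,0),(18,0)]⟩),(.r
  (-2) ⟨11,[(14,7),(1,7),(4,6),(0,0)]⟩ ⟨0,[(2,0),(4,0)]⟩),.k,⟨true,1,⟨19,[(1,11),(3,5),(8,10),(1,4),
  (4,3),(1,5),(5,5),(7,0),(0,0)]⟩,⟨0,[(2,0),(4,0)]⟩⟩,⟨false,1,⟨1,[(23,0),(8,0),(0,0),(6,1)]⟩,⟨2,[(6,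
  0),(0,0),(16,2),(4,0),(4,0),(2,0)]⟩⟩,⟨false,1,⟨0,[(38,0),(2,0)]⟩,⟨0,[(39,0)]⟩⟩,⟨true,0,⟨1,[(0,0),
  (1,0),(20,0),(8,0),(0,0),(6,0)]⟩,⟨0,[(1,0),(6,0),(8,0)]⟩⟩,⟨true,0,⟨0,[]⟩,⟨0,[(43,0)]⟩⟩,⟨true,0,⟨1,
  [(0,0),(1,0),(20,0),(8,0),(0,0),(5,1),(0,0)]⟩,⟨0,[(1,0),(4,0),(10,0)]⟩⟩,[.o ⟨false,0,⟨0,[(39,0)]⟩,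
  ⟨11,[(5,3),(11,3),(3,2),(0,2),(11,3),(6,1)]⟩⟩,.o ⟨false,1,⟨3,[(21,0),(0,0),(16,3),(1,1)]⟩,⟨0,[(8,
  0),(8,0)]⟩⟩,.a ⟨true,0,⟨0,[(24,0)]⟩,⟨1,[(23,0),(8,0),(0,0)]⟩⟩ ⟨false,1,⟨13,[(1,3),(3,1),(8,3),(1,
  1),(4,4),(1,1),(5,1),(7,7),(3,2)]⟩,⟨1,[(0,0),(1,0),(37,0)]⟩⟩ ⟨true,0,⟨1,[(23,0),(8,0),(0,0),(5,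
  1)]⟩,⟨0,[(8,0),(8,0),(6,0)]⟩⟩,.o ⟨false,0,⟨2,[(6,0),(0,0),(16,2),(4,0),(4,0),(2,0)]⟩,⟨7,[(21,0),
  (0,0),(0,3),(10,1),(5,3)]⟩⟩]⟩) (.R ⟨1,false,false,false,[1,0,0,-1],[1,-1],[0,0,0,0,0,0,0,0,-1],
  (⟨1,[(23,0),(8,0),(0,0)]⟩,⟨0,[(24,0)]⟩),(⟨0,[(35,0)]⟩,⟨0,[(36,0)]⟩),⟨1,[(12,0),(2,0),(7,0)]⟩,.k,
  .k,(.r (-1) ⟨5,[(0,0),(2,0),(10,1),(1,0),(4,1)]⟩ ⟨3,[(4,1),(2,1),(14,0),(18,0)]⟩),(.r 0 ⟨2,[(3,0),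
  (3,0),(1,0),(11,0),(7,0),(7,0)]⟩ ⟨0,[(4,0),(9,0)]⟩),.k,.k,⟨false,0,⟨0,[(0,0),(6,0),(31,0)]⟩,⟨0,
  [(4,0),(9,0)]⟩⟩,⟨true,0,⟨1,[(23,0),(2,0),(2,0)]⟩,⟨0,[(24,0)]⟩⟩,⟨false,1,⟨3,[(21,0),(0,0),(18,1)]⟩,
  ⟨0,[]⟩⟩,⟨false,1,⟨47,[(2,13),(2,15),(4,9),(3,9),(7,16),(0,23),(5,15),(4,3),(6,16)]⟩,⟨0,[(1,0),(37,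
  0)]⟩⟩,⟨true,0,⟨0,[(39,0)]⟩,⟨0,[(38,0)]⟩⟩,⟨false,1,⟨15,[(2,5),(7,1),(3,1),(7,4),(0,7),(10,3),(6,
  4)]⟩,⟨0,[(1,0)]⟩⟩,[.o ⟨false,1,⟨11,[(5,3),(11,3),(3,2),(0,2),(11,3),(6,1)]⟩,⟨0,[(39,0)]⟩⟩,.o
  ⟨false,1,⟨2,[(5,0),(11,0),(16,0),(6,1)]⟩,⟨0,[(39,0),(3,0)]⟩⟩,.a ⟨true,0,⟨0,[(24,0)]⟩,⟨1,[(23,0),
  (8,0),(0,0)]⟩⟩ ⟨true,0,⟨0,[(0,0),(6,0)]⟩,⟨1,[(2,1),(2,0),(1,1),(9,0),(14,0),(0,0),(4,0),(1,1)]⟩⟩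
  ⟨false,1,⟨23,[(5,7),(11,7),(3,2),(0,2),(0,11),(10,1),(6,15)]⟩,⟨0,[(24,0),(14,0)]⟩⟩,.o ⟨false,0,⟨2,
  [(6,0),(0,0),(16,2),(4,0),(4,0),(2,0)]⟩,⟨7,[(21,0),(0,0),(0,3),(10,1),(5,3)]⟩⟩]⟩))))) (.Q [0,0,0,
  0,0,-1,0,0,0,0,0,1] (.p true [0,0,0,1] [] (⟨0,[(20,0)]⟩,⟨1,[(19,0),(8,0),(0,0)]⟩) .k 0 (⟨0,[]⟩,⟨0,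
  []⟩) .k .k) (.I [0,0,1,1,-1,0,0,1,-1] (.R ⟨1,false,false,true,[0,0,0,1],[0,0,1],[1,1,0,-1,0,0,0,0,
  1],(⟨0,[(22,0)]⟩,⟨1,[(21,0),(8,0),(0,0)]⟩),(⟨0,[(31,0)]⟩,⟨0,[(30,0)]⟩),⟨0,[(1,0)]⟩,.k,.k,(.x 0 ⟨1,
  [(10,0),(2,0),(10,0),(2,0)]⟩ ⟨3,[(19,0),(0,0),(13,3),(3,1)]⟩),.k,(.r (-2) ⟨3,[(14,3),(4,0),(0,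
  2)]⟩ ⟨0,[(0,0)]⟩),.k,⟨true,1,⟨3,[(3,0),(7,0),(2,1),(5,1),(6,1),(2,0),(0,0)]⟩,⟨0,[(0,0)]⟩⟩,⟨false,
  1,⟨0,[(22,0),(4,0),(10,0)]⟩,⟨1,[(18,0),(2,0)]⟩⟩,⟨true,0,⟨0,[(36,0)]⟩,⟨0,[(37,0)]⟩⟩,⟨false,0,⟨1,
  [(0,0),(1,0),(19,1),(4,1),(10,0)]⟩,⟨1,[(6,0),(4,0),(8,0),(0,0),(17,0)]⟩⟩,⟨false,0,⟨0,[]⟩,⟨3,[(19,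
  0),(0,0),(18,1)]⟩⟩,⟨false,0,⟨0,[(0,0),(21,0),(4,0),(10,0)]⟩,⟨1,[(3,0),(7,0),(8,0),(0,0),(17,0)]⟩⟩,
  [.o ⟨false,0,⟨0,[(25,0)]⟩,⟨3,[(6,1),(19,1),(5,0),(6,2)]⟩⟩,.o ⟨false,1,⟨3,[(19,0),(0,0),(4,3),(13,
  1)]⟩,⟨0,[(6,0)]⟩⟩,.a ⟨true,0,⟨1,[(21,0),(8,0),(0,0)]⟩,⟨0,[(22,0)]⟩⟩ ⟨false,1,⟨1,[(20,0),(15,1),(2,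
  0)]⟩,⟨0,[(2,0),(4,0),(19,0)]⟩⟩ ⟨true,0,⟨0,[(22,0),(2,0)]⟩,⟨1,[(6,0),(4,0),(9,0)]⟩⟩,.o ⟨false,0,⟨1,
  [(21,0),(2,0),(2,0)]⟩,⟨1,[(22,1),(9,0),(5,0)]⟩⟩]⟩) (.R ⟨1,false,false,true,[0,0,0,1],[0,0,1],[0,0,
  0,0,0,0,0,0,1],(⟨0,[(22,0)]⟩,⟨1,[(21,0),(8,0),(0,0)]⟩),(⟨0,[(31,0)]⟩,⟨0,[(30,0)]⟩),⟨0,[(1,0)]⟩,.k,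
  .k,(.x 0 ⟨1,[(10,0),(2,0),(10,0),(2,0)]⟩ ⟨3,[(19,0),(0,0),(13,3),(3,1)]⟩),.k,(.x 0 ⟨0,[(13,0),(10,
  0)]⟩ ⟨0,[(27,0),(3,0),(2,0),(3,0)]⟩),.k,⟨true,1,⟨5,[(0,3),(6,1),(12,0),(6,1),(7,1),(3,0)]⟩,⟨0,[(2,
  0),(2,0),(5,0),(15,0)]⟩⟩,⟨false,1,⟨0,[(22,0),(4,0),(10,0)]⟩,⟨1,[(18,0),(2,0)]⟩⟩,⟨false,1,⟨3,[(19,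
  0),(0,0),(18,1)]⟩,⟨0,[]⟩⟩,⟨false,0,⟨0,[(2,0),(19,0),(4,0),(9,0)]⟩,⟨1,[(6,0),(4,0),(8,0),(0,0),(17,
  0)]⟩⟩,⟨true,0,⟨0,[(37,0)]⟩,⟨0,[(36,0)]⟩⟩,⟨false,0,⟨0,[(2,0),(19,0),(4,0),(9,1)]⟩,⟨1,[(3,0),(7,0),
  (8,0),(0,0),(17,0)]⟩⟩,[.o ⟨false,0,⟨0,[(25,0)]⟩,⟨3,[(6,1),(19,1),(5,0),(6,2)]⟩⟩,.o ⟨false,1,⟨3,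
  [(19,0),(0,0),(4,3),(13,1)]⟩,⟨0,[(6,0)]⟩⟩,.a ⟨true,0,⟨1,[(21,0),(8,0),(0,0)]⟩,⟨0,[(22,0)]⟩⟩
  ⟨false,1,⟨1,[(20,0),(18,0)]⟩,⟨1,[(2,1),(4,0),(18,0),(0,1)]⟩⟩ ⟨true,0,⟨0,[(22,0),(2,0)]⟩,⟨1,[(6,0),
  (4,0),(9,0)]⟩⟩,.o ⟨false,0,⟨1,[(21,0),(2,0),(2,0)]⟩,⟨1,[(22,1),(9,0),(5,0)]⟩⟩]⟩)) (.I [1,-1,2,2,
  -1,0,0,0,-1] (.R ⟨0,false,false,false,[0,0,0,1],[0,1],[0,1,0,-1,0,0,0,0,1],(⟨0,[(22,0)]⟩,⟨1,[(21,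
  0),(8,0),(0,0)]⟩),(⟨0,[(34,0)]⟩,⟨0,[(33,0)]⟩),⟨0,[(1,0)]⟩,.k,.k,(.x 0 ⟨1,[(10,0),(2,0),(10,0),(2,
  0)]⟩ ⟨3,[(19,0),(0,0),(13,3),(3,1)]⟩),(.x 0 ⟨1,[(10,0),(2,0),(10,0),(2,0)]⟩ ⟨3,[(19,0),(0,0),(13,
  3),(3,1)]⟩),.k,.k,⟨true,1,⟨1,[(3,0),(11,0),(4,0),(9,0),(0,0),(4,0),(1,0)]⟩,⟨0,[(0,0)]⟩⟩,⟨false,1,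
  ⟨0,[(22,0),(15,0)]⟩,⟨1,[(21,0),(2,0),(2,0)]⟩⟩,⟨true,0,⟨0,[(36,0)]⟩,⟨0,[(37,0)]⟩⟩,⟨false,0,⟨0,[(2,
  0),(4,0),(14,0),(4,0)]⟩,⟨23,[(3,7),(11,7),(3,2),(0,14),(0,11),(10,1),(6,3)]⟩⟩,⟨false,0,⟨0,[]⟩,⟨0,
  []⟩⟩,⟨false,0,⟨0,[]⟩,⟨0,[]⟩⟩,[.o ⟨false,0,⟨0,[(37,0)]⟩,⟨11,[(3,3),(11,3),(3,2),(0,2),(11,3),(6,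
  1)]⟩⟩,.o ⟨false,1,⟨3,[(19,0),(0,0),(16,3),(1,1)]⟩,⟨0,[(6,0),(8,0)]⟩⟩,.a ⟨true,0,⟨1,[(21,0),(8,0),
  (0,0)]⟩,⟨0,[(22,0)]⟩⟩ ⟨false,1,⟨1,[(20,0),(15,1),(2,0)]⟩,⟨0,[(2,0),(4,0),(19,0)]⟩⟩ ⟨true,0,⟨0,
  [(22,0),(14,0)]⟩,⟨1,[(9,0),(5,0),(5,0)]⟩⟩,.o ⟨false,0,⟨1,[(21,0),(2,0),(2,0)]⟩,⟨1,[(22,1),(9,0),
  (5,0)]⟩⟩]⟩) (.R ⟨0,false,false,false,[0,0,0,1],[0,1],[1,0,0,0,0,0,0,0,1],(⟨0,[(22,0)]⟩,⟨1,[(21,0),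
  (8,0),(0,0)]⟩),(⟨0,[(34,0)]⟩,⟨0,[(33,0)]⟩),⟨0,[(1,0)]⟩,.k,.k,(.x 0 ⟨1,[(10,0),(2,0),(10,0),(2,
  0)]⟩ ⟨3,[(19,0),(0,0),(13,3),(3,1)]⟩),(.x 0 ⟨1,[(10,0),(2,0),(10,0),(2,0)]⟩ ⟨3,[(19,0),(0,0),(13,
  3),(3,1)]⟩),.k,.k,⟨true,1,⟨3,[(0,1),(19,0),(18,0)]⟩,⟨1,[(2,1),(0,0),(1,1),(1,1),(3,0),(15,3),(2,
  0),(0,0)]⟩⟩,⟨false,1,⟨0,[(22,0),(15,0)]⟩,⟨1,[(21,0),(2,0),(2,0)]⟩⟩,⟨true,0,⟨0,[]⟩,⟨0,[(41,0)]⟩⟩,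
  ⟨false,0,⟨0,[(2,0),(4,0),(14,0),(4,0)]⟩,⟨23,[(3,7),(11,7),(3,2),(0,14),(0,11),(10,1),(6,3)]⟩⟩,
  ⟨false,0,⟨0,[]⟩,⟨0,[]⟩⟩,⟨false,0,⟨0,[]⟩,⟨0,[]⟩⟩,[.o ⟨false,0,⟨0,[(37,0)]⟩,⟨11,[(3,3),(11,3),(3,2),
  (0,2),(11,3),(6,1)]⟩⟩,.o ⟨false,1,⟨3,[(19,0),(0,0),(16,3),(1,1)]⟩,⟨0,[(6,0),(8,0)]⟩⟩,.a ⟨true,0,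
  ⟨1,[(21,0),(8,0),(0,0)]⟩,⟨0,[(22,0)]⟩⟩ ⟨false,1,⟨1,[(20,0),(18,0)]⟩,⟨1,[(2,1),(4,0),(18,0),(0,
  1)]⟩⟩ ⟨true,0,⟨0,[(22,0),(14,0)]⟩,⟨1,[(9,0),(5,0),(5,0)]⟩⟩,.o ⟨false,0,⟨1,[(21,0),(2,0),(2,0)]⟩,
  ⟨1,[(22,1),(9,0),(5,0)]⟩⟩]⟩)))))) (.I [0,0,-1,-1,0,0,0,1,1] (.R ⟨1,false,false,true,[1,0,0,-1],[0,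
  -1,1],[0,0,0,0,0,0,0,0,-1],(⟨1,[(17,0),(8,0),(0,0)]⟩,⟨0,[(18,0)]⟩),(⟨0,[(6,0)]⟩,⟨0,[(26,0),(3,
  0)]⟩),⟨1,[(6,0),(2,0),(7,0)]⟩,.k,.k,(.x 0 ⟨1,[(6,0),(2,0),(10,0),(2,0)]⟩ ⟨3,[(15,0),(0,0),(13,3),
  (3,1)]⟩),(.r (-1) ⟨3,[(3,1),(11,2),(0,0),(5,1),(0,3)]⟩ ⟨0,[(0,0)]⟩),.k,.k,⟨false,1,⟨5,[(1,1),(1,
  3),(11,2),(7,3),(10,0)]⟩,⟨0,[(0,0),(36,0)]⟩⟩,⟨true,0,⟨1,[(17,0),(5,1),(2,0),(0,0)]⟩,⟨0,[(12,0),(5,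
  0)]⟩⟩,⟨false,1,⟨3,[(15,0),(0,0),(18,1)]⟩,⟨0,[]⟩⟩,⟨false,0,⟨1,[(0,1),(16,0),(5,1),(2,0),(0,0)]⟩,⟨3,
  [(2,1),(0,1),(11,1),(2,3),(9,0),(6,0)]⟩⟩,⟨true,0,⟨0,[(33,0)]⟩,⟨0,[(32,0)]⟩⟩,⟨false,0,⟨1,[(0,1),
  (16,0),(5,1),(2,0),(0,0),(5,1)]⟩,⟨1,[(2,1),(12,0),(2,1),(16,0)]⟩⟩,[.o ⟨false,0,⟨0,[(11,0)]⟩,⟨1,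
  [(3,0),(18,0),(5,0),(6,0)]⟩⟩,.o ⟨false,1,⟨3,[(11,3),(3,0),(0,0),(18,1)]⟩,⟨0,[(2,0),(30,0)]⟩⟩,.a
  ⟨true,0,⟨0,[(18,0)]⟩,⟨1,[(17,0),(8,0),(0,0)]⟩⟩ ⟨false,1,⟨1,[(15,0),(19,0)]⟩,⟨1,[(0,1),(2,0),(18,
  0),(0,1)]⟩⟩ ⟨true,0,⟨1,[(11,1),(5,0),(8,0),(0,0)]⟩,⟨0,[(2,0),(15,0),(14,0)]⟩⟩,.o ⟨false,0,⟨0,[(12,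
  0),(5,0),(4,0)]⟩,⟨7,[(15,0),(0,0),(0,3),(10,1),(5,3)]⟩⟩]⟩) (.I [0,0,-1,-1,0,0,0,0,-1] (.R ⟨1,
  false,false,true,[1,0,0,-1],[1,-1],[0,0,0,0,0,0,0,0,-1],(⟨1,[(18,0),(8,0),(0,0)]⟩,⟨0,[(19,0)]⟩),
  (⟨0,[(30,0)]⟩,⟨0,[(31,0)]⟩),⟨1,[(7,0),(2,0),(7,0)]⟩,.k,.k,(.r 0 ⟨0,[(0,0)]⟩ ⟨0,[(1,0),(15,0),(8,
  0)]⟩),(.r 0 ⟨0,[(1,0),(24,0)]⟩ ⟨0,[(0,0),(16,0)]⟩),.k,.k,⟨false,0,⟨2,[(0,1),(0,0),(2,2),(0,1),(18,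
  2)]⟩,⟨1,[(17,0),(15,1),(1,0)]⟩⟩,⟨true,0,⟨1,[(18,0),(2,0),(2,0)]⟩,⟨0,[(19,0)]⟩⟩,⟨false,1,⟨3,[(16,
  0),(0,0),(18,1)]⟩,⟨0,[]⟩⟩,⟨false,1,⟨5,[(6,1),(2,1),(7,2),(0,2),(2,0),(2,2),(11,0)]⟩,⟨2,[(0,1),(0,
  0),(2,2),(0,1),(13,2),(4,2)]⟩⟩,⟨true,0,⟨0,[(34,0)]⟩,⟨0,[(33,0)]⟩⟩,⟨false,1,⟨7,[(16,0),(0,4),(0,3),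
  (10,1)]⟩,⟨5,[(0,4),(0,0),(2,2),(0,1),(13,5),(4,2),(7,2)]⟩⟩,[.o ⟨false,0,⟨0,[(3,0),(8,0)]⟩,⟨3,[(16,
  0),(0,0),(16,3),(1,1)]⟩⟩,.o ⟨false,1,⟨1,[(29,0),(3,1),(2,0)]⟩,⟨0,[(34,0)]⟩⟩,.a ⟨true,0,⟨0,[(19,
  0)]⟩,⟨1,[(18,0),(8,0),(0,0)]⟩⟩ ⟨false,0,⟨5,[(0,4),(0,0),(2,2),(0,1),(18,2),(7,2)]⟩,⟨3,[(16,0),(0,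
  2)]⟩⟩ ⟨true,0,⟨1,[(6,0),(5,0),(5,0)]⟩,⟨0,[(19,0),(14,0)]⟩⟩,.o ⟨false,0,⟨0,[(13,0),(5,0),(4,0)]⟩,
  ⟨7,[(16,0),(0,0),(0,3),(10,1),(5,3)]⟩⟩]⟩) (.I [0,0,-1,-1,0,0,0,1,-1] (.R ⟨1,false,false,false,[1,
  0,0,-1],[1,0,-1],[0,1,0,0,0,0,0,0,-1],(⟨1,[(19,0),(8,0),(0,0)]⟩,⟨0,[(20,0)]⟩),(⟨0,[(28,0)]⟩,⟨0,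
  [(29,0)]⟩),⟨1,[(8,0),(2,0),(7,0)]⟩,.k,.k,(.x 0 ⟨1,[(8,0),(2,0),(10,0),(2,0)]⟩ ⟨3,[(17,0),(0,0),
  (13,3),(3,1)]⟩),.k,(.r 0 ⟨0,[(0,0)]⟩ ⟨0,[(2,0),(15,0)]⟩),.k,⟨false,0,⟨0,[(0,0),(34,0),(3,0)]⟩,⟨0,
  [(1,0),(1,0)]⟩⟩,⟨true,0,⟨1,[(16,0),(2,0)]⟩,⟨0,[(20,0),(4,0)]⟩⟩,⟨true,0,⟨0,[(39,0)]⟩,⟨0,[]⟩⟩,
  ⟨false,1,⟨1,[(4,0),(4,0),(8,0),(0,0),(17,0)]⟩,⟨0,[(0,0),(19,0),(4,0),(9,0)]⟩⟩,⟨false,0,⟨0,[(35,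
  0)]⟩,⟨0,[(34,0),(2,0)]⟩⟩,⟨false,1,⟨7,[(4,1),(0,3),(12,3),(0,3),(4,1),(5,0),(6,2)]⟩,⟨0,[(0,0),(19,
  0),(4,0)]⟩⟩,[.o ⟨false,0,⟨0,[(4,0)]⟩,⟨3,[(17,0),(0,0),(4,3),(13,1)]⟩⟩,.o ⟨false,1,⟨3,[(4,1),(19,
  1),(5,0),(6,2)]⟩,⟨0,[(23,0)]⟩⟩,.a ⟨true,0,⟨0,[(20,0)]⟩,⟨1,[(19,0),(8,0),(0,0)]⟩⟩ ⟨false,0,⟨1,[(0,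
  0),(1,0)]⟩,⟨1,[(18,0),(18,0)]⟩⟩ ⟨true,0,⟨1,[(4,0),(4,0),(9,0)]⟩,⟨0,[(20,0),(2,0)]⟩⟩,.o ⟨false,0,
  ⟨0,[(14,0),(5,0),(4,0)]⟩,⟨7,[(17,0),(0,0),(0,3),(10,1),(5,3)]⟩⟩]⟩) (.Q [0,0,0,-1,0,0,1,1,1,1,-1,
  -1] (.p false [0,0,1] [1,0,0,-1] (⟨0,[(29,0)]⟩,⟨0,[(28,0)]⟩) .k 2 (⟨1,[(19,0),(8,0),(0,0)]⟩,⟨0,
  [(20,0)]⟩) .k (.x (-1) ⟨7,[(15,3),(1,0),(0,0),(4,3),(1,3),(3,7),(7,1)]⟩ ⟨0,[(14,0),(13,0)]⟩)) (.Q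
  [0,0,0,0,0,1,0,0,0,0,0,-1] (.p false [0,0,0,1] [] (⟨0,[(21,0)]⟩,⟨1,[(20,0),(8,0),(0,0)]⟩) .k 0
  (⟨0,[]⟩,⟨0,[]⟩) .k .k) (.R ⟨0,false,false,true,[0,0,0,1],[1,-1],[0,1,0,0,0,0,0,0,1],(⟨0,[(22,0)]⟩,
  ⟨1,[(21,0),(8,0),(0,0)]⟩),(⟨0,[(33,0)]⟩,⟨0,[(34,0)]⟩),⟨0,[(0,0)]⟩,.k,.k,(.r (-1) ⟨4,[(1,0),(3,0),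
  (3,0),(2,0),(7,1),(1,0),(15,0)]⟩ ⟨0,[(4,0),(24,0)]⟩),(.r 0 ⟨0,[(1,0),(4,2),(1,0),(1,1),(2,1),(8,
  0),(4,1),(6,3),(2,2)]⟩ ⟨0,[(4,0),(7,0)]⟩),.k,.k,⟨false,0,⟨0,[(1,0),(4,0),(15,0),(14,1)]⟩,⟨0,[(4,
  0),(7,0)]⟩⟩,⟨true,0,⟨0,[(16,0),(5,0),(4,0)]⟩,⟨1,[(21,0),(8,0),(0,0)]⟩⟩,⟨true,0,⟨0,[(41,0)]⟩,⟨0,
  []⟩⟩,⟨false,1,⟨7,[(5,1),(0,0),(1,2),(0,2),(9,3),(2,7),(4,3),(4,1),(2,0)]⟩,⟨0,[(1,0),(5,0)]⟩⟩,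
  ⟨false,0,⟨0,[]⟩,⟨0,[]⟩⟩,⟨false,0,⟨0,[]⟩,⟨0,[]⟩⟩,[.o ⟨false,0,⟨0,[(6,0),(8,0)]⟩,⟨3,[(19,0),(0,0),
  (16,3),(1,1)]⟩⟩,.o ⟨false,1,⟨1,[(32,0),(3,1),(2,0)]⟩,⟨0,[(37,0)]⟩⟩,.a ⟨true,0,⟨1,[(21,0),(8,0),(0,
  0)]⟩,⟨0,[(22,0)]⟩⟩ ⟨false,0,⟨0,[(1,0),(4,0),(15,0),(14,0)]⟩,⟨1,[(19,0),(19,0)]⟩⟩ ⟨true,0,⟨0,[(6,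
  0),(8,0),(6,0)]⟩,⟨1,[(21,0),(8,0),(0,0),(5,1)]⟩⟩,.o ⟨false,0,⟨1,[(21,0),(2,0),(2,0)]⟩,⟨1,[(22,1),
  (9,0),(5,0)]⟩⟩]⟩) (.I [0,1,0,1,0,0,0,0,-1] (.R ⟨1,false,false,false,[0,0,0,1],[1,-1],[1,0,0,-1,0,
  0,0,0,1],(⟨0,[(23,0)]⟩,⟨1,[(22,0),(8,0),(0,0)]⟩),(⟨0,[(34,0)]⟩,⟨0,[(35,0)]⟩),⟨0,[(1,0)]⟩,.k,.k,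
  (.r (-1) ⟨4,[(2,0),(3,0),(3,0),(2,0),(7,1),(1,0),(15,0)]⟩ ⟨0,[(5,0),(24,0)]⟩),(.r 0 ⟨0,[(1,4),(0,
  0),(4,2),(1,0),(12,1),(5,1),(6,4),(2,2)]⟩ ⟨0,[(5,0),(7,0)]⟩),.k,.k,⟨false,0,⟨0,[(2,0),(4,0),(15,
  0),(14,0)]⟩,⟨1,[(20,0),(18,0)]⟩⟩,⟨true,0,⟨0,[(17,0),(5,0),(4,0)]⟩,⟨1,[(22,0),(8,0),(0,0)]⟩⟩,
  ⟨false,1,⟨0,[(37,0),(2,0)]⟩,⟨0,[(38,0)]⟩⟩,⟨false,1,⟨5,[(5,3),(0,3),(0,3),(1,5),(10,0),(2,5),(4,3),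
  (4,0),(2,1)]⟩,⟨0,[(2,0),(5,0),(33,0)]⟩⟩,⟨true,0,⟨0,[]⟩,⟨0,[(42,0)]⟩⟩,⟨false,1,⟨7,[(5,7),(0,3),(0,
  1),(0,1),(0,7),(13,7),(4,3),(4,2),(6,0)]⟩,⟨1,[(2,1),(5,0),(18,0)]⟩⟩,[.o ⟨false,1,⟨1,[(33,0),(3,1),
  (2,0)]⟩,⟨0,[(38,0)]⟩⟩,.o ⟨false,1,⟨10,[(6,3),(2,0),(0,0),(2,1),(2,0),(16,4),(2,8)]⟩,⟨0,[(38,0),(3,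
  0)]⟩⟩,.a ⟨true,0,⟨1,[(22,0),(8,0),(0,0)]⟩,⟨0,[(23,0)]⟩⟩ ⟨true,0,⟨0,[(2,0),(4,0),(15,0)]⟩,⟨0,[(0,
  0)]⟩⟩ ⟨false,1,⟨10,[(6,3),(2,0),(0,0),(2,1),(2,0),(6,10),(9,4),(2,8)]⟩,⟨3,[(0,1),(1,1),(5,1),(13,
  0),(8,0),(0,0)]⟩⟩,.o ⟨false,0,⟨1,[(22,0),(2,0),(2,0)]⟩,⟨1,[(23,1),(9,0),(5,0)]⟩⟩]⟩) (.R ⟨1,false,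
  false,true,[0,0,0,1],[1,-1],[1,0,0,-1,0,0,0,0,1],(⟨0,[(23,0)]⟩,⟨1,[(22,0),(8,0),(0,0)]⟩),(⟨0,[(34,
  0)]⟩,⟨0,[(35,0)]⟩),⟨0,[(1,0)]⟩,.k,.k,(.r (-1) ⟨4,[(0,0),(12,0),(1,0),(5,1),(15,0),(1,0)]⟩ ⟨0,[(5,
  0),(24,0)]⟩),(.r 0 ⟨0,[(0,2),(0,5),(3,1),(1,2),(1,0),(6,2),(5,2),(12,5),(2,5)]⟩ ⟨0,[(5,0),(7,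
  0)]⟩),.k,.k,⟨false,0,⟨0,[(0,0),(37,0)]⟩,⟨1,[(20,0),(18,0),(2,1)]⟩⟩,⟨true,0,⟨0,[(17,0),(5,0),(4,
  0)]⟩,⟨1,[(22,0),(8,0),(0,0)]⟩⟩,⟨false,1,⟨0,[(37,0),(2,0)]⟩,⟨0,[(38,0)]⟩⟩,⟨false,1,⟨3,[(0,1),(6,1),
  (8,1),(3,2),(2,3),(9,0)]⟩,⟨0,[(2,0),(5,0)]⟩⟩,⟨true,0,⟨0,[]⟩,⟨0,[(42,0)]⟩⟩,⟨false,1,⟨1,[(20,0),(2,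
  1),(9,0)]⟩,⟨3,[(0,1),(1,1),(5,1),(13,0),(8,0),(0,0)]⟩⟩,[.o ⟨false,0,⟨0,[(7,0),(8,0)]⟩,⟨3,[(20,0),
  (0,0),(16,3),(1,1)]⟩⟩,.o ⟨false,1,⟨1,[(33,0),(3,1),(2,0)]⟩,⟨0,[(38,0)]⟩⟩,.a ⟨true,0,⟨1,[(22,0),(8,
  0),(0,0)]⟩,⟨0,[(23,0)]⟩⟩ ⟨false,0,⟨0,[(0,0)]⟩,⟨3,[(20,2),(0,0),(16,3)]⟩⟩ ⟨true,0,⟨0,[(7,0),(8,0),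
  (6,0)]⟩,⟨1,[(22,0),(8,0),(0,0),(5,1)]⟩⟩,.o ⟨false,0,⟨1,[(22,0),(2,0),(2,0)]⟩,⟨1,[(23,1),(9,0),(5,
  0)]⟩⟩]⟩))) (.Q [0,0,0,1,0,0,-1,-1,1,0,1,-1] (.p true [0,0,1] [0,0,0,1] (⟨0,[(30,0)]⟩,⟨0,[(29,
  0)]⟩) .k 2 (⟨0,[(21,0)]⟩,⟨1,[(20,0),(8,0),(0,0)]⟩) .k (.r 0 ⟨1,[(0,1),(6,1),(1,0),(2,0),(7,0),(5,
  1),(6,1)]⟩ ⟨7,[(1,3),(11,3),(4,0),(0,2)]⟩)) (.I [1,0,0,0,0,0,0,0,1] (.Q [0,0,0,0,0,0,0,0,1,0,0,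
  -1] (.p false [0,0,0,1] [] (⟨0,[(23,0)]⟩,⟨1,[(22,0),(8,0),(0,0)]⟩) .k 0 (⟨0,[]⟩,⟨0,[]⟩) .k .k)
  (.R ⟨1,false,false,true,[1,0,0,-1],[0,0,0,1],[0,1,0,0,0,0,0,0,-1],(⟨1,[(23,0),(8,0),(0,0)]⟩,⟨0,
  [(24,0)]⟩),(⟨0,[(24,0)]⟩,⟨1,[(23,0),(8,0),(0,0)]⟩),⟨1,[(12,0),(2,0),(7,0)]⟩,.k,.k,(.r (-1) ⟨0,[(6,
  0),(7,0)]⟩ ⟨0,[(0,0),(7,1),(1,0),(1,1),(2,1),(8,0),(4,1),(6,3),(2,1)]⟩),.k,(.r (-1) ⟨1,[(3,1),(2,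
  1),(0,1),(2,1),(6,1),(5,0),(8,0),(0,0)]⟩ ⟨0,[(0,1),(7,1),(1,0),(1,1),(2,1),(8,1),(4,1),(6,3),(2,
  1)]⟩),.k,⟨false,1,⟨3,[(3,1),(2,5),(0,1),(2,3),(6,1),(5,0),(8,0),(0,0),(6,1)]⟩,⟨0,[(1,1)]⟩⟩,⟨true,
  0,⟨0,[(23,0)]⟩,⟨0,[(18,0),(5,1),(4,0)]⟩⟩,⟨true,0,⟨0,[(43,0)]⟩,⟨0,[]⟩⟩,⟨false,0,⟨0,[(1,1),(21,0)]⟩,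
  ⟨3,[(3,3),(2,1),(0,1),(2,3),(10,0),(2,3),(4,3),(11,0)]⟩⟩,⟨false,0,⟨0,[(39,0)]⟩,⟨0,[(38,0),(2,
  0)]⟩⟩,⟨false,0,⟨0,[(1,1),(21,0),(15,0)]⟩,⟨0,[(3,0),(2,0),(0,0),(2,0),(6,0),(6,0),(12,0)]⟩⟩,[.o
  ⟨false,0,⟨0,[(0,0),(42,0)]⟩,⟨0,[(3,0),(13,0),(23,0)]⟩⟩,.o ⟨false,0,⟨0,[(0,0)]⟩,⟨1,[(21,0),(2,1),
  (9,0)]⟩⟩,.a ⟨true,0,⟨0,[(24,0)]⟩,⟨1,[(23,0),(8,0),(0,0)]⟩⟩ ⟨true,0,⟨1,[(3,1),(13,1),(5,0),(8,0),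
  (0,0)]⟩,⟨0,[(1,0)]⟩⟩ ⟨false,0,⟨0,[(1,0),(21,0)]⟩,⟨0,[(3,0),(13,0),(6,0),(16,0)]⟩⟩,.o ⟨false,0,⟨0,
  [(18,0),(5,0),(4,0)]⟩,⟨7,[(21,0),(0,0),(0,3),(10,1),(5,3)]⟩⟩]⟩) (.R ⟨2,false,false,false,[0,1],[0,
  0,0,1],[1,1,1],(⟨0,[]⟩,⟨0,[]⟩),(⟨0,[(24,0)]⟩,⟨1,[(23,0),(8,0),(0,0)]⟩),⟨0,[]⟩,.k,.k,.k,(.r 0 ⟨0,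
  [(6,0),(24,0)]⟩ ⟨2,[(1,0),(12,0),(1,0),(5,0)]⟩),.k,.k,⟨false,0,⟨1,[(0,0),(2,0),(13,0),(5,0),(19,
  0)]⟩,⟨1,[(1,1),(38,0),(0,0)]⟩⟩,⟨true,0,⟨1,[(23,0),(2,0),(2,0)]⟩,⟨0,[(24,0)]⟩⟩,⟨true,0,⟨0,[(38,
  0)]⟩,⟨0,[(39,0)]⟩⟩,⟨false,1,⟨13,[(1,7),(5,3),(3,0),(2,3),(2,0),(4,2),(0,6),(10,2),(2,11)]⟩,⟨0,[(0,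
  0),(38,0)]⟩⟩,⟨false,0,⟨0,[]⟩,⟨3,[(21,0),(0,0),(18,1)]⟩⟩,⟨false,1,⟨3,[(1,1),(20,0),(0,1),(10,0),(6,
  1)]⟩,⟨0,[(0,0)]⟩⟩,[.a ⟨true,0,⟨1,[(1,1),(21,0),(8,0),(0,0)]⟩,⟨0,[(0,0)]⟩⟩ ⟨false,0,⟨0,[(43,0)]⟩,
  ⟨1,[(40,0),(0,0)]⟩⟩ ⟨true,0,⟨1,[(1,1),(21,0),(2,0),(2,0)]⟩,⟨0,[(0,0)]⟩⟩,.o ⟨false,1,⟨3,[(1,1),(20,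
  0),(0,1),(10,0),(6,1)]⟩,⟨0,[(3,0),(13,0)]⟩⟩,.o ⟨false,1,⟨3,[(21,0),(0,0),(17,1)]⟩,⟨0,[(18,0),(10,
  0)]⟩⟩,.e ⟨false,0,⟨0,[]⟩,⟨3,[(21,0),(0,0),(18,1)]⟩⟩ ⟨false,1,⟨3,[(1,1),(20,0),(0,1),(10,0),(6,
  1)]⟩,⟨0,[(0,0)]⟩⟩]⟩)) (.R ⟨1,false,false,false,[1,0,0,-1],[1,-1],[0,0,0,0,0,0,0,0,-1],(⟨1,[(22,0),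
  (8,0),(0,0)]⟩,⟨0,[(23,0)]⟩),(⟨0,[(34,0)]⟩,⟨0,[(35,0)]⟩),⟨1,[(11,0),(2,0),(7,0)]⟩,.k,.k,(.r (-1)
  ⟨2,[(0,0),(12,0),(1,0),(4,0)]⟩ ⟨0,[(1,0),(5,0),(1,0),(1,0),(2,0),(8,0),(4,1),(6,1),(2,0)]⟩),(.r 0
  ⟨0,[(5,0),(24,0)]⟩ ⟨0,[(3,0),(9,0)]⟩),.k,.k,⟨false,0,⟨0,[(0,0),(37,0)]⟩,⟨0,[(3,0),(9,0)]⟩⟩,⟨true,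
  0,⟨1,[(22,0),(2,0),(2,0)]⟩,⟨0,[(23,0)]⟩⟩,⟨false,1,⟨3,[(20,0),(0,0),(18,1)]⟩,⟨0,[]⟩⟩,⟨false,1,⟨1,
  [(6,0),(0,0),(1,0),(11,0),(0,0),(5,0),(7,0)]⟩,⟨0,[(0,0),(22,0),(14,0)]⟩⟩,⟨true,0,⟨0,[(38,0)]⟩,⟨0,
  [(37,0)]⟩⟩,⟨false,1,⟨6,[(1,2),(4,0),(2,1),(11,1),(0,1),(5,2),(4,0),(6,2)]⟩,⟨0,[(0,0),(22,0)]⟩⟩,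
  [.o ⟨false,1,⟨1,[(33,0),(3,1),(2,0)]⟩,⟨0,[(38,0)]⟩⟩,.o ⟨false,1,⟨10,[(6,3),(2,0),(0,0),(2,1),(2,
  0),(16,4),(2,8)]⟩,⟨0,[(38,0),(3,0)]⟩⟩,.a ⟨true,0,⟨0,[(23,0)]⟩,⟨1,[(22,0),(8,0),(0,0)]⟩⟩ ⟨true,0,
  ⟨0,[(0,0)]⟩,⟨0,[(1,0),(14,0),(6,0)]⟩⟩ ⟨false,1,⟨5,[(10,1),(2,1),(8,2),(2,0),(2,2),(11,3)]⟩,⟨0,
  [(23,0),(14,0)]⟩⟩,.o ⟨false,0,⟨0,[(17,0),(5,0),(4,0)]⟩,⟨7,[(20,0),(0,0),(0,3),(10,1),(5,3)]⟩⟩]⟩))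
  (.I [0,1,-1,0,0,0,0,1,-1] (.R ⟨1,false,false,false,[1,0,0,-1],[1,0,-1],[0,1,0,0,0,0,0,0,-1],(⟨1,
  [(22,0),(8,0),(0,0)]⟩,⟨0,[(23,0)]⟩),(⟨0,[(31,0)]⟩,⟨0,[(32,0)]⟩),⟨1,[(11,0),(2,0),(7,0)]⟩,.k,.k,
  (.r (-1) ⟨20,[(0,2),(0,1),(4,3),(3,0),(1,0),(0,4),(1,3),(4,7),(1,0)]⟩ ⟨0,[(3,0),(3,0),(1,0),(1,0),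
  (2,0),(13,0),(6,1),(2,0)]⟩),.k,(.x 0 ⟨0,[(11,0),(16,0)]⟩ ⟨7,[(19,3),(0,0),(0,0),(9,7),(1,1),(1,7),
  (3,3)]⟩),.k,⟨false,0,⟨0,[(0,0)]⟩,⟨3,[(3,1),(2,1),(14,0),(18,0)]⟩⟩,⟨true,0,⟨1,[(19,0),(2,0)]⟩,⟨0,
  [(23,0),(4,0)]⟩⟩,⟨true,0,⟨0,[(42,0)]⟩,⟨0,[]⟩⟩,⟨false,1,⟨1,[(7,0),(4,0),(8,0),(0,0),(17,0)]⟩,⟨0,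
  [(1,0),(36,0)]⟩⟩,⟨false,0,⟨0,[(38,0)]⟩,⟨0,[(37,0),(2,0)]⟩⟩,⟨false,1,⟨7,[(7,1),(0,3),(12,3),(0,3),
  (4,1),(5,0),(6,2)]⟩,⟨0,[(1,0)]⟩⟩,[.o ⟨false,0,⟨0,[(7,0)]⟩,⟨3,[(20,0),(0,0),(4,3),(13,1)]⟩⟩,.o
  ⟨false,1,⟨3,[(7,1),(19,1),(5,0),(6,2)]⟩,⟨0,[(26,0)]⟩⟩,.a ⟨true,0,⟨0,[(23,0)]⟩,⟨1,[(22,0),(8,0),(0,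
  0)]⟩⟩ ⟨false,0,⟨1,[(1,0),(0,0),(19,0)]⟩,⟨1,[(21,0),(18,0)]⟩⟩ ⟨true,0,⟨1,[(7,0),(4,0),(9,0)]⟩,⟨0,
  [(23,0),(2,0)]⟩⟩,.o ⟨false,0,⟨0,[(17,0),(5,0),(4,0)]⟩,⟨7,[(20,0),(0,0),(0,3),(10,1),(5,3)]⟩⟩]⟩)
  (.Q [0,1,0,0,0,0,0,0,1,0,0,-1] (.p false [0,0,0,1] [] (⟨0,[(23,0)]⟩,⟨1,[(22,0),(8,0),(0,0)]⟩) .k
  0 (⟨0,[]⟩,⟨0,[]⟩) .k .k) (.R ⟨2,true,false,true,[0,1],[0,0,0,1],[0,1,1,1],(⟨0,[]⟩,⟨0,[]⟩),(⟨0,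
  [(24,0)]⟩,⟨1,[(23,0),(8,0),(0,0)]⟩),⟨0,[]⟩,.k,.k,.k,(.r 0 ⟨0,[(6,0),(24,0)]⟩ ⟨9,[(0,1),(0,1),(12,
  3),(1,1),(5,2),(1,1),(15,0)]⟩),.k,.k,⟨false,0,⟨1,[(2,0),(0,0),(19,0),(15,1)]⟩,⟨9,[(0,1),(0,1),(12,
  3),(1,1),(5,2),(1,1),(15,0)]⟩⟩,⟨true,0,⟨1,[(23,0),(2,0),(2,0)]⟩,⟨0,[(24,0)]⟩⟩,⟨true,0,⟨0,[(43,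
  0)]⟩,⟨0,[]⟩⟩,⟨false,1,⟨27,[(1,5),(12,3),(2,1),(4,10),(0,13),(2,1),(7,5),(3,17),(2,6)]⟩,⟨0,[(2,0),
  (6,0)]⟩⟩,⟨false,0,⟨0,[(39,0)]⟩,⟨0,[(38,0),(2,0)]⟩⟩,⟨true,0,⟨0,[(0,0)]⟩,⟨1,[(2,0),(0,0),(28,0),(0,
  0)]⟩⟩,[]⟩) (.R ⟨1,false,false,true,[1,0,0,-1],[1,-1],[0,1,0,0,0,0,0,0,-1],(⟨1,[(23,0),(8,0),(0,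
  0)]⟩,⟨0,[(24,0)]⟩),(⟨0,[(35,0)]⟩,⟨0,[(36,0)]⟩),⟨1,[(12,0),(2,0),(7,0)]⟩,.k,.k,(.r (-1) ⟨5,[(2,0),
  (0,0),(10,1),(1,1),(4,1),(1,0)]⟩ ⟨1,[(0,1),(0,3),(6,5),(1,1),(1,4),(2,4),(1,5),(5,0),(12,9),(2,
  9)]⟩),(.r 0 ⟨0,[(6,0),(24,0)]⟩ ⟨2,[(1,0),(12,0),(7,0),(15,0),(1,0)]⟩),.k,.k,⟨false,0,⟨1,[(2,0),(0,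
  0),(19,0),(15,1)]⟩,⟨2,[(1,0),(12,0),(7,0),(15,0),(1,0)]⟩⟩,⟨true,0,⟨1,[(23,0),(2,0),(2,0)]⟩,⟨0,
  [(24,0)]⟩⟩,⟨true,0,⟨0,[(43,0)]⟩,⟨0,[]⟩⟩,⟨false,1,⟨27,[(1,5),(12,3),(2,1),(4,10),(0,13),(2,1),(7,
  5),(3,17),(2,6)]⟩,⟨0,[(2,0),(6,0)]⟩⟩,⟨false,0,⟨0,[(39,0)]⟩,⟨0,[(38,0),(2,0)]⟩⟩,⟨false,1,⟨7,[(21,
  0),(0,4),(0,3),(10,1)]⟩,⟨0,[(0,0)]⟩⟩,[.o ⟨false,0,⟨0,[(8,0),(8,0)]⟩,⟨3,[(21,0),(0,0),(16,3),(1,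
  1)]⟩⟩,.o ⟨false,1,⟨1,[(34,0),(3,1),(2,0)]⟩,⟨0,[(39,0)]⟩⟩,.a ⟨true,0,⟨0,[(24,0)]⟩,⟨1,[(23,0),(8,0),
  (0,0)]⟩⟩ ⟨false,0,⟨1,[(2,0),(0,0),(19,0)]⟩,⟨1,[(22,0),(18,0)]⟩⟩ ⟨true,0,⟨1,[(11,0),(5,0),(5,0)]⟩,
  ⟨0,[(24,0),(14,0)]⟩⟩,.o ⟨false,0,⟨0,[(18,0),(5,0),(4,0)]⟩,⟨7,[(21,0),(0,0),(0,3),(10,1),(5,
  3)]⟩⟩]⟩))))))))))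

theorem ok14 : chk (cU (-1) false 2) t14 l15 = true := by decide +kernel

noncomputable def t26 : Tre :=
  (.Q [0,0,0,0,0,0,2,2,0,1,-2] (.p false [0,0,1] [1,0,-1] (⟨0,[(35,0)]⟩,⟨0,[(34,0)]⟩) .k 2 (⟨0,[(34,
  0)]⟩,⟨0,[(35,0)]⟩) .k (.r 0 ⟨0,[(33,1)]⟩ ⟨1,[(3,0),(17,1),(8,0),(0,0)]⟩)) (.R ⟨1,false,false,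
  false,[0,0,1],[1,0,-1],[1,0,0,0,0,0,0,-1],(⟨0,[(36,0)]⟩,⟨0,[(35,0)]⟩),(⟨0,[(35,0)]⟩,⟨0,[(36,0)]⟩),
  ⟨0,[(15,0)]⟩,.k,.k,.k,.k,(.x 0 ⟨0,[(3,0)]⟩ ⟨3,[(2,3),(21,0),(0,0),(9,7),(1,1),(1,3)]⟩),.k,⟨true,0,
  ⟨0,[]⟩,⟨1,[(32,0),(0,0)]⟩⟩,⟨false,0,⟨0,[(2,0)]⟩,⟨4,[(3,0),(2,2),(17,0),(0,0),(6,4),(2,1),(3,0)]⟩⟩,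
  ⟨false,1,⟨0,[(7,0),(11,0)]⟩,⟨0,[(34,1)]⟩⟩,⟨false,1,⟨35,[(1,31),(2,7),(4,15),(14,6),(0,6),(3,3),(3,
  3),(10,5)]⟩,⟨0,[(0,0)]⟩⟩,⟨false,1,⟨0,[(7,0),(14,0)]⟩,⟨13,[(0,2),(11,1),(0,9),(15,2),(3,4),(6,
  1)]⟩⟩,⟨true,0,⟨0,[(1,0)]⟩,⟨0,[(0,0),(40,0)]⟩⟩,[.a ⟨true,0,⟨0,[(16,0)]⟩,⟨1,[(0,0),(34,0),(0,0)]⟩⟩
  ⟨false,1,⟨0,[(22,0)]⟩,⟨0,[(34,0)]⟩⟩ ⟨true,0,⟨4,[(1,0),(0,0),(1,0),(9,0),(1,0),(6,1)]⟩,⟨7,[(0,3),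
  (2,1),(28,4),(0,0),(1,3),(3,1)]⟩⟩,.o ⟨false,1,⟨5,[(1,1),(17,1),(9,1),(7,0),(6,2)]⟩,⟨0,[(30,0)]⟩⟩,
  .o ⟨false,1,⟨11,[(6,3),(17,2),(0,2),(6,7),(4,1)]⟩,⟨0,[(21,0)]⟩⟩,.o ⟨false,0,⟨0,[(32,0)]⟩,⟨3,[(2,
  1),(21,0),(0,0),(11,0),(5,0)]⟩⟩]⟩) (.Q [0,0,0,1,0,0,2,2,0,1,-2] (.p false [0,0,1] [1,0,-1] (⟨0,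
  [(36,0)]⟩,⟨0,[(35,0)]⟩) .k 2 (⟨0,[(35,0)]⟩,⟨0,[(36,0)]⟩) .k (.r 0 ⟨0,[(34,1)]⟩ ⟨1,[(4,0),(17,1),
  (8,0),(0,0)]⟩)) (.R ⟨1,false,false,true,[1,0,-1],[0,0,1],[1,0,1],(⟨0,[(36,0)]⟩,⟨0,[(37,0)]⟩),(⟨0,
  [(37,0)]⟩,⟨0,[(36,0)]⟩),⟨0,[(19,0)]⟩,.k,.k,.k,.k,(.r (-1) ⟨0,[(5,0),(1,0),(7,0)]⟩ ⟨1,[(0,1),(23,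
  0),(5,0),(3,0)]⟩),.k,⟨true,0,⟨0,[(5,0)]⟩,⟨4,[(0,0),(13,0),(9,0),(6,0),(2,0),(12,3)]⟩⟩,⟨false,1,⟨0,
  [(7,0),(25,0)]⟩,⟨0,[(24,0)]⟩⟩,⟨false,0,⟨7,[(0,1),(13,1),(9,0),(5,0),(3,0),(6,7)]⟩,⟨0,[(23,0)]⟩⟩,
  ⟨true,0,⟨0,[(0,0),(41,0)]⟩,⟨0,[(1,0)]⟩⟩,⟨false,0,⟨2,[(0,1),(7,0),(15,1),(16,1)]⟩,⟨0,[(1,2),(2,0),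
  (1,0),(1,1),(4,1),(0,1),(4,1),(20,2),(2,3)]⟩⟩,⟨false,0,⟨0,[(0,0)]⟩,⟨15,[(1,13),(3,3),(4,7),(14,2),
  (0,2),(3,1),(3,1),(10,1)]⟩⟩,[.o ⟨false,0,⟨0,[(31,0)]⟩,⟨7,[(1,3),(23,0),(0,0),(11,1),(6,3)]⟩⟩,.a
  ⟨true,0,⟨2,[(0,0),(8,0),(26,0),(0,0)]⟩,⟨0,[(17,0)]⟩⟩ ⟨true,0,⟨0,[(41,0)]⟩,⟨0,[(47,0)]⟩⟩ ⟨false,1,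
  ⟨5,[(0,1),(5,1),(0,1),(17,0),(0,0),(6,1)]⟩,⟨1,[(1,0),(22,0)]⟩⟩,.o ⟨false,0,⟨0,[(22,0)]⟩,⟨11,[(7,
  3),(17,2),(0,2),(6,7),(4,1)]⟩⟩,.o ⟨false,0,⟨0,[(30,0)]⟩,⟨2,[(7,1),(25,0),(4,0)]⟩⟩]⟩) (.Q [0,0,0,0,
  0,2,0,0,0,-1,1] (.p true [0,0,1] [1] (⟨0,[(37,0)]⟩,⟨0,[(36,0)]⟩) .k 1 (⟨0,[]⟩,⟨0,[]⟩) .k .k) (.R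
  ⟨0,false,false,true,[1,-1,-1],[0,-1,1],[1,1],(⟨0,[(20,0)]⟩,⟨0,[(38,0),(2,0)]⟩),(⟨0,[(17,0)]⟩,⟨0,
  [(37,0),(3,0)]⟩),⟨0,[(0,0)]⟩,.k,.k,(.r (-1) ⟨0,[(1,0),(5,0)]⟩ ⟨0,[(34,0),(0,0),(0,0),(7,1)]⟩),.k,
  .k,.k,⟨true,0,⟨0,[(9,0),(38,0)]⟩,⟨16,[(1,0),(8,0),(3,3),(0,6),(19,2),(6,3)]⟩⟩,⟨false,1,⟨0,[(8,0),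
  (25,0)]⟩,⟨0,[(25,0)]⟩⟩,⟨false,0,⟨1,[(34,0),(0,0),(0,1),(7,1)]⟩,⟨19,[(1,6),(4,12),(0,2),(0,7),(2,
  2),(1,3),(25,1)]⟩⟩,⟨true,0,⟨0,[(10,0),(21,0),(11,0)]⟩,⟨0,[(2,0)]⟩⟩,⟨false,0,⟨0,[]⟩,⟨0,[]⟩⟩,⟨false,
  0,⟨0,[]⟩,⟨0,[]⟩⟩,[.o ⟨false,0,⟨0,[(22,0)]⟩,⟨7,[(3,3),(22,0),(0,0),(11,1),(4,3),(1,3)]⟩⟩,.a ⟨true,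
  0,⟨0,[(10,0)]⟩,⟨0,[(18,0),(25,0)]⟩⟩ ⟨true,0,⟨0,[]⟩,⟨1,[(34,0),(0,0)]⟩⟩ ⟨false,1,⟨0,[(7,0)]⟩,⟨1,
  [(3,0),(27,0),(3,0),(8,0)]⟩⟩,.o ⟨false,0,⟨0,[(31,0)]⟩,⟨2,[(8,1),(25,0),(4,0)]⟩⟩,.e ⟨false,1,⟨3,
  [(26,0),(0,0),(17,1)]⟩,⟨1,[(1,1),(3,0),(3,3),(4,1),(0,2),(4,1),(20,2),(2,4)]⟩⟩ ⟨false,1,⟨0,[(7,
  0)]⟩,⟨1,[(9,1),(15,0),(5,0),(3,0)]⟩⟩]⟩) (.Q [0,0,-2,0,1,0,1,0,0,0,-1] (.p false [0,0,1] [] (⟨0,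
  [(38,0)]⟩,⟨0,[(37,0)]⟩) .k 0 (⟨0,[]⟩,⟨0,[]⟩) .k .k) (.Q [0,0,-2,0,1,0,2,0,0,1,-2] (.p false [0,0,
  1] [1,0,-1] (⟨0,[(39,0)]⟩,⟨0,[(38,0)]⟩) .k 2 (⟨0,[(38,0)]⟩,⟨0,[(39,0)]⟩) .k (.r 0 ⟨0,[(37,1)]⟩ ⟨1,
  [(7,0),(17,1),(8,0),(0,0)]⟩)) (.Q [0,0,0,2,0,0,2,2,0,1,-2] (.p false [0,0,1] [1,0,-1] (⟨0,[(40,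
  0)]⟩,⟨0,[(39,0)]⟩) .k 2 (⟨0,[(39,0)]⟩,⟨0,[(40,0)]⟩) .k (.r 0 ⟨0,[(38,1)]⟩ ⟨1,[(11,0),(11,0),(2,0),
  (8,0),(0,0)]⟩)) (.R ⟨1,false,false,true,[1,-1,-1],[0,0,1],[1,0,1],(⟨0,[(23,0)]⟩,⟨0,[(41,0),(2,
  0)]⟩),(⟨0,[(41,0)]⟩,⟨0,[(40,0)]⟩),⟨0,[(3,0)]⟩,.k,.k,(.r (-1) ⟨0,[(4,0),(5,0)]⟩ ⟨5,[(0,4),(11,1),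
  (21,4),(1,1),(0,0),(0,3)]⟩),(.r (-1) ⟨3,[(1,1),(2,0),(4,1),(9,0),(4,1),(11,0)]⟩ ⟨2,[(0,1),(17,0),
  (15,1),(3,1)]⟩),(.x 0 ⟨0,[(3,0),(30,1),(5,0)]⟩ ⟨0,[(1,0),(5,0),(0,0),(35,2)]⟩),.k,⟨true,0,⟨0,[(9,
  0)]⟩,⟨7,[(0,0),(17,1),(9,0),(6,1),(2,1),(12,5)]⟩⟩,⟨false,1,⟨0,[(1,0)]⟩,⟨1,[(28,0),(5,0),(3,0)]⟩⟩,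
  ⟨false,0,⟨1,[(0,0),(33,0),(3,0),(6,1)]⟩,⟨4,[(1,1),(0,0),(1,2),(6,0),(10,0)]⟩⟩,⟨true,0,⟨0,[(0,0),
  (45,0)]⟩,⟨0,[(4,0)]⟩⟩,⟨false,0,⟨3,[(0,2),(11,1),(15,0),(5,1),(3,1),(6,1)]⟩,⟨0,[(4,0),(5,0)]⟩⟩,
  ⟨false,0,⟨0,[(0,0)]⟩,⟨27,[(4,23),(4,7),(4,15),(14,4),(0,4),(3,3),(3,3),(10,1)]⟩⟩,[.o ⟨false,0,⟨0,
  [(35,0)]⟩,⟨7,[(4,1),(1,1),(22,0),(0,0),(11,1),(6,3)]⟩⟩,.a ⟨true,0,⟨3,[(0,0),(12,1),(26,0),(0,0)]⟩,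
  ⟨0,[(21,0)]⟩⟩ ⟨true,0,⟨0,[(45,0)]⟩,⟨0,[(51,0)]⟩⟩ ⟨false,1,⟨3,[(0,0),(1,0),(7,1),(0,0)]⟩,⟨3,[(4,0),
  (1,0),(27,1),(3,1)]⟩⟩,.o ⟨false,0,⟨0,[(34,0)]⟩,⟨7,[(1,3),(27,0),(0,0),(11,1)]⟩⟩,.o ⟨false,0,⟨1,
  [(34,1),(2,0),(0,0)]⟩,⟨0,[(2,0)]⟩⟩]⟩) (.I [1,1,0,0,0,0,0,-1,1] (.R ⟨1,false,false,true,[1,0,0,-1],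
  [1,0,-1],[0,0,0,0,0,0,0,0,-1],(⟨1,[(32,0),(8,0),(0,0)]⟩,⟨0,[(33,0)]⟩),(⟨0,[(41,0)]⟩,⟨0,[(42,0)]⟩),
  ⟨3,[(4,0),(16,0),(10,1),(11,0)]⟩,.k,.k,(.r (-1) ⟨5,[(1,0),(0,0),(20,1),(6,2)]⟩ ⟨0,[(0,0),(12,0),
  (26,1)]⟩),.k,(.r (-1) ⟨11,[(19,3),(3,3),(6,6),(0,0)]⟩ ⟨0,[(0,0),(12,0),(26,0)]⟩),.k,⟨false,1,⟨1,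
  [(13,0),(3,0),(1,0),(10,0),(17,0)]⟩,⟨0,[(0,0)]⟩⟩,⟨true,0,⟨1,[(29,0),(2,0)]⟩,⟨0,[(33,0),(4,0)]⟩⟩,
  ⟨false,1,⟨3,[(30,0),(0,0),(18,1)]⟩,⟨0,[]⟩⟩,⟨false,0,⟨1,[(0,1),(7,0),(1,0),(2,0),(5,0),(12,0)]⟩,⟨9,
  [(2,1),(10,5),(5,7),(10,4),(2,9),(4,5),(4,0),(4,1),(1,1)]⟩⟩,⟨true,0,⟨0,[(48,0)]⟩,⟨0,[(47,0)]⟩⟩,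
  ⟨false,0,⟨1,[(0,1),(7,0),(4,1),(5,0),(12,0),(15,0)]⟩,⟨1,[(10,0),(6,0),(1,0),(10,0),(2,1),(4,1)]⟩⟩,
  [.o ⟨false,0,⟨0,[(34,0)]⟩,⟨0,[(36,0),(13,0)]⟩⟩,.a ⟨true,0,⟨0,[(22,0)]⟩,⟨0,[(14,0),(33,0)]⟩⟩
  ⟨false,1,⟨1,[(2,0),(5,0),(1,0),(2,0),(5,0),(10,0)]⟩,⟨0,[(0,0),(39,0)]⟩⟩ ⟨true,0,⟨3,[(5,0),(1,0),
  (24,1)]⟩,⟨0,[(33,0),(4,0),(1,0)]⟩⟩,.e ⟨false,1,⟨1,[(30,0),(19,0)]⟩,⟨0,[(0,0),(12,0),(5,0)]⟩⟩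
  ⟨false,0,⟨3,[(5,0),(1,0),(24,1)]⟩,⟨0,[(33,0),(2,0),(13,0)]⟩⟩,.o ⟨false,0,⟨0,[(27,0),(5,0),(4,0)]⟩,
  ⟨7,[(30,0),(0,0),(0,3),(10,1),(5,3)]⟩⟩]⟩) (.I [0,0,1,1,0,0,0,0,1] (.I [0,1,0,1,0,0,0,0,1] (.I [0,
  0,0,0,0,0,0,0,-1] (.I [1,0,0,-1,0,0,0,0,-1] (.R ⟨1,false,false,false,[1,0,0,-1],[1,-1],[1,0,0,-1,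
  0,0,0,0,-1],(⟨1,[(36,0),(8,0),(0,0)]⟩,⟨0,[(37,0)]⟩),(⟨0,[(48,0)]⟩,⟨0,[(49,0)]⟩),⟨3,[(8,0),(16,0),
  (10,1),(11,0)]⟩,.k,.k,(.r (-1) ⟨5,[(5,0),(0,0),(20,1),(6,2)]⟩ ⟨0,[(3,0)]⟩),(.r 0 ⟨0,[(1,1),(1,
  0)]⟩ ⟨5,[(5,0),(0,0),(20,1),(7,2)]⟩),.k,.k,⟨false,0,⟨0,[(1,0)]⟩,⟨1,[(35,0),(17,0)]⟩⟩,⟨true,0,⟨1,
  [(36,0),(2,0),(2,0)]⟩,⟨0,[(37,0)]⟩⟩,⟨false,1,⟨5,[(14,0),(4,1),(2,0),(11,0),(0,0),(7,0),(10,1)]⟩,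
  ⟨0,[(52,0)]⟩⟩,⟨false,1,⟨13,[(5,0),(8,11),(6,3),(0,1),(0,3),(11,6),(0,6),(10,2)]⟩,⟨0,[(1,0),(35,0),
  (14,0)]⟩⟩,⟨true,0,⟨0,[]⟩,⟨0,[(56,0)]⟩⟩,⟨false,1,⟨3,[(3,1),(10,1),(6,1),(13,0),(0,1),(10,0)]⟩,⟨0,
  [(1,0),(35,0)]⟩⟩,[.o ⟨false,1,⟨23,[(5,1),(8,1),(4,3),(2,5),(11,4),(0,4),(3,1),(7,9)]⟩,⟨0,[(52,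
  0)]⟩⟩,.o ⟨false,1,⟨1,[(19,0),(27,0),(2,0)]⟩,⟨0,[(52,0),(3,0)]⟩⟩,.a ⟨true,0,⟨0,[(37,0)]⟩,⟨1,[(36,
  0),(8,0),(0,0)]⟩⟩ ⟨true,0,⟨0,[(0,0)]⟩,⟨0,[(2,0)]⟩⟩ ⟨false,1,⟨15,[(19,7),(14,0),(0,0),(0,7),(2,3),
  (2,3),(4,1),(6,3)]⟩,⟨0,[(37,0),(14,0)]⟩⟩,.o ⟨false,0,⟨0,[(31,0),(5,0),(4,0)]⟩,⟨7,[(34,0),(0,0),(0,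
  3),(10,1),(5,3)]⟩⟩]⟩) (.R ⟨1,false,false,false,[1,0,0,-1],[1,-1],[0,1],(⟨1,[(36,0),(8,0),(0,0)]⟩,
  ⟨0,[(37,0)]⟩),(⟨0,[(48,0)]⟩,⟨0,[(49,0)]⟩),⟨3,[(8,0),(16,0),(10,1),(11,0)]⟩,.k,.k,(.r (-1) ⟨5,[(5,
  0),(0,0),(20,1),(6,2)]⟩ ⟨0,[(3,0)]⟩),(.r 0 ⟨0,[(1,1),(1,0)]⟩ ⟨5,[(5,0),(0,0),(20,1),(7,2)]⟩),.k,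
  .k,⟨false,0,⟨0,[(52,0),(3,0)]⟩,⟨3,[(19,0),(1,0),(7,0),(24,0)]⟩⟩,⟨true,0,⟨1,[(36,0),(2,0),(2,0)]⟩,
  ⟨0,[(37,0)]⟩⟩,⟨true,0,⟨4,[(0,0),(1,3),(2,0),(12,0),(3,0)]⟩,⟨0,[(1,0)]⟩⟩,⟨false,1,⟨45,[(0,7),(4,0),
  (8,31),(4,15),(2,1),(0,15),(11,18),(0,22),(10,10)]⟩,⟨0,[(1,0),(35,0),(14,0)]⟩⟩,⟨false,0,⟨0,[(0,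
  0)]⟩,⟨1,[(19,0),(14,0),(15,0)]⟩⟩,⟨false,1,⟨7,[(0,1),(13,1),(6,1),(13,2),(0,3),(10,1),(2,1),(3,
  0)]⟩,⟨0,[(1,0),(35,0)]⟩⟩,[.o ⟨false,1,⟨23,[(5,1),(8,1),(4,3),(2,5),(11,4),(0,4),(3,1),(7,9)]⟩,⟨0,
  [(52,0)]⟩⟩,.o ⟨false,1,⟨1,[(19,0),(27,0),(2,0)]⟩,⟨0,[(52,0),(3,0)]⟩⟩,.a ⟨true,0,⟨0,[(37,0)]⟩,⟨1,
  [(36,0),(8,0),(0,0)]⟩⟩ ⟨true,0,⟨0,[(56,0)]⟩,⟨0,[]⟩⟩ ⟨false,1,⟨15,[(19,7),(14,0),(0,0),(0,7),(2,3),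
  (2,3),(4,1),(6,3)]⟩,⟨0,[(37,0),(14,0)]⟩⟩,.o ⟨false,0,⟨0,[(31,0),(5,0),(4,0)]⟩,⟨7,[(34,0),(0,0),(0,
  3),(10,1),(5,3)]⟩⟩]⟩)) (.Q [0,-1,0,0,0,0,0,0,2,1,0,-2] (.p false [0,0,0,1] [1,0,0,-1] (⟨0,[(36,
  0)]⟩,⟨1,[(35,0),(8,0),(0,0)]⟩) .k 2 (⟨1,[(35,0),(8,0),(0,0)]⟩,⟨0,[(36,0)]⟩) .k .k) (.Q [0,-1,0,0,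
  0,0,0,0,1,1,0,-1] (.p false [0,0,0,1] [1] (⟨0,[(37,0)]⟩,⟨1,[(36,0),(8,0),(0,0)]⟩) .k 1 (⟨0,[]⟩,⟨0,
  []⟩) .k .k) (.Q [0,1,0,0,0,0,0,0,-1,0,0,1] (.p true [0,0,0,1] [] (⟨0,[(38,0)]⟩,⟨1,[(37,0),(8,0),
  (0,0)]⟩) .k 0 (⟨0,[]⟩,⟨0,[]⟩) .k .k) (.K ⟨1,[0,0,0,1],0,0,(⟨0,[(39,0)]⟩,⟨1,[(38,0),(8,0),(0,0)]⟩),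
  .k,(.r (-1) ⟨5,[(7,0),(0,0),(20,1),(7,2)]⟩ ⟨2,[(0,1),(5,0),(12,0),(18,0),(2,0),(2,0),(9,1)]⟩),(.r
  0 ⟨0,[(5,0)]⟩ ⟨5,[(7,0),(0,0),(20,1),(6,2)]⟩),.k,.k,[⟨1,[(39,1),(4,0),(0,0)]⟩,⟨1,[(38,0),(2,0),(2,
  0)]⟩,⟨0,[(0,0)]⟩,⟨0,[(1,0)]⟩]⟩) (.Q [0,1,0,1,0,0,0,0,-1,0,0,1] (.p true [0,0,0,1] [] (⟨0,[(39,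
  0)]⟩,⟨1,[(38,0),(8,0),(0,0)]⟩) .k 0 (⟨0,[]⟩,⟨0,[]⟩) .k .k) (.R ⟨1,false,false,false,[1,0,0,-1],[1,
  -1],[1],(⟨1,[(39,0),(8,0),(0,0)]⟩,⟨0,[(40,0)]⟩),(⟨0,[(51,0)]⟩,⟨0,[(52,0)]⟩),⟨3,[(11,0),(16,0),(10,
  1),(11,0)]⟩,.k,.k,(.r (-1) ⟨5,[(8,0),(0,0),(20,1),(6,2)]⟩ ⟨0,[(6,0)]⟩),(.r 0 ⟨2,[(0,1),(6,0),(12,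
  0),(18,0),(2,0),(2,0)]⟩ ⟨5,[(8,0),(0,0),(20,1),(7,2)]⟩),.k,.k,⟨false,0,⟨0,[(55,0)]⟩,⟨5,[(30,1),(1,
  1),(4,0),(0,0)]⟩⟩,⟨true,0,⟨1,[(39,0),(2,0),(2,0)]⟩,⟨0,[(40,0)]⟩⟩,⟨false,0,⟨0,[(1,0),(38,0)]⟩,⟨3,
  [(37,2),(0,0)]⟩⟩,⟨true,0,⟨2,[(1,0),(1,0),(21,0),(1,0)]⟩,⟨0,[(0,0)]⟩⟩,⟨false,0,⟨0,[(1,0),(38,0),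
  (14,0)]⟩,⟨15,[(8,1),(8,0),(3,1),(0,1),(2,2),(11,10),(0,2),(7,0)]⟩⟩,⟨false,0,⟨0,[(1,0)]⟩,⟨3,[(37,
  2),(0,0),(1,3)]⟩⟩,[.o ⟨false,1,⟨23,[(8,1),(8,1),(4,3),(2,5),(11,4),(0,4),(3,1),(7,9)]⟩,⟨0,[(55,
  0)]⟩⟩,.o ⟨false,1,⟨1,[(22,0),(27,0),(2,0)]⟩,⟨2,[(0,0),(4,0),(17,0),(19,0)]⟩⟩,.a ⟨true,0,⟨0,[(40,
  0)]⟩,⟨1,[(39,0),(8,0),(0,0)]⟩⟩ ⟨true,0,⟨0,[]⟩,⟨0,[(59,0)]⟩⟩ ⟨false,1,⟨15,[(22,7),(14,0),(0,0),(0,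
  7),(2,3),(2,3),(4,1),(6,3)]⟩,⟨0,[(40,0),(14,0)]⟩⟩,.o ⟨false,0,⟨0,[(34,0),(5,0),(4,0)]⟩,⟨7,[(37,0),
  (0,0),(0,3),(10,1),(5,3)]⟩⟩]⟩) (.I [0,1,-1,-1,0,0,0,1,1] (.Q [0,0,0,-1,0,0,1,1,0,1,-1,-1] (.p
  false [0,0,1] [1,0,0,-1] (⟨0,[(50,0)]⟩,⟨0,[(49,0)]⟩) .k 2 (⟨1,[(40,0),(8,0),(0,0)]⟩,⟨0,[(41,0)]⟩)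
  .k (.r 0 ⟨1,[(5,0),(1,0),(19,0)]⟩ ⟨3,[(18,0),(17,1),(1,1),(6,0),(0,0)]⟩)) (.R ⟨1,false,false,true,
  [1,0,0,-1],[0,-1,1],[1,0,0,-1,0,0,0,0,-1],(⟨1,[(41,0),(8,0),(0,0)]⟩,⟨0,[(42,0)]⟩),(⟨0,[(30,0)]⟩,
  ⟨0,[(50,0),(3,0)]⟩),⟨3,[(13,0),(16,0),(10,1),(11,0)]⟩,.k,.k,(.r (-1) ⟨5,[(10,0),(0,0),(20,1),(6,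
  2)]⟩ ⟨0,[(8,0)]⟩),(.x (-1) ⟨3,[(17,1),(21,0),(0,0),(9,3),(1,0),(1,3),(3,0)]⟩ ⟨9,[(13,1),(4,5),(25,
  1),(2,0),(0,0)]⟩),.k,.k,⟨false,1,⟨7,[(11,1),(2,0),(1,0),(2,3),(19,3),(19,1)]⟩,⟨0,[(1,0),(55,0)]⟩⟩,
  ⟨true,0,⟨7,[(18,1),(22,3),(5,4),(0,0),(1,3),(3,1)]⟩,⟨0,[(36,0),(5,0)]⟩⟩,⟨false,1,⟨5,[(19,0),(4,1),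
  (2,0),(11,0),(0,0),(7,0),(10,1)]⟩,⟨0,[(57,0)]⟩⟩,⟨false,0,⟨3,[(5,1),(17,1),(3,0),(17,0)]⟩,⟨12,[(9,
  2),(2,0),(3,6),(5,1),(16,4),(2,12),(9,2),(4,3),(1,3)]⟩⟩,⟨true,0,⟨0,[]⟩,⟨0,[(61,0)]⟩⟩,⟨false,0,⟨0,
  [(4,0),(40,0)]⟩,⟨25,[(9,5),(2,1),(1,6),(1,6),(2,3),(19,9),(2,25),(9,5),(6,7)]⟩⟩,[.o ⟨false,0,⟨0,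
  [(35,0)]⟩,⟨7,[(7,1),(8,3),(22,0),(12,1),(4,1),(1,4)]⟩⟩,.a ⟨true,0,⟨0,[(23,0)]⟩,⟨0,[(31,0),(25,
  0)]⟩⟩ ⟨false,1,⟨14,[(9,6),(1,3),(2,3),(9,4),(1,0),(12,3),(19,0)]⟩,⟨0,[(7,0)]⟩⟩ ⟨true,0,⟨0,[(0,
  0)]⟩,⟨1,[(16,0),(25,1),(1,0),(2,0),(9,0)]⟩⟩,.e ⟨false,1,⟨1,[(24,0),(14,0),(15,0)]⟩,⟨0,[(6,0),(50,
  0)]⟩⟩ ⟨false,0,⟨0,[(0,0)]⟩,⟨7,[(7,1),(8,3),(22,0),(2,7),(9,1),(4,1),(1,4)]⟩⟩,.o ⟨false,0,⟨0,[(36,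
  0),(5,0),(4,0)]⟩,⟨7,[(39,0),(0,0),(0,3),(10,1),(5,3)]⟩⟩]⟩) (.R ⟨1,false,false,true,[1,0,0,-1],[0,
  -1,1],[1,0,0,-1,0,0,0,0,-1],(⟨1,[(41,0),(8,0),(0,0)]⟩,⟨0,[(42,0)]⟩),(⟨0,[(30,0)]⟩,⟨0,[(50,0),(3,
  0)]⟩),⟨3,[(13,0),(16,0),(10,1),(11,0)]⟩,.k,.k,(.r (-1) ⟨5,[(10,0),(0,0),(20,1),(6,2)]⟩ ⟨0,[(8,
  0)]⟩),(.x (-1) ⟨3,[(17,1),(21,0),(0,0),(9,3),(1,0),(1,3),(3,0)]⟩ ⟨9,[(13,1),(4,5),(25,1),(2,0),(0,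
  0)]⟩),.k,.k,⟨false,1,⟨7,[(11,1),(2,0),(1,0),(2,3),(19,3),(19,1)]⟩,⟨0,[(1,0),(55,0)]⟩⟩,⟨true,0,⟨7,
  [(18,1),(22,3),(5,4),(0,0),(1,3),(3,1)]⟩,⟨0,[(36,0),(5,0)]⟩⟩,⟨false,1,⟨5,[(19,0),(4,1),(2,0),(11,
  0),(0,0),(7,0),(10,1)]⟩,⟨0,[(57,0)]⟩⟩,⟨false,0,⟨3,[(5,1),(17,1),(3,0),(17,0)]⟩,⟨1,[(0,1),(38,0),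
  (19,0)]⟩⟩,⟨true,0,⟨0,[]⟩,⟨0,[(61,0)]⟩⟩,⟨false,0,⟨0,[(4,0),(40,0)]⟩,⟨19,[(0,11),(8,1),(0,3),(8,1),
  (4,1),(14,8),(2,7),(9,1),(6,6)]⟩⟩,[.o ⟨false,0,⟨0,[(35,0)]⟩,⟨7,[(7,1),(8,3),(22,0),(12,1),(4,1),
  (1,4)]⟩⟩,.e ⟨false,1,⟨14,[(9,6),(1,3),(2,3),(9,4),(1,0),(12,3),(19,0)]⟩,⟨0,[(7,0)]⟩⟩ ⟨false,1,⟨95,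
  [(20,35),(2,11),(3,11),(0,15),(3,3),(6,24),(0,24),(0,47),(17,5)]⟩,⟨0,[(0,0)]⟩⟩,.a ⟨true,0,⟨0,[(42,
  0)]⟩,⟨1,[(41,0),(8,0),(0,0)]⟩⟩ ⟨false,1,⟨1,[(24,0),(14,0),(15,0)]⟩,⟨0,[(6,0),(50,0)]⟩⟩ ⟨true,0,⟨3,
  [(23,1),(3,0),(13,1),(3,0),(15,1)]⟩,⟨0,[(0,0)]⟩⟩,.o ⟨false,0,⟨3,[(0,2),(26,0),(0,0),(13,0),(1,0),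
  (2,2),(7,0)]⟩,⟨7,[(39,0),(0,0),(0,3),(10,1),(5,3)]⟩⟩]⟩)) (.Q [0,0,0,0,0,-1,0,0,0,0,0,1] (.p true
  [0,0,0,1] [] (⟨0,[(41,0)]⟩,⟨1,[(40,0),(8,0),(0,0)]⟩) .k 0 (⟨0,[]⟩,⟨0,[]⟩) .k .k) (.Q [0,1,0,-1,0,
  0,0,0,0,-1,0,1] (.p true [0,0,0,1] [1] (⟨0,[(42,0)]⟩,⟨1,[(41,0),(8,0),(0,0)]⟩) .k 1 (⟨0,[]⟩,⟨0,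
  []⟩) .k .k) (.R ⟨1,false,false,true,[0,0,0,1],[1,-1],[0,1,0,0,0,0,0,0,1],(⟨0,[(43,0)]⟩,⟨1,[(42,0),
  (8,0),(0,0)]⟩),(⟨0,[(54,0)]⟩,⟨0,[(55,0)]⟩),⟨0,[(1,0)]⟩,.k,.k,(.r (-1) ⟨5,[(11,0),(0,0),(20,1),(7,
  2)]⟩ ⟨2,[(2,1),(7,0),(35,0),(2,0),(8,0),(3,1)]⟩),(.r 0 ⟨0,[(9,0)]⟩ ⟨5,[(11,0),(0,0),(20,1),(6,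
  2)]⟩),.k,.k,⟨false,0,⟨0,[(7,0),(50,0)]⟩,⟨5,[(11,0),(0,0),(20,1),(6,2)]⟩⟩,⟨true,0,⟨1,[(0,1),(8,0),
  (0,0),(12,0)]⟩,⟨1,[(42,0),(8,0),(0,0)]⟩⟩,⟨true,0,⟨0,[(62,0)]⟩,⟨0,[]⟩⟩,⟨false,1,⟨1,[(0,1),(39,0),
  (19,0)]⟩,⟨0,[(5,0),(52,0)]⟩⟩,⟨false,0,⟨0,[(58,0)]⟩,⟨5,[(20,0),(4,1),(2,0),(11,0),(0,0),(7,0),(10,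
  1)]⟩⟩,⟨false,1,⟨1,[(40,0),(2,1),(9,0)]⟩,⟨0,[(5,0)]⟩⟩,[.e ⟨true,0,⟨1,[(7,0),(0,0),(48,0)]⟩,⟨21,[(2,
  12),(7,8),(0,0),(12,0),(3,4),(20,3),(6,4)]⟩⟩ ⟨true,0,⟨0,[(0,0)]⟩,⟨4,[(2,1),(2,0),(3,2),(0,1),(31,
  1),(8,1),(0,1)]⟩⟩,.o ⟨false,1,⟨23,[(11,1),(8,1),(4,3),(2,5),(11,4),(0,4),(3,1),(7,9)]⟩,⟨0,[(58,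
  0)]⟩⟩,.a ⟨true,0,⟨1,[(42,0),(8,0),(0,0)]⟩,⟨0,[(43,0)]⟩⟩ ⟨false,0,⟨0,[(0,0),(2,0),(7,0),(2,1),(4,
  0),(9,0),(25,4),(2,4)]⟩,⟨1,[(40,0),(19,0)]⟩⟩ ⟨true,0,⟨0,[(0,0)]⟩,⟨1,[(42,0),(8,0),(0,0),(5,1)]⟩⟩,
  .o ⟨false,0,⟨1,[(42,0),(2,0),(2,0)]⟩,⟨1,[(43,1),(9,0),(5,0)]⟩⟩]⟩) (.R ⟨1,false,false,true,[0,0,0,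
  1],[1,-1],[0,1,0,0,0,0,0,0,1],(⟨0,[(43,0)]⟩,⟨2,[(0,0),(23,0),(17,0),(4,0)]⟩),(⟨0,[(54,0)]⟩,⟨0,
  [(55,0)]⟩),⟨0,[(1,0)]⟩,.k,.k,(.r (-1) ⟨5,[(11,0),(0,0),(20,1),(7,2)]⟩ ⟨2,[(2,1),(7,0),(35,0),(2,
  0),(8,0),(3,1)]⟩),(.r 0 ⟨0,[(9,0)]⟩ ⟨5,[(11,0),(0,0),(20,1),(6,2)]⟩),.k,.k,⟨false,0,⟨0,[(7,0),(50,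
  0)]⟩,⟨5,[(11,0),(0,0),(20,1),(6,2)]⟩⟩,⟨true,0,⟨0,[(37,0),(5,0),(4,0)]⟩,⟨2,[(0,0),(23,0),(17,0),(4,
  0)]⟩⟩,⟨true,0,⟨0,[(62,0)]⟩,⟨0,[]⟩⟩,⟨false,1,⟨55,[(10,3),(0,6),(8,4),(4,5),(2,14),(11,25),(2,55),
  (1,0),(7,23)]⟩,⟨0,[(0,0),(6,0)]⟩⟩,⟨false,0,⟨0,[(58,0)]⟩,⟨5,[(20,0),(4,1),(2,0),(11,0),(0,0),(7,0),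
  (10,1)]⟩⟩,⟨false,1,⟨1,[(40,0),(2,1),(9,0)]⟩,⟨0,[(5,0)]⟩⟩,[.a ⟨true,0,⟨0,[(57,0)]⟩,⟨0,[(0,0),(42,
  0)]⟩⟩ ⟨true,0,⟨1,[(7,0),(0,0),(48,0)]⟩,⟨21,[(2,12),(7,8),(0,0),(12,0),(3,4),(20,3),(6,4)]⟩⟩
  ⟨false,1,⟨3,[(22,0),(7,0),(2,0),(9,3),(9,1),(3,0),(4,1)]⟩,⟨0,[(0,0)]⟩⟩,.o ⟨false,1,⟨23,[(11,1),(8,
  1),(4,3),(2,5),(11,4),(0,4),(3,1),(7,9)]⟩,⟨0,[(58,0)]⟩⟩,.e ⟨false,0,⟨1,[(1,1),(1,1),(7,1),(2,1),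
  (4,0),(8,1),(0,0),(25,6),(2,10)]⟩,⟨1,[(40,0),(19,0)]⟩⟩ ⟨false,1,⟨23,[(11,1),(8,1),(4,3),(2,5),(11,
  4),(0,4),(1,23),(1,1),(7,9)]⟩,⟨0,[(0,0)]⟩⟩,.o ⟨false,0,⟨1,[(42,0),(2,0),(2,0)]⟩,⟨1,[(43,1),(9,0),
  (5,0)]⟩⟩]⟩)) (.Q [0,-1,0,1,0,0,0,0,0,1,0,-1] (.p false [0,0,0,1] [1] (⟨0,[(42,0)]⟩,⟨1,[(41,0),(8,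
  0),(0,0)]⟩) .k 1 (⟨0,[]⟩,⟨0,[]⟩) .k .k) (.R ⟨0,false,false,true,[0,0,0,1],[1,-1],[1,0,0,0,0,0,0,0,
  1],(⟨0,[(43,0)]⟩,⟨2,[(0,0),(23,0),(17,0),(4,0)]⟩),(⟨0,[(54,0)]⟩,⟨0,[(55,0)]⟩),⟨0,[(1,0)]⟩,.k,.k,
  (.r (-1) ⟨5,[(11,0),(0,0),(20,1),(7,2)]⟩ ⟨2,[(2,1),(7,0),(35,0),(2,0),(8,0),(3,1)]⟩),(.r 0 ⟨0,[(9,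
  0)]⟩ ⟨5,[(11,0),(0,0),(20,1),(6,2)]⟩),.k,.k,⟨false,0,⟨0,[(4,0),(38,0),(14,0)]⟩,⟨3,[(22,0),(7,0),
  (2,0),(6,1),(16,0),(4,1)]⟩⟩,⟨true,0,⟨0,[(37,0),(5,0),(4,0)]⟩,⟨2,[(0,0),(23,0),(17,0),(4,0)]⟩⟩,
  ⟨true,0,⟨0,[]⟩,⟨0,[(62,0)]⟩⟩,⟨false,1,⟨55,[(10,3),(0,6),(8,4),(4,5),(2,14),(11,25),(2,55),(1,0),
  (7,23)]⟩,⟨0,[(0,0),(6,0)]⟩⟩,⟨false,0,⟨0,[]⟩,⟨0,[]⟩⟩,⟨false,0,⟨0,[]⟩,⟨0,[]⟩⟩,[.a ⟨true,0,⟨0,[(57,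
  0)]⟩,⟨0,[(0,0),(42,0)]⟩⟩ ⟨true,0,⟨0,[(7,0)]⟩,⟨2,[(2,1),(7,0),(17,0),(20,0),(12,1)]⟩⟩ ⟨false,1,⟨3,
  [(22,0),(7,0),(2,0),(9,3),(9,1),(3,0),(4,1)]⟩,⟨0,[(0,0)]⟩⟩,.o ⟨false,1,⟨23,[(11,1),(8,1),(4,3),(2,
  5),(11,4),(0,4),(3,1),(7,9)]⟩,⟨0,[(58,0)]⟩⟩,.e ⟨false,0,⟨0,[(4,0),(38,0)]⟩,⟨3,[(40,2),(0,0)]⟩⟩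
  ⟨false,1,⟨23,[(11,1),(8,1),(4,3),(2,5),(11,4),(0,4),(1,23),(1,1),(7,9)]⟩,⟨0,[(0,0)]⟩⟩,.o ⟨false,0,
  ⟨1,[(42,0),(2,0),(2,0)]⟩,⟨1,[(43,1),(9,0),(5,0)]⟩⟩]⟩) (.R ⟨0,false,false,true,[0,0,0,1],[1,-1],[1,
  0,0,0,0,0,0,0,1],(⟨0,[(43,0)]⟩,⟨1,[(42,0),(8,0),(0,0)]⟩),(⟨0,[(54,0)]⟩,⟨0,[(55,0)]⟩),⟨0,[(1,0)]⟩,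
  .k,.k,(.r (-1) ⟨5,[(11,0),(0,0),(20,1),(7,2)]⟩ ⟨2,[(2,1),(7,0),(35,0),(2,0),(8,0),(3,1)]⟩),(.r 0
  ⟨0,[(9,0)]⟩ ⟨5,[(11,0),(0,0),(20,1),(6,2)]⟩),.k,.k,⟨false,0,⟨0,[(4,0),(38,0),(14,0)]⟩,⟨3,[(22,0),
  (7,0),(2,0),(6,1),(16,0),(4,1)]⟩⟩,⟨true,0,⟨1,[(0,1),(8,0),(0,0),(12,0)]⟩,⟨1,[(42,0),(8,0),(0,
  0)]⟩⟩,⟨true,0,⟨0,[]⟩,⟨0,[(62,0)]⟩⟩,⟨false,1,⟨1,[(0,1),(39,0),(19,0)]⟩,⟨0,[(5,0),(52,0)]⟩⟩,⟨false,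
  0,⟨0,[]⟩,⟨0,[]⟩⟩,⟨false,0,⟨0,[]⟩,⟨0,[]⟩⟩,[.e ⟨true,0,⟨0,[(7,0)]⟩,⟨2,[(2,1),(7,0),(17,0),(20,0),
  (12,1)]⟩⟩ ⟨true,0,⟨0,[(0,0)]⟩,⟨4,[(2,1),(2,0),(3,2),(0,1),(31,1),(8,1),(0,1)]⟩⟩,.o ⟨false,1,⟨23,
  [(11,1),(8,1),(4,3),(2,5),(11,4),(0,4),(3,1),(7,9)]⟩,⟨0,[(58,0)]⟩⟩,.a ⟨true,0,⟨1,[(42,0),(8,0),(0,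
  0)]⟩,⟨0,[(43,0)]⟩⟩ ⟨false,0,⟨0,[(4,0),(38,0)]⟩,⟨3,[(40,2),(0,0)]⟩⟩ ⟨true,0,⟨0,[(0,0)]⟩,⟨1,[(42,0),
  (8,0),(0,0),(5,1)]⟩⟩,.o ⟨false,0,⟨1,[(42,0),(2,0),(2,0)]⟩,⟨1,[(43,1),(9,0),(5,0)]⟩⟩]⟩)))))) (.R
  ⟨1,false,false,false,[1,0,0,-1],[0,0,0,1],[0,0,0,0,0,0,0,0,-1],(⟨1,[(37,0),(8,0),(0,0)]⟩,⟨0,[(38,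
  0)]⟩),(⟨0,[(38,0)]⟩,⟨1,[(37,0),(8,0),(0,0)]⟩),⟨3,[(9,0),(16,0),(10,1),(11,0)]⟩,.k,.k,(.r (-1) ⟨5,
  [(6,0),(0,0),(20,1),(6,2)]⟩ ⟨0,[(4,0)]⟩),.k,(.r (-1) ⟨7,[(0,3),(4,3),(0,2),(9,0),(0,2),(1,0),(15,
  3),(1,1)]⟩ ⟨0,[(2,0),(1,0)]⟩),.k,⟨false,1,⟨7,[(0,3),(4,3),(4,0),(1,0),(4,3),(17,3),(1,1)]⟩,⟨0,[(2,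
  1)]⟩⟩,⟨true,0,⟨0,[(37,0)]⟩,⟨0,[(32,0),(5,1),(4,0)]⟩⟩,⟨false,1,⟨3,[(35,0),(0,0),(18,1)]⟩,⟨0,[]⟩⟩,
  ⟨false,0,⟨0,[(1,0)]⟩,⟨1,[(0,1),(34,0),(2,1),(16,0)]⟩⟩,⟨true,0,⟨0,[(53,0)]⟩,⟨0,[(52,0)]⟩⟩,⟨false,0,
  ⟨0,[(1,0),(51,0)]⟩,⟨1,[(0,1),(19,0),(14,0),(2,1),(12,0)]⟩⟩,[.o ⟨false,0,⟨0,[(0,0),(0,0)]⟩,⟨3,[(0,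
  3),(34,0),(0,0),(18,1)]⟩⟩,.o ⟨false,1,⟨11,[(1,1),(34,3),(0,3),(10,2),(6,4)]⟩,⟨0,[(0,0)]⟩⟩,.a
  ⟨true,0,⟨0,[(38,0)]⟩,⟨1,[(37,0),(8,0),(0,0)]⟩⟩ ⟨false,1,⟨1,[(35,0),(19,0)]⟩,⟨0,[(2,0)]⟩⟩ ⟨true,0,
  ⟨4,[(1,1),(1,0),(33,2),(14,0)]⟩,⟨0,[(0,0),(37,0)]⟩⟩,.o ⟨false,0,⟨0,[(32,0),(5,0),(4,0)]⟩,⟨7,[(35,
  0),(0,0),(0,3),(10,1),(5,3)]⟩⟩]⟩)) (.I [0,0,0,1,0,0,0,0,-1] (.Q [0,0,0,0,0,0,0,0,-1,0,0,1] (.p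
  true [0,0,0,1] [] (⟨0,[(38,0)]⟩,⟨1,[(37,0),(8,0),(0,0)]⟩) .k 0 (⟨0,[]⟩,⟨0,[]⟩) .k .k) (.R ⟨2,
  false,false,false,[0,1],[1,0,0,-1],[0,1,1,1],(⟨0,[]⟩,⟨0,[]⟩),(⟨1,[(38,0),(8,0),(0,0)]⟩,⟨0,[(39,
  0)]⟩),⟨0,[]⟩,.k,.k,.k,(.r 0 ⟨0,[(5,0)]⟩ ⟨5,[(7,0),(0,0),(20,1),(6,2)]⟩),.k,.k,⟨false,0,⟨0,[(4,
  0)]⟩,⟨14,[(6,6),(1,3),(2,3),(9,4),(1,0),(12,3),(19,0)]⟩⟩,⟨true,0,⟨0,[(33,0),(5,0),(4,0)]⟩,⟨1,[(38,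
  0),(8,0),(0,0)]⟩⟩,⟨true,0,⟨0,[(58,0)]⟩,⟨0,[]⟩⟩,⟨false,1,⟨3,[(2,1),(18,1),(27,0),(2,1),(3,0)]⟩,⟨1,
  [(3,1),(34,0),(8,0),(0,0),(5,1)]⟩⟩,⟨false,0,⟨0,[(54,0)]⟩,⟨5,[(16,0),(4,1),(2,0),(11,0),(0,0),(7,
  0),(10,1)]⟩⟩,⟨false,1,⟨3,[(2,1),(46,0),(6,2)]⟩,⟨1,[(3,1),(34,0),(8,0),(0,0)]⟩⟩,[.a ⟨true,0,⟨0,[(0,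
  0)]⟩,⟨1,[(3,1),(34,0),(8,0),(0,0)]⟩⟩ ⟨false,0,⟨1,[(1,0),(2,0),(53,0)]⟩,⟨3,[(21,0),(1,0),(7,0),(24,
  0)]⟩⟩ ⟨true,0,⟨1,[(2,0),(30,0),(10,0),(7,0)]⟩,⟨1,[(3,1),(34,0),(8,0),(0,0)]⟩⟩,.o ⟨false,1,⟨3,[(2,
  1),(46,0),(6,2)]⟩,⟨1,[(3,1),(34,0),(1,0),(1,0)]⟩⟩,.o ⟨false,1,⟨3,[(36,0),(0,0),(17,1)]⟩,⟨0,[(33,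
  0),(10,0)]⟩⟩,.e ⟨false,0,⟨0,[(54,0)]⟩,⟨5,[(16,0),(4,1),(2,0),(11,0),(0,0),(7,0),(10,1)]⟩⟩ ⟨false,
  1,⟨3,[(2,1),(46,0),(6,2)]⟩,⟨1,[(3,1),(34,0),(8,0),(0,0)]⟩⟩]⟩) (.R ⟨2,true,false,false,[0,1],[0,0,
  0,1],[0,1,1,1],(⟨0,[]⟩,⟨0,[]⟩),(⟨0,[(39,0)]⟩,⟨1,[(38,0),(8,0),(0,0)]⟩),⟨0,[]⟩,.k,.k,.k,(.r 0 ⟨1,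
  [(1,1),(42,0),(0,0)]⟩ ⟨5,[(7,0),(0,0),(20,1),(7,2)]⟩),.k,.k,⟨false,0,⟨0,[(1,0),(56,0)]⟩,⟨8,[(3,6),
  (4,0),(2,0),(9,2),(1,1),(13,0),(18,1)]⟩⟩,⟨true,0,⟨1,[(38,0),(2,0),(2,0)]⟩,⟨0,[(39,0)]⟩⟩,⟨true,0,
  ⟨0,[(58,0)]⟩,⟨0,[]⟩⟩,⟨false,1,⟨5,[(0,1),(20,2),(15,1),(0,1),(10,0),(2,2)]⟩,⟨0,[(1,0),(37,0)]⟩⟩,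
  ⟨false,0,⟨0,[(54,0)]⟩,⟨5,[(16,0),(4,1),(2,0),(11,0),(0,0),(7,0),(10,1)]⟩⟩,⟨true,0,⟨0,[(0,0)]⟩,⟨5,
  [(1,0),(0,2),(1,0),(15,1),(22,1),(3,0),(0,0)]⟩⟩,[]⟩)) (.Q [0,0,0,0,0,-1,0,0,0,0,0,1] (.p true [0,
  0,0,1] [] (⟨0,[(38,0)]⟩,⟨1,[(37,0),(8,0),(0,0)]⟩) .k 0 (⟨0,[]⟩,⟨0,[]⟩) .k .k) (.R ⟨1,false,false,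
  false,[0,0,0,1],[1,-1],[1,0,0,-1,0,0,0,0,1],(⟨0,[(39,0)]⟩,⟨1,[(38,0),(8,0),(0,0)]⟩),(⟨0,[(50,0)]⟩,
  ⟨0,[(51,0)]⟩),⟨0,[(0,0)]⟩,.k,.k,(.r (-1) ⟨5,[(7,0),(0,0),(20,1),(7,2)]⟩ ⟨2,[(2,1),(2,1),(0,0),(12,
  0),(18,1)]⟩),(.r 0 ⟨0,[(5,0)]⟩ ⟨5,[(7,0),(0,0),(20,1),(6,2)]⟩),.k,.k,⟨false,0,⟨0,[(3,0)]⟩,⟨1,[(36,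
  0),(18,0)]⟩⟩,⟨true,0,⟨0,[(33,0),(5,0),(4,0)]⟩,⟨1,[(38,0),(8,0),(0,0)]⟩⟩,⟨false,1,⟨5,[(16,0),(4,1),
  (2,0),(11,0),(0,0),(7,0),(10,1)]⟩,⟨0,[(54,0)]⟩⟩,⟨false,1,⟨3,[(2,1),(18,1),(27,0),(2,1),(3,0)]⟩,⟨1,
  [(3,1),(34,0),(8,0),(0,0),(5,1)]⟩⟩,⟨true,0,⟨0,[]⟩,⟨0,[(58,0)]⟩⟩,⟨false,1,⟨3,[(2,1),(46,0),(6,2)]⟩,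
  ⟨1,[(3,1),(34,0),(8,0),(0,0)]⟩⟩,[.o ⟨false,1,⟨23,[(7,1),(8,1),(4,3),(2,5),(11,4),(0,4),(3,1),(7,
  9)]⟩,⟨0,[(54,0)]⟩⟩,.o ⟨false,1,⟨1,[(21,0),(27,0),(2,0)]⟩,⟨2,[(2,0),(1,1),(33,0),(15,0)]⟩⟩,.a
  ⟨true,0,⟨1,[(38,0),(8,0),(0,0)]⟩,⟨0,[(39,0)]⟩⟩ ⟨true,0,⟨0,[(1,0)]⟩,⟨2,[(2,1),(1,0),(33,1),(15,
  1)]⟩⟩ ⟨false,1,⟨3,[(1,3),(0,1),(46,0),(6,2)]⟩,⟨1,[(38,0),(8,0),(0,0),(5,1)]⟩⟩,.o ⟨false,0,⟨1,[(38,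
  0),(2,0),(2,0)]⟩,⟨9,[(2,1),(6,3),(4,1),(22,1),(1,5),(9,2),(6,0)]⟩⟩]⟩) (.R ⟨0,false,false,false,[0,
  0,0,1],[1,-1],[0,1],(⟨0,[(39,0)]⟩,⟨1,[(38,0),(8,0),(0,0)]⟩),(⟨0,[(50,0)]⟩,⟨0,[(51,0)]⟩),⟨0,[(0,
  0)]⟩,.k,.k,(.r (-1) ⟨5,[(7,0),(0,0),(20,1),(7,2)]⟩ ⟨2,[(2,1),(2,1),(0,0),(12,0),(18,1)]⟩),(.r 0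
  ⟨0,[(5,0)]⟩ ⟨5,[(7,0),(0,0),(20,1),(6,2)]⟩),.k,.k,⟨false,0,⟨2,[(2,0),(1,1),(33,0),(15,0)]⟩,⟨3,
  [(21,0),(1,0),(7,0),(24,0)]⟩⟩,⟨true,0,⟨0,[(33,0),(5,0),(4,0)]⟩,⟨1,[(38,0),(8,0),(0,0)]⟩⟩,⟨true,0,
  ⟨1,[(2,0),(35,0),(19,0)]⟩,⟨0,[(3,0)]⟩⟩,⟨false,1,⟨3,[(2,1),(18,1),(27,0),(2,1),(3,0)]⟩,⟨1,[(3,1),
  (34,0),(8,0),(0,0),(5,1)]⟩⟩,⟨false,0,⟨0,[]⟩,⟨0,[]⟩⟩,⟨false,0,⟨0,[]⟩,⟨0,[]⟩⟩,[.o ⟨false,1,⟨23,[(7,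
  1),(8,1),(4,3),(2,5),(11,4),(0,4),(3,1),(7,9)]⟩,⟨0,[(54,0)]⟩⟩,.o ⟨false,1,⟨1,[(21,0),(27,0),(2,
  0)]⟩,⟨2,[(2,0),(1,1),(33,0),(15,0)]⟩⟩,.a ⟨true,0,⟨1,[(38,0),(8,0),(0,0)]⟩,⟨0,[(39,0)]⟩⟩ ⟨true,0,
  ⟨0,[(58,0)]⟩,⟨0,[]⟩⟩ ⟨false,1,⟨3,[(1,3),(0,1),(46,0),(6,2)]⟩,⟨1,[(38,0),(8,0),(0,0),(5,1)]⟩⟩,.o
  ⟨false,0,⟨1,[(38,0),(2,0),(2,0)]⟩,⟨9,[(2,1),(6,3),(4,1),(22,1),(1,5),(9,2),(6,0)]⟩⟩]⟩))))) (.R ⟨1,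
  false,false,true,[1,0,0,-1],[1,-1],[1,0,0,-1,0,0,0,0,-1],(⟨1,[(34,0),(8,0),(0,0)]⟩,⟨0,[(35,0)]⟩),
  (⟨0,[(46,0)]⟩,⟨0,[(47,0)]⟩),⟨3,[(6,0),(16,0),(10,1),(11,0)]⟩,.k,.k,(.r (-1) ⟨5,[(3,0),(0,0),(20,
  1),(6,2)]⟩ ⟨0,[(1,0)]⟩),(.r 0 ⟨0,[(2,0),(12,0),(38,1)]⟩ ⟨5,[(3,0),(0,0),(20,1),(7,2)]⟩),.k,.k,
  ⟨false,0,⟨0,[(0,0),(49,0)]⟩,⟨1,[(33,0),(17,0),(2,1)]⟩⟩,⟨true,0,⟨1,[(34,0),(2,0),(2,0)]⟩,⟨0,[(35,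
  0)]⟩⟩,⟨false,1,⟨5,[(12,0),(4,1),(2,0),(11,0),(0,0),(7,0),(10,1)]⟩,⟨0,[(50,0)]⟩⟩,⟨false,1,⟨11,[(3,
  0),(8,0),(4,1),(2,2),(11,0),(0,6),(0,5),(2,0),(7,1)]⟩,⟨0,[(0,0),(34,0),(14,1)]⟩⟩,⟨true,0,⟨0,[]⟩,
  ⟨0,[(54,0)]⟩⟩,⟨false,1,⟨7,[(32,0),(0,4),(0,3),(10,1)]⟩,⟨0,[(0,0),(34,0),(14,0)]⟩⟩,[.e ⟨true,0,⟨0,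
  [(0,0),(53,0)]⟩,⟨0,[(1,0)]⟩⟩ ⟨true,0,⟨3,[(20,0),(1,1),(11,1),(3,0)]⟩,⟨1,[(1,0),(0,0),(12,0),(19,
  1)]⟩⟩,.o ⟨false,1,⟨23,[(3,1),(8,1),(4,3),(2,5),(11,4),(0,4),(3,1),(7,9)]⟩,⟨0,[(50,0)]⟩⟩,.a ⟨true,
  0,⟨0,[(35,0)]⟩,⟨1,[(34,0),(8,0),(0,0)]⟩⟩ ⟨false,0,⟨0,[(0,0)]⟩,⟨3,[(32,0),(0,2),(16,3)]⟩⟩ ⟨true,0,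
  ⟨3,[(20,0),(1,1),(11,1),(3,0)]⟩,⟨0,[(35,0),(14,0)]⟩⟩,.o ⟨false,0,⟨0,[(29,0),(5,0),(4,0)]⟩,⟨7,[(32,
  0),(0,0),(0,3),(10,1),(5,3)]⟩⟩]⟩)) (.Q [0,0,0,0,0,-1,0,0,0,0,0,1] (.p true [0,0,0,1] [] (⟨0,[(34,
  0)]⟩,⟨1,[(33,0),(8,0),(0,0)]⟩) .k 0 (⟨0,[]⟩,⟨0,[]⟩) .k .k) (.R ⟨1,false,false,true,[0,0,0,1],[0,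
  -1,1],[0,0,0,0,0,0,0,0,1],(⟨0,[(35,0)]⟩,⟨1,[(34,0),(8,0),(0,0)]⟩),(⟨0,[(23,0)]⟩,⟨0,[(43,0),(3,
  0)]⟩),⟨0,[(0,0)]⟩,.k,.k,(.r (-1) ⟨5,[(3,0),(0,0),(20,1),(7,2)]⟩ ⟨0,[(2,0),(12,0),(38,1)]⟩),(.r
  (-1) ⟨3,[(15,3),(16,0),(0,2),(20,3)]⟩ ⟨2,[(1,1),(0,0),(18,0),(32,0)]⟩),.k,.k,⟨false,1,⟨3,[(4,0),
  (4,0),(5,1),(17,1),(16,0),(1,0)]⟩,⟨2,[(1,1),(0,0),(18,0),(32,3)]⟩⟩,⟨true,0,⟨0,[(35,0),(4,0)]⟩,⟨1,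
  [(31,0),(2,0)]⟩⟩,⟨false,1,⟨3,[(32,0),(0,0),(18,1)]⟩,⟨0,[]⟩⟩,⟨false,0,⟨3,[(1,1),(0,1),(17,0),(14,
  3),(2,0),(1,1)]⟩,⟨1,[(18,1),(14,0),(18,0)]⟩⟩,⟨true,0,⟨0,[(50,0)]⟩,⟨0,[(49,0)]⟩⟩,⟨false,0,⟨1,[(1,
  0),(0,0),(32,1),(2,0),(1,0),(9,0)]⟩,⟨3,[(7,0),(1,0),(23,1),(0,1),(17,1)]⟩⟩,[.o ⟨false,0,⟨0,[(28,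
  0)]⟩,⟨7,[(9,3),(22,0),(0,0),(11,1),(4,3),(1,3)]⟩⟩,.e ⟨false,1,⟨1,[(4,0),(5,0),(1,0),(2,0),(5,0),
  (11,0)]⟩,⟨1,[(1,0),(0,0),(12,0),(38,3)]⟩⟩ ⟨false,1,⟨19,[(13,7),(6,3),(0,3),(10,2),(0,2),(1,19),(9,
  3),(6,1)]⟩,⟨0,[(18,0)]⟩⟩,.a ⟨true,0,⟨1,[(34,0),(8,0),(0,0)]⟩,⟨0,[(35,0)]⟩⟩ ⟨false,1,⟨1,[(33,0),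
  (18,0)]⟩,⟨1,[(1,0),(0,0),(12,0),(38,1)]⟩⟩ ⟨true,0,⟨1,[(20,0),(14,1),(2,0)]⟩,⟨0,[(18,0)]⟩⟩,.o
  ⟨false,0,⟨1,[(34,0),(2,0),(2,0)]⟩,⟨1,[(35,1),(9,0),(5,0)]⟩⟩]⟩) (.R ⟨0,false,false,true,[0,0,0,1],
  [1,0,-1],[0,1,0,-1,0,0,0,0,1],(⟨0,[(35,0)]⟩,⟨1,[(34,0),(8,0),(0,0)]⟩),(⟨0,[(43,0)]⟩,⟨0,[(44,0)]⟩),
  ⟨0,[(0,0)]⟩,.k,.k,(.r (-1) ⟨5,[(3,0),(0,0),(20,1),(7,2)]⟩ ⟨0,[(2,0),(12,0),(38,1)]⟩),.k,.k,.k,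
  ⟨false,1,⟨11,[(21,3),(3,3),(6,0),(0,6)]⟩,⟨0,[(1,0),(13,0),(34,0),(3,0)]⟩⟩,⟨true,0,⟨0,[(29,0),(5,
  0)]⟩,⟨7,[(11,1),(22,3),(5,4),(0,0),(1,3),(3,1)]⟩⟩,⟨true,0,⟨0,[(49,0)]⟩,⟨0,[(50,0)]⟩⟩,⟨false,0,⟨1,
  [(1,0),(0,0),(6,0),(25,1),(0,0),(3,0)]⟩,⟨1,[(4,0),(28,0),(0,0),(7,1),(5,1)]⟩⟩,⟨false,0,⟨0,[]⟩,⟨0,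
  []⟩⟩,⟨false,0,⟨0,[]⟩,⟨0,[]⟩⟩,[.o ⟨false,0,⟨0,[(36,0)]⟩,⟨0,[(38,0),(13,0)]⟩⟩,.e ⟨false,1,⟨5,[(3,0),
  (0,0),(20,1),(7,2)]⟩,⟨1,[(1,0),(0,0),(12,0),(34,1),(3,1)]⟩⟩ ⟨false,1,⟨15,[(9,7),(15,3),(4,3),(1,
  0),(0,0),(1,15),(9,3),(5,1)]⟩,⟨4,[(0,4),(5,1),(4,0),(4,2),(4,0),(28,3)]⟩⟩,.a ⟨true,0,⟨1,[(34,0),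
  (8,0),(0,0)]⟩,⟨0,[(35,0)]⟩⟩ ⟨false,1,⟨15,[(3,1),(8,0),(3,1),(0,1),(2,2),(11,2),(0,10),(7,0)]⟩,⟨1,
  [(1,0),(0,0),(12,0),(34,1)]⟩⟩ ⟨true,0,⟨0,[(35,0),(0,0)]⟩,⟨4,[(0,4),(5,1),(4,0),(4,2),(4,0),(28,
  3)]⟩⟩,.o ⟨false,0,⟨1,[(34,0),(2,0),(2,0)]⟩,⟨1,[(35,1),(9,0),(5,0)]⟩⟩]⟩))))) (.Q [0,0,0,2,0,0,2,2,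
  0,1,-2] (.p false [0,0,1] [1,0,-1] (⟨0,[(40,0)]⟩,⟨0,[(39,0)]⟩) .k 2 (⟨0,[(39,0)]⟩,⟨0,[(40,0)]⟩)
  .k (.r 0 ⟨0,[(38,1)]⟩ ⟨1,[(8,0),(17,1),(8,0),(0,0)]⟩)) (.R ⟨1,false,false,false,[1,0,-1],[0,1,1],
  [0,1],(⟨0,[(40,0)]⟩,⟨0,[(41,0)]⟩),(⟨0,[(41,0),(2,0)]⟩,⟨0,[(23,0)]⟩),⟨0,[(23,0)]⟩,.k,.k,.k,(.r
  (-1) ⟨0,[(9,0),(1,0),(7,0)]⟩ ⟨2,[(0,1),(0,1),(16,0),(10,0),(0,0)]⟩),(.r (-2) ⟨0,[(2,1),(0,5),(0,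
  5),(3,2),(3,3),(4,3),(0,4),(25,14),(2,12)]⟩ ⟨0,[(0,0),(0,0)]⟩),.k,⟨false,1,⟨0,[(11,0),(7,0)]⟩,⟨1,
  [(0,0),(0,0),(47,0)]⟩⟩,⟨true,1,⟨0,[(11,0),(25,0)]⟩,⟨0,[(1,0)]⟩⟩,⟨false,0,⟨0,[(39,0)]⟩,⟨7,[(9,3),
  (17,3),(1,0),(0,0),(18,1)]⟩⟩,⟨false,1,⟨4,[(0,3),(12,0),(3,0),(11,0),(0,0),(18,2)]⟩,⟨0,[(4,0)]⟩⟩,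
  ⟨false,0,⟨1,[(0,0),(27,0)]⟩,⟨5,[(9,3),(4,1),(9,1),(4,0),(0,0)]⟩⟩,⟨true,0,⟨0,[(0,0)]⟩,⟨0,[(4,0),
  (41,0)]⟩⟩,[.a ⟨true,0,⟨1,[(0,0),(39,0),(0,0)]⟩,⟨1,[(4,0),(8,0),(7,0)]⟩⟩ ⟨true,0,⟨0,[(51,0)]⟩,⟨0,
  [(45,0)]⟩⟩ ⟨false,1,⟨23,[(0,11),(10,15),(17,2),(0,2),(6,7),(4,1)]⟩,⟨4,[(1,0),(2,2),(17,0),(5,
  0)]⟩⟩,.o ⟨false,1,⟨7,[(0,3),(28,0),(0,0),(11,1),(6,3)]⟩,⟨0,[(19,0)]⟩⟩,.o ⟨false,0,⟨0,[(26,0)]⟩,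
  ⟨11,[(11,3),(17,2),(0,2),(6,7),(4,1)]⟩⟩,.o ⟨false,0,⟨0,[(34,0)]⟩,⟨2,[(11,1),(25,0),(4,0)]⟩⟩]⟩)
  (.I [0,0,-1,-1,0,0,0,0,-1] (.R ⟨1,false,false,true,[1,0,0,-1],[1,0,-1],[0,1,0,0,0,0,0,0,-1],(⟨1,
  [(32,0),(8,0),(0,0)]⟩,⟨0,[(33,0)]⟩),(⟨0,[(41,0)]⟩,⟨0,[(42,0)]⟩),⟨3,[(4,0),(16,0),(10,1),(11,0)]⟩,
  .k,.k,(.r 0 ⟨0,[(0,0)]⟩ ⟨3,[(30,0),(0,2),(6,1),(0,1),(8,3)]⟩),.k,(.r 0 ⟨0,[(0,0),(39,0)]⟩ ⟨3,[(13,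
  3),(16,0),(0,2),(20,3)]⟩),.k,⟨false,0,⟨0,[(0,0),(39,0),(7,0)]⟩,⟨3,[(10,0),(17,1),(2,1),(5,0),(0,
  0)]⟩⟩,⟨true,0,⟨1,[(29,0),(2,0)]⟩,⟨0,[(33,0),(4,0)]⟩⟩,⟨true,0,⟨0,[(52,0)]⟩,⟨0,[]⟩⟩,⟨false,1,⟨3,[(5,
  0),(1,0),(22,0),(0,2),(0,1)]⟩,⟨0,[(0,0),(12,0),(5,0),(13,0),(4,0),(9,0)]⟩⟩,⟨false,0,⟨0,[(48,0)]⟩,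
  ⟨5,[(10,0),(4,1),(2,0),(11,0),(0,0),(7,0),(10,1)]⟩⟩,⟨false,1,⟨3,[(16,3),(13,0),(0,2)]⟩,⟨0,[(0,0),
  (12,0),(5,0),(13,0),(4,0)]⟩⟩,[.o ⟨false,0,⟨0,[(34,0)]⟩,⟨0,[(36,0),(13,0)]⟩⟩,.a ⟨true,0,⟨0,[(22,
  0)]⟩,⟨0,[(14,0),(33,0)]⟩⟩ ⟨false,0,⟨0,[(0,0),(47,0)]⟩,⟨3,[(30,0),(0,2)]⟩⟩ ⟨true,0,⟨3,[(5,0),(1,0),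
  (24,1)]⟩,⟨0,[(33,0),(4,0),(1,0)]⟩⟩,.e ⟨false,0,⟨10,[(0,6),(1,1),(6,0),(20,1),(7,1),(2,1),(3,0),(2,
  6)]⟩,⟨1,[(31,0),(18,0)]⟩⟩ ⟨false,0,⟨3,[(5,0),(1,0),(24,1)]⟩,⟨0,[(33,0),(2,0),(13,0)]⟩⟩,.o ⟨false,
  0,⟨0,[(27,0),(5,0),(4,0)]⟩,⟨7,[(30,0),(0,0),(0,3),(10,1),(5,3)]⟩⟩]⟩) (.I [0,0,1,1,0,0,0,-1,-1]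
  (.I [0,1,0,1,0,0,0,-1,1] (.R ⟨1,false,false,true,[1,0,0,-1],[1,0,-1],[1,0,0,-1,0,0,0,0,-1],(⟨1,
  [(34,0),(8,0),(0,0)]⟩,⟨0,[(35,0)]⟩),(⟨0,[(43,0)]⟩,⟨0,[(44,0)]⟩),⟨3,[(6,0),(16,0),(10,1),(11,0)]⟩,
  .k,.k,(.r (-1) ⟨15,[(3,2),(1,0),(7,1),(0,0),(10,3),(6,7)]⟩ ⟨0,[(0,0),(2,1),(2,1),(4,0),(3,2),(4,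
  1),(0,2),(25,4),(2,7)]⟩),.k,(.r (-1) ⟨11,[(21,3),(3,3),(6,6),(0,0)]⟩ ⟨1,[(0,0),(1,0),(9,0)]⟩),.k,
  ⟨false,1,⟨1,[(12,0),(6,0),(1,0),(10,0)]⟩,⟨0,[(0,0)]⟩⟩,⟨true,0,⟨1,[(31,0),(2,0)]⟩,⟨0,[(35,0),(4,
  0)]⟩⟩,⟨false,1,⟨5,[(12,0),(4,1),(2,0),(11,0),(0,0),(7,0),(10,1)]⟩,⟨0,[(50,0)]⟩⟩,⟨false,0,⟨5,[(0,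
  5),(2,0),(6,1),(1,5),(8,3),(12,2)]⟩,⟨3,[(5,0),(9,1),(5,2),(10,1),(2,3),(4,2),(9,0),(1,0)]⟩⟩,⟨true,
  0,⟨0,[]⟩,⟨0,[(54,0)]⟩⟩,⟨false,0,⟨1,[(0,1),(9,0),(1,0),(2,0),(5,0),(12,0)]⟩,⟨1,[(12,0),(6,0),(1,0),
  (10,0),(2,1),(4,1)]⟩⟩,[.o ⟨false,0,⟨0,[(36,0)]⟩,⟨0,[(38,0),(13,0)]⟩⟩,.a ⟨true,0,⟨0,[(24,0)]⟩,⟨0,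
  [(16,0),(33,0)]⟩⟩ ⟨false,1,⟨7,[(1,5),(1,1),(8,2),(0,1),(5,4),(1,2),(10,0)]⟩,⟨0,[(0,0),(41,0)]⟩⟩
  ⟨true,0,⟨3,[(7,0),(1,0),(24,1)]⟩,⟨0,[(35,0),(4,0),(1,0)]⟩⟩,.e ⟨false,1,⟨1,[(17,0),(14,0),(15,0)]⟩,
  ⟨0,[(0,0),(14,0),(5,0)]⟩⟩ ⟨false,0,⟨3,[(7,0),(1,0),(24,1)]⟩,⟨0,[(35,0),(2,0),(13,0)]⟩⟩,.o ⟨false,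
  0,⟨0,[(29,0),(5,0),(4,0)]⟩,⟨7,[(32,0),(0,0),(0,3),(10,1),(5,3)]⟩⟩]⟩) (.Q [0,0,0,0,0,-1,0,0,0,0,0,
  1] (.p true [0,0,0,1] [] (⟨0,[(35,0)]⟩,⟨1,[(34,0),(8,0),(0,0)]⟩) .k 0 (⟨0,[]⟩,⟨0,[]⟩) .k .k) (.I
  [0,-1,0,1,0,0,0,0,-1] (.Q [0,-1,0,-1,0,0,1,1,-1,0,-1,1] (.p false [0,0,1] [0,0,0,1] (⟨0,[(46,0)]⟩,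
  ⟨0,[(45,0)]⟩) .k 2 (⟨0,[(37,0)]⟩,⟨1,[(36,0),(8,0),(0,0)]⟩) .k (.r 0 ⟨6,[(0,3),(1,0),(3,0),(11,0),
  (4,1),(10,0),(5,0),(15,3)]⟩ ⟨3,[(14,0),(17,1),(2,1),(5,0),(0,0)]⟩)) (.I [0,0,2,2,-1,0,0,1,-1] (.R
  ⟨1,false,false,true,[0,0,0,1],[0,1,1],[1,1,0,-1,0,0,0,0,1],(⟨0,[(39,0)]⟩,⟨1,[(38,0),(8,0),(0,
  0)]⟩),(⟨0,[(48,0),(2,0)]⟩,⟨0,[(30,0)]⟩),⟨0,[(3,0)]⟩,.k,.k,(.r (-1) ⟨15,[(7,2),(1,0),(7,1),(0,0),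
  (10,3),(7,7)]⟩ ⟨6,[(0,1),(4,1),(0,0),(29,1)]⟩),(.r (-1) ⟨3,[(6,3),(0,2),(1,0),(7,1),(0,0)]⟩ ⟨4,
  [(0,2),(24,0),(10,1),(0,0)]⟩),(.r (-2) ⟨15,[(7,2),(1,0),(7,1),(0,0),(10,3),(1,15),(5,7)]⟩ ⟨0,[(0,
  0)]⟩),.k,⟨true,1,⟨0,[(6,0),(0,0),(9,0)]⟩,⟨0,[(0,0)]⟩⟩,⟨false,1,⟨0,[(9,0),(29,0)]⟩,⟨3,[(8,1),(27,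
  0),(0,0),(0,1)]⟩⟩,⟨true,0,⟨0,[(53,0)]⟩,⟨0,[(54,0)]⟩⟩,⟨false,0,⟨2,[(0,1),(0,0),(7,1),(29,1),(18,
  0)]⟩,⟨1,[(7,0),(29,0),(0,0),(17,0)]⟩⟩,⟨false,0,⟨0,[]⟩,⟨3,[(36,0),(0,0),(18,1)]⟩⟩,⟨false,0,⟨0,[(0,
  0),(8,0),(29,0)]⟩,⟨5,[(7,1),(0,0),(7,1),(4,3),(15,2),(0,2)]⟩⟩,[.o ⟨false,0,⟨0,[(42,0),(11,0)]⟩,⟨7,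
  [(7,3),(28,0),(0,0),(11,1),(6,3)]⟩⟩,.e ⟨false,1,⟨15,[(7,2),(1,0),(7,1),(0,0),(10,3),(7,7)]⟩,⟨0,
  [(2,0),(55,0)]⟩⟩ ⟨false,1,⟨9,[(0,5),(8,3),(8,5),(6,1),(11,2),(1,9),(9,2)]⟩,⟨1,[(7,0),(30,0)]⟩⟩,.a
  ⟨true,0,⟨1,[(38,0),(8,0),(0,0)]⟩,⟨0,[(39,0)]⟩⟩ ⟨false,1,⟨15,[(7,1),(8,0),(3,1),(0,1),(2,2),(11,2),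
  (0,10),(7,0)]⟩,⟨0,[(2,0)]⟩⟩ ⟨true,0,⟨0,[(39,0),(2,0),(11,0)]⟩,⟨1,[(7,0),(30,0)]⟩⟩,.o ⟨false,0,⟨1,
  [(38,0),(2,0),(2,0)]⟩,⟨1,[(39,1),(9,0),(5,0)]⟩⟩]⟩) (.R ⟨1,false,false,true,[1,0,0,-1],[1,-1],[0,0,
  0,0,0,0,0,0,-1],(⟨1,[(38,0),(8,0),(0,0)]⟩,⟨0,[(39,0)]⟩),(⟨0,[(50,0)]⟩,⟨0,[(51,0)]⟩),⟨3,[(10,0),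
  (16,0),(10,1),(11,0)]⟩,.k,.k,(.r (-1) ⟨15,[(7,2),(1,0),(7,1),(0,0),(10,3),(6,7)]⟩ ⟨1,[(0,1),(7,1),
  (1,1),(4,0),(3,1),(4,1),(0,0),(25,4),(2,8)]⟩),(.r 0 ⟨0,[(5,0),(40,0)]⟩ ⟨6,[(0,0),(28,1),(1,0),(5,
  2)]⟩),.k,.k,⟨false,0,⟨0,[(2,0)]⟩,⟨3,[(18,0),(7,0),(2,0),(7,1),(15,0),(4,1)]⟩⟩,⟨true,0,⟨1,[(38,0),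
  (2,0),(2,0)]⟩,⟨0,[(39,0)]⟩⟩,⟨false,1,⟨3,[(36,0),(0,0),(18,1)]⟩,⟨0,[]⟩⟩,⟨false,1,⟨11,[(7,0),(8,0),
  (4,1),(2,2),(11,0),(0,6),(0,5),(2,0),(7,1)]⟩,⟨0,[(2,0),(36,0)]⟩⟩,⟨true,0,⟨0,[(54,0)]⟩,⟨0,[(53,
  0)]⟩⟩,⟨false,1,⟨7,[(36,0),(0,4),(0,3),(10,1)]⟩,⟨1,[(1,0),(0,0),(25,0),(10,0)]⟩⟩,[.e ⟨true,0,⟨0,
  [(2,0),(50,0)]⟩,⟨5,[(0,0),(5,4),(1,0),(7,0),(3,0),(3,0)]⟩⟩ ⟨true,0,⟨3,[(24,0),(1,1),(11,1),(3,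
  0)]⟩,⟨1,[(2,0),(3,0),(32,1),(12,0)]⟩⟩,.o ⟨false,1,⟨23,[(7,1),(8,1),(4,3),(2,5),(11,4),(0,4),(3,1),
  (7,9)]⟩,⟨0,[(54,0)]⟩⟩,.a ⟨true,0,⟨0,[(39,0)]⟩,⟨1,[(38,0),(8,0),(0,0)]⟩⟩ ⟨false,0,⟨5,[(1,1),(0,3),
  (4,0),(30,0)]⟩,⟨3,[(36,0),(0,2)]⟩⟩ ⟨true,0,⟨3,[(24,0),(1,1),(11,1),(3,0)]⟩,⟨0,[(39,0),(14,0)]⟩⟩,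
  .o ⟨false,0,⟨0,[(33,0),(5,0),(4,0)]⟩,⟨7,[(36,0),(0,0),(0,3),(10,1),(5,3)]⟩⟩]⟩)) (.Q [0,-1,0,0,0,0,
  0,0,-1,0,0,1] (.p true [0,0,0,1] [] (⟨0,[(38,0)]⟩,⟨1,[(37,0),(8,0),(0,0)]⟩) .k 0 (⟨0,[]⟩,⟨0,[]⟩)
  .k .k) (.K ⟨1,[1,0,0,-1],0,0,(⟨1,[(38,0),(8,0),(0,0)]⟩,⟨0,[(39,0)]⟩),.k,(.r (-1) ⟨15,[(7,2),(1,0),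
  (7,1),(0,0),(10,3),(6,7)]⟩ ⟨0,[(1,0),(1,0),(15,1),(4,0),(0,0),(25,0),(2,0)]⟩),(.r 0 ⟨0,[(5,0),(40,
  0)]⟩ ⟨15,[(7,2),(1,0),(7,1),(0,0),(10,3),(7,7)]⟩),.k,.k,[⟨7,[(5,1),(0,1),(9,0),(3,3),(17,3),(4,0),
  (1,2)]⟩,⟨0,[(33,0),(5,0),(4,0)]⟩,⟨0,[(1,0),(18,0)]⟩,⟨0,[(0,0)]⟩]⟩) (.R ⟨2,true,false,true,[0,1],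
  [0,0,0,1],[1,1,1],(⟨0,[]⟩,⟨0,[]⟩),(⟨0,[(39,0)]⟩,⟨1,[(38,0),(8,0),(0,0)]⟩),⟨0,[]⟩,.k,.k,.k,(.r 0
  ⟨0,[(5,0),(40,0)]⟩ ⟨15,[(7,2),(1,0),(7,1),(0,0),(10,3),(7,7)]⟩),.k,.k,⟨false,0,⟨0,[(2,0),(50,0)]⟩,
  ⟨1,[(37,0),(17,0)]⟩⟩,⟨true,0,⟨1,[(38,0),(2,0),(2,0)]⟩,⟨0,[(39,0)]⟩⟩,⟨true,0,⟨0,[(53,0)]⟩,⟨0,[(54,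
  0)]⟩⟩,⟨false,1,⟨11,[(7,0),(8,0),(4,1),(2,2),(11,0),(0,6),(0,5),(2,0),(7,1)]⟩,⟨0,[(2,0),(36,0)]⟩⟩,
  ⟨false,0,⟨0,[]⟩,⟨3,[(36,0),(0,0),(18,1)]⟩⟩,⟨true,0,⟨0,[(0,0)]⟩,⟨0,[(2,0),(36,0),(13,0)]⟩⟩,[]⟩)))
  (.I [0,0,0,0,0,0,0,0,-1] (.R ⟨1,false,false,false,[1,0,0,-1],[1,-1],[0,0,0,0,0,0,0,0,-1],(⟨1,[(37,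
  0),(8,0),(0,0)]⟩,⟨0,[(38,0)]⟩),(⟨0,[(49,0)]⟩,⟨0,[(50,0)]⟩),⟨3,[(9,0),(16,0),(10,1),(11,0)]⟩,.k,.k,
  (.r (-1) ⟨15,[(6,2),(1,0),(7,1),(0,0),(10,3),(6,7)]⟩ ⟨1,[(1,1),(4,1),(2,1),(4,0),(3,3),(4,1),(0,
  2),(25,4),(2,10)]⟩),(.r 0 ⟨0,[(4,0),(40,0)]⟩ ⟨15,[(6,2),(1,0),(7,1),(0,0),(10,3),(7,7)]⟩),.k,.k,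
  ⟨false,0,⟨0,[(0,0),(52,0)]⟩,⟨15,[(6,2),(1,0),(7,1),(0,0),(10,3),(7,7)]⟩⟩,⟨true,0,⟨1,[(37,0),(2,0),
  (2,0)]⟩,⟨0,[(38,0)]⟩⟩,⟨false,1,⟨3,[(35,0),(0,0),(18,1)]⟩,⟨0,[]⟩⟩,⟨false,1,⟨11,[(1,1),(13,9),(4,1),
  (1,1),(1,3),(11,4),(0,5),(10,2)]⟩,⟨0,[(0,0),(37,0),(14,0)]⟩⟩,⟨true,0,⟨0,[(53,0)]⟩,⟨0,[(52,0)]⟩⟩,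
  ⟨false,1,⟨3,[(5,1),(9,1),(6,1),(13,0),(0,1),(10,0)]⟩,⟨0,[(0,0),(37,0)]⟩⟩,[.o ⟨false,1,⟨23,[(6,1),
  (8,1),(4,3),(2,5),(11,4),(0,4),(3,1),(7,9)]⟩,⟨0,[(53,0)]⟩⟩,.o ⟨false,1,⟨1,[(20,0),(27,0),(2,0)]⟩,
  ⟨0,[(53,0),(3,0)]⟩⟩,.a ⟨true,0,⟨0,[(38,0)]⟩,⟨1,[(37,0),(8,0),(0,0)]⟩⟩ ⟨true,0,⟨0,[(0,0)]⟩,⟨0,[(1,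
  0),(51,0)]⟩⟩ ⟨false,1,⟨15,[(20,7),(14,0),(0,0),(0,7),(2,3),(2,3),(4,1),(6,3)]⟩,⟨0,[(38,0),(14,
  0)]⟩⟩,.o ⟨false,0,⟨0,[(32,0),(5,0),(4,0)]⟩,⟨7,[(35,0),(0,0),(0,3),(10,1),(5,3)]⟩⟩]⟩) (.Q [0,0,0,0,
  0,0,0,0,-1,0,0,1] (.p true [0,0,0,1] [] (⟨0,[(38,0)]⟩,⟨1,[(37,0),(8,0),(0,0)]⟩) .k 0 (⟨0,[]⟩,⟨0,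
  []⟩) .k .k) (.R ⟨2,false,false,false,[0,1],[1,0,0,-1],[1,1,1],(⟨0,[]⟩,⟨0,[]⟩),(⟨1,[(38,0),(8,0),
  (0,0)]⟩,⟨0,[(39,0)]⟩),⟨0,[]⟩,.k,.k,.k,(.r 0 ⟨0,[(1,0),(5,1),(2,1),(4,0),(3,1),(4,1),(0,1),(25,4),
  (2,8)]⟩ ⟨15,[(7,2),(1,0),(7,1),(0,0),(10,3),(6,7)]⟩),.k,.k,⟨false,0,⟨0,[(1,0),(56,0)]⟩,⟨5,[(4,1),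
  (4,0),(3,0),(4,0),(0,1),(3,1),(12,1),(17,0)]⟩⟩,⟨true,0,⟨0,[(33,0),(5,0),(4,0)]⟩,⟨1,[(38,0),(8,0),
  (0,0)]⟩⟩,⟨true,0,⟨0,[(53,0)]⟩,⟨0,[(54,0)]⟩⟩,⟨false,1,⟨14,[(0,13),(3,0),(3,0),(7,2),(4,4),(2,1),
  (14,0),(9,6),(6,3)]⟩,⟨1,[(1,1),(36,0),(8,0),(0,0),(5,1)]⟩⟩,⟨false,0,⟨0,[]⟩,⟨3,[(36,0),(0,0),(18,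
  1)]⟩⟩,⟨false,1,⟨1,[(0,1),(48,0),(6,0)]⟩,⟨1,[(1,1),(36,0),(8,0),(0,0)]⟩⟩,[.a ⟨true,0,⟨0,[(0,0)]⟩,
  ⟨1,[(1,1),(36,0),(8,0),(0,0)]⟩⟩ ⟨false,0,⟨0,[(58,0)]⟩,⟨1,[(55,0),(0,0)]⟩⟩ ⟨true,0,⟨0,[(0,0),(32,
  0),(10,0)]⟩,⟨1,[(1,1),(36,0),(8,0),(0,0)]⟩⟩,.o ⟨false,1,⟨1,[(0,1),(48,0),(6,0)]⟩,⟨1,[(1,1),(36,0),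
  (1,0),(1,0)]⟩⟩,.o ⟨false,1,⟨3,[(36,0),(0,0),(17,1)]⟩,⟨0,[(33,0),(10,0)]⟩⟩,.e ⟨false,0,⟨0,[]⟩,⟨3,
  [(36,0),(0,0),(18,1)]⟩⟩ ⟨false,1,⟨1,[(0,1),(48,0),(6,0)]⟩,⟨1,[(1,1),(36,0),(8,0),(0,0)]⟩⟩]⟩) (.I
  [1,0,2,1,-1,0,0,1,1] (.Q [0,0,0,1,0,0,1,1,0,1,-1,-1] (.p false [0,0,1] [1,0,0,-1] (⟨0,[(49,0)]⟩,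
  ⟨0,[(48,0)]⟩) .k 2 (⟨1,[(39,0),(8,0),(0,0)]⟩,⟨0,[(40,0)]⟩) .k (.r 0 ⟨14,[(0,4),(1,3),(7,0),(4,0),
  (3,0),(6,4),(11,2)]⟩ ⟨7,[(6,3),(25,3),(4,2),(0,0)]⟩)) (.R ⟨1,false,false,true,[1,0,0,-1],[0,1,1],
  [0,0,0,0,0,0,0,0,-1],(⟨1,[(40,0),(8,0),(0,0)]⟩,⟨0,[(41,0)]⟩),(⟨0,[(50,0),(2,0)]⟩,⟨0,[(32,0)]⟩),⟨3,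
  [(12,0),(16,0),(10,1),(11,0)]⟩,.k,.k,(.r (-1) ⟨15,[(9,2),(1,0),(7,1),(0,0),(10,3),(6,7)]⟩ ⟨1,[(1,
  5),(4,3),(2,9),(1,5),(0,9),(4,4),(8,3),(0,2),(25,24),(2,30)]⟩),(.r (-1) ⟨5,[(7,1),(1,2),(1,0),(7,
  1),(0,0),(17,1)]⟩ ⟨0,[(8,0),(39,0)]⟩),(.r (-2) ⟨15,[(9,2),(1,0),(7,1),(0,0),(10,3),(1,15),(4,7)]⟩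
  ⟨0,[(1,0),(54,0)]⟩),.k,⟨true,1,⟨11,[(6,5),(0,1),(1,2),(1,4),(1,1),(4,5),(1,4),(17,1)]⟩,⟨0,[(1,0),
  (58,0)]⟩⟩,⟨false,1,⟨1,[(11,0),(8,0),(19,0)]⟩,⟨0,[(41,0),(1,0)]⟩⟩,⟨false,1,⟨3,[(38,0),(0,0),(18,
  1)]⟩,⟨0,[]⟩⟩,⟨false,0,⟨0,[(0,0),(2,0)]⟩,⟨12,[(6,2),(2,2),(1,0),(1,3),(4,1),(19,4),(2,12),(9,2),(6,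
  3)]⟩⟩,⟨true,0,⟨0,[(56,0)]⟩,⟨0,[(55,0)]⟩⟩,⟨false,0,⟨2,[(0,2),(0,1),(1,0),(7,0),(3,0),(4,0)]⟩,⟨23,
  [(6,5),(2,10),(0,0),(7,7),(4,9),(14,8),(2,23),(9,5)]⟩⟩,[.o ⟨false,0,⟨0,[(44,0),(11,0)]⟩,⟨7,[(9,3),
  (28,0),(0,0),(11,1),(6,3)]⟩⟩,.a ⟨true,0,⟨0,[(0,0),(40,0)]⟩,⟨2,[(9,0),(12,0),(7,1)]⟩⟩ ⟨false,1,⟨5,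
  [(6,1),(4,0),(3,0),(4,0),(0,1),(3,1),(12,1),(17,0)]⟩,⟨0,[(3,0),(56,0)]⟩⟩ ⟨true,0,⟨0,[(0,0)]⟩,⟨1,
  [(9,0),(31,1),(1,0),(2,0)]⟩⟩,.e ⟨false,1,⟨1,[(38,0),(19,0)]⟩,⟨0,[(3,0)]⟩⟩ ⟨false,0,⟨0,[(0,0)]⟩,⟨7,
  [(9,3),(28,0),(0,0),(1,7),(9,1),(6,3)]⟩⟩,.o ⟨false,0,⟨0,[(35,0),(5,0),(4,0)]⟩,⟨7,[(38,0),(0,0),(0,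
  3),(10,1),(5,3)]⟩⟩]⟩) (.R ⟨1,false,false,true,[1,0,0,-1],[0,1,1],[0,0,0,0,0,0,0,0,-1],(⟨1,[(40,0),
  (8,0),(0,0)]⟩,⟨0,[(41,0)]⟩),(⟨0,[(50,0),(2,0)]⟩,⟨0,[(32,0)]⟩),⟨3,[(12,0),(16,0),(10,1),(11,0)]⟩,
  .k,.k,(.r (-1) ⟨15,[(9,2),(1,0),(7,1),(0,0),(10,3),(6,7)]⟩ ⟨1,[(0,19),(0,5),(4,3),(4,5),(0,9),(4,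
  4),(8,3),(0,2),(12,9),(12,24),(2,30)]⟩),(.r (-1) ⟨5,[(7,1),(1,2),(1,0),(7,1),(0,0),(17,1)]⟩ ⟨0,
  [(8,0),(39,0)]⟩),(.r (-2) ⟨15,[(9,2),(1,0),(7,1),(0,0),(10,3),(1,15),(4,7)]⟩ ⟨0,[(1,0),(54,0)]⟩),
  .k,⟨true,1,⟨11,[(6,5),(0,1),(1,2),(1,4),(1,1),(4,5),(1,4),(17,1)]⟩,⟨0,[(1,0),(58,0)]⟩⟩,⟨false,1,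
  ⟨1,[(11,0),(8,0),(19,0)]⟩,⟨0,[(41,0),(1,0)]⟩⟩,⟨false,1,⟨3,[(38,0),(0,0),(18,1)]⟩,⟨0,[]⟩⟩,⟨false,0,
  ⟨1,[(1,1),(9,0),(8,0),(19,0)]⟩,⟨1,[(0,1),(37,0),(19,0)]⟩⟩,⟨true,0,⟨0,[(56,0)]⟩,⟨0,[(55,0)]⟩⟩,
  ⟨false,0,⟨1,[(1,1),(9,0),(8,0),(19,0),(15,1)]⟩,⟨1,[(0,1),(22,0),(14,0),(15,0)]⟩⟩,[.o ⟨false,0,⟨0,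
  [(44,0),(11,0)]⟩,⟨7,[(9,3),(28,0),(0,0),(11,1),(6,3)]⟩⟩,.e ⟨false,1,⟨5,[(6,1),(4,0),(3,0),(4,0),
  (0,1),(3,1),(12,1),(17,0)]⟩,⟨0,[(3,0),(56,0)]⟩⟩ ⟨false,1,⟨3,[(1,1),(18,3),(17,0),(1,1),(7,1),(2,
  0),(4,1)]⟩,⟨0,[(0,0)]⟩⟩,.a ⟨true,0,⟨0,[(41,0)]⟩,⟨1,[(40,0),(8,0),(0,0)]⟩⟩ ⟨false,1,⟨1,[(38,0),(19,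
  0)]⟩,⟨0,[(3,0)]⟩⟩ ⟨true,0,⟨1,[(40,0),(3,1),(4,0),(0,0),(5,1)]⟩,⟨0,[(0,0)]⟩⟩,.o ⟨false,0,⟨6,[(0,2),
  (0,1),(4,0),(0,0),(33,3),(2,0),(1,1),(4,1),(4,0)]⟩,⟨7,[(38,0),(0,0),(0,3),(10,1),(5,3)]⟩⟩]⟩)) (.Q
  [0,-1,0,0,0,0,0,0,1,1,0,-1] (.p false [0,0,0,1] [1] (⟨0,[(40,0)]⟩,⟨1,[(39,0),(8,0),(0,0)]⟩) .k 1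
  (⟨0,[]⟩,⟨0,[]⟩) .k .k) (.Q [0,1,0,0,0,0,0,0,-1,0,0,1] (.p true [0,0,0,1] [] (⟨0,[(41,0)]⟩,⟨1,[(40,
  0),(8,0),(0,0)]⟩) .k 0 (⟨0,[]⟩,⟨0,[]⟩) .k .k) (.K ⟨1,[0,0,0,1],0,0,(⟨0,[(42,0)]⟩,⟨1,[(41,0),(8,0),
  (0,0)]⟩),.k,(.r (-1) ⟨15,[(10,2),(1,0),(7,1),(0,0),(10,3),(7,7)]⟩ ⟨0,[(8,0),(40,0)]⟩),(.r 0 ⟨0,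
  [(3,2),(2,2),(0,1),(2,1),(2,1),(4,0),(8,1),(26,7),(2,10)]⟩ ⟨11,[(2,1),(21,0),(7,2),(1,0),(4,4),
  (16,0)]⟩),.k,.k,[⟨1,[(42,1),(4,0),(0,0)]⟩,⟨1,[(41,0),(2,0),(2,0)]⟩,⟨0,[(0,0)]⟩,⟨0,[(1,0)]⟩]⟩) (.Q
  [0,-1,0,1,0,0,0,0,0,1,0,-1] (.p false [0,0,0,1] [1] (⟨0,[(42,0)]⟩,⟨1,[(41,0),(8,0),(0,0)]⟩) .k 1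
  (⟨0,[]⟩,⟨0,[]⟩) .k .k) (.R ⟨1,false,false,true,[0,0,0,1],[1,-1],[1,1,0,-1,0,0,0,0,1],(⟨0,[(43,
  0)]⟩,⟨2,[(0,0),(23,0),(17,0),(4,0)]⟩),(⟨0,[(54,0)]⟩,⟨0,[(55,0)]⟩),⟨0,[(7,0)]⟩,.k,.k,(.r (-1) ⟨15,
  [(11,2),(1,0),(7,1),(0,0),(10,3),(7,7)]⟩ ⟨0,[(9,0),(40,0)]⟩),(.r 0 ⟨1,[(1,5),(5,5),(0,3),(2,9),(2,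
  9),(4,4),(8,9),(0,2),(25,30),(2,48)]⟩ ⟨11,[(3,1),(21,0),(7,2),(1,0),(4,4),(16,0)]⟩),.k,.k,⟨false,
  0,⟨0,[(5,0)]⟩,⟨1,[(40,0),(18,0)]⟩⟩,⟨true,0,⟨0,[(37,0),(5,0),(4,0)]⟩,⟨2,[(0,0),(23,0),(17,0),(4,
  0)]⟩⟩,⟨true,0,⟨0,[(57,0)]⟩,⟨0,[(58,0)]⟩⟩,⟨false,1,⟨95,[(8,5),(2,10),(0,0),(7,7),(4,9),(2,23),(11,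
  44),(2,95),(9,41)]⟩,⟨0,[(2,0),(55,0)]⟩⟩,⟨false,0,⟨0,[]⟩,⟨3,[(40,0),(0,0),(18,1)]⟩⟩,⟨false,1,⟨1,
  [(40,0),(2,1),(9,0)]⟩,⟨0,[(2,0)]⟩⟩,[.a ⟨true,0,⟨0,[(57,0)]⟩,⟨0,[(0,0),(42,0)]⟩⟩ ⟨true,0,⟨0,[(6,
  0)]⟩,⟨1,[(8,0),(0,0),(13,0),(26,0),(7,0)]⟩⟩ ⟨false,1,⟨3,[(22,0),(7,0),(2,0),(9,3),(9,1),(3,0),(4,
  1)]⟩,⟨0,[(0,0)]⟩⟩,.o ⟨false,1,⟨23,[(11,1),(8,1),(4,3),(2,5),(11,4),(0,4),(3,1),(7,9)]⟩,⟨0,[(58,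
  0)]⟩⟩,.e ⟨false,0,⟨5,[(1,0),(0,0),(2,3),(5,0),(16,1),(14,1)]⟩,⟨1,[(40,0),(17,1),(1,0)]⟩⟩ ⟨false,1,
  ⟨23,[(11,1),(8,1),(4,3),(2,5),(11,4),(0,4),(1,23),(1,1),(7,9)]⟩,⟨0,[(0,0)]⟩⟩,.o ⟨false,0,⟨1,[(42,
  0),(2,0),(2,0)]⟩,⟨1,[(43,1),(9,0),(5,0)]⟩⟩]⟩) (.R ⟨1,false,false,true,[0,0,0,1],[1,-1],[1,1,0,-1,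
  0,0,0,0,1],(⟨0,[(43,0)]⟩,⟨1,[(42,0),(8,0),(0,0)]⟩),(⟨0,[(54,0)]⟩,⟨0,[(55,0)]⟩),⟨0,[(7,0)]⟩,.k,.k,
  (.r (-1) ⟨15,[(11,2),(1,0),(7,1),(0,0),(10,3),(7,7)]⟩ ⟨0,[(9,0),(40,0)]⟩),(.r 0 ⟨0,[(0,2),(0,2),
  (6,1),(2,4),(2,7),(4,3),(8,1),(0,2),(25,19),(2,22)]⟩ ⟨11,[(3,1),(21,0),(7,2),(1,0),(4,4),(16,
  0)]⟩),.k,.k,⟨false,0,⟨0,[(5,0)]⟩,⟨1,[(40,0),(18,0)]⟩⟩,⟨true,0,⟨4,[(0,1),(11,0),(10,1),(5,0),(13,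
  2),(4,1),(4,0),(4,0)]⟩,⟨1,[(42,0),(8,0),(0,0)]⟩⟩,⟨true,0,⟨0,[(57,0)]⟩,⟨0,[(58,0)]⟩⟩,⟨false,1,⟨1,
  [(0,1),(39,0),(19,0)]⟩,⟨0,[(2,0),(55,0)]⟩⟩,⟨false,0,⟨0,[]⟩,⟨3,[(40,0),(0,0),(18,1)]⟩⟩,⟨false,1,⟨1,
  [(40,0),(2,1),(9,0)]⟩,⟨0,[(2,0)]⟩⟩,[.e ⟨true,0,⟨0,[(6,0)]⟩,⟨1,[(8,0),(0,0),(13,0),(26,0),(7,0)]⟩⟩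
  ⟨true,0,⟨0,[(0,0)]⟩,⟨0,[(2,0),(6,0),(40,0)]⟩⟩,.o ⟨false,1,⟨23,[(11,1),(8,1),(4,3),(2,5),(11,4),(0,
  4),(3,1),(7,9)]⟩,⟨0,[(58,0)]⟩⟩,.a ⟨true,0,⟨1,[(42,0),(8,0),(0,0)]⟩,⟨0,[(43,0)]⟩⟩ ⟨false,0,⟨5,[(1,
  0),(0,0),(2,3),(5,0),(16,1),(14,1)]⟩,⟨1,[(40,0),(17,1),(1,0)]⟩⟩ ⟨true,0,⟨0,[(0,0)]⟩,⟨1,[(42,0),(8,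
  0),(0,0),(5,1)]⟩⟩,.o ⟨false,0,⟨1,[(42,0),(2,0),(2,0)]⟩,⟨1,[(43,1),(9,0),(5,0)]⟩⟩]⟩))) (.R ⟨1,
  false,false,false,[0,0,0,1],[1,-1],[0,0,0,0,0,0,0,0,1],(⟨0,[(41,0)]⟩,⟨1,[(40,0),(8,0),(0,0)]⟩),
  (⟨0,[(52,0)]⟩,⟨0,[(53,0)]⟩),⟨0,[(5,0)]⟩,.k,.k,(.r (-1) ⟨15,[(9,2),(1,0),(7,1),(0,0),(10,3),(7,
  7)]⟩ ⟨0,[(7,0),(40,0)]⟩),(.r 0 ⟨0,[(0,1),(1,4),(2,2),(0,1),(2,1),(2,3),(4,1),(9,0),(25,12),(2,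
  7)]⟩ ⟨11,[(1,1),(21,0),(7,2),(1,0),(4,4),(16,0)]⟩),.k,.k,⟨false,0,⟨0,[(3,0),(52,0)]⟩,⟨11,[(1,1),
  (21,0),(7,2),(1,0),(4,4),(16,0)]⟩⟩,⟨true,0,⟨4,[(0,1),(2,2),(2,0),(3,0),(10,0),(19,2),(4,1),(4,
  0)]⟩,⟨1,[(40,0),(8,0),(0,0)]⟩⟩,⟨false,1,⟨3,[(38,0),(0,0),(18,1)]⟩,⟨0,[]⟩⟩,⟨false,1,⟨14,[(0,13),(5,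
  0),(3,0),(7,2),(4,4),(2,1),(14,0),(16,10)]⟩,⟨1,[(3,1),(36,0),(8,0),(0,0),(5,1)]⟩⟩,⟨true,0,⟨0,[(56,
  0)]⟩,⟨0,[(55,0)]⟩⟩,⟨false,1,⟨0,[(0,0),(57,0)]⟩,⟨1,[(3,1),(36,0),(8,0),(0,0)]⟩⟩,[.o ⟨false,1,⟨23,
  [(9,1),(8,1),(4,3),(2,5),(11,4),(0,4),(3,1),(7,9)]⟩,⟨0,[(56,0)]⟩⟩,.o ⟨false,1,⟨1,[(23,0),(27,0),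
  (2,0)]⟩,⟨0,[(56,0),(3,0)]⟩⟩,.a ⟨true,0,⟨1,[(40,0),(8,0),(0,0)]⟩,⟨0,[(41,0)]⟩⟩ ⟨true,0,⟨0,[(2,0),
  (2,0),(47,0)]⟩,⟨1,[(0,1),(39,0),(8,0),(0,0)]⟩⟩ ⟨false,1,⟨1,[(23,0),(17,1),(9,0),(2,0)]⟩,⟨1,[(40,
  0),(8,0),(0,0),(5,1)]⟩⟩,.o ⟨false,0,⟨1,[(40,0),(2,0),(2,0)]⟩,⟨1,[(41,1),(9,0),(5,0)]⟩⟩]⟩))))))
  (.I [0,1,0,0,0,0,0,-1,-1] (.Q [0,-1,0,0,0,0,0,0,-1,0,0,1] (.p true [0,0,0,1] [] (⟨0,[(37,0)]⟩,⟨1,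
  [(36,0),(8,0),(0,0)]⟩) .k 0 (⟨0,[]⟩,⟨0,[]⟩) .k .k) (.R ⟨0,false,false,true,[0,0,0,1],[1,0,-1],[1,
  0,0,0,0,0,0,0,1],(⟨0,[(38,0)]⟩,⟨1,[(37,0),(8,0),(0,0)]⟩),(⟨0,[(46,0)]⟩,⟨0,[(47,0)]⟩),⟨0,[(2,0)]⟩,
  .k,.k,(.r (-1) ⟨15,[(6,2),(1,0),(7,1),(0,0),(10,3),(7,7)]⟩ ⟨0,[(4,0),(40,0)]⟩),.k,.k,.k,⟨false,1,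
  ⟨0,[(5,0),(16,0)]⟩,⟨0,[(1,0)]⟩⟩,⟨true,0,⟨0,[(32,0),(5,0)]⟩,⟨15,[(4,1),(0,1),(8,1),(0,0),(3,3),(17,
  7),(4,0),(0,8),(2,3),(3,1)]⟩⟩,⟨true,0,⟨0,[]⟩,⟨0,[(57,0)]⟩⟩,⟨false,0,⟨0,[(0,0),(38,0)]⟩,⟨19,[(5,
  13),(10,5),(2,3),(4,3),(11,2),(0,9),(3,1),(1,1),(11,10)]⟩⟩,⟨false,0,⟨0,[]⟩,⟨0,[]⟩⟩,⟨false,0,⟨0,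
  []⟩,⟨0,[]⟩⟩,[.o ⟨false,0,⟨0,[(39,0)]⟩,⟨0,[(41,0),(13,0)]⟩⟩,.e ⟨false,1,⟨0,[(5,0),(7,0),(1,0),(0,
  0)]⟩,⟨0,[(1,0),(43,0)]⟩⟩ ⟨false,1,⟨15,[(12,7),(15,3),(4,3),(1,0),(0,0),(1,15),(9,3),(5,1)]⟩,⟨4,
  [(2,4),(6,1),(4,0),(4,2),(4,0),(28,3)]⟩⟩,.a ⟨true,0,⟨1,[(37,0),(8,0),(0,0)]⟩,⟨0,[(38,0)]⟩⟩ ⟨false,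
  1,⟨1,[(36,0),(18,0)]⟩,⟨1,[(1,0),(1,0),(49,0)]⟩⟩ ⟨true,0,⟨0,[(38,0),(0,0)]⟩,⟨4,[(2,4),(6,1),(4,0),
  (4,2),(4,0),(28,3)]⟩⟩,.o ⟨false,0,⟨1,[(37,0),(2,0),(2,0)]⟩,⟨1,[(38,1),(9,0),(5,0)]⟩⟩]⟩) (.R ⟨1,
  false,false,false,[1,0,0,-1],[1,-1],[0,0,0,0,0,0,0,0,-1],(⟨1,[(37,0),(8,0),(0,0)]⟩,⟨0,[(38,0)]⟩),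
  (⟨0,[(49,0)]⟩,⟨0,[(50,0)]⟩),⟨3,[(9,0),(16,0),(10,1),(11,0)]⟩,.k,.k,(.r (-1) ⟨15,[(6,2),(1,0),(7,
  1),(0,0),(10,3),(6,7)]⟩ ⟨1,[(0,1),(5,1),(2,1),(4,0),(3,3),(4,1),(0,2),(13,1),(11,4),(2,8)]⟩),(.r
  0 ⟨0,[(4,0),(40,0)]⟩ ⟨15,[(6,2),(1,0),(7,1),(0,0),(10,3),(7,7)]⟩),.k,.k,⟨false,0,⟨1,[(1,0),(1,0),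
  (49,2)]⟩,⟨15,[(6,2),(1,0),(7,1),(0,0),(10,3),(7,7)]⟩⟩,⟨true,0,⟨1,[(37,0),(2,0),(2,0)]⟩,⟨0,[(38,
  0)]⟩⟩,⟨false,1,⟨3,[(35,0),(0,0),(18,1)]⟩,⟨0,[]⟩⟩,⟨false,1,⟨1,[(0,1),(19,0),(30,0),(3,0)]⟩,⟨1,[(1,
  0),(1,0),(34,1),(14,2)]⟩⟩,⟨true,0,⟨0,[(53,0)]⟩,⟨0,[(52,0)]⟩⟩,⟨false,1,⟨0,[(0,0),(54,0)]⟩,⟨1,[(1,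
  0),(1,0),(34,1),(14,0)]⟩⟩,[.o ⟨false,1,⟨23,[(6,1),(8,1),(4,3),(2,5),(11,4),(0,4),(3,1),(7,9)]⟩,⟨0,
  [(53,0)]⟩⟩,.o ⟨false,1,⟨1,[(20,0),(27,0),(2,0)]⟩,⟨0,[(53,0),(3,0)]⟩⟩,.a ⟨true,0,⟨0,[(38,0)]⟩,⟨1,
  [(37,0),(8,0),(0,0)]⟩⟩ ⟨true,0,⟨1,[(1,0),(1,0),(49,0)]⟩,⟨0,[(0,0),(37,0)]⟩⟩ ⟨false,1,⟨15,[(20,7),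
  (14,0),(0,0),(0,7),(2,3),(2,3),(4,1),(6,3)]⟩,⟨0,[(38,0),(14,0)]⟩⟩,.o ⟨false,0,⟨0,[(32,0),(5,0),(4,
  0)]⟩,⟨7,[(35,0),(0,0),(0,3),(10,1),(5,3)]⟩⟩]⟩)) (.Q [0,1,0,-1,0,0,1,1,-1,0,-1,1] (.p false [0,0,
  1] [0,0,0,1] (⟨0,[(46,0)]⟩,⟨0,[(45,0)]⟩) .k 2 (⟨0,[(37,0)]⟩,⟨1,[(36,0),(8,0),(0,0)]⟩) .k (.r 0 ⟨0,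
  [(3,0),(19,0)]⟩ ⟨3,[(14,0),(17,1),(2,1),(5,0),(0,0)]⟩)) (.Q [0,0,0,0,0,0,-1,-1,1,0,1,-1] (.p true
  [0,0,1] [0,0,0,1] (⟨0,[(47,0)]⟩,⟨0,[(46,0)]⟩) .k 2 (⟨0,[(38,0)]⟩,⟨1,[(37,0),(8,0),(0,0)]⟩) .k (.r
  0 ⟨0,[(4,0),(19,0)]⟩ ⟨3,[(15,0),(17,1),(2,1),(5,0),(0,0)]⟩)) (.R ⟨0,false,false,true,[0,0,0,1],[0,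
  0,1],[1,1,1],(⟨0,[(39,0)]⟩,⟨1,[(38,0),(8,0),(0,0)]⟩),(⟨0,[(48,0)]⟩,⟨0,[(47,0)]⟩),⟨0,[(3,0)]⟩,.k,
  .k,(.r (-1) ⟨15,[(7,2),(1,0),(7,1),(0,0),(10,3),(7,7)]⟩ ⟨0,[(5,0),(40,0)]⟩),.k,.k,.k,⟨true,0,⟨1,
  [(16,0),(26,0),(0,0)]⟩,⟨0,[(46,0)]⟩⟩,⟨false,1,⟨2,[(18,1),(20,2),(4,0),(4,0)]⟩,⟨1,[(35,0),(2,0)]⟩⟩,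
  ⟨false,0,⟨21,[(1,1),(2,1),(0,7),(2,4),(11,3),(15,4),(1,0),(5,3)]⟩,⟨7,[(2,3),(6,1),(1,0),(1,0),(4,
  1),(18,1),(18,1)]⟩⟩,⟨true,0,⟨0,[(1,0),(52,0)]⟩,⟨0,[(0,0)]⟩⟩,⟨false,0,⟨0,[]⟩,⟨0,[]⟩⟩,⟨false,0,⟨0,
  []⟩,⟨0,[]⟩⟩,[.o ⟨false,0,⟨0,[(42,0)]⟩,⟨7,[(11,1),(1,1),(22,0),(0,0),(11,1),(6,3)]⟩⟩,.e ⟨false,0,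
  ⟨0,[]⟩,⟨3,[(36,0),(0,0),(17,1)]⟩⟩ ⟨false,1,⟨9,[(1,5),(4,5),(2,1),(8,1),(4,3),(15,3),(9,0),(4,3),
  (1,0)]⟩,⟨3,[(11,0),(1,0),(24,1)]⟩⟩,.a ⟨true,0,⟨1,[(38,0),(8,0),(0,0)]⟩,⟨0,[(39,0)]⟩⟩ ⟨false,0,⟨1,
  [(44,0),(0,0)]⟩,⟨1,[(55,0),(0,0)]⟩⟩ ⟨true,0,⟨0,[(39,0),(2,0)]⟩,⟨3,[(11,0),(1,0),(24,1)]⟩⟩,.o
  ⟨false,0,⟨1,[(38,0),(2,0),(2,0)]⟩,⟨1,[(39,1),(9,0),(5,0)]⟩⟩]⟩) (.Q [0,1,0,0,0,0,-1,-1,1,0,1,-1]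
  (.p true [0,0,1] [0,0,0,1] (⟨0,[(48,0)]⟩,⟨0,[(47,0)]⟩) .k 2 (⟨0,[(39,0)]⟩,⟨1,[(38,0),(8,0),(0,
  0)]⟩) .k (.r 0 ⟨5,[(0,3),(7,0),(5,0),(10,0),(10,0),(1,1),(15,0)]⟩ ⟨3,[(16,0),(17,1),(2,1),(5,0),
  (0,0)]⟩)) (.R ⟨0,false,false,false,[0,0,0,1],[0,0,1],[0,0,1],(⟨0,[(40,0)]⟩,⟨1,[(39,0),(8,0),(0,
  0)]⟩),(⟨0,[(49,0)]⟩,⟨0,[(48,0)]⟩),⟨0,[(4,0)]⟩,.k,.k,(.r (-1) ⟨15,[(8,2),(1,0),(7,1),(0,0),(10,3),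
  (7,7)]⟩ ⟨4,[(1,1),(4,1),(0,0),(1,0),(27,0),(1,0),(15,1)]⟩),.k,.k,.k,⟨true,0,⟨1,[(17,0),(26,0),(0,
  0)]⟩,⟨0,[(47,0)]⟩⟩,⟨false,1,⟨2,[(19,1),(20,2),(4,0),(4,0)]⟩,⟨1,[(36,0),(2,0)]⟩⟩,⟨false,0,⟨1,[(5,
  0),(0,0),(46,0)]⟩,⟨1,[(38,0),(17,0)]⟩⟩,⟨true,0,⟨0,[(1,0)]⟩,⟨0,[(0,0)]⟩⟩,⟨false,0,⟨0,[]⟩,⟨0,[]⟩⟩,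
  ⟨false,0,⟨0,[]⟩,⟨0,[]⟩⟩,[.a ⟨true,0,⟨0,[(21,0),(33,0)]⟩,⟨0,[(29,0)]⟩⟩ ⟨true,0,⟨1,[(45,0),(0,0)]⟩,
  ⟨0,[]⟩⟩ ⟨false,1,⟨1,[(1,1),(36,0),(17,0)]⟩,⟨3,[(12,0),(1,0),(24,1)]⟩⟩,.o ⟨false,1,⟨0,[(43,0),(13,
  0)]⟩,⟨0,[(41,0)]⟩⟩,.e ⟨false,0,⟨1,[(1,3),(1,3),(0,3),(3,5),(2,5),(4,2),(8,1),(0,0),(25,10),(2,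
  16)]⟩,⟨3,[(37,0),(0,0),(17,1)]⟩⟩ ⟨false,1,⟨1,[(1,1),(36,0),(18,0)]⟩,⟨3,[(12,0),(1,0),(24,1)]⟩⟩,.o
  ⟨false,0,⟨1,[(39,0),(2,0),(2,0)]⟩,⟨1,[(40,1),(9,0),(5,0)]⟩⟩]⟩) (.R ⟨1,false,false,true,[1,0,0,-1],
  [1,-1],[1,0,0,-1,0,0,0,0,-1],(⟨1,[(39,0),(8,0),(0,0)]⟩,⟨0,[(40,0)]⟩),(⟨0,[(51,0)]⟩,⟨0,[(52,0)]⟩),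
  ⟨3,[(11,0),(16,0),(10,1),(11,0)]⟩,.k,.k,(.r (-1) ⟨15,[(8,2),(1,0),(7,1),(0,0),(10,3),(6,7)]⟩ ⟨0,
  [(0,0),(2,1),(0,0),(3,3),(2,3),(4,1),(8,2),(0,0),(25,8),(2,15)]⟩),(.r 0 ⟨4,[(1,1),(4,1),(0,0),(1,
  0),(27,0),(1,0),(15,1)]⟩ ⟨15,[(8,2),(1,0),(7,1),(0,0),(10,3),(7,7)]⟩),.k,.k,⟨false,0,⟨3,[(0,3),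
  (11,0),(1,0),(24,1)]⟩,⟨1,[(38,0),(17,0),(2,1)]⟩⟩,⟨true,0,⟨1,[(39,0),(2,0),(2,0)]⟩,⟨0,[(40,0)]⟩⟩,
  ⟨false,1,⟨5,[(17,0),(4,1),(2,0),(11,0),(0,0),(7,0),(10,1)]⟩,⟨0,[(55,0)]⟩⟩,⟨false,1,⟨11,[(8,0),(8,
  0),(4,1),(2,2),(11,0),(0,6),(0,5),(2,0),(7,1)]⟩,⟨0,[(0,0),(28,0),(25,0)]⟩⟩,⟨true,0,⟨0,[]⟩,⟨0,[(59,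
  0)]⟩⟩,⟨false,1,⟨7,[(37,0),(0,4),(0,3),(10,1)]⟩,⟨0,[(0,0),(28,0)]⟩⟩,[.e ⟨true,0,⟨1,[(0,0),(1,0),(9,
  0),(26,0)]⟩,⟨0,[(0,0),(2,1),(0,0),(3,3),(2,3),(4,1),(8,2),(0,0),(25,8),(2,15)]⟩⟩ ⟨true,0,⟨3,[(25,
  0),(1,1),(11,1),(3,0)]⟩,⟨5,[(0,1),(2,0),(3,0),(12,2),(19,3),(5,1),(8,1)]⟩⟩,.o ⟨false,1,⟨23,[(8,1),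
  (8,1),(4,3),(2,5),(11,4),(0,4),(3,1),(7,9)]⟩,⟨0,[(55,0)]⟩⟩,.a ⟨true,0,⟨0,[(40,0)]⟩,⟨1,[(39,0),(8,
  0),(0,0)]⟩⟩ ⟨false,0,⟨1,[(0,1),(7,0),(30,0)]⟩,⟨3,[(7,3),(29,0),(0,0),(17,1)]⟩⟩ ⟨true,0,⟨3,[(25,0),
  (1,1),(11,1),(3,0)]⟩,⟨0,[(40,0),(14,0)]⟩⟩,.o ⟨false,0,⟨4,[(0,0),(2,0),(5,0),(30,3),(0,1),(3,2),(4,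
  0)]⟩,⟨7,[(37,0),(0,0),(0,3),(10,1),(5,3)]⟩⟩]⟩))) (.Q [0,1,0,0,0,0,0,0,-1,0,0,1] (.p true [0,0,0,
  1] [] (⟨0,[(38,0)]⟩,⟨1,[(37,0),(8,0),(0,0)]⟩) .k 0 (⟨0,[]⟩,⟨0,[]⟩) .k .k) (.K ⟨1,[0,0,0,1],0,0,
  (⟨0,[(39,0)]⟩,⟨1,[(38,0),(8,0),(0,0)]⟩),.k,(.r (-1) ⟨15,[(7,2),(1,0),(7,1),(0,0),(10,3),(7,7)]⟩
  ⟨0,[(5,0),(40,0)]⟩),(.r 0 ⟨0,[(1,2),(2,1),(2,1),(2,1),(4,0),(8,4),(14,2),(11,4),(2,13)]⟩ ⟨15,[(7,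
  2),(1,0),(7,1),(0,0),(10,3),(6,7)]⟩),.k,.k,[⟨1,[(39,1),(4,0),(0,0)]⟩,⟨1,[(38,0),(2,0),(2,0)]⟩,⟨0,
  [(0,0)]⟩,⟨0,[(1,0),(18,0)]⟩]⟩) (.Q [0,-1,0,1,0,0,0,0,0,1,0,-1] (.p false [0,0,0,1] [1] (⟨0,[(39,
  0)]⟩,⟨1,[(38,0),(8,0),(0,0)]⟩) .k 1 (⟨0,[]⟩,⟨0,[]⟩) .k .k) (.R ⟨0,false,false,true,[0,0,0,1],[1,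
  -1],[1,0,0,0,0,0,0,0,1],(⟨0,[(40,0)]⟩,⟨2,[(0,0),(20,0),(17,0),(4,0)]⟩),(⟨0,[(51,0)]⟩,⟨0,[(52,
  0)]⟩),⟨0,[(4,0)]⟩,.k,.k,(.r (-1) ⟨15,[(8,2),(1,0),(7,1),(0,0),(10,3),(7,7)]⟩ ⟨0,[(6,0),(40,0)]⟩),
  (.r 0 ⟨1,[(1,5),(3,3),(2,9),(2,9),(4,4),(8,9),(0,2),(13,5),(11,24),(2,48)]⟩ ⟨15,[(8,2),(1,0),(7,
  1),(0,0),(10,3),(6,7)]⟩),.k,.k,⟨false,0,⟨0,[(1,0),(38,0),(14,0)]⟩,⟨3,[(19,0),(7,0),(2,0),(6,1),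
  (16,0),(4,1)]⟩⟩,⟨true,0,⟨0,[(34,0),(5,0),(4,0)]⟩,⟨2,[(0,0),(20,0),(17,0),(4,0)]⟩⟩,⟨true,0,⟨0,[]⟩,
  ⟨0,[(59,0)]⟩⟩,⟨false,1,⟨95,[(5,5),(2,10),(0,0),(7,7),(4,9),(2,23),(11,44),(2,95),(9,41)]⟩,⟨1,[(0,
  0),(1,1),(18,0),(18,0),(2,0)]⟩⟩,⟨false,0,⟨0,[]⟩,⟨0,[]⟩⟩,⟨false,0,⟨0,[]⟩,⟨0,[]⟩⟩,[.a ⟨true,0,⟨0,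
  [(54,0)]⟩,⟨0,[(0,0),(39,0)]⟩⟩ ⟨true,0,⟨1,[(2,1),(22,0),(14,1),(2,0)]⟩,⟨17,[(5,1),(0,7),(2,3),(11,
  3),(3,0),(11,3),(5,0),(1,1)]⟩⟩ ⟨false,1,⟨3,[(19,0),(7,0),(2,0),(9,3),(9,1),(3,0),(4,1)]⟩,⟨0,[(0,
  0)]⟩⟩,.o ⟨false,1,⟨23,[(8,1),(8,1),(4,3),(2,5),(11,4),(0,4),(3,1),(7,9)]⟩,⟨0,[(55,0)]⟩⟩,.e ⟨false,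
  0,⟨0,[(1,0),(38,0)]⟩,⟨3,[(37,2),(0,0)]⟩⟩ ⟨false,1,⟨23,[(8,1),(8,1),(4,3),(2,5),(11,4),(0,4),(1,
  23),(1,1),(7,9)]⟩,⟨0,[(0,0)]⟩⟩,.o ⟨false,0,⟨1,[(39,0),(2,0),(2,0)]⟩,⟨1,[(40,1),(9,0),(5,0)]⟩⟩]⟩)
  (.R ⟨0,false,false,true,[0,0,0,1],[1,-1],[1,0,0,0,0,0,0,0,1],(⟨0,[(40,0)]⟩,⟨1,[(39,0),(8,0),(0,
  0)]⟩),(⟨0,[(51,0)]⟩,⟨0,[(52,0)]⟩),⟨0,[(4,0)]⟩,.k,.k,(.r (-1) ⟨15,[(8,2),(1,0),(7,1),(0,0),(10,3),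
  (7,7)]⟩ ⟨0,[(6,0),(40,0)]⟩),(.r 0 ⟨0,[(0,4),(0,2),(2,1),(0,1),(2,4),(2,9),(4,4),(9,3),(25,22),(2,
  21)]⟩ ⟨15,[(8,2),(1,0),(7,1),(0,0),(10,3),(6,7)]⟩),.k,.k,⟨false,0,⟨0,[(1,0),(38,0),(14,0)]⟩,⟨3,
  [(19,0),(7,0),(2,0),(6,1),(16,0),(4,1)]⟩⟩,⟨true,0,⟨9,[(0,3),(2,0),(1,0),(3,1),(10,1),(19,5),(4,3),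
  (4,1),(4,2)]⟩,⟨1,[(39,0),(8,0),(0,0)]⟩⟩,⟨true,0,⟨0,[]⟩,⟨0,[(59,0)]⟩⟩,⟨false,1,⟨1,[(0,1),(36,0),
  (19,0)]⟩,⟨0,[(2,0),(18,0),(33,0)]⟩⟩,⟨false,0,⟨0,[]⟩,⟨0,[]⟩⟩,⟨false,0,⟨0,[]⟩,⟨0,[]⟩⟩,[.e ⟨true,0,
  ⟨1,[(2,1),(22,0),(14,1),(2,0)]⟩,⟨17,[(5,1),(0,7),(2,3),(11,3),(3,0),(11,3),(5,0),(1,1)]⟩⟩ ⟨true,0,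
  ⟨0,[(0,0)]⟩,⟨5,[(3,0),(1,0),(14,3),(0,1),(17,2),(6,1),(1,0),(0,0),(5,4)]⟩⟩,.o ⟨false,1,⟨23,[(8,1),
  (8,1),(4,3),(2,5),(11,4),(0,4),(3,1),(7,9)]⟩,⟨0,[(55,0)]⟩⟩,.a ⟨true,0,⟨1,[(39,0),(8,0),(0,0)]⟩,⟨0,
  [(40,0)]⟩⟩ ⟨false,0,⟨0,[(1,0),(38,0)]⟩,⟨3,[(37,2),(0,0)]⟩⟩ ⟨true,0,⟨0,[(0,0)]⟩,⟨1,[(39,0),(8,0),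
  (0,0),(5,1)]⟩⟩,.o ⟨false,0,⟨1,[(39,0),(2,0),(2,0)]⟩,⟨1,[(40,1),(9,0),(5,0)]⟩⟩]⟩))))))) (.I [1,0,0,
  -1,0,0,0,-1,1] (.R ⟨1,false,false,true,[1,0,0,-1],[1,0,-1],[0,1,0,0,0,0,0,0,-1],(⟨1,[(34,0),(8,0),
  (0,0)]⟩,⟨0,[(35,0)]⟩),(⟨0,[(43,0)]⟩,⟨0,[(44,0)]⟩),⟨3,[(6,0),(16,0),(10,1),(11,0)]⟩,.k,.k,(.r (-1)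
  ⟨15,[(3,2),(1,0),(7,1),(0,0),(10,3),(6,7)]⟩ ⟨1,[(0,1),(2,5),(2,5),(4,2),(3,5),(4,5),(0,6),(25,14),
  (2,28)]⟩),.k,(.r (-1) ⟨11,[(21,3),(3,3),(6,6),(0,0)]⟩ ⟨1,[(0,0),(1,0),(12,0),(34,0),(3,0)]⟩),.k,
  ⟨false,1,⟨1,[(32,0),(9,1),(8,0)]⟩,⟨0,[(0,0),(49,0)]⟩⟩,⟨true,0,⟨1,[(31,0),(2,0)]⟩,⟨0,[(35,0),(4,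
  0)]⟩⟩,⟨true,0,⟨0,[(54,0)]⟩,⟨0,[]⟩⟩,⟨false,0,⟨25,[(0,9),(0,7),(0,5),(1,0),(4,11),(23,0),(0,12)]⟩,
  ⟨3,[(5,0),(9,1),(5,2),(10,1),(2,3),(4,2),(9,0),(1,0)]⟩⟩,⟨false,0,⟨0,[(50,0)]⟩,⟨5,[(12,0),(4,1),(2,
  0),(11,0),(0,0),(7,0),(10,1)]⟩⟩,⟨false,0,⟨2,[(0,0),(0,0),(0,0),(15,2),(31,0)]⟩,⟨1,[(12,0),(6,0),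
  (1,0),(10,0),(2,1),(4,1)]⟩⟩,[.o ⟨false,0,⟨0,[(36,0)]⟩,⟨0,[(38,0),(13,0)]⟩⟩,.a ⟨true,0,⟨0,[(24,
  0)]⟩,⟨0,[(16,0),(33,0)]⟩⟩ ⟨false,1,⟨1,[(32,0),(18,0)]⟩,⟨2,[(0,0),(0,0),(0,0),(47,0)]⟩⟩ ⟨true,0,⟨3,
  [(7,0),(1,0),(24,1)]⟩,⟨0,[(35,0),(4,0),(1,0)]⟩⟩,.e ⟨false,1,⟨3,[(32,2),(0,0)]⟩,⟨0,[(1,0),(13,
  0)]⟩⟩ ⟨false,0,⟨3,[(7,0),(1,0),(24,1)]⟩,⟨0,[(35,0),(2,0),(13,0)]⟩⟩,.o ⟨false,0,⟨0,[(29,0),(5,0),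
  (4,0)]⟩,⟨7,[(32,0),(0,0),(0,3),(10,1),(5,3)]⟩⟩]⟩) (.I [1,1,0,0,0,0,0,-1,1] (.R ⟨1,false,false,
  true,[1,0,0,-1],[1,0,-1],[0,0,0,0,0,0,0,0,-1],(⟨1,[(35,0),(8,0),(0,0)]⟩,⟨0,[(36,0)]⟩),(⟨0,[(44,
  0)]⟩,⟨0,[(45,0)]⟩),⟨3,[(7,0),(16,0),(10,1),(11,0)]⟩,.k,.k,(.r (-1) ⟨15,[(4,2),(1,0),(7,1),(0,0),
  (10,3),(6,7)]⟩ ⟨1,[(2,1),(1,5),(2,5),(4,2),(3,5),(4,5),(0,4),(25,14),(2,26)]⟩),.k,(.r (-1) ⟨11,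
  [(22,3),(3,3),(6,6),(0,0)]⟩ ⟨1,[(0,0),(2,0),(12,0)]⟩),.k,⟨false,1,⟨3,[(1,1),(18,1),(12,0),(19,
  0)]⟩,⟨0,[(0,0)]⟩⟩,⟨true,0,⟨1,[(32,0),(2,0)]⟩,⟨0,[(36,0),(4,0)]⟩⟩,⟨false,1,⟨3,[(33,0),(0,0),(18,
  1)]⟩,⟨0,[]⟩⟩,⟨false,0,⟨15,[(0,4),(1,7),(0,0),(1,0),(4,6),(2,4),(20,0),(0,7)]⟩,⟨3,[(1,1),(18,1),
  (12,0),(2,3),(4,3),(11,0)]⟩⟩,⟨true,0,⟨0,[(51,0)]⟩,⟨0,[(50,0)]⟩⟩,⟨false,0,⟨3,[(0,0),(1,1),(0,0),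
  (12,0),(2,3)]⟩,⟨3,[(1,1),(11,1),(6,1),(0,1),(11,0),(2,3),(4,1),(11,0)]⟩⟩,[.o ⟨false,0,⟨0,[(37,
  0)]⟩,⟨0,[(39,0),(13,0)]⟩⟩,.a ⟨true,0,⟨0,[(25,0)]⟩,⟨0,[(17,0),(33,0)]⟩⟩ ⟨false,1,⟨4,[(1,2),(4,0),
  (1,0),(4,2),(1,0),(4,1),(12,0)]⟩,⟨2,[(0,0),(1,0),(0,0),(51,1)]⟩⟩ ⟨true,0,⟨3,[(8,0),(1,0),(24,1)]⟩,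
  ⟨0,[(36,0),(4,0),(1,0)]⟩⟩,.e ⟨false,1,⟨1,[(33,0),(19,0)]⟩,⟨3,[(0,0),(1,1),(0,0),(12,0)]⟩⟩ ⟨false,
  0,⟨3,[(8,0),(1,0),(24,1)]⟩,⟨0,[(36,0),(2,0),(13,0)]⟩⟩,.o ⟨false,0,⟨0,[(30,0),(5,0),(4,0)]⟩,⟨7,
  [(33,0),(0,0),(0,3),(10,1),(5,3)]⟩⟩]⟩) (.Q [0,-1,0,1,0,0,0,0,0,1,0,-1] (.p false [0,0,0,1] [1]
  (⟨0,[(36,0)]⟩,⟨1,[(35,0),(8,0),(0,0)]⟩) .k 1 (⟨0,[]⟩,⟨0,[]⟩) .k .k) (.R ⟨1,false,false,true,[1,0,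
  0,-1],[0,-1,1],[0,0,0,0,0,0,0,0,-1],(⟨2,[(0,0),(17,0),(17,0),(4,0)]⟩,⟨0,[(37,0)]⟩),(⟨0,[(25,0)]⟩,
  ⟨0,[(45,0),(3,0)]⟩),⟨3,[(8,0),(16,0),(10,1),(11,0)]⟩,.k,.k,(.r (-1) ⟨15,[(5,2),(1,0),(7,1),(0,0),
  (10,3),(6,7)]⟩ ⟨0,[(1,4),(1,5),(1,7),(2,7),(4,3),(3,2),(4,7),(26,19),(2,35)]⟩),(.x (-1) ⟨3,[(12,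
  1),(21,0),(0,0),(9,3),(1,0),(1,3),(3,0)]⟩ ⟨19,[(6,1),(1,3),(4,11),(20,0),(0,0),(3,1),(2,1)]⟩),.k,
  .k,⟨false,1,⟨21,[(2,1),(4,1),(3,3),(4,5),(0,15),(16,9),(12,0),(6,2)]⟩,⟨0,[(3,0),(52,0)]⟩⟩,⟨true,0,
  ⟨7,[(13,1),(22,3),(5,4),(0,0),(1,3),(3,1)]⟩,⟨0,[(31,0),(5,0)]⟩⟩,⟨false,1,⟨3,[(34,0),(0,0),(18,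
  1)]⟩,⟨0,[]⟩⟩,⟨false,0,⟨11,[(3,9),(0,1),(8,1),(0,0),(3,1),(3,0),(13,5),(5,4),(2,3),(3,1)]⟩,⟨8,[(1,
  0),(0,1),(4,0),(3,4),(5,1),(16,2),(2,8),(9,1),(6,2)]⟩⟩,⟨true,0,⟨0,[(52,0)]⟩,⟨0,[(51,0)]⟩⟩,⟨false,
  0,⟨4,[(0,0),(2,3),(0,0),(8,0),(22,1),(3,0),(1,1),(2,1),(3,0),(2,1)]⟩,⟨25,[(1,5),(5,1),(1,6),(1,6),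
  (2,3),(19,9),(2,25),(9,5),(6,7)]⟩⟩,[.o ⟨false,0,⟨0,[(30,0)]⟩,⟨13,[(2,1),(1,3),(6,7),(4,1),(17,0),
  (12,3),(6,6)]⟩⟩,.a ⟨true,0,⟨0,[(18,0)]⟩,⟨2,[(0,0),(10,0),(25,0),(3,0),(10,0)]⟩⟩ ⟨false,1,⟨7,[(1,
  3),(5,1),(1,0),(1,0),(4,1),(17,1),(19,1)]⟩,⟨3,[(3,2),(0,0),(6,1),(1,0),(26,0),(1,0),(2,1),(3,0),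
  (6,2)]⟩⟩ ⟨true,0,⟨0,[(0,0),(21,0)]⟩,⟨53,[(2,9),(1,11),(1,7),(4,31),(22,0),(2,53),(4,25),(4,6)]⟩⟩,
  .e ⟨false,1,⟨1,[(34,0),(19,0)]⟩,⟨4,[(3,3),(0,0),(6,1),(1,0),(28,1),(2,1),(3,0),(2,0)]⟩⟩ ⟨false,0,
  ⟨0,[(0,0),(21,0)]⟩,⟨13,[(2,1),(1,3),(6,7),(4,1),(17,0),(2,13),(9,3),(6,6)]⟩⟩,.o ⟨false,0,⟨0,[(31,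
  0),(5,0),(4,0)]⟩,⟨7,[(34,0),(0,0),(0,3),(10,1),(5,3)]⟩⟩]⟩) (.R ⟨1,false,false,true,[0,0,0,1],[1,
  -1],[0,1,0,0,0,0,0,0,1],(⟨0,[(37,0)]⟩,⟨1,[(36,0),(8,0),(0,0)]⟩),(⟨0,[(48,0)]⟩,⟨0,[(49,0)]⟩),⟨4,
  [(0,0),(0,0),(1,0),(4,1),(2,0),(1,0),(23,3),(14,0)]⟩,.k,.k,(.r (-1) ⟨15,[(5,2),(1,0),(7,1),(0,0),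
  (10,3),(7,7)]⟩ ⟨1,[(2,1),(11,0),(26,0),(0,0)]⟩),(.r 0 ⟨0,[(1,4),(1,5),(1,7),(2,7),(4,3),(3,2),(4,
  7),(26,19),(2,35)]⟩ ⟨15,[(5,2),(1,0),(7,1),(0,0),(10,3),(6,7)]⟩),.k,.k,⟨false,0,⟨4,[(3,3),(0,0),
  (6,1),(1,0),(28,1),(2,1),(3,0),(2,5)]⟩,⟨15,[(5,2),(1,0),(7,1),(0,0),(10,3),(6,7)]⟩⟩,⟨true,0,⟨1,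
  [(0,1),(0,0),(2,0),(12,0)]⟩,⟨1,[(36,0),(8,0),(0,0)]⟩⟩,⟨true,0,⟨0,[(56,0)]⟩,⟨0,[]⟩⟩,⟨false,1,⟨1,
  [(0,1),(33,0),(19,0)]⟩,⟨1,[(3,1),(13,1),(18,0),(8,0),(0,0),(5,1)]⟩⟩,⟨false,0,⟨0,[(52,0)]⟩,⟨5,[(14,
  0),(4,1),(2,0),(11,0),(0,0),(7,0),(10,1)]⟩⟩,⟨false,1,⟨1,[(34,0),(2,1),(9,0)]⟩,⟨1,[(3,1),(13,1),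
  (18,0),(8,0),(0,0)]⟩⟩,[.e ⟨true,0,⟨3,[(3,2),(0,0),(6,1),(1,0),(26,0),(1,0),(2,1),(3,0),(6,2)]⟩,⟨1,
  [(1,1),(12,0),(26,0),(0,0)]⟩⟩ ⟨true,0,⟨0,[(0,0)]⟩,⟨1,[(1,0),(2,0),(12,0),(18,0),(8,0),(0,0)]⟩⟩,.o
  ⟨false,1,⟨23,[(5,1),(8,1),(4,3),(2,5),(11,4),(0,4),(3,1),(7,9)]⟩,⟨0,[(52,0)]⟩⟩,.a ⟨true,0,⟨1,[(36,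
  0),(8,0),(0,0)]⟩,⟨0,[(37,0)]⟩⟩ ⟨false,0,⟨4,[(3,3),(0,0),(6,1),(1,0),(28,1),(2,1),(3,0),(2,0)]⟩,⟨1,
  [(34,0),(19,0)]⟩⟩ ⟨true,0,⟨0,[(0,0)]⟩,⟨1,[(36,0),(8,0),(0,0),(5,1)]⟩⟩,.o ⟨false,0,⟨1,[(36,0),(2,
  0),(2,0)]⟩,⟨1,[(37,1),(9,0),(5,0)]⟩⟩]⟩)))))))) (.K ⟨0,[0,1,1],1,0,(⟨0,[(39,0),(2,0)]⟩,⟨0,[(21,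
  0)]⟩),.k,.k,(.r 0 ⟨2,[(0,1),(26,0),(0,0),(6,1),(1,2),(7,5)]⟩ ⟨0,[(2,0),(5,0)]⟩),.k,.k,[⟨0,[(0,
  0)]⟩,⟨0,[(9,0)]⟩,⟨2,[(2,0),(8,0),(22,1),(9,0)]⟩,⟨0,[(33,0),(11,0)]⟩]⟩)))))

theorem ok26 : chk (cU (-1) false 2) t26 l29 = true := by decide +kernel

noncomputable def t44 : Tre :=
  (.Q [0,-1,0,2,0,0,1,1,0,1,-1] (.p false [0,0,1] [1] (⟨0,[(30,0)]⟩,⟨0,[(29,0)]⟩) .k 1 (⟨0,[]⟩,⟨0,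
  []⟩) .k .k) (.R ⟨1,false,false,false,[1,-1],[0,0,1],[0,0,1],(⟨0,[(33,0)]⟩,⟨0,[(34,0)]⟩),(⟨0,[(31,
  0)]⟩,⟨0,[(30,0)]⟩),⟨0,[(10,0),(2,0)]⟩,.k,.k,(.r (-1) ⟨1,[(1,0),(10,0)]⟩ ⟨0,[(0,0),(23,0),(1,0),(0,
  0)]⟩),.k,(.r (-1) ⟨0,[(1,0)]⟩ ⟨1,[(0,1),(23,1),(2,0),(0,0),(12,1)]⟩),.k,⟨true,0,⟨1,[(4,0),(21,0),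
  (0,0)]⟩,⟨0,[(29,0)]⟩⟩,⟨false,1,⟨0,[(0,0),(0,0),(39,0)]⟩,⟨0,[(24,0)]⟩⟩,⟨false,0,⟨1,[(0,0),(3,0),
  (19,0),(2,0),(0,0)]⟩,⟨3,[(1,0),(10,0),(25,1)]⟩⟩,⟨true,0,⟨0,[(0,0),(35,0)]⟩,⟨0,[(9,0)]⟩⟩,⟨false,0,
  ⟨1,[(0,1),(3,0),(19,1),(1,0),(0,0)]⟩,⟨1,[(1,0),(10,0)]⟩⟩,⟨false,0,⟨0,[(0,0)]⟩,⟨2,[(7,0),(1,2),(4,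
  0),(13,0),(10,1)]⟩⟩,[.a ⟨true,0,⟨1,[(0,0),(6,0),(22,0),(0,0)]⟩,⟨0,[(11,0)]⟩⟩ ⟨true,0,⟨1,[(27,0),
  (0,0)]⟩,⟨0,[]⟩⟩ ⟨false,1,⟨1,[(0,1),(0,0),(10,0),(28,1)]⟩,⟨1,[(4,0),(18,0),(0,0)]⟩⟩,.o ⟨false,1,⟨7,
  [(0,3),(6,3),(11,0),(0,0),(11,1),(6,3)]⟩,⟨0,[(23,0)]⟩⟩,.o ⟨false,0,⟨0,[(16,0),(10,0)]⟩,⟨3,[(19,0),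
  (0,0),(17,1)]⟩⟩,.o ⟨false,0,⟨0,[(24,0),(2,0)]⟩,⟨0,[(38,0)]⟩⟩]⟩) (.I [1,1,-1,-1,0,0,0,1,-1] (.Q [0,
  0,0,0,0,-1,0,0,0,0,0,1] (.p true [0,0,0,1] [] (⟨0,[(23,0)]⟩,⟨1,[(22,0),(8,0),(0,0)]⟩) .k 0 (⟨0,
  []⟩,⟨0,[]⟩) .k .k) (.R ⟨1,false,false,true,[0,0,0,1],[0,-1,1],[0,0,0,0,0,0,0,0,1],(⟨0,[(24,0)]⟩,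
  ⟨1,[(23,0),(8,0),(0,0)]⟩),(⟨0,[(12,0)]⟩,⟨0,[(32,0),(3,0)]⟩),⟨0,[(0,0)]⟩,.k,.k,(.r (-1) ⟨3,[(3,0),
  (10,0),(7,1)]⟩ ⟨0,[(5,0),(25,0)]⟩),(.x (-1) ⟨7,[(20,3),(0,0),(0,0),(9,7),(1,1),(1,7),(3,3)]⟩ ⟨0,
  [(12,0),(16,0)]⟩),.k,.k,⟨false,1,⟨1,[(6,1),(15,0),(16,1),(0,0)]⟩,⟨0,[(1,0)]⟩⟩,⟨true,0,⟨0,[(24,0),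
  (4,0)]⟩,⟨1,[(20,0),(2,0)]⟩⟩,⟨false,1,⟨3,[(21,0),(0,0),(18,1)]⟩,⟨0,[]⟩⟩,⟨false,0,⟨0,[(1,0),(4,0),
  (0,0),(31,0)]⟩,⟨3,[(6,1),(6,1),(4,1),(3,1),(0,1),(15,3),(0,0),(0,0)]⟩⟩,⟨true,0,⟨0,[(39,0)]⟩,⟨0,
  [(38,0)]⟩⟩,⟨false,0,⟨0,[(1,0),(4,0),(0,0),(31,1)]⟩,⟨3,[(6,1),(6,1),(4,1),(3,1),(0,1),(16,0),(0,
  0)]⟩⟩,[.o ⟨false,0,⟨0,[(17,0)]⟩,⟨1,[(13,1),(20,0),(4,1),(1,0)]⟩⟩,.a ⟨true,0,⟨1,[(7,1),(15,0),(8,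
  0),(0,0)]⟩,⟨0,[(13,0),(25,0)]⟩⟩ ⟨false,1,⟨0,[(4,0),(1,1),(3,0),(28,1)]⟩,⟨1,[(1,0),(3,0),(37,0)]⟩⟩
  ⟨true,0,⟨0,[(7,0)]⟩,⟨1,[(6,0),(16,0),(2,0),(1,0),(10,1)]⟩⟩,.e ⟨false,1,⟨1,[(22,0),(18,0)]⟩,⟨0,[(1,
  0),(4,0),(32,0)]⟩⟩ ⟨false,0,⟨0,[(7,0)]⟩,⟨7,[(5,1),(7,3),(5,1),(0,1),(1,0),(0,3),(10,0),(4,5),(1,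
  3)]⟩⟩,.o ⟨false,0,⟨1,[(23,0),(2,0),(2,0)]⟩,⟨1,[(24,1),(9,0),(5,0)]⟩⟩]⟩) (.I [0,0,0,0,0,0,0,-1,-1]
  (.R ⟨0,false,false,true,[0,0,0,1],[0,-1,1],[0,1,0,0,0,0,0,0,1],(⟨0,[(25,0)]⟩,⟨1,[(24,0),(8,0),(0,
  0)]⟩),(⟨0,[(13,0)]⟩,⟨0,[(33,0),(3,0)]⟩),⟨0,[(1,0)]⟩,.k,.k,(.r (-1) ⟨3,[(4,0),(10,0),(7,1)]⟩ ⟨0,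
  [(6,0),(25,0)]⟩),(.x (-1) ⟨7,[(21,3),(0,0),(0,0),(9,7),(1,1),(1,7),(3,3)]⟩ ⟨0,[(13,0),(16,0)]⟩),
  .k,.k,⟨false,1,⟨3,[(7,0),(12,1),(2,1),(5,0),(0,0),(9,3)]⟩,⟨0,[(0,0),(10,0)]⟩⟩,⟨true,0,⟨0,[(25,0),
  (4,0)]⟩,⟨1,[(21,0),(2,0)]⟩⟩,⟨true,0,⟨0,[(44,0)]⟩,⟨0,[]⟩⟩,⟨false,0,⟨1,[(0,0),(5,0),(1,1),(2,0)]⟩,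
  ⟨3,[(7,1),(6,1),(4,1),(3,1),(0,1),(15,3),(0,0),(0,0)]⟩⟩,⟨false,0,⟨0,[]⟩,⟨0,[]⟩⟩,⟨false,0,⟨0,[]⟩,
  ⟨0,[]⟩⟩,[.o ⟨false,0,⟨0,[(18,0)]⟩,⟨1,[(14,1),(20,0),(4,1),(1,0)]⟩⟩,.a ⟨true,0,⟨1,[(8,1),(15,0),(8,
  0),(0,0)]⟩,⟨0,[(14,0),(25,0)]⟩⟩ ⟨false,1,⟨1,[(23,0),(17,0)]⟩,⟨1,[(0,0),(5,0),(4,0)]⟩⟩ ⟨true,0,⟨0,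
  [(8,0)]⟩,⟨1,[(7,0),(16,0),(2,0),(1,0),(10,1)]⟩⟩,.e ⟨false,1,⟨3,[(22,0),(0,2)]⟩,⟨0,[(0,0),(6,0),(3,
  0),(28,0)]⟩⟩ ⟨false,0,⟨0,[(8,0)]⟩,⟨7,[(6,1),(7,3),(5,1),(0,1),(1,0),(0,3),(10,0),(4,5),(1,3)]⟩⟩,
  .o ⟨false,0,⟨1,[(24,0),(2,0),(2,0)]⟩,⟨1,[(25,1),(9,0),(5,0)]⟩⟩]⟩) (.R ⟨1,false,false,false,[1,0,0,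
  -1],[1,0,-1],[1,1,0,-1,0,0,0,0,-1],(⟨1,[(24,0),(8,0),(0,0)]⟩,⟨0,[(25,0)]⟩),(⟨0,[(33,0)]⟩,⟨0,[(34,
  0)]⟩),⟨1,[(13,0),(2,0),(7,0)]⟩,.k,.k,(.r (-1) ⟨3,[(4,0),(10,0),(6,1)]⟩ ⟨1,[(0,1),(6,0),(21,0),(0,
  0),(9,1)]⟩),.k,(.x 0 ⟨0,[(13,0),(16,0)]⟩ ⟨7,[(21,3),(0,0),(0,0),(9,7),(1,1),(1,7),(3,3)]⟩),.k,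
  ⟨false,0,⟨0,[(2,0)]⟩,⟨1,[(7,1),(15,0),(16,1),(0,0)]⟩⟩,⟨true,0,⟨1,[(21,0),(2,0)]⟩,⟨0,[(25,0),(4,
  0)]⟩⟩,⟨true,0,⟨0,[(39,0)]⟩,⟨0,[(40,0)]⟩⟩,⟨false,1,⟨3,[(7,1),(6,1),(4,1),(3,1),(0,1),(16,0),(0,
  0)]⟩,⟨0,[(2,0),(4,0),(0,0),(31,1)]⟩⟩,⟨false,0,⟨0,[]⟩,⟨3,[(22,0),(0,0),(18,1)]⟩⟩,⟨false,1,⟨3,[(7,
  1),(6,1),(4,1),(3,1),(0,1),(15,3),(0,0),(0,0)]⟩,⟨0,[(2,0),(4,0),(0,0),(31,0)]⟩⟩,[.a ⟨true,0,⟨0,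
  [(14,0)]⟩,⟨1,[(8,1),(15,0),(8,0),(0,0),(5,1)]⟩⟩ ⟨true,0,⟨2,[(2,1),(3,0),(0,0),(31,1)]⟩,⟨0,[(0,0),
  (6,0),(32,0)]⟩⟩ ⟨false,1,⟨1,[(20,1),(0,0),(2,0)]⟩,⟨0,[(8,0),(31,0)]⟩⟩,.o ⟨false,1,⟨1,[(14,1),(20,
  0),(6,0)]⟩,⟨0,[(28,0)]⟩⟩,.e ⟨false,0,⟨0,[(2,0),(4,0)]⟩,⟨1,[(23,0),(16,1),(1,0)]⟩⟩ ⟨false,1,⟨3,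
  [(14,1),(9,1),(4,1),(5,0),(6,2)]⟩,⟨0,[(8,0),(31,0)]⟩⟩,.o ⟨false,0,⟨0,[(19,0),(5,0),(4,0)]⟩,⟨7,
  [(22,0),(0,0),(0,3),(10,1),(5,3)]⟩⟩]⟩))) (.I [0,1,-1,0,0,0,0,1,1] (.R ⟨1,false,false,true,[1,0,0,
  -1],[0,-1,1],[1,0,0,-1,0,0,0,0,-1],(⟨1,[(23,0),(8,0),(0,0)]⟩,⟨0,[(24,0)]⟩),(⟨0,[(12,0)]⟩,⟨0,[(32,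
  0),(3,0)]⟩),⟨1,[(12,0),(2,0),(7,0)]⟩,.k,.k,(.r (-1) ⟨3,[(3,0),(10,0),(6,1)]⟩ ⟨3,[(0,0),(0,2),(25,
  1),(2,1),(8,0)]⟩),(.x (-1) ⟨7,[(20,3),(0,0),(0,0),(9,7),(1,1),(1,7),(3,3)]⟩ ⟨0,[(12,0),(16,0)]⟩),
  .k,.k,⟨false,1,⟨5,[(3,1),(1,3),(15,0),(19,2)]⟩,⟨0,[(0,0)]⟩⟩,⟨true,0,⟨1,[(23,0),(5,1),(2,0),(0,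
  0)]⟩,⟨0,[(18,0),(5,0)]⟩⟩,⟨false,1,⟨2,[(9,0),(6,0),(13,0),(10,1)]⟩,⟨0,[(39,0)]⟩⟩,⟨false,0,⟨0,[(0,
  0),(5,0),(0,0),(15,0)]⟩,⟨1,[(5,1),(12,1),(5,1),(15,0),(0,0)]⟩⟩,⟨true,0,⟨0,[]⟩,⟨0,[(43,0)]⟩⟩,
  ⟨false,0,⟨1,[(0,0),(0,0),(5,1),(15,1),(15,0)]⟩,⟨5,[(3,1),(1,3),(12,5),(2,0),(2,5),(16,2)]⟩⟩,[.o
  ⟨false,0,⟨0,[(17,0)]⟩,⟨3,[(1,1),(3,1),(14,1),(13,0),(5,1),(0,0)]⟩⟩,.a ⟨true,0,⟨1,[(7,1),(15,0),(8,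
  0),(0,0)]⟩,⟨0,[(13,0),(25,0)]⟩⟩ ⟨false,1,⟨5,[(3,1),(1,3),(0,2),(1,2),(1,2),(10,0)]⟩,⟨1,[(0,0),(0,
  0),(37,0),(3,1)]⟩⟩ ⟨true,0,⟨0,[(7,0),(15,0)]⟩,⟨2,[(1,0),(3,0),(12,0),(5,2),(0,0),(0,0),(12,0)]⟩⟩,
  .e ⟨false,1,⟨1,[(6,0),(7,0),(6,0),(15,0)]⟩,⟨1,[(0,0),(0,0),(37,0)]⟩⟩ ⟨false,0,⟨0,[(7,0),(15,0)]⟩,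
  ⟨3,[(1,1),(3,1),(14,1),(3,3),(9,0),(5,1),(0,0)]⟩⟩,.o ⟨false,0,⟨0,[(18,0),(5,0),(4,0)]⟩,⟨7,[(21,0),
  (0,0),(0,3),(10,1),(5,3)]⟩⟩]⟩) (.Q [0,1,0,0,0,0,0,0,1,0,0,-1] (.p false [0,0,0,1] [] (⟨0,[(24,
  0)]⟩,⟨1,[(23,0),(8,0),(0,0)]⟩) .k 0 (⟨0,[]⟩,⟨0,[]⟩) .k .k) (.I [1,0,0,0,0,0,0,0,1] (.Q [0,0,0,0,0,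
  0,0,0,-1,0,0,1] (.p true [0,0,0,1] [] (⟨0,[(26,0)]⟩,⟨1,[(25,0),(8,0),(0,0)]⟩) .k 0 (⟨0,[]⟩,⟨0,
  []⟩) .k .k) (.R ⟨2,false,false,false,[0,1],[1,0,0,-1],[1,1,1],(⟨0,[]⟩,⟨0,[]⟩),(⟨1,[(26,0),(8,0),
  (0,0)]⟩,⟨0,[(27,0)]⟩),⟨0,[]⟩,.k,.k,.k,(.r 0 ⟨1,[(1,0),(2,0),(25,0),(2,0),(8,0)]⟩ ⟨3,[(6,0),(10,0),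
  (6,1)]⟩),.k,.k,⟨false,0,⟨0,[(1,0),(44,0)]⟩,⟨0,[(8,0),(2,0)]⟩⟩,⟨true,0,⟨0,[(21,0),(5,0),(4,0)]⟩,⟨1,
  [(26,0),(8,0),(0,0)]⟩⟩,⟨true,0,⟨0,[(41,0)]⟩,⟨0,[(42,0)]⟩⟩,⟨false,1,⟨14,[(0,9),(2,2),(1,3),(4,4),
  (0,1),(12,0),(4,0),(7,4),(6,6)]⟩,⟨1,[(1,1),(24,0),(8,0),(0,0),(5,1)]⟩⟩,⟨false,0,⟨0,[]⟩,⟨3,[(24,0),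
  (0,0),(18,1)]⟩⟩,⟨false,1,⟨1,[(0,1),(36,0),(6,0)]⟩,⟨1,[(1,1),(24,0),(8,0),(0,0)]⟩⟩,[.a ⟨true,0,⟨0,
  [(0,0)]⟩,⟨1,[(1,1),(24,0),(8,0),(0,0)]⟩⟩ ⟨false,0,⟨0,[(46,0)]⟩,⟨1,[(43,0),(0,0)]⟩⟩ ⟨true,0,⟨0,[(0,
  0),(20,0),(10,0)]⟩,⟨1,[(1,1),(24,0),(8,0),(0,0)]⟩⟩,.o ⟨false,1,⟨1,[(0,1),(36,0),(6,0)]⟩,⟨0,[(2,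
  0)]⟩⟩,.o ⟨false,1,⟨3,[(24,0),(0,0),(17,1)]⟩,⟨0,[(21,0),(10,0)]⟩⟩,.e ⟨false,0,⟨0,[]⟩,⟨3,[(24,0),(0,
  0),(18,1)]⟩⟩ ⟨false,1,⟨1,[(0,1),(36,0),(6,0)]⟩,⟨1,[(1,1),(24,0),(8,0),(0,0)]⟩⟩]⟩) (.Q [0,1,0,0,0,
  0,0,0,-1,-1,0,2] (.p true [0,0,0,1] [1,0,0,-1] (⟨0,[(27,0)]⟩,⟨1,[(26,0),(8,0),(0,0)]⟩) .k 2 (⟨1,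
  [(26,0),(8,0),(0,0)]⟩,⟨0,[(27,0)]⟩) .k .k) (.R ⟨1,false,false,true,[1,0,0,-1],[0,0,0,1],[0,1,0,0,
  0,0,0,0,-1],(⟨1,[(27,0),(8,0),(0,0)]⟩,⟨0,[(28,0)]⟩),(⟨0,[(28,0)]⟩,⟨1,[(27,0),(8,0),(0,0)]⟩),⟨1,
  [(16,0),(2,0),(7,0)]⟩,.k,.k,(.r (-1) ⟨3,[(7,0),(10,0),(6,1)]⟩ ⟨1,[(2,0),(2,0),(25,0),(2,0),(8,
  0)]⟩),.k,(.r (-1) ⟨6,[(0,3),(3,3),(2,1),(6,2),(10,2),(1,3),(16,1)]⟩ ⟨1,[(2,2),(2,0),(25,0),(2,0),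
  (8,0)]⟩),.k,⟨false,1,⟨3,[(0,1),(3,1),(4,1),(4,1),(10,0),(1,1),(16,2)]⟩,⟨0,[(2,1)]⟩⟩,⟨true,0,⟨0,
  [(27,0)]⟩,⟨1,[(0,0),(4,0),(5,0),(16,0),(1,0)]⟩⟩,⟨true,0,⟨0,[(47,0)]⟩,⟨0,[]⟩⟩,⟨false,0,⟨0,[(2,1),
  (24,0)]⟩,⟨4,[(0,4),(3,2),(7,0),(1,0),(10,0),(17,1),(1,2)]⟩⟩,⟨false,0,⟨0,[(43,0)]⟩,⟨2,[(13,0),(6,
  0),(13,0),(10,1)]⟩⟩,⟨false,0,⟨0,[(2,1),(24,0),(15,0)]⟩,⟨23,[(0,21),(3,19),(6,3),(2,3),(3,7),(5,1),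
  (0,2),(19,12)]⟩⟩,[.o ⟨false,0,⟨0,[(3,0)]⟩,⟨19,[(0,9),(3,5),(7,1),(1,1),(10,1),(12,4),(4,3),(1,
  10)]⟩⟩,.o ⟨false,0,⟨0,[(1,0)]⟩,⟨7,[(0,3),(24,2),(0,0),(11,1),(6,1)]⟩⟩,.a ⟨true,0,⟨0,[(28,0)]⟩,⟨1,
  [(27,0),(8,0),(0,0)]⟩⟩ ⟨true,0,⟨0,[(0,0),(26,0)]⟩,⟨0,[(2,0)]⟩⟩ ⟨false,0,⟨0,[(2,0),(24,0)]⟩,⟨0,[(0,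
  0),(44,0)]⟩⟩,.o ⟨false,0,⟨2,[(0,0),(4,0),(5,0),(10,0),(7,0),(2,0)]⟩,⟨7,[(25,0),(0,0),(0,3),(10,1),
  (5,3)]⟩⟩]⟩) (.I [0,-1,0,0,0,0,0,0,1] (.Q [0,0,0,0,0,-1,0,0,0,0,0,1] (.p true [0,0,0,1] [] (⟨0,
  [(29,0)]⟩,⟨1,[(28,0),(8,0),(0,0)]⟩) .k 0 (⟨0,[]⟩,⟨0,[]⟩) .k .k) (.R ⟨1,false,false,true,[0,0,0,1],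
  [1,-1],[0,0,0,0,0,0,0,0,1],(⟨0,[(30,0)]⟩,⟨1,[(29,0),(8,0),(0,0)]⟩),(⟨0,[(41,0)]⟩,⟨0,[(42,0)]⟩),⟨0,
  [(0,0)]⟩,.k,.k,(.r (-1) ⟨3,[(9,0),(10,0),(7,1)]⟩ ⟨0,[(11,0),(25,0)]⟩),(.r 0 ⟨1,[(4,0),(2,0),(25,
  0),(2,0),(8,0)]⟩ ⟨3,[(9,0),(10,0),(6,1)]⟩),.k,.k,⟨false,0,⟨0,[(1,0),(43,0)]⟩,⟨3,[(9,0),(10,0),(6,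
  1),(21,3)]⟩⟩,⟨true,0,⟨0,[(24,0),(5,0),(4,0)]⟩,⟨1,[(29,0),(8,0),(0,0)]⟩⟩,⟨false,1,⟨3,[(27,0),(0,0),
  (18,1)]⟩,⟨0,[]⟩⟩,⟨false,1,⟨5,[(8,1),(4,1),(13,2),(2,3),(9,1),(6,0)]⟩,⟨0,[(2,0),(27,0),(14,0)]⟩⟩,
  ⟨true,0,⟨0,[(45,0)]⟩,⟨0,[(44,0)]⟩⟩,⟨false,1,⟨1,[(27,0),(2,1),(9,0)]⟩,⟨0,[(2,0),(27,0)]⟩⟩,[.e
  ⟨true,0,⟨0,[(1,0),(6,0),(4,1),(5,0),(9,0),(15,3)]⟩,⟨3,[(6,0),(4,2),(3,0),(0,0),(19,0),(0,0)]⟩⟩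
  ⟨true,0,⟨0,[(13,0),(17,0)]⟩,⟨1,[(29,0),(8,0),(0,0),(3,1),(1,1)]⟩⟩,.o ⟨false,1,⟨15,[(8,3),(6,3),
  (11,2),(0,2),(11,5),(6,3)]⟩,⟨0,[(45,0)]⟩⟩,.a ⟨true,0,⟨1,[(29,0),(8,0),(0,0)]⟩,⟨0,[(30,0)]⟩⟩
  ⟨false,0,⟨0,[(1,0)]⟩,⟨3,[(27,2),(0,0)]⟩⟩ ⟨true,0,⟨0,[(13,0),(17,0)]⟩,⟨1,[(29,0),(8,0),(0,0),(5,
  1)]⟩⟩,.o ⟨false,0,⟨1,[(29,0),(2,0),(2,0)]⟩,⟨1,[(30,1),(9,0),(5,0)]⟩⟩]⟩) (.R ⟨0,false,false,true,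
  [0,0,0,1],[1,-1],[1,1,0,-1,0,0,0,0,1],(⟨0,[(30,0)]⟩,⟨1,[(29,0),(8,0),(0,0)]⟩),(⟨0,[(41,0)]⟩,⟨0,
  [(42,0)]⟩),⟨0,[(0,0)]⟩,.k,.k,(.r (-1) ⟨3,[(9,0),(10,0),(7,1)]⟩ ⟨0,[(11,0),(25,0)]⟩),(.r 0 ⟨1,[(4,
  0),(2,0),(25,0),(2,0),(8,0)]⟩ ⟨3,[(9,0),(10,0),(6,1)]⟩),.k,.k,⟨false,0,⟨0,[(4,0)]⟩,⟨1,[(27,0),(18,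
  0)]⟩⟩,⟨true,0,⟨0,[(24,0),(5,0),(4,0)]⟩,⟨1,[(29,0),(8,0),(0,0)]⟩⟩,⟨true,0,⟨0,[(44,0)]⟩,⟨0,[(45,
  0)]⟩⟩,⟨false,1,⟨5,[(8,1),(4,1),(13,2),(2,3),(9,1),(6,0)]⟩,⟨0,[(2,0),(27,0),(14,0)]⟩⟩,⟨false,0,⟨0,
  []⟩,⟨0,[]⟩⟩,⟨false,0,⟨0,[]⟩,⟨0,[]⟩⟩,[.e ⟨true,0,⟨0,[(4,0),(39,0)]⟩,⟨0,[(6,0),(30,0),(7,0)]⟩⟩
  ⟨true,0,⟨0,[(13,0),(17,0)]⟩,⟨1,[(29,0),(8,0),(0,0),(3,1),(1,1)]⟩⟩,.o ⟨false,1,⟨15,[(8,3),(6,3),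
  (11,2),(0,2),(11,5),(6,3)]⟩,⟨0,[(45,0)]⟩⟩,.a ⟨true,0,⟨1,[(29,0),(8,0),(0,0)]⟩,⟨0,[(30,0)]⟩⟩
  ⟨false,0,⟨3,[(2,0),(1,2),(3,0),(4,1),(5,0)]⟩,⟨1,[(27,0),(17,1),(1,0)]⟩⟩ ⟨true,0,⟨0,[(13,0),(17,
  0)]⟩,⟨1,[(29,0),(8,0),(0,0),(5,1)]⟩⟩,.o ⟨false,0,⟨1,[(29,0),(2,0),(2,0)]⟩,⟨1,[(30,1),(9,0),(5,
  0)]⟩⟩]⟩)) (.K ⟨1,[0,0,0,1],0,0,(⟨0,[(29,0)]⟩,⟨1,[(28,0),(8,0),(0,0)]⟩),.k,(.r (-1) ⟨3,[(8,0),(10,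
  0),(7,1)]⟩ ⟨0,[(10,0),(25,0)]⟩),(.r 0 ⟨1,[(3,0),(2,0),(25,0),(2,0),(8,0)]⟩ ⟨3,[(8,0),(10,0),(6,
  1)]⟩),.k,.k,[⟨1,[(29,1),(4,0),(0,0)]⟩,⟨1,[(28,0),(2,0),(2,0)]⟩,⟨0,[(0,0),(28,0)]⟩,⟨0,[(1,0),(27,
  0)]⟩]⟩)))) (.R ⟨1,false,false,false,[1,0,0,-1],[1,-1],[0,0,0,0,0,0,0,0,-1],(⟨1,[(25,0),(8,0),(0,
  0)]⟩,⟨0,[(26,0)]⟩),(⟨0,[(37,0)]⟩,⟨0,[(38,0)]⟩),⟨1,[(14,0),(2,0),(7,0)]⟩,.k,.k,(.r (-1) ⟨3,[(5,0),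
  (10,0),(6,1)]⟩ ⟨2,[(1,0),(1,1),(22,0),(2,0),(2,0),(0,0),(7,0)]⟩),(.r 0 ⟨0,[(7,0),(25,0)]⟩ ⟨3,[(5,
  0),(10,0),(7,1)]⟩),.k,.k,⟨false,0,⟨0,[(0,0),(40,0)]⟩,⟨3,[(5,0),(10,0),(7,1)]⟩⟩,⟨true,0,⟨1,[(25,0),
  (2,0),(2,0)]⟩,⟨0,[(26,0)]⟩⟩,⟨false,1,⟨3,[(23,0),(0,0),(18,1)]⟩,⟨0,[]⟩⟩,⟨false,1,⟨37,[(3,17),(0,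
  10),(5,5),(0,10),(0,5),(11,9),(0,18),(10,3),(6,17)]⟩,⟨0,[(0,0),(25,0),(14,0)]⟩⟩,⟨true,0,⟨0,[(41,
  0)]⟩,⟨0,[(40,0)]⟩⟩,⟨false,1,⟨37,[(3,11),(0,0),(5,3),(0,0),(0,3),(11,12),(0,18),(10,8),(6,11)]⟩,⟨0,
  [(0,0),(25,0)]⟩⟩,[.o ⟨false,1,⟨15,[(4,3),(6,3),(11,2),(0,2),(11,5),(6,3)]⟩,⟨0,[(41,0)]⟩⟩,.o
  ⟨false,1,⟨9,[(4,1),(3,2),(1,0),(0,1),(0,0),(23,3),(6,4)]⟩,⟨0,[(41,0),(3,0)]⟩⟩,.a ⟨true,0,⟨0,[(26,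
  0)]⟩,⟨1,[(25,0),(8,0),(0,0)]⟩⟩ ⟨true,0,⟨0,[(0,0)]⟩,⟨0,[(1,0),(24,0)]⟩⟩ ⟨false,1,⟨15,[(4,3),(6,3),
  (11,0),(0,0),(0,7),(10,1),(6,11)]⟩,⟨0,[(26,0),(14,0)]⟩⟩,.o ⟨false,0,⟨0,[(20,0),(5,0),(4,0)]⟩,⟨7,
  [(23,0),(0,0),(0,3),(10,1),(5,3)]⟩⟩]⟩)) (.R ⟨1,false,false,true,[1,0,0,-1],[1,-1],[0,1,0,0,0,0,0,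
  0,-1],(⟨1,[(24,0),(8,0),(0,0)]⟩,⟨0,[(25,0)]⟩),(⟨0,[(36,0)]⟩,⟨0,[(37,0)]⟩),⟨1,[(13,0),(2,0),(7,
  0)]⟩,.k,.k,(.r (-1) ⟨3,[(4,0),(10,0),(6,1)]⟩ ⟨0,[(2,0),(29,0),(11,0)]⟩),(.r 0 ⟨0,[(6,0),(25,0)]⟩
  ⟨3,[(4,0),(10,0),(7,1)]⟩),.k,.k,⟨false,0,⟨1,[(0,1),(23,0),(1,0),(1,0),(11,1)]⟩,⟨3,[(4,0),(10,0),
  (7,1)]⟩⟩,⟨true,0,⟨1,[(24,0),(2,0),(2,0)]⟩,⟨0,[(25,0)]⟩⟩,⟨true,0,⟨0,[(44,0)]⟩,⟨0,[]⟩⟩,⟨false,1,⟨15,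
  [(3,3),(6,3),(11,0),(0,8),(0,7),(10,1),(6,3)]⟩,⟨0,[(0,0),(39,0)]⟩⟩,⟨false,0,⟨0,[(40,0)]⟩,⟨2,[(10,
  0),(6,0),(13,0),(10,1)]⟩⟩,⟨false,1,⟨7,[(22,0),(0,4),(0,3),(10,1)]⟩,⟨0,[(0,0)]⟩⟩,[.e ⟨true,0,⟨1,
  [(0,1),(23,0),(1,0),(1,0),(15,1)]⟩,⟨3,[(2,3),(4,0),(2,0),(0,1),(19,0)]⟩⟩ ⟨true,0,⟨3,[(10,0),(1,1),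
  (11,1),(3,0)]⟩,⟨2,[(0,0),(1,1),(3,0),(18,1),(6,2)]⟩⟩,.o ⟨false,1,⟨15,[(3,3),(6,3),(11,2),(0,2),
  (11,5),(6,3)]⟩,⟨0,[(40,0)]⟩⟩,.a ⟨true,0,⟨0,[(25,0)]⟩,⟨1,[(24,0),(8,0),(0,0)]⟩⟩ ⟨false,0,⟨1,[(0,1),
  (23,0),(1,0),(1,0)]⟩,⟨1,[(23,0),(18,0)]⟩⟩ ⟨true,0,⟨3,[(10,0),(1,1),(11,1),(3,0)]⟩,⟨0,[(25,0),(14,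
  0)]⟩⟩,.o ⟨false,0,⟨0,[(19,0),(5,0),(4,0)]⟩,⟨7,[(22,0),(0,0),(0,3),(10,1),(5,3)]⟩⟩]⟩)))))

theorem ok44 : chk (cU (-1) false 2) t44 l33 = true := by decide +kernel

noncomputable def t80 : Tre :=
  (.I [0,1,-1,-1,0,0,0,1] (.R ⟨1,true,true,false,[1,-1,1],[],[0,1,-1,-1,0,0,0,1],(⟨0,[(32,0),(1,
  0)]⟩,⟨0,[(8,0)]⟩),(⟨0,[]⟩,⟨0,[]⟩),⟨0,[(4,0),(0,0),(8,0)]⟩,.k,.k,(.r (-1) ⟨0,[(13,0)]⟩ ⟨1,[(2,1),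
  (25,0),(0,0),(12,1)]⟩),.k,(.r (-1) ⟨0,[(13,0)]⟩ ⟨1,[(2,1),(25,0),(0,0),(12,1)]⟩),.k,⟨true,0,⟨0,
  [(0,0)]⟩,⟨1,[(2,0),(24,0),(0,0),(7,1)]⟩⟩,⟨false,1,⟨0,[(3,0),(9,0)]⟩,⟨0,[(7,0)]⟩⟩,⟨true,0,⟨0,[(42,
  0)]⟩,⟨0,[]⟩⟩,⟨false,1,⟨11,[(3,7),(11,3),(4,0),(0,0),(7,3),(1,3),(0,3),(7,5)]⟩,⟨0,[(6,0)]⟩⟩,⟨false,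
  0,⟨0,[(38,0)]⟩,⟨0,[(37,0),(2,0)]⟩⟩,⟨true,0,⟨0,[(3,0)]⟩,⟨0,[(6,0),(30,0)]⟩⟩,[]⟩) (.I [0,0,-1,0,0,0,
  0,1,-1] (.Q [0,0,0,0,0,1,0,0,0,0,0,-1] (.p false [0,0,0,1] [] (⟨0,[(24,0)]⟩,⟨1,[(23,0),(8,0),(0,
  0)]⟩) .k 0 (⟨0,[]⟩,⟨0,[]⟩) .k .k) (.I [0,1,-1,-2,1,0,0,0,1] (.R ⟨0,false,false,false,[0,0,0,1],[0,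
  1],[0,1,0,-1,0,0,0,0,1],(⟨0,[(26,0)]⟩,⟨1,[(25,0),(8,0),(0,0)]⟩),(⟨0,[(38,0)]⟩,⟨0,[(37,0)]⟩),⟨0,
  [(1,0)]⟩,.k,.k,(.x 0 ⟨2,[(8,0),(8,1),(10,1)]⟩ ⟨3,[(23,0),(0,0),(13,3),(3,1)]⟩),(.x 0 ⟨2,[(8,0),(8,
  1),(10,1)]⟩ ⟨3,[(23,0),(0,0),(13,3),(3,1)]⟩),.k,.k,⟨true,1,⟨0,[(0,0)]⟩,⟨0,[(4,0)]⟩⟩,⟨false,1,⟨0,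
  [(26,0),(15,0)]⟩,⟨1,[(25,0),(2,0),(2,0)]⟩⟩,⟨true,0,⟨0,[(40,0)]⟩,⟨0,[(41,0)]⟩⟩,⟨false,0,⟨0,[(2,0),
  (0,0),(22,0)]⟩,⟨3,[(0,1),(9,0),(13,0),(0,1),(2,0),(14,0)]⟩⟩,⟨false,0,⟨0,[]⟩,⟨0,[]⟩⟩,⟨false,0,⟨0,
  []⟩,⟨0,[]⟩⟩,[.o ⟨false,0,⟨0,[(41,0)]⟩,⟨5,[(0,1),(9,0),(2,1),(9,0),(4,0),(7,0),(6,1)]⟩⟩,.o ⟨false,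
  1,⟨7,[(6,3),(8,3),(7,0),(0,0),(11,1),(6,3)]⟩,⟨0,[(13,0)]⟩⟩,.a ⟨true,0,⟨1,[(25,0),(8,0),(0,0)]⟩,⟨0,
  [(26,0)]⟩⟩ ⟨false,1,⟨3,[(0,1),(23,0),(6,0),(0,0),(10,0)]⟩,⟨0,[(2,0),(0,0)]⟩⟩ ⟨true,0,⟨0,[(26,0),
  (14,0)]⟩,⟨1,[(13,0),(11,0),(14,0)]⟩⟩,.o ⟨false,0,⟨1,[(25,0),(2,0),(2,0)]⟩,⟨1,[(26,1),(9,0),(5,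
  0)]⟩⟩]⟩) (.R ⟨0,false,false,false,[0,0,0,1],[0,1],[0,1,1],(⟨0,[(26,0)]⟩,⟨1,[(25,0),(8,0),(0,0)]⟩),
  (⟨0,[(38,0)]⟩,⟨0,[(37,0)]⟩),⟨0,[(1,0)]⟩,.k,.k,(.x 0 ⟨2,[(8,0),(8,1),(10,1)]⟩ ⟨3,[(23,0),(0,0),(13,
  3),(3,1)]⟩),(.x 0 ⟨2,[(8,0),(8,1),(10,1)]⟩ ⟨3,[(23,0),(0,0),(13,3),(3,1)]⟩),.k,.k,⟨true,0,⟨0,[(40,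
  0)]⟩,⟨3,[(4,1),(19,0),(18,0)]⟩⟩,⟨false,1,⟨0,[(26,0),(15,0)]⟩,⟨1,[(25,0),(2,0),(2,0)]⟩⟩,⟨true,(-1),
  ⟨0,[(0,0),(39,1)]⟩,⟨1,[(24,0),(17,0)]⟩⟩,⟨false,0,⟨9,[(0,5),(1,1),(15,1),(4,0),(2,9),(15,0),(0,
  1)]⟩,⟨1,[(13,0),(10,0),(0,0),(14,0),(2,0)]⟩⟩,⟨false,0,⟨0,[]⟩,⟨0,[]⟩⟩,⟨false,0,⟨0,[]⟩,⟨0,[]⟩⟩,[.o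
  ⟨false,0,⟨0,[(41,0)]⟩,⟨1,[(36,0),(3,1),(2,0)]⟩⟩,.o ⟨false,1,⟨7,[(6,3),(8,3),(7,0),(0,0),(11,1),(6,
  3)]⟩,⟨0,[(13,0)]⟩⟩,.a ⟨true,0,⟨1,[(25,0),(8,0),(0,0)]⟩,⟨0,[(26,0)]⟩⟩ ⟨false,0,⟨1,[(31,0),(0,0)]⟩,
  ⟨1,[(42,0),(0,0)]⟩⟩ ⟨true,0,⟨0,[(26,0),(14,0)]⟩,⟨1,[(13,0),(11,0),(14,0)]⟩⟩,.o ⟨false,0,⟨1,[(25,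
  0),(2,0),(2,0)]⟩,⟨1,[(26,1),(9,0),(5,0)]⟩⟩]⟩)) (.I [0,-1,2,2,-1,0,0,0,-1] (.I [1,1,-1,-2,1,0,0,0,
  1] (.R ⟨1,false,false,false,[0,0,0,1],[0,1],[1,1,0,-1,0,0,0,0,1],(⟨0,[(27,0)]⟩,⟨1,[(26,0),(8,0),
  (0,0)]⟩),(⟨0,[(39,0)]⟩,⟨0,[(38,0)]⟩),⟨0,[(2,0)]⟩,.k,.k,(.x 0 ⟨2,[(9,0),(8,1),(10,1)]⟩ ⟨3,[(24,0),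
  (0,0),(13,3),(3,1)]⟩),(.x 0 ⟨2,[(9,0),(8,1),(10,1)]⟩ ⟨3,[(24,0),(0,0),(13,3),(3,1)]⟩),(.r (-2)
  ⟨11,[(17,7),(1,7),(4,0),(0,6)]⟩ ⟨0,[(1,0),(44,0)]⟩),.k,⟨true,1,⟨0,[(0,0)]⟩,⟨0,[(1,0)]⟩⟩,⟨false,1,
  ⟨0,[(27,0),(15,0)]⟩,⟨1,[(26,0),(2,0),(2,0)]⟩⟩,⟨true,0,⟨0,[(41,0)]⟩,⟨0,[(42,0)]⟩⟩,⟨false,0,⟨0,[(3,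
  0),(0,0),(22,0)]⟩,⟨3,[(0,1),(10,0),(13,0),(0,1),(2,0),(14,0)]⟩⟩,⟨false,0,⟨0,[]⟩,⟨3,[(24,0),(0,0),
  (18,1)]⟩⟩,⟨false,0,⟨0,[(3,0),(2,0),(20,0)]⟩,⟨3,[(0,3),(3,0),(5,0),(10,0),(4,1),(13,2)]⟩⟩,[.o
  ⟨false,0,⟨0,[(42,0)]⟩,⟨5,[(0,1),(10,0),(2,1),(9,0),(4,0),(7,0),(6,1)]⟩⟩,.o ⟨false,1,⟨7,[(7,3),(8,
  3),(7,0),(0,0),(11,1),(6,3)]⟩,⟨0,[(14,0)]⟩⟩,.a ⟨true,0,⟨1,[(26,0),(8,0),(0,0)]⟩,⟨0,[(27,0)]⟩⟩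
  ⟨false,1,⟨3,[(0,1),(24,0),(6,0),(0,0),(10,0)]⟩,⟨0,[(3,0),(0,0)]⟩⟩ ⟨true,0,⟨0,[(27,0),(14,0)]⟩,⟨1,
  [(14,0),(11,0),(14,0)]⟩⟩,.o ⟨false,0,⟨1,[(26,0),(2,0),(2,0)]⟩,⟨1,[(27,1),(9,0),(5,0)]⟩⟩]⟩) (.R ⟨1,
  false,false,false,[0,0,0,1],[0,0,1],[1,1,0,-1,0,0,0,0,1],(⟨0,[(27,0)]⟩,⟨1,[(26,0),(8,0),(0,0)]⟩),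
  (⟨0,[(36,0)]⟩,⟨0,[(35,0)]⟩),⟨0,[(2,0)]⟩,.k,.k,(.x 0 ⟨2,[(9,0),(8,1),(10,1)]⟩ ⟨3,[(24,0),(0,0),(13,
  3),(3,1)]⟩),.k,(.r (-2) ⟨3,[(19,3),(4,0),(0,2)]⟩ ⟨1,[(0,0),(0,0),(6,0),(11,1)]⟩),.k,⟨true,1,⟨1,
  [(19,0),(5,0),(5,0),(0,0),(8,0)]⟩,⟨1,[(0,0),(0,0),(6,0),(4,1)]⟩⟩,⟨false,1,⟨0,[(16,0),(5,0),(4,
  0)]⟩,⟨1,[(23,0),(2,0)]⟩⟩,⟨true,0,⟨0,[(41,0)]⟩,⟨0,[(42,0)]⟩⟩,⟨false,0,⟨13,[(0,7),(2,3),(9,11),(2,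
  1),(2,3),(4,0),(2,13),(16,2)]⟩,⟨3,[(6,0),(12,1),(3,0),(1,1),(0,1),(2,0),(1,0)]⟩⟩,⟨false,0,⟨0,[]⟩,
  ⟨3,[(24,0),(0,0),(18,1)]⟩⟩,⟨false,0,⟨9,[(0,5),(2,1),(12,9),(2,1),(4,0),(2,9),(15,0),(0,1)]⟩,⟨1,
  [(4,0),(3,0),(5,0),(4,0),(5,0),(0,0),(13,0),(0,0)]⟩⟩,[.o ⟨false,0,⟨0,[(16,0)]⟩,⟨1,[(31,1),(5,0),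
  (6,0)]⟩⟩,.o ⟨false,1,⟨3,[(16,3),(7,0),(0,0),(18,1)]⟩,⟨0,[(28,0)]⟩⟩,.a ⟨true,0,⟨1,[(26,0),(8,0),(0,
  0)]⟩,⟨0,[(27,0)]⟩⟩ ⟨false,1,⟨1,[(25,0),(15,1),(2,0)]⟩,⟨9,[(0,5),(2,1),(15,1),(4,0),(18,0),(0,
  1)]⟩⟩ ⟨true,0,⟨0,[(16,0),(10,0)]⟩,⟨1,[(26,0),(1,0),(2,0)]⟩⟩,.o ⟨false,0,⟨1,[(26,0),(2,0),(2,0)]⟩,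
  ⟨1,[(27,1),(9,0),(5,0)]⟩⟩]⟩)) (.R ⟨1,false,false,false,[0,0,0,1],[0,1],[1,0,0,-1,0,0,0,0,1],(⟨0,
  [(26,0)]⟩,⟨1,[(25,0),(8,0),(0,0)]⟩),(⟨0,[(38,0)]⟩,⟨0,[(37,0)]⟩),⟨0,[(1,0)]⟩,.k,.k,(.x 0 ⟨2,[(8,0),
  (8,1),(10,1)]⟩ ⟨3,[(23,0),(0,0),(13,3),(3,1)]⟩),(.x 0 ⟨2,[(8,0),(8,1),(10,1)]⟩ ⟨3,[(23,0),(0,0),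
  (13,3),(3,1)]⟩),(.r (-2) ⟨3,[(0,3),(22,0),(0,0),(18,1)]⟩ ⟨0,[(4,0),(40,0)]⟩),.k,⟨true,1,⟨0,[(0,0),
  (38,0)]⟩,⟨0,[(4,0),(40,0)]⟩⟩,⟨false,1,⟨0,[(26,0),(15,0)]⟩,⟨1,[(25,0),(2,0),(2,0)]⟩⟩,⟨false,1,⟨0,
  [(40,0),(2,0)]⟩,⟨0,[(41,0)]⟩⟩,⟨false,0,⟨0,[(2,0),(0,0),(22,0)]⟩,⟨7,[(0,1),(9,1),(13,2),(0,3),(2,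
  1),(11,3),(2,2)]⟩⟩,⟨true,0,⟨0,[]⟩,⟨0,[(45,0)]⟩⟩,⟨false,0,⟨0,[(2,0),(2,0),(20,0)]⟩,⟨7,[(0,5),(9,1),
  (13,0),(0,3),(2,1),(10,7),(0,3),(2,0)]⟩⟩,[.o ⟨false,0,⟨0,[(41,0)]⟩,⟨3,[(0,1),(9,1),(12,0),(4,1),
  (14,0)]⟩⟩,.o ⟨false,1,⟨7,[(6,3),(8,3),(7,0),(0,0),(11,1),(6,3)]⟩,⟨0,[(13,0)]⟩⟩,.a ⟨true,0,⟨1,[(25,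
  0),(8,0),(0,0)]⟩,⟨0,[(26,0)]⟩⟩ ⟨false,1,⟨3,[(0,1),(23,0),(14,3),(3,0)]⟩,⟨1,[(2,0),(1,0),(16,0),
  (23,0)]⟩⟩ ⟨true,0,⟨0,[(26,0),(14,0)]⟩,⟨1,[(13,0),(11,0),(14,0)]⟩⟩,.o ⟨false,0,⟨1,[(25,0),(2,0),(2,
  0)]⟩,⟨1,[(26,1),(9,0),(5,0)]⟩⟩]⟩))) (.I [1,-1,0,0,0,0,0,0,-1] (.Q [0,0,0,0,0,-1,0,0,0,1,0,-1] (.p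
  false [0,0,0,1] [1] (⟨0,[(25,0)]⟩,⟨1,[(24,0),(8,0),(0,0)]⟩) .k 1 (⟨0,[]⟩,⟨0,[]⟩) .k .k) (.R ⟨1,
  false,false,true,[1,0,0,-1],[1,-1],[0,1,0,0,0,0,0,0,-1],(⟨1,[(25,0),(8,0),(0,0)]⟩,⟨0,[(26,0)]⟩),
  (⟨0,[(37,0)]⟩,⟨0,[(38,0)]⟩),⟨0,[(0,0)]⟩,.k,.k,(.r (-1) ⟨7,[(1,1),(14,1),(1,1),(4,2),(16,1),(1,
  0)]⟩ ⟨2,[(2,1),(1,0),(2,0),(7,0),(8,0),(4,0),(11,0)]⟩),(.r 0 ⟨7,[(4,3),(18,2),(0,0),(20,3)]⟩ ⟨3,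
  [(2,1),(13,1),(7,0),(17,0)]⟩),.k,.k,⟨false,0,⟨1,[(1,0),(2,0),(37,0),(2,1)]⟩,⟨3,[(2,1),(13,1),(7,
  0),(17,0)]⟩⟩,⟨true,0,⟨1,[(25,0),(2,0),(2,0)]⟩,⟨0,[(26,0)]⟩⟩,⟨true,0,⟨0,[(45,0)]⟩,⟨0,[]⟩⟩,⟨false,1,
  ⟨1,[(13,0),(10,0),(0,0),(14,0),(2,0)]⟩,⟨1,[(1,0),(2,0),(21,1),(15,0)]⟩⟩,⟨false,0,⟨0,[(41,0)]⟩,⟨0,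
  [(40,0),(2,0)]⟩⟩,⟨false,1,⟨7,[(23,0),(0,4),(0,3),(10,1)]⟩,⟨0,[(1,0),(24,0)]⟩⟩,[.o ⟨false,0,⟨0,
  [(13,0)]⟩,⟨7,[(6,3),(8,3),(7,0),(0,0),(11,1),(6,3)]⟩⟩,.o ⟨false,1,⟨1,[(36,0),(3,1),(2,0)]⟩,⟨0,
  [(41,0)]⟩⟩,.a ⟨true,0,⟨0,[(26,0)]⟩,⟨1,[(25,0),(8,0),(0,0)]⟩⟩ ⟨false,0,⟨0,[(1,0),(43,0)]⟩,⟨1,[(24,
  0),(18,0)]⟩⟩ ⟨true,0,⟨1,[(13,0),(11,0),(14,0)]⟩,⟨0,[(26,0),(14,0)]⟩⟩,.o ⟨false,0,⟨1,[(10,0),(15,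
  1),(1,0)]⟩,⟨7,[(23,0),(0,0),(0,3),(10,1),(5,3)]⟩⟩]⟩) (.R ⟨0,false,false,true,[1,0,0,-1],[1,-1],[0,
  1,0,0,0,0,0,0,-1],(⟨1,[(25,0),(8,0),(0,0)]⟩,⟨0,[(26,0)]⟩),(⟨0,[(37,0)]⟩,⟨0,[(38,0)]⟩),⟨0,[(0,0)]⟩,
  .k,.k,(.r (-1) ⟨7,[(1,1),(14,1),(1,1),(4,2),(16,1),(1,0)]⟩ ⟨2,[(2,1),(1,0),(2,0),(7,0),(8,0),(4,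
  0),(11,0)]⟩),(.r 0 ⟨7,[(4,3),(18,2),(0,0),(20,3)]⟩ ⟨3,[(2,1),(13,1),(7,0),(17,0)]⟩),.k,.k,⟨false,
  0,⟨1,[(1,0),(2,0),(37,0),(2,1)]⟩,⟨3,[(2,1),(13,1),(7,0),(17,0)]⟩⟩,⟨true,0,⟨1,[(25,0),(2,0),(2,
  0)]⟩,⟨0,[(26,0)]⟩⟩,⟨true,0,⟨0,[(45,0)]⟩,⟨0,[]⟩⟩,⟨false,1,⟨1,[(13,0),(10,0),(0,0),(14,0),(2,0)]⟩,
  ⟨1,[(1,0),(2,0),(21,1),(15,0)]⟩⟩,⟨false,0,⟨0,[]⟩,⟨0,[]⟩⟩,⟨false,0,⟨0,[]⟩,⟨0,[]⟩⟩,[.o ⟨false,0,⟨0,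
  [(13,0)]⟩,⟨7,[(6,3),(8,3),(7,0),(0,0),(11,1),(6,3)]⟩⟩,.o ⟨false,1,⟨1,[(36,0),(3,1),(2,0)]⟩,⟨0,
  [(41,0)]⟩⟩,.a ⟨true,0,⟨0,[(26,0)]⟩,⟨1,[(25,0),(8,0),(0,0)]⟩⟩ ⟨false,0,⟨0,[(1,0),(43,0)]⟩,⟨1,[(24,
  0),(18,0)]⟩⟩ ⟨true,0,⟨1,[(13,0),(11,0),(14,0)]⟩,⟨0,[(26,0),(14,0)]⟩⟩,.o ⟨false,0,⟨1,[(10,0),(15,
  1),(1,0)]⟩,⟨7,[(23,0),(0,0),(0,3),(10,1),(5,3)]⟩⟩]⟩)) (.Q [0,0,0,-1,0,0,0,0,-1,-1,0,1] (.p true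
  [0,0,0,1] [1] (⟨0,[(25,0)]⟩,⟨1,[(24,0),(8,0),(0,0)]⟩) .k 1 (⟨0,[]⟩,⟨0,[]⟩) .k .k) (.Q [0,-1,0,1,0,
  0,1,1,0,1,-1] (.p false [0,0,1] [1] (⟨0,[(35,0)]⟩,⟨0,[(34,0)]⟩) .k 1 (⟨0,[]⟩,⟨0,[]⟩) .k .k) (.Q
  [0,1,0,-1,0,0,-1,-1,0,0,1] (.p true [0,0,1] [] (⟨0,[(36,0)]⟩,⟨0,[(35,0)]⟩) .k 0 (⟨0,[]⟩,⟨0,[]⟩)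
  .k .k) (.K ⟨1,[0,1,1],1,0,(⟨0,[(37,0),(2,0)]⟩,⟨0,[(19,0)]⟩),.k,.k,(.r 1 ⟨0,[(3,0),(2,0),(28,0)]⟩
  ⟨5,[(18,1),(1,7),(4,0),(0,0)]⟩),.k,.k,[⟨8,[(0,5),(2,2),(0,5),(1,8),(2,6),(4,11),(19,0)]⟩,⟨3,[(17,
  1),(5,1),(1,0),(0,0),(6,1)]⟩,⟨0,[(0,0)]⟩,⟨0,[(1,0)]⟩]⟩) (.Q [0,-1,0,2,0,0,0,0,0,1] (.pp false [-1,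
  1]) (.R ⟨2,true,false,true,[0,1],[1,-1],[0,1,1,1],(⟨0,[]⟩,⟨0,[]⟩),(⟨0,[(40,0)]⟩,⟨0,[(41,0)]⟩),⟨0,
  []⟩,.k,.k,.k,(.r 1 ⟨0,[(4,0),(2,0)]⟩ ⟨2,[(19,1),(1,1),(4,0),(0,0)]⟩),.k,.k,⟨true,(-1),⟨0,[(4,0),
  (2,0)]⟩,⟨1,[(19,0),(1,0),(20,0),(0,0)]⟩⟩,⟨false,0,⟨1,[(13,0),(17,0)]⟩,⟨0,[(37,0),(0,0),(6,0)]⟩⟩,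
  ⟨true,0,⟨0,[(48,0)]⟩,⟨0,[]⟩⟩,⟨false,1,⟨0,[(16,0),(26,0),(2,0)]⟩,⟨0,[(0,0)]⟩⟩,⟨false,0,⟨0,[(44,
  0)]⟩,⟨0,[(43,0),(2,0)]⟩⟩,⟨true,0,⟨0,[(16,0)]⟩,⟨1,[(2,0),(6,0),(33,0)]⟩⟩,[]⟩) (.Q [0,0,0,0,0,-2,0,
  0,0,1] (.pp false [-1,1]) (.R ⟨1,true,false,false,[1,-1],[0,1],[0,0,-1,-1],(⟨0,[(41,0)]⟩,⟨0,[(42,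
  0)]⟩),(⟨0,[(42,0)]⟩,⟨0,[(41,0)]⟩),⟨0,[(0,0)]⟩,.k,.k,(.r (-2) ⟨2,[(20,1),(1,1),(4,0),(0,0)]⟩ ⟨0,
  [(5,0),(2,0)]⟩),(.r (-2) ⟨2,[(20,1),(1,1),(4,0),(0,0)]⟩ ⟨0,[(5,0),(2,0)]⟩),(.r (-2) ⟨0,[(20,0),(1,
  0)]⟩ ⟨1,[(5,0),(2,2),(19,0),(20,1)]⟩),.k,⟨false,2,⟨0,[(20,0),(4,0)]⟩,⟨0,[(5,0),(2,0)]⟩⟩,⟨true,1,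
  ⟨0,[(38,0),(0,0),(6,0)]⟩,⟨5,[(1,3),(3,1),(0,3),(1,5),(7,3),(9,0),(5,0),(3,0)]⟩⟩,⟨false,1,⟨3,[(27,
  0),(0,0),(18,1)]⟩,⟨0,[]⟩⟩,⟨true,0,⟨4,[(2,0),(0,0),(6,3),(22,1)]⟩,⟨0,[(1,0)]⟩⟩,⟨true,0,⟨0,[(45,
  0)]⟩,⟨0,[(44,0)]⟩⟩,⟨false,0,⟨0,[(2,0),(7,0)]⟩,⟨0,[(1,0),(42,0),(2,0)]⟩⟩,[]⟩) (.R ⟨0,false,false,
  true,[0,0,0,1],[0,1],[0,1,0,0,0,0,0,0,1],(⟨0,[(30,0)]⟩,⟨1,[(29,0),(8,0),(0,0)]⟩),(⟨0,[(42,0)]⟩,⟨0,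
  [(41,0)]⟩),⟨1,[(0,0),(28,0)]⟩,.k,.k,(.r (-1) ⟨3,[(6,1),(13,1),(7,0),(17,0)]⟩ ⟨7,[(8,3),(18,2),(0,
  0),(20,3)]⟩),(.r (-1) ⟨3,[(6,1),(13,1),(7,0),(17,0)]⟩ ⟨7,[(8,3),(18,2),(0,0),(20,3)]⟩),.k,.k,
  ⟨true,1,⟨3,[(6,1),(13,1),(7,0),(17,0)]⟩,⟨0,[(8,0),(35,0)]⟩⟩,⟨false,1,⟨0,[(30,0),(15,0)]⟩,⟨1,[(29,
  0),(2,0),(2,0)]⟩⟩,⟨true,0,⟨0,[(49,0)]⟩,⟨0,[]⟩⟩,⟨false,0,⟨4,[(2,0),(0,0),(0,4),(5,3),(22,1)]⟩,⟨11,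
  [(1,1),(4,5),(4,1),(1,3),(6,1),(7,2),(0,5),(17,6)]⟩⟩,⟨false,0,⟨0,[]⟩,⟨0,[]⟩⟩,⟨false,0,⟨0,[]⟩,⟨0,
  []⟩⟩,[.o ⟨false,0,⟨2,[(10,0),(20,0),(1,1),(11,0)]⟩,⟨3,[(1,1),(38,0),(6,2)]⟩⟩,.o ⟨false,0,⟨0,[(45,
  0)]⟩,⟨3,[(1,1),(25,0),(0,0),(11,0),(6,0)]⟩⟩,.a ⟨true,0,⟨1,[(29,0),(8,0),(0,0)]⟩,⟨0,[(30,0)]⟩⟩
  ⟨true,0,⟨0,[(5,0)]⟩,⟨14,[(3,1),(0,13),(3,0),(1,4),(18,6),(3,2),(12,0)]⟩⟩ ⟨false,0,⟨0,[(30,0),(14,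
  0)]⟩,⟨7,[(1,3),(25,0),(0,0),(0,3),(17,5)]⟩⟩,.o ⟨false,0,⟨1,[(29,0),(2,0),(2,0)]⟩,⟨1,[(30,1),(9,0),
  (5,0)]⟩⟩]⟩)))) (.K ⟨2,[1,-1,-1],(-1),0,(⟨0,[(18,0)]⟩,⟨0,[(36,0),(2,0)]⟩),.k,(.r (-2) ⟨5,[(17,1),
  (1,7),(4,0),(0,0)]⟩ ⟨0,[(2,0),(2,0),(28,0)]⟩),.k,(.r (-2) ⟨7,[(3,3),(15,7),(2,3),(1,2),(0,0)]⟩ ⟨0,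
  [(2,0),(2,0),(2,0),(4,0),(2,0)]⟩),.k,[⟨0,[(9,0),(2,0),(22,0),(7,0)]⟩,⟨5,[(0,3),(1,1),(0,3),(1,5),
  (2,3),(1,0),(2,6),(9,0)]⟩,⟨0,[(7,0),(8,0),(3,0)]⟩,⟨0,[(0,0)]⟩]⟩)) (.Q [0,0,0,0,0,1,0,0,0,0,0,-1]
  (.p false [0,0,0,1] [] (⟨0,[(26,0)]⟩,⟨1,[(25,0),(8,0),(0,0)]⟩) .k 0 (⟨0,[]⟩,⟨0,[]⟩) .k .k) (.Q [0,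
  1,0,-1,0,0,0,0,-1,-1,0,1] (.p true [0,0,0,1] [1] (⟨0,[(27,0)]⟩,⟨1,[(26,0),(8,0),(0,0)]⟩) .k 1 (⟨0,
  []⟩,⟨0,[]⟩) .k .k) (.R ⟨0,false,false,true,[0,0,0,1],[1,-1],[0,0,1],(⟨0,[(28,0)]⟩,⟨1,[(27,0),(8,
  0),(0,0)]⟩),(⟨0,[(39,0)]⟩,⟨0,[(40,0)]⟩),⟨0,[(1,0)]⟩,.k,.k,(.r (-1) ⟨3,[(4,1),(13,1),(7,0),(17,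
  0)]⟩ ⟨7,[(6,3),(18,2),(0,0),(20,3)]⟩),(.r 0 ⟨1,[(3,0),(2,0),(19,0)]⟩ ⟨9,[(0,1),(5,1),(11,3),(1,3),
  (4,2),(1,0),(8,0),(0,0),(6,0)]⟩),.k,.k,⟨false,0,⟨3,[(6,1),(19,0),(18,0)]⟩,⟨0,[(42,0),(1,0)]⟩⟩,
  ⟨true,0,⟨1,[(12,0),(15,1),(1,0)]⟩,⟨1,[(27,0),(8,0),(0,0)]⟩⟩,⟨false,0,⟨5,[(0,1),(5,3),(11,1),(1,1),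
  (6,0),(8,0),(0,0),(3,3)]⟩,⟨1,[(26,0),(17,0)]⟩⟩,⟨true,0,⟨0,[(0,0)]⟩,⟨0,[(2,0)]⟩⟩,⟨false,0,⟨0,[]⟩,
  ⟨0,[]⟩⟩,⟨false,0,⟨0,[]⟩,⟨0,[]⟩⟩,[.o ⟨false,0,⟨0,[(15,0)]⟩,⟨7,[(8,3),(8,3),(7,0),(0,0),(11,1),(6,
  3)]⟩⟩,.o ⟨false,1,⟨1,[(38,0),(3,1),(2,0)]⟩,⟨0,[(43,0)]⟩⟩,.a ⟨true,0,⟨1,[(27,0),(8,0),(0,0)]⟩,⟨0,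
  [(28,0)]⟩⟩ ⟨false,0,⟨1,[(2,0),(2,3),(0,0),(2,19),(0,17),(0,6),(1,26),(5,8),(8,0),(0,2),(14,0)]⟩,
  ⟨3,[(25,0),(0,0),(17,1)]⟩⟩ ⟨true,0,⟨0,[(15,0),(12,0)]⟩,⟨1,[(8,0),(8,0),(9,0)]⟩⟩,.o ⟨false,0,⟨1,
  [(27,0),(2,0),(2,0)]⟩,⟨1,[(28,1),(9,0),(5,0)]⟩⟩]⟩) (.R ⟨0,false,false,true,[0,0,0,1],[1,-1],[1,1],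
  (⟨0,[(28,0)]⟩,⟨1,[(27,0),(8,0),(0,0)]⟩),(⟨0,[(39,0)]⟩,⟨0,[(40,0)]⟩),⟨0,[(1,0)]⟩,.k,.k,(.r (-1) ⟨3,
  [(4,1),(13,1),(7,0),(17,0)]⟩ ⟨7,[(6,3),(18,2),(0,0),(20,3)]⟩),(.r 0 ⟨1,[(3,0),(2,0),(19,0)]⟩ ⟨3,
  [(6,1),(11,1),(1,1),(4,0),(16,1),(1,0)]⟩),.k,.k,⟨false,0,⟨0,[(43,0)]⟩,⟨5,[(18,1),(1,1),(4,0),(0,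
  0)]⟩⟩,⟨true,0,⟨1,[(12,0),(15,1),(1,0)]⟩,⟨1,[(27,0),(8,0),(0,0)]⟩⟩,⟨true,0,⟨0,[(6,0),(35,1),(1,
  0)]⟩,⟨0,[(0,0),(14,0),(12,0)]⟩⟩,⟨false,1,⟨1,[(15,1),(9,0),(2,1),(16,0)]⟩,⟨0,[(0,0)]⟩⟩,⟨false,0,⟨0,
  []⟩,⟨0,[]⟩⟩,⟨false,0,⟨0,[]⟩,⟨0,[]⟩⟩,[.o ⟨false,0,⟨0,[(15,0)]⟩,⟨7,[(8,3),(8,3),(7,0),(0,0),(11,1),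
  (6,3)]⟩⟩,.o ⟨false,1,⟨1,[(38,0),(3,1),(2,0)]⟩,⟨0,[(43,0)]⟩⟩,.a ⟨true,0,⟨1,[(27,0),(8,0),(0,0)]⟩,
  ⟨0,[(28,0)]⟩⟩ ⟨false,0,⟨0,[]⟩,⟨3,[(25,0),(0,0),(18,1)]⟩⟩ ⟨true,0,⟨0,[(15,0),(12,0)]⟩,⟨1,[(8,0),(8,
  0),(9,0)]⟩⟩,.o ⟨false,0,⟨1,[(27,0),(2,0),(2,0)]⟩,⟨1,[(28,1),(9,0),(5,0)]⟩⟩]⟩)) (.I [1,0,0,0,0,0,0,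
  0,-1] (.R ⟨1,false,false,true,[0,0,0,1],[0,1],[0,1,0,0,0,0,0,0,1],(⟨0,[(28,0)]⟩,⟨1,[(27,0),(8,0),
  (0,0)]⟩),(⟨0,[(40,0)]⟩,⟨0,[(39,0)]⟩),⟨0,[(1,0)]⟩,.k,.k,(.r (-1) ⟨3,[(4,1),(13,1),(7,0),(17,0)]⟩
  ⟨7,[(6,3),(18,2),(0,0),(20,3)]⟩),(.r (-1) ⟨3,[(4,1),(13,1),(7,0),(17,0)]⟩ ⟨7,[(6,3),(18,2),(0,0),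
  (20,3)]⟩),(.r (-2) ⟨11,[(18,7),(1,7),(4,0),(0,6)]⟩ ⟨0,[(6,0),(40,0)]⟩),.k,⟨true,1,⟨3,[(4,1),(13,
  1),(7,0),(17,0)]⟩,⟨0,[(6,0),(35,0)]⟩⟩,⟨false,1,⟨0,[(28,0),(15,0)]⟩,⟨1,[(27,0),(2,0),(2,0)]⟩⟩,
  ⟨true,0,⟨0,[(47,0)]⟩,⟨0,[]⟩⟩,⟨false,0,⟨7,[(0,4),(5,2),(1,0),(19,7),(0,0),(1,1),(12,2)]⟩,⟨5,[(4,3),
  (6,1),(6,1),(5,0),(1,0),(0,2),(17,2)]⟩⟩,⟨false,0,⟨0,[(43,0)]⟩,⟨0,[(42,0),(2,0)]⟩⟩,⟨false,0,⟨3,[(0,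
  0),(5,2),(1,0),(19,3),(0,0),(1,1),(12,2)]⟩,⟨7,[(4,7),(4,0),(1,2),(6,5),(1,0),(1,0),(4,3),(13,5),
  (3,0)]⟩⟩,[.o ⟨false,0,⟨2,[(8,0),(20,0),(1,1),(11,0)]⟩,⟨0,[(15,0),(29,0)]⟩⟩,.o ⟨false,0,⟨0,[(43,
  0)]⟩,⟨1,[(38,0),(3,1),(2,0)]⟩⟩,.a ⟨true,0,⟨1,[(27,0),(8,0),(0,0)]⟩,⟨0,[(28,0)]⟩⟩ ⟨true,0,⟨0,[(3,
  0)]⟩,⟨0,[(0,0)]⟩⟩ ⟨false,0,⟨0,[(28,0),(14,0)]⟩,⟨1,[(15,0),(11,0),(14,0),(2,1)]⟩⟩,.o ⟨false,0,⟨1,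
  [(27,0),(2,0),(2,0)]⟩,⟨1,[(28,1),(9,0),(5,0)]⟩⟩]⟩) (.R ⟨1,true,false,false,[0,0,0,1],[0,1],[0,0,0,
  0,0,0,0,0,1],(⟨0,[(28,0)]⟩,⟨1,[(27,0),(8,0),(0,0)]⟩),(⟨0,[(40,0)]⟩,⟨0,[(39,0)]⟩),⟨0,[(1,0)]⟩,.k,
  .k,(.r (-1) ⟨2,[(0,0),(17,0),(1,0),(5,0)]⟩ ⟨7,[(6,3),(18,2),(0,0),(20,3)]⟩),(.r (-1) ⟨2,[(0,0),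
  (17,0),(1,0),(5,0)]⟩ ⟨7,[(6,3),(18,2),(0,0),(20,3)]⟩),(.r (-2) ⟨11,[(18,7),(1,7),(4,0),(0,6)]⟩ ⟨0,
  [(6,0),(40,0)]⟩),.k,⟨true,1,⟨2,[(0,0),(17,0),(1,0),(5,0)]⟩,⟨0,[(6,0),(35,0)]⟩⟩,⟨false,1,⟨0,[(28,
  0),(15,0)]⟩,⟨1,[(27,0),(2,0),(2,0)]⟩⟩,⟨false,1,⟨3,[(25,0),(0,0),(18,1)]⟩,⟨0,[]⟩⟩,⟨true,0,⟨0,[(6,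
  0),(21,0),(13,0),(1,0)]⟩,⟨1,[(0,1),(14,0),(11,0),(14,0)]⟩⟩,⟨true,0,⟨0,[(43,0)]⟩,⟨0,[(42,0)]⟩⟩,
  ⟨false,0,⟨0,[(6,0),(21,0),(15,0)]⟩,⟨7,[(4,5),(6,1),(6,3),(7,0),(0,3),(2,1),(11,5),(2,2)]⟩⟩,
  []⟩)))))))

theorem ok80 : chk (cU (-1) false 2) t80 l52 = true := by decide +kernel

noncomputable def t92 : Tre :=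
  (.Q [0,0,0,-1,0,0,0,0,1,0,0,-1] (.p false [0,0,0,1] [] (⟨0,[(20,0)]⟩,⟨1,[(19,0),(8,0),(0,0)]⟩) .k
  0 (⟨0,[]⟩,⟨0,[]⟩) .k .k) (.Q [0,1,0,0,0,0,0,0,-1,0,0,1] (.p true [0,0,0,1] [] (⟨0,[(21,0)]⟩,⟨1,
  [(20,0),(8,0),(0,0)]⟩) .k 0 (⟨0,[]⟩,⟨0,[]⟩) .k .k) (.I [0,1,0,0,0,0,0,0,-1] (.Q [0,0,0,0,0,-1,0,0,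
  0,1,0,-1] (.p false [0,0,0,1] [1] (⟨0,[(23,0)]⟩,⟨1,[(22,0),(8,0),(0,0)]⟩) .k 1 (⟨0,[]⟩,⟨0,[]⟩) .k
  .k) (.I [0,0,-1,-1,1,0,0,0,-1] (.R ⟨1,false,false,false,[1,0,0,-1],[1,-1],[0,1,0,0,0,0,0,0,-1],
  (⟨1,[(24,0),(8,0),(0,0)]⟩,⟨0,[(25,0)]⟩),(⟨0,[(36,0)]⟩,⟨0,[(37,0)]⟩),⟨0,[(1,0)]⟩,.k,.k,(.r (-1) ⟨0,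
  [(0,0)]⟩ ⟨1,[(4,1),(20,1),(4,0),(0,0),(8,3)]⟩),(.r 0 ⟨0,[(2,0),(35,0),(1,0)]⟩ ⟨7,[(4,1),(10,1),(1,
  1),(5,2),(1,1),(15,0)]⟩),.k,.k,⟨false,0,⟨0,[(2,0),(37,0)]⟩,⟨1,[(4,1),(20,1),(15,0),(0,0)]⟩⟩,⟨true,
  0,⟨1,[(24,0),(2,0),(2,0)]⟩,⟨0,[(25,0)]⟩⟩,⟨true,0,⟨0,[(44,0)]⟩,⟨0,[]⟩⟩,⟨true,0,⟨0,[(4,0)]⟩,⟨0,[(3,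
  0),(36,0)]⟩⟩,⟨false,0,⟨0,[(40,0)]⟩,⟨0,[(39,0),(2,0)]⟩⟩,⟨true,0,⟨0,[(4,0),(35,0)]⟩,⟨0,[(3,0)]⟩⟩,
  [.o ⟨false,1,⟨11,[(5,3),(11,3),(4,2),(0,2),(3,3),(7,1)]⟩,⟨0,[(40,0)]⟩⟩,.o ⟨false,1,⟨5,[(5,1),(11,
  1),(9,1),(7,0),(6,2)]⟩,⟨0,[(40,0),(3,0)]⟩⟩,.a ⟨true,0,⟨0,[(25,0)]⟩,⟨1,[(24,0),(8,0),(0,0)]⟩⟩
  ⟨true,0,⟨0,[(2,0)]⟩,⟨0,[(4,0),(20,0),(14,0)]⟩⟩ ⟨false,1,⟨1,[(4,1),(17,0),(19,0)]⟩,⟨0,[(25,0),(14,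
  0)]⟩⟩,.o ⟨false,0,⟨1,[(9,0),(15,1),(1,0)]⟩,⟨7,[(22,0),(0,0),(0,3),(10,1),(5,3)]⟩⟩]⟩) (.R ⟨1,false,
  false,false,[1,0,0,-1],[1,-1],[0,1,0,0,0,0,0,0,-1],(⟨1,[(24,0),(8,0),(0,0)]⟩,⟨0,[(25,0)]⟩),(⟨0,
  [(36,0)]⟩,⟨0,[(37,0)]⟩),⟨0,[(1,0)]⟩,.k,.k,(.x 0 ⟨2,[(7,0),(8,1),(10,1)]⟩ ⟨3,[(22,0),(0,0),(13,3),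
  (3,1)]⟩),(.r 0 ⟨0,[(0,0),(21,0)]⟩ ⟨4,[(0,0),(14,1),(1,1),(5,1)]⟩),.k,.k,⟨false,0,⟨0,[(2,0),(37,
  0)]⟩,⟨9,[(0,7),(14,5),(1,5),(5,0),(18,4)]⟩⟩,⟨true,0,⟨1,[(24,0),(2,0),(2,0)]⟩,⟨0,[(25,0)]⟩⟩,⟨true,
  0,⟨0,[(44,0)]⟩,⟨0,[]⟩⟩,⟨true,0,⟨0,[(4,0)]⟩,⟨0,[(3,0),(36,0)]⟩⟩,⟨false,0,⟨0,[(40,0)]⟩,⟨0,[(39,0),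
  (2,0)]⟩⟩,⟨true,0,⟨13,[(0,5),(3,5),(18,0),(0,3),(10,1),(5,2)]⟩,⟨0,[(3,0)]⟩⟩,[.o ⟨false,1,⟨11,[(5,
  3),(11,3),(4,2),(0,2),(3,3),(7,1)]⟩,⟨0,[(40,0)]⟩⟩,.o ⟨false,1,⟨5,[(5,1),(11,1),(9,1),(7,0),(6,
  2)]⟩,⟨0,[(40,0),(3,0)]⟩⟩,.a ⟨true,0,⟨0,[(25,0)]⟩,⟨1,[(24,0),(8,0),(0,0)]⟩⟩ ⟨true,0,⟨0,[(2,0)]⟩,⟨4,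
  [(0,2),(14,0),(1,0),(5,0)]⟩⟩ ⟨false,1,⟨1,[(4,1),(17,0),(19,0)]⟩,⟨0,[(25,0),(14,0)]⟩⟩,.o ⟨false,0,
  ⟨1,[(9,0),(15,1),(1,0)]⟩,⟨7,[(22,0),(0,0),(0,3),(10,1),(5,3)]⟩⟩]⟩)) (.I [0,1,-1,0,0,0,0,0,1] (.I
  [1,1,-1,-2,0,0,0,0,1] (.R ⟨0,false,false,false,[0,0,0,1],[0,1],[1,1,0,-1,0,0,0,0,1],(⟨0,[(26,0)]⟩,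
  ⟨1,[(25,0),(8,0),(0,0)]⟩),(⟨0,[(38,0)]⟩,⟨0,[(37,0)]⟩),⟨0,[(2,0),(22,0)]⟩,.k,.k,(.r (-1) ⟨9,[(0,1),
  (15,1),(1,1),(5,3),(17,0),(0,0)]⟩ ⟨0,[(3,0),(35,0),(1,0)]⟩),(.r (-1) ⟨9,[(0,1),(15,1),(1,1),(5,3),
  (17,0),(0,0)]⟩ ⟨0,[(3,0),(35,0),(1,0)]⟩),.k,.k,⟨true,0,⟨0,[(0,0)]⟩,⟨0,[(3,0),(35,1),(1,1)]⟩⟩,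
  ⟨false,1,⟨0,[(26,0),(15,0)]⟩,⟨1,[(25,0),(2,0),(2,0)]⟩⟩,⟨true,0,⟨0,[(40,0)]⟩,⟨0,[(41,0)]⟩⟩,⟨false,
  1,⟨1,[(23,0),(2,1),(14,1),(1,0)]⟩,⟨0,[(5,0)]⟩⟩,⟨false,0,⟨0,[]⟩,⟨0,[]⟩⟩,⟨false,0,⟨0,[]⟩,⟨0,[]⟩⟩,
  [.o ⟨false,0,⟨0,[(41,0)]⟩,⟨11,[(6,3),(11,3),(4,2),(0,2),(3,3),(7,1)]⟩⟩,.o ⟨false,1,⟨3,[(23,0),(0,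
  0),(16,3),(1,1)]⟩,⟨0,[(13,0)]⟩⟩,.a ⟨true,0,⟨1,[(25,0),(8,0),(0,0)]⟩,⟨0,[(26,0)]⟩⟩ ⟨false,0,⟨0,[(5,
  0),(20,0)]⟩,⟨1,[(23,0),(17,1),(1,0)]⟩⟩ ⟨true,0,⟨0,[(26,0),(14,0)]⟩,⟨1,[(13,0),(11,0),(14,0)]⟩⟩,.o
  ⟨false,0,⟨1,[(25,0),(2,0),(2,0)]⟩,⟨1,[(26,1),(9,0),(5,0)]⟩⟩]⟩) (.R ⟨0,false,false,false,[0,0,0,1],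
  [1,0,-1],[0,1],(⟨0,[(26,0)]⟩,⟨1,[(25,0),(8,0),(0,0)]⟩),(⟨0,[(34,0)]⟩,⟨0,[(35,0)]⟩),⟨0,[(2,0),(22,
  0)]⟩,.k,.k,(.r (-1) ⟨13,[(1,1),(3,1),(10,3),(1,3),(5,4),(1,1),(16,0)]⟩ ⟨3,[(0,1),(2,1),(27,0),(0,
  0)]⟩),.k,.k,.k,⟨false,0,⟨1,[(1,0),(1,0),(3,0),(7,1)]⟩,⟨0,[(21,0),(17,0)]⟩⟩,⟨true,0,⟨0,[(20,0),(5,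
  0)]⟩,⟨7,[(8,1),(16,3),(5,4),(0,0),(1,3),(3,1)]⟩⟩,⟨true,0,⟨0,[(3,0)]⟩,⟨0,[(1,0),(37,0)]⟩⟩,⟨false,1,
  ⟨1,[(0,1),(5,0),(0,0),(10,1),(7,1),(0,0),(11,0)]⟩,⟨1,[(1,1),(13,1),(9,0),(8,0),(0,0),(3,1)]⟩⟩,
  ⟨false,0,⟨0,[]⟩,⟨0,[]⟩⟩,⟨false,0,⟨0,[]⟩,⟨0,[]⟩⟩,[.o ⟨false,1,⟨1,[(30,1),(5,0),(6,0)]⟩,⟨0,[(15,
  0)]⟩⟩,.o ⟨false,1,⟨0,[(27,0),(15,0)]⟩,⟨0,[(29,0)]⟩⟩,.a ⟨true,0,⟨1,[(25,0),(8,0),(0,0)]⟩,⟨0,[(26,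
  0)]⟩⟩ ⟨true,0,⟨0,[(45,0)]⟩,⟨0,[]⟩⟩ ⟨false,1,⟨0,[(26,0),(0,0),(15,0)]⟩,⟨1,[(15,1),(9,0),(8,0),(0,
  0)]⟩⟩,.o ⟨false,0,⟨1,[(25,0),(2,0),(2,0)]⟩,⟨1,[(26,1),(9,0),(5,0)]⟩⟩]⟩)) (.R ⟨0,false,false,false,
  [0,0,0,1],[1,0,0,-1],[0,1],(⟨0,[(25,0)]⟩,⟨1,[(24,0),(8,0),(0,0)]⟩),(⟨1,[(24,0),(8,0),(0,0)]⟩,⟨0,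
  [(25,0)]⟩),⟨0,[(1,0),(22,0)]⟩,.k,.k,(.r (-1) ⟨7,[(4,1),(10,1),(1,1),(5,2),(1,1),(15,0)]⟩ ⟨3,[(0,
  1),(1,1),(27,0),(0,0),(8,3)]⟩),.k,.k,.k,⟨true,0,⟨0,[(4,0),(20,0),(14,0),(3,0)]⟩,⟨0,[(0,0)]⟩⟩,
  ⟨false,1,⟨1,[(25,3),(9,0),(5,0)]⟩,⟨0,[(24,0)]⟩⟩,⟨true,0,⟨0,[(2,0)]⟩,⟨0,[(4,0),(20,0),(14,0)]⟩⟩,
  ⟨false,1,⟨1,[(0,2),(2,0),(5,0),(9,0),(5,2),(15,1)]⟩,⟨0,[(4,1),(28,0),(0,0),(5,1)]⟩⟩,⟨false,0,⟨0,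
  []⟩,⟨0,[]⟩⟩,⟨false,0,⟨0,[]⟩,⟨0,[]⟩⟩,[.o ⟨false,1,⟨1,[(22,0),(2,1),(9,0)]⟩,⟨0,[(4,0),(35,0)]⟩⟩,.o
  ⟨false,1,⟨1,[(0,1),(24,1),(9,0),(5,0)]⟩,⟨0,[(4,0),(35,0),(3,0)]⟩⟩,.a ⟨true,0,⟨1,[(24,0),(8,0),(0,
  0)]⟩,⟨0,[(25,0)]⟩⟩ ⟨true,0,⟨0,[(44,0)]⟩,⟨0,[]⟩⟩ ⟨false,1,⟨1,[(0,1),(24,3),(9,0),(5,0)]⟩,⟨1,[(4,1),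
  (19,0),(8,0),(0,0),(5,1)]⟩⟩,.o ⟨false,0,⟨1,[(24,0),(2,0),(2,0)]⟩,⟨1,[(25,1),(9,0),(5,0)]⟩⟩]⟩)))
  (.R ⟨0,false,false,false,[0,0,1],[0,0,0,1],[1],(⟨0,[(32,0)]⟩,⟨0,[(31,0)]⟩),(⟨0,[(23,0)]⟩,⟨1,[(22,
  0),(8,0),(0,0)]⟩),⟨0,[(8,0)]⟩,.k,.k,.k,.k,.k,.k,⟨false,1,⟨1,[(20,0),(18,0)]⟩,⟨0,[(0,0),(41,0)]⟩⟩,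
  ⟨true,0,⟨1,[(19,0),(2,0)]⟩,⟨0,[(23,0),(4,0)]⟩⟩,⟨false,1,⟨0,[(18,0),(17,0)]⟩,⟨0,[(30,0)]⟩⟩,⟨true,0,
  ⟨1,[(0,1),(21,0),(1,0),(2,0)]⟩,⟨0,[(1,0),(10,0)]⟩⟩,⟨false,0,⟨0,[]⟩,⟨0,[]⟩⟩,⟨false,0,⟨0,[]⟩,⟨0,
  []⟩⟩,[.o ⟨false,0,⟨0,[(2,0),(35,0)]⟩,⟨1,[(20,0),(2,1),(9,0)]⟩⟩,.a ⟨true,0,⟨1,[(0,1),(21,0),(8,0),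
  (0,0)]⟩,⟨0,[(1,0)]⟩⟩ ⟨false,1,⟨1,[(39,0),(0,0)]⟩,⟨0,[(42,0)]⟩⟩ ⟨true,0,⟨1,[(0,1),(18,0),(2,0)]⟩,
  ⟨0,[(1,0),(26,0)]⟩⟩,.o ⟨false,1,⟨3,[(12,1),(5,1),(1,0),(0,0),(6,1)]⟩,⟨0,[(17,0)]⟩⟩,.o ⟨false,0,⟨0,
  [(28,0)]⟩,⟨7,[(4,3),(15,0),(0,0),(11,3),(5,1)]⟩⟩]⟩)) (.I [0,0,1,1,0,0,0,0,-1] (.Q [0,0,0,0,0,1,0,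
  0,0,0,0,-1] (.p false [0,0,0,1] [] (⟨0,[(23,0)]⟩,⟨1,[(22,0),(8,0),(0,0)]⟩) .k 0 (⟨0,[]⟩,⟨0,[]⟩)
  .k .k) (.R ⟨0,false,false,true,[0,0,0,1],[1,-1],[1,0,0,0,0,0,0,0,1],(⟨0,[(24,0)]⟩,⟨1,[(23,0),(8,
  0),(0,0)]⟩),(⟨0,[(35,0)]⟩,⟨0,[(36,0)]⟩),⟨0,[(0,0)]⟩,.k,.k,(.r (-1) ⟨7,[(3,1),(10,1),(1,1),(5,2),
  (1,1),(15,0)]⟩ ⟨0,[(1,0)]⟩),(.x (-1) ⟨3,[(21,0),(0,0),(13,3),(3,1)]⟩ ⟨2,[(6,0),(8,1),(10,1)]⟩),.k,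
  .k,⟨false,0,⟨0,[(2,0),(21,0),(14,0)]⟩,⟨1,[(21,0),(16,1),(1,0)]⟩⟩,⟨true,0,⟨1,[(8,0),(15,1),(1,0)]⟩,
  ⟨1,[(23,0),(8,0),(0,0)]⟩⟩,⟨true,0,⟨0,[]⟩,⟨0,[(43,0)]⟩⟩,⟨false,1,⟨5,[(4,1),(11,1),(4,2),(2,5),(1,
  1),(7,0)]⟩,⟨0,[(2,0),(29,0),(0,0),(5,0)]⟩⟩,⟨false,0,⟨0,[]⟩,⟨0,[]⟩⟩,⟨false,0,⟨0,[]⟩,⟨0,[]⟩⟩,[.o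
  ⟨false,0,⟨0,[(11,0)]⟩,⟨3,[(21,0),(0,0),(16,3),(1,1)]⟩⟩,.o ⟨false,1,⟨11,[(4,3),(11,3),(4,2),(0,2),
  (3,3),(7,1)]⟩,⟨0,[(39,0)]⟩⟩,.a ⟨true,0,⟨1,[(23,0),(8,0),(0,0)]⟩,⟨0,[(24,0)]⟩⟩ ⟨false,0,⟨0,[(2,0),
  (21,0)]⟩,⟨3,[(21,2),(0,0)]⟩⟩ ⟨true,0,⟨0,[(11,0),(12,0)]⟩,⟨1,[(23,0),(8,0),(0,0),(5,1)]⟩⟩,.o
  ⟨false,0,⟨1,[(23,0),(2,0),(2,0)]⟩,⟨1,[(24,1),(9,0),(5,0)]⟩⟩]⟩) (.R ⟨1,false,false,true,[0,0,0,1],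
  [1,-1],[0,0,0,0,0,0,0,0,1],(⟨0,[(24,0)]⟩,⟨1,[(23,0),(8,0),(0,0)]⟩),(⟨0,[(35,0)]⟩,⟨0,[(36,0)]⟩),⟨0,
  [(0,0)]⟩,.k,.k,(.r (-1) ⟨7,[(3,1),(10,1),(1,1),(5,2),(1,1),(15,0)]⟩ ⟨0,[(1,0)]⟩),(.x (-1) ⟨3,[(21,
  0),(0,0),(13,3),(3,1)]⟩ ⟨2,[(6,0),(8,1),(10,1)]⟩),.k,.k,⟨false,0,⟨0,[(2,0),(21,0),(14,0)]⟩,⟨1,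
  [(21,0),(16,1),(1,0)]⟩⟩,⟨true,0,⟨1,[(8,0),(15,1),(1,0)]⟩,⟨1,[(23,0),(8,0),(0,0)]⟩⟩,⟨false,1,⟨3,
  [(21,0),(0,0),(18,1)]⟩,⟨0,[]⟩⟩,⟨false,1,⟨5,[(4,1),(11,1),(4,2),(2,5),(1,1),(7,0)]⟩,⟨0,[(2,0),(29,
  0),(0,0),(5,0)]⟩⟩,⟨true,0,⟨0,[(39,0)]⟩,⟨0,[(38,0)]⟩⟩,⟨false,1,⟨1,[(21,0),(2,1),(9,0)]⟩,⟨0,[(2,0),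
  (29,0),(0,0)]⟩⟩,[.o ⟨false,0,⟨0,[(11,0)]⟩,⟨3,[(21,0),(0,0),(16,3),(1,1)]⟩⟩,.o ⟨false,1,⟨11,[(4,3),
  (11,3),(4,2),(0,2),(3,3),(7,1)]⟩,⟨0,[(39,0)]⟩⟩,.a ⟨true,0,⟨1,[(23,0),(8,0),(0,0)]⟩,⟨0,[(24,0)]⟩⟩
  ⟨false,0,⟨0,[(2,0),(21,0)]⟩,⟨3,[(21,2),(0,0)]⟩⟩ ⟨true,0,⟨0,[(11,0),(12,0)]⟩,⟨1,[(23,0),(8,0),(0,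
  0),(5,1)]⟩⟩,.o ⟨false,0,⟨1,[(23,0),(2,0),(2,0)]⟩,⟨1,[(24,1),(9,0),(5,0)]⟩⟩]⟩)) (.Q [0,0,0,0,0,-1,
  0,0,0,1,0,-1] (.p false [0,0,0,1] [1] (⟨0,[(23,0)]⟩,⟨1,[(22,0),(8,0),(0,0)]⟩) .k 1 (⟨0,[]⟩,⟨0,
  []⟩) .k .k) (.R ⟨1,false,false,true,[1,0,0,-1],[1,-1],[0,1,0,0,0,0,0,0,-1],(⟨1,[(23,0),(8,0),(0,
  0)]⟩,⟨0,[(24,0)]⟩),(⟨0,[(35,0)]⟩,⟨0,[(36,0)]⟩),⟨0,[(0,0)]⟩,.k,.k,(.r (-1) ⟨0,[(1,0),(19,0)]⟩ ⟨1,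
  [(3,1),(20,1),(4,0),(0,0),(8,3)]⟩),(.x (-1) ⟨3,[(21,0),(0,0),(13,3),(3,1)]⟩ ⟨2,[(6,0),(8,1),(10,
  1)]⟩),.k,.k,⟨false,1,⟨3,[(21,2),(0,0),(16,3)]⟩,⟨0,[(1,0)]⟩⟩,⟨true,0,⟨1,[(23,0),(2,0),(2,0)]⟩,⟨0,
  [(24,0)]⟩⟩,⟨true,0,⟨0,[(43,0)]⟩,⟨0,[]⟩⟩,⟨false,0,⟨0,[(3,0)]⟩,⟨1,[(21,0),(2,1),(14,1),(1,0)]⟩⟩,
  ⟨false,0,⟨0,[(39,0)]⟩,⟨0,[(38,0),(2,0)]⟩⟩,⟨false,0,⟨0,[(3,0),(35,0)]⟩,⟨1,[(21,0),(2,1),(16,0)]⟩⟩,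
  [.o ⟨false,0,⟨0,[(11,0)]⟩,⟨3,[(21,0),(0,0),(16,3),(1,1)]⟩⟩,.o ⟨false,1,⟨11,[(4,3),(11,3),(4,2),(0,
  2),(3,3),(7,1)]⟩,⟨0,[(39,0)]⟩⟩,.a ⟨true,0,⟨0,[(24,0)]⟩,⟨1,[(23,0),(8,0),(0,0)]⟩⟩ ⟨false,1,⟨3,[(21,
  2),(0,0)]⟩,⟨0,[(2,0),(21,0)]⟩⟩ ⟨true,0,⟨1,[(11,0),(11,0),(14,0)]⟩,⟨0,[(24,0),(14,0)]⟩⟩,.o ⟨false,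
  0,⟨1,[(8,0),(15,1),(1,0)]⟩,⟨7,[(21,0),(0,0),(0,3),(10,1),(5,3)]⟩⟩]⟩) (.R ⟨0,false,false,true,[1,0,
  0,-1],[1,-1],[0,1,0,0,0,0,0,0,-1],(⟨1,[(23,0),(8,0),(0,0)]⟩,⟨0,[(24,0)]⟩),(⟨0,[(35,0)]⟩,⟨0,[(36,
  0)]⟩),⟨0,[(0,0)]⟩,.k,.k,(.r (-1) ⟨0,[(1,0),(19,0)]⟩ ⟨1,[(3,1),(20,1),(4,0),(0,0),(8,3)]⟩),(.x
  (-1) ⟨3,[(21,0),(0,0),(13,3),(3,1)]⟩ ⟨2,[(6,0),(8,1),(10,1)]⟩),.k,.k,⟨false,1,⟨3,[(21,2),(0,0),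
  (16,3)]⟩,⟨0,[(1,0)]⟩⟩,⟨true,0,⟨1,[(23,0),(2,0),(2,0)]⟩,⟨0,[(24,0)]⟩⟩,⟨true,0,⟨0,[(43,0)]⟩,⟨0,[]⟩⟩,
  ⟨false,0,⟨0,[(3,0)]⟩,⟨1,[(21,0),(2,1),(14,1),(1,0)]⟩⟩,⟨false,0,⟨0,[]⟩,⟨0,[]⟩⟩,⟨false,0,⟨0,[]⟩,⟨0,
  []⟩⟩,[.o ⟨false,0,⟨0,[(11,0)]⟩,⟨3,[(21,0),(0,0),(16,3),(1,1)]⟩⟩,.o ⟨false,1,⟨11,[(4,3),(11,3),(4,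
  2),(0,2),(3,3),(7,1)]⟩,⟨0,[(39,0)]⟩⟩,.a ⟨true,0,⟨0,[(24,0)]⟩,⟨1,[(23,0),(8,0),(0,0)]⟩⟩ ⟨false,1,
  ⟨3,[(21,2),(0,0)]⟩,⟨0,[(2,0),(21,0)]⟩⟩ ⟨true,0,⟨1,[(11,0),(11,0),(14,0)]⟩,⟨0,[(24,0),(14,0)]⟩⟩,.o
  ⟨false,0,⟨1,[(8,0),(15,1),(1,0)]⟩,⟨7,[(21,0),(0,0),(0,3),(10,1),(5,3)]⟩⟩]⟩)))) (.I [0,-1,-2,-1,1,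
  0,0,1] (.I [0,0,-2,-2,1,0,0,0,-1] (.Q [0,-1,0,1,0,0,0,0,-1,0,0,1] (.p true [0,0,0,1] [] (⟨0,[(23,
  0)]⟩,⟨1,[(22,0),(8,0),(0,0)]⟩) .k 0 (⟨0,[]⟩,⟨0,[]⟩) .k .k) (.Q [0,0,0,0,0,1,0,0,0,0,0,-1] (.p
  false [0,0,0,1] [] (⟨0,[(24,0)]⟩,⟨1,[(23,0),(8,0),(0,0)]⟩) .k 0 (⟨0,[]⟩,⟨0,[]⟩) .k .k) (.I [1,-1,
  0,0,0,0,0,0,-1] (.I [1,0,0,1,0,0,0,-1,-1] (.R ⟨0,false,false,true,[0,0,0,1],[1,0,-1],[0,1,0,-1,0,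
  0,0,0,1],(⟨0,[(27,0)]⟩,⟨1,[(26,0),(8,0),(0,0)]⟩),(⟨0,[(35,0)]⟩,⟨0,[(36,0)]⟩),⟨0,[(2,0)]⟩,.k,.k,
  (.x 0 ⟨2,[(9,0),(8,1),(10,1)]⟩ ⟨3,[(24,0),(0,0),(13,3),(3,1)]⟩),.k,.k,.k,⟨false,1,⟨1,[(17,0),(7,
  0),(8,0)]⟩,⟨0,[(0,0)]⟩⟩,⟨true,0,⟨0,[(21,0),(5,0)]⟩,⟨7,[(9,1),(16,3),(5,4),(0,0),(1,3),(3,1)]⟩⟩,
  ⟨true,0,⟨0,[(41,0)]⟩,⟨0,[(42,0)]⟩⟩,⟨false,0,⟨0,[(1,0),(25,0),(0,0)]⟩,⟨1,[(16,1),(8,0),(0,0),(8,0),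
  (0,0),(7,0)]⟩⟩,⟨false,0,⟨0,[]⟩,⟨0,[]⟩⟩,⟨false,0,⟨0,[]⟩,⟨0,[]⟩⟩,[.o ⟨false,0,⟨0,[(28,0)]⟩,⟨3,[(16,
  3),(7,0),(0,0),(18,1)]⟩⟩,.o ⟨false,1,⟨1,[(31,1),(5,0),(6,0)]⟩,⟨0,[(16,0)]⟩⟩,.a ⟨true,0,⟨1,[(26,0),
  (8,0),(0,0)]⟩,⟨0,[(27,0)]⟩⟩ ⟨false,1,⟨1,[(25,0),(15,1),(2,0)]⟩,⟨0,[(1,0),(40,0)]⟩⟩ ⟨true,0,⟨0,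
  [(27,0),(0,0)]⟩,⟨1,[(16,1),(9,0),(8,0),(0,0)]⟩⟩,.o ⟨false,0,⟨1,[(26,0),(2,0),(2,0)]⟩,⟨1,[(27,1),
  (9,0),(5,0)]⟩⟩]⟩) (.I [0,1,1,1,-1,0,0,1] (.I [0,1,-1,0,0,0,0,1] (.Q [0,1,0,0,0,0,1,1,1,1,-1,-1]
  (.p false [0,0,1] [1,0,0,-1] (⟨0,[(38,0)]⟩,⟨0,[(37,0)]⟩) .k 2 (⟨1,[(28,0),(8,0),(0,0)]⟩,⟨0,[(29,
  0)]⟩) .k (.r 0 ⟨0,[(2,0),(41,0)]⟩ ⟨4,[(3,0),(20,2),(1,1),(6,1),(0,1),(7,0)]⟩)) (.R ⟨0,false,false,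
  false,[0,0,0,1],[1,0,-1],[0,1],(⟨0,[(30,0)]⟩,⟨1,[(29,0),(8,0),(0,0)]⟩),(⟨0,[(38,0)]⟩,⟨0,[(39,
  0)]⟩),⟨0,[(5,0)]⟩,.k,.k,(.r (-1) ⟨3,[(3,1),(18,1),(5,0),(17,0)]⟩ ⟨1,[(9,1),(19,0),(2,0),(2,0)]⟩),
  .k,.k,.k,⟨false,0,⟨0,[(1,0)]⟩,⟨0,[(25,0),(17,0)]⟩⟩,⟨true,0,⟨0,[(24,0),(5,0)]⟩,⟨7,[(12,1),(16,3),
  (5,4),(0,0),(1,3),(3,1)]⟩⟩,⟨false,0,⟨3,[(4,1),(4,1),(7,0),(11,0),(14,0)]⟩,⟨1,[(28,0),(18,0)]⟩⟩,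
  ⟨true,0,⟨0,[(4,0),(25,0),(0,0)]⟩,⟨0,[(0,0)]⟩⟩,⟨false,0,⟨0,[]⟩,⟨0,[]⟩⟩,⟨false,0,⟨0,[]⟩,⟨0,[]⟩⟩,[.o
  ⟨false,1,⟨1,[(34,1),(5,0),(6,0)]⟩,⟨0,[(19,0)]⟩⟩,.o ⟨false,1,⟨0,[(31,0),(15,0)]⟩,⟨0,[(33,0)]⟩⟩,.a
  ⟨true,0,⟨1,[(29,0),(8,0),(0,0)]⟩,⟨0,[(30,0)]⟩⟩ ⟨true,0,⟨0,[(49,0)]⟩,⟨0,[]⟩⟩ ⟨false,1,⟨0,[(30,0),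
  (0,0),(15,0)]⟩,⟨0,[(0,0),(3,0)]⟩⟩,.o ⟨false,0,⟨1,[(29,0),(2,0),(2,0)]⟩,⟨1,[(30,1),(9,0),(5,
  0)]⟩⟩]⟩) (.R ⟨0,false,false,true,[0,0,0,1],[1,0,-1],[1,0,0,0,0,0,0,0,1],(⟨0,[(30,0)]⟩,⟨1,[(29,0),
  (8,0),(0,0)]⟩),(⟨0,[(38,0)]⟩,⟨0,[(39,0)]⟩),⟨0,[(5,0)]⟩,.k,.k,(.r (-1) ⟨3,[(3,1),(18,1),(5,0),(17,
  0)]⟩ ⟨1,[(9,1),(19,0),(2,0),(2,0)]⟩),.k,.k,.k,⟨false,1,⟨3,[(3,1),(4,1),(19,0),(16,3),(1,0)]⟩,⟨1,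
  [(0,1),(0,1),(10,1),(2,2),(5,0),(7,0),(4,1)]⟩⟩,⟨true,0,⟨0,[(24,0),(5,0)]⟩,⟨7,[(12,1),(16,3),(5,4),
  (0,0),(1,3),(3,1)]⟩⟩,⟨true,0,⟨0,[]⟩,⟨0,[(49,0)]⟩⟩,⟨false,0,⟨2,[(0,1),(8,0),(7,0),(16,0)]⟩,⟨1,[(19,
  1),(8,0),(0,0),(8,0),(0,0),(7,0)]⟩⟩,⟨false,0,⟨0,[]⟩,⟨0,[]⟩⟩,⟨false,0,⟨0,[]⟩,⟨0,[]⟩⟩,[.o ⟨false,0,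
  ⟨0,[(31,0)]⟩,⟨3,[(19,3),(7,0),(0,0),(18,1)]⟩⟩,.o ⟨false,1,⟨1,[(34,1),(5,0),(6,0)]⟩,⟨0,[(19,0)]⟩⟩,
  .a ⟨true,0,⟨1,[(29,0),(8,0),(0,0)]⟩,⟨0,[(30,0)]⟩⟩ ⟨false,1,⟨1,[(28,0),(18,0)]⟩,⟨3,[(4,1),(4,1),(7,
  0),(11,0),(14,0)]⟩⟩ ⟨true,0,⟨0,[(30,0),(0,0)]⟩,⟨1,[(19,1),(9,0),(8,0),(0,0)]⟩⟩,.o ⟨false,0,⟨1,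
  [(29,0),(2,0),(2,0)]⟩,⟨1,[(30,1),(9,0),(5,0)]⟩⟩]⟩)) (.R ⟨0,false,false,false,[0,0,0,1],[0,1],[1,0,
  0,0,0,0,0,0,1],(⟨0,[(29,0)]⟩,⟨1,[(28,0),(8,0),(0,0)]⟩),(⟨0,[(41,0)]⟩,⟨0,[(40,0)]⟩),⟨0,[(4,0)]⟩,.k,
  .k,(.r (-1) ⟨3,[(2,1),(18,1),(5,0),(17,0)]⟩ ⟨1,[(0,0),(0,0),(24,0),(17,0)]⟩),(.r (-1) ⟨3,[(2,1),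
  (18,1),(5,0),(17,0)]⟩ ⟨1,[(0,0),(0,0),(24,0),(17,0)]⟩),.k,.k,⟨true,1,⟨3,[(2,1),(18,1),(5,0),(17,
  0)]⟩,⟨1,[(0,0),(0,1),(1,1),(29,0),(0,0)]⟩⟩,⟨false,1,⟨0,[(29,0),(15,0)]⟩,⟨1,[(28,0),(2,0),(2,0)]⟩⟩,
  ⟨true,0,⟨0,[]⟩,⟨0,[(48,0)]⟩⟩,⟨false,0,⟨0,[(5,0)]⟩,⟨11,[(9,3),(11,3),(4,0),(0,6),(0,5),(2,1),(3,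
  1)]⟩⟩,⟨false,0,⟨0,[]⟩,⟨0,[]⟩⟩,⟨false,0,⟨0,[]⟩,⟨0,[]⟩⟩,[.o ⟨false,0,⟨0,[(44,0)]⟩,⟨11,[(9,3),(11,3),
  (4,2),(0,2),(3,3),(7,1)]⟩⟩,.o ⟨false,1,⟨3,[(26,0),(0,0),(16,3),(1,1)]⟩,⟨0,[(16,0)]⟩⟩,.a ⟨true,0,
  ⟨1,[(28,0),(8,0),(0,0)]⟩,⟨0,[(29,0)]⟩⟩ ⟨false,1,⟨1,[(27,0),(18,0)]⟩,⟨3,[(3,1),(4,1),(7,0),(11,0),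
  (14,0)]⟩⟩ ⟨true,0,⟨0,[(29,0),(14,0)]⟩,⟨1,[(16,0),(11,0),(14,0)]⟩⟩,.o ⟨false,0,⟨1,[(28,0),(2,0),(2,
  0)]⟩,⟨1,[(29,1),(9,0),(5,0)]⟩⟩]⟩)) (.Q [0,-1,0,1,0,0,1,1,0,1,-1] (.p false [0,0,1] [1] (⟨0,[(37,
  0)]⟩,⟨0,[(36,0)]⟩) .k 1 (⟨0,[]⟩,⟨0,[]⟩) .k .k) (.I [0,1,-1,0,0,0,0,1] (.I [1,1,0,0,0,0,0,0,1] (.K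
  ⟨1,[1,0,0,-1],0,0,(⟨1,[(30,0),(8,0),(0,0)]⟩,⟨0,[(31,0)]⟩),.k,(.r (-1) ⟨4,[(8,0),(12,0),(1,0),(4,
  1)]⟩ ⟨0,[(0,0),(43,0),(1,0)]⟩),(.r 0 ⟨1,[(10,1),(19,0),(2,0),(2,0)]⟩ ⟨2,[(0,0),(2,0),(17,0),(7,
  0)]⟩),.k,.k,[⟨7,[(13,1),(16,3),(5,0),(0,4),(1,3),(3,1)]⟩,⟨1,[(15,0),(15,1),(1,0)]⟩,⟨1,[(0,1),(29,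
  0),(8,0),(0,0)]⟩,⟨0,[(5,0),(25,0)]⟩]⟩) (.I [0,0,-1,-1,0,0,0,1,-1] (.R ⟨0,false,false,false,[0,0,0,
  1],[1,-1,1],[1,0,0,0,0,0,0,0,1],(⟨0,[(32,0)]⟩,⟨1,[(31,0),(8,0),(0,0)]⟩),(⟨0,[(41,0),(1,0)]⟩,⟨0,
  [(17,0)]⟩),⟨0,[(7,0)]⟩,.k,.k,(.r (-1) ⟨3,[(5,1),(18,1),(5,0),(17,0)]⟩ ⟨1,[(11,1),(19,0),(2,0),(2,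
  0)]⟩),(.r (-1) ⟨1,[(30,0),(5,1),(0,1),(9,1),(1,0)]⟩ ⟨0,[(0,0)]⟩),.k,.k,⟨false,1,⟨1,[(4,0),(25,0),
  (5,0),(0,0),(9,2)]⟩,⟨0,[(0,0)]⟩⟩,⟨true,0,⟨0,[(16,0),(15,0)]⟩,⟨5,[(13,1),(17,2),(6,1),(1,2),(0,
  2)]⟩⟩,⟨true,0,⟨0,[]⟩,⟨0,[(51,0)]⟩⟩,⟨false,0,⟨0,[(8,0),(3,0)]⟩,⟨1,[(3,0),(26,0),(0,0),(4,2),(10,0),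
  (1,0)]⟩⟩,⟨false,0,⟨0,[]⟩,⟨0,[]⟩⟩,⟨false,0,⟨0,[]⟩,⟨0,[]⟩⟩,[.o ⟨false,0,⟨0,[(15,0)]⟩,⟨3,[(29,0),(0,
  0),(5,3),(10,3),(1,1)]⟩⟩,.o ⟨false,1,⟨7,[(12,3),(8,3),(7,0),(0,0),(11,1),(6,3)]⟩,⟨0,[(36,0),(10,
  0)]⟩⟩,.a ⟨true,0,⟨1,[(31,0),(8,0),(0,0)]⟩,⟨0,[(32,0)]⟩⟩ ⟨false,1,⟨1,[(30,0),(18,0)]⟩,⟨3,[(6,1),(4,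
  1),(7,0),(11,0),(14,0)]⟩⟩ ⟨true,0,⟨0,[(15,0),(16,0)]⟩,⟨1,[(3,0),(27,0),(4,2),(10,0)]⟩⟩,.o ⟨false,
  0,⟨1,[(31,0),(2,0),(2,0)]⟩,⟨1,[(32,1),(9,0),(5,0)]⟩⟩]⟩) (.R ⟨0,false,false,false,[0,0,0,1],[1,0,
  -1],[0,1],(⟨0,[(32,0)]⟩,⟨1,[(31,0),(8,0),(0,0)]⟩),(⟨0,[(40,0)]⟩,⟨0,[(41,0)]⟩),⟨0,[(7,0)]⟩,.k,.k,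
  (.r (-1) ⟨3,[(5,1),(18,1),(5,0),(17,0)]⟩ ⟨1,[(11,1),(19,0),(2,0),(2,0)]⟩),.k,.k,.k,⟨false,0,⟨0,
  [(2,0)]⟩,⟨3,[(0,1),(3,1),(24,0),(19,0)]⟩⟩,⟨true,0,⟨0,[(26,0),(5,0)]⟩,⟨7,[(14,1),(16,3),(5,4),(0,
  0),(1,3),(3,1)]⟩⟩,⟨false,0,⟨3,[(6,1),(4,1),(7,0),(11,0),(14,0)]⟩,⟨1,[(30,0),(18,0)]⟩⟩,⟨true,0,⟨0,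
  [(6,0),(25,0),(0,0)]⟩,⟨1,[(0,0),(1,1),(2,0),(8,0),(2,0),(13,0),(8,0)]⟩⟩,⟨false,0,⟨0,[]⟩,⟨0,[]⟩⟩,
  ⟨false,0,⟨0,[]⟩,⟨0,[]⟩⟩,[.o ⟨false,1,⟨1,[(36,1),(5,0),(6,0)]⟩,⟨0,[(21,0)]⟩⟩,.o ⟨false,1,⟨0,[(33,
  0),(15,0)]⟩,⟨0,[(35,0)]⟩⟩,.a ⟨true,0,⟨1,[(31,0),(8,0),(0,0)]⟩,⟨0,[(32,0)]⟩⟩ ⟨true,0,⟨0,[(51,0)]⟩,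
  ⟨0,[]⟩⟩ ⟨false,1,⟨5,[(0,1),(3,3),(6,1),(16,1),(3,3),(1,1),(7,0),(6,0)]⟩,⟨1,[(3,0),(21,0),(5,0)]⟩⟩,
  .o ⟨false,0,⟨1,[(31,0),(2,0),(2,0)]⟩,⟨1,[(32,1),(9,0),(5,0)]⟩⟩]⟩))) (.Q [0,0,0,0,0,-1,0,0,0,1,0,
  -1] (.p false [0,0,0,1] [1] (⟨0,[(30,0)]⟩,⟨1,[(29,0),(8,0),(0,0)]⟩) .k 1 (⟨0,[]⟩,⟨0,[]⟩) .k .k)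
  (.R ⟨1,false,false,true,[1,0,0,-1],[1,-1],[0,1,0,0,0,0,0,0,-1],(⟨1,[(30,0),(8,0),(0,0)]⟩,⟨0,[(31,
  0)]⟩),(⟨0,[(42,0)]⟩,⟨0,[(43,0)]⟩),⟨0,[(0,0)]⟩,.k,.k,(.r (-1) ⟨4,[(8,0),(12,0),(1,0),(4,1)]⟩ ⟨1,
  [(1,0),(2,1),(30,0),(0,0),(9,3)]⟩),(.r 0 ⟨1,[(10,1),(19,0),(2,0),(2,0)]⟩ ⟨3,[(4,1),(18,1),(5,0),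
  (17,0)]⟩),.k,.k,⟨false,0,⟨4,[(5,0),(4,3),(3,0),(15,1),(1,0),(13,1)]⟩,⟨3,[(4,1),(18,1),(5,0),(17,
  0)]⟩⟩,⟨true,0,⟨1,[(30,0),(2,0),(2,0)]⟩,⟨0,[(31,0)]⟩⟩,⟨true,0,⟨0,[(50,0)]⟩,⟨0,[]⟩⟩,⟨false,1,⟨11,
  [(11,3),(11,3),(4,0),(0,6),(0,5),(2,1),(3,1)]⟩,⟨0,[(7,0)]⟩⟩,⟨false,0,⟨0,[(46,0)]⟩,⟨0,[(45,0),(2,
  0)]⟩⟩,⟨false,1,⟨7,[(28,0),(0,4),(0,3),(10,1)]⟩,⟨0,[(5,0),(25,0)]⟩⟩,[.o ⟨false,0,⟨0,[(18,0)]⟩,⟨3,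
  [(28,0),(0,0),(16,3),(1,1)]⟩⟩,.o ⟨false,1,⟨11,[(11,3),(11,3),(4,2),(0,2),(3,3),(7,1)]⟩,⟨0,[(46,
  0)]⟩⟩,.a ⟨true,0,⟨0,[(31,0)]⟩,⟨1,[(30,0),(8,0),(0,0)]⟩⟩ ⟨false,0,⟨3,[(5,1),(4,1),(7,0),(11,0),(14,
  0)]⟩,⟨1,[(29,0),(18,0)]⟩⟩ ⟨true,0,⟨1,[(18,0),(11,0),(14,0)]⟩,⟨0,[(31,0),(14,0)]⟩⟩,.o ⟨false,0,⟨1,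
  [(15,0),(15,1),(1,0)]⟩,⟨7,[(28,0),(0,0),(0,3),(10,1),(5,3)]⟩⟩]⟩) (.R ⟨0,false,false,true,[1,0,0,
  -1],[1,-1],[0,1,0,0,0,0,0,0,-1],(⟨1,[(30,0),(8,0),(0,0)]⟩,⟨0,[(31,0)]⟩),(⟨0,[(42,0)]⟩,⟨0,[(43,
  0)]⟩),⟨0,[(0,0)]⟩,.k,.k,(.r (-1) ⟨4,[(8,0),(12,0),(1,0),(4,1)]⟩ ⟨1,[(1,0),(2,1),(30,0),(0,0),(9,
  3)]⟩),(.r 0 ⟨1,[(10,1),(19,0),(2,0),(2,0)]⟩ ⟨3,[(4,1),(18,1),(5,0),(17,0)]⟩),.k,.k,⟨false,0,⟨4,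
  [(5,0),(4,3),(3,0),(15,1),(1,0),(13,1)]⟩,⟨3,[(4,1),(18,1),(5,0),(17,0)]⟩⟩,⟨true,0,⟨1,[(30,0),(2,
  0),(2,0)]⟩,⟨0,[(31,0)]⟩⟩,⟨true,0,⟨0,[(50,0)]⟩,⟨0,[]⟩⟩,⟨false,1,⟨11,[(11,3),(11,3),(4,0),(0,6),(0,
  5),(2,1),(3,1)]⟩,⟨0,[(7,0)]⟩⟩,⟨false,0,⟨0,[]⟩,⟨0,[]⟩⟩,⟨false,0,⟨0,[]⟩,⟨0,[]⟩⟩,[.o ⟨false,0,⟨0,
  [(18,0)]⟩,⟨3,[(28,0),(0,0),(16,3),(1,1)]⟩⟩,.o ⟨false,1,⟨11,[(11,3),(11,3),(4,2),(0,2),(3,3),(7,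
  1)]⟩,⟨0,[(46,0)]⟩⟩,.a ⟨true,0,⟨0,[(31,0)]⟩,⟨1,[(30,0),(8,0),(0,0)]⟩⟩ ⟨false,0,⟨3,[(5,1),(4,1),(7,
  0),(11,0),(14,0)]⟩,⟨1,[(29,0),(18,0)]⟩⟩ ⟨true,0,⟨1,[(18,0),(11,0),(14,0)]⟩,⟨0,[(31,0),(14,0)]⟩⟩,
  .o ⟨false,0,⟨1,[(15,0),(15,1),(1,0)]⟩,⟨7,[(28,0),(0,0),(0,3),(10,1),(5,3)]⟩⟩]⟩))) (.I [1,1,0,0,0,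
  0,0,0,1] (.K ⟨1,[1,0,0,-1],0,0,(⟨1,[(29,0),(8,0),(0,0)]⟩,⟨0,[(30,0)]⟩),.k,(.r (-1) ⟨4,[(7,0),(12,
  0),(1,0),(4,1)]⟩ ⟨0,[(0,0),(42,0),(1,0)]⟩),(.r 0 ⟨1,[(9,1),(19,0),(2,0),(2,0)]⟩ ⟨2,[(0,0),(1,0),
  (17,0),(7,0)]⟩),.k,.k,[⟨7,[(12,1),(16,3),(5,0),(0,4),(1,3),(3,1)]⟩,⟨1,[(14,0),(15,1),(1,0)]⟩,⟨1,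
  [(0,1),(28,0),(8,0),(0,0)]⟩,⟨0,[(4,0),(25,0)]⟩]⟩) (.Q [0,1,0,0,0,0,0,0,1,1,0,-1] (.p false [0,0,0,
  1] [1] (⟨0,[(30,0)]⟩,⟨1,[(29,0),(8,0),(0,0)]⟩) .k 1 (⟨0,[]⟩,⟨0,[]⟩) .k .k) (.K ⟨1,[1,0,0,-1],0,0,
  (⟨1,[(30,0),(8,0),(0,0)]⟩,⟨0,[(31,0)]⟩),.k,(.x 0 ⟨2,[(13,0),(8,1),(10,1)]⟩ ⟨3,[(28,0),(0,0),(13,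
  3),(3,1)]⟩),(.r 0 ⟨1,[(10,1),(19,0),(2,0),(2,0)]⟩ ⟨3,[(4,1),(18,1),(5,0),(17,0)]⟩),.k,.k,[⟨7,[(13,
  1),(16,3),(5,0),(0,4),(1,3),(3,1)]⟩,⟨1,[(15,0),(15,1),(1,0)]⟩,⟨0,[(0,0)]⟩,⟨0,[(5,0),(25,0)]⟩]⟩)
  (.I [0,0,-1,-1,0,0,0,1,-1] (.R ⟨0,false,false,false,[0,0,0,1],[1,-1,1],[1,0,0,0,0,0,0,0,1],(⟨0,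
  [(32,0)]⟩,⟨1,[(31,0),(8,0),(0,0)]⟩),(⟨0,[(41,0),(1,0)]⟩,⟨0,[(17,0)]⟩),⟨0,[(7,0)]⟩,.k,.k,(.r (-1)
  ⟨3,[(5,1),(18,1),(5,0),(17,0)]⟩ ⟨1,[(11,1),(19,0),(2,0),(2,0)]⟩),(.r (-1) ⟨1,[(30,0),(5,1),(0,1),
  (9,1),(1,0)]⟩ ⟨0,[(0,0)]⟩),.k,.k,⟨false,1,⟨1,[(4,0),(25,0),(5,0),(0,0),(9,2)]⟩,⟨0,[(0,0)]⟩⟩,⟨true,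
  0,⟨0,[(16,0),(15,0)]⟩,⟨5,[(13,1),(17,2),(6,1),(1,2),(0,2)]⟩⟩,⟨true,0,⟨0,[]⟩,⟨0,[(51,0)]⟩⟩,⟨false,
  0,⟨0,[(1,0),(16,0)]⟩,⟨0,[(8,0),(21,0),(0,0),(4,0)]⟩⟩,⟨false,0,⟨0,[]⟩,⟨0,[]⟩⟩,⟨false,0,⟨0,[]⟩,⟨0,
  []⟩⟩,[.o ⟨false,0,⟨0,[(15,0)]⟩,⟨3,[(29,0),(0,0),(5,3),(10,3),(1,1)]⟩⟩,.o ⟨false,1,⟨7,[(12,3),(8,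
  3),(7,0),(0,0),(11,1),(6,3)]⟩,⟨0,[(36,0),(10,0)]⟩⟩,.a ⟨true,0,⟨1,[(31,0),(8,0),(0,0)]⟩,⟨0,[(32,
  0)]⟩⟩ ⟨false,1,⟨1,[(30,0),(18,0)]⟩,⟨3,[(6,1),(4,1),(7,0),(11,0),(14,0)]⟩⟩ ⟨true,0,⟨0,[(15,0),(16,
  0)]⟩,⟨1,[(31,0),(4,1),(3,0),(0,0),(5,1)]⟩⟩,.o ⟨false,0,⟨1,[(31,0),(2,0),(2,0)]⟩,⟨1,[(32,1),(9,0),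
  (5,0)]⟩⟩]⟩) (.I [0,0,2,1,-1,0,0,0,-1] (.R ⟨0,false,false,false,[0,0,0,1],[0,1],[1,0,0,0,0,0,0,0,
  1],(⟨0,[(33,0)]⟩,⟨1,[(32,0),(8,0),(0,0)]⟩),(⟨0,[(45,0)]⟩,⟨0,[(44,0)]⟩),⟨0,[(8,0)]⟩,.k,.k,(.r (-1)
  ⟨3,[(6,1),(18,1),(5,0),(17,0)]⟩ ⟨7,[(0,3),(29,2),(0,0),(16,3)]⟩),(.r (-1) ⟨3,[(6,1),(18,1),(5,0),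
  (17,0)]⟩ ⟨7,[(0,3),(29,2),(0,0),(16,3)]⟩),.k,.k,⟨true,1,⟨3,[(6,1),(18,1),(5,0),(17,0)]⟩,⟨0,[(0,
  0)]⟩⟩,⟨false,1,⟨0,[(33,0),(15,0)]⟩,⟨1,[(32,0),(2,0),(2,0)]⟩⟩,⟨true,0,⟨0,[]⟩,⟨0,[(52,0)]⟩⟩,⟨false,
  0,⟨0,[(9,0)]⟩,⟨11,[(13,3),(11,3),(4,0),(0,6),(0,5),(2,1),(3,1)]⟩⟩,⟨false,0,⟨0,[]⟩,⟨0,[]⟩⟩,⟨false,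
  0,⟨0,[]⟩,⟨0,[]⟩⟩,[.o ⟨false,0,⟨0,[(48,0)]⟩,⟨11,[(13,3),(11,3),(4,2),(0,2),(3,3),(7,1)]⟩⟩,.o
  ⟨false,1,⟨3,[(30,0),(0,0),(16,3),(1,1)]⟩,⟨0,[(20,0)]⟩⟩,.a ⟨true,0,⟨1,[(32,0),(8,0),(0,0)]⟩,⟨0,
  [(33,0)]⟩⟩ ⟨false,1,⟨1,[(31,0),(18,0)]⟩,⟨7,[(0,1),(1,0),(7,1),(1,2),(7,0),(11,1)]⟩⟩ ⟨true,0,⟨0,
  [(33,0),(14,0)]⟩,⟨1,[(20,0),(11,0),(14,0)]⟩⟩,.o ⟨false,0,⟨1,[(32,0),(2,0),(2,0)]⟩,⟨1,[(33,1),(9,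
  0),(5,0)]⟩⟩]⟩) (.Q [0,0,0,0,0,-1,0,0,0,1,0,-1] (.p false [0,0,0,1] [1] (⟨0,[(33,0)]⟩,⟨1,[(32,0),
  (8,0),(0,0)]⟩) .k 1 (⟨0,[]⟩,⟨0,[]⟩) .k .k) (.R ⟨1,false,false,true,[1,0,0,-1],[1,-1],[0,1,0,0,0,0,
  0,0,-1],(⟨1,[(33,0),(8,0),(0,0)]⟩,⟨0,[(34,0)]⟩),(⟨0,[(45,0)]⟩,⟨0,[(46,0)]⟩),⟨0,[(0,0)]⟩,.k,.k,(.r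
  (-1) ⟨4,[(11,0),(12,0),(1,0),(4,1)]⟩ ⟨0,[(2,0),(38,0)]⟩),(.r 0 ⟨1,[(13,1),(19,0),(2,0),(2,0)]⟩ ⟨5,
  [(1,0),(5,0),(16,0),(1,1),(5,1)]⟩),.k,.k,⟨false,0,⟨5,[(3,1),(9,3),(19,2),(1,0),(1,0),(11,1)]⟩,⟨5,
  [(1,0),(5,0),(16,0),(1,1),(5,1)]⟩⟩,⟨true,0,⟨1,[(33,0),(2,0),(2,0)]⟩,⟨0,[(34,0)]⟩⟩,⟨true,0,⟨0,[(53,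
  0)]⟩,⟨0,[]⟩⟩,⟨false,1,⟨11,[(14,3),(11,3),(4,0),(0,6),(0,5),(2,1),(3,1)]⟩,⟨0,[(10,0)]⟩⟩,⟨false,0,
  ⟨0,[(49,0)]⟩,⟨0,[(48,0),(2,0)]⟩⟩,⟨false,1,⟨7,[(31,0),(0,4),(0,3),(10,1)]⟩,⟨0,[(8,0),(25,0)]⟩⟩,[.o
  ⟨false,0,⟨0,[(21,0)]⟩,⟨3,[(31,0),(0,0),(16,3),(1,1)]⟩⟩,.o ⟨false,1,⟨11,[(14,3),(11,3),(4,2),(0,2),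
  (3,3),(7,1)]⟩,⟨0,[(49,0)]⟩⟩,.a ⟨true,0,⟨0,[(34,0)]⟩,⟨1,[(33,0),(8,0),(0,0)]⟩⟩ ⟨false,0,⟨3,[(8,1),
  (4,1),(7,0),(11,0),(14,0)]⟩,⟨1,[(32,0),(18,0)]⟩⟩ ⟨true,0,⟨1,[(21,0),(11,0),(14,0)]⟩,⟨0,[(34,0),
  (14,0)]⟩⟩,.o ⟨false,0,⟨1,[(18,0),(15,1),(1,0)]⟩,⟨7,[(31,0),(0,0),(0,3),(10,1),(5,3)]⟩⟩]⟩) (.R ⟨0,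
  false,false,true,[1,0,0,-1],[1,-1],[0,1,0,0,0,0,0,0,-1],(⟨1,[(33,0),(8,0),(0,0)]⟩,⟨0,[(34,0)]⟩),
  (⟨0,[(45,0)]⟩,⟨0,[(46,0)]⟩),⟨0,[(0,0)]⟩,.k,.k,(.r (-1) ⟨4,[(11,0),(12,0),(1,0),(4,1)]⟩ ⟨0,[(2,0),
  (38,0)]⟩),(.r 0 ⟨1,[(13,1),(19,0),(2,0),(2,0)]⟩ ⟨5,[(1,0),(5,0),(16,0),(1,1),(5,1)]⟩),.k,.k,
  ⟨false,0,⟨5,[(3,1),(9,3),(19,2),(1,0),(1,0),(11,1)]⟩,⟨5,[(1,0),(5,0),(16,0),(1,1),(5,1)]⟩⟩,⟨true,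
  0,⟨1,[(33,0),(2,0),(2,0)]⟩,⟨0,[(34,0)]⟩⟩,⟨true,0,⟨0,[(53,0)]⟩,⟨0,[]⟩⟩,⟨false,1,⟨11,[(14,3),(11,3),
  (4,0),(0,6),(0,5),(2,1),(3,1)]⟩,⟨0,[(10,0)]⟩⟩,⟨false,0,⟨0,[]⟩,⟨0,[]⟩⟩,⟨false,0,⟨0,[]⟩,⟨0,[]⟩⟩,[.o
  ⟨false,0,⟨0,[(21,0)]⟩,⟨3,[(31,0),(0,0),(16,3),(1,1)]⟩⟩,.o ⟨false,1,⟨11,[(14,3),(11,3),(4,2),(0,2),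
  (3,3),(7,1)]⟩,⟨0,[(49,0)]⟩⟩,.a ⟨true,0,⟨0,[(34,0)]⟩,⟨1,[(33,0),(8,0),(0,0)]⟩⟩ ⟨false,0,⟨3,[(8,1),
  (4,1),(7,0),(11,0),(14,0)]⟩,⟨1,[(32,0),(18,0)]⟩⟩ ⟨true,0,⟨1,[(21,0),(11,0),(14,0)]⟩,⟨0,[(34,0),
  (14,0)]⟩⟩,.o ⟨false,0,⟨1,[(18,0),(15,1),(1,0)]⟩,⟨7,[(31,0),(0,0),(0,3),(10,1),(5,3)]⟩⟩]⟩)))))))))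
  (.R ⟨0,false,false,false,[0,0,0,1],[1,-1],[0,1],(⟨0,[(26,0)]⟩,⟨1,[(25,0),(8,0),(0,0)]⟩),(⟨0,[(37,
  0)]⟩,⟨0,[(38,0)]⟩),⟨0,[(1,0)]⟩,.k,.k,(.r (-1) ⟨1,[(0,1),(3,0),(13,0),(20,0)]⟩ ⟨1,[(5,1),(19,0),(2,
  0),(2,0)]⟩),(.r 0 ⟨0,[(0,0),(38,0),(1,0)]⟩ ⟨4,[(3,0),(12,0),(1,0),(4,1)]⟩),.k,.k,⟨false,0,⟨0,[(41,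
  0),(3,0)]⟩,⟨1,[(4,0),(13,0),(20,0)]⟩⟩,⟨true,0,⟨1,[(10,0),(15,1),(1,0)]⟩,⟨1,[(25,0),(8,0),(0,0)]⟩⟩,
  ⟨false,0,⟨1,[(2,0),(2,0),(0,0),(18,0),(4,0)]⟩,⟨1,[(24,0),(18,0)]⟩⟩,⟨true,0,⟨0,[(2,0),(3,0),(23,
  0)]⟩,⟨1,[(0,1),(24,0),(8,0),(0,0),(5,1)]⟩⟩,⟨false,0,⟨0,[]⟩,⟨0,[]⟩⟩,⟨false,0,⟨0,[]⟩,⟨0,[]⟩⟩,[.o
  ⟨false,1,⟨11,[(6,3),(11,3),(4,2),(0,2),(3,3),(7,1)]⟩,⟨0,[(41,0)]⟩⟩,.o ⟨false,1,⟨5,[(6,1),(11,1),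
  (9,1),(7,0),(6,2)]⟩,⟨0,[(41,0),(3,0)]⟩⟩,.a ⟨true,0,⟨1,[(25,0),(8,0),(0,0)]⟩,⟨0,[(26,0)]⟩⟩ ⟨true,0,
  ⟨0,[(45,0)]⟩,⟨0,[]⟩⟩ ⟨false,1,⟨5,[(6,1),(11,1),(7,5),(1,1),(7,0),(6,2)]⟩,⟨1,[(25,0),(8,0),(0,0),
  (5,1)]⟩⟩,.o ⟨false,0,⟨1,[(25,0),(2,0),(2,0)]⟩,⟨1,[(26,1),(9,0),(5,0)]⟩⟩]⟩)) (.I [0,-1,-1,0,1,0,0,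
  1,1] (.Q [0,0,0,-1,0,0,-1,-1,-1,-1,1,1] (.p true [0,0,1] [1,0,0,-1] (⟨0,[(35,0)]⟩,⟨0,[(34,0)]⟩)
  .k 2 (⟨1,[(25,0),(8,0),(0,0)]⟩,⟨0,[(26,0)]⟩) .k (.x (-1) ⟨7,[(8,3),(14,2),(0,2),(13,3),(3,1)]⟩ ⟨1,
  [(11,0),(5,0),(4,0)]⟩)) (.I [1,1,0,0,0,0,0,-1,-1] (.R ⟨1,false,false,true,[0,0,0,1],[1,0,-1],[0,0,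
  0,0,0,0,0,0,1],(⟨0,[(28,0)]⟩,⟨1,[(27,0),(8,0),(0,0)]⟩),(⟨0,[(36,0)]⟩,⟨0,[(37,0)]⟩),⟨0,[(3,0)]⟩,.k,
  .k,(.x 0 ⟨2,[(10,0),(8,1),(10,1)]⟩ ⟨3,[(25,0),(0,0),(13,3),(3,1)]⟩),.k,(.r (-1) ⟨1,[(18,0),(7,0),
  (8,0)]⟩ ⟨0,[(0,0),(40,0),(1,0)]⟩),.k,⟨false,1,⟨0,[(2,0)]⟩,⟨0,[(0,0)]⟩⟩,⟨true,0,⟨0,[(22,0),(5,0)]⟩,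
  ⟨7,[(10,1),(16,3),(5,4),(0,0),(1,3),(3,1)]⟩⟩,⟨false,1,⟨3,[(25,0),(0,0),(18,1)]⟩,⟨0,[]⟩⟩,⟨false,0,
  ⟨1,[(1,0),(2,0),(24,0)]⟩,⟨7,[(2,7),(7,1),(16,3),(5,4),(0,0),(1,3),(3,1)]⟩⟩,⟨true,0,⟨0,[(43,0)]⟩,
  ⟨0,[(42,0)]⟩⟩,⟨false,0,⟨0,[(4,0),(24,0)]⟩,⟨1,[(14,1),(11,0),(0,0),(8,0),(0,0),(7,0)]⟩⟩,[.o ⟨false,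
  0,⟨0,[(29,0)]⟩,⟨3,[(17,3),(7,0),(0,0),(18,1)]⟩⟩,.o ⟨false,1,⟨1,[(32,1),(5,0),(6,0)]⟩,⟨0,[(17,
  0)]⟩⟩,.a ⟨true,0,⟨1,[(27,0),(8,0),(0,0)]⟩,⟨0,[(28,0)]⟩⟩ ⟨false,1,⟨1,[(26,0),(18,0)]⟩,⟨3,[(1,0),(5,
  2),(0,0),(18,1)]⟩⟩ ⟨true,0,⟨0,[(28,0),(0,0)]⟩,⟨1,[(17,1),(9,0),(8,0),(0,0)]⟩⟩,.o ⟨false,0,⟨1,[(27,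
  0),(2,0),(2,0)]⟩,⟨1,[(28,1),(9,0),(5,0)]⟩⟩]⟩) (.I [1,0,2,1,-1,0,0,0,-1] (.R ⟨1,false,false,false,
  [0,0,0,1],[0,1],[0,0,0,0,0,0,0,0,1],(⟨0,[(29,0)]⟩,⟨1,[(28,0),(8,0),(0,0)]⟩),(⟨0,[(41,0)]⟩,⟨0,[(40,
  0)]⟩),⟨0,[(4,0)]⟩,.k,.k,(.x 0 ⟨2,[(11,0),(8,1),(10,1)]⟩ ⟨3,[(26,0),(0,0),(13,3),(3,1)]⟩),(.x 0 ⟨2,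
  [(11,0),(8,1),(10,1)]⟩ ⟨3,[(26,0),(0,0),(13,3),(3,1)]⟩),(.r (-2) ⟨11,[(19,7),(1,7),(4,0),(0,6)]⟩
  ⟨0,[(0,0),(43,0)]⟩),.k,⟨true,1,⟨3,[(1,1),(19,1),(5,0),(15,1),(1,0)]⟩,⟨0,[(0,0)]⟩⟩,⟨false,1,⟨0,
  [(29,0),(15,0)]⟩,⟨1,[(28,0),(2,0),(2,0)]⟩⟩,⟨false,1,⟨3,[(26,0),(0,0),(18,1)]⟩,⟨0,[]⟩⟩,⟨false,0,⟨0,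
  [(5,0)]⟩,⟨11,[(9,3),(11,3),(4,0),(0,6),(0,5),(2,1),(3,1)]⟩⟩,⟨true,0,⟨0,[(44,0)]⟩,⟨0,[(43,0)]⟩⟩,
  ⟨false,0,⟨0,[(5,0),(38,0)]⟩,⟨8,[(1,1),(0,0),(6,3),(11,4),(5,3),(0,4),(6,2),(6,1),(0,3)]⟩⟩,[.o
  ⟨false,0,⟨0,[(44,0)]⟩,⟨11,[(9,3),(11,3),(4,2),(0,2),(3,3),(7,1)]⟩⟩,.o ⟨false,1,⟨3,[(26,0),(0,0),
  (16,3),(1,1)]⟩,⟨0,[(16,0)]⟩⟩,.a ⟨true,0,⟨1,[(28,0),(8,0),(0,0)]⟩,⟨0,[(29,0)]⟩⟩ ⟨false,1,⟨1,[(27,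
  0),(18,0)]⟩,⟨9,[(0,2),(4,0),(0,2),(1,2),(3,0),(15,1),(1,0)]⟩⟩ ⟨true,0,⟨0,[(29,0),(14,0)]⟩,⟨1,[(16,
  0),(11,0),(14,0)]⟩⟩,.o ⟨false,0,⟨1,[(28,0),(2,0),(2,0)]⟩,⟨1,[(29,1),(9,0),(5,0)]⟩⟩]⟩) (.I [1,1,0,
  0,0,0,0,0,1] (.R ⟨1,false,false,false,[1,0,0,-1],[1,-1],[0,0,0,0,0,0,0,0,-1],(⟨1,[(29,0),(8,0),(0,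
  0)]⟩,⟨0,[(30,0)]⟩),(⟨0,[(41,0)]⟩,⟨0,[(42,0)]⟩),⟨0,[(5,0),(23,0)]⟩,.k,.k,(.x 0 ⟨2,[(12,0),(8,1),
  (10,1)]⟩ ⟨3,[(27,0),(0,0),(13,3),(3,1)]⟩),(.x (-1) ⟨3,[(27,0),(0,0),(13,3),(3,1)]⟩ ⟨2,[(12,0),(8,
  1),(10,1)]⟩),.k,.k,⟨false,0,⟨3,[(6,0),(2,2),(3,0),(15,1),(1,0),(13,0)]⟩,⟨5,[(1,0),(0,0),(17,0),(1,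
  1),(5,1),(15,0)]⟩⟩,⟨true,0,⟨1,[(29,0),(2,0),(2,0)]⟩,⟨0,[(30,0)]⟩⟩,⟨false,1,⟨3,[(27,0),(0,0),(18,
  1)]⟩,⟨0,[]⟩⟩,⟨false,1,⟨6,[(2,1),(0,0),(6,1),(11,1),(5,2),(0,3),(1,0),(11,1),(3,1)]⟩,⟨0,[(9,0)]⟩⟩,
  ⟨true,0,⟨0,[(45,0)]⟩,⟨0,[(44,0)]⟩⟩,⟨false,1,⟨11,[(2,3),(11,1),(10,1),(2,3),(0,5),(1,1),(8,0),(6,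
  4)]⟩,⟨2,[(3,0),(5,1),(6,0),(21,0),(0,0)]⟩⟩,[.o ⟨false,1,⟨11,[(10,3),(11,3),(4,2),(0,2),(3,3),(7,
  1)]⟩,⟨0,[(45,0)]⟩⟩,.o ⟨false,1,⟨5,[(10,1),(11,1),(9,1),(7,0),(6,2)]⟩,⟨0,[(45,0),(3,0)]⟩⟩,.a ⟨true,
  0,⟨0,[(30,0)]⟩,⟨1,[(29,0),(8,0),(0,0)]⟩⟩ ⟨true,0,⟨3,[(3,0),(5,2),(0,0),(18,1)]⟩,⟨0,[(0,0)]⟩⟩
  ⟨false,1,⟨11,[(10,3),(11,3),(4,0),(0,0),(0,5),(2,1),(3,1),(10,5)]⟩,⟨0,[(30,0),(14,0)]⟩⟩,.o ⟨false,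
  0,⟨1,[(14,0),(15,1),(1,0)]⟩,⟨7,[(27,0),(0,0),(0,3),(10,1),(5,3)]⟩⟩]⟩) (.R ⟨1,false,false,true,[1,
  0,0,-1],[1,-1],[1,1,0,-1,0,0,0,0,-1],(⟨1,[(29,0),(8,0),(0,0)]⟩,⟨0,[(30,0)]⟩),(⟨0,[(41,0)]⟩,⟨0,
  [(42,0)]⟩),⟨0,[(5,0),(23,0)]⟩,.k,.k,(.x 0 ⟨2,[(12,0),(8,1),(10,1)]⟩ ⟨3,[(27,0),(0,0),(13,3),(3,
  1)]⟩),(.x (-1) ⟨3,[(27,0),(0,0),(13,3),(3,1)]⟩ ⟨2,[(12,0),(8,1),(10,1)]⟩),.k,.k,⟨false,0,⟨5,[(0,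
  1),(2,0),(5,2),(7,0),(5,0),(5,1)]⟩,⟨1,[(28,0),(17,0)]⟩⟩,⟨true,0,⟨1,[(29,0),(2,0),(2,0)]⟩,⟨0,[(30,
  0)]⟩⟩,⟨true,0,⟨0,[(44,0)]⟩,⟨0,[(45,0)]⟩⟩,⟨false,1,⟨11,[(10,3),(11,3),(4,0),(0,6),(0,5),(2,1),(3,
  1)]⟩,⟨0,[(6,0)]⟩⟩,⟨false,0,⟨0,[]⟩,⟨3,[(27,0),(0,0),(18,1)]⟩⟩,⟨false,1,⟨7,[(27,0),(0,4),(0,3),(10,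
  1)]⟩,⟨0,[(0,0),(29,0)]⟩⟩,[.o ⟨false,0,⟨0,[(17,0)]⟩,⟨3,[(27,0),(0,0),(16,3),(1,1)]⟩⟩,.o ⟨false,1,
  ⟨11,[(10,3),(11,3),(4,2),(0,2),(3,3),(7,1)]⟩,⟨0,[(45,0)]⟩⟩,.a ⟨true,0,⟨0,[(30,0)]⟩,⟨1,[(29,0),(8,
  0),(0,0)]⟩⟩ ⟨false,0,⟨0,[(0,0),(43,0)]⟩,⟨1,[(28,0),(16,1),(1,0)]⟩⟩ ⟨true,0,⟨1,[(17,0),(11,0),(14,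
  0)]⟩,⟨0,[(30,0),(14,0)]⟩⟩,.o ⟨false,0,⟨1,[(14,0),(15,1),(1,0)]⟩,⟨7,[(27,0),(0,0),(0,3),(10,1),(5,
  3)]⟩⟩]⟩)))) (.R ⟨1,false,false,false,[1,0,0,-1],[1,-1],[1,0,0,-1,0,0,0,0,-1],(⟨1,[(26,0),(8,0),(0,
  0)]⟩,⟨0,[(27,0)]⟩),(⟨0,[(38,0)]⟩,⟨0,[(39,0)]⟩),⟨0,[(2,0),(23,0)]⟩,.k,.k,(.x 0 ⟨2,[(9,0),(8,1),(10,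
  1)]⟩ ⟨3,[(24,0),(0,0),(13,3),(3,1)]⟩),(.x (-1) ⟨3,[(24,0),(0,0),(13,3),(3,1)]⟩ ⟨2,[(9,0),(8,1),
  (10,1)]⟩),.k,.k,⟨false,0,⟨1,[(3,0),(2,0),(0,0),(18,0),(4,0)]⟩,⟨1,[(25,0),(17,0)]⟩⟩,⟨true,0,⟨1,
  [(26,0),(2,0),(2,0)]⟩,⟨0,[(27,0)]⟩⟩,⟨false,1,⟨0,[(41,0),(2,0)]⟩,⟨0,[(42,0)]⟩⟩,⟨false,1,⟨1,[(0,1),
  (6,0),(0,0),(10,1),(8,0),(11,2)]⟩,⟨0,[(6,0)]⟩⟩,⟨true,0,⟨0,[]⟩,⟨0,[(46,0)]⟩⟩,⟨false,1,⟨0,[(0,0),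
  (18,0),(1,0),(18,0)]⟩,⟨0,[(3,0),(37,0)]⟩⟩,[.o ⟨false,1,⟨11,[(7,3),(11,3),(4,2),(0,2),(3,3),(7,
  1)]⟩,⟨0,[(42,0)]⟩⟩,.o ⟨false,1,⟨5,[(7,1),(11,1),(9,1),(7,0),(6,2)]⟩,⟨0,[(42,0),(3,0)]⟩⟩,.a ⟨true,
  0,⟨0,[(27,0)]⟩,⟨1,[(26,0),(8,0),(0,0)]⟩⟩ ⟨true,0,⟨1,[(3,1),(3,1),(18,0),(4,1),(3,0),(0,0)]⟩,⟨0,
  [(0,0),(26,0),(0,0)]⟩⟩ ⟨false,1,⟨11,[(7,3),(11,3),(4,0),(0,0),(0,5),(2,1),(3,1),(10,5)]⟩,⟨0,[(27,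
  0),(14,0)]⟩⟩,.o ⟨false,0,⟨1,[(11,0),(15,1),(1,0)]⟩,⟨7,[(24,0),(0,0),(0,3),(10,1),(5,3)]⟩⟩]⟩)) (.R
  ⟨1,false,false,false,[1,0,0,-1],[1,-1,1],[0,0,0,0,0,0,0,0,-1],(⟨1,[(25,0),(8,0),(0,0)]⟩,⟨0,[(26,
  0)]⟩),(⟨0,[(35,0),(1,0)]⟩,⟨0,[(11,0)]⟩),⟨0,[(1,0),(23,0)]⟩,.k,.k,(.x 0 ⟨2,[(8,0),(8,1),(10,1)]⟩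
  ⟨3,[(23,0),(0,0),(13,3),(3,1)]⟩),(.r 0 ⟨5,[(0,3),(22,0),(6,1),(0,1),(9,5),(1,2)]⟩ ⟨1,[(16,0),(7,
  0),(8,0)]⟩),.k,.k,⟨false,0,⟨1,[(0,1),(40,1),(0,0),(0,0)]⟩,⟨1,[(16,0),(7,0),(8,0)]⟩⟩,⟨true,0,⟨1,
  [(10,0),(14,0),(5,0)]⟩,⟨2,[(7,0),(18,2),(5,0)]⟩⟩,⟨false,1,⟨3,[(23,0),(0,0),(18,1)]⟩,⟨0,[]⟩⟩,
  ⟨false,1,⟨1,[(6,0),(8,0),(8,0),(0,0),(17,0)]⟩,⟨0,[(2,0),(27,0)]⟩⟩,⟨true,0,⟨0,[(41,0)]⟩,⟨0,[(40,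
  0)]⟩⟩,⟨false,1,⟨1,[(9,0),(5,0),(8,0),(0,0),(15,0),(1,0)]⟩,⟨17,[(0,8),(1,5),(0,2),(3,3),(18,11),(3,
  8),(1,0),(10,5)]⟩⟩,[.o ⟨false,0,⟨0,[(9,0)]⟩,⟨3,[(23,0),(0,0),(5,3),(10,3),(1,1)]⟩⟩,.o ⟨false,1,⟨7,
  [(6,3),(8,3),(7,0),(0,0),(11,1),(6,3)]⟩,⟨0,[(30,0),(10,0)]⟩⟩,.a ⟨true,0,⟨0,[(26,0)]⟩,⟨1,[(25,0),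
  (8,0),(0,0)]⟩⟩ ⟨false,0,⟨0,[(0,0),(3,0),(34,0),(1,0)]⟩,⟨3,[(23,0),(0,2)]⟩⟩ ⟨true,0,⟨1,[(6,0),(8,
  0),(9,0)]⟩,⟨0,[(26,0),(3,0),(10,0)]⟩⟩,.o ⟨false,0,⟨1,[(10,0),(15,1),(1,0)]⟩,⟨7,[(23,0),(0,0),(0,
  3),(10,1),(5,3)]⟩⟩]⟩))) (.Q [0,0,0,1,0,0,-1,-1,-1,0,1,1] (.p true [1,-1,1] [1,0,0,-1] (⟨0,[(33,0),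
  (1,0)]⟩,⟨0,[(9,0)]⟩) .k 2 (⟨1,[(23,0),(8,0),(0,0)]⟩,⟨0,[(24,0)]⟩) .k (.x (-1) ⟨7,[(6,3),(14,2),(0,
  2),(13,3),(3,1)]⟩ ⟨1,[(9,0),(5,0),(4,0)]⟩)) (.Q [0,0,0,0,0,1,0,0,0,0,0,-1] (.p false [0,0,0,1] []
  (⟨0,[(25,0)]⟩,⟨1,[(24,0),(8,0),(0,0)]⟩) .k 0 (⟨0,[]⟩,⟨0,[]⟩) .k .k) (.R ⟨0,false,false,false,[0,0,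
  0,1],[0,1],[1,0,1,1],(⟨0,[(26,0)]⟩,⟨1,[(25,0),(8,0),(0,0)]⟩),(⟨0,[(38,0)]⟩,⟨0,[(37,0)]⟩),⟨0,[(0,
  0)]⟩,.k,.k,(.r (-1) ⟨2,[(2,0),(1,0),(13,0),(5,0),(1,0)]⟩ ⟨1,[(5,1),(19,0),(2,0),(2,0)]⟩),(.r (-1)
  ⟨2,[(2,0),(1,0),(13,0),(5,0),(1,0)]⟩ ⟨1,[(5,1),(19,0),(2,0),(2,0)]⟩),.k,.k,⟨true,0,⟨0,[]⟩,⟨1,[(31,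
  0),(0,0)]⟩⟩,⟨false,1,⟨0,[(26,0),(15,0)]⟩,⟨1,[(25,0),(2,0),(2,0)]⟩⟩,⟨false,0,⟨1,[(1,0),(3,0),(3,0),
  (15,0),(13,1),(1,0)]⟩,⟨2,[(2,0),(1,0),(13,0),(5,0),(1,0)]⟩⟩,⟨true,0,⟨0,[(5,0)]⟩,⟨0,[(2,0)]⟩⟩,
  ⟨false,0,⟨0,[]⟩,⟨0,[]⟩⟩,⟨false,0,⟨0,[]⟩,⟨0,[]⟩⟩,[.o ⟨false,0,⟨0,[(41,0)]⟩,⟨11,[(6,3),(11,3),(4,2),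
  (0,2),(3,3),(7,1)]⟩⟩,.o ⟨false,1,⟨3,[(23,0),(0,0),(16,3),(1,1)]⟩,⟨0,[(13,0)]⟩⟩,.a ⟨true,0,⟨1,[(25,
  0),(8,0),(0,0)]⟩,⟨0,[(26,0)]⟩⟩ ⟨false,0,⟨0,[(39,0),(1,0)]⟩,⟨5,[(16,1),(1,1),(4,0),(0,0)]⟩⟩ ⟨true,
  0,⟨0,[(26,0),(14,0)]⟩,⟨1,[(13,0),(11,0),(14,0)]⟩⟩,.o ⟨false,0,⟨1,[(25,0),(2,0),(2,0)]⟩,⟨1,[(26,1),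
  (9,0),(5,0)]⟩⟩]⟩) (.R ⟨1,false,false,true,[1,0,0,-1],[1,-1],[0,1,0,0,0,0,0,0,-1],(⟨1,[(25,0),(8,
  0),(0,0)]⟩,⟨0,[(26,0)]⟩),(⟨0,[(37,0)]⟩,⟨0,[(38,0)]⟩),⟨0,[(0,0),(24,0)]⟩,.k,.k,(.r (-1) ⟨4,[(3,0),
  (12,0),(1,0),(4,1)]⟩ ⟨0,[(2,0),(23,0),(12,0),(1,1)]⟩),(.r 0 ⟨1,[(5,1),(19,0),(2,0),(2,0)]⟩ ⟨2,[(2,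
  0),(1,0),(13,0),(5,0),(1,0)]⟩),.k,.k,⟨false,0,⟨1,[(1,0),(3,0),(3,0),(15,0),(15,0)]⟩,⟨2,[(2,0),(1,
  0),(13,0),(5,0),(1,0)]⟩⟩,⟨true,0,⟨1,[(25,0),(2,0),(2,0)]⟩,⟨0,[(26,0)]⟩⟩,⟨true,0,⟨0,[(45,0)]⟩,⟨0,
  []⟩⟩,⟨true,0,⟨0,[(2,0)]⟩,⟨0,[(5,0)]⟩⟩,⟨false,0,⟨0,[(41,0)]⟩,⟨0,[(40,0),(2,0)]⟩⟩,⟨true,0,⟨0,[(2,0),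
  (38,0)]⟩,⟨0,[(1,0),(10,0)]⟩⟩,[.o ⟨false,0,⟨0,[(13,0)]⟩,⟨3,[(23,0),(0,0),(16,3),(1,1)]⟩⟩,.o ⟨false,
  1,⟨11,[(6,3),(11,3),(4,2),(0,2),(3,3),(7,1)]⟩,⟨0,[(41,0)]⟩⟩,.a ⟨true,0,⟨0,[(26,0)]⟩,⟨1,[(25,0),(8,
  0),(0,0)]⟩⟩ ⟨false,0,⟨1,[(1,0),(3,0),(0,0),(18,0)]⟩,⟨1,[(24,0),(18,0)]⟩⟩ ⟨true,0,⟨1,[(13,0),(11,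
  0),(14,0)]⟩,⟨0,[(26,0),(14,0)]⟩⟩,.o ⟨false,0,⟨1,[(10,0),(15,1),(1,0)]⟩,⟨7,[(23,0),(0,0),(0,3),(10,
  1),(5,3)]⟩⟩]⟩)) (.Q [0,0,0,0,0,0,0,0,-1,0,0,1] (.p true [0,0,0,1] [] (⟨0,[(25,0)]⟩,⟨1,[(24,0),(8,
  0),(0,0)]⟩) .k 0 (⟨0,[]⟩,⟨0,[]⟩) .k .k) (.Q [0,0,0,0,0,0,0,0,-1,-1,0,1] (.p true [0,0,0,1] [1]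
  (⟨0,[(26,0)]⟩,⟨1,[(25,0),(8,0),(0,0)]⟩) .k 1 (⟨0,[]⟩,⟨0,[]⟩) .k .k) (.Q [0,0,0,0,0,1,0,0,0,0,0,
  -1] (.p false [0,0,0,1] [] (⟨0,[(27,0)]⟩,⟨1,[(26,0),(8,0),(0,0)]⟩) .k 0 (⟨0,[]⟩,⟨0,[]⟩) .k .k)
  (.R ⟨0,false,false,false,[0,0,0,1],[0,1],[1,0,1,1],(⟨0,[(28,0)]⟩,⟨1,[(27,0),(8,0),(0,0)]⟩),(⟨0,
  [(40,0)]⟩,⟨0,[(39,0)]⟩),⟨0,[(0,0)]⟩,.k,.k,(.r (-1) ⟨2,[(4,0),(1,0),(13,0),(5,0),(1,0)]⟩ ⟨1,[(7,1),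
  (19,0),(2,0),(2,0)]⟩),(.r (-1) ⟨2,[(4,0),(1,0),(13,0),(5,0),(1,0)]⟩ ⟨1,[(7,1),(19,0),(2,0),(2,
  0)]⟩),.k,.k,⟨true,0,⟨0,[]⟩,⟨1,[(33,0),(0,0)]⟩⟩,⟨false,1,⟨0,[(28,0),(15,0)]⟩,⟨1,[(27,0),(2,0),(2,
  0)]⟩⟩,⟨false,0,⟨1,[(1,0),(5,0),(19,0),(13,1),(1,0)]⟩,⟨2,[(4,0),(1,0),(13,0),(5,0),(1,0)]⟩⟩,⟨true,
  0,⟨0,[(7,0)]⟩,⟨0,[(4,0)]⟩⟩,⟨false,0,⟨0,[]⟩,⟨0,[]⟩⟩,⟨false,0,⟨0,[]⟩,⟨0,[]⟩⟩,[.o ⟨false,0,⟨0,[(43,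
  0)]⟩,⟨11,[(8,3),(11,3),(4,2),(0,2),(3,3),(7,1)]⟩⟩,.o ⟨false,1,⟨3,[(25,0),(0,0),(16,3),(1,1)]⟩,⟨0,
  [(15,0)]⟩⟩,.a ⟨true,0,⟨1,[(27,0),(8,0),(0,0)]⟩,⟨0,[(28,0)]⟩⟩ ⟨false,0,⟨0,[(41,0),(1,0)]⟩,⟨5,[(18,
  1),(1,1),(4,0),(0,0)]⟩⟩ ⟨true,0,⟨0,[(28,0),(14,0)]⟩,⟨1,[(15,0),(11,0),(14,0)]⟩⟩,.o ⟨false,0,⟨1,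
  [(27,0),(2,0),(2,0)]⟩,⟨1,[(28,1),(9,0),(5,0)]⟩⟩]⟩) (.R ⟨1,false,false,true,[1,0,0,-1],[1,-1],[0,1,
  0,0,0,0,0,0,-1],(⟨1,[(27,0),(8,0),(0,0)]⟩,⟨0,[(28,0)]⟩),(⟨0,[(39,0)]⟩,⟨0,[(40,0)]⟩),⟨0,[(0,0),(26,
  0)]⟩,.k,.k,(.r (-1) ⟨4,[(5,0),(12,0),(1,0),(4,1)]⟩ ⟨0,[(4,0),(23,0),(12,0),(1,1)]⟩),(.r 0 ⟨1,[(7,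
  1),(19,0),(2,0),(2,0)]⟩ ⟨2,[(4,0),(1,0),(13,0),(5,0),(1,0)]⟩),.k,.k,⟨false,0,⟨1,[(1,0),(5,0),(19,
  0),(15,0)]⟩,⟨2,[(4,0),(1,0),(13,0),(5,0),(1,0)]⟩⟩,⟨true,0,⟨1,[(27,0),(2,0),(2,0)]⟩,⟨0,[(28,0)]⟩⟩,
  ⟨true,0,⟨0,[(47,0)]⟩,⟨0,[]⟩⟩,⟨true,0,⟨0,[(4,0)]⟩,⟨0,[(7,0)]⟩⟩,⟨false,0,⟨0,[(43,0)]⟩,⟨0,[(42,0),(2,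
  0)]⟩⟩,⟨true,0,⟨0,[(4,0),(38,0)]⟩,⟨0,[(2,0)]⟩⟩,[.o ⟨false,0,⟨0,[(15,0)]⟩,⟨3,[(25,0),(0,0),(16,3),
  (1,1)]⟩⟩,.o ⟨false,1,⟨11,[(8,3),(11,3),(4,2),(0,2),(3,3),(7,1)]⟩,⟨0,[(43,0)]⟩⟩,.a ⟨true,0,⟨0,[(28,
  0)]⟩,⟨1,[(27,0),(8,0),(0,0)]⟩⟩ ⟨false,0,⟨1,[(1,0),(0,0),(24,0)]⟩,⟨1,[(26,0),(18,0)]⟩⟩ ⟨true,0,⟨1,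
  [(15,0),(11,0),(14,0)]⟩,⟨0,[(28,0),(14,0)]⟩⟩,.o ⟨false,0,⟨1,[(12,0),(15,1),(1,0)]⟩,⟨7,[(25,0),(0,
  0),(0,3),(10,1),(5,3)]⟩⟩]⟩)) (.R ⟨0,false,false,true,[0,0,1],[0,0,0,1],[1],(⟨0,[(36,0)]⟩,⟨0,[(35,
  0)]⟩),(⟨0,[(27,0)]⟩,⟨1,[(26,0),(8,0),(0,0)]⟩),⟨0,[(12,0)]⟩,.k,.k,.k,.k,.k,.k,⟨false,1,⟨0,[(4,0),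
  (35,0),(1,1)]⟩,⟨0,[(3,0),(23,0),(14,0)]⟩⟩,⟨true,0,⟨1,[(23,0),(2,0)]⟩,⟨0,[(27,0),(4,0)]⟩⟩,⟨false,1,
  ⟨0,[(22,0),(17,0)]⟩,⟨0,[(34,0)]⟩⟩,⟨true,0,⟨0,[(0,0),(27,0)]⟩,⟨0,[(1,0),(14,0)]⟩⟩,⟨false,0,⟨0,[]⟩,
  ⟨0,[]⟩⟩,⟨false,0,⟨0,[]⟩,⟨0,[]⟩⟩,[.o ⟨false,0,⟨0,[(3,0),(38,0)]⟩,⟨1,[(1,1),(35,0),(6,0)]⟩⟩,.a
  ⟨true,0,⟨0,[(0,0)]⟩,⟨0,[(1,0)]⟩⟩ ⟨false,1,⟨1,[(43,0),(0,0)]⟩,⟨0,[(46,0)]⟩⟩ ⟨true,0,⟨0,[(0,0),(20,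
  0)]⟩,⟨0,[(1,0),(30,0)]⟩⟩,.o ⟨false,1,⟨3,[(16,1),(5,1),(1,0),(0,0),(6,1)]⟩,⟨0,[(21,0)]⟩⟩,.o ⟨false,
  0,⟨0,[(32,0)]⟩,⟨7,[(8,3),(15,0),(0,0),(11,3),(5,1)]⟩⟩]⟩)) (.R ⟨2,true,false,false,[0,1],[0,0,0,1],
  [1,1,1],(⟨0,[]⟩,⟨0,[]⟩),(⟨0,[(26,0)]⟩,⟨1,[(25,0),(8,0),(0,0)]⟩),⟨0,[]⟩,.k,.k,.k,(.r 0 ⟨1,[(5,1),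
  (19,0),(2,0),(2,0)]⟩ ⟨2,[(0,0),(15,0),(1,0),(5,0),(1,0)]⟩),.k,.k,⟨false,0,⟨1,[(5,1),(7,0),(11,0),
  (14,0)]⟩,⟨1,[(0,1),(25,1),(15,0),(0,0)]⟩⟩,⟨true,0,⟨1,[(25,0),(2,0),(2,0)]⟩,⟨0,[(26,0)]⟩⟩,⟨true,0,
  ⟨0,[(40,0)]⟩,⟨0,[(41,0)]⟩⟩,⟨false,1,⟨0,[(2,0),(40,0)]⟩,⟨0,[(5,0)]⟩⟩,⟨false,0,⟨0,[]⟩,⟨3,[(23,0),(0,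
  0),(18,1)]⟩⟩,⟨true,0,⟨0,[(0,0)]⟩,⟨0,[(5,0),(34,0)]⟩⟩,[]⟩)))) (.Q [0,0,0,0,0,0,0,0,1,0,0,-1] (.p
  false [0,0,0,1] [] (⟨0,[(23,0)]⟩,⟨1,[(22,0),(8,0),(0,0)]⟩) .k 0 (⟨0,[]⟩,⟨0,[]⟩) .k .k) (.R ⟨2,
  true,false,false,[0,1],[0,0,0,1],[1,1,1],(⟨0,[]⟩,⟨0,[]⟩),(⟨0,[(24,0)]⟩,⟨1,[(23,0),(8,0),(0,0)]⟩),
  ⟨0,[]⟩,.k,.k,.k,(.r 0 ⟨11,[(1,3),(1,7),(0,1),(3,0),(12,3),(1,3),(2,0),(1,1),(8,1)]⟩ ⟨2,[(0,0),(13,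
  0),(1,0),(5,0),(1,0)]⟩),.k,.k,⟨false,0,⟨1,[(3,1),(7,0),(11,0),(14,0)]⟩,⟨0,[(1,0),(0,0),(13,0)]⟩⟩,
  ⟨true,0,⟨1,[(23,0),(2,0),(2,0)]⟩,⟨0,[(24,0)]⟩⟩,⟨true,0,⟨0,[(38,0)]⟩,⟨0,[(39,0)]⟩⟩,⟨false,1,⟨17,
  [(0,3),(3,5),(0,1),(10,5),(3,0),(1,6),(0,6),(13,7),(3,4)]⟩,⟨0,[(3,0)]⟩⟩,⟨false,0,⟨0,[]⟩,⟨3,[(21,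
  0),(0,0),(18,1)]⟩⟩,⟨true,0,⟨0,[(0,0)]⟩,⟨0,[(3,0),(34,0)]⟩⟩,[]⟩) (.Q [0,0,0,0,0,0,0,0,1,1,0,-1]
  (.p false [0,0,0,1] [1] (⟨0,[(24,0)]⟩,⟨1,[(23,0),(8,0),(0,0)]⟩) .k 1 (⟨0,[]⟩,⟨0,[]⟩) .k .k) (.R
  ⟨2,false,false,false,[0,1],[0,0,0,1],[1,1,1],(⟨0,[]⟩,⟨0,[]⟩),(⟨0,[(25,0)]⟩,⟨1,[(24,0),(8,0),(0,
  0)]⟩),⟨0,[]⟩,.k,.k,.k,(.r 0 ⟨5,[(1,1),(0,1),(1,1),(4,0),(12,1),(1,1),(2,0)]⟩ ⟨17,[(0,3),(4,3),(0,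
  1),(8,1),(1,5),(5,6),(1,3),(15,2)]⟩),.k,.k,⟨false,0,⟨1,[(4,1),(7,0),(11,0),(14,0)]⟩,⟨0,[(2,0),(0,
  0),(13,0)]⟩⟩,⟨true,0,⟨1,[(24,0),(2,0),(2,0)]⟩,⟨0,[(25,0)]⟩⟩,⟨true,0,⟨0,[(39,0)]⟩,⟨0,[(40,0)]⟩⟩,
  ⟨false,1,⟨4,[(0,2),(4,1),(11,0),(5,0),(0,0),(1,0),(0,0),(14,2)]⟩,⟨0,[(4,0)]⟩⟩,⟨false,0,⟨0,[]⟩,⟨3,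
  [(22,0),(0,0),(18,1)]⟩⟩,⟨false,1,⟨1,[(0,1),(34,0),(6,0)]⟩,⟨0,[(1,0)]⟩⟩,[.a ⟨true,0,⟨0,[(0,0)]⟩,⟨0,
  [(1,0)]⟩⟩ ⟨false,0,⟨0,[(44,0)]⟩,⟨1,[(41,0),(0,0)]⟩⟩ ⟨true,0,⟨1,[(0,1),(8,0),(17,0)]⟩,⟨0,[(1,0)]⟩⟩,
  .o ⟨false,1,⟨1,[(0,1),(34,0),(6,0)]⟩,⟨0,[(4,0),(7,0)]⟩⟩,.o ⟨false,1,⟨3,[(22,0),(0,0),(17,1)]⟩,⟨1,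
  [(9,0),(17,0)]⟩⟩,.e ⟨false,0,⟨0,[]⟩,⟨3,[(22,0),(0,0),(18,1)]⟩⟩ ⟨false,1,⟨1,[(0,1),(34,0),(6,0)]⟩,
  ⟨0,[(1,0)]⟩⟩]⟩) (.Q [0,0,0,0,0,-1,0,0,0,1,0,-1] (.p false [0,0,0,1] [1] (⟨0,[(25,0)]⟩,⟨1,[(24,0),
  (8,0),(0,0)]⟩) .k 1 (⟨0,[]⟩,⟨0,[]⟩) .k .k) (.R ⟨1,false,false,false,[1,0,0,-1],[1,-1],[0,0,0,0,0,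
  0,0,0,-1],(⟨1,[(25,0),(8,0),(0,0)]⟩,⟨0,[(26,0)]⟩),(⟨0,[(37,0)]⟩,⟨0,[(38,0)]⟩),⟨0,[(0,0)]⟩,.k,.k,
  (.r (-1) ⟨5,[(1,0),(0,0),(13,1),(1,1),(4,1),(1,0)]⟩ ⟨7,[(3,3),(19,0),(0,2)]⟩),(.r 0 ⟨3,[(1,0),(0,
  0),(0,1),(19,1),(1,0)]⟩ ⟨0,[(3,0),(12,0),(1,0)]⟩),.k,.k,⟨false,0,⟨1,[(1,0),(3,0),(19,0),(15,0)]⟩,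
  ⟨0,[(3,0),(12,0),(1,0)]⟩⟩,⟨true,0,⟨1,[(25,0),(2,0),(2,0)]⟩,⟨0,[(26,0)]⟩⟩,⟨false,1,⟨3,[(23,0),(0,
  0),(18,1)]⟩,⟨0,[]⟩⟩,⟨false,1,⟨7,[(3,1),(2,3),(0,1),(10,3),(5,2),(0,3),(13,1),(3,2)]⟩,⟨0,[(5,0)]⟩⟩,
  ⟨true,0,⟨0,[(41,0)]⟩,⟨0,[(40,0)]⟩⟩,⟨false,1,⟨7,[(3,1),(0,1),(5,1),(7,1),(1,1),(3,2),(0,3),(17,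
  2)]⟩,⟨0,[(2,0)]⟩⟩,[.o ⟨false,1,⟨11,[(6,3),(11,3),(4,2),(0,2),(3,3),(7,1)]⟩,⟨0,[(41,0)]⟩⟩,.o
  ⟨false,1,⟨5,[(6,1),(11,1),(9,1),(7,0),(6,2)]⟩,⟨0,[(41,0),(3,0)]⟩⟩,.a ⟨true,0,⟨0,[(26,0)]⟩,⟨1,[(25,
  0),(8,0),(0,0)]⟩⟩ ⟨true,0,⟨1,[(1,0),(0,0),(22,0)]⟩,⟨0,[(3,0),(2,0),(23,0),(3,0),(0,0),(6,0)]⟩⟩
  ⟨false,1,⟨11,[(6,3),(11,3),(4,0),(0,0),(0,5),(2,1),(3,1),(10,5)]⟩,⟨2,[(3,0),(1,0),(20,1),(15,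
  0)]⟩⟩,.o ⟨false,0,⟨1,[(10,0),(15,1),(1,0)]⟩,⟨7,[(23,0),(0,0),(0,3),(10,1),(5,3)]⟩⟩]⟩) (.R ⟨0,
  false,false,true,[0,0,0,1],[0,1],[1],(⟨0,[(26,0)]⟩,⟨1,[(25,0),(8,0),(0,0)]⟩),(⟨0,[(38,0)]⟩,⟨0,
  [(37,0)]⟩),⟨0,[(0,0),(24,0)]⟩,.k,.k,(.r (-1) ⟨0,[(3,0),(12,0),(1,0)]⟩ ⟨3,[(1,0),(0,0),(0,1),(19,
  1),(1,0)]⟩),(.r (-1) ⟨0,[(3,0),(12,0),(1,0)]⟩ ⟨3,[(1,0),(0,0),(0,1),(19,1),(1,0)]⟩),.k,.k,⟨true,1,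
  ⟨1,[(4,0),(13,0),(20,0)]⟩,⟨1,[(1,0),(0,0),(0,1),(21,0),(14,1)]⟩⟩,⟨false,1,⟨0,[(26,0),(15,0)]⟩,⟨1,
  [(25,0),(2,0),(2,0)]⟩⟩,⟨true,0,⟨1,[(1,0),(0,0),(22,0)]⟩,⟨0,[(3,0),(2,0),(23,0),(3,0),(0,0),(6,
  0)]⟩⟩,⟨false,0,⟨0,[(5,0)]⟩,⟨7,[(3,1),(2,3),(0,1),(10,3),(5,2),(0,3),(13,1),(3,2)]⟩⟩,⟨false,0,⟨0,
  []⟩,⟨0,[]⟩⟩,⟨false,0,⟨0,[]⟩,⟨0,[]⟩⟩,[.o ⟨false,0,⟨0,[(41,0),(3,0)]⟩,⟨5,[(6,1),(11,1),(9,1),(7,0),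
  (6,2)]⟩⟩,.o ⟨false,0,⟨0,[(41,0)]⟩,⟨11,[(6,3),(11,3),(4,2),(0,2),(3,3),(7,1)]⟩⟩,.a ⟨true,0,⟨1,[(25,
  0),(8,0),(0,0)]⟩,⟨0,[(26,0)]⟩⟩ ⟨true,0,⟨0,[]⟩,⟨0,[(45,0)]⟩⟩ ⟨false,0,⟨2,[(3,0),(1,0),(20,1),(15,
  0)]⟩,⟨11,[(6,3),(11,3),(4,0),(0,0),(0,5),(2,1),(3,1),(10,5)]⟩⟩,.o ⟨false,0,⟨1,[(25,0),(2,0),(2,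
  0)]⟩,⟨1,[(26,1),(9,0),(5,0)]⟩⟩]⟩))))) (.I [0,0,1,1,-1,0,0,2] (.K ⟨2,[1,-1,-1],(-1),0,(⟨0,[(14,
  0)]⟩,⟨0,[(32,0),(2,0)]⟩),.k,(.r (-2) ⟨5,[(13,1),(1,7),(4,0),(0,0)]⟩ ⟨19,[(0,15),(0,11),(18,0),(0,
  0),(16,11),(1,5)]⟩),.k,(.r (-2) ⟨11,[(1,3),(13,15),(2,3),(1,2),(0,2),(18,1)]⟩ ⟨0,[(0,0)]⟩),.k,[⟨0,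
  [(5,0),(2,0),(22,0),(7,0)]⟩,⟨0,[(1,0),(2,0),(1,0),(29,0)]⟩,⟨0,[(26,0),(4,0),(0,0),(5,0)]⟩,⟨1,[(1,
  0),(1,0),(0,0),(10,0),(8,0)]⟩]⟩) (.K ⟨2,[1,-1,-1],(-1),0,(⟨0,[(14,0)]⟩,⟨0,[(32,0),(2,0)]⟩),.k,(.r
  (-2) ⟨5,[(13,1),(1,7),(4,0),(0,0)]⟩ ⟨0,[(1,0),(2,0),(7,1),(23,0),(1,0)]⟩),.k,(.x 0 ⟨1,[(8,0),(5,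
  2),(4,0),(5,1)]⟩ ⟨0,[(5,0),(29,1),(3,0)]⟩),.k,[⟨0,[(5,0),(2,0),(22,0),(7,0)]⟩,⟨0,[(1,0),(2,0),(1,
  0),(29,0)]⟩,⟨0,[(26,0),(4,0),(0,0),(5,0)]⟩,⟨7,[(0,1),(0,1),(1,3),(0,1),(14,0),(4,2),(2,2)]⟩]⟩))))

theorem ok92 : chk (cU (-1) false 2) t92 r50 = true := by decide +kernel

noncomputable def t102 : Tre :=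
  (.I [0,-1,2,2,-1,0,0,0,1] (.I [1,0,0,0,0,0,0,-1,1] (.I [1,-1,0,0,0,0,0,0,1] (.R ⟨1,false,false,
  true,[1,0,0,-1],[1,0,-1],[0,1,0,0,0,0,0,0,-1],(⟨1,[(20,0),(8,0),(0,0)]⟩,⟨0,[(21,0)]⟩),(⟨0,[(29,
  0)]⟩,⟨0,[(30,0)]⟩),⟨1,[(6,0),(5,0),(7,0)]⟩,.k,.k,(.x 0 ⟨1,[(6,0),(5,0),(10,0),(2,0)]⟩ ⟨3,[(18,0),
  (0,0),(13,3),(3,1)]⟩),.k,(.r (-1) ⟨11,[(5,3),(5,3),(6,6),(0,0)]⟩ ⟨16,[(1,3),(0,7),(1,0),(11,5),(2,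
  1),(5,6),(0,6)]⟩),.k,⟨false,1,⟨7,[(4,1),(0,3),(12,4),(17,1),(0,1),(0,0)]⟩,⟨0,[(1,0)]⟩⟩,⟨true,0,⟨1,
  [(17,0),(2,0)]⟩,⟨0,[(21,0),(4,0)]⟩⟩,⟨true,0,⟨0,[(40,0)]⟩,⟨0,[]⟩⟩,⟨false,0,⟨1,[(1,1),(15,0),(2,
  0)]⟩,⟨1,[(10,1),(7,0),(2,1),(16,0)]⟩⟩,⟨false,0,⟨0,[(36,0)]⟩,⟨0,[(35,0),(2,0)]⟩⟩,⟨false,0,⟨3,[(1,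
  1),(0,1),(14,0),(2,1),(1,0),(2,0),(11,1)]⟩,⟨1,[(7,1),(10,0),(2,1),(16,0)]⟩⟩,[.o ⟨false,0,⟨0,[(22,
  0)]⟩,⟨3,[(10,3),(7,0),(0,0),(18,1)]⟩⟩,.o ⟨false,1,⟨1,[(25,1),(5,0),(6,0)]⟩,⟨0,[(10,0)]⟩⟩,.a ⟨true,
  0,⟨0,[(21,0)]⟩,⟨1,[(20,0),(8,0),(0,0)]⟩⟩ ⟨false,1,⟨3,[(18,2),(0,0)]⟩,⟨0,[(0,0)]⟩⟩ ⟨true,0,⟨1,[(20,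
  0),(1,0),(2,0)]⟩,⟨0,[(10,0),(10,0)]⟩⟩,.o ⟨false,0,⟨5,[(2,1),(5,3),(9,0),(2,5),(9,0),(2,1)]⟩,⟨7,
  [(18,0),(0,0),(0,3),(10,1),(5,3)]⟩⟩]⟩) (.R ⟨1,false,false,false,[1,0,0,-1],[1,-1],[0,1,0,0,0,0,0,
  0,-1],(⟨1,[(20,0),(8,0),(0,0)]⟩,⟨0,[(21,0)]⟩),(⟨0,[(32,0)]⟩,⟨0,[(33,0)]⟩),⟨1,[(6,0),(5,0),(7,0)]⟩,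
  .k,.k,(.x 0 ⟨1,[(6,0),(5,0),(10,0),(2,0)]⟩ ⟨3,[(18,0),(0,0),(13,3),(3,1)]⟩),(.r 0 ⟨1,[(0,0),(1,0),
  (15,0)]⟩ ⟨4,[(1,0),(9,1),(1,0),(5,1)]⟩),.k,.k,⟨false,0,⟨0,[(0,0),(35,0)]⟩,⟨9,[(1,7),(3,1),(5,3),
  (7,0),(18,4)]⟩⟩,⟨true,0,⟨1,[(20,0),(2,0),(2,0)]⟩,⟨0,[(21,0)]⟩⟩,⟨true,0,⟨0,[(40,0)]⟩,⟨0,[]⟩⟩,⟨true,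
  0,⟨1,[(1,1),(3,0),(2,0),(11,0),(13,0)]⟩,⟨0,[(0,0),(20,0),(14,0)]⟩⟩,⟨false,0,⟨0,[(36,0)]⟩,⟨0,[(35,
  0),(2,0)]⟩⟩,⟨true,0,⟨27,[(1,19),(0,5),(1,1),(0,9),(2,3),(11,13),(10,4),(5,0)]⟩,⟨0,[(0,0),(20,
  0)]⟩⟩,[.o ⟨false,1,⟨1,[(31,0),(3,1),(2,0)]⟩,⟨0,[(36,0)]⟩⟩,.o ⟨false,1,⟨0,[(8,0),(29,0)]⟩,⟨1,[(0,
  0),(3,0),(31,0)]⟩⟩,.a ⟨true,0,⟨0,[(21,0)]⟩,⟨1,[(20,0),(8,0),(0,0)]⟩⟩ ⟨true,0,⟨0,[(0,0)]⟩,⟨14,[(1,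
  7),(0,1),(1,0),(0,3),(13,1),(15,0)]⟩⟩ ⟨false,1,⟨1,[(8,0),(11,0),(14,0),(2,1)]⟩,⟨0,[(21,0),(14,
  0)]⟩⟩,.o ⟨false,0,⟨5,[(2,1),(5,3),(9,0),(2,5),(9,0),(2,1)]⟩,⟨7,[(18,0),(0,0),(0,3),(10,1),(5,
  3)]⟩⟩]⟩)) (.I [0,1,-1,-1,0,0,0,0,1] (.Q [0,0,0,-1,0,0,0,0,1,0,0,-1] (.p false [0,0,0,1] [] (⟨0,
  [(21,0)]⟩,⟨1,[(20,0),(8,0),(0,0)]⟩) .k 0 (⟨0,[]⟩,⟨0,[]⟩) .k .k) (.R ⟨1,false,false,true,[1,0,0,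
  -1],[1,-1],[0,0,0,0,0,0,0,0,-1],(⟨1,[(21,0),(8,0),(0,0)]⟩,⟨0,[(22,0)]⟩),(⟨0,[(33,0)]⟩,⟨0,[(34,
  0)]⟩),⟨1,[(7,0),(5,0),(7,0)]⟩,.k,.k,(.r (-1) ⟨0,[(2,0),(11,0)]⟩ ⟨11,[(3,3),(1,3),(13,0),(0,2),(6,
  1),(0,1)]⟩),(.x (-1) ⟨3,[(19,0),(0,0),(13,3),(3,1)]⟩ ⟨1,[(7,0),(5,0),(10,0),(2,0)]⟩),.k,.k,⟨false,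
  1,⟨1,[(19,0),(17,1),(1,0)]⟩,⟨0,[(1,0)]⟩⟩,⟨true,0,⟨1,[(21,0),(2,0),(2,0)]⟩,⟨0,[(22,0)]⟩⟩,⟨false,1,
  ⟨3,[(19,0),(0,0),(18,1)]⟩,⟨0,[]⟩⟩,⟨false,0,⟨0,[(0,0)]⟩,⟨1,[(19,0),(2,1),(14,1),(1,0)]⟩⟩,⟨true,0,
  ⟨0,[(37,0)]⟩,⟨0,[(36,0)]⟩⟩,⟨false,0,⟨5,[(0,1),(0,1),(1,1),(17,1),(10,0),(5,0)]⟩,⟨1,[(19,0),(2,1),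
  (16,0)]⟩⟩,[.o ⟨false,0,⟨0,[(9,0)]⟩,⟨3,[(5,1),(13,0),(17,1),(1,2)]⟩⟩,.o ⟨false,1,⟨1,[(32,0),(3,1),
  (2,0)]⟩,⟨0,[(37,0)]⟩⟩,.a ⟨true,0,⟨0,[(22,0)]⟩,⟨1,[(21,0),(8,0),(0,0)]⟩⟩ ⟨false,1,⟨1,[(19,0),(19,
  0)]⟩,⟨7,[(1,3),(1,1),(16,0),(18,0)]⟩⟩ ⟨true,0,⟨1,[(9,0),(11,0),(14,0)]⟩,⟨0,[(22,0),(14,0)]⟩⟩,.o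
  ⟨false,0,⟨5,[(3,1),(5,3),(9,0),(2,5),(9,0),(2,1)]⟩,⟨7,[(19,0),(0,0),(0,3),(10,1),(5,3)]⟩⟩]⟩) (.R
  ⟨2,true,false,true,[0,1],[0,0,0,1],[0,0,1,1],(⟨0,[]⟩,⟨0,[]⟩),(⟨0,[(22,0)]⟩,⟨1,[(21,0),(8,0),(0,
  0)]⟩),⟨0,[]⟩,.k,.k,.k,(.x (-1) ⟨3,[(19,0),(0,0),(13,3),(3,1)]⟩ ⟨1,[(7,0),(5,0),(10,0),(2,0)]⟩),.k,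
  .k,⟨false,1,⟨1,[(19,0),(17,1),(1,0)]⟩,⟨0,[(1,0)]⟩⟩,⟨true,0,⟨1,[(21,0),(2,0),(2,0)]⟩,⟨0,[(22,0)]⟩⟩,
  ⟨false,1,⟨3,[(19,0),(0,0),(18,1)]⟩,⟨0,[]⟩⟩,⟨true,0,⟨5,[(1,2),(1,0),(5,2),(10,0),(0,2),(13,0),(0,
  1)]⟩,⟨0,[(0,0)]⟩⟩,⟨true,0,⟨0,[(37,0)]⟩,⟨0,[(36,0)]⟩⟩,⟨false,0,⟨3,[(1,1),(1,1),(5,1),(11,1),(16,0),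
  (0,0)]⟩,⟨1,[(19,0),(2,1),(16,0)]⟩⟩,[]⟩)) (.I [1,0,0,-1,0,0,0,0,1] (.Q [0,-1,0,1,0,0,0,0,1,1,0,-1]
  (.p false [0,0,0,1] [1] (⟨0,[(22,0)]⟩,⟨1,[(21,0),(8,0),(0,0)]⟩) .k 1 (⟨0,[]⟩,⟨0,[]⟩) .k .k) (.R
  ⟨1,false,false,false,[1,0,0,-1],[0,1],[0,0,0,0,0,0,0,0,-1],(⟨1,[(22,0),(8,0),(0,0)]⟩,⟨0,[(23,
  0)]⟩),(⟨0,[(35,0)]⟩,⟨0,[(34,0)]⟩),⟨1,[(8,0),(5,0),(7,0)]⟩,.k,.k,(.r (-1) ⟨0,[(3,0),(11,0)]⟩ ⟨11,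
  [(4,3),(1,3),(13,0),(0,2),(6,1),(0,1)]⟩),(.r (-1) ⟨0,[(3,0),(11,0)]⟩ ⟨11,[(4,3),(1,3),(13,0),(0,
  2),(6,1),(0,1)]⟩),(.r (-2) ⟨11,[(13,7),(1,7),(4,6),(0,0)]⟩ ⟨0,[(4,0),(37,0)]⟩),.k,⟨true,1,⟨0,[(3,
  0),(11,0)]⟩,⟨0,[(4,0),(32,0)]⟩⟩,⟨false,1,⟨1,[(22,0),(8,0),(0,0),(6,1)]⟩,⟨5,[(2,0),(1,0),(5,2),(12,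
  5),(1,0),(2,0),(4,0),(2,0)]⟩⟩,⟨false,1,⟨3,[(20,0),(0,0),(18,1)]⟩,⟨0,[]⟩⟩,⟨false,0,⟨0,[(0,0)]⟩,⟨1,
  [(10,1),(9,0),(2,1),(16,0)]⟩⟩,⟨true,0,⟨0,[(38,0)]⟩,⟨0,[(37,0)]⟩⟩,⟨false,0,⟨0,[(0,0),(37,0)]⟩,⟨1,
  [(2,1),(7,1),(2,0),(1,0),(7,1),(12,0),(0,0)]⟩⟩,[.o ⟨false,0,⟨0,[(38,0)]⟩,⟨1,[(33,0),(3,1),(2,
  0)]⟩⟩,.o ⟨false,1,⟨5,[(2,1),(3,3),(13,0),(18,0),(0,3)]⟩,⟨0,[(10,0)]⟩⟩,.a ⟨true,0,⟨0,[(23,0)]⟩,⟨1,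
  [(22,0),(8,0),(0,0)]⟩⟩ ⟨false,1,⟨1,[(20,0),(19,0)]⟩,⟨4,[(1,2),(2,0),(1,0),(32,0)]⟩⟩ ⟨true,0,⟨1,
  [(22,0),(8,0),(0,0),(5,1)]⟩,⟨0,[(10,0),(12,0)]⟩⟩,.o ⟨false,0,⟨5,[(2,0),(1,0),(5,2),(12,5),(1,0),
  (2,0),(4,0),(2,0)]⟩,⟨7,[(20,0),(0,0),(0,3),(10,1),(5,3)]⟩⟩]⟩) (.R ⟨1,true,false,false,[1,0,0,-1],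
  [0,1],[0,0,0,0,0,0,0,0,-1],(⟨1,[(22,0),(8,0),(0,0)]⟩,⟨0,[(23,0)]⟩),(⟨0,[(35,0)]⟩,⟨0,[(34,0)]⟩),⟨1,
  [(8,0),(5,0),(7,0)]⟩,.k,.k,(.r (-1) ⟨0,[(3,0),(11,0)]⟩ ⟨11,[(4,3),(1,3),(13,0),(0,2),(6,1),(0,
  1)]⟩),(.r (-1) ⟨0,[(3,0),(11,0)]⟩ ⟨11,[(4,3),(1,3),(13,0),(0,2),(6,1),(0,1)]⟩),(.r (-2) ⟨11,[(13,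
  7),(1,7),(4,6),(0,0)]⟩ ⟨0,[(4,0),(37,0)]⟩),.k,⟨true,1,⟨0,[(3,0),(11,0)]⟩,⟨0,[(4,0),(32,0)]⟩⟩,
  ⟨false,1,⟨1,[(22,0),(8,0),(0,0),(6,1)]⟩,⟨3,[(0,3),(3,1),(16,0),(18,0)]⟩⟩,⟨false,1,⟨3,[(20,0),(0,
  0),(18,1)]⟩,⟨0,[]⟩⟩,⟨true,0,⟨9,[(1,1),(2,3),(1,3),(15,4),(8,4),(0,4),(6,3)]⟩,⟨0,[(0,0)]⟩⟩,⟨true,0,
  ⟨0,[(38,0)]⟩,⟨0,[(37,0)]⟩⟩,⟨false,0,⟨1,[(4,1),(17,0),(8,0),(0,0),(6,1)]⟩,⟨0,[(0,0),(36,0),(2,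
  0)]⟩⟩,[]⟩)) (.Q [0,-1,0,2,0,0,0,0,0,1] (.pp false [-1,1]) (.R ⟨2,true,false,true,[0,1],[1,-1],[0,
  1,1,1],(⟨0,[]⟩,⟨0,[]⟩),(⟨0,[(34,0)]⟩,⟨0,[(35,0)]⟩),⟨0,[]⟩,.k,.k,.k,(.r 1 ⟨0,[(1,0),(2,0),(32,0)]⟩
  ⟨2,[(13,1),(1,1),(4,0),(0,0)]⟩),.k,.k,⟨true,(-1),⟨0,[(1,0),(2,0),(32,0)]⟩,⟨1,[(13,0),(1,0),(20,0),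
  (0,0)]⟩⟩,⟨false,0,⟨5,[(2,0),(1,0),(5,2),(14,0),(2,0),(4,0),(2,0)]⟩,⟨0,[(31,0),(0,0),(6,0)]⟩⟩,
  ⟨true,0,⟨0,[(42,0)]⟩,⟨0,[]⟩⟩,⟨false,1,⟨0,[(10,0),(26,0),(2,0)]⟩,⟨0,[(0,0)]⟩⟩,⟨false,0,⟨0,[(38,
  0)]⟩,⟨0,[(37,0),(2,0)]⟩⟩,⟨true,0,⟨0,[(10,0)]⟩,⟨0,[(0,0),(36,0)]⟩⟩,[]⟩) (.R ⟨1,true,false,false,[1,
  -1],[0,1],[1,0,-1,-2],(⟨0,[(34,0)]⟩,⟨0,[(35,0)]⟩),(⟨0,[(35,0)]⟩,⟨0,[(34,0)]⟩),⟨0,[(8,0),(5,0)]⟩,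
  .k,.k,(.r (-2) ⟨2,[(13,1),(1,1),(4,0),(0,0)]⟩ ⟨0,[(1,0),(2,0),(32,0)]⟩),(.r (-2) ⟨2,[(13,1),(1,1),
  (4,0),(0,0)]⟩ ⟨0,[(1,0),(2,0),(32,0)]⟩),(.r (-2) ⟨0,[(13,0),(1,0)]⟩ ⟨0,[(2,0),(1,0),(37,1)]⟩),.k,
  ⟨false,2,⟨0,[(13,0),(1,0)]⟩,⟨0,[(1,0),(2,0),(37,0)]⟩⟩,⟨true,1,⟨0,[(31,0),(0,0),(6,0)]⟩,⟨0,[(0,0),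
  (1,0),(1,0),(32,0)]⟩⟩,⟨false,1,⟨0,[(37,0),(2,0)]⟩,⟨0,[(38,0)]⟩⟩,⟨true,0,⟨0,[(31,0),(0,0),(5,1)]⟩,
  ⟨0,[(0,0)]⟩⟩,⟨true,0,⟨0,[]⟩,⟨0,[(42,0)]⟩⟩,⟨false,0,⟨0,[(1,0),(2,0),(26,0),(0,0),(6,0)]⟩,⟨0,[(0,0),
  (36,0),(2,0)]⟩⟩,[]⟩))))) (.Q [0,0,1,0,0,0,2,0,0,1,-2] (.p false [0,0,1] [1,0,-1] (⟨0,[(28,0)]⟩,⟨0,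
  [(27,0)]⟩) .k 2 (⟨0,[(27,0)]⟩,⟨0,[(28,0)]⟩) .k (.x (-1) ⟨0,[(8,0),(5,0),(9,0),(3,1)]⟩ ⟨2,[(1,1),
  (8,1),(10,1)]⟩)) (.K ⟨2,[1,1,-1],0,0,(⟨0,[(28,0),(3,0)]⟩,⟨0,[(5,0)]⟩),.k,.k,(.r 0 ⟨0,[(24,0),(0,
  0),(7,0),(1,1)]⟩ ⟨0,[(10,0)]⟩),(.r (-1) ⟨0,[(0,0),(20,0),(2,0),(10,0),(1,0)]⟩ ⟨0,[(2,0),(2,1),(0,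
  1),(25,0),(2,0)]⟩),.k,[⟨0,[(0,0)]⟩,⟨0,[(14,0)]⟩,⟨0,[(0,0),(3,0),(19,0)]⟩,⟨0,[(21,0),(13,0)]⟩]⟩)
  (.Q [0,0,0,2,0,0,-1,-1,0,0,1] (.p true [0,0,1] [] (⟨0,[(29,0)]⟩,⟨0,[(28,0)]⟩) .k 0 (⟨0,[]⟩,⟨0,
  []⟩) .k .k) (.I [1,1,-1,-2,0,0,0,1] (.R ⟨1,true,false,false,[0,0,1],[0,1],[1,1,0,-1,0,0,0,1],(⟨0,
  [(31,0)]⟩,⟨0,[(30,0)]⟩),(⟨0,[(34,0)]⟩,⟨0,[(33,0)]⟩),⟨0,[(7,0)]⟩,.k,.k,.k,.k,(.r (-1) ⟨0,[(12,0)]⟩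
  ⟨1,[(1,1),(25,2),(0,0)]⟩),.k,⟨true,0,⟨0,[(0,0)]⟩,⟨0,[(1,0),(25,0),(7,0)]⟩⟩,⟨false,1,⟨0,[(1,0),(10,
  0)]⟩,⟨0,[(27,0)]⟩⟩,⟨true,0,⟨0,[(36,0)]⟩,⟨0,[(37,0)]⟩⟩,⟨false,1,⟨7,[(1,3),(17,0),(0,0),(5,3),(12,
  5)]⟩,⟨0,[(8,0)]⟩⟩,⟨false,0,⟨0,[]⟩,⟨3,[(19,0),(0,0),(18,1)]⟩⟩,⟨true,0,⟨0,[(1,0)]⟩,⟨0,[(8,0),(27,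
  0)]⟩⟩,[]⟩) (.I [0,1,-1,-1,0,0,0,1] (.R ⟨1,true,false,false,[0,0,1],[0,1],[0,1,0,0,0,0,0,1],(⟨0,
  [(32,0)]⟩,⟨0,[(31,0)]⟩),(⟨0,[(35,0)]⟩,⟨0,[(34,0)]⟩),⟨0,[(8,0)]⟩,.k,.k,.k,.k,(.r (-1) ⟨0,[(13,0)]⟩
  ⟨1,[(2,1),(25,2),(0,0)]⟩),.k,⟨true,0,⟨0,[(0,0)]⟩,⟨1,[(1,0),(25,0),(0,0),(7,1)]⟩⟩,⟨false,1,⟨0,[(2,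
  0),(10,0)]⟩,⟨0,[(28,0)]⟩⟩,⟨true,0,⟨0,[(42,0)]⟩,⟨0,[]⟩⟩,⟨false,1,⟨7,[(2,3),(17,0),(0,0),(5,3),(12,
  5)]⟩,⟨0,[(9,0)]⟩⟩,⟨false,0,⟨0,[(38,0)]⟩,⟨0,[(37,0),(2,0)]⟩⟩,⟨true,0,⟨0,[(2,0)]⟩,⟨0,[(9,0),(27,
  0)]⟩⟩,[]⟩) (.I [0,0,0,1,0,0,0,0,1] (.I [0,0,1,1,0,0,0,-1,-1] (.Q [0,0,0,0,0,0,0,0,1,0,0,-1] (.p
  false [0,0,0,1] [] (⟨0,[(25,0)]⟩,⟨1,[(24,0),(8,0),(0,0)]⟩) .k 0 (⟨0,[]⟩,⟨0,[]⟩) .k .k) (.I [0,1,0,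
  0,0,0,0,0,-1] (.R ⟨1,false,false,true,[1,0,0,-1],[0,0,0,1],[0,1,0,0,0,0,0,0,-1],(⟨1,[(26,0),(8,0),
  (0,0)]⟩,⟨0,[(27,0)]⟩),(⟨0,[(27,0)]⟩,⟨1,[(26,0),(8,0),(0,0)]⟩),⟨1,[(12,0),(5,0),(7,0)]⟩,.k,.k,(.r
  (-1) ⟨3,[(8,1),(15,0),(19,0)]⟩ ⟨0,[(10,0),(29,0)]⟩),.k,(.r (-1) ⟨0,[(2,0),(1,0),(3,0),(2,0)]⟩ ⟨0,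
  [(1,0),(8,0),(16,0),(12,0)]⟩),.k,⟨false,1,⟨1,[(2,2),(1,0),(3,0),(2,1),(31,0)]⟩,⟨0,[(1,1),(25,
  1)]⟩⟩,⟨true,0,⟨0,[(26,0)]⟩,⟨1,[(4,0),(9,0),(1,0),(10,3),(1,0)]⟩⟩,⟨true,0,⟨0,[(46,0)]⟩,⟨0,[]⟩⟩,
  ⟨false,0,⟨0,[(1,1),(33,0),(0,0)]⟩,⟨1,[(2,0),(1,2),(2,1),(0,0),(4,1),(2,1),(7,0),(2,3)]⟩⟩,⟨false,0,
  ⟨0,[(42,0)]⟩,⟨0,[(41,0),(2,0)]⟩⟩,⟨false,0,⟨1,[(1,1),(1,1),(22,0),(8,0),(0,0)]⟩,⟨1,[(2,0),(1,2),(2,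
  1),(0,0),(4,3),(10,0),(2,3)]⟩⟩,[.o ⟨false,0,⟨3,[(1,1),(8,1),(3,0),(11,0),(14,0)]⟩,⟨7,[(4,7),(2,3),
  (0,1),(4,3),(2,3),(7,2),(2,7),(9,1),(6,0)]⟩⟩,.o ⟨false,0,⟨0,[(1,0)]⟩,⟨1,[(24,0),(2,1),(9,0)]⟩⟩,.a
  ⟨true,0,⟨0,[(27,0)]⟩,⟨1,[(26,0),(8,0),(0,0)]⟩⟩ ⟨true,0,⟨0,[(0,0)]⟩,⟨0,[(1,0),(25,0)]⟩⟩ ⟨false,0,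
  ⟨1,[(1,1),(24,0),(8,0),(0,0)]⟩,⟨7,[(4,7),(2,3),(0,1),(4,3),(2,3),(7,2),(2,15),(9,1),(6,0)]⟩⟩,.o
  ⟨false,0,⟨1,[(4,0),(9,0),(1,0),(10,1),(1,0)]⟩,⟨7,[(24,0),(0,0),(0,3),(10,1),(5,3)]⟩⟩]⟩) (.Q [0,0,
  0,0,0,1,0,0,0,0,0,-1] (.p false [0,0,0,1] [] (⟨0,[(27,0)]⟩,⟨1,[(26,0),(8,0),(0,0)]⟩) .k 0 (⟨0,[]⟩,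
  ⟨0,[]⟩) .k .k) (.R ⟨0,false,false,true,[0,0,0,1],[1,-1],[1,0,0,0,0,0,0,0,1],(⟨0,[(28,0)]⟩,⟨1,[(27,
  0),(8,0),(0,0)]⟩),(⟨0,[(39,0)]⟩,⟨0,[(40,0)]⟩),⟨0,[(0,0)]⟩,.k,.k,(.r (-1) ⟨8,[(1,1),(9,0),(6,2),(1,
  2),(5,2),(15,0)]⟩ ⟨0,[(3,0),(31,0)]⟩),(.r 0 ⟨0,[(11,0),(29,0)]⟩ ⟨3,[(9,1),(15,0),(19,0)]⟩),.k,.k,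
  ⟨false,0,⟨1,[(1,1),(5,0),(9,0)]⟩,⟨7,[(9,3),(15,2),(0,0),(20,3)]⟩⟩,⟨true,0,⟨1,[(5,0),(9,0),(1,0),
  (10,1),(1,0)]⟩,⟨1,[(27,0),(8,0),(0,0)]⟩⟩,⟨true,0,⟨0,[]⟩,⟨0,[(47,0)]⟩⟩,⟨false,1,⟨1,[(15,1),(9,0),
  (2,1),(16,0)]⟩,⟨1,[(1,1),(5,0),(9,0),(9,0),(8,0),(0,0)]⟩⟩,⟨false,0,⟨0,[]⟩,⟨0,[]⟩⟩,⟨false,0,⟨0,[]⟩,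
  ⟨0,[]⟩⟩,[.o ⟨false,0,⟨0,[(15,0)]⟩,⟨3,[(7,1),(9,1),(7,0),(0,0),(18,1)]⟩⟩,.o ⟨false,1,⟨1,[(38,0),(3,
  1),(2,0)]⟩,⟨0,[(43,0)]⟩⟩,.a ⟨true,0,⟨1,[(27,0),(8,0),(0,0)]⟩,⟨0,[(28,0)]⟩⟩ ⟨false,0,⟨0,[(1,0)]⟩,
  ⟨3,[(25,2),(0,0)]⟩⟩ ⟨true,0,⟨0,[(15,0),(12,0)]⟩,⟨1,[(7,0),(9,0),(9,0),(8,0),(0,0)]⟩⟩,.o ⟨false,0,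
  ⟨1,[(27,0),(2,0),(2,0)]⟩,⟨1,[(28,1),(9,0),(5,0)]⟩⟩]⟩) (.R ⟨1,false,false,true,[0,0,0,1],[1,-1],[0,
  1,0,0,0,0,0,0,1],(⟨0,[(28,0)]⟩,⟨1,[(27,0),(8,0),(0,0)]⟩),(⟨0,[(39,0)]⟩,⟨0,[(40,0)]⟩),⟨0,[(0,0)]⟩,
  .k,.k,(.r (-1) ⟨8,[(1,1),(9,0),(6,2),(1,2),(5,2),(15,0)]⟩ ⟨0,[(3,0),(31,0)]⟩),(.r 0 ⟨0,[(11,0),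
  (29,0)]⟩ ⟨3,[(9,1),(15,0),(19,0)]⟩),.k,.k,⟨false,0,⟨0,[(4,0)]⟩,⟨3,[(9,1),(15,0),(19,0)]⟩⟩,⟨true,0,
  ⟨1,[(5,0),(9,0),(1,0),(10,1),(1,0)]⟩,⟨1,[(27,0),(8,0),(0,0)]⟩⟩,⟨true,0,⟨0,[(47,0)]⟩,⟨0,[]⟩⟩,
  ⟨false,1,⟨1,[(15,1),(9,0),(2,1),(16,0)]⟩,⟨1,[(1,1),(5,0),(9,0),(9,0),(8,0),(0,0)]⟩⟩,⟨false,0,⟨0,
  [(43,0)]⟩,⟨0,[(42,0),(2,0)]⟩⟩,⟨false,1,⟨1,[(25,0),(2,1),(9,0)]⟩,⟨1,[(1,1),(25,0),(8,0),(0,0)]⟩⟩,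
  [.o ⟨false,0,⟨0,[(15,0)]⟩,⟨3,[(7,1),(9,1),(7,0),(0,0),(18,1)]⟩⟩,.o ⟨false,1,⟨1,[(38,0),(3,1),(2,
  0)]⟩,⟨0,[(43,0)]⟩⟩,.a ⟨true,0,⟨1,[(27,0),(8,0),(0,0)]⟩,⟨0,[(28,0)]⟩⟩ ⟨false,0,⟨2,[(1,1),(9,0),(30,
  0)]⟩,⟨1,[(25,0),(19,0)]⟩⟩ ⟨true,0,⟨0,[(15,0),(12,0)]⟩,⟨1,[(7,0),(9,0),(9,0),(8,0),(0,0)]⟩⟩,.o
  ⟨false,0,⟨1,[(27,0),(2,0),(2,0)]⟩,⟨1,[(28,1),(9,0),(5,0)]⟩⟩]⟩))) (.R ⟨1,false,false,false,[1,0,0,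
  -1],[1,-1],[1,1,0,-1,0,0,0,0,-1],(⟨1,[(25,0),(8,0),(0,0)]⟩,⟨0,[(26,0)]⟩),(⟨0,[(37,0)]⟩,⟨0,[(38,
  0)]⟩),⟨1,[(11,0),(5,0),(7,0)]⟩,.k,.k,(.r (-1) ⟨3,[(7,1),(15,0),(19,0)]⟩ ⟨0,[(9,0),(29,0)]⟩),(.r 0
  ⟨0,[(1,0),(31,0)]⟩ ⟨5,[(2,1),(3,0),(1,0),(3,3),(5,3),(5,1),(10,1),(1,0)]⟩),.k,.k,⟨false,0,⟨1,[(0,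
  1),(24,0),(1,0),(1,0)]⟩,⟨0,[(2,0),(0,0),(12,0)]⟩⟩,⟨true,0,⟨1,[(25,0),(2,0),(2,0)]⟩,⟨0,[(26,0)]⟩⟩,
  ⟨true,0,⟨0,[(40,0)]⟩,⟨0,[(41,0)]⟩⟩,⟨false,1,⟨1,[(3,0),(2,0),(5,1),(5,0),(5,0),(0,0),(13,0)]⟩,⟨1,
  [(0,1),(4,0),(9,0)]⟩⟩,⟨false,0,⟨0,[]⟩,⟨3,[(23,0),(0,0),(18,1)]⟩⟩,⟨false,1,⟨3,[(2,1),(10,1),(10,0),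
  (0,1),(17,2)]⟩,⟨0,[(0,0)]⟩⟩,[.o ⟨false,1,⟨1,[(36,0),(3,1),(2,0)]⟩,⟨0,[(41,0)]⟩⟩,.o ⟨false,1,⟨0,
  [(13,0),(29,0)]⟩,⟨1,[(5,0),(23,0),(15,0)]⟩⟩,.a ⟨true,0,⟨0,[(26,0)]⟩,⟨1,[(25,0),(8,0),(0,0)]⟩⟩
  ⟨true,0,⟨1,[(0,1),(12,0),(11,0),(14,0)]⟩,⟨0,[(2,0)]⟩⟩ ⟨false,1,⟨1,[(13,0),(11,0),(14,0),(2,1)]⟩,
  ⟨1,[(5,0),(9,0),(10,1)]⟩⟩,.o ⟨false,0,⟨1,[(3,0),(9,0),(1,0),(10,1),(1,0)]⟩,⟨7,[(23,0),(0,0),(0,3),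
  (10,1),(5,3)]⟩⟩]⟩)) (.R ⟨1,false,false,false,[1,0,0,-1],[0,-1,1],[0,0,0,0,0,0,0,0,-1],(⟨1,[(24,0),
  (8,0),(0,0)]⟩,⟨0,[(25,0)]⟩),(⟨0,[(10,0)]⟩,⟨0,[(33,0),(3,0)]⟩),⟨1,[(10,0),(5,0),(7,0)]⟩,.k,.k,(.r
  (-1) ⟨3,[(6,1),(15,0),(19,0)]⟩ ⟨0,[(8,0),(29,0)]⟩),(.x (-1) ⟨7,[(7,3),(14,2),(0,2),(13,3),(3,1)]⟩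
  ⟨0,[(10,0),(19,0)]⟩),.k,.k,⟨false,1,⟨1,[(4,0),(15,0),(1,0),(7,0)]⟩,⟨0,[(0,0)]⟩⟩,⟨true,0,⟨1,[(24,
  0),(5,1),(2,0),(0,0)]⟩,⟨0,[(19,0),(5,0)]⟩⟩,⟨false,1,⟨3,[(22,0),(0,0),(18,1)]⟩,⟨0,[]⟩⟩,⟨false,0,⟨1,
  [(0,1),(1,1),(8,1),(12,0),(8,0),(0,0)]⟩,⟨5,[(2,0),(1,2),(12,0),(3,0),(0,2),(2,5),(0,0),(8,1)]⟩⟩,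
  ⟨true,0,⟨0,[(40,0)]⟩,⟨0,[(39,0)]⟩⟩,⟨false,0,⟨1,[(0,1),(1,1),(11,1),(9,0),(8,0),(0,0)]⟩,⟨5,[(2,1),
  (14,1),(3,1),(0,2),(2,5),(0,1),(8,0)]⟩⟩,[.o ⟨false,0,⟨0,[(11,0)]⟩,⟨7,[(4,3),(17,0),(0,0),(5,3),(5,
  3),(6,1)]⟩⟩,.o ⟨false,1,⟨0,[(18,0),(23,0)]⟩,⟨0,[(4,0),(7,0)]⟩⟩,.a ⟨true,0,⟨0,[(25,0)]⟩,⟨1,[(24,0),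
  (8,0),(0,0)]⟩⟩ ⟨false,1,⟨1,[(22,0),(19,0)]⟩,⟨2,[(0,1),(1,1),(5,0),(30,0)]⟩⟩ ⟨true,0,⟨1,[(11,1),
  (12,0),(8,0),(0,0)]⟩,⟨0,[(4,0),(7,0),(12,0)]⟩⟩,.o ⟨false,0,⟨1,[(2,0),(9,0),(1,0),(10,1),(1,0)]⟩,
  ⟨7,[(22,0),(0,0),(0,3),(10,1),(5,3)]⟩⟩]⟩)) (.R ⟨1,false,false,false,[1,0,0,-1],[1,-1],[1,0,0,-1,0,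
  0,0,0,-1],(⟨1,[(23,0),(8,0),(0,0)]⟩,⟨0,[(24,0)]⟩),(⟨0,[(35,0)]⟩,⟨0,[(36,0)]⟩),⟨1,[(9,0),(5,0),(7,
  0)]⟩,.k,.k,(.r (-1) ⟨3,[(5,1),(15,0),(19,0)]⟩ ⟨0,[(7,0),(29,0)]⟩),(.r 0 ⟨2,[(0,2),(1,1),(0,0),(23,
  1),(2,0),(0,0)]⟩ ⟨1,[(1,1),(2,0),(1,0),(0,1),(2,3),(5,1),(16,1),(1,0)]⟩),.k,.k,⟨false,0,⟨1,[(0,1),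
  (2,0),(9,0)]⟩,⟨1,[(22,0),(17,0)]⟩⟩,⟨true,0,⟨1,[(23,0),(2,0),(2,0)]⟩,⟨0,[(24,0)]⟩⟩,⟨false,1,⟨0,
  [(38,0),(2,0)]⟩,⟨0,[(39,0)]⟩⟩,⟨false,1,⟨1,[(1,0),(2,0),(5,1),(5,0),(5,0),(0,0),(13,0)]⟩,⟨0,[(0,0),
  (2,0),(9,0),(10,0)]⟩⟩,⟨true,0,⟨0,[]⟩,⟨0,[(43,0)]⟩⟩,⟨false,1,⟨7,[(1,3),(2,1),(5,3),(11,3),(0,3),
  (10,0),(5,0),(0,1)]⟩,⟨1,[(0,1),(2,0),(9,0),(10,1)]⟩⟩,[.o ⟨false,1,⟨1,[(34,0),(3,1),(2,0)]⟩,⟨0,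
  [(39,0)]⟩⟩,.o ⟨false,1,⟨0,[(11,0),(29,0)]⟩,⟨1,[(3,0),(23,0),(15,0)]⟩⟩,.a ⟨true,0,⟨0,[(24,0)]⟩,⟨1,
  [(23,0),(8,0),(0,0)]⟩⟩ ⟨true,0,⟨0,[(0,0)]⟩,⟨0,[(7,0)]⟩⟩ ⟨false,1,⟨1,[(11,0),(11,0),(14,0),(2,1)]⟩,
  ⟨1,[(3,0),(9,0),(10,1)]⟩⟩,.o ⟨false,0,⟨1,[(1,0),(9,0),(1,0),(10,1),(1,0)]⟩,⟨7,[(21,0),(0,0),(0,3),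
  (10,1),(5,3)]⟩⟩]⟩)))) (.Q [0,0,0,0,0,0,0,0,-1,0,0,1] (.p true [0,0,0,1] [] (⟨0,[(21,0)]⟩,⟨1,[(20,
  0),(8,0),(0,0)]⟩) .k 0 (⟨0,[]⟩,⟨0,[]⟩) .k .k) (.I [0,0,0,0,0,0,0,0,-1] (.Q [0,-1,0,-1,0,0,1,1,-1,
  0,-1,1] (.p false [0,0,1] [0,0,0,1] (⟨0,[(32,0)]⟩,⟨0,[(31,0)]⟩) .k 2 (⟨0,[(23,0)]⟩,⟨1,[(22,0),(8,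
  0),(0,0)]⟩) .k (.r 0 ⟨0,[(0,0),(29,0)]⟩ ⟨0,[(6,0),(8,0),(20,0)]⟩)) (.I [0,0,-1,-1,0,0,0,1,-1] (.R
  ⟨1,false,false,true,[1,0,0,-1],[1,0,-1],[0,1,0,0,0,0,0,0,-1],(⟨1,[(24,0),(8,0),(0,0)]⟩,⟨0,[(25,
  0)]⟩),(⟨0,[(33,0)]⟩,⟨0,[(34,0)]⟩),⟨1,[(10,0),(5,0),(7,0)]⟩,.k,.k,(.r (-1) ⟨3,[(6,1),(15,0),(19,
  0)]⟩ ⟨0,[(8,0),(29,0)]⟩),.k,(.r 0 ⟨0,[(0,0)]⟩ ⟨1,[(23,0),(5,1),(0,1),(9,1),(1,0)]⟩),.k,⟨false,0,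
  ⟨0,[(0,0),(39,0)]⟩,⟨0,[(8,0),(8,0),(20,0)]⟩⟩,⟨true,0,⟨1,[(21,0),(2,0)]⟩,⟨0,[(25,0),(4,0)]⟩⟩,⟨true,
  0,⟨0,[(44,0)]⟩,⟨0,[]⟩⟩,⟨false,1,⟨1,[(23,0),(0,0),(1,0),(2,0),(12,0)]⟩,⟨0,[(1,0),(38,0)]⟩⟩,⟨false,
  0,⟨0,[(40,0)]⟩,⟨11,[(4,3),(12,3),(4,0),(0,0),(7,3),(10,5)]⟩⟩,⟨false,1,⟨1,[(23,0),(0,0),(1,0),(2,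
  0),(10,1),(1,0)]⟩,⟨0,[(1,0)]⟩⟩,[.o ⟨false,0,⟨0,[(26,0)]⟩,⟨3,[(14,3),(7,0),(0,0),(18,1)]⟩⟩,.o
  ⟨false,1,⟨1,[(29,1),(5,0),(6,0)]⟩,⟨0,[(14,0)]⟩⟩,.a ⟨true,0,⟨0,[(25,0)]⟩,⟨1,[(24,0),(8,0),(0,0)]⟩⟩
  ⟨false,0,⟨0,[(2,0)]⟩,⟨1,[(23,0),(18,0)]⟩⟩ ⟨true,0,⟨1,[(24,0),(1,0),(2,0)]⟩,⟨0,[(14,0),(10,0)]⟩⟩,
  .o ⟨false,0,⟨0,[(19,0),(5,0),(4,0)]⟩,⟨7,[(22,0),(0,0),(0,3),(10,1),(5,3)]⟩⟩]⟩) (.R ⟨1,false,false,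
  false,[1,0,0,-1],[1,-1],[1,0,0,-1,0,0,0,0,-1],(⟨1,[(24,0),(8,0),(0,0)]⟩,⟨0,[(25,0)]⟩),(⟨0,[(36,
  0)]⟩,⟨0,[(37,0)]⟩),⟨1,[(10,0),(5,0),(7,0)]⟩,.k,.k,(.r (-1) ⟨3,[(6,1),(15,0),(19,0)]⟩ ⟨0,[(0,0),
  (31,0)]⟩),(.r 0 ⟨1,[(2,1),(27,0),(0,0),(8,1)]⟩ ⟨0,[(0,0),(14,0)]⟩),.k,.k,⟨false,0,⟨0,[(2,0)]⟩,⟨1,
  [(23,0),(17,0)]⟩⟩,⟨true,0,⟨1,[(24,0),(2,0),(2,0)]⟩,⟨0,[(25,0)]⟩⟩,⟨false,1,⟨11,[(4,3),(12,3),(4,0),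
  (0,0),(7,3),(10,5)]⟩,⟨0,[(40,0)]⟩⟩,⟨false,1,⟨11,[(0,5),(3,7),(0,3),(11,1),(5,2),(0,5),(10,0),(6,
  5)]⟩,⟨0,[(3,0),(36,0)]⟩⟩,⟨true,0,⟨0,[]⟩,⟨0,[(44,0)]⟩⟩,⟨false,1,⟨7,[(0,3),(3,1),(0,1),(8,1),(8,1),
  (0,3),(10,0),(5,0),(0,3)]⟩,⟨0,[(3,0)]⟩⟩,[.o ⟨false,1,⟨5,[(4,1),(12,1),(4,0),(0,0),(3,1),(7,1)]⟩,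
  ⟨0,[(40,0)]⟩⟩,.o ⟨false,1,⟨0,[(12,0),(29,0)]⟩,⟨0,[(40,0),(3,0)]⟩⟩,.a ⟨true,0,⟨0,[(25,0)]⟩,⟨1,[(24,
  0),(8,0),(0,0)]⟩⟩ ⟨true,0,⟨1,[(1,1),(22,0),(1,0),(2,0)]⟩,⟨0,[(8,0)]⟩⟩ ⟨false,1,⟨23,[(4,7),(12,7),
  (4,0),(0,0),(0,11),(2,7),(7,1),(6,11)]⟩,⟨0,[(25,0),(14,0)]⟩⟩,.o ⟨false,0,⟨0,[(19,0),(5,0),(4,0)]⟩,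
  ⟨7,[(22,0),(0,0),(0,3),(10,1),(5,3)]⟩⟩]⟩)) (.R ⟨1,false,false,true,[1,0,0,-1],[1,-1],[0,1,0,0,0,0,
  0,0,-1],(⟨1,[(23,0),(8,0),(0,0)]⟩,⟨0,[(24,0)]⟩),(⟨0,[(35,0)]⟩,⟨0,[(36,0)]⟩),⟨1,[(9,0),(5,0),(7,
  0)]⟩,.k,.k,(.r (-1) ⟨3,[(5,1),(15,0),(19,0)]⟩ ⟨0,[(7,0),(29,0)]⟩),(.r 0 ⟨1,[(1,1),(27,0),(0,0),(8,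
  1)]⟩ ⟨1,[(0,1),(2,1),(20,1),(15,0),(0,0)]⟩),.k,.k,⟨false,0,⟨0,[(1,0),(37,0)]⟩,⟨1,[(0,1),(2,1),(20,
  1),(15,0),(0,0)]⟩⟩,⟨true,0,⟨1,[(23,0),(2,0),(2,0)]⟩,⟨0,[(24,0)]⟩⟩,⟨true,0,⟨0,[(43,0)]⟩,⟨0,[]⟩⟩,
  ⟨true,0,⟨0,[(0,0),(2,0)]⟩,⟨0,[(2,0),(36,0)]⟩⟩,⟨false,0,⟨0,[(39,0)]⟩,⟨11,[(3,3),(12,3),(4,0),(0,0),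
  (7,3),(10,5)]⟩⟩,⟨true,0,⟨1,[(0,1),(2,0),(9,0)]⟩,⟨0,[(2,0)]⟩⟩,[.o ⟨false,0,⟨0,[(11,0)]⟩,⟨3,[(21,0),
  (0,0),(16,3),(1,1)]⟩⟩,.o ⟨false,1,⟨5,[(3,1),(12,1),(4,0),(0,0),(3,1),(7,1)]⟩,⟨0,[(39,0)]⟩⟩,.a
  ⟨true,0,⟨0,[(24,0)]⟩,⟨1,[(23,0),(8,0),(0,0)]⟩⟩ ⟨false,0,⟨0,[(1,0)]⟩,⟨1,[(22,0),(18,0)]⟩⟩ ⟨true,0,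
  ⟨1,[(11,0),(11,0),(14,0)]⟩,⟨0,[(24,0),(14,0)]⟩⟩,.o ⟨false,0,⟨0,[(18,0),(5,0),(4,0)]⟩,⟨7,[(21,0),
  (0,0),(0,3),(10,1),(5,3)]⟩⟩]⟩)) (.R ⟨2,false,false,false,[0,1],[0,0,0,1],[1,1,1],(⟨0,[]⟩,⟨0,[]⟩),
  (⟨0,[(23,0)]⟩,⟨1,[(22,0),(8,0),(0,0)]⟩),⟨0,[]⟩,.k,.k,.k,(.r 0 ⟨1,[(1,1),(20,0),(2,0),(2,0),(9,
  1)]⟩ ⟨2,[(0,0),(12,0),(1,0),(5,0)]⟩),.k,.k,⟨false,0,⟨1,[(1,1),(20,0),(1,0),(1,0)]⟩,⟨1,[(0,1),(38,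
  0),(0,0)]⟩⟩,⟨true,0,⟨1,[(22,0),(2,0),(2,0)]⟩,⟨0,[(23,0)]⟩⟩,⟨true,0,⟨0,[(37,0)]⟩,⟨0,[(38,0)]⟩⟩,
  ⟨false,1,⟨11,[(0,9),(1,3),(12,3),(5,0),(0,5),(2,3),(7,0),(6,5)]⟩,⟨0,[(1,0),(36,0)]⟩⟩,⟨false,0,⟨0,
  []⟩,⟨3,[(20,0),(0,0),(18,1)]⟩⟩,⟨false,1,⟨3,[(0,1),(20,0),(0,1),(10,0),(6,1)]⟩,⟨0,[(1,0)]⟩⟩,[.a
  ⟨true,0,⟨1,[(0,1),(21,0),(8,0),(0,0)]⟩,⟨0,[(1,0)]⟩⟩ ⟨false,0,⟨0,[(42,0)]⟩,⟨1,[(39,0),(0,0)]⟩⟩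
  ⟨true,0,⟨1,[(0,1),(21,0),(2,0),(2,0)]⟩,⟨0,[(1,0)]⟩⟩,.o ⟨false,1,⟨3,[(0,1),(20,0),(0,1),(10,0),(6,
  1)]⟩,⟨0,[(1,0),(8,0),(27,0)]⟩⟩,.o ⟨false,1,⟨3,[(20,0),(0,0),(17,1)]⟩,⟨0,[(17,0),(10,0)]⟩⟩,.e
  ⟨false,0,⟨0,[]⟩,⟨3,[(20,0),(0,0),(18,1)]⟩⟩ ⟨false,1,⟨3,[(0,1),(20,0),(0,1),(10,0),(6,1)]⟩,⟨0,[(1,
  0)]⟩⟩]⟩)) (.I [0,0,1,0,0,0,0,0,-2] (.Q [0,0,0,1,0,0,1,1,-1,0,-1,1] (.p false [0,0,1] [0,0,0,1]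
  (⟨0,[(32,0)]⟩,⟨0,[(31,0)]⟩) .k 2 (⟨0,[(23,0)]⟩,⟨1,[(22,0),(8,0),(0,0)]⟩) .k (.r 0 ⟨1,[(0,0),(6,0),
  (30,0)]⟩ ⟨2,[(1,0),(16,1),(2,0),(1,0),(3,0),(0,0),(7,0)]⟩)) (.Q [0,0,0,1,0,0,0,0,-1,0,0,1] (.p
  true [0,0,0,1] [] (⟨0,[(24,0)]⟩,⟨1,[(23,0),(8,0),(0,0)]⟩) .k 0 (⟨0,[]⟩,⟨0,[]⟩) .k .k) (.R ⟨2,true,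
  false,false,[0,1],[0,0,0,1],[1,1,1],(⟨0,[]⟩,⟨0,[]⟩),(⟨0,[(25,0)]⟩,⟨1,[(24,0),(8,0),(0,0)]⟩),⟨0,
  []⟩,.k,.k,.k,(.r 0 ⟨3,[(2,1),(27,0),(0,0),(8,3)]⟩ ⟨2,[(3,0),(11,0),(1,0),(5,0),(1,0)]⟩),.k,.k,
  ⟨false,0,⟨1,[(0,1),(11,0),(11,0),(14,0)]⟩,⟨1,[(3,1),(21,1),(15,0),(0,0)]⟩⟩,⟨true,0,⟨1,[(24,0),(2,
  0),(2,0)]⟩,⟨0,[(25,0)]⟩⟩,⟨true,0,⟨0,[(39,0)]⟩,⟨0,[(40,0)]⟩⟩,⟨false,1,⟨11,[(3,5),(0,3),(12,3),(3,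
  0),(1,2),(0,2),(2,1),(10,1),(3,4)]⟩,⟨0,[(0,0)]⟩⟩,⟨false,0,⟨0,[]⟩,⟨3,[(22,0),(0,0),(18,1)]⟩⟩,⟨true,
  0,⟨0,[(3,0)]⟩,⟨0,[(0,0),(38,0)]⟩⟩,[]⟩) (.I [0,1,0,0,0,0,0,0,-1] (.R ⟨1,false,false,false,[1,0,0,
  -1],[1,-1],[0,1,0,0,0,0,0,0,-1],(⟨1,[(25,0),(8,0),(0,0)]⟩,⟨0,[(26,0)]⟩),(⟨0,[(37,0)]⟩,⟨0,[(38,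
  0)]⟩),⟨1,[(11,0),(5,0),(7,0)]⟩,.k,.k,(.r (-1) ⟨3,[(7,1),(15,0),(19,0)]⟩ ⟨0,[(9,0),(29,0)]⟩),(.r 0
  ⟨3,[(3,1),(27,0),(0,0),(8,3)]⟩ ⟨7,[(1,1),(14,1),(1,1),(5,2),(1,1),(15,0)]⟩),.k,.k,⟨false,0,⟨0,[(0,
  0),(40,0)]⟩,⟨1,[(1,1),(24,1),(15,0),(0,0)]⟩⟩,⟨true,0,⟨1,[(25,0),(2,0),(2,0)]⟩,⟨0,[(26,0)]⟩⟩,⟨true,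
  0,⟨0,[(45,0)]⟩,⟨0,[]⟩⟩,⟨true,0,⟨0,[(1,0)]⟩,⟨0,[(2,0),(27,0)]⟩⟩,⟨false,0,⟨0,[(41,0)]⟩,⟨11,[(5,3),
  (12,3),(4,0),(0,0),(7,3),(10,5)]⟩⟩,⟨true,0,⟨0,[(4,0)]⟩,⟨0,[(0,0),(25,0)]⟩⟩,[.o ⟨false,1,⟨5,[(5,1),
  (12,1),(4,0),(0,0),(3,1),(7,1)]⟩,⟨0,[(41,0)]⟩⟩,.o ⟨false,1,⟨0,[(13,0),(29,0)]⟩,⟨1,[(0,0),(8,0),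
  (31,0)]⟩⟩,.a ⟨true,0,⟨0,[(26,0)]⟩,⟨1,[(25,0),(8,0),(0,0)]⟩⟩ ⟨true,0,⟨0,[(0,0)]⟩,⟨0,[(4,0),(21,
  0)]⟩⟩ ⟨false,1,⟨1,[(1,1),(21,0),(19,0)]⟩,⟨0,[(26,0),(14,0)]⟩⟩,.o ⟨false,0,⟨0,[(20,0),(5,0),(4,
  0)]⟩,⟨7,[(23,0),(0,0),(0,3),(10,1),(5,3)]⟩⟩]⟩) (.Q [0,1,0,-1,0,0,-1,-1,0,0,1] (.p true [0,0,1] []
  (⟨0,[(35,0)]⟩,⟨0,[(34,0)]⟩) .k 0 (⟨0,[]⟩,⟨0,[]⟩) .k .k) (.K ⟨1,[0,0,0,1],0,0,(⟨0,[(27,0)]⟩,⟨1,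
  [(26,0),(8,0),(0,0)]⟩),.k,(.r (-1) ⟨20,[(0,0),(0,3),(4,0),(3,2),(6,6),(1,6),(5,6)]⟩ ⟨3,[(4,1),(27,
  0),(0,0),(8,3)]⟩),(.r 0 ⟨0,[(10,0),(29,0)]⟩ ⟨3,[(8,1),(15,0),(19,0)]⟩),.k,.k,[⟨1,[(27,1),(4,0),(0,
  0)]⟩,⟨1,[(26,0),(2,0),(2,0)]⟩,⟨0,[(0,0),(2,0)]⟩,⟨1,[(1,1),(24,0),(8,0),(0,0)]⟩]⟩) (.I [0,0,-1,-1,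
  0,0,0,1,1] (.R ⟨1,false,false,false,[1,0,0,-1],[0,-1,1],[0,0,0,0,0,0,0,0,-1],(⟨1,[(27,0),(8,0),(0,
  0)]⟩,⟨0,[(28,0)]⟩),(⟨0,[(13,0)]⟩,⟨0,[(36,0),(3,0)]⟩),⟨1,[(13,0),(5,0),(7,0)]⟩,.k,.k,(.r (-1) ⟨3,
  [(9,1),(15,0),(19,0)]⟩ ⟨0,[(11,0),(29,0)]⟩),(.r (-1) ⟨1,[(25,0),(6,1),(0,1),(9,1),(1,0)]⟩ ⟨0,[(0,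
  0)]⟩),.k,.k,⟨false,1,⟨5,[(5,1),(17,3),(1,0),(6,1),(0,1),(9,5),(1,0)]⟩,⟨0,[(0,0)]⟩⟩,⟨true,0,⟨1,
  [(27,0),(5,1),(2,0),(0,0)]⟩,⟨0,[(22,0),(5,0)]⟩⟩,⟨false,1,⟨3,[(25,0),(0,0),(18,1)]⟩,⟨0,[]⟩⟩,⟨false,
  0,⟨1,[(2,1),(4,0),(9,0),(9,0),(8,0),(0,0)]⟩,⟨0,[(4,0),(24,0),(2,0),(12,0)]⟩⟩,⟨true,0,⟨0,[(43,0)]⟩,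
  ⟨0,[(42,0)]⟩⟩,⟨false,0,⟨1,[(2,1),(14,1),(9,0),(8,0),(0,0)]⟩,⟨1,[(25,0),(2,1),(0,1),(15,0)]⟩⟩,[.o
  ⟨false,0,⟨0,[(14,0)]⟩,⟨1,[(32,1),(5,0),(4,1),(1,0)]⟩⟩,.o ⟨false,1,⟨3,[(7,1),(9,1),(7,0),(0,0),(18,
  1)]⟩,⟨0,[(29,0),(13,0)]⟩⟩,.a ⟨true,0,⟨0,[(28,0)]⟩,⟨1,[(27,0),(8,0),(0,0)]⟩⟩ ⟨false,1,⟨1,[(25,0),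
  (19,0)]⟩,⟨2,[(2,1),(8,0),(30,0)]⟩⟩ ⟨true,0,⟨1,[(7,0),(9,0),(9,0),(8,0),(0,0)]⟩,⟨0,[(28,0),(0,0),
  (13,0)]⟩⟩,.o ⟨false,0,⟨0,[(22,0),(5,0),(4,0)]⟩,⟨7,[(25,0),(0,0),(0,3),(10,1),(5,3)]⟩⟩]⟩) (.I [0,0,
  -2,-2,1] (.I [0,0,-1,0,0,0,0,1,1] (.R ⟨1,false,false,false,[1,0,0,-1],[0,-1,1],[1,0,0,-1,0,0,0,0,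
  -1],(⟨1,[(29,0),(8,0),(0,0)]⟩,⟨0,[(30,0)]⟩),(⟨0,[(15,0)]⟩,⟨0,[(38,0),(3,0)]⟩),⟨1,[(15,0),(5,0),(7,
  0)]⟩,.k,.k,(.r (-1) ⟨3,[(11,1),(15,0),(19,0)]⟩ ⟨0,[(13,0),(29,0)]⟩),(.x (-1) ⟨7,[(12,3),(14,2),(0,
  2),(13,3),(3,1)]⟩ ⟨0,[(15,0),(19,0)]⟩),.k,.k,⟨false,1,⟨7,[(2,3),(19,3),(4,2),(0,0)]⟩,⟨0,[(0,0)]⟩⟩,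
  ⟨true,0,⟨1,[(29,0),(5,1),(2,0),(0,0)]⟩,⟨0,[(24,0),(5,0)]⟩⟩,⟨false,1,⟨11,[(9,3),(12,3),(4,0),(0,0),
  (7,3),(10,5)]⟩,⟨0,[(45,0)]⟩⟩,⟨false,0,⟨1,[(4,1),(4,0),(9,0),(9,0),(8,0),(0,0)]⟩,⟨27,[(2,23),(3,3),
  (3,15),(14,7),(1,6),(0,6),(1,23),(9,5)]⟩⟩,⟨true,0,⟨0,[]⟩,⟨0,[(49,0)]⟩⟩,⟨false,0,⟨1,[(4,1),(14,1),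
  (9,0),(8,0),(0,0)]⟩,⟨3,[(2,1),(19,1),(3,1),(0,0),(2,3),(9,0)]⟩⟩,[.o ⟨false,0,⟨0,[(16,0)]⟩,⟨15,[(2,
  11),(7,7),(14,3),(1,0),(0,6),(11,3),(4,3)]⟩⟩,.o ⟨false,1,⟨3,[(9,1),(9,1),(7,0),(0,0),(18,1)]⟩,⟨0,
  [(31,0),(13,0)]⟩⟩,.a ⟨true,0,⟨0,[(30,0)]⟩,⟨1,[(29,0),(8,0),(0,0)]⟩⟩ ⟨false,1,⟨9,[(1,1),(5,3),(1,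
  1),(12,1),(4,0),(8,1),(10,4)]⟩,⟨1,[(4,0),(8,0),(31,0)]⟩⟩ ⟨true,0,⟨1,[(9,0),(9,0),(9,0),(8,0),(0,
  0)]⟩,⟨0,[(30,0),(0,0),(13,0)]⟩⟩,.o ⟨false,0,⟨0,[(24,0),(5,0),(4,0)]⟩,⟨7,[(27,0),(0,0),(0,3),(10,
  1),(5,3)]⟩⟩]⟩) (.Q [0,0,0,0,0,1,0,0,0,0,0,-1] (.p false [0,0,0,1] [] (⟨0,[(30,0)]⟩,⟨1,[(29,0),(8,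
  0),(0,0)]⟩) .k 0 (⟨0,[]⟩,⟨0,[]⟩) .k .k) (.R ⟨0,false,false,true,[0,0,0,1],[1,-1],[1,0,0,0,0,0,0,0,
  1],(⟨0,[(31,0)]⟩,⟨1,[(30,0),(8,0),(0,0)]⟩),(⟨0,[(42,0)]⟩,⟨0,[(43,0)]⟩),⟨0,[(0,0)]⟩,.k,.k,(.r (-1)
  ⟨1,[(2,0),(26,0)]⟩ ⟨3,[(3,1),(3,1),(22,0),(2,0),(3,0)]⟩),(.r 0 ⟨0,[(14,0),(29,0)]⟩ ⟨3,[(12,1),(15,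
  0),(19,0)]⟩),.k,.k,⟨false,0,⟨0,[(5,0),(40,0)]⟩,⟨7,[(12,3),(15,2),(0,0),(20,3)]⟩⟩,⟨true,0,⟨0,[(25,
  0),(5,0),(4,0)]⟩,⟨1,[(30,0),(8,0),(0,0)]⟩⟩,⟨true,0,⟨0,[]⟩,⟨0,[(50,0)]⟩⟩,⟨false,1,⟨15,[(8,3),(1,3),
  (1,1),(10,3),(4,2),(2,15),(1,3),(7,5),(6,0)]⟩,⟨1,[(5,1),(24,0),(8,0),(0,0),(5,1)]⟩⟩,⟨false,0,⟨0,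
  []⟩,⟨0,[]⟩⟩,⟨false,0,⟨0,[]⟩,⟨0,[]⟩⟩,[.o ⟨false,0,⟨0,[(18,0)]⟩,⟨3,[(28,0),(0,0),(16,3),(1,1)]⟩⟩,.o
  ⟨false,1,⟨5,[(10,1),(12,1),(4,0),(0,0),(3,1),(7,1)]⟩,⟨0,[(46,0)]⟩⟩,.a ⟨true,0,⟨1,[(30,0),(8,0),(0,
  0)]⟩,⟨0,[(31,0)]⟩⟩ ⟨false,0,⟨0,[(5,0)]⟩,⟨3,[(28,2),(0,0)]⟩⟩ ⟨true,0,⟨0,[(18,0),(12,0)]⟩,⟨1,[(30,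
  0),(8,0),(0,0),(5,1)]⟩⟩,.o ⟨false,0,⟨1,[(30,0),(2,0),(2,0)]⟩,⟨1,[(31,1),(9,0),(5,0)]⟩⟩]⟩) (.R ⟨1,
  false,false,false,[0,0,0,1],[1,-1],[1,0,0,-1,0,0,0,0,1],(⟨0,[(31,0)]⟩,⟨1,[(30,0),(8,0),(0,0)]⟩),
  (⟨0,[(42,0)]⟩,⟨0,[(43,0)]⟩),⟨0,[(0,0)]⟩,.k,.k,(.r (-1) ⟨1,[(2,0),(26,0)]⟩ ⟨3,[(3,1),(3,1),(22,0),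
  (2,0),(3,0)]⟩),(.r 0 ⟨0,[(14,0),(29,0)]⟩ ⟨3,[(12,1),(15,0),(19,0)]⟩),.k,.k,⟨false,0,⟨2,[(5,1),(8,
  0),(30,0)]⟩,⟨1,[(28,0),(18,0)]⟩⟩,⟨true,0,⟨0,[(25,0),(5,0),(4,0)]⟩,⟨1,[(30,0),(8,0),(0,0)]⟩⟩,
  ⟨false,1,⟨11,[(10,3),(12,3),(4,0),(0,0),(7,3),(10,5)]⟩,⟨0,[(46,0)]⟩⟩,⟨false,1,⟨21,[(1,15),(0,3),
  (4,5),(2,9),(0,7),(19,15),(9,6),(6,10)]⟩,⟨1,[(5,0),(8,0),(15,0),(8,0),(0,0),(5,0)]⟩⟩,⟨true,0,⟨0,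
  []⟩,⟨0,[(50,0)]⟩⟩,⟨false,1,⟨21,[(1,11),(0,2),(4,9),(2,1),(0,5),(19,11),(9,7),(6,10)]⟩,⟨2,[(5,0),
  (0,0),(7,0),(15,0),(8,1),(0,1)]⟩⟩,[.o ⟨false,1,⟨5,[(10,1),(12,1),(4,0),(0,0),(3,1),(7,1)]⟩,⟨0,
  [(46,0)]⟩⟩,.o ⟨false,1,⟨15,[(1,1),(3,1),(4,5),(12,3),(1,3),(7,1),(7,4),(6,6)]⟩,⟨3,[(7,1),(6,1),
  (15,0),(1,0),(2,0)]⟩⟩,.a ⟨true,0,⟨1,[(30,0),(8,0),(0,0)]⟩,⟨0,[(31,0)]⟩⟩ ⟨true,0,⟨0,[(5,0),(39,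
  0)]⟩,⟨1,[(7,1),(22,0),(1,0),(2,0)]⟩⟩ ⟨false,1,⟨15,[(1,1),(3,1),(4,5),(12,3),(1,3),(5,15),(1,1),(7,
  4),(6,6)]⟩,⟨1,[(30,0),(8,0),(0,0),(5,1)]⟩⟩,.o ⟨false,0,⟨1,[(30,0),(2,0),(2,0)]⟩,⟨1,[(31,1),(9,0),
  (5,0)]⟩⟩]⟩))) (.K ⟨1,[0,0,0,1],0,0,(⟨0,[(29,0)]⟩,⟨1,[(28,0),(8,0),(0,0)]⟩),.k,(.r (-1) ⟨8,[(3,1),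
  (8,0),(6,2),(1,2),(5,2),(15,0)]⟩ ⟨1,[(0,0),(25,0)]⟩),(.r 0 ⟨1,[(0,0),(26,0)]⟩ ⟨3,[(10,1),(15,0),
  (19,0)]⟩),.k,.k,[⟨1,[(29,1),(4,0),(0,0)]⟩,⟨1,[(28,0),(2,0),(2,0)]⟩,⟨0,[(0,0),(9,0),(18,0)]⟩,⟨1,
  [(3,1),(24,0),(8,0),(0,0)]⟩]⟩)))))) (.I [0,1,0,0,0,0,0,0,-1] (.R ⟨1,false,false,false,[1,0,0,-1],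
  [1,-1],[0,1,0,0,0,0,0,0,-1],(⟨1,[(24,0),(8,0),(0,0)]⟩,⟨0,[(25,0)]⟩),(⟨0,[(36,0)]⟩,⟨0,[(37,0)]⟩),
  ⟨1,[(10,0),(5,0),(7,0)]⟩,.k,.k,(.r (-1) ⟨3,[(6,1),(15,0),(19,0)]⟩ ⟨0,[(8,0),(29,0)]⟩),(.r 0 ⟨3,
  [(2,1),(27,0),(0,0),(8,3)]⟩ ⟨11,[(1,1),(2,1),(10,1),(1,1),(5,4),(1,1),(15,2)]⟩),.k,.k,⟨false,0,⟨0,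
  [(0,0),(39,0)]⟩,⟨5,[(1,1),(1,3),(0,1),(20,5),(15,2),(0,2)]⟩⟩,⟨true,0,⟨1,[(24,0),(2,0),(2,0)]⟩,⟨0,
  [(25,0)]⟩⟩,⟨true,0,⟨0,[(44,0)]⟩,⟨0,[]⟩⟩,⟨true,0,⟨2,[(1,0),(1,1),(0,0)]⟩,⟨0,[(0,0),(24,0),(14,
  0)]⟩⟩,⟨false,0,⟨0,[(40,0)]⟩,⟨11,[(4,3),(12,3),(4,0),(0,0),(7,3),(10,5)]⟩⟩,⟨true,0,⟨0,[(3,0)]⟩,⟨0,
  [(0,0),(24,0)]⟩⟩,[.o ⟨false,1,⟨5,[(4,1),(12,1),(4,0),(0,0),(3,1),(7,1)]⟩,⟨0,[(40,0)]⟩⟩,.o ⟨false,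
  1,⟨0,[(12,0),(29,0)]⟩,⟨1,[(0,0),(7,0),(31,0)]⟩⟩,.a ⟨true,0,⟨0,[(25,0)]⟩,⟨1,[(24,0),(8,0),(0,0)]⟩⟩
  ⟨true,0,⟨0,[(0,0)]⟩,⟨0,[(3,0),(21,0)]⟩⟩ ⟨false,1,⟨11,[(1,3),(2,3),(17,2),(0,0),(0,3),(10,1),(6,
  5)]⟩,⟨0,[(25,0),(14,0)]⟩⟩,.o ⟨false,0,⟨0,[(19,0),(5,0),(4,0)]⟩,⟨7,[(22,0),(0,0),(0,3),(10,1),(5,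
  3)]⟩⟩]⟩) (.I [1,1,2,1,-1] (.R ⟨1,false,false,false,[1,0,0,-1],[0,1],[0,0,0,0,0,0,0,0,-1],(⟨1,[(25,
  0),(8,0),(0,0)]⟩,⟨0,[(26,0)]⟩),(⟨0,[(38,0)]⟩,⟨0,[(37,0)]⟩),⟨1,[(11,0),(5,0),(7,0)]⟩,.k,.k,(.r
  (-1) ⟨3,[(7,1),(15,0),(19,0)]⟩ ⟨7,[(0,3),(0,1),(22,2),(16,3),(1,0)]⟩),(.r (-1) ⟨3,[(7,1),(15,0),
  (19,0)]⟩ ⟨7,[(0,3),(0,1),(22,2),(16,3),(1,0)]⟩),(.r (-2) ⟨11,[(16,7),(1,7),(4,6),(0,0)]⟩ ⟨0,[(0,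
  0),(0,0),(39,0)]⟩),.k,⟨true,1,⟨3,[(7,1),(15,0),(19,0)]⟩,⟨0,[(0,0),(0,0)]⟩⟩,⟨false,1,⟨1,[(25,0),(8,
  0),(0,0),(6,1)]⟩,⟨0,[(20,0),(5,0),(4,0)]⟩⟩,⟨false,1,⟨3,[(23,0),(0,0),(18,1)]⟩,⟨0,[]⟩⟩,⟨false,0,⟨1,
  [(1,1),(23,0),(8,0),(0,0),(5,1)]⟩,⟨15,[(3,3),(1,3),(1,1),(10,3),(4,2),(2,15),(1,3),(7,5),(6,0)]⟩⟩,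
  ⟨true,0,⟨0,[(41,0)]⟩,⟨0,[(40,0)]⟩⟩,⟨false,0,⟨1,[(1,1),(23,0),(8,0),(0,0),(5,3)]⟩,⟨25,[(3,11),(1,
  15),(1,1),(10,15),(3,3),(3,25),(1,7),(7,6),(6,0)]⟩⟩,[.o ⟨false,0,⟨0,[(41,0)]⟩,⟨5,[(5,1),(12,1),(4,
  0),(0,0),(3,1),(7,1)]⟩⟩,.o ⟨false,1,⟨3,[(23,0),(0,0),(16,3),(1,1)]⟩,⟨0,[(13,0)]⟩⟩,.a ⟨true,0,⟨0,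
  [(26,0)]⟩,⟨1,[(25,0),(8,0),(0,0)]⟩⟩ ⟨false,1,⟨1,[(23,0),(19,0)]⟩,⟨6,[(1,2),(0,0),(2,0),(3,2),(16,
  0)]⟩⟩ ⟨true,0,⟨1,[(25,0),(8,0),(0,0),(5,1)]⟩,⟨0,[(13,0),(12,0)]⟩⟩,.o ⟨false,0,⟨0,[(20,0),(5,0),(4,
  0)]⟩,⟨7,[(23,0),(0,0),(0,3),(10,1),(5,3)]⟩⟩]⟩) (.I [0,-1,0,0,0,0,0,0,1] (.Q [0,0,0,0,0,-1,0,0,0,0,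
  0,1] (.p true [0,0,0,1] [] (⟨0,[(27,0)]⟩,⟨1,[(26,0),(8,0),(0,0)]⟩) .k 0 (⟨0,[]⟩,⟨0,[]⟩) .k .k)
  (.R ⟨1,false,false,true,[0,0,0,1],[1,-1],[0,0,0,0,0,0,0,0,1],(⟨0,[(28,0)]⟩,⟨1,[(27,0),(8,0),(0,
  0)]⟩),(⟨0,[(39,0)]⟩,⟨0,[(40,0)]⟩),⟨0,[(0,0)]⟩,.k,.k,(.r (-1) ⟨1,[(2,0),(23,0),(15,0)]⟩ ⟨3,[(5,1),
  (27,0),(0,0),(8,3)]⟩),(.r 0 ⟨0,[(11,0),(29,0)]⟩ ⟨3,[(9,1),(15,0),(19,0)]⟩),.k,.k,⟨false,0,⟨0,[(3,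
  0),(39,0)]⟩,⟨7,[(9,3),(15,2),(0,0),(20,3)]⟩⟩,⟨true,0,⟨0,[(22,0),(5,0),(4,0)]⟩,⟨1,[(27,0),(8,0),(0,
  0)]⟩⟩,⟨false,1,⟨3,[(25,0),(0,0),(18,1)]⟩,⟨0,[]⟩⟩,⟨false,1,⟨15,[(5,3),(1,3),(1,1),(10,3),(4,2),(2,
  15),(1,3),(7,5),(6,0)]⟩,⟨1,[(3,1),(23,0),(8,0),(0,0),(5,1)]⟩⟩,⟨true,0,⟨0,[(43,0)]⟩,⟨0,[(42,0)]⟩⟩,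
  ⟨false,1,⟨1,[(25,0),(2,1),(9,0)]⟩,⟨1,[(3,1),(23,0),(8,0),(0,0)]⟩⟩,[.o ⟨false,0,⟨0,[(15,0)]⟩,⟨3,
  [(25,0),(0,0),(16,3),(1,1)]⟩⟩,.o ⟨false,1,⟨5,[(7,1),(12,1),(4,0),(0,0),(3,1),(7,1)]⟩,⟨0,[(43,
  0)]⟩⟩,.a ⟨true,0,⟨1,[(27,0),(8,0),(0,0)]⟩,⟨0,[(28,0)]⟩⟩ ⟨false,0,⟨0,[(1,0)]⟩,⟨3,[(25,2),(0,0)]⟩⟩
  ⟨true,0,⟨0,[(15,0),(12,0)]⟩,⟨1,[(27,0),(8,0),(0,0),(5,1)]⟩⟩,.o ⟨false,0,⟨1,[(27,0),(2,0),(2,0)]⟩,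
  ⟨1,[(28,1),(9,0),(5,0)]⟩⟩]⟩) (.R ⟨0,false,false,true,[0,0,0,1],[1,-1],[1,0,0,0,0,0,0,0,1],(⟨0,
  [(28,0)]⟩,⟨1,[(27,0),(8,0),(0,0)]⟩),(⟨0,[(39,0)]⟩,⟨0,[(40,0)]⟩),⟨0,[(0,0)]⟩,.k,.k,(.r (-1) ⟨1,[(2,
  0),(23,0),(15,0)]⟩ ⟨3,[(5,1),(27,0),(0,0),(8,3)]⟩),(.r 0 ⟨0,[(11,0),(29,0)]⟩ ⟨3,[(9,1),(15,0),(19,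
  0)]⟩),.k,.k,⟨false,0,⟨0,[(3,0),(39,0)]⟩,⟨7,[(9,3),(15,2),(0,0),(20,3)]⟩⟩,⟨true,0,⟨0,[(22,0),(5,0),
  (4,0)]⟩,⟨1,[(27,0),(8,0),(0,0)]⟩⟩,⟨true,0,⟨0,[]⟩,⟨0,[(47,0)]⟩⟩,⟨false,1,⟨15,[(5,3),(1,3),(1,1),
  (10,3),(4,2),(2,15),(1,3),(7,5),(6,0)]⟩,⟨1,[(3,1),(23,0),(8,0),(0,0),(5,1)]⟩⟩,⟨false,0,⟨0,[]⟩,⟨0,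
  []⟩⟩,⟨false,0,⟨0,[]⟩,⟨0,[]⟩⟩,[.o ⟨false,0,⟨0,[(15,0)]⟩,⟨3,[(25,0),(0,0),(16,3),(1,1)]⟩⟩,.o ⟨false,
  1,⟨5,[(7,1),(12,1),(4,0),(0,0),(3,1),(7,1)]⟩,⟨0,[(43,0)]⟩⟩,.a ⟨true,0,⟨1,[(27,0),(8,0),(0,0)]⟩,⟨0,
  [(28,0)]⟩⟩ ⟨false,0,⟨0,[(3,0)]⟩,⟨3,[(25,2),(0,0)]⟩⟩ ⟨true,0,⟨0,[(15,0),(12,0)]⟩,⟨1,[(27,0),(8,0),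
  (0,0),(5,1)]⟩⟩,.o ⟨false,0,⟨1,[(27,0),(2,0),(2,0)]⟩,⟨1,[(28,1),(9,0),(5,0)]⟩⟩]⟩)) (.K ⟨1,[0,0,0,
  1],0,0,(⟨0,[(27,0)]⟩,⟨1,[(26,0),(8,0),(0,0)]⟩),.k,(.r (-1) ⟨1,[(1,0),(23,0),(15,0)]⟩ ⟨3,[(4,1),
  (27,0),(0,0),(8,3)]⟩),(.r 0 ⟨0,[(10,0),(29,0)]⟩ ⟨3,[(8,1),(15,0),(19,0)]⟩),.k,.k,[⟨1,[(27,1),(4,
  0),(0,0)]⟩,⟨1,[(26,0),(2,0),(2,0)]⟩,⟨0,[(0,0),(26,0)]⟩,⟨1,[(2,1),(23,0),(8,0),(0,0)]⟩]⟩))))) (.I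
  [1,1,-1,-2,0,0,0,0,1] (.R ⟨1,false,false,true,[1,0,0,-1],[1,-1],[0,0,0,0,0,0,0,0,-1],(⟨1,[(23,0),
  (8,0),(0,0)]⟩,⟨0,[(24,0)]⟩),(⟨0,[(35,0)]⟩,⟨0,[(36,0)]⟩),⟨1,[(9,0),(5,0),(7,0)]⟩,.k,.k,(.r (-1) ⟨3,
  [(5,1),(15,0),(19,0)]⟩ ⟨0,[(7,0),(29,0)]⟩),(.x (-1) ⟨3,[(21,0),(0,0),(13,3),(3,1)]⟩ ⟨1,[(9,0),(5,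
  0),(10,0),(2,0)]⟩),.k,.k,⟨false,1,⟨1,[(21,0),(17,1),(1,0)]⟩,⟨0,[(0,0),(38,0)]⟩⟩,⟨true,0,⟨1,[(23,
  0),(2,0),(2,0)]⟩,⟨0,[(24,0)]⟩⟩,⟨false,1,⟨3,[(21,0),(0,0),(18,1)]⟩,⟨0,[]⟩⟩,⟨false,0,⟨1,[(1,0),(1,
  0),(19,0),(1,0),(11,0)]⟩,⟨1,[(21,0),(2,1),(14,1),(1,0)]⟩⟩,⟨true,0,⟨0,[(39,0)]⟩,⟨0,[(38,0)]⟩⟩,
  ⟨false,0,⟨0,[(2,0)]⟩,⟨1,[(21,0),(2,1),(16,0)]⟩⟩,[.o ⟨false,0,⟨0,[(11,0)]⟩,⟨3,[(21,0),(0,0),(16,3),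
  (1,1)]⟩⟩,.o ⟨false,1,⟨5,[(3,1),(12,1),(4,0),(0,0),(3,1),(7,1)]⟩,⟨0,[(39,0)]⟩⟩,.a ⟨true,0,⟨0,[(24,
  0)]⟩,⟨1,[(23,0),(8,0),(0,0)]⟩⟩ ⟨false,1,⟨1,[(21,0),(19,0)]⟩,⟨3,[(1,1),(27,0),(0,0)]⟩⟩ ⟨true,0,⟨1,
  [(11,0),(11,0),(14,0)]⟩,⟨0,[(24,0),(14,0)]⟩⟩,.o ⟨false,0,⟨0,[(18,0),(5,0),(4,0)]⟩,⟨7,[(21,0),(0,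
  0),(0,3),(10,1),(5,3)]⟩⟩]⟩) (.Q [0,-1,0,1,0,0,0,0,1,1,0,-1] (.p false [0,0,0,1] [1] (⟨0,[(24,0)]⟩,
  ⟨1,[(23,0),(8,0),(0,0)]⟩) .k 1 (⟨0,[]⟩,⟨0,[]⟩) .k .k) (.R ⟨1,false,false,false,[1,0,0,-1],[0,-1,
  1],[0,0,0,0,0,0,0,0,-1],(⟨1,[(24,0),(8,0),(0,0)]⟩,⟨0,[(25,0)]⟩),(⟨0,[(10,0)]⟩,⟨0,[(33,0),(3,0)]⟩),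
  ⟨1,[(10,0),(5,0),(7,0)]⟩,.k,.k,(.r (-1) ⟨3,[(6,1),(15,0),(19,0)]⟩ ⟨0,[(8,0),(29,0)]⟩),(.r (-1)
  ⟨15,[(1,7),(18,3),(1,6),(0,2),(5,11),(0,11),(11,1)]⟩ ⟨11,[(2,5),(1,3),(0,0),(1,0),(1,3),(24,1),(1,
  0)]⟩),.k,.k,⟨false,1,⟨3,[(1,1),(18,2),(1,0),(6,0),(0,0),(13,0)]⟩,⟨11,[(2,5),(1,3),(0,0),(1,0),(1,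
  3),(24,1),(1,0)]⟩⟩,⟨true,0,⟨1,[(24,0),(5,1),(2,0),(0,0)]⟩,⟨0,[(19,0),(5,0)]⟩⟩,⟨false,1,⟨3,[(22,0),
  (0,0),(18,1)]⟩,⟨0,[]⟩⟩,⟨false,0,⟨0,[(0,0),(3,0)]⟩,⟨3,[(1,1),(18,1),(0,0),(0,0),(2,3),(0,0),(2,0),
  (5,0)]⟩⟩,⟨true,0,⟨0,[(40,0)]⟩,⟨0,[(39,0)]⟩⟩,⟨false,0,⟨1,[(0,1),(3,0),(9,0)]⟩,⟨1,[(22,0),(2,1),(0,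
  1),(15,0)]⟩⟩,[.o ⟨false,0,⟨0,[(11,0)]⟩,⟨3,[(1,1),(18,1),(0,0),(1,0),(2,0),(2,0),(5,0)]⟩⟩,.o
  ⟨false,1,⟨3,[(4,1),(9,1),(7,0),(0,0),(18,1)]⟩,⟨0,[(26,0),(13,0)]⟩⟩,.a ⟨true,0,⟨0,[(25,0)]⟩,⟨1,
  [(24,0),(8,0),(0,0)]⟩⟩ ⟨false,1,⟨1,[(22,0),(19,0)]⟩,⟨3,[(2,1),(27,0),(0,0)]⟩⟩ ⟨true,0,⟨1,[(4,0),
  (9,0),(9,0),(8,0),(0,0)]⟩,⟨0,[(25,0),(0,0),(13,0)]⟩⟩,.o ⟨false,0,⟨0,[(19,0),(5,0),(4,0)]⟩,⟨7,[(22,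
  0),(0,0),(0,3),(10,1),(5,3)]⟩⟩]⟩) (.R ⟨1,false,false,true,[1,0,0,-1],[1,-1],[0,0,0,0,0,0,0,0,-1],
  (⟨1,[(24,0),(8,0),(0,0)]⟩,⟨0,[(25,0)]⟩),(⟨0,[(36,0)]⟩,⟨0,[(37,0)]⟩),⟨1,[(10,0),(5,0),(7,0)]⟩,.k,
  .k,(.r (-1) ⟨3,[(6,1),(15,0),(19,0)]⟩ ⟨0,[(8,0),(29,0)]⟩),(.r 0 ⟨0,[(1,0),(37,0)]⟩ ⟨23,[(2,2),(1,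
  0),(10,6),(1,7),(5,8),(7,0)]⟩),.k,.k,⟨false,1,⟨7,[(1,3),(20,2),(0,0),(17,1),(0,1)]⟩,⟨1,[(0,1),(1,
  1),(21,0),(8,0),(0,0)]⟩⟩,⟨true,0,⟨1,[(24,0),(2,0),(2,0)]⟩,⟨0,[(25,0)]⟩⟩,⟨false,1,⟨3,[(22,0),(0,0),
  (18,1)]⟩,⟨0,[]⟩⟩,⟨false,0,⟨1,[(2,0),(1,0),(19,0),(1,0),(11,0)]⟩,⟨7,[(1,3),(20,2),(0,0),(1,7),(15,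
  1),(0,1)]⟩⟩,⟨true,0,⟨0,[(40,0)]⟩,⟨0,[(39,0)]⟩⟩,⟨false,0,⟨0,[(3,0)]⟩,⟨1,[(22,0),(2,1),(16,0)]⟩⟩,
  [.o ⟨false,0,⟨0,[(12,0)]⟩,⟨7,[(1,3),(20,0),(0,2),(17,1),(0,1)]⟩⟩,.o ⟨false,1,⟨5,[(4,1),(12,1),(4,
  0),(0,0),(3,1),(7,1)]⟩,⟨0,[(40,0)]⟩⟩,.a ⟨true,0,⟨0,[(25,0)]⟩,⟨1,[(24,0),(8,0),(0,0)]⟩⟩ ⟨false,1,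
  ⟨1,[(22,0),(19,0)]⟩,⟨3,[(2,1),(27,0),(0,0)]⟩⟩ ⟨true,0,⟨1,[(12,0),(11,0),(14,0)]⟩,⟨0,[(25,0),(14,
  0)]⟩⟩,.o ⟨false,0,⟨6,[(0,3),(0,1),(0,2),(22,2),(1,2),(2,2),(7,1)]⟩,⟨7,[(22,0),(0,0),(0,3),(10,1),
  (5,3)]⟩⟩]⟩))))))))

theorem ok102 : chk (cU (-1) false 2) t102 r59 = true := by decide +kernel

noncomputable def t111 : Tre :=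
  (.I [1,0,1,1,-1,0,0,1] (.N [0,1,1] 1 ⟨0,[(0,0)]⟩ ⟨0,[(3,0)]⟩ .k) (.Q [0,0,0,0,0,0,1,1,0,1,-1] (.p
  false [0,0,1] [1] (⟨0,[(20,0)]⟩,⟨0,[(19,0)]⟩) .k 1 (⟨0,[]⟩,⟨0,[]⟩) .k .k) (.Q [0,0,0,0,0,0,2,2,0,
  1,-2] (.p false [0,0,1] [1,0,-1] (⟨0,[(21,0)]⟩,⟨0,[(20,0)]⟩) .k 2 (⟨0,[(20,0)]⟩,⟨0,[(21,0)]⟩) .k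
  (.r 0 ⟨0,[(19,1)]⟩ ⟨5,[(1,7),(0,3),(6,0),(0,0)]⟩)) (.Q [0,-1,2,1,-1,0,-1,0,0,0,1] (.p true [0,0,
  1] [] (⟨0,[(22,0)]⟩,⟨0,[(21,0)]⟩) .k 0 (⟨0,[]⟩,⟨0,[]⟩) .k .k) (.I [1,0,-1,-2,1] (.Q [0,-1,0,1,0,0,
  0,0,0,1] (.pp false [-1,1]) (.R ⟨2,false,false,true,[0,1],[1,-1],[1,1,1],(⟨0,[]⟩,⟨0,[]⟩),(⟨0,[(27,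
  0)]⟩,⟨0,[(28,0)]⟩),⟨0,[]⟩,.k,.k,.k,(.r 1 ⟨0,[(6,0),(16,0)]⟩ ⟨3,[(1,3),(11,0),(0,0),(17,1)]⟩),.k,
  .k,⟨true,(-1),⟨1,[(2,0),(3,0),(2,0)]⟩,⟨7,[(1,3),(11,0),(0,0),(17,1)]⟩⟩,⟨false,0,⟨0,[(10,0),(10,
  0)]⟩,⟨0,[(0,0),(29,0),(1,0)]⟩⟩,⟨true,0,⟨0,[(30,0)]⟩,⟨0,[(31,0)]⟩⟩,⟨false,1,⟨0,[(1,0),(8,0),(10,
  0)]⟩,⟨0,[(0,0),(30,0)]⟩⟩,⟨false,0,⟨0,[]⟩,⟨3,[(13,0),(0,0),(18,1)]⟩⟩,⟨false,1,⟨15,[(1,7),(11,0),(0,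
  0),(3,3),(2,3),(4,5)]⟩,⟨0,[(0,0)]⟩⟩,[.a ⟨true,0,⟨0,[(30,0)]⟩,⟨0,[(0,0)]⟩⟩ ⟨false,0,⟨0,[(35,0)]⟩,
  ⟨1,[(32,0),(0,0)]⟩⟩ ⟨true,0,⟨0,[(10,0),(10,0),(8,0)]⟩,⟨0,[(0,0)]⟩⟩,.o ⟨false,1,⟨15,[(1,7),(11,0),
  (0,0),(3,3),(2,3),(4,5)]⟩,⟨0,[(31,0)]⟩⟩,.o ⟨false,1,⟨3,[(13,0),(0,0),(17,1)]⟩,⟨0,[(10,0),(10,
  0)]⟩⟩,.e ⟨false,0,⟨0,[]⟩,⟨3,[(13,0),(0,0),(18,1)]⟩⟩ ⟨false,1,⟨15,[(1,7),(11,0),(0,0),(3,3),(2,3),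
  (4,5)]⟩,⟨0,[(0,0)]⟩⟩]⟩) (.Q [0,-1,0,2,0,0,0,0,0,1] (.pp false [-1,1]) (.R ⟨2,true,false,true,[0,
  1],[1,-1],[1,1,1],(⟨0,[]⟩,⟨0,[]⟩),(⟨0,[(28,0)]⟩,⟨0,[(29,0)]⟩),⟨0,[]⟩,.k,.k,.k,(.r 1 ⟨0,[(7,0),(16,
  0)]⟩ ⟨3,[(2,3),(11,0),(0,0),(17,1)]⟩),.k,.k,⟨true,(-1),⟨1,[(3,0),(3,0),(2,0)]⟩,⟨7,[(2,3),(11,0),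
  (0,0),(17,1)]⟩⟩,⟨false,0,⟨2,[(1,0),(1,0),(18,0),(4,0)]⟩,⟨0,[(25,0),(0,0),(6,0)]⟩⟩,⟨true,0,⟨0,[(31,
  0)]⟩,⟨0,[(32,0)]⟩⟩,⟨false,1,⟨4,[(1,1),(0,3),(16,0),(2,0),(4,0),(2,1)]⟩,⟨0,[(0,0)]⟩⟩,⟨false,0,⟨0,
  []⟩,⟨3,[(14,0),(0,0),(18,1)]⟩⟩,⟨true,0,⟨0,[(1,0)]⟩,⟨1,[(0,0),(4,0),(15,0)]⟩⟩,[]⟩) (.Q [0,0,0,0,0,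
  0,-1,-1,0,0,1] (.p true [0,0,1] [] (⟨0,[(26,0)]⟩,⟨0,[(25,0)]⟩) .k 0 (⟨0,[]⟩,⟨0,[]⟩) .k .k) (.R ⟨2,
  false,false,false,[0,1],[0,0,1],[1,1,1],(⟨0,[]⟩,⟨0,[]⟩),(⟨0,[(27,0)]⟩,⟨0,[(26,0)]⟩),⟨0,[]⟩,.k,.k,
  .k,.k,.k,.k,⟨false,0,⟨0,[(1,0),(6,0),(17,0),(0,0),(6,0)]⟩,⟨1,[(25,1),(8,0),(0,0)]⟩⟩,⟨true,0,⟨0,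
  [(23,0)]⟩,⟨1,[(14,0),(11,0),(0,0)]⟩⟩,⟨true,0,⟨0,[(32,0)]⟩,⟨0,[(33,0)]⟩⟩,⟨false,1,⟨11,[(1,1),(1,3),
  (1,5),(14,1),(2,1),(4,0),(6,6)]⟩,⟨0,[(0,0),(32,0)]⟩⟩,⟨false,0,⟨0,[]⟩,⟨3,[(15,0),(0,0),(18,1)]⟩⟩,
  ⟨false,1,⟨7,[(5,3),(9,0),(0,0),(11,1),(6,3)]⟩,⟨0,[(0,0)]⟩⟩,[.a ⟨true,0,⟨0,[(6,0)]⟩,⟨0,[(0,0)]⟩⟩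
  ⟨false,0,⟨0,[(37,0)]⟩,⟨1,[(34,0),(0,0)]⟩⟩ ⟨true,0,⟨1,[(5,0),(14,0),(2,0)]⟩,⟨0,[(0,0)]⟩⟩,.o ⟨false,
  1,⟨7,[(5,3),(9,0),(0,0),(11,1),(6,3)]⟩,⟨0,[(19,0)]⟩⟩,.o ⟨false,1,⟨3,[(15,0),(0,0),(17,1)]⟩,⟨2,[(2,
  0),(1,0),(18,0),(4,0)]⟩⟩,.e ⟨false,0,⟨0,[]⟩,⟨3,[(15,0),(0,0),(18,1)]⟩⟩ ⟨false,1,⟨7,[(5,3),(9,0),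
  (0,0),(11,1),(6,3)]⟩,⟨0,[(0,0)]⟩⟩]⟩) (.R ⟨2,true,false,false,[0,1],[0,0,1],[1,1,1],(⟨0,[]⟩,⟨0,
  []⟩),(⟨0,[(27,0)]⟩,⟨0,[(26,0)]⟩),⟨0,[]⟩,.k,.k,.k,.k,.k,.k,⟨false,0,⟨0,[(1,0),(6,0),(17,0),(0,0),
  (6,0)]⟩,⟨1,[(25,1),(8,0),(0,0)]⟩⟩,⟨true,0,⟨0,[(23,0)]⟩,⟨1,[(14,0),(11,0),(0,0)]⟩⟩,⟨true,0,⟨0,[(32,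
  0)]⟩,⟨0,[(33,0)]⟩⟩,⟨false,1,⟨11,[(1,1),(1,3),(1,5),(14,1),(2,1),(4,0),(6,6)]⟩,⟨0,[(1,0),(2,0),(3,
  0),(17,0),(0,0),(6,1)]⟩⟩,⟨false,0,⟨0,[]⟩,⟨3,[(15,0),(0,0),(18,1)]⟩⟩,⟨true,0,⟨0,[(0,0)]⟩,⟨0,[(22,
  0)]⟩⟩,[]⟩)))) (.Q [0,0,0,0,0,1,0,0,0,0,-1] (.ed true [1,-1,1] .k) (.Q [0,-1,0,1,0,0,1,1,0,1,-1]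
  (.p false [0,0,1] [1] (⟨0,[(25,0)]⟩,⟨0,[(24,0)]⟩) .k 1 (⟨0,[]⟩,⟨0,[]⟩) .k .k) (.Q [0,-1,0,1,0,0,0,
  0,0,1] (.pp false [-1,1]) (.R ⟨0,false,false,false,[0,0,1],[0,1],[1],(⟨0,[(27,0)]⟩,⟨0,[(26,0)]⟩),
  (⟨0,[(30,0)]⟩,⟨0,[(29,0)]⟩),⟨0,[(2,0)]⟩,.k,.k,.k,.k,.k,.k,⟨true,1,⟨0,[(7,0),(17,0)]⟩,⟨1,[(4,0),(3,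
  0),(2,0)]⟩⟩,⟨false,1,⟨1,[(0,0),(13,0),(17,0),(1,1)]⟩,⟨0,[(23,0)]⟩⟩,⟨false,1,⟨11,[(7,7),(0,3),(6,
  0),(0,0),(18,5)]⟩,⟨0,[(25,0)]⟩⟩,⟨true,0,⟨0,[(0,0),(18,0)]⟩,⟨0,[(11,0)]⟩⟩,⟨false,0,⟨0,[]⟩,⟨0,[]⟩⟩,
  ⟨false,0,⟨0,[]⟩,⟨0,[]⟩⟩,[.o ⟨false,0,⟨0,[(33,0)]⟩,⟨1,[(28,0),(3,1),(2,0)]⟩⟩,.a ⟨true,0,⟨0,[(0,
  0)]⟩,⟨0,[(32,0)]⟩⟩ ⟨false,1,⟨1,[(34,0),(0,0)]⟩,⟨0,[(37,0)]⟩⟩ ⟨true,0,⟨0,[(0,0),(11,0)]⟩,⟨0,[(23,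
  0),(8,0)]⟩⟩,.o ⟨false,1,⟨15,[(5,3),(7,7),(1,2),(0,2),(6,7),(4,1)]⟩,⟨0,[(12,0)]⟩⟩,.o ⟨false,0,⟨0,
  [(23,0)]⟩,⟨7,[(14,3),(0,0),(0,0),(11,1),(5,3)]⟩⟩]⟩) (.R ⟨2,true,false,false,[0,1],[0,0,1],[1,1,1],
  (⟨0,[]⟩,⟨0,[]⟩),(⟨0,[(27,0)]⟩,⟨0,[(26,0)]⟩),⟨0,[]⟩,.k,.k,.k,.k,.k,.k,⟨false,0,⟨0,[(3,0),(3,0),(24,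
  0)]⟩,⟨1,[(25,1),(8,0),(0,0)]⟩⟩,⟨true,0,⟨0,[(23,0)]⟩,⟨1,[(14,0),(11,0),(0,0)]⟩⟩,⟨true,0,⟨0,[(32,
  0)]⟩,⟨0,[(33,0)]⟩⟩,⟨false,1,⟨0,[(11,0),(23,0)]⟩,⟨1,[(3,0),(0,0),(2,0),(14,0),(11,0)]⟩⟩,⟨false,0,
  ⟨0,[]⟩,⟨3,[(15,0),(0,0),(18,1)]⟩⟩,⟨true,0,⟨0,[(0,0),(0,0)]⟩,⟨0,[(22,0)]⟩⟩,[]⟩)) (.Q [0,-1,0,1,0,0,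
  -1,-1,0,1,1] (.p true [1,-1,1] [] (⟨0,[(26,0),(1,0)]⟩,⟨0,[(1,0)]⟩) .k 0 (⟨0,[]⟩,⟨0,[]⟩) .k .k)
  (.K ⟨1,[0,1,-1],0,0,(⟨0,[(2,0)]⟩,⟨0,[(27,0),(1,0)]⟩),.k,.k,(.r 1 ⟨0,[(1,0),(1,1),(0,0),(0,0),(1,
  1)]⟩ ⟨0,[(7,1),(17,2)]⟩),.k,.k,[⟨1,[(23,2),(0,0)]⟩,⟨3,[(0,0),(5,0),(7,1),(17,0)]⟩,⟨0,[(11,0)]⟩,⟨0,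
  [(0,0)]⟩]⟩) (.R ⟨1,true,false,false,[1,0,-1],[0,1],[0,0,1,1],(⟨0,[(26,0)]⟩,⟨0,[(27,0)]⟩),(⟨0,[(30,
  0)]⟩,⟨0,[(29,0)]⟩),⟨0,[(9,0)]⟩,.k,.k,.k,.k,(.r (-2) ⟨0,[(7,1),(17,0)]⟩ ⟨1,[(3,1),(1,0),(14,0),(3,
  0)]⟩),.k,⟨false,1,⟨3,[(15,0),(0,0),(17,1)]⟩,⟨0,[]⟩⟩,⟨true,1,⟨0,[(6,0),(6,0)]⟩,⟨1,[(0,0),(0,0),(2,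
  1)]⟩⟩,⟨false,0,⟨23,[(3,7),(0,7),(0,3),(9,2),(0,2),(8,15),(2,1),(6,7)]⟩,⟨0,[(10,0)]⟩⟩,⟨true,0,⟨0,
  [(6,0),(26,0)]⟩,⟨0,[(1,0)]⟩⟩,⟨true,(-1),⟨0,[(3,0),(21,0)]⟩,⟨0,[(7,0),(24,0)]⟩⟩,⟨false,0,⟨1,[(3,1),
  (2,1),(27,0),(0,0)]⟩,⟨0,[(1,0),(30,0),(2,0)]⟩⟩,[]⟩))) (.R ⟨2,true,false,true,[0,1],[1,1,-1],[0,0,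
  1,1],(⟨0,[]⟩,⟨0,[]⟩),(⟨0,[(24,0),(3,0)]⟩,⟨0,[(0,0)]⟩),⟨0,[]⟩,.k,.k,.k,.k,.k,.k,⟨false,1,⟨1,[(23,
  1),(8,0),(0,0)]⟩,⟨0,[(1,0),(3,0),(24,0)]⟩⟩,⟨true,0,⟨0,[(10,0)]⟩,⟨0,[(21,0),(2,0),(0,0)]⟩⟩,⟨false,
  1,⟨3,[(13,0),(0,0),(18,1)]⟩,⟨0,[]⟩⟩,⟨true,0,⟨0,[(17,0)]⟩,⟨0,[(4,0)]⟩⟩,⟨true,0,⟨0,[(31,0)]⟩,⟨0,
  [(30,0)]⟩⟩,⟨false,0,⟨0,[(1,0),(3,0),(4,0)]⟩,⟨0,[(4,0),(25,0),(2,0)]⟩⟩,[]⟩))) (.Q [0,0,0,0,0,0,-1,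
  -1,0,0,1] (.p true [0,0,1] [] (⟨0,[(23,0)]⟩,⟨0,[(22,0)]⟩) .k 0 (⟨0,[]⟩,⟨0,[]⟩) .k .k) (.R ⟨2,
  false,false,false,[0,1],[0,0,1],[1,1,1],(⟨0,[]⟩,⟨0,[]⟩),(⟨0,[(24,0)]⟩,⟨0,[(23,0)]⟩),⟨0,[]⟩,.k,.k,
  .k,.k,.k,.k,⟨false,0,⟨1,[(0,0),(0,0),(3,0),(23,0)]⟩,⟨1,[(22,1),(8,0),(0,0)]⟩⟩,⟨true,0,⟨0,[(20,
  0)]⟩,⟨1,[(11,0),(11,0),(0,0)]⟩⟩,⟨true,0,⟨0,[(29,0)]⟩,⟨0,[(30,0)]⟩⟩,⟨false,1,⟨0,[(8,0),(23,0)]⟩,⟨0,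
  [(0,0),(29,0)]⟩⟩,⟨false,0,⟨0,[]⟩,⟨3,[(12,0),(0,0),(18,1)]⟩⟩,⟨false,1,⟨7,[(2,3),(9,0),(0,0),(11,1),
  (6,3)]⟩,⟨0,[(0,0)]⟩⟩,[.a ⟨true,0,⟨0,[(3,0)]⟩,⟨0,[(0,0)]⟩⟩ ⟨false,0,⟨0,[(34,0)]⟩,⟨1,[(31,0),(0,
  0)]⟩⟩ ⟨true,0,⟨1,[(2,0),(14,0),(2,0)]⟩,⟨0,[(0,0)]⟩⟩,.o ⟨false,1,⟨7,[(2,3),(9,0),(0,0),(11,1),(6,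
  3)]⟩,⟨0,[(16,0)]⟩⟩,.o ⟨false,1,⟨3,[(12,0),(0,0),(17,1)]⟩,⟨0,[(9,0),(10,0)]⟩⟩,.e ⟨false,0,⟨0,[]⟩,
  ⟨3,[(12,0),(0,0),(18,1)]⟩⟩ ⟨false,1,⟨7,[(2,3),(9,0),(0,0),(11,1),(6,3)]⟩,⟨0,[(0,0)]⟩⟩]⟩) (.I [1,0,
  0,1,0,0,0,-1] (.R ⟨2,true,false,false,[0,1],[0,0,1],[1,1,1],(⟨0,[]⟩,⟨0,[]⟩),(⟨0,[(25,0)]⟩,⟨0,[(24,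
  0)]⟩),⟨0,[]⟩,.k,.k,.k,.k,.k,.k,⟨false,0,⟨0,[(0,0),(29,0)]⟩,⟨1,[(23,1),(8,0),(0,0)]⟩⟩,⟨true,0,⟨0,
  [(21,0)]⟩,⟨1,[(12,0),(11,0),(0,0)]⟩⟩,⟨true,0,⟨0,[(30,0)]⟩,⟨0,[(31,0)]⟩⟩,⟨false,1,⟨0,[(9,0),(23,
  0)]⟩,⟨1,[(0,1),(11,0),(11,0),(0,0)]⟩⟩,⟨false,0,⟨0,[]⟩,⟨3,[(13,0),(0,0),(18,1)]⟩⟩,⟨true,0,⟨0,[(1,
  0)]⟩,⟨0,[(20,0)]⟩⟩,[]⟩) (.Q [0,0,0,1,0,0,-1,-1,0,0,1] (.p true [0,0,1] [] (⟨0,[(25,0)]⟩,⟨0,[(24,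
  0)]⟩) .k 0 (⟨0,[]⟩,⟨0,[]⟩) .k .k) (.R ⟨2,true,false,false,[0,1],[0,0,1],[0,1,1,1],(⟨0,[]⟩,⟨0,[]⟩),
  (⟨0,[(26,0)]⟩,⟨0,[(25,0)]⟩),⟨0,[]⟩,.k,.k,.k,.k,.k,.k,⟨false,0,⟨1,[(3,0),(3,0),(13,0),(10,0)]⟩,⟨1,
  [(1,1),(31,0),(0,0)]⟩⟩,⟨true,0,⟨0,[(22,0)]⟩,⟨1,[(13,0),(11,0),(0,0)]⟩⟩,⟨true,0,⟨0,[(36,0)]⟩,⟨0,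
  []⟩⟩,⟨false,1,⟨0,[(10,0),(23,0)]⟩,⟨0,[(0,0)]⟩⟩,⟨false,0,⟨0,[(32,0)]⟩,⟨0,[(31,0),(2,0)]⟩⟩,⟨true,0,
  ⟨0,[(2,0)]⟩,⟨0,[(21,0)]⟩⟩,[]⟩) (.Q [0,0,0,0,0,-1,0,0,0,0,1] (.ed false [1,-1,1] .k) (.K ⟨2,[1,1,
  -1],0,0,(⟨0,[(26,0),(3,0)]⟩,⟨0,[(0,0)]⟩),.k,.k,(.x (-1) ⟨0,[(12,0),(13,0),(3,1),(3,0)]⟩ ⟨1,[(0,2),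
  (8,0),(10,0),(2,2)]⟩),(.r 0 ⟨0,[(7,0),(0,0)]⟩ ⟨3,[(2,3),(12,0),(0,0),(8,3),(8,1)]⟩),.k,[⟨0,[(1,0),
  (4,0),(0,0),(0,0)]⟩,⟨0,[(12,0)]⟩,⟨0,[(6,0),(25,0)]⟩,⟨0,[(19,0),(13,0)]⟩]⟩) (.K ⟨2,[0,1,-1],0,0,
  (⟨0,[(0,0)]⟩,⟨0,[(27,0),(1,0)]⟩),.k,.k,(.x (-1) ⟨1,[(0,0),(13,0),(11,0),(3,2),(3,1)]⟩ ⟨2,[(1,4),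
  (5,0),(0,2),(3,0),(6,0),(7,2),(0,1),(0,5),(1,0)]⟩),(.r 0 ⟨0,[(7,0),(0,0)]⟩ ⟨3,[(2,3),(12,0),(0,0),
  (8,3),(8,1)]⟩),.k,[⟨3,[(1,4),(2,1),(2,0),(0,3),(14,0),(11,0)]⟩,⟨1,[(14,0),(11,0),(0,0)]⟩,⟨0,[(11,
  0)]⟩,⟨0,[(22,0),(10,0)]⟩]⟩)))))) (.I [1,1,0,0,0,0,0,-1] (.R ⟨2,false,false,false,[0,1],[0,0,1],[1,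
  1,1],(⟨0,[]⟩,⟨0,[]⟩),(⟨0,[(23,0)]⟩,⟨0,[(22,0)]⟩),⟨0,[]⟩,.k,.k,.k,.k,.k,.k,⟨false,0,⟨0,[(0,0)]⟩,⟨1,
  [(21,1),(8,0),(0,0)]⟩⟩,⟨true,0,⟨0,[(19,0)]⟩,⟨1,[(10,0),(11,0),(0,0)]⟩⟩,⟨true,0,⟨0,[(28,0)]⟩,⟨0,
  [(29,0)]⟩⟩,⟨false,1,⟨0,[(7,0),(23,0)]⟩,⟨1,[(1,0),(20,0),(0,0),(5,1)]⟩⟩,⟨false,0,⟨0,[]⟩,⟨3,[(11,0),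
  (0,0),(18,1)]⟩⟩,⟨false,1,⟨0,[(17,0),(13,0)]⟩,⟨1,[(1,0),(20,0),(0,0)]⟩⟩,[.a ⟨true,0,⟨0,[(2,0)]⟩,⟨1,
  [(1,0),(20,0),(0,0)]⟩⟩ ⟨false,0,⟨0,[(33,0)]⟩,⟨1,[(30,0),(0,0)]⟩⟩ ⟨true,0,⟨0,[(19,0),(1,0)]⟩,⟨1,
  [(1,0),(20,0),(0,0)]⟩⟩,.o ⟨false,1,⟨0,[(17,0),(13,0)]⟩,⟨0,[(15,0)]⟩⟩,.o ⟨false,1,⟨3,[(11,0),(0,0),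
  (17,1)]⟩,⟨0,[(8,0),(10,0)]⟩⟩,.e ⟨false,0,⟨0,[]⟩,⟨3,[(11,0),(0,0),(18,1)]⟩⟩ ⟨false,1,⟨0,[(17,0),
  (13,0)]⟩,⟨1,[(1,0),(20,0),(0,0)]⟩⟩]⟩) (.R ⟨2,false,false,false,[0,1],[0,0,1],[1,0,1,0,0,0,0,1],
  (⟨0,[]⟩,⟨0,[]⟩),(⟨0,[(23,0)]⟩,⟨0,[(22,0)]⟩),⟨0,[]⟩,.k,.k,.k,.k,.k,.k,⟨false,0,⟨0,[]⟩,⟨3,[(11,0),
  (0,0),(17,1)]⟩⟩,⟨true,0,⟨0,[(19,0)]⟩,⟨1,[(10,0),(11,0),(0,0)]⟩⟩,⟨true,0,⟨0,[(0,0),(27,0)]⟩,⟨0,[(4,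
  0),(23,0),(1,0)]⟩⟩,⟨false,1,⟨0,[(7,0),(23,0)]⟩,⟨1,[(1,0),(20,0),(0,0),(5,1)]⟩⟩,⟨false,0,⟨0,[(0,
  0)]⟩,⟨2,[(3,1),(0,0),(6,0),(0,0)]⟩⟩,⟨false,1,⟨0,[(17,0),(13,0)]⟩,⟨1,[(1,0),(20,0),(0,0)]⟩⟩,[.a
  ⟨true,0,⟨0,[(2,0)]⟩,⟨1,[(1,0),(20,0),(0,0)]⟩⟩ ⟨false,0,⟨0,[(21,0)]⟩,⟨0,[(9,0)]⟩⟩ ⟨true,0,⟨0,[(19,
  0),(1,0)]⟩,⟨1,[(1,0),(20,0),(0,0)]⟩⟩,.o ⟨false,1,⟨0,[(17,0),(13,0)]⟩,⟨0,[(15,0)]⟩⟩,.o ⟨false,1,⟨3,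
  [(11,0),(0,0),(17,1)]⟩,⟨0,[(8,0),(10,0)]⟩⟩,.e ⟨false,0,⟨0,[(0,0)]⟩,⟨2,[(3,1),(0,0),(6,0),(0,0)]⟩⟩
  ⟨false,1,⟨0,[(17,0),(13,0)]⟩,⟨1,[(1,0),(20,0),(0,0)]⟩⟩]⟩))) (.Q [0,0,0,1,0,0,1,1,0,1,-1] (.p
  false [0,0,1] [1] (⟨0,[(21,0)]⟩,⟨0,[(20,0)]⟩) .k 1 (⟨0,[]⟩,⟨0,[]⟩) .k .k) (.Q [0,0,-1,0,1,0,2,0,0,
  1,-2] (.p false [0,0,1] [1,0,-1] (⟨0,[(22,0)]⟩,⟨0,[(21,0)]⟩) .k 2 (⟨0,[(21,0)]⟩,⟨0,[(22,0)]⟩) .k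
  (.r 0 ⟨0,[(20,1)]⟩ ⟨5,[(2,7),(0,3),(6,0),(0,0)]⟩)) (.I [0,1,1,1,-1,0,0,1] (.R ⟨2,true,false,false,
  [0,1],[1,0,-1],[0,1,1,1],(⟨0,[]⟩,⟨0,[]⟩),(⟨0,[(23,0)]⟩,⟨0,[(24,0)]⟩),⟨0,[]⟩,.k,.k,.k,.k,.k,.k,
  ⟨true,(-1),⟨0,[(0,0)]⟩,⟨0,[(4,0),(23,0)]⟩⟩,⟨false,0,⟨0,[(9,0)]⟩,⟨0,[(2,0),(1,0)]⟩⟩,⟨true,0,⟨0,
  [(34,0)]⟩,⟨0,[]⟩⟩,⟨false,1,⟨0,[(4,0),(4,0),(18,0)]⟩,⟨0,[(2,0)]⟩⟩,⟨false,0,⟨0,[(30,0)]⟩,⟨0,[(29,0),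
  (2,0)]⟩⟩,⟨true,0,⟨0,[(3,0)]⟩,⟨0,[(2,0),(26,0)]⟩⟩,[]⟩) (.Q [0,-1,0,2,0,0,0,0,0,1] (.pp false [-1,
  1]) (.R ⟨2,true,false,true,[0,1],[1,-1],[0,1,1,1],(⟨0,[]⟩,⟨0,[]⟩),(⟨0,[(27,0)]⟩,⟨0,[(28,0)]⟩),⟨0,
  []⟩,.k,.k,.k,(.r 1 ⟨0,[(6,0),(16,0)]⟩ ⟨0,[(5,1),(17,1)]⟩),.k,.k,⟨true,(-1),⟨0,[(6,0),(16,0)]⟩,⟨0,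
  [(1,0),(21,0),(6,0)]⟩⟩,⟨false,0,⟨0,[(10,0),(10,0)]⟩,⟨0,[(24,0),(0,0),(6,0)]⟩⟩,⟨true,0,⟨0,[(35,
  0)]⟩,⟨0,[]⟩⟩,⟨false,1,⟨0,[(1,0),(7,0),(8,0)]⟩,⟨0,[(0,0)]⟩⟩,⟨false,0,⟨0,[(31,0)]⟩,⟨0,[(30,0),(2,
  0)]⟩⟩,⟨true,0,⟨0,[(4,0),(4,0)]⟩,⟨2,[(0,0),(2,0),(16,0),(3,0),(0,0)]⟩⟩,[]⟩) (.R ⟨2,true,false,true,
  [0,1],[1,0,-1],[1,0,1],(⟨0,[]⟩,⟨0,[]⟩),(⟨0,[(24,0)]⟩,⟨0,[(25,0)]⟩),⟨0,[]⟩,.k,.k,.k,.k,.k,.k,⟨true,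
  0,⟨0,[(23,0),(5,0)]⟩,⟨0,[(0,0),(5,0),(17,0),(0,0),(6,0)]⟩⟩,⟨false,0,⟨0,[(10,0)]⟩,⟨0,[(3,0),(1,
  0)]⟩⟩,⟨false,1,⟨0,[(30,0),(2,0)]⟩,⟨0,[(31,0)]⟩⟩,⟨true,0,⟨1,[(0,0),(3,0),(15,0)]⟩,⟨0,[(3,0)]⟩⟩,
  ⟨true,0,⟨0,[]⟩,⟨0,[(35,0)]⟩⟩,⟨false,0,⟨0,[(4,0)]⟩,⟨0,[(3,0),(26,0),(2,0)]⟩⟩,[]⟩))) (.Q [0,-1,0,2,
  0,0,0,0,0,1] (.pp false [-1,1]) (.I [0,1,1,1,-1,0,0,1] (.R ⟨2,true,false,false,[0,1],[1,0,-1],[0,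
  1,1,1],(⟨0,[]⟩,⟨0,[]⟩),(⟨0,[(24,0)]⟩,⟨0,[(25,0)]⟩),⟨0,[]⟩,.k,.k,.k,.k,.k,.k,⟨true,(-1),⟨0,[(0,
  0)]⟩,⟨0,[(5,0),(23,0)]⟩⟩,⟨false,0,⟨0,[(10,0)]⟩,⟨0,[(3,0),(1,0)]⟩⟩,⟨true,0,⟨0,[(35,0)]⟩,⟨0,[]⟩⟩,
  ⟨false,1,⟨3,[(2,1),(2,3),(20,0),(2,1),(3,0)]⟩,⟨0,[(3,0)]⟩⟩,⟨false,0,⟨0,[(31,0)]⟩,⟨0,[(30,0),(2,
  0)]⟩⟩,⟨true,0,⟨0,[(4,0)]⟩,⟨0,[(3,0),(26,0)]⟩⟩,[]⟩) (.R ⟨2,true,false,true,[0,1],[1,-1],[0,1,1,1],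
  (⟨0,[]⟩,⟨0,[]⟩),(⟨0,[(27,0)]⟩,⟨0,[(28,0)]⟩),⟨0,[]⟩,.k,.k,.k,(.r 1 ⟨0,[(6,0),(16,0)]⟩ ⟨0,[(5,1),
  (17,1)]⟩),.k,.k,⟨true,(-1),⟨0,[(6,0),(16,0)]⟩,⟨0,[(0,0),(22,0),(6,0)]⟩⟩,⟨false,0,⟨2,[(2,0),(18,1),
  (4,0)]⟩,⟨0,[(24,0),(0,0),(6,0)]⟩⟩,⟨true,0,⟨0,[(35,0)]⟩,⟨0,[]⟩⟩,⟨false,1,⟨0,[(0,0),(8,0),(8,0)]⟩,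
  ⟨0,[(1,0)]⟩⟩,⟨false,0,⟨0,[(31,0)]⟩,⟨0,[(30,0),(2,0)]⟩⟩,⟨true,0,⟨0,[(4,0),(4,0)]⟩,⟨2,[(1,0),(1,0),
  (16,0),(3,0),(0,0)]⟩⟩,[]⟩)) (.R ⟨2,true,false,true,[0,1],[1,0,-1],[1,0,1],(⟨0,[]⟩,⟨0,[]⟩),(⟨0,
  [(23,0)]⟩,⟨0,[(24,0)]⟩),⟨0,[]⟩,.k,.k,.k,.k,.k,.k,⟨true,0,⟨0,[(22,0),(5,0)]⟩,⟨0,[(0,0),(4,0),(17,
  0),(0,0),(6,0)]⟩⟩,⟨false,0,⟨0,[(9,0)]⟩,⟨0,[(2,0),(1,0)]⟩⟩,⟨false,1,⟨0,[(29,0),(2,0)]⟩,⟨0,[(30,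
  0)]⟩⟩,⟨true,0,⟨1,[(0,0),(2,0),(15,0)]⟩,⟨0,[(2,0)]⟩⟩,⟨true,0,⟨0,[]⟩,⟨0,[(34,0)]⟩⟩,⟨false,0,⟨0,[(3,
  0)]⟩,⟨0,[(2,0),(26,0),(2,0)]⟩⟩,[]⟩))) (.Q [0,0,-1,0,1,0,2,0,0,1,-2] (.p false [0,0,1] [1,0,-1]
  (⟨0,[(22,0)]⟩,⟨0,[(21,0)]⟩) .k 2 (⟨0,[(21,0)]⟩,⟨0,[(22,0)]⟩) .k (.r 0 ⟨0,[(20,1)]⟩ ⟨5,[(2,7),(0,
  3),(6,0),(0,0)]⟩)) (.Q [0,0,2,0,-1,0,-1,0,0,-1,1] (.p true [0,0,1] [1] (⟨0,[(23,0)]⟩,⟨0,[(22,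
  0)]⟩) .k 1 (⟨0,[]⟩,⟨0,[]⟩) .k .k) (.K ⟨2,[1,-1,-1],(-1),0,(⟨0,[(6,0)]⟩,⟨0,[(24,0),(2,0)]⟩),.k,(.r
  (-2) ⟨0,[(4,1),(17,0)]⟩ ⟨0,[(5,0),(16,1)]⟩),.k,(.r (-1) ⟨2,[(1,1),(0,3),(1,0),(0,0),(17,1),(0,1),
  (6,0)]⟩ ⟨3,[(5,1),(6,0),(0,0),(8,9)]⟩),.k,[⟨0,[(1,0)]⟩,⟨0,[(0,0)]⟩,⟨0,[(18,0),(4,0),(0,0),(5,0)]⟩,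
  ⟨1,[(2,0),(13,0),(12,0)]⟩]⟩) (.R ⟨1,true,false,true,[1,0,-1],[0,1],[0,0,0,0,0,0,0,-1],(⟨0,[(23,
  0)]⟩,⟨0,[(24,0)]⟩),(⟨0,[(27,0)]⟩,⟨0,[(26,0)]⟩),⟨0,[(6,0)]⟩,.k,.k,.k,.k,(.r (-2) ⟨0,[(4,1),(17,
  0)]⟩ ⟨0,[(5,0),(16,1)]⟩),.k,⟨true,1,⟨0,[(0,0),(1,0),(25,0)]⟩,⟨0,[(5,0),(16,1),(6,0)]⟩⟩,⟨false,1,
  ⟨0,[(0,0)]⟩,⟨0,[(17,0)]⟩⟩,⟨false,1,⟨3,[(12,0),(0,0),(18,1)]⟩,⟨0,[]⟩⟩,⟨true,0,⟨1,[(0,0),(4,0),(12,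
  0),(3,1),(0,0),(0,0),(9,0)]⟩,⟨0,[(2,0)]⟩⟩,⟨true,0,⟨0,[(30,0)]⟩,⟨0,[(29,0)]⟩⟩,⟨false,0,⟨0,[(0,0),
  (4,0),(16,1)]⟩,⟨0,[(2,0),(26,0),(2,0)]⟩⟩,[]⟩)) (.Q [0,0,0,2,0,0,1,1,0,1,-1] (.p false [0,0,1] [1]
  (⟨0,[(23,0)]⟩,⟨0,[(22,0)]⟩) .k 1 (⟨0,[]⟩,⟨0,[]⟩) .k .k) (.I [0,1,-2,-1,1,0,0,-1] (.R ⟨1,true,
  false,false,[1,0,-1],[0,1],[0,1,0,0,0,0,0,-1],(⟨0,[(24,0)]⟩,⟨0,[(25,0)]⟩),(⟨0,[(28,0)]⟩,⟨0,[(27,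
  0)]⟩),⟨0,[(7,0)]⟩,.k,.k,.k,.k,(.r (-2) ⟨0,[(0,0),(29,0),(2,0)]⟩ ⟨0,[(6,0),(16,1)]⟩),.k,⟨false,1,
  ⟨0,[(0,0)]⟩,⟨7,[(1,3),(0,1),(20,3),(2,0),(2,5),(3,0)]⟩⟩,⟨true,1,⟨0,[(21,0),(2,0),(0,0),(6,0)]⟩,⟨0,
  [(2,0),(18,0)]⟩⟩,⟨true,0,⟨0,[(35,0)]⟩,⟨0,[]⟩⟩,⟨false,1,⟨5,[(1,3),(7,1),(3,0),(0,0),(9,1),(0,1),(7,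
  3)]⟩,⟨0,[(3,0)]⟩⟩,⟨false,0,⟨0,[(31,0)]⟩,⟨0,[(30,0),(2,0)]⟩⟩,⟨true,0,⟨0,[(1,0)]⟩,⟨0,[(3,0),(26,
  0)]⟩⟩,[]⟩) (.I [1,1,1,1,-1,0,0,1] (.R ⟨1,true,false,true,[1,0,-1],[0,1],[0,0,0,0,0,0,0,-1],(⟨0,
  [(25,0)]⟩,⟨0,[(26,0)]⟩),(⟨0,[(29,0)]⟩,⟨0,[(28,0)]⟩),⟨0,[(8,0)]⟩,.k,.k,.k,.k,(.r (-2) ⟨0,[(6,1),
  (17,0)]⟩ ⟨4,[(0,1),(0,1),(0,1),(4,0),(11,1)]⟩),.k,⟨false,2,⟨1,[(6,1),(26,0),(0,0)]⟩,⟨0,[(0,0)]⟩⟩,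
  ⟨true,1,⟨0,[(22,0),(2,0),(0,0),(6,0)]⟩,⟨0,[(3,0),(18,0)]⟩⟩,⟨false,1,⟨3,[(14,0),(0,0),(18,1)]⟩,⟨0,
  []⟩⟩,⟨true,0,⟨0,[(2,0),(28,0)]⟩,⟨0,[(4,0)]⟩⟩,⟨true,0,⟨0,[(32,0)]⟩,⟨0,[(31,0)]⟩⟩,⟨false,0,⟨0,[(2,
  0)]⟩,⟨0,[(4,0),(26,0),(2,0)]⟩⟩,[]⟩) (.Q [0,0,0,0,0,1,0,0,0,0,-1] (.ed true [1,-1,1] .k) (.Q [0,-1,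
  0,1,0,0,-1,-1,0,1,1] (.p true [1,-1,1] [] (⟨0,[(27,0),(1,0)]⟩,⟨0,[(0,0)]⟩) .k 0 (⟨0,[]⟩,⟨0,[]⟩)
  .k .k) (.K ⟨1,[0,1,-1],0,0,(⟨0,[(1,0)]⟩,⟨0,[(28,0),(1,0)]⟩),.k,.k,(.x (-1) ⟨1,[(1,0),(13,0),(11,
  0),(3,2),(3,1)]⟩ ⟨5,[(3,5),(2,9),(2,1),(12,5),(1,9),(3,5),(0,0),(0,11),(4,6)]⟩),.k,.k,[⟨1,[(24,2),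
  (0,0)]⟩,⟨2,[(0,0),(14,0),(10,0),(6,0)]⟩,⟨0,[(12,0)]⟩,⟨0,[(0,0)]⟩]⟩) (.I [0,1,1,2,-1,0,0,1] (.R ⟨1,
  true,false,true,[1,0,-1],[0,1],[1,0,0,-1,0,0,0,-1],(⟨0,[(28,0)]⟩,⟨0,[(29,0)]⟩),(⟨0,[(32,0)]⟩,⟨0,
  [(31,0)]⟩),⟨0,[(11,0)]⟩,.k,.k,.k,.k,(.r (-2) ⟨0,[(9,1),(17,0)]⟩ ⟨6,[(0,3),(3,3),(5,0),(6,0),(0,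
  0)]⟩),.k,⟨false,2,⟨0,[(3,0),(5,0),(17,0)]⟩,⟨0,[(0,0)]⟩⟩,⟨true,1,⟨2,[(3,0),(1,1),(3,1),(3,0),(14,
  0),(0,0)]⟩,⟨0,[(6,0),(18,0)]⟩⟩,⟨false,1,⟨0,[(34,0),(2,0)]⟩,⟨0,[(35,0)]⟩⟩,⟨true,0,⟨0,[(5,0),(28,
  0)]⟩,⟨0,[(7,0)]⟩⟩,⟨true,0,⟨0,[]⟩,⟨0,[(39,0)]⟩⟩,⟨false,0,⟨0,[(5,0)]⟩,⟨0,[(7,0),(26,0),(2,0)]⟩⟩,
  []⟩) (.R ⟨1,true,false,true,[1,0,-1],[0,0,1],[0,1,0,0,0,0,0,-1],(⟨0,[(28,0)]⟩,⟨0,[(29,0)]⟩),(⟨0,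
  [(29,0)]⟩,⟨0,[(28,0)]⟩),⟨0,[(11,0)]⟩,.k,.k,.k,.k,(.r (-1) ⟨0,[(0,0),(9,0),(23,0),(1,0)]⟩ ⟨9,[(4,
  1),(0,3),(11,0),(0,0),(3,3),(0,1),(2,1),(0,11)]⟩),.k,⟨false,1,⟨1,[(0,0),(8,0),(0,1),(23,0),(1,
  1)]⟩,⟨0,[(27,1)]⟩⟩,⟨true,1,⟨1,[(0,0),(4,1),(3,0),(15,1),(8,0)]⟩,⟨0,[(6,0)]⟩⟩,⟨true,0,⟨0,[(39,0)]⟩,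
  ⟨0,[]⟩⟩,⟨false,1,⟨5,[(5,3),(7,7),(3,0),(0,0),(9,1),(0,1),(7,3)]⟩,⟨0,[(0,0),(5,0),(3,0),(25,0)]⟩⟩,
  ⟨false,0,⟨0,[(35,0)]⟩,⟨11,[(0,3),(12,3),(3,0),(0,0),(7,3),(10,5)]⟩⟩,⟨true,0,⟨0,[(5,0),(7,0)]⟩,⟨2,
  [(0,0),(5,0),(0,2),(2,0),(13,0),(3,0),(0,0),(6,0)]⟩⟩,[]⟩))) (.R ⟨1,true,false,false,[1,-1],[0,1],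
  [0,0,-1,-1],(⟨0,[(29,0)]⟩,⟨0,[(30,0)]⟩),(⟨0,[(30,0)]⟩,⟨0,[(29,0)]⟩),⟨0,[(0,0),(8,0)]⟩,.k,.k,(.r
  (-2) ⟨0,[(7,1),(17,1)]⟩ ⟨7,[(2,1),(0,1),(0,0),(3,4),(11,0),(0,0),(15,0)]⟩),(.r (-2) ⟨0,[(7,1),(17,
  1)]⟩ ⟨7,[(2,1),(0,1),(0,0),(3,4),(11,0),(0,0),(15,0)]⟩),(.r (-2) ⟨1,[(1,2),(2,0),(6,1),(13,0),(0,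
  0),(0,0),(4,0),(1,1)]⟩ ⟨12,[(2,2),(0,5),(4,11),(6,0),(0,0),(3,5),(0,2),(2,2)]⟩),.k,⟨false,2,⟨0,
  [(1,0),(23,0),(6,0),(1,0)]⟩,⟨7,[(2,1),(0,1),(0,0),(3,4),(11,0),(0,0),(15,0)]⟩⟩,⟨true,1,⟨0,[(26,0),
  (0,0),(6,0)]⟩,⟨0,[(4,0),(18,1)]⟩⟩,⟨false,1,⟨3,[(15,0),(0,0),(18,1)]⟩,⟨0,[]⟩⟩,⟨true,0,⟨6,[(1,1),(1,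
  5),(0,1),(3,1),(13,1),(3,2),(0,2),(6,1)]⟩,⟨0,[(5,0),(5,0)]⟩⟩,⟨true,0,⟨0,[(33,0)]⟩,⟨0,[(32,0)]⟩⟩,
  ⟨false,0,⟨0,[(2,0),(5,0),(17,0),(0,0),(6,1)]⟩,⟨0,[(5,0),(5,0),(20,0),(2,0)]⟩⟩,[]⟩)))) (.Q [0,0,0,
  0,0,1,0,0,0,0,-1] (.ed true [1,-1,1] .k) (.Q [0,-1,0,1,0,0,-1,-1,0,1,1] (.p true [1,-1,1] [] (⟨0,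
  [(25,0),(1,0)]⟩,⟨0,[(0,0)]⟩) .k 0 (⟨0,[]⟩,⟨0,[]⟩) .k .k) (.R ⟨1,false,false,true,[1,0,-1],[1,-1,
  1],[1,1,0,-1,0,0,0,-1],(⟨0,[(25,0)]⟩,⟨0,[(26,0)]⟩),(⟨0,[(26,0),(1,0)]⟩,⟨0,[(1,0)]⟩),⟨0,[(8,0)]⟩,
  .k,.k,.k,(.r 0 ⟨0,[(6,0),(0,0)]⟩ ⟨0,[(6,0),(17,2)]⟩),.k,.k,⟨true,0,⟨0,[(2,0),(4,0),(14,0),(2,0),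
  (0,0),(6,0)]⟩,⟨0,[(24,1)]⟩⟩,⟨false,1,⟨0,[(22,1),(10,0)]⟩,⟨0,[(3,0),(21,0),(0,0),(6,0)]⟩⟩,⟨true,0,
  ⟨0,[(31,0)]⟩,⟨0,[(32,0)]⟩⟩,⟨false,1,⟨0,[(10,0),(9,0),(13,0)]⟩,⟨0,[(0,0),(4,0)]⟩⟩,⟨false,0,⟨0,[]⟩,
  ⟨3,[(14,0),(0,0),(18,1)]⟩⟩,⟨false,1,⟨0,[(20,1),(13,0)]⟩,⟨0,[(0,0),(3,0)]⟩⟩,[.a ⟨true,0,⟨0,[(10,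
  0)]⟩,⟨0,[(0,0)]⟩⟩ ⟨true,0,⟨0,[(2,0),(4,0),(2,0),(14,0),(0,0),(6,0)]⟩,⟨1,[(7,0),(16,2),(9,0)]⟩⟩
  ⟨false,1,⟨0,[(10,0),(11,0),(10,0)]⟩,⟨0,[(0,0),(10,0)]⟩⟩,.o ⟨false,1,⟨1,[(10,1),(16,0),(6,0)]⟩,⟨5,
  [(0,1),(6,1),(5,0),(4,0),(2,0),(11,1)]⟩⟩,.o ⟨false,0,⟨0,[(11,0)]⟩,⟨7,[(12,3),(1,0),(0,0),(4,3),(1,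
  3),(11,1)]⟩⟩,.o ⟨false,0,⟨0,[(19,0)]⟩,⟨0,[(22,0),(10,0)]⟩⟩]⟩) (.I [1,-1,1,1,0,0,0,0,-1] (.I [0,0,
  0,0,0,0,0,0,-1] (.Q [0,1,0,0,-1,0,0,0,-2,-1,0,2] (.p true [0,0,0,1] [1,0,0,-1] (⟨0,[(19,0)]⟩,⟨1,
  [(18,0),(8,0),(0,0)]⟩) .k 2 (⟨1,[(18,0),(8,0),(0,0)]⟩,⟨0,[(19,0)]⟩) .k .k) (.Q [0,0,0,0,0,1,0,0,0,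
  0,0,-1] (.p false [0,0,0,1] [] (⟨0,[(20,0)]⟩,⟨1,[(19,0),(8,0),(0,0)]⟩) .k 0 (⟨0,[]⟩,⟨0,[]⟩) .k
  .k) (.R ⟨0,false,false,true,[0,0,0,1],[1,-1],[1,0,0,0,0,0,0,0,1],(⟨0,[(21,0)]⟩,⟨1,[(20,0),(8,0),
  (0,0)]⟩),(⟨0,[(32,0)]⟩,⟨0,[(33,0)]⟩),⟨0,[(0,0)]⟩,.k,.k,(.x 0 ⟨14,[(4,3),(1,0),(4,2),(11,3),(2,0),
  (4,2),(0,14),(1,3)]⟩ ⟨3,[(18,0),(0,0),(13,3),(3,1)]⟩),(.r 0 ⟨1,[(11,0),(7,0),(8,0)]⟩ ⟨17,[(1,1),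
  (4,5),(7,5),(3,6),(1,1),(8,5),(0,5),(6,8),(0,3)]⟩),.k,.k,⟨false,1,⟨1,[(19,0),(16,1),(1,0)]⟩,⟨3,
  [(1,1),(4,0),(7,0),(5,1),(8,0),(0,0),(4,0),(1,1)]⟩⟩,⟨true,0,⟨29,[(1,14),(2,3),(1,0),(4,2),(7,14),
  (3,3),(2,0),(4,2),(2,18)]⟩,⟨1,[(20,0),(8,0),(0,0)]⟩⟩,⟨true,0,⟨0,[]⟩,⟨0,[(40,0)]⟩⟩,⟨false,0,⟨17,
  [(1,7),(2,3),(1,5),(7,1),(3,0),(2,1),(16,6)]⟩,⟨1,[(19,0),(0,0),(8,0),(0,0),(5,1),(1,0)]⟩⟩,⟨false,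
  0,⟨0,[]⟩,⟨0,[]⟩⟩,⟨false,0,⟨0,[]⟩,⟨0,[]⟩⟩,[.o ⟨false,0,⟨5,[(4,2),(1,0),(15,1),(12,0)]⟩,⟨3,[(18,0),
  (0,0),(16,3),(1,1)]⟩⟩,.o ⟨false,1,⟨11,[(6,3),(7,3),(3,2),(0,2),(11,3),(6,1)]⟩,⟨0,[(36,0)]⟩⟩,.a
  ⟨true,0,⟨1,[(20,0),(8,0),(0,0)]⟩,⟨0,[(21,0)]⟩⟩ ⟨false,1,⟨1,[(19,0),(18,0)]⟩,⟨0,[(2,0)]⟩⟩ ⟨true,0,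
  ⟨3,[(1,1),(2,0),(1,0),(12,1),(15,0)]⟩,⟨1,[(20,0),(8,0),(0,0),(5,1)]⟩⟩,.o ⟨false,0,⟨1,[(20,0),(2,
  0),(2,0)]⟩,⟨1,[(21,1),(9,0),(5,0)]⟩⟩]⟩) (.R ⟨1,false,false,true,[0,0,0,1],[1,-1],[0,0,0,0,0,0,0,0,
  1],(⟨0,[(21,0)]⟩,⟨1,[(20,0),(8,0),(0,0)]⟩),(⟨0,[(32,0)]⟩,⟨0,[(33,0)]⟩),⟨0,[(0,0)]⟩,.k,.k,(.x 0 ⟨1,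
  [(0,1),(19,0),(2,0),(2,0)]⟩ ⟨3,[(18,0),(0,0),(13,3),(3,1)]⟩),(.r 0 ⟨1,[(11,0),(7,0),(8,0)]⟩ ⟨17,
  [(1,1),(4,5),(7,5),(3,6),(1,1),(8,5),(0,5),(6,8),(0,3)]⟩),.k,.k,⟨false,1,⟨1,[(19,0),(16,1),(1,
  0)]⟩,⟨3,[(1,1),(4,0),(7,0),(5,1),(8,0),(0,0),(4,0),(1,1)]⟩⟩,⟨true,0,⟨29,[(1,14),(2,3),(1,0),(4,2),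
  (7,14),(3,3),(2,0),(4,2),(2,18)]⟩,⟨1,[(20,0),(8,0),(0,0)]⟩⟩,⟨false,1,⟨3,[(18,0),(0,0),(18,1)]⟩,⟨0,
  []⟩⟩,⟨false,0,⟨17,[(1,7),(2,3),(1,5),(7,1),(3,0),(2,1),(16,6)]⟩,⟨1,[(19,0),(0,0),(8,0),(0,0),(5,
  1),(1,0)]⟩⟩,⟨true,0,⟨0,[(36,0)]⟩,⟨0,[(35,0)]⟩⟩,⟨false,0,⟨3,[(1,1),(29,0),(6,0)]⟩,⟨1,[(19,0),(0,0),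
  (8,0),(0,0),(7,0)]⟩⟩,[.o ⟨false,0,⟨5,[(4,2),(1,0),(15,1),(12,0)]⟩,⟨3,[(18,0),(0,0),(16,3),(1,
  1)]⟩⟩,.o ⟨false,1,⟨11,[(6,3),(7,3),(3,2),(0,2),(11,3),(6,1)]⟩,⟨0,[(36,0)]⟩⟩,.a ⟨true,0,⟨1,[(20,0),
  (8,0),(0,0)]⟩,⟨0,[(21,0)]⟩⟩ ⟨false,1,⟨1,[(19,0),(18,0)]⟩,⟨5,[(1,1),(16,0),(1,1),(17,0)]⟩⟩ ⟨true,0,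
  ⟨3,[(1,1),(2,0),(1,0),(12,1),(15,0)]⟩,⟨1,[(20,0),(8,0),(0,0),(5,1)]⟩⟩,.o ⟨false,0,⟨1,[(20,0),(2,
  0),(2,0)]⟩,⟨1,[(21,1),(9,0),(5,0)]⟩⟩]⟩)) (.Q [0,1,0,1,0,0,1,1,1,1,-1,-1] (.p false [0,0,1] [1,0,0,
  -1] (⟨0,[(29,0)]⟩,⟨0,[(28,0)]⟩) .k 2 (⟨1,[(19,0),(8,0),(0,0)]⟩,⟨0,[(20,0)]⟩) .k (.x (-1) ⟨7,[(15,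
  3),(1,0),(0,0),(4,3),(1,3),(3,7),(7,1)]⟩ ⟨1,[(4,0),(6,0),(4,0)]⟩)) (.Q [0,0,0,0,0,1,0,0,0,0,0,-1]
  (.p false [0,0,0,1] [] (⟨0,[(21,0)]⟩,⟨1,[(20,0),(8,0),(0,0)]⟩) .k 0 (⟨0,[]⟩,⟨0,[]⟩) .k .k) (.R ⟨0,
  false,false,false,[0,0,0,1],[0,1],[1,0,1,1],(⟨0,[(22,0)]⟩,⟨1,[(21,0),(8,0),(0,0)]⟩),(⟨0,[(34,0)]⟩,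
  ⟨0,[(33,0)]⟩),⟨0,[(0,0)]⟩,.k,.k,(.r (-1) ⟨5,[(2,1),(4,1),(7,1),(4,0),(1,3),(15,2)]⟩ ⟨1,[(12,0),(6,
  0),(9,0)]⟩),(.r (-1) ⟨5,[(2,1),(4,1),(7,1),(4,0),(1,3),(15,2)]⟩ ⟨1,[(12,0),(6,0),(9,0)]⟩),.k,.k,
  ⟨true,0,⟨0,[]⟩,⟨1,[(27,0),(0,0)]⟩⟩,⟨false,1,⟨0,[(22,0),(15,0)]⟩,⟨1,[(21,0),(2,0),(2,0)]⟩⟩,⟨false,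
  0,⟨0,[(4,0)]⟩,⟨5,[(2,1),(4,1),(7,1),(4,0),(1,3),(15,2)]⟩⟩,⟨true,0,⟨0,[(3,0),(18,0),(14,0)]⟩,⟨0,
  [(1,0),(5,0)]⟩⟩,⟨false,0,⟨0,[]⟩,⟨0,[]⟩⟩,⟨false,0,⟨0,[]⟩,⟨0,[]⟩⟩,[.o ⟨false,0,⟨0,[(37,0)]⟩,⟨11,[(7,
  3),(7,3),(3,2),(0,2),(11,3),(6,1)]⟩⟩,.o ⟨false,1,⟨3,[(19,0),(0,0),(16,3),(1,1)]⟩,⟨5,[(5,2),(1,0),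
  (15,1),(12,0)]⟩⟩,.a ⟨true,0,⟨1,[(21,0),(8,0),(0,0)]⟩,⟨0,[(22,0)]⟩⟩ ⟨false,0,⟨1,[(12,0),(16,0),(9,
  0)]⟩,⟨0,[(11,0),(17,0)]⟩⟩ ⟨true,0,⟨0,[(22,0),(14,0)]⟩,⟨11,[(5,2),(1,0),(13,5),(1,1),(12,6)]⟩⟩,.o
  ⟨false,0,⟨1,[(21,0),(2,0),(2,0)]⟩,⟨1,[(22,1),(9,0),(5,0)]⟩⟩]⟩) (.R ⟨1,false,false,false,[1,0,0,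
  -1],[1,-1],[0,0,0,0,0,0,0,0,-1],(⟨1,[(21,0),(8,0),(0,0)]⟩,⟨0,[(22,0)]⟩),(⟨0,[(33,0)]⟩,⟨0,[(34,
  0)]⟩),⟨0,[(0,0),(20,0)]⟩,.k,.k,(.r (-1) ⟨5,[(3,1),(3,1),(7,1),(3,1),(10,1),(0,1),(6,2),(0,0)]⟩ ⟨1,
  [(12,0),(7,0),(8,0)]⟩),(.r 0 ⟨1,[(12,0),(6,0),(9,0)]⟩ ⟨5,[(2,1),(4,1),(7,1),(4,0),(1,3),(15,2)]⟩),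
  .k,.k,⟨false,0,⟨0,[(3,0),(33,0)]⟩,⟨5,[(2,1),(4,1),(7,1),(4,0),(1,3),(15,2)]⟩⟩,⟨true,0,⟨1,[(21,0),
  (2,0),(2,0)]⟩,⟨0,[(22,0)]⟩⟩,⟨false,1,⟨3,[(19,0),(0,0),(18,1)]⟩,⟨0,[]⟩⟩,⟨false,1,⟨11,[(2,5),(4,3),
  (7,3),(16,0),(6,4)]⟩,⟨0,[(3,0),(18,0),(14,0)]⟩⟩,⟨true,0,⟨0,[(37,0)]⟩,⟨0,[(36,0)]⟩⟩,⟨false,1,⟨3,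
  [(2,1),(29,0),(6,0)]⟩,⟨0,[(3,0),(18,0)]⟩⟩,[.o ⟨false,1,⟨11,[(7,3),(7,3),(3,2),(0,2),(11,3),(6,
  1)]⟩,⟨0,[(37,0)]⟩⟩,.o ⟨false,1,⟨2,[(7,0),(7,0),(16,0),(6,1)]⟩,⟨0,[(37,0),(3,0)]⟩⟩,.a ⟨true,0,⟨0,
  [(22,0)]⟩,⟨1,[(21,0),(8,0),(0,0)]⟩⟩ ⟨true,0,⟨0,[(3,0)]⟩,⟨0,[(1,0),(7,0),(12,0)]⟩⟩ ⟨false,1,⟨17,
  [(2,3),(2,2),(1,5),(7,2),(3,3),(1,4),(17,9)]⟩,⟨0,[(22,0),(14,0)]⟩⟩,.o ⟨false,0,⟨14,[(5,3),(1,0),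
  (4,2),(9,14),(1,3),(2,0),(4,2),(2,3)]⟩,⟨53,[(1,1),(0,5),(16,6),(1,19),(4,1),(5,13),(3,1),(1,
  26)]⟩⟩]⟩)) (.Q [0,0,0,0,0,1,0,0,0,0,0,-1] (.p false [0,0,0,1] [] (⟨0,[(21,0)]⟩,⟨1,[(20,0),(8,0),
  (0,0)]⟩) .k 0 (⟨0,[]⟩,⟨0,[]⟩) .k .k) (.R ⟨0,false,false,false,[0,0,0,1],[1,0,-1],[1,0,0,0,0,0,0,0,
  1],(⟨0,[(22,0)]⟩,⟨1,[(21,0),(8,0),(0,0)]⟩),(⟨0,[(30,0)]⟩,⟨0,[(31,0)]⟩),⟨0,[(0,0)]⟩,.k,.k,(.r (-1)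
  ⟨5,[(2,1),(4,1),(7,1),(4,0),(1,3),(15,2)]⟩ ⟨1,[(12,0),(6,0),(9,0)]⟩),.k,.k,.k,⟨false,1,⟨1,[(20,0),
  (8,1),(8,0)]⟩,⟨1,[(1,1),(10,1),(2,1),(5,0),(8,0),(0,0),(6,1)]⟩⟩,⟨true,0,⟨0,[(16,0),(5,0)]⟩,⟨1,
  [(21,0),(5,1),(2,0),(0,0)]⟩⟩,⟨true,0,⟨0,[]⟩,⟨0,[(41,0)]⟩⟩,⟨false,0,⟨0,[(1,0),(35,0)]⟩,⟨7,[(2,3),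
  (16,0),(0,0),(4,7),(4,3),(0,3),(7,1)]⟩⟩,⟨false,0,⟨0,[]⟩,⟨0,[]⟩⟩,⟨false,0,⟨0,[]⟩,⟨0,[]⟩⟩,[.o
  ⟨false,0,⟨0,[(10,0)]⟩,⟨3,[(19,0),(0,0),(4,3),(13,1)]⟩⟩,.o ⟨false,1,⟨3,[(10,1),(15,1),(5,0),(6,
  2)]⟩,⟨0,[(25,0)]⟩⟩,.a ⟨true,0,⟨1,[(21,0),(8,0),(0,0)]⟩,⟨0,[(22,0)]⟩⟩ ⟨false,1,⟨1,[(20,0),(18,0)]⟩,
  ⟨0,[(3,0)]⟩⟩ ⟨true,0,⟨0,[(10,0),(11,0)]⟩,⟨1,[(21,0),(3,1),(4,0),(0,0)]⟩⟩,.o ⟨false,0,⟨1,[(21,0),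
  (2,0),(2,0)]⟩,⟨1,[(22,1),(9,0),(5,0)]⟩⟩]⟩) (.R ⟨1,false,false,false,[0,0,0,1],[1,0,-1],[1,0,0,-1,
  0,0,0,0,1],(⟨0,[(22,0)]⟩,⟨1,[(21,0),(8,0),(0,0)]⟩),(⟨0,[(30,0)]⟩,⟨0,[(31,0)]⟩),⟨0,[(0,0)]⟩,.k,.k,
  (.r (-1) ⟨5,[(2,1),(4,1),(7,1),(4,0),(1,3),(15,2)]⟩ ⟨1,[(12,0),(6,0),(9,0)]⟩),.k,(.r (-1) ⟨5,[(2,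
  1),(4,1),(7,1),(4,0),(1,3),(6,5),(8,2)]⟩ ⟨2,[(3,0),(7,0),(0,1),(6,0)]⟩),.k,⟨false,1,⟨5,[(2,1),(4,
  1),(7,1),(4,0),(1,3),(6,5),(8,2)]⟩,⟨3,[(1,1),(1,1),(8,3),(2,1),(5,0),(8,0),(0,0),(6,3)]⟩⟩,⟨true,0,
  ⟨0,[(16,0),(5,0)]⟩,⟨1,[(21,0),(5,1),(2,0),(0,0)]⟩⟩,⟨false,1,⟨0,[(36,0),(2,0)]⟩,⟨0,[(37,0)]⟩⟩,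
  ⟨false,0,⟨0,[(1,0),(35,0)]⟩,⟨7,[(2,3),(16,0),(0,0),(4,7),(4,3),(0,3),(7,1)]⟩⟩,⟨true,0,⟨0,[]⟩,⟨0,
  [(41,0)]⟩⟩,⟨false,0,⟨0,[(1,0),(35,1)]⟩,⟨7,[(2,3),(12,7),(3,0),(0,0),(9,3),(0,3),(7,1)]⟩⟩,[.o
  ⟨false,0,⟨0,[(10,0)]⟩,⟨3,[(19,0),(0,0),(4,3),(13,1)]⟩⟩,.o ⟨false,1,⟨3,[(10,1),(15,1),(5,0),(6,
  2)]⟩,⟨0,[(25,0)]⟩⟩,.a ⟨true,0,⟨1,[(21,0),(8,0),(0,0)]⟩,⟨0,[(22,0)]⟩⟩ ⟨false,1,⟨5,[(2,1),(4,1),(7,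
  1),(4,0),(1,3),(16,2)]⟩,⟨0,[(3,0),(33,0)]⟩⟩ ⟨true,0,⟨0,[(10,0),(11,0)]⟩,⟨1,[(21,0),(3,1),(4,0),(0,
  0)]⟩⟩,.o ⟨false,0,⟨1,[(21,0),(2,0),(2,0)]⟩,⟨1,[(22,1),(9,0),(5,0)]⟩⟩]⟩)))) (.I [0,0,2,2,-1,0,0,0,
  -1] (.Q [0,0,0,0,0,1,0,0,0,0,0,-1] (.p false [0,0,0,1] [] (⟨0,[(20,0)]⟩,⟨1,[(19,0),(8,0),(0,0)]⟩)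
  .k 0 (⟨0,[]⟩,⟨0,[]⟩) .k .k) (.R ⟨0,false,false,false,[0,0,0,1],[0,0,1],[0,1],(⟨0,[(21,0)]⟩,⟨1,
  [(20,0),(8,0),(0,0)]⟩),(⟨0,[(30,0)]⟩,⟨0,[(29,0)]⟩),⟨0,[(0,0)]⟩,.k,.k,(.r (-1) ⟨5,[(2,1),(3,1),(7,
  1),(4,1),(9,1),(0,1),(6,2),(0,0)]⟩ ⟨7,[(1,3),(16,2),(0,0)]⟩),.k,.k,.k,⟨true,0,⟨1,[(6,0),(4,1),(2,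
  0),(14,0),(0,0),(4,0),(1,1)]⟩,⟨0,[(28,0),(5,0)]⟩⟩,⟨false,1,⟨0,[(21,0),(4,0),(10,0)]⟩,⟨1,[(17,0),
  (2,0)]⟩⟩,⟨true,0,⟨1,[(1,1),(4,0),(7,0),(14,0),(0,0),(4,0),(1,1)]⟩,⟨0,[(2,0)]⟩⟩,⟨false,1,⟨1,[(3,1),
  (10,1),(6,1),(15,0),(0,0)]⟩,⟨13,[(2,13),(4,1),(0,7),(2,3),(8,6),(4,1),(3,2),(0,2),(6,4),(0,0)]⟩⟩,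
  ⟨false,0,⟨0,[]⟩,⟨0,[]⟩⟩,⟨false,0,⟨0,[]⟩,⟨0,[]⟩⟩,[.o ⟨false,1,⟨3,[(18,0),(0,0),(4,3),(13,1)]⟩,⟨0,
  [(9,0)]⟩⟩,.o ⟨false,1,⟨0,[(24,0),(13,0)]⟩,⟨0,[(22,0)]⟩⟩,.a ⟨true,0,⟨1,[(20,0),(8,0),(0,0)]⟩,⟨0,
  [(21,0)]⟩⟩ ⟨true,0,⟨0,[(40,0)]⟩,⟨0,[]⟩⟩ ⟨false,1,⟨0,[(21,0),(2,0),(13,0)]⟩,⟨13,[(7,1),(0,7),(2,3),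
  (8,6),(4,1),(3,2),(0,2),(6,4),(0,0)]⟩⟩,.o ⟨false,0,⟨1,[(20,0),(2,0),(2,0)]⟩,⟨1,[(21,1),(9,0),(5,
  0)]⟩⟩]⟩) (.R ⟨1,false,false,true,[1,0,0,-1],[0,1],[1,1,0,-1,0,0,0,0,-1],(⟨1,[(20,0),(8,0),(0,0)]⟩,
  ⟨0,[(21,0)]⟩),(⟨0,[(33,0)]⟩,⟨0,[(32,0)]⟩),⟨0,[(0,0),(19,0)]⟩,.k,.k,(.r (-1) ⟨3,[(3,1),(2,1),(7,1),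
  (3,0),(10,1),(0,1),(6,2)]⟩ ⟨1,[(11,0),(7,0),(8,0)]⟩),(.r (-1) ⟨3,[(3,1),(2,1),(7,1),(3,0),(10,1),
  (0,1),(6,2)]⟩ ⟨1,[(11,0),(7,0),(8,0)]⟩),(.r (-2) ⟨3,[(6,1),(3,1),(3,1),(3,1),(9,1),(0,1),(0,1),(6,
  2),(0,0)]⟩ ⟨0,[(2,0),(8,0),(16,0)]⟩),.k,⟨true,1,⟨0,[(3,0),(2,0),(7,0),(14,0),(0,0),(6,0)]⟩,⟨0,[(2,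
  0),(8,0),(16,0)]⟩⟩,⟨false,1,⟨1,[(20,0),(8,0),(0,0),(6,1)]⟩,⟨14,[(4,3),(1,0),(4,2),(9,14),(1,3),(2,
  0),(4,2),(2,3)]⟩⟩,⟨true,0,⟨0,[(35,0)]⟩,⟨0,[(36,0)]⟩⟩,⟨false,0,⟨1,[(2,1),(17,0),(8,0),(0,0),(5,
  1)]⟩,⟨3,[(3,1),(0,1),(1,1),(11,0),(2,3),(15,0),(0,1)]⟩⟩,⟨false,0,⟨0,[]⟩,⟨3,[(18,0),(0,0),(18,
  1)]⟩⟩,⟨false,0,⟨1,[(2,1),(17,0),(8,0),(0,0),(5,3)]⟩,⟨1,[(3,1),(2,1),(7,1),(6,1),(15,0),(0,0)]⟩⟩,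
  [.o ⟨false,0,⟨0,[(36,0),(3,0)]⟩,⟨2,[(6,0),(7,0),(16,0),(6,1)]⟩⟩,.o ⟨false,0,⟨0,[(36,0)]⟩,⟨11,[(6,
  3),(7,3),(3,2),(0,2),(11,3),(6,1)]⟩⟩,.a ⟨true,0,⟨0,[(21,0)]⟩,⟨1,[(20,0),(8,0),(0,0)]⟩⟩ ⟨true,0,⟨0,
  [(1,0),(4,0),(7,0),(14,0),(0,0),(6,0)]⟩,⟨0,[(2,0),(33,0)]⟩⟩ ⟨false,0,⟨1,[(20,0),(8,0),(0,0),(5,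
  1)]⟩,⟨2,[(6,0),(7,0),(6,2),(9,0),(6,1)]⟩⟩,.o ⟨false,0,⟨14,[(4,3),(1,0),(4,2),(9,14),(1,3),(2,0),
  (4,2),(2,3)]⟩,⟨7,[(18,0),(0,0),(0,3),(10,1),(5,3)]⟩⟩]⟩)) (.Q [0,0,0,0,0,1,0,0,0,-1,0,1] (.p true
  [0,0,0,1] [1] (⟨0,[(20,0)]⟩,⟨1,[(19,0),(8,0),(0,0)]⟩) .k 1 (⟨0,[]⟩,⟨0,[]⟩) .k .k) (.Q [0,0,0,0,0,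
  0,-1,-1,-1,-1,1,1] (.p true [0,0,1] [1,0,0,-1] (⟨0,[(30,0)]⟩,⟨0,[(29,0)]⟩) .k 2 (⟨1,[(20,0),(8,0),
  (0,0)]⟩,⟨0,[(21,0)]⟩) .k (.r 0 ⟨0,[(2,0),(25,0)]⟩ ⟨11,[(10,7),(0,3),(6,6),(0,0)]⟩)) (.R ⟨0,false,
  false,true,[1,0,0,-1],[1,0,-1],[0,1,0,0,0,0,0,0,-1],(⟨1,[(21,0),(8,0),(0,0)]⟩,⟨0,[(22,0)]⟩),(⟨0,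
  [(30,0)]⟩,⟨0,[(31,0)]⟩),⟨0,[(1,0)]⟩,.k,.k,(.r (-1) ⟨3,[(0,1),(1,1),(1,1),(10,1),(3,0),(1,0),(8,0),
  (0,0),(6,0)]⟩ ⟨1,[(12,0),(7,0),(8,0)]⟩),.k,.k,.k,⟨false,1,⟨1,[(19,0),(9,1),(8,0)]⟩,⟨0,[(2,0),(9,
  0)]⟩⟩,⟨true,0,⟨1,[(18,0),(2,0)]⟩,⟨0,[(22,0),(4,0)]⟩⟩,⟨true,0,⟨0,[(41,0)]⟩,⟨0,[]⟩⟩,⟨false,0,⟨1,[(2,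
  1),(9,1),(5,0),(2,0)]⟩,⟨1,[(4,1),(10,1),(6,1),(15,0),(0,0)]⟩⟩,⟨false,0,⟨0,[]⟩,⟨0,[]⟩⟩,⟨false,0,⟨0,
  []⟩,⟨0,[]⟩⟩,[.o ⟨false,0,⟨0,[(23,0)]⟩,⟨0,[(25,0),(13,0)]⟩⟩,.o ⟨false,0,⟨0,[(10,0)]⟩,⟨3,[(19,0),(0,
  0),(4,3),(13,1)]⟩⟩,.a ⟨true,0,⟨0,[(22,0)]⟩,⟨1,[(21,0),(8,0),(0,0)]⟩⟩ ⟨true,0,⟨1,[(0,1),(20,0),(3,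
  1),(4,0),(0,0)]⟩,⟨0,[(3,0)]⟩⟩ ⟨false,0,⟨11,[(0,3),(1,3),(5,1),(1,1),(1,3),(8,7),(4,1),(11,0),(0,
  0)]⟩,⟨0,[(22,0),(2,0),(13,0)]⟩⟩,.o ⟨false,0,⟨14,[(5,3),(1,0),(4,2),(9,14),(1,3),(2,0),(4,2),(2,
  3)]⟩,⟨7,[(19,0),(0,0),(0,3),(10,1),(5,3)]⟩⟩]⟩) (.Q [0,1,0,0,0,0,-1,-1,-1,-1,1,1] (.p true [0,0,1]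
  [1,0,0,-1] (⟨0,[(31,0)]⟩,⟨0,[(30,0)]⟩) .k 2 (⟨1,[(21,0),(8,0),(0,0)]⟩,⟨0,[(22,0)]⟩) .k (.r 0 ⟨0,
  [(3,0),(25,0)]⟩ ⟨11,[(11,7),(0,3),(6,6),(0,0)]⟩)) (.R ⟨0,false,false,true,[0,0,0,1],[1,0,-1],[1],
  (⟨0,[(23,0)]⟩,⟨1,[(22,0),(8,0),(0,0)]⟩),(⟨0,[(31,0)]⟩,⟨0,[(32,0)]⟩),⟨0,[(2,0),(19,0)]⟩,.k,.k,(.r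
  (-1) ⟨7,[(3,3),(16,0),(0,2)]⟩ ⟨1,[(13,0),(6,0),(9,0)]⟩),.k,.k,.k,⟨false,1,⟨1,[(30,1),(8,0),(0,
  0)]⟩,⟨5,[(0,1),(2,1),(4,1),(4,5),(2,3),(5,0),(8,2),(0,2),(6,3)]⟩⟩,⟨true,0,⟨0,[(17,0),(5,0)]⟩,⟨1,
  [(22,0),(5,1),(2,0),(0,0)]⟩⟩,⟨false,1,⟨1,[(20,0),(19,0)]⟩,⟨1,[(1,2),(0,2),(2,0),(0,0),(1,1),(0,0),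
  (3,1),(0,3),(17,3),(2,0),(3,2)]⟩⟩,⟨true,0,⟨0,[(0,0)]⟩,⟨0,[(1,0)]⟩⟩,⟨false,0,⟨0,[]⟩,⟨0,[]⟩⟩,⟨false,
  0,⟨0,[]⟩,⟨0,[]⟩⟩,[.o ⟨false,0,⟨0,[(24,0)]⟩,⟨0,[(26,0),(13,0)]⟩⟩,.o ⟨false,0,⟨0,[(11,0)]⟩,⟨3,[(20,
  0),(0,0),(4,3),(13,1)]⟩⟩,.a ⟨true,0,⟨1,[(22,0),(8,0),(0,0)]⟩,⟨0,[(23,0)]⟩⟩ ⟨true,0,⟨0,[]⟩,⟨0,[(42,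
  0)]⟩⟩ ⟨false,0,⟨0,[(11,0),(11,0)]⟩,⟨1,[(1,1),(18,0),(19,0)]⟩⟩,.o ⟨false,0,⟨1,[(22,0),(2,0),(2,
  0)]⟩,⟨1,[(23,1),(9,0),(5,0)]⟩⟩]⟩) (.R ⟨0,false,false,true,[1,0,0,-1],[0,0,1],[1,0,0,0,0,0,0,0,-1],
  (⟨1,[(22,0),(8,0),(0,0)]⟩,⟨0,[(23,0)]⟩),(⟨0,[(32,0)]⟩,⟨0,[(31,0)]⟩),⟨0,[(2,0)]⟩,.k,.k,(.r (-1) ⟨3,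
  [(5,1),(2,1),(7,1),(3,0),(10,1),(0,1),(6,2)]⟩ ⟨1,[(13,0),(7,0),(8,0)]⟩),.k,.k,.k,⟨true,1,⟨0,[(5,
  0),(6,0)]⟩,⟨2,[(0,0),(0,0),(1,0),(5,2),(3,2),(2,3),(6,1),(7,0),(0,0),(6,1)]⟩⟩,⟨false,1,⟨1,[(22,0),
  (5,1),(2,0),(0,0),(6,1)]⟩,⟨0,[(17,0),(5,0)]⟩⟩,⟨true,0,⟨0,[]⟩,⟨0,[(42,0)]⟩⟩,⟨false,0,⟨0,[(1,0)]⟩,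
  ⟨1,[(11,1),(8,0),(2,1),(16,0)]⟩⟩,⟨false,0,⟨0,[]⟩,⟨0,[]⟩⟩,⟨false,0,⟨0,[]⟩,⟨0,[]⟩⟩,[.o ⟨false,0,⟨0,
  [(26,0)]⟩,⟨3,[(11,1),(15,1),(5,0),(6,2)]⟩⟩,.o ⟨false,1,⟨3,[(20,0),(0,0),(4,3),(13,1)]⟩,⟨0,[(11,
  0)]⟩⟩,.a ⟨true,0,⟨0,[(23,0)]⟩,⟨1,[(22,0),(8,0),(0,0)]⟩⟩ ⟨false,1,⟨1,[(20,0),(19,0)]⟩,⟨0,[(0,5),(1,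
  5),(2,4),(0,10),(1,6),(0,4),(3,9),(0,22),(17,22),(2,16),(3,14)]⟩⟩ ⟨true,0,⟨1,[(22,0),(3,1),(4,0),
  (0,0)]⟩,⟨0,[(11,0),(11,0)]⟩⟩,.o ⟨false,0,⟨14,[(6,3),(1,0),(4,2),(9,14),(1,3),(2,0),(4,2),(2,3)]⟩,
  ⟨7,[(20,0),(0,0),(0,3),(10,1),(5,3)]⟩⟩]⟩))) (.Q [0,1,0,1,0,0,1,1,-1,0,-1,1] (.p false [0,0,1] [0,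
  0,0,1] (⟨0,[(30,0)]⟩,⟨0,[(29,0)]⟩) .k 2 (⟨0,[(21,0)]⟩,⟨1,[(20,0),(8,0),(0,0)]⟩) .k (.x (-1) ⟨7,
  [(16,3),(1,0),(0,0),(4,3),(1,3),(3,7),(7,1)]⟩ ⟨1,[(5,0),(6,0),(4,0)]⟩)) (.R ⟨1,false,false,true,
  [1,0,0,-1],[0,1],[1,1,0,-1,0,0,0,0,-1],(⟨1,[(21,0),(8,0),(0,0)]⟩,⟨0,[(22,0)]⟩),(⟨0,[(34,0)]⟩,⟨0,
  [(33,0)]⟩),⟨0,[(1,0)]⟩,.k,.k,(.r (-1) ⟨3,[(0,1),(1,1),(1,1),(2,1),(11,0),(1,0),(8,0),(0,0),(6,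
  0)]⟩ ⟨1,[(12,0),(7,0),(8,0)]⟩),(.r (-1) ⟨3,[(0,1),(1,1),(1,1),(2,1),(11,0),(1,0),(8,0),(0,0),(6,
  0)]⟩ ⟨1,[(12,0),(7,0),(8,0)]⟩),(.r (-2) ⟨0,[(2,0),(16,0)]⟩ ⟨0,[(3,0),(8,0),(16,0)]⟩),.k,⟨true,1,
  ⟨1,[(0,1),(1,1),(1,1),(2,1),(13,0),(8,0),(0,0)]⟩,⟨0,[(3,0),(8,0),(16,0)]⟩⟩,⟨false,1,⟨1,[(21,0),(8,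
  0),(0,0),(6,1)]⟩,⟨14,[(5,3),(1,0),(4,2),(9,14),(1,3),(2,0),(4,2),(2,3)]⟩⟩,⟨true,0,⟨0,[(36,0)]⟩,⟨0,
  [(37,0)]⟩⟩,⟨false,0,⟨1,[(3,1),(17,0),(8,0),(0,0),(5,1)]⟩,⟨0,[(0,0),(6,0),(31,0)]⟩⟩,⟨false,0,⟨0,
  []⟩,⟨3,[(19,0),(0,0),(18,1)]⟩⟩,⟨false,0,⟨1,[(3,1),(17,0),(8,0),(0,0),(5,3)]⟩,⟨1,[(0,0),(1,0),(1,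
  1),(2,1),(7,0),(6,0),(16,0)]⟩⟩,[.o ⟨false,0,⟨0,[(37,0),(3,0)]⟩,⟨2,[(7,0),(7,0),(16,0),(6,1)]⟩⟩,.o
  ⟨false,0,⟨0,[(37,0)]⟩,⟨11,[(7,3),(7,3),(3,2),(0,2),(11,3),(6,1)]⟩⟩,.a ⟨true,0,⟨0,[(22,0)]⟩,⟨1,
  [(21,0),(8,0),(0,0)]⟩⟩ ⟨true,0,⟨1,[(0,1),(6,1),(13,0),(8,0),(0,0)]⟩,⟨0,[(3,0),(33,0)]⟩⟩ ⟨false,0,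
  ⟨1,[(21,0),(8,0),(0,0),(5,1)]⟩,⟨2,[(7,0),(7,0),(6,2),(9,0),(6,1)]⟩⟩,.o ⟨false,0,⟨14,[(5,3),(1,0),
  (4,2),(9,14),(1,3),(2,0),(4,2),(2,3)]⟩,⟨7,[(19,0),(0,0),(0,3),(10,1),(5,3)]⟩⟩]⟩) (.R ⟨1,false,
  false,false,[1,0,0,-1],[1,0,-1],[0,0,0,0,0,0,0,0,-1],(⟨1,[(21,0),(8,0),(0,0)]⟩,⟨0,[(22,0)]⟩),(⟨0,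
  [(30,0)]⟩,⟨0,[(31,0)]⟩),⟨0,[(1,0)]⟩,.k,.k,(.r (-1) ⟨3,[(4,1),(2,1),(7,1),(3,0),(10,1),(0,1),(6,
  2)]⟩ ⟨1,[(12,0),(7,0),(8,0)]⟩),.k,(.r (-1) ⟨3,[(4,1),(2,1),(7,1),(3,0),(9,3),(0,1),(0,1),(6,2)]⟩
  ⟨4,[(2,0),(8,0),(0,3),(7,1)]⟩),.k,⟨false,1,⟨1,[(19,0),(9,1),(8,0)]⟩,⟨0,[(2,0),(9,0)]⟩⟩,⟨true,0,⟨1,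
  [(18,0),(2,0)]⟩,⟨0,[(22,0),(4,0)]⟩⟩,⟨false,1,⟨3,[(19,0),(0,0),(18,1)]⟩,⟨0,[]⟩⟩,⟨false,0,⟨0,[(0,0),
  (36,0)]⟩,⟨1,[(19,0),(2,1),(2,1),(13,0)]⟩⟩,⟨true,0,⟨0,[(37,0)]⟩,⟨0,[(36,0)]⟩⟩,⟨false,0,⟨0,[(0,0),
  (36,1)]⟩,⟨1,[(15,1),(3,0),(2,1),(16,0)]⟩⟩,[.o ⟨false,0,⟨0,[(10,0)]⟩,⟨3,[(19,0),(0,0),(4,3),(13,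
  1)]⟩⟩,.o ⟨false,1,⟨3,[(10,1),(15,1),(5,0),(6,2)]⟩,⟨0,[(25,0)]⟩⟩,.a ⟨true,0,⟨0,[(22,0)]⟩,⟨1,[(21,
  0),(8,0),(0,0)]⟩⟩ ⟨false,1,⟨1,[(19,0),(19,0)]⟩,⟨0,[(3,0)]⟩⟩ ⟨true,0,⟨6,[(0,0),(3,0),(2,1),(0,0),
  (3,1),(8,2),(4,1),(11,2)]⟩,⟨0,[(22,0),(2,0)]⟩⟩,.o ⟨false,0,⟨14,[(5,3),(1,0),(4,2),(9,14),(1,3),(2,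
  0),(4,2),(2,3)]⟩,⟨7,[(19,0),(0,0),(0,3),(10,1),(5,3)]⟩⟩]⟩))))) (.Q [0,0,0,0,0,0,1,1,1,1,-1,-1]
  (.p false [0,0,1] [1,0,0,-1] (⟨0,[(27,0)]⟩,⟨0,[(26,0)]⟩) .k 2 (⟨1,[(17,0),(8,0),(0,0)]⟩,⟨0,[(18,
  0)]⟩) .k (.r 0 ⟨1,[(0,1),(7,0),(16,2),(9,0)]⟩ ⟨11,[(7,7),(0,3),(6,6),(0,0)]⟩)) (.Q [0,0,0,0,0,1,0,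
  0,0,0,0,-1] (.p false [0,0,0,1] [] (⟨0,[(19,0)]⟩,⟨1,[(18,0),(8,0),(0,0)]⟩) .k 0 (⟨0,[]⟩,⟨0,[]⟩)
  .k .k) (.R ⟨0,false,false,false,[0,0,0,1],[0,1],[1,0,1,1],(⟨0,[(20,0)]⟩,⟨1,[(19,0),(8,0),(0,0)]⟩),
  (⟨0,[(32,0)]⟩,⟨0,[(31,0)]⟩),⟨0,[(0,0)]⟩,.k,.k,(.r (-1) ⟨3,[(2,1),(6,1),(8,0),(8,1),(9,0)]⟩ ⟨1,
  [(10,0),(6,0),(9,0)]⟩),(.r (-1) ⟨3,[(2,1),(6,1),(8,0),(8,1),(9,0)]⟩ ⟨1,[(10,0),(6,0),(9,0)]⟩),.k,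
  .k,⟨true,0,⟨0,[]⟩,⟨1,[(25,0),(0,0)]⟩⟩,⟨false,1,⟨0,[(20,0),(15,0)]⟩,⟨1,[(19,0),(2,0),(2,0)]⟩⟩,
  ⟨true,0,⟨1,[(10,0),(6,0),(9,0)]⟩,⟨0,[(2,0)]⟩⟩,⟨false,1,⟨1,[(17,0),(2,1),(14,1),(1,0)]⟩,⟨0,[(1,0),
  (5,0)]⟩⟩,⟨false,0,⟨0,[]⟩,⟨0,[]⟩⟩,⟨false,0,⟨0,[]⟩,⟨0,[]⟩⟩,[.o ⟨false,0,⟨0,[(35,0)]⟩,⟨11,[(5,3),(7,
  3),(3,2),(0,2),(11,3),(6,1)]⟩⟩,.o ⟨false,1,⟨3,[(17,0),(0,0),(16,3),(1,1)]⟩,⟨5,[(3,2),(1,0),(15,1),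
  (12,0)]⟩⟩,.a ⟨true,0,⟨1,[(19,0),(8,0),(0,0)]⟩,⟨0,[(20,0)]⟩⟩ ⟨false,0,⟨1,[(10,0),(16,0),(9,0)]⟩,⟨0,
  [(9,0),(17,0)]⟩⟩ ⟨true,0,⟨0,[(20,0),(14,0)]⟩,⟨11,[(3,2),(1,0),(13,5),(1,1),(12,6)]⟩⟩,.o ⟨false,0,
  ⟨1,[(19,0),(2,0),(2,0)]⟩,⟨1,[(20,1),(9,0),(5,0)]⟩⟩]⟩) (.R ⟨1,false,false,false,[0,0,0,1],[0,1],[0,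
  1,0,0,0,0,0,0,1],(⟨0,[(20,0)]⟩,⟨1,[(19,0),(8,0),(0,0)]⟩),(⟨0,[(32,0)]⟩,⟨0,[(31,0)]⟩),⟨0,[(0,0)]⟩,
  .k,.k,(.r (-1) ⟨3,[(2,1),(6,1),(8,0),(8,1),(9,0)]⟩ ⟨1,[(10,0),(6,0),(9,0)]⟩),(.r (-1) ⟨3,[(2,1),
  (6,1),(8,0),(8,1),(9,0)]⟩ ⟨1,[(10,0),(6,0),(9,0)]⟩),(.r (-1) ⟨0,[(1,0),(3,0),(14,0),(15,0)]⟩ ⟨3,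
  [(10,3),(6,2),(0,0),(8,3)]⟩),.k,⟨true,0,⟨0,[(2,0)]⟩,⟨1,[(10,0),(6,0),(9,0),(5,1)]⟩⟩,⟨false,1,⟨0,
  [(20,0),(15,0)]⟩,⟨1,[(19,0),(2,0),(2,0)]⟩⟩,⟨true,0,⟨0,[(39,0)]⟩,⟨0,[]⟩⟩,⟨false,1,⟨1,[(17,0),(2,1),
  (14,1),(1,0)]⟩,⟨0,[(1,0),(5,0)]⟩⟩,⟨false,0,⟨0,[(35,0)]⟩,⟨0,[(34,0),(2,0)]⟩⟩,⟨false,1,⟨1,[(17,0),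
  (2,1),(14,3),(1,0)]⟩,⟨0,[(1,0),(3,0)]⟩⟩,[.o ⟨false,0,⟨0,[(35,0)]⟩,⟨11,[(5,3),(7,3),(3,2),(0,2),
  (11,3),(6,1)]⟩⟩,.o ⟨false,1,⟨3,[(17,0),(0,0),(16,3),(1,1)]⟩,⟨5,[(3,2),(1,0),(15,1),(12,0)]⟩⟩,.a
  ⟨true,0,⟨1,[(19,0),(8,0),(0,0)]⟩,⟨0,[(20,0)]⟩⟩ ⟨false,0,⟨27,[(1,5),(0,19),(0,1),(2,3),(3,7),(7,0),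
  (1,5),(14,5),(1,10)]⟩,⟨1,[(17,0),(19,0)]⟩⟩ ⟨true,0,⟨0,[(20,0),(14,0)]⟩,⟨11,[(3,2),(1,0),(13,5),(1,
  1),(12,6)]⟩⟩,.o ⟨false,0,⟨1,[(19,0),(2,0),(2,0)]⟩,⟨1,[(20,1),(9,0),(5,0)]⟩⟩]⟩)) (.Q [0,0,0,0,0,1,
  0,0,0,0,0,-1] (.p false [0,0,0,1] [] (⟨0,[(19,0)]⟩,⟨1,[(18,0),(8,0),(0,0)]⟩) .k 0 (⟨0,[]⟩,⟨0,[]⟩)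
  .k .k) (.R ⟨0,false,false,false,[0,0,0,1],[1,0,-1],[0,0,0,0,0,0,0,-1],(⟨0,[(20,0)]⟩,⟨1,[(19,0),(8,
  0),(0,0)]⟩),(⟨0,[(28,0)]⟩,⟨0,[(29,0)]⟩),⟨0,[(0,0)]⟩,.k,.k,(.r (-1) ⟨3,[(2,1),(6,1),(8,0),(8,1),(9,
  0)]⟩ ⟨1,[(10,0),(6,0),(9,0)]⟩),.k,.k,.k,⟨false,1,⟨3,[(17,0),(0,0),(17,1)]⟩,⟨0,[]⟩⟩,⟨true,0,⟨0,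
  [(14,0),(5,0)]⟩,⟨1,[(19,0),(5,1),(2,0),(0,0)]⟩⟩,⟨false,1,⟨1,[(1,1),(17,0),(5,1),(2,0),(0,0),(6,0),
  (0,0)]⟩,⟨1,[(2,1),(7,0),(16,2),(9,0)]⟩⟩,⟨true,0,⟨0,[(1,0)]⟩,⟨1,[(2,1),(7,0),(8,0),(3,1),(3,0),(0,
  0),(0,0),(7,0)]⟩⟩,⟨false,0,⟨0,[]⟩,⟨0,[]⟩⟩,⟨false,0,⟨0,[]⟩,⟨0,[]⟩⟩,[.o ⟨false,0,⟨0,[(8,0)]⟩,⟨3,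
  [(17,0),(0,0),(4,3),(13,1)]⟩⟩,.o ⟨false,1,⟨3,[(8,1),(15,1),(5,0),(6,2)]⟩,⟨0,[(23,0)]⟩⟩,.a ⟨true,0,
  ⟨1,[(19,0),(8,0),(0,0)]⟩,⟨0,[(20,0)]⟩⟩ ⟨false,1,⟨11,[(9,7),(0,3),(6,0),(0,0),(18,5)]⟩,⟨0,[(27,
  0)]⟩⟩ ⟨true,0,⟨0,[(8,0),(11,0)]⟩,⟨1,[(19,0),(3,1),(4,0),(0,0)]⟩⟩,.o ⟨false,0,⟨1,[(19,0),(2,0),(2,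
  0)]⟩,⟨1,[(20,1),(9,0),(5,0)]⟩⟩]⟩) (.R ⟨1,false,false,false,[0,0,0,1],[1,0,-1],[0,1,0,0,0,0,0,0,1],
  (⟨0,[(20,0)]⟩,⟨1,[(19,0),(8,0),(0,0)]⟩),(⟨0,[(28,0)]⟩,⟨0,[(29,0)]⟩),⟨0,[(0,0)]⟩,.k,.k,(.r (-1) ⟨3,
  [(2,1),(6,1),(8,0),(8,1),(9,0)]⟩ ⟨1,[(10,0),(6,0),(9,0)]⟩),.k,(.r (-1) ⟨3,[(2,1),(6,1),(8,0),(8,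
  5),(9,0)]⟩ ⟨3,[(1,1),(8,1),(6,0),(1,0),(5,1),(2,0),(0,0),(6,0)]⟩),.k,⟨false,0,⟨0,[(2,0),(24,0),(7,
  0)]⟩,⟨1,[(1,1),(17,0),(5,1),(2,0),(0,0),(6,0),(0,0)]⟩⟩,⟨true,0,⟨0,[(14,0),(5,0)]⟩,⟨1,[(19,0),(5,
  1),(2,0),(0,0)]⟩⟩,⟨true,0,⟨0,[(39,0)]⟩,⟨0,[]⟩⟩,⟨true,0,⟨0,[(1,0)]⟩,⟨1,[(2,1),(7,0),(8,0),(3,1),(3,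
  0),(0,0),(0,0),(7,0)]⟩⟩,⟨false,0,⟨0,[(35,0)]⟩,⟨0,[(34,0),(2,0)]⟩⟩,⟨true,0,⟨0,[(1,0),(33,0)]⟩,⟨1,
  [(2,1),(16,0),(5,1),(1,1),(0,0),(0,0)]⟩⟩,[.o ⟨false,0,⟨0,[(8,0)]⟩,⟨3,[(17,0),(0,0),(4,3),(13,
  1)]⟩⟩,.o ⟨false,1,⟨3,[(8,1),(15,1),(5,0),(6,2)]⟩,⟨0,[(23,0)]⟩⟩,.a ⟨true,0,⟨1,[(19,0),(8,0),(0,
  0)]⟩,⟨0,[(20,0)]⟩⟩ ⟨false,0,⟨1,[(2,1),(7,0),(16,0),(9,0)]⟩,⟨1,[(17,0),(19,0)]⟩⟩ ⟨true,0,⟨0,[(8,0),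
  (11,0)]⟩,⟨1,[(19,0),(3,1),(4,0),(0,0)]⟩⟩,.o ⟨false,0,⟨1,[(19,0),(2,0),(2,0)]⟩,⟨1,[(20,1),(9,0),(5,
  0)]⟩⟩]⟩))))) (.Q [0,0,0,0,0,0,1,1,-1,0,-1,1] (.p false [0,0,1] [0,0,0,1] (⟨0,[(25,0)]⟩,⟨0,[(24,
  0)]⟩) .k 2 (⟨0,[(16,0)]⟩,⟨1,[(15,0),(8,0),(0,0)]⟩) .k (.x (-1) ⟨7,[(11,3),(1,0),(0,0),(4,3),(1,3),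
  (3,7),(7,1)]⟩ ⟨0,[(10,0),(13,0)]⟩)) (.Q [0,1,0,1,-1,0,-1,-1,-1,-1,1,1] (.p true [0,0,1] [1,0,0,
  -1] (⟨0,[(26,0)]⟩,⟨0,[(25,0)]⟩) .k 2 (⟨1,[(16,0),(8,0),(0,0)]⟩,⟨0,[(17,0)]⟩) .k (.r (-1) ⟨3,[(14,
  0),(0,2),(8,3)]⟩ ⟨1,[(0,1),(1,1),(4,1),(8,0),(8,0),(0,0),(6,1)]⟩)) (.R ⟨1,false,false,false,[1,0,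
  0,-1],[0,1],[0,1,0,0,0,0,0,0,-1],(⟨1,[(17,0),(8,0),(0,0)]⟩,⟨0,[(18,0)]⟩),(⟨0,[(30,0)]⟩,⟨0,[(29,
  0)]⟩),⟨1,[(2,0),(6,0),(7,0)]⟩,.k,.k,(.r (-1) ⟨5,[(1,1),(1,1),(3,1),(7,1),(1,0),(7,1),(0,0),(0,0),
  (6,1)]⟩ ⟨1,[(8,0),(7,0),(8,0)]⟩),(.r (-1) ⟨5,[(1,1),(1,1),(3,1),(7,1),(1,0),(7,1),(0,0),(0,0),(6,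
  1)]⟩ ⟨1,[(8,0),(7,0),(8,0)]⟩),(.r (-1) ⟨1,[(1,1),(1,1),(13,0),(8,0),(0,0),(6,1)]⟩ ⟨3,[(8,3),(6,0),
  (0,2),(8,3)]⟩),.k,⟨true,0,⟨1,[(0,0),(0,0),(1,0),(7,0),(5,0),(8,0),(0,0),(6,0)]⟩,⟨1,[(8,0),(7,0),
  (8,0),(5,1)]⟩⟩,⟨false,1,⟨1,[(17,0),(8,0),(0,0),(6,1)]⟩,⟨2,[(4,0),(13,2),(4,1),(4,0)]⟩⟩,⟨true,0,⟨0,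
  [(37,0)]⟩,⟨0,[]⟩⟩,⟨false,1,⟨1,[(16,0),(0,0),(8,0),(0,0),(5,1),(1,0)]⟩,⟨9,[(0,1),(0,7),(1,5),(24,
  0),(6,0)]⟩⟩,⟨false,0,⟨0,[(33,0)]⟩,⟨0,[(32,0),(2,0)]⟩⟩,⟨false,1,⟨1,[(16,0),(0,0),(8,0),(0,0),(5,3),
  (1,0)]⟩,⟨0,[(1,0),(1,0)]⟩⟩,[.o ⟨false,0,⟨0,[(33,0)]⟩,⟨11,[(3,3),(7,3),(3,2),(0,2),(11,3),(6,1)]⟩⟩,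
  .o ⟨false,1,⟨3,[(15,0),(0,0),(16,3),(1,1)]⟩,⟨0,[(5,0),(15,0)]⟩⟩,.a ⟨true,0,⟨0,[(18,0)]⟩,⟨1,[(17,
  0),(8,0),(0,0)]⟩⟩ ⟨false,0,⟨13,[(0,3),(0,5),(1,1),(11,1),(1,4),(8,0),(0,0),(7,1)]⟩,⟨1,[(16,0),(18,
  0)]⟩⟩ ⟨true,0,⟨1,[(17,0),(8,0),(0,0),(5,1)]⟩,⟨5,[(0,1),(2,1),(7,3),(4,0),(1,3),(9,0)]⟩⟩,.o ⟨false,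
  0,⟨2,[(4,0),(13,2),(4,1),(4,0)]⟩,⟨7,[(15,0),(0,0),(0,3),(10,1),(5,3)]⟩⟩]⟩) (.R ⟨1,false,false,
  false,[1,0,0,-1],[1,-1,-1],[0,1,0,0,0,0,0,0,-1],(⟨1,[(17,0),(8,0),(0,0)]⟩,⟨0,[(18,0)]⟩),(⟨0,[(9,
  0)]⟩,⟨0,[(27,0),(2,0)]⟩),⟨1,[(2,0),(6,0),(7,0)]⟩,.k,.k,(.r (-1) ⟨9,[(0,0),(0,2),(1,3),(11,3),(1,
  0),(8,1),(0,1),(4,0),(1,4)]⟩ ⟨1,[(8,0),(7,0),(8,0)]⟩),(.x (-1) ⟨0,[(23,0),(3,0),(2,0),(3,0)]⟩ ⟨0,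
  [(9,0),(10,0)]⟩),.k,.k,⟨true,(-1),⟨1,[(1,1),(2,1),(3,1),(2,1),(5,0),(8,0),(0,0),(6,1)]⟩,⟨0,[(0,0),
  (2,0),(4,0),(9,0),(15,0)]⟩⟩,⟨false,0,⟨1,[(14,0),(2,0)]⟩,⟨0,[(18,0),(4,0),(10,0)]⟩⟩,⟨true,0,⟨0,
  [(37,0)]⟩,⟨0,[]⟩⟩,⟨false,1,⟨1,[(5,1),(10,0),(0,0),(8,0),(0,0),(7,0)]⟩,⟨0,[(1,0),(31,0)]⟩⟩,⟨false,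
  0,⟨0,[(33,0)]⟩,⟨11,[(0,3),(2,3),(11,2),(0,0),(1,3),(16,3)]⟩⟩,⟨false,1,⟨13,[(4,1),(0,7),(2,3),(7,
  6),(0,6),(4,1),(3,2),(0,2),(6,4),(0,7)]⟩,⟨0,[(1,0)]⟩⟩,[.o ⟨false,0,⟨0,[(5,0)]⟩,⟨11,[(0,3),(0,3),
  (13,2),(0,2),(4,3),(6,1),(4,15)]⟩⟩,.o ⟨false,1,⟨1,[(5,0),(1,0),(12,0),(14,0)]⟩,⟨0,[(21,0),(11,
  0)]⟩⟩,.a ⟨true,0,⟨0,[(18,0)]⟩,⟨1,[(17,0),(8,0),(0,0)]⟩⟩ ⟨false,0,⟨9,[(1,7),(1,3),(0,1),(3,3),(6,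
  0),(1,3),(8,1),(0,1),(6,4)]⟩,⟨1,[(16,0),(18,0)]⟩⟩ ⟨true,0,⟨1,[(5,1),(11,0),(8,0),(0,0)]⟩,⟨0,[(18,
  0),(2,0),(11,0)]⟩⟩,.o ⟨false,0,⟨2,[(4,0),(13,2),(4,1),(4,0)]⟩,⟨7,[(15,0),(0,0),(0,3),(10,1),(5,
  3)]⟩⟩]⟩)) (.I [1,0,0,0,0,0,0,0,1] (.Q [0,-1,0,-1,0,0,-1,-1,1,0,1,-1] (.p true [0,0,1] [0,0,0,1]
  (⟨0,[(27,0)]⟩,⟨0,[(26,0)]⟩) .k 2 (⟨0,[(18,0)]⟩,⟨1,[(17,0),(8,0),(0,0)]⟩) .k (.x (-1) ⟨7,[(13,3),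
  (1,0),(0,0),(4,3),(1,3),(3,7),(7,1)]⟩ ⟨0,[(12,0),(13,0)]⟩)) (.I [1,1,-1,-2,0,0,0,0,1] (.R ⟨1,
  false,false,true,[1,0,0,-1],[1,-1],[0,0,0,0,0,0,0,0,-1],(⟨1,[(19,0),(8,0),(0,0)]⟩,⟨0,[(20,0)]⟩),
  (⟨0,[(31,0)]⟩,⟨0,[(32,0)]⟩),⟨1,[(4,0),(6,0),(7,0)]⟩,.k,.k,(.x 0 ⟨1,[(4,0),(6,0),(10,0),(2,0)]⟩ ⟨3,
  [(17,0),(0,0),(13,3),(3,1)]⟩),(.r 0 ⟨1,[(10,0),(6,0),(9,0)]⟩ ⟨7,[(0,3),(16,0),(0,2),(17,1),(0,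
  1)]⟩),.k,.k,⟨false,1,⟨1,[(17,0),(17,1),(1,0)]⟩,⟨0,[(0,0),(34,0)]⟩⟩,⟨true,0,⟨1,[(19,0),(2,0),(2,
  0)]⟩,⟨0,[(20,0)]⟩⟩,⟨false,1,⟨3,[(17,0),(0,0),(18,1)]⟩,⟨0,[]⟩⟩,⟨false,0,⟨0,[(1,0),(21,0)]⟩,⟨1,[(17,
  0),(2,1),(14,1),(1,0)]⟩⟩,⟨true,0,⟨0,[(35,0)]⟩,⟨0,[(34,0)]⟩⟩,⟨false,0,⟨0,[(1,0),(21,0),(11,0)]⟩,⟨1,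
  [(17,0),(2,1),(16,0)]⟩⟩,[.o ⟨false,0,⟨0,[(7,0),(15,0)]⟩,⟨3,[(17,0),(0,0),(16,3),(1,1)]⟩⟩,.o
  ⟨false,1,⟨11,[(5,3),(7,3),(3,2),(0,2),(11,3),(6,1)]⟩,⟨0,[(35,0)]⟩⟩,.a ⟨true,0,⟨0,[(20,0)]⟩,⟨1,
  [(19,0),(8,0),(0,0)]⟩⟩ ⟨false,1,⟨1,[(17,0),(19,0)]⟩,⟨0,[(2,0)]⟩⟩ ⟨true,0,⟨5,[(5,0),(7,2),(5,2),(1,
  1),(12,0)]⟩,⟨0,[(20,0),(14,0)]⟩⟩,.o ⟨false,0,⟨2,[(6,0),(13,2),(4,1),(4,0)]⟩,⟨7,[(17,0),(0,0),(0,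
  3),(10,1),(5,3)]⟩⟩]⟩) (.R ⟨1,false,false,false,[1,0,0,-1],[1,0,-1],[0,0,0,0,0,0,0,0,-1],(⟨1,[(19,
  0),(8,0),(0,0)]⟩,⟨0,[(20,0)]⟩),(⟨0,[(28,0)]⟩,⟨0,[(29,0)]⟩),⟨1,[(4,0),(6,0),(7,0)]⟩,.k,.k,(.r (-1)
  ⟨0,[(0,0),(4,0),(7,0),(14,0),(0,0),(6,0)]⟩ ⟨1,[(10,0),(7,0),(8,0)]⟩),.k,(.r (-1) ⟨0,[(0,0),(4,0),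
  (7,0),(13,0),(0,0),(0,0),(6,0)]⟩ ⟨2,[(2,0),(6,0),(0,1),(7,0)]⟩),.k,⟨false,1,⟨1,[(17,0),(9,1),(8,
  0)]⟩,⟨0,[(1,0),(8,0),(2,0),(6,0),(15,0)]⟩⟩,⟨true,0,⟨1,[(16,0),(2,0)]⟩,⟨0,[(20,0),(4,0)]⟩⟩,⟨false,
  1,⟨3,[(17,0),(0,0),(18,1)]⟩,⟨0,[]⟩⟩,⟨false,0,⟨0,[(1,0),(33,0)]⟩,⟨1,[(17,0),(2,1),(2,1),(13,0)]⟩⟩,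
  ⟨true,0,⟨0,[(35,0)]⟩,⟨0,[(34,0)]⟩⟩,⟨false,0,⟨0,[(1,0),(33,1)]⟩,⟨1,[(13,1),(3,0),(2,1),(16,0)]⟩⟩,
  [.o ⟨false,0,⟨0,[(8,0)]⟩,⟨3,[(17,0),(0,0),(4,3),(13,1)]⟩⟩,.o ⟨false,1,⟨3,[(8,1),(15,1),(5,0),(6,
  2)]⟩,⟨0,[(23,0)]⟩⟩,.a ⟨true,0,⟨0,[(20,0)]⟩,⟨1,[(19,0),(8,0),(0,0)]⟩⟩ ⟨false,1,⟨1,[(17,0),(19,0)]⟩,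
  ⟨0,[(2,0)]⟩⟩ ⟨true,0,⟨29,[(0,3),(0,3),(3,9),(0,3),(3,7),(8,12),(4,7),(3,0),(0,0),(6,11)]⟩,⟨0,[(20,
  0),(2,0)]⟩⟩,.o ⟨false,0,⟨2,[(6,0),(13,2),(4,1),(4,0)]⟩,⟨7,[(17,0),(0,0),(0,3),(10,1),(5,3)]⟩⟩]⟩))
  (.Q [0,1,0,-2,0,0,0,0,-1,-1,0,1] (.p true [0,0,0,1] [1] (⟨0,[(19,0)]⟩,⟨1,[(18,0),(8,0),(0,0)]⟩)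
  .k 1 (⟨0,[]⟩,⟨0,[]⟩) .k .k) (.R ⟨1,false,false,false,[1,0,0,-1],[0,1],[1,0,0,-1,0,0,0,0,-1],(⟨1,
  [(19,0),(8,0),(0,0)]⟩,⟨0,[(20,0)]⟩),(⟨0,[(32,0)]⟩,⟨0,[(31,0)]⟩),⟨1,[(4,0),(6,0),(7,0)]⟩,.k,.k,(.r
  (-1) ⟨3,[(0,1),(16,0),(1,0),(8,0),(0,0),(6,1),(0,0)]⟩ ⟨1,[(10,0),(7,0),(8,0)]⟩),(.r (-1) ⟨3,[(0,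
  1),(16,0),(1,0),(8,0),(0,0),(6,1),(0,0)]⟩ ⟨1,[(10,0),(7,0),(8,0)]⟩),(.r (-2) ⟨3,[(0,1),(8,3),(7,
  0),(1,0),(7,3),(0,0),(0,0),(6,1),(0,0)]⟩ ⟨0,[(2,0),(7,0),(16,0)]⟩),.k,⟨true,1,⟨1,[(0,1),(18,0),(8,
  0),(0,0),(6,0),(0,0)]⟩,⟨0,[(2,0),(7,0),(16,0)]⟩⟩,⟨false,1,⟨1,[(19,0),(8,0),(0,0),(6,1)]⟩,⟨2,[(6,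
  0),(13,2),(4,1),(4,0)]⟩⟩,⟨false,1,⟨0,[(34,0),(2,0)]⟩,⟨0,[(35,0)]⟩⟩,⟨true,0,⟨1,[(2,1),(16,0),(8,0),
  (0,0),(5,1)]⟩,⟨2,[(0,1),(0,0),(6,0)]⟩⟩,⟨true,0,⟨0,[]⟩,⟨0,[(39,0)]⟩⟩,⟨true,0,⟨1,[(2,1),(16,0),(8,
  0),(0,0),(5,3)]⟩,⟨0,[(0,0)]⟩⟩,[.o ⟨false,0,⟨0,[(35,0)]⟩,⟨11,[(5,3),(7,3),(3,2),(0,2),(11,3),(6,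
  1)]⟩⟩,.o ⟨false,1,⟨3,[(17,0),(0,0),(16,3),(1,1)]⟩,⟨0,[(7,0),(15,0)]⟩⟩,.a ⟨true,0,⟨0,[(20,0)]⟩,⟨1,
  [(19,0),(8,0),(0,0)]⟩⟩ ⟨false,1,⟨3,[(0,1),(16,0),(1,0),(8,0),(0,0),(7,2)]⟩,⟨0,[(2,0),(32,0)]⟩⟩
  ⟨true,0,⟨1,[(19,0),(8,0),(0,0),(5,1)]⟩,⟨2,[(0,1),(0,0),(0,2),(5,0)]⟩⟩,.o ⟨false,0,⟨2,[(6,0),(13,
  2),(4,1),(4,0)]⟩,⟨7,[(17,0),(0,0),(0,3),(10,1),(5,3)]⟩⟩]⟩) (.R ⟨1,true,false,false,[1,0,0,-1],[0,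
  1],[0,0,0,0,0,0,0,0,-1],(⟨1,[(19,0),(8,0),(0,0)]⟩,⟨0,[(20,0)]⟩),(⟨0,[(32,0)]⟩,⟨0,[(31,0)]⟩),⟨1,
  [(4,0),(6,0),(7,0)]⟩,.k,.k,(.r (-1) ⟨1,[(1,1),(3,1),(13,0),(8,0),(0,0),(6,0),(0,0)]⟩ ⟨1,[(10,0),
  (7,0),(8,0)]⟩),(.r (-1) ⟨1,[(1,1),(3,1),(13,0),(8,0),(0,0),(6,0),(0,0)]⟩ ⟨1,[(10,0),(7,0),(8,
  0)]⟩),(.r (-2) ⟨3,[(5,1),(3,1),(3,1),(3,1),(9,1),(0,1),(0,1),(6,2),(0,0)]⟩ ⟨0,[(2,0),(7,0),(16,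
  0)]⟩),.k,⟨true,1,⟨1,[(1,1),(3,1),(13,0),(8,0),(0,0),(6,0),(0,0)]⟩,⟨2,[(0,1),(1,0),(2,0),(0,0),(3,
  1),(2,2),(6,1),(12,0)]⟩⟩,⟨false,1,⟨1,[(19,0),(8,0),(0,0),(6,1)]⟩,⟨2,[(6,0),(13,2),(4,1),(4,0)]⟩⟩,
  ⟨false,1,⟨3,[(17,0),(0,0),(18,1)]⟩,⟨0,[]⟩⟩,⟨true,0,⟨0,[(0,0),(33,0)]⟩,⟨0,[(1,0),(3,0)]⟩⟩,⟨true,0,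
  ⟨0,[(35,0)]⟩,⟨0,[(34,0)]⟩⟩,⟨false,0,⟨0,[(0,0)]⟩,⟨5,[(5,3),(7,3),(3,2),(2,5),(9,0),(6,1)]⟩⟩,[]⟩)))
  (.R ⟨1,false,false,false,[1,0,0,-1],[1,-1],[0,0,0,0,0,0,0,0,-1],(⟨1,[(17,0),(8,0),(0,0)]⟩,⟨0,[(18,
  0)]⟩),(⟨0,[(29,0)]⟩,⟨0,[(30,0)]⟩),⟨1,[(2,0),(6,0),(7,0)]⟩,.k,.k,(.r (-1) ⟨5,[(0,1),(2,1),(7,1),(3,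
  1),(10,1),(0,1),(6,2),(0,0)]⟩ ⟨1,[(8,0),(7,0),(8,0)]⟩),(.r 0 ⟨1,[(8,0),(6,0),(9,0)]⟩ ⟨1,[(1,1),(9,
  1),(6,1),(15,0),(0,0)]⟩),.k,.k,⟨false,0,⟨0,[(0,0),(32,0)]⟩,⟨1,[(1,1),(9,1),(6,1),(15,0),(0,0)]⟩⟩,
  ⟨true,0,⟨1,[(17,0),(2,0),(2,0)]⟩,⟨0,[(18,0)]⟩⟩,⟨false,1,⟨3,[(15,0),(0,0),(18,1)]⟩,⟨0,[]⟩⟩,⟨false,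
  1,⟨0,[(1,0),(9,0),(23,0)]⟩,⟨0,[(0,0),(17,0),(14,0)]⟩⟩,⟨true,0,⟨0,[(33,0)]⟩,⟨0,[(32,0)]⟩⟩,⟨false,1,
  ⟨0,[(1,0),(19,0),(13,0)]⟩,⟨0,[(0,0),(17,0)]⟩⟩,[.o ⟨false,1,⟨11,[(3,3),(7,3),(3,2),(0,2),(11,3),(6,
  1)]⟩,⟨0,[(33,0)]⟩⟩,.o ⟨false,1,⟨2,[(3,0),(7,0),(16,0),(6,1)]⟩,⟨0,[(33,0),(3,0)]⟩⟩,.a ⟨true,0,⟨0,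
  [(18,0)]⟩,⟨1,[(17,0),(8,0),(0,0)]⟩⟩ ⟨true,0,⟨0,[(0,0)]⟩,⟨0,[(1,0),(16,0),(2,0)]⟩⟩ ⟨false,1,⟨23,
  [(3,7),(7,7),(3,2),(0,2),(0,11),(10,1),(6,15)]⟩,⟨0,[(18,0),(14,0)]⟩⟩,.o ⟨false,0,⟨2,[(4,0),(13,2),
  (4,1),(4,0)]⟩,⟨7,[(15,0),(0,0),(0,3),(10,1),(5,3)]⟩⟩]⟩)))))))))

theorem ok111 : chk (cU (-1) false 2) t111 r10 = true := by decide +kernel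

end Helper11.CT.T1_3_m1_1_v
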