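import Pool.Agent.Helper11.CT.T.T1_3_m1_1_v_q

set_option autoImplicit false
set_option linter.all false

namespace Helper11.CT.T1_3_m1_1_v

open Helper11.CT

noncomputable def t12 : Tre :=
  (.Q [0,-1,0,1,0,0,-1,-1,0,1,1] (.p true [1,-1,1] [] (⟨0,[(21,0),(1,0)]⟩,⟨0,[(0,0)]⟩) .k 0 (⟨0,[]⟩,
  ⟨0,[]⟩) .k .k) (.K ⟨1,[0,1,-1],0,0,(⟨0,[(1,0)]⟩,⟨0,[(22,0),(1,0)]⟩),.k,.k,(.r 0 ⟨1,[(0,0),(14,0),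
  (1,0),(0,2),(9,2)]⟩ ⟨0,[(3,0)]⟩),.k,.k,[⟨1,[(18,2),(0,0)]⟩,⟨2,[(0,0),(8,0),(10,0),(6,0)]⟩,⟨0,[(6,
  0)]⟩,⟨0,[(0,0)]⟩]⟩) (.Q [0,0,1,0,0,0,0,-1,0,-1] (.pp true [-1,1]) (.Q [0,0,1,0,0,0,2,0,0,0,-2]
  (.p false [0,0,1] [0,1,-1] (⟨0,[(23,0)]⟩,⟨0,[(22,0)]⟩) .k 2 (⟨0,[(2,0)]⟩,⟨0,[(23,0),(1,0)]⟩) .k
  (.r 0 ⟨0,[(21,1)]⟩ ⟨0,[(3,0),(5,0),(9,0)]⟩)) (.K ⟨2,[0,1,-1],0,0,(⟨0,[(3,0)]⟩,⟨0,[(24,0),(1,0)]⟩),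
  .k,.k,(.r 0 ⟨1,[(4,1),(15,2),(0,0),(8,3)]⟩ ⟨0,[(5,0)]⟩),(.r 0 ⟨0,[(0,0),(3,1),(25,0)]⟩ ⟨3,[(5,1),
  (6,0),(0,0),(8,5)]⟩),.k,[⟨0,[(0,0)]⟩,⟨1,[(11,0),(11,0),(0,0)]⟩,⟨0,[(8,0)]⟩,⟨0,[(19,0),(10,0)]⟩]⟩)
  (.I [1,-1,2,1,-1,0,0,0,-1] (.I [0,0,2,1,-1,0,0,-1,-1] (.Q [0,0,0,-2,0,0,0,0,-1,-1,0,1] (.p true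
  [0,0,0,1] [1] (⟨0,[(17,0)]⟩,⟨1,[(16,0),(8,0),(0,0)]⟩) .k 1 (⟨0,[]⟩,⟨0,[]⟩) .k .k) (.Q [0,0,0,0,0,
  -1,0,0,0,1,0,-1] (.p false [0,0,0,1] [1] (⟨0,[(18,0)]⟩,⟨1,[(17,0),(8,0),(0,0)]⟩) .k 1 (⟨0,[]⟩,⟨0,
  []⟩) .k .k) (.I [0,1,-1,-1,0,0,0,0,-1] (.R ⟨1,false,false,false,[1,0,0,-1],[0,1],[0,1,0,0,0,0,0,0,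
  -1],(⟨1,[(19,0),(8,0),(0,0)]⟩,⟨0,[(20,0)]⟩),(⟨0,[(32,0)]⟩,⟨0,[(31,0)]⟩),⟨0,[(1,0)]⟩,.k,.k,(.x 0
  ⟨7,[(4,1),(1,1),(0,1),(10,0),(3,1),(7,0),(0,7)]⟩ ⟨3,[(17,0),(0,0),(13,3),(3,1)]⟩),(.x 0 ⟨7,[(4,1),
  (1,1),(0,1),(10,0),(3,1),(7,0),(0,7)]⟩ ⟨3,[(17,0),(0,0),(13,3),(3,1)]⟩),(.r (-1) ⟨1,[(2,1),(16,0),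
  (8,0),(0,0),(6,1)]⟩ ⟨0,[(4,0),(13,0),(16,0),(3,0)]⟩),.k,⟨true,0,⟨0,[(0,0)]⟩,⟨0,[(4,0),(13,0)]⟩⟩,
  ⟨false,1,⟨1,[(19,0),(8,0),(0,0),(6,1)]⟩,⟨7,[(4,1),(1,1),(0,1),(10,0),(1,7),(1,1),(7,0)]⟩⟩,⟨true,0,
  ⟨0,[(39,0)]⟩,⟨0,[]⟩⟩,⟨false,1,⟨1,[(18,0),(0,0),(8,0),(0,0),(5,1),(1,0)]⟩,⟨0,[(2,0),(32,0)]⟩⟩,
  ⟨false,0,⟨0,[(35,0)]⟩,⟨0,[(34,0),(2,0)]⟩⟩,⟨false,1,⟨1,[(18,0),(0,0),(8,0),(0,0),(5,3),(1,0)]⟩,⟨0,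
  [(2,0)]⟩⟩,[.o ⟨false,0,⟨0,[(35,0)]⟩,⟨15,[(2,7),(14,2),(0,6),(0,3),(10,5)]⟩⟩,.o ⟨false,1,⟨3,[(17,
  0),(0,0),(16,3),(1,1)]⟩,⟨0,[(7,0),(1,0)]⟩⟩,.a ⟨true,0,⟨0,[(20,0)]⟩,⟨1,[(19,0),(8,0),(0,0)]⟩⟩
  ⟨false,0,⟨5,[(0,1),(3,1),(12,0),(18,0)]⟩,⟨1,[(18,0),(18,0)]⟩⟩ ⟨true,0,⟨1,[(19,0),(8,0),(0,0),(5,
  1)]⟩,⟨0,[(7,0),(1,0),(10,0)]⟩⟩,.o ⟨false,0,⟨7,[(4,1),(1,1),(0,1),(10,0),(1,7),(1,1),(7,0)]⟩,⟨7,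
  [(17,0),(0,0),(0,3),(10,1),(5,3)]⟩⟩]⟩) (.I [1,-1,0,0,0,0,0,0,-1] (.R ⟨1,false,false,true,[1,0,0,
  -1],[1,-1],[1,1,0,-1,0,0,0,0,-1],(⟨1,[(20,0),(8,0),(0,0)]⟩,⟨0,[(21,0)]⟩),(⟨0,[(32,0)]⟩,⟨0,[(33,
  0)]⟩),⟨0,[(2,0)]⟩,.k,.k,(.r (-1) ⟨7,[(0,1),(10,1),(1,1),(4,2),(16,1),(1,0)]⟩ ⟨0,[(1,0),(38,0)]⟩),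
  (.x (-1) ⟨3,[(18,0),(0,0),(13,3),(3,1)]⟩ ⟨8,[(1,0),(3,0),(1,1),(0,1),(14,2),(2,0),(4,0),(0,8)]⟩),
  .k,.k,⟨false,0,⟨0,[(0,0),(39,0)]⟩,⟨1,[(19,0),(17,0)]⟩⟩,⟨true,0,⟨1,[(20,0),(2,0),(2,0)]⟩,⟨0,[(21,
  0)]⟩⟩,⟨true,0,⟨0,[(35,0)]⟩,⟨0,[(36,0)]⟩⟩,⟨false,1,⟨15,[(3,7),(14,0),(0,12),(0,11),(10,1)]⟩,⟨0,[(0,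
  0),(20,0),(14,0)]⟩⟩,⟨false,0,⟨0,[]⟩,⟨3,[(18,0),(0,0),(18,1)]⟩⟩,⟨false,1,⟨7,[(18,0),(0,4),(0,3),
  (10,1)]⟩,⟨0,[(0,0),(20,0)]⟩⟩,[.o ⟨false,0,⟨0,[(8,0),(1,0)]⟩,⟨3,[(18,0),(0,0),(16,3),(1,1)]⟩⟩,.o
  ⟨false,1,⟨15,[(3,7),(14,2),(0,6),(0,3),(10,5)]⟩,⟨0,[(36,0)]⟩⟩,.a ⟨true,0,⟨0,[(21,0)]⟩,⟨1,[(20,0),
  (8,0),(0,0)]⟩⟩ ⟨false,0,⟨0,[(0,0),(34,0)]⟩,⟨1,[(19,0),(16,1),(1,0)]⟩⟩ ⟨true,0,⟨1,[(8,0),(1,0),(9,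
  0),(14,0)]⟩,⟨0,[(21,0),(14,0)]⟩⟩,.o ⟨false,0,⟨8,[(1,0),(3,0),(1,1),(0,1),(12,8),(1,2),(2,0),(4,
  0)]⟩,⟨7,[(18,0),(0,0),(0,3),(10,1),(5,3)]⟩⟩]⟩) (.R ⟨1,false,false,true,[1,0,0,-1],[0,1],[0,0,0,0,
  0,0,0,0,-1],(⟨1,[(20,0),(8,0),(0,0)]⟩,⟨0,[(21,0)]⟩),(⟨0,[(33,0)]⟩,⟨0,[(32,0)]⟩),⟨0,[(2,0)]⟩,.k,.k,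
  (.r (-1) ⟨9,[(3,1),(7,1),(1,1),(4,3),(1,0),(8,0),(0,0),(6,1)]⟩ ⟨5,[(0,1),(0,2),(2,0),(14,0),(4,0),
  (2,0),(8,1)]⟩),(.r (-1) ⟨9,[(3,1),(7,1),(1,1),(4,3),(1,0),(8,0),(0,0),(6,1)]⟩ ⟨5,[(0,1),(0,2),(2,
  0),(14,0),(4,0),(2,0),(8,1)]⟩),(.r (-1) ⟨1,[(3,1),(16,0),(8,0),(0,0),(6,1)]⟩ ⟨1,[(1,0),(2,0),(14,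
  0),(4,0),(2,0),(8,1)]⟩),.k,⟨true,1,⟨9,[(5,7),(5,5),(1,5),(4,0),(18,3),(0,0)]⟩,⟨0,[(0,1),(4,0)]⟩⟩,
  ⟨false,1,⟨1,[(20,0),(8,0),(0,0),(6,1)]⟩,⟨8,[(1,0),(3,0),(1,1),(0,1),(12,8),(1,2),(2,0),(4,0)]⟩⟩,
  ⟨false,1,⟨3,[(18,0),(0,0),(18,1)]⟩,⟨0,[]⟩⟩,⟨true,0,⟨1,[(0,1),(19,0),(8,0),(0,0),(5,1)]⟩,⟨0,[(3,0),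
  (32,0)]⟩⟩,⟨true,0,⟨0,[(36,0)]⟩,⟨0,[(35,0)]⟩⟩,⟨true,0,⟨1,[(0,1),(19,0),(8,0),(0,0),(5,3)]⟩,⟨0,[(3,
  0)]⟩⟩,[.o ⟨false,0,⟨0,[(36,0),(3,0)]⟩,⟨6,[(3,1),(3,1),(0,0),(2,0),(3,0),(3,0),(0,0),(10,0),(6,
  3)]⟩⟩,.o ⟨false,0,⟨0,[(36,0)]⟩,⟨15,[(3,7),(14,2),(0,6),(0,3),(10,5)]⟩⟩,.a ⟨true,0,⟨0,[(21,0)]⟩,⟨1,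
  [(20,0),(8,0),(0,0)]⟩⟩ ⟨true,0,⟨17,[(4,11),(0,3),(0,1),(4,7),(6,0),(5,3),(12,6)]⟩,⟨0,[(0,0)]⟩⟩
  ⟨false,0,⟨1,[(20,0),(8,0),(0,0),(5,1)]⟩,⟨3,[(3,1),(15,0),(1,1),(9,0),(6,1)]⟩⟩,.o ⟨false,0,⟨8,[(1,
  0),(3,0),(1,1),(0,1),(12,8),(1,2),(2,0),(4,0)]⟩,⟨7,[(18,0),(0,0),(0,3),(10,1),(5,3)]⟩⟩]⟩))) (.I
  [0,0,-1,-1,1,0,0,0,1] (.R ⟨0,false,false,false,[0,0,0,1],[0,1],[1,0,0,0,0,0,0,0,1],(⟨0,[(20,0)]⟩,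
  ⟨1,[(19,0),(8,0),(0,0)]⟩),(⟨0,[(32,0)]⟩,⟨0,[(31,0)]⟩),⟨0,[(1,0),(17,0)]⟩,.k,.k,(.r (-1) ⟨0,[(0,
  0)]⟩ ⟨19,[(3,3),(0,3),(12,6),(0,0),(4,3),(2,3),(8,11)]⟩),(.r (-1) ⟨0,[(0,0)]⟩ ⟨19,[(3,3),(0,3),
  (12,6),(0,0),(4,3),(2,3),(8,11)]⟩),.k,.k,⟨true,1,⟨0,[(0,0)]⟩,⟨0,[(4,0),(34,0)]⟩⟩,⟨false,1,⟨0,[(20,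
  0),(15,0)]⟩,⟨1,[(19,0),(2,0),(2,0)]⟩⟩,⟨true,0,⟨0,[]⟩,⟨0,[(39,0)]⟩⟩,⟨false,0,⟨0,[(4,0),(15,0),(15,
  0)]⟩,⟨15,[(2,7),(14,0),(0,12),(0,11),(10,1)]⟩⟩,⟨false,0,⟨0,[]⟩,⟨0,[]⟩⟩,⟨false,0,⟨0,[]⟩,⟨0,[]⟩⟩,
  [.o ⟨false,0,⟨0,[(35,0)]⟩,⟨15,[(2,7),(14,2),(0,6),(0,3),(10,5)]⟩⟩,.o ⟨false,1,⟨3,[(17,0),(0,0),
  (16,3),(1,1)]⟩,⟨0,[(7,0),(1,0)]⟩⟩,.a ⟨true,0,⟨1,[(19,0),(8,0),(0,0)]⟩,⟨0,[(20,0)]⟩⟩ ⟨false,1,⟨1,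
  [(18,0),(18,0)]⟩,⟨17,[(3,11),(0,3),(0,1),(4,7),(6,0),(5,3),(12,6)]⟩⟩ ⟨true,0,⟨0,[(20,0),(14,0)]⟩,
  ⟨1,[(7,0),(1,0),(9,0),(14,0)]⟩⟩,.o ⟨false,0,⟨1,[(19,0),(2,0),(2,0)]⟩,⟨1,[(20,1),(9,0),(5,0)]⟩⟩]⟩)
  (.R ⟨0,false,false,false,[0,0,0,1],[0,1],[1,0,1,1],(⟨0,[(20,0)]⟩,⟨1,[(19,0),(8,0),(0,0)]⟩),(⟨0,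
  [(32,0)]⟩,⟨0,[(31,0)]⟩),⟨0,[(1,0),(17,0)]⟩,.k,.k,(.x 0 ⟨7,[(4,1),(1,1),(0,1),(10,0),(3,1),(7,0),
  (0,7)]⟩ ⟨3,[(17,0),(0,0),(13,3),(3,1)]⟩),(.x 0 ⟨7,[(4,1),(1,1),(0,1),(10,0),(3,1),(7,0),(0,7)]⟩
  ⟨3,[(17,0),(0,0),(13,3),(3,1)]⟩),.k,.k,⟨true,0,⟨0,[]⟩,⟨1,[(25,0),(0,0)]⟩⟩,⟨false,1,⟨0,[(20,0),(15,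
  0)]⟩,⟨1,[(19,0),(2,0),(2,0)]⟩⟩,⟨true,(-1),⟨0,[(0,0)]⟩,⟨1,[(18,0),(15,1),(1,0)]⟩⟩,⟨false,0,⟨0,[(4,
  0),(15,0),(15,0)]⟩,⟨15,[(2,7),(14,0),(0,12),(0,11),(10,1)]⟩⟩,⟨false,0,⟨0,[]⟩,⟨0,[]⟩⟩,⟨false,0,⟨0,
  []⟩,⟨0,[]⟩⟩,[.o ⟨false,0,⟨0,[(35,0)]⟩,⟨15,[(2,7),(14,2),(0,6),(0,3),(10,5)]⟩⟩,.o ⟨false,1,⟨3,[(17,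
  0),(0,0),(16,3),(1,1)]⟩,⟨0,[(7,0),(1,0)]⟩⟩,.a ⟨true,0,⟨1,[(19,0),(8,0),(0,0)]⟩,⟨0,[(20,0)]⟩⟩
  ⟨false,0,⟨3,[(4,1),(13,0),(16,1),(1,0)]⟩,⟨5,[(10,1),(1,1),(4,0),(0,0)]⟩⟩ ⟨true,0,⟨0,[(20,0),(14,
  0)]⟩,⟨1,[(7,0),(1,0),(9,0),(14,0)]⟩⟩,.o ⟨false,0,⟨1,[(19,0),(2,0),(2,0)]⟩,⟨1,[(20,1),(9,0),(5,
  0)]⟩⟩]⟩))) (.Q [0,-1,0,2,0,0,0,0,0,1] (.pp false [-1,1]) (.R ⟨2,true,false,true,[0,1],[1,-1],[0,1,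
  1,1],(⟨0,[]⟩,⟨0,[]⟩),(⟨0,[(30,0)]⟩,⟨0,[(31,0)]⟩),⟨0,[]⟩,.k,.k,.k,(.r 1 ⟨0,[(1,0),(1,0),(2,0),(1,
  0),(10,0)]⟩ ⟨2,[(9,1),(1,1),(4,0),(0,0)]⟩),.k,.k,⟨true,(-1),⟨0,[(1,0),(1,0),(2,0),(1,0),(10,0)]⟩,
  ⟨1,[(9,0),(1,0),(20,0),(0,0)]⟩⟩,⟨false,0,⟨7,[(3,1),(1,1),(0,1),(10,0),(3,1),(7,0)]⟩,⟨0,[(27,0),(0,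
  0),(6,0)]⟩⟩,⟨true,0,⟨0,[(38,0)]⟩,⟨0,[]⟩⟩,⟨false,1,⟨4,[(5,2),(0,0),(2,1),(11,0),(11,4),(2,2)]⟩,⟨0,
  [(0,0)]⟩⟩,⟨false,0,⟨0,[(34,0)]⟩,⟨0,[(33,0),(2,0)]⟩⟩,⟨true,0,⟨0,[(6,0),(1,0)]⟩,⟨1,[(0,0),(26,0),(0,
  0),(9,0)]⟩⟩,[]⟩) (.R ⟨2,true,false,true,[0,1],[0,0,0,1],[1,1,1],(⟨0,[]⟩,⟨0,[]⟩),(⟨0,[(19,0)]⟩,⟨1,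
  [(18,0),(8,0),(0,0)]⟩),⟨0,[]⟩,.k,.k,.k,(.x (-1) ⟨3,[(16,0),(0,0),(13,3),(3,1)]⟩ ⟨7,[(3,1),(1,1),
  (0,1),(10,0),(3,1),(7,0),(0,7)]⟩),.k,.k,⟨false,0,⟨17,[(2,11),(0,3),(0,1),(4,7),(6,0),(5,3),(12,
  6)]⟩,⟨1,[(17,0),(17,0)]⟩⟩,⟨true,0,⟨1,[(18,0),(2,0),(2,0)]⟩,⟨0,[(19,0)]⟩⟩,⟨true,0,⟨0,[(33,0)]⟩,⟨0,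
  [(34,0)]⟩⟩,⟨false,1,⟨7,[(0,3),(15,0),(0,4),(0,3),(17,1)]⟩,⟨0,[(3,0),(15,0),(15,0)]⟩⟩,⟨false,0,⟨0,
  []⟩,⟨3,[(16,0),(0,0),(18,1)]⟩⟩,⟨true,0,⟨0,[(0,0),(0,0)]⟩,⟨17,[(2,11),(0,3),(0,1),(4,7),(6,0),(2,
  17),(2,3),(12,6)]⟩⟩,[]⟩))) (.Q [0,0,0,0,0,0,1,1,0,1,-1] (.p false [0,0,1] [1] (⟨0,[(26,0)]⟩,⟨0,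
  [(25,0)]⟩) .k 1 (⟨0,[]⟩,⟨0,[]⟩) .k .k) (.R ⟨0,false,false,true,[0,1,-1],[1,0,-1],[1,1,1],(⟨0,[(6,
  0)]⟩,⟨0,[(27,0),(1,0)]⟩),(⟨0,[(26,0)]⟩,⟨0,[(27,0)]⟩),⟨0,[(27,0)]⟩,.k,.k,.k,.k,.k,.k,⟨false,0,⟨0,
  [(25,0)]⟩,⟨0,[(13,0)]⟩⟩,⟨true,0,⟨7,[(2,1),(1,1),(0,1),(10,0),(3,1),(7,0)]⟩,⟨0,[(0,0),(6,0)]⟩⟩,
  ⟨false,0,⟨0,[(1,0),(0,0),(29,0)]⟩,⟨3,[(2,1),(10,3),(2,0),(16,1),(1,0)]⟩⟩,⟨true,0,⟨0,[(5,0),(1,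
  0)]⟩,⟨0,[(0,0),(6,0),(25,0)]⟩⟩,⟨false,0,⟨0,[]⟩,⟨0,[]⟩⟩,⟨false,0,⟨0,[]⟩,⟨0,[]⟩⟩,[.o ⟨false,0,⟨0,
  [(19,0)]⟩,⟨1,[(0,1),(27,0),(6,0)]⟩⟩,.a ⟨true,0,⟨0,[(7,0)]⟩,⟨0,[(0,0)]⟩⟩ ⟨false,0,⟨0,[]⟩,⟨3,[(15,
  0),(0,0),(17,1)]⟩⟩ ⟨true,0,⟨0,[(4,0)]⟩,⟨2,[(0,2),(2,0),(20,0)]⟩⟩,.e ⟨false,0,⟨1,[(23,0),(0,0)]⟩,
  ⟨1,[(34,0),(0,0)]⟩⟩ ⟨false,0,⟨0,[(4,0)]⟩,⟨7,[(0,7),(2,3),(11,0),(0,0),(17,1),(0,3)]⟩⟩,.o ⟨false,0,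
  ⟨2,[(3,0),(20,0)]⟩,⟨1,[(23,1),(4,0),(5,0)]⟩⟩]⟩) (.Q [0,0,0,0,0,1,0,0,0,0,0,-1] (.p false [0,0,0,
  1] [] (⟨0,[(18,0)]⟩,⟨1,[(17,0),(8,0),(0,0)]⟩) .k 0 (⟨0,[]⟩,⟨0,[]⟩) .k .k) (.R ⟨0,false,false,
  false,[0,0,0,1],[0,1],[1,0,0,0,0,0,0,0,1],(⟨0,[(19,0)]⟩,⟨1,[(18,0),(8,0),(0,0)]⟩),(⟨0,[(31,0)]⟩,
  ⟨0,[(30,0)]⟩),⟨0,[(0,0)]⟩,.k,.k,(.r (-1) ⟨0,[(2,0),(5,0),(15,0)]⟩ ⟨7,[(3,3),(12,2),(0,0),(16,3),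
  (3,3)]⟩),(.r (-1) ⟨0,[(2,0),(5,0),(15,0)]⟩ ⟨7,[(3,3),(12,2),(0,0),(16,3),(3,3)]⟩),.k,.k,⟨true,1,
  ⟨0,[(2,0),(5,0),(15,0)]⟩,⟨0,[(3,0),(34,0)]⟩⟩,⟨false,1,⟨0,[(19,0),(15,0)]⟩,⟨1,[(18,0),(2,0),(2,
  0)]⟩⟩,⟨true,0,⟨0,[]⟩,⟨0,[(38,0)]⟩⟩,⟨false,0,⟨0,[(3,0),(15,0),(15,0)]⟩,⟨9,[(5,2),(0,0),(2,1),(7,4),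
  (0,4),(2,0),(11,4),(2,2)]⟩⟩,⟨false,0,⟨0,[]⟩,⟨0,[]⟩⟩,⟨false,0,⟨0,[]⟩,⟨0,[]⟩⟩,[.o ⟨false,0,⟨0,[(34,
  0)]⟩,⟨1,[(29,0),(3,1),(2,0)]⟩⟩,.o ⟨false,1,⟨3,[(16,0),(0,0),(16,3),(1,1)]⟩,⟨1,[(1,0),(4,0),(26,
  0)]⟩⟩,.a ⟨true,0,⟨1,[(18,0),(8,0),(0,0)]⟩,⟨0,[(19,0)]⟩⟩ ⟨false,1,⟨1,[(17,0),(18,0)]⟩,⟨0,[(3,0),
  (29,0),(1,0)]⟩⟩ ⟨true,0,⟨0,[(19,0),(14,0)]⟩,⟨3,[(1,0),(4,0),(11,1),(14,2)]⟩⟩,.o ⟨false,0,⟨1,[(18,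
  0),(2,0),(2,0)]⟩,⟨1,[(19,1),(9,0),(5,0)]⟩⟩]⟩) (.R ⟨1,false,false,false,[0,0,0,1],[0,1],[0,0,0,0,0,
  0,0,0,1],(⟨0,[(19,0)]⟩,⟨1,[(18,0),(8,0),(0,0)]⟩),(⟨0,[(31,0)]⟩,⟨0,[(30,0)]⟩),⟨0,[(0,0)]⟩,.k,.k,
  (.r (-1) ⟨0,[(2,0),(5,0),(15,0)]⟩ ⟨7,[(3,3),(12,2),(0,0),(16,3),(3,3)]⟩),(.r (-1) ⟨0,[(2,0),(5,0),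
  (15,0)]⟩ ⟨7,[(3,3),(12,2),(0,0),(16,3),(3,3)]⟩),(.r (-2) ⟨11,[(9,7),(1,7),(4,0),(0,6)]⟩ ⟨0,[(3,0),
  (30,0),(3,0)]⟩),.k,⟨true,1,⟨0,[(2,0),(5,0),(15,0)]⟩,⟨0,[(3,0),(34,0)]⟩⟩,⟨false,1,⟨0,[(19,0),(15,
  0)]⟩,⟨1,[(18,0),(2,0),(2,0)]⟩⟩,⟨false,1,⟨3,[(16,0),(0,0),(18,1)]⟩,⟨0,[]⟩⟩,⟨false,0,⟨0,[(3,0),(15,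
  0),(15,0)]⟩,⟨9,[(5,2),(0,0),(2,1),(7,4),(0,4),(2,0),(11,4),(2,2)]⟩⟩,⟨true,0,⟨0,[(34,0)]⟩,⟨0,[(33,
  0)]⟩⟩,⟨false,0,⟨0,[(3,0),(15,0),(14,0),(0,0)]⟩,⟨1,[(2,1),(2,0),(2,0),(9,0),(5,0),(7,1),(0,1)]⟩⟩,
  [.o ⟨false,0,⟨0,[(34,0)]⟩,⟨1,[(29,0),(3,1),(2,0)]⟩⟩,.o ⟨false,1,⟨3,[(16,0),(0,0),(16,3),(1,1)]⟩,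
  ⟨1,[(1,0),(4,0),(26,0)]⟩⟩,.a ⟨true,0,⟨1,[(18,0),(8,0),(0,0)]⟩,⟨0,[(19,0)]⟩⟩ ⟨false,1,⟨1,[(17,0),
  (18,0)]⟩,⟨0,[(3,0),(29,0),(1,0)]⟩⟩ ⟨true,0,⟨0,[(19,0),(14,0)]⟩,⟨3,[(1,0),(4,0),(11,1),(14,2)]⟩⟩,
  .o ⟨false,0,⟨1,[(18,0),(2,0),(2,0)]⟩,⟨1,[(19,1),(9,0),(5,0)]⟩⟩]⟩)))) (.Q [0,0,0,0,0,0,1,1,0,1,-1]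
  (.p false [0,0,1] [1] (⟨0,[(25,0)]⟩,⟨0,[(24,0)]⟩) .k 1 (⟨0,[]⟩,⟨0,[]⟩) .k .k) (.I [1,0,0,-1,0,0,0,
  1] (.R ⟨0,false,false,true,[0,1,-1],[1,0,-1],[1,1,1],(⟨0,[(6,0)]⟩,⟨0,[(27,0),(1,0)]⟩),(⟨0,[(26,
  0)]⟩,⟨0,[(27,0)]⟩),⟨0,[(27,0)]⟩,.k,.k,.k,.k,.k,.k,⟨false,0,⟨0,[(25,0)]⟩,⟨0,[(13,0)]⟩⟩,⟨true,0,⟨2,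
  [(4,0),(0,0),(14,0),(10,0),(1,0)]⟩,⟨0,[(26,0),(0,0)]⟩⟩,⟨false,0,⟨0,[(0,0)]⟩,⟨1,[(7,0),(5,0),(9,0),
  (9,1),(1,0)]⟩⟩,⟨true,0,⟨0,[(5,0),(1,0)]⟩,⟨0,[(26,0),(0,0),(5,0)]⟩⟩,⟨false,0,⟨0,[]⟩,⟨0,[]⟩⟩,⟨false,
  0,⟨0,[]⟩,⟨0,[]⟩⟩,[.o ⟨false,0,⟨0,[(19,0)]⟩,⟨0,[(21,0),(13,0)]⟩⟩,.a ⟨true,0,⟨0,[(7,0)]⟩,⟨0,[(1,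
  0)]⟩⟩ ⟨false,0,⟨0,[]⟩,⟨3,[(15,0),(0,0),(17,1)]⟩⟩ ⟨true,0,⟨0,[(4,0)]⟩,⟨2,[(1,2),(1,0),(20,0)]⟩⟩,.e
  ⟨false,0,⟨1,[(23,0),(0,0)]⟩,⟨1,[(34,0),(0,0)]⟩⟩ ⟨false,0,⟨0,[(4,0)]⟩,⟨7,[(1,7),(1,3),(11,0),(0,0),
  (17,1),(0,3)]⟩⟩,.o ⟨false,0,⟨2,[(3,0),(20,0)]⟩,⟨1,[(23,1),(4,0),(5,0)]⟩⟩]⟩) (.R ⟨2,false,false,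
  false,[0,1],[0,0,1],[1,1,1],(⟨0,[]⟩,⟨0,[]⟩),(⟨0,[(27,0)]⟩,⟨0,[(26,0)]⟩),⟨0,[]⟩,.k,.k,.k,.k,.k,.k,
  ⟨false,0,⟨0,[(0,0),(31,0)]⟩,⟨1,[(25,1),(8,0),(0,0)]⟩⟩,⟨true,0,⟨0,[(23,0)]⟩,⟨2,[(3,0),(20,0)]⟩⟩,
  ⟨true,0,⟨0,[(32,0)]⟩,⟨0,[(33,0)]⟩⟩,⟨false,1,⟨0,[(11,0),(23,0)]⟩,⟨2,[(0,2),(2,0),(20,0)]⟩⟩,⟨false,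
  0,⟨0,[]⟩,⟨3,[(15,0),(0,0),(18,1)]⟩⟩,⟨false,1,⟨0,[(21,0),(13,0)]⟩,⟨0,[(7,0)]⟩⟩,[.a ⟨true,0,⟨0,[(1,
  0)]⟩,⟨0,[(7,0)]⟩⟩ ⟨false,0,⟨0,[(37,0)]⟩,⟨1,[(34,0),(0,0)]⟩⟩ ⟨true,0,⟨0,[(23,0),(1,0)]⟩,⟨0,[(7,
  0)]⟩⟩,.o ⟨false,1,⟨0,[(21,0),(13,0)]⟩,⟨0,[(19,0)]⟩⟩,.o ⟨false,1,⟨3,[(15,0),(0,0),(17,1)]⟩,⟨2,[(4,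
  0),(0,0),(14,0),(10,0),(1,0)]⟩⟩,.e ⟨false,0,⟨0,[]⟩,⟨3,[(15,0),(0,0),(18,1)]⟩⟩ ⟨false,1,⟨0,[(21,0),
  (13,0)]⟩,⟨0,[(7,0)]⟩⟩]⟩)) (.Q [0,0,-1,0,0,0,-1,0,0,1,1] (.p true [1,-1,1] [] (⟨0,[(26,0),(1,0)]⟩,
  ⟨0,[(5,0)]⟩) .k 0 (⟨0,[]⟩,⟨0,[]⟩) .k .k) (.R ⟨0,false,false,false,[0,1,-1],[1,0,-1],[1,1],(⟨0,[(6,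
  0)]⟩,⟨0,[(27,0),(1,0)]⟩),(⟨0,[(26,0)]⟩,⟨0,[(27,0)]⟩),⟨0,[(27,0)]⟩,.k,.k,.k,.k,.k,.k,⟨false,0,⟨0,
  [(0,0),(4,0),(27,0)]⟩,⟨1,[(7,0),(5,0),(9,0),(11,0)]⟩⟩,⟨true,0,⟨2,[(4,0),(0,0),(14,0),(10,0),(1,
  0)]⟩,⟨0,[(26,0),(0,0)]⟩⟩,⟨true,0,⟨0,[(0,0),(4,0)]⟩,⟨0,[(7,0),(15,0),(9,0)]⟩⟩,⟨false,1,⟨4,[(4,2),
  (0,0),(2,1),(11,0),(14,2)]⟩,⟨0,[(26,0),(0,0),(5,0)]⟩⟩,⟨false,0,⟨0,[]⟩,⟨0,[]⟩⟩,⟨false,0,⟨0,[]⟩,⟨0,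
  []⟩⟩,[.o ⟨false,0,⟨0,[(1,0)]⟩,⟨3,[(15,0),(0,0),(4,3),(13,1)]⟩⟩,.o ⟨false,1,⟨1,[(7,1),(20,0),(6,
  0)]⟩,⟨0,[(21,0)]⟩⟩,.a ⟨true,0,⟨0,[(0,0)]⟩,⟨0,[(23,0)]⟩⟩ ⟨false,0,⟨0,[]⟩,⟨3,[(15,0),(0,0),(18,
  1)]⟩⟩ ⟨true,0,⟨0,[(4,0)]⟩,⟨0,[(0,0),(20,0)]⟩⟩,.o ⟨false,0,⟨2,[(3,0),(20,0)]⟩,⟨1,[(23,1),(4,0),(5,
  0)]⟩⟩]⟩) (.Q [0,0,0,-1,0,0,0,0,1,0,0,-1] (.p false [0,0,0,1] [] (⟨0,[(18,0)]⟩,⟨1,[(17,0),(8,0),(0,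
  0)]⟩) .k 0 (⟨0,[]⟩,⟨0,[]⟩) .k .k) (.Q [0,-1,0,0,0,0,-1,-1,1,0,1,-1] (.p true [0,0,1] [0,0,0,1]
  (⟨0,[(28,0)]⟩,⟨0,[(27,0)]⟩) .k 2 (⟨0,[(19,0)]⟩,⟨1,[(18,0),(8,0),(0,0)]⟩) .k (.x (-1) ⟨7,[(14,3),
  (1,0),(0,0),(4,3),(1,3),(3,7),(7,1)]⟩ ⟨1,[(7,0),(2,0),(4,0)]⟩)) (.I [0,0,2,1,0,0,0,-1,-1] (.Q [0,
  0,0,0,0,1,0,0,0,0,0,-1] (.p false [0,0,0,1] [] (⟨0,[(21,0)]⟩,⟨1,[(20,0),(8,0),(0,0)]⟩) .k 0 (⟨0,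
  []⟩,⟨0,[]⟩) .k .k) (.I [0,0,0,1,0,0,0,-1,1] (.R ⟨0,false,false,true,[0,0,0,1],[1,-1,1],[0,1,0,0,0,
  0,0,0,1],(⟨0,[(23,0)]⟩,⟨1,[(22,0),(8,0),(0,0)]⟩),(⟨0,[(32,0),(1,0)]⟩,⟨0,[(11,0)]⟩),⟨0,[(1,0)]⟩,.k,
  .k,(.x 0 ⟨1,[(5,0),(19,0),(8,1)]⟩ ⟨3,[(20,0),(0,0),(13,3),(3,1)]⟩),(.r 0 ⟨1,[(0,1),(27,0),(0,0)]⟩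
  ⟨1,[(13,0),(6,0),(9,0)]⟩),.k,.k,⟨false,0,⟨0,[(0,0)]⟩,⟨1,[(13,0),(6,0),(9,0)]⟩⟩,⟨true,0,⟨0,[(5,0),
  (17,0)]⟩,⟨5,[(8,1),(13,2),(6,1),(1,2),(0,2)]⟩⟩,⟨true,0,⟨0,[(42,0)]⟩,⟨0,[]⟩⟩,⟨false,1,⟨1,[(10,1),
  (9,0),(2,1),(16,0)]⟩,⟨0,[(3,0),(27,0),(0,0),(5,0)]⟩⟩,⟨false,0,⟨0,[]⟩,⟨0,[]⟩⟩,⟨false,0,⟨0,[]⟩,⟨0,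
  []⟩⟩,[.o ⟨false,0,⟨0,[(10,0)]⟩,⟨7,[(0,5),(1,1),(5,3),(11,2),(0,0),(18,3)]⟩⟩,.o ⟨false,1,⟨3,[(10,
  3),(9,0),(0,0),(18,1)]⟩,⟨0,[(12,0),(25,0)]⟩⟩,.a ⟨true,0,⟨1,[(22,0),(8,0),(0,0)]⟩,⟨0,[(23,0)]⟩⟩
  ⟨false,0,⟨1,[(0,0),(3,0),(18,0),(6,0)]⟩,⟨1,[(20,0),(19,0)]⟩⟩ ⟨true,0,⟨0,[(10,0),(12,0)]⟩,⟨1,[(12,
  1),(9,0),(8,0),(0,0),(5,1)]⟩⟩,.o ⟨false,0,⟨1,[(22,0),(2,0),(2,0)]⟩,⟨1,[(23,1),(9,0),(5,0)]⟩⟩]⟩)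
  (.I [1,1,0,-1,0,0,0,0,-1] (.R ⟨0,false,false,false,[0,0,0,1],[1,-1],[0,1],(⟨0,[(24,0)]⟩,⟨1,[(23,
  0),(8,0),(0,0)]⟩),(⟨0,[(35,0)]⟩,⟨0,[(36,0)]⟩),⟨0,[(2,0)]⟩,.k,.k,(.r (-1) ⟨9,[(5,1),(2,1),(5,1),(1,
  1),(5,2),(1,1),(16,0)]⟩ ⟨1,[(1,0),(1,0),(35,1)]⟩),(.r 0 ⟨1,[(4,1),(19,1),(2,1),(1,0),(0,0),(8,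
  1)]⟩ ⟨3,[(1,1),(14,1),(4,0),(18,0)]⟩),.k,.k,⟨false,0,⟨0,[(39,0),(3,0)]⟩,⟨0,[(1,0),(2,0),(19,0),(4,
  0),(10,0)]⟩⟩,⟨true,0,⟨1,[(6,0),(17,1),(1,0)]⟩,⟨1,[(23,0),(8,0),(0,0)]⟩⟩,⟨true,0,⟨0,[(0,0),(38,
  0)]⟩,⟨0,[(4,0),(19,0),(2,0)]⟩⟩,⟨false,1,⟨7,[(1,5),(4,3),(0,3),(8,1),(4,0),(2,7),(15,0),(0,3)]⟩,⟨0,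
  [(4,0),(22,0),(4,0),(0,0),(5,0)]⟩⟩,⟨false,0,⟨0,[]⟩,⟨0,[]⟩⟩,⟨false,0,⟨0,[]⟩,⟨0,[]⟩⟩,[.o ⟨false,1,
  ⟨1,[(34,0),(3,1),(2,0)]⟩,⟨0,[(39,0)]⟩⟩,.o ⟨false,1,⟨3,[(6,0),(3,1),(3,1),(11,0),(14,1)]⟩,⟨0,[(39,
  0),(3,0)]⟩⟩,.a ⟨true,0,⟨1,[(23,0),(8,0),(0,0)]⟩,⟨0,[(24,0)]⟩⟩ ⟨true,0,⟨0,[(43,0)]⟩,⟨0,[]⟩⟩ ⟨false,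
  1,⟨3,[(6,0),(3,1),(3,1),(9,3),(1,0),(14,1)]⟩,⟨1,[(23,0),(8,0),(0,0),(5,1)]⟩⟩,.o ⟨false,0,⟨1,[(23,
  0),(2,0),(2,0)]⟩,⟨1,[(24,1),(9,0),(5,0)]⟩⟩]⟩) (.R ⟨0,false,false,true,[0,0,0,1],[1,-1],[0,1,0,0,0,
  0,0,0,1],(⟨0,[(24,0)]⟩,⟨1,[(23,0),(8,0),(0,0)]⟩),(⟨0,[(35,0)]⟩,⟨0,[(36,0)]⟩),⟨0,[(2,0)]⟩,.k,.k,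
  (.r (-1) ⟨13,[(0,0),(4,1),(2,0),(5,3),(1,3),(5,4),(1,1)]⟩ ⟨1,[(1,0),(1,0),(35,1)]⟩),(.r 0 ⟨1,[(0,
  1),(28,0),(0,0),(12,1)]⟩ ⟨3,[(1,1),(14,1),(4,0),(18,0)]⟩),.k,.k,⟨false,0,⟨0,[(0,0),(42,0)]⟩,⟨3,
  [(1,1),(14,1),(4,0),(18,0)]⟩⟩,⟨true,0,⟨1,[(6,0),(17,1),(1,0)]⟩,⟨1,[(23,0),(8,0),(0,0)]⟩⟩,⟨true,0,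
  ⟨0,[(43,0)]⟩,⟨0,[]⟩⟩,⟨false,1,⟨3,[(1,1),(4,0),(9,1),(4,0),(2,3),(1,0),(7,0)]⟩,⟨1,[(0,1),(22,0),(8,
  0),(0,0)]⟩⟩,⟨false,0,⟨0,[]⟩,⟨0,[]⟩⟩,⟨false,0,⟨0,[]⟩,⟨0,[]⟩⟩,[.o ⟨false,0,⟨1,[(7,0),(3,0),(26,0)]⟩,
  ⟨3,[(21,0),(0,0),(16,3),(1,1)]⟩⟩,.o ⟨false,1,⟨1,[(34,0),(3,1),(2,0)]⟩,⟨0,[(39,0)]⟩⟩,.a ⟨true,0,⟨1,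
  [(23,0),(8,0),(0,0)]⟩,⟨0,[(24,0)]⟩⟩ ⟨false,0,⟨0,[(0,0),(37,0)]⟩,⟨1,[(21,0),(19,0)]⟩⟩ ⟨true,0,⟨1,
  [(7,0),(3,0),(12,1),(13,0)]⟩,⟨1,[(23,0),(8,0),(0,0),(5,1)]⟩⟩,.o ⟨false,0,⟨1,[(23,0),(2,0),(2,0)]⟩,
  ⟨1,[(24,1),(9,0),(5,0)]⟩⟩]⟩))) (.I [0,0,0,1,0,0,0,-1,1] (.R ⟨1,false,false,true,[0,0,0,1],[1,-1,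
  1],[0,1,0,0,0,0,0,0,1],(⟨0,[(23,0)]⟩,⟨1,[(22,0),(8,0),(0,0)]⟩),(⟨0,[(32,0),(1,0)]⟩,⟨0,[(11,0)]⟩),
  ⟨0,[(1,0)]⟩,.k,.k,(.x 0 ⟨1,[(5,0),(19,0),(8,1)]⟩ ⟨3,[(20,0),(0,0),(13,3),(3,1)]⟩),(.r 0 ⟨1,[(0,1),
  (27,0),(0,0)]⟩ ⟨1,[(13,0),(6,0),(9,0)]⟩),.k,.k,⟨false,0,⟨0,[(0,0)]⟩,⟨1,[(13,0),(6,0),(9,0)]⟩⟩,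
  ⟨true,0,⟨0,[(5,0),(17,0)]⟩,⟨5,[(8,1),(13,2),(6,1),(1,2),(0,2)]⟩⟩,⟨true,0,⟨0,[(42,0)]⟩,⟨0,[]⟩⟩,
  ⟨false,1,⟨1,[(10,1),(9,0),(2,1),(16,0)]⟩,⟨0,[(3,0),(27,0),(0,0),(5,0)]⟩⟩,⟨false,0,⟨0,[(38,0)]⟩,⟨0,
  [(37,0),(2,0)]⟩⟩,⟨false,1,⟨1,[(10,1),(9,0),(2,1),(14,1),(1,0)]⟩,⟨0,[(3,0),(27,0),(0,0)]⟩⟩,[.o
  ⟨false,0,⟨0,[(10,0)]⟩,⟨7,[(0,5),(1,1),(5,3),(11,2),(0,0),(18,3)]⟩⟩,.o ⟨false,1,⟨3,[(10,3),(9,0),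
  (0,0),(18,1)]⟩,⟨0,[(12,0),(25,0)]⟩⟩,.a ⟨true,0,⟨1,[(22,0),(8,0),(0,0)]⟩,⟨0,[(23,0)]⟩⟩ ⟨false,0,⟨1,
  [(0,0),(3,0),(18,0),(6,0)]⟩,⟨1,[(20,0),(19,0)]⟩⟩ ⟨true,0,⟨0,[(10,0),(12,0)]⟩,⟨1,[(12,1),(9,0),(8,
  0),(0,0),(5,1)]⟩⟩,.o ⟨false,0,⟨1,[(22,0),(2,0),(2,0)]⟩,⟨1,[(23,1),(9,0),(5,0)]⟩⟩]⟩) (.I [0,1,0,0,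
  0,0,0,0,-1] (.R ⟨1,false,false,false,[1,0,0,-1],[1,-1],[0,1,0,0,0,0,0,0,-1],(⟨1,[(23,0),(8,0),(0,
  0)]⟩,⟨0,[(24,0)]⟩),(⟨0,[(35,0)]⟩,⟨0,[(36,0)]⟩),⟨0,[(2,0),(20,0)]⟩,.k,.k,(.r (-1) ⟨3,[(1,1),(14,1),
  (4,0),(18,0)]⟩ ⟨1,[(4,1),(19,1),(2,1),(1,0),(0,0),(8,1)]⟩),(.r 0 ⟨1,[(1,0),(1,0),(35,1)]⟩ ⟨9,[(5,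
  1),(2,1),(5,1),(1,1),(5,2),(1,1),(16,0)]⟩),.k,.k,⟨false,0,⟨0,[(0,0),(38,0)]⟩,⟨1,[(5,1),(18,1),(15,
  0),(0,0)]⟩⟩,⟨true,0,⟨1,[(23,0),(2,0),(2,0)]⟩,⟨0,[(24,0)]⟩⟩,⟨true,0,⟨0,[(43,0)]⟩,⟨0,[]⟩⟩,⟨true,0,
  ⟨0,[(5,0)]⟩,⟨0,[(0,0),(23,0),(14,0)]⟩⟩,⟨false,0,⟨0,[(39,0)]⟩,⟨0,[(38,0),(2,0)]⟩⟩,⟨true,0,⟨0,[(4,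
  0),(22,0)]⟩,⟨0,[(0,0),(23,0)]⟩⟩,[.o ⟨false,1,⟨1,[(34,0),(3,1),(2,0)]⟩,⟨0,[(39,0)]⟩⟩,.o ⟨false,1,
  ⟨3,[(6,0),(3,1),(3,1),(11,0),(14,1)]⟩,⟨0,[(39,0),(3,0)]⟩⟩,.a ⟨true,0,⟨0,[(24,0)]⟩,⟨1,[(23,0),(8,
  0),(0,0)]⟩⟩ ⟨true,0,⟨0,[(0,0)]⟩,⟨0,[(4,0),(19,0),(2,0)]⟩⟩ ⟨false,1,⟨1,[(5,1),(15,0),(19,0)]⟩,⟨0,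
  [(24,0),(14,0)]⟩⟩,.o ⟨false,0,⟨1,[(6,0),(17,1),(1,0)]⟩,⟨7,[(21,0),(0,0),(0,3),(10,1),(5,3)]⟩⟩]⟩)
  (.R ⟨1,false,false,true,[0,0,0,1],[1,-1],[0,1,0,0,0,0,0,0,1],(⟨0,[(24,0)]⟩,⟨1,[(23,0),(8,0),(0,
  0)]⟩),(⟨0,[(35,0)]⟩,⟨0,[(36,0)]⟩),⟨0,[(2,0)]⟩,.k,.k,(.r (-1) ⟨10,[(0,1),(7,0),(5,2),(1,2),(5,3),
  (15,0)]⟩ ⟨1,[(1,0),(1,0),(35,1)]⟩),(.r 0 ⟨1,[(0,1),(28,0),(0,0),(8,1),(3,1)]⟩ ⟨3,[(1,1),(14,1),(4,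
  0),(18,0)]⟩),.k,.k,⟨false,0,⟨0,[(0,0),(38,0),(3,0)]⟩,⟨3,[(1,1),(14,1),(4,0),(18,0)]⟩⟩,⟨true,0,⟨1,
  [(6,0),(17,1),(1,0)]⟩,⟨1,[(23,0),(8,0),(0,0)]⟩⟩,⟨true,0,⟨0,[(43,0)]⟩,⟨0,[]⟩⟩,⟨false,1,⟨3,[(1,1),
  (4,0),(9,1),(4,0),(2,3),(1,0),(7,0)]⟩,⟨1,[(0,1),(22,0),(8,0),(0,0),(5,1)]⟩⟩,⟨false,0,⟨0,[(39,0)]⟩,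
  ⟨0,[(38,0),(2,0)]⟩⟩,⟨false,1,⟨1,[(21,0),(2,1),(9,0)]⟩,⟨1,[(0,1),(22,0),(8,0),(0,0)]⟩⟩,[.o ⟨false,
  0,⟨1,[(7,0),(3,0),(26,0)]⟩,⟨3,[(21,0),(0,0),(16,3),(1,1)]⟩⟩,.o ⟨false,1,⟨1,[(34,0),(3,1),(2,0)]⟩,
  ⟨0,[(39,0)]⟩⟩,.a ⟨true,0,⟨1,[(23,0),(8,0),(0,0)]⟩,⟨0,[(24,0)]⟩⟩ ⟨false,0,⟨0,[(0,0),(42,0)]⟩,⟨1,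
  [(21,0),(19,0)]⟩⟩ ⟨true,0,⟨1,[(7,0),(3,0),(12,1),(13,0)]⟩,⟨1,[(23,0),(8,0),(0,0),(5,1)]⟩⟩,.o
  ⟨false,0,⟨1,[(23,0),(2,0),(2,0)]⟩,⟨1,[(24,1),(9,0),(5,0)]⟩⟩]⟩)))) (.Q [0,0,0,0,0,1,0,0,0,0,0,-1]
  (.p false [0,0,0,1] [] (⟨0,[(21,0)]⟩,⟨1,[(20,0),(8,0),(0,0)]⟩) .k 0 (⟨0,[]⟩,⟨0,[]⟩) .k .k) (.R ⟨0,
  false,false,false,[0,0,0,1],[1,0,-1],[1,0,0,0,0,0,0,0,1],(⟨0,[(22,0)]⟩,⟨1,[(21,0),(8,0),(0,0)]⟩),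
  (⟨0,[(30,0)]⟩,⟨0,[(31,0)]⟩),⟨0,[(0,0)]⟩,.k,.k,(.r 0 ⟨0,[(1,0),(9,0),(15,0)]⟩ ⟨3,[(19,2),(0,0),(6,
  1),(0,1),(8,3)]⟩),.k,.k,.k,⟨false,0,⟨1,[(1,0),(0,0),(19,0),(2,0),(3,0),(7,0)]⟩,⟨1,[(11,0),(5,0),
  (1,0),(7,0)]⟩⟩,⟨true,0,⟨0,[(16,0),(5,0)]⟩,⟨1,[(21,0),(5,1),(2,0),(0,0)]⟩⟩,⟨true,0,⟨0,[]⟩,⟨0,[(41,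
  0)]⟩⟩,⟨false,1,⟨1,[(5,1),(13,0),(2,1),(16,0)]⟩,⟨3,[(1,1),(0,1),(18,0),(3,1),(1,3),(1,1),(0,2),(0,
  2),(5,1)]⟩⟩,⟨false,0,⟨0,[]⟩,⟨0,[]⟩⟩,⟨false,0,⟨0,[]⟩,⟨0,[]⟩⟩,[.o ⟨false,0,⟨0,[(5,0)]⟩,⟨3,[(19,0),
  (0,0),(4,3),(13,1)]⟩⟩,.o ⟨false,1,⟨1,[(11,1),(20,0),(6,0)]⟩,⟨0,[(25,0)]⟩⟩,.a ⟨true,0,⟨1,[(21,0),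
  (8,0),(0,0)]⟩,⟨0,[(22,0)]⟩⟩ ⟨false,0,⟨1,[(1,0),(0,0),(19,0),(4,0),(7,0),(1,0)]⟩,⟨3,[(19,2),(0,
  0)]⟩⟩ ⟨true,0,⟨0,[(5,0),(16,0)]⟩,⟨1,[(21,0),(3,1),(4,0),(0,0)]⟩⟩,.o ⟨false,0,⟨1,[(21,0),(2,0),(2,
  0)]⟩,⟨1,[(22,1),(9,0),(5,0)]⟩⟩]⟩) (.R ⟨1,false,false,true,[0,0,0,1],[1,-1],[0,1,0,0,0,0,0,0,1],
  (⟨0,[(22,0)]⟩,⟨1,[(21,0),(8,0),(0,0)]⟩),(⟨0,[(33,0)]⟩,⟨0,[(34,0)]⟩),⟨0,[(0,0)]⟩,.k,.k,(.r 0 ⟨0,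
  [(1,0),(9,0),(15,0)]⟩ ⟨3,[(19,2),(0,0),(6,1),(0,1),(8,3)]⟩),(.r 0 ⟨1,[(2,1),(19,1),(2,1),(1,0),(0,
  0),(8,1)]⟩ ⟨0,[(1,0),(9,0),(7,0),(7,0)]⟩),.k,.k,⟨false,0,⟨0,[(2,0),(19,0),(2,0),(11,0)]⟩,⟨0,[(1,
  0),(9,0),(7,0),(7,0)]⟩⟩,⟨true,0,⟨1,[(4,0),(17,1),(1,0)]⟩,⟨1,[(21,0),(8,0),(0,0)]⟩⟩,⟨true,0,⟨0,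
  [(41,0)]⟩,⟨0,[]⟩⟩,⟨false,1,⟨3,[(4,0),(3,1),(3,1),(6,1),(2,3),(1,0)]⟩,⟨3,[(1,1),(0,1),(18,0),(5,1),
  (2,2),(0,2),(3,1),(1,5)]⟩⟩,⟨false,0,⟨0,[(37,0)]⟩,⟨0,[(36,0),(2,0)]⟩⟩,⟨false,1,⟨1,[(19,0),(2,1),(9,
  0)]⟩,⟨3,[(1,1),(0,1),(18,0),(5,1),(2,2),(0,2),(3,1),(1,1)]⟩⟩,[.o ⟨false,0,⟨1,[(5,0),(3,0),(26,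
  0)]⟩,⟨3,[(19,0),(0,0),(16,3),(1,1)]⟩⟩,.o ⟨false,1,⟨1,[(32,0),(3,1),(2,0)]⟩,⟨0,[(37,0)]⟩⟩,.a ⟨true,
  0,⟨1,[(21,0),(8,0),(0,0)]⟩,⟨0,[(22,0)]⟩⟩ ⟨false,0,⟨0,[(2,0),(19,0),(2,0)]⟩,⟨1,[(19,0),(19,0)]⟩⟩
  ⟨true,0,⟨1,[(5,0),(3,0),(12,1),(13,0)]⟩,⟨1,[(21,0),(8,0),(0,0),(5,1)]⟩⟩,.o ⟨false,0,⟨1,[(21,0),(2,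
  0),(2,0)]⟩,⟨1,[(22,1),(9,0),(5,0)]⟩⟩]⟩))) (.Q [0,0,0,0,0,1,0,0,0,0,0,-1] (.p false [0,0,0,1] []
  (⟨0,[(20,0)]⟩,⟨1,[(19,0),(8,0),(0,0)]⟩) .k 0 (⟨0,[]⟩,⟨0,[]⟩) .k .k) (.R ⟨0,false,false,true,[0,0,
  0,1],[0,0,1],[1,1,1],(⟨0,[(21,0)]⟩,⟨1,[(20,0),(8,0),(0,0)]⟩),(⟨0,[(30,0)]⟩,⟨0,[(29,0)]⟩),⟨0,[(0,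
  0)]⟩,.k,.k,(.r (-1) ⟨9,[(2,1),(2,1),(5,1),(1,1),(5,2),(1,1),(16,0)]⟩ ⟨1,[(1,1),(2,0),(5,0),(9,0),
  (13,1),(1,1)]⟩),.k,.k,.k,⟨true,0,⟨0,[(10,0),(15,0)]⟩,⟨0,[(28,0)]⟩⟩,⟨false,1,⟨0,[(21,0),(4,0),(10,
  0)]⟩,⟨1,[(17,0),(2,0)]⟩⟩,⟨false,0,⟨1,[(1,1),(2,0),(5,0),(9,0),(13,1)]⟩,⟨1,[(2,1),(18,1),(14,1),(0,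
  0),(0,0)]⟩⟩,⟨true,0,⟨0,[(1,0)]⟩,⟨0,[(2,0),(7,0),(25,0)]⟩⟩,⟨false,0,⟨0,[]⟩,⟨0,[]⟩⟩,⟨false,0,⟨0,[]⟩,
  ⟨0,[]⟩⟩,[.o ⟨false,0,⟨0,[(24,0)]⟩,⟨1,[(10,1),(20,0),(6,0)]⟩⟩,.o ⟨false,1,⟨3,[(18,0),(0,0),(4,3),
  (13,1)]⟩,⟨0,[(4,0)]⟩⟩,.a ⟨true,0,⟨1,[(20,0),(8,0),(0,0)]⟩,⟨0,[(21,0)]⟩⟩ ⟨false,0,⟨1,[(26,0),(0,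
  0)]⟩,⟨1,[(37,0),(0,0)]⟩⟩ ⟨true,0,⟨0,[(21,0),(2,0)]⟩,⟨1,[(4,0),(5,0),(9,0)]⟩⟩,.o ⟨false,0,⟨1,[(20,
  0),(2,0),(2,0)]⟩,⟨1,[(21,1),(9,0),(5,0)]⟩⟩]⟩) (.Q [0,-1,0,-2,1,0,0,0,-1,-1,0,1] (.p true [0,0,0,
  1] [1] (⟨0,[(21,0)]⟩,⟨1,[(20,0),(8,0),(0,0)]⟩) .k 1 (⟨0,[]⟩,⟨0,[]⟩) .k .k) (.R ⟨1,false,false,
  false,[0,0,0,1],[1,-1],[0,0,0,0,0,0,0,0,1],(⟨0,[(22,0)]⟩,⟨1,[(21,0),(8,0),(0,0)]⟩),(⟨0,[(33,0)]⟩,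
  ⟨0,[(34,0)]⟩),⟨0,[(1,0)]⟩,.k,.k,(.r (-1) ⟨9,[(3,1),(2,1),(5,1),(1,1),(5,2),(1,1),(16,0)]⟩ ⟨1,[(2,
  1),(2,0),(5,0),(9,0),(13,1),(1,1)]⟩),(.r 0 ⟨1,[(3,1),(18,1),(4,0),(0,0),(8,3)]⟩ ⟨1,[(0,0),(1,0),
  (8,0),(9,0),(16,0)]⟩),.k,.k,⟨false,0,⟨0,[(3,0),(18,0),(14,1)]⟩,⟨1,[(0,0),(1,0),(8,0),(9,0),(16,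
  0)]⟩⟩,⟨true,0,⟨1,[(4,0),(17,1),(1,0)]⟩,⟨1,[(21,0),(8,0),(0,0)]⟩⟩,⟨false,1,⟨3,[(19,0),(0,0),(18,
  1)]⟩,⟨0,[]⟩⟩,⟨false,1,⟨1,[(0,0),(1,0),(2,0),(33,0)]⟩,⟨0,[(3,0),(26,0),(0,0),(5,1)]⟩⟩,⟨true,0,⟨0,
  [(37,0)]⟩,⟨0,[(36,0)]⟩⟩,⟨false,1,⟨0,[(2,0),(2,0),(33,0)]⟩,⟨0,[(3,0),(26,0),(0,0),(5,0)]⟩⟩,[.o
  ⟨false,1,⟨23,[(0,7),(18,0),(0,4),(0,3),(10,9),(3,7)]⟩,⟨0,[(37,0)]⟩⟩,.o ⟨false,1,⟨2,[(0,0),(2,0),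
  (28,0),(6,0)]⟩,⟨0,[(37,0),(3,0)]⟩⟩,.a ⟨true,0,⟨1,[(21,0),(8,0),(0,0)]⟩,⟨0,[(22,0)]⟩⟩ ⟨true,0,⟨0,
  [(3,0),(18,0),(14,0)]⟩,⟨1,[(2,1),(2,0),(5,0),(9,0)]⟩⟩ ⟨false,1,⟨5,[(0,1),(3,1),(0,0),(6,0),(3,0),
  (3,0),(1,3),(16,1)]⟩,⟨1,[(21,0),(8,0),(0,0),(5,1)]⟩⟩,.o ⟨false,0,⟨1,[(21,0),(2,0),(2,0)]⟩,⟨1,[(22,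
  1),(9,0),(5,0)]⟩⟩]⟩) (.I [0,0,-1,-1,1,0,0,0,-1] (.R ⟨1,false,false,false,[1,0,0,-1],[1,-1],[0,1,0,
  0,0,0,0,0,-1],(⟨1,[(22,0),(8,0),(0,0)]⟩,⟨0,[(23,0)]⟩),(⟨0,[(34,0)]⟩,⟨0,[(35,0)]⟩),⟨0,[(2,0),(19,
  0)]⟩,.k,.k,(.r (-1) ⟨0,[(0,0)]⟩ ⟨2,[(1,0),(19,0),(1,0),(1,0),(2,0),(7,0),(1,0)]⟩),(.r 0 ⟨1,[(1,0),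
  (1,0),(2,0),(13,0),(15,1)]⟩ ⟨9,[(4,1),(2,1),(5,1),(1,1),(5,2),(1,1),(16,0)]⟩),.k,.k,⟨false,0,⟨1,
  [(1,0),(1,0),(2,0),(13,0)]⟩,⟨1,[(4,1),(18,1),(15,0),(0,0)]⟩⟩,⟨true,0,⟨1,[(22,0),(2,0),(2,0)]⟩,⟨0,
  [(23,0)]⟩⟩,⟨true,0,⟨0,[(42,0)]⟩,⟨0,[]⟩⟩,⟨true,0,⟨0,[(4,0)]⟩,⟨0,[(3,0),(8,0),(25,0)]⟩⟩,⟨false,0,⟨0,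
  [(38,0)]⟩,⟨0,[(37,0),(2,0)]⟩⟩,⟨true,0,⟨5,[(1,1),(2,3),(28,0),(6,0)]⟩,⟨0,[(3,0),(8,0)]⟩⟩,[.o
  ⟨false,1,⟨1,[(33,0),(3,1),(2,0)]⟩,⟨0,[(38,0)]⟩⟩,.o ⟨false,1,⟨3,[(5,0),(3,1),(3,1),(11,0),(14,1)]⟩,
  ⟨11,[(1,3),(1,3),(16,0),(0,0),(5,3),(5,1),(4,3)]⟩⟩,.a ⟨true,0,⟨0,[(23,0)]⟩,⟨1,[(22,0),(8,0),(0,
  0)]⟩⟩ ⟨true,0,⟨1,[(3,1),(2,0),(5,0),(9,0)]⟩,⟨25,[(1,7),(2,13),(0,3),(1,1),(9,3),(3,0),(1,21),(16,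
  4)]⟩⟩ ⟨false,1,⟨1,[(4,1),(15,0),(19,0)]⟩,⟨0,[(23,0),(14,0)]⟩⟩,.o ⟨false,0,⟨1,[(5,0),(17,1),(1,
  0)]⟩,⟨7,[(20,0),(0,0),(0,3),(10,1),(5,3)]⟩⟩]⟩) (.R ⟨2,true,false,false,[0,1],[1,0,-1],[1,1,1],(⟨0,
  []⟩,⟨0,[]⟩),(⟨0,[(31,0)]⟩,⟨0,[(32,0)]⟩),⟨0,[]⟩,.k,.k,.k,.k,.k,.k,⟨true,(-1),⟨0,[(0,1),(2,1),(2,0),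
  (5,0),(0,0),(8,0),(13,0)]⟩,⟨1,[(12,0),(5,0),(9,0),(11,0)]⟩⟩,⟨false,0,⟨0,[(17,0)]⟩,⟨0,[(28,0),(2,
  0),(0,0),(6,0)]⟩⟩,⟨true,0,⟨0,[(37,0)]⟩,⟨0,[(38,0)]⟩⟩,⟨false,1,⟨4,[(6,2),(6,0),(1,2),(9,1),(10,2),
  (3,0)]⟩,⟨1,[(0,1),(2,1),(18,0),(8,0),(0,0),(6,0),(0,0)]⟩⟩,⟨false,0,⟨0,[]⟩,⟨3,[(20,0),(0,0),(18,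
  1)]⟩⟩,⟨true,0,⟨0,[(6,0)]⟩,⟨7,[(1,1),(1,3),(12,3),(4,0),(0,0),(8,4),(0,4),(7,0)]⟩⟩,[]⟩))))) (.Q [0,
  -1,0,1,0,0,0,0,-1,0,0,1] (.p true [0,0,0,1] [] (⟨0,[(19,0)]⟩,⟨1,[(18,0),(8,0),(0,0)]⟩) .k 0 (⟨0,
  []⟩,⟨0,[]⟩) .k .k) (.Q [0,-1,0,0,0,0,0,0,-1,0,0,1] (.p true [0,0,0,1] [] (⟨0,[(20,0)]⟩,⟨1,[(19,0),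
  (8,0),(0,0)]⟩) .k 0 (⟨0,[]⟩,⟨0,[]⟩) .k .k) (.Q [0,0,0,0,0,-1,0,0,0,1,0,-1] (.p false [0,0,0,1]
  [1] (⟨0,[(21,0)]⟩,⟨1,[(20,0),(8,0),(0,0)]⟩) .k 1 (⟨0,[]⟩,⟨0,[]⟩) .k .k) (.R ⟨1,false,false,true,
  [1,0,0,-1],[1,-1],[0,1,0,0,0,0,0,0,-1],(⟨1,[(21,0),(8,0),(0,0)]⟩,⟨0,[(22,0)]⟩),(⟨0,[(33,0)]⟩,⟨0,
  [(34,0)]⟩),⟨0,[(0,0)]⟩,.k,.k,(.x 0 ⟨1,[(4,0),(19,0),(8,1)]⟩ ⟨3,[(19,0),(0,0),(13,3),(3,1)]⟩),(.r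
  0 ⟨1,[(3,1),(17,0),(2,0),(2,0)]⟩ ⟨0,[(6,0),(28,0)]⟩),.k,.k,⟨false,0,⟨3,[(2,1),(0,1),(5,0),(11,1),
  (1,0),(13,0)]⟩,⟨0,[(6,0),(28,0)]⟩⟩,⟨true,0,⟨1,[(21,0),(2,0),(2,0)]⟩,⟨0,[(22,0)]⟩⟩,⟨true,0,⟨0,[(41,
  0)]⟩,⟨0,[]⟩⟩,⟨false,1,⟨3,[(4,0),(7,0),(1,0),(5,1),(0,1),(2,0),(10,0),(0,0)]⟩,⟨0,[(2,0)]⟩⟩,⟨false,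
  0,⟨0,[(37,0)]⟩,⟨0,[(36,0),(2,0)]⟩⟩,⟨false,1,⟨7,[(19,0),(0,4),(0,3),(10,1)]⟩,⟨0,[(1,0)]⟩⟩,[.o
  ⟨false,0,⟨1,[(5,0),(3,0),(26,0)]⟩,⟨3,[(19,0),(0,0),(16,3),(1,1)]⟩⟩,.o ⟨false,1,⟨1,[(32,0),(3,1),
  (2,0)]⟩,⟨0,[(37,0)]⟩⟩,.a ⟨true,0,⟨0,[(22,0)]⟩,⟨1,[(21,0),(8,0),(0,0)]⟩⟩ ⟨false,0,⟨7,[(1,4),(1,2),
  (5,1),(11,3),(1,1),(12,0)]⟩,⟨1,[(20,0),(18,0)]⟩⟩ ⟨true,0,⟨3,[(5,0),(3,0),(11,1),(14,2)]⟩,⟨0,[(22,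
  0),(14,0)]⟩⟩,.o ⟨false,0,⟨1,[(4,0),(17,1),(1,0)]⟩,⟨7,[(19,0),(0,0),(0,3),(10,1),(5,3)]⟩⟩]⟩) (.R
  ⟨0,false,false,true,[1,0,0,-1],[1,-1],[0,1,0,0,0,0,0,0,-1],(⟨1,[(21,0),(8,0),(0,0)]⟩,⟨0,[(22,
  0)]⟩),(⟨0,[(33,0)]⟩,⟨0,[(34,0)]⟩),⟨0,[(0,0)]⟩,.k,.k,(.x 0 ⟨1,[(4,0),(19,0),(8,1)]⟩ ⟨3,[(19,0),(0,
  0),(13,3),(3,1)]⟩),(.r 0 ⟨1,[(3,1),(17,0),(2,0),(2,0)]⟩ ⟨0,[(6,0),(28,0)]⟩),.k,.k,⟨false,0,⟨3,[(2,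
  1),(0,1),(5,0),(11,1),(1,0),(13,0)]⟩,⟨0,[(6,0),(28,0)]⟩⟩,⟨true,0,⟨1,[(21,0),(2,0),(2,0)]⟩,⟨0,[(22,
  0)]⟩⟩,⟨true,0,⟨0,[(41,0)]⟩,⟨0,[]⟩⟩,⟨false,1,⟨3,[(4,0),(7,0),(1,0),(5,1),(0,1),(2,0),(10,0),(0,
  0)]⟩,⟨0,[(2,0)]⟩⟩,⟨false,0,⟨0,[]⟩,⟨0,[]⟩⟩,⟨false,0,⟨0,[]⟩,⟨0,[]⟩⟩,[.o ⟨false,0,⟨1,[(5,0),(3,0),
  (26,0)]⟩,⟨3,[(19,0),(0,0),(16,3),(1,1)]⟩⟩,.o ⟨false,1,⟨1,[(32,0),(3,1),(2,0)]⟩,⟨0,[(37,0)]⟩⟩,.a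
  ⟨true,0,⟨0,[(22,0)]⟩,⟨1,[(21,0),(8,0),(0,0)]⟩⟩ ⟨false,0,⟨7,[(1,4),(1,2),(5,1),(11,3),(1,1),(12,
  0)]⟩,⟨1,[(20,0),(18,0)]⟩⟩ ⟨true,0,⟨3,[(5,0),(3,0),(11,1),(14,2)]⟩,⟨0,[(22,0),(14,0)]⟩⟩,.o ⟨false,
  0,⟨1,[(4,0),(17,1),(1,0)]⟩,⟨7,[(19,0),(0,0),(0,3),(10,1),(5,3)]⟩⟩]⟩)) (.R ⟨2,true,false,true,[0,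
  1],[0,0,0,1],[1,1,1],(⟨0,[]⟩,⟨0,[]⟩),(⟨0,[(21,0)]⟩,⟨1,[(20,0),(8,0),(0,0)]⟩),⟨0,[]⟩,.k,.k,.k,(.r
  0 ⟨1,[(2,1),(17,0),(2,0),(2,0)]⟩ ⟨0,[(5,0),(28,0)]⟩),.k,.k,⟨false,0,⟨3,[(1,3),(2,0),(3,0),(11,1),
  (14,2)]⟩,⟨1,[(19,0),(17,0)]⟩⟩,⟨true,0,⟨1,[(20,0),(2,0),(2,0)]⟩,⟨0,[(21,0)]⟩⟩,⟨true,0,⟨0,[(35,0)]⟩,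
  ⟨0,[(36,0)]⟩⟩,⟨false,1,⟨3,[(3,0),(7,0),(1,0),(5,1),(0,1),(2,0),(10,0),(0,0)]⟩,⟨0,[(1,0)]⟩⟩,⟨false,
  0,⟨0,[]⟩,⟨3,[(18,0),(0,0),(18,1)]⟩⟩,⟨true,0,⟨0,[(0,0)]⟩,⟨0,[(1,0),(33,0)]⟩⟩,[]⟩)) (.I [1,0,0,0,0,
  0,0,0,-1] (.Q [0,0,0,0,0,1,0,0,0,0,0,-1] (.p false [0,0,0,1] [] (⟨0,[(21,0)]⟩,⟨1,[(20,0),(8,0),(0,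
  0)]⟩) .k 0 (⟨0,[]⟩,⟨0,[]⟩) .k .k) (.R ⟨0,false,false,false,[0,0,0,1],[0,1],[1,0,1,1],(⟨0,[(22,
  0)]⟩,⟨1,[(21,0),(8,0),(0,0)]⟩),(⟨0,[(34,0)]⟩,⟨0,[(33,0)]⟩),⟨0,[(0,0)]⟩,.k,.k,(.r (-1) ⟨1,[(2,0),
  (3,0),(15,0),(16,0)]⟩ ⟨1,[(3,1),(17,0),(2,0),(2,0)]⟩),(.r (-1) ⟨1,[(2,0),(3,0),(15,0),(16,0)]⟩ ⟨1,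
  [(3,1),(17,0),(2,0),(2,0)]⟩),.k,.k,⟨true,0,⟨0,[]⟩,⟨1,[(27,0),(0,0)]⟩⟩,⟨false,1,⟨0,[(22,0),(15,
  0)]⟩,⟨1,[(21,0),(2,0),(2,0)]⟩⟩,⟨false,0,⟨0,[(1,0),(33,0),(1,0)]⟩,⟨1,[(2,0),(3,0),(15,0),(16,0)]⟩⟩,
  ⟨true,0,⟨0,[(3,0)]⟩,⟨0,[(2,0)]⟩⟩,⟨false,0,⟨0,[]⟩,⟨0,[]⟩⟩,⟨false,0,⟨0,[]⟩,⟨0,[]⟩⟩,[.o ⟨false,0,⟨0,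
  [(37,0)]⟩,⟨1,[(32,0),(3,1),(2,0)]⟩⟩,.o ⟨false,1,⟨3,[(19,0),(0,0),(16,3),(1,1)]⟩,⟨1,[(5,0),(3,0),
  (26,0)]⟩⟩,.a ⟨true,0,⟨1,[(21,0),(8,0),(0,0)]⟩,⟨0,[(22,0)]⟩⟩ ⟨false,0,⟨0,[(35,0),(1,0)]⟩,⟨5,[(12,
  1),(1,1),(4,0),(0,0)]⟩⟩ ⟨true,0,⟨0,[(22,0),(14,0)]⟩,⟨3,[(5,0),(3,0),(11,1),(14,2)]⟩⟩,.o ⟨false,0,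
  ⟨1,[(21,0),(2,0),(2,0)]⟩,⟨1,[(22,1),(9,0),(5,0)]⟩⟩]⟩) (.Q [0,0,0,0,0,0,0,0,1,1,0,-1] (.p false [0,
  0,0,1] [1] (⟨0,[(22,0)]⟩,⟨1,[(21,0),(8,0),(0,0)]⟩) .k 1 (⟨0,[]⟩,⟨0,[]⟩) .k .k) (.R ⟨0,false,false,
  false,[0,0,1],[0,0,0,1],[0,0,0,0,0,0,0,0,1],(⟨0,[(32,0)]⟩,⟨0,[(31,0)]⟩),(⟨0,[(23,0)]⟩,⟨1,[(22,0),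
  (8,0),(0,0)]⟩),⟨0,[(11,0)]⟩,.k,.k,.k,.k,.k,.k,⟨false,1,⟨3,[(20,0),(0,0),(17,1)]⟩,⟨0,[]⟩⟩,⟨true,0,
  ⟨1,[(19,0),(2,0)]⟩,⟨0,[(23,0),(4,0)]⟩⟩,⟨false,1,⟨1,[(0,1),(4,0),(0,0),(11,0),(4,1),(16,0)]⟩,⟨0,
  [(2,0),(27,0)]⟩⟩,⟨true,0,⟨0,[(0,0),(5,0)]⟩,⟨0,[(4,0),(11,0)]⟩⟩,⟨false,0,⟨0,[]⟩,⟨0,[]⟩⟩,⟨false,0,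
  ⟨0,[]⟩,⟨0,[]⟩⟩,[.a ⟨true,0,⟨0,[(0,0)]⟩,⟨0,[(2,0),(20,0)]⟩⟩ ⟨false,1,⟨1,[(21,0),(17,0)]⟩,⟨0,[(2,
  0)]⟩⟩ ⟨true,0,⟨0,[(0,0),(16,0)]⟩,⟨0,[(2,0),(20,0),(4,0)]⟩⟩,.o ⟨false,1,⟨1,[(0,1),(32,0),(6,0)]⟩,
  ⟨1,[(2,0),(1,0),(5,0),(12,0),(0,0)]⟩⟩,.o ⟨false,1,⟨7,[(18,3),(1,0),(0,0),(4,3),(1,3),(11,1)]⟩,⟨0,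
  [(17,0)]⟩⟩,.o ⟨false,0,⟨0,[(28,0)]⟩,⟨7,[(8,3),(11,0),(0,0),(11,3),(5,1)]⟩⟩]⟩) (.R ⟨1,false,false,
  true,[1,0,0,-1],[1,-1],[0,1,0,0,0,0,0,0,-1],(⟨1,[(22,0),(8,0),(0,0)]⟩,⟨0,[(23,0)]⟩),(⟨0,[(34,0)]⟩,
  ⟨0,[(35,0)]⟩),⟨0,[(1,0),(20,0)]⟩,.k,.k,(.r (-1) ⟨2,[(2,0),(10,0),(1,0),(4,0)]⟩ ⟨0,[(3,0),(19,0),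
  (12,0),(1,1)]⟩),(.r 0 ⟨1,[(4,1),(17,0),(2,0),(2,0)]⟩ ⟨1,[(3,0),(3,0),(15,0),(16,0)]⟩),.k,.k,
  ⟨false,0,⟨0,[(2,0),(35,0)]⟩,⟨1,[(3,0),(3,0),(15,0),(16,0)]⟩⟩,⟨true,0,⟨1,[(22,0),(2,0),(2,0)]⟩,⟨0,
  [(23,0)]⟩⟩,⟨true,0,⟨0,[(42,0)]⟩,⟨0,[]⟩⟩,⟨true,0,⟨0,[(3,0)]⟩,⟨0,[(4,0)]⟩⟩,⟨false,0,⟨0,[(38,0)]⟩,⟨0,
  [(37,0),(2,0)]⟩⟩,⟨true,0,⟨0,[(3,0),(34,0)]⟩,⟨0,[(2,0),(20,0)]⟩⟩,[.o ⟨false,0,⟨1,[(6,0),(3,0),(26,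
  0)]⟩,⟨3,[(20,0),(0,0),(16,3),(1,1)]⟩⟩,.o ⟨false,1,⟨1,[(33,0),(3,1),(2,0)]⟩,⟨0,[(38,0)]⟩⟩,.a ⟨true,
  0,⟨0,[(23,0)]⟩,⟨1,[(22,0),(8,0),(0,0)]⟩⟩ ⟨false,0,⟨0,[(0,0),(0,0),(20,0),(12,0)]⟩,⟨1,[(21,0),(18,
  0)]⟩⟩ ⟨true,0,⟨3,[(6,0),(3,0),(11,1),(14,2)]⟩,⟨0,[(23,0),(14,0)]⟩⟩,.o ⟨false,0,⟨1,[(5,0),(17,1),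
  (1,0)]⟩,⟨7,[(20,0),(0,0),(0,3),(10,1),(5,3)]⟩⟩]⟩))) (.Q [0,0,0,0,0,0,0,0,1,0,0,-1] (.p false [0,0,
  0,1] [] (⟨0,[(21,0)]⟩,⟨1,[(20,0),(8,0),(0,0)]⟩) .k 0 (⟨0,[]⟩,⟨0,[]⟩) .k .k) (.R ⟨2,true,false,
  false,[0,1],[0,0,0,1],[1,1,1],(⟨0,[]⟩,⟨0,[]⟩),(⟨0,[(22,0)]⟩,⟨1,[(21,0),(8,0),(0,0)]⟩),⟨0,[]⟩,.k,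
  .k,.k,(.r 0 ⟨1,[(3,1),(17,0),(2,0),(2,0)]⟩ ⟨2,[(1,0),(10,0),(1,0),(5,0)]⟩),.k,.k,⟨false,0,⟨3,[(3,
  3),(1,0),(3,0),(11,1),(14,2)]⟩,⟨1,[(1,1),(36,0),(0,0)]⟩⟩,⟨true,0,⟨1,[(21,0),(2,0),(2,0)]⟩,⟨0,[(22,
  0)]⟩⟩,⟨true,0,⟨0,[(36,0)]⟩,⟨0,[(37,0)]⟩⟩,⟨false,1,⟨0,[(2,0),(36,0)]⟩,⟨0,[(3,0)]⟩⟩,⟨false,0,⟨0,[]⟩,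
  ⟨3,[(19,0),(0,0),(18,1)]⟩⟩,⟨true,0,⟨0,[(0,0)]⟩,⟨0,[(3,0),(32,0)]⟩⟩,[]⟩) (.R ⟨2,false,false,false,
  [0,1],[0,0,0,1],[1,1,1],(⟨0,[]⟩,⟨0,[]⟩),(⟨0,[(22,0)]⟩,⟨1,[(21,0),(8,0),(0,0)]⟩),⟨0,[]⟩,.k,.k,.k,
  (.r 0 ⟨1,[(3,1),(17,0),(2,0),(2,0)]⟩ ⟨2,[(1,0),(10,0),(1,0),(5,0)]⟩),.k,.k,⟨false,0,⟨1,[(0,0),(2,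
  0),(5,0),(11,0),(4,0)]⟩,⟨1,[(1,1),(36,0),(0,0)]⟩⟩,⟨true,0,⟨1,[(21,0),(2,0),(2,0)]⟩,⟨0,[(22,0)]⟩⟩,
  ⟨true,0,⟨0,[(36,0)]⟩,⟨0,[(37,0)]⟩⟩,⟨false,1,⟨0,[(2,0),(36,0)]⟩,⟨0,[(3,0)]⟩⟩,⟨false,0,⟨0,[]⟩,⟨3,
  [(19,0),(0,0),(18,1)]⟩⟩,⟨false,1,⟨3,[(1,1),(18,0),(0,1),(10,0),(6,1)]⟩,⟨0,[(0,0)]⟩⟩,[.a ⟨true,0,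
  ⟨1,[(1,1),(19,0),(8,0),(0,0)]⟩,⟨0,[(0,0)]⟩⟩ ⟨false,0,⟨0,[(41,0)]⟩,⟨1,[(38,0),(0,0)]⟩⟩ ⟨true,0,⟨1,
  [(1,1),(19,0),(2,0),(2,0)]⟩,⟨0,[(0,0)]⟩⟩,.o ⟨false,1,⟨3,[(1,1),(18,0),(0,1),(10,0),(6,1)]⟩,⟨1,[(0,
  0),(2,0),(5,0),(13,0)]⟩⟩,.o ⟨false,1,⟨3,[(19,0),(0,0),(17,1)]⟩,⟨1,[(4,0),(19,0)]⟩⟩,.e ⟨false,0,⟨0,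
  []⟩,⟨3,[(19,0),(0,0),(18,1)]⟩⟩ ⟨false,1,⟨3,[(1,1),(18,0),(0,1),(10,0),(6,1)]⟩,⟨0,[(0,
  0)]⟩⟩]⟩))))))))) (.R ⟨0,false,false,true,[0,1,-1],[1,0,-1],[1,1,1],(⟨0,[(2,0)]⟩,⟨0,[(23,0),(1,
  0)]⟩),(⟨0,[(22,0)]⟩,⟨0,[(23,0)]⟩),⟨0,[(23,0)]⟩,.k,.k,.k,.k,.k,.k,⟨false,0,⟨0,[(21,0)]⟩,⟨0,[(9,
  0)]⟩⟩,⟨true,0,⟨0,[(8,0),(10,0)]⟩,⟨0,[(22,0),(0,0)]⟩⟩,⟨false,0,⟨0,[(0,0),(0,0),(1,0),(23,0)]⟩,⟨1,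
  [(3,0),(5,0),(9,0),(9,1),(1,0)]⟩⟩,⟨true,0,⟨0,[(1,0),(1,0)]⟩,⟨0,[(22,0),(0,0),(5,0)]⟩⟩,⟨false,0,⟨0,
  []⟩,⟨0,[]⟩⟩,⟨false,0,⟨0,[]⟩,⟨0,[]⟩⟩,[.o ⟨false,0,⟨0,[(15,0)]⟩,⟨0,[(17,0),(13,0)]⟩⟩,.e ⟨false,0,⟨0,
  []⟩,⟨3,[(11,0),(0,0),(17,1)]⟩⟩ ⟨false,1,⟨1,[(3,0),(5,0),(9,0),(4,0)]⟩,⟨0,[(0,0)]⟩⟩,.a ⟨true,0,⟨0,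
  [(0,0),(2,0)]⟩,⟨0,[(19,0)]⟩⟩ ⟨false,0,⟨1,[(19,0),(0,0)]⟩,⟨1,[(30,0),(0,0)]⟩⟩ ⟨true,0,⟨0,[(15,0),
  (3,0)]⟩,⟨0,[(0,0)]⟩⟩,.o ⟨false,0,⟨3,[(0,0),(2,0),(6,0),(9,0)]⟩,⟨1,[(19,1),(4,0),(5,0)]⟩⟩]⟩)))

theorem ok12 : chk (cU (-1) false 2) t12 l12 = true := by decide +kernel

noncomputable def t15 : Tre :=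
  (.Q [0,0,0,0,0,0,1,1,0,1,-1] (.p false [0,0,1] [1] (⟨0,[(25,0)]⟩,⟨0,[(24,0)]⟩) .k 1 (⟨0,[]⟩,⟨0,
  []⟩) .k .k) (.R ⟨2,false,false,false,[0,1],[1,0,-1],[1,1,1],(⟨0,[]⟩,⟨0,[]⟩),(⟨0,[(25,0)]⟩,⟨0,[(26,
  0)]⟩),⟨0,[]⟩,.k,.k,.k,.k,.k,.k,⟨true,(-1),⟨0,[(1,0),(1,0)]⟩,⟨2,[(1,0),(7,0),(2,0),(21,1)]⟩⟩,
  ⟨false,0,⟨0,[(11,0)]⟩,⟨0,[(0,0),(11,0)]⟩⟩,⟨true,0,⟨0,[(31,0)]⟩,⟨0,[(32,0)]⟩⟩,⟨false,1,⟨0,[(4,0),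
  (29,0)]⟩,⟨0,[(0,0),(31,0)]⟩⟩,⟨false,0,⟨0,[]⟩,⟨3,[(14,0),(0,0),(18,1)]⟩⟩,⟨false,1,⟨1,[(6,1),(20,0),
  (6,0)]⟩,⟨0,[(0,0)]⟩⟩,[.a ⟨true,0,⟨0,[(6,0)]⟩,⟨0,[(0,0)]⟩⟩ ⟨false,0,⟨0,[(36,0)]⟩,⟨1,[(33,0),(0,
  0)]⟩⟩ ⟨true,0,⟨1,[(1,0),(2,0),(6,0),(22,0)]⟩,⟨0,[(0,0)]⟩⟩,.o ⟨false,1,⟨1,[(6,1),(20,0),(6,0)]⟩,⟨0,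
  [(20,0)]⟩⟩,.o ⟨false,1,⟨3,[(14,0),(0,0),(17,1)]⟩,⟨0,[(11,0),(10,0)]⟩⟩,.e ⟨false,0,⟨0,[]⟩,⟨3,[(14,
  0),(0,0),(18,1)]⟩⟩ ⟨false,1,⟨1,[(6,1),(20,0),(6,0)]⟩,⟨0,[(0,0)]⟩⟩]⟩) (.Q [0,0,0,1,0,0,1,1,0,1,-1]
  (.p false [0,0,1] [1] (⟨0,[(26,0)]⟩,⟨0,[(25,0)]⟩) .k 1 (⟨0,[]⟩,⟨0,[]⟩) .k .k) (.R ⟨2,true,false,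
  false,[0,1],[1,0,-1],[1,1,1],(⟨0,[]⟩,⟨0,[]⟩),(⟨0,[(26,0)]⟩,⟨0,[(27,0)]⟩),⟨0,[]⟩,.k,.k,.k,.k,.k,.k,
  ⟨true,(-1),⟨0,[(2,0),(1,0)]⟩,⟨2,[(2,0),(7,0),(2,0),(21,1)]⟩⟩,⟨false,0,⟨0,[(12,0)]⟩,⟨0,[(0,0),(9,
  0)]⟩⟩,⟨true,0,⟨0,[(32,0)]⟩,⟨0,[(33,0)]⟩⟩,⟨false,1,⟨0,[(5,0),(29,0)]⟩,⟨0,[(0,0)]⟩⟩,⟨false,0,⟨0,[]⟩,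
  ⟨3,[(15,0),(0,0),(18,1)]⟩⟩,⟨true,0,⟨0,[(1,0)]⟩,⟨0,[(0,0),(31,0)]⟩⟩,[]⟩) (.Q [0,0,0,2,0,0,1,1,0,1,
  -1] (.p false [0,0,1] [1] (⟨0,[(27,0)]⟩,⟨0,[(26,0)]⟩) .k 1 (⟨0,[]⟩,⟨0,[]⟩) .k .k) (.R ⟨1,true,
  false,true,[1,0,-1],[0,1],[0,0,0,0,0,0,0,-1],(⟨0,[(27,0)]⟩,⟨0,[(28,0)]⟩),(⟨0,[(31,0)]⟩,⟨0,[(30,
  0)]⟩),⟨0,[(10,0)]⟩,.k,.k,.k,.k,(.r (-2) ⟨5,[(9,1),(1,7),(4,0),(0,0)]⟩ ⟨0,[(3,0),(1,0),(26,0),(1,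
  1)]⟩),.k,⟨false,2,⟨1,[(11,1),(23,0),(0,0)]⟩,⟨0,[(3,0),(1,0),(28,0)]⟩⟩,⟨true,1,⟨0,[(24,0),(2,0),(0,
  0),(6,0)]⟩,⟨0,[(2,0),(0,0),(1,0),(26,0)]⟩⟩,⟨false,1,⟨3,[(16,0),(0,0),(18,1)]⟩,⟨0,[]⟩⟩,⟨true,0,⟨0,
  [(0,0),(32,0)]⟩,⟨0,[(1,0)]⟩⟩,⟨true,0,⟨0,[(34,0)]⟩,⟨0,[(33,0)]⟩⟩,⟨false,0,⟨0,[(0,0)]⟩,⟨2,[(1,2),(2,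
  0),(6,0),(13,0),(10,1)]⟩⟩,[]⟩) (.Q [0,1,0,0,0,0,0,0,-1,-1,0,1] (.p true [0,0,0,1] [1] (⟨0,[(19,
  0)]⟩,⟨1,[(18,0),(8,0),(0,0)]⟩) .k 1 (⟨0,[]⟩,⟨0,[]⟩) .k .k) (.I [1,-1,1,1,0,0,0,0,-1] (.I [0,0,1,1,
  0,0,0,0,1] (.I [0,0,-1,-1,0,0,0,1,-1] (.I [0,1,-1,-1,0,0,0,0,-1] (.R ⟨1,false,false,false,[1,0,0,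
  -1],[0,1],[0,1,0,0,0,0,0,0,-1],(⟨1,[(23,0),(8,0),(0,0)]⟩,⟨0,[(24,0)]⟩),(⟨0,[(36,0)]⟩,⟨0,[(35,
  0)]⟩),⟨1,[(12,0),(2,0),(7,0)]⟩,.k,.k,(.r (-1) ⟨4,[(1,0),(12,0),(1,1),(4,1)]⟩ ⟨0,[(2,0)]⟩),(.r
  (-1) ⟨4,[(1,0),(12,0),(1,1),(4,1)]⟩ ⟨0,[(2,0)]⟩),(.r (-1) ⟨0,[(1,0),(14,0)]⟩ ⟨5,[(2,8),(0,0),(4,
  0),(12,0),(9,0),(7,0)]⟩),.k,⟨true,0,⟨0,[(0,0)]⟩,⟨0,[(2,0),(34,0)]⟩⟩,⟨false,1,⟨1,[(23,0),(8,0),(0,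
  0),(6,1)]⟩,⟨0,[(18,0),(5,0),(4,0)]⟩⟩,⟨true,0,⟨0,[(43,0)]⟩,⟨0,[]⟩⟩,⟨false,1,⟨1,[(22,0),(0,0),(8,0),
  (0,0),(5,1),(1,0)]⟩,⟨0,[(1,0),(5,0),(16,0),(4,0)]⟩⟩,⟨false,0,⟨0,[(39,0)]⟩,⟨2,[(9,0),(6,0),(13,0),
  (10,1)]⟩⟩,⟨false,1,⟨1,[(22,0),(0,0),(8,0),(0,0),(5,3),(1,0)]⟩,⟨0,[(1,0),(4,0),(17,0),(4,0)]⟩⟩,[.o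
  ⟨false,0,⟨0,[(39,0)]⟩,⟨7,[(5,1),(3,1),(11,1),(0,1),(11,2),(6,0)]⟩⟩,.o ⟨false,1,⟨3,[(21,0),(0,0),
  (16,3),(1,1)]⟩,⟨0,[(6,0),(20,0)]⟩⟩,.a ⟨true,0,⟨0,[(24,0)]⟩,⟨1,[(23,0),(8,0),(0,0)]⟩⟩ ⟨false,0,⟨1,
  [(0,0),(2,0)]⟩,⟨1,[(22,0),(18,0)]⟩⟩ ⟨true,0,⟨1,[(23,0),(8,0),(0,0),(5,1)]⟩,⟨0,[(6,0),(17,0),(2,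
  0)]⟩⟩,.o ⟨false,0,⟨0,[(18,0),(5,0),(4,0)]⟩,⟨7,[(21,0),(0,0),(0,3),(10,1),(5,3)]⟩⟩]⟩) (.R ⟨1,false,
  false,false,[1,0,0,-1],[1,0,-1],[0,1,0,0,0,0,0,0,-1],(⟨1,[(23,0),(8,0),(0,0)]⟩,⟨0,[(24,0)]⟩),(⟨0,
  [(32,0)]⟩,⟨0,[(33,0)]⟩),⟨1,[(12,0),(2,0),(7,0)]⟩,.k,.k,(.r (-1) ⟨4,[(1,0),(12,0),(1,1),(4,1)]⟩ ⟨0,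
  [(2,0)]⟩),.k,(.r 0 ⟨0,[(1,0)]⟩ ⟨7,[(3,3),(4,3),(10,3),(1,0),(0,6)]⟩),.k,⟨false,0,⟨0,[(1,0),(37,0),
  (3,0)]⟩,⟨0,[(0,0),(15,0)]⟩⟩,⟨true,0,⟨1,[(20,0),(2,0)]⟩,⟨0,[(24,0),(4,0)]⟩⟩,⟨true,0,⟨0,[(43,0)]⟩,
  ⟨0,[]⟩⟩,⟨false,1,⟨1,[(7,0),(5,0),(8,0),(0,0),(17,0)]⟩,⟨0,[(1,0),(22,0),(4,0),(9,0)]⟩⟩,⟨false,0,⟨0,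
  [(39,0)]⟩,⟨2,[(9,0),(6,0),(13,0),(10,1)]⟩⟩,⟨false,1,⟨1,[(0,1),(18,1),(0,0),(2,0)]⟩,⟨0,[(1,0),(22,
  0),(4,0)]⟩⟩,[.o ⟨false,0,⟨0,[(7,0)]⟩,⟨3,[(21,0),(0,0),(4,3),(13,1)]⟩⟩,.o ⟨false,1,⟨1,[(13,1),(20,
  0),(6,0)]⟩,⟨0,[(27,0)]⟩⟩,.a ⟨true,0,⟨0,[(24,0)]⟩,⟨1,[(23,0),(8,0),(0,0)]⟩⟩ ⟨false,0,⟨2,[(1,1),(1,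
  0),(4,0),(10,0)]⟩,⟨1,[(22,0),(18,0)]⟩⟩ ⟨true,0,⟨1,[(7,0),(5,0),(9,0)]⟩,⟨0,[(24,0),(2,0)]⟩⟩,.o
  ⟨false,0,⟨4,[(0,3),(3,3),(0,0),(3,0),(14,0),(12,0)]⟩,⟨7,[(21,0),(0,0),(0,3),(10,1),(5,3)]⟩⟩]⟩))
  (.I [1,0,0,-1,0,0,0,0,-1] (.R ⟨1,false,false,false,[1,0,0,-1],[1,-1],[1,0,0,-1,0,0,0,0,-1],(⟨1,
  [(23,0),(8,0),(0,0)]⟩,⟨0,[(24,0)]⟩),(⟨0,[(35,0)]⟩,⟨0,[(36,0)]⟩),⟨1,[(12,0),(2,0),(7,0)]⟩,.k,.k,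
  (.r (-1) ⟨7,[(0,1),(13,1),(1,1),(4,2),(18,0)]⟩ ⟨0,[(2,0)]⟩),(.r 0 ⟨2,[(3,0),(4,0),(12,0),(9,0),(7,
  0)]⟩ ⟨0,[(1,0),(12,0)]⟩),.k,.k,⟨false,0,⟨0,[(0,0),(38,0)]⟩,⟨1,[(22,0),(17,0)]⟩⟩,⟨true,0,⟨1,[(23,
  0),(2,0),(2,0)]⟩,⟨0,[(24,0)]⟩⟩,⟨false,1,⟨2,[(9,0),(6,0),(13,0),(10,1)]⟩,⟨0,[(39,0)]⟩⟩,⟨false,1,⟨3,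
  [(1,1),(3,1),(4,1),(11,0),(0,1),(5,1),(10,0),(0,1)]⟩,⟨0,[(0,0),(23,0),(14,1)]⟩⟩,⟨true,0,⟨0,[]⟩,⟨0,
  [(43,0)]⟩⟩,⟨false,1,⟨11,[(1,9),(3,1),(4,5),(11,0),(0,5),(5,1),(4,1),(5,2),(0,5)]⟩,⟨0,[(0,0),(23,
  0),(14,0)]⟩⟩,[.o ⟨false,1,⟨7,[(5,1),(3,1),(11,1),(0,1),(11,2),(6,0)]⟩,⟨0,[(39,0)]⟩⟩,.o ⟨false,1,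
  ⟨7,[(5,1),(3,1),(24,2),(6,4)]⟩,⟨0,[(39,0),(3,0)]⟩⟩,.a ⟨true,0,⟨0,[(24,0)]⟩,⟨1,[(23,0),(8,0),(0,
  0)]⟩⟩ ⟨true,0,⟨0,[(0,0)]⟩,⟨0,[(1,0),(6,0),(1,0),(29,0)]⟩⟩ ⟨false,1,⟨7,[(5,1),(3,1),(11,0),(0,0),
  (0,3),(10,0),(6,4)]⟩,⟨0,[(24,0),(14,0)]⟩⟩,.o ⟨false,0,⟨0,[(18,0),(5,0),(4,0)]⟩,⟨7,[(21,0),(0,0),
  (0,3),(10,1),(5,3)]⟩⟩]⟩) (.Q [0,0,0,1,0,0,0,0,-1,0,0,1] (.p true [0,0,0,1] [] (⟨0,[(24,0)]⟩,⟨1,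
  [(23,0),(8,0),(0,0)]⟩) .k 0 (⟨0,[]⟩,⟨0,[]⟩) .k .k) (.R ⟨1,false,false,true,[1,0,0,-1],[0,0,1],[1,
  0,0,-1,0,0,0,0,-1],(⟨1,[(24,0),(8,0),(0,0)]⟩,⟨0,[(25,0)]⟩),(⟨0,[(34,0)]⟩,⟨0,[(33,0)]⟩),⟨1,[(13,0),
  (2,0),(7,0)]⟩,.k,.k,(.r (-1) ⟨6,[(0,1),(3,0),(1,0),(3,0),(4,1),(1,1),(4,1),(1,0),(16,0)]⟩ ⟨0,[(3,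
  0)]⟩),.k,(.r (-1) ⟨1,[(0,1),(5,1),(17,0),(5,1),(2,0),(0,0),(6,1)]⟩ ⟨0,[(3,0),(28,0)]⟩),.k,⟨true,1,
  ⟨1,[(0,1),(5,1),(17,0),(5,1),(2,0),(0,0),(6,0),(0,0)]⟩,⟨0,[(1,0),(7,0),(1,0)]⟩⟩,⟨false,1,⟨1,[(24,
  0),(5,1),(2,0),(0,0),(6,1)]⟩,⟨0,[(19,0),(5,0)]⟩⟩,⟨false,1,⟨2,[(10,0),(6,0),(13,0),(10,1)]⟩,⟨0,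
  [(40,0)]⟩⟩,⟨true,0,⟨1,[(1,1),(8,0),(13,0),(3,0),(4,0),(0,0)]⟩,⟨0,[(0,0),(6,0)]⟩⟩,⟨true,0,⟨0,[]⟩,
  ⟨0,[(44,0)]⟩⟩,⟨true,0,⟨1,[(1,1),(22,0),(3,1),(4,0),(0,0)]⟩,⟨0,[(0,0),(5,0)]⟩⟩,[.o ⟨false,0,⟨0,
  [(28,0)]⟩,⟨1,[(14,1),(20,0),(6,0)]⟩⟩,.o ⟨false,1,⟨3,[(22,0),(0,0),(4,3),(13,1)]⟩,⟨0,[(8,0)]⟩⟩,.a
  ⟨true,0,⟨0,[(25,0)]⟩,⟨1,[(24,0),(8,0),(0,0)]⟩⟩ ⟨false,1,⟨15,[(4,5),(1,3),(3,3),(4,1),(1,1),(4,4),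
  (10,3),(0,3),(7,6)]⟩,⟨0,[(1,0)]⟩⟩ ⟨true,0,⟨1,[(24,0),(3,1),(4,0),(0,0)]⟩,⟨0,[(8,0),(16,0)]⟩⟩,.o
  ⟨false,0,⟨0,[(19,0),(5,0),(4,0)]⟩,⟨7,[(22,0),(0,0),(0,3),(10,1),(5,3)]⟩⟩]⟩) (.R ⟨1,false,false,
  false,[1,0,0,-1],[1,-1],[0,1,0,0,0,0,0,0,-1],(⟨1,[(24,0),(8,0),(0,0)]⟩,⟨0,[(25,0)]⟩),(⟨0,[(36,
  0)]⟩,⟨0,[(37,0)]⟩),⟨1,[(13,0),(2,0),(7,0)]⟩,.k,.k,(.r (-1) ⟨3,[(4,1),(0,1),(9,1),(1,1),(6,0),(8,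
  0),(0,0)]⟩ ⟨0,[(3,0)]⟩),(.r 0 ⟨2,[(4,0),(4,0),(12,0),(9,0),(7,0)]⟩ ⟨7,[(0,1),(14,1),(1,1),(5,2),
  (1,1),(15,0)]⟩),.k,.k,⟨false,0,⟨1,[(5,1),(18,0),(8,0),(0,0),(5,1)]⟩,⟨1,[(0,1),(24,1),(15,0),(0,
  0)]⟩⟩,⟨true,0,⟨1,[(24,0),(2,0),(2,0)]⟩,⟨0,[(25,0)]⟩⟩,⟨true,0,⟨0,[(44,0)]⟩,⟨0,[]⟩⟩,⟨true,0,⟨0,[(0,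
  0)]⟩,⟨0,[(5,0),(27,0),(0,0),(5,0)]⟩⟩,⟨false,0,⟨0,[(40,0)]⟩,⟨2,[(10,0),(6,0),(13,0),(10,1)]⟩⟩,
  ⟨true,0,⟨0,[(0,0),(39,0)]⟩,⟨0,[(5,0),(27,0),(0,0)]⟩⟩,[.o ⟨false,1,⟨7,[(6,1),(3,1),(11,1),(0,1),
  (11,2),(6,0)]⟩,⟨0,[(40,0)]⟩⟩,.o ⟨false,1,⟨7,[(6,1),(3,1),(24,2),(6,4)]⟩,⟨0,[(40,0),(3,0)]⟩⟩,.a
  ⟨true,0,⟨0,[(25,0)]⟩,⟨1,[(24,0),(8,0),(0,0)]⟩⟩ ⟨true,0,⟨1,[(5,1),(18,0),(8,0),(0,0)]⟩,⟨1,[(0,0),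
  (0,0),(23,0)]⟩⟩ ⟨false,1,⟨7,[(6,1),(3,1),(11,0),(0,0),(0,3),(10,0),(6,4)]⟩,⟨0,[(25,0),(14,0)]⟩⟩,
  .o ⟨false,0,⟨0,[(19,0),(5,0),(4,0)]⟩,⟨7,[(22,0),(0,0),(0,3),(10,1),(5,3)]⟩⟩]⟩)))) (.R ⟨1,false,
  false,true,[1,0,0,-1],[0,0,1],[1,1,0,-1,0,0,0,0,-1],(⟨1,[(21,0),(8,0),(0,0)]⟩,⟨0,[(22,0)]⟩),(⟨0,
  [(31,0)]⟩,⟨0,[(30,0)]⟩),⟨1,[(10,0),(2,0),(7,0)]⟩,.k,.k,(.x 0 ⟨1,[(10,0),(2,0),(10,0),(2,0)]⟩ ⟨3,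
  [(19,0),(0,0),(13,3),(3,1)]⟩),.k,(.r (-1) ⟨8,[(0,3),(0,0),(4,0),(7,6),(2,0),(1,1)]⟩ ⟨1,[(6,0),(1,
  0),(11,0),(8,0),(5,0),(1,1)]⟩),.k,⟨true,0,⟨1,[(0,1),(5,0),(7,0),(20,0)]⟩,⟨1,[(6,0),(1,0),(11,0),
  (8,0),(5,0),(1,1)]⟩⟩,⟨false,1,⟨1,[(21,0),(5,1),(2,0),(0,0),(6,1)]⟩,⟨0,[(16,0),(5,0)]⟩⟩,⟨true,0,⟨0,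
  [(36,0)]⟩,⟨0,[(37,0)]⟩⟩,⟨false,1,⟨1,[(20,0),(0,0),(3,1),(4,0),(0,0),(7,0)]⟩,⟨0,[(0,0),(4,0),(16,
  0),(12,0),(1,0)]⟩⟩,⟨false,0,⟨0,[]⟩,⟨3,[(19,0),(0,0),(18,1)]⟩⟩,⟨false,1,⟨1,[(20,0),(0,0),(3,1),(4,
  0),(0,0),(5,1),(1,0)]⟩,⟨0,[(0,0),(4,0),(16,0),(12,0)]⟩⟩,[.o ⟨false,0,⟨0,[(25,0)]⟩,⟨1,[(11,1),(20,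
  0),(6,0)]⟩⟩,.o ⟨false,1,⟨3,[(19,0),(0,0),(4,3),(13,1)]⟩,⟨0,[(5,0)]⟩⟩,.a ⟨true,0,⟨0,[(22,0)]⟩,⟨1,
  [(21,0),(8,0),(0,0)]⟩⟩ ⟨false,0,⟨28,[(0,20),(2,0),(2,3),(0,4),(11,3),(8,3),(1,0),(0,0),(3,8)]⟩,⟨1,
  [(20,0),(16,1),(1,0)]⟩⟩ ⟨true,0,⟨1,[(21,0),(3,1),(4,0),(0,0)]⟩,⟨0,[(5,0),(16,0)]⟩⟩,.o ⟨false,0,⟨0,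
  [(16,0),(5,0),(4,0)]⟩,⟨7,[(19,0),(0,0),(0,3),(10,1),(5,3)]⟩⟩]⟩)) (.Q [0,0,0,0,0,-1,0,0,0,0,0,1]
  (.p true [0,0,0,1] [] (⟨0,[(21,0)]⟩,⟨1,[(20,0),(8,0),(0,0)]⟩) .k 0 (⟨0,[]⟩,⟨0,[]⟩) .k .k) (.Q [0,
  0,0,-2,0,0,0,0,1,0,0,-1] (.p false [0,0,0,1] [] (⟨0,[(22,0)]⟩,⟨1,[(21,0),(8,0),(0,0)]⟩) .k 0 (⟨0,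
  []⟩,⟨0,[]⟩) .k .k) (.R ⟨1,false,false,false,[0,0,0,1],[0,1],[0,1,0,0,0,0,0,0,1],(⟨0,[(23,0)]⟩,⟨1,
  [(22,0),(8,0),(0,0)]⟩),(⟨0,[(35,0)]⟩,⟨0,[(34,0)]⟩),⟨0,[(1,0)]⟩,.k,.k,(.r (-1) ⟨7,[(2,1),(10,1),(1,
  1),(5,2),(18,0)]⟩ ⟨1,[(3,1),(18,0),(8,0),(0,0),(3,1),(1,1)]⟩),(.r (-1) ⟨7,[(2,1),(10,1),(1,1),(5,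
  2),(18,0)]⟩ ⟨1,[(3,1),(18,0),(8,0),(0,0),(3,1),(1,1)]⟩),(.r (-1) ⟨0,[(0,0),(22,0),(15,0)]⟩ ⟨1,[(7,
  1),(12,0),(9,1),(7,1),(1,0)]⟩),.k,⟨true,0,⟨0,[(2,0)]⟩,⟨1,[(3,1),(18,0),(8,0),(0,0),(3,3),(1,1)]⟩⟩,
  ⟨false,1,⟨0,[(23,0),(15,0)]⟩,⟨1,[(22,0),(2,0),(2,0)]⟩⟩,⟨true,0,⟨0,[(42,0)]⟩,⟨0,[]⟩⟩,⟨false,1,⟨1,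
  [(20,0),(2,1),(14,1),(1,0)]⟩,⟨0,[(0,0),(37,0)]⟩⟩,⟨false,0,⟨0,[(38,0)]⟩,⟨2,[(8,0),(6,0),(13,0),(10,
  1)]⟩⟩,⟨false,1,⟨1,[(20,0),(2,1),(14,3),(1,0)]⟩,⟨0,[(0,0)]⟩⟩,[.o ⟨false,0,⟨0,[(38,0)]⟩,⟨7,[(4,1),
  (3,1),(11,1),(0,1),(11,2),(6,0)]⟩⟩,.o ⟨false,1,⟨3,[(20,0),(0,0),(16,3),(1,1)]⟩,⟨0,[(5,0),(20,
  0)]⟩⟩,.a ⟨true,0,⟨1,[(22,0),(8,0),(0,0)]⟩,⟨0,[(23,0)]⟩⟩ ⟨false,0,⟨0,[(2,0),(33,0),(1,0)]⟩,⟨1,[(20,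
  0),(19,0)]⟩⟩ ⟨true,0,⟨0,[(23,0),(14,0)]⟩,⟨3,[(8,0),(1,1),(11,1),(3,0)]⟩⟩,.o ⟨false,0,⟨1,[(22,0),
  (2,0),(2,0)]⟩,⟨1,[(23,1),(9,0),(5,0)]⟩⟩]⟩) (.R ⟨1,false,false,true,[0,0,0,1],[1,-1],[0,1,0,0,0,0,
  0,0,1],(⟨0,[(23,0)]⟩,⟨1,[(22,0),(8,0),(0,0)]⟩),(⟨0,[(34,0)]⟩,⟨0,[(35,0)]⟩),⟨0,[(1,0)]⟩,.k,.k,(.r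
  (-1) ⟨7,[(2,1),(10,1),(1,1),(5,2),(18,0)]⟩ ⟨9,[(0,3),(6,3),(1,1),(10,2),(1,1),(10,0),(2,3)]⟩),(.r
  0 ⟨4,[(2,0),(4,1),(1,0),(11,1),(14,2),(1,4)]⟩ ⟨5,[(0,3),(3,1),(3,1),(4,1),(1,1),(4,0),(1,1),(17,
  0)]⟩),.k,.k,⟨false,0,⟨0,[(2,0),(33,0),(1,1)]⟩,⟨5,[(0,3),(3,1),(3,1),(4,1),(1,1),(4,0),(1,1),(17,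
  0)]⟩⟩,⟨true,0,⟨0,[(17,0),(5,0),(4,0)]⟩,⟨1,[(22,0),(8,0),(0,0)]⟩⟩,⟨true,0,⟨0,[(42,0)]⟩,⟨0,[]⟩⟩,
  ⟨true,0,⟨1,[(0,0),(2,0),(0,0),(3,0)]⟩,⟨1,[(2,1),(19,0),(8,0),(0,0),(3,1),(1,3)]⟩⟩,⟨false,0,⟨0,
  [(38,0)]⟩,⟨2,[(8,0),(6,0),(13,0),(10,1)]⟩⟩,⟨true,0,⟨0,[(3,0)]⟩,⟨1,[(2,1),(19,0),(8,0),(0,0),(3,1),
  (1,1)]⟩⟩,[.o ⟨false,0,⟨0,[(5,0),(20,0)]⟩,⟨15,[(0,7),(19,0),(0,4),(0,3),(10,1),(6,7)]⟩⟩,.o ⟨false,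
  1,⟨7,[(4,1),(3,1),(11,1),(0,1),(11,2),(6,0)]⟩,⟨0,[(38,0)]⟩⟩,.a ⟨true,0,⟨1,[(22,0),(8,0),(0,0)]⟩,
  ⟨0,[(23,0)]⟩⟩ ⟨false,0,⟨0,[(2,0),(33,0),(1,0)]⟩,⟨1,[(20,0),(19,0)]⟩⟩ ⟨true,0,⟨15,[(2,5),(0,5),(0,
  3),(2,2),(0,0),(0,2),(13,9),(4,2),(4,2)]⟩,⟨1,[(22,0),(8,0),(0,0),(5,1)]⟩⟩,.o ⟨false,0,⟨1,[(22,0),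
  (2,0),(2,0)]⟩,⟨1,[(23,1),(9,0),(5,0)]⟩⟩]⟩)) (.Q [0,0,0,1,0,0,1,1,1,1,-1,-1] (.p false [0,0,1] [1,
  0,0,-1] (⟨0,[(31,0)]⟩,⟨0,[(30,0)]⟩) .k 2 (⟨1,[(21,0),(8,0),(0,0)]⟩,⟨0,[(22,0)]⟩) .k (.r 0 ⟨4,[(1,
  2),(4,0),(1,2),(11,0),(14,3),(1,4)]⟩ ⟨5,[(6,1),(7,1),(2,1),(1,2),(19,0)]⟩)) (.R ⟨0,false,false,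
  false,[0,0,0,1],[0,1],[1,0,1,1],(⟨0,[(23,0)]⟩,⟨1,[(22,0),(8,0),(0,0)]⟩),(⟨0,[(35,0)]⟩,⟨0,[(34,
  0)]⟩),⟨0,[(1,0)]⟩,.k,.k,(.r (-1) ⟨7,[(2,1),(10,1),(1,1),(5,2),(18,0)]⟩ ⟨1,[(3,1),(18,0),(8,0),(0,
  0),(3,1),(1,1)]⟩),(.r (-1) ⟨7,[(2,1),(10,1),(1,1),(5,2),(18,0)]⟩ ⟨1,[(3,1),(18,0),(8,0),(0,0),(3,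
  1),(1,1)]⟩),.k,.k,⟨true,0,⟨0,[]⟩,⟨1,[(28,0),(0,0)]⟩⟩,⟨false,1,⟨0,[(23,0),(15,0)]⟩,⟨1,[(22,0),(2,
  0),(2,0)]⟩⟩,⟨true,0,⟨1,[(3,1),(18,0),(8,0),(0,0),(3,1),(1,1)]⟩,⟨0,[(2,0)]⟩⟩,⟨false,1,⟨1,[(20,0),
  (2,1),(14,1),(1,0)]⟩,⟨0,[(0,0),(3,0)]⟩⟩,⟨false,0,⟨0,[]⟩,⟨0,[]⟩⟩,⟨false,0,⟨0,[]⟩,⟨0,[]⟩⟩,[.o
  ⟨false,0,⟨0,[(38,0)]⟩,⟨7,[(4,1),(3,1),(11,1),(0,1),(11,2),(6,0)]⟩⟩,.o ⟨false,1,⟨3,[(20,0),(0,0),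
  (16,3),(1,1)]⟩,⟨0,[(5,0),(20,0)]⟩⟩,.a ⟨true,0,⟨1,[(22,0),(8,0),(0,0)]⟩,⟨0,[(23,0)]⟩⟩ ⟨false,0,⟨0,
  [(36,0),(1,0)]⟩,⟨5,[(13,1),(1,1),(4,0),(0,0)]⟩⟩ ⟨true,0,⟨0,[(23,0),(14,0)]⟩,⟨3,[(8,0),(1,1),(11,
  1),(3,0)]⟩⟩,.o ⟨false,0,⟨1,[(22,0),(2,0),(2,0)]⟩,⟨1,[(23,1),(9,0),(5,0)]⟩⟩]⟩) (.R ⟨0,false,false,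
  false,[0,0,0,1],[0,0,1],[0,1],(⟨0,[(23,0)]⟩,⟨1,[(22,0),(8,0),(0,0)]⟩),(⟨0,[(32,0)]⟩,⟨0,[(31,0)]⟩),
  ⟨0,[(1,0)]⟩,.k,.k,(.r (-1) ⟨7,[(2,1),(10,1),(1,1),(5,2),(18,0)]⟩ ⟨5,[(0,1),(6,1),(1,1),(10,1),(1,
  0),(5,1),(2,0),(0,0),(3,1),(1,7)]⟩),.k,.k,.k,⟨true,0,⟨5,[(0,1),(1,1),(4,3),(14,0),(5,1),(2,0),(0,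
  0),(6,3)]⟩,⟨0,[(30,0),(5,0)]⟩⟩,⟨false,1,⟨0,[(23,0),(4,0),(10,0)]⟩,⟨1,[(19,0),(2,0)]⟩⟩,⟨true,0,⟨1,
  [(3,1),(18,0),(8,0),(0,0)]⟩,⟨0,[(2,0),(33,0),(1,0)]⟩⟩,⟨false,1,⟨1,[(0,1),(8,1),(18,3),(2,1),(0,1),
  (5,3),(0,0),(0,0)]⟩,⟨1,[(2,1),(3,0),(5,0),(9,0),(13,1),(1,1)]⟩⟩,⟨false,0,⟨0,[]⟩,⟨0,[]⟩⟩,⟨false,0,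
  ⟨0,[]⟩,⟨0,[]⟩⟩,[.o ⟨false,1,⟨3,[(20,0),(0,0),(4,3),(13,1)]⟩,⟨0,[(6,0)]⟩⟩,.o ⟨false,1,⟨0,[(26,0),
  (13,0)]⟩,⟨0,[(24,0)]⟩⟩,.a ⟨true,0,⟨1,[(22,0),(8,0),(0,0)]⟩,⟨0,[(23,0)]⟩⟩ ⟨true,0,⟨0,[(42,0)]⟩,⟨0,
  []⟩⟩ ⟨false,1,⟨0,[(23,0),(2,0),(13,0)]⟩,⟨1,[(6,0),(5,0),(9,0)]⟩⟩,.o ⟨false,0,⟨1,[(22,0),(2,0),(2,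
  0)]⟩,⟨1,[(23,1),(9,0),(5,0)]⟩⟩]⟩)))) (.Q [0,1,0,0,0,0,0,0,-1,0,0,1] (.p true [0,0,0,1] [] (⟨0,
  [(20,0)]⟩,⟨1,[(19,0),(8,0),(0,0)]⟩) .k 0 (⟨0,[]⟩,⟨0,[]⟩) .k .k) (.R ⟨2,false,false,true,[0,1],[1,
  0,0,-1],[1,1,1],(⟨0,[]⟩,⟨0,[]⟩),(⟨1,[(0,0),(0,0),(18,0)]⟩,⟨0,[(21,0)]⟩),⟨0,[]⟩,.k,.k,.k,(.x (-1)
  ⟨3,[(18,0),(0,0),(13,3),(3,1)]⟩ ⟨1,[(9,0),(2,0),(10,0),(2,0)]⟩),.k,.k,⟨false,0,⟨0,[(1,0),(2,0),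
  (16,0),(2,0)]⟩,⟨1,[(18,0),(18,0)]⟩⟩,⟨true,0,⟨0,[(15,0),(5,0),(4,0)]⟩,⟨1,[(0,0),(0,0),(18,0)]⟩⟩,
  ⟨true,0,⟨0,[(35,0)]⟩,⟨0,[(36,0)]⟩⟩,⟨false,1,⟨7,[(0,7),(1,1),(3,1),(24,2),(6,4)]⟩,⟨0,[(1,0),(34,
  0)]⟩⟩,⟨false,0,⟨0,[]⟩,⟨3,[(18,0),(0,0),(18,1)]⟩⟩,⟨false,1,⟨1,[(0,1),(30,0),(6,0)]⟩,⟨0,[(1,0)]⟩⟩,
  [.a ⟨true,0,⟨0,[(0,0)]⟩,⟨0,[(1,0)]⟩⟩ ⟨false,0,⟨0,[(40,0)]⟩,⟨1,[(37,0),(0,0)]⟩⟩ ⟨true,0,⟨0,[(0,0),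
  (14,0),(10,0)]⟩,⟨0,[(1,0)]⟩⟩,.o ⟨false,1,⟨1,[(0,1),(30,0),(6,0)]⟩,⟨0,[(1,0),(2,0),(19,0)]⟩⟩,.o
  ⟨false,1,⟨3,[(18,0),(0,0),(17,1)]⟩,⟨0,[(15,0),(10,0)]⟩⟩,.e ⟨false,0,⟨0,[]⟩,⟨3,[(18,0),(0,0),(18,
  1)]⟩⟩ ⟨false,1,⟨1,[(0,1),(30,0),(6,0)]⟩,⟨0,[(1,0)]⟩⟩]⟩) (.R ⟨1,false,false,true,[1,0,0,-1],[0,0,
  1],[1,1,0,-1,0,0,0,0,-1],(⟨1,[(20,0),(8,0),(0,0)]⟩,⟨0,[(21,0)]⟩),(⟨0,[(30,0)]⟩,⟨0,[(29,0)]⟩),⟨1,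
  [(9,0),(2,0),(7,0)]⟩,.k,.k,(.x 0 ⟨1,[(9,0),(2,0),(10,0),(2,0)]⟩ ⟨3,[(18,0),(0,0),(13,3),(3,1)]⟩),
  .k,(.r (-2) ⟨3,[(13,3),(4,2),(0,0)]⟩ ⟨0,[(0,0),(4,0),(1,0),(13,0),(14,0)]⟩),.k,⟨true,1,⟨7,[(2,1),
  (2,0),(7,4),(4,3),(7,1),(2,1),(0,1),(3,0)]⟩,⟨0,[(0,0),(4,0),(1,0),(13,0),(14,0)]⟩⟩,⟨false,1,⟨1,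
  [(20,0),(5,1),(2,0),(0,0),(6,1)]⟩,⟨0,[(15,0),(5,0)]⟩⟩,⟨true,0,⟨0,[(35,0)]⟩,⟨0,[(36,0)]⟩⟩,⟨false,0,
  ⟨0,[(1,0),(22,0)]⟩,⟨1,[(4,1),(13,0),(2,1),(16,0)]⟩⟩,⟨false,0,⟨0,[]⟩,⟨3,[(18,0),(0,0),(18,1)]⟩⟩,
  ⟨false,0,⟨0,[(1,0),(22,0),(11,0)]⟩,⟨1,[(3,1),(14,0),(2,1),(16,0)]⟩⟩,[.o ⟨false,0,⟨0,[(24,0)]⟩,⟨1,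
  [(10,1),(20,0),(6,0)]⟩⟩,.o ⟨false,1,⟨3,[(18,0),(0,0),(4,3),(13,1)]⟩,⟨0,[(4,0)]⟩⟩,.a ⟨true,0,⟨0,
  [(21,0)]⟩,⟨1,[(20,0),(8,0),(0,0)]⟩⟩ ⟨false,1,⟨5,[(6,1),(6,1),(4,2),(8,1),(10,0)]⟩,⟨0,[(0,0),(20,
  0),(14,0)]⟩⟩ ⟨true,0,⟨1,[(20,0),(3,1),(4,0),(0,0)]⟩,⟨0,[(4,0),(16,0)]⟩⟩,.o ⟨false,0,⟨0,[(15,0),(5,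
  0),(4,0)]⟩,⟨7,[(18,0),(0,0),(0,3),(10,1),(5,3)]⟩⟩]⟩))))))

theorem ok15 : chk (cU (-1) false 2) t15 l16 = true := by decide +kernel

noncomputable def t30 : Tre :=
  (.Q [0,0,0,0,0,2,0,0,0,0,-1] (.p false [0,0,1] [] (⟨0,[(33,0)]⟩,⟨0,[(32,0)]⟩) .k 0 (⟨0,[]⟩,⟨0,
  []⟩) .k .k) (.Q [0,-1,0,1,0,0,0,0,0,1] (.pp false [-1,1]) (.R ⟨0,false,false,true,[0,-1,1],[1,-1],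
  [0,1],(⟨0,[(14,0)]⟩,⟨3,[(0,0),(0,1),(5,0),(22,0),(3,1)]⟩),(⟨0,[(37,0)]⟩,⟨0,[(38,0)]⟩),⟨0,[(1,0)]⟩,
  .k,.k,(.r (-1) ⟨0,[(16,0)]⟩ ⟨1,[(6,1),(24,0),(0,0),(8,1),(3,1)]⟩),.k,.k,.k,⟨false,0,⟨0,[(41,0)]⟩,
  ⟨5,[(16,1),(1,1),(4,0),(0,0)]⟩⟩,⟨true,0,⟨0,[(20,0)]⟩,⟨1,[(0,0),(6,0),(22,0),(0,1)]⟩⟩,⟨false,0,⟨0,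
  [(6,0),(38,0)]⟩,⟨11,[(12,3),(3,3),(6,0),(0,0),(18,5)]⟩⟩,⟨true,0,⟨0,[(27,0)]⟩,⟨1,[(0,0),(6,0),(21,
  0)]⟩⟩,⟨false,0,⟨0,[]⟩,⟨0,[]⟩⟩,⟨false,0,⟨0,[]⟩,⟨0,[]⟩⟩,[.a ⟨true,0,⟨0,[(40,0)]⟩,⟨0,[(0,0)]⟩⟩ ⟨true,
  0,⟨0,[(45,0)]⟩,⟨0,[(39,0)]⟩⟩ ⟨false,1,⟨13,[(12,1),(3,5),(5,1),(4,9),(8,0),(5,6),(2,3)]⟩,⟨0,[(0,0),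
  (30,0)]⟩⟩,.o ⟨false,1,⟨35,[(3,3),(4,7),(2,7),(1,3),(9,6),(0,6),(3,3),(7,13)]⟩,⟨0,[(41,0)]⟩⟩,.o
  ⟨false,0,⟨0,[(31,0)]⟩,⟨7,[(22,3),(0,0),(0,0),(11,1),(5,3)]⟩⟩,.o ⟨false,0,⟨1,[(31,2),(0,0)]⟩,⟨0,
  [(20,0),(21,0)]⟩⟩]⟩) (.I [1,-1,0,0,0,0,0,0,-1] (.R ⟨1,false,false,true,[1,0,0,-1],[1,-1],[0,1,0,0,
  0,0,0,0,-1],(⟨1,[(26,0),(8,0),(0,0)]⟩,⟨0,[(27,0)]⟩),(⟨0,[(38,0)]⟩,⟨0,[(39,0)]⟩),⟨1,[(15,0),(2,0),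
  (7,0)]⟩,.k,.k,(.x 0 ⟨1,[(15,0),(2,0),(10,0),(2,0)]⟩ ⟨3,[(2,1),(21,0),(0,0),(10,1),(6,1)]⟩),(.r 0
  ⟨1,[(0,1),(31,0),(0,0),(8,1),(3,1)]⟩ ⟨5,[(4,0),(0,1),(5,0),(1,0),(0,1),(1,1),(8,2)]⟩),.k,.k,
  ⟨false,0,⟨0,[(0,0),(41,0),(3,0)]⟩,⟨5,[(4,0),(0,1),(5,0),(1,0),(0,1),(1,1),(8,2)]⟩⟩,⟨true,0,⟨1,
  [(26,0),(2,0),(2,0)]⟩,⟨0,[(27,0)]⟩⟩,⟨true,0,⟨0,[(46,0)]⟩,⟨0,[]⟩⟩,⟨false,1,⟨71,[(4,7),(4,15),(2,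
  15),(1,7),(9,4),(0,40),(0,35),(2,7),(7,9)]⟩,⟨0,[(0,0),(26,0),(14,0)]⟩⟩,⟨false,0,⟨0,[(42,0)]⟩,⟨5,
  [(4,0),(4,1),(2,0),(11,0),(0,0),(7,0),(10,1)]⟩⟩,⟨false,1,⟨7,[(24,0),(0,4),(0,3),(10,1)]⟩,⟨0,[(0,
  0),(26,0)]⟩⟩,[.o ⟨false,0,⟨0,[(1,0)]⟩,⟨3,[(24,0),(0,0),(16,3),(1,1)]⟩⟩,.o ⟨false,1,⟨35,[(4,3),(4,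
  7),(2,7),(1,3),(9,6),(0,6),(3,3),(7,13)]⟩,⟨0,[(42,0)]⟩⟩,.a ⟨true,0,⟨0,[(27,0)]⟩,⟨1,[(26,0),(8,0),
  (0,0)]⟩⟩ ⟨false,0,⟨0,[(0,0),(45,0)]⟩,⟨1,[(25,0),(18,0)]⟩⟩ ⟨true,0,⟨1,[(1,0),(24,0),(14,0)]⟩,⟨0,
  [(27,0),(14,0)]⟩⟩,.o ⟨false,0,⟨0,[(21,0),(5,0),(4,0)]⟩,⟨7,[(24,0),(0,0),(0,3),(10,1),(5,3)]⟩⟩]⟩)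
  (.I [0,0,0,0,0,0,0,-1,1] (.I [0,1,-1,0,0,0,0,0,1] (.R ⟨1,false,false,true,[1,0,0,-1],[1,-1],[1,0,
  0,-1,0,0,0,0,-1],(⟨1,[(28,0),(8,0),(0,0)]⟩,⟨0,[(29,0)]⟩),(⟨0,[(40,0)]⟩,⟨0,[(41,0)]⟩),⟨1,[(17,0),
  (2,0),(7,0)]⟩,.k,.k,(.r (-1) ⟨5,[(6,0),(0,1),(5,0),(1,0),(0,1),(1,1),(7,2)]⟩ ⟨0,[(2,0),(6,0),(26,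
  0)]⟩),(.x (-1) ⟨3,[(4,1),(21,0),(0,0),(10,1),(6,1)]⟩ ⟨1,[(17,0),(2,0),(10,0),(2,0)]⟩),.k,.k,
  ⟨false,1,⟨1,[(26,0),(19,0)]⟩,⟨0,[(0,0)]⟩⟩,⟨true,0,⟨1,[(28,0),(2,0),(2,0)]⟩,⟨0,[(29,0)]⟩⟩,⟨false,1,
  ⟨5,[(6,0),(4,1),(2,0),(11,0),(0,0),(7,0),(10,1)]⟩,⟨0,[(44,0)]⟩⟩,⟨false,0,⟨1,[(1,1),(1,0),(11,0),
  (12,0),(13,0)]⟩,⟨1,[(26,0),(2,1),(14,1),(1,0)]⟩⟩,⟨true,0,⟨0,[]⟩,⟨0,[(48,0)]⟩⟩,⟨false,0,⟨1,[(1,1),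
  (13,0),(7,0),(4,0),(5,0),(9,0)]⟩,⟨1,[(26,0),(2,1),(16,0)]⟩⟩,[.o ⟨false,0,⟨0,[(3,0)]⟩,⟨3,[(26,0),
  (0,0),(16,3),(1,1)]⟩⟩,.o ⟨false,1,⟨35,[(6,3),(4,7),(2,7),(1,3),(9,6),(0,6),(3,3),(7,13)]⟩,⟨0,[(44,
  0)]⟩⟩,.a ⟨true,0,⟨0,[(29,0)]⟩,⟨1,[(28,0),(8,0),(0,0)]⟩⟩ ⟨false,1,⟨1,[(11,0),(14,0),(15,0)]⟩,⟨0,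
  [(1,0),(34,0),(7,0)]⟩⟩ ⟨true,0,⟨1,[(3,0),(24,0),(14,0)]⟩,⟨0,[(29,0),(14,0)]⟩⟩,.o ⟨false,0,⟨0,[(23,
  0),(5,0),(4,0)]⟩,⟨7,[(26,0),(0,0),(0,3),(10,1),(5,3)]⟩⟩]⟩) (.Q [0,0,0,0,0,1,0,0,0,0,0,-1] (.p
  false [0,0,0,1] [] (⟨0,[(29,0)]⟩,⟨1,[(28,0),(8,0),(0,0)]⟩) .k 0 (⟨0,[]⟩,⟨0,[]⟩) .k .k) (.R ⟨0,
  false,false,true,[0,0,0,1],[1,-1],[0,1,0,0,0,0,0,0,1],(⟨0,[(30,0)]⟩,⟨1,[(29,0),(8,0),(0,0)]⟩),(⟨0,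
  [(41,0)]⟩,⟨0,[(42,0)]⟩),⟨0,[(0,0)]⟩,.k,.k,(.x 0 ⟨1,[(18,0),(2,0),(10,0),(2,0)]⟩ ⟨3,[(5,1),(21,0),
  (0,0),(10,1),(6,1)]⟩),(.r 0 ⟨0,[(3,0),(6,0),(26,0)]⟩ ⟨2,[(1,0),(7,0),(7,0),(2,0),(6,0)]⟩),.k,.k,
  ⟨false,0,⟨0,[(2,0),(34,0),(7,0)]⟩,⟨2,[(1,0),(7,0),(7,0),(2,0),(6,0)]⟩⟩,⟨true,0,⟨0,[(24,0),(5,0),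
  (4,0)]⟩,⟨1,[(29,0),(8,0),(0,0)]⟩⟩,⟨true,0,⟨0,[(49,0)]⟩,⟨0,[]⟩⟩,⟨false,1,⟨4,[(1,0),(10,0),(2,0),(1,
  0),(9,1),(2,4),(9,1)]⟩,⟨1,[(2,1),(7,1),(5,1),(12,0),(8,0),(0,0),(5,1)]⟩⟩,⟨false,0,⟨0,[]⟩,⟨0,[]⟩⟩,
  ⟨false,0,⟨0,[]⟩,⟨0,[]⟩⟩,[.o ⟨false,0,⟨0,[(4,0)]⟩,⟨3,[(27,0),(0,0),(16,3),(1,1)]⟩⟩,.o ⟨false,1,⟨35,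
  [(7,3),(4,7),(2,7),(1,3),(9,6),(0,6),(3,3),(7,13)]⟩,⟨0,[(45,0)]⟩⟩,.a ⟨true,0,⟨1,[(29,0),(8,0),(0,
  0)]⟩,⟨0,[(30,0)]⟩⟩ ⟨false,0,⟨0,[(2,0),(34,0)]⟩,⟨1,[(27,0),(19,0)]⟩⟩ ⟨true,0,⟨0,[(4,0),(25,0)]⟩,⟨1,
  [(29,0),(8,0),(0,0),(5,1)]⟩⟩,.o ⟨false,0,⟨1,[(29,0),(2,0),(2,0)]⟩,⟨1,[(30,1),(9,0),(5,0)]⟩⟩]⟩)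
  (.R ⟨1,false,false,true,[0,0,0,1],[1,-1],[0,1,0,0,0,0,0,0,1],(⟨0,[(30,0)]⟩,⟨1,[(29,0),(8,0),(0,
  0)]⟩),(⟨0,[(41,0)]⟩,⟨0,[(42,0)]⟩),⟨0,[(0,0)]⟩,.k,.k,(.x 0 ⟨1,[(18,0),(2,0),(10,0),(2,0)]⟩ ⟨3,[(5,
  1),(21,0),(0,0),(10,1),(6,1)]⟩),(.r 0 ⟨0,[(3,0),(6,0),(26,0)]⟩ ⟨2,[(1,0),(7,0),(7,0),(2,0),(6,
  0)]⟩),.k,.k,⟨false,0,⟨0,[(2,0),(34,0),(7,0)]⟩,⟨2,[(1,0),(7,0),(7,0),(2,0),(6,0)]⟩⟩,⟨true,0,⟨0,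
  [(24,0),(5,0),(4,0)]⟩,⟨1,[(29,0),(8,0),(0,0)]⟩⟩,⟨true,0,⟨0,[(49,0)]⟩,⟨0,[]⟩⟩,⟨false,1,⟨4,[(1,0),
  (10,0),(2,0),(1,0),(9,1),(2,4),(9,1)]⟩,⟨1,[(2,1),(7,1),(5,1),(12,0),(8,0),(0,0),(5,1)]⟩⟩,⟨false,0,
  ⟨0,[(45,0)]⟩,⟨5,[(7,0),(4,1),(2,0),(11,0),(0,0),(7,0),(10,1)]⟩⟩,⟨false,1,⟨1,[(27,0),(2,1),(9,0)]⟩,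
  ⟨1,[(2,1),(7,1),(5,1),(12,0),(8,0),(0,0)]⟩⟩,[.o ⟨false,0,⟨0,[(4,0)]⟩,⟨3,[(27,0),(0,0),(16,3),(1,
  1)]⟩⟩,.o ⟨false,1,⟨35,[(7,3),(4,7),(2,7),(1,3),(9,6),(0,6),(3,3),(7,13)]⟩,⟨0,[(45,0)]⟩⟩,.a ⟨true,
  0,⟨1,[(29,0),(8,0),(0,0)]⟩,⟨0,[(30,0)]⟩⟩ ⟨false,0,⟨0,[(2,0),(34,0)]⟩,⟨1,[(27,0),(19,0)]⟩⟩ ⟨true,0,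
  ⟨0,[(4,0),(25,0)]⟩,⟨1,[(29,0),(8,0),(0,0),(5,1)]⟩⟩,.o ⟨false,0,⟨1,[(29,0),(2,0),(2,0)]⟩,⟨1,[(30,
  1),(9,0),(5,0)]⟩⟩]⟩))) (.I [1,0,0,0,0,0,0,0,1] (.Q [0,0,0,1,0,0,-2,-2,0,-1,2] (.p true [0,0,1] [1,
  0,-1] (⟨0,[(38,0)]⟩,⟨0,[(37,0)]⟩) .k 2 (⟨0,[(37,0)]⟩,⟨0,[(38,0)]⟩) .k (.r 0 ⟨0,[(36,1)]⟩ ⟨1,[(9,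
  0),(11,0),(2,0),(8,0),(0,0)]⟩)) (.R ⟨0,false,false,false,[0,-1,1],[1,0,-1],[0,0,1],(⟨0,[(18,0)]⟩,
  ⟨1,[(5,0),(32,1),(0,0)]⟩),(⟨0,[(38,0)]⟩,⟨0,[(39,0)]⟩),⟨0,[(5,0)]⟩,.k,.k,(.r (-1) ⟨0,[(20,0)]⟩ ⟨1,
  [(10,1),(24,0),(0,0),(8,1),(3,1)]⟩),(.x (-1) ⟨11,[(9,3),(8,11),(8,2),(0,2),(6,19),(3,11),(0,1)]⟩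
  ⟨0,[(0,0),(4,0),(10,0),(4,0)]⟩),.k,.k,⟨false,0,⟨0,[(37,0)]⟩,⟨0,[(25,0)]⟩⟩,⟨true,0,⟨0,[(0,0),(15,
  0)]⟩,⟨0,[(35,1),(2,0),(0,0)]⟩⟩,⟨false,0,⟨1,[(10,1),(24,0),(0,0)]⟩,⟨11,[(16,3),(3,3),(6,0),(0,0),
  (17,5)]⟩⟩,⟨true,0,⟨0,[(0,0)]⟩,⟨0,[(11,0),(21,0)]⟩⟩,⟨false,0,⟨0,[]⟩,⟨0,[]⟩⟩,⟨false,0,⟨0,[]⟩,⟨0,
  []⟩⟩,[.a ⟨true,0,⟨0,[(19,0)]⟩,⟨0,[(11,0),(33,0)]⟩⟩ ⟨true,0,⟨1,[(35,0),(0,0)]⟩,⟨0,[]⟩⟩ ⟨false,1,⟨2,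
  [(0,1),(19,0),(5,0),(19,1)]⟩,⟨0,[(11,0),(23,0),(9,0)]⟩⟩,.o ⟨false,1,⟨5,[(0,1),(21,1),(9,1),(7,0),
  (6,2)]⟩,⟨0,[(33,0)]⟩⟩,.o ⟨false,0,⟨0,[(35,0)]⟩,⟨7,[(26,3),(0,0),(0,0),(11,1),(5,3)]⟩⟩,.o ⟨false,0,
  ⟨1,[(35,2),(0,0)]⟩,⟨0,[(24,0),(21,0)]⟩⟩]⟩) (.I [1,1,1,0,-1,0,0,2] (.K ⟨0,[0,1,1],1,0,(⟨1,[(6,0),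
  (33,2)]⟩,⟨0,[(22,0)]⟩),.k,.k,(.r 1 ⟨0,[(0,0),(10,0),(34,0)]⟩ ⟨5,[(21,1),(1,7),(4,0),(0,0)]⟩),.k,
  .k,[⟨0,[(0,0),(7,0),(11,0)]⟩,⟨0,[(10,0)]⟩,⟨0,[(20,0),(24,0)]⟩,⟨0,[(34,0),(11,0)]⟩]⟩) (.Q [0,0,1,0,
  0,0,2,0,0,1,-2] (.p false [0,0,1] [1,0,-1] (⟨0,[(40,0)]⟩,⟨0,[(39,0)]⟩) .k 2 (⟨0,[(39,0)]⟩,⟨0,[(40,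
  0)]⟩) .k (.r 0 ⟨0,[(38,1)]⟩ ⟨5,[(0,3),(27,0),(0,0),(5,3),(0,3)]⟩)) (.I [0,0,-1,0,0,1,-2] (.K ⟨2,
  [1,1,-1],0,0,(⟨1,[(8,0),(32,1),(0,0)]⟩,⟨0,[(21,0)]⟩),.k,.k,(.r 0 ⟨2,[(1,0),(11,2),(21,0),(3,0),(8,
  2),(3,2)]⟩ ⟨0,[(23,0)]⟩),(.x 0 ⟨0,[(0,0)]⟩ ⟨3,[(1,3),(19,3),(8,0),(0,0),(10,3),(0,1)]⟩),.k,[⟨0,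
  [(1,0)]⟩,⟨0,[(27,0)]⟩,⟨0,[(3,0),(33,0)]⟩,⟨0,[(34,0),(13,0)]⟩]⟩) (.I [1,1,-1,-1,0,0,0,1,1] (.Q [0,
  0,0,0,0,1,0,0,0,0,0,-1] (.p false [0,0,0,1] [] (⟨0,[(34,0)]⟩,⟨1,[(33,0),(8,0),(0,0)]⟩) .k 0 (⟨0,
  []⟩,⟨0,[]⟩) .k .k) (.R ⟨0,false,false,false,[0,0,0,1],[1,0,-1],[0,1,0,0,0,0,0,0,1],(⟨0,[(35,0)]⟩,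
  ⟨1,[(34,0),(8,0),(0,0)]⟩),(⟨0,[(43,0)]⟩,⟨0,[(44,0)]⟩),⟨0,[(0,0)]⟩,.k,.k,(.r (-1) ⟨9,[(1,1),(2,0),
  (12,0),(7,1),(1,1),(5,3)]⟩ ⟨0,[(7,0),(7,0),(38,0)]⟩),.k,.k,.k,⟨false,0,⟨0,[(1,0),(48,0)]⟩,⟨5,[(4,
  1),(7,1),(19,2),(19,0)]⟩⟩,⟨true,0,⟨0,[(29,0),(5,0)]⟩,⟨5,[(3,3),(30,2),(2,0),(3,0)]⟩⟩,⟨true,0,⟨0,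
  [(54,0)]⟩,⟨0,[]⟩⟩,⟨false,1,⟨5,[(4,1),(7,1),(16,5),(2,2),(2,5),(16,0)]⟩,⟨1,[(5,0),(0,1),(27,0),(15,
  0)]⟩⟩,⟨false,0,⟨0,[]⟩,⟨0,[]⟩⟩,⟨false,0,⟨0,[]⟩,⟨0,[]⟩⟩,[.a ⟨true,0,⟨0,[(24,0)]⟩,⟨1,[(5,0),(37,0),
  (0,0),(5,0)]⟩⟩ ⟨true,0,⟨0,[(8,0)]⟩,⟨0,[(7,0),(4,0)]⟩⟩ ⟨false,1,⟨2,[(4,0),(26,0),(3,2),(3,0),(5,0),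
  (5,0)]⟩,⟨1,[(5,0),(28,0),(15,0)]⟩⟩,.o ⟨false,1,⟨15,[(4,7),(26,3),(0,0),(0,0),(3,7),(7,1),(6,3)]⟩,
  ⟨0,[(38,0)]⟩⟩,.e ⟨false,0,⟨0,[(1,0),(13,0)]⟩,⟨1,[(32,0),(19,0)]⟩⟩ ⟨false,1,⟨15,[(4,7),(26,3),(0,
  0),(0,0),(1,15),(1,7),(7,1),(6,3)]⟩,⟨1,[(5,0),(28,0),(15,0)]⟩⟩,.o ⟨false,0,⟨1,[(34,0),(2,0),(2,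
  0)]⟩,⟨1,[(35,1),(9,0),(5,0)]⟩⟩]⟩) (.R ⟨1,false,false,false,[0,0,0,1],[1,0,-1],[0,1,0,0,0,0,0,0,1],
  (⟨0,[(35,0)]⟩,⟨1,[(34,0),(8,0),(0,0)]⟩),(⟨0,[(43,0)]⟩,⟨0,[(44,0)]⟩),⟨0,[(0,0)]⟩,.k,.k,(.r (-1) ⟨9,
  [(1,1),(2,0),(12,0),(7,1),(1,1),(5,3)]⟩ ⟨0,[(7,0),(7,0),(38,0)]⟩),.k,(.x 0 ⟨2,[(2,1),(23,0),(10,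
  0)]⟩ ⟨2,[(10,0),(0,0),(2,0),(16,0),(0,0),(0,0)]⟩),.k,⟨false,0,⟨0,[(1,0),(48,0)]⟩,⟨5,[(4,1),(7,1),
  (19,2),(19,0)]⟩⟩,⟨true,0,⟨0,[(29,0),(5,0)]⟩,⟨5,[(3,3),(30,2),(2,0),(3,0)]⟩⟩,⟨true,0,⟨0,[(54,0)]⟩,
  ⟨0,[]⟩⟩,⟨false,1,⟨5,[(4,1),(7,1),(16,5),(2,2),(2,5),(16,0)]⟩,⟨1,[(5,0),(0,1),(27,0),(15,0)]⟩⟩,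
  ⟨false,0,⟨0,[(50,0)]⟩,⟨5,[(12,0),(4,1),(2,0),(11,0),(0,0),(7,0),(10,1)]⟩⟩,⟨false,1,⟨5,[(4,1),(10,
  1),(13,5),(2,2),(2,5),(14,3),(1,0)]⟩,⟨1,[(1,0),(3,0),(0,0),(5,0),(21,0)]⟩⟩,[.a ⟨true,0,⟨0,[(24,
  0)]⟩,⟨1,[(5,0),(37,0),(0,0),(5,0)]⟩⟩ ⟨true,0,⟨0,[(8,0)]⟩,⟨0,[(7,0),(4,0)]⟩⟩ ⟨false,1,⟨2,[(4,0),
  (26,0),(3,2),(3,0),(5,0),(5,0)]⟩,⟨1,[(5,0),(28,0),(15,0)]⟩⟩,.o ⟨false,1,⟨15,[(4,7),(26,3),(0,0),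
  (0,0),(3,7),(7,1),(6,3)]⟩,⟨0,[(38,0)]⟩⟩,.e ⟨false,0,⟨0,[(1,0),(13,0)]⟩,⟨1,[(32,0),(19,0)]⟩⟩
  ⟨false,1,⟨15,[(4,7),(26,3),(0,0),(0,0),(1,15),(1,7),(7,1),(6,3)]⟩,⟨1,[(5,0),(28,0),(15,0)]⟩⟩,.o
  ⟨false,0,⟨1,[(34,0),(2,0),(2,0)]⟩,⟨1,[(35,1),(9,0),(5,0)]⟩⟩]⟩)) (.Q [0,0,0,0,0,0,0,0,-1,0,0,1]
  (.p true [0,0,0,1] [] (⟨0,[(34,0)]⟩,⟨1,[(33,0),(8,0),(0,0)]⟩) .k 0 (⟨0,[]⟩,⟨0,[]⟩) .k .k) (.R ⟨2,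
  false,false,false,[0,1],[0,0,0,1],[1,1,1],(⟨0,[]⟩,⟨0,[]⟩),(⟨0,[(35,0)]⟩,⟨1,[(34,0),(8,0),(0,0)]⟩),
  ⟨0,[]⟩,.k,.k,.k,(.r 0 ⟨2,[(1,1),(5,0),(30,0),(2,0),(8,0),(3,0)]⟩ ⟨5,[(4,0),(3,1),(8,0),(7,1),(7,
  1)]⟩),.k,.k,⟨false,0,⟨1,[(0,1),(33,0),(1,0),(1,0)]⟩,⟨6,[(4,0),(1,2),(8,1),(3,3),(13,1),(16,1)]⟩⟩,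
  ⟨true,0,⟨1,[(34,0),(2,0),(2,0)]⟩,⟨0,[(35,0)]⟩⟩,⟨true,0,⟨0,[(49,0)]⟩,⟨0,[(50,0)]⟩⟩,⟨false,1,⟨3,[(6,
  1),(10,1),(15,0),(0,1),(10,0),(2,1)]⟩,⟨0,[(0,0),(49,0)]⟩⟩,⟨false,0,⟨0,[]⟩,⟨3,[(32,0),(0,0),(18,
  1)]⟩⟩,⟨false,1,⟨3,[(6,1),(26,0),(0,1),(10,0),(6,1)]⟩,⟨0,[(0,0)]⟩⟩,[.a ⟨true,0,⟨1,[(6,1),(27,0),(8,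
  0),(0,0)]⟩,⟨0,[(0,0)]⟩⟩ ⟨false,0,⟨0,[(54,0)]⟩,⟨1,[(51,0),(0,0)]⟩⟩ ⟨true,0,⟨1,[(6,1),(27,0),(2,0),
  (2,0)]⟩,⟨0,[(0,0)]⟩⟩,.o ⟨false,1,⟨3,[(6,1),(26,0),(0,1),(10,0),(6,1)]⟩,⟨0,[(0,0),(8,0),(40,0)]⟩⟩,
  .o ⟨false,1,⟨3,[(32,0),(0,0),(17,1)]⟩,⟨0,[(29,0),(10,0)]⟩⟩,.e ⟨false,0,⟨0,[]⟩,⟨3,[(32,0),(0,0),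
  (18,1)]⟩⟩ ⟨false,1,⟨3,[(6,1),(26,0),(0,1),(10,0),(6,1)]⟩,⟨0,[(0,0)]⟩⟩]⟩) (.I [0,1,0,0,0,0,0,0,-1]
  (.R ⟨1,false,false,true,[1,0,0,-1],[0,0,0,1],[0,1,0,0,0,0,0,0,-1],(⟨1,[(35,0),(8,0),(0,0)]⟩,⟨0,
  [(36,0)]⟩),(⟨0,[(36,0)]⟩,⟨1,[(35,0),(8,0),(0,0)]⟩),⟨1,[(24,0),(2,0),(7,0)]⟩,.k,.k,(.r (-1) ⟨5,[(0,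
  1),(4,0),(12,0),(7,1),(6,1)]⟩ ⟨0,[(9,0),(6,0),(26,0)]⟩),.k,(.r (-1) ⟨1,[(0,1),(4,0),(2,1),(9,0)]⟩
  ⟨0,[(7,0),(1,0),(6,0),(26,0)]⟩),.k,⟨false,1,⟨3,[(0,1),(4,1),(2,3),(24,0),(18,0)]⟩,⟨0,[(7,1)]⟩⟩,
  ⟨true,0,⟨0,[(35,0)]⟩,⟨0,[(30,0),(5,1),(4,0)]⟩⟩,⟨true,0,⟨0,[(55,0)]⟩,⟨0,[]⟩⟩,⟨false,0,⟨0,[(7,1),
  (27,0)]⟩,⟨3,[(2,3),(5,1),(1,1),(9,1),(12,0),(2,7),(9,0)]⟩⟩,⟨false,0,⟨0,[(51,0)]⟩,⟨5,[(13,0),(4,1),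
  (2,0),(11,0),(0,0),(7,0),(10,1)]⟩⟩,⟨false,0,⟨0,[(7,1),(27,0),(15,0)]⟩,⟨7,[(2,7),(5,5),(1,5),(7,3),
  (1,1),(12,0),(2,15),(9,0)]⟩⟩,[.o ⟨false,0,⟨3,[(1,1),(7,1),(25,0),(1,0),(1,0)]⟩,⟨11,[(2,5),(5,3),
  (9,1),(1,1),(12,0),(2,11),(9,5),(6,0)]⟩⟩,.o ⟨false,0,⟨0,[(1,0)]⟩,⟨1,[(33,0),(2,1),(9,0)]⟩⟩,.a
  ⟨true,0,⟨0,[(36,0)]⟩,⟨1,[(35,0),(8,0),(0,0)]⟩⟩ ⟨true,0,⟨0,[(0,0)]⟩,⟨0,[(7,0)]⟩⟩ ⟨false,0,⟨0,[(7,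
  0),(27,0)]⟩,⟨11,[(2,5),(5,3),(9,1),(1,1),(12,0),(2,23),(9,5),(6,0)]⟩⟩,.o ⟨false,0,⟨0,[(30,0),(5,
  0),(4,0)]⟩,⟨7,[(33,0),(0,0),(0,3),(10,1),(5,3)]⟩⟩]⟩) (.Q [0,0,0,0,0,1,0,0,0,0,0,-1] (.p false [0,
  0,0,1] [] (⟨0,[(36,0)]⟩,⟨1,[(35,0),(8,0),(0,0)]⟩) .k 0 (⟨0,[]⟩,⟨0,[]⟩) .k .k) (.R ⟨0,false,false,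
  true,[0,0,0,1],[1,-1],[1,0,0,0,0,0,0,0,1],(⟨0,[(37,0)]⟩,⟨1,[(36,0),(8,0),(0,0)]⟩),(⟨0,[(48,0)]⟩,
  ⟨0,[(49,0)]⟩),⟨0,[(0,0)]⟩,.k,.k,(.r (-1) ⟨5,[(1,0),(8,0),(16,1),(1,1),(5,1)]⟩ ⟨2,[(3,1),(5,0),(30,
  0),(2,0),(8,0),(3,0)]⟩),(.r 0 ⟨5,[(1,2),(3,1),(4,2),(28,1),(3,1),(8,5)]⟩ ⟨9,[(6,1),(2,1),(5,0),(6,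
  0),(1,0),(1,1),(0,2),(6,3)]⟩),.k,.k,⟨false,0,⟨0,[(1,0),(50,0)]⟩,⟨3,[(11,0),(4,0),(10,0),(6,1),(6,
  0),(9,0),(4,0)]⟩⟩,⟨true,0,⟨0,[(31,0),(5,0),(4,0)]⟩,⟨1,[(36,0),(8,0),(0,0)]⟩⟩,⟨true,0,⟨0,[]⟩,⟨0,
  [(56,0)]⟩⟩,⟨false,1,⟨6,[(3,0),(7,1),(7,1),(2,0),(11,2),(2,6),(1,0),(7,1)]⟩,⟨1,[(1,1),(34,0),(8,0),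
  (0,0),(5,1)]⟩⟩,⟨false,0,⟨0,[]⟩,⟨0,[]⟩⟩,⟨false,0,⟨0,[]⟩,⟨0,[]⟩⟩,[.o ⟨false,0,⟨0,[(11,0)]⟩,⟨3,[(34,
  0),(0,0),(16,3),(1,1)]⟩⟩,.o ⟨false,1,⟨35,[(14,3),(4,7),(2,7),(1,3),(9,6),(0,6),(3,3),(7,13)]⟩,⟨0,
  [(52,0)]⟩⟩,.a ⟨true,0,⟨1,[(36,0),(8,0),(0,0)]⟩,⟨0,[(37,0)]⟩⟩ ⟨false,0,⟨0,[(1,0)]⟩,⟨3,[(34,2),(0,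
  0)]⟩⟩ ⟨true,0,⟨0,[(11,0),(25,0)]⟩,⟨1,[(36,0),(8,0),(0,0),(5,1)]⟩⟩,.o ⟨false,0,⟨1,[(36,0),(2,0),(2,
  0)]⟩,⟨1,[(37,1),(9,0),(5,0)]⟩⟩]⟩) (.R ⟨1,false,false,true,[0,0,0,1],[1,-1],[1,1,0,-1,0,0,0,0,1],
  (⟨0,[(37,0)]⟩,⟨1,[(36,0),(8,0),(0,0)]⟩),(⟨0,[(48,0)]⟩,⟨0,[(49,0)]⟩),⟨0,[(0,0)]⟩,.k,.k,(.r (-1) ⟨5,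
  [(1,0),(8,0),(16,1),(1,1),(5,1)]⟩ ⟨2,[(3,1),(5,0),(30,0),(2,0),(8,0),(3,0)]⟩),(.r 0 ⟨5,[(1,2),(3,
  1),(4,2),(28,1),(3,1),(8,5)]⟩ ⟨9,[(6,1),(2,1),(5,0),(6,0),(1,0),(1,1),(0,2),(6,3)]⟩),.k,.k,⟨false,
  0,⟨0,[(8,0)]⟩,⟨1,[(34,0),(18,0)]⟩⟩,⟨true,0,⟨0,[(31,0),(5,0),(4,0)]⟩,⟨1,[(36,0),(8,0),(0,0)]⟩⟩,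
  ⟨true,0,⟨0,[(51,0)]⟩,⟨0,[(52,0)]⟩⟩,⟨false,1,⟨6,[(3,0),(7,1),(7,1),(2,0),(11,2),(2,6),(1,0),(7,
  1)]⟩,⟨1,[(1,1),(34,0),(8,0),(0,0),(5,1)]⟩⟩,⟨false,0,⟨0,[]⟩,⟨3,[(34,0),(0,0),(18,1)]⟩⟩,⟨false,1,⟨1,
  [(34,0),(2,1),(9,0)]⟩,⟨1,[(1,1),(34,0),(8,0),(0,0)]⟩⟩,[.o ⟨false,0,⟨0,[(11,0)]⟩,⟨3,[(34,0),(0,0),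
  (16,3),(1,1)]⟩⟩,.o ⟨false,1,⟨35,[(14,3),(4,7),(2,7),(1,3),(9,6),(0,6),(3,3),(7,13)]⟩,⟨0,[(52,
  0)]⟩⟩,.a ⟨true,0,⟨1,[(36,0),(8,0),(0,0)]⟩,⟨0,[(37,0)]⟩⟩ ⟨false,0,⟨0,[(1,0),(49,0)]⟩,⟨1,[(34,0),
  (17,1),(1,0)]⟩⟩ ⟨true,0,⟨0,[(11,0),(25,0)]⟩,⟨1,[(36,0),(8,0),(0,0),(5,1)]⟩⟩,.o ⟨false,0,⟨1,[(36,
  0),(2,0),(2,0)]⟩,⟨1,[(37,1),(9,0),(5,0)]⟩⟩]⟩)))))) (.R ⟨0,false,false,true,[0,-1,1],[1,0,-1],[0,1,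
  1],(⟨0,[(20,0)]⟩,⟨1,[(7,0),(32,1),(0,0)]⟩),(⟨0,[(40,0)]⟩,⟨0,[(41,0)]⟩),⟨0,[(7,0)]⟩,.k,.k,(.r (-1)
  ⟨0,[(22,0)]⟩ ⟨1,[(12,1),(24,0),(0,0),(8,1),(3,1)]⟩),(.r 0 ⟨0,[(0,0),(1,0)]⟩ ⟨3,[(12,3),(14,1),(1,
  0),(0,0),(5,1),(0,1),(13,1)]⟩),.k,.k,⟨false,0,⟨0,[(39,0)]⟩,⟨0,[(27,0)]⟩⟩,⟨true,0,⟨0,[(0,0)]⟩,⟨0,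
  [(2,0),(9,0),(23,0),(0,0)]⟩⟩,⟨false,0,⟨1,[(12,1),(24,0),(0,0),(12,1)]⟩,⟨0,[(16,0)]⟩⟩,⟨true,0,⟨0,
  [(21,0),(11,0),(13,0)]⟩,⟨0,[(2,0)]⟩⟩,⟨false,0,⟨0,[]⟩,⟨0,[]⟩⟩,⟨false,0,⟨0,[]⟩,⟨0,[]⟩⟩,[.o ⟨false,0,
  ⟨0,[(33,0)]⟩,⟨7,[(2,3),(26,0),(0,0),(11,1),(4,3),(1,3)]⟩⟩,.a ⟨true,0,⟨0,[(21,0)]⟩,⟨1,[(2,0),(37,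
  0),(0,0),(5,0)]⟩⟩ ⟨true,0,⟨1,[(37,0),(0,0)]⟩,⟨0,[]⟩⟩ ⟨false,1,⟨0,[(0,0),(26,0)]⟩,⟨0,[(2,0),(9,0),
  (38,0)]⟩⟩,.o ⟨false,0,⟨0,[(37,0)]⟩,⟨3,[(0,1),(28,0),(0,0),(11,0),(5,0)]⟩⟩,.o ⟨false,0,⟨1,[(37,2),
  (0,0)]⟩,⟨3,[(0,1),(41,0),(5,2)]⟩⟩]⟩)))) (.R ⟨1,false,false,false,[1,0,0,-1],[1,-1],[0,0,0,0,0,0,0,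
  0,-1],(⟨1,[(28,0),(8,0),(0,0)]⟩,⟨0,[(29,0)]⟩),(⟨0,[(40,0)]⟩,⟨0,[(41,0)]⟩),⟨1,[(17,0),(2,0),(7,
  0)]⟩,.k,.k,(.r (-1) ⟨2,[(0,0),(18,0),(1,0),(4,0)]⟩ ⟨0,[(2,0),(6,0),(26,0)]⟩),(.r 0 ⟨0,[(1,0),(7,
  0),(38,0)]⟩ ⟨5,[(2,1),(5,0),(2,1),(1,0),(2,0),(10,1)]⟩),.k,.k,⟨false,0,⟨0,[(0,0),(43,0)]⟩,⟨5,[(2,
  1),(5,0),(2,1),(1,0),(2,0),(10,1)]⟩⟩,⟨true,0,⟨1,[(28,0),(2,0),(2,0)]⟩,⟨0,[(29,0)]⟩⟩,⟨false,1,⟨3,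
  [(26,0),(0,0),(18,1)]⟩,⟨0,[]⟩⟩,⟨false,1,⟨5,[(3,0),(2,4),(4,0),(1,0),(1,1),(11,2),(0,2),(10,0)]⟩,
  ⟨0,[(0,0),(28,0),(14,0)]⟩⟩,⟨true,0,⟨0,[(44,0)]⟩,⟨0,[(43,0)]⟩⟩,⟨false,1,⟨3,[(6,0),(2,1),(3,0),(1,
  0),(11,1),(0,1),(10,0)]⟩,⟨0,[(0,0),(28,0)]⟩⟩,[.o ⟨false,1,⟨35,[(6,3),(4,7),(2,7),(1,3),(9,6),(0,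
  6),(3,3),(7,13)]⟩,⟨0,[(44,0)]⟩⟩,.o ⟨false,1,⟨1,[(11,0),(27,0),(2,0)]⟩,⟨0,[(44,0),(3,0)]⟩⟩,.a
  ⟨true,0,⟨0,[(29,0)]⟩,⟨1,[(28,0),(8,0),(0,0)]⟩⟩ ⟨true,0,⟨0,[(0,0)]⟩,⟨0,[(2,0)]⟩⟩ ⟨false,1,⟨15,[(11,
  7),(14,0),(0,0),(0,7),(2,3),(2,3),(4,1),(6,3)]⟩,⟨0,[(29,0),(14,0)]⟩⟩,.o ⟨false,0,⟨0,[(23,0),(5,0),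
  (4,0)]⟩,⟨7,[(26,0),(0,0),(0,3),(10,1),(5,3)]⟩⟩]⟩))))) (.I [1,1,1,0,-1,0,0,2] (.K ⟨0,[0,1,1],1,0,
  (⟨0,[(35,0),(2,0)]⟩,⟨0,[(17,0)]⟩),.k,.k,(.r 1 ⟨0,[(0,0),(5,0),(34,0)]⟩ ⟨5,[(16,1),(1,7),(4,0),(0,
  0)]⟩),.k,.k,[⟨0,[(0,0),(2,0),(11,0)]⟩,⟨0,[(5,0)]⟩,⟨0,[(15,0),(24,0)]⟩,⟨0,[(29,0),(11,0)]⟩]⟩) (.I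
  [1,1,0,0,0,0,0,0,-1] (.Q [0,-1,0,2,0,0,1,1,0,1,-1] (.p false [0,0,1] [1] (⟨0,[(36,0)]⟩,⟨0,[(35,
  0)]⟩) .k 1 (⟨0,[]⟩,⟨0,[]⟩) .k .k) (.I [0,0,2,2,-1,0,0,1] (.R ⟨1,true,false,false,[1,0,-1],[0,1],
  [1,0,0,-1,0,0,0,-1],(⟨0,[(37,0)]⟩,⟨0,[(38,0)]⟩),(⟨0,[(41,0)]⟩,⟨0,[(40,0)]⟩),⟨0,[(20,0)]⟩,.k,.k,.k,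
  .k,(.r (-2) ⟨5,[(19,1),(1,7),(4,0),(0,0)]⟩ ⟨0,[(0,0)]⟩),.k,⟨true,1,⟨1,[(3,0),(7,0),(31,1)]⟩,⟨0,
  [(0,0)]⟩⟩,⟨false,1,⟨0,[(8,0)]⟩,⟨0,[(31,0)]⟩⟩,⟨false,1,⟨5,[(6,0),(4,1),(2,0),(11,0),(0,0),(7,0),
  (10,1)]⟩,⟨0,[(44,0)]⟩⟩,⟨true,0,⟨2,[(1,1),(8,0),(37,1)]⟩,⟨0,[(16,0)]⟩⟩,⟨true,0,⟨0,[]⟩,⟨0,[(48,
  0)]⟩⟩,⟨false,0,⟨0,[(1,0)]⟩,⟨17,[(6,4),(4,9),(2,0),(1,13),(9,3),(0,3),(3,3),(3,0)]⟩⟩,[]⟩) (.I [0,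
  -1,-1,0,1,0,0,0,1] (.I [0,0,-2,0,1,2,1] (.R ⟨1,false,false,false,[1,-1],[0,0,1],[0,0,1],(⟨0,[(42,
  0)]⟩,⟨0,[(43,0)]⟩),(⟨0,[(40,0)]⟩,⟨0,[(39,0)]⟩),⟨1,[(6,0),(15,0),(19,0)]⟩,.k,.k,(.r (-1) ⟨1,[(2,0),
  (18,0)]⟩ ⟨0,[(3,0),(29,0),(1,0),(0,0)]⟩),.k,(.x 0 ⟨5,[(6,1),(15,7),(10,7),(2,2),(0,0)]⟩ ⟨0,[(0,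
  0)]⟩),.k,⟨true,0,⟨1,[(8,0),(26,0),(0,0)]⟩,⟨0,[(38,0)]⟩⟩,⟨false,1,⟨0,[(10,0)]⟩,⟨0,[(33,0)]⟩⟩,
  ⟨false,0,⟨5,[(3,1),(7,1),(21,1),(2,2),(0,2),(6,1)]⟩,⟨3,[(2,0),(18,0),(25,1)]⟩⟩,⟨true,0,⟨2,[(3,1),
  (8,0),(37,1)]⟩,⟨0,[(18,0)]⟩⟩,⟨false,0,⟨3,[(3,2),(7,1),(21,2),(1,0),(0,1),(0,0)]⟩,⟨1,[(2,0),(18,
  0)]⟩⟩,⟨false,0,⟨0,[(3,0)]⟩,⟨17,[(8,4),(4,9),(2,0),(1,13),(9,3),(0,3),(3,3),(3,0)]⟩⟩,[.a ⟨true,0,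
  ⟨2,[(3,0),(8,1),(37,0)]⟩,⟨0,[(20,0)]⟩⟩ ⟨true,0,⟨1,[(36,0),(0,0)]⟩,⟨0,[]⟩⟩ ⟨false,1,⟨9,[(3,1),(6,
  7),(6,3),(10,0),(0,0),(20,1)]⟩,⟨1,[(11,0),(6,0),(14,0)]⟩⟩,.o ⟨false,1,⟨7,[(3,3),(12,3),(11,0),(0,
  0),(11,1),(6,3)]⟩,⟨0,[(32,0)]⟩⟩,.o ⟨false,0,⟨0,[(25,0),(10,0)]⟩,⟨3,[(28,0),(0,0),(17,1)]⟩⟩,.o
  ⟨false,0,⟨0,[(33,0),(2,0)]⟩,⟨0,[(47,0)]⟩⟩]⟩) (.Q [0,-1,0,0,0,0,0,0,1,1,0,-1] (.p false [0,0,0,1]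
  [1] (⟨0,[(31,0)]⟩,⟨1,[(30,0),(8,0),(0,0)]⟩) .k 1 (⟨0,[]⟩,⟨0,[]⟩) .k .k) (.K ⟨1,[0,0,0,1],0,0,(⟨0,
  [(32,0)]⟩,⟨5,[(4,0),(8,1),(7,1),(9,2),(4,0)]⟩),.k,(.r (-1) ⟨3,[(3,0),(18,0),(7,1)]⟩ ⟨2,[(4,0),(0,
  2),(6,0),(21,0),(10,0)]⟩),(.r 0 ⟨3,[(0,1),(0,0),(24,0),(3,0),(1,1),(0,0),(1,0),(1,1),(3,0),(2,1),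
  (2,3)]⟩ ⟨3,[(3,0),(18,0),(6,1)]⟩),.k,.k,[⟨1,[(32,1),(4,0),(0,0)]⟩,⟨1,[(31,0),(2,0),(2,0)]⟩,⟨0,[(5,
  0),(26,0)]⟩,⟨0,[(0,0)]⟩]⟩) (.I [1,-1,0,0,0,0,0,0,-1] (.I [0,0,-1,0,0,0,0,0,-1] (.R ⟨1,false,false,
  true,[1,0,0,-1],[0,0,1],[0,1,0,0,0,0,0,0,-1],(⟨1,[(33,0),(8,0),(0,0)]⟩,⟨0,[(34,0)]⟩),(⟨0,[(43,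
  0)]⟩,⟨0,[(42,0)]⟩),⟨3,[(9,0),(15,0),(7,1),(11,0)]⟩,.k,.k,(.x 0 ⟨7,[(3,1),(5,1),(21,0),(0,0),(6,2),
  (0,0)]⟩ ⟨3,[(31,0),(0,0),(13,3),(3,1)]⟩),.k,(.r (-1) ⟨5,[(5,2),(1,1),(0,0),(2,0),(19,1)]⟩ ⟨1,[(3,
  0),(2,0),(21,0),(3,0),(4,0),(5,0),(2,1)]⟩),.k,⟨true,0,⟨1,[(0,1),(10,0),(26,0),(0,0)]⟩,⟨5,[(3,2),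
  (2,0),(13,1),(7,0),(3,2),(4,0),(1,1),(3,2),(2,5)]⟩⟩,⟨false,1,⟨23,[(13,15),(17,2),(0,2),(0,11),(5,
  7),(4,1)]⟩,⟨0,[(28,0),(5,0)]⟩⟩,⟨true,0,⟨0,[(53,0)]⟩,⟨0,[]⟩⟩,⟨false,1,⟨3,[(6,1),(12,1),(11,0),(0,
  2),(0,1)]⟩,⟨0,[(0,0),(10,0),(16,0),(5,0)]⟩⟩,⟨false,0,⟨0,[(49,0)]⟩,⟨5,[(11,0),(4,1),(2,0),(11,0),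
  (0,0),(7,0),(10,1)]⟩⟩,⟨false,1,⟨3,[(6,1),(24,0),(0,2),(0,1),(3,1)]⟩,⟨1,[(0,1),(10,2),(8,0),(0,0),
  (6,0),(5,1)]⟩⟩,[.o ⟨false,0,⟨0,[(37,0)]⟩,⟨15,[(8,7),(21,3),(0,0),(0,0),(3,7),(7,1),(6,3)]⟩⟩,.a
  ⟨true,0,⟨2,[(6,0),(8,1),(37,0)]⟩,⟨0,[(23,0)]⟩⟩ ⟨false,0,⟨0,[(0,0)]⟩,⟨3,[(31,0),(0,2)]⟩⟩ ⟨true,0,
  ⟨1,[(6,0),(12,0),(13,0)]⟩,⟨1,[(14,0),(6,0),(12,1),(1,0)]⟩⟩,.e ⟨false,0,⟨0,[(0,0),(2,1),(1,1),(3,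
  1),(4,1),(4,1),(0,0),(25,7),(2,6)]⟩,⟨1,[(32,0),(18,0)]⟩⟩ ⟨false,0,⟨1,[(6,0),(12,0),(13,0)]⟩,⟨15,
  [(8,7),(21,3),(0,0),(0,0),(1,15),(1,7),(7,1),(6,3)]⟩⟩,.o ⟨false,0,⟨0,[(28,0),(5,0),(4,0)]⟩,⟨7,
  [(31,0),(0,0),(0,3),(10,1),(5,3)]⟩⟩]⟩) (.Q [0,1,0,0,0,0,0,0,1,1,0,-1] (.p false [0,0,0,1] [1] (⟨0,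
  [(34,0)]⟩,⟨1,[(33,0),(8,0),(0,0)]⟩) .k 1 (⟨0,[]⟩,⟨0,[]⟩) .k .k) (.K ⟨1,[1,0,0,-1],0,0,(⟨5,[(7,0),
  (8,1),(7,1),(9,2),(4,0)]⟩,⟨0,[(35,0)]⟩),.k,(.r (-1) ⟨3,[(6,0),(18,0),(6,1)]⟩ ⟨0,[(1,0),(48,0)]⟩),
  (.r 0 ⟨5,[(2,0),(4,1),(0,4),(6,1),(21,1),(2,0),(0,0)]⟩ ⟨3,[(6,0),(18,0),(7,1)]⟩),.k,.k,[⟨9,[(0,1),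
  (7,1),(6,3),(0,3),(17,3),(5,0),(0,4)]⟩,⟨0,[(29,0),(5,0),(4,0)]⟩,⟨0,[(0,0)]⟩,⟨0,[(2,0),(32,0)]⟩]⟩)
  (.R ⟨1,false,false,true,[1,0,0,-1],[1,-1],[1,0,0,-1,0,0,0,0,-1],(⟨1,[(34,0),(8,0),(0,0)]⟩,⟨0,[(35,
  0)]⟩),(⟨0,[(46,0)]⟩,⟨0,[(47,0)]⟩),⟨3,[(10,0),(15,0),(7,1),(11,0)]⟩,.k,.k,(.r (-1) ⟨3,[(6,0),(18,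
  0),(6,1)]⟩ ⟨0,[(1,0),(48,0)]⟩),(.r 0 ⟨5,[(2,0),(4,1),(0,4),(6,1),(21,1),(2,0),(0,0)]⟩ ⟨3,[(6,0),
  (18,0),(7,1)]⟩),.k,.k,⟨false,0,⟨0,[(2,0)]⟩,⟨1,[(33,0),(17,0),(2,1)]⟩⟩,⟨true,0,⟨1,[(34,0),(2,0),(2,
  0)]⟩,⟨0,[(35,0)]⟩⟩,⟨false,1,⟨5,[(12,0),(4,1),(2,0),(11,0),(0,0),(7,0),(10,1)]⟩,⟨0,[(50,0)]⟩⟩,
  ⟨false,1,⟨71,[(12,7),(4,15),(2,15),(1,7),(9,4),(0,40),(0,35),(2,7),(7,9)]⟩,⟨1,[(0,0),(1,0),(4,0),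
  (27,0),(3,0)]⟩⟩,⟨true,0,⟨0,[]⟩,⟨0,[(54,0)]⟩⟩,⟨false,1,⟨7,[(32,0),(0,4),(0,3),(10,1)]⟩,⟨0,[(2,0),
  (32,0)]⟩⟩,[.e ⟨true,0,⟨0,[(2,0),(46,0)]⟩,⟨0,[(1,0),(48,0)]⟩⟩ ⟨true,0,⟨3,[(20,0),(1,1),(11,1),(3,
  0)]⟩,⟨2,[(7,0),(7,0),(19,2),(1,0),(10,0)]⟩⟩,.o ⟨false,1,⟨35,[(12,3),(4,7),(2,7),(1,3),(9,6),(0,6),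
  (3,3),(7,13)]⟩,⟨0,[(50,0)]⟩⟩,.a ⟨true,0,⟨0,[(35,0)]⟩,⟨1,[(34,0),(8,0),(0,0)]⟩⟩ ⟨false,0,⟨2,[(0,1),
  (1,0),(1,0),(1,0),(9,0),(17,0),(9,0),(2,1)]⟩,⟨7,[(7,3),(24,0),(0,4),(5,3),(5,1)]⟩⟩ ⟨true,0,⟨3,
  [(20,0),(1,1),(11,1),(3,0)]⟩,⟨0,[(35,0),(14,0)]⟩⟩,.o ⟨false,0,⟨1,[(0,0),(0,1),(1,0)]⟩,⟨7,[(32,0),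
  (0,0),(0,3),(10,1),(5,3)]⟩⟩]⟩))) (.I [1,1,0,0,0,0,0,-1,-1] (.R ⟨1,false,false,false,[1,0,0,-1],[1,
  -1],[0,0,0,0,0,0,0,0,-1],(⟨1,[(33,0),(8,0),(0,0)]⟩,⟨0,[(34,0)]⟩),(⟨0,[(45,0)]⟩,⟨0,[(46,0)]⟩),⟨3,
  [(9,0),(15,0),(7,1),(11,0)]⟩,.k,.k,(.r (-1) ⟨3,[(5,0),(18,0),(6,1)]⟩ ⟨2,[(1,2),(4,0),(7,0),(21,0),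
  (10,0)]⟩),(.r 0 ⟨2,[(6,0),(0,2),(6,0),(21,0),(10,0)]⟩ ⟨3,[(5,0),(18,0),(7,1)]⟩),.k,.k,⟨false,0,⟨2,
  [(0,2),(5,1),(4,0),(8,0),(7,1)]⟩,⟨3,[(5,0),(18,0),(7,1)]⟩⟩,⟨true,0,⟨1,[(33,0),(2,0),(2,0)]⟩,⟨0,
  [(34,0)]⟩⟩,⟨false,1,⟨3,[(31,0),(0,0),(18,1)]⟩,⟨0,[]⟩⟩,⟨false,1,⟨27,[(4,5),(6,19),(4,5),(2,3),(0,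
  7),(7,3),(3,10),(0,13),(10,4)]⟩,⟨2,[(0,0),(1,1),(3,1),(4,0),(8,0),(2,1),(10,0)]⟩⟩,⟨true,0,⟨0,[(49,
  0)]⟩,⟨0,[(48,0)]⟩⟩,⟨false,1,⟨3,[(4,1),(27,0),(0,1),(10,0),(2,1)]⟩,⟨2,[(0,1),(1,0),(3,0),(4,1),(8,
  1),(2,0),(10,1)]⟩⟩,[.o ⟨false,1,⟨35,[(11,3),(4,7),(2,7),(1,3),(9,6),(0,6),(3,3),(7,13)]⟩,⟨0,[(49,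
  0)]⟩⟩,.o ⟨false,1,⟨1,[(16,0),(27,0),(2,0)]⟩,⟨0,[(49,0),(3,0)]⟩⟩,.a ⟨true,0,⟨0,[(34,0)]⟩,⟨1,[(33,
  0),(8,0),(0,0)]⟩⟩ ⟨true,0,⟨2,[(0,2),(5,0),(4,1),(8,1),(7,0)]⟩,⟨0,[(1,0)]⟩⟩ ⟨false,1,⟨15,[(16,7),
  (14,0),(0,0),(0,7),(2,3),(2,3),(4,1),(6,3)]⟩,⟨0,[(34,0),(14,0)]⟩⟩,.o ⟨false,0,⟨0,[(28,0),(5,0),(4,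
  0)]⟩,⟨7,[(31,0),(0,0),(0,3),(10,1),(5,3)]⟩⟩]⟩) (.Q [0,0,0,0,0,0,0,0,1,1,0,-1] (.p false [0,0,0,1]
  [1] (⟨0,[(34,0)]⟩,⟨1,[(33,0),(8,0),(0,0)]⟩) .k 1 (⟨0,[]⟩,⟨0,[]⟩) .k .k) (.R ⟨2,false,false,false,
  [0,1],[0,0,0,1],[1,1,1],(⟨0,[]⟩,⟨0,[]⟩),(⟨0,[(35,0)]⟩,⟨1,[(34,0),(8,0),(0,0)]⟩),⟨0,[]⟩,.k,.k,.k,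
  (.r 0 ⟨2,[(7,0),(0,2),(6,0),(21,0),(10,0)]⟩ ⟨3,[(6,0),(18,0),(7,1)]⟩),.k,.k,⟨false,0,⟨0,[(8,0)]⟩,
  ⟨0,[(5,0)]⟩⟩,⟨true,0,⟨1,[(34,0),(2,0),(2,0)]⟩,⟨0,[(35,0)]⟩⟩,⟨true,0,⟨0,[(49,0)]⟩,⟨0,[(50,0)]⟩⟩,
  ⟨false,1,⟨13,[(1,3),(10,4),(4,5),(2,0),(12,4),(0,6),(2,0),(7,2)]⟩,⟨1,[(3,1),(0,0),(1,0),(0,1),(16,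
  0),(19,0),(2,1)]⟩⟩,⟨false,0,⟨0,[]⟩,⟨3,[(32,0),(0,0),(18,1)]⟩⟩,⟨false,1,⟨11,[(1,1),(3,1),(6,1),(20,
  3),(0,5),(10,2),(6,2)]⟩,⟨0,[(3,0),(0,0),(1,0),(0,0),(36,0),(2,1)]⟩⟩,[.a ⟨true,0,⟨0,[(0,0)]⟩,⟨0,
  [(3,0),(0,0),(1,0),(0,0),(36,0),(2,1)]⟩⟩ ⟨false,0,⟨0,[(54,0)]⟩,⟨1,[(51,0),(0,0)]⟩⟩ ⟨true,0,⟨3,[(1,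
  1),(0,1),(12,0),(6,0),(11,1),(2,0),(2,1)]⟩,⟨0,[(3,0),(0,0),(1,0),(0,0),(36,0),(2,1)]⟩⟩,.o ⟨false,
  1,⟨11,[(1,1),(3,1),(6,1),(20,3),(0,5),(10,2),(6,2)]⟩,⟨0,[(3,0)]⟩⟩,.o ⟨false,1,⟨3,[(32,0),(0,0),
  (17,1)]⟩,⟨0,[(29,0),(10,0)]⟩⟩,.e ⟨false,0,⟨0,[]⟩,⟨3,[(32,0),(0,0),(18,1)]⟩⟩ ⟨false,1,⟨11,[(1,1),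
  (3,1),(6,1),(20,3),(0,5),(10,2),(6,2)]⟩,⟨0,[(3,0),(0,0),(1,0),(0,0),(36,0),(2,1)]⟩⟩]⟩) (.K ⟨1,[1,
  0,0,-1],0,0,(⟨1,[(34,0),(8,0),(0,0)]⟩,⟨0,[(35,0)]⟩),.k,(.r (-1) ⟨3,[(6,0),(18,0),(6,1)]⟩ ⟨6,[(1,
  0),(0,5),(4,1),(7,2),(21,1),(2,0),(0,0)]⟩),(.r 0 ⟨2,[(7,0),(0,2),(6,0),(21,0),(10,0)]⟩ ⟨3,[(6,0),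
  (18,0),(7,1)]⟩),.k,.k,[⟨9,[(7,0),(7,1),(0,3),(17,4),(4,2),(0,2),(0,4)]⟩,⟨4,[(0,2),(0,0),(0,1),(9,
  0),(22,1),(1,1),(2,1)]⟩,⟨5,[(2,5),(4,0),(8,1),(7,1),(9,2),(4,0)]⟩,⟨0,[(0,0),(3,0),(1,0),(0,0),(36,
  0),(2,1)]⟩]⟩)))))) (.R ⟨1,false,false,true,[1,0,0,-1],[0,0,1],[1,1,0,-1,0,0,0,0,-1],(⟨1,[(29,0),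
  (8,0),(0,0)]⟩,⟨0,[(30,0)]⟩),(⟨0,[(39,0)]⟩,⟨0,[(38,0)]⟩),⟨3,[(5,0),(15,0),(7,1),(11,0)]⟩,.k,.k,(.r
  0 ⟨0,[(0,0),(3,0),(11,0)]⟩ ⟨3,[(2,1),(24,0),(0,2),(3,1),(1,1),(0,1)]⟩),.k,(.r (-1) ⟨4,[(0,0),(0,
  1),(2,0),(17,0),(4,1)]⟩ ⟨2,[(0,2),(1,1),(4,0),(8,0),(7,1),(3,2)]⟩),.k,⟨true,0,⟨1,[(0,1),(3,0),(7,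
  0)]⟩,⟨2,[(0,2),(1,1),(4,0),(8,0),(7,1),(3,2)]⟩⟩,⟨false,1,⟨23,[(9,15),(17,2),(0,2),(0,11),(5,7),(4,
  1)]⟩,⟨0,[(24,0),(5,0)]⟩⟩,⟨true,0,⟨0,[(44,0)]⟩,⟨0,[(45,0)]⟩⟩,⟨false,1,⟨3,[(2,1),(12,1),(11,0),(0,
  2),(0,1)]⟩,⟨2,[(0,2),(1,0),(1,2),(2,1),(8,1),(7,3),(5,2)]⟩⟩,⟨false,0,⟨0,[]⟩,⟨3,[(27,0),(0,0),(18,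
  1)]⟩⟩,⟨false,1,⟨3,[(2,1),(24,0),(0,2),(0,1),(3,1)]⟩,⟨0,[(0,0),(3,0),(2,0),(8,0),(7,0),(5,0)]⟩⟩,
  [.o ⟨false,0,⟨0,[(33,0)]⟩,⟨15,[(4,7),(21,3),(0,0),(0,0),(3,7),(7,1),(6,3)]⟩⟩,.a ⟨true,0,⟨2,[(2,0),
  (8,1),(37,0)]⟩,⟨0,[(19,0)]⟩⟩ ⟨false,0,⟨0,[(0,0),(3,0),(11,0)]⟩,⟨7,[(2,3),(24,0),(0,4),(5,3),(5,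
  1)]⟩⟩ ⟨true,0,⟨1,[(2,0),(12,0),(13,0)]⟩,⟨1,[(10,0),(6,0),(12,1),(1,0)]⟩⟩,.e ⟨false,0,⟨17,[(0,13),
  (3,0),(2,1),(4,6),(1,3),(12,1)]⟩,⟨55,[(2,23),(1,7),(5,7),(15,11),(0,2),(0,30),(11,5),(6,7)]⟩⟩
  ⟨false,0,⟨1,[(2,0),(12,0),(13,0)]⟩,⟨15,[(4,7),(21,3),(0,0),(0,0),(1,15),(1,7),(7,1),(6,3)]⟩⟩,.o
  ⟨false,0,⟨0,[(24,0),(5,0),(4,0)]⟩,⟨7,[(27,0),(0,0),(0,3),(10,1),(5,3)]⟩⟩]⟩))) (.I [1,-1,0,0,0,0,0,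
  0,-1] (.Q [0,0,0,0,0,-1,0,0,0,0,0,1] (.p true [0,0,0,1] [] (⟨0,[(29,0)]⟩,⟨1,[(28,0),(8,0),(0,
  0)]⟩) .k 0 (⟨0,[]⟩,⟨0,[]⟩) .k .k) (.I [1,0,-1,-1,0,0,0,1,-1] (.R ⟨1,false,false,true,[0,0,0,1],[0,
  -1,1],[0,1,0,0,0,0,0,0,1],(⟨0,[(31,0)]⟩,⟨1,[(30,0),(8,0),(0,0)]⟩),(⟨0,[(19,0)]⟩,⟨0,[(39,0),(3,
  0)]⟩),⟨0,[(1,0)]⟩,.k,.k,(.r (-1) ⟨3,[(3,0),(5,0),(5,0),(4,0),(8,1)]⟩ ⟨0,[(4,0),(6,0),(26,0)]⟩),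
  (.x (-1) ⟨7,[(7,3),(20,2),(0,2),(13,3),(3,1)]⟩ ⟨1,[(6,0),(29,1),(3,0)]⟩),.k,.k,⟨false,1,⟨1,[(11,
  0),(14,0),(2,0),(16,0),(3,0)]⟩,⟨0,[(0,0)]⟩⟩,⟨true,0,⟨0,[(31,0),(4,0)]⟩,⟨1,[(27,0),(2,0)]⟩⟩,⟨true,
  0,⟨0,[(50,0)]⟩,⟨0,[]⟩⟩,⟨false,0,⟨0,[(0,0),(30,0),(4,0)]⟩,⟨1,[(14,1),(14,0),(18,0)]⟩⟩,⟨false,0,⟨0,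
  [(46,0)]⟩,⟨5,[(8,0),(4,1),(2,0),(11,0),(0,0),(7,0),(10,1)]⟩⟩,⟨false,0,⟨0,[(2,0),(28,0),(2,0)]⟩,⟨5,
  [(5,1),(2,1),(18,2),(1,2),(0,2),(17,0)]⟩⟩,[.o ⟨false,0,⟨0,[(24,0)]⟩,⟨23,[(5,7),(5,7),(15,11),(0,
  2),(0,2),(11,5),(4,15),(1,3)]⟩⟩,.e ⟨false,1,⟨1,[(29,0),(17,0)]⟩,⟨1,[(2,0),(1,0)]⟩⟩ ⟨false,1,⟨19,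
  [(9,7),(6,3),(0,3),(10,2),(0,2),(1,19),(9,3),(6,1)]⟩,⟨0,[(14,0)]⟩⟩,.a ⟨true,0,⟨1,[(30,0),(8,0),(0,
  0)]⟩,⟨0,[(31,0)]⟩⟩ ⟨false,1,⟨3,[(28,0),(0,2)]⟩,⟨0,[(2,0)]⟩⟩ ⟨true,0,⟨1,[(16,0),(14,1),(2,0)]⟩,⟨0,
  [(14,0)]⟩⟩,.o ⟨false,0,⟨1,[(30,0),(2,0),(2,0)]⟩,⟨1,[(31,1),(9,0),(5,0)]⟩⟩]⟩) (.R ⟨1,false,false,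
  true,[1,0,0,-1],[1,-1],[0,1,0,0,0,0,0,0,-1],(⟨1,[(30,0),(8,0),(0,0)]⟩,⟨0,[(31,0)]⟩),(⟨0,[(42,0)]⟩,
  ⟨0,[(43,0)]⟩),⟨3,[(6,0),(15,0),(7,1),(11,0)]⟩,.k,.k,(.r (-1) ⟨21,[(2,1),(0,3),(1,0),(4,3),(2,0),
  (7,5),(6,9)]⟩ ⟨0,[(0,0),(37,0)]⟩),(.r 0 ⟨0,[(4,0),(6,0),(26,0)]⟩ ⟨3,[(3,0),(5,0),(5,0),(4,0),(8,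
  1)]⟩),.k,.k,⟨false,0,⟨1,[(2,0),(1,0),(41,1)]⟩,⟨3,[(3,0),(5,0),(5,0),(4,0),(8,1)]⟩⟩,⟨true,0,⟨1,
  [(30,0),(2,0),(2,0)]⟩,⟨0,[(31,0)]⟩⟩,⟨true,0,⟨0,[(50,0)]⟩,⟨0,[]⟩⟩,⟨false,1,⟨15,[(3,3),(12,3),(11,
  0),(0,8),(0,7),(10,1),(6,3)]⟩,⟨0,[(2,0),(28,0),(14,0)]⟩⟩,⟨false,0,⟨0,[(46,0)]⟩,⟨5,[(8,0),(4,1),(2,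
  0),(11,0),(0,0),(7,0),(10,1)]⟩⟩,⟨false,1,⟨7,[(28,0),(0,4),(0,3),(10,1)]⟩,⟨0,[(2,0),(28,0)]⟩⟩,[.e
  ⟨true,0,⟨0,[(2,0),(0,0),(2,0),(9,0),(5,0),(20,2),(2,3)]⟩,⟨0,[(0,0),(7,0),(8,0)]⟩⟩ ⟨true,0,⟨3,[(16,
  0),(1,1),(11,1),(3,0)]⟩,⟨0,[(11,0),(19,0),(6,0)]⟩⟩,.o ⟨false,1,⟨15,[(3,3),(12,3),(11,2),(0,2),(11,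
  5),(6,3)]⟩,⟨0,[(46,0)]⟩⟩,.a ⟨true,0,⟨0,[(31,0)]⟩,⟨1,[(30,0),(8,0),(0,0)]⟩⟩ ⟨false,0,⟨1,[(2,1),(0,
  0),(2,0),(9,0),(5,0),(20,2),(2,3)]⟩,⟨1,[(29,0),(18,0)]⟩⟩ ⟨true,0,⟨3,[(16,0),(1,1),(11,1),(3,0)]⟩,
  ⟨0,[(31,0),(14,0)]⟩⟩,.o ⟨false,0,⟨0,[(25,0),(5,0),(4,0)]⟩,⟨7,[(28,0),(0,0),(0,3),(10,1),(5,
  3)]⟩⟩]⟩)) (.I [0,1,-1,-1,0,0,0,0,-1] (.R ⟨0,false,false,true,[0,0,0,1],[0,-1,1],[0,1,0,0,0,0,0,0,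
  1],(⟨0,[(31,0)]⟩,⟨1,[(30,0),(8,0),(0,0)]⟩),(⟨0,[(19,0)]⟩,⟨0,[(39,0),(3,0)]⟩),⟨0,[(1,0)]⟩,.k,.k,
  (.r (-1) ⟨3,[(3,0),(5,0),(5,0),(4,0),(8,1)]⟩ ⟨0,[(4,0),(6,0),(26,0)]⟩),(.r (-1) ⟨3,[(11,3),(16,0),
  (0,2),(20,3)]⟩ ⟨1,[(0,0),(1,0),(14,0)]⟩),.k,.k,⟨false,1,⟨1,[(11,0),(14,0),(2,0),(16,0),(3,0)]⟩,⟨1,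
  [(0,0),(1,0),(14,0)]⟩⟩,⟨true,0,⟨0,[(31,0),(4,0)]⟩,⟨1,[(27,0),(2,0)]⟩⟩,⟨true,0,⟨0,[(50,0)]⟩,⟨0,
  []⟩⟩,⟨false,0,⟨1,[(2,1),(13,0),(14,1),(2,0)]⟩,⟨1,[(14,1),(14,0),(18,0)]⟩⟩,⟨false,0,⟨0,[]⟩,⟨0,[]⟩⟩,
  ⟨false,0,⟨0,[]⟩,⟨0,[]⟩⟩,[.o ⟨false,0,⟨0,[(24,0)]⟩,⟨23,[(5,7),(5,7),(15,11),(0,2),(0,2),(11,5),(4,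
  15),(1,3)]⟩⟩,.e ⟨false,1,⟨1,[(29,0),(17,0)]⟩,⟨1,[(2,0),(1,0)]⟩⟩ ⟨false,1,⟨19,[(9,7),(6,3),(0,3),
  (10,2),(0,2),(1,19),(9,3),(6,1)]⟩,⟨0,[(14,0)]⟩⟩,.a ⟨true,0,⟨1,[(30,0),(8,0),(0,0)]⟩,⟨0,[(31,0)]⟩⟩
  ⟨false,1,⟨3,[(28,0),(0,2)]⟩,⟨0,[(2,0)]⟩⟩ ⟨true,0,⟨1,[(16,0),(14,1),(2,0)]⟩,⟨0,[(14,0)]⟩⟩,.o
  ⟨false,0,⟨1,[(30,0),(2,0),(2,0)]⟩,⟨1,[(31,1),(9,0),(5,0)]⟩⟩]⟩) (.I [0,0,0,1,0,0,0,-1,-1] (.R ⟨0,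
  false,false,true,[0,0,0,1],[0,-1,1],[0,1,0,-1,0,0,0,0,1],(⟨0,[(32,0)]⟩,⟨1,[(31,0),(8,0),(0,0)]⟩),
  (⟨0,[(20,0)]⟩,⟨0,[(40,0),(3,0)]⟩),⟨0,[(2,0)]⟩,.k,.k,(.r (-1) ⟨3,[(4,0),(5,0),(5,0),(4,0),(8,1)]⟩
  ⟨0,[(5,0),(6,0),(26,0)]⟩),(.x (-1) ⟨7,[(8,3),(20,2),(0,2),(13,3),(3,1)]⟩ ⟨1,[(7,0),(29,1),(3,
  0)]⟩),.k,.k,⟨false,1,⟨11,[(6,3),(22,0),(0,6),(5,3),(0,3)]⟩,⟨0,[(0,0),(17,0)]⟩⟩,⟨true,0,⟨0,[(32,0),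
  (4,0)]⟩,⟨1,[(28,0),(2,0)]⟩⟩,⟨true,0,⟨0,[(46,0)]⟩,⟨0,[(47,0)]⟩⟩,⟨false,0,⟨1,[(3,1),(13,0),(14,1),
  (2,0)]⟩,⟨1,[(15,1),(14,0),(18,0)]⟩⟩,⟨false,0,⟨0,[]⟩,⟨0,[]⟩⟩,⟨false,0,⟨0,[]⟩,⟨0,[]⟩⟩,[.o ⟨false,0,
  ⟨0,[(25,0)]⟩,⟨3,[(1,1),(4,1),(21,1),(0,0),(12,0),(4,1)]⟩⟩,.e ⟨false,1,⟨3,[(4,0),(5,0),(5,0),(4,0),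
  (8,1)]⟩,⟨0,[(0,0),(38,0)]⟩⟩ ⟨false,1,⟨19,[(10,7),(6,3),(0,3),(10,2),(0,2),(1,19),(9,3),(6,1)]⟩,⟨0,
  [(15,0)]⟩⟩,.a ⟨true,0,⟨1,[(31,0),(8,0),(0,0)]⟩,⟨0,[(32,0)]⟩⟩ ⟨false,1,⟨11,[(9,0),(4,1),(2,2),(6,
  1),(4,0),(0,6),(7,2)]⟩,⟨0,[(3,0),(43,0)]⟩⟩ ⟨true,0,⟨1,[(17,0),(14,1),(2,0)]⟩,⟨0,[(15,0)]⟩⟩,.o
  ⟨false,0,⟨1,[(31,0),(2,0),(2,0)]⟩,⟨1,[(32,1),(9,0),(5,0)]⟩⟩]⟩) (.R ⟨1,false,false,true,[1,0,0,-1],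
  [1,-1],[0,1,0,0,0,0,0,0,-1],(⟨1,[(31,0),(8,0),(0,0)]⟩,⟨0,[(32,0)]⟩),(⟨0,[(43,0)]⟩,⟨0,[(44,0)]⟩),
  ⟨3,[(7,0),(15,0),(7,1),(11,0)]⟩,.k,.k,(.r (-1) ⟨21,[(3,1),(0,3),(1,0),(4,3),(2,0),(7,5),(6,9)]⟩
  ⟨0,[(1,0),(49,0)]⟩),(.r 0 ⟨0,[(5,0),(6,0),(26,0)]⟩ ⟨6,[(0,0),(3,0),(1,0),(4,0),(10,1),(7,2)]⟩),.k,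
  .k,⟨false,0,⟨1,[(3,0),(1,0),(41,1)]⟩,⟨6,[(0,0),(3,0),(1,0),(4,0),(10,1),(7,2)]⟩⟩,⟨true,0,⟨1,[(31,
  0),(2,0),(2,0)]⟩,⟨0,[(32,0)]⟩⟩,⟨true,0,⟨0,[(51,0)]⟩,⟨0,[]⟩⟩,⟨false,1,⟨15,[(4,3),(12,3),(11,0),(0,
  8),(0,7),(10,1),(6,3)]⟩,⟨0,[(3,0),(28,0),(14,0)]⟩⟩,⟨false,0,⟨0,[(47,0)]⟩,⟨5,[(9,0),(4,1),(2,0),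
  (11,0),(0,0),(7,0),(10,1)]⟩⟩,⟨false,1,⟨7,[(29,0),(0,4),(0,3),(10,1)]⟩,⟨0,[(3,0),(28,0)]⟩⟩,[.e
  ⟨true,0,⟨0,[(3,0),(0,0),(2,0),(9,0),(5,0),(20,2),(2,3)]⟩,⟨1,[(0,0),(0,0),(7,0)]⟩⟩ ⟨true,0,⟨3,[(17,
  0),(1,1),(11,1),(3,0)]⟩,⟨0,[(12,0),(19,0),(6,0)]⟩⟩,.o ⟨false,1,⟨15,[(4,3),(12,3),(11,2),(0,2),(11,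
  5),(6,3)]⟩,⟨0,[(47,0)]⟩⟩,.a ⟨true,0,⟨0,[(32,0)]⟩,⟨1,[(31,0),(8,0),(0,0)]⟩⟩ ⟨false,0,⟨1,[(3,1),(0,
  0),(2,0),(9,0),(5,0),(20,2),(2,3)]⟩,⟨1,[(30,0),(18,0)]⟩⟩ ⟨true,0,⟨3,[(17,0),(1,1),(11,1),(3,0)]⟩,
  ⟨0,[(32,0),(14,0)]⟩⟩,.o ⟨false,0,⟨0,[(26,0),(5,0),(4,0)]⟩,⟨7,[(29,0),(0,0),(0,3),(10,1),(5,
  3)]⟩⟩]⟩)))) (.I [0,0,0,0,0,0,0,0,-1] (.R ⟨1,false,false,false,[1,0,0,-1],[1,-1],[0,0,0,0,0,0,0,0,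
  -1],(⟨1,[(29,0),(8,0),(0,0)]⟩,⟨0,[(30,0)]⟩),(⟨0,[(41,0)]⟩,⟨0,[(42,0)]⟩),⟨3,[(5,0),(15,0),(7,1),
  (11,0)]⟩,.k,.k,(.r (-1) ⟨13,[(0,1),(1,1),(1,0),(4,1),(2,0),(7,3),(6,5)]⟩ ⟨0,[(1,0),(8,0),(26,
  0)]⟩),(.r 0 ⟨0,[(3,0),(6,0),(26,0)]⟩ ⟨5,[(1,1),(2,0),(7,0),(7,1),(7,1)]⟩),.k,.k,⟨false,0,⟨0,[(0,
  0),(44,0)]⟩,⟨5,[(1,1),(2,0),(7,0),(7,1),(7,1)]⟩⟩,⟨true,0,⟨1,[(29,0),(2,0),(2,0)]⟩,⟨0,[(30,0)]⟩⟩,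
  ⟨false,1,⟨3,[(27,0),(0,0),(18,1)]⟩,⟨0,[]⟩⟩,⟨false,1,⟨9,[(2,0),(4,8),(6,2),(0,0),(0,2),(11,4),(0,
  4),(10,1)]⟩,⟨0,[(0,0),(29,0),(14,0)]⟩⟩,⟨true,0,⟨0,[(45,0)]⟩,⟨0,[(44,0)]⟩⟩,⟨false,1,⟨3,[(7,0),(2,
  1),(3,0),(1,0),(11,1),(0,1),(10,0)]⟩,⟨0,[(0,0),(29,0)]⟩⟩,[.o ⟨false,1,⟨15,[(2,3),(12,3),(11,2),(0,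
  2),(11,5),(6,3)]⟩,⟨0,[(45,0)]⟩⟩,.o ⟨false,1,⟨1,[(12,0),(27,0),(2,0)]⟩,⟨0,[(45,0),(3,0)]⟩⟩,.a
  ⟨true,0,⟨0,[(30,0)]⟩,⟨1,[(29,0),(8,0),(0,0)]⟩⟩ ⟨true,0,⟨0,[(0,0)]⟩,⟨0,[(1,0)]⟩⟩ ⟨false,1,⟨15,[(2,
  3),(12,3),(11,0),(0,0),(0,7),(10,1),(6,11)]⟩,⟨0,[(30,0),(14,0)]⟩⟩,.o ⟨false,0,⟨0,[(24,0),(5,0),(4,
  0)]⟩,⟨7,[(27,0),(0,0),(0,3),(10,1),(5,3)]⟩⟩]⟩) (.Q [0,-1,0,0,0,0,0,0,1,1,0,-1] (.p false [0,0,0,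
  1] [1] (⟨0,[(30,0)]⟩,⟨1,[(29,0),(8,0),(0,0)]⟩) .k 1 (⟨0,[]⟩,⟨0,[]⟩) .k .k) (.K ⟨1,[0,0,0,1],0,0,
  (⟨0,[(31,0)]⟩,⟨1,[(30,0),(8,0),(0,0)]⟩),.k,(.r (-1) ⟨13,[(1,1),(1,1),(1,0),(4,1),(2,0),(7,3),(7,
  5)]⟩ ⟨0,[(4,0),(6,0),(26,0)]⟩),(.r 0 ⟨1,[(1,1),(34,0),(0,0),(8,1)]⟩ ⟨5,[(4,1),(0,0),(7,0),(7,1),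
  (6,1)]⟩),.k,.k,[⟨1,[(31,1),(4,0),(0,0)]⟩,⟨1,[(30,0),(2,0),(2,0)]⟩,⟨0,[(4,0),(26,0)]⟩,⟨0,[(0,
  0)]⟩]⟩) (.Q [0,0,0,0,0,0,0,0,-1,0,0,1] (.p true [0,0,0,1] [] (⟨0,[(31,0)]⟩,⟨1,[(30,0),(8,0),(0,
  0)]⟩) .k 0 (⟨0,[]⟩,⟨0,[]⟩) .k .k) (.R ⟨2,false,false,false,[0,1],[0,0,0,1],[1,1,1],(⟨0,[]⟩,⟨0,
  []⟩),(⟨0,[(32,0)]⟩,⟨1,[(31,0),(8,0),(0,0)]⟩),⟨0,[]⟩,.k,.k,.k,(.r 0 ⟨0,[(5,0),(6,0),(26,0)]⟩ ⟨13,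
  [(2,1),(1,1),(1,0),(4,1),(2,0),(7,3),(7,5)]⟩),.k,.k,⟨false,0,⟨0,[(5,0)]⟩,⟨4,[(2,2),(3,0),(9,1),
  (13,0),(16,1),(1,0)]⟩⟩,⟨true,0,⟨1,[(31,0),(2,0),(2,0)]⟩,⟨0,[(32,0)]⟩⟩,⟨true,0,⟨0,[(46,0)]⟩,⟨0,
  [(47,0)]⟩⟩,⟨false,1,⟨3,[(2,1),(11,1),(15,0),(0,1),(10,0),(2,1)]⟩,⟨0,[(0,0),(46,0)]⟩⟩,⟨false,0,⟨0,
  []⟩,⟨3,[(29,0),(0,0),(18,1)]⟩⟩,⟨false,1,⟨3,[(2,1),(27,0),(0,1),(10,0),(6,1)]⟩,⟨0,[(0,0)]⟩⟩,[.a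
  ⟨true,0,⟨1,[(2,1),(28,0),(8,0),(0,0)]⟩,⟨0,[(0,0)]⟩⟩ ⟨false,0,⟨0,[(51,0)]⟩,⟨1,[(48,0),(0,0)]⟩⟩
  ⟨true,0,⟨1,[(2,1),(28,0),(2,0),(2,0)]⟩,⟨0,[(0,0)]⟩⟩,.o ⟨false,1,⟨3,[(2,1),(27,0),(0,1),(10,0),(6,
  1)]⟩,⟨0,[(1,0)]⟩⟩,.o ⟨false,1,⟨3,[(29,0),(0,0),(17,1)]⟩,⟨0,[(26,0),(10,0)]⟩⟩,.e ⟨false,0,⟨0,[]⟩,
  ⟨3,[(29,0),(0,0),(18,1)]⟩⟩ ⟨false,1,⟨3,[(2,1),(27,0),(0,1),(10,0),(6,1)]⟩,⟨0,[(0,0)]⟩⟩]⟩) (.R ⟨1,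
  false,false,true,[1,0,0,-1],[0,0,0,1],[0,1,0,0,0,0,0,0,-1],(⟨1,[(31,0),(8,0),(0,0)]⟩,⟨0,[(32,
  0)]⟩),(⟨0,[(32,0)]⟩,⟨1,[(31,0),(8,0),(0,0)]⟩),⟨3,[(7,0),(15,0),(7,1),(11,0)]⟩,.k,.k,(.r (-1) ⟨5,
  [(5,1),(0,0),(7,0),(7,1),(6,1)]⟩ ⟨1,[(2,1),(34,0),(0,0),(8,1)]⟩),.k,(.r (-1) ⟨0,[(5,1),(3,0),(6,
  0)]⟩ ⟨1,[(2,3),(34,0),(0,0),(8,1)]⟩),.k,⟨false,1,⟨0,[(5,1),(6,0),(3,0)]⟩,⟨0,[(2,1)]⟩⟩,⟨true,0,⟨0,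
  [(31,0)]⟩,⟨0,[(26,0),(5,1),(4,0)]⟩⟩,⟨true,0,⟨0,[(51,0)]⟩,⟨0,[]⟩⟩,⟨false,0,⟨0,[(2,1),(28,0)]⟩,⟨1,
  [(1,1),(7,0),(2,1),(3,0),(1,0),(10,0),(2,1)]⟩⟩,⟨false,0,⟨0,[(47,0)]⟩,⟨5,[(9,0),(4,1),(2,0),(11,0),
  (0,0),(7,0),(10,1)]⟩⟩,⟨false,0,⟨0,[(2,1),(28,0),(15,0)]⟩,⟨1,[(1,1),(7,2),(6,0),(1,0),(10,0),(2,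
  1)]⟩⟩,[.o ⟨false,0,⟨3,[(0,1),(2,1),(27,0),(1,0),(1,0)]⟩,⟨0,[(1,0),(47,0)]⟩⟩,.o ⟨false,0,⟨0,[(0,
  0)]⟩,⟨3,[(1,3),(27,0),(0,0),(18,1)]⟩⟩,.a ⟨true,0,⟨0,[(32,0)]⟩,⟨1,[(31,0),(8,0),(0,0)]⟩⟩ ⟨true,0,
  ⟨1,[(1,1),(5,0),(15,0),(7,0),(12,2)]⟩,⟨0,[(2,0)]⟩⟩ ⟨false,0,⟨0,[(2,0),(28,0)]⟩,⟨0,[(1,0),(30,0),
  (16,0)]⟩⟩,.o ⟨false,0,⟨0,[(26,0),(5,0),(4,0)]⟩,⟨7,[(29,0),(0,0),(0,3),(10,1),(5,3)]⟩⟩]⟩)))))) (.Q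
  [0,0,0,-1,0,0,1,1,0,1,-1,-1] (.p false [0,0,1] [1,0,0,-1] (⟨0,[(36,0)]⟩,⟨0,[(35,0)]⟩) .k 2 (⟨1,
  [(26,0),(8,0),(0,0)]⟩,⟨0,[(27,0)]⟩) .k (.r 0 ⟨0,[(0,0),(33,0),(11,0)]⟩ ⟨11,[(1,3),(22,6),(0,0),(5,
  3),(0,3)]⟩)) (.I [0,0,-1,0,0,0,0,1,1] (.R ⟨1,false,false,true,[1,0,0,-1],[0,-1,1],[1,1,0,-1,0,0,0,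
  0,-1],(⟨1,[(28,0),(8,0),(0,0)]⟩,⟨0,[(29,0)]⟩),(⟨0,[(17,0)]⟩,⟨0,[(37,0),(3,0)]⟩),⟨3,[(4,0),(15,0),
  (7,1),(11,0)]⟩,.k,.k,(.r (-1) ⟨7,[(3,1),(3,0),(6,0),(0,1),(0,0),(1,1),(0,0),(6,3)]⟩ ⟨1,[(2,1),(31,
  0),(0,0),(8,1),(3,1)]⟩),(.x (-1) ⟨7,[(5,3),(20,2),(0,2),(13,3),(3,1)]⟩ ⟨1,[(4,0),(29,1),(3,0)]⟩),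
  .k,.k,⟨false,1,⟨11,[(3,3),(22,6),(0,0),(5,3),(0,3)]⟩,⟨0,[(0,0)]⟩⟩,⟨true,0,⟨1,[(28,0),(5,1),(2,0),
  (0,0)]⟩,⟨0,[(23,0),(5,0)]⟩⟩,⟨true,0,⟨0,[(43,0)]⟩,⟨0,[(44,0)]⟩⟩,⟨false,0,⟨0,[(1,0),(0,0),(45,0)]⟩,
  ⟨5,[(3,1),(5,1),(13,5),(2,2),(2,5),(14,3),(1,0)]⟩⟩,⟨false,0,⟨0,[]⟩,⟨3,[(26,0),(0,0),(18,1)]⟩⟩,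
  ⟨false,0,⟨1,[(0,1),(27,0),(5,1),(2,0),(0,0)]⟩,⟨5,[(3,1),(2,1),(16,5),(2,2),(2,5),(16,0)]⟩⟩,[.o
  ⟨false,0,⟨0,[(22,0)]⟩,⟨23,[(3,7),(5,7),(15,11),(0,2),(0,2),(11,5),(4,15),(1,3)]⟩⟩,.a ⟨true,0,⟨0,
  [(10,0)]⟩,⟨0,[(18,0),(25,0)]⟩⟩ ⟨false,1,⟨7,[(3,1),(3,0),(6,0),(0,1),(0,0),(1,1),(0,0),(6,3)]⟩,⟨0,
  [(2,0),(41,0),(3,0)]⟩⟩ ⟨true,0,⟨0,[(1,0)]⟩,⟨1,[(9,0),(19,1),(0,0),(0,0),(12,0)]⟩⟩,.e ⟨false,1,⟨11,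
  [(6,0),(4,1),(2,2),(6,1),(4,6),(0,0),(7,2)]⟩,⟨0,[(2,0),(41,0)]⟩⟩ ⟨false,0,⟨0,[(1,0)]⟩,⟨23,[(3,7),
  (5,7),(15,11),(0,2),(0,2),(1,23),(9,5),(4,15),(1,3)]⟩⟩,.o ⟨false,0,⟨0,[(23,0),(5,0),(4,0)]⟩,⟨7,
  [(26,0),(0,0),(0,3),(10,1),(5,3)]⟩⟩]⟩) (.I [0,1,-1,0,0,0,0,1,1] (.R ⟨1,false,false,true,[1,0,0,
  -1],[0,-1,1],[1,0,0,-1,0,0,0,0,-1],(⟨1,[(29,0),(8,0),(0,0)]⟩,⟨0,[(30,0)]⟩),(⟨0,[(18,0)]⟩,⟨0,[(38,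
  0),(3,0)]⟩),⟨3,[(5,0),(15,0),(7,1),(11,0)]⟩,.k,.k,(.r (-1) ⟨5,[(1,1),(7,0),(4,0),(2,0),(2,1),(6,
  1)]⟩ ⟨1,[(0,1),(9,1),(24,0),(0,0)]⟩),(.r 0 ⟨0,[(1,0),(43,0)]⟩ ⟨11,[(16,3),(3,3),(6,0),(0,6)]⟩),.k,
  .k,⟨false,1,⟨5,[(4,1),(2,1),(19,2),(19,0)]⟩,⟨0,[(0,0)]⟩⟩,⟨true,0,⟨1,[(29,0),(5,1),(2,0),(0,0)]⟩,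
  ⟨0,[(24,0),(5,0)]⟩⟩,⟨false,1,⟨5,[(7,0),(4,1),(2,0),(11,0),(0,0),(7,0),(10,1)]⟩,⟨0,[(45,0)]⟩⟩,
  ⟨false,0,⟨2,[(0,0),(1,2),(0,1),(30,0),(0,0)]⟩,⟨5,[(4,1),(5,1),(13,5),(2,2),(2,5),(14,3),(1,0)]⟩⟩,
  ⟨true,0,⟨0,[]⟩,⟨0,[(49,0)]⟩⟩,⟨false,0,⟨0,[(0,0),(1,0),(7,0)]⟩,⟨5,[(4,1),(2,1),(16,5),(2,2),(2,5),
  (16,0)]⟩⟩,[.o ⟨false,0,⟨0,[(23,0)]⟩,⟨23,[(4,7),(5,7),(15,11),(0,2),(0,2),(11,5),(4,15),(1,3)]⟩⟩,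
  .a ⟨true,0,⟨0,[(11,0)]⟩,⟨0,[(19,0),(25,0)]⟩⟩ ⟨false,1,⟨0,[(1,0),(12,0)]⟩,⟨0,[(0,0),(9,0),(38,
  0)]⟩⟩ ⟨true,0,⟨0,[(2,0)]⟩,⟨1,[(10,0),(19,1),(0,0),(0,0),(12,0)]⟩⟩,.e ⟨false,1,⟨1,[(12,0),(14,0),
  (15,0)]⟩,⟨0,[(0,0),(9,0)]⟩⟩ ⟨false,0,⟨0,[(2,0)]⟩,⟨23,[(4,7),(5,7),(15,11),(0,2),(0,2),(1,23),(9,
  5),(4,15),(1,3)]⟩⟩,.o ⟨false,0,⟨0,[(24,0),(5,0),(4,0)]⟩,⟨7,[(27,0),(0,0),(0,3),(10,1),(5,3)]⟩⟩]⟩)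
  (.Q [0,0,2,0,-1,0,-1,0,0,0,1] (.p true [0,0,1] [] (⟨0,[(39,0)]⟩,⟨0,[(38,0)]⟩) .k 0 (⟨0,[]⟩,⟨0,
  []⟩) .k .k) (.I [0,0,2,2,-1,0,0,1] (.K ⟨0,[0,1,1],1,0,(⟨0,[(41,0),(2,0)]⟩,⟨0,[(23,0)]⟩),.k,.k,(.r
  1 ⟨0,[(0,0)]⟩ ⟨5,[(22,1),(1,7),(4,0),(0,0)]⟩),.k,.k,[⟨0,[(1,0)]⟩,⟨0,[(11,0)]⟩,⟨0,[(21,0),(24,0)]⟩,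
  ⟨0,[(35,0),(11,0)]⟩]⟩) (.R ⟨1,false,false,true,[1,0,0,-1],[0,1,1],[0,1,0,0,0,0,0,0,-1],(⟨1,[(1,0),
  (9,0),(19,0)]⟩,⟨0,[(32,0)]⟩),(⟨0,[(41,0),(2,0)]⟩,⟨0,[(23,0)]⟩),⟨3,[(7,0),(15,0),(7,1),(11,0)]⟩,.k,
  .k,(.r (-1) ⟨3,[(0,0),(21,0),(6,1)]⟩ ⟨2,[(1,0),(3,0),(24,0),(6,0),(9,2),(3,0)]⟩),(.r (-1) ⟨5,[(0,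
  2),(1,0),(0,0),(7,0),(17,1),(3,0)]⟩ ⟨4,[(1,1),(3,0),(24,1),(4,0),(1,0),(1,3),(7,4)]⟩),(.r (-2) ⟨3,
  [(0,0),(21,0),(1,3),(4,1)]⟩ ⟨0,[(1,0),(3,0),(29,0),(11,1)]⟩),.k,⟨true,1,⟨5,[(0,2),(1,0),(0,0),(7,
  0),(17,1),(3,0)]⟩,⟨0,[(1,0),(3,0),(29,0),(11,0)]⟩⟩,⟨false,1,⟨0,[(10,0),(4,0)]⟩,⟨0,[(32,0),(1,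
  0)]⟩⟩,⟨true,0,⟨0,[(51,0)]⟩,⟨0,[]⟩⟩,⟨false,0,⟨1,[(1,0),(3,1),(5,0),(19,0),(3,1),(11,1)]⟩,⟨13,[(2,
  7),(3,1),(7,5),(4,1),(8,5),(0,2),(2,13),(9,2)]⟩⟩,⟨false,0,⟨0,[(47,0)]⟩,⟨23,[(1,3),(12,11),(14,4),
  (0,4),(6,3),(11,5)]⟩⟩,⟨false,0,⟨1,[(1,0),(3,1),(5,0),(19,0),(3,1),(11,3)]⟩,⟨4,[(2,2),(11,3),(4,1),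
  (6,1),(2,0),(2,4),(1,0)]⟩⟩,[.o ⟨false,0,⟨0,[(35,0),(11,0)]⟩,⟨1,[(6,0),(7,0),(19,1)]⟩⟩,.a ⟨true,0,
  ⟨0,[(13,0),(33,1)]⟩,⟨1,[(0,0),(0,0),(19,0)]⟩⟩ ⟨false,1,⟨1,[(29,0),(18,0)]⟩,⟨0,[(5,0),(45,0)]⟩⟩
  ⟨true,0,⟨0,[(4,0),(42,1)]⟩,⟨4,[(1,1),(7,1),(4,0),(4,2),(12,4),(9,0)]⟩⟩,.e ⟨false,1,⟨3,[(29,2),(0,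
  0)]⟩,⟨0,[(5,0)]⟩⟩ ⟨false,0,⟨0,[(4,0),(42,1)]⟩,⟨1,[(6,0),(7,0),(17,1),(1,1)]⟩⟩,.o ⟨false,0,⟨0,[(26,
  0),(5,0),(4,0)]⟩,⟨7,[(29,0),(0,0),(0,3),(10,1),(5,3)]⟩⟩]⟩)) (.Q [0,-1,0,2,0,0,1,1,0,1,-1] (.p
  false [0,0,1] [1] (⟨0,[(40,0)]⟩,⟨0,[(39,0)]⟩) .k 1 (⟨0,[]⟩,⟨0,[]⟩) .k .k) (.R ⟨1,false,false,
  false,[1,-1],[0,0,1],[0,0,1],(⟨0,[(43,0)]⟩,⟨0,[(44,0)]⟩),(⟨0,[(41,0)]⟩,⟨0,[(40,0)]⟩),⟨1,[(7,0),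
  (15,0),(19,0)]⟩,.k,.k,(.r (-1) ⟨3,[(6,1),(3,0),(6,0),(0,1),(0,0),(1,1),(0,0)]⟩ ⟨0,[(0,0),(33,0),
  (1,0),(0,0)]⟩),.k,(.x 0 ⟨5,[(7,1),(15,7),(10,7),(2,2),(0,0)]⟩ ⟨0,[(1,0),(39,0),(2,1)]⟩),.k,⟨true,
  0,⟨1,[(9,0),(26,0),(0,0)]⟩,⟨0,[(39,0)]⟩⟩,⟨false,1,⟨0,[(11,0)]⟩,⟨0,[(34,0)]⟩⟩,⟨false,0,⟨5,[(0,1),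
  (11,1),(21,1),(2,2),(0,2),(6,1)]⟩,⟨1,[(11,0),(4,0),(2,0)]⟩⟩,⟨true,0,⟨2,[(0,1),(12,0),(37,1)]⟩,⟨0,
  [(19,0)]⟩⟩,⟨false,0,⟨3,[(0,2),(11,1),(21,2),(1,0),(0,1),(0,0)]⟩,⟨3,[(6,1),(3,0),(6,0),(0,1),(0,0),
  (1,1),(0,0)]⟩⟩,⟨false,0,⟨0,[(0,0)]⟩,⟨11,[(3,3),(10,7),(4,7),(9,0),(0,2),(3,3)]⟩⟩,[.a ⟨true,0,⟨2,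
  [(0,0),(12,1),(37,0)]⟩,⟨0,[(21,0)]⟩⟩ ⟨true,0,⟨1,[(37,0),(0,0)]⟩,⟨0,[]⟩⟩ ⟨false,1,⟨9,[(0,1),(10,7),
  (6,3),(10,0),(0,0),(20,1)]⟩,⟨1,[(12,0),(6,0),(14,0)]⟩⟩,.o ⟨false,1,⟨7,[(0,3),(16,3),(11,0),(0,0),
  (11,1),(6,3)]⟩,⟨0,[(33,0)]⟩⟩,.o ⟨false,0,⟨0,[(26,0),(10,0)]⟩,⟨3,[(29,0),(0,0),(17,1)]⟩⟩,.o ⟨false,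
  0,⟨0,[(34,0),(2,0)]⟩,⟨0,[(48,0)]⟩⟩]⟩) (.Q [0,1,0,0,0,0,0,0,-1,0,0,1] (.p true [0,0,0,1] [] (⟨0,
  [(32,0)]⟩,⟨1,[(31,0),(8,0),(0,0)]⟩) .k 0 (⟨0,[]⟩,⟨0,[]⟩) .k .k) (.K ⟨1,[0,0,0,1],0,0,(⟨0,[(33,
  0)]⟩,⟨1,[(32,0),(8,0),(0,0)]⟩),.k,(.r (-1) ⟨21,[(1,3),(4,1),(0,0),(4,3),(2,0),(7,5),(7,9)]⟩ ⟨0,
  [(4,0),(35,0),(7,0)]⟩),(.r 0 ⟨1,[(6,1),(31,0),(0,0),(8,1),(3,1)]⟩ ⟨8,[(1,1),(1,0),(8,1),(4,0),(5,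
  1),(6,3)]⟩),.k,.k,[⟨1,[(33,1),(4,0),(0,0)]⟩,⟨1,[(32,0),(2,0),(2,0)]⟩,⟨0,[(0,0)]⟩,⟨1,[(6,1),(25,0),
  (8,0),(0,0)]⟩]⟩) (.Q [0,1,0,1,0,0,0,0,-1,0,0,1] (.p true [0,0,0,1] [] (⟨0,[(33,0)]⟩,⟨1,[(32,0),(8,
  0),(0,0)]⟩) .k 0 (⟨0,[]⟩,⟨0,[]⟩) .k .k) (.R ⟨1,false,false,false,[1,0,0,-1],[1,-1],[0,1],(⟨1,[(33,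
  0),(8,0),(0,0)]⟩,⟨0,[(34,0)]⟩),(⟨0,[(45,0)]⟩,⟨0,[(46,0)]⟩),⟨3,[(9,0),(15,0),(7,1),(11,0)]⟩,.k,.k,
  (.r (-1) ⟨8,[(2,1),(1,0),(8,1),(4,0),(5,1),(6,3)]⟩ ⟨1,[(7,1),(31,0),(0,0),(8,1),(3,1)]⟩),(.r 0 ⟨3,
  [(0,1),(3,1),(28,0),(2,0),(2,0),(1,1),(7,1)]⟩ ⟨21,[(2,3),(4,1),(0,0),(4,3),(2,0),(7,5),(7,9)]⟩),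
  .k,.k,⟨false,0,⟨0,[(49,0),(3,0)]⟩,⟨15,[(8,1),(7,5),(1,3),(12,0),(0,0),(18,1)]⟩⟩,⟨true,0,⟨1,[(33,
  0),(2,0),(2,0)]⟩,⟨0,[(34,0)]⟩⟩,⟨false,0,⟨0,[(7,0),(45,0)]⟩,⟨1,[(31,0),(19,0)]⟩⟩,⟨true,0,⟨0,[(1,0),
  (46,0)]⟩,⟨0,[(0,0)]⟩⟩,⟨false,0,⟨0,[(7,0),(41,0),(3,0)]⟩,⟨1,[(16,0),(14,0),(15,0)]⟩⟩,⟨false,0,⟨0,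
  [(1,0)]⟩,⟨3,[(31,2),(0,0),(1,3)]⟩⟩,[.o ⟨false,1,⟨9,[(2,0),(8,0),(4,1),(2,1),(11,1),(0,1),(3,0),(7,
  3)]⟩,⟨0,[(49,0)]⟩⟩,.o ⟨false,1,⟨1,[(16,0),(27,0),(2,0)]⟩,⟨0,[(49,0),(3,0)]⟩⟩,.a ⟨true,0,⟨0,[(34,
  0)]⟩,⟨1,[(33,0),(8,0),(0,0)]⟩⟩ ⟨true,0,⟨0,[(53,0)]⟩,⟨0,[]⟩⟩ ⟨false,1,⟨15,[(16,7),(14,0),(0,0),(0,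
  7),(2,3),(2,3),(4,1),(6,3)]⟩,⟨0,[(34,0),(14,0)]⟩⟩,.o ⟨false,0,⟨0,[(28,0),(5,0),(4,0)]⟩,⟨7,[(31,0),
  (0,0),(0,3),(10,1),(5,3)]⟩⟩]⟩) (.Q [0,1,0,-1,0,0,0,0,0,-1] (.pp true [-1,1]) (.Q [0,0,0,0,0,1,0,0,
  0,0,0,-1] (.p false [0,0,0,1] [] (⟨0,[(35,0)]⟩,⟨1,[(34,0),(8,0),(0,0)]⟩) .k 0 (⟨0,[]⟩,⟨0,[]⟩) .k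
  .k) (.R ⟨0,false,false,true,[0,0,0,1],[1,-1],[1,0,0,0,0,0,0,0,1],(⟨0,[(36,0)]⟩,⟨1,[(35,0),(8,0),
  (0,0)]⟩),(⟨0,[(47,0)]⟩,⟨0,[(48,0)]⟩),⟨0,[(0,0)]⟩,.k,.k,(.r (-1) ⟨21,[(4,3),(4,1),(0,0),(4,3),(2,
  0),(7,5),(7,9)]⟩ ⟨0,[(7,0),(35,0),(7,0)]⟩),(.r 0 ⟨1,[(9,1),(31,0),(0,0),(8,1),(3,1)]⟩ ⟨8,[(4,1),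
  (1,0),(8,1),(4,0),(5,1),(6,3)]⟩),.k,.k,⟨false,0,⟨0,[(9,0),(41,0)]⟩,⟨3,[(5,0),(20,0),(6,1),(6,0),
  (9,1),(4,0)]⟩⟩,⟨true,0,⟨0,[(30,0),(5,0),(4,0)]⟩,⟨1,[(35,0),(8,0),(0,0)]⟩⟩,⟨true,0,⟨0,[]⟩,⟨0,[(55,
  0)]⟩⟩,⟨false,1,⟨95,[(4,11),(1,13),(11,15),(2,17),(0,3),(10,40),(2,95),(1,5),(7,38)]⟩,⟨1,[(9,1),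
  (25,0),(8,0),(0,0),(5,1)]⟩⟩,⟨false,0,⟨0,[]⟩,⟨0,[]⟩⟩,⟨false,0,⟨0,[]⟩,⟨0,[]⟩⟩,[.o ⟨false,0,⟨0,[(1,
  0)]⟩,⟨3,[(33,0),(0,0),(16,3),(1,1)]⟩⟩,.o ⟨false,1,⟨9,[(4,0),(8,0),(4,1),(2,1),(11,1),(0,1),(3,0),
  (7,3)]⟩,⟨0,[(51,0)]⟩⟩,.a ⟨true,0,⟨1,[(35,0),(8,0),(0,0)]⟩,⟨0,[(36,0)]⟩⟩ ⟨false,0,⟨0,[(9,0)]⟩,⟨3,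
  [(33,2),(0,0)]⟩⟩ ⟨true,0,⟨0,[(1,0),(34,0)]⟩,⟨1,[(35,0),(8,0),(0,0),(5,1)]⟩⟩,.o ⟨false,0,⟨1,[(35,
  0),(2,0),(2,0)]⟩,⟨1,[(36,1),(9,0),(5,0)]⟩⟩]⟩) (.R ⟨1,false,false,true,[0,0,0,1],[1,-1],[0,0,0,0,0,
  0,0,0,1],(⟨0,[(36,0)]⟩,⟨1,[(35,0),(8,0),(0,0)]⟩),(⟨0,[(47,0)]⟩,⟨0,[(48,0)]⟩),⟨0,[(0,0)]⟩,.k,.k,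
  (.r (-1) ⟨21,[(4,3),(4,1),(0,0),(4,3),(2,0),(7,5),(7,9)]⟩ ⟨0,[(7,0),(35,0),(7,0)]⟩),(.r 0 ⟨1,[(9,
  1),(31,0),(0,0),(8,1),(3,1)]⟩ ⟨8,[(4,1),(1,0),(8,1),(4,0),(5,1),(6,3)]⟩),.k,.k,⟨false,0,⟨0,[(9,0),
  (41,0)]⟩,⟨3,[(5,0),(20,0),(6,1),(6,0),(9,1),(4,0)]⟩⟩,⟨true,0,⟨0,[(30,0),(5,0),(4,0)]⟩,⟨1,[(35,0),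
  (8,0),(0,0)]⟩⟩,⟨false,1,⟨3,[(33,0),(0,0),(18,1)]⟩,⟨0,[]⟩⟩,⟨false,1,⟨95,[(4,11),(1,13),(11,15),(2,
  17),(0,3),(10,40),(2,95),(1,5),(7,38)]⟩,⟨1,[(9,1),(25,0),(8,0),(0,0),(5,1)]⟩⟩,⟨true,0,⟨0,[(51,
  0)]⟩,⟨0,[(50,0)]⟩⟩,⟨false,1,⟨1,[(33,0),(2,1),(9,0)]⟩,⟨1,[(9,1),(25,0),(8,0),(0,0)]⟩⟩,[.o ⟨false,0,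
  ⟨0,[(1,0)]⟩,⟨3,[(33,0),(0,0),(16,3),(1,1)]⟩⟩,.o ⟨false,1,⟨9,[(4,0),(8,0),(4,1),(2,1),(11,1),(0,1),
  (3,0),(7,3)]⟩,⟨0,[(51,0)]⟩⟩,.a ⟨true,0,⟨1,[(35,0),(8,0),(0,0)]⟩,⟨0,[(36,0)]⟩⟩ ⟨false,0,⟨0,[(9,
  0)]⟩,⟨3,[(33,2),(0,0)]⟩⟩ ⟨true,0,⟨0,[(1,0),(34,0)]⟩,⟨1,[(35,0),(8,0),(0,0),(5,1)]⟩⟩,.o ⟨false,0,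
  ⟨1,[(35,0),(2,0),(2,0)]⟩,⟨1,[(36,1),(9,0),(5,0)]⟩⟩]⟩)) (.I [0,0,2,2,-1,0,0,1,1] (.R ⟨1,false,
  false,true,[1,0,0,-1],[0,1,1],[1,1,0,-1,0,0,0,0,-1],(⟨3,[(1,0),(15,0),(17,1),(4,0)]⟩,⟨0,[(36,
  0)]⟩),(⟨0,[(45,0),(2,0)]⟩,⟨0,[(27,0)]⟩),⟨3,[(11,0),(15,0),(7,1),(11,0)]⟩,.k,.k,(.r (-1) ⟨8,[(4,1),
  (1,0),(8,1),(4,0),(5,1),(6,3)]⟩ ⟨6,[(0,2),(15,0),(14,0),(2,1),(5,0),(0,0)]⟩),(.r (-1) ⟨16,[(4,7),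
  (0,2),(0,6),(8,7),(4,0),(4,2),(7,4)]⟩ ⟨4,[(0,2),(21,0),(10,0),(0,1)]⟩),(.r (-2) ⟨7,[(4,1),(5,0),
  (4,1),(2,0),(7,1),(1,5),(4,3)]⟩ ⟨0,[(0,0)]⟩),.k,⟨true,1,⟨18,[(4,12),(1,12),(8,10),(1,1),(8,4),(6,
  2)]⟩,⟨0,[(0,0)]⟩⟩,⟨false,1,⟨1,[(5,0),(9,0),(19,0)]⟩,⟨0,[(36,0),(1,0)]⟩⟩,⟨true,0,⟨0,[(50,0)]⟩,⟨0,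
  [(51,0)]⟩⟩,⟨false,0,⟨5,[(0,3),(2,1),(11,3),(5,0),(13,1),(3,0)]⟩,⟨17,[(4,1),(1,9),(3,2),(7,6),(13,
  7),(0,3),(2,17),(9,3)]⟩⟩,⟨false,0,⟨0,[]⟩,⟨3,[(33,0),(0,0),(18,1)]⟩⟩,⟨false,0,⟨1,[(0,1),(4,0),(9,
  0),(19,0)]⟩,⟨5,[(4,1),(1,3),(11,3),(13,1),(0,0),(2,5),(9,0)]⟩⟩,[.o ⟨false,0,⟨0,[(39,0),(11,0)]⟩,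
  ⟨31,[(4,15),(5,7),(21,3),(0,0),(0,0),(3,7),(7,1),(6,19)]⟩⟩,.a ⟨true,0,⟨0,[(1,0),(37,0)]⟩,⟨0,[(1,
  0),(2,0)]⟩⟩ ⟨false,1,⟨8,[(4,1),(1,0),(8,1),(4,0),(5,1),(6,3)]⟩,⟨1,[(0,0),(4,0),(3,0),(30,0)]⟩⟩
  ⟨true,0,⟨0,[(8,0),(42,1)]⟩,⟨1,[(4,0),(8,0),(22,1),(1,0)]⟩⟩,.e ⟨false,1,⟨8,[(7,0),(10,1),(2,1),(6,
  0),(4,4),(0,0),(7,1)]⟩,⟨0,[(9,0),(41,0)]⟩⟩ ⟨false,0,⟨0,[(8,0),(42,1)]⟩,⟨31,[(4,15),(5,7),(21,3),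
  (0,0),(0,0),(1,31),(1,7),(7,1),(6,19)]⟩⟩,.o ⟨false,0,⟨0,[(30,0),(5,0),(4,0)]⟩,⟨7,[(33,0),(0,0),(0,
  3),(10,1),(5,3)]⟩⟩]⟩) (.Q [0,0,0,0,0,-2,0,0,0,1,-1] (.p false [0,0,1] [1] (⟨0,[(45,0)]⟩,⟨0,[(44,
  0)]⟩) .k 1 (⟨0,[]⟩,⟨0,[]⟩) .k .k) (.I [1,1,2,1,-1,0,0,1,1] (.R ⟨1,false,false,true,[1,0,0,-1],[0,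
  1,1],[0,0,0,0,0,0,0,0,-1],(⟨3,[(3,0),(15,0),(17,1),(4,0)]⟩,⟨0,[(38,0)]⟩),(⟨0,[(47,0),(2,0)]⟩,⟨0,
  [(29,0)]⟩),⟨5,[(1,0),(11,0),(23,2),(11,1)]⟩,.k,.k,(.r (-1) ⟨15,[(2,3),(25,3),(6,6),(0,0)]⟩ ⟨2,[(0,
  0),(17,0),(17,0),(16,0)]⟩),(.r (-1) ⟨4,[(2,1),(6,0),(20,0),(2,0),(1,0)]⟩ ⟨15,[(0,11),(2,7),(18,3),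
  (12,0),(0,2),(11,3)]⟩),(.x 0 ⟨1,[(1,1),(38,1),(2,0),(0,0)]⟩ ⟨0,[(7,0),(39,0),(2,1)]⟩),.k,⟨true,1,
  ⟨9,[(2,3),(5,3),(3,1),(9,1),(12,0),(19,0)]⟩,⟨0,[(0,0)]⟩⟩,⟨false,1,⟨1,[(7,0),(9,0),(19,0)]⟩,⟨0,
  [(38,0),(1,0)]⟩⟩,⟨false,1,⟨3,[(35,0),(0,0),(18,1)]⟩,⟨0,[]⟩⟩,⟨false,0,⟨5,[(0,3),(2,2),(1,1),(1,2),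
  (8,0),(20,1),(3,0)]⟩,⟨33,[(2,6),(3,9),(1,14),(3,0),(21,11),(0,5),(2,33),(9,5),(6,13)]⟩⟩,⟨true,0,
  ⟨0,[(53,0)]⟩,⟨0,[(52,0)]⟩⟩,⟨false,0,⟨2,[(0,1),(2,1),(1,0),(1,1),(29,0),(3,0),(11,1)]⟩,⟨5,[(6,1),
  (1,3),(11,3),(13,1),(0,0),(2,5),(9,0)]⟩⟩,[.o ⟨false,0,⟨0,[(41,0),(11,0)]⟩,⟨31,[(6,15),(5,7),(21,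
  3),(0,0),(0,0),(3,7),(7,1),(6,19)]⟩⟩,.a ⟨true,0,⟨0,[(3,0),(37,0)]⟩,⟨0,[(3,0),(2,0)]⟩⟩ ⟨false,1,⟨2,
  [(3,0),(3,0),(0,0),(13,0),(9,0),(2,0)]⟩,⟨2,[(0,1),(10,0),(5,1),(7,1)]⟩⟩ ⟨true,0,⟨0,[(10,0),(42,
  1)]⟩,⟨1,[(6,0),(8,0),(22,1),(1,0)]⟩⟩,.e ⟨false,1,⟨1,[(35,0),(19,0)]⟩,⟨2,[(0,0),(10,1),(5,0),(7,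
  0)]⟩⟩ ⟨false,0,⟨0,[(10,0),(42,1)]⟩,⟨31,[(6,15),(5,7),(21,3),(0,0),(0,0),(1,31),(1,7),(7,1),(6,
  19)]⟩⟩,.o ⟨false,0,⟨0,[(32,0),(5,0),(4,0)]⟩,⟨7,[(35,0),(0,0),(0,3),(10,1),(5,3)]⟩⟩]⟩) (.Q [0,-1,0,
  1,0,0,0,0,0,1,0,-1] (.p false [0,0,0,1] [1] (⟨0,[(38,0)]⟩,⟨3,[(3,0),(15,0),(17,1),(4,0)]⟩) .k 1
  (⟨0,[]⟩,⟨0,[]⟩) .k .k) (.Q [0,0,0,0,0,1,0,0,0,0,0,-1] (.p false [0,0,0,1] [] (⟨0,[(39,0)]⟩,⟨3,[(4,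
  0),(15,0),(17,1),(4,0)]⟩) .k 0 (⟨0,[]⟩,⟨0,[]⟩) .k .k) (.R ⟨0,false,false,true,[0,0,0,1],[1,-1],[1,
  0,0,0,0,0,0,0,1],(⟨0,[(40,0)]⟩,⟨3,[(5,0),(15,0),(17,1),(4,0)]⟩),(⟨0,[(51,0)]⟩,⟨0,[(52,0)]⟩),⟨0,
  [(0,0)]⟩,.k,.k,(.r (-1) ⟨7,[(4,0),(3,0),(4,0),(5,0),(10,1),(7,3)]⟩ ⟨0,[(11,0),(35,0),(7,0)]⟩),(.r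
  0 ⟨1,[(13,1),(31,0),(0,0),(8,1),(3,1)]⟩ ⟨15,[(4,3),(25,3),(6,6),(0,0)]⟩),.k,.k,⟨false,0,⟨0,[(13,
  0),(41,0)]⟩,⟨3,[(9,0),(20,0),(6,1),(6,0),(9,1),(4,0)]⟩⟩,⟨true,0,⟨0,[(34,0),(5,0),(4,0)]⟩,⟨3,[(5,
  0),(15,0),(17,1),(4,0)]⟩⟩,⟨true,0,⟨0,[]⟩,⟨0,[(59,0)]⟩⟩,⟨false,1,⟨95,[(8,11),(1,13),(11,15),(2,17),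
  (0,3),(10,40),(2,95),(1,5),(7,38)]⟩,⟨0,[(5,0),(1,0),(51,0)]⟩⟩,⟨false,0,⟨0,[]⟩,⟨0,[]⟩⟩,⟨false,0,⟨0,
  []⟩,⟨0,[]⟩⟩,[.a ⟨true,0,⟨0,[(54,0)]⟩,⟨0,[(5,0)]⟩⟩ ⟨true,0,⟨0,[(13,0),(45,0)]⟩,⟨0,[(11,0),(35,
  0)]⟩⟩ ⟨false,1,⟨3,[(9,0),(20,0),(9,3),(3,0),(5,1),(3,1),(4,0)]⟩,⟨0,[(1,0)]⟩⟩,.o ⟨false,1,⟨9,[(8,
  0),(8,0),(4,1),(2,1),(11,1),(0,1),(3,0),(7,3)]⟩,⟨0,[(55,0)]⟩⟩,.e ⟨false,0,⟨0,[(13,0)]⟩,⟨3,[(37,2),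
  (0,0)]⟩⟩ ⟨false,1,⟨9,[(8,0),(8,0),(4,1),(2,1),(11,1),(0,1),(1,9),(1,0),(7,3)]⟩,⟨0,[(1,0)]⟩⟩,.o
  ⟨false,0,⟨1,[(39,0),(2,0),(2,0)]⟩,⟨1,[(40,1),(9,0),(5,0)]⟩⟩]⟩) (.R ⟨1,false,false,true,[0,0,0,1],
  [1,-1],[0,0,0,0,0,0,0,0,1],(⟨0,[(40,0)]⟩,⟨3,[(5,0),(15,0),(17,1),(4,0)]⟩),(⟨0,[(51,0)]⟩,⟨0,[(52,
  0)]⟩),⟨0,[(0,0)]⟩,.k,.k,(.r (-1) ⟨7,[(4,0),(3,0),(4,0),(5,0),(10,1),(7,3)]⟩ ⟨0,[(11,0),(35,0),(7,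
  0)]⟩),(.r 0 ⟨1,[(13,1),(31,0),(0,0),(8,1),(3,1)]⟩ ⟨15,[(4,3),(25,3),(6,6),(0,0)]⟩),.k,.k,⟨false,0,
  ⟨0,[(13,0),(41,0)]⟩,⟨3,[(9,0),(20,0),(6,1),(6,0),(9,1),(4,0)]⟩⟩,⟨true,0,⟨0,[(34,0),(5,0),(4,0)]⟩,
  ⟨3,[(5,0),(15,0),(17,1),(4,0)]⟩⟩,⟨false,1,⟨3,[(37,0),(0,0),(18,1)]⟩,⟨0,[]⟩⟩,⟨false,1,⟨95,[(8,11),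
  (1,13),(11,15),(2,17),(0,3),(10,40),(2,95),(1,5),(7,38)]⟩,⟨0,[(5,0),(1,0),(51,0)]⟩⟩,⟨true,0,⟨0,
  [(55,0)]⟩,⟨0,[(54,0)]⟩⟩,⟨false,1,⟨1,[(37,0),(2,1),(9,0)]⟩,⟨3,[(5,0),(7,3),(7,0),(17,1),(4,0)]⟩⟩,
  [.a ⟨true,0,⟨0,[(54,0)]⟩,⟨0,[(5,0)]⟩⟩ ⟨true,0,⟨0,[(13,0),(45,0)]⟩,⟨0,[(11,0),(35,0)]⟩⟩ ⟨false,1,
  ⟨3,[(9,0),(20,0),(9,3),(3,0),(5,1),(3,1),(4,0)]⟩,⟨0,[(1,0)]⟩⟩,.o ⟨false,1,⟨9,[(8,0),(8,0),(4,1),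
  (2,1),(11,1),(0,1),(3,0),(7,3)]⟩,⟨0,[(55,0)]⟩⟩,.e ⟨false,0,⟨0,[(13,0)]⟩,⟨3,[(37,2),(0,0)]⟩⟩
  ⟨false,1,⟨9,[(8,0),(8,0),(4,1),(2,1),(11,1),(0,1),(1,9),(1,0),(7,3)]⟩,⟨0,[(1,0)]⟩⟩,.o ⟨false,0,⟨1,
  [(39,0),(2,0),(2,0)]⟩,⟨1,[(40,1),(9,0),(5,0)]⟩⟩]⟩)) (.Q [0,0,0,0,0,-1,0,0,0,0,0,1] (.p true [0,0,
  0,1] [] (⟨0,[(39,0)]⟩,⟨3,[(4,0),(15,0),(17,1),(4,0)]⟩) .k 0 (⟨0,[]⟩,⟨0,[]⟩) .k .k) (.R ⟨1,false,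
  false,true,[0,0,0,1],[1,-1],[0,0,0,0,0,0,0,0,1],(⟨0,[(40,0)]⟩,⟨3,[(5,0),(15,0),(17,1),(4,0)]⟩),
  (⟨0,[(51,0)]⟩,⟨0,[(52,0)]⟩),⟨0,[(0,0)]⟩,.k,.k,(.r (-1) ⟨7,[(4,0),(3,0),(4,0),(5,0),(10,1),(7,3)]⟩
  ⟨0,[(11,0),(35,0),(7,0)]⟩),(.r 0 ⟨1,[(13,1),(31,0),(0,0),(8,1),(3,1)]⟩ ⟨15,[(4,3),(25,3),(6,6),(0,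
  0)]⟩),.k,.k,⟨false,0,⟨0,[(13,0),(41,0)]⟩,⟨3,[(9,0),(20,0),(6,1),(6,0),(9,1),(4,0)]⟩⟩,⟨true,0,⟨0,
  [(34,0),(5,0),(4,0)]⟩,⟨3,[(5,0),(15,0),(17,1),(4,0)]⟩⟩,⟨false,1,⟨3,[(37,0),(0,0),(18,1)]⟩,⟨0,[]⟩⟩,
  ⟨false,1,⟨1,[(1,1),(35,0),(19,0)]⟩,⟨0,[(5,0),(1,0),(51,0)]⟩⟩,⟨true,0,⟨0,[(55,0)]⟩,⟨0,[(54,0)]⟩⟩,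
  ⟨false,1,⟨1,[(37,0),(2,1),(9,0)]⟩,⟨3,[(5,0),(7,3),(7,0),(17,1),(4,0)]⟩⟩,[.e ⟨true,0,⟨0,[(13,0),
  (45,0)]⟩,⟨0,[(11,0),(35,0)]⟩⟩ ⟨true,0,⟨0,[(1,0)]⟩,⟨1,[(5,1),(33,0),(2,0),(2,0)]⟩⟩,.o ⟨false,1,⟨9,
  [(8,0),(8,0),(4,1),(2,1),(11,1),(0,1),(3,0),(7,3)]⟩,⟨0,[(55,0)]⟩⟩,.a ⟨true,0,⟨3,[(5,0),(15,0),(17,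
  1),(4,0)]⟩,⟨0,[(40,0)]⟩⟩ ⟨false,0,⟨0,[(13,0)]⟩,⟨3,[(37,2),(0,0)]⟩⟩ ⟨true,0,⟨0,[(1,0)]⟩,⟨1,[(5,0),
  (33,0),(15,0),(3,0)]⟩⟩,.o ⟨false,0,⟨1,[(39,0),(2,0),(2,0)]⟩,⟨1,[(40,1),(9,0),(5,0)]⟩⟩]⟩) (.R ⟨0,
  false,false,true,[0,0,0,1],[1,-1],[1,0,0,0,0,0,0,0,1],(⟨0,[(40,0)]⟩,⟨3,[(5,0),(15,0),(17,1),(4,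
  0)]⟩),(⟨0,[(51,0)]⟩,⟨0,[(52,0)]⟩),⟨0,[(0,0)]⟩,.k,.k,(.r (-1) ⟨7,[(4,0),(3,0),(4,0),(5,0),(10,1),
  (7,3)]⟩ ⟨0,[(11,0),(35,0),(7,0)]⟩),(.r 0 ⟨1,[(13,1),(31,0),(0,0),(8,1),(3,1)]⟩ ⟨15,[(4,3),(25,3),
  (6,6),(0,0)]⟩),.k,.k,⟨false,0,⟨0,[(13,0),(41,0)]⟩,⟨3,[(9,0),(20,0),(6,1),(6,0),(9,1),(4,0)]⟩⟩,
  ⟨true,0,⟨0,[(34,0),(5,0),(4,0)]⟩,⟨3,[(5,0),(15,0),(17,1),(4,0)]⟩⟩,⟨true,0,⟨0,[]⟩,⟨0,[(59,0)]⟩⟩,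
  ⟨false,1,⟨1,[(1,1),(35,0),(19,0)]⟩,⟨0,[(5,0),(1,0),(51,0)]⟩⟩,⟨false,0,⟨0,[]⟩,⟨0,[]⟩⟩,⟨false,0,⟨0,
  []⟩,⟨0,[]⟩⟩,[.e ⟨true,0,⟨0,[(13,0),(45,0)]⟩,⟨0,[(11,0),(35,0)]⟩⟩ ⟨true,0,⟨0,[(1,0)]⟩,⟨1,[(5,1),
  (33,0),(2,0),(2,0)]⟩⟩,.o ⟨false,1,⟨9,[(8,0),(8,0),(4,1),(2,1),(11,1),(0,1),(3,0),(7,3)]⟩,⟨0,[(55,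
  0)]⟩⟩,.a ⟨true,0,⟨3,[(5,0),(15,0),(17,1),(4,0)]⟩,⟨0,[(40,0)]⟩⟩ ⟨false,0,⟨0,[(13,0)]⟩,⟨3,[(37,2),
  (0,0)]⟩⟩ ⟨true,0,⟨0,[(1,0)]⟩,⟨1,[(5,0),(33,0),(15,0),(3,0)]⟩⟩,.o ⟨false,0,⟨1,[(39,0),(2,0),(2,
  0)]⟩,⟨1,[(40,1),(9,0),(5,0)]⟩⟩]⟩)))) (.R ⟨0,false,false,true,[1,-1,-1],[1,-1],[1],(⟨0,[(28,0)]⟩,
  ⟨3,[(0,1),(1,0),(15,0),(22,0),(4,1)]⟩),(⟨0,[(48,0)]⟩,⟨0,[(49,0)]⟩),⟨0,[(0,0)]⟩,.k,.k,(.r (-1) ⟨1,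
  [(1,0),(3,0),(4,0),(5,0)]⟩ ⟨1,[(2,1),(36,1),(0,1),(1,0),(0,0),(8,1)]⟩),.k,.k,.k,⟨true,0,⟨0,[(17,
  0),(26,0)]⟩,⟨0,[(51,0)]⟩⟩,⟨false,1,⟨2,[(16,1),(25,0),(4,0)]⟩,⟨4,[(2,0),(20,0),(2,0),(6,0),(7,0),
  (1,0)]⟩⟩,⟨false,0,⟨0,[(17,0),(26,1)]⟩,⟨1,[(1,1),(1,5),(1,4),(1,3),(4,4),(9,4),(0,1),(4,4),(8,5),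
  (11,14),(2,29)]⟩⟩,⟨true,0,⟨0,[(40,0)]⟩,⟨0,[(26,0)]⟩⟩,⟨false,0,⟨0,[]⟩,⟨0,[]⟩⟩,⟨false,0,⟨0,[]⟩,⟨0,
  []⟩⟩,[.a ⟨true,0,⟨0,[(51,0)]⟩,⟨0,[(2,0)]⟩⟩ ⟨true,0,⟨0,[]⟩,⟨1,[(42,0),(0,0)]⟩⟩ ⟨false,1,⟨0,[(6,0),
  (44,0)]⟩,⟨0,[(2,0),(36,0)]⟩⟩,.o ⟨false,1,⟨9,[(5,0),(8,0),(4,1),(2,1),(11,1),(0,1),(3,0),(7,3)]⟩,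
  ⟨0,[(52,0)]⟩⟩,.o ⟨false,0,⟨0,[(39,0)]⟩,⟨2,[(16,1),(25,0),(4,0)]⟩⟩,.o ⟨false,0,⟨1,[(39,1),(2,0),(0,
  0)]⟩,⟨0,[(6,0)]⟩⟩]⟩)))))))))) (.I [0,0,-1,0,0,0,0,1,1] (.R ⟨1,false,false,true,[1,0,0,-1],[0,-1,
  1],[1,1,0,-1,0,0,0,0,-1],(⟨1,[(28,0),(8,0),(0,0)]⟩,⟨0,[(29,0)]⟩),(⟨0,[(17,0)]⟩,⟨0,[(37,0),(3,
  0)]⟩),⟨3,[(4,0),(15,0),(7,1),(11,0)]⟩,.k,.k,(.r (-1) ⟨7,[(3,1),(3,0),(6,0),(0,1),(0,0),(1,1),(0,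
  0),(6,3)]⟩ ⟨1,[(2,1),(31,0),(0,0),(8,1),(3,1)]⟩),(.x (-1) ⟨7,[(5,3),(20,2),(0,2),(13,3),(3,1)]⟩
  ⟨1,[(4,0),(29,1),(3,0)]⟩),.k,.k,⟨false,1,⟨11,[(3,3),(22,6),(0,0),(5,3),(0,3)]⟩,⟨0,[(0,0)]⟩⟩,⟨true,
  0,⟨1,[(28,0),(5,1),(2,0),(0,0)]⟩,⟨0,[(23,0),(5,0)]⟩⟩,⟨true,0,⟨0,[(43,0)]⟩,⟨0,[(44,0)]⟩⟩,⟨false,0,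
  ⟨3,[(0,0),(1,2),(7,1),(3,0),(13,1),(5,0),(13,1)]⟩,⟨1,[(1,1),(24,0),(19,0)]⟩⟩,⟨false,0,⟨0,[]⟩,⟨3,
  [(26,0),(0,0),(18,1)]⟩⟩,⟨false,0,⟨1,[(0,1),(27,0),(5,1),(2,0),(0,0)]⟩,⟨1,[(1,1),(9,0),(14,0),(15,
  0)]⟩⟩,[.o ⟨false,0,⟨0,[(22,0)]⟩,⟨7,[(1,3),(10,3),(13,0),(0,0),(11,1),(6,3)]⟩⟩,.e ⟨false,1,⟨7,[(3,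
  1),(3,0),(6,0),(0,1),(0,0),(1,1),(0,0),(6,3)]⟩,⟨0,[(2,0),(41,0),(3,0)]⟩⟩ ⟨false,1,⟨95,[(7,35),(2,
  11),(3,11),(0,15),(3,3),(6,24),(0,24),(0,47),(17,5)]⟩,⟨0,[(1,0)]⟩⟩,.a ⟨true,0,⟨0,[(29,0)]⟩,⟨1,
  [(28,0),(8,0),(0,0)]⟩⟩ ⟨false,1,⟨11,[(6,0),(4,1),(2,2),(6,1),(4,6),(0,0),(7,2)]⟩,⟨0,[(2,0),(41,
  0)]⟩⟩ ⟨true,0,⟨3,[(10,1),(3,0),(13,1),(3,0),(15,1)]⟩,⟨0,[(1,0)]⟩⟩,.o ⟨false,0,⟨3,[(1,2),(12,0),(0,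
  0),(13,0),(1,0),(2,2),(7,0)]⟩,⟨7,[(26,0),(0,0),(0,3),(10,1),(5,3)]⟩⟩]⟩) (.Q [0,0,0,0,0,-1,0,0,0,0,
  0,1] (.p true [0,0,0,1] [] (⟨0,[(29,0)]⟩,⟨1,[(28,0),(8,0),(0,0)]⟩) .k 0 (⟨0,[]⟩,⟨0,[]⟩) .k .k)
  (.R ⟨1,false,false,true,[0,0,0,1],[1,-1],[0,0,0,0,0,0,0,0,1],(⟨0,[(30,0)]⟩,⟨1,[(29,0),(8,0),(0,
  0)]⟩),(⟨0,[(41,0)]⟩,⟨0,[(42,0)]⟩),⟨0,[(0,0)]⟩,.k,.k,(.r (-1) ⟨9,[(3,1),(5,0),(7,0),(2,2),(1,1),(5,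
  3),(15,0)]⟩ ⟨0,[(1,0),(35,0),(7,0)]⟩),(.r 0 ⟨1,[(3,1),(31,0),(0,0),(8,1),(3,1)]⟩ ⟨5,[(1,1),(7,0),
  (4,0),(2,0),(2,1),(6,1)]⟩),.k,.k,⟨false,0,⟨0,[(3,0),(41,0)]⟩,⟨3,[(9,0),(7,0),(2,0),(6,1),(16,0),
  (4,1)]⟩⟩,⟨true,0,⟨3,[(2,2),(12,0),(0,0),(13,0),(1,0),(2,2),(7,0)]⟩,⟨1,[(29,0),(8,0),(0,0)]⟩⟩,
  ⟨false,1,⟨3,[(27,0),(0,0),(18,1)]⟩,⟨0,[]⟩⟩,⟨false,1,⟨3,[(2,1),(9,0),(2,1),(11,1),(2,1),(9,0),(2,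
  0)]⟩,⟨1,[(3,1),(25,0),(8,0),(0,0),(5,1)]⟩⟩,⟨true,0,⟨0,[(45,0)]⟩,⟨0,[(44,0)]⟩⟩,⟨false,1,⟨1,[(27,0),
  (2,1),(9,0)]⟩,⟨1,[(3,1),(25,0),(8,0),(0,0)]⟩⟩,[.e ⟨true,0,⟨0,[(3,0),(45,0)]⟩,⟨0,[(1,0),(35,0)]⟩⟩
  ⟨true,0,⟨0,[(2,0),(12,0)]⟩,⟨1,[(10,1),(18,0),(7,1),(0,0),(0,0)]⟩⟩,.o ⟨false,1,⟨35,[(7,3),(4,7),(2,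
  7),(1,3),(9,6),(0,6),(3,3),(7,13)]⟩,⟨0,[(45,0)]⟩⟩,.a ⟨true,0,⟨1,[(29,0),(8,0),(0,0)]⟩,⟨0,[(30,
  0)]⟩⟩ ⟨false,0,⟨0,[(3,0)]⟩,⟨3,[(27,2),(0,0)]⟩⟩ ⟨true,0,⟨0,[(2,0),(12,0)]⟩,⟨1,[(29,0),(8,0),(0,0),
  (5,1)]⟩⟩,.o ⟨false,0,⟨1,[(29,0),(2,0),(2,0)]⟩,⟨1,[(30,1),(9,0),(5,0)]⟩⟩]⟩) (.R ⟨0,false,false,
  true,[0,0,0,1],[1,-1],[1,0,0,0,0,0,0,0,1],(⟨0,[(30,0)]⟩,⟨1,[(29,0),(8,0),(0,0)]⟩),(⟨0,[(41,0)]⟩,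
  ⟨0,[(42,0)]⟩),⟨0,[(0,0)]⟩,.k,.k,(.r (-1) ⟨9,[(3,1),(5,0),(7,0),(2,2),(1,1),(5,3),(15,0)]⟩ ⟨0,[(1,
  0),(35,0),(7,0)]⟩),(.r 0 ⟨1,[(3,1),(31,0),(0,0),(8,1),(3,1)]⟩ ⟨5,[(1,1),(7,0),(4,0),(2,0),(2,1),
  (6,1)]⟩),.k,.k,⟨false,0,⟨0,[(3,0),(41,0)]⟩,⟨3,[(9,0),(7,0),(2,0),(6,1),(16,0),(4,1)]⟩⟩,⟨true,0,⟨3,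
  [(2,2),(12,0),(0,0),(13,0),(1,0),(2,2),(7,0)]⟩,⟨1,[(29,0),(8,0),(0,0)]⟩⟩,⟨true,0,⟨0,[]⟩,⟨0,[(49,
  0)]⟩⟩,⟨false,1,⟨3,[(2,1),(9,0),(2,1),(11,1),(2,1),(9,0),(2,0)]⟩,⟨1,[(3,1),(25,0),(8,0),(0,0),(5,
  1)]⟩⟩,⟨false,0,⟨0,[]⟩,⟨0,[]⟩⟩,⟨false,0,⟨0,[]⟩,⟨0,[]⟩⟩,[.e ⟨true,0,⟨0,[(3,0),(45,0)]⟩,⟨0,[(1,0),
  (35,0)]⟩⟩ ⟨true,0,⟨0,[(2,0),(12,0)]⟩,⟨1,[(10,1),(18,0),(7,1),(0,0),(0,0)]⟩⟩,.o ⟨false,1,⟨35,[(7,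
  3),(4,7),(2,7),(1,3),(9,6),(0,6),(3,3),(7,13)]⟩,⟨0,[(45,0)]⟩⟩,.a ⟨true,0,⟨1,[(29,0),(8,0),(0,0)]⟩,
  ⟨0,[(30,0)]⟩⟩ ⟨false,0,⟨0,[(3,0)]⟩,⟨3,[(27,2),(0,0)]⟩⟩ ⟨true,0,⟨0,[(2,0),(12,0)]⟩,⟨1,[(29,0),(8,
  0),(0,0),(5,1)]⟩⟩,.o ⟨false,0,⟨1,[(29,0),(2,0),(2,0)]⟩,⟨1,[(30,1),(9,0),(5,0)]⟩⟩]⟩)))))))

theorem ok30 : chk (cU (-1) false 2) t30 r27 = true := by decide +kernel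

noncomputable def t81 : Tre :=
  (.I [0,1,-1,-1,0,0,0,1] (.R ⟨1,true,true,false,[1,-1,1],[],[0,1,-1,-1,0,0,0,1],(⟨0,[(33,0),(1,
  0)]⟩,⟨0,[(9,0)]⟩),(⟨0,[]⟩,⟨0,[]⟩),⟨0,[(5,0),(0,0),(8,0)]⟩,.k,.k,(.r (-1) ⟨0,[(14,0)]⟩ ⟨1,[(3,1),
  (25,0),(0,0),(12,1)]⟩),.k,(.r (-1) ⟨0,[(14,0)]⟩ ⟨1,[(3,1),(25,0),(0,0),(12,1)]⟩),.k,⟨true,0,⟨0,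
  [(0,0)]⟩,⟨1,[(3,0),(24,0),(0,0),(7,1)]⟩⟩,⟨false,1,⟨0,[(4,0),(9,0)]⟩,⟨0,[(8,0)]⟩⟩,⟨true,0,⟨0,[(43,
  0)]⟩,⟨0,[]⟩⟩,⟨false,1,⟨11,[(4,7),(11,3),(4,0),(0,0),(7,3),(1,3),(0,3),(7,5)]⟩,⟨0,[(7,0)]⟩⟩,⟨false,
  0,⟨0,[(39,0)]⟩,⟨0,[(38,0),(2,0)]⟩⟩,⟨true,0,⟨0,[(4,0)]⟩,⟨0,[(7,0),(30,0)]⟩⟩,[]⟩) (.I [0,-1,2,2,-1,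
  0,0,0,1] (.I [1,-1,0,0,0,0,0,0,1] (.Q [0,0,0,0,0,-1,0,0,0,1,0,-1] (.p false [0,0,0,1] [1] (⟨0,
  [(26,0)]⟩,⟨1,[(25,0),(8,0),(0,0)]⟩) .k 1 (⟨0,[]⟩,⟨0,[]⟩) .k .k) (.R ⟨1,false,false,true,[1,0,0,
  -1],[1,0,-1],[1,0,0,-1,0,0,0,0,-1],(⟨1,[(26,0),(8,0),(0,0)]⟩,⟨0,[(27,0)]⟩),(⟨0,[(35,0)]⟩,⟨0,[(36,
  0)]⟩),⟨0,[(0,0)]⟩,.k,.k,(.x 0 ⟨2,[(9,0),(8,1),(10,1)]⟩ ⟨3,[(24,0),(0,0),(13,3),(3,1)]⟩),.k,(.r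
  (-1) ⟨1,[(17,0),(6,0),(9,0)]⟩ ⟨5,[(1,0),(0,0),(0,1),(0,1),(20,0),(5,1),(0,1)]⟩),.k,⟨false,1,⟨1,
  [(3,1),(4,1),(4,3),(10,0),(18,0)]⟩,⟨0,[(4,0)]⟩⟩,⟨true,0,⟨1,[(23,0),(2,0)]⟩,⟨0,[(27,0),(4,0)]⟩⟩,
  ⟨false,1,⟨0,[(41,0),(2,0)]⟩,⟨0,[(42,0)]⟩⟩,⟨false,0,⟨1,[(1,1),(24,0),(1,0),(2,0)]⟩,⟨1,[(16,1),(7,
  0),(2,1),(16,0)]⟩⟩,⟨true,0,⟨0,[]⟩,⟨0,[(46,0)]⟩⟩,⟨false,0,⟨3,[(1,1),(2,1),(1,0),(1,0),(12,0),(4,1),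
  (1,0)]⟩,⟨1,[(13,1),(10,0),(2,1),(16,0)]⟩⟩,[.o ⟨false,0,⟨0,[(28,0)]⟩,⟨3,[(16,3),(7,0),(0,0),(18,
  1)]⟩⟩,.o ⟨false,1,⟨1,[(31,1),(5,0),(6,0)]⟩,⟨0,[(16,0)]⟩⟩,.a ⟨true,0,⟨0,[(27,0)]⟩,⟨1,[(26,0),(8,0),
  (0,0)]⟩⟩ ⟨false,1,⟨1,[(3,0),(4,0),(4,1),(5,0),(4,0),(15,0)]⟩,⟨19,[(2,10),(1,3),(0,2),(2,1),(16,0),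
  (4,3),(12,6)]⟩⟩ ⟨true,0,⟨1,[(26,0),(1,0),(2,0)]⟩,⟨0,[(16,0),(10,0)]⟩⟩,.o ⟨false,0,⟨1,[(11,0),(15,
  1),(1,0)]⟩,⟨7,[(24,0),(0,0),(0,3),(10,1),(5,3)]⟩⟩]⟩) (.I [1,1,-1,-2,1,0,0,0,-1] (.R ⟨0,false,
  false,false,[1,0,0,-1],[0,1],[1,1,0,-1,0,0,0,0,-1],(⟨1,[(27,0),(8,0),(0,0)]⟩,⟨0,[(28,0)]⟩),(⟨0,
  [(40,0)]⟩,⟨0,[(39,0)]⟩),⟨0,[(1,0)]⟩,.k,.k,(.x 0 ⟨2,[(10,0),(8,1),(10,1)]⟩ ⟨3,[(25,0),(0,0),(13,3),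
  (3,1)]⟩),(.x 0 ⟨2,[(10,0),(8,1),(10,1)]⟩ ⟨3,[(25,0),(0,0),(13,3),(3,1)]⟩),.k,.k,⟨true,1,⟨0,[(0,
  0)]⟩,⟨0,[(3,0)]⟩⟩,⟨false,1,⟨1,[(27,0),(8,0),(0,0),(6,1)]⟩,⟨1,[(12,0),(15,1),(1,0)]⟩⟩,⟨true,0,⟨0,
  [(42,0)]⟩,⟨0,[(43,0)]⟩⟩,⟨false,0,⟨1,[(2,1),(5,0),(8,0),(9,0)]⟩,⟨3,[(0,1),(11,1),(9,1),(2,0),(2,3),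
  (16,0)]⟩⟩,⟨false,0,⟨0,[]⟩,⟨0,[]⟩⟩,⟨false,0,⟨0,[]⟩,⟨0,[]⟩⟩,[.o ⟨false,0,⟨0,[(43,0)]⟩,⟨5,[(0,1),(11,
  0),(2,1),(10,0),(3,0),(7,0),(6,1)]⟩⟩,.o ⟨false,1,⟨7,[(8,3),(8,3),(7,0),(0,0),(11,1),(6,3)]⟩,⟨0,
  [(15,0)]⟩⟩,.a ⟨true,0,⟨0,[(28,0)]⟩,⟨1,[(27,0),(8,0),(0,0)]⟩⟩ ⟨false,1,⟨3,[(0,1),(24,0),(7,0),(0,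
  0),(10,0)]⟩,⟨1,[(2,0),(0,0),(40,0)]⟩⟩ ⟨true,0,⟨1,[(8,0),(8,0),(9,0)]⟩,⟨0,[(15,0),(12,0)]⟩⟩,.o
  ⟨false,0,⟨1,[(12,0),(15,1),(1,0)]⟩,⟨7,[(25,0),(0,0),(0,3),(10,1),(5,3)]⟩⟩]⟩) (.R ⟨0,false,false,
  false,[1,0,0,-1],[0,1],[0,1,0,0,0,0,0,0,-1],(⟨1,[(27,0),(8,0),(0,0)]⟩,⟨0,[(28,0)]⟩),(⟨0,[(40,0)]⟩,
  ⟨0,[(39,0)]⟩),⟨0,[(1,0)]⟩,.k,.k,(.x 0 ⟨2,[(10,0),(8,1),(10,1)]⟩ ⟨3,[(25,0),(0,0),(13,3),(3,1)]⟩),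
  (.x 0 ⟨2,[(10,0),(8,1),(10,1)]⟩ ⟨3,[(25,0),(0,0),(13,3),(3,1)]⟩),.k,.k,⟨true,1,⟨1,[(25,0),(16,1),
  (1,0)]⟩,⟨0,[(0,0),(40,0),(0,0)]⟩⟩,⟨false,1,⟨1,[(27,0),(8,0),(0,0),(6,1)]⟩,⟨1,[(12,0),(15,1),(1,
  0)]⟩⟩,⟨true,0,⟨0,[(47,0)]⟩,⟨0,[]⟩⟩,⟨false,0,⟨1,[(2,1),(5,0),(8,0),(9,0)]⟩,⟨1,[(15,1),(9,0),(2,1),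
  (16,0)]⟩⟩,⟨false,0,⟨0,[]⟩,⟨0,[]⟩⟩,⟨false,0,⟨0,[]⟩,⟨0,[]⟩⟩,[.o ⟨false,0,⟨0,[(43,0)]⟩,⟨1,[(38,0),(3,
  1),(2,0)]⟩⟩,.o ⟨false,1,⟨7,[(8,3),(8,3),(7,0),(0,0),(11,1),(6,3)]⟩,⟨0,[(15,0)]⟩⟩,.a ⟨true,0,⟨0,
  [(28,0)]⟩,⟨1,[(27,0),(8,0),(0,0)]⟩⟩ ⟨false,1,⟨3,[(25,2),(0,0)]⟩,⟨0,[(2,0)]⟩⟩ ⟨true,0,⟨1,[(8,0),(8,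
  0),(9,0)]⟩,⟨0,[(15,0),(12,0)]⟩⟩,.o ⟨false,0,⟨1,[(12,0),(15,1),(1,0)]⟩,⟨7,[(25,0),(0,0),(0,3),(10,
  1),(5,3)]⟩⟩]⟩))) (.Q [0,1,0,1,0,0,-1,-1,-1,0,1,1] (.p true [1,-1,1] [1,0,0,-1] (⟨0,[(35,0),(1,
  0)]⟩,⟨0,[(11,0)]⟩) .k 2 (⟨1,[(25,0),(8,0),(0,0)]⟩,⟨0,[(26,0)]⟩) .k (.r 0 ⟨1,[(1,0),(2,0),(28,1)]⟩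
  ⟨3,[(5,0),(12,1),(4,1),(6,0),(0,0)]⟩)) (.Q [0,-1,0,1,0,0,0,0,1,1,0,-1] (.p false [0,0,0,1] [1]
  (⟨0,[(27,0)]⟩,⟨1,[(26,0),(8,0),(0,0)]⟩) .k 1 (⟨0,[]⟩,⟨0,[]⟩) .k .k) (.R ⟨2,true,false,true,[0,1],
  [1,0,0,-1],[1,1,1],(⟨0,[]⟩,⟨0,[]⟩),(⟨1,[(27,0),(8,0),(0,0)]⟩,⟨0,[(28,0)]⟩),⟨0,[]⟩,.k,.k,.k,(.r 0
  ⟨9,[(3,3),(1,1),(19,0),(0,2),(4,1),(2,1)]⟩ ⟨0,[(2,0),(1,0),(13,0)]⟩),.k,.k,⟨false,0,⟨1,[(3,0),(2,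
  0)]⟩,⟨1,[(25,0),(18,0)]⟩⟩,⟨true,0,⟨1,[(12,0),(15,1),(1,0)]⟩,⟨1,[(27,0),(8,0),(0,0)]⟩⟩,⟨true,0,⟨0,
  [(42,0)]⟩,⟨0,[(43,0)]⟩⟩,⟨false,1,⟨1,[(15,1),(9,0),(2,1),(16,0)]⟩,⟨0,[(0,0)]⟩⟩,⟨false,0,⟨0,[]⟩,⟨3,
  [(25,0),(0,0),(18,1)]⟩⟩,⟨true,0,⟨0,[(1,0),(9,0)]⟩,⟨0,[(0,0),(41,0)]⟩⟩,[]⟩) (.Q [0,0,0,0,0,-2,0,0,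
  0,1] (.pp false [-1,1]) (.R ⟨1,true,false,false,[1,0,0,-1],[0,1],[0,0,0,0,0,0,0,0,-1],(⟨1,[(28,0),
  (8,0),(0,0)]⟩,⟨0,[(29,0)]⟩),(⟨0,[(41,0)]⟩,⟨0,[(40,0)]⟩),⟨1,[(0,0),(27,0)]⟩,.k,.k,(.r (-1) ⟨3,[(1,
  1),(3,1),(13,1),(6,0),(1,0),(8,0),(0,0),(6,0)]⟩ ⟨9,[(4,3),(1,1),(19,0),(0,2),(4,1),(2,1)]⟩),(.r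
  (-1) ⟨3,[(1,1),(3,1),(13,1),(6,0),(1,0),(8,0),(0,0),(6,0)]⟩ ⟨9,[(4,3),(1,1),(19,0),(0,2),(4,1),(2,
  1)]⟩),(.r (-2) ⟨11,[(19,7),(1,7),(4,6),(0,0)]⟩ ⟨0,[(4,0),(43,0)]⟩),.k,⟨true,1,⟨3,[(1,1),(3,1),(13,
  1),(6,0),(1,0),(8,0),(0,0),(6,0)]⟩,⟨0,[(4,0),(38,0)]⟩⟩,⟨false,1,⟨1,[(28,0),(8,0),(0,0),(6,1)]⟩,⟨1,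
  [(13,0),(15,1),(1,0)]⟩⟩,⟨false,1,⟨3,[(26,0),(0,0),(18,1)]⟩,⟨0,[]⟩⟩,⟨true,0,⟨1,[(4,0),(2,0),(1,0),
  (8,0),(9,0)]⟩,⟨0,[(1,0)]⟩⟩,⟨true,0,⟨0,[(44,0)]⟩,⟨0,[(43,0)]⟩⟩,⟨false,0,⟨1,[(4,1),(23,0),(8,0),(0,
  0),(6,1)]⟩,⟨0,[(1,0),(41,0),(2,0)]⟩⟩,[]⟩) (.R ⟨0,false,false,true,[0,0,0,1],[1,-1],[0,1,-1,-1],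
  (⟨0,[(29,0)]⟩,⟨1,[(28,0),(8,0),(0,0)]⟩),(⟨0,[(40,0)]⟩,⟨0,[(41,0)]⟩),⟨1,[(0,0),(27,0)]⟩,.k,.k,(.r
  (-1) ⟨3,[(7,1),(19,0),(18,0)]⟩ ⟨1,[(3,0),(0,0),(21,0)]⟩),(.r 0 ⟨9,[(4,3),(1,1),(19,0),(0,2),(4,1),
  (2,1)]⟩ ⟨3,[(1,1),(3,1),(13,1),(6,0),(1,0),(8,0),(0,0),(6,0)]⟩),.k,.k,⟨false,1,⟨3,[(26,0),(0,0),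
  (17,1)]⟩,⟨0,[]⟩⟩,⟨true,0,⟨1,[(13,0),(15,1),(1,0)]⟩,⟨1,[(28,0),(8,0),(0,0)]⟩⟩,⟨false,1,⟨3,[(1,1),
  (3,1),(13,1),(6,0),(1,0),(8,0),(0,0),(6,0)]⟩,⟨3,[(4,1),(22,0),(18,0)]⟩⟩,⟨true,0,⟨0,[(1,0)]⟩,⟨1,
  [(4,0),(2,0),(1,0),(8,0),(9,0)]⟩⟩,⟨false,0,⟨0,[]⟩,⟨0,[]⟩⟩,⟨false,0,⟨0,[]⟩,⟨0,[]⟩⟩,[.o ⟨false,0,⟨0,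
  [(16,0)]⟩,⟨7,[(9,3),(8,3),(7,0),(0,0),(11,1),(6,3)]⟩⟩,.o ⟨false,1,⟨1,[(39,0),(3,1),(2,0)]⟩,⟨0,
  [(44,0)]⟩⟩,.a ⟨true,0,⟨1,[(28,0),(8,0),(0,0)]⟩,⟨0,[(29,0)]⟩⟩ ⟨false,1,⟨5,[(19,1),(1,1),(4,0),(0,
  0)]⟩,⟨3,[(4,1),(21,0),(19,0)]⟩⟩ ⟨true,0,⟨0,[(16,0),(12,0)]⟩,⟨1,[(9,0),(8,0),(9,0)]⟩⟩,.o ⟨false,0,
  ⟨1,[(28,0),(2,0),(2,0)]⟩,⟨1,[(29,1),(9,0),(5,0)]⟩⟩]⟩))) (.Q [0,0,0,0,0,-1,0,0,0,1,0,-1] (.p false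
  [0,0,0,1] [1] (⟨0,[(27,0)]⟩,⟨1,[(26,0),(8,0),(0,0)]⟩) .k 1 (⟨0,[]⟩,⟨0,[]⟩) .k .k) (.R ⟨1,false,
  false,false,[1,0,0,-1],[0,1],[0,0,0,0,0,0,0,0,-1],(⟨1,[(27,0),(8,0),(0,0)]⟩,⟨0,[(28,0)]⟩),(⟨0,
  [(40,0)]⟩,⟨0,[(39,0)]⟩),⟨0,[(0,0)]⟩,.k,.k,(.r (-1) ⟨0,[(2,0),(1,0),(13,0)]⟩ ⟨9,[(3,3),(1,1),(19,
  0),(0,2),(4,1),(2,1)]⟩),(.r (-1) ⟨0,[(2,0),(1,0),(13,0)]⟩ ⟨9,[(3,3),(1,1),(19,0),(0,2),(4,1),(2,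
  1)]⟩),(.r (-2) ⟨11,[(18,7),(1,7),(4,6),(0,0)]⟩ ⟨0,[(3,0),(43,0)]⟩),.k,⟨true,1,⟨0,[(2,0),(1,0),(13,
  0)]⟩,⟨0,[(3,0),(38,0)]⟩⟩,⟨false,1,⟨1,[(27,0),(8,0),(0,0),(6,1)]⟩,⟨1,[(12,0),(15,1),(1,0)]⟩⟩,
  ⟨false,1,⟨3,[(25,0),(0,0),(18,1)]⟩,⟨0,[]⟩⟩,⟨false,0,⟨0,[(1,0),(6,0)]⟩,⟨1,[(15,1),(9,0),(2,1),(16,
  0)]⟩⟩,⟨true,0,⟨0,[(43,0)]⟩,⟨0,[(42,0)]⟩⟩,⟨false,0,⟨3,[(1,1),(1,1),(4,2),(8,0),(9,0),(16,1)]⟩,⟨4,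
  [(2,2),(6,0),(1,1),(3,2),(2,0),(1,2),(4,0),(2,4),(12,5)]⟩⟩,[.o ⟨false,0,⟨0,[(43,0)]⟩,⟨1,[(38,0),
  (3,1),(2,0)]⟩⟩,.o ⟨false,1,⟨7,[(8,3),(8,3),(7,0),(0,0),(11,1),(6,3)]⟩,⟨0,[(15,0)]⟩⟩,.a ⟨true,0,⟨0,
  [(28,0)]⟩,⟨1,[(27,0),(8,0),(0,0)]⟩⟩ ⟨false,1,⟨1,[(25,0),(19,0)]⟩,⟨1,[(3,0),(2,0)]⟩⟩ ⟨true,0,⟨1,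
  [(8,0),(8,0),(9,0)]⟩,⟨0,[(15,0),(12,0)]⟩⟩,.o ⟨false,0,⟨1,[(12,0),(15,1),(1,0)]⟩,⟨7,[(25,0),(0,0),
  (0,3),(10,1),(5,3)]⟩⟩]⟩) (.R ⟨0,false,false,true,[1,0,0,-1],[0,1],[0,1,0,0,0,0,0,0,-1],(⟨1,[(27,
  0),(8,0),(0,0)]⟩,⟨0,[(28,0)]⟩),(⟨0,[(40,0)]⟩,⟨0,[(39,0)]⟩),⟨0,[(0,0)]⟩,.k,.k,(.r (-1) ⟨0,[(2,0),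
  (1,0),(13,0)]⟩ ⟨9,[(3,3),(1,1),(19,0),(0,2),(4,1),(2,1)]⟩),(.r (-1) ⟨0,[(2,0),(1,0),(13,0)]⟩ ⟨9,
  [(3,3),(1,1),(19,0),(0,2),(4,1),(2,1)]⟩),.k,.k,⟨true,1,⟨0,[(2,0),(1,0),(13,0)]⟩,⟨0,[(3,0),(38,
  0)]⟩⟩,⟨false,1,⟨1,[(27,0),(8,0),(0,0),(6,1)]⟩,⟨1,[(12,0),(15,1),(1,0)]⟩⟩,⟨true,0,⟨0,[(47,0)]⟩,⟨0,
  []⟩⟩,⟨false,0,⟨2,[(1,0),(1,0),(2,0),(1,1),(18,0),(3,0)]⟩,⟨1,[(4,0),(4,0),(1,1),(8,0),(4,0),(2,1),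
  (12,0)]⟩⟩,⟨false,0,⟨0,[]⟩,⟨0,[]⟩⟩,⟨false,0,⟨0,[]⟩,⟨0,[]⟩⟩,[.o ⟨false,0,⟨3,[(2,0),(2,0),(2,0),(13,
  0),(8,1),(11,0)]⟩,⟨0,[(15,0),(29,0)]⟩⟩,.o ⟨false,0,⟨0,[(43,0)]⟩,⟨1,[(38,0),(3,1),(2,0)]⟩⟩,.a
  ⟨true,0,⟨0,[(28,0)]⟩,⟨1,[(27,0),(8,0),(0,0)]⟩⟩ ⟨true,0,⟨0,[(2,0)]⟩,⟨1,[(3,0),(2,0)]⟩⟩ ⟨false,0,⟨1,
  [(8,0),(8,0),(9,0)]⟩,⟨0,[(15,0),(12,0),(16,0)]⟩⟩,.o ⟨false,0,⟨1,[(12,0),(15,1),(1,0)]⟩,⟨7,[(25,0),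
  (0,0),(0,3),(10,1),(5,3)]⟩⟩]⟩)))) (.I [0,0,-1,-1,0,0,0,1,1] (.Q [0,0,0,0,0,-1,0,0,0,1,0,-1] (.p
  false [0,0,0,1] [1] (⟨0,[(26,0)]⟩,⟨1,[(25,0),(8,0),(0,0)]⟩) .k 1 (⟨0,[]⟩,⟨0,[]⟩) .k .k) (.R ⟨1,
  false,false,true,[1,0,0,-1],[1,0,-1],[1,0,0,-1,0,0,0,0,-1],(⟨1,[(26,0),(8,0),(0,0)]⟩,⟨0,[(27,
  0)]⟩),(⟨0,[(35,0)]⟩,⟨0,[(36,0)]⟩),⟨0,[(0,0)]⟩,.k,.k,(.r (-1) ⟨3,[(2,1),(21,0),(19,0)]⟩ ⟨3,[(1,1),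
  (2,1),(1,1),(9,1),(15,0),(0,2)]⟩),.k,(.r (-1) ⟨1,[(17,0),(6,0),(9,0)]⟩ ⟨0,[(4,0),(35,0)]⟩),.k,
  ⟨false,1,⟨3,[(2,1),(3,3),(1,3),(4,7),(10,0),(19,0)]⟩,⟨0,[(4,0)]⟩⟩,⟨true,0,⟨1,[(23,0),(2,0)]⟩,⟨0,
  [(27,0),(4,0)]⟩⟩,⟨false,1,⟨0,[(41,0),(2,0)]⟩,⟨0,[(42,0)]⟩⟩,⟨false,0,⟨1,[(1,1),(1,1),(22,0),(1,0),
  (2,0)]⟩,⟨1,[(16,1),(7,0),(2,1),(16,0)]⟩⟩,⟨true,0,⟨0,[]⟩,⟨0,[(46,0)]⟩⟩,⟨false,0,⟨3,[(1,1),(1,1),(0,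
  1),(1,0),(1,0),(12,0),(4,1),(1,0)]⟩,⟨1,[(13,1),(10,0),(2,1),(16,0)]⟩⟩,[.o ⟨false,0,⟨0,[(28,0)]⟩,
  ⟨3,[(16,3),(7,0),(0,0),(18,1)]⟩⟩,.o ⟨false,1,⟨1,[(31,1),(5,0),(6,0)]⟩,⟨0,[(16,0)]⟩⟩,.a ⟨true,0,⟨0,
  [(27,0)]⟩,⟨1,[(26,0),(8,0),(0,0)]⟩⟩ ⟨false,1,⟨3,[(2,1),(21,0),(15,3),(3,0)]⟩,⟨1,[(1,0),(2,0),(1,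
  0),(27,0)]⟩⟩ ⟨true,0,⟨1,[(26,0),(1,0),(2,0)]⟩,⟨0,[(16,0),(10,0)]⟩⟩,.o ⟨false,0,⟨1,[(11,0),(15,1),
  (1,0)]⟩,⟨7,[(24,0),(0,0),(0,3),(10,1),(5,3)]⟩⟩]⟩) (.R ⟨0,false,false,false,[1,0,0,-1],[1,-1,1],[1,
  0,0,0,0,0,0,0,-1],(⟨1,[(26,0),(8,0),(0,0)]⟩,⟨0,[(27,0)]⟩),(⟨0,[(36,0),(1,0)]⟩,⟨0,[(12,0)]⟩),⟨0,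
  [(0,0)]⟩,.k,.k,(.r (-1) ⟨3,[(2,1),(21,0),(19,0)]⟩ ⟨3,[(1,1),(2,1),(1,1),(9,1),(15,0),(0,2)]⟩),(.r
  (-1) ⟨3,[(6,1),(17,2),(0,0),(5,1),(0,1)]⟩ ⟨0,[(1,0)]⟩),.k,.k,⟨false,1,⟨2,[(4,0),(1,0),(15,0),(1,
  1)]⟩,⟨0,[(1,0)]⟩⟩,⟨true,0,⟨1,[(11,0),(14,0),(5,0)]⟩,⟨2,[(8,0),(18,2),(5,0)]⟩⟩,⟨true,0,⟨0,[]⟩,⟨0,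
  [(46,0)]⟩⟩,⟨false,0,⟨1,[(1,1),(1,1),(6,0),(2,0),(12,0)]⟩,⟨3,[(7,1),(16,1),(2,3),(3,1),(5,0),(6,
  0)]⟩⟩,⟨false,0,⟨0,[]⟩,⟨0,[]⟩⟩,⟨false,0,⟨0,[]⟩,⟨0,[]⟩⟩,[.o ⟨false,0,⟨0,[(10,0)]⟩,⟨3,[(7,1),(16,0),
  (0,0),(5,1),(5,0),(6,0)]⟩⟩,.o ⟨false,1,⟨3,[(10,1),(9,1),(16,0),(6,2)]⟩,⟨1,[(7,0),(20,0),(17,0)]⟩⟩,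
  .a ⟨true,0,⟨0,[(27,0)]⟩,⟨1,[(26,0),(8,0),(0,0)]⟩⟩ ⟨false,1,⟨1,[(24,0),(19,0)]⟩,⟨1,[(1,0),(2,0),
  (35,0)]⟩⟩ ⟨true,0,⟨1,[(10,0),(2,0),(12,0)]⟩,⟨1,[(7,0),(19,1),(0,0),(17,0)]⟩⟩,.o ⟨false,0,⟨1,[(11,
  0),(15,1),(1,0)]⟩,⟨7,[(24,0),(0,0),(0,3),(10,1),(5,3)]⟩⟩]⟩)) (.Q [0,0,0,-1,0,0,0,0,1,0,0,-1] (.p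
  false [0,0,0,1] [] (⟨0,[(26,0)]⟩,⟨1,[(25,0),(8,0),(0,0)]⟩) .k 0 (⟨0,[]⟩,⟨0,[]⟩) .k .k) (.Q [0,0,0,
  0,0,1,0,0,0,0,0,-1] (.p false [0,0,0,1] [] (⟨0,[(27,0)]⟩,⟨1,[(26,0),(8,0),(0,0)]⟩) .k 0 (⟨0,[]⟩,
  ⟨0,[]⟩) .k .k) (.R ⟨0,false,false,false,[0,0,0,1],[1,-1,1],[1,0,0,-1,0,0,0,1],(⟨0,[(28,0)]⟩,⟨1,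
  [(27,0),(8,0),(0,0)]⟩),(⟨0,[(37,0),(1,0)]⟩,⟨0,[(13,0)]⟩),⟨0,[(0,0)]⟩,.k,.k,(.r (-1) ⟨3,[(6,1),(19,
  0),(18,0)]⟩ ⟨0,[(2,0),(32,0)]⟩),(.r 0 ⟨0,[(5,0),(35,0)]⟩ ⟨1,[(18,0),(6,0),(9,0)]⟩),.k,.k,⟨false,0,
  ⟨0,[]⟩,⟨3,[(25,0),(0,0),(17,1)]⟩⟩,⟨true,0,⟨0,[(12,0),(15,0)]⟩,⟨5,[(9,1),(17,2),(6,1),(1,2),(0,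
  2)]⟩⟩,⟨true,0,⟨0,[(2,0),(6,0),(4,1)]⟩,⟨0,[(5,0)]⟩⟩,⟨false,1,⟨1,[(11,1),(13,0),(2,1),(16,0)]⟩,⟨0,
  [(1,0),(6,0)]⟩⟩,⟨false,0,⟨0,[]⟩,⟨0,[]⟩⟩,⟨false,0,⟨0,[]⟩,⟨0,[]⟩⟩,[.o ⟨false,0,⟨0,[(11,0)]⟩,⟨3,[(8,
  1),(16,0),(0,0),(5,1),(5,0),(6,0)]⟩⟩,.o ⟨false,1,⟨3,[(11,1),(9,1),(16,0),(6,2)]⟩,⟨1,[(8,0),(20,0),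
  (17,0)]⟩⟩,.a ⟨true,0,⟨1,[(27,0),(8,0),(0,0)]⟩,⟨0,[(28,0)]⟩⟩ ⟨false,0,⟨0,[(4,0),(4,0),(4,1)]⟩,⟨11,
  [(5,3),(1,3),(15,3),(1,4),(0,2)]⟩⟩ ⟨true,0,⟨0,[(11,0),(16,0)]⟩,⟨1,[(8,0),(18,0),(4,0),(14,0)]⟩⟩,
  .o ⟨false,0,⟨1,[(27,0),(2,0),(2,0)]⟩,⟨1,[(28,1),(9,0),(5,0)]⟩⟩]⟩) (.Q [0,0,0,0,0,0,-1,-1,1,1,1,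
  -1] (.p true [1,-1,1] [0,0,0,1] (⟨0,[(37,0),(1,0)]⟩,⟨0,[(13,0)]⟩) .k 2 (⟨0,[(28,0)]⟩,⟨1,[(27,0),
  (8,0),(0,0)]⟩) .k (.r 0 ⟨0,[(2,0),(6,0),(4,0),(2,0)]⟩ ⟨10,[(2,1),(1,1),(0,0),(14,4),(5,5),(5,0),
  (0,0)]⟩)) (.R ⟨1,false,false,false,[0,0,0,1],[1,-1,1],[0,1,0,0,0,0,0,0,1],(⟨0,[(29,0)]⟩,⟨1,[(28,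
  0),(8,0),(0,0)]⟩),(⟨0,[(38,0),(1,0)]⟩,⟨0,[(14,0)]⟩),⟨0,[(1,0)]⟩,.k,.k,(.r (-1) ⟨3,[(7,1),(19,0),
  (18,0)]⟩ ⟨0,[(3,0),(32,0)]⟩),(.r 0 ⟨0,[(6,0),(35,0)]⟩ ⟨1,[(19,0),(6,0),(9,0)]⟩),.k,.k,⟨false,0,⟨0,
  [(6,0)]⟩,⟨1,[(3,0),(0,0),(3,0),(1,1),(4,2),(2,0),(27,0)]⟩⟩,⟨true,0,⟨0,[(13,0),(15,0)]⟩,⟨5,[(10,1),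
  (17,2),(6,1),(1,2),(0,2)]⟩⟩,⟨true,0,⟨0,[(48,0)]⟩,⟨0,[]⟩⟩,⟨false,1,⟨1,[(12,1),(13,0),(2,1),(16,
  0)]⟩,⟨0,[(2,0),(6,0)]⟩⟩,⟨false,0,⟨0,[(44,0)]⟩,⟨0,[(43,0),(2,0)]⟩⟩,⟨false,1,⟨5,[(8,1),(3,3),(5,3),
  (4,1),(2,2),(2,5),(15,0),(0,1)]⟩,⟨0,[(0,0)]⟩⟩,[.o ⟨false,0,⟨0,[(12,0)]⟩,⟨3,[(9,1),(16,0),(0,0),(5,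
  1),(5,0),(6,0)]⟩⟩,.o ⟨false,1,⟨3,[(12,1),(9,1),(16,0),(6,2)]⟩,⟨1,[(9,0),(20,0),(17,0)]⟩⟩,.a ⟨true,
  0,⟨1,[(28,0),(8,0),(0,0)]⟩,⟨0,[(29,0)]⟩⟩ ⟨false,0,⟨3,[(2,2),(3,0),(1,0),(1,0),(7,1),(10,2)]⟩,⟨1,
  [(26,0),(19,0)]⟩⟩ ⟨true,0,⟨0,[(12,0),(16,0)]⟩,⟨1,[(9,0),(18,0),(4,0),(14,0)]⟩⟩,.o ⟨false,0,⟨1,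
  [(28,0),(2,0),(2,0)]⟩,⟨1,[(29,1),(9,0),(5,0)]⟩⟩]⟩) (.R ⟨1,true,false,false,[0,0,0,1],[1,-1,1],[0,
  1,0,0,0,0,0,0,1],(⟨0,[(29,0)]⟩,⟨1,[(28,0),(8,0),(0,0)]⟩),(⟨0,[(38,0),(1,0)]⟩,⟨0,[(14,0)]⟩),⟨0,[(1,
  0)]⟩,.k,.k,(.r (-1) ⟨3,[(7,1),(19,0),(18,0)]⟩ ⟨0,[(3,0),(32,0)]⟩),(.r 0 ⟨0,[(6,0),(35,0)]⟩ ⟨1,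
  [(19,0),(6,0),(9,0)]⟩),.k,.k,⟨false,0,⟨0,[(6,0)]⟩,⟨7,[(0,3),(3,1),(5,3),(4,3),(10,0),(1,1),(8,1),
  (0,1),(7,4)]⟩⟩,⟨true,0,⟨0,[(13,0),(15,0)]⟩,⟨5,[(10,1),(17,2),(6,1),(1,2),(0,2)]⟩⟩,⟨true,0,⟨0,[(48,
  0)]⟩,⟨0,[]⟩⟩,⟨false,1,⟨0,[(0,0),(42,0),(2,0)]⟩,⟨0,[(2,0),(6,0)]⟩⟩,⟨false,0,⟨0,[(44,0)]⟩,⟨0,[(43,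
  0),(2,0)]⟩⟩,⟨true,0,⟨0,[(0,0)]⟩,⟨0,[(2,0),(6,0),(33,0)]⟩⟩,[]⟩))) (.R ⟨2,true,false,false,[0,1],[0,
  0,0,1],[0,1,1,1],(⟨0,[]⟩,⟨0,[]⟩),(⟨0,[(27,0)]⟩,⟨1,[(26,0),(8,0),(0,0)]⟩),⟨0,[]⟩,.k,.k,.k,(.r 0 ⟨0,
  [(1,0),(32,0)]⟩ ⟨3,[(5,1),(19,0),(18,0)]⟩),.k,.k,⟨false,0,⟨1,[(0,1),(25,0),(1,0),(1,0)]⟩,⟨0,[(3,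
  0),(1,0),(0,0),(1,0),(4,1)]⟩⟩,⟨true,0,⟨1,[(26,0),(2,0),(2,0)]⟩,⟨0,[(27,0)]⟩⟩,⟨true,0,⟨0,[(46,0)]⟩,
  ⟨0,[]⟩⟩,⟨false,1,⟨3,[(3,0),(1,1),(4,0),(10,0),(3,0),(0,1),(13,2),(3,0)]⟩,⟨0,[(0,0)]⟩⟩,⟨false,0,⟨0,
  [(42,0)]⟩,⟨0,[(41,0),(2,0)]⟩⟩,⟨true,0,⟨1,[(3,1),(0,1),(3,1),(1,0),(2,2),(12,0)]⟩,⟨0,[(0,0),(40,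
  0)]⟩⟩,[]⟩)))))

theorem ok81 : chk (cU (-1) false 2) t81 l53 = true := by decide +kernel

noncomputable def t84 : Tre :=
  (.Q [0,1,0,-1,0,0,-1,-1,1,0,1,-1] (.p true [0,0,1] [0,0,0,1] (⟨0,[(35,0)]⟩,⟨0,[(34,0)]⟩) .k 2 (⟨0,
  [(26,0)]⟩,⟨1,[(25,0),(8,0),(0,0)]⟩) .k (.r 0 ⟨2,[(3,2),(2,0),(20,0),(1,1),(11,0)]⟩ ⟨3,[(5,0),(12,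
  1),(5,1),(5,0),(0,0)]⟩)) (.Q [0,0,2,0,-1,0,-1,0,0,0,1] (.p true [0,0,1] [] (⟨0,[(36,0)]⟩,⟨0,[(35,
  0)]⟩) .k 0 (⟨0,[]⟩,⟨0,[]⟩) .k .k) (.Q [0,1,0,-1,0,0,-1,-1,0,0,1] (.p true [0,0,1] [] (⟨0,[(37,
  0)]⟩,⟨0,[(36,0)]⟩) .k 0 (⟨0,[]⟩,⟨0,[]⟩) .k .k) (.K ⟨1,[0,1,1],1,0,(⟨0,[(38,0),(2,0)]⟩,⟨0,[(20,
  0)]⟩),.k,.k,(.r 1 ⟨0,[(1,0),(16,0),(25,1)]⟩ ⟨5,[(19,1),(1,7),(4,0),(0,0)]⟩),.k,.k,[⟨0,[(1,0)]⟩,⟨3,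
  [(3,0),(9,0),(7,0),(2,0),(1,0),(0,0),(4,0),(1,0)]⟩,⟨0,[(0,0)]⟩,⟨0,[(3,0)]⟩]⟩) (.Q [0,-1,0,2,0,0,0,
  0,0,1] (.pp false [-1,1]) (.I [0,0,2,2,-1] (.R ⟨2,true,false,true,[0,1],[1,-1],[1,1,-1,-1],(⟨0,
  []⟩,⟨0,[]⟩),(⟨0,[(42,0)]⟩,⟨0,[(43,0)]⟩),⟨0,[]⟩,.k,.k,.k,(.r 1 ⟨0,[(0,0)]⟩ ⟨2,[(21,1),(1,1),(4,0),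
  (0,0)]⟩),.k,.k,⟨true,0,⟨0,[]⟩,⟨5,[(3,1),(24,0),(0,0),(6,1)]⟩⟩,⟨false,0,⟨1,[(15,0),(17,0)]⟩,⟨1,[(5,
  0),(0,1),(4,0),(33,0)]⟩⟩,⟨true,1,⟨0,[(6,0),(38,0)]⟩,⟨0,[(0,0)]⟩⟩,⟨false,1,⟨0,[(18,0),(26,0),(2,
  0)]⟩,⟨0,[(1,0)]⟩⟩,⟨false,1,⟨0,[(6,0)]⟩,⟨5,[(0,2),(2,1),(24,0),(0,0),(6,1),(11,2)]⟩⟩,⟨true,0,⟨0,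
  [(18,0)]⟩,⟨1,[(5,0),(5,0),(33,0)]⟩⟩,[]⟩) (.Q [0,0,0,0,0,0,1,1,-1,0,-1,1] (.p false [0,0,1] [0,0,0,
  1] (⟨0,[(40,0)]⟩,⟨0,[(39,0)]⟩) .k 2 (⟨0,[(31,0)]⟩,⟨1,[(30,0),(8,0),(0,0)]⟩) .k (.r 0 ⟨2,[(8,2),(2,
  0),(20,0),(1,1),(11,0)]⟩ ⟨3,[(10,0),(12,1),(5,1),(5,0),(0,0)]⟩)) (.Q [0,0,0,0,0,1,0,0,0,0,0,-1]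
  (.p false [0,0,0,1] [] (⟨0,[(32,0)]⟩,⟨1,[(31,0),(8,0),(0,0)]⟩) .k 0 (⟨0,[]⟩,⟨0,[]⟩) .k .k) (.R ⟨0,
  false,false,false,[0,0,0,1],[0,0,1],[1,0,1],(⟨0,[(33,0)]⟩,⟨1,[(32,0),(8,0),(0,0)]⟩),(⟨0,[(42,0)]⟩,
  ⟨0,[(41,0)]⟩),⟨0,[(0,0)]⟩,.k,.k,(.r (-1) ⟨1,[(2,0),(28,0)]⟩ ⟨5,[(1,1),(3,1),(6,1),(17,1),(1,0),(1,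
  0),(1,0),(11,1)]⟩),.k,.k,.k,⟨true,0,⟨0,[(9,0),(37,0)]⟩,⟨0,[(40,0)]⟩⟩,⟨false,1,⟨5,[(1,0),(5,1),(3,
  0),(5,1),(10,3),(4,4),(2,0),(12,0)]⟩,⟨1,[(29,0),(2,0)]⟩⟩,⟨false,0,⟨12,[(1,1),(3,1),(3,7),(0,6),(6,
  0),(12,1),(1,0),(4,0),(9,0)]⟩,⟨1,[(31,0),(17,0)]⟩⟩,⟨true,0,⟨0,[(1,0)]⟩,⟨0,[(6,0),(41,0)]⟩⟩,⟨false,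
  0,⟨0,[]⟩,⟨0,[]⟩⟩,⟨false,0,⟨0,[]⟩,⟨0,[]⟩⟩,[.o ⟨false,0,⟨0,[(22,0)]⟩,⟨1,[(37,1),(5,0),(6,0)]⟩⟩,.o
  ⟨false,1,⟨3,[(22,3),(7,0),(0,0),(18,1)]⟩,⟨0,[(34,0)]⟩⟩,.a ⟨true,0,⟨1,[(32,0),(8,0),(0,0)]⟩,⟨0,
  [(33,0)]⟩⟩ ⟨false,0,⟨0,[(46,0)]⟩,⟨3,[(30,0),(0,0),(17,1)]⟩⟩ ⟨true,0,⟨0,[(22,0),(10,0)]⟩,⟨1,[(32,
  0),(1,0),(2,0)]⟩⟩,.o ⟨false,0,⟨7,[(5,1),(11,2),(12,0),(0,0),(0,3),(2,0)]⟩,⟨1,[(33,1),(9,0),(5,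
  0)]⟩⟩]⟩) (.R ⟨1,false,false,true,[1,0,0,-1],[0,0,0,1],[0,1,0,0,0,0,0,0,-1],(⟨1,[(32,0),(8,0),(0,
  0)]⟩,⟨0,[(33,0)]⟩),(⟨0,[(33,0)]⟩,⟨1,[(32,0),(8,0),(0,0)]⟩),⟨0,[(0,0),(31,0)]⟩,.k,.k,(.r (-1) ⟨1,
  [(2,0),(27,0)]⟩ ⟨2,[(4,0),(0,0),(0,0),(5,0),(18,0),(1,0),(2,0),(11,0)]⟩),.k,(.r (-1) ⟨15,[(1,15),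
  (0,4),(7,9),(1,1),(0,3),(11,7),(4,2),(1,7),(1,11)]⟩ ⟨2,[(4,3),(0,0),(0,3),(5,0),(18,0),(1,3),(2,
  0),(11,0)]⟩),.k,⟨false,1,⟨15,[(1,15),(0,6),(7,5),(1,5),(0,3),(16,4),(1,7),(1,11),(14,3)]⟩,⟨0,[(4,
  1),(1,1),(26,1)]⟩⟩,⟨true,0,⟨0,[(32,0)]⟩,⟨1,[(17,0),(15,3),(1,0)]⟩⟩,⟨true,0,⟨0,[(52,0)]⟩,⟨0,[]⟩⟩,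
  ⟨false,0,⟨0,[(4,0),(1,1),(0,0)]⟩,⟨9,[(1,7),(8,5),(1,5),(12,5),(1,5),(2,2),(2,11),(0,1),(8,0)]⟩⟩,
  ⟨false,0,⟨0,[(48,0)]⟩,⟨0,[(47,0),(2,0)]⟩⟩,⟨false,0,⟨2,[(3,1),(0,3),(1,5),(0,0),(28,0)]⟩,⟨3,[(1,1),
  (7,1),(0,3),(14,1),(4,0),(2,5),(0,1),(8,0)]⟩⟩,[.o ⟨false,0,⟨1,[(4,0),(1,1),(29,0),(11,0)]⟩,⟨3,[(2,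
  0),(7,1),(1,1),(17,0),(2,3),(9,1)]⟩⟩,.o ⟨false,0,⟨0,[(4,0),(1,0)]⟩,⟨1,[(30,0),(2,1),(9,0)]⟩⟩,.a
  ⟨true,0,⟨0,[(33,0)]⟩,⟨1,[(32,0),(8,0),(0,0)]⟩⟩ ⟨true,0,⟨1,[(1,1),(30,0),(1,0),(2,0)]⟩,⟨0,[(4,0),
  (1,0),(26,0)]⟩⟩ ⟨false,0,⟨1,[(4,0),(1,1),(0,0),(24,0)]⟩,⟨3,[(2,0),(7,1),(1,1),(17,0),(2,7),(9,
  1)]⟩⟩,.o ⟨false,0,⟨1,[(17,0),(15,1),(1,0)]⟩,⟨7,[(30,0),(0,0),(0,3),(10,1),(5,3)]⟩⟩]⟩)) (.Q [0,0,0,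
  0,0,1,0,0,0,0,0,-1] (.p false [0,0,0,1] [] (⟨0,[(32,0)]⟩,⟨1,[(31,0),(8,0),(0,0)]⟩) .k 0 (⟨0,[]⟩,
  ⟨0,[]⟩) .k .k) (.R ⟨0,false,false,true,[0,0,0,1],[1,-1],[1,1,0,-1,0,0,0,0,1],(⟨0,[(33,0)]⟩,⟨1,
  [(32,0),(8,0),(0,0)]⟩),(⟨0,[(44,0)]⟩,⟨0,[(45,0)]⟩),⟨0,[(0,0)]⟩,.k,.k,(.r (-1) ⟨1,[(2,0),(28,0)]⟩
  ⟨10,[(5,1),(4,6),(1,4),(0,3),(1,1),(2,2),(5,0),(5,1),(3,4),(1,6)]⟩),(.r 0 ⟨5,[(1,1),(2,0),(0,1),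
  (6,1),(18,1),(1,1),(2,2),(11,0)]⟩ ⟨1,[(2,0),(27,0)]⟩),.k,.k,⟨false,0,⟨0,[(1,0),(20,0),(10,0)]⟩,⟨1,
  [(30,0),(18,0)]⟩⟩,⟨true,0,⟨1,[(17,0),(15,1),(1,0)]⟩,⟨1,[(32,0),(8,0),(0,0)]⟩⟩,⟨true,0,⟨0,[(47,
  0)]⟩,⟨0,[(48,0)]⟩⟩,⟨false,1,⟨1,[(2,0),(14,0),(12,0),(2,1),(1,0)]⟩,⟨0,[(1,0),(5,0)]⟩⟩,⟨false,0,⟨0,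
  []⟩,⟨0,[]⟩⟩,⟨false,0,⟨0,[]⟩,⟨0,[]⟩⟩,[.o ⟨false,0,⟨0,[(20,0)]⟩,⟨3,[(3,1),(26,0),(0,0),(11,0),(6,
  0)]⟩⟩,.o ⟨false,1,⟨3,[(2,1),(14,1),(12,0),(0,0),(3,1)]⟩,⟨0,[(48,0)]⟩⟩,.a ⟨true,0,⟨1,[(32,0),(8,0),
  (0,0)]⟩,⟨0,[(33,0)]⟩⟩ ⟨false,0,⟨0,[(1,0),(17,0),(13,0)]⟩,⟨3,[(3,1),(26,1),(12,0),(6,0)]⟩⟩ ⟨true,0,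
  ⟨0,[(20,0),(12,0)]⟩,⟨3,[(3,0),(9,0),(18,1),(3,0)]⟩⟩,.o ⟨false,0,⟨7,[(5,1),(11,2),(12,0),(0,0),(0,
  3),(2,0)]⟩,⟨1,[(33,1),(9,0),(5,0)]⟩⟩]⟩) (.Q [0,0,0,2,0,0,0,0,-1,0,0,1] (.p true [0,0,0,1] [] (⟨0,
  [(33,0)]⟩,⟨1,[(32,0),(8,0),(0,0)]⟩) .k 0 (⟨0,[]⟩,⟨0,[]⟩) .k .k) (.R ⟨1,false,false,false,[0,0,0,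
  1],[1,-1],[1,0,0,-1,0,0,0,0,1],(⟨0,[(34,0)]⟩,⟨1,[(33,0),(8,0),(0,0)]⟩),(⟨0,[(45,0)]⟩,⟨0,[(46,
  0)]⟩),⟨0,[(1,0)]⟩,.k,.k,(.r (-1) ⟨1,[(3,0),(28,0)]⟩ ⟨5,[(0,1),(5,1),(6,0),(4,0),(12,1),(1,0),(3,
  0)]⟩),(.r 0 ⟨5,[(2,1),(2,0),(0,1),(6,1),(18,1),(1,1),(2,2),(11,0)]⟩ ⟨1,[(3,0),(27,0)]⟩),.k,.k,
  ⟨false,0,⟨0,[(2,0),(20,0),(10,0)]⟩,⟨1,[(31,0),(18,0)]⟩⟩,⟨true,0,⟨1,[(18,0),(15,1),(1,0)]⟩,⟨1,[(33,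
  0),(8,0),(0,0)]⟩⟩,⟨false,1,⟨0,[(48,0),(2,0)]⟩,⟨0,[(49,0)]⟩⟩,⟨false,1,⟨7,[(10,1),(0,5),(6,0),(7,3),
  (4,0),(2,7),(1,0),(7,2)]⟩,⟨3,[(2,2),(4,0),(0,2),(5,0),(22,1)]⟩⟩,⟨true,0,⟨0,[]⟩,⟨0,[(53,0)]⟩⟩,
  ⟨false,1,⟨7,[(0,1),(9,1),(0,3),(14,1),(4,0),(2,5),(9,3),(6,0)]⟩,⟨0,[(7,0),(0,0)]⟩⟩,[.o ⟨false,1,
  ⟨3,[(3,1),(14,1),(12,0),(0,0),(3,1)]⟩,⟨0,[(49,0)]⟩⟩,.o ⟨false,1,⟨1,[(3,0),(14,0),(17,0),(14,0)]⟩,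
  ⟨2,[(14,0),(20,0),(1,1),(11,0)]⟩⟩,.a ⟨true,0,⟨1,[(33,0),(8,0),(0,0)]⟩,⟨0,[(34,0)]⟩⟩ ⟨true,0,⟨0,
  [(2,0),(17,0),(13,0)]⟩,⟨1,[(0,1),(20,0),(11,0),(14,0)]⟩⟩ ⟨false,1,⟨1,[(3,0),(14,0),(15,1),(1,0),
  (14,0)]⟩,⟨3,[(4,0),(9,0),(18,1),(3,0)]⟩⟩,.o ⟨false,0,⟨7,[(6,1),(11,2),(12,0),(0,0),(0,3),(2,0)]⟩,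
  ⟨1,[(34,1),(9,0),(5,0)]⟩⟩]⟩) (.R ⟨1,false,false,true,[0,0,0,1],[1,-1],[1,1,0,-1,0,0,0,0,1],(⟨0,
  [(34,0)]⟩,⟨1,[(33,0),(8,0),(0,0)]⟩),(⟨0,[(45,0)]⟩,⟨0,[(46,0)]⟩),⟨0,[(1,0)]⟩,.k,.k,(.r (-1) ⟨1,[(3,
  0),(28,0)]⟩ ⟨10,[(6,1),(4,6),(1,4),(0,3),(1,1),(2,2),(5,0),(5,1),(3,4),(1,6)]⟩),(.r 0 ⟨5,[(2,1),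
  (2,0),(0,1),(6,1),(18,1),(1,1),(2,2),(11,0)]⟩ ⟨1,[(3,0),(27,0)]⟩),.k,.k,⟨false,0,⟨4,[(0,0),(1,3),
  (2,1),(28,4),(2,1)]⟩,⟨1,[(31,0),(18,0)]⟩⟩,⟨true,0,⟨1,[(18,0),(15,1),(1,0)]⟩,⟨1,[(33,0),(8,0),(0,
  0)]⟩⟩,⟨true,0,⟨0,[(48,0)]⟩,⟨0,[(49,0)]⟩⟩,⟨false,1,⟨1,[(3,0),(14,0),(12,0),(2,1),(1,0)]⟩,⟨0,[(2,0),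
  (5,0)]⟩⟩,⟨false,0,⟨0,[]⟩,⟨3,[(31,0),(0,0),(18,1)]⟩⟩,⟨false,1,⟨1,[(31,0),(2,1),(9,0)]⟩,⟨0,[(0,0),
  (3,0)]⟩⟩,[.o ⟨false,0,⟨0,[(21,0)]⟩,⟨3,[(4,1),(26,0),(0,0),(11,0),(6,0)]⟩⟩,.o ⟨false,1,⟨3,[(3,1),
  (14,1),(12,0),(0,0),(3,1)]⟩,⟨0,[(49,0)]⟩⟩,.a ⟨true,0,⟨1,[(33,0),(8,0),(0,0)]⟩,⟨0,[(34,0)]⟩⟩
  ⟨false,0,⟨4,[(0,2),(1,1),(2,0),(28,4),(2,0)]⟩,⟨3,[(4,1),(26,1),(12,0),(6,0)]⟩⟩ ⟨true,0,⟨0,[(21,0),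
  (12,0)]⟩,⟨3,[(4,0),(9,0),(18,1),(3,0)]⟩⟩,.o ⟨false,0,⟨7,[(6,1),(11,2),(12,0),(0,0),(0,3),(2,0)]⟩,
  ⟨1,[(34,1),(9,0),(5,0)]⟩⟩]⟩))))) (.Q [0,1,0,0,0,0,0,0,-1,-1,0,1] (.p true [0,0,0,1] [1] (⟨0,[(30,
  0)]⟩,⟨1,[(29,0),(8,0),(0,0)]⟩) .k 1 (⟨0,[]⟩,⟨0,[]⟩) .k .k) (.Q [0,-1,0,1,0,0,0,0,1,1,0,-1] (.p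
  false [0,0,0,1] [1] (⟨0,[(31,0)]⟩,⟨1,[(30,0),(8,0),(0,0)]⟩) .k 1 (⟨0,[]⟩,⟨0,[]⟩) .k .k) (.R ⟨2,
  true,false,true,[0,1],[1,0,0,-1],[1,1,1],(⟨0,[]⟩,⟨0,[]⟩),(⟨1,[(31,0),(8,0),(0,0)]⟩,⟨0,[(32,0)]⟩),
  ⟨0,[]⟩,.k,.k,.k,(.r 0 ⟨5,[(0,1),(3,1),(6,0),(4,0),(13,1),(1,1),(0,0),(1,1),(11,1)]⟩ ⟨4,[(7,1),(1,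
  0),(14,0),(4,1),(16,0)]⟩),.k,.k,⟨false,0,⟨6,[(0,4),(4,1),(9,2),(16,6),(0,1),(1,0)]⟩,⟨1,[(29,0),
  (18,0)]⟩⟩,⟨true,0,⟨1,[(16,0),(15,1),(1,0)]⟩,⟨1,[(31,0),(8,0),(0,0)]⟩⟩,⟨true,0,⟨0,[(46,0)]⟩,⟨0,
  [(47,0)]⟩⟩,⟨false,1,⟨7,[(1,3),(0,3),(26,2),(0,0),(1,3),(16,3)]⟩,⟨0,[(0,0)]⟩⟩,⟨false,0,⟨0,[]⟩,⟨3,
  [(29,0),(0,0),(18,1)]⟩⟩,⟨true,0,⟨0,[(1,0)]⟩,⟨0,[(5,0),(0,0)]⟩⟩,[]⟩) (.Q [0,0,0,0,0,1,0,0,0,0,0,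
  -1] (.p false [0,0,0,1] [] (⟨0,[(32,0)]⟩,⟨1,[(31,0),(8,0),(0,0)]⟩) .k 0 (⟨0,[]⟩,⟨0,[]⟩) .k .k)
  (.R ⟨0,false,false,true,[0,0,0,1],[1,-1],[0,1,-1,-1],(⟨0,[(33,0)]⟩,⟨1,[(32,0),(8,0),(0,0)]⟩),(⟨0,
  [(44,0)]⟩,⟨0,[(45,0)]⟩),⟨0,[(0,0)]⟩,.k,.k,(.r (-1) ⟨3,[(11,1),(19,0),(18,0)]⟩ ⟨29,[(2,9),(1,2),(0,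
  9),(1,2),(4,9),(0,1),(16,9),(1,4),(3,5)]⟩),(.r 0 ⟨2,[(4,0),(0,0),(0,0),(5,0),(18,0),(1,0),(2,0),
  (11,0)]⟩ ⟨4,[(8,1),(1,0),(14,0),(4,1),(16,0)]⟩),.k,.k,⟨false,1,⟨3,[(30,0),(0,0),(17,1)]⟩,⟨0,[]⟩⟩,
  ⟨true,0,⟨1,[(17,0),(15,1),(1,0)]⟩,⟨1,[(32,0),(8,0),(0,0)]⟩⟩,⟨false,1,⟨4,[(8,1),(1,0),(14,0),(4,1),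
  (16,0)]⟩,⟨9,[(4,8),(0,2),(0,3),(2,4),(4,0),(16,2),(1,3)]⟩⟩,⟨true,0,⟨0,[(1,0)]⟩,⟨4,[(4,2),(1,4),(0,
  2),(5,1),(22,0)]⟩⟩,⟨false,0,⟨0,[]⟩,⟨0,[]⟩⟩,⟨false,0,⟨0,[]⟩,⟨0,[]⟩⟩,[.o ⟨false,0,⟨0,[(20,0)]⟩,⟨5,
  [(7,1),(5,1),(16,0),(0,0),(11,1),(6,1)]⟩⟩,.o ⟨false,1,⟨3,[(3,1),(26,0),(0,0),(11,0),(6,0)]⟩,⟨0,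
  [(48,0)]⟩⟩,.a ⟨true,0,⟨1,[(32,0),(8,0),(0,0)]⟩,⟨0,[(33,0)]⟩⟩ ⟨false,1,⟨5,[(23,1),(1,1),(4,0),(0,
  0)]⟩,⟨11,[(5,1),(1,3),(4,3),(4,0),(17,2),(14,1)]⟩⟩ ⟨true,0,⟨0,[(20,0),(12,0)]⟩,⟨9,[(4,0),(2,0),(5,
  3),(18,4),(3,1)]⟩⟩,.o ⟨false,0,⟨7,[(5,1),(11,2),(12,0),(0,0),(0,3),(2,0)]⟩,⟨1,[(33,1),(9,0),(5,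
  0)]⟩⟩]⟩) (.R ⟨1,false,false,false,[0,0,0,1],[1,-1],[0,0,0,0,0,0,0,0,1],(⟨0,[(33,0)]⟩,⟨1,[(32,0),
  (8,0),(0,0)]⟩),(⟨0,[(44,0)]⟩,⟨0,[(45,0)]⟩),⟨0,[(0,0)]⟩,.k,.k,(.r (-1) ⟨3,[(11,1),(19,0),(18,0)]⟩
  ⟨29,[(2,9),(1,2),(0,9),(1,2),(4,9),(0,1),(16,9),(1,4),(3,5)]⟩),(.r 0 ⟨2,[(4,0),(0,0),(0,0),(5,0),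
  (18,0),(1,0),(2,0),(11,0)]⟩ ⟨4,[(8,1),(1,0),(14,0),(4,1),(16,0)]⟩),.k,.k,⟨false,0,⟨0,[(4,0),(1,0),
  (26,0),(14,0)]⟩,⟨4,[(8,1),(1,0),(14,0),(4,1),(16,0)]⟩⟩,⟨true,0,⟨1,[(17,0),(15,1),(1,0)]⟩,⟨1,[(32,
  0),(8,0),(0,0)]⟩⟩,⟨false,1,⟨3,[(30,0),(0,0),(18,1)]⟩,⟨0,[]⟩⟩,⟨false,1,⟨0,[(1,0),(48,0)]⟩,⟨4,[(4,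
  2),(1,4),(0,2),(5,1),(22,0)]⟩⟩,⟨true,0,⟨0,[(48,0)]⟩,⟨0,[(47,0)]⟩⟩,⟨false,1,⟨0,[(2,0),(47,0)]⟩,⟨0,
  [(6,0),(0,0)]⟩⟩,[.o ⟨false,1,⟨3,[(3,1),(26,0),(0,0),(11,0),(6,0)]⟩,⟨0,[(48,0)]⟩⟩,.o ⟨false,1,⟨3,
  [(3,1),(39,0),(6,2)]⟩,⟨2,[(13,0),(20,0),(1,1),(11,0)]⟩⟩,.a ⟨true,0,⟨1,[(32,0),(8,0),(0,0)]⟩,⟨0,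
  [(33,0)]⟩⟩ ⟨true,0,⟨0,[(4,0),(1,0),(26,0)]⟩,⟨5,[(1,3),(0,1),(4,0),(5,1),(12,0),(5,2)]⟩⟩ ⟨false,1,
  ⟨3,[(3,1),(29,3),(9,0),(6,2)]⟩,⟨9,[(4,0),(2,0),(5,3),(18,4),(3,1)]⟩⟩,.o ⟨false,0,⟨7,[(5,1),(11,2),
  (12,0),(0,0),(0,3),(2,0)]⟩,⟨1,[(33,1),(9,0),(5,0)]⟩⟩]⟩))) (.Q [0,0,0,0,0,-1,0,0,0,1,0,-1] (.p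
  false [0,0,0,1] [1] (⟨0,[(31,0)]⟩,⟨1,[(30,0),(8,0),(0,0)]⟩) .k 1 (⟨0,[]⟩,⟨0,[]⟩) .k .k) (.I [0,0,
  2,2,-1,0,0,0,1] (.R ⟨1,false,false,false,[1,0,0,-1],[0,1],[1,0,0,-1,0,0,0,0,-1],(⟨1,[(32,0),(8,0),
  (0,0)]⟩,⟨0,[(33,0)]⟩),(⟨0,[(45,0)]⟩,⟨0,[(44,0)]⟩),⟨0,[(1,0)]⟩,.k,.k,(.r (-1) ⟨4,[(8,1),(1,0),(14,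
  0),(4,1),(16,0)]⟩ ⟨7,[(0,3),(29,0),(0,2)]⟩),(.r (-1) ⟨4,[(8,1),(1,0),(14,0),(4,1),(16,0)]⟩ ⟨7,[(0,
  3),(29,0),(0,2)]⟩),(.r (-2) ⟨11,[(23,7),(1,7),(4,6),(0,0)]⟩ ⟨0,[(0,0)]⟩),.k,⟨true,1,⟨4,[(8,0),(1,
  2),(14,2),(4,0),(16,2)]⟩,⟨0,[(0,0)]⟩⟩,⟨false,1,⟨5,[(7,0),(0,4),(4,1),(18,2),(3,0),(12,0)]⟩,⟨1,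
  [(17,0),(15,1),(1,0)]⟩⟩,⟨false,1,⟨0,[(47,0),(2,0)]⟩,⟨0,[(48,0)]⟩⟩,⟨false,0,⟨10,[(0,1),(1,8),(1,2),
  (8,1),(18,0),(1,0),(14,1)]⟩,⟨3,[(3,1),(26,1),(2,3),(9,0),(6,0)]⟩⟩,⟨true,0,⟨0,[]⟩,⟨0,[(52,0)]⟩⟩,
  ⟨false,0,⟨10,[(0,3),(1,6),(1,5),(8,3),(18,1),(1,1),(14,3)]⟩,⟨1,[(3,1),(26,0),(2,1),(16,0)]⟩⟩,[.o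
  ⟨false,0,⟨0,[(48,0)]⟩,⟨3,[(3,1),(26,0),(0,0),(11,0),(6,0)]⟩⟩,.o ⟨false,1,⟨5,[(7,1),(5,1),(16,0),
  (0,0),(11,1),(6,1)]⟩,⟨0,[(20,0)]⟩⟩,.a ⟨true,0,⟨0,[(33,0)]⟩,⟨1,[(32,0),(8,0),(0,0)]⟩⟩ ⟨false,1,⟨15,
  [(5,1),(4,5),(14,5),(4,4),(7,1),(8,3),(2,6)]⟩,⟨0,[(0,0),(7,0)]⟩⟩ ⟨true,0,⟨9,[(4,0),(2,0),(5,3),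
  (18,4),(3,1)]⟩,⟨0,[(20,0),(12,0)]⟩⟩,.o ⟨false,0,⟨1,[(17,0),(15,1),(1,0)]⟩,⟨7,[(30,0),(0,0),(0,3),
  (10,1),(5,3)]⟩⟩]⟩) (.Q [0,0,0,0,0,1,0,0,0,0,0,-1] (.p false [0,0,0,1] [] (⟨0,[(33,0)]⟩,⟨1,[(32,0),
  (8,0),(0,0)]⟩) .k 0 (⟨0,[]⟩,⟨0,[]⟩) .k .k) (.R ⟨0,false,false,true,[0,0,0,1],[1,-1],[0,1,0,0,0,0,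
  0,0,1],(⟨0,[(34,0)]⟩,⟨1,[(33,0),(8,0),(0,0)]⟩),(⟨0,[(45,0)]⟩,⟨0,[(46,0)]⟩),⟨0,[(0,0)]⟩,.k,.k,(.r
  (-1) ⟨3,[(12,1),(19,0),(18,0)]⟩ ⟨10,[(6,1),(4,6),(1,4),(0,3),(1,1),(2,2),(5,0),(5,1),(3,4),(1,
  6)]⟩),(.r 0 ⟨2,[(5,0),(0,0),(0,0),(5,0),(18,0),(1,0),(2,0),(11,0)]⟩ ⟨4,[(1,0),(22,0),(1,0),(4,
  1)]⟩),.k,.k,⟨false,0,⟨0,[(5,0),(1,0),(26,0),(14,0)]⟩,⟨4,[(1,0),(22,0),(1,0),(4,1)]⟩⟩,⟨true,0,⟨1,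
  [(18,0),(15,1),(1,0)]⟩,⟨1,[(33,0),(8,0),(0,0)]⟩⟩,⟨true,0,⟨0,[(53,0)]⟩,⟨0,[]⟩⟩,⟨false,1,⟨3,[(4,1),
  (26,1),(2,3),(9,0),(6,0)]⟩,⟨0,[(3,0),(45,0)]⟩⟩,⟨false,0,⟨0,[]⟩,⟨0,[]⟩⟩,⟨false,0,⟨0,[]⟩,⟨0,[]⟩⟩,
  [.o ⟨false,0,⟨0,[(21,0)]⟩,⟨5,[(8,1),(5,1),(16,0),(0,0),(11,1),(6,1)]⟩⟩,.o ⟨false,1,⟨3,[(4,1),(26,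
  0),(0,0),(11,0),(6,0)]⟩,⟨0,[(49,0)]⟩⟩,.a ⟨true,0,⟨1,[(33,0),(8,0),(0,0)]⟩,⟨0,[(34,0)]⟩⟩ ⟨false,0,
  ⟨0,[(5,0),(1,0),(26,0)]⟩,⟨1,[(31,0),(19,0)]⟩⟩ ⟨true,0,⟨0,[(21,0),(12,0)]⟩,⟨9,[(5,0),(2,0),(5,3),
  (18,4),(3,1)]⟩⟩,.o ⟨false,0,⟨7,[(6,1),(11,2),(12,0),(0,0),(0,3),(2,0)]⟩,⟨1,[(34,1),(9,0),(5,
  0)]⟩⟩]⟩) (.R ⟨1,false,false,true,[0,0,0,1],[1,-1],[0,1,0,0,0,0,0,0,1],(⟨0,[(34,0)]⟩,⟨1,[(33,0),(8,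
  0),(0,0)]⟩),(⟨0,[(45,0)]⟩,⟨0,[(46,0)]⟩),⟨0,[(0,0)]⟩,.k,.k,(.r (-1) ⟨3,[(12,1),(19,0),(18,0)]⟩ ⟨10,
  [(6,1),(4,6),(1,4),(0,3),(1,1),(2,2),(5,0),(5,1),(3,4),(1,6)]⟩),(.r 0 ⟨2,[(5,0),(0,0),(0,0),(5,0),
  (18,0),(1,0),(2,0),(11,0)]⟩ ⟨4,[(1,0),(22,0),(1,0),(4,1)]⟩),.k,.k,⟨false,0,⟨0,[(5,0),(1,0),(26,0),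
  (14,0)]⟩,⟨4,[(1,0),(22,0),(1,0),(4,1)]⟩⟩,⟨true,0,⟨1,[(18,0),(15,1),(1,0)]⟩,⟨1,[(33,0),(8,0),(0,
  0)]⟩⟩,⟨true,0,⟨0,[(53,0)]⟩,⟨0,[]⟩⟩,⟨false,1,⟨3,[(4,1),(26,1),(2,3),(9,0),(6,0)]⟩,⟨0,[(3,0),(45,
  0)]⟩⟩,⟨false,0,⟨0,[(49,0)]⟩,⟨0,[(48,0),(2,0)]⟩⟩,⟨false,1,⟨1,[(31,0),(2,1),(9,0)]⟩,⟨0,[(3,0)]⟩⟩,
  [.o ⟨false,0,⟨0,[(21,0)]⟩,⟨5,[(8,1),(5,1),(16,0),(0,0),(11,1),(6,1)]⟩⟩,.o ⟨false,1,⟨3,[(4,1),(26,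
  0),(0,0),(11,0),(6,0)]⟩,⟨0,[(49,0)]⟩⟩,.a ⟨true,0,⟨1,[(33,0),(8,0),(0,0)]⟩,⟨0,[(34,0)]⟩⟩ ⟨false,0,
  ⟨0,[(5,0),(1,0),(26,0)]⟩,⟨1,[(31,0),(19,0)]⟩⟩ ⟨true,0,⟨0,[(21,0),(12,0)]⟩,⟨9,[(5,0),(2,0),(5,3),
  (18,4),(3,1)]⟩⟩,.o ⟨false,0,⟨7,[(6,1),(11,2),(12,0),(0,0),(0,3),(2,0)]⟩,⟨1,[(34,1),(9,0),(5,
  0)]⟩⟩]⟩))) (.R ⟨0,false,false,true,[0,0,0,1],[1,-1],[0,1,0,0,0,0,0,0,1],(⟨0,[(32,0)]⟩,⟨1,[(31,0),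
  (8,0),(0,0)]⟩),(⟨0,[(43,0)]⟩,⟨0,[(44,0)]⟩),⟨0,[(0,0),(30,0)]⟩,.k,.k,(.r (-1) ⟨3,[(10,1),(19,0),
  (18,0)]⟩ ⟨10,[(4,1),(4,6),(1,4),(0,3),(1,1),(2,2),(5,0),(5,1),(3,4),(1,6)]⟩),(.r 0 ⟨2,[(3,0),(0,
  0),(0,0),(5,0),(18,0),(1,0),(2,0),(11,0)]⟩ ⟨4,[(7,1),(1,0),(14,0),(4,1),(16,0)]⟩),.k,.k,⟨false,0,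
  ⟨0,[(3,0),(1,0),(26,0),(14,0)]⟩,⟨4,[(7,1),(1,0),(14,0),(4,1),(16,0)]⟩⟩,⟨true,0,⟨1,[(16,0),(15,1),
  (1,0)]⟩,⟨1,[(31,0),(8,0),(0,0)]⟩⟩,⟨true,0,⟨0,[(51,0)]⟩,⟨0,[]⟩⟩,⟨false,1,⟨3,[(2,1),(26,1),(2,3),(9,
  0),(6,0)]⟩,⟨0,[(1,0),(45,0)]⟩⟩,⟨false,0,⟨0,[]⟩,⟨0,[]⟩⟩,⟨false,0,⟨0,[]⟩,⟨0,[]⟩⟩,[.o ⟨false,0,⟨0,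
  [(19,0)]⟩,⟨5,[(6,1),(5,1),(16,0),(0,0),(11,1),(6,1)]⟩⟩,.o ⟨false,1,⟨3,[(2,1),(26,0),(0,0),(11,0),
  (6,0)]⟩,⟨0,[(47,0)]⟩⟩,.a ⟨true,0,⟨1,[(31,0),(8,0),(0,0)]⟩,⟨0,[(32,0)]⟩⟩ ⟨false,0,⟨0,[(3,0),(1,0),
  (26,0)]⟩,⟨1,[(29,0),(19,0)]⟩⟩ ⟨true,0,⟨0,[(19,0),(12,0)]⟩,⟨9,[(3,0),(2,0),(5,3),(18,4),(3,1)]⟩⟩,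
  .o ⟨false,0,⟨7,[(4,1),(11,2),(12,0),(0,0),(0,3),(2,0)]⟩,⟨1,[(32,1),(9,0),(5,0)]⟩⟩]⟩))))) (.Q [0,
  -1,0,1,0,0,0,0,1,1,0,-1] (.p false [0,0,0,1] [1] (⟨0,[(28,0)]⟩,⟨1,[(27,0),(8,0),(0,0)]⟩) .k 1 (⟨0,
  []⟩,⟨0,[]⟩) .k .k) (.Q [0,0,0,0,0,1,0,0,0,0,0,-1] (.p false [0,0,0,1] [] (⟨0,[(29,0)]⟩,⟨1,[(28,0),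
  (8,0),(0,0)]⟩) .k 0 (⟨0,[]⟩,⟨0,[]⟩) .k .k) (.R ⟨0,false,false,true,[0,0,0,1],[1,-1],[0,1,0,0,0,0,
  0,0,1],(⟨0,[(30,0)]⟩,⟨1,[(29,0),(8,0),(0,0)]⟩),(⟨0,[(41,0)]⟩,⟨0,[(42,0)]⟩),⟨0,[(0,0)]⟩,.k,.k,(.r
  (-1) ⟨3,[(8,1),(19,0),(18,0)]⟩ ⟨0,[(7,0),(1,0),(39,1)]⟩),(.r 0 ⟨5,[(1,3),(1,1),(5,1),(4,0),(15,5),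
  (1,2),(0,3)]⟩ ⟨4,[(5,1),(1,0),(14,0),(4,1),(16,0)]⟩),.k,.k,⟨false,0,⟨2,[(1,2),(11,0),(16,2),(0,1),
  (1,0),(11,0)]⟩,⟨4,[(5,1),(1,0),(14,0),(4,1),(16,0)]⟩⟩,⟨true,0,⟨1,[(14,0),(15,1),(1,0)]⟩,⟨1,[(29,
  0),(8,0),(0,0)]⟩⟩,⟨true,0,⟨0,[(49,0)]⟩,⟨0,[]⟩⟩,⟨false,1,⟨11,[(7,1),(6,3),(2,1),(2,1),(1,3),(4,4),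
  (2,11),(1,3),(7,0)]⟩,⟨0,[(1,0)]⟩⟩,⟨false,0,⟨0,[]⟩,⟨0,[]⟩⟩,⟨false,0,⟨0,[]⟩,⟨0,[]⟩⟩,[.o ⟨false,0,⟨0,
  [(17,0)]⟩,⟨5,[(4,1),(5,1),(16,0),(0,0),(11,1),(6,1)]⟩⟩,.o ⟨false,1,⟨1,[(40,0),(3,1),(2,0)]⟩,⟨0,
  [(45,0)]⟩⟩,.a ⟨true,0,⟨1,[(29,0),(8,0),(0,0)]⟩,⟨0,[(30,0)]⟩⟩ ⟨false,0,⟨6,[(1,4),(1,1),(9,2),(16,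
  6),(0,1),(1,0)]⟩,⟨1,[(27,0),(19,0)]⟩⟩ ⟨true,0,⟨0,[(17,0),(12,0)]⟩,⟨5,[(4,0),(5,1),(18,2),(3,0),
  (11,0)]⟩⟩,.o ⟨false,0,⟨1,[(29,0),(2,0),(2,0)]⟩,⟨1,[(30,1),(9,0),(5,0)]⟩⟩]⟩) (.I [1,0,0,-1,0,0,0,0,
  1] (.Q [0,0,0,1,0,0,1,1,-1,0,-1,1] (.p false [0,0,1] [0,0,0,1] (⟨0,[(40,0)]⟩,⟨0,[(39,0)]⟩) .k 2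
  (⟨0,[(31,0)]⟩,⟨1,[(30,0),(8,0),(0,0)]⟩) .k (.r 0 ⟨2,[(8,2),(2,0),(20,0),(1,1),(11,0)]⟩ ⟨3,[(10,0),
  (12,1),(5,1),(5,0),(0,0)]⟩)) (.R ⟨1,false,false,false,[0,0,0,1],[1,-1],[1,0,0,-1,0,0,0,0,1],(⟨0,
  [(32,0)]⟩,⟨1,[(31,0),(8,0),(0,0)]⟩),(⟨0,[(43,0)]⟩,⟨0,[(44,0)]⟩),⟨0,[(2,0)]⟩,.k,.k,(.r (-1) ⟨3,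
  [(10,1),(19,0),(18,0)]⟩ ⟨2,[(0,1),(8,0),(1,0),(19,0),(2,0),(1,1),(0,0)]⟩),(.r 0 ⟨3,[(1,2),(1,0),
  (7,1),(0,0),(19,0),(1,1),(0,2)]⟩ ⟨4,[(7,1),(1,0),(14,0),(4,1),(16,0)]⟩),.k,.k,⟨false,0,⟨0,[(1,0),
  (45,0)]⟩,⟨1,[(29,0),(18,0)]⟩⟩,⟨true,0,⟨1,[(16,0),(15,1),(1,0)]⟩,⟨1,[(31,0),(8,0),(0,0)]⟩⟩,⟨false,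
  1,⟨1,[(1,1),(27,0),(19,0)]⟩,⟨0,[(47,0)]⟩⟩,⟨false,1,⟨7,[(8,1),(0,5),(6,0),(7,3),(4,0),(2,7),(1,0),
  (7,2)]⟩,⟨3,[(3,2),(1,0),(6,0),(22,1)]⟩⟩,⟨true,0,⟨0,[]⟩,⟨0,[(51,0)]⟩⟩,⟨false,1,⟨21,[(4,1),(4,11),
  (1,7),(12,3),(1,1),(2,4),(2,21),(9,9),(6,0)]⟩,⟨0,[(5,0),(0,0)]⟩⟩,[.o ⟨false,1,⟨1,[(1,1),(27,0),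
  (12,0)]⟩,⟨0,[(47,0)]⟩⟩,.o ⟨false,1,⟨5,[(1,1),(7,1),(6,0),(7,1),(9,0),(7,1),(6,1)]⟩,⟨2,[(12,0),(20,
  0),(1,1),(11,0)]⟩⟩,.a ⟨true,0,⟨1,[(31,0),(8,0),(0,0)]⟩,⟨0,[(32,0)]⟩⟩ ⟨true,0,⟨0,[(1,0)]⟩,⟨1,[(0,
  1),(30,0),(1,0),(2,0)]⟩⟩ ⟨false,1,⟨5,[(1,1),(7,1),(6,0),(7,1),(7,5),(1,0),(7,1),(6,1)]⟩,⟨5,[(6,0),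
  (5,1),(18,2),(3,0),(11,0)]⟩⟩,.o ⟨false,0,⟨1,[(31,0),(2,0),(2,0)]⟩,⟨1,[(32,1),(9,0),(5,0)]⟩⟩]⟩)
  (.R ⟨1,false,false,true,[0,0,0,1],[1,-1],[0,1,0,0,0,0,0,0,1],(⟨0,[(32,0)]⟩,⟨1,[(31,0),(8,0),(0,
  0)]⟩),(⟨0,[(43,0)]⟩,⟨0,[(44,0)]⟩),⟨0,[(2,0)]⟩,.k,.k,(.r (-1) ⟨3,[(10,1),(19,0),(18,0)]⟩ ⟨0,[(9,0),
  (1,0),(39,1)]⟩),(.r 0 ⟨3,[(1,2),(1,0),(7,1),(0,0),(19,0),(1,1),(0,2)]⟩ ⟨4,[(7,1),(1,0),(14,0),(4,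
  1),(16,0)]⟩),.k,.k,⟨false,0,⟨0,[(1,0),(45,1)]⟩,⟨4,[(7,1),(1,0),(14,0),(4,1),(16,0)]⟩⟩,⟨true,0,⟨1,
  [(16,0),(15,1),(1,0)]⟩,⟨1,[(31,0),(8,0),(0,0)]⟩⟩,⟨true,0,⟨0,[(51,0)]⟩,⟨0,[]⟩⟩,⟨false,1,⟨11,[(9,1),
  (6,3),(2,1),(2,1),(1,3),(4,4),(2,11),(1,3),(7,0)]⟩,⟨0,[(3,0)]⟩⟩,⟨false,0,⟨0,[(47,0)]⟩,⟨1,[(1,1),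
  (27,0),(19,0)]⟩⟩,⟨false,1,⟨1,[(29,0),(2,1),(9,0)]⟩,⟨0,[(0,0),(5,0)]⟩⟩,[.o ⟨false,0,⟨0,[(19,0)]⟩,
  ⟨5,[(6,1),(5,1),(16,0),(0,0),(11,1),(6,1)]⟩⟩,.o ⟨false,1,⟨1,[(1,1),(27,0),(12,0)]⟩,⟨0,[(47,0)]⟩⟩,
  .a ⟨true,0,⟨1,[(31,0),(8,0),(0,0)]⟩,⟨0,[(32,0)]⟩⟩ ⟨false,0,⟨0,[(1,0),(45,0)]⟩,⟨1,[(29,0),(19,
  0)]⟩⟩ ⟨true,0,⟨0,[(19,0),(12,0)]⟩,⟨5,[(6,0),(5,1),(18,2),(3,0),(11,0)]⟩⟩,.o ⟨false,0,⟨1,[(31,0),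
  (2,0),(2,0)]⟩,⟨1,[(32,1),(9,0),(5,0)]⟩⟩]⟩)) (.R ⟨2,true,false,true,[0,1],[1,0,0,-1],[0,1,1,1],(⟨0,
  []⟩,⟨0,[]⟩),(⟨1,[(30,0),(8,0),(0,0)]⟩,⟨0,[(31,0)]⟩),⟨0,[]⟩,.k,.k,.k,(.r 0 ⟨5,[(2,3),(1,1),(5,1),
  (4,0),(15,5),(1,2),(0,3)]⟩ ⟨4,[(6,1),(1,0),(14,0),(4,1),(16,0)]⟩),.k,.k,⟨false,0,⟨2,[(2,2),(11,0),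
  (16,2),(0,1),(1,0),(11,0)]⟩,⟨4,[(6,1),(1,0),(14,0),(4,1),(16,0)]⟩⟩,⟨true,0,⟨1,[(15,0),(15,1),(1,
  0)]⟩,⟨1,[(30,0),(8,0),(0,0)]⟩⟩,⟨true,0,⟨0,[(50,0)]⟩,⟨0,[]⟩⟩,⟨false,1,⟨11,[(8,1),(6,3),(2,1),(2,1),
  (1,3),(4,4),(2,11),(1,3),(7,0)]⟩,⟨0,[(2,0)]⟩⟩,⟨false,0,⟨0,[(46,0)]⟩,⟨0,[(45,0),(2,0)]⟩⟩,⟨true,0,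
  ⟨0,[(0,0),(17,0),(12,0)]⟩,⟨0,[(4,0),(0,0)]⟩⟩,[]⟩))) (.Q [0,0,0,0,0,1,0,0,0,0,0,-1] (.p false [0,0,
  0,1] [] (⟨0,[(29,0)]⟩,⟨1,[(28,0),(8,0),(0,0)]⟩) .k 0 (⟨0,[]⟩,⟨0,[]⟩) .k .k) (.R ⟨0,false,false,
  true,[0,0,0,1],[1,-1],[0,1,-1,-1],(⟨0,[(30,0)]⟩,⟨1,[(29,0),(8,0),(0,0)]⟩),(⟨0,[(41,0)]⟩,⟨0,[(42,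
  0)]⟩),⟨0,[(0,0)]⟩,.k,.k,(.r (-1) ⟨3,[(8,1),(19,0),(18,0)]⟩ ⟨6,[(1,3),(5,2),(1,4),(0,1),(18,1),(3,
  3),(2,1)]⟩),(.r 0 ⟨2,[(3,2),(0,1),(4,1),(9,1),(4,0),(5,2),(1,0),(0,0)]⟩ ⟨4,[(5,1),(1,0),(14,0),(4,
  1),(16,0)]⟩),.k,.k,⟨false,1,⟨3,[(27,0),(0,0),(17,1)]⟩,⟨0,[]⟩⟩,⟨true,0,⟨1,[(14,0),(15,1),(1,0)]⟩,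
  ⟨1,[(29,0),(8,0),(0,0)]⟩⟩,⟨false,1,⟨4,[(5,1),(1,0),(14,0),(4,1),(16,0)]⟩,⟨5,[(3,5),(0,6),(4,3),(3,
  2),(10,2),(5,5),(1,0),(10,0)]⟩⟩,⟨true,0,⟨0,[(1,0)]⟩,⟨0,[(3,0),(0,0),(40,0)]⟩⟩,⟨false,0,⟨0,[]⟩,⟨0,
  []⟩⟩,⟨false,0,⟨0,[]⟩,⟨0,[]⟩⟩,[.o ⟨false,0,⟨0,[(17,0)]⟩,⟨5,[(4,1),(5,1),(16,0),(0,0),(11,1),(6,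
  1)]⟩⟩,.o ⟨false,1,⟨1,[(40,0),(3,1),(2,0)]⟩,⟨0,[(45,0)]⟩⟩,.a ⟨true,0,⟨1,[(29,0),(8,0),(0,0)]⟩,⟨0,
  [(30,0)]⟩⟩ ⟨false,1,⟨5,[(20,1),(1,1),(4,0),(0,0)]⟩,⟨2,[(4,0),(4,0),(22,0),(10,0)]⟩⟩ ⟨true,0,⟨0,
  [(17,0),(12,0)]⟩,⟨5,[(4,0),(5,1),(18,2),(3,0),(11,0)]⟩⟩,.o ⟨false,0,⟨1,[(29,0),(2,0),(2,0)]⟩,⟨1,
  [(30,1),(9,0),(5,0)]⟩⟩]⟩) (.I [0,0,0,0,0,0,0,0,1] (.R ⟨1,false,false,true,[0,0,0,1],[1,-1],[0,1,0,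
  0,0,0,0,0,1],(⟨0,[(31,0)]⟩,⟨1,[(30,0),(8,0),(0,0)]⟩),(⟨0,[(42,0)]⟩,⟨0,[(43,0)]⟩),⟨0,[(1,0)]⟩,.k,
  .k,(.r (-1) ⟨3,[(9,1),(19,0),(18,0)]⟩ ⟨6,[(2,3),(5,2),(1,4),(0,1),(18,1),(3,3),(2,1)]⟩),(.r 0 ⟨1,
  [(0,1),(9,0),(23,0),(2,0)]⟩ ⟨4,[(6,1),(1,0),(14,0),(4,1),(16,0)]⟩),.k,.k,⟨false,0,⟨0,[(0,0),(45,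
  0)]⟩,⟨4,[(6,1),(1,0),(14,0),(4,1),(16,0)]⟩⟩,⟨true,0,⟨1,[(15,0),(15,1),(1,0)]⟩,⟨1,[(30,0),(8,0),(0,
  0)]⟩⟩,⟨true,0,⟨0,[(50,0)]⟩,⟨0,[]⟩⟩,⟨true,0,⟨0,[(2,0)]⟩,⟨5,[(0,5),(4,0),(5,1),(18,2),(3,0),(11,
  0)]⟩⟩,⟨false,0,⟨0,[(46,0)]⟩,⟨0,[(45,0),(2,0)]⟩⟩,⟨true,0,⟨0,[(2,0),(43,0)]⟩,⟨0,[(4,0),(0,0)]⟩⟩,[.o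
  ⟨false,0,⟨0,[(18,0)]⟩,⟨5,[(5,1),(5,1),(16,0),(0,0),(11,1),(6,1)]⟩⟩,.o ⟨false,1,⟨1,[(41,0),(3,1),
  (2,0)]⟩,⟨0,[(46,0)]⟩⟩,.a ⟨true,0,⟨1,[(30,0),(8,0),(0,0)]⟩,⟨0,[(31,0)]⟩⟩ ⟨false,0,⟨0,[(0,0)]⟩,⟨1,
  [(28,0),(19,0)]⟩⟩ ⟨true,0,⟨0,[(18,0),(12,0)]⟩,⟨5,[(5,0),(5,1),(18,2),(3,0),(11,0)]⟩⟩,.o ⟨false,0,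
  ⟨1,[(30,0),(2,0),(2,0)]⟩,⟨1,[(31,1),(9,0),(5,0)]⟩⟩]⟩) (.R ⟨0,false,false,true,[0,0,1],[1,0,0,-1],
  [1,1,1,0,0,0,0,0,-1],(⟨0,[(40,0)]⟩,⟨0,[(39,0)]⟩),(⟨1,[(30,0),(8,0),(0,0)]⟩,⟨0,[(31,0)]⟩),⟨0,[(16,
  0)]⟩,.k,.k,.k,.k,.k,.k,⟨false,0,⟨0,[]⟩,⟨3,[(28,0),(0,0),(17,1)]⟩⟩,⟨true,0,⟨0,[(25,0),(5,0)]⟩,⟨7,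
  [(13,1),(16,3),(5,4),(0,0),(1,3),(3,1)]⟩⟩,⟨false,0,⟨0,[(0,0),(6,0),(37,0)]⟩,⟨21,[(3,3),(1,11),(6,
  9),(1,7),(6,1),(3,3),(3,10),(18,4)]⟩⟩,⟨true,0,⟨0,[(0,0),(30,0),(0,0)]⟩,⟨0,[(4,0),(0,0),(14,0)]⟩⟩,
  ⟨false,0,⟨0,[]⟩,⟨0,[]⟩⟩,⟨false,0,⟨0,[]⟩,⟨0,[]⟩⟩,[.o ⟨false,0,⟨0,[(2,0),(43,0)]⟩,⟨12,[(3,0),(0,0),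
  (5,1),(3,2),(10,2),(3,5),(0,5),(17,5)]⟩⟩,.a ⟨true,0,⟨0,[(0,0),(30,0)]⟩,⟨0,[(4,0),(0,0)]⟩⟩ ⟨false,
  0,⟨0,[(0,0)]⟩,⟨1,[(29,0),(17,0)]⟩⟩ ⟨true,0,⟨4,[(2,3),(2,0),(2,0),(1,1),(1,1),(12,1),(5,0)]⟩,⟨0,
  [(4,0),(0,0),(30,0)]⟩⟩,.o ⟨false,1,⟨2,[(3,0),(24,0),(0,0),(6,1)]⟩,⟨0,[(25,0)]⟩⟩,.o ⟨false,0,⟨0,
  [(36,0)]⟩,⟨7,[(12,3),(15,0),(0,0),(11,3),(5,1)]⟩⟩]⟩))))) (.Q [0,0,2,0,-1,0,-1,0,0,0,1] (.p true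
  [0,0,1] [] (⟨0,[(36,0)]⟩,⟨0,[(35,0)]⟩) .k 0 (⟨0,[]⟩,⟨0,[]⟩) .k .k) (.Q [0,1,0,-1,0,0,-1,-1,0,0,1]
  (.p true [0,0,1] [] (⟨0,[(37,0)]⟩,⟨0,[(36,0)]⟩) .k 0 (⟨0,[]⟩,⟨0,[]⟩) .k .k) (.K ⟨1,[0,1,1],1,0,
  (⟨0,[(38,0),(2,0)]⟩,⟨0,[(20,0)]⟩),.k,.k,(.r 1 ⟨0,[(1,0),(16,0),(25,1)]⟩ ⟨5,[(19,1),(1,7),(4,0),(0,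
  0)]⟩),.k,.k,[⟨0,[(1,0)]⟩,⟨3,[(3,0),(9,0),(7,0),(2,0),(1,0),(0,0),(4,0),(1,0)]⟩,⟨0,[(0,0)]⟩,⟨0,[(3,
  0)]⟩]⟩) (.I [0,1,0,-1,0,0,0,0,1] (.I [0,0,2,2,-1,0,0,0,1] (.Q [0,0,0,0,0,-1,0,0,0,1,0,-1] (.p
  false [0,0,0,1] [1] (⟨0,[(31,0)]⟩,⟨1,[(30,0),(8,0),(0,0)]⟩) .k 1 (⟨0,[]⟩,⟨0,[]⟩) .k .k) (.I [1,1,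
  0,-1,0,0,0,0,-1] (.R ⟨1,false,false,true,[1,0,0,-1],[0,1],[1,1,0,-1,0,0,0,0,-1],(⟨1,[(32,0),(8,0),
  (0,0)]⟩,⟨0,[(33,0)]⟩),(⟨0,[(45,0)]⟩,⟨0,[(44,0)]⟩),⟨0,[(1,0)]⟩,.k,.k,(.r (-1) ⟨7,[(0,0),(7,1),(1,
  0),(12,0),(1,1),(4,2)]⟩ ⟨7,[(2,3),(27,0),(0,2)]⟩),(.r (-1) ⟨7,[(0,0),(7,1),(1,0),(12,0),(1,1),(4,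
  2)]⟩ ⟨7,[(2,3),(27,0),(0,2)]⟩),(.r (-2) ⟨11,[(23,7),(1,7),(4,6),(0,0)]⟩ ⟨0,[(2,0)]⟩),.k,⟨true,1,
  ⟨5,[(0,0),(9,2),(12,0),(1,3),(4,0),(16,1)]⟩,⟨0,[(2,0)]⟩⟩,⟨false,1,⟨7,[(0,0),(6,1),(0,2),(2,0),(1,
  1),(18,3),(16,3)]⟩,⟨1,[(17,0),(15,1),(1,0)]⟩⟩,⟨true,0,⟨0,[(47,0)]⟩,⟨0,[(48,0)]⟩⟩,⟨false,0,⟨1,[(2,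
  1),(5,1),(23,0),(8,0),(0,0)]⟩,⟨7,[(9,1),(0,5),(6,0),(7,3),(4,0),(2,7),(1,0),(7,2)]⟩⟩,⟨false,0,⟨0,
  []⟩,⟨3,[(30,0),(0,0),(18,1)]⟩⟩,⟨false,0,⟨25,[(2,20),(4,5),(3,4),(1,6),(18,12),(3,0),(12,15)]⟩,⟨1,
  [(10,1),(6,0),(7,1),(7,1),(1,0)]⟩⟩,[.o ⟨false,0,⟨2,[(13,0),(20,0),(1,1),(11,0)]⟩,⟨0,[(20,0),(29,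
  0)]⟩⟩,.o ⟨false,0,⟨0,[(48,0)]⟩,⟨1,[(43,0),(3,1),(2,0)]⟩⟩,.a ⟨true,0,⟨0,[(33,0)]⟩,⟨1,[(32,0),(8,0),
  (0,0)]⟩⟩ ⟨true,0,⟨0,[(0,0)]⟩,⟨0,[(2,0),(5,0)]⟩⟩ ⟨false,0,⟨9,[(4,0),(2,0),(5,3),(18,4),(3,1)]⟩,⟨0,
  [(20,0),(12,0),(16,0)]⟩⟩,.o ⟨false,0,⟨1,[(17,0),(15,1),(1,0)]⟩,⟨7,[(30,0),(0,0),(0,3),(10,1),(5,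
  3)]⟩⟩]⟩) (.R ⟨2,true,false,true,[0,1],[1,0,0,-1],[1,1,1],(⟨0,[]⟩,⟨0,[]⟩),(⟨1,[(32,0),(8,0),(0,
  0)]⟩,⟨0,[(33,0)]⟩),⟨0,[]⟩,.k,.k,.k,(.r 0 ⟨7,[(2,3),(27,0),(0,2)]⟩ ⟨4,[(8,1),(1,0),(14,0),(4,1),
  (16,0)]⟩),.k,.k,⟨false,0,⟨1,[(0,0),(2,0)]⟩,⟨1,[(30,0),(18,0)]⟩⟩,⟨true,0,⟨1,[(17,0),(15,1),(1,0)]⟩,
  ⟨1,[(32,0),(8,0),(0,0)]⟩⟩,⟨true,0,⟨0,[(47,0)]⟩,⟨0,[(48,0)]⟩⟩,⟨false,1,⟨11,[(10,1),(6,3),(2,1),(2,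
  1),(1,3),(4,4),(2,11),(1,3),(7,0)]⟩,⟨1,[(0,1),(31,0),(8,0),(0,0)]⟩⟩,⟨false,0,⟨0,[]⟩,⟨3,[(30,0),(0,
  0),(18,1)]⟩⟩,⟨true,0,⟨0,[(6,0),(13,0),(16,0)]⟩,⟨1,[(0,0),(2,0),(28,0),(8,0),(0,0)]⟩⟩,[]⟩)) (.R ⟨0,
  false,false,false,[0,0,0,1],[1,-1],[0,1,0,-1,0,0,0,0,1],(⟨0,[(32,0)]⟩,⟨1,[(31,0),(8,0),(0,0)]⟩),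
  (⟨0,[(43,0)]⟩,⟨0,[(44,0)]⟩),⟨0,[(0,0),(30,0)]⟩,.k,.k,(.r (-1) ⟨3,[(10,1),(19,0),(18,0)]⟩ ⟨13,[(1,
  3),(2,1),(0,5),(10,1),(12,5),(1,2),(1,0),(2,4)]⟩),(.r 0 ⟨7,[(1,3),(27,0),(0,2)]⟩ ⟨4,[(7,1),(1,0),
  (14,0),(4,1),(16,0)]⟩),.k,.k,⟨false,0,⟨1,[(1,0),(8,0),(40,0)]⟩,⟨3,[(7,1),(1,1),(1,1),(17,0),(18,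
  0)]⟩⟩,⟨true,0,⟨1,[(16,0),(15,1),(1,0)]⟩,⟨1,[(31,0),(8,0),(0,0)]⟩⟩,⟨true,0,⟨0,[(46,0)]⟩,⟨0,[(47,
  0)]⟩⟩,⟨false,1,⟨7,[(8,1),(0,5),(6,0),(7,3),(4,0),(2,7),(1,0),(7,2)]⟩,⟨1,[(1,1),(5,1),(23,0),(8,0),
  (0,0)]⟩⟩,⟨false,0,⟨0,[]⟩,⟨0,[]⟩⟩,⟨false,0,⟨0,[]⟩,⟨0,[]⟩⟩,[.o ⟨false,1,⟨1,[(42,0),(3,1),(2,0)]⟩,⟨0,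
  [(47,0)]⟩⟩,.o ⟨false,1,⟨0,[(19,0),(29,0)]⟩,⟨2,[(12,0),(20,0),(1,1),(11,0)]⟩⟩,.a ⟨true,0,⟨1,[(31,
  0),(8,0),(0,0)]⟩,⟨0,[(32,0)]⟩⟩ ⟨true,0,⟨0,[(2,0)]⟩,⟨1,[(5,1),(25,0),(1,0),(2,0)]⟩⟩ ⟨false,1,⟨0,
  [(19,0),(12,0),(16,0)]⟩,⟨9,[(3,0),(2,0),(5,3),(18,4),(3,1)]⟩⟩,.o ⟨false,0,⟨7,[(4,1),(11,2),(12,0),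
  (0,0),(0,3),(2,0)]⟩,⟨1,[(32,1),(9,0),(5,0)]⟩⟩]⟩)) (.Q [0,1,0,0,0,0,0,0,2,1,0,-2] (.p false [0,0,0,
  1] [1,0,0,-1] (⟨0,[(31,0)]⟩,⟨1,[(30,0),(8,0),(0,0)]⟩) .k 2 (⟨1,[(30,0),(8,0),(0,0)]⟩,⟨0,[(31,
  0)]⟩) .k .k) (.Q [0,0,0,0,0,1,0,0,0,0,0,-1] (.p false [0,0,0,1] [] (⟨0,[(32,0)]⟩,⟨1,[(31,0),(8,0),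
  (0,0)]⟩) .k 0 (⟨0,[]⟩,⟨0,[]⟩) .k .k) (.I [1,0,0,0,0,0,0,0,-1] (.R ⟨0,false,false,true,[0,0,0,1],
  [1,0,-1],[1,0,1],(⟨0,[(34,0)]⟩,⟨1,[(33,0),(8,0),(0,0)]⟩),(⟨0,[(42,0)]⟩,⟨0,[(43,0)]⟩),⟨0,[(1,0)]⟩,
  .k,.k,(.r (-1) ⟨3,[(12,1),(19,0),(18,0)]⟩ ⟨2,[(0,0),(5,0),(6,0),(17,0),(5,0),(11,0)]⟩),.k,.k,.k,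
  ⟨false,0,⟨1,[(8,0),(6,0),(1,0),(29,0)]⟩,⟨0,[(29,0),(23,0)]⟩⟩,⟨true,0,⟨0,[(28,0),(5,0)]⟩,⟨23,[(6,
  1),(9,5),(14,0),(0,0),(0,11),(5,13),(2,11),(3,5)]⟩⟩,⟨false,0,⟨5,[(0,0),(5,0),(3,2),(0,2),(19,0),
  (7,0)]⟩,⟨1,[(32,0),(17,0)]⟩⟩,⟨true,0,⟨0,[(0,0),(33,0),(0,0)]⟩,⟨1,[(2,0),(5,0),(11,0)]⟩⟩,⟨false,0,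
  ⟨0,[]⟩,⟨0,[]⟩⟩,⟨false,0,⟨0,[]⟩,⟨0,[]⟩⟩,[.o ⟨false,0,⟨0,[(35,0)]⟩,⟨3,[(23,3),(7,0),(0,0),(18,1)]⟩⟩,
  .o ⟨false,1,⟨1,[(38,1),(5,0),(6,0)]⟩,⟨0,[(23,0)]⟩⟩,.a ⟨true,0,⟨1,[(33,0),(8,0),(0,0)]⟩,⟨0,[(34,
  0)]⟩⟩ ⟨false,0,⟨0,[(47,0)]⟩,⟨3,[(31,0),(0,0),(17,1)]⟩⟩ ⟨true,0,⟨0,[(34,0),(0,0)]⟩,⟨1,[(8,0),(18,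
  0),(5,0)]⟩⟩,.o ⟨false,0,⟨7,[(6,1),(11,2),(12,0),(0,0),(0,3),(2,0)]⟩,⟨1,[(34,1),(9,0),(5,0)]⟩⟩]⟩)
  (.R ⟨0,false,false,false,[0,0,0,1],[0,1],[1,0,1,1],(⟨0,[(34,0)]⟩,⟨1,[(33,0),(8,0),(0,0)]⟩),(⟨0,
  [(46,0)]⟩,⟨0,[(45,0)]⟩),⟨0,[(1,0)]⟩,.k,.k,(.r (-1) ⟨3,[(12,1),(19,0),(18,0)]⟩ ⟨5,[(6,1),(0,1),(5,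
  1),(17,1),(1,0),(1,0),(1,0),(15,1)]⟩),(.r (-1) ⟨3,[(12,1),(19,0),(18,0)]⟩ ⟨5,[(6,1),(0,1),(5,1),
  (17,1),(1,0),(1,0),(1,0),(15,1)]⟩),.k,.k,⟨true,0,⟨0,[]⟩,⟨5,[(6,1),(24,0),(0,0),(6,1)]⟩⟩,⟨false,1,
  ⟨0,[(34,0),(15,0)]⟩,⟨7,[(6,1),(11,2),(12,0),(0,0),(0,3),(2,0)]⟩⟩,⟨false,0,⟨21,[(6,4),(0,5),(3,5),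
  (1,10),(4,0),(9,0),(2,4),(1,2),(1,0)]⟩,⟨3,[(12,1),(19,0),(18,0)]⟩⟩,⟨true,0,⟨0,[(7,0),(30,0)]⟩,⟨1,
  [(0,0),(3,0),(16,0),(11,0)]⟩⟩,⟨false,0,⟨0,[]⟩,⟨0,[]⟩⟩,⟨false,0,⟨0,[]⟩,⟨0,[]⟩⟩,[.o ⟨false,0,⟨0,
  [(49,0)]⟩,⟨1,[(44,0),(3,1),(2,0)]⟩⟩,.o ⟨false,1,⟨5,[(8,1),(5,1),(16,0),(0,0),(11,1),(6,1)]⟩,⟨0,
  [(21,0)]⟩⟩,.a ⟨true,0,⟨1,[(33,0),(8,0),(0,0)]⟩,⟨0,[(34,0)]⟩⟩ ⟨false,0,⟨11,[(6,1),(1,3),(4,3),(4,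
  0),(17,2),(14,1)]⟩,⟨7,[(3,3),(27,0),(0,2)]⟩⟩ ⟨true,0,⟨0,[(34,0),(14,0)]⟩,⟨1,[(21,0),(11,0),(14,
  0)]⟩⟩,.o ⟨false,0,⟨7,[(6,1),(11,2),(12,0),(0,0),(0,3),(2,0)]⟩,⟨1,[(34,1),(9,0),(5,0)]⟩⟩]⟩)) (.I
  [0,0,0,0,0,0,0,0,-1] (.R ⟨1,false,false,false,[1,0,0,-1],[1,-1],[0,0,0,0,0,0,0,0,-1],(⟨1,[(33,0),
  (8,0),(0,0)]⟩,⟨0,[(34,0)]⟩),(⟨0,[(45,0)]⟩,⟨0,[(46,0)]⟩),⟨0,[(1,0),(31,0)]⟩,.k,.k,(.r (-1) ⟨7,[(3,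
  3),(27,2),(0,0)]⟩ ⟨5,[(4,1),(0,0),(0,1),(6,1),(18,1),(4,0),(11,2)]⟩),(.r 0 ⟨2,[(0,0),(5,0),(6,0),
  (17,0),(5,0),(11,0)]⟩ ⟨3,[(12,1),(19,0),(18,0)]⟩),.k,.k,⟨false,0,⟨0,[(0,0),(48,0)]⟩,⟨3,[(12,1),
  (19,0),(18,0)]⟩⟩,⟨true,0,⟨7,[(6,1),(11,2),(12,0),(0,0),(0,3),(2,0)]⟩,⟨0,[(34,0)]⟩⟩,⟨false,1,⟨3,
  [(31,0),(0,0),(18,1)]⟩,⟨0,[]⟩⟩,⟨false,1,⟨17,[(2,7),(3,4),(5,1),(4,5),(3,1),(4,5),(1,0),(4,0),(17,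
  14)]⟩,⟨0,[(7,0),(30,0)]⟩⟩,⟨true,0,⟨0,[(49,0)]⟩,⟨0,[(48,0)]⟩⟩,⟨false,1,⟨3,[(2,1),(41,0),(6,2)]⟩,⟨0,
  [(0,0),(33,0)]⟩⟩,[.o ⟨false,1,⟨1,[(44,0),(3,1),(2,0)]⟩,⟨0,[(49,0)]⟩⟩,.o ⟨false,1,⟨0,[(21,0),(29,
  0)]⟩,⟨2,[(14,0),(20,0),(1,1),(11,0)]⟩⟩,.a ⟨true,0,⟨0,[(34,0)]⟩,⟨1,[(33,0),(8,0),(0,0)]⟩⟩ ⟨true,0,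
  ⟨0,[(0,0)]⟩,⟨0,[(4,0),(44,0)]⟩⟩ ⟨false,1,⟨3,[(3,0),(0,0),(13,0),(14,1),(2,0),(11,0),(2,2)]⟩,⟨0,
  [(34,0),(14,0)]⟩⟩,.o ⟨false,0,⟨1,[(18,0),(15,1),(1,0)]⟩,⟨7,[(31,0),(0,0),(0,3),(10,1),(5,3)]⟩⟩]⟩)
  (.R ⟨1,false,false,false,[0,0,0,1],[1,-1],[1,1,0,-1,0,0,0,0,1],(⟨0,[(34,0)]⟩,⟨1,[(33,0),(8,0),(0,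
  0)]⟩),(⟨0,[(45,0)]⟩,⟨0,[(46,0)]⟩),⟨0,[(1,0)]⟩,.k,.k,(.r (-1) ⟨3,[(12,1),(19,0),(18,0)]⟩ ⟨5,[(6,1),
  (0,1),(5,1),(17,1),(1,0),(1,0),(1,0),(15,1)]⟩),(.r 0 ⟨2,[(0,0),(5,0),(6,0),(18,0),(4,0),(11,0)]⟩
  ⟨7,[(3,3),(27,2),(0,0)]⟩),.k,.k,⟨false,0,⟨4,[(0,2),(3,1),(9,0),(20,0),(1,1)]⟩,⟨9,[(3,1),(7,3),(1,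
  3),(17,1),(18,4),(0,0)]⟩⟩,⟨true,0,⟨1,[(18,0),(15,1),(1,0)]⟩,⟨1,[(33,0),(8,0),(0,0)]⟩⟩,⟨true,0,⟨0,
  [(48,0)]⟩,⟨0,[(49,0)]⟩⟩,⟨false,1,⟨7,[(3,3),(6,1),(0,1),(6,2),(12,0),(2,7),(1,2),(7,0),(6,1)]⟩,⟨5,
  [(0,1),(1,1),(2,0),(2,0),(5,1),(18,0)]⟩⟩,⟨false,0,⟨0,[]⟩,⟨3,[(31,0),(0,0),(18,1)]⟩⟩,⟨false,1,⟨11,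
  [(3,1),(3,1),(2,3),(0,1),(16,1),(2,2),(2,9),(9,4),(6,1)]⟩,⟨1,[(0,1),(32,0),(8,0),(0,0)]⟩⟩,[.o
  ⟨false,1,⟨1,[(44,0),(3,1),(2,0)]⟩,⟨0,[(49,0)]⟩⟩,.o ⟨false,1,⟨0,[(21,0),(29,0)]⟩,⟨2,[(14,0),(20,0),
  (1,1),(11,0)]⟩⟩,.a ⟨true,0,⟨1,[(33,0),(8,0),(0,0)]⟩,⟨0,[(34,0)]⟩⟩ ⟨true,0,⟨0,[(4,0)]⟩,⟨1,[(7,1),
  (25,0),(1,0),(2,0)]⟩⟩ ⟨false,1,⟨0,[(21,0),(12,0),(16,0)]⟩,⟨9,[(5,0),(2,0),(5,3),(18,4),(3,1)]⟩⟩,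
  .o ⟨false,0,⟨7,[(6,1),(11,2),(12,0),(0,0),(0,3),(2,0)]⟩,⟨1,[(34,1),(9,0),(5,0)]⟩⟩]⟩))) (.Q [0,0,0,
  0,0,1,0,0,0,0,0,-1] (.p false [0,0,0,1] [] (⟨0,[(32,0)]⟩,⟨1,[(31,0),(8,0),(0,0)]⟩) .k 0 (⟨0,[]⟩,
  ⟨0,[]⟩) .k .k) (.R ⟨0,false,false,true,[0,0,0,1],[1,0,-1],[1,0,1],(⟨0,[(33,0)]⟩,⟨1,[(32,0),(8,0),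
  (0,0)]⟩),(⟨0,[(41,0)]⟩,⟨0,[(42,0)]⟩),⟨0,[(0,0)]⟩,.k,.k,(.r (-1) ⟨3,[(11,1),(19,0),(18,0)]⟩ ⟨11,
  [(1,0),(3,3),(0,1),(5,3),(0,0),(16,3),(1,1),(1,1),(1,4)]⟩),.k,.k,.k,⟨false,0,⟨1,[(7,0),(6,0),(1,
  0),(29,0)]⟩,⟨0,[(28,0),(23,0)]⟩⟩,⟨true,0,⟨0,[(27,0),(5,0)]⟩,⟨23,[(5,1),(9,5),(14,0),(0,0),(0,11),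
  (5,13),(2,11),(3,5)]⟩⟩,⟨false,0,⟨10,[(1,0),(3,1),(3,4),(0,4),(19,1),(1,0),(5,1)]⟩,⟨1,[(31,0),(17,
  0)]⟩⟩,⟨true,0,⟨1,[(1,0),(32,0),(2,0),(14,0)]⟩,⟨1,[(3,1),(0,0),(2,0),(24,0)]⟩⟩,⟨false,0,⟨0,[]⟩,⟨0,
  []⟩⟩,⟨false,0,⟨0,[]⟩,⟨0,[]⟩⟩,[.o ⟨false,0,⟨0,[(34,0)]⟩,⟨3,[(22,3),(7,0),(0,0),(18,1)]⟩⟩,.o ⟨false,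
  1,⟨1,[(37,1),(5,0),(6,0)]⟩,⟨0,[(22,0)]⟩⟩,.a ⟨true,0,⟨1,[(32,0),(8,0),(0,0)]⟩,⟨0,[(33,0)]⟩⟩ ⟨false,
  0,⟨0,[(46,0)]⟩,⟨3,[(30,0),(0,0),(17,1)]⟩⟩ ⟨true,0,⟨0,[(33,0),(0,0)]⟩,⟨1,[(7,0),(18,0),(5,0)]⟩⟩,.o
  ⟨false,0,⟨7,[(5,1),(11,2),(12,0),(0,0),(0,3),(2,0)]⟩,⟨1,[(33,1),(9,0),(5,0)]⟩⟩]⟩) (.R ⟨1,false,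
  false,false,[1,0,0,-1],[1,-1],[1,0,0,-1,0,0,0,0,-1],(⟨1,[(32,0),(8,0),(0,0)]⟩,⟨0,[(33,0)]⟩),(⟨0,
  [(44,0)]⟩,⟨0,[(45,0)]⟩),⟨0,[(0,0),(31,0)]⟩,.k,.k,(.r (-1) ⟨7,[(2,3),(27,2),(0,0)]⟩ ⟨5,[(3,1),(0,
  0),(0,1),(6,1),(18,1),(4,0),(11,2)]⟩),(.r 0 ⟨11,[(1,0),(3,3),(0,1),(5,3),(0,0),(16,3),(1,1),(1,1),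
  (1,4)]⟩ ⟨3,[(11,1),(19,0),(18,0)]⟩),.k,.k,⟨false,0,⟨1,[(1,0),(30,0),(19,0)]⟩,⟨1,[(31,0),(17,0)]⟩⟩,
  ⟨true,0,⟨7,[(5,1),(11,2),(12,0),(0,0),(0,3),(2,0)]⟩,⟨0,[(33,0)]⟩⟩,⟨false,1,⟨0,[(47,0),(2,0)]⟩,⟨0,
  [(48,0)]⟩⟩,⟨false,1,⟨15,[(3,11),(5,3),(1,1),(4,3),(10,3),(3,0),(0,7),(17,12)]⟩,⟨1,[(1,0),(11,0),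
  (22,0)]⟩⟩,⟨true,0,⟨0,[]⟩,⟨0,[(52,0)]⟩⟩,⟨false,1,⟨15,[(11,1),(0,3),(3,3),(10,3),(3,6),(0,7),(17,
  6)]⟩,⟨3,[(1,1),(5,0),(5,0),(33,2)]⟩⟩,[.o ⟨false,1,⟨1,[(43,0),(3,1),(2,0)]⟩,⟨0,[(48,0)]⟩⟩,.o
  ⟨false,1,⟨0,[(20,0),(29,0)]⟩,⟨2,[(13,0),(20,0),(1,1),(11,0)]⟩⟩,.a ⟨true,0,⟨0,[(33,0)]⟩,⟨1,[(32,0),
  (8,0),(0,0)]⟩⟩ ⟨true,0,⟨0,[(1,0),(1,0),(28,0)]⟩,⟨0,[(3,0),(44,1)]⟩⟩ ⟨false,1,⟨3,[(2,0),(0,0),(13,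
  0),(14,1),(2,0),(11,0),(2,2)]⟩,⟨0,[(33,0),(14,0)]⟩⟩,.o ⟨false,0,⟨1,[(17,0),(15,1),(1,0)]⟩,⟨7,[(30,
  0),(0,0),(0,3),(10,1),(5,3)]⟩⟩]⟩)))) (.I [0,-1,0,0,0,0,0,0,-1] (.Q [0,0,0,0,0,-1,0,0,0,1,0,-1]
  (.p false [0,0,0,1] [1] (⟨0,[(31,0)]⟩,⟨1,[(30,0),(8,0),(0,0)]⟩) .k 1 (⟨0,[]⟩,⟨0,[]⟩) .k .k) (.R
  ⟨1,false,false,true,[1,0,0,-1],[1,-1],[0,0,0,0,0,0,0,0,-1],(⟨1,[(31,0),(8,0),(0,0)]⟩,⟨0,[(32,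
  0)]⟩),(⟨0,[(43,0)]⟩,⟨0,[(44,0)]⟩),⟨0,[(0,0)]⟩,.k,.k,(.r (-1) ⟨4,[(1,0),(5,0),(14,0),(1,0),(4,1),
  (16,0)]⟩ ⟨7,[(3,2),(0,5),(5,3),(0,1),(2,1),(2,2),(5,0),(6,1),(2,0),(13,8)]⟩),(.r 0 ⟨2,[(2,0),(1,
  0),(6,0),(17,0),(5,0),(15,0)]⟩ ⟨3,[(10,1),(19,0),(18,0)]⟩),.k,.k,⟨false,0,⟨0,[(1,0),(1,0),(9,1),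
  (0,1),(2,2),(5,0),(9,0)]⟩,⟨7,[(10,3),(18,0),(0,2),(20,3)]⟩⟩,⟨true,0,⟨7,[(4,1),(11,2),(12,0),(0,0),
  (0,3),(2,0)]⟩,⟨0,[(32,0)]⟩⟩,⟨false,1,⟨3,[(29,0),(0,0),(18,1)]⟩,⟨0,[]⟩⟩,⟨false,1,⟨7,[(10,1),(5,1),
  (13,2),(0,3),(2,1),(11,3),(2,2)]⟩,⟨0,[(2,0),(29,0)]⟩⟩,⟨true,0,⟨0,[(47,0)]⟩,⟨0,[(46,0)]⟩⟩,⟨false,1,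
  ⟨7,[(29,0),(0,4),(0,3),(10,1)]⟩,⟨0,[(1,0),(30,0)]⟩⟩,[.o ⟨false,0,⟨0,[(19,0)]⟩,⟨5,[(6,1),(5,1),(16,
  0),(0,0),(11,1),(6,1)]⟩⟩,.o ⟨false,1,⟨1,[(42,0),(3,1),(2,0)]⟩,⟨0,[(47,0)]⟩⟩,.a ⟨true,0,⟨0,[(32,
  0)]⟩,⟨1,[(31,0),(8,0),(0,0)]⟩⟩ ⟨false,0,⟨0,[(1,0)]⟩,⟨3,[(29,0),(0,2)]⟩⟩ ⟨true,0,⟨1,[(19,0),(11,0),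
  (14,0)]⟩,⟨0,[(32,0),(14,0)]⟩⟩,.o ⟨false,0,⟨1,[(16,0),(15,1),(1,0)]⟩,⟨7,[(29,0),(0,0),(0,3),(10,1),
  (5,3)]⟩⟩]⟩) (.R ⟨0,false,false,true,[1,0,0,-1],[1,-1],[1,1,0,-1,0,0,0,0,-1],(⟨1,[(31,0),(8,0),(0,
  0)]⟩,⟨0,[(32,0)]⟩),(⟨0,[(43,0)]⟩,⟨0,[(44,0)]⟩),⟨0,[(0,0)]⟩,.k,.k,(.r (-1) ⟨4,[(1,0),(5,0),(14,0),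
  (1,0),(4,1),(16,0)]⟩ ⟨7,[(3,2),(0,5),(5,3),(0,1),(2,1),(2,2),(5,0),(6,1),(2,0),(13,8)]⟩),(.r 0 ⟨2,
  [(2,0),(1,0),(6,0),(17,0),(5,0),(15,0)]⟩ ⟨3,[(10,1),(19,0),(18,0)]⟩),.k,.k,⟨false,0,⟨0,[(1,0),(49,
  0)]⟩,⟨1,[(30,0),(17,0)]⟩⟩,⟨true,0,⟨7,[(4,1),(11,2),(12,0),(0,0),(0,3),(2,0)]⟩,⟨0,[(32,0)]⟩⟩,⟨true,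
  0,⟨0,[(46,0)]⟩,⟨0,[(47,0)]⟩⟩,⟨false,1,⟨7,[(10,1),(5,1),(13,2),(0,3),(2,1),(11,3),(2,2)]⟩,⟨0,[(2,
  0),(29,0)]⟩⟩,⟨false,0,⟨0,[]⟩,⟨0,[]⟩⟩,⟨false,0,⟨0,[]⟩,⟨0,[]⟩⟩,[.o ⟨false,0,⟨0,[(19,0)]⟩,⟨5,[(6,1),
  (5,1),(16,0),(0,0),(11,1),(6,1)]⟩⟩,.o ⟨false,1,⟨1,[(42,0),(3,1),(2,0)]⟩,⟨0,[(47,0)]⟩⟩,.a ⟨true,0,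
  ⟨0,[(32,0)]⟩,⟨1,[(31,0),(8,0),(0,0)]⟩⟩ ⟨false,0,⟨0,[(1,0),(44,0)]⟩,⟨5,[(3,1),(8,1),(17,2),(11,0),
  (6,1)]⟩⟩ ⟨true,0,⟨1,[(19,0),(11,0),(14,0)]⟩,⟨0,[(32,0),(14,0)]⟩⟩,.o ⟨false,0,⟨1,[(16,0),(15,1),(1,
  0)]⟩,⟨7,[(29,0),(0,0),(0,3),(10,1),(5,3)]⟩⟩]⟩)) (.Q [0,0,0,0,0,-1,0,0,0,1,0,-1] (.p false [0,0,0,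
  1] [1] (⟨0,[(31,0)]⟩,⟨1,[(30,0),(8,0),(0,0)]⟩) .k 1 (⟨0,[]⟩,⟨0,[]⟩) .k .k) (.R ⟨1,false,false,
  false,[1,0,0,-1],[1,-1],[0,0,0,0,0,0,0,0,-1],(⟨1,[(31,0),(8,0),(0,0)]⟩,⟨0,[(32,0)]⟩),(⟨0,[(43,
  0)]⟩,⟨0,[(44,0)]⟩),⟨0,[(0,0)]⟩,.k,.k,(.r (-1) ⟨4,[(7,1),(1,0),(14,0),(4,1),(16,0)]⟩ ⟨22,[(1,8),(1,
  4),(0,6),(6,7),(0,0),(17,6),(3,0),(0,3)]⟩),(.r 0 ⟨2,[(2,0),(1,0),(6,0),(17,0),(5,0),(15,0)]⟩ ⟨3,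
  [(10,1),(19,0),(18,0)]⟩),.k,.k,⟨false,0,⟨0,[(2,0),(48,0)]⟩,⟨3,[(10,1),(19,0),(18,0)]⟩⟩,⟨true,0,⟨7,
  [(4,1),(11,2),(12,0),(0,0),(0,3),(2,0)]⟩,⟨0,[(32,0)]⟩⟩,⟨false,1,⟨3,[(29,0),(0,0),(18,1)]⟩,⟨0,[]⟩⟩,
  ⟨false,1,⟨19,[(4,5),(3,7),(1,9),(4,7),(10,1),(3,4),(0,9),(17,10)]⟩,⟨0,[(5,0),(30,0)]⟩⟩,⟨true,0,⟨0,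
  [(47,0)]⟩,⟨0,[(46,0)]⟩⟩,⟨false,1,⟨15,[(10,1),(0,3),(3,3),(10,3),(3,6),(0,7),(17,6)]⟩,⟨0,[(2,0),
  (29,0),(13,0)]⟩⟩,[.o ⟨false,1,⟨1,[(42,0),(3,1),(2,0)]⟩,⟨0,[(47,0)]⟩⟩,.o ⟨false,1,⟨0,[(19,0),(29,
  0)]⟩,⟨2,[(12,0),(20,0),(1,1),(11,0)]⟩⟩,.a ⟨true,0,⟨0,[(32,0)]⟩,⟨1,[(31,0),(8,0),(0,0)]⟩⟩ ⟨true,0,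
  ⟨0,[(2,0),(43,0)]⟩,⟨0,[(1,0)]⟩⟩ ⟨false,1,⟨1,[(19,0),(11,0),(14,0),(2,1)]⟩,⟨0,[(32,0),(14,0)]⟩⟩,.o
  ⟨false,0,⟨1,[(16,0),(15,1),(1,0)]⟩,⟨7,[(29,0),(0,0),(0,3),(10,1),(5,3)]⟩⟩]⟩) (.R ⟨0,false,false,
  true,[1,0,0,-1],[1,-1],[0,1,0,0,0,0,0,0,-1],(⟨1,[(31,0),(8,0),(0,0)]⟩,⟨0,[(32,0)]⟩),(⟨0,[(43,0)]⟩,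
  ⟨0,[(44,0)]⟩),⟨0,[(0,0)]⟩,.k,.k,(.r (-1) ⟨4,[(7,1),(1,0),(14,0),(4,1),(16,0)]⟩ ⟨22,[(1,8),(1,4),
  (0,6),(6,7),(0,0),(17,6),(3,0),(0,3)]⟩),(.r 0 ⟨2,[(2,0),(1,0),(6,0),(17,0),(5,0),(15,0)]⟩ ⟨3,[(10,
  1),(19,0),(18,0)]⟩),.k,.k,⟨false,0,⟨0,[(2,0),(48,0)]⟩,⟨3,[(10,1),(19,0),(18,0)]⟩⟩,⟨true,0,⟨7,[(4,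
  1),(11,2),(12,0),(0,0),(0,3),(2,0)]⟩,⟨0,[(32,0)]⟩⟩,⟨true,0,⟨0,[(51,0)]⟩,⟨0,[]⟩⟩,⟨false,1,⟨7,[(10,
  1),(5,1),(13,2),(0,3),(2,1),(11,3),(2,2)]⟩,⟨0,[(2,0),(29,0)]⟩⟩,⟨false,0,⟨0,[]⟩,⟨0,[]⟩⟩,⟨false,0,
  ⟨0,[]⟩,⟨0,[]⟩⟩,[.o ⟨false,0,⟨0,[(19,0)]⟩,⟨5,[(6,1),(5,1),(16,0),(0,0),(11,1),(6,1)]⟩⟩,.o ⟨false,1,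
  ⟨1,[(42,0),(3,1),(2,0)]⟩,⟨0,[(47,0)]⟩⟩,.a ⟨true,0,⟨0,[(32,0)]⟩,⟨1,[(31,0),(8,0),(0,0)]⟩⟩ ⟨false,0,
  ⟨0,[(2,0),(43,0)]⟩,⟨1,[(30,0),(18,0)]⟩⟩ ⟨true,0,⟨1,[(19,0),(11,0),(14,0)]⟩,⟨0,[(32,0),(14,0)]⟩⟩,
  .o ⟨false,0,⟨1,[(16,0),(15,1),(1,0)]⟩,⟨7,[(29,0),(0,0),(0,3),(10,1),(5,3)]⟩⟩]⟩))))) (.I [0,0,1,1,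
  0,0,0,0,1] (.Q [0,-1,0,1,0,0,0,0,-1,0,0,1] (.p true [0,0,0,1] [] (⟨0,[(29,0)]⟩,⟨1,[(28,0),(8,0),
  (0,0)]⟩) .k 0 (⟨0,[]⟩,⟨0,[]⟩) .k .k) (.I [1,-1,0,-1,0,0,0,0,-1] (.Q [0,0,0,0,0,-1,0,0,0,1,0,-1]
  (.p false [0,0,0,1] [1] (⟨0,[(31,0)]⟩,⟨1,[(30,0),(8,0),(0,0)]⟩) .k 1 (⟨0,[]⟩,⟨0,[]⟩) .k .k) (.R
  ⟨1,false,false,true,[1,0,0,-1],[1,-1],[1,0,0,-1,0,0,0,0,-1],(⟨1,[(31,0),(8,0),(0,0)]⟩,⟨0,[(32,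
  0)]⟩),(⟨0,[(43,0)]⟩,⟨0,[(44,0)]⟩),⟨0,[(0,0)]⟩,.k,.k,(.r (-1) ⟨3,[(1,0),(5,0),(2,0),(18,1)]⟩ ⟨0,
  [(3,0)]⟩),(.r 0 ⟨1,[(2,1),(28,0),(2,0),(2,0),(13,1)]⟩ ⟨3,[(10,1),(19,0),(18,0)]⟩),.k,.k,⟨false,0,
  ⟨0,[(1,0),(45,0)]⟩,⟨1,[(30,0),(17,0),(2,1)]⟩⟩,⟨true,0,⟨1,[(31,0),(2,0),(2,0)]⟩,⟨0,[(32,0)]⟩⟩,
  ⟨false,1,⟨0,[(46,0),(2,0)]⟩,⟨0,[(47,0)]⟩⟩,⟨false,1,⟨1,[(19,0),(10,0),(0,0),(14,0),(2,0)]⟩,⟨0,[(2,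
  0)]⟩⟩,⟨true,0,⟨0,[]⟩,⟨0,[(51,0)]⟩⟩,⟨false,1,⟨7,[(29,0),(0,4),(0,3),(10,1)]⟩,⟨1,[(1,0),(0,0),(29,
  0)]⟩⟩,[.o ⟨false,0,⟨0,[(19,0)]⟩,⟨5,[(6,1),(5,1),(16,0),(0,0),(11,1),(6,1)]⟩⟩,.o ⟨false,1,⟨1,[(42,
  0),(3,1),(2,0)]⟩,⟨0,[(47,0)]⟩⟩,.a ⟨true,0,⟨0,[(32,0)]⟩,⟨1,[(31,0),(8,0),(0,0)]⟩⟩ ⟨false,0,⟨0,[(1,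
  0)]⟩,⟨9,[(6,1),(5,3),(16,0),(0,5),(4,1),(6,2)]⟩⟩ ⟨true,0,⟨1,[(19,0),(11,0),(14,0)]⟩,⟨0,[(32,0),
  (14,0)]⟩⟩,.o ⟨false,0,⟨1,[(16,0),(15,1),(1,0)]⟩,⟨7,[(29,0),(0,0),(0,3),(10,1),(5,3)]⟩⟩]⟩) (.R ⟨0,
  false,false,true,[1,0,0,-1],[1,-1],[1,0,0,0,0,0,0,0,-1],(⟨1,[(31,0),(8,0),(0,0)]⟩,⟨0,[(32,0)]⟩),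
  (⟨0,[(43,0)]⟩,⟨0,[(44,0)]⟩),⟨0,[(0,0)]⟩,.k,.k,(.r (-1) ⟨3,[(1,0),(5,0),(2,0),(18,1)]⟩ ⟨0,[(3,
  0)]⟩),(.r 0 ⟨1,[(2,1),(28,0),(2,0),(2,0),(13,1)]⟩ ⟨3,[(10,1),(19,0),(18,0)]⟩),.k,.k,⟨false,0,⟨0,
  [(1,0),(45,1)]⟩,⟨7,[(10,3),(18,0),(0,2),(20,3)]⟩⟩,⟨true,0,⟨1,[(31,0),(2,0),(2,0)]⟩,⟨0,[(32,0)]⟩⟩,
  ⟨true,0,⟨0,[]⟩,⟨0,[(51,0)]⟩⟩,⟨false,1,⟨1,[(19,0),(10,0),(0,0),(14,0),(2,0)]⟩,⟨0,[(2,0)]⟩⟩,⟨false,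
  0,⟨0,[]⟩,⟨0,[]⟩⟩,⟨false,0,⟨0,[]⟩,⟨0,[]⟩⟩,[.o ⟨false,0,⟨0,[(19,0)]⟩,⟨5,[(6,1),(5,1),(16,0),(0,0),
  (11,1),(6,1)]⟩⟩,.o ⟨false,1,⟨1,[(42,0),(3,1),(2,0)]⟩,⟨0,[(47,0)]⟩⟩,.a ⟨true,0,⟨0,[(32,0)]⟩,⟨1,
  [(31,0),(8,0),(0,0)]⟩⟩ ⟨false,0,⟨0,[(1,0),(45,0)]⟩,⟨3,[(29,0),(0,2)]⟩⟩ ⟨true,0,⟨1,[(19,0),(11,0),
  (14,0)]⟩,⟨0,[(32,0),(14,0)]⟩⟩,.o ⟨false,0,⟨1,[(16,0),(15,1),(1,0)]⟩,⟨7,[(29,0),(0,0),(0,3),(10,1),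
  (5,3)]⟩⟩]⟩)) (.I [1,0,0,-1,0,0,0,0,-1] (.Q [0,0,0,0,0,-1,0,0,0,1,0,-1] (.p false [0,0,0,1] [1]
  (⟨0,[(32,0)]⟩,⟨1,[(31,0),(8,0),(0,0)]⟩) .k 1 (⟨0,[]⟩,⟨0,[]⟩) .k .k) (.R ⟨1,false,false,false,[1,0,
  0,-1],[1,-1],[1,0,0,-1,0,0,0,0,-1],(⟨1,[(32,0),(8,0),(0,0)]⟩,⟨0,[(33,0)]⟩),(⟨0,[(44,0)]⟩,⟨0,[(45,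
  0)]⟩),⟨0,[(0,0)]⟩,.k,.k,(.r (-1) ⟨4,[(1,0),(6,0),(14,0),(1,0),(4,1)]⟩ ⟨0,[(4,0)]⟩),(.r 0 ⟨11,[(1,
  9),(4,1),(5,5),(0,3),(18,0),(2,4),(0,7),(2,0)]⟩ ⟨3,[(11,1),(19,0),(18,0)]⟩),.k,.k,⟨false,0,⟨9,[(1,
  5),(4,3),(6,0),(18,1),(1,2),(17,0)]⟩,⟨1,[(31,0),(17,0)]⟩⟩,⟨true,0,⟨1,[(32,0),(2,0),(2,0)]⟩,⟨0,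
  [(33,0)]⟩⟩,⟨false,1,⟨0,[(47,0),(2,0)]⟩,⟨0,[(48,0)]⟩⟩,⟨false,1,⟨3,[(9,0),(1,1),(4,0),(10,0),(3,0),
  (0,1),(13,2),(3,0)]⟩,⟨0,[(3,0),(48,0)]⟩⟩,⟨true,0,⟨0,[]⟩,⟨0,[(52,0)]⟩⟩,⟨false,1,⟨9,[(5,0),(3,1),(6,
  1),(10,2),(3,4),(0,4),(17,3)]⟩,⟨0,[(3,0),(43,0)]⟩⟩,[.o ⟨false,1,⟨1,[(43,0),(3,1),(2,0)]⟩,⟨0,[(48,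
  0)]⟩⟩,.o ⟨false,1,⟨0,[(20,0),(29,0)]⟩,⟨2,[(13,0),(20,0),(1,1),(11,0)]⟩⟩,.a ⟨true,0,⟨0,[(33,0)]⟩,
  ⟨1,[(32,0),(8,0),(0,0)]⟩⟩ ⟨true,0,⟨0,[(1,0)]⟩,⟨0,[(2,0)]⟩⟩ ⟨false,1,⟨1,[(20,0),(11,0),(14,0),(2,
  1)]⟩,⟨1,[(2,0),(0,0),(29,0)]⟩⟩,.o ⟨false,0,⟨1,[(17,0),(15,1),(1,0)]⟩,⟨7,[(30,0),(0,0),(0,3),(10,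
  1),(5,3)]⟩⟩]⟩) (.R ⟨0,false,false,true,[1,0,0,-1],[1,-1],[1,1,0,-1,0,0,0,0,-1],(⟨1,[(32,0),(8,0),
  (0,0)]⟩,⟨0,[(33,0)]⟩),(⟨0,[(44,0)]⟩,⟨0,[(45,0)]⟩),⟨0,[(0,0)]⟩,.k,.k,(.r (-1) ⟨4,[(1,0),(6,0),(14,
  0),(1,0),(4,1)]⟩ ⟨0,[(4,0)]⟩),(.r 0 ⟨11,[(1,9),(4,1),(5,5),(0,3),(18,0),(2,4),(0,7),(2,0)]⟩ ⟨3,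
  [(11,1),(19,0),(18,0)]⟩),.k,.k,⟨false,0,⟨9,[(1,5),(4,3),(6,0),(18,1),(1,2),(17,0)]⟩,⟨1,[(31,0),
  (17,0)]⟩⟩,⟨true,0,⟨1,[(32,0),(2,0),(2,0)]⟩,⟨0,[(33,0)]⟩⟩,⟨true,0,⟨0,[(47,0)]⟩,⟨0,[(48,0)]⟩⟩,
  ⟨false,1,⟨1,[(20,0),(10,0),(0,0),(14,0),(2,0)]⟩,⟨0,[(3,0)]⟩⟩,⟨false,0,⟨0,[]⟩,⟨0,[]⟩⟩,⟨false,0,⟨0,
  []⟩,⟨0,[]⟩⟩,[.o ⟨false,0,⟨0,[(20,0)]⟩,⟨5,[(7,1),(5,1),(16,0),(0,0),(11,1),(6,1)]⟩⟩,.o ⟨false,1,⟨1,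
  [(43,0),(3,1),(2,0)]⟩,⟨0,[(48,0)]⟩⟩,.a ⟨true,0,⟨0,[(33,0)]⟩,⟨1,[(32,0),(8,0),(0,0)]⟩⟩ ⟨false,0,⟨0,
  [(1,0)]⟩,⟨17,[(7,5),(4,3),(0,1),(0,1),(16,8),(11,3),(5,0),(0,3)]⟩⟩ ⟨true,0,⟨1,[(20,0),(11,0),(14,
  0)]⟩,⟨1,[(2,0),(0,0),(29,0)]⟩⟩,.o ⟨false,0,⟨1,[(17,0),(15,1),(1,0)]⟩,⟨7,[(30,0),(0,0),(0,3),(10,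
  1),(5,3)]⟩⟩]⟩)) (.R ⟨2,true,false,true,[0,1],[0,0,0,1],[1,1,1],(⟨0,[]⟩,⟨0,[]⟩),(⟨0,[(32,0)]⟩,⟨1,
  [(31,0),(8,0),(0,0)]⟩),⟨0,[]⟩,.k,.k,.k,(.r 0 ⟨1,[(2,1),(28,0),(2,0),(2,0),(13,1)]⟩ ⟨3,[(10,1),(19,
  0),(18,0)]⟩),.k,.k,⟨false,0,⟨1,[(2,1),(16,0),(11,0),(14,0)]⟩,⟨1,[(30,0),(17,0)]⟩⟩,⟨true,0,⟨1,[(31,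
  0),(2,0),(2,0)]⟩,⟨0,[(32,0)]⟩⟩,⟨true,0,⟨0,[(46,0)]⟩,⟨0,[(47,0)]⟩⟩,⟨false,1,⟨1,[(19,0),(10,0),(0,
  0),(14,0),(2,0)]⟩,⟨0,[(2,0)]⟩⟩,⟨false,0,⟨0,[]⟩,⟨3,[(29,0),(0,0),(18,1)]⟩⟩,⟨true,0,⟨1,[(0,1),(18,
  0),(11,0),(14,0)]⟩,⟨0,[(2,0),(43,0)]⟩⟩,[]⟩))) (.Q [0,0,0,0,0,1,0,0,0,0,0,-1] (.p false [0,0,0,1]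
  [] (⟨0,[(30,0)]⟩,⟨1,[(29,0),(8,0),(0,0)]⟩) .k 0 (⟨0,[]⟩,⟨0,[]⟩) .k .k) (.R ⟨0,false,false,false,
  [0,0,0,1],[0,1],[1,0,1,1],(⟨0,[(31,0)]⟩,⟨1,[(30,0),(8,0),(0,0)]⟩),(⟨0,[(43,0)]⟩,⟨0,[(42,0)]⟩),⟨0,
  [(0,0)]⟩,.k,.k,(.r (-1) ⟨3,[(9,1),(19,0),(18,0)]⟩ ⟨1,[(4,1),(25,0),(2,0),(1,1),(0,0)]⟩),(.r (-1)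
  ⟨3,[(9,1),(19,0),(18,0)]⟩ ⟨1,[(4,1),(25,0),(2,0),(1,1),(0,0)]⟩),.k,.k,⟨true,0,⟨0,[]⟩,⟨1,[(36,0),
  (0,0)]⟩⟩,⟨false,1,⟨0,[(31,0),(15,0)]⟩,⟨1,[(30,0),(2,0),(2,0)]⟩⟩,⟨false,0,⟨3,[(4,1),(3,1),(1,1),
  (19,0),(2,0),(1,1),(0,0)]⟩,⟨3,[(9,1),(19,0),(18,0)]⟩⟩,⟨true,0,⟨0,[(4,0),(30,0)]⟩,⟨0,[(1,0)]⟩⟩,
  ⟨false,0,⟨0,[]⟩,⟨0,[]⟩⟩,⟨false,0,⟨0,[]⟩,⟨0,[]⟩⟩,[.o ⟨false,0,⟨0,[(46,0)]⟩,⟨1,[(41,0),(3,1),(2,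
  0)]⟩⟩,.o ⟨false,1,⟨5,[(5,1),(5,1),(16,0),(0,0),(11,1),(6,1)]⟩,⟨0,[(18,0)]⟩⟩,.a ⟨true,0,⟨1,[(30,0),
  (8,0),(0,0)]⟩,⟨0,[(31,0)]⟩⟩ ⟨false,0,⟨2,[(5,0),(4,0),(22,0),(10,0)]⟩,⟨5,[(21,1),(1,1),(4,0),(0,
  0)]⟩⟩ ⟨true,0,⟨0,[(31,0),(14,0)]⟩,⟨1,[(18,0),(11,0),(14,0)]⟩⟩,.o ⟨false,0,⟨1,[(30,0),(2,0),(2,
  0)]⟩,⟨1,[(31,1),(9,0),(5,0)]⟩⟩]⟩) (.Q [0,0,0,0,0,0,0,0,-1,0,0,1] (.p true [0,0,0,1] [] (⟨0,[(31,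
  0)]⟩,⟨1,[(30,0),(8,0),(0,0)]⟩) .k 0 (⟨0,[]⟩,⟨0,[]⟩) .k .k) (.Q [0,0,0,0,0,0,0,0,1,1,0,-1] (.p
  false [0,0,0,1] [1] (⟨0,[(32,0)]⟩,⟨1,[(31,0),(8,0),(0,0)]⟩) .k 1 (⟨0,[]⟩,⟨0,[]⟩) .k .k) (.R ⟨2,
  false,false,false,[0,1],[1,0,0,-1],[1,1,1],(⟨0,[]⟩,⟨0,[]⟩),(⟨1,[(32,0),(8,0),(0,0)]⟩,⟨0,[(33,
  0)]⟩),⟨0,[]⟩,.k,.k,.k,(.r 0 ⟨0,[(4,0)]⟩ ⟨4,[(8,1),(1,0),(14,0),(4,1),(16,0)]⟩),.k,.k,⟨false,0,⟨0,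
  [(3,0),(29,0),(14,0)]⟩,⟨25,[(5,11),(4,11),(1,7),(1,5),(10,3),(4,6),(19,2)]⟩⟩,⟨true,0,⟨1,[(17,0),
  (15,1),(1,0)]⟩,⟨1,[(32,0),(8,0),(0,0)]⟩⟩,⟨true,0,⟨0,[(47,0)]⟩,⟨0,[(48,0)]⟩⟩,⟨false,1,⟨3,[(1,1),(8,
  1),(6,0),(7,1),(7,1),(1,0),(7,0),(6,0)]⟩,⟨0,[(0,0),(47,0)]⟩⟩,⟨false,0,⟨0,[]⟩,⟨3,[(30,0),(0,0),(18,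
  1)]⟩⟩,⟨false,1,⟨1,[(1,1),(41,0),(6,0)]⟩,⟨0,[(0,0)]⟩⟩,[.a ⟨true,0,⟨0,[(1,0)]⟩,⟨0,[(0,0)]⟩⟩ ⟨false,
  0,⟨0,[(52,0)]⟩,⟨1,[(49,0),(0,0)]⟩⟩ ⟨true,0,⟨1,[(1,1),(15,0),(17,0)]⟩,⟨0,[(0,0)]⟩⟩,.o ⟨false,1,⟨1,
  [(1,1),(41,0),(6,0)]⟩,⟨0,[(3,0),(44,0)]⟩⟩,.o ⟨false,1,⟨3,[(30,0),(0,0),(17,1)]⟩,⟨1,[(17,0),(17,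
  0)]⟩⟩,.e ⟨false,0,⟨0,[]⟩,⟨3,[(30,0),(0,0),(18,1)]⟩⟩ ⟨false,1,⟨1,[(1,1),(41,0),(6,0)]⟩,⟨0,[(0,
  0)]⟩⟩]⟩) (.R ⟨1,false,false,true,[1,0,0,-1],[1,-1],[0,1,0,0,0,0,0,0,-1],(⟨1,[(32,0),(8,0),(0,0)]⟩,
  ⟨0,[(33,0)]⟩),(⟨0,[(44,0)]⟩,⟨0,[(45,0)]⟩),⟨0,[(2,0),(29,0)]⟩,.k,.k,(.r (-1) ⟨4,[(8,1),(1,0),(14,
  0),(4,1),(16,0)]⟩ ⟨0,[(4,0)]⟩),(.r 0 ⟨1,[(1,1),(10,0),(19,0),(2,0),(0,0)]⟩ ⟨3,[(11,1),(19,0),(18,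
  0)]⟩),.k,.k,⟨false,0,⟨5,[(0,4),(5,0),(6,1),(18,2),(3,0),(11,0)]⟩,⟨3,[(11,1),(19,0),(18,0)]⟩⟩,
  ⟨true,0,⟨1,[(32,0),(2,0),(2,0)]⟩,⟨0,[(33,0)]⟩⟩,⟨true,0,⟨0,[(52,0)]⟩,⟨0,[]⟩⟩,⟨true,0,⟨0,[(3,0)]⟩,
  ⟨4,[(0,1),(0,1),(4,0),(6,1),(22,0)]⟩⟩,⟨false,0,⟨0,[(48,0)]⟩,⟨0,[(47,0),(2,0)]⟩⟩,⟨true,0,⟨0,[(3,0),
  (44,0)]⟩,⟨0,[(1,0)]⟩⟩,[.o ⟨false,0,⟨0,[(20,0)]⟩,⟨5,[(7,1),(5,1),(16,0),(0,0),(11,1),(6,1)]⟩⟩,.o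
  ⟨false,1,⟨1,[(43,0),(3,1),(2,0)]⟩,⟨0,[(48,0)]⟩⟩,.a ⟨true,0,⟨0,[(33,0)]⟩,⟨1,[(32,0),(8,0),(0,0)]⟩⟩
  ⟨false,0,⟨1,[(0,0),(0,0),(30,0)]⟩,⟨1,[(31,0),(18,0)]⟩⟩ ⟨true,0,⟨1,[(20,0),(11,0),(14,0)]⟩,⟨0,[(33,
  0),(14,0)]⟩⟩,.o ⟨false,0,⟨1,[(17,0),(15,1),(1,0)]⟩,⟨7,[(30,0),(0,0),(0,3),(10,1),(5,3)]⟩⟩]⟩)) (.R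
  ⟨2,true,false,false,[0,1],[0,0,0,1],[0,1,1,1],(⟨0,[]⟩,⟨0,[]⟩),(⟨0,[(32,0)]⟩,⟨1,[(31,0),(8,0),(0,
  0)]⟩),⟨0,[]⟩,.k,.k,.k,(.r 0 ⟨1,[(5,1),(25,0),(2,0),(1,1),(0,0)]⟩ ⟨3,[(10,1),(19,0),(18,0)]⟩),.k,
  .k,⟨false,0,⟨1,[(5,1),(25,0),(1,0),(2,0),(14,1)]⟩,⟨2,[(0,2),(6,0),(0,0),(0,0),(0,0),(21,2),(16,
  0)]⟩⟩,⟨true,0,⟨1,[(31,0),(2,0),(2,0)]⟩,⟨0,[(32,0)]⟩⟩,⟨true,0,⟨0,[(51,0)]⟩,⟨0,[]⟩⟩,⟨false,1,⟨0,[(2,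
  0),(46,0)]⟩,⟨0,[(5,0),(30,0)]⟩⟩,⟨false,0,⟨0,[(47,0)]⟩,⟨0,[(46,0),(2,0)]⟩⟩,⟨true,0,⟨0,[(0,0)]⟩,⟨0,
  [(5,0),(30,0),(9,0)]⟩⟩,[]⟩)))) (.Q [0,0,0,0,0,-1,0,0,0,1,0,-1] (.p false [0,0,0,1] [1] (⟨0,[(29,
  0)]⟩,⟨1,[(28,0),(8,0),(0,0)]⟩) .k 1 (⟨0,[]⟩,⟨0,[]⟩) .k .k) (.R ⟨1,false,false,true,[1,0,0,-1],[1,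
  -1],[0,0,0,0,0,0,0,0,-1],(⟨1,[(29,0),(8,0),(0,0)]⟩,⟨0,[(30,0)]⟩),(⟨0,[(41,0)]⟩,⟨0,[(42,0)]⟩),⟨0,
  [(0,0)]⟩,.k,.k,(.x 0 ⟨2,[(12,0),(8,1),(10,1)]⟩ ⟨3,[(27,0),(0,0),(13,3),(3,1)]⟩),(.r 0 ⟨1,[(3,1),
  (25,0),(2,0),(1,1),(0,0)]⟩ ⟨3,[(8,1),(19,0),(18,0)]⟩),.k,.k,⟨false,0,⟨3,[(1,1),(1,1),(5,1),(16,0),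
  (2,0)]⟩,⟨7,[(8,3),(18,0),(0,2),(20,3)]⟩⟩,⟨true,0,⟨1,[(29,0),(2,0),(2,0)]⟩,⟨0,[(30,0)]⟩⟩,⟨false,1,
  ⟨3,[(27,0),(0,0),(18,1)]⟩,⟨0,[]⟩⟩,⟨false,1,⟨1,[(17,0),(10,0),(0,0),(14,0),(2,0)]⟩,⟨6,[(1,2),(1,2),
  (3,0),(1,2),(0,0),(15,0),(3,3)]⟩⟩,⟨true,0,⟨0,[(45,0)]⟩,⟨0,[(44,0)]⟩⟩,⟨false,1,⟨7,[(27,0),(0,4),(0,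
  3),(10,1)]⟩,⟨1,[(1,0),(5,0),(1,0),(20,1)]⟩⟩,[.o ⟨false,0,⟨0,[(17,0)]⟩,⟨5,[(4,1),(5,1),(16,0),(0,
  0),(11,1),(6,1)]⟩⟩,.o ⟨false,1,⟨1,[(40,0),(3,1),(2,0)]⟩,⟨0,[(45,0)]⟩⟩,.a ⟨true,0,⟨0,[(30,0)]⟩,⟨1,
  [(29,0),(8,0),(0,0)]⟩⟩ ⟨false,0,⟨1,[(1,0),(5,0),(1,0)]⟩,⟨3,[(27,0),(0,2)]⟩⟩ ⟨true,0,⟨1,[(17,0),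
  (11,0),(14,0)]⟩,⟨0,[(30,0),(14,0)]⟩⟩,.o ⟨false,0,⟨1,[(14,0),(15,1),(1,0)]⟩,⟨7,[(27,0),(0,0),(0,3),
  (10,1),(5,3)]⟩⟩]⟩) (.R ⟨0,false,false,true,[1,0,0,-1],[1,0,-1],[0,1,0,0,0,0,0,0,-1],(⟨1,[(29,0),
  (8,0),(0,0)]⟩,⟨0,[(30,0)]⟩),(⟨0,[(38,0)]⟩,⟨0,[(39,0)]⟩),⟨0,[(0,0)]⟩,.k,.k,(.x 0 ⟨2,[(12,0),(8,1),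
  (10,1)]⟩ ⟨3,[(27,0),(0,0),(13,3),(3,1)]⟩),.k,.k,.k,⟨false,0,⟨8,[(1,4),(1,3),(7,3),(1,0),(10,0),(4,
  1),(3,3),(11,1)]⟩,⟨3,[(9,0),(12,1),(5,1),(5,0),(0,0)]⟩⟩,⟨true,0,⟨1,[(26,0),(2,0)]⟩,⟨0,[(30,0),(4,
  0)]⟩⟩,⟨true,0,⟨0,[(49,0)]⟩,⟨0,[]⟩⟩,⟨false,1,⟨3,[(9,0),(12,1),(3,0),(1,1),(0,1),(2,0),(1,0)]⟩,⟨4,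
  [(1,0),(1,2),(2,0),(0,0),(8,1),(13,1)]⟩⟩,⟨false,0,⟨0,[]⟩,⟨0,[]⟩⟩,⟨false,0,⟨0,[]⟩,⟨0,[]⟩⟩,[.o
  ⟨false,0,⟨0,[(31,0)]⟩,⟨3,[(19,3),(7,0),(0,0),(18,1)]⟩⟩,.o ⟨false,1,⟨1,[(34,1),(5,0),(6,0)]⟩,⟨0,
  [(19,0)]⟩⟩,.a ⟨true,0,⟨0,[(30,0)]⟩,⟨1,[(29,0),(8,0),(0,0)]⟩⟩ ⟨false,0,⟨3,[(1,0),(1,1),(3,0),(6,0),
  (14,0),(4,2)]⟩,⟨1,[(28,0),(18,0)]⟩⟩ ⟨true,0,⟨1,[(29,0),(1,0),(2,0)]⟩,⟨0,[(19,0),(10,0)]⟩⟩,.o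
  ⟨false,0,⟨1,[(14,0),(15,1),(1,0)]⟩,⟨7,[(27,0),(0,0),(0,3),(10,1),(5,3)]⟩⟩]⟩)))))

theorem ok84 : chk (cU (-1) false 2) t84 r56 = true := by decide +kernel

noncomputable def t131 : Tre :=
  (.Q [0,0,0,0,0,0,1,1,0,1,-1] (.p false [0,0,1] [1] (⟨0,[(19,0)]⟩,⟨0,[(18,0)]⟩) .k 1 (⟨0,[]⟩,⟨0,
  []⟩) .k .k) (.R ⟨2,false,false,false,[0,1],[0,0,1],[],(⟨0,[]⟩,⟨0,[]⟩),(⟨0,[(20,0)]⟩,⟨0,[(19,0)]⟩),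
  ⟨0,[]⟩,.k,.k,.k,.k,.k,.k,⟨false,1,⟨0,[(6,0)]⟩,⟨0,[(18,0)]⟩⟩,⟨true,0,⟨0,[(16,0)]⟩,⟨1,[(7,0),(11,0),
  (0,0)]⟩⟩,⟨true,1,⟨1,[(25,1),(1,0),(0,0)]⟩,⟨0,[(1,0)]⟩⟩,⟨false,1,⟨1,[(3,1),(12,1),(10,0),(0,0)]⟩,
  ⟨1,[(4,0),(10,0),(10,0)]⟩⟩,⟨false,1,⟨1,[(27,0),(0,0)]⟩,⟨1,[(16,0),(0,0)]⟩⟩,⟨false,1,⟨1,[(0,1),(20,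
  0),(6,0)]⟩,⟨0,[(4,0),(20,0)]⟩⟩,[.a ⟨true,0,⟨0,[(0,0)]⟩,⟨0,[(4,0),(20,0)]⟩⟩ ⟨false,1,⟨3,[(8,0),(0,
  0),(17,1)]⟩,⟨0,[]⟩⟩ ⟨true,0,⟨0,[(16,0),(1,0)]⟩,⟨0,[(4,0),(20,0)]⟩⟩,.o ⟨false,1,⟨1,[(0,1),(20,0),
  (6,0)]⟩,⟨0,[(12,0)]⟩⟩,.o ⟨false,1,⟨3,[(8,0),(0,0),(17,1)]⟩,⟨0,[(5,0),(10,0)]⟩⟩,.e ⟨false,1,⟨1,
  [(27,0),(0,0)]⟩,⟨1,[(16,0),(0,0)]⟩⟩ ⟨false,1,⟨1,[(0,1),(20,0),(6,0)]⟩,⟨0,[(4,0),(20,0)]⟩⟩]⟩) (.Q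
  [0,0,0,1,0,0,1,1,0,1,-1] (.p false [0,0,1] [1] (⟨0,[(20,0)]⟩,⟨0,[(19,0)]⟩) .k 1 (⟨0,[]⟩,⟨0,[]⟩)
  .k .k) (.R ⟨2,true,false,false,[0,1],[1,0,-1],[1,1,1],(⟨0,[]⟩,⟨0,[]⟩),(⟨0,[(20,0)]⟩,⟨0,[(21,0)]⟩),
  ⟨0,[]⟩,.k,.k,.k,.k,.k,.k,⟨true,(-1),⟨0,[(2,0),(1,0)]⟩,⟨0,[(7,0),(17,0)]⟩⟩,⟨false,0,⟨0,[(6,0)]⟩,⟨0,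
  [(17,0),(2,0),(0,0),(6,0)]⟩⟩,⟨true,0,⟨0,[(26,0)]⟩,⟨0,[(27,0)]⟩⟩,⟨false,1,⟨0,[(1,0),(24,0),(2,0)]⟩,
  ⟨0,[(0,0)]⟩⟩,⟨false,0,⟨0,[]⟩,⟨3,[(9,0),(0,0),(18,1)]⟩⟩,⟨true,0,⟨0,[(1,0)]⟩,⟨0,[(0,0),(25,0)]⟩⟩,
  []⟩) (.Q [0,0,0,1,0,0,1,1,0,2,-1] (.p false [-1,1,1] [1] (⟨0,[(3,0)]⟩,⟨0,[(20,0),(2,0)]⟩) .k 1
  (⟨0,[]⟩,⟨0,[]⟩) .k .k) (.R ⟨2,false,false,false,[0,1],[-1,1,1],[],(⟨0,[]⟩,⟨0,[]⟩),(⟨0,[(4,0)]⟩,⟨0,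
  [(21,0),(2,0)]⟩),⟨0,[]⟩,.k,.k,.k,.k,.k,.k,⟨true,1,⟨0,[(1,0),(16,0),(2,0),(0,0),(6,0)]⟩,⟨0,[(3,0),
  (16,0),(5,0)]⟩⟩,⟨false,1,⟨0,[(18,0),(2,0),(0,0),(6,0)]⟩,⟨0,[(7,0)]⟩⟩,⟨true,1,⟨1,[(27,1),(1,0),(0,
  0)]⟩,⟨0,[(3,0)]⟩⟩,⟨false,1,⟨1,[(0,0),(15,0),(10,0),(2,1)]⟩,⟨0,[(2,0)]⟩⟩,⟨false,1,⟨1,[(29,0),(0,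
  0)]⟩,⟨1,[(18,0),(0,0)]⟩⟩,⟨false,1,⟨1,[(0,1),(22,0),(6,0)]⟩,⟨0,[(1,0)]⟩⟩,[.a ⟨true,0,⟨0,[(0,0)]⟩,
  ⟨0,[(1,0)]⟩⟩ ⟨false,1,⟨3,[(10,0),(0,0),(17,1)]⟩,⟨0,[]⟩⟩ ⟨true,0,⟨4,[(0,3),(2,0),(11,0),(2,1),(1,
  0),(2,0),(2,0)]⟩,⟨0,[(1,0)]⟩⟩,.o ⟨false,1,⟨1,[(0,1),(22,0),(6,0)]⟩,⟨0,[(1,0),(0,0),(13,0)]⟩⟩,.o
  ⟨false,1,⟨3,[(10,0),(0,0),(17,1)]⟩,⟨4,[(1,0),(1,1),(1,0),(12,0),(4,1),(2,1)]⟩⟩,.e ⟨false,1,⟨1,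
  [(29,0),(0,0)]⟩,⟨1,[(18,0),(0,0)]⟩⟩ ⟨false,1,⟨1,[(0,1),(22,0),(6,0)]⟩,⟨0,[(1,0)]⟩⟩]⟩) (.Q [0,0,0,
  0,0,1,0,0,0,0,-1] (.ed true [1,-1,1] .k) (.Q [0,0,-1,0,0,0,-1,0,0,1,1] (.p true [1,-1,1] [] (⟨0,
  [(23,0),(1,0)]⟩,⟨0,[(0,0)]⟩) .k 0 (⟨0,[]⟩,⟨0,[]⟩) .k .k) (.R ⟨0,false,false,false,[0,1,-1],[1,0,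
  -1],[1,0,1],(⟨0,[(1,0)]⟩,⟨0,[(24,0),(1,0)]⟩),(⟨0,[(23,0)]⟩,⟨0,[(24,0)]⟩),⟨0,[(24,0)]⟩,.k,.k,.k,.k,
  .k,.k,⟨false,0,⟨0,[(22,0)]⟩,⟨0,[(10,0)]⟩⟩,⟨true,0,⟨6,[(2,0),(2,1),(1,0),(9,0),(2,1),(4,1),(2,1)]⟩,
  ⟨0,[(23,0),(0,0)]⟩⟩,⟨true,0,⟨0,[(7,0)]⟩,⟨0,[(5,0),(4,0)]⟩⟩,⟨false,1,⟨5,[(2,1),(4,1),(12,1),(4,0),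
  (3,1),(1,0),(0,3)]⟩,⟨0,[(23,0),(0,0),(5,0)]⟩⟩,⟨false,0,⟨0,[]⟩,⟨0,[]⟩⟩,⟨false,0,⟨0,[]⟩,⟨0,[]⟩⟩,[.o
  ⟨false,0,⟨0,[(4,0)]⟩,⟨3,[(12,0),(0,0),(4,3),(13,1)]⟩⟩,.o ⟨false,1,⟨3,[(4,1),(14,1),(5,0),(6,2)]⟩,
  ⟨0,[(18,0)]⟩⟩,.a ⟨true,0,⟨0,[(0,0)]⟩,⟨0,[(20,0)]⟩⟩ ⟨false,0,⟨0,[(28,0)]⟩,⟨3,[(12,0),(0,0),(17,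
  1)]⟩⟩ ⟨true,0,⟨0,[(4,0),(15,0)]⟩,⟨0,[(0,0),(17,0)]⟩⟩,.o ⟨false,0,⟨3,[(0,0),(10,0),(9,0)]⟩,⟨1,[(20,
  1),(4,0),(5,0)]⟩⟩]⟩) (.I [0,0,0,1,0,0,0,0,-1] (.Q [0,-1,0,1,0,0,0,0,-1,0,0,1] (.p true [0,0,0,1]
  [] (⟨0,[(16,0)]⟩,⟨1,[(15,0),(8,0),(0,0)]⟩) .k 0 (⟨0,[]⟩,⟨0,[]⟩) .k .k) (.Q [0,0,0,0,0,0,1,1,-1,0,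
  -1,1] (.p false [0,0,1] [0,0,0,1] (⟨0,[(26,0)]⟩,⟨0,[(25,0)]⟩) .k 2 (⟨0,[(17,0)]⟩,⟨1,[(16,0),(8,0),
  (0,0)]⟩) .k (.r 0 ⟨0,[(1,0),(7,0)]⟩ ⟨5,[(5,0),(4,0),(1,2),(2,2),(5,0),(0,2),(2,0),(0,0)]⟩)) (.R
  ⟨0,false,false,false,[0,0,0,1],[0,1],[0,1,1],(⟨0,[(18,0)]⟩,⟨1,[(17,0),(8,0),(0,0)]⟩),(⟨0,[(30,
  0)]⟩,⟨0,[(29,0)]⟩),⟨1,[(4,0),(4,0),(7,0)]⟩,.k,.k,(.x 0 ⟨1,[(3,0),(16,0),(8,1)]⟩ ⟨3,[(15,0),(0,0),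
  (13,3),(3,1)]⟩),(.x 0 ⟨1,[(3,0),(16,0),(8,1)]⟩ ⟨3,[(15,0),(0,0),(13,3),(3,1)]⟩),.k,.k,⟨true,0,⟨0,
  [(32,0)]⟩,⟨0,[(8,0),(26,0)]⟩⟩,⟨false,1,⟨0,[(18,0),(15,0)]⟩,⟨1,[(17,0),(2,0),(2,0)]⟩⟩,⟨true,(-1),
  ⟨1,[(0,1),(5,1),(1,1),(8,0),(8,0),(0,0)]⟩,⟨1,[(16,0),(17,0)]⟩⟩,⟨false,0,⟨0,[(1,0)]⟩,⟨15,[(3,1),(1,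
  1),(4,1),(5,7),(0,7),(10,0),(3,11),(1,0),(0,5)]⟩⟩,⟨false,0,⟨0,[]⟩,⟨0,[]⟩⟩,⟨false,0,⟨0,[]⟩,⟨0,[]⟩⟩,
  [.o ⟨false,0,⟨0,[(33,0)]⟩,⟨1,[(28,0),(3,1),(2,0)]⟩⟩,.o ⟨false,1,⟨1,[(2,1),(13,0),(18,0)]⟩,⟨1,[(5,
  0),(15,0),(10,0)]⟩⟩,.a ⟨true,0,⟨1,[(17,0),(8,0),(0,0)]⟩,⟨0,[(18,0)]⟩⟩ ⟨false,0,⟨1,[(23,0),(0,0)]⟩,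
  ⟨1,[(34,0),(0,0)]⟩⟩ ⟨true,0,⟨0,[(18,0),(14,0)]⟩,⟨3,[(5,0),(11,1),(3,0),(10,2)]⟩⟩,.o ⟨false,0,⟨1,
  [(17,0),(2,0),(2,0)]⟩,⟨1,[(18,1),(9,0),(5,0)]⟩⟩]⟩) (.R ⟨2,true,false,true,[0,1],[0,0,0,1],[0,1,1,
  1],(⟨0,[]⟩,⟨0,[]⟩),(⟨0,[(18,0)]⟩,⟨1,[(17,0),(8,0),(0,0)]⟩),⟨0,[]⟩,.k,.k,.k,(.r 0 ⟨1,[(2,1),(20,0),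
  (0,0)]⟩ ⟨0,[(0,0),(9,0),(7,0),(4,0),(10,0)]⟩),.k,.k,⟨false,0,⟨0,[(2,0)]⟩,⟨0,[(0,0),(9,0),(7,0),(4,
  0),(10,0)]⟩⟩,⟨true,0,⟨1,[(17,0),(2,0),(2,0)]⟩,⟨0,[(18,0)]⟩⟩,⟨true,0,⟨0,[(37,0)]⟩,⟨0,[]⟩⟩,⟨false,1,
  ⟨15,[(3,1),(1,1),(4,1),(5,7),(0,7),(10,0),(3,11),(1,0),(0,5)]⟩,⟨0,[(1,0)]⟩⟩,⟨false,0,⟨0,[(33,0)]⟩,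
  ⟨0,[(32,0),(2,0)]⟩⟩,⟨true,0,⟨0,[(0,0),(20,0)]⟩,⟨0,[(1,0),(30,0)]⟩⟩,[]⟩)) (.R ⟨0,false,false,false,
  [0,0,0,1],[0,1],[1,0,1,1],(⟨0,[(17,0)]⟩,⟨1,[(16,0),(8,0),(0,0)]⟩),(⟨0,[(29,0)]⟩,⟨0,[(28,0)]⟩),⟨1,
  [(3,0),(4,0),(7,0)]⟩,.k,.k,(.r (-1) ⟨1,[(0,1),(16,1),(15,0),(0,0)]⟩ ⟨1,[(1,1),(20,0),(0,0)]⟩),(.r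
  (-1) ⟨1,[(0,1),(16,1),(15,0),(0,0)]⟩ ⟨1,[(1,1),(20,0),(0,0)]⟩),.k,.k,⟨true,0,⟨0,[]⟩,⟨1,[(22,0),(0,
  0)]⟩⟩,⟨false,1,⟨0,[(17,0),(15,0)]⟩,⟨1,[(16,0),(2,0),(2,0)]⟩⟩,⟨false,0,⟨0,[(1,0),(28,0)]⟩,⟨1,[(0,
  1),(16,1),(15,0),(0,0)]⟩⟩,⟨true,0,⟨0,[(1,0),(15,0)]⟩,⟨0,[(0,0)]⟩⟩,⟨false,0,⟨0,[]⟩,⟨0,[]⟩⟩,⟨false,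
  0,⟨0,[]⟩,⟨0,[]⟩⟩,[.o ⟨false,0,⟨0,[(32,0)]⟩,⟨1,[(27,0),(3,1),(2,0)]⟩⟩,.o ⟨false,1,⟨1,[(1,1),(13,0),
  (18,0)]⟩,⟨1,[(4,0),(15,0),(10,0)]⟩⟩,.a ⟨true,0,⟨1,[(16,0),(8,0),(0,0)]⟩,⟨0,[(17,0)]⟩⟩ ⟨false,0,⟨0,
  [(7,0),(26,0)]⟩,⟨1,[(31,1),(1,0),(0,0)]⟩⟩ ⟨true,0,⟨0,[(17,0),(14,0)]⟩,⟨3,[(4,0),(11,1),(3,0),(10,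
  2)]⟩⟩,.o ⟨false,0,⟨1,[(16,0),(2,0),(2,0)]⟩,⟨1,[(17,1),(9,0),(5,0)]⟩⟩]⟩)) (.I [1,0,1,1,-1,0,0,0,1]
  (.R ⟨0,false,false,false,[0,0,0,1],[1,0,-1],[1,1,0,-1,0,0,0,0,1],(⟨0,[(17,0)]⟩,⟨1,[(16,0),(8,0),
  (0,0)]⟩),(⟨0,[(25,0)]⟩,⟨0,[(26,0)]⟩),⟨1,[(3,0),(4,0),(7,0)]⟩,.k,.k,(.r (-1) ⟨3,[(1,1),(13,0),(15,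
  1),(1,1),(0,0)]⟩ ⟨1,[(7,1),(6,0),(19,0)]⟩),.k,.k,.k,⟨false,0,⟨0,[(1,0),(5,0),(1,0),(23,0)]⟩,⟨1,
  [(10,1),(3,0),(7,1),(10,0)]⟩⟩,⟨true,0,⟨0,[(11,0),(5,0)]⟩,⟨1,[(16,0),(5,1),(2,0),(0,0)]⟩⟩,⟨true,0,
  ⟨0,[(31,0)]⟩,⟨0,[(32,0)]⟩⟩,⟨false,1,⟨1,[(6,1),(7,0),(2,1),(16,0)]⟩,⟨1,[(0,1),(8,1),(6,0),(5,1),(2,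
  0),(0,0),(6,1)]⟩⟩,⟨false,0,⟨0,[]⟩,⟨0,[]⟩⟩,⟨false,0,⟨0,[]⟩,⟨0,[]⟩⟩,[.o ⟨false,0,⟨0,[(6,0)]⟩,⟨3,
  [(14,0),(0,0),(4,3),(13,1)]⟩⟩,.o ⟨false,1,⟨3,[(6,1),(14,1),(5,0),(6,2)]⟩,⟨0,[(20,0)]⟩⟩,.a ⟨true,0,
  ⟨1,[(16,0),(8,0),(0,0)]⟩,⟨0,[(17,0)]⟩⟩ ⟨false,0,⟨0,[(1,0)]⟩,⟨1,[(14,0),(17,1),(1,0)]⟩⟩ ⟨true,0,⟨0,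
  [(6,0),(10,0)]⟩,⟨1,[(16,0),(3,1),(4,0),(0,0)]⟩⟩,.o ⟨false,0,⟨1,[(16,0),(2,0),(2,0)]⟩,⟨1,[(17,1),
  (9,0),(5,0)]⟩⟩]⟩) (.R ⟨0,false,false,false,[0,0,0,1],[1,-1],[0,0,-1,-1],(⟨0,[(17,0)]⟩,⟨1,[(16,0),
  (8,0),(0,0)]⟩),(⟨0,[(28,0)]⟩,⟨0,[(29,0)]⟩),⟨1,[(3,0),(4,0),(7,0)]⟩,.k,.k,(.r (-1) ⟨2,[(0,0),(0,1),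
  (13,0),(17,0)]⟩ ⟨1,[(7,1),(6,0),(19,0)]⟩),(.r 0 ⟨1,[(7,1),(7,0),(18,0)]⟩ ⟨0,[(0,0)]⟩),.k,.k,
  ⟨false,1,⟨3,[(14,0),(0,0),(17,1)]⟩,⟨0,[]⟩⟩,⟨true,0,⟨1,[(2,0),(14,1),(1,0)]⟩,⟨1,[(16,0),(8,0),(0,
  0)]⟩⟩,⟨true,1,⟨0,[(0,0)]⟩,⟨0,[(1,0),(5,0),(24,0)]⟩⟩,⟨false,1,⟨0,[(0,0),(1,0),(6,0),(0,0),(6,0)]⟩,
  ⟨1,[(1,1),(14,0),(8,0),(0,0),(5,3)]⟩⟩,⟨false,0,⟨0,[]⟩,⟨0,[]⟩⟩,⟨false,0,⟨0,[]⟩,⟨0,[]⟩⟩,[.o ⟨false,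
  1,⟨1,[(27,0),(3,1),(2,0)]⟩,⟨0,[(32,0)]⟩⟩,.o ⟨false,1,⟨4,[(0,0),(0,0),(0,0),(1,0),(4,0),(17,0),(3,
  0),(2,2)]⟩,⟨0,[(32,0),(3,0)]⟩⟩,.a ⟨true,0,⟨1,[(16,0),(8,0),(0,0)]⟩,⟨0,[(17,0)]⟩⟩ ⟨true,1,⟨5,[(0,
  3),(0,1),(13,0),(17,0)]⟩,⟨0,[(7,0)]⟩⟩ ⟨false,1,⟨4,[(0,0),(0,0),(0,0),(1,0),(4,0),(7,4),(9,0),(3,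
  0),(2,2)]⟩,⟨1,[(16,0),(8,0),(0,0),(5,1)]⟩⟩,.o ⟨false,0,⟨1,[(16,0),(2,0),(2,0)]⟩,⟨1,[(17,1),(9,0),
  (5,0)]⟩⟩]⟩)))) (.Q [0,1,0,-1,0,0,1,1,0,1,-1] (.p false [0,0,1] [1] (⟨0,[(23,0)]⟩,⟨0,[(22,0)]⟩) .k
  1 (⟨0,[]⟩,⟨0,[]⟩) .k .k) (.K ⟨1,[1,1,-1],0,0,(⟨0,[(23,0),(3,0)]⟩,⟨0,[(1,0)]⟩),.k,.k,(.r 1 ⟨0,[(5,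
  0),(2,0),(11,0)]⟩ ⟨3,[(7,3),(4,0),(0,0),(15,3),(1,3),(0,1)]⟩),.k,.k,[⟨1,[(20,2),(0,0),(1,1),(0,
  1)]⟩,⟨0,[(9,0)]⟩,⟨0,[(0,0)]⟩,⟨0,[(8,0)]⟩]⟩) (.Q [0,1,0,1,0,0,2,2,0,2,-2] (.p false [0,0,1] [2,-1,
  -1] (⟨0,[(24,0)]⟩,⟨0,[(23,0)]⟩) .k 2 (⟨0,[(23,0),(2,0)]⟩,⟨0,[(6,0)]⟩) .k (.r 0 ⟨0,[(22,1)]⟩ ⟨2,
  [(3,0),(4,0),(1,2),(8,0),(0,2),(2,0),(0,0)]⟩)) (.I [1,0,1,0,0,0,0,-2] (.R ⟨1,true,false,false,[0,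
  0,1],[2,-1,-1],[1,0,0,-1,0,0,0,1],(⟨0,[(26,0)]⟩,⟨0,[(25,0)]⟩),(⟨0,[(25,0),(2,0)]⟩,⟨0,[(8,0)]⟩),⟨0,
  [(3,0)]⟩,.k,.k,.k,(.x (-2) ⟨1,[(1,0),(6,1),(3,1),(9,1),(3,1),(4,0),(1,0),(0,0)]⟩ ⟨0,[(2,0),(1,0),
  (2,0),(1,0),(14,0),(0,1),(2,0)]⟩),.k,.k,⟨false,0,⟨0,[(24,1)]⟩,⟨0,[(0,0),(32,0)]⟩⟩,⟨true,(-1),⟨3,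
  [(2,2),(1,1),(2,3),(1,5),(0,0),(2,0)]⟩,⟨0,[(22,1),(2,1),(0,1),(6,0)]⟩⟩,⟨false,1,⟨0,[(31,0),(2,
  0)]⟩,⟨0,[(32,0)]⟩⟩,⟨true,0,⟨0,[(5,0),(0,0)]⟩,⟨0,[(1,0)]⟩⟩,⟨true,0,⟨0,[]⟩,⟨0,[(36,0)]⟩⟩,⟨false,0,
  ⟨0,[(4,0),(5,0)]⟩,⟨0,[(1,0),(29,0),(2,0)]⟩⟩,[]⟩) (.Q [0,-1,0,2,0,0,0,0,0,1] (.pp false [-1,1])
  (.R ⟨2,true,false,true,[0,1],[1,-1],[0,1,1,1],(⟨0,[]⟩,⟨0,[]⟩),(⟨0,[(29,0)]⟩,⟨0,[(30,0)]⟩),⟨0,[]⟩,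
  .k,.k,.k,(.r 1 ⟨4,[(0,1),(7,5),(19,0),(2,3)]⟩ ⟨0,[(32,1),(1,0),(0,0)]⟩),.k,.k,⟨true,(-1),⟨4,[(0,
  1),(7,5),(19,0),(2,3)]⟩,⟨0,[(6,0),(3,0),(12,0),(2,0),(0,0),(6,0)]⟩⟩,⟨false,0,⟨10,[(1,0),(3,1),(2,
  1),(11,2),(2,4),(4,1),(2,1)]⟩,⟨0,[(26,0),(0,0),(6,0)]⟩⟩,⟨true,0,⟨0,[(37,0)]⟩,⟨0,[]⟩⟩,⟨false,1,⟨5,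
  [(5,1),(4,1),(12,1),(4,0),(3,7),(1,0),(0,3)]⟩,⟨0,[(0,0)]⟩⟩,⟨false,0,⟨0,[(33,0)]⟩,⟨0,[(32,0),(2,
  0)]⟩⟩,⟨true,0,⟨1,[(5,0),(15,0),(10,0)]⟩,⟨6,[(0,2),(1,0),(19,1),(3,1),(0,1)]⟩⟩,[]⟩) (.I [0,0,-1,-1,
  1,0,0,0,-1] (.Q [0,-1,0,-1,1,0,2,2,0,1,-2] (.p false [0,0,1] [1,0,-1] (⟨0,[(28,0)]⟩,⟨0,[(27,0)]⟩)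
  .k 2 (⟨0,[(27,0)]⟩,⟨0,[(28,0)]⟩) .k (.r 0 ⟨8,[(2,5),(0,1),(7,1),(9,3),(10,1)]⟩ ⟨2,[(7,0),(4,0),(1,
  2),(8,0),(0,2),(2,0),(0,0)]⟩)) (.R ⟨1,true,false,true,[0,0,1],[1,1,-1],[0,1,0,0,0,0,0,1],(⟨0,[(29,
  0)]⟩,⟨0,[(28,0)]⟩),(⟨0,[(28,0),(3,0)]⟩,⟨0,[(6,0)]⟩),⟨0,[(6,0)]⟩,.k,.k,.k,(.r (-1) ⟨11,[(1,3),(1,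
  7),(8,7),(4,2),(0,4)]⟩ ⟨0,[(8,0),(1,0),(2,0),(11,1),(2,0),(0,0),(6,0)]⟩),(.r (-1) ⟨0,[(12,1),(23,
  0)]⟩ ⟨4,[(10,3),(2,5),(1,1),(1,0),(0,0),(5,1),(0,7)]⟩),.k,⟨false,1,⟨5,[(1,1),(1,3),(8,3),(5,0),
  (17,2)]⟩,⟨0,[(8,0),(1,0),(2,0),(11,1),(2,0),(0,0),(6,0)]⟩⟩,⟨true,0,⟨1,[(3,1),(4,0),(0,0),(3,0),
  (10,0)]⟩,⟨0,[(25,1),(2,0),(0,0)]⟩⟩,⟨true,0,⟨0,[(39,0)]⟩,⟨0,[]⟩⟩,⟨false,0,⟨0,[(5,0),(18,0)]⟩,⟨0,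
  [(0,0)]⟩⟩,⟨false,0,⟨0,[(35,0)]⟩,⟨0,[(34,0),(2,0)]⟩⟩,⟨true,(-1),⟨0,[(8,0),(1,1),(2,0),(22,0)]⟩,⟨0,
  [(0,0),(33,0)]⟩⟩,[]⟩) (.R ⟨1,true,false,true,[0,0,1],[1,0,-1],[1,1,0,-1,0,0,0,1],(⟨0,[(29,0)]⟩,⟨0,
  [(28,0)]⟩),(⟨0,[(28,0)]⟩,⟨0,[(29,0)]⟩),⟨0,[(6,0)]⟩,.k,.k,.k,.k,(.r (-1) ⟨11,[(1,3),(1,7),(8,7),(4,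
  2),(0,4)]⟩ ⟨1,[(0,0),(12,0),(1,0),(9,2),(2,0),(0,0)]⟩),.k,⟨true,0,⟨8,[(3,2),(0,0),(7,9),(9,1),(10,
  0)]⟩,⟨1,[(0,0),(12,0),(1,0),(9,2),(2,0),(0,0)]⟩⟩,⟨false,0,⟨6,[(0,1),(2,2),(4,1),(3,1),(0,1),(2,2),
  (19,1)]⟩,⟨0,[(25,1),(2,0),(0,0),(6,0)]⟩⟩,⟨true,0,⟨0,[(34,0)]⟩,⟨0,[(35,0)]⟩⟩,⟨false,0,⟨1,[(8,0),(0,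
  0),(3,0),(10,0)]⟩,⟨1,[(3,1),(21,3),(2,1),(0,1),(6,0),(0,0)]⟩⟩,⟨false,0,⟨0,[]⟩,⟨3,[(17,0),(0,0),
  (18,1)]⟩⟩,⟨true,(-1),⟨0,[(0,0)]⟩,⟨0,[(2,0),(1,0),(32,0)]⟩⟩,[]⟩)) (.Q [0,-1,0,-1,1,0,2,2,0,1,-2]
  (.p false [0,0,1] [1,0,-1] (⟨0,[(28,0)]⟩,⟨0,[(27,0)]⟩) .k 2 (⟨0,[(27,0)]⟩,⟨0,[(28,0)]⟩) .k (.r 0
  ⟨8,[(2,5),(0,1),(7,1),(9,3),(10,1)]⟩ ⟨2,[(7,0),(4,0),(1,2),(8,0),(0,2),(2,0),(0,0)]⟩)) (.R ⟨1,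
  true,false,true,[0,0,1],[1,1,-1],[0,1,0,0,0,0,0,1],(⟨0,[(29,0)]⟩,⟨0,[(28,0)]⟩),(⟨0,[(28,0),(3,
  0)]⟩,⟨0,[(6,0)]⟩),⟨0,[(6,0)]⟩,.k,.k,.k,(.r (-1) ⟨7,[(3,3),(8,7),(4,2),(0,2),(17,1)]⟩ ⟨0,[(8,0),(1,
  0),(2,0),(11,1),(2,0),(0,0),(6,0)]⟩),(.r (-1) ⟨0,[(12,1),(23,0)]⟩ ⟨4,[(10,3),(2,5),(1,1),(1,0),(0,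
  0),(5,1),(0,7)]⟩),.k,⟨false,1,⟨7,[(3,3),(8,7),(4,0),(0,0),(17,5)]⟩,⟨0,[(8,0),(1,0),(2,0),(11,1),
  (2,0),(0,0),(6,0)]⟩⟩,⟨true,0,⟨1,[(3,1),(4,0),(0,0),(3,0),(10,0)]⟩,⟨0,[(25,1),(2,0),(0,0)]⟩⟩,⟨true,
  0,⟨0,[(39,0)]⟩,⟨0,[]⟩⟩,⟨false,0,⟨0,[(5,0),(18,0)]⟩,⟨0,[(0,0)]⟩⟩,⟨false,0,⟨0,[(35,0)]⟩,⟨0,[(34,0),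
  (2,0)]⟩⟩,⟨true,(-1),⟨0,[(8,0),(1,1),(2,0),(22,0)]⟩,⟨0,[(0,0),(33,0)]⟩⟩,[]⟩) (.R ⟨1,true,false,
  true,[0,0,1],[1,0,-1],[1,1,0,-1,0,0,0,1],(⟨0,[(29,0)]⟩,⟨0,[(28,0)]⟩),(⟨0,[(28,0)]⟩,⟨0,[(29,0)]⟩),
  ⟨0,[(6,0)]⟩,.k,.k,.k,.k,(.r (-1) ⟨7,[(3,3),(8,7),(4,2),(0,2),(17,1)]⟩ ⟨1,[(0,0),(12,0),(1,0),(9,
  2),(2,0),(0,0)]⟩),.k,⟨true,0,⟨8,[(3,2),(0,0),(7,9),(9,1),(10,0)]⟩,⟨1,[(0,0),(12,0),(1,0),(9,2),(2,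
  0),(0,0)]⟩⟩,⟨false,0,⟨6,[(0,1),(2,2),(4,1),(3,1),(0,1),(2,2),(19,1)]⟩,⟨0,[(25,1),(2,0),(0,0),(6,
  0)]⟩⟩,⟨true,0,⟨0,[(34,0)]⟩,⟨0,[(35,0)]⟩⟩,⟨false,0,⟨1,[(8,0),(0,0),(3,0),(10,0)]⟩,⟨1,[(3,1),(21,3),
  (2,1),(0,1),(6,0),(0,0)]⟩⟩,⟨false,0,⟨0,[]⟩,⟨3,[(17,0),(0,0),(18,1)]⟩⟩,⟨true,(-1),⟨0,[(0,0)]⟩,⟨0,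
  [(2,0),(1,0),(32,0)]⟩⟩,[]⟩))))) (.Q [0,1,0,2,-1,0,-1,-1,0,0,1] (.p true [0,0,1] [] (⟨0,[(25,0)]⟩,
  ⟨0,[(24,0)]⟩) .k 0 (⟨0,[]⟩,⟨0,[]⟩) .k .k) (.R ⟨1,true,false,true,[0,0,1],[0,1],[1,1,0,-1,0,0,0,1],
  (⟨0,[(26,0)]⟩,⟨0,[(25,0)]⟩),(⟨0,[(29,0)]⟩,⟨0,[(28,0)]⟩),⟨0,[(3,0)]⟩,.k,.k,.k,.k,(.r (-2) ⟨3,[(9,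
  3),(4,0),(0,0),(15,3),(1,3),(0,1)]⟩ ⟨0,[(7,0),(2,0),(11,0)]⟩),.k,⟨true,1,⟨1,[(9,1),(21,1),(1,0),
  (0,0)]⟩,⟨0,[(7,0),(2,0),(11,0)]⟩⟩,⟨false,1,⟨1,[(13,0),(11,0),(0,0),(6,1)]⟩,⟨0,[(22,0)]⟩⟩,⟨true,0,
  ⟨0,[(31,0)]⟩,⟨0,[(32,0)]⟩⟩,⟨false,0,⟨7,[(0,1),(9,3),(3,0),(0,0),(5,1)]⟩,⟨1,[(9,1),(12,1),(10,0),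
  (0,0)]⟩⟩,⟨false,0,⟨0,[]⟩,⟨3,[(14,0),(0,0),(18,1)]⟩⟩,⟨true,(-1),⟨0,[(0,0)]⟩,⟨1,[(9,1),(12,1),(8,1),
  (1,0),(0,0)]⟩⟩,[]⟩) (.Q [0,-1,0,0,1,0,2,2,0,1,-2] (.p false [0,0,1] [1,0,-1] (⟨0,[(26,0)]⟩,⟨0,
  [(25,0)]⟩) .k 2 (⟨0,[(25,0)]⟩,⟨0,[(26,0)]⟩) .k (.r 0 ⟨0,[(24,1)]⟩ ⟨4,[(1,0),(8,0),(1,4),(8,1),(0,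
  4),(2,1),(0,1)]⟩)) (.R ⟨1,true,false,true,[0,0,1],[1,0,-1],[1,1,0,-1,0,0,0,1],(⟨0,[(27,0)]⟩,⟨0,
  [(26,0)]⟩),(⟨0,[(26,0)]⟩,⟨0,[(27,0)]⟩),⟨0,[(4,0)]⟩,.k,.k,.k,.k,(.r (-1) ⟨3,[(10,3),(4,0),(0,0),(8,
  3),(8,1)]⟩ ⟨1,[(2,0),(5,1),(2,0),(1,0),(9,2),(2,1),(0,1),(6,0)]⟩),.k,⟨true,0,⟨0,[(10,0),(14,0)]⟩,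
  ⟨1,[(2,0),(5,1),(2,0),(1,0),(9,2),(2,1),(0,1),(6,0)]⟩⟩,⟨false,0,⟨2,[(2,0),(5,2),(1,3),(0,1),(2,0),
  (19,2)]⟩,⟨0,[(23,1),(2,0),(0,0),(6,0)]⟩⟩,⟨true,0,⟨0,[(32,0)]⟩,⟨0,[(33,0)]⟩⟩,⟨false,0,⟨4,[(2,1),(0,
  0),(7,0),(10,3)]⟩,⟨0,[(0,0)]⟩⟩,⟨false,0,⟨0,[]⟩,⟨3,[(15,0),(0,0),(18,1)]⟩⟩,⟨true,(-1),⟨0,[(2,0),(5,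
  1),(17,0),(0,0),(6,0)]⟩,⟨0,[(0,0),(31,0)]⟩⟩,[]⟩) (.I [0,0,1,1,0,0,0,-1,-1] (.I [1,0,0,0,0,0,0,-1,
  -1] (.Q [0,-1,0,-1,1,0,0,0,1,0,0,-1] (.p false [0,0,0,1] [] (⟨0,[(20,0)]⟩,⟨1,[(19,0),(8,0),(0,
  0)]⟩) .k 0 (⟨0,[]⟩,⟨0,[]⟩) .k .k) (.Q [0,0,0,0,0,-1,0,0,0,1,0,-1] (.p false [0,0,0,1] [1] (⟨0,
  [(21,0)]⟩,⟨1,[(20,0),(8,0),(0,0)]⟩) .k 1 (⟨0,[]⟩,⟨0,[]⟩) .k .k) (.R ⟨1,false,false,false,[1,0,0,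
  -1],[1,-1],[1,0,0,-1,0,0,0,0,-1],(⟨1,[(21,0),(8,0),(0,0)]⟩,⟨0,[(22,0)]⟩),(⟨0,[(33,0)]⟩,⟨0,[(34,
  0)]⟩),⟨0,[(0,0)]⟩,.k,.k,(.r (-1) ⟨3,[(2,1),(2,0),(8,1),(4,0),(6,0),(11,1)]⟩ ⟨1,[(12,1),(7,0),(18,
  0)]⟩),(.x (-1) ⟨3,[(19,0),(0,0),(13,3),(3,1)]⟩ ⟨6,[(9,0),(2,1),(1,0),(9,0),(2,1),(4,1),(0,6),(1,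
  1)]⟩),.k,.k,⟨false,0,⟨0,[(2,0),(26,0)]⟩,⟨1,[(20,0),(17,0)]⟩⟩,⟨true,0,⟨1,[(21,0),(2,0),(2,0)]⟩,⟨0,
  [(22,0)]⟩⟩,⟨false,1,⟨1,[(5,0),(20,0),(12,0)]⟩,⟨0,[(37,0)]⟩⟩,⟨false,1,⟨0,[(1,0)]⟩,⟨0,[(2,0),(19,0),
  (6,0),(7,0)]⟩⟩,⟨true,0,⟨0,[]⟩,⟨0,[(41,0)]⟩⟩,⟨false,1,⟨0,[(1,0),(35,0)]⟩,⟨0,[(2,0),(19,0),(6,0)]⟩⟩,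
  [.o ⟨false,1,⟨15,[(5,3),(0,1),(12,2),(0,2),(11,5),(3,5)]⟩,⟨0,[(37,0)]⟩⟩,.o ⟨false,1,⟨19,[(5,7),(0,
  3),(12,0),(0,0),(11,5),(6,3)]⟩,⟨0,[(37,0),(3,0)]⟩⟩,.a ⟨true,0,⟨0,[(22,0)]⟩,⟨1,[(21,0),(8,0),(0,
  0)]⟩⟩ ⟨true,0,⟨0,[(2,0),(11,0)]⟩,⟨1,[(12,1),(7,0),(17,0)]⟩⟩ ⟨false,1,⟨33,[(1,13),(3,7),(0,3),(12,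
  6),(1,9),(10,0),(6,3)]⟩,⟨0,[(22,0),(14,0)]⟩⟩,.o ⟨false,0,⟨6,[(9,0),(2,1),(1,0),(7,6),(1,0),(2,1),
  (4,1),(2,1)]⟩,⟨7,[(19,0),(0,0),(0,3),(10,1),(5,3)]⟩⟩]⟩) (.Q [0,0,0,-1,0,0,0,0,-1,-1,0,1] (.p true
  [0,0,0,1] [1] (⟨0,[(22,0)]⟩,⟨1,[(21,0),(8,0),(0,0)]⟩) .k 1 (⟨0,[]⟩,⟨0,[]⟩) .k .k) (.R ⟨0,false,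
  false,true,[1,0,0,-1],[0,1],[1,1,1,1],(⟨1,[(22,0),(8,0),(0,0)]⟩,⟨0,[(23,0)]⟩),(⟨0,[(35,0)]⟩,⟨0,
  [(34,0)]⟩),⟨0,[(1,0)]⟩,.k,.k,(.r (-1) ⟨3,[(3,1),(2,0),(8,1),(4,0),(6,0),(11,1)]⟩ ⟨1,[(13,1),(7,0),
  (18,0)]⟩),(.r (-1) ⟨3,[(3,1),(2,0),(8,1),(4,0),(6,0),(11,1)]⟩ ⟨1,[(13,1),(7,0),(18,0)]⟩),.k,.k,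
  ⟨true,0,⟨0,[]⟩,⟨1,[(28,0),(0,0)]⟩⟩,⟨false,1,⟨1,[(22,0),(8,0),(0,0),(6,1)]⟩,⟨3,[(0,1),(12,1),(7,0),
  (1,1),(9,0),(2,1)]⟩⟩,⟨false,0,⟨1,[(13,1),(7,0),(18,0)]⟩,⟨1,[(3,1),(11,1),(23,0),(0,0)]⟩⟩,⟨true,0,
  ⟨1,[(13,1),(7,0),(0,0),(8,0),(0,0),(6,0)]⟩,⟨0,[(0,0)]⟩⟩,⟨false,0,⟨0,[]⟩,⟨0,[]⟩⟩,⟨false,0,⟨0,[]⟩,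
  ⟨0,[]⟩⟩,[.o ⟨false,0,⟨0,[(38,0),(3,0)]⟩,⟨19,[(6,7),(0,3),(12,0),(0,0),(11,5),(6,3)]⟩⟩,.o ⟨false,0,
  ⟨0,[(38,0)]⟩,⟨15,[(6,3),(0,1),(12,2),(0,2),(11,5),(3,5)]⟩⟩,.a ⟨true,0,⟨0,[(23,0)]⟩,⟨1,[(22,0),(8,
  0),(0,0)]⟩⟩ ⟨true,(-1),⟨0,[(13,0)]⟩,⟨1,[(6,0),(20,0),(11,0)]⟩⟩ ⟨false,0,⟨1,[(22,0),(8,0),(0,0),(5,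
  1)]⟩,⟨1,[(0,1),(20,0),(18,0)]⟩⟩,.o ⟨false,0,⟨3,[(0,1),(12,1),(7,0),(1,1),(9,0),(2,1)]⟩,⟨7,[(20,0),
  (0,0),(0,3),(10,1),(5,3)]⟩⟩]⟩) (.R ⟨2,true,false,true,[0,1],[1,0,0,-1],[1,0,1],(⟨0,[]⟩,⟨0,[]⟩),
  (⟨1,[(22,0),(8,0),(0,0)]⟩,⟨0,[(23,0)]⟩),⟨0,[]⟩,.k,.k,.k,(.r 0 ⟨1,[(13,1),(7,0),(18,0)]⟩ ⟨3,[(3,1),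
  (2,0),(8,1),(4,0),(6,0),(11,1)]⟩),.k,.k,⟨false,1,⟨1,[(21,0),(18,0)]⟩,⟨0,[(3,0),(9,0),(1,0),(23,
  0)]⟩⟩,⟨true,0,⟨6,[(10,0),(2,1),(1,0),(7,6),(1,0),(2,1),(4,1),(2,1)]⟩,⟨1,[(22,0),(8,0),(0,0)]⟩⟩,
  ⟨false,1,⟨1,[(6,0),(20,0),(12,0)]⟩,⟨0,[(38,0)]⟩⟩,⟨true,0,⟨4,[(3,2),(1,0),(4,1),(4,2),(4,0),(2,4),
  (2,3)]⟩,⟨0,[(0,0)]⟩⟩,⟨true,0,⟨0,[]⟩,⟨0,[(42,0)]⟩⟩,⟨false,0,⟨0,[(3,0),(4,0),(6,0),(7,0),(2,0)]⟩,⟨7,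
  [(0,3),(1,3),(17,0),(0,0),(9,3),(0,3),(7,1)]⟩⟩,[]⟩))) (.R ⟨2,true,false,false,[0,1],[0,0,0,1],[1,
  0,1],(⟨0,[]⟩,⟨0,[]⟩),(⟨0,[(21,0)]⟩,⟨1,[(20,0),(8,0),(0,0)]⟩),⟨0,[]⟩,.k,.k,.k,(.r 1 ⟨1,[(0,1),(5,
  0),(6,0),(6,0),(5,0),(7,0)]⟩ ⟨3,[(4,1),(13,0),(0,2),(5,1),(11,1)]⟩),.k,.k,⟨false,0,⟨21,[(0,11),(3,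
  5),(0,1),(0,1),(11,4),(1,5),(17,0)]⟩,⟨1,[(19,0),(17,0)]⟩⟩,⟨true,0,⟨1,[(20,0),(2,0),(2,0)]⟩,⟨0,
  [(21,0)]⟩⟩,⟨false,1,⟨1,[(4,0),(20,0),(12,0)]⟩,⟨0,[(36,0)]⟩⟩,⟨true,1,⟨15,[(4,3),(0,1),(12,0),(0,8),
  (0,7),(10,1),(3,5)]⟩,⟨0,[(0,0)]⟩⟩,⟨true,0,⟨0,[]⟩,⟨0,[(40,0)]⟩⟩,⟨false,1,⟨3,[(4,0),(1,1),(12,1),(0,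
  1),(3,0),(13,0)]⟩,⟨5,[(0,1),(0,1),(11,1),(4,0),(2,3),(16,0)]⟩⟩,[]⟩)) (.Q [0,-1,0,-1,1,0,0,0,-1,-1,
  0,1] (.p true [0,0,0,1] [1] (⟨0,[(20,0)]⟩,⟨1,[(19,0),(8,0),(0,0)]⟩) .k 1 (⟨0,[]⟩,⟨0,[]⟩) .k .k)
  (.Q [0,-1,0,0,1,0,1,1,-1,0,-1,1] (.p false [0,0,1] [0,0,0,1] (⟨0,[(30,0)]⟩,⟨0,[(29,0)]⟩) .k 2 (⟨0,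
  [(21,0)]⟩,⟨1,[(20,0),(8,0),(0,0)]⟩) .k (.x (-1) ⟨7,[(16,3),(1,0),(0,0),(4,3),(1,3),(3,7),(7,1)]⟩
  ⟨0,[(15,0),(13,0)]⟩)) (.Q [0,-1,0,-1,1,0,1,1,-1,0,-1,1] (.p false [0,0,1] [0,0,0,1] (⟨0,[(31,0)]⟩,
  ⟨0,[(30,0)]⟩) .k 2 (⟨0,[(22,0)]⟩,⟨1,[(21,0),(8,0),(0,0)]⟩) .k (.x (-1) ⟨31,[(0,7),(16,15),(1,0),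
  (0,4),(0,3),(3,7),(1,15),(3,31),(0,1)]⟩ ⟨0,[(16,0),(13,0)]⟩)) (.Q [0,0,0,0,0,1,0,0,0,0,0,-1] (.p
  false [0,0,0,1] [] (⟨0,[(23,0)]⟩,⟨1,[(22,0),(8,0),(0,0)]⟩) .k 0 (⟨0,[]⟩,⟨0,[]⟩) .k .k) (.R ⟨0,
  false,false,true,[0,0,0,1],[1,0,-1],[0,1,0,0,0,0,0,-1],(⟨0,[(24,0)]⟩,⟨1,[(23,0),(8,0),(0,0)]⟩),
  (⟨0,[(32,0)]⟩,⟨0,[(33,0)]⟩),⟨0,[(0,0)]⟩,.k,.k,(.r (-1) ⟨3,[(4,1),(1,1),(0,1),(14,0),(6,1),(2,1),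
  (0,1),(6,2)]⟩ ⟨1,[(14,1),(6,0),(19,0)]⟩),.k,.k,.k,⟨false,1,⟨3,[(21,0),(0,0),(17,1)]⟩,⟨0,[]⟩⟩,
  ⟨true,0,⟨0,[(18,0),(5,0)]⟩,⟨1,[(23,0),(5,1),(2,0),(0,0)]⟩⟩,⟨true,0,⟨1,[(1,1),(4,1),(7,1),(8,0),(5,
  1),(2,0),(0,0),(6,1)]⟩,⟨0,[(4,0)]⟩⟩,⟨false,0,⟨0,[(2,0),(3,0)]⟩,⟨1,[(4,1),(18,0),(5,1),(2,0),(0,0),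
  (6,0),(0,0)]⟩⟩,⟨false,0,⟨0,[]⟩,⟨0,[]⟩⟩,⟨false,0,⟨0,[]⟩,⟨0,[]⟩⟩,[.o ⟨false,0,⟨0,[(25,0)]⟩,⟨0,[(27,
  0),(13,0)]⟩⟩,.o ⟨false,0,⟨0,[(13,0)]⟩,⟨15,[(2,7),(18,0),(0,4),(0,3),(3,7),(6,1)]⟩⟩,.a ⟨true,0,⟨1,
  [(23,0),(8,0),(0,0)]⟩,⟨0,[(24,0)]⟩⟩ ⟨true,0,⟨1,[(6,0),(12,0),(7,0),(1,0),(2,0),(0,0)]⟩,⟨0,[(31,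
  0)]⟩⟩ ⟨false,0,⟨9,[(3,1),(2,3),(2,1),(12,0),(1,7),(9,0)]⟩,⟨3,[(2,1),(1,1),(18,2),(5,1),(2,0),(0,
  0),(6,0),(0,0)]⟩⟩,.o ⟨false,0,⟨1,[(23,0),(2,0),(2,0)]⟩,⟨1,[(24,1),(9,0),(5,0)]⟩⟩]⟩) (.Q [0,0,0,0,
  0,0,0,0,-1,0,0,1] (.p true [0,0,0,1] [] (⟨0,[(24,0)]⟩,⟨1,[(23,0),(8,0),(0,0)]⟩) .k 0 (⟨0,[]⟩,⟨0,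
  []⟩) .k .k) (.R ⟨1,false,false,true,[0,0,0,1],[0,1],[1,1,0,-1,0,0,0,0,1],(⟨0,[(25,0)]⟩,⟨1,[(24,0),
  (8,0),(0,0)]⟩),(⟨0,[(37,0)]⟩,⟨0,[(36,0)]⟩),⟨0,[(1,0)]⟩,.k,.k,(.r (-1) ⟨3,[(5,1),(1,1),(0,1),(14,
  0),(6,1),(2,1),(0,1),(6,2)]⟩ ⟨1,[(15,1),(6,0),(19,0)]⟩),(.r (-1) ⟨3,[(5,1),(1,1),(0,1),(14,0),(6,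
  1),(2,1),(0,1),(6,2)]⟩ ⟨1,[(15,1),(6,0),(19,0)]⟩),(.r (-2) ⟨5,[(7,1),(0,4),(14,2),(5,0),(3,1),(0,
  1),(4,1),(1,5)]⟩ ⟨1,[(0,0),(2,0),(6,0),(4,2),(8,0),(13,0)]⟩),.k,⟨true,1,⟨0,[(5,0),(1,0),(0,0),(21,
  0),(2,0),(0,0),(6,0)]⟩,⟨1,[(0,0),(2,0),(6,0),(4,2),(8,0),(13,0)]⟩⟩,⟨false,1,⟨0,[(25,0),(15,0)]⟩,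
  ⟨1,[(24,0),(2,0),(2,0)]⟩⟩,⟨true,0,⟨0,[(39,0)]⟩,⟨0,[(40,0)]⟩⟩,⟨false,0,⟨0,[(0,0),(39,0)]⟩,⟨7,[(5,
  1),(2,3),(0,1),(8,1),(4,2),(0,3),(5,1),(10,0)]⟩⟩,⟨false,0,⟨0,[]⟩,⟨3,[(22,0),(0,0),(18,1)]⟩⟩,
  ⟨false,0,⟨0,[(0,0),(39,1)]⟩,⟨7,[(5,5),(1,1),(0,5),(0,3),(13,0),(0,3),(5,5),(2,5),(0,5),(6,2)]⟩⟩,
  [.o ⟨false,0,⟨0,[(40,0),(3,0)]⟩,⟨19,[(8,7),(0,3),(12,0),(0,0),(11,5),(6,3)]⟩⟩,.o ⟨false,0,⟨0,[(40,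
  0)]⟩,⟨15,[(8,3),(0,1),(12,2),(0,2),(11,5),(3,5)]⟩⟩,.a ⟨true,0,⟨1,[(24,0),(8,0),(0,0)]⟩,⟨0,[(25,
  0)]⟩⟩ ⟨true,0,⟨1,[(5,1),(1,1),(0,0),(19,0),(1,1),(2,1),(0,1),(6,0)]⟩,⟨1,[(0,1),(9,0),(13,0),(3,0),
  (11,0)]⟩⟩ ⟨false,0,⟨0,[(25,0),(14,0)]⟩,⟨39,[(8,15),(0,7),(12,6),(0,6),(0,19),(10,1),(6,7)]⟩⟩,.o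
  ⟨false,0,⟨1,[(24,0),(2,0),(2,0)]⟩,⟨1,[(25,1),(9,0),(5,0)]⟩⟩]⟩) (.R ⟨1,false,false,false,[0,0,0,1],
  [1,-1],[0,0,0,0,0,0,0,0,1],(⟨0,[(25,0)]⟩,⟨1,[(24,0),(8,0),(0,0)]⟩),(⟨0,[(36,0)]⟩,⟨0,[(37,0)]⟩),⟨0,
  [(1,0)]⟩,.k,.k,(.r (-1) ⟨9,[(0,3),(6,1),(0,3),(14,2),(1,3),(7,1),(0,1),(4,1),(1,4)]⟩ ⟨1,[(15,1),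
  (6,0),(19,0)]⟩),(.r 0 ⟨1,[(15,1),(7,0),(18,0)]⟩ ⟨5,[(2,3),(4,1),(14,0),(1,1),(14,1),(1,2)]⟩),.k,
  .k,⟨false,0,⟨0,[(0,0),(24,0),(14,0)]⟩,⟨5,[(2,3),(4,1),(14,0),(1,1),(14,1),(1,2)]⟩⟩,⟨true,0,⟨5,[(4,
  0),(0,0),(6,0),(2,1),(9,4),(1,0),(2,1),(4,0),(2,0)]⟩,⟨1,[(24,0),(8,0),(0,0)]⟩⟩,⟨false,1,⟨3,[(22,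
  0),(0,0),(18,1)]⟩,⟨0,[]⟩⟩,⟨false,1,⟨0,[(4,0)]⟩,⟨0,[(0,0),(32,0),(0,0),(5,0)]⟩⟩,⟨true,0,⟨0,[(40,
  0)]⟩,⟨0,[(39,0)]⟩⟩,⟨false,1,⟨5,[(3,1),(0,1),(5,1),(11,0),(2,1),(9,0)]⟩,⟨0,[(0,0),(32,0),(0,0)]⟩⟩,
  [.o ⟨false,1,⟨15,[(8,3),(0,1),(12,2),(0,2),(11,5),(3,5)]⟩,⟨0,[(40,0)]⟩⟩,.o ⟨false,1,⟨19,[(8,7),(0,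
  3),(12,0),(0,0),(11,5),(6,3)]⟩,⟨0,[(40,0),(3,0)]⟩⟩,.a ⟨true,0,⟨1,[(24,0),(8,0),(0,0)]⟩,⟨0,[(25,
  0)]⟩⟩ ⟨true,0,⟨0,[(0,0),(24,0)]⟩,⟨3,[(2,1),(4,1),(7,1),(6,0),(1,0),(3,1),(4,0),(0,0),(6,0)]⟩⟩
  ⟨false,1,⟨3,[(2,1),(9,1),(10,0),(1,1),(16,0)]⟩,⟨1,[(24,0),(8,0),(0,0),(5,1)]⟩⟩,.o ⟨false,0,⟨1,
  [(24,0),(2,0),(2,0)]⟩,⟨1,[(25,1),(9,0),(5,0)]⟩⟩]⟩))) (.R ⟨1,true,false,true,[0,0,1],[0,0,0,1],[1,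
  1,0,-1,0,0,0,1],(⟨0,[(32,0)]⟩,⟨0,[(31,0)]⟩),(⟨0,[(23,0)]⟩,⟨1,[(22,0),(8,0),(0,0)]⟩),⟨0,[(9,0)]⟩,
  .k,.k,.k,.k,(.r (-1) ⟨1,[(15,1),(4,0),(18,0)]⟩ ⟨4,[(0,1),(3,0),(11,1),(4,1),(1,1),(4,3)]⟩),.k,
  ⟨false,1,⟨1,[(15,1),(4,0),(18,0)]⟩,⟨1,[(0,1),(22,1),(4,1),(10,0),(0,0)]⟩⟩,⟨true,0,⟨1,[(19,0),(2,
  0)]⟩,⟨0,[(23,0),(4,0)]⟩⟩,⟨true,0,⟨0,[(37,0)]⟩,⟨0,[(38,0)]⟩⟩,⟨false,0,⟨2,[(0,0),(6,0),(13,0),(0,0),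
  (8,0),(0,0)]⟩,⟨0,[(1,0)]⟩⟩,⟨false,0,⟨0,[]⟩,⟨3,[(20,0),(0,0),(18,1)]⟩⟩,⟨true,(-1),⟨0,[(0,0)]⟩,⟨0,
  [(1,0),(35,0)]⟩⟩,[]⟩)) (.Q [0,0,0,0,0,1,0,0,0,0,0,-1] (.p false [0,0,0,1] [] (⟨0,[(22,0)]⟩,⟨1,
  [(21,0),(8,0),(0,0)]⟩) .k 0 (⟨0,[]⟩,⟨0,[]⟩) .k .k) (.R ⟨0,false,false,false,[0,0,0,1],[0,0,1],[1,
  0,0,0,0,0,0,1],(⟨0,[(23,0)]⟩,⟨1,[(22,0),(8,0),(0,0)]⟩),(⟨0,[(32,0)]⟩,⟨0,[(31,0)]⟩),⟨0,[(0,0)]⟩,.k,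
  .k,(.r (-1) ⟨5,[(1,1),(4,2),(14,1),(1,1),(3,0),(11,2)]⟩ ⟨1,[(13,1),(6,0),(19,0)]⟩),.k,.k,.k,⟨true,
  0,⟨0,[]⟩,⟨1,[(28,0),(0,0)]⟩⟩,⟨false,1,⟨0,[(23,0),(4,0),(10,0)]⟩,⟨1,[(19,0),(2,0)]⟩⟩,⟨false,1,⟨1,
  [(20,0),(9,1),(9,0)]⟩,⟨1,[(1,1),(21,1),(4,1),(10,0),(0,0)]⟩⟩,⟨true,1,⟨1,[(20,0),(2,1),(2,1),(13,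
  0)]⟩,⟨0,[(1,0)]⟩⟩,⟨false,0,⟨0,[]⟩,⟨0,[]⟩⟩,⟨false,0,⟨0,[]⟩,⟨0,[]⟩⟩,[.o ⟨false,1,⟨3,[(20,0),(0,0),
  (4,3),(13,1)]⟩,⟨0,[(12,0)]⟩⟩,.o ⟨false,1,⟨0,[(26,0),(13,0)]⟩,⟨0,[(24,0)]⟩⟩,.a ⟨true,0,⟨1,[(22,0),
  (8,0),(0,0)]⟩,⟨0,[(23,0)]⟩⟩ ⟨true,0,⟨0,[(30,0)]⟩,⟨1,[(5,0),(12,0),(7,0),(1,0),(2,0),(0,0)]⟩⟩
  ⟨false,1,⟨0,[(23,0),(2,0),(13,0)]⟩,⟨9,[(7,1),(0,0),(7,0),(5,4),(4,3)]⟩⟩,.o ⟨false,0,⟨1,[(22,0),(2,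
  0),(2,0)]⟩,⟨1,[(23,1),(9,0),(5,0)]⟩⟩]⟩) (.R ⟨1,false,false,false,[0,0,0,1],[1,-1],[1,0,0,-1,0,0,0,
  0,1],(⟨0,[(23,0)]⟩,⟨1,[(22,0),(8,0),(0,0)]⟩),(⟨0,[(34,0)]⟩,⟨0,[(35,0)]⟩),⟨0,[(0,0)]⟩,.k,.k,(.r
  (-1) ⟨5,[(1,1),(4,2),(14,1),(1,1),(3,0),(11,2)]⟩ ⟨1,[(13,1),(6,0),(19,0)]⟩),(.x (-1) ⟨3,[(20,0),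
  (0,0),(13,3),(3,1)]⟩ ⟨1,[(0,1),(21,0),(2,0),(2,0)]⟩),.k,.k,⟨false,0,⟨3,[(1,1),(1,1),(19,1),(4,1),
  (10,0),(0,0)]⟩,⟨1,[(20,0),(18,0)]⟩⟩,⟨true,0,⟨5,[(2,0),(0,0),(6,0),(2,1),(9,4),(1,0),(2,1),(4,0),
  (2,0)]⟩,⟨1,[(22,0),(8,0),(0,0)]⟩⟩,⟨false,1,⟨1,[(6,0),(20,0),(12,0)]⟩,⟨0,[(38,0)]⟩⟩,⟨false,1,⟨0,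
  [(2,0)]⟩,⟨2,[(1,0),(1,1),(12,0),(5,0),(5,1),(2,1),(0,1),(5,1),(0,0)]⟩⟩,⟨true,0,⟨0,[]⟩,⟨0,[(42,
  0)]⟩⟩,⟨false,1,⟨0,[(2,0),(35,0)]⟩,⟨3,[(1,1),(1,1),(18,0),(5,1),(2,2),(0,2),(6,0),(0,0)]⟩⟩,[.o
  ⟨false,1,⟨15,[(6,3),(0,1),(12,2),(0,2),(11,5),(3,5)]⟩,⟨0,[(38,0)]⟩⟩,.o ⟨false,1,⟨19,[(6,7),(0,3),
  (12,0),(0,0),(11,5),(6,3)]⟩,⟨0,[(38,0),(3,0)]⟩⟩,.a ⟨true,0,⟨1,[(22,0),(8,0),(0,0)]⟩,⟨0,[(23,0)]⟩⟩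
  ⟨true,0,⟨7,[(1,5),(1,1),(2,3),(16,5),(4,1),(10,0),(0,0)]⟩,⟨1,[(13,1),(6,0),(18,0)]⟩⟩ ⟨false,1,⟨7,
  [(2,1),(3,1),(3,1),(10,0),(1,5),(9,0),(6,1)]⟩,⟨1,[(22,0),(8,0),(0,0),(5,1)]⟩⟩,.o ⟨false,0,⟨1,[(22,
  0),(2,0),(2,0)]⟩,⟨1,[(23,1),(9,0),(5,0)]⟩⟩]⟩))) (.R ⟨2,true,false,false,[0,1],[1,0,0,-1],[1,0,1],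
  (⟨0,[]⟩,⟨0,[]⟩),(⟨1,[(20,0),(8,0),(0,0)]⟩,⟨0,[(21,0)]⟩),⟨0,[]⟩,.k,.k,.k,(.r 1 ⟨0,[(0,0),(5,0),(6,
  0),(7,0),(4,0)]⟩ ⟨3,[(4,1),(13,2),(0,0),(5,1),(11,1)]⟩),.k,.k,⟨false,0,⟨25,[(0,13),(0,1),(2,7),(1,
  5),(1,3),(10,4),(1,13),(4,1),(10,0)]⟩,⟨1,[(18,0),(18,0)]⟩⟩,⟨true,0,⟨6,[(8,0),(2,1),(1,0),(7,6),(1,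
  0),(2,1),(4,1),(2,1)]⟩,⟨1,[(20,0),(8,0),(0,0)]⟩⟩,⟨false,1,⟨1,[(4,0),(20,0),(12,0)]⟩,⟨0,[(36,0)]⟩⟩,
  ⟨true,1,⟨3,[(4,0),(3,0),(9,1),(2,3),(9,0),(3,0)]⟩,⟨0,[(0,0)]⟩⟩,⟨true,0,⟨0,[]⟩,⟨0,[(40,0)]⟩⟩,
  ⟨false,1,⟨1,[(4,0),(1,1),(11,0),(2,1),(2,0)]⟩,⟨8,[(0,4),(3,1),(0,0),(13,1),(0,1),(8,3),(0,3),(7,
  0)]⟩⟩,[]⟩))) (.Q [0,1,0,1,-1,0,0,0,1,1,0,-1] (.p false [0,0,0,1] [1] (⟨0,[(19,0)]⟩,⟨1,[(18,0),(8,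
  0),(0,0)]⟩) .k 1 (⟨0,[]⟩,⟨0,[]⟩) .k .k) (.R ⟨2,true,false,false,[0,1],[1,0,0,-1],[1,0,1],(⟨0,[]⟩,
  ⟨0,[]⟩),(⟨1,[(19,0),(8,0),(0,0)]⟩,⟨0,[(20,0)]⟩),⟨0,[]⟩,.k,.k,.k,(.r 1 ⟨1,[(0,0),(0,0),(3,0),(4,0),
  (9,0),(4,0),(7,0)]⟩ ⟨3,[(3,1),(13,2),(0,0),(5,1),(11,1)]⟩),.k,.k,⟨false,0,⟨21,[(0,5),(0,5),(2,1),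
  (0,1),(12,4),(1,5),(4,5),(11,0)]⟩,⟨1,[(17,0),(18,0)]⟩⟩,⟨true,0,⟨6,[(7,0),(2,1),(1,0),(7,6),(1,0),
  (2,1),(4,1),(2,1)]⟩,⟨1,[(19,0),(8,0),(0,0)]⟩⟩,⟨false,1,⟨1,[(3,0),(20,0),(12,0)]⟩,⟨0,[(35,0)]⟩⟩,
  ⟨true,1,⟨3,[(3,0),(3,0),(9,1),(2,3),(9,0),(3,0)]⟩,⟨0,[(0,0)]⟩⟩,⟨true,0,⟨0,[]⟩,⟨0,[(39,0)]⟩⟩,
  ⟨false,1,⟨1,[(3,0),(1,1),(11,0),(2,1),(2,0)]⟩,⟨12,[(0,6),(2,3),(0,0),(8,1),(4,2),(0,2),(8,4),(0,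
  4)]⟩⟩,[]⟩) (.Q [0,0,0,0,0,1,0,0,0,0,0,-1] (.p false [0,0,0,1] [] (⟨0,[(20,0)]⟩,⟨1,[(19,0),(8,0),
  (0,0)]⟩) .k 0 (⟨0,[]⟩,⟨0,[]⟩) .k .k) (.R ⟨0,false,false,false,[0,0,0,1],[1,0,-1],[1,0,1],(⟨0,[(21,
  0)]⟩,⟨1,[(20,0),(8,0),(0,0)]⟩),(⟨0,[(29,0)]⟩,⟨0,[(30,0)]⟩),⟨0,[(0,0)]⟩,.k,.k,(.r (-1) ⟨3,[(2,1),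
  (1,0),(11,1),(2,0),(5,0)]⟩ ⟨1,[(11,1),(6,0),(19,0)]⟩),.k,.k,.k,⟨false,0,⟨0,[(28,0)]⟩,⟨0,[(16,
  0)]⟩⟩,⟨true,0,⟨0,[(15,0),(5,0)]⟩,⟨1,[(20,0),(5,1),(2,0),(0,0)]⟩⟩,⟨true,0,⟨1,[(1,1),(9,1),(8,0),(8,
  0),(0,0)]⟩,⟨0,[(2,0),(8,0),(4,0)]⟩⟩,⟨false,1,⟨11,[(1,7),(4,3),(7,3),(3,2),(0,0),(1,3),(3,3)]⟩,⟨1,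
  [(2,1),(17,0),(5,1),(2,0),(0,0),(5,1)]⟩⟩,⟨false,0,⟨0,[]⟩,⟨0,[]⟩⟩,⟨false,0,⟨0,[]⟩,⟨0,[]⟩⟩,[.o
  ⟨false,0,⟨0,[(10,0)]⟩,⟨3,[(18,0),(0,0),(4,3),(13,1)]⟩⟩,.o ⟨false,1,⟨11,[(5,3),(0,3),(11,4),(0,4),
  (18,1)]⟩,⟨0,[(24,0)]⟩⟩,.a ⟨true,0,⟨1,[(20,0),(8,0),(0,0)]⟩,⟨0,[(21,0)]⟩⟩ ⟨false,0,⟨0,[(34,0)]⟩,⟨3,
  [(18,0),(0,0),(17,1)]⟩⟩ ⟨true,0,⟨9,[(1,1),(1,3),(2,1),(12,0),(1,7),(9,0)]⟩,⟨1,[(20,0),(3,1),(4,0),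
  (0,0)]⟩⟩,.o ⟨false,0,⟨1,[(20,0),(2,0),(2,0)]⟩,⟨1,[(21,1),(9,0),(5,0)]⟩⟩]⟩) (.R ⟨1,true,false,
  false,[0,0,0,1],[1,1,-1],[0,1,0,0,0,0,0,0,1],(⟨0,[(21,0)]⟩,⟨1,[(20,0),(8,0),(0,0)]⟩),(⟨0,[(29,0),
  (3,0)]⟩,⟨0,[(7,0)]⟩),⟨0,[(0,0)]⟩,.k,.k,(.r (-1) ⟨3,[(2,1),(1,0),(11,1),(2,0),(5,0)]⟩ ⟨1,[(11,1),
  (6,0),(19,0)]⟩),(.x 0 ⟨0,[(7,0),(18,0)]⟩ ⟨7,[(17,3),(0,0),(0,0),(9,7),(1,1),(1,7),(3,3)]⟩),(.r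
  (-1) ⟨1,[(2,1),(1,0),(20,0),(11,0)]⟩ ⟨3,[(11,3),(2,3),(3,2),(0,0),(6,3)]⟩),.k,⟨true,0,⟨0,[(2,0),
  (37,0)]⟩,⟨1,[(1,1),(9,1),(2,1),(5,0),(5,1),(2,0),(0,0)]⟩⟩,⟨false,1,⟨0,[(15,0),(5,0),(15,0)]⟩,⟨1,
  [(20,0),(5,1),(2,0),(0,0)]⟩⟩,⟨true,0,⟨0,[(40,0)]⟩,⟨0,[]⟩⟩,⟨false,1,⟨3,[(6,3),(11,2),(0,0),(1,3)]⟩,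
  ⟨1,[(2,1),(17,0),(5,1),(2,0),(0,0)]⟩⟩,⟨false,0,⟨0,[(36,0)]⟩,⟨1,[(4,0),(20,0),(12,0)]⟩⟩,⟨true,0,⟨1,
  [(6,1),(4,1),(6,0),(2,1),(15,0)]⟩,⟨1,[(2,1),(17,0),(5,1),(2,0),(0,0),(4,1)]⟩⟩,[]⟩))))))))))))

theorem ok131 : chk (cU (-1) false 2) t131 r68 = true := by decide +kernel

noncomputable def t139 : Tre :=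
  (.Q [0,0,0,0,0,1,0,0,0,-1,1] (.ed false [0,1,1] .k) (.Q [0,-1,0,1,0,0,1,1,0,2,-1] (.p false [-1,1,
  1] [1] (⟨0,[(0,0)]⟩,⟨0,[(16,0),(2,0)]⟩) .k 1 (⟨0,[]⟩,⟨0,[]⟩) .k .k) (.R ⟨0,false,false,true,[1,0,
  -1],[2,-1,-1],[1],(⟨0,[(17,0)]⟩,⟨0,[(18,0)]⟩),(⟨0,[(17,0),(2,0)]⟩,⟨0,[(1,0)]⟩),⟨0,[(1,0)]⟩,.k,.k,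
  .k,.k,.k,.k,⟨false,0,⟨1,[(4,1),(19,1),(0,0),(0,0)]⟩,⟨0,[(3,0),(10,0),(2,0),(0,0),(6,0)]⟩⟩,⟨true,0,
  ⟨2,[(4,0),(5,0),(3,0),(4,0),(2,0)]⟩,⟨0,[(17,0),(0,0)]⟩⟩,⟨false,0,⟨1,[(4,1),(20,0),(0,0)]⟩,⟨1,[(13,
  1),(0,1),(10,0),(0,0)]⟩⟩,⟨true,0,⟨0,[(3,0),(0,0),(9,0),(10,0)]⟩,⟨1,[(0,0),(12,0),(10,0)]⟩⟩,⟨false,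
  0,⟨0,[]⟩,⟨0,[]⟩⟩,⟨false,0,⟨0,[]⟩,⟨0,[]⟩⟩,[.a ⟨true,0,⟨0,[(3,0)]⟩,⟨0,[(0,0)]⟩⟩ ⟨true,0,⟨0,[]⟩,⟨1,
  [(14,0),(0,0)]⟩⟩ ⟨false,1,⟨0,[(3,0),(10,0),(10,0)]⟩,⟨5,[(0,3),(3,1),(0,1),(18,1),(0,0),(0,0)]⟩⟩,
  .o ⟨false,1,⟨1,[(3,1),(15,0),(6,0)]⟩,⟨1,[(0,0),(11,0),(11,0)]⟩⟩,.o ⟨false,0,⟨1,[(4,1),(5,1),(14,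
  0),(0,0)]⟩,⟨3,[(6,0),(0,0),(6,3),(10,1)]⟩⟩,.o ⟨false,0,⟨0,[(11,0)]⟩,⟨0,[(14,0),(10,0)]⟩⟩]⟩) (.Q
  [0,1,0,1,-1,0,1,1,-1,1,-1,1] (.p false [-1,1,1] [0,0,0,1] (⟨0,[(1,0)]⟩,⟨0,[(17,0),(2,0)]⟩) .k 2
  (⟨0,[(9,0)]⟩,⟨1,[(8,0),(8,0),(0,0)]⟩) .k (.x (-1) ⟨3,[(6,0),(0,0),(6,3),(3,3),(6,1)]⟩ ⟨5,[(0,1),
  (3,1),(0,1),(11,5),(6,1),(0,0),(0,0)]⟩)) (.Q [0,0,0,0,0,1,0,0,0,0,0,-1] (.p false [0,0,0,1] []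
  (⟨0,[(10,0)]⟩,⟨1,[(9,0),(8,0),(0,0)]⟩) .k 0 (⟨0,[]⟩,⟨0,[]⟩) .k .k) (.R ⟨0,false,false,true,[0,0,0,
  1],[-1,1,1],[0,1],(⟨0,[(11,0)]⟩,⟨1,[(10,0),(8,0),(0,0)]⟩),(⟨0,[(3,0)]⟩,⟨0,[(19,0),(2,0)]⟩),⟨0,[(0,
  0)]⟩,.k,.k,(.x 0 ⟨4,[(2,0),(3,0),(6,0),(2,1),(4,0),(0,4),(1,0),(1,0)]⟩ ⟨3,[(8,0),(0,0),(13,3),(3,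
  1)]⟩),(.r (-2) ⟨1,[(5,1),(3,0),(6,1),(2,1),(0,1),(6,1),(0,0)]⟩ ⟨5,[(1,5),(0,3),(3,3),(0,0),(2,2),
  (13,1),(1,3),(1,3)]⟩),.k,.k,⟨false,2,⟨1,[(5,1),(10,1),(2,1),(0,1),(6,2),(0,0)]⟩,⟨0,[(6,0),(19,
  0)]⟩⟩,⟨true,1,⟨0,[(11,0),(4,0),(2,0),(0,0),(6,0)]⟩,⟨1,[(2,0),(3,1),(3,0),(1,0),(11,1),(1,0)]⟩⟩,
  ⟨false,0,⟨1,[(1,1),(0,0),(2,0),(4,0),(17,1)]⟩,⟨1,[(9,0),(18,0)]⟩⟩,⟨true,(-1),⟨0,[(1,0)]⟩,⟨1,[(2,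
  0),(2,0),(3,0),(0,0),(17,0)]⟩⟩,⟨false,0,⟨0,[]⟩,⟨0,[]⟩⟩,⟨false,0,⟨0,[]⟩,⟨0,[]⟩⟩,[.o ⟨false,0,⟨5,
  [(1,3),(6,0),(0,2),(0,1),(3,1),(11,1)]⟩,⟨0,[(2,0),(25,0)]⟩⟩,.o ⟨false,0,⟨2,[(1,1),(4,0),(2,0),(0,
  0),(5,0),(9,0),(0,0),(0,0)]⟩,⟨1,[(5,1),(15,0),(6,0)]⟩⟩,.a ⟨true,0,⟨1,[(10,0),(8,0),(0,0)]⟩,⟨0,
  [(11,0)]⟩⟩ ⟨true,0,⟨0,[(30,0)]⟩,⟨0,[]⟩⟩ ⟨false,0,⟨1,[(1,1),(7,0),(18,0)]⟩,⟨1,[(2,0),(2,0),(4,0),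
  (17,1)]⟩⟩,.o ⟨false,0,⟨1,[(10,0),(2,0),(2,0)]⟩,⟨1,[(11,1),(9,0),(5,0)]⟩⟩]⟩) (.Q [0,0,0,2,0,0,1,1,
  1,2,-1,-1] (.p false [-1,1,1] [1,0,0,-1] (⟨0,[(3,0)]⟩,⟨0,[(19,0),(2,0)]⟩) .k 2 (⟨1,[(10,0),(8,0),
  (0,0)]⟩,⟨0,[(11,0)]⟩) .k (.r 0 ⟨1,[(6,1),(2,0),(17,0)]⟩ ⟨1,[(1,1),(3,1),(4,0),(1,0),(2,0),(0,1),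
  (10,0),(0,2)]⟩)) (.Q [0,-1,0,2,0,0,1,1,0,2,-1] (.p false [-1,1,1] [1] (⟨0,[(4,0)]⟩,⟨0,[(20,0),(2,
  0)]⟩) .k 1 (⟨0,[]⟩,⟨0,[]⟩) .k .k) (.R ⟨1,true,true,false,[2,-1,-1],[],[0,0,-1,-1,0,0,0,-1],(⟨0,
  [(21,0),(2,0)]⟩,⟨0,[(5,0)]⟩),(⟨0,[]⟩,⟨0,[]⟩),⟨0,[(2,1),(9,0),(8,0)]⟩,.k,.k,(.x 1 ⟨0,[(2,1),(1,0),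
  (3,0),(3,0),(8,0),(4,0),(1,0)]⟩ ⟨3,[(10,0),(0,0),(6,3),(3,3),(2,7),(3,5)]⟩),.k,(.x 1 ⟨0,[(2,1),(1,
  0),(3,0),(3,0),(8,0),(4,0),(1,0)]⟩ ⟨3,[(10,0),(0,0),(6,3),(3,3),(2,7),(3,5)]⟩),.k,⟨false,2,⟨1,[(7,
  1),(10,1),(2,1),(0,1),(6,2),(0,0)]⟩,⟨0,[(8,0),(19,0)]⟩⟩,⟨true,1,⟨0,[(18,0),(2,1),(0,1),(6,0)]⟩,⟨0,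
  [(4,0),(3,0),(17,0),(1,0)]⟩⟩,⟨false,1,⟨3,[(10,0),(0,0),(18,1)]⟩,⟨0,[]⟩⟩,⟨true,0,⟨0,[(0,0),(26,
  0)]⟩,⟨0,[(4,0)]⟩⟩,⟨true,0,⟨0,[(28,0)]⟩,⟨0,[(27,0)]⟩⟩,⟨false,0,⟨0,[(0,0)]⟩,⟨0,[(4,0),(22,0),(2,
  0)]⟩⟩,[]⟩) (.R ⟨1,false,false,false,[0,0,0,1],[1,-1],[0,1,0,0,0,0,0,0,1],(⟨0,[(13,0)]⟩,⟨1,[(12,0),
  (8,0),(0,0)]⟩),(⟨0,[(24,0)]⟩,⟨0,[(25,0)]⟩),⟨0,[(2,0)]⟩,.k,.k,(.x 0 ⟨1,[(2,1),(9,0),(2,0),(2,0)]⟩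
  ⟨3,[(10,0),(0,0),(13,3),(3,1)]⟩),(.r 0 ⟨0,[(1,0),(2,0),(8,0),(12,0)]⟩ ⟨3,[(0,1),(2,1),(6,0),(1,0),
  (8,0),(0,0),(4,1),(1,1),(0,2)]⟩),.k,.k,⟨false,0,⟨0,[(1,0),(2,0),(8,0)]⟩,⟨1,[(0,1),(2,1),(8,0),(8,
  0),(0,0),(6,0),(0,2)]⟩⟩,⟨true,0,⟨4,[(4,0),(3,0),(4,4),(1,0),(2,1),(4,0),(2,0),(1,0)]⟩,⟨1,[(12,0),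
  (8,0),(0,0)]⟩⟩,⟨true,0,⟨0,[(32,0)]⟩,⟨0,[]⟩⟩,⟨true,0,⟨0,[(0,0),(2,0),(26,0)]⟩,⟨0,[(1,0),(5,0)]⟩⟩,
  ⟨false,0,⟨0,[(28,0)]⟩,⟨0,[(27,0),(2,0)]⟩⟩,⟨true,0,⟨0,[(3,0),(0,0),(25,0)]⟩,⟨0,[(0,0),(0,0),(19,0),
  (0,0)]⟩⟩,[.o ⟨false,1,⟨1,[(23,0),(3,1),(2,0)]⟩,⟨0,[(28,0)]⟩⟩,.o ⟨false,1,⟨1,[(0,0),(15,0),(13,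
  1)]⟩,⟨2,[(1,0),(1,0),(10,0),(2,0),(5,0)]⟩⟩,.a ⟨true,0,⟨1,[(12,0),(8,0),(0,0)]⟩,⟨0,[(13,0)]⟩⟩
  ⟨true,0,⟨0,[(0,0),(0,0),(11,0)]⟩,⟨1,[(3,1),(0,0),(2,0),(4,0),(17,1)]⟩⟩ ⟨false,1,⟨1,[(0,0),(12,1),
  (2,0),(13,1)]⟩,⟨1,[(12,0),(8,0),(0,0),(5,1)]⟩⟩,.o ⟨false,0,⟨1,[(12,0),(2,0),(2,0)]⟩,⟨1,[(13,1),(9,
  0),(5,0)]⟩⟩]⟩)) (.Q [0,-1,0,2,0,0,1,1,0,2,-1] (.p false [-1,1,1] [1] (⟨0,[(4,0)]⟩,⟨0,[(20,0),(2,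
  0)]⟩) .k 1 (⟨0,[]⟩,⟨0,[]⟩) .k .k) (.R ⟨1,true,true,false,[2,-1,-1],[],[0,0,-1,-1,0,0,0,-1],(⟨0,
  [(21,0),(2,0)]⟩,⟨0,[(5,0)]⟩),(⟨0,[]⟩,⟨0,[]⟩),⟨0,[(2,1),(9,0),(8,0)]⟩,.k,.k,(.r (-2) ⟨1,[(1,1),(9,
  0),(0,0),(5,1),(2,2),(0,2),(6,2)]⟩ ⟨3,[(0,0),(7,3),(6,1),(1,0),(0,1),(9,5)]⟩),.k,(.r (-2) ⟨1,[(1,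
  1),(9,0),(0,0),(5,1),(2,2),(0,2),(6,2)]⟩ ⟨3,[(0,0),(7,3),(6,1),(1,0),(0,1),(9,5)]⟩),.k,⟨false,2,
  ⟨3,[(1,1),(9,0),(0,0),(4,1),(0,3),(2,2),(0,2),(6,5),(0,0)]⟩,⟨0,[(8,0),(19,0)]⟩⟩,⟨true,1,⟨0,[(18,
  0),(2,1),(0,1),(6,0)]⟩,⟨0,[(4,0),(3,0),(17,0),(1,0)]⟩⟩,⟨false,1,⟨3,[(10,0),(0,0),(18,1)]⟩,⟨0,[]⟩⟩,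
  ⟨true,0,⟨0,[(0,0),(26,0)]⟩,⟨0,[(4,0)]⟩⟩,⟨true,0,⟨0,[(28,0)]⟩,⟨0,[(27,0)]⟩⟩,⟨false,0,⟨0,[(0,0)]⟩,
  ⟨7,[(1,7),(8,0),(0,4),(0,3),(10,1)]⟩⟩,[]⟩) (.I [1,1,0,-1,0,0,0,-1,-1] (.R ⟨1,false,false,true,[0,
  0,0,1],[2,-1,-1],[0,0,0,0,0,0,0,0,1],(⟨0,[(14,0)]⟩,⟨1,[(13,0),(8,0),(0,0)]⟩),(⟨0,[(22,0),(2,0)]⟩,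
  ⟨0,[(6,0)]⟩),⟨0,[(3,0)]⟩,.k,.k,(.x 0 ⟨1,[(3,1),(9,0),(2,0),(2,0)]⟩ ⟨3,[(11,0),(0,0),(13,3),(3,
  1)]⟩),(.r 0 ⟨3,[(9,1),(2,1),(6,0),(0,0),(0,1),(7,3)]⟩ ⟨1,[(0,1),(29,0),(0,0)]⟩),.k,.k,⟨true,0,⟨1,
  [(9,1),(2,0),(16,1),(1,0)]⟩,⟨0,[(0,0)]⟩⟩,⟨false,0,⟨1,[(5,1),(3,1),(4,1),(14,1),(0,0),(0,0)]⟩,⟨1,
  [(13,0),(5,1),(2,2),(0,2),(6,1)]⟩⟩,⟨false,1,⟨3,[(11,0),(0,0),(18,1)]⟩,⟨0,[]⟩⟩,⟨false,0,⟨0,[(2,0),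
  (26,0)]⟩,⟨0,[(4,0),(7,0),(0,0),(17,0)]⟩⟩,⟨true,0,⟨0,[(29,0)]⟩,⟨0,[(28,0)]⟩⟩,⟨false,0,⟨0,[(2,0),
  (26,1)]⟩,⟨1,[(9,1),(2,0),(0,0),(5,1),(2,2),(0,2),(6,1),(0,0)]⟩⟩,[.o ⟨false,0,⟨0,[(5,0)]⟩,⟨5,[(4,
  3),(6,0),(0,2),(0,1),(3,1),(11,1),(1,5)]⟩⟩,.o ⟨false,1,⟨1,[(8,1),(15,0),(6,0)]⟩,⟨2,[(4,1),(4,0),
  (2,0),(0,0),(5,0),(9,0),(0,0),(0,0)]⟩⟩,.a ⟨true,0,⟨1,[(13,0),(8,0),(0,0)]⟩,⟨0,[(14,0)]⟩⟩ ⟨false,1,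
  ⟨1,[(12,0),(18,0)]⟩,⟨5,[(2,1),(1,1),(6,0),(1,1),(15,1),(1,0)]⟩⟩ ⟨true,0,⟨0,[(5,0),(8,0)]⟩,⟨1,[(4,
  1),(7,0),(0,1),(17,0)]⟩⟩,.o ⟨false,0,⟨1,[(13,0),(2,0),(2,0)]⟩,⟨1,[(14,1),(9,0),(5,0)]⟩⟩]⟩) (.R ⟨1,
  false,false,true,[0,0,0,1],[1,-1],[0,0,0,0,0,0,0,0,1],(⟨0,[(14,0)]⟩,⟨1,[(13,0),(8,0),(0,0)]⟩),(⟨0,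
  [(25,0)]⟩,⟨0,[(26,0)]⟩),⟨0,[(3,0)]⟩,.k,.k,(.x 0 ⟨1,[(3,1),(9,0),(2,0),(2,0)]⟩ ⟨3,[(11,0),(0,0),
  (13,3),(3,1)]⟩),(.x (-1) ⟨3,[(11,0),(0,0),(13,3),(3,1)]⟩ ⟨1,[(3,1),(9,0),(2,0),(2,0)]⟩),.k,.k,
  ⟨false,1,⟨1,[(12,0),(16,1),(1,0)]⟩,⟨1,[(2,0),(1,0),(8,0),(14,0),(1,0)]⟩⟩,⟨true,0,⟨14,[(0,2),(1,1),
  (1,0),(0,1),(8,11),(1,5),(2,8),(4,0),(4,1)]⟩,⟨1,[(13,0),(8,0),(0,0)]⟩⟩,⟨false,1,⟨3,[(11,0),(0,0),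
  (18,1)]⟩,⟨0,[]⟩⟩,⟨false,0,⟨2,[(2,1),(1,0),(12,0),(13,0)]⟩,⟨1,[(12,0),(0,0),(8,0),(0,0),(5,1),(1,
  0)]⟩⟩,⟨true,0,⟨0,[(29,0)]⟩,⟨0,[(28,0)]⟩⟩,⟨false,0,⟨3,[(2,1),(1,1),(19,0),(4,1),(1,0)]⟩,⟨1,[(12,0),
  (0,0),(8,0),(0,0),(7,0)]⟩⟩,[.o ⟨false,0,⟨1,[(1,0),(15,0)]⟩,⟨3,[(11,0),(0,0),(16,3),(1,1)]⟩⟩,.o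
  ⟨false,1,⟨1,[(24,0),(3,1),(2,0)]⟩,⟨0,[(29,0)]⟩⟩,.a ⟨true,0,⟨1,[(13,0),(8,0),(0,0)]⟩,⟨0,[(14,0)]⟩⟩
  ⟨false,1,⟨1,[(12,0),(18,0)]⟩,⟨5,[(2,1),(1,1),(6,0),(1,1),(15,1),(1,0)]⟩⟩ ⟨true,0,⟨1,[(1,0),(12,1),
  (2,0)]⟩,⟨1,[(13,0),(8,0),(0,0),(5,1)]⟩⟩,.o ⟨false,0,⟨1,[(13,0),(2,0),(2,0)]⟩,⟨1,[(14,1),(9,0),(5,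
  0)]⟩⟩]⟩))))) (.Q [0,0,0,-1,0,0,1,1,0,0,-1] (.p false [0,0,1] [] (⟨0,[(19,0)]⟩,⟨0,[(18,0)]⟩) .k 0
  (⟨0,[]⟩,⟨0,[]⟩) .k .k) (.Q [0,1,0,1,-1,0,1,1,1,2,-1,-1] (.p false [-1,1,1] [1,0,0,-1] (⟨0,[(3,
  0)]⟩,⟨0,[(19,0),(2,0)]⟩) .k 2 (⟨1,[(10,0),(8,0),(0,0)]⟩,⟨0,[(11,0)]⟩) .k (.x (-1) ⟨3,[(8,0),(0,0),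
  (6,3),(3,3),(6,1)]⟩ ⟨5,[(2,1),(3,1),(0,1),(11,5),(6,1),(0,0),(0,0)]⟩)) (.Q [0,0,0,0,0,1,0,0,0,0,0,
  -1] (.p false [0,0,0,1] [] (⟨0,[(12,0)]⟩,⟨1,[(11,0),(8,0),(0,0)]⟩) .k 0 (⟨0,[]⟩,⟨0,[]⟩) .k .k)
  (.R ⟨0,false,false,false,[0,0,0,1],[2,-1,-1],[1],(⟨0,[(13,0)]⟩,⟨1,[(12,0),(8,0),(0,0)]⟩),(⟨0,[(21,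
  0),(2,0)]⟩,⟨0,[(5,0)]⟩),⟨0,[(0,0)]⟩,.k,.k,(.x 0 ⟨4,[(4,0),(3,0),(6,0),(2,1),(4,0),(0,4),(1,0),(1,
  0)]⟩ ⟨3,[(10,0),(0,0),(13,3),(3,1)]⟩),(.r 1 ⟨0,[(1,0),(2,0),(3,0),(4,0),(14,0),(1,0)]⟩ ⟨1,[(7,1),
  (2,0),(7,1),(2,1),(0,1),(6,1),(0,0)]⟩),.k,.k,⟨true,(-1),⟨0,[(8,0),(19,0)]⟩,⟨1,[(7,1),(10,1),(2,1),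
  (0,1),(6,0),(0,0)]⟩⟩,⟨false,0,⟨1,[(4,1),(3,1),(4,1),(14,1),(0,0),(0,0)]⟩,⟨1,[(12,0),(5,1),(2,2),
  (0,2),(6,1)]⟩⟩,⟨false,1,⟨1,[(10,0),(19,0)]⟩,⟨0,[(1,0),(2,0),(8,0),(16,0)]⟩⟩,⟨true,1,⟨1,[(4,1),(5,
  0),(2,1),(16,0)]⟩,⟨0,[(1,0)]⟩⟩,⟨false,0,⟨0,[]⟩,⟨0,[]⟩⟩,⟨false,0,⟨0,[]⟩,⟨0,[]⟩⟩,[.o ⟨false,1,⟨1,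
  [(7,1),(15,0),(6,0)]⟩,⟨3,[(1,1),(0,1),(7,0),(2,1),(14,3),(1,0)]⟩⟩,.o ⟨false,1,⟨0,[(4,0),(25,0)]⟩,
  ⟨7,[(1,3),(8,2),(0,0),(1,3),(2,3),(11,3)]⟩⟩,.a ⟨true,0,⟨1,[(12,0),(8,0),(0,0)]⟩,⟨0,[(13,0)]⟩⟩
  ⟨true,0,⟨0,[]⟩,⟨0,[(32,0)]⟩⟩ ⟨false,1,⟨0,[(4,0),(8,0),(16,0)]⟩,⟨1,[(1,1),(8,0),(19,0)]⟩⟩,.o
  ⟨false,0,⟨1,[(12,0),(2,0),(2,0)]⟩,⟨1,[(13,1),(9,0),(5,0)]⟩⟩]⟩) (.Q [0,1,0,-1,0,0,0,0,-1,-1,0,1]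
  (.p true [0,0,0,1] [1] (⟨0,[(13,0)]⟩,⟨1,[(12,0),(8,0),(0,0)]⟩) .k 1 (⟨0,[]⟩,⟨0,[]⟩) .k .k) (.R ⟨1,
  false,false,true,[0,0,0,1],[1,-1],[0,1,0,0,0,0,0,0,1],(⟨0,[(14,0)]⟩,⟨1,[(13,0),(8,0),(0,0)]⟩),(⟨0,
  [(25,0)]⟩,⟨0,[(26,0)]⟩),⟨0,[(1,0)]⟩,.k,.k,(.r (-1) ⟨7,[(2,1),(0,1),(0,3),(7,0),(1,5),(13,3),(1,3),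
  (0,0)]⟩ ⟨1,[(0,1),(12,0),(8,0),(0,0),(3,1),(1,3)]⟩),(.r 0 ⟨4,[(2,0),(6,0),(2,1),(1,0),(0,1),(3,0),
  (7,2),(1,3)]⟩ ⟨1,[(0,1),(12,0),(8,0),(0,0),(6,0),(0,0)]⟩),.k,.k,⟨false,0,⟨0,[(2,0),(2,0),(8,0),
  (14,0),(1,0)]⟩,⟨1,[(0,1),(12,0),(8,0),(0,0),(6,0),(0,0)]⟩⟩,⟨true,0,⟨4,[(5,0),(3,0),(4,4),(1,0),(2,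
  1),(4,0),(2,0),(1,0)]⟩,⟨1,[(13,0),(8,0),(0,0)]⟩⟩,⟨true,0,⟨0,[(33,0)]⟩,⟨0,[]⟩⟩,⟨true,0,⟨0,[(0,0)]⟩,
  ⟨2,[(2,1),(1,0),(13,0),(10,1),(1,0)]⟩⟩,⟨false,0,⟨0,[(29,0)]⟩,⟨0,[(28,0),(2,0)]⟩⟩,⟨true,0,⟨0,[(0,
  0),(28,0)]⟩,⟨1,[(2,0),(1,0),(17,0),(0,0)]⟩⟩,[.o ⟨false,0,⟨3,[(3,0),(1,1),(11,0),(10,0)]⟩,⟨3,[(11,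
  0),(0,0),(16,3),(1,1)]⟩⟩,.o ⟨false,1,⟨11,[(0,3),(2,3),(0,3),(6,2),(0,2),(11,1)]⟩,⟨0,[(29,0)]⟩⟩,.a
  ⟨true,0,⟨1,[(13,0),(8,0),(0,0)]⟩,⟨0,[(14,0)]⟩⟩ ⟨false,0,⟨0,[(2,0),(2,0),(8,0),(16,0)]⟩,⟨1,[(11,0),
  (19,0)]⟩⟩ ⟨true,0,⟨6,[(0,2),(1,0),(0,1),(1,2),(6,0),(1,4)]⟩,⟨1,[(13,0),(8,0),(0,0),(5,1)]⟩⟩,.o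
  ⟨false,0,⟨1,[(13,0),(2,0),(2,0)]⟩,⟨1,[(14,1),(9,0),(5,0)]⟩⟩]⟩) (.I [1,1,0,-1,0,0,0,-1,1] (.R ⟨1,
  false,false,true,[1,0,0,-1],[1,0,-1],[0,0,0,0,0,0,0,0,-1],(⟨1,[(14,0),(8,0),(0,0)]⟩,⟨0,[(15,0)]⟩),
  (⟨0,[(23,0)]⟩,⟨0,[(24,0)]⟩),⟨0,[(2,0),(11,0)]⟩,.k,.k,(.x 0 ⟨1,[(2,1),(11,0),(2,0),(2,0)]⟩ ⟨3,[(12,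
  0),(0,0),(13,3),(3,1)]⟩),.k,(.r (-1) ⟨1,[(4,1),(6,0),(0,0),(10,0),(0,0),(6,0)]⟩ ⟨0,[(0,0),(27,0),
  (1,1)]⟩),.k,⟨false,1,⟨1,[(10,1),(1,0),(18,1),(0,0)]⟩,⟨0,[(0,0),(29,0)]⟩⟩,⟨true,0,⟨1,[(11,0),(2,
  0)]⟩,⟨0,[(15,0),(4,0)]⟩⟩,⟨false,1,⟨3,[(12,0),(0,0),(18,1)]⟩,⟨0,[]⟩⟩,⟨false,0,⟨0,[(1,0),(7,0)]⟩,⟨1,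
  [(4,1),(7,0),(2,1),(14,1),(1,0)]⟩⟩,⟨true,0,⟨0,[(30,0)]⟩,⟨0,[(29,0)]⟩⟩,⟨false,0,⟨0,[(1,0),(14,0)]⟩,
  ⟨1,[(4,1),(7,0),(2,1),(16,0)]⟩⟩,[.o ⟨false,0,⟨0,[(16,0)]⟩,⟨0,[(18,0),(13,0)]⟩⟩,.o ⟨false,1,⟨1,
  [(19,1),(5,0),(6,0)]⟩,⟨0,[(4,0),(25,0)]⟩⟩,.a ⟨true,0,⟨0,[(15,0)]⟩,⟨1,[(14,0),(8,0),(0,0)]⟩⟩
  ⟨false,1,⟨1,[(12,0),(19,0)]⟩,⟨6,[(1,3),(1,0),(0,1),(1,2),(6,0),(1,4)]⟩⟩ ⟨true,0,⟨1,[(14,0),(1,0),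
  (2,0)]⟩,⟨0,[(4,0),(10,0),(14,0)]⟩⟩,.o ⟨false,0,⟨4,[(6,0),(3,0),(4,4),(1,0),(2,1),(4,0),(2,0),(1,
  0)]⟩,⟨7,[(12,0),(0,0),(0,3),(10,1),(5,3)]⟩⟩]⟩) (.I [0,0,-1,-1,1,0,0,0,-1] (.R ⟨1,false,false,
  false,[1,0,0,-1],[0,1],[0,0,0,0,0,0,0,0,-1],(⟨1,[(15,0),(8,0),(0,0)]⟩,⟨0,[(16,0)]⟩),(⟨0,[(28,0)]⟩,
  ⟨0,[(27,0)]⟩),⟨0,[(3,0),(11,0)]⟩,.k,.k,(.r (-1) ⟨0,[(0,0)]⟩ ⟨5,[(2,1),(8,1),(2,1),(1,1),(0,0),(0,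
  0),(1,0),(0,2),(9,3)]⟩),(.r (-1) ⟨0,[(0,0)]⟩ ⟨5,[(2,1),(8,1),(2,1),(1,1),(0,0),(0,0),(1,0),(0,2),
  (9,3)]⟩),(.r (-2) ⟨1,[(0,1),(29,1),(1,0),(0,0)]⟩ ⟨0,[(2,0),(8,0),(4,0),(0,0),(3,0),(9,0)]⟩),.k,
  ⟨true,1,⟨0,[(0,0)]⟩,⟨0,[(2,0),(8,0),(4,0),(0,0),(3,0)]⟩⟩,⟨false,1,⟨1,[(15,0),(8,0),(0,0),(6,1)]⟩,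
  ⟨4,[(7,0),(3,0),(4,4),(1,0),(2,1),(4,0),(2,0),(1,0)]⟩⟩,⟨false,1,⟨3,[(13,0),(0,0),(18,1)]⟩,⟨0,[]⟩⟩,
  ⟨false,0,⟨0,[(2,0)]⟩,⟨3,[(5,1),(4,1),(2,1),(2,3),(9,0),(6,0)]⟩⟩,⟨true,0,⟨0,[(31,0)]⟩,⟨0,[(30,
  0)]⟩⟩,⟨false,0,⟨0,[(2,0),(28,0)]⟩,⟨1,[(5,1),(4,1),(2,0),(2,1),(16,0)]⟩⟩,[.o ⟨false,0,⟨0,[(31,0)]⟩,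
  ⟨1,[(26,0),(3,1),(2,0)]⟩⟩,.o ⟨false,1,⟨3,[(13,0),(0,0),(16,3),(1,1)]⟩,⟨3,[(5,0),(1,1),(11,0),(10,
  0)]⟩⟩,.a ⟨true,0,⟨0,[(16,0)]⟩,⟨1,[(15,0),(8,0),(0,0)]⟩⟩ ⟨false,1,⟨1,[(13,0),(19,0)]⟩,⟨6,[(2,3),(1,
  0),(0,1),(1,2),(6,0),(1,4)]⟩⟩ ⟨true,0,⟨1,[(15,0),(8,0),(0,0),(5,1)]⟩,⟨3,[(5,0),(1,1),(8,3),(2,0),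
  (10,0)]⟩⟩,.o ⟨false,0,⟨4,[(7,0),(3,0),(4,4),(1,0),(2,1),(4,0),(2,0),(1,0)]⟩,⟨7,[(13,0),(0,0),(0,
  3),(10,1),(5,3)]⟩⟩]⟩) (.R ⟨1,true,true,false,[2,-1,-1],[],[0,0,-1,-1,0,0,0,-1],(⟨0,[(24,0),(2,
  0)]⟩,⟨0,[(8,0)]⟩),(⟨0,[]⟩,⟨0,[]⟩),⟨0,[(3,1),(11,0),(8,0)]⟩,.k,.k,(.x 1 ⟨8,[(0,4),(0,2),(1,17),(3,
  7),(3,4),(1,0),(1,8),(2,1),(2,0),(2,8),(4,4)]⟩ ⟨3,[(13,0),(0,0),(6,3),(3,3),(2,7),(3,5)]⟩),.k,(.x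
  1 ⟨8,[(0,4),(0,2),(1,17),(3,7),(3,4),(1,0),(1,8),(2,1),(2,0),(2,8),(4,4)]⟩ ⟨3,[(13,0),(0,0),(6,3),
  (3,3),(2,7),(3,5)]⟩),.k,⟨false,2,⟨1,[(10,1),(10,1),(2,1),(0,1),(6,2),(0,0)]⟩,⟨1,[(0,0),(0,0),(9,
  0),(23,0)]⟩⟩,⟨true,1,⟨0,[(21,0),(2,1),(0,1),(6,0)]⟩,⟨8,[(0,4),(0,2),(5,7),(3,4),(1,0),(4,1),(2,0),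
  (7,4)]⟩⟩,⟨false,1,⟨3,[(13,0),(0,0),(18,1)]⟩,⟨0,[]⟩⟩,⟨true,0,⟨1,[(4,1),(8,0),(2,1),(16,0)]⟩,⟨0,[(7,
  0)]⟩⟩,⟨true,0,⟨0,[(31,0)]⟩,⟨0,[(30,0)]⟩⟩,⟨false,0,⟨0,[(0,0),(0,0),(19,0),(2,1),(0,1),(6,0)]⟩,⟨3,
  [(5,1),(4,5),(15,0),(6,2)]⟩⟩,[]⟩))))) (.Q [0,0,0,2,0,0,-1,-1,0,0,1] (.p true [0,0,1] [] (⟨0,[(21,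
  0)]⟩,⟨0,[(20,0)]⟩) .k 0 (⟨0,[]⟩,⟨0,[]⟩) .k .k) (.R ⟨1,true,false,false,[0,0,1],[0,1],[1,1,0,-1,0,
  0,0,1],(⟨0,[(22,0)]⟩,⟨0,[(21,0)]⟩),(⟨0,[(25,0)]⟩,⟨0,[(24,0)]⟩),⟨0,[(6,0)]⟩,.k,.k,.k,.k,(.r (-1)
  ⟨1,[(2,1),(4,1),(0,1),(12,1),(0,1),(6,2),(0,0)]⟩ ⟨1,[(0,1),(17,2),(0,0)]⟩),.k,⟨true,0,⟨0,[(2,0),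
  (4,0),(0,0),(12,0),(0,0),(6,0)]⟩,⟨0,[(0,0),(17,0),(7,0)]⟩⟩,⟨false,1,⟨1,[(9,0),(11,0),(0,0),(6,
  1)]⟩,⟨0,[(18,0)]⟩⟩,⟨true,0,⟨0,[(27,0)]⟩,⟨0,[(28,0)]⟩⟩,⟨false,1,⟨7,[(0,3),(9,0),(0,0),(5,3),(12,
  5)]⟩,⟨0,[(2,0)]⟩⟩,⟨false,0,⟨0,[]⟩,⟨3,[(10,0),(0,0),(18,1)]⟩⟩,⟨true,0,⟨0,[(0,0)]⟩,⟨0,[(2,0),(24,
  0)]⟩⟩,[]⟩) (.Q [0,1,0,-1,0,0,0,0,1,0,0,-1] (.p false [0,0,0,1] [] (⟨0,[(13,0)]⟩,⟨1,[(12,0),(8,0),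
  (0,0)]⟩) .k 0 (⟨0,[]⟩,⟨0,[]⟩) .k .k) (.I [0,0,0,-1,0,0,0,0,1] (.Q [0,-1,0,1,0,0,1,1,1,2,-1,-1]
  (.p false [-1,1,1] [1,0,0,-1] (⟨0,[(7,0)]⟩,⟨0,[(23,0),(2,0)]⟩) .k 2 (⟨1,[(14,0),(8,0),(0,0)]⟩,⟨0,
  [(15,0)]⟩) .k (.x (-1) ⟨3,[(12,0),(0,0),(6,3),(3,3),(6,1)]⟩ ⟨5,[(6,1),(3,1),(0,1),(11,5),(6,1),(0,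
  0),(0,0)]⟩)) (.Q [0,0,0,0,0,1,0,0,0,0,0,-1] (.p false [0,0,0,1] [] (⟨0,[(16,0)]⟩,⟨1,[(15,0),(8,0),
  (0,0)]⟩) .k 0 (⟨0,[]⟩,⟨0,[]⟩) .k .k) (.I [1,0,0,0,1,0,0,-1,-1] (.R ⟨0,false,false,true,[0,0,0,1],
  [2,-1,-1],[0,1,0,-1,0,0,0,0,1],(⟨0,[(18,0)]⟩,⟨1,[(17,0),(8,0),(0,0)]⟩),(⟨0,[(26,0),(2,0)]⟩,⟨0,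
  [(10,0)]⟩),⟨0,[(1,0)]⟩,.k,.k,(.r (-1) ⟨5,[(3,1),(1,1),(10,1),(5,1),(11,2),(0,0)]⟩ ⟨0,[(0,0),(12,
  0),(19,0)]⟩),(.r 1 ⟨0,[(3,0),(9,0),(19,1)]⟩ ⟨1,[(0,1),(31,1),(1,0),(0,0)]⟩),.k,.k,⟨true,(-1),⟨0,
  [(3,0),(9,0),(19,0)]⟩,⟨0,[(0,0)]⟩⟩,⟨false,0,⟨1,[(9,1),(3,1),(4,1),(14,1),(0,0),(0,0)]⟩,⟨1,[(17,0),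
  (5,1),(2,2),(0,2),(6,1)]⟩⟩,⟨true,0,⟨0,[(32,0)]⟩,⟨0,[(33,0)]⟩⟩,⟨false,1,⟨3,[(6,1),(5,1),(2,0),(2,
  1),(9,0)]⟩,⟨0,[(2,0)]⟩⟩,⟨false,0,⟨0,[]⟩,⟨0,[]⟩⟩,⟨false,0,⟨0,[]⟩,⟨0,[]⟩⟩,[.o ⟨false,0,⟨0,[(9,0)]⟩,
  ⟨1,[(2,1),(12,0),(2,1),(9,0)]⟩⟩,.o ⟨false,1,⟨15,[(6,3),(1,3),(3,7),(2,0),(0,0),(11,5)]⟩,⟨0,[(7,0),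
  (18,0),(0,0),(5,1)]⟩⟩,.a ⟨true,0,⟨1,[(17,0),(8,0),(0,0)]⟩,⟨0,[(18,0)]⟩⟩ ⟨false,0,⟨0,[(3,0)]⟩,⟨1,
  [(15,0),(17,1),(1,0)]⟩⟩ ⟨true,0,⟨0,[(9,0),(8,0)]⟩,⟨1,[(7,1),(9,0),(8,2),(0,2),(5,3)]⟩⟩,.o ⟨false,
  0,⟨1,[(17,0),(2,0),(2,0)]⟩,⟨1,[(18,1),(9,0),(5,0)]⟩⟩]⟩) (.R ⟨0,false,false,false,[0,0,0,1],[0,1],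
  [0,1,0,0,0,0,0,0,1],(⟨0,[(18,0)]⟩,⟨1,[(17,0),(8,0),(0,0)]⟩),(⟨0,[(30,0)]⟩,⟨0,[(29,0)]⟩),⟨0,[(1,
  0)]⟩,.k,.k,(.x 0 ⟨4,[(9,0),(3,0),(6,0),(2,1),(4,0),(0,4),(1,0),(1,0)]⟩ ⟨3,[(15,0),(0,0),(13,3),(3,
  1)]⟩),(.x 0 ⟨4,[(9,0),(3,0),(6,0),(2,1),(4,0),(0,4),(1,0),(1,0)]⟩ ⟨3,[(15,0),(0,0),(13,3),(3,
  1)]⟩),.k,.k,⟨true,0,⟨0,[(0,0),(11,0),(10,0),(2,0),(0,0),(6,0)]⟩,⟨1,[(6,1),(6,1),(3,0),(5,1),(2,2),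
  (0,2),(5,3)]⟩⟩,⟨false,1,⟨0,[(18,0),(15,0)]⟩,⟨1,[(17,0),(2,0),(2,0)]⟩⟩,⟨true,0,⟨0,[(37,0)]⟩,⟨0,
  []⟩⟩,⟨false,1,⟨1,[(15,0),(2,1),(14,1),(1,0)]⟩,⟨13,[(0,3),(2,9),(2,0),(1,0),(0,1),(7,6),(5,3),(10,
  1)]⟩⟩,⟨false,0,⟨0,[]⟩,⟨0,[]⟩⟩,⟨false,0,⟨0,[]⟩,⟨0,[]⟩⟩,[.o ⟨false,0,⟨0,[(33,0)]⟩,⟨47,[(5,15),(0,3),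
  (1,3),(3,7),(2,12),(0,12),(11,13)]⟩⟩,.o ⟨false,1,⟨3,[(15,0),(0,0),(16,3),(1,1)]⟩,⟨5,[(5,0),(3,2),
  (11,1),(10,0)]⟩⟩,.a ⟨true,0,⟨1,[(17,0),(8,0),(0,0)]⟩,⟨0,[(18,0)]⟩⟩ ⟨false,0,⟨0,[(3,0),(29,0)]⟩,⟨1,
  [(15,0),(19,0)]⟩⟩ ⟨true,0,⟨0,[(18,0),(14,0)]⟩,⟨11,[(5,0),(3,2),(7,5),(3,1),(10,6)]⟩⟩,.o ⟨false,0,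
  ⟨1,[(17,0),(2,0),(2,0)]⟩,⟨1,[(18,1),(9,0),(5,0)]⟩⟩]⟩)) (.I [0,1,0,0,0,0,0,0,-1] (.R ⟨1,false,
  false,false,[0,0,0,1],[1,-1],[0,0,0,0,0,0,0,0,1],(⟨0,[(18,0)]⟩,⟨1,[(17,0),(8,0),(0,0)]⟩),(⟨0,[(29,
  0)]⟩,⟨0,[(30,0)]⟩),⟨0,[(1,0)]⟩,.k,.k,(.r (-1) ⟨5,[(3,1),(1,1),(10,1),(5,1),(11,2),(0,0)]⟩ ⟨0,[(0,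
  0),(30,0),(1,0)]⟩),(.r 0 ⟨2,[(3,0),(9,0),(2,0),(5,0),(0,0),(7,0),(1,3)]⟩ ⟨5,[(0,1),(4,1),(0,1),(8,
  0),(1,0),(8,2),(0,2),(6,2)]⟩),.k,.k,⟨false,0,⟨0,[(3,0),(29,1)]⟩,⟨5,[(0,1),(4,1),(0,1),(8,0),(1,0),
  (8,2),(0,2),(6,2)]⟩⟩,⟨true,0,⟨4,[(9,0),(3,0),(4,4),(1,0),(2,1),(4,0),(2,0),(1,0)]⟩,⟨1,[(17,0),(8,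
  0),(0,0)]⟩⟩,⟨false,1,⟨3,[(15,0),(0,0),(18,1)]⟩,⟨0,[]⟩⟩,⟨false,1,⟨3,[(6,1),(0,1),(7,0),(2,1),(16,
  0)]⟩,⟨0,[(2,0),(16,0)]⟩⟩,⟨true,0,⟨0,[(33,0)]⟩,⟨0,[(32,0)]⟩⟩,⟨false,1,⟨3,[(6,1),(0,1),(7,0),(2,1),
  (14,3),(1,0)]⟩,⟨3,[(2,1),(0,1),(13,0),(1,0),(2,0)]⟩⟩,[.o ⟨false,1,⟨47,[(5,15),(0,3),(1,3),(3,7),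
  (2,12),(0,12),(11,13)]⟩,⟨0,[(33,0)]⟩⟩,.o ⟨false,1,⟨23,[(5,7),(0,3),(1,3),(6,0),(0,0),(11,5),(6,
  7)]⟩,⟨0,[(33,0),(3,0)]⟩⟩,.a ⟨true,0,⟨1,[(17,0),(8,0),(0,0)]⟩,⟨0,[(18,0)]⟩⟩ ⟨true,0,⟨0,[(3,0),(29,
  0)]⟩,⟨0,[(0,0)]⟩⟩ ⟨false,1,⟨3,[(6,1),(0,1),(8,0),(1,1),(16,0)]⟩,⟨1,[(17,0),(8,0),(0,0),(5,1)]⟩⟩,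
  .o ⟨false,0,⟨1,[(17,0),(2,0),(2,0)]⟩,⟨1,[(18,1),(9,0),(5,0)]⟩⟩]⟩) (.R ⟨1,false,false,false,[1,0,0,
  -1],[0,0,1],[0,1,0,0,0,0,0,0,-1],(⟨1,[(17,0),(8,0),(0,0)]⟩,⟨0,[(18,0)]⟩),(⟨0,[(27,0)]⟩,⟨0,[(26,
  0)]⟩),⟨0,[(1,0),(15,0)]⟩,.k,.k,(.x 0 ⟨1,[(1,1),(15,0),(2,0),(2,0)]⟩ ⟨3,[(15,0),(0,0),(13,3),(3,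
  1)]⟩),.k,(.r (-2) ⟨5,[(5,1),(0,1),(8,1),(1,0),(4,5),(0,5),(2,2),(0,2),(6,5),(0,1)]⟩ ⟨0,[(0,0),(12,
  0),(19,0),(3,0)]⟩),.k,⟨true,1,⟨1,[(15,0),(6,1),(0,1),(10,0)]⟩,⟨0,[(0,0),(12,0)]⟩⟩,⟨false,1,⟨1,
  [(17,0),(5,1),(2,0),(0,0),(6,1)]⟩,⟨21,[(0,1),(5,1),(2,3),(3,5),(0,7),(3,19),(9,0),(4,5),(0,2)]⟩⟩,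
  ⟨true,0,⟨0,[(37,0)]⟩,⟨0,[]⟩⟩,⟨false,0,⟨2,[(0,1),(1,0),(4,1),(9,0),(15,0)]⟩,⟨7,[(6,3),(8,2),(0,0),
  (1,3),(3,3),(10,3)]⟩⟩,⟨false,0,⟨0,[(33,0)]⟩,⟨0,[(32,0),(2,0)]⟩⟩,⟨false,0,⟨2,[(0,1),(1,0),(4,1),(9,
  0),(15,3)]⟩,⟨3,[(6,1),(8,0),(2,1),(3,1),(9,1),(2,0)]⟩⟩,[.o ⟨false,0,⟨0,[(7,0),(25,0)]⟩,⟨1,[(22,1),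
  (5,0),(6,0)]⟩⟩,.o ⟨false,1,⟨0,[(21,0),(13,0)]⟩,⟨0,[(19,0)]⟩⟩,.a ⟨true,0,⟨0,[(18,0)]⟩,⟨1,[(17,0),
  (8,0),(0,0)]⟩⟩ ⟨false,1,⟨3,[(15,2),(0,0)]⟩,⟨0,[(0,0)]⟩⟩ ⟨true,0,⟨1,[(7,1),(9,0),(8,0),(0,0),(5,
  1)]⟩,⟨0,[(18,0),(0,0)]⟩⟩,.o ⟨false,0,⟨13,[(0,0),(5,0),(2,1),(3,2),(4,12),(1,3),(2,6),(4,1),(4,
  2)]⟩,⟨7,[(15,0),(0,0),(0,3),(10,1),(5,3)]⟩⟩]⟩))) (.Q [0,0,0,0,0,1,0,0,0,0,0,-1] (.p false [0,0,0,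
  1] [] (⟨0,[(16,0)]⟩,⟨1,[(15,0),(8,0),(0,0)]⟩) .k 0 (⟨0,[]⟩,⟨0,[]⟩) .k .k) (.R ⟨0,false,false,
  false,[0,0,0,1],[1,-1],[1,0,0,0,0,0,0,0,1],(⟨0,[(17,0)]⟩,⟨1,[(16,0),(8,0),(0,0)]⟩),(⟨0,[(28,0)]⟩,
  ⟨0,[(29,0)]⟩),⟨0,[(0,0)]⟩,.k,.k,(.r (-1) ⟨5,[(2,1),(1,1),(10,1),(5,1),(11,2),(0,0)]⟩ ⟨5,[(1,1),
  (10,1),(1,1),(1,0),(5,1),(2,2),(0,2),(3,1),(1,7)]⟩),(.r 0 ⟨2,[(2,0),(9,0),(2,0),(5,0),(0,0),(7,0),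
  (1,3)]⟩ ⟨5,[(1,0),(2,1),(0,0),(8,1),(1,0),(8,2),(0,2),(6,2)]⟩),.k,.k,⟨false,0,⟨0,[(2,0),(29,1)]⟩,
  ⟨5,[(1,0),(2,1),(0,0),(8,1),(1,0),(8,2),(0,2),(6,2)]⟩⟩,⟨true,0,⟨4,[(8,0),(3,0),(4,4),(1,0),(2,1),
  (4,0),(2,0),(1,0)]⟩,⟨1,[(16,0),(8,0),(0,0)]⟩⟩,⟨true,0,⟨0,[]⟩,⟨0,[(36,0)]⟩⟩,⟨false,1,⟨3,[(5,1),(0,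
  1),(7,0),(2,1),(16,0)]⟩,⟨1,[(2,1),(13,0),(8,0),(0,0),(5,3)]⟩⟩,⟨false,0,⟨0,[]⟩,⟨0,[]⟩⟩,⟨false,0,⟨0,
  []⟩,⟨0,[]⟩⟩,[.o ⟨false,1,⟨23,[(1,3),(2,7),(2,3),(6,6),(0,6),(11,5)]⟩,⟨0,[(32,0)]⟩⟩,.o ⟨false,1,
  ⟨23,[(4,7),(0,3),(1,3),(6,0),(0,0),(11,5),(6,7)]⟩,⟨0,[(32,0),(3,0)]⟩⟩,.a ⟨true,0,⟨1,[(16,0),(8,0),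
  (0,0)]⟩,⟨0,[(17,0)]⟩⟩ ⟨true,0,⟨0,[(2,0),(29,0)]⟩,⟨1,[(1,1),(4,1),(9,0),(8,2),(0,2),(5,3)]⟩⟩
  ⟨false,1,⟨3,[(5,1),(0,1),(8,0),(1,1),(16,0)]⟩,⟨1,[(16,0),(8,0),(0,0),(5,1)]⟩⟩,.o ⟨false,0,⟨1,[(16,
  0),(2,0),(2,0)]⟩,⟨1,[(17,1),(9,0),(5,0)]⟩⟩]⟩) (.R ⟨1,false,false,false,[0,0,0,1],[1,-1],[1,0,0,-1,
  0,0,0,0,1],(⟨0,[(17,0)]⟩,⟨1,[(16,0),(8,0),(0,0)]⟩),(⟨0,[(28,0)]⟩,⟨0,[(29,0)]⟩),⟨0,[(0,0)]⟩,.k,.k,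
  (.r (-1) ⟨5,[(2,1),(1,1),(10,1),(5,1),(11,2),(0,0)]⟩ ⟨5,[(1,1),(10,1),(1,1),(1,0),(5,1),(2,2),(0,
  2),(3,1),(1,7)]⟩),(.r 0 ⟨2,[(2,0),(9,0),(2,0),(5,0),(0,0),(7,0),(1,3)]⟩ ⟨5,[(1,0),(2,1),(0,0),(8,
  1),(1,0),(8,2),(0,2),(6,2)]⟩),.k,.k,⟨false,0,⟨0,[(2,0),(29,0)]⟩,⟨1,[(14,0),(18,0)]⟩⟩,⟨true,0,⟨4,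
  [(8,0),(3,0),(4,4),(1,0),(2,1),(4,0),(2,0),(1,0)]⟩,⟨1,[(16,0),(8,0),(0,0)]⟩⟩,⟨false,1,⟨0,[(31,0),
  (2,0)]⟩,⟨0,[(32,0)]⟩⟩,⟨false,1,⟨3,[(5,1),(0,1),(7,0),(2,1),(16,0)]⟩,⟨1,[(2,1),(13,0),(8,0),(0,0),
  (5,3)]⟩⟩,⟨true,0,⟨0,[]⟩,⟨0,[(36,0)]⟩⟩,⟨false,1,⟨3,[(5,1),(0,1),(7,0),(2,1),(14,3),(1,0)]⟩,⟨1,[(2,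
  1),(13,0),(8,0),(0,0),(5,1)]⟩⟩,[.o ⟨false,1,⟨23,[(1,3),(2,7),(2,3),(6,6),(0,6),(11,5)]⟩,⟨0,[(32,
  0)]⟩⟩,.o ⟨false,1,⟨23,[(4,7),(0,3),(1,3),(6,0),(0,0),(11,5),(6,7)]⟩,⟨0,[(32,0),(3,0)]⟩⟩,.a ⟨true,
  0,⟨1,[(16,0),(8,0),(0,0)]⟩,⟨0,[(17,0)]⟩⟩ ⟨true,0,⟨0,[(2,0)]⟩,⟨1,[(1,1),(4,1),(9,0),(8,2),(0,2),(5,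
  5)]⟩⟩ ⟨false,1,⟨3,[(5,1),(0,1),(8,0),(1,1),(16,0)]⟩,⟨1,[(16,0),(8,0),(0,0),(5,1)]⟩⟩,.o ⟨false,0,
  ⟨1,[(16,0),(2,0),(2,0)]⟩,⟨1,[(17,1),(9,0),(5,0)]⟩⟩]⟩))) (.Q [0,0,0,0,0,1,0,0,0,0,0,-1] (.p false
  [0,0,0,1] [] (⟨0,[(15,0)]⟩,⟨1,[(14,0),(8,0),(0,0)]⟩) .k 0 (⟨0,[]⟩,⟨0,[]⟩) .k .k) (.R ⟨0,false,
  false,false,[0,0,0,1],[0,1],[1,0,1,1],(⟨0,[(16,0)]⟩,⟨1,[(15,0),(8,0),(0,0)]⟩),(⟨0,[(28,0)]⟩,⟨0,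
  [(27,0)]⟩),⟨0,[(0,0)]⟩,.k,.k,(.r (-1) ⟨3,[(2,0),(0,0),(2,0),(7,0),(1,1),(7,0),(0,0),(6,1)]⟩ ⟨1,
  [(1,1),(19,0),(0,0)]⟩),(.r (-1) ⟨3,[(2,0),(0,0),(2,0),(7,0),(1,1),(7,0),(0,0),(6,1)]⟩ ⟨1,[(1,1),
  (19,0),(0,0)]⟩),.k,.k,⟨true,0,⟨0,[]⟩,⟨1,[(21,0),(0,0)]⟩⟩,⟨false,1,⟨0,[(16,0),(15,0)]⟩,⟨1,[(15,0),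
  (2,0),(2,0)]⟩⟩,⟨false,0,⟨0,[(1,0),(27,0)]⟩,⟨3,[(2,0),(0,0),(2,0),(7,0),(1,1),(7,0),(0,0),(6,1)]⟩⟩,
  ⟨true,0,⟨0,[(1,0),(14,0)]⟩,⟨0,[(2,0)]⟩⟩,⟨false,0,⟨0,[]⟩,⟨0,[]⟩⟩,⟨false,0,⟨0,[]⟩,⟨0,[]⟩⟩,[.o
  ⟨false,0,⟨0,[(31,0)]⟩,⟨47,[(3,15),(0,3),(1,3),(3,7),(2,12),(0,12),(11,13)]⟩⟩,.o ⟨false,1,⟨3,[(13,
  0),(0,0),(16,3),(1,1)]⟩,⟨5,[(3,0),(3,2),(11,1),(10,0)]⟩⟩,.a ⟨true,0,⟨1,[(15,0),(8,0),(0,0)]⟩,⟨0,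
  [(16,0)]⟩⟩ ⟨false,0,⟨0,[(29,0),(1,0)]⟩,⟨1,[(30,1),(1,0),(0,0)]⟩⟩ ⟨true,0,⟨0,[(16,0),(14,0)]⟩,⟨11,
  [(3,0),(3,2),(7,5),(3,1),(10,6)]⟩⟩,.o ⟨false,0,⟨1,[(15,0),(2,0),(2,0)]⟩,⟨1,[(16,1),(9,0),(5,
  0)]⟩⟩]⟩) (.I [1,0,2,1,-1,0,0,0,-1] (.R ⟨1,false,false,true,[0,0,0,1],[0,1],[1,1,0,-1,0,0,0,0,1],
  (⟨0,[(17,0)]⟩,⟨1,[(16,0),(8,0),(0,0)]⟩),(⟨0,[(29,0)]⟩,⟨0,[(28,0)]⟩),⟨0,[(1,0)]⟩,.k,.k,(.r (-1) ⟨3,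
  [(3,0),(0,0),(2,0),(7,0),(1,1),(7,0),(0,0),(6,1)]⟩ ⟨7,[(0,3),(13,2),(0,0),(16,3)]⟩),(.r (-1) ⟨3,
  [(3,0),(0,0),(2,0),(7,0),(1,1),(7,0),(0,0),(6,1)]⟩ ⟨7,[(0,3),(13,2),(0,0),(16,3)]⟩),(.r (-2) ⟨1,
  [(4,1),(10,0),(5,1),(11,1),(0,0)]⟩ ⟨0,[(0,0),(31,0)]⟩),.k,⟨true,1,⟨1,[(3,0),(0,0),(2,0),(9,1),(7,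
  0),(0,0),(6,0)]⟩,⟨0,[(0,0),(31,0)]⟩⟩,⟨false,1,⟨0,[(17,0),(15,0)]⟩,⟨1,[(16,0),(2,0),(2,0)]⟩⟩,⟨true,
  0,⟨0,[(31,0)]⟩,⟨0,[(32,0)]⟩⟩,⟨false,0,⟨0,[(2,0),(14,0)]⟩,⟨2,[(4,0),(2,0),(7,0),(0,0),(17,0)]⟩⟩,
  ⟨false,0,⟨0,[]⟩,⟨3,[(14,0),(0,0),(18,1)]⟩⟩,⟨false,0,⟨0,[(2,0),(14,0),(14,0)]⟩,⟨5,[(4,3),(2,3),(7,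
  0),(0,0),(8,2),(0,2),(7,0)]⟩⟩,[.o ⟨false,0,⟨0,[(32,0),(3,0)]⟩,⟨23,[(4,7),(0,3),(1,3),(6,0),(0,0),
  (11,5),(6,7)]⟩⟩,.o ⟨false,0,⟨0,[(32,0)]⟩,⟨47,[(4,15),(0,3),(1,3),(3,7),(2,12),(0,12),(11,13)]⟩⟩,
  .a ⟨true,0,⟨1,[(16,0),(8,0),(0,0)]⟩,⟨0,[(17,0)]⟩⟩ ⟨true,0,⟨0,[(3,0),(13,0)]⟩,⟨0,[(0,0),(32,0)]⟩⟩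
  ⟨false,0,⟨0,[(17,0),(14,0)]⟩,⟨11,[(4,3),(2,3),(6,2),(0,0),(0,3),(17,3)]⟩⟩,.o ⟨false,0,⟨1,[(16,0),
  (2,0),(2,0)]⟩,⟨1,[(17,1),(9,0),(5,0)]⟩⟩]⟩) (.I [1,0,0,0,0,0,0,0,1] (.R ⟨1,false,false,true,[1,0,0,
  -1],[0,0,1],[0,1,0,0,0,0,0,0,-1],(⟨1,[(17,0),(8,0),(0,0)]⟩,⟨0,[(18,0)]⟩),(⟨0,[(27,0)]⟩,⟨0,[(26,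
  0)]⟩),⟨0,[(2,0),(14,0)]⟩,.k,.k,(.r (-1) ⟨7,[(3,1),(1,3),(0,1),(8,1),(1,0),(4,1),(3,2),(0,2),(6,
  3)]⟩ ⟨2,[(0,0),(12,0),(2,0),(5,0),(0,0),(7,0),(1,2)]⟩),.k,(.r (-2) ⟨3,[(1,1),(4,1),(8,1),(1,0),(4,
  1),(0,3),(2,2),(0,2),(6,1)]⟩ ⟨0,[(0,0),(12,0),(19,0)]⟩),.k,⟨true,1,⟨3,[(3,1),(2,1),(10,0),(4,1),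
  (0,3),(2,2),(0,2),(6,1)]⟩,⟨0,[(0,0),(12,0)]⟩⟩,⟨false,1,⟨1,[(17,0),(5,1),(2,0),(0,0),(6,1)]⟩,⟨5,
  [(1,0),(4,0),(2,0),(3,1),(0,1),(3,4),(14,2)]⟩⟩,⟨true,0,⟨0,[(37,0)]⟩,⟨0,[]⟩⟩,⟨false,0,⟨1,[(0,1),(6,
  1),(9,0),(8,0),(0,0),(5,1)]⟩,⟨1,[(3,0),(2,0),(11,0),(3,0),(12,0)]⟩⟩,⟨false,0,⟨0,[(33,0)]⟩,⟨0,[(32,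
  0),(2,0)]⟩⟩,⟨false,0,⟨1,[(0,1),(6,1),(9,0),(8,0),(0,0),(5,3)]⟩,⟨0,[(6,0),(19,0),(0,0)]⟩⟩,[.o
  ⟨false,0,⟨0,[(21,0)]⟩,⟨2,[(6,0),(1,0),(13,0),(10,1),(1,0)]⟩⟩,.o ⟨false,0,⟨0,[(7,0),(25,0)]⟩,⟨1,
  [(22,1),(5,0),(6,0)]⟩⟩,.a ⟨true,0,⟨0,[(18,0)]⟩,⟨1,[(17,0),(8,0),(0,0)]⟩⟩ ⟨true,0,⟨0,[(3,0),(28,
  0)]⟩,⟨0,[(0,0)]⟩⟩ ⟨false,0,⟨1,[(7,1),(9,0),(8,0),(0,0),(5,1)]⟩,⟨1,[(0,0),(5,0),(11,0),(3,0),(10,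
  0),(1,0)]⟩⟩,.o ⟨false,0,⟨4,[(9,0),(3,0),(4,4),(1,0),(2,1),(4,0),(2,0),(1,0)]⟩,⟨7,[(15,0),(0,0),(0,
  3),(10,1),(5,3)]⟩⟩]⟩) (.R ⟨1,false,false,true,[1,0,0,-1],[1,-1],[0,1,0,0,0,0,0,0,-1],(⟨1,[(17,0),
  (8,0),(0,0)]⟩,⟨0,[(18,0)]⟩),(⟨0,[(29,0)]⟩,⟨0,[(30,0)]⟩),⟨0,[(2,0),(14,0)]⟩,.k,.k,(.r (-1) ⟨7,[(0,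
  5),(0,3),(3,1),(9,2),(6,1),(12,0)]⟩ ⟨0,[(4,0),(13,0),(12,0),(1,1)]⟩),(.r 0 ⟨1,[(3,1),(19,0),(0,
  0)]⟩ ⟨3,[(1,1),(14,0),(15,1),(2,0)]⟩),.k,.k,⟨false,0,⟨0,[(0,0),(32,0)]⟩,⟨3,[(1,1),(14,0),(15,1),
  (2,0)]⟩⟩,⟨true,0,⟨1,[(17,0),(2,0),(2,0)]⟩,⟨0,[(18,0)]⟩⟩,⟨true,0,⟨0,[(37,0)]⟩,⟨0,[]⟩⟩,⟨true,0,⟨0,
  [(4,0)]⟩,⟨0,[(3,0),(14,0)]⟩⟩,⟨false,0,⟨0,[(33,0)]⟩,⟨0,[(32,0),(2,0)]⟩⟩,⟨true,0,⟨0,[(4,0),(28,0)]⟩,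
  ⟨0,[(0,0),(17,0)]⟩⟩,[.o ⟨false,0,⟨5,[(5,0),(3,2),(11,1),(10,0)]⟩,⟨3,[(15,0),(0,0),(16,3),(1,1)]⟩⟩,
  .o ⟨false,1,⟨47,[(5,15),(0,3),(1,3),(3,7),(2,12),(0,12),(11,13)]⟩,⟨0,[(33,0)]⟩⟩,.a ⟨true,0,⟨0,
  [(18,0)]⟩,⟨1,[(17,0),(8,0),(0,0)]⟩⟩ ⟨false,0,⟨0,[(0,0)]⟩,⟨1,[(16,0),(18,0)]⟩⟩ ⟨true,0,⟨11,[(5,0),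
  (3,2),(7,5),(3,1),(10,6)]⟩,⟨0,[(18,0),(14,0)]⟩⟩,.o ⟨false,0,⟨4,[(9,0),(3,0),(4,4),(1,0),(2,1),(4,
  0),(2,0),(1,0)]⟩,⟨7,[(15,0),(0,0),(0,3),(10,1),(5,3)]⟩⟩]⟩))))) (.I [1,0,0,0,1,0,0,-1,1] (.Q [0,0,
  0,0,0,1,0,0,0,0,0,-1] (.p false [0,0,0,1] [] (⟨0,[(15,0)]⟩,⟨1,[(14,0),(8,0),(0,0)]⟩) .k 0 (⟨0,[]⟩,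
  ⟨0,[]⟩) .k .k) (.R ⟨0,false,false,false,[0,0,0,1],[0,0,1],[1,0,0,0,0,0,0,0,1],(⟨0,[(16,0)]⟩,⟨1,
  [(15,0),(8,0),(0,0)]⟩),(⟨0,[(25,0)]⟩,⟨0,[(24,0)]⟩),⟨0,[(0,0)]⟩,.k,.k,(.x 0 ⟨4,[(7,0),(3,0),(6,0),
  (2,1),(4,0),(0,4),(1,0),(1,0)]⟩ ⟨3,[(13,0),(0,0),(13,3),(3,1)]⟩),.k,.k,.k,⟨true,1,⟨0,[(1,0)]⟩,⟨11,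
  [(2,11),(0,0),(3,2),(3,11),(3,5),(3,1),(10,6)]⟩⟩,⟨false,1,⟨0,[(16,0),(4,0),(10,0)]⟩,⟨1,[(12,0),(2,
  0)]⟩⟩,⟨true,0,⟨0,[]⟩,⟨0,[(35,0)]⟩⟩,⟨false,0,⟨0,[(2,0),(2,0)]⟩,⟨1,[(1,1),(10,0),(2,0)]⟩⟩,⟨false,0,
  ⟨0,[]⟩,⟨0,[]⟩⟩,⟨false,0,⟨0,[]⟩,⟨0,[]⟩⟩,[.o ⟨false,0,⟨0,[(5,0),(25,0)]⟩,⟨5,[(1,1),(2,0),(1,0),(5,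
  0),(0,0),(6,1),(5,0),(4,1)]⟩⟩,.o ⟨false,1,⟨0,[(19,0),(13,0)]⟩,⟨0,[(17,0)]⟩⟩,.a ⟨true,0,⟨1,[(15,0),
  (8,0),(0,0)]⟩,⟨0,[(16,0)]⟩⟩ ⟨false,1,⟨1,[(14,0),(18,0)]⟩,⟨11,[(2,11),(0,0),(3,2),(7,5),(3,1),(10,
  6)]⟩⟩ ⟨true,0,⟨0,[(5,0),(10,0),(14,0)]⟩,⟨1,[(15,0),(1,0),(2,0)]⟩⟩,.o ⟨false,0,⟨1,[(15,0),(2,0),(2,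
  0)]⟩,⟨1,[(16,1),(9,0),(5,0)]⟩⟩]⟩) (.R ⟨1,false,false,true,[1,0,0,-1],[1,0,-1],[0,1,0,0,0,0,0,0,
  -1],(⟨1,[(15,0),(8,0),(0,0)]⟩,⟨0,[(16,0)]⟩),(⟨0,[(24,0)]⟩,⟨0,[(25,0)]⟩),⟨0,[(0,0),(14,0)]⟩,.k,.k,
  (.r (-1) ⟨11,[(2,2),(0,6),(0,0),(8,3),(1,1),(4,5),(11,5),(0,0)]⟩ ⟨0,[(1,0),(9,0),(19,0)]⟩),.k,(.r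
  0 ⟨1,[(2,1),(0,0),(6,0),(0,1),(3,0),(14,0),(1,1)]⟩ ⟨1,[(1,1),(19,0),(0,0),(8,1)]⟩),.k,⟨false,0,
  ⟨11,[(2,11),(0,0),(3,2),(3,11),(3,5),(3,1),(10,6),(1,11)]⟩,⟨0,[(1,0)]⟩⟩,⟨true,0,⟨1,[(12,0),(2,
  0)]⟩,⟨0,[(16,0),(4,0)]⟩⟩,⟨true,0,⟨0,[(35,0)]⟩,⟨0,[]⟩⟩,⟨false,1,⟨1,[(1,1),(10,0),(2,0)]⟩,⟨0,[(2,0),
  (2,0)]⟩⟩,⟨false,0,⟨0,[(31,0)]⟩,⟨0,[(30,0),(2,0)]⟩⟩,⟨false,1,⟨1,[(1,1),(10,0),(2,0),(15,1)]⟩,⟨0,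
  [(2,0),(0,0)]⟩⟩,[.o ⟨false,0,⟨0,[(17,0)]⟩,⟨0,[(19,0),(13,0)]⟩⟩,.o ⟨false,1,⟨5,[(1,1),(2,0),(1,0),
  (5,0),(0,0),(6,1),(5,0),(4,1)]⟩,⟨0,[(5,0),(25,0)]⟩⟩,.a ⟨true,0,⟨0,[(16,0)]⟩,⟨1,[(15,0),(8,0),(0,
  0)]⟩⟩ ⟨false,0,⟨11,[(2,11),(0,0),(3,2),(7,5),(3,1),(10,6)]⟩,⟨1,[(14,0),(18,0)]⟩⟩ ⟨true,0,⟨1,[(15,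
  0),(1,0),(2,0)]⟩,⟨0,[(5,0),(10,0),(14,0)]⟩⟩,.o ⟨false,0,⟨7,[(2,1),(4,1),(3,1),(2,0),(1,5),(1,1),
  (2,3),(4,0)]⟩,⟨7,[(13,0),(0,0),(0,3),(10,1),(5,3)]⟩⟩]⟩)) (.Q [0,0,0,0,0,1,0,0,0,0,0,-1] (.p false
  [0,0,0,1] [] (⟨0,[(15,0)]⟩,⟨1,[(14,0),(8,0),(0,0)]⟩) .k 0 (⟨0,[]⟩,⟨0,[]⟩) .k .k) (.R ⟨0,false,
  false,false,[0,0,0,1],[0,1],[0,1,1],(⟨0,[(16,0)]⟩,⟨1,[(15,0),(8,0),(0,0)]⟩),(⟨0,[(28,0)]⟩,⟨0,[(27,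
  0)]⟩),⟨0,[(0,0)]⟩,.k,.k,(.x 0 ⟨4,[(7,0),(3,0),(6,0),(2,1),(4,0),(0,4),(1,0),(1,0)]⟩ ⟨3,[(13,0),(0,
  0),(13,3),(3,1)]⟩),(.x 0 ⟨4,[(7,0),(3,0),(6,0),(2,1),(4,0),(0,4),(1,0),(1,0)]⟩ ⟨3,[(13,0),(0,0),
  (13,3),(3,1)]⟩),.k,.k,⟨true,0,⟨0,[(30,0)]⟩,⟨0,[(29,0),(1,0)]⟩⟩,⟨false,1,⟨0,[(16,0),(15,0)]⟩,⟨1,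
  [(15,0),(2,0),(2,0)]⟩⟩,⟨true,(-1),⟨0,[(1,0),(18,0),(0,0)]⟩,⟨1,[(14,0),(17,0)]⟩⟩,⟨false,0,⟨0,[(2,
  0)]⟩,⟨31,[(3,7),(2,7),(6,4),(0,16),(0,11),(10,1),(3,7)]⟩⟩,⟨false,0,⟨0,[]⟩,⟨0,[]⟩⟩,⟨false,0,⟨0,[]⟩,
  ⟨0,[]⟩⟩,[.o ⟨false,0,⟨0,[(31,0)]⟩,⟨47,[(3,15),(0,3),(1,3),(3,7),(2,12),(0,12),(11,13)]⟩⟩,.o
  ⟨false,1,⟨3,[(13,0),(0,0),(16,3),(1,1)]⟩,⟨5,[(3,0),(3,2),(11,1),(10,0)]⟩⟩,.a ⟨true,0,⟨1,[(15,0),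
  (8,0),(0,0)]⟩,⟨0,[(16,0)]⟩⟩ ⟨false,0,⟨1,[(21,0),(0,0)]⟩,⟨1,[(32,0),(0,0)]⟩⟩ ⟨true,0,⟨0,[(16,0),
  (14,0)]⟩,⟨11,[(3,0),(3,2),(7,5),(3,1),(10,6)]⟩⟩,.o ⟨false,0,⟨1,[(15,0),(2,0),(2,0)]⟩,⟨1,[(16,1),
  (9,0),(5,0)]⟩⟩]⟩) (.R ⟨1,false,false,false,[1,0,0,-1],[0,1],[0,1,0,0,0,0,0,0,-1],(⟨1,[(15,0),(8,
  0),(0,0)]⟩,⟨0,[(16,0)]⟩),(⟨0,[(28,0)]⟩,⟨0,[(27,0)]⟩),⟨0,[(0,0),(14,0)]⟩,.k,.k,(.x 0 ⟨1,[(0,1),(14,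
  0),(2,0),(2,0)]⟩ ⟨3,[(13,0),(0,0),(13,3),(3,1)]⟩),(.x 0 ⟨1,[(0,1),(14,0),(2,0),(2,0)]⟩ ⟨3,[(13,0),
  (0,0),(13,3),(3,1)]⟩),(.r (-1) ⟨1,[(2,1),(0,1),(6,1),(4,0),(8,0),(0,0),(6,1)]⟩ ⟨3,[(11,1),(2,1),
  (5,1),(0,2),(0,0),(6,1),(1,7)]⟩),.k,⟨true,0,⟨0,[(1,0),(8,0),(10,0),(2,0),(0,0),(6,0)]⟩,⟨0,[(6,0),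
  (4,0),(4,0),(4,0),(2,0),(0,0),(5,1)]⟩⟩,⟨false,1,⟨1,[(15,0),(8,0),(0,0),(6,1)]⟩,⟨7,[(2,1),(4,1),(3,
  1),(2,0),(1,5),(1,1),(2,3),(4,0)]⟩⟩,⟨true,0,⟨0,[(35,0)]⟩,⟨0,[]⟩⟩,⟨false,1,⟨0,[(2,0),(11,0),(0,
  0)]⟩,⟨1,[(2,1),(0,0),(3,0),(22,0)]⟩⟩,⟨false,0,⟨0,[(31,0)]⟩,⟨0,[(30,0),(2,0)]⟩⟩,⟨false,1,⟨0,[(2,0),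
  (11,0),(0,0),(15,0)]⟩,⟨0,[(2,0),(0,0),(6,0)]⟩⟩,[.o ⟨false,0,⟨0,[(31,0)]⟩,⟨47,[(3,15),(0,3),(1,3),
  (3,7),(2,12),(0,12),(11,13)]⟩⟩,.o ⟨false,1,⟨3,[(13,0),(0,0),(16,3),(1,1)]⟩,⟨5,[(3,0),(3,2),(11,1),
  (10,0)]⟩⟩,.a ⟨true,0,⟨0,[(16,0)]⟩,⟨1,[(15,0),(8,0),(0,0)]⟩⟩ ⟨false,0,⟨19,[(1,5),(0,7),(0,1),(6,3),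
  (2,2),(1,3),(4,3),(0,5),(10,2)]⟩,⟨1,[(14,0),(18,0)]⟩⟩ ⟨true,0,⟨1,[(15,0),(8,0),(0,0),(5,1)]⟩,⟨5,
  [(3,0),(3,2),(8,5),(2,1),(10,0)]⟩⟩,.o ⟨false,0,⟨7,[(2,1),(4,1),(3,1),(2,0),(1,5),(1,1),(2,3),(4,
  0)]⟩,⟨7,[(13,0),(0,0),(0,3),(10,1),(5,3)]⟩⟩]⟩)))))) (.R ⟨2,true,false,true,[0,1],[0,0,1],[0,0,1,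
  1],(⟨0,[]⟩,⟨0,[]⟩),(⟨0,[(20,0)]⟩,⟨0,[(19,0)]⟩),⟨0,[]⟩,.k,.k,.k,.k,.k,.k,⟨false,1,⟨1,[(0,1),(15,1),
  (10,0),(0,0)]⟩,⟨0,[(6,0),(18,0),(1,0)]⟩⟩,⟨true,0,⟨0,[(16,0)]⟩,⟨1,[(7,0),(11,0),(0,0)]⟩⟩,⟨false,1,
  ⟨3,[(8,0),(0,0),(18,1)]⟩,⟨0,[]⟩⟩,⟨true,0,⟨0,[(6,0),(9,0),(8,0),(1,0)]⟩,⟨0,[(0,0)]⟩⟩,⟨true,0,⟨0,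
  [(26,0)]⟩,⟨0,[(25,0)]⟩⟩,⟨false,0,⟨0,[(6,0),(9,0),(10,0)]⟩,⟨0,[(15,0),(12,0)]⟩⟩,[]⟩)))) (.Q [0,0,0,
  1,0,0,-1,-1,0,0,1] (.p true [0,0,1] [] (⟨0,[(17,0)]⟩,⟨0,[(16,0)]⟩) .k 0 (⟨0,[]⟩,⟨0,[]⟩) .k .k)
  (.R ⟨2,true,false,true,[0,1],[0,0,1],[0,0,1,1],(⟨0,[]⟩,⟨0,[]⟩),(⟨0,[(18,0)]⟩,⟨0,[(17,0)]⟩),⟨0,[]⟩,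
  .k,.k,.k,.k,.k,.k,⟨false,1,⟨1,[(0,1),(13,1),(10,0),(0,0)]⟩,⟨0,[(4,0),(18,0),(1,0)]⟩⟩,⟨true,0,⟨0,
  [(14,0)]⟩,⟨1,[(5,0),(11,0),(0,0)]⟩⟩,⟨false,1,⟨3,[(6,0),(0,0),(18,1)]⟩,⟨0,[]⟩⟩,⟨true,0,⟨0,[(4,0),
  (9,0),(8,0),(1,0)]⟩,⟨0,[(0,0)]⟩⟩,⟨true,0,⟨0,[(24,0)]⟩,⟨0,[(23,0)]⟩⟩,⟨false,0,⟨0,[(4,0),(9,0),(10,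
  0)]⟩,⟨0,[(13,0),(12,0)]⟩⟩,[]⟩) (.Q [0,-1,0,2,0,0,1,1,0,1,-1] (.p false [0,0,1] [1] (⟨0,[(18,0)]⟩,
  ⟨0,[(17,0)]⟩) .k 1 (⟨0,[]⟩,⟨0,[]⟩) .k .k) (.I [0,0,-2,-2,2,0,0,-1] (.R ⟨1,true,false,false,[1,0,
  -1],[0,1],[0,0,0,0,0,0,0,-1],(⟨0,[(19,0)]⟩,⟨0,[(20,0)]⟩),(⟨0,[(23,0)]⟩,⟨0,[(22,0)]⟩),⟨0,[(3,0)]⟩,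
  .k,.k,.k,.k,(.r (-2) ⟨0,[(0,0)]⟩ ⟨1,[(1,0),(4,1),(6,0),(1,0),(0,0),(9,1)]⟩),.k,⟨false,2,⟨0,[(0,0),
  (25,0)]⟩,⟨0,[(6,0),(19,0)]⟩⟩,⟨true,1,⟨0,[(16,0),(2,0),(0,0),(6,0)]⟩,⟨0,[(6,0),(5,0),(11,0)]⟩⟩,
  ⟨false,1,⟨3,[(8,0),(0,0),(18,1)]⟩,⟨0,[]⟩⟩,⟨true,0,⟨0,[(1,0),(23,0)]⟩,⟨0,[(5,0)]⟩⟩,⟨true,0,⟨0,[(26,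
  0)]⟩,⟨0,[(25,0)]⟩⟩,⟨false,0,⟨0,[(1,0)]⟩,⟨2,[(0,1),(4,1),(0,0),(6,0),(10,1)]⟩⟩,[]⟩) (.R ⟨1,true,
  false,false,[1,0,-1],[0,1],[0,0,0,0,0,0,0,-1],(⟨0,[(19,0)]⟩,⟨0,[(20,0)]⟩),(⟨0,[(23,0)]⟩,⟨0,[(22,
  0)]⟩),⟨0,[(3,0)]⟩,.k,.k,.k,.k,(.x 1 ⟨3,[(0,1),(2,5),(0,1),(0,3),(0,1),(14,0),(2,1),(3,0)]⟩ ⟨3,[(8,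
  0),(0,0),(6,3),(3,3),(2,7),(3,5)]⟩),.k,⟨false,2,⟨1,[(5,1),(10,1),(2,1),(0,1),(6,2),(0,0)]⟩,⟨1,[(0,
  0),(17,0)]⟩⟩,⟨true,1,⟨0,[(16,0),(2,0),(0,0),(6,0)]⟩,⟨2,[(0,0),(4,1),(0,0),(6,0),(10,1)]⟩⟩,⟨false,
  1,⟨3,[(8,0),(0,0),(18,1)]⟩,⟨0,[]⟩⟩,⟨true,0,⟨0,[(1,0),(23,0)]⟩,⟨0,[(5,0)]⟩⟩,⟨true,0,⟨0,[(26,0)]⟩,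
  ⟨0,[(25,0)]⟩⟩,⟨false,0,⟨0,[(1,0)]⟩,⟨0,[(5,0),(19,0),(2,0)]⟩⟩,[]⟩)) (.Q [0,-1,0,1,0,0,0,0,1,1,0,
  -1] (.p false [0,0,0,1] [1] (⟨0,[(10,0)]⟩,⟨1,[(9,0),(8,0),(0,0)]⟩) .k 1 (⟨0,[]⟩,⟨0,[]⟩) .k .k)
  (.I [0,0,-1,-1,1,0,0,0,-1] (.R ⟨1,false,false,false,[1,0,0,-1],[0,1],[0,0,0,0,0,0,0,0,-1],(⟨1,
  [(11,0),(8,0),(0,0)]⟩,⟨0,[(12,0)]⟩),(⟨0,[(24,0)]⟩,⟨0,[(23,0)]⟩),⟨1,[(4,0),(0,0),(5,0)]⟩,.k,.k,(.r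
  (-1) ⟨0,[(0,0)]⟩ ⟨5,[(1,1),(5,1),(2,1),(1,1),(0,0),(0,0),(1,0),(0,2),(9,3)]⟩),(.r (-1) ⟨0,[(0,
  0)]⟩ ⟨5,[(1,1),(5,1),(2,1),(1,1),(0,0),(0,0),(1,0),(0,2),(9,3)]⟩),(.r (-2) ⟨4,[(0,7),(0,0),(0,0),
  (0,0),(6,0),(1,0),(15,0)]⟩ ⟨0,[(1,0),(5,0),(4,0),(0,0),(3,0),(9,0)]⟩),.k,⟨true,1,⟨0,[(0,0)]⟩,⟨0,
  [(1,0),(5,0),(4,0),(0,0),(3,0)]⟩⟩,⟨false,1,⟨1,[(11,0),(8,0),(0,0),(6,1)]⟩,⟨2,[(7,0),(4,2),(0,0),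
  (3,0),(4,0),(2,0)]⟩⟩,⟨false,1,⟨3,[(9,0),(0,0),(18,1)]⟩,⟨0,[]⟩⟩,⟨false,0,⟨0,[(1,0)]⟩,⟨5,[(2,1),(0,
  1),(5,2),(2,5),(9,1),(6,0)]⟩⟩,⟨true,0,⟨0,[(27,0)]⟩,⟨0,[(26,0)]⟩⟩,⟨false,0,⟨0,[(1,0),(25,0)]⟩,⟨5,
  [(2,3),(0,3),(5,2),(2,5),(9,0),(6,1)]⟩⟩,[.o ⟨false,0,⟨0,[(27,0)]⟩,⟨11,[(2,3),(0,3),(5,2),(0,2),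
  (11,3),(6,1)]⟩⟩,.o ⟨false,1,⟨3,[(9,0),(0,0),(16,3),(1,1)]⟩,⟨0,[(3,0),(9,0)]⟩⟩,.a ⟨true,0,⟨0,[(12,
  0)]⟩,⟨1,[(11,0),(8,0),(0,0)]⟩⟩ ⟨false,1,⟨1,[(9,0),(19,0)]⟩,⟨0,[(1,0),(1,0),(8,0),(0,0)]⟩⟩ ⟨true,0,
  ⟨1,[(11,0),(8,0),(0,0),(5,1)]⟩,⟨0,[(3,0),(8,0),(0,0)]⟩⟩,.o ⟨false,0,⟨2,[(7,0),(4,2),(0,0),(3,0),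
  (4,0),(2,0)]⟩,⟨7,[(9,0),(0,0),(0,3),(10,1),(5,3)]⟩⟩]⟩) (.R ⟨1,false,false,false,[1,0,0,-1],[0,1],
  [1,1,0,-1,0,0,0,0,-1],(⟨1,[(11,0),(8,0),(0,0)]⟩,⟨0,[(12,0)]⟩),(⟨0,[(24,0)]⟩,⟨0,[(23,0)]⟩),⟨1,[(4,
  0),(0,0),(5,0)]⟩,.k,.k,(.x 0 ⟨1,[(4,0),(0,0),(8,0),(2,0)]⟩ ⟨3,[(9,0),(0,0),(13,3),(3,1)]⟩),(.x 0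
  ⟨1,[(4,0),(0,0),(8,0),(2,0)]⟩ ⟨3,[(9,0),(0,0),(13,3),(3,1)]⟩),(.r (-2) ⟨1,[(2,0),(0,0),(5,0),(10,
  0),(0,0),(4,0),(1,1),(0,0)]⟩ ⟨3,[(0,7),(8,2),(0,0)]⟩),.k,⟨true,1,⟨1,[(2,0),(0,0),(5,0),(10,0),(0,
  0),(4,0),(1,0)]⟩,⟨1,[(0,3),(8,0),(19,0)]⟩⟩,⟨false,1,⟨1,[(11,0),(8,0),(0,0),(6,1)]⟩,⟨2,[(7,0),(4,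
  2),(0,0),(3,0),(4,0),(2,0)]⟩⟩,⟨true,0,⟨0,[(26,0)]⟩,⟨0,[(27,0)]⟩⟩,⟨false,0,⟨0,[(1,0)]⟩,⟨5,[(2,1),
  (0,1),(5,2),(2,5),(9,1),(6,0)]⟩⟩,⟨false,0,⟨0,[]⟩,⟨3,[(9,0),(0,0),(18,1)]⟩⟩,⟨false,0,⟨0,[(1,0),(25,
  0)]⟩,⟨5,[(2,3),(0,3),(5,2),(2,5),(9,0),(6,1)]⟩⟩,[.o ⟨false,0,⟨0,[(27,0)]⟩,⟨11,[(2,3),(0,3),(5,2),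
  (0,2),(11,3),(6,1)]⟩⟩,.o ⟨false,1,⟨3,[(9,0),(0,0),(16,3),(1,1)]⟩,⟨0,[(3,0),(9,0)]⟩⟩,.a ⟨true,0,⟨0,
  [(12,0)]⟩,⟨1,[(11,0),(8,0),(0,0)]⟩⟩ ⟨false,1,⟨1,[(9,0),(16,1),(2,0)]⟩,⟨1,[(0,1),(27,0),(0,0)]⟩⟩
  ⟨true,0,⟨1,[(11,0),(8,0),(0,0),(5,1)]⟩,⟨0,[(3,0),(8,0),(0,0)]⟩⟩,.o ⟨false,0,⟨2,[(7,0),(4,2),(0,0),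
  (3,0),(4,0),(2,0)]⟩,⟨7,[(9,0),(0,0),(0,3),(10,1),(5,3)]⟩⟩]⟩)) (.Q [0,0,0,1,0,0,0,0,-1,0,0,1] (.p
  true [0,0,0,1] [] (⟨0,[(11,0)]⟩,⟨1,[(10,0),(8,0),(0,0)]⟩) .k 0 (⟨0,[]⟩,⟨0,[]⟩) .k .k) (.Q [0,0,0,
  2,0,0,-1,-1,0,0,1] (.p true [0,0,1] [] (⟨0,[(21,0)]⟩,⟨0,[(20,0)]⟩) .k 0 (⟨0,[]⟩,⟨0,[]⟩) .k .k)
  (.R ⟨1,true,false,false,[0,0,1],[0,1],[1,1,0,-1,0,0,0,1],(⟨0,[(22,0)]⟩,⟨0,[(21,0)]⟩),(⟨0,[(25,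
  0)]⟩,⟨0,[(24,0)]⟩),⟨0,[(6,0)]⟩,.k,.k,.k,.k,(.r (-1) ⟨3,[(3,1),(0,3),(3,1),(0,0),(11,2),(0,2),(6,
  4),(0,0)]⟩ ⟨1,[(0,1),(17,2),(0,0)]⟩),.k,⟨true,0,⟨1,[(3,0),(0,0),(3,1),(12,0),(0,0),(4,0),(1,1)]⟩,
  ⟨0,[(0,0),(17,0),(7,0)]⟩⟩,⟨false,1,⟨1,[(9,0),(11,0),(0,0),(6,1)]⟩,⟨0,[(18,0)]⟩⟩,⟨true,0,⟨0,[(27,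
  0)]⟩,⟨0,[(28,0)]⟩⟩,⟨false,1,⟨7,[(0,3),(9,0),(0,0),(5,3),(12,5)]⟩,⟨0,[(4,0)]⟩⟩,⟨false,0,⟨0,[]⟩,⟨3,
  [(10,0),(0,0),(18,1)]⟩⟩,⟨true,0,⟨0,[(0,0)]⟩,⟨0,[(4,0),(22,0)]⟩⟩,[]⟩) (.I [1,0,0,-1,0,0,0,0,-1]
  (.Q [0,-1,0,0,0,0,0,0,-1,0,0,1] (.p true [0,0,0,1] [] (⟨0,[(14,0)]⟩,⟨1,[(13,0),(8,0),(0,0)]⟩) .k
  0 (⟨0,[]⟩,⟨0,[]⟩) .k .k) (.I [0,0,1,1,0,0,0,0,1] (.R ⟨1,false,false,true,[1,0,0,-1],[1,-1],[1,1,0,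
  -1,0,0,0,0,-1],(⟨1,[(15,0),(8,0),(0,0)]⟩,⟨0,[(16,0)]⟩),(⟨0,[(27,0)]⟩,⟨0,[(28,0)]⟩),⟨1,[(8,0),(0,
  0),(5,0)]⟩,.k,.k,(.r (-1) ⟨5,[(2,1),(0,1),(9,1),(6,1),(11,2),(0,0)]⟩ ⟨0,[(0,0)]⟩),(.x (-1) ⟨3,
  [(13,0),(0,0),(13,3),(3,1)]⟩ ⟨1,[(8,0),(0,0),(8,0),(2,0)]⟩),.k,.k,⟨false,0,⟨1,[(1,0),(3,0),(9,0),
  (15,0)]⟩,⟨1,[(14,0),(17,0)]⟩⟩,⟨true,0,⟨1,[(15,0),(2,0),(2,0)]⟩,⟨0,[(16,0)]⟩⟩,⟨true,0,⟨0,[(30,0)]⟩,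
  ⟨0,[(31,0)]⟩⟩,⟨false,1,⟨7,[(3,1),(2,1),(6,0),(0,4),(0,3),(10,0),(6,0)]⟩,⟨0,[(1,0),(29,0)]⟩⟩,
  ⟨false,0,⟨0,[]⟩,⟨3,[(13,0),(0,0),(18,1)]⟩⟩,⟨false,1,⟨7,[(13,0),(0,4),(0,3),(10,1)]⟩,⟨0,[(1,0)]⟩⟩,
  [.o ⟨false,0,⟨0,[(7,0),(9,0)]⟩,⟨3,[(0,1),(12,0),(17,1),(0,0),(0,1)]⟩⟩,.o ⟨false,1,⟨7,[(3,1),(2,1),
  (6,1),(0,1),(11,2),(6,0)]⟩,⟨0,[(31,0)]⟩⟩,.a ⟨true,0,⟨0,[(16,0)]⟩,⟨1,[(15,0),(8,0),(0,0)]⟩⟩ ⟨false,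
  0,⟨0,[(2,0)]⟩,⟨1,[(0,1),(31,0),(0,0)]⟩⟩ ⟨true,0,⟨1,[(6,0),(8,0),(3,0)]⟩,⟨0,[(16,0),(14,0)]⟩⟩,.o
  ⟨false,0,⟨2,[(0,0),(0,0),(8,0),(0,0),(4,1),(4,0),(4,0)]⟩,⟨7,[(13,0),(0,0),(0,3),(10,1),(5,
  3)]⟩⟩]⟩) (.R ⟨1,false,false,true,[1,0,0,-1],[1,-1],[1,1,0,-1,0,0,0,0,-1],(⟨1,[(15,0),(8,0),(0,
  0)]⟩,⟨0,[(16,0)]⟩),(⟨0,[(27,0)]⟩,⟨0,[(28,0)]⟩),⟨1,[(8,0),(0,0),(5,0)]⟩,.k,.k,(.x 0 ⟨1,[(8,0),(0,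
  0),(8,0),(2,0)]⟩ ⟨3,[(13,0),(0,0),(13,3),(3,1)]⟩),(.r 0 ⟨1,[(4,1),(10,0),(2,0),(2,0)]⟩ ⟨0,[(0,0),
  (13,0)]⟩),.k,.k,⟨false,0,⟨25,[(0,7),(0,3),(2,7),(6,3),(1,2),(1,5),(1,3),(3,3),(4,0)]⟩,⟨1,[(14,0),
  (17,0)]⟩⟩,⟨true,0,⟨1,[(15,0),(2,0),(2,0)]⟩,⟨0,[(16,0)]⟩⟩,⟨true,0,⟨0,[(30,0)]⟩,⟨0,[(31,0)]⟩⟩,
  ⟨false,1,⟨7,[(3,1),(2,1),(6,0),(0,4),(0,3),(10,0),(6,0)]⟩,⟨0,[(1,0),(29,0)]⟩⟩,⟨false,0,⟨0,[]⟩,⟨3,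
  [(13,0),(0,0),(18,1)]⟩⟩,⟨false,1,⟨7,[(13,0),(0,4),(0,3),(10,1)]⟩,⟨0,[(1,0)]⟩⟩,[.o ⟨false,0,⟨0,[(7,
  0),(9,0)]⟩,⟨3,[(13,0),(0,0),(16,3),(1,1)]⟩⟩,.o ⟨false,1,⟨7,[(3,1),(2,1),(6,1),(0,1),(11,2),(6,
  0)]⟩,⟨0,[(31,0)]⟩⟩,.a ⟨true,0,⟨0,[(16,0)]⟩,⟨1,[(15,0),(8,0),(0,0)]⟩⟩ ⟨false,0,⟨0,[(2,0)]⟩,⟨1,[(14,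
  0),(16,1),(1,0)]⟩⟩ ⟨true,0,⟨1,[(6,0),(8,0),(3,0)]⟩,⟨0,[(16,0),(14,0)]⟩⟩,.o ⟨false,0,⟨2,[(11,0),(4,
  2),(0,0),(3,0),(4,0),(2,0)]⟩,⟨7,[(13,0),(0,0),(0,3),(10,1),(5,3)]⟩⟩]⟩)) (.Q [0,-1,0,-2,1,0,0,0,1,
  0,0,-1] (.p false [0,0,0,1] [] (⟨0,[(15,0)]⟩,⟨1,[(14,0),(8,0),(0,0)]⟩) .k 0 (⟨0,[]⟩,⟨0,[]⟩) .k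
  .k) (.R ⟨1,false,false,false,[1,0,0,-1],[1,-1],[1,0,0,-1,0,0,0,0,-1],(⟨1,[(15,0),(8,0),(0,0)]⟩,⟨0,
  [(16,0)]⟩),(⟨0,[(27,0)]⟩,⟨0,[(28,0)]⟩),⟨1,[(8,0),(0,0),(5,0)]⟩,.k,.k,(.r (-1) ⟨5,[(0,0),(1,2),(10,
  1),(2,0),(13,0),(1,2)]⟩ ⟨0,[(1,0),(14,0),(12,0),(1,0)]⟩),(.r 0 ⟨1,[(4,1),(10,0),(2,0),(2,0)]⟩ ⟨1,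
  [(0,0),(0,0),(14,1),(15,0)]⟩),.k,.k,⟨false,0,⟨0,[(2,0),(28,0)]⟩,⟨1,[(14,0),(17,0)]⟩⟩,⟨true,0,⟨1,
  [(15,0),(2,0),(2,0)]⟩,⟨0,[(16,0)]⟩⟩,⟨false,1,⟨3,[(0,1),(12,0),(2,1),(16,0)]⟩,⟨0,[(31,0)]⟩⟩,⟨false,
  1,⟨1,[(0,0),(0,0),(31,0)]⟩,⟨0,[(4,0)]⟩⟩,⟨true,0,⟨0,[]⟩,⟨0,[(35,0)]⟩⟩,⟨false,1,⟨0,[(1,0),(31,0)]⟩,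
  ⟨1,[(2,0),(1,0),(11,0)]⟩⟩,[.o ⟨false,1,⟨5,[(0,1),(4,1),(7,0),(0,0),(11,1)]⟩,⟨0,[(31,0)]⟩⟩,.o
  ⟨false,1,⟨7,[(3,1),(2,1),(19,2),(6,4)]⟩,⟨0,[(31,0),(3,0)]⟩⟩,.a ⟨true,0,⟨0,[(16,0)]⟩,⟨1,[(15,0),(8,
  0),(0,0)]⟩⟩ ⟨true,0,⟨0,[(2,0)]⟩,⟨0,[(1,0),(14,0),(14,0)]⟩⟩ ⟨false,1,⟨6,[(0,2),(1,0),(10,0),(1,1),
  (10,0),(6,1)]⟩,⟨0,[(16,0),(14,0)]⟩⟩,.o ⟨false,0,⟨2,[(11,0),(4,2),(0,0),(3,0),(4,0),(2,0)]⟩,⟨7,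
  [(13,0),(0,0),(0,3),(10,1),(5,3)]⟩⟩]⟩) (.R ⟨1,false,false,false,[1,0,0,-1],[0,1],[1,1,0,-1,0,0,0,
  0,-1],(⟨1,[(15,0),(8,0),(0,0)]⟩,⟨0,[(16,0)]⟩),(⟨0,[(28,0)]⟩,⟨0,[(27,0)]⟩),⟨1,[(8,0),(0,0),(5,0)]⟩,
  .k,.k,(.r (-1) ⟨5,[(2,1),(0,1),(9,1),(6,1),(11,2),(0,0)]⟩ ⟨1,[(0,0),(0,0),(12,0),(14,1)]⟩),(.r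
  (-1) ⟨5,[(2,1),(0,1),(9,1),(6,1),(11,2),(0,0)]⟩ ⟨1,[(0,0),(0,0),(12,0),(14,1)]⟩),(.r (-1) ⟨1,[(0,
  1),(2,1),(2,1),(8,0),(8,0),(0,0),(6,1),(0,1)]⟩ ⟨1,[(0,1),(13,1),(0,0),(2,0),(2,0),(7,1)]⟩),.k,
  ⟨true,0,⟨1,[(0,1),(2,1),(2,1),(8,0),(8,0),(0,0),(6,0),(0,0)]⟩,⟨1,[(0,0),(0,0),(12,0),(14,3),(1,
  1)]⟩⟩,⟨false,1,⟨1,[(15,0),(8,0),(0,0),(6,1)]⟩,⟨13,[(0,1),(9,3),(0,3),(2,0),(1,11),(4,3),(4,4),(2,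
  5)]⟩⟩,⟨true,0,⟨0,[(30,0)]⟩,⟨0,[(31,0)]⟩⟩,⟨false,1,⟨3,[(0,1),(13,2),(0,2),(8,0),(0,0),(7,2)]⟩,⟨7,
  [(0,7),(2,5),(2,5),(19,0),(6,6)]⟩⟩,⟨false,0,⟨0,[]⟩,⟨3,[(13,0),(0,0),(18,1)]⟩⟩,⟨false,1,⟨0,[(0,0),
  (13,0),(0,0),(17,0)]⟩,⟨0,[(0,0),(2,0),(2,0),(26,0)]⟩⟩,[.o ⟨false,0,⟨0,[(31,0)]⟩,⟨7,[(3,1),(2,1),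
  (6,1),(0,1),(11,2),(6,0)]⟩⟩,.o ⟨false,1,⟨3,[(13,0),(0,0),(16,3),(1,1)]⟩,⟨3,[(0,0),(0,0),(1,1),(6,
  1),(15,0)]⟩⟩,.a ⟨true,0,⟨0,[(16,0)]⟩,⟨1,[(15,0),(8,0),(0,0)]⟩⟩ ⟨false,0,⟨0,[(2,0)]⟩,⟨1,[(14,0),
  (16,1),(1,0)]⟩⟩ ⟨true,0,⟨3,[(0,1),(13,0),(0,2),(8,0),(0,0),(7,0)]⟩,⟨3,[(0,1),(2,1),(2,1),(7,0),(1,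
  1),(9,0)]⟩⟩,.o ⟨false,0,⟨13,[(0,1),(9,3),(0,3),(2,0),(1,11),(4,3),(4,4),(2,5)]⟩,⟨7,[(13,0),(0,0),
  (0,3),(10,1),(5,3)]⟩⟩]⟩))) (.R ⟨1,false,false,false,[1,0,0,-1],[0,0,1],[1,0,0,-1,0,0,0,0,-1],(⟨1,
  [(13,0),(8,0),(0,0)]⟩,⟨0,[(14,0)]⟩),(⟨0,[(23,0)]⟩,⟨0,[(22,0)]⟩),⟨1,[(6,0),(0,0),(5,0)]⟩,.k,.k,(.r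
  (-1) ⟨5,[(1,1),(0,1),(1,1),(6,1),(1,0),(8,0),(0,0),(6,2),(0,0)]⟩ ⟨1,[(0,1),(18,0),(0,0)]⟩),.k,(.r
  (-2) ⟨1,[(4,0),(6,0),(6,0),(0,1),(2,0),(0,0),(6,1),(0,0)]⟩ ⟨0,[(0,0),(8,0)]⟩),.k,⟨true,1,⟨1,[(2,
  1),(1,1),(8,0),(5,1),(2,0),(0,0),(6,0),(0,0)]⟩,⟨0,[(0,0),(8,0)]⟩⟩,⟨false,1,⟨1,[(13,0),(5,1),(2,0),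
  (0,0),(6,1)]⟩,⟨1,[(9,1),(4,1),(0,1),(14,0),(0,0)]⟩⟩,⟨false,1,⟨0,[(28,0),(2,0)]⟩,⟨0,[(29,0)]⟩⟩,
  ⟨true,0,⟨1,[(0,1),(4,1),(7,0),(8,0),(0,0)]⟩,⟨0,[(2,0),(5,0)]⟩⟩,⟨true,0,⟨0,[]⟩,⟨0,[(33,0)]⟩⟩,⟨true,
  0,⟨3,[(0,5),(1,1),(2,3),(7,2),(8,0),(0,0)]⟩,⟨0,[(2,0),(1,0)]⟩⟩,[.o ⟨false,0,⟨0,[(5,0),(23,0)]⟩,⟨1,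
  [(18,1),(5,0),(6,0)]⟩⟩,.o ⟨false,1,⟨0,[(17,0),(13,0)]⟩,⟨0,[(15,0)]⟩⟩,.a ⟨true,0,⟨0,[(14,0)]⟩,⟨1,
  [(13,0),(8,0),(0,0)]⟩⟩ ⟨false,1,⟨5,[(1,1),(0,1),(1,1),(6,1),(1,0),(8,0),(0,0),(7,3)]⟩,⟨0,[(0,
  0)]⟩⟩ ⟨true,0,⟨3,[(0,1),(1,1),(2,3),(7,2),(8,0),(0,0)]⟩,⟨0,[(14,0),(0,0)]⟩⟩,.o ⟨false,0,⟨2,[(9,0),
  (4,2),(0,0),(3,0),(4,0),(2,0)]⟩,⟨7,[(11,0),(0,0),(0,3),(10,1),(5,3)]⟩⟩]⟩))) (.R ⟨1,false,false,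
  false,[1,0,0,-1],[1,-1],[0,1,0,0,0,0,0,0,-1],(⟨1,[(11,0),(8,0),(0,0)]⟩,⟨0,[(12,0)]⟩),(⟨0,[(23,
  0)]⟩,⟨0,[(24,0)]⟩),⟨1,[(4,0),(0,0),(5,0)]⟩,.k,.k,(.r (-1) ⟨1,[(1,1),(9,0),(8,0),(0,0),(6,0),(0,
  0)]⟩ ⟨2,[(0,0),(6,0),(2,0),(1,0),(3,0),(0,0),(7,0),(1,3)]⟩),(.r 0 ⟨1,[(1,1),(9,0),(8,0),(0,0),(3,
  1),(1,3)]⟩ ⟨3,[(0,1),(9,0),(1,1),(13,1),(1,1),(0,0)]⟩),.k,.k,⟨false,0,⟨1,[(1,1),(9,0),(8,0),(0,0),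
  (5,3)]⟩,⟨1,[(0,1),(11,1),(15,0),(0,0)]⟩⟩,⟨true,0,⟨1,[(11,0),(2,0),(2,0)]⟩,⟨0,[(12,0)]⟩⟩,⟨true,0,
  ⟨0,[(31,0)]⟩,⟨0,[]⟩⟩,⟨true,0,⟨0,[(0,0)]⟩,⟨0,[(1,0),(18,0),(0,0),(5,1)]⟩⟩,⟨false,0,⟨0,[(27,0)]⟩,⟨0,
  [(26,0),(2,0)]⟩⟩,⟨true,0,⟨0,[(0,0),(26,0)]⟩,⟨0,[(1,0),(18,0),(0,0),(5,0)]⟩⟩,[.o ⟨false,1,⟨11,[(2,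
  3),(0,3),(5,2),(0,2),(11,3),(6,1)]⟩,⟨0,[(27,0)]⟩⟩,.o ⟨false,1,⟨2,[(2,0),(0,0),(18,0),(6,1)]⟩,⟨0,
  [(27,0),(3,0)]⟩⟩,.a ⟨true,0,⟨0,[(12,0)]⟩,⟨1,[(11,0),(8,0),(0,0)]⟩⟩ ⟨true,0,⟨1,[(1,1),(9,0),(8,0),
  (0,0),(5,1)]⟩,⟨0,[(0,0),(11,0),(14,0)]⟩⟩ ⟨false,1,⟨1,[(0,1),(8,0),(19,0)]⟩,⟨0,[(12,0),(14,0)]⟩⟩,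
  .o ⟨false,0,⟨2,[(7,0),(4,2),(0,0),(3,0),(4,0),(2,0)]⟩,⟨7,[(9,0),(0,0),(0,3),(10,1),(5,
  3)]⟩⟩]⟩))))))

theorem ok139 : chk (cU (-1) false 2) t139 r70 = true := by decide +kernel

end Helper11.CT.T1_3_m1_1_v
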