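import Pool.Agent.Helper11.CT.T.T1_3_m1_1_v_q

set_option autoImplicit false
set_option linter.all false

namespace Helper11.CT.T1_3_m1_1_v

open Helper11.CT

noncomputable def t0 : Tre :=
  (.Q [0,-1,0,1,0,0,1,1,0,1,-1] (.p false [0,0,1] [1] (⟨0,[(15,0)]⟩,⟨0,[(14,0)]⟩) .k 1 (⟨0,[]⟩,⟨0,
  []⟩) .k .k) (.R ⟨2,true,false,true,[0,1],[1,0,-1],[1,1,1],(⟨0,[]⟩,⟨0,[]⟩),(⟨0,[(15,0)]⟩,⟨0,[(16,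
  0)]⟩),⟨0,[]⟩,.k,.k,.k,.k,.k,.k,⟨false,0,⟨0,[(14,0)]⟩,⟨0,[(2,0)]⟩⟩,⟨true,0,⟨0,[(9,0)]⟩,⟨0,[(1,
  0)]⟩⟩,⟨true,0,⟨0,[(21,0)]⟩,⟨0,[(22,0)]⟩⟩,⟨false,1,⟨0,[(8,0),(12,0),(2,0)]⟩,⟨0,[(0,0)]⟩⟩,⟨false,0,
  ⟨0,[]⟩,⟨3,[(4,0),(0,0),(18,1)]⟩⟩,⟨true,0,⟨0,[(8,0)]⟩,⟨0,[(1,0),(12,0)]⟩⟩,[]⟩) (.Q [0,0,0,0,0,-1,0,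
  0,0,0,1] (.ed false [1,-1,1] .k) (.Q [0,-1,0,-1,1,0,0,0,0,-1] (.pp true [-1,1]) (.R ⟨1,false,
  false,false,[0,0,1],[1,-1],[0,0,0,0,0,0,0,1],(⟨0,[(18,0)]⟩,⟨0,[(17,0)]⟩),(⟨0,[(20,0)]⟩,⟨0,[(21,
  0)]⟩),⟨0,[(1,0)]⟩,.k,.k,.k,.k,.k,.k,⟨false,0,⟨0,[(16,0),(7,0)]⟩,⟨1,[(2,1),(0,1),(21,0),(0,0)]⟩⟩,
  ⟨true,0,⟨0,[(11,0)]⟩,⟨0,[(3,0)]⟩⟩,⟨false,1,⟨3,[(6,0),(0,0),(18,1)]⟩,⟨0,[]⟩⟩,⟨false,1,⟨0,[(2,0),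
  (23,0)]⟩,⟨0,[(3,0),(12,0),(7,0)]⟩⟩,⟨true,0,⟨0,[(24,0)]⟩,⟨0,[(23,0)]⟩⟩,⟨false,1,⟨0,[(10,0),(15,
  0)]⟩,⟨0,[(3,0),(12,0)]⟩⟩,[.o ⟨false,1,⟨7,[(0,3),(5,0),(0,0),(11,1),(3,3)]⟩,⟨0,[(24,0)]⟩⟩,.o
  ⟨false,1,⟨0,[(0,0)]⟩,⟨0,[(24,0),(3,0)]⟩⟩,.a ⟨true,0,⟨0,[(3,0)]⟩,⟨1,[(5,0),(11,0),(0,0)]⟩⟩ ⟨true,0,
  ⟨0,[(16,0)]⟩,⟨0,[(3,0),(6,0)]⟩⟩ ⟨false,1,⟨1,[(0,0),(4,0),(17,0),(2,0)]⟩,⟨0,[(3,0),(20,0)]⟩⟩,.o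
  ⟨false,0,⟨0,[(14,0)]⟩,⟨7,[(5,3),(0,0),(0,0),(11,1),(5,3)]⟩⟩]⟩) (.Q [0,0,0,0,0,1,0,0,0,-1,1] (.ed
  false [0,1,1] .k) (.K ⟨1,[-1,1,1],0,0,(⟨0,[(0,0)]⟩,⟨0,[(18,0),(2,0)]⟩),.k,.k,(.r 1 ⟨0,[(1,1),(15,
  0),(2,0),(2,1)]⟩ ⟨0,[(3,0),(0,0),(19,0),(1,0),(0,0)]⟩),.k,.k,[⟨1,[(12,1),(2,0),(0,0)]⟩,⟨0,[(4,
  0)]⟩,⟨0,[(3,0)]⟩,⟨0,[(1,0),(2,0),(12,0),(9,0)]⟩]⟩) (.K ⟨0,[1,-1,-1],0,0,(⟨0,[(0,0)]⟩,⟨0,[(19,0),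
  (2,0)]⟩),.k,(.r (-2) ⟨0,[(3,0),(0,0),(19,0),(1,0),(0,0)]⟩ ⟨0,[(1,1),(15,0),(2,0),(2,1)]⟩),.k,.k,
  .k,[⟨0,[(4,0)]⟩,⟨1,[(6,0),(11,0),(0,0)]⟩,⟨3,[(1,1),(2,1),(2,0),(0,0),(4,1),(3,1),(7,1)]⟩,⟨0,[(3,
  0)]⟩]⟩))) (.Q [0,-1,0,-1,1,0,0,0,0,-1] (.pp true [-1,1]) (.R ⟨0,false,false,false,[0,0,1],[1,-1],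
  [1,0,0,0,0,0,0,1],(⟨0,[(18,0)]⟩,⟨0,[(17,0)]⟩),(⟨0,[(20,0)]⟩,⟨0,[(21,0)]⟩),⟨0,[(1,0)]⟩,.k,.k,.k,.k,
  .k,.k,⟨false,0,⟨0,[(16,0),(7,0)]⟩,⟨1,[(2,1),(0,1),(21,0),(0,0)]⟩⟩,⟨true,0,⟨0,[(11,0)]⟩,⟨0,[(3,
  0)]⟩⟩,⟨true,0,⟨0,[]⟩,⟨0,[(28,0)]⟩⟩,⟨false,1,⟨0,[(2,0),(23,0)]⟩,⟨0,[(3,0),(12,0),(7,0)]⟩⟩,⟨false,0,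
  ⟨0,[]⟩,⟨0,[]⟩⟩,⟨false,0,⟨0,[]⟩,⟨0,[]⟩⟩,[.o ⟨false,1,⟨7,[(0,3),(5,0),(0,0),(11,1),(3,3)]⟩,⟨0,[(24,
  0)]⟩⟩,.o ⟨false,1,⟨0,[(0,0)]⟩,⟨0,[(24,0),(3,0)]⟩⟩,.a ⟨true,0,⟨0,[(3,0)]⟩,⟨1,[(5,0),(11,0),(0,
  0)]⟩⟩ ⟨true,0,⟨0,[(16,0)]⟩,⟨0,[(3,0),(6,0)]⟩⟩ ⟨false,1,⟨1,[(0,0),(4,0),(17,0),(2,0)]⟩,⟨0,[(3,0),
  (20,0)]⟩⟩,.o ⟨false,0,⟨0,[(14,0)]⟩,⟨7,[(5,3),(0,0),(0,0),(11,1),(5,3)]⟩⟩]⟩) (.Q [0,0,0,0,0,1,0,0,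
  0,-1,1] (.ed false [0,1,1] .k) (.K ⟨1,[-1,1,1],0,0,(⟨0,[(0,0)]⟩,⟨0,[(18,0),(2,0)]⟩),.k,.k,(.r 1
  ⟨0,[(1,1),(15,0),(2,0),(2,1)]⟩ ⟨0,[(3,0),(0,0),(19,0),(1,0),(0,0)]⟩),.k,.k,[⟨1,[(12,1),(2,0),(0,
  0)]⟩,⟨0,[(4,0)]⟩,⟨0,[(3,0)]⟩,⟨0,[(1,0),(2,0),(12,0),(9,0)]⟩]⟩) (.K ⟨0,[1,-1,-1],0,0,(⟨0,[(0,0)]⟩,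
  ⟨0,[(19,0),(2,0)]⟩),.k,(.r (-2) ⟨0,[(3,0),(0,0),(19,0),(1,0),(0,0)]⟩ ⟨0,[(1,1),(15,0),(2,0),(2,
  1)]⟩),.k,.k,.k,[⟨0,[(4,0)]⟩,⟨1,[(6,0),(11,0),(0,0)]⟩,⟨3,[(1,1),(2,1),(2,0),(0,0),(4,1),(3,1),(7,
  1)]⟩,⟨0,[(3,0)]⟩]⟩)))))

theorem ok0 : chk (cU (-1) false 2) t0 l1 = true := by decide +kernel

noncomputable def t6 : Tre :=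
  (.Q [0,0,0,0,0,1,0,0,0,0,-1] (.ed true [1,-1,1] .k) (.Q [0,0,-1,0,0,0,-1,0,0,1,1] (.p true [1,-1,
  1] [] (⟨0,[(24,0),(1,0)]⟩,⟨0,[(0,0)]⟩) .k 0 (⟨0,[]⟩,⟨0,[]⟩) .k .k) (.R ⟨0,false,false,false,[0,1,
  -1],[1,0,-1],[1,1],(⟨0,[(1,0)]⟩,⟨0,[(25,0),(1,0)]⟩),(⟨0,[(24,0)]⟩,⟨0,[(25,0)]⟩),⟨0,[(25,0)]⟩,.k,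
  .k,.k,.k,.k,.k,⟨false,0,⟨0,[(2,0),(28,0)]⟩,⟨0,[(11,0),(17,0)]⟩⟩,⟨true,0,⟨2,[(3,0),(14,0),(2,1)]⟩,
  ⟨0,[(0,0),(20,0)]⟩⟩,⟨true,0,⟨0,[(2,0)]⟩,⟨0,[(0,0),(3,0),(16,1),(9,0)]⟩⟩,⟨false,1,⟨0,[(6,0),(26,
  0)]⟩,⟨0,[(0,0),(20,0),(9,0)]⟩⟩,⟨false,0,⟨0,[]⟩,⟨0,[]⟩⟩,⟨false,0,⟨0,[]⟩,⟨0,[]⟩⟩,[.o ⟨false,0,⟨0,
  [(4,0)]⟩,⟨3,[(13,0),(0,0),(4,3),(13,1)]⟩⟩,.o ⟨false,1,⟨3,[(4,1),(15,1),(5,0),(6,2)]⟩,⟨0,[(19,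
  0)]⟩⟩,.a ⟨true,0,⟨0,[(0,0)]⟩,⟨0,[(21,0)]⟩⟩ ⟨false,0,⟨0,[]⟩,⟨3,[(13,0),(0,0),(18,1)]⟩⟩ ⟨true,0,⟨0,
  [(4,0),(16,0)]⟩,⟨0,[(0,0),(18,0)]⟩⟩,.o ⟨false,0,⟨3,[(0,0),(11,0),(9,0)]⟩,⟨1,[(21,1),(4,0),(5,
  0)]⟩⟩]⟩) (.I [1,1,0,1,0,0,0,0,1] (.Q [0,1,0,1,-1,0,-1,-1,-1,0,1,1] (.p true [1,-1,1] [1,0,0,-1]
  (⟨0,[(26,0),(1,0)]⟩,⟨0,[(2,0)]⟩) .k 2 (⟨1,[(16,0),(8,0),(0,0)]⟩,⟨0,[(17,0)]⟩) .k (.x (-1) ⟨7,[(12,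
  3),(1,0),(0,0),(4,3),(1,3),(3,7),(7,1)]⟩ ⟨2,[(4,0),(8,0),(11,2)]⟩)) (.R ⟨0,false,false,false,[0,0,
  0,1],[0,1,-1],[0,0,2,1,0,0,0,-1],(⟨0,[(18,0)]⟩,⟨1,[(17,0),(8,0),(0,0)]⟩),(⟨0,[(3,0)]⟩,⟨0,[(27,0),
  (1,0)]⟩),⟨1,[(3,0),(5,0),(7,0)]⟩,.k,.k,(.x 0 ⟨1,[(2,0),(17,0),(8,1)]⟩ ⟨3,[(15,0),(0,0),(13,3),(3,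
  1)]⟩),(.r (-1) ⟨1,[(4,1),(11,0),(18,0)]⟩ ⟨5,[(0,3),(1,1),(12,0),(1,1),(4,1),(0,3),(9,1),(1,2)]⟩),
  .k,.k,⟨true,0,⟨1,[(23,0),(0,0)]⟩,⟨0,[]⟩⟩,⟨false,1,⟨1,[(14,0),(3,1),(7,0),(0,0),(6,1)]⟩,⟨1,[(2,0),
  (14,0),(5,0)]⟩⟩,⟨true,(-1),⟨1,[(0,1),(1,0),(14,0),(5,0),(7,1)]⟩,⟨1,[(4,1),(11,0),(17,0)]⟩⟩,⟨false,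
  0,⟨0,[(0,0),(34,0)]⟩,⟨1,[(2,0),(1,0),(6,0),(4,0),(0,0),(17,0)]⟩⟩,⟨false,0,⟨0,[]⟩,⟨0,[]⟩⟩,⟨false,0,
  ⟨0,[]⟩,⟨0,[]⟩⟩,[.o ⟨false,0,⟨2,[(0,1),(5,0),(9,0),(0,0),(15,0),(1,0)]⟩,⟨1,[(11,1),(16,0),(6,0)]⟩⟩,
  .o ⟨false,1,⟨0,[(22,0),(10,0),(1,0)]⟩,⟨0,[(2,0),(1,0)]⟩⟩,.a ⟨true,0,⟨1,[(17,0),(8,0),(0,0)]⟩,⟨0,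
  [(18,0)]⟩⟩ ⟨false,0,⟨4,[(0,1),(0,1),(4,0),(6,1),(3,0),(5,2),(7,8),(1,0)]⟩,⟨1,[(4,1),(29,0),(0,
  0)]⟩⟩ ⟨true,0,⟨1,[(0,1),(15,0),(18,0)]⟩,⟨1,[(2,0),(1,0),(6,0),(5,0)]⟩⟩,.o ⟨false,0,⟨1,[(17,0),(2,
  0),(2,0)]⟩,⟨1,[(18,1),(9,0),(5,0)]⟩⟩]⟩) (.I [0,0,1,1,0,0,0,0,-1] (.I [0,0,1,1,0,0,0,-1,-1] (.Q [0,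
  0,0,-1,0,0,0,0,-1,-1,0,1] (.p true [0,0,0,1] [1] (⟨0,[(20,0)]⟩,⟨1,[(19,0),(8,0),(0,0)]⟩) .k 1 (⟨0,
  []⟩,⟨0,[]⟩) .k .k) (.I [1,1,0,0,0,0,0,0,1] (.I [0,0,-1,-1,1,0,0,0,1] (.R ⟨0,false,false,false,[0,
  0,0,1],[1,-1],[1,1,0,0,0,0,0,0,1],(⟨0,[(23,0)]⟩,⟨1,[(22,0),(8,0),(0,0)]⟩),(⟨0,[(34,0)]⟩,⟨0,[(35,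
  0)]⟩),⟨1,[(8,0),(5,0),(7,0)]⟩,.k,.k,(.r (-1) ⟨0,[(0,0)]⟩ ⟨0,[(4,0)]⟩),(.r 0 ⟨0,[(1,0),(34,0),(1,
  0)]⟩ ⟨5,[(2,1),(6,1),(2,1),(7,1),(1,0),(8,0),(0,0),(6,0),(0,0)]⟩),.k,.k,⟨false,0,⟨0,[(6,0)]⟩,⟨1,
  [(2,1),(19,0),(8,0),(0,0),(6,0),(0,0)]⟩⟩,⟨true,0,⟨1,[(7,0),(15,1),(1,0)]⟩,⟨1,[(22,0),(8,0),(0,
  0)]⟩⟩,⟨false,0,⟨0,[]⟩,⟨3,[(20,0),(0,0),(18,1)]⟩⟩,⟨true,0,⟨0,[(2,0)]⟩,⟨1,[(6,1),(15,0),(8,0),(0,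
  0)]⟩⟩,⟨false,0,⟨0,[]⟩,⟨0,[]⟩⟩,⟨false,0,⟨0,[]⟩,⟨0,[]⟩⟩,[.o ⟨false,1,⟨7,[(2,1),(2,1),(6,1),(7,0),(0,
  0),(3,1),(7,1),(3,1)]⟩,⟨0,[(38,0)]⟩⟩,.o ⟨false,1,⟨11,[(2,3),(2,3),(1,0),(2,1),(1,3),(12,2),(14,
  3)]⟩,⟨0,[(38,0),(3,0)]⟩⟩,.a ⟨true,0,⟨1,[(22,0),(8,0),(0,0)]⟩,⟨0,[(23,0)]⟩⟩ ⟨true,0,⟨0,[(1,0)]⟩,⟨1,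
  [(2,1),(19,0),(8,0),(0,0),(5,1)]⟩⟩ ⟨false,1,⟨1,[(2,1),(18,0),(18,0)]⟩,⟨1,[(22,0),(8,0),(0,0),(5,
  1)]⟩⟩,.o ⟨false,0,⟨1,[(22,0),(2,0),(2,0)]⟩,⟨1,[(23,1),(9,0),(5,0)]⟩⟩]⟩) (.R ⟨0,false,false,false,
  [0,0,0,1],[1,-1],[1,1,0,0,0,0,0,0,1],(⟨0,[(23,0)]⟩,⟨1,[(22,0),(8,0),(0,0)]⟩),(⟨0,[(34,0)]⟩,⟨0,
  [(35,0)]⟩),⟨1,[(8,0),(5,0),(7,0)]⟩,.k,.k,(.x 0 ⟨1,[(7,0),(17,0),(8,1)]⟩ ⟨3,[(20,0),(0,0),(13,3),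
  (3,1)]⟩),(.r 0 ⟨0,[(0,0),(20,0)]⟩ ⟨5,[(2,1),(6,1),(2,1),(7,1),(1,0),(8,0),(0,0),(6,0),(0,0)]⟩),.k,
  .k,⟨false,0,⟨0,[(6,0)]⟩,⟨1,[(2,1),(19,0),(8,0),(0,0),(6,0),(0,0)]⟩⟩,⟨true,0,⟨1,[(7,0),(15,1),(1,
  0)]⟩,⟨1,[(22,0),(8,0),(0,0)]⟩⟩,⟨false,0,⟨0,[]⟩,⟨3,[(20,0),(0,0),(18,1)]⟩⟩,⟨true,0,⟨0,[(2,0)]⟩,⟨1,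
  [(6,1),(15,0),(8,0),(0,0)]⟩⟩,⟨false,0,⟨0,[]⟩,⟨0,[]⟩⟩,⟨false,0,⟨0,[]⟩,⟨0,[]⟩⟩,[.o ⟨false,1,⟨7,[(2,
  1),(2,1),(6,1),(7,0),(0,0),(3,1),(7,1),(3,1)]⟩,⟨0,[(38,0)]⟩⟩,.o ⟨false,1,⟨11,[(2,3),(2,3),(1,0),
  (2,1),(1,3),(12,2),(14,3)]⟩,⟨5,[(0,1),(5,3),(13,0),(18,0),(2,1)]⟩⟩,.a ⟨true,0,⟨1,[(22,0),(8,0),(0,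
  0)]⟩,⟨0,[(23,0)]⟩⟩ ⟨true,0,⟨0,[(1,0)]⟩,⟨5,[(0,1),(1,1),(17,0),(1,0),(8,0),(0,0),(6,0)]⟩⟩ ⟨false,1,
  ⟨1,[(2,1),(18,0),(18,0)]⟩,⟨1,[(22,0),(8,0),(0,0),(5,1)]⟩⟩,.o ⟨false,0,⟨1,[(22,0),(2,0),(2,0)]⟩,⟨1,
  [(23,1),(9,0),(5,0)]⟩⟩]⟩)) (.I [0,0,-1,-1,1,0,0,0,1] (.R ⟨0,false,false,false,[0,0,0,1],[1,-1],[0,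
  1],(⟨0,[(23,0)]⟩,⟨1,[(22,0),(8,0),(0,0)]⟩),(⟨0,[(34,0)]⟩,⟨0,[(35,0)]⟩),⟨1,[(8,0),(5,0),(7,0)]⟩,.k,
  .k,(.r (-1) ⟨0,[(0,0)]⟩ ⟨0,[(4,0)]⟩),(.x (-1) ⟨3,[(20,0),(0,0),(13,3),(3,1)]⟩ ⟨1,[(7,0),(17,0),(8,
  1)]⟩),.k,.k,⟨false,0,⟨0,[(38,0),(3,0)]⟩,⟨0,[(0,0),(0,0)]⟩⟩,⟨true,0,⟨1,[(7,0),(15,1),(1,0)]⟩,⟨1,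
  [(22,0),(8,0),(0,0)]⟩⟩,⟨false,0,⟨1,[(1,0),(1,0),(5,0)]⟩,⟨1,[(21,0),(18,0)]⟩⟩,⟨true,0,⟨0,[(2,0)]⟩,
  ⟨1,[(6,1),(15,0),(8,0),(0,0)]⟩⟩,⟨false,0,⟨0,[]⟩,⟨0,[]⟩⟩,⟨false,0,⟨0,[]⟩,⟨0,[]⟩⟩,[.o ⟨false,1,⟨7,
  [(2,1),(2,1),(6,1),(7,0),(0,0),(3,1),(7,1),(3,1)]⟩,⟨0,[(38,0)]⟩⟩,.o ⟨false,1,⟨11,[(2,3),(2,3),(1,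
  0),(2,1),(1,3),(12,2),(14,3)]⟩,⟨0,[(38,0),(3,0)]⟩⟩,.a ⟨true,0,⟨1,[(22,0),(8,0),(0,0)]⟩,⟨0,[(23,
  0)]⟩⟩ ⟨true,0,⟨0,[(42,0)]⟩,⟨0,[]⟩⟩ ⟨false,1,⟨1,[(2,1),(18,0),(18,0)]⟩,⟨1,[(22,0),(8,0),(0,0),(5,
  1)]⟩⟩,.o ⟨false,0,⟨1,[(22,0),(2,0),(2,0)]⟩,⟨1,[(23,1),(9,0),(5,0)]⟩⟩]⟩) (.R ⟨0,false,false,false,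
  [0,0,0,1],[0,1],[1,0,1,1],(⟨0,[(23,0)]⟩,⟨1,[(22,0),(8,0),(0,0)]⟩),(⟨0,[(35,0)]⟩,⟨0,[(34,0)]⟩),⟨1,
  [(8,0),(5,0),(7,0)]⟩,.k,.k,(.x 0 ⟨1,[(7,0),(17,0),(8,1)]⟩ ⟨3,[(20,0),(0,0),(13,3),(3,1)]⟩),(.x 0
  ⟨1,[(7,0),(17,0),(8,1)]⟩ ⟨3,[(20,0),(0,0),(13,3),(3,1)]⟩),.k,.k,⟨true,0,⟨0,[]⟩,⟨1,[(28,0),(0,
  0)]⟩⟩,⟨false,1,⟨0,[(23,0),(15,0)]⟩,⟨1,[(22,0),(2,0),(2,0)]⟩⟩,⟨true,(-1),⟨0,[(0,0)]⟩,⟨1,[(21,0),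
  (15,1),(1,0)]⟩⟩,⟨false,0,⟨1,[(0,1),(22,1),(15,0),(0,0)]⟩,⟨0,[(5,0),(21,0)]⟩⟩,⟨false,0,⟨0,[]⟩,⟨0,
  []⟩⟩,⟨false,0,⟨0,[]⟩,⟨0,[]⟩⟩,[.o ⟨false,0,⟨0,[(38,0)]⟩,⟨7,[(2,1),(2,1),(6,1),(7,0),(0,0),(3,1),(7,
  1),(3,1)]⟩⟩,.o ⟨false,1,⟨3,[(20,0),(0,0),(16,3),(1,1)]⟩,⟨0,[(13,0)]⟩⟩,.a ⟨true,0,⟨1,[(22,0),(8,0),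
  (0,0)]⟩,⟨0,[(23,0)]⟩⟩ ⟨false,0,⟨1,[(0,1),(20,0),(18,0)]⟩,⟨7,[(9,3),(2,3),(7,0),(0,0),(18,1)]⟩⟩
  ⟨true,0,⟨0,[(23,0),(14,0)]⟩,⟨1,[(13,0),(8,0),(14,0)]⟩⟩,.o ⟨false,0,⟨1,[(22,0),(2,0),(2,0)]⟩,⟨1,
  [(23,1),(9,0),(5,0)]⟩⟩]⟩))) (.Q [0,0,0,0,0,0,1,1,1,1,-1,-1] (.p false [0,0,1] [1,0,0,-1] (⟨0,[(30,
  0)]⟩,⟨0,[(29,0)]⟩) .k 2 (⟨1,[(20,0),(8,0),(0,0)]⟩,⟨0,[(21,0)]⟩) .k (.x (-1) ⟨7,[(16,3),(1,0),(0,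
  0),(4,3),(1,3),(3,7),(7,1)]⟩ ⟨2,[(8,0),(8,0),(11,2)]⟩)) (.R ⟨0,false,false,false,[0,0,0,1],[1,0,
  -1],[1,1],(⟨0,[(22,0)]⟩,⟨1,[(21,0),(8,0),(0,0)]⟩),(⟨0,[(30,0)]⟩,⟨0,[(31,0)]⟩),⟨1,[(7,0),(5,0),(7,
  0)]⟩,.k,.k,(.r (-1) ⟨3,[(0,1),(7,1),(1,1),(0,1),(8,0),(1,1),(16,0)]⟩ ⟨0,[(3,0)]⟩),.k,.k,.k,⟨false,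
  0,⟨0,[(8,0),(28,0)]⟩,⟨0,[(17,0),(17,0)]⟩⟩,⟨true,0,⟨2,[(9,0),(8,0),(3,2)]⟩,⟨1,[(21,0),(5,1),(2,0),
  (0,0)]⟩⟩,⟨true,0,⟨0,[(2,0),(5,0)]⟩,⟨0,[(0,0),(9,0),(11,0)]⟩⟩,⟨false,1,⟨1,[(10,1),(8,0),(2,1),(16,
  0)]⟩,⟨0,[(0,0)]⟩⟩,⟨false,0,⟨0,[]⟩,⟨0,[]⟩⟩,⟨false,0,⟨0,[]⟩,⟨0,[]⟩⟩,[.o ⟨false,0,⟨0,[(10,0)]⟩,⟨3,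
  [(19,0),(0,0),(4,3),(13,1)]⟩⟩,.o ⟨false,1,⟨3,[(10,1),(15,1),(5,0),(6,2)]⟩,⟨0,[(25,0)]⟩⟩,.a ⟨true,
  0,⟨1,[(21,0),(8,0),(0,0)]⟩,⟨0,[(22,0)]⟩⟩ ⟨false,0,⟨0,[]⟩,⟨3,[(19,0),(0,0),(18,1)]⟩⟩ ⟨true,0,⟨0,
  [(10,0),(11,0)]⟩,⟨1,[(21,0),(3,1),(4,0),(0,0)]⟩⟩,.o ⟨false,0,⟨1,[(21,0),(2,0),(2,0)]⟩,⟨1,[(22,1),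
  (9,0),(5,0)]⟩⟩]⟩) (.I [1,0,0,0,0,0,0,0,-1] (.R ⟨0,false,false,false,[0,0,0,1],[1,0,-1],[1,1],(⟨0,
  [(23,0)]⟩,⟨1,[(22,0),(8,0),(0,0)]⟩),(⟨0,[(31,0)]⟩,⟨0,[(32,0)]⟩),⟨1,[(8,0),(5,0),(7,0)]⟩,.k,.k,(.r
  (-1) ⟨1,[(2,0),(2,0),(3,0),(1,0),(0,0),(10,1)]⟩ ⟨0,[(4,0)]⟩),.k,.k,.k,⟨false,0,⟨0,[(9,0),(28,0)]⟩,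
  ⟨0,[(18,0),(17,0)]⟩⟩,⟨true,0,⟨2,[(10,0),(8,0),(3,2)]⟩,⟨1,[(22,0),(5,1),(2,0),(0,0)]⟩⟩,⟨false,0,⟨0,
  [(0,0)]⟩,⟨1,[(21,0),(18,0)]⟩⟩,⟨true,0,⟨0,[(1,0)]⟩,⟨0,[(2,0),(13,0)]⟩⟩,⟨false,0,⟨0,[]⟩,⟨0,[]⟩⟩,
  ⟨false,0,⟨0,[]⟩,⟨0,[]⟩⟩,[.o ⟨false,0,⟨0,[(11,0)]⟩,⟨3,[(20,0),(0,0),(4,3),(13,1)]⟩⟩,.o ⟨false,1,⟨3,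
  [(11,1),(15,1),(5,0),(6,2)]⟩,⟨0,[(26,0)]⟩⟩,.a ⟨true,0,⟨1,[(22,0),(8,0),(0,0)]⟩,⟨0,[(23,0)]⟩⟩
  ⟨false,0,⟨0,[]⟩,⟨3,[(20,0),(0,0),(18,1)]⟩⟩ ⟨true,0,⟨0,[(11,0),(11,0)]⟩,⟨1,[(22,0),(3,1),(4,0),(0,
  0)]⟩⟩,.o ⟨false,0,⟨1,[(22,0),(2,0),(2,0)]⟩,⟨1,[(23,1),(9,0),(5,0)]⟩⟩]⟩) (.R ⟨0,false,false,true,
  [0,0,0,1],[1,-1],[0,1,-1,-1],(⟨0,[(23,0)]⟩,⟨1,[(22,0),(8,0),(0,0)]⟩),(⟨0,[(34,0)]⟩,⟨0,[(35,0)]⟩),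
  ⟨1,[(8,0),(5,0),(7,0)]⟩,.k,.k,(.r (-1) ⟨3,[(0,1),(8,1),(2,1),(8,0),(18,0)]⟩ ⟨0,[(4,0)]⟩),(.r 0 ⟨1,
  [(0,3),(0,1),(5,1),(1,1),(12,0),(11,2),(0,2),(0,1),(1,3)]⟩ ⟨1,[(1,1),(14,1),(5,0),(8,0),(0,0),(6,
  0),(0,0)]⟩),.k,.k,⟨false,1,⟨3,[(20,0),(0,0),(17,1)]⟩,⟨0,[]⟩⟩,⟨true,0,⟨1,[(7,0),(15,1),(1,0)]⟩,⟨1,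
  [(22,0),(8,0),(0,0)]⟩⟩,⟨false,1,⟨1,[(1,1),(14,1),(5,0),(8,0),(0,0),(6,0),(0,0)]⟩,⟨0,[(0,0),(35,0),
  (1,0)]⟩⟩,⟨true,0,⟨0,[(1,0),(14,0)]⟩,⟨0,[(2,0)]⟩⟩,⟨false,0,⟨0,[]⟩,⟨0,[]⟩⟩,⟨false,0,⟨0,[]⟩,⟨0,[]⟩⟩,
  [.o ⟨false,0,⟨0,[(13,0)]⟩,⟨3,[(20,0),(0,0),(16,3),(1,1)]⟩⟩,.o ⟨false,1,⟨1,[(33,0),(3,1),(2,0)]⟩,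
  ⟨0,[(38,0)]⟩⟩,.a ⟨true,0,⟨1,[(22,0),(8,0),(0,0)]⟩,⟨0,[(23,0)]⟩⟩ ⟨false,1,⟨7,[(9,3),(2,3),(7,0),(0,
  0),(18,1)]⟩,⟨0,[(36,0),(1,0)]⟩⟩ ⟨true,0,⟨0,[(13,0),(9,0)]⟩,⟨1,[(22,0),(8,0),(0,0),(5,1)]⟩⟩,.o
  ⟨false,0,⟨1,[(22,0),(2,0),(2,0)]⟩,⟨1,[(23,1),(9,0),(5,0)]⟩⟩]⟩)))) (.I [1,-1,2,2,0,0,0,-1,-1] (.R
  ⟨0,false,false,false,[0,0,0,1],[0,1,-1],[0,1,0,-1,0,0,0,0,1],(⟨0,[(21,0)]⟩,⟨1,[(20,0),(8,0),(0,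
  0)]⟩),(⟨0,[(6,0)]⟩,⟨0,[(30,0),(1,0)]⟩),⟨1,[(6,0),(5,0),(7,0)]⟩,.k,.k,(.r (-1) ⟨7,[(1,3),(8,3),(7,
  0),(0,2)]⟩ ⟨0,[(2,0)]⟩),(.x 0 ⟨0,[(5,0),(24,0),(1,0)]⟩ ⟨3,[(6,1),(10,1),(0,0),(0,0),(9,1),(3,1),
  (3,1)]⟩),.k,.k,⟨true,0,⟨0,[(1,0),(33,0)]⟩,⟨0,[(0,0)]⟩⟩,⟨false,1,⟨1,[(17,0),(3,1),(7,0),(0,0),(6,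
  1)]⟩,⟨1,[(5,0),(14,0),(5,0)]⟩⟩,⟨true,0,⟨0,[(35,0)]⟩,⟨0,[(36,0)]⟩⟩,⟨false,1,⟨3,[(0,1),(8,1),(7,0),
  (0,0),(2,3),(7,2),(0,2),(6,1),(0,0)]⟩,⟨1,[(1,1),(3,0),(14,0),(5,0)]⟩⟩,⟨false,0,⟨0,[]⟩,⟨0,[]⟩⟩,
  ⟨false,0,⟨0,[]⟩,⟨0,[]⟩⟩,[.o ⟨false,0,⟨0,[(9,0),(19,0),(0,0),(5,0)]⟩,⟨1,[(14,1),(16,0),(6,0)]⟩⟩,.o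
  ⟨false,1,⟨0,[(25,0),(10,0),(1,0)]⟩,⟨0,[(5,0),(1,0)]⟩⟩,.a ⟨true,0,⟨1,[(20,0),(8,0),(0,0)]⟩,⟨0,[(21,
  0)]⟩⟩ ⟨false,0,⟨0,[(1,0),(7,0),(16,0),(2,0),(0,0)]⟩,⟨3,[(0,1),(17,0),(9,1),(8,1),(0,0)]⟩⟩ ⟨true,0,
  ⟨0,[(9,0),(11,0),(7,0),(0,0),(5,0)]⟩,⟨1,[(5,0),(1,0),(6,0),(5,0)]⟩⟩,.o ⟨false,0,⟨1,[(20,0),(2,0),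
  (2,0)]⟩,⟨1,[(21,1),(9,0),(5,0)]⟩⟩]⟩) (.R ⟨0,false,false,false,[0,0,0,1],[0,1],[1,0,1,1],(⟨0,[(21,
  0)]⟩,⟨1,[(20,0),(8,0),(0,0)]⟩),(⟨0,[(33,0)]⟩,⟨0,[(32,0)]⟩),⟨1,[(6,0),(5,0),(7,0)]⟩,.k,.k,(.r (-1)
  ⟨11,[(0,3),(9,3),(7,0),(0,4),(18,1)]⟩ ⟨0,[(2,0)]⟩),(.r (-1) ⟨11,[(0,3),(9,3),(7,0),(0,4),(18,1)]⟩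
  ⟨0,[(2,0)]⟩),.k,.k,⟨true,0,⟨0,[]⟩,⟨1,[(26,0),(0,0)]⟩⟩,⟨false,1,⟨0,[(21,0),(15,0)]⟩,⟨1,[(20,0),(2,
  0),(2,0)]⟩⟩,⟨true,0,⟨0,[(2,0)]⟩,⟨0,[(0,0),(8,0),(16,0),(2,0),(0,0),(5,0)]⟩⟩,⟨false,1,⟨1,[(18,0),
  (2,1),(14,1),(1,0)]⟩,⟨1,[(1,1),(7,1),(10,0),(5,1),(2,0),(0,0)]⟩⟩,⟨false,0,⟨0,[]⟩,⟨0,[]⟩⟩,⟨false,0,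
  ⟨0,[]⟩,⟨0,[]⟩⟩,[.o ⟨false,0,⟨0,[(36,0)]⟩,⟨1,[(31,0),(3,1),(2,0)]⟩⟩,.o ⟨false,1,⟨3,[(18,0),(0,0),
  (16,3),(1,1)]⟩,⟨0,[(11,0)]⟩⟩,.a ⟨true,0,⟨1,[(20,0),(8,0),(0,0)]⟩,⟨0,[(21,0)]⟩⟩ ⟨false,0,⟨0,[(34,
  0),(1,0)]⟩,⟨5,[(0,1),(9,1),(7,1),(0,0),(18,0)]⟩⟩ ⟨true,0,⟨0,[(21,0),(14,0)]⟩,⟨1,[(11,0),(8,0),(14,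
  0)]⟩⟩,.o ⟨false,0,⟨1,[(20,0),(2,0),(2,0)]⟩,⟨1,[(21,1),(9,0),(5,0)]⟩⟩]⟩))) (.R ⟨0,false,false,
  false,[0,0,0,1],[1,0,-1],[1,0,0,0,0,0,0,0,1],(⟨0,[(19,0)]⟩,⟨1,[(18,0),(8,0),(0,0)]⟩),(⟨0,[(27,
  0)]⟩,⟨0,[(28,0)]⟩),⟨1,[(4,0),(5,0),(7,0)]⟩,.k,.k,(.x 0 ⟨1,[(3,0),(17,0),(8,1)]⟩ ⟨3,[(16,0),(0,0),
  (13,3),(3,1)]⟩),.k,.k,.k,⟨false,0,⟨0,[(0,0),(25,0),(7,0)]⟩,⟨1,[(7,0),(6,0),(1,0),(7,0),(2,0),(0,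
  0)]⟩⟩,⟨true,0,⟨2,[(6,0),(8,0),(3,2)]⟩,⟨1,[(18,0),(5,1),(2,0),(0,0)]⟩⟩,⟨true,0,⟨0,[]⟩,⟨0,[(38,
  0)]⟩⟩,⟨false,1,⟨1,[(7,1),(8,0),(2,1),(16,0)]⟩,⟨1,[(0,1),(17,0),(5,1),(1,1),(0,0),(0,0),(5,1)]⟩⟩,
  ⟨false,0,⟨0,[]⟩,⟨0,[]⟩⟩,⟨false,0,⟨0,[]⟩,⟨0,[]⟩⟩,[.o ⟨false,0,⟨0,[(7,0)]⟩,⟨3,[(16,0),(0,0),(4,3),
  (13,1)]⟩⟩,.o ⟨false,1,⟨3,[(7,1),(15,1),(5,0),(6,2)]⟩,⟨0,[(22,0)]⟩⟩,.a ⟨true,0,⟨1,[(18,0),(8,0),(0,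
  0)]⟩,⟨0,[(19,0)]⟩⟩ ⟨false,0,⟨0,[(0,0),(31,0),(1,0)]⟩,⟨3,[(16,2),(0,0)]⟩⟩ ⟨true,0,⟨0,[(7,0),(11,
  0)]⟩,⟨1,[(18,0),(3,1),(4,0),(0,0)]⟩⟩,.o ⟨false,0,⟨1,[(18,0),(2,0),(2,0)]⟩,⟨1,[(19,1),(9,0),(5,
  0)]⟩⟩]⟩))) (.R ⟨0,false,false,true,[0,0,0,1],[1,-1,1],[0,1,0,0,0,0,0,0,1],(⟨0,[(17,0)]⟩,⟨1,[(16,
  0),(8,0),(0,0)]⟩),(⟨0,[(26,0),(1,0)]⟩,⟨0,[(2,0)]⟩),⟨1,[(2,0),(5,0),(7,0)]⟩,.k,.k,(.x 0 ⟨1,[(1,0),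
  (17,0),(8,1)]⟩ ⟨3,[(14,0),(0,0),(13,3),(3,1)]⟩),(.r (-1) ⟨1,[(15,0),(5,1),(0,1),(9,1),(1,0)]⟩ ⟨0,
  [(0,0),(2,0),(28,0)]⟩),.k,.k,⟨false,1,⟨1,[(5,0),(6,0),(2,0),(6,0),(2,0),(0,0),(5,1)]⟩,⟨0,[(0,0),
  (2,0),(28,0)]⟩⟩,⟨true,0,⟨0,[(1,0),(15,0)]⟩,⟨1,[(13,0),(2,0),(8,1),(0,1)]⟩⟩,⟨true,0,⟨0,[(36,0)]⟩,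
  ⟨0,[]⟩⟩,⟨false,0,⟨0,[(0,0),(0,0),(1,0),(13,0),(14,0)]⟩,⟨1,[(5,1),(9,0),(0,0),(8,2),(0,2),(5,1),(1,
  0)]⟩⟩,⟨false,0,⟨0,[]⟩,⟨0,[]⟩⟩,⟨false,0,⟨0,[]⟩,⟨0,[]⟩⟩,[.o ⟨false,0,⟨0,[(1,0),(1,0)]⟩,⟨0,[(21,0),
  (10,0),(1,0)]⟩⟩,.o ⟨false,1,⟨1,[(10,1),(16,0),(6,0)]⟩,⟨0,[(5,0),(19,0),(0,0),(5,0)]⟩⟩,.a ⟨true,0,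
  ⟨1,[(16,0),(8,0),(0,0)]⟩,⟨0,[(17,0)]⟩⟩ ⟨false,1,⟨3,[(14,0),(0,2)]⟩,⟨0,[(0,0),(31,0)]⟩⟩ ⟨true,0,⟨0,
  [(1,0),(1,0),(13,0)]⟩,⟨1,[(5,1),(10,0),(8,2),(0,2),(5,1)]⟩⟩,.o ⟨false,0,⟨1,[(16,0),(2,0),(2,0)]⟩,
  ⟨1,[(17,1),(9,0),(5,0)]⟩⟩]⟩))) (.Q [0,0,0,1,0,0,1,1,0,1,-1] (.p false [0,0,1] [1] (⟨0,[(24,0)]⟩,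
  ⟨0,[(23,0)]⟩) .k 1 (⟨0,[]⟩,⟨0,[]⟩) .k .k) (.I [0,1,0,0,0,0,0,-1] (.R ⟨2,true,false,true,[0,1],[1,
  0,-1],[1,0,1],(⟨0,[]⟩,⟨0,[]⟩),(⟨0,[(25,0)]⟩,⟨0,[(26,0)]⟩),⟨0,[]⟩,.k,.k,.k,.k,.k,.k,⟨true,0,⟨0,
  [(24,0),(5,0)]⟩,⟨0,[(0,0)]⟩⟩,⟨false,0,⟨0,[(11,0)]⟩,⟨0,[(1,0),(4,0)]⟩⟩,⟨false,1,⟨0,[(31,0),(2,0)]⟩,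
  ⟨0,[(32,0)]⟩⟩,⟨true,0,⟨0,[(5,0),(25,0)]⟩,⟨0,[(1,0)]⟩⟩,⟨true,0,⟨0,[]⟩,⟨0,[(36,0)]⟩⟩,⟨false,0,⟨0,
  [(5,0)]⟩,⟨0,[(1,0),(29,0),(2,0)]⟩⟩,[]⟩) (.I [0,1,1,1,-1,0,0,1] (.R ⟨2,true,false,false,[0,1],[1,0,
  -1],[0,1,1,1],(⟨0,[]⟩,⟨0,[]⟩),(⟨0,[(26,0)]⟩,⟨0,[(27,0)]⟩),⟨0,[]⟩,.k,.k,.k,.k,.k,.k,⟨true,(-1),⟨0,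
  [(0,0)]⟩,⟨0,[(7,0),(23,0)]⟩⟩,⟨false,0,⟨0,[(12,0)]⟩,⟨0,[(2,0),(4,0)]⟩⟩,⟨true,0,⟨0,[(37,0)]⟩,⟨0,
  []⟩⟩,⟨false,1,⟨2,[(5,0),(1,2),(6,0),(16,2)]⟩,⟨0,[(2,0)]⟩⟩,⟨false,0,⟨0,[(33,0)]⟩,⟨0,[(32,0),(2,
  0)]⟩⟩,⟨true,0,⟨0,[(6,0)]⟩,⟨0,[(2,0),(29,0)]⟩⟩,[]⟩) (.Q [0,0,0,-1,0,0,0,0,-1,-1,0,1] (.p true [0,0,
  0,1] [1] (⟨0,[(18,0)]⟩,⟨1,[(17,0),(8,0),(0,0)]⟩) .k 1 (⟨0,[]⟩,⟨0,[]⟩) .k .k) (.Q [0,0,0,0,0,-1,0,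
  0,0,1,0,-1] (.p false [0,0,0,1] [1] (⟨0,[(19,0)]⟩,⟨1,[(18,0),(8,0),(0,0)]⟩) .k 1 (⟨0,[]⟩,⟨0,[]⟩)
  .k .k) (.I [1,-1,0,0,0,0,0,0,-1] (.R ⟨1,false,false,true,[1,0,0,-1],[1,-1],[0,1,0,0,0,0,0,0,-1],
  (⟨1,[(20,0),(8,0),(0,0)]⟩,⟨0,[(21,0)]⟩),(⟨0,[(32,0)]⟩,⟨0,[(33,0)]⟩),⟨0,[(1,0)]⟩,.k,.k,(.x 0 ⟨2,
  [(8,0),(14,0),(2,1),(5,2)]⟩ ⟨3,[(18,0),(0,0),(13,3),(3,1)]⟩),(.r 0 ⟨1,[(0,1),(4,0),(17,0),(1,0),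
  (0,0),(9,0),(3,0)]⟩ ⟨1,[(3,0),(3,0),(11,0)]⟩),.k,.k,⟨false,0,⟨0,[(0,0),(35,0),(3,0)]⟩,⟨1,[(3,0),
  (3,0),(11,0)]⟩⟩,⟨true,0,⟨1,[(20,0),(2,0),(2,0)]⟩,⟨0,[(21,0)]⟩⟩,⟨true,0,⟨0,[(40,0)]⟩,⟨0,[]⟩⟩,
  ⟨false,1,⟨1,[(11,0),(7,0),(0,0),(14,0),(2,0)]⟩,⟨0,[(0,0),(20,0),(14,0)]⟩⟩,⟨false,0,⟨0,[(36,0)]⟩,
  ⟨0,[(35,0),(2,0)]⟩⟩,⟨false,1,⟨7,[(18,0),(0,4),(0,3),(10,1)]⟩,⟨0,[(0,0),(20,0)]⟩⟩,[.o ⟨false,0,⟨0,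
  [(11,0)]⟩,⟨3,[(18,0),(0,0),(16,3),(1,1)]⟩⟩,.o ⟨false,1,⟨1,[(31,0),(3,1),(2,0)]⟩,⟨0,[(36,0)]⟩⟩,.a
  ⟨true,0,⟨0,[(21,0)]⟩,⟨1,[(20,0),(8,0),(0,0)]⟩⟩ ⟨false,0,⟨0,[(0,0),(39,0)]⟩,⟨1,[(19,0),(18,0)]⟩⟩
  ⟨true,0,⟨1,[(11,0),(8,0),(14,0)]⟩,⟨0,[(21,0),(14,0)]⟩⟩,.o ⟨false,0,⟨2,[(8,0),(12,2),(1,0),(2,1)]⟩,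
  ⟨7,[(18,0),(0,0),(0,3),(10,1),(5,3)]⟩⟩]⟩) (.R ⟨1,false,false,false,[1,0,0,-1],[1,-1],[0,0,0,0,0,0,
  0,0,-1],(⟨1,[(20,0),(8,0),(0,0)]⟩,⟨0,[(21,0)]⟩),(⟨0,[(32,0)]⟩,⟨0,[(33,0)]⟩),⟨0,[(1,0)]⟩,.k,.k,(.r
  (-1) ⟨1,[(3,0),(3,0),(10,0)]⟩ ⟨0,[(0,0),(33,0),(1,0)]⟩),(.r 0 ⟨3,[(2,3),(2,1),(14,1),(4,1),(0,0),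
  (0,0),(6,1),(1,5)]⟩ ⟨1,[(3,0),(3,0),(11,0)]⟩),.k,.k,⟨false,0,⟨1,[(2,1),(17,0),(8,0),(0,0),(5,3)]⟩,
  ⟨1,[(3,0),(3,0),(11,0)]⟩⟩,⟨true,0,⟨1,[(20,0),(2,0),(2,0)]⟩,⟨0,[(21,0)]⟩⟩,⟨false,1,⟨3,[(18,0),(0,
  0),(18,1)]⟩,⟨0,[]⟩⟩,⟨false,1,⟨1,[(3,0),(0,0),(6,0),(7,0),(0,0),(13,0)]⟩,⟨0,[(2,0),(26,0),(0,0),(5,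
  1)]⟩⟩,⟨true,0,⟨0,[(36,0)]⟩,⟨0,[(35,0)]⟩⟩,⟨false,1,⟨3,[(3,0),(0,0),(3,0),(10,1),(0,1),(5,0),(9,0),
  (1,0)]⟩,⟨0,[(2,0),(26,0),(0,0),(5,0)]⟩⟩,[.o ⟨false,1,⟨1,[(31,0),(3,1),(2,0)]⟩,⟨0,[(36,0)]⟩⟩,.o
  ⟨false,1,⟨0,[(11,0),(26,0)]⟩,⟨0,[(36,0),(3,0)]⟩⟩,.a ⟨true,0,⟨0,[(21,0)]⟩,⟨1,[(20,0),(8,0),(0,
  0)]⟩⟩ ⟨true,0,⟨1,[(2,1),(17,0),(8,0),(0,0),(5,1)]⟩,⟨0,[(0,0)]⟩⟩ ⟨false,1,⟨1,[(11,0),(8,0),(14,0),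
  (2,1)]⟩,⟨0,[(21,0),(14,0)]⟩⟩,.o ⟨false,0,⟨2,[(8,0),(12,2),(1,0),(2,1)]⟩,⟨7,[(18,0),(0,0),(0,3),
  (10,1),(5,3)]⟩⟩]⟩)) (.I [1,-1,0,0,0,0,0,0,-1] (.R ⟨0,false,false,false,[1,0,0,-1],[1,0,-1],[1,0,0,
  0,0,0,0,0,-1],(⟨1,[(20,0),(8,0),(0,0)]⟩,⟨0,[(21,0)]⟩),(⟨0,[(29,0)]⟩,⟨0,[(30,0)]⟩),⟨0,[(1,0)]⟩,.k,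
  .k,(.x 0 ⟨2,[(8,0),(14,0),(2,1),(5,2)]⟩ ⟨3,[(18,0),(0,0),(13,3),(3,1)]⟩),.k,.k,.k,⟨false,0,⟨0,[(0,
  0),(6,0),(28,0)]⟩,⟨1,[(3,0),(15,0),(5,0),(0,0),(9,0)]⟩⟩,⟨true,0,⟨1,[(17,0),(2,0)]⟩,⟨0,[(21,0),(4,
  0)]⟩⟩,⟨true,0,⟨0,[]⟩,⟨0,[(40,0)]⟩⟩,⟨false,1,⟨1,[(9,1),(9,0),(0,0),(8,0),(0,0),(7,0)]⟩,⟨0,[(2,0),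
  (2,0)]⟩⟩,⟨false,0,⟨0,[]⟩,⟨0,[]⟩⟩,⟨false,0,⟨0,[]⟩,⟨0,[]⟩⟩,[.o ⟨false,0,⟨0,[(9,0)]⟩,⟨3,[(5,1),(8,1),
  (3,0),(0,0),(11,0),(6,0)]⟩⟩,.o ⟨false,1,⟨3,[(9,1),(15,1),(5,0),(6,2)]⟩,⟨0,[(24,0)]⟩⟩,.a ⟨true,0,
  ⟨0,[(21,0)]⟩,⟨1,[(20,0),(8,0),(0,0)]⟩⟩ ⟨false,0,⟨0,[(0,0)]⟩,⟨3,[(18,0),(0,2)]⟩⟩ ⟨true,0,⟨1,[(9,1),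
  (10,0),(8,0),(0,0)]⟩,⟨0,[(21,0),(2,0)]⟩⟩,.o ⟨false,0,⟨2,[(8,0),(12,2),(1,0),(2,1)]⟩,⟨7,[(18,0),(0,
  0),(0,3),(10,1),(5,3)]⟩⟩]⟩) (.R ⟨0,false,false,false,[1,0,0,-1],[1,-1],[0,1],(⟨1,[(20,0),(8,0),(0,
  0)]⟩,⟨0,[(21,0)]⟩),(⟨0,[(32,0)]⟩,⟨0,[(33,0)]⟩),⟨0,[(1,0)]⟩,.k,.k,(.r (-1) ⟨1,[(3,0),(3,0),(10,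
  0)]⟩ ⟨0,[(0,0),(33,0),(1,0)]⟩),(.r 0 ⟨3,[(2,3),(2,1),(14,1),(4,1),(0,0),(0,0),(6,1),(1,5)]⟩ ⟨1,
  [(3,0),(3,0),(11,0)]⟩),.k,.k,⟨false,0,⟨0,[(36,0),(3,0)]⟩,⟨1,[(3,0),(3,0),(30,0)]⟩⟩,⟨true,0,⟨1,
  [(20,0),(2,0),(2,0)]⟩,⟨0,[(21,0)]⟩⟩,⟨true,0,⟨0,[(0,0)]⟩,⟨1,[(2,1),(17,0),(8,0),(0,0),(5,1)]⟩⟩,
  ⟨false,1,⟨1,[(3,0),(0,0),(6,0),(7,0),(0,0),(13,0)]⟩,⟨0,[(2,0),(26,0),(0,0),(5,1)]⟩⟩,⟨false,0,⟨0,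
  []⟩,⟨0,[]⟩⟩,⟨false,0,⟨0,[]⟩,⟨0,[]⟩⟩,[.o ⟨false,1,⟨1,[(31,0),(3,1),(2,0)]⟩,⟨0,[(36,0)]⟩⟩,.o ⟨false,
  1,⟨0,[(11,0),(26,0)]⟩,⟨0,[(36,0),(3,0)]⟩⟩,.a ⟨true,0,⟨0,[(21,0)]⟩,⟨1,[(20,0),(8,0),(0,0)]⟩⟩ ⟨true,
  0,⟨0,[(40,0)]⟩,⟨0,[]⟩⟩ ⟨false,1,⟨1,[(11,0),(8,0),(14,0),(2,1)]⟩,⟨0,[(21,0),(14,0)]⟩⟩,.o ⟨false,0,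
  ⟨2,[(8,0),(12,2),(1,0),(2,1)]⟩,⟨7,[(18,0),(0,0),(0,3),(10,1),(5,3)]⟩⟩]⟩))) (.I [0,0,0,0,0,0,0,0,
  1] (.Q [0,0,0,0,0,0,0,0,1,0,0,-1] (.p false [0,0,0,1] [] (⟨0,[(20,0)]⟩,⟨1,[(19,0),(8,0),(0,0)]⟩)
  .k 0 (⟨0,[]⟩,⟨0,[]⟩) .k .k) (.I [0,-1,0,1,0,0,0,0,1] (.Q [0,0,0,0,0,1,0,0,0,0,0,-1] (.p false [0,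
  0,0,1] [] (⟨0,[(22,0)]⟩,⟨1,[(21,0),(8,0),(0,0)]⟩) .k 0 (⟨0,[]⟩,⟨0,[]⟩) .k .k) (.R ⟨0,false,false,
  true,[0,0,0,1],[1,-1],[0,1,0,0,0,0,0,0,1],(⟨0,[(23,0)]⟩,⟨1,[(22,0),(8,0),(0,0)]⟩),(⟨0,[(34,0)]⟩,
  ⟨0,[(35,0)]⟩),⟨0,[(0,0)]⟩,.k,.k,(.x 0 ⟨2,[(10,0),(14,0),(2,1),(5,2)]⟩ ⟨3,[(20,0),(0,0),(13,3),(3,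
  1)]⟩),(.r 0 ⟨1,[(1,0),(1,0),(3,0),(17,0),(1,0),(0,0)]⟩ ⟨1,[(5,0),(3,0),(10,0)]⟩),.k,.k,⟨false,0,
  ⟨0,[(1,0),(40,0)]⟩,⟨1,[(5,0),(3,0),(10,0)]⟩⟩,⟨true,0,⟨2,[(10,0),(12,2),(1,0),(2,1)]⟩,⟨1,[(22,0),
  (8,0),(0,0)]⟩⟩,⟨true,0,⟨0,[(42,0)]⟩,⟨0,[]⟩⟩,⟨false,1,⟨1,[(13,1),(6,0),(2,1),(16,0)]⟩,⟨1,[(1,1),
  (20,0),(8,0),(0,0)]⟩⟩,⟨false,0,⟨0,[]⟩,⟨0,[]⟩⟩,⟨false,0,⟨0,[]⟩,⟨0,[]⟩⟩,[.o ⟨false,0,⟨0,[(13,0)]⟩,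
  ⟨3,[(20,0),(0,0),(16,3),(1,1)]⟩⟩,.o ⟨false,1,⟨1,[(33,0),(3,1),(2,0)]⟩,⟨0,[(38,0)]⟩⟩,.a ⟨true,0,⟨1,
  [(22,0),(8,0),(0,0)]⟩,⟨0,[(23,0)]⟩⟩ ⟨false,0,⟨0,[(3,0)]⟩,⟨1,[(20,0),(19,0)]⟩⟩ ⟨true,0,⟨0,[(13,0),
  (9,0)]⟩,⟨1,[(22,0),(8,0),(0,0),(5,1)]⟩⟩,.o ⟨false,0,⟨1,[(22,0),(2,0),(2,0)]⟩,⟨1,[(23,1),(9,0),(5,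
  0)]⟩⟩]⟩) (.Q [0,0,0,-2,0,0,0,0,1,0,0,-1] (.p false [0,0,0,1] [] (⟨0,[(23,0)]⟩,⟨1,[(22,0),(8,0),(0,
  0)]⟩) .k 0 (⟨0,[]⟩,⟨0,[]⟩) .k .k) (.R ⟨1,false,false,true,[1,0,0,-1],[0,-1,1],[1,1,0,-1,0,0,0,0,
  -1],(⟨1,[(23,0),(8,0),(0,0)]⟩,⟨0,[(24,0)]⟩),(⟨0,[(9,0)]⟩,⟨0,[(32,0),(3,0)]⟩),⟨0,[(1,0),(21,0)]⟩,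
  .k,.k,(.r (-1) ⟨1,[(6,0),(3,0),(10,0)]⟩ ⟨1,[(2,0),(1,0),(3,0),(17,0),(1,0),(0,0)]⟩),(.x (-1) ⟨7,
  [(20,3),(0,0),(0,0),(9,7),(1,1),(1,7),(3,3)]⟩ ⟨0,[(9,0),(19,0)]⟩),.k,.k,⟨false,1,⟨1,[(6,0),(14,0),
  (6,0),(0,0),(9,0)]⟩,⟨0,[(2,0),(7,0)]⟩⟩,⟨true,0,⟨1,[(23,0),(5,1),(2,0),(0,0)]⟩,⟨2,[(11,0),(8,0),(3,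
  2)]⟩⟩,⟨true,0,⟨0,[(38,0)]⟩,⟨0,[(39,0)]⟩⟩,⟨false,0,⟨0,[(0,0),(7,0)]⟩,⟨1,[(12,1),(8,0),(2,1),(14,1),
  (1,0)]⟩⟩,⟨false,0,⟨0,[]⟩,⟨3,[(21,0),(0,0),(18,1)]⟩⟩,⟨false,0,⟨1,[(0,0),(2,0),(4,1)]⟩,⟨1,[(12,1),
  (8,0),(2,1),(16,0)]⟩⟩,[.o ⟨false,0,⟨0,[(17,0)]⟩,⟨3,[(12,1),(15,1),(5,0),(4,3),(1,2)]⟩⟩,.o ⟨false,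
  1,⟨3,[(17,3),(3,0),(0,0),(18,1)]⟩,⟨0,[(12,0),(26,0)]⟩⟩,.a ⟨true,0,⟨0,[(24,0)]⟩,⟨1,[(23,0),(8,0),
  (0,0)]⟩⟩ ⟨false,1,⟨1,[(21,0),(16,1),(2,0)]⟩,⟨0,[(2,0)]⟩⟩ ⟨true,0,⟨1,[(17,1),(5,0),(8,0),(0,0)]⟩,
  ⟨0,[(12,0),(11,0),(14,0)]⟩⟩,.o ⟨false,0,⟨2,[(11,0),(12,2),(1,0),(2,1)]⟩,⟨7,[(21,0),(0,0),(0,3),
  (10,1),(5,3)]⟩⟩]⟩) (.Q [0,-1,0,0,0,0,0,0,1,1,0,-1] (.p false [0,0,0,1] [1] (⟨0,[(24,0)]⟩,⟨1,[(23,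
  0),(8,0),(0,0)]⟩) .k 1 (⟨0,[]⟩,⟨0,[]⟩) .k .k) (.R ⟨1,true,false,false,[0,0,0,1],[1,1,-1],[1,1,0,
  -1,0,0,0,0,1],(⟨0,[(25,0)]⟩,⟨1,[(24,0),(8,0),(0,0)]⟩),(⟨0,[(33,0),(3,0)]⟩,⟨0,[(10,0)]⟩),⟨0,[(2,
  0)]⟩,.k,.k,(.r (-1) ⟨1,[(7,0),(3,0),(11,0)]⟩ ⟨1,[(1,1),(13,0),(8,0),(13,1),(0,0)]⟩),(.x 0 ⟨0,[(10,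
  0),(19,0)]⟩ ⟨7,[(21,3),(0,0),(0,0),(9,7),(1,1),(1,7),(3,3)]⟩),(.r (-1) ⟨3,[(5,1),(1,2),(0,1),(2,
  4),(11,0)]⟩ ⟨5,[(1,5),(11,1),(10,2),(2,0),(1,3),(0,6),(7,3)]⟩),.k,⟨true,0,⟨0,[(0,0),(10,0),(3,0),
  (9,0)]⟩,⟨1,[(1,1),(11,1),(10,0),(5,1),(2,0),(0,0),(3,1)]⟩⟩,⟨false,1,⟨2,[(12,0),(8,0),(3,2),(15,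
  2)]⟩,⟨1,[(24,0),(5,1),(2,0),(0,0)]⟩⟩,⟨true,0,⟨0,[(39,0)]⟩,⟨0,[(40,0)]⟩⟩,⟨false,1,⟨0,[(1,0),(5,0),
  (19,0)]⟩,⟨0,[(0,0),(17,0)]⟩⟩,⟨false,0,⟨0,[]⟩,⟨3,[(22,0),(0,0),(18,1)]⟩⟩,⟨true,0,⟨0,[(1,0),(11,
  0)]⟩,⟨0,[(0,0),(17,0),(20,0)]⟩⟩,[]⟩) (.R ⟨2,true,false,true,[0,1],[1,0,0,-1],[1,1,1],(⟨0,[]⟩,⟨0,
  []⟩),(⟨1,[(24,0),(8,0),(0,0)]⟩,⟨0,[(25,0)]⟩),⟨0,[]⟩,.k,.k,.k,(.r 0 ⟨5,[(1,1),(3,5),(0,1),(20,1),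
  (2,2),(0,0)]⟩ ⟨1,[(7,0),(3,0),(10,0)]⟩),.k,.k,⟨false,0,⟨0,[(5,0)]⟩,⟨1,[(22,0),(18,0)]⟩⟩,⟨true,0,
  ⟨2,[(12,0),(12,2),(1,0),(2,1)]⟩,⟨1,[(24,0),(8,0),(0,0)]⟩⟩,⟨true,0,⟨0,[(39,0)]⟩,⟨0,[(40,0)]⟩⟩,
  ⟨false,1,⟨0,[(0,0),(38,0),(2,0)]⟩,⟨1,[(3,1),(20,0),(8,0),(0,0)]⟩⟩,⟨false,0,⟨0,[]⟩,⟨3,[(22,0),(0,
  0),(18,1)]⟩⟩,⟨true,0,⟨0,[(0,0)]⟩,⟨1,[(5,1),(18,0),(8,0),(0,0)]⟩⟩,[]⟩)))) (.Q [0,0,0,0,0,1,0,0,0,0,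
  0,-1] (.p false [0,0,0,1] [] (⟨0,[(22,0)]⟩,⟨1,[(21,0),(8,0),(0,0)]⟩) .k 0 (⟨0,[]⟩,⟨0,[]⟩) .k .k)
  (.R ⟨0,false,false,false,[0,0,0,1],[1,-1],[0,1],(⟨0,[(23,0)]⟩,⟨1,[(22,0),(8,0),(0,0)]⟩),(⟨0,[(34,
  0)]⟩,⟨0,[(35,0)]⟩),⟨0,[(0,0)]⟩,.k,.k,(.r (-1) ⟨1,[(5,0),(3,0),(11,0)]⟩ ⟨0,[(1,0),(34,0),(1,1)]⟩),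
  (.r 0 ⟨1,[(3,0),(0,0),(18,0),(1,0),(2,0),(9,0)]⟩ ⟨1,[(5,0),(3,0),(10,0)]⟩),.k,.k,⟨false,0,⟨0,[(38,
  0),(3,0)]⟩,⟨1,[(5,0),(3,0),(30,0)]⟩⟩,⟨true,0,⟨2,[(10,0),(12,2),(1,0),(2,1)]⟩,⟨1,[(22,0),(8,0),(0,
  0)]⟩⟩,⟨true,0,⟨0,[(1,0),(36,0)]⟩,⟨0,[(3,0)]⟩⟩,⟨false,1,⟨3,[(1,1),(3,1),(0,1),(3,1),(9,0),(2,3),(4,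
  1),(11,0)]⟩,⟨0,[(4,0)]⟩⟩,⟨false,0,⟨0,[]⟩,⟨0,[]⟩⟩,⟨false,0,⟨0,[]⟩,⟨0,[]⟩⟩,[.o ⟨false,1,⟨1,[(33,0),
  (3,1),(2,0)]⟩,⟨0,[(38,0)]⟩⟩,.o ⟨false,1,⟨0,[(13,0),(26,0)]⟩,⟨0,[(38,0),(3,0)]⟩⟩,.a ⟨true,0,⟨1,
  [(22,0),(8,0),(0,0)]⟩,⟨0,[(23,0)]⟩⟩ ⟨true,0,⟨0,[(42,0)]⟩,⟨0,[]⟩⟩ ⟨false,1,⟨0,[(13,0),(9,0),(16,
  0)]⟩,⟨1,[(22,0),(8,0),(0,0),(5,1)]⟩⟩,.o ⟨false,0,⟨1,[(22,0),(2,0),(2,0)]⟩,⟨1,[(23,1),(9,0),(5,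
  0)]⟩⟩]⟩) (.R ⟨1,false,false,false,[0,0,0,1],[1,-1],[0,0,0,0,0,0,0,0,1],(⟨0,[(23,0)]⟩,⟨1,[(22,0),
  (8,0),(0,0)]⟩),(⟨0,[(34,0)]⟩,⟨0,[(35,0)]⟩),⟨0,[(0,0)]⟩,.k,.k,(.r (-1) ⟨1,[(5,0),(3,0),(11,0)]⟩ ⟨0,
  [(1,0),(34,0),(1,1)]⟩),(.r 0 ⟨1,[(3,0),(0,0),(18,0),(1,0),(2,0),(9,0)]⟩ ⟨1,[(5,0),(3,0),(10,0)]⟩),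
  .k,.k,⟨false,0,⟨0,[(3,0),(34,0)]⟩,⟨1,[(5,0),(3,0),(10,0)]⟩⟩,⟨true,0,⟨2,[(10,0),(12,2),(1,0),(2,
  1)]⟩,⟨1,[(22,0),(8,0),(0,0)]⟩⟩,⟨false,1,⟨3,[(20,0),(0,0),(18,1)]⟩,⟨0,[]⟩⟩,⟨false,1,⟨3,[(1,1),(3,
  1),(0,1),(3,1),(9,0),(2,3),(4,1),(11,0)]⟩,⟨0,[(4,0)]⟩⟩,⟨true,0,⟨0,[(38,0)]⟩,⟨0,[(37,0)]⟩⟩,⟨false,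
  1,⟨1,[(5,0),(0,0),(3,0),(9,0),(2,1),(4,0),(9,0)]⟩,⟨1,[(3,1),(18,0),(8,0),(0,0)]⟩⟩,[.o ⟨false,1,⟨1,
  [(33,0),(3,1),(2,0)]⟩,⟨0,[(38,0)]⟩⟩,.o ⟨false,1,⟨0,[(13,0),(26,0)]⟩,⟨0,[(38,0),(3,0)]⟩⟩,.a ⟨true,
  0,⟨1,[(22,0),(8,0),(0,0)]⟩,⟨0,[(23,0)]⟩⟩ ⟨true,0,⟨0,[(3,0)]⟩,⟨0,[(1,0),(36,0)]⟩⟩ ⟨false,1,⟨0,[(13,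
  0),(9,0),(16,0)]⟩,⟨1,[(22,0),(8,0),(0,0),(5,1)]⟩⟩,.o ⟨false,0,⟨1,[(22,0),(2,0),(2,0)]⟩,⟨1,[(23,1),
  (9,0),(5,0)]⟩⟩]⟩))) (.R ⟨0,false,false,true,[1,0,-1],[1,0,0,-1],[1,0,1],(⟨0,[(29,0)]⟩,⟨0,[(30,
  0)]⟩),(⟨1,[(20,0),(8,0),(0,0)]⟩,⟨0,[(21,0)]⟩),⟨0,[(12,0)]⟩,.k,.k,.k,.k,.k,.k,⟨true,0,⟨0,[(1,0),
  (32,0)]⟩,⟨1,[(0,1),(19,0),(1,0),(1,0)]⟩⟩,⟨false,1,⟨0,[(21,0),(4,0),(10,0)]⟩,⟨1,[(17,0),(2,0)]⟩⟩,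
  ⟨false,0,⟨0,[(28,0),(5,0)]⟩,⟨0,[(16,0)]⟩⟩,⟨true,0,⟨0,[(0,0),(23,0)]⟩,⟨1,[(1,1),(7,1),(10,0),(8,0),
  (0,0)]⟩⟩,⟨false,0,⟨0,[]⟩,⟨0,[]⟩⟩,⟨false,0,⟨0,[]⟩,⟨0,[]⟩⟩,[.o ⟨false,0,⟨0,[(0,0),(10,0),(24,0)]⟩,
  ⟨3,[(1,1),(17,0),(0,1),(10,0),(6,1)]⟩⟩,.a ⟨true,0,⟨0,[(0,0)]⟩,⟨1,[(1,1),(18,0),(8,0),(0,0)]⟩⟩
  ⟨true,0,⟨0,[(34,0)]⟩,⟨0,[(40,0)]⟩⟩ ⟨false,1,⟨0,[(0,0),(25,0),(10,0)]⟩,⟨1,[(1,1),(15,0),(2,0)]⟩⟩,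
  .o ⟨false,0,⟨0,[(15,0)]⟩,⟨7,[(5,3),(4,3),(7,0),(0,0),(6,3),(4,1)]⟩⟩,.o ⟨false,0,⟨0,[(23,0)]⟩,⟨0,
  [(26,0),(10,0)]⟩⟩]⟩)) (.Q [0,0,0,0,0,0,0,0,-1,-1,0,1] (.p true [0,0,0,1] [1] (⟨0,[(20,0)]⟩,⟨1,
  [(19,0),(8,0),(0,0)]⟩) .k 1 (⟨0,[]⟩,⟨0,[]⟩) .k .k) (.R ⟨2,true,false,false,[0,1],[1,0,0,-1],[1,1,
  1],(⟨0,[]⟩,⟨0,[]⟩),(⟨1,[(20,0),(8,0),(0,0)]⟩,⟨0,[(21,0)]⟩),⟨0,[]⟩,.k,.k,.k,(.r 0 ⟨2,[(2,2),(5,0),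
  (12,2),(1,0),(2,1)]⟩ ⟨1,[(3,0),(3,0),(10,0)]⟩),.k,.k,⟨false,0,⟨0,[(2,0),(8,0),(9,0)]⟩,⟨1,[(1,1),
  (35,0),(0,0)]⟩⟩,⟨true,0,⟨2,[(8,0),(12,2),(1,0),(2,1)]⟩,⟨1,[(20,0),(8,0),(0,0)]⟩⟩,⟨true,0,⟨0,[(35,
  0)]⟩,⟨0,[(36,0)]⟩⟩,⟨false,1,⟨0,[(0,0),(34,0),(2,0)]⟩,⟨0,[(2,0)]⟩⟩,⟨false,0,⟨0,[]⟩,⟨3,[(18,0),(0,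
  0),(18,1)]⟩⟩,⟨true,0,⟨0,[(0,0)]⟩,⟨0,[(2,0),(32,0)]⟩⟩,[]⟩) (.R ⟨0,false,false,true,[1,0,-1],[1,0,0,
  -1],[1,1,0,0,0,0,0,0,-1],(⟨0,[(29,0)]⟩,⟨0,[(30,0)]⟩),(⟨1,[(20,0),(8,0),(0,0)]⟩,⟨0,[(21,0)]⟩),⟨0,
  [(12,0)]⟩,.k,.k,.k,.k,.k,.k,⟨true,0,⟨0,[]⟩,⟨1,[(26,0),(0,0)]⟩⟩,⟨false,1,⟨0,[(21,0),(4,0),(10,0)]⟩,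
  ⟨1,[(17,0),(2,0)]⟩⟩,⟨false,0,⟨0,[(1,0),(26,0)]⟩,⟨3,[(2,1),(0,1),(5,1),(9,0),(1,1),(4,1),(11,0)]⟩⟩,
  ⟨true,0,⟨0,[(1,0),(19,0),(2,0)]⟩,⟨0,[(0,0),(8,0)]⟩⟩,⟨false,0,⟨0,[]⟩,⟨0,[]⟩⟩,⟨false,0,⟨0,[]⟩,⟨0,
  []⟩⟩,[.o ⟨false,0,⟨0,[(1,0),(9,0),(9,0),(14,0)]⟩,⟨1,[(0,1),(30,0),(6,0)]⟩⟩,.a ⟨true,0,⟨0,[(1,0),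
  (19,0)]⟩,⟨0,[(0,0)]⟩⟩ ⟨true,0,⟨0,[(1,0)]⟩,⟨2,[(0,2),(7,0),(12,2),(1,0),(2,1)]⟩⟩ ⟨false,1,⟨0,[(1,
  0),(19,0),(4,0),(10,0)]⟩,⟨2,[(0,2),(7,0),(8,0)]⟩⟩,.o ⟨false,0,⟨0,[(15,0)]⟩,⟨7,[(5,3),(4,3),(7,0),
  (0,0),(6,3),(4,1)]⟩⟩,.o ⟨false,0,⟨0,[(23,0)]⟩,⟨0,[(26,0),(10,0)]⟩⟩]⟩)))))) (.Q [0,0,0,1,0,0,1,1,0,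
  2,-1] (.p false [-1,1,1] [1] (⟨0,[(7,0)]⟩,⟨0,[(24,0),(2,0)]⟩) .k 1 (⟨0,[]⟩,⟨0,[]⟩) .k .k) (.R ⟨0,
  false,false,true,[1,0,-1],[2,-1,-1],[1,1],(⟨0,[(25,0)]⟩,⟨0,[(26,0)]⟩),(⟨0,[(25,0),(2,0)]⟩,⟨0,[(8,
  0)]⟩),⟨0,[(8,0)]⟩,.k,.k,.k,.k,.k,.k,⟨false,0,⟨0,[(24,0),(7,0)]⟩,⟨0,[(6,0)]⟩⟩,⟨true,0,⟨2,[(4,0),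
  (14,0),(2,1)]⟩,⟨0,[(25,0),(0,0)]⟩⟩,⟨false,0,⟨0,[(24,0)]⟩,⟨0,[(12,0),(17,0)]⟩⟩,⟨true,0,⟨0,[(7,0)]⟩,
  ⟨0,[(0,0),(4,0)]⟩⟩,⟨false,0,⟨0,[]⟩,⟨0,[]⟩⟩,⟨false,0,⟨0,[]⟩,⟨0,[]⟩⟩,[.o ⟨false,0,⟨0,[(5,0),(1,0)]⟩,
  ⟨1,[(0,1),(26,0),(6,0)]⟩⟩,.a ⟨true,0,⟨0,[(1,0)]⟩,⟨0,[(0,0)]⟩⟩ ⟨true,0,⟨0,[]⟩,⟨1,[(22,0),(0,0)]⟩⟩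
  ⟨false,1,⟨0,[(1,0),(20,0),(10,0)]⟩,⟨2,[(0,1),(12,0),(10,0),(7,0)]⟩⟩,.o ⟨false,0,⟨0,[(11,0)]⟩,⟨1,
  [(0,0),(5,0),(15,0),(4,0)]⟩⟩,.o ⟨false,0,⟨0,[(19,0)]⟩,⟨0,[(22,0),(10,0)]⟩⟩]⟩) (.Q [0,0,0,1,0,0,0,
  0,-1,0,0,1] (.p true [0,0,0,1] [] (⟨0,[(17,0)]⟩,⟨1,[(16,0),(8,0),(0,0)]⟩) .k 0 (⟨0,[]⟩,⟨0,[]⟩) .k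
  .k) (.Q [0,1,0,-1,0,0,0,0,1,0,0,-1] (.p false [0,0,0,1] [] (⟨0,[(18,0)]⟩,⟨1,[(17,0),(8,0),(0,
  0)]⟩) .k 0 (⟨0,[]⟩,⟨0,[]⟩) .k .k) (.Q [0,0,0,0,0,0,0,0,-1,0,0,1] (.p true [0,0,0,1] [] (⟨0,[(19,
  0)]⟩,⟨1,[(18,0),(8,0),(0,0)]⟩) .k 0 (⟨0,[]⟩,⟨0,[]⟩) .k .k) (.Q [0,0,0,0,0,1,0,0,0,0,0,-1] (.p
  false [0,0,0,1] [] (⟨0,[(20,0)]⟩,⟨1,[(19,0),(8,0),(0,0)]⟩) .k 0 (⟨0,[]⟩,⟨0,[]⟩) .k .k) (.I [1,-1,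
  1,1,0,0,0,0,-1] (.R ⟨0,false,false,false,[0,0,0,1],[0,1],[1,0,1,1],(⟨0,[(22,0)]⟩,⟨1,[(21,0),(8,0),
  (0,0)]⟩),(⟨0,[(34,0)]⟩,⟨0,[(33,0)]⟩),⟨0,[(1,0)]⟩,.k,.k,(.r (-1) ⟨1,[(3,1),(18,1),(15,0),(0,0)]⟩
  ⟨0,[(0,0),(40,0)]⟩),(.r (-1) ⟨1,[(3,1),(18,1),(15,0),(0,0)]⟩ ⟨0,[(0,0),(40,0)]⟩),.k,.k,⟨true,0,⟨0,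
  []⟩,⟨1,[(27,0),(0,0)]⟩⟩,⟨false,1,⟨0,[(22,0),(15,0)]⟩,⟨1,[(21,0),(2,0),(2,0)]⟩⟩,⟨false,0,⟨0,[(0,
  0)]⟩,⟨1,[(3,1),(18,1),(15,0),(0,0)]⟩⟩,⟨true,0,⟨0,[(4,0)]⟩,⟨0,[(3,0)]⟩⟩,⟨false,0,⟨0,[]⟩,⟨0,[]⟩⟩,
  ⟨false,0,⟨0,[]⟩,⟨0,[]⟩⟩,[.o ⟨false,0,⟨0,[(37,0)]⟩,⟨1,[(32,0),(3,1),(2,0)]⟩⟩,.o ⟨false,1,⟨3,[(19,
  0),(0,0),(16,3),(1,1)]⟩,⟨0,[(12,0)]⟩⟩,.a ⟨true,0,⟨1,[(21,0),(8,0),(0,0)]⟩,⟨0,[(22,0)]⟩⟩ ⟨false,0,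
  ⟨0,[(35,0),(1,0)]⟩,⟨7,[(8,3),(2,3),(7,0),(0,0),(18,1)]⟩⟩ ⟨true,0,⟨0,[(22,0),(14,0)]⟩,⟨1,[(12,0),
  (8,0),(14,0)]⟩⟩,.o ⟨false,0,⟨1,[(21,0),(2,0),(2,0)]⟩,⟨1,[(22,1),(9,0),(5,0)]⟩⟩]⟩) (.R ⟨0,false,
  false,false,[0,0,0,1],[0,1],[0,1,1],(⟨0,[(22,0)]⟩,⟨1,[(21,0),(8,0),(0,0)]⟩),(⟨0,[(34,0)]⟩,⟨0,[(33,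
  0)]⟩),⟨0,[(1,0)]⟩,.k,.k,(.r (-1) ⟨2,[(0,0),(7,0),(2,0),(8,0),(18,0)]⟩ ⟨1,[(4,1),(16,0),(2,0),(2,
  0)]⟩),(.r (-1) ⟨2,[(0,0),(7,0),(2,0),(8,0),(18,0)]⟩ ⟨1,[(4,1),(16,0),(2,0),(2,0)]⟩),.k,.k,⟨true,0,
  ⟨0,[(36,0)]⟩,⟨0,[(35,0),(1,0)]⟩⟩,⟨false,1,⟨0,[(22,0),(15,0)]⟩,⟨1,[(21,0),(2,0),(2,0)]⟩⟩,⟨false,0,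
  ⟨1,[(2,1),(18,0),(2,0),(2,0)]⟩,⟨0,[(0,0),(36,0),(1,0)]⟩⟩,⟨true,0,⟨0,[(4,0)]⟩,⟨0,[(3,0)]⟩⟩,⟨false,
  0,⟨0,[]⟩,⟨0,[]⟩⟩,⟨false,0,⟨0,[]⟩,⟨0,[]⟩⟩,[.o ⟨false,0,⟨0,[(37,0)]⟩,⟨1,[(32,0),(3,1),(2,0)]⟩⟩,.o
  ⟨false,1,⟨3,[(19,0),(0,0),(16,3),(1,1)]⟩,⟨0,[(12,0)]⟩⟩,.a ⟨true,0,⟨1,[(21,0),(8,0),(0,0)]⟩,⟨0,
  [(22,0)]⟩⟩ ⟨false,0,⟨1,[(27,0),(0,0)]⟩,⟨1,[(38,0),(0,0)]⟩⟩ ⟨true,0,⟨0,[(22,0),(14,0)]⟩,⟨1,[(12,0),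
  (8,0),(14,0)]⟩⟩,.o ⟨false,0,⟨1,[(21,0),(2,0),(2,0)]⟩,⟨1,[(22,1),(9,0),(5,0)]⟩⟩]⟩)) (.I [1,0,0,0,0,
  0,0,0,-1] (.Q [0,-1,0,1,0,0,0,0,-2,-1,0,2] (.p true [0,0,0,1] [1,0,0,-1] (⟨0,[(22,0)]⟩,⟨1,[(21,0),
  (8,0),(0,0)]⟩) .k 2 (⟨1,[(21,0),(8,0),(0,0)]⟩,⟨0,[(22,0)]⟩) .k .k) (.R ⟨1,false,false,true,[1,0,0,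
  -1],[1,-1],[0,1,0,0,0,0,0,0,-1],(⟨1,[(22,0),(8,0),(0,0)]⟩,⟨0,[(23,0)]⟩),(⟨0,[(34,0)]⟩,⟨0,[(35,
  0)]⟩),⟨0,[(2,0),(19,0)]⟩,.k,.k,(.r (-1) ⟨3,[(1,1),(7,1),(2,1),(7,0),(19,0)]⟩ ⟨0,[(4,0),(18,0),(12,
  0),(1,1)]⟩),(.r 0 ⟨1,[(5,1),(16,0),(2,0),(2,0)]⟩ ⟨1,[(4,1),(18,1),(15,0),(0,0)]⟩),.k,.k,⟨false,0,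
  ⟨5,[(0,1),(4,1),(16,2),(1,0),(1,0),(11,1)]⟩,⟨1,[(4,1),(18,1),(15,0),(0,0)]⟩⟩,⟨true,0,⟨1,[(22,0),
  (2,0),(2,0)]⟩,⟨0,[(23,0)]⟩⟩,⟨true,0,⟨0,[(42,0)]⟩,⟨0,[]⟩⟩,⟨true,0,⟨0,[(4,0)]⟩,⟨0,[(5,0)]⟩⟩,⟨false,
  0,⟨0,[(38,0)]⟩,⟨0,[(37,0),(2,0)]⟩⟩,⟨true,0,⟨0,[(4,0),(33,0)]⟩,⟨0,[(3,0)]⟩⟩,[.o ⟨false,0,⟨0,[(13,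
  0)]⟩,⟨3,[(20,0),(0,0),(16,3),(1,1)]⟩⟩,.o ⟨false,1,⟨1,[(33,0),(3,1),(2,0)]⟩,⟨0,[(38,0)]⟩⟩,.a ⟨true,
  0,⟨0,[(23,0)]⟩,⟨1,[(22,0),(8,0),(0,0)]⟩⟩ ⟨false,0,⟨1,[(0,0),(1,3),(3,0),(2,0),(12,2),(5,0),(6,3),
  (2,0)]⟩,⟨1,[(21,0),(18,0)]⟩⟩ ⟨true,0,⟨1,[(13,0),(8,0),(14,0)]⟩,⟨0,[(23,0),(14,0)]⟩⟩,.o ⟨false,0,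
  ⟨2,[(10,0),(12,2),(1,0),(2,1)]⟩,⟨7,[(20,0),(0,0),(0,3),(10,1),(5,3)]⟩⟩]⟩) (.Q [0,0,0,0,0,0,0,0,-1,
  -1,0,1] (.p true [0,0,0,1] [1] (⟨0,[(23,0)]⟩,⟨1,[(22,0),(8,0),(0,0)]⟩) .k 1 (⟨0,[]⟩,⟨0,[]⟩) .k
  .k) (.R ⟨1,false,false,true,[1,0,0,-1],[1,-1],[0,1,0,0,0,0,0,0,-1],(⟨1,[(23,0),(8,0),(0,0)]⟩,⟨0,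
  [(24,0)]⟩),(⟨0,[(35,0)]⟩,⟨0,[(36,0)]⟩),⟨0,[(3,0),(19,0)]⟩,.k,.k,(.r (-1) ⟨3,[(2,1),(7,1),(2,1),(7,
  0),(19,0)]⟩ ⟨5,[(1,2),(9,0),(12,5),(1,0),(2,1),(7,2),(1,8)]⟩),(.r 0 ⟨1,[(6,1),(16,0),(2,0),(2,
  0)]⟩ ⟨5,[(1,1),(5,0),(2,0),(2,0),(3,0),(4,0),(1,3),(15,1),(0,1)]⟩),.k,.k,⟨false,0,⟨1,[(0,0),(5,0),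
  (16,0),(15,0)]⟩,⟨5,[(1,1),(5,0),(2,0),(2,0),(3,0),(4,0),(1,3),(15,1),(0,1)]⟩⟩,⟨true,0,⟨1,[(23,0),
  (2,0),(2,0)]⟩,⟨0,[(24,0)]⟩⟩,⟨true,0,⟨0,[(43,0)]⟩,⟨0,[]⟩⟩,⟨true,0,⟨0,[(5,0)]⟩,⟨0,[(6,0)]⟩⟩,⟨false,
  0,⟨0,[(39,0)]⟩,⟨0,[(38,0),(2,0)]⟩⟩,⟨true,0,⟨5,[(1,2),(5,0),(17,0),(1,1),(11,3)]⟩,⟨0,[(4,0)]⟩⟩,[.o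
  ⟨false,0,⟨0,[(14,0)]⟩,⟨3,[(21,0),(0,0),(16,3),(1,1)]⟩⟩,.o ⟨false,1,⟨1,[(34,0),(3,1),(2,0)]⟩,⟨0,
  [(39,0)]⟩⟩,.a ⟨true,0,⟨0,[(24,0)]⟩,⟨1,[(23,0),(8,0),(0,0)]⟩⟩ ⟨false,0,⟨0,[(0,0),(2,0),(19,0),(12,
  0)]⟩,⟨1,[(22,0),(18,0)]⟩⟩ ⟨true,0,⟨1,[(14,0),(8,0),(14,0)]⟩,⟨0,[(24,0),(14,0)]⟩⟩,.o ⟨false,0,⟨2,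
  [(11,0),(12,2),(1,0),(2,1)]⟩,⟨7,[(21,0),(0,0),(0,3),(10,1),(5,3)]⟩⟩]⟩) (.R ⟨0,false,false,true,[1,
  0,-1],[0,0,0,1],[1,1],(⟨0,[(32,0)]⟩,⟨0,[(33,0)]⟩),(⟨0,[(24,0)]⟩,⟨1,[(23,0),(8,0),(0,0)]⟩),⟨0,[(15,
  0)]⟩,.k,.k,.k,.k,.k,.k,⟨true,0,⟨0,[(2,0)]⟩,⟨5,[(1,2),(9,0),(12,5),(1,0),(2,1),(7,2),(1,2)]⟩⟩,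
  ⟨false,1,⟨1,[(23,0),(5,1),(2,0),(0,0),(6,1)]⟩,⟨2,[(11,0),(8,0),(3,2)]⟩⟩,⟨false,0,⟨0,[(31,0)]⟩,⟨0,
  [(19,0),(17,0)]⟩⟩,⟨true,0,⟨0,[(0,0),(26,0)]⟩,⟨0,[(6,0),(1,0)]⟩⟩,⟨false,0,⟨0,[]⟩,⟨0,[]⟩⟩,⟨false,0,
  ⟨0,[]⟩,⟨0,[]⟩⟩,[.o ⟨false,0,⟨5,[(1,2),(5,0),(17,0),(1,1),(11,3)]⟩,⟨1,[(4,1),(29,0),(6,0)]⟩⟩,.a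
  ⟨true,0,⟨0,[(0,0)]⟩,⟨0,[(4,0)]⟩⟩ ⟨true,0,⟨0,[]⟩,⟨1,[(29,0),(0,0)]⟩⟩ ⟨false,1,⟨0,[(0,0),(28,0),(10,
  0)]⟩,⟨2,[(4,2),(6,0),(8,0)]⟩⟩,.o ⟨false,0,⟨0,[(18,0)]⟩,⟨7,[(19,3),(1,0),(0,0),(4,3),(1,3),(11,
  1)]⟩⟩,.o ⟨false,0,⟨0,[(26,0)]⟩,⟨0,[(29,0),(10,0)]⟩⟩]⟩))) (.R ⟨0,false,false,true,[1,0,-1],[1,0,0,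
  -1],[1,0,1],(⟨0,[(30,0)]⟩,⟨0,[(31,0)]⟩),(⟨1,[(21,0),(8,0),(0,0)]⟩,⟨0,[(22,0)]⟩),⟨0,[(13,0)]⟩,.k,
  .k,.k,.k,.k,.k,⟨true,0,⟨0,[(0,0),(34,0)]⟩,⟨1,[(4,1),(7,0),(8,0),(14,0)]⟩⟩,⟨false,1,⟨0,[(22,0),(4,
  0),(10,0)]⟩,⟨1,[(18,0),(2,0)]⟩⟩,⟨false,0,⟨0,[(29,0),(5,0)]⟩,⟨0,[(17,0)]⟩⟩,⟨true,0,⟨0,[(4,0),(10,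
  0)]⟩,⟨1,[(0,1),(9,1),(10,0),(8,0),(0,0)]⟩⟩,⟨false,0,⟨0,[]⟩,⟨0,[]⟩⟩,⟨false,0,⟨0,[]⟩,⟨0,[]⟩⟩,[.o
  ⟨false,0,⟨0,[(4,0),(7,0)]⟩,⟨3,[(0,1),(19,0),(0,1),(10,0),(6,1)]⟩⟩,.a ⟨true,0,⟨0,[(2,0)]⟩,⟨1,[(0,
  1),(20,0),(8,0),(0,0)]⟩⟩ ⟨true,0,⟨0,[(35,0)]⟩,⟨0,[(41,0)]⟩⟩ ⟨false,1,⟨0,[(2,0),(24,0),(10,0)]⟩,⟨1,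
  [(0,1),(17,0),(2,0)]⟩⟩,.o ⟨false,0,⟨0,[(16,0)]⟩,⟨7,[(17,3),(1,0),(0,0),(4,3),(1,3),(11,1)]⟩⟩,.o
  ⟨false,0,⟨0,[(24,0)]⟩,⟨0,[(27,0),(10,0)]⟩⟩]⟩))) (.R ⟨2,true,false,false,[0,1],[0,0,0,1],[1,1,1],
  (⟨0,[]⟩,⟨0,[]⟩),(⟨0,[(20,0)]⟩,⟨1,[(19,0),(8,0),(0,0)]⟩),⟨0,[]⟩,.k,.k,.k,(.r 0 ⟨1,[(2,1),(16,0),(2,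
  0),(2,0)]⟩ ⟨3,[(0,1),(5,1),(2,1),(8,0),(1,1),(16,0)]⟩),.k,.k,⟨false,0,⟨1,[(2,1),(7,0),(8,0),(14,
  0)]⟩,⟨1,[(0,1),(19,1),(15,0),(0,0)]⟩⟩,⟨true,0,⟨1,[(19,0),(2,0),(2,0)]⟩,⟨0,[(20,0)]⟩⟩,⟨true,0,⟨0,
  [(34,0)]⟩,⟨0,[(35,0)]⟩⟩,⟨false,1,⟨0,[(1,0),(35,0)]⟩,⟨0,[(2,0)]⟩⟩,⟨false,0,⟨0,[]⟩,⟨3,[(17,0),(0,0),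
  (18,1)]⟩⟩,⟨true,0,⟨0,[(0,0)]⟩,⟨0,[(2,0),(31,0)]⟩⟩,[]⟩)) (.Q [0,0,0,0,0,1,0,0,0,0,0,-1] (.p false
  [0,0,0,1] [] (⟨0,[(19,0)]⟩,⟨1,[(18,0),(8,0),(0,0)]⟩) .k 0 (⟨0,[]⟩,⟨0,[]⟩) .k .k) (.I [0,1,-1,-1,0,
  0,0,0,-1] (.I [0,0,2,1,-1,0,0,0,-1] (.I [0,0,0,0,0,0,0,-1,-1] (.R ⟨0,false,false,false,[0,0,0,1],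
  [1,0,-1],[1,0,0,0,0,0,0,0,1],(⟨0,[(23,0)]⟩,⟨1,[(22,0),(8,0),(0,0)]⟩),(⟨0,[(31,0)]⟩,⟨0,[(32,0)]⟩),
  ⟨0,[(3,0)]⟩,.k,.k,(.x 0 ⟨2,[(10,0),(14,0),(2,1),(5,2)]⟩ ⟨3,[(20,0),(0,0),(13,3),(3,1)]⟩),.k,.k,.k,
  ⟨false,1,⟨1,[(21,0),(8,1),(8,0)]⟩,⟨0,[(0,0)]⟩⟩,⟨true,0,⟨2,[(10,0),(8,0),(3,2)]⟩,⟨1,[(22,0),(5,1),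
  (2,0),(0,0)]⟩⟩,⟨true,0,⟨0,[]⟩,⟨0,[(42,0)]⟩⟩,⟨false,0,⟨0,[(4,0),(2,0)]⟩,⟨1,[(21,0),(0,0),(3,1),(4,
  0),(0,0),(7,0)]⟩⟩,⟨false,0,⟨0,[]⟩,⟨0,[]⟩⟩,⟨false,0,⟨0,[]⟩,⟨0,[]⟩⟩,[.o ⟨false,0,⟨0,[(11,0)]⟩,⟨3,
  [(20,0),(0,0),(4,3),(13,1)]⟩⟩,.o ⟨false,1,⟨3,[(11,1),(15,1),(5,0),(6,2)]⟩,⟨0,[(26,0)]⟩⟩,.a ⟨true,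
  0,⟨1,[(22,0),(8,0),(0,0)]⟩,⟨0,[(23,0)]⟩⟩ ⟨false,1,⟨1,[(21,0),(18,0)]⟩,⟨17,[(1,3),(0,7),(1,3),(15,
  0),(1,1),(10,0),(6,1)]⟩⟩ ⟨true,0,⟨0,[(11,0),(11,0)]⟩,⟨1,[(22,0),(3,1),(4,0),(0,0)]⟩⟩,.o ⟨false,0,
  ⟨1,[(22,0),(2,0),(2,0)]⟩,⟨1,[(23,1),(9,0),(5,0)]⟩⟩]⟩) (.R ⟨0,false,false,false,[0,0,0,1],[0,1],[1,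
  0,0,0,0,0,0,0,1],(⟨0,[(23,0)]⟩,⟨1,[(22,0),(8,0),(0,0)]⟩),(⟨0,[(35,0)]⟩,⟨0,[(34,0)]⟩),⟨0,[(3,0)]⟩,
  .k,.k,(.x 0 ⟨2,[(10,0),(14,0),(2,1),(5,2)]⟩ ⟨3,[(20,0),(0,0),(13,3),(3,1)]⟩),(.x 0 ⟨2,[(10,0),(14,
  0),(2,1),(5,2)]⟩ ⟨3,[(20,0),(0,0),(13,3),(3,1)]⟩),.k,.k,⟨true,1,⟨0,[(0,0),(11,0)]⟩,⟨0,[(1,0)]⟩⟩,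
  ⟨false,1,⟨0,[(23,0),(15,0)]⟩,⟨1,[(22,0),(2,0),(2,0)]⟩⟩,⟨true,0,⟨0,[]⟩,⟨0,[(42,0)]⟩⟩,⟨false,0,⟨0,
  [(4,0)]⟩,⟨7,[(7,1),(8,1),(4,3),(0,3),(10,0),(3,3),(2,2)]⟩⟩,⟨false,0,⟨0,[]⟩,⟨0,[]⟩⟩,⟨false,0,⟨0,
  []⟩,⟨0,[]⟩⟩,[.o ⟨false,0,⟨0,[(38,0)]⟩,⟨1,[(33,0),(3,1),(2,0)]⟩⟩,.o ⟨false,1,⟨3,[(20,0),(0,0),(16,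
  3),(1,1)]⟩,⟨0,[(13,0)]⟩⟩,.a ⟨true,0,⟨1,[(22,0),(8,0),(0,0)]⟩,⟨0,[(23,0)]⟩⟩ ⟨false,1,⟨1,[(21,0),
  (18,0)]⟩,⟨17,[(1,3),(0,7),(1,3),(15,0),(1,1),(10,0),(6,1)]⟩⟩ ⟨true,0,⟨0,[(23,0),(14,0)]⟩,⟨1,[(13,
  0),(8,0),(14,0)]⟩⟩,.o ⟨false,0,⟨1,[(22,0),(2,0),(2,0)]⟩,⟨1,[(23,1),(9,0),(5,0)]⟩⟩]⟩)) (.I [0,0,-1,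
  -1,0,0,0,0,-1] (.R ⟨0,false,false,true,[0,0,0,1],[1,-1],[1,0,0,0,0,0,0,0,1],(⟨0,[(23,0)]⟩,⟨1,[(22,
  0),(8,0),(0,0)]⟩),(⟨0,[(34,0)]⟩,⟨0,[(35,0)]⟩),⟨0,[(3,0)]⟩,.k,.k,(.r (-1) ⟨3,[(1,1),(19,0),(15,1),
  (2,0)]⟩ ⟨1,[(5,1),(16,0),(2,0),(2,0)]⟩),(.r (-1) ⟨3,[(20,0),(0,2),(6,1),(0,1),(8,3)]⟩ ⟨0,[(0,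
  0)]⟩),.k,.k,⟨false,1,⟨1,[(21,0),(16,1),(1,0)]⟩,⟨0,[(2,0)]⟩⟩,⟨true,0,⟨2,[(10,0),(12,2),(1,0),(2,
  1)]⟩,⟨1,[(22,0),(8,0),(0,0)]⟩⟩,⟨true,0,⟨0,[]⟩,⟨0,[(42,0)]⟩⟩,⟨false,0,⟨2,[(0,1),(3,0),(1,0),(9,0),
  (6,1),(1,0),(2,0)]⟩,⟨0,[(4,0),(16,0),(0,0)]⟩⟩,⟨false,0,⟨0,[]⟩,⟨0,[]⟩⟩,⟨false,0,⟨0,[]⟩,⟨0,[]⟩⟩,[.o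
  ⟨false,0,⟨0,[(13,0)]⟩,⟨3,[(20,0),(0,0),(16,3),(1,1)]⟩⟩,.o ⟨false,1,⟨1,[(33,0),(3,1),(2,0)]⟩,⟨0,
  [(38,0)]⟩⟩,.a ⟨true,0,⟨1,[(22,0),(8,0),(0,0)]⟩,⟨0,[(23,0)]⟩⟩ ⟨false,1,⟨1,[(21,0),(18,0)]⟩,⟨3,[(0,
  1),(4,1),(16,0),(2,0),(2,0)]⟩⟩ ⟨true,0,⟨0,[(13,0),(9,0)]⟩,⟨1,[(22,0),(8,0),(0,0),(5,1)]⟩⟩,.o
  ⟨false,0,⟨1,[(22,0),(2,0),(2,0)]⟩,⟨1,[(1,0),(3,0),(17,0),(9,0)]⟩⟩]⟩) (.R ⟨0,false,false,true,[0,0,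
  0,1],[1,-1],[0,1,-1,-1],(⟨0,[(23,0)]⟩,⟨1,[(22,0),(8,0),(0,0)]⟩),(⟨0,[(34,0)]⟩,⟨0,[(35,0)]⟩),⟨0,
  [(3,0)]⟩,.k,.k,(.r (-1) ⟨3,[(1,1),(19,0),(15,1),(2,0)]⟩ ⟨1,[(5,1),(16,0),(2,0),(2,0)]⟩),(.x (-1)
  ⟨3,[(20,0),(0,0),(13,3),(3,1)]⟩ ⟨2,[(10,0),(14,0),(2,1),(5,2)]⟩),.k,.k,⟨false,1,⟨3,[(20,0),(0,0),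
  (17,1)]⟩,⟨0,[]⟩⟩,⟨true,0,⟨2,[(10,0),(12,2),(1,0),(2,1)]⟩,⟨1,[(22,0),(8,0),(0,0)]⟩⟩,⟨true,0,⟨0,[(2,
  0)]⟩,⟨0,[(0,0)]⟩⟩,⟨false,0,⟨0,[(4,0),(2,0),(8,0)]⟩,⟨0,[(4,0),(16,0),(0,0)]⟩⟩,⟨false,0,⟨0,[]⟩,⟨0,
  []⟩⟩,⟨false,0,⟨0,[]⟩,⟨0,[]⟩⟩,[.o ⟨false,0,⟨0,[(13,0)]⟩,⟨3,[(0,1),(19,0),(17,1),(0,0),(0,1)]⟩⟩,.o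
  ⟨false,1,⟨1,[(33,0),(3,1),(2,0)]⟩,⟨0,[(38,0)]⟩⟩,.a ⟨true,0,⟨1,[(22,0),(8,0),(0,0)]⟩,⟨0,[(23,0)]⟩⟩
  ⟨false,1,⟨3,[(1,1),(18,0),(16,1),(2,0)]⟩,⟨0,[(36,0),(1,0)]⟩⟩ ⟨true,0,⟨0,[(13,0),(9,0)]⟩,⟨1,[(22,
  0),(8,0),(0,0),(5,1)]⟩⟩,.o ⟨false,0,⟨1,[(22,0),(2,0),(2,0)]⟩,⟨1,[(1,0),(3,0),(17,0),(9,0)]⟩⟩]⟩)))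
  (.Q [0,-1,0,0,0,0,0,0,-1,0,0,1] (.p true [0,0,0,1] [] (⟨0,[(21,0)]⟩,⟨1,[(20,0),(8,0),(0,0)]⟩) .k
  0 (⟨0,[]⟩,⟨0,[]⟩) .k .k) (.I [0,0,-1,-1,0,0,0,1,-1] (.R ⟨0,false,false,true,[0,0,0,1],[0,-1,1],[1,
  0,0,0,0,0,0,0,1],(⟨0,[(23,0)]⟩,⟨1,[(22,0),(8,0),(0,0)]⟩),(⟨0,[(8,0)]⟩,⟨0,[(31,0),(3,0)]⟩),⟨0,[(3,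
  0)]⟩,.k,.k,(.r (-1) ⟨0,[(2,0),(6,0),(2,0)]⟩ ⟨1,[(5,1),(16,0),(2,0),(2,0)]⟩),(.r (-1) ⟨11,[(2,7),
  (15,3),(1,2),(0,4),(5,7),(0,7),(9,3)]⟩ ⟨0,[(0,0)]⟩),.k,.k,⟨false,1,⟨0,[(2,0),(15,0)]⟩,⟨0,[(0,0),
  (41,0)]⟩⟩,⟨true,0,⟨0,[(23,0),(4,0)]⟩,⟨1,[(19,0),(2,0)]⟩⟩,⟨true,0,⟨0,[]⟩,⟨0,[(42,0)]⟩⟩,⟨false,0,⟨0,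
  [(1,0),(14,0)]⟩,⟨1,[(2,1),(15,1),(0,0),(2,0)]⟩⟩,⟨false,0,⟨0,[]⟩,⟨0,[]⟩⟩,⟨false,0,⟨0,[]⟩,⟨0,[]⟩⟩,
  [.o ⟨false,0,⟨0,[(16,0)]⟩,⟨9,[(2,3),(8,5),(6,3),(0,1),(0,1),(12,0),(4,5),(1,2)]⟩⟩,.o ⟨false,1,⟨3,
  [(16,3),(3,0),(0,0),(18,1)]⟩,⟨0,[(11,0),(26,0)]⟩⟩,.a ⟨true,0,⟨1,[(22,0),(8,0),(0,0)]⟩,⟨0,[(23,
  0)]⟩⟩ ⟨false,1,⟨1,[(21,0),(18,0)]⟩,⟨2,[(0,0),(4,1),(1,0),(14,0),(5,0)]⟩⟩ ⟨true,0,⟨0,[(16,0),(6,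
  0)]⟩,⟨1,[(11,1),(10,0),(8,0),(0,0),(5,1)]⟩⟩,.o ⟨false,0,⟨1,[(22,0),(2,0),(2,0)]⟩,⟨1,[(23,1),(9,0),
  (5,0)]⟩⟩]⟩) (.K ⟨1,[1,0,0,-1],0,0,(⟨1,[(22,0),(8,0),(0,0)]⟩,⟨0,[(23,0)]⟩),.k,(.r (-1) ⟨15,[(1,3),
  (4,0),(2,6),(2,6),(3,0),(3,5),(1,1),(16,0),(0,1)]⟩ ⟨0,[(2,0),(39,0)]⟩),(.r 0 ⟨1,[(5,1),(16,0),(2,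
  0),(2,0)]⟩ ⟨0,[(2,0),(6,0),(2,0)]⟩),.k,.k,[⟨1,[(22,0),(5,0),(0,0),(1,0),(0,0)]⟩,⟨2,[(10,0),(12,2),
  (1,0),(2,1)]⟩,⟨1,[(0,1),(8,1),(12,0),(8,0),(0,0)]⟩,⟨0,[(1,0)]⟩]⟩)) (.R ⟨2,true,false,true,[0,1],
  [0,0,0,1],[1,1,1],(⟨0,[]⟩,⟨0,[]⟩),(⟨0,[(22,0)]⟩,⟨1,[(21,0),(8,0),(0,0)]⟩),⟨0,[]⟩,.k,.k,.k,(.r 0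
  ⟨1,[(4,1),(16,0),(2,0),(2,0)]⟩ ⟨0,[(1,0),(6,0),(2,0)]⟩),.k,.k,⟨false,0,⟨1,[(3,0),(0,0),(1,0),(8,
  0),(5,0)]⟩,⟨1,[(20,0),(17,0)]⟩⟩,⟨true,0,⟨1,[(21,0),(2,0),(2,0)]⟩,⟨0,[(22,0)]⟩⟩,⟨true,0,⟨0,[(36,
  0)]⟩,⟨0,[(37,0)]⟩⟩,⟨false,1,⟨7,[(6,1),(8,1),(4,3),(0,3),(10,0),(3,3),(2,2)]⟩,⟨0,[(3,0)]⟩⟩,⟨false,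
  0,⟨0,[]⟩,⟨3,[(19,0),(0,0),(18,1)]⟩⟩,⟨true,0,⟨0,[(0,0)]⟩,⟨0,[(3,0),(32,0)]⟩⟩,[]⟩))) (.I [1,1,-1,-1,
  0,0,0,0,-1] (.I [1,0,0,0,0,0,0,-1,-1] (.R ⟨1,false,false,false,[0,0,0,1],[1,0,-1],[0,0,0,0,0,0,0,
  0,1],(⟨0,[(22,0)]⟩,⟨1,[(21,0),(8,0),(0,0)]⟩),(⟨0,[(30,0)]⟩,⟨0,[(31,0)]⟩),⟨0,[(2,0)]⟩,.k,.k,(.x 0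
  ⟨2,[(9,0),(14,0),(2,1),(5,2)]⟩ ⟨3,[(19,0),(0,0),(13,3),(3,1)]⟩),.k,(.r (-1) ⟨1,[(8,1),(11,0),(18,
  0)]⟩ ⟨1,[(0,1),(26,0),(0,0),(8,1)]⟩),.k,⟨false,1,⟨1,[(20,0),(8,1),(8,0)]⟩,⟨0,[(0,0)]⟩⟩,⟨true,0,⟨2,
  [(9,0),(8,0),(3,2)]⟩,⟨1,[(21,0),(5,1),(2,0),(0,0)]⟩⟩,⟨false,1,⟨3,[(19,0),(0,0),(18,1)]⟩,⟨0,[]⟩⟩,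
  ⟨false,0,⟨0,[(3,0),(2,0)]⟩,⟨1,[(20,0),(0,0),(3,1),(4,0),(0,0),(7,0)]⟩⟩,⟨true,0,⟨0,[(37,0)]⟩,⟨0,
  [(36,0)]⟩⟩,⟨false,0,⟨0,[(3,0),(6,0)]⟩,⟨1,[(15,1),(4,0),(0,0),(8,0),(0,0),(7,0)]⟩⟩,[.o ⟨false,0,⟨0,
  [(10,0)]⟩,⟨3,[(19,0),(0,0),(4,3),(13,1)]⟩⟩,.o ⟨false,1,⟨3,[(10,1),(15,1),(5,0),(6,2)]⟩,⟨0,[(25,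
  0)]⟩⟩,.a ⟨true,0,⟨1,[(21,0),(8,0),(0,0)]⟩,⟨0,[(22,0)]⟩⟩ ⟨false,1,⟨1,[(20,0),(18,0)]⟩,⟨3,[(1,1),(1,
  1),(17,0),(2,0),(2,0)]⟩⟩ ⟨true,0,⟨0,[(10,0),(11,0)]⟩,⟨1,[(21,0),(3,1),(4,0),(0,0)]⟩⟩,.o ⟨false,0,
  ⟨1,[(21,0),(2,0),(2,0)]⟩,⟨1,[(22,1),(9,0),(5,0)]⟩⟩]⟩) (.R ⟨1,false,false,true,[0,0,0,1],[1,-1],[0,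
  0,0,0,0,0,0,0,1],(⟨0,[(22,0)]⟩,⟨1,[(21,0),(8,0),(0,0)]⟩),(⟨0,[(33,0)]⟩,⟨0,[(34,0)]⟩),⟨0,[(2,0)]⟩,
  .k,.k,(.x 0 ⟨2,[(9,0),(14,0),(2,1),(5,2)]⟩ ⟨3,[(19,0),(0,0),(13,3),(3,1)]⟩),(.x (-1) ⟨3,[(19,0),
  (0,0),(13,3),(3,1)]⟩ ⟨2,[(9,0),(14,0),(2,1),(5,2)]⟩),.k,.k,⟨false,1,⟨1,[(20,0),(16,1),(1,0)]⟩,⟨0,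
  [(1,0)]⟩⟩,⟨true,0,⟨2,[(9,0),(12,2),(1,0),(2,1)]⟩,⟨1,[(21,0),(8,0),(0,0)]⟩⟩,⟨false,1,⟨3,[(19,0),(0,
  0),(18,1)]⟩,⟨0,[]⟩⟩,⟨false,0,⟨0,[(3,0),(2,0),(8,0)]⟩,⟨0,[(3,0),(16,0),(0,0)]⟩⟩,⟨true,0,⟨0,[(37,
  0)]⟩,⟨0,[(36,0)]⟩⟩,⟨false,0,⟨1,[(3,0),(0,0),(0,0),(9,0)]⟩,⟨1,[(20,0),(0,0),(8,0),(0,0),(7,0)]⟩⟩,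
  [.o ⟨false,0,⟨0,[(12,0)]⟩,⟨3,[(19,0),(0,0),(16,3),(1,1)]⟩⟩,.o ⟨false,1,⟨1,[(32,0),(3,1),(2,0)]⟩,
  ⟨0,[(37,0)]⟩⟩,.a ⟨true,0,⟨1,[(21,0),(8,0),(0,0)]⟩,⟨0,[(22,0)]⟩⟩ ⟨false,1,⟨1,[(20,0),(18,0)]⟩,⟨3,
  [(1,1),(1,1),(17,0),(2,0),(2,0)]⟩⟩ ⟨true,0,⟨0,[(12,0),(9,0)]⟩,⟨1,[(21,0),(8,0),(0,0),(5,1)]⟩⟩,.o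
  ⟨false,0,⟨1,[(21,0),(2,0),(2,0)]⟩,⟨1,[(22,1),(9,0),(5,0)]⟩⟩]⟩)) (.Q [0,-1,0,0,0,0,0,0,-1,0,0,1]
  (.p true [0,0,0,1] [] (⟨0,[(21,0)]⟩,⟨1,[(20,0),(8,0),(0,0)]⟩) .k 0 (⟨0,[]⟩,⟨0,[]⟩) .k .k) (.R ⟨1,
  false,false,true,[1,0,0,-1],[1,-1],[0,1,0,0,0,0,0,0,-1],(⟨1,[(21,0),(8,0),(0,0)]⟩,⟨0,[(22,0)]⟩),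
  (⟨0,[(33,0)]⟩,⟨0,[(34,0)]⟩),⟨0,[(2,0),(18,0)]⟩,.k,.k,(.r (-1) ⟨15,[(0,3),(4,0),(2,6),(2,6),(3,0),
  (3,5),(1,1),(16,0),(0,1)]⟩ ⟨0,[(1,0),(39,0)]⟩),(.r 0 ⟨1,[(4,1),(16,0),(2,0),(2,0)]⟩ ⟨0,[(1,0),(6,
  0),(2,0)]⟩),.k,.k,⟨false,0,⟨3,[(3,0),(0,2),(0,0),(15,1),(3,0),(11,0)]⟩,⟨0,[(1,0),(6,0),(2,0)]⟩⟩,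
  ⟨true,0,⟨1,[(21,0),(2,0),(2,0)]⟩,⟨0,[(22,0)]⟩⟩,⟨true,0,⟨0,[(41,0)]⟩,⟨0,[]⟩⟩,⟨false,1,⟨7,[(6,1),(8,
  1),(4,3),(0,3),(10,0),(3,3),(2,2)]⟩,⟨0,[(3,0)]⟩⟩,⟨false,0,⟨0,[(37,0)]⟩,⟨0,[(36,0),(2,0)]⟩⟩,⟨false,
  1,⟨7,[(19,0),(0,4),(0,3),(10,1)]⟩,⟨0,[(0,0)]⟩⟩,[.o ⟨false,0,⟨0,[(12,0)]⟩,⟨1,[(1,1),(17,0),(18,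
  0)]⟩⟩,.o ⟨false,1,⟨1,[(32,0),(3,1),(2,0)]⟩,⟨0,[(37,0)]⟩⟩,.a ⟨true,0,⟨0,[(22,0)]⟩,⟨1,[(21,0),(8,0),
  (0,0)]⟩⟩ ⟨false,0,⟨1,[(0,0),(3,0),(7,0),(8,0)]⟩,⟨1,[(20,0),(18,0)]⟩⟩ ⟨true,0,⟨1,[(12,0),(8,0),(14,
  0)]⟩,⟨0,[(22,0),(14,0)]⟩⟩,.o ⟨false,0,⟨2,[(9,0),(12,2),(1,0),(2,1)]⟩,⟨7,[(19,0),(0,0),(0,3),(10,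
  1),(5,3)]⟩⟩]⟩) (.R ⟨2,true,false,true,[0,1],[0,0,0,1],[1,1,1],(⟨0,[]⟩,⟨0,[]⟩),(⟨0,[(22,0)]⟩,⟨1,
  [(21,0),(8,0),(0,0)]⟩),⟨0,[]⟩,.k,.k,.k,(.r 0 ⟨1,[(4,1),(16,0),(2,0),(2,0)]⟩ ⟨0,[(1,0),(6,0),(2,
  0)]⟩),.k,.k,⟨false,0,⟨1,[(3,0),(0,0),(1,0),(8,0),(5,0)]⟩,⟨1,[(20,0),(17,0)]⟩⟩,⟨true,0,⟨1,[(21,0),
  (2,0),(2,0)]⟩,⟨0,[(22,0)]⟩⟩,⟨true,0,⟨0,[(36,0)]⟩,⟨0,[(37,0)]⟩⟩,⟨false,1,⟨7,[(6,1),(8,1),(4,3),(0,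
  3),(10,0),(3,3),(2,2)]⟩,⟨0,[(3,0)]⟩⟩,⟨false,0,⟨0,[]⟩,⟨3,[(19,0),(0,0),(18,1)]⟩⟩,⟨true,0,⟨0,[(0,
  0)]⟩,⟨0,[(3,0),(32,0)]⟩⟩,[]⟩))))) (.I [0,1,0,0,0,0,0,0,-1] (.Q [0,0,0,0,0,-1,0,0,0,1,0,-1] (.p
  false [0,0,0,1] [1] (⟨0,[(19,0)]⟩,⟨1,[(18,0),(8,0),(0,0)]⟩) .k 1 (⟨0,[]⟩,⟨0,[]⟩) .k .k) (.I [0,-1,
  -2,-1,2,0,0,-1,-1] (.R ⟨1,false,false,false,[1,0,0,-1],[1,-1],[0,1,0,0,0,0,0,0,-1],(⟨1,[(20,0),(8,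
  0),(0,0)]⟩,⟨0,[(21,0)]⟩),(⟨0,[(32,0)]⟩,⟨0,[(33,0)]⟩),⟨0,[(1,0)]⟩,.k,.k,(.r (-1) ⟨1,[(0,0),(1,0),
  (4,0),(26,0)]⟩ ⟨1,[(3,1),(17,1),(4,0),(0,0),(8,3)]⟩),(.r 0 ⟨0,[(2,0),(31,0),(1,0)]⟩ ⟨7,[(0,1),(2,
  3),(3,1),(11,2),(1,3),(15,0)]⟩),.k,.k,⟨false,0,⟨0,[(2,0),(33,0)]⟩,⟨1,[(3,1),(17,1),(15,0),(0,
  0)]⟩⟩,⟨true,0,⟨1,[(20,0),(2,0),(2,0)]⟩,⟨0,[(21,0)]⟩⟩,⟨true,0,⟨0,[(40,0)]⟩,⟨0,[]⟩⟩,⟨true,0,⟨0,[(3,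
  0)]⟩,⟨0,[(2,0),(18,0),(14,0)]⟩⟩,⟨false,0,⟨0,[(36,0)]⟩,⟨0,[(35,0),(2,0)]⟩⟩,⟨true,0,⟨0,[(3,0),(32,
  0)]⟩,⟨0,[(2,0),(18,0)]⟩⟩,[.o ⟨false,1,⟨1,[(31,0),(3,1),(2,0)]⟩,⟨0,[(36,0)]⟩⟩,.o ⟨false,1,⟨3,[(5,
  1),(8,1),(16,0),(6,2)]⟩,⟨0,[(36,0),(3,0)]⟩⟩,.a ⟨true,0,⟨0,[(21,0)]⟩,⟨1,[(20,0),(8,0),(0,0)]⟩⟩
  ⟨true,0,⟨0,[(2,0)]⟩,⟨0,[(3,0),(17,0),(14,0)]⟩⟩ ⟨false,1,⟨1,[(3,1),(14,0),(19,0)]⟩,⟨0,[(21,0),(14,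
  0)]⟩⟩,.o ⟨false,0,⟨2,[(8,0),(12,2),(1,0),(2,1)]⟩,⟨7,[(18,0),(0,0),(0,3),(10,1),(5,3)]⟩⟩]⟩) (.R ⟨1,
  false,false,false,[1,0,0,-1],[1,-1],[0,1,0,0,0,0,0,0,-1],(⟨1,[(20,0),(8,0),(0,0)]⟩,⟨0,[(21,0)]⟩),
  (⟨0,[(32,0)]⟩,⟨0,[(33,0)]⟩),⟨0,[(1,0)]⟩,.k,.k,(.x 0 ⟨2,[(8,0),(14,0),(2,1),(5,2)]⟩ ⟨3,[(18,0),(0,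
  0),(13,3),(3,1)]⟩),(.r 0 ⟨0,[(2,0),(31,0),(1,0)]⟩ ⟨5,[(3,1),(3,1),(2,1),(8,1),(1,1),(15,0),(0,
  0)]⟩),.k,.k,⟨false,0,⟨0,[(2,0),(33,0)]⟩,⟨1,[(3,1),(17,1),(15,0),(0,0)]⟩⟩,⟨true,0,⟨1,[(20,0),(2,0),
  (2,0)]⟩,⟨0,[(21,0)]⟩⟩,⟨true,0,⟨0,[(40,0)]⟩,⟨0,[]⟩⟩,⟨true,0,⟨0,[(3,0)]⟩,⟨0,[(2,0),(18,0),(14,0)]⟩⟩,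
  ⟨false,0,⟨0,[(36,0)]⟩,⟨0,[(35,0),(2,0)]⟩⟩,⟨true,0,⟨0,[(3,0),(32,0)]⟩,⟨0,[(2,0),(18,0)]⟩⟩,[.o
  ⟨false,1,⟨1,[(31,0),(3,1),(2,0)]⟩,⟨0,[(36,0)]⟩⟩,.o ⟨false,1,⟨3,[(5,1),(8,1),(16,0),(6,2)]⟩,⟨0,
  [(36,0),(3,0)]⟩⟩,.a ⟨true,0,⟨0,[(21,0)]⟩,⟨1,[(20,0),(8,0),(0,0)]⟩⟩ ⟨true,0,⟨0,[(2,0)]⟩,⟨3,[(0,1),
  (2,1),(12,1),(4,1),(15,0),(0,0)]⟩⟩ ⟨false,1,⟨1,[(3,1),(14,0),(19,0)]⟩,⟨0,[(21,0),(14,0)]⟩⟩,.o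
  ⟨false,0,⟨2,[(8,0),(12,2),(1,0),(2,1)]⟩,⟨7,[(18,0),(0,0),(0,3),(10,1),(5,3)]⟩⟩]⟩)) (.I [1,-1,-1,
  -1,1] (.R ⟨0,false,false,false,[1,0,0,-1],[1,-1],[0,1],(⟨1,[(20,0),(8,0),(0,0)]⟩,⟨0,[(21,0)]⟩),
  (⟨0,[(32,0)]⟩,⟨0,[(33,0)]⟩),⟨0,[(1,0)]⟩,.k,.k,(.r (-1) ⟨0,[(0,0),(1,0)]⟩ ⟨1,[(3,1),(17,1),(4,0),
  (0,0),(8,3)]⟩),(.r 0 ⟨0,[(2,0),(31,0),(1,0)]⟩ ⟨7,[(0,1),(2,1),(3,1),(2,1),(8,2),(1,1),(15,0)]⟩),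
  .k,.k,⟨false,0,⟨0,[(36,0),(3,0)]⟩,⟨0,[(0,0)]⟩⟩,⟨true,0,⟨1,[(20,0),(2,0),(2,0)]⟩,⟨0,[(21,0)]⟩⟩,
  ⟨false,0,⟨0,[(3,0),(17,0),(14,0)]⟩,⟨1,[(18,0),(19,0)]⟩⟩,⟨true,0,⟨0,[(3,0)]⟩,⟨0,[(2,0),(18,0),(14,
  0)]⟩⟩,⟨false,0,⟨0,[]⟩,⟨0,[]⟩⟩,⟨false,0,⟨0,[]⟩,⟨0,[]⟩⟩,[.o ⟨false,1,⟨1,[(31,0),(3,1),(2,0)]⟩,⟨0,
  [(36,0)]⟩⟩,.o ⟨false,1,⟨3,[(5,1),(8,1),(16,0),(6,2)]⟩,⟨0,[(36,0),(3,0)]⟩⟩,.a ⟨true,0,⟨0,[(21,0)]⟩,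
  ⟨1,[(20,0),(8,0),(0,0)]⟩⟩ ⟨true,0,⟨0,[(40,0)]⟩,⟨0,[]⟩⟩ ⟨false,1,⟨1,[(3,1),(14,0),(19,0)]⟩,⟨0,[(21,
  0),(14,0)]⟩⟩,.o ⟨false,0,⟨2,[(8,0),(12,2),(1,0),(2,1)]⟩,⟨7,[(18,0),(0,0),(0,3),(10,1),(5,3)]⟩⟩]⟩)
  (.R ⟨0,false,false,true,[0,0,0,1],[0,1],[1,1,1,1],(⟨0,[(21,0)]⟩,⟨1,[(20,0),(8,0),(0,0)]⟩),(⟨0,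
  [(33,0)]⟩,⟨0,[(32,0)]⟩),⟨0,[(1,0),(18,0)]⟩,.k,.k,(.r (-1) ⟨5,[(3,1),(3,1),(2,1),(8,1),(1,1),(15,
  0),(0,0)]⟩ ⟨1,[(0,1),(17,0),(19,0)]⟩),(.r (-1) ⟨5,[(3,1),(3,1),(2,1),(8,1),(1,1),(15,0),(0,0)]⟩
  ⟨1,[(0,1),(17,0),(19,0)]⟩),.k,.k,⟨true,0,⟨0,[]⟩,⟨1,[(26,0),(0,0)]⟩⟩,⟨false,1,⟨0,[(21,0),(15,0)]⟩,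
  ⟨1,[(20,0),(2,0),(2,0)]⟩⟩,⟨false,0,⟨1,[(0,1),(17,0),(19,0)]⟩,⟨1,[(3,1),(17,1),(15,0),(0,0)]⟩⟩,
  ⟨true,0,⟨1,[(0,1),(17,0),(2,1),(15,0)]⟩,⟨0,[(3,0)]⟩⟩,⟨false,0,⟨0,[]⟩,⟨0,[]⟩⟩,⟨false,0,⟨0,[]⟩,⟨0,
  []⟩⟩,[.o ⟨false,0,⟨0,[(36,0),(3,0)]⟩,⟨3,[(5,1),(8,1),(16,0),(6,2)]⟩⟩,.o ⟨false,0,⟨0,[(36,0)]⟩,⟨1,
  [(31,0),(3,1),(2,0)]⟩⟩,.a ⟨true,0,⟨1,[(20,0),(8,0),(0,0)]⟩,⟨0,[(21,0)]⟩⟩ ⟨true,(-1),⟨0,[(0,0)]⟩,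
  ⟨7,[(7,3),(2,3),(7,0),(0,0),(18,1)]⟩⟩ ⟨false,0,⟨0,[(21,0),(14,0)]⟩,⟨1,[(3,1),(14,0),(19,0)]⟩⟩,.o
  ⟨false,0,⟨1,[(20,0),(2,0),(2,0)]⟩,⟨1,[(21,1),(9,0),(5,0)]⟩⟩]⟩))) (.Q [0,0,0,0,0,1,0,0,0,0,0,-1]
  (.p false [0,0,0,1] [] (⟨0,[(19,0)]⟩,⟨1,[(18,0),(8,0),(0,0)]⟩) .k 0 (⟨0,[]⟩,⟨0,[]⟩) .k .k) (.R ⟨0,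
  false,false,false,[0,0,0,1],[1,0,-1],[1,0,0,0,0,0,0,0,1],(⟨0,[(20,0)]⟩,⟨1,[(19,0),(8,0),(0,0)]⟩),
  (⟨0,[(28,0)]⟩,⟨0,[(29,0)]⟩),⟨0,[(0,0)]⟩,.k,.k,(.x 0 ⟨2,[(7,0),(14,0),(2,1),(5,2)]⟩ ⟨3,[(17,0),(0,
  0),(13,3),(3,1)]⟩),.k,.k,.k,⟨false,0,⟨0,[(1,0),(4,0),(28,0)]⟩,⟨1,[(8,0),(6,0),(1,0),(7,0),(2,0),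
  (0,0)]⟩⟩,⟨true,0,⟨2,[(7,0),(8,0),(3,2)]⟩,⟨1,[(19,0),(5,1),(2,0),(0,0)]⟩⟩,⟨true,0,⟨0,[]⟩,⟨0,[(39,
  0)]⟩⟩,⟨false,1,⟨1,[(8,1),(8,0),(2,1),(16,0)]⟩,⟨1,[(1,1),(17,0),(3,1),(4,0),(0,0)]⟩⟩,⟨false,0,⟨0,
  []⟩,⟨0,[]⟩⟩,⟨false,0,⟨0,[]⟩,⟨0,[]⟩⟩,[.o ⟨false,0,⟨0,[(8,0)]⟩,⟨3,[(17,0),(0,0),(4,3),(13,1)]⟩⟩,.o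
  ⟨false,1,⟨3,[(8,1),(15,1),(5,0),(6,2)]⟩,⟨0,[(23,0)]⟩⟩,.a ⟨true,0,⟨1,[(19,0),(8,0),(0,0)]⟩,⟨0,[(20,
  0)]⟩⟩ ⟨false,0,⟨0,[(1,0)]⟩,⟨3,[(17,2),(0,0)]⟩⟩ ⟨true,0,⟨0,[(8,0),(11,0)]⟩,⟨1,[(19,0),(3,1),(4,0),
  (0,0)]⟩⟩,.o ⟨false,0,⟨1,[(19,0),(2,0),(2,0)]⟩,⟨1,[(20,1),(9,0),(5,0)]⟩⟩]⟩) (.R ⟨1,false,false,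
  true,[1,0,0,-1],[0,-1,1],[0,1,0,0,0,0,0,0,-1],(⟨1,[(19,0),(8,0),(0,0)]⟩,⟨0,[(20,0)]⟩),(⟨0,[(5,
  0)]⟩,⟨0,[(28,0),(3,0)]⟩),⟨0,[(0,0),(18,0)]⟩,.k,.k,(.x 0 ⟨2,[(7,0),(14,0),(2,1),(5,2)]⟩ ⟨3,[(17,0),
  (0,0),(13,3),(3,1)]⟩),(.r (-1) ⟨1,[(17,0),(6,1),(0,1),(9,1),(1,0)]⟩ ⟨0,[(1,0),(4,0)]⟩),.k,.k,
  ⟨false,1,⟨1,[(8,0),(6,0),(1,0),(7,0),(2,0),(0,0),(5,1)]⟩,⟨0,[(1,0),(4,0)]⟩⟩,⟨true,0,⟨1,[(19,0),(5,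
  1),(2,0),(0,0)]⟩,⟨2,[(7,0),(8,0),(3,2)]⟩⟩,⟨true,0,⟨0,[(39,0)]⟩,⟨0,[]⟩⟩,⟨false,0,⟨1,[(1,1),(11,1),
  (5,0),(8,0),(0,0)]⟩,⟨1,[(8,1),(8,0),(2,1),(14,1),(1,0)]⟩⟩,⟨false,0,⟨0,[(35,0)]⟩,⟨0,[(34,0),(2,
  0)]⟩⟩,⟨false,0,⟨1,[(1,1),(17,0),(3,1),(4,0),(0,0)]⟩,⟨1,[(8,1),(8,0),(2,1),(16,0)]⟩⟩,[.o ⟨false,0,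
  ⟨0,[(13,0)]⟩,⟨3,[(8,1),(15,1),(5,0),(4,3),(1,2)]⟩⟩,.o ⟨false,1,⟨3,[(13,3),(3,0),(0,0),(18,1)]⟩,⟨0,
  [(8,0),(26,0)]⟩⟩,.a ⟨true,0,⟨0,[(20,0)]⟩,⟨1,[(19,0),(8,0),(0,0)]⟩⟩ ⟨false,1,⟨3,[(17,2),(0,0)]⟩,⟨0,
  [(1,0)]⟩⟩ ⟨true,0,⟨1,[(13,1),(5,0),(8,0),(0,0)]⟩,⟨0,[(8,0),(11,0),(14,0)]⟩⟩,.o ⟨false,0,⟨2,[(7,0),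
  (12,2),(1,0),(2,1)]⟩,⟨7,[(17,0),(0,0),(0,3),(10,1),(5,3)]⟩⟩]⟩)))))))

theorem ok6 : chk (cU (-1) false 2) t6 r9 = true := by decide +kernel

noncomputable def t16 : Tre :=
  (.R ⟨2,false,false,false,[0,1],[1,1,-1],[1,1,1],(⟨0,[]⟩,⟨0,[]⟩),(⟨0,[(28,0),(3,0)]⟩,⟨0,[(8,0)]⟩),
  ⟨0,[]⟩,.k,.k,.k,.k,.k,.k,⟨false,0,⟨0,[(0,0)]⟩,⟨1,[(9,0),(5,0),(9,0),(9,1),(1,0)]⟩⟩,⟨true,0,⟨0,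
  [(14,0)]⟩,⟨0,[(25,0),(2,0),(0,0)]⟩⟩,⟨true,0,⟨0,[(34,0)]⟩,⟨0,[(35,0)]⟩⟩,⟨false,1,⟨1,[(9,1),(20,0),
  (6,0)]⟩,⟨0,[(1,0),(33,0)]⟩⟩,⟨false,0,⟨0,[]⟩,⟨3,[(17,0),(0,0),(18,1)]⟩⟩,⟨false,1,⟨1,[(9,1),(20,0),
  (4,1),(1,0)]⟩,⟨0,[(1,0)]⟩⟩,[.a ⟨true,0,⟨0,[(9,0),(25,0)]⟩,⟨0,[(1,0)]⟩⟩ ⟨false,0,⟨0,[(39,0)]⟩,⟨1,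
  [(36,0),(0,0)]⟩⟩ ⟨true,0,⟨0,[(21,0),(11,0),(1,0)]⟩,⟨0,[(1,0)]⟩⟩,.o ⟨false,1,⟨1,[(9,1),(20,0),(4,
  1),(1,0)]⟩,⟨0,[(13,0)]⟩⟩,.o ⟨false,1,⟨3,[(17,0),(0,0),(17,1)]⟩,⟨0,[(14,0),(10,0)]⟩⟩,.e ⟨false,0,
  ⟨0,[]⟩,⟨3,[(17,0),(0,0),(18,1)]⟩⟩ ⟨false,1,⟨1,[(9,1),(20,0),(4,1),(1,0)]⟩,⟨0,[(1,0)]⟩⟩]⟩)

theorem ok16 : chk (cU (-1) false 2) t16 l20 = true := by decide +kernel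

noncomputable def t18 : Tre :=
  (.R ⟨1,false,false,true,[1,-1],[0,0,1],[1,0,-1,-2],(⟨0,[(34,0)]⟩,⟨0,[(35,0)]⟩),(⟨0,[(32,0)]⟩,⟨0,
  [(31,0)]⟩),⟨0,[(11,0),(2,0)]⟩,.k,.k,(.x 0 ⟨11,[(2,7),(8,11),(2,11),(5,2),(0,2),(6,7),(4,1)]⟩ ⟨0,
  [(35,1),(3,0)]⟩),.k,(.r (-2) ⟨5,[(13,1),(1,7),(4,0),(0,0)]⟩ ⟨0,[(0,0),(35,0)]⟩),.k,⟨false,2,⟨3,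
  [(5,0),(1,0),(7,4),(24,0)]⟩,⟨0,[(0,0)]⟩⟩,⟨true,1,⟨0,[(4,0),(13,0),(19,0)]⟩,⟨0,[(2,0)]⟩⟩,⟨false,1,
  ⟨7,[(5,3),(14,0),(0,0),(6,1),(0,1),(10,1)]⟩,⟨0,[(38,0)]⟩⟩,⟨false,0,⟨0,[(4,0),(33,1)]⟩,⟨0,[(10,0),
  (29,0)]⟩⟩,⟨true,0,⟨0,[]⟩,⟨0,[(42,0)]⟩⟩,⟨false,0,⟨0,[(4,0),(33,2)]⟩,⟨0,[(1,0),(38,0)]⟩⟩,[.o ⟨false,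
  0,⟨0,[(26,0)]⟩,⟨1,[(12,1),(20,0),(6,0)]⟩⟩,.a ⟨true,0,⟨0,[(4,0),(33,0)]⟩,⟨0,[(12,0)]⟩⟩ ⟨true,1,⟨0,
  [(5,0)]⟩,⟨4,[(0,4),(0,0),(1,2),(0,0),(22,1),(0,1)]⟩⟩ ⟨false,1,⟨0,[(4,0),(33,0),(0,0)]⟩,⟨1,[(3,0),
  (6,0),(14,0)]⟩⟩,.o ⟨false,0,⟨2,[(2,0),(25,0),(4,0)]⟩,⟨3,[(20,0),(0,0),(17,1)]⟩⟩,.o ⟨false,0,⟨11,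
  [(2,7),(17,2),(0,2),(6,7),(4,1)]⟩,⟨0,[(39,0)]⟩⟩]⟩)

theorem ok18 : chk (cU (-1) false 2) t18 l23 = true := by decide +kernel

noncomputable def t19 : Tre :=
  (.I [0,0,0,1,0,0,0,-1,1] (.Q [0,0,0,0,0,0,-1,-1,0,0,1,-1] (.p true [0,0,1] [0,0,0,1] (⟨0,[(34,
  0)]⟩,⟨0,[(33,0)]⟩) .k 2 (⟨0,[(25,0)]⟩,⟨1,[(24,0),(8,0),(0,0)]⟩) .k (.x (-1) ⟨7,[(20,3),(1,0),(0,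
  0),(4,3),(1,3),(3,7),(7,1)]⟩ ⟨2,[(1,0),(14,0),(10,0)]⟩)) (.I [1,0,-1,-1,1,0,0,0,-1] (.R ⟨1,false,
  false,true,[1,0,0,-1],[1,0,-1],[1,1,0,-1,0,0,0,0,-1],(⟨1,[(26,0),(8,0),(0,0)]⟩,⟨0,[(27,0)]⟩),(⟨0,
  [(35,0)]⟩,⟨0,[(36,0)]⟩),⟨1,[(15,0),(2,0),(7,0)]⟩,.k,.k,(.x 0 ⟨23,[(6,7),(8,11),(2,11),(5,2),(0,2),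
  (6,7),(4,1)]⟩ ⟨3,[(24,0),(0,0),(13,3),(3,1)]⟩),.k,(.r (-1) ⟨11,[(13,3),(3,3),(6,6),(0,0)]⟩ ⟨1,[(2,
  1),(29,0),(0,0)]⟩),.k,⟨false,1,⟨11,[(13,3),(3,3),(6,6),(0,0)]⟩,⟨0,[(2,0)]⟩⟩,⟨true,0,⟨1,[(23,0),(2,
  0)]⟩,⟨0,[(27,0),(4,0)]⟩⟩,⟨true,0,⟨0,[(41,0)]⟩,⟨0,[(42,0)]⟩⟩,⟨false,0,⟨8,[(1,2),(0,6),(1,0),(0,0),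
  (0,1),(6,2),(2,2),(8,0),(0,2)]⟩,⟨1,[(7,0),(3,0),(1,0),(10,0),(2,1),(4,1),(9,0)]⟩⟩,⟨false,0,⟨0,[]⟩,
  ⟨3,[(24,0),(0,0),(18,1)]⟩⟩,⟨false,0,⟨1,[(2,1),(20,0),(2,0)]⟩,⟨3,[(4,0),(2,1),(3,0),(1,2),(10,1),
  (2,3),(4,3)]⟩⟩,[.o ⟨false,0,⟨0,[(28,0)]⟩,⟨0,[(30,0),(13,0)]⟩⟩,.a ⟨true,0,⟨0,[(16,0)]⟩,⟨0,[(8,0),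
  (33,0)]⟩⟩ ⟨false,1,⟨0,[(0,0)]⟩,⟨0,[(2,0),(31,0)]⟩⟩ ⟨true,0,⟨0,[(1,0)]⟩,⟨0,[(27,0),(4,0),(1,0)]⟩⟩,
  .e ⟨false,1,⟨7,[(4,1),(7,1),(11,4),(0,0),(7,1)]⟩,⟨0,[(2,0),(4,0),(5,0)]⟩⟩ ⟨false,0,⟨0,[(1,0)]⟩,⟨0,
  [(27,0),(2,0),(13,0)]⟩⟩,.o ⟨false,0,⟨2,[(6,0),(20,2),(4,0),(4,0)]⟩,⟨7,[(24,0),(0,0),(0,3),(10,1),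
  (5,3)]⟩⟩]⟩) (.R ⟨1,false,false,true,[1,0,0,-1],[1,0,-1],[1,1,1],(⟨1,[(26,0),(8,0),(0,0)]⟩,⟨0,[(27,
  0)]⟩),(⟨0,[(35,0)]⟩,⟨0,[(36,0)]⟩),⟨1,[(15,0),(2,0),(7,0)]⟩,.k,.k,(.x 0 ⟨23,[(6,7),(8,11),(2,11),
  (5,2),(0,2),(6,7),(4,1)]⟩ ⟨3,[(24,0),(0,0),(13,3),(3,1)]⟩),.k,(.r (-1) ⟨11,[(13,3),(3,3),(6,6),(0,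
  0)]⟩ ⟨3,[(0,0),(1,0),(4,1),(17,0),(5,0),(0,0),(13,0)]⟩),.k,⟨false,0,⟨0,[(34,0)]⟩,⟨0,[(22,0)]⟩⟩,
  ⟨true,0,⟨1,[(23,0),(2,0)]⟩,⟨0,[(27,0),(4,0)]⟩⟩,⟨true,(-1),⟨0,[(0,0),(40,0)]⟩,⟨1,[(24,0),(18,0)]⟩⟩,
  ⟨false,0,⟨29,[(0,13),(0,27),(0,3),(1,1),(0,0),(11,5),(7,5),(0,0),(4,0)]⟩,⟨1,[(7,0),(3,0),(1,0),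
  (10,0),(2,1),(4,1),(9,0)]⟩⟩,⟨false,(-1),⟨0,[(0,0)]⟩,⟨3,[(9,0),(1,0),(7,0),(4,2),(0,0),(18,0)]⟩⟩,
  ⟨false,0,⟨1,[(2,1),(20,0),(2,0)]⟩,⟨3,[(4,0),(2,1),(3,0),(1,2),(10,1),(2,3),(4,3)]⟩⟩,[.o ⟨false,0,
  ⟨0,[(28,0)]⟩,⟨0,[(30,0),(13,0)]⟩⟩,.a ⟨true,0,⟨0,[(16,0)]⟩,⟨0,[(8,0),(33,0)]⟩⟩ ⟨false,0,⟨0,[]⟩,⟨3,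
  [(24,0),(0,0),(17,1)]⟩⟩ ⟨true,0,⟨0,[(1,0)]⟩,⟨0,[(27,0),(4,0),(1,0)]⟩⟩,.e ⟨false,0,⟨1,[(32,0),(0,
  0)]⟩,⟨1,[(43,0),(0,0)]⟩⟩ ⟨false,0,⟨0,[(1,0)]⟩,⟨0,[(27,0),(2,0),(13,0)]⟩⟩,.o ⟨false,0,⟨2,[(6,0),
  (20,2),(4,0),(4,0)]⟩,⟨7,[(24,0),(0,0),(0,3),(10,1),(5,3)]⟩⟩]⟩)) (.I [0,0,-1,-1,1,0,0,0,-1] (.R ⟨1,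
  false,false,true,[1,0,0,-1],[1,0,-1],[1,1,0,-1,0,0,0,0,-1],(⟨1,[(26,0),(8,0),(0,0)]⟩,⟨0,[(27,
  0)]⟩),(⟨0,[(35,0)]⟩,⟨0,[(36,0)]⟩),⟨1,[(15,0),(2,0),(7,0)]⟩,.k,.k,(.r (-1) ⟨0,[(0,0)]⟩ ⟨7,[(1,3),
  (0,3),(3,1),(18,1),(0,1),(5,0),(0,2),(8,3)]⟩),.k,(.r (-1) ⟨11,[(13,3),(3,3),(6,6),(0,0)]⟩ ⟨1,[(2,
  1),(29,0),(0,0)]⟩),.k,⟨false,1,⟨11,[(13,3),(3,3),(6,6),(0,0)]⟩,⟨0,[(2,0)]⟩⟩,⟨true,0,⟨1,[(23,0),(2,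
  0)]⟩,⟨0,[(27,0),(4,0)]⟩⟩,⟨true,0,⟨0,[(41,0)]⟩,⟨0,[(42,0)]⟩⟩,⟨false,0,⟨65,[(2,57),(1,9),(0,9),(0,
  13),(6,17),(2,23),(6,8),(1,3),(0,32)]⟩,⟨1,[(1,1),(22,0),(19,0)]⟩⟩,⟨false,0,⟨0,[]⟩,⟨3,[(24,0),(0,
  0),(18,1)]⟩⟩,⟨false,0,⟨1,[(2,1),(20,0),(2,0)]⟩,⟨1,[(1,1),(7,0),(14,0),(15,0)]⟩⟩,[.o ⟨false,0,⟨0,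
  [(28,0)]⟩,⟨0,[(30,0),(13,0)]⟩⟩,.e ⟨false,1,⟨0,[(0,0)]⟩,⟨0,[(2,0),(31,0)]⟩⟩ ⟨false,1,⟨1,[(22,1),(0,
  0),(2,0)]⟩,⟨0,[(1,0)]⟩⟩,.a ⟨true,0,⟨0,[(27,0)]⟩,⟨1,[(26,0),(8,0),(0,0)]⟩⟩ ⟨false,1,⟨7,[(4,1),(7,
  1),(11,4),(0,0),(7,1)]⟩,⟨0,[(2,0),(4,0),(5,0)]⟩⟩ ⟨true,0,⟨1,[(26,0),(1,0),(2,0)]⟩,⟨0,[(1,0)]⟩⟩,.o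
  ⟨false,0,⟨2,[(6,0),(20,2),(4,0),(4,0)]⟩,⟨7,[(24,0),(0,0),(0,3),(10,1),(5,3)]⟩⟩]⟩) (.R ⟨1,false,
  false,true,[1,0,0,-1],[1,0,-1],[1,1,1],(⟨1,[(26,0),(8,0),(0,0)]⟩,⟨0,[(27,0)]⟩),(⟨0,[(35,0)]⟩,⟨0,
  [(36,0)]⟩),⟨1,[(15,0),(2,0),(7,0)]⟩,.k,.k,(.x 0 ⟨23,[(6,7),(8,11),(2,11),(5,2),(0,2),(6,7),(4,
  1)]⟩ ⟨3,[(24,0),(0,0),(13,3),(3,1)]⟩),.k,(.r (-1) ⟨11,[(13,3),(3,3),(6,6),(0,0)]⟩ ⟨3,[(0,0),(1,0),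
  (4,1),(17,0),(5,0),(0,0),(13,0)]⟩),.k,⟨false,0,⟨0,[(34,0)]⟩,⟨0,[(22,0)]⟩⟩,⟨true,0,⟨1,[(23,0),(2,
  0)]⟩,⟨0,[(27,0),(4,0)]⟩⟩,⟨true,(-1),⟨0,[(0,0),(40,0)]⟩,⟨1,[(24,0),(18,0)]⟩⟩,⟨false,0,⟨21,[(0,6),
  (1,10),(1,2),(0,4),(5,1),(4,4),(6,5),(1,1),(0,10)]⟩,⟨1,[(1,1),(22,0),(19,0)]⟩⟩,⟨false,(-1),⟨0,[(0,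
  0)]⟩,⟨3,[(9,0),(1,0),(7,0),(4,2),(0,0),(18,0)]⟩⟩,⟨false,0,⟨1,[(2,1),(20,0),(2,0)]⟩,⟨1,[(1,1),(7,
  0),(14,0),(15,0)]⟩⟩,[.o ⟨false,0,⟨0,[(28,0)]⟩,⟨0,[(30,0),(13,0)]⟩⟩,.e ⟨false,0,⟨0,[]⟩,⟨3,[(24,0),
  (0,0),(17,1)]⟩⟩ ⟨false,1,⟨1,[(22,1),(0,0),(2,0)]⟩,⟨0,[(1,0)]⟩⟩,.a ⟨true,0,⟨0,[(27,0)]⟩,⟨1,[(26,0),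
  (8,0),(0,0)]⟩⟩ ⟨false,0,⟨1,[(32,0),(0,0)]⟩,⟨1,[(43,0),(0,0)]⟩⟩ ⟨true,0,⟨1,[(26,0),(1,0),(2,0)]⟩,
  ⟨0,[(1,0)]⟩⟩,.o ⟨false,0,⟨2,[(6,0),(20,2),(4,0),(4,0)]⟩,⟨7,[(24,0),(0,0),(0,3),(10,1),(5,
  3)]⟩⟩]⟩))) (.Q [0,0,0,0,0,2,0,0,0,0,-1] (.p false [0,0,1] [] (⟨0,[(34,0)]⟩,⟨0,[(33,0)]⟩) .k 0 (⟨0,
  []⟩,⟨0,[]⟩) .k .k) (.Q [0,0,0,1,0,0,-2,-2,0,-1,2] (.p true [0,0,1] [1,0,-1] (⟨0,[(35,0)]⟩,⟨0,[(34,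
  0)]⟩) .k 2 (⟨0,[(34,0)]⟩,⟨0,[(35,0)]⟩) .k (.r 0 ⟨0,[(33,1)]⟩ ⟨1,[(6,0),(11,0),(2,0),(8,0),(0,
  0)]⟩)) (.R ⟨0,false,false,false,[0,-1,1],[1,0,-1],[0,0,1],(⟨0,[(15,0)]⟩,⟨1,[(1,0),(33,1),(0,0)]⟩),
  (⟨0,[(35,0)]⟩,⟨0,[(36,0)]⟩),⟨0,[(1,0)]⟩,.k,.k,(.r (-1) ⟨0,[(17,0)]⟩ ⟨1,[(7,1),(24,0),(0,0),(8,1),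
  (3,1)]⟩),(.x (-1) ⟨7,[(15,7),(6,3),(1,0),(0,0),(4,3),(1,11),(3,7),(7,1)]⟩ ⟨0,[(3,0)]⟩),.k,.k,
  ⟨false,0,⟨0,[(34,0)]⟩,⟨0,[(22,0)]⟩⟩,⟨true,0,⟨0,[(0,0),(12,0)]⟩,⟨0,[(32,1),(2,0),(0,0)]⟩⟩,⟨false,0,
  ⟨1,[(7,1),(24,0),(0,0)]⟩,⟨11,[(13,3),(3,3),(6,0),(0,0),(17,5)]⟩⟩,⟨true,0,⟨0,[(0,0)]⟩,⟨0,[(8,0),
  (21,0)]⟩⟩,⟨false,0,⟨0,[]⟩,⟨0,[]⟩⟩,⟨false,0,⟨0,[]⟩,⟨0,[]⟩⟩,[.a ⟨true,0,⟨0,[(16,0)]⟩,⟨0,[(8,0),(33,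
  0)]⟩⟩ ⟨true,0,⟨1,[(32,0),(0,0)]⟩,⟨0,[]⟩⟩ ⟨false,1,⟨2,[(0,1),(16,0),(5,0),(19,1)]⟩,⟨0,[(8,0),(23,
  0),(9,0)]⟩⟩,.o ⟨false,1,⟨9,[(0,3),(3,1),(19,0),(0,0),(3,1),(7,1),(6,3)]⟩,⟨0,[(30,0)]⟩⟩,.o ⟨false,
  0,⟨0,[(32,0)]⟩,⟨7,[(23,3),(0,0),(0,0),(11,1),(5,3)]⟩⟩,.o ⟨false,0,⟨1,[(32,2),(0,0)]⟩,⟨0,[(21,0),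
  (21,0)]⟩⟩]⟩) (.Q [0,0,-1,0,0,0,-2,0,0,-1,2] (.p true [0,0,1] [1,0,-1] (⟨0,[(36,0)]⟩,⟨0,[(35,0)]⟩)
  .k 2 (⟨0,[(35,0)]⟩,⟨0,[(36,0)]⟩) .k (.r 0 ⟨0,[(34,1)]⟩ ⟨1,[(7,0),(11,0),(2,0),(8,0),(0,0)]⟩)) (.R
  ⟨0,false,false,true,[0,-1,1],[1,0,-1],[0,1,1],(⟨0,[(16,0)]⟩,⟨1,[(2,0),(33,1),(0,0)]⟩),(⟨0,[(36,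
  0)]⟩,⟨0,[(37,0)]⟩),⟨0,[(2,0)]⟩,.k,.k,(.r (-1) ⟨0,[(18,0)]⟩ ⟨1,[(8,1),(24,0),(0,0),(8,1),(3,1)]⟩),
  (.x (-1) ⟨7,[(16,7),(6,3),(1,0),(0,0),(4,3),(1,11),(3,7),(7,1)]⟩ ⟨0,[(4,0)]⟩),.k,.k,⟨false,0,⟨0,
  [(35,0)]⟩,⟨0,[(23,0)]⟩⟩,⟨true,0,⟨0,[(0,0)]⟩,⟨0,[(33,1),(2,0),(0,0)]⟩⟩,⟨false,0,⟨1,[(8,1),(24,0),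
  (0,0),(12,1)]⟩,⟨0,[(12,0)]⟩⟩,⟨true,0,⟨0,[(17,0),(11,0),(13,0)]⟩,⟨0,[(1,0)]⟩⟩,⟨false,0,⟨0,[]⟩,⟨0,
  []⟩⟩,⟨false,0,⟨0,[]⟩,⟨0,[]⟩⟩,[.o ⟨false,0,⟨0,[(29,0)]⟩,⟨0,[(31,0),(13,0)]⟩⟩,.a ⟨true,0,⟨0,[(17,
  0)]⟩,⟨1,[(1,0),(34,0),(0,0),(5,0)]⟩⟩ ⟨true,0,⟨1,[(33,0),(0,0)]⟩,⟨0,[]⟩⟩ ⟨false,1,⟨0,[(0,0),(22,
  0)]⟩,⟨0,[(1,0),(6,0),(38,0)]⟩⟩,.o ⟨false,0,⟨0,[(33,0)]⟩,⟨3,[(0,1),(24,0),(0,0),(11,0),(5,0)]⟩⟩,.o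
  ⟨false,0,⟨1,[(33,2),(0,0)]⟩,⟨3,[(0,1),(37,0),(5,2)]⟩⟩]⟩) (.K ⟨2,[1,1,-1],0,0,(⟨1,[(2,0),(33,1),(0,
  0)]⟩,⟨0,[(16,0)]⟩),.k,.k,(.r 0 ⟨3,[(0,1),(6,1),(0,1),(16,0),(0,0),(5,1),(10,5)]⟩ ⟨0,[(18,0)]⟩),
  (.x 0 ⟨0,[(4,0)]⟩ ⟨3,[(0,3),(15,3),(8,0),(0,0),(10,3),(0,1)]⟩),.k,[⟨0,[(0,0)]⟩,⟨0,[(22,0)]⟩,⟨0,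
  [(1,0),(30,0)]⟩,⟨0,[(29,0),(13,0)]⟩]⟩))) (.I [0,0,-1,-1,1,0,0,-2] (.Q [0,0,-1,0,1,0,2,0,0,1,-2]
  (.p false [0,0,1] [1,0,-1] (⟨0,[(36,0)]⟩,⟨0,[(35,0)]⟩) .k 2 (⟨0,[(35,0)]⟩,⟨0,[(36,0)]⟩) .k (.r 0
  ⟨0,[(34,1)]⟩ ⟨9,[(0,3),(6,3),(14,3),(1,0),(0,0),(5,3),(0,3)]⟩)) (.K ⟨2,[1,-1,-1],(-1),0,(⟨0,[(19,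
  0)]⟩,⟨0,[(37,0),(2,0)]⟩),.k,(.r (-2) ⟨5,[(18,1),(1,7),(4,0),(0,0)]⟩ ⟨0,[(7,0),(1,0),(33,2)]⟩),.k,
  (.r (-1) ⟨0,[(1,0)]⟩ ⟨1,[(33,0),(0,0),(0,3),(7,1)]⟩),.k,[⟨0,[(0,0)]⟩,⟨0,[(7,0)]⟩,⟨0,[(31,0),(4,0),
  (0,0),(5,0)]⟩,⟨0,[(15,0)]⟩]⟩) (.Q [0,0,0,0,0,-2,0,0,0,1,-1] (.p false [0,0,1] [1] (⟨0,[(37,0)]⟩,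
  ⟨0,[(36,0)]⟩) .k 1 (⟨0,[]⟩,⟨0,[]⟩) .k .k) (.I [0,1,-2,-1,1,0,0,-1] (.R ⟨1,false,false,false,[1,-1,
  -1],[0,-1,1],[0,1,-1,-1,0,0,0,-1],(⟨0,[(21,0)]⟩,⟨0,[(39,0),(2,0)]⟩),(⟨0,[(18,0)]⟩,⟨0,[(38,0),(3,
  0)]⟩),⟨0,[(1,0)]⟩,.k,.k,(.r (-2) ⟨5,[(20,1),(1,7),(4,0),(0,0)]⟩ ⟨0,[(9,0),(1,0),(33,2)]⟩),.k,(.r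
  (-1) ⟨0,[(3,0)]⟩ ⟨1,[(35,0),(0,0),(0,3),(7,1)]⟩),.k,⟨false,1,⟨0,[(0,0),(9,0),(38,0)]⟩,⟨0,[(10,0),
  (5,0),(20,0)]⟩⟩,⟨true,1,⟨0,[(11,0),(13,0),(9,0),(9,0)]⟩,⟨0,[(2,0)]⟩⟩,⟨true,0,⟨0,[(49,0)]⟩,⟨0,[]⟩⟩,
  ⟨false,1,⟨0,[(11,0),(21,0),(11,0),(1,0)]⟩,⟨0,[(0,0),(1,0),(7,0)]⟩⟩,⟨false,0,⟨0,[(45,0)]⟩,⟨7,[(7,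
  1),(7,1),(11,0),(0,0),(7,1),(10,3)]⟩⟩,⟨false,1,⟨0,[(11,0),(21,0),(11,1),(1,0)]⟩,⟨0,[(2,0),(0,
  0)]⟩⟩,[.a ⟨true,0,⟨0,[(11,0)]⟩,⟨0,[(19,0),(25,0)]⟩⟩ ⟨false,1,⟨0,[(0,0)]⟩,⟨0,[(10,0),(26,1)]⟩⟩
  ⟨true,1,⟨0,[(11,0),(23,0),(10,0)]⟩,⟨1,[(2,0),(6,0),(0,0),(23,0),(10,0)]⟩⟩,.o ⟨false,1,⟨1,[(15,0),
  (17,0),(13,1)]⟩,⟨0,[(31,0),(13,0)]⟩⟩,.o ⟨false,0,⟨0,[(32,0)]⟩,⟨0,[(35,0),(10,0)]⟩⟩,.o ⟨false,(-1),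
  ⟨0,[(9,0)]⟩,⟨1,[(25,1),(7,1),(12,0),(0,0)]⟩⟩]⟩) (.I [1,0,1,0,0,0,0,0,1] (.I [1,1,0,0,0,0,0,0,1]
  (.I [1,0,0,0,0,0,0,0,1] (.I [0,1,0,1,0,0,0,-1,1] (.R ⟨1,false,false,true,[1,0,0,-1],[1,0,-1],[1,0,
  0,-1,0,0,0,0,-1],(⟨1,[(33,0),(8,0),(0,0)]⟩,⟨0,[(34,0)]⟩),(⟨0,[(42,0)]⟩,⟨0,[(43,0)]⟩),⟨5,[(5,0),(2,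
  0),(24,2),(11,1)]⟩,.k,.k,(.r (-1) ⟨7,[(7,1),(1,1),(14,1),(6,2),(18,0)]⟩ ⟨7,[(0,3),(3,3),(26,0),(0,
  2)]⟩),.k,(.r (-1) ⟨11,[(20,3),(3,3),(6,6),(0,0)]⟩ ⟨1,[(0,0),(2,0),(10,0)]⟩),.k,⟨false,1,⟨3,[(9,1),
  (8,1),(12,0),(19,0)]⟩,⟨0,[(0,0)]⟩⟩,⟨true,0,⟨1,[(30,0),(2,0)]⟩,⟨0,[(34,0),(4,0)]⟩⟩,⟨false,1,⟨3,[(3,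
  1),(12,1),(14,0),(19,0)]⟩,⟨0,[(49,0)]⟩⟩,⟨false,0,⟨2,[(1,2),(4,0),(0,0),(9,0),(15,0)]⟩,⟨3,[(4,0),
  (13,2),(12,1),(2,3),(4,3),(9,1)]⟩⟩,⟨true,0,⟨0,[]⟩,⟨0,[(53,0)]⟩⟩,⟨false,0,⟨0,[(1,0),(15,0)]⟩,⟨3,
  [(9,1),(8,1),(12,0),(2,3),(4,3),(11,0)]⟩⟩,[.o ⟨false,0,⟨0,[(35,0)]⟩,⟨0,[(37,0),(13,0)]⟩⟩,.a ⟨true,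
  0,⟨0,[(23,0)]⟩,⟨0,[(15,0),(33,0)]⟩⟩ ⟨false,1,⟨2,[(7,0),(1,2),(4,1),(3,0),(31,0)]⟩,⟨0,[(0,0),(40,
  0)]⟩⟩ ⟨true,0,⟨2,[(6,0),(0,0),(9,0),(15,0)]⟩,⟨11,[(4,3),(14,1),(11,0),(0,0),(1,11),(2,5),(1,3),
  (11,1)]⟩⟩,.e ⟨false,1,⟨1,[(16,0),(14,0),(15,0)]⟩,⟨0,[(1,0),(47,0)]⟩⟩ ⟨false,0,⟨2,[(6,0),(0,0),(9,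
  0),(15,0)]⟩,⟨0,[(34,0),(2,0),(13,0)]⟩⟩,.o ⟨false,0,⟨2,[(13,0),(20,2),(4,0),(4,0)]⟩,⟨7,[(31,0),(0,
  0),(0,3),(10,1),(5,3)]⟩⟩]⟩) (.Q [0,0,0,0,0,0,0,0,1,0,0,-1] (.p false [0,0,0,1] [] (⟨0,[(34,0)]⟩,
  ⟨1,[(33,0),(8,0),(0,0)]⟩) .k 0 (⟨0,[]⟩,⟨0,[]⟩) .k .k) (.I [0,1,0,0,0,0,0,0,-1] (.R ⟨1,false,false,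
  true,[1,0,0,-1],[0,0,0,1],[0,1,0,0,0,0,0,0,-1],(⟨1,[(35,0),(8,0),(0,0)]⟩,⟨0,[(36,0)]⟩),(⟨0,[(36,
  0)]⟩,⟨1,[(35,0),(8,0),(0,0)]⟩),⟨5,[(7,0),(2,0),(24,2),(11,1)]⟩,.k,.k,(.r (-1) ⟨7,[(0,1),(8,0),(3,
  0),(6,0),(5,1),(6,2)]⟩ ⟨0,[(5,0),(45,0)]⟩),.k,(.r (-1) ⟨2,[(0,1),(1,1),(6,0),(23,0),(18,0)]⟩ ⟨2,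
  [(3,1),(0,1),(1,0),(9,0),(17,0),(16,0)]⟩),.k,⟨false,1,⟨3,[(0,3),(1,1),(13,1),(16,0),(18,2)]⟩,⟨0,
  [(3,1)]⟩⟩,⟨true,0,⟨0,[(35,0)]⟩,⟨2,[(15,0),(20,5),(4,0),(4,0)]⟩⟩,⟨true,0,⟨0,[(55,0)]⟩,⟨0,[]⟩⟩,
  ⟨false,0,⟨0,[(3,1),(31,0)]⟩,⟨1,[(0,1),(1,1),(13,1),(19,3),(9,0),(5,0)]⟩⟩,⟨false,0,⟨0,[(51,0)]⟩,⟨3,
  [(5,1),(12,1),(14,0),(19,0)]⟩⟩,⟨false,0,⟨0,[(3,1),(31,0),(15,0)]⟩,⟨11,[(0,7),(1,13),(6,3),(6,5),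
  (16,0),(2,23),(9,5),(5,0)]⟩⟩,[.o ⟨false,0,⟨3,[(1,1),(2,1),(30,0),(1,0),(1,0)]⟩,⟨3,[(2,1),(13,1),
  (16,0),(2,3),(9,1),(5,0)]⟩⟩,.o ⟨false,0,⟨0,[(1,0)]⟩,⟨1,[(33,0),(2,1),(9,0)]⟩⟩,.a ⟨true,0,⟨0,[(36,
  0)]⟩,⟨1,[(35,0),(8,0),(0,0)]⟩⟩ ⟨true,0,⟨0,[(0,0)]⟩,⟨0,[(3,0)]⟩⟩ ⟨false,0,⟨0,[(3,0),(31,0)]⟩,⟨3,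
  [(2,1),(13,1),(16,0),(2,7),(9,1),(5,0)]⟩⟩,.o ⟨false,0,⟨2,[(15,0),(20,2),(4,0),(4,0)]⟩,⟨7,[(33,0),
  (0,0),(0,3),(10,1),(5,3)]⟩⟩]⟩) (.Q [0,1,0,0,0,0,0,0,-1,0,0,1] (.p true [0,0,0,1] [] (⟨0,[(36,0)]⟩,
  ⟨1,[(35,0),(8,0),(0,0)]⟩) .k 0 (⟨0,[]⟩,⟨0,[]⟩) .k .k) (.K ⟨1,[0,0,0,1],0,0,(⟨0,[(37,0)]⟩,⟨1,[(36,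
  0),(8,0),(0,0)]⟩),.k,(.r (-1) ⟨4,[(4,0),(5,0),(16,1),(7,1)]⟩ ⟨2,[(0,0),(6,0),(12,0),(13,0),(7,0),
  (9,0)]⟩),(.r 0 ⟨0,[(6,0),(45,0)]⟩ ⟨7,[(10,1),(1,1),(14,1),(6,2),(18,0)]⟩),.k,.k,[⟨1,[(0,0),(5,0),
  (30,0),(12,0)]⟩,⟨7,[(6,1),(9,1),(17,0),(1,3),(5,1),(4,0)]⟩,⟨0,[(0,0)]⟩,⟨1,[(1,1),(34,0),(8,0),(0,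
  0)]⟩]⟩) (.Q [0,0,0,0,0,-1,0,0,0,0,0,1] (.p true [0,0,0,1] [] (⟨0,[(37,0)]⟩,⟨1,[(36,0),(8,0),(0,
  0)]⟩) .k 0 (⟨0,[]⟩,⟨0,[]⟩) .k .k) (.Q [0,1,0,-1,0,0,0,0,0,-1,0,1] (.p true [0,0,0,1] [1] (⟨0,[(38,
  0)]⟩,⟨1,[(37,0),(8,0),(0,0)]⟩) .k 1 (⟨0,[]⟩,⟨0,[]⟩) .k .k) (.R ⟨1,false,false,true,[0,0,0,1],[1,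
  -1],[1,1,0,-1,0,0,0,0,1],(⟨0,[(39,0)]⟩,⟨1,[(38,0),(8,0),(0,0)]⟩),(⟨0,[(50,0)]⟩,⟨0,[(51,0)]⟩),⟨0,
  [(1,0)]⟩,.k,.k,(.r (-1) ⟨4,[(6,0),(5,0),(16,1),(7,1)]⟩ ⟨0,[(14,0),(4,0),(34,0),(3,0)]⟩),(.r 0 ⟨0,
  [(8,0),(45,0)]⟩ ⟨7,[(12,1),(1,1),(14,1),(6,2),(18,0)]⟩),.k,.k,⟨false,0,⟨0,[(6,0)]⟩,⟨1,[(36,0),(18,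
  0)]⟩⟩,⟨true,0,⟨2,[(18,0),(20,2),(4,0),(4,0)]⟩,⟨1,[(38,0),(8,0),(0,0)]⟩⟩,⟨true,0,⟨0,[(53,0)]⟩,⟨0,
  [(54,0)]⟩⟩,⟨false,1,⟨1,[(0,1),(35,0),(19,0)]⟩,⟨1,[(3,1),(34,0),(8,0),(0,0),(5,1)]⟩⟩,⟨false,0,⟨0,
  []⟩,⟨3,[(36,0),(0,0),(18,1)]⟩⟩,⟨false,1,⟨1,[(36,0),(2,1),(9,0)]⟩,⟨1,[(3,1),(34,0),(8,0),(0,0)]⟩⟩,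
  [.e ⟨true,0,⟨2,[(6,0),(0,1),(9,0),(2,0)]⟩,⟨0,[(14,0),(4,0),(34,0)]⟩⟩ ⟨true,0,⟨0,[(0,0)]⟩,⟨11,[(9,
  3),(9,3),(16,0),(0,0),(0,5),(8,5),(0,5),(5,3),(1,1)]⟩⟩,.o ⟨false,1,⟨31,[(8,7),(8,3),(3,7),(2,3),
  (11,6),(0,2),(11,13)]⟩,⟨0,[(54,0)]⟩⟩,.a ⟨true,0,⟨1,[(38,0),(8,0),(0,0)]⟩,⟨0,[(39,0)]⟩⟩ ⟨false,0,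
  ⟨2,[(3,0),(2,1),(10,0),(2,0)]⟩,⟨1,[(36,0),(17,1),(1,0)]⟩⟩ ⟨true,0,⟨0,[(0,0)]⟩,⟨1,[(38,0),(8,0),(0,
  0),(5,1)]⟩⟩,.o ⟨false,0,⟨7,[(8,1),(9,1),(17,0),(1,3),(5,1),(4,0)]⟩,⟨1,[(39,1),(9,0),(5,0)]⟩⟩]⟩)
  (.R ⟨1,false,false,true,[0,0,0,1],[1,-1],[1,1,0,-1,0,0,0,0,1],(⟨0,[(39,0)]⟩,⟨2,[(0,0),(19,0),(17,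
  0),(4,0)]⟩),(⟨0,[(50,0)]⟩,⟨0,[(51,0)]⟩),⟨0,[(1,0)]⟩,.k,.k,(.r (-1) ⟨4,[(6,0),(5,0),(16,1),(7,1)]⟩
  ⟨0,[(14,0),(4,0),(34,0),(3,0)]⟩),(.r 0 ⟨0,[(8,0),(45,0)]⟩ ⟨7,[(12,1),(1,1),(14,1),(6,2),(18,0)]⟩),
  .k,.k,⟨false,0,⟨0,[(6,0)]⟩,⟨1,[(36,0),(18,0)]⟩⟩,⟨true,0,⟨2,[(18,0),(20,2),(4,0),(4,0)]⟩,⟨2,[(0,0),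
  (19,0),(17,0),(4,0)]⟩⟩,⟨true,0,⟨0,[(53,0)]⟩,⟨0,[(54,0)]⟩⟩,⟨false,1,⟨26,[(5,0),(10,3),(0,1),(0,2),
  (2,1),(2,4),(11,12),(2,26),(9,10)]⟩,⟨0,[(0,0),(5,0)]⟩⟩,⟨false,0,⟨0,[]⟩,⟨3,[(36,0),(0,0),(18,1)]⟩⟩,
  ⟨false,1,⟨1,[(36,0),(2,1),(9,0)]⟩,⟨2,[(0,0),(2,2),(16,0),(17,0),(4,0)]⟩⟩,[.a ⟨true,0,⟨0,[(53,0)]⟩,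
  ⟨0,[(0,0),(38,0)]⟩⟩ ⟨true,0,⟨2,[(6,0),(0,1),(9,0),(2,0)]⟩,⟨0,[(14,0),(4,0),(34,0)]⟩⟩ ⟨false,1,⟨11,
  [(24,1),(1,1),(2,1),(1,1),(7,11),(9,4),(5,2),(2,7)]⟩,⟨0,[(0,0)]⟩⟩,.o ⟨false,1,⟨31,[(8,7),(8,3),(3,
  7),(2,3),(11,6),(0,2),(11,13)]⟩,⟨0,[(54,0)]⟩⟩,.e ⟨false,0,⟨2,[(3,0),(2,1),(10,0),(2,0)]⟩,⟨1,[(36,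
  0),(17,1),(1,0)]⟩⟩ ⟨false,1,⟨31,[(8,7),(8,3),(3,7),(2,3),(11,6),(0,2),(1,31),(9,13)]⟩,⟨0,[(0,
  0)]⟩⟩,.o ⟨false,0,⟨7,[(8,1),(9,1),(17,0),(1,3),(5,1),(4,0)]⟩,⟨1,[(39,1),(9,0),(5,0)]⟩⟩]⟩)) (.Q [0,
  1,0,-1,0,0,0,0,0,-1,0,1] (.p true [0,0,0,1] [1] (⟨0,[(38,0)]⟩,⟨1,[(37,0),(8,0),(0,0)]⟩) .k 1 (⟨0,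
  []⟩,⟨0,[]⟩) .k .k) (.R ⟨0,false,false,true,[0,0,0,1],[1,-1],[1,0,0,0,0,0,0,0,1],(⟨0,[(39,0)]⟩,⟨1,
  [(38,0),(8,0),(0,0)]⟩),(⟨0,[(50,0)]⟩,⟨0,[(51,0)]⟩),⟨0,[(1,0)]⟩,.k,.k,(.r (-1) ⟨4,[(6,0),(5,0),(16,
  1),(7,1)]⟩ ⟨0,[(14,0),(4,0),(34,0),(3,0)]⟩),(.r 0 ⟨0,[(8,0),(45,0)]⟩ ⟨7,[(12,1),(1,1),(14,1),(6,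
  2),(18,0)]⟩),.k,.k,⟨false,0,⟨0,[(3,0),(50,0)]⟩,⟨1,[(36,0),(16,1),(1,0)]⟩⟩,⟨true,0,⟨2,[(18,0),(20,
  2),(4,0),(4,0)]⟩,⟨1,[(38,0),(8,0),(0,0)]⟩⟩,⟨true,0,⟨0,[]⟩,⟨0,[(58,0)]⟩⟩,⟨false,1,⟨1,[(0,1),(35,0),
  (19,0)]⟩,⟨1,[(3,1),(34,0),(8,0),(0,0),(5,1)]⟩⟩,⟨false,0,⟨0,[]⟩,⟨0,[]⟩⟩,⟨false,0,⟨0,[]⟩,⟨0,[]⟩⟩,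
  [.e ⟨true,0,⟨0,[(6,0)]⟩,⟨0,[(14,0),(4,0),(38,0)]⟩⟩ ⟨true,0,⟨0,[(0,0)]⟩,⟨11,[(9,3),(9,3),(16,0),(0,
  0),(0,5),(8,5),(0,5),(5,3),(1,1)]⟩⟩,.o ⟨false,1,⟨31,[(8,7),(8,3),(3,7),(2,3),(11,6),(0,2),(11,
  13)]⟩,⟨0,[(54,0)]⟩⟩,.a ⟨true,0,⟨1,[(38,0),(8,0),(0,0)]⟩,⟨0,[(39,0)]⟩⟩ ⟨false,0,⟨0,[(3,0)]⟩,⟨3,
  [(36,2),(0,0)]⟩⟩ ⟨true,0,⟨0,[(0,0)]⟩,⟨1,[(38,0),(8,0),(0,0),(5,1)]⟩⟩,.o ⟨false,0,⟨7,[(8,1),(9,1),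
  (17,0),(1,3),(5,1),(4,0)]⟩,⟨1,[(39,1),(9,0),(5,0)]⟩⟩]⟩) (.R ⟨0,false,false,true,[0,0,0,1],[1,-1],
  [1,0,0,0,0,0,0,0,1],(⟨0,[(39,0)]⟩,⟨2,[(0,0),(19,0),(17,0),(4,0)]⟩),(⟨0,[(50,0)]⟩,⟨0,[(51,0)]⟩),⟨0,
  [(1,0)]⟩,.k,.k,(.r (-1) ⟨4,[(6,0),(5,0),(16,1),(7,1)]⟩ ⟨0,[(14,0),(4,0),(34,0),(3,0)]⟩),(.r 0 ⟨0,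
  [(8,0),(45,0)]⟩ ⟨7,[(12,1),(1,1),(14,1),(6,2),(18,0)]⟩),.k,.k,⟨false,0,⟨0,[(3,0),(50,0)]⟩,⟨1,[(36,
  0),(16,1),(1,0)]⟩⟩,⟨true,0,⟨2,[(18,0),(20,2),(4,0),(4,0)]⟩,⟨2,[(0,0),(19,0),(17,0),(4,0)]⟩⟩,⟨true,
  0,⟨0,[]⟩,⟨0,[(58,0)]⟩⟩,⟨false,1,⟨26,[(5,0),(10,3),(0,1),(0,2),(2,1),(2,4),(11,12),(2,26),(9,10)]⟩,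
  ⟨0,[(0,0),(5,0)]⟩⟩,⟨false,0,⟨0,[]⟩,⟨0,[]⟩⟩,⟨false,0,⟨0,[]⟩,⟨0,[]⟩⟩,[.a ⟨true,0,⟨0,[(53,0)]⟩,⟨0,
  [(0,0),(38,0)]⟩⟩ ⟨true,0,⟨0,[(6,0)]⟩,⟨0,[(14,0),(4,0),(38,0)]⟩⟩ ⟨false,1,⟨11,[(24,1),(1,1),(2,1),
  (1,1),(7,11),(9,4),(5,2),(2,7)]⟩,⟨0,[(0,0)]⟩⟩,.o ⟨false,1,⟨31,[(8,7),(8,3),(3,7),(2,3),(11,6),(0,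
  2),(11,13)]⟩,⟨0,[(54,0)]⟩⟩,.e ⟨false,0,⟨0,[(3,0)]⟩,⟨3,[(36,2),(0,0)]⟩⟩ ⟨false,1,⟨31,[(8,7),(8,3),
  (3,7),(2,3),(11,6),(0,2),(1,31),(9,13)]⟩,⟨0,[(0,0)]⟩⟩,.o ⟨false,0,⟨7,[(8,1),(9,1),(17,0),(1,3),(5,
  1),(4,0)]⟩,⟨1,[(39,1),(9,0),(5,0)]⟩⟩]⟩))))) (.R ⟨2,false,false,false,[0,1],[1,0,0,-1],[1,1,1],(⟨0,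
  []⟩,⟨0,[]⟩),(⟨1,[(34,0),(8,0),(0,0)]⟩,⟨0,[(35,0)]⟩),⟨0,[]⟩,.k,.k,.k,(.r 0 ⟨0,[(4,0),(45,0)]⟩ ⟨7,
  [(8,1),(1,1),(14,1),(6,2),(18,0)]⟩),.k,.k,⟨false,0,⟨0,[(3,0)]⟩,⟨3,[(1,1),(13,1),(16,0),(18,2)]⟩⟩,
  ⟨true,0,⟨2,[(14,0),(20,2),(4,0),(4,0)]⟩,⟨1,[(34,0),(8,0),(0,0)]⟩⟩,⟨true,0,⟨0,[(49,0)]⟩,⟨0,[(50,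
  0)]⟩⟩,⟨false,1,⟨11,[(0,11),(11,1),(1,1),(2,1),(2,1),(24,4),(6,4)]⟩,⟨1,[(2,1),(31,0),(8,0),(0,0),
  (5,1)]⟩⟩,⟨false,0,⟨0,[]⟩,⟨3,[(32,0),(0,0),(18,1)]⟩⟩,⟨false,1,⟨1,[(0,1),(44,0),(6,0)]⟩,⟨1,[(2,1),
  (31,0),(8,0),(0,0)]⟩⟩,[.a ⟨true,0,⟨0,[(0,0)]⟩,⟨1,[(2,1),(31,0),(8,0),(0,0)]⟩⟩ ⟨false,0,⟨0,[(54,
  0)]⟩,⟨1,[(51,0),(0,0)]⟩⟩ ⟨true,0,⟨2,[(0,2),(13,0),(25,0),(4,0)]⟩,⟨1,[(2,1),(31,0),(8,0),(0,0)]⟩⟩,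
  .o ⟨false,1,⟨1,[(0,1),(44,0),(6,0)]⟩,⟨1,[(2,1),(31,0),(1,0),(1,0)]⟩⟩,.o ⟨false,1,⟨3,[(32,0),(0,0),
  (17,1)]⟩,⟨2,[(14,0),(25,0),(4,0)]⟩⟩,.e ⟨false,0,⟨0,[]⟩,⟨3,[(32,0),(0,0),(18,1)]⟩⟩ ⟨false,1,⟨1,[(0,
  1),(44,0),(6,0)]⟩,⟨1,[(2,1),(31,0),(8,0),(0,0)]⟩⟩]⟩))) (.R ⟨1,false,false,false,[1,0,0,-1],[1,-1],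
  [0,0,0,0,0,0,0,0,-1],(⟨1,[(32,0),(8,0),(0,0)]⟩,⟨0,[(33,0)]⟩),(⟨0,[(44,0)]⟩,⟨0,[(45,0)]⟩),⟨5,[(4,
  0),(2,0),(24,2),(11,1)]⟩,.k,.k,(.r (-1) ⟨4,[(0,0),(5,0),(16,1),(6,1)]⟩ ⟨0,[(2,0),(45,0)]⟩),(.r 0
  ⟨2,[(0,0),(2,0),(9,0),(16,0),(17,0),(3,1)]⟩ ⟨7,[(1,1),(4,0),(3,0),(6,0),(5,1),(7,2)]⟩),.k,.k,
  ⟨false,0,⟨0,[(0,0),(47,0)]⟩,⟨7,[(1,1),(4,0),(3,0),(6,0),(5,1),(7,2)]⟩⟩,⟨true,0,⟨7,[(2,1),(9,1),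
  (17,0),(1,3),(5,1),(4,0)]⟩,⟨0,[(33,0)]⟩⟩,⟨false,1,⟨3,[(30,0),(0,0),(18,1)]⟩,⟨0,[]⟩⟩,⟨false,1,⟨35,
  [(3,12),(6,19),(1,1),(4,4),(0,1),(12,17),(0,17),(10,7)]⟩,⟨0,[(0,0),(32,0),(14,0)]⟩⟩,⟨true,0,⟨0,
  [(48,0)]⟩,⟨0,[(47,0)]⟩⟩,⟨false,1,⟨15,[(3,2),(6,1),(2,5),(3,4),(13,7),(0,7),(10,3)]⟩,⟨0,[(0,0),(32,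
  0)]⟩⟩,[.o ⟨false,1,⟨31,[(2,7),(8,3),(3,7),(2,3),(11,6),(0,2),(11,13)]⟩,⟨0,[(48,0)]⟩⟩,.o ⟨false,1,
  ⟨11,[(10,1),(1,1),(2,1),(2,1),(24,4),(6,4)]⟩,⟨0,[(48,0),(3,0)]⟩⟩,.a ⟨true,0,⟨0,[(33,0)]⟩,⟨1,[(32,
  0),(8,0),(0,0)]⟩⟩ ⟨true,0,⟨0,[(0,0)]⟩,⟨0,[(1,0)]⟩⟩ ⟨false,1,⟨23,[(2,5),(7,1),(1,1),(2,7),(2,1),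
  (11,2),(1,11),(10,4),(6,7)]⟩,⟨0,[(33,0),(14,0)]⟩⟩,.o ⟨false,0,⟨2,[(12,0),(20,2),(4,0),(4,0)]⟩,⟨7,
  [(30,0),(0,0),(0,3),(10,1),(5,3)]⟩⟩]⟩)) (.R ⟨1,false,false,true,[1,0,0,-1],[1,-1],[0,0,0,0,0,0,0,
  0,-1],(⟨1,[(31,0),(8,0),(0,0)]⟩,⟨0,[(32,0)]⟩),(⟨0,[(43,0)]⟩,⟨0,[(44,0)]⟩),⟨5,[(3,0),(2,0),(24,2),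
  (11,1)]⟩,.k,.k,(.r (-1) ⟨7,[(5,1),(1,1),(14,1),(6,2),(18,0)]⟩ ⟨0,[(1,0),(45,0)]⟩),(.r 0 ⟨2,[(0,0),
  (1,0),(9,0),(16,0),(17,0),(3,2)]⟩ ⟨1,[(5,0),(12,0),(11,0)]⟩),.k,.k,⟨false,0,⟨0,[(0,0),(46,0)]⟩,⟨1,
  [(30,0),(15,1),(1,0)]⟩⟩,⟨true,0,⟨7,[(1,1),(9,1),(17,0),(1,3),(5,1),(4,0)]⟩,⟨0,[(32,0)]⟩⟩,⟨false,1,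
  ⟨3,[(29,0),(0,0),(18,1)]⟩,⟨0,[]⟩⟩,⟨false,1,⟨31,[(1,7),(8,3),(3,7),(2,3),(11,2),(0,14),(0,15),(10,
  5)]⟩,⟨0,[(0,0),(31,0),(14,0)]⟩⟩,⟨true,0,⟨0,[(47,0)]⟩,⟨0,[(46,0)]⟩⟩,⟨false,1,⟨7,[(29,0),(0,4),(0,
  3),(10,1)]⟩,⟨0,[(0,0),(31,0)]⟩⟩,[.e ⟨true,0,⟨0,[(0,0),(50,0)]⟩,⟨0,[(1,0)]⟩⟩ ⟨true,0,⟨3,[(17,0),(1,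
  1),(11,1),(3,0)]⟩,⟨11,[(2,3),(9,3),(16,0),(0,0),(1,11),(14,3),(1,1)]⟩⟩,.o ⟨false,1,⟨31,[(1,7),(8,
  3),(3,7),(2,3),(11,6),(0,2),(11,13)]⟩,⟨0,[(47,0)]⟩⟩,.a ⟨true,0,⟨0,[(32,0)]⟩,⟨1,[(31,0),(8,0),(0,
  0)]⟩⟩ ⟨false,0,⟨0,[(0,0)]⟩,⟨3,[(29,0),(0,2)]⟩⟩ ⟨true,0,⟨3,[(17,0),(1,1),(11,1),(3,0)]⟩,⟨0,[(32,0),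
  (14,0)]⟩⟩,.o ⟨false,0,⟨2,[(11,0),(20,2),(4,0),(4,0)]⟩,⟨7,[(29,0),(0,0),(0,3),(10,1),(5,3)]⟩⟩]⟩))
  (.R ⟨1,false,false,true,[1,0,0,-1],[1,0,-1],[0,1,0,0,0,0,0,0,-1],(⟨1,[(30,0),(8,0),(0,0)]⟩,⟨0,
  [(31,0)]⟩),(⟨0,[(39,0)]⟩,⟨0,[(40,0)]⟩),⟨5,[(2,0),(2,0),(24,2),(11,1)]⟩,.k,.k,(.x 0 ⟨7,[(2,1),(2,
  1),(4,1),(17,0),(0,0),(6,2),(0,0)]⟩ ⟨3,[(28,0),(0,0),(13,3),(3,1)]⟩),.k,(.r 0 ⟨12,[(0,8),(2,0),(2,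
  3),(1,0),(3,0),(3,0),(0,3)]⟩ ⟨3,[(11,3),(16,0),(0,2),(20,3)]⟩),.k,⟨false,0,⟨8,[(0,6),(0,0),(15,3),
  (10,0),(17,2),(3,0)]⟩,⟨19,[(4,3),(6,3),(14,3),(1,0),(0,10),(5,3),(0,3)]⟩⟩,⟨true,0,⟨1,[(27,0),(2,
  0)]⟩,⟨0,[(31,0),(4,0)]⟩⟩,⟨true,0,⟨0,[(50,0)]⟩,⟨0,[]⟩⟩,⟨false,1,⟨11,[(4,3),(9,3),(12,1),(0,0),(0,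
  6),(0,3),(2,1),(3,1)]⟩,⟨1,[(0,1),(0,0),(13,0),(15,1),(4,1)]⟩⟩,⟨false,0,⟨0,[(46,0)]⟩,⟨7,[(8,1),(7,
  1),(11,0),(0,0),(7,1),(10,3)]⟩⟩,⟨false,1,⟨3,[(14,3),(13,0),(0,2)]⟩,⟨2,[(0,2),(0,1),(6,0),(6,0),(0,
  0),(14,2),(4,1)]⟩⟩,[.o ⟨false,0,⟨0,[(32,0)]⟩,⟨0,[(34,0),(13,0)]⟩⟩,.a ⟨true,0,⟨0,[(20,0)]⟩,⟨0,[(12,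
  0),(33,0)]⟩⟩ ⟨false,0,⟨0,[(0,0)]⟩,⟨3,[(28,0),(0,2)]⟩⟩ ⟨true,0,⟨2,[(3,0),(0,0),(9,0),(15,0)]⟩,⟨11,
  [(1,3),(14,1),(11,0),(0,0),(1,11),(2,5),(1,3),(11,1)]⟩⟩,.e ⟨false,0,⟨14,[(0,8),(0,0),(8,1),(0,0),
  (0,1),(15,2),(6,1),(0,1)]⟩,⟨1,[(29,0),(18,0)]⟩⟩ ⟨false,0,⟨2,[(3,0),(0,0),(9,0),(15,0)]⟩,⟨0,[(31,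
  0),(2,0),(13,0)]⟩⟩,.o ⟨false,0,⟨2,[(10,0),(20,2),(4,0),(4,0)]⟩,⟨7,[(28,0),(0,0),(0,3),(10,1),(5,
  3)]⟩⟩]⟩))) (.R ⟨0,false,false,true,[1,-1,-1],[0,0,1],[1,1,1],(⟨0,[(20,0)]⟩,⟨0,[(38,0),(2,0)]⟩),
  (⟨0,[(38,0)]⟩,⟨0,[(37,0)]⟩),⟨0,[(0,0)]⟩,.k,.k,(.r (-2) ⟨5,[(19,1),(1,7),(4,0),(0,0)]⟩ ⟨0,[(8,0),
  (1,0),(33,2)]⟩),(.r (-1) ⟨0,[(2,0)]⟩ ⟨1,[(34,0),(0,0),(0,3),(7,1)]⟩),.k,.k,⟨true,0,⟨4,[(2,0),(5,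
  0),(0,1),(0,0),(22,1),(0,1)]⟩,⟨0,[(36,0)]⟩⟩,⟨false,2,⟨0,[(10,0),(13,0),(9,0),(9,0),(0,0)]⟩,⟨0,[(1,
  0)]⟩⟩,⟨false,(-1),⟨0,[(8,0),(1,0),(33,1)]⟩,⟨2,[(13,0),(7,1),(2,1),(21,0)]⟩⟩,⟨true,0,⟨0,[(10,0),
  (21,0),(11,1)]⟩,⟨0,[(1,0),(0,0)]⟩⟩,⟨false,0,⟨0,[]⟩,⟨0,[]⟩⟩,⟨false,0,⟨0,[]⟩,⟨0,[]⟩⟩,[.o ⟨false,0,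
  ⟨0,[(32,0)]⟩,⟨1,[(18,1),(20,0),(6,0)]⟩⟩,.a ⟨true,0,⟨0,[(10,0),(33,0)]⟩,⟨0,[(18,0)]⟩⟩ ⟨false,0,⟨0,
  []⟩,⟨3,[(26,0),(0,0),(17,1)]⟩⟩ ⟨true,1,⟨0,[(10,0),(23,0),(9,0),(0,0)]⟩,⟨0,[(8,0),(9,0)]⟩⟩,.o
  ⟨false,0,⟨0,[(31,0)]⟩,⟨0,[(34,0),(10,0)]⟩⟩,.o ⟨false,(-1),⟨0,[(8,0)]⟩,⟨1,[(24,1),(7,1),(12,0),(0,
  0)]⟩⟩]⟩))) (.I [0,0,2,3,-1] (.Q [0,-1,0,1,0,0,0,0,0,1] (.pp false [-1,1]) (.R ⟨1,false,false,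
  false,[1,-1],[0,1],[1,0,-1,-2],(⟨0,[(40,0)]⟩,⟨0,[(41,0)]⟩),(⟨0,[(41,0)]⟩,⟨0,[(40,0)]⟩),⟨1,[(3,0),
  (16,0),(19,0)]⟩,.k,.k,(.x 0 ⟨2,[(3,1),(4,1),(11,1),(5,0),(0,0),(6,1)]⟩ ⟨0,[(41,1),(3,0)]⟩),(.x 0
  ⟨2,[(3,1),(4,1),(11,1),(5,0),(0,0),(6,1)]⟩ ⟨0,[(41,1),(3,0)]⟩),(.r (-2) ⟨0,[(19,0),(1,0)]⟩ ⟨1,[(1,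
  1),(32,0),(0,0)]⟩),.k,⟨false,2,⟨0,[(19,0),(1,0)]⟩,⟨0,[(1,0)]⟩⟩,⟨true,1,⟨1,[(0,0),(9,0),(22,0),(11,
  1)]⟩,⟨0,[(8,0),(25,0)]⟩⟩,⟨false,1,⟨7,[(6,1),(7,1),(11,0),(0,0),(7,1),(10,3)]⟩,⟨0,[(44,0)]⟩⟩,
  ⟨false,0,⟨2,[(0,2),(0,0),(43,0)]⟩,⟨7,[(6,3),(7,3),(11,0),(0,0),(3,3),(7,1)]⟩⟩,⟨true,0,⟨0,[]⟩,⟨0,
  [(48,0)]⟩⟩,⟨false,0,⟨2,[(0,2),(0,1),(43,1)]⟩,⟨15,[(6,11),(7,11),(11,0),(0,0),(3,11),(7,1)]⟩⟩,[.o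
  ⟨false,0,⟨0,[(44,0)]⟩,⟨15,[(6,3),(7,3),(11,2),(0,2),(3,3),(7,5)]⟩⟩,.a ⟨true,0,⟨0,[(0,0)]⟩,⟨0,[(43,
  0)]⟩⟩ ⟨true,1,⟨0,[(11,0)]⟩,⟨0,[(1,0),(41,0)]⟩⟩ ⟨false,1,⟨0,[(0,0),(44,0)]⟩,⟨2,[(8,0),(25,0),(4,0),
  (3,2)]⟩⟩,.o ⟨false,0,⟨2,[(8,0),(25,0),(4,0)]⟩,⟨3,[(26,0),(0,0),(17,1)]⟩⟩,.o ⟨false,0,⟨11,[(8,7),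
  (17,2),(0,2),(6,7),(4,1)]⟩,⟨0,[(45,0)]⟩⟩]⟩) (.Q [0,-1,0,1,0,0,0,0,1,1,0,-1] (.p false [0,0,0,1]
  [1] (⟨0,[(29,0)]⟩,⟨1,[(28,0),(8,0),(0,0)]⟩) .k 1 (⟨0,[]⟩,⟨0,[]⟩) .k .k) (.Q [0,-1,0,0,0,0,0,0,1,1,
  0,-1] (.p false [0,0,0,1] [1] (⟨0,[(30,0)]⟩,⟨1,[(29,0),(8,0),(0,0)]⟩) .k 1 (⟨0,[]⟩,⟨0,[]⟩) .k .k)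
  (.R ⟨1,false,false,false,[1,0,0,-1],[0,1],[1,0,0,-1,0,0,0,0,-1],(⟨1,[(30,0),(8,0),(0,0)]⟩,⟨0,[(31,
  0)]⟩),(⟨0,[(43,0)]⟩,⟨0,[(42,0)]⟩),⟨3,[(5,0),(16,0),(7,1),(11,0)]⟩,.k,.k,(.r (-1) ⟨7,[(6,1),(1,1),
  (19,2),(16,1),(1,2)]⟩ ⟨10,[(0,0),(2,3),(6,0),(18,4),(1,0),(4,0),(8,0)]⟩),(.r (-1) ⟨7,[(6,1),(1,1),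
  (19,2),(16,1),(1,2)]⟩ ⟨10,[(0,0),(2,3),(6,0),(18,4),(1,0),(4,0),(8,0)]⟩),(.r (-2) ⟨11,[(21,7),(1,
  7),(4,6),(0,0)]⟩ ⟨0,[(0,0),(1,0),(0,0),(27,0)]⟩),.k,⟨true,1,⟨3,[(6,1),(1,1),(19,0),(16,1),(1,0)]⟩,
  ⟨0,[(0,0),(1,0),(0,0),(27,0)]⟩⟩,⟨false,1,⟨1,[(30,0),(8,0),(0,0),(6,1)]⟩,⟨2,[(10,0),(20,2),(4,0),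
  (4,0)]⟩⟩,⟨false,1,⟨7,[(8,1),(7,1),(11,0),(0,0),(7,1),(10,3)]⟩,⟨0,[(46,0)]⟩⟩,⟨false,0,⟨0,[(1,0)]⟩,
  ⟨16,[(6,0),(1,2),(0,0),(0,1),(2,0),(2,2),(11,7),(2,16),(9,6)]⟩⟩,⟨true,0,⟨0,[]⟩,⟨0,[(50,0)]⟩⟩,
  ⟨false,0,⟨2,[(1,2),(1,0),(43,0)]⟩,⟨33,[(6,3),(1,11),(0,3),(0,7),(2,3),(2,11),(11,14),(2,33),(9,
  10)]⟩⟩,[.o ⟨false,0,⟨0,[(46,0)]⟩,⟨15,[(8,3),(7,3),(11,2),(0,2),(3,3),(7,5)]⟩⟩,.o ⟨false,1,⟨11,[(3,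
  3),(24,2),(0,2),(17,3),(0,5)]⟩,⟨0,[(2,0)]⟩⟩,.a ⟨true,0,⟨0,[(31,0)]⟩,⟨1,[(30,0),(8,0),(0,0)]⟩⟩
  ⟨false,1,⟨1,[(13,0),(14,0),(15,0)]⟩,⟨2,[(1,2),(0,2),(0,0),(27,2),(15,0)]⟩⟩ ⟨true,0,⟨5,[(3,1),(26,
  2),(8,2),(0,2),(6,1)]⟩,⟨0,[(2,0),(28,0)]⟩⟩,.o ⟨false,0,⟨2,[(10,0),(20,2),(4,0),(4,0)]⟩,⟨7,[(28,0),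
  (0,0),(0,3),(10,1),(5,3)]⟩⟩]⟩) (.R ⟨2,true,false,true,[0,1],[1,0,0,-1],[1,1,1],(⟨0,[]⟩,⟨0,[]⟩),
  (⟨1,[(30,0),(8,0),(0,0)]⟩,⟨0,[(31,0)]⟩),⟨0,[]⟩,.k,.k,.k,(.r 0 ⟨8,[(1,0),(1,2),(6,0),(18,3),(1,0),
  (4,0),(8,0)]⟩ ⟨23,[(0,3),(5,1),(1,5),(3,1),(8,3),(6,8),(1,1),(4,1),(11,4)]⟩),.k,.k,⟨false,0,⟨0,
  [(1,0),(0,0),(28,0)]⟩,⟨1,[(28,0),(18,0)]⟩⟩,⟨true,0,⟨2,[(10,0),(20,2),(4,0),(4,0)]⟩,⟨1,[(30,0),(8,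
  0),(0,0)]⟩⟩,⟨true,0,⟨0,[(45,0)]⟩,⟨0,[(46,0)]⟩⟩,⟨false,1,⟨23,[(0,19),(7,3),(1,3),(2,3),(2,3),(11,
  6),(0,4),(1,3),(16,7)]⟩,⟨0,[(1,0)]⟩⟩,⟨false,0,⟨0,[]⟩,⟨3,[(28,0),(0,0),(18,1)]⟩⟩,⟨true,0,⟨0,[(0,
  0)]⟩,⟨0,[(1,0),(43,0)]⟩⟩,[]⟩)) (.I [0,1,-1,-1,0,0,0,0,-1] (.R ⟨1,false,false,false,[1,0,0,-1],[0,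
  1],[0,1,0,0,0,0,0,0,-1],(⟨1,[(30,0),(8,0),(0,0)]⟩,⟨0,[(31,0)]⟩),(⟨0,[(43,0)]⟩,⟨0,[(42,0)]⟩),⟨3,
  [(5,0),(16,0),(7,1),(11,0)]⟩,.k,.k,(.x 0 ⟨5,[(5,1),(4,1),(11,1),(5,0),(0,0),(6,1)]⟩ ⟨3,[(28,0),(0,
  0),(13,3),(3,1)]⟩),(.x 0 ⟨5,[(5,1),(4,1),(11,1),(5,0),(0,0),(6,1)]⟩ ⟨3,[(28,0),(0,0),(13,3),(3,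
  1)]⟩),(.r (-1) ⟨19,[(0,13),(7,7),(6,5),(5,1),(6,2),(18,0)]⟩ ⟨11,[(3,7),(24,0),(0,6),(6,3),(0,
  3)]⟩),.k,⟨true,0,⟨0,[(0,0)]⟩,⟨5,[(3,1),(6,0),(0,0),(0,0),(16,2),(14,4)]⟩⟩,⟨false,1,⟨1,[(30,0),(8,
  0),(0,0),(6,1)]⟩,⟨2,[(10,0),(20,2),(4,0),(4,0)]⟩⟩,⟨true,0,⟨0,[(50,0)]⟩,⟨0,[]⟩⟩,⟨false,1,⟨5,[(3,1),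
  (25,2),(0,2),(8,2),(0,2),(6,1),(0,2)]⟩,⟨2,[(0,2),(1,2),(1,1),(3,0),(2,3),(3,0),(15,2)]⟩⟩,⟨false,0,
  ⟨0,[(46,0)]⟩,⟨7,[(8,1),(7,1),(11,0),(0,0),(7,1),(10,3)]⟩⟩,⟨false,1,⟨5,[(3,3),(25,2),(0,2),(8,2),
  (0,2),(6,3),(0,2)]⟩,⟨0,[(0,0),(1,0),(1,0),(3,0),(2,0),(19,0)]⟩⟩,[.o ⟨false,0,⟨0,[(46,0)]⟩,⟨15,[(8,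
  3),(7,3),(11,2),(0,2),(3,3),(7,5)]⟩⟩,.o ⟨false,1,⟨11,[(3,3),(24,2),(0,2),(17,3),(0,5)]⟩,⟨0,[(2,
  0)]⟩⟩,.a ⟨true,0,⟨0,[(31,0)]⟩,⟨1,[(30,0),(8,0),(0,0)]⟩⟩ ⟨false,0,⟨15,[(0,8),(2,2),(2,4),(4,6),(3,
  1),(12,0)]⟩,⟨1,[(29,0),(18,0)]⟩⟩ ⟨true,0,⟨5,[(3,1),(26,2),(8,2),(0,2),(6,1)]⟩,⟨0,[(2,0),(28,0)]⟩⟩,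
  .o ⟨false,0,⟨2,[(10,0),(20,2),(4,0),(4,0)]⟩,⟨7,[(28,0),(0,0),(0,3),(10,1),(5,3)]⟩⟩]⟩) (.Q [0,-1,0,
  0,0,0,0,0,-1,0,0,1] (.p true [0,0,0,1] [] (⟨0,[(31,0)]⟩,⟨1,[(30,0),(8,0),(0,0)]⟩) .k 0 (⟨0,[]⟩,⟨0,
  []⟩) .k .k) (.R ⟨1,false,false,true,[1,0,0,-1],[1,-1],[0,1,0,0,0,0,0,0,-1],(⟨1,[(31,0),(8,0),(0,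
  0)]⟩,⟨0,[(32,0)]⟩),(⟨0,[(43,0)]⟩,⟨0,[(44,0)]⟩),⟨3,[(6,0),(16,0),(7,1),(11,0)]⟩,.k,.k,(.r (-1) ⟨13,
  [(0,1),(1,1),(19,3),(1,3),(4,4),(1,1),(16,0)]⟩ ⟨2,[(1,0),(2,0),(25,0),(15,0)]⟩),(.r 0 ⟨63,[(0,4),
  (1,0),(1,22),(6,5),(1,3),(15,28),(1,2),(4,3),(0,5)]⟩ ⟨3,[(1,1),(8,1),(2,1),(16,0),(17,2)]⟩),.k,.k,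
  ⟨false,0,⟨1,[(0,0),(1,0),(1,0),(26,0),(16,0)]⟩,⟨3,[(1,1),(8,1),(2,1),(16,0),(17,2)]⟩⟩,⟨true,0,⟨23,
  [(11,7),(17,2),(0,2),(0,11),(5,7),(4,1)]⟩,⟨0,[(32,0)]⟩⟩,⟨true,0,⟨0,[(51,0)]⟩,⟨0,[]⟩⟩,⟨false,1,⟨15,
  [(9,3),(7,3),(11,0),(0,8),(0,7),(2,3),(7,1)]⟩,⟨2,[(0,2),(3,0),(43,0)]⟩⟩,⟨false,0,⟨0,[(47,0)]⟩,⟨7,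
  [(9,1),(7,1),(11,0),(0,0),(7,1),(10,3)]⟩⟩,⟨false,1,⟨7,[(29,0),(0,4),(0,3),(10,1)]⟩,⟨0,[(0,0)]⟩⟩,
  [.o ⟨false,0,⟨0,[(3,0)]⟩,⟨11,[(4,3),(24,2),(0,2),(17,3),(0,5)]⟩⟩,.o ⟨false,1,⟨15,[(9,3),(7,3),(11,
  2),(0,2),(3,3),(7,5)]⟩,⟨0,[(47,0)]⟩⟩,.a ⟨true,0,⟨0,[(32,0)]⟩,⟨1,[(31,0),(8,0),(0,0)]⟩⟩ ⟨false,0,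
  ⟨5,[(0,2),(1,2),(1,0),(26,2),(16,0)]⟩,⟨1,[(30,0),(18,0)]⟩⟩ ⟨true,0,⟨3,[(17,0),(1,1),(11,1),(3,
  0)]⟩,⟨2,[(4,0),(27,2),(15,0)]⟩⟩,.o ⟨false,0,⟨0,[(1,0),(0,0)]⟩,⟨7,[(29,0),(0,0),(0,3),(10,1),(5,
  3)]⟩⟩]⟩) (.I [0,0,0,0,0,0,0,0,-1] (.R ⟨1,false,false,false,[1,0,0,-1],[1,-1],[0,0,0,0,0,0,0,0,-1],
  (⟨1,[(32,0),(8,0),(0,0)]⟩,⟨0,[(33,0)]⟩),(⟨0,[(44,0)]⟩,⟨0,[(45,0)]⟩),⟨3,[(7,0),(16,0),(7,1),(11,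
  0)]⟩,.k,.k,(.r (-1) ⟨2,[(0,0),(22,0),(1,0),(4,0)]⟩ ⟨2,[(2,0),(2,0),(25,0),(15,0)]⟩),(.r 0 ⟨19,[(0,
  1),(4,6),(6,1),(0,0),(0,1),(15,8),(6,0),(0,0)]⟩ ⟨7,[(1,1),(8,1),(12,1),(7,2),(1,1),(15,0)]⟩),.k,
  .k,⟨false,0,⟨2,[(0,2),(4,0),(43,0)]⟩,⟨7,[(1,1),(8,1),(12,1),(7,2),(1,1),(15,0)]⟩⟩,⟨true,0,⟨23,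
  [(12,7),(17,2),(0,2),(0,11),(5,7),(4,1)]⟩,⟨0,[(33,0)]⟩⟩,⟨false,1,⟨3,[(30,0),(0,0),(18,1)]⟩,⟨0,
  []⟩⟩,⟨false,1,⟨45,[(1,1),(0,21),(7,3),(1,3),(2,25),(2,3),(12,10),(0,21),(10,8)]⟩,⟨2,[(0,2),(4,0),
  (27,2),(15,0)]⟩⟩,⟨true,0,⟨0,[(48,0)]⟩,⟨0,[(47,0)]⟩⟩,⟨false,1,⟨15,[(2,5),(7,1),(6,1),(13,4),(0,7),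
  (10,3),(6,2)]⟩,⟨0,[(0,0),(32,0)]⟩⟩,[.o ⟨false,1,⟨15,[(10,3),(7,3),(11,2),(0,2),(3,3),(7,5)]⟩,⟨0,
  [(48,0)]⟩⟩,.o ⟨false,1,⟨11,[(10,1),(1,1),(2,1),(2,1),(24,4),(6,4)]⟩,⟨2,[(5,0),(43,0),(2,2)]⟩⟩,.a
  ⟨true,0,⟨0,[(33,0)]⟩,⟨1,[(32,0),(8,0),(0,0)]⟩⟩ ⟨true,0,⟨0,[(0,0)]⟩,⟨0,[(1,0),(31,0)]⟩⟩ ⟨false,1,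
  ⟨23,[(10,3),(1,3),(2,3),(2,3),(11,2),(0,2),(0,11),(10,3),(6,9)]⟩,⟨2,[(5,0),(27,2),(15,0)]⟩⟩,.o
  ⟨false,0,⟨0,[(2,0),(0,0)]⟩,⟨7,[(30,0),(0,0),(0,3),(10,1),(5,3)]⟩⟩]⟩) (.Q [0,0,0,0,0,0,0,0,-1,0,0,
  1] (.p true [0,0,0,1] [] (⟨0,[(33,0)]⟩,⟨1,[(32,0),(8,0),(0,0)]⟩) .k 0 (⟨0,[]⟩,⟨0,[]⟩) .k .k) (.R
  ⟨2,false,false,false,[0,1],[1,0,0,-1],[1,1,1],(⟨0,[]⟩,⟨0,[]⟩),(⟨1,[(33,0),(8,0),(0,0)]⟩,⟨0,[(34,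
  0)]⟩),⟨0,[]⟩,.k,.k,.k,(.r 0 ⟨11,[(1,0),(1,0),(2,3),(6,0),(1,0),(16,4),(5,0),(0,0)]⟩ ⟨7,[(0,0),(3,
  0),(6,0),(12,1),(1,0),(4,2),(1,0),(16,0)]⟩),.k,.k,⟨false,0,⟨0,[(1,0),(51,0)]⟩,⟨17,[(0,5),(3,5),(1,
  1),(7,11),(3,11),(12,2),(1,5),(16,4)]⟩⟩,⟨true,0,⟨0,[(3,0),(0,0)]⟩,⟨1,[(33,0),(8,0),(0,0)]⟩⟩,⟨true,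
  0,⟨0,[(48,0)]⟩,⟨0,[(49,0)]⟩⟩,⟨false,1,⟨0,[(4,0),(46,0)]⟩,⟨5,[(1,5),(4,1),(26,2),(8,2),(0,2),(6,
  1)]⟩⟩,⟨false,0,⟨0,[]⟩,⟨3,[(31,0),(0,0),(18,1)]⟩⟩,⟨false,1,⟨1,[(0,1),(43,0),(6,0)]⟩,⟨1,[(1,1),(31,
  0),(8,0),(0,0)]⟩⟩,[.a ⟨true,0,⟨0,[(0,0)]⟩,⟨1,[(1,1),(31,0),(8,0),(0,0)]⟩⟩ ⟨false,0,⟨0,[(53,0)]⟩,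
  ⟨1,[(50,0),(0,0)]⟩⟩ ⟨true,0,⟨6,[(0,0),(3,5),(1,1),(6,0),(25,0),(11,2)]⟩,⟨1,[(1,1),(31,0),(8,0),(0,
  0)]⟩⟩,.o ⟨false,1,⟨1,[(0,1),(43,0),(6,0)]⟩,⟨0,[(2,0)]⟩⟩,.o ⟨false,1,⟨3,[(31,0),(0,0),(17,1)]⟩,⟨2,
  [(13,0),(25,0),(4,0)]⟩⟩,.e ⟨false,0,⟨0,[]⟩,⟨3,[(31,0),(0,0),(18,1)]⟩⟩ ⟨false,1,⟨1,[(0,1),(43,0),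
  (6,0)]⟩,⟨1,[(1,1),(31,0),(8,0),(0,0)]⟩⟩]⟩) (.R ⟨1,false,false,true,[1,0,0,-1],[0,0,0,1],[0,1,0,0,
  0,0,0,0,-1],(⟨1,[(33,0),(8,0),(0,0)]⟩,⟨0,[(34,0)]⟩),(⟨0,[(34,0)]⟩,⟨1,[(33,0),(8,0),(0,0)]⟩),⟨3,
  [(8,0),(16,0),(7,1),(11,0)]⟩,.k,.k,(.r (-1) ⟨27,[(4,3),(4,1),(1,5),(3,1),(8,3),(6,10),(1,1),(4,1),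
  (11,6)]⟩ ⟨11,[(1,0),(1,0),(2,3),(6,0),(1,0),(16,4),(5,0),(0,0)]⟩),.k,(.r (-1) ⟨1,[(4,1),(4,1),(4,
  1),(18,0),(8,0),(0,0),(6,1)]⟩ ⟨11,[(1,12),(1,0),(2,3),(6,0),(1,0),(16,4),(5,0),(0,0)]⟩),.k,⟨false,
  1,⟨5,[(4,5),(1,1),(2,5),(4,5),(18,2),(8,2),(0,2),(6,7)]⟩,⟨0,[(1,1)]⟩⟩,⟨true,0,⟨0,[(33,0)]⟩,⟨0,[(3,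
  0),(0,0),(29,0)]⟩⟩,⟨true,0,⟨0,[(53,0)]⟩,⟨0,[]⟩⟩,⟨false,0,⟨0,[(1,1),(31,0)]⟩,⟨11,[(4,11),(1,3),(2,
  1),(4,11),(3,9),(12,4),(2,11),(16,0)]⟩⟩,⟨false,0,⟨0,[(49,0)]⟩,⟨7,[(11,1),(7,1),(11,0),(0,0),(7,1),
  (10,3)]⟩⟩,⟨false,0,⟨2,[(1,5),(4,0),(26,2),(16,0)]⟩,⟨3,[(4,3),(4,1),(4,3),(3,1),(12,0),(2,3),(16,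
  0)]⟩⟩,[.o ⟨false,0,⟨0,[(2,0)]⟩,⟨2,[(4,2),(1,0),(43,0),(0,2)]⟩⟩,.o ⟨false,0,⟨0,[(0,0)]⟩,⟨1,[(31,0),
  (2,1),(9,0)]⟩⟩,.a ⟨true,0,⟨0,[(34,0)]⟩,⟨1,[(33,0),(8,0),(0,0)]⟩⟩ ⟨true,0,⟨5,[(4,5),(1,1),(26,2),
  (8,2),(0,2),(6,1)]⟩,⟨0,[(1,0)]⟩⟩ ⟨false,0,⟨0,[(1,0),(31,0)]⟩,⟨2,[(4,2),(1,0),(27,2),(15,0),(0,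
  2)]⟩⟩,.o ⟨false,0,⟨0,[(3,0),(0,0)]⟩,⟨7,[(31,0),(0,0),(0,3),(10,1),(5,3)]⟩⟩]⟩))))))) (.I [1,0,1,0,
  0,0,0,0,1] (.I [0,-1,0,0,0,0,0,0,-1] (.R ⟨1,false,false,true,[1,0,0,-1],[1,-1],[0,0,0,0,0,0,0,0,
  -1],(⟨1,[(29,0),(8,0),(0,0)]⟩,⟨0,[(30,0)]⟩),(⟨0,[(41,0)]⟩,⟨0,[(42,0)]⟩),⟨3,[(4,0),(16,0),(7,1),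
  (11,0)]⟩,.k,.k,(.r (-1) ⟨5,[(2,1),(24,2),(18,0)]⟩ ⟨0,[(1,0),(43,0)]⟩),(.r 0 ⟨2,[(0,0),(2,0),(6,1),
  (16,0),(21,2)]⟩ ⟨5,[(2,1),(25,2),(17,0)]⟩),.k,.k,⟨false,0,⟨0,[(0,0),(44,0)]⟩,⟨5,[(2,1),(25,2),(17,
  0),(2,5)]⟩⟩,⟨true,0,⟨23,[(9,7),(17,2),(0,2),(0,11),(5,7),(4,1)]⟩,⟨0,[(30,0)]⟩⟩,⟨false,1,⟨3,[(27,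
  0),(0,0),(18,1)]⟩,⟨0,[]⟩⟩,⟨false,1,⟨15,[(7,3),(7,3),(11,0),(0,8),(0,7),(2,3),(7,1)]⟩,⟨0,[(0,0),
  (29,0),(14,0)]⟩⟩,⟨true,0,⟨0,[(45,0)]⟩,⟨0,[(44,0)]⟩⟩,⟨false,1,⟨7,[(27,0),(0,4),(0,3),(10,1)]⟩,⟨0,
  [(0,0),(29,0)]⟩⟩,[.e ⟨true,0,⟨0,[(0,0),(48,0)]⟩,⟨0,[(1,0)]⟩⟩ ⟨true,0,⟨3,[(15,0),(1,1),(11,1),(3,
  0)]⟩,⟨11,[(3,3),(6,7),(16,0),(0,0),(1,11),(16,1)]⟩⟩,.o ⟨false,1,⟨15,[(7,3),(7,3),(11,2),(0,2),(3,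
  3),(7,5)]⟩,⟨0,[(45,0)]⟩⟩,.a ⟨true,0,⟨0,[(30,0)]⟩,⟨1,[(29,0),(8,0),(0,0)]⟩⟩ ⟨false,0,⟨0,[(0,0)]⟩,
  ⟨3,[(27,0),(0,2)]⟩⟩ ⟨true,0,⟨3,[(15,0),(1,1),(11,1),(3,0)]⟩,⟨0,[(30,0),(14,0)]⟩⟩,.o ⟨false,0,⟨2,
  [(9,0),(20,2),(4,0),(4,0)]⟩,⟨7,[(27,0),(0,0),(0,3),(10,1),(5,3)]⟩⟩]⟩) (.I [1,1,-1,-1,0,0,0,1,-1]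
  (.R ⟨1,false,false,false,[1,0,0,-1],[1,-1],[0,0,0,0,0,0,0,0,-1],(⟨1,[(30,0),(8,0),(0,0)]⟩,⟨0,[(31,
  0)]⟩),(⟨0,[(42,0)]⟩,⟨0,[(43,0)]⟩),⟨3,[(5,0),(16,0),(7,1),(11,0)]⟩,.k,.k,(.r (-1) ⟨5,[(3,1),(24,2),
  (18,0)]⟩ ⟨2,[(1,0),(2,0),(6,1),(17,0),(20,0)]⟩),(.r 0 ⟨2,[(0,0),(3,0),(6,2),(16,0),(21,1)]⟩ ⟨5,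
  [(3,1),(25,2),(17,0)]⟩),.k,.k,⟨false,0,⟨0,[(0,0),(10,0),(34,0)]⟩,⟨5,[(3,1),(25,2),(17,0)]⟩⟩,⟨true,
  0,⟨23,[(10,7),(17,2),(0,2),(0,11),(5,7),(4,1)]⟩,⟨0,[(31,0)]⟩⟩,⟨false,1,⟨3,[(28,0),(0,0),(18,1)]⟩,
  ⟨0,[]⟩⟩,⟨false,1,⟨17,[(8,5),(1,6),(0,2),(3,8),(13,8),(0,8),(5,6),(4,0)]⟩,⟨0,[(0,0),(10,0),(19,0),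
  (14,0)]⟩⟩,⟨true,0,⟨0,[(46,0)]⟩,⟨0,[(45,0)]⟩⟩,⟨false,1,⟨5,[(10,0),(0,2),(3,2),(13,2),(0,2),(5,0),
  (4,0)]⟩,⟨0,[(0,0),(10,0),(19,0)]⟩⟩,[.o ⟨false,1,⟨15,[(8,3),(7,3),(11,2),(0,2),(3,3),(7,5)]⟩,⟨0,
  [(46,0)]⟩⟩,.o ⟨false,1,⟨11,[(8,1),(1,1),(2,1),(2,1),(24,4),(6,4)]⟩,⟨0,[(46,0),(3,0)]⟩⟩,.a ⟨true,0,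
  ⟨0,[(31,0)]⟩,⟨1,[(30,0),(8,0),(0,0)]⟩⟩ ⟨true,0,⟨0,[(0,0),(10,0)]⟩,⟨0,[(1,0)]⟩⟩ ⟨false,1,⟨23,[(8,
  3),(1,3),(2,3),(2,3),(11,2),(0,2),(0,11),(10,3),(6,9)]⟩,⟨0,[(31,0),(14,0)]⟩⟩,.o ⟨false,0,⟨2,[(10,
  0),(20,2),(4,0),(4,0)]⟩,⟨7,[(28,0),(0,0),(0,3),(10,1),(5,3)]⟩⟩]⟩) (.I [0,1,2,2,-1,0,0,-1,1] (.R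
  ⟨1,false,false,true,[1,0,0,-1],[1,1,-1],[1,0,0,-1,0,0,0,0,-1],(⟨1,[(31,0),(8,0),(0,0)]⟩,⟨0,[(32,
  0)]⟩),(⟨0,[(40,0),(3,0)]⟩,⟨0,[(20,0)]⟩),⟨3,[(6,0),(16,0),(7,1),(11,0)]⟩,.k,.k,(.r (-1) ⟨5,[(4,1),
  (24,2),(18,0)]⟩ ⟨19,[(0,7),(4,3),(23,0),(0,6),(18,3)]⟩),(.r (-1) ⟨11,[(18,3),(3,3),(6,6),(0,0)]⟩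
  ⟨19,[(0,7),(0,7),(22,3),(4,0),(0,2)]⟩),(.r (-1) ⟨2,[(4,0),(2,2),(40,1)]⟩ ⟨3,[(0,3),(28,0),(0,0),
  (18,1)]⟩),.k,⟨true,1,⟨7,[(7,5),(6,3),(1,1),(12,0),(19,0)]⟩,⟨0,[(0,0)]⟩⟩,⟨false,1,⟨1,[(28,0),(2,0),
  (16,1)]⟩,⟨0,[(32,0),(4,0)]⟩⟩,⟨false,1,⟨7,[(9,1),(7,1),(11,0),(0,0),(7,1),(10,3)]⟩,⟨0,[(47,0)]⟩⟩,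
  ⟨false,0,⟨2,[(0,1),(0,0),(2,0),(10,2),(0,0),(1,0)]⟩,⟨3,[(7,1),(8,1),(12,0),(2,3),(4,3),(11,0)]⟩⟩,
  ⟨true,0,⟨0,[]⟩,⟨0,[(51,0)]⟩⟩,⟨false,0,⟨0,[(0,0),(14,0),(0,0)]⟩,⟨7,[(7,5),(1,1),(6,1),(0,1),(11,0),
  (2,7),(4,5),(11,2)]⟩⟩,[.o ⟨false,0,⟨0,[(33,0),(13,0)]⟩,⟨1,[(17,0),(17,0),(13,1)]⟩⟩,.a ⟨true,0,⟨0,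
  [(21,0),(25,0)]⟩,⟨0,[(13,0)]⟩⟩ ⟨false,1,⟨2,[(7,2),(1,0),(2,1),(35,1)]⟩,⟨9,[(0,3),(1,3),(2,1),(24,
  0),(17,4),(2,1)]⟩⟩ ⟨true,0,⟨0,[(15,0)]⟩,⟨10,[(5,1),(5,0),(1,0),(3,5),(14,10),(4,5),(0,0),(10,
  2)]⟩⟩,.e ⟨false,1,⟨1,[(14,0),(14,0),(15,0)]⟩,⟨0,[(0,0),(15,0)]⟩⟩ ⟨false,0,⟨0,[(15,0)]⟩,⟨1,[(17,0),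
  (14,1),(2,0),(13,1)]⟩⟩,.o ⟨false,0,⟨2,[(11,0),(20,2),(4,0),(4,0)]⟩,⟨7,[(29,0),(0,0),(0,3),(10,1),
  (5,3)]⟩⟩]⟩) (.I [1,0,0,0,0,0,0,0,1] (.Q [0,0,0,0,0,0,0,0,-1,0,0,1] (.p true [0,0,0,1] [] (⟨0,[(33,
  0)]⟩,⟨1,[(32,0),(8,0),(0,0)]⟩) .k 0 (⟨0,[]⟩,⟨0,[]⟩) .k .k) (.R ⟨2,false,false,false,[0,1],[1,0,0,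
  -1],[1,1,1],(⟨0,[]⟩,⟨0,[]⟩),(⟨1,[(33,0),(8,0),(0,0)]⟩,⟨0,[(34,0)]⟩),⟨0,[]⟩,.k,.k,.k,(.r 0 ⟨11,[(3,
  7),(3,3),(23,0),(0,2),(20,7)]⟩ ⟨5,[(6,1),(24,2),(18,0)]⟩),.k,.k,⟨false,0,⟨0,[(4,0)]⟩,⟨3,[(2,1),
  (11,1),(16,0),(17,1),(0,0)]⟩⟩,⟨true,0,⟨2,[(13,0),(20,2),(4,0),(4,0)]⟩,⟨1,[(33,0),(8,0),(0,0)]⟩⟩,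
  ⟨true,0,⟨0,[(48,0)]⟩,⟨0,[(49,0)]⟩⟩,⟨false,1,⟨11,[(0,11),(10,1),(1,1),(2,1),(2,1),(24,4),(6,4)]⟩,
  ⟨1,[(1,1),(31,0),(8,0),(0,0),(5,1)]⟩⟩,⟨false,0,⟨0,[]⟩,⟨3,[(31,0),(0,0),(18,1)]⟩⟩,⟨false,1,⟨1,[(0,
  1),(43,0),(6,0)]⟩,⟨1,[(1,1),(31,0),(8,0),(0,0)]⟩⟩,[.a ⟨true,0,⟨0,[(0,0)]⟩,⟨1,[(1,1),(31,0),(8,0),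
  (0,0)]⟩⟩ ⟨false,0,⟨0,[(53,0)]⟩,⟨1,[(50,0),(0,0)]⟩⟩ ⟨true,0,⟨2,[(0,2),(12,0),(25,0),(4,0)]⟩,⟨1,[(1,
  1),(31,0),(8,0),(0,0)]⟩⟩,.o ⟨false,1,⟨1,[(0,1),(43,0),(6,0)]⟩,⟨1,[(1,1),(31,0),(1,0),(1,0)]⟩⟩,.o
  ⟨false,1,⟨3,[(31,0),(0,0),(17,1)]⟩,⟨2,[(13,0),(25,0),(4,0)]⟩⟩,.e ⟨false,0,⟨0,[]⟩,⟨3,[(31,0),(0,0),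
  (18,1)]⟩⟩ ⟨false,1,⟨1,[(0,1),(43,0),(6,0)]⟩,⟨1,[(1,1),(31,0),(8,0),(0,0)]⟩⟩]⟩) (.I [0,1,0,0,0,0,0,
  0,-1] (.R ⟨1,false,false,true,[1,0,0,-1],[0,0,0,1],[0,1,0,0,0,0,0,0,-1],(⟨1,[(34,0),(8,0),(0,0)]⟩,
  ⟨0,[(35,0)]⟩),(⟨0,[(35,0)]⟩,⟨1,[(34,0),(8,0),(0,0)]⟩),⟨3,[(9,0),(16,0),(7,1),(11,0)]⟩,.k,.k,(.r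
  (-1) ⟨5,[(7,1),(24,2),(18,0)]⟩ ⟨11,[(4,7),(3,3),(23,0),(0,2),(20,7)]⟩),.k,(.r (-1) ⟨8,[(0,8),(2,
  4),(8,0),(2,2),(14,0),(1,1)]⟩ ⟨2,[(4,1),(0,1),(2,0),(24,0)]⟩),.k,⟨false,1,⟨3,[(0,3),(2,1),(11,1),
  (16,0),(17,1),(0,0)]⟩,⟨0,[(2,1)]⟩⟩,⟨true,0,⟨0,[(34,0)]⟩,⟨2,[(14,0),(20,5),(4,0),(4,0)]⟩⟩,⟨true,0,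
  ⟨0,[(54,0)]⟩,⟨0,[]⟩⟩,⟨false,0,⟨0,[(2,1),(31,0)]⟩,⟨2,[(0,2),(2,2),(10,0),(0,2),(19,5),(4,0),(4,0),
  (4,2)]⟩⟩,⟨false,0,⟨0,[(50,0)]⟩,⟨7,[(12,1),(7,1),(11,0),(0,0),(7,1),(10,3)]⟩⟩,⟨false,0,⟨0,[(2,1),
  (31,0),(15,0)]⟩,⟨2,[(0,2),(2,2),(10,0),(0,2),(19,5),(4,0),(4,0)]⟩⟩,[.o ⟨false,0,⟨3,[(1,1),(3,1),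
  (28,0),(1,0),(1,0)]⟩,⟨13,[(0,1),(2,5),(4,1),(6,9),(16,2),(2,13),(9,6)]⟩⟩,.o ⟨false,0,⟨0,[(1,0)]⟩,
  ⟨1,[(32,0),(2,1),(9,0)]⟩⟩,.a ⟨true,0,⟨0,[(35,0)]⟩,⟨1,[(34,0),(8,0),(0,0)]⟩⟩ ⟨true,0,⟨0,[(0,0)]⟩,
  ⟨0,[(2,0)]⟩⟩ ⟨false,0,⟨0,[(2,0),(31,0)]⟩,⟨13,[(0,1),(2,5),(4,1),(6,9),(16,2),(2,27),(9,6)]⟩⟩,.o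
  ⟨false,0,⟨2,[(14,0),(20,2),(4,0),(4,0)]⟩,⟨7,[(32,0),(0,0),(0,3),(10,1),(5,3)]⟩⟩]⟩) (.Q [0,0,0,-1,
  0,0,1,1,0,1,-1,-1] (.p false [0,0,1] [1,0,0,-1] (⟨0,[(44,0)]⟩,⟨0,[(43,0)]⟩) .k 2 (⟨1,[(34,0),(8,
  0),(0,0)]⟩,⟨0,[(35,0)]⟩) .k (.r 0 ⟨3,[(2,1),(5,0),(12,0),(11,0)]⟩ ⟨3,[(15,0),(11,0),(2,0),(1,1),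
  (6,0),(0,0)]⟩)) (.I [0,1,-1,0,0,0,0,1,1] (.R ⟨1,false,false,true,[1,0,0,-1],[0,-1,1],[1,0,0,-1,0,
  0,0,0,-1],(⟨1,[(36,0),(8,0),(0,0)]⟩,⟨0,[(37,0)]⟩),(⟨0,[(25,0)]⟩,⟨0,[(45,0),(3,0)]⟩),⟨3,[(11,0),
  (16,0),(7,1),(11,0)]⟩,.k,.k,(.r (-1) ⟨5,[(9,1),(24,2),(18,0)]⟩ ⟨11,[(6,7),(3,3),(23,0),(0,2),(20,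
  7)]⟩),(.x (-1) ⟨7,[(13,3),(20,2),(0,2),(13,3),(3,1)]⟩ ⟨1,[(11,0),(30,1),(3,0)]⟩),.k,.k,⟨false,1,
  ⟨8,[(5,0),(8,1),(2,5),(14,1),(1,3)]⟩,⟨0,[(0,0)]⟩⟩,⟨true,0,⟨1,[(36,0),(5,1),(2,0),(0,0)]⟩,⟨0,[(31,
  0),(5,0)]⟩⟩,⟨false,1,⟨7,[(14,1),(7,1),(11,0),(0,0),(7,1),(10,3)]⟩,⟨0,[(52,0)]⟩⟩,⟨false,0,⟨0,[(1,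
  0),(2,0)]⟩,⟨1,[(17,1),(13,1),(2,0),(2,1),(15,0)]⟩⟩,⟨true,0,⟨0,[]⟩,⟨0,[(56,0)]⟩⟩,⟨false,0,⟨1,[(0,
  0),(0,1),(4,0),(45,0)]⟩,⟨8,[(5,0),(8,1),(2,5),(13,8),(0,1),(1,3),(2,8)]⟩⟩,[.o ⟨false,0,⟨0,[(30,
  0)]⟩,⟨3,[(17,1),(14,1),(0,1),(13,0),(4,1),(1,0)]⟩⟩,.a ⟨true,0,⟨0,[(18,0)]⟩,⟨0,[(26,0),(25,0)]⟩⟩
  ⟨false,1,⟨8,[(5,4),(8,0),(2,2),(14,0),(1,1)]⟩,⟨0,[(7,0),(44,0)]⟩⟩ ⟨true,0,⟨0,[(1,0)]⟩,⟨1,[(17,0),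
  (19,1),(0,0),(0,0),(12,0)]⟩⟩,.e ⟨false,1,⟨1,[(19,0),(14,0),(15,0)]⟩,⟨1,[(0,0),(5,0),(45,0)]⟩⟩
  ⟨false,0,⟨0,[(1,0)]⟩,⟨3,[(17,1),(14,1),(0,1),(3,3),(9,0),(4,1),(1,0)]⟩⟩,.o ⟨false,0,⟨2,[(16,0),
  (20,2),(4,0),(4,0)]⟩,⟨7,[(34,0),(0,0),(0,3),(10,1),(5,3)]⟩⟩]⟩) (.Q [0,1,0,0,0,0,0,0,-1,0,0,1] (.p
  true [0,0,0,1] [] (⟨0,[(37,0)]⟩,⟨1,[(36,0),(8,0),(0,0)]⟩) .k 0 (⟨0,[]⟩,⟨0,[]⟩) .k .k) (.K ⟨1,[0,0,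
  0,1],0,0,(⟨0,[(38,0)]⟩,⟨1,[(37,0),(8,0),(0,0)]⟩),.k,(.r (-1) ⟨5,[(10,1),(25,2),(17,0)]⟩ ⟨2,[(0,0),
  (10,0),(6,0),(2,0),(13,0),(7,0)]⟩),(.r 0 ⟨11,[(7,7),(3,3),(23,0),(0,2),(20,7)]⟩ ⟨5,[(10,1),(24,2),
  (18,0)]⟩),.k,.k,[⟨1,[(38,1),(4,0),(0,0)]⟩,⟨23,[(17,7),(17,2),(0,2),(0,11),(5,7),(4,1)]⟩,⟨0,[(0,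
  0)]⟩,⟨1,[(3,1),(33,0),(8,0),(0,0)]⟩]⟩) (.Q [0,1,0,-1,0,0,0,0,0,-1,0,1] (.p true [0,0,0,1] [1] (⟨0,
  [(38,0)]⟩,⟨1,[(37,0),(8,0),(0,0)]⟩) .k 1 (⟨0,[]⟩,⟨0,[]⟩) .k .k) (.Q [0,0,0,0,0,1,0,0,0,0,0,-1]
  (.p false [0,0,0,1] [] (⟨0,[(39,0)]⟩,⟨1,[(38,0),(8,0),(0,0)]⟩) .k 0 (⟨0,[]⟩,⟨0,[]⟩) .k .k) (.R ⟨0,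
  false,false,true,[0,0,0,1],[1,-1],[1,0,0,0,0,0,0,0,1],(⟨0,[(40,0)]⟩,⟨1,[(39,0),(8,0),(0,0)]⟩),(⟨0,
  [(51,0)]⟩,⟨0,[(52,0)]⟩),⟨0,[(0,0)]⟩,.k,.k,(.r (-1) ⟨5,[(12,1),(25,2),(17,0)]⟩ ⟨2,[(3,0),(9,0),(6,
  0),(16,0),(17,0),(3,1)]⟩),(.r 0 ⟨11,[(9,7),(3,3),(23,0),(0,2),(20,7)]⟩ ⟨5,[(12,1),(24,2),(18,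
  0)]⟩),.k,.k,⟨false,0,⟨0,[(5,0),(49,0)]⟩,⟨5,[(12,1),(24,2),(18,0),(2,5)]⟩⟩,⟨true,0,⟨2,[(19,0),(20,
  2),(4,0),(4,0)]⟩,⟨1,[(39,0),(8,0),(0,0)]⟩⟩,⟨true,0,⟨0,[]⟩,⟨0,[(59,0)]⟩⟩,⟨false,1,⟨1,[(1,1),(35,0),
  (19,0)]⟩,⟨1,[(5,1),(33,0),(8,0),(0,0),(5,1)]⟩⟩,⟨false,0,⟨0,[]⟩,⟨0,[]⟩⟩,⟨false,0,⟨0,[]⟩,⟨0,[]⟩⟩,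
  [.e ⟨true,0,⟨0,[(7,0)]⟩,⟨5,[(3,1),(9,0),(5,0),(1,0),(15,1),(6,0),(0,0),(13,0)]⟩⟩ ⟨true,0,⟨0,[(1,
  0)]⟩,⟨5,[(9,1),(3,1),(6,1),(16,0),(1,2),(8,2),(0,2),(7,0)]⟩⟩,.o ⟨false,1,⟨15,[(17,3),(7,3),(11,2),
  (0,2),(3,3),(7,5)]⟩,⟨0,[(55,0)]⟩⟩,.a ⟨true,0,⟨1,[(39,0),(8,0),(0,0)]⟩,⟨0,[(40,0)]⟩⟩ ⟨false,0,⟨0,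
  [(5,0)]⟩,⟨3,[(37,2),(0,0)]⟩⟩ ⟨true,0,⟨0,[(1,0)]⟩,⟨1,[(39,0),(8,0),(0,0),(5,1)]⟩⟩,.o ⟨false,0,⟨23,
  [(19,7),(17,2),(0,2),(0,11),(5,7),(4,1)]⟩,⟨1,[(40,1),(9,0),(5,0)]⟩⟩]⟩) (.R ⟨1,false,false,true,[0,
  0,0,1],[1,-1],[1,1,0,-1,0,0,0,0,1],(⟨0,[(40,0)]⟩,⟨1,[(39,0),(8,0),(0,0)]⟩),(⟨0,[(51,0)]⟩,⟨0,[(52,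
  0)]⟩),⟨0,[(0,0)]⟩,.k,.k,(.r (-1) ⟨5,[(12,1),(25,2),(17,0)]⟩ ⟨2,[(3,0),(9,0),(6,0),(16,0),(17,0),
  (3,1)]⟩),(.r 0 ⟨11,[(9,7),(3,3),(23,0),(0,2),(20,7)]⟩ ⟨5,[(12,1),(24,2),(18,0)]⟩),.k,.k,⟨false,0,
  ⟨0,[(7,0)]⟩,⟨1,[(37,0),(18,0)]⟩⟩,⟨true,0,⟨2,[(19,0),(20,2),(4,0),(4,0)]⟩,⟨1,[(39,0),(8,0),(0,
  0)]⟩⟩,⟨true,0,⟨0,[(54,0)]⟩,⟨0,[(55,0)]⟩⟩,⟨false,1,⟨1,[(1,1),(35,0),(19,0)]⟩,⟨1,[(5,1),(33,0),(8,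
  0),(0,0),(5,1)]⟩⟩,⟨false,0,⟨0,[]⟩,⟨3,[(37,0),(0,0),(18,1)]⟩⟩,⟨false,1,⟨1,[(37,0),(2,1),(9,0)]⟩,⟨1,
  [(5,1),(33,0),(8,0),(0,0)]⟩⟩,[.e ⟨true,0,⟨2,[(7,0),(2,1),(7,0),(2,0)]⟩,⟨7,[(3,3),(9,2),(6,2),(3,
  0),(12,1),(17,2)]⟩⟩ ⟨true,0,⟨0,[(1,0)]⟩,⟨5,[(9,1),(3,1),(6,1),(16,0),(1,2),(8,2),(0,2),(7,0)]⟩⟩,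
  .o ⟨false,1,⟨15,[(17,3),(7,3),(11,2),(0,2),(3,3),(7,5)]⟩,⟨0,[(55,0)]⟩⟩,.a ⟨true,0,⟨1,[(39,0),(8,
  0),(0,0)]⟩,⟨0,[(40,0)]⟩⟩ ⟨false,0,⟨2,[(5,0),(1,1),(10,0),(2,0)]⟩,⟨1,[(37,0),(17,1),(1,0)]⟩⟩ ⟨true,
  0,⟨0,[(1,0)]⟩,⟨1,[(39,0),(8,0),(0,0),(5,1)]⟩⟩,.o ⟨false,0,⟨23,[(19,7),(17,2),(0,2),(0,11),(5,7),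
  (4,1)]⟩,⟨1,[(40,1),(9,0),(5,0)]⟩⟩]⟩)) (.I [0,0,2,2,-1,0,0,0,1] (.R ⟨1,false,false,false,[1,0,0,
  -1],[0,1],[1,0,0,-1,0,0,0,0,-1],(⟨2,[(1,0),(19,0),(17,0),(4,0)]⟩,⟨0,[(40,0)]⟩),(⟨0,[(52,0)]⟩,⟨0,
  [(51,0)]⟩),⟨3,[(14,0),(16,0),(7,1),(11,0)]⟩,.k,.k,(.r (-1) ⟨5,[(12,1),(24,2),(18,0)]⟩ ⟨7,[(0,3),
  (36,0),(0,2)]⟩),(.r (-1) ⟨5,[(12,1),(24,2),(18,0)]⟩ ⟨7,[(0,3),(36,0),(0,2)]⟩),(.r (-2) ⟨11,[(30,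
  7),(1,7),(4,6),(0,0)]⟩ ⟨0,[(0,0)]⟩),.k,⟨true,1,⟨8,[(12,3),(2,0),(1,0),(0,0),(2,0),(15,3)]⟩,⟨0,[(0,
  0)]⟩⟩,⟨false,1,⟨2,[(1,0),(19,0),(17,0),(4,0),(11,2)]⟩,⟨2,[(19,0),(20,2),(4,0),(4,0)]⟩⟩,⟨false,1,
  ⟨7,[(17,1),(7,1),(11,0),(0,0),(7,1),(10,3)]⟩,⟨0,[(55,0)]⟩⟩,⟨false,0,⟨0,[(1,0),(5,0)]⟩,⟨71,[(8,1),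
  (8,11),(0,3),(0,9),(2,3),(2,13),(11,34),(2,71),(9,28)]⟩⟩,⟨true,0,⟨0,[]⟩,⟨0,[(59,0)]⟩⟩,⟨false,0,⟨1,
  [(0,0),(0,1),(5,0),(48,0)]⟩,⟨35,[(8,1),(8,11),(0,3),(0,9),(2,3),(2,13),(11,16),(2,35),(9,10)]⟩⟩,
  [.o ⟨false,0,⟨0,[(55,0)]⟩,⟨15,[(17,3),(7,3),(11,2),(0,2),(3,3),(7,5)]⟩⟩,.a ⟨true,0,⟨0,[(1,0),(38,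
  0)]⟩,⟨0,[(54,0)]⟩⟩ ⟨false,1,⟨7,[(3,1),(4,3),(26,1),(1,0),(19,0)]⟩,⟨1,[(0,0),(9,0),(45,0),(2,0)]⟩⟩
  ⟨true,0,⟨0,[(1,0)]⟩,⟨2,[(19,0),(20,2),(4,0),(4,0),(3,2)]⟩⟩,.e ⟨false,1,⟨1,[(22,0),(14,0),(15,0)]⟩,
  ⟨1,[(0,0),(6,0),(48,0)]⟩⟩ ⟨false,0,⟨0,[(1,0)]⟩,⟨15,[(17,3),(7,3),(11,2),(0,2),(1,15),(1,3),(7,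
  5)]⟩⟩,.o ⟨false,0,⟨2,[(19,0),(20,2),(4,0),(4,0)]⟩,⟨7,[(37,0),(0,0),(0,3),(10,1),(5,3)]⟩⟩]⟩) (.Q
  [0,1,0,1,0,0,0,0,-1,0,0,1] (.p true [0,0,0,1] [] (⟨0,[(40,0)]⟩,⟨2,[(1,0),(19,0),(17,0),(4,0)]⟩)
  .k 0 (⟨0,[]⟩,⟨0,[]⟩) .k .k) (.R ⟨1,false,false,false,[1,0,0,-1],[1,-1],[0,1],(⟨2,[(2,0),(19,0),
  (17,0),(4,0)]⟩,⟨0,[(41,0)]⟩),(⟨0,[(52,0)]⟩,⟨0,[(53,0)]⟩),⟨3,[(15,0),(16,0),(7,1),(11,0)]⟩,.k,.k,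
  (.r (-1) ⟨4,[(1,0),(29,0),(1,0),(4,1)]⟩ ⟨20,[(0,5),(9,10),(0,1),(2,3),(5,2),(18,6),(0,2),(3,2)]⟩),
  (.r 0 ⟨29,[(0,11),(13,5),(5,3),(0,11),(16,8),(1,5),(5,3),(4,0)]⟩ ⟨5,[(13,1),(25,2),(17,0)]⟩),.k,
  .k,⟨false,0,⟨2,[(0,0),(10,0),(12,0),(19,0),(11,0)]⟩,⟨3,[(23,0),(1,0),(7,0),(24,0)]⟩⟩,⟨true,0,⟨23,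
  [(20,7),(17,2),(0,2),(0,11),(5,7),(4,1)]⟩,⟨0,[(41,0)]⟩⟩,⟨false,0,⟨1,[(3,1),(11,0),(3,0),(6,0),(5,
  0),(8,1),(11,2),(2,3)]⟩,⟨1,[(38,0),(19,0)]⟩⟩,⟨true,0,⟨2,[(3,1),(1,0),(5,0),(7,0)]⟩,⟨0,[(0,0)]⟩⟩,
  ⟨false,0,⟨0,[(8,0),(47,0)]⟩,⟨1,[(23,0),(14,0),(15,0)]⟩⟩,⟨false,0,⟨0,[(3,0)]⟩,⟨3,[(38,2),(0,0),(1,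
  3)]⟩⟩,[.o ⟨false,1,⟨15,[(18,3),(7,3),(11,2),(0,2),(3,3),(7,5)]⟩,⟨0,[(56,0)]⟩⟩,.o ⟨false,1,⟨11,
  [(18,1),(1,1),(2,1),(2,1),(24,4),(6,4)]⟩,⟨2,[(0,0),(10,0),(12,0),(19,0),(11,0)]⟩⟩,.a ⟨true,0,⟨0,
  [(41,0)]⟩,⟨2,[(2,0),(19,0),(17,0),(4,0)]⟩⟩ ⟨true,0,⟨0,[(60,0)]⟩,⟨0,[]⟩⟩ ⟨false,1,⟨11,[(5,3),(12,
  3),(19,0),(0,0),(0,3),(2,3),(7,1),(6,3)]⟩,⟨0,[(0,0),(5,0)]⟩⟩,.o ⟨false,0,⟨2,[(20,0),(20,2),(4,0),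
  (4,0)]⟩,⟨7,[(38,0),(0,0),(0,3),(10,1),(5,3)]⟩⟩]⟩) (.Q [0,0,0,0,0,2,0,0,0,-1,1] (.p true [0,0,1]
  [1] (⟨0,[(50,0)]⟩,⟨0,[(49,0)]⟩) .k 1 (⟨0,[]⟩,⟨0,[]⟩) .k .k) (.R ⟨0,false,false,true,[1,-1,-1],[1,
  -1],[],(⟨0,[(33,0)]⟩,⟨0,[(51,0),(2,0)]⟩),(⟨0,[(53,0)]⟩,⟨0,[(54,0)]⟩),⟨0,[(0,0)]⟩,.k,.k,(.r (-2)
  ⟨5,[(32,1),(1,7),(4,0),(0,0)]⟩ ⟨0,[(15,0),(6,0),(38,0)]⟩),.k,.k,.k,⟨true,0,⟨5,[(11,1),(3,1),(6,1),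
  (16,0),(19,0)]⟩,⟨0,[(56,0)]⟩⟩,⟨false,1,⟨0,[(47,0),(10,0)]⟩,⟨4,[(18,0),(19,0),(9,0),(2,1),(1,0)]⟩⟩,
  ⟨false,0,⟨11,[(11,3),(3,7),(23,2),(0,0),(18,3)]⟩,⟨0,[(34,0)]⟩⟩,⟨true,0,⟨0,[(45,0)]⟩,⟨0,[(31,0)]⟩⟩,
  ⟨false,0,⟨0,[]⟩,⟨0,[]⟩⟩,⟨false,0,⟨0,[]⟩,⟨0,[]⟩⟩,[.a ⟨true,0,⟨0,[(56,0)]⟩,⟨0,[(3,0),(38,0)]⟩⟩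
  ⟨false,1,⟨3,[(39,0),(0,0),(17,1)]⟩,⟨0,[]⟩⟩ ⟨true,1,⟨0,[(34,0),(10,0)]⟩,⟨0,[(3,0),(17,0),(20,0)]⟩⟩,
  .o ⟨false,1,⟨15,[(19,3),(7,3),(11,2),(0,2),(3,3),(7,5)]⟩,⟨0,[(57,0)]⟩⟩,.o ⟨false,0,⟨0,[(44,0)]⟩,
  ⟨0,[(47,0),(10,0)]⟩⟩,.o ⟨false,(-1),⟨0,[(21,0)]⟩,⟨1,[(37,1),(7,1),(12,0),(0,0)]⟩⟩]⟩) (.Q [0,0,0,0,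
  0,1,0,0,0,0,0,-1] (.p false [0,0,0,1] [] (⟨0,[(42,0)]⟩,⟨2,[(3,0),(19,0),(17,0),(4,0)]⟩) .k 0 (⟨0,
  []⟩,⟨0,[]⟩) .k .k) (.R ⟨0,false,false,true,[0,0,0,1],[1,-1],[1,0,0,0,0,0,0,0,1],(⟨0,[(43,0)]⟩,⟨2,
  [(4,0),(19,0),(17,0),(4,0)]⟩),(⟨0,[(54,0)]⟩,⟨0,[(55,0)]⟩),⟨0,[(0,0)]⟩,.k,.k,(.r (-1) ⟨5,[(15,1),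
  (25,2),(17,0)]⟩ ⟨2,[(6,0),(9,0),(6,0),(16,0),(17,0),(3,1)]⟩),(.r 0 ⟨11,[(12,7),(3,3),(23,0),(0,2),
  (20,7)]⟩ ⟨4,[(3,0),(29,0),(1,0),(4,1)]⟩),.k,.k,⟨false,0,⟨0,[(8,0),(49,0)]⟩,⟨4,[(3,0),(29,0),(1,0),
  (4,1),(21,4)]⟩⟩,⟨true,0,⟨2,[(22,0),(20,2),(4,0),(4,0)]⟩,⟨2,[(4,0),(19,0),(17,0),(4,0)]⟩⟩,⟨true,0,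
  ⟨0,[]⟩,⟨0,[(62,0)]⟩⟩,⟨false,1,⟨71,[(11,1),(8,11),(0,3),(0,9),(2,3),(2,13),(11,34),(2,71),(9,28)]⟩,
  ⟨0,[(4,0),(5,0)]⟩⟩,⟨false,0,⟨0,[]⟩,⟨0,[]⟩⟩,⟨false,0,⟨0,[]⟩,⟨0,[]⟩⟩,[.a ⟨true,0,⟨0,[(57,0)]⟩,⟨0,
  [(4,0),(38,0)]⟩⟩ ⟨true,0,⟨0,[(10,0)]⟩,⟨5,[(6,1),(9,0),(5,0),(1,0),(15,1),(6,0),(0,0),(13,0)]⟩⟩
  ⟨false,1,⟨5,[(15,1),(27,5),(9,2),(5,0),(2,5)]⟩,⟨0,[(4,0)]⟩⟩,.o ⟨false,1,⟨15,[(20,3),(7,3),(11,2),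
  (0,2),(3,3),(7,5)]⟩,⟨0,[(58,0)]⟩⟩,.e ⟨false,0,⟨0,[(8,0)]⟩,⟨3,[(40,2),(0,0)]⟩⟩ ⟨false,1,⟨15,[(20,
  3),(7,3),(11,2),(0,2),(1,15),(1,3),(7,5)]⟩,⟨0,[(4,0)]⟩⟩,.o ⟨false,0,⟨23,[(22,7),(17,2),(0,2),(0,
  11),(5,7),(4,1)]⟩,⟨1,[(43,1),(9,0),(5,0)]⟩⟩]⟩) (.R ⟨1,false,false,true,[0,0,0,1],[1,-1],[1,0,0,-1,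
  0,0,0,0,1],(⟨0,[(43,0)]⟩,⟨2,[(4,0),(19,0),(17,0),(4,0)]⟩),(⟨0,[(54,0)]⟩,⟨0,[(55,0)]⟩),⟨0,[(0,0)]⟩,
  .k,.k,(.r (-1) ⟨5,[(15,1),(25,2),(17,0)]⟩ ⟨2,[(6,0),(9,0),(6,0),(16,0),(17,0),(3,1)]⟩),(.r 0 ⟨11,
  [(12,7),(3,3),(23,0),(0,2),(20,7)]⟩ ⟨4,[(3,0),(29,0),(1,0),(4,1)]⟩),.k,.k,⟨false,0,⟨0,[(8,0)]⟩,⟨1,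
  [(40,0),(18,0),(2,1)]⟩⟩,⟨true,0,⟨2,[(22,0),(20,2),(4,0),(4,0)]⟩,⟨2,[(4,0),(19,0),(17,0),(4,0)]⟩⟩,
  ⟨false,1,⟨7,[(20,1),(7,1),(11,0),(0,0),(7,1),(10,3)]⟩,⟨0,[(58,0)]⟩⟩,⟨false,1,⟨71,[(11,1),(8,11),
  (0,3),(0,9),(2,3),(2,13),(11,34),(2,71),(9,28)]⟩,⟨0,[(4,0),(5,0)]⟩⟩,⟨true,0,⟨0,[]⟩,⟨0,[(62,0)]⟩⟩,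
  ⟨false,1,⟨1,[(40,0),(2,1),(9,0)]⟩,⟨2,[(4,0),(3,1),(1,0),(13,0),(7,0),(9,0)]⟩⟩,[.a ⟨true,0,⟨0,[(57,
  0)]⟩,⟨0,[(4,0),(38,0)]⟩⟩ ⟨true,0,⟨2,[(8,0),(1,1),(10,0),(2,0)]⟩,⟨2,[(6,0),(9,0),(6,0),(16,0),(17,
  0),(3,1)]⟩⟩ ⟨false,1,⟨5,[(15,1),(27,5),(9,2),(5,0),(2,5)]⟩,⟨0,[(4,0)]⟩⟩,.o ⟨false,1,⟨15,[(20,3),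
  (7,3),(11,2),(0,2),(3,3),(7,5)]⟩,⟨0,[(58,0)]⟩⟩,.e ⟨false,0,⟨0,[(2,0),(40,0)]⟩,⟨3,[(40,2),(0,0),
  (16,3)]⟩⟩ ⟨false,1,⟨15,[(20,3),(7,3),(11,2),(0,2),(1,15),(1,3),(7,5)]⟩,⟨0,[(4,0)]⟩⟩,.o ⟨false,0,
  ⟨23,[(22,7),(17,2),(0,2),(0,11),(5,7),(4,1)]⟩,⟨1,[(43,1),(9,0),(5,0)]⟩⟩]⟩)))))))) (.I [0,1,-1,0,0,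
  0,0,1,1] (.R ⟨1,false,false,true,[1,0,0,-1],[0,-1,1],[1,0,0,-1,0,0,0,0,-1],(⟨1,[(36,0),(8,0),(0,
  0)]⟩,⟨0,[(37,0)]⟩),(⟨0,[(25,0)]⟩,⟨0,[(45,0),(3,0)]⟩),⟨3,[(11,0),(16,0),(7,1),(11,0)]⟩,.k,.k,(.r
  (-1) ⟨5,[(9,1),(24,2),(18,0)]⟩ ⟨11,[(6,7),(3,3),(23,0),(0,2),(20,7)]⟩),(.x (-1) ⟨7,[(13,3),(20,2),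
  (0,2),(13,3),(3,1)]⟩ ⟨1,[(11,0),(30,1),(3,0)]⟩),.k,.k,⟨false,1,⟨8,[(5,0),(8,1),(2,5),(14,1),(1,
  3)]⟩,⟨0,[(0,0)]⟩⟩,⟨true,0,⟨1,[(36,0),(5,1),(2,0),(0,0)]⟩,⟨4,[(1,2),(14,0),(6,0),(3,0),(9,1),(1,
  0)]⟩⟩,⟨false,1,⟨7,[(14,1),(7,1),(11,0),(0,0),(7,1),(10,3)]⟩,⟨0,[(52,0)]⟩⟩,⟨false,0,⟨0,[(3,0),(14,
  0)]⟩,⟨1,[(1,1),(32,0),(19,0)]⟩⟩,⟨true,0,⟨0,[]⟩,⟨0,[(56,0)]⟩⟩,⟨false,0,⟨3,[(0,0),(1,1),(3,0),(11,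
  1),(17,1),(3,1),(11,0)]⟩,⟨9,[(1,7),(12,1),(1,1),(2,1),(14,4),(2,1),(16,2)]⟩⟩,[.o ⟨false,0,⟨0,[(30,
  0)]⟩,⟨7,[(1,3),(18,3),(13,0),(0,0),(11,1),(6,3)]⟩⟩,.e ⟨false,1,⟨8,[(5,4),(8,0),(2,2),(14,0),(1,
  1)]⟩,⟨0,[(7,0),(44,0)]⟩⟩ ⟨false,1,⟨19,[(18,9),(2,7),(7,1),(2,3),(1,2),(0,2),(0,9),(3,7),(1,1)]⟩,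
  ⟨0,[(1,0)]⟩⟩,.a ⟨true,0,⟨0,[(37,0)]⟩,⟨1,[(36,0),(8,0),(0,0)]⟩⟩ ⟨false,1,⟨1,[(19,0),(14,0),(15,
  0)]⟩,⟨1,[(0,0),(5,0),(45,0)]⟩⟩ ⟨true,0,⟨3,[(18,1),(3,0),(13,1),(3,0),(15,1)]⟩,⟨0,[(1,0)]⟩⟩,.o
  ⟨false,0,⟨2,[(16,0),(20,2),(4,0),(4,0)]⟩,⟨7,[(34,0),(0,0),(0,3),(10,1),(5,3)]⟩⟩]⟩) (.I [0,0,2,2,
  -1,0,0,0,1] (.R ⟨1,false,false,false,[1,0,0,-1],[0,1],[1,0,0,-1,0,0,0,0,-1],(⟨1,[(37,0),(8,0),(0,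
  0)]⟩,⟨0,[(38,0)]⟩),(⟨0,[(50,0)]⟩,⟨0,[(49,0)]⟩),⟨3,[(12,0),(16,0),(7,1),(11,0)]⟩,.k,.k,(.r (-1) ⟨5,
  [(10,1),(24,2),(18,0)]⟩ ⟨7,[(0,3),(34,0),(0,2)]⟩),(.r (-1) ⟨5,[(10,1),(24,2),(18,0)]⟩ ⟨7,[(0,3),
  (34,0),(0,2)]⟩),(.r (-2) ⟨11,[(28,7),(1,7),(4,6),(0,0)]⟩ ⟨0,[(0,0)]⟩),.k,⟨true,1,⟨8,[(10,3),(2,0),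
  (1,0),(0,0),(2,0),(15,3)]⟩,⟨0,[(0,0)]⟩⟩,⟨false,1,⟨1,[(37,0),(8,0),(0,0),(6,1)]⟩,⟨2,[(17,0),(20,2),
  (4,0),(4,0)]⟩⟩,⟨false,1,⟨7,[(15,1),(7,1),(11,0),(0,0),(7,1),(10,3)]⟩,⟨0,[(53,0)]⟩⟩,⟨false,0,⟨1,
  [(3,1),(33,0),(8,0),(0,0),(5,1)]⟩,⟨71,[(6,1),(8,11),(0,3),(0,9),(2,3),(2,13),(11,34),(2,71),(9,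
  28)]⟩⟩,⟨true,0,⟨0,[]⟩,⟨0,[(57,0)]⟩⟩,⟨false,0,⟨1,[(3,1),(33,0),(8,0),(0,0),(5,3)]⟩,⟨35,[(6,1),(8,
  11),(0,3),(0,9),(2,3),(2,13),(11,16),(2,35),(9,10)]⟩⟩,[.o ⟨false,0,⟨0,[(53,0)]⟩,⟨15,[(15,3),(7,3),
  (11,2),(0,2),(3,3),(7,5)]⟩⟩,.e ⟨false,1,⟨7,[(1,1),(4,3),(26,1),(1,0),(19,0)]⟩,⟨1,[(0,0),(7,0),(45,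
  0),(2,0)]⟩⟩ ⟨false,1,⟨1,[(37,0),(8,0),(0,0),(5,1),(0,0),(0,0)]⟩,⟨0,[(2,0),(20,0)]⟩⟩,.a ⟨true,0,⟨0,
  [(38,0)]⟩,⟨1,[(37,0),(8,0),(0,0)]⟩⟩ ⟨false,1,⟨1,[(20,0),(14,0),(15,0)]⟩,⟨1,[(0,0),(4,0),(48,0)]⟩⟩
  ⟨true,0,⟨1,[(37,0),(8,0),(0,0),(5,1)]⟩,⟨0,[(2,0),(20,0)]⟩⟩,.o ⟨false,0,⟨2,[(17,0),(20,2),(4,0),(4,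
  0)]⟩,⟨7,[(35,0),(0,0),(0,3),(10,1),(5,3)]⟩⟩]⟩) (.Q [0,0,0,0,0,-1,0,0,0,0,0,1] (.p true [0,0,0,1]
  [] (⟨0,[(38,0)]⟩,⟨1,[(37,0),(8,0),(0,0)]⟩) .k 0 (⟨0,[]⟩,⟨0,[]⟩) .k .k) (.R ⟨1,false,false,true,[0,
  0,0,1],[1,-1],[0,1,0,0,0,0,0,0,1],(⟨0,[(39,0)]⟩,⟨1,[(38,0),(8,0),(0,0)]⟩),(⟨0,[(50,0)]⟩,⟨0,[(51,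
  0)]⟩),⟨0,[(0,0)]⟩,.k,.k,(.r (-1) ⟨5,[(11,1),(25,2),(17,0)]⟩ ⟨2,[(2,0),(9,0),(6,0),(16,0),(17,0),
  (3,1)]⟩),(.r 0 ⟨11,[(8,7),(3,3),(23,0),(0,2),(20,7)]⟩ ⟨4,[(1,0),(27,0),(1,0),(4,1)]⟩),.k,.k,
  ⟨false,0,⟨0,[(6,0),(47,0)]⟩,⟨4,[(1,0),(27,0),(1,0),(4,1)]⟩⟩,⟨true,0,⟨2,[(18,0),(20,2),(4,0),(4,
  0)]⟩,⟨1,[(38,0),(8,0),(0,0)]⟩⟩,⟨true,0,⟨0,[(58,0)]⟩,⟨0,[]⟩⟩,⟨false,1,⟨71,[(7,1),(8,11),(0,3),(0,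
  9),(2,3),(2,13),(11,34),(2,71),(9,28)]⟩,⟨1,[(4,1),(33,0),(8,0),(0,0),(5,1)]⟩⟩,⟨false,0,⟨0,[(54,
  0)]⟩,⟨7,[(16,1),(7,1),(11,0),(0,0),(7,1),(10,3)]⟩⟩,⟨false,1,⟨1,[(36,0),(2,1),(9,0)]⟩,⟨1,[(4,1),
  (33,0),(8,0),(0,0)]⟩⟩,[.e ⟨true,0,⟨0,[(4,0),(8,0),(3,0),(6,0),(5,0),(20,2),(2,3)]⟩,⟨9,[(2,5),(9,
  1),(1,1),(21,0),(15,1),(3,0)]⟩⟩ ⟨true,0,⟨0,[(3,0),(20,0)]⟩,⟨5,[(8,1),(3,1),(6,1),(16,0),(1,2),(8,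
  2),(0,2),(7,0)]⟩⟩,.o ⟨false,1,⟨15,[(16,3),(7,3),(11,2),(0,2),(3,3),(7,5)]⟩,⟨0,[(54,0)]⟩⟩,.a ⟨true,
  0,⟨1,[(38,0),(8,0),(0,0)]⟩,⟨0,[(39,0)]⟩⟩ ⟨false,0,⟨1,[(4,1),(8,0),(3,0),(6,0),(5,0),(20,2),(2,
  3)]⟩,⟨1,[(36,0),(19,0)]⟩⟩ ⟨true,0,⟨0,[(3,0),(20,0)]⟩,⟨1,[(38,0),(8,0),(0,0),(5,1)]⟩⟩,.o ⟨false,0,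
  ⟨23,[(18,7),(17,2),(0,2),(0,11),(5,7),(4,1)]⟩,⟨1,[(39,1),(9,0),(5,0)]⟩⟩]⟩) (.R ⟨0,false,false,
  true,[0,0,0,1],[1,-1],[1,0,0,0,0,0,0,0,1],(⟨0,[(39,0)]⟩,⟨1,[(38,0),(8,0),(0,0)]⟩),(⟨0,[(50,0)]⟩,
  ⟨0,[(51,0)]⟩),⟨0,[(0,0)]⟩,.k,.k,(.r (-1) ⟨5,[(11,1),(25,2),(17,0)]⟩ ⟨2,[(2,0),(9,0),(6,0),(16,0),
  (17,0),(3,1)]⟩),(.r 0 ⟨11,[(8,7),(3,3),(23,0),(0,2),(20,7)]⟩ ⟨4,[(1,0),(27,0),(1,0),(4,1)]⟩),.k,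
  .k,⟨false,0,⟨0,[(4,0),(49,0)]⟩,⟨4,[(1,0),(27,0),(1,0),(4,1),(21,4)]⟩⟩,⟨true,0,⟨2,[(18,0),(20,2),
  (4,0),(4,0)]⟩,⟨1,[(38,0),(8,0),(0,0)]⟩⟩,⟨true,0,⟨0,[]⟩,⟨0,[(58,0)]⟩⟩,⟨false,1,⟨71,[(7,1),(8,11),
  (0,3),(0,9),(2,3),(2,13),(11,34),(2,71),(9,28)]⟩,⟨1,[(4,1),(33,0),(8,0),(0,0),(5,1)]⟩⟩,⟨false,0,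
  ⟨0,[]⟩,⟨0,[]⟩⟩,⟨false,0,⟨0,[]⟩,⟨0,[]⟩⟩,[.e ⟨true,0,⟨0,[(6,0)]⟩,⟨5,[(2,1),(9,0),(5,0),(1,0),(15,1),
  (6,0),(0,0),(13,0)]⟩⟩ ⟨true,0,⟨0,[(3,0),(20,0)]⟩,⟨5,[(8,1),(3,1),(6,1),(16,0),(1,2),(8,2),(0,2),
  (7,0)]⟩⟩,.o ⟨false,1,⟨15,[(16,3),(7,3),(11,2),(0,2),(3,3),(7,5)]⟩,⟨0,[(54,0)]⟩⟩,.a ⟨true,0,⟨1,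
  [(38,0),(8,0),(0,0)]⟩,⟨0,[(39,0)]⟩⟩ ⟨false,0,⟨0,[(4,0)]⟩,⟨3,[(36,2),(0,0)]⟩⟩ ⟨true,0,⟨0,[(3,0),
  (20,0)]⟩,⟨1,[(38,0),(8,0),(0,0),(5,1)]⟩⟩,.o ⟨false,0,⟨23,[(18,7),(17,2),(0,2),(0,11),(5,7),(4,
  1)]⟩,⟨1,[(39,1),(9,0),(5,0)]⟩⟩]⟩))))))) (.R ⟨1,false,false,false,[1,0,0,-1],[1,-1],[0,0,0,0,0,0,0,
  0,-1],(⟨1,[(32,0),(8,0),(0,0)]⟩,⟨0,[(33,0)]⟩),(⟨0,[(44,0)]⟩,⟨0,[(45,0)]⟩),⟨3,[(7,0),(16,0),(7,1),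
  (11,0)]⟩,.k,.k,(.r (-1) ⟨5,[(5,1),(24,2),(18,0)]⟩ ⟨11,[(2,7),(3,3),(23,0),(0,2),(20,7)]⟩),(.r 0
  ⟨2,[(0,0),(5,0),(6,1),(16,0),(21,1)]⟩ ⟨5,[(5,1),(25,2),(17,0)]⟩),.k,.k,⟨false,0,⟨0,[(0,0),(47,
  0)]⟩,⟨5,[(5,1),(25,2),(17,0)]⟩⟩,⟨true,0,⟨23,[(12,7),(17,2),(0,2),(0,11),(5,7),(4,1)]⟩,⟨0,[(33,
  0)]⟩⟩,⟨false,1,⟨3,[(30,0),(0,0),(18,1)]⟩,⟨0,[]⟩⟩,⟨false,1,⟨15,[(2,5),(9,1),(2,7),(2,1),(0,1),(11,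
  4),(0,7),(10,2),(6,1)]⟩,⟨0,[(0,0),(32,0),(14,0)]⟩⟩,⟨true,0,⟨0,[(48,0)]⟩,⟨0,[(47,0)]⟩⟩,⟨false,1,
  ⟨31,[(2,9),(12,1),(1,1),(1,3),(11,10),(0,15),(10,7),(6,8)]⟩,⟨0,[(0,0),(32,0)]⟩⟩,[.o ⟨false,1,⟨15,
  [(10,3),(7,3),(11,2),(0,2),(3,3),(7,5)]⟩,⟨0,[(48,0)]⟩⟩,.o ⟨false,1,⟨11,[(10,1),(1,1),(2,1),(2,1),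
  (24,4),(6,4)]⟩,⟨0,[(48,0),(3,0)]⟩⟩,.a ⟨true,0,⟨0,[(33,0)]⟩,⟨1,[(32,0),(8,0),(0,0)]⟩⟩ ⟨true,0,⟨0,
  [(0,0)]⟩,⟨0,[(3,0)]⟩⟩ ⟨false,1,⟨23,[(10,3),(1,3),(2,3),(2,3),(11,2),(0,2),(0,11),(10,3),(6,9)]⟩,
  ⟨0,[(33,0),(14,0)]⟩⟩,.o ⟨false,0,⟨2,[(12,0),(20,2),(4,0),(4,0)]⟩,⟨7,[(30,0),(0,0),(0,3),(10,1),(5,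
  3)]⟩⟩]⟩))))) (.Q [0,0,0,0,0,-1,0,0,0,0,0,1] (.p true [0,0,0,1] [] (⟨0,[(29,0)]⟩,⟨1,[(28,0),(8,0),
  (0,0)]⟩) .k 0 (⟨0,[]⟩,⟨0,[]⟩) .k .k) (.R ⟨1,false,false,false,[0,0,0,1],[0,1],[0,1,0,0,0,0,0,0,1],
  (⟨0,[(30,0)]⟩,⟨1,[(29,0),(8,0),(0,0)]⟩),(⟨0,[(42,0)]⟩,⟨0,[(41,0)]⟩),⟨0,[(0,0)]⟩,.k,.k,(.r (-1) ⟨5,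
  [(2,1),(25,2),(17,0)]⟩ ⟨4,[(1,0),(1,1),(6,2),(16,1),(6,0),(0,0),(13,1)]⟩),(.r (-1) ⟨5,[(2,1),(25,
  2),(17,0)]⟩ ⟨4,[(1,0),(1,1),(6,2),(16,1),(6,0),(0,0),(13,1)]⟩),(.r (-2) ⟨11,[(20,7),(1,7),(4,0),
  (0,6)]⟩ ⟨0,[(1,0),(1,0),(6,0),(23,0),(0,0)]⟩),.k,⟨true,1,⟨5,[(2,1),(25,2),(17,0),(2,5)]⟩,⟨4,[(1,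
  4),(1,1),(5,2),(0,5),(0,2),(22,0),(0,0)]⟩⟩,⟨false,1,⟨0,[(30,0),(15,0)]⟩,⟨23,[(9,7),(17,2),(0,2),
  (0,11),(5,7),(4,1)]⟩⟩,⟨true,0,⟨0,[(49,0)]⟩,⟨0,[]⟩⟩,⟨false,0,⟨13,[(1,11),(1,3),(6,7),(16,0),(2,13),
  (14,1),(1,2)]⟩,⟨15,[(7,3),(7,3),(11,0),(0,8),(0,7),(2,3),(7,1)]⟩⟩,⟨false,0,⟨0,[(45,0)]⟩,⟨7,[(7,1),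
  (7,1),(11,0),(0,0),(7,1),(10,3)]⟩⟩,⟨false,0,⟨13,[(1,11),(1,3),(6,7),(16,0),(2,13),(14,15),(1,2)]⟩,
  ⟨1,[(7,0),(7,0),(12,0),(0,0),(2,0)]⟩⟩,[.o ⟨false,0,⟨0,[(45,0)]⟩,⟨15,[(7,3),(7,3),(11,2),(0,2),(3,
  3),(7,5)]⟩⟩,.e ⟨false,1,⟨1,[(28,0),(17,0)]⟩,⟨24,[(1,14),(1,0),(5,3),(0,2),(0,3),(15,4),(6,2),(0,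
  2)]⟩⟩ ⟨false,1,⟨1,[(30,1),(14,1),(0,0),(0,0)]⟩,⟨3,[(15,0),(1,1),(11,1),(3,0)]⟩⟩,.a ⟨true,0,⟨1,
  [(29,0),(8,0),(0,0)]⟩,⟨0,[(30,0)]⟩⟩ ⟨false,1,⟨3,[(27,0),(0,2)]⟩,⟨0,[(1,0),(41,0)]⟩⟩ ⟨true,0,⟨0,
  [(30,0),(14,0)]⟩,⟨3,[(15,0),(1,1),(11,1),(3,0)]⟩⟩,.o ⟨false,0,⟨23,[(9,7),(17,2),(0,2),(0,11),(5,
  7),(4,1)]⟩,⟨1,[(30,1),(9,0),(5,0)]⟩⟩]⟩) (.R ⟨0,false,false,false,[0,0,0,1],[0,1],[0,1,0,-1,0,0,0,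
  0,1],(⟨0,[(30,0)]⟩,⟨1,[(29,0),(8,0),(0,0)]⟩),(⟨0,[(42,0)]⟩,⟨0,[(41,0)]⟩),⟨0,[(0,0)]⟩,.k,.k,(.r
  (-1) ⟨5,[(2,1),(25,2),(17,0)]⟩ ⟨4,[(1,0),(1,1),(6,2),(16,1),(6,0),(0,0),(13,1)]⟩),(.r (-1) ⟨5,[(2,
  1),(25,2),(17,0)]⟩ ⟨4,[(1,0),(1,1),(6,2),(16,1),(6,0),(0,0),(13,1)]⟩),.k,.k,⟨true,1,⟨1,[(2,0),(25,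
  0),(15,0),(4,0)]⟩,⟨4,[(1,4),(1,3),(5,0),(0,6),(0,0),(22,1),(0,1)]⟩⟩,⟨false,1,⟨0,[(30,0),(15,0)]⟩,
  ⟨23,[(9,7),(17,2),(0,2),(0,11),(5,7),(4,1)]⟩⟩,⟨true,0,⟨0,[(44,0)]⟩,⟨0,[(45,0)]⟩⟩,⟨false,0,⟨13,[(1,
  11),(1,3),(6,7),(16,0),(2,13),(14,1),(1,2)]⟩,⟨15,[(7,3),(7,3),(11,0),(0,8),(0,7),(2,3),(7,1)]⟩⟩,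
  ⟨false,0,⟨0,[]⟩,⟨0,[]⟩⟩,⟨false,0,⟨0,[]⟩,⟨0,[]⟩⟩,[.o ⟨false,0,⟨0,[(45,0)]⟩,⟨15,[(7,3),(7,3),(11,2),
  (0,2),(3,3),(7,5)]⟩⟩,.e ⟨false,1,⟨5,[(2,1),(25,2),(17,0)]⟩,⟨4,[(1,2),(1,0),(6,1),(16,0),(17,1),(3,
  1)]⟩⟩ ⟨false,1,⟨1,[(30,1),(14,1),(0,0),(0,0)]⟩,⟨3,[(15,0),(1,1),(11,1),(3,0)]⟩⟩,.a ⟨true,0,⟨1,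
  [(29,0),(8,0),(0,0)]⟩,⟨0,[(30,0)]⟩⟩ ⟨false,1,⟨7,[(7,1),(7,1),(11,0),(0,4),(7,1)]⟩,⟨13,[(1,11),(1,
  3),(6,7),(16,0),(17,1),(1,2)]⟩⟩ ⟨true,0,⟨0,[(30,0),(14,0)]⟩,⟨3,[(15,0),(1,1),(11,1),(3,0)]⟩⟩,.o
  ⟨false,0,⟨23,[(9,7),(17,2),(0,2),(0,11),(5,7),(4,1)]⟩,⟨1,[(30,1),(9,0),(5,0)]⟩⟩]⟩)))))))

theorem ok19 : chk (cU (-1) false 2) t19 l24 = true := by decide +kernel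

noncomputable def t27 : Tre :=
  (.I [1,0,2,1,-1,0,0,1] (.Q [0,0,2,0,-1,0,-1,0,0,0,1] (.p true [0,0,1] [] (⟨0,[(36,0)]⟩,⟨0,[(35,
  0)]⟩) .k 0 (⟨0,[]⟩,⟨0,[]⟩) .k .k) (.K ⟨0,[0,1,1],1,0,(⟨0,[(37,0),(2,0)]⟩,⟨0,[(19,0)]⟩),.k,.k,(.r
  1 ⟨0,[(1,0),(41,0)]⟩ ⟨5,[(18,1),(1,7),(4,0),(0,0)]⟩),.k,.k,[⟨0,[(0,0)]⟩,⟨0,[(7,0)]⟩,⟨0,[(17,0),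
  (24,0)]⟩,⟨0,[(31,0),(11,0)]⟩]⟩) (.Q [0,0,0,0,0,2,0,0,0,-1,1] (.p true [0,0,1] [1] (⟨0,[(37,0)]⟩,
  ⟨0,[(36,0)]⟩) .k 1 (⟨0,[]⟩,⟨0,[]⟩) .k .k) (.R ⟨0,false,false,false,[1,-1,-1],[0,-1,1],[1],(⟨0,
  [(20,0)]⟩,⟨0,[(38,0),(2,0)]⟩),(⟨0,[(17,0)]⟩,⟨0,[(37,0),(3,0)]⟩),⟨0,[(0,0)]⟩,.k,.k,(.r (-2) ⟨5,
  [(19,1),(1,7),(4,0),(0,0)]⟩ ⟨0,[(2,0),(41,0)]⟩),.k,.k,.k,⟨true,0,⟨0,[(9,0),(38,0)]⟩,⟨8,[(2,1),(8,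
  1),(2,1),(0,2),(2,0),(16,0)]⟩⟩,⟨false,1,⟨0,[(8,0),(25,0)]⟩,⟨0,[(25,0)]⟩⟩,⟨false,0,⟨1,[(2,0),(33,
  0),(7,0),(1,0)]⟩,⟨2,[(1,7),(0,4),(0,1),(0,9),(0,6),(0,5),(9,5),(3,13),(20,20)]⟩⟩,⟨true,0,⟨0,[(3,
  0),(40,0)]⟩,⟨0,[(18,0),(11,0)]⟩⟩,⟨false,0,⟨0,[]⟩,⟨0,[]⟩⟩,⟨false,0,⟨0,[]⟩,⟨0,[]⟩⟩,[.a ⟨true,0,⟨0,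
  [(10,0)]⟩,⟨0,[(18,0),(25,0)]⟩⟩ ⟨true,0,⟨0,[]⟩,⟨1,[(34,0),(0,0)]⟩⟩ ⟨false,1,⟨0,[(7,0)]⟩,⟨1,[(9,0),
  (15,0),(5,0),(1,0),(10,0)]⟩⟩,.o ⟨false,1,⟨11,[(3,3),(10,3),(11,0),(0,0),(11,1),(6,7)]⟩,⟨0,[(30,0),
  (13,0)]⟩⟩,.o ⟨false,0,⟨0,[(31,0)]⟩,⟨2,[(8,1),(25,0),(4,0)]⟩⟩,.o ⟨false,0,⟨1,[(31,1),(2,0),(0,0)]⟩,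
  ⟨0,[(1,0)]⟩⟩]⟩) (.Q [0,0,0,2,0,0,-2,-2,0,-1,2] (.p true [0,0,1] [1,0,-1] (⟨0,[(38,0)]⟩,⟨0,[(37,
  0)]⟩) .k 2 (⟨0,[(37,0)]⟩,⟨0,[(38,0)]⟩) .k (.r 0 ⟨0,[(36,1)]⟩ ⟨1,[(9,0),(11,0),(2,0),(8,0),(0,
  0)]⟩)) (.R ⟨1,true,false,true,[0,0,1],[1,1,-1],[1,0,0,-1,0,0,0,1],(⟨0,[(39,0)]⟩,⟨0,[(38,0)]⟩),(⟨0,
  [(38,0),(3,0)]⟩,⟨0,[(18,0)]⟩),⟨0,[(18,0)]⟩,.k,.k,.k,(.x 0 ⟨0,[(6,0)]⟩ ⟨3,[(5,3),(21,0),(0,0),(9,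
  7),(1,1),(1,3)]⟩),(.r (-1) ⟨5,[(16,3),(3,3),(6,0),(0,0)]⟩ ⟨0,[(10,1),(38,1)]⟩),.k,⟨false,1,⟨3,
  [(12,0),(1,0),(1,2),(3,0),(26,0)]⟩,⟨0,[(0,0),(1,0),(0,0),(2,0),(10,0),(20,1),(3,0)]⟩⟩,⟨true,0,⟨0,
  [(5,0)]⟩,⟨3,[(6,1),(28,4),(0,0),(1,3),(3,1)]⟩⟩,⟨false,1,⟨5,[(7,0),(4,1),(2,0),(11,0),(0,0),(7,0),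
  (10,1)]⟩,⟨0,[(45,0)]⟩⟩,⟨true,0,⟨1,[(0,0),(30,0),(2,0)]⟩,⟨0,[(4,0)]⟩⟩,⟨true,0,⟨0,[]⟩,⟨0,[(49,0)]⟩⟩,
  ⟨false,0,⟨0,[(0,0)]⟩,⟨5,[(4,5),(2,0),(4,1),(2,0),(11,0),(0,0),(7,0),(10,1)]⟩⟩,[]⟩) (.Q [0,-1,0,2,
  0,0,1,1,0,1,-1] (.p false [0,0,1] [1] (⟨0,[(39,0)]⟩,⟨0,[(38,0)]⟩) .k 1 (⟨0,[]⟩,⟨0,[]⟩) .k .k) (.R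
  ⟨1,true,false,false,[1,0,-1],[0,1],[0,0,0,0,0,0,0,-1],(⟨0,[(39,0)]⟩,⟨0,[(40,0)]⟩),(⟨0,[(43,0)]⟩,
  ⟨0,[(42,0)]⟩),⟨0,[(22,0)]⟩,.k,.k,.k,.k,(.r (-2) ⟨5,[(21,1),(1,7),(4,0),(0,0)]⟩ ⟨1,[(0,0),(3,1),
  (27,0)]⟩),.k,⟨true,1,⟨1,[(1,0),(0,9),(0,5),(0,3),(1,6),(0,4),(0,3),(9,3),(24,24)]⟩,⟨0,[(4,0)]⟩⟩,
  ⟨false,1,⟨0,[(10,0)]⟩,⟨0,[(33,0)]⟩⟩,⟨false,1,⟨3,[(28,0),(0,0),(18,1)]⟩,⟨0,[]⟩⟩,⟨true,0,⟨2,[(0,1),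
  (4,0),(29,0),(14,0)]⟩,⟨0,[(18,0)]⟩⟩,⟨true,0,⟨0,[(46,0)]⟩,⟨0,[(45,0)]⟩⟩,⟨false,0,⟨0,[(0,0)]⟩,⟨17,
  [(8,4),(4,9),(2,0),(1,13),(9,3),(0,3),(3,3),(3,0)]⟩⟩,[]⟩) (.I [0,1,1,2,-1,0,0,2] (.R ⟨1,false,
  false,true,[1,-1,-1],[0,0,1],[1,0,-1,-2,0,0,0,-1],(⟨0,[(23,0)]⟩,⟨0,[(41,0),(2,0)]⟩),(⟨0,[(41,0)]⟩,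
  ⟨0,[(40,0)]⟩),⟨0,[(3,0)]⟩,.k,.k,(.r (-2) ⟨5,[(22,1),(1,7),(4,0),(0,0)]⟩ ⟨1,[(0,0),(4,0),(6,0)]⟩),
  (.r (-1) ⟨1,[(1,0),(2,0),(4,1),(1,0),(24,0)]⟩ ⟨17,[(0,11),(5,3),(11,1),(10,2),(0,2),(3,3),(3,3),
  (10,5)]⟩),(.r (-2) ⟨0,[(1,3),(1,11),(0,7),(0,5),(1,7),(0,5),(0,3),(34,29)]⟩ ⟨2,[(0,1),(4,1),(43,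
  0)]⟩),.k,⟨false,2,⟨1,[(4,0),(4,0),(4,0),(6,0),(2,1)]⟩,⟨0,[(0,0)]⟩⟩,⟨true,1,⟨0,[(11,0),(25,0)]⟩,⟨6,
  [(1,2),(3,7),(1,2),(1,1),(4,0),(6,2),(6,0)]⟩⟩,⟨false,1,⟨15,[(1,1),(0,1),(6,1),(4,3),(14,2),(0,2),
  (7,1),(10,5)]⟩,⟨0,[(47,0)]⟩⟩,⟨false,0,⟨6,[(0,3),(3,1),(1,4),(4,1),(0,3)]⟩,⟨3,[(1,1),(19,5),(20,0),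
  (6,2)]⟩⟩,⟨true,0,⟨0,[]⟩,⟨0,[(51,0)]⟩⟩,⟨false,0,⟨6,[(0,5),(3,2),(1,3),(4,2),(0,5)]⟩,⟨0,[(1,0),(19,
  0),(27,0)]⟩⟩,[.o ⟨false,0,⟨0,[(35,0)]⟩,⟨1,[(21,1),(20,0),(6,0)]⟩⟩,.a ⟨true,0,⟨1,[(5,0),(5,0),(1,
  0)]⟩,⟨0,[(21,0)]⟩⟩ ⟨true,1,⟨1,[(1,0),(7,1),(0,0),(5,0),(4,0)]⟩,⟨3,[(0,2),(4,0),(6,0),(23,1),(0,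
  1)]⟩⟩ ⟨false,1,⟨6,[(0,0),(3,3),(1,2),(4,3),(0,0)]⟩,⟨0,[(21,0),(12,0)]⟩⟩,.o ⟨false,0,⟨0,[(34,0)]⟩,
  ⟨2,[(11,1),(25,0),(4,0)]⟩⟩,.o ⟨false,0,⟨1,[(34,1),(2,0),(0,0)]⟩,⟨0,[(4,0)]⟩⟩]⟩) (.I [0,0,1,1,0,0,
  0,0,1] (.Q [0,-1,0,0,0,0,0,0,-1,0,0,1] (.p true [0,0,0,1] [] (⟨0,[(33,0)]⟩,⟨1,[(32,0),(8,0),(0,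
  0)]⟩) .k 0 (⟨0,[]⟩,⟨0,[]⟩) .k .k) (.R ⟨1,false,false,true,[1,0,0,-1],[1,-1],[0,1,0,0,0,0,0,0,-1],
  (⟨1,[(33,0),(8,0),(0,0)]⟩,⟨0,[(34,0)]⟩),(⟨0,[(45,0)]⟩,⟨0,[(46,0)]⟩),⟨3,[(5,0),(16,0),(10,1),(11,
  0)]⟩,.k,.k,(.r (-1) ⟨65,[(0,3),(1,4),(0,8),(2,2),(2,0),(3,7),(10,18),(6,30),(1,1)]⟩ ⟨0,[(1,0)]⟩),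
  (.r 0 ⟨2,[(0,0),(6,0),(9,0),(13,0),(7,0),(9,0),(3,0)]⟩ ⟨15,[(2,1),(0,1),(5,0),(2,0),(0,1),(6,0),
  (3,2),(7,7)]⟩),.k,.k,⟨false,0,⟨0,[(0,0),(16,0),(19,0)]⟩,⟨15,[(2,1),(0,1),(5,0),(2,0),(0,1),(6,0),
  (3,2),(7,7)]⟩⟩,⟨true,0,⟨1,[(33,0),(2,0),(2,0)]⟩,⟨0,[(34,0)]⟩⟩,⟨true,0,⟨0,[(53,0)]⟩,⟨0,[]⟩⟩,⟨false,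
  1,⟨11,[(3,3),(0,1),(26,0),(0,6),(0,5),(10,1),(6,1)]⟩,⟨0,[(0,0),(48,0)]⟩⟩,⟨false,0,⟨0,[(49,0)]⟩,
  ⟨15,[(3,1),(0,1),(6,1),(4,3),(14,2),(0,2),(7,1),(10,5)]⟩⟩,⟨false,1,⟨7,[(31,0),(0,4),(0,3),(10,
  1)]⟩,⟨0,[(0,0)]⟩⟩,[.o ⟨false,0,⟨0,[(3,0),(2,0),(0,0)]⟩,⟨3,[(1,1),(29,0),(17,1),(0,0),(0,1)]⟩⟩,.o
  ⟨false,1,⟨23,[(3,7),(0,3),(26,4),(0,4),(11,9),(6,3)]⟩,⟨0,[(49,0)]⟩⟩,.a ⟨true,0,⟨0,[(34,0)]⟩,⟨1,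
  [(33,0),(8,0),(0,0)]⟩⟩ ⟨false,0,⟨1,[(0,1),(32,0),(1,0),(1,0)]⟩,⟨1,[(32,0),(18,0)]⟩⟩ ⟨true,0,⟨1,
  [(3,0),(29,0),(3,0)]⟩,⟨0,[(34,0),(14,0)]⟩⟩,.o ⟨false,0,⟨0,[(28,0),(5,0),(4,0)]⟩,⟨7,[(31,0),(0,0),
  (0,3),(10,1),(5,3)]⟩⟩]⟩) (.I [0,0,-1,-1,0,0,0,1,1] (.R ⟨1,false,false,true,[1,0,0,-1],[0,-1,1],[0,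
  1,0,0,0,0,0,0,-1],(⟨1,[(34,0),(8,0),(0,0)]⟩,⟨0,[(35,0)]⟩),(⟨0,[(23,0)]⟩,⟨0,[(43,0),(3,0)]⟩),⟨3,
  [(6,0),(16,0),(10,1),(11,0)]⟩,.k,.k,(.r (-1) ⟨15,[(3,1),(0,1),(5,0),(2,0),(0,1),(6,0),(3,2),(6,
  7)]⟩ ⟨0,[(2,0)]⟩),(.r (-1) ⟨3,[(2,1),(12,1),(14,0),(1,2),(6,0),(0,0),(13,0)]⟩ ⟨0,[(0,0)]⟩),.k,.k,
  ⟨false,1,⟨1,[(15,0),(14,0),(1,0),(17,0),(3,0)]⟩,⟨0,[(0,0)]⟩⟩,⟨true,0,⟨33,[(2,1),(5,0),(2,4),(3,3),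
  (0,6),(15,0),(1,16),(4,3),(0,20),(2,9),(3,4)]⟩,⟨0,[(29,0),(5,0)]⟩⟩,⟨true,0,⟨0,[(54,0)]⟩,⟨0,[]⟩⟩,
  ⟨false,0,⟨12,[(0,6),(0,4),(0,0),(6,3),(1,0),(0,4),(3,2),(17,3),(8,1),(3,0)]⟩,⟨3,[(10,1),(4,3),(16,
  1),(2,3),(9,0),(5,0)]⟩⟩,⟨false,0,⟨0,[(50,0)]⟩,⟨15,[(4,1),(0,1),(6,1),(4,3),(14,2),(0,2),(7,1),(10,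
  5)]⟩⟩,⟨false,0,⟨20,[(0,10),(0,8),(0,0),(5,6),(0,5),(1,0),(2,6),(0,8),(18,5),(8,1),(3,0)]⟩,⟨11,[(3,
  1),(6,5),(1,3),(2,3),(16,5),(2,11),(9,2),(6,0)]⟩⟩,[.o ⟨false,0,⟨0,[(28,0)]⟩,⟨19,[(2,5),(7,9),(4,
  11),(14,7),(1,2),(12,4),(4,1),(1,3)]⟩⟩,.a ⟨true,0,⟨0,[(16,0)]⟩,⟨0,[(24,0),(25,0)]⟩⟩ ⟨false,1,⟨1,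
  [(32,0),(18,0)]⟩,⟨1,[(0,0),(0,0),(13,0),(19,0)]⟩⟩ ⟨true,0,⟨1,[(5,0),(28,0)]⟩,⟨1,[(15,0),(19,1),(0,
  0),(0,0),(12,0)]⟩⟩,.e ⟨false,1,⟨3,[(32,2),(0,0)]⟩,⟨0,[(0,0),(14,0)]⟩⟩ ⟨false,0,⟨1,[(5,0),(28,0)]⟩,
  ⟨19,[(2,5),(7,9),(4,11),(14,7),(1,2),(2,19),(9,4),(4,1),(1,3)]⟩⟩,.o ⟨false,0,⟨0,[(29,0),(5,0),(4,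
  0)]⟩,⟨7,[(32,0),(0,0),(0,3),(10,1),(5,3)]⟩⟩]⟩) (.I [0,0,0,0,0,0,0,0,-1] (.R ⟨1,false,false,false,
  [1,0,0,-1],[1,-1],[0,0,0,0,0,0,0,0,-1],(⟨1,[(35,0),(8,0),(0,0)]⟩,⟨0,[(36,0)]⟩),(⟨0,[(47,0)]⟩,⟨0,
  [(48,0)]⟩),⟨3,[(7,0),(16,0),(10,1),(11,0)]⟩,.k,.k,(.r (-1) ⟨49,[(0,3),(3,4),(0,4),(2,0),(2,0),(3,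
  5),(10,14),(6,22)]⟩ ⟨0,[(3,0)]⟩),(.r 0 ⟨2,[(1,0),(7,0),(23,0),(17,0)]⟩ ⟨15,[(4,1),(0,1),(5,0),(2,
  0),(0,1),(6,0),(3,2),(7,7)]⟩),.k,.k,⟨false,0,⟨0,[(0,0),(50,0)]⟩,⟨15,[(4,1),(0,1),(5,0),(2,0),(0,
  1),(6,0),(3,2),(7,7)]⟩⟩,⟨true,0,⟨1,[(35,0),(2,0),(2,0)]⟩,⟨0,[(36,0)]⟩⟩,⟨false,1,⟨3,[(33,0),(0,0),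
  (18,1)]⟩,⟨0,[]⟩⟩,⟨false,1,⟨1,[(2,1),(15,0),(30,0),(3,0)]⟩,⟨0,[(0,0),(35,0),(14,0)]⟩⟩,⟨true,0,⟨0,
  [(51,0)]⟩,⟨0,[(50,0)]⟩⟩,⟨false,1,⟨0,[(2,0),(50,0)]⟩,⟨0,[(0,0),(35,0)]⟩⟩,[.o ⟨false,1,⟨23,[(5,7),
  (0,3),(26,4),(0,4),(11,9),(6,3)]⟩,⟨0,[(51,0)]⟩⟩,.o ⟨false,1,⟨1,[(18,0),(27,0),(2,0)]⟩,⟨0,[(51,0),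
  (3,0)]⟩⟩,.a ⟨true,0,⟨0,[(36,0)]⟩,⟨1,[(35,0),(8,0),(0,0)]⟩⟩ ⟨true,0,⟨0,[(0,0)]⟩,⟨0,[(2,0),(33,
  0)]⟩⟩ ⟨false,1,⟨11,[(5,3),(0,1),(26,0),(0,0),(0,5),(10,1),(6,7)]⟩,⟨0,[(36,0),(14,0)]⟩⟩,.o ⟨false,
  0,⟨0,[(30,0),(5,0),(4,0)]⟩,⟨7,[(33,0),(0,0),(0,3),(10,1),(5,3)]⟩⟩]⟩) (.I [1,1,0,0,0,0,0,0,-1] (.Q
  [0,1,0,0,0,0,0,0,-1,-1,0,1] (.p true [0,0,0,1] [1] (⟨0,[(37,0)]⟩,⟨1,[(36,0),(8,0),(0,0)]⟩) .k 1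
  (⟨0,[]⟩,⟨0,[]⟩) .k .k) (.R ⟨1,false,false,true,[1,0,0,-1],[0,1,1],[0,1,0,0,0,0,0,0,-1],(⟨1,[(37,
  0),(8,0),(0,0)]⟩,⟨0,[(38,0)]⟩),(⟨0,[(47,0),(2,0)]⟩,⟨0,[(29,0)]⟩),⟨3,[(9,0),(16,0),(10,1),(11,0)]⟩,
  .k,.k,(.r (-1) ⟨33,[(1,3),(4,4),(0,0),(2,0),(2,0),(3,1),(10,10),(6,14)]⟩ ⟨0,[(5,0)]⟩),(.r (-1)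
  ⟨25,[(1,9),(4,11),(0,0),(2,2),(2,1),(3,2),(17,7),(6,0)]⟩ ⟨0,[(5,0),(39,0)]⟩),(.r (-2) ⟨13,[(6,1),
  (0,1),(9,1),(10,3),(1,11),(4,6),(18,0)]⟩ ⟨0,[(2,0),(8,0),(41,0)]⟩),.k,⟨true,1,⟨25,[(1,9),(4,11),
  (0,0),(2,2),(2,1),(3,2),(17,7),(6,0)]⟩,⟨0,[(2,0),(8,0)]⟩⟩,⟨false,1,⟨1,[(10,0),(6,0),(19,0)]⟩,⟨0,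
  [(38,0),(1,0)]⟩⟩,⟨true,0,⟨0,[(57,0)]⟩,⟨0,[]⟩⟩,⟨false,0,⟨1,[(2,1),(9,0),(24,0),(15,2)]⟩,⟨3,[(0,1),
  (5,0),(8,1),(4,0),(13,1),(0,0),(2,1),(16,0)]⟩⟩,⟨false,0,⟨0,[(53,0)]⟩,⟨15,[(7,1),(0,1),(6,1),(4,3),
  (14,2),(0,2),(7,1),(10,5)]⟩⟩,⟨false,0,⟨1,[(2,1),(9,0),(24,0),(15,4)]⟩,⟨2,[(0,0),(6,0),(5,0),(1,1),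
  (4,1),(14,0),(2,1),(12,0)]⟩⟩,[.o ⟨false,0,⟨0,[(41,0),(11,0)]⟩,⟨15,[(6,7),(27,3),(0,0),(0,0),(3,7),
  (7,1),(6,3)]⟩⟩,.o ⟨false,0,⟨0,[(10,0),(0,0)]⟩,⟨11,[(6,3),(0,1),(26,1),(0,2),(0,2),(3,3),(1,1),(5,
  1)]⟩⟩,.a ⟨true,0,⟨0,[(38,0)]⟩,⟨1,[(37,0),(8,0),(0,0)]⟩⟩ ⟨true,0,⟨1,[(0,1),(7,0),(0,1),(3,0),(0,0),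
  (6,1),(28,4)]⟩,⟨0,[(2,0)]⟩⟩ ⟨false,0,⟨1,[(12,0),(24,0),(15,2)]⟩,⟨7,[(0,1),(5,3),(27,1),(1,0),(1,
  5),(1,3),(14,2)]⟩⟩,.o ⟨false,0,⟨12,[(0,3),(1,3),(4,0),(0,0),(2,3),(3,4),(16,0),(5,8),(9,3)]⟩,⟨7,
  [(35,0),(0,0),(0,3),(10,1),(5,3)]⟩⟩]⟩) (.K ⟨1,[0,0,0,1],0,0,(⟨0,[(38,0)]⟩,⟨1,[(37,0),(8,0),(0,
  0)]⟩),.k,(.r (-1) ⟨49,[(2,3),(3,4),(0,4),(2,0),(2,0),(3,5),(10,14),(7,22)]⟩ ⟨2,[(3,0),(7,0),(23,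
  0),(17,0)]⟩),(.r 0 ⟨0,[(5,0)]⟩ ⟨33,[(1,3),(4,4),(0,0),(2,0),(2,0),(3,1),(10,10),(6,14)]⟩),.k,.k,
  [⟨1,[(38,1),(4,0),(0,0)]⟩,⟨1,[(37,0),(2,0),(2,0)]⟩,⟨0,[(1,0),(36,0)]⟩,⟨0,[(0,0)]⟩]⟩)) (.R ⟨1,
  false,false,false,[1,0,0,-1],[0,1,1],[0,0,0,0,0,0,0,0,-1],(⟨1,[(36,0),(8,0),(0,0)]⟩,⟨0,[(37,0)]⟩),
  (⟨0,[(46,0),(2,0)]⟩,⟨0,[(28,0)]⟩),⟨3,[(8,0),(16,0),(10,1),(11,0)]⟩,.k,.k,(.r (-1) ⟨15,[(5,1),(0,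
  1),(5,0),(2,0),(0,1),(6,0),(3,2),(6,7)]⟩ ⟨0,[(4,0)]⟩),(.r (-1) ⟨12,[(2,6),(2,3),(0,3),(5,1),(2,1),
  (0,3),(6,1),(10,2)]⟩ ⟨0,[(4,0),(39,0)]⟩),(.r (-2) ⟨13,[(5,1),(0,1),(9,1),(10,3),(1,11),(4,6),(18,
  0)]⟩ ⟨0,[(1,0),(8,0),(41,0)]⟩),.k,⟨true,1,⟨12,[(2,6),(2,3),(0,3),(5,1),(2,1),(0,3),(6,1),(10,2)]⟩,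
  ⟨0,[(1,0),(8,0)]⟩⟩,⟨false,1,⟨1,[(9,0),(6,0),(19,0)]⟩,⟨0,[(37,0),(1,0)]⟩⟩,⟨false,1,⟨3,[(34,0),(0,
  0),(18,1)]⟩,⟨0,[]⟩⟩,⟨false,0,⟨1,[(0,1),(10,0),(24,0),(15,2)]⟩,⟨5,[(5,1),(0,0),(26,0),(0,2),(2,5),
  (1,1),(1,0),(5,0)]⟩⟩,⟨true,0,⟨0,[(52,0)]⟩,⟨0,[(51,0)]⟩⟩,⟨false,0,⟨1,[(0,1),(10,0),(24,0),(15,4)]⟩,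
  ⟨1,[(6,1),(27,0),(2,1),(16,0)]⟩⟩,[.o ⟨false,0,⟨0,[(9,0),(0,0)]⟩,⟨11,[(5,3),(0,1),(26,1),(0,2),(0,
  2),(3,3),(1,1),(5,1)]⟩⟩,.o ⟨false,1,⟨14,[(4,3),(6,6),(4,0),(4,0),(12,1),(12,3),(4,18),(1,6)]⟩,⟨0,
  [(24,0)]⟩⟩,.a ⟨true,0,⟨0,[(37,0)]⟩,⟨1,[(36,0),(8,0),(0,0)]⟩⟩ ⟨false,1,⟨1,[(34,0),(19,0)]⟩,⟨0,[(1,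
  0)]⟩⟩ ⟨true,0,⟨1,[(11,0),(24,0),(15,2)]⟩,⟨0,[(24,0),(12,0)]⟩⟩,.o ⟨false,0,⟨0,[(31,0),(5,0),(4,
  0)]⟩,⟨7,[(34,0),(0,0),(0,3),(10,1),(5,3)]⟩⟩]⟩))))) (.R ⟨1,false,false,false,[1,0,0,-1],[0,1],[0,1,
  0,0,0,0,0,0,-1],(⟨1,[(32,0),(8,0),(0,0)]⟩,⟨0,[(33,0)]⟩),(⟨0,[(45,0)]⟩,⟨0,[(44,0)]⟩),⟨3,[(4,0),(16,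
  0),(10,1),(11,0)]⟩,.k,.k,(.x 0 ⟨4,[(4,1),(4,0),(25,1),(2,0),(0,0)]⟩ ⟨3,[(30,0),(0,0),(13,3),(3,
  1)]⟩),(.x 0 ⟨4,[(4,1),(4,0),(25,1),(2,0),(0,0)]⟩ ⟨3,[(30,0),(0,0),(13,3),(3,1)]⟩),(.r (-1) ⟨6,[(0,
  4),(22,2),(1,2),(4,0)]⟩ ⟨11,[(6,7),(6,7),(16,0),(0,6),(16,7),(3,7)]⟩),.k,⟨true,0,⟨0,[(0,0),(51,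
  0)]⟩,⟨5,[(6,3),(3,1),(2,1),(17,2),(18,0)]⟩⟩,⟨false,1,⟨15,[(8,5),(3,13),(17,0),(0,0),(0,7),(6,1)]⟩,
  ⟨0,[(27,0),(5,0),(4,0)]⟩⟩,⟨true,0,⟨0,[(52,0)]⟩,⟨0,[]⟩⟩,⟨false,1,⟨3,[(6,1),(5,1),(3,1),(14,1),(0,
  0),(8,0),(0,0),(7,1)]⟩,⟨0,[(0,0),(26,0),(5,0),(4,0)]⟩⟩,⟨false,0,⟨0,[(48,0)]⟩,⟨15,[(2,1),(0,1),(6,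
  1),(4,3),(14,2),(0,2),(7,1),(10,5)]⟩⟩,⟨false,1,⟨1,[(6,1),(5,1),(3,1),(14,0),(18,0)]⟩,⟨3,[(0,3),(1,
  0),(0,0),(6,0),(16,3),(5,3),(4,2)]⟩⟩,[.o ⟨false,0,⟨0,[(48,0)]⟩,⟨23,[(2,7),(0,3),(26,4),(0,4),(11,
  9),(6,3)]⟩⟩,.o ⟨false,1,⟨3,[(30,0),(0,0),(16,3),(1,1)]⟩,⟨0,[(2,0),(2,0),(0,0)]⟩⟩,.a ⟨true,0,⟨0,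
  [(33,0)]⟩,⟨1,[(32,0),(8,0),(0,0)]⟩⟩ ⟨false,0,⟨4,[(0,2),(5,0),(6,0),(16,0),(17,0),(3,0)]⟩,⟨1,[(31,
  0),(18,0)]⟩⟩ ⟨true,0,⟨3,[(6,1),(5,1),(3,1),(15,0),(8,0),(0,0)]⟩,⟨0,[(2,0),(2,0),(0,0),(26,0)]⟩⟩,
  .o ⟨false,0,⟨0,[(27,0),(5,0),(4,0)]⟩,⟨7,[(30,0),(0,0),(0,3),(10,1),(5,3)]⟩⟩]⟩))))))) (.Q [0,0,0,2,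
  0,0,-2,-2,0,-1,2] (.p true [0,0,1] [1,0,-1] (⟨0,[(36,0)]⟩,⟨0,[(35,0)]⟩) .k 2 (⟨0,[(35,0)]⟩,⟨0,
  [(36,0)]⟩) .k (.r 0 ⟨0,[(34,1)]⟩ ⟨1,[(7,0),(11,0),(2,0),(8,0),(0,0)]⟩)) (.R ⟨1,false,false,false,
  [0,0,1],[1,1,-1],[1,0,2,1,0,0,0,-1],(⟨0,[(37,0)]⟩,⟨0,[(36,0)]⟩),(⟨0,[(36,0),(3,0)]⟩,⟨0,[(16,0)]⟩),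
  ⟨0,[(16,0)]⟩,.k,.k,.k,(.x 0 ⟨0,[(4,0)]⟩ ⟨3,[(3,3),(21,0),(0,0),(9,7),(1,1),(1,3)]⟩),(.r (-1) ⟨5,
  [(14,3),(3,3),(6,0),(0,0)]⟩ ⟨0,[(8,1),(38,1)]⟩),.k,⟨false,0,⟨0,[]⟩,⟨3,[(25,0),(0,0),(17,1)]⟩⟩,
  ⟨true,0,⟨0,[(3,0)]⟩,⟨3,[(4,1),(28,4),(0,0),(1,3),(3,1)]⟩⟩,⟨false,0,⟨1,[(5,0),(2,1),(23,0),(0,0)]⟩,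
  ⟨3,[(14,3),(10,0),(0,0),(17,1)]⟩⟩,⟨false,1,⟨3,[(0,2),(19,1),(9,0),(3,0),(10,1)]⟩,⟨0,[(2,0)]⟩⟩,
  ⟨false,0,⟨0,[(8,1),(38,0)]⟩,⟨5,[(14,3),(3,3),(6,0),(0,0)]⟩⟩,⟨true,0,⟨0,[(0,0)]⟩,⟨0,[(2,0),(39,
  0)]⟩⟩,[.a ⟨true,0,⟨1,[(0,0),(35,0),(0,0)]⟩,⟨0,[(9,0)]⟩⟩ ⟨false,0,⟨0,[(8,0),(38,0)]⟩,⟨11,[(14,3),
  (3,3),(6,0),(0,0),(17,5)]⟩⟩ ⟨true,0,⟨1,[(0,0),(23,0)]⟩,⟨0,[(9,0),(23,0)]⟩⟩,.o ⟨false,1,⟨7,[(0,3),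
  (24,0),(0,0),(11,1),(6,3)]⟩,⟨0,[(21,0)]⟩⟩,.o ⟨false,1,⟨11,[(7,3),(17,2),(0,2),(6,7),(4,1)]⟩,⟨0,
  [(22,0)]⟩⟩,.o ⟨false,0,⟨0,[(33,0)]⟩,⟨3,[(3,1),(21,0),(0,0),(11,0),(5,0)]⟩⟩]⟩) (.Q [0,-1,0,2,0,0,1,
  1,0,1,-1] (.p false [0,0,1] [1] (⟨0,[(37,0)]⟩,⟨0,[(36,0)]⟩) .k 1 (⟨0,[]⟩,⟨0,[]⟩) .k .k) (.R ⟨1,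
  false,false,false,[1,-1],[0,0,1],[0,0,1],(⟨0,[(40,0)]⟩,⟨0,[(41,0)]⟩),(⟨0,[(38,0)]⟩,⟨0,[(37,0)]⟩),
  ⟨0,[(17,0),(2,0)]⟩,.k,.k,(.r (-1) ⟨8,[(1,1),(0,4),(1,0),(6,0),(4,0),(1,0),(0,2)]⟩ ⟨0,[(0,0),(30,
  0),(1,0),(0,0)]⟩),.k,(.x 0 ⟨2,[(5,0),(14,4),(10,4)]⟩ ⟨1,[(2,0),(1,0),(0,0),(1,0),(33,4),(2,1)]⟩),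
  .k,⟨true,0,⟨1,[(6,0),(26,0),(0,0)]⟩,⟨0,[(36,0)]⟩⟩,⟨false,1,⟨0,[(8,0)]⟩,⟨0,[(31,0)]⟩⟩,⟨false,0,⟨5,
  [(0,1),(8,1),(21,1),(2,2),(0,2),(6,1)]⟩,⟨2,[(2,0),(16,0),(25,0)]⟩⟩,⟨true,0,⟨2,[(0,1),(2,0),(29,0),
  (14,0)]⟩,⟨0,[(16,0)]⟩⟩,⟨false,0,⟨3,[(0,2),(8,1),(21,2),(1,0),(0,1),(0,0)]⟩,⟨8,[(1,1),(0,4),(1,0),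
  (6,0),(4,0),(1,0),(0,2)]⟩⟩,⟨false,0,⟨0,[(0,0)]⟩,⟨17,[(6,4),(4,9),(2,0),(1,13),(9,3),(0,3),(3,3),
  (3,0)]⟩⟩,[.a ⟨true,0,⟨2,[(0,0),(2,0),(6,0),(22,0)]⟩,⟨0,[(18,0)]⟩⟩ ⟨true,0,⟨1,[(34,0),(0,0)]⟩,⟨0,
  []⟩⟩ ⟨false,1,⟨9,[(0,1),(7,7),(6,3),(10,0),(0,0),(20,1)]⟩,⟨1,[(9,0),(6,0),(14,0)]⟩⟩,.o ⟨false,1,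
  ⟨19,[(0,3),(2,7),(22,2),(0,2),(11,5),(6,7)]⟩,⟨0,[(30,0)]⟩⟩,.o ⟨false,0,⟨0,[(23,0),(10,0)]⟩,⟨3,
  [(26,0),(0,0),(17,1)]⟩⟩,.o ⟨false,0,⟨0,[(31,0),(2,0)]⟩,⟨0,[(45,0)]⟩⟩]⟩) (.Q [0,0,-2,0,1,0,1,0,0,0,
  -1] (.p false [0,0,1] [] (⟨0,[(38,0)]⟩,⟨0,[(37,0)]⟩) .k 0 (⟨0,[]⟩,⟨0,[]⟩) .k .k) (.Q [0,0,0,0,0,2,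
  0,0,0,-1,1] (.p true [0,0,1] [1] (⟨0,[(39,0)]⟩,⟨0,[(38,0)]⟩) .k 1 (⟨0,[]⟩,⟨0,[]⟩) .k .k) (.R ⟨0,
  false,false,false,[1,-1,-1],[0,-1,1],[1],(⟨0,[(22,0)]⟩,⟨0,[(40,0),(2,0)]⟩),(⟨0,[(19,0)]⟩,⟨0,[(39,
  0),(3,0)]⟩),⟨0,[(0,0)]⟩,.k,.k,(.x 0 ⟨2,[(7,0),(14,4),(10,4)]⟩ ⟨0,[(0,0),(9,0)]⟩),.k,.k,.k,⟨true,0,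
  ⟨0,[(11,0),(38,0)]⟩,⟨1,[(3,0),(23,0)]⟩⟩,⟨false,1,⟨0,[(10,0),(25,0)]⟩,⟨0,[(27,0)]⟩⟩,⟨false,0,⟨0,
  [(11,0),(26,1)]⟩,⟨0,[(2,1),(0,1),(0,0),(1,1),(0,0),(3,1),(10,1),(20,2),(2,5)]⟩⟩,⟨true,0,⟨0,[(5,0),
  (40,0)]⟩,⟨0,[(20,0),(11,0)]⟩⟩,⟨false,0,⟨0,[]⟩,⟨0,[]⟩⟩,⟨false,0,⟨0,[]⟩,⟨0,[]⟩⟩,[.a ⟨true,0,⟨0,[(12,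
  0)]⟩,⟨0,[(20,0),(25,0)]⟩⟩ ⟨true,0,⟨0,[]⟩,⟨1,[(36,0),(0,0)]⟩⟩ ⟨false,1,⟨0,[(9,0)]⟩,⟨1,[(11,0),(15,
  0),(5,0),(1,0),(10,0)]⟩⟩,.o ⟨false,1,⟨7,[(3,3),(24,0),(0,0),(11,1),(6,3)]⟩,⟨0,[(32,0),(13,0)]⟩⟩,
  .o ⟨false,0,⟨0,[(33,0)]⟩,⟨2,[(10,1),(25,0),(4,0)]⟩⟩,.o ⟨false,0,⟨1,[(33,1),(2,0),(0,0)]⟩,⟨0,[(1,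
  0)]⟩⟩]⟩) (.I [1,1,0,0,0,0,0,0,-1] (.I [0,0,1,1,0,0,0,0,1] (.Q [0,-1,0,0,0,0,0,0,1,1,0,-1] (.p
  false [0,0,0,1] [1] (⟨0,[(33,0)]⟩,⟨1,[(32,0),(8,0),(0,0)]⟩) .k 1 (⟨0,[]⟩,⟨0,[]⟩) .k .k) (.K ⟨1,[0,
  0,0,1],0,0,(⟨0,[(34,0)]⟩,⟨1,[(33,0),(8,0),(0,0)]⟩),.k,(.r (-1) ⟨28,[(0,0),(4,1),(0,0),(0,6),(8,0),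
  (7,6),(7,13),(1,0)]⟩ ⟨0,[(2,0),(11,0),(26,0)]⟩),(.r 0 ⟨0,[(1,0)]⟩ ⟨4,[(2,0),(4,0),(8,0),(7,0),(6,
  1)]⟩),.k,.k,[⟨1,[(34,1),(4,0),(0,0)]⟩,⟨1,[(33,0),(2,0),(2,0)]⟩,⟨0,[(2,0),(31,0)]⟩,⟨0,[(0,0)]⟩]⟩)
  (.I [0,1,0,1,0,0,0,0,1] (.I [0,0,0,0,0,0,0,0,-1] (.Q [0,-1,0,0,0,0,0,0,-1,0,0,1] (.p true [0,0,0,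
  1] [] (⟨0,[(36,0)]⟩,⟨1,[(35,0),(8,0),(0,0)]⟩) .k 0 (⟨0,[]⟩,⟨0,[]⟩) .k .k) (.K ⟨1,[1,0,0,-1],0,0,
  (⟨1,[(36,0),(8,0),(0,0)]⟩,⟨0,[(37,0)]⟩),.k,(.r (-1) ⟨25,[(1,1),(6,0),(0,0),(0,5),(8,1),(7,5),(6,
  11),(6,0)]⟩ ⟨0,[(4,0)]⟩),(.r 0 ⟨0,[(1,1),(2,0)]⟩ ⟨21,[(8,0),(0,1),(0,5),(1,0),(6,0),(6,0),(0,3),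
  (7,10)]⟩),.k,.k,[⟨7,[(13,1),(22,3),(5,0),(0,4),(1,3),(3,1)]⟩,⟨0,[(31,0),(5,0),(4,0)]⟩,⟨1,[(2,1),
  (6,0),(16,1),(9,0)]⟩,⟨0,[(0,0)]⟩]⟩) (.R ⟨1,false,false,false,[1,0,0,-1],[1,-1],[0,0,0,0,0,0,0,0,
  -1],(⟨1,[(36,0),(8,0),(0,0)]⟩,⟨0,[(37,0)]⟩),(⟨0,[(48,0)]⟩,⟨0,[(49,0)]⟩),⟨3,[(6,0),(18,0),(10,1),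
  (11,0)]⟩,.k,.k,(.r (-1) ⟨25,[(1,1),(6,0),(0,0),(0,5),(8,1),(7,5),(6,11),(6,0)]⟩ ⟨0,[(4,0)]⟩),(.r
  0 ⟨0,[(1,1),(2,0)]⟩ ⟨21,[(8,0),(0,1),(0,5),(1,0),(6,0),(6,0),(0,3),(7,10)]⟩),.k,.k,⟨false,0,⟨0,
  [(1,0),(50,0)]⟩,⟨21,[(8,0),(0,1),(0,5),(1,0),(6,0),(6,0),(0,3),(7,10)]⟩⟩,⟨true,0,⟨1,[(36,0),(2,0),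
  (2,0)]⟩,⟨0,[(37,0)]⟩⟩,⟨false,1,⟨3,[(34,0),(0,0),(18,1)]⟩,⟨0,[]⟩⟩,⟨false,1,⟨1,[(0,1),(18,0),(30,0),
  (3,0)]⟩,⟨0,[(1,0),(35,0),(14,0)]⟩⟩,⟨true,0,⟨0,[(52,0)]⟩,⟨0,[(51,0)]⟩⟩,⟨false,1,⟨0,[(0,0),(53,0)]⟩,
  ⟨0,[(1,0),(35,0)]⟩⟩,[.o ⟨false,1,⟨9,[(8,0),(5,0),(4,1),(2,1),(11,1),(0,1),(3,0),(7,3)]⟩,⟨0,[(52,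
  0)]⟩⟩,.o ⟨false,1,⟨1,[(19,0),(27,0),(2,0)]⟩,⟨1,[(2,0),(2,0),(46,0)]⟩⟩,.a ⟨true,0,⟨0,[(37,0)]⟩,⟨1,
  [(36,0),(8,0),(0,0)]⟩⟩ ⟨true,0,⟨0,[(1,0)]⟩,⟨0,[(0,0),(36,0)]⟩⟩ ⟨false,1,⟨9,[(9,0),(4,1),(4,3),(14,
  0),(0,0),(0,4),(2,1),(7,1),(6,1)]⟩,⟨0,[(37,0),(14,0)]⟩⟩,.o ⟨false,0,⟨0,[(31,0),(5,0),(4,0)]⟩,⟨7,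
  [(34,0),(0,0),(0,3),(10,1),(5,3)]⟩⟩]⟩)) (.Q [0,0,0,0,0,0,0,0,-1,0,0,1] (.p true [0,0,0,1] [] (⟨0,
  [(36,0)]⟩,⟨1,[(35,0),(8,0),(0,0)]⟩) .k 0 (⟨0,[]⟩,⟨0,[]⟩) .k .k) (.R ⟨2,false,false,false,[0,1],[0,
  0,0,1],[1,1,1],(⟨0,[]⟩,⟨0,[]⟩),(⟨0,[(37,0)]⟩,⟨1,[(36,0),(8,0),(0,0)]⟩),⟨0,[]⟩,.k,.k,.k,(.r 0 ⟨0,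
  [(5,0),(11,0),(26,0)]⟩ ⟨25,[(1,1),(6,0),(0,0),(0,5),(8,1),(7,5),(7,11),(5,0)]⟩),.k,.k,⟨false,0,⟨0,
  [(5,0)]⟩,⟨9,[(1,7),(5,1),(4,1),(3,1),(18,0),(18,4)]⟩⟩,⟨true,0,⟨1,[(36,0),(2,0),(2,0)]⟩,⟨0,[(37,
  0)]⟩⟩,⟨true,0,⟨0,[(51,0)]⟩,⟨0,[(52,0)]⟩⟩,⟨false,1,⟨3,[(1,1),(17,1),(15,0),(0,1),(10,0),(2,1)]⟩,⟨0,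
  [(0,0),(51,0)]⟩⟩,⟨false,0,⟨0,[]⟩,⟨3,[(34,0),(0,0),(18,1)]⟩⟩,⟨false,1,⟨3,[(1,1),(33,0),(0,1),(10,
  0),(6,1)]⟩,⟨0,[(0,0)]⟩⟩,[.a ⟨true,0,⟨1,[(1,1),(34,0),(8,0),(0,0)]⟩,⟨0,[(0,0)]⟩⟩ ⟨false,0,⟨0,[(56,
  0)]⟩,⟨1,[(53,0),(0,0)]⟩⟩ ⟨true,0,⟨1,[(1,1),(34,0),(2,0),(2,0)]⟩,⟨0,[(0,0)]⟩⟩,.o ⟨false,1,⟨3,[(1,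
  1),(33,0),(0,1),(10,0),(6,1)]⟩,⟨0,[(3,0)]⟩⟩,.o ⟨false,1,⟨3,[(34,0),(0,0),(17,1)]⟩,⟨0,[(31,0),(10,
  0)]⟩⟩,.e ⟨false,0,⟨0,[]⟩,⟨3,[(34,0),(0,0),(18,1)]⟩⟩ ⟨false,1,⟨3,[(1,1),(33,0),(0,1),(10,0),(6,
  1)]⟩,⟨0,[(0,0)]⟩⟩]⟩) (.R ⟨1,false,false,true,[1,0,0,-1],[0,0,0,1],[0,1,0,0,0,0,0,0,-1],(⟨1,[(36,
  0),(8,0),(0,0)]⟩,⟨0,[(37,0)]⟩),(⟨0,[(37,0)]⟩,⟨1,[(36,0),(8,0),(0,0)]⟩),⟨3,[(6,0),(18,0),(10,1),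
  (11,0)]⟩,.k,.k,(.r (-1) ⟨4,[(5,0),(4,0),(8,0),(7,0),(6,1)]⟩ ⟨0,[(4,0)]⟩),.k,(.r (-1) ⟨0,[(5,1),(8,
  0),(6,0)]⟩ ⟨0,[(1,0),(2,0)]⟩),.k,⟨false,1,⟨0,[(5,1),(11,0),(3,0)]⟩,⟨0,[(1,1)]⟩⟩,⟨true,0,⟨0,[(36,
  0)]⟩,⟨0,[(31,0),(5,1),(4,0)]⟩⟩,⟨true,0,⟨0,[(56,0)]⟩,⟨0,[]⟩⟩,⟨false,0,⟨0,[(1,1),(34,0)]⟩,⟨1,[(3,1),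
  (10,0),(2,1),(3,0),(1,0),(10,0),(2,1)]⟩⟩,⟨false,0,⟨0,[(52,0)]⟩,⟨9,[(9,0),(4,1),(4,3),(14,1),(0,1),
  (3,0),(3,0),(10,1)]⟩⟩,⟨false,0,⟨0,[(1,1),(34,0),(15,0)]⟩,⟨1,[(3,1),(10,2),(6,0),(1,0),(10,0),(2,
  1)]⟩⟩,[.o ⟨false,0,⟨7,[(0,3),(1,3),(19,0),(1,1),(11,1),(3,0)]⟩,⟨0,[(3,0),(50,0)]⟩⟩,.o ⟨false,0,⟨0,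
  [(0,0)]⟩,⟨1,[(34,0),(2,1),(9,0)]⟩⟩,.a ⟨true,0,⟨0,[(37,0)]⟩,⟨1,[(36,0),(8,0),(0,0)]⟩⟩ ⟨true,0,⟨1,
  [(3,1),(2,1),(2,0),(2,0),(0,0),(6,1),(28,4)]⟩,⟨0,[(1,0)]⟩⟩ ⟨false,0,⟨0,[(1,0),(34,0)]⟩,⟨0,[(3,0),
  (33,0),(16,0)]⟩⟩,.o ⟨false,0,⟨0,[(31,0),(5,0),(4,0)]⟩,⟨7,[(34,0),(0,0),(0,3),(10,1),(5,3)]⟩⟩]⟩)))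
  (.R ⟨1,false,false,true,[1,0,0,-1],[1,-1],[1,0,0,-1,0,0,0,0,-1],(⟨1,[(34,0),(8,0),(0,0)]⟩,⟨0,[(35,
  0)]⟩),(⟨0,[(46,0)]⟩,⟨0,[(47,0)]⟩),⟨3,[(4,0),(18,0),(10,1),(11,0)]⟩,.k,.k,(.r (-1) ⟨24,[(0,0),(5,
  0),(0,0),(0,5),(8,0),(7,5),(6,11),(6,0)]⟩ ⟨0,[(2,0)]⟩),(.r 0 ⟨0,[(3,0),(11,0),(26,0)]⟩ ⟨21,[(6,0),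
  (0,1),(0,5),(1,0),(6,0),(6,0),(0,3),(7,10)]⟩),.k,.k,⟨false,0,⟨0,[(0,0),(49,0)]⟩,⟨1,[(33,0),(17,0),
  (2,1)]⟩⟩,⟨true,0,⟨1,[(34,0),(2,0),(2,0)]⟩,⟨0,[(35,0)]⟩⟩,⟨false,1,⟨9,[(7,0),(4,1),(4,3),(14,1),(0,
  1),(3,0),(3,0),(10,1)]⟩,⟨0,[(50,0)]⟩⟩,⟨false,1,⟨39,[(6,3),(5,3),(4,7),(2,7),(11,2),(0,22),(0,19),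
  (2,3),(7,5)]⟩,⟨0,[(0,0),(34,0),(14,1)]⟩⟩,⟨true,0,⟨0,[]⟩,⟨0,[(54,0)]⟩⟩,⟨false,1,⟨7,[(32,0),(0,4),
  (0,3),(10,1)]⟩,⟨0,[(0,0),(34,0),(14,0)]⟩⟩,[.e ⟨true,0,⟨9,[(0,5),(2,3),(2,0),(0,0),(31,0)]⟩,⟨0,[(2,
  0)]⟩⟩ ⟨true,0,⟨3,[(20,0),(1,1),(11,1),(3,0)]⟩,⟨0,[(15,0),(19,0),(6,0)]⟩⟩,.o ⟨false,1,⟨9,[(6,0),(5,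
  0),(4,1),(2,1),(11,1),(0,1),(3,0),(7,3)]⟩,⟨0,[(50,0)]⟩⟩,.a ⟨true,0,⟨0,[(35,0)]⟩,⟨1,[(34,0),(8,0),
  (0,0)]⟩⟩ ⟨false,0,⟨0,[(0,0)]⟩,⟨3,[(2,3),(29,0),(0,0),(17,1)]⟩⟩ ⟨true,0,⟨3,[(20,0),(1,1),(11,1),(3,
  0)]⟩,⟨0,[(35,0),(14,0)]⟩⟩,.o ⟨false,0,⟨0,[(29,0),(5,0),(4,0)]⟩,⟨7,[(32,0),(0,0),(0,3),(10,1),(5,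
  3)]⟩⟩]⟩))) (.Q [0,0,0,0,0,1,0,0,0,0,0,-1] (.p false [0,0,0,1] [] (⟨0,[(33,0)]⟩,⟨1,[(32,0),(8,0),
  (0,0)]⟩) .k 0 (⟨0,[]⟩,⟨0,[]⟩) .k .k) (.R ⟨0,false,false,true,[0,0,0,1],[1,0,-1],[0,1,0,-1,0,0,0,0,
  1],(⟨0,[(34,0)]⟩,⟨1,[(33,0),(8,0),(0,0)]⟩),(⟨0,[(42,0)]⟩,⟨0,[(43,0)]⟩),⟨0,[(0,0)]⟩,.k,.k,(.r (-1)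
  ⟨21,[(5,0),(0,1),(0,5),(1,0),(6,0),(6,0),(0,3),(7,10)]⟩ ⟨0,[(2,0),(11,0),(26,0)]⟩),.k,.k,.k,
  ⟨false,1,⟨11,[(20,3),(3,3),(6,0),(0,6)]⟩,⟨0,[(1,0),(12,0),(34,0),(3,0)]⟩⟩,⟨true,0,⟨0,[(28,0),(5,
  0)]⟩,⟨7,[(10,1),(22,3),(5,4),(0,0),(1,3),(3,1)]⟩⟩,⟨true,0,⟨0,[(48,0)]⟩,⟨0,[(49,0)]⟩⟩,⟨false,0,⟨2,
  [(1,1),(0,0),(11,1),(13,1),(5,2),(0,0)]⟩,⟨1,[(8,0),(23,0),(0,0),(15,0),(1,0)]⟩⟩,⟨false,0,⟨0,[]⟩,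
  ⟨0,[]⟩⟩,⟨false,0,⟨0,[]⟩,⟨0,[]⟩⟩,[.o ⟨false,0,⟨0,[(35,0)]⟩,⟨7,[(8,3),(22,0),(0,0),(11,1),(4,3),(1,
  3)]⟩⟩,.e ⟨false,1,⟨21,[(5,0),(0,1),(0,5),(1,0),(6,0),(6,0),(0,3),(7,10)]⟩,⟨1,[(1,0),(0,0),(11,0),
  (26,0),(7,1)]⟩⟩ ⟨false,1,⟨2,[(9,0),(13,0),(5,1),(4,2),(9,0)]⟩,⟨1,[(8,0),(24,0),(15,0)]⟩⟩,.a ⟨true,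
  0,⟨1,[(33,0),(8,0),(0,0)]⟩,⟨0,[(34,0)]⟩⟩ ⟨false,1,⟨35,[(5,5),(0,5),(4,1),(4,3),(9,3),(4,4),(0,22),
  (7,5)]⟩,⟨0,[(1,0),(12,0),(26,0),(7,0)]⟩⟩ ⟨true,0,⟨0,[(34,0),(0,0)]⟩,⟨1,[(8,0),(24,0),(15,0)]⟩⟩,.o
  ⟨false,0,⟨1,[(33,0),(2,0),(2,0)]⟩,⟨1,[(34,1),(9,0),(5,0)]⟩⟩]⟩) (.R ⟨1,false,false,true,[0,0,0,1],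
  [1,0,-1],[0,1,0,0,0,0,0,0,1],(⟨0,[(34,0)]⟩,⟨1,[(33,0),(8,0),(0,0)]⟩),(⟨0,[(42,0)]⟩,⟨0,[(43,0)]⟩),
  ⟨0,[(0,0)]⟩,.k,.k,(.r (-1) ⟨21,[(5,0),(0,1),(0,5),(1,0),(6,0),(6,0),(0,3),(7,10)]⟩ ⟨0,[(2,0),(11,
  0),(26,0)]⟩),.k,(.r (-1) ⟨11,[(20,3),(3,3),(6,0),(0,6)]⟩ ⟨0,[(2,0),(11,0)]⟩),.k,⟨false,1,⟨1,[(32,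
  0),(8,1),(8,0)]⟩,⟨0,[(1,0),(12,0),(38,0)]⟩⟩,⟨true,0,⟨0,[(28,0),(5,0)]⟩,⟨7,[(10,1),(22,3),(5,4),(0,
  0),(1,3),(3,1)]⟩⟩,⟨true,0,⟨0,[(53,0)]⟩,⟨0,[]⟩⟩,⟨false,0,⟨2,[(1,1),(0,0),(11,1),(13,1),(5,2),(0,
  0)]⟩,⟨1,[(8,0),(23,0),(0,0),(15,0),(1,0)]⟩⟩,⟨false,0,⟨0,[(49,0)]⟩,⟨9,[(6,0),(4,1),(4,3),(14,1),(0,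
  1),(3,0),(3,0),(10,1)]⟩⟩,⟨false,0,⟨2,[(1,1),(0,0),(11,1),(13,1),(5,2),(0,0),(13,2)]⟩,⟨1,[(6,0),
  (25,0),(0,0),(17,0)]⟩⟩,[.o ⟨false,0,⟨0,[(35,0)]⟩,⟨7,[(8,3),(22,0),(0,0),(11,1),(4,3),(1,3)]⟩⟩,.e
  ⟨false,1,⟨1,[(32,0),(17,0)]⟩,⟨1,[(1,0),(0,0),(11,0),(26,0)]⟩⟩ ⟨false,1,⟨2,[(9,0),(13,0),(5,1),(4,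
  2),(9,0)]⟩,⟨1,[(8,0),(24,0),(15,0)]⟩⟩,.a ⟨true,0,⟨1,[(33,0),(8,0),(0,0)]⟩,⟨0,[(34,0)]⟩⟩ ⟨false,1,
  ⟨3,[(31,0),(0,2)]⟩,⟨0,[(1,0),(12,0),(26,0)]⟩⟩ ⟨true,0,⟨0,[(34,0),(0,0)]⟩,⟨1,[(8,0),(24,0),(15,
  0)]⟩⟩,.o ⟨false,0,⟨1,[(33,0),(2,0),(2,0)]⟩,⟨1,[(34,1),(9,0),(5,0)]⟩⟩]⟩))) (.I [0,0,-1,0,0,0,0,1,
  1] (.R ⟨1,false,false,true,[1,0,0,-1],[0,-1,1],[1,1,0,-1,0,0,0,0,-1],(⟨1,[(32,0),(8,0),(0,0)]⟩,⟨0,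
  [(33,0)]⟩),(⟨0,[(21,0)]⟩,⟨0,[(41,0),(3,0)]⟩),⟨3,[(2,0),(18,0),(10,1),(11,0)]⟩,.k,.k,(.r (-1) ⟨21,
  [(4,0),(0,1),(0,5),(1,0),(6,0),(6,0),(0,3),(6,10)]⟩ ⟨1,[(0,1),(12,1),(24,0),(0,0),(12,1)]⟩),(.x
  (-1) ⟨3,[(8,1),(21,0),(0,0),(9,3),(1,0),(1,3),(3,0)]⟩ ⟨9,[(2,1),(6,5),(25,1),(2,0),(0,0)]⟩),.k,.k,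
  ⟨false,1,⟨3,[(13,0),(11,0),(2,0),(1,1),(6,0),(0,0)]⟩,⟨0,[(0,0)]⟩⟩,⟨true,0,⟨7,[(9,1),(22,3),(5,4),
  (0,0),(1,3),(3,1)]⟩,⟨0,[(27,0),(5,0)]⟩⟩,⟨true,0,⟨0,[(47,0)]⟩,⟨0,[(48,0)]⟩⟩,⟨false,0,⟨3,[(0,0),(0,
  2),(5,1),(24,1),(4,0),(0,0),(8,1)]⟩,⟨3,[(8,1),(4,3),(16,1),(2,3),(9,0),(5,0)]⟩⟩,⟨false,0,⟨0,[]⟩,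
  ⟨3,[(30,0),(0,0),(18,1)]⟩⟩,⟨false,0,⟨7,[(0,7),(8,1),(22,3),(5,4),(0,0),(1,3),(3,1)]⟩,⟨11,[(6,1),
  (1,5),(1,7),(2,1),(16,5),(2,11),(9,2),(6,0)]⟩⟩,[.o ⟨false,0,⟨0,[(26,0)]⟩,⟨15,[(8,7),(4,11),(14,3),
  (1,2),(0,2),(11,3),(4,3),(1,1)]⟩⟩,.a ⟨true,0,⟨0,[(14,0)]⟩,⟨0,[(22,0),(25,0)]⟩⟩ ⟨false,1,⟨21,[(4,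
  0),(0,1),(0,5),(1,0),(6,0),(6,0),(0,3),(6,10)]⟩,⟨0,[(0,0),(12,0),(38,0)]⟩⟩ ⟨true,0,⟨1,[(5,0),(26,
  0)]⟩,⟨1,[(13,0),(19,1),(0,0),(0,0),(12,0)]⟩⟩,.e ⟨false,1,⟨35,[(4,5),(0,5),(4,1),(4,3),(9,3),(4,
  22),(0,4),(7,5)]⟩,⟨0,[(0,0),(12,0)]⟩⟩ ⟨false,0,⟨1,[(5,0),(26,0)]⟩,⟨15,[(8,7),(4,11),(14,3),(1,2),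
  (0,2),(1,15),(9,3),(4,3),(1,1)]⟩⟩,.o ⟨false,0,⟨0,[(27,0),(5,0),(4,0)]⟩,⟨7,[(30,0),(0,0),(0,3),(10,
  1),(5,3)]⟩⟩]⟩) (.I [0,1,-1,0,0,0,0,1,1] (.R ⟨1,false,false,true,[1,0,0,-1],[0,-1,1],[1,0,0,-1,0,0,
  0,0,-1],(⟨1,[(33,0),(8,0),(0,0)]⟩,⟨0,[(34,0)]⟩),(⟨0,[(22,0)]⟩,⟨0,[(42,0),(3,0)]⟩),⟨3,[(3,0),(18,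
  0),(10,1),(11,0)]⟩,.k,.k,(.r (-1) ⟨4,[(1,0),(5,0),(16,1),(6,1)]⟩ ⟨1,[(0,1),(13,1),(24,0),(0,0)]⟩),
  (.r 0 ⟨0,[(1,0),(47,0)]⟩ ⟨11,[(20,3),(3,3),(6,0),(0,6)]⟩),.k,.k,⟨false,1,⟨2,[(1,0),(5,0),(6,0),
  (16,0),(19,0)]⟩,⟨0,[(0,0)]⟩⟩,⟨true,0,⟨7,[(10,1),(22,3),(5,4),(0,0),(1,3),(3,1)]⟩,⟨0,[(28,0),(5,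
  0)]⟩⟩,⟨false,1,⟨9,[(6,0),(4,1),(4,3),(14,1),(0,1),(3,0),(3,0),(10,1)]⟩,⟨0,[(49,0)]⟩⟩,⟨false,0,⟨5,
  [(0,1),(1,3),(3,2),(26,2),(4,1),(0,1)]⟩,⟨3,[(9,1),(4,3),(16,1),(2,3),(9,0),(5,0)]⟩⟩,⟨true,0,⟨0,
  []⟩,⟨0,[(53,0)]⟩⟩,⟨false,0,⟨23,[(0,15),(1,7),(5,7),(1,1),(3,7),(18,11),(5,4),(0,0),(1,3),(3,1)]⟩,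
  ⟨11,[(1,7),(5,1),(1,5),(4,1),(16,1),(2,11),(9,2),(6,4)]⟩⟩,[.o ⟨false,0,⟨0,[(27,0)]⟩,⟨15,[(9,7),(4,
  11),(14,3),(1,2),(0,2),(11,3),(4,3),(1,1)]⟩⟩,.a ⟨true,0,⟨0,[(15,0)]⟩,⟨0,[(23,0),(25,0)]⟩⟩ ⟨false,
  1,⟨0,[(1,0),(16,0)]⟩,⟨0,[(0,0),(13,0),(38,0)]⟩⟩ ⟨true,0,⟨1,[(6,0),(26,0)]⟩,⟨1,[(14,0),(19,1),(0,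
  0),(0,0),(12,0)]⟩⟩,.e ⟨false,1,⟨1,[(16,0),(14,0),(15,0)]⟩,⟨0,[(0,0),(13,0)]⟩⟩ ⟨false,0,⟨1,[(6,0),
  (26,0)]⟩,⟨15,[(9,7),(4,11),(14,3),(1,2),(0,2),(1,15),(9,3),(4,3),(1,1)]⟩⟩,.o ⟨false,0,⟨0,[(28,0),
  (5,0),(4,0)]⟩,⟨7,[(31,0),(0,0),(0,3),(10,1),(5,3)]⟩⟩]⟩) (.Q [0,0,0,0,0,1,0,0,0,0,0,-1] (.p false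
  [0,0,0,1] [] (⟨0,[(34,0)]⟩,⟨1,[(33,0),(8,0),(0,0)]⟩) .k 0 (⟨0,[]⟩,⟨0,[]⟩) .k .k) (.Q [0,1,0,-1,0,
  0,0,0,0,-1,0,1] (.p true [0,0,0,1] [1] (⟨0,[(35,0)]⟩,⟨1,[(34,0),(8,0),(0,0)]⟩) .k 1 (⟨0,[]⟩,⟨0,
  []⟩) .k .k) (.R ⟨0,false,false,true,[0,0,0,1],[1,-1],[1,0,0,0,0,0,0,0,1],(⟨0,[(36,0)]⟩,⟨1,[(35,0),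
  (8,0),(0,0)]⟩),(⟨0,[(47,0)]⟩,⟨0,[(48,0)]⟩),⟨0,[(1,0)]⟩,.k,.k,(.r (-1) ⟨36,[(4,0),(2,1),(0,1),(0,
  8),(8,0),(6,1),(0,8),(7,17)]⟩ ⟨0,[(3,0),(39,0),(7,0)]⟩),(.r 0 ⟨1,[(4,1),(36,0),(0,0),(8,1),(3,
  1)]⟩ ⟨20,[(2,0),(4,0),(0,0),(0,4),(15,0),(0,5),(6,9)]⟩),.k,.k,⟨false,0,⟨0,[(4,0),(46,0)]⟩,⟨3,[(15,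
  0),(7,0),(2,0),(6,1),(16,0),(4,1)]⟩⟩,⟨true,0,⟨2,[(0,1),(9,0),(5,1),(13,0),(5,0),(1,0),(12,0)]⟩,⟨1,
  [(35,0),(8,0),(0,0)]⟩⟩,⟨true,0,⟨0,[]⟩,⟨0,[(55,0)]⟩⟩,⟨false,1,⟨1,[(0,1),(32,0),(19,0)]⟩,⟨1,[(4,1),
  (30,0),(8,0),(0,0),(5,1)]⟩⟩,⟨false,0,⟨0,[]⟩,⟨0,[]⟩⟩,⟨false,0,⟨0,[]⟩,⟨0,[]⟩⟩,[.e ⟨true,0,⟨0,[(4,0),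
  (50,0)]⟩,⟨0,[(3,0),(39,0)]⟩⟩ ⟨true,0,⟨0,[(0,0)]⟩,⟨1,[(16,1),(18,0),(7,1),(0,0),(0,0)]⟩⟩,.o ⟨false,
  1,⟨63,[(3,7),(3,3),(10,15),(2,11),(11,8),(0,12),(3,7),(7,25)]⟩,⟨0,[(51,0)]⟩⟩,.a ⟨true,0,⟨1,[(35,
  0),(8,0),(0,0)]⟩,⟨0,[(36,0)]⟩⟩ ⟨false,0,⟨0,[(4,0)]⟩,⟨3,[(33,2),(0,0)]⟩⟩ ⟨true,0,⟨0,[(0,0)]⟩,⟨1,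
  [(35,0),(8,0),(0,0),(5,1)]⟩⟩,.o ⟨false,0,⟨1,[(35,0),(2,0),(2,0)]⟩,⟨1,[(36,1),(9,0),(5,0)]⟩⟩]⟩)
  (.R ⟨0,false,false,true,[0,0,0,1],[1,-1],[1,0,0,0,0,0,0,0,1],(⟨0,[(36,0)]⟩,⟨2,[(0,0),(16,0),(17,
  0),(4,0)]⟩),(⟨0,[(47,0)]⟩,⟨0,[(48,0)]⟩),⟨0,[(1,0)]⟩,.k,.k,(.r (-1) ⟨36,[(4,0),(2,1),(0,1),(0,8),
  (8,0),(6,1),(0,8),(7,17)]⟩ ⟨0,[(3,0),(39,0),(7,0)]⟩),(.r 0 ⟨1,[(4,1),(36,0),(0,0),(8,1),(3,1)]⟩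
  ⟨20,[(2,0),(4,0),(0,0),(0,4),(15,0),(0,5),(6,9)]⟩),.k,.k,⟨false,0,⟨0,[(4,0),(46,0)]⟩,⟨3,[(15,0),
  (7,0),(2,0),(6,1),(16,0),(4,1)]⟩⟩,⟨true,0,⟨0,[(30,0),(5,0),(4,0)]⟩,⟨2,[(0,0),(16,0),(17,0),(4,
  0)]⟩⟩,⟨true,0,⟨0,[]⟩,⟨0,[(55,0)]⟩⟩,⟨false,1,⟨131,[(2,13),(4,29),(0,17),(9,15),(3,3),(10,58),(2,
  131),(1,5),(7,56)]⟩,⟨0,[(0,0),(3,0),(50,0)]⟩⟩,⟨false,0,⟨0,[]⟩,⟨0,[]⟩⟩,⟨false,0,⟨0,[]⟩,⟨0,[]⟩⟩,[.a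
  ⟨true,0,⟨0,[(50,0)]⟩,⟨0,[(0,0),(35,0)]⟩⟩ ⟨true,0,⟨0,[(4,0),(50,0)]⟩,⟨0,[(3,0),(39,0)]⟩⟩ ⟨false,1,
  ⟨3,[(15,0),(7,0),(2,0),(9,3),(9,1),(3,0),(4,1)]⟩,⟨0,[(0,0)]⟩⟩,.o ⟨false,1,⟨63,[(3,7),(3,3),(10,
  15),(2,11),(11,8),(0,12),(3,7),(7,25)]⟩,⟨0,[(51,0)]⟩⟩,.e ⟨false,0,⟨0,[(4,0)]⟩,⟨3,[(33,2),(0,0)]⟩⟩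
  ⟨false,1,⟨63,[(3,7),(3,3),(10,15),(2,11),(11,8),(0,12),(1,63),(1,7),(7,25)]⟩,⟨0,[(0,0)]⟩⟩,.o
  ⟨false,0,⟨1,[(35,0),(2,0),(2,0)]⟩,⟨1,[(36,1),(9,0),(5,0)]⟩⟩]⟩)) (.Q [0,1,0,0,0,0,0,0,-1,0,0,1]
  (.p true [0,0,0,1] [] (⟨0,[(35,0)]⟩,⟨1,[(34,0),(8,0),(0,0)]⟩) .k 0 (⟨0,[]⟩,⟨0,[]⟩) .k .k) (.K ⟨1,
  [0,0,0,1],0,0,(⟨0,[(36,0)]⟩,⟨1,[(35,0),(8,0),(0,0)]⟩),.k,(.r (-1) ⟨36,[(4,0),(2,1),(0,1),(0,8),(8,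
  0),(6,1),(0,8),(7,17)]⟩ ⟨0,[(3,0),(39,0),(7,0)]⟩),(.r 0 ⟨1,[(4,1),(36,0),(0,0),(8,1),(3,1)]⟩ ⟨43,
  [(0,1),(1,1),(4,1),(0,0),(0,9),(8,1),(7,11),(6,19),(1,0)]⟩),.k,.k,[⟨1,[(36,1),(4,0),(0,0)]⟩,⟨1,
  [(35,0),(2,0),(2,0)]⟩,⟨0,[(0,0)]⟩,⟨1,[(4,1),(30,0),(8,0),(0,0)]⟩]⟩) (.Q [0,0,0,-1,0,0,-1,-1,0,0,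
  1] (.p true [0,0,1] [] (⟨0,[(45,0)]⟩,⟨0,[(44,0)]⟩) .k 0 (⟨0,[]⟩,⟨0,[]⟩) .k .k) (.I [1,1,2,1,-1,0,
  0,1,1] (.R ⟨1,false,false,true,[1,0,0,-1],[0,1,1],[0,0,0,0,0,0,0,0,-1],(⟨1,[(37,0),(8,0),(0,0)]⟩,
  ⟨0,[(38,0)]⟩),(⟨0,[(47,0),(2,0)]⟩,⟨0,[(29,0)]⟩),⟨3,[(7,0),(18,0),(10,1),(11,0)]⟩,.k,.k,(.r (-1)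
  ⟨24,[(1,0),(2,0),(4,0),(0,0),(0,5),(16,6),(6,11)]⟩ ⟨2,[(0,0),(17,0),(17,0),(16,0)]⟩),(.r (-1) ⟨14,
  [(1,0),(2,0),(0,3),(3,0),(0,0),(0,9),(23,4)]⟩ ⟨15,[(0,11),(21,3),(12,0),(0,2),(16,7),(1,3)]⟩),(.x
  0 ⟨1,[(7,1),(32,1),(2,0),(0,0)]⟩ ⟨0,[(8,0),(38,0),(2,1)]⟩),.k,⟨true,1,⟨8,[(4,6),(6,4),(10,1),(5,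
  0),(6,0)]⟩,⟨0,[(0,0)]⟩⟩,⟨false,1,⟨1,[(8,0),(8,0),(19,0)]⟩,⟨0,[(38,0),(1,0)]⟩⟩,⟨false,1,⟨3,[(35,0),
  (0,0),(18,1)]⟩,⟨0,[]⟩⟩,⟨false,0,⟨3,[(0,1),(1,1),(9,0),(4,1),(19,0),(15,2)]⟩,⟨7,[(4,3),(8,1),(6,1),
  (4,3),(9,1),(2,7),(9,0),(6,2)]⟩⟩,⟨true,0,⟨0,[(53,0)]⟩,⟨0,[(52,0)]⟩⟩,⟨false,0,⟨3,[(0,1),(1,1),(9,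
  0),(4,1),(19,0),(15,6)]⟩,⟨5,[(4,3),(4,1),(10,3),(13,1),(0,0),(2,5),(9,0)]⟩⟩,[.o ⟨false,0,⟨0,[(41,
  0),(11,0)]⟩,⟨0,[(25,0),(29,0)]⟩⟩,.a ⟨true,0,⟨1,[(12,0),(33,0),(0,0),(5,2)]⟩,⟨0,[(1,0)]⟩⟩ ⟨false,1,
  ⟨9,[(4,3),(3,0),(4,0),(3,0),(0,0),(3,4),(12,2),(17,3)]⟩,⟨0,[(0,0),(10,0)]⟩⟩ ⟨true,0,⟨1,[(12,0),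
  (24,0),(15,2)]⟩,⟨1,[(9,0),(5,0),(22,1),(1,0)]⟩⟩,.e ⟨false,1,⟨1,[(35,0),(19,0)]⟩,⟨1,[(0,0),(5,0),
  (4,0)]⟩⟩ ⟨false,0,⟨1,[(12,0),(24,0),(15,2)]⟩,⟨0,[(25,0),(12,0),(16,0)]⟩⟩,.o ⟨false,0,⟨0,[(32,0),
  (5,0),(4,0)]⟩,⟨7,[(35,0),(0,0),(0,3),(10,1),(5,3)]⟩⟩]⟩) (.Q [0,1,0,1,0,0,0,0,-1,0,0,1] (.p true
  [0,0,0,1] [] (⟨0,[(38,0)]⟩,⟨1,[(37,0),(8,0),(0,0)]⟩) .k 0 (⟨0,[]⟩,⟨0,[]⟩) .k .k) (.R ⟨1,false,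
  false,false,[1,0,0,-1],[1,-1],[1],(⟨1,[(38,0),(8,0),(0,0)]⟩,⟨0,[(39,0)]⟩),(⟨0,[(50,0)]⟩,⟨0,[(51,
  0)]⟩),⟨3,[(8,0),(18,0),(10,1),(11,0)]⟩,.k,.k,(.r (-1) ⟨6,[(1,0),(27,1),(1,0),(4,2),(16,0)]⟩ ⟨1,
  [(7,1),(36,0),(0,0),(8,1),(3,1)]⟩),(.r 0 ⟨3,[(0,1),(4,1),(7,0),(24,0),(2,1),(12,2)]⟩ ⟨44,[(2,1),
  (4,0),(2,1),(0,1),(0,10),(8,0),(7,10),(7,21)]⟩),.k,.k,⟨false,0,⟨0,[(54,0)]⟩,⟨5,[(29,1),(1,1),(4,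
  0),(0,0)]⟩⟩,⟨true,0,⟨1,[(38,0),(2,0),(2,0)]⟩,⟨0,[(39,0)]⟩⟩,⟨false,0,⟨0,[(7,0)]⟩,⟨3,[(36,2),(0,
  0)]⟩⟩,⟨true,0,⟨0,[(3,0),(49,0)]⟩,⟨0,[(0,0)]⟩⟩,⟨false,0,⟨0,[(7,0),(46,0)]⟩,⟨12,[(6,0),(3,1),(0,1),
  (9,1),(9,0),(4,7),(0,1),(7,1)]⟩⟩,⟨false,0,⟨0,[(3,0)]⟩,⟨3,[(36,2),(0,0),(1,3)]⟩⟩,[.o ⟨false,1,⟨63,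
  [(6,7),(3,3),(10,15),(2,11),(11,8),(0,12),(3,7),(7,25)]⟩,⟨0,[(54,0)]⟩⟩,.o ⟨false,1,⟨1,[(21,0),(27,
  0),(2,0)]⟩,⟨0,[(54,0),(3,0)]⟩⟩,.a ⟨true,0,⟨0,[(39,0)]⟩,⟨1,[(38,0),(8,0),(0,0)]⟩⟩ ⟨true,0,⟨0,[]⟩,
  ⟨0,[(58,0)]⟩⟩ ⟨false,1,⟨9,[(11,0),(4,1),(4,3),(14,0),(0,0),(0,4),(2,1),(7,1),(6,1)]⟩,⟨0,[(39,0),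
  (14,0)]⟩⟩,.o ⟨false,0,⟨0,[(33,0),(5,0),(4,0)]⟩,⟨7,[(36,0),(0,0),(0,3),(10,1),(5,3)]⟩⟩]⟩) (.Q [0,
  -1,0,1,0,0,0,0,0,1,0,-1] (.p false [0,0,0,1] [1] (⟨0,[(39,0)]⟩,⟨1,[(38,0),(8,0),(0,0)]⟩) .k 1 (⟨0,
  []⟩,⟨0,[]⟩) .k .k) (.R ⟨1,false,false,true,[0,0,0,1],[1,-1],[0,1,0,0,0,0,0,0,1],(⟨0,[(40,0)]⟩,⟨2,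
  [(0,0),(20,0),(17,0),(4,0)]⟩),(⟨0,[(51,0)]⟩,⟨0,[(52,0)]⟩),⟨0,[(5,0)]⟩,.k,.k,(.r (-1) ⟨44,[(3,1),
  (4,0),(2,1),(0,1),(0,10),(8,0),(7,10),(7,21)]⟩ ⟨0,[(7,0),(39,0),(7,0)]⟩),(.r 0 ⟨1,[(8,1),(36,0),
  (0,0),(8,1),(3,1)]⟩ ⟨6,[(2,0),(27,1),(1,0),(4,2),(16,0)]⟩),.k,.k,⟨false,0,⟨0,[(8,0),(46,0),(3,
  0)]⟩,⟨6,[(2,0),(27,1),(1,0),(4,2),(16,0)]⟩⟩,⟨true,0,⟨0,[(34,0),(5,0),(4,0)]⟩,⟨2,[(0,0),(20,0),(17,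
  0),(4,0)]⟩⟩,⟨true,0,⟨0,[(59,0)]⟩,⟨0,[]⟩⟩,⟨false,1,⟨131,[(6,13),(4,29),(0,17),(9,15),(3,3),(10,58),
  (2,131),(1,5),(7,56)]⟩,⟨0,[(0,0),(7,0),(50,0)]⟩⟩,⟨false,0,⟨0,[(55,0)]⟩,⟨9,[(12,0),(4,1),(4,3),(14,
  1),(0,1),(3,0),(3,0),(10,1)]⟩⟩,⟨false,1,⟨1,[(37,0),(2,1),(9,0)]⟩,⟨2,[(0,0),(7,2),(12,0),(17,0),(4,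
  0)]⟩⟩,[.a ⟨true,0,⟨0,[(54,0)]⟩,⟨0,[(0,0),(39,0)]⟩⟩ ⟨true,0,⟨0,[(8,0),(50,1)]⟩,⟨0,[(6,0),(40,0)]⟩⟩
  ⟨false,1,⟨3,[(19,0),(7,0),(2,0),(9,3),(9,1),(3,0),(4,1)]⟩,⟨0,[(0,0)]⟩⟩,.o ⟨false,1,⟨63,[(7,7),(3,
  3),(10,15),(2,11),(11,8),(0,12),(3,7),(7,25)]⟩,⟨0,[(55,0)]⟩⟩,.e ⟨false,0,⟨0,[(8,0),(50,0)]⟩,⟨1,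
  [(37,0),(19,0)]⟩⟩ ⟨false,1,⟨63,[(7,7),(3,3),(10,15),(2,11),(11,8),(0,12),(1,63),(1,7),(7,25)]⟩,⟨0,
  [(0,0)]⟩⟩,.o ⟨false,0,⟨1,[(39,0),(2,0),(2,0)]⟩,⟨1,[(40,1),(9,0),(5,0)]⟩⟩]⟩) (.R ⟨1,false,false,
  true,[0,0,0,1],[1,-1],[0,1,0,0,0,0,0,0,1],(⟨0,[(40,0)]⟩,⟨1,[(39,0),(8,0),(0,0)]⟩),(⟨0,[(51,0)]⟩,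
  ⟨0,[(52,0)]⟩),⟨0,[(5,0)]⟩,.k,.k,(.r (-1) ⟨44,[(3,1),(4,0),(2,1),(0,1),(0,10),(8,0),(7,10),(7,
  21)]⟩ ⟨0,[(7,0),(39,0),(7,0)]⟩),(.r 0 ⟨1,[(8,1),(36,0),(0,0),(8,1),(3,1)]⟩ ⟨6,[(2,0),(27,1),(1,0),
  (4,2),(16,0)]⟩),.k,.k,⟨false,0,⟨0,[(8,0),(46,0),(3,0)]⟩,⟨6,[(2,0),(27,1),(1,0),(4,2),(16,0)]⟩⟩,
  ⟨true,0,⟨0,[(34,0),(5,0),(4,0)]⟩,⟨1,[(39,0),(8,0),(0,0)]⟩⟩,⟨true,0,⟨0,[(59,0)]⟩,⟨0,[]⟩⟩,⟨false,1,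
  ⟨1,[(0,1),(36,0),(19,0)]⟩,⟨1,[(8,1),(30,0),(8,0),(0,0),(5,1)]⟩⟩,⟨false,0,⟨0,[(55,0)]⟩,⟨9,[(12,0),
  (4,1),(4,3),(14,1),(0,1),(3,0),(3,0),(10,1)]⟩⟩,⟨false,1,⟨1,[(37,0),(2,1),(9,0)]⟩,⟨1,[(8,1),(30,0),
  (8,0),(0,0)]⟩⟩,[.e ⟨true,0,⟨0,[(8,0),(50,1)]⟩,⟨0,[(6,0),(40,0)]⟩⟩ ⟨true,0,⟨0,[(0,0)]⟩,⟨1,[(20,1),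
  (18,0),(7,1),(0,0),(0,0)]⟩⟩,.o ⟨false,1,⟨63,[(7,7),(3,3),(10,15),(2,11),(11,8),(0,12),(3,7),(7,
  25)]⟩,⟨0,[(55,0)]⟩⟩,.a ⟨true,0,⟨1,[(39,0),(8,0),(0,0)]⟩,⟨0,[(40,0)]⟩⟩ ⟨false,0,⟨0,[(8,0),(50,0)]⟩,
  ⟨1,[(37,0),(19,0)]⟩⟩ ⟨true,0,⟨0,[(0,0)]⟩,⟨1,[(39,0),(8,0),(0,0),(5,1)]⟩⟩,.o ⟨false,0,⟨1,[(39,0),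
  (2,0),(2,0)]⟩,⟨1,[(40,1),(9,0),(5,0)]⟩⟩]⟩)))) (.R ⟨1,false,false,true,[0,0,0,1],[1,-1],[0,0,0,0,0,
  0,0,0,1],(⟨0,[(37,0)]⟩,⟨1,[(36,0),(8,0),(0,0)]⟩),(⟨0,[(48,0)]⟩,⟨0,[(49,0)]⟩),⟨0,[(2,0)]⟩,.k,.k,
  (.r (-1) ⟨36,[(5,0),(2,1),(0,1),(0,8),(8,0),(6,1),(0,8),(7,17)]⟩ ⟨0,[(4,0),(39,0),(7,0)]⟩),(.r 0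
  ⟨1,[(0,0),(4,1),(11,0),(25,0),(12,2)]⟩ ⟨20,[(3,0),(4,0),(0,0),(0,4),(15,0),(0,5),(6,9)]⟩),.k,.k,
  ⟨false,0,⟨0,[(5,0),(46,0)]⟩,⟨3,[(16,0),(7,0),(2,0),(6,1),(16,0),(4,1)]⟩⟩,⟨true,0,⟨0,[(31,0),(5,0),
  (4,0)]⟩,⟨1,[(36,0),(8,0),(0,0)]⟩⟩,⟨false,1,⟨3,[(34,0),(0,0),(18,1)]⟩,⟨0,[]⟩⟩,⟨false,1,⟨131,[(3,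
  13),(4,29),(0,17),(9,15),(3,3),(10,58),(2,131),(1,5),(7,56)]⟩,⟨1,[(5,1),(30,0),(8,0),(0,0),(5,
  1)]⟩⟩,⟨true,0,⟨0,[(52,0)]⟩,⟨0,[(51,0)]⟩⟩,⟨false,1,⟨1,[(34,0),(2,1),(9,0)]⟩,⟨1,[(5,1),(30,0),(8,0),
  (0,0)]⟩⟩,[.o ⟨false,0,⟨0,[(0,0),(7,0)]⟩,⟨3,[(34,0),(0,0),(16,3),(1,1)]⟩⟩,.o ⟨false,1,⟨63,[(4,7),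
  (3,3),(10,15),(2,11),(11,8),(0,12),(3,7),(7,25)]⟩,⟨0,[(52,0)]⟩⟩,.a ⟨true,0,⟨1,[(36,0),(8,0),(0,
  0)]⟩,⟨0,[(37,0)]⟩⟩ ⟨false,0,⟨0,[(5,0)]⟩,⟨3,[(34,2),(0,0)]⟩⟩ ⟨true,0,⟨0,[(0,0),(7,0),(28,0)]⟩,⟨1,
  [(36,0),(8,0),(0,0),(5,1)]⟩⟩,.o ⟨false,0,⟨1,[(36,0),(2,0),(2,0)]⟩,⟨1,[(37,1),(9,0),(5,
  0)]⟩⟩]⟩)))))))) (.K ⟨0,[0,1,1],1,0,(⟨0,[(39,0),(2,0)]⟩,⟨0,[(21,0)]⟩),.k,.k,(.x (-1) ⟨1,[(3,0),(1,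
  0),(0,0),(1,0),(33,4),(2,1)]⟩ ⟨2,[(6,0),(14,4),(10,4)]⟩),.k,.k,[⟨0,[(0,0)]⟩,⟨0,[(9,0)]⟩,⟨3,[(1,0),
  (0,0),(16,1),(14,2)]⟩,⟨0,[(33,0),(11,0)]⟩]⟩)))))

theorem ok27 : chk (cU (-1) false 2) t27 r29 = true := by decide +kernel

noncomputable def t37 : Tre :=
  (.I [0,0,1,1,0,0,0,0,1] (.I [0,-1,0,0,0,0,0,0,-1] (.R ⟨1,false,false,true,[1,0,0,-1],[1,-1],[0,0,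
  0,0,0,0,0,0,-1],(⟨1,[(20,0),(8,0),(0,0)]⟩,⟨0,[(21,0)]⟩),(⟨0,[(32,0)]⟩,⟨0,[(33,0)]⟩),⟨1,[(9,0),(2,
  0),(7,0)]⟩,.k,.k,(.r (-1) ⟨7,[(0,1),(10,1),(1,1),(4,2),(16,1),(1,0)]⟩ ⟨0,[(1,0)]⟩),(.x (-1) ⟨3,
  [(18,0),(0,0),(13,3),(3,1)]⟩ ⟨1,[(9,0),(2,0),(10,0),(2,0)]⟩),.k,.k,⟨false,0,⟨0,[(0,0),(35,0)]⟩,⟨1,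
  [(19,0),(15,1),(1,0)]⟩⟩,⟨true,0,⟨1,[(20,0),(2,0),(2,0)]⟩,⟨0,[(21,0)]⟩⟩,⟨false,1,⟨3,[(18,0),(0,0),
  (18,1)]⟩,⟨0,[]⟩⟩,⟨false,1,⟨55,[(3,15),(2,7),(1,7),(9,2),(0,30),(0,27),(2,7),(2,7),(4,5)]⟩,⟨0,[(0,
  0),(20,0),(14,0)]⟩⟩,⟨true,0,⟨0,[(36,0)]⟩,⟨0,[(35,0)]⟩⟩,⟨false,1,⟨7,[(18,0),(0,4),(0,3),(10,1)]⟩,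
  ⟨0,[(0,0),(20,0)]⟩⟩,[.o ⟨false,0,⟨0,[(2,0),(3,0)]⟩,⟨3,[(18,0),(0,0),(16,3),(1,1)]⟩⟩,.o ⟨false,1,
  ⟨27,[(3,7),(2,3),(1,3),(9,4),(0,4),(3,3),(2,3),(4,9)]⟩,⟨0,[(36,0)]⟩⟩,.a ⟨true,0,⟨0,[(21,0)]⟩,⟨1,
  [(20,0),(8,0),(0,0)]⟩⟩ ⟨false,0,⟨0,[(0,0)]⟩,⟨3,[(18,0),(0,2)]⟩⟩ ⟨true,0,⟨3,[(6,0),(1,1),(11,1),(3,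
  0)]⟩,⟨0,[(21,0),(14,0)]⟩⟩,.o ⟨false,0,⟨0,[(15,0),(5,0),(4,0)]⟩,⟨7,[(18,0),(0,0),(0,3),(10,1),(5,
  3)]⟩⟩]⟩) (.Q [0,0,0,0,0,0,1,1,0,1,-1] (.p false [0,0,1] [1] (⟨0,[(30,0)]⟩,⟨0,[(29,0)]⟩) .k 1 (⟨0,
  []⟩,⟨0,[]⟩) .k .k) (.I [0,1,-1,0,0,0,0,1] (.R ⟨2,true,false,false,[0,1],[1,1,-1],[0,1,1,1],(⟨0,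
  []⟩,⟨0,[]⟩),(⟨0,[(31,0),(3,0)]⟩,⟨0,[(11,0)]⟩),⟨0,[]⟩,.k,.k,.k,.k,.k,.k,⟨false,0,⟨0,[(0,0)]⟩,⟨1,
  [(12,0),(5,0),(9,0),(11,0)]⟩⟩,⟨true,0,⟨0,[(17,0)]⟩,⟨0,[(28,0),(2,0),(0,0)]⟩⟩,⟨true,0,⟨0,[(42,0)]⟩,
  ⟨0,[]⟩⟩,⟨false,1,⟨1,[(12,1),(20,0),(6,0)]⟩,⟨0,[(1,0)]⟩⟩,⟨false,0,⟨0,[(38,0)]⟩,⟨7,[(5,3),(14,0),(0,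
  0),(6,1),(0,1),(10,1)]⟩⟩,⟨true,0,⟨0,[(4,0)]⟩,⟨0,[(1,0),(35,0)]⟩⟩,[]⟩) (.Q [0,0,0,0,0,2,0,0,0,0,
  -1] (.p false [0,0,1] [] (⟨0,[(32,0)]⟩,⟨0,[(31,0)]⟩) .k 0 (⟨0,[]⟩,⟨0,[]⟩) .k .k) (.R ⟨0,false,
  false,false,[0,-1,1],[1,0,-1],[0,0,1],(⟨0,[(12,0)]⟩,⟨0,[(32,0),(3,0)]⟩),(⟨0,[(32,0)]⟩,⟨0,[(33,
  0)]⟩),⟨0,[(0,0)]⟩,.k,.k,(.r (-1) ⟨0,[(14,0)]⟩ ⟨1,[(1,0),(26,0),(0,1),(0,0),(8,3)]⟩),(.x (-1) ⟨7,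
  [(12,7),(6,3),(1,0),(0,0),(4,3),(1,11),(3,7),(7,1)]⟩ ⟨0,[(0,0),(4,0),(4,0),(2,0),(1,0)]⟩),.k,.k,
  ⟨false,0,⟨0,[(31,0)]⟩,⟨0,[(19,0)]⟩⟩,⟨true,0,⟨0,[(5,0),(4,0),(2,0)]⟩,⟨1,[(1,0),(0,1),(25,0),(0,
  2)]⟩⟩,⟨false,0,⟨1,[(1,1),(27,0),(0,0),(8,1)]⟩,⟨11,[(10,3),(3,3),(6,0),(0,0),(17,5)]⟩⟩,⟨true,0,⟨0,
  [(5,0),(7,0)]⟩,⟨1,[(2,1),(6,0),(17,0)]⟩⟩,⟨false,0,⟨0,[]⟩,⟨0,[]⟩⟩,⟨false,0,⟨0,[]⟩,⟨0,[]⟩⟩,[.a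
  ⟨true,0,⟨0,[(13,0)]⟩,⟨0,[(2,0)]⟩⟩ ⟨true,0,⟨1,[(29,0),(0,0)]⟩,⟨0,[]⟩⟩ ⟨false,1,⟨4,[(5,1),(2,0),(2,
  0),(1,2),(6,1),(19,3)]⟩,⟨0,[(2,0),(26,0)]⟩⟩,.o ⟨false,1,⟨1,[(13,1),(20,0),(6,0)]⟩,⟨0,[(27,0)]⟩⟩,
  .o ⟨false,0,⟨0,[(29,0)]⟩,⟨7,[(20,3),(0,0),(0,0),(11,1),(5,3)]⟩⟩,.o ⟨false,0,⟨1,[(29,2),(0,0)]⟩,⟨0,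
  [(18,0),(21,0)]⟩⟩]⟩) (.I [1,0,0,0,0,0,0,0,-1] (.Q [0,0,0,0,0,0,0,0,-1,-1,0,1] (.p true [0,0,0,1]
  [1] (⟨0,[(25,0)]⟩,⟨1,[(24,0),(8,0),(0,0)]⟩) .k 1 (⟨0,[]⟩,⟨0,[]⟩) .k .k) (.R ⟨1,false,false,false,
  [1,0,0,-1],[1,-1],[0,0,0,0,0,0,0,0,-1],(⟨1,[(25,0),(8,0),(0,0)]⟩,⟨0,[(26,0)]⟩),(⟨0,[(37,0)]⟩,⟨0,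
  [(38,0)]⟩),⟨3,[(2,0),(14,0),(7,1),(11,0)]⟩,.k,.k,(.r (-1) ⟨2,[(1,0),(14,0),(1,0),(4,0)]⟩ ⟨0,[(6,
  0)]⟩),(.r 0 ⟨0,[(1,1),(4,0)]⟩ ⟨3,[(5,1),(2,0),(1,0),(7,0),(5,0)]⟩),.k,.k,⟨false,0,⟨0,[(1,0),(39,
  0)]⟩,⟨3,[(5,1),(2,0),(1,0),(7,0),(5,0)]⟩⟩,⟨true,0,⟨1,[(25,0),(2,0),(2,0)]⟩,⟨0,[(26,0)]⟩⟩,⟨false,1,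
  ⟨3,[(23,0),(0,0),(18,1)]⟩,⟨0,[]⟩⟩,⟨false,1,⟨7,[(3,6),(6,2),(0,1),(0,0),(7,1),(3,3),(0,3),(10,0)]⟩,
  ⟨0,[(1,0),(24,0),(14,0)]⟩⟩,⟨true,0,⟨0,[(41,0)]⟩,⟨0,[(40,0)]⟩⟩,⟨false,1,⟨3,[(3,1),(2,1),(3,1),(13,
  0),(0,1),(10,0)]⟩,⟨0,[(1,0),(24,0)]⟩⟩,[.o ⟨false,1,⟨35,[(3,3),(4,7),(2,7),(1,3),(9,6),(0,6),(3,3),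
  (7,13)]⟩,⟨0,[(41,0)]⟩⟩,.o ⟨false,1,⟨1,[(8,0),(27,0),(2,0)]⟩,⟨0,[(41,0),(3,0)]⟩⟩,.a ⟨true,0,⟨0,
  [(26,0)]⟩,⟨1,[(25,0),(8,0),(0,0)]⟩⟩ ⟨true,0,⟨1,[(0,1),(1,0),(14,0),(7,0),(12,2)]⟩,⟨0,[(5,0)]⟩⟩
  ⟨false,1,⟨15,[(8,7),(14,0),(0,0),(0,7),(2,3),(2,3),(4,1),(6,3)]⟩,⟨0,[(26,0),(14,0)]⟩⟩,.o ⟨false,0,
  ⟨2,[(0,1),(2,0),(2,1),(4,0),(8,0),(5,0)]⟩,⟨7,[(23,0),(0,0),(0,3),(10,1),(5,3)]⟩⟩]⟩) (.R ⟨2,false,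
  false,false,[0,1],[1,0,0,-1],[1,1,1],(⟨0,[]⟩,⟨0,[]⟩),(⟨1,[(25,0),(8,0),(0,0)]⟩,⟨0,[(26,0)]⟩),⟨0,
  []⟩,.k,.k,.k,(.r 0 ⟨0,[(6,0)]⟩ ⟨2,[(1,0),(14,0),(1,0),(4,0)]⟩),.k,.k,⟨false,0,⟨0,[(5,0)]⟩,⟨1,[(1,
  1),(40,0),(0,0)]⟩⟩,⟨true,0,⟨0,[(20,0),(5,0),(4,0)]⟩,⟨1,[(25,0),(8,0),(0,0)]⟩⟩,⟨true,0,⟨0,[(40,
  0)]⟩,⟨0,[(41,0)]⟩⟩,⟨false,1,⟨1,[(1,1),(6,0),(17,1),(9,0),(2,0)]⟩,⟨0,[(0,0),(40,0)]⟩⟩,⟨false,0,⟨0,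
  []⟩,⟨3,[(23,0),(0,0),(18,1)]⟩⟩,⟨false,1,⟨1,[(1,1),(24,1),(9,0),(6,0)]⟩,⟨0,[(0,0)]⟩⟩,[.a ⟨true,0,
  ⟨0,[(1,0),(24,0)]⟩,⟨0,[(0,0)]⟩⟩ ⟨false,0,⟨0,[(45,0)]⟩,⟨1,[(42,0),(0,0)]⟩⟩ ⟨true,0,⟨0,[(1,0),(18,
  0),(5,0),(4,0)]⟩,⟨0,[(0,0)]⟩⟩,.o ⟨false,1,⟨1,[(1,1),(24,1),(9,0),(6,0)]⟩,⟨1,[(0,1),(6,1),(3,0),
  (17,0)]⟩⟩,.o ⟨false,1,⟨3,[(23,0),(0,0),(17,1)]⟩,⟨0,[(20,0),(10,0)]⟩⟩,.e ⟨false,0,⟨0,[]⟩,⟨3,[(23,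
  0),(0,0),(18,1)]⟩⟩ ⟨false,1,⟨1,[(1,1),(24,1),(9,0),(6,0)]⟩,⟨0,[(0,0)]⟩⟩]⟩)) (.I [0,1,1,2,-1,0,0,
  1] (.R ⟨1,false,false,true,[1,-1],[0,0,1],[1,0,-1,-2],(⟨0,[(37,0)]⟩,⟨0,[(38,0)]⟩),(⟨0,[(35,0)]⟩,
  ⟨0,[(34,0)]⟩),⟨1,[(2,0),(14,0),(19,0)]⟩,.k,.k,(.r (-2) ⟨2,[(16,1),(1,1),(4,0),(0,0)]⟩ ⟨0,[(0,0),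
  (2,0)]⟩),.k,(.r (-2) ⟨5,[(16,1),(1,7),(4,0),(0,0)]⟩ ⟨0,[(0,0),(38,0)]⟩),.k,⟨false,2,⟨3,[(8,0),(1,
  0),(7,4),(24,0)]⟩,⟨0,[(0,0)]⟩⟩,⟨true,1,⟨0,[(4,0),(16,0)]⟩,⟨0,[(0,0),(2,1),(8,0),(0,0)]⟩⟩,⟨false,1,
  ⟨5,[(3,0),(4,1),(2,0),(11,0),(0,0),(7,0),(10,1)]⟩,⟨0,[(41,0)]⟩⟩,⟨false,0,⟨0,[(4,0),(36,0)]⟩,⟨0,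
  [(13,0),(29,0)]⟩⟩,⟨true,0,⟨0,[]⟩,⟨0,[(45,0)]⟩⟩,⟨false,0,⟨0,[(4,0),(36,1)]⟩,⟨2,[(3,0),(4,1),(4,1),
  (14,0),(14,0)]⟩⟩,[.o ⟨false,0,⟨0,[(29,0)]⟩,⟨1,[(15,1),(20,0),(6,0)]⟩⟩,.a ⟨true,0,⟨0,[(4,0)]⟩,⟨0,
  [(15,0)]⟩⟩ ⟨true,1,⟨0,[(8,0)]⟩,⟨1,[(0,1),(2,0),(26,0),(0,0)]⟩⟩ ⟨false,1,⟨0,[(4,0),(37,0)]⟩,⟨1,[(3,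
  0),(23,0),(0,0)]⟩⟩,.o ⟨false,0,⟨0,[(20,0),(10,0)]⟩,⟨3,[(23,0),(0,0),(17,1)]⟩⟩,.o ⟨false,0,⟨0,[(28,
  0),(2,0)]⟩,⟨0,[(42,0)]⟩⟩]⟩) (.Q [0,0,0,0,0,0,0,0,1,0,0,-1] (.p false [0,0,0,1] [] (⟨0,[(26,0)]⟩,
  ⟨1,[(25,0),(8,0),(0,0)]⟩) .k 0 (⟨0,[]⟩,⟨0,[]⟩) .k .k) (.I [1,-1,0,0,0,0,0,0,1] (.Q [0,0,0,0,0,1,0,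
  0,0,0,0,-1] (.p false [0,0,0,1] [] (⟨0,[(28,0)]⟩,⟨1,[(27,0),(8,0),(0,0)]⟩) .k 0 (⟨0,[]⟩,⟨0,[]⟩)
  .k .k) (.I [0,0,0,1,0,0,0,-1,1] (.R ⟨0,false,false,true,[0,0,0,1],[0,-1,1],[0,1,0,0,0,0,0,0,1],
  (⟨0,[(30,0)]⟩,⟨1,[(29,0),(8,0),(0,0)]⟩),(⟨0,[(18,0)]⟩,⟨0,[(38,0),(3,0)]⟩),⟨0,[(1,0)]⟩,.k,.k,(.x 0
  ⟨5,[(6,1),(14,1),(10,1),(2,2),(0,0)]⟩ ⟨3,[(27,0),(0,0),(13,3),(3,1)]⟩),(.r 0 ⟨3,[(0,1),(6,0),(2,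
  1),(23,0),(0,0)]⟩ ⟨11,[(16,3),(3,3),(6,6),(0,0)]⟩),.k,.k,⟨false,0,⟨0,[(0,0)]⟩,⟨11,[(16,3),(3,3),
  (6,6),(0,0)]⟩⟩,⟨true,0,⟨0,[(30,0),(4,0)]⟩,⟨1,[(26,0),(2,0)]⟩⟩,⟨true,0,⟨0,[(49,0)]⟩,⟨0,[]⟩⟩,⟨false,
  1,⟨1,[(15,0),(11,0),(2,1),(2,0),(13,0)]⟩,⟨0,[(2,0),(10,0)]⟩⟩,⟨false,0,⟨0,[]⟩,⟨0,[]⟩⟩,⟨false,0,⟨0,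
  []⟩,⟨0,[]⟩⟩,[.o ⟨false,0,⟨0,[(23,0)]⟩,⟨3,[(11,3),(15,0),(0,0),(18,1)]⟩⟩,.o ⟨false,1,⟨3,[(15,1),
  (11,0),(0,0),(4,1),(13,1)]⟩,⟨0,[(11,0)]⟩⟩,.a ⟨true,0,⟨1,[(29,0),(8,0),(0,0)]⟩,⟨0,[(30,0)]⟩⟩
  ⟨false,0,⟨0,[(5,0)]⟩,⟨1,[(27,0),(19,0)]⟩⟩ ⟨true,0,⟨1,[(15,0),(14,1),(2,0)]⟩,⟨0,[(13,0)]⟩⟩,.o
  ⟨false,0,⟨1,[(29,0),(2,0),(2,0)]⟩,⟨1,[(30,1),(9,0),(5,0)]⟩⟩]⟩) (.R ⟨0,false,false,true,[0,0,0,1],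
  [1,-1],[1,0,0,0,0,0,0,0,1],(⟨0,[(30,0)]⟩,⟨1,[(29,0),(8,0),(0,0)]⟩),(⟨0,[(41,0)]⟩,⟨0,[(42,0)]⟩),⟨0,
  [(1,0)]⟩,.k,.k,(.r (-1) ⟨7,[(4,1),(4,1),(10,1),(7,2),(17,0)]⟩ ⟨1,[(0,1),(6,0),(26,0),(0,0),(9,
  3)]⟩),(.r 0 ⟨0,[(10,0)]⟩ ⟨7,[(0,1),(3,1),(22,2),(16,1),(1,2)]⟩),.k,.k,⟨false,0,⟨0,[(2,0),(42,0)]⟩,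
  ⟨1,[(27,0),(16,1),(1,0)]⟩⟩,⟨true,0,⟨0,[(24,0),(5,0),(4,0)]⟩,⟨1,[(29,0),(8,0),(0,0)]⟩⟩,⟨true,0,⟨0,
  []⟩,⟨0,[(49,0)]⟩⟩,⟨false,1,⟨21,[(0,3),(3,3),(2,1),(7,3),(1,1),(9,8),(2,21),(1,1),(7,8)]⟩,⟨0,[(2,
  0),(5,0),(4,0)]⟩⟩,⟨false,0,⟨0,[]⟩,⟨0,[]⟩⟩,⟨false,0,⟨0,[]⟩,⟨0,[]⟩⟩,[.o ⟨false,0,⟨0,[(11,0),(3,0)]⟩,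
  ⟨3,[(27,0),(0,0),(16,3),(1,1)]⟩⟩,.o ⟨false,1,⟨15,[(4,3),(10,3),(11,2),(0,2),(3,3),(7,5)]⟩,⟨0,[(45,
  0)]⟩⟩,.a ⟨true,0,⟨1,[(29,0),(8,0),(0,0)]⟩,⟨0,[(30,0)]⟩⟩ ⟨false,0,⟨0,[(2,0)]⟩,⟨3,[(27,2),(0,0)]⟩⟩
  ⟨true,0,⟨0,[(11,0),(3,0),(14,0)]⟩,⟨0,[(8,0),(4,0)]⟩⟩,.o ⟨false,0,⟨1,[(29,0),(2,0),(2,0)]⟩,⟨1,[(30,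
  1),(9,0),(5,0)]⟩⟩]⟩)) (.I [0,0,-1,-1,1,0,0,0,-1] (.R ⟨1,false,false,true,[0,0,0,1],[1,-1],[1,1,0,
  -1,0,0,0,0,1],(⟨0,[(30,0)]⟩,⟨1,[(29,0),(8,0),(0,0)]⟩),(⟨0,[(41,0)]⟩,⟨0,[(42,0)]⟩),⟨0,[(1,0)]⟩,.k,
  .k,(.x 0 ⟨5,[(6,1),(14,1),(10,1),(2,2),(0,0)]⟩ ⟨3,[(27,0),(0,0),(13,3),(3,1)]⟩),(.r 0 ⟨0,[(10,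
  0)]⟩ ⟨0,[(0,0)]⟩),.k,.k,⟨false,0,⟨1,[(2,0),(6,0)]⟩,⟨1,[(27,0),(18,0)]⟩⟩,⟨true,0,⟨0,[(24,0),(5,0),
  (4,0)]⟩,⟨1,[(29,0),(8,0),(0,0)]⟩⟩,⟨true,0,⟨0,[(44,0)]⟩,⟨0,[(45,0)]⟩⟩,⟨false,1,⟨5,[(4,0),(2,0),(7,
  1),(8,1),(2,2),(2,5),(9,1)]⟩,⟨0,[(2,0),(5,0),(4,0)]⟩⟩,⟨false,0,⟨0,[]⟩,⟨3,[(27,0),(0,0),(18,1)]⟩⟩,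
  ⟨false,1,⟨1,[(27,0),(2,1),(9,0)]⟩,⟨1,[(2,1),(26,0),(8,0),(0,0)]⟩⟩,[.o ⟨false,0,⟨0,[(11,0),(3,0)]⟩,
  ⟨3,[(27,0),(0,0),(16,3),(1,1)]⟩⟩,.o ⟨false,1,⟨15,[(4,3),(10,3),(11,2),(0,2),(3,3),(7,5)]⟩,⟨0,[(45,
  0)]⟩⟩,.a ⟨true,0,⟨1,[(29,0),(8,0),(0,0)]⟩,⟨0,[(30,0)]⟩⟩ ⟨false,0,⟨0,[(2,0),(41,0)]⟩,⟨1,[(27,0),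
  (17,1),(1,0)]⟩⟩ ⟨true,0,⟨0,[(11,0),(3,0),(14,0)]⟩,⟨0,[(8,0),(4,0)]⟩⟩,.o ⟨false,0,⟨1,[(29,0),(2,0),
  (2,0)]⟩,⟨1,[(30,1),(9,0),(5,0)]⟩⟩]⟩) (.R ⟨1,false,false,true,[0,0,0,1],[1,-1],[1,1,0,-1,0,0,0,0,
  1],(⟨0,[(30,0)]⟩,⟨1,[(29,0),(8,0),(0,0)]⟩),(⟨0,[(41,0)]⟩,⟨0,[(42,0)]⟩),⟨0,[(1,0)]⟩,.k,.k,(.x 0 ⟨5,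
  [(6,1),(14,1),(10,1),(2,2),(0,0)]⟩ ⟨3,[(27,0),(0,0),(13,3),(3,1)]⟩),(.x (-1) ⟨3,[(27,0),(0,0),(13,
  3),(3,1)]⟩ ⟨5,[(6,1),(14,1),(10,1),(2,2),(0,0)]⟩),.k,.k,⟨false,0,⟨1,[(2,0),(6,0)]⟩,⟨1,[(27,0),(18,
  0)]⟩⟩,⟨true,0,⟨0,[(24,0),(5,0),(4,0)]⟩,⟨1,[(29,0),(8,0),(0,0)]⟩⟩,⟨true,0,⟨0,[(44,0)]⟩,⟨0,[(45,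
  0)]⟩⟩,⟨false,1,⟨5,[(4,0),(2,0),(7,1),(8,1),(2,2),(2,5),(9,1)]⟩,⟨0,[(2,0),(5,0),(4,0)]⟩⟩,⟨false,0,
  ⟨0,[]⟩,⟨3,[(27,0),(0,0),(18,1)]⟩⟩,⟨false,1,⟨1,[(27,0),(2,1),(9,0)]⟩,⟨1,[(2,1),(26,0),(8,0),(0,
  0)]⟩⟩,[.o ⟨false,0,⟨0,[(11,0),(3,0)]⟩,⟨3,[(27,0),(0,0),(16,3),(1,1)]⟩⟩,.o ⟨false,1,⟨15,[(4,3),(10,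
  3),(11,2),(0,2),(3,3),(7,5)]⟩,⟨0,[(45,0)]⟩⟩,.a ⟨true,0,⟨1,[(29,0),(8,0),(0,0)]⟩,⟨0,[(30,0)]⟩⟩
  ⟨false,0,⟨0,[(2,0),(41,0)]⟩,⟨1,[(27,0),(17,1),(1,0)]⟩⟩ ⟨true,0,⟨0,[(11,0),(3,0),(14,0)]⟩,⟨0,[(8,
  0),(4,0)]⟩⟩,.o ⟨false,0,⟨1,[(29,0),(2,0),(2,0)]⟩,⟨1,[(30,1),(9,0),(5,0)]⟩⟩]⟩))) (.R ⟨1,false,
  false,true,[1,0,0,-1],[0,0,0,1],[0,1,0,0,0,0,0,0,-1],(⟨1,[(27,0),(8,0),(0,0)]⟩,⟨0,[(28,0)]⟩),(⟨0,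
  [(28,0)]⟩,⟨1,[(27,0),(8,0),(0,0)]⟩),⟨3,[(4,0),(14,0),(7,1),(11,0)]⟩,.k,.k,(.r (-1) ⟨7,[(0,1),(1,
  1),(15,1),(6,2),(18,0)]⟩ ⟨0,[(8,0)]⟩),.k,(.r (-1) ⟨0,[(0,1),(4,0),(6,0)]⟩ ⟨0,[(3,0),(4,0)]⟩),.k,
  ⟨false,1,⟨0,[(0,1),(4,0),(6,0),(30,0)]⟩,⟨0,[(3,1)]⟩⟩,⟨true,0,⟨0,[(27,0)]⟩,⟨0,[(22,0),(5,1),(4,
  0)]⟩⟩,⟨true,0,⟨0,[(47,0)]⟩,⟨0,[]⟩⟩,⟨false,0,⟨0,[(3,1),(23,0)]⟩,⟨0,[(0,1),(4,1),(3,0),(2,0),(1,0),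
  (13,1),(4,0),(9,0)]⟩⟩,⟨false,0,⟨0,[(43,0)]⟩,⟨7,[(2,1),(10,1),(11,0),(0,0),(7,1),(10,3)]⟩⟩,⟨false,
  0,⟨0,[(3,1),(23,0),(15,0)]⟩,⟨0,[(0,1),(4,1),(3,0),(2,0),(1,0),(13,1),(4,0)]⟩⟩,[.o ⟨false,0,⟨3,[(1,
  1),(5,1),(19,0),(1,0),(1,0)]⟩,⟨1,[(5,0),(3,1),(2,0),(1,0),(10,0),(2,1),(4,1)]⟩⟩,.o ⟨false,0,⟨0,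
  [(1,0)]⟩,⟨1,[(25,0),(2,1),(9,0)]⟩⟩,.a ⟨true,0,⟨0,[(28,0)]⟩,⟨1,[(27,0),(8,0),(0,0)]⟩⟩ ⟨true,0,⟨0,
  [(0,0)]⟩,⟨0,[(3,0)]⟩⟩ ⟨false,0,⟨0,[(3,0),(23,0)]⟩,⟨1,[(5,0),(3,1),(2,0),(1,0),(10,0),(2,3),(4,
  1)]⟩⟩,.o ⟨false,0,⟨0,[(22,0),(5,0),(4,0)]⟩,⟨7,[(25,0),(0,0),(0,3),(10,1),(5,3)]⟩⟩]⟩)) (.R ⟨2,
  false,false,false,[0,1],[1,0,0,-1],[1,1,1],(⟨0,[]⟩,⟨0,[]⟩),(⟨1,[(26,0),(8,0),(0,0)]⟩,⟨0,[(27,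
  0)]⟩),⟨0,[]⟩,.k,.k,.k,(.r 0 ⟨0,[(7,0)]⟩ ⟨21,[(0,3),(0,3),(10,1),(1,1),(2,3),(6,8),(1,1),(16,4)]⟩),
  .k,.k,⟨false,0,⟨0,[(6,0)]⟩,⟨5,[(0,3),(3,1),(3,1),(2,3),(12,0),(1,1),(5,1),(9,1),(0,0)]⟩⟩,⟨true,0,
  ⟨0,[(21,0),(5,0),(4,0)]⟩,⟨1,[(26,0),(8,0),(0,0)]⟩⟩,⟨true,0,⟨0,[(41,0)]⟩,⟨0,[(42,0)]⟩⟩,⟨false,1,⟨1,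
  [(0,1),(8,0),(27,0),(2,0)]⟩,⟨0,[(2,0),(2,0),(4,0)]⟩⟩,⟨false,0,⟨0,[]⟩,⟨3,[(24,0),(0,0),(18,1)]⟩⟩,
  ⟨false,1,⟨1,[(0,1),(36,0),(6,0)]⟩,⟨1,[(2,1),(23,0),(8,0),(0,0)]⟩⟩,[.a ⟨true,0,⟨0,[(0,0)]⟩,⟨1,[(2,
  1),(23,0),(8,0),(0,0)]⟩⟩ ⟨false,0,⟨0,[(46,0)]⟩,⟨1,[(43,0),(0,0)]⟩⟩ ⟨true,0,⟨0,[(0,0),(20,0),(10,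
  0)]⟩,⟨1,[(2,1),(23,0),(8,0),(0,0)]⟩⟩,.o ⟨false,1,⟨1,[(0,1),(36,0),(6,0)]⟩,⟨3,[(2,1),(3,1),(1,1),
  (3,0),(13,1),(3,0)]⟩⟩,.o ⟨false,1,⟨3,[(24,0),(0,0),(17,1)]⟩,⟨0,[(21,0),(10,0)]⟩⟩,.e ⟨false,0,⟨0,
  []⟩,⟨3,[(24,0),(0,0),(18,1)]⟩⟩ ⟨false,1,⟨1,[(0,1),(36,0),(6,0)]⟩,⟨1,[(2,1),(23,0),(8,0),(0,
  0)]⟩⟩]⟩)))))) (.I [0,0,0,1,0,0,0,0,1] (.I [0,-1,0,1,0,0,0,0,1] (.I [0,0,-1,-1,0,0,0,1,1] (.R ⟨1,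
  false,false,true,[1,0,0,-1],[0,-1,1],[1,1,0,-1,0,0,0,0,-1],(⟨1,[(24,0),(8,0),(0,0)]⟩,⟨0,[(25,
  0)]⟩),(⟨0,[(13,0)]⟩,⟨0,[(33,0),(3,0)]⟩),⟨1,[(13,0),(2,0),(7,0)]⟩,.k,.k,(.x 0 ⟨1,[(13,0),(2,0),(10,
  0),(2,0)]⟩ ⟨3,[(22,0),(0,0),(13,3),(3,1)]⟩),(.r (-1) ⟨3,[(5,1),(8,2),(5,0),(1,2),(7,2),(9,1)]⟩ ⟨0,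
  [(0,0)]⟩),.k,.k,⟨false,1,⟨1,[(14,0),(5,0),(1,0),(7,0)]⟩,⟨0,[(0,0),(39,0)]⟩⟩,⟨true,0,⟨1,[(24,0),(5,
  1),(2,0),(0,0)]⟩,⟨0,[(19,0),(5,0)]⟩⟩,⟨true,0,⟨0,[(39,0)]⟩,⟨0,[(40,0)]⟩⟩,⟨false,0,⟨1,[(0,1),(23,0),
  (5,1),(2,0),(0,0)]⟩,⟨1,[(6,1),(15,0),(2,1),(16,0)]⟩⟩,⟨false,0,⟨0,[]⟩,⟨3,[(22,0),(0,0),(18,1)]⟩⟩,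
  ⟨false,0,⟨1,[(0,0),(0,0),(22,0),(3,0),(1,0),(2,0),(0,0)]⟩,⟨1,[(3,1),(18,0),(2,1),(16,0)]⟩⟩,[.o
  ⟨false,0,⟨0,[(18,0)]⟩,⟨3,[(6,3),(15,0),(0,0),(18,1)]⟩⟩,.o ⟨false,1,⟨3,[(10,1),(11,0),(0,0),(4,1),
  (13,1)]⟩,⟨0,[(6,0)]⟩⟩,.a ⟨true,0,⟨0,[(25,0)]⟩,⟨1,[(24,0),(8,0),(0,0)]⟩⟩ ⟨false,1,⟨19,[(7,3),(2,3),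
  (6,3),(4,10),(0,0),(6,1),(0,5)]⟩,⟨0,[(1,0)]⟩⟩ ⟨true,0,⟨1,[(10,0),(13,0),(3,0),(4,0),(0,0)]⟩,⟨0,
  [(6,0),(18,0)]⟩⟩,.o ⟨false,0,⟨0,[(19,0),(5,0),(4,0)]⟩,⟨7,[(22,0),(0,0),(0,3),(10,1),(5,3)]⟩⟩]⟩)
  (.Q [0,0,0,0,0,1,0,0,0,0,0,-1] (.p false [0,0,0,1] [] (⟨0,[(25,0)]⟩,⟨1,[(24,0),(8,0),(0,0)]⟩) .k
  0 (⟨0,[]⟩,⟨0,[]⟩) .k .k) (.R ⟨0,false,false,true,[0,0,0,1],[1,-1],[0,1,0,0,0,0,0,0,1],(⟨0,[(26,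
  0)]⟩,⟨1,[(25,0),(8,0),(0,0)]⟩),(⟨0,[(37,0)]⟩,⟨0,[(38,0)]⟩),⟨0,[(0,0)]⟩,.k,.k,(.r (-1) ⟨6,[(2,0),
  (2,1),(2,0),(7,1),(1,1),(5,1)]⟩ ⟨0,[(1,0),(31,0)]⟩),(.r 0 ⟨0,[(6,0)]⟩ ⟨0,[(1,0),(14,0)]⟩),.k,.k,
  ⟨false,0,⟨0,[(3,0)]⟩,⟨0,[(1,0),(14,0)]⟩⟩,⟨true,0,⟨0,[(20,0),(5,0),(4,0)]⟩,⟨1,[(25,0),(8,0),(0,
  0)]⟩⟩,⟨true,0,⟨0,[(45,0)]⟩,⟨0,[]⟩⟩,⟨false,1,⟨5,[(4,1),(3,0),(2,1),(11,2),(2,5),(9,1),(2,0)]⟩,⟨1,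
  [(2,1),(22,0),(8,0),(0,0)]⟩⟩,⟨false,0,⟨0,[]⟩,⟨0,[]⟩⟩,⟨false,0,⟨0,[]⟩,⟨0,[]⟩⟩,[.o ⟨false,0,⟨1,[(4,
  1),(6,0),(17,0)]⟩,⟨1,[(3,1),(19,0),(19,0)]⟩⟩,.o ⟨false,1,⟨27,[(8,7),(2,3),(1,3),(9,4),(0,4),(3,3),
  (2,3),(4,9)]⟩,⟨0,[(41,0)]⟩⟩,.a ⟨true,0,⟨1,[(25,0),(8,0),(0,0)]⟩,⟨0,[(26,0)]⟩⟩ ⟨false,0,⟨2,[(2,1),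
  (2,0),(5,0),(3,0)]⟩,⟨1,[(23,0),(19,0)]⟩⟩ ⟨true,0,⟨1,[(4,1),(6,0),(14,1),(2,0)]⟩,⟨1,[(25,0),(8,0),
  (0,0),(5,1)]⟩⟩,.o ⟨false,0,⟨1,[(25,0),(2,0),(2,0)]⟩,⟨1,[(26,1),(9,0),(5,0)]⟩⟩]⟩) (.I [0,0,2,2,-1,
  0,0,0,1] (.R ⟨1,false,false,false,[1,0,0,-1],[0,1],[1,0,0,-1,0,0,0,0,-1],(⟨1,[(26,0),(8,0),(0,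
  0)]⟩,⟨0,[(27,0)]⟩),(⟨0,[(39,0)]⟩,⟨0,[(38,0)]⟩),⟨1,[(15,0),(2,0),(7,0)]⟩,.k,.k,(.r (-1) ⟨0,[(2,0),
  (14,0)]⟩ ⟨0,[(7,0)]⟩),(.r (-1) ⟨0,[(2,0),(14,0)]⟩ ⟨0,[(7,0)]⟩),(.r (-2) ⟨11,[(17,7),(1,7),(4,6),
  (0,0)]⟩ ⟨0,[(0,0)]⟩),.k,⟨true,1,⟨0,[(2,0),(8,0),(0,0),(3,0)]⟩,⟨0,[(0,0)]⟩⟩,⟨false,1,⟨1,[(26,0),(8,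
  0),(0,0),(6,1)]⟩,⟨0,[(21,0),(5,0),(4,0)]⟩⟩,⟨false,1,⟨7,[(9,3),(14,0),(0,0),(6,1),(0,1),(10,1)]⟩,
  ⟨0,[(42,0)]⟩⟩,⟨false,0,⟨1,[(3,1),(22,0),(8,0),(0,0)]⟩,⟨5,[(5,1),(3,0),(2,1),(11,2),(2,5),(9,1),(2,
  0)]⟩⟩,⟨true,0,⟨0,[]⟩,⟨0,[(46,0)]⟩⟩,⟨false,0,⟨1,[(3,1),(22,0),(8,0),(0,0),(5,1)]⟩,⟨5,[(5,3),(3,1),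
  (2,3),(11,2),(2,5),(9,0),(2,1)]⟩⟩,[.o ⟨false,0,⟨0,[(42,0)]⟩,⟨27,[(9,7),(2,3),(1,3),(9,4),(0,4),(3,
  3),(2,3),(4,9)]⟩⟩,.o ⟨false,1,⟨1,[(4,1),(19,0),(19,0)]⟩,⟨1,[(5,1),(6,0),(17,0)]⟩⟩,.a ⟨true,0,⟨0,
  [(27,0)]⟩,⟨1,[(26,0),(8,0),(0,0)]⟩⟩ ⟨false,1,⟨1,[(9,0),(14,0),(15,0)]⟩,⟨0,[(4,0)]⟩⟩ ⟨true,0,⟨1,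
  [(26,0),(8,0),(0,0),(5,1)]⟩,⟨1,[(5,1),(6,0),(14,1),(2,0)]⟩⟩,.o ⟨false,0,⟨0,[(21,0),(5,0),(4,0)]⟩,
  ⟨7,[(24,0),(0,0),(0,3),(10,1),(5,3)]⟩⟩]⟩) (.Q [0,-1,0,0,0,0,0,0,1,1,0,-2] (.p false [0,0,0,1] [1,
  0,0,-1] (⟨0,[(27,0)]⟩,⟨1,[(26,0),(8,0),(0,0)]⟩) .k 2 (⟨1,[(26,0),(8,0),(0,0)]⟩,⟨0,[(27,0)]⟩) .k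
  .k) (.R ⟨1,false,false,true,[0,0,0,1],[1,-1],[0,1,0,0,0,0,0,0,1],(⟨0,[(28,0)]⟩,⟨1,[(27,0),(8,0),
  (0,0)]⟩),(⟨0,[(39,0)]⟩,⟨0,[(40,0)]⟩),⟨0,[(2,0)]⟩,.k,.k,(.r (-1) ⟨6,[(4,0),(2,1),(2,0),(7,1),(1,1),
  (5,1)]⟩ ⟨0,[(3,0),(31,0)]⟩),(.r 0 ⟨0,[(8,0)]⟩ ⟨4,[(1,0),(16,0),(1,0),(4,1)]⟩),.k,.k,⟨false,0,⟨0,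
  [(5,0)]⟩,⟨4,[(1,0),(16,0),(1,0),(4,1)]⟩⟩,⟨true,0,⟨0,[(22,0),(5,0),(4,0)]⟩,⟨1,[(27,0),(8,0),(0,
  0)]⟩⟩,⟨true,0,⟨0,[(47,0)]⟩,⟨0,[]⟩⟩,⟨false,1,⟨4,[(1,0),(11,0),(1,0),(9,1),(2,4),(9,1),(2,1)]⟩,⟨1,
  [(0,0),(3,0),(31,0),(0,0),(5,0)]⟩⟩,⟨false,0,⟨0,[(43,0)]⟩,⟨7,[(10,3),(14,0),(0,0),(6,1),(0,1),(10,
  1)]⟩⟩,⟨false,1,⟨1,[(25,0),(2,1),(9,0)]⟩,⟨0,[(0,0),(27,0)]⟩⟩,[.o ⟨false,0,⟨1,[(6,1),(6,0),(17,0)]⟩,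
  ⟨1,[(5,1),(19,0),(19,0)]⟩⟩,.o ⟨false,1,⟨27,[(10,7),(2,3),(1,3),(9,4),(0,4),(3,3),(2,3),(4,9)]⟩,⟨0,
  [(43,0)]⟩⟩,.a ⟨true,0,⟨1,[(27,0),(8,0),(0,0)]⟩,⟨0,[(28,0)]⟩⟩ ⟨false,0,⟨5,[(0,0),(3,2),(2,1),(5,0),
  (1,0),(12,1)]⟩,⟨1,[(25,0),(19,0)]⟩⟩ ⟨true,0,⟨1,[(6,1),(6,0),(14,1),(2,0)]⟩,⟨1,[(27,0),(8,0),(0,0),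
  (5,1)]⟩⟩,.o ⟨false,0,⟨1,[(27,0),(2,0),(2,0)]⟩,⟨1,[(28,1),(9,0),(5,0)]⟩⟩]⟩) (.R ⟨1,false,false,
  false,[0,0,0,1],[1,-1],[0,0,0,0,0,0,0,0,1],(⟨0,[(28,0)]⟩,⟨1,[(27,0),(8,0),(0,0)]⟩),(⟨0,[(39,0)]⟩,
  ⟨0,[(40,0)]⟩),⟨0,[(2,0)]⟩,.k,.k,(.r (-1) ⟨6,[(4,0),(2,1),(2,0),(7,1),(1,1),(5,1)]⟩ ⟨0,[(3,0),(31,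
  0)]⟩),(.r 0 ⟨0,[(8,0)]⟩ ⟨4,[(1,0),(16,0),(1,0),(4,1)]⟩),.k,.k,⟨false,0,⟨0,[(5,0)]⟩,⟨4,[(1,0),(16,
  0),(1,0),(4,1)]⟩⟩,⟨true,0,⟨5,[(0,2),(3,2),(8,0),(1,0),(14,1),(2,1),(7,1)]⟩,⟨1,[(27,0),(8,0),(0,
  0)]⟩⟩,⟨false,1,⟨3,[(25,0),(0,0),(18,1)]⟩,⟨0,[]⟩⟩,⟨false,1,⟨3,[(0,1),(0,1),(36,0),(2,3),(3,0)]⟩,⟨1,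
  [(5,1),(21,0),(8,0),(0,0)]⟩⟩,⟨true,0,⟨0,[(43,0)]⟩,⟨0,[(42,0)]⟩⟩,⟨false,1,⟨3,[(0,1),(2,1),(8,1),
  (25,0),(2,1),(3,0)]⟩,⟨5,[(4,3),(2,1),(5,1),(3,1),(9,2),(8,2),(0,2)]⟩⟩,[.o ⟨false,1,⟨27,[(10,7),(2,
  3),(1,3),(9,4),(0,4),(3,3),(2,3),(4,9)]⟩,⟨0,[(43,0)]⟩⟩,.o ⟨false,1,⟨1,[(10,0),(27,0),(2,0)]⟩,⟨0,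
  [(43,0),(3,0)]⟩⟩,.a ⟨true,0,⟨1,[(27,0),(8,0),(0,0)]⟩,⟨0,[(28,0)]⟩⟩ ⟨true,0,⟨2,[(4,1),(2,0),(5,0),
  (3,0)]⟩,⟨0,[(0,0),(26,0)]⟩⟩ ⟨false,1,⟨7,[(0,3),(3,1),(5,4),(15,0),(11,1),(2,4)]⟩,⟨1,[(27,0),(8,0),
  (0,0),(5,1)]⟩⟩,.o ⟨false,0,⟨1,[(27,0),(2,0),(2,0)]⟩,⟨7,[(0,3),(3,1),(7,1),(10,1),(2,0),(11,1),(5,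
  0)]⟩⟩]⟩))))) (.Q [0,0,0,-1,0,0,0,0,1,0,0,-1] (.p false [0,0,0,1] [] (⟨0,[(24,0)]⟩,⟨1,[(23,0),(8,
  0),(0,0)]⟩) .k 0 (⟨0,[]⟩,⟨0,[]⟩) .k .k) (.R ⟨1,false,false,false,[1,0,0,-1],[1,-1],[1,1,0,-1,0,0,
  0,0,-1],(⟨1,[(24,0),(8,0),(0,0)]⟩,⟨0,[(25,0)]⟩),(⟨0,[(36,0)]⟩,⟨0,[(37,0)]⟩),⟨1,[(13,0),(2,0),(7,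
  0)]⟩,.k,.k,(.r (-1) ⟨2,[(1,0),(7,0),(7,0),(4,0)]⟩ ⟨0,[(5,0)]⟩),(.r 0 ⟨0,[(1,0),(36,0),(1,1)]⟩ ⟨3,
  [(4,1),(2,0),(1,0),(7,0),(5,0)]⟩),.k,.k,⟨false,0,⟨0,[(1,0),(38,0)]⟩,⟨3,[(2,3),(4,0),(1,0),(7,0),
  (24,0)]⟩⟩,⟨true,0,⟨1,[(24,0),(2,0),(2,0)]⟩,⟨0,[(25,0)]⟩⟩,⟨true,0,⟨0,[(39,0)]⟩,⟨0,[(40,0)]⟩⟩,⟨true,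
  0,⟨0,[(0,0)]⟩,⟨0,[(1,0),(23,0),(14,1)]⟩⟩,⟨false,0,⟨0,[]⟩,⟨3,[(22,0),(0,0),(18,1)]⟩⟩,⟨true,0,⟨0,
  [(0,0),(39,0)]⟩,⟨0,[(1,0),(23,0),(14,0)]⟩⟩,[.o ⟨false,1,⟨27,[(7,7),(2,3),(1,3),(9,4),(0,4),(3,3),
  (2,3),(4,9)]⟩,⟨0,[(40,0)]⟩⟩,.o ⟨false,1,⟨1,[(7,0),(27,0),(2,0)]⟩,⟨0,[(40,0),(3,0)]⟩⟩,.a ⟨true,0,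
  ⟨0,[(25,0)]⟩,⟨1,[(24,0),(8,0),(0,0)]⟩⟩ ⟨true,0,⟨0,[(1,0)]⟩,⟨0,[(2,0)]⟩⟩ ⟨false,1,⟨15,[(7,7),(14,
  0),(0,0),(0,7),(2,3),(2,3),(4,1),(6,3)]⟩,⟨0,[(25,0),(14,0)]⟩⟩,.o ⟨false,0,⟨0,[(19,0),(5,0),(4,
  0)]⟩,⟨7,[(22,0),(0,0),(0,3),(10,1),(5,3)]⟩⟩]⟩) (.Q [0,0,0,0,0,0,0,0,-1,0,0,1] (.p true [0,0,0,1]
  [] (⟨0,[(25,0)]⟩,⟨1,[(24,0),(8,0),(0,0)]⟩) .k 0 (⟨0,[]⟩,⟨0,[]⟩) .k .k) (.R ⟨1,false,false,false,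
  [1,0,0,-1],[1,-1],[1,1,0,-1,0,0,0,0,-1],(⟨1,[(25,0),(8,0),(0,0)]⟩,⟨0,[(26,0)]⟩),(⟨0,[(37,0)]⟩,⟨0,
  [(38,0)]⟩),⟨1,[(14,0),(2,0),(7,0)]⟩,.k,.k,(.r (-1) ⟨2,[(2,0),(7,0),(7,0),(4,0)]⟩ ⟨0,[(6,0)]⟩),(.r
  0 ⟨1,[(1,1),(23,0),(2,0),(2,0)]⟩ ⟨3,[(5,1),(2,0),(1,0),(7,0),(5,0)]⟩),.k,.k,⟨false,0,⟨2,[(1,0),(0,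
  1),(6,0),(19,0)]⟩,⟨3,[(3,3),(4,0),(1,0),(7,0),(24,0)]⟩⟩,⟨true,0,⟨1,[(25,0),(2,0),(2,0)]⟩,⟨0,[(26,
  0)]⟩⟩,⟨true,0,⟨0,[(40,0)]⟩,⟨0,[(41,0)]⟩⟩,⟨false,1,⟨11,[(3,5),(0,1),(3,6),(2,1),(12,2),(0,5),(10,
  1),(2,6)]⟩,⟨0,[(1,0)]⟩⟩,⟨false,0,⟨0,[]⟩,⟨3,[(23,0),(0,0),(18,1)]⟩⟩,⟨false,1,⟨3,[(3,1),(4,0),(15,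
  0),(0,1),(10,0),(2,0),(3,0)]⟩,⟨0,[(0,0)]⟩⟩,[.o ⟨false,1,⟨27,[(8,7),(2,3),(1,3),(9,4),(0,4),(3,3),
  (2,3),(4,9)]⟩,⟨0,[(41,0)]⟩⟩,.o ⟨false,1,⟨1,[(8,0),(27,0),(2,0)]⟩,⟨0,[(41,0),(3,0)]⟩⟩,.a ⟨true,0,
  ⟨0,[(26,0)]⟩,⟨1,[(25,0),(8,0),(0,0)]⟩⟩ ⟨true,0,⟨0,[(2,0)]⟩,⟨0,[(3,0)]⟩⟩ ⟨false,1,⟨15,[(8,7),(14,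
  0),(0,0),(0,7),(2,3),(2,3),(4,1),(6,3)]⟩,⟨1,[(1,0),(1,0),(22,0)]⟩⟩,.o ⟨false,0,⟨0,[(20,0),(5,0),
  (4,0)]⟩,⟨7,[(23,0),(0,0),(0,3),(10,1),(5,3)]⟩⟩]⟩) (.R ⟨2,true,false,false,[0,1],[0,0,0,1],[1,1,1],
  (⟨0,[]⟩,⟨0,[]⟩),(⟨0,[(26,0)]⟩,⟨1,[(25,0),(8,0),(0,0)]⟩),⟨0,[]⟩,.k,.k,.k,(.r 0 ⟨1,[(1,1),(23,0),(2,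
  0),(2,0)]⟩ ⟨3,[(5,1),(2,0),(1,0),(7,0),(5,0)]⟩),.k,.k,⟨false,0,⟨2,[(1,0),(0,1),(6,0),(19,0)]⟩,⟨3,
  [(3,3),(4,0),(1,0),(7,0),(24,0)]⟩⟩,⟨true,0,⟨1,[(25,0),(2,0),(2,0)]⟩,⟨0,[(26,0)]⟩⟩,⟨true,0,⟨0,[(40,
  0)]⟩,⟨0,[(41,0)]⟩⟩,⟨false,1,⟨5,[(0,1),(7,2),(15,1),(0,1),(10,0),(2,2)]⟩,⟨0,[(1,0)]⟩⟩,⟨false,0,⟨0,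
  []⟩,⟨3,[(23,0),(0,0),(18,1)]⟩⟩,⟨true,0,⟨0,[(0,0)]⟩,⟨0,[(1,0),(38,0)]⟩⟩,[]⟩)))) (.R ⟨1,false,false,
  false,[1,0,0,-1],[1,-1],[0,0,0,0,0,0,0,0,-1],(⟨1,[(22,0),(8,0),(0,0)]⟩,⟨0,[(23,0)]⟩),(⟨0,[(34,
  0)]⟩,⟨0,[(35,0)]⟩),⟨1,[(11,0),(2,0),(7,0)]⟩,.k,.k,(.r (-1) ⟨7,[(0,1),(12,1),(1,1),(4,2),(18,0)]⟩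
  ⟨0,[(3,0)]⟩),(.r 0 ⟨1,[(0,1),(27,0),(0,0),(8,3)]⟩ ⟨3,[(2,1),(2,0),(1,0),(7,0),(5,0)]⟩),.k,.k,
  ⟨false,0,⟨0,[(0,0),(37,1)]⟩,⟨3,[(2,1),(2,0),(1,0),(7,0),(5,0)]⟩⟩,⟨true,0,⟨1,[(22,0),(2,0),(2,0)]⟩,
  ⟨0,[(23,0)]⟩⟩,⟨false,1,⟨3,[(20,0),(0,0),(18,1)]⟩,⟨0,[]⟩⟩,⟨false,1,⟨3,[(1,1),(0,1),(2,0),(1,1),(13,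
  0),(0,1),(5,1),(7,2)]⟩,⟨0,[(0,0),(22,0),(14,1)]⟩⟩,⟨true,0,⟨0,[(38,0)]⟩,⟨0,[(37,0)]⟩⟩,⟨false,1,⟨3,
  [(1,1),(1,1),(3,1),(13,0),(0,1),(5,1),(11,0)]⟩,⟨0,[(0,0),(22,0),(14,0)]⟩⟩,[.o ⟨false,1,⟨27,[(5,7),
  (2,3),(1,3),(9,4),(0,4),(3,3),(2,3),(4,9)]⟩,⟨0,[(38,0)]⟩⟩,.o ⟨false,1,⟨1,[(5,0),(27,0),(2,0)]⟩,⟨0,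
  [(38,0),(3,0)]⟩⟩,.a ⟨true,0,⟨0,[(23,0)]⟩,⟨1,[(22,0),(8,0),(0,0)]⟩⟩ ⟨true,0,⟨0,[(0,0),(37,0)]⟩,⟨0,
  [(2,0)]⟩⟩ ⟨false,1,⟨15,[(5,7),(14,0),(0,0),(0,7),(2,3),(2,3),(4,1),(6,3)]⟩,⟨0,[(23,0),(14,0)]⟩⟩,
  .o ⟨false,0,⟨0,[(17,0),(5,0),(4,0)]⟩,⟨7,[(20,0),(0,0),(0,3),(10,1),(5,3)]⟩⟩]⟩)))) (.R ⟨1,false,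
  false,true,[1,0,0,-1],[1,-1],[0,0,0,0,0,0,0,0,-1],(⟨1,[(19,0),(8,0),(0,0)]⟩,⟨0,[(20,0)]⟩),(⟨0,
  [(31,0)]⟩,⟨0,[(32,0)]⟩),⟨1,[(8,0),(2,0),(7,0)]⟩,.k,.k,(.x 0 ⟨1,[(8,0),(2,0),(10,0),(2,0)]⟩ ⟨3,
  [(17,0),(0,0),(13,3),(3,1)]⟩),(.r 0 ⟨0,[(0,0),(24,0),(0,0),(8,1)]⟩ ⟨0,[(0,0),(17,0)]⟩),.k,.k,
  ⟨false,0,⟨0,[(0,0),(32,0),(1,1)]⟩,⟨1,[(18,0),(15,1),(1,0)]⟩⟩,⟨true,0,⟨1,[(19,0),(2,0),(2,0)]⟩,⟨0,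
  [(20,0)]⟩⟩,⟨false,1,⟨3,[(17,0),(0,0),(18,1)]⟩,⟨0,[]⟩⟩,⟨false,1,⟨55,[(2,15),(2,7),(1,7),(9,2),(0,
  30),(0,27),(2,7),(2,7),(4,5)]⟩,⟨0,[(0,0),(19,0),(12,0),(1,1)]⟩⟩,⟨true,0,⟨0,[(35,0)]⟩,⟨0,[(34,
  0)]⟩⟩,⟨false,1,⟨7,[(17,0),(0,4),(0,3),(10,1)]⟩,⟨0,[(0,0),(19,0),(12,0),(1,0)]⟩⟩,[.o ⟨false,0,⟨0,
  [(1,0),(3,0)]⟩,⟨3,[(17,0),(0,0),(16,3),(1,1)]⟩⟩,.o ⟨false,1,⟨27,[(2,7),(2,3),(1,3),(9,4),(0,4),(3,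
  3),(2,3),(4,9)]⟩,⟨0,[(35,0)]⟩⟩,.a ⟨true,0,⟨0,[(20,0)]⟩,⟨1,[(19,0),(8,0),(0,0)]⟩⟩ ⟨false,0,⟨0,[(0,
  0),(32,0),(1,0)]⟩,⟨3,[(17,0),(0,2)]⟩⟩ ⟨true,0,⟨3,[(5,0),(1,1),(11,1),(3,0)]⟩,⟨0,[(20,0),(14,0)]⟩⟩,
  .o ⟨false,0,⟨0,[(14,0),(5,0),(4,0)]⟩,⟨7,[(17,0),(0,0),(0,3),(10,1),(5,3)]⟩⟩]⟩))

theorem ok37 : chk (cU (-1) false 2) t37 r19 = true := by decide +kernel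

noncomputable def t58 : Tre :=
  (.R ⟨1,false,false,true,[1,0,-1],[1,-1],[0,1],(⟨0,[(21,0)]⟩,⟨0,[(22,0)]⟩),(⟨0,[(24,0)]⟩,⟨0,[(25,
  0)]⟩),⟨0,[(4,0)]⟩,.k,.k,.k,.k,.k,.k,⟨false,0,⟨0,[(28,0)]⟩,⟨5,[(3,1),(1,1),(4,0),(0,0)]⟩⟩,⟨true,0,
  ⟨0,[(18,0)]⟩,⟨1,[(0,0),(8,0),(17,0)]⟩⟩,⟨false,0,⟨0,[(20,0)]⟩,⟨0,[(8,0),(17,0)]⟩⟩,⟨true,0,⟨0,[(6,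
  0)]⟩,⟨0,[(0,0),(13,0)]⟩⟩,⟨false,0,⟨0,[(20,0),(7,0)]⟩,⟨0,[(5,0),(20,0)]⟩⟩,⟨false,0,⟨0,[(2,0)]⟩,⟨0,
  [(17,0),(12,0)]⟩⟩,[.a ⟨true,0,⟨0,[(27,0)]⟩,⟨0,[(0,0)]⟩⟩ ⟨true,0,⟨0,[(32,0)]⟩,⟨0,[(26,0)]⟩⟩ ⟨false,
  1,⟨0,[(5,0),(10,0)]⟩,⟨0,[(0,0),(6,0)]⟩⟩,.o ⟨false,1,⟨1,[(23,0),(3,1),(2,0)]⟩,⟨0,[(28,0)]⟩⟩,.o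
  ⟨false,0,⟨0,[(7,0)]⟩,⟨3,[(2,1),(5,1),(1,0),(0,0),(6,1)]⟩⟩,.o ⟨false,0,⟨0,[(15,0)]⟩,⟨0,[(2,0),(5,
  0)]⟩⟩]⟩)

theorem ok58 : chk (cU (-1) false 2) t58 l35 = true := by decide +kernel

noncomputable def t64 : Tre :=
  (.Q [0,0,-2,0,1,0,1,0,0,1,-1] (.p false [0,0,1] [1] (⟨0,[(28,0)]⟩,⟨0,[(27,0)]⟩) .k 1 (⟨0,[]⟩,⟨0,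
  []⟩) .k .k) (.K ⟨0,[0,1,1],1,0,(⟨0,[(29,0),(2,0)]⟩,⟨0,[(11,0)]⟩),.k,.k,(.r 1 ⟨0,[(2,0),(6,0),(25,
  1)]⟩ ⟨5,[(10,1),(1,7),(4,0),(0,0)]⟩),.k,.k,[⟨0,[(2,0)]⟩,⟨0,[(0,0)]⟩,⟨0,[(1,0),(0,0)]⟩,⟨0,[(23,0),
  (11,0)]⟩]⟩) (.K ⟨2,[1,-1,-1],(-1),0,(⟨0,[(11,0)]⟩,⟨0,[(29,0),(2,0)]⟩),.k,(.r (-2) ⟨5,[(10,1),(1,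
  7),(4,0),(0,0)]⟩ ⟨0,[(2,0),(6,0),(25,1)]⟩),.k,(.r (-1) ⟨0,[(1,0),(3,0)]⟩ ⟨3,[(2,1),(6,1),(7,0),(0,
  0),(8,5),(7,3)]⟩),.k,[⟨0,[(1,0),(3,0),(3,1),(18,0),(0,0),(5,0)]⟩,⟨0,[(0,0)]⟩,⟨0,[(23,0),(4,0),(0,
  0),(5,0)]⟩,⟨0,[(0,0),(0,0)]⟩]⟩))

theorem ok64 : chk (cU (-1) false 2) t64 r41 = true := by decide +kernel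

noncomputable def t69 : Tre :=
  (.I [0,0,1,0,0,-1,2] (.Q [0,0,1,0,0,0,2,0,0,1,-2] (.p false [0,0,1] [1,0,-1] (⟨0,[(29,0)]⟩,⟨0,
  [(28,0)]⟩) .k 2 (⟨0,[(28,0)]⟩,⟨0,[(29,0)]⟩) .k (.r 0 ⟨0,[(27,1)]⟩ ⟨1,[(5,0),(9,1),(8,0),(0,0)]⟩))
  (.K ⟨2,[1,1,-1],0,0,(⟨0,[(29,0),(3,0)]⟩,⟨0,[(2,0)]⟩),.k,.k,(.r 0 ⟨0,[(0,0),(6,0),(15,0),(12,0)]⟩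
  ⟨0,[(11,0)]⟩),(.x (-1) ⟨1,[(17,1),(11,3),(1,0),(1,1),(3,0)]⟩ ⟨0,[(1,0)]⟩),.k,[⟨0,[(0,0)]⟩,⟨0,[(15,
  0)]⟩,⟨0,[(14,0),(14,0),(0,0)]⟩,⟨0,[(22,0),(13,0)]⟩]⟩) (.I [0,0,1,1,0,0,0,-1,-1] (.I [0,0,-1,-1,0,
  0,0,0,-1] (.R ⟨1,false,false,true,[1,0,0,-1],[1,-1],[0,0,0,0,0,0,0,0,-1],(⟨1,[(22,0),(8,0),(0,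
  0)]⟩,⟨0,[(23,0)]⟩),(⟨0,[(34,0)]⟩,⟨0,[(35,0)]⟩),⟨1,[(4,0),(9,0),(7,0)]⟩,.k,.k,(.r 0 ⟨0,[(0,0)]⟩ ⟨7,
  [(1,3),(10,3),(7,0),(0,6),(7,3),(8,3)]⟩),(.r 0 ⟨0,[(1,0),(28,0)]⟩ ⟨0,[(0,0),(20,0)]⟩),.k,.k,
  ⟨false,0,⟨2,[(0,1),(0,0),(5,1),(0,0),(29,5)]⟩,⟨3,[(5,0),(7,0),(7,1),(5,0),(9,1),(4,0)]⟩⟩,⟨true,0,
  ⟨1,[(22,0),(2,0),(2,0)]⟩,⟨0,[(23,0)]⟩⟩,⟨false,1,⟨3,[(20,0),(0,0),(18,1)]⟩,⟨0,[]⟩⟩,⟨false,1,⟨1,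
  [(10,0),(10,0),(0,0),(14,0),(2,0)]⟩,⟨2,[(0,1),(0,0),(5,1),(0,0),(14,2),(14,5)]⟩⟩,⟨true,0,⟨0,[(38,
  0)]⟩,⟨0,[(37,0)]⟩⟩,⟨false,1,⟨7,[(20,0),(0,4),(0,3),(10,1)]⟩,⟨2,[(0,1),(0,0),(5,1),(0,0),(14,2),
  (14,2)]⟩⟩,[.o ⟨false,0,⟨0,[(10,0)]⟩,⟨3,[(20,0),(0,0),(16,3),(1,1)]⟩⟩,.o ⟨false,1,⟨1,[(33,0),(3,1),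
  (2,0)]⟩,⟨0,[(38,0)]⟩⟩,.a ⟨true,0,⟨0,[(23,0)]⟩,⟨1,[(22,0),(8,0),(0,0)]⟩⟩ ⟨false,0,⟨2,[(0,1),(0,0),
  (5,1),(0,0),(29,2)]⟩,⟨3,[(20,0),(0,2)]⟩⟩ ⟨true,0,⟨1,[(10,0),(11,0),(14,0)]⟩,⟨0,[(23,0),(14,0)]⟩⟩,
  .o ⟨false,0,⟨0,[(17,0),(5,0),(4,0)]⟩,⟨7,[(20,0),(0,0),(0,3),(10,1),(5,3)]⟩⟩]⟩) (.Q [0,-1,0,1,0,0,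
  1,1,0,1,-1] (.p false [0,0,1] [1] (⟨0,[(32,0)]⟩,⟨0,[(31,0)]⟩) .k 1 (⟨0,[]⟩,⟨0,[]⟩) .k .k) (.Q [0,
  0,0,-1,0,0,0,0,-1,-1,0,1] (.p true [0,0,0,1] [1] (⟨0,[(24,0)]⟩,⟨1,[(23,0),(8,0),(0,0)]⟩) .k 1 (⟨0,
  []⟩,⟨0,[]⟩) .k .k) (.Q [0,1,0,0,0,0,-2,-2,0,-1,2] (.p true [0,0,1] [1,0,-1] (⟨0,[(34,0)]⟩,⟨0,[(33,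
  0)]⟩) .k 2 (⟨0,[(33,0)]⟩,⟨0,[(34,0)]⟩) .k (.r 0 ⟨0,[(32,1)]⟩ ⟨1,[(10,0),(9,1),(8,0),(0,0)]⟩)) (.I
  [0,0,-2,-2,1] (.Q [0,1,0,-1,0,0,-1,-1,0,0,1] (.p true [0,0,1] [] (⟨0,[(36,0)]⟩,⟨0,[(35,0)]⟩) .k 0
  (⟨0,[]⟩,⟨0,[]⟩) .k .k) (.R ⟨1,false,false,true,[1,-1],[1,-1,-1],[1],(⟨0,[(39,0)]⟩,⟨0,[(40,0)]⟩),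
  (⟨0,[(19,0)]⟩,⟨0,[(37,0),(2,0)]⟩),⟨0,[(9,0),(9,0)]⟩,.k,.k,(.r (-1) ⟨0,[(1,0)]⟩ ⟨0,[(5,0),(0,0),
  (28,0)]⟩),.k,.k,.k,⟨false,0,⟨0,[(4,0),(17,0)]⟩,⟨0,[(20,0),(26,0)]⟩⟩,⟨true,0,⟨2,[(7,0),(26,0),(1,
  0),(0,0)]⟩,⟨0,[(33,0)]⟩⟩,⟨false,0,⟨4,[(4,2),(0,0),(0,0),(6,1),(8,1),(7,0)]⟩,⟨5,[(18,1),(1,1),(4,
  0),(0,0)]⟩⟩,⟨true,0,⟨0,[(32,0)]⟩,⟨0,[(17,0)]⟩⟩,⟨false,0,⟨2,[(4,1),(0,0),(0,0),(6,0),(8,1),(20,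
  1)]⟩,⟨3,[(12,0),(5,0),(1,1),(21,2),(2,0)]⟩⟩,⟨false,0,⟨0,[(14,0)]⟩,⟨0,[(21,0),(23,0)]⟩⟩,[.a ⟨true,
  0,⟨0,[(0,0)]⟩,⟨0,[(4,0)]⟩⟩ ⟨true,0,⟨0,[]⟩,⟨1,[(33,0),(0,0)]⟩⟩ ⟨false,1,⟨0,[(11,0),(20,0)]⟩,⟨4,[(4,
  2),(0,0),(0,0),(6,1),(3,4),(4,1),(7,0)]⟩⟩,.o ⟨false,1,⟨0,[(20,0),(9,0)]⟩,⟨0,[(17,0),(25,0)]⟩⟩,.o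
  ⟨false,0,⟨0,[(22,0),(10,0)]⟩,⟨3,[(25,0),(0,0),(17,1)]⟩⟩,.o ⟨false,0,⟨0,[(30,0),(2,0)]⟩,⟨0,[(44,
  0)]⟩⟩]⟩) (.Q [0,0,0,1,0,0,-2,-2,0,-1,2] (.p true [0,0,1] [1,0,-1] (⟨0,[(37,0)]⟩,⟨0,[(36,0)]⟩) .k
  2 (⟨0,[(36,0)]⟩,⟨0,[(37,0)]⟩) .k (.r 0 ⟨0,[(35,1)]⟩ ⟨1,[(13,0),(9,1),(8,0),(0,0)]⟩)) (.R ⟨1,true,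
  false,true,[0,0,1],[1,0,-1],[1,0,0,-1,0,0,0,1],(⟨0,[(38,0)]⟩,⟨0,[(37,0)]⟩),(⟨0,[(37,0)]⟩,⟨0,[(38,
  0)]⟩),⟨0,[(10,0)]⟩,.k,.k,.k,.k,(.x 0 ⟨0,[(9,0)]⟩ ⟨3,[(8,3),(17,0),(0,0),(9,7),(1,1),(1,3)]⟩),.k,
  ⟨true,0,⟨0,[(13,0),(22,0)]⟩,⟨1,[(0,0),(0,0),(7,1),(20,2),(6,3),(3,1)]⟩⟩,⟨false,0,⟨0,[(8,0)]⟩,⟨3,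
  [(9,1),(1,1),(14,0),(0,0),(6,1),(2,3),(3,1)]⟩⟩,⟨false,1,⟨0,[(43,0),(2,0)]⟩,⟨0,[(44,0)]⟩⟩,⟨true,0,
  ⟨0,[(3,0)]⟩,⟨0,[(5,0),(16,0)]⟩⟩,⟨true,0,⟨0,[]⟩,⟨0,[(48,0)]⟩⟩,⟨false,0,⟨0,[(0,0)]⟩,⟨17,[(5,9),(3,
  3),(3,5),(5,1),(2,17),(3,2),(0,2),(9,7),(3,3),(4,9)]⟩⟩,[]⟩) (.R ⟨1,true,false,true,[0,0,1],[1,1,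
  -1],[1,0,0,-1,0,0,0,1],(⟨0,[(38,0)]⟩,⟨0,[(37,0)]⟩),(⟨0,[(37,0),(3,0)]⟩,⟨0,[(10,0)]⟩),⟨0,[(10,0)]⟩,
  .k,.k,.k,(.x 0 ⟨0,[(9,0)]⟩ ⟨3,[(8,3),(17,0),(0,0),(9,7),(1,1),(1,3)]⟩),(.r (-1) ⟨0,[(19,0),(16,
  0)]⟩ ⟨0,[(15,1),(18,1)]⟩),.k,⟨false,1,⟨11,[(1,1),(3,1),(2,1),(4,5),(5,10),(16,2),(9,0)]⟩,⟨0,[(1,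
  0),(1,0),(5,0),(20,0),(6,1),(3,0),(2,0)]⟩⟩,⟨true,0,⟨0,[(8,0)]⟩,⟨3,[(9,1),(24,4),(0,0),(1,3),(3,
  1)]⟩⟩,⟨false,1,⟨0,[(43,0),(2,0)]⟩,⟨0,[(44,0)]⟩⟩,⟨true,0,⟨0,[(3,0),(40,0)]⟩,⟨0,[(0,0)]⟩⟩,⟨true,0,
  ⟨0,[]⟩,⟨0,[(48,0)]⟩⟩,⟨false,0,⟨0,[(1,0),(1,0),(11,0)]⟩,⟨0,[(0,0),(42,0),(2,0)]⟩⟩,[]⟩))) (.Q [0,0,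
  0,1,0,0,-2,-2,0,-1,2] (.p true [0,0,1] [1,0,-1] (⟨0,[(36,0)]⟩,⟨0,[(35,0)]⟩) .k 2 (⟨0,[(35,0)]⟩,⟨0,
  [(36,0)]⟩) .k (.r 0 ⟨0,[(34,1)]⟩ ⟨1,[(12,0),(9,1),(8,0),(0,0)]⟩)) (.R ⟨1,true,false,true,[0,0,1],
  [1,0,-1],[1,0,0,-1,0,0,0,1],(⟨0,[(37,0)]⟩,⟨0,[(36,0)]⟩),(⟨0,[(36,0)]⟩,⟨0,[(37,0)]⟩),⟨0,[(9,0)]⟩,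
  .k,.k,.k,.k,(.x 0 ⟨0,[(8,0)]⟩ ⟨3,[(7,3),(17,0),(0,0),(9,7),(1,1),(1,3)]⟩),.k,⟨true,0,⟨0,[(12,0),
  (22,0)]⟩,⟨1,[(1,0),(0,1),(5,0),(1,0),(22,0),(2,1),(3,0)]⟩⟩,⟨false,0,⟨0,[(7,0)]⟩,⟨3,[(8,1),(1,1),
  (14,0),(0,0),(6,1),(2,3),(3,1)]⟩⟩,⟨false,1,⟨0,[(42,0),(2,0)]⟩,⟨0,[(43,0)]⟩⟩,⟨true,0,⟨0,[(2,0)]⟩,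
  ⟨0,[(4,0),(16,0)]⟩⟩,⟨true,0,⟨0,[]⟩,⟨0,[(47,0)]⟩⟩,⟨false,0,⟨0,[(0,0)]⟩,⟨17,[(4,9),(3,3),(3,5),(5,
  1),(2,17),(3,2),(0,2),(9,7),(3,3),(4,9)]⟩⟩,[]⟩) (.R ⟨1,true,false,true,[0,0,1],[1,-1,-1],[1,1,-1,
  -1,0,0,0,-1],(⟨0,[(37,0)]⟩,⟨0,[(36,0)]⟩),(⟨0,[(19,0)]⟩,⟨0,[(37,0),(2,0)]⟩),⟨0,[(9,0)]⟩,.k,.k,.k,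
  (.r 1 ⟨0,[(0,0),(0,0),(5,0)]⟩ ⟨7,[(6,3),(13,11),(4,0),(0,2)]⟩),.k,.k,⟨true,0,⟨0,[]⟩,⟨1,[(33,0),(0,
  0)]⟩⟩,⟨false,0,⟨0,[(24,0)]⟩,⟨11,[(0,1),(5,1),(1,4),(1,8),(12,1),(2,0),(6,0),(2,9),(3,4)]⟩⟩,⟨true,
  1,⟨0,[(10,0),(2,0),(18,0),(9,0)]⟩,⟨0,[(0,0),(0,0),(5,0)]⟩⟩,⟨false,1,⟨10,[(2,6),(9,1),(0,0),(6,8),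
  (9,3),(3,3),(10,1)]⟩,⟨0,[(4,0),(12,0)]⟩⟩,⟨false,1,⟨0,[(10,0),(2,0),(18,0)]⟩,⟨9,[(0,1),(0,2),(10,
  3),(17,1),(3,1),(0,11),(9,2)]⟩⟩,⟨true,0,⟨0,[(2,0)]⟩,⟨1,[(0,0),(3,0),(26,0)]⟩⟩,[]⟩))) (.Q [0,0,0,
  -1,0,0,1,1,0,1,-1] (.p false [0,0,1] [1] (⟨0,[(35,0)]⟩,⟨0,[(34,0)]⟩) .k 1 (⟨0,[]⟩,⟨0,[]⟩) .k .k)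
  (.R ⟨1,false,false,false,[1,0,-1],[0,-1,1],[0,1],(⟨0,[(35,0)]⟩,⟨0,[(36,0)]⟩),(⟨0,[(8,0)]⟩,⟨0,[(35,
  0),(3,0)]⟩),⟨0,[(18,0)]⟩,.k,.k,.k,(.x (-1) ⟨3,[(6,3),(17,0),(0,0),(9,7),(1,1),(1,3)]⟩ ⟨0,[(7,
  0)]⟩),.k,.k,⟨true,0,⟨0,[(31,0),(0,0),(9,0)]⟩,⟨0,[(11,0)]⟩⟩,⟨false,1,⟨16,[(0,3),(0,4),(3,3),(1,3),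
  (14,14),(2,1),(4,4),(1,6),(2,7),(3,3)]⟩,⟨0,[(6,0)]⟩⟩,⟨false,0,⟨0,[(34,0)]⟩,⟨7,[(12,3),(9,3),(1,0),
  (0,0),(18,1)]⟩⟩,⟨true,0,⟨1,[(0,0),(0,0),(18,0)]⟩,⟨0,[(13,0),(14,0)]⟩⟩,⟨false,0,⟨0,[(34,0),(7,0)]⟩,
  ⟨1,[(12,0),(6,0),(21,0),(2,0)]⟩⟩,⟨false,0,⟨0,[(1,0)]⟩,⟨7,[(6,1),(5,2),(0,0),(5,0),(11,10),(5,2),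
  (6,3)]⟩⟩,[.a ⟨true,0,⟨0,[(0,0)]⟩,⟨0,[(13,0)]⟩⟩ ⟨true,0,⟨0,[(46,0)]⟩,⟨0,[(40,0)]⟩⟩ ⟨false,1,⟨5,[(0,
  5),(8,3),(14,0),(0,0),(6,1)]⟩,⟨0,[(13,0),(7,0)]⟩⟩,.o ⟨false,1,⟨0,[(20,0),(23,0)]⟩,⟨0,[(28,0),(13,
  0)]⟩⟩,.o ⟨false,0,⟨0,[(21,0)]⟩,⟨2,[(9,0),(14,0),(0,0),(6,1)]⟩⟩,.o ⟨false,0,⟨0,[(29,0)]⟩,⟨5,[(9,3),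
  (14,0),(0,0),(6,1)]⟩⟩]⟩) (.R ⟨1,true,false,true,[0,0,1],[1,1,-1],[1,0,0,-1,0,0,0,1],(⟨0,[(36,0)]⟩,
  ⟨0,[(35,0)]⟩),(⟨0,[(35,0),(3,0)]⟩,⟨0,[(8,0)]⟩),⟨0,[(8,0)]⟩,.k,.k,.k,(.x 0 ⟨0,[(7,0)]⟩ ⟨3,[(6,3),
  (17,0),(0,0),(9,7),(1,1),(1,3)]⟩),(.r (-1) ⟨0,[(17,0),(16,0)]⟩ ⟨0,[(13,1),(18,1)]⟩),.k,⟨false,1,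
  ⟨6,[(1,2),(4,1),(4,1),(5,5),(5,0),(20,0)]⟩,⟨0,[(0,1),(6,0),(27,1),(3,0),(6,0)]⟩⟩,⟨true,0,⟨0,[(6,
  0)]⟩,⟨3,[(7,1),(24,4),(0,0),(1,3),(3,1)]⟩⟩,⟨false,1,⟨0,[(41,0),(2,0)]⟩,⟨0,[(42,0)]⟩⟩,⟨true,0,⟨0,
  [(0,0),(30,0)]⟩,⟨0,[(1,0),(39,0)]⟩⟩,⟨true,0,⟨0,[]⟩,⟨0,[(46,0)]⟩⟩,⟨false,0,⟨0,[(0,0),(12,0)]⟩,⟨0,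
  [(1,0),(39,1),(2,0)]⟩⟩,[]⟩))) (.I [0,0,-2,-2,1] (.Q [0,1,0,-1,0,0,-1,-1,0,0,1] (.p true [0,0,1]
  [] (⟨0,[(35,0)]⟩,⟨0,[(34,0)]⟩) .k 0 (⟨0,[]⟩,⟨0,[]⟩) .k .k) (.R ⟨1,false,false,true,[1,-1],[1,-1,
  -1],[1],(⟨0,[(38,0)]⟩,⟨0,[(39,0)]⟩),(⟨0,[(18,0)]⟩,⟨0,[(36,0),(2,0)]⟩),⟨0,[(8,0),(9,0)]⟩,.k,.k,(.r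
  (-1) ⟨0,[(1,0)]⟩ ⟨0,[(4,0),(0,0),(28,0)]⟩),.k,.k,.k,⟨false,0,⟨0,[(3,0),(17,0)]⟩,⟨0,[(19,0),(26,
  0)]⟩⟩,⟨true,0,⟨2,[(6,0),(26,0),(1,0),(0,0)]⟩,⟨0,[(32,0)]⟩⟩,⟨false,0,⟨4,[(3,2),(0,0),(0,0),(6,1),
  (8,1),(7,0)]⟩,⟨3,[(1,1),(22,0),(0,0)]⟩⟩,⟨true,0,⟨0,[(31,0)]⟩,⟨0,[(16,0)]⟩⟩,⟨false,0,⟨2,[(3,1),(0,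
  0),(0,0),(6,0),(8,1),(20,1)]⟩,⟨1,[(1,0),(39,1),(2,0)]⟩⟩,⟨false,0,⟨0,[(13,0)]⟩,⟨0,[(20,0),(23,
  0)]⟩⟩,[.a ⟨true,0,⟨0,[(0,0)]⟩,⟨0,[(3,0)]⟩⟩ ⟨true,0,⟨0,[]⟩,⟨1,[(32,0),(0,0)]⟩⟩ ⟨false,1,⟨1,[(1,0),
  (29,1),(11,0)]⟩,⟨4,[(3,2),(0,0),(0,0),(6,1),(3,4),(4,1),(7,0)]⟩⟩,.o ⟨false,1,⟨0,[(19,0),(9,0)]⟩,
  ⟨0,[(16,0),(25,0)]⟩⟩,.o ⟨false,0,⟨0,[(21,0),(10,0)]⟩,⟨3,[(24,0),(0,0),(17,1)]⟩⟩,.o ⟨false,0,⟨0,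
  [(29,0),(2,0)]⟩,⟨0,[(43,0)]⟩⟩]⟩) (.Q [0,0,0,-1,0,0,1,1,0,1,-1] (.p false [0,0,1] [1] (⟨0,[(36,
  0)]⟩,⟨0,[(35,0)]⟩) .k 1 (⟨0,[]⟩,⟨0,[]⟩) .k .k) (.R ⟨1,false,false,false,[1,-1],[0,-1,1],[0,1],(⟨0,
  [(39,0)]⟩,⟨0,[(40,0)]⟩),(⟨0,[(9,0)]⟩,⟨0,[(36,0),(3,0)]⟩),⟨0,[(9,0),(9,0)]⟩,.k,.k,(.r (-1) ⟨0,[(2,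
  0)]⟩ ⟨0,[(5,0),(0,0),(28,0)]⟩),.k,.k,.k,⟨true,0,⟨0,[(32,0),(0,0),(9,0)]⟩,⟨0,[(12,0)]⟩⟩,⟨false,1,
  ⟨1,[(0,0),(3,0),(18,1),(23,0)]⟩,⟨0,[(22,0)]⟩⟩,⟨false,0,⟨1,[(5,0),(0,0),(28,0)]⟩,⟨1,[(2,0),(42,
  0)]⟩⟩,⟨true,0,⟨1,[(0,0),(3,0),(42,0)]⟩,⟨0,[(29,0)]⟩⟩,⟨false,0,⟨1,[(5,0),(0,0),(28,0),(7,1)]⟩,⟨2,
  [(2,1),(9,0),(0,0),(28,0),(2,0)]⟩⟩,⟨false,0,⟨0,[(4,0)]⟩,⟨0,[(20,0),(9,0)]⟩⟩,[.a ⟨true,0,⟨0,[(0,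
  0)]⟩,⟨0,[(14,0)]⟩⟩ ⟨true,0,⟨0,[(47,0)]⟩,⟨0,[(41,0)]⟩⟩ ⟨false,1,⟨0,[(0,0),(43,0)]⟩,⟨7,[(1,0),(3,2),
  (0,2),(6,1),(0,0),(7,4),(6,2)]⟩⟩,.o ⟨false,1,⟨1,[(0,1),(37,0),(6,0)]⟩,⟨0,[(29,0),(13,0)]⟩⟩,.o
  ⟨false,0,⟨5,[(1,1),(11,0),(1,1),(13,0),(0,2),(2,1)]⟩,⟨3,[(25,0),(0,0),(17,1)]⟩⟩,.o ⟨false,0,⟨0,
  [(30,0),(2,0)]⟩,⟨0,[(44,0)]⟩⟩]⟩) (.Q [0,0,0,-1,0,0,2,2,0,1,-2] (.p false [0,0,1] [1,0,-1] (⟨0,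
  [(37,0)]⟩,⟨0,[(36,0)]⟩) .k 2 (⟨0,[(36,0)]⟩,⟨0,[(37,0)]⟩) .k (.r 0 ⟨0,[(35,1)]⟩ ⟨1,[(13,0),(9,1),
  (8,0),(0,0)]⟩)) (.R ⟨1,true,false,true,[0,0,1],[1,1,-1],[1,0,0,-1,0,0,0,1],(⟨0,[(38,0)]⟩,⟨0,[(37,
  0)]⟩),(⟨0,[(37,0),(3,0)]⟩,⟨0,[(10,0)]⟩),⟨0,[(10,0)]⟩,.k,.k,.k,(.x 0 ⟨0,[(9,0)]⟩ ⟨3,[(8,3),(17,0),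
  (0,0),(9,7),(1,1),(1,3)]⟩),(.r (-1) ⟨0,[(19,0),(16,0)]⟩ ⟨0,[(15,1),(18,1)]⟩),.k,⟨false,1,⟨11,[(2,
  1),(2,1),(2,1),(4,5),(5,10),(16,2),(9,0)]⟩,⟨0,[(1,1),(7,0),(27,1),(3,0),(6,0)]⟩⟩,⟨true,0,⟨0,[(8,
  0)]⟩,⟨3,[(9,1),(24,4),(0,0),(1,3),(3,1)]⟩⟩,⟨false,1,⟨0,[(43,0),(2,0)]⟩,⟨0,[(44,0)]⟩⟩,⟨true,0,⟨0,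
  [(1,0),(31,0)]⟩,⟨0,[(0,0)]⟩⟩,⟨true,0,⟨0,[]⟩,⟨0,[(48,0)]⟩⟩,⟨false,0,⟨0,[(1,0),(13,0)]⟩,⟨0,[(0,0),
  (42,0),(2,0)]⟩⟩,[]⟩) (.R ⟨1,true,false,true,[0,0,1],[1,0,-1],[0,0,0,0,0,0,0,1],(⟨0,[(38,0)]⟩,⟨0,
  [(37,0)]⟩),(⟨0,[(37,0)]⟩,⟨0,[(38,0)]⟩),⟨0,[(10,0)]⟩,.k,.k,.k,.k,(.x 0 ⟨0,[(9,0)]⟩ ⟨3,[(8,3),(17,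
  0),(0,0),(9,7),(1,1),(1,3)]⟩),.k,⟨true,0,⟨3,[(2,0),(2,0),(7,1),(11,0),(10,3)]⟩,⟨0,[(0,0),(8,0),(6,
  0),(20,1),(3,0)]⟩⟩,⟨false,0,⟨0,[(8,0)]⟩,⟨3,[(9,1),(1,1),(14,0),(0,0),(6,1),(2,3),(3,1)]⟩⟩,⟨false,
  1,⟨3,[(26,0),(0,0),(18,1)]⟩,⟨0,[]⟩⟩,⟨true,0,⟨0,[(0,0),(42,0)]⟩,⟨0,[(5,0),(16,0)]⟩⟩,⟨true,0,⟨0,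
  [(44,0)]⟩,⟨0,[(43,0)]⟩⟩,⟨false,0,⟨0,[(0,0)]⟩,⟨17,[(5,9),(3,3),(3,5),(5,1),(2,17),(3,2),(0,2),(9,
  7),(3,3),(4,9)]⟩⟩,[]⟩)))) (.Q [0,0,0,-1,0,0,2,2,0,1,-2] (.p false [0,0,1] [1,0,-1] (⟨0,[(35,0)]⟩,
  ⟨0,[(34,0)]⟩) .k 2 (⟨0,[(34,0)]⟩,⟨0,[(35,0)]⟩) .k (.r 0 ⟨0,[(33,1)]⟩ ⟨1,[(11,0),(9,1),(8,0),(0,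
  0)]⟩)) (.R ⟨1,true,false,true,[0,0,1],[1,1,-1],[1,0,0,-1,0,0,0,1],(⟨0,[(36,0)]⟩,⟨0,[(35,0)]⟩),(⟨0,
  [(35,0),(3,0)]⟩,⟨0,[(8,0)]⟩),⟨0,[(8,0)]⟩,.k,.k,.k,(.x 0 ⟨0,[(7,0)]⟩ ⟨3,[(6,3),(17,0),(0,0),(9,7),
  (1,1),(1,3)]⟩),(.r (-1) ⟨0,[(17,0),(16,0)]⟩ ⟨1,[(1,1),(10,0),(9,1),(8,0),(0,0)]⟩),.k,⟨false,1,⟨9,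
  [(3,3),(2,1),(4,5),(5,8),(16,0),(2,0)]⟩,⟨1,[(1,1),(7,1),(2,0),(18,2),(0,0)]⟩⟩,⟨true,0,⟨0,[(6,0)]⟩,
  ⟨3,[(7,1),(24,4),(0,0),(1,3),(3,1)]⟩⟩,⟨false,1,⟨0,[(41,0),(2,0)]⟩,⟨0,[(42,0)]⟩⟩,⟨true,0,⟨0,[(13,
  0),(14,0)]⟩,⟨0,[(0,0)]⟩⟩,⟨true,0,⟨0,[]⟩,⟨0,[(46,0)]⟩⟩,⟨false,0,⟨1,[(1,0),(4,0),(2,0),(2,0),(0,1),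
  (14,0)]⟩,⟨0,[(0,0),(40,0),(2,0)]⟩⟩,[]⟩) (.R ⟨1,true,false,true,[0,0,1],[1,0,-1],[1,0,0,-1,0,0,0,
  1],(⟨0,[(36,0)]⟩,⟨0,[(35,0)]⟩),(⟨0,[(35,0)]⟩,⟨0,[(36,0)]⟩),⟨0,[(8,0)]⟩,.k,.k,.k,.k,(.x 0 ⟨0,[(7,
  0)]⟩ ⟨3,[(6,3),(17,0),(0,0),(9,7),(1,1),(1,3)]⟩),.k,⟨true,0,⟨0,[(11,0),(22,0)]⟩,⟨0,[(1,0),(7,0),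
  (2,0),(18,0),(9,0)]⟩⟩,⟨false,0,⟨0,[(6,0)]⟩,⟨3,[(7,1),(1,1),(14,0),(0,0),(6,1),(2,3),(3,1)]⟩⟩,
  ⟨false,1,⟨0,[(41,0),(2,0)]⟩,⟨0,[(42,0)]⟩⟩,⟨true,0,⟨0,[(0,0),(40,0)]⟩,⟨0,[(3,0),(16,0)]⟩⟩,⟨true,0,
  ⟨0,[]⟩,⟨0,[(46,0)]⟩⟩,⟨false,0,⟨0,[(0,0)]⟩,⟨17,[(3,9),(3,3),(3,5),(5,1),(2,17),(3,2),(0,2),(9,7),
  (3,3),(4,9)]⟩⟩,[]⟩)))) (.I [1,-1,0,0,0,0,0,0,-1] (.R ⟨1,false,false,true,[1,0,0,-1],[1,-1],[0,1,0,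
  0,0,0,0,0,-1],(⟨1,[(24,0),(8,0),(0,0)]⟩,⟨0,[(25,0)]⟩),(⟨0,[(36,0)]⟩,⟨0,[(37,0)]⟩),⟨1,[(6,0),(9,0),
  (7,0)]⟩,.k,.k,(.x 0 ⟨2,[(5,0),(10,1),(10,1)]⟩ ⟨3,[(22,0),(0,0),(13,3),(3,1)]⟩),(.r 0 ⟨0,[(3,0),
  (28,0)]⟩ ⟨1,[(1,0),(5,0),(1,0),(13,0),(9,0),(0,0)]⟩),.k,.k,⟨false,0,⟨0,[(0,0),(39,0),(3,0)]⟩,⟨1,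
  [(1,0),(5,0),(1,0),(13,0),(9,0),(0,0)]⟩⟩,⟨true,0,⟨1,[(24,0),(2,0),(2,0)]⟩,⟨0,[(25,0)]⟩⟩,⟨true,0,
  ⟨0,[(44,0)]⟩,⟨0,[]⟩⟩,⟨false,1,⟨1,[(12,0),(10,0),(0,0),(14,0),(2,0)]⟩,⟨0,[(0,0),(24,0),(14,0)]⟩⟩,
  ⟨false,0,⟨0,[(40,0)]⟩,⟨0,[(39,0),(2,0)]⟩⟩,⟨false,1,⟨7,[(22,0),(0,4),(0,3),(10,1)]⟩,⟨0,[(0,0),(24,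
  0)]⟩⟩,[.o ⟨false,0,⟨0,[(12,0)]⟩,⟨3,[(2,1),(19,0),(17,1),(0,0),(0,1)]⟩⟩,.o ⟨false,1,⟨1,[(35,0),(3,
  1),(2,0)]⟩,⟨0,[(40,0)]⟩⟩,.a ⟨true,0,⟨0,[(25,0)]⟩,⟨1,[(24,0),(8,0),(0,0)]⟩⟩ ⟨false,0,⟨0,[(0,0),(43,
  0)]⟩,⟨1,[(23,0),(18,0)]⟩⟩ ⟨true,0,⟨1,[(12,0),(11,0),(14,0)]⟩,⟨0,[(25,0),(14,0)]⟩⟩,.o ⟨false,0,⟨0,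
  [(19,0),(5,0),(4,0)]⟩,⟨7,[(22,0),(0,0),(0,3),(10,1),(5,3)]⟩⟩]⟩) (.Q [0,0,0,2,0,0,-2,-2,0,-1,2]
  (.p true [0,0,1] [1,0,-1] (⟨0,[(34,0)]⟩,⟨0,[(33,0)]⟩) .k 2 (⟨0,[(33,0)]⟩,⟨0,[(34,0)]⟩) .k (.r 0
  ⟨0,[(32,1)]⟩ ⟨1,[(10,0),(9,1),(8,0),(0,0)]⟩)) (.Q [0,0,0,1,0,0,-2,-2,0,-1,2] (.p true [0,0,1] [1,
  0,-1] (⟨0,[(35,0)]⟩,⟨0,[(34,0)]⟩) .k 2 (⟨0,[(34,0)]⟩,⟨0,[(35,0)]⟩) .k (.r 0 ⟨0,[(33,1)]⟩ ⟨1,[(11,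
  0),(9,1),(8,0),(0,0)]⟩)) (.R ⟨1,true,false,true,[0,0,1],[1,0,-1],[0,0,0,0,0,0,0,1],(⟨0,[(36,0)]⟩,
  ⟨0,[(35,0)]⟩),(⟨0,[(35,0)]⟩,⟨0,[(36,0)]⟩),⟨0,[(8,0)]⟩,.k,.k,.k,.k,(.x 0 ⟨0,[(7,0)]⟩ ⟨3,[(6,3),(17,
  0),(0,0),(9,7),(1,1),(1,3)]⟩),.k,⟨true,0,⟨0,[(11,0),(22,0),(7,0)]⟩,⟨0,[(0,0),(6,0),(6,0),(20,1),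
  (3,0)]⟩⟩,⟨false,0,⟨0,[(6,0)]⟩,⟨3,[(7,1),(1,1),(14,0),(0,0),(6,1),(2,3),(3,1)]⟩⟩,⟨false,1,⟨3,[(24,
  0),(0,0),(18,1)]⟩,⟨0,[]⟩⟩,⟨true,0,⟨1,[(0,0),(2,0),(27,0)]⟩,⟨0,[(16,1),(18,0),(0,0)]⟩⟩,⟨true,0,⟨0,
  [(42,0)]⟩,⟨0,[(41,0)]⟩⟩,⟨false,0,⟨0,[(0,0)]⟩,⟨3,[(7,1),(3,1),(4,3),(0,0),(6,0),(0,0),(8,0),(0,3),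
  (3,1),(4,0)]⟩⟩,[]⟩) (.R ⟨1,true,false,true,[0,0,1],[1,1,-1],[0,0,0,0,0,0,0,1],(⟨0,[(36,0)]⟩,⟨0,
  [(35,0)]⟩),(⟨0,[(35,0),(3,0)]⟩,⟨0,[(8,0)]⟩),⟨0,[(8,0)]⟩,.k,.k,.k,(.x 0 ⟨0,[(7,0)]⟩ ⟨3,[(6,3),(17,
  0),(0,0),(9,7),(1,1),(1,3)]⟩),(.r (-1) ⟨0,[(17,0),(16,0)]⟩ ⟨6,[(1,3),(0,1),(1,1),(0,3),(1,1),(4,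
  1),(19,3),(2,3),(3,1)]⟩),.k,⟨false,1,⟨1,[(0,1),(5,1),(36,0),(0,0)]⟩,⟨0,[(1,0),(5,0),(6,0),(20,1),
  (3,0)]⟩⟩,⟨true,0,⟨0,[(6,0)]⟩,⟨3,[(7,1),(24,4),(0,0),(1,3),(3,1)]⟩⟩,⟨false,1,⟨3,[(24,0),(0,0),(18,
  1)]⟩,⟨0,[]⟩⟩,⟨true,0,⟨1,[(1,0),(26,0),(2,0)]⟩,⟨0,[(0,0)]⟩⟩,⟨true,0,⟨0,[(42,0)]⟩,⟨0,[(41,0)]⟩⟩,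
  ⟨false,0,⟨0,[(1,0)]⟩,⟨0,[(0,0),(40,0),(2,0)]⟩⟩,[]⟩)) (.Q [0,0,0,0,0,2,0,0,0,-1,1] (.p true [0,0,
  1] [1] (⟨0,[(35,0)]⟩,⟨0,[(34,0)]⟩) .k 1 (⟨0,[]⟩,⟨0,[]⟩) .k .k) (.R ⟨0,false,false,false,[1,-1,-1],
  [0,-1,1],[1],(⟨0,[(18,0)]⟩,⟨0,[(36,0),(2,0)]⟩),(⟨0,[(8,0)]⟩,⟨0,[(35,0),(3,0)]⟩),⟨0,[(0,0)]⟩,.k,.k,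
  (.x 0 ⟨2,[(7,0),(10,4),(10,4)]⟩ ⟨0,[(9,0),(26,0),(2,1)]⟩),.k,.k,.k,⟨true,0,⟨1,[(2,0),(2,0),(6,0),
  (29,0)]⟩,⟨1,[(1,0),(21,0)]⟩⟩,⟨false,1,⟨6,[(1,0),(3,1),(1,2),(1,5),(15,0),(9,5),(3,2)]⟩,⟨0,[(23,
  0)]⟩⟩,⟨false,0,⟨0,[(34,0),(5,0),(1,0)]⟩,⟨0,[(15,0)]⟩⟩,⟨true,0,⟨0,[(1,0),(40,1)]⟩,⟨0,[(3,0),(9,
  0)]⟩⟩,⟨false,0,⟨0,[]⟩,⟨0,[]⟩⟩,⟨false,0,⟨0,[]⟩,⟨0,[]⟩⟩,[.a ⟨true,0,⟨1,[(1,0),(33,0),(0,0)]⟩,⟨0,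
  [(13,0)]⟩⟩ ⟨true,0,⟨0,[]⟩,⟨1,[(32,0),(0,0)]⟩⟩ ⟨false,1,⟨1,[(1,0),(7,1),(25,0),(0,0)]⟩,⟨0,[(13,0),
  (15,0)]⟩⟩,.o ⟨false,1,⟨7,[(1,3),(22,0),(0,0),(11,1),(6,3)]⟩,⟨0,[(28,0),(13,0)]⟩⟩,.o ⟨false,0,⟨0,
  [(29,0)]⟩,⟨5,[(9,3),(14,0),(0,0),(6,1)]⟩⟩,.o ⟨false,0,⟨1,[(29,1),(2,0),(0,0)]⟩,⟨0,[(9,0)]⟩⟩]⟩)
  (.I [1,0,0,0,0,0,0,0,-1] (.Q [0,0,0,0,0,0,0,0,-1,-1,0,1] (.p true [0,0,0,1] [1] (⟨0,[(28,0)]⟩,⟨1,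
  [(27,0),(8,0),(0,0)]⟩) .k 1 (⟨0,[]⟩,⟨0,[]⟩) .k .k) (.R ⟨1,false,false,false,[1,0,0,-1],[1,-1],[0,
  0,0,0,0,0,0,0,-1],(⟨1,[(28,0),(8,0),(0,0)]⟩,⟨0,[(29,0)]⟩),(⟨0,[(40,0)]⟩,⟨0,[(41,0)]⟩),⟨3,[(2,0),
  (7,0),(17,1),(11,0)]⟩,.k,.k,(.r (-1) ⟨2,[(1,0),(17,0),(1,0),(4,0)]⟩ ⟨0,[(2,3),(1,0),(0,0),(2,2),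
  (0,1),(4,1),(3,2),(22,9),(2,1)]⟩),(.r 0 ⟨0,[(7,0),(28,0)]⟩ ⟨2,[(4,0),(7,0),(0,0),(7,0),(5,0)]⟩),
  .k,.k,⟨false,0,⟨0,[(1,0),(42,0)]⟩,⟨2,[(4,0),(7,0),(0,0),(7,0),(5,0)]⟩⟩,⟨true,0,⟨1,[(28,0),(2,0),
  (2,0)]⟩,⟨0,[(29,0)]⟩⟩,⟨false,1,⟨3,[(26,0),(0,0),(18,1)]⟩,⟨0,[]⟩⟩,⟨false,1,⟨9,[(5,0),(5,0),(1,6),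
  (0,3),(6,1),(5,4),(0,4),(10,1)]⟩,⟨0,[(1,0),(27,0),(14,0)]⟩⟩,⟨true,0,⟨0,[(44,0)]⟩,⟨0,[(43,0)]⟩⟩,
  ⟨false,1,⟨35,[(6,9),(1,3),(2,7),(1,9),(0,9),(12,12),(0,17),(10,6),(6,7)]⟩,⟨0,[(1,0),(27,0)]⟩⟩,[.o
  ⟨false,1,⟨15,[(3,3),(17,7),(4,0),(0,0),(3,7),(7,5)]⟩,⟨0,[(44,0)]⟩⟩,.o ⟨false,1,⟨6,[(3,0),(1,1),(7,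
  1),(0,0),(6,0),(17,2),(6,2)]⟩,⟨0,[(44,0),(3,0)]⟩⟩,.a ⟨true,0,⟨0,[(29,0)]⟩,⟨1,[(28,0),(8,0),(0,
  0)]⟩⟩ ⟨true,0,⟨1,[(0,1),(1,1),(5,0),(0,0),(18,0),(12,4)]⟩,⟨0,[(4,0)]⟩⟩ ⟨false,1,⟨7,[(3,1),(1,1),
  (15,1),(6,3),(2,1),(7,0),(6,4)]⟩,⟨0,[(29,0),(14,0)]⟩⟩,.o ⟨false,0,⟨5,[(0,2),(5,2),(6,0),(0,0),(1,
  1),(12,2),(1,0),(2,0)]⟩,⟨7,[(26,0),(0,0),(0,3),(10,1),(5,3)]⟩⟩]⟩) (.R ⟨2,false,false,false,[0,1],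
  [0,0,0,1],[1,1,1],(⟨0,[]⟩,⟨0,[]⟩),(⟨0,[(29,0)]⟩,⟨1,[(28,0),(8,0),(0,0)]⟩),⟨0,[]⟩,.k,.k,.k,(.r 0
  ⟨0,[(7,0),(28,0)]⟩ ⟨2,[(4,0),(7,0),(0,0),(7,0),(5,0)]⟩),.k,.k,⟨false,0,⟨0,[(1,0),(46,0)]⟩,⟨5,[(0,
  1),(5,1),(1,1),(2,3),(1,1),(0,1),(12,0),(1,1),(16,0)]⟩⟩,⟨true,0,⟨1,[(28,0),(2,0),(2,0)]⟩,⟨0,[(29,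
  0)]⟩⟩,⟨true,0,⟨0,[(43,0)]⟩,⟨0,[(44,0)]⟩⟩,⟨false,1,⟨9,[(5,0),(5,0),(1,6),(0,3),(6,1),(5,4),(0,4),
  (10,1)]⟩,⟨0,[(1,0),(27,0),(14,0)]⟩⟩,⟨false,0,⟨0,[]⟩,⟨3,[(26,0),(0,0),(18,1)]⟩⟩,⟨false,1,⟨1,[(0,1),
  (38,0),(6,0)]⟩,⟨0,[(1,0),(27,0)]⟩⟩,[.a ⟨true,0,⟨0,[(0,0)]⟩,⟨0,[(1,0),(27,0)]⟩⟩ ⟨false,0,⟨0,[(48,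
  0)]⟩,⟨1,[(45,0),(0,0)]⟩⟩ ⟨true,0,⟨5,[(0,1),(5,3),(6,0),(0,1),(1,2),(1,0),(4,0),(4,1)]⟩,⟨0,[(1,0),
  (27,0)]⟩⟩,.o ⟨false,1,⟨1,[(0,1),(38,0),(6,0)]⟩,⟨0,[(1,0),(14,0),(12,0),(14,0)]⟩⟩,.o ⟨false,1,⟨3,
  [(26,0),(0,0),(17,1)]⟩,⟨0,[(23,0),(10,0)]⟩⟩,.e ⟨false,0,⟨0,[]⟩,⟨3,[(26,0),(0,0),(18,1)]⟩⟩ ⟨false,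
  1,⟨1,[(0,1),(38,0),(6,0)]⟩,⟨0,[(1,0),(27,0)]⟩⟩]⟩)) (.I [0,1,-1,0,0,0,0,1,1] (.R ⟨1,false,false,
  true,[1,0,0,-1],[0,-1,1],[1,0,0,-1,0,0,0,0,-1],(⟨1,[(28,0),(8,0),(0,0)]⟩,⟨0,[(29,0)]⟩),(⟨0,[(10,
  0)]⟩,⟨0,[(37,0),(3,0)]⟩),⟨3,[(2,0),(7,0),(17,1),(11,0)]⟩,.k,.k,(.r (-1) ⟨7,[(3,0),(1,0),(1,1),(4,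
  4),(0,1),(12,2),(6,0)]⟩ ⟨0,[(1,0),(0,5),(2,1),(2,3),(0,2),(4,1),(3,3),(22,14),(2,2)]⟩),(.r 0 ⟨0,
  [(7,0)]⟩ ⟨1,[(19,0),(7,0),(8,0)]⟩),.k,.k,⟨false,1,⟨9,[(11,1),(0,1),(1,7),(0,1),(10,4),(19,0)]⟩,⟨0,
  [(0,0)]⟩⟩,⟨true,0,⟨11,[(3,1),(2,1),(0,1),(1,1),(4,0),(13,5),(4,0),(0,4),(2,3),(3,1)]⟩,⟨0,[(23,0),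
  (5,0)]⟩⟩,⟨false,1,⟨3,[(3,0),(17,1),(9,0),(3,0),(10,1)]⟩,⟨0,[(44,0)]⟩⟩,⟨false,0,⟨1,[(1,1),(1,0),
  (24,0)]⟩,⟨11,[(7,9),(0,5),(2,1),(3,1),(10,0),(2,11),(9,2),(6,5)]⟩⟩,⟨true,0,⟨0,[]⟩,⟨0,[(48,0)]⟩⟩,
  ⟨false,0,⟨1,[(1,1),(1,0),(24,0),(15,1)]⟩,⟨17,[(8,9),(2,1),(2,15),(9,1),(1,8),(2,17),(9,3),(6,
  0)]⟩⟩,[.o ⟨false,0,⟨0,[(22,0)]⟩,⟨1,[(15,1),(23,0),(6,0)]⟩⟩,.a ⟨true,0,⟨1,[(3,0),(33,0),(0,0)]⟩,⟨0,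
  [(15,0)]⟩⟩ ⟨false,1,⟨0,[(7,0),(4,0),(0,0)]⟩,⟨0,[(4,0),(39,0)]⟩⟩ ⟨true,0,⟨1,[(3,0),(24,0)]⟩,⟨2,[(6,
  0),(0,0),(6,0),(8,1),(5,2),(0,0),(13,0)]⟩⟩,.e ⟨false,1,⟨15,[(3,0),(9,7),(0,3),(6,5),(4,7),(4,0),
  (3,0),(10,1)]⟩,⟨0,[(1,0),(42,0)]⟩⟩ ⟨false,0,⟨1,[(3,0),(24,0)]⟩,⟨1,[(15,1),(13,1),(9,0),(6,0)]⟩⟩,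
  .o ⟨false,0,⟨0,[(23,0),(5,0),(4,0)]⟩,⟨7,[(26,0),(0,0),(0,3),(10,1),(5,3)]⟩⟩]⟩) (.Q [0,0,0,0,0,0,0,
  0,1,0,0,-1] (.p false [0,0,0,1] [] (⟨0,[(29,0)]⟩,⟨1,[(28,0),(8,0),(0,0)]⟩) .k 0 (⟨0,[]⟩,⟨0,[]⟩)
  .k .k) (.I [0,1,0,0,0,0,0,0,-1] (.R ⟨1,false,false,true,[1,0,0,-1],[0,0,0,1],[0,1,0,0,0,0,0,0,-1],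
  (⟨1,[(30,0),(8,0),(0,0)]⟩,⟨0,[(31,0)]⟩),(⟨0,[(31,0)]⟩,⟨1,[(30,0),(8,0),(0,0)]⟩),⟨3,[(4,0),(7,0),
  (17,1),(11,0)]⟩,.k,.k,(.r (-1) ⟨5,[(0,0),(1,0),(11,0),(6,1),(1,0),(4,1)]⟩ ⟨0,[(2,1),(0,2),(0,5),
  (2,1),(2,3),(0,2),(8,3),(22,14),(2,2)]⟩),.k,(.r (-1) ⟨3,[(0,3),(1,1),(11,1),(0,1),(12,0),(18,0)]⟩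
  ⟨0,[(3,0),(4,0)]⟩),.k,⟨false,1,⟨10,[(0,7),(1,3),(7,2),(2,5),(1,3),(12,4),(10,2),(0,2),(5,3)]⟩,⟨0,
  [(3,1)]⟩⟩,⟨true,0,⟨0,[(30,0)]⟩,⟨0,[(25,0),(5,1),(4,0)]⟩⟩,⟨true,0,⟨0,[(50,0)]⟩,⟨0,[]⟩⟩,⟨false,0,⟨0,
  [(3,1),(26,0)]⟩,⟨21,[(2,19),(7,11),(2,3),(6,19),(7,11),(2,43),(9,4),(6,0)]⟩⟩,⟨false,0,⟨0,[(46,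
  0)]⟩,⟨3,[(5,0),(17,1),(9,0),(3,0),(10,1)]⟩⟩,⟨false,0,⟨0,[(3,1),(26,0),(15,0)]⟩,⟨6,[(2,5),(7,1),(2,
  1),(1,3),(2,2),(1,1),(7,3),(2,13),(9,0)]⟩⟩,[.o ⟨false,0,⟨3,[(1,1),(4,1),(23,0),(1,0),(1,0)]⟩,⟨10,
  [(2,4),(7,2),(2,0),(6,4),(7,2),(2,10),(9,3),(6,2)]⟩⟩,.o ⟨false,0,⟨0,[(1,0)]⟩,⟨1,[(28,0),(2,1),(9,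
  0)]⟩⟩,.a ⟨true,0,⟨0,[(31,0)]⟩,⟨1,[(30,0),(8,0),(0,0)]⟩⟩ ⟨true,0,⟨0,[(0,0)]⟩,⟨0,[(3,0)]⟩⟩ ⟨false,0,
  ⟨0,[(3,0),(26,0)]⟩,⟨10,[(2,4),(7,2),(2,0),(6,4),(7,2),(2,21),(9,3),(6,2)]⟩⟩,.o ⟨false,0,⟨0,[(25,
  0),(5,0),(4,0)]⟩,⟨7,[(28,0),(0,0),(0,3),(10,1),(5,3)]⟩⟩]⟩) (.Q [0,1,0,0,0,0,0,0,-1,0,0,1] (.p
  true [0,0,0,1] [] (⟨0,[(31,0)]⟩,⟨1,[(30,0),(8,0),(0,0)]⟩) .k 0 (⟨0,[]⟩,⟨0,[]⟩) .k .k) (.K ⟨1,[0,0,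
  0,1],0,0,(⟨0,[(32,0)]⟩,⟨1,[(31,0),(8,0),(0,0)]⟩),.k,(.r (-1) ⟨5,[(1,0),(5,0),(14,1),(1,1),(5,1)]⟩
  ⟨0,[(10,0),(28,0)]⟩),(.r 0 ⟨0,[(1,2),(1,1),(1,11),(2,4),(2,6),(0,5),(8,6),(22,29),(2,5)]⟩ ⟨25,[(0,
  1),(2,3),(2,0),(1,1),(6,7),(6,5),(1,1),(4,9),(1,0)]⟩),.k,.k,[⟨1,[(32,1),(4,0),(0,0)]⟩,⟨1,[(31,0),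
  (2,0),(2,0)]⟩,⟨0,[(0,0)]⟩,⟨1,[(1,1),(29,0),(8,0),(0,0)]⟩]⟩) (.Q [0,0,0,0,0,1,0,0,0,0,0,-1] (.p
  false [0,0,0,1] [] (⟨0,[(32,0)]⟩,⟨1,[(31,0),(8,0),(0,0)]⟩) .k 0 (⟨0,[]⟩,⟨0,[]⟩) .k .k) (.R ⟨0,
  false,false,true,[0,0,0,1],[1,-1],[0,1,0,0,0,0,0,0,1],(⟨0,[(33,0)]⟩,⟨1,[(32,0),(8,0),(0,0)]⟩),(⟨0,
  [(44,0)]⟩,⟨0,[(45,0)]⟩),⟨0,[(0,0)]⟩,.k,.k,(.r (-1) ⟨5,[(2,0),(5,0),(14,1),(1,1),(5,1)]⟩ ⟨0,[(11,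
  0),(28,0)]⟩),(.r 0 ⟨0,[(1,2),(2,1),(1,11),(2,4),(2,6),(0,5),(8,6),(10,2),(11,29),(2,5)]⟩ ⟨4,[(4,
  0),(11,1),(6,0),(6,1),(16,0)]⟩),.k,.k,⟨false,0,⟨1,[(2,0),(5,0),(39,1)]⟩,⟨4,[(4,0),(11,1),(6,0),(6,
  1),(16,0)]⟩⟩,⟨true,0,⟨0,[(27,0),(5,0),(4,0)]⟩,⟨1,[(32,0),(8,0),(0,0)]⟩⟩,⟨true,0,⟨0,[(52,0)]⟩,⟨0,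
  []⟩⟩,⟨false,1,⟨21,[(4,1),(2,3),(1,7),(7,3),(7,1),(4,9),(2,21),(9,8),(6,0)]⟩,⟨1,[(2,1),(29,0),(8,
  0),(0,0),(5,1)]⟩⟩,⟨false,0,⟨0,[]⟩,⟨0,[]⟩⟩,⟨false,0,⟨0,[]⟩,⟨0,[]⟩⟩,[.o ⟨false,0,⟨0,[(20,0)]⟩,⟨3,
  [(10,1),(19,0),(17,1),(0,0),(0,1)]⟩⟩,.o ⟨false,1,⟨15,[(7,3),(17,7),(4,0),(0,0),(3,7),(7,5)]⟩,⟨0,
  [(48,0)]⟩⟩,.a ⟨true,0,⟨1,[(32,0),(8,0),(0,0)]⟩,⟨0,[(33,0)]⟩⟩ ⟨false,0,⟨0,[(5,0)]⟩,⟨1,[(30,0),(19,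
  0)]⟩⟩ ⟨true,0,⟨0,[(20,0),(12,0)]⟩,⟨1,[(32,0),(8,0),(0,0),(5,1)]⟩⟩,.o ⟨false,0,⟨1,[(32,0),(2,0),(2,
  0)]⟩,⟨1,[(33,1),(9,0),(5,0)]⟩⟩]⟩) (.R ⟨1,false,false,true,[0,0,0,1],[1,-1],[0,1,0,0,0,0,0,0,1],
  (⟨0,[(33,0)]⟩,⟨1,[(32,0),(8,0),(0,0)]⟩),(⟨0,[(44,0)]⟩,⟨0,[(45,0)]⟩),⟨0,[(0,0)]⟩,.k,.k,(.r (-1) ⟨5,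
  [(2,0),(5,0),(14,1),(1,1),(5,1)]⟩ ⟨0,[(11,0),(28,0)]⟩),(.r 0 ⟨0,[(0,2),(0,2),(2,1),(1,11),(2,4),
  (2,6),(0,5),(8,6),(22,32),(2,5)]⟩ ⟨4,[(4,0),(11,1),(6,0),(6,1),(16,0)]⟩),.k,.k,⟨false,0,⟨1,[(2,0),
  (5,0),(39,1)]⟩,⟨4,[(4,0),(11,1),(6,0),(6,1),(16,0)]⟩⟩,⟨true,0,⟨0,[(27,0),(5,0),(4,0)]⟩,⟨1,[(32,0),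
  (8,0),(0,0)]⟩⟩,⟨true,0,⟨0,[(52,0)]⟩,⟨0,[]⟩⟩,⟨false,1,⟨21,[(4,1),(2,3),(1,7),(7,3),(7,1),(4,9),(2,
  21),(9,8),(6,0)]⟩,⟨1,[(2,1),(29,0),(8,0),(0,0),(5,1)]⟩⟩,⟨false,0,⟨0,[(48,0)]⟩,⟨3,[(7,0),(17,1),(9,
  0),(3,0),(10,1)]⟩⟩,⟨false,1,⟨1,[(30,0),(2,1),(9,0)]⟩,⟨1,[(2,1),(29,0),(8,0),(0,0)]⟩⟩,[.o ⟨false,0,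
  ⟨0,[(20,0)]⟩,⟨3,[(10,1),(19,0),(17,1),(0,0),(0,1)]⟩⟩,.o ⟨false,1,⟨15,[(7,3),(17,7),(4,0),(0,0),(3,
  7),(7,5)]⟩,⟨0,[(48,0)]⟩⟩,.a ⟨true,0,⟨1,[(32,0),(8,0),(0,0)]⟩,⟨0,[(33,0)]⟩⟩ ⟨false,0,⟨0,[(5,0)]⟩,
  ⟨1,[(30,0),(19,0)]⟩⟩ ⟨true,0,⟨0,[(20,0),(12,0)]⟩,⟨1,[(32,0),(8,0),(0,0),(5,1)]⟩⟩,.o ⟨false,0,⟨1,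
  [(32,0),(2,0),(2,0)]⟩,⟨1,[(33,1),(9,0),(5,0)]⟩⟩]⟩)))) (.R ⟨2,false,false,false,[0,1],[0,0,0,1],[1,
  1,1],(⟨0,[]⟩,⟨0,[]⟩),(⟨0,[(30,0)]⟩,⟨1,[(29,0),(8,0),(0,0)]⟩),⟨0,[]⟩,.k,.k,.k,(.r 0 ⟨0,[(8,0),(28,
  0)]⟩ ⟨2,[(2,0),(17,0),(1,0),(5,0)]⟩),.k,.k,⟨false,0,⟨1,[(0,1),(28,0),(1,0),(1,0)]⟩,⟨1,[(2,1),(43,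
  0),(0,0)]⟩⟩,⟨true,0,⟨1,[(29,0),(2,0),(2,0)]⟩,⟨0,[(30,0)]⟩⟩,⟨true,0,⟨0,[(44,0)]⟩,⟨0,[(45,0)]⟩⟩,
  ⟨false,1,⟨11,[(2,1),(11,7),(0,3),(6,3),(5,4),(0,5),(10,2)]⟩,⟨0,[(0,0),(44,0)]⟩⟩,⟨false,0,⟨0,[]⟩,
  ⟨3,[(27,0),(0,0),(18,1)]⟩⟩,⟨false,1,⟨3,[(2,1),(25,0),(0,1),(10,0),(6,1)]⟩,⟨0,[(0,0)]⟩⟩,[.a ⟨true,
  0,⟨1,[(2,1),(26,0),(8,0),(0,0)]⟩,⟨0,[(0,0)]⟩⟩ ⟨false,0,⟨0,[(49,0)]⟩,⟨1,[(46,0),(0,0)]⟩⟩ ⟨true,0,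
  ⟨3,[(2,0),(4,2),(6,0),(0,0),(1,1),(11,1)]⟩,⟨0,[(0,0)]⟩⟩,.o ⟨false,1,⟨3,[(2,1),(25,0),(0,1),(10,0),
  (6,1)]⟩,⟨0,[(0,0),(16,0),(27,0)]⟩⟩,.o ⟨false,1,⟨3,[(27,0),(0,0),(17,1)]⟩,⟨0,[(24,0),(10,0)]⟩⟩,.e
  ⟨false,0,⟨0,[]⟩,⟨3,[(27,0),(0,0),(18,1)]⟩⟩ ⟨false,1,⟨3,[(2,1),(25,0),(0,1),(10,0),(6,1)]⟩,⟨0,[(0,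
  0)]⟩⟩]⟩))))))))) (.I [0,0,0,1,0,0,0,-1,1] (.I [0,0,-1,-1,1,0,0,0,-1] (.R ⟨1,false,false,true,[1,0,
  0,-1],[1,0,-1],[1,1,0,-1,0,0,0,0,-1],(⟨1,[(23,0),(8,0),(0,0)]⟩,⟨0,[(24,0)]⟩),(⟨0,[(32,0)]⟩,⟨0,
  [(33,0)]⟩),⟨1,[(5,0),(9,0),(7,0)]⟩,.k,.k,(.r (-1) ⟨0,[(0,0)]⟩ ⟨0,[(1,0),(11,0),(16,0)]⟩),.k,(.r
  (-1) ⟨1,[(14,0),(6,0),(9,0)]⟩ ⟨1,[(1,1),(27,0),(0,0)]⟩),.k,⟨false,1,⟨1,[(14,0),(6,0),(9,0)]⟩,⟨0,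
  [(1,0)]⟩⟩,⟨true,0,⟨1,[(20,0),(2,0)]⟩,⟨0,[(24,0),(4,0)]⟩⟩,⟨true,0,⟨0,[(38,0)]⟩,⟨0,[(39,0)]⟩⟩,
  ⟨false,0,⟨3,[(1,1),(0,1),(6,1),(10,0),(2,1),(1,0),(2,0)]⟩,⟨1,[(13,1),(7,0),(2,1),(16,0)]⟩⟩,⟨false,
  0,⟨0,[]⟩,⟨3,[(21,0),(0,0),(18,1)]⟩⟩,⟨false,0,⟨1,[(1,1),(18,0),(2,0)]⟩,⟨5,[(6,0),(1,3),(4,0),(0,0),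
  (6,2),(2,5),(4,3),(11,0)]⟩⟩,[.o ⟨false,0,⟨0,[(25,0)]⟩,⟨3,[(13,3),(7,0),(0,0),(18,1)]⟩⟩,.o ⟨false,
  1,⟨1,[(28,1),(5,0),(6,0)]⟩,⟨0,[(13,0)]⟩⟩,.a ⟨true,0,⟨0,[(24,0)]⟩,⟨1,[(23,0),(8,0),(0,0)]⟩⟩ ⟨false,
  1,⟨1,[(21,0),(16,1),(2,0)]⟩,⟨0,[(1,0),(6,0),(30,0)]⟩⟩ ⟨true,0,⟨1,[(23,0),(1,0),(2,0)]⟩,⟨0,[(13,0),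
  (10,0)]⟩⟩,.o ⟨false,0,⟨0,[(18,0),(5,0),(4,0)]⟩,⟨7,[(21,0),(0,0),(0,3),(10,1),(5,3)]⟩⟩]⟩) (.R ⟨1,
  false,false,true,[1,0,0,-1],[1,0,-1],[1,1,0,-1,0,0,0,0,-1],(⟨1,[(23,0),(8,0),(0,0)]⟩,⟨0,[(24,
  0)]⟩),(⟨0,[(32,0)]⟩,⟨0,[(33,0)]⟩),⟨1,[(5,0),(9,0),(7,0)]⟩,.k,.k,(.x 0 ⟨2,[(4,0),(10,1),(10,1)]⟩
  ⟨3,[(21,0),(0,0),(13,3),(3,1)]⟩),.k,(.r (-1) ⟨1,[(14,0),(6,0),(9,0)]⟩ ⟨1,[(1,1),(27,0),(0,0)]⟩),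
  .k,⟨false,1,⟨1,[(14,0),(6,0),(9,0)]⟩,⟨0,[(1,0)]⟩⟩,⟨true,0,⟨1,[(20,0),(2,0)]⟩,⟨0,[(24,0),(4,0)]⟩⟩,
  ⟨true,0,⟨0,[(38,0)]⟩,⟨0,[(39,0)]⟩⟩,⟨false,0,⟨21,[(0,1),(0,6),(0,8),(0,4),(5,11),(12,1),(0,10),(1,
  5),(2,5)]⟩,⟨1,[(13,1),(7,0),(2,1),(16,0)]⟩⟩,⟨false,0,⟨0,[]⟩,⟨3,[(21,0),(0,0),(18,1)]⟩⟩,⟨false,0,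
  ⟨1,[(1,1),(18,0),(2,0)]⟩,⟨5,[(6,0),(1,3),(4,0),(0,0),(6,2),(2,5),(4,3),(11,0)]⟩⟩,[.o ⟨false,0,⟨0,
  [(25,0)]⟩,⟨3,[(13,3),(7,0),(0,0),(18,1)]⟩⟩,.o ⟨false,1,⟨1,[(28,1),(5,0),(6,0)]⟩,⟨0,[(13,0)]⟩⟩,.a
  ⟨true,0,⟨0,[(24,0)]⟩,⟨1,[(23,0),(8,0),(0,0)]⟩⟩ ⟨false,1,⟨1,[(21,0),(16,1),(2,0)]⟩,⟨1,[(0,1),(39,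
  0),(0,0)]⟩⟩ ⟨true,0,⟨1,[(23,0),(1,0),(2,0)]⟩,⟨0,[(13,0),(10,0)]⟩⟩,.o ⟨false,0,⟨0,[(18,0),(5,0),(4,
  0)]⟩,⟨7,[(21,0),(0,0),(0,3),(10,1),(5,3)]⟩⟩]⟩)) (.Q [0,0,0,0,0,-1,0,0,0,0,0,1] (.p true [0,0,0,1]
  [] (⟨0,[(23,0)]⟩,⟨1,[(22,0),(8,0),(0,0)]⟩) .k 0 (⟨0,[]⟩,⟨0,[]⟩) .k .k) (.R ⟨1,false,false,true,[0,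
  0,0,1],[1,-1],[0,0,0,0,0,0,0,0,1],(⟨0,[(24,0)]⟩,⟨1,[(23,0),(8,0),(0,0)]⟩),(⟨0,[(35,0)]⟩,⟨0,[(36,
  0)]⟩),⟨0,[(0,0)]⟩,.k,.k,(.r (-1) ⟨4,[(2,0),(11,0),(1,1),(5,1)]⟩ ⟨0,[(1,0),(8,0),(18,0),(9,0)]⟩),
  (.r 0 ⟨1,[(2,1),(7,1),(18,2),(0,0),(8,1)]⟩ ⟨2,[(1,0),(5,0),(8,0),(4,0)]⟩),.k,.k,⟨false,0,⟨0,[(2,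
  0),(6,0),(29,1)]⟩,⟨3,[(6,0),(7,0),(6,1),(6,0),(9,1),(4,0)]⟩⟩,⟨true,0,⟨0,[(18,0),(5,0),(4,0)]⟩,⟨1,
  [(23,0),(8,0),(0,0)]⟩⟩,⟨false,1,⟨3,[(21,0),(0,0),(18,1)]⟩,⟨0,[]⟩⟩,⟨false,1,⟨1,[(11,1),(9,0),(2,1),
  (16,0)]⟩,⟨1,[(2,1),(6,1),(13,0),(8,0),(0,0),(5,3)]⟩⟩,⟨true,0,⟨0,[(39,0)]⟩,⟨0,[(38,0)]⟩⟩,⟨false,1,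
  ⟨1,[(21,0),(2,1),(9,0)]⟩,⟨1,[(2,1),(6,1),(13,0),(8,0),(0,0),(5,1)]⟩⟩,[.o ⟨false,0,⟨0,[(11,0)]⟩,⟨3,
  [(21,0),(0,0),(16,3),(1,1)]⟩⟩,.o ⟨false,1,⟨1,[(34,0),(3,1),(2,0)]⟩,⟨0,[(39,0)]⟩⟩,.a ⟨true,0,⟨1,
  [(23,0),(8,0),(0,0)]⟩,⟨0,[(24,0)]⟩⟩ ⟨false,0,⟨0,[(2,0),(6,0),(29,0)]⟩,⟨3,[(21,2),(0,0)]⟩⟩ ⟨true,0,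
  ⟨0,[(11,0),(12,0)]⟩,⟨1,[(23,0),(8,0),(0,0),(5,1)]⟩⟩,.o ⟨false,0,⟨1,[(23,0),(2,0),(2,0)]⟩,⟨1,[(24,
  1),(9,0),(5,0)]⟩⟩]⟩) (.R ⟨0,false,false,true,[0,0,0,1],[1,0,-1],[1,1,0,-1,0,0,0,0,1],(⟨0,[(24,
  0)]⟩,⟨1,[(23,0),(8,0),(0,0)]⟩),(⟨0,[(32,0)]⟩,⟨0,[(33,0)]⟩),⟨0,[(0,0)]⟩,.k,.k,(.r (-1) ⟨4,[(2,0),
  (11,0),(1,1),(5,1)]⟩ ⟨0,[(1,0),(8,0),(18,0),(9,0)]⟩),.k,.k,.k,⟨false,0,⟨0,[(2,0)]⟩,⟨1,[(10,0),(8,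
  0),(1,0),(7,0),(9,0)]⟩⟩,⟨true,0,⟨0,[(18,0),(5,0)]⟩,⟨7,[(4,1),(18,3),(5,4),(0,0),(1,3),(3,1)]⟩⟩,
  ⟨true,0,⟨0,[(38,0)]⟩,⟨0,[(39,0)]⟩⟩,⟨false,1,⟨7,[(3,1),(5,2),(0,0),(5,0),(4,3),(2,7),(3,2),(5,2)]⟩,
  ⟨3,[(2,3),(1,0),(3,0),(0,2),(3,1),(9,1),(8,1),(3,0),(2,4)]⟩⟩,⟨false,0,⟨0,[]⟩,⟨0,[]⟩⟩,⟨false,0,⟨0,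
  []⟩,⟨0,[]⟩⟩,[.o ⟨false,0,⟨0,[(25,0)]⟩,⟨3,[(13,3),(7,0),(0,0),(18,1)]⟩⟩,.o ⟨false,1,⟨1,[(28,1),(5,
  0),(6,0)]⟩,⟨0,[(13,0)]⟩⟩,.a ⟨true,0,⟨1,[(23,0),(8,0),(0,0)]⟩,⟨0,[(24,0)]⟩⟩ ⟨false,0,⟨1,[(2,1),(6,
  0),(18,0),(0,0)]⟩,⟨1,[(21,0),(17,1),(1,0)]⟩⟩ ⟨true,0,⟨0,[(24,0),(0,0)]⟩,⟨1,[(13,1),(9,0),(8,0),(0,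
  0)]⟩⟩,.o ⟨false,0,⟨1,[(23,0),(2,0),(2,0)]⟩,⟨1,[(24,1),(9,0),(5,0)]⟩⟩]⟩))))) (.I [1,1,0,0,0,0,0,-1,
  1] (.I [0,0,-1,-1,1,0,0,0,-1] (.Q [0,0,0,0,0,0,-1,-1,1,0,1,-1] (.p true [0,0,1] [0,0,0,1] (⟨0,
  [(31,0)]⟩,⟨0,[(30,0)]⟩) .k 2 (⟨0,[(22,0)]⟩,⟨1,[(21,0),(8,0),(0,0)]⟩) .k (.x (-1) ⟨2,[(4,0),(14,0),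
  (0,0),(6,1),(3,2)]⟩ ⟨2,[(2,0),(10,0),(10,0)]⟩)) (.R ⟨1,false,false,true,[1,0,0,-1],[1,0,-1],[0,0,
  0,0,0,0,0,0,-1],(⟨1,[(22,0),(8,0),(0,0)]⟩,⟨0,[(23,0)]⟩),(⟨0,[(31,0)]⟩,⟨0,[(32,0)]⟩),⟨1,[(4,0),(9,
  0),(7,0)]⟩,.k,.k,(.r (-1) ⟨0,[(1,0)]⟩ ⟨0,[(2,0),(27,0),(5,0),(1,0)]⟩),.k,(.r (-1) ⟨1,[(13,0),(6,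
  0),(9,0)]⟩ ⟨0,[(2,0),(33,0),(1,0)]⟩),.k,⟨false,1,⟨1,[(7,1),(12,0),(17,1),(0,0)]⟩,⟨0,[(2,0)]⟩⟩,
  ⟨true,0,⟨1,[(19,0),(2,0)]⟩,⟨0,[(23,0),(4,0)]⟩⟩,⟨false,1,⟨3,[(20,0),(0,0),(18,1)]⟩,⟨0,[]⟩⟩,⟨false,
  0,⟨0,[(0,0)]⟩,⟨1,[(12,1),(7,0),(2,1),(16,0)]⟩⟩,⟨true,0,⟨0,[(38,0)]⟩,⟨0,[(37,0)]⟩⟩,⟨false,0,⟨0,[(0,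
  0),(37,0)]⟩,⟨5,[(5,0),(1,3),(4,0),(0,0),(6,2),(2,5),(4,3),(11,0)]⟩⟩,[.o ⟨false,0,⟨0,[(24,0)]⟩,⟨3,
  [(12,3),(7,0),(0,0),(18,1)]⟩⟩,.o ⟨false,1,⟨1,[(27,1),(5,0),(6,0)]⟩,⟨0,[(12,0)]⟩⟩,.a ⟨true,0,⟨0,
  [(23,0)]⟩,⟨1,[(22,0),(8,0),(0,0)]⟩⟩ ⟨false,1,⟨1,[(20,0),(19,0)]⟩,⟨0,[(2,0),(4,0),(30,0)]⟩⟩ ⟨true,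
  0,⟨1,[(22,0),(1,0),(2,0)]⟩,⟨0,[(12,0),(10,0)]⟩⟩,.o ⟨false,0,⟨0,[(17,0),(5,0),(4,0)]⟩,⟨7,[(20,0),
  (0,0),(0,3),(10,1),(5,3)]⟩⟩]⟩) (.R ⟨1,false,false,false,[0,0,0,1],[1,-1],[0,0,0,0,0,0,0,0,1],(⟨0,
  [(23,0)]⟩,⟨1,[(22,0),(8,0),(0,0)]⟩),(⟨0,[(34,0)]⟩,⟨0,[(35,0)]⟩),⟨0,[(0,0),(1,0),(0,0),(0,1),(3,0),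
  (3,0)]⟩,.k,.k,(.r (-1) ⟨4,[(2,0),(3,0),(0,0),(5,0),(1,0),(5,1)]⟩ ⟨1,[(0,1),(8,1),(12,0),(2,0),(2,
  0)]⟩),(.r 0 ⟨0,[(2,0),(27,0),(5,0),(1,0)]⟩ ⟨0,[(1,0)]⟩),.k,.k,⟨false,0,⟨0,[(2,0),(4,0),(30,1)]⟩,
  ⟨0,[(1,0)]⟩⟩,⟨true,0,⟨0,[(17,0),(5,0),(4,0)]⟩,⟨1,[(22,0),(8,0),(0,0)]⟩⟩,⟨false,1,⟨3,[(20,0),(0,0),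
  (18,1)]⟩,⟨0,[]⟩⟩,⟨false,1,⟨2,[(0,0),(0,1),(5,0),(0,1),(8,0),(5,1),(9,0)]⟩,⟨1,[(2,1),(4,1),(14,0),
  (8,0),(0,0),(5,3)]⟩⟩,⟨true,0,⟨0,[(38,0)]⟩,⟨0,[(37,0)]⟩⟩,⟨false,1,⟨5,[(0,3),(7,1),(8,3),(0,1),(1,
  0),(2,1),(9,0),(6,1)]⟩,⟨1,[(2,1),(4,1),(14,0),(8,0),(0,0),(5,1)]⟩⟩,[.o ⟨false,1,⟨1,[(33,0),(3,1),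
  (2,0)]⟩,⟨0,[(38,0)]⟩⟩,.o ⟨false,1,⟨0,[(10,0),(29,0)]⟩,⟨0,[(38,0),(3,0)]⟩⟩,.a ⟨true,0,⟨1,[(22,0),
  (8,0),(0,0)]⟩,⟨0,[(23,0)]⟩⟩ ⟨true,0,⟨0,[(2,0),(4,0),(30,0)]⟩,⟨1,[(0,1),(21,0),(1,0),(2,0)]⟩⟩
  ⟨false,1,⟨0,[(10,0),(12,0),(16,0)]⟩,⟨1,[(22,0),(8,0),(0,0),(5,1)]⟩⟩,.o ⟨false,0,⟨1,[(22,0),(2,0),
  (2,0)]⟩,⟨1,[(23,1),(9,0),(5,0)]⟩⟩]⟩)) (.R ⟨1,false,false,true,[1,0,0,-1],[1,0,-1],[0,0,0,0,0,0,0,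
  0,-1],(⟨1,[(21,0),(8,0),(0,0)]⟩,⟨0,[(22,0)]⟩),(⟨0,[(30,0)]⟩,⟨0,[(31,0)]⟩),⟨1,[(3,0),(9,0),(7,0)]⟩,
  .k,.k,(.x 0 ⟨1,[(3,0),(9,0),(10,0),(2,0)]⟩ ⟨3,[(19,0),(0,0),(13,3),(3,1)]⟩),.k,(.r (-1) ⟨1,[(12,
  0),(6,0),(9,0)]⟩ ⟨3,[(0,0),(0,0),(5,0),(0,1),(11,0),(6,1),(9,0)]⟩),.k,⟨false,1,⟨1,[(6,1),(12,0),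
  (17,1),(0,0)]⟩,⟨0,[(1,0)]⟩⟩,⟨true,0,⟨1,[(18,0),(2,0)]⟩,⟨0,[(22,0),(4,0)]⟩⟩,⟨false,1,⟨3,[(19,0),(0,
  0),(18,1)]⟩,⟨0,[]⟩⟩,⟨false,0,⟨1,[(0,1),(13,1),(3,0),(2,0)]⟩,⟨1,[(11,1),(7,0),(2,1),(16,0)]⟩⟩,
  ⟨true,0,⟨0,[(37,0)]⟩,⟨0,[(36,0)]⟩⟩,⟨false,0,⟨3,[(0,1),(0,1),(6,1),(7,1),(4,1),(16,0),(0,0)]⟩,⟨5,
  [(4,0),(1,3),(4,0),(0,0),(6,2),(2,5),(4,3),(11,0)]⟩⟩,[.o ⟨false,0,⟨0,[(23,0)]⟩,⟨3,[(11,3),(7,0),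
  (0,0),(18,1)]⟩⟩,.o ⟨false,1,⟨1,[(26,1),(5,0),(6,0)]⟩,⟨0,[(11,0)]⟩⟩,.a ⟨true,0,⟨0,[(22,0)]⟩,⟨1,
  [(21,0),(8,0),(0,0)]⟩⟩ ⟨false,1,⟨1,[(19,0),(19,0)]⟩,⟨4,[(0,1),(0,0),(3,0),(0,0),(13,0)]⟩⟩ ⟨true,0,
  ⟨1,[(21,0),(1,0),(2,0)]⟩,⟨0,[(11,0),(10,0)]⟩⟩,.o ⟨false,0,⟨0,[(16,0),(5,0),(4,0)]⟩,⟨7,[(19,0),(0,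
  0),(0,3),(10,1),(5,3)]⟩⟩]⟩)) (.I [0,0,-1,-1,0,0,0,0,-1] (.R ⟨1,false,false,true,[1,0,0,-1],[1,-1],
  [0,0,0,0,0,0,0,0,-1],(⟨1,[(21,0),(8,0),(0,0)]⟩,⟨0,[(22,0)]⟩),(⟨0,[(33,0)]⟩,⟨0,[(34,0)]⟩),⟨1,[(3,
  0),(9,0),(7,0)]⟩,.k,.k,(.r 0 ⟨0,[(0,0)]⟩ ⟨3,[(19,0),(0,2),(6,1),(0,1),(8,3)]⟩),(.r 0 ⟨0,[(1,0),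
  (24,0),(0,0),(9,0)]⟩ ⟨0,[(0,0),(19,0)]⟩),.k,.k,⟨false,0,⟨1,[(0,0),(0,0),(5,0),(29,2)]⟩,⟨3,[(4,0),
  (7,0),(7,1),(5,0),(9,1),(4,0)]⟩⟩,⟨true,0,⟨1,[(21,0),(2,0),(2,0)]⟩,⟨0,[(22,0)]⟩⟩,⟨false,1,⟨3,[(19,
  0),(0,0),(18,1)]⟩,⟨0,[]⟩⟩,⟨false,1,⟨1,[(9,0),(10,0),(0,0),(14,0),(2,0)]⟩,⟨1,[(0,0),(0,0),(5,0),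
  (14,1),(14,2)]⟩⟩,⟨true,0,⟨0,[(37,0)]⟩,⟨0,[(36,0)]⟩⟩,⟨false,1,⟨7,[(19,0),(0,4),(0,3),(10,1)]⟩,⟨1,
  [(0,0),(0,0),(5,0),(14,1),(14,0)]⟩⟩,[.o ⟨false,0,⟨0,[(9,0)]⟩,⟨3,[(19,0),(0,0),(16,3),(1,1)]⟩⟩,.o
  ⟨false,1,⟨1,[(32,0),(3,1),(2,0)]⟩,⟨0,[(37,0)]⟩⟩,.a ⟨true,0,⟨0,[(22,0)]⟩,⟨1,[(21,0),(8,0),(0,0)]⟩⟩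
  ⟨false,0,⟨1,[(0,0),(0,0),(5,0),(29,0)]⟩,⟨3,[(19,0),(0,2)]⟩⟩ ⟨true,0,⟨1,[(9,0),(11,0),(14,0)]⟩,⟨0,
  [(22,0),(14,0)]⟩⟩,.o ⟨false,0,⟨0,[(16,0),(5,0),(4,0)]⟩,⟨7,[(19,0),(0,0),(0,3),(10,1),(5,3)]⟩⟩]⟩)
  (.Q [0,-1,0,0,0,0,0,0,-1,0,0,1] (.p true [0,0,0,1] [] (⟨0,[(22,0)]⟩,⟨1,[(21,0),(8,0),(0,0)]⟩) .k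
  0 (⟨0,[]⟩,⟨0,[]⟩) .k .k) (.I [0,0,-1,-1,1,0,0,0,1] (.R ⟨1,false,false,true,[1,0,0,-1],[1,-1],[1,1,
  0,-1,0,0,0,0,-1],(⟨1,[(23,0),(8,0),(0,0)]⟩,⟨0,[(24,0)]⟩),(⟨0,[(35,0)]⟩,⟨0,[(36,0)]⟩),⟨1,[(5,0),(9,
  0),(7,0)]⟩,.k,.k,(.x 0 ⟨1,[(5,0),(9,0),(10,0),(2,0)]⟩ ⟨3,[(21,0),(0,0),(13,3),(3,1)]⟩),(.r 0 ⟨0,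
  [(3,0),(24,0),(0,0),(9,0)]⟩ ⟨0,[(0,0)]⟩),.k,.k,⟨false,0,⟨1,[(1,1),(21,0),(1,0),(1,0)]⟩,⟨1,[(22,0),
  (17,0)]⟩⟩,⟨true,0,⟨1,[(23,0),(2,0),(2,0)]⟩,⟨0,[(24,0)]⟩⟩,⟨true,0,⟨0,[(38,0)]⟩,⟨0,[(39,0)]⟩⟩,
  ⟨false,1,⟨1,[(11,0),(10,0),(0,0),(14,0),(2,0)]⟩,⟨0,[(1,0),(37,0)]⟩⟩,⟨false,0,⟨0,[]⟩,⟨3,[(21,0),(0,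
  0),(18,1)]⟩⟩,⟨false,1,⟨7,[(21,0),(0,4),(0,3),(10,1)]⟩,⟨0,[(1,0)]⟩⟩,[.o ⟨false,0,⟨0,[(11,0)]⟩,⟨3,
  [(21,0),(0,0),(16,3),(1,1)]⟩⟩,.o ⟨false,1,⟨1,[(34,0),(3,1),(2,0)]⟩,⟨0,[(39,0)]⟩⟩,.a ⟨true,0,⟨0,
  [(24,0)]⟩,⟨1,[(23,0),(8,0),(0,0)]⟩⟩ ⟨false,0,⟨1,[(1,1),(9,0),(11,0),(14,0)]⟩,⟨1,[(22,0),(16,1),(1,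
  0)]⟩⟩ ⟨true,0,⟨1,[(11,0),(11,0),(14,0)]⟩,⟨0,[(24,0),(14,0)]⟩⟩,.o ⟨false,0,⟨0,[(18,0),(5,0),(4,
  0)]⟩,⟨7,[(21,0),(0,0),(0,3),(10,1),(5,3)]⟩⟩]⟩) (.R ⟨1,false,false,true,[1,0,0,-1],[1,-1],[1,1,0,
  -1,0,0,0,0,-1],(⟨1,[(23,0),(8,0),(0,0)]⟩,⟨0,[(24,0)]⟩),(⟨0,[(35,0)]⟩,⟨0,[(36,0)]⟩),⟨1,[(5,0),(9,
  0),(7,0)]⟩,.k,.k,(.x 0 ⟨1,[(5,0),(9,0),(10,0),(2,0)]⟩ ⟨3,[(21,0),(0,0),(13,3),(3,1)]⟩),(.x (-1)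
  ⟨3,[(21,0),(0,0),(13,3),(3,1)]⟩ ⟨1,[(5,0),(9,0),(10,0),(2,0)]⟩),.k,.k,⟨false,0,⟨4,[(0,2),(13,0),
  (1,0),(4,0)]⟩,⟨1,[(22,0),(17,0)]⟩⟩,⟨true,0,⟨1,[(23,0),(2,0),(2,0)]⟩,⟨0,[(24,0)]⟩⟩,⟨true,0,⟨0,[(38,
  0)]⟩,⟨0,[(39,0)]⟩⟩,⟨false,1,⟨1,[(11,0),(10,0),(0,0),(14,0),(2,0)]⟩,⟨0,[(1,0),(37,0)]⟩⟩,⟨false,0,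
  ⟨0,[]⟩,⟨3,[(21,0),(0,0),(18,1)]⟩⟩,⟨false,1,⟨7,[(21,0),(0,4),(0,3),(10,1)]⟩,⟨0,[(1,0)]⟩⟩,[.o
  ⟨false,0,⟨0,[(11,0)]⟩,⟨3,[(21,0),(0,0),(16,3),(1,1)]⟩⟩,.o ⟨false,1,⟨1,[(34,0),(3,1),(2,0)]⟩,⟨0,
  [(39,0)]⟩⟩,.a ⟨true,0,⟨0,[(24,0)]⟩,⟨1,[(23,0),(8,0),(0,0)]⟩⟩ ⟨false,0,⟨1,[(1,1),(9,0),(11,0),(14,
  0)]⟩,⟨1,[(22,0),(16,1),(1,0)]⟩⟩ ⟨true,0,⟨1,[(11,0),(11,0),(14,0)]⟩,⟨0,[(24,0),(14,0)]⟩⟩,.o ⟨false,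
  0,⟨11,[(0,2),(1,2),(5,1),(0,1),(1,3),(12,11),(1,1),(2,1),(4,2)]⟩,⟨7,[(21,0),(0,0),(0,3),(10,1),(5,
  3)]⟩⟩]⟩)) (.I [1,0,0,0,0,0,0,0,1] (.Q [0,0,0,0,0,0,0,0,1,0,0,-1] (.p false [0,0,0,1] [] (⟨0,[(24,
  0)]⟩,⟨1,[(23,0),(8,0),(0,0)]⟩) .k 0 (⟨0,[]⟩,⟨0,[]⟩) .k .k) (.I [0,1,0,0,0,0,0,0,-1] (.R ⟨1,false,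
  false,true,[1,0,0,-1],[0,0,0,1],[0,1,0,0,0,0,0,0,-1],(⟨1,[(25,0),(8,0),(0,0)]⟩,⟨0,[(26,0)]⟩),(⟨0,
  [(26,0)]⟩,⟨1,[(25,0),(8,0),(0,0)]⟩),⟨1,[(7,0),(9,0),(7,0)]⟩,.k,.k,(.r (-1) ⟨3,[(0,0),(4,0),(10,0),
  (1,1),(4,0)]⟩ ⟨0,[(1,0),(4,0),(0,3),(3,1),(1,1),(1,1),(1,1),(8,0),(11,4),(2,2)]⟩),.k,(.r (-1) ⟨0,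
  [(0,0),(4,0),(12,0)]⟩ ⟨0,[(1,1),(4,0),(0,3),(3,1),(1,1),(1,1),(1,1),(8,1),(11,4),(2,2)]⟩),.k,
  ⟨false,1,⟨2,[(0,1),(4,1),(2,0),(3,0),(5,0),(4,0)]⟩,⟨0,[(2,1)]⟩⟩,⟨true,0,⟨0,[(25,0)]⟩,⟨0,[(20,0),
  (5,1),(4,0)]⟩⟩,⟨true,0,⟨0,[(45,0)]⟩,⟨0,[]⟩⟩,⟨false,0,⟨0,[(2,1),(22,0)]⟩,⟨2,[(0,0),(4,2),(2,0),(2,
  1),(11,0),(2,5),(0,0),(8,0)]⟩⟩,⟨false,0,⟨0,[(41,0)]⟩,⟨0,[(40,0),(2,0)]⟩⟩,⟨false,0,⟨0,[(2,1),(22,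
  0),(15,0)]⟩,⟨11,[(5,13),(2,1),(2,7),(1,7),(4,3),(4,4),(2,23),(0,1),(8,0)]⟩⟩,[.o ⟨false,0,⟨0,[(3,
  0)]⟩,⟨9,[(5,3),(2,1),(2,3),(8,1),(2,2),(2,9),(9,3),(6,0)]⟩⟩,.o ⟨false,0,⟨0,[(1,0)]⟩,⟨1,[(23,0),(2,
  1),(9,0)]⟩⟩,.a ⟨true,0,⟨0,[(26,0)]⟩,⟨1,[(25,0),(8,0),(0,0)]⟩⟩ ⟨true,0,⟨0,[(0,0)]⟩,⟨0,[(2,0)]⟩⟩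
  ⟨false,0,⟨0,[(2,0),(22,0)]⟩,⟨9,[(5,3),(2,1),(2,3),(8,1),(2,2),(2,19),(9,3),(6,0)]⟩⟩,.o ⟨false,0,
  ⟨0,[(20,0),(5,0),(4,0)]⟩,⟨7,[(23,0),(0,0),(0,3),(10,1),(5,3)]⟩⟩]⟩) (.Q [0,0,0,0,0,1,0,0,0,0,0,-1]
  (.p false [0,0,0,1] [] (⟨0,[(26,0)]⟩,⟨1,[(25,0),(8,0),(0,0)]⟩) .k 0 (⟨0,[]⟩,⟨0,[]⟩) .k .k) (.R ⟨0,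
  false,false,true,[0,0,0,1],[1,-1],[1,0,0,0,0,0,0,0,1],(⟨0,[(27,0)]⟩,⟨1,[(26,0),(8,0),(0,0)]⟩),(⟨0,
  [(38,0)]⟩,⟨0,[(39,0)]⟩),⟨0,[(0,0)]⟩,.k,.k,(.r (-1) ⟨2,[(3,0),(13,0),(1,0),(5,0)]⟩ ⟨0,[(6,0),(24,
  0),(0,0),(9,0)]⟩),(.r 0 ⟨0,[(1,1),(4,0),(1,3),(3,0),(1,3),(3,3),(20,7),(2,4)]⟩ ⟨2,[(6,0),(3,0),(8,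
  0),(4,0),(16,0)]⟩),.k,.k,⟨false,0,⟨0,[(1,0),(40,0)]⟩,⟨3,[(9,0),(7,0),(6,1),(6,0),(9,1),(4,0)]⟩⟩,
  ⟨true,0,⟨0,[(21,0),(5,0),(4,0)]⟩,⟨1,[(26,0),(8,0),(0,0)]⟩⟩,⟨true,0,⟨0,[]⟩,⟨0,[(46,0)]⟩⟩,⟨false,1,
  ⟨1,[(14,1),(9,0),(2,1),(16,0)]⟩,⟨1,[(1,1),(24,0),(8,0),(0,0),(5,1)]⟩⟩,⟨false,0,⟨0,[]⟩,⟨0,[]⟩⟩,
  ⟨false,0,⟨0,[]⟩,⟨0,[]⟩⟩,[.o ⟨false,0,⟨0,[(14,0)]⟩,⟨3,[(24,0),(0,0),(16,3),(1,1)]⟩⟩,.o ⟨false,1,⟨1,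
  [(37,0),(3,1),(2,0)]⟩,⟨0,[(42,0)]⟩⟩,.a ⟨true,0,⟨1,[(26,0),(8,0),(0,0)]⟩,⟨0,[(27,0)]⟩⟩ ⟨false,0,⟨0,
  [(1,0)]⟩,⟨3,[(24,2),(0,0)]⟩⟩ ⟨true,0,⟨0,[(14,0),(12,0)]⟩,⟨1,[(26,0),(8,0),(0,0),(5,1)]⟩⟩,.o
  ⟨false,0,⟨1,[(26,0),(2,0),(2,0)]⟩,⟨1,[(27,1),(9,0),(5,0)]⟩⟩]⟩) (.R ⟨1,false,false,true,[0,0,0,1],
  [1,-1],[1,1,0,-1,0,0,0,0,1],(⟨0,[(27,0)]⟩,⟨1,[(26,0),(8,0),(0,0)]⟩),(⟨0,[(38,0)]⟩,⟨0,[(39,0)]⟩),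
  ⟨0,[(0,0)]⟩,.k,.k,(.r (-1) ⟨2,[(3,0),(13,0),(1,0),(5,0)]⟩ ⟨0,[(6,0),(24,0),(0,0),(9,0)]⟩),(.r 0
  ⟨0,[(0,7),(0,1),(4,0),(5,0),(1,3),(11,3),(12,7),(2,4)]⟩ ⟨2,[(6,0),(3,0),(8,0),(4,0),(16,0)]⟩),.k,
  .k,⟨false,0,⟨0,[(3,0)]⟩,⟨1,[(24,0),(18,0)]⟩⟩,⟨true,0,⟨0,[(21,0),(5,0),(4,0)]⟩,⟨1,[(26,0),(8,0),(0,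
  0)]⟩⟩,⟨true,0,⟨0,[(41,0)]⟩,⟨0,[(42,0)]⟩⟩,⟨false,1,⟨1,[(14,1),(9,0),(2,1),(16,0)]⟩,⟨1,[(1,1),(24,
  0),(8,0),(0,0),(5,1)]⟩⟩,⟨false,0,⟨0,[]⟩,⟨3,[(24,0),(0,0),(18,1)]⟩⟩,⟨false,1,⟨1,[(24,0),(2,1),(9,
  0)]⟩,⟨1,[(1,1),(24,0),(8,0),(0,0)]⟩⟩,[.o ⟨false,0,⟨0,[(14,0)]⟩,⟨3,[(24,0),(0,0),(16,3),(1,1)]⟩⟩,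
  .o ⟨false,1,⟨1,[(37,0),(3,1),(2,0)]⟩,⟨0,[(42,0)]⟩⟩,.a ⟨true,0,⟨1,[(26,0),(8,0),(0,0)]⟩,⟨0,[(27,
  0)]⟩⟩ ⟨false,0,⟨0,[(1,0),(39,0)]⟩,⟨1,[(24,0),(17,1),(1,0)]⟩⟩ ⟨true,0,⟨0,[(14,0),(12,0)]⟩,⟨1,[(26,
  0),(8,0),(0,0),(5,1)]⟩⟩,.o ⟨false,0,⟨1,[(26,0),(2,0),(2,0)]⟩,⟨1,[(27,1),(9,0),(5,0)]⟩⟩]⟩))) (.R
  ⟨2,false,false,false,[0,1],[1,0,0,-1],[1,1,1],(⟨0,[]⟩,⟨0,[]⟩),(⟨1,[(24,0),(8,0),(0,0)]⟩,⟨0,[(25,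
  0)]⟩),⟨0,[]⟩,.k,.k,.k,(.r 0 ⟨0,[(1,0),(3,0),(0,3),(3,1),(1,1),(1,1),(1,1),(20,4),(2,2)]⟩ ⟨8,[(0,
  1),(3,0),(3,0),(3,0),(2,1),(1,2),(4,2),(1,0)]⟩),.k,.k,⟨false,0,⟨0,[(2,0),(22,0)]⟩,⟨0,[(4,0),(15,
  0)]⟩⟩,⟨true,0,⟨0,[(19,0),(5,0),(4,0)]⟩,⟨1,[(24,0),(8,0),(0,0)]⟩⟩,⟨true,0,⟨0,[(39,0)]⟩,⟨0,[(40,
  0)]⟩⟩,⟨false,1,⟨0,[(0,0),(11,0),(29,0)]⟩,⟨1,[(1,1),(22,0),(8,0),(0,0),(5,1)]⟩⟩,⟨false,0,⟨0,[]⟩,⟨3,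
  [(22,0),(0,0),(18,1)]⟩⟩,⟨false,1,⟨1,[(0,1),(34,0),(6,0)]⟩,⟨1,[(1,1),(22,0),(8,0),(0,0)]⟩⟩,[.a
  ⟨true,0,⟨0,[(0,0)]⟩,⟨1,[(1,1),(22,0),(8,0),(0,0)]⟩⟩ ⟨false,0,⟨0,[(44,0)]⟩,⟨1,[(41,0),(0,0)]⟩⟩
  ⟨true,0,⟨0,[(0,0),(18,0),(10,0)]⟩,⟨1,[(1,1),(22,0),(8,0),(0,0)]⟩⟩,.o ⟨false,1,⟨1,[(0,1),(34,0),(6,
  0)]⟩,⟨0,[(2,0)]⟩⟩,.o ⟨false,1,⟨3,[(22,0),(0,0),(17,1)]⟩,⟨0,[(19,0),(10,0)]⟩⟩,.e ⟨false,0,⟨0,[]⟩,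
  ⟨3,[(22,0),(0,0),(18,1)]⟩⟩ ⟨false,1,⟨1,[(0,1),(34,0),(6,0)]⟩,⟨1,[(1,1),(22,0),(8,0),(0,0)]⟩⟩]⟩))
  (.R ⟨1,false,false,false,[1,0,0,-1],[1,-1],[0,0,0,0,0,0,0,0,-1],(⟨1,[(23,0),(8,0),(0,0)]⟩,⟨0,[(24,
  0)]⟩),(⟨0,[(35,0)]⟩,⟨0,[(36,0)]⟩),⟨1,[(5,0),(9,0),(7,0)]⟩,.k,.k,(.r (-1) ⟨2,[(0,0),(13,0),(1,0),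
  (4,0)]⟩ ⟨0,[(1,0),(2,0),(0,2),(3,1),(1,0),(1,1),(1,0),(8,0),(11,2),(2,1)]⟩),(.r 0 ⟨1,[(0,1),(28,
  0),(0,0),(8,1)]⟩ ⟨2,[(1,0),(5,0),(0,0),(7,0),(5,0),(1,0)]⟩),.k,.k,⟨false,0,⟨0,[(0,0),(38,0)]⟩,⟨2,
  [(1,0),(5,0),(0,0),(7,0),(5,0),(1,0)]⟩⟩,⟨true,0,⟨1,[(23,0),(2,0),(2,0)]⟩,⟨0,[(24,0)]⟩⟩,⟨false,1,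
  ⟨3,[(21,0),(0,0),(18,1)]⟩,⟨0,[]⟩⟩,⟨false,1,⟨5,[(1,1),(6,3),(0,1),(6,1),(5,1),(0,1),(10,0),(6,0)]⟩,
  ⟨0,[(0,0),(23,0),(14,0)]⟩⟩,⟨true,0,⟨0,[(39,0)]⟩,⟨0,[(38,0)]⟩⟩,⟨false,1,⟨0,[(1,0),(39,0)]⟩,⟨0,[(0,
  0),(23,0)]⟩⟩,[.o ⟨false,1,⟨1,[(34,0),(3,1),(2,0)]⟩,⟨0,[(39,0)]⟩⟩,.o ⟨false,1,⟨0,[(11,0),(29,0)]⟩,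
  ⟨0,[(39,0),(3,0)]⟩⟩,.a ⟨true,0,⟨0,[(24,0)]⟩,⟨1,[(23,0),(8,0),(0,0)]⟩⟩ ⟨true,0,⟨0,[(0,0)]⟩,⟨0,[(1,
  0),(22,0)]⟩⟩ ⟨false,1,⟨1,[(11,0),(11,0),(14,0),(2,1)]⟩,⟨0,[(24,0),(14,0)]⟩⟩,.o ⟨false,0,⟨0,[(18,
  0),(5,0),(4,0)]⟩,⟨7,[(21,0),(0,0),(0,3),(10,1),(5,3)]⟩⟩]⟩))))))

theorem ok69 : chk (cU (-1) false 2) t69 r43 = true := by decide +kernel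

noncomputable def t95 : Tre :=
  (.I [0,0,0,0,0,0,0,0,-1] (.Q [0,-1,0,-1,0,0,1,1,-1,0,-1,1] (.p false [0,0,1] [0,0,0,1] (⟨0,[(28,
  0)]⟩,⟨0,[(27,0)]⟩) .k 2 (⟨0,[(19,0)]⟩,⟨1,[(18,0),(8,0),(0,0)]⟩) .k (.x (-1) ⟨3,[(8,1),(5,1),(1,0),
  (0,0),(6,1),(3,3)]⟩ ⟨2,[(1,0),(8,0),(10,0)]⟩)) (.Q [0,0,0,0,0,1,0,0,0,-1,0,1] (.p true [0,0,0,1]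
  [1] (⟨0,[(20,0)]⟩,⟨1,[(19,0),(8,0),(0,0)]⟩) .k 1 (⟨0,[]⟩,⟨0,[]⟩) .k .k) (.I [1,0,-1,-1,0,0,0,0,
  -1] (.R ⟨0,false,false,true,[1,0,0,-1],[1,-1],[0,1,0,0,0,0,0,0,-1],(⟨1,[(21,0),(8,0),(0,0)]⟩,⟨0,
  [(22,0)]⟩),(⟨0,[(33,0)]⟩,⟨0,[(34,0)]⟩),⟨0,[(1,0)]⟩,.k,.k,(.x 0 ⟨1,[(6,0),(17,0),(8,1)]⟩ ⟨3,[(19,
  0),(0,0),(13,3),(3,1)]⟩),(.r 0 ⟨1,[(3,1),(23,0),(0,0),(8,1)]⟩ ⟨0,[(0,0),(19,0)]⟩),.k,.k,⟨false,0,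
  ⟨0,[(3,0),(33,0)]⟩,⟨0,[(0,0),(19,0)]⟩⟩,⟨true,0,⟨1,[(21,0),(2,0),(2,0)]⟩,⟨0,[(22,0)]⟩⟩,⟨true,0,⟨0,
  [(41,0)]⟩,⟨0,[]⟩⟩,⟨false,1,⟨1,[(9,0),(10,0),(0,0),(14,0),(2,0)]⟩,⟨0,[(0,0),(21,0),(12,0),(1,1)]⟩⟩,
  ⟨false,0,⟨0,[]⟩,⟨0,[]⟩⟩,⟨false,0,⟨0,[]⟩,⟨0,[]⟩⟩,[.o ⟨false,0,⟨0,[(9,0)]⟩,⟨3,[(19,0),(0,0),(16,3),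
  (1,1)]⟩⟩,.o ⟨false,1,⟨1,[(32,0),(3,1),(2,0)]⟩,⟨0,[(37,0)]⟩⟩,.a ⟨true,0,⟨0,[(22,0)]⟩,⟨1,[(21,0),(8,
  0),(0,0)]⟩⟩ ⟨false,0,⟨0,[(3,0)]⟩,⟨1,[(20,0),(18,0)]⟩⟩ ⟨true,0,⟨1,[(9,0),(11,0),(14,0)]⟩,⟨0,[(22,
  0),(14,0)]⟩⟩,.o ⟨false,0,⟨1,[(6,0),(15,1),(1,0)]⟩,⟨7,[(19,0),(0,0),(0,3),(10,1),(5,3)]⟩⟩]⟩) (.I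
  [1,1,0,0,0,0,0,0,1] (.R ⟨0,false,false,false,[0,0,0,1],[1,-1],[1,1,0,0,0,0,0,0,1],(⟨0,[(23,0)]⟩,
  ⟨1,[(22,0),(8,0),(0,0)]⟩),(⟨0,[(34,0)]⟩,⟨0,[(35,0)]⟩),⟨0,[(2,0),(19,0)]⟩,.k,.k,(.x 0 ⟨1,[(7,0),
  (17,0),(8,1)]⟩ ⟨3,[(20,0),(0,0),(13,3),(3,1)]⟩),(.r 0 ⟨0,[(1,0)]⟩ ⟨2,[(4,0),(8,0),(1,0),(4,0)]⟩),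
  .k,.k,⟨false,0,⟨0,[(0,0),(37,0)]⟩,⟨3,[(3,1),(0,1),(10,1),(3,0),(2,0),(16,0),(0,0)]⟩⟩,⟨true,0,⟨1,
  [(7,0),(15,1),(1,0)]⟩,⟨1,[(22,0),(8,0),(0,0)]⟩⟩,⟨false,0,⟨0,[]⟩,⟨3,[(20,0),(0,0),(18,1)]⟩⟩,⟨true,
  0,⟨0,[(3,0),(20,0)]⟩,⟨1,[(0,1),(21,0),(8,0),(0,0),(5,1)]⟩⟩,⟨false,0,⟨0,[]⟩,⟨0,[]⟩⟩,⟨false,0,⟨0,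
  []⟩,⟨0,[]⟩⟩,[.o ⟨false,1,⟨1,[(33,0),(3,1),(2,0)]⟩,⟨0,[(38,0)]⟩⟩,.o ⟨false,1,⟨0,[(10,0),(29,0)]⟩,
  ⟨0,[(38,0),(3,0)]⟩⟩,.a ⟨true,0,⟨1,[(22,0),(8,0),(0,0)]⟩,⟨0,[(23,0)]⟩⟩ ⟨true,0,⟨0,[(0,0)]⟩,⟨0,[(4,
  0)]⟩⟩ ⟨false,1,⟨3,[(3,1),(3,0),(7,1),(1,1),(3,0),(1,1),(1,0),(14,0)]⟩,⟨1,[(22,0),(8,0),(0,0),(5,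
  1)]⟩⟩,.o ⟨false,0,⟨1,[(22,0),(2,0),(2,0)]⟩,⟨1,[(23,1),(9,0),(5,0)]⟩⟩]⟩) (.R ⟨0,false,false,true,
  [1,0,0,-1],[1,-1],[0,1,0,-1,0,0,0,0,-1],(⟨1,[(22,0),(8,0),(0,0)]⟩,⟨0,[(23,0)]⟩),(⟨0,[(34,0)]⟩,⟨0,
  [(35,0)]⟩),⟨0,[(2,0)]⟩,.k,.k,(.r (-1) ⟨2,[(4,0),(8,0),(1,0),(4,0)]⟩ ⟨0,[(1,0)]⟩),(.x (-1) ⟨3,[(20,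
  0),(0,0),(13,3),(3,1)]⟩ ⟨1,[(7,0),(17,0),(8,1)]⟩),.k,.k,⟨false,0,⟨0,[(4,0)]⟩,⟨1,[(21,0),(17,0)]⟩⟩,
  ⟨true,0,⟨1,[(22,0),(2,0),(2,0)]⟩,⟨0,[(23,0)]⟩⟩,⟨true,0,⟨0,[(37,0)]⟩,⟨0,[(38,0)]⟩⟩,⟨false,1,⟨1,
  [(10,0),(10,0),(0,0),(14,0),(2,0)]⟩,⟨0,[(0,0),(22,0),(14,0)]⟩⟩,⟨false,0,⟨0,[]⟩,⟨0,[]⟩⟩,⟨false,0,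
  ⟨0,[]⟩,⟨0,[]⟩⟩,[.o ⟨false,0,⟨0,[(10,0)]⟩,⟨3,[(20,0),(0,0),(16,3),(1,1)]⟩⟩,.o ⟨false,1,⟨1,[(33,0),
  (3,1),(2,0)]⟩,⟨0,[(38,0)]⟩⟩,.a ⟨true,0,⟨0,[(23,0)]⟩,⟨1,[(22,0),(8,0),(0,0)]⟩⟩ ⟨false,0,⟨0,[(0,0),
  (36,0)]⟩,⟨1,[(21,0),(16,1),(1,0)]⟩⟩ ⟨true,0,⟨1,[(10,0),(11,0),(14,0)]⟩,⟨0,[(23,0),(14,0)]⟩⟩,.o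
  ⟨false,0,⟨1,[(7,0),(15,1),(1,0)]⟩,⟨7,[(20,0),(0,0),(0,3),(10,1),(5,3)]⟩⟩]⟩))) (.Q [0,1,0,1,0,0,0,
  0,1,1,0,-1] (.p false [0,0,0,1] [1] (⟨0,[(21,0)]⟩,⟨1,[(20,0),(8,0),(0,0)]⟩) .k 1 (⟨0,[]⟩,⟨0,[]⟩)
  .k .k) (.I [1,1,0,-1,0,0,0,0,1] (.Q [0,-1,0,-1,1,0,0,0,1,0,0,-1] (.p false [0,0,0,1] [] (⟨0,[(23,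
  0)]⟩,⟨1,[(22,0),(8,0),(0,0)]⟩) .k 0 (⟨0,[]⟩,⟨0,[]⟩) .k .k) (.R ⟨1,false,false,false,[1,0,0,-1],[1,
  -1],[0,0,0,0,0,0,0,0,-1],(⟨1,[(23,0),(8,0),(0,0)]⟩,⟨0,[(24,0)]⟩),(⟨0,[(35,0)]⟩,⟨0,[(36,0)]⟩),⟨0,
  [(3,0)]⟩,.k,.k,(.r (-1) ⟨2,[(5,0),(8,0),(1,0),(4,0)]⟩ ⟨0,[(1,0),(35,0),(1,1)]⟩),(.r 0 ⟨1,[(5,1),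
  (23,0),(0,0),(8,1)]⟩ ⟨1,[(1,1),(38,0),(0,0)]⟩),.k,.k,⟨false,0,⟨0,[(5,0),(33,0)]⟩,⟨1,[(1,1),(38,0),
  (0,0)]⟩⟩,⟨true,0,⟨1,[(23,0),(2,0),(2,0)]⟩,⟨0,[(24,0)]⟩⟩,⟨false,1,⟨3,[(21,0),(0,0),(18,1)]⟩,⟨0,
  []⟩⟩,⟨false,1,⟨0,[(0,0)]⟩,⟨0,[(5,0),(18,0),(14,0)]⟩⟩,⟨true,0,⟨0,[(39,0)]⟩,⟨0,[(38,0)]⟩⟩,⟨false,1,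
  ⟨0,[(0,0),(38,0)]⟩,⟨0,[(5,0),(18,0)]⟩⟩,[.o ⟨false,1,⟨9,[(0,1),(3,1),(11,1),(4,0),(0,0),(3,1),(7,
  3),(3,3)]⟩,⟨0,[(39,0)]⟩⟩,.o ⟨false,1,⟨0,[(11,0),(29,0)]⟩,⟨0,[(39,0),(3,0)]⟩⟩,.a ⟨true,0,⟨0,[(24,
  0)]⟩,⟨1,[(23,0),(8,0),(0,0)]⟩⟩ ⟨true,0,⟨0,[(5,0)]⟩,⟨0,[(1,0),(37,0)]⟩⟩ ⟨false,1,⟨9,[(0,3),(3,1),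
  (6,1),(4,1),(4,0),(1,3),(2,1),(14,2)]⟩,⟨0,[(24,0),(14,0)]⟩⟩,.o ⟨false,0,⟨1,[(8,0),(15,1),(1,0)]⟩,
  ⟨7,[(21,0),(0,0),(0,3),(10,1),(5,3)]⟩⟩]⟩) (.R ⟨1,false,false,false,[1,0,0,-1],[0,1],[0,1,0,0,0,0,
  0,0,-1],(⟨1,[(23,0),(8,0),(0,0)]⟩,⟨0,[(24,0)]⟩),(⟨0,[(36,0)]⟩,⟨0,[(35,0)]⟩),⟨0,[(3,0)]⟩,.k,.k,(.r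
  (-1) ⟨2,[(5,0),(8,0),(1,0),(4,0)]⟩ ⟨0,[(1,0),(35,0),(1,1)]⟩),(.r (-1) ⟨2,[(5,0),(8,0),(1,0),(4,
  0)]⟩ ⟨0,[(1,0),(35,0),(1,1)]⟩),(.r (-1) ⟨1,[(0,0),(3,0),(9,0),(1,1),(1,0),(4,0)]⟩ ⟨1,[(0,0),(1,0),
  (19,0),(3,0),(2,0),(7,1),(1,1)]⟩),.k,⟨true,0,⟨5,[(0,3),(3,1),(6,1),(2,1),(1,1),(6,2),(1,0),(2,
  0)]⟩,⟨0,[(1,0),(35,1),(1,1)]⟩⟩,⟨false,1,⟨1,[(23,0),(8,0),(0,0),(6,1)]⟩,⟨1,[(8,0),(15,1),(1,0)]⟩⟩,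
  ⟨true,0,⟨0,[(43,0)]⟩,⟨0,[]⟩⟩,⟨false,1,⟨0,[(2,0),(38,0)]⟩,⟨0,[(4,0),(20,0)]⟩⟩,⟨false,0,⟨0,[(39,
  0)]⟩,⟨0,[(38,0),(2,0)]⟩⟩,⟨false,1,⟨0,[(2,0),(36,0),(1,0)]⟩,⟨3,[(0,4),(0,2),(1,0),(0,1),(1,0),(0,
  2),(8,4),(1,2),(4,0),(9,1),(3,5)]⟩⟩,[.o ⟨false,0,⟨0,[(39,0)]⟩,⟨1,[(34,0),(3,1),(2,0)]⟩⟩,.o ⟨false,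
  1,⟨3,[(21,0),(0,0),(16,3),(1,1)]⟩,⟨0,[(11,0)]⟩⟩,.a ⟨true,0,⟨0,[(24,0)]⟩,⟨1,[(23,0),(8,0),(0,0)]⟩⟩
  ⟨false,0,⟨0,[(5,0)]⟩,⟨1,[(22,0),(18,0)]⟩⟩ ⟨true,0,⟨1,[(0,0),(1,0),(20,0),(17,0)]⟩,⟨0,[(11,0),(12,
  0)]⟩⟩,.o ⟨false,0,⟨1,[(8,0),(15,1),(1,0)]⟩,⟨7,[(21,0),(0,0),(0,3),(10,1),(5,3)]⟩⟩]⟩)) (.I [1,0,0,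
  1,0,0,0,-1,-1] (.R ⟨1,false,false,true,[1,0,0,-1],[1,0,-1],[1,1,0,-1,0,0,0,0,-1],(⟨1,[(23,0),(8,
  0),(0,0)]⟩,⟨0,[(24,0)]⟩),(⟨0,[(32,0)]⟩,⟨0,[(33,0)]⟩),⟨0,[(3,0)]⟩,.k,.k,(.x 0 ⟨1,[(8,0),(17,0),(8,
  1)]⟩ ⟨3,[(21,0),(0,0),(13,3),(3,1)]⟩),.k,(.r 0 ⟨0,[(0,0),(5,0),(0,0),(2,0),(22,1),(1,0)]⟩ ⟨1,[(0,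
  1),(21,1),(6,0),(0,0)]⟩),.k,⟨false,0,⟨0,[(0,0),(5,0),(0,0),(2,0),(22,1),(1,0)]⟩,⟨0,[(0,0),(21,
  0)]⟩⟩,⟨true,0,⟨1,[(20,0),(2,0)]⟩,⟨0,[(24,0),(4,0)]⟩⟩,⟨true,0,⟨0,[(38,0)]⟩,⟨0,[(39,0)]⟩⟩,⟨false,1,
  ⟨1,[(22,0),(0,0),(1,0),(2,0),(12,0)]⟩,⟨1,[(1,0),(2,0),(8,0),(10,0)]⟩⟩,⟨false,0,⟨0,[]⟩,⟨3,[(21,0),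
  (0,0),(18,1)]⟩⟩,⟨false,1,⟨0,[(2,0),(22,0),(15,0)]⟩,⟨0,[(4,0)]⟩⟩,[.o ⟨false,0,⟨0,[(25,0)]⟩,⟨3,[(13,
  3),(7,0),(0,0),(18,1)]⟩⟩,.o ⟨false,1,⟨1,[(28,1),(5,0),(6,0)]⟩,⟨0,[(13,0)]⟩⟩,.a ⟨true,0,⟨0,[(24,
  0)]⟩,⟨1,[(23,0),(8,0),(0,0)]⟩⟩ ⟨false,0,⟨1,[(4,1),(18,0),(1,0),(2,0)]⟩,⟨1,[(22,0),(16,1),(1,0)]⟩⟩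
  ⟨true,0,⟨1,[(23,0),(1,0),(2,0)]⟩,⟨0,[(13,0),(10,0)]⟩⟩,.o ⟨false,0,⟨1,[(8,0),(15,1),(1,0)]⟩,⟨7,
  [(21,0),(0,0),(0,3),(10,1),(5,3)]⟩⟩]⟩) (.Q [0,-1,0,0,0,0,0,0,-1,0,0,1] (.p true [0,0,0,1] [] (⟨0,
  [(24,0)]⟩,⟨1,[(23,0),(8,0),(0,0)]⟩) .k 0 (⟨0,[]⟩,⟨0,[]⟩) .k .k) (.R ⟨1,false,false,true,[1,0,0,
  -1],[1,-1],[0,1,0,0,0,0,0,0,-1],(⟨1,[(24,0),(8,0),(0,0)]⟩,⟨0,[(25,0)]⟩),(⟨0,[(36,0)]⟩,⟨0,[(37,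
  0)]⟩),⟨0,[(4,0)]⟩,.k,.k,(.x 0 ⟨1,[(9,0),(17,0),(8,1)]⟩ ⟨3,[(22,0),(0,0),(13,3),(3,1)]⟩),(.r 0 ⟨1,
  [(2,1),(27,0),(0,0),(12,1)]⟩ ⟨3,[(1,1),(15,1),(5,0),(17,0)]⟩),.k,.k,⟨false,0,⟨0,[(2,0),(41,0)]⟩,
  ⟨3,[(1,1),(15,1),(5,0),(17,0)]⟩⟩,⟨true,0,⟨1,[(24,0),(2,0),(2,0)]⟩,⟨0,[(25,0)]⟩⟩,⟨true,0,⟨0,[(44,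
  0)]⟩,⟨0,[]⟩⟩,⟨false,1,⟨1,[(12,0),(10,0),(0,0),(14,0),(2,0)]⟩,⟨0,[(2,0),(22,0)]⟩⟩,⟨false,0,⟨0,[(40,
  0)]⟩,⟨0,[(39,0),(2,0)]⟩⟩,⟨false,1,⟨7,[(22,0),(0,4),(0,3),(10,1)]⟩,⟨0,[(0,0)]⟩⟩,[.o ⟨false,0,⟨0,
  [(12,0)]⟩,⟨3,[(22,0),(0,0),(16,3),(1,1)]⟩⟩,.o ⟨false,1,⟨1,[(35,0),(3,1),(2,0)]⟩,⟨0,[(40,0)]⟩⟩,.a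
  ⟨true,0,⟨0,[(25,0)]⟩,⟨1,[(24,0),(8,0),(0,0)]⟩⟩ ⟨false,0,⟨0,[(6,0)]⟩,⟨1,[(23,0),(18,0)]⟩⟩ ⟨true,0,
  ⟨1,[(12,0),(11,0),(14,0)]⟩,⟨0,[(25,0),(14,0)]⟩⟩,.o ⟨false,0,⟨1,[(9,0),(15,1),(1,0)]⟩,⟨7,[(22,0),
  (0,0),(0,3),(10,1),(5,3)]⟩⟩]⟩) (.R ⟨2,true,false,true,[0,1],[0,0,0,1],[1,1,1],(⟨0,[]⟩,⟨0,[]⟩),(⟨0,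
  [(25,0)]⟩,⟨1,[(24,0),(8,0),(0,0)]⟩),⟨0,[]⟩,.k,.k,.k,(.r 0 ⟨1,[(2,1),(27,0),(0,0),(12,1)]⟩ ⟨3,[(1,
  1),(15,1),(5,0),(17,0)]⟩),.k,.k,⟨false,0,⟨0,[(6,0)]⟩,⟨1,[(23,0),(17,0)]⟩⟩,⟨true,0,⟨1,[(24,0),(2,
  0),(2,0)]⟩,⟨0,[(25,0)]⟩⟩,⟨true,0,⟨0,[(39,0)]⟩,⟨0,[(40,0)]⟩⟩,⟨false,1,⟨1,[(12,0),(10,0),(0,0),(14,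
  0),(2,0)]⟩,⟨0,[(2,0),(22,0)]⟩⟩,⟨false,0,⟨0,[]⟩,⟨3,[(22,0),(0,0),(18,1)]⟩⟩,⟨true,0,⟨0,[(0,0)]⟩,⟨0,
  [(6,0),(18,0)]⟩⟩,[]⟩)))) (.I [0,0,-2,-1,1] (.I [0,0,-1,-1,1,0,0,0,1] (.R ⟨1,false,false,true,[1,0,
  0,-1],[1,-1],[0,0,0,0,0,0,0,0,-1],(⟨1,[(23,0),(8,0),(0,0)]⟩,⟨0,[(24,0)]⟩),(⟨0,[(35,0)]⟩,⟨0,[(36,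
  0)]⟩),⟨0,[(3,0)]⟩,.k,.k,(.x 0 ⟨1,[(8,0),(17,0),(8,1)]⟩ ⟨3,[(21,0),(0,0),(13,3),(3,1)]⟩),(.r 0 ⟨1,
  [(5,1),(23,0),(0,0),(8,1)]⟩ ⟨0,[(0,0)]⟩),.k,.k,⟨false,0,⟨1,[(2,1),(20,0),(8,0),(0,0),(5,3)]⟩,⟨1,
  [(1,0),(20,0),(15,0),(4,0)]⟩⟩,⟨true,0,⟨1,[(23,0),(2,0),(2,0)]⟩,⟨0,[(24,0)]⟩⟩,⟨false,1,⟨3,[(21,0),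
  (0,0),(18,1)]⟩,⟨0,[]⟩⟩,⟨false,1,⟨1,[(11,0),(10,0),(0,0),(14,0),(2,0)]⟩,⟨0,[(2,0),(29,0),(0,0),(5,
  1)]⟩⟩,⟨true,0,⟨0,[(39,0)]⟩,⟨0,[(38,0)]⟩⟩,⟨false,1,⟨7,[(21,0),(0,4),(0,3),(10,1)]⟩,⟨0,[(2,0),(29,
  0),(0,0),(5,0)]⟩⟩,[.o ⟨false,0,⟨0,[(11,0)]⟩,⟨3,[(21,0),(0,0),(16,3),(1,1)]⟩⟩,.o ⟨false,1,⟨1,[(34,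
  0),(3,1),(2,0)]⟩,⟨0,[(39,0)]⟩⟩,.a ⟨true,0,⟨0,[(24,0)]⟩,⟨1,[(23,0),(8,0),(0,0)]⟩⟩ ⟨false,0,⟨1,[(2,
  1),(20,0),(8,0),(0,0),(5,1)]⟩,⟨3,[(21,0),(0,2)]⟩⟩ ⟨true,0,⟨1,[(11,0),(11,0),(14,0)]⟩,⟨0,[(24,0),
  (14,0)]⟩⟩,.o ⟨false,0,⟨1,[(8,0),(15,1),(1,0)]⟩,⟨7,[(21,0),(0,0),(0,3),(10,1),(5,3)]⟩⟩]⟩) (.R ⟨1,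
  false,false,true,[1,0,0,-1],[1,-1],[0,0,0,0,0,0,0,0,-1],(⟨1,[(23,0),(8,0),(0,0)]⟩,⟨0,[(24,0)]⟩),
  (⟨0,[(35,0)]⟩,⟨0,[(36,0)]⟩),⟨0,[(3,0)]⟩,.k,.k,(.x 0 ⟨1,[(8,0),(17,0),(8,1)]⟩ ⟨3,[(21,0),(0,0),(13,
  3),(3,1)]⟩),(.x (-1) ⟨3,[(21,0),(0,0),(13,3),(3,1)]⟩ ⟨1,[(8,0),(17,0),(8,1)]⟩),.k,.k,⟨false,0,⟨1,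
  [(0,1),(39,0),(0,0)]⟩,⟨1,[(1,0),(20,0),(15,0),(4,0)]⟩⟩,⟨true,0,⟨1,[(23,0),(2,0),(2,0)]⟩,⟨0,[(24,
  0)]⟩⟩,⟨false,1,⟨3,[(21,0),(0,0),(18,1)]⟩,⟨0,[]⟩⟩,⟨false,1,⟨1,[(11,0),(10,0),(0,0),(14,0),(2,0)]⟩,
  ⟨1,[(0,1),(23,1),(15,0),(0,0)]⟩⟩,⟨true,0,⟨0,[(39,0)]⟩,⟨0,[(38,0)]⟩⟩,⟨false,1,⟨7,[(21,0),(0,4),(0,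
  3),(10,1)]⟩,⟨2,[(0,1),(0,0),(0,0),(21,1),(7,0),(0,0),(7,0)]⟩⟩,[.o ⟨false,0,⟨0,[(11,0)]⟩,⟨3,[(21,
  0),(0,0),(16,3),(1,1)]⟩⟩,.o ⟨false,1,⟨1,[(34,0),(3,1),(2,0)]⟩,⟨0,[(39,0)]⟩⟩,.a ⟨true,0,⟨0,[(24,
  0)]⟩,⟨1,[(23,0),(8,0),(0,0)]⟩⟩ ⟨false,0,⟨5,[(0,3),(0,1),(0,1),(20,0),(8,0),(0,0),(7,1)]⟩,⟨3,[(21,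
  0),(0,2)]⟩⟩ ⟨true,0,⟨1,[(11,0),(11,0),(14,0)]⟩,⟨0,[(24,0),(14,0)]⟩⟩,.o ⟨false,0,⟨1,[(8,0),(15,1),
  (1,0)]⟩,⟨7,[(21,0),(0,0),(0,3),(10,1),(5,3)]⟩⟩]⟩)) (.R ⟨1,false,false,true,[1,0,0,-1],[1,-1],[0,0,
  0,0,0,0,0,0,-1],(⟨1,[(22,0),(8,0),(0,0)]⟩,⟨0,[(23,0)]⟩),(⟨0,[(34,0)]⟩,⟨0,[(35,0)]⟩),⟨0,[(2,0)]⟩,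
  .k,.k,(.r (-1) ⟨2,[(4,0),(8,0),(1,0),(4,0)]⟩ ⟨1,[(0,0),(20,0),(16,0)]⟩),(.x (-1) ⟨3,[(20,0),(0,0),
  (13,3),(3,1)]⟩ ⟨1,[(7,0),(17,0),(8,1)]⟩),.k,.k,⟨false,0,⟨1,[(1,1),(20,0),(8,0),(0,0),(5,3)]⟩,⟨1,
  [(21,0),(15,1),(1,0)]⟩⟩,⟨true,0,⟨1,[(22,0),(2,0),(2,0)]⟩,⟨0,[(23,0)]⟩⟩,⟨false,1,⟨3,[(20,0),(0,0),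
  (18,1)]⟩,⟨0,[]⟩⟩,⟨false,1,⟨1,[(10,0),(10,0),(0,0),(14,0),(2,0)]⟩,⟨0,[(1,0),(29,0),(0,0),(5,1)]⟩⟩,
  ⟨true,0,⟨0,[(38,0)]⟩,⟨0,[(37,0)]⟩⟩,⟨false,1,⟨7,[(20,0),(0,4),(0,3),(10,1)]⟩,⟨0,[(1,0),(29,0),(0,
  0),(5,0)]⟩⟩,[.o ⟨false,0,⟨0,[(10,0)]⟩,⟨3,[(20,0),(0,0),(16,3),(1,1)]⟩⟩,.o ⟨false,1,⟨1,[(33,0),(3,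
  1),(2,0)]⟩,⟨0,[(38,0)]⟩⟩,.a ⟨true,0,⟨0,[(23,0)]⟩,⟨1,[(22,0),(8,0),(0,0)]⟩⟩ ⟨false,0,⟨1,[(1,1),(20,
  0),(8,0),(0,0),(5,1)]⟩,⟨3,[(20,0),(0,2)]⟩⟩ ⟨true,0,⟨1,[(10,0),(11,0),(14,0)]⟩,⟨0,[(23,0),(14,
  0)]⟩⟩,.o ⟨false,0,⟨1,[(7,0),(15,1),(1,0)]⟩,⟨7,[(20,0),(0,0),(0,3),(10,1),(5,3)]⟩⟩]⟩)))) (.Q [0,0,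
  0,0,0,-1,0,0,0,1,0,-1] (.p false [0,0,0,1] [1] (⟨0,[(20,0)]⟩,⟨1,[(19,0),(8,0),(0,0)]⟩) .k 1 (⟨0,
  []⟩,⟨0,[]⟩) .k .k) (.Q [0,-1,0,-1,1,0,-1,-1,1,0,1,-1] (.p true [0,0,1] [0,0,0,1] (⟨0,[(30,0)]⟩,⟨0,
  [(29,0)]⟩) .k 2 (⟨0,[(21,0)]⟩,⟨1,[(20,0),(8,0),(0,0)]⟩) .k (.r 0 ⟨0,[(2,0),(25,0)]⟩ ⟨2,[(1,0),(11,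
  0),(2,0),(2,0),(1,0),(4,0),(7,0)]⟩)) (.R ⟨1,false,false,false,[1,0,0,-1],[1,-1],[0,0,0,0,0,0,0,0,
  -1],(⟨1,[(21,0),(8,0),(0,0)]⟩,⟨0,[(22,0)]⟩),(⟨0,[(33,0)]⟩,⟨0,[(34,0)]⟩),⟨0,[(1,0)]⟩,.k,.k,(.r
  (-1) ⟨2,[(3,0),(8,0),(1,0),(4,0)]⟩ ⟨0,[(2,0),(8,0),(10,0),(12,0)]⟩),(.r 0 ⟨1,[(3,1),(23,0),(0,0),
  (8,1)]⟩ ⟨1,[(0,0),(1,0),(5,1),(13,1),(15,0)]⟩),.k,.k,⟨false,0,⟨0,[(3,0),(33,0)]⟩,⟨1,[(0,0),(1,0),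
  (5,1),(13,1),(15,0)]⟩⟩,⟨true,0,⟨1,[(21,0),(2,0),(2,0)]⟩,⟨0,[(22,0)]⟩⟩,⟨false,1,⟨3,[(19,0),(0,0),
  (18,1)]⟩,⟨0,[]⟩⟩,⟨false,1,⟨3,[(0,1),(4,0),(2,0),(11,0),(0,0),(17,0)]⟩,⟨0,[(3,0),(18,0),(14,0)]⟩⟩,
  ⟨true,0,⟨0,[(37,0)]⟩,⟨0,[(36,0)]⟩⟩,⟨false,1,⟨2,[(2,0),(2,0),(14,0),(0,0),(17,1)]⟩,⟨0,[(3,0),(18,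
  0)]⟩⟩,[.o ⟨false,1,⟨1,[(32,0),(3,1),(2,0)]⟩,⟨0,[(37,0)]⟩⟩,.o ⟨false,1,⟨0,[(9,0),(29,0)]⟩,⟨0,[(37,
  0),(3,0)]⟩⟩,.a ⟨true,0,⟨0,[(22,0)]⟩,⟨1,[(21,0),(8,0),(0,0)]⟩⟩ ⟨true,0,⟨0,[(3,0)]⟩,⟨0,[(2,0),(5,0),
  (13,0)]⟩⟩ ⟨false,1,⟨3,[(0,1),(4,0),(2,0),(10,0),(1,0),(17,0)]⟩,⟨0,[(22,0),(14,0)]⟩⟩,.o ⟨false,0,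
  ⟨1,[(6,0),(15,1),(1,0)]⟩,⟨7,[(19,0),(0,0),(0,3),(10,1),(5,3)]⟩⟩]⟩) (.Q [0,1,0,-1,0,0,-1,-1,0,-1,
  1] (.p true [0,0,1] [1] (⟨0,[(31,0)]⟩,⟨0,[(30,0)]⟩) .k 1 (⟨0,[]⟩,⟨0,[]⟩) .k .k) (.R ⟨1,false,
  false,false,[1,0,0,-1],[0,1,-1],[0,0,0,0,0,0,0,0,-1],(⟨1,[(22,0),(8,0),(0,0)]⟩,⟨0,[(23,0)]⟩),(⟨0,
  [(8,0)]⟩,⟨0,[(32,0),(1,0)]⟩),⟨0,[(2,0)]⟩,.k,.k,(.r (-1) ⟨2,[(4,0),(8,0),(1,0),(4,0)]⟩ ⟨1,[(1,0),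
  (1,0),(17,0),(14,1)]⟩),(.r 0 ⟨0,[(1,0),(0,0),(2,0),(0,0),(8,0),(16,1),(3,0)]⟩ ⟨1,[(21,0),(5,1),(0,
  1),(9,1),(1,0)]⟩),(.r (-1) ⟨0,[(4,0),(8,0)]⟩ ⟨0,[(3,0),(19,0),(4,0),(7,0),(1,0)]⟩),.k,⟨true,0,⟨0,
  [(1,0),(0,0),(2,0),(0,0),(8,0),(16,1),(3,0)]⟩,⟨0,[(3,0),(19,0),(4,0),(7,0)]⟩⟩,⟨false,1,⟨7,[(5,3),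
  (14,0),(0,0),(0,3),(9,7),(1,3),(4,5)]⟩,⟨0,[(7,0),(15,0)]⟩⟩,⟨false,1,⟨3,[(20,0),(0,0),(18,1)]⟩,⟨0,
  []⟩⟩,⟨false,1,⟨0,[(3,0),(27,0),(0,0),(7,0)]⟩,⟨0,[(4,0),(1,0),(16,0)]⟩⟩,⟨true,0,⟨0,[(38,0)]⟩,⟨0,
  [(37,0)]⟩⟩,⟨false,1,⟨0,[(3,0),(27,0),(0,0),(5,0),(1,0)]⟩,⟨1,[(0,0),(0,1),(3,0),(0,1),(2,0),(5,1),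
  (16,1),(1,0),(1,2)]⟩⟩,[.o ⟨false,1,⟨3,[(20,0),(0,0),(5,3),(10,3),(1,1)]⟩,⟨0,[(6,0)]⟩⟩,.o ⟨false,1,
  ⟨0,[(27,0),(10,0),(1,0)]⟩,⟨1,[(6,0),(3,0),(15,0)]⟩⟩,.a ⟨true,0,⟨0,[(23,0)]⟩,⟨1,[(22,0),(8,0),(0,
  0)]⟩⟩ ⟨true,0,⟨0,[(4,0)]⟩,⟨0,[(3,0),(5,0),(13,0)]⟩⟩ ⟨false,1,⟨1,[(22,0),(4,1),(3,0),(0,0),(5,1),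
  (1,1)]⟩,⟨0,[(6,0),(16,0)]⟩⟩,.o ⟨false,0,⟨1,[(7,0),(15,1),(1,0)]⟩,⟨7,[(20,0),(0,0),(0,3),(10,1),(5,
  3)]⟩⟩]⟩) (.R ⟨1,false,false,false,[1,0,0,-1],[1,-1],[0,0,0,0,0,0,0,0,-1],(⟨1,[(22,0),(8,0),(0,
  0)]⟩,⟨0,[(23,0)]⟩),(⟨0,[(34,0)]⟩,⟨0,[(35,0)]⟩),⟨0,[(2,0)]⟩,.k,.k,(.r (-1) ⟨2,[(4,0),(8,0),(1,0),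
  (4,0)]⟩ ⟨1,[(1,0),(1,0),(17,0),(14,1)]⟩),(.r 0 ⟨1,[(1,0),(1,0),(16,0),(15,1)]⟩ ⟨1,[(0,0),(2,1),(1,
  0),(0,1),(2,0),(5,1),(7,1),(8,1),(1,0),(1,0)]⟩),.k,.k,⟨false,0,⟨0,[(4,0),(33,0)]⟩,⟨1,[(0,0),(2,1),
  (1,0),(0,1),(2,0),(5,1),(7,1),(8,1),(1,0),(1,0)]⟩⟩,⟨true,0,⟨1,[(22,0),(2,0),(2,0)]⟩,⟨0,[(23,0)]⟩⟩,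
  ⟨false,1,⟨3,[(20,0),(0,0),(18,1)]⟩,⟨0,[]⟩⟩,⟨false,1,⟨1,[(0,0),(2,1),(1,0),(0,1),(2,0),(5,1),(16,
  1),(1,0),(1,2)]⟩,⟨0,[(1,0),(25,0),(12,0)]⟩⟩,⟨true,0,⟨0,[(38,0)]⟩,⟨0,[(37,0)]⟩⟩,⟨false,1,⟨2,[(3,0),
  (2,0),(14,0),(0,0),(17,1)]⟩,⟨0,[(4,0),(18,0)]⟩⟩,[.o ⟨false,1,⟨1,[(33,0),(3,1),(2,0)]⟩,⟨0,[(38,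
  0)]⟩⟩,.o ⟨false,1,⟨0,[(10,0),(29,0)]⟩,⟨3,[(1,1),(1,1),(16,0),(0,0)]⟩⟩,.a ⟨true,0,⟨0,[(23,0)]⟩,⟨1,
  [(22,0),(8,0),(0,0)]⟩⟩ ⟨true,0,⟨0,[(4,0)]⟩,⟨0,[(3,0),(5,0),(13,0)]⟩⟩ ⟨false,1,⟨1,[(10,0),(11,0),
  (14,0),(2,1)]⟩,⟨0,[(23,0),(14,0)]⟩⟩,.o ⟨false,0,⟨1,[(7,0),(15,1),(1,0)]⟩,⟨7,[(20,0),(0,0),(0,3),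
  (10,1),(5,3)]⟩⟩]⟩))) (.I [0,-1,-2,-1,1,0,0,1] (.R ⟨0,false,false,false,[1,0,0,-1],[1,-1],[0,1],
  (⟨1,[(21,0),(8,0),(0,0)]⟩,⟨0,[(22,0)]⟩),(⟨0,[(33,0)]⟩,⟨0,[(34,0)]⟩),⟨0,[(1,0)]⟩,.k,.k,(.r (-1) ⟨2,
  [(3,0),(8,0),(1,0),(4,0)]⟩ ⟨0,[(2,0),(8,0),(10,0),(12,0)]⟩),(.r 0 ⟨1,[(3,1),(23,0),(0,0),(8,1)]⟩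
  ⟨1,[(0,0),(1,1),(5,1),(5,0),(7,1),(12,0)]⟩),.k,.k,⟨false,0,⟨0,[(37,0),(3,0)]⟩,⟨1,[(0,0),(13,0),
  (20,0)]⟩⟩,⟨true,0,⟨1,[(21,0),(2,0),(2,0)]⟩,⟨0,[(22,0)]⟩⟩,⟨true,0,⟨0,[(2,0),(5,0),(13,0)]⟩,⟨0,[(3,
  0)]⟩⟩,⟨false,1,⟨1,[(0,0),(1,1),(5,1),(5,0),(20,2)]⟩,⟨0,[(3,0),(18,0),(14,0)]⟩⟩,⟨false,0,⟨0,[]⟩,⟨0,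
  []⟩⟩,⟨false,0,⟨0,[]⟩,⟨0,[]⟩⟩,[.o ⟨false,1,⟨1,[(32,0),(3,1),(2,0)]⟩,⟨0,[(37,0)]⟩⟩,.o ⟨false,1,⟨0,
  [(9,0),(29,0)]⟩,⟨0,[(37,0),(3,0)]⟩⟩,.a ⟨true,0,⟨0,[(22,0)]⟩,⟨1,[(21,0),(8,0),(0,0)]⟩⟩ ⟨true,0,⟨0,
  [(41,0)]⟩,⟨0,[]⟩⟩ ⟨false,1,⟨1,[(9,0),(11,0),(14,0),(2,1)]⟩,⟨0,[(22,0),(14,0)]⟩⟩,.o ⟨false,0,⟨1,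
  [(6,0),(15,1),(1,0)]⟩,⟨7,[(19,0),(0,0),(0,3),(10,1),(5,3)]⟩⟩]⟩) (.I [0,0,-1,-1,1,0,0,0,1] (.I [0,
  0,-1,-2,1,0,0,0,1] (.R ⟨0,false,false,false,[1,0,0,-1],[1,-1],[1,0,0,0,0,0,0,0,-1],(⟨1,[(23,0),(8,
  0),(0,0)]⟩,⟨0,[(24,0)]⟩),(⟨0,[(35,0)]⟩,⟨0,[(36,0)]⟩),⟨0,[(3,0)]⟩,.k,.k,(.r (-1) ⟨2,[(5,0),(8,0),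
  (1,0),(4,0)]⟩ ⟨0,[(4,0),(8,0),(10,0),(12,0)]⟩),(.r 0 ⟨2,[(2,0),(2,0),(15,0),(9,0),(5,0),(1,1)]⟩
  ⟨0,[(1,0)]⟩),.k,.k,⟨false,0,⟨0,[(5,0),(33,0)]⟩,⟨0,[(1,0)]⟩⟩,⟨true,0,⟨1,[(23,0),(2,0),(2,0)]⟩,⟨0,
  [(24,0)]⟩⟩,⟨true,0,⟨0,[]⟩,⟨0,[(43,0)]⟩⟩,⟨false,1,⟨11,[(0,5),(3,3),(2,3),(14,0),(0,3),(13,5),(3,
  4)]⟩,⟨0,[(5,0),(18,0),(14,0)]⟩⟩,⟨false,0,⟨0,[]⟩,⟨0,[]⟩⟩,⟨false,0,⟨0,[]⟩,⟨0,[]⟩⟩,[.o ⟨false,1,⟨3,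
  [(0,1),(7,0),(12,0),(4,0),(7,0)]⟩,⟨0,[(39,0)]⟩⟩,.o ⟨false,1,⟨0,[(11,0),(29,0)]⟩,⟨0,[(39,0),(3,
  0)]⟩⟩,.a ⟨true,0,⟨0,[(24,0)]⟩,⟨1,[(23,0),(8,0),(0,0)]⟩⟩ ⟨true,0,⟨0,[(5,0)]⟩,⟨0,[(4,0),(5,0),(13,
  0)]⟩⟩ ⟨false,1,⟨7,[(0,1),(10,3),(9,0),(1,3),(13,1),(3,4)]⟩,⟨0,[(24,0),(14,0)]⟩⟩,.o ⟨false,0,⟨1,
  [(8,0),(15,1),(1,0)]⟩,⟨7,[(21,0),(0,0),(0,3),(10,1),(5,3)]⟩⟩]⟩) (.R ⟨0,false,false,true,[1,0,0,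
  -1],[0,0,0,1],[0,1,0,0,0,0,0,0,-1],(⟨1,[(23,0),(8,0),(0,0)]⟩,⟨0,[(24,0)]⟩),(⟨0,[(24,0)]⟩,⟨1,[(23,
  0),(8,0),(0,0)]⟩),⟨0,[(3,0)]⟩,.k,.k,(.r (-1) ⟨2,[(5,0),(8,0),(1,0),(4,0)]⟩ ⟨1,[(0,0),(3,0),(5,0),
  (11,0),(1,0),(12,0)]⟩),.k,.k,.k,⟨false,0,⟨0,[(0,1),(5,0),(0,0),(2,0),(5,1),(16,1),(1,0)]⟩,⟨0,[(22,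
  0)]⟩⟩,⟨true,0,⟨0,[(23,0)]⟩,⟨1,[(8,0),(15,3),(1,0)]⟩⟩,⟨true,0,⟨0,[(43,0)]⟩,⟨0,[]⟩⟩,⟨false,1,⟨0,
  [(22,0),(0,0)]⟩,⟨0,[(0,1),(5,0),(0,1),(8,1),(7,1),(8,1),(1,0),(1,0)]⟩⟩,⟨false,0,⟨0,[]⟩,⟨0,[]⟩⟩,
  ⟨false,0,⟨0,[]⟩,⟨0,[]⟩⟩,[.o ⟨false,0,⟨0,[(4,0),(5,0)]⟩,⟨1,[(5,1),(18,1),(9,0),(6,0)]⟩⟩,.o ⟨false,
  1,⟨7,[(21,0),(0,4),(0,3),(10,1)]⟩,⟨1,[(0,0),(4,0),(1,0),(8,0),(1,0),(5,1)]⟩⟩,.a ⟨true,0,⟨0,[(24,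
  0)]⟩,⟨1,[(23,0),(8,0),(0,0)]⟩⟩ ⟨false,0,⟨0,[(5,0)]⟩,⟨1,[(22,0),(18,0)]⟩⟩ ⟨true,0,⟨1,[(4,1),(5,1),
  (12,0),(8,0),(0,0)]⟩,⟨1,[(0,0),(4,0),(1,0),(8,0),(1,0),(5,3)]⟩⟩,.o ⟨false,0,⟨1,[(8,0),(15,1),(1,
  0)]⟩,⟨7,[(21,0),(0,0),(0,3),(10,1),(5,3)]⟩⟩]⟩)) (.R ⟨2,true,false,true,[0,1],[0,0,0,1],[0,1,0,0,0,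
  0,0,0,1],(⟨0,[]⟩,⟨0,[]⟩),(⟨0,[(23,0)]⟩,⟨1,[(22,0),(8,0),(0,0)]⟩),⟨0,[]⟩,.k,.k,.k,(.x (-1) ⟨3,[(20,
  0),(0,0),(13,3),(3,1)]⟩ ⟨1,[(7,0),(17,0),(8,1)]⟩),.k,.k,⟨false,1,⟨3,[(20,0),(0,0),(17,1)]⟩,⟨0,
  []⟩⟩,⟨true,0,⟨1,[(22,0),(2,0),(2,0)]⟩,⟨0,[(23,0)]⟩⟩,⟨true,1,⟨1,[(21,0),(15,1),(1,0)]⟩,⟨0,[(0,
  0)]⟩⟩,⟨false,1,⟨1,[(10,0),(10,0),(0,0),(14,0),(2,0)]⟩,⟨1,[(0,1),(22,1),(15,0),(0,0)]⟩⟩,⟨false,1,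
  ⟨1,[(21,0),(17,0)]⟩,⟨0,[(4,0),(31,0)]⟩⟩,⟨true,0,⟨0,[(3,0),(5,0)]⟩,⟨0,[(4,0),(18,0)]⟩⟩,[]⟩)))))
  (.Q [0,-1,0,1,0,0,0,0,1,1,0,-1] (.p false [0,0,0,1] [1] (⟨0,[(19,0)]⟩,⟨1,[(18,0),(8,0),(0,0)]⟩)
  .k 1 (⟨0,[]⟩,⟨0,[]⟩) .k .k) (.I [1,0,0,0,0,0,0,1,-1] (.Q [0,0,0,0,0,1,0,0,0,0,0,-1] (.p false [0,
  0,0,1] [] (⟨0,[(21,0)]⟩,⟨1,[(20,0),(8,0),(0,0)]⟩) .k 0 (⟨0,[]⟩,⟨0,[]⟩) .k .k) (.R ⟨0,false,false,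
  true,[0,0,0,1],[1,-1],[0,1,0,0,0,0,0,0,1],(⟨0,[(22,0)]⟩,⟨1,[(21,0),(8,0),(0,0)]⟩),(⟨0,[(33,0)]⟩,
  ⟨0,[(34,0)]⟩),⟨0,[(0,0)]⟩,.k,.k,(.x 0 ⟨1,[(6,0),(17,0),(8,1)]⟩ ⟨3,[(19,0),(0,0),(13,3),(3,1)]⟩),
  (.r 0 ⟨1,[(3,1),(23,0),(0,0),(8,1)]⟩ ⟨0,[(1,0),(8,0)]⟩),.k,.k,⟨false,0,⟨0,[(3,0),(33,0)]⟩,⟨0,[(1,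
  0),(12,0)]⟩⟩,⟨true,0,⟨1,[(6,0),(15,1),(1,0)]⟩,⟨1,[(21,0),(8,0),(0,0)]⟩⟩,⟨true,0,⟨0,[(41,0)]⟩,⟨0,
  []⟩⟩,⟨false,1,⟨1,[(9,1),(9,0),(2,1),(16,0)]⟩,⟨0,[(2,0)]⟩⟩,⟨false,0,⟨0,[]⟩,⟨0,[]⟩⟩,⟨false,0,⟨0,[]⟩,
  ⟨0,[]⟩⟩,[.o ⟨false,0,⟨0,[(9,0)]⟩,⟨3,[(19,0),(0,0),(16,3),(1,1)]⟩⟩,.o ⟨false,1,⟨1,[(32,0),(3,1),(2,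
  0)]⟩,⟨0,[(37,0)]⟩⟩,.a ⟨true,0,⟨1,[(21,0),(8,0),(0,0)]⟩,⟨0,[(22,0)]⟩⟩ ⟨false,0,⟨0,[(2,0),(2,0),(7,
  0),(8,0),(0,0),(7,0),(2,0)]⟩,⟨1,[(19,0),(19,0)]⟩⟩ ⟨true,0,⟨0,[(9,0),(12,0)]⟩,⟨1,[(21,0),(8,0),(0,
  0),(5,1)]⟩⟩,.o ⟨false,0,⟨1,[(21,0),(2,0),(2,0)]⟩,⟨1,[(22,1),(9,0),(5,0)]⟩⟩]⟩) (.Q [0,-1,0,0,0,0,0,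
  0,1,1,0,-1] (.p false [0,0,0,1] [1] (⟨0,[(22,0)]⟩,⟨1,[(21,0),(8,0),(0,0)]⟩) .k 1 (⟨0,[]⟩,⟨0,[]⟩)
  .k .k) (.R ⟨1,false,false,true,[0,0,0,1],[1,-1],[1,1,0,-1,0,0,0,0,1],(⟨0,[(23,0)]⟩,⟨1,[(22,0),(8,
  0),(0,0)]⟩),(⟨0,[(34,0)]⟩,⟨0,[(35,0)]⟩),⟨0,[(1,0)]⟩,.k,.k,(.x 0 ⟨1,[(7,0),(17,0),(8,1)]⟩ ⟨3,[(20,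
  0),(0,0),(13,3),(3,1)]⟩),(.r 0 ⟨1,[(4,1),(23,0),(0,0),(8,1)]⟩ ⟨0,[(2,0),(8,0)]⟩),.k,.k,⟨false,0,
  ⟨0,[(4,0)]⟩,⟨1,[(20,0),(18,0)]⟩⟩,⟨true,0,⟨1,[(7,0),(15,1),(1,0)]⟩,⟨1,[(22,0),(8,0),(0,0)]⟩⟩,⟨true,
  0,⟨0,[(37,0)]⟩,⟨0,[(38,0)]⟩⟩,⟨false,1,⟨1,[(10,1),(9,0),(2,1),(16,0)]⟩,⟨0,[(3,0)]⟩⟩,⟨false,0,⟨0,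
  []⟩,⟨3,[(20,0),(0,0),(18,1)]⟩⟩,⟨false,1,⟨1,[(20,0),(2,1),(9,0)]⟩,⟨0,[(0,0)]⟩⟩,[.o ⟨false,0,⟨0,
  [(10,0)]⟩,⟨3,[(20,0),(0,0),(16,3),(1,1)]⟩⟩,.o ⟨false,1,⟨1,[(33,0),(3,1),(2,0)]⟩,⟨0,[(38,0)]⟩⟩,.a
  ⟨true,0,⟨1,[(22,0),(8,0),(0,0)]⟩,⟨0,[(23,0)]⟩⟩ ⟨false,0,⟨0,[(0,0),(9,0),(12,0)]⟩,⟨1,[(20,0),(17,
  1),(1,0)]⟩⟩ ⟨true,0,⟨0,[(10,0),(12,0)]⟩,⟨1,[(22,0),(8,0),(0,0),(5,1)]⟩⟩,.o ⟨false,0,⟨1,[(22,0),(2,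
  0),(2,0)]⟩,⟨1,[(23,1),(9,0),(5,0)]⟩⟩]⟩) (.R ⟨2,true,false,true,[0,1],[1,0,0,-1],[1,1,1],(⟨0,[]⟩,
  ⟨0,[]⟩),(⟨1,[(22,0),(8,0),(0,0)]⟩,⟨0,[(23,0)]⟩),⟨0,[]⟩,.k,.k,.k,(.r 0 ⟨1,[(4,1),(23,0),(0,0),(8,
  1)]⟩ ⟨0,[(2,0),(8,0)]⟩),.k,.k,⟨false,0,⟨0,[(4,0)]⟩,⟨1,[(20,0),(18,0)]⟩⟩,⟨true,0,⟨1,[(7,0),(15,1),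
  (1,0)]⟩,⟨1,[(22,0),(8,0),(0,0)]⟩⟩,⟨true,0,⟨0,[(37,0)]⟩,⟨0,[(38,0)]⟩⟩,⟨false,1,⟨0,[(0,0),(36,0),(2,
  0)]⟩,⟨0,[(3,0)]⟩⟩,⟨false,0,⟨0,[]⟩,⟨3,[(20,0),(0,0),(18,1)]⟩⟩,⟨true,0,⟨0,[(0,0)]⟩,⟨0,[(3,0),(33,
  0)]⟩⟩,[]⟩))) (.Q [0,0,0,0,0,1,0,0,0,0,0,-1] (.p false [0,0,0,1] [] (⟨0,[(21,0)]⟩,⟨1,[(20,0),(8,0),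
  (0,0)]⟩) .k 0 (⟨0,[]⟩,⟨0,[]⟩) .k .k) (.R ⟨0,false,false,true,[0,0,0,1],[1,0,-1],[0,1,0,0,0,0,0,0,
  1],(⟨0,[(22,0)]⟩,⟨1,[(21,0),(8,0),(0,0)]⟩),(⟨0,[(30,0)]⟩,⟨0,[(31,0)]⟩),⟨0,[(0,0)]⟩,.k,.k,(.x 0 ⟨1,
  [(6,0),(17,0),(8,1)]⟩ ⟨3,[(19,0),(0,0),(13,3),(3,1)]⟩),.k,.k,.k,⟨false,0,⟨0,[(1,0),(2,0),(0,0),(5,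
  0),(19,1),(1,0),(3,0)]⟩,⟨0,[(1,0),(17,0)]⟩⟩,⟨true,0,⟨0,[(16,0),(5,0)]⟩,⟨1,[(21,0),(5,1),(2,0),(0,
  0)]⟩⟩,⟨true,0,⟨0,[(41,0)]⟩,⟨0,[]⟩⟩,⟨false,1,⟨1,[(19,0),(2,1),(0,1),(15,0)]⟩,⟨0,[(2,0),(5,0)]⟩⟩,
  ⟨false,0,⟨0,[]⟩,⟨0,[]⟩⟩,⟨false,0,⟨0,[]⟩,⟨0,[]⟩⟩,[.o ⟨false,0,⟨0,[(23,0)]⟩,⟨3,[(11,3),(7,0),(0,0),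
  (18,1)]⟩⟩,.o ⟨false,1,⟨1,[(26,1),(5,0),(6,0)]⟩,⟨0,[(11,0)]⟩⟩,.a ⟨true,0,⟨1,[(21,0),(8,0),(0,0)]⟩,
  ⟨0,[(22,0)]⟩⟩ ⟨false,0,⟨1,[(1,1),(2,0),(0,2),(7,3),(9,0),(7,5),(2,2),(0,0),(1,2)]⟩,⟨1,[(19,0),(19,
  0)]⟩⟩ ⟨true,0,⟨0,[(22,0),(0,0)]⟩,⟨1,[(11,1),(9,0),(8,0),(0,0)]⟩⟩,.o ⟨false,0,⟨1,[(21,0),(2,0),(2,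
  0)]⟩,⟨1,[(22,1),(9,0),(5,0)]⟩⟩]⟩) (.I [0,-1,0,0,0,0,0,0,1] (.R ⟨1,false,false,true,[0,0,0,1],[1,0,
  -1],[0,1,0,0,0,0,0,0,1],(⟨0,[(23,0)]⟩,⟨1,[(22,0),(8,0),(0,0)]⟩),(⟨0,[(31,0)]⟩,⟨0,[(32,0)]⟩),⟨0,
  [(1,0)]⟩,.k,.k,(.x 0 ⟨1,[(7,0),(17,0),(8,1)]⟩ ⟨3,[(20,0),(0,0),(13,3),(3,1)]⟩),.k,(.r 0 ⟨0,[(2,0),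
  (2,0),(0,0),(5,0),(19,1),(1,0)]⟩ ⟨1,[(20,0),(6,1),(0,1),(9,1),(1,0)]⟩),.k,⟨false,0,⟨1,[(1,1),(0,
  1),(2,1),(0,0),(5,2),(9,0),(9,3),(5,0)]⟩,⟨0,[(2,0),(17,0)]⟩⟩,⟨true,0,⟨0,[(17,0),(5,0)]⟩,⟨1,[(22,
  0),(5,1),(2,0),(0,0)]⟩⟩,⟨true,0,⟨0,[(42,0)]⟩,⟨0,[]⟩⟩,⟨false,1,⟨1,[(20,0),(2,1),(0,1),(15,0)]⟩,⟨0,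
  [(3,0),(5,0)]⟩⟩,⟨false,0,⟨0,[(38,0)]⟩,⟨0,[(37,0),(2,0)]⟩⟩,⟨false,1,⟨1,[(20,0),(2,1),(0,1),(13,1),
  (1,0)]⟩,⟨1,[(0,1),(8,1),(12,0),(8,0),(0,0)]⟩⟩,[.o ⟨false,0,⟨0,[(24,0)]⟩,⟨3,[(12,3),(7,0),(0,0),
  (18,1)]⟩⟩,.o ⟨false,1,⟨1,[(27,1),(5,0),(6,0)]⟩,⟨0,[(12,0)]⟩⟩,.a ⟨true,0,⟨1,[(22,0),(8,0),(0,0)]⟩,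
  ⟨0,[(23,0)]⟩⟩ ⟨false,0,⟨1,[(1,7),(0,1),(2,0),(0,2),(15,3),(1,0),(7,1),(2,6),(0,0),(1,2)]⟩,⟨1,[(20,
  0),(19,0)]⟩⟩ ⟨true,0,⟨0,[(23,0),(0,0)]⟩,⟨1,[(12,1),(9,0),(8,0),(0,0)]⟩⟩,.o ⟨false,0,⟨1,[(22,0),(2,
  0),(2,0)]⟩,⟨1,[(23,1),(9,0),(5,0)]⟩⟩]⟩) (.R ⟨1,false,false,false,[0,0,0,1],[0,1],[0,1,0,0,0,0,0,0,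
  1],(⟨0,[(23,0)]⟩,⟨1,[(22,0),(8,0),(0,0)]⟩),(⟨0,[(35,0)]⟩,⟨0,[(34,0)]⟩),⟨0,[(1,0)]⟩,.k,.k,(.r (-1)
  ⟨4,[(2,0),(10,1),(1,0),(5,1)]⟩ ⟨0,[(0,0),(35,0),(1,0)]⟩),(.r (-1) ⟨4,[(2,0),(10,1),(1,0),(5,1)]⟩
  ⟨0,[(0,0),(35,0),(1,0)]⟩),(.r (-1) ⟨0,[(2,0),(10,0)]⟩ ⟨1,[(0,1),(27,0),(0,0),(6,1),(1,3)]⟩),.k,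
  ⟨true,0,⟨0,[(0,0),(1,1),(2,0),(0,0),(5,0),(19,1),(1,0)]⟩,⟨0,[(0,0),(35,1),(1,0)]⟩⟩,⟨false,1,⟨0,
  [(23,0),(15,0)]⟩,⟨1,[(22,0),(2,0),(2,0)]⟩⟩,⟨true,0,⟨0,[(42,0)]⟩,⟨0,[]⟩⟩,⟨false,1,⟨1,[(20,0),(2,1),
  (14,1),(1,0)]⟩,⟨1,[(2,1),(6,1),(9,0),(2,0)]⟩⟩,⟨false,0,⟨0,[(38,0)]⟩,⟨0,[(37,0),(2,0)]⟩⟩,⟨false,1,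
  ⟨1,[(20,0),(2,1),(14,3),(1,0)]⟩,⟨1,[(0,1),(1,3),(2,1),(0,2),(2,0),(12,0),(9,3),(1,1),(1,1)]⟩⟩,[.o
  ⟨false,0,⟨0,[(38,0)]⟩,⟨1,[(33,0),(3,1),(2,0)]⟩⟩,.o ⟨false,1,⟨3,[(20,0),(0,0),(16,3),(1,1)]⟩,⟨0,
  [(10,0)]⟩⟩,.a ⟨true,0,⟨1,[(22,0),(8,0),(0,0)]⟩,⟨0,[(23,0)]⟩⟩ ⟨false,0,⟨0,[(0,0),(0,3),(0,1),(2,0),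
  (0,1),(15,1),(9,1),(2,2),(0,0),(1,1)]⟩,⟨1,[(20,0),(19,0)]⟩⟩ ⟨true,0,⟨0,[(23,0),(14,0)]⟩,⟨1,[(10,
  0),(11,0),(14,0)]⟩⟩,.o ⟨false,0,⟨1,[(22,0),(2,0),(2,0)]⟩,⟨1,[(23,1),(9,0),(5,0)]⟩⟩]⟩)))) (.Q [0,0,
  0,0,0,1,0,0,0,0,0,-1] (.p false [0,0,0,1] [] (⟨0,[(20,0)]⟩,⟨1,[(19,0),(8,0),(0,0)]⟩) .k 0 (⟨0,[]⟩,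
  ⟨0,[]⟩) .k .k) (.R ⟨0,false,false,true,[0,0,0,1],[1,-1],[1,1,0,0,0,0,0,0,1],(⟨0,[(21,0)]⟩,⟨1,[(20,
  0),(8,0),(0,0)]⟩),(⟨0,[(32,0)]⟩,⟨0,[(33,0)]⟩),⟨0,[(0,0)]⟩,.k,.k,(.r (-1) ⟨2,[(2,0),(8,0),(1,0),(5,
  0)]⟩ ⟨1,[(1,1),(18,0),(8,0),(0,0),(3,1),(1,3)]⟩),(.r 0 ⟨1,[(2,1),(23,0),(0,0),(8,1)]⟩ ⟨1,[(1,1),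
  (18,0),(8,0),(0,0),(6,0),(0,0)]⟩),.k,.k,⟨false,0,⟨0,[(2,0),(33,0)]⟩,⟨1,[(1,1),(18,0),(8,0),(0,0),
  (6,0),(0,0)]⟩⟩,⟨true,0,⟨1,[(5,0),(15,1),(1,0)]⟩,⟨1,[(20,0),(8,0),(0,0)]⟩⟩,⟨false,0,⟨0,[]⟩,⟨3,[(18,
  0),(0,0),(18,1)]⟩⟩,⟨true,0,⟨0,[(1,0)]⟩,⟨1,[(2,1),(17,0),(8,0),(0,0),(5,1)]⟩⟩,⟨false,0,⟨0,[]⟩,⟨0,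
  []⟩⟩,⟨false,0,⟨0,[]⟩,⟨0,[]⟩⟩,[.o ⟨false,0,⟨0,[(8,0)]⟩,⟨3,[(18,0),(0,0),(16,3),(1,1)]⟩⟩,.o ⟨false,
  1,⟨1,[(31,0),(3,1),(2,0)]⟩,⟨0,[(36,0)]⟩⟩,.a ⟨true,0,⟨1,[(20,0),(8,0),(0,0)]⟩,⟨0,[(21,0)]⟩⟩ ⟨false,
  0,⟨0,[(2,0)]⟩,⟨1,[(18,0),(19,0)]⟩⟩ ⟨true,0,⟨0,[(8,0),(12,0)]⟩,⟨1,[(20,0),(8,0),(0,0),(5,1)]⟩⟩,.o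
  ⟨false,0,⟨1,[(20,0),(2,0),(2,0)]⟩,⟨1,[(21,1),(9,0),(5,0)]⟩⟩]⟩) (.I [0,0,0,0,0,0,0,0,1] (.R ⟨1,
  false,false,true,[0,0,0,1],[1,-1],[0,1,0,0,0,0,0,0,1],(⟨0,[(22,0)]⟩,⟨1,[(21,0),(8,0),(0,0)]⟩),(⟨0,
  [(33,0)]⟩,⟨0,[(34,0)]⟩),⟨0,[(1,0)]⟩,.k,.k,(.r (-1) ⟨2,[(0,0),(11,0),(1,0),(5,0)]⟩ ⟨1,[(2,1),(18,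
  0),(8,0),(0,0),(3,1),(1,3)]⟩),(.r 0 ⟨1,[(0,1),(26,0),(0,0),(8,1)]⟩ ⟨1,[(2,1),(18,0),(8,0),(0,0),
  (6,0),(0,0)]⟩),.k,.k,⟨false,0,⟨0,[(0,0),(36,0)]⟩,⟨1,[(2,1),(18,0),(8,0),(0,0),(6,0),(0,0)]⟩⟩,
  ⟨true,0,⟨1,[(6,0),(15,1),(1,0)]⟩,⟨1,[(21,0),(8,0),(0,0)]⟩⟩,⟨true,0,⟨0,[(41,0)]⟩,⟨0,[]⟩⟩,⟨true,0,
  ⟨0,[(2,0)]⟩,⟨1,[(0,1),(20,0),(8,0),(0,0),(5,1)]⟩⟩,⟨false,0,⟨0,[(37,0)]⟩,⟨0,[(36,0),(2,0)]⟩⟩,⟨true,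
  0,⟨0,[(2,0),(34,0)]⟩,⟨1,[(0,1),(20,0),(8,0),(0,0)]⟩⟩,[.o ⟨false,0,⟨0,[(9,0)]⟩,⟨3,[(19,0),(0,0),
  (16,3),(1,1)]⟩⟩,.o ⟨false,1,⟨1,[(32,0),(3,1),(2,0)]⟩,⟨0,[(37,0)]⟩⟩,.a ⟨true,0,⟨1,[(21,0),(8,0),(0,
  0)]⟩,⟨0,[(22,0)]⟩⟩ ⟨false,0,⟨0,[(0,0)]⟩,⟨1,[(19,0),(19,0)]⟩⟩ ⟨true,0,⟨0,[(9,0),(12,0)]⟩,⟨1,[(21,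
  0),(8,0),(0,0),(5,1)]⟩⟩,.o ⟨false,0,⟨1,[(21,0),(2,0),(2,0)]⟩,⟨1,[(22,1),(9,0),(5,0)]⟩⟩]⟩) (.N [0,
  0,0,1] 0 ⟨0,[(3,0)]⟩ ⟨0,[(0,0)]⟩ .k)))))

theorem ok95 : chk (cU (-1) false 2) t95 r48 = true := by decide +kernel

noncomputable def t99 : Tre :=
  (.K ⟨2,[1,1,-1],0,0,(⟨0,[(24,0),(3,0)]⟩,⟨0,[(1,0)]⟩),.k,.k,(.r 0 ⟨3,[(0,1),(20,2),(0,2),(8,5)]⟩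
  ⟨0,[(6,0)]⟩),(.r 0 ⟨0,[(0,0)]⟩ ⟨3,[(6,1),(6,0),(0,0),(8,5)]⟩),.k,[⟨0,[(0,0),(1,0),(2,0),(18,0),(0,
  0)]⟩,⟨0,[(10,0)]⟩,⟨0,[(9,0),(14,0),(0,0)]⟩,⟨0,[(17,0),(13,0)]⟩]⟩)

theorem ok99 : chk (cU (-1) false 2) t99 l57 = true := by decide +kernel

noncomputable def t124 : Tre :=
  (.R ⟨2,true,false,true,[0,1],[0,0,1],[0,1,1,1],(⟨0,[]⟩,⟨0,[]⟩),(⟨0,[(17,0)]⟩,⟨0,[(16,0)]⟩),⟨0,[]⟩,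
  .k,.k,.k,.k,.k,.k,⟨false,0,⟨0,[(0,0)]⟩,⟨1,[(15,1),(6,1),(1,0),(0,0)]⟩⟩,⟨true,0,⟨0,[(13,0)]⟩,⟨1,
  [(4,0),(11,0),(0,0)]⟩⟩,⟨true,0,⟨0,[(27,0)]⟩,⟨0,[]⟩⟩,⟨false,1,⟨0,[(11,0),(10,0),(2,0)]⟩,⟨0,[(1,
  0)]⟩⟩,⟨false,0,⟨0,[(23,0)]⟩,⟨0,[(22,0),(2,0)]⟩⟩,⟨true,0,⟨0,[(11,0)]⟩,⟨0,[(1,0),(20,0)]⟩⟩,[]⟩)

theorem ok124 : chk (cU (-1) false 2) t124 l64 = true := by decide +kernel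

noncomputable def t137 : Tre :=
  (.R ⟨2,true,false,true,[0,1],[1,0,-1],[1,1,1],(⟨0,[]⟩,⟨0,[]⟩),(⟨0,[(14,0)]⟩,⟨0,[(15,0)]⟩),⟨0,[]⟩,
  .k,.k,.k,.k,.k,.k,⟨true,(-1),⟨0,[(1,0)]⟩,⟨1,[(10,1),(0,1),(10,0),(0,0)]⟩⟩,⟨false,0,⟨1,[(1,1),(5,
  1),(14,0),(0,0)]⟩,⟨0,[(11,0),(2,0),(0,0),(6,0)]⟩⟩,⟨true,0,⟨0,[(20,0)]⟩,⟨0,[(21,0)]⟩⟩,⟨false,1,⟨0,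
  [(7,0),(12,0),(2,0)]⟩,⟨0,[(0,0)]⟩⟩,⟨false,0,⟨0,[]⟩,⟨3,[(3,0),(0,0),(18,1)]⟩⟩,⟨true,0,⟨0,[(7,0)]⟩,
  ⟨0,[(0,0),(19,0)]⟩⟩,[]⟩)

theorem ok137 : chk (cU (-1) false 2) t137 l69 = true := by decide +kernel

end Helper11.CT.T1_3_m1_1_v
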