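import Pool.Agent.Helper11.CT.T.T1_3_m1_1_v_q

set_option autoImplicit false
set_option linter.all false

namespace Helper11.CT.T1_3_m1_1_v

open Helper11.CT

noncomputable def t1 : Tre :=
  (.R ⟨0,false,false,true,[1,0,-1],[1,-1],[0,1],(⟨0,[(18,0)]⟩,⟨0,[(19,0)]⟩),(⟨0,[(21,0)]⟩,⟨0,[(22,
  0)]⟩),⟨0,[(1,0)]⟩,.k,.k,.k,.k,.k,.k,⟨false,0,⟨0,[(25,0)]⟩,⟨0,[(2,0),(14,0)]⟩⟩,⟨true,0,⟨0,[(15,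
  0)]⟩,⟨1,[(0,0),(5,0),(17,0)]⟩⟩,⟨false,0,⟨0,[(17,0)]⟩,⟨0,[(5,0),(17,0)]⟩⟩,⟨true,0,⟨0,[(3,0)]⟩,⟨0,
  [(0,0),(10,0)]⟩⟩,⟨false,0,⟨0,[]⟩,⟨0,[]⟩⟩,⟨false,0,⟨0,[]⟩,⟨0,[]⟩⟩,[.a ⟨true,0,⟨0,[(24,0)]⟩,⟨0,[(0,
  0)]⟩⟩ ⟨true,0,⟨0,[(29,0)]⟩,⟨0,[(23,0)]⟩⟩ ⟨false,1,⟨0,[(2,0),(10,0)]⟩,⟨0,[(0,0),(3,0)]⟩⟩,.o ⟨false,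
  1,⟨1,[(20,0),(3,1),(2,0)]⟩,⟨0,[(25,0)]⟩⟩,.o ⟨false,0,⟨0,[(4,0)]⟩,⟨7,[(5,3),(1,0),(0,0),(4,3),(1,
  3),(11,1)]⟩⟩,.o ⟨false,0,⟨0,[(12,0)]⟩,⟨0,[(15,0),(10,0)]⟩⟩]⟩)

theorem ok1 : chk (cU (-1) false 2) t1 l5 = true := by decide +kernel

noncomputable def t13 : Tre :=
  (.Q [0,0,1,0,0,0,2,0,0,1,-2] (.p false [0,0,1] [1,0,-1] (⟨0,[(23,0)]⟩,⟨0,[(22,0)]⟩) .k 2 (⟨0,[(22,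
  0)]⟩,⟨0,[(23,0)]⟩) .k (.r 0 ⟨0,[(21,1)]⟩ ⟨5,[(0,3),(5,3),(4,0),(0,0)]⟩)) (.K ⟨2,[1,1,-1],0,0,(⟨0,
  [(23,0),(3,0)]⟩,⟨0,[(3,0)]⟩),.k,.k,(.r 0 ⟨1,[(0,0),(0,0),(15,0),(3,0),(8,2)]⟩ ⟨0,[(5,0)]⟩),(.r 0
  ⟨0,[(1,0)]⟩ ⟨3,[(5,1),(6,0),(0,0),(8,5)]⟩),.k,[⟨0,[(0,0)]⟩,⟨0,[(9,0)]⟩,⟨0,[(8,0),(14,0),(0,0)]⟩,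
  ⟨0,[(16,0),(13,0)]⟩]⟩) (.Q [0,0,0,0,0,0,1,1,0,1,-1] (.p false [0,0,1] [1] (⟨0,[(24,0)]⟩,⟨0,[(23,
  0)]⟩) .k 1 (⟨0,[]⟩,⟨0,[]⟩) .k .k) (.I [1,1,0,0,0,0,0,-1] (.R ⟨2,false,false,false,[0,1],[0,0,1],
  [1,1,1],(⟨0,[]⟩,⟨0,[]⟩),(⟨0,[(26,0)]⟩,⟨0,[(25,0)]⟩),⟨0,[]⟩,.k,.k,.k,.k,.k,.k,⟨false,0,⟨0,[(0,0)]⟩,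
  ⟨1,[(24,1),(8,0),(0,0)]⟩⟩,⟨true,0,⟨0,[(22,0)]⟩,⟨2,[(1,0),(0,0),(3,0),(16,0)]⟩⟩,⟨true,0,⟨0,[(31,
  0)]⟩,⟨0,[(32,0)]⟩⟩,⟨false,1,⟨0,[(10,0),(23,0)]⟩,⟨0,[(6,0),(25,0)]⟩⟩,⟨false,0,⟨0,[]⟩,⟨3,[(14,0),(0,
  0),(18,1)]⟩⟩,⟨false,1,⟨1,[(1,1),(25,0),(6,0)]⟩,⟨0,[(6,0)]⟩⟩,[.a ⟨true,0,⟨0,[(1,0)]⟩,⟨0,[(6,0)]⟩⟩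
  ⟨false,0,⟨0,[(36,0)]⟩,⟨1,[(33,0),(0,0)]⟩⟩ ⟨true,0,⟨0,[(22,0),(1,0)]⟩,⟨0,[(6,0)]⟩⟩,.o ⟨false,1,⟨1,
  [(1,1),(25,0),(6,0)]⟩,⟨0,[(18,0)]⟩⟩,.o ⟨false,1,⟨3,[(14,0),(0,0),(17,1)]⟩,⟨0,[(11,0),(10,0)]⟩⟩,.e
  ⟨false,0,⟨0,[]⟩,⟨3,[(14,0),(0,0),(18,1)]⟩⟩ ⟨false,1,⟨1,[(1,1),(25,0),(6,0)]⟩,⟨0,[(6,0)]⟩⟩]⟩) (.Q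
  [0,-1,0,2,0,0,-1,-1,0,0,1] (.p true [0,0,1] [] (⟨0,[(26,0)]⟩,⟨0,[(25,0)]⟩) .k 0 (⟨0,[]⟩,⟨0,[]⟩)
  .k .k) (.R ⟨1,false,false,false,[1,-1],[1,0,-1],[1],(⟨0,[(29,0)]⟩,⟨0,[(30,0)]⟩),(⟨0,[(26,0)]⟩,⟨0,
  [(27,0)]⟩),⟨0,[(6,0),(2,0)]⟩,.k,.k,(.x 0 ⟨0,[(6,0),(2,0),(10,0),(2,0)]⟩ ⟨0,[(30,1),(3,0)]⟩),.k,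
  (.r (-1) ⟨0,[(8,0)]⟩ ⟨3,[(0,2),(3,1),(16,2),(1,2),(0,2)]⟩),.k,⟨true,0,⟨0,[(25,0)]⟩,⟨1,[(4,0),(26,
  0),(0,0)]⟩⟩,⟨false,1,⟨3,[(0,0),(1,0),(0,0),(4,0),(13,0),(1,0),(9,2)]⟩,⟨0,[(23,0)]⟩⟩,⟨false,0,⟨3,
  [(0,1),(0,0),(0,0),(17,0),(2,1),(7,0)]⟩,⟨5,[(8,1),(1,1),(4,0),(0,0)]⟩⟩,⟨true,0,⟨1,[(0,0),(21,0)]⟩,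
  ⟨0,[(11,0)]⟩⟩,⟨false,0,⟨0,[(0,0),(22,0),(1,0)]⟩,⟨1,[(8,0),(1,0),(20,0),(0,0)]⟩⟩,⟨false,0,⟨0,[(0,
  0)]⟩,⟨0,[(11,0),(20,0),(2,0)]⟩⟩,[.a ⟨true,0,⟨0,[(7,0)]⟩,⟨0,[(2,0)]⟩⟩ ⟨true,0,⟨0,[]⟩,⟨1,[(23,0),(0,
  0)]⟩⟩ ⟨false,1,⟨0,[(7,0),(26,0)]⟩,⟨0,[(23,0),(1,0)]⟩⟩,.o ⟨false,1,⟨1,[(7,1),(20,0),(6,0)]⟩,⟨0,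
  [(21,0)]⟩⟩,.o ⟨false,0,⟨0,[(12,0),(10,0)]⟩,⟨3,[(15,0),(0,0),(17,1)]⟩⟩,.o ⟨false,0,⟨0,[(20,0),(2,
  0)]⟩,⟨0,[(34,0)]⟩⟩]⟩) (.Q [0,0,0,0,0,2,0,0,0,0,-1] (.p false [0,0,1] [] (⟨0,[(27,0)]⟩,⟨0,[(26,
  0)]⟩) .k 0 (⟨0,[]⟩,⟨0,[]⟩) .k .k) (.R ⟨0,false,false,false,[0,-1,1],[1,0,-1],[0,0,1],(⟨0,[(7,0)]⟩,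
  ⟨1,[(0,0),(2,0),(4,0),(18,0)]⟩),(⟨0,[(27,0)]⟩,⟨0,[(28,0)]⟩),⟨0,[(0,0)]⟩,.k,.k,(.r (-1) ⟨0,[(9,
  0)]⟩ ⟨3,[(5,1),(18,2),(0,2),(8,5)]⟩),(.r (-1) ⟨3,[(9,1),(6,0),(0,0),(8,5)]⟩ ⟨0,[(5,0)]⟩),.k,.k,
  ⟨false,0,⟨0,[(26,0)]⟩,⟨0,[(14,0)]⟩⟩,⟨true,0,⟨0,[(4,0)]⟩,⟨5,[(1,1),(1,5),(1,3),(18,4),(0,0),(6,
  1)]⟩⟩,⟨false,0,⟨3,[(5,1),(18,0),(0,0),(6,3),(1,1)]⟩,⟨1,[(9,0),(16,0),(8,0)]⟩⟩,⟨true,0,⟨0,[(4,0),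
  (0,0)]⟩,⟨1,[(1,0),(1,1),(18,0)]⟩⟩,⟨false,0,⟨0,[]⟩,⟨0,[]⟩⟩,⟨false,0,⟨0,[]⟩,⟨0,[]⟩⟩,[.a ⟨true,0,⟨0,
  [(8,0)]⟩,⟨0,[(3,0)]⟩⟩ ⟨true,0,⟨1,[(24,0),(0,0)]⟩,⟨0,[]⟩⟩ ⟨false,1,⟨0,[(4,0),(9,0)]⟩,⟨0,[(3,0),(20,
  0)]⟩⟩,.o ⟨false,1,⟨1,[(8,1),(20,0),(6,0)]⟩,⟨0,[(22,0)]⟩⟩,.o ⟨false,0,⟨0,[(24,0)]⟩,⟨3,[(4,1),(11,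
  0),(0,0),(11,0),(5,0)]⟩⟩,.o ⟨false,0,⟨1,[(24,2),(0,0)]⟩,⟨3,[(4,1),(24,0),(5,2)]⟩⟩]⟩) (.I [0,1,0,1,
  0,0,0,-1] (.R ⟨2,false,false,false,[0,1],[0,0,1],[1,0,1,0,0,0,0,1],(⟨0,[]⟩,⟨0,[]⟩),(⟨0,[(29,0)]⟩,
  ⟨0,[(28,0)]⟩),⟨0,[]⟩,.k,.k,.k,.k,.k,.k,⟨false,0,⟨0,[]⟩,⟨3,[(17,0),(0,0),(17,1)]⟩⟩,⟨true,0,⟨0,[(25,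
  0)]⟩,⟨2,[(4,0),(0,0),(3,0),(16,0)]⟩⟩,⟨true,0,⟨5,[(2,2),(0,2),(0,0),(0,0),(3,0),(16,0)]⟩,⟨0,[(0,
  0)]⟩⟩,⟨false,1,⟨3,[(2,1),(1,1),(25,0),(6,2)]⟩,⟨0,[(9,0),(25,0)]⟩⟩,⟨false,0,⟨0,[(3,0)]⟩,⟨2,[(6,0),
  (5,0),(4,0),(0,0)]⟩⟩,⟨false,1,⟨1,[(4,1),(25,0),(6,0)]⟩,⟨0,[(9,0)]⟩⟩,[.a ⟨true,0,⟨0,[(4,0)]⟩,⟨0,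
  [(9,0)]⟩⟩ ⟨false,0,⟨0,[(27,0)]⟩,⟨0,[(15,0)]⟩⟩ ⟨true,0,⟨0,[(25,0),(1,0)]⟩,⟨0,[(9,0)]⟩⟩,.o ⟨false,1,
  ⟨1,[(4,1),(25,0),(6,0)]⟩,⟨0,[(21,0)]⟩⟩,.o ⟨false,1,⟨3,[(17,0),(0,0),(17,1)]⟩,⟨0,[(14,0),(10,0)]⟩⟩,
  .e ⟨false,0,⟨0,[(3,0)]⟩,⟨2,[(6,0),(5,0),(4,0),(0,0)]⟩⟩ ⟨false,1,⟨1,[(4,1),(25,0),(6,0)]⟩,⟨0,[(9,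
  0)]⟩⟩]⟩) (.Q [0,0,0,0,0,0,-2,-2,0,-1,2] (.p true [0,0,1] [1,0,-1] (⟨0,[(29,0)]⟩,⟨0,[(28,0)]⟩) .k
  2 (⟨0,[(28,0)]⟩,⟨0,[(29,0)]⟩) .k (.r 0 ⟨0,[(27,1)]⟩ ⟨5,[(6,3),(5,3),(4,0),(0,0)]⟩)) (.I [0,0,-1,0,
  0,0,0,0,-1] (.R ⟨1,false,false,true,[1,0,0,-1],[1,0,-1],[0,1,0,0,0,0,0,0,-1],(⟨1,[(6,0),(4,0),(9,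
  0)]⟩,⟨0,[(22,0)]⟩),(⟨0,[(30,0)]⟩,⟨0,[(31,0)]⟩),⟨3,[(3,0),(9,0),(7,1),(11,0)]⟩,.k,.k,(.x 0 ⟨5,[(3,
  1),(9,1),(10,1),(2,2),(0,0)]⟩ ⟨3,[(19,0),(0,0),(13,3),(3,1)]⟩),.k,(.r 0 ⟨5,[(0,5),(1,1),(1,1),(1,
  0),(0,0),(20,0),(0,0)]⟩ ⟨3,[(8,1),(10,0),(0,2),(6,0),(0,0),(8,1)]⟩),.k,⟨false,0,⟨0,[(0,0),(28,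
  0)]⟩,⟨11,[(8,3),(5,3),(4,0),(0,6)]⟩⟩,⟨true,0,⟨1,[(18,0),(2,0)]⟩,⟨0,[(22,0),(4,0)]⟩⟩,⟨true,0,⟨0,
  [(41,0)]⟩,⟨0,[]⟩⟩,⟨false,1,⟨3,[(1,1),(17,0),(0,2),(0,1)]⟩,⟨0,[(0,0),(4,0),(16,0),(4,0)]⟩⟩,⟨false,
  0,⟨0,[(37,0)]⟩,⟨2,[(4,0),(9,0),(13,0),(10,1)]⟩⟩,⟨false,1,⟨3,[(1,1),(17,0),(0,2),(0,1),(15,3)]⟩,⟨0,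
  [(0,0),(1,0),(19,0),(4,0)]⟩⟩,[.o ⟨false,0,⟨0,[(23,0)]⟩,⟨1,[(6,1),(25,0),(6,0)]⟩⟩,.a ⟨true,0,⟨0,
  [(11,0)]⟩,⟨0,[(6,0)]⟩⟩ ⟨false,0,⟨0,[(0,0)]⟩,⟨3,[(19,0),(0,2)]⟩⟩ ⟨true,0,⟨1,[(1,0),(19,0)]⟩,⟨0,
  [(22,0),(4,0),(1,0)]⟩⟩,.e ⟨false,0,⟨1,[(0,1),(26,0),(0,0)]⟩,⟨1,[(20,0),(18,0)]⟩⟩ ⟨false,0,⟨1,[(1,
  0),(19,0)]⟩,⟨1,[(6,1),(15,1),(9,0),(6,0)]⟩⟩,.o ⟨false,0,⟨0,[(16,0),(5,0),(4,0)]⟩,⟨7,[(19,0),(0,0),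
  (0,3),(10,1),(5,3)]⟩⟩]⟩) (.I [1,1,0,0,0,0,0,0,1] (.I [0,0,-1,0,0,0,0,1,1] (.I [0,0,-1,-1,1,0,0,0,
  -1] (.R ⟨1,false,false,true,[1,0,0,-1],[1,0,-1],[1,1,0,-1,0,0,0,0,-1],(⟨1,[(9,0),(4,0),(9,0)]⟩,⟨0,
  [(25,0)]⟩),(⟨0,[(33,0)]⟩,⟨0,[(34,0)]⟩),⟨3,[(6,0),(9,0),(7,1),(11,0)]⟩,.k,.k,(.r (-1) ⟨0,[(0,0)]⟩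
  ⟨0,[(3,0),(36,0)]⟩),.k,(.r (-1) ⟨1,[(15,0),(6,0),(9,0)]⟩ ⟨2,[(1,0),(1,1),(7,1),(28,0)]⟩),.k,
  ⟨false,1,⟨1,[(15,0),(6,0),(9,0)]⟩,⟨0,[(1,0),(9,0)]⟩⟩,⟨true,0,⟨1,[(21,0),(2,0)]⟩,⟨0,[(25,0),(4,
  0)]⟩⟩,⟨true,0,⟨0,[(39,0)]⟩,⟨0,[(40,0)]⟩⟩,⟨false,0,⟨13,[(1,9),(1,3),(0,6),(0,1),(1,1),(3,5),(2,1),
  (9,6)]⟩,⟨1,[(8,1),(13,0),(2,1),(4,1),(10,0)]⟩⟩,⟨false,0,⟨0,[]⟩,⟨3,[(22,0),(0,0),(18,1)]⟩⟩,⟨false,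
  0,⟨5,[(1,3),(1,1),(0,2),(6,1),(12,2),(15,3)]⟩,⟨1,[(5,1),(16,0),(2,1),(4,1),(10,0)]⟩⟩,[.o ⟨false,0,
  ⟨0,[(26,0)]⟩,⟨1,[(9,1),(25,0),(6,0)]⟩⟩,.a ⟨true,0,⟨0,[(14,0)]⟩,⟨0,[(9,0)]⟩⟩ ⟨false,1,⟨0,[(0,0)]⟩,
  ⟨2,[(1,1),(1,0),(7,0),(28,1)]⟩⟩ ⟨true,0,⟨1,[(4,0),(19,0)]⟩,⟨0,[(25,0),(4,0),(1,0)]⟩⟩,.e ⟨false,1,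
  ⟨5,[(7,1),(9,1),(4,2),(8,1),(10,0)]⟩,⟨0,[(1,0),(6,0),(2,0)]⟩⟩ ⟨false,0,⟨1,[(4,0),(19,0)]⟩,⟨1,[(9,
  1),(15,1),(9,0),(6,0)]⟩⟩,.o ⟨false,0,⟨0,[(19,0),(5,0),(4,0)]⟩,⟨7,[(22,0),(0,0),(0,3),(10,1),(5,
  3)]⟩⟩]⟩) (.R ⟨1,false,false,true,[1,0,0,-1],[1,0,-1],[1,1,1],(⟨1,[(9,0),(4,0),(9,0)]⟩,⟨0,[(25,
  0)]⟩),(⟨0,[(33,0)]⟩,⟨0,[(34,0)]⟩),⟨3,[(6,0),(9,0),(7,1),(11,0)]⟩,.k,.k,(.x 0 ⟨5,[(6,1),(9,1),(10,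
  1),(2,2),(0,0)]⟩ ⟨3,[(22,0),(0,0),(13,3),(3,1)]⟩),.k,(.r (-1) ⟨1,[(15,0),(6,0),(9,0)]⟩ ⟨7,[(0,3),
  (10,3),(10,0),(0,2)]⟩),.k,⟨false,0,⟨0,[(32,0)]⟩,⟨0,[(20,0)]⟩⟩,⟨true,0,⟨1,[(21,0),(2,0)]⟩,⟨0,[(25,
  0),(4,0)]⟩⟩,⟨true,(-1),⟨0,[(0,0),(38,0)]⟩,⟨1,[(22,0),(18,0)]⟩⟩,⟨false,0,⟨9,[(0,5),(3,4),(10,1),(1,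
  1),(5,1),(0,4)]⟩,⟨1,[(8,1),(13,0),(2,1),(4,1),(10,0)]⟩⟩,⟨false,(-1),⟨0,[(0,0)]⟩,⟨5,[(15,1),(1,1),
  (4,3),(0,0),(18,2)]⟩⟩,⟨false,0,⟨3,[(0,1),(3,1),(18,0),(0,1),(15,1),(0,0)]⟩,⟨1,[(5,1),(16,0),(2,1),
  (4,1),(10,0)]⟩⟩,[.o ⟨false,0,⟨0,[(26,0)]⟩,⟨1,[(9,1),(25,0),(6,0)]⟩⟩,.a ⟨true,0,⟨0,[(14,0)]⟩,⟨0,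
  [(9,0)]⟩⟩ ⟨false,0,⟨0,[]⟩,⟨3,[(22,0),(0,0),(17,1)]⟩⟩ ⟨true,0,⟨1,[(4,0),(19,0)]⟩,⟨0,[(25,0),(4,0),
  (1,0)]⟩⟩,.e ⟨false,0,⟨1,[(30,0),(0,0)]⟩,⟨1,[(41,0),(0,0)]⟩⟩ ⟨false,0,⟨1,[(4,0),(19,0)]⟩,⟨1,[(9,1),
  (15,1),(9,0),(6,0)]⟩⟩,.o ⟨false,0,⟨0,[(19,0),(5,0),(4,0)]⟩,⟨7,[(22,0),(0,0),(0,3),(10,1),(5,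
  3)]⟩⟩]⟩)) (.I [0,0,0,0,0,0,0,0,-1] (.R ⟨1,false,false,false,[1,0,0,-1],[1,-1],[0,0,0,0,0,0,0,0,
  -1],(⟨1,[(9,0),(4,0),(9,0)]⟩,⟨0,[(25,0)]⟩),(⟨0,[(36,0)]⟩,⟨0,[(37,0)]⟩),⟨3,[(6,0),(9,0),(7,1),(11,
  0)]⟩,.k,.k,(.r (-1) ⟨2,[(0,0),(14,0),(1,0),(4,0)]⟩ ⟨0,[(3,0),(36,0)]⟩),(.r 0 ⟨1,[(0,0),(0,0),(7,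
  0),(17,0),(12,1)]⟩ ⟨3,[(2,1),(2,1),(11,1),(5,0),(17,0)]⟩),.k,.k,⟨false,0,⟨0,[(0,0),(39,0)]⟩,⟨3,
  [(2,1),(2,1),(11,1),(5,0),(17,0)]⟩⟩,⟨true,0,⟨1,[(24,0),(2,0),(2,0)]⟩,⟨0,[(25,0)]⟩⟩,⟨false,1,⟨3,
  [(22,0),(0,0),(18,1)]⟩,⟨0,[]⟩⟩,⟨false,1,⟨7,[(2,1),(2,9),(5,3),(5,1),(5,2),(0,3),(10,1),(5,0)]⟩,⟨0,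
  [(0,0),(24,0),(14,0)]⟩⟩,⟨true,0,⟨0,[(40,0)]⟩,⟨0,[(39,0)]⟩⟩,⟨false,1,⟨3,[(5,1),(2,1),(2,1),(11,1),
  (0,1),(10,0),(5,0)]⟩,⟨0,[(0,0),(24,0)]⟩⟩,[.o ⟨false,1,⟨11,[(7,3),(9,3),(4,0),(0,0),(3,3),(7,3),(6,
  1)]⟩,⟨0,[(40,0)]⟩⟩,.o ⟨false,1,⟨4,[(4,0),(0,1),(1,0),(9,0),(12,0),(4,1),(6,1)]⟩,⟨0,[(40,0),(3,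
  0)]⟩⟩,.a ⟨true,0,⟨0,[(25,0)]⟩,⟨1,[(9,0),(4,0),(9,0)]⟩⟩ ⟨true,0,⟨0,[(0,0)]⟩,⟨0,[(2,0)]⟩⟩ ⟨false,1,
  ⟨11,[(7,3),(4,1),(4,1),(6,5),(2,1),(7,0),(6,8)]⟩,⟨0,[(25,0),(14,0)]⟩⟩,.o ⟨false,0,⟨0,[(19,0),(5,
  0),(4,0)]⟩,⟨7,[(22,0),(0,0),(0,3),(10,1),(5,3)]⟩⟩]⟩) (.I [0,1,0,1,0,0,0,-1,1] (.R ⟨1,false,false,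
  true,[1,0,0,-1],[1,0,-1],[1,0,0,-1,0,0,0,0,-1],(⟨1,[(10,0),(4,0),(9,0)]⟩,⟨0,[(26,0)]⟩),(⟨0,[(34,
  0)]⟩,⟨0,[(35,0)]⟩),⟨3,[(7,0),(9,0),(7,1),(11,0)]⟩,.k,.k,(.r (-1) ⟨3,[(2,1),(13,1),(6,0),(18,0)]⟩
  ⟨0,[(4,0),(36,0)]⟩),.k,(.r (-1) ⟨1,[(16,0),(6,0),(9,0)]⟩ ⟨0,[(0,0),(38,0)]⟩),.k,⟨false,1,⟨1,[(6,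
  1),(16,0),(18,0)]⟩,⟨0,[(0,0)]⟩⟩,⟨true,0,⟨1,[(22,0),(2,0)]⟩,⟨0,[(26,0),(4,0)]⟩⟩,⟨false,1,⟨2,[(8,0),
  (9,0),(13,0),(10,1)]⟩,⟨0,[(41,0)]⟩⟩,⟨false,0,⟨1,[(1,1),(3,0),(19,0)]⟩,⟨1,[(9,1),(13,0),(2,1),(4,
  1),(10,0)]⟩⟩,⟨true,0,⟨0,[]⟩,⟨0,[(45,0)]⟩⟩,⟨false,0,⟨1,[(0,1),(4,0),(3,1),(15,0)]⟩,⟨1,[(6,1),(16,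
  0),(2,1),(4,1),(10,0)]⟩⟩,[.o ⟨false,0,⟨0,[(27,0)]⟩,⟨1,[(10,1),(25,0),(6,0)]⟩⟩,.a ⟨true,0,⟨0,[(15,
  0)]⟩,⟨0,[(10,0)]⟩⟩ ⟨false,1,⟨0,[(2,0),(3,0),(35,0)]⟩,⟨0,[(0,0),(32,0)]⟩⟩ ⟨true,0,⟨1,[(5,0),(19,
  0)]⟩,⟨0,[(26,0),(4,0),(1,0)]⟩⟩,.e ⟨false,1,⟨23,[(2,5),(3,11),(1,1),(9,7),(4,8),(8,1),(10,6)]⟩,⟨0,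
  [(0,0),(8,0)]⟩⟩ ⟨false,0,⟨1,[(5,0),(19,0)]⟩,⟨1,[(10,1),(15,1),(9,0),(6,0)]⟩⟩,.o ⟨false,0,⟨0,[(20,
  0),(5,0),(4,0)]⟩,⟨7,[(23,0),(0,0),(0,3),(10,1),(5,3)]⟩⟩]⟩) (.Q [0,0,0,0,0,0,0,0,-1,0,0,1] (.p
  true [0,0,0,1] [] (⟨0,[(26,0)]⟩,⟨1,[(10,0),(4,0),(9,0)]⟩) .k 0 (⟨0,[]⟩,⟨0,[]⟩) .k .k) (.R ⟨2,
  false,false,false,[0,1],[1,0,0,-1],[1,1,1],(⟨0,[]⟩,⟨0,[]⟩),(⟨1,[(11,0),(4,0),(9,0)]⟩,⟨0,[(27,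
  0)]⟩),⟨0,[]⟩,.k,.k,.k,(.r 0 ⟨0,[(5,0),(36,0)]⟩ ⟨25,[(0,3),(0,3),(7,1),(4,1),(2,3),(1,7),(4,8),(1,
  1),(16,4)]⟩),.k,.k,⟨false,0,⟨0,[(4,0)]⟩,⟨5,[(1,3),(11,1),(10,0),(17,1),(0,3),(0,0)]⟩⟩,⟨true,0,⟨0,
  [(21,0),(5,0),(4,0)]⟩,⟨1,[(11,0),(4,0),(9,0)]⟩⟩,⟨true,0,⟨0,[(41,0)]⟩,⟨0,[(42,0)]⟩⟩,⟨false,1,⟨4,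
  [(0,2),(0,1),(4,0),(2,0),(9,0),(7,1),(4,0),(4,1),(6,1)]⟩,⟨1,[(2,1),(8,0),(4,0),(9,0),(15,1)]⟩⟩,
  ⟨false,0,⟨0,[]⟩,⟨3,[(24,0),(0,0),(18,1)]⟩⟩,⟨false,1,⟨1,[(0,1),(36,0),(6,0)]⟩,⟨1,[(2,1),(8,0),(4,
  0),(9,0)]⟩⟩,[.a ⟨true,0,⟨0,[(0,0)]⟩,⟨1,[(2,1),(8,0),(4,0),(9,0)]⟩⟩ ⟨false,0,⟨0,[(46,0)]⟩,⟨1,[(43,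
  0),(0,0)]⟩⟩ ⟨true,0,⟨0,[(0,0),(20,0),(10,0)]⟩,⟨1,[(2,1),(8,0),(4,0),(9,0)]⟩⟩,.o ⟨false,1,⟨1,[(0,
  1),(36,0),(6,0)]⟩,⟨1,[(2,1),(23,0),(1,0),(1,0)]⟩⟩,.o ⟨false,1,⟨3,[(24,0),(0,0),(17,1)]⟩,⟨0,[(21,
  0),(10,0)]⟩⟩,.e ⟨false,0,⟨0,[]⟩,⟨3,[(24,0),(0,0),(18,1)]⟩⟩ ⟨false,1,⟨1,[(0,1),(36,0),(6,0)]⟩,⟨1,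
  [(2,1),(8,0),(4,0),(9,0)]⟩⟩]⟩) (.I [0,1,0,0,0,0,0,0,-1] (.R ⟨1,false,false,true,[1,0,0,-1],[0,0,0,
  1],[0,1,0,0,0,0,0,0,-1],(⟨1,[(12,0),(4,0),(9,0)]⟩,⟨0,[(28,0)]⟩),(⟨0,[(28,0)]⟩,⟨1,[(12,0),(4,0),(9,
  0)]⟩),⟨3,[(9,0),(9,0),(7,1),(11,0)]⟩,.k,.k,(.r (-1) ⟨9,[(0,1),(1,1),(15,1),(1,3),(4,2),(18,0)]⟩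
  ⟨0,[(6,0),(36,0)]⟩),.k,(.r (-1) ⟨5,[(0,3),(1,3),(1,1),(15,1),(4,0),(18,2)]⟩ ⟨0,[(3,0),(2,0),(36,
  0)]⟩),.k,⟨false,1,⟨2,[(0,1),(1,1),(11,0),(10,0),(17,0),(0,1)]⟩,⟨0,[(3,1)]⟩⟩,⟨true,0,⟨0,[(27,0)]⟩,
  ⟨0,[(22,0),(5,1),(4,0)]⟩⟩,⟨true,0,⟨0,[(47,0)]⟩,⟨0,[]⟩⟩,⟨false,0,⟨0,[(3,1),(23,0)]⟩,⟨5,[(0,1),(1,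
  7),(11,3),(10,0),(2,11),(9,2),(4,3),(0,1)]⟩⟩,⟨false,0,⟨0,[(43,0)]⟩,⟨2,[(10,0),(9,0),(13,0),(10,
  1)]⟩⟩,⟨false,0,⟨0,[(3,1),(23,0),(15,0)]⟩,⟨1,[(2,1),(1,1),(23,3),(9,0),(5,0)]⟩⟩,[.o ⟨false,0,⟨3,
  [(1,1),(3,1),(21,0),(1,0),(1,0)]⟩,⟨5,[(2,3),(11,1),(10,0),(2,5),(9,2),(4,1),(0,0),(0,0)]⟩⟩,.o
  ⟨false,0,⟨0,[(1,0)]⟩,⟨1,[(25,0),(2,1),(9,0)]⟩⟩,.a ⟨true,0,⟨0,[(28,0)]⟩,⟨1,[(12,0),(4,0),(9,0)]⟩⟩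
  ⟨true,0,⟨0,[(0,0)]⟩,⟨0,[(3,0)]⟩⟩ ⟨false,0,⟨0,[(3,0),(23,0)]⟩,⟨5,[(2,3),(11,1),(10,0),(2,11),(9,2),
  (4,1),(0,0),(0,0)]⟩⟩,.o ⟨false,0,⟨0,[(22,0),(5,0),(4,0)]⟩,⟨7,[(25,0),(0,0),(0,3),(10,1),(5,
  3)]⟩⟩]⟩) (.Q [0,1,0,0,0,0,0,0,-1,0,0,1] (.p true [0,0,0,1] [] (⟨0,[(28,0)]⟩,⟨1,[(12,0),(4,0),(9,
  0)]⟩) .k 0 (⟨0,[]⟩,⟨0,[]⟩) .k .k) (.K ⟨1,[0,0,0,1],0,0,(⟨0,[(29,0)]⟩,⟨1,[(13,0),(4,0),(9,0)]⟩),.k,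
  (.r (-1) ⟨5,[(1,0),(4,0),(12,1),(1,1),(5,1)]⟩ ⟨0,[(5,0),(30,0),(7,0)]⟩),(.r 0 ⟨0,[(7,0),(36,0)]⟩
  ⟨33,[(0,3),(2,7),(7,1),(4,1),(2,3),(1,11),(4,10),(1,1),(16,6)]⟩),.k,.k,[⟨1,[(29,1),(4,0),(0,0)]⟩,
  ⟨1,[(28,0),(2,0),(2,0)]⟩,⟨0,[(0,0)]⟩,⟨1,[(1,1),(11,0),(4,0),(9,0)]⟩]⟩) (.Q [0,1,0,1,0,0,0,0,-1,0,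
  0,1] (.p true [0,0,0,1] [] (⟨0,[(29,0)]⟩,⟨1,[(13,0),(4,0),(9,0)]⟩) .k 0 (⟨0,[]⟩,⟨0,[]⟩) .k .k)
  (.R ⟨1,false,false,false,[1,0,0,-1],[1,-1],[1],(⟨1,[(14,0),(4,0),(9,0)]⟩,⟨0,[(30,0)]⟩),(⟨0,[(41,
  0)]⟩,⟨0,[(42,0)]⟩),⟨3,[(11,0),(9,0),(7,1),(11,0)]⟩,.k,.k,(.r (-1) ⟨29,[(0,3),(3,7),(7,1),(4,1),(2,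
  3),(1,11),(4,8),(1,1),(16,4)]⟩ ⟨0,[(8,0),(36,0)]⟩),(.r 0 ⟨3,[(0,1),(3,0),(1,0),(22,0),(2,0),(2,0),
  (7,0),(1,2)]⟩ ⟨5,[(2,0),(4,0),(12,1),(1,1),(5,1)]⟩),.k,.k,⟨false,0,⟨0,[(45,0)]⟩,⟨5,[(20,1),(1,1),
  (4,0),(0,0)]⟩⟩,⟨true,0,⟨1,[(29,0),(2,0),(2,0)]⟩,⟨0,[(30,0)]⟩⟩,⟨false,0,⟨0,[(2,0)]⟩,⟨3,[(27,2),(0,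
  0)]⟩⟩,⟨true,0,⟨2,[(2,1),(0,0),(8,0),(4,0),(11,0)]⟩,⟨0,[(0,0)]⟩⟩,⟨false,0,⟨0,[(2,0),(42,0)]⟩,⟨5,
  [(12,1),(9,1),(4,2),(8,1),(10,0)]⟩⟩,⟨false,0,⟨0,[(1,0)]⟩,⟨3,[(27,2),(0,0),(1,3)]⟩⟩,[.o ⟨false,1,
  ⟨11,[(12,3),(9,3),(4,0),(0,0),(3,3),(7,3),(6,1)]⟩,⟨0,[(45,0)]⟩⟩,.o ⟨false,1,⟨12,[(2,1),(1,1),(4,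
  2),(2,4),(9,0),(12,0),(4,4),(6,6)]⟩,⟨5,[(0,1),(6,1),(21,0),(1,0),(1,0),(11,3)]⟩⟩,.a ⟨true,0,⟨0,
  [(30,0)]⟩,⟨1,[(14,0),(4,0),(9,0)]⟩⟩ ⟨true,0,⟨0,[]⟩,⟨0,[(49,0)]⟩⟩ ⟨false,1,⟨11,[(12,3),(4,1),(4,1),
  (6,5),(2,1),(7,0),(6,8)]⟩,⟨0,[(0,0),(1,0)]⟩⟩,.o ⟨false,0,⟨0,[(24,0),(5,0),(4,0)]⟩,⟨7,[(27,0),(0,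
  0),(0,3),(10,1),(5,3)]⟩⟩]⟩) (.Q [0,1,0,-1,0,0,0,0,0,-1,0,1] (.p true [0,0,0,1] [1] (⟨0,[(30,0)]⟩,
  ⟨1,[(14,0),(4,0),(9,0)]⟩) .k 1 (⟨0,[]⟩,⟨0,[]⟩) .k .k) (.Q [0,0,0,0,0,1,0,0,0,0,0,-1] (.p false [0,
  0,0,1] [] (⟨0,[(31,0)]⟩,⟨1,[(15,0),(4,0),(9,0)]⟩) .k 0 (⟨0,[]⟩,⟨0,[]⟩) .k .k) (.R ⟨0,false,false,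
  true,[0,0,0,1],[1,-1],[1,0,0,0,0,0,0,0,1],(⟨0,[(32,0)]⟩,⟨1,[(16,0),(4,0),(9,0)]⟩),(⟨0,[(43,0)]⟩,
  ⟨0,[(44,0)]⟩),⟨0,[(0,0)]⟩,.k,.k,(.r (-1) ⟨5,[(4,0),(4,0),(12,1),(1,1),(5,1)]⟩ ⟨0,[(8,0),(30,0),(7,
  0)]⟩),(.r 0 ⟨0,[(10,0),(36,0)]⟩ ⟨3,[(8,1),(13,1),(6,0),(18,0)]⟩),.k,.k,⟨false,0,⟨0,[(4,0),(42,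
  0)]⟩,⟨1,[(29,0),(16,1),(1,0)]⟩⟩,⟨true,0,⟨0,[(26,0),(5,0),(4,0)]⟩,⟨1,[(16,0),(4,0),(9,0)]⟩⟩,⟨true,
  0,⟨0,[]⟩,⟨0,[(51,0)]⟩⟩,⟨false,1,⟨1,[(1,1),(27,0),(19,0)]⟩,⟨1,[(4,1),(11,0),(4,0),(9,0),(15,1)]⟩⟩,
  ⟨false,0,⟨0,[]⟩,⟨0,[]⟩⟩,⟨false,0,⟨0,[]⟩,⟨0,[]⟩⟩,[.e ⟨true,0,⟨0,[(7,0)]⟩,⟨0,[(8,0),(30,0)]⟩⟩ ⟨true,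
  0,⟨0,[(1,0)]⟩,⟨1,[(16,0),(4,0),(9,0),(13,1),(1,1)]⟩⟩,.o ⟨false,1,⟨11,[(14,3),(9,3),(4,0),(0,0),(3,
  3),(7,3),(6,1)]⟩,⟨0,[(47,0)]⟩⟩,.a ⟨true,0,⟨1,[(16,0),(4,0),(9,0)]⟩,⟨0,[(32,0)]⟩⟩ ⟨false,0,⟨0,[(4,
  0)]⟩,⟨3,[(29,2),(0,0)]⟩⟩ ⟨true,0,⟨0,[(1,0)]⟩,⟨1,[(16,0),(4,0),(9,0),(15,1)]⟩⟩,.o ⟨false,0,⟨1,[(31,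
  0),(2,0),(2,0)]⟩,⟨1,[(32,1),(9,0),(5,0)]⟩⟩]⟩) (.R ⟨1,false,false,true,[0,0,0,1],[1,-1],[1,0,0,-1,
  0,0,0,0,1],(⟨0,[(32,0)]⟩,⟨1,[(16,0),(4,0),(9,0)]⟩),(⟨0,[(43,0)]⟩,⟨0,[(44,0)]⟩),⟨0,[(0,0)]⟩,.k,.k,
  (.r (-1) ⟨5,[(4,0),(4,0),(12,1),(1,1),(5,1)]⟩ ⟨0,[(8,0),(30,0),(7,0)]⟩),(.r 0 ⟨0,[(10,0),(36,0)]⟩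
  ⟨3,[(8,1),(13,1),(6,0),(18,0)]⟩),.k,.k,⟨false,0,⟨0,[(4,0)]⟩,⟨1,[(29,0),(18,0),(2,1)]⟩⟩,⟨true,0,⟨0,
  [(26,0),(5,0),(4,0)]⟩,⟨1,[(16,0),(4,0),(9,0)]⟩⟩,⟨false,1,⟨2,[(14,0),(9,0),(13,0),(10,1)]⟩,⟨0,[(47,
  0)]⟩⟩,⟨false,1,⟨1,[(1,1),(27,0),(19,0)]⟩,⟨1,[(4,1),(11,0),(4,0),(9,0),(15,1)]⟩⟩,⟨true,0,⟨0,[]⟩,⟨0,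
  [(51,0)]⟩⟩,⟨false,1,⟨1,[(29,0),(2,1),(9,0)]⟩,⟨1,[(4,1),(11,0),(4,0),(9,0)]⟩⟩,[.e ⟨true,0,⟨0,[(4,
  0),(41,0)]⟩,⟨0,[(8,0),(30,0),(7,0)]⟩⟩ ⟨true,0,⟨0,[(1,0)]⟩,⟨1,[(16,0),(4,0),(9,0),(13,1),(1,1)]⟩⟩,
  .o ⟨false,1,⟨11,[(14,3),(9,3),(4,0),(0,0),(3,3),(7,3),(6,1)]⟩,⟨0,[(47,0)]⟩⟩,.a ⟨true,0,⟨1,[(16,0),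
  (4,0),(9,0)]⟩,⟨0,[(32,0)]⟩⟩ ⟨false,0,⟨0,[(2,0),(29,0)]⟩,⟨3,[(29,2),(0,0),(16,3)]⟩⟩ ⟨true,0,⟨0,[(1,
  0)]⟩,⟨1,[(16,0),(4,0),(9,0),(15,1)]⟩⟩,.o ⟨false,0,⟨1,[(31,0),(2,0),(2,0)]⟩,⟨1,[(32,1),(9,0),(5,
  0)]⟩⟩]⟩)) (.Q [0,0,0,0,0,1,0,0,0,0,0,-1] (.p false [0,0,0,1] [] (⟨0,[(31,0)]⟩,⟨1,[(15,0),(4,0),(9,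
  0)]⟩) .k 0 (⟨0,[]⟩,⟨0,[]⟩) .k .k) (.R ⟨0,false,false,true,[0,0,0,1],[1,-1],[1,0,0,0,0,0,0,0,1],
  (⟨0,[(32,0)]⟩,⟨1,[(16,0),(4,0),(9,0)]⟩),(⟨0,[(43,0)]⟩,⟨0,[(44,0)]⟩),⟨0,[(0,0)]⟩,.k,.k,(.r (-1) ⟨5,
  [(4,0),(4,0),(12,1),(1,1),(5,1)]⟩ ⟨0,[(8,0),(30,0),(7,0)]⟩),(.r 0 ⟨0,[(10,0),(36,0)]⟩ ⟨3,[(8,1),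
  (13,1),(6,0),(18,0)]⟩),.k,.k,⟨false,0,⟨0,[(4,0),(42,0)]⟩,⟨1,[(29,0),(16,1),(1,0)]⟩⟩,⟨true,0,⟨0,
  [(26,0),(5,0),(4,0)]⟩,⟨1,[(16,0),(4,0),(9,0)]⟩⟩,⟨true,0,⟨0,[]⟩,⟨0,[(51,0)]⟩⟩,⟨false,1,⟨23,[(6,3),
  (1,1),(5,5),(4,5),(4,1),(4,8),(2,23),(9,8),(6,3)]⟩,⟨1,[(1,1),(2,0),(4,0)]⟩⟩,⟨false,0,⟨0,[]⟩,⟨0,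
  []⟩⟩,⟨false,0,⟨0,[]⟩,⟨0,[]⟩⟩,[.a ⟨true,0,⟨0,[(46,0)]⟩,⟨0,[(1,0),(30,0)]⟩⟩ ⟨true,0,⟨0,[(7,0)]⟩,⟨0,
  [(8,0),(30,0)]⟩⟩ ⟨false,1,⟨11,[(14,1),(4,1),(2,1),(1,1),(7,11),(9,4),(5,2),(2,7)]⟩,⟨0,[(1,0)]⟩⟩,
  .o ⟨false,1,⟨11,[(14,3),(9,3),(4,0),(0,0),(3,3),(7,3),(6,1)]⟩,⟨0,[(47,0)]⟩⟩,.e ⟨false,0,⟨0,[(4,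
  0)]⟩,⟨3,[(29,2),(0,0)]⟩⟩ ⟨false,1,⟨11,[(14,3),(9,3),(4,0),(0,0),(1,11),(1,3),(7,3),(6,1)]⟩,⟨0,[(1,
  0)]⟩⟩,.o ⟨false,0,⟨1,[(31,0),(2,0),(2,0)]⟩,⟨1,[(32,1),(9,0),(5,0)]⟩⟩]⟩) (.R ⟨1,false,false,true,
  [0,0,0,1],[1,-1],[1,0,0,-1,0,0,0,0,1],(⟨0,[(32,0)]⟩,⟨1,[(16,0),(4,0),(9,0)]⟩),(⟨0,[(43,0)]⟩,⟨0,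
  [(44,0)]⟩),⟨0,[(0,0)]⟩,.k,.k,(.r (-1) ⟨5,[(4,0),(4,0),(12,1),(1,1),(5,1)]⟩ ⟨0,[(8,0),(30,0),(7,
  0)]⟩),(.r 0 ⟨0,[(10,0),(36,0)]⟩ ⟨3,[(8,1),(13,1),(6,0),(18,0)]⟩),.k,.k,⟨false,0,⟨0,[(4,0)]⟩,⟨1,
  [(29,0),(18,0),(2,1)]⟩⟩,⟨true,0,⟨0,[(26,0),(5,0),(4,0)]⟩,⟨1,[(16,0),(4,0),(9,0)]⟩⟩,⟨false,1,⟨2,
  [(14,0),(9,0),(13,0),(10,1)]⟩,⟨0,[(47,0)]⟩⟩,⟨false,1,⟨23,[(6,3),(1,1),(5,5),(4,5),(4,1),(4,8),(2,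
  23),(9,8),(6,3)]⟩,⟨1,[(1,1),(2,0),(4,0)]⟩⟩,⟨true,0,⟨0,[]⟩,⟨0,[(51,0)]⟩⟩,⟨false,1,⟨1,[(29,0),(2,1),
  (9,0)]⟩,⟨1,[(4,1),(11,0),(4,0),(9,0)]⟩⟩,[.a ⟨true,0,⟨0,[(46,0)]⟩,⟨0,[(1,0),(30,0)]⟩⟩ ⟨true,0,⟨0,
  [(4,0),(41,0)]⟩,⟨0,[(8,0),(30,0),(7,0)]⟩⟩ ⟨false,1,⟨11,[(14,1),(4,1),(2,1),(1,1),(7,11),(9,4),(5,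
  2),(2,7)]⟩,⟨0,[(1,0)]⟩⟩,.o ⟨false,1,⟨11,[(14,3),(9,3),(4,0),(0,0),(3,3),(7,3),(6,1)]⟩,⟨0,[(47,
  0)]⟩⟩,.e ⟨false,0,⟨0,[(2,0),(29,0)]⟩,⟨3,[(29,2),(0,0),(16,3)]⟩⟩ ⟨false,1,⟨11,[(14,3),(9,3),(4,0),
  (0,0),(1,11),(1,3),(7,3),(6,1)]⟩,⟨0,[(1,0)]⟩⟩,.o ⟨false,0,⟨1,[(31,0),(2,0),(2,0)]⟩,⟨1,[(32,1),(9,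
  0),(5,0)]⟩⟩]⟩)))))))))) (.R ⟨1,false,false,true,[1,0,0,-1],[1,-1],[0,0,0,0,0,0,0,0,-1],(⟨1,[(7,0),
  (4,0),(9,0)]⟩,⟨0,[(23,0)]⟩),(⟨0,[(34,0)]⟩,⟨0,[(35,0)]⟩),⟨3,[(4,0),(9,0),(7,1),(11,0)]⟩,.k,.k,(.r
  (-1) ⟨7,[(0,1),(12,1),(1,1),(4,2),(16,1),(1,0)]⟩ ⟨0,[(1,0),(36,0)]⟩),(.x (-1) ⟨3,[(20,0),(0,0),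
  (13,3),(3,1)]⟩ ⟨5,[(4,1),(9,1),(10,1),(2,2),(0,0)]⟩),.k,.k,⟨false,0,⟨0,[(0,0),(37,0)]⟩,⟨1,[(21,0),
  (15,1),(1,0)]⟩⟩,⟨true,0,⟨1,[(22,0),(2,0),(2,0)]⟩,⟨0,[(23,0)]⟩⟩,⟨false,1,⟨3,[(20,0),(0,0),(18,1)]⟩,
  ⟨0,[]⟩⟩,⟨false,1,⟨11,[(5,3),(4,1),(4,1),(5,5),(0,5),(2,1),(7,0),(6,2)]⟩,⟨0,[(0,0),(22,0),(14,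
  0)]⟩⟩,⟨true,0,⟨0,[(38,0)]⟩,⟨0,[(37,0)]⟩⟩,⟨false,1,⟨7,[(20,0),(0,4),(0,3),(10,1)]⟩,⟨0,[(0,0),(22,
  0)]⟩⟩,[.e ⟨true,0,⟨0,[(0,0),(41,0)]⟩,⟨0,[(1,0)]⟩⟩ ⟨true,0,⟨3,[(5,0),(4,1),(11,1),(3,0)]⟩,⟨0,[(23,
  0),(12,0),(1,0)]⟩⟩,.o ⟨false,1,⟨11,[(5,3),(9,3),(4,0),(0,0),(3,3),(7,3),(6,1)]⟩,⟨0,[(38,0)]⟩⟩,.a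
  ⟨true,0,⟨0,[(23,0)]⟩,⟨1,[(7,0),(4,0),(9,0)]⟩⟩ ⟨false,0,⟨0,[(0,0)]⟩,⟨3,[(20,0),(0,2)]⟩⟩ ⟨true,0,⟨3,
  [(5,0),(4,1),(11,1),(3,0)]⟩,⟨0,[(23,0),(14,0)]⟩⟩,.o ⟨false,0,⟨0,[(17,0),(5,0),(4,0)]⟩,⟨7,[(20,0),
  (0,0),(0,3),(10,1),(5,3)]⟩⟩]⟩))) (.R ⟨1,true,false,true,[0,0,1],[1,0,-1],[0,0,0,0,0,0,0,1],(⟨0,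
  [(30,0)]⟩,⟨0,[(29,0)]⟩),(⟨0,[(29,0)]⟩,⟨0,[(30,0)]⟩),⟨0,[(9,0)]⟩,.k,.k,.k,.k,(.r (-1) ⟨3,[(11,1),
  (6,0),(0,0),(8,5)]⟩ ⟨0,[(7,0)]⟩),.k,⟨true,0,⟨0,[(4,0),(23,0)]⟩,⟨0,[(7,0),(27,0)]⟩⟩,⟨false,0,⟨0,
  [(6,0)]⟩,⟨5,[(0,5),(6,3),(5,3),(4,0),(0,0)]⟩⟩,⟨false,1,⟨3,[(18,0),(0,0),(18,1)]⟩,⟨0,[]⟩⟩,⟨true,0,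
  ⟨1,[(6,0),(0,0),(0,0),(16,0)]⟩,⟨0,[(0,0)]⟩⟩,⟨true,0,⟨0,[(36,0)]⟩,⟨0,[(35,0)]⟩⟩,⟨false,0,⟨0,[(6,0),
  (0,0)]⟩,⟨7,[(0,3),(2,3),(1,3),(12,0),(0,0),(18,5)]⟩⟩,[]⟩)))))) (.Q [0,-1,0,0,0,0,-1,-1,-1,-1,1,1]
  (.p true [0,0,1] [1,0,0,-1] (⟨0,[(25,0)]⟩,⟨0,[(24,0)]⟩) .k 2 (⟨1,[(15,0),(8,0),(0,0)]⟩,⟨0,[(16,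
  0)]⟩) .k (.x (-1) ⟨7,[(11,3),(1,0),(0,0),(4,3),(1,3),(3,7),(7,1)]⟩ ⟨0,[(10,0),(13,0)]⟩)) (.I [0,0,
  0,1,0,0,0,-1,-1] (.R ⟨1,false,false,true,[1,0,0,-1],[0,-1,1],[0,1,0,0,0,0,0,0,-1],(⟨1,[(17,0),(8,
  0),(0,0)]⟩,⟨0,[(18,0)]⟩),(⟨0,[(6,0)]⟩,⟨0,[(26,0),(3,0)]⟩),⟨1,[(6,0),(2,0),(7,0)]⟩,.k,.k,(.x 0 ⟨1,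
  [(6,0),(2,0),(10,0),(2,0)]⟩ ⟨3,[(15,0),(0,0),(13,3),(3,1)]⟩),(.r 0 ⟨1,[(0,1),(22,0),(0,0)]⟩ ⟨1,
  [(8,0),(7,0),(8,0)]⟩),.k,.k,⟨false,0,⟨0,[(0,0)]⟩,⟨1,[(8,0),(7,0),(8,0)]⟩⟩,⟨true,0,⟨1,[(17,0),(5,
  1),(2,0),(0,0)]⟩,⟨0,[(12,0),(5,0)]⟩⟩,⟨true,0,⟨0,[(37,0)]⟩,⟨0,[]⟩⟩,⟨false,1,⟨1,[(11,1),(4,0),(0,0),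
  (8,0),(0,0),(7,0)]⟩,⟨0,[(1,0),(31,0)]⟩⟩,⟨false,0,⟨0,[(33,0)]⟩,⟨0,[(32,0),(2,0)]⟩⟩,⟨false,1,⟨1,
  [(16,0),(0,0),(3,1),(4,0),(0,0),(7,0)]⟩,⟨0,[(1,0)]⟩⟩,[.o ⟨false,0,⟨0,[(11,0)]⟩,⟨3,[(0,1),(2,0),(0,
  0),(9,0),(1,0),(11,0),(4,0),(1,1)]⟩⟩,.o ⟨false,1,⟨3,[(11,3),(3,0),(0,0),(18,1)]⟩,⟨0,[(2,0),(30,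
  0)]⟩⟩,.a ⟨true,0,⟨0,[(18,0)]⟩,⟨1,[(17,0),(8,0),(0,0)]⟩⟩ ⟨false,0,⟨3,[(0,1),(0,1),(9,1),(5,0),(7,
  1),(0,0),(0,0)]⟩,⟨1,[(16,0),(18,0)]⟩⟩ ⟨true,0,⟨1,[(11,1),(5,0),(8,0),(0,0)]⟩,⟨0,[(2,0),(15,0),(14,
  0)]⟩⟩,.o ⟨false,0,⟨0,[(12,0),(5,0),(4,0)]⟩,⟨7,[(15,0),(0,0),(0,3),(10,1),(5,3)]⟩⟩]⟩) (.I [0,1,0,0,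
  0,0,0,0,1] (.R ⟨1,false,false,false,[1,0,0,-1],[1,-1],[0,0,0,0,0,0,0,0,-1],(⟨1,[(18,0),(8,0),(0,
  0)]⟩,⟨0,[(19,0)]⟩),(⟨0,[(30,0)]⟩,⟨0,[(31,0)]⟩),⟨1,[(7,0),(2,0),(7,0)]⟩,.k,.k,(.r (-1) ⟨7,[(2,1),
  (6,1),(1,1),(0,1),(3,2),(1,0),(8,0),(0,0),(6,0)]⟩ ⟨0,[(0,0),(31,0),(1,0)]⟩),(.r 0 ⟨1,[(2,1),(15,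
  0),(3,1),(1,0),(0,0),(1,0),(0,0),(5,1)]⟩ ⟨3,[(1,1),(9,1),(5,0),(17,0)]⟩),.k,.k,⟨false,0,⟨1,[(2,1),
  (15,0),(3,1),(4,0),(0,0),(5,1)]⟩,⟨3,[(1,1),(9,1),(5,0),(17,0)]⟩⟩,⟨true,0,⟨1,[(18,0),(2,0),(2,0)]⟩,
  ⟨0,[(19,0)]⟩⟩,⟨false,1,⟨3,[(16,0),(0,0),(18,1)]⟩,⟨0,[]⟩⟩,⟨false,1,⟨7,[(1,5),(1,3),(7,1),(5,0),(0,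
  3),(5,3),(10,0),(0,3)]⟩,⟨0,[(2,0),(19,0),(4,0),(0,0),(5,0)]⟩⟩,⟨true,0,⟨0,[(34,0)]⟩,⟨0,[(33,0)]⟩⟩,
  ⟨false,1,⟨3,[(1,1),(1,1),(13,0),(0,1),(5,1),(9,1),(0,0),(0,1)]⟩,⟨0,[(2,0),(19,0),(4,0),(0,0)]⟩⟩,
  [.o ⟨false,1,⟨1,[(29,0),(3,1),(2,0)]⟩,⟨0,[(34,0)]⟩⟩,.o ⟨false,1,⟨3,[(3,1),(5,1),(14,1),(4,0),(2,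
  1),(3,0)]⟩,⟨0,[(34,0),(3,0)]⟩⟩,.a ⟨true,0,⟨0,[(19,0)]⟩,⟨1,[(18,0),(8,0),(0,0)]⟩⟩ ⟨true,0,⟨1,[(2,
  1),(15,0),(3,1),(4,0),(0,0)]⟩,⟨0,[(0,0)]⟩⟩ ⟨false,1,⟨5,[(6,1),(2,1),(8,2),(2,0),(2,2),(11,3)]⟩,⟨0,
  [(19,0),(14,0)]⟩⟩,.o ⟨false,0,⟨0,[(13,0),(5,0),(4,0)]⟩,⟨7,[(16,0),(0,0),(0,3),(10,1),(5,3)]⟩⟩]⟩)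
  (.R ⟨1,false,false,true,[1,0,0,-1],[1,-1],[0,1,0,0,0,0,0,0,-1],(⟨1,[(18,0),(8,0),(0,0)]⟩,⟨0,[(19,
  0)]⟩),(⟨0,[(30,0)]⟩,⟨0,[(31,0)]⟩),⟨1,[(7,0),(2,0),(7,0)]⟩,.k,.k,(.r (-1) ⟨7,[(0,1),(8,1),(1,1),(4,
  2),(16,1),(1,0)]⟩ ⟨3,[(1,3),(3,1),(18,0),(0,0),(8,5)]⟩),(.r 0 ⟨2,[(0,2),(4,0),(16,1),(2,1),(8,1),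
  (3,0)]⟩ ⟨3,[(1,1),(9,1),(5,0),(17,0)]⟩),.k,.k,⟨false,0,⟨0,[(0,0),(33,0),(3,0)]⟩,⟨3,[(1,1),(9,1),
  (5,0),(17,0)]⟩⟩,⟨true,0,⟨1,[(18,0),(2,0),(2,0)]⟩,⟨0,[(19,0)]⟩⟩,⟨true,0,⟨0,[(38,0)]⟩,⟨0,[]⟩⟩,
  ⟨false,1,⟨15,[(1,3),(4,1),(4,1),(5,5),(0,7),(5,1),(4,2),(3,7),(2,4)]⟩,⟨0,[(0,0),(18,0),(14,0)]⟩⟩,
  ⟨false,0,⟨0,[(34,0)]⟩,⟨0,[(33,0),(2,0)]⟩⟩,⟨false,1,⟨7,[(16,0),(0,4),(0,3),(10,1)]⟩,⟨0,[(0,0),(18,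
  0)]⟩⟩,[.o ⟨false,0,⟨0,[(3,0),(8,0)]⟩,⟨3,[(16,0),(0,0),(16,3),(1,1)]⟩⟩,.o ⟨false,1,⟨1,[(29,0),(3,
  1),(2,0)]⟩,⟨0,[(34,0)]⟩⟩,.a ⟨true,0,⟨0,[(19,0)]⟩,⟨1,[(18,0),(8,0),(0,0)]⟩⟩ ⟨false,0,⟨0,[(0,0),(37,
  0)]⟩,⟨1,[(17,0),(18,0)]⟩⟩ ⟨true,0,⟨1,[(6,0),(5,0),(5,0)]⟩,⟨0,[(19,0),(14,0)]⟩⟩,.o ⟨false,0,⟨0,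
  [(13,0),(5,0),(4,0)]⟩,⟨7,[(16,0),(0,0),(0,3),(10,1),(5,3)]⟩⟩]⟩))) (.I [1,-1,0,0,0,0,0,0,1] (.I [1,
  0,0,0,0,0,0,-1,1] (.R ⟨1,false,false,false,[1,0,0,-1],[1,0,-1],[0,0,0,0,0,0,0,0,-1],(⟨1,[(18,0),
  (8,0),(0,0)]⟩,⟨0,[(19,0)]⟩),(⟨0,[(27,0)]⟩,⟨0,[(28,0)]⟩),⟨1,[(7,0),(2,0),(7,0)]⟩,.k,.k,(.x 0 ⟨1,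
  [(7,0),(2,0),(10,0),(2,0)]⟩ ⟨3,[(16,0),(0,0),(13,3),(3,1)]⟩),.k,(.r (-1) ⟨1,[(9,0),(6,0),(9,0)]⟩
  ⟨4,[(0,0),(0,1),(0,1),(2,2),(13,1),(1,1),(12,1)]⟩),.k,⟨false,1,⟨1,[(16,0),(9,1),(8,0)]⟩,⟨0,[(0,
  0)]⟩⟩,⟨true,0,⟨1,[(15,0),(2,0)]⟩,⟨0,[(19,0),(4,0)]⟩⟩,⟨false,1,⟨3,[(16,0),(0,0),(18,1)]⟩,⟨0,[]⟩⟩,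
  ⟨false,0,⟨1,[(1,1),(1,0),(4,0),(9,0)]⟩,⟨1,[(16,0),(2,1),(2,1),(13,0)]⟩⟩,⟨true,0,⟨0,[(34,0)]⟩,⟨0,
  [(33,0)]⟩⟩,⟨false,0,⟨1,[(1,1),(2,0),(0,0),(12,0),(15,0)]⟩,⟨1,[(12,1),(3,0),(2,1),(16,0)]⟩⟩,[.o
  ⟨false,0,⟨0,[(3,0)]⟩,⟨3,[(16,0),(0,0),(4,3),(13,1)]⟩⟩,.o ⟨false,1,⟨3,[(3,1),(19,1),(5,0),(6,2)]⟩,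
  ⟨0,[(22,0)]⟩⟩,.a ⟨true,0,⟨0,[(19,0)]⟩,⟨1,[(18,0),(8,0),(0,0)]⟩⟩ ⟨false,1,⟨1,[(16,0),(19,0)]⟩,⟨7,
  [(0,2),(0,2),(0,1),(1,0),(14,1),(1,0),(0,0)]⟩⟩ ⟨true,0,⟨1,[(3,0),(4,0),(9,0)]⟩,⟨0,[(19,0),(2,
  0)]⟩⟩,.o ⟨false,0,⟨0,[(13,0),(5,0),(4,0)]⟩,⟨7,[(16,0),(0,0),(0,3),(10,1),(5,3)]⟩⟩]⟩) (.Q [0,0,0,0,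
  0,1,0,0,0,0,0,-1] (.p false [0,0,0,1] [] (⟨0,[(19,0)]⟩,⟨1,[(18,0),(8,0),(0,0)]⟩) .k 0 (⟨0,[]⟩,⟨0,
  []⟩) .k .k) (.R ⟨0,false,false,true,[0,0,0,1],[1,-1],[1,0,0,0,0,0,0,0,1],(⟨0,[(20,0)]⟩,⟨1,[(19,0),
  (8,0),(0,0)]⟩),(⟨0,[(31,0)]⟩,⟨0,[(32,0)]⟩),⟨0,[(0,0)]⟩,.k,.k,(.r (-1) ⟨7,[(2,1),(7,1),(1,1),(5,2),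
  (15,1),(1,0)]⟩ ⟨3,[(1,3),(4,1),(18,0),(0,0),(8,1)]⟩),(.r 0 ⟨7,[(2,3),(0,3),(2,1),(13,3),(1,3),(2,
  0),(0,0),(8,5)]⟩ ⟨0,[(1,0),(10,0)]⟩),.k,.k,⟨false,0,⟨0,[(2,0),(32,0)]⟩,⟨1,[(17,0),(16,1),(1,0)]⟩⟩,
  ⟨true,0,⟨0,[(14,0),(5,0),(4,0)]⟩,⟨1,[(19,0),(8,0),(0,0)]⟩⟩,⟨true,0,⟨0,[]⟩,⟨0,[(39,0)]⟩⟩,⟨false,1,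
  ⟨4,[(1,0),(2,1),(2,0),(2,1),(6,1),(2,4),(4,2),(4,0),(2,0)]⟩,⟨1,[(2,1),(16,0),(8,0),(0,0),(5,1)]⟩⟩,
  ⟨false,0,⟨0,[]⟩,⟨0,[]⟩⟩,⟨false,0,⟨0,[]⟩,⟨0,[]⟩⟩,[.o ⟨false,0,⟨0,[(4,0),(8,0)]⟩,⟨3,[(17,0),(0,0),
  (16,3),(1,1)]⟩⟩,.o ⟨false,1,⟨1,[(30,0),(3,1),(2,0)]⟩,⟨0,[(35,0)]⟩⟩,.a ⟨true,0,⟨1,[(19,0),(8,0),(0,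
  0)]⟩,⟨0,[(20,0)]⟩⟩ ⟨false,0,⟨0,[(2,0)]⟩,⟨3,[(17,2),(0,0)]⟩⟩ ⟨true,0,⟨0,[(4,0),(8,0),(6,0)]⟩,⟨1,
  [(19,0),(8,0),(0,0),(5,1)]⟩⟩,.o ⟨false,0,⟨1,[(19,0),(2,0),(2,0)]⟩,⟨1,[(20,1),(9,0),(5,0)]⟩⟩]⟩)
  (.R ⟨1,false,false,true,[0,0,0,1],[1,-1],[0,1,0,0,0,0,0,0,1],(⟨0,[(20,0)]⟩,⟨1,[(19,0),(8,0),(0,
  0)]⟩),(⟨0,[(31,0)]⟩,⟨0,[(32,0)]⟩),⟨0,[(0,0)]⟩,.k,.k,(.r (-1) ⟨7,[(2,1),(7,1),(1,1),(5,2),(15,1),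
  (1,0)]⟩ ⟨3,[(1,3),(4,1),(18,0),(0,0),(8,1)]⟩),(.r 0 ⟨7,[(2,3),(0,3),(2,1),(13,3),(1,3),(2,0),(0,
  0),(8,5)]⟩ ⟨0,[(1,0),(10,0)]⟩),.k,.k,⟨false,0,⟨2,[(2,1),(0,0),(16,0),(0,0),(13,2)]⟩,⟨0,[(1,0),(10,
  0)]⟩⟩,⟨true,0,⟨0,[(14,0),(5,0),(4,0)]⟩,⟨1,[(19,0),(8,0),(0,0)]⟩⟩,⟨true,0,⟨0,[(39,0)]⟩,⟨0,[]⟩⟩,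
  ⟨false,1,⟨4,[(1,0),(2,1),(2,0),(2,1),(6,1),(2,4),(4,2),(4,0),(2,0)]⟩,⟨1,[(2,1),(16,0),(8,0),(0,0),
  (5,1)]⟩⟩,⟨false,0,⟨0,[(35,0)]⟩,⟨0,[(34,0),(2,0)]⟩⟩,⟨false,1,⟨1,[(17,0),(2,1),(9,0)]⟩,⟨1,[(2,1),
  (16,0),(8,0),(0,0)]⟩⟩,[.o ⟨false,0,⟨0,[(4,0),(8,0)]⟩,⟨3,[(17,0),(0,0),(16,3),(1,1)]⟩⟩,.o ⟨false,1,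
  ⟨1,[(30,0),(3,1),(2,0)]⟩,⟨0,[(35,0)]⟩⟩,.a ⟨true,0,⟨1,[(19,0),(8,0),(0,0)]⟩,⟨0,[(20,0)]⟩⟩ ⟨false,0,
  ⟨2,[(2,1),(0,0),(16,0),(0,0)]⟩,⟨1,[(17,0),(19,0)]⟩⟩ ⟨true,0,⟨0,[(4,0),(8,0),(6,0)]⟩,⟨1,[(19,0),(8,
  0),(0,0),(5,1)]⟩⟩,.o ⟨false,0,⟨1,[(19,0),(2,0),(2,0)]⟩,⟨1,[(20,1),(9,0),(5,0)]⟩⟩]⟩))) (.I [0,0,0,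
  0,0,0,0,-1,-1] (.Q [0,0,0,-1,0,0,-1,-1,-1,-1,1,1] (.p true [0,0,1] [1,0,0,-1] (⟨0,[(28,0)]⟩,⟨0,
  [(27,0)]⟩) .k 2 (⟨1,[(18,0),(8,0),(0,0)]⟩,⟨0,[(19,0)]⟩) .k (.r (-1) ⟨3,[(16,0),(0,2),(8,3)]⟩ ⟨0,
  [(0,0)]⟩)) (.R ⟨1,false,false,true,[1,0,0,-1],[0,0,1],[0,1,0,0,0,0,0,0,-1],(⟨1,[(19,0),(8,0),(0,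
  0)]⟩,⟨0,[(20,0)]⟩),(⟨0,[(29,0)]⟩,⟨0,[(28,0)]⟩),⟨1,[(8,0),(2,0),(7,0)]⟩,.k,.k,(.r (-1) ⟨4,[(1,0),
  (8,1),(1,0),(4,1)]⟩ ⟨0,[(3,0),(0,0),(15,0),(12,0),(1,0)]⟩),.k,(.r (-1) ⟨4,[(1,2),(8,0),(1,2),(4,
  0)]⟩ ⟨0,[(3,0),(10,0),(5,0),(12,0),(1,0)]⟩),.k,⟨true,0,⟨0,[(1,0)]⟩,⟨0,[(3,0),(10,0),(5,0),(12,
  0)]⟩⟩,⟨false,1,⟨1,[(1,1),(1,1),(32,0),(0,0)]⟩,⟨0,[(14,0),(5,0)]⟩⟩,⟨true,0,⟨0,[(39,0)]⟩,⟨0,[]⟩⟩,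
  ⟨true,0,⟨0,[(3,0)]⟩,⟨0,[(0,0),(34,0)]⟩⟩,⟨false,0,⟨0,[(35,0)]⟩,⟨0,[(34,0),(2,0)]⟩⟩,⟨true,0,⟨0,[(3,
  0),(31,0)]⟩,⟨0,[(0,0)]⟩⟩,[.o ⟨false,0,⟨0,[(23,0)]⟩,⟨3,[(4,1),(19,1),(5,0),(6,2)]⟩⟩,.o ⟨false,1,⟨3,
  [(17,0),(0,0),(4,3),(13,1)]⟩,⟨0,[(4,0)]⟩⟩,.a ⟨true,0,⟨0,[(20,0)]⟩,⟨1,[(19,0),(8,0),(0,0)]⟩⟩
  ⟨false,0,⟨0,[(1,0),(25,0)]⟩,⟨1,[(18,0),(18,0)]⟩⟩ ⟨true,0,⟨1,[(19,0),(3,1),(4,0),(0,0)]⟩,⟨0,[(4,0),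
  (15,0)]⟩⟩,.o ⟨false,0,⟨0,[(14,0),(5,0),(4,0)]⟩,⟨7,[(17,0),(0,0),(0,3),(10,1),(5,3)]⟩⟩]⟩) (.R ⟨1,
  true,false,false,[1,0,-1],[0,0,0,1],[1,1,0,-1,0,0,0,-1],(⟨0,[(28,0)]⟩,⟨0,[(29,0)]⟩),(⟨0,[(20,0)]⟩,
  ⟨1,[(19,0),(8,0),(0,0)]⟩),⟨0,[(11,0)]⟩,.k,.k,.k,.k,(.r (-1) ⟨4,[(1,2),(8,0),(1,2),(4,0)]⟩ ⟨0,[(0,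
  0),(19,0),(1,0)]⟩),.k,⟨true,0,⟨0,[(1,0),(32,0)]⟩,⟨0,[(0,0),(13,0),(5,0),(12,0)]⟩⟩,⟨false,1,⟨4,[(0,
  4),(0,2),(8,0),(1,2),(4,0)]⟩,⟨0,[(14,0),(5,0)]⟩⟩,⟨true,0,⟨0,[(34,0)]⟩,⟨0,[(35,0)]⟩⟩,⟨false,1,⟨0,
  [(3,0),(33,0)]⟩,⟨0,[(1,0),(12,0),(5,0)]⟩⟩,⟨false,0,⟨0,[]⟩,⟨3,[(17,0),(0,0),(18,1)]⟩⟩,⟨true,0,⟨0,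
  [(0,0)]⟩,⟨1,[(1,1),(5,0),(5,0),(2,0),(3,1)]⟩⟩,[]⟩)) (.Q [0,-1,0,0,0,0,0,0,1,1,0,-1] (.p false [0,
  0,0,1] [1] (⟨0,[(19,0)]⟩,⟨1,[(18,0),(8,0),(0,0)]⟩) .k 1 (⟨0,[]⟩,⟨0,[]⟩) .k .k) (.K ⟨1,[0,0,0,1],0,
  0,(⟨0,[(20,0)]⟩,⟨1,[(19,0),(8,0),(0,0)]⟩),.k,(.r (-1) ⟨7,[(0,1),(3,1),(5,1),(1,1),(0,1),(4,2),(1,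
  1),(15,0)]⟩ ⟨0,[(2,0),(30,0),(1,0)]⟩),(.x (-1) ⟨3,[(17,0),(0,0),(13,3),(3,1)]⟩ ⟨1,[(8,0),(2,0),
  (10,0),(2,0)]⟩),.k,.k,[⟨1,[(20,1),(4,0),(0,0)]⟩,⟨1,[(19,0),(2,0),(2,0)]⟩,⟨0,[(2,0),(17,0)]⟩,⟨0,
  [(0,0)]⟩]⟩) (.Q [0,-1,0,1,0,0,-1,-1,-1,-1,1,1] (.p true [0,0,1] [1,0,0,-1] (⟨0,[(29,0)]⟩,⟨0,[(28,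
  0)]⟩) .k 2 (⟨1,[(19,0),(8,0),(0,0)]⟩,⟨0,[(20,0)]⟩) .k (.x (-1) ⟨7,[(15,3),(1,0),(0,0),(4,3),(1,3),
  (3,7),(7,1)]⟩ ⟨0,[(14,0),(13,0)]⟩)) (.R ⟨1,false,false,true,[1,0,0,-1],[0,-1,1],[0,1,1],(⟨1,[(20,
  0),(8,0),(0,0)]⟩,⟨0,[(21,0)]⟩),(⟨0,[(9,0)]⟩,⟨0,[(29,0),(3,0)]⟩),⟨1,[(9,0),(2,0),(7,0)]⟩,.k,.k,(.r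
  (-1) ⟨7,[(0,1),(2,1),(7,3),(1,1),(4,1),(1,0),(5,1),(2,0),(0,0)]⟩ ⟨3,[(2,3),(4,1),(18,0),(0,0),(8,
  1)]⟩),(.r 0 ⟨5,[(0,1),(2,3),(3,1),(12,0),(5,1),(2,0),(0,0),(3,1),(1,1)]⟩ ⟨1,[(11,0),(7,0),(8,
  0)]⟩),.k,.k,⟨false,0,⟨3,[(7,1),(18,0),(0,0),(8,1)]⟩,⟨1,[(11,0),(16,0),(8,0)]⟩⟩,⟨true,0,⟨1,[(20,0),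
  (5,1),(2,0),(0,0)]⟩,⟨0,[(15,0),(5,0)]⟩⟩,⟨false,0,⟨1,[(2,1),(4,0),(26,0),(0,0)]⟩,⟨3,[(0,3),(10,1),
  (8,1),(3,1),(1,1),(2,1),(0,1),(6,0),(0,0)]⟩⟩,⟨false,1,⟨0,[(4,0),(30,0),(2,0)]⟩,⟨0,[(0,0)]⟩⟩,
  ⟨false,0,⟨3,[(2,3),(4,1),(18,0),(0,0),(8,1)]⟩,⟨1,[(0,1),(10,1),(8,0),(5,1),(2,0),(0,0)]⟩⟩,⟨true,0,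
  ⟨0,[(4,0)]⟩,⟨0,[(0,0),(34,0)]⟩⟩,[.o ⟨false,0,⟨0,[(14,0)]⟩,⟨7,[(0,7),(17,0),(0,4),(0,3),(10,1)]⟩⟩,
  .o ⟨false,1,⟨3,[(14,3),(3,0),(0,0),(18,1)]⟩,⟨0,[(5,0),(30,0)]⟩⟩,.a ⟨true,0,⟨0,[(21,0)]⟩,⟨1,[(20,
  0),(8,0),(0,0)]⟩⟩ ⟨false,0,⟨1,[(26,0),(0,0)]⟩,⟨1,[(37,0),(0,0)]⟩⟩ ⟨true,0,⟨1,[(14,1),(5,0),(8,0),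
  (0,0)]⟩,⟨0,[(5,0),(15,0),(14,0)]⟩⟩,.o ⟨false,0,⟨0,[(15,0),(5,0),(4,0)]⟩,⟨7,[(18,0),(0,0),(0,3),
  (10,1),(5,3)]⟩⟩]⟩) (.I [1,0,0,0,0,0,0,0,1] (.Q [0,0,0,0,0,-1,0,0,0,0,0,1] (.p true [0,0,0,1] []
  (⟨0,[(22,0)]⟩,⟨1,[(21,0),(8,0),(0,0)]⟩) .k 0 (⟨0,[]⟩,⟨0,[]⟩) .k .k) (.Q [0,0,0,0,0,0,-1,-1,-1,-1,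
  1,1] (.p true [0,0,1] [1,0,0,-1] (⟨0,[(32,0)]⟩,⟨0,[(31,0)]⟩) .k 2 (⟨1,[(22,0),(8,0),(0,0)]⟩,⟨0,
  [(23,0)]⟩) .k (.r 0 ⟨0,[(1,0),(28,0)]⟩ ⟨11,[(9,3),(5,3),(4,6),(0,0)]⟩)) (.Q [0,0,0,0,0,0,0,0,-1,0,
  0,1] (.p true [0,0,0,1] [] (⟨0,[(24,0)]⟩,⟨1,[(23,0),(8,0),(0,0)]⟩) .k 0 (⟨0,[]⟩,⟨0,[]⟩) .k .k)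
  (.R ⟨2,false,false,false,[0,1],[0,0,0,1],[1,1,1],(⟨0,[]⟩,⟨0,[]⟩),(⟨0,[(25,0)]⟩,⟨1,[(24,0),(8,0),
  (0,0)]⟩),⟨0,[]⟩,.k,.k,.k,(.r 0 ⟨0,[(7,0),(30,0),(1,0)]⟩ ⟨2,[(3,0),(11,0),(1,0),(5,0)]⟩),.k,.k,
  ⟨false,0,⟨0,[(7,0)]⟩,⟨1,[(3,1),(37,0),(0,0)]⟩⟩,⟨true,0,⟨1,[(24,0),(2,0),(2,0)]⟩,⟨0,[(25,0)]⟩⟩,
  ⟨true,0,⟨0,[(39,0)]⟩,⟨0,[(40,0)]⟩⟩,⟨false,1,⟨0,[(4,0),(4,0),(32,0)]⟩,⟨0,[(0,0),(39,0)]⟩⟩,⟨false,0,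
  ⟨0,[]⟩,⟨3,[(22,0),(0,0),(18,1)]⟩⟩,⟨false,1,⟨3,[(3,1),(19,0),(0,1),(10,0),(6,1)]⟩,⟨0,[(0,0)]⟩⟩,[.a
  ⟨true,0,⟨1,[(3,1),(20,0),(8,0),(0,0)]⟩,⟨0,[(0,0)]⟩⟩ ⟨false,0,⟨0,[(44,0)]⟩,⟨1,[(41,0),(0,0)]⟩⟩
  ⟨true,0,⟨1,[(3,1),(20,0),(2,0),(2,0)]⟩,⟨0,[(0,0)]⟩⟩,.o ⟨false,1,⟨3,[(3,1),(19,0),(0,1),(10,0),(6,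
  1)]⟩,⟨0,[(5,0)]⟩⟩,.o ⟨false,1,⟨3,[(22,0),(0,0),(17,1)]⟩,⟨0,[(19,0),(10,0)]⟩⟩,.e ⟨false,0,⟨0,[]⟩,
  ⟨3,[(22,0),(0,0),(18,1)]⟩⟩ ⟨false,1,⟨3,[(3,1),(19,0),(0,1),(10,0),(6,1)]⟩,⟨0,[(0,0)]⟩⟩]⟩) (.R ⟨1,
  false,false,true,[0,0,0,1],[1,-1],[0,1,0,0,0,0,0,0,1],(⟨0,[(25,0)]⟩,⟨1,[(24,0),(8,0),(0,0)]⟩),(⟨0,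
  [(36,0)]⟩,⟨0,[(37,0)]⟩),⟨0,[(2,0)]⟩,.k,.k,(.r (-1) ⟨2,[(3,0),(11,0),(1,0),(5,0)]⟩ ⟨0,[(7,0),(30,
  0),(1,0)]⟩),(.r 0 ⟨3,[(6,3),(4,1),(18,0),(0,0),(8,1)]⟩ ⟨3,[(1,1),(13,1),(6,0),(1,0),(5,1),(2,0),
  (0,0),(6,0)]⟩),.k,.k,⟨false,0,⟨0,[(3,0),(36,0)]⟩,⟨3,[(1,1),(13,1),(6,0),(1,0),(5,1),(2,0),(0,0),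
  (6,0)]⟩⟩,⟨true,0,⟨0,[(19,0),(5,0),(4,0)]⟩,⟨1,[(24,0),(8,0),(0,0)]⟩⟩,⟨true,0,⟨0,[(44,0)]⟩,⟨0,[]⟩⟩,
  ⟨true,0,⟨0,[(1,0),(16,0)]⟩,⟨1,[(3,1),(20,0),(8,0),(0,0),(5,1)]⟩⟩,⟨false,0,⟨0,[(40,0)]⟩,⟨0,[(39,0),
  (2,0)]⟩⟩,⟨true,0,⟨0,[(5,0)]⟩,⟨1,[(3,1),(20,0),(8,0),(0,0)]⟩⟩,[.o ⟨false,0,⟨0,[(9,0),(8,0)]⟩,⟨3,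
  [(22,0),(0,0),(16,3),(1,1)]⟩⟩,.o ⟨false,1,⟨1,[(35,0),(3,1),(2,0)]⟩,⟨0,[(40,0)]⟩⟩,.a ⟨true,0,⟨1,
  [(24,0),(8,0),(0,0)]⟩,⟨0,[(25,0)]⟩⟩ ⟨false,0,⟨0,[(0,0),(1,0),(34,0)]⟩,⟨1,[(22,0),(19,0)]⟩⟩ ⟨true,
  0,⟨0,[(9,0),(8,0),(6,0)]⟩,⟨1,[(24,0),(8,0),(0,0),(5,1)]⟩⟩,.o ⟨false,0,⟨1,[(24,0),(2,0),(2,0)]⟩,⟨1,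
  [(25,1),(9,0),(5,0)]⟩⟩]⟩)) (.I [0,0,-1,-1,1,0,0,0,-1] (.Q [0,-1,0,-1,1,0,0,0,-1,-1,0,1] (.p true
  [0,0,0,1] [1] (⟨0,[(25,0)]⟩,⟨1,[(24,0),(8,0),(0,0)]⟩) .k 1 (⟨0,[]⟩,⟨0,[]⟩) .k .k) (.R ⟨1,false,
  false,false,[0,0,0,1],[1,-1],[0,0,0,0,0,0,0,0,1],(⟨0,[(26,0)]⟩,⟨1,[(25,0),(8,0),(0,0)]⟩),(⟨0,[(37,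
  0)]⟩,⟨0,[(38,0)]⟩),⟨0,[(3,0)]⟩,.k,.k,(.r (-1) ⟨2,[(4,0),(11,0),(1,0),(5,0)]⟩ ⟨0,[(8,0),(30,0),(1,
  0)]⟩),(.r 0 ⟨3,[(7,3),(4,1),(18,0),(0,0),(8,1)]⟩ ⟨0,[(1,0)]⟩),.k,.k,⟨false,0,⟨0,[(4,0),(36,0)]⟩,
  ⟨0,[(1,0)]⟩⟩,⟨true,0,⟨0,[(20,0),(5,0),(4,0)]⟩,⟨1,[(25,0),(8,0),(0,0)]⟩⟩,⟨false,1,⟨3,[(23,0),(0,0),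
  (18,1)]⟩,⟨0,[]⟩⟩,⟨false,1,⟨0,[(0,0)]⟩,⟨0,[(2,0),(12,0),(25,0)]⟩⟩,⟨true,0,⟨0,[(41,0)]⟩,⟨0,[(40,
  0)]⟩⟩,⟨false,1,⟨0,[(0,0),(40,0)]⟩,⟨0,[(2,0),(12,0)]⟩⟩,[.o ⟨false,1,⟨31,[(0,15),(4,7),(7,7),(9,0),
  (0,4),(0,3),(10,9)]⟩,⟨0,[(41,0)]⟩⟩,.o ⟨false,1,⟨3,[(10,1),(5,1),(14,1),(4,0),(2,1),(3,0)]⟩,⟨0,
  [(41,0),(3,0)]⟩⟩,.a ⟨true,0,⟨1,[(25,0),(8,0),(0,0)]⟩,⟨0,[(26,0)]⟩⟩ ⟨true,0,⟨0,[(2,0),(0,0),(6,0),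
  (27,0)]⟩,⟨0,[(8,0)]⟩⟩ ⟨false,1,⟨0,[(0,0),(3,0)]⟩,⟨1,[(25,0),(8,0),(0,0),(5,1)]⟩⟩,.o ⟨false,0,⟨1,
  [(25,0),(2,0),(2,0)]⟩,⟨1,[(26,1),(9,0),(5,0)]⟩⟩]⟩) (.R ⟨2,true,false,false,[0,1],[1,0,0,-1],[0,0,
  1,1],(⟨0,[]⟩,⟨0,[]⟩),(⟨1,[(25,0),(8,0),(0,0)]⟩,⟨0,[(26,0)]⟩),⟨0,[]⟩,.k,.k,.k,(.r 0 ⟨2,[(0,0),(23,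
  0),(1,0),(1,0),(2,0),(7,0),(1,1)]⟩ ⟨0,[(1,0)]⟩),.k,.k,⟨false,0,⟨0,[(4,0),(36,0)]⟩,⟨0,[(1,0)]⟩⟩,
  ⟨true,0,⟨0,[(20,0),(5,0),(4,0)]⟩,⟨1,[(25,0),(8,0),(0,0)]⟩⟩,⟨false,1,⟨3,[(23,0),(0,0),(18,1)]⟩,⟨0,
  []⟩⟩,⟨true,1,⟨0,[(6,0),(33,0),(2,0)]⟩,⟨0,[(0,0)]⟩⟩,⟨true,0,⟨0,[(41,0)]⟩,⟨0,[(40,0)]⟩⟩,⟨false,1,⟨0,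
  [(6,0),(36,0)]⟩,⟨1,[(0,0),(4,0),(9,0),(27,0)]⟩⟩,[]⟩)) (.R ⟨2,true,false,true,[0,1],[1,0,0,-1],[1,
  1,1],(⟨0,[]⟩,⟨0,[]⟩),(⟨1,[(24,0),(8,0),(0,0)]⟩,⟨0,[(25,0)]⟩),⟨0,[]⟩,.k,.k,.k,(.x (-1) ⟨3,[(22,0),
  (0,0),(13,3),(3,1)]⟩ ⟨1,[(13,0),(2,0),(10,0),(2,0)]⟩),.k,.k,⟨false,0,⟨0,[(3,0)]⟩,⟨1,[(22,0),(18,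
  0)]⟩⟩,⟨true,0,⟨7,[(0,1),(4,1),(6,0),(5,0),(6,5),(1,0),(2,0),(4,1),(2,3)]⟩,⟨1,[(24,0),(8,0),(0,
  0)]⟩⟩,⟨true,0,⟨0,[(39,0)]⟩,⟨0,[(40,0)]⟩⟩,⟨false,1,⟨0,[(5,0),(33,0),(2,0)]⟩,⟨1,[(0,1),(23,0),(8,0),
  (0,0),(6,0),(0,0)]⟩⟩,⟨false,0,⟨0,[]⟩,⟨3,[(22,0),(0,0),(18,1)]⟩⟩,⟨true,0,⟨0,[(5,0)]⟩,⟨0,[(1,0),(12,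
  0)]⟩⟩,[]⟩))) (.Q [0,-1,0,0,0,0,0,0,2,1,0,-2] (.p false [0,0,0,1] [1,0,0,-1] (⟨0,[(23,0)]⟩,⟨1,[(22,
  0),(8,0),(0,0)]⟩) .k 2 (⟨1,[(22,0),(8,0),(0,0)]⟩,⟨0,[(23,0)]⟩) .k .k) (.R ⟨0,false,false,true,[0,
  0,0,1],[1,0,0,-1],[1,1],(⟨0,[(24,0)]⟩,⟨1,[(23,0),(8,0),(0,0)]⟩),(⟨1,[(23,0),(8,0),(0,0)]⟩,⟨0,[(24,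
  0)]⟩),⟨0,[(1,0)]⟩,.k,.k,(.r (-1) ⟨2,[(2,0),(11,0),(1,0),(5,0)]⟩ ⟨0,[(6,0),(30,0),(1,0)]⟩),.k,.k,
  .k,⟨true,0,⟨0,[(2,0)]⟩,⟨0,[(6,0),(30,0)]⟩⟩,⟨false,1,⟨1,[(24,3),(9,0),(5,0)]⟩,⟨0,[(23,0)]⟩⟩,⟨true,
  0,⟨0,[(6,0)]⟩,⟨1,[(0,0),(7,0),(8,0),(6,1),(14,0)]⟩⟩,⟨false,1,⟨1,[(4,1),(16,0),(2,1),(16,0)]⟩,⟨0,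
  [(0,0)]⟩⟩,⟨false,0,⟨0,[]⟩,⟨0,[]⟩⟩,⟨false,0,⟨0,[]⟩,⟨0,[]⟩⟩,[.o ⟨false,0,⟨0,[(4,0)]⟩,⟨11,[(0,1),(21,
  3),(0,3),(10,2),(6,4)]⟩⟩,.o ⟨false,1,⟨1,[(21,0),(2,1),(9,0)]⟩,⟨1,[(0,0),(7,0),(18,0)]⟩⟩,.a ⟨true,
  0,⟨1,[(23,0),(8,0),(0,0)]⟩,⟨0,[(24,0)]⟩⟩ ⟨false,0,⟨0,[]⟩,⟨3,[(21,0),(0,0),(18,1)]⟩⟩ ⟨true,0,⟨0,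
  [(4,0),(19,0)]⟩,⟨9,[(0,3),(6,1),(15,4),(1,0),(2,0)]⟩⟩,.o ⟨false,0,⟨1,[(23,0),(2,0),(2,0)]⟩,⟨1,
  [(24,1),(9,0),(5,0)]⟩⟩]⟩) (.R ⟨0,false,false,false,[0,0,0,1],[1,-1],[1,0,0,0,0,0,0,0,1],(⟨0,[(24,
  0)]⟩,⟨1,[(23,0),(8,0),(0,0)]⟩),(⟨0,[(35,0)]⟩,⟨0,[(36,0)]⟩),⟨0,[(1,0)]⟩,.k,.k,(.r (-1) ⟨2,[(2,0),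
  (11,0),(1,0),(5,0)]⟩ ⟨0,[(6,0),(30,0),(1,0)]⟩),(.r 0 ⟨3,[(5,3),(4,1),(18,0),(0,0),(8,1)]⟩ ⟨5,[(0,
  1),(13,1),(1,1),(4,0),(1,1),(17,0)]⟩),.k,.k,⟨false,0,⟨0,[(2,0),(36,0)]⟩,⟨5,[(0,1),(13,1),(1,1),(4,
  0),(1,1),(17,0)]⟩⟩,⟨true,0,⟨0,[(18,0),(5,0),(4,0)]⟩,⟨1,[(23,0),(8,0),(0,0)]⟩⟩,⟨true,0,⟨0,[]⟩,⟨0,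
  [(43,0)]⟩⟩,⟨false,1,⟨1,[(0,0),(7,0),(5,0),(14,0),(7,0),(3,0)]⟩,⟨1,[(2,1),(20,0),(8,0),(0,0),(5,
  1)]⟩⟩,⟨false,0,⟨0,[]⟩,⟨0,[]⟩⟩,⟨false,0,⟨0,[]⟩,⟨0,[]⟩⟩,[.o ⟨false,1,⟨1,[(34,0),(3,1),(2,0)]⟩,⟨0,
  [(39,0)]⟩⟩,.o ⟨false,1,⟨3,[(8,1),(5,1),(14,1),(4,0),(2,1),(3,0)]⟩,⟨0,[(39,0),(3,0)]⟩⟩,.a ⟨true,0,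
  ⟨1,[(23,0),(8,0),(0,0)]⟩,⟨0,[(24,0)]⟩⟩ ⟨true,0,⟨0,[(2,0)]⟩,⟨0,[(6,0)]⟩⟩ ⟨false,1,⟨3,[(8,1),(5,1),
  (9,3),(4,1),(4,0),(2,1),(3,0)]⟩,⟨1,[(23,0),(8,0),(0,0),(5,1)]⟩⟩,.o ⟨false,0,⟨1,[(23,0),(2,0),(2,
  0)]⟩,⟨1,[(24,1),(9,0),(5,0)]⟩⟩]⟩))) (.R ⟨1,false,false,false,[1,0,0,-1],[1,-1],[0,0,0,0,0,0,0,0,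
  -1],(⟨1,[(21,0),(8,0),(0,0)]⟩,⟨0,[(22,0)]⟩),(⟨0,[(33,0)]⟩,⟨0,[(34,0)]⟩),⟨1,[(10,0),(2,0),(7,0)]⟩,
  .k,.k,(.r (-1) ⟨2,[(0,0),(11,0),(1,0),(4,0)]⟩ ⟨3,[(3,3),(4,1),(18,0),(0,0),(8,1)]⟩),(.r 0 ⟨0,[(4,
  0),(30,0),(1,0)]⟩ ⟨0,[(3,0),(4,0),(3,0)]⟩),.k,.k,⟨false,0,⟨0,[(0,0),(36,0)]⟩,⟨0,[(3,0),(10,0)]⟩⟩,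
  ⟨true,0,⟨1,[(21,0),(2,0),(2,0)]⟩,⟨0,[(22,0)]⟩⟩,⟨false,1,⟨3,[(19,0),(0,0),(18,1)]⟩,⟨0,[]⟩⟩,⟨false,
  1,⟨0,[(1,0),(4,0),(32,0)]⟩,⟨0,[(0,0),(21,0),(14,0)]⟩⟩,⟨true,0,⟨0,[(37,0)]⟩,⟨0,[(36,0)]⟩⟩,⟨false,1,
  ⟨0,[(5,0),(0,0),(32,0)]⟩,⟨0,[(0,0),(21,0)]⟩⟩,[.o ⟨false,1,⟨1,[(32,0),(3,1),(2,0)]⟩,⟨0,[(37,0)]⟩⟩,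
  .o ⟨false,1,⟨3,[(6,1),(5,1),(14,1),(4,0),(2,1),(3,0)]⟩,⟨0,[(37,0),(3,0)]⟩⟩,.a ⟨true,0,⟨0,[(22,
  0)]⟩,⟨1,[(21,0),(8,0),(0,0)]⟩⟩ ⟨true,0,⟨0,[(0,0)]⟩,⟨0,[(5,0),(0,0),(15,0)]⟩⟩ ⟨false,1,⟨21,[(1,1),
  (7,7),(2,5),(6,0),(1,9),(5,5),(4,1),(2,5),(3,12)]⟩,⟨0,[(22,0),(14,0)]⟩⟩,.o ⟨false,0,⟨0,[(16,0),(5,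
  0),(4,0)]⟩,⟨7,[(19,0),(0,0),(0,3),(10,1),(5,3)]⟩⟩]⟩)))))))))

theorem ok13 : chk (cU (-1) false 2) t13 l14 = true := by decide +kernel

noncomputable def t17 : Tre :=
  (.R ⟨1,false,false,false,[1,-1],[0,0,1],[1],(⟨0,[(33,0)]⟩,⟨0,[(34,0)]⟩),(⟨0,[(31,0)]⟩,⟨0,[(30,
  0)]⟩),⟨0,[(10,0),(2,0)]⟩,.k,.k,(.x 0 ⟨11,[(1,7),(8,11),(2,11),(5,2),(0,2),(6,7),(4,1)]⟩ ⟨0,[(34,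
  1),(3,0)]⟩),.k,(.r (-2) ⟨5,[(12,1),(1,7),(4,0),(0,0)]⟩ ⟨0,[(0,0),(0,0),(39,0)]⟩),.k,⟨false,1,⟨0,
  [(17,0)]⟩,⟨0,[(29,0)]⟩⟩,⟨true,1,⟨2,[(0,0),(2,1),(13,2),(23,0)]⟩,⟨0,[(1,0)]⟩⟩,⟨false,0,⟨11,[(0,3),
  (0,3),(0,3),(16,0),(0,0),(18,1)]⟩,⟨5,[(12,1),(1,1),(4,0),(0,0)]⟩⟩,⟨true,0,⟨2,[(0,1),(2,0),(37,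
  1)]⟩,⟨0,[(9,0)]⟩⟩,⟨false,0,⟨1,[(0,0),(1,0),(21,0),(12,0)]⟩,⟨11,[(4,5),(7,1),(1,1),(4,0),(0,0),(15,
  5)]⟩⟩,⟨false,0,⟨0,[(0,0)]⟩,⟨3,[(1,1),(2,1),(4,1),(4,1),(4,0),(0,0)]⟩⟩,[.a ⟨true,0,⟨2,[(0,0),(2,1),
  (37,0)]⟩,⟨0,[(11,0)]⟩⟩ ⟨true,0,⟨0,[]⟩,⟨1,[(27,0),(0,0)]⟩⟩ ⟨false,1,⟨2,[(0,0),(2,1),(34,2),(2,0)]⟩,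
  ⟨1,[(2,0),(6,0),(14,0)]⟩⟩,.o ⟨false,1,⟨7,[(0,3),(6,3),(11,0),(0,0),(11,1),(6,3)]⟩,⟨0,[(23,0)]⟩⟩,
  .o ⟨false,0,⟨2,[(1,0),(25,0),(4,0)]⟩,⟨3,[(19,0),(0,0),(17,1)]⟩⟩,.o ⟨false,0,⟨11,[(1,7),(17,2),(0,
  2),(6,7),(4,1)]⟩,⟨0,[(38,0)]⟩⟩]⟩)

theorem ok17 : chk (cU (-1) false 2) t17 l22 = true := by decide +kernel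

noncomputable def t24 : Tre :=
  (.R ⟨2,false,false,false,[0,1],[1,1,-1],[1,0,2,1,0,0,0,-1],(⟨0,[]⟩,⟨0,[]⟩),(⟨0,[(31,0),(3,0)]⟩,⟨0,
  [(11,0)]⟩),⟨0,[]⟩,.k,.k,.k,.k,.k,.k,⟨false,0,⟨0,[]⟩,⟨3,[(20,0),(0,0),(17,1)]⟩⟩,⟨true,0,⟨0,[(17,
  0)]⟩,⟨0,[(28,0),(2,0),(0,0)]⟩⟩,⟨true,0,⟨0,[(12,0),(15,0)]⟩,⟨0,[(0,0)]⟩⟩,⟨false,1,⟨1,[(12,1),(20,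
  0),(6,0)]⟩,⟨0,[(4,0),(33,0)]⟩⟩,⟨false,0,⟨0,[(3,0)]⟩,⟨2,[(9,0),(3,0),(6,0),(0,0)]⟩⟩,⟨false,1,⟨3,
  [(3,1),(14,1),(0,1),(13,0),(4,1),(1,0)]⟩,⟨0,[(4,0)]⟩⟩,[.a ⟨true,0,⟨0,[(12,0),(25,0)]⟩,⟨0,[(4,
  0)]⟩⟩ ⟨false,0,⟨0,[(3,0),(38,0)]⟩,⟨11,[(0,3),(6,3),(5,3),(6,0),(0,0),(17,1)]⟩⟩ ⟨true,0,⟨1,[(3,0),
  (20,0),(0,0),(12,0)]⟩,⟨0,[(4,0)]⟩⟩,.o ⟨false,1,⟨3,[(3,1),(14,1),(0,1),(13,0),(4,1),(1,0)]⟩,⟨0,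
  [(16,0)]⟩⟩,.o ⟨false,1,⟨3,[(20,0),(0,0),(17,1)]⟩,⟨0,[(17,0),(10,0)]⟩⟩,.e ⟨false,0,⟨0,[(3,0)]⟩,⟨2,
  [(9,0),(3,0),(6,0),(0,0)]⟩⟩ ⟨false,1,⟨3,[(3,1),(14,1),(0,1),(13,0),(4,1),(1,0)]⟩,⟨0,[(4,0)]⟩⟩]⟩)

theorem ok24 : chk (cU (-1) false 2) t24 l26 = true := by decide +kernel

noncomputable def t33 : Tre :=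
  (.I [0,0,2,2,-1,0,0,1] (.K ⟨0,[0,1,1],1,0,(⟨0,[(32,0),(2,0)]⟩,⟨0,[(14,0)]⟩),.k,.k,(.r 1 ⟨0,[(0,
  0)]⟩ ⟨5,[(13,1),(1,7),(4,0),(0,0)]⟩),.k,.k,[⟨0,[(1,0),(2,0)]⟩,⟨0,[(2,0)]⟩,⟨0,[(12,0),(24,0)]⟩,⟨0,
  [(26,0),(11,0)]⟩]⟩) (.Q [0,0,0,0,0,2,0,0,0,0,-1] (.p false [0,0,1] [] (⟨0,[(32,0)]⟩,⟨0,[(31,0)]⟩)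
  .k 0 (⟨0,[]⟩,⟨0,[]⟩) .k .k) (.R ⟨0,false,false,false,[0,-1,1],[1,0,-1],[0,0,1],(⟨0,[(12,0)]⟩,⟨0,
  [(32,0),(3,0)]⟩),(⟨0,[(32,0)]⟩,⟨0,[(33,0)]⟩),⟨0,[(0,0)]⟩,.k,.k,(.r (-1) ⟨0,[(14,0)]⟩ ⟨1,[(4,1),
  (24,0),(0,0),(8,1),(3,1)]⟩),(.x (-1) ⟨11,[(3,3),(8,11),(8,2),(0,2),(6,19),(3,11),(0,1)]⟩ ⟨0,[(0,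
  0),(0,0),(0,0),(7,0),(4,0),(23,1)]⟩),.k,.k,⟨false,0,⟨0,[(31,0)]⟩,⟨0,[(19,0)]⟩⟩,⟨true,0,⟨0,[(1,0),
  (0,0),(7,0),(28,1)]⟩,⟨0,[(29,1),(2,0),(0,0)]⟩⟩,⟨false,0,⟨1,[(4,1),(24,0),(0,0)]⟩,⟨11,[(10,3),(3,
  3),(6,0),(0,0),(17,5)]⟩⟩,⟨true,0,⟨0,[(1,0),(0,0),(36,1)]⟩,⟨0,[(5,0),(21,0)]⟩⟩,⟨false,0,⟨0,[]⟩,⟨0,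
  []⟩⟩,⟨false,0,⟨0,[]⟩,⟨0,[]⟩⟩,[.a ⟨true,0,⟨0,[(13,0)]⟩,⟨0,[(5,0),(33,0)]⟩⟩ ⟨true,0,⟨1,[(29,0),(0,
  0)]⟩,⟨0,[]⟩⟩ ⟨false,1,⟨2,[(1,0),(0,1),(17,0),(19,3)]⟩,⟨0,[(5,0),(23,0),(9,0)]⟩⟩,.o ⟨false,1,⟨1,
  [(13,1),(20,0),(6,0)]⟩,⟨0,[(27,0)]⟩⟩,.o ⟨false,0,⟨0,[(29,0)]⟩,⟨7,[(20,3),(0,0),(0,0),(11,1),(5,
  3)]⟩⟩,.o ⟨false,0,⟨1,[(29,2),(0,0)]⟩,⟨0,[(18,0),(21,0)]⟩⟩]⟩) (.I [0,0,-2,0,1,2,1] (.K ⟨0,[0,1,1],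
  1,0,(⟨0,[(34,0),(2,0)]⟩,⟨0,[(16,0)]⟩),.k,.k,(.x (-1) ⟨0,[(0,0)]⟩ ⟨5,[(1,1),(14,7),(10,7),(2,2),(0,
  0)]⟩),.k,.k,[⟨0,[(3,0),(2,0)]⟩,⟨0,[(4,0)]⟩,⟨0,[(14,0),(24,0)]⟩,⟨0,[(28,0),(11,0)]⟩]⟩) (.I [0,0,-2,
  -2,1,0,0,0,-1] (.I [0,0,-1,-1,0,0,0,0,-1] (.R ⟨1,false,false,true,[1,0,0,-1],[1,0,-1],[0,1,0,0,0,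
  0,0,0,-1],(⟨1,[(26,0),(8,0),(0,0)]⟩,⟨0,[(27,0)]⟩),(⟨0,[(35,0)]⟩,⟨0,[(36,0)]⟩),⟨3,[(3,0),(14,0),(7,
  1),(11,0)]⟩,.k,.k,(.r 0 ⟨0,[(0,0)]⟩ ⟨3,[(24,0),(0,2),(6,1),(0,1),(8,3)]⟩),.k,(.r 0 ⟨0,[(0,0),(33,
  0)]⟩ ⟨3,[(7,3),(16,0),(0,2),(20,3)]⟩),.k,⟨false,0,⟨0,[(0,0),(33,0),(7,0)]⟩,⟨3,[(7,0),(11,0),(2,0),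
  (2,1),(5,0),(0,0)]⟩⟩,⟨true,0,⟨1,[(23,0),(2,0)]⟩,⟨0,[(27,0),(4,0)]⟩⟩,⟨true,0,⟨0,[(46,0)]⟩,⟨0,[]⟩⟩,
  ⟨false,1,⟨7,[(5,1),(4,1),(8,3),(3,0),(0,0),(0,4),(0,2)]⟩,⟨0,[(0,0),(6,0),(5,0),(13,0),(4,0),(9,
  0)]⟩⟩,⟨false,0,⟨0,[(42,0)]⟩,⟨7,[(9,3),(14,0),(0,0),(6,1),(0,1),(10,1)]⟩⟩,⟨false,1,⟨3,[(10,3),(13,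
  0),(0,2)]⟩,⟨0,[(0,0),(6,0),(5,0),(13,0),(4,0)]⟩⟩,[.o ⟨false,0,⟨0,[(28,0)]⟩,⟨0,[(30,0),(13,0)]⟩⟩,
  .a ⟨true,0,⟨0,[(16,0)]⟩,⟨0,[(8,0),(33,0)]⟩⟩ ⟨false,0,⟨0,[(0,0),(41,0)]⟩,⟨3,[(24,0),(0,2)]⟩⟩ ⟨true,
  0,⟨2,[(4,0),(0,0),(4,0),(15,0)]⟩,⟨0,[(27,0),(4,0),(1,0)]⟩⟩,.e ⟨false,0,⟨4,[(0,2),(4,0),(2,0),(15,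
  0),(7,0),(9,2)]⟩,⟨1,[(25,0),(18,0)]⟩⟩ ⟨false,0,⟨2,[(4,0),(0,0),(4,0),(15,0)]⟩,⟨0,[(27,0),(2,0),
  (13,0)]⟩⟩,.o ⟨false,0,⟨0,[(21,0),(5,0),(4,0)]⟩,⟨7,[(24,0),(0,0),(0,3),(10,1),(5,3)]⟩⟩]⟩) (.I [0,0,
  2,0,-1,-2,-1] (.K ⟨0,[0,1,1],1,0,(⟨0,[(37,0),(2,0)]⟩,⟨0,[(19,0)]⟩),.k,.k,(.x (-2) ⟨3,[(7,3),(17,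
  0),(0,0),(10,3),(0,1),(1,7)]⟩ ⟨0,[(0,0)]⟩),.k,.k,[⟨0,[(6,0),(2,0)]⟩,⟨0,[(7,0)]⟩,⟨0,[(17,0),(24,
  0)]⟩,⟨0,[(31,0),(11,0)]⟩]⟩) (.I [0,1,0,0,0,0,0,-1,1] (.R ⟨1,false,false,true,[1,0,0,-1],[1,0,-1],
  [0,0,0,0,0,0,0,0,-1],(⟨1,[(28,0),(8,0),(0,0)]⟩,⟨0,[(29,0)]⟩),(⟨0,[(37,0)]⟩,⟨0,[(38,0)]⟩),⟨3,[(5,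
  0),(14,0),(7,1),(11,0)]⟩,.k,.k,(.r (-1) ⟨7,[(3,3),(22,2),(0,0)]⟩ ⟨0,[(0,0),(3,1),(0,1),(0,1),(2,
  2),(4,1),(0,1),(25,7),(2,7)]⟩),.k,(.r (-1) ⟨11,[(15,3),(3,3),(6,6),(0,0)]⟩ ⟨1,[(0,0),(1,0),(6,
  0)]⟩),.k,⟨false,1,⟨1,[(9,0),(3,0),(1,0),(10,0),(17,0)]⟩,⟨0,[(0,0)]⟩⟩,⟨true,0,⟨1,[(25,0),(2,0)]⟩,
  ⟨0,[(29,0),(4,0)]⟩⟩,⟨false,1,⟨3,[(26,0),(0,0),(18,1)]⟩,⟨0,[]⟩⟩,⟨false,0,⟨2,[(0,2),(5,0),(0,0),(1,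
  2),(2,0),(2,2),(12,0)]⟩,⟨1,[(9,0),(3,0),(1,0),(10,0),(2,1),(4,1),(9,0)]⟩⟩,⟨true,0,⟨0,[(44,0)]⟩,⟨0,
  [(43,0)]⟩⟩,⟨false,0,⟨0,[(0,0),(8,0),(2,0),(2,0)]⟩,⟨4,[(3,0),(5,0),(3,1),(1,1),(10,1),(2,4),(4,4),
  (7,1)]⟩⟩,[.o ⟨false,0,⟨0,[(30,0)]⟩,⟨0,[(32,0),(13,0)]⟩⟩,.a ⟨true,0,⟨0,[(18,0)]⟩,⟨0,[(10,0),(33,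
  0)]⟩⟩ ⟨false,1,⟨3,[(3,1),(5,2),(3,0),(1,0),(10,0),(17,2)]⟩,⟨2,[(0,1),(1,0),(12,0),(32,0)]⟩⟩ ⟨true,
  0,⟨2,[(6,0),(0,0),(4,0),(15,0)]⟩,⟨0,[(29,0),(4,0),(1,0)]⟩⟩,.e ⟨false,1,⟨1,[(26,0),(19,0)]⟩,⟨0,[(0,
  0),(8,0),(5,0)]⟩⟩ ⟨false,0,⟨2,[(6,0),(0,0),(4,0),(15,0)]⟩,⟨0,[(29,0),(2,0),(13,0)]⟩⟩,.o ⟨false,0,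
  ⟨0,[(23,0),(5,0),(4,0)]⟩,⟨7,[(26,0),(0,0),(0,3),(10,1),(5,3)]⟩⟩]⟩) (.I [1,0,1,0,0,0,0,0,1] (.I [0,
  -1,0,0,0,0,0,0,-1] (.R ⟨1,false,false,true,[1,0,0,-1],[1,-1],[0,0,0,0,0,0,0,0,-1],(⟨1,[(30,0),(8,
  0),(0,0)]⟩,⟨0,[(31,0)]⟩),(⟨0,[(42,0)]⟩,⟨0,[(43,0)]⟩),⟨3,[(7,0),(14,0),(7,1),(11,0)]⟩,.k,.k,(.r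
  (-1) ⟨7,[(5,3),(22,2),(0,0)]⟩ ⟨0,[(1,0),(44,0)]⟩),(.r 0 ⟨2,[(0,0),(8,0),(18,0),(5,0),(1,0),(2,0),
  (0,0),(5,1)]⟩ ⟨3,[(8,0),(12,0),(7,1)]⟩),.k,.k,⟨false,0,⟨0,[(0,0),(45,0)]⟩,⟨3,[(10,0),(7,0),(2,0),
  (7,1),(15,0),(4,1)]⟩⟩,⟨true,0,⟨1,[(30,0),(2,0),(2,0)]⟩,⟨0,[(31,0)]⟩⟩,⟨false,1,⟨3,[(28,0),(0,0),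
  (18,1)]⟩,⟨0,[]⟩⟩,⟨false,1,⟨55,[(13,15),(2,7),(1,7),(9,2),(0,30),(0,27),(2,7),(2,7),(4,5)]⟩,⟨0,[(0,
  0),(30,0),(14,0)]⟩⟩,⟨true,0,⟨0,[(46,0)]⟩,⟨0,[(45,0)]⟩⟩,⟨false,1,⟨7,[(28,0),(0,4),(0,3),(10,1)]⟩,
  ⟨0,[(0,0),(30,0)]⟩⟩,[.e ⟨true,0,⟨0,[(0,0),(49,0)]⟩,⟨0,[(1,0)]⟩⟩ ⟨true,0,⟨3,[(16,0),(1,1),(11,1),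
  (3,0)]⟩,⟨1,[(2,0),(1,0),(6,0),(19,1)]⟩⟩,.o ⟨false,1,⟨27,[(13,7),(2,3),(1,3),(9,4),(0,4),(3,3),(2,
  3),(4,9)]⟩,⟨0,[(46,0)]⟩⟩,.a ⟨true,0,⟨0,[(31,0)]⟩,⟨1,[(30,0),(8,0),(0,0)]⟩⟩ ⟨false,0,⟨0,[(0,0)]⟩,
  ⟨3,[(28,0),(0,2)]⟩⟩ ⟨true,0,⟨3,[(16,0),(1,1),(11,1),(3,0)]⟩,⟨0,[(31,0),(14,0)]⟩⟩,.o ⟨false,0,⟨0,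
  [(25,0),(5,0),(4,0)]⟩,⟨7,[(28,0),(0,0),(0,3),(10,1),(5,3)]⟩⟩]⟩) (.I [0,0,0,0,0,0,0,0,-1] (.R ⟨1,
  false,false,false,[1,0,0,-1],[1,-1],[0,0,0,0,0,0,0,0,-1],(⟨1,[(31,0),(8,0),(0,0)]⟩,⟨0,[(32,0)]⟩),
  (⟨0,[(43,0)]⟩,⟨0,[(44,0)]⟩),⟨3,[(8,0),(14,0),(7,1),(11,0)]⟩,.k,.k,(.r (-1) ⟨7,[(6,3),(22,2),(0,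
  0)]⟩ ⟨0,[(1,0),(5,0),(0,0),(0,0),(2,1),(4,0),(0,0),(25,3),(2,3)]⟩),(.r 0 ⟨2,[(0,0),(9,0),(2,0),
  (15,0),(7,0),(9,2)]⟩ ⟨3,[(9,0),(12,0),(7,1)]⟩),.k,.k,⟨false,0,⟨0,[(0,0),(46,0)]⟩,⟨3,[(9,0),(12,0),
  (7,1)]⟩⟩,⟨true,0,⟨1,[(31,0),(2,0),(2,0)]⟩,⟨0,[(32,0)]⟩⟩,⟨false,1,⟨3,[(29,0),(0,0),(18,1)]⟩,⟨0,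
  []⟩⟩,⟨false,1,⟨3,[(2,3),(6,0),(2,1),(1,0),(1,0),(1,0),(12,1),(10,0)]⟩,⟨0,[(0,0),(31,0),(14,0)]⟩⟩,
  ⟨true,0,⟨0,[(47,0)]⟩,⟨0,[(46,0)]⟩⟩,⟨false,1,⟨3,[(2,1),(9,1),(3,1),(13,0),(0,1),(10,0)]⟩,⟨0,[(0,0),
  (31,0)]⟩⟩,[.o ⟨false,1,⟨27,[(14,7),(2,3),(1,3),(9,4),(0,4),(3,3),(2,3),(4,9)]⟩,⟨0,[(47,0)]⟩⟩,.o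
  ⟨false,1,⟨1,[(14,0),(27,0),(2,0)]⟩,⟨0,[(47,0),(3,0)]⟩⟩,.a ⟨true,0,⟨0,[(32,0)]⟩,⟨1,[(31,0),(8,0),
  (0,0)]⟩⟩ ⟨true,0,⟨0,[(0,0)]⟩,⟨0,[(1,0)]⟩⟩ ⟨false,1,⟨15,[(14,7),(14,0),(0,0),(0,7),(2,3),(2,3),(4,
  1),(6,3)]⟩,⟨0,[(32,0),(14,0)]⟩⟩,.o ⟨false,0,⟨0,[(26,0),(5,0),(4,0)]⟩,⟨7,[(29,0),(0,0),(0,3),(10,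
  1),(5,3)]⟩⟩]⟩) (.Q [0,0,0,0,0,0,0,0,1,0,0,-1] (.p false [0,0,0,1] [] (⟨0,[(32,0)]⟩,⟨1,[(31,0),(8,
  0),(0,0)]⟩) .k 0 (⟨0,[]⟩,⟨0,[]⟩) .k .k) (.I [0,1,0,0,0,0,0,0,-1] (.R ⟨1,false,false,true,[1,0,0,
  -1],[0,0,0,1],[0,1,0,0,0,0,0,0,-1],(⟨1,[(33,0),(8,0),(0,0)]⟩,⟨0,[(34,0)]⟩),(⟨0,[(34,0)]⟩,⟨1,[(33,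
  0),(8,0),(0,0)]⟩),⟨3,[(10,0),(14,0),(7,1),(11,0)]⟩,.k,.k,(.r (-1) ⟨7,[(8,3),(22,2),(0,0)]⟩ ⟨0,[(1,
  0),(7,1),(0,1),(0,1),(2,1),(4,1),(0,0),(13,0),(11,7),(2,7)]⟩),.k,(.r (-1) ⟨4,[(0,1),(4,0),(2,2),
  (5,0),(16,1)]⟩ ⟨0,[(1,1),(7,1),(0,1),(0,1),(2,1),(4,1),(0,0),(13,1),(11,7),(2,7)]⟩),.k,⟨false,1,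
  ⟨9,[(0,7),(4,3),(2,1),(5,3),(16,2),(18,4)]⟩,⟨0,[(2,1)]⟩⟩,⟨true,0,⟨0,[(33,0)]⟩,⟨0,[(28,0),(5,1),(4,
  0)]⟩⟩,⟨true,0,⟨0,[(53,0)]⟩,⟨0,[]⟩⟩,⟨false,0,⟨0,[(2,1),(30,0)]⟩,⟨9,[(0,5),(4,7),(2,3),(5,7),(16,0),
  (2,19),(9,4)]⟩⟩,⟨false,0,⟨0,[(49,0)]⟩,⟨3,[(4,1),(11,1),(14,0),(19,0)]⟩⟩,⟨false,0,⟨0,[(2,1),(30,0),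
  (15,0)]⟩,⟨3,[(5,3),(2,1),(5,1),(6,1),(9,0),(2,7),(4,1),(4,0)]⟩⟩,[.o ⟨false,0,⟨3,[(1,1),(1,1),(29,
  0),(1,0),(1,0)]⟩,⟨9,[(5,3),(2,1),(5,3),(16,1),(2,9),(9,4),(6,0)]⟩⟩,.o ⟨false,0,⟨0,[(1,0)]⟩,⟨1,
  [(31,0),(2,1),(9,0)]⟩⟩,.a ⟨true,0,⟨0,[(34,0)]⟩,⟨1,[(33,0),(8,0),(0,0)]⟩⟩ ⟨true,0,⟨0,[(0,0)]⟩,⟨0,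
  [(2,0)]⟩⟩ ⟨false,0,⟨0,[(2,0),(30,0)]⟩,⟨9,[(5,3),(2,1),(5,3),(16,1),(2,19),(9,4),(6,0)]⟩⟩,.o
  ⟨false,0,⟨0,[(28,0),(5,0),(4,0)]⟩,⟨7,[(31,0),(0,0),(0,3),(10,1),(5,3)]⟩⟩]⟩) (.Q [0,0,0,0,0,0,1,1,
  0,1,-1,-1] (.p false [0,0,1] [1,0,0,-1] (⟨0,[(43,0)]⟩,⟨0,[(42,0)]⟩) .k 2 (⟨1,[(33,0),(8,0),(0,
  0)]⟩,⟨0,[(34,0)]⟩) .k (.r 0 ⟨0,[(0,1),(4,0),(3,2),(0,2),(0,2),(7,2),(26,11),(2,11)]⟩ ⟨3,[(14,0),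
  (11,0),(2,0),(1,1),(6,0),(0,0)]⟩)) (.R ⟨1,false,false,true,[1,0,0,-1],[0,1,1],[0,1,0,0,0,0,0,0,
  -1],(⟨1,[(34,0),(8,0),(0,0)]⟩,⟨0,[(35,0)]⟩),(⟨0,[(44,0),(2,0)]⟩,⟨0,[(26,0)]⟩),⟨3,[(11,0),(14,0),
  (7,1),(11,0)]⟩,.k,.k,(.r (-1) ⟨7,[(9,3),(22,2),(0,0)]⟩ ⟨0,[(1,1),(4,0),(3,3),(0,3),(0,3),(2,0),(4,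
  3),(26,15),(2,15)]⟩),(.r (-1) ⟨0,[(9,0),(5,0),(38,0)]⟩ ⟨0,[(8,0),(33,0)]⟩),(.r (-2) ⟨7,[(9,3),(17,
  7),(4,2),(0,0)]⟩ ⟨0,[(0,0),(0,0),(11,0),(21,0),(2,0),(11,0)]⟩),.k,⟨true,1,⟨0,[(9,0),(5,0),(38,
  0)]⟩,⟨0,[(0,0),(0,0),(11,0),(21,0),(2,0)]⟩⟩,⟨false,1,⟨0,[(0,0),(11,0),(37,1)]⟩,⟨0,[(35,0),(1,
  0)]⟩⟩,⟨true,0,⟨0,[(54,0)]⟩,⟨0,[]⟩⟩,⟨false,0,⟨1,[(0,1),(0,0),(2,0),(45,1)]⟩,⟨3,[(9,1),(3,1),(1,1),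
  (1,1),(14,0),(2,3),(9,0)]⟩⟩,⟨false,0,⟨0,[(50,0)]⟩,⟨3,[(5,1),(11,1),(14,0),(19,0)]⟩⟩,⟨false,0,⟨1,
  [(0,1),(0,0),(2,0),(45,3)]⟩,⟨7,[(9,5),(3,5),(1,1),(1,5),(14,0),(2,7),(4,3),(4,0)]⟩⟩,[.o ⟨false,0,
  ⟨0,[(38,0),(11,0)]⟩,⟨0,[(22,0),(29,0)]⟩⟩,.a ⟨true,0,⟨0,[(0,0),(34,0),(14,0)]⟩,⟨1,[(12,0),(0,0),(2,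
  0),(7,0)]⟩⟩ ⟨false,1,⟨1,[(32,0),(18,0)]⟩,⟨0,[(3,0)]⟩⟩ ⟨true,0,⟨0,[(0,0),(49,0)]⟩,⟨1,[(13,0),(3,0),
  (4,0),(12,1),(4,0)]⟩⟩,.e ⟨false,1,⟨3,[(32,2),(0,0)]⟩,⟨0,[(1,0)]⟩⟩ ⟨false,0,⟨0,[(0,0),(49,0)]⟩,⟨0,
  [(22,0),(12,0),(16,0)]⟩⟩,.o ⟨false,0,⟨0,[(29,0),(5,0),(4,0)]⟩,⟨7,[(32,0),(0,0),(0,3),(10,1),(5,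
  3)]⟩⟩]⟩) (.I [0,-1,0,0,0,0,0,0,1] (.Q [0,0,0,0,0,-1,0,0,0,0,0,1] (.p true [0,0,0,1] [] (⟨0,[(36,
  0)]⟩,⟨1,[(35,0),(8,0),(0,0)]⟩) .k 0 (⟨0,[]⟩,⟨0,[]⟩) .k .k) (.R ⟨1,false,false,true,[0,0,0,1],[1,
  -1],[0,0,0,0,0,0,0,0,1],(⟨0,[(37,0)]⟩,⟨1,[(36,0),(8,0),(0,0)]⟩),(⟨0,[(48,0)]⟩,⟨0,[(49,0)]⟩),⟨0,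
  [(0,0)]⟩,.k,.k,(.r (-1) ⟨3,[(14,0),(12,0),(7,1)]⟩ ⟨0,[(8,0),(8,0),(38,1)]⟩),(.r 0 ⟨0,[(1,1),(6,0),
  (3,3),(0,3),(0,3),(2,0),(4,3),(26,15),(2,15)]⟩ ⟨7,[(11,3),(22,2),(0,0)]⟩),.k,.k,⟨false,0,⟨0,[(1,
  0),(50,0)]⟩,⟨1,[(6,0),(4,0),(22,0),(21,0)]⟩⟩,⟨true,0,⟨3,[(2,0),(12,0),(7,0),(13,2),(4,2),(4,0)]⟩,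
  ⟨1,[(36,0),(8,0),(0,0)]⟩⟩,⟨false,1,⟨3,[(34,0),(0,0),(18,1)]⟩,⟨0,[]⟩⟩,⟨false,1,⟨3,[(2,1),(19,1),
  (11,1),(2,1),(9,0),(6,0)]⟩,⟨1,[(1,1),(34,0),(8,0),(0,0),(5,1)]⟩⟩,⟨true,0,⟨0,[(52,0)]⟩,⟨0,[(51,
  0)]⟩⟩,⟨false,1,⟨1,[(34,0),(2,1),(9,0)]⟩,⟨1,[(1,1),(34,0),(8,0),(0,0)]⟩⟩,[.e ⟨true,0,⟨1,[(1,0),(4,
  0)]⟩,⟨0,[(8,0),(32,0),(0,0)]⟩⟩ ⟨true,0,⟨1,[(2,1),(19,0),(17,0)]⟩,⟨1,[(8,0),(1,0),(6,0),(18,0),(8,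
  0),(0,0)]⟩⟩,.o ⟨false,1,⟨27,[(19,7),(2,3),(1,3),(9,4),(0,4),(3,3),(2,3),(4,9)]⟩,⟨0,[(52,0)]⟩⟩,.a
  ⟨true,0,⟨1,[(36,0),(8,0),(0,0)]⟩,⟨0,[(37,0)]⟩⟩ ⟨false,0,⟨0,[(1,0)]⟩,⟨3,[(34,2),(0,0)]⟩⟩ ⟨true,0,
  ⟨1,[(2,1),(19,0),(17,0)]⟩,⟨1,[(36,0),(8,0),(0,0),(5,1)]⟩⟩,.o ⟨false,0,⟨1,[(36,0),(2,0),(2,0)]⟩,⟨1,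
  [(37,1),(9,0),(5,0)]⟩⟩]⟩) (.R ⟨0,false,false,true,[0,0,0,1],[1,-1],[1,1,0,-1,0,0,0,0,1],(⟨0,[(37,
  0)]⟩,⟨1,[(36,0),(8,0),(0,0)]⟩),(⟨0,[(48,0)]⟩,⟨0,[(49,0)]⟩),⟨0,[(0,0)]⟩,.k,.k,(.r (-1) ⟨3,[(14,0),
  (12,0),(7,1)]⟩ ⟨0,[(8,0),(8,0),(38,1)]⟩),(.r 0 ⟨0,[(0,15),(0,1),(0,15),(5,0),(3,3),(0,3),(0,3),(2,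
  0),(0,15),(3,3),(29,31)]⟩ ⟨7,[(11,3),(22,2),(0,0)]⟩),.k,.k,⟨false,0,⟨0,[(5,0)]⟩,⟨1,[(34,0),(18,
  0)]⟩⟩,⟨true,0,⟨3,[(2,0),(12,0),(7,0),(13,2),(4,2),(4,0)]⟩,⟨1,[(36,0),(8,0),(0,0)]⟩⟩,⟨true,0,⟨0,
  [(51,0)]⟩,⟨0,[(52,0)]⟩⟩,⟨false,1,⟨3,[(2,1),(19,1),(11,1),(2,1),(9,0),(6,0)]⟩,⟨1,[(1,1),(34,0),(8,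
  0),(0,0),(5,1)]⟩⟩,⟨false,0,⟨0,[]⟩,⟨0,[]⟩⟩,⟨false,0,⟨0,[]⟩,⟨0,[]⟩⟩,[.e ⟨true,0,⟨1,[(1,0),(4,0),(44,
  1)]⟩,⟨0,[(8,0),(8,0),(38,0)]⟩⟩ ⟨true,0,⟨1,[(2,1),(19,0),(17,0)]⟩,⟨1,[(8,0),(1,0),(6,0),(18,0),(8,
  0),(0,0)]⟩⟩,.o ⟨false,1,⟨27,[(19,7),(2,3),(1,3),(9,4),(0,4),(3,3),(2,3),(4,9)]⟩,⟨0,[(52,0)]⟩⟩,.a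
  ⟨true,0,⟨1,[(36,0),(8,0),(0,0)]⟩,⟨0,[(37,0)]⟩⟩ ⟨false,0,⟨0,[(1,0),(49,0)]⟩,⟨1,[(34,0),(17,1),(1,
  0)]⟩⟩ ⟨true,0,⟨1,[(2,1),(19,0),(17,0)]⟩,⟨1,[(36,0),(8,0),(0,0),(5,1)]⟩⟩,.o ⟨false,0,⟨1,[(36,0),(2,
  0),(2,0)]⟩,⟨1,[(37,1),(9,0),(5,0)]⟩⟩]⟩)) (.K ⟨1,[0,0,0,1],0,0,(⟨0,[(36,0)]⟩,⟨1,[(35,0),(8,0),(0,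
  0)]⟩),.k,(.r (-1) ⟨3,[(13,0),(12,0),(7,1)]⟩ ⟨1,[(0,1),(6,0),(1,0),(6,0)]⟩),(.r 0 ⟨0,[(2,1),(4,0),
  (3,3),(0,3),(0,3),(2,0),(4,3),(26,15),(2,15)]⟩ ⟨7,[(10,3),(22,2),(0,0)]⟩),.k,.k,[⟨1,[(36,1),(4,0),
  (0,0)]⟩,⟨1,[(35,0),(2,0),(2,0)]⟩,⟨0,[(0,0),(35,0)]⟩,⟨1,[(2,1),(32,0),(8,0),(0,0)]⟩]⟩)))) (.R ⟨2,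
  false,false,false,[0,1],[1,0,0,-1],[1,1,1],(⟨0,[]⟩,⟨0,[]⟩),(⟨1,[(32,0),(8,0),(0,0)]⟩,⟨0,[(33,
  0)]⟩),⟨0,[]⟩,.k,.k,.k,(.r 0 ⟨0,[(1,0),(6,1),(0,1),(0,1),(2,1),(4,1),(0,0),(25,7),(2,7)]⟩ ⟨7,[(7,
  3),(22,2),(0,0)]⟩),.k,.k,⟨false,0,⟨0,[(2,0)]⟩,⟨9,[(4,3),(2,1),(5,3),(16,1),(18,4),(0,0)]⟩⟩,⟨true,
  0,⟨0,[(27,0),(5,0),(4,0)]⟩,⟨1,[(32,0),(8,0),(0,0)]⟩⟩,⟨true,0,⟨0,[(47,0)]⟩,⟨0,[(48,0)]⟩⟩,⟨false,1,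
  ⟨1,[(0,1),(14,0),(27,0),(2,0)]⟩,⟨1,[(1,1),(30,0),(8,0),(0,0),(5,1)]⟩⟩,⟨false,0,⟨0,[]⟩,⟨3,[(30,0),
  (0,0),(18,1)]⟩⟩,⟨false,1,⟨1,[(0,1),(42,0),(6,0)]⟩,⟨1,[(1,1),(30,0),(8,0),(0,0)]⟩⟩,[.a ⟨true,0,⟨0,
  [(0,0)]⟩,⟨1,[(1,1),(30,0),(8,0),(0,0)]⟩⟩ ⟨false,0,⟨0,[(52,0)]⟩,⟨1,[(49,0),(0,0)]⟩⟩ ⟨true,0,⟨0,[(0,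
  0),(26,0),(10,0)]⟩,⟨1,[(1,1),(30,0),(8,0),(0,0)]⟩⟩,.o ⟨false,1,⟨1,[(0,1),(42,0),(6,0)]⟩,⟨1,[(1,1),
  (30,0),(1,0),(1,0)]⟩⟩,.o ⟨false,1,⟨3,[(30,0),(0,0),(17,1)]⟩,⟨0,[(27,0),(10,0)]⟩⟩,.e ⟨false,0,⟨0,
  []⟩,⟨3,[(30,0),(0,0),(18,1)]⟩⟩ ⟨false,1,⟨1,[(0,1),(42,0),(6,0)]⟩,⟨1,[(1,1),(30,0),(8,0),(0,
  0)]⟩⟩]⟩)))) (.R ⟨1,false,false,true,[1,0,0,-1],[1,0,-1],[1,1,1],(⟨1,[(29,0),(8,0),(0,0)]⟩,⟨0,[(30,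
  0)]⟩),(⟨0,[(38,0)]⟩,⟨0,[(39,0)]⟩),⟨3,[(6,0),(14,0),(7,1),(11,0)]⟩,.k,.k,(.x 0 ⟨7,[(5,1),(0,1),(20,
  0),(0,0),(6,2),(0,0)]⟩ ⟨15,[(2,7),(23,3),(0,2),(0,2),(9,7),(1,1)]⟩),.k,(.r 0 ⟨5,[(0,3),(0,0),(2,
  0),(3,0),(2,0),(3,0),(0,1)]⟩ ⟨11,[(3,7),(6,3),(14,3),(1,2),(0,4),(5,3),(0,3)]⟩),.k,⟨false,0,⟨0,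
  [(37,0)]⟩,⟨0,[(25,0)]⟩⟩,⟨true,0,⟨1,[(26,0),(2,0)]⟩,⟨0,[(30,0),(4,0)]⟩⟩,⟨true,0,⟨0,[(3,0),(40,0)]⟩,
  ⟨0,[(0,0)]⟩⟩,⟨false,1,⟨7,[(8,1),(4,1),(8,3),(3,0),(0,0),(0,4),(0,2)]⟩,⟨0,[(0,0),(9,0),(5,0),(13,
  0),(4,0)]⟩⟩,⟨false,0,⟨0,[(3,0)]⟩,⟨9,[(1,1),(2,5),(5,1),(16,0),(19,2)]⟩⟩,⟨false,1,⟨3,[(13,3),(13,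
  0),(0,2)]⟩,⟨0,[(0,0),(9,1),(4,0),(0,0),(13,0)]⟩⟩,[.o ⟨false,0,⟨0,[(31,0)]⟩,⟨0,[(33,0),(13,0)]⟩⟩,
  .a ⟨true,0,⟨0,[(19,0)]⟩,⟨0,[(11,0),(33,0)]⟩⟩ ⟨false,0,⟨0,[]⟩,⟨3,[(27,0),(0,0),(17,1)]⟩⟩ ⟨true,0,
  ⟨2,[(7,0),(0,0),(4,0),(15,0)]⟩,⟨0,[(30,0),(4,0),(1,0)]⟩⟩,.e ⟨false,0,⟨1,[(35,0),(0,0)]⟩,⟨1,[(46,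
  0),(0,0)]⟩⟩ ⟨false,0,⟨2,[(7,0),(0,0),(4,0),(15,0)]⟩,⟨0,[(30,0),(2,0),(13,0)]⟩⟩,.o ⟨false,0,⟨0,
  [(24,0),(5,0),(4,0)]⟩,⟨7,[(27,0),(0,0),(0,3),(10,1),(5,3)]⟩⟩]⟩))))) (.R ⟨1,false,false,true,[1,0,
  0,-1],[1,0,-1],[0,1,0,0,0,0,0,0,-1],(⟨1,[(25,0),(8,0),(0,0)]⟩,⟨0,[(26,0)]⟩),(⟨0,[(34,0)]⟩,⟨0,[(35,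
  0)]⟩),⟨3,[(2,0),(14,0),(7,1),(11,0)]⟩,.k,.k,(.r (-1) ⟨3,[(3,0),(12,0),(6,1)]⟩ ⟨7,[(0,3),(22,0),(0,
  2)]⟩),.k,(.r (-1) ⟨11,[(12,3),(3,3),(6,6),(0,0)]⟩ ⟨0,[(0,0),(0,1),(0,1),(0,2),(2,1),(4,1),(0,0),
  (25,7),(2,7)]⟩),.k,⟨false,1,⟨1,[(23,0),(9,1),(8,0)]⟩,⟨0,[(0,0),(2,0)]⟩⟩,⟨true,0,⟨1,[(22,0),(2,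
  0)]⟩,⟨0,[(26,0),(4,0)]⟩⟩,⟨true,0,⟨0,[(45,0)]⟩,⟨0,[]⟩⟩,⟨false,0,⟨1,[(0,1),(2,1),(18,0),(2,0)]⟩,⟨1,
  [(6,0),(3,0),(1,0),(10,0),(2,1),(4,1),(9,0)]⟩⟩,⟨false,0,⟨0,[(41,0)]⟩,⟨7,[(8,3),(14,0),(0,0),(6,1),
  (0,1),(10,1)]⟩⟩,⟨false,0,⟨6,[(0,4),(2,3),(5,6),(2,1),(11,0)]⟩,⟨1,[(6,1),(3,0),(0,0),(0,0),(10,0),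
  (2,1),(4,0)]⟩⟩,[.o ⟨false,0,⟨0,[(27,0)]⟩,⟨0,[(29,0),(13,0)]⟩⟩,.a ⟨true,0,⟨0,[(15,0)]⟩,⟨0,[(7,0),
  (33,0)]⟩⟩ ⟨false,1,⟨1,[(23,0),(18,0)]⟩,⟨6,[(0,4),(2,3),(8,1),(11,0)]⟩⟩ ⟨true,0,⟨2,[(3,0),(0,0),(4,
  0),(15,0)]⟩,⟨0,[(26,0),(4,0),(1,0)]⟩⟩,.e ⟨false,1,⟨3,[(23,2),(0,0)]⟩,⟨0,[(0,0),(2,0),(2,0),(5,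
  0)]⟩⟩ ⟨false,0,⟨2,[(3,0),(0,0),(4,0),(15,0)]⟩,⟨0,[(26,0),(2,0),(13,0)]⟩⟩,.o ⟨false,0,⟨0,[(20,0),
  (5,0),(4,0)]⟩,⟨7,[(23,0),(0,0),(0,3),(10,1),(5,3)]⟩⟩]⟩)))))

theorem ok33 : chk (cU (-1) false 2) t33 r25 = true := by decide +kernel

noncomputable def t60 : Tre :=
  (.R ⟨2,true,false,false,[0,1],[0,0,1],[0,1,1,1],(⟨0,[]⟩,⟨0,[]⟩),(⟨0,[(25,0)]⟩,⟨0,[(24,0)]⟩),⟨0,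
  []⟩,.k,.k,.k,.k,.k,.k,⟨false,0,⟨0,[(0,0)]⟩,⟨1,[(6,0),(16,0),(9,0)]⟩⟩,⟨true,0,⟨0,[(21,0)]⟩,⟨1,[(12,
  0),(11,0),(0,0)]⟩⟩,⟨true,0,⟨0,[(35,0)]⟩,⟨0,[]⟩⟩,⟨false,1,⟨0,[(9,0),(23,0)]⟩,⟨0,[(2,0)]⟩⟩,⟨false,0,
  ⟨0,[(31,0)]⟩,⟨0,[(30,0),(2,0)]⟩⟩,⟨true,0,⟨0,[(5,0)]⟩,⟨0,[(20,0)]⟩⟩,[]⟩)

theorem ok60 : chk (cU (-1) false 2) t60 l38 = true := by decide +kernel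

noncomputable def t72 : Tre :=
  (.Q [0,-1,0,2,0,0,0,0,0,1] (.pp false [-1,1]) (.R ⟨2,true,false,true,[0,1],[1,-1],[0,1,1,1],(⟨0,
  []⟩,⟨0,[]⟩),(⟨0,[(29,0)]⟩,⟨0,[(30,0)]⟩),⟨0,[]⟩,.k,.k,.k,(.r 1 ⟨0,[(1,0),(31,0)]⟩ ⟨2,[(8,1),(1,1),
  (4,0),(0,0)]⟩),.k,.k,⟨true,(-1),⟨0,[(1,0),(31,0)]⟩,⟨3,[(2,0),(5,0),(1,1),(21,2),(2,0)]⟩⟩,⟨false,0,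
  ⟨8,[(1,2),(0,0),(0,0),(1,1),(14,0),(2,0),(4,2)]⟩,⟨0,[(26,0),(0,0),(6,0)]⟩⟩,⟨true,0,⟨0,[(37,0)]⟩,
  ⟨0,[]⟩⟩,⟨false,1,⟨0,[(5,0),(26,0),(2,0)]⟩,⟨0,[(0,0)]⟩⟩,⟨false,0,⟨0,[(33,0)]⟩,⟨0,[(32,0),(2,0)]⟩⟩,
  ⟨true,0,⟨0,[(5,0)]⟩,⟨0,[(0,0),(31,0)]⟩⟩,[]⟩) (.Q [0,0,-1,0,1,0,2,0,0,1,-2] (.p false [0,0,1] [1,0,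
  -1] (⟨0,[(27,0)]⟩,⟨0,[(26,0)]⟩) .k 2 (⟨0,[(26,0)]⟩,⟨0,[(27,0)]⟩) .k (.r 0 ⟨0,[(25,1)]⟩ ⟨1,[(3,0),
  (9,1),(8,0),(0,0)]⟩)) (.I [0,0,1,1,-1,0,0,2] (.K ⟨2,[1,-1,-1],(-1),0,(⟨0,[(11,0)]⟩,⟨0,[(29,0),(2,
  0)]⟩),.k,(.r (-2) ⟨5,[(10,1),(1,7),(4,0),(0,0)]⟩ ⟨7,[(0,3),(2,5),(13,0),(0,0),(16,5)]⟩),.k,(.r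
  (-2) ⟨3,[(5,0),(6,3),(2,1),(1,0),(0,0),(5,0),(0,0)]⟩ ⟨0,[(0,0)]⟩),.k,[⟨0,[(1,0)]⟩,⟨1,[(2,0),(0,1),
  (0,0),(1,0),(7,0)]⟩,⟨0,[(0,0),(0,0),(22,0)]⟩,⟨0,[(2,0),(3,0)]⟩]⟩) (.K ⟨2,[1,-1,-1],(-1),0,(⟨0,
  [(11,0)]⟩,⟨0,[(29,0),(2,0)]⟩),.k,(.r (-2) ⟨5,[(10,1),(1,7),(4,0),(0,0)]⟩ ⟨0,[(3,0),(23,0),(7,
  0)]⟩),.k,(.x 0 ⟨0,[(11,0),(2,0),(7,0),(5,0)]⟩ ⟨0,[(0,0),(8,1),(19,1),(2,0),(2,0)]⟩),.k,[⟨0,[(1,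
  0)]⟩,⟨1,[(2,0),(0,1),(0,0),(1,0),(7,0)]⟩,⟨0,[(23,0),(4,0),(0,0),(5,0)]⟩,⟨0,[(2,0),(3,0)]⟩]⟩)) (.I
  [1,1,1,0,0,0,0,-2] (.Q [0,0,0,0,0,1,0,0,0,0,-1] (.ed true [1,-1,1] .k) (.Q [0,0,0,1,0,0,-2,-2,0,0,
  2] (.p true [0,0,1] [0,1,-1] (⟨0,[(30,0)]⟩,⟨0,[(29,0)]⟩) .k 2 (⟨0,[(0,0)]⟩,⟨0,[(30,0),(1,0)]⟩) .k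
  (.r 0 ⟨0,[(28,1)]⟩ ⟨2,[(1,1),(14,1),(21,0)]⟩)) (.R ⟨1,true,false,false,[1,0,-1],[1,-1,1],[1,1,0,
  -1,0,0,0,-1],(⟨0,[(30,0)]⟩,⟨0,[(31,0)]⟩),(⟨0,[(31,0),(1,0)]⟩,⟨0,[(1,0)]⟩),⟨0,[(13,0)]⟩,.k,.k,.k,
  (.x 0 ⟨0,[(1,0),(1,0),(26,0),(7,0)]⟩ ⟨1,[(11,0),(5,0),(9,2),(3,3),(0,0),(0,1)]⟩),.k,.k,⟨true,0,⟨0,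
  [(2,0)]⟩,⟨0,[(6,0),(22,0),(7,0)]⟩⟩,⟨false,1,⟨0,[(11,0),(5,0),(9,0)]⟩,⟨0,[(3,0),(26,0),(0,0),(6,
  0)]⟩⟩,⟨true,0,⟨0,[(36,0)]⟩,⟨0,[(37,0)]⟩⟩,⟨false,1,⟨0,[(11,0),(3,0),(23,0)]⟩,⟨0,[(0,0)]⟩⟩,⟨false,0,
  ⟨0,[]⟩,⟨3,[(19,0),(0,0),(18,1)]⟩⟩,⟨true,0,⟨0,[(11,1)]⟩,⟨0,[(0,0),(35,0)]⟩⟩,[]⟩) (.I [0,0,-2,-2,1,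
  0,0,1,-1] (.Q [0,0,0,0,0,-2,0,0,0,1,1] (.p true [1,-1,1] [] (⟨0,[(32,0),(1,0)]⟩,⟨0,[(2,0)]⟩) .k 0
  (⟨0,[]⟩,⟨0,[]⟩) .k .k) (.R ⟨1,true,false,true,[1,-1,1],[1,0,-1],[0,0,-1,-1,0,0,0,1],(⟨1,[(0,0),
  (31,0),(0,1)]⟩,⟨0,[(3,0)]⟩),(⟨0,[(32,0)]⟩,⟨0,[(33,0)]⟩),⟨0,[(0,0)]⟩,.k,.k,(.r (-1) ⟨0,[(14,0)]⟩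
  ⟨3,[(4,1),(2,2),(13,0),(0,0),(16,4),(1,0)]⟩),(.r 0 ⟨0,[(2,0),(2,0),(26,0),(0,0),(6,0)]⟩ ⟨3,[(4,3),
  (16,0),(0,0),(16,3),(1,1)]⟩),(.r (-1) ⟨0,[(14,0),(16,0)]⟩ ⟨1,[(4,1),(2,0),(31,2),(1,0)]⟩),.k,
  ⟨false,1,⟨0,[(8,0),(22,0),(8,0)]⟩,⟨0,[(4,0),(34,0)]⟩⟩,⟨true,0,⟨0,[(5,0),(26,0),(0,0),(6,0)]⟩,⟨0,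
  [(29,1)]⟩⟩,⟨false,1,⟨3,[(21,0),(0,0),(18,1)]⟩,⟨0,[]⟩⟩,⟨true,0,⟨0,[(10,0),(17,0)]⟩,⟨0,[(2,0)]⟩⟩,
  ⟨true,0,⟨0,[(39,0)]⟩,⟨0,[(38,0)]⟩⟩,⟨false,0,⟨0,[(10,1)]⟩,⟨0,[(2,0),(35,0),(2,0)]⟩⟩,[]⟩) (.Q [0,-1,
  0,1,0,0,0,0,-1,0,0,1] (.p true [0,0,0,1] [] (⟨0,[(24,0)]⟩,⟨1,[(23,0),(8,0),(0,0)]⟩) .k 0 (⟨0,[]⟩,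
  ⟨0,[]⟩) .k .k) (.I [1,0,0,1,0,0,0,-1,-1] (.R ⟨0,false,false,false,[0,0,0,1],[0,1],[0,1,0,0,0,0,0,
  0,1],(⟨0,[(26,0)]⟩,⟨1,[(25,0),(8,0),(0,0)]⟩),(⟨0,[(38,0)]⟩,⟨0,[(37,0)]⟩),⟨1,[(2,0),(22,0),(9,0)]⟩,
  .k,.k,(.x 0 ⟨13,[(4,0),(3,1),(0,4),(1,1),(16,1),(7,4),(0,13)]⟩ ⟨3,[(23,0),(0,0),(13,3),(3,1)]⟩),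
  (.x 0 ⟨13,[(4,0),(3,1),(0,4),(1,1),(16,1),(7,4),(0,13)]⟩ ⟨3,[(23,0),(0,0),(13,3),(3,1)]⟩),.k,.k,
  ⟨true,1,⟨1,[(24,0),(15,1),(1,0)]⟩,⟨0,[(0,0),(8,0),(0,0)]⟩⟩,⟨false,1,⟨0,[(26,0),(15,0)]⟩,⟨1,[(25,
  0),(2,0),(2,0)]⟩⟩,⟨true,0,⟨0,[(45,0)]⟩,⟨0,[]⟩⟩,⟨false,0,⟨0,[(1,0)]⟩,⟨7,[(8,3),(14,0),(0,4),(0,3),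
  (17,1)]⟩⟩,⟨false,0,⟨0,[]⟩,⟨0,[]⟩⟩,⟨false,0,⟨0,[]⟩,⟨0,[]⟩⟩,[.o ⟨false,0,⟨0,[(41,0)]⟩,⟨3,[(8,1),(14,
  0),(0,0),(11,0),(6,0)]⟩⟩,.o ⟨false,1,⟨3,[(23,0),(0,0),(16,3),(1,1)]⟩,⟨0,[(13,0)]⟩⟩,.a ⟨true,0,⟨1,
  [(25,0),(8,0),(0,0)]⟩,⟨0,[(26,0)]⟩⟩ ⟨false,1,⟨3,[(23,0),(0,2)]⟩,⟨0,[(0,0),(9,0)]⟩⟩ ⟨true,0,⟨0,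
  [(26,0),(14,0)]⟩,⟨1,[(8,0),(16,0),(19,0)]⟩⟩,.o ⟨false,0,⟨1,[(25,0),(2,0),(2,0)]⟩,⟨1,[(26,1),(9,0),
  (5,0)]⟩⟩]⟩) (.R ⟨0,false,false,false,[0,0,0,1],[0,1],[1,0,0,0,0,0,0,0,1],(⟨0,[(26,0)]⟩,⟨1,[(25,0),
  (8,0),(0,0)]⟩),(⟨0,[(38,0)]⟩,⟨0,[(37,0)]⟩),⟨1,[(2,0),(22,0),(9,0)]⟩,.k,.k,(.r (-1) ⟨3,[(0,1),(17,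
  1),(5,0),(17,0)]⟩ ⟨1,[(9,0),(13,0),(17,0)]⟩),(.r (-1) ⟨3,[(0,1),(17,1),(5,0),(17,0)]⟩ ⟨1,[(9,0),
  (13,0),(17,0)]⟩),.k,.k,⟨true,1,⟨3,[(0,1),(17,1),(5,0),(17,0)]⟩,⟨1,[(1,1),(6,0),(0,1),(15,0),(19,
  0)]⟩⟩,⟨false,1,⟨0,[(26,0),(15,0)]⟩,⟨1,[(25,0),(2,0),(2,0)]⟩⟩,⟨true,0,⟨0,[]⟩,⟨0,[(45,0)]⟩⟩,⟨false,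
  0,⟨0,[(1,0)]⟩,⟨7,[(8,3),(14,0),(0,4),(0,3),(17,1)]⟩⟩,⟨false,0,⟨0,[]⟩,⟨0,[]⟩⟩,⟨false,0,⟨0,[]⟩,⟨0,
  []⟩⟩,[.o ⟨false,0,⟨0,[(41,0)]⟩,⟨3,[(8,1),(14,0),(0,0),(11,0),(6,0)]⟩⟩,.o ⟨false,1,⟨3,[(23,0),(0,
  0),(16,3),(1,1)]⟩,⟨0,[(13,0)]⟩⟩,.a ⟨true,0,⟨1,[(25,0),(8,0),(0,0)]⟩,⟨0,[(26,0)]⟩⟩ ⟨false,1,⟨1,
  [(24,0),(18,0)]⟩,⟨1,[(1,1),(6,0),(16,0),(19,0)]⟩⟩ ⟨true,0,⟨0,[(26,0),(14,0)]⟩,⟨1,[(8,0),(16,0),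
  (19,0)]⟩⟩,.o ⟨false,0,⟨1,[(25,0),(2,0),(2,0)]⟩,⟨1,[(26,1),(9,0),(5,0)]⟩⟩]⟩)) (.Q [0,-1,0,1,0,0,0,
  0,1,1,0,-1] (.p false [0,0,0,1] [1] (⟨0,[(25,0)]⟩,⟨1,[(24,0),(8,0),(0,0)]⟩) .k 1 (⟨0,[]⟩,⟨0,[]⟩)
  .k .k) (.R ⟨0,false,false,true,[0,0,0,1],[1,-1],[0,1,0,0,0,0,0,0,1],(⟨0,[(26,0)]⟩,⟨1,[(25,0),(8,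
  0),(0,0)]⟩),(⟨0,[(37,0)]⟩,⟨0,[(38,0)]⟩),⟨1,[(2,0),(22,0),(9,0)]⟩,.k,.k,(.r (-1) ⟨7,[(0,1),(7,1),
  (7,1),(1,1),(5,2),(1,1),(15,0)]⟩ ⟨1,[(9,0),(13,0),(17,0)]⟩),(.r 0 ⟨1,[(9,0),(14,0),(16,0)]⟩ ⟨2,
  [(3,0),(14,0),(4,0)]⟩),.k,.k,⟨false,0,⟨0,[(0,0),(12,0),(12,0),(14,0)]⟩,⟨2,[(3,0),(14,0),(4,0)]⟩⟩,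
  ⟨true,0,⟨13,[(4,0),(3,1),(0,4),(1,1),(14,13),(1,1),(7,4)]⟩,⟨1,[(25,0),(8,0),(0,0)]⟩⟩,⟨true,0,⟨0,
  [(45,0)]⟩,⟨0,[]⟩⟩,⟨false,1,⟨3,[(8,1),(14,1),(2,3),(9,0),(6,0)]⟩,⟨0,[(0,0)]⟩⟩,⟨false,0,⟨0,[]⟩,⟨0,
  []⟩⟩,⟨false,0,⟨0,[]⟩,⟨0,[]⟩⟩,[.o ⟨false,0,⟨0,[(13,0)]⟩,⟨3,[(23,0),(0,0),(16,3),(1,1)]⟩⟩,.o ⟨false,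
  1,⟨3,[(8,1),(14,0),(0,0),(11,0),(6,0)]⟩,⟨0,[(41,0)]⟩⟩,.a ⟨true,0,⟨1,[(25,0),(8,0),(0,0)]⟩,⟨0,[(26,
  0)]⟩⟩ ⟨false,0,⟨0,[(0,0),(12,0),(12,0)]⟩,⟨1,[(23,0),(19,0)]⟩⟩ ⟨true,0,⟨0,[(13,0),(12,0)]⟩,⟨1,[(25,
  0),(8,0),(0,0),(5,1)]⟩⟩,.o ⟨false,0,⟨1,[(25,0),(2,0),(2,0)]⟩,⟨1,[(26,1),(9,0),(5,0)]⟩⟩]⟩) (.Q [0,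
  0,0,0,0,0,0,0,-1,0,0,1] (.p true [0,0,0,1] [] (⟨0,[(26,0)]⟩,⟨1,[(25,0),(8,0),(0,0)]⟩) .k 0 (⟨0,
  []⟩,⟨0,[]⟩) .k .k) (.R ⟨0,false,false,false,[0,0,0,1],[0,1],[1,0,1,1],(⟨0,[(27,0)]⟩,⟨1,[(26,0),(8,
  0),(0,0)]⟩),(⟨0,[(39,0)]⟩,⟨0,[(38,0)]⟩),⟨1,[(3,0),(22,0),(9,0)]⟩,.k,.k,(.r (-1) ⟨2,[(2,0),(8,0),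
  (7,0),(5,0),(1,0),(15,0)]⟩ ⟨1,[(10,0),(13,0),(17,0)]⟩),(.r (-1) ⟨2,[(2,0),(8,0),(7,0),(5,0),(1,0),
  (15,0)]⟩ ⟨1,[(10,0),(13,0),(17,0)]⟩),.k,.k,⟨true,0,⟨0,[]⟩,⟨1,[(32,0),(0,0)]⟩⟩,⟨false,1,⟨0,[(27,0),
  (15,0)]⟩,⟨1,[(26,0),(2,0),(2,0)]⟩⟩,⟨false,0,⟨3,[(0,1),(7,0),(2,0),(0,2),(3,1),(7,0),(1,0),(15,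
  4)]⟩,⟨2,[(2,0),(8,0),(7,0),(5,0),(1,0),(15,0)]⟩⟩,⟨true,0,⟨0,[(0,0),(41,0)]⟩,⟨0,[(2,0)]⟩⟩,⟨false,0,
  ⟨0,[]⟩,⟨0,[]⟩⟩,⟨false,0,⟨0,[]⟩,⟨0,[]⟩⟩,[.o ⟨false,0,⟨0,[(42,0)]⟩,⟨3,[(9,1),(14,0),(0,0),(11,0),(6,
  0)]⟩⟩,.o ⟨false,1,⟨3,[(24,0),(0,0),(16,3),(1,1)]⟩,⟨0,[(14,0)]⟩⟩,.a ⟨true,0,⟨1,[(26,0),(8,0),(0,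
  0)]⟩,⟨0,[(27,0)]⟩⟩ ⟨false,0,⟨1,[(10,0),(31,0),(1,0)]⟩,⟨11,[(4,3),(14,3),(4,0),(0,2)]⟩⟩ ⟨true,0,⟨0,
  [(27,0),(14,0)]⟩,⟨1,[(9,0),(16,0),(19,0)]⟩⟩,.o ⟨false,0,⟨1,[(26,0),(2,0),(2,0)]⟩,⟨1,[(27,1),(9,0),
  (5,0)]⟩⟩]⟩) (.R ⟨0,false,false,true,[0,0,0,1],[1,-1],[0,1,-1,-1],(⟨0,[(27,0)]⟩,⟨1,[(26,0),(8,0),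
  (0,0)]⟩),(⟨0,[(38,0)]⟩,⟨0,[(39,0)]⟩),⟨1,[(3,0),(22,0),(9,0)]⟩,.k,.k,(.r (-1) ⟨2,[(0,0),(16,0),(1,
  0),(5,0),(1,0)]⟩ ⟨1,[(10,0),(13,0),(17,0)]⟩),(.r 0 ⟨1,[(10,0),(14,0),(16,0)]⟩ ⟨2,[(4,0),(14,0),(4,
  0)]⟩),.k,.k,⟨false,1,⟨3,[(24,0),(0,0),(17,1)]⟩,⟨0,[]⟩⟩,⟨true,0,⟨13,[(5,0),(3,1),(0,4),(1,1),(14,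
  13),(1,1),(7,4)]⟩,⟨1,[(26,0),(8,0),(0,0)]⟩⟩,⟨false,1,⟨2,[(4,0),(14,0),(4,0)]⟩,⟨1,[(0,1),(9,0),(16,
  1),(14,0),(1,0)]⟩⟩,⟨true,0,⟨0,[(1,0)]⟩,⟨0,[(0,0),(34,0),(0,0),(5,0)]⟩⟩,⟨false,0,⟨0,[]⟩,⟨0,[]⟩⟩,
  ⟨false,0,⟨0,[]⟩,⟨0,[]⟩⟩,[.o ⟨false,0,⟨0,[(14,0)]⟩,⟨3,[(24,0),(0,0),(16,3),(1,1)]⟩⟩,.o ⟨false,1,⟨3,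
  [(9,1),(14,0),(0,0),(11,0),(6,0)]⟩,⟨0,[(42,0)]⟩⟩,.a ⟨true,0,⟨1,[(26,0),(8,0),(0,0)]⟩,⟨0,[(27,
  0)]⟩⟩ ⟨false,1,⟨11,[(4,3),(14,3),(4,0),(0,2)]⟩,⟨1,[(10,0),(31,0),(1,0)]⟩⟩ ⟨true,0,⟨0,[(14,0),(12,
  0)]⟩,⟨1,[(26,0),(8,0),(0,0),(5,1)]⟩⟩,.o ⟨false,0,⟨1,[(26,0),(2,0),(2,0)]⟩,⟨1,[(27,1),(9,0),(5,
  0)]⟩⟩]⟩))))) (.Q [0,0,0,0,0,1,0,0,0,0,0,-1] (.p false [0,0,0,1] [] (⟨0,[(23,0)]⟩,⟨1,[(22,0),(8,0),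
  (0,0)]⟩) .k 0 (⟨0,[]⟩,⟨0,[]⟩) .k .k) (.R ⟨0,false,false,false,[0,0,0,1],[0,0,1],[0,1,0,0,0,0,0,0,
  1],(⟨0,[(24,0)]⟩,⟨1,[(23,0),(8,0),(0,0)]⟩),(⟨0,[(33,0)]⟩,⟨0,[(32,0)]⟩),⟨0,[(0,0)]⟩,.k,.k,(.r (-1)
  ⟨2,[(1,0),(12,1),(1,0),(5,0)]⟩ ⟨1,[(7,0),(13,0),(17,0)]⟩),.k,.k,.k,⟨true,0,⟨0,[(1,0),(4,0),(25,0),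
  (0,0),(6,0)]⟩,⟨1,[(7,0),(0,1),(12,0),(17,0)]⟩⟩,⟨false,1,⟨0,[(13,0),(5,0),(4,0)]⟩,⟨1,[(20,0),(2,
  0)]⟩⟩,⟨true,0,⟨0,[(43,0)]⟩,⟨0,[]⟩⟩,⟨false,1,⟨1,[(13,1),(7,0),(2,1),(16,0)]⟩,⟨1,[(1,1),(3,0),(0,0),
  (1,0),(7,0),(6,0),(8,0),(0,0),(6,1)]⟩⟩,⟨false,0,⟨0,[]⟩,⟨0,[]⟩⟩,⟨false,0,⟨0,[]⟩,⟨0,[]⟩⟩,[.o ⟨false,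
  0,⟨0,[(13,0)]⟩,⟨1,[(28,1),(5,0),(6,0)]⟩⟩,.o ⟨false,1,⟨3,[(13,3),(7,0),(0,0),(18,1)]⟩,⟨0,[(25,
  0)]⟩⟩,.a ⟨true,0,⟨1,[(23,0),(8,0),(0,0)]⟩,⟨0,[(24,0)]⟩⟩ ⟨false,0,⟨0,[(1,0),(12,0)]⟩,⟨1,[(21,0),
  (19,0)]⟩⟩ ⟨true,0,⟨0,[(13,0),(10,0)]⟩,⟨1,[(23,0),(1,0),(2,0)]⟩⟩,.o ⟨false,0,⟨1,[(23,0),(2,0),(2,
  0)]⟩,⟨1,[(24,1),(9,0),(5,0)]⟩⟩]⟩) (.R ⟨1,true,false,true,[1,-1,1],[1,0,-1],[0,0,-1,-1,0,0,0,1],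
  (⟨0,[(33,0),(1,0)]⟩,⟨0,[(3,0)]⟩),(⟨0,[(32,0)]⟩,⟨0,[(33,0)]⟩),⟨0,[(0,1),(22,0),(9,0)]⟩,.k,.k,(.r
  (-1) ⟨0,[(14,0)]⟩ ⟨3,[(1,3),(19,2),(0,0)]⟩),(.r 0 ⟨0,[(2,0),(2,0),(26,0),(0,0),(6,0)]⟩ ⟨3,[(1,1),
  (2,1),(14,1),(1,1),(0,0),(18,0)]⟩),(.r (-1) ⟨0,[(14,0),(16,0)]⟩ ⟨5,[(1,5),(2,1),(14,1),(1,2),(19,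
  0)]⟩),.k,⟨false,1,⟨0,[(8,0),(22,0),(8,0)]⟩,⟨0,[(4,0),(34,0)]⟩⟩,⟨true,0,⟨0,[(5,0),(26,0),(0,0),(6,
  0)]⟩,⟨0,[(29,1)]⟩⟩,⟨false,1,⟨3,[(21,0),(0,0),(18,1)]⟩,⟨0,[]⟩⟩,⟨true,0,⟨0,[(10,0),(17,0)]⟩,⟨0,[(2,
  0)]⟩⟩,⟨true,0,⟨0,[(39,0)]⟩,⟨0,[(38,0)]⟩⟩,⟨false,0,⟨0,[(10,1)]⟩,⟨0,[(2,0),(35,0),(2,0)]⟩⟩,[]⟩))))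
  (.Q [0,-1,0,3,0,0,0,0,0,1] (.pp false [-1,1]) (.R ⟨1,true,false,false,[1,-1],[0,1],[0,0,-1,-1],
  (⟨0,[(33,0)]⟩,⟨0,[(34,0)]⟩),(⟨0,[(34,0)]⟩,⟨0,[(33,0)]⟩),⟨0,[(1,0),(11,0)]⟩,.k,.k,(.r (-2) ⟨2,[(12,
  1),(1,1),(4,0),(0,0)]⟩ ⟨1,[(0,0),(4,1),(3,0)]⟩),(.r (-2) ⟨2,[(12,1),(1,1),(4,0),(0,0)]⟩ ⟨1,[(0,0),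
  (4,1),(3,0)]⟩),(.r (-2) ⟨0,[(12,0),(1,0)]⟩ ⟨7,[(0,3),(4,11),(13,0),(0,0),(11,1),(8,3)]⟩),.k,
  ⟨false,2,⟨0,[(12,0),(4,0)]⟩,⟨1,[(0,0),(4,1),(3,0)]⟩⟩,⟨true,1,⟨0,[(30,0),(0,0),(6,0)]⟩,⟨4,[(4,2),
  (0,5),(26,0),(2,2)]⟩⟩,⟨false,1,⟨3,[(19,0),(0,0),(18,1)]⟩,⟨0,[]⟩⟩,⟨true,0,⟨2,[(0,1),(29,0),(0,0),
  (9,1)]⟩,⟨0,[(4,0)]⟩⟩,⟨true,0,⟨0,[(37,0)]⟩,⟨0,[(36,0)]⟩⟩,⟨false,0,⟨0,[(0,0)]⟩,⟨0,[(4,0),(31,0),(2,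
  0)]⟩⟩,[]⟩) (.I [0,1,0,0,0,0,0,-1,-1] (.I [1,0,1,0,-1,0,0,1,-1] (.R ⟨1,false,false,false,[1,0,0,
  -1],[0,0,1],[0,1,0,0,0,0,0,0,-1],(⟨1,[(23,0),(8,0),(0,0)]⟩,⟨0,[(24,0)]⟩),(⟨0,[(33,0)]⟩,⟨0,[(32,
  0)]⟩),⟨1,[(3,0),(11,0),(7,0)]⟩,.k,.k,(.r (-1) ⟨7,[(1,1),(6,1),(5,1),(1,1),(4,2),(18,0)]⟩ ⟨1,[(7,
  0),(14,0),(16,0)]⟩),.k,(.r (-1) ⟨3,[(1,3),(6,1),(7,1),(23,0),(0,0)]⟩ ⟨1,[(7,0),(14,0),(8,1),(7,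
  0)]⟩),.k,⟨true,0,⟨0,[(1,0)]⟩,⟨1,[(7,0),(0,1),(13,0),(16,0)]⟩⟩,⟨false,1,⟨1,[(13,1),(5,1),(3,0),(8,
  0),(0,0)]⟩,⟨0,[(18,0),(5,0)]⟩⟩,⟨true,0,⟨0,[(43,0)]⟩,⟨0,[]⟩⟩,⟨false,1,⟨1,[(13,1),(8,0),(0,0),(8,0),
  (0,0),(7,0)]⟩,⟨0,[(0,0),(8,0),(14,0),(0,0),(14,0)]⟩⟩,⟨false,0,⟨0,[(39,0)]⟩,⟨0,[(38,0),(2,0)]⟩⟩,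
  ⟨false,1,⟨1,[(13,1),(8,0),(0,0),(8,0),(0,0),(5,1),(1,0)]⟩,⟨1,[(0,0),(0,0),(3,0),(0,0),(2,1),(14,
  1),(15,1)]⟩⟩,[.o ⟨false,0,⟨0,[(13,0)]⟩,⟨1,[(28,1),(5,0),(6,0)]⟩⟩,.o ⟨false,1,⟨3,[(13,3),(7,0),(0,
  0),(18,1)]⟩,⟨0,[(25,0)]⟩⟩,.a ⟨true,0,⟨0,[(24,0)]⟩,⟨1,[(23,0),(8,0),(0,0)]⟩⟩ ⟨false,0,⟨3,[(0,1),(0,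
  1),(38,0),(0,0)]⟩,⟨1,[(22,0),(18,0)]⟩⟩ ⟨true,0,⟨1,[(13,1),(9,0),(8,0),(0,0)]⟩,⟨0,[(24,0),(0,0)]⟩⟩,
  .o ⟨false,0,⟨6,[(2,0),(4,2),(16,6),(9,2),(2,0)]⟩,⟨7,[(21,0),(0,0),(0,3),(10,1),(5,3)]⟩⟩]⟩) (.Q [0,
  0,-2,-1,1,0,1,1,0,1,-1] (.p false [0,0,1] [1] (⟨0,[(33,0)]⟩,⟨0,[(32,0)]⟩) .k 1 (⟨0,[]⟩,⟨0,[]⟩) .k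
  .k) (.Q [0,0,0,-1,0,0,-1,-1,-1,-1,1,1] (.p true [0,0,1] [1,0,0,-1] (⟨0,[(34,0)]⟩,⟨0,[(33,0)]⟩) .k
  2 (⟨1,[(24,0),(8,0),(0,0)]⟩,⟨0,[(25,0)]⟩) .k (.r 0 ⟨0,[(0,0),(0,0),(4,0),(1,0),(5,0)]⟩ ⟨5,[(5,1),
  (14,1),(1,2),(19,0)]⟩)) (.R ⟨1,false,false,false,[1,0,0,-1],[0,0,1],[0,1,0,0,0,0,0,0,-1],(⟨1,[(25,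
  0),(8,0),(0,0)]⟩,⟨0,[(26,0)]⟩),(⟨0,[(35,0)]⟩,⟨0,[(34,0)]⟩),⟨1,[(5,0),(11,0),(7,0)]⟩,.k,.k,(.r
  (-1) ⟨13,[(0,3),(0,3),(14,1),(1,1),(4,4),(1,1),(10,0)]⟩ ⟨1,[(9,0),(14,0),(16,0)]⟩),.k,(.r (-1) ⟨9,
  [(0,3),(0,1),(1,5),(11,1),(2,3),(6,1),(16,0),(0,2)]⟩ ⟨1,[(9,0),(14,0),(8,1),(7,0)]⟩),.k,⟨true,0,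
  ⟨0,[(3,0)]⟩,⟨1,[(9,0),(0,1),(13,0),(16,0)]⟩⟩,⟨false,1,⟨1,[(1,0),(19,0),(3,0),(5,0),(9,0)]⟩,⟨0,
  [(20,0),(5,0)]⟩⟩,⟨true,0,⟨0,[(45,0)]⟩,⟨0,[]⟩⟩,⟨false,1,⟨1,[(1,0),(7,0),(5,0),(8,0),(0,0),(17,0)]⟩,
  ⟨0,[(0,0),(40,0)]⟩⟩,⟨false,0,⟨0,[(41,0)]⟩,⟨31,[(1,7),(2,7),(1,3),(16,0),(0,0),(6,1),(0,9),(10,
  21)]⟩⟩,⟨false,1,⟨1,[(1,0),(7,0),(5,0),(8,0),(0,0),(15,1),(1,0)]⟩,⟨0,[(0,0)]⟩⟩,[.o ⟨false,0,⟨0,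
  [(15,0)]⟩,⟨1,[(30,1),(5,0),(6,0)]⟩⟩,.o ⟨false,1,⟨3,[(15,3),(7,0),(0,0),(18,1)]⟩,⟨0,[(27,0)]⟩⟩,.a
  ⟨true,0,⟨0,[(26,0)]⟩,⟨1,[(25,0),(8,0),(0,0)]⟩⟩ ⟨false,0,⟨0,[(3,0),(6,0),(30,0)]⟩,⟨1,[(24,0),(18,
  0)]⟩⟩ ⟨true,0,⟨1,[(1,0),(7,0),(5,0),(9,0)]⟩,⟨0,[(26,0),(0,0)]⟩⟩,.o ⟨false,0,⟨6,[(4,0),(4,2),(16,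
  6),(9,2),(2,0)]⟩,⟨7,[(23,0),(0,0),(0,3),(10,1),(5,3)]⟩⟩]⟩) (.R ⟨1,true,false,false,[1,0,-1],[0,0,
  0,1],[0,1,0,0,0,0,0,-1],(⟨0,[(34,0)]⟩,⟨0,[(35,0)]⟩),(⟨0,[(26,0)]⟩,⟨1,[(25,0),(8,0),(0,0)]⟩),⟨0,
  [(17,0)]⟩,.k,.k,.k,.k,(.r (-1) ⟨3,[(3,3),(6,1),(7,1),(23,0),(0,0)]⟩ ⟨1,[(9,0),(14,0),(8,1),(7,
  0)]⟩),.k,⟨true,0,⟨0,[(3,0)]⟩,⟨4,[(0,0),(6,0),(1,1),(0,2),(4,0),(8,1),(1,0),(16,0)]⟩⟩,⟨false,1,⟨5,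
  [(0,1),(0,1),(1,1),(11,0),(5,2),(3,1),(5,0),(11,0)]⟩,⟨0,[(20,0),(5,0)]⟩⟩,⟨true,0,⟨0,[(45,0)]⟩,⟨0,
  []⟩⟩,⟨false,1,⟨15,[(0,7),(0,3),(8,3),(12,0),(0,4),(0,3),(5,5),(0,1),(10,5)]⟩,⟨0,[(3,0),(3,0),(3,
  0),(3,0),(10,0),(15,0)]⟩⟩,⟨false,0,⟨0,[(41,0)]⟩,⟨31,[(1,7),(2,7),(1,3),(16,0),(0,0),(6,1),(0,9),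
  (10,21)]⟩⟩,⟨true,0,⟨0,[(0,0)]⟩,⟨4,[(3,4),(0,0),(2,0),(2,0),(7,0),(1,2),(5,4)]⟩⟩,[]⟩)) (.I [0,1,0,
  1,0,0,0,0,1] (.R ⟨1,false,false,false,[1,0,0,-1],[1,-1],[1,0,0,-1,0,0,0,0,-1],(⟨1,[(25,0),(8,0),
  (0,0)]⟩,⟨0,[(26,0)]⟩),(⟨0,[(37,0)]⟩,⟨0,[(38,0)]⟩),⟨1,[(5,0),(11,0),(7,0)]⟩,.k,.k,(.r (-1) ⟨7,[(3,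
  1),(6,1),(5,1),(1,1),(4,2),(18,0)]⟩ ⟨3,[(0,1),(8,1),(14,0),(18,0)]⟩),(.r 0 ⟨1,[(9,0),(13,0),(17,
  0)]⟩ ⟨9,[(2,3),(1,0),(5,0),(5,2),(7,2),(9,0),(0,0)]⟩),.k,.k,⟨false,0,⟨0,[(3,0),(6,0),(30,0)]⟩,⟨1,
  [(24,0),(17,0)]⟩⟩,⟨true,0,⟨1,[(25,0),(2,0),(2,0)]⟩,⟨0,[(26,0)]⟩⟩,⟨false,1,⟨0,[(40,0),(2,0)]⟩,⟨0,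
  [(41,0)]⟩⟩,⟨false,1,⟨23,[(2,5),(1,3),(5,11),(0,5),(12,8),(0,11),(10,3),(6,4)]⟩,⟨0,[(3,0),(6,0),
  (15,0),(14,1)]⟩⟩,⟨true,0,⟨0,[]⟩,⟨0,[(45,0)]⟩⟩,⟨false,1,⟨11,[(1,1),(0,3),(7,1),(4,3),(4,1),(3,3),
  (0,5),(10,0),(6,4)]⟩,⟨0,[(3,0),(6,0),(15,0),(14,0)]⟩⟩,[.o ⟨false,1,⟨11,[(4,3),(18,2),(0,2),(11,3),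
  (6,1)]⟩,⟨0,[(41,0)]⟩⟩,.o ⟨false,1,⟨2,[(4,0),(31,0),(6,1)]⟩,⟨0,[(41,0),(3,0)]⟩⟩,.a ⟨true,0,⟨0,[(26,
  0)]⟩,⟨1,[(25,0),(8,0),(0,0)]⟩⟩ ⟨true,0,⟨0,[(3,0),(6,0)]⟩,⟨0,[(0,0)]⟩⟩ ⟨false,1,⟨23,[(4,7),(18,2),
  (0,2),(0,11),(10,1),(6,15)]⟩,⟨0,[(26,0),(14,0)]⟩⟩,.o ⟨false,0,⟨6,[(4,0),(4,2),(16,6),(9,2),(2,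
  0)]⟩,⟨7,[(23,0),(0,0),(0,3),(10,1),(5,3)]⟩⟩]⟩) (.R ⟨1,false,false,true,[1,0,0,-1],[1,-1],[1,1,0,
  -1,0,0,0,0,-1],(⟨1,[(25,0),(8,0),(0,0)]⟩,⟨0,[(26,0)]⟩),(⟨0,[(37,0)]⟩,⟨0,[(38,0)]⟩),⟨1,[(5,0),(11,
  0),(7,0)]⟩,.k,.k,(.r (-1) ⟨17,[(0,1),(2,1),(12,5),(1,3),(4,6),(18,0)]⟩ ⟨1,[(9,0),(14,0),(16,0)]⟩),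
  (.r 0 ⟨1,[(9,0),(13,0),(17,0)]⟩ ⟨9,[(2,3),(1,0),(5,0),(5,2),(7,2),(9,0),(0,0)]⟩),.k,.k,⟨false,0,
  ⟨1,[(0,0),(2,0),(29,0),(7,0)]⟩,⟨1,[(24,0),(17,0)]⟩⟩,⟨true,0,⟨1,[(25,0),(2,0),(2,0)]⟩,⟨0,[(26,
  0)]⟩⟩,⟨true,0,⟨0,[(40,0)]⟩,⟨0,[(41,0)]⟩⟩,⟨false,1,⟨23,[(4,7),(18,2),(0,14),(0,11),(10,1),(6,3)]⟩,
  ⟨0,[(0,0),(25,0),(14,1)]⟩⟩,⟨false,0,⟨0,[]⟩,⟨3,[(23,0),(0,0),(18,1)]⟩⟩,⟨false,1,⟨7,[(23,0),(0,4),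
  (0,3),(10,1)]⟩,⟨0,[(0,0),(25,0),(14,0)]⟩⟩,[.o ⟨false,0,⟨0,[(13,0)]⟩,⟨3,[(23,0),(0,0),(16,3),(1,
  1)]⟩⟩,.o ⟨false,1,⟨11,[(4,3),(18,2),(0,2),(11,3),(6,1)]⟩,⟨0,[(41,0)]⟩⟩,.a ⟨true,0,⟨0,[(26,0)]⟩,⟨1,
  [(25,0),(8,0),(0,0)]⟩⟩ ⟨false,0,⟨2,[(0,1),(2,0),(29,0),(6,0)]⟩,⟨1,[(24,0),(16,1),(1,0)]⟩⟩ ⟨true,0,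
  ⟨1,[(13,0),(11,0),(14,0)]⟩,⟨0,[(26,0),(14,0)]⟩⟩,.o ⟨false,0,⟨6,[(4,0),(4,2),(16,6),(9,2),(2,0)]⟩,
  ⟨7,[(23,0),(0,0),(0,3),(10,1),(5,3)]⟩⟩]⟩)))) (.Q [0,0,0,-1,0,0,2,2,0,1,-2] (.p false [0,0,1] [1,0,
  -1] (⟨0,[(32,0)]⟩,⟨0,[(31,0)]⟩) .k 2 (⟨0,[(31,0)]⟩,⟨0,[(32,0)]⟩) .k (.r 0 ⟨0,[(30,1)]⟩ ⟨2,[(3,1),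
  (14,1),(21,0)]⟩)) (.Q [0,0,0,2,0,0,-2,-2,0,-1,2] (.p true [0,0,1] [1,0,-1] (⟨0,[(33,0)]⟩,⟨0,[(32,
  0)]⟩) .k 2 (⟨0,[(32,0)]⟩,⟨0,[(33,0)]⟩) .k (.r 0 ⟨0,[(31,1)]⟩ ⟨2,[(4,1),(14,1),(21,0)]⟩)) (.R ⟨1,
  true,false,true,[0,0,1],[1,1,-1],[0,0,0,0,0,0,0,1],(⟨0,[(34,0)]⟩,⟨0,[(33,0)]⟩),(⟨0,[(33,0),(3,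
  0)]⟩,⟨0,[(4,0)]⟩),⟨0,[(4,0)]⟩,.k,.k,.k,(.r 0 ⟨0,[(1,0),(4,0),(34,0)]⟩ ⟨3,[(5,3),(16,0),(0,0),(16,
  3),(1,1)]⟩),(.r (-1) ⟨0,[(15,0),(16,0)]⟩ ⟨1,[(5,1),(2,0),(31,2),(1,0)]⟩),.k,⟨false,1,⟨0,[(9,0),
  (22,0),(8,0)]⟩,⟨0,[(5,0),(34,0)]⟩⟩,⟨true,0,⟨0,[(6,0),(34,0)]⟩,⟨1,[(1,1),(3,1),(2,0),(31,0),(1,
  0)]⟩⟩,⟨false,1,⟨3,[(22,0),(0,0),(18,1)]⟩,⟨0,[]⟩⟩,⟨true,0,⟨1,[(0,0),(25,0),(2,0)]⟩,⟨0,[(1,0)]⟩⟩,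
  ⟨true,0,⟨0,[(40,0)]⟩,⟨0,[(39,0)]⟩⟩,⟨false,0,⟨0,[(0,0)]⟩,⟨23,[(1,27),(1,3),(13,7),(4,0),(0,0),(7,
  7),(10,13)]⟩⟩,[]⟩) (.Q [0,0,0,0,0,2,0,0,0,-1,1] (.p true [0,0,1] [1] (⟨0,[(34,0)]⟩,⟨0,[(33,0)]⟩)
  .k 1 (⟨0,[]⟩,⟨0,[]⟩) .k .k) (.R ⟨0,false,false,false,[1,-1,-1],[0,-1,1],[1,0,1],(⟨0,[(17,0)]⟩,⟨0,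
  [(35,0),(2,0)]⟩),(⟨0,[(5,0)]⟩,⟨0,[(34,0),(3,0)]⟩),⟨0,[(0,0)]⟩,.k,.k,(.r (-2) ⟨5,[(16,1),(1,7),(4,
  0),(0,0)]⟩ ⟨0,[(9,0),(23,0),(7,0)]⟩),.k,.k,.k,⟨false,0,⟨3,[(6,1),(2,0),(31,2),(1,0)]⟩,⟨1,[(16,0),
  (16,0),(8,0)]⟩⟩,⟨true,1,⟨2,[(2,2),(3,1),(14,1),(19,2),(1,0)]⟩,⟨0,[(7,0)]⟩⟩,⟨false,(-1),⟨0,[(9,0),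
  (0,0),(30,0)]⟩,⟨5,[(16,1),(1,1),(2,5),(1,0),(0,0)]⟩⟩,⟨true,0,⟨0,[(2,0),(38,0)]⟩,⟨1,[(4,0),(7,2),
  (14,0)]⟩⟩,⟨false,0,⟨0,[]⟩,⟨0,[]⟩⟩,⟨false,0,⟨0,[]⟩,⟨0,[]⟩⟩,[.a ⟨true,0,⟨1,[(1,0),(32,0),(0,0)]⟩,⟨0,
  [(12,0)]⟩⟩ ⟨false,0,⟨0,[]⟩,⟨3,[(23,0),(0,0),(17,1)]⟩⟩ ⟨true,1,⟨0,[(2,0),(18,0)]⟩,⟨19,[(6,2),(0,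
  12),(1,8),(1,2),(0,10),(15,2),(7,1)]⟩⟩,.o ⟨false,1,⟨7,[(1,3),(21,0),(0,0),(11,1),(6,3)]⟩,⟨0,[(27,
  0),(13,0)]⟩⟩,.o ⟨false,0,⟨0,[(28,0)]⟩,⟨0,[(15,0),(5,0)]⟩⟩,.o ⟨false,(-1),⟨30,[(4,5),(2,13),(1,20),
  (0,2),(0,2),(16,2),(7,3)]⟩,⟨3,[(15,3),(5,3),(1,0),(0,0),(17,1)]⟩⟩]⟩) (.I [0,1,1,1,-1,0,0,1] (.R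
  ⟨1,false,false,true,[1,-1],[0,-1,1],[0,1,0,-1,0,0,0,1],(⟨0,[(38,0)]⟩,⟨0,[(39,0)]⟩),(⟨0,[(6,0)]⟩,
  ⟨0,[(35,0),(3,0)]⟩),⟨1,[(1,0),(4,0),(31,0)]⟩,.k,.k,(.r (-2) ⟨2,[(17,1),(1,1),(4,0),(0,0)]⟩ ⟨0,
  [(10,0),(31,0)]⟩),.k,.k,.k,⟨true,0,⟨1,[(32,0),(0,0)]⟩,⟨0,[]⟩⟩,⟨false,1,⟨1,[(3,0),(18,1),(12,0),(0,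
  0),(5,0)]⟩,⟨0,[(21,0)]⟩⟩,⟨false,0,⟨11,[(0,3),(2,3),(20,0),(0,0),(3,3),(3,3),(10,1)]⟩,⟨0,[(12,0),
  (30,0)]⟩⟩,⟨false,0,⟨1,[(3,0),(31,0),(0,0),(5,0)]⟩,⟨2,[(12,0),(0,0),(5,0),(3,0),(13,0),(6,0)]⟩⟩,
  ⟨true,(-1),⟨0,[(0,0)]⟩,⟨0,[(19,0)]⟩⟩,⟨false,0,⟨1,[(3,0),(31,0),(0,0),(5,2)]⟩,⟨5,[(5,0),(6,2),(6,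
  2),(3,2),(13,0),(6,1)]⟩⟩,[.o ⟨false,0,⟨0,[(20,0)]⟩,⟨1,[(13,1),(23,0),(6,0)]⟩⟩,.a ⟨true,0,⟨1,[(2,
  0),(32,0),(0,0)]⟩,⟨0,[(13,0)]⟩⟩ ⟨true,0,⟨1,[(2,0),(20,0)]⟩,⟨3,[(7,1),(2,0),(31,2),(1,0)]⟩⟩ ⟨false,
  1,⟨1,[(2,0),(32,0),(0,0),(6,1)]⟩,⟨9,[(7,0),(0,0),(1,2),(1,0),(0,6),(15,0),(7,3)]⟩⟩,.o ⟨false,0,⟨6,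
  [(5,0),(4,2),(26,2),(2,0)]⟩,⟨3,[(24,0),(0,0),(17,1)]⟩⟩,.o ⟨false,0,⟨0,[(29,0),(2,0)]⟩,⟨0,[(43,
  0)]⟩⟩]⟩) (.I [0,1,0,1,0,0,0,-1,-1] (.R ⟨1,false,false,false,[1,0,0,-1],[0,-1,1],[1,0,0,-1,0,0,0,
  1],(⟨1,[(27,0),(8,0),(0,0)]⟩,⟨0,[(28,0)]⟩),(⟨0,[(7,0)]⟩,⟨0,[(36,0),(3,0)]⟩),⟨3,[(2,0),(4,0),(19,
  1),(11,0)]⟩,.k,.k,(.r (-1) ⟨63,[(0,13),(0,16),(1,3),(2,0),(2,2),(8,24),(6,24),(6,1)]⟩ ⟨1,[(11,0),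
  (14,0),(16,0)]⟩),(.r 0 ⟨5,[(0,3),(10,1),(1,1),(11,0),(19,0)]⟩ ⟨1,[(18,0),(7,0),(8,0)]⟩),.k,.k,
  ⟨false,0,⟨0,[]⟩,⟨3,[(25,0),(0,0),(17,1)]⟩⟩,⟨true,0,⟨3,[(4,1),(3,1),(2,0),(15,1),(15,0),(1,0)]⟩,⟨0,
  [(22,0),(5,0)]⟩⟩,⟨true,0,⟨0,[(5,0),(36,0)]⟩,⟨0,[(0,0)]⟩⟩,⟨false,1,⟨1,[(3,0),(22,0),(0,0),(17,0)]⟩,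
  ⟨0,[(0,0),(0,0),(7,0),(7,0),(10,0),(14,0)]⟩⟩,⟨false,0,⟨0,[(5,0)]⟩,⟨5,[(8,1),(14,1),(1,2),(19,
  0)]⟩⟩,⟨false,1,⟨1,[(4,0),(21,0),(0,0),(15,0),(1,0)]⟩,⟨0,[(0,0),(0,0),(7,0),(7,0),(10,0)]⟩⟩,[.e
  ⟨true,0,⟨1,[(3,0),(20,0)]⟩,⟨3,[(8,1),(2,0),(31,2),(1,0)]⟩⟩ ⟨true,0,⟨1,[(3,0),(23,0)]⟩,⟨9,[(8,0),
  (0,0),(1,2),(1,0),(0,6),(13,9),(1,0),(7,3)]⟩⟩,.o ⟨false,1,⟨7,[(3,3),(21,0),(0,0),(11,1),(6,3)]⟩,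
  ⟨0,[(29,0),(13,0)]⟩⟩,.a ⟨true,0,⟨0,[(28,0)]⟩,⟨1,[(27,0),(8,0),(0,0)]⟩⟩ ⟨false,0,⟨0,[(12,0)]⟩,⟨1,
  [(0,1),(25,0),(18,0)]⟩⟩ ⟨true,0,⟨1,[(3,0),(23,0)]⟩,⟨0,[(28,0),(0,0),(13,0)]⟩⟩,.o ⟨false,0,⟨6,[(6,
  0),(4,2),(16,6),(9,2),(2,0)]⟩,⟨7,[(25,0),(0,0),(0,3),(10,1),(5,3)]⟩⟩]⟩) (.I [0,0,1,1,-1,0,0,0,1]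
  (.R ⟨1,false,false,false,[1,0,0,-1],[0,1],[0,1,1],(⟨1,[(28,0),(8,0),(0,0)]⟩,⟨0,[(29,0)]⟩),(⟨0,
  [(41,0)]⟩,⟨0,[(40,0)]⟩),⟨3,[(3,0),(4,0),(19,1),(11,0)]⟩,.k,.k,(.r (-2) ⟨11,[(19,3),(1,3),(4,10),
  (0,4)]⟩ ⟨0,[(0,0)]⟩),(.r (-2) ⟨11,[(19,3),(1,3),(4,10),(0,4)]⟩ ⟨0,[(0,0)]⟩),(.r (-2) ⟨11,[(19,7),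
  (1,7),(4,6),(0,0)]⟩ ⟨3,[(0,1),(11,2),(14,0),(16,2)]⟩),.k,⟨true,0,⟨0,[(43,0)]⟩,⟨1,[(12,0),(31,0),
  (1,0)]⟩⟩,⟨false,1,⟨1,[(28,0),(8,0),(0,0),(6,1)]⟩,⟨6,[(7,0),(4,2),(16,6),(9,2),(2,0)]⟩⟩,⟨true,(-1),
  ⟨0,[(0,0),(42,0)]⟩,⟨1,[(26,0),(18,0)]⟩⟩,⟨false,0,⟨1,[(0,1),(27,0),(8,0),(0,0),(6,0),(0,0)]⟩,⟨5,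
  [(7,1),(18,2),(2,5),(9,1),(6,0)]⟩⟩,⟨false,(-1),⟨0,[(0,0)]⟩,⟨5,[(19,1),(1,1),(4,3),(0,0),(18,2)]⟩⟩,
  ⟨false,0,⟨1,[(0,1),(27,0),(8,0),(0,0),(5,1),(0,0),(0,0)]⟩,⟨5,[(7,3),(18,2),(2,5),(9,0),(6,1)]⟩⟩,
  [.o ⟨false,0,⟨0,[(44,0)]⟩,⟨11,[(7,3),(18,2),(0,2),(11,3),(6,1)]⟩⟩,.o ⟨false,1,⟨3,[(26,0),(0,0),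
  (16,3),(1,1)]⟩,⟨0,[(16,0)]⟩⟩,.a ⟨true,0,⟨0,[(29,0)]⟩,⟨1,[(28,0),(8,0),(0,0)]⟩⟩ ⟨false,0,⟨1,[(34,
  0),(0,0)]⟩,⟨1,[(45,0),(0,0)]⟩⟩ ⟨true,0,⟨1,[(28,0),(8,0),(0,0),(5,1)]⟩,⟨0,[(16,0),(12,0)]⟩⟩,.o
  ⟨false,0,⟨6,[(7,0),(4,2),(16,6),(9,2),(2,0)]⟩,⟨7,[(26,0),(0,0),(0,3),(10,1),(5,3)]⟩⟩]⟩) (.Q [0,0,
  0,2,0,0,0,0,-1,0,0,1] (.p true [0,0,0,1] [] (⟨0,[(29,0)]⟩,⟨1,[(28,0),(8,0),(0,0)]⟩) .k 0 (⟨0,[]⟩,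
  ⟨0,[]⟩) .k .k) (.I [0,0,0,1,0,0,0,0,1] (.R ⟨1,false,false,true,[1,0,0,-1],[0,1],[1,1,0,-1,0,0,0,0,
  -1],(⟨1,[(30,0),(8,0),(0,0)]⟩,⟨0,[(31,0)]⟩),(⟨0,[(43,0)]⟩,⟨0,[(42,0)]⟩),⟨3,[(5,0),(4,0),(19,1),
  (11,0)]⟩,.k,.k,(.r (-1) ⟨1,[(1,1),(2,3),(0,2),(0,1),(2,3),(0,2),(1,1),(1,13),(15,0),(12,8),(3,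
  13)]⟩ ⟨27,[(0,5),(0,3),(12,13),(14,12),(0,1),(10,0)]⟩),(.r (-1) ⟨1,[(1,1),(2,3),(0,2),(0,1),(2,3),
  (0,2),(1,1),(1,13),(15,0),(12,8),(3,13)]⟩ ⟨27,[(0,5),(0,3),(12,13),(14,12),(0,1),(10,0)]⟩),(.r
  (-2) ⟨11,[(21,7),(1,7),(4,6),(0,0)]⟩ ⟨0,[(0,0),(13,0)]⟩),.k,⟨true,1,⟨13,[(1,1),(0,11),(1,3),(1,1),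
  (2,3),(2,1),(17,0),(8,2),(0,2)]⟩,⟨0,[(0,0),(13,0)]⟩⟩,⟨false,1,⟨1,[(30,0),(8,0),(0,0),(6,1)]⟩,⟨6,
  [(9,0),(4,2),(16,6),(9,2),(2,0)]⟩⟩,⟨true,0,⟨0,[(45,0)]⟩,⟨0,[(46,0)]⟩⟩,⟨false,0,⟨1,[(0,1),(29,0),
  (8,0),(0,0)]⟩,⟨0,[(1,0),(7,0),(38,0)]⟩⟩,⟨false,0,⟨0,[]⟩,⟨3,[(28,0),(0,0),(18,1)]⟩⟩,⟨false,0,⟨2,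
  [(0,3),(0,0),(28,1),(8,0),(0,0)]⟩,⟨6,[(1,4),(2,0),(4,6),(5,1),(0,0),(11,0),(2,1),(16,4)]⟩⟩,[.o
  ⟨false,0,⟨5,[(0,1),(0,1),(28,0),(1,0),(1,0),(15,3)]⟩,⟨2,[(9,0),(31,0),(6,1)]⟩⟩,.o ⟨false,0,⟨0,
  [(46,0)]⟩,⟨11,[(9,3),(18,2),(0,2),(11,3),(6,1)]⟩⟩,.a ⟨true,0,⟨0,[(31,0)]⟩,⟨1,[(30,0),(8,0),(0,
  0)]⟩⟩ ⟨true,0,⟨1,[(1,1),(7,1),(20,0),(8,0),(0,0)]⟩,⟨0,[(0,0)]⟩⟩ ⟨false,0,⟨2,[(0,0),(0,0),(28,1),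
  (8,0),(0,0)]⟩,⟨2,[(9,0),(21,2),(9,0),(6,1)]⟩⟩,.o ⟨false,0,⟨6,[(9,0),(4,2),(16,6),(9,2),(2,0)]⟩,⟨7,
  [(28,0),(0,0),(0,3),(10,1),(5,3)]⟩⟩]⟩) (.Q [0,1,0,0,0,0,0,0,1,0,0,-1] (.p false [0,0,0,1] [] (⟨0,
  [(31,0)]⟩,⟨1,[(30,0),(8,0),(0,0)]⟩) .k 0 (⟨0,[]⟩,⟨0,[]⟩) .k .k) (.R ⟨1,false,false,false,[1,0,0,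
  -1],[1,-1],[1,0,0,-1,0,0,0,0,-1],(⟨1,[(31,0),(8,0),(0,0)]⟩,⟨0,[(32,0)]⟩),(⟨0,[(43,0)]⟩,⟨0,[(44,
  0)]⟩),⟨3,[(6,0),(4,0),(19,1),(11,0)]⟩,.k,.k,(.r (-1) ⟨0,[(1,0),(3,1),(0,1),(0,0),(2,1),(0,1),(1,
  0),(1,9),(28,5),(3,9)]⟩ ⟨1,[(15,0),(14,0),(16,0)]⟩),(.r 0 ⟨31,[(2,7),(12,15),(13,12),(0,0),(0,3),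
  (10,1)]⟩ ⟨9,[(0,1),(3,1),(17,1),(1,3),(5,2),(1,1),(15,0)]⟩),.k,.k,⟨false,0,⟨0,[(1,0),(45,0)]⟩,⟨1,
  [(30,0),(17,0)]⟩⟩,⟨true,0,⟨1,[(31,0),(2,0),(2,0)]⟩,⟨0,[(32,0)]⟩⟩,⟨false,1,⟨13,[(7,1),(2,1),(13,3),
  (4,0),(0,0),(7,3),(10,7)]⟩,⟨0,[(47,0)]⟩⟩,⟨false,1,⟨47,[(4,11),(0,5),(4,9),(6,5),(12,17),(0,23),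
  (10,6),(6,16)]⟩,⟨2,[(1,0),(0,1),(29,0)]⟩⟩,⟨true,0,⟨0,[]⟩,⟨0,[(51,0)]⟩⟩,⟨false,1,⟨11,[(9,3),(7,1),
  (9,1),(2,3),(0,5),(10,2),(6,2)]⟩,⟨2,[(1,1),(0,0),(29,1)]⟩⟩,[.o ⟨false,1,⟨11,[(10,3),(18,2),(0,2),
  (11,3),(6,1)]⟩,⟨0,[(47,0)]⟩⟩,.o ⟨false,1,⟨2,[(10,0),(31,0),(6,1)]⟩,⟨1,[(0,0),(1,0),(48,0)]⟩⟩,.a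
  ⟨true,0,⟨0,[(32,0)]⟩,⟨1,[(31,0),(8,0),(0,0)]⟩⟩ ⟨true,0,⟨0,[(1,0)]⟩,⟨0,[(0,0),(31,0),(14,0)]⟩⟩
  ⟨false,1,⟨23,[(10,7),(18,2),(0,2),(0,11),(10,1),(6,15)]⟩,⟨0,[(32,0),(14,0)]⟩⟩,.o ⟨false,0,⟨6,[(10,
  0),(4,2),(16,6),(9,2),(2,0)]⟩,⟨7,[(29,0),(0,0),(0,3),(10,1),(5,3)]⟩⟩]⟩) (.R ⟨1,false,false,true,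
  [1,0,0,-1],[1,-1],[1,1,0,-1,0,0,0,0,-1],(⟨1,[(31,0),(8,0),(0,0)]⟩,⟨0,[(32,0)]⟩),(⟨0,[(43,0)]⟩,⟨0,
  [(44,0)]⟩),⟨3,[(6,0),(4,0),(19,1),(11,0)]⟩,.k,.k,(.r (-1) ⟨0,[(0,1),(3,0),(0,0),(0,2),(3,3),(0,2),
  (3,12),(15,0),(12,8),(3,12)]⟩ ⟨1,[(15,0),(14,0),(16,0)]⟩),(.r 0 ⟨31,[(2,7),(12,15),(13,12),(0,0),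
  (0,3),(10,1)]⟩ ⟨10,[(4,2),(2,0),(2,0),(13,2),(5,3),(5,1),(11,3)]⟩),.k,.k,⟨false,0,⟨2,[(0,0),(0,0),
  (0,0),(16,0),(11,0)]⟩,⟨1,[(30,0),(17,0)]⟩⟩,⟨true,0,⟨1,[(31,0),(2,0),(2,0)]⟩,⟨0,[(32,0)]⟩⟩,⟨true,0,
  ⟨0,[(46,0)]⟩,⟨0,[(47,0)]⟩⟩,⟨false,1,⟨23,[(10,7),(18,2),(0,14),(0,11),(10,1),(6,3)]⟩,⟨0,[(0,0),(46,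
  0)]⟩⟩,⟨false,0,⟨0,[]⟩,⟨3,[(29,0),(0,0),(18,1)]⟩⟩,⟨false,1,⟨7,[(29,0),(0,4),(0,3),(10,1)]⟩,⟨0,[(0,
  0)]⟩⟩,[.o ⟨false,0,⟨0,[(19,0)]⟩,⟨15,[(2,7),(26,0),(0,4),(0,3),(10,1),(6,7)]⟩⟩,.o ⟨false,1,⟨11,
  [(10,3),(18,2),(0,2),(11,3),(6,1)]⟩,⟨0,[(47,0)]⟩⟩,.a ⟨true,0,⟨0,[(32,0)]⟩,⟨1,[(31,0),(8,0),(0,
  0)]⟩⟩ ⟨false,0,⟨0,[(1,0)]⟩,⟨1,[(30,0),(16,1),(1,0)]⟩⟩ ⟨true,0,⟨1,[(19,0),(11,0),(14,0)]⟩,⟨0,[(32,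
  0),(14,0)]⟩⟩,.o ⟨false,0,⟨6,[(10,0),(4,2),(16,6),(9,2),(2,0)]⟩,⟨7,[(29,0),(0,0),(0,3),(10,1),(5,
  3)]⟩⟩]⟩))) (.I [0,-1,0,1,0,0,0,0,1] (.R ⟨1,false,false,false,[1,0,0,-1],[0,1],[1,1,0,-1,0,0,0,0,
  -1],(⟨1,[(30,0),(8,0),(0,0)]⟩,⟨0,[(31,0)]⟩),(⟨0,[(43,0)]⟩,⟨0,[(42,0)]⟩),⟨3,[(5,0),(4,0),(19,1),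
  (11,0)]⟩,.k,.k,(.x 0 ⟨5,[(5,1),(4,1),(22,1),(2,2),(0,0)]⟩ ⟨3,[(28,0),(0,0),(13,3),(3,1)]⟩),(.x 0
  ⟨5,[(5,1),(4,1),(22,1),(2,2),(0,0)]⟩ ⟨3,[(28,0),(0,0),(13,3),(3,1)]⟩),(.r (-2) ⟨11,[(21,7),(1,7),
  (4,6),(0,0)]⟩ ⟨0,[(0,0),(13,0),(35,0)]⟩),.k,⟨true,1,⟨0,[(2,0),(42,0)]⟩,⟨0,[(0,0),(13,0)]⟩⟩,⟨false,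
  1,⟨1,[(30,0),(8,0),(0,0),(6,1)]⟩,⟨6,[(9,0),(4,2),(16,6),(9,2),(2,0)]⟩⟩,⟨true,0,⟨0,[(45,0)]⟩,⟨0,
  [(46,0)]⟩⟩,⟨false,0,⟨1,[(0,1),(29,0),(8,0),(0,0)]⟩,⟨5,[(9,1),(18,2),(2,5),(9,1),(6,0)]⟩⟩,⟨false,0,
  ⟨0,[]⟩,⟨3,[(28,0),(0,0),(18,1)]⟩⟩,⟨false,0,⟨1,[(0,1),(29,0),(8,0),(0,0),(5,1)]⟩,⟨5,[(9,3),(18,2),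
  (2,5),(9,0),(6,1)]⟩⟩,[.o ⟨false,0,⟨0,[(46,0)]⟩,⟨11,[(9,3),(18,2),(0,2),(11,3),(6,1)]⟩⟩,.o ⟨false,
  1,⟨3,[(0,3),(27,2),(0,0)]⟩,⟨0,[(18,0)]⟩⟩,.a ⟨true,0,⟨0,[(31,0)]⟩,⟨1,[(30,0),(8,0),(0,0)]⟩⟩ ⟨false,
  1,⟨13,[(6,1),(2,1),(13,3),(4,7),(0,0),(7,3),(10,0)]⟩,⟨0,[(0,0)]⟩⟩ ⟨true,0,⟨1,[(30,0),(8,0),(0,0),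
  (5,1)]⟩,⟨0,[(18,0),(12,0)]⟩⟩,.o ⟨false,0,⟨6,[(9,0),(4,2),(16,6),(9,2),(2,0)]⟩,⟨7,[(28,0),(0,0),(0,
  3),(10,1),(5,3)]⟩⟩]⟩) (.R ⟨1,false,false,true,[1,0,0,-1],[0,1],[1,1,0,-1,0,0,0,0,-1],(⟨1,[(30,0),
  (8,0),(0,0)]⟩,⟨0,[(31,0)]⟩),(⟨0,[(43,0)]⟩,⟨0,[(42,0)]⟩),⟨3,[(5,0),(4,0),(19,1),(11,0)]⟩,.k,.k,(.r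
  (-1) ⟨0,[(0,0),(3,1),(0,0),(0,0),(2,0),(0,0),(1,0),(1,6),(28,2),(3,6)]⟩ ⟨1,[(14,0),(14,0),(16,
  0)]⟩),(.r (-1) ⟨0,[(0,0),(3,1),(0,0),(0,0),(2,0),(0,0),(1,0),(1,6),(28,2),(3,6)]⟩ ⟨1,[(14,0),(14,
  0),(16,0)]⟩),(.r (-2) ⟨11,[(21,7),(1,7),(4,6),(0,0)]⟩ ⟨0,[(1,0),(12,0),(16,0),(14,2)]⟩),.k,⟨true,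
  1,⟨23,[(0,13),(3,11),(1,0),(2,0),(5,2),(5,6),(6,4),(8,1)]⟩,⟨0,[(1,0),(12,0),(16,0),(14,2)]⟩⟩,
  ⟨false,1,⟨1,[(30,0),(8,0),(0,0),(6,1)]⟩,⟨6,[(9,0),(4,2),(16,6),(9,2),(2,0)]⟩⟩,⟨true,0,⟨0,[(45,
  0)]⟩,⟨0,[(46,0)]⟩⟩,⟨false,0,⟨0,[(1,0),(37,0),(0,0),(5,2)]⟩,⟨21,[(4,15),(7,9),(0,1),(1,1),(0,5),(3,
  19),(7,10),(2,21),(9,4)]⟩⟩,⟨false,0,⟨0,[]⟩,⟨3,[(28,0),(0,0),(18,1)]⟩⟩,⟨false,0,⟨0,[(1,0),(37,0),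
  (0,0),(5,3)]⟩,⟨21,[(4,13),(7,5),(0,9),(1,9),(0,7),(3,11),(7,10),(2,21),(9,2)]⟩⟩,[.o ⟨false,0,⟨0,
  [(46,0),(3,0)]⟩,⟨2,[(9,0),(31,0),(6,1)]⟩⟩,.o ⟨false,0,⟨0,[(46,0)]⟩,⟨11,[(9,3),(18,2),(0,2),(11,3),
  (6,1)]⟩⟩,.a ⟨true,0,⟨0,[(31,0)]⟩,⟨1,[(30,0),(8,0),(0,0)]⟩⟩ ⟨true,0,⟨0,[(0,0)]⟩,⟨0,[(1,0),(29,0),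
  (14,2)]⟩⟩ ⟨false,0,⟨1,[(30,0),(8,0),(0,0),(5,1)]⟩,⟨2,[(9,0),(21,2),(9,0),(6,1)]⟩⟩,.o ⟨false,0,⟨6,
  [(9,0),(4,2),(16,6),(9,2),(2,0)]⟩,⟨7,[(28,0),(0,0),(0,3),(10,1),(5,3)]⟩⟩]⟩)))))))) (.I [0,0,-1,0,
  0,1,-2] (.R ⟨1,true,false,true,[0,0,1],[1,0,-1],[0,0,0,0,0,0,0,1],(⟨0,[(34,0)]⟩,⟨0,[(33,0)]⟩),(⟨0,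
  [(33,0)]⟩,⟨0,[(34,0)]⟩),⟨0,[(4,0)]⟩,.k,.k,.k,.k,(.x (-1) ⟨3,[(4,3),(9,1),(5,1),(1,0),(0,0),(6,5),
  (3,3)]⟩ ⟨0,[(0,0)]⟩),.k,⟨true,0,⟨0,[(9,0),(22,0),(7,0)]⟩,⟨0,[(5,0)]⟩⟩,⟨false,0,⟨0,[(6,0),(34,0)]⟩,
  ⟨0,[(14,0),(5,0),(9,0),(2,0),(0,0)]⟩⟩,⟨false,1,⟨3,[(22,0),(0,0),(18,1)]⟩,⟨0,[]⟩⟩,⟨true,0,⟨4,[(1,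
  2),(1,0),(22,0),(2,2)]⟩,⟨0,[(14,1),(18,0),(0,0)]⟩⟩,⟨true,0,⟨0,[(40,0)]⟩,⟨0,[(39,0)]⟩⟩,⟨false,0,⟨0,
  [(1,0)]⟩,⟨0,[(14,0),(3,0),(14,0),(0,0),(7,0)]⟩⟩,[]⟩) (.I [0,0,-1,-1,0,0,0,2] (.R ⟨1,true,false,
  true,[0,0,1],[1,0,-1],[0,0,0,0,0,0,0,1],(⟨0,[(35,0)]⟩,⟨0,[(34,0)]⟩),(⟨0,[(34,0)]⟩,⟨0,[(35,0)]⟩),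
  ⟨0,[(5,0)]⟩,.k,.k,.k,.k,(.r 0 ⟨0,[(0,0)]⟩ ⟨3,[(6,3),(16,0),(0,0),(16,3),(1,1)]⟩),.k,⟨true,0,⟨1,
  [(0,1),(8,0),(31,0),(1,0)]⟩,⟨0,[(6,0)]⟩⟩,⟨false,0,⟨0,[(0,0),(1,0)]⟩,⟨7,[(1,3),(13,5),(5,5),(1,0),
  (0,0),(6,1),(2,7),(3,3)]⟩⟩,⟨false,1,⟨3,[(23,0),(0,0),(18,1)]⟩,⟨0,[]⟩⟩,⟨true,0,⟨4,[(2,2),(1,0),(22,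
  0),(2,2)]⟩,⟨0,[(15,1),(18,0),(0,0)]⟩⟩,⟨true,0,⟨0,[(41,0)]⟩,⟨0,[(40,0)]⟩⟩,⟨false,0,⟨0,[(2,0)]⟩,⟨7,
  [(0,3),(0,3),(13,3),(3,3),(3,0),(0,0),(9,7),(3,3),(4,5)]⟩⟩,[]⟩) (.I [0,0,1,1,-1,0,0,0,1] (.R ⟨1,
  false,false,false,[1,0,0,-1],[0,0,1],[1,0,0,-1,0,0,0,0,-1],(⟨1,[(26,0),(8,0),(0,0)]⟩,⟨0,[(27,
  0)]⟩),(⟨0,[(36,0)]⟩,⟨0,[(35,0)]⟩),⟨1,[(6,0),(11,0),(7,0)]⟩,.k,.k,(.r (-2) ⟨11,[(17,3),(1,3),(4,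
  10),(0,4)]⟩ ⟨0,[(0,0)]⟩),.k,(.r (-2) ⟨3,[(19,3),(4,2),(0,0)]⟩ ⟨0,[(0,0),(33,0)]⟩),.k,⟨true,1,⟨1,
  [(12,0),(6,0),(4,0),(16,0)]⟩,⟨0,[(0,0),(33,0)]⟩⟩,⟨false,1,⟨15,[(2,3),(13,7),(5,7),(1,0),(0,0),(0,
  7),(8,7),(3,3),(3,5)]⟩,⟨0,[(21,0),(5,0)]⟩⟩,⟨false,1,⟨0,[(41,0),(2,0)]⟩,⟨0,[(42,0)]⟩⟩,⟨false,0,⟨11,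
  [(0,6),(1,2),(1,4),(6,4),(0,1),(3,5),(2,1),(6,5),(8,5),(3,2),(3,4)]⟩,⟨5,[(3,1),(15,1),(4,2),(2,5),
  (1,1),(7,0)]⟩⟩,⟨true,0,⟨0,[]⟩,⟨0,[(46,0)]⟩⟩,⟨false,0,⟨1,[(0,1),(15,1),(9,0),(8,0),(0,0),(6,0),(0,
  0)]⟩,⟨5,[(3,1),(1,1),(13,1),(4,2),(2,5),(1,1),(14,0)]⟩⟩,[.o ⟨false,0,⟨0,[(16,0)]⟩,⟨11,[(3,3),(15,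
  3),(4,2),(0,2),(3,3),(7,1)]⟩⟩,.o ⟨false,1,⟨3,[(16,3),(7,0),(0,0),(18,1)]⟩,⟨0,[(28,0)]⟩⟩,.a ⟨true,
  0,⟨0,[(27,0)]⟩,⟨1,[(26,0),(8,0),(0,0)]⟩⟩ ⟨false,1,⟨3,[(11,1),(0,0),(6,0),(4,1),(16,0),(2,0)]⟩,⟨3,
  [(0,1),(24,0),(16,1),(0,0)]⟩⟩ ⟨true,0,⟨1,[(16,1),(9,0),(8,0),(0,0)]⟩,⟨0,[(27,0),(0,0)]⟩⟩,.o
  ⟨false,0,⟨6,[(5,0),(4,2),(16,6),(9,2),(2,0)]⟩,⟨7,[(24,0),(0,0),(0,3),(10,1),(5,3)]⟩⟩]⟩) (.Q [0,0,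
  0,0,0,0,-1,-1,1,0,1,-1] (.p true [0,0,1] [0,0,0,1] (⟨0,[(36,0)]⟩,⟨0,[(35,0)]⟩) .k 2 (⟨0,[(27,0)]⟩,
  ⟨1,[(26,0),(8,0),(0,0)]⟩) .k (.x (-1) ⟨7,[(2,3),(21,2),(0,2),(13,3),(3,1)]⟩ ⟨0,[(21,0),(13,0)]⟩))
  (.I [0,1,0,1,0,0,0,-1,1] (.R ⟨1,false,false,true,[1,0,0,-1],[1,0,-1],[1,0,0,-1,0,0,0,0,-1],(⟨1,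
  [(28,0),(8,0),(0,0)]⟩,⟨0,[(29,0)]⟩),(⟨0,[(37,0)]⟩,⟨0,[(38,0)]⟩),⟨1,[(8,0),(11,0),(7,0)]⟩,.k,.k,
  (.x 0 ⟨2,[(4,0),(15,1),(10,1)]⟩ ⟨3,[(26,0),(0,0),(13,3),(3,1)]⟩),.k,(.r (-1) ⟨1,[(19,0),(6,0),(9,
  0)]⟩ ⟨3,[(0,0),(2,1),(2,0),(5,0),(14,0)]⟩),.k,⟨false,1,⟨1,[(13,1),(12,0),(18,0)]⟩,⟨0,[(0,0)]⟩⟩,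
  ⟨true,0,⟨1,[(25,0),(2,0)]⟩,⟨0,[(29,0),(4,0)]⟩⟩,⟨false,1,⟨0,[(43,0),(2,0)]⟩,⟨0,[(44,0)]⟩⟩,⟨false,0,
  ⟨0,[(1,0)]⟩,⟨1,[(18,1),(7,0),(2,1),(16,0)]⟩⟩,⟨true,0,⟨0,[]⟩,⟨0,[(48,0)]⟩⟩,⟨false,0,⟨0,[(1,0),(42,
  0)]⟩,⟨3,[(2,1),(10,1),(4,1),(7,0),(2,3),(4,1),(11,0)]⟩⟩,[.o ⟨false,0,⟨0,[(30,0)]⟩,⟨3,[(18,3),(7,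
  0),(0,0),(18,1)]⟩⟩,.o ⟨false,1,⟨11,[(5,3),(15,3),(4,2),(0,2),(3,3),(7,1)]⟩,⟨0,[(18,0)]⟩⟩,.a ⟨true,
  0,⟨0,[(29,0)]⟩,⟨1,[(28,0),(8,0),(0,0)]⟩⟩ ⟨false,1,⟨3,[(13,1),(0,0),(6,0),(4,1),(16,0),(2,0)]⟩,⟨1,
  [(0,0),(5,0),(37,0)]⟩⟩ ⟨true,0,⟨1,[(28,0),(1,0),(2,0)]⟩,⟨0,[(18,0),(10,0)]⟩⟩,.o ⟨false,0,⟨6,[(7,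
  0),(4,2),(16,6),(9,2),(2,0)]⟩,⟨7,[(26,0),(0,0),(0,3),(10,1),(5,3)]⟩⟩]⟩) (.I [1,1,0,0,0,0,0,0,-1]
  (.I [0,1,0,0,0,0,0,0,-1] (.R ⟨1,false,false,true,[1,0,0,-1],[0,0,0,1],[0,1,0,0,0,0,0,0,-1],(⟨1,
  [(30,0),(8,0),(0,0)]⟩,⟨0,[(31,0)]⟩),(⟨0,[(31,0)]⟩,⟨1,[(30,0),(8,0),(0,0)]⟩),⟨1,[(10,0),(11,0),(7,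
  0)]⟩,.k,.k,(.x 0 ⟨2,[(6,0),(15,1),(10,1)]⟩ ⟨3,[(28,0),(0,0),(13,3),(3,1)]⟩),.k,(.x 0 ⟨2,[(6,0),
  (15,1),(10,1)]⟩ ⟨3,[(28,0),(0,0),(13,3),(3,1)]⟩),.k,⟨false,1,⟨2,[(0,1),(1,1),(2,0),(22,0),(17,0),
  (0,1)]⟩,⟨0,[(3,1),(16,1),(10,1)]⟩⟩,⟨true,0,⟨0,[(30,0)]⟩,⟨6,[(9,0),(4,2),(16,13),(9,2),(2,0)]⟩⟩,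
  ⟨true,0,⟨0,[(50,0)]⟩,⟨0,[]⟩⟩,⟨false,0,⟨0,[(3,1),(16,1),(18,0),(0,0)]⟩,⟨3,[(2,3),(2,1),(1,1),(12,
  3),(7,1),(2,7),(9,0),(5,0)]⟩⟩,⟨false,0,⟨0,[(46,0)]⟩,⟨0,[(45,0),(2,0)]⟩⟩,⟨false,0,⟨0,[(3,1),(16,1),
  (18,0),(0,0),(5,0)]⟩,⟨11,[(0,1),(1,15),(2,7),(7,1),(14,2),(2,23),(9,4),(5,3)]⟩⟩,[.o ⟨false,0,⟨0,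
  [(3,0),(30,0)]⟩,⟨5,[(2,3),(2,1),(22,0),(2,5),(9,2),(4,1),(0,0),(0,0)]⟩⟩,.o ⟨false,0,⟨0,[(3,0),(16,
  0)]⟩,⟨1,[(28,0),(2,1),(9,0)]⟩⟩,.a ⟨true,0,⟨0,[(31,0)]⟩,⟨1,[(30,0),(8,0),(0,0)]⟩⟩ ⟨true,0,⟨0,[(0,
  0)]⟩,⟨0,[(3,0),(16,0),(10,0)]⟩⟩ ⟨false,0,⟨1,[(3,1),(16,1),(9,0),(8,0),(0,0)]⟩,⟨5,[(2,3),(2,1),(22,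
  0),(2,11),(9,2),(4,1),(0,0),(0,0)]⟩⟩,.o ⟨false,0,⟨6,[(9,0),(4,2),(16,6),(9,2),(2,0)]⟩,⟨7,[(28,0),
  (0,0),(0,3),(10,1),(5,3)]⟩⟩]⟩) (.K ⟨1,[0,0,0,1],0,0,(⟨0,[(31,0)]⟩,⟨1,[(30,0),(8,0),(0,0)]⟩),.k,
  (.x 0 ⟨2,[(6,0),(15,1),(10,1)]⟩ ⟨3,[(28,0),(0,0),(13,3),(3,1)]⟩),(.x (-1) ⟨3,[(28,0),(0,0),(13,3),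
  (3,1)]⟩ ⟨2,[(6,0),(15,1),(10,1)]⟩),.k,.k,[⟨1,[(31,1),(4,0),(0,0)]⟩,⟨1,[(30,0),(2,0),(2,0)]⟩,⟨0,
  [(1,0),(29,0)]⟩,⟨1,[(0,1),(29,0),(8,0),(0,0)]⟩]⟩)) (.R ⟨1,false,false,false,[1,0,0,-1],[0,1],[1,0,
  0,-1,0,0,0,0,-1],(⟨1,[(29,0),(8,0),(0,0)]⟩,⟨0,[(30,0)]⟩),(⟨0,[(42,0)]⟩,⟨0,[(41,0)]⟩),⟨1,[(9,0),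
  (11,0),(7,0)]⟩,.k,.k,(.x 0 ⟨2,[(5,0),(15,1),(10,1)]⟩ ⟨3,[(27,0),(0,0),(13,3),(3,1)]⟩),(.x 0 ⟨2,
  [(5,0),(15,1),(10,1)]⟩ ⟨3,[(27,0),(0,0),(13,3),(3,1)]⟩),(.r (-2) ⟨11,[(20,7),(1,7),(4,6),(0,0)]⟩
  ⟨0,[(0,0),(12,0),(31,0),(3,0)]⟩),.k,⟨true,1,⟨1,[(1,0),(1,0),(18,0),(21,0)]⟩,⟨0,[(0,0),(12,0),(31,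
  0),(3,0)]⟩⟩,⟨false,1,⟨1,[(29,0),(8,0),(0,0),(6,1)]⟩,⟨6,[(8,0),(4,2),(16,6),(9,2),(2,0)]⟩⟩,⟨false,
  1,⟨0,[(44,0),(2,0)]⟩,⟨0,[(45,0)]⟩⟩,⟨false,0,⟨1,[(0,1),(28,0),(8,0),(0,0),(5,1)]⟩,⟨5,[(8,1),(18,2),
  (2,5),(9,1),(6,0)]⟩⟩,⟨true,0,⟨0,[]⟩,⟨0,[(49,0)]⟩⟩,⟨false,0,⟨1,[(0,1),(28,0),(8,0),(0,0),(5,3)]⟩,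
  ⟨5,[(8,3),(18,2),(2,5),(9,0),(6,1)]⟩⟩,[.o ⟨false,0,⟨0,[(45,0)]⟩,⟨11,[(8,3),(18,2),(0,2),(11,3),(6,
  1)]⟩⟩,.o ⟨false,1,⟨3,[(27,0),(0,0),(16,3),(1,1)]⟩,⟨0,[(17,0)]⟩⟩,.a ⟨true,0,⟨0,[(30,0)]⟩,⟨1,[(29,
  0),(8,0),(0,0)]⟩⟩ ⟨false,1,⟨3,[(14,1),(0,0),(6,0),(4,1),(16,0),(2,0)]⟩,⟨0,[(0,0),(44,0),(3,0)]⟩⟩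
  ⟨true,0,⟨1,[(29,0),(8,0),(0,0),(5,1)]⟩,⟨0,[(17,0),(12,0)]⟩⟩,.o ⟨false,0,⟨6,[(8,0),(4,2),(16,6),(9,
  2),(2,0)]⟩,⟨7,[(27,0),(0,0),(0,3),(10,1),(5,3)]⟩⟩]⟩))) (.Q [0,0,0,1,0,0,-1,-1,1,0,1,-1] (.p true
  [0,0,1] [0,0,0,1] (⟨0,[(37,0)]⟩,⟨0,[(36,0)]⟩) .k 2 (⟨0,[(28,0)]⟩,⟨1,[(27,0),(8,0),(0,0)]⟩) .k (.r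
  0 ⟨1,[(0,1),(23,0),(2,0)]⟩ ⟨11,[(2,3),(17,3),(4,0),(0,6)]⟩)) (.R ⟨1,false,false,false,[1,0,0,-1],
  [0,1],[1,0,0,-1,0,0,0,0,-1],(⟨1,[(28,0),(8,0),(0,0)]⟩,⟨0,[(29,0)]⟩),(⟨0,[(41,0)]⟩,⟨0,[(40,0)]⟩),
  ⟨1,[(8,0),(11,0),(7,0)]⟩,.k,.k,(.r (-1) ⟨1,[(1,1),(1,9),(0,14),(2,3),(2,26),(3,3),(3,21),(1,29),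
  (7,0),(12,44),(3,28)]⟩ ⟨1,[(12,0),(14,0),(16,0)]⟩),(.r (-1) ⟨1,[(1,1),(1,9),(0,14),(2,3),(2,26),
  (3,3),(3,21),(1,29),(7,0),(12,44),(3,28)]⟩ ⟨1,[(12,0),(14,0),(16,0)]⟩),(.r (-2) ⟨11,[(19,7),(1,7),
  (4,6),(0,0)]⟩ ⟨0,[(0,0),(11,0),(5,0),(10,0)]⟩),.k,⟨true,1,⟨6,[(1,1),(0,4),(2,0),(1,1),(5,1),(7,1),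
  (6,0),(8,1),(0,1)]⟩,⟨0,[(0,0),(11,0),(5,0),(10,0)]⟩⟩,⟨false,1,⟨1,[(28,0),(8,0),(0,0),(6,1)]⟩,⟨6,
  [(7,0),(4,2),(16,6),(9,2),(2,0)]⟩⟩,⟨false,1,⟨0,[(43,0),(2,0)]⟩,⟨0,[(44,0)]⟩⟩,⟨true,0,⟨0,[(0,0),
  (17,0),(18,0),(0,0)]⟩,⟨4,[(1,4),(3,0),(1,1),(22,1),(2,0)]⟩⟩,⟨true,0,⟨0,[]⟩,⟨0,[(48,0)]⟩⟩,⟨true,0,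
  ⟨0,[(0,0),(17,0),(18,0),(0,0),(5,0)]⟩,⟨4,[(1,4),(3,1),(1,3),(25,0),(3,0),(0,0)]⟩⟩,[.o ⟨false,0,⟨0,
  [(44,0)]⟩,⟨11,[(7,3),(18,2),(0,2),(11,3),(6,1)]⟩⟩,.o ⟨false,1,⟨3,[(26,0),(0,0),(16,3),(1,1)]⟩,⟨0,
  [(16,0)]⟩⟩,.a ⟨true,0,⟨0,[(29,0)]⟩,⟨1,[(28,0),(8,0),(0,0)]⟩⟩ ⟨false,1,⟨3,[(13,1),(0,0),(6,0),(4,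
  1),(16,0),(2,0)]⟩,⟨0,[(0,0),(17,0),(10,0)]⟩⟩ ⟨true,0,⟨1,[(28,0),(8,0),(0,0),(5,1)]⟩,⟨0,[(16,0),
  (12,0)]⟩⟩,.o ⟨false,0,⟨6,[(7,0),(4,2),(16,6),(9,2),(2,0)]⟩,⟨7,[(26,0),(0,0),(0,3),(10,1),(5,
  3)]⟩⟩]⟩) (.Q [0,0,0,1,0,0,1,1,1,1,-1,-1] (.p false [0,0,1] [1,0,0,-1] (⟨0,[(38,0)]⟩,⟨0,[(37,0)]⟩)
  .k 2 (⟨1,[(28,0),(8,0),(0,0)]⟩,⟨0,[(29,0)]⟩) .k (.r 0 ⟨0,[(6,0),(41,0)]⟩ ⟨11,[(3,3),(17,3),(4,6),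
  (0,0)]⟩)) (.R ⟨1,false,false,false,[1,0,0,-1],[0,0,1],[1,0,1],(⟨1,[(29,0),(8,0),(0,0)]⟩,⟨0,[(30,
  0)]⟩),(⟨0,[(39,0)]⟩,⟨0,[(38,0)]⟩),⟨1,[(9,0),(11,0),(7,0)]⟩,.k,.k,(.r (-1) ⟨1,[(1,1),(2,11),(0,16),
  (2,3),(2,30),(3,3),(3,25),(1,33),(7,0),(12,50),(3,32)]⟩ ⟨1,[(13,0),(14,0),(16,0)]⟩),.k,(.r (-1)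
  ⟨4,[(1,3),(1,0),(0,0),(1,1),(15,2),(6,1),(16,0)]⟩ ⟨1,[(13,0),(14,0),(8,1),(7,0)]⟩),.k,⟨true,0,⟨5,
  [(10,1),(4,1),(19,0),(0,0)]⟩,⟨0,[(37,0)]⟩⟩,⟨false,1,⟨1,[(0,0),(1,0),(19,0),(2,0),(3,0)]⟩,⟨0,[(24,
  0),(5,0)]⟩⟩,⟨false,0,⟨12,[(7,6),(0,0),(4,2),(1,6),(12,2),(9,0),(0,0)]⟩,⟨1,[(27,0),(18,0)]⟩⟩,
  ⟨false,1,⟨1,[(0,0),(0,0),(26,0),(0,0),(17,0)]⟩,⟨0,[(1,0),(4,0)]⟩⟩,⟨false,0,⟨5,[(4,1),(2,3),(5,1),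
  (14,0),(16,1),(1,0)]⟩,⟨1,[(1,1),(2,11),(0,16),(2,3),(2,30),(3,3),(3,25),(1,33),(7,0),(12,50),(3,
  32)]⟩⟩,⟨true,0,⟨0,[(0,0)]⟩,⟨2,[(1,1),(0,0),(3,1),(1,0),(25,1)]⟩⟩,[.o ⟨false,0,⟨0,[(19,0)]⟩,⟨11,
  [(6,3),(15,3),(4,2),(0,2),(3,3),(7,1)]⟩⟩,.o ⟨false,1,⟨3,[(19,3),(7,0),(0,0),(18,1)]⟩,⟨0,[(31,
  0)]⟩⟩,.a ⟨true,0,⟨0,[(30,0)]⟩,⟨1,[(29,0),(8,0),(0,0)]⟩⟩ ⟨false,0,⟨0,[(43,0)]⟩,⟨3,[(27,0),(0,0),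
  (17,1)]⟩⟩ ⟨true,0,⟨1,[(0,0),(0,0),(27,0)]⟩,⟨0,[(30,0),(0,0)]⟩⟩,.o ⟨false,0,⟨6,[(8,0),(4,2),(16,6),
  (9,2),(2,0)]⟩,⟨7,[(27,0),(0,0),(0,3),(10,1),(5,3)]⟩⟩]⟩) (.Q [0,1,0,1,0,0,0,0,1,1,0,-1] (.p false
  [0,0,0,1] [1] (⟨0,[(30,0)]⟩,⟨1,[(29,0),(8,0),(0,0)]⟩) .k 1 (⟨0,[]⟩,⟨0,[]⟩) .k .k) (.I [0,1,0,1,0,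
  0,0,0,1] (.R ⟨1,false,false,false,[1,0,0,-1],[1,-1],[1,0,0,-1,0,0,0,0,-1],(⟨1,[(31,0),(8,0),(0,
  0)]⟩,⟨0,[(32,0)]⟩),(⟨0,[(43,0)]⟩,⟨0,[(44,0)]⟩),⟨1,[(11,0),(11,0),(7,0)]⟩,.k,.k,(.r (-1) ⟨1,[(2,5),
  (3,15),(0,20),(1,3),(0,3),(2,34),(7,33),(1,41),(7,2),(12,62),(3,36)]⟩ ⟨1,[(15,0),(14,0),(16,0)]⟩),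
  (.r 0 ⟨1,[(15,0),(13,0),(17,0)]⟩ ⟨12,[(0,1),(0,0),(7,3),(0,0),(11,2),(1,6),(5,2),(1,0)]⟩),.k,.k,
  ⟨false,0,⟨3,[(2,0),(1,2),(3,0),(22,1)]⟩,⟨1,[(30,0),(17,0)]⟩⟩,⟨true,0,⟨1,[(31,0),(2,0),(2,0)]⟩,⟨0,
  [(32,0)]⟩⟩,⟨false,1,⟨0,[(46,0),(2,0)]⟩,⟨0,[(47,0)]⟩⟩,⟨false,1,⟨17,[(9,5),(0,4),(6,2),(6,2),(5,5),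
  (0,8),(10,1),(6,6)]⟩,⟨0,[(4,0),(13,0)]⟩⟩,⟨true,0,⟨0,[]⟩,⟨0,[(51,0)]⟩⟩,⟨false,1,⟨15,[(6,1),(2,5),
  (14,1),(5,4),(0,7),(10,3),(6,4)]⟩,⟨2,[(2,0),(1,1),(13,0),(21,0),(0,0)]⟩⟩,[.o ⟨false,1,⟨11,[(10,3),
  (18,2),(0,2),(11,3),(6,1)]⟩,⟨0,[(47,0)]⟩⟩,.o ⟨false,1,⟨2,[(10,0),(31,0),(6,1)]⟩,⟨0,[(47,0),(3,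
  0)]⟩⟩,.a ⟨true,0,⟨0,[(32,0)]⟩,⟨1,[(31,0),(8,0),(0,0)]⟩⟩ ⟨true,0,⟨1,[(2,0),(0,0),(27,0)]⟩,⟨0,[(0,
  0)]⟩⟩ ⟨false,1,⟨23,[(10,7),(18,2),(0,2),(0,11),(10,1),(6,15)]⟩,⟨0,[(32,0),(14,0)]⟩⟩,.o ⟨false,0,
  ⟨6,[(10,0),(4,2),(16,6),(9,2),(2,0)]⟩,⟨7,[(29,0),(0,0),(0,3),(10,1),(5,3)]⟩⟩]⟩) (.R ⟨1,false,
  false,true,[1,0,0,-1],[1,-1],[0,1,0,0,0,0,0,0,-1],(⟨1,[(31,0),(8,0),(0,0)]⟩,⟨0,[(32,0)]⟩),(⟨0,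
  [(43,0)]⟩,⟨0,[(44,0)]⟩),⟨1,[(11,0),(11,0),(7,0)]⟩,.k,.k,(.r (-1) ⟨0,[(0,2),(5,16),(0,20),(1,1),(0,
  4),(2,36),(7,31),(1,41),(20,62),(3,37)]⟩ ⟨1,[(15,0),(14,0),(16,0)]⟩),(.r 0 ⟨1,[(15,0),(13,0),(17,
  0)]⟩ ⟨6,[(1,0),(7,1),(0,0),(11,0),(1,2),(5,1),(1,0),(15,0)]⟩),.k,.k,⟨false,0,⟨1,[(4,1),(3,0),(22,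
  0),(15,0)]⟩,⟨6,[(1,0),(7,1),(0,0),(11,0),(1,2),(5,1),(1,0),(15,0)]⟩⟩,⟨true,0,⟨1,[(31,0),(2,0),(2,
  0)]⟩,⟨0,[(32,0)]⟩⟩,⟨true,0,⟨0,[(51,0)]⟩,⟨0,[]⟩⟩,⟨false,1,⟨23,[(10,7),(18,2),(0,14),(0,11),(10,1),
  (6,3)]⟩,⟨0,[(0,0),(31,0),(14,1)]⟩⟩,⟨false,0,⟨0,[(47,0)]⟩,⟨0,[(46,0),(2,0)]⟩⟩,⟨false,1,⟨7,[(29,0),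
  (0,4),(0,3),(10,1)]⟩,⟨0,[(0,0),(31,0),(14,0)]⟩⟩,[.o ⟨false,0,⟨0,[(19,0)]⟩,⟨3,[(29,0),(0,0),(16,3),
  (1,1)]⟩⟩,.o ⟨false,1,⟨11,[(10,3),(18,2),(0,2),(11,3),(6,1)]⟩,⟨0,[(47,0)]⟩⟩,.a ⟨true,0,⟨0,[(32,
  0)]⟩,⟨1,[(31,0),(8,0),(0,0)]⟩⟩ ⟨false,0,⟨3,[(2,0),(1,2),(3,0),(22,1)]⟩,⟨1,[(30,0),(18,0)]⟩⟩ ⟨true,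
  0,⟨1,[(19,0),(11,0),(14,0)]⟩,⟨0,[(32,0),(14,0)]⟩⟩,.o ⟨false,0,⟨6,[(10,0),(4,2),(16,6),(9,2),(2,
  0)]⟩,⟨7,[(29,0),(0,0),(0,3),(10,1),(5,3)]⟩⟩]⟩)) (.R ⟨1,false,false,true,[1,0,0,-1],[1,-1],[0,1,0,
  0,0,0,0,0,-1],(⟨1,[(30,0),(8,0),(0,0)]⟩,⟨0,[(31,0)]⟩),(⟨0,[(42,0)]⟩,⟨0,[(43,0)]⟩),⟨1,[(10,0),(11,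
  0),(7,0)]⟩,.k,.k,(.r (-1) ⟨1,[(0,5),(4,33),(0,44),(1,3),(0,9),(2,76),(7,63),(1,89),(7,2),(12,134),
  (3,78)]⟩ ⟨1,[(14,0),(14,0),(16,0)]⟩),(.r 0 ⟨1,[(14,0),(13,0),(17,0)]⟩ ⟨3,[(8,1),(14,1),(5,0),(15,
  1),(1,0)]⟩),.k,.k,⟨false,0,⟨1,[(3,1),(3,0),(22,0),(15,0)]⟩,⟨3,[(8,1),(14,1),(5,0),(15,1),(1,0)]⟩⟩,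
  ⟨true,0,⟨1,[(30,0),(2,0),(2,0)]⟩,⟨0,[(31,0)]⟩⟩,⟨true,0,⟨0,[(50,0)]⟩,⟨0,[]⟩⟩,⟨false,1,⟨23,[(9,7),
  (18,2),(0,14),(0,11),(10,1),(6,3)]⟩,⟨0,[(0,0),(38,0),(0,0),(5,1)]⟩⟩,⟨false,0,⟨0,[(46,0)]⟩,⟨0,[(45,
  0),(2,0)]⟩⟩,⟨false,1,⟨7,[(28,0),(0,4),(0,3),(10,1)]⟩,⟨0,[(0,0),(38,0),(0,0),(5,0)]⟩⟩,[.o ⟨false,0,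
  ⟨0,[(18,0)]⟩,⟨3,[(28,0),(0,0),(16,3),(1,1)]⟩⟩,.o ⟨false,1,⟨11,[(9,3),(18,2),(0,2),(11,3),(6,1)]⟩,
  ⟨0,[(46,0)]⟩⟩,.a ⟨true,0,⟨0,[(31,0)]⟩,⟨1,[(30,0),(8,0),(0,0)]⟩⟩ ⟨false,0,⟨3,[(1,0),(1,2),(3,0),
  (22,1)]⟩,⟨1,[(29,0),(18,0)]⟩⟩ ⟨true,0,⟨1,[(18,0),(11,0),(14,0)]⟩,⟨0,[(31,0),(14,0)]⟩⟩,.o ⟨false,0,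
  ⟨19,[(0,1),(8,1),(4,7),(14,0),(1,17),(1,1),(2,1),(4,6)]⟩,⟨7,[(28,0),(0,0),(0,3),(10,1),(5,
  3)]⟩⟩]⟩)))))))))))) (.Q [0,-1,0,1,0,0,0,0,-1,0,0,1] (.p true [0,0,0,1] [] (⟨0,[(20,0)]⟩,⟨1,[(19,
  0),(8,0),(0,0)]⟩) .k 0 (⟨0,[]⟩,⟨0,[]⟩) .k .k) (.Q [0,0,0,0,0,-2,0,0,0,1] (.pp false [-1,1]) (.Q
  [0,-1,0,3,0,0,0,0,0,1] (.pp false [-1,1]) (.R ⟨1,true,false,false,[1,-1],[0,1],[0,0,-1,-1],(⟨0,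
  [(34,0)]⟩,⟨0,[(35,0)]⟩),(⟨0,[(35,0)]⟩,⟨0,[(34,0)]⟩),⟨0,[(1,0)]⟩,.k,.k,(.r (-2) ⟨2,[(13,1),(1,1),
  (4,0),(0,0)]⟩ ⟨1,[(0,0),(5,1),(3,0)]⟩),(.r (-2) ⟨2,[(13,1),(1,1),(4,0),(0,0)]⟩ ⟨1,[(0,0),(5,1),(3,
  0)]⟩),(.r (-2) ⟨0,[(13,0),(1,0)]⟩ ⟨7,[(0,3),(5,11),(13,0),(0,0),(11,1),(8,3)]⟩),.k,⟨false,2,⟨0,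
  [(13,0),(4,0)]⟩,⟨1,[(0,0),(5,1),(3,0)]⟩⟩,⟨true,1,⟨0,[(31,0),(0,0),(6,0)]⟩,⟨4,[(5,2),(0,5),(26,0),
  (2,2)]⟩⟩,⟨false,1,⟨3,[(20,0),(0,0),(18,1)]⟩,⟨0,[]⟩⟩,⟨true,0,⟨0,[(0,0),(36,0)]⟩,⟨0,[(5,0)]⟩⟩,⟨true,
  0,⟨0,[(38,0)]⟩,⟨0,[(37,0)]⟩⟩,⟨false,0,⟨0,[(0,0)]⟩,⟨0,[(5,0),(31,0),(2,0)]⟩⟩,[]⟩) (.I [0,0,1,1,-1,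
  0,0,1,-1] (.Q [0,-1,0,0,0,0,1,1,-1,0,-1,1] (.p false [0,0,1] [0,0,0,1] (⟨0,[(33,0)]⟩,⟨0,[(32,
  0)]⟩) .k 2 (⟨0,[(24,0)]⟩,⟨1,[(23,0),(8,0),(0,0)]⟩) .k (.r 0 ⟨3,[(0,1),(13,0),(6,0),(9,0)]⟩ ⟨3,[(9,
  0),(9,1),(2,1),(5,0),(0,0)]⟩)) (.R ⟨1,false,false,true,[1,0,0,-1],[1,-1,-1],[0,1,0,0,0,0,0,0,-1],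
  (⟨1,[(24,0),(8,0),(0,0)]⟩,⟨0,[(25,0)]⟩),(⟨0,[(16,0)]⟩,⟨0,[(34,0),(2,0)]⟩),⟨1,[(3,0),(20,0)]⟩,.k,
  .k,(.r (-1) ⟨7,[(2,0),(1,1),(10,1),(1,1),(4,2),(1,0),(14,0),(1,0)]⟩ ⟨1,[(8,0),(14,0),(16,0)]⟩),
  (.r 1 ⟨0,[(1,0)]⟩ ⟨3,[(17,3),(4,0),(0,2)]⟩),.k,.k,⟨true,(-1),⟨0,[(1,0)]⟩,⟨1,[(10,0),(6,0),(5,0),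
  (15,0)]⟩⟩,⟨false,0,⟨1,[(21,0),(2,0)]⟩,⟨0,[(14,0),(5,0),(4,0)]⟩⟩,⟨true,0,⟨0,[(44,0)]⟩,⟨0,[]⟩⟩,
  ⟨false,1,⟨5,[(2,0),(7,1),(6,2),(3,1),(1,2),(0,2),(4,0),(1,0)]⟩,⟨0,[(4,0),(9,0)]⟩⟩,⟨false,0,⟨0,
  [(40,0)]⟩,⟨0,[(39,0),(2,0)]⟩⟩,⟨false,1,⟨5,[(10,0),(0,0),(5,0),(3,0),(1,2),(0,2),(4,2),(5,0),(6,
  0)]⟩,⟨0,[(0,0)]⟩⟩,[.o ⟨false,0,⟨1,[(2,0),(8,0),(14,0)]⟩,⟨3,[(14,3),(7,0),(0,0),(16,3),(1,1)]⟩⟩,.o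
  ⟨false,1,⟨0,[(17,0),(9,0)]⟩,⟨0,[(14,0),(25,0)]⟩⟩,.a ⟨true,0,⟨0,[(25,0)]⟩,⟨1,[(24,0),(8,0),(0,
  0)]⟩⟩ ⟨false,0,⟨0,[(1,0),(15,0)]⟩,⟨1,[(23,0),(18,0)]⟩⟩ ⟨true,0,⟨1,[(2,0),(8,0),(12,0),(4,0)]⟩,⟨0,
  [(14,0),(10,0),(14,0)]⟩⟩,.o ⟨false,0,⟨27,[(0,1),(1,3),(5,11),(1,1),(12,0),(1,25),(1,1),(7,10)]⟩,
  ⟨7,[(22,0),(0,0),(0,3),(10,1),(5,3)]⟩⟩]⟩) (.R ⟨1,true,false,false,[1,0,-1],[1,0,0,-1],[1,0,0,-1,0,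
  0,0,-1],(⟨0,[(33,0)]⟩,⟨0,[(34,0)]⟩),(⟨1,[(24,0),(8,0),(0,0)]⟩,⟨0,[(25,0)]⟩),⟨0,[(16,0)]⟩,.k,.k,.k,
  .k,(.r (-2) ⟨3,[(17,3),(4,0),(0,2)]⟩ ⟨0,[(1,0)]⟩),.k,⟨true,1,⟨1,[(10,0),(6,0),(5,0),(15,0)]⟩,⟨0,
  [(1,0)]⟩⟩,⟨false,1,⟨0,[(14,0),(5,0),(4,0)]⟩,⟨1,[(21,0),(2,0)]⟩⟩,⟨false,1,⟨0,[(39,0),(2,0)]⟩,⟨0,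
  [(40,0)]⟩⟩,⟨true,0,⟨0,[(4,0),(13,0)]⟩,⟨0,[(0,0)]⟩⟩,⟨true,0,⟨0,[]⟩,⟨0,[(44,0)]⟩⟩,⟨false,0,⟨0,[(4,
  0),(9,0)]⟩,⟨4,[(0,2),(1,0),(14,1),(5,0),(0,0),(6,1),(10,1)]⟩⟩,[]⟩)) (.Q [0,1,0,0,0,0,0,0,1,0,0,
  -1] (.p false [0,0,0,1] [] (⟨0,[(24,0)]⟩,⟨1,[(23,0),(8,0),(0,0)]⟩) .k 0 (⟨0,[]⟩,⟨0,[]⟩) .k .k)
  (.R ⟨2,true,false,true,[0,1],[0,0,0,1],[1,1,1],(⟨0,[]⟩,⟨0,[]⟩),(⟨0,[(25,0)]⟩,⟨1,[(24,0),(8,0),(0,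
  0)]⟩),⟨0,[]⟩,.k,.k,.k,(.r 0 ⟨1,[(8,0),(13,0),(17,0)]⟩ ⟨2,[(1,0),(13,0),(7,0)]⟩),.k,.k,⟨false,0,⟨3,
  [(2,0),(1,3),(7,0),(11,1),(19,1)]⟩,⟨1,[(23,0),(17,0)]⟩⟩,⟨true,0,⟨1,[(24,0),(2,0),(2,0)]⟩,⟨0,[(25,
  0)]⟩⟩,⟨true,0,⟨0,[(39,0)]⟩,⟨0,[(40,0)]⟩⟩,⟨false,1,⟨23,[(2,7),(19,2),(0,14),(0,11),(10,1),(6,3)]⟩,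
  ⟨0,[(4,0)]⟩⟩,⟨false,0,⟨0,[]⟩,⟨3,[(22,0),(0,0),(18,1)]⟩⟩,⟨true,0,⟨0,[(0,0)]⟩,⟨0,[(4,0),(34,0)]⟩⟩,
  []⟩) (.R ⟨1,false,false,true,[1,0,0,-1],[1,-1],[0,1,0,0,0,0,0,0,-1],(⟨1,[(24,0),(8,0),(0,0)]⟩,⟨0,
  [(25,0)]⟩),(⟨0,[(36,0)]⟩,⟨0,[(37,0)]⟩),⟨1,[(3,0),(20,0)]⟩,.k,.k,(.r (-1) ⟨9,[(0,1),(1,0),(12,1),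
  (1,1),(4,3),(1,0),(14,0),(1,1)]⟩ ⟨1,[(8,0),(14,0),(16,0)]⟩),(.r 0 ⟨1,[(8,0),(13,0),(17,0)]⟩ ⟨2,
  [(1,0),(13,0),(7,0)]⟩),.k,.k,⟨false,0,⟨1,[(4,1),(19,0),(1,0),(1,0)]⟩,⟨2,[(1,0),(13,0),(7,0)]⟩⟩,
  ⟨true,0,⟨1,[(24,0),(2,0),(2,0)]⟩,⟨0,[(25,0)]⟩⟩,⟨true,0,⟨0,[(44,0)]⟩,⟨0,[]⟩⟩,⟨false,1,⟨23,[(2,7),
  (19,2),(0,14),(0,11),(10,1),(6,3)]⟩,⟨0,[(4,0)]⟩⟩,⟨false,0,⟨0,[(40,0)]⟩,⟨0,[(39,0),(2,0)]⟩⟩,⟨false,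
  1,⟨7,[(22,0),(0,4),(0,3),(10,1)]⟩,⟨0,[(0,0)]⟩⟩,[.o ⟨false,0,⟨0,[(12,0)]⟩,⟨3,[(22,0),(0,0),(16,3),
  (1,1)]⟩⟩,.o ⟨false,1,⟨11,[(2,3),(19,2),(0,2),(11,3),(6,1)]⟩,⟨0,[(40,0)]⟩⟩,.a ⟨true,0,⟨0,[(25,0)]⟩,
  ⟨1,[(24,0),(8,0),(0,0)]⟩⟩ ⟨false,0,⟨3,[(2,0),(1,3),(7,0),(11,1),(19,1)]⟩,⟨1,[(23,0),(18,0)]⟩⟩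
  ⟨true,0,⟨3,[(2,0),(9,0),(11,1),(19,1)]⟩,⟨0,[(25,0),(14,0)]⟩⟩,.o ⟨false,0,⟨6,[(2,0),(5,2),(16,6),
  (9,2),(2,0)]⟩,⟨7,[(22,0),(0,0),(0,3),(10,1),(5,3)]⟩⟩]⟩)))) (.I [0,0,-1,-1,1,0,0,0,1] (.R ⟨0,false,
  false,false,[0,0,0,1],[0,1],[1,0,0,0,0,0,0,0,1],(⟨0,[(23,0)]⟩,⟨1,[(22,0),(8,0),(0,0)]⟩),(⟨0,[(35,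
  0)]⟩,⟨0,[(34,0)]⟩),⟨1,[(1,0),(20,0)]⟩,.k,.k,(.r (-1) ⟨0,[(0,0)]⟩ ⟨1,[(6,0),(13,0),(17,0)]⟩),(.r
  (-1) ⟨0,[(0,0)]⟩ ⟨1,[(6,0),(13,0),(17,0)]⟩),.k,.k,⟨true,1,⟨0,[(0,0)]⟩,⟨1,[(2,1),(2,0),(0,1),(15,
  0),(19,0)]⟩⟩,⟨false,1,⟨0,[(23,0),(15,0)]⟩,⟨1,[(22,0),(2,0),(2,0)]⟩⟩,⟨true,0,⟨0,[]⟩,⟨0,[(42,0)]⟩⟩,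
  ⟨false,0,⟨0,[(2,0)]⟩,⟨7,[(5,3),(14,0),(0,4),(0,3),(17,1)]⟩⟩,⟨false,0,⟨0,[]⟩,⟨0,[]⟩⟩,⟨false,0,⟨0,
  []⟩,⟨0,[]⟩⟩,[.o ⟨false,0,⟨0,[(38,0)]⟩,⟨3,[(5,1),(14,0),(0,0),(11,0),(6,0)]⟩⟩,.o ⟨false,1,⟨3,[(20,
  0),(0,0),(16,3),(1,1)]⟩,⟨0,[(10,0)]⟩⟩,.a ⟨true,0,⟨1,[(22,0),(8,0),(0,0)]⟩,⟨0,[(23,0)]⟩⟩ ⟨false,1,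
  ⟨1,[(21,0),(18,0)]⟩,⟨1,[(2,1),(2,0),(16,0),(19,0)]⟩⟩ ⟨true,0,⟨0,[(23,0),(14,0)]⟩,⟨1,[(5,0),(16,0),
  (19,0)]⟩⟩,.o ⟨false,0,⟨1,[(22,0),(2,0),(2,0)]⟩,⟨1,[(23,1),(9,0),(5,0)]⟩⟩]⟩) (.R ⟨0,false,false,
  false,[0,0,0,1],[0,1],[1,0,1,1],(⟨0,[(23,0)]⟩,⟨1,[(22,0),(8,0),(0,0)]⟩),(⟨0,[(35,0)]⟩,⟨0,[(34,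
  0)]⟩),⟨1,[(1,0),(20,0)]⟩,.k,.k,(.x 0 ⟨4,[(5,0),(0,1),(26,1),(0,4),(1,0)]⟩ ⟨3,[(20,0),(0,0),(13,3),
  (3,1)]⟩),(.x 0 ⟨4,[(5,0),(0,1),(26,1),(0,4),(1,0)]⟩ ⟨3,[(20,0),(0,0),(13,3),(3,1)]⟩),.k,.k,⟨true,
  0,⟨0,[]⟩,⟨1,[(28,0),(0,0)]⟩⟩,⟨false,1,⟨0,[(23,0),(15,0)]⟩,⟨1,[(22,0),(2,0),(2,0)]⟩⟩,⟨true,(-1),⟨0,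
  [(0,0)]⟩,⟨1,[(21,0),(15,1),(1,0)]⟩⟩,⟨false,0,⟨0,[(2,0)]⟩,⟨7,[(5,3),(14,0),(0,4),(0,3),(17,1)]⟩⟩,
  ⟨false,0,⟨0,[]⟩,⟨0,[]⟩⟩,⟨false,0,⟨0,[]⟩,⟨0,[]⟩⟩,[.o ⟨false,0,⟨0,[(38,0)]⟩,⟨3,[(5,1),(14,0),(0,0),
  (11,0),(6,0)]⟩⟩,.o ⟨false,1,⟨3,[(20,0),(0,0),(16,3),(1,1)]⟩,⟨0,[(10,0)]⟩⟩,.a ⟨true,0,⟨1,[(22,0),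
  (8,0),(0,0)]⟩,⟨0,[(23,0)]⟩⟩ ⟨false,0,⟨1,[(6,0),(31,0),(1,0)]⟩,⟨5,[(13,1),(1,1),(4,0),(0,0)]⟩⟩
  ⟨true,0,⟨0,[(23,0),(14,0)]⟩,⟨1,[(5,0),(16,0),(19,0)]⟩⟩,.o ⟨false,0,⟨1,[(22,0),(2,0),(2,0)]⟩,⟨1,
  [(23,1),(9,0),(5,0)]⟩⟩]⟩))) (.Q [0,0,0,0,0,-2,0,0,0,1] (.pp false [-1,1]) (.Q [0,-1,0,3,0,0,0,0,0,
  1] (.pp false [-1,1]) (.R ⟨1,true,false,false,[1,-1],[0,1],[0,0,-1,-1],(⟨0,[(34,0)]⟩,⟨0,[(35,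
  0)]⟩),(⟨0,[(35,0)]⟩,⟨0,[(34,0)]⟩),⟨0,[(1,0)]⟩,.k,.k,(.r (-2) ⟨2,[(13,1),(1,1),(4,0),(0,0)]⟩ ⟨1,
  [(0,0),(5,1),(3,0)]⟩),(.r (-2) ⟨2,[(13,1),(1,1),(4,0),(0,0)]⟩ ⟨1,[(0,0),(5,1),(3,0)]⟩),(.r (-2)
  ⟨0,[(13,0),(1,0)]⟩ ⟨7,[(0,3),(5,11),(13,0),(0,0),(11,1),(8,3)]⟩),.k,⟨false,2,⟨0,[(13,0),(4,0)]⟩,
  ⟨1,[(0,0),(5,1),(3,0)]⟩⟩,⟨true,1,⟨0,[(31,0),(0,0),(6,0)]⟩,⟨4,[(5,2),(0,5),(26,0),(2,2)]⟩⟩,⟨false,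
  1,⟨3,[(20,0),(0,0),(18,1)]⟩,⟨0,[]⟩⟩,⟨true,0,⟨0,[(0,0),(36,0)]⟩,⟨0,[(5,0)]⟩⟩,⟨true,0,⟨0,[(38,0)]⟩,
  ⟨0,[(37,0)]⟩⟩,⟨false,0,⟨0,[(0,0)]⟩,⟨0,[(5,0),(31,0),(2,0)]⟩⟩,[]⟩) (.I [0,-1,0,1,0,0,0,0,1] (.R ⟨1,
  false,false,false,[1,0,0,-1],[0,1],[1,1,0,-1,0,0,0,0,-1],(⟨1,[(23,0),(8,0),(0,0)]⟩,⟨0,[(24,0)]⟩),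
  (⟨0,[(36,0)]⟩,⟨0,[(35,0)]⟩),⟨1,[(2,0),(20,0)]⟩,.k,.k,(.x 0 ⟨1,[(2,0),(23,0),(2,0)]⟩ ⟨3,[(21,0),(0,
  0),(13,3),(3,1)]⟩),(.x 0 ⟨1,[(2,0),(23,0),(2,0)]⟩ ⟨3,[(21,0),(0,0),(13,3),(3,1)]⟩),(.r (-2) ⟨11,
  [(14,7),(1,7),(4,6),(0,0)]⟩ ⟨0,[(0,0),(6,0),(35,0)]⟩),.k,⟨true,1,⟨1,[(1,0),(19,0),(10,0),(0,0),(4,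
  0),(1,0)]⟩,⟨0,[(0,0),(6,0)]⟩⟩,⟨false,1,⟨1,[(23,0),(8,0),(0,0),(6,1)]⟩,⟨6,[(1,0),(5,2),(16,6),(9,
  2),(2,0)]⟩⟩,⟨true,0,⟨0,[(38,0)]⟩,⟨0,[(39,0)]⟩⟩,⟨false,0,⟨1,[(0,1),(22,0),(8,0),(0,0)]⟩,⟨5,[(1,1),
  (19,2),(2,5),(9,1),(6,0)]⟩⟩,⟨false,0,⟨0,[]⟩,⟨3,[(21,0),(0,0),(18,1)]⟩⟩,⟨false,0,⟨1,[(0,1),(22,0),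
  (8,0),(0,0),(5,1)]⟩,⟨5,[(1,3),(19,2),(2,5),(9,0),(6,1)]⟩⟩,[.o ⟨false,0,⟨0,[(39,0)]⟩,⟨11,[(1,3),
  (19,2),(0,2),(11,3),(6,1)]⟩⟩,.o ⟨false,1,⟨3,[(21,0),(0,0),(16,3),(1,1)]⟩,⟨0,[(11,0)]⟩⟩,.a ⟨true,0,
  ⟨0,[(24,0)]⟩,⟨1,[(23,0),(8,0),(0,0)]⟩⟩ ⟨false,1,⟨1,[(21,0),(16,1),(2,0)]⟩,⟨0,[(0,0)]⟩⟩ ⟨true,0,⟨1,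
  [(23,0),(8,0),(0,0),(5,1)]⟩,⟨0,[(11,0),(12,0)]⟩⟩,.o ⟨false,0,⟨6,[(1,0),(5,2),(16,6),(9,2),(2,0)]⟩,
  ⟨7,[(21,0),(0,0),(0,3),(10,1),(5,3)]⟩⟩]⟩) (.I [1,0,0,0,0,0,0,0,1] (.R ⟨1,false,false,true,[1,0,0,
  -1],[0,1],[0,1,0,0,0,0,0,0,-1],(⟨1,[(24,0),(8,0),(0,0)]⟩,⟨0,[(25,0)]⟩),(⟨0,[(37,0)]⟩,⟨0,[(36,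
  0)]⟩),⟨1,[(3,0),(20,0)]⟩,.k,.k,(.r (-1) ⟨2,[(1,0),(3,0),(11,1),(4,0)]⟩ ⟨1,[(8,0),(14,0),(16,0)]⟩),
  (.r (-1) ⟨2,[(1,0),(3,0),(11,1),(4,0)]⟩ ⟨1,[(8,0),(14,0),(16,0)]⟩),(.r (-2) ⟨11,[(15,7),(1,7),(4,
  6),(0,0)]⟩ ⟨0,[(0,0),(7,0),(31,0)]⟩),.k,⟨true,1,⟨2,[(1,0),(3,0),(11,1),(4,0)]⟩,⟨0,[(0,0),(7,0)]⟩⟩,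
  ⟨false,1,⟨1,[(24,0),(8,0),(0,0),(6,1)]⟩,⟨6,[(2,0),(5,2),(16,6),(9,2),(2,0)]⟩⟩,⟨true,0,⟨0,[(44,
  0)]⟩,⟨0,[]⟩⟩,⟨false,0,⟨1,[(0,1),(23,0),(8,0),(0,0),(5,1)]⟩,⟨3,[(2,0),(2,1),(4,3),(1,0),(9,1),(2,
  3),(9,0),(5,0)]⟩⟩,⟨false,0,⟨0,[(40,0)]⟩,⟨0,[(39,0),(2,0)]⟩⟩,⟨false,0,⟨1,[(0,1),(23,0),(8,0),(0,0),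
  (5,3)]⟩,⟨11,[(2,7),(2,5),(4,11),(11,5),(2,11),(9,1),(5,2),(0,0)]⟩⟩,[.o ⟨false,0,⟨0,[(40,0),(3,
  0)]⟩,⟨2,[(2,0),(32,0),(6,1)]⟩⟩,.o ⟨false,0,⟨0,[(40,0)]⟩,⟨11,[(2,3),(19,2),(0,2),(11,3),(6,1)]⟩⟩,
  .a ⟨true,0,⟨0,[(25,0)]⟩,⟨1,[(24,0),(8,0),(0,0)]⟩⟩ ⟨true,0,⟨0,[(1,0),(38,0)]⟩,⟨0,[(0,0)]⟩⟩ ⟨false,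
  0,⟨1,[(24,0),(8,0),(0,0),(5,1)]⟩,⟨2,[(2,0),(22,2),(9,0),(6,1)]⟩⟩,.o ⟨false,0,⟨6,[(2,0),(5,2),(16,
  6),(9,2),(2,0)]⟩,⟨7,[(22,0),(0,0),(0,3),(10,1),(5,3)]⟩⟩]⟩) (.R ⟨1,false,false,true,[1,0,0,-1],[1,
  -1],[0,1,0,0,0,0,0,0,-1],(⟨1,[(24,0),(8,0),(0,0)]⟩,⟨0,[(25,0)]⟩),(⟨0,[(36,0)]⟩,⟨0,[(37,0)]⟩),⟨1,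
  [(3,0),(20,0)]⟩,.k,.k,(.r (-1) ⟨2,[(0,0),(14,0),(1,0),(4,0)]⟩ ⟨1,[(8,0),(14,0),(16,0)]⟩),(.r 0 ⟨1,
  [(8,0),(13,0),(17,0)]⟩ ⟨2,[(4,0),(0,0),(11,1),(5,0),(1,0)]⟩),.k,.k,⟨false,0,⟨0,[(0,0),(39,0)]⟩,⟨2,
  [(4,0),(0,0),(11,1),(5,0),(1,0)]⟩⟩,⟨true,0,⟨1,[(24,0),(2,0),(2,0)]⟩,⟨0,[(25,0)]⟩⟩,⟨true,0,⟨0,[(44,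
  0)]⟩,⟨0,[]⟩⟩,⟨true,0,⟨0,[(4,0)]⟩,⟨0,[(0,0),(24,0),(14,0)]⟩⟩,⟨false,0,⟨0,[(40,0)]⟩,⟨0,[(39,0),(2,
  0)]⟩⟩,⟨true,0,⟨0,[(4,0),(35,0)]⟩,⟨0,[(0,0),(24,0)]⟩⟩,[.o ⟨false,0,⟨0,[(12,0)]⟩,⟨3,[(22,0),(0,0),
  (16,3),(1,1)]⟩⟩,.o ⟨false,1,⟨11,[(2,3),(19,2),(0,2),(11,3),(6,1)]⟩,⟨0,[(40,0)]⟩⟩,.a ⟨true,0,⟨0,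
  [(25,0)]⟩,⟨1,[(24,0),(8,0),(0,0)]⟩⟩ ⟨false,0,⟨0,[(0,0)]⟩,⟨1,[(23,0),(18,0)]⟩⟩ ⟨true,0,⟨2,[(1,0),
  (2,0),(7,0),(11,0)]⟩,⟨0,[(25,0),(14,0)]⟩⟩,.o ⟨false,0,⟨6,[(2,0),(5,2),(16,6),(9,2),(2,0)]⟩,⟨7,
  [(22,0),(0,0),(0,3),(10,1),(5,3)]⟩⟩]⟩)))) (.Q [0,-1,0,1,0,0,0,0,1,1,0,-1] (.p false [0,0,0,1] [1]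
  (⟨0,[(22,0)]⟩,⟨1,[(21,0),(8,0),(0,0)]⟩) .k 1 (⟨0,[]⟩,⟨0,[]⟩) .k .k) (.R ⟨0,false,false,true,[0,0,
  0,1],[1,-1],[0,1,0,-1,0,0,0,0,1],(⟨0,[(23,0)]⟩,⟨1,[(22,0),(8,0),(0,0)]⟩),(⟨0,[(34,0)]⟩,⟨0,[(35,
  0)]⟩),⟨1,[(1,0),(20,0)]⟩,.k,.k,(.r (-1) ⟨7,[(0,1),(4,1),(7,1),(1,1),(5,2),(1,1),(15,0)]⟩ ⟨1,[(6,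
  0),(13,0),(17,0)]⟩),(.x (-1) ⟨3,[(20,0),(0,0),(13,3),(3,1)]⟩ ⟨4,[(5,0),(0,1),(26,1),(0,4),(1,
  0)]⟩),.k,.k,⟨false,0,⟨0,[(0,0),(9,0),(12,0)]⟩,⟨1,[(20,0),(18,0)]⟩⟩,⟨true,0,⟨4,[(5,0),(0,1),(16,4),
  (9,1),(2,0)]⟩,⟨1,[(22,0),(8,0),(0,0)]⟩⟩,⟨true,0,⟨0,[(37,0)]⟩,⟨0,[(38,0)]⟩⟩,⟨false,1,⟨3,[(5,1),(14,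
  1),(2,3),(9,0),(6,0)]⟩,⟨0,[(0,0)]⟩⟩,⟨false,0,⟨0,[]⟩,⟨0,[]⟩⟩,⟨false,0,⟨0,[]⟩,⟨0,[]⟩⟩,[.o ⟨false,0,
  ⟨0,[(10,0)]⟩,⟨3,[(20,0),(0,0),(16,3),(1,1)]⟩⟩,.o ⟨false,1,⟨3,[(5,1),(14,0),(0,0),(11,0),(6,0)]⟩,
  ⟨0,[(38,0)]⟩⟩,.a ⟨true,0,⟨1,[(22,0),(8,0),(0,0)]⟩,⟨0,[(23,0)]⟩⟩ ⟨false,0,⟨0,[(0,0),(4,0),(17,0)]⟩,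
  ⟨1,[(20,0),(17,1),(1,0)]⟩⟩ ⟨true,0,⟨0,[(10,0),(12,0)]⟩,⟨1,[(22,0),(8,0),(0,0),(5,1)]⟩⟩,.o ⟨false,
  0,⟨1,[(22,0),(2,0),(2,0)]⟩,⟨1,[(23,1),(9,0),(5,0)]⟩⟩]⟩) (.Q [0,0,0,1,0,0,0,0,1,1,0,-1] (.p false
  [0,0,0,1] [1] (⟨0,[(23,0)]⟩,⟨1,[(22,0),(8,0),(0,0)]⟩) .k 1 (⟨0,[]⟩,⟨0,[]⟩) .k .k) (.R ⟨0,false,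
  false,true,[0,0,0,1],[1,-1],[0,1,-1,-1],(⟨0,[(24,0)]⟩,⟨1,[(23,0),(8,0),(0,0)]⟩),(⟨0,[(35,0)]⟩,⟨0,
  [(36,0)]⟩),⟨1,[(2,0),(20,0)]⟩,.k,.k,(.r (-1) ⟨2,[(3,0),(0,0),(11,1),(5,0),(1,0)]⟩ ⟨1,[(7,0),(13,
  0),(17,0)]⟩),(.r 0 ⟨1,[(7,0),(14,0),(16,0)]⟩ ⟨5,[(1,1),(2,1),(11,3),(4,1),(1,0),(8,0),(0,0)]⟩),.k,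
  .k,⟨false,1,⟨3,[(21,0),(0,0),(17,1)]⟩,⟨0,[]⟩⟩,⟨true,0,⟨4,[(6,0),(0,1),(16,4),(9,1),(2,0)]⟩,⟨1,
  [(23,0),(8,0),(0,0)]⟩⟩,⟨false,1,⟨5,[(1,1),(2,1),(11,3),(4,1),(1,0),(8,0),(0,0)]⟩,⟨3,[(0,0),(2,0),
  (0,0),(0,0),(3,3),(3,1),(8,0),(1,1),(14,3)]⟩⟩,⟨true,0,⟨0,[(1,0)]⟩,⟨0,[(0,0)]⟩⟩,⟨false,0,⟨0,[]⟩,⟨0,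
  []⟩⟩,⟨false,0,⟨0,[]⟩,⟨0,[]⟩⟩,[.o ⟨false,0,⟨0,[(11,0)]⟩,⟨3,[(21,0),(0,0),(16,3),(1,1)]⟩⟩,.o ⟨false,
  1,⟨3,[(6,1),(14,0),(0,0),(11,0),(6,0)]⟩,⟨0,[(39,0)]⟩⟩,.a ⟨true,0,⟨1,[(23,0),(8,0),(0,0)]⟩,⟨0,[(24,
  0)]⟩⟩ ⟨false,1,⟨5,[(14,1),(1,1),(4,0),(0,0)]⟩,⟨1,[(7,0),(31,0),(1,0)]⟩⟩ ⟨true,0,⟨0,[(11,0),(12,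
  0)]⟩,⟨1,[(23,0),(8,0),(0,0),(5,1)]⟩⟩,.o ⟨false,0,⟨1,[(23,0),(2,0),(2,0)]⟩,⟨1,[(24,1),(9,0),(5,
  0)]⟩⟩]⟩) (.R ⟨0,false,false,false,[0,0,0,1],[0,1],[1,0,1,1],(⟨0,[(24,0)]⟩,⟨1,[(23,0),(8,0),(0,
  0)]⟩),(⟨0,[(36,0)]⟩,⟨0,[(35,0)]⟩),⟨1,[(2,0),(20,0)]⟩,.k,.k,(.r (-1) ⟨2,[(3,0),(0,0),(11,1),(5,0),
  (1,0)]⟩ ⟨1,[(7,0),(13,0),(17,0)]⟩),(.r (-1) ⟨2,[(3,0),(0,0),(11,1),(5,0),(1,0)]⟩ ⟨1,[(7,0),(13,0),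
  (17,0)]⟩),.k,.k,⟨true,0,⟨0,[]⟩,⟨1,[(29,0),(0,0)]⟩⟩,⟨false,1,⟨0,[(24,0),(15,0)]⟩,⟨1,[(23,0),(2,0),
  (2,0)]⟩⟩,⟨false,0,⟨5,[(0,1),(3,1),(2,1),(1,3),(11,1),(1,0),(8,0),(0,0),(5,5)]⟩,⟨2,[(3,0),(0,0),
  (11,1),(5,0),(1,0)]⟩⟩,⟨true,0,⟨0,[(0,0),(31,0),(0,0),(5,1)]⟩,⟨0,[(3,0)]⟩⟩,⟨false,0,⟨0,[]⟩,⟨0,[]⟩⟩,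
  ⟨false,0,⟨0,[]⟩,⟨0,[]⟩⟩,[.o ⟨false,0,⟨0,[(39,0)]⟩,⟨3,[(6,1),(14,0),(0,0),(11,0),(6,0)]⟩⟩,.o
  ⟨false,1,⟨3,[(21,0),(0,0),(16,3),(1,1)]⟩,⟨0,[(11,0)]⟩⟩,.a ⟨true,0,⟨1,[(23,0),(8,0),(0,0)]⟩,⟨0,
  [(24,0)]⟩⟩ ⟨false,0,⟨1,[(7,0),(31,0),(1,0)]⟩,⟨5,[(14,1),(1,1),(4,0),(0,0)]⟩⟩ ⟨true,0,⟨0,[(24,0),
  (14,0)]⟩,⟨1,[(1,0),(1,0),(19,0)]⟩⟩,.o ⟨false,0,⟨1,[(23,0),(2,0),(2,0)]⟩,⟨1,[(24,1),(9,0),(5,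
  0)]⟩⟩]⟩))))))))

theorem ok72 : chk (cU (-1) false 2) t72 r39 = true := by decide +kernel

noncomputable def t77 : Tre :=
  (.R ⟨0,false,false,true,[0,0,1],[1,-1,1],[0,1,-1,-1,0,0,0,1],(⟨0,[(26,0)]⟩,⟨0,[(25,0)]⟩),(⟨0,[(26,
  0),(1,0)]⟩,⟨0,[(2,0)]⟩),⟨0,[(2,0)]⟩,.k,.k,.k,.k,.k,.k,⟨false,1,⟨3,[(14,0),(0,0),(17,1)]⟩,⟨0,[]⟩⟩,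
  ⟨true,0,⟨1,[(1,0),(17,0)]⟩,⟨0,[(25,0),(0,0)]⟩⟩,⟨false,1,⟨5,[(7,1),(1,1),(4,0),(0,0)]⟩,⟨0,[(30,0),
  (1,0)]⟩⟩,⟨true,0,⟨0,[(4,0)]⟩,⟨0,[(0,0),(5,0)]⟩⟩,⟨false,0,⟨0,[]⟩,⟨0,[]⟩⟩,⟨false,0,⟨0,[]⟩,⟨0,[]⟩⟩,
  [.o ⟨false,0,⟨0,[(4,0),(1,0)]⟩,⟨1,[(0,1),(26,0),(6,0)]⟩⟩,.a ⟨true,0,⟨0,[(3,0)]⟩,⟨0,[(0,0)]⟩⟩
  ⟨false,1,⟨1,[(7,0),(16,0),(8,0)]⟩,⟨0,[(0,0),(0,0)]⟩⟩ ⟨true,0,⟨0,[(3,0),(7,0)]⟩,⟨0,[(0,0),(21,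
  0)]⟩⟩,.o ⟨false,1,⟨3,[(6,1),(5,1),(1,0),(0,0),(6,1)]⟩,⟨0,[(11,0)]⟩⟩,.o ⟨false,0,⟨0,[(22,0)]⟩,⟨7,
  [(13,3),(0,0),(0,0),(11,1),(5,3)]⟩⟩]⟩)

theorem ok77 : chk (cU (-1) false 2) t77 l47 = true := by decide +kernel

noncomputable def t78 : Tre :=
  (.K ⟨2,[0,1,-1],0,0,(⟨0,[(4,0)]⟩,⟨0,[(28,0),(1,0)]⟩),.k,.k,(.r 0 ⟨0,[(23,0),(0,0),(7,0),(1,1)]⟩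
  ⟨0,[(9,0)]⟩),(.x (-1) ⟨3,[(4,3),(10,3),(0,0),(0,0),(9,3),(7,1)]⟩ ⟨0,[(1,0)]⟩),.k,[⟨0,[(0,0)]⟩,⟨1,
  [(15,0),(11,0),(0,0)]⟩,⟨0,[(12,0)]⟩,⟨0,[(23,0),(10,0)]⟩]⟩)

theorem ok78 : chk (cU (-1) false 2) t78 l49 = true := by decide +kernel

noncomputable def t86 : Tre :=
  (.I [0,0,0,0,0,0,0,0,-1] (.Q [0,0,0,0,0,-1,0,0,0,1,0,-1] (.p false [0,0,0,1] [1] (⟨0,[(26,0)]⟩,⟨1,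
  [(25,0),(8,0),(0,0)]⟩) .k 1 (⟨0,[]⟩,⟨0,[]⟩) .k .k) (.R ⟨1,false,false,false,[1,0,0,-1],[1,-1],[0,
  0,0,0,0,0,0,0,-1],(⟨1,[(26,0),(8,0),(0,0)]⟩,⟨0,[(27,0)]⟩),(⟨0,[(38,0)]⟩,⟨0,[(39,0)]⟩),⟨0,[(0,0)]⟩,
  .k,.k,(.r (-1) ⟨2,[(1,0),(15,0),(1,0),(4,0)]⟩ ⟨1,[(2,0),(22,0),(16,0)]⟩),(.r 0 ⟨1,[(2,0),(21,0),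
  (17,0)]⟩ ⟨3,[(5,1),(19,0),(18,0)]⟩),.k,.k,⟨false,0,⟨0,[(1,0),(40,0)]⟩,⟨3,[(5,1),(19,0),(18,0)]⟩⟩,
  ⟨true,0,⟨1,[(26,0),(2,0),(2,0)]⟩,⟨0,[(27,0)]⟩⟩,⟨false,1,⟨3,[(24,0),(0,0),(18,1)]⟩,⟨0,[]⟩⟩,⟨false,
  1,⟨3,[(3,0),(1,1),(4,0),(10,0),(3,0),(0,1),(13,2),(3,0)]⟩,⟨0,[(1,0),(25,0),(14,0)]⟩⟩,⟨true,0,⟨0,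
  [(42,0)]⟩,⟨0,[(41,0)]⟩⟩,⟨false,1,⟨15,[(5,1),(0,3),(3,3),(10,3),(3,6),(0,7),(17,6)]⟩,⟨0,[(1,0),(25,
  0)]⟩⟩,[.o ⟨false,1,⟨1,[(37,0),(3,1),(2,0)]⟩,⟨0,[(42,0)]⟩⟩,.o ⟨false,1,⟨0,[(14,0),(29,0)]⟩,⟨2,[(7,
  0),(20,0),(1,1),(11,0)]⟩⟩,.a ⟨true,0,⟨0,[(27,0)]⟩,⟨1,[(26,0),(8,0),(0,0)]⟩⟩ ⟨true,0,⟨0,[(1,0)]⟩,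
  ⟨0,[(2,0),(2,0),(36,0)]⟩⟩ ⟨false,1,⟨1,[(14,0),(11,0),(14,0),(2,1)]⟩,⟨0,[(27,0),(14,0)]⟩⟩,.o
  ⟨false,0,⟨1,[(11,0),(15,1),(1,0)]⟩,⟨7,[(24,0),(0,0),(0,3),(10,1),(5,3)]⟩⟩]⟩) (.R ⟨0,false,false,
  false,[1,0,0,-1],[1,-1],[1,0,0,0,0,0,0,0,-1],(⟨1,[(26,0),(8,0),(0,0)]⟩,⟨0,[(27,0)]⟩),(⟨0,[(38,
  0)]⟩,⟨0,[(39,0)]⟩),⟨0,[(0,0)]⟩,.k,.k,(.r (-1) ⟨2,[(1,0),(15,0),(1,0),(4,0)]⟩ ⟨1,[(2,0),(22,0),(16,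
  0)]⟩),(.r 0 ⟨1,[(2,0),(21,0),(17,0)]⟩ ⟨3,[(5,1),(19,0),(18,0)]⟩),.k,.k,⟨false,0,⟨0,[(1,0),(40,
  0)]⟩,⟨3,[(5,1),(19,0),(18,0)]⟩⟩,⟨true,0,⟨1,[(26,0),(2,0),(2,0)]⟩,⟨0,[(27,0)]⟩⟩,⟨true,0,⟨0,[]⟩,⟨0,
  [(46,0)]⟩⟩,⟨false,1,⟨3,[(3,0),(1,1),(4,0),(10,0),(3,0),(0,1),(13,2),(3,0)]⟩,⟨0,[(1,0),(25,0),(14,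
  0)]⟩⟩,⟨false,0,⟨0,[]⟩,⟨0,[]⟩⟩,⟨false,0,⟨0,[]⟩,⟨0,[]⟩⟩,[.o ⟨false,1,⟨1,[(37,0),(3,1),(2,0)]⟩,⟨0,
  [(42,0)]⟩⟩,.o ⟨false,1,⟨0,[(14,0),(29,0)]⟩,⟨2,[(7,0),(20,0),(1,1),(11,0)]⟩⟩,.a ⟨true,0,⟨0,[(27,
  0)]⟩,⟨1,[(26,0),(8,0),(0,0)]⟩⟩ ⟨true,0,⟨0,[(1,0)]⟩,⟨0,[(2,0),(2,0),(36,0)]⟩⟩ ⟨false,1,⟨1,[(14,0),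
  (11,0),(14,0),(2,1)]⟩,⟨0,[(27,0),(14,0)]⟩⟩,.o ⟨false,0,⟨1,[(11,0),(15,1),(1,0)]⟩,⟨7,[(24,0),(0,0),
  (0,3),(10,1),(5,3)]⟩⟩]⟩)) (.Q [0,1,0,-1,0,0,0,0,-1,-1,0,1] (.p true [0,0,0,1] [1] (⟨0,[(26,0)]⟩,
  ⟨1,[(25,0),(8,0),(0,0)]⟩) .k 1 (⟨0,[]⟩,⟨0,[]⟩) .k .k) (.Q [0,0,0,0,0,1,0,0,0,0,0,-1] (.p false [0,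
  0,0,1] [] (⟨0,[(27,0)]⟩,⟨1,[(26,0),(8,0),(0,0)]⟩) .k 0 (⟨0,[]⟩,⟨0,[]⟩) .k .k) (.R ⟨0,false,false,
  true,[0,0,0,1],[1,-1],[1,1,0,0,0,0,0,0,1],(⟨0,[(28,0)]⟩,⟨1,[(27,0),(8,0),(0,0)]⟩),(⟨0,[(39,0)]⟩,
  ⟨0,[(40,0)]⟩),⟨0,[(0,0)]⟩,.k,.k,(.r (-1) ⟨3,[(6,1),(19,0),(18,0)]⟩ ⟨1,[(3,0),(21,0),(17,0)]⟩),(.r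
  0 ⟨1,[(3,0),(22,0),(16,0)]⟩ ⟨89,[(1,15),(3,15),(2,3),(1,1),(7,17),(1,29),(4,28),(1,7),(8,3),(3,1),
  (3,12)]⟩),.k,.k,⟨false,0,⟨0,[(2,0),(40,0)]⟩,⟨89,[(1,15),(3,15),(2,3),(1,1),(7,17),(1,29),(4,28),
  (1,7),(8,3),(3,1),(3,12)]⟩⟩,⟨true,0,⟨1,[(12,0),(15,1),(1,0)]⟩,⟨1,[(27,0),(8,0),(0,0)]⟩⟩,⟨false,0,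
  ⟨0,[]⟩,⟨3,[(25,0),(0,0),(18,1)]⟩⟩,⟨true,0,⟨0,[(1,0)]⟩,⟨1,[(2,1),(5,0),(8,0),(9,0)]⟩⟩,⟨false,0,⟨0,
  []⟩,⟨0,[]⟩⟩,⟨false,0,⟨0,[]⟩,⟨0,[]⟩⟩,[.o ⟨false,0,⟨0,[(15,0)]⟩,⟨7,[(8,3),(8,3),(7,0),(0,0),(11,1),
  (6,3)]⟩⟩,.o ⟨false,1,⟨1,[(38,0),(3,1),(2,0)]⟩,⟨0,[(43,0)]⟩⟩,.a ⟨true,0,⟨1,[(27,0),(8,0),(0,0)]⟩,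
  ⟨0,[(28,0)]⟩⟩ ⟨false,0,⟨0,[(2,0)]⟩,⟨1,[(25,0),(19,0)]⟩⟩ ⟨true,0,⟨0,[(15,0),(12,0)]⟩,⟨1,[(8,0),(8,
  0),(9,0)]⟩⟩,.o ⟨false,0,⟨1,[(27,0),(2,0),(2,0)]⟩,⟨1,[(28,1),(9,0),(5,0)]⟩⟩]⟩) (.R ⟨1,false,false,
  true,[1,0,0,-1],[0,1],[0,1,0,0,0,0,0,0,-1],(⟨1,[(27,0),(8,0),(0,0)]⟩,⟨0,[(28,0)]⟩),(⟨0,[(40,0)]⟩,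
  ⟨0,[(39,0)]⟩),⟨0,[(0,0),(26,0)]⟩,.k,.k,(.r (-1) ⟨89,[(1,15),(3,15),(2,3),(1,1),(7,17),(1,29),(4,
  28),(1,7),(8,3),(3,1),(3,12)]⟩ ⟨1,[(3,0),(22,0),(16,0)]⟩),(.r (-1) ⟨89,[(1,15),(3,15),(2,3),(1,1),
  (7,17),(1,29),(4,28),(1,7),(8,3),(3,1),(3,12)]⟩ ⟨1,[(3,0),(22,0),(16,0)]⟩),(.r (-2) ⟨11,[(18,7),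
  (1,7),(4,6),(0,0)]⟩ ⟨0,[(2,0),(0,0),(39,0)]⟩),.k,⟨true,1,⟨89,[(1,15),(3,15),(2,3),(1,1),(7,17),(1,
  29),(4,28),(1,7),(8,3),(3,1),(3,12)]⟩,⟨0,[(2,0),(0,0)]⟩⟩,⟨false,1,⟨1,[(27,0),(8,0),(0,0),(6,1)]⟩,
  ⟨1,[(12,0),(15,1),(1,0)]⟩⟩,⟨true,0,⟨0,[(47,0)]⟩,⟨0,[]⟩⟩,⟨false,0,⟨1,[(2,1),(5,0),(8,0),(9,0)]⟩,⟨0,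
  [(1,0),(43,0)]⟩⟩,⟨false,0,⟨0,[(43,0)]⟩,⟨0,[(42,0),(2,0)]⟩⟩,⟨false,0,⟨1,[(2,1),(5,0),(8,0),(9,0),
  (15,1)]⟩,⟨7,[(1,5),(3,2),(0,0),(4,0),(8,3),(1,0),(5,1),(12,5),(3,2)]⟩⟩,[.o ⟨false,0,⟨2,[(8,0),(20,
  0),(1,1),(11,0)]⟩,⟨0,[(15,0),(29,0)]⟩⟩,.o ⟨false,0,⟨0,[(43,0)]⟩,⟨1,[(38,0),(3,1),(2,0)]⟩⟩,.a
  ⟨true,0,⟨0,[(28,0)]⟩,⟨1,[(27,0),(8,0),(0,0)]⟩⟩ ⟨true,0,⟨1,[(1,1),(6,0),(8,0),(9,0)]⟩,⟨0,[(2,0)]⟩⟩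
  ⟨false,0,⟨1,[(8,0),(8,0),(9,0)]⟩,⟨0,[(15,0),(12,0),(16,0)]⟩⟩,.o ⟨false,0,⟨1,[(12,0),(15,1),(1,
  0)]⟩,⟨7,[(25,0),(0,0),(0,3),(10,1),(5,3)]⟩⟩]⟩)) (.Q [0,0,0,0,0,-1,0,0,0,1,0,-1] (.p false [0,0,0,
  1] [1] (⟨0,[(27,0)]⟩,⟨1,[(26,0),(8,0),(0,0)]⟩) .k 1 (⟨0,[]⟩,⟨0,[]⟩) .k .k) (.R ⟨1,false,false,
  false,[1,0,0,-1],[0,1],[0,0,0,0,0,0,0,0,-1],(⟨1,[(27,0),(8,0),(0,0)]⟩,⟨0,[(28,0)]⟩),(⟨0,[(40,0)]⟩,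
  ⟨0,[(39,0)]⟩),⟨0,[(0,0)]⟩,.k,.k,(.r (-1) ⟨2,[(5,0),(14,0),(4,0),(16,0),(1,0)]⟩ ⟨1,[(3,0),(22,0),
  (16,0)]⟩),(.r (-1) ⟨2,[(5,0),(14,0),(4,0),(16,0),(1,0)]⟩ ⟨1,[(3,0),(22,0),(16,0)]⟩),(.r (-2) ⟨11,
  [(18,7),(1,7),(4,6),(0,0)]⟩ ⟨0,[(2,0),(0,0),(39,0)]⟩),.k,⟨true,1,⟨2,[(5,0),(14,0),(4,0),(16,0),(1,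
  0)]⟩,⟨0,[(2,0),(0,0)]⟩⟩,⟨false,1,⟨1,[(27,0),(8,0),(0,0),(6,1)]⟩,⟨1,[(12,0),(15,1),(1,0)]⟩⟩,⟨false,
  1,⟨3,[(25,0),(0,0),(18,1)]⟩,⟨0,[]⟩⟩,⟨false,0,⟨0,[(1,0)]⟩,⟨11,[(5,1),(6,3),(2,1),(2,1),(1,3),(4,4),
  (2,11),(1,3),(7,0)]⟩⟩,⟨true,0,⟨0,[(43,0)]⟩,⟨0,[(42,0)]⟩⟩,⟨false,0,⟨0,[(1,0),(41,0)]⟩,⟨8,[(5,4),(6,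
  3),(2,0),(2,0),(1,5),(4,1),(2,8),(1,3),(11,3)]⟩⟩,[.o ⟨false,0,⟨0,[(43,0)]⟩,⟨1,[(38,0),(3,1),(2,
  0)]⟩⟩,.o ⟨false,1,⟨7,[(8,3),(8,3),(7,0),(0,0),(11,1),(6,3)]⟩,⟨0,[(15,0)]⟩⟩,.a ⟨true,0,⟨0,[(28,
  0)]⟩,⟨1,[(27,0),(8,0),(0,0)]⟩⟩ ⟨false,1,⟨1,[(25,0),(19,0)]⟩,⟨0,[(2,0)]⟩⟩ ⟨true,0,⟨1,[(8,0),(8,0),
  (9,0)]⟩,⟨0,[(15,0),(12,0)]⟩⟩,.o ⟨false,0,⟨1,[(12,0),(15,1),(1,0)]⟩,⟨7,[(25,0),(0,0),(0,3),(10,1),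
  (5,3)]⟩⟩]⟩) (.R ⟨0,false,false,false,[1,0,0,-1],[0,1],[1,0,0,0,0,0,0,0,-1],(⟨1,[(27,0),(8,0),(0,
  0)]⟩,⟨0,[(28,0)]⟩),(⟨0,[(40,0)]⟩,⟨0,[(39,0)]⟩),⟨0,[(0,0)]⟩,.k,.k,(.r (-1) ⟨2,[(5,0),(14,0),(4,0),
  (16,0),(1,0)]⟩ ⟨1,[(3,0),(22,0),(16,0)]⟩),(.r (-1) ⟨2,[(5,0),(14,0),(4,0),(16,0),(1,0)]⟩ ⟨1,[(3,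
  0),(22,0),(16,0)]⟩),.k,.k,⟨true,1,⟨2,[(5,0),(14,0),(4,0),(16,0),(1,0)]⟩,⟨0,[(2,0),(0,0)]⟩⟩,⟨false,
  1,⟨1,[(27,0),(8,0),(0,0),(6,1)]⟩,⟨1,[(12,0),(15,1),(1,0)]⟩⟩,⟨true,0,⟨0,[]⟩,⟨0,[(47,0)]⟩⟩,⟨false,0,
  ⟨0,[(1,0)]⟩,⟨11,[(5,1),(6,3),(2,1),(2,1),(1,3),(4,4),(2,11),(1,3),(7,0)]⟩⟩,⟨false,0,⟨0,[]⟩,⟨0,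
  []⟩⟩,⟨false,0,⟨0,[]⟩,⟨0,[]⟩⟩,[.o ⟨false,0,⟨0,[(43,0)]⟩,⟨1,[(38,0),(3,1),(2,0)]⟩⟩,.o ⟨false,1,⟨7,
  [(8,3),(8,3),(7,0),(0,0),(11,1),(6,3)]⟩,⟨0,[(15,0)]⟩⟩,.a ⟨true,0,⟨0,[(28,0)]⟩,⟨1,[(27,0),(8,0),(0,
  0)]⟩⟩ ⟨false,1,⟨1,[(25,0),(19,0)]⟩,⟨0,[(0,8),(0,0),(7,2),(0,2),(0,0),(7,5),(7,3),(1,0)]⟩⟩ ⟨true,0,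
  ⟨1,[(8,0),(8,0),(9,0)]⟩,⟨0,[(15,0),(12,0)]⟩⟩,.o ⟨false,0,⟨1,[(12,0),(15,1),(1,0)]⟩,⟨7,[(25,0),(0,
  0),(0,3),(10,1),(5,3)]⟩⟩]⟩))))

theorem ok86 : chk (cU (-1) false 2) t86 r55 = true := by decide +kernel

noncomputable def t116 : Tre :=
  (.R ⟨2,true,false,false,[0,1],[1,-1],[1,0,1],(⟨0,[]⟩,⟨0,[]⟩),(⟨0,[(22,0)]⟩,⟨0,[(23,0)]⟩),⟨0,[]⟩,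
  .k,.k,.k,(.r 1 ⟨4,[(0,3),(2,1),(8,1),(3,1),(4,0),(2,5)]⟩ ⟨0,[(25,1),(1,0),(0,0)]⟩),.k,.k,⟨true,
  (-1),⟨1,[(0,0),(1,0),(0,0),(12,0),(7,1)]⟩,⟨1,[(25,1),(1,0),(0,0)]⟩⟩,⟨false,0,⟨2,[(2,0),(0,0),(12,
  0),(4,0),(2,0)]⟩,⟨0,[(19,0),(0,0),(6,0)]⟩⟩,⟨false,1,⟨0,[(25,0),(2,0)]⟩,⟨0,[(26,0)]⟩⟩,⟨true,1,⟨0,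
  [(1,0),(23,0),(2,0)]⟩,⟨0,[(0,0)]⟩⟩,⟨true,0,⟨0,[]⟩,⟨0,[(30,0)]⟩⟩,⟨false,1,⟨0,[(1,0),(26,0)]⟩,⟨7,
  [(0,3),(7,0),(0,0),(9,3),(0,3),(7,1)]⟩⟩,[]⟩)

theorem ok116 : chk (cU (-1) false 2) t116 l62 = true := by decide +kernel

noncomputable def t117 : Tre :=
  (.Q [0,-1,0,1,0,0,1,1,0,2,-1] (.p false [-1,1,1] [1] (⟨0,[(0,0)]⟩,⟨0,[(20,0),(2,0)]⟩) .k 1 (⟨0,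
  []⟩,⟨0,[]⟩) .k .k) (.R ⟨0,false,false,true,[1,0,-1],[2,-1,-1],[0,1,-1,-1,0,0,0,-1],(⟨0,[(21,0)]⟩,
  ⟨0,[(22,0)]⟩),(⟨0,[(21,0),(2,0)]⟩,⟨0,[(1,0)]⟩),⟨0,[(1,0)]⟩,.k,.k,.k,.k,.k,.k,⟨false,1,⟨3,[(10,0),
  (0,0),(17,1)]⟩,⟨0,[]⟩⟩,⟨true,0,⟨2,[(4,0),(0,0),(12,0),(4,0),(2,0)]⟩,⟨0,[(21,0),(0,0)]⟩⟩,⟨false,1,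
  ⟨19,[(0,3),(1,7),(7,0),(0,0),(5,3),(9,7),(1,9)]⟩,⟨0,[(26,0),(1,0)]⟩⟩,⟨true,0,⟨0,[(3,0)]⟩,⟨1,[(0,
  0),(16,0),(10,0)]⟩⟩,⟨false,0,⟨0,[]⟩,⟨0,[]⟩⟩,⟨false,0,⟨0,[]⟩,⟨0,[]⟩⟩,[.a ⟨true,0,⟨0,[(4,0)]⟩,⟨0,
  [(0,0)]⟩⟩ ⟨true,1,⟨0,[(8,0),(18,0)]⟩,⟨0,[(5,0),(20,0)]⟩⟩ ⟨false,1,⟨0,[(3,0),(4,0)]⟩,⟨5,[(0,3),(4,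
  1),(3,1),(19,0),(0,0)]⟩⟩,.o ⟨false,1,⟨3,[(2,1),(11,3),(8,0),(6,0)]⟩,⟨1,[(0,0),(15,0),(11,0)]⟩⟩,.o
  ⟨false,0,⟨0,[(7,0)]⟩,⟨39,[(0,7),(1,3),(5,19),(1,4),(0,4),(4,11),(1,19),(4,5)]⟩⟩,.o ⟨false,0,⟨0,
  [(15,0)]⟩,⟨0,[(18,0),(10,0)]⟩⟩]⟩) (.I [0,1,-1,-1,0,0,0,1] (.Q [0,-1,0,2,0,0,0,0,0,1] (.pp false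
  [-1,1]) (.Q [0,0,0,0,0,0,1,1,0,0,-1] (.p false [0,0,1] [] (⟨0,[(24,0)]⟩,⟨0,[(23,0)]⟩) .k 0 (⟨0,
  []⟩,⟨0,[]⟩) .k .k) (.R ⟨2,true,false,true,[0,1],[0,0,1],[1,0,1],(⟨0,[]⟩,⟨0,[]⟩),(⟨0,[(25,0)]⟩,⟨0,
  [(24,0)]⟩),⟨0,[]⟩,.k,.k,.k,.k,.k,.k,⟨false,1,⟨0,[(11,0),(17,0)]⟩,⟨1,[(2,0),(5,0),(23,0),(2,0)]⟩⟩,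
  ⟨true,0,⟨0,[(21,0)]⟩,⟨1,[(12,0),(11,0),(0,0)]⟩⟩,⟨false,1,⟨0,[(30,0),(2,0)]⟩,⟨0,[(31,0)]⟩⟩,⟨true,0,
  ⟨0,[(9,0)]⟩,⟨0,[(1,0),(5,0)]⟩⟩,⟨true,0,⟨0,[]⟩,⟨0,[(35,0)]⟩⟩,⟨false,0,⟨0,[(0,0)]⟩,⟨0,[(20,0),(12,
  0)]⟩⟩,[]⟩) (.R ⟨2,true,false,true,[0,1],[1,-1],[1,1,1],(⟨0,[]⟩,⟨0,[]⟩),(⟨0,[(27,0)]⟩,⟨0,[(28,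
  0)]⟩),⟨0,[]⟩,.k,.k,.k,(.r 1 ⟨1,[(0,0),(0,0),(6,1),(8,0),(3,1)]⟩ ⟨0,[(30,1),(1,0),(0,0)]⟩),.k,.k,
  ⟨true,(-1),⟨0,[(0,0),(7,0),(12,0)]⟩,⟨1,[(30,1),(1,0),(0,0)]⟩⟩,⟨false,0,⟨4,[(3,0),(4,0),(9,0),(2,
  1),(4,0),(2,0)]⟩,⟨0,[(24,0),(0,0),(6,0)]⟩⟩,⟨true,0,⟨0,[(30,0)]⟩,⟨0,[(31,0)]⟩⟩,⟨false,1,⟨11,[(5,7),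
  (7,0),(0,0),(11,1),(3,7)]⟩,⟨0,[(1,0)]⟩⟩,⟨false,0,⟨0,[]⟩,⟨3,[(13,0),(0,0),(18,1)]⟩⟩,⟨true,0,⟨0,[(6,
  0)]⟩,⟨0,[(1,0),(28,0)]⟩⟩,[]⟩)) (.Q [0,0,1,0,-1,0,-2,0,0,-1,2] (.p true [0,0,1] [1,0,-1] (⟨0,[(24,
  0)]⟩,⟨0,[(23,0)]⟩) .k 2 (⟨0,[(23,0)]⟩,⟨0,[(24,0)]⟩) .k (.x (-1) ⟨0,[(20,1),(3,1),(6,0)]⟩ ⟨0,[(9,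
  1),(13,1)]⟩)) (.I [0,0,-1,-1,1,0,0,0,1] (.I [1,-1,1,2,-1,0,0,1,-1] (.I [0,-1,0,1,0,0,0,0,-1] (.Q
  [0,-1,0,0,1,0,0,0,1,0,0,-1] (.p false [0,0,0,1] [] (⟨0,[(19,0)]⟩,⟨1,[(18,0),(8,0),(0,0)]⟩) .k 0
  (⟨0,[]⟩,⟨0,[]⟩) .k .k) (.Q [0,0,0,0,0,1,0,0,0,0,0,-1] (.p false [0,0,0,1] [] (⟨0,[(20,0)]⟩,⟨1,
  [(19,0),(8,0),(0,0)]⟩) .k 0 (⟨0,[]⟩,⟨0,[]⟩) .k .k) (.R ⟨0,false,false,false,[0,0,0,1],[0,1],[1,0,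
  0,0,0,0,0,0,1],(⟨0,[(21,0)]⟩,⟨1,[(20,0),(8,0),(0,0)]⟩),(⟨0,[(33,0)]⟩,⟨0,[(32,0)]⟩),⟨0,[(0,0)]⟩,.k,
  .k,(.r (-1) ⟨0,[(4,0)]⟩ ⟨7,[(3,3),(14,2),(0,0),(5,3),(0,3)]⟩),(.r (-1) ⟨0,[(4,0)]⟩ ⟨7,[(3,3),(14,
  2),(0,0),(5,3),(0,3)]⟩),.k,.k,⟨true,1,⟨0,[(4,0)]⟩,⟨0,[(3,0),(8,0),(13,0),(2,0),(0,0)]⟩⟩,⟨false,1,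
  ⟨0,[(21,0),(15,0)]⟩,⟨1,[(20,0),(2,0),(2,0)]⟩⟩,⟨true,0,⟨0,[]⟩,⟨0,[(40,0)]⟩⟩,⟨false,0,⟨0,[(2,0),(18,
  0)]⟩,⟨7,[(6,1),(3,1),(7,0),(0,4),(0,3)]⟩⟩,⟨false,0,⟨0,[]⟩,⟨0,[]⟩⟩,⟨false,0,⟨0,[]⟩,⟨0,[]⟩⟩,[.o
  ⟨false,0,⟨0,[(36,0)]⟩,⟨3,[(6,0),(3,0),(7,0),(0,0),(11,0)]⟩⟩,.o ⟨false,1,⟨3,[(3,1),(12,1),(1,0),(0,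
  1),(18,0)]⟩,⟨0,[(11,0)]⟩⟩,.a ⟨true,0,⟨1,[(20,0),(8,0),(0,0)]⟩,⟨0,[(21,0)]⟩⟩ ⟨false,1,⟨1,[(19,0),
  (18,0)]⟩,⟨0,[(2,0),(32,0)]⟩⟩ ⟨true,0,⟨0,[(21,0),(14,0)]⟩,⟨1,[(6,0),(13,0),(19,0)]⟩⟩,.o ⟨false,0,
  ⟨1,[(20,0),(2,0),(2,0)]⟩,⟨1,[(21,1),(9,0),(5,0)]⟩⟩]⟩) (.R ⟨1,false,false,false,[0,0,0,1],[0,1],[0,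
  0,0,0,0,0,0,0,1],(⟨0,[(21,0)]⟩,⟨1,[(20,0),(8,0),(0,0)]⟩),(⟨0,[(33,0)]⟩,⟨0,[(32,0)]⟩),⟨0,[(0,0)]⟩,
  .k,.k,(.r (-1) ⟨0,[(4,0)]⟩ ⟨7,[(3,3),(14,2),(0,0),(5,3),(0,3)]⟩),(.r (-1) ⟨0,[(4,0)]⟩ ⟨7,[(3,3),
  (14,2),(0,0),(5,3),(0,3)]⟩),(.r (-2) ⟨7,[(4,9),(5,1),(7,0),(10,1),(0,1),(4,1),(1,2)]⟩ ⟨0,[(3,0),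
  (21,0),(0,0)]⟩),.k,⟨true,1,⟨0,[(4,0)]⟩,⟨0,[(3,0),(8,0),(13,0),(2,0),(0,0)]⟩⟩,⟨false,1,⟨0,[(21,0),
  (15,0)]⟩,⟨1,[(20,0),(2,0),(2,0)]⟩⟩,⟨false,1,⟨3,[(18,0),(0,0),(18,1)]⟩,⟨0,[]⟩⟩,⟨false,0,⟨0,[(2,0),
  (18,0)]⟩,⟨7,[(6,1),(3,1),(7,0),(0,4),(0,3)]⟩⟩,⟨true,0,⟨0,[(36,0)]⟩,⟨0,[(35,0)]⟩⟩,⟨false,0,⟨0,[(3,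
  0),(12,0),(4,0)]⟩,⟨3,[(4,1),(1,0),(3,0),(8,0),(0,1),(13,1),(0,1)]⟩⟩,[.o ⟨false,0,⟨0,[(36,0)]⟩,⟨3,
  [(6,0),(3,0),(7,0),(0,0),(11,0)]⟩⟩,.o ⟨false,1,⟨3,[(3,1),(12,1),(1,0),(0,1),(18,0)]⟩,⟨0,[(11,
  0)]⟩⟩,.a ⟨true,0,⟨1,[(20,0),(8,0),(0,0)]⟩,⟨0,[(21,0)]⟩⟩ ⟨false,1,⟨1,[(19,0),(18,0)]⟩,⟨0,[(2,0),
  (32,0)]⟩⟩ ⟨true,0,⟨0,[(21,0),(14,0)]⟩,⟨1,[(6,0),(13,0),(19,0)]⟩⟩,.o ⟨false,0,⟨1,[(20,0),(2,0),(2,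
  0)]⟩,⟨1,[(21,1),(9,0),(5,0)]⟩⟩]⟩)) (.K ⟨1,[0,0,0,1],0,1,(⟨0,[(20,0)]⟩,⟨1,[(19,0),(8,0),(0,0)]⟩),
  .k,(.r (-1) ⟨0,[(3,0)]⟩ ⟨7,[(2,3),(14,2),(0,0),(5,3),(0,3)]⟩),(.x (-1) ⟨3,[(17,0),(0,0),(13,3),(3,
  1)]⟩ ⟨2,[(4,0),(20,1),(4,0),(0,2)]⟩),.k,.k,[⟨1,[(20,1),(4,0),(0,0)]⟩,⟨1,[(19,0),(2,0),(2,0)]⟩,⟨0,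
  [(0,0)]⟩,⟨1,[(18,0),(0,0),(8,0),(0,0),(7,0)]⟩]⟩)) (.Q [0,-1,0,1,0,0,0,0,-1,0,0,1] (.p true [0,0,0,
  1] [] (⟨0,[(19,0)]⟩,⟨1,[(18,0),(8,0),(0,0)]⟩) .k 0 (⟨0,[]⟩,⟨0,[]⟩) .k .k) (.Q [0,0,0,0,0,1,0,0,0,
  0,0,-1] (.p false [0,0,0,1] [] (⟨0,[(20,0)]⟩,⟨1,[(19,0),(8,0),(0,0)]⟩) .k 0 (⟨0,[]⟩,⟨0,[]⟩) .k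
  .k) (.R ⟨0,false,false,false,[0,0,0,1],[0,1],[1,0,0,0,0,0,0,0,1],(⟨0,[(21,0)]⟩,⟨1,[(20,0),(8,0),
  (0,0)]⟩),(⟨0,[(33,0)]⟩,⟨0,[(32,0)]⟩),⟨0,[(0,0)]⟩,.k,.k,(.r (-1) ⟨0,[(4,0)]⟩ ⟨7,[(3,3),(14,2),(0,
  0),(5,3),(0,3)]⟩),(.r (-1) ⟨0,[(4,0)]⟩ ⟨7,[(3,3),(14,2),(0,0),(5,3),(0,3)]⟩),.k,.k,⟨true,1,⟨0,[(4,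
  0)]⟩,⟨0,[(3,0),(8,0),(13,0),(2,0),(0,0)]⟩⟩,⟨false,1,⟨0,[(21,0),(15,0)]⟩,⟨1,[(20,0),(2,0),(2,0)]⟩⟩,
  ⟨true,0,⟨0,[]⟩,⟨0,[(40,0)]⟩⟩,⟨false,0,⟨0,[(1,0)]⟩,⟨7,[(6,1),(3,1),(7,0),(0,4),(0,3)]⟩⟩,⟨false,0,
  ⟨0,[]⟩,⟨0,[]⟩⟩,⟨false,0,⟨0,[]⟩,⟨0,[]⟩⟩,[.o ⟨false,0,⟨0,[(36,0)]⟩,⟨3,[(6,0),(3,0),(7,0),(0,0),(11,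
  0)]⟩⟩,.o ⟨false,1,⟨3,[(3,1),(12,1),(1,0),(0,1),(18,0)]⟩,⟨0,[(11,0)]⟩⟩,.a ⟨true,0,⟨1,[(20,0),(8,0),
  (0,0)]⟩,⟨0,[(21,0)]⟩⟩ ⟨false,1,⟨1,[(19,0),(18,0)]⟩,⟨5,[(1,5),(4,0),(1,0),(11,2),(3,0),(10,2)]⟩⟩
  ⟨true,0,⟨0,[(21,0),(14,0)]⟩,⟨1,[(6,0),(13,0),(19,0)]⟩⟩,.o ⟨false,0,⟨1,[(20,0),(2,0),(2,0)]⟩,⟨1,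
  [(21,1),(9,0),(5,0)]⟩⟩]⟩) (.R ⟨1,false,false,false,[0,0,0,1],[0,1],[0,0,0,0,0,0,0,0,1],(⟨0,[(21,
  0)]⟩,⟨1,[(20,0),(8,0),(0,0)]⟩),(⟨0,[(33,0)]⟩,⟨0,[(32,0)]⟩),⟨0,[(0,0)]⟩,.k,.k,(.r (-1) ⟨0,[(4,0)]⟩
  ⟨7,[(3,3),(14,2),(0,0),(5,3),(0,3)]⟩),(.r (-1) ⟨0,[(4,0)]⟩ ⟨7,[(3,3),(14,2),(0,0),(5,3),(0,3)]⟩),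
  (.r (-2) ⟨7,[(4,9),(5,1),(7,0),(10,1),(0,1),(4,1),(1,2)]⟩ ⟨0,[(3,0),(21,0),(0,0)]⟩),.k,⟨true,1,⟨0,
  [(4,0)]⟩,⟨0,[(3,0),(8,0),(13,0),(2,0),(0,0)]⟩⟩,⟨false,1,⟨0,[(21,0),(15,0)]⟩,⟨1,[(20,0),(2,0),(2,
  0)]⟩⟩,⟨false,1,⟨3,[(18,0),(0,0),(18,1)]⟩,⟨0,[]⟩⟩,⟨false,0,⟨0,[(1,0)]⟩,⟨7,[(6,1),(3,1),(7,0),(0,4),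
  (0,3)]⟩⟩,⟨true,0,⟨0,[(36,0)]⟩,⟨0,[(35,0)]⟩⟩,⟨false,0,⟨0,[(1,0),(34,0)]⟩,⟨5,[(2,1),(7,3),(8,1),(0,
  2),(8,0),(0,0),(4,1)]⟩⟩,[.o ⟨false,0,⟨0,[(36,0)]⟩,⟨3,[(6,0),(3,0),(7,0),(0,0),(11,0)]⟩⟩,.o ⟨false,
  1,⟨3,[(3,1),(12,1),(1,0),(0,1),(18,0)]⟩,⟨0,[(11,0)]⟩⟩,.a ⟨true,0,⟨1,[(20,0),(8,0),(0,0)]⟩,⟨0,[(21,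
  0)]⟩⟩ ⟨false,1,⟨1,[(19,0),(18,0)]⟩,⟨5,[(1,5),(4,0),(1,0),(11,2),(3,0),(10,2)]⟩⟩ ⟨true,0,⟨0,[(21,
  0),(14,0)]⟩,⟨1,[(6,0),(13,0),(19,0)]⟩⟩,.o ⟨false,0,⟨1,[(20,0),(2,0),(2,0)]⟩,⟨1,[(21,1),(9,0),(5,
  0)]⟩⟩]⟩)) (.Q [0,0,0,0,0,1,0,0,0,0,0,-1] (.p false [0,0,0,1] [] (⟨0,[(20,0)]⟩,⟨1,[(19,0),(8,0),(0,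
  0)]⟩) .k 0 (⟨0,[]⟩,⟨0,[]⟩) .k .k) (.R ⟨0,false,false,false,[0,0,0,1],[0,1],[1,0,1,1],(⟨0,[(21,
  0)]⟩,⟨1,[(20,0),(8,0),(0,0)]⟩),(⟨0,[(33,0)]⟩,⟨0,[(32,0)]⟩),⟨0,[(0,0)]⟩,.k,.k,(.r (-1) ⟨0,[(4,0)]⟩
  ⟨7,[(3,3),(14,2),(0,0),(5,3),(0,3)]⟩),(.r (-1) ⟨0,[(4,0)]⟩ ⟨7,[(3,3),(14,2),(0,0),(5,3),(0,3)]⟩),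
  .k,.k,⟨true,0,⟨0,[]⟩,⟨1,[(26,0),(0,0)]⟩⟩,⟨false,1,⟨0,[(21,0),(15,0)]⟩,⟨1,[(20,0),(2,0),(2,0)]⟩⟩,
  ⟨false,0,⟨4,[(3,2),(8,0),(3,1),(1,0),(7,0),(2,0),(0,0),(3,2)]⟩,⟨0,[(4,0)]⟩⟩,⟨true,0,⟨0,[(3,0),(12,
  0),(4,0),(13,0)]⟩,⟨0,[(1,0)]⟩⟩,⟨false,0,⟨0,[]⟩,⟨0,[]⟩⟩,⟨false,0,⟨0,[]⟩,⟨0,[]⟩⟩,[.o ⟨false,0,⟨0,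
  [(36,0)]⟩,⟨3,[(6,0),(3,0),(7,0),(0,0),(11,0)]⟩⟩,.o ⟨false,1,⟨3,[(3,1),(12,1),(1,0),(0,1),(18,0)]⟩,
  ⟨0,[(11,0)]⟩⟩,.a ⟨true,0,⟨1,[(20,0),(8,0),(0,0)]⟩,⟨0,[(21,0)]⟩⟩ ⟨false,0,⟨0,[(34,0),(1,0)]⟩,⟨7,
  [(4,1),(5,1),(7,0),(10,1),(0,1),(4,1),(1,2)]⟩⟩ ⟨true,0,⟨0,[(21,0),(14,0)]⟩,⟨1,[(6,0),(13,0),(19,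
  0)]⟩⟩,.o ⟨false,0,⟨1,[(20,0),(2,0),(2,0)]⟩,⟨1,[(21,1),(9,0),(5,0)]⟩⟩]⟩) (.R ⟨1,true,false,false,
  [0,0,0,1],[0,1],[0,0,0,0,0,0,0,0,1],(⟨0,[(21,0)]⟩,⟨1,[(20,0),(8,0),(0,0)]⟩),(⟨0,[(33,0)]⟩,⟨0,[(32,
  0)]⟩),⟨0,[(0,0)]⟩,.k,.k,(.r (-1) ⟨0,[(4,0)]⟩ ⟨7,[(3,3),(14,2),(0,0),(5,3),(0,3)]⟩),(.r (-1) ⟨0,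
  [(4,0)]⟩ ⟨7,[(3,3),(14,2),(0,0),(5,3),(0,3)]⟩),(.r (-2) ⟨7,[(4,9),(5,1),(7,0),(10,1),(0,1),(4,1),
  (1,2)]⟩ ⟨0,[(3,0),(21,0),(0,0)]⟩),.k,⟨true,1,⟨0,[(4,0)]⟩,⟨0,[(3,0),(8,0),(13,0),(2,0),(0,0)]⟩⟩,
  ⟨false,1,⟨0,[(21,0),(15,0)]⟩,⟨1,[(20,0),(2,0),(2,0)]⟩⟩,⟨false,1,⟨3,[(18,0),(0,0),(18,1)]⟩,⟨0,[]⟩⟩,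
  ⟨true,0,⟨0,[(3,0),(12,0),(4,0),(13,0)]⟩,⟨0,[(1,0)]⟩⟩,⟨true,0,⟨0,[(36,0)]⟩,⟨0,[(35,0)]⟩⟩,⟨false,0,
  ⟨0,[(3,0),(12,0),(4,0)]⟩,⟨5,[(2,1),(7,3),(8,1),(0,2),(8,0),(0,0),(4,1)]⟩⟩,[]⟩)))) (.Q [0,0,0,-1,0,
  0,0,0,1,0,0,-1] (.p false [0,0,0,1] [] (⟨0,[(18,0)]⟩,⟨1,[(17,0),(8,0),(0,0)]⟩) .k 0 (⟨0,[]⟩,⟨0,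
  []⟩) .k .k) (.Q [0,0,0,0,0,1,0,0,0,-1,0,1] (.p true [0,0,0,1] [1] (⟨0,[(19,0)]⟩,⟨1,[(18,0),(8,0),
  (0,0)]⟩) .k 1 (⟨0,[]⟩,⟨0,[]⟩) .k .k) (.Q [0,1,0,1,-1,0,1,1,1,2,-1,-1] (.p false [-1,1,1] [1,0,0,
  -1] (⟨0,[(8,0)]⟩,⟨0,[(28,0),(2,0)]⟩) .k 2 (⟨1,[(19,0),(8,0),(0,0)]⟩,⟨0,[(20,0)]⟩) .k (.x (-1) ⟨7,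
  [(15,3),(1,0),(0,0),(4,3),(1,3),(3,7),(7,1)]⟩ ⟨0,[(14,0),(13,0)]⟩)) (.R ⟨0,false,false,true,[1,0,
  0,-1],[-1,1,1],[0,1],(⟨1,[(20,0),(8,0),(0,0)]⟩,⟨0,[(21,0)]⟩),(⟨0,[(9,0)]⟩,⟨0,[(29,0),(2,0)]⟩),⟨0,
  [(1,0)]⟩,.k,.k,(.x 0 ⟨2,[(5,0),(20,1),(4,0),(0,2)]⟩ ⟨3,[(18,0),(0,0),(13,3),(3,1)]⟩),(.r (-2) ⟨3,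
  [(3,1),(12,1),(1,2),(19,0)]⟩ ⟨0,[(2,0),(10,0),(7,0),(14,0)]⟩),.k,.k,⟨false,2,⟨3,[(3,1),(12,1),(1,
  0),(18,1),(0,0)]⟩,⟨0,[(13,0)]⟩⟩,⟨true,1,⟨1,[(20,0),(5,1),(2,2),(0,2),(6,1)]⟩,⟨0,[(8,0),(4,0),(7,
  0),(12,0)]⟩⟩,⟨false,0,⟨0,[(2,0),(18,0),(14,0)]⟩,⟨1,[(18,0),(19,0)]⟩⟩,⟨true,(-1),⟨0,[(0,0)]⟩,⟨1,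
  [(8,1),(9,0),(2,1),(16,0)]⟩⟩,⟨false,0,⟨0,[]⟩,⟨0,[]⟩⟩,⟨false,0,⟨0,[]⟩,⟨0,[]⟩⟩,[.o ⟨false,0,⟨7,[(0,
  3),(17,2),(0,0),(1,3),(2,3),(11,3)]⟩,⟨0,[(8,0),(29,0)]⟩⟩,.o ⟨false,0,⟨3,[(0,1),(12,1),(4,0),(2,1),
  (4,1),(10,1),(0,0)]⟩,⟨7,[(8,3),(1,1),(14,3),(5,2),(6,2)]⟩⟩,.a ⟨true,0,⟨0,[(21,0)]⟩,⟨1,[(20,0),(8,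
  0),(0,0)]⟩⟩ ⟨true,0,⟨0,[(40,0)]⟩,⟨0,[]⟩⟩ ⟨false,0,⟨1,[(0,1),(17,0),(19,0)]⟩,⟨0,[(8,0),(12,0),(16,
  0)]⟩⟩,.o ⟨false,0,⟨2,[(5,0),(15,2),(4,1),(4,0)]⟩,⟨7,[(18,0),(0,0),(0,3),(10,1),(5,3)]⟩⟩]⟩) (.I [0,
  1,0,0,0,0,0,0,-1] (.I [0,0,0,-1,1,0,0,-1,-1] (.R ⟨0,false,false,false,[0,0,0,1],[2,-1,-1],[1,0,0,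
  0,0,0,0,0,1],(⟨0,[(23,0)]⟩,⟨1,[(22,0),(8,0),(0,0)]⟩),(⟨0,[(31,0),(2,0)]⟩,⟨0,[(11,0)]⟩),⟨0,[(3,0),
  (18,0)]⟩,.k,.k,(.r (-1) ⟨0,[(6,0)]⟩ ⟨0,[(0,0),(14,0),(22,0)]⟩),(.r 1 ⟨0,[(4,0),(10,0),(7,0),(14,
  0)]⟩ ⟨3,[(5,1),(12,1),(1,2),(19,0)]⟩),.k,.k,⟨true,(-1),⟨0,[(4,0),(10,0),(7,0),(14,0)]⟩,⟨0,[(0,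
  0)]⟩⟩,⟨false,0,⟨1,[(10,1),(4,1),(7,1),(15,0),(0,0)]⟩,⟨1,[(22,0),(5,1),(2,2),(0,2),(6,1)]⟩⟩,⟨true,
  0,⟨0,[]⟩,⟨0,[(42,0)]⟩⟩,⟨false,1,⟨0,[(2,0)]⟩,⟨0,[(4,0),(10,0),(12,0),(2,1),(0,1),(5,0),(0,0)]⟩⟩,
  ⟨false,0,⟨0,[]⟩,⟨0,[]⟩⟩,⟨false,0,⟨0,[]⟩,⟨0,[]⟩⟩,[.o ⟨false,1,⟨21,[(0,1),(1,9),(7,9),(8,0),(1,5),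
  (0,4),(10,3)]⟩,⟨0,[(15,0),(12,0),(2,0),(0,0),(6,0)]⟩⟩,.o ⟨false,1,⟨0,[(10,0),(29,0)]⟩,⟨0,[(26,0),
  (4,0),(0,0),(5,0)]⟩⟩,.a ⟨true,0,⟨1,[(22,0),(8,0),(0,0)]⟩,⟨0,[(23,0)]⟩⟩ ⟨true,0,⟨0,[(4,0),(18,0),
  (14,0)]⟩,⟨0,[(1,0)]⟩⟩ ⟨false,1,⟨0,[(10,0),(12,0),(16,0)]⟩,⟨1,[(15,1),(6,0),(5,1),(2,2),(0,2),(6,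
  1)]⟩⟩,.o ⟨false,0,⟨1,[(22,0),(2,0),(2,0)]⟩,⟨1,[(23,1),(9,0),(5,0)]⟩⟩]⟩) (.R ⟨0,false,false,true,
  [0,0,0,1],[2,-1,-1],[0,1,0,-1,0,0,0,-1],(⟨0,[(23,0)]⟩,⟨1,[(22,0),(8,0),(0,0)]⟩),(⟨0,[(31,0),(2,
  0)]⟩,⟨0,[(11,0)]⟩),⟨0,[(3,0),(18,0)]⟩,.k,.k,(.r (-1) ⟨0,[(6,0)]⟩ ⟨0,[(1,0),(34,0),(1,0)]⟩),(.r 1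
  ⟨1,[(0,1),(27,0),(0,0)]⟩ ⟨3,[(5,1),(12,1),(1,2),(19,0)]⟩),.k,.k,⟨true,0,⟨1,[(28,0),(0,0)]⟩,⟨0,
  []⟩⟩,⟨false,0,⟨12,[(0,8),(0,2),(0,5),(7,2),(8,1),(3,6),(9,2)]⟩,⟨1,[(22,0),(5,1),(2,2),(0,2),(6,
  1)]⟩⟩,⟨true,1,⟨7,[(1,4),(0,1),(2,2),(12,0),(1,1),(1,0),(4,1),(0,3),(2,2),(0,2)]⟩,⟨0,[(0,0)]⟩⟩,
  ⟨false,1,⟨0,[(2,0),(39,0)]⟩,⟨1,[(0,1),(21,0),(5,1),(2,2),(0,2),(6,0),(0,0)]⟩⟩,⟨false,0,⟨0,[]⟩,⟨0,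
  []⟩⟩,⟨false,0,⟨0,[]⟩,⟨0,[]⟩⟩,[.o ⟨false,0,⟨0,[(10,0)]⟩,⟨0,[(26,0),(4,0),(0,0),(5,0),(1,0)]⟩⟩,.o
  ⟨false,1,⟨31,[(2,15),(2,1),(4,11),(10,6),(0,7),(2,1),(1,1),(5,6)]⟩,⟨1,[(0,1),(19,0),(7,1),(2,1),
  (0,1),(6,0)]⟩⟩,.a ⟨true,0,⟨1,[(22,0),(8,0),(0,0)]⟩,⟨0,[(23,0)]⟩⟩ ⟨false,1,⟨13,[(2,1),(2,5),(12,3),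
  (1,1),(1,0),(4,1),(0,3),(2,2),(0,2),(3,5)]⟩,⟨1,[(0,1),(19,0),(19,0)]⟩⟩ ⟨true,0,⟨0,[(10,0),(12,
  0)]⟩,⟨1,[(0,1),(19,0),(1,0),(5,1),(2,2),(0,2),(6,0)]⟩⟩,.o ⟨false,0,⟨1,[(22,0),(2,0),(2,0)]⟩,⟨1,
  [(23,1),(9,0),(5,0)]⟩⟩]⟩)) (.R ⟨0,false,false,false,[1,0,0,-1],[-1,1,1],[0,1,0,0,0,0,0,0,-1],(⟨1,
  [(21,0),(8,0),(0,0)]⟩,⟨0,[(22,0)]⟩),(⟨0,[(10,0)]⟩,⟨0,[(30,0),(2,0)]⟩),⟨0,[(2,0)]⟩,.k,.k,(.x 0 ⟨2,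
  [(6,0),(20,1),(4,0),(0,2)]⟩ ⟨3,[(19,0),(0,0),(13,3),(3,1)]⟩),(.r (-2) ⟨3,[(4,1),(12,1),(1,2),(19,
  0)]⟩ ⟨0,[(0,0),(13,0),(26,0)]⟩),.k,.k,⟨false,2,⟨1,[(17,1),(1,0),(16,1),(1,0)]⟩,⟨0,[(0,0),(13,
  0)]⟩⟩,⟨true,1,⟨1,[(21,0),(5,1),(2,2),(0,2),(6,1)]⟩,⟨3,[(0,0),(0,0),(4,1),(2,1),(4,2),(7,2),(4,
  2)]⟩⟩,⟨true,0,⟨0,[(41,0)]⟩,⟨0,[]⟩⟩,⟨false,0,⟨1,[(0,1),(13,1),(6,0),(5,1),(2,2),(0,2),(6,1)]⟩,⟨0,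
  [(1,0),(39,0)]⟩⟩,⟨false,0,⟨0,[]⟩,⟨0,[]⟩⟩,⟨false,0,⟨0,[]⟩,⟨0,[]⟩⟩,[.o ⟨false,0,⟨0,[(14,0),(12,0),
  (2,0),(0,0),(6,0)]⟩,⟨31,[(1,15),(2,1),(4,11),(10,6),(0,7),(2,1),(1,1),(5,6)]⟩⟩,.o ⟨false,1,⟨0,
  [(25,0),(4,0),(0,0),(5,0),(1,0)]⟩,⟨0,[(9,0)]⟩⟩,.a ⟨true,0,⟨0,[(22,0)]⟩,⟨1,[(21,0),(8,0),(0,0)]⟩⟩
  ⟨false,1,⟨3,[(19,2),(0,0)]⟩,⟨0,[(0,0)]⟩⟩ ⟨true,0,⟨1,[(14,1),(6,0),(5,1),(2,2),(0,2),(6,1)]⟩,⟨0,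
  [(9,0),(12,0)]⟩⟩,.o ⟨false,0,⟨11,[(1,1),(7,1),(4,3),(5,0),(1,9),(1,1),(2,5),(4,0)]⟩,⟨7,[(19,0),(0,
  0),(0,3),(10,1),(5,3)]⟩⟩]⟩))) (.I [0,-1,0,1,0,0,0,0,1] (.I [1,0,1,1,-1,0,0,0,1] (.R ⟨1,false,
  false,true,[1,0,0,-1],[1,-1],[1,0,1],(⟨1,[(21,0),(8,0),(0,0)]⟩,⟨0,[(22,0)]⟩),(⟨0,[(33,0)]⟩,⟨0,
  [(34,0)]⟩),⟨0,[(2,0)]⟩,.k,.k,(.x 0 ⟨2,[(6,0),(20,1),(4,0),(0,2)]⟩ ⟨3,[(19,0),(0,0),(13,3),(3,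
  1)]⟩),(.r 0 ⟨0,[(0,0),(18,0)]⟩ ⟨0,[(5,0)]⟩),.k,.k,⟨false,0,⟨1,[(0,0),(0,0),(17,0),(15,0)]⟩,⟨0,
  [(36,0),(1,0)]⟩⟩,⟨true,0,⟨1,[(21,0),(2,0),(2,0)]⟩,⟨0,[(22,0)]⟩⟩,⟨false,0,⟨5,[(0,0),(0,0),(1,1),
  (16,0),(1,1),(12,4)]⟩,⟨1,[(19,0),(18,0)]⟩⟩,⟨false,0,⟨0,[(3,0)]⟩,⟨0,[(1,0),(17,0),(2,0)]⟩⟩,⟨true,
  (-1),⟨0,[(0,0)]⟩,⟨1,[(19,0),(16,1),(1,0)]⟩⟩,⟨false,0,⟨13,[(0,5),(2,5),(16,0),(0,3),(10,1),(5,2)]⟩,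
  ⟨1,[(19,0),(2,1),(16,0)]⟩⟩,[.o ⟨false,0,⟨0,[(12,0)]⟩,⟨3,[(1,3),(17,2),(0,0)]⟩⟩,.o ⟨false,1,⟨3,[(7,
  0),(3,0),(7,0),(0,0),(11,0)]⟩,⟨0,[(37,0)]⟩⟩,.a ⟨true,0,⟨0,[(22,0)]⟩,⟨1,[(21,0),(8,0),(0,0)]⟩⟩
  ⟨false,0,⟨0,[(35,0)]⟩,⟨3,[(19,0),(0,0),(17,1)]⟩⟩ ⟨true,0,⟨1,[(7,0),(13,0),(19,0)]⟩,⟨0,[(22,0),(14,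
  0)]⟩⟩,.o ⟨false,0,⟨2,[(6,0),(15,2),(4,1),(4,0)]⟩,⟨7,[(19,0),(0,0),(0,3),(10,1),(5,3)]⟩⟩]⟩) (.R ⟨1,
  false,false,false,[1,0,0,-1],[0,1],[0,0,0,0,0,0,0,0,-1],(⟨1,[(21,0),(8,0),(0,0)]⟩,⟨0,[(22,0)]⟩),
  (⟨0,[(34,0)]⟩,⟨0,[(33,0)]⟩),⟨0,[(2,0)]⟩,.k,.k,(.r (-1) ⟨0,[(0,0)]⟩ ⟨5,[(1,1),(12,1),(5,1),(5,1),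
  (0,2),(0,0),(8,1)]⟩),(.r (-1) ⟨0,[(0,0)]⟩ ⟨5,[(1,1),(12,1),(5,1),(5,1),(0,2),(0,0),(8,1)]⟩),(.r
  (-2) ⟨1,[(0,2),(4,0)]⟩ ⟨0,[(1,0),(12,0),(11,0),(0,0)]⟩),.k,⟨true,1,⟨0,[(0,0)]⟩,⟨0,[(1,0),(11,0),
  (0,0),(12,0),(2,0),(0,0)]⟩⟩,⟨false,1,⟨1,[(21,0),(8,0),(0,0),(6,1)]⟩,⟨2,[(6,0),(15,2),(4,1),(4,
  0)]⟩⟩,⟨false,1,⟨3,[(19,0),(0,0),(18,1)]⟩,⟨0,[]⟩⟩,⟨false,0,⟨1,[(1,1),(19,0),(8,0),(0,0)]⟩,⟨3,[(7,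
  0),(3,0),(7,1),(2,3),(9,0)]⟩⟩,⟨true,0,⟨0,[(37,0)]⟩,⟨0,[(36,0)]⟩⟩,⟨false,0,⟨1,[(1,1),(19,0),(8,0),
  (0,0),(5,1)]⟩,⟨1,[(7,0),(3,0),(7,0),(2,1)]⟩⟩,[.o ⟨false,0,⟨0,[(37,0)]⟩,⟨3,[(7,0),(3,0),(7,0),(0,
  0),(11,0)]⟩⟩,.o ⟨false,1,⟨3,[(1,3),(17,2),(0,0)]⟩,⟨0,[(12,0)]⟩⟩,.a ⟨true,0,⟨0,[(22,0)]⟩,⟨1,[(21,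
  0),(8,0),(0,0)]⟩⟩ ⟨false,1,⟨1,[(19,0),(19,0)]⟩,⟨1,[(1,0),(2,0),(9,0)]⟩⟩ ⟨true,0,⟨1,[(21,0),(8,0),
  (0,0),(5,1)]⟩,⟨1,[(9,0),(5,0),(6,1)]⟩⟩,.o ⟨false,0,⟨2,[(6,0),(15,2),(4,1),(4,0)]⟩,⟨7,[(19,0),(0,
  0),(0,3),(10,1),(5,3)]⟩⟩]⟩)) (.R ⟨1,false,false,false,[1,0,0,-1],[1,-1],[1,1,0,-1,0,0,0,0,-1],(⟨1,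
  [(20,0),(8,0),(0,0)]⟩,⟨0,[(21,0)]⟩),(⟨0,[(32,0)]⟩,⟨0,[(33,0)]⟩),⟨0,[(1,0)]⟩,.k,.k,(.r (-1) ⟨1,[(0,
  1),(36,0),(0,0)]⟩ ⟨2,[(2,0),(10,0),(5,0),(1,0),(3,0),(0,0),(7,0),(1,2)]⟩),(.r 0 ⟨0,[(0,0),(33,0),
  (1,1)]⟩ ⟨0,[(4,0)]⟩),.k,.k,⟨false,0,⟨0,[(0,0),(35,0)]⟩,⟨1,[(2,1),(18,1),(14,1),(0,0),(0,0)]⟩⟩,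
  ⟨true,0,⟨1,[(20,0),(2,0),(2,0)]⟩,⟨0,[(21,0)]⟩⟩,⟨true,0,⟨0,[(35,0)]⟩,⟨0,[(36,0)]⟩⟩,⟨true,0,⟨0,[(2,
  0)]⟩,⟨0,[(0,0),(20,0),(14,1)]⟩⟩,⟨false,0,⟨0,[]⟩,⟨3,[(18,0),(0,0),(18,1)]⟩⟩,⟨true,0,⟨0,[(2,0),(33,
  0)]⟩,⟨0,[(0,0),(20,0),(14,0)]⟩⟩,[.o ⟨false,1,⟨3,[(6,0),(3,0),(7,0),(0,0),(11,0)]⟩,⟨0,[(36,0)]⟩⟩,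
  .o ⟨false,1,⟨3,[(10,1),(20,0),(6,0)]⟩,⟨0,[(36,0),(3,0)]⟩⟩,.a ⟨true,0,⟨0,[(21,0)]⟩,⟨1,[(20,0),(8,
  0),(0,0)]⟩⟩ ⟨true,0,⟨0,[(0,0)]⟩,⟨0,[(2,0),(18,0),(14,1)]⟩⟩ ⟨false,1,⟨7,[(10,3),(7,0),(0,0),(0,3),
  (17,1)]⟩,⟨0,[(21,0),(14,0)]⟩⟩,.o ⟨false,0,⟨2,[(5,0),(15,2),(4,1),(4,0)]⟩,⟨7,[(18,0),(0,0),(0,3),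
  (10,1),(5,3)]⟩⟩]⟩))) (.Q [0,1,0,-1,0,0,0,0,1,0,0,-1] (.p false [0,0,0,1] [] (⟨0,[(19,0)]⟩,⟨1,[(18,
  0),(8,0),(0,0)]⟩) .k 0 (⟨0,[]⟩,⟨0,[]⟩) .k .k) (.Q [0,1,0,-1,0,0,-1,-1,-1,-2,1,1] (.p true [-1,1,
  1] [1,0,0,-1] (⟨0,[(8,0)]⟩,⟨0,[(28,0),(2,0)]⟩) .k 2 (⟨1,[(19,0),(8,0),(0,0)]⟩,⟨0,[(20,0)]⟩) .k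
  (.r 0 ⟨0,[(3,0),(8,0)]⟩ ⟨5,[(1,1),(9,1),(3,3),(1,1),(1,0),(5,1),(2,0),(0,0),(3,1)]⟩)) (.I [0,1,0,
  0,0,0,0,-1,-1] (.Q [0,0,0,0,0,1,0,0,0,0,0,-1] (.p false [0,0,0,1] [] (⟨0,[(22,0)]⟩,⟨1,[(21,0),(8,
  0),(0,0)]⟩) .k 0 (⟨0,[]⟩,⟨0,[]⟩) .k .k) (.R ⟨0,false,false,false,[0,0,0,1],[0,1],[1,0,1,1],(⟨0,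
  [(23,0)]⟩,⟨1,[(22,0),(8,0),(0,0)]⟩),(⟨0,[(35,0)]⟩,⟨0,[(34,0)]⟩),⟨0,[(0,0)]⟩,.k,.k,(.r (-1) ⟨0,[(6,
  0)]⟩ ⟨5,[(1,1),(13,1),(4,1),(7,0),(0,0),(6,1),(1,3)]⟩),(.r (-1) ⟨0,[(6,0)]⟩ ⟨5,[(1,1),(13,1),(4,
  1),(7,0),(0,0),(6,1),(1,3)]⟩),.k,.k,⟨true,0,⟨0,[]⟩,⟨1,[(28,0),(0,0)]⟩⟩,⟨false,1,⟨0,[(23,0),(15,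
  0)]⟩,⟨1,[(22,0),(2,0),(2,0)]⟩⟩,⟨false,0,⟨0,[(1,0),(13,0),(24,0)]⟩,⟨0,[(6,0)]⟩⟩,⟨true,0,⟨0,[(4,
  0)]⟩,⟨0,[(3,0)]⟩⟩,⟨false,0,⟨0,[]⟩,⟨0,[]⟩⟩,⟨false,0,⟨0,[]⟩,⟨0,[]⟩⟩,[.o ⟨false,0,⟨0,[(38,0)]⟩,⟨3,
  [(8,0),(3,0),(7,0),(0,0),(11,0)]⟩⟩,.o ⟨false,1,⟨3,[(20,0),(0,0),(16,3),(1,1)]⟩,⟨0,[(13,0)]⟩⟩,.a
  ⟨true,0,⟨1,[(22,0),(8,0),(0,0)]⟩,⟨0,[(23,0)]⟩⟩ ⟨false,0,⟨0,[(36,0),(1,0)]⟩,⟨5,[(5,1),(3,1),(10,0),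
  (18,0),(0,1)]⟩⟩ ⟨true,0,⟨0,[(23,0),(14,0)]⟩,⟨1,[(8,0),(13,0),(19,0)]⟩⟩,.o ⟨false,0,⟨1,[(22,0),(2,
  0),(2,0)]⟩,⟨1,[(23,1),(9,0),(5,0)]⟩⟩]⟩) (.I [0,0,0,0,0,0,0,0,-1] (.R ⟨1,false,false,true,[1,0,0,
  -1],[1,-1],[0,1,0,0,0,0,0,0,-1],(⟨1,[(23,0),(8,0),(0,0)]⟩,⟨0,[(24,0)]⟩),(⟨0,[(35,0)]⟩,⟨0,[(36,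
  0)]⟩),⟨0,[(1,0),(21,0)]⟩,.k,.k,(.r (-1) ⟨5,[(0,5),(5,1),(3,1),(10,0),(18,0),(0,1)]⟩ ⟨0,[(6,0),(9,
  0),(20,0),(1,1)]⟩),(.r 0 ⟨5,[(2,1),(13,1),(4,1),(7,0),(0,0),(6,1),(1,3)]⟩ ⟨0,[(7,0)]⟩),.k,.k,
  ⟨false,0,⟨0,[(0,0),(38,0)]⟩,⟨0,[(7,0)]⟩⟩,⟨true,0,⟨1,[(23,0),(2,0),(2,0)]⟩,⟨0,[(24,0)]⟩⟩,⟨true,0,
  ⟨0,[(43,0)]⟩,⟨0,[]⟩⟩,⟨true,0,⟨0,[(4,0)]⟩,⟨0,[(5,0)]⟩⟩,⟨false,0,⟨0,[(39,0)]⟩,⟨13,[(6,1),(6,3),(3,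
  1),(3,0),(8,1),(1,3),(0,3),(7,6)]⟩⟩,⟨true,0,⟨0,[(4,0),(34,0)]⟩,⟨0,[(0,0),(23,0)]⟩⟩,[.o ⟨false,0,
  ⟨0,[(14,0)]⟩,⟨3,[(21,0),(0,0),(16,3),(1,1)]⟩⟩,.o ⟨false,1,⟨3,[(9,0),(3,0),(7,0),(0,0),(11,0)]⟩,⟨0,
  [(39,0)]⟩⟩,.a ⟨true,0,⟨0,[(24,0)]⟩,⟨1,[(23,0),(8,0),(0,0)]⟩⟩ ⟨false,0,⟨0,[(0,0)]⟩,⟨1,[(22,0),(18,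
  0)]⟩⟩ ⟨true,0,⟨1,[(9,0),(13,0),(19,0)]⟩,⟨0,[(24,0),(14,0)]⟩⟩,.o ⟨false,0,⟨2,[(8,0),(15,2),(4,1),
  (4,0)]⟩,⟨7,[(21,0),(0,0),(0,3),(10,1),(5,3)]⟩⟩]⟩) (.R ⟨1,false,false,false,[0,0,0,1],[0,1],[1,0,0,
  -1,0,0,0,0,1],(⟨0,[(24,0)]⟩,⟨1,[(23,0),(8,0),(0,0)]⟩),(⟨0,[(36,0)]⟩,⟨0,[(35,0)]⟩),⟨0,[(1,0)]⟩,.k,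
  .k,(.r (-1) ⟨0,[(7,0)]⟩ ⟨5,[(2,1),(13,1),(4,1),(7,0),(0,0),(6,1),(1,3)]⟩),(.r (-1) ⟨0,[(7,0)]⟩ ⟨5,
  [(2,1),(13,1),(4,1),(7,0),(0,0),(6,1),(1,3)]⟩),(.r (-2) ⟨5,[(6,1),(0,5),(2,1),(10,0),(18,0),(0,
  1)]⟩ ⟨0,[(2,0),(13,0),(20,0),(1,0)]⟩),.k,⟨true,1,⟨1,[(0,1),(8,0),(3,0),(18,1),(0,1),(6,0)]⟩,⟨0,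
  [(2,0),(13,0),(20,0),(1,0)]⟩⟩,⟨false,1,⟨0,[(24,0),(15,0)]⟩,⟨1,[(23,0),(2,0),(2,0)]⟩⟩,⟨false,1,⟨13,
  [(6,1),(6,3),(3,1),(3,0),(8,1),(1,3),(0,3),(7,6)]⟩,⟨0,[(39,0)]⟩⟩,⟨true,0,⟨0,[(5,0)]⟩,⟨0,[(4,0)]⟩⟩,
  ⟨true,0,⟨0,[]⟩,⟨0,[(43,0)]⟩⟩,⟨true,0,⟨0,[(5,0),(33,0)]⟩,⟨1,[(0,1),(8,1),(13,0),(8,0),(0,0)]⟩⟩,[.o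
  ⟨false,0,⟨0,[(39,0)]⟩,⟨3,[(9,0),(3,0),(7,0),(0,0),(11,0)]⟩⟩,.o ⟨false,1,⟨3,[(21,0),(0,0),(16,3),
  (1,1)]⟩,⟨0,[(14,0)]⟩⟩,.a ⟨true,0,⟨1,[(23,0),(8,0),(0,0)]⟩,⟨0,[(24,0)]⟩⟩ ⟨false,1,⟨0,[(7,0),(29,
  0)]⟩,⟨1,[(2,1),(13,1),(23,0),(0,0)]⟩⟩ ⟨true,0,⟨0,[(24,0),(14,0)]⟩,⟨1,[(9,0),(13,0),(19,0)]⟩⟩,.o
  ⟨false,0,⟨1,[(23,0),(2,0),(2,0)]⟩,⟨1,[(24,1),(9,0),(5,0)]⟩⟩]⟩))) (.Q [0,0,0,0,0,1,0,0,0,0,0,-1]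
  (.p false [0,0,0,1] [] (⟨0,[(22,0)]⟩,⟨1,[(21,0),(8,0),(0,0)]⟩) .k 0 (⟨0,[]⟩,⟨0,[]⟩) .k .k) (.R ⟨0,
  false,false,false,[0,0,0,1],[0,1],[0,1,1],(⟨0,[(23,0)]⟩,⟨1,[(22,0),(8,0),(0,0)]⟩),(⟨0,[(35,0)]⟩,
  ⟨0,[(34,0)]⟩),⟨0,[(0,0)]⟩,.k,.k,(.r (-1) ⟨0,[(6,0)]⟩ ⟨5,[(4,1),(2,0),(7,0),(4,1),(1,0),(4,0),(0,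
  2),(7,0),(1,2)]⟩),(.r (-1) ⟨0,[(6,0)]⟩ ⟨5,[(4,1),(2,0),(7,0),(4,1),(1,0),(4,0),(0,2),(7,0),(1,
  2)]⟩),.k,.k,⟨true,0,⟨0,[(37,0)]⟩,⟨0,[(36,0),(1,0)]⟩⟩,⟨false,1,⟨0,[(23,0),(15,0)]⟩,⟨1,[(22,0),(2,
  0),(2,0)]⟩⟩,⟨false,0,⟨5,[(2,0),(1,2),(10,0),(4,0),(1,1),(5,0),(7,3),(0,2)]⟩,⟨0,[(1,0),(16,0)]⟩⟩,
  ⟨true,0,⟨0,[(4,0)]⟩,⟨0,[(3,0)]⟩⟩,⟨false,0,⟨0,[]⟩,⟨0,[]⟩⟩,⟨false,0,⟨0,[]⟩,⟨0,[]⟩⟩,[.o ⟨false,0,⟨0,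
  [(38,0)]⟩,⟨3,[(8,0),(3,0),(7,0),(0,0),(11,0)]⟩⟩,.o ⟨false,1,⟨3,[(20,0),(0,0),(16,3),(1,1)]⟩,⟨0,
  [(13,0)]⟩⟩,.a ⟨true,0,⟨1,[(22,0),(8,0),(0,0)]⟩,⟨0,[(23,0)]⟩⟩ ⟨false,0,⟨1,[(28,0),(0,0)]⟩,⟨1,[(39,
  0),(0,0)]⟩⟩ ⟨true,0,⟨0,[(23,0),(14,0)]⟩,⟨1,[(8,0),(13,0),(19,0)]⟩⟩,.o ⟨false,0,⟨1,[(22,0),(2,0),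
  (2,0)]⟩,⟨1,[(23,1),(9,0),(5,0)]⟩⟩]⟩) (.I [1,0,2,1,-1,0,0,0,-1] (.R ⟨1,false,false,true,[0,0,0,1],
  [0,1],[1,1,0,-1,0,0,0,0,1],(⟨0,[(24,0)]⟩,⟨1,[(23,0),(8,0),(0,0)]⟩),(⟨0,[(36,0)]⟩,⟨0,[(35,0)]⟩),⟨0,
  [(1,0)]⟩,.k,.k,(.r (-1) ⟨0,[(7,0)]⟩ ⟨7,[(0,3),(20,2),(0,0),(16,3)]⟩),(.r (-1) ⟨0,[(7,0)]⟩ ⟨7,[(0,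
  3),(20,2),(0,0),(16,3)]⟩),(.r (-2) ⟨5,[(6,1),(0,5),(2,1),(10,0),(18,0),(0,1)]⟩ ⟨0,[(0,0),(38,
  0)]⟩),.k,⟨true,1,⟨3,[(2,1),(3,1),(2,0),(3,0),(18,1),(0,1),(6,0)]⟩,⟨0,[(0,0),(38,0)]⟩⟩,⟨false,1,⟨0,
  [(24,0),(15,0)]⟩,⟨1,[(23,0),(2,0),(2,0)]⟩⟩,⟨true,0,⟨0,[(38,0)]⟩,⟨0,[(39,0)]⟩⟩,⟨false,0,⟨0,[(5,
  0)]⟩,⟨0,[(4,0),(36,0)]⟩⟩,⟨false,0,⟨0,[]⟩,⟨3,[(21,0),(0,0),(18,1)]⟩⟩,⟨false,0,⟨0,[(5,0),(33,0)]⟩,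
  ⟨1,[(2,0),(3,0),(6,0),(9,0),(13,0)]⟩⟩,[.o ⟨false,0,⟨0,[(39,0),(3,0)]⟩,⟨3,[(13,1),(20,0),(6,0)]⟩⟩,
  .o ⟨false,0,⟨0,[(39,0)]⟩,⟨3,[(9,0),(3,0),(7,0),(0,0),(11,0)]⟩⟩,.a ⟨true,0,⟨1,[(23,0),(8,0),(0,
  0)]⟩,⟨0,[(24,0)]⟩⟩ ⟨true,0,⟨0,[(6,0),(9,0)]⟩,⟨0,[(0,0),(39,0)]⟩⟩ ⟨false,0,⟨0,[(24,0),(14,0)]⟩,⟨7,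
  [(13,3),(7,0),(0,0),(0,3),(17,1)]⟩⟩,.o ⟨false,0,⟨1,[(23,0),(2,0),(2,0)]⟩,⟨1,[(24,1),(9,0),(5,
  0)]⟩⟩]⟩) (.I [0,0,0,0,0,0,0,0,1] (.R ⟨1,false,false,true,[0,0,0,1],[1,-1],[0,1,0,0,0,0,0,0,1],(⟨0,
  [(25,0)]⟩,⟨1,[(24,0),(8,0),(0,0)]⟩),(⟨0,[(36,0)]⟩,⟨0,[(37,0)]⟩),⟨0,[(2,0)]⟩,.k,.k,(.r (-1) ⟨0,[(8,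
  0)]⟩ ⟨5,[(6,1),(2,0),(7,0),(4,1),(1,0),(4,0),(0,2),(7,0),(1,2)]⟩),(.r 0 ⟨2,[(0,0),(16,0),(5,0),(5,
  0),(0,0),(7,0),(1,1)]⟩ ⟨1,[(6,1),(3,0),(3,0),(9,0),(8,0),(0,0),(6,0)]⟩),.k,.k,⟨false,0,⟨0,[(0,0),
  (39,0)]⟩,⟨1,[(6,1),(3,0),(3,0),(9,0),(8,0),(0,0),(6,0)]⟩⟩,⟨true,0,⟨2,[(9,0),(15,2),(4,1),(4,0)]⟩,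
  ⟨1,[(24,0),(8,0),(0,0)]⟩⟩,⟨true,0,⟨0,[(44,0)]⟩,⟨0,[]⟩⟩,⟨true,0,⟨0,[(6,0),(3,0)]⟩,⟨1,[(0,1),(23,0),
  (8,0),(0,0),(5,1)]⟩⟩,⟨false,0,⟨0,[(40,0)]⟩,⟨13,[(7,1),(6,3),(3,1),(3,0),(8,1),(1,3),(0,3),(7,
  6)]⟩⟩,⟨true,0,⟨1,[(4,0),(1,0),(21,0)]⟩,⟨1,[(0,1),(23,0),(8,0),(0,0)]⟩⟩,[.o ⟨false,0,⟨0,[(15,0)]⟩,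
  ⟨3,[(22,0),(0,0),(16,3),(1,1)]⟩⟩,.o ⟨false,1,⟨3,[(10,0),(3,0),(7,0),(0,0),(11,0)]⟩,⟨0,[(40,0)]⟩⟩,
  .a ⟨true,0,⟨1,[(24,0),(8,0),(0,0)]⟩,⟨0,[(25,0)]⟩⟩ ⟨false,0,⟨0,[(0,0)]⟩,⟨1,[(22,0),(19,0)]⟩⟩ ⟨true,
  0,⟨1,[(0,0),(3,0),(13,0),(6,0)]⟩,⟨1,[(24,0),(8,0),(0,0),(5,1)]⟩⟩,.o ⟨false,0,⟨1,[(24,0),(2,0),(2,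
  0)]⟩,⟨1,[(25,1),(9,0),(5,0)]⟩⟩]⟩) (.R ⟨1,false,false,true,[0,0,0,1],[0,0,1],[1,1,0,-1,0,0,0,0,1],
  (⟨0,[(25,0)]⟩,⟨1,[(24,0),(8,0),(0,0)]⟩),(⟨0,[(34,0)]⟩,⟨0,[(33,0)]⟩),⟨0,[(2,0)]⟩,.k,.k,(.r (-1) ⟨0,
  [(8,0)]⟩ ⟨5,[(6,1),(2,0),(7,0),(4,1),(1,0),(4,0),(0,2),(7,0),(1,2)]⟩),.k,(.r (-2) ⟨3,[(7,1),(12,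
  1),(1,0),(0,1),(18,0)]⟩ ⟨0,[(0,0),(16,0)]⟩),.k,⟨true,1,⟨1,[(3,0),(3,0),(12,0),(8,0),(0,0),(7,0)]⟩,
  ⟨0,[(0,0),(16,0)]⟩⟩,⟨false,1,⟨0,[(25,0),(4,0),(10,0)]⟩,⟨1,[(21,0),(2,0)]⟩⟩,⟨true,0,⟨0,[(39,0)]⟩,
  ⟨0,[(40,0)]⟩⟩,⟨false,0,⟨0,[(0,1),(0,0),(15,0),(7,0),(4,0)]⟩,⟨1,[(3,1),(16,1),(3,0),(1,0),(2,0),(8,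
  1)]⟩⟩,⟨false,0,⟨0,[]⟩,⟨3,[(22,0),(0,0),(18,1)]⟩⟩,⟨false,0,⟨0,[(0,0),(16,0),(7,0),(4,0),(10,0)]⟩,
  ⟨1,[(3,0),(3,0),(1,0),(10,1),(3,0),(13,1)]⟩⟩,[.o ⟨false,0,⟨0,[(28,0)]⟩,⟨0,[(26,0),(15,0)]⟩⟩,.o
  ⟨false,0,⟨0,[(0,0),(0,0),(15,0),(12,0)]⟩,⟨1,[(29,1),(5,0),(6,0)]⟩⟩,.a ⟨true,0,⟨1,[(24,0),(8,0),(0,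
  0)]⟩,⟨0,[(25,0)]⟩⟩ ⟨true,0,⟨0,[(7,0),(9,0)]⟩,⟨0,[(0,0),(39,0)]⟩⟩ ⟨false,0,⟨0,[(0,0),(0,0),(15,0),
  (7,0),(4,0)]⟩,⟨1,[(24,0),(1,0),(2,0),(12,1)]⟩⟩,.o ⟨false,0,⟨1,[(24,0),(2,0),(2,0)]⟩,⟨1,[(25,1),(9,
  0),(5,0)]⟩⟩]⟩))))) (.R ⟨2,true,false,false,[0,1],[0,0,0,1],[1,1,1],(⟨0,[]⟩,⟨0,[]⟩),(⟨0,[(21,0)]⟩,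
  ⟨1,[(20,0),(8,0),(0,0)]⟩),⟨0,[]⟩,.k,.k,.k,(.r 0 ⟨5,[(2,1),(2,0),(7,0),(4,1),(1,0),(4,0),(0,2),(7,
  0),(1,2)]⟩ ⟨0,[(4,0)]⟩),.k,.k,⟨false,0,⟨1,[(2,1),(3,0),(13,0),(19,0)]⟩,⟨1,[(0,1),(7,1),(12,1),(15,
  0),(0,0)]⟩⟩,⟨true,0,⟨1,[(20,0),(2,0),(2,0)]⟩,⟨0,[(21,0)]⟩⟩,⟨true,0,⟨0,[(35,0)]⟩,⟨0,[(36,0)]⟩⟩,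
  ⟨false,1,⟨0,[(1,0),(36,0)]⟩,⟨0,[(2,0)]⟩⟩,⟨false,0,⟨0,[]⟩,⟨3,[(18,0),(0,0),(18,1)]⟩⟩,⟨true,0,⟨0,
  [(0,0),(7,0)]⟩,⟨0,[(2,0),(32,0)]⟩⟩,[]⟩)) (.Q [0,0,0,0,0,1,0,0,0,0,0,-1] (.p false [0,0,0,1] []
  (⟨0,[(20,0)]⟩,⟨1,[(19,0),(8,0),(0,0)]⟩) .k 0 (⟨0,[]⟩,⟨0,[]⟩) .k .k) (.R ⟨0,false,false,false,[0,0,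
  0,1],[0,1],[1,0,0,0,0,0,0,0,1],(⟨0,[(21,0)]⟩,⟨1,[(20,0),(8,0),(0,0)]⟩),(⟨0,[(33,0)]⟩,⟨0,[(32,
  0)]⟩),⟨0,[(0,0)]⟩,.k,.k,(.r (-1) ⟨0,[(4,0)]⟩ ⟨5,[(1,1),(11,1),(4,1),(1,0),(2,0),(1,1),(0,2),(9,
  1)]⟩),(.r (-1) ⟨0,[(4,0)]⟩ ⟨5,[(1,1),(11,1),(4,1),(1,0),(2,0),(1,1),(0,2),(9,1)]⟩),.k,.k,⟨true,1,
  ⟨0,[(4,0)]⟩,⟨1,[(1,1),(10,1),(0,1),(6,0),(5,1),(2,0),(0,0)]⟩⟩,⟨false,1,⟨0,[(21,0),(15,0)]⟩,⟨1,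
  [(20,0),(2,0),(2,0)]⟩⟩,⟨true,0,⟨0,[]⟩,⟨0,[(40,0)]⟩⟩,⟨false,0,⟨0,[(1,0)]⟩,⟨7,[(6,1),(3,1),(7,0),(0,
  4),(0,3)]⟩⟩,⟨false,0,⟨0,[]⟩,⟨0,[]⟩⟩,⟨false,0,⟨0,[]⟩,⟨0,[]⟩⟩,[.o ⟨false,0,⟨0,[(36,0)]⟩,⟨3,[(6,0),
  (3,0),(7,0),(0,0),(11,0)]⟩⟩,.o ⟨false,1,⟨3,[(18,0),(0,0),(16,3),(1,1)]⟩,⟨0,[(11,0)]⟩⟩,.a ⟨true,0,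
  ⟨1,[(20,0),(8,0),(0,0)]⟩,⟨0,[(21,0)]⟩⟩ ⟨false,1,⟨1,[(19,0),(18,0)]⟩,⟨1,[(1,0),(0,0),(3,0),(13,
  0)]⟩⟩ ⟨true,0,⟨0,[(21,0),(14,0)]⟩,⟨1,[(6,0),(13,0),(19,0)]⟩⟩,.o ⟨false,0,⟨1,[(20,0),(2,0),(2,0)]⟩,
  ⟨1,[(21,1),(9,0),(5,0)]⟩⟩]⟩) (.R ⟨1,false,false,false,[0,0,0,1],[0,1],[0,0,0,0,0,0,0,0,1],(⟨0,
  [(21,0)]⟩,⟨1,[(20,0),(8,0),(0,0)]⟩),(⟨0,[(33,0)]⟩,⟨0,[(32,0)]⟩),⟨0,[(0,0)]⟩,.k,.k,(.r (-1) ⟨0,[(4,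
  0)]⟩ ⟨5,[(1,1),(11,1),(4,1),(1,0),(2,0),(1,1),(0,2),(9,1)]⟩),(.r (-1) ⟨0,[(4,0)]⟩ ⟨5,[(1,1),(11,
  1),(4,1),(1,0),(2,0),(1,1),(0,2),(9,1)]⟩),(.r (-2) ⟨5,[(3,1),(0,5),(2,1),(10,0),(18,0),(0,1)]⟩ ⟨1,
  [(1,1),(11,1),(6,0),(1,0),(2,0),(0,1)]⟩),.k,⟨true,1,⟨0,[(4,0)]⟩,⟨1,[(1,1),(10,1),(0,1),(6,0),(5,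
  1),(2,0),(0,0)]⟩⟩,⟨false,1,⟨0,[(21,0),(15,0)]⟩,⟨1,[(20,0),(2,0),(2,0)]⟩⟩,⟨false,1,⟨3,[(18,0),(0,
  0),(18,1)]⟩,⟨0,[]⟩⟩,⟨false,0,⟨0,[(1,0)]⟩,⟨7,[(6,1),(3,1),(7,0),(0,4),(0,3)]⟩⟩,⟨true,0,⟨0,[(36,
  0)]⟩,⟨0,[(35,0)]⟩⟩,⟨false,0,⟨0,[(1,0),(34,0)]⟩,⟨19,[(3,7),(1,1),(1,2),(2,7),(3,4),(4,5),(0,9),(6,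
  0),(6,7)]⟩⟩,[.o ⟨false,0,⟨0,[(36,0)]⟩,⟨3,[(6,0),(3,0),(7,0),(0,0),(11,0)]⟩⟩,.o ⟨false,1,⟨3,[(18,
  0),(0,0),(16,3),(1,1)]⟩,⟨0,[(11,0)]⟩⟩,.a ⟨true,0,⟨1,[(20,0),(8,0),(0,0)]⟩,⟨0,[(21,0)]⟩⟩ ⟨false,1,
  ⟨1,[(19,0),(18,0)]⟩,⟨1,[(1,0),(0,0),(3,0),(13,0)]⟩⟩ ⟨true,0,⟨0,[(21,0),(14,0)]⟩,⟨1,[(6,0),(13,0),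
  (19,0)]⟩⟩,.o ⟨false,0,⟨1,[(20,0),(2,0),(2,0)]⟩,⟨1,[(21,1),(9,0),(5,0)]⟩⟩]⟩))))) (.Q [0,0,0,0,0,1,
  0,0,0,0,0,-1] (.p false [0,0,0,1] [] (⟨0,[(17,0)]⟩,⟨1,[(16,0),(8,0),(0,0)]⟩) .k 0 (⟨0,[]⟩,⟨0,[]⟩)
  .k .k) (.R ⟨0,false,false,false,[0,0,0,1],[0,1],[1,0,1,1],(⟨0,[(18,0)]⟩,⟨1,[(17,0),(8,0),(0,0)]⟩),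
  (⟨0,[(30,0)]⟩,⟨0,[(29,0)]⟩),⟨0,[(0,0)]⟩,.k,.k,(.x 0 ⟨2,[(2,0),(20,1),(4,0),(0,2)]⟩ ⟨3,[(15,0),(0,
  0),(13,3),(3,1)]⟩),(.x 0 ⟨2,[(2,0),(20,1),(4,0),(0,2)]⟩ ⟨3,[(15,0),(0,0),(13,3),(3,1)]⟩),.k,.k,
  ⟨true,0,⟨0,[]⟩,⟨1,[(23,0),(0,0)]⟩⟩,⟨false,1,⟨0,[(18,0),(15,0)]⟩,⟨1,[(17,0),(2,0),(2,0)]⟩⟩,⟨true,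
  (-1),⟨0,[(1,0)]⟩,⟨1,[(16,0),(15,1),(1,0)]⟩⟩,⟨false,0,⟨1,[(1,1),(16,1),(15,0),(0,0)]⟩,⟨7,[(3,1),(3,
  1),(7,0),(0,4),(0,3)]⟩⟩,⟨false,0,⟨0,[]⟩,⟨0,[]⟩⟩,⟨false,0,⟨0,[]⟩,⟨0,[]⟩⟩,[.o ⟨false,0,⟨0,[(33,0)]⟩,
  ⟨3,[(3,0),(3,0),(7,0),(0,0),(11,0)]⟩⟩,.o ⟨false,1,⟨3,[(15,0),(0,0),(16,3),(1,1)]⟩,⟨0,[(8,0)]⟩⟩,.a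
  ⟨true,0,⟨1,[(17,0),(8,0),(0,0)]⟩,⟨0,[(18,0)]⟩⟩ ⟨false,0,⟨1,[(1,1),(14,0),(18,0)]⟩,⟨1,[(32,1),(1,
  0),(0,0)]⟩⟩ ⟨true,0,⟨0,[(18,0),(14,0)]⟩,⟨1,[(3,0),(13,0),(19,0)]⟩⟩,.o ⟨false,0,⟨1,[(17,0),(2,0),
  (2,0)]⟩,⟨1,[(18,1),(9,0),(5,0)]⟩⟩]⟩) (.R ⟨1,false,false,false,[0,0,0,1],[0,1],[1,1,0,-1,0,0,0,0,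
  1],(⟨0,[(18,0)]⟩,⟨1,[(17,0),(8,0),(0,0)]⟩),(⟨0,[(30,0)]⟩,⟨0,[(29,0)]⟩),⟨0,[(0,0)]⟩,.k,.k,(.x 0 ⟨1,
  [(0,1),(16,0),(2,0),(2,0)]⟩ ⟨3,[(15,0),(0,0),(13,3),(3,1)]⟩),(.x 0 ⟨1,[(0,1),(16,0),(2,0),(2,0)]⟩
  ⟨3,[(15,0),(0,0),(13,3),(3,1)]⟩),(.r (-2) ⟨1,[(3,0),(3,0),(8,0),(9,1),(0,1),(6,1)]⟩ ⟨1,[(1,1),(21,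
  0),(0,0),(8,1)]⟩),.k,⟨true,1,⟨1,[(3,1),(12,0),(9,1),(0,1),(6,0)]⟩,⟨1,[(1,3),(14,0),(18,0)]⟩⟩,
  ⟨false,1,⟨0,[(18,0),(15,0)]⟩,⟨1,[(17,0),(2,0),(2,0)]⟩⟩,⟨true,0,⟨0,[(32,0)]⟩,⟨0,[(33,0)]⟩⟩,⟨false,
  0,⟨1,[(1,1),(16,1),(15,0),(0,0)]⟩,⟨7,[(3,1),(3,1),(7,0),(0,4),(0,3)]⟩⟩,⟨false,0,⟨0,[]⟩,⟨3,[(15,0),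
  (0,0),(18,1)]⟩⟩,⟨false,0,⟨1,[(1,1),(16,1),(14,1),(0,0),(0,0)]⟩,⟨1,[(3,0),(3,0),(8,0),(0,0),(8,0),
  (0,0)]⟩⟩,[.o ⟨false,0,⟨0,[(33,0)]⟩,⟨3,[(3,0),(3,0),(7,0),(0,0),(11,0)]⟩⟩,.o ⟨false,1,⟨3,[(15,0),
  (0,0),(16,3),(1,1)]⟩,⟨0,[(8,0)]⟩⟩,.a ⟨true,0,⟨1,[(17,0),(8,0),(0,0)]⟩,⟨0,[(18,0)]⟩⟩ ⟨false,1,⟨1,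
  [(16,0),(15,1),(2,0)]⟩,⟨1,[(1,1),(32,0),(0,0)]⟩⟩ ⟨true,0,⟨0,[(18,0),(14,0)]⟩,⟨1,[(3,0),(13,0),(19,
  0)]⟩⟩,.o ⟨false,0,⟨1,[(17,0),(2,0),(2,0)]⟩,⟨1,[(18,1),(9,0),(5,0)]⟩⟩]⟩))) (.K ⟨2,[2,-1,-1],(-1),0,
  (⟨0,[(24,0),(2,0)]⟩,⟨0,[(4,0)]⟩),.k,(.r (-2) ⟨1,[(1,0),(3,0),(5,1),(12,1),(0,1),(6,0)]⟩ ⟨1,[(8,1),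
  (12,0),(0,0),(8,1)]⟩),.k,(.r (-2) ⟨1,[(0,0),(4,0),(5,1),(8,1),(8,0)]⟩ ⟨0,[(8,0),(14,0)]⟩),.k,[⟨0,
  [(0,0),(23,0),(0,0)]⟩,⟨0,[(3,0),(4,0),(20,0)]⟩,⟨0,[(0,0),(7,0),(11,0),(2,0),(0,0),(0,0)]⟩,⟨0,[(3,
  0)]⟩]⟩))) (.R ⟨2,true,false,true,[0,1],[1,-1],[1,1,1],(⟨0,[]⟩,⟨0,[]⟩),(⟨0,[(25,0)]⟩,⟨0,[(26,0)]⟩),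
  ⟨0,[]⟩,.k,.k,.k,(.r 1 ⟨1,[(0,0),(5,1),(11,0),(0,0),(9,0)]⟩ ⟨0,[(28,1),(1,0),(0,0)]⟩),.k,.k,⟨true,
  (-1),⟨0,[(0,0),(5,0),(21,0)]⟩,⟨1,[(28,1),(1,0),(0,0)]⟩⟩,⟨false,0,⟨4,[(1,0),(4,0),(9,0),(2,1),(4,
  0),(2,0)]⟩,⟨0,[(22,0),(0,0),(6,0)]⟩⟩,⟨true,0,⟨0,[(28,0)]⟩,⟨0,[(29,0)]⟩⟩,⟨false,1,⟨11,[(3,7),(7,0),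
  (0,0),(11,1),(3,7)]⟩,⟨0,[(0,0),(5,0),(15,0),(0,0),(6,0)]⟩⟩,⟨false,0,⟨0,[]⟩,⟨3,[(11,0),(0,0),(18,
  1)]⟩⟩,⟨true,0,⟨0,[(4,0)]⟩,⟨0,[(22,0),(0,0),(5,0)]⟩⟩,[]⟩)))

theorem ok117 : chk (cU (-1) false 2) t117 l63 = true := by decide +kernel

noncomputable def t130 : Tre :=
  (.Q [0,0,0,0,0,0,1,1,0,1,-1] (.p false [0,0,1] [1] (⟨0,[(19,0)]⟩,⟨0,[(18,0)]⟩) .k 1 (⟨0,[]⟩,⟨0,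
  []⟩) .k .k) (.Q [0,0,0,0,0,0,1,0,0,2,-1] (.p false [-1,1,1] [1] (⟨0,[(2,0)]⟩,⟨0,[(19,0),(2,0)]⟩)
  .k 1 (⟨0,[]⟩,⟨0,[]⟩) .k .k) (.R ⟨0,false,false,true,[-1,1,1],[0,1],[1,0,1],(⟨0,[(3,0)]⟩,⟨0,[(20,
  0),(2,0)]⟩),(⟨0,[(24,0)]⟩,⟨0,[(23,0)]⟩),⟨0,[(20,0)]⟩,.k,.k,.k,.k,.k,.k,⟨false,1,⟨0,[(2,0)]⟩,⟨0,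
  [(27,0),(3,0)]⟩⟩,⟨true,0,⟨0,[(6,0)]⟩,⟨3,[(0,1),(16,2),(0,0)]⟩⟩,⟨false,1,⟨0,[(2,0),(2,0),(11,0),(8,
  0)]⟩,⟨0,[(19,0),(7,0)]⟩⟩,⟨true,0,⟨0,[(13,0)]⟩,⟨0,[(1,0)]⟩⟩,⟨false,0,⟨0,[]⟩,⟨0,[]⟩⟩,⟨false,0,⟨0,
  []⟩,⟨0,[]⟩⟩,[.o ⟨false,0,⟨0,[(27,0),(3,0)]⟩,⟨0,[(2,0),(3,0),(10,0)]⟩⟩,.o ⟨false,0,⟨0,[(27,0)]⟩,⟨1,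
  [(22,0),(3,1),(2,0)]⟩⟩,.o ⟨false,1,⟨0,[(1,0),(5,0)]⟩,⟨0,[(6,1),(10,0)]⟩⟩,.a ⟨true,0,⟨0,[(0,0)]⟩,
  ⟨0,[(6,0)]⟩⟩ ⟨true,0,⟨0,[]⟩,⟨0,[(31,0)]⟩⟩ ⟨false,0,⟨0,[(6,0),(20,0)]⟩,⟨1,[(0,0),(1,0),(14,0),(8,
  0),(2,0)]⟩⟩]⟩) (.I [0,0,2,2,-1] (.R ⟨2,false,false,true,[0,1],[1,-1],[0,1,1,1],(⟨0,[]⟩,⟨0,[]⟩),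
  (⟨0,[(24,0)]⟩,⟨0,[(25,0)]⟩),⟨0,[]⟩,.k,.k,.k,(.r 1 ⟨0,[(0,0)]⟩ ⟨3,[(3,3),(6,0),(0,0),(15,3),(1,
  1)]⟩),.k,.k,⟨true,(-1),⟨0,[(0,0)]⟩,⟨0,[(3,0),(23,0)]⟩⟩,⟨false,0,⟨2,[(1,0),(13,0),(2,1)]⟩,⟨0,[(21,
  0),(0,0),(6,0)]⟩⟩,⟨true,0,⟨0,[(32,0)]⟩,⟨0,[]⟩⟩,⟨false,1,⟨3,[(1,0),(1,2),(14,0),(4,0),(2,1),(0,
  4)]⟩,⟨0,[(2,0),(3,0),(21,0)]⟩⟩,⟨false,0,⟨0,[(28,0)]⟩,⟨0,[(27,0),(2,0)]⟩⟩,⟨false,1,⟨1,[(23,0),(3,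
  1),(2,0)]⟩,⟨0,[(2,0),(3,0)]⟩⟩,[.a ⟨true,0,⟨0,[(27,0)]⟩,⟨0,[(2,0),(3,0)]⟩⟩ ⟨false,0,⟨0,[(28,0),(3,
  0)]⟩,⟨0,[(3,0)]⟩⟩ ⟨true,0,⟨2,[(1,0),(13,0),(2,1),(8,2)]⟩,⟨0,[(2,0),(3,0)]⟩⟩,.o ⟨false,1,⟨1,[(23,
  0),(3,1),(2,0)]⟩,⟨0,[(28,0)]⟩⟩,.o ⟨false,1,⟨3,[(10,0),(0,0),(17,1)]⟩,⟨2,[(1,0),(13,0),(2,1)]⟩⟩,.e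
  ⟨false,0,⟨0,[(28,0)]⟩,⟨0,[(27,0),(2,0)]⟩⟩ ⟨false,1,⟨1,[(23,0),(3,1),(2,0)]⟩,⟨0,[(2,0),(3,0)]⟩⟩]⟩)
  (.I [0,1,0,1,0,0,0,-1] (.R ⟨2,false,false,false,[0,1],[0,0,1],[0,1,1,1],(⟨0,[]⟩,⟨0,[]⟩),(⟨0,[(23,
  0)]⟩,⟨0,[(22,0)]⟩),⟨0,[]⟩,.k,.k,.k,.k,.k,.k,⟨false,0,⟨0,[(0,0)]⟩,⟨1,[(1,0),(19,1),(9,0)]⟩⟩,⟨true,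
  0,⟨0,[(19,0)]⟩,⟨1,[(10,0),(11,0),(0,0)]⟩⟩,⟨true,0,⟨0,[(33,0)]⟩,⟨0,[]⟩⟩,⟨false,1,⟨3,[(1,0),(1,1),
  (2,1),(12,1),(4,0),(6,1)]⟩,⟨1,[(7,0),(10,0),(10,0)]⟩⟩,⟨false,0,⟨0,[(29,0)]⟩,⟨0,[(28,0),(2,0)]⟩⟩,
  ⟨false,1,⟨1,[(3,1),(20,0),(6,0)]⟩,⟨0,[(7,0),(20,0)]⟩⟩,[.a ⟨true,0,⟨0,[(3,0)]⟩,⟨0,[(7,0),(20,0)]⟩⟩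
  ⟨false,0,⟨0,[(29,0),(3,0)]⟩,⟨0,[(4,0)]⟩⟩ ⟨true,0,⟨0,[(19,0),(1,0)]⟩,⟨0,[(7,0),(20,0)]⟩⟩,.o ⟨false,
  1,⟨1,[(3,1),(20,0),(6,0)]⟩,⟨0,[(15,0)]⟩⟩,.o ⟨false,1,⟨3,[(11,0),(0,0),(17,1)]⟩,⟨2,[(2,0),(13,0),
  (2,1)]⟩⟩,.e ⟨false,0,⟨0,[(29,0)]⟩,⟨0,[(28,0),(2,0)]⟩⟩ ⟨false,1,⟨1,[(3,1),(20,0),(6,0)]⟩,⟨0,[(7,0),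
  (20,0)]⟩⟩]⟩) (.Q [0,0,0,0,0,-1,0,0,0,0,1] (.ed false [1,-1,1] .k) (.K ⟨1,[1,1,-1],0,0,(⟨0,[(23,0),
  (3,0)]⟩,⟨0,[(0,0)]⟩),.k,.k,(.r 0 ⟨1,[(8,0),(10,0),(0,2),(0,0),(8,2)]⟩ ⟨0,[(2,0),(19,0)]⟩),.k,.k,
  [⟨0,[(4,0),(14,0),(0,0),(7,0)]⟩,⟨0,[(9,0)]⟩,⟨0,[(4,0),(24,0)]⟩,⟨0,[(8,0)]⟩]⟩) (.Q [0,0,-1,0,0,0,0,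
  1,0,1] (.pp false [-1,1]) (.R ⟨0,false,false,false,[0,1,-1],[1,0,-1],[0,1,1,1,0,0,0,-1],(⟨0,[(1,
  0)]⟩,⟨0,[(25,0),(1,0)]⟩),(⟨0,[(24,0)]⟩,⟨0,[(25,0)]⟩),⟨0,[(25,0)]⟩,.k,.k,.k,.k,.k,.k,⟨false,0,⟨0,
  [(31,0),(3,0)]⟩,⟨0,[(6,0)]⟩⟩,⟨true,0,⟨2,[(4,0),(13,0),(2,1)]⟩,⟨0,[(24,0),(0,0)]⟩⟩,⟨true,0,⟨0,[(35,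
  0)]⟩,⟨0,[]⟩⟩,⟨false,1,⟨1,[(3,0),(22,0),(2,1)]⟩,⟨1,[(5,1),(3,0),(10,0),(10,0)]⟩⟩,⟨false,0,⟨0,[]⟩,
  ⟨0,[]⟩⟩,⟨false,0,⟨0,[]⟩,⟨0,[]⟩⟩,[.a ⟨true,0,⟨0,[(9,0),(20,0)]⟩,⟨0,[(5,0)]⟩⟩ ⟨true,0,⟨0,[(20,0),(0,
  0),(9,0)]⟩,⟨0,[(2,0)]⟩⟩ ⟨false,1,⟨3,[(11,1),(5,1),(3,1),(4,0),(6,0)]⟩,⟨0,[(0,0)]⟩⟩,.o ⟨false,1,⟨0,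
  [(17,0),(15,0)]⟩,⟨0,[(19,0)]⟩⟩,.e ⟨false,0,⟨1,[(9,0),(10,0),(0,1),(9,0)]⟩,⟨3,[(0,1),(2,0),(4,1),
  (17,0),(6,1)]⟩⟩ ⟨false,1,⟨0,[(17,0),(3,0),(11,0)]⟩,⟨0,[(0,0)]⟩⟩,.o ⟨false,0,⟨8,[(0,1),(1,0),(6,0),
  (2,1),(7,1),(1,1)]⟩,⟨1,[(21,1),(4,0),(5,0)]⟩⟩]⟩) (.Q [0,0,-1,0,0,0,-1,0,0,1,1] (.p true [1,-1,1]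
  [] (⟨0,[(25,0),(1,0)]⟩,⟨0,[(1,0)]⟩) .k 0 (⟨0,[]⟩,⟨0,[]⟩) .k .k) (.R ⟨0,false,false,false,[0,1,-1],
  [1,0,-1],[0,1,1,1,0,0,0,-1],(⟨0,[(2,0)]⟩,⟨0,[(26,0),(1,0)]⟩),(⟨0,[(25,0)]⟩,⟨0,[(26,0)]⟩),⟨0,[(26,
  0)]⟩,.k,.k,.k,.k,.k,.k,⟨false,0,⟨0,[(32,0),(3,0)]⟩,⟨0,[(7,0)]⟩⟩,⟨true,0,⟨2,[(5,0),(13,0),(2,1)]⟩,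
  ⟨0,[(25,0),(0,0)]⟩⟩,⟨true,0,⟨0,[(36,0)]⟩,⟨0,[]⟩⟩,⟨false,1,⟨3,[(1,1),(2,0),(4,1),(17,0),(6,1)]⟩,⟨1,
  [(6,1),(3,0),(10,0),(10,0)]⟩⟩,⟨false,0,⟨0,[]⟩,⟨0,[]⟩⟩,⟨false,0,⟨0,[]⟩,⟨0,[]⟩⟩,[.e ⟨true,0,⟨0,[(21,
  0),(0,0),(9,0)]⟩,⟨0,[(3,0)]⟩⟩ ⟨true,0,⟨0,[(1,0)]⟩,⟨2,[(0,0),(5,1),(16,0),(0,0)]⟩⟩,.o ⟨false,1,⟨1,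
  [(1,0),(10,0),(0,0),(20,0)]⟩,⟨0,[(20,0)]⟩⟩,.a ⟨true,0,⟨0,[(0,0)]⟩,⟨0,[(22,0)]⟩⟩ ⟨false,0,⟨1,[(10,
  0),(10,0),(0,1),(9,0)]⟩,⟨1,[(4,0),(19,1),(9,0)]⟩⟩ ⟨true,0,⟨0,[(1,0)]⟩,⟨0,[(0,0),(19,0)]⟩⟩,.o
  ⟨false,0,⟨3,[(0,0),(12,0),(9,0)]⟩,⟨1,[(22,1),(4,0),(5,0)]⟩⟩]⟩) (.Q [0,1,0,-1,0,0,-1,-1,0,-1,1]
  (.p true [0,0,1] [1] (⟨0,[(26,0)]⟩,⟨0,[(25,0)]⟩) .k 1 (⟨0,[]⟩,⟨0,[]⟩) .k .k) (.R ⟨0,false,false,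
  true,[0,0,1],[1,-1],[],(⟨0,[(27,0)]⟩,⟨0,[(26,0)]⟩),(⟨0,[(29,0)]⟩,⟨0,[(30,0)]⟩),⟨0,[(3,0)]⟩,.k,.k,
  .k,.k,.k,.k,⟨true,0,⟨0,[(31,0),(1,0)]⟩,⟨0,[(32,0)]⟩⟩,⟨false,0,⟨0,[(12,0)]⟩,⟨0,[(7,0),(5,0)]⟩⟩,
  ⟨false,1,⟨0,[(13,0),(17,0)]⟩,⟨0,[(25,0)]⟩⟩,⟨true,0,⟨0,[(0,0)]⟩,⟨0,[(7,0),(25,0)]⟩⟩,⟨false,0,⟨0,
  []⟩,⟨0,[]⟩⟩,⟨false,0,⟨0,[]⟩,⟨0,[]⟩⟩,[.a ⟨true,0,⟨0,[(32,0)]⟩,⟨0,[(7,0),(3,0)]⟩⟩ ⟨false,1,⟨3,[(15,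
  0),(0,0),(17,1)]⟩,⟨0,[]⟩⟩ ⟨true,0,⟨2,[(6,0),(7,0),(17,2)]⟩,⟨0,[(7,0),(3,0),(11,0)]⟩⟩,.o ⟨false,1,
  ⟨1,[(28,0),(3,1),(2,0)]⟩,⟨0,[(33,0)]⟩⟩,.o ⟨false,1,⟨7,[(7,3),(5,3),(1,0),(0,0),(6,3),(4,1)]⟩,⟨0,
  [(12,0)]⟩⟩,.o ⟨false,0,⟨0,[(23,0)]⟩,⟨7,[(14,3),(0,0),(0,0),(11,1),(5,3)]⟩⟩]⟩) (.Q [0,0,0,0,0,0,-2,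
  -2,0,-1,2] (.p true [0,0,1] [1,0,-1] (⟨0,[(27,0)]⟩,⟨0,[(26,0)]⟩) .k 2 (⟨0,[(26,0)]⟩,⟨0,[(27,0)]⟩)
  .k (.r 0 ⟨0,[(25,1)]⟩ ⟨2,[(5,0),(5,1),(1,1),(8,1),(0,3)]⟩)) (.Q [0,0,1,0,0,0,2,0,0,1,-2] (.p
  false [0,0,1] [1,0,-1] (⟨0,[(28,0)]⟩,⟨0,[(27,0)]⟩) .k 2 (⟨0,[(27,0)]⟩,⟨0,[(28,0)]⟩) .k (.r 0 ⟨0,
  [(26,1)]⟩ ⟨1,[(0,0),(13,1),(9,1),(2,0),(0,0)]⟩)) (.R ⟨0,false,false,false,[0,0,1],[1,0,-1],[1,0,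
  1],(⟨0,[(29,0)]⟩,⟨0,[(28,0)]⟩),(⟨0,[(28,0)]⟩,⟨0,[(29,0)]⟩),⟨0,[(5,0)]⟩,.k,.k,.k,.k,.k,.k,⟨false,0,
  ⟨0,[(27,0)]⟩,⟨0,[(15,0)]⟩⟩,⟨true,0,⟨0,[(16,0)]⟩,⟨0,[(0,0)]⟩⟩,⟨false,0,⟨4,[(0,2),(0,1),(2,0),(1,1),
  (6,1),(19,0)]⟩,⟨3,[(17,0),(0,0),(8,3),(8,1)]⟩⟩,⟨true,0,⟨0,[(1,0)]⟩,⟨0,[(9,0),(13,0)]⟩⟩,⟨false,0,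
  ⟨0,[]⟩,⟨0,[]⟩⟩,⟨false,0,⟨0,[]⟩,⟨0,[]⟩⟩,[.a ⟨true,0,⟨1,[(1,0),(26,0),(0,0)]⟩,⟨0,[(9,0)]⟩⟩ ⟨false,0,
  ⟨0,[]⟩,⟨3,[(17,0),(0,0),(17,1)]⟩⟩ ⟨true,0,⟨1,[(1,0),(14,0)]⟩,⟨3,[(0,1),(2,0),(5,3),(12,0)]⟩⟩,.o
  ⟨false,1,⟨7,[(1,3),(15,0),(0,0),(11,1),(6,3)]⟩,⟨0,[(23,0)]⟩⟩,.o ⟨false,1,⟨3,[(0,1),(16,0),(0,0),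
  (11,0),(5,0)]⟩,⟨0,[(14,0)]⟩⟩,.o ⟨false,0,⟨0,[(25,0)]⟩,⟨7,[(16,3),(0,0),(0,0),(11,1),(5,3)]⟩⟩]⟩)
  (.R ⟨0,false,false,false,[0,0,1],[1,0,-1],[],(⟨0,[(29,0)]⟩,⟨0,[(28,0)]⟩),(⟨0,[(28,0)]⟩,⟨0,[(29,
  0)]⟩),⟨0,[(5,0)]⟩,.k,.k,.k,.k,.k,.k,⟨true,0,⟨0,[(27,0)]⟩,⟨1,[(1,0),(23,1),(2,0),(0,0)]⟩⟩,⟨false,0,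
  ⟨0,[(0,0)]⟩,⟨0,[(9,0),(5,0),(9,0)]⟩⟩,⟨false,1,⟨0,[(15,0),(17,0)]⟩,⟨0,[(27,0)]⟩⟩,⟨true,0,⟨0,[(1,
  0)]⟩,⟨0,[(9,0),(13,0)]⟩⟩,⟨false,0,⟨0,[]⟩,⟨0,[]⟩⟩,⟨false,0,⟨0,[]⟩,⟨0,[]⟩⟩,[.a ⟨true,0,⟨1,[(1,0),
  (26,0),(0,0)]⟩,⟨0,[(9,0)]⟩⟩ ⟨false,1,⟨3,[(17,0),(0,0),(17,1)]⟩,⟨0,[]⟩⟩ ⟨true,0,⟨1,[(1,0),(14,0)]⟩,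
  ⟨0,[(9,0),(15,0)]⟩⟩,.o ⟨false,1,⟨7,[(1,3),(15,0),(0,0),(11,1),(6,3)]⟩,⟨0,[(23,0)]⟩⟩,.o ⟨false,1,
  ⟨7,[(9,3),(5,3),(1,0),(0,0),(6,3),(4,1)]⟩,⟨0,[(14,0)]⟩⟩,.o ⟨false,0,⟨0,[(25,0)]⟩,⟨3,[(0,1),(16,0),
  (0,0),(11,0),(5,0)]⟩⟩]⟩)) (.Q [0,0,-1,0,0,0,-2,0,0,-1,2] (.p true [0,0,1] [1,0,-1] (⟨0,[(28,0)]⟩,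
  ⟨0,[(27,0)]⟩) .k 2 (⟨0,[(27,0)]⟩,⟨0,[(28,0)]⟩) .k (.r 0 ⟨0,[(26,1)]⟩ ⟨2,[(6,0),(5,1),(1,1),(8,1),
  (0,3)]⟩)) (.R ⟨0,false,false,true,[0,0,1],[1,0,-1],[0,1],(⟨0,[(29,0)]⟩,⟨0,[(28,0)]⟩),(⟨0,[(28,
  0)]⟩,⟨0,[(29,0)]⟩),⟨0,[(5,0)]⟩,.k,.k,.k,.k,.k,.k,⟨true,0,⟨0,[(27,0)]⟩,⟨0,[(4,0),(23,0),(0,0)]⟩⟩,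
  ⟨false,0,⟨0,[(0,0)]⟩,⟨0,[(9,0),(5,0),(9,0)]⟩⟩,⟨false,1,⟨7,[(15,3),(1,0),(0,0),(5,3),(0,3),(11,
  1)]⟩,⟨5,[(2,2),(3,2),(1,0),(7,0)]⟩⟩,⟨true,0,⟨0,[(13,0),(7,0),(12,0)]⟩,⟨0,[(1,0)]⟩⟩,⟨false,0,⟨0,
  []⟩,⟨0,[]⟩⟩,⟨false,0,⟨0,[]⟩,⟨0,[]⟩⟩,[.o ⟨false,0,⟨0,[(21,0)]⟩,⟨7,[(1,3),(15,0),(0,0),(11,1),(6,
  3)]⟩⟩,.a ⟨true,0,⟨0,[(13,0),(20,0)]⟩,⟨0,[(9,0)]⟩⟩ ⟨false,1,⟨3,[(17,0),(0,0),(17,1)]⟩,⟨0,[]⟩⟩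
  ⟨true,0,⟨6,[(0,2),(3,2),(1,1),(6,1),(2,0),(7,3)]⟩,⟨0,[(9,0),(15,0)]⟩⟩,.o ⟨false,1,⟨15,[(1,3),(13,
  7),(1,2),(0,2),(6,7),(4,1)]⟩,⟨0,[(14,0)]⟩⟩,.o ⟨false,0,⟨0,[(25,0)]⟩,⟨3,[(0,1),(16,0),(0,0),(11,0),
  (5,0)]⟩⟩]⟩) (.R ⟨0,false,false,true,[0,0,1],[1,0,-1],[1,1,1],(⟨0,[(29,0)]⟩,⟨0,[(28,0)]⟩),(⟨0,[(28,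
  0)]⟩,⟨0,[(29,0)]⟩),⟨0,[(5,0)]⟩,.k,.k,.k,.k,.k,.k,⟨false,0,⟨0,[(27,0)]⟩,⟨0,[(15,0)]⟩⟩,⟨true,0,⟨0,
  [(16,0)]⟩,⟨0,[(0,0)]⟩⟩,⟨false,0,⟨2,[(0,0),(3,0),(8,0),(10,0),(8,0),(0,0)]⟩,⟨1,[(27,1),(8,0),(0,
  0)]⟩⟩,⟨true,0,⟨0,[(13,0),(7,0),(12,0)]⟩,⟨0,[(1,0)]⟩⟩,⟨false,0,⟨0,[]⟩,⟨0,[]⟩⟩,⟨false,0,⟨0,[]⟩,⟨0,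
  []⟩⟩,[.o ⟨false,0,⟨0,[(21,0)]⟩,⟨7,[(1,3),(15,0),(0,0),(11,1),(6,3)]⟩⟩,.a ⟨true,0,⟨0,[(13,0),(20,
  0)]⟩,⟨0,[(9,0)]⟩⟩ ⟨false,0,⟨0,[]⟩,⟨3,[(17,0),(0,0),(17,1)]⟩⟩ ⟨true,0,⟨3,[(6,1),(6,1),(2,0),(4,2),
  (2,0)]⟩,⟨5,[(0,3),(0,2),(20,0),(3,0)]⟩⟩,.o ⟨false,1,⟨23,[(0,7),(0,3),(13,7),(1,4),(0,4),(11,5)]⟩,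
  ⟨0,[(14,0)]⟩⟩,.o ⟨false,0,⟨0,[(25,0)]⟩,⟨7,[(16,3),(0,0),(0,0),(11,1),(5,3)]⟩⟩]⟩)))))))))) (.Q [0,
  0,0,0,0,1,0,0,0,0,-1] (.ed true [1,-1,1] .k) (.Q [0,0,-1,0,0,0,-1,0,0,1,1] (.p true [1,-1,1] []
  (⟨0,[(21,0),(1,0)]⟩,⟨0,[(0,0)]⟩) .k 0 (⟨0,[]⟩,⟨0,[]⟩) .k .k) (.R ⟨0,false,false,false,[0,1,-1],[1,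
  0,-1],[0,1,1,1,0,0,0,-1],(⟨0,[(1,0)]⟩,⟨0,[(22,0),(1,0)]⟩),(⟨0,[(21,0)]⟩,⟨0,[(22,0)]⟩),⟨0,[(22,
  0)]⟩,.k,.k,.k,.k,.k,.k,⟨false,0,⟨0,[(28,0),(3,0)]⟩,⟨0,[(3,0)]⟩⟩,⟨true,0,⟨0,[(7,0),(10,0)]⟩,⟨0,
  [(21,0),(0,0)]⟩⟩,⟨true,0,⟨0,[(32,0)]⟩,⟨0,[]⟩⟩,⟨false,1,⟨2,[(2,0),(0,1),(1,0),(12,0),(4,0),(2,0)]⟩,
  ⟨0,[(21,0),(0,0),(5,0)]⟩⟩,⟨false,0,⟨0,[]⟩,⟨0,[]⟩⟩,⟨false,0,⟨0,[]⟩,⟨0,[]⟩⟩,[.o ⟨false,0,⟨0,[(2,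
  0)]⟩,⟨3,[(10,0),(0,0),(4,3),(13,1)]⟩⟩,.o ⟨false,1,⟨3,[(2,1),(14,1),(5,0),(6,2)]⟩,⟨0,[(16,0)]⟩⟩,.a
  ⟨true,0,⟨0,[(0,0)]⟩,⟨0,[(18,0)]⟩⟩ ⟨false,0,⟨1,[(6,0),(10,0),(0,1),(9,0)]⟩,⟨0,[(3,0),(16,0)]⟩⟩
  ⟨true,0,⟨0,[(2,0),(15,0)]⟩,⟨0,[(0,0),(15,0)]⟩⟩,.o ⟨false,0,⟨3,[(0,0),(8,0),(9,0)]⟩,⟨1,[(18,1),(4,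
  0),(5,0)]⟩⟩]⟩) (.Q [0,-1,0,1,0,0,0,0,0,1] (.pp false [-1,1]) (.R ⟨0,false,false,true,[0,0,1],[1,
  -1],[],(⟨0,[(23,0)]⟩,⟨0,[(22,0)]⟩),(⟨0,[(25,0)]⟩,⟨0,[(26,0)]⟩),⟨0,[(2,0)]⟩,.k,.k,.k,.k,.k,.k,
  ⟨true,0,⟨1,[(0,1),(0,0),(14,0)]⟩,⟨0,[(28,0)]⟩⟩,⟨false,0,⟨0,[(8,0)]⟩,⟨0,[(19,0),(2,0),(0,0),(6,
  0)]⟩⟩,⟨false,1,⟨0,[(9,0),(17,0)]⟩,⟨0,[(21,0)]⟩⟩,⟨true,0,⟨0,[(3,0),(24,0)]⟩,⟨0,[(0,0),(16,0)]⟩⟩,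
  ⟨false,0,⟨0,[]⟩,⟨0,[]⟩⟩,⟨false,0,⟨0,[]⟩,⟨0,[]⟩⟩,[.a ⟨true,0,⟨0,[(28,0)]⟩,⟨0,[(0,0)]⟩⟩ ⟨false,1,⟨3,
  [(11,0),(0,0),(17,1)]⟩,⟨0,[]⟩⟩ ⟨true,0,⟨0,[(8,0),(19,0)]⟩,⟨0,[(0,0),(18,0)]⟩⟩,.o ⟨false,1,⟨1,[(24,
  0),(3,1),(2,0)]⟩,⟨0,[(29,0)]⟩⟩,.o ⟨false,1,⟨7,[(9,3),(1,0),(0,0),(4,3),(1,3),(11,1)]⟩,⟨0,[(8,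
  0)]⟩⟩,.o ⟨false,0,⟨0,[(19,0)]⟩,⟨7,[(10,3),(0,0),(0,0),(11,1),(5,3)]⟩⟩]⟩) (.I [1,0,-1,-1,1,0,0,0,
  1] (.Q [0,0,0,-1,0,0,0,0,-1,-1,0,1] (.p true [0,0,0,1] [1] (⟨0,[(15,0)]⟩,⟨1,[(14,0),(8,0),(0,
  0)]⟩) .k 1 (⟨0,[]⟩,⟨0,[]⟩) .k .k) (.I [0,0,0,0,0,0,0,-1,-1] (.R ⟨0,false,false,false,[0,0,0,1],[1,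
  0,-1],[1,0,0,0,0,0,0,0,1],(⟨0,[(17,0)]⟩,⟨1,[(16,0),(8,0),(0,0)]⟩),(⟨0,[(25,0)]⟩,⟨0,[(26,0)]⟩),⟨1,
  [(5,0),(2,0),(7,0)]⟩,.k,.k,(.x 0 ⟨1,[(4,0),(14,0),(8,1)]⟩ ⟨3,[(14,0),(0,0),(13,3),(3,1)]⟩),.k,.k,
  .k,⟨false,1,⟨1,[(15,0),(8,1),(8,0)]⟩,⟨0,[(0,0)]⟩⟩,⟨true,0,⟨0,[(11,0),(5,0)]⟩,⟨1,[(16,0),(5,1),(2,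
  0),(0,0)]⟩⟩,⟨true,0,⟨0,[]⟩,⟨0,[(36,0)]⟩⟩,⟨false,0,⟨0,[(1,0),(8,0)]⟩,⟨1,[(15,0),(0,0),(3,1),(4,0),
  (0,0),(7,0)]⟩⟩,⟨false,0,⟨0,[]⟩,⟨0,[]⟩⟩,⟨false,0,⟨0,[]⟩,⟨0,[]⟩⟩,[.o ⟨false,0,⟨0,[(6,0)]⟩,⟨3,[(14,
  0),(0,0),(4,3),(13,1)]⟩⟩,.o ⟨false,1,⟨3,[(6,1),(14,1),(5,0),(6,2)]⟩,⟨0,[(20,0)]⟩⟩,.a ⟨true,0,⟨1,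
  [(16,0),(8,0),(0,0)]⟩,⟨0,[(17,0)]⟩⟩ ⟨false,1,⟨1,[(15,0),(18,0)]⟩,⟨0,[(0,0),(23,0)]⟩⟩ ⟨true,0,⟨0,
  [(6,0),(10,0)]⟩,⟨1,[(16,0),(3,1),(4,0),(0,0)]⟩⟩,.o ⟨false,0,⟨1,[(16,0),(2,0),(2,0)]⟩,⟨1,[(17,1),
  (9,0),(5,0)]⟩⟩]⟩) (.Q [0,1,0,1,0,0,0,0,1,1,0,-1] (.p false [0,0,0,1] [1] (⟨0,[(17,0)]⟩,⟨1,[(16,0),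
  (8,0),(0,0)]⟩) .k 1 (⟨0,[]⟩,⟨0,[]⟩) .k .k) (.R ⟨0,false,false,false,[0,0,0,1],[1,-1],[0,1],(⟨0,
  [(18,0)]⟩,⟨1,[(17,0),(8,0),(0,0)]⟩),(⟨0,[(29,0)]⟩,⟨0,[(30,0)]⟩),⟨1,[(6,0),(2,0),(7,0)]⟩,.k,.k,(.x
  0 ⟨1,[(5,0),(14,0),(8,1)]⟩ ⟨3,[(15,0),(0,0),(13,3),(3,1)]⟩),(.r 0 ⟨5,[(0,3),(0,1),(3,2),(5,1),(6,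
  3),(1,0),(10,1)]⟩ ⟨5,[(2,1),(5,1),(6,1),(1,0),(8,0),(0,0),(4,1),(1,1)]⟩),.k,.k,⟨false,0,⟨0,[(33,
  0),(3,0)]⟩,⟨0,[(8,0)]⟩⟩,⟨true,0,⟨1,[(5,0),(12,1),(1,0)]⟩,⟨1,[(17,0),(8,0),(0,0)]⟩⟩,⟨false,0,⟨1,
  [(2,1),(14,0),(8,0),(0,0),(5,1)]⟩,⟨1,[(16,0),(18,0)]⟩⟩,⟨true,0,⟨0,[(2,0)]⟩,⟨0,[(0,0)]⟩⟩,⟨false,0,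
  ⟨0,[]⟩,⟨0,[]⟩⟩,⟨false,0,⟨0,[]⟩,⟨0,[]⟩⟩,[.o ⟨false,1,⟨1,[(28,0),(3,1),(2,0)]⟩,⟨0,[(33,0)]⟩⟩,.o
  ⟨false,1,⟨1,[(5,0),(2,1),(11,0)]⟩,⟨0,[(33,0),(3,0)]⟩⟩,.a ⟨true,0,⟨1,[(17,0),(8,0),(0,0)]⟩,⟨0,[(18,
  0)]⟩⟩ ⟨true,0,⟨0,[(37,0)]⟩,⟨0,[]⟩⟩ ⟨false,1,⟨1,[(2,1),(13,0),(18,0)]⟩,⟨1,[(17,0),(8,0),(0,0),(5,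
  1)]⟩⟩,.o ⟨false,0,⟨1,[(17,0),(2,0),(2,0)]⟩,⟨1,[(18,1),(9,0),(5,0)]⟩⟩]⟩) (.Q [0,0,0,0,0,1,0,0,0,-1,
  0,1] (.p true [0,0,0,1] [1] (⟨0,[(18,0)]⟩,⟨1,[(17,0),(8,0),(0,0)]⟩) .k 1 (⟨0,[]⟩,⟨0,[]⟩) .k .k)
  (.R ⟨0,false,false,true,[1,0,0,-1],[1,-1],[0,1,0,0,0,0,0,0,-1],(⟨1,[(18,0),(8,0),(0,0)]⟩,⟨0,[(19,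
  0)]⟩),(⟨0,[(30,0)]⟩,⟨0,[(31,0)]⟩),⟨0,[(0,0)]⟩,.k,.k,(.r (-1) ⟨7,[(1,1),(7,1),(6,2),(1,0),(8,0),(0,
  0),(4,3),(1,2)]⟩ ⟨1,[(2,1),(9,0),(10,0),(0,1),(9,0)]⟩),(.x (-1) ⟨3,[(16,0),(0,0),(13,3),(3,1)]⟩
  ⟨1,[(6,0),(14,0),(8,1)]⟩),.k,.k,⟨false,0,⟨1,[(3,1),(14,0),(8,0),(0,0),(5,3)]⟩,⟨0,[(4,0)]⟩⟩,⟨true,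
  0,⟨1,[(18,0),(2,0),(2,0)]⟩,⟨0,[(19,0)]⟩⟩,⟨true,0,⟨0,[(38,0)]⟩,⟨0,[]⟩⟩,⟨false,1,⟨3,[(4,1),(1,0),
  (10,0),(0,1),(2,0),(11,1),(2,0)]⟩,⟨0,[(1,0),(25,0),(0,0),(5,1)]⟩⟩,⟨false,0,⟨0,[]⟩,⟨0,[]⟩⟩,⟨false,
  0,⟨0,[]⟩,⟨0,[]⟩⟩,[.o ⟨false,0,⟨0,[(5,0)]⟩,⟨3,[(16,0),(0,0),(16,3),(1,1)]⟩⟩,.o ⟨false,1,⟨1,[(29,0),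
  (3,1),(2,0)]⟩,⟨0,[(34,0)]⟩⟩,.a ⟨true,0,⟨0,[(19,0)]⟩,⟨1,[(18,0),(8,0),(0,0)]⟩⟩ ⟨false,0,⟨1,[(3,1),
  (14,0),(8,0),(0,0),(5,1)]⟩,⟨1,[(17,0),(18,0)]⟩⟩ ⟨true,0,⟨1,[(5,0),(12,0),(14,0)]⟩,⟨0,[(19,0),(14,
  0)]⟩⟩,.o ⟨false,0,⟨1,[(6,0),(12,1),(1,0)]⟩,⟨7,[(16,0),(0,0),(0,3),(10,1),(5,3)]⟩⟩]⟩) (.R ⟨1,false,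
  false,true,[1,0,0,-1],[1,-1],[0,1,0,0,0,0,0,0,-1],(⟨1,[(18,0),(8,0),(0,0)]⟩,⟨0,[(19,0)]⟩),(⟨0,
  [(30,0)]⟩,⟨0,[(31,0)]⟩),⟨0,[(0,0)]⟩,.k,.k,(.r (-1) ⟨7,[(1,1),(7,1),(6,2),(1,0),(8,0),(0,0),(4,3),
  (1,2)]⟩ ⟨1,[(2,1),(9,0),(10,0),(0,1),(9,0)]⟩),(.x (-1) ⟨3,[(16,0),(0,0),(13,3),(3,1)]⟩ ⟨1,[(6,0),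
  (14,0),(8,1)]⟩),.k,.k,⟨false,0,⟨1,[(3,1),(14,0),(8,0),(0,0),(5,3)]⟩,⟨0,[(4,0)]⟩⟩,⟨true,0,⟨1,[(18,
  0),(2,0),(2,0)]⟩,⟨0,[(19,0)]⟩⟩,⟨true,0,⟨0,[(38,0)]⟩,⟨0,[]⟩⟩,⟨false,1,⟨3,[(4,1),(1,0),(10,0),(0,1),
  (2,0),(11,1),(2,0)]⟩,⟨0,[(1,0),(25,0),(0,0),(5,1)]⟩⟩,⟨false,0,⟨0,[(34,0)]⟩,⟨0,[(33,0),(2,0)]⟩⟩,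
  ⟨false,1,⟨7,[(16,0),(0,4),(0,3),(10,1)]⟩,⟨0,[(1,0),(25,0),(0,0),(5,0)]⟩⟩,[.o ⟨false,0,⟨0,[(5,0)]⟩,
  ⟨3,[(16,0),(0,0),(16,3),(1,1)]⟩⟩,.o ⟨false,1,⟨1,[(29,0),(3,1),(2,0)]⟩,⟨0,[(34,0)]⟩⟩,.a ⟨true,0,⟨0,
  [(19,0)]⟩,⟨1,[(18,0),(8,0),(0,0)]⟩⟩ ⟨false,0,⟨1,[(3,1),(14,0),(8,0),(0,0),(5,1)]⟩,⟨1,[(17,0),(18,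
  0)]⟩⟩ ⟨true,0,⟨1,[(5,0),(12,0),(14,0)]⟩,⟨0,[(19,0),(14,0)]⟩⟩,.o ⟨false,0,⟨1,[(6,0),(12,1),(1,0)]⟩,
  ⟨7,[(16,0),(0,0),(0,3),(10,1),(5,3)]⟩⟩]⟩)))) (.Q [0,-1,0,1,0,0,0,0,1,1,0,-1] (.p false [0,0,0,1]
  [1] (⟨0,[(16,0)]⟩,⟨1,[(15,0),(8,0),(0,0)]⟩) .k 1 (⟨0,[]⟩,⟨0,[]⟩) .k .k) (.I [0,0,-1,-1,1,0,0,0,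
  -1] (.R ⟨0,false,false,true,[0,0,0,1],[1,-1],[0,1,0,0,0,0,0,0,1],(⟨0,[(18,0)]⟩,⟨1,[(17,0),(8,0),
  (0,0)]⟩),(⟨0,[(29,0)]⟩,⟨0,[(30,0)]⟩),⟨1,[(6,0),(2,0),(7,0)]⟩,.k,.k,(.x 0 ⟨1,[(5,0),(14,0),(8,1)]⟩
  ⟨3,[(15,0),(0,0),(13,3),(3,1)]⟩),(.r 0 ⟨1,[(2,1),(2,0),(12,1),(1,0)]⟩ ⟨0,[(0,0)]⟩),.k,.k,⟨false,0,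
  ⟨0,[(1,0),(5,0),(10,0),(2,0)]⟩,⟨0,[(0,0)]⟩⟩,⟨true,0,⟨1,[(5,0),(12,1),(1,0)]⟩,⟨1,[(17,0),(8,0),(0,
  0)]⟩⟩,⟨true,0,⟨0,[(37,0)]⟩,⟨0,[]⟩⟩,⟨false,1,⟨1,[(0,1),(4,0),(12,1),(1,0)]⟩,⟨0,[(1,0)]⟩⟩,⟨false,0,
  ⟨0,[]⟩,⟨0,[]⟩⟩,⟨false,0,⟨0,[]⟩,⟨0,[]⟩⟩,[.o ⟨false,0,⟨0,[(4,0)]⟩,⟨3,[(15,0),(0,0),(16,3),(1,1)]⟩⟩,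
  .o ⟨false,1,⟨1,[(28,0),(3,1),(2,0)]⟩,⟨0,[(33,0)]⟩⟩,.a ⟨true,0,⟨1,[(17,0),(8,0),(0,0)]⟩,⟨0,[(18,
  0)]⟩⟩ ⟨false,0,⟨0,[(1,0),(2,0),(13,0)]⟩,⟨1,[(15,0),(19,0)]⟩⟩ ⟨true,0,⟨0,[(4,0),(13,0)]⟩,⟨1,[(17,
  0),(8,0),(0,0),(5,1)]⟩⟩,.o ⟨false,0,⟨1,[(17,0),(2,0),(2,0)]⟩,⟨1,[(18,1),(9,0),(5,0)]⟩⟩]⟩) (.R ⟨0,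
  false,false,true,[0,0,0,1],[1,-1],[0,1,-1,-1],(⟨0,[(18,0)]⟩,⟨1,[(17,0),(8,0),(0,0)]⟩),(⟨0,[(29,
  0)]⟩,⟨0,[(30,0)]⟩),⟨1,[(6,0),(2,0),(7,0)]⟩,.k,.k,(.r (-1) ⟨0,[(0,0),(3,1),(0,1),(4,1),(0,1),(17,
  3),(0,3),(3,1)]⟩ ⟨0,[(0,0),(14,0)]⟩),(.x (-1) ⟨3,[(15,0),(0,0),(13,3),(3,1)]⟩ ⟨1,[(5,0),(14,0),(8,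
  1)]⟩),.k,.k,⟨false,1,⟨3,[(15,0),(0,0),(17,1)]⟩,⟨0,[]⟩⟩,⟨true,0,⟨1,[(5,0),(12,1),(1,0)]⟩,⟨1,[(17,
  0),(8,0),(0,0)]⟩⟩,⟨true,1,⟨1,[(15,0),(16,1),(1,0)]⟩,⟨0,[(0,0)]⟩⟩,⟨false,1,⟨3,[(4,1),(0,0),(2,1),
  (6,1),(2,3),(1,0)]⟩,⟨0,[(1,0)]⟩⟩,⟨false,0,⟨0,[]⟩,⟨0,[]⟩⟩,⟨false,0,⟨0,[]⟩,⟨0,[]⟩⟩,[.o ⟨false,0,⟨0,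
  [(4,0)]⟩,⟨3,[(15,0),(0,0),(16,3),(1,1)]⟩⟩,.o ⟨false,1,⟨1,[(28,0),(3,1),(2,0)]⟩,⟨0,[(33,0)]⟩⟩,.a
  ⟨true,0,⟨1,[(17,0),(8,0),(0,0)]⟩,⟨0,[(18,0)]⟩⟩ ⟨false,1,⟨5,[(3,1),(4,1),(6,0),(16,1),(1,0)]⟩,⟨1,
  [(0,1),(14,0),(19,0)]⟩⟩ ⟨true,0,⟨0,[(4,0),(13,0)]⟩,⟨1,[(17,0),(8,0),(0,0),(5,1)]⟩⟩,.o ⟨false,0,⟨1,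
  [(17,0),(2,0),(2,0)]⟩,⟨1,[(18,1),(9,0),(5,0)]⟩⟩]⟩)) (.R ⟨0,false,false,true,[0,0,0,1],[1,-1],[0,1,
  -1,-1],(⟨0,[(17,0)]⟩,⟨1,[(16,0),(8,0),(0,0)]⟩),(⟨0,[(28,0)]⟩,⟨0,[(29,0)]⟩),⟨1,[(5,0),(2,0),(7,
  0)]⟩,.k,.k,(.r (-1) ⟨0,[(1,0),(1,0),(3,0),(9,0)]⟩ ⟨1,[(0,1),(15,0),(8,0),(0,0),(3,1),(1,3)]⟩),(.r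
  0 ⟨1,[(1,1),(2,0),(12,1),(1,0)]⟩ ⟨3,[(0,1),(6,1),(6,0),(1,0),(8,0),(0,0),(6,0)]⟩),.k,.k,⟨false,1,
  ⟨3,[(14,0),(0,0),(17,1)]⟩,⟨0,[]⟩⟩,⟨true,0,⟨1,[(4,0),(12,1),(1,0)]⟩,⟨1,[(16,0),(8,0),(0,0)]⟩⟩,
  ⟨false,1,⟨3,[(0,1),(6,1),(6,0),(1,0),(8,0),(0,0),(6,0)]⟩,⟨0,[(1,0),(2,0),(4,0),(0,0),(6,0)]⟩⟩,
  ⟨true,0,⟨0,[(0,0)]⟩,⟨0,[(1,0)]⟩⟩,⟨false,0,⟨0,[]⟩,⟨0,[]⟩⟩,⟨false,0,⟨0,[]⟩,⟨0,[]⟩⟩,[.o ⟨false,0,⟨0,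
  [(3,0)]⟩,⟨3,[(14,0),(0,0),(16,3),(1,1)]⟩⟩,.o ⟨false,1,⟨1,[(27,0),(3,1),(2,0)]⟩,⟨0,[(32,0)]⟩⟩,.a
  ⟨true,0,⟨1,[(16,0),(8,0),(0,0)]⟩,⟨0,[(17,0)]⟩⟩ ⟨false,1,⟨5,[(2,1),(4,1),(6,0),(16,1),(1,0)]⟩,⟨0,
  [(30,0),(1,0)]⟩⟩ ⟨true,0,⟨0,[(3,0),(13,0)]⟩,⟨1,[(16,0),(8,0),(0,0),(5,1)]⟩⟩,.o ⟨false,0,⟨1,[(16,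
  0),(2,0),(2,0)]⟩,⟨1,[(17,1),(9,0),(5,0)]⟩⟩]⟩))) (.R ⟨0,false,false,false,[0,0,0,1],[0,1],[0,1,1],
  (⟨0,[(15,0)]⟩,⟨1,[(14,0),(8,0),(0,0)]⟩),(⟨0,[(27,0)]⟩,⟨0,[(26,0)]⟩),⟨1,[(3,0),(2,0),(7,0)]⟩,.k,.k,
  (.r (-2) ⟨7,[(5,3),(6,2),(0,6),(15,3),(1,1)]⟩ ⟨0,[(0,0)]⟩),(.r (-2) ⟨7,[(5,3),(6,2),(0,6),(15,3),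
  (1,1)]⟩ ⟨0,[(0,0)]⟩),.k,.k,⟨true,0,⟨0,[(29,0)]⟩,⟨1,[(0,1),(12,0),(18,0)]⟩⟩,⟨false,1,⟨0,[(15,0),
  (15,0)]⟩,⟨1,[(14,0),(2,0),(2,0)]⟩⟩,⟨true,(-1),⟨0,[(0,0),(28,0)]⟩,⟨1,[(13,0),(17,0)]⟩⟩,⟨false,0,⟨1,
  [(0,1),(14,1),(15,0),(0,0)]⟩,⟨3,[(2,0),(2,1),(7,1),(0,1),(2,0),(11,1)]⟩⟩,⟨false,0,⟨0,[]⟩,⟨0,[]⟩⟩,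
  ⟨false,0,⟨0,[]⟩,⟨0,[]⟩⟩,[.o ⟨false,0,⟨0,[(30,0)]⟩,⟨1,[(25,0),(3,1),(2,0)]⟩⟩,.o ⟨false,1,⟨3,[(12,
  0),(0,0),(16,3),(1,1)]⟩,⟨0,[(1,0)]⟩⟩,.a ⟨true,0,⟨1,[(14,0),(8,0),(0,0)]⟩,⟨0,[(15,0)]⟩⟩ ⟨false,0,
  ⟨1,[(20,0),(0,0)]⟩,⟨1,[(31,0),(0,0)]⟩⟩ ⟨true,0,⟨0,[(15,0),(14,0)]⟩,⟨1,[(1,0),(12,0),(14,0)]⟩⟩,.o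
  ⟨false,0,⟨1,[(14,0),(2,0),(2,0)]⟩,⟨1,[(15,1),(9,0),(5,0)]⟩⟩]⟩)))) (.Q [0,1,0,-1,0,0,1,1,0,1,-1]
  (.p false [0,0,1] [1] (⟨0,[(21,0)]⟩,⟨0,[(20,0)]⟩) .k 1 (⟨0,[]⟩,⟨0,[]⟩) .k .k) (.K ⟨1,[1,1,-1],0,0,
  (⟨0,[(21,0),(3,0)]⟩,⟨0,[(1,0)]⟩),.k,.k,(.x (-1) ⟨0,[(7,0),(13,0),(3,1),(3,0)]⟩ ⟨0,[(1,0),(5,0),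
  (10,1),(5,0)]⟩),.k,.k,[⟨1,[(18,2),(0,0),(1,1),(0,1)]⟩,⟨0,[(7,0)]⟩,⟨0,[(0,0)]⟩,⟨0,[(6,0)]⟩]⟩) (.Q
  [0,-1,0,1,0,0,0,0,0,1] (.pp false [-1,1]) (.R ⟨0,false,false,false,[-1,1,1],[0,1],[1,0,1],(⟨0,[(5,
  0)]⟩,⟨0,[(22,0),(2,0)]⟩),(⟨0,[(26,0)]⟩,⟨0,[(25,0)]⟩),⟨0,[(22,0)]⟩,.k,.k,.k,.k,.k,.k,⟨false,1,⟨7,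
  [(4,3),(6,0),(0,0),(15,3),(1,1)]⟩,⟨0,[(29,0)]⟩⟩,⟨true,0,⟨0,[(8,0)]⟩,⟨0,[(19,0),(2,0),(0,0)]⟩⟩,
  ⟨false,1,⟨0,[(4,0),(2,0),(11,0),(8,0)]⟩,⟨0,[(21,0),(7,0)]⟩⟩,⟨true,0,⟨0,[(3,0)]⟩,⟨0,[(17,0),(4,0),
  (0,0)]⟩⟩,⟨false,0,⟨0,[]⟩,⟨0,[]⟩⟩,⟨false,0,⟨0,[]⟩,⟨0,[]⟩⟩,[.o ⟨false,0,⟨0,[(29,0)]⟩,⟨1,[(24,0),(3,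
  1),(2,0)]⟩⟩,.a ⟨true,0,⟨0,[(0,0)]⟩,⟨0,[(28,0)]⟩⟩ ⟨true,0,⟨0,[(27,0)]⟩,⟨0,[(33,0)]⟩⟩ ⟨false,0,⟨0,
  [(1,0),(19,0)]⟩,⟨0,[(19,0),(2,0),(0,0),(4,0),(1,0)]⟩⟩,.o ⟨false,1,⟨0,[(19,0),(2,0),(0,0),(6,0)]⟩,
  ⟨0,[(8,1),(10,0)]⟩⟩,.o ⟨false,1,⟨4,[(0,0),(3,0),(4,1),(1,0),(0,0),(4,1),(1,2),(2,3),(0,3)]⟩,⟨0,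
  [(1,0),(1,0),(2,0),(10,0)]⟩⟩]⟩) (.I [0,0,0,0,0,0,0,-1,-1] (.Q [0,0,0,0,0,1,0,0,0,0,0,-1] (.p
  false [0,0,0,1] [] (⟨0,[(15,0)]⟩,⟨1,[(14,0),(8,0),(0,0)]⟩) .k 0 (⟨0,[]⟩,⟨0,[]⟩) .k .k) (.R ⟨0,
  false,false,false,[0,0,0,1],[1,0,-1],[1,0,0,0,0,0,0,0,1],(⟨0,[(16,0)]⟩,⟨1,[(15,0),(8,0),(0,0)]⟩),
  (⟨0,[(24,0)]⟩,⟨0,[(25,0)]⟩),⟨0,[(0,0)]⟩,.k,.k,(.x 0 ⟨0,[(10,0),(10,0),(5,0)]⟩ ⟨3,[(13,0),(0,0),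
  (13,3),(3,1)]⟩),.k,.k,.k,⟨false,1,⟨1,[(14,0),(8,1),(8,0)]⟩,⟨0,[(1,0)]⟩⟩,⟨true,0,⟨0,[(10,0),(5,
  0)]⟩,⟨1,[(15,0),(5,1),(2,0),(0,0)]⟩⟩,⟨true,0,⟨0,[]⟩,⟨0,[(35,0)]⟩⟩,⟨false,0,⟨0,[(1,0),(1,0),(4,0),
  (7,0)]⟩,⟨1,[(14,0),(0,0),(3,1),(4,0),(0,0),(7,0)]⟩⟩,⟨false,0,⟨0,[]⟩,⟨0,[]⟩⟩,⟨false,0,⟨0,[]⟩,⟨0,
  []⟩⟩,[.o ⟨false,0,⟨0,[(5,0)]⟩,⟨3,[(13,0),(0,0),(4,3),(13,1)]⟩⟩,.o ⟨false,1,⟨3,[(5,1),(14,1),(5,0),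
  (6,2)]⟩,⟨0,[(19,0)]⟩⟩,.a ⟨true,0,⟨1,[(15,0),(8,0),(0,0)]⟩,⟨0,[(16,0)]⟩⟩ ⟨false,1,⟨1,[(14,0),(18,
  0)]⟩,⟨0,[(1,0),(21,0)]⟩⟩ ⟨true,0,⟨0,[(5,0),(10,0)]⟩,⟨1,[(15,0),(3,1),(4,0),(0,0)]⟩⟩,.o ⟨false,0,
  ⟨1,[(15,0),(2,0),(2,0)]⟩,⟨1,[(16,1),(9,0),(5,0)]⟩⟩]⟩) (.R ⟨1,false,false,false,[0,0,0,1],[1,0,-1],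
  [0,0,0,0,0,0,0,0,1],(⟨0,[(16,0)]⟩,⟨1,[(15,0),(8,0),(0,0)]⟩),(⟨0,[(24,0)]⟩,⟨0,[(25,0)]⟩),⟨0,[(0,
  0)]⟩,.k,.k,(.x 0 ⟨1,[(0,1),(14,0),(2,0),(2,0)]⟩ ⟨3,[(13,0),(0,0),(13,3),(3,1)]⟩),.k,(.r (-1) ⟨1,
  [(8,1),(5,0),(17,0)]⟩ ⟨1,[(1,1),(19,0),(0,0),(8,1)]⟩),.k,⟨false,1,⟨1,[(14,0),(8,1),(8,0)]⟩,⟨0,[(1,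
  0)]⟩⟩,⟨true,0,⟨0,[(10,0),(5,0)]⟩,⟨1,[(15,0),(5,1),(2,0),(0,0)]⟩⟩,⟨false,1,⟨3,[(13,0),(0,0),(18,
  1)]⟩,⟨0,[]⟩⟩,⟨false,0,⟨0,[(1,0),(1,0),(4,0),(7,0)]⟩,⟨1,[(14,0),(0,0),(3,1),(4,0),(0,0),(7,0)]⟩⟩,
  ⟨true,0,⟨0,[(31,0)]⟩,⟨0,[(30,0)]⟩⟩,⟨false,0,⟨0,[(1,0),(1,0),(12,0),(6,0)]⟩,⟨1,[(6,0),(1,0),(5,0),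
  (0,0),(3,0),(1,0),(2,0),(0,0)]⟩⟩,[.o ⟨false,0,⟨0,[(5,0)]⟩,⟨3,[(13,0),(0,0),(4,3),(13,1)]⟩⟩,.o
  ⟨false,1,⟨3,[(5,1),(14,1),(5,0),(6,2)]⟩,⟨0,[(19,0)]⟩⟩,.a ⟨true,0,⟨1,[(15,0),(8,0),(0,0)]⟩,⟨0,[(16,
  0)]⟩⟩ ⟨false,1,⟨1,[(14,0),(18,0)]⟩,⟨0,[(1,0),(21,0)]⟩⟩ ⟨true,0,⟨0,[(5,0),(10,0)]⟩,⟨1,[(15,0),(3,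
  1),(4,0),(0,0)]⟩⟩,.o ⟨false,0,⟨1,[(15,0),(2,0),(2,0)]⟩,⟨1,[(16,1),(9,0),(5,0)]⟩⟩]⟩)) (.I [0,-1,-1,
  0,1,0,0,0,-1] (.Q [0,-1,0,2,0,0,0,0,0,1] (.pp false [-1,1]) (.I [0,0,2,2,-1] (.R ⟨2,true,false,
  true,[0,1],[1,-1],[0,1,1,1],(⟨0,[]⟩,⟨0,[]⟩),(⟨0,[(29,0)]⟩,⟨0,[(30,0)]⟩),⟨0,[]⟩,.k,.k,.k,(.r 1 ⟨0,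
  [(0,0)]⟩ ⟨3,[(8,3),(6,0),(0,0),(15,3),(1,1)]⟩),.k,.k,⟨true,(-1),⟨0,[(0,0)]⟩,⟨0,[(8,0),(23,0)]⟩⟩,
  ⟨false,0,⟨3,[(0,0),(3,1),(23,0),(2,1)]⟩,⟨0,[(26,0),(0,0),(6,0)]⟩⟩,⟨true,0,⟨0,[(37,0)]⟩,⟨0,[]⟩⟩,
  ⟨false,1,⟨0,[(4,0),(27,0),(2,0)]⟩,⟨0,[(1,0)]⟩⟩,⟨false,0,⟨0,[(33,0)]⟩,⟨0,[(32,0),(2,0)]⟩⟩,⟨true,0,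
  ⟨0,[(4,0)]⟩,⟨1,[(1,0),(24,0),(0,0),(9,0)]⟩⟩,[]⟩) (.I [0,0,0,-1,0,0,0,0,1] (.Q [0,0,0,0,0,1,0,0,0,
  0,0,-1] (.p false [0,0,0,1] [] (⟨0,[(19,0)]⟩,⟨1,[(18,0),(8,0),(0,0)]⟩) .k 0 (⟨0,[]⟩,⟨0,[]⟩) .k
  .k) (.Q [0,-1,0,1,0,0,0,0,1,1,0,-1] (.p false [0,0,0,1] [1] (⟨0,[(20,0)]⟩,⟨1,[(19,0),(8,0),(0,
  0)]⟩) .k 1 (⟨0,[]⟩,⟨0,[]⟩) .k .k) (.R ⟨0,false,false,true,[0,0,0,1],[1,-1],[0,1,0,-1,0,0,0,0,1],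
  (⟨0,[(21,0)]⟩,⟨1,[(20,0),(8,0),(0,0)]⟩),(⟨0,[(32,0)]⟩,⟨0,[(33,0)]⟩),⟨0,[(1,0)]⟩,.k,.k,(.x 0 ⟨0,
  [(15,0),(10,0),(5,0)]⟩ ⟨3,[(18,0),(0,0),(13,3),(3,1)]⟩),(.r 0 ⟨2,[(4,0),(1,2),(1,0),(16,1),(0,
  2)]⟩ ⟨1,[(3,0),(14,0)]⟩),.k,.k,⟨false,0,⟨0,[(2,0),(33,0)]⟩,⟨1,[(18,0),(18,0)]⟩⟩,⟨true,0,⟨0,[(15,
  0),(5,0),(4,0)]⟩,⟨1,[(20,0),(8,0),(0,0)]⟩⟩,⟨true,0,⟨0,[(35,0)]⟩,⟨0,[(36,0)]⟩⟩,⟨false,1,⟨3,[(3,0),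
  (3,1),(10,1),(2,3),(9,0),(2,1)]⟩,⟨0,[(0,0)]⟩⟩,⟨false,0,⟨0,[]⟩,⟨0,[]⟩⟩,⟨false,0,⟨0,[]⟩,⟨0,[]⟩⟩,[.o
  ⟨false,0,⟨0,[(7,0)]⟩,⟨3,[(4,1),(13,0),(0,0),(11,0),(6,0)]⟩⟩,.o ⟨false,1,⟨1,[(31,0),(3,1),(2,0)]⟩,
  ⟨0,[(36,0)]⟩⟩,.a ⟨true,0,⟨1,[(20,0),(8,0),(0,0)]⟩,⟨0,[(21,0)]⟩⟩ ⟨false,0,⟨0,[(2,0)]⟩,⟨3,[(4,1),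
  (13,1),(12,0),(6,0)]⟩⟩ ⟨true,0,⟨0,[(7,0),(13,0)]⟩,⟨1,[(4,0),(15,0),(19,0)]⟩⟩,.o ⟨false,0,⟨1,[(20,
  0),(2,0),(2,0)]⟩,⟨1,[(21,1),(9,0),(5,0)]⟩⟩]⟩) (.R ⟨0,false,false,true,[0,0,0,1],[1,-1],[1,1,0,0,0,
  0,0,0,1],(⟨0,[(21,0)]⟩,⟨1,[(20,0),(8,0),(0,0)]⟩),(⟨0,[(32,0)]⟩,⟨0,[(33,0)]⟩),⟨0,[(1,0)]⟩,.k,.k,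
  (.x 0 ⟨0,[(15,0),(10,0),(5,0)]⟩ ⟨3,[(18,0),(0,0),(13,3),(3,1)]⟩),(.r 0 ⟨2,[(4,0),(1,2),(1,0),(16,
  1),(0,2)]⟩ ⟨1,[(3,0),(14,0)]⟩),.k,.k,⟨false,0,⟨0,[(2,0),(33,1)]⟩,⟨1,[(3,0),(14,0)]⟩⟩,⟨true,0,⟨2,
  [(0,0),(5,0),(1,0),(12,1),(1,0),(2,1)]⟩,⟨1,[(20,0),(8,0),(0,0)]⟩⟩,⟨false,0,⟨0,[]⟩,⟨3,[(18,0),(0,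
  0),(18,1)]⟩⟩,⟨true,0,⟨0,[(0,0)]⟩,⟨1,[(2,1),(1,0),(15,0),(15,1),(3,0)]⟩⟩,⟨false,0,⟨0,[]⟩,⟨0,[]⟩⟩,
  ⟨false,0,⟨0,[]⟩,⟨0,[]⟩⟩,[.o ⟨false,0,⟨0,[(7,0)]⟩,⟨3,[(4,1),(13,0),(0,0),(11,0),(6,0)]⟩⟩,.o ⟨false,
  1,⟨1,[(31,0),(3,1),(2,0)]⟩,⟨0,[(36,0)]⟩⟩,.a ⟨true,0,⟨1,[(20,0),(8,0),(0,0)]⟩,⟨0,[(21,0)]⟩⟩ ⟨false,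
  0,⟨0,[(2,0),(33,0)]⟩,⟨1,[(18,0),(19,0)]⟩⟩ ⟨true,0,⟨0,[(7,0),(13,0)]⟩,⟨1,[(4,0),(15,0),(19,0)]⟩⟩,
  .o ⟨false,0,⟨1,[(20,0),(2,0),(2,0)]⟩,⟨1,[(21,1),(9,0),(5,0)]⟩⟩]⟩)) (.I [0,0,0,1,0,0,0,-1,1] (.R
  ⟨1,false,false,false,[1,0,0,-1],[1,0,-1],[1,0,0,-1,0,0,0,0,-1],(⟨1,[(20,0),(8,0),(0,0)]⟩,⟨0,[(21,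
  0)]⟩),(⟨0,[(29,0)]⟩,⟨0,[(30,0)]⟩),⟨0,[(1,0),(18,0)]⟩,.k,.k,(.r (-1) ⟨1,[(3,0),(14,0)]⟩ ⟨4,[(0,2),
  (3,0),(1,1),(16,0),(0,0),(1,1),(0,1)]⟩),.k,(.r (-1) ⟨1,[(3,0),(14,0),(9,1)]⟩ ⟨1,[(0,1),(25,0),(0,
  0)]⟩),.k,⟨false,1,⟨1,[(3,0),(14,0),(9,1)]⟩,⟨0,[(0,0)]⟩⟩,⟨true,0,⟨1,[(17,0),(2,0)]⟩,⟨0,[(21,0),(4,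
  0)]⟩⟩,⟨false,1,⟨0,[(35,0),(2,0)]⟩,⟨0,[(36,0)]⟩⟩,⟨false,0,⟨1,[(2,1),(5,0),(5,0),(5,0)]⟩,⟨1,[(18,0),
  (2,1),(2,1),(13,0)]⟩⟩,⟨true,0,⟨0,[]⟩,⟨0,[(40,0)]⟩⟩,⟨false,0,⟨5,[(0,1),(1,1),(3,1),(1,2),(5,2),(5,
  2)]⟩,⟨3,[(3,0),(9,1),(4,1),(2,3),(2,1),(1,1),(11,0)]⟩⟩,[.o ⟨false,0,⟨0,[(10,0)]⟩,⟨3,[(18,0),(0,0),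
  (4,3),(13,1)]⟩⟩,.o ⟨false,1,⟨3,[(10,1),(14,1),(5,0),(6,2)]⟩,⟨0,[(24,0)]⟩⟩,.a ⟨true,0,⟨0,[(21,0)]⟩,
  ⟨1,[(20,0),(8,0),(0,0)]⟩⟩ ⟨false,1,⟨1,[(3,0),(14,0),(15,1)]⟩,⟨1,[(0,0),(5,0),(29,0)]⟩⟩ ⟨true,0,⟨1,
  [(10,0),(3,0),(5,0),(14,0)]⟩,⟨0,[(21,0),(2,0)]⟩⟩,.o ⟨false,0,⟨0,[(15,0),(5,0),(4,0)]⟩,⟨7,[(18,0),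
  (0,0),(0,3),(10,1),(5,3)]⟩⟩]⟩) (.Q [0,-1,0,0,0,0,0,0,1,1,0,-1] (.p false [0,0,0,1] [1] (⟨0,[(21,
  0)]⟩,⟨1,[(20,0),(8,0),(0,0)]⟩) .k 1 (⟨0,[]⟩,⟨0,[]⟩) .k .k) (.R ⟨1,false,false,true,[0,0,0,1],[1,
  -1],[0,1,0,0,0,0,0,0,1],(⟨0,[(22,0)]⟩,⟨1,[(21,0),(8,0),(0,0)]⟩),(⟨0,[(33,0)]⟩,⟨0,[(34,0)]⟩),⟨0,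
  [(2,0)]⟩,.k,.k,(.r (-1) ⟨1,[(4,0),(15,0)]⟩ ⟨0,[(1,0),(3,0),(17,0),(3,0)]⟩),(.r 0 ⟨2,[(5,0),(1,2),
  (1,0),(16,1),(0,2)]⟩ ⟨1,[(4,0),(14,0)]⟩),.k,.k,⟨false,0,⟨0,[(3,0),(33,1)]⟩,⟨1,[(4,0),(14,0)]⟩⟩,
  ⟨true,0,⟨0,[(16,0),(5,0),(4,0)]⟩,⟨1,[(21,0),(8,0),(0,0)]⟩⟩,⟨true,0,⟨0,[(41,0)]⟩,⟨0,[]⟩⟩,⟨false,1,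
  ⟨3,[(4,0),(3,1),(10,1),(2,3),(9,0),(2,1)]⟩,⟨0,[(0,0),(36,0)]⟩⟩,⟨false,0,⟨0,[(37,0)]⟩,⟨0,[(36,0),
  (2,0)]⟩⟩,⟨false,1,⟨1,[(19,0),(2,1),(9,0)]⟩,⟨0,[(0,0)]⟩⟩,[.o ⟨false,0,⟨0,[(8,0)]⟩,⟨3,[(5,1),(13,0),
  (0,0),(11,0),(6,0)]⟩⟩,.o ⟨false,1,⟨1,[(32,0),(3,1),(2,0)]⟩,⟨0,[(37,0)]⟩⟩,.a ⟨true,0,⟨1,[(21,0),(8,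
  0),(0,0)]⟩,⟨0,[(22,0)]⟩⟩ ⟨false,0,⟨0,[(3,0),(33,0)]⟩,⟨1,[(19,0),(19,0)]⟩⟩ ⟨true,0,⟨0,[(8,0),(13,
  0)]⟩,⟨1,[(5,0),(15,0),(19,0)]⟩⟩,.o ⟨false,0,⟨1,[(21,0),(2,0),(2,0)]⟩,⟨1,[(22,1),(9,0),(5,0)]⟩⟩]⟩)
  (.R ⟨1,false,false,false,[0,0,0,1],[1,-1],[0,0,0,0,0,0,0,0,1],(⟨0,[(22,0)]⟩,⟨1,[(21,0),(8,0),(0,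
  0)]⟩),(⟨0,[(33,0)]⟩,⟨0,[(34,0)]⟩),⟨0,[(2,0)]⟩,.k,.k,(.r (-1) ⟨1,[(4,0),(15,0)]⟩ ⟨3,[(0,3),(4,1),
  (15,1),(5,0),(0,0),(6,1)]⟩),(.r 0 ⟨2,[(5,0),(1,2),(1,0),(16,1),(0,2)]⟩ ⟨1,[(4,0),(14,0)]⟩),.k,.k,
  ⟨false,0,⟨0,[(3,0),(33,1)]⟩,⟨1,[(4,0),(14,0)]⟩⟩,⟨true,0,⟨3,[(0,0),(6,0),(0,0),(0,0),(12,2),(1,0),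
  (2,1),(7,0)]⟩,⟨1,[(21,0),(8,0),(0,0)]⟩⟩,⟨false,1,⟨3,[(19,0),(0,0),(18,1)]⟩,⟨0,[]⟩⟩,⟨false,1,⟨1,
  [(0,1),(3,0),(30,1),(3,0)]⟩,⟨1,[(3,1),(1,0),(15,0),(15,1),(3,0)]⟩⟩,⟨true,0,⟨0,[(37,0)]⟩,⟨0,[(36,
  0)]⟩⟩,⟨false,1,⟨0,[(0,0),(38,0)]⟩,⟨1,[(3,1),(1,0),(15,0),(19,0)]⟩⟩,[.o ⟨false,1,⟨1,[(32,0),(3,1),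
  (2,0)]⟩,⟨0,[(37,0)]⟩⟩,.o ⟨false,1,⟨1,[(4,0),(27,0),(2,1)]⟩,⟨0,[(37,0),(3,0)]⟩⟩,.a ⟨true,0,⟨1,[(21,
  0),(8,0),(0,0)]⟩,⟨0,[(22,0)]⟩⟩ ⟨true,0,⟨0,[(3,0),(33,0)]⟩,⟨1,[(0,1),(20,0),(8,0),(0,0)]⟩⟩ ⟨false,
  1,⟨1,[(4,0),(17,1),(9,0),(2,1)]⟩,⟨1,[(5,0),(15,0),(19,0)]⟩⟩,.o ⟨false,0,⟨1,[(21,0),(2,0),(2,0)]⟩,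
  ⟨1,[(22,1),(9,0),(5,0)]⟩⟩]⟩)))) (.Q [0,0,0,0,0,0,0,0,1,0,0,-1] (.p false [0,0,0,1] [] (⟨0,[(19,
  0)]⟩,⟨1,[(18,0),(8,0),(0,0)]⟩) .k 0 (⟨0,[]⟩,⟨0,[]⟩) .k .k) (.R ⟨2,true,false,false,[0,1],[0,0,0,
  1],[1,1,1],(⟨0,[]⟩,⟨0,[]⟩),(⟨0,[(20,0)]⟩,⟨1,[(19,0),(8,0),(0,0)]⟩),⟨0,[]⟩,.k,.k,.k,(.r 0 ⟨1,[(1,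
  1),(23,0),(0,0)]⟩ ⟨1,[(2,0),(15,0)]⟩),.k,.k,⟨false,0,⟨0,[(1,0),(32,0)]⟩,⟨3,[(2,2),(0,1),(1,1),(1,
  1),(10,0),(6,1)]⟩⟩,⟨true,0,⟨1,[(19,0),(2,0),(2,0)]⟩,⟨0,[(20,0)]⟩⟩,⟨true,0,⟨0,[(34,0)]⟩,⟨0,[(35,
  0)]⟩⟩,⟨false,1,⟨5,[(0,1),(1,2),(15,1),(0,1),(10,0),(2,5)]⟩,⟨0,[(1,0),(18,0)]⟩⟩,⟨false,0,⟨0,[]⟩,⟨3,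
  [(17,0),(0,0),(18,1)]⟩⟩,⟨true,0,⟨0,[(0,0)]⟩,⟨0,[(1,0),(18,0),(13,0)]⟩⟩,[]⟩) (.I [1,-1,0,0,0,0,0,0,
  -1] (.Q [0,0,0,0,0,-1,0,0,0,1,0,-1] (.p false [0,0,0,1] [1] (⟨0,[(21,0)]⟩,⟨1,[(20,0),(8,0),(0,
  0)]⟩) .k 1 (⟨0,[]⟩,⟨0,[]⟩) .k .k) (.R ⟨1,false,false,true,[1,0,0,-1],[1,-1],[0,1,0,0,0,0,0,0,-1],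
  (⟨1,[(21,0),(8,0),(0,0)]⟩,⟨0,[(22,0)]⟩),(⟨0,[(33,0)]⟩,⟨0,[(34,0)]⟩),⟨0,[(0,0)]⟩,.k,.k,(.r (-1) ⟨1,
  [(4,0),(14,0)]⟩ ⟨2,[(5,0),(1,2),(1,0),(16,1),(0,2)]⟩),(.r 0 ⟨1,[(3,1),(23,0),(0,0)]⟩ ⟨1,[(4,0),
  (15,0)]⟩),.k,.k,⟨false,0,⟨0,[(1,0),(6,0),(0,1),(0,2),(14,1),(4,2),(3,2)]⟩,⟨1,[(4,0),(15,0)]⟩⟩,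
  ⟨true,0,⟨1,[(21,0),(2,0),(2,0)]⟩,⟨0,[(22,0)]⟩⟩,⟨true,0,⟨0,[(41,0)]⟩,⟨0,[]⟩⟩,⟨false,1,⟨1,[(4,0),
  (15,0),(0,0),(2,0),(2,0)]⟩,⟨2,[(1,1),(0,0),(2,0),(3,0),(12,1),(2,0)]⟩⟩,⟨false,0,⟨0,[(37,0)]⟩,⟨0,
  [(36,0),(2,0)]⟩⟩,⟨false,1,⟨7,[(19,0),(0,4),(0,3),(10,1)]⟩,⟨0,[(1,0),(20,0)]⟩⟩,[.o ⟨false,0,⟨0,[(8,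
  0)]⟩,⟨3,[(5,1),(13,0),(0,0),(11,0),(6,0)]⟩⟩,.o ⟨false,1,⟨1,[(32,0),(3,1),(2,0)]⟩,⟨0,[(37,0)]⟩⟩,.a
  ⟨true,0,⟨0,[(22,0)]⟩,⟨1,[(21,0),(8,0),(0,0)]⟩⟩ ⟨false,0,⟨1,[(1,0),(1,0),(32,0)]⟩,⟨1,[(20,0),(18,
  0)]⟩⟩ ⟨true,0,⟨1,[(8,0),(12,0),(14,0)]⟩,⟨0,[(22,0),(14,0)]⟩⟩,.o ⟨false,0,⟨0,[(16,0),(5,0),(4,0)]⟩,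
  ⟨7,[(19,0),(0,0),(0,3),(10,1),(5,3)]⟩⟩]⟩) (.R ⟨0,false,false,true,[1,0,0,-1],[1,-1],[1,0,0,0,0,0,
  0,0,-1],(⟨1,[(21,0),(8,0),(0,0)]⟩,⟨0,[(22,0)]⟩),(⟨0,[(33,0)]⟩,⟨0,[(34,0)]⟩),⟨0,[(0,0)]⟩,.k,.k,(.r
  (-1) ⟨1,[(4,0),(14,0)]⟩ ⟨2,[(5,0),(1,2),(1,0),(16,1),(0,2)]⟩),(.r 0 ⟨1,[(3,1),(23,0),(0,0)]⟩ ⟨1,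
  [(4,0),(15,0)]⟩),.k,.k,⟨false,0,⟨3,[(1,2),(1,0),(1,0),(3,0),(15,0)]⟩,⟨1,[(4,0),(15,0),(20,1)]⟩⟩,
  ⟨true,0,⟨1,[(21,0),(2,0),(2,0)]⟩,⟨0,[(22,0)]⟩⟩,⟨true,0,⟨0,[]⟩,⟨0,[(41,0)]⟩⟩,⟨false,1,⟨1,[(4,0),
  (15,0),(0,0),(2,0),(2,0)]⟩,⟨2,[(1,1),(0,0),(2,0),(3,0),(12,1),(2,0)]⟩⟩,⟨false,0,⟨0,[]⟩,⟨0,[]⟩⟩,
  ⟨false,0,⟨0,[]⟩,⟨0,[]⟩⟩,[.o ⟨false,0,⟨0,[(8,0)]⟩,⟨3,[(5,1),(13,0),(0,0),(11,0),(6,0)]⟩⟩,.o ⟨false,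
  1,⟨1,[(32,0),(3,1),(2,0)]⟩,⟨0,[(37,0)]⟩⟩,.a ⟨true,0,⟨0,[(22,0)]⟩,⟨1,[(21,0),(8,0),(0,0)]⟩⟩ ⟨false,
  0,⟨0,[(1,0)]⟩,⟨3,[(19,0),(0,2)]⟩⟩ ⟨true,0,⟨1,[(8,0),(12,0),(14,0)]⟩,⟨0,[(22,0),(14,0)]⟩⟩,.o
  ⟨false,0,⟨0,[(16,0),(5,0),(4,0)]⟩,⟨7,[(19,0),(0,0),(0,3),(10,1),(5,3)]⟩⟩]⟩)) (.Q [0,0,0,0,0,0,0,0,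
  -1,-1,0,1] (.p true [0,0,0,1] [1] (⟨0,[(21,0)]⟩,⟨1,[(20,0),(8,0),(0,0)]⟩) .k 1 (⟨0,[]⟩,⟨0,[]⟩) .k
  .k) (.Q [0,0,0,0,0,-1,0,0,0,1,0,-1] (.p false [0,0,0,1] [1] (⟨0,[(22,0)]⟩,⟨1,[(21,0),(8,0),(0,
  0)]⟩) .k 1 (⟨0,[]⟩,⟨0,[]⟩) .k .k) (.R ⟨1,false,false,false,[1,0,0,-1],[1,-1],[0,0,0,0,0,0,0,0,-1],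
  (⟨1,[(22,0),(8,0),(0,0)]⟩,⟨0,[(23,0)]⟩),(⟨0,[(34,0)]⟩,⟨0,[(35,0)]⟩),⟨0,[(0,0)]⟩,.k,.k,(.r (-1) ⟨1,
  [(5,0),(14,0)]⟩ ⟨6,[(2,5),(3,2),(1,0),(1,0),(14,1),(2,2),(7,1)]⟩),(.r 0 ⟨1,[(4,1),(23,0),(0,0)]⟩
  ⟨1,[(5,0),(15,0)]⟩),.k,.k,⟨false,0,⟨0,[(0,0),(0,0),(8,0),(0,0),(14,0),(4,0),(3,1)]⟩,⟨1,[(5,0),(15,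
  0)]⟩⟩,⟨true,0,⟨1,[(22,0),(2,0),(2,0)]⟩,⟨0,[(23,0)]⟩⟩,⟨false,1,⟨3,[(20,0),(0,0),(18,1)]⟩,⟨0,[]⟩⟩,
  ⟨false,1,⟨15,[(5,8),(2,3),(0,1),(0,3),(10,5),(0,7),(5,3),(4,0),(2,13)]⟩,⟨1,[(1,0),(1,0),(2,0),(35,
  0)]⟩⟩,⟨true,0,⟨0,[(38,0)]⟩,⟨0,[(37,0)]⟩⟩,⟨false,1,⟨7,[(5,0),(2,1),(1,1),(10,2),(0,3),(5,1),(4,0),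
  (6,2)]⟩,⟨0,[(3,0)]⟩⟩,[.o ⟨false,1,⟨1,[(33,0),(3,1),(2,0)]⟩,⟨0,[(38,0)]⟩⟩,.o ⟨false,1,⟨1,[(5,0),
  (27,0),(2,1)]⟩,⟨0,[(38,0),(3,0)]⟩⟩,.a ⟨true,0,⟨0,[(23,0)]⟩,⟨1,[(22,0),(8,0),(0,0)]⟩⟩ ⟨true,0,⟨1,
  [(1,0),(1,0),(18,0)]⟩,⟨0,[(2,0)]⟩⟩ ⟨false,1,⟨1,[(5,0),(16,0),(2,0),(2,0),(11,0)]⟩,⟨1,[(1,0),(0,0),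
  (3,0),(16,0)]⟩⟩,.o ⟨false,0,⟨4,[(1,0),(6,0),(0,0),(0,0),(12,3),(1,1),(2,2)]⟩,⟨7,[(20,0),(0,0),(0,
  3),(10,1),(5,3)]⟩⟩]⟩) (.R ⟨0,false,false,false,[1,0,0,-1],[1,-1],[0,1],(⟨1,[(22,0),(8,0),(0,0)]⟩,
  ⟨0,[(23,0)]⟩),(⟨0,[(34,0)]⟩,⟨0,[(35,0)]⟩),⟨0,[(0,0)]⟩,.k,.k,(.r (-1) ⟨1,[(5,0),(14,0)]⟩ ⟨6,[(2,5),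
  (3,2),(1,0),(1,0),(14,1),(2,2),(7,1)]⟩),(.r 0 ⟨1,[(4,1),(23,0),(0,0)]⟩ ⟨1,[(5,0),(15,0)]⟩),.k,.k,
  ⟨false,0,⟨0,[(38,0),(3,0)]⟩,⟨0,[(13,0)]⟩⟩,⟨true,0,⟨1,[(22,0),(2,0),(2,0)]⟩,⟨0,[(23,0)]⟩⟩,⟨true,0,
  ⟨0,[(2,0)]⟩,⟨1,[(1,0),(1,0),(18,0)]⟩⟩,⟨false,1,⟨15,[(5,8),(2,3),(0,1),(0,3),(10,5),(0,7),(5,3),(4,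
  0),(2,13)]⟩,⟨1,[(1,0),(1,0),(2,0),(35,0)]⟩⟩,⟨false,0,⟨0,[]⟩,⟨0,[]⟩⟩,⟨false,0,⟨0,[]⟩,⟨0,[]⟩⟩,[.o
  ⟨false,1,⟨1,[(33,0),(3,1),(2,0)]⟩,⟨0,[(38,0)]⟩⟩,.o ⟨false,1,⟨1,[(5,0),(27,0),(2,1)]⟩,⟨0,[(38,0),
  (3,0)]⟩⟩,.a ⟨true,0,⟨0,[(23,0)]⟩,⟨1,[(22,0),(8,0),(0,0)]⟩⟩ ⟨true,0,⟨0,[(42,0)]⟩,⟨0,[]⟩⟩ ⟨false,1,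
  ⟨1,[(5,0),(16,0),(2,0),(2,0),(11,0)]⟩,⟨1,[(1,0),(0,0),(3,0),(16,0)]⟩⟩,.o ⟨false,0,⟨4,[(1,0),(6,0),
  (0,0),(0,0),(12,3),(1,1),(2,2)]⟩,⟨7,[(20,0),(0,0),(0,3),(10,1),(5,3)]⟩⟩]⟩)) (.R ⟨0,false,false,
  true,[1,0,-1],[0,0,0,1],[1,0,1],(⟨0,[(30,0)]⟩,⟨0,[(31,0)]⟩),(⟨0,[(22,0)]⟩,⟨1,[(21,0),(8,0),(0,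
  0)]⟩),⟨0,[(13,0)]⟩,.k,.k,.k,.k,.k,.k,⟨true,0,⟨1,[(2,1),(6,0),(4,0),(6,0),(5,0),(7,0)]⟩,⟨0,[(1,
  0)]⟩⟩,⟨false,1,⟨1,[(4,0),(0,0),(11,0),(3,0),(3,0),(1,0)]⟩,⟨0,[(16,0),(5,0)]⟩⟩,⟨false,0,⟨0,[(29,0),
  (5,0)]⟩,⟨0,[(17,0)]⟩⟩,⟨true,0,⟨0,[(0,0),(24,0)]⟩,⟨0,[(2,0),(8,0)]⟩⟩,⟨false,0,⟨0,[]⟩,⟨0,[]⟩⟩,
  ⟨false,0,⟨0,[]⟩,⟨0,[]⟩⟩,[.o ⟨false,0,⟨2,[(0,0),(0,1),(6,0),(0,0),(11,0),(3,0)]⟩,⟨1,[(2,1),(29,0),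
  (6,0)]⟩⟩,.a ⟨true,0,⟨0,[(0,0)]⟩,⟨0,[(2,0)]⟩⟩ ⟨true,0,⟨0,[(35,0)]⟩,⟨0,[(41,0)]⟩⟩ ⟨false,1,⟨0,[(0,
  0),(26,0),(10,0)]⟩,⟨0,[(2,0),(13,0)]⟩⟩,.o ⟨false,0,⟨0,[(16,0)]⟩,⟨11,[(6,3),(10,3),(1,0),(0,2),(4,
  3),(1,7)]⟩⟩,.o ⟨false,0,⟨0,[(24,0)]⟩,⟨0,[(27,0),(10,0)]⟩⟩]⟩)))))) (.Q [0,1,0,-1,0,0,0,0,-1,-1,0,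
  1] (.p true [0,0,0,1] [1] (⟨0,[(17,0)]⟩,⟨1,[(16,0),(8,0),(0,0)]⟩) .k 1 (⟨0,[]⟩,⟨0,[]⟩) .k .k) (.Q
  [0,0,0,1,0,0,0,0,1,1,0,-1] (.p false [0,0,0,1] [1] (⟨0,[(18,0)]⟩,⟨1,[(17,0),(8,0),(0,0)]⟩) .k 1
  (⟨0,[]⟩,⟨0,[]⟩) .k .k) (.Q [0,0,0,0,0,1,0,0,0,0,0,-1] (.p false [0,0,0,1] [] (⟨0,[(19,0)]⟩,⟨1,
  [(18,0),(8,0),(0,0)]⟩) .k 0 (⟨0,[]⟩,⟨0,[]⟩) .k .k) (.R ⟨0,false,false,true,[0,0,0,1],[1,-1],[0,1,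
  -1,-1],(⟨0,[(20,0)]⟩,⟨1,[(19,0),(8,0),(0,0)]⟩),(⟨0,[(31,0)]⟩,⟨0,[(32,0)]⟩),⟨0,[(0,0)]⟩,.k,.k,(.r
  (-1) ⟨3,[(1,1),(1,1),(6,1),(7,0),(1,1),(15,0)]⟩ ⟨1,[(2,1),(16,0),(8,0),(0,0),(3,1),(1,3)]⟩),(.r 0
  ⟨5,[(1,3),(3,1),(1,0),(12,3),(0,0),(0,1),(2,3),(9,0)]⟩ ⟨0,[(4,0),(29,0)]⟩),.k,.k,⟨false,1,⟨3,[(17,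
  0),(0,0),(17,1)]⟩,⟨0,[]⟩⟩,⟨true,0,⟨2,[(2,0),(2,0),(1,0),(12,1),(1,0),(2,1)]⟩,⟨1,[(19,0),(8,0),(0,
  0)]⟩⟩,⟨false,1,⟨0,[(4,0),(29,0)]⟩,⟨0,[(5,0),(7,0),(11,0)]⟩⟩,⟨true,0,⟨0,[(2,0)]⟩,⟨0,[(1,0)]⟩⟩,
  ⟨false,0,⟨0,[]⟩,⟨0,[]⟩⟩,⟨false,0,⟨0,[]⟩,⟨0,[]⟩⟩,[.o ⟨false,0,⟨0,[(6,0)]⟩,⟨3,[(17,0),(0,0),(16,3),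
  (1,1)]⟩⟩,.o ⟨false,1,⟨3,[(3,1),(13,0),(0,0),(11,0),(6,0)]⟩,⟨0,[(35,0)]⟩⟩,.a ⟨true,0,⟨1,[(19,0),(8,
  0),(0,0)]⟩,⟨0,[(20,0)]⟩⟩ ⟨false,1,⟨7,[(10,3),(6,0),(0,0),(15,3),(1,1)]⟩,⟨0,[(33,0),(1,0)]⟩⟩ ⟨true,
  0,⟨0,[(6,0),(13,0)]⟩,⟨1,[(19,0),(8,0),(0,0),(5,1)]⟩⟩,.o ⟨false,0,⟨1,[(19,0),(2,0),(2,0)]⟩,⟨1,[(20,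
  1),(9,0),(5,0)]⟩⟩]⟩) (.I [1,0,0,0,0,0,0,0,-1] (.Q [0,0,0,0,0,0,0,0,-1,-1,0,1] (.p true [0,0,0,1]
  [1] (⟨0,[(21,0)]⟩,⟨1,[(20,0),(8,0),(0,0)]⟩) .k 1 (⟨0,[]⟩,⟨0,[]⟩) .k .k) (.R ⟨2,true,false,false,
  [0,1],[1,0,0,-1],[1,1,1],(⟨0,[]⟩,⟨0,[]⟩),(⟨1,[(21,0),(8,0),(0,0)]⟩,⟨0,[(22,0)]⟩),⟨0,[]⟩,.k,.k,.k,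
  (.r 0 ⟨5,[(3,3),(3,1),(1,0),(12,3),(0,0),(0,1),(2,3),(9,0)]⟩ ⟨0,[(6,0),(29,0)]⟩),.k,.k,⟨false,0,
  ⟨0,[(3,0),(4,0),(13,0)]⟩,⟨0,[(6,0)]⟩⟩,⟨true,0,⟨4,[(0,0),(6,0),(0,0),(0,0),(12,3),(1,1),(2,2)]⟩,⟨1,
  [(21,0),(8,0),(0,0)]⟩⟩,⟨true,0,⟨0,[(36,0)]⟩,⟨0,[(37,0)]⟩⟩,⟨false,1,⟨0,[(4,0),(34,0)]⟩,⟨0,[(3,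
  0)]⟩⟩,⟨false,0,⟨0,[]⟩,⟨3,[(19,0),(0,0),(18,1)]⟩⟩,⟨true,0,⟨0,[(0,0)]⟩,⟨0,[(3,0),(32,0)]⟩⟩,[]⟩) (.R
  ⟨2,false,false,false,[0,1],[1,0,0,-1],[1,1,1],(⟨0,[]⟩,⟨0,[]⟩),(⟨1,[(21,0),(8,0),(0,0)]⟩,⟨0,[(22,
  0)]⟩),⟨0,[]⟩,.k,.k,.k,(.r 0 ⟨5,[(3,3),(3,1),(1,0),(12,3),(0,0),(0,1),(2,3),(9,0)]⟩ ⟨0,[(6,0),(29,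
  0)]⟩),.k,.k,⟨false,0,⟨0,[(3,0),(4,0),(13,0)]⟩,⟨0,[(6,0)]⟩⟩,⟨true,0,⟨2,[(4,0),(2,0),(1,0),(12,1),
  (1,0),(2,1)]⟩,⟨1,[(21,0),(8,0),(0,0)]⟩⟩,⟨true,0,⟨0,[(36,0)]⟩,⟨0,[(37,0)]⟩⟩,⟨false,1,⟨0,[(4,0),(34,
  0)]⟩,⟨0,[(3,0)]⟩⟩,⟨false,0,⟨0,[]⟩,⟨3,[(19,0),(0,0),(18,1)]⟩⟩,⟨false,1,⟨1,[(1,1),(20,1),(9,0),(6,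
  0)]⟩,⟨0,[(0,0)]⟩⟩,[.a ⟨true,0,⟨0,[(1,0),(20,0)]⟩,⟨0,[(0,0)]⟩⟩ ⟨false,0,⟨0,[(41,0)]⟩,⟨1,[(38,0),(0,
  0)]⟩⟩ ⟨true,0,⟨0,[(4,0),(30,0),(1,0)]⟩,⟨0,[(0,0)]⟩⟩,.o ⟨false,1,⟨1,[(1,1),(20,1),(9,0),(6,0)]⟩,⟨0,
  [(3,0),(4,0)]⟩⟩,.o ⟨false,1,⟨3,[(19,0),(0,0),(17,1)]⟩,⟨0,[(16,0),(10,0)]⟩⟩,.e ⟨false,0,⟨0,[]⟩,⟨3,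
  [(19,0),(0,0),(18,1)]⟩⟩ ⟨false,1,⟨1,[(1,1),(20,1),(9,0),(6,0)]⟩,⟨0,[(0,0)]⟩⟩]⟩)) (.R ⟨1,false,
  false,true,[0,0,0,1],[1,-1],[0,1,0,0,0,0,0,0,1],(⟨0,[(21,0)]⟩,⟨1,[(20,0),(8,0),(0,0)]⟩),(⟨0,[(32,
  0)]⟩,⟨0,[(33,0)]⟩),⟨0,[(1,0)]⟩,.k,.k,(.r (-1) ⟨3,[(0,1),(10,1),(7,0),(15,1),(1,0)]⟩ ⟨1,[(3,1),(16,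
  0),(8,0),(0,0),(3,1),(1,3)]⟩),(.r 0 ⟨1,[(0,1),(25,0),(0,0),(8,1)]⟩ ⟨0,[(5,0),(29,0)]⟩),.k,.k,
  ⟨false,0,⟨0,[(0,0),(35,0)]⟩,⟨0,[(5,0),(29,0)]⟩⟩,⟨true,0,⟨2,[(3,0),(2,0),(1,0),(12,1),(1,0),(2,
  1)]⟩,⟨1,[(20,0),(8,0),(0,0)]⟩⟩,⟨true,0,⟨0,[(40,0)]⟩,⟨0,[]⟩⟩,⟨true,0,⟨0,[(3,0)]⟩,⟨0,[(2,0)]⟩⟩,
  ⟨false,0,⟨0,[(36,0)]⟩,⟨0,[(35,0),(2,0)]⟩⟩,⟨true,0,⟨0,[(3,0),(32,0)]⟩,⟨1,[(0,1),(19,0),(8,0),(0,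
  0)]⟩⟩,[.o ⟨false,0,⟨0,[(7,0)]⟩,⟨3,[(18,0),(0,0),(16,3),(1,1)]⟩⟩,.o ⟨false,1,⟨3,[(4,1),(13,0),(0,
  0),(11,0),(6,0)]⟩,⟨0,[(36,0)]⟩⟩,.a ⟨true,0,⟨1,[(20,0),(8,0),(0,0)]⟩,⟨0,[(21,0)]⟩⟩ ⟨false,0,⟨0,[(0,
  0)]⟩,⟨1,[(18,0),(19,0)]⟩⟩ ⟨true,0,⟨0,[(0,0),(2,0)]⟩,⟨1,[(20,0),(8,0),(0,0),(5,1)]⟩⟩,.o ⟨false,0,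
  ⟨1,[(20,0),(2,0),(2,0)]⟩,⟨1,[(21,1),(9,0),(5,0)]⟩⟩]⟩))) (.Q [0,-1,0,1,0,0,0,0,-1,0,0,1] (.p true
  [0,0,0,1] [] (⟨0,[(19,0)]⟩,⟨1,[(18,0),(8,0),(0,0)]⟩) .k 0 (⟨0,[]⟩,⟨0,[]⟩) .k .k) (.I [1,-1,0,0,0,
  0,0,0,-1] (.Q [0,0,0,0,0,-1,0,0,0,1,0,-1] (.p false [0,0,0,1] [1] (⟨0,[(21,0)]⟩,⟨1,[(20,0),(8,0),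
  (0,0)]⟩) .k 1 (⟨0,[]⟩,⟨0,[]⟩) .k .k) (.R ⟨1,false,false,true,[1,0,0,-1],[1,-1],[0,1,0,0,0,0,0,0,
  -1],(⟨1,[(21,0),(8,0),(0,0)]⟩,⟨0,[(22,0)]⟩),(⟨0,[(33,0)]⟩,⟨0,[(34,0)]⟩),⟨0,[(0,0)]⟩,.k,.k,(.r
  (-1) ⟨0,[(6,0),(29,0)]⟩ ⟨1,[(7,1),(7,0),(10,0),(0,1),(9,0)]⟩),(.r 0 ⟨1,[(2,1),(18,0),(2,0),(2,0),
  (13,1)]⟩ ⟨0,[(5,0),(1,0),(7,0),(11,0),(2,0),(0,0),(6,0)]⟩),.k,.k,⟨false,0,⟨1,[(2,0),(1,0),(16,0),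
  (15,1)]⟩,⟨0,[(5,0),(1,0),(7,0),(11,0),(2,0),(0,0),(6,0)]⟩⟩,⟨true,0,⟨1,[(21,0),(2,0),(2,0)]⟩,⟨0,
  [(22,0)]⟩⟩,⟨true,0,⟨0,[(41,0)]⟩,⟨0,[]⟩⟩,⟨false,1,⟨7,[(5,3),(13,0),(0,4),(0,3),(17,1)]⟩,⟨0,[(2,
  0)]⟩⟩,⟨false,0,⟨0,[(37,0)]⟩,⟨0,[(36,0),(2,0)]⟩⟩,⟨false,1,⟨7,[(19,0),(0,4),(0,3),(10,1)]⟩,⟨0,[(1,
  0),(20,0)]⟩⟩,[.o ⟨false,0,⟨0,[(8,0)]⟩,⟨3,[(19,0),(0,0),(16,3),(1,1)]⟩⟩,.o ⟨false,1,⟨3,[(5,1),(13,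
  0),(0,0),(11,0),(6,0)]⟩,⟨0,[(37,0)]⟩⟩,.a ⟨true,0,⟨0,[(22,0)]⟩,⟨1,[(21,0),(8,0),(0,0)]⟩⟩ ⟨false,0,
  ⟨1,[(2,0),(1,0),(16,0)]⟩,⟨1,[(20,0),(18,0)]⟩⟩ ⟨true,0,⟨1,[(5,0),(15,0),(19,0)]⟩,⟨0,[(22,0),(14,
  0)]⟩⟩,.o ⟨false,0,⟨2,[(4,0),(2,0),(1,0),(12,1),(1,0),(2,1)]⟩,⟨7,[(19,0),(0,0),(0,3),(10,1),(5,
  3)]⟩⟩]⟩) (.R ⟨0,false,false,true,[1,0,0,-1],[1,-1],[1,0,0,0,0,0,0,0,-1],(⟨1,[(21,0),(8,0),(0,0)]⟩,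
  ⟨0,[(22,0)]⟩),(⟨0,[(33,0)]⟩,⟨0,[(34,0)]⟩),⟨0,[(0,0)]⟩,.k,.k,(.r (-1) ⟨0,[(6,0),(29,0)]⟩ ⟨1,[(7,1),
  (7,0),(10,0),(0,1),(9,0)]⟩),(.r 0 ⟨1,[(2,1),(18,0),(2,0),(2,0),(13,1)]⟩ ⟨0,[(5,0),(1,0),(7,0),(11,
  0),(2,0),(0,0),(6,0)]⟩),.k,.k,⟨false,0,⟨0,[(1,0),(35,0)]⟩,⟨1,[(20,0),(15,1),(1,0)]⟩⟩,⟨true,0,⟨1,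
  [(21,0),(2,0),(2,0)]⟩,⟨0,[(22,0)]⟩⟩,⟨true,0,⟨0,[]⟩,⟨0,[(41,0)]⟩⟩,⟨false,1,⟨7,[(5,3),(13,0),(0,4),
  (0,3),(17,1)]⟩,⟨0,[(2,0)]⟩⟩,⟨false,0,⟨0,[]⟩,⟨0,[]⟩⟩,⟨false,0,⟨0,[]⟩,⟨0,[]⟩⟩,[.o ⟨false,0,⟨0,[(8,
  0)]⟩,⟨3,[(19,0),(0,0),(16,3),(1,1)]⟩⟩,.o ⟨false,1,⟨3,[(5,1),(13,0),(0,0),(11,0),(6,0)]⟩,⟨0,[(37,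
  0)]⟩⟩,.a ⟨true,0,⟨0,[(22,0)]⟩,⟨1,[(21,0),(8,0),(0,0)]⟩⟩ ⟨false,0,⟨0,[(1,0)]⟩,⟨3,[(19,0),(0,2)]⟩⟩
  ⟨true,0,⟨1,[(5,0),(15,0),(19,0)]⟩,⟨0,[(22,0),(14,0)]⟩⟩,.o ⟨false,0,⟨2,[(4,0),(2,0),(1,0),(12,1),
  (1,0),(2,1)]⟩,⟨7,[(19,0),(0,0),(0,3),(10,1),(5,3)]⟩⟩]⟩)) (.Q [0,1,0,0,0,0,0,0,1,0,0,-1] (.p false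
  [0,0,0,1] [] (⟨0,[(21,0)]⟩,⟨1,[(20,0),(8,0),(0,0)]⟩) .k 0 (⟨0,[]⟩,⟨0,[]⟩) .k .k) (.R ⟨2,true,
  false,true,[0,1],[0,0,0,1],[1,1,1],(⟨0,[]⟩,⟨0,[]⟩),(⟨0,[(22,0)]⟩,⟨1,[(21,0),(8,0),(0,0)]⟩),⟨0,[]⟩,
  .k,.k,.k,(.r 0 ⟨1,[(2,1),(18,0),(2,0),(2,0),(13,1)]⟩ ⟨0,[(1,0),(10,0)]⟩),.k,.k,⟨false,0,⟨1,[(2,0),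
  (1,0),(16,0)]⟩,⟨1,[(20,0),(17,0)]⟩⟩,⟨true,0,⟨1,[(21,0),(2,0),(2,0)]⟩,⟨0,[(22,0)]⟩⟩,⟨true,0,⟨0,
  [(36,0)]⟩,⟨0,[(37,0)]⟩⟩,⟨false,1,⟨7,[(5,3),(13,0),(0,4),(0,3),(17,1)]⟩,⟨0,[(2,0)]⟩⟩,⟨false,0,⟨0,
  []⟩,⟨3,[(19,0),(0,0),(18,1)]⟩⟩,⟨true,0,⟨0,[(0,0)]⟩,⟨0,[(2,0),(33,0)]⟩⟩,[]⟩) (.K ⟨1,[1,0,0,-1],0,0,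
  (⟨1,[(21,0),(8,0),(0,0)]⟩,⟨0,[(22,0)]⟩),.k,(.r (-1) ⟨0,[(6,0),(29,0)]⟩ ⟨0,[(1,0),(33,0),(1,0)]⟩),
  (.r 0 ⟨1,[(2,1),(18,0),(2,0),(2,0),(13,1)]⟩ ⟨0,[(1,0),(10,0)]⟩),.k,.k,[⟨1,[(21,0),(5,0),(0,0),(1,
  0),(0,0)]⟩,⟨2,[(4,0),(2,0),(1,0),(12,1),(1,0),(2,1)]⟩,⟨1,[(1,1),(19,0),(8,0),(0,0)]⟩,⟨0,[(0,
  0)]⟩]⟩))) (.Q [0,0,0,0,0,1,0,0,0,0,0,-1] (.p false [0,0,0,1] [] (⟨0,[(20,0)]⟩,⟨1,[(19,0),(8,0),(0,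
  0)]⟩) .k 0 (⟨0,[]⟩,⟨0,[]⟩) .k .k) (.R ⟨0,false,false,false,[0,0,0,1],[0,1],[1,0,1,1],(⟨0,[(21,
  0)]⟩,⟨1,[(20,0),(8,0),(0,0)]⟩),(⟨0,[(33,0)]⟩,⟨0,[(32,0)]⟩),⟨0,[(0,0)]⟩,.k,.k,(.r (-1) ⟨3,[(1,1),
  (9,1),(7,0),(1,1),(15,0)]⟩ ⟨1,[(3,1),(16,0),(8,0),(0,0),(3,1),(1,3)]⟩),(.r (-1) ⟨3,[(1,1),(9,1),
  (7,0),(1,1),(15,0)]⟩ ⟨1,[(3,1),(16,0),(8,0),(0,0),(3,1),(1,3)]⟩),.k,.k,⟨true,0,⟨0,[]⟩,⟨1,[(26,0),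
  (0,0)]⟩⟩,⟨false,1,⟨0,[(21,0),(15,0)]⟩,⟨1,[(20,0),(2,0),(2,0)]⟩⟩,⟨false,0,⟨1,[(2,1),(17,0),(8,0),
  (0,0),(3,1),(1,3)]⟩,⟨3,[(1,1),(9,1),(7,0),(1,1),(15,0)]⟩⟩,⟨true,0,⟨0,[(2,0),(26,0),(0,0),(5,1)]⟩,
  ⟨0,[(1,0)]⟩⟩,⟨false,0,⟨0,[]⟩,⟨0,[]⟩⟩,⟨false,0,⟨0,[]⟩,⟨0,[]⟩⟩,[.o ⟨false,0,⟨0,[(36,0)]⟩,⟨3,[(4,1),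
  (13,0),(0,0),(11,0),(6,0)]⟩⟩,.o ⟨false,1,⟨3,[(18,0),(0,0),(16,3),(1,1)]⟩,⟨0,[(7,0)]⟩⟩,.a ⟨true,0,
  ⟨1,[(20,0),(8,0),(0,0)]⟩,⟨0,[(21,0)]⟩⟩ ⟨false,0,⟨0,[(34,0),(1,0)]⟩,⟨7,[(11,3),(6,0),(0,0),(15,3),
  (1,1)]⟩⟩ ⟨true,0,⟨0,[(21,0),(14,0)]⟩,⟨1,[(1,0),(1,0),(16,0)]⟩⟩,.o ⟨false,0,⟨1,[(20,0),(2,0),(2,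
  0)]⟩,⟨1,[(21,1),(9,0),(5,0)]⟩⟩]⟩) (.R ⟨1,false,false,false,[0,0,0,1],[1,-1],[1,1,0,-1,0,0,0,0,1],
  (⟨0,[(21,0)]⟩,⟨1,[(20,0),(8,0),(0,0)]⟩),(⟨0,[(32,0)]⟩,⟨0,[(33,0)]⟩),⟨0,[(0,0)]⟩,.k,.k,(.r (-1) ⟨3,
  [(1,1),(9,1),(7,0),(1,1),(15,0)]⟩ ⟨1,[(3,1),(16,0),(8,0),(0,0),(3,1),(1,3)]⟩),(.r 0 ⟨1,[(6,1),(7,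
  0),(10,0),(0,1),(9,0)]⟩ ⟨0,[(5,0),(29,0)]⟩),.k,.k,⟨false,0,⟨0,[(1,0),(19,0),(14,0)]⟩,⟨0,[(5,0)]⟩⟩,
  ⟨true,0,⟨2,[(3,0),(2,0),(1,0),(12,1),(1,0),(2,1)]⟩,⟨1,[(20,0),(8,0),(0,0)]⟩⟩,⟨true,0,⟨0,[(35,0)]⟩,
  ⟨0,[(36,0)]⟩⟩,⟨true,0,⟨0,[(2,0)]⟩,⟨0,[(1,0),(27,0),(0,0),(5,1)]⟩⟩,⟨false,0,⟨0,[]⟩,⟨3,[(18,0),(0,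
  0),(18,1)]⟩⟩,⟨true,0,⟨0,[(2,0),(33,0)]⟩,⟨0,[(1,0),(27,0),(0,0),(5,0)]⟩⟩,[.o ⟨false,1,⟨3,[(4,1),
  (13,0),(0,0),(11,0),(6,0)]⟩,⟨0,[(36,0)]⟩⟩,.o ⟨false,1,⟨3,[(4,1),(26,0),(6,2)]⟩,⟨0,[(36,0),(3,
  0)]⟩⟩,.a ⟨true,0,⟨1,[(20,0),(8,0),(0,0)]⟩,⟨0,[(21,0)]⟩⟩ ⟨true,0,⟨0,[(1,0),(19,0)]⟩,⟨1,[(2,1),(17,
  0),(8,0),(0,0),(5,3)]⟩⟩ ⟨false,1,⟨1,[(2,1),(16,0),(18,0)]⟩,⟨1,[(20,0),(8,0),(0,0),(5,1)]⟩⟩,.o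
  ⟨false,0,⟨1,[(20,0),(2,0),(2,0)]⟩,⟨1,[(21,1),(9,0),(5,0)]⟩⟩]⟩)))) (.Q [0,0,0,0,0,1,0,0,0,0,0,-1]
  (.p false [0,0,0,1] [] (⟨0,[(18,0)]⟩,⟨1,[(17,0),(8,0),(0,0)]⟩) .k 0 (⟨0,[]⟩,⟨0,[]⟩) .k .k) (.R ⟨0,
  false,false,true,[0,0,0,1],[1,-1],[0,1,0,0,0,0,0,0,1],(⟨0,[(19,0)]⟩,⟨1,[(18,0),(8,0),(0,0)]⟩),(⟨0,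
  [(30,0)]⟩,⟨0,[(31,0)]⟩),⟨0,[(0,0)]⟩,.k,.k,(.x 0 ⟨0,[(13,0),(10,0),(5,0)]⟩ ⟨3,[(16,0),(0,0),(13,3),
  (3,1)]⟩),(.r 0 ⟨5,[(1,1),(2,3),(1,0),(12,1),(1,0),(1,2),(0,4),(9,2)]⟩ ⟨0,[(3,0),(29,0)]⟩),.k,.k,
  ⟨false,0,⟨2,[(1,2),(3,0),(0,0),(12,2),(0,0),(1,1)]⟩,⟨0,[(3,0),(29,0)]⟩⟩,⟨true,0,⟨0,[(13,0),(5,0),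
  (4,0)]⟩,⟨1,[(18,0),(8,0),(0,0)]⟩⟩,⟨true,0,⟨0,[(38,0)]⟩,⟨0,[]⟩⟩,⟨false,1,⟨3,[(2,1),(13,1),(2,3),(9,
  0),(6,0)]⟩,⟨0,[(1,0)]⟩⟩,⟨false,0,⟨0,[]⟩,⟨0,[]⟩⟩,⟨false,0,⟨0,[]⟩,⟨0,[]⟩⟩,[.o ⟨false,0,⟨0,[(5,0)]⟩,
  ⟨3,[(16,0),(0,0),(16,3),(1,1)]⟩⟩,.o ⟨false,1,⟨3,[(2,1),(13,0),(0,0),(11,0),(6,0)]⟩,⟨0,[(34,0)]⟩⟩,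
  .a ⟨true,0,⟨1,[(18,0),(8,0),(0,0)]⟩,⟨0,[(19,0)]⟩⟩ ⟨false,0,⟨0,[(1,0),(3,0),(13,0)]⟩,⟨1,[(16,0),
  (19,0)]⟩⟩ ⟨true,0,⟨0,[(5,0),(13,0)]⟩,⟨1,[(18,0),(8,0),(0,0),(5,1)]⟩⟩,.o ⟨false,0,⟨1,[(18,0),(2,0),
  (2,0)]⟩,⟨1,[(19,1),(9,0),(5,0)]⟩⟩]⟩) (.I [0,0,0,0,0,0,0,-1,1] (.R ⟨1,false,false,false,[1,0,0,-1],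
  [1,0,-1],[0,0,0,0,0,0,0,0,-1],(⟨1,[(19,0),(8,0),(0,0)]⟩,⟨0,[(20,0)]⟩),(⟨0,[(28,0)]⟩,⟨0,[(29,0)]⟩),
  ⟨0,[(1,0),(17,0)]⟩,.k,.k,(.r (-1) ⟨0,[(4,0),(29,0)]⟩ ⟨1,[(0,0),(4,0),(19,0),(0,0),(8,1)]⟩),.k,(.r
  (-1) ⟨1,[(12,1),(4,0),(18,0)]⟩ ⟨1,[(0,1),(24,0),(0,0),(8,1)]⟩),.k,⟨false,1,⟨1,[(17,0),(9,1),(8,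
  0)]⟩,⟨0,[(0,0)]⟩⟩,⟨true,0,⟨1,[(16,0),(2,0)]⟩,⟨0,[(20,0),(4,0)]⟩⟩,⟨false,1,⟨3,[(17,0),(0,0),(18,
  1)]⟩,⟨0,[]⟩⟩,⟨false,0,⟨0,[(2,0),(0,0),(9,0)]⟩,⟨1,[(17,0),(2,1),(2,1),(13,0)]⟩⟩,⟨true,0,⟨0,[(35,
  0)]⟩,⟨0,[(34,0)]⟩⟩,⟨false,0,⟨0,[(2,0),(6,0)]⟩,⟨1,[(10,0),(1,0),(4,0),(2,1),(2,0),(1,0)]⟩⟩,[.o
  ⟨false,0,⟨0,[(9,0)]⟩,⟨3,[(17,0),(0,0),(4,3),(13,1)]⟩⟩,.o ⟨false,1,⟨3,[(9,1),(14,1),(5,0),(6,2)]⟩,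
  ⟨0,[(23,0)]⟩⟩,.a ⟨true,0,⟨0,[(20,0)]⟩,⟨1,[(19,0),(8,0),(0,0)]⟩⟩ ⟨false,1,⟨1,[(17,0),(19,0)]⟩,⟨1,
  [(0,0),(4,0)]⟩⟩ ⟨true,0,⟨3,[(3,0),(5,0),(3,1),(5,1),(4,0)]⟩,⟨0,[(20,0),(2,0)]⟩⟩,.o ⟨false,0,⟨0,
  [(14,0),(5,0),(4,0)]⟩,⟨7,[(17,0),(0,0),(0,3),(10,1),(5,3)]⟩⟩]⟩) (.Q [0,0,2,0,-1,0,-1,0,0,-2,1]
  (.p true [-1,1,1] [1] (⟨0,[(11,0)]⟩,⟨0,[(28,0),(2,0)]⟩) .k 1 (⟨0,[]⟩,⟨0,[]⟩) .k .k) (.I [0,1,0,1,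
  0,0,0,0,-1] (.R ⟨1,false,false,false,[0,0,0,1],[1,-1],[1,0,0,-1,0,0,0,0,1],(⟨0,[(22,0)]⟩,⟨1,[(21,
  0),(8,0),(0,0)]⟩),(⟨0,[(33,0)]⟩,⟨0,[(34,0)]⟩),⟨0,[(3,0)]⟩,.k,.k,(.r (-1) ⟨2,[(4,0),(0,0),(6,0),(7,
  0),(1,0),(13,0),(1,0)]⟩ ⟨0,[(0,0),(34,0)]⟩),(.r 0 ⟨7,[(1,1),(2,3),(15,1),(1,3),(4,2),(0,0),(8,3),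
  (3,3)]⟩ ⟨0,[(6,0),(29,0)]⟩),.k,.k,⟨false,0,⟨0,[(4,0),(3,0),(13,0)]⟩,⟨1,[(19,0),(18,0)]⟩⟩,⟨true,0,
  ⟨11,[(1,3),(17,0),(0,0),(1,11),(4,3),(4,1)]⟩,⟨1,[(21,0),(8,0),(0,0)]⟩⟩,⟨false,1,⟨0,[(36,0),(2,
  0)]⟩,⟨0,[(37,0)]⟩⟩,⟨false,1,⟨7,[(1,1),(3,3),(0,5),(12,0),(2,7),(4,1),(11,2)]⟩,⟨0,[(4,0),(36,0)]⟩⟩,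
  ⟨true,0,⟨0,[]⟩,⟨0,[(41,0)]⟩⟩,⟨false,1,⟨7,[(1,1),(4,5),(12,0),(2,7),(4,1),(4,1),(6,0)]⟩,⟨0,[(4,0),
  (31,0)]⟩⟩,[.o ⟨false,1,⟨3,[(5,1),(13,0),(0,0),(11,0),(6,0)]⟩,⟨0,[(37,0)]⟩⟩,.o ⟨false,1,⟨3,[(5,1),
  (26,0),(6,2)]⟩,⟨0,[(37,0),(3,0)]⟩⟩,.a ⟨true,0,⟨1,[(21,0),(8,0),(0,0)]⟩,⟨0,[(22,0)]⟩⟩ ⟨true,0,⟨0,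
  [(4,0),(0,0),(16,0)]⟩,⟨0,[(0,0)]⟩⟩ ⟨false,1,⟨3,[(5,1),(16,3),(9,0),(6,2)]⟩,⟨3,[(0,1),(3,1),(16,0),
  (8,0),(0,0)]⟩⟩,.o ⟨false,0,⟨1,[(21,0),(2,0),(2,0)]⟩,⟨1,[(22,1),(9,0),(5,0)]⟩⟩]⟩) (.R ⟨1,false,
  false,true,[0,0,0,1],[1,-1],[1,0,0,-1,0,0,0,0,1],(⟨0,[(22,0)]⟩,⟨1,[(21,0),(8,0),(0,0)]⟩),(⟨0,[(33,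
  0)]⟩,⟨0,[(34,0)]⟩),⟨0,[(3,0)]⟩,.k,.k,(.r (-1) ⟨7,[(0,1),(11,1),(7,2),(15,3),(1,2)]⟩ ⟨1,[(2,1),(12,
  0),(10,0),(0,1),(9,0)]⟩),(.r 0 ⟨7,[(1,1),(2,3),(15,1),(1,3),(4,2),(0,0),(8,3),(3,3)]⟩ ⟨0,[(6,0),
  (29,0)]⟩),.k,.k,⟨false,0,⟨2,[(0,1),(3,0),(4,0),(12,0),(2,0)]⟩,⟨1,[(19,0),(18,0),(2,1)]⟩⟩,⟨true,0,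
  ⟨11,[(1,3),(17,0),(0,0),(1,11),(4,3),(4,1)]⟩,⟨1,[(21,0),(8,0),(0,0)]⟩⟩,⟨false,1,⟨0,[(36,0),(2,
  0)]⟩,⟨0,[(37,0)]⟩⟩,⟨false,1,⟨3,[(5,1),(13,1),(2,3),(9,0),(6,0)]⟩,⟨0,[(4,0)]⟩⟩,⟨true,0,⟨0,[]⟩,⟨0,
  [(41,0)]⟩⟩,⟨false,1,⟨1,[(19,0),(2,1),(9,0)]⟩,⟨3,[(0,1),(3,1),(16,0),(8,0),(0,0)]⟩⟩,[.o ⟨false,0,
  ⟨0,[(8,0)]⟩,⟨3,[(19,0),(0,0),(16,3),(1,1)]⟩⟩,.o ⟨false,1,⟨3,[(5,1),(13,0),(0,0),(11,0),(6,0)]⟩,⟨0,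
  [(37,0)]⟩⟩,.a ⟨true,0,⟨1,[(21,0),(8,0),(0,0)]⟩,⟨0,[(22,0)]⟩⟩ ⟨false,0,⟨0,[(0,0)]⟩,⟨3,[(19,2),(0,
  0),(16,3)]⟩⟩ ⟨true,0,⟨0,[(8,0),(13,0)]⟩,⟨1,[(21,0),(8,0),(0,0),(5,1)]⟩⟩,.o ⟨false,0,⟨1,[(21,0),(2,
  0),(2,0)]⟩,⟨1,[(22,1),(9,0),(5,0)]⟩⟩]⟩)) (.Q [0,1,0,0,0,0,0,0,-1,-1,0,1] (.p true [0,0,0,1] [1]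
  (⟨0,[(21,0)]⟩,⟨1,[(20,0),(8,0),(0,0)]⟩) .k 1 (⟨0,[]⟩,⟨0,[]⟩) .k .k) (.R ⟨2,true,false,true,[0,1],
  [1,0,0,-1],[0,1,1,1],(⟨0,[]⟩,⟨0,[]⟩),(⟨1,[(21,0),(8,0),(0,0)]⟩,⟨0,[(22,0)]⟩),⟨0,[]⟩,.k,.k,.k,(.r
  0 ⟨5,[(4,1),(2,3),(1,0),(12,1),(1,0),(1,2),(0,4),(9,2)]⟩ ⟨4,[(1,0),(3,1),(0,2),(7,0),(4,0),(6,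
  0)]⟩),.k,.k,⟨false,0,⟨2,[(4,2),(3,0),(0,0),(12,2),(0,0),(1,1)]⟩,⟨4,[(1,0),(3,1),(0,2),(7,0),(4,0),
  (6,0)]⟩⟩,⟨true,0,⟨6,[(0,1),(4,0),(1,1),(1,1),(12,4),(1,1),(2,3),(7,0)]⟩,⟨1,[(21,0),(8,0),(0,0)]⟩⟩,
  ⟨true,0,⟨0,[(41,0)]⟩,⟨0,[]⟩⟩,⟨false,1,⟨3,[(5,1),(13,1),(2,3),(9,0),(6,0)]⟩,⟨0,[(4,0)]⟩⟩,⟨false,0,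
  ⟨0,[(37,0)]⟩,⟨0,[(36,0),(2,0)]⟩⟩,⟨true,0,⟨0,[(0,0)]⟩,⟨0,[(4,0),(31,0)]⟩⟩,[]⟩) (.R ⟨1,false,false,
  true,[0,0,0,1],[1,-1],[0,1,0,0,0,0,0,0,1],(⟨0,[(22,0)]⟩,⟨1,[(21,0),(8,0),(0,0)]⟩),(⟨0,[(33,0)]⟩,
  ⟨0,[(34,0)]⟩),⟨0,[(3,0)]⟩,.k,.k,(.r (-1) ⟨14,[(0,2),(0,1),(3,5),(6,2),(5,0),(1,5),(1,2),(15,3)]⟩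
  ⟨1,[(2,1),(12,0),(10,0),(0,1),(9,0)]⟩),(.r 0 ⟨5,[(4,1),(2,3),(1,0),(12,1),(1,0),(1,2),(0,4),(9,
  2)]⟩ ⟨4,[(1,0),(3,1),(0,2),(7,0),(4,0),(6,0)]⟩),.k,.k,⟨false,0,⟨2,[(4,2),(3,0),(0,0),(12,2),(0,0),
  (1,1)]⟩,⟨4,[(1,0),(3,1),(0,2),(7,0),(4,0),(6,0)]⟩⟩,⟨true,0,⟨0,[(16,0),(5,0),(4,0)]⟩,⟨1,[(21,0),(8,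
  0),(0,0)]⟩⟩,⟨true,0,⟨0,[(41,0)]⟩,⟨0,[]⟩⟩,⟨false,1,⟨3,[(5,1),(13,1),(2,3),(9,0),(6,0)]⟩,⟨0,[(4,
  0)]⟩⟩,⟨false,0,⟨0,[(37,0)]⟩,⟨0,[(36,0),(2,0)]⟩⟩,⟨false,1,⟨1,[(19,0),(2,1),(9,0)]⟩,⟨0,[(0,0)]⟩⟩,
  [.o ⟨false,0,⟨0,[(8,0)]⟩,⟨3,[(19,0),(0,0),(16,3),(1,1)]⟩⟩,.o ⟨false,1,⟨3,[(5,1),(13,0),(0,0),(11,
  0),(6,0)]⟩,⟨0,[(37,0)]⟩⟩,.a ⟨true,0,⟨1,[(21,0),(8,0),(0,0)]⟩,⟨0,[(22,0)]⟩⟩ ⟨false,0,⟨0,[(4,0),(3,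
  0),(13,0)]⟩,⟨1,[(19,0),(19,0)]⟩⟩ ⟨true,0,⟨0,[(8,0),(13,0)]⟩,⟨1,[(21,0),(8,0),(0,0),(5,1)]⟩⟩,.o
  ⟨false,0,⟨1,[(21,0),(2,0),(2,0)]⟩,⟨1,[(22,1),(9,0),(5,0)]⟩⟩]⟩))))))) (.Q [0,-1,0,2,0,0,0,0,0,1]
  (.pp false [-1,1]) (.I [0,0,2,2,-1] (.R ⟨2,true,false,true,[0,1],[1,-1],[0,1,1,1],(⟨0,[]⟩,⟨0,[]⟩),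
  (⟨0,[(29,0)]⟩,⟨0,[(30,0)]⟩),⟨0,[]⟩,.k,.k,.k,(.r 1 ⟨0,[(0,0)]⟩ ⟨3,[(8,3),(6,0),(0,0),(15,3),(1,
  1)]⟩),.k,.k,⟨true,(-1),⟨0,[(0,0)]⟩,⟨0,[(8,0),(23,0)]⟩⟩,⟨false,0,⟨3,[(0,0),(3,1),(23,0),(2,1)]⟩,⟨0,
  [(26,0),(0,0),(6,0)]⟩⟩,⟨true,0,⟨0,[(37,0)]⟩,⟨0,[]⟩⟩,⟨false,1,⟨0,[(4,0),(27,0),(2,0)]⟩,⟨0,[(1,
  0)]⟩⟩,⟨false,0,⟨0,[(33,0)]⟩,⟨0,[(32,0),(2,0)]⟩⟩,⟨true,0,⟨0,[(4,0)]⟩,⟨1,[(1,0),(24,0),(0,0),(9,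
  0)]⟩⟩,[]⟩) (.Q [0,0,0,0,0,1,0,0,0,0,0,-1] (.p false [0,0,0,1] [] (⟨0,[(18,0)]⟩,⟨1,[(17,0),(8,0),
  (0,0)]⟩) .k 0 (⟨0,[]⟩,⟨0,[]⟩) .k .k) (.R ⟨0,false,false,false,[0,0,0,1],[0,1],[1,1,0,-1,0,0,0,0,
  1],(⟨0,[(19,0)]⟩,⟨1,[(18,0),(8,0),(0,0)]⟩),(⟨0,[(31,0)]⟩,⟨0,[(30,0)]⟩),⟨0,[(0,0)]⟩,.k,.k,(.x 0 ⟨0,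
  [(13,0),(10,0),(5,0)]⟩ ⟨3,[(16,0),(0,0),(13,3),(3,1)]⟩),(.x 0 ⟨0,[(13,0),(10,0),(5,0)]⟩ ⟨3,[(16,
  0),(0,0),(13,3),(3,1)]⟩),.k,.k,⟨true,0,⟨0,[(1,0),(1,0)]⟩,⟨0,[(2,0),(0,0),(2,0),(4,0),(4,0),(7,
  0)]⟩⟩,⟨false,1,⟨0,[(19,0),(15,0)]⟩,⟨1,[(18,0),(2,0),(2,0)]⟩⟩,⟨true,0,⟨0,[(33,0)]⟩,⟨0,[(34,0)]⟩⟩,
  ⟨false,1,⟨3,[(2,1),(13,1),(2,3),(9,0),(6,0)]⟩,⟨7,[(1,4),(1,5),(0,1),(1,3),(4,1),(6,3),(5,3),(11,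
  0)]⟩⟩,⟨false,0,⟨0,[]⟩,⟨0,[]⟩⟩,⟨false,0,⟨0,[]⟩,⟨0,[]⟩⟩,[.o ⟨false,0,⟨0,[(34,0)]⟩,⟨1,[(29,0),(3,1),
  (2,0)]⟩⟩,.o ⟨false,1,⟨3,[(2,1),(13,0),(0,0),(11,0),(6,0)]⟩,⟨0,[(5,0)]⟩⟩,.a ⟨true,0,⟨1,[(18,0),(8,
  0),(0,0)]⟩,⟨0,[(19,0)]⟩⟩ ⟨false,0,⟨1,[(1,0),(1,1),(32,0)]⟩,⟨3,[(2,1),(13,1),(12,0),(6,0)]⟩⟩ ⟨true,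
  0,⟨0,[(19,0),(14,0)]⟩,⟨1,[(5,0),(12,0),(14,0)]⟩⟩,.o ⟨false,0,⟨1,[(18,0),(2,0),(2,0)]⟩,⟨1,[(19,1),
  (9,0),(5,0)]⟩⟩]⟩) (.R ⟨1,false,false,false,[0,0,0,1],[0,1],[1,1,0,-1,0,0,0,0,1],(⟨0,[(19,0)]⟩,⟨1,
  [(18,0),(8,0),(0,0)]⟩),(⟨0,[(31,0)]⟩,⟨0,[(30,0)]⟩),⟨0,[(0,0)]⟩,.k,.k,(.x 0 ⟨1,[(0,1),(17,0),(2,0),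
  (2,0)]⟩ ⟨3,[(16,0),(0,0),(13,3),(3,1)]⟩),(.x 0 ⟨1,[(0,1),(17,0),(2,0),(2,0)]⟩ ⟨3,[(16,0),(0,0),
  (13,3),(3,1)]⟩),(.r (-1) ⟨1,[(1,1),(1,1),(31,0),(0,0)]⟩ ⟨4,[(2,3),(0,4),(2,1),(9,4),(4,1),(0,0),
  (1,2),(1,0)]⟩),.k,⟨true,0,⟨0,[(1,0),(1,0)]⟩,⟨0,[(2,0),(0,0),(2,0),(4,0),(4,0),(7,0)]⟩⟩,⟨false,1,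
  ⟨0,[(19,0),(15,0)]⟩,⟨1,[(18,0),(2,0),(2,0)]⟩⟩,⟨true,0,⟨0,[(33,0)]⟩,⟨0,[(34,0)]⟩⟩,⟨false,1,⟨3,[(2,
  1),(13,1),(2,3),(9,0),(6,0)]⟩,⟨7,[(1,4),(1,5),(0,1),(1,3),(4,1),(6,3),(5,3),(11,0)]⟩⟩,⟨false,0,⟨0,
  []⟩,⟨3,[(16,0),(0,0),(18,1)]⟩⟩,⟨false,1,⟨1,[(2,1),(13,0),(2,1),(9,0)]⟩,⟨1,[(1,1),(1,1),(2,0),(4,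
  0),(6,0),(5,0),(7,0)]⟩⟩,[.o ⟨false,0,⟨0,[(34,0)]⟩,⟨1,[(29,0),(3,1),(2,0)]⟩⟩,.o ⟨false,1,⟨3,[(2,1),
  (13,0),(0,0),(11,0),(6,0)]⟩,⟨0,[(5,0)]⟩⟩,.a ⟨true,0,⟨1,[(18,0),(8,0),(0,0)]⟩,⟨0,[(19,0)]⟩⟩ ⟨false,
  0,⟨1,[(1,0),(1,1),(32,0)]⟩,⟨3,[(2,1),(13,1),(12,0),(6,0)]⟩⟩ ⟨true,0,⟨0,[(19,0),(14,0)]⟩,⟨1,[(5,0),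
  (12,0),(14,0)]⟩⟩,.o ⟨false,0,⟨1,[(18,0),(2,0),(2,0)]⟩,⟨1,[(19,1),(9,0),(5,0)]⟩⟩]⟩))) (.Q [0,0,0,0,
  0,-1,0,0,0,1,0,-1] (.p false [0,0,0,1] [1] (⟨0,[(17,0)]⟩,⟨1,[(16,0),(8,0),(0,0)]⟩) .k 1 (⟨0,[]⟩,
  ⟨0,[]⟩) .k .k) (.I [0,0,-1,-1,1,0,0,0,-1] (.R ⟨1,false,false,false,[1,0,0,-1],[1,0,-1],[1,0,0,-1,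
  0,0,0,0,-1],(⟨1,[(18,0),(8,0),(0,0)]⟩,⟨0,[(19,0)]⟩),(⟨0,[(27,0)]⟩,⟨0,[(28,0)]⟩),⟨0,[(1,0)]⟩,.k,.k,
  (.r (-1) ⟨0,[(0,0)]⟩ ⟨5,[(3,1),(13,1),(6,0),(0,0),(6,1),(1,5)]⟩),.k,(.r (-1) ⟨1,[(11,1),(4,0),(18,
  0)]⟩ ⟨7,[(3,3),(8,4),(1,1),(2,1),(5,0),(0,5),(9,2)]⟩),.k,⟨false,1,⟨1,[(11,1),(4,0),(18,0)]⟩,⟨0,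
  [(3,0),(8,0),(11,0),(10,0)]⟩⟩,⟨true,0,⟨1,[(15,0),(2,0)]⟩,⟨0,[(19,0),(4,0)]⟩⟩,⟨false,1,⟨0,[(33,0),
  (2,0)]⟩,⟨0,[(34,0)]⟩⟩,⟨false,0,⟨1,[(3,1),(2,0),(2,1),(2,0),(5,0)]⟩,⟨1,[(16,0),(2,1),(2,1),(13,
  0)]⟩⟩,⟨true,0,⟨0,[]⟩,⟨0,[(38,0)]⟩⟩,⟨false,0,⟨1,[(3,1),(2,0),(5,0),(5,0),(16,0),(0,0)]⟩,⟨1,[(9,0),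
  (1,0),(4,0),(2,1),(2,0),(1,0)]⟩⟩,[.o ⟨false,0,⟨0,[(8,0)]⟩,⟨3,[(16,0),(0,0),(4,3),(13,1)]⟩⟩,.o
  ⟨false,1,⟨3,[(8,1),(14,1),(5,0),(6,2)]⟩,⟨0,[(22,0)]⟩⟩,.a ⟨true,0,⟨0,[(19,0)]⟩,⟨1,[(18,0),(8,0),(0,
  0)]⟩⟩ ⟨false,1,⟨0,[(0,0),(31,0)]⟩,⟨1,[(3,1),(30,1),(0,0),(0,0)]⟩⟩ ⟨true,0,⟨3,[(2,0),(5,0),(3,1),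
  (5,1),(4,0)]⟩,⟨0,[(19,0),(2,0)]⟩⟩,.o ⟨false,0,⟨0,[(13,0),(5,0),(4,0)]⟩,⟨7,[(16,0),(0,0),(0,3),(10,
  1),(5,3)]⟩⟩]⟩) (.R ⟨1,false,false,false,[1,0,0,-1],[0,1],[1,1,1],(⟨1,[(18,0),(8,0),(0,0)]⟩,⟨0,
  [(19,0)]⟩),(⟨0,[(31,0)]⟩,⟨0,[(30,0)]⟩),⟨0,[(1,0)]⟩,.k,.k,(.x 0 ⟨0,[(13,0),(10,0),(5,0)]⟩ ⟨3,[(16,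
  0),(0,0),(13,3),(3,1)]⟩),(.x 0 ⟨0,[(13,0),(10,0),(5,0)]⟩ ⟨3,[(16,0),(0,0),(13,3),(3,1)]⟩),(.r
  (-2) ⟨1,[(9,1),(6,0),(16,1),(1,0)]⟩ ⟨1,[(0,1),(23,0),(0,0),(8,1)]⟩),.k,⟨true,0,⟨0,[(33,0)]⟩,⟨1,
  [(0,1),(15,0),(19,0)]⟩⟩,⟨false,1,⟨1,[(18,0),(8,0),(0,0),(6,1)]⟩,⟨0,[(13,0),(5,0),(4,0)]⟩⟩,⟨true,
  (-1),⟨0,[(3,0)]⟩,⟨1,[(16,0),(18,0)]⟩⟩,⟨false,0,⟨1,[(0,1),(17,0),(8,0),(0,0),(6,0),(0,0)]⟩,⟨3,[(2,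
  1),(13,1),(2,3),(9,0),(6,0)]⟩⟩,⟨false,(-1),⟨0,[(0,0)]⟩,⟨3,[(9,3),(6,2),(0,0)]⟩⟩,⟨false,0,⟨1,[(0,
  1),(17,0),(8,0),(0,0),(5,1),(0,0),(0,0)]⟩,⟨1,[(2,1),(13,0),(2,1),(16,0)]⟩⟩,[.o ⟨false,0,⟨0,[(34,
  0)]⟩,⟨3,[(2,1),(13,0),(0,0),(11,0),(6,0)]⟩⟩,.o ⟨false,1,⟨3,[(16,0),(0,0),(16,3),(1,1)]⟩,⟨0,[(5,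
  0)]⟩⟩,.a ⟨true,0,⟨0,[(19,0)]⟩,⟨1,[(18,0),(8,0),(0,0)]⟩⟩ ⟨false,0,⟨1,[(24,0),(0,0)]⟩,⟨1,[(35,0),(0,
  0)]⟩⟩ ⟨true,0,⟨1,[(18,0),(8,0),(0,0),(5,1)]⟩,⟨0,[(5,0),(13,0)]⟩⟩,.o ⟨false,0,⟨0,[(13,0),(5,0),(4,
  0)]⟩,⟨7,[(16,0),(0,0),(0,3),(10,1),(5,3)]⟩⟩]⟩)) (.Q [0,0,0,0,0,0,1,1,1,1,-1,-1] (.p false [0,0,1]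
  [1,0,0,-1] (⟨0,[(27,0)]⟩,⟨0,[(26,0)]⟩) .k 2 (⟨1,[(17,0),(8,0),(0,0)]⟩,⟨0,[(18,0)]⟩) .k (.r 0 ⟨0,
  [(2,0),(2,1),(0,1),(3,1),(10,0),(1,0),(2,1),(3,1),(3,0)]⟩ ⟨1,[(11,0),(1,0),(1,0),(7,0),(8,0)]⟩))
  (.R ⟨0,false,false,true,[1,0,0,-1],[0,0,1],[1,1,1],(⟨1,[(18,0),(8,0),(0,0)]⟩,⟨0,[(19,0)]⟩),(⟨0,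
  [(28,0)]⟩,⟨0,[(27,0)]⟩),⟨0,[(1,0)]⟩,.k,.k,(.x 0 ⟨0,[(13,0),(10,0),(5,0)]⟩ ⟨3,[(16,0),(0,0),(13,3),
  (3,1)]⟩),.k,.k,.k,⟨true,0,⟨0,[(12,0),(11,0),(8,0)]⟩,⟨0,[(26,0)]⟩⟩,⟨false,1,⟨1,[(18,0),(5,1),(2,0),
  (0,0),(6,1)]⟩,⟨0,[(13,0),(5,0)]⟩⟩,⟨true,(-1),⟨0,[(3,0)]⟩,⟨1,[(16,0),(18,0)]⟩⟩,⟨false,0,⟨0,[(0,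
  0)]⟩,⟨1,[(8,1),(7,0),(2,1),(16,0)]⟩⟩,⟨false,0,⟨0,[]⟩,⟨0,[]⟩⟩,⟨false,0,⟨0,[]⟩,⟨0,[]⟩⟩,[.o ⟨false,0,
  ⟨0,[(22,0)]⟩,⟨3,[(8,1),(14,1),(5,0),(6,2)]⟩⟩,.o ⟨false,1,⟨3,[(16,0),(0,0),(4,3),(13,1)]⟩,⟨0,[(8,
  0)]⟩⟩,.a ⟨true,0,⟨0,[(19,0)]⟩,⟨1,[(18,0),(8,0),(0,0)]⟩⟩ ⟨false,0,⟨1,[(24,0),(0,0)]⟩,⟨1,[(35,0),(0,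
  0)]⟩⟩ ⟨true,0,⟨1,[(18,0),(3,1),(4,0),(0,0)]⟩,⟨0,[(8,0),(10,0)]⟩⟩,.o ⟨false,0,⟨0,[(13,0),(5,0),(4,
  0)]⟩,⟨7,[(16,0),(0,0),(0,3),(10,1),(5,3)]⟩⟩]⟩) (.R ⟨0,false,false,true,[1,0,0,-1],[0,0,1],[1,1,0,
  0,0,0,0,1],(⟨1,[(18,0),(8,0),(0,0)]⟩,⟨0,[(19,0)]⟩),(⟨0,[(28,0)]⟩,⟨0,[(27,0)]⟩),⟨0,[(1,0)]⟩,.k,.k,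
  (.r (-1) ⟨1,[(0,1),(8,1),(8,0),(3,1),(4,0),(0,0)]⟩ ⟨5,[(3,1),(13,1),(6,0),(0,0),(6,1),(1,5)]⟩),.k,
  .k,.k,⟨true,0,⟨0,[]⟩,⟨1,[(24,0),(0,0)]⟩⟩,⟨false,1,⟨1,[(18,0),(5,1),(2,0),(0,0),(6,1)]⟩,⟨0,[(13,0),
  (5,0)]⟩⟩,⟨false,0,⟨0,[(4,0)]⟩,⟨3,[(0,1),(8,1),(2,1),(3,0),(1,0),(5,3),(2,0),(0,0),(6,0)]⟩⟩,⟨true,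
  0,⟨1,[(3,0),(0,0),(13,0),(3,0),(1,0),(2,0),(0,0),(6,0)]⟩,⟨0,[(0,0)]⟩⟩,⟨false,0,⟨0,[]⟩,⟨0,[]⟩⟩,
  ⟨false,0,⟨0,[]⟩,⟨0,[]⟩⟩,[.o ⟨false,0,⟨0,[(22,0)]⟩,⟨3,[(8,1),(14,1),(5,0),(6,2)]⟩⟩,.o ⟨false,1,⟨3,
  [(16,0),(0,0),(4,3),(13,1)]⟩,⟨0,[(8,0)]⟩⟩,.a ⟨true,0,⟨0,[(19,0)]⟩,⟨1,[(18,0),(8,0),(0,0)]⟩⟩
  ⟨false,0,⟨0,[(26,0)]⟩,⟨0,[(14,0),(17,0)]⟩⟩ ⟨true,0,⟨1,[(18,0),(3,1),(4,0),(0,0)]⟩,⟨0,[(8,0),(10,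
  0)]⟩⟩,.o ⟨false,0,⟨2,[(0,0),(2,0),(15,1),(4,0),(1,0),(2,0),(2,0)]⟩,⟨7,[(16,0),(0,0),(0,3),(10,1),
  (5,3)]⟩⟩]⟩))))))))))

theorem ok130 : chk (cU (-1) false 2) t130 l68 = true := by decide +kernel

noncomputable def t138 : Tre :=
  (.Q [0,0,-1,0,0,0,-1,0,0,1,1] (.p true [1,-1,1] [] (⟨0,[(16,0),(1,0)]⟩,⟨0,[(0,0)]⟩) .k 0 (⟨0,[]⟩,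
  ⟨0,[]⟩) .k .k) (.R ⟨0,false,false,false,[0,1,-1],[0,1],[1,0,1,1],(⟨0,[(1,0)]⟩,⟨0,[(17,0),(1,0)]⟩),
  (⟨0,[(20,0)]⟩,⟨0,[(19,0)]⟩),⟨0,[(17,0)]⟩,.k,.k,.k,.k,.k,.k,⟨true,0,⟨0,[]⟩,⟨1,[(13,0),(0,0)]⟩⟩,
  ⟨false,1,⟨0,[(13,0),(10,0)]⟩,⟨3,[(0,0),(3,0),(9,0)]⟩⟩,⟨false,0,⟨1,[(3,1),(20,0),(0,0)]⟩,⟨1,[(12,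
  1),(0,1),(10,0),(0,0)]⟩⟩,⟨true,0,⟨0,[(3,0),(9,0),(10,0)]⟩,⟨0,[(12,0)]⟩⟩,⟨false,0,⟨0,[]⟩,⟨0,[]⟩⟩,
  ⟨false,0,⟨0,[]⟩,⟨0,[]⟩⟩,[.o ⟨false,0,⟨0,[(23,0)]⟩,⟨1,[(18,0),(3,1),(2,0)]⟩⟩,.o ⟨false,1,⟨3,[(5,0),
  (0,0),(16,3),(1,1)]⟩,⟨0,[(2,0),(0,0),(9,0),(10,0)]⟩⟩,.a ⟨true,0,⟨0,[(0,0)]⟩,⟨0,[(13,0)]⟩⟩ ⟨false,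
  0,⟨0,[(21,0),(1,0)]⟩,⟨1,[(22,1),(1,0),(0,0)]⟩⟩ ⟨true,0,⟨0,[(13,0),(9,0)]⟩,⟨1,[(0,0),(1,0),(0,0),
  (18,0),(1,0)]⟩⟩,.o ⟨false,0,⟨3,[(0,0),(3,0),(9,0)]⟩,⟨1,[(13,1),(4,0),(5,0)]⟩⟩]⟩) (.I [1,-1,0,0,0,
  0,0,0,-1] (.Q [0,0,0,0,0,1,0,0,0,0,0,-1] (.p false [0,0,0,1] [] (⟨0,[(9,0)]⟩,⟨1,[(8,0),(8,0),(0,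
  0)]⟩) .k 0 (⟨0,[]⟩,⟨0,[]⟩) .k .k) (.R ⟨0,false,false,false,[0,0,0,1],[0,0,1],[0,1,0,0,0,0,0,0,1],
  (⟨0,[(10,0)]⟩,⟨1,[(9,0),(8,0),(0,0)]⟩),(⟨0,[(19,0)]⟩,⟨0,[(18,0)]⟩),⟨0,[(0,0)]⟩,.k,.k,(.x 0 ⟨1,[(2,
  0),(9,0),(8,1)]⟩ ⟨3,[(7,0),(0,0),(13,3),(3,1)]⟩),.k,.k,.k,⟨true,1,⟨1,[(8,0),(5,1),(0,1),(10,0)]⟩,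
  ⟨0,[(1,0),(3,0)]⟩⟩,⟨false,1,⟨0,[(10,0),(4,0),(10,0)]⟩,⟨1,[(6,0),(2,0)]⟩⟩,⟨true,0,⟨0,[(29,0)]⟩,⟨0,
  []⟩⟩,⟨false,0,⟨0,[(1,0),(3,0),(4,0),(4,0),(10,0)]⟩,⟨1,[(8,0),(0,0),(1,0),(2,0),(12,0)]⟩⟩,⟨false,0,
  ⟨0,[]⟩,⟨0,[]⟩⟩,⟨false,0,⟨0,[]⟩,⟨0,[]⟩⟩,[.o ⟨false,0,⟨0,[(5,0),(9,0),(10,0)]⟩,⟨1,[(14,1),(5,0),(6,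
  0)]⟩⟩,.o ⟨false,1,⟨0,[(13,0),(13,0)]⟩,⟨0,[(11,0)]⟩⟩,.a ⟨true,0,⟨1,[(9,0),(8,0),(0,0)]⟩,⟨0,[(10,
  0)]⟩⟩ ⟨false,1,⟨3,[(7,0),(0,2)]⟩,⟨0,[(1,0)]⟩⟩ ⟨true,0,⟨0,[(5,0),(4,0),(4,0),(10,0)]⟩,⟨1,[(9,0),(1,
  0),(2,0)]⟩⟩,.o ⟨false,0,⟨1,[(9,0),(2,0),(2,0)]⟩,⟨1,[(10,1),(9,0),(5,0)]⟩⟩]⟩) (.R ⟨1,false,false,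
  false,[0,0,0,1],[0,0,1],[0,1,0,0,0,0,0,0,1],(⟨0,[(10,0)]⟩,⟨1,[(9,0),(8,0),(0,0)]⟩),(⟨0,[(19,0)]⟩,
  ⟨0,[(18,0)]⟩),⟨0,[(0,0)]⟩,.k,.k,(.x 0 ⟨1,[(2,0),(9,0),(8,1)]⟩ ⟨3,[(7,0),(0,0),(13,3),(3,1)]⟩),.k,
  (.r (-2) ⟨1,[(4,1),(3,0),(6,1),(2,1),(0,1),(6,1),(0,0)]⟩ ⟨0,[(1,0),(3,0),(19,0),(3,0)]⟩),.k,⟨true,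
  1,⟨1,[(8,0),(5,1),(0,1),(10,0)]⟩,⟨0,[(1,0),(3,0)]⟩⟩,⟨false,1,⟨0,[(10,0),(4,0),(10,0)]⟩,⟨1,[(6,0),
  (2,0)]⟩⟩,⟨true,0,⟨0,[(29,0)]⟩,⟨0,[]⟩⟩,⟨false,0,⟨0,[(1,0),(3,0),(4,0),(4,0),(10,0)]⟩,⟨1,[(8,0),(0,
  0),(1,0),(2,0),(12,0)]⟩⟩,⟨false,0,⟨0,[(25,0)]⟩,⟨0,[(24,0),(2,0)]⟩⟩,⟨false,0,⟨0,[(1,0),(3,0),(4,0),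
  (4,0),(9,0),(0,0)]⟩,⟨1,[(4,1),(3,0),(0,0),(8,0),(0,0),(7,0)]⟩⟩,[.o ⟨false,0,⟨0,[(5,0),(9,0),(10,
  0)]⟩,⟨1,[(14,1),(5,0),(6,0)]⟩⟩,.o ⟨false,1,⟨0,[(13,0),(13,0)]⟩,⟨0,[(11,0)]⟩⟩,.a ⟨true,0,⟨1,[(9,0),
  (8,0),(0,0)]⟩,⟨0,[(10,0)]⟩⟩ ⟨false,1,⟨3,[(7,0),(0,2)]⟩,⟨0,[(1,0)]⟩⟩ ⟨true,0,⟨0,[(5,0),(4,0),(4,0),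
  (10,0)]⟩,⟨1,[(9,0),(1,0),(2,0)]⟩⟩,.o ⟨false,0,⟨1,[(9,0),(2,0),(2,0)]⟩,⟨1,[(10,1),(9,0),(5,
  0)]⟩⟩]⟩)) (.I [0,1,-1,-2,0,0,0,0,1] (.I [1,-1,0,0,0,0,0,0,1] (.Q [0,0,0,0,0,1,0,0,0,0,0,-1] (.p
  false [0,0,0,1] [] (⟨0,[(11,0)]⟩,⟨1,[(10,0),(8,0),(0,0)]⟩) .k 0 (⟨0,[]⟩,⟨0,[]⟩) .k .k) (.R ⟨0,
  false,false,true,[0,0,0,1],[1,0,-1],[1,0,0,0,0,0,0,0,1],(⟨0,[(12,0)]⟩,⟨1,[(11,0),(8,0),(0,0)]⟩),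
  (⟨0,[(20,0)]⟩,⟨0,[(21,0)]⟩),⟨0,[(0,0)]⟩,.k,.k,(.x 0 ⟨1,[(4,0),(9,0),(8,1)]⟩ ⟨3,[(9,0),(0,0),(13,
  3),(3,1)]⟩),.k,.k,.k,⟨false,0,⟨0,[(1,0),(5,0),(20,0)]⟩,⟨1,[(9,0),(6,1),(0,1),(10,0)]⟩⟩,⟨true,0,⟨1,
  [(7,1),(4,1),(0,1),(14,0),(0,0)]⟩,⟨1,[(11,0),(5,1),(2,0),(0,0)]⟩⟩,⟨true,0,⟨0,[]⟩,⟨0,[(31,0)]⟩⟩,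
  ⟨false,1,⟨1,[(9,0),(2,1),(0,1),(15,0)]⟩,⟨1,[(1,1),(5,1),(3,0),(5,1),(2,0),(0,0),(6,1)]⟩⟩,⟨false,0,
  ⟨0,[]⟩,⟨0,[]⟩⟩,⟨false,0,⟨0,[]⟩,⟨0,[]⟩⟩,[.o ⟨false,0,⟨0,[(13,0)]⟩,⟨0,[(15,0),(13,0)]⟩⟩,.o ⟨false,1,
  ⟨1,[(16,1),(5,0),(6,0)]⟩,⟨0,[(7,0),(9,0),(10,0)]⟩⟩,.a ⟨true,0,⟨1,[(11,0),(8,0),(0,0)]⟩,⟨0,[(12,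
  0)]⟩⟩ ⟨false,0,⟨0,[(1,0)]⟩,⟨3,[(9,2),(0,0)]⟩⟩ ⟨true,0,⟨0,[(12,0),(0,0)]⟩,⟨1,[(7,1),(3,0),(5,1),(2,
  0),(0,0),(6,1)]⟩⟩,.o ⟨false,0,⟨1,[(11,0),(2,0),(2,0)]⟩,⟨1,[(12,1),(9,0),(5,0)]⟩⟩]⟩) (.R ⟨1,false,
  false,false,[1,0,0,-1],[0,0,1],[0,1,0,0,0,0,0,0,-1],(⟨1,[(11,0),(8,0),(0,0)]⟩,⟨0,[(12,0)]⟩),(⟨0,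
  [(21,0)]⟩,⟨0,[(20,0)]⟩),⟨0,[(0,0),(10,0)]⟩,.k,.k,(.x 0 ⟨1,[(4,0),(9,0),(8,1)]⟩ ⟨3,[(9,0),(0,0),
  (13,3),(3,1)]⟩),.k,(.r (-2) ⟨1,[(6,1),(2,0),(7,1),(2,1),(0,1),(6,1),(0,0)]⟩ ⟨1,[(1,0),(1,0),(3,1),
  (19,1)]⟩),.k,⟨true,1,⟨1,[(9,0),(6,1),(0,1),(10,0)]⟩,⟨0,[(1,0),(5,0)]⟩⟩,⟨false,1,⟨1,[(11,0),(5,1),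
  (2,0),(0,0),(6,1)]⟩,⟨1,[(7,1),(4,1),(0,1),(14,0),(0,0)]⟩⟩,⟨true,0,⟨0,[(31,0)]⟩,⟨0,[]⟩⟩,⟨false,0,
  ⟨1,[(1,1),(5,1),(3,0),(5,1),(2,0),(0,0),(6,1)]⟩,⟨1,[(9,0),(2,1),(0,1),(15,0)]⟩⟩,⟨false,0,⟨0,[(27,
  0)]⟩,⟨0,[(26,0),(2,0)]⟩⟩,⟨false,0,⟨1,[(1,1),(5,1),(3,0),(5,1),(2,0),(0,0),(5,1),(0,1)]⟩,⟨1,[(6,1),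
  (2,0),(2,1),(16,0)]⟩⟩,[.o ⟨false,0,⟨0,[(7,0),(9,0),(10,0)]⟩,⟨1,[(16,1),(5,0),(6,0)]⟩⟩,.o ⟨false,1,
  ⟨0,[(15,0),(13,0)]⟩,⟨0,[(13,0)]⟩⟩,.a ⟨true,0,⟨0,[(12,0)]⟩,⟨1,[(11,0),(8,0),(0,0)]⟩⟩ ⟨false,1,⟨3,
  [(9,2),(0,0)]⟩,⟨0,[(1,0)]⟩⟩ ⟨true,0,⟨1,[(7,1),(3,0),(5,1),(2,0),(0,0),(6,1)]⟩,⟨0,[(12,0),(0,0)]⟩⟩,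
  .o ⟨false,0,⟨1,[(4,0),(7,1),(1,0)]⟩,⟨7,[(9,0),(0,0),(0,3),(10,1),(5,3)]⟩⟩]⟩)) (.Q [0,1,0,-1,0,0,0,
  0,-1,-1,0,1] (.p true [0,0,0,1] [1] (⟨0,[(11,0)]⟩,⟨1,[(10,0),(8,0),(0,0)]⟩) .k 1 (⟨0,[]⟩,⟨0,[]⟩)
  .k .k) (.Q [0,0,0,0,0,1,0,0,0,0,0,-1] (.p false [0,0,0,1] [] (⟨0,[(12,0)]⟩,⟨1,[(11,0),(8,0),(0,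
  0)]⟩) .k 0 (⟨0,[]⟩,⟨0,[]⟩) .k .k) (.R ⟨0,false,false,false,[0,0,0,1],[1,-1],[1,0,0,0,0,0,0,0,1],
  (⟨0,[(13,0)]⟩,⟨1,[(12,0),(8,0),(0,0)]⟩),(⟨0,[(24,0)]⟩,⟨0,[(25,0)]⟩),⟨0,[(0,0)]⟩,.k,.k,(.r (-1) ⟨7,
  [(3,3),(6,0),(0,2),(17,1),(0,1)]⟩ ⟨0,[(2,0),(23,0),(1,0)]⟩),(.r 0 ⟨0,[(4,0),(21,0),(1,0)]⟩ ⟨1,[(1,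
  1),(10,0),(8,0),(0,0),(6,0),(0,0)]⟩),.k,.k,⟨false,0,⟨0,[(3,0),(22,0),(1,2)]⟩,⟨1,[(1,1),(10,0),(8,
  0),(0,0),(6,0),(0,0)]⟩⟩,⟨true,0,⟨1,[(5,0),(7,1),(1,0)]⟩,⟨1,[(12,0),(8,0),(0,0)]⟩⟩,⟨true,0,⟨0,[]⟩,
  ⟨0,[(32,0)]⟩⟩,⟨false,1,⟨0,[(1,0),(28,0)]⟩,⟨1,[(3,1),(8,0),(8,0),(0,0),(3,1),(1,5)]⟩⟩,⟨false,0,⟨0,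
  []⟩,⟨0,[]⟩⟩,⟨false,0,⟨0,[]⟩,⟨0,[]⟩⟩,[.o ⟨false,1,⟨1,[(23,0),(3,1),(2,0)]⟩,⟨0,[(28,0)]⟩⟩,.o ⟨false,
  1,⟨6,[(1,1),(1,1),(1,0),(1,0),(0,0),(3,0),(10,1),(6,5)]⟩,⟨0,[(28,0),(3,0)]⟩⟩,.a ⟨true,0,⟨1,[(12,
  0),(8,0),(0,0)]⟩,⟨0,[(13,0)]⟩⟩ ⟨true,0,⟨0,[(3,0),(22,0),(1,1)]⟩,⟨0,[(2,0)]⟩⟩ ⟨false,1,⟨5,[(1,1),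
  (1,1),(1,0),(7,3),(1,0),(7,0),(6,4)]⟩,⟨1,[(12,0),(8,0),(0,0),(5,1)]⟩⟩,.o ⟨false,0,⟨1,[(12,0),(2,
  0),(2,0)]⟩,⟨1,[(13,1),(9,0),(5,0)]⟩⟩]⟩) (.R ⟨1,false,false,true,[0,0,0,1],[1,-1],[0,1,0,0,0,0,0,0,
  1],(⟨0,[(13,0)]⟩,⟨1,[(12,0),(8,0),(0,0)]⟩),(⟨0,[(24,0)]⟩,⟨0,[(25,0)]⟩),⟨0,[(0,0)]⟩,.k,.k,(.r (-1)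
  ⟨7,[(3,3),(6,0),(0,2),(17,1),(0,1)]⟩ ⟨0,[(2,0),(23,0),(1,0)]⟩),(.r 0 ⟨0,[(4,0),(21,0),(1,0)]⟩ ⟨1,
  [(1,1),(10,0),(8,0),(0,0),(6,0),(0,0)]⟩),.k,.k,⟨false,0,⟨0,[(3,0),(22,0),(1,2)]⟩,⟨1,[(1,1),(10,0),
  (8,0),(0,0),(6,0),(0,0)]⟩⟩,⟨true,0,⟨1,[(5,0),(7,1),(1,0)]⟩,⟨1,[(12,0),(8,0),(0,0)]⟩⟩,⟨true,0,⟨0,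
  [(32,0)]⟩,⟨0,[]⟩⟩,⟨true,0,⟨0,[(1,0)]⟩,⟨1,[(3,1),(8,0),(8,0),(0,0),(3,1),(1,5)]⟩⟩,⟨false,0,⟨0,[(28,
  0)]⟩,⟨0,[(27,0),(2,0)]⟩⟩,⟨true,0,⟨0,[(1,0),(26,0)]⟩,⟨1,[(3,1),(8,0),(8,0),(0,0),(3,1),(1,3)]⟩⟩,
  [.o ⟨false,0,⟨17,[(1,5),(1,5),(1,3),(2,3),(3,2),(1,4),(1,0),(6,2),(5,0)]⟩,⟨3,[(10,0),(0,0),(16,3),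
  (1,1)]⟩⟩,.o ⟨false,1,⟨1,[(23,0),(3,1),(2,0)]⟩,⟨0,[(28,0)]⟩⟩,.a ⟨true,0,⟨1,[(12,0),(8,0),(0,0)]⟩,
  ⟨0,[(13,0)]⟩⟩ ⟨false,0,⟨0,[(3,0),(22,0),(1,1)]⟩,⟨1,[(10,0),(19,0)]⟩⟩ ⟨true,0,⟨6,[(1,2),(1,1),(0,
  0),(0,0),(2,0),(4,3),(0,0),(8,0)]⟩,⟨1,[(12,0),(8,0),(0,0),(5,1)]⟩⟩,.o ⟨false,0,⟨1,[(12,0),(2,0),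
  (2,0)]⟩,⟨1,[(13,1),(9,0),(5,0)]⟩⟩]⟩)) (.Q [0,0,0,0,0,1,0,0,0,0,0,-1] (.p false [0,0,0,1] [] (⟨0,
  [(12,0)]⟩,⟨1,[(11,0),(8,0),(0,0)]⟩) .k 0 (⟨0,[]⟩,⟨0,[]⟩) .k .k) (.R ⟨0,false,false,false,[0,0,0,
  1],[0,1],[0,1,0,-1,0,0,0,0,1],(⟨0,[(13,0)]⟩,⟨1,[(12,0),(8,0),(0,0)]⟩),(⟨0,[(25,0)]⟩,⟨0,[(24,0)]⟩),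
  ⟨0,[(0,0)]⟩,.k,.k,(.r (-1) ⟨7,[(3,3),(6,0),(0,2),(17,1),(0,1)]⟩ ⟨0,[(2,0),(23,0),(1,0)]⟩),(.r
  (-1) ⟨7,[(3,3),(6,0),(0,2),(17,1),(0,1)]⟩ ⟨0,[(2,0),(23,0),(1,0)]⟩),.k,.k,⟨true,0,⟨0,[(3,0)]⟩,⟨0,
  [(2,0),(23,1),(1,1)]⟩⟩,⟨false,1,⟨0,[(13,0),(15,0)]⟩,⟨1,[(12,0),(2,0),(2,0)]⟩⟩,⟨true,0,⟨0,[(27,
  0)]⟩,⟨0,[(28,0)]⟩⟩,⟨false,1,⟨1,[(10,0),(2,1),(14,1),(1,0)]⟩,⟨9,[(1,3),(1,5),(1,3),(1,1),(0,1),(0,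
  0),(2,2),(17,1)]⟩⟩,⟨false,0,⟨0,[]⟩,⟨0,[]⟩⟩,⟨false,0,⟨0,[]⟩,⟨0,[]⟩⟩,[.o ⟨false,0,⟨0,[(28,0)]⟩,⟨1,
  [(23,0),(3,1),(2,0)]⟩⟩,.o ⟨false,1,⟨3,[(10,0),(0,0),(16,3),(1,1)]⟩,⟨5,[(2,1),(0,1),(1,1),(1,1),(0,
  1),(14,0),(5,0)]⟩⟩,.a ⟨true,0,⟨1,[(12,0),(8,0),(0,0)]⟩,⟨0,[(13,0)]⟩⟩ ⟨false,0,⟨17,[(1,4),(1,10),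
  (1,2),(1,0),(0,0),(0,0),(1,0),(1,4),(12,6)]⟩,⟨1,[(10,0),(17,1),(1,0)]⟩⟩ ⟨true,0,⟨0,[(13,0),(14,
  0)]⟩,⟨7,[(2,1),(0,1),(1,0),(1,0),(0,0),(3,3),(10,0),(3,2)]⟩⟩,.o ⟨false,0,⟨1,[(12,0),(2,0),(2,0)]⟩,
  ⟨1,[(13,1),(9,0),(5,0)]⟩⟩]⟩) (.R ⟨1,false,false,true,[1,0,0,-1],[1,-1],[0,0,0,0,0,0,0,0,-1],(⟨1,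
  [(12,0),(8,0),(0,0)]⟩,⟨0,[(13,0)]⟩),(⟨0,[(24,0)]⟩,⟨0,[(25,0)]⟩),⟨0,[(0,0),(11,0)]⟩,.k,.k,(.x 0 ⟨1,
  [(5,0),(9,0),(8,1)]⟩ ⟨3,[(10,0),(0,0),(13,3),(3,1)]⟩),(.r 0 ⟨0,[(2,0),(23,0),(1,0)]⟩ ⟨7,[(3,3),(6,
  0),(0,2),(17,1),(0,1)]⟩),.k,.k,⟨false,1,⟨1,[(10,0),(17,1),(1,0)]⟩,⟨0,[(3,0),(24,0)]⟩⟩,⟨true,0,⟨1,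
  [(12,0),(2,0),(2,0)]⟩,⟨0,[(13,0)]⟩⟩,⟨false,1,⟨3,[(10,0),(0,0),(18,1)]⟩,⟨0,[]⟩⟩,⟨false,0,⟨9,[(1,3),
  (1,5),(1,3),(1,1),(0,1),(0,0),(2,2),(17,1)]⟩,⟨1,[(10,0),(2,1),(14,1),(1,0)]⟩⟩,⟨true,0,⟨0,[(28,
  0)]⟩,⟨0,[(27,0)]⟩⟩,⟨false,0,⟨17,[(1,11),(1,5),(1,3),(2,3),(3,2),(1,4),(1,0),(6,2),(5,0)]⟩,⟨1,[(10,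
  0),(2,1),(16,0)]⟩⟩,[.o ⟨false,0,⟨5,[(2,1),(0,1),(1,1),(1,1),(0,1),(14,0),(5,0)]⟩,⟨3,[(10,0),(0,0),
  (16,3),(1,1)]⟩⟩,.o ⟨false,1,⟨1,[(23,0),(3,1),(2,0)]⟩,⟨0,[(28,0)]⟩⟩,.a ⟨true,0,⟨0,[(13,0)]⟩,⟨1,
  [(12,0),(8,0),(0,0)]⟩⟩ ⟨false,1,⟨1,[(10,0),(19,0)]⟩,⟨6,[(1,3),(1,1),(0,0),(0,0),(2,0),(4,3),(0,0),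
  (8,0)]⟩⟩ ⟨true,0,⟨7,[(2,1),(0,1),(1,0),(1,0),(0,0),(3,3),(10,0),(3,2)]⟩,⟨0,[(13,0),(14,0)]⟩⟩,.o
  ⟨false,0,⟨1,[(5,0),(7,1),(1,0)]⟩,⟨7,[(10,0),(0,0),(0,3),(10,1),(5,3)]⟩⟩]⟩)))) (.I [0,-1,0,-1,1,0,
  0,0,1] (.Q [0,-1,0,1,1,0,-1,-1,1,1,1,-1] (.p true [1,-1,1] [0,0,0,1] (⟨0,[(20,0),(1,0)]⟩,⟨0,[(4,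
  0)]⟩) .k 2 (⟨0,[(11,0)]⟩,⟨1,[(10,0),(8,0),(0,0)]⟩) .k (.x (-1) ⟨3,[(8,0),(0,0),(6,3),(3,3),(6,
  1)]⟩ ⟨1,[(6,1),(5,1),(6,1),(7,0),(0,0)]⟩)) (.I [1,0,-1,-2,1,0,0,0,1] (.Q [0,-1,0,0,0,0,1,1,-1,0,
  -1,1] (.p false [0,0,1] [0,0,0,1] (⟨0,[(22,0)]⟩,⟨0,[(21,0)]⟩) .k 2 (⟨0,[(13,0)]⟩,⟨1,[(12,0),(8,0),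
  (0,0)]⟩) .k (.x (-1) ⟨3,[(10,0),(0,0),(6,3),(3,3),(6,1)]⟩ ⟨1,[(8,1),(5,1),(6,1),(7,0),(0,0)]⟩))
  (.Q [0,0,0,0,0,2,0,0,0,-1] (.pp true [-1,1]) (.R ⟨0,false,false,false,[0,0,0,1],[0,0,1],[],(⟨0,
  [(15,0)]⟩,⟨1,[(14,0),(8,0),(0,0)]⟩),(⟨0,[(24,0)]⟩,⟨0,[(23,0)]⟩),⟨1,[(0,0),(13,0)]⟩,.k,.k,(.r (-1)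
  ⟨3,[(2,1),(10,0),(17,0)]⟩ ⟨3,[(5,1),(4,0),(1,0),(6,0),(0,0),(13,0)]⟩),.k,.k,.k,⟨true,1,⟨1,[(19,1),
  (0,1),(10,0),(0,0)]⟩,⟨0,[(10,0)]⟩⟩,⟨false,1,⟨0,[(15,0),(4,0),(10,0)]⟩,⟨1,[(11,0),(2,0)]⟩⟩,⟨true,0,
  ⟨1,[(1,1),(12,0),(1,0),(2,0)]⟩,⟨0,[(6,0)]⟩⟩,⟨false,0,⟨0,[(1,0)]⟩,⟨15,[(3,7),(5,7),(2,0),(0,4),(0,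
  3),(10,1)]⟩⟩,⟨false,0,⟨0,[]⟩,⟨0,[]⟩⟩,⟨false,0,⟨0,[]⟩,⟨0,[]⟩⟩,[.o ⟨false,0,⟨2,[(1,1),(4,1),(0,0),
  (2,0),(3,0),(16,0)]⟩,⟨1,[(19,1),(5,0),(6,0)]⟩⟩,.o ⟨false,1,⟨0,[(18,0),(13,0)]⟩,⟨0,[(16,0)]⟩⟩,.a
  ⟨true,0,⟨1,[(14,0),(8,0),(0,0)]⟩,⟨0,[(15,0)]⟩⟩ ⟨false,1,⟨3,[(12,0),(0,0),(18,1)]⟩,⟨0,[]⟩⟩ ⟨true,0,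
  ⟨0,[(1,0),(4,0)]⟩,⟨1,[(14,0),(1,0),(2,0)]⟩⟩,.o ⟨false,0,⟨1,[(14,0),(2,0),(2,0)]⟩,⟨1,[(15,1),(9,0),
  (5,0)]⟩⟩]⟩) (.Q [0,1,0,0,0,0,0,0,1,0,0,-1] (.p false [0,0,0,1] [] (⟨0,[(15,0)]⟩,⟨1,[(14,0),(8,0),
  (0,0)]⟩) .k 0 (⟨0,[]⟩,⟨0,[]⟩) .k .k) (.Q [0,-1,0,-1,1,0,0,0,1,0,0,-1] (.p false [0,0,0,1] [] (⟨0,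
  [(16,0)]⟩,⟨1,[(15,0),(8,0),(0,0)]⟩) .k 0 (⟨0,[]⟩,⟨0,[]⟩) .k .k) (.R ⟨1,false,false,false,[1,0,0,
  -1],[1,-1],[0,0,0,0,0,0,0,0,-1],(⟨1,[(16,0),(8,0),(0,0)]⟩,⟨0,[(17,0)]⟩),(⟨0,[(28,0)]⟩,⟨0,[(29,
  0)]⟩),⟨1,[(2,0),(13,0)]⟩,.k,.k,(.r (-1) ⟨2,[(3,1),(0,0),(6,0),(2,0),(1,0),(4,0),(11,0)]⟩ ⟨1,[(5,
  0),(2,0),(0,0),(2,0),(4,0),(14,0)]⟩),(.r 0 ⟨3,[(7,1),(4,0),(1,0),(6,0),(0,0),(13,0)]⟩ ⟨3,[(4,1),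
  (10,0),(17,0)]⟩),.k,.k,⟨false,0,⟨1,[(3,1),(12,0),(1,0),(2,0),(10,1)]⟩,⟨3,[(4,1),(10,0),(17,0)]⟩⟩,
  ⟨true,0,⟨1,[(16,0),(2,0),(2,0)]⟩,⟨0,[(17,0)]⟩⟩,⟨false,1,⟨3,[(14,0),(0,0),(18,1)]⟩,⟨0,[]⟩⟩,⟨false,
  1,⟨0,[(0,0)]⟩,⟨0,[(3,0),(17,0),(10,0)]⟩⟩,⟨true,0,⟨0,[(32,0)]⟩,⟨0,[(31,0)]⟩⟩,⟨false,1,⟨0,[(1,0),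
  (32,0)]⟩,⟨0,[(3,0),(17,0)]⟩⟩,[.o ⟨false,1,⟨3,[(4,1),(4,0),(4,0),(4,0),(7,0)]⟩,⟨0,[(32,0)]⟩⟩,.o
  ⟨false,1,⟨3,[(0,1),(2,1),(7,1),(15,0),(6,0)]⟩,⟨0,[(32,0),(3,0)]⟩⟩,.a ⟨true,0,⟨0,[(17,0)]⟩,⟨1,[(16,
  0),(8,0),(0,0)]⟩⟩ ⟨true,0,⟨1,[(3,1),(12,0),(1,0),(2,0)]⟩,⟨0,[(8,0)]⟩⟩ ⟨false,1,⟨5,[(0,3),(2,1),(7,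
  1),(2,0),(1,1),(17,0)]⟩,⟨0,[(17,0),(14,0)]⟩⟩,.o ⟨false,0,⟨1,[(9,0),(7,1),(1,0)]⟩,⟨7,[(14,0),(0,0),
  (0,3),(10,1),(5,3)]⟩⟩]⟩) (.R ⟨2,true,false,false,[0,1],[0,0,0,1],[0,0,1,1],(⟨0,[]⟩,⟨0,[]⟩),(⟨0,
  [(17,0)]⟩,⟨1,[(16,0),(8,0),(0,0)]⟩),⟨0,[]⟩,.k,.k,.k,(.r 0 ⟨9,[(0,1),(6,3),(6,1),(1,0),(2,0),(2,2),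
  (0,1),(12,1)]⟩ ⟨3,[(4,1),(10,0),(17,0)]⟩),.k,.k,⟨false,0,⟨27,[(0,9),(2,1),(3,9),(3,1),(2,2),(1,5),
  (10,1),(5,4)]⟩,⟨3,[(4,1),(10,0),(17,0)]⟩⟩,⟨true,0,⟨1,[(16,0),(2,0),(2,0)]⟩,⟨0,[(17,0)]⟩⟩,⟨false,1,
  ⟨3,[(14,0),(0,0),(18,1)]⟩,⟨0,[]⟩⟩,⟨true,1,⟨7,[(1,3),(4,5),(7,0),(1,1),(10,0),(3,1)]⟩,⟨0,[(0,0)]⟩⟩,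
  ⟨true,0,⟨0,[(32,0)]⟩,⟨0,[(31,0)]⟩⟩,⟨false,1,⟨0,[(1,0),(32,0)]⟩,⟨0,[(3,0),(17,0)]⟩⟩,[]⟩)) (.K ⟨1,
  [1,0,0,-1],0,0,(⟨1,[(15,0),(8,0),(0,0)]⟩,⟨0,[(16,0)]⟩),.k,(.r (-1) ⟨7,[(0,1),(1,1),(0,1),(6,1),(2,
  2),(1,1),(14,1),(1,2)]⟩ ⟨1,[(4,0),(2,0),(0,0),(2,0),(4,0),(14,0)]⟩),(.r 0 ⟨3,[(6,1),(4,0),(1,0),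
  (6,0),(0,0),(13,0)]⟩ ⟨3,[(3,1),(10,0),(17,0)]⟩),.k,.k,[⟨1,[(15,0),(5,0),(0,0),(1,0),(0,0)]⟩,⟨1,
  [(8,0),(7,1),(1,0)]⟩,⟨1,[(7,1),(7,0),(8,0),(0,0)]⟩,⟨0,[(0,0)]⟩]⟩))) (.Q [0,-1,0,0,0,0,1,1,1,1,-1,
  -1] (.p false [0,0,1] [1,0,0,-1] (⟨0,[(23,0)]⟩,⟨0,[(22,0)]⟩) .k 2 (⟨1,[(13,0),(8,0),(0,0)]⟩,⟨0,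
  [(14,0)]⟩) .k (.x (-1) ⟨3,[(11,0),(0,0),(6,3),(3,3),(6,1)]⟩ ⟨1,[(9,1),(5,1),(6,1),(7,0),(0,0)]⟩))
  (.Q [0,0,0,0,0,1,0,0,0,0,0,-1] (.p false [0,0,0,1] [] (⟨0,[(15,0)]⟩,⟨1,[(14,0),(8,0),(0,0)]⟩) .k
  0 (⟨0,[]⟩,⟨0,[]⟩) .k .k) (.R ⟨0,false,false,true,[0,0,0,1],[1,0,-1],[0,1,0,-1,0,0,0,0,1],(⟨0,[(16,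
  0)]⟩,⟨1,[(15,0),(8,0),(0,0)]⟩),(⟨0,[(24,0)]⟩,⟨0,[(25,0)]⟩),⟨0,[(0,0)]⟩,.k,.k,(.r (-1) ⟨3,[(3,1),
  (10,0),(17,0)]⟩ ⟨3,[(6,1),(4,0),(1,0),(6,0),(0,0),(13,0)]⟩),.k,.k,.k,⟨false,0,⟨0,[(1,0),(8,0),(0,
  0),(4,0),(15,0)]⟩,⟨0,[(6,0),(3,0),(10,0),(2,0),(0,0),(6,0)]⟩⟩,⟨true,0,⟨1,[(11,1),(4,1),(0,1),(14,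
  0),(0,0)]⟩,⟨1,[(15,0),(5,1),(2,0),(0,0)]⟩⟩,⟨true,0,⟨0,[(30,0)]⟩,⟨0,[(31,0)]⟩⟩,⟨false,1,⟨1,[(13,0),
  (2,1),(0,1),(15,0)]⟩,⟨0,[(1,0)]⟩⟩,⟨false,0,⟨0,[]⟩,⟨0,[]⟩⟩,⟨false,0,⟨0,[]⟩,⟨0,[]⟩⟩,[.o ⟨false,0,⟨0,
  [(17,0)]⟩,⟨0,[(19,0),(13,0)]⟩⟩,.o ⟨false,1,⟨1,[(20,1),(5,0),(6,0)]⟩,⟨0,[(11,0),(9,0),(10,0)]⟩⟩,.a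
  ⟨true,0,⟨1,[(15,0),(8,0),(0,0)]⟩,⟨0,[(16,0)]⟩⟩ ⟨false,0,⟨0,[(1,0),(8,0),(5,0)]⟩,⟨7,[(6,3),(6,2),
  (0,0),(17,1),(0,1)]⟩⟩ ⟨true,0,⟨0,[(16,0),(0,0)]⟩,⟨1,[(11,1),(3,0),(5,1),(2,0),(0,0),(6,1)]⟩⟩,.o
  ⟨false,0,⟨1,[(15,0),(2,0),(2,0)]⟩,⟨1,[(16,1),(9,0),(5,0)]⟩⟩]⟩) (.Q [0,-1,0,2,0,0,1,1,0,1,-1] (.p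
  false [0,0,1] [1] (⟨0,[(25,0)]⟩,⟨0,[(24,0)]⟩) .k 1 (⟨0,[]⟩,⟨0,[]⟩) .k .k) (.R ⟨1,true,false,false,
  [1,0,-1],[0,1],[0,0,0,0,0,0,0,-1],(⟨0,[(25,0)]⟩,⟨0,[(26,0)]⟩),(⟨0,[(29,0)]⟩,⟨0,[(28,0)]⟩),⟨0,[(1,
  1),(8,0),(5,0)]⟩,.k,.k,.k,.k,(.x 1 ⟨0,[(1,2),(0,0),(4,0),(2,0),(0,1),(0,0),(3,0)]⟩ ⟨3,[(14,0),(0,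
  0),(6,3),(3,3),(2,7),(3,5)]⟩),.k,⟨false,2,⟨1,[(11,1),(10,1),(2,1),(0,1),(6,2),(0,0)]⟩,⟨0,[(12,0),
  (19,0)]⟩⟩,⟨true,1,⟨0,[(22,0),(2,0),(0,0),(6,0)]⟩,⟨0,[(12,0),(5,0),(11,0)]⟩⟩,⟨false,1,⟨3,[(14,0),
  (0,0),(18,1)]⟩,⟨0,[]⟩⟩,⟨true,0,⟨0,[(0,0),(30,0)]⟩,⟨0,[(11,0)]⟩⟩,⟨true,0,⟨0,[(32,0)]⟩,⟨0,[(31,
  0)]⟩⟩,⟨false,0,⟨0,[(0,0)]⟩,⟨3,[(4,1),(6,3),(2,0),(15,1),(3,0)]⟩⟩,[]⟩) (.R ⟨1,false,false,true,[0,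
  0,0,1],[1,-1,-1],[1,1,0,-1,0,0,0,0,1],(⟨0,[(17,0)]⟩,⟨1,[(16,0),(8,0),(0,0)]⟩),(⟨0,[(1,1),(8,0),(5,
  0)]⟩,⟨0,[(26,0),(2,0)]⟩),⟨0,[(1,0)]⟩,.k,.k,(.r (-1) ⟨3,[(4,1),(10,0),(17,0)]⟩ ⟨3,[(7,1),(4,0),(1,
  0),(6,0),(0,0),(13,0)]⟩),(.r 1 ⟨0,[(2,0),(9,0),(4,0),(0,0),(13,0)]⟩ ⟨1,[(0,0),(13,0),(6,0),(0,1),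
  (2,0),(0,0),(6,1),(0,0)]⟩),.k,.k,⟨true,(-1),⟨0,[(2,0),(9,0),(4,0),(0,0)]⟩,⟨0,[(0,0),(6,0),(14,0),
  (2,0),(0,0),(6,0)]⟩⟩,⟨false,0,⟨1,[(12,1),(4,1),(0,1),(14,0),(0,0)]⟩,⟨1,[(16,0),(5,1),(2,0),(0,0),
  (6,1)]⟩⟩,⟨true,0,⟨0,[(31,0)]⟩,⟨0,[(32,0)]⟩⟩,⟨false,1,⟨1,[(11,1),(2,0),(2,1),(16,0)]⟩,⟨0,[(2,0),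
  (29,0)]⟩⟩,⟨false,0,⟨0,[]⟩,⟨3,[(14,0),(0,0),(18,1)]⟩⟩,⟨false,1,⟨1,[(14,0),(2,1),(0,1),(15,0)]⟩,⟨0,
  [(2,0)]⟩⟩,[.o ⟨false,0,⟨0,[(11,0)]⟩,⟨7,[(2,1),(4,3),(7,0),(1,1),(2,5),(6,0),(5,1),(0,3)]⟩⟩,.o
  ⟨false,1,⟨5,[(6,1),(4,3),(2,0),(6,1),(5,0),(6,1)]⟩,⟨0,[(12,0),(9,0),(9,0),(0,0)]⟩⟩,.a ⟨true,0,⟨1,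
  [(16,0),(8,0),(0,0)]⟩,⟨0,[(17,0)]⟩⟩ ⟨false,0,⟨0,[(2,0),(8,0),(5,0)]⟩,⟨7,[(7,3),(6,2),(0,0),(17,1),
  (0,1)]⟩⟩ ⟨true,0,⟨0,[(11,0),(5,0)]⟩,⟨1,[(12,1),(3,0),(5,1),(2,0),(0,0),(5,1),(0,1)]⟩⟩,.o ⟨false,0,
  ⟨1,[(16,0),(2,0),(2,0)]⟩,⟨1,[(17,1),(9,0),(5,0)]⟩⟩]⟩))) (.I [1,-1,0,0,1,0,0,-1,-1] (.Q [0,0,0,0,0,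
  0,1,1,1,1,-1,-1] (.p false [0,0,1] [1,0,0,-1] (⟨0,[(25,0)]⟩,⟨0,[(24,0)]⟩) .k 2 (⟨1,[(15,0),(8,0),
  (0,0)]⟩,⟨0,[(16,0)]⟩) .k (.r 0 ⟨1,[(11,1),(2,0),(17,0)]⟩ ⟨0,[(0,0),(34,0)]⟩)) (.Q [0,0,0,0,0,1,0,
  0,0,0,0,-1] (.p false [0,0,0,1] [] (⟨0,[(17,0)]⟩,⟨1,[(16,0),(8,0),(0,0)]⟩) .k 0 (⟨0,[]⟩,⟨0,[]⟩)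
  .k .k) (.R ⟨0,false,false,true,[0,0,0,1],[1,0,-1],[1,0,1],(⟨0,[(18,0)]⟩,⟨1,[(17,0),(8,0),(0,0)]⟩),
  (⟨0,[(26,0)]⟩,⟨0,[(27,0)]⟩),⟨0,[(0,0)]⟩,.k,.k,(.r (-1) ⟨3,[(5,1),(10,0),(17,0)]⟩ ⟨3,[(8,1),(4,0),
  (1,0),(6,0),(0,0),(13,0)]⟩),.k,.k,.k,⟨false,0,⟨1,[(13,1),(20,0),(0,0)]⟩,⟨0,[(22,0),(0,0),(10,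
  0)]⟩⟩,⟨true,0,⟨1,[(13,1),(4,1),(0,1),(14,0),(0,0)]⟩,⟨1,[(17,0),(5,1),(2,0),(0,0)]⟩⟩,⟨false,0,⟨0,
  [(2,0),(10,0)]⟩,⟨1,[(16,0),(17,0)]⟩⟩,⟨true,0,⟨0,[(3,0)]⟩,⟨0,[(1,0)]⟩⟩,⟨false,0,⟨0,[]⟩,⟨0,[]⟩⟩,
  ⟨false,0,⟨0,[]⟩,⟨0,[]⟩⟩,[.o ⟨false,0,⟨0,[(19,0)]⟩,⟨0,[(21,0),(13,0)]⟩⟩,.o ⟨false,1,⟨65,[(2,3),(0,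
  23),(2,23),(0,9),(4,13),(1,1),(0,2),(12,24)]⟩,⟨0,[(13,0),(9,0),(10,0)]⟩⟩,.a ⟨true,0,⟨1,[(17,0),(8,
  0),(0,0)]⟩,⟨0,[(18,0)]⟩⟩ ⟨false,0,⟨0,[(31,0)]⟩,⟨3,[(15,0),(0,0),(17,1)]⟩⟩ ⟨true,0,⟨0,[(18,0),(0,
  0)]⟩,⟨1,[(13,1),(3,0),(5,1),(2,0),(0,0),(6,1)]⟩⟩,.o ⟨false,0,⟨1,[(17,0),(2,0),(2,0)]⟩,⟨1,[(18,1),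
  (9,0),(5,0)]⟩⟩]⟩) (.I [0,0,0,0,0,0,0,0,-1] (.R ⟨1,false,false,false,[1,0,0,-1],[1,-1],[0,0,0,0,0,
  0,0,0,-1],(⟨1,[(18,0),(8,0),(0,0)]⟩,⟨0,[(19,0)]⟩),(⟨0,[(30,0)]⟩,⟨0,[(31,0)]⟩),⟨0,[(1,0),(16,0)]⟩,
  .k,.k,(.r (-1) ⟨3,[(0,3),(5,1),(9,0),(18,0)]⟩ ⟨3,[(5,0),(1,0),(3,0),(2,1),(2,0),(1,1),(4,0),(9,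
  2)]⟩),(.r 0 ⟨3,[(9,1),(4,0),(1,0),(6,0),(0,0),(13,0)]⟩ ⟨3,[(6,1),(10,0),(17,0)]⟩),.k,.k,⟨false,0,
  ⟨0,[(0,0),(33,0)]⟩,⟨3,[(6,1),(10,0),(17,0)]⟩⟩,⟨true,0,⟨1,[(18,0),(2,0),(2,0)]⟩,⟨0,[(19,0)]⟩⟩,
  ⟨false,1,⟨3,[(16,0),(0,0),(18,1)]⟩,⟨0,[]⟩⟩,⟨false,1,⟨15,[(2,1),(2,5),(0,7),(4,3),(2,3),(3,3),(10,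
  0),(6,10)]⟩,⟨0,[(0,0),(18,0),(14,0)]⟩⟩,⟨true,0,⟨0,[(34,0)]⟩,⟨0,[(33,0)]⟩⟩,⟨false,1,⟨3,[(2,1),(2,
  1),(23,0),(6,2)]⟩,⟨0,[(0,0),(18,0)]⟩⟩,[.o ⟨false,1,⟨3,[(6,1),(4,0),(4,0),(4,0),(7,0)]⟩,⟨0,[(34,
  0)]⟩⟩,.o ⟨false,1,⟨5,[(0,1),(5,1),(4,1),(1,1),(0,1),(14,0),(5,0),(0,3)]⟩,⟨0,[(34,0),(3,0)]⟩⟩,.a
  ⟨true,0,⟨0,[(19,0)]⟩,⟨1,[(18,0),(8,0),(0,0)]⟩⟩ ⟨true,0,⟨0,[(0,0)]⟩,⟨0,[(10,0)]⟩⟩ ⟨false,1,⟨19,[(0,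
  1),(5,7),(4,3),(1,3),(0,3),(1,2),(1,9),(10,0),(6,11)]⟩,⟨0,[(19,0),(14,0)]⟩⟩,.o ⟨false,0,⟨1,[(11,
  0),(7,1),(1,0)]⟩,⟨7,[(16,0),(0,0),(0,3),(10,1),(5,3)]⟩⟩]⟩) (.R ⟨1,false,false,true,[1,0,0,-1],[0,
  0,1],[0,1,0,0,0,0,0,0,-1],(⟨1,[(18,0),(8,0),(0,0)]⟩,⟨0,[(19,0)]⟩),(⟨0,[(28,0)]⟩,⟨0,[(27,0)]⟩),⟨0,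
  [(1,0),(16,0)]⟩,.k,.k,(.r (-1) ⟨0,[(3,0),(10,0),(18,0),(1,0)]⟩ ⟨3,[(0,2),(8,1),(0,0),(3,0),(2,0),
  (5,0),(0,0)]⟩),.k,(.r (-2) ⟨3,[(3,3),(2,1),(9,0),(18,0),(2,3)]⟩ ⟨0,[(0,0),(13,0),(19,0)]⟩),.k,
  ⟨true,1,⟨0,[(3,0),(34,0)]⟩,⟨0,[(0,0),(13,0)]⟩⟩,⟨false,1,⟨1,[(18,0),(5,1),(2,0),(0,0),(6,1)]⟩,⟨1,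
  [(14,1),(4,1),(0,1),(14,0),(0,0)]⟩⟩,⟨true,0,⟨0,[(38,0)]⟩,⟨0,[]⟩⟩,⟨false,0,⟨0,[(2,0)]⟩,⟨0,[(4,0),
  (31,0)]⟩⟩,⟨false,0,⟨0,[(34,0)]⟩,⟨3,[(6,1),(9,0),(15,1),(3,0)]⟩⟩,⟨false,0,⟨0,[(2,0),(31,0)]⟩,⟨1,
  [(3,1),(9,1),(0,1),(4,1),(15,0),(0,0)]⟩⟩,[.o ⟨false,0,⟨0,[(22,0)]⟩,⟨0,[(20,0),(15,0)]⟩⟩,.o ⟨false,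
  0,⟨0,[(14,0),(9,0),(10,0)]⟩,⟨65,[(3,3),(0,23),(2,23),(0,9),(4,13),(1,1),(0,2),(12,24)]⟩⟩,.a ⟨true,
  0,⟨0,[(19,0)]⟩,⟨1,[(18,0),(8,0),(0,0)]⟩⟩ ⟨true,0,⟨1,[(4,1),(9,1),(3,0),(5,1),(2,0),(0,0),(6,1)]⟩,
  ⟨0,[(0,0)]⟩⟩ ⟨false,0,⟨1,[(14,1),(3,0),(5,1),(2,0),(0,0),(6,1)]⟩,⟨0,[(19,0),(0,0),(15,0)]⟩⟩,.o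
  ⟨false,0,⟨1,[(11,0),(7,1),(1,0)]⟩,⟨7,[(16,0),(0,0),(0,3),(10,1),(5,3)]⟩⟩]⟩))) (.Q [0,0,0,0,0,1,0,
  0,0,0,0,-1] (.p false [0,0,0,1] [] (⟨0,[(17,0)]⟩,⟨1,[(16,0),(8,0),(0,0)]⟩) .k 0 (⟨0,[]⟩,⟨0,[]⟩)
  .k .k) (.R ⟨0,false,false,true,[0,0,0,1],[0,1],[0,1,0,0,0,0,0,0,1],(⟨0,[(18,0)]⟩,⟨1,[(17,0),(8,0),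
  (0,0)]⟩),(⟨0,[(30,0)]⟩,⟨0,[(29,0)]⟩),⟨0,[(0,0)]⟩,.k,.k,(.r (-1) ⟨3,[(5,1),(10,0),(17,0)]⟩ ⟨3,[(8,
  1),(4,0),(1,0),(6,0),(0,0),(13,0)]⟩),(.r (-1) ⟨3,[(5,1),(10,0),(17,0)]⟩ ⟨3,[(8,1),(4,0),(1,0),(6,
  0),(0,0),(13,0)]⟩),.k,.k,⟨true,1,⟨3,[(5,1),(10,0),(17,0)]⟩,⟨1,[(1,1),(11,1),(3,0),(5,1),(2,0),(0,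
  0),(5,1)]⟩⟩,⟨false,1,⟨0,[(18,0),(15,0)]⟩,⟨1,[(17,0),(2,0),(2,0)]⟩⟩,⟨true,0,⟨0,[(37,0)]⟩,⟨0,[]⟩⟩,
  ⟨false,0,⟨0,[(1,0),(11,0),(9,0),(2,0),(0,0),(5,0),(0,0)]⟩,⟨5,[(4,1),(0,1),(1,1),(2,1),(2,1),(3,1),
  (16,0),(0,2)]⟩⟩,⟨false,0,⟨0,[]⟩,⟨0,[]⟩⟩,⟨false,0,⟨0,[]⟩,⟨0,[]⟩⟩,[.o ⟨false,0,⟨0,[(33,0),(3,0)]⟩,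
  ⟨19,[(1,7),(3,9),(4,7),(2,7),(1,0),(1,3),(10,3),(5,2),(0,9)]⟩⟩,.o ⟨false,0,⟨0,[(33,0)]⟩,⟨3,[(5,1),
  (4,0),(4,0),(4,0),(7,0)]⟩⟩,.a ⟨true,0,⟨1,[(17,0),(8,0),(0,0)]⟩,⟨0,[(18,0)]⟩⟩ ⟨true,0,⟨0,[(9,0)]⟩,
  ⟨1,[(1,1),(11,1),(3,0),(5,1),(2,0),(0,0),(6,1)]⟩⟩ ⟨false,0,⟨0,[(18,0),(14,0)]⟩,⟨17,[(1,1),(3,7),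
  (4,3),(1,1),(0,3),(1,2),(1,9),(10,0),(6,9)]⟩⟩,.o ⟨false,0,⟨1,[(17,0),(2,0),(2,0)]⟩,⟨1,[(18,1),(9,
  0),(5,0)]⟩⟩]⟩) (.R ⟨1,false,false,false,[1,0,0,-1],[1,-1],[0,0,0,0,0,0,0,0,-1],(⟨1,[(17,0),(8,0),
  (0,0)]⟩,⟨0,[(18,0)]⟩),(⟨0,[(29,0)]⟩,⟨0,[(30,0)]⟩),⟨0,[(0,0),(16,0)]⟩,.k,.k,(.r (-1) ⟨0,[(2,0),(10,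
  0),(18,0),(1,0)]⟩ ⟨3,[(4,0),(1,0),(3,0),(2,1),(2,0),(1,1),(4,0),(9,2)]⟩),(.r 0 ⟨3,[(8,1),(4,0),(1,
  0),(6,0),(0,0),(13,0)]⟩ ⟨3,[(5,1),(10,0),(17,0)]⟩),.k,.k,⟨false,0,⟨1,[(1,1),(11,1),(3,0),(5,1),(2,
  0),(0,0),(5,1),(0,1)]⟩,⟨3,[(5,1),(10,0),(17,0)]⟩⟩,⟨true,0,⟨1,[(17,0),(2,0),(2,0)]⟩,⟨0,[(18,0)]⟩⟩,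
  ⟨false,1,⟨3,[(15,0),(0,0),(18,1)]⟩,⟨0,[]⟩⟩,⟨false,1,⟨5,[(4,1),(0,1),(1,1),(2,1),(2,1),(3,1),(16,
  0),(0,2)]⟩,⟨0,[(1,0),(11,0),(9,0),(2,0),(0,0),(5,0),(0,0)]⟩⟩,⟨true,0,⟨0,[(33,0)]⟩,⟨0,[(32,0)]⟩⟩,
  ⟨false,1,⟨2,[(4,0),(5,0),(2,0),(2,0),(0,0),(16,0),(0,1)]⟩,⟨0,[(1,0),(11,0),(9,0),(2,0),(0,0),(6,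
  0)]⟩⟩,[.o ⟨false,1,⟨3,[(5,1),(4,0),(4,0),(4,0),(7,0)]⟩,⟨0,[(33,0)]⟩⟩,.o ⟨false,1,⟨19,[(1,7),(3,9),
  (4,7),(2,7),(1,0),(1,3),(10,3),(5,2),(0,9)]⟩,⟨0,[(33,0),(3,0)]⟩⟩,.a ⟨true,0,⟨0,[(18,0)]⟩,⟨1,[(17,
  0),(8,0),(0,0)]⟩⟩ ⟨true,0,⟨1,[(1,1),(11,1),(3,0),(5,1),(2,0),(0,0),(6,1)]⟩,⟨0,[(9,0)]⟩⟩ ⟨false,1,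
  ⟨17,[(1,1),(3,7),(4,3),(1,1),(0,3),(1,2),(1,9),(10,0),(6,9)]⟩,⟨0,[(18,0),(14,0)]⟩⟩,.o ⟨false,0,⟨1,
  [(10,0),(7,1),(1,0)]⟩,⟨7,[(15,0),(0,0),(0,3),(10,1),(5,3)]⟩⟩]⟩))) (.Q [0,0,0,0,0,1,0,0,0,0,0,-1]
  (.p false [0,0,0,1] [] (⟨0,[(16,0)]⟩,⟨1,[(15,0),(8,0),(0,0)]⟩) .k 0 (⟨0,[]⟩,⟨0,[]⟩) .k .k) (.R ⟨0,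
  false,false,true,[0,0,0,1],[1,0,-1],[0,1,0,0,0,0,0,-1],(⟨0,[(17,0)]⟩,⟨1,[(16,0),(8,0),(0,0)]⟩),
  (⟨0,[(25,0)]⟩,⟨0,[(26,0)]⟩),⟨0,[(0,0)]⟩,.k,.k,(.r (-1) ⟨3,[(4,1),(10,0),(17,0)]⟩ ⟨3,[(7,1),(4,0),
  (1,0),(6,0),(0,0),(13,0)]⟩),.k,.k,.k,⟨false,1,⟨3,[(14,0),(0,0),(17,1)]⟩,⟨0,[]⟩⟩,⟨true,0,⟨0,[(1,0),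
  (0,0),(31,0)]⟩,⟨1,[(16,0),(5,1),(2,0),(0,0)]⟩⟩,⟨false,1,⟨1,[(2,1),(13,0),(5,1),(2,0),(0,0),(6,0),
  (0,0)]⟩,⟨0,[(1,0),(32,0)]⟩⟩,⟨true,0,⟨0,[(2,0)]⟩,⟨1,[(1,1),(14,0),(5,1),(2,0),(0,0),(6,0),(0,0)]⟩⟩,
  ⟨false,0,⟨0,[]⟩,⟨0,[]⟩⟩,⟨false,0,⟨0,[]⟩,⟨0,[]⟩⟩,[.o ⟨false,0,⟨0,[(18,0)]⟩,⟨0,[(20,0),(13,0)]⟩⟩,.o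
  ⟨false,1,⟨15,[(2,5),(2,5),(0,1),(4,3),(2,0),(12,5),(6,0)]⟩,⟨0,[(12,0),(9,0),(10,0)]⟩⟩,.a ⟨true,0,
  ⟨1,[(16,0),(8,0),(0,0)]⟩,⟨0,[(17,0)]⟩⟩ ⟨false,1,⟨1,[(21,1),(0,1),(10,0),(0,0)]⟩,⟨1,[(12,1),(20,0),
  (0,0)]⟩⟩ ⟨true,0,⟨0,[(17,0),(0,0)]⟩,⟨1,[(12,1),(3,0),(5,1),(2,0),(0,0),(6,1)]⟩⟩,.o ⟨false,0,⟨1,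
  [(16,0),(2,0),(2,0)]⟩,⟨1,[(17,1),(9,0),(5,0)]⟩⟩]⟩) (.I [1,0,0,-1,0,0,0,0,1] (.R ⟨1,false,false,
  true,[0,0,0,1],[1,0,-1],[1,1,0,-1,0,0,0,0,1],(⟨0,[(18,0)]⟩,⟨1,[(17,0),(8,0),(0,0)]⟩),(⟨0,[(26,
  0)]⟩,⟨0,[(27,0)]⟩),⟨0,[(1,0)]⟩,.k,.k,(.r (-1) ⟨3,[(5,1),(10,0),(17,0)]⟩ ⟨3,[(8,1),(4,0),(1,0),(6,
  0),(0,0),(13,0)]⟩),.k,(.r 0 ⟨0,[(0,0),(12,0),(20,0)]⟩ ⟨11,[(3,3),(2,3),(1,3),(6,4),(0,0),(5,3),(0,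
  11),(10,1)]⟩),.k,⟨false,0,⟨0,[(0,0),(12,0),(20,0)]⟩,⟨9,[(3,7),(2,1),(1,3),(8,2),(5,9),(2,2),(0,2),
  (6,6),(0,0)]⟩⟩,⟨true,0,⟨0,[(2,0),(0,0),(31,0)]⟩,⟨1,[(17,0),(5,1),(2,0),(0,0)]⟩⟩,⟨true,0,⟨0,[(32,
  0)]⟩,⟨0,[(33,0)]⟩⟩,⟨true,0,⟨0,[(3,0)]⟩,⟨1,[(2,1),(14,0),(5,1),(2,0),(0,0),(6,0),(0,0)]⟩⟩,⟨false,0,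
  ⟨0,[]⟩,⟨3,[(15,0),(0,0),(18,1)]⟩⟩,⟨true,0,⟨0,[(3,0),(29,0)]⟩,⟨1,[(0,1),(12,1),(3,0),(5,1),(2,0),
  (0,0),(6,1)]⟩⟩,[.o ⟨false,0,⟨0,[(19,0)]⟩,⟨0,[(21,0),(13,0)]⟩⟩,.o ⟨false,1,⟨15,[(3,5),(2,5),(0,1),
  (4,3),(2,0),(12,5),(6,0)]⟩,⟨0,[(13,0),(9,0),(10,0)]⟩⟩,.a ⟨true,0,⟨1,[(17,0),(8,0),(0,0)]⟩,⟨0,[(18,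
  0)]⟩⟩ ⟨false,0,⟨0,[(0,0)]⟩,⟨7,[(8,3),(6,2),(0,0),(17,1),(0,1)]⟩⟩ ⟨true,0,⟨0,[(18,0),(0,0)]⟩,⟨1,
  [(13,1),(3,0),(5,1),(2,0),(0,0),(6,1)]⟩⟩,.o ⟨false,0,⟨1,[(17,0),(2,0),(2,0)]⟩,⟨1,[(18,1),(9,0),(5,
  0)]⟩⟩]⟩) (.Q [0,-1,0,-2,1,0,-1,-1,1,0,1,-1] (.p true [0,0,1] [0,0,0,1] (⟨0,[(27,0)]⟩,⟨0,[(26,
  0)]⟩) .k 2 (⟨0,[(18,0)]⟩,⟨1,[(17,0),(8,0),(0,0)]⟩) .k (.r 0 ⟨1,[(13,1),(1,0),(18,0)]⟩ ⟨1,[(4,1),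
  (13,1),(4,1),(10,0),(0,0)]⟩)) (.Q [0,0,0,0,0,0,1,1,-1,0,-1,1] (.p false [0,0,1] [0,0,0,1] (⟨0,
  [(28,0)]⟩,⟨0,[(27,0)]⟩) .k 2 (⟨0,[(19,0)]⟩,⟨1,[(18,0),(8,0),(0,0)]⟩) .k (.r 0 ⟨1,[(14,1),(1,0),
  (18,0)]⟩ ⟨5,[(0,0),(4,2),(1,1),(3,1),(7,5),(4,3),(10,2)]⟩)) (.R ⟨1,false,false,true,[0,0,0,1],[0,
  0,1],[1,1,0,-1,0,0,0,0,1],(⟨0,[(20,0)]⟩,⟨1,[(19,0),(8,0),(0,0)]⟩),(⟨0,[(29,0)]⟩,⟨0,[(28,0)]⟩),⟨0,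
  [(3,0)]⟩,.k,.k,(.r (-1) ⟨3,[(7,1),(10,0),(17,0)]⟩ ⟨3,[(10,1),(4,0),(1,0),(6,0),(0,0),(13,0)]⟩),.k,
  (.r (-2) ⟨7,[(5,3),(1,5),(0,3),(9,0),(6,7),(10,4)]⟩ ⟨0,[(2,0),(12,0)]⟩),.k,⟨true,1,⟨1,[(1,0),(4,
  0),(13,1),(4,1),(10,0)]⟩,⟨0,[(2,0),(12,0)]⟩⟩,⟨false,1,⟨0,[(20,0),(4,0),(10,0)]⟩,⟨1,[(16,0),(2,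
  0)]⟩⟩,⟨true,0,⟨0,[(34,0)]⟩,⟨0,[(35,0)]⟩⟩,⟨false,0,⟨0,[(0,0)]⟩,⟨0,[(6,0),(30,0)]⟩⟩,⟨false,0,⟨0,[]⟩,
  ⟨3,[(17,0),(0,0),(18,1)]⟩⟩,⟨false,0,⟨0,[(0,0),(34,0)]⟩,⟨1,[(1,0),(4,0),(30,0)]⟩⟩,[.o ⟨false,0,⟨0,
  [(23,0)]⟩,⟨0,[(21,0),(15,0)]⟩⟩,.o ⟨false,0,⟨3,[(0,1),(3,1),(7,0),(6,0),(5,0),(10,0),(0,0)]⟩,⟨23,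
  [(1,3),(3,11),(2,7),(8,0),(0,0),(11,9)]⟩⟩,.a ⟨true,0,⟨1,[(19,0),(8,0),(0,0)]⟩,⟨0,[(20,0)]⟩⟩ ⟨true,
  0,⟨1,[(4,0),(2,0),(16,0),(0,0)]⟩,⟨0,[(2,0)]⟩⟩ ⟨false,0,⟨3,[(0,1),(3,1),(15,1),(4,1),(10,0),(0,
  0)]⟩,⟨13,[(5,1),(2,3),(1,1),(3,7),(4,5),(16,0),(0,8)]⟩⟩,.o ⟨false,0,⟨1,[(19,0),(2,0),(2,0)]⟩,⟨1,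
  [(20,1),(9,0),(5,0)]⟩⟩]⟩) (.R ⟨2,true,false,true,[0,1],[0,0,1],[0,0,1,1],(⟨0,[]⟩,⟨0,[]⟩),(⟨0,[(29,
  0)]⟩,⟨0,[(28,0)]⟩),⟨0,[]⟩,.k,.k,.k,.k,.k,.k,⟨false,1,⟨1,[(0,1),(1,1),(17,1),(4,1),(10,0),(0,0)]⟩,
  ⟨0,[(15,0),(18,0),(1,0)]⟩⟩,⟨true,0,⟨0,[(25,0)]⟩,⟨1,[(16,0),(11,0),(0,0)]⟩⟩,⟨false,1,⟨3,[(17,0),(0,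
  0),(18,1)]⟩,⟨0,[]⟩⟩,⟨true,0,⟨0,[(15,0),(9,0),(8,0),(1,0)]⟩,⟨0,[(0,0),(1,0),(17,0)]⟩⟩,⟨true,0,⟨0,
  [(35,0)]⟩,⟨0,[(34,0)]⟩⟩,⟨false,0,⟨0,[(15,0),(9,0),(10,0)]⟩,⟨5,[(1,0),(3,2),(2,1),(19,0),(0,0),(7,
  2)]⟩⟩,[]⟩)) (.I [1,1,1,0,-1,0,0,0,-1] (.R ⟨1,false,false,false,[1,0,0,-1],[1,-1],[0,0,0,0,0,0,0,0,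
  -1],(⟨1,[(19,0),(8,0),(0,0)]⟩,⟨0,[(20,0)]⟩),(⟨0,[(31,0)]⟩,⟨0,[(32,0)]⟩),⟨0,[(3,0),(15,0)]⟩,.k,.k,
  (.r (-1) ⟨3,[(0,3),(6,1),(9,0),(18,2),(0,1)]⟩ ⟨6,[(4,2),(1,1),(1,0),(1,2),(1,0),(5,1),(1,2),(4,1),
  (7,0)]⟩),(.r 0 ⟨5,[(0,0),(9,2),(6,0),(7,0),(0,0),(12,1)]⟩ ⟨3,[(7,1),(10,0),(17,0)]⟩),.k,.k,⟨false,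
  0,⟨0,[(2,0)]⟩,⟨3,[(7,1),(10,0),(17,0)]⟩⟩,⟨true,0,⟨1,[(19,0),(2,0),(2,0)]⟩,⟨0,[(20,0)]⟩⟩,⟨false,1,
  ⟨3,[(17,0),(0,0),(18,1)]⟩,⟨0,[]⟩⟩,⟨false,1,⟨17,[(4,3),(1,1),(0,3),(1,7),(2,3),(1,1),(4,7),(10,0),
  (6,8)]⟩,⟨0,[(2,0),(17,0)]⟩⟩,⟨true,0,⟨0,[(35,0)]⟩,⟨0,[(34,0)]⟩⟩,⟨false,1,⟨9,[(4,1),(1,1),(5,1),(5,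
  2),(0,3),(10,0),(5,0),(0,6)]⟩,⟨1,[(0,1),(19,1),(15,0),(0,0)]⟩⟩,[.o ⟨false,1,⟨3,[(7,1),(4,0),(4,0),
  (4,0),(7,0)]⟩,⟨0,[(35,0)]⟩⟩,.o ⟨false,1,⟨7,[(7,1),(4,3),(1,3),(0,3),(1,0),(18,2),(0,5)]⟩,⟨3,[(1,
  1),(4,1),(10,0),(0,0)]⟩⟩,.a ⟨true,0,⟨0,[(20,0)]⟩,⟨1,[(19,0),(8,0),(0,0)]⟩⟩ ⟨true,0,⟨1,[(0,1),(35,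
  0),(0,0)]⟩,⟨0,[(11,0)]⟩⟩ ⟨false,1,⟨15,[(7,5),(4,3),(1,3),(0,3),(1,2),(1,7),(16,0),(0,9)]⟩,⟨0,[(20,
  0),(14,0)]⟩⟩,.o ⟨false,0,⟨1,[(12,0),(7,1),(1,0)]⟩,⟨7,[(17,0),(0,0),(0,3),(10,1),(5,3)]⟩⟩]⟩) (.R
  ⟨1,true,false,false,[1,0,-1],[0,1],[0,0,0,0,0,0,0,-1],(⟨0,[(28,0)]⟩,⟨0,[(29,0)]⟩),(⟨0,[(32,0)]⟩,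
  ⟨0,[(31,0)]⟩),⟨0,[(3,1),(9,0),(5,0)]⟩,.k,.k,.k,.k,(.x 1 ⟨0,[(1,0),(1,2),(0,0),(8,0),(0,1),(4,1),
  (13,1),(3,0)]⟩ ⟨3,[(17,0),(0,0),(6,3),(3,3),(2,7),(3,5)]⟩),.k,⟨false,2,⟨1,[(14,1),(10,1),(2,1),(0,
  1),(6,2),(0,0)]⟩,⟨1,[(4,0),(5,0),(4,0)]⟩⟩,⟨true,1,⟨0,[(25,0),(2,0),(0,0),(6,0)]⟩,⟨0,[(15,0),(5,0),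
  (11,0)]⟩⟩,⟨false,1,⟨3,[(17,0),(0,0),(18,1)]⟩,⟨0,[]⟩⟩,⟨true,0,⟨1,[(1,1),(7,1),(9,0),(8,0),(0,0)]⟩,
  ⟨0,[(14,0)]⟩⟩,⟨true,0,⟨0,[(35,0)]⟩,⟨0,[(34,0)]⟩⟩,⟨false,0,⟨1,[(0,1),(0,1),(17,0),(8,0),(0,0),(3,
  1)]⟩,⟨3,[(7,1),(6,3),(2,0),(15,1),(3,0)]⟩⟩,[]⟩)))))))) (.Q [0,-1,0,1,0,0,0,0,-1,0,0,1] (.p true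
  [0,0,0,1] [] (⟨0,[(13,0)]⟩,⟨1,[(12,0),(8,0),(0,0)]⟩) .k 0 (⟨0,[]⟩,⟨0,[]⟩) .k .k) (.Q [0,1,0,0,0,0,
  0,0,1,0,0,-1] (.p false [0,0,0,1] [] (⟨0,[(14,0)]⟩,⟨1,[(13,0),(8,0),(0,0)]⟩) .k 0 (⟨0,[]⟩,⟨0,[]⟩)
  .k .k) (.R ⟨2,true,false,true,[0,1],[0,0,0,1],[1,1,1],(⟨0,[]⟩,⟨0,[]⟩),(⟨0,[(15,0)]⟩,⟨1,[(14,0),(8,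
  0),(0,0)]⟩),⟨0,[]⟩,.k,.k,.k,(.x (-1) ⟨3,[(12,0),(0,0),(13,3),(3,1)]⟩ ⟨1,[(7,0),(9,0),(8,1)]⟩),.k,
  .k,⟨false,0,⟨3,[(1,3),(5,0),(1,0),(0,0),(3,1),(14,2),(1,0)]⟩,⟨1,[(13,0),(17,0)]⟩⟩,⟨true,0,⟨1,[(14,
  0),(2,0),(2,0)]⟩,⟨0,[(15,0)]⟩⟩,⟨true,0,⟨0,[(29,0)]⟩,⟨0,[(30,0)]⟩⟩,⟨false,1,⟨3,[(4,1),(8,0),(0,1),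
  (10,0),(3,1)]⟩,⟨0,[(1,0)]⟩⟩,⟨false,0,⟨0,[]⟩,⟨3,[(12,0),(0,0),(18,1)]⟩⟩,⟨true,0,⟨0,[(0,0)]⟩,⟨0,[(1,
  0),(27,0)]⟩⟩,[]⟩) (.K ⟨1,[1,0,0,-1],0,0,(⟨1,[(14,0),(8,0),(0,0)]⟩,⟨0,[(15,0)]⟩),.k,(.r (-1) ⟨5,
  [(0,3),(11,0),(1,1),(10,0),(3,5),(1,2),(0,0)]⟩ ⟨1,[(2,0),(3,0),(6,0),(14,0)]⟩),(.x (-1) ⟨3,[(12,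
  0),(0,0),(13,3),(3,1)]⟩ ⟨1,[(7,0),(9,0),(8,1)]⟩),.k,.k,[⟨1,[(14,0),(5,0),(0,0),(1,0),(0,0)]⟩,⟨1,
  [(7,0),(7,1),(1,0)]⟩,⟨1,[(6,1),(7,0),(8,0),(0,0)]⟩,⟨0,[(0,0)]⟩]⟩)) (.Q [0,0,0,0,0,2,0,0,0,-1]
  (.pp true [-1,1]) (.R ⟨0,false,false,false,[0,0,0,1],[0,1],[1,0,1,1],(⟨0,[(15,0)]⟩,⟨1,[(14,0),(8,
  0),(0,0)]⟩),(⟨0,[(27,0)]⟩,⟨0,[(26,0)]⟩),⟨1,[(0,0),(13,0)]⟩,.k,.k,(.r (-1) ⟨1,[(1,0),(2,0),(10,0),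
  (15,0)]⟩ ⟨3,[(2,0),(2,0),(6,0),(7,0),(0,0),(12,0)]⟩),(.r (-1) ⟨1,[(1,0),(2,0),(10,0),(15,0)]⟩ ⟨3,
  [(2,0),(2,0),(6,0),(7,0),(0,0),(12,0)]⟩),.k,.k,⟨true,0,⟨0,[]⟩,⟨1,[(20,0),(0,0)]⟩⟩,⟨false,1,⟨0,
  [(15,0),(15,0)]⟩,⟨1,[(14,0),(2,0),(2,0)]⟩⟩,⟨false,0,⟨3,[(2,1),(9,0),(15,1),(3,0)]⟩,⟨1,[(1,0),(2,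
  0),(10,0),(15,0)]⟩⟩,⟨true,0,⟨3,[(2,1),(9,0),(2,3),(15,0)]⟩,⟨0,[(1,0)]⟩⟩,⟨false,0,⟨0,[]⟩,⟨0,[]⟩⟩,
  ⟨false,0,⟨0,[]⟩,⟨0,[]⟩⟩,[.o ⟨false,0,⟨0,[(30,0)]⟩,⟨1,[(25,0),(3,1),(2,0)]⟩⟩,.o ⟨false,1,⟨7,[(5,3),
  (6,0),(0,2),(17,1),(0,1)]⟩,⟨1,[(7,0),(1,0),(0,0),(18,0),(1,0)]⟩⟩,.a ⟨true,0,⟨1,[(14,0),(8,0),(0,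
  0)]⟩,⟨0,[(15,0)]⟩⟩ ⟨false,0,⟨3,[(2,1),(10,0),(14,1),(3,0)]⟩,⟨1,[(29,1),(1,0),(0,0)]⟩⟩ ⟨true,0,⟨0,
  [(15,0),(14,0)]⟩,⟨3,[(7,0),(1,0),(0,0),(3,1),(14,2),(1,0)]⟩⟩,.o ⟨false,0,⟨1,[(14,0),(2,0),(2,0)]⟩,
  ⟨1,[(15,1),(9,0),(5,0)]⟩⟩]⟩) (.R ⟨1,true,false,false,[1,-1],[1,0,0,-1],[0,0,-1,-1],(⟨0,[(26,0)]⟩,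
  ⟨0,[(27,0)]⟩),(⟨1,[(14,0),(8,0),(0,0)]⟩,⟨0,[(15,0)]⟩),⟨0,[(0,0)]⟩,.k,.k,(.r (-2) ⟨0,[(29,1),(1,0),
  (0,0)]⟩ ⟨0,[(2,0),(3,0),(21,0)]⟩),(.r (-1) ⟨1,[(1,0),(2,0),(10,0),(15,0)]⟩ ⟨3,[(2,0),(2,0),(6,0),
  (7,0),(0,0),(12,0)]⟩),(.r (-2) ⟨0,[(4,0),(24,0),(1,0)]⟩ ⟨1,[(2,1),(17,0),(0,0)]⟩),.k,⟨true,1,⟨1,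
  [(1,0),(2,0),(10,0),(15,0)]⟩,⟨0,[(2,0),(25,0),(0,0)]⟩⟩,⟨false,1,⟨0,[(15,0),(15,0)]⟩,⟨1,[(14,0),(2,
  0),(2,0)]⟩⟩,⟨false,1,⟨3,[(12,0),(0,0),(18,1)]⟩,⟨0,[]⟩⟩,⟨true,0,⟨3,[(2,1),(9,0),(2,3),(15,0)]⟩,⟨0,
  [(1,0)]⟩⟩,⟨true,0,⟨0,[(30,0)]⟩,⟨0,[(29,0)]⟩⟩,⟨false,0,⟨1,[(2,1),(12,1),(15,0),(0,0)]⟩,⟨0,[(1,0),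
  (27,0),(2,0)]⟩⟩,[]⟩)))) (.Q [0,0,0,0,0,1,0,0,0,0,0,-1] (.p false [0,0,0,1] [] (⟨0,[(12,0)]⟩,⟨1,
  [(11,0),(8,0),(0,0)]⟩) .k 0 (⟨0,[]⟩,⟨0,[]⟩) .k .k) (.R ⟨0,false,false,false,[0,0,0,1],[0,0,1],[],
  (⟨0,[(13,0)]⟩,⟨1,[(12,0),(8,0),(0,0)]⟩),(⟨0,[(22,0)]⟩,⟨0,[(21,0)]⟩),⟨0,[(0,0)]⟩,.k,.k,(.x 0 ⟨1,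
  [(5,0),(9,0),(8,1)]⟩ ⟨3,[(10,0),(0,0),(13,3),(3,1)]⟩),.k,.k,.k,⟨true,1,⟨1,[(17,1),(0,1),(10,0),(0,
  0)]⟩,⟨0,[(8,0)]⟩⟩,⟨false,1,⟨0,[(13,0),(4,0),(10,0)]⟩,⟨1,[(9,0),(2,0)]⟩⟩,⟨true,0,⟨5,[(1,3),(1,1),
  (8,1),(4,3),(3,1),(0,1),(6,0),(0,2)]⟩,⟨0,[(4,0)]⟩⟩,⟨false,0,⟨0,[(1,0),(19,0),(0,0),(5,0),(1,0)]⟩,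
  ⟨1,[(11,0),(0,0),(1,0),(2,0),(12,0)]⟩⟩,⟨false,0,⟨0,[]⟩,⟨0,[]⟩⟩,⟨false,0,⟨0,[]⟩,⟨0,[]⟩⟩,[.o ⟨false,
  0,⟨0,[(8,0),(9,0),(10,0)]⟩,⟨1,[(17,1),(5,0),(6,0)]⟩⟩,.o ⟨false,1,⟨0,[(16,0),(13,0)]⟩,⟨0,[(14,
  0)]⟩⟩,.a ⟨true,0,⟨1,[(12,0),(8,0),(0,0)]⟩,⟨0,[(13,0)]⟩⟩ ⟨false,1,⟨3,[(10,0),(0,0),(18,1)]⟩,⟨0,
  []⟩⟩ ⟨true,0,⟨0,[(8,0),(4,0),(4,0),(10,0)]⟩,⟨1,[(12,0),(1,0),(2,0)]⟩⟩,.o ⟨false,0,⟨1,[(12,0),(2,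
  0),(2,0)]⟩,⟨1,[(13,1),(9,0),(5,0)]⟩⟩]⟩) (.R ⟨1,false,false,false,[1,0,0,-1],[0,1],[0,1,0,0,0,0,0,
  0,-1],(⟨1,[(12,0),(8,0),(0,0)]⟩,⟨0,[(13,0)]⟩),(⟨0,[(25,0)]⟩,⟨0,[(24,0)]⟩),⟨0,[(0,0),(11,0)]⟩,.k,
  .k,(.r (-1) ⟨5,[(1,1),(5,1),(2,1),(1,0),(8,2),(0,2),(4,1),(1,2),(0,2)]⟩ ⟨0,[(4,0),(21,0),(1,0)]⟩),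
  (.r (-1) ⟨5,[(1,1),(5,1),(2,1),(1,0),(8,2),(0,2),(4,1),(1,2),(0,2)]⟩ ⟨0,[(4,0),(21,0),(1,0)]⟩),
  (.r (-1) ⟨1,[(1,1),(5,1),(4,0),(8,2),(0,2),(6,1),(0,1)]⟩ ⟨0,[(3,0),(0,1),(21,0)]⟩),.k,⟨true,0,⟨1,
  [(1,1),(10,0),(4,1),(3,0),(0,0),(6,0),(0,0)]⟩,⟨0,[(4,0),(21,1),(1,0)]⟩⟩,⟨false,1,⟨1,[(12,0),(8,0),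
  (0,0),(6,1)]⟩,⟨1,[(5,0),(7,1),(1,0)]⟩⟩,⟨true,0,⟨0,[(32,0)]⟩,⟨0,[]⟩⟩,⟨false,1,⟨1,[(11,0),(0,0),(8,
  0),(0,0),(5,1),(1,0)]⟩,⟨0,[(1,0),(15,0),(12,0)]⟩⟩,⟨false,0,⟨0,[(28,0)]⟩,⟨0,[(27,0),(2,0)]⟩⟩,
  ⟨false,1,⟨1,[(11,0),(0,0),(8,0),(0,0),(5,3),(1,0)]⟩,⟨0,[(1,0),(5,0),(13,0),(0,0),(7,0)]⟩⟩,[.o
  ⟨false,0,⟨0,[(28,0)]⟩,⟨35,[(1,3),(0,17),(4,3),(2,6),(1,1),(10,14),(3,9)]⟩⟩,.o ⟨false,1,⟨7,[(3,3),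
  (6,0),(0,2),(17,1),(0,1)]⟩,⟨4,[(1,1),(5,1),(3,0),(0,0),(10,0),(3,0)]⟩⟩,.a ⟨true,0,⟨0,[(13,0)]⟩,⟨1,
  [(12,0),(8,0),(0,0)]⟩⟩ ⟨false,0,⟨5,[(1,3),(1,1),(8,1),(4,3),(3,1),(0,1),(6,0),(0,2)]⟩,⟨1,[(11,0),
  (18,0)]⟩⟩ ⟨true,0,⟨1,[(12,0),(8,0),(0,0),(5,1)]⟩,⟨5,[(1,1),(5,1),(3,0),(1,3),(9,0),(3,1)]⟩⟩,.o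
  ⟨false,0,⟨1,[(5,0),(7,1),(1,0)]⟩,⟨7,[(10,0),(0,0),(0,3),(10,1),(5,3)]⟩⟩]⟩))) (.Q [0,-1,0,0,1,0,0,
  0,1,0,0,-1] (.p false [0,0,0,1] [] (⟨0,[(11,0)]⟩,⟨1,[(10,0),(8,0),(0,0)]⟩) .k 0 (⟨0,[]⟩,⟨0,[]⟩)
  .k .k) (.R ⟨2,true,false,false,[0,1],[0,0,0,1],[1,0,1],(⟨0,[]⟩,⟨0,[]⟩),(⟨0,[(12,0)]⟩,⟨1,[(11,0),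
  (8,0),(0,0)]⟩),⟨0,[]⟩,.k,.k,.k,(.x (-1) ⟨3,[(9,0),(0,0),(13,3),(3,1)]⟩ ⟨1,[(4,0),(9,0),(8,1)]⟩),
  .k,.k,⟨false,0,⟨0,[(1,0),(24,0),(2,0)]⟩,⟨1,[(10,0),(17,0)]⟩⟩,⟨true,0,⟨1,[(11,0),(2,0),(2,0)]⟩,⟨0,
  [(12,0)]⟩⟩,⟨false,1,⟨0,[(26,0),(2,0)]⟩,⟨0,[(27,0)]⟩⟩,⟨true,1,⟨0,[(0,0),(25,0)]⟩,⟨0,[(1,0),(10,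
  0)]⟩⟩,⟨true,0,⟨0,[]⟩,⟨0,[(31,0)]⟩⟩,⟨false,1,⟨0,[(0,0)]⟩,⟨0,[(1,0),(10,0),(13,0),(2,0)]⟩⟩,[]⟩) (.K
  ⟨1,[0,0,0,1],0,1,(⟨0,[(12,0)]⟩,⟨1,[(11,0),(8,0),(0,0)]⟩),.k,(.x 0 ⟨1,[(4,0),(9,0),(8,1)]⟩ ⟨3,[(9,
  0),(0,0),(13,3),(3,1)]⟩),(.r 0 ⟨0,[(1,0),(8,0),(14,0)]⟩ ⟨7,[(0,3),(3,0),(1,0),(0,0),(1,1),(1,1),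
  (14,6),(1,4),(0,5)]⟩),.k,.k,[⟨1,[(12,1),(4,0),(0,0)]⟩,⟨1,[(11,0),(2,0),(2,0)]⟩,⟨0,[(0,0)]⟩,⟨1,
  [(10,0),(0,0),(8,0),(0,0),(7,0)]⟩]⟩))))))

theorem ok138 : chk (cU (-1) false 2) t138 l70 = true := by decide +kernel

end Helper11.CT.T1_3_m1_1_v
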