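import Pool.Agent.Helper11.CT.T.T1_3_m1_1_v_p0
import Pool.Agent.Helper11.CT.T.T1_3_m1_1_v_p1
import Pool.Agent.Helper11.CT.T.T1_3_m1_1_v_p2
import Pool.Agent.Helper11.CT.T.T1_3_m1_1_v_p3
import Pool.Agent.Helper11.CT.T.T1_3_m1_1_v_p4
import Pool.Agent.Helper11.CT.T.T1_3_m1_1_v_p5

set_option autoImplicit false
set_option linter.all false

namespace Helper11.CT.T1_3_m1_1_v

open Helper11.CT

noncomputable def t7 : Tre :=
  .I [1,-1,1,1,0,0,0,-1] t5 t6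

theorem ok7 : chk (cU (-1) false 2) t7 r8 = true :=
  chk_I (e' := [0,1,-1,-1,0,0,0,1]) (by decide +kernel) (by decide +kernel) ok5 ok6

noncomputable def t8 : Tre :=
  .Q [0,0,0,0,0,0,1,0,0,2,-1] (.p false [-1,1,1] [1] (⟨0,[(3,0)]⟩,⟨0,[(20,0),(2,0)]⟩) .k 1 (⟨0,[]⟩,
  ⟨0,[]⟩) .k .k) t4 t7

theorem ok8 : chk (cU (-1) false 2) t8 r7 = true :=
  chk_Q (e' := [0,0,0,0,0,0,-1,0,0,-2,1]) (by decide +kernel) (by decide +kernel) ok4 ok7

noncomputable def t9 : Tre :=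
  .Q [0,0,0,0,0,0,1,1,0,1,-1] (.p false [0,0,1] [1] (⟨0,[(20,0)]⟩,⟨0,[(19,0)]⟩) .k 1 (⟨0,[]⟩,⟨0,
  []⟩) .k .k) t3 t8

theorem ok9 : chk (cU (-1) false 2) t9 r6 = true :=
  chk_Q (e' := [0,0,0,0,0,0,-1,-1,0,-1,1]) (by decide +kernel) (by decide +kernel) ok3 ok8

noncomputable def t10 : Tre :=
  .I [1,0,1,1,-1,0,0,1] t2 t9

theorem ok10 : chk (cU (-1) false 2) t10 r5 = true :=
  chk_I (e' := [0,0,-1,-1,1,0,0,-1]) (by decide +kernel) (by decide +kernel) ok2 ok9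

noncomputable def t11 : Tre :=
  .Q [0,-1,0,1,0,0,0,0,0,1] (.pp false [-1,1]) t1 t10

theorem ok11 : chk (cU (-1) false 2) t11 l4 = true :=
  chk_Q (e' := [0,1,0,-1,0,0,0,0,0,-1]) (by decide +kernel) (by decide +kernel) ok1 ok10

noncomputable def t21 : Tre :=
  .I [0,0,-1,0,0,1,-2] t19 t20

theorem ok21 : chk (cU (-1) false 2) t21 r23 = true :=
  chk_I (e' := [1,0,1,0,0,-1,2]) (by decide +kernel) (by decide +kernel) ok19 ok20

noncomputable def t22 : Tre :=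
  .I [0,1,1,2,-1,0,0,1] t18 t21

theorem ok22 : chk (cU (-1) false 2) t22 r22 = true :=
  chk_I (e' := [1,-1,-1,-2,1,0,0,-1]) (by decide +kernel) (by decide +kernel) ok18 ok21

noncomputable def t23 : Tre :=
  .Q [0,-1,0,2,0,0,1,1,0,1,-1] (.p false [0,0,1] [1] (⟨0,[(30,0)]⟩,⟨0,[(29,0)]⟩) .k 1 (⟨0,[]⟩,⟨0,
  []⟩) .k .k) t17 t22

theorem ok23 : chk (cU (-1) false 2) t23 l21 = true :=
  chk_Q (e' := [0,1,0,-2,0,0,-1,-1,0,-1,1]) (by decide +kernel) (by decide +kernel) ok17 ok22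

noncomputable def t28 : Tre :=
  .Q [0,0,0,1,0,0,-2,-2,0,-1,2] (.p true [0,0,1] [1,0,-1] (⟨0,[(34,0)]⟩,⟨0,[(33,0)]⟩) .k 2 (⟨0,[(33,
  0)]⟩,⟨0,[(34,0)]⟩) .k (.r 0 ⟨0,[(32,1)]⟩ ⟨1,[(5,0),(11,0),(2,0),(8,0),(0,0)]⟩)) t26 t27

theorem ok28 : chk (cU (-1) false 2) t28 r28 = true :=
  chk_Q (e' := [0,0,0,-1,0,0,2,2,0,1,-2]) (by decide +kernel) (by decide +kernel) ok26 ok27

noncomputable def t29 : Tre :=
  .Q [0,0,1,0,0,0,2,0,0,1,-2] (.p false [0,0,1] [1,0,-1] (⟨0,[(33,0)]⟩,⟨0,[(32,0)]⟩) .k 2 (⟨0,[(32,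
  0)]⟩,⟨0,[(33,0)]⟩) .k (.r 0 ⟨0,[(31,1)]⟩ ⟨1,[(4,0),(11,0),(2,0),(8,0),(0,0)]⟩)) t25 t28

theorem ok29 : chk (cU (-1) false 2) t29 l27 = true :=
  chk_Q (e' := [0,0,-1,0,0,0,-2,0,0,-1,2]) (by decide +kernel) (by decide +kernel) ok25 ok28

noncomputable def t31 : Tre :=
  .I [0,0,1,0,0,-1,2] t29 t30

theorem ok31 : chk (cU (-1) false 2) t31 r26 = true :=
  chk_I (e' := [1,0,-1,0,0,1,-2]) (by decide +kernel) (by decide +kernel) ok29 ok30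

noncomputable def t32 : Tre :=
  .I [0,1,-1,0,0,0,0,1] t24 t31

theorem ok32 : chk (cU (-1) false 2) t32 l25 = true :=
  chk_I (e' := [1,-1,1,0,0,0,0,-1]) (by decide +kernel) (by decide +kernel) ok24 ok31

noncomputable def t34 : Tre :=
  .Q [0,0,-2,-1,1,0,2,1,0,1,-2] (.p false [0,0,1] [1,0,-1] (⟨0,[(30,0)]⟩,⟨0,[(29,0)]⟩) .k 2 (⟨0,
  [(29,0)]⟩,⟨0,[(30,0)]⟩) .k (.r 0 ⟨0,[(28,1)]⟩ ⟨1,[(1,0),(11,0),(2,0),(8,0),(0,0)]⟩)) t32 t33

theorem ok34 : chk (cU (-1) false 2) t34 r21 = true :=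
  chk_Q (e' := [0,0,2,1,-1,0,-2,-1,0,-1,2]) (by decide +kernel) (by decide +kernel) ok32 ok33

noncomputable def t35 : Tre :=
  .Q [0,0,2,0,-1,0,-1,0,0,-1,1] (.p true [0,0,1] [1] (⟨0,[(29,0)]⟩,⟨0,[(28,0)]⟩) .k 1 (⟨0,[]⟩,⟨0,
  []⟩) .k .k) t23 t34

theorem ok35 : chk (cU (-1) false 2) t35 r20 = true :=
  chk_Q (e' := [0,0,-2,0,1,0,1,0,0,1,-1]) (by decide +kernel) (by decide +kernel) ok23 ok34

noncomputable def t36 : Tre :=
  .I [1,1,-1,-1,0,0,0,1] t16 t35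

theorem ok36 : chk (cU (-1) false 2) t36 l19 = true :=
  chk_I (e' := [0,-1,1,1,0,0,0,-1]) (by decide +kernel) (by decide +kernel) ok16 ok35

noncomputable def t38 : Tre :=
  .Q [0,0,0,-1,0,0,1,1,0,1,-1] (.p false [0,0,1] [1] (⟨0,[(27,0)]⟩,⟨0,[(26,0)]⟩) .k 1 (⟨0,[]⟩,⟨0,
  []⟩) .k .k) t36 t37

theorem ok38 : chk (cU (-1) false 2) t38 l18 = true :=
  chk_Q (e' := [0,0,0,1,0,0,-1,-1,0,-1,1]) (by decide +kernel) (by decide +kernel) ok36 ok37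

noncomputable def t40 : Tre :=
  .I [1,-1,-1,-2,1] t38 t39

theorem ok40 : chk (cU (-1) false 2) t40 l17 = true :=
  chk_I (e' := [0,1,1,2,-1]) (by decide +kernel) (by decide +kernel) ok38 ok39

noncomputable def t46 : Tre :=
  .I [0,0,-2,-2,1,0,0,-1] t44 t45

theorem ok46 : chk (cU (-1) false 2) t46 r32 = true :=
  chk_I (e' := [1,0,2,2,-1,0,0,1]) (by decide +kernel) (by decide +kernel) ok44 ok45

noncomputable def t47 : Tre :=
  .I [1,-1,2,1,-1,0,0,0,-1] t43 t46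

theorem ok47 : chk (cU (-1) false 2) t47 r31 = true :=
  chk_I (e' := [0,1,-2,-1,1,0,0,0,1]) (by decide +kernel) (by decide +kernel) ok43 ok46

noncomputable def t48 : Tre :=
  .I [0,0,-1,-1,0,0,0,1,1] t42 t47

theorem ok48 : chk (cU (-1) false 2) t48 r30 = true :=
  chk_I (e' := [1,0,1,1,0,0,0,-1,-1]) (by decide +kernel) (by decide +kernel) ok42 ok47

noncomputable def t49 : Tre :=
  .I [0,1,-1,0,0,0,0,1] t41 t48

theorem ok49 : chk (cU (-1) false 2) t49 r17 = true :=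
  chk_I (e' := [1,-1,1,0,0,0,0,-1]) (by decide +kernel) (by decide +kernel) ok41 ok48

noncomputable def t50 : Tre :=
  .Q [0,0,0,1,0,0,-1,-1,0,0,1,-1] (.p true [0,0,1] [0,0,0,1] (⟨0,[(25,0)]⟩,⟨0,[(24,0)]⟩) .k 2 (⟨0,
  [(16,0)]⟩,⟨1,[(15,0),(8,0),(0,0)]⟩) .k (.x (-1) ⟨7,[(11,3),(1,0),(0,0),(4,3),(1,3),(3,7),(7,1)]⟩
  ⟨0,[(10,0),(13,0)]⟩)) t40 t49

theorem ok50 : chk (cU (-1) false 2) t50 r16 = true :=
  chk_Q (e' := [0,0,0,-1,0,0,1,1,0,0,-1,1]) (by decide +kernel) (by decide +kernel) ok40 ok49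

noncomputable def t51 : Tre :=
  .I [1,1,2,1,-1,0,0,-1] t15 t50

theorem ok51 : chk (cU (-1) false 2) t51 r15 = true :=
  chk_I (e' := [0,-1,-2,-1,1,0,0,1]) (by decide +kernel) (by decide +kernel) ok15 ok50

noncomputable def t52 : Tre :=
  .Q [0,-1,0,2,0,0,-1,-1,0,0,1] (.p true [0,0,1] [] (⟨0,[(23,0)]⟩,⟨0,[(22,0)]⟩) .k 0 (⟨0,[]⟩,⟨0,
  []⟩) .k .k) t14 t51

theorem ok52 : chk (cU (-1) false 2) t52 r14 = true :=
  chk_Q (e' := [0,1,0,-2,0,0,1,1,0,0,-1]) (by decide +kernel) (by decide +kernel) ok14 ok51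

noncomputable def t53 : Tre :=
  .I [0,0,1,1,0,0,0,-2] t13 t52

theorem ok53 : chk (cU (-1) false 2) t53 l13 = true :=
  chk_I (e' := [1,0,-1,-1,0,0,0,2]) (by decide +kernel) (by decide +kernel) ok13 ok52

noncomputable def t55 : Tre :=
  .Q [0,1,0,-1,0,0,-1,-1,0,-1,1] (.p true [0,0,1] [1] (⟨0,[(21,0)]⟩,⟨0,[(20,0)]⟩) .k 1 (⟨0,[]⟩,⟨0,
  []⟩) .k .k) t53 t54

theorem ok55 : chk (cU (-1) false 2) t55 r12 = true :=
  chk_Q (e' := [0,-1,0,1,0,0,1,1,0,1,-1]) (by decide +kernel) (by decide +kernel) ok53 ok54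

noncomputable def t56 : Tre :=
  .Q [0,0,0,0,0,1,0,0,0,0,-1] (.ed true [1,-1,1] .k) t12 t55

theorem ok56 : chk (cU (-1) false 2) t56 l11 = true :=
  chk_Q (e' := [0,0,0,0,0,-1,0,0,0,0,1]) (by decide +kernel) (by decide +kernel) ok12 ok55

noncomputable def t63 : Tre :=
  .Q [0,-1,0,1,0,0,1,1,0,1,-1] (.p false [0,0,1] [1] (⟨0,[(28,0)]⟩,⟨0,[(27,0)]⟩) .k 1 (⟨0,[]⟩,⟨0,
  []⟩) .k .k) t61 t62

theorem ok63 : chk (cU (-1) false 2) t63 l41 = true :=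
  chk_Q (e' := [0,1,0,-1,0,0,-1,-1,0,-1,1]) (by decide +kernel) (by decide +kernel) ok61 ok62

noncomputable def t65 : Tre :=
  .I [1,-1,2,1,-1,0,0,1] t63 t64

theorem ok65 : chk (cU (-1) false 2) t65 l40 = true :=
  chk_I (e' := [0,1,-2,-1,1,0,0,-1]) (by decide +kernel) (by decide +kernel) ok63 ok64

noncomputable def t68 : Tre :=
  .I [0,0,1,0,0,-1,2] t66 t67

theorem ok68 : chk (cU (-1) false 2) t68 l43 = true :=
  chk_I (e' := [1,0,-1,0,0,1,-2]) (by decide +kernel) (by decide +kernel) ok66 ok67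

noncomputable def t70 : Tre :=
  .Q [0,0,0,0,0,1,0,0,0,0,-1] (.ed true [1,-1,1] .k) t68 t69

theorem ok70 : chk (cU (-1) false 2) t70 r40 = true :=
  chk_Q (e' := [0,0,0,0,0,-1,0,0,0,0,1]) (by decide +kernel) (by decide +kernel) ok68 ok69

noncomputable def t71 : Tre :=
  .Q [0,0,2,0,-1,0,-1,0,0,0,1] (.p true [0,0,1] [] (⟨0,[(26,0)]⟩,⟨0,[(25,0)]⟩) .k 0 (⟨0,[]⟩,⟨0,[]⟩)
  .k .k) t65 t70

theorem ok71 : chk (cU (-1) false 2) t71 l39 = true :=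
  chk_Q (e' := [0,0,-2,0,1,0,1,0,0,0,-1]) (by decide +kernel) (by decide +kernel) ok65 ok70

noncomputable def t73 : Tre :=
  .I [1,0,-2,-1,1] t71 t72

theorem ok73 : chk (cU (-1) false 2) t73 r38 = true :=
  chk_I (e' := [0,0,2,1,-1]) (by decide +kernel) (by decide +kernel) ok71 ok72

noncomputable def t74 : Tre :=
  .I [0,1,0,1,0,0,0,-1] t60 t73

theorem ok74 : chk (cU (-1) false 2) t74 r37 = true :=
  chk_I (e' := [1,-1,0,-1,0,0,0,1]) (by decide +kernel) (by decide +kernel) ok60 ok73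

noncomputable def t75 : Tre :=
  .I [0,1,-1,0,0,0,0,1] t59 t74

theorem ok75 : chk (cU (-1) false 2) t75 l36 = true :=
  chk_I (e' := [1,-1,1,0,0,0,0,-1]) (by decide +kernel) (by decide +kernel) ok59 ok74

noncomputable def t85 : Tre :=
  .Q [0,1,0,-1,0,0,-1,-1,0,-1,1] (.p true [0,0,1] [1] (⟨0,[(34,0)]⟩,⟨0,[(33,0)]⟩) .k 1 (⟨0,[]⟩,⟨0,
  []⟩) .k .k) t83 t84

theorem ok85 : chk (cU (-1) false 2) t85 l55 = true :=
  chk_Q (e' := [0,-1,0,1,0,0,1,1,0,1,-1]) (by decide +kernel) (by decide +kernel) ok83 ok84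

noncomputable def t87 : Tre :=
  .I [1,0,-2,-1,1] t85 t86

theorem ok87 : chk (cU (-1) false 2) t87 r54 = true :=
  chk_I (e' := [0,0,2,1,-1]) (by decide +kernel) (by decide +kernel) ok85 ok86

noncomputable def t88 : Tre :=
  .I [0,1,-1,-1,0,0,0,1] t82 t87

theorem ok88 : chk (cU (-1) false 2) t88 r53 = true :=
  chk_I (e' := [1,-1,1,1,0,0,0,-1]) (by decide +kernel) (by decide +kernel) ok82 ok87

noncomputable def t89 : Tre :=
  .I [0,1,0,1,0,0,0,-1,1] t81 t88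

theorem ok89 : chk (cU (-1) false 2) t89 r52 = true :=
  chk_I (e' := [1,-1,0,-1,0,0,0,1,-1]) (by decide +kernel) (by decide +kernel) ok81 ok88

noncomputable def t90 : Tre :=
  .I [1,-1,2,2,-1,0,0,0,-1] t80 t89

theorem ok90 : chk (cU (-1) false 2) t90 r51 = true :=
  chk_I (e' := [0,1,-2,-2,1,0,0,0,1]) (by decide +kernel) (by decide +kernel) ok80 ok89

noncomputable def t91 : Tre :=
  .I [1,1,-1,-2,0,0,0,1] t79 t90

theorem ok91 : chk (cU (-1) false 2) t91 l50 = true :=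
  chk_I (e' := [0,-1,1,2,0,0,0,-1]) (by decide +kernel) (by decide +kernel) ok79 ok90

noncomputable def t93 : Tre :=
  .Q [0,0,0,2,0,0,-1,-1,0,1,1] (.p true [1,-1,1] [] (⟨0,[(28,0),(1,0)]⟩,⟨0,[(4,0)]⟩) .k 0 (⟨0,[]⟩,
  ⟨0,[]⟩) .k .k) t91 t92

theorem ok93 : chk (cU (-1) false 2) t93 r49 = true :=
  chk_Q (e' := [0,0,0,-2,0,0,1,1,0,-1,-1]) (by decide +kernel) (by decide +kernel) ok91 ok92

noncomputable def t94 : Tre :=
  .Q [0,0,1,0,0,0,2,0,0,0,-2] (.p false [0,0,1] [0,1,-1] (⟨0,[(27,0)]⟩,⟨0,[(26,0)]⟩) .k 2 (⟨0,[(3,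
  0)]⟩,⟨0,[(27,0),(1,0)]⟩) .k (.x (-1) ⟨3,[(0,3),(14,0),(0,0),(13,3),(3,1)]⟩ ⟨0,[(3,0),(5,0),(4,
  0)]⟩)) t78 t93

theorem ok94 : chk (cU (-1) false 2) t94 l48 = true :=
  chk_Q (e' := [0,0,-1,0,0,0,-2,0,0,0,2]) (by decide +kernel) (by decide +kernel) ok78 ok93

noncomputable def t96 : Tre :=
  .I [0,0,1,0,0,-1,2] t94 t95

theorem ok96 : chk (cU (-1) false 2) t96 r47 = true :=
  chk_I (e' := [1,0,-1,0,0,1,-2]) (by decide +kernel) (by decide +kernel) ok94 ok95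

noncomputable def t97 : Tre :=
  .Q [0,0,0,1,0,0,-1,-1,0,1,1] (.p true [1,-1,1] [] (⟨0,[(25,0),(1,0)]⟩,⟨0,[(1,0)]⟩) .k 0 (⟨0,[]⟩,
  ⟨0,[]⟩) .k .k) t77 t96

theorem ok97 : chk (cU (-1) false 2) t97 r46 = true :=
  chk_Q (e' := [0,0,0,-1,0,0,1,1,0,-1,-1]) (by decide +kernel) (by decide +kernel) ok77 ok96

noncomputable def t98 : Tre :=
  .Q [0,0,-1,0,0,0,-1,0,0,1,1] (.p true [1,-1,1] [] (⟨0,[(24,0),(1,0)]⟩,⟨0,[(0,0)]⟩) .k 0 (⟨0,[]⟩,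
  ⟨0,[]⟩) .k .k) t76 t97

theorem ok98 : chk (cU (-1) false 2) t98 l45 = true :=
  chk_Q (e' := [0,0,1,0,0,0,1,0,0,-1,-1]) (by decide +kernel) (by decide +kernel) ok76 ok97

noncomputable def t103 : Tre :=
  .I [0,0,1,0,0,-1,2] t101 t102

theorem ok103 : chk (cU (-1) false 2) t103 r58 = true :=
  chk_I (e' := [1,0,-1,0,0,1,-2]) (by decide +kernel) (by decide +kernel) ok101 ok102

noncomputable def t104 : Tre :=
  .I [1,-1,0,-1,0,0,0,0,-1] t100 t103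

theorem ok104 : chk (cU (-1) false 2) t104 r57 = true :=
  chk_I (e' := [0,1,0,1,0,0,0,0,1]) (by decide +kernel) (by decide +kernel) ok100 ok103

noncomputable def t105 : Tre :=
  .I [0,0,1,1,0,0,0,-2] t99 t104

theorem ok105 : chk (cU (-1) false 2) t105 r45 = true :=
  chk_I (e' := [1,0,-1,-1,0,0,0,2]) (by decide +kernel) (by decide +kernel) ok99 ok104

noncomputable def t106 : Tre :=
  .Q [0,0,0,0,0,1,0,0,0,0,-1] (.ed true [1,-1,1] .k) t98 t105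

theorem ok106 : chk (cU (-1) false 2) t106 r36 = true :=
  chk_Q (e' := [0,0,0,0,0,-1,0,0,0,0,1]) (by decide +kernel) (by decide +kernel) ok98 ok105

noncomputable def t107 : Tre :=
  .Q [0,0,0,1,0,0,-1,-1,0,0,1] (.p true [0,0,1] [] (⟨0,[(22,0)]⟩,⟨0,[(21,0)]⟩) .k 0 (⟨0,[]⟩,⟨0,[]⟩)
  .k .k) t75 t106

theorem ok107 : chk (cU (-1) false 2) t107 r35 = true :=
  chk_Q (e' := [0,0,0,-1,0,0,1,1,0,0,-1]) (by decide +kernel) (by decide +kernel) ok75 ok106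

noncomputable def t108 : Tre :=
  .Q [0,-1,0,1,0,0,0,0,0,1] (.pp false [-1,1]) t58 t107

theorem ok108 : chk (cU (-1) false 2) t108 r34 = true :=
  chk_Q (e' := [0,1,0,-1,0,0,0,0,0,-1]) (by decide +kernel) (by decide +kernel) ok58 ok107

noncomputable def t109 : Tre :=
  .I [1,0,1,1,-1,0,0,1] t57 t108

theorem ok109 : chk (cU (-1) false 2) t109 r11 = true :=
  chk_I (e' := [0,0,-1,-1,1,0,0,-1]) (by decide +kernel) (by decide +kernel) ok57 ok108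

noncomputable def t110 : Tre :=
  .Q [0,0,0,0,0,0,-1,-1,0,0,1] (.p true [0,0,1] [] (⟨0,[(19,0)]⟩,⟨0,[(18,0)]⟩) .k 0 (⟨0,[]⟩,⟨0,[]⟩)
  .k .k) t56 t109

theorem ok110 : chk (cU (-1) false 2) t110 l10 = true :=
  chk_Q (e' := [0,0,0,0,0,0,1,1,0,0,-1]) (by decide +kernel) (by decide +kernel) ok56 ok109

noncomputable def t112 : Tre :=
  .I [0,0,-2,-2,1,0,0,1] t110 t111

theorem ok112 : chk (cU (-1) false 2) t112 r4 = true :=
  chk_I (e' := [1,0,2,2,-1,0,0,-1]) (by decide +kernel) (by decide +kernel) ok110 ok111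

noncomputable def t113 : Tre :=
  .Q [0,0,0,0,0,1,0,0,0,-1,1] (.ed false [0,1,1] .k) t11 t112

theorem ok113 : chk (cU (-1) false 2) t113 l3 = true :=
  chk_Q (e' := [0,0,0,0,0,-1,0,0,0,1,-1]) (by decide +kernel) (by decide +kernel) ok11 ok112

noncomputable def t119 : Tre :=
  .Q [0,0,0,0,0,1,0,0,0,-1,1] (.ed false [0,1,1] .k) t117 t118

theorem ok119 : chk (cU (-1) false 2) t119 r62 = true :=
  chk_Q (e' := [0,0,0,0,0,-1,0,0,0,1,-1]) (by decide +kernel) (by decide +kernel) ok117 ok118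

noncomputable def t120 : Tre :=
  .Q [0,1,0,2,-1,0,0,0,0,1] (.pp false [-1,1]) t116 t119

theorem ok120 : chk (cU (-1) false 2) t120 r61 = true :=
  chk_Q (e' := [0,-1,0,-2,1,0,0,0,0,-1]) (by decide +kernel) (by decide +kernel) ok116 ok119

noncomputable def t121 : Tre :=
  .Q [0,-1,0,1,0,0,0,0,0,1] (.pp false [-1,1]) t115 t120

theorem ok121 : chk (cU (-1) false 2) t121 r60 = true :=
  chk_Q (e' := [0,1,0,-1,0,0,0,0,0,-1]) (by decide +kernel) (by decide +kernel) ok115 ok120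

noncomputable def t122 : Tre :=
  .Q [0,-1,0,1,0,0,1,1,0,1,-1] (.p false [0,0,1] [1] (⟨0,[(17,0)]⟩,⟨0,[(16,0)]⟩) .k 1 (⟨0,[]⟩,⟨0,
  []⟩) .k .k) t114 t121

theorem ok122 : chk (cU (-1) false 2) t122 r3 = true :=
  chk_Q (e' := [0,1,0,-1,0,0,-1,-1,0,-1,1]) (by decide +kernel) (by decide +kernel) ok114 ok121

noncomputable def t123 : Tre :=
  .I [1,0,-1,-1,1,0,0,-1] t113 t122

theorem ok123 : chk (cU (-1) false 2) t123 l2 = true :=
  chk_I (e' := [0,0,1,1,-1,0,0,1]) (by decide +kernel) (by decide +kernel) ok113 ok122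

noncomputable def t128 : Tre :=
  .Q [0,0,0,0,0,1,0,0,0,0,-1] (.ed true [1,-1,1] .k) t126 t127

theorem ok128 : chk (cU (-1) false 2) t128 r66 = true :=
  chk_Q (e' := [0,0,0,0,0,-1,0,0,0,0,1]) (by decide +kernel) (by decide +kernel) ok126 ok127

noncomputable def t129 : Tre :=
  .Q [0,-1,0,1,0,0,0,0,0,1] (.pp false [-1,1]) t125 t128

theorem ok129 : chk (cU (-1) false 2) t129 l65 = true :=
  chk_Q (e' := [0,1,0,-1,0,0,0,0,0,-1]) (by decide +kernel) (by decide +kernel) ok125 ok128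

noncomputable def t132 : Tre :=
  .I [1,-1,-1,-1,1] t130 t131

theorem ok132 : chk (cU (-1) false 2) t132 r65 = true :=
  chk_I (e' := [0,1,1,1,-1]) (by decide +kernel) (by decide +kernel) ok130 ok131

noncomputable def t133 : Tre :=
  .Q [0,0,0,0,0,-1,0,0,0,1,-1] (.ed true [0,1,1] .k) t129 t132

theorem ok133 : chk (cU (-1) false 2) t133 r64 = true :=
  chk_Q (e' := [0,0,0,0,0,1,0,0,0,-1,1]) (by decide +kernel) (by decide +kernel) ok129 ok132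

noncomputable def t134 : Tre :=
  .I [0,0,0,1,0,0,0,-1] t124 t133

theorem ok134 : chk (cU (-1) false 2) t134 r2 = true :=
  chk_I (e' := [1,0,0,-1,0,0,0,1]) (by decide +kernel) (by decide +kernel) ok124 ok133

noncomputable def t135 : Tre :=
  .Q [0,1,0,-1,0,0,1,1,0,0,-1] (.p false [0,0,1] [] (⟨0,[(15,0)]⟩,⟨0,[(14,0)]⟩) .k 0 (⟨0,[]⟩,⟨0,
  []⟩) .k .k) t123 t134

theorem ok135 : chk (cU (-1) false 2) t135 r1 = true :=
  chk_Q (e' := [0,-1,0,1,0,0,-1,-1,0,0,1]) (by decide +kernel) (by decide +kernel) ok123 ok134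

noncomputable def t136 : Tre :=
  .Q [0,0,0,0,0,0,1,0,0,1,-1] (.p false [0,0,1] [1] (⟨0,[(14,0)]⟩,⟨0,[(13,0)]⟩) .k 1 (⟨0,[]⟩,⟨0,
  []⟩) .k .k) t0 t135

theorem ok136 : chk (cU (-1) false 2) t136 l0 = true :=
  chk_Q (e' := [0,0,0,0,0,0,-1,0,0,-1,1]) (by decide +kernel) (by decide +kernel) ok0 ok135

noncomputable def t140 : Tre :=
  .Q [0,0,0,0,0,1,0,0,0,0,-1] (.ed true [1,-1,1] .k) t138 t139

theorem ok140 : chk (cU (-1) false 2) t140 r69 = true :=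
  chk_Q (e' := [0,0,0,0,0,-1,0,0,0,0,1]) (by decide +kernel) (by decide +kernel) ok138 ok139

noncomputable def t141 : Tre :=
  .Q [0,-1,0,1,0,0,1,1,0,1,-1] (.p false [0,0,1] [1] (⟨0,[(14,0)]⟩,⟨0,[(13,0)]⟩) .k 1 (⟨0,[]⟩,⟨0,
  []⟩) .k .k) t137 t140

theorem ok141 : chk (cU (-1) false 2) t141 r0 = true :=
  chk_Q (e' := [0,1,0,-1,0,0,-1,-1,0,-1,1]) (by decide +kernel) (by decide +kernel) ok137 ok140

noncomputable def t142 : Tre :=
  .I [0,0,-1,0,1,0,0,-1] t136 t141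

theorem ok142 : chk (cU (-1) false 2) t142 base = true :=
  chk_I (e' := [1,0,1,0,-1,0,0,1]) (by decide +kernel) (by decide +kernel) ok136 ok141

theorem ok : chkB (cU (-1) false 2) (fax (fcU (-1)) true 3 (-1) 2 true (tU false)) t142 base = true :=
  chkB_of (by decide +kernel) ok142

end Helper11.CT.T1_3_m1_1_v
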