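import Pool.Agent.Helper11.CT.Cfg
import Pool.Agent.Helper11.CT.Cut

set_option autoImplicit false
set_option linter.all false

namespace Helper11.CT.T1_3_m1_m1_v

open Helper11.CT

noncomputable def base : List Con :=
  [(false,[0,0,0,0,0,0,-2,0,0,-1,2]),
  (true,[0,0,0,0,1,0,0,0,-2]),
  (true,[0,0,0,0,1,0,0,0,2]),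
  (false,[0,0,0,0,0,0,0,0,0,1,0,-2]),
  (false,[0,0,0,0,0,0,0,0,0,0,0,1]),
  (false,[0,1,0,0,0,0,-1,-1,0,-1,1]),
  (false,[0,0,1,0,0,0,-1,0,0,-1,1]),
  (false,[0,1,0,0,0,0,1,1,0,0,-1]),
  (false,[0,1,0,0,0,0,-1,-1,0,0,1]),
  (false,[0,0,1,0,0,0,1,0,0,0,-1]),
  (false,[0,0,1,0,0,0,-1,0,0,0,1]),
  (true,[0,0,0,0,0,0,0,-1]),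
  (false,[0,0,0,0,0,0,0,0,0,1,-1]),
  (false,[0,0,0,0,0,0,0,0,0,0,1]),
  (false,[0,0,0,0,1,0,0,0,0,-2]),
  (false,[0,0,0,0,0,-1,0,0,0,1]),
  (true,[0,0,0,0,0,1]),
  (true,[1,-1,1]),
  (true,[0,1,0,-1]),
  (true,[0,0,0,1]),
  (true,[0,0,-2,0,1]),
  (true,[0,-2,0,0,1]),
  (true,[-1,0,1]),
  (true,[-1,1])]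

noncomputable def l0 : List Con := (false, [0,-1,0,1,0,0,-1,-1,0,0,1]) :: base

noncomputable def r0 : List Con := (false, [0,1,0,-1,0,0,1,1,0,0,-1]) :: base

noncomputable def t0 : Tre :=
  (.R ⟨2,true,false,true,[0,1],[0,0,1],[1,1,1],(⟨0,[]⟩,⟨0,[]⟩),(⟨0,[(14,0)]⟩,⟨0,[(13,0)]⟩),⟨0,[]⟩,
  .k,.k,.k,.k,.k,.k,⟨false,0,⟨0,[(12,0)]⟩,⟨1,[(1,0),(6,1),(4,0),(0,0),(6,0),(0,0)]⟩⟩,⟨true,0,⟨0,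
  [(10,0)]⟩,⟨1,[(1,0),(11,0),(0,0)]⟩⟩,⟨true,0,⟨0,[(19,0)]⟩,⟨0,[(20,0)]⟩⟩,⟨false,1,⟨0,[(8,0),(10,0),
  (2,0)]⟩,⟨0,[(0,0)]⟩⟩,⟨false,0,⟨0,[]⟩,⟨3,[(2,0),(0,0),(18,1)]⟩⟩,⟨true,0,⟨0,[(8,0)]⟩,⟨0,[(0,0),(18,
  0)]⟩⟩,[]⟩)

theorem ok0 : chk (cU (-1) false 2) t0 l0 = true := by decide +kernel

noncomputable def l1 : List Con := (false, [0,0,0,0,0,1,0,0,0,-1,1]) :: r0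

noncomputable def r1 : List Con := (false, [0,0,0,0,0,-1,0,0,0,1,-1]) :: r0

noncomputable def t1 : Tre :=
  (.Q [0,0,0,1,0,0,1,1,0,1,-1] (.p false [0,0,1] [1] (⟨0,[(15,0)]⟩,⟨0,[(14,0)]⟩) .k 1 (⟨0,[]⟩,⟨0,
  []⟩) .k .k) (.Q [0,0,-2,0,1,0,1,0,0,1,-1] (.p false [0,0,1] [1] (⟨0,[(16,0)]⟩,⟨0,[(15,0)]⟩) .k 1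
  (⟨0,[]⟩,⟨0,[]⟩) .k .k) (.Q [0,0,0,0,0,0,1,0,0,1,-1] (.p false [0,0,1] [1] (⟨0,[(17,0)]⟩,⟨0,[(16,
  0)]⟩) .k 1 (⟨0,[]⟩,⟨0,[]⟩) .k .k) (.R ⟨0,false,false,false,[1,0,-1],[0,1],[1,1,1],(⟨0,[(17,0)]⟩,
  ⟨0,[(18,0)]⟩),(⟨0,[(21,0)]⟩,⟨0,[(20,0)]⟩),⟨0,[(3,0)]⟩,.k,.k,.k,.k,.k,.k,⟨true,0,⟨0,[(23,0)]⟩,⟨0,
  [(22,0),(1,0)]⟩⟩,⟨false,1,⟨0,[(1,0)]⟩,⟨0,[(11,0)]⟩⟩,⟨false,0,⟨3,[(2,1),(1,1),(0,0),(5,0),(3,0),(6,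
  1)]⟩,⟨1,[(16,1),(8,0),(0,0)]⟩⟩,⟨true,0,⟨0,[(2,0)]⟩,⟨0,[(4,0),(0,0),(10,1)]⟩⟩,⟨false,0,⟨0,[]⟩,⟨0,
  []⟩⟩,⟨false,0,⟨0,[]⟩,⟨0,[]⟩⟩,[.o ⟨false,0,⟨0,[(24,0)]⟩,⟨1,[(19,0),(3,1),(2,0)]⟩⟩,.e ⟨false,0,⟨0,
  []⟩,⟨3,[(6,0),(0,0),(17,1)]⟩⟩ ⟨false,1,⟨1,[(1,0),(0,0),(13,0),(7,0),(1,0)]⟩,⟨0,[(4,0),(0,0),(10,
  0)]⟩⟩,.a ⟨true,0,⟨1,[(5,0),(11,0),(0,0)]⟩,⟨0,[(0,0)]⟩⟩ ⟨false,0,⟨1,[(14,0),(0,0)]⟩,⟨1,[(25,0),(0,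
  0)]⟩⟩ ⟨true,0,⟨0,[(2,0),(13,0)]⟩,⟨0,[(4,0),(0,0),(10,0)]⟩⟩,.o ⟨false,0,⟨0,[(11,0)]⟩,⟨2,[(1,1),(12,
  0),(4,0)]⟩⟩]⟩) (.R ⟨2,true,false,true,[0,1],[1,0,-1],[0,0,1,1],(⟨0,[]⟩,⟨0,[]⟩),(⟨0,[(17,0)]⟩,⟨0,
  [(18,0)]⟩),⟨0,[]⟩,.k,.k,.k,.k,.k,.k,⟨true,0,⟨0,[(0,0),(1,0),(19,0)]⟩,⟨0,[(16,0),(6,0)]⟩⟩,⟨false,0,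
  ⟨0,[(0,0)]⟩,⟨5,[(1,3),(4,0),(0,0),(6,1),(2,1),(0,1)]⟩⟩,⟨false,1,⟨3,[(6,0),(0,0),(18,1)]⟩,⟨0,[]⟩⟩,
  ⟨true,0,⟨0,[(0,0),(15,0),(6,0)]⟩,⟨0,[(2,0)]⟩⟩,⟨true,0,⟨0,[(24,0)]⟩,⟨0,[(23,0)]⟩⟩,⟨false,0,⟨0,[(0,
  0),(15,0)]⟩,⟨0,[(2,0),(20,0),(2,0)]⟩⟩,[]⟩)) (.R ⟨2,true,false,true,[0,1],[1,0,-1],[0,0,1,1],(⟨0,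
  []⟩,⟨0,[]⟩),(⟨0,[(16,0)]⟩,⟨0,[(17,0)]⟩),⟨0,[]⟩,.k,.k,.k,.k,.k,.k,⟨true,0,⟨1,[(0,1),(0,1),(22,0),
  (0,0)]⟩,⟨0,[(15,0),(6,0)]⟩⟩,⟨false,0,⟨0,[(0,0),(23,0)]⟩,⟨1,[(1,1),(13,1),(6,1),(1,0),(0,0)]⟩⟩,
  ⟨false,1,⟨3,[(5,0),(0,0),(18,1)]⟩,⟨0,[]⟩⟩,⟨true,0,⟨0,[(0,0),(14,0),(6,0),(1,0)]⟩,⟨0,[(1,0)]⟩⟩,
  ⟨true,0,⟨0,[(23,0)]⟩,⟨0,[(22,0)]⟩⟩,⟨false,0,⟨0,[(0,0),(14,0),(8,0)]⟩,⟨0,[(1,0),(20,0),(2,0)]⟩⟩,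
  []⟩)) (.Q [0,0,0,0,0,0,1,0,0,1,-1] (.p false [0,0,1] [1] (⟨0,[(16,0)]⟩,⟨0,[(15,0)]⟩) .k 1 (⟨0,[]⟩,
  ⟨0,[]⟩) .k .k) (.R ⟨0,false,false,true,[1,0,-1],[1,-1],[0,1,-1,-1],(⟨0,[(16,0)]⟩,⟨0,[(17,0)]⟩),
  (⟨0,[(19,0)]⟩,⟨0,[(20,0)]⟩),⟨0,[(2,0)]⟩,.k,.k,.k,.k,.k,.k,⟨false,1,⟨3,[(5,0),(0,0),(17,1)]⟩,⟨0,
  []⟩⟩,⟨true,0,⟨0,[(13,0)]⟩,⟨1,[(4,0),(11,0),(0,0)]⟩⟩,⟨false,1,⟨1,[(3,1),(0,0),(11,0),(0,0),(6,0),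
  (0,0)]⟩,⟨0,[(15,0),(5,0),(1,0)]⟩⟩,⟨true,0,⟨0,[(3,0)]⟩,⟨1,[(4,0),(10,1),(0,0),(0,0),(5,1)]⟩⟩,
  ⟨false,0,⟨0,[]⟩,⟨0,[]⟩⟩,⟨false,0,⟨0,[]⟩,⟨0,[]⟩⟩,[.o ⟨false,0,⟨0,[(1,0),(9,0)]⟩,⟨3,[(5,0),(0,0),
  (16,3),(1,1)]⟩⟩,.o ⟨false,1,⟨1,[(18,0),(3,1),(2,0)]⟩,⟨0,[(23,0)]⟩⟩,.a ⟨true,0,⟨1,[(4,0),(11,0),(0,
  0)]⟩,⟨0,[(0,0)]⟩⟩ ⟨false,1,⟨1,[(22,1),(1,0),(0,0)]⟩,⟨0,[(21,0),(1,0)]⟩⟩ ⟨true,0,⟨0,[(3,0),(11,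
  0)]⟩,⟨1,[(4,0),(11,0),(0,0),(5,1)]⟩⟩,.o ⟨false,0,⟨0,[(10,0)]⟩,⟨1,[(0,1),(17,0),(5,0)]⟩⟩]⟩) (.Q [0,
  0,0,0,0,0,1,0,0,2,-1] (.p false [-1,1,1] [1] (⟨0,[(2,0)]⟩,⟨0,[(16,0),(2,0)]⟩) .k 1 (⟨0,[]⟩,⟨0,
  []⟩) .k .k) (.R ⟨0,false,false,false,[-1,1,1],[0,1],[1,0,1,0,0,0,0,1],(⟨0,[(3,0)]⟩,⟨0,[(17,0),(2,
  0)]⟩),(⟨0,[(21,0)]⟩,⟨0,[(20,0)]⟩),⟨0,[(17,0)]⟩,.k,.k,.k,.k,.k,.k,⟨false,1,⟨5,[(0,1),(3,5),(0,3),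
  (19,2),(0,2)]⟩,⟨0,[(16,0),(7,0)]⟩⟩,⟨true,0,⟨0,[(1,0)]⟩,⟨3,[(0,1),(13,2),(0,0)]⟩⟩,⟨false,1,⟨0,[(23,
  0),(2,0)]⟩,⟨0,[(24,0)]⟩⟩,⟨true,0,⟨0,[(1,0),(14,0)]⟩,⟨2,[(0,1),(4,0),(6,2)]⟩⟩,⟨false,0,⟨0,[]⟩,⟨0,
  []⟩⟩,⟨false,0,⟨0,[]⟩,⟨0,[]⟩⟩,[.o ⟨false,0,⟨0,[(24,0)]⟩,⟨1,[(19,0),(3,1),(2,0)]⟩⟩,.o ⟨false,1,⟨3,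
  [(6,0),(0,0),(16,3),(1,1)]⟩,⟨0,[(2,0),(9,0)]⟩⟩,.o ⟨false,1,⟨7,[(0,3),(5,0),(0,0),(6,3),(10,5)]⟩,
  ⟨0,[(1,1),(12,0)]⟩⟩,.a ⟨true,0,⟨0,[(0,0)]⟩,⟨0,[(1,0)]⟩⟩ ⟨false,1,⟨2,[(0,0),(4,1),(6,2),(13,2)]⟩,
  ⟨0,[(16,0)]⟩⟩ ⟨true,0,⟨0,[(1,0),(22,0)]⟩,⟨1,[(0,0),(3,0),(11,0),(6,0)]⟩⟩]⟩) (.Q [0,-1,0,-1,1,0,0,
  0,1,0,0,-1] (.p false [0,0,0,1] [] (⟨0,[(9,0)]⟩,⟨1,[(8,0),(8,0),(0,0)]⟩) .k 0 (⟨0,[]⟩,⟨0,[]⟩) .k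
  .k) (.I [1,0,-1,0,1,0,0,2] (.I [0,0,-1,-1,1,0,0,2] (.Q [0,0,0,0,0,1,0,0,0,0,-1] (.ed true [1,-1,
  1] .k) (.Q [0,-1,0,1,0,0,-1,-1,0,1,1] (.p true [1,-1,1] [] (⟨0,[(22,0),(1,0)]⟩,⟨0,[(0,0)]⟩) .k 0
  (⟨0,[]⟩,⟨0,[]⟩) .k .k) (.K ⟨1,[0,1,-1],0,0,(⟨0,[(1,0)]⟩,⟨0,[(23,0),(1,0)]⟩),.k,.k,(.x (-1) ⟨1,[(1,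
  0),(8,0),(11,0),(3,2),(3,1)]⟩ ⟨0,[(5,0),(13,1),(3,0),(1,1)]⟩),.k,.k,[⟨1,[(19,2),(0,0)]⟩,⟨1,[(10,
  0),(11,0),(0,0)]⟩,⟨0,[(9,0)]⟩,⟨0,[(0,0)]⟩]⟩) (.Q [0,0,1,0,0,0,2,0,0,0,-2] (.p false [0,0,1] [0,1,
  -1] (⟨0,[(23,0)]⟩,⟨0,[(22,0)]⟩) .k 2 (⟨0,[(1,0)]⟩,⟨0,[(23,0),(1,0)]⟩) .k (.r (-1) ⟨1,[(3,1),(15,
  0),(0,0)]⟩ ⟨0,[(21,1)]⟩)) (.K ⟨2,[0,1,-1],0,0,(⟨0,[(2,0)]⟩,⟨0,[(24,0),(1,0)]⟩),.k,.k,(.x (-1) ⟨1,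
  [(2,0),(8,0),(11,0),(3,2),(3,1)]⟩ ⟨4,[(0,5),(5,2),(10,3),(6,4),(1,9)]⟩),(.r 0 ⟨2,[(0,0),(18,1),(2,
  3),(5,1),(1,2)]⟩ ⟨0,[(3,0)]⟩),.k,[⟨0,[(0,0)]⟩,⟨1,[(11,0),(11,0),(0,0)]⟩,⟨0,[(10,0)]⟩,⟨0,[(19,0),
  (10,0)]⟩]⟩) (.I [0,1,1,0,-1,0,0,0,-1] (.Q [0,-1,0,1,0,0,0,0,-1,0,0,1] (.p true [0,0,0,1] [] (⟨0,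
  [(16,0)]⟩,⟨1,[(15,0),(8,0),(0,0)]⟩) .k 0 (⟨0,[]⟩,⟨0,[]⟩) .k .k) (.R ⟨0,false,false,false,[0,0,0,
  1],[0,1],[0,1,1],(⟨0,[(17,0)]⟩,⟨1,[(16,0),(8,0),(0,0)]⟩),(⟨0,[(29,0)]⟩,⟨0,[(28,0)]⟩),⟨1,[(4,0),(6,
  0),(4,0)]⟩,.k,.k,(.x 0 ⟨2,[(8,0),(10,0),(2,1),(5,2)]⟩ ⟨3,[(14,0),(0,0),(13,3),(3,1)]⟩),(.x 0 ⟨2,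
  [(8,0),(10,0),(2,1),(5,2)]⟩ ⟨3,[(14,0),(0,0),(13,3),(3,1)]⟩),.k,.k,⟨true,0,⟨0,[(31,0)]⟩,⟨0,[(30,
  0),(1,0)]⟩⟩,⟨false,1,⟨0,[(17,0),(15,0)]⟩,⟨1,[(16,0),(2,0),(2,0)]⟩⟩,⟨true,(-1),⟨0,[(1,0)]⟩,⟨1,[(15,
  0),(17,0)]⟩⟩,⟨false,0,⟨0,[(0,0)]⟩,⟨15,[(7,7),(6,0),(0,4),(0,3),(10,1),(3,7)]⟩⟩,⟨false,0,⟨0,[]⟩,⟨0,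
  []⟩⟩,⟨false,0,⟨0,[]⟩,⟨0,[]⟩⟩,[.o ⟨false,0,⟨0,[(32,0)]⟩,⟨1,[(27,0),(3,1),(2,0)]⟩⟩,.o ⟨false,1,⟨3,
  [(14,0),(0,0),(16,3),(1,1)]⟩,⟨3,[(3,1),(6,0),(7,0),(12,0)]⟩⟩,.a ⟨true,0,⟨1,[(16,0),(8,0),(0,0)]⟩,
  ⟨0,[(17,0)]⟩⟩ ⟨false,0,⟨1,[(22,0),(0,0)]⟩,⟨1,[(33,0),(0,0)]⟩⟩ ⟨true,0,⟨0,[(17,0),(14,0)]⟩,⟨7,[(3,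
  1),(6,0),(5,3),(1,0),(12,4)]⟩⟩,.o ⟨false,0,⟨1,[(16,0),(2,0),(2,0)]⟩,⟨1,[(17,1),(9,0),(5,0)]⟩⟩]⟩)
  (.R ⟨0,false,false,false,[0,0,0,1],[0,1],[1,0,1,1],(⟨0,[(17,0)]⟩,⟨1,[(16,0),(8,0),(0,0)]⟩),(⟨0,
  [(29,0)]⟩,⟨0,[(28,0)]⟩),⟨1,[(4,0),(6,0),(4,0)]⟩,.k,.k,(.r (-1) ⟨1,[(0,0),(6,0),(9,1),(15,0)]⟩ ⟨5,
  [(1,1),(12,1),(7,0),(0,0),(6,1),(1,5)]⟩),(.r (-1) ⟨1,[(0,0),(6,0),(9,1),(15,0)]⟩ ⟨5,[(1,1),(12,1),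
  (7,0),(0,0),(6,1),(1,5)]⟩),.k,.k,⟨true,0,⟨0,[]⟩,⟨1,[(22,0),(0,0)]⟩⟩,⟨false,1,⟨0,[(17,0),(15,0)]⟩,
  ⟨1,[(16,0),(2,0),(2,0)]⟩⟩,⟨false,0,⟨0,[(1,0),(30,0),(1,0)]⟩,⟨1,[(0,0),(6,0),(9,1),(15,0)]⟩⟩,⟨true,
  0,⟨1,[(1,1),(15,1),(14,1),(0,0),(0,0)]⟩,⟨0,[(0,0)]⟩⟩,⟨false,0,⟨0,[]⟩,⟨0,[]⟩⟩,⟨false,0,⟨0,[]⟩,⟨0,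
  []⟩⟩,[.o ⟨false,0,⟨0,[(32,0)]⟩,⟨1,[(27,0),(3,1),(2,0)]⟩⟩,.o ⟨false,1,⟨3,[(14,0),(0,0),(16,3),(1,
  1)]⟩,⟨3,[(3,1),(6,0),(7,0),(12,0)]⟩⟩,.a ⟨true,0,⟨1,[(16,0),(8,0),(0,0)]⟩,⟨0,[(17,0)]⟩⟩ ⟨false,0,
  ⟨0,[(30,0),(1,0)]⟩,⟨1,[(31,1),(1,0),(0,0)]⟩⟩ ⟨true,0,⟨0,[(17,0),(14,0)]⟩,⟨7,[(3,1),(6,0),(5,3),(1,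
  0),(12,4)]⟩⟩,.o ⟨false,0,⟨1,[(16,0),(2,0),(2,0)]⟩,⟨1,[(17,1),(9,0),(5,0)]⟩⟩]⟩)) (.Q [0,-1,0,0,0,0,
  -1,-1,-1,-1,1,1] (.p true [0,0,1] [1,0,0,-1] (⟨0,[(25,0)]⟩,⟨0,[(24,0)]⟩) .k 2 (⟨1,[(15,0),(8,0),
  (0,0)]⟩,⟨0,[(16,0)]⟩) .k (.x (-1) ⟨3,[(13,0),(0,0),(6,3),(3,3),(6,1)]⟩ ⟨2,[(7,0),(4,0),(11,2)]⟩))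
  (.R ⟨0,false,false,false,[0,0,0,1],[1,0,-1],[1,0,0,0,0,0,0,0,1],(⟨0,[(17,0)]⟩,⟨1,[(16,0),(8,0),(0,
  0)]⟩),(⟨0,[(25,0)]⟩,⟨0,[(26,0)]⟩),⟨1,[(4,0),(6,0),(4,0)]⟩,.k,.k,(.r (-1) ⟨0,[(1,0),(29,0)]⟩ ⟨1,
  [(0,1),(15,0),(3,1),(1,0),(0,0),(1,0),(0,0),(5,1)]⟩),.k,.k,.k,⟨false,1,⟨3,[(1,1),(0,0),(3,0),(8,
  0),(4,1)]⟩,⟨1,[(0,1),(15,0),(3,1),(3,1),(0,0),(0,0)]⟩⟩,⟨true,0,⟨2,[(8,0),(4,0),(3,2)]⟩,⟨1,[(16,0),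
  (5,1),(2,0),(0,0)]⟩⟩,⟨true,0,⟨0,[]⟩,⟨0,[(36,0)]⟩⟩,⟨false,0,⟨0,[(0,0)]⟩,⟨5,[(1,1),(4,1),(8,1),(0,
  2),(3,1),(1,3),(2,2),(0,2)]⟩⟩,⟨false,0,⟨0,[]⟩,⟨0,[]⟩⟩,⟨false,0,⟨0,[]⟩,⟨0,[]⟩⟩,[.o ⟨false,0,⟨2,[(8,
  0),(4,0),(10,2)]⟩,⟨11,[(1,3),(4,3),(7,2),(0,0),(4,3),(1,7)]⟩⟩,.o ⟨false,1,⟨0,[(18,0),(15,0)]⟩,⟨0,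
  [(20,0)]⟩⟩,.a ⟨true,0,⟨1,[(16,0),(8,0),(0,0)]⟩,⟨0,[(17,0)]⟩⟩ ⟨false,1,⟨1,[(15,0),(18,0)]⟩,⟨1,[(0,
  1),(15,0),(3,1),(4,0),(0,0)]⟩⟩ ⟨true,0,⟨2,[(8,0),(4,0),(3,2),(6,2)]⟩,⟨1,[(16,0),(3,1),(4,0),(0,
  0)]⟩⟩,.o ⟨false,0,⟨1,[(16,0),(2,0),(2,0)]⟩,⟨1,[(17,1),(9,0),(5,0)]⟩⟩]⟩) (.Q [0,0,0,0,0,0,1,1,1,1,
  -1,-1] (.p false [0,0,1] [1,0,0,-1] (⟨0,[(26,0)]⟩,⟨0,[(25,0)]⟩) .k 2 (⟨1,[(16,0),(8,0),(0,0)]⟩,⟨0,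
  [(17,0)]⟩) .k (.x (-1) ⟨3,[(14,0),(0,0),(6,3),(3,3),(6,1)]⟩ ⟨2,[(8,0),(4,0),(11,2)]⟩)) (.R ⟨0,
  false,false,false,[0,0,0,1],[1,0,-1],[0,1,0,0,0,0,0,0,1],(⟨0,[(18,0)]⟩,⟨1,[(17,0),(8,0),(0,0)]⟩),
  (⟨0,[(26,0)]⟩,⟨0,[(27,0)]⟩),⟨1,[(5,0),(6,0),(4,0)]⟩,.k,.k,(.x 0 ⟨2,[(9,0),(10,0),(2,1),(5,2)]⟩ ⟨3,
  [(15,0),(0,0),(13,3),(3,1)]⟩),.k,.k,.k,⟨false,0,⟨0,[(0,0),(2,0),(0,0),(13,0),(6,0),(7,0)]⟩,⟨1,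
  [(15,0),(9,1),(9,0)]⟩⟩,⟨true,0,⟨2,[(9,0),(4,0),(3,2)]⟩,⟨1,[(17,0),(5,1),(2,0),(0,0)]⟩⟩,⟨true,0,⟨0,
  [(37,0)]⟩,⟨0,[]⟩⟩,⟨false,1,⟨5,[(9,1),(4,1),(0,2),(2,5),(6,5),(9,2)]⟩,⟨0,[(0,0)]⟩⟩,⟨false,0,⟨0,[]⟩,
  ⟨0,[]⟩⟩,⟨false,0,⟨0,[]⟩,⟨0,[]⟩⟩,[.o ⟨false,0,⟨2,[(9,0),(4,0),(10,2)]⟩,⟨11,[(2,3),(4,3),(7,2),(0,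
  0),(4,3),(1,7)]⟩⟩,.o ⟨false,1,⟨0,[(19,0),(15,0)]⟩,⟨0,[(21,0)]⟩⟩,.a ⟨true,0,⟨1,[(17,0),(8,0),(0,
  0)]⟩,⟨0,[(18,0)]⟩⟩ ⟨false,0,⟨2,[(0,2),(8,0),(4,0),(3,2),(6,2)]⟩,⟨1,[(15,0),(19,0)]⟩⟩ ⟨true,0,⟨2,
  [(9,0),(4,0),(3,2),(6,2)]⟩,⟨1,[(17,0),(3,1),(4,0),(0,0)]⟩⟩,.o ⟨false,0,⟨1,[(17,0),(2,0),(2,0)]⟩,
  ⟨1,[(18,1),(9,0),(5,0)]⟩⟩]⟩) (.R ⟨0,false,false,false,[0,0,0,1],[1,0,-1],[0,1,1],(⟨0,[(18,0)]⟩,⟨1,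
  [(17,0),(8,0),(0,0)]⟩),(⟨0,[(26,0)]⟩,⟨0,[(27,0)]⟩),⟨1,[(5,0),(6,0),(4,0)]⟩,.k,.k,(.r (-1) ⟨0,[(2,
  0),(29,0)]⟩ ⟨1,[(0,1),(16,0),(3,1),(4,0),(0,0),(3,1),(1,1)]⟩),.k,.k,.k,⟨false,0,⟨2,[(3,0),(17,2),
  (2,0)]⟩,⟨1,[(25,1),(8,0),(0,0)]⟩⟩,⟨true,0,⟨2,[(9,0),(4,0),(3,2)]⟩,⟨1,[(17,0),(5,1),(2,0),(0,0)]⟩⟩,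
  ⟨false,0,⟨1,[(0,1),(16,0),(3,1),(4,0),(0,0),(3,1)]⟩,⟨0,[(2,0)]⟩⟩,⟨true,0,⟨0,[(0,0)]⟩,⟨0,[(1,0)]⟩⟩,
  ⟨false,0,⟨0,[]⟩,⟨0,[]⟩⟩,⟨false,0,⟨0,[]⟩,⟨0,[]⟩⟩,[.o ⟨false,0,⟨2,[(9,0),(4,0),(10,2)]⟩,⟨11,[(2,3),
  (4,3),(7,2),(0,0),(4,3),(1,7)]⟩⟩,.o ⟨false,1,⟨0,[(19,0),(15,0)]⟩,⟨0,[(21,0)]⟩⟩,.a ⟨true,0,⟨1,[(17,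
  0),(8,0),(0,0)]⟩,⟨0,[(18,0)]⟩⟩ ⟨false,0,⟨1,[(23,0),(0,0)]⟩,⟨1,[(34,0),(0,0)]⟩⟩ ⟨true,0,⟨2,[(9,0),
  (4,0),(3,2),(6,2)]⟩,⟨1,[(17,0),(3,1),(4,0),(0,0)]⟩⟩,.o ⟨false,0,⟨1,[(17,0),(2,0),(2,0)]⟩,⟨1,[(18,
  1),(9,0),(5,0)]⟩⟩]⟩)))))) (.I [0,0,2,2,-1,0,0,-1] (.Q [0,0,1,0,0,0,2,0,0,1,-2] (.p false [0,0,1]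
  [1,0,-1] (⟨0,[(23,0)]⟩,⟨0,[(22,0)]⟩) .k 2 (⟨0,[(22,0)]⟩,⟨0,[(23,0)]⟩) .k (.r (-1) ⟨1,[(3,1),(15,
  0),(0,0)]⟩ ⟨0,[(21,1)]⟩)) (.K ⟨2,[1,1,-1],0,0,(⟨0,[(23,0),(3,0)]⟩,⟨0,[(2,0)]⟩),.k,.k,(.r 1 ⟨0,[(1,
  0)]⟩ ⟨3,[(3,1),(25,5),(1,2),(0,2)]⟩),(.r 0 ⟨3,[(1,1),(10,0),(0,0),(8,5)]⟩ ⟨0,[(3,0)]⟩),.k,[⟨0,[(0,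
  0)]⟩,⟨0,[(7,0)]⟩,⟨0,[(10,0),(12,0),(0,0)]⟩,⟨0,[(16,0),(13,0)]⟩]⟩) (.Q [0,-1,0,2,0,0,-1,-1,0,0,1]
  (.p true [0,0,1] [] (⟨0,[(24,0)]⟩,⟨0,[(23,0)]⟩) .k 0 (⟨0,[]⟩,⟨0,[]⟩) .k .k) (.R ⟨1,true,false,
  false,[0,0,1],[0,1],[1,0,0,-1,0,0,0,1],(⟨0,[(25,0)]⟩,⟨0,[(24,0)]⟩),(⟨0,[(28,0)]⟩,⟨0,[(27,0)]⟩),⟨0,
  [(3,0)]⟩,.k,.k,.k,.k,(.r (-2) ⟨3,[(4,1),(25,5),(1,2),(0,2)]⟩ ⟨0,[(2,0)]⟩),.k,⟨true,1,⟨3,[(1,1),(7,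
  1),(1,5),(12,3),(0,3),(6,0),(0,2)]⟩,⟨0,[(2,0)]⟩⟩,⟨false,1,⟨11,[(0,0),(0,3),(2,1),(15,2),(3,3),(0,
  3),(6,8),(0,0)]⟩,⟨0,[(21,0)]⟩⟩,⟨false,1,⟨0,[(30,0),(2,0)]⟩,⟨0,[(31,0)]⟩⟩,⟨true,0,⟨1,[(0,0),(19,
  0)]⟩,⟨0,[(11,0)]⟩⟩,⟨true,0,⟨0,[]⟩,⟨0,[(35,0)]⟩⟩,⟨false,0,⟨0,[(0,0)]⟩,⟨0,[(11,0),(18,0),(2,0)]⟩⟩,
  []⟩) (.Q [0,0,0,0,0,0,0,0,-1,0,0,1] (.p true [0,0,0,1] [] (⟨0,[(16,0)]⟩,⟨1,[(15,0),(8,0),(0,0)]⟩)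
  .k 0 (⟨0,[]⟩,⟨0,[]⟩) .k .k) (.I [1,1,-1,0,0,0,0,1,-1] (.Q [0,0,0,-1,0,0,0,0,-1,-1,0,1] (.p true
  [0,0,0,1] [1] (⟨0,[(18,0)]⟩,⟨1,[(17,0),(8,0),(0,0)]⟩) .k 1 (⟨0,[]⟩,⟨0,[]⟩) .k .k) (.Q [0,0,0,0,0,
  1,0,0,0,0,0,-1] (.p false [0,0,0,1] [] (⟨0,[(19,0)]⟩,⟨1,[(18,0),(8,0),(0,0)]⟩) .k 0 (⟨0,[]⟩,⟨0,
  []⟩) .k .k) (.Q [0,-1,0,1,0,0,0,0,-1,0,0,1] (.p true [0,0,0,1] [] (⟨0,[(20,0)]⟩,⟨1,[(19,0),(8,0),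
  (0,0)]⟩) .k 0 (⟨0,[]⟩,⟨0,[]⟩) .k .k) (.R ⟨0,false,false,false,[0,0,0,1],[0,1],[0,1,1],(⟨0,[(21,
  0)]⟩,⟨1,[(20,0),(8,0),(0,0)]⟩),(⟨0,[(33,0)]⟩,⟨0,[(32,0)]⟩),⟨0,[(1,0)]⟩,.k,.k,(.x 0 ⟨2,[(12,0),(10,
  0),(2,1),(5,2)]⟩ ⟨3,[(18,0),(0,0),(13,3),(3,1)]⟩),(.x 0 ⟨2,[(12,0),(10,0),(2,1),(5,2)]⟩ ⟨3,[(18,
  0),(0,0),(13,3),(3,1)]⟩),.k,.k,⟨true,0,⟨0,[(35,0)]⟩,⟨0,[(34,0),(1,0)]⟩⟩,⟨false,1,⟨0,[(21,0),(15,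
  0)]⟩,⟨1,[(20,0),(2,0),(2,0)]⟩⟩,⟨true,(-1),⟨2,[(0,1),(2,0),(1,3),(0,1),(0,2),(12,0),(7,1),(0,0),(0,
  0)]⟩,⟨1,[(19,0),(17,0)]⟩⟩,⟨false,0,⟨0,[(0,0)]⟩,⟨15,[(5,3),(5,7),(6,0),(0,4),(0,3),(4,3),(5,1)]⟩⟩,
  ⟨false,0,⟨0,[]⟩,⟨0,[]⟩⟩,⟨false,0,⟨0,[]⟩,⟨0,[]⟩⟩,[.o ⟨false,0,⟨0,[(36,0)]⟩,⟨19,[(2,3),(2,3),(5,3),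
  (2,3),(3,4),(0,4),(11,5)]⟩⟩,.o ⟨false,1,⟨3,[(18,0),(0,0),(16,3),(1,1)]⟩,⟨5,[(5,2),(6,1),(9,1),(1,
  0),(3,1)]⟩⟩,.a ⟨true,0,⟨1,[(20,0),(8,0),(0,0)]⟩,⟨0,[(21,0)]⟩⟩ ⟨false,0,⟨1,[(26,0),(0,0)]⟩,⟨1,[(37,
  0),(0,0)]⟩⟩ ⟨true,0,⟨0,[(21,0),(14,0)]⟩,⟨1,[(5,0),(14,0),(1,0)]⟩⟩,.o ⟨false,0,⟨1,[(20,0),(2,0),(2,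
  0)]⟩,⟨1,[(21,1),(9,0),(5,0)]⟩⟩]⟩) (.R ⟨0,false,false,false,[0,0,0,1],[0,1],[1,0,1,1],(⟨0,[(21,
  0)]⟩,⟨1,[(20,0),(8,0),(0,0)]⟩),(⟨0,[(33,0)]⟩,⟨0,[(32,0)]⟩),⟨0,[(1,0)]⟩,.k,.k,(.r (-1) ⟨1,[(0,0),
  (10,0),(9,1),(15,0)]⟩ ⟨27,[(3,5),(1,0),(1,14),(2,3),(7,10),(8,0),(6,6)]⟩),(.r (-1) ⟨1,[(0,0),(10,
  0),(9,1),(15,0)]⟩ ⟨27,[(3,5),(1,0),(1,14),(2,3),(7,10),(8,0),(6,6)]⟩),.k,.k,⟨true,0,⟨0,[]⟩,⟨1,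
  [(26,0),(0,0)]⟩⟩,⟨false,1,⟨0,[(21,0),(15,0)]⟩,⟨1,[(20,0),(2,0),(2,0)]⟩⟩,⟨false,0,⟨4,[(2,0),(0,2),
  (0,0),(2,2),(12,0),(13,1),(3,2)]⟩,⟨1,[(0,0),(10,0),(9,1),(15,0)]⟩⟩,⟨true,0,⟨0,[(4,0),(31,0)]⟩,⟨0,
  [(0,0)]⟩⟩,⟨false,0,⟨0,[]⟩,⟨0,[]⟩⟩,⟨false,0,⟨0,[]⟩,⟨0,[]⟩⟩,[.o ⟨false,0,⟨0,[(36,0)]⟩,⟨19,[(2,3),(2,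
  3),(5,3),(2,3),(3,4),(0,4),(11,5)]⟩⟩,.o ⟨false,1,⟨3,[(18,0),(0,0),(16,3),(1,1)]⟩,⟨5,[(5,2),(6,1),
  (9,1),(1,0),(3,1)]⟩⟩,.a ⟨true,0,⟨1,[(20,0),(8,0),(0,0)]⟩,⟨0,[(21,0)]⟩⟩ ⟨false,0,⟨0,[(34,0),(1,
  0)]⟩,⟨1,[(5,0),(19,0),(11,0),(0,0)]⟩⟩ ⟨true,0,⟨0,[(21,0),(14,0)]⟩,⟨1,[(5,0),(14,0),(1,0)]⟩⟩,.o
  ⟨false,0,⟨1,[(20,0),(2,0),(2,0)]⟩,⟨1,[(21,1),(9,0),(5,0)]⟩⟩]⟩)) (.Q [0,1,0,1,0,0,0,0,1,1,0,-1]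
  (.p false [0,0,0,1] [1] (⟨0,[(20,0)]⟩,⟨1,[(19,0),(8,0),(0,0)]⟩) .k 1 (⟨0,[]⟩,⟨0,[]⟩) .k .k) (.I
  [0,0,-1,-1,1,0,0,0,1] (.R ⟨1,false,false,true,[0,0,0,1],[1,-1],[1,0,0,-1,0,0,0,0,1],(⟨0,[(22,0)]⟩,
  ⟨1,[(21,0),(8,0),(0,0)]⟩),(⟨0,[(33,0)]⟩,⟨0,[(34,0)]⟩),⟨0,[(2,0)]⟩,.k,.k,(.r (-1) ⟨0,[(0,0)]⟩ ⟨27,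
  [(4,5),(1,0),(1,14),(2,3),(7,10),(8,0),(6,6)]⟩),(.x (-1) ⟨3,[(19,0),(0,0),(13,3),(3,1)]⟩ ⟨1,[(2,
  1),(18,0),(2,0),(2,0)]⟩),.k,.k,⟨false,1,⟨1,[(20,0),(18,0)]⟩,⟨0,[(4,0),(24,0)]⟩⟩,⟨true,0,⟨2,[(13,
  0),(8,2),(1,0),(2,1)]⟩,⟨1,[(21,0),(8,0),(0,0)]⟩⟩,⟨false,1,⟨1,[(6,0),(19,0),(12,1)]⟩,⟨0,[(37,0)]⟩⟩,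
  ⟨false,0,⟨0,[(3,0)]⟩,⟨0,[(1,0),(37,0)]⟩⟩,⟨true,0,⟨0,[]⟩,⟨0,[(41,0)]⟩⟩,⟨false,0,⟨0,[(3,0),(33,0)]⟩,
  ⟨1,[(1,0),(10,0),(17,0),(0,0),(7,0)]⟩⟩,[.o ⟨false,0,⟨5,[(6,2),(6,1),(9,1),(1,0),(3,1)]⟩,⟨3,[(19,
  0),(0,0),(16,3),(1,1)]⟩⟩,.o ⟨false,1,⟨19,[(3,3),(2,3),(5,3),(2,3),(3,4),(0,4),(11,5)]⟩,⟨0,[(37,
  0)]⟩⟩,.a ⟨true,0,⟨1,[(21,0),(8,0),(0,0)]⟩,⟨0,[(22,0)]⟩⟩ ⟨false,1,⟨0,[(12,0),(9,0)]⟩,⟨1,[(4,1),(3,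
  0),(20,0),(9,0)]⟩⟩ ⟨true,0,⟨5,[(6,2),(6,1),(8,5),(0,1),(1,0),(3,1)]⟩,⟨1,[(21,0),(8,0),(0,0),(5,
  1)]⟩⟩,.o ⟨false,0,⟨1,[(21,0),(2,0),(2,0)]⟩,⟨1,[(22,1),(9,0),(5,0)]⟩⟩]⟩) (.R ⟨1,false,false,true,
  [0,0,0,1],[1,-1],[1,0,0,-1,0,0,0,0,1],(⟨0,[(22,0)]⟩,⟨1,[(21,0),(8,0),(0,0)]⟩),(⟨0,[(33,0)]⟩,⟨0,
  [(34,0)]⟩),⟨0,[(2,0)]⟩,.k,.k,(.x 0 ⟨1,[(2,1),(18,0),(2,0),(2,0)]⟩ ⟨3,[(19,0),(0,0),(13,3),(3,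
  1)]⟩),(.x (-1) ⟨3,[(19,0),(0,0),(13,3),(3,1)]⟩ ⟨1,[(2,1),(18,0),(2,0),(2,0)]⟩),.k,.k,⟨false,1,⟨1,
  [(20,0),(18,0)]⟩,⟨0,[(4,0),(24,0)]⟩⟩,⟨true,0,⟨2,[(13,0),(8,2),(1,0),(2,1)]⟩,⟨1,[(21,0),(8,0),(0,
  0)]⟩⟩,⟨false,1,⟨1,[(6,0),(19,0),(12,1)]⟩,⟨0,[(37,0)]⟩⟩,⟨false,0,⟨0,[(3,0)]⟩,⟨0,[(1,0),(37,0)]⟩⟩,
  ⟨true,0,⟨0,[]⟩,⟨0,[(41,0)]⟩⟩,⟨false,0,⟨3,[(0,1),(2,1),(18,1),(9,0),(5,0)]⟩,⟨1,[(1,0),(10,0),(17,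
  0),(0,0),(7,0)]⟩⟩,[.o ⟨false,0,⟨5,[(6,2),(6,1),(9,1),(1,0),(3,1)]⟩,⟨3,[(19,0),(0,0),(16,3),(1,
  1)]⟩⟩,.o ⟨false,1,⟨19,[(3,3),(2,3),(5,3),(2,3),(3,4),(0,4),(11,5)]⟩,⟨0,[(37,0)]⟩⟩,.a ⟨true,0,⟨1,
  [(21,0),(8,0),(0,0)]⟩,⟨0,[(22,0)]⟩⟩ ⟨false,1,⟨0,[(12,0),(9,0)]⟩,⟨3,[(0,1),(18,0),(17,1),(0,0)]⟩⟩
  ⟨true,0,⟨5,[(6,2),(6,1),(8,5),(0,1),(1,0),(3,1)]⟩,⟨3,[(0,1),(0,1),(19,0),(8,0),(0,0),(6,0),(0,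
  0)]⟩⟩,.o ⟨false,0,⟨1,[(21,0),(2,0),(2,0)]⟩,⟨1,[(22,1),(9,0),(5,0)]⟩⟩]⟩)) (.R ⟨1,false,false,true,
  [0,0,0,1],[0,-1,1],[0,0,0,0,0,0,0,0,1],(⟨0,[(21,0)]⟩,⟨1,[(20,0),(8,0),(0,0)]⟩),(⟨0,[(8,0)]⟩,⟨0,
  [(29,0),(3,0)]⟩),⟨0,[(1,0)]⟩,.k,.k,(.x 0 ⟨1,[(1,1),(18,0),(2,0),(2,0)]⟩ ⟨3,[(18,0),(0,0),(13,3),
  (3,1)]⟩),(.r 0 ⟨1,[(7,0),(11,0),(8,0)]⟩ ⟨7,[(0,1),(3,1),(0,0),(3,3),(8,1),(1,1),(4,0),(11,1)]⟩),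
  .k,.k,⟨false,1,⟨1,[(7,0),(11,0),(8,0),(8,0),(0,0)]⟩,⟨9,[(0,1),(2,7),(1,3),(0,1),(13,0),(7,1),(0,
  2),(0,2)]⟩⟩,⟨true,0,⟨0,[(21,0),(4,0)]⟩,⟨1,[(17,0),(2,0)]⟩⟩,⟨false,1,⟨3,[(18,0),(0,0),(18,1)]⟩,⟨0,
  []⟩⟩,⟨false,0,⟨0,[(0,0),(23,0),(4,0),(0,0)]⟩,⟨5,[(6,1),(0,2),(11,2),(0,2),(1,0),(2,0),(2,0),(8,1),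
  (0,3)]⟩⟩,⟨true,0,⟨0,[(36,0)]⟩,⟨1,[(5,0),(19,0)]⟩⟩,⟨false,0,⟨0,[(0,0),(23,0),(4,0),(0,0),(5,0)]⟩,
  ⟨5,[(6,1),(0,0),(3,1),(7,1),(0,1),(4,1),(2,2),(9,2)]⟩⟩,[.o ⟨false,0,⟨0,[(16,0)]⟩,⟨7,[(6,1),(0,3),
  (17,3),(5,2),(5,2),(0,5)]⟩⟩,.o ⟨false,1,⟨15,[(5,7),(4,3),(7,2),(0,2),(6,7),(10,1),(0,3)]⟩,⟨3,[(6,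
  1),(0,1),(20,1),(2,0),(5,0)]⟩⟩,.a ⟨true,0,⟨1,[(20,0),(8,0),(0,0)]⟩,⟨0,[(21,0)]⟩⟩ ⟨false,1,⟨1,[(19,
  0),(18,0)]⟩,⟨7,[(0,1),(2,1),(0,1),(2,0),(10,0),(1,1),(7,0)]⟩⟩ ⟨true,0,⟨1,[(5,0),(15,1),(2,0)]⟩,⟨5,
  [(6,1),(0,2),(12,2),(1,0),(2,0),(2,0),(8,1),(0,0)]⟩⟩,.o ⟨false,0,⟨1,[(20,0),(2,0),(2,0)]⟩,⟨1,[(21,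
  1),(9,0),(5,0)]⟩⟩]⟩))) (.Q [0,0,0,0,0,1,0,0,0,0,0,-1] (.p false [0,0,0,1] [] (⟨0,[(19,0)]⟩,⟨1,
  [(18,0),(8,0),(0,0)]⟩) .k 0 (⟨0,[]⟩,⟨0,[]⟩) .k .k) (.R ⟨0,false,false,false,[0,0,0,1],[0,1],[1,0,
  1,1],(⟨0,[(20,0)]⟩,⟨1,[(19,0),(8,0),(0,0)]⟩),(⟨0,[(32,0)]⟩,⟨0,[(31,0)]⟩),⟨0,[(0,0)]⟩,.k,.k,(.r
  (-1) ⟨5,[(1,1),(2,1),(5,1),(2,1),(4,0),(1,3),(15,2)]⟩ ⟨27,[(2,5),(1,0),(1,14),(2,3),(7,10),(8,0),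
  (6,6)]⟩),(.r (-1) ⟨5,[(1,1),(2,1),(5,1),(2,1),(4,0),(1,3),(15,2)]⟩ ⟨27,[(2,5),(1,0),(1,14),(2,3),
  (7,10),(8,0),(6,6)]⟩),.k,.k,⟨true,0,⟨0,[]⟩,⟨1,[(25,0),(0,0)]⟩⟩,⟨false,1,⟨0,[(20,0),(15,0)]⟩,⟨1,
  [(19,0),(2,0),(2,0)]⟩⟩,⟨false,0,⟨1,[(2,1),(3,0),(20,0),(5,1),(3,0)]⟩,⟨5,[(1,1),(2,1),(5,1),(2,1),
  (4,0),(1,3),(15,2)]⟩⟩,⟨true,0,⟨0,[(3,0),(31,0)]⟩,⟨4,[(1,4),(2,3),(6,0),(1,1),(7,0),(5,0)]⟩⟩,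
  ⟨false,0,⟨0,[]⟩,⟨0,[]⟩⟩,⟨false,0,⟨0,[]⟩,⟨0,[]⟩⟩,[.o ⟨false,0,⟨0,[(35,0)]⟩,⟨11,[(4,3),(8,3),(3,2),
  (0,2),(11,3),(6,1)]⟩⟩,.o ⟨false,1,⟨3,[(17,0),(0,0),(16,3),(1,1)]⟩,⟨5,[(4,2),(6,1),(9,1),(1,0),(3,
  1)]⟩⟩,.a ⟨true,0,⟨1,[(19,0),(8,0),(0,0)]⟩,⟨0,[(20,0)]⟩⟩ ⟨false,0,⟨0,[(33,0),(1,0)]⟩,⟨1,[(4,0),(19,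
  0),(11,0),(0,0)]⟩⟩ ⟨true,0,⟨0,[(20,0),(14,0)]⟩,⟨1,[(4,0),(14,0),(1,0)]⟩⟩,.o ⟨false,0,⟨1,[(19,0),
  (2,0),(2,0)]⟩,⟨1,[(20,1),(9,0),(5,0)]⟩⟩]⟩) (.R ⟨1,false,false,true,[0,0,0,1],[0,1],[1,1,0,-1,0,0,
  0,0,1],(⟨0,[(20,0)]⟩,⟨1,[(19,0),(8,0),(0,0)]⟩),(⟨0,[(32,0)]⟩,⟨0,[(31,0)]⟩),⟨0,[(0,0)]⟩,.k,.k,(.r
  (-1) ⟨5,[(1,1),(2,1),(5,1),(2,1),(4,0),(1,3),(15,2)]⟩ ⟨27,[(2,5),(1,0),(1,14),(2,3),(7,10),(8,0),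
  (6,6)]⟩),(.r (-1) ⟨5,[(1,1),(2,1),(5,1),(2,1),(4,0),(1,3),(15,2)]⟩ ⟨27,[(2,5),(1,0),(1,14),(2,3),
  (7,10),(8,0),(6,6)]⟩),(.r (-2) ⟨1,[(4,0),(5,1),(9,1),(3,0),(11,1)]⟩ ⟨0,[(2,0),(3,0),(26,0)]⟩),.k,
  ⟨true,1,⟨3,[(1,1),(2,3),(0,1),(4,1),(9,3),(6,3),(8,0),(0,0)]⟩,⟨0,[(2,0),(3,0),(26,0)]⟩⟩,⟨false,1,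
  ⟨0,[(20,0),(15,0)]⟩,⟨1,[(19,0),(2,0),(2,0)]⟩⟩,⟨true,0,⟨1,[(4,0),(19,0)]⟩,⟨0,[(35,0)]⟩⟩,⟨false,0,
  ⟨0,[(3,0),(31,0)]⟩,⟨0,[(10,0)]⟩⟩,⟨false,0,⟨0,[]⟩,⟨3,[(17,0),(0,0),(18,1)]⟩⟩,⟨false,0,⟨0,[(3,0),
  (31,1)]⟩,⟨0,[(1,0),(2,0),(8,0),(23,0)]⟩⟩,[.o ⟨false,0,⟨0,[(35,0),(3,0)]⟩,⟨2,[(4,0),(8,0),(16,0),
  (6,1)]⟩⟩,.o ⟨false,0,⟨0,[(35,0)]⟩,⟨11,[(4,3),(8,3),(3,2),(0,2),(11,3),(6,1)]⟩⟩,.a ⟨true,0,⟨1,[(19,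
  0),(8,0),(0,0)]⟩,⟨0,[(20,0)]⟩⟩ ⟨true,0,⟨3,[(1,1),(2,3),(0,1),(0,0),(11,0),(1,1),(6,2)]⟩,⟨1,[(2,1),
  (3,0),(20,0),(9,0)]⟩⟩ ⟨false,0,⟨0,[(20,0),(14,0)]⟩,⟨17,[(4,3),(5,5),(2,3),(3,2),(1,5),(10,0),(6,
  7)]⟩⟩,.o ⟨false,0,⟨1,[(19,0),(2,0),(2,0)]⟩,⟨1,[(20,1),(9,0),(5,0)]⟩⟩]⟩))) (.Q [0,0,0,0,0,1,0,0,0,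
  0,0,-1] (.p false [0,0,0,1] [] (⟨0,[(18,0)]⟩,⟨1,[(17,0),(8,0),(0,0)]⟩) .k 0 (⟨0,[]⟩,⟨0,[]⟩) .k
  .k) (.R ⟨0,false,false,true,[0,0,0,1],[0,0,1],[0,1,1,0,0,0,0,1],(⟨0,[(19,0)]⟩,⟨1,[(18,0),(8,0),(0,
  0)]⟩),(⟨0,[(28,0)]⟩,⟨0,[(27,0)]⟩),⟨0,[(0,0)]⟩,.k,.k,(.r (-1) ⟨11,[(1,3),(1,4),(0,1),(4,1),(7,2),
  (1,1),(3,0),(3,1),(0,1),(6,6)]⟩ ⟨11,[(2,3),(0,0),(1,6),(2,2),(1,0),(5,3),(1,1),(13,0)]⟩),.k,.k,.k,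
  ⟨true,0,⟨1,[(24,0),(0,0)]⟩,⟨0,[]⟩⟩,⟨false,1,⟨0,[(19,0),(4,0),(10,0)]⟩,⟨1,[(15,0),(2,0)]⟩⟩,⟨false,
  0,⟨5,[(2,5),(0,2),(1,2),(2,2),(1,0),(4,0),(2,2),(13,2)]⟩,⟨0,[(1,0),(33,0)]⟩⟩,⟨true,0,⟨0,[(2,0),
  (19,0)]⟩,⟨1,[(1,1),(2,1),(13,0),(3,1),(3,1),(0,0),(0,0)]⟩⟩,⟨false,0,⟨0,[]⟩,⟨0,[]⟩⟩,⟨false,0,⟨0,
  []⟩,⟨0,[]⟩⟩,[.o ⟨false,0,⟨0,[(22,0)]⟩,⟨0,[(20,0),(15,0)]⟩⟩,.o ⟨false,1,⟨7,[(8,3),(7,0),(0,0),(6,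
  7),(10,1)]⟩,⟨5,[(4,1),(0,0),(6,1),(13,2),(2,0)]⟩⟩,.a ⟨true,0,⟨1,[(18,0),(8,0),(0,0)]⟩,⟨0,[(19,
  0)]⟩⟩ ⟨false,0,⟨8,[(3,2),(0,0),(0,5),(1,5),(17,0),(1,0),(0,0),(3,2)]⟩,⟨1,[(26,1),(8,0),(0,0)]⟩⟩
  ⟨true,0,⟨0,[(19,0),(2,0)]⟩,⟨7,[(4,1),(0,0),(6,1),(5,3),(4,1),(2,2),(9,0)]⟩⟩,.o ⟨false,0,⟨1,[(18,
  0),(2,0),(2,0)]⟩,⟨1,[(19,1),(9,0),(5,0)]⟩⟩]⟩) (.I [1,0,0,0,0,0,0,0,1] (.R ⟨0,false,false,true,[1,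
  0,-1],[0,0,0,1],[0,1,1],(⟨0,[(28,0)]⟩,⟨0,[(29,0)]⟩),(⟨0,[(20,0)]⟩,⟨1,[(19,0),(8,0),(0,0)]⟩),⟨0,
  [(14,0)]⟩,.k,.k,.k,.k,.k,.k,⟨true,0,⟨3,[(3,1),(0,0),(1,0),(10,0),(1,0),(2,0),(10,0)]⟩,⟨0,[(0,
  0)]⟩⟩,⟨false,1,⟨1,[(19,0),(5,1),(2,0),(0,0),(6,1)]⟩,⟨2,[(11,0),(4,0),(3,2)]⟩⟩,⟨false,0,⟨8,[(4,2),
  (0,0),(0,5),(1,5),(17,0),(1,0),(0,0),(3,2)]⟩,⟨1,[(27,1),(8,0),(0,0)]⟩⟩,⟨true,0,⟨1,[(0,1),(18,0),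
  (3,1),(4,0),(0,0)]⟩,⟨5,[(3,5),(1,1),(0,0),(6,1),(13,2),(2,0)]⟩⟩,⟨false,0,⟨0,[]⟩,⟨0,[]⟩⟩,⟨false,0,
  ⟨0,[]⟩,⟨0,[]⟩⟩,[.o ⟨false,0,⟨1,[(0,1),(18,0),(1,0),(1,0)]⟩,⟨1,[(3,1),(26,0),(6,0)]⟩⟩,.a ⟨true,0,
  ⟨1,[(0,1),(18,0),(8,0),(0,0)]⟩,⟨0,[(3,0)]⟩⟩ ⟨true,0,⟨1,[(25,0),(0,0)]⟩,⟨0,[]⟩⟩ ⟨false,1,⟨1,[(2,1),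
  (16,0),(3,1),(4,0),(0,0),(6,1)]⟩,⟨2,[(3,2),(7,0),(4,0)]⟩⟩,.o ⟨false,0,⟨0,[(12,0)]⟩,⟨3,[(17,0),(0,
  0),(6,3),(10,1)]⟩⟩,.o ⟨false,0,⟨0,[(22,0)]⟩,⟨0,[(25,0),(10,0)]⟩⟩]⟩) (.R ⟨1,false,false,false,[1,0,
  0,-1],[1,-1],[0,0,0,0,0,0,0,0,-1],(⟨1,[(19,0),(8,0),(0,0)]⟩,⟨0,[(20,0)]⟩),(⟨0,[(31,0)]⟩,⟨0,[(32,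
  0)]⟩),⟨0,[(1,0),(17,0)]⟩,.k,.k,(.r (-1) ⟨7,[(3,3),(0,2),(8,1),(3,1),(1,1),(4,0),(11,3),(0,1)]⟩ ⟨3,
  [(2,1),(2,0),(0,1),(2,0),(8,0),(4,1),(4,0),(0,0)]⟩),(.r 0 ⟨15,[(0,5),(3,0),(1,8),(2,3),(7,4),(8,
  0),(6,0)]⟩ ⟨11,[(2,3),(1,4),(0,1),(4,1),(7,2),(1,1),(3,0),(3,1),(0,1),(6,6)]⟩),.k,.k,⟨false,0,⟨0,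
  [(0,0),(34,0)]⟩,⟨11,[(2,3),(1,4),(0,1),(4,1),(7,2),(1,1),(3,0),(3,1),(0,1),(6,6)]⟩⟩,⟨true,0,⟨1,
  [(19,0),(2,0),(2,0)]⟩,⟨0,[(20,0)]⟩⟩,⟨false,1,⟨3,[(17,0),(0,0),(18,1)]⟩,⟨0,[]⟩⟩,⟨false,1,⟨0,[(10,
  0)]⟩,⟨0,[(3,0),(31,0)]⟩⟩,⟨true,0,⟨0,[(35,0)]⟩,⟨1,[(4,0),(19,0)]⟩⟩,⟨false,1,⟨0,[(10,0),(24,0)]⟩,⟨0,
  [(3,0)]⟩⟩,[.o ⟨false,1,⟨11,[(4,3),(8,3),(3,2),(0,2),(11,3),(6,1)]⟩,⟨0,[(35,0)]⟩⟩,.o ⟨false,1,⟨2,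
  [(4,0),(8,0),(16,0),(6,1)]⟩,⟨0,[(35,0),(3,0)]⟩⟩,.a ⟨true,0,⟨0,[(20,0)]⟩,⟨1,[(19,0),(8,0),(0,0)]⟩⟩
  ⟨true,0,⟨0,[(0,0)]⟩,⟨0,[(2,0),(2,0),(17,1),(3,0),(0,0),(0,0)]⟩⟩ ⟨false,1,⟨17,[(4,3),(5,5),(2,3),
  (3,2),(1,5),(10,0),(6,7)]⟩,⟨0,[(20,0),(14,0)]⟩⟩,.o ⟨false,0,⟨2,[(11,0),(8,2),(1,0),(2,1)]⟩,⟨7,
  [(17,0),(0,0),(0,3),(10,1),(5,3)]⟩⟩]⟩)))) (.Q [0,0,0,-1,0,0,0,0,1,0,0,-1] (.p false [0,0,0,1] []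
  (⟨0,[(17,0)]⟩,⟨1,[(16,0),(8,0),(0,0)]⟩) .k 0 (⟨0,[]⟩,⟨0,[]⟩) .k .k) (.Q [0,0,0,0,0,1,0,0,0,0,0,
  -1] (.p false [0,0,0,1] [] (⟨0,[(18,0)]⟩,⟨1,[(17,0),(8,0),(0,0)]⟩) .k 0 (⟨0,[]⟩,⟨0,[]⟩) .k .k)
  (.Q [0,0,0,0,0,0,1,1,1,1,-1,-1] (.p false [0,0,1] [1,0,0,-1] (⟨0,[(28,0)]⟩,⟨0,[(27,0)]⟩) .k 2 (⟨1,
  [(18,0),(8,0),(0,0)]⟩,⟨0,[(19,0)]⟩) .k (.x (-1) ⟨3,[(16,0),(0,0),(6,3),(3,3),(6,1)]⟩ ⟨2,[(10,0),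
  (4,0),(11,2)]⟩)) (.R ⟨0,false,false,false,[0,0,0,1],[1,0,-1],[0,1,0,0,0,0,0,0,1],(⟨0,[(20,0)]⟩,⟨1,
  [(19,0),(8,0),(0,0)]⟩),(⟨0,[(28,0)]⟩,⟨0,[(29,0)]⟩),⟨0,[(1,0)]⟩,.k,.k,(.x 0 ⟨2,[(11,0),(10,0),(2,
  1),(5,2)]⟩ ⟨3,[(17,0),(0,0),(13,3),(3,1)]⟩),.k,.k,.k,⟨false,0,⟨0,[(0,0),(4,0),(14,0),(2,0),(3,
  0)]⟩,⟨1,[(17,0),(9,1),(9,0)]⟩⟩,⟨true,0,⟨2,[(11,0),(4,0),(3,2)]⟩,⟨1,[(19,0),(5,1),(2,0),(0,0)]⟩⟩,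
  ⟨true,0,⟨0,[(39,0)]⟩,⟨0,[]⟩⟩,⟨false,1,⟨5,[(5,1),(0,0),(6,1),(3,2),(2,5),(6,2),(2,0),(6,2)]⟩,⟨0,
  [(0,0)]⟩⟩,⟨false,0,⟨0,[]⟩,⟨0,[]⟩⟩,⟨false,0,⟨0,[]⟩,⟨0,[]⟩⟩,[.o ⟨false,0,⟨5,[(5,1),(0,0),(6,1),(13,
  2),(2,0)]⟩,⟨7,[(9,3),(7,0),(0,0),(6,7),(10,1)]⟩⟩,.o ⟨false,1,⟨0,[(21,0),(15,0)]⟩,⟨0,[(23,0)]⟩⟩,.a
  ⟨true,0,⟨1,[(19,0),(8,0),(0,0)]⟩,⟨0,[(20,0)]⟩⟩ ⟨false,0,⟨0,[(3,0),(16,0)]⟩,⟨1,[(17,0),(19,0)]⟩⟩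
  ⟨true,0,⟨5,[(5,1),(0,0),(6,1),(6,5),(6,2),(2,0)]⟩,⟨1,[(19,0),(3,1),(4,0),(0,0)]⟩⟩,.o ⟨false,0,⟨1,
  [(19,0),(2,0),(2,0)]⟩,⟨1,[(20,1),(9,0),(5,0)]⟩⟩]⟩) (.R ⟨0,false,false,false,[0,0,0,1],[1,0,-1],[],
  (⟨0,[(20,0)]⟩,⟨1,[(19,0),(8,0),(0,0)]⟩),(⟨0,[(28,0)]⟩,⟨0,[(29,0)]⟩),⟨0,[(1,0)]⟩,.k,.k,(.r (-1) ⟨5,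
  [(2,1),(1,0),(5,1),(7,0),(1,3),(3,0),(11,2)]⟩ ⟨1,[(0,1),(18,0),(3,1),(4,0),(0,0),(3,1),(1,1)]⟩),
  .k,.k,.k,⟨false,1,⟨7,[(9,3),(7,0),(0,0),(17,1)]⟩,⟨0,[(27,0)]⟩⟩,⟨true,0,⟨2,[(11,0),(4,0),(3,2)]⟩,
  ⟨1,[(19,0),(5,1),(2,0),(0,0)]⟩⟩,⟨false,1,⟨1,[(17,0),(19,0)]⟩,⟨0,[(3,0),(16,0)]⟩⟩,⟨true,0,⟨0,[(0,
  0)]⟩,⟨0,[(3,0),(19,0),(4,0),(0,0)]⟩⟩,⟨false,0,⟨0,[]⟩,⟨0,[]⟩⟩,⟨false,0,⟨0,[]⟩,⟨0,[]⟩⟩,[.o ⟨false,0,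
  ⟨5,[(5,1),(0,0),(6,1),(13,2),(2,0)]⟩,⟨7,[(9,3),(7,0),(0,0),(6,7),(10,1)]⟩⟩,.o ⟨false,1,⟨0,[(21,0),
  (15,0)]⟩,⟨0,[(23,0)]⟩⟩,.a ⟨true,0,⟨1,[(19,0),(8,0),(0,0)]⟩,⟨0,[(20,0)]⟩⟩ ⟨false,1,⟨3,[(17,0),(0,
  0),(18,1)]⟩,⟨0,[]⟩⟩ ⟨true,0,⟨9,[(0,1),(4,1),(0,0),(4,1),(1,1),(4,0),(1,7),(6,4)]⟩,⟨1,[(19,0),(3,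
  1),(4,0),(0,0)]⟩⟩,.o ⟨false,0,⟨1,[(19,0),(2,0),(2,0)]⟩,⟨1,[(20,1),(9,0),(5,0)]⟩⟩]⟩)) (.Q [0,0,0,2,
  0,0,-1,-1,-1,-1,1,1] (.p true [0,0,1] [1,0,0,-1] (⟨0,[(28,0)]⟩,⟨0,[(27,0)]⟩) .k 2 (⟨1,[(18,0),(8,
  0),(0,0)]⟩,⟨0,[(19,0)]⟩) .k (.x (-1) ⟨3,[(16,0),(0,0),(6,3),(3,3),(6,1)]⟩ ⟨2,[(10,0),(4,0),(11,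
  2)]⟩)) (.I [0,0,-1,-1,1,0,0,0,-1] (.R ⟨1,false,false,false,[1,0,0,-1],[1,-1],[0,1,0,0,0,0,0,0,-1],
  (⟨1,[(20,0),(8,0),(0,0)]⟩,⟨0,[(21,0)]⟩),(⟨0,[(32,0)]⟩,⟨0,[(33,0)]⟩),⟨0,[(2,0),(17,0)]⟩,.k,.k,(.r
  (-1) ⟨0,[(0,0)]⟩ ⟨2,[(3,0),(3,1),(2,0),(8,0),(1,0)]⟩),(.r 0 ⟨1,[(1,1),(3,0),(14,0),(3,0),(4,0),(0,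
  0),(3,1)]⟩ ⟨2,[(0,0),(2,1),(15,0),(1,1),(15,0)]⟩),.k,.k,⟨false,0,⟨1,[(1,1),(3,0),(14,0),(3,0),(4,
  0),(0,0)]⟩,⟨1,[(3,1),(17,1),(15,0),(0,0)]⟩⟩,⟨true,0,⟨1,[(20,0),(2,0),(2,0)]⟩,⟨0,[(21,0)]⟩⟩,⟨true,
  0,⟨0,[(40,0)]⟩,⟨0,[]⟩⟩,⟨true,0,⟨0,[(3,0)]⟩,⟨1,[(1,1),(3,0),(18,0),(4,1),(0,1)]⟩⟩,⟨false,0,⟨0,[(36,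
  0)]⟩,⟨1,[(5,0),(19,0),(12,1)]⟩⟩,⟨true,0,⟨0,[(4,0)]⟩,⟨0,[(1,0),(3,0),(23,0),(0,0)]⟩⟩,[.o ⟨false,1,
  ⟨11,[(5,3),(8,3),(3,2),(0,2),(11,3),(6,1)]⟩,⟨0,[(36,0)]⟩⟩,.o ⟨false,1,⟨2,[(5,0),(8,0),(16,0),(6,
  1)]⟩,⟨0,[(36,0),(3,0)]⟩⟩,.a ⟨true,0,⟨0,[(21,0)]⟩,⟨1,[(20,0),(8,0),(0,0)]⟩⟩ ⟨true,0,⟨1,[(1,1),(3,
  1),(14,0),(8,0),(0,0)]⟩,⟨0,[(4,0),(16,0)]⟩⟩ ⟨false,1,⟨17,[(5,3),(5,5),(2,3),(3,2),(1,5),(10,0),(6,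
  7)]⟩,⟨0,[(21,0),(14,0)]⟩⟩,.o ⟨false,0,⟨2,[(12,0),(8,2),(1,0),(2,1)]⟩,⟨7,[(18,0),(0,0),(0,3),(10,
  1),(5,3)]⟩⟩]⟩) (.R ⟨1,false,false,false,[1,0,0,-1],[1,-1],[0,1,0,0,0,0,0,0,-1],(⟨1,[(20,0),(8,0),
  (0,0)]⟩,⟨0,[(21,0)]⟩),(⟨0,[(32,0)]⟩,⟨0,[(33,0)]⟩),⟨0,[(2,0),(17,0)]⟩,.k,.k,(.x 0 ⟨2,[(12,0),(10,
  0),(2,1),(5,2)]⟩ ⟨3,[(18,0),(0,0),(13,3),(3,1)]⟩),(.r 0 ⟨0,[(0,0),(17,0)]⟩ ⟨5,[(3,1),(1,0),(5,1),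
  (7,0),(1,3),(3,0),(11,2)]⟩),.k,.k,⟨false,0,⟨1,[(1,1),(3,0),(14,0),(3,0),(4,0),(0,0)]⟩,⟨1,[(3,1),
  (17,1),(15,0),(0,0)]⟩⟩,⟨true,0,⟨1,[(20,0),(2,0),(2,0)]⟩,⟨0,[(21,0)]⟩⟩,⟨true,0,⟨0,[(40,0)]⟩,⟨0,
  []⟩⟩,⟨true,0,⟨0,[(3,0)]⟩,⟨1,[(1,1),(3,0),(18,0),(4,1),(0,1)]⟩⟩,⟨false,0,⟨0,[(36,0)]⟩,⟨1,[(5,0),
  (19,0),(12,1)]⟩⟩,⟨true,0,⟨0,[(4,0)]⟩,⟨0,[(1,0),(3,0),(23,0),(0,0)]⟩⟩,[.o ⟨false,1,⟨11,[(5,3),(8,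
  3),(3,2),(0,2),(11,3),(6,1)]⟩,⟨0,[(36,0)]⟩⟩,.o ⟨false,1,⟨2,[(5,0),(8,0),(16,0),(6,1)]⟩,⟨0,[(36,0),
  (3,0)]⟩⟩,.a ⟨true,0,⟨0,[(21,0)]⟩,⟨1,[(20,0),(8,0),(0,0)]⟩⟩ ⟨true,0,⟨1,[(1,1),(3,1),(14,0),(8,0),
  (0,0)]⟩,⟨5,[(0,1),(2,1),(15,0),(1,1),(15,0)]⟩⟩ ⟨false,1,⟨17,[(5,3),(5,5),(2,3),(3,2),(1,5),(10,0),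
  (6,7)]⟩,⟨0,[(21,0),(14,0)]⟩⟩,.o ⟨false,0,⟨2,[(12,0),(8,2),(1,0),(2,1)]⟩,⟨7,[(18,0),(0,0),(0,3),
  (10,1),(5,3)]⟩⟩]⟩)) (.R ⟨1,false,false,false,[0,0,0,1],[1,0,-1],[0,1,0,0,0,0,0,0,1],(⟨0,[(20,0)]⟩,
  ⟨1,[(19,0),(8,0),(0,0)]⟩),(⟨0,[(28,0)]⟩,⟨0,[(29,0)]⟩),⟨0,[(1,0)]⟩,.k,.k,(.x 0 ⟨2,[(11,0),(10,0),
  (2,1),(5,2)]⟩ ⟨3,[(17,0),(0,0),(13,3),(3,1)]⟩),.k,(.r (-1) ⟨29,[(0,7),(3,1),(0,3),(2,9),(2,1),(6,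
  10),(1,7),(15,7),(0,0)]⟩ ⟨1,[(6,0),(10,0),(9,0)]⟩),.k,⟨false,0,⟨0,[(0,0),(4,0),(0,0),(13,0),(2,0),
  (12,0)]⟩,⟨1,[(17,0),(9,1),(9,0)]⟩⟩,⟨true,0,⟨2,[(11,0),(4,0),(3,2)]⟩,⟨1,[(19,0),(5,1),(2,0),(0,
  0)]⟩⟩,⟨true,0,⟨0,[(39,0)]⟩,⟨0,[]⟩⟩,⟨false,1,⟨5,[(5,1),(0,0),(6,1),(3,2),(2,5),(6,2),(2,0),(6,2)]⟩,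
  ⟨0,[(0,0),(34,1)]⟩⟩,⟨false,0,⟨0,[(35,0)]⟩,⟨1,[(4,0),(19,0),(12,1)]⟩⟩,⟨false,1,⟨3,[(5,1),(0,1),(10,
  1),(2,3),(6,1),(2,0),(5,0),(0,1)]⟩,⟨0,[(0,0),(34,0)]⟩⟩,[.o ⟨false,0,⟨5,[(5,1),(0,0),(6,1),(13,2),
  (2,0)]⟩,⟨7,[(9,3),(7,0),(0,0),(6,7),(10,1)]⟩⟩,.o ⟨false,1,⟨0,[(21,0),(15,0)]⟩,⟨0,[(23,0)]⟩⟩,.a
  ⟨true,0,⟨1,[(19,0),(8,0),(0,0)]⟩,⟨0,[(20,0)]⟩⟩ ⟨false,0,⟨0,[(3,0),(16,0)]⟩,⟨1,[(17,0),(19,0)]⟩⟩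
  ⟨true,0,⟨5,[(5,1),(0,0),(6,1),(6,5),(6,2),(2,0)]⟩,⟨1,[(19,0),(3,1),(4,0),(0,0)]⟩⟩,.o ⟨false,0,⟨1,
  [(19,0),(2,0),(2,0)]⟩,⟨1,[(20,1),(9,0),(5,0)]⟩⟩]⟩))) (.R ⟨2,true,false,false,[0,1],[0,0,0,1],[1,1,
  1],(⟨0,[]⟩,⟨0,[]⟩),(⟨0,[(18,0)]⟩,⟨1,[(17,0),(8,0),(0,0)]⟩),⟨0,[]⟩,.k,.k,.k,(.r 0 ⟨19,[(0,7),(1,2),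
  (1,8),(2,2),(1,0),(5,5),(1,3),(2,1),(10,2)]⟩ ⟨3,[(1,0),(0,0),(5,0),(2,0),(4,0),(1,1),(7,0),(0,0),
  (6,1)]⟩),.k,.k,⟨false,0,⟨1,[(0,1),(1,0),(14,0),(1,0)]⟩,⟨1,[(1,1),(16,1),(15,0),(0,0)]⟩⟩,⟨true,0,
  ⟨1,[(17,0),(2,0),(2,0)]⟩,⟨0,[(18,0)]⟩⟩,⟨true,0,⟨1,[(2,0),(19,0)]⟩,⟨0,[(33,0)]⟩⟩,⟨false,1,⟨0,[(8,
  0)]⟩,⟨0,[(0,0)]⟩⟩,⟨false,0,⟨0,[]⟩,⟨3,[(15,0),(0,0),(18,1)]⟩⟩,⟨true,0,⟨0,[(1,0)]⟩,⟨1,[(0,1),(1,0),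
  (19,0)]⟩⟩,[]⟩))))) (.Q [0,0,1,0,0,0,2,0,0,1,-2] (.p false [0,0,1] [1,0,-1] (⟨0,[(23,0)]⟩,⟨0,[(22,
  0)]⟩) .k 2 (⟨0,[(22,0)]⟩,⟨0,[(23,0)]⟩) .k (.r (-1) ⟨1,[(3,1),(15,0),(0,0)]⟩ ⟨0,[(21,1)]⟩)) (.K ⟨2,
  [1,1,-1],0,0,(⟨0,[(23,0),(3,0)]⟩,⟨0,[(2,0)]⟩),.k,.k,(.x (-1) ⟨2,[(6,0),(4,0),(11,2),(3,5),(3,2)]⟩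
  ⟨2,[(2,2),(3,0),(10,0),(2,4),(5,2)]⟩),(.r 0 ⟨2,[(0,0),(16,0),(1,0),(2,4),(5,0),(1,2)]⟩ ⟨0,[(3,
  0)]⟩),.k,[⟨0,[(0,0)]⟩,⟨0,[(7,0)]⟩,⟨0,[(10,0),(12,0),(0,0)]⟩,⟨0,[(16,0),(13,0)]⟩]⟩) (.Q [0,0,0,-1,
  0,0,0,0,-1,-1,0,1] (.p true [0,0,0,1] [1] (⟨0,[(15,0)]⟩,⟨1,[(14,0),(8,0),(0,0)]⟩) .k 1 (⟨0,[]⟩,⟨0,
  []⟩) .k .k) (.Q [0,0,0,0,0,1,0,0,0,0,0,-1] (.p false [0,0,0,1] [] (⟨0,[(16,0)]⟩,⟨1,[(15,0),(8,0),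
  (0,0)]⟩) .k 0 (⟨0,[]⟩,⟨0,[]⟩) .k .k) (.Q [0,0,0,0,0,0,-1,-1,1,0,1,-1] (.p true [0,0,1] [0,0,0,1]
  (⟨0,[(26,0)]⟩,⟨0,[(25,0)]⟩) .k 2 (⟨0,[(17,0)]⟩,⟨1,[(16,0),(8,0),(0,0)]⟩) .k (.x (-1) ⟨3,[(14,0),
  (0,0),(6,3),(3,3),(6,1)]⟩ ⟨2,[(8,0),(4,0),(11,2)]⟩)) (.R ⟨0,false,false,false,[0,0,0,1],[0,1],[1,
  0,1,1],(⟨0,[(18,0)]⟩,⟨1,[(17,0),(8,0),(0,0)]⟩),(⟨0,[(30,0)]⟩,⟨0,[(29,0)]⟩),⟨0,[(1,0)]⟩,.k,.k,(.r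
  (-1) ⟨1,[(4,0),(11,0),(8,0)]⟩ ⟨1,[(2,1),(14,0),(5,0),(0,0),(1,0),(0,0),(5,3)]⟩),(.r (-1) ⟨1,[(4,
  0),(11,0),(8,0)]⟩ ⟨1,[(2,1),(14,0),(5,0),(0,0),(1,0),(0,0),(5,3)]⟩),.k,.k,⟨true,0,⟨0,[]⟩,⟨1,[(23,
  0),(0,0)]⟩⟩,⟨false,1,⟨0,[(18,0),(15,0)]⟩,⟨1,[(17,0),(2,0),(2,0)]⟩⟩,⟨false,0,⟨1,[(2,1),(14,0),(8,
  0),(0,0),(3,1),(1,3)]⟩,⟨1,[(4,0),(11,0),(8,0)]⟩⟩,⟨true,0,⟨0,[(2,0),(23,0),(0,0),(5,1)]⟩,⟨0,[(0,0),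
  (12,0)]⟩⟩,⟨false,0,⟨0,[]⟩,⟨0,[]⟩⟩,⟨false,0,⟨0,[]⟩,⟨0,[]⟩⟩,[.o ⟨false,0,⟨0,[(33,0)]⟩,⟨5,[(2,1),(5,
  1),(6,0),(0,0),(11,1),(3,1)]⟩⟩,.o ⟨false,1,⟨3,[(15,0),(0,0),(16,3),(1,1)]⟩,⟨3,[(9,0),(1,0),(1,2),
  (5,0),(5,0)]⟩⟩,.a ⟨true,0,⟨1,[(17,0),(8,0),(0,0)]⟩,⟨0,[(18,0)]⟩⟩ ⟨false,0,⟨0,[(31,0),(1,0)]⟩,⟨3,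
  [(4,1),(10,0),(0,0),(8,1)]⟩⟩ ⟨true,0,⟨0,[(18,0),(14,0)]⟩,⟨3,[(11,0),(1,1),(3,1),(1,0),(12,0)]⟩⟩,
  .o ⟨false,0,⟨1,[(17,0),(2,0),(2,0)]⟩,⟨1,[(18,1),(9,0),(5,0)]⟩⟩]⟩) (.R ⟨0,false,false,true,[0,0,0,
  1],[1,-1],[1,0,0,0,0,0,0,0,1],(⟨0,[(18,0)]⟩,⟨1,[(17,0),(8,0),(0,0)]⟩),(⟨0,[(29,0)]⟩,⟨0,[(30,0)]⟩),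
  ⟨0,[(1,0)]⟩,.k,.k,(.r (-1) ⟨1,[(4,0),(11,0),(8,0)]⟩ ⟨1,[(0,1),(16,0),(2,0),(1,0),(2,0),(5,0),(1,
  1)]⟩),(.x (-1) ⟨3,[(15,0),(0,0),(13,3),(3,1)]⟩ ⟨2,[(9,0),(10,0),(2,1),(5,2)]⟩),.k,.k,⟨false,1,⟨1,
  [(16,0),(16,1),(1,0)]⟩,⟨1,[(0,1),(2,1),(9,1),(3,0),(7,3),(0,0),(0,0)]⟩⟩,⟨true,0,⟨2,[(9,0),(8,2),
  (1,0),(2,1)]⟩,⟨1,[(17,0),(8,0),(0,0)]⟩⟩,⟨true,0,⟨0,[]⟩,⟨0,[(37,0)]⟩⟩,⟨false,0,⟨0,[(2,0)]⟩,⟨1,[(16,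
  0),(0,0),(8,0),(0,0),(5,1),(1,0)]⟩⟩,⟨false,0,⟨0,[]⟩,⟨0,[]⟩⟩,⟨false,0,⟨0,[]⟩,⟨0,[]⟩⟩,[.o ⟨false,0,
  ⟨3,[(9,0),(1,0),(1,2),(5,0),(5,0)]⟩,⟨3,[(15,0),(0,0),(16,3),(1,1)]⟩⟩,.o ⟨false,1,⟨5,[(2,1),(5,1),
  (6,0),(0,0),(11,1),(3,1)]⟩,⟨0,[(33,0)]⟩⟩,.a ⟨true,0,⟨1,[(17,0),(8,0),(0,0)]⟩,⟨0,[(18,0)]⟩⟩ ⟨false,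
  1,⟨1,[(16,0),(18,0)]⟩,⟨3,[(0,2),(1,0),(0,0),(13,1),(4,0),(2,1),(5,0),(1,0)]⟩⟩ ⟨true,0,⟨3,[(9,0),
  (1,0),(1,2),(4,3),(0,0),(5,0)]⟩,⟨1,[(17,0),(8,0),(0,0),(5,1)]⟩⟩,.o ⟨false,0,⟨1,[(17,0),(2,0),(2,
  0)]⟩,⟨1,[(18,1),(9,0),(5,0)]⟩⟩]⟩)) (.I [1,-1,0,-1,0,0,0,0,-1] (.R ⟨1,false,false,true,[0,0,0,1],
  [1,-1],[0,0,0,0,0,0,0,0,1],(⟨0,[(18,0)]⟩,⟨1,[(17,0),(8,0),(0,0)]⟩),(⟨0,[(29,0)]⟩,⟨0,[(30,0)]⟩),⟨0,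
  [(1,0)]⟩,.k,.k,(.r (-1) ⟨1,[(4,0),(11,0),(8,0)]⟩ ⟨1,[(0,1),(22,0),(0,0),(8,3),(3,1)]⟩),(.x (-1)
  ⟨3,[(15,0),(0,0),(13,3),(3,1)]⟩ ⟨2,[(9,0),(10,0),(2,1),(5,2)]⟩),.k,.k,⟨false,1,⟨1,[(16,0),(16,1),
  (1,0)]⟩,⟨0,[(0,0),(2,0),(17,1),(3,1),(0,0),(0,0)]⟩⟩,⟨true,0,⟨2,[(9,0),(8,2),(1,0),(2,1)]⟩,⟨1,[(17,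
  0),(8,0),(0,0)]⟩⟩,⟨false,1,⟨3,[(15,0),(0,0),(18,1)]⟩,⟨0,[]⟩⟩,⟨false,0,⟨0,[(2,0)]⟩,⟨1,[(16,0),(0,
  0),(8,0),(0,0),(5,1),(1,0)]⟩⟩,⟨true,0,⟨0,[(33,0)]⟩,⟨0,[(32,0)]⟩⟩,⟨false,0,⟨0,[(2,0),(30,0)]⟩,⟨1,
  [(16,0),(0,0),(8,0),(0,0),(7,0)]⟩⟩,[.o ⟨false,0,⟨3,[(9,0),(1,0),(1,2),(5,0),(5,0)]⟩,⟨3,[(15,0),(0,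
  0),(16,3),(1,1)]⟩⟩,.o ⟨false,1,⟨5,[(2,1),(5,1),(6,0),(0,0),(11,1),(3,1)]⟩,⟨0,[(33,0)]⟩⟩,.a ⟨true,
  0,⟨1,[(17,0),(8,0),(0,0)]⟩,⟨0,[(18,0)]⟩⟩ ⟨false,1,⟨1,[(16,0),(18,0)]⟩,⟨0,[(0,0),(32,0),(3,0)]⟩⟩
  ⟨true,0,⟨3,[(9,0),(1,0),(1,2),(4,3),(0,0),(5,0)]⟩,⟨1,[(17,0),(8,0),(0,0),(5,1)]⟩⟩,.o ⟨false,0,⟨1,
  [(17,0),(2,0),(2,0)]⟩,⟨1,[(18,1),(9,0),(5,0)]⟩⟩]⟩) (.R ⟨1,false,false,false,[1,0,0,-1],[1,-1],[1,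
  0,0,-1,0,0,0,0,-1],(⟨1,[(17,0),(8,0),(0,0)]⟩,⟨0,[(18,0)]⟩),(⟨0,[(29,0)]⟩,⟨0,[(30,0)]⟩),⟨0,[(1,0),
  (15,0)]⟩,.k,.k,(.r (-1) ⟨1,[(4,0),(10,0),(9,0)]⟩ ⟨0,[(0,0),(30,0)]⟩),(.r 0 ⟨1,[(2,1),(14,0),(5,0),
  (0,0),(1,0),(0,0),(5,3)]⟩ ⟨1,[(4,0),(11,0),(8,0)]⟩),.k,.k,⟨false,0,⟨1,[(2,1),(14,0),(8,0),(0,0),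
  (5,1)]⟩,⟨1,[(16,0),(17,0)]⟩⟩,⟨true,0,⟨1,[(17,0),(2,0),(2,0)]⟩,⟨0,[(18,0)]⟩⟩,⟨false,1,⟨0,[(32,0),
  (2,0)]⟩,⟨0,[(33,0)]⟩⟩,⟨false,1,⟨0,[(8,0)]⟩,⟨0,[(2,0),(23,0),(0,0),(5,1)]⟩⟩,⟨true,0,⟨0,[]⟩,⟨0,[(37,
  0)]⟩⟩,⟨false,1,⟨0,[(8,0),(24,0)]⟩,⟨0,[(2,0),(23,0),(0,0),(5,0)]⟩⟩,[.o ⟨false,1,⟨5,[(2,1),(5,1),(6,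
  0),(0,0),(11,1),(3,1)]⟩,⟨0,[(33,0)]⟩⟩,.o ⟨false,1,⟨3,[(2,1),(5,1),(19,0),(6,0)]⟩,⟨0,[(33,0),(3,
  0)]⟩⟩,.a ⟨true,0,⟨0,[(18,0)]⟩,⟨1,[(17,0),(8,0),(0,0)]⟩⟩ ⟨true,0,⟨1,[(2,1),(14,0),(8,0),(0,0)]⟩,⟨0,
  [(0,0)]⟩⟩ ⟨false,1,⟨5,[(2,1),(5,3),(6,0),(1,1),(17,0)]⟩,⟨0,[(18,0),(14,0)]⟩⟩,.o ⟨false,0,⟨2,[(9,
  0),(8,2),(1,0),(2,1)]⟩,⟨7,[(15,0),(0,0),(0,3),(10,1),(5,3)]⟩⟩]⟩))) (.I [0,1,-1,0,0,0,0,0,1] (.Q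
  [0,-1,0,1,0,0,-1,-1,1,0,1,-1] (.p true [0,0,1] [0,0,0,1] (⟨0,[(26,0)]⟩,⟨0,[(25,0)]⟩) .k 2 (⟨0,
  [(17,0)]⟩,⟨1,[(16,0),(8,0),(0,0)]⟩) .k (.r (-1) ⟨3,[(6,1),(7,1),(7,0),(0,0)]⟩ ⟨0,[(0,0),(23,0),(5,
  0)]⟩)) (.Q [0,0,0,0,0,1,0,0,0,0,0,-1] (.p false [0,0,0,1] [] (⟨0,[(18,0)]⟩,⟨1,[(17,0),(8,0),(0,
  0)]⟩) .k 0 (⟨0,[]⟩,⟨0,[]⟩) .k .k) (.I [1,1,0,1,0,0,0,0,-1] (.R ⟨0,false,false,true,[0,0,0,1],[0,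
  -1,1],[0,1,0,0,0,0,0,0,1],(⟨0,[(20,0)]⟩,⟨1,[(19,0),(8,0),(0,0)]⟩),(⟨0,[(7,0)]⟩,⟨0,[(28,0),(3,
  0)]⟩),⟨0,[(1,0)]⟩,.k,.k,(.x 0 ⟨2,[(11,0),(10,0),(2,1),(5,2)]⟩ ⟨3,[(17,0),(0,0),(13,3),(3,1)]⟩),
  (.x (-1) ⟨3,[(5,1),(11,0),(0,0),(9,3),(1,0),(1,3),(3,0)]⟩ ⟨0,[(7,0),(17,0)]⟩),.k,.k,⟨false,0,⟨1,
  [(2,0),(0,0),(16,0),(4,0),(1,0),(7,0)]⟩,⟨0,[(0,0),(5,0),(26,0)]⟩⟩,⟨true,0,⟨0,[(20,0),(4,0)]⟩,⟨1,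
  [(16,0),(2,0)]⟩⟩,⟨true,0,⟨0,[(39,0)]⟩,⟨0,[]⟩⟩,⟨false,1,⟨1,[(15,1),(1,0),(2,1),(16,0)]⟩,⟨0,[(2,
  0)]⟩⟩,⟨false,0,⟨0,[]⟩,⟨0,[]⟩⟩,⟨false,0,⟨0,[]⟩,⟨0,[]⟩⟩,[.o ⟨false,0,⟨0,[(15,0)]⟩,⟨1,[(2,1),(14,0),
  (2,1),(9,0)]⟩⟩,.o ⟨false,1,⟨3,[(15,3),(1,0),(0,0),(18,1)]⟩,⟨1,[(0,0),(1,0),(8,0),(8,0),(6,0)]⟩⟩,
  .a ⟨true,0,⟨1,[(19,0),(8,0),(0,0)]⟩,⟨0,[(20,0)]⟩⟩ ⟨false,0,⟨0,[(3,0),(29,0)]⟩,⟨1,[(17,0),(19,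
  0)]⟩⟩ ⟨true,0,⟨0,[(15,0),(4,0)]⟩,⟨8,[(0,4),(1,4),(2,0),(7,0),(5,1),(4,0),(2,1),(5,0)]⟩⟩,.o ⟨false,
  0,⟨1,[(19,0),(2,0),(2,0)]⟩,⟨1,[(20,1),(9,0),(5,0)]⟩⟩]⟩) (.R ⟨0,false,false,false,[0,0,0,1],[1,0,
  -1],[0,1,0,0,0,0,0,0,1],(⟨0,[(20,0)]⟩,⟨1,[(19,0),(8,0),(0,0)]⟩),(⟨0,[(28,0)]⟩,⟨0,[(29,0)]⟩),⟨0,
  [(1,0)]⟩,.k,.k,(.x 0 ⟨2,[(11,0),(10,0),(2,1),(5,2)]⟩ ⟨3,[(17,0),(0,0),(13,3),(3,1)]⟩),.k,.k,.k,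
  ⟨false,0,⟨1,[(0,0),(2,0),(1,0),(17,1),(4,0),(0,0),(5,0)]⟩,⟨1,[(17,0),(9,1),(9,0)]⟩⟩,⟨true,0,⟨2,
  [(11,0),(4,0),(3,2)]⟩,⟨1,[(19,0),(5,1),(2,0),(0,0)]⟩⟩,⟨true,0,⟨0,[(39,0)]⟩,⟨0,[]⟩⟩,⟨false,1,⟨2,
  [(2,0),(8,0),(1,0),(3,1),(2,3),(6,0),(9,0)]⟩,⟨1,[(0,1),(18,0),(3,1),(4,0),(0,0),(5,1)]⟩⟩,⟨false,0,
  ⟨0,[]⟩,⟨0,[]⟩⟩,⟨false,0,⟨0,[]⟩,⟨0,[]⟩⟩,[.o ⟨false,0,⟨2,[(11,0),(4,0),(10,2)]⟩,⟨7,[(9,3),(7,0),(0,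
  0),(6,7),(10,1)]⟩⟩,.o ⟨false,1,⟨0,[(21,0),(15,0)]⟩,⟨0,[(23,0)]⟩⟩,.a ⟨true,0,⟨1,[(19,0),(8,0),(0,
  0)]⟩,⟨0,[(20,0)]⟩⟩ ⟨false,0,⟨8,[(0,2),(2,2),(0,2),(6,0),(8,2),(1,0),(2,1)]⟩,⟨1,[(17,0),(19,0)]⟩⟩
  ⟨true,0,⟨2,[(11,0),(4,0),(3,2),(6,2)]⟩,⟨1,[(19,0),(3,1),(4,0),(0,0)]⟩⟩,.o ⟨false,0,⟨1,[(19,0),(2,
  0),(2,0)]⟩,⟨1,[(20,1),(9,0),(5,0)]⟩⟩]⟩)) (.Q [0,0,0,-1,0,0,0,0,1,0,0,-1] (.p false [0,0,0,1] []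
  (⟨0,[(19,0)]⟩,⟨1,[(18,0),(8,0),(0,0)]⟩) .k 0 (⟨0,[]⟩,⟨0,[]⟩) .k .k) (.R ⟨1,false,false,true,[1,0,
  0,-1],[1,-1],[1,0,0,-1,0,0,0,0,-1],(⟨1,[(19,0),(8,0),(0,0)]⟩,⟨0,[(20,0)]⟩),(⟨0,[(31,0)]⟩,⟨0,[(32,
  0)]⟩),⟨0,[(1,0),(17,0)]⟩,.k,.k,(.r (-1) ⟨1,[(6,0),(10,0),(9,0)]⟩ ⟨2,[(4,2),(6,0),(8,2),(1,0),(2,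
  1)]⟩),(.x (-1) ⟨3,[(17,0),(0,0),(13,3),(3,1)]⟩ ⟨2,[(11,0),(10,0),(2,1),(5,2)]⟩),.k,.k,⟨false,1,⟨1,
  [(17,0),(19,0)]⟩,⟨0,[(3,0)]⟩⟩,⟨true,0,⟨1,[(19,0),(2,0),(2,0)]⟩,⟨0,[(20,0)]⟩⟩,⟨false,1,⟨0,[(34,0),
  (2,0)]⟩,⟨0,[(35,0)]⟩⟩,⟨false,0,⟨0,[(0,0)]⟩,⟨1,[(17,0),(2,1),(14,1),(1,0)]⟩⟩,⟨true,0,⟨0,[]⟩,⟨0,
  [(39,0)]⟩⟩,⟨false,0,⟨1,[(0,0),(1,0),(20,0)]⟩,⟨1,[(17,0),(2,1),(16,0)]⟩⟩,[.o ⟨false,0,⟨3,[(11,0),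
  (1,0),(1,2),(5,0),(5,0)]⟩,⟨3,[(17,0),(0,0),(16,3),(1,1)]⟩⟩,.o ⟨false,1,⟨1,[(30,0),(3,1),(2,0)]⟩,
  ⟨0,[(35,0)]⟩⟩,.a ⟨true,0,⟨0,[(20,0)]⟩,⟨1,[(19,0),(8,0),(0,0)]⟩⟩ ⟨false,1,⟨1,[(6,0),(10,0),(9,0),
  (5,1)]⟩,⟨0,[(2,0),(17,0),(2,0)]⟩⟩ ⟨true,0,⟨3,[(13,0),(1,1),(3,1),(1,0),(12,0)]⟩,⟨0,[(20,0),(14,
  0)]⟩⟩,.o ⟨false,0,⟨2,[(11,0),(8,2),(1,0),(2,1)]⟩,⟨7,[(17,0),(0,0),(0,3),(10,1),(5,3)]⟩⟩]⟩) (.R ⟨2,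
  true,false,false,[0,1],[0,0,0,1],[0,1,1,1],(⟨0,[]⟩,⟨0,[]⟩),(⟨0,[(20,0)]⟩,⟨1,[(19,0),(8,0),(0,
  0)]⟩),⟨0,[]⟩,.k,.k,.k,(.r 0 ⟨1,[(0,1),(18,0),(2,0),(2,0)]⟩ ⟨1,[(6,0),(11,0),(8,0)]⟩),.k,.k,⟨false,
  0,⟨1,[(0,1),(18,0),(1,0),(1,0)]⟩,⟨1,[(3,1),(2,0),(20,0),(5,1),(3,0)]⟩⟩,⟨true,0,⟨1,[(19,0),(2,0),
  (2,0)]⟩,⟨0,[(20,0)]⟩⟩,⟨true,0,⟨0,[(39,0)]⟩,⟨0,[]⟩⟩,⟨false,1,⟨0,[(10,0)]⟩,⟨0,[(0,0)]⟩⟩,⟨false,0,⟨0,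
  [(35,0)]⟩,⟨0,[(34,0),(2,0)]⟩⟩,⟨true,0,⟨0,[(2,0),(12,0)]⟩,⟨0,[(0,0),(33,0)]⟩⟩,[]⟩))) (.Q [0,0,0,0,
  0,1,0,0,0,0,0,-1] (.p false [0,0,0,1] [] (⟨0,[(18,0)]⟩,⟨1,[(17,0),(8,0),(0,0)]⟩) .k 0 (⟨0,[]⟩,⟨0,
  []⟩) .k .k) (.R ⟨0,false,false,false,[0,0,0,1],[1,-1],[1,0,0,0,0,0,0,0,1],(⟨0,[(19,0)]⟩,⟨1,[(18,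
  0),(8,0),(0,0)]⟩),(⟨0,[(30,0)]⟩,⟨0,[(31,0)]⟩),⟨0,[(0,0)]⟩,.k,.k,(.r (-1) ⟨1,[(5,0),(11,0),(8,0)]⟩
  ⟨1,[(1,1),(13,0),(2,0),(7,1),(5,1),(1,3)]⟩),(.r 0 ⟨2,[(3,2),(6,0),(8,2),(1,0),(2,1)]⟩ ⟨1,[(5,0),
  (10,0),(9,0)]⟩),.k,.k,⟨false,0,⟨0,[(2,0),(29,0),(1,0)]⟩,⟨1,[(5,0),(10,0),(9,0)]⟩⟩,⟨true,0,⟨2,[(10,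
  0),(8,2),(1,0),(2,1)]⟩,⟨1,[(18,0),(8,0),(0,0)]⟩⟩,⟨true,0,⟨0,[]⟩,⟨0,[(38,0)]⟩⟩,⟨false,1,⟨5,[(1,3),
  (8,1),(1,1),(3,0),(2,1),(6,1),(9,4)]⟩,⟨0,[(3,0)]⟩⟩,⟨false,0,⟨0,[]⟩,⟨0,[]⟩⟩,⟨false,0,⟨0,[]⟩,⟨0,
  []⟩⟩,[.o ⟨false,1,⟨5,[(1,1),(7,1),(2,1),(3,0),(0,0),(11,1)]⟩,⟨0,[(34,0)]⟩⟩,.o ⟨false,1,⟨3,[(12,1),
  (1,1),(14,0),(6,2)]⟩,⟨0,[(34,0),(3,0)]⟩⟩,.a ⟨true,0,⟨1,[(18,0),(8,0),(0,0)]⟩,⟨0,[(19,0)]⟩⟩ ⟨true,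
  0,⟨0,[(2,0),(29,0)]⟩,⟨1,[(1,1),(13,0),(2,0),(7,1),(7,1)]⟩⟩ ⟨false,1,⟨3,[(12,1),(1,1),(4,3),(9,0),
  (6,2)]⟩,⟨1,[(18,0),(8,0),(0,0),(5,1)]⟩⟩,.o ⟨false,0,⟨1,[(18,0),(2,0),(2,0)]⟩,⟨1,[(19,1),(9,0),(5,
  0)]⟩⟩]⟩) (.R ⟨1,false,false,false,[0,0,0,1],[1,-1],[0,0,0,0,0,0,0,0,1],(⟨0,[(19,0)]⟩,⟨1,[(18,0),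
  (8,0),(0,0)]⟩),(⟨0,[(30,0)]⟩,⟨0,[(31,0)]⟩),⟨0,[(0,0)]⟩,.k,.k,(.r (-1) ⟨1,[(5,0),(11,0),(8,0)]⟩ ⟨1,
  [(1,1),(13,0),(2,0),(7,1),(5,1),(1,3)]⟩),(.r 0 ⟨2,[(3,2),(6,0),(8,2),(1,0),(2,1)]⟩ ⟨1,[(5,0),(10,
  0),(9,0)]⟩),.k,.k,⟨false,0,⟨0,[(2,0),(29,0),(1,0)]⟩,⟨1,[(5,0),(10,0),(9,0)]⟩⟩,⟨true,0,⟨2,[(10,0),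
  (8,2),(1,0),(2,1)]⟩,⟨1,[(18,0),(8,0),(0,0)]⟩⟩,⟨false,1,⟨3,[(16,0),(0,0),(18,1)]⟩,⟨0,[]⟩⟩,⟨false,1,
  ⟨5,[(1,3),(8,1),(1,1),(3,0),(2,1),(6,1),(9,4)]⟩,⟨0,[(3,0)]⟩⟩,⟨true,0,⟨0,[(34,0)]⟩,⟨0,[(33,0)]⟩⟩,
  ⟨false,1,⟨3,[(1,1),(8,1),(5,0),(2,1),(6,1),(7,1),(1,2)]⟩,⟨1,[(2,1),(15,0),(8,0),(0,0),(3,1)]⟩⟩,
  [.o ⟨false,1,⟨5,[(1,1),(7,1),(2,1),(3,0),(0,0),(11,1)]⟩,⟨0,[(34,0)]⟩⟩,.o ⟨false,1,⟨3,[(12,1),(1,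
  1),(14,0),(6,2)]⟩,⟨0,[(34,0),(3,0)]⟩⟩,.a ⟨true,0,⟨1,[(18,0),(8,0),(0,0)]⟩,⟨0,[(19,0)]⟩⟩ ⟨true,0,
  ⟨0,[(2,0),(29,0)]⟩,⟨1,[(1,1),(13,0),(2,0),(7,1),(7,1)]⟩⟩ ⟨false,1,⟨3,[(12,1),(1,1),(4,3),(9,0),(6,
  2)]⟩,⟨1,[(18,0),(8,0),(0,0),(5,1)]⟩⟩,.o ⟨false,0,⟨1,[(18,0),(2,0),(2,0)]⟩,⟨1,[(19,1),(9,0),(5,
  0)]⟩⟩]⟩))) (.Q [0,0,0,0,0,1,0,0,0,0,0,-1] (.p false [0,0,0,1] [] (⟨0,[(17,0)]⟩,⟨1,[(16,0),(8,0),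
  (0,0)]⟩) .k 0 (⟨0,[]⟩,⟨0,[]⟩) .k .k) (.R ⟨0,false,false,true,[0,0,0,1],[1,-1],[1,0,1],(⟨0,[(18,
  0)]⟩,⟨1,[(17,0),(8,0),(0,0)]⟩),(⟨0,[(29,0)]⟩,⟨0,[(30,0)]⟩),⟨0,[(0,0)]⟩,.k,.k,(.r (-1) ⟨1,[(4,0),
  (11,0),(8,0)]⟩ ⟨0,[(1,0),(31,0),(3,0)]⟩),(.r 0 ⟨2,[(2,2),(6,0),(8,2),(1,0),(2,1)]⟩ ⟨1,[(4,0),(10,
  0),(9,0)]⟩),.k,.k,⟨false,0,⟨0,[(31,0),(1,0)]⟩,⟨0,[(32,0),(1,0)]⟩⟩,⟨true,0,⟨2,[(9,0),(8,2),(1,0),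
  (2,1)]⟩,⟨1,[(17,0),(8,0),(0,0)]⟩⟩,⟨false,0,⟨0,[(1,0)]⟩,⟨1,[(16,0),(17,0)]⟩⟩,⟨true,0,⟨0,[(1,0),(1,
  0),(9,0),(4,0),(2,0),(3,1)]⟩,⟨0,[(2,0)]⟩⟩,⟨false,0,⟨0,[]⟩,⟨0,[]⟩⟩,⟨false,0,⟨0,[]⟩,⟨0,[]⟩⟩,[.o
  ⟨false,0,⟨3,[(9,0),(1,0),(1,2),(5,0),(5,0)]⟩,⟨3,[(15,0),(0,0),(16,3),(1,1)]⟩⟩,.o ⟨false,1,⟨1,[(28,
  0),(3,1),(2,0)]⟩,⟨0,[(33,0)]⟩⟩,.a ⟨true,0,⟨1,[(17,0),(8,0),(0,0)]⟩,⟨0,[(18,0)]⟩⟩ ⟨false,0,⟨0,[(31,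
  0)]⟩,⟨3,[(15,0),(0,0),(17,1)]⟩⟩ ⟨true,0,⟨3,[(9,0),(1,0),(1,2),(4,3),(0,0),(5,0)]⟩,⟨1,[(17,0),(8,
  0),(0,0),(5,1)]⟩⟩,.o ⟨false,0,⟨1,[(17,0),(2,0),(2,0)]⟩,⟨1,[(18,1),(9,0),(5,0)]⟩⟩]⟩) (.I [1,0,0,0,
  0,0,0,0,-1] (.R ⟨1,false,false,true,[0,0,0,1],[1,0,-1],[0,1,0,0,0,0,0,0,1],(⟨0,[(19,0)]⟩,⟨1,[(18,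
  0),(8,0),(0,0)]⟩),(⟨0,[(27,0)]⟩,⟨0,[(28,0)]⟩),⟨0,[(1,0)]⟩,.k,.k,(.r (-1) ⟨1,[(5,0),(11,0),(8,0)]⟩
  ⟨0,[(2,0),(31,0),(3,0)]⟩),.k,(.r (-1) ⟨5,[(3,1),(1,2),(1,0),(2,0),(3,0),(2,1),(1,1),(12,0)]⟩ ⟨1,
  [(0,0),(1,0),(20,0),(0,0),(1,0),(7,1)]⟩),.k,⟨false,1,⟨7,[(3,3),(1,1),(2,1),(1,1),(6,1),(1,3),(2,
  1),(12,0),(0,0)]⟩,⟨0,[(0,0),(25,0)]⟩⟩,⟨true,0,⟨2,[(10,0),(4,0),(3,2)]⟩,⟨1,[(18,0),(5,1),(2,0),(0,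
  0)]⟩⟩,⟨true,0,⟨0,[(38,0)]⟩,⟨0,[]⟩⟩,⟨false,0,⟨3,[(0,2),(1,0),(1,0),(5,0),(8,3),(0,0),(5,2)]⟩,⟨0,
  [(3,0),(10,0),(21,0)]⟩⟩,⟨false,0,⟨0,[(34,0)]⟩,⟨0,[(33,0),(2,0)]⟩⟩,⟨false,0,⟨3,[(0,2),(1,0),(1,0),
  (5,0),(8,3),(0,0),(5,2),(7,3)]⟩,⟨0,[(3,0),(1,0),(18,0),(7,0)]⟩⟩,[.o ⟨false,0,⟨0,[(20,0)]⟩,⟨0,[(22,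
  0),(13,0)]⟩⟩,.o ⟨false,0,⟨2,[(10,0),(4,0),(10,2)]⟩,⟨7,[(8,3),(7,0),(0,0),(6,7),(10,1)]⟩⟩,.a ⟨true,
  0,⟨1,[(18,0),(8,0),(0,0)]⟩,⟨0,[(19,0)]⟩⟩ ⟨true,0,⟨3,[(3,3),(6,0),(1,0),(1,2),(4,3),(0,0),(5,0)]⟩,
  ⟨0,[(0,0)]⟩⟩ ⟨false,0,⟨2,[(10,0),(4,0),(3,2),(6,2)]⟩,⟨1,[(18,0),(3,1),(4,0),(0,0),(7,1)]⟩⟩,.o
  ⟨false,0,⟨1,[(18,0),(2,0),(2,0)]⟩,⟨1,[(19,1),(9,0),(5,0)]⟩⟩]⟩) (.R ⟨1,false,false,false,[0,0,0,1],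
  [1,-1],[0,0,0,0,0,0,0,0,1],(⟨0,[(19,0)]⟩,⟨1,[(18,0),(8,0),(0,0)]⟩),(⟨0,[(30,0)]⟩,⟨0,[(31,0)]⟩),⟨0,
  [(1,0)]⟩,.k,.k,(.r (-1) ⟨1,[(5,0),(11,0),(8,0)]⟩ ⟨0,[(2,0),(31,0),(3,0)]⟩),(.r 0 ⟨1,[(0,0),(2,0),
  (15,0),(1,0),(2,0),(9,0)]⟩ ⟨1,[(5,0),(10,0),(9,0)]⟩),.k,.k,⟨false,0,⟨0,[(0,0),(33,0)]⟩,⟨1,[(5,0),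
  (10,0),(9,0)]⟩⟩,⟨true,0,⟨2,[(10,0),(8,2),(1,0),(2,1)]⟩,⟨1,[(18,0),(8,0),(0,0)]⟩⟩,⟨false,1,⟨3,[(16,
  0),(0,0),(18,1)]⟩,⟨0,[]⟩⟩,⟨false,1,⟨1,[(2,1),(2,0),(13,1),(6,0),(2,0)]⟩,⟨0,[(3,0)]⟩⟩,⟨true,0,⟨0,
  [(34,0)]⟩,⟨0,[(33,0)]⟩⟩,⟨false,1,⟨1,[(2,1),(16,1),(9,0),(5,0)]⟩,⟨1,[(0,1),(17,0),(8,0),(0,0)]⟩⟩,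
  [.o ⟨false,1,⟨1,[(29,0),(3,1),(2,0)]⟩,⟨0,[(34,0)]⟩⟩,.o ⟨false,1,⟨3,[(12,1),(1,1),(14,0),(6,2)]⟩,
  ⟨0,[(34,0),(3,0)]⟩⟩,.a ⟨true,0,⟨1,[(18,0),(8,0),(0,0)]⟩,⟨0,[(19,0)]⟩⟩ ⟨true,0,⟨0,[(0,0)]⟩,⟨0,[(2,
  0),(1,0),(17,1),(3,1),(0,0),(0,0)]⟩⟩ ⟨false,1,⟨3,[(12,1),(1,1),(4,3),(9,0),(6,2)]⟩,⟨1,[(18,0),(8,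
  0),(0,0),(5,1)]⟩⟩,.o ⟨false,0,⟨1,[(18,0),(2,0),(2,0)]⟩,⟨1,[(19,1),(9,0),(5,0)]⟩⟩]⟩)))))))) (.Q [0,
  0,0,0,0,1,0,0,0,0,-1] (.ed true [1,-1,1] .k) (.Q [0,-1,0,1,0,0,-1,-1,0,1,1] (.p true [1,-1,1] []
  (⟨0,[(22,0),(1,0)]⟩,⟨0,[(0,0)]⟩) .k 0 (⟨0,[]⟩,⟨0,[]⟩) .k .k) (.K ⟨1,[0,1,-1],0,0,(⟨0,[(1,0)]⟩,⟨0,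
  [(23,0),(1,0)]⟩),.k,.k,(.r 1 ⟨1,[(0,0),(1,1),(7,0),(6,2),(9,1),(1,0)]⟩ ⟨3,[(3,1),(3,1),(1,1),(12,
  1),(0,1),(4,3),(1,2),(0,2)]⟩),.k,.k,[⟨1,[(19,2),(0,0)]⟩,⟨1,[(10,0),(11,0),(0,0)]⟩,⟨0,[(9,0)]⟩,⟨0,
  [(0,0)]⟩]⟩) (.K ⟨2,[0,1,-1],0,0,(⟨0,[(1,0)]⟩,⟨0,[(23,0),(1,0)]⟩),.k,.k,(.r 1 ⟨1,[(2,1),(7,0),(6,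
  1),(4,0),(0,0),(3,1),(1,1)]⟩ ⟨3,[(3,1),(3,1),(1,1),(12,1),(0,1),(4,3),(1,2),(0,2)]⟩),(.x (-1) ⟨3,
  [(1,3),(8,3),(0,0),(0,0),(9,3),(7,1)]⟩ ⟨0,[(0,0),(1,0),(14,0),(5,1),(1,0),(5,0)]⟩),.k,[⟨0,[(2,0),
  (6,0),(7,0),(13,0)]⟩,⟨1,[(10,0),(11,0),(0,0)]⟩,⟨0,[(9,0)]⟩,⟨0,[(18,0),(10,0)]⟩]⟩)) (.K ⟨2,[1,1,
  -1],0,0,(⟨0,[(21,0),(3,0)]⟩,⟨0,[(0,0)]⟩),.k,.k,(.r 1 ⟨1,[(1,1),(7,0),(6,1),(4,0),(0,0),(3,1),(1,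
  1)]⟩ ⟨3,[(2,1),(3,1),(1,1),(12,1),(0,1),(4,3),(1,2),(0,2)]⟩),(.x (-1) ⟨1,[(9,1),(11,3),(1,0),(1,
  1),(3,0)]⟩ ⟨0,[(0,0),(0,0),(6,0),(7,0),(5,0),(7,0)]⟩),.k,[⟨0,[(1,0),(6,0),(7,0),(4,0),(0,0),(7,
  0)]⟩,⟨0,[(5,0)]⟩,⟨0,[(8,0),(12,0),(0,0)]⟩,⟨0,[(14,0),(13,0)]⟩]⟩))) (.Q [0,0,0,0,0,1,0,0,0,0,-1]
  (.ed true [1,-1,1] .k) (.K ⟨2,[0,1,-1],0,0,(⟨0,[(0,0)]⟩,⟨0,[(21,0),(1,0)]⟩),.k,.k,(.r 1 ⟨1,[(1,1),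
  (6,0),(6,1),(4,0),(0,0),(3,1),(1,3)]⟩ ⟨1,[(7,1),(0,0),(11,0),(0,0),(4,1),(1,1),(0,1)]⟩),(.r 1 ⟨0,
  [(1,0),(25,0)]⟩ ⟨1,[(7,1),(0,0),(6,1),(2,1),(1,0),(0,0),(6,1),(0,1)]⟩),.k,[⟨0,[(1,0),(13,1),(13,
  0)]⟩,⟨1,[(8,0),(11,0),(0,0)]⟩,⟨0,[(7,0)]⟩,⟨0,[(16,0),(10,0)]⟩]⟩) (.K ⟨2,[1,1,-1],0,0,(⟨0,[(20,0),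
  (3,0)]⟩,⟨0,[(0,0)]⟩),.k,.k,(.r 1 ⟨1,[(1,1),(6,0),(6,1),(4,0),(0,0),(3,1),(1,3)]⟩ ⟨1,[(7,1),(0,0),
  (11,0),(0,0),(4,1),(1,1),(0,1)]⟩),(.r 1 ⟨0,[(1,0),(25,0)]⟩ ⟨1,[(7,1),(0,0),(6,1),(2,1),(1,0),(0,
  0),(6,1),(0,1)]⟩),.k,[⟨0,[(1,0),(13,1),(4,0),(0,0),(7,0)]⟩,⟨0,[(4,0)]⟩,⟨0,[(7,0),(12,0),(0,0)]⟩,
  ⟨0,[(13,0),(13,0)]⟩]⟩))) (.Q [0,-1,0,0,1,0,0,0,1,0,0,-1] (.p false [0,0,0,1] [] (⟨0,[(10,0)]⟩,⟨1,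
  [(9,0),(8,0),(0,0)]⟩) .k 0 (⟨0,[]⟩,⟨0,[]⟩) .k .k) (.R ⟨2,true,false,false,[0,1],[0,0,0,1],[1,0,1],
  (⟨0,[]⟩,⟨0,[]⟩),(⟨0,[(11,0)]⟩,⟨1,[(10,0),(8,0),(0,0)]⟩),⟨0,[]⟩,.k,.k,.k,(.x (-1) ⟨3,[(8,0),(0,0),
  (13,3),(3,1)]⟩ ⟨2,[(2,0),(10,0),(2,1),(5,2)]⟩),.k,.k,⟨false,0,⟨5,[(1,3),(2,1),(1,1),(1,0),(1,1),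
  (17,2)]⟩,⟨1,[(9,0),(17,0)]⟩⟩,⟨true,0,⟨1,[(10,0),(2,0),(2,0)]⟩,⟨0,[(11,0)]⟩⟩,⟨false,1,⟨0,[(25,0),
  (2,0)]⟩,⟨0,[(26,0)]⟩⟩,⟨true,1,⟨0,[(0,0),(24,0)]⟩,⟨0,[(1,0)]⟩⟩,⟨true,0,⟨0,[]⟩,⟨0,[(30,0)]⟩⟩,⟨false,
  1,⟨0,[(0,0)]⟩,⟨0,[(1,0),(23,0),(2,0)]⟩⟩,[]⟩) (.R ⟨0,false,false,false,[1,0,-1],[0,0,0,1],[0,1,1],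
  (⟨0,[(19,0)]⟩,⟨0,[(20,0)]⟩),(⟨0,[(11,0)]⟩,⟨1,[(10,0),(8,0),(0,0)]⟩),⟨0,[(5,0)]⟩,.k,.k,.k,.k,.k,.k,
  ⟨true,(-1),⟨1,[(0,1),(9,0),(2,0),(2,0)]⟩,⟨1,[(9,0),(18,0)]⟩⟩,⟨false,1,⟨1,[(10,0),(5,1),(2,0),(0,
  0),(6,1)]⟩,⟨2,[(2,0),(4,0),(3,2)]⟩⟩,⟨false,0,⟨1,[(7,0),(6,1),(4,0),(0,0),(3,1)]⟩,⟨1,[(18,1),(8,0),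
  (0,0)]⟩⟩,⟨true,1,⟨1,[(9,0),(0,0),(3,1),(4,0),(0,0),(7,0)]⟩,⟨0,[(1,0),(2,0)]⟩⟩,⟨false,0,⟨0,[]⟩,⟨0,
  []⟩⟩,⟨false,0,⟨0,[]⟩,⟨0,[]⟩⟩,[.o ⟨false,1,⟨7,[(8,0),(0,4),(0,3),(10,1)]⟩,⟨1,[(0,1),(20,0),(6,
  0)]⟩⟩,.a ⟨true,1,⟨1,[(9,0),(0,0),(8,0),(0,0),(7,0)]⟩,⟨0,[(0,0)]⟩⟩ ⟨true,0,⟨1,[(16,0),(0,0)]⟩,⟨0,
  []⟩⟩ ⟨false,2,⟨1,[(9,0),(0,0),(5,1),(2,0),(0,0),(6,1),(0,0)]⟩,⟨2,[(0,2),(1,0),(4,0)]⟩⟩,.o ⟨false,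
  0,⟨0,[(3,0)]⟩,⟨3,[(8,0),(0,0),(6,3),(10,1)]⟩⟩,.o ⟨false,0,⟨0,[(13,0)]⟩,⟨0,[(16,0),(10,
  0)]⟩⟩]⟩))))))

theorem ok1 : chk (cU (-1) false 2) t1 l1 = true := by decide +kernel

noncomputable def l2 : List Con := (false, [0,0,0,1,0,0,2,2,0,1,-2]) :: r1

noncomputable def r2 : List Con := (false, [0,0,0,-1,0,0,-2,-2,0,-1,2]) :: r1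

noncomputable def t2 : Tre :=
  (.R ⟨1,true,false,false,[1,0,-1],[0,0,1],[1,1,0,-1,0,0,0,-1],(⟨0,[(15,0)]⟩,⟨0,[(16,0)]⟩),(⟨0,[(16,
  0)]⟩,⟨0,[(15,0)]⟩),⟨0,[(1,0)]⟩,.k,.k,.k,.k,(.r (-1) ⟨1,[(14,3),(6,1),(1,0),(0,0)]⟩ ⟨1,[(0,1),(2,
  0),(5,0),(3,0)]⟩),.k,⟨true,0,⟨0,[(14,1),(6,0)]⟩,⟨0,[(0,0),(2,0),(16,0)]⟩⟩,⟨false,1,⟨1,[(0,1),(13,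
  3),(6,1),(1,0),(0,0)]⟩,⟨0,[(3,0)]⟩⟩,⟨true,0,⟨0,[(21,0)]⟩,⟨0,[(22,0)]⟩⟩,⟨false,1,⟨0,[(0,0),(20,0),
  (2,0)]⟩,⟨0,[(3,0),(10,1)]⟩⟩,⟨false,0,⟨0,[]⟩,⟨3,[(4,0),(0,0),(18,1)]⟩⟩,⟨true,0,⟨0,[(0,0)]⟩,⟨0,[(3,
  0),(10,1),(6,0)]⟩⟩,[]⟩)

theorem ok2 : chk (cU (-1) false 2) t2 l2 = true := by decide +kernel

noncomputable def l3 : List Con := (false, [0,0,0,0,0,0,1,0,0,1,-1]) :: r2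

noncomputable def r3 : List Con := (false, [0,0,0,0,0,0,-1,0,0,-1,1]) :: r2

noncomputable def t3 : Tre :=
  (.Q [0,-1,0,-1,1,0,0,0,0,-1] (.pp true [-1,1]) (.R ⟨1,false,false,false,[1,0,-1],[1,-1],[0,0,0,0,
  0,0,0,-1],(⟨0,[(17,0)]⟩,⟨0,[(18,0)]⟩),(⟨0,[(20,0)]⟩,⟨0,[(21,0)]⟩),⟨0,[(3,0)]⟩,.k,.k,.k,.k,.k,.k,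
  ⟨false,0,⟨0,[(16,0),(7,0)]⟩,⟨1,[(4,1),(0,0),(11,0),(0,0),(6,0),(0,0)]⟩⟩,⟨true,0,⟨0,[(14,0)]⟩,⟨1,
  [(5,0),(11,0),(0,0)]⟩⟩,⟨false,1,⟨3,[(6,0),(0,0),(18,1)]⟩,⟨0,[]⟩⟩,⟨false,1,⟨0,[(4,0),(21,0)]⟩,⟨1,
  [(2,0),(14,0),(0,0),(5,2)]⟩⟩,⟨true,0,⟨0,[(24,0)]⟩,⟨0,[(23,0)]⟩⟩,⟨false,1,⟨0,[(12,0),(13,0)]⟩,⟨1,
  [(2,0),(14,0),(0,0),(5,0)]⟩⟩,[.o ⟨false,1,⟨7,[(0,3),(5,0),(0,0),(11,1),(3,3)]⟩,⟨0,[(24,0)]⟩⟩,.o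
  ⟨false,1,⟨0,[(0,0)]⟩,⟨0,[(24,0),(3,0)]⟩⟩,.a ⟨true,0,⟨1,[(5,0),(11,0),(0,0)]⟩,⟨0,[(1,0)]⟩⟩ ⟨true,0,
  ⟨0,[(16,0)]⟩,⟨1,[(5,0),(6,1),(4,0),(0,0)]⟩⟩ ⟨false,1,⟨0,[(0,0),(0,0)]⟩,⟨1,[(5,0),(11,0),(0,0),(5,
  1)]⟩⟩,.o ⟨false,0,⟨0,[(11,0)]⟩,⟨1,[(1,1),(17,0),(5,0)]⟩⟩]⟩) (.Q [0,0,0,0,0,1,0,0,0,0,-1] (.ed
  true [1,-1,1] .k) (.K ⟨1,[0,1,-1],0,0,(⟨0,[(0,0)]⟩,⟨0,[(19,0),(1,0)]⟩),.k,.k,(.r 1 ⟨0,[(1,1),(15,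
  0),(2,0),(2,1)]⟩ ⟨1,[(5,1),(0,0),(11,0),(0,0),(4,1),(1,1),(0,1)]⟩),.k,.k,[⟨1,[(15,2),(0,0)]⟩,⟨1,
  [(6,0),(11,0),(0,0)]⟩,⟨0,[(5,0)]⟩,⟨2,[(1,3),(1,0),(10,0),(12,3)]⟩]⟩) (.K ⟨0,[0,-1,1],0,0,(⟨0,[(0,
  0)]⟩,⟨0,[(18,0),(3,0)]⟩),.k,(.r (-2) ⟨1,[(5,1),(0,0),(11,0),(0,0),(4,1),(1,1),(0,1)]⟩ ⟨0,[(1,1),
  (15,0),(2,0),(2,1)]⟩),.k,.k,.k,[⟨1,[(6,0),(11,0),(0,0)]⟩,⟨0,[(2,0)]⟩,⟨0,[(14,0),(10,0)]⟩,⟨0,[(5,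
  0)]⟩]⟩)))

theorem ok3 : chk (cU (-1) false 2) t3 l3 = true := by decide +kernel

noncomputable def l4 : List Con := (false, [0,0,0,1,0,0,1,1,0,1,-1]) :: r3

noncomputable def r4 : List Con := (false, [0,0,0,-1,0,0,-1,-1,0,-1,1]) :: r3

noncomputable def t4 : Tre :=
  (.R ⟨2,true,false,true,[0,1],[1,0,-1],[0,0,1,1],(⟨0,[]⟩,⟨0,[]⟩),(⟨0,[(17,0)]⟩,⟨0,[(18,0)]⟩),⟨0,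
  []⟩,.k,.k,.k,.k,.k,.k,⟨true,0,⟨0,[(0,0),(0,0),(20,0)]⟩,⟨0,[(16,0),(6,0)]⟩⟩,⟨false,0,⟨0,[(1,0)]⟩,
  ⟨1,[(0,1),(15,1),(6,1),(1,0),(0,0)]⟩⟩,⟨false,1,⟨3,[(6,0),(0,0),(18,1)]⟩,⟨0,[]⟩⟩,⟨true,0,⟨1,[(2,0),
  (1,0),(5,0)]⟩,⟨0,[(0,0)]⟩⟩,⟨true,0,⟨0,[(24,0)]⟩,⟨0,[(23,0)]⟩⟩,⟨false,0,⟨0,[(1,0),(14,0)]⟩,⟨0,[(0,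
  0),(22,0),(2,0)]⟩⟩,[]⟩)

theorem ok4 : chk (cU (-1) false 2) t4 l4 = true := by decide +kernel

noncomputable def l5 : List Con := (false, [0,0,0,0,0,1,0,0,0,0,-1]) :: r4

noncomputable def r5 : List Con := (false, [0,0,0,0,0,-1,0,0,0,0,1]) :: r4

noncomputable def t5 : Tre :=
  (.Q [0,-1,0,1,0,0,-1,-1,0,1,1] (.p true [1,-1,1] [] (⟨0,[(19,0),(1,0)]⟩,⟨0,[(0,0)]⟩) .k 0 (⟨0,[]⟩,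
  ⟨0,[]⟩) .k .k) (.R ⟨0,false,false,true,[0,0,1],[1,-1,1],[1,0,1],(⟨0,[(20,0)]⟩,⟨0,[(19,0)]⟩),(⟨0,
  [(20,0),(1,0)]⟩,⟨0,[(1,0)]⟩),⟨0,[(1,0)]⟩,.k,.k,.k,.k,.k,.k,⟨false,0,⟨0,[(18,0),(5,0),(1,0)]⟩,⟨1,
  [(0,0),(5,2),(0,0),(19,1)]⟩⟩,⟨true,0,⟨0,[(3,0),(12,0)]⟩,⟨0,[(0,0),(5,0)]⟩⟩,⟨false,0,⟨0,[(18,0),(5,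
  0)]⟩,⟨1,[(0,0),(5,0),(0,0),(6,1),(12,0),(0,0)]⟩⟩,⟨true,0,⟨0,[(2,0),(11,0)]⟩,⟨0,[(0,0),(13,0)]⟩⟩,
  ⟨false,0,⟨0,[]⟩,⟨0,[]⟩⟩,⟨false,0,⟨0,[]⟩,⟨0,[]⟩⟩,[.a ⟨true,0,⟨0,[(6,0)]⟩,⟨0,[(0,0)]⟩⟩ ⟨false,0,⟨0,
  []⟩,⟨3,[(8,0),(0,0),(17,1)]⟩⟩ ⟨true,0,⟨0,[(3,0),(2,0)]⟩,⟨0,[(0,0),(15,0)]⟩⟩,.o ⟨false,1,⟨1,[(6,1),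
  (14,0),(6,0)]⟩,⟨1,[(0,0),(11,0),(13,0)]⟩⟩,.o ⟨false,1,⟨3,[(8,0),(0,0),(6,3),(10,1)]⟩,⟨0,[(3,0)]⟩⟩,
  .o ⟨false,0,⟨0,[(16,0)]⟩,⟨7,[(7,3),(0,0),(0,0),(11,1),(5,3)]⟩⟩]⟩) (.Q [0,1,0,-1,0,0,0,0,1,0,0,-1]
  (.p false [0,0,0,1] [] (⟨0,[(11,0)]⟩,⟨1,[(10,0),(8,0),(0,0)]⟩) .k 0 (⟨0,[]⟩,⟨0,[]⟩) .k .k) (.Q [0,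
  0,0,-1,0,0,0,0,1,0,0,-1] (.p false [0,0,0,1] [] (⟨0,[(12,0)]⟩,⟨1,[(11,0),(8,0),(0,0)]⟩) .k 0 (⟨0,
  []⟩,⟨0,[]⟩) .k .k) (.I [1,1,0,0,0,0,0,0,-1] (.Q [0,-1,0,1,0,0,-1,-1,1,1,1,-1] (.p true [1,-1,1]
  [0,0,0,1] (⟨0,[(23,0),(1,0)]⟩,⟨0,[(4,0)]⟩) .k 2 (⟨0,[(14,0)]⟩,⟨1,[(13,0),(8,0),(0,0)]⟩) .k (.r
  (-1) ⟨1,[(10,0),(0,0),(5,1),(4,0),(0,0),(7,0)]⟩ ⟨0,[(1,0),(12,0),(6,0),(7,0)]⟩)) (.Q [0,0,0,0,0,1,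
  0,0,0,0,0,-1] (.p false [0,0,0,1] [] (⟨0,[(15,0)]⟩,⟨1,[(14,0),(8,0),(0,0)]⟩) .k 0 (⟨0,[]⟩,⟨0,[]⟩)
  .k .k) (.R ⟨0,false,false,true,[0,0,0,1],[1,-1,1],[1,1],(⟨0,[(16,0)]⟩,⟨1,[(15,0),(8,0),(0,0)]⟩),
  (⟨0,[(25,0),(1,0)]⟩,⟨0,[(6,0)]⟩),⟨0,[(0,0)]⟩,.k,.k,(.r (-1) ⟨3,[(3,1),(10,0),(1,1),(13,1),(1,1),
  (0,0)]⟩ ⟨0,[(2,0),(26,0),(1,0)]⟩),(.x (-1) ⟨3,[(6,1),(5,1),(0,0),(0,0),(9,1),(3,1),(3,1)]⟩ ⟨0,[(5,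
  0),(17,0),(1,0),(1,0),(1,0),(1,0)]⟩),.k,.k,⟨false,0,⟨0,[(23,0),(7,0)]⟩,⟨1,[(11,1),(0,0),(11,0),(0,
  0),(6,0),(0,0)]⟩⟩,⟨true,0,⟨0,[(5,0),(10,0),(6,0),(5,0),(1,0)]⟩,⟨1,[(12,0),(2,0),(8,1),(0,1)]⟩⟩,
  ⟨true,0,⟨0,[(2,0)]⟩,⟨0,[(1,0),(3,0),(10,0)]⟩⟩,⟨false,1,⟨1,[(5,1),(7,0),(2,1),(16,0)]⟩,⟨0,[(1,
  0)]⟩⟩,⟨false,0,⟨0,[]⟩,⟨0,[]⟩⟩,⟨false,0,⟨0,[]⟩,⟨0,[]⟩⟩,[.o ⟨false,0,⟨0,[(5,0)]⟩,⟨0,[(20,0),(10,0),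
  (1,0)]⟩⟩,.o ⟨false,1,⟨3,[(5,3),(7,0),(0,0),(18,1)]⟩,⟨2,[(1,0),(0,0),(6,0),(6,0),(14,2)]⟩⟩,.a
  ⟨true,0,⟨1,[(15,0),(8,0),(0,0)]⟩,⟨0,[(16,0)]⟩⟩ ⟨false,0,⟨0,[]⟩,⟨3,[(13,0),(0,0),(18,1)]⟩⟩ ⟨true,0,
  ⟨0,[(5,0),(10,0)]⟩,⟨0,[(1,0),(0,0)]⟩⟩,.o ⟨false,0,⟨1,[(15,0),(2,0),(2,0)]⟩,⟨1,[(16,1),(9,0),(5,
  0)]⟩⟩]⟩) (.Q [0,0,0,1,0,0,-1,-1,-1,0,1,1] (.p true [1,-1,1] [1,0,0,-1] (⟨0,[(25,0),(1,0)]⟩,⟨0,[(6,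
  0)]⟩) .k 2 (⟨1,[(15,0),(8,0),(0,0)]⟩,⟨0,[(16,0)]⟩) .k (.x (-1) ⟨3,[(13,0),(0,0),(6,3),(3,3),(6,
  1)]⟩ ⟨1,[(6,0),(3,0),(1,0)]⟩)) (.Q [0,1,0,-1,0,0,0,0,-1,-1,0,1] (.p true [0,0,0,1] [1] (⟨0,[(17,
  0)]⟩,⟨1,[(16,0),(8,0),(0,0)]⟩) .k 1 (⟨0,[]⟩,⟨0,[]⟩) .k .k) (.R ⟨1,false,false,false,[0,0,0,1],[1,
  -1],[0,0,0,0,0,0,0,0,1],(⟨0,[(18,0)]⟩,⟨1,[(17,0),(8,0),(0,0)]⟩),(⟨0,[(29,0)]⟩,⟨0,[(30,0)]⟩),⟨0,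
  [(2,0)]⟩,.k,.k,(.r (-1) ⟨3,[(5,1),(10,0),(1,1),(13,1),(1,1),(0,0)]⟩ ⟨0,[(4,0),(26,0),(1,0)]⟩),(.r
  0 ⟨1,[(3,1),(3,0),(10,1),(1,0),(0,0),(1,0),(9,0)]⟩ ⟨1,[(0,1),(16,0),(8,0),(0,0),(6,0),(0,0)]⟩),.k,
  .k,⟨false,0,⟨0,[(3,0),(3,0),(10,0),(14,0)]⟩,⟨1,[(0,1),(16,0),(8,0),(0,0),(6,0),(0,0)]⟩⟩,⟨true,0,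
  ⟨0,[(10,0),(7,0),(4,0)]⟩,⟨1,[(17,0),(8,0),(0,0)]⟩⟩,⟨false,1,⟨3,[(15,0),(0,0),(18,1)]⟩,⟨0,[]⟩⟩,
  ⟨false,1,⟨0,[(0,0),(34,0)]⟩,⟨0,[(3,0),(17,0)]⟩⟩,⟨true,0,⟨0,[(33,0)]⟩,⟨0,[(32,0)]⟩⟩,⟨false,1,⟨0,
  [(1,0),(5,0),(27,0)]⟩,⟨0,[(3,0),(9,0)]⟩⟩,[.o ⟨false,1,⟨1,[(28,0),(3,1),(2,0)]⟩,⟨0,[(33,0)]⟩⟩,.o
  ⟨false,1,⟨7,[(7,3),(3,1),(16,0),(3,1),(2,6)]⟩,⟨0,[(33,0),(3,0)]⟩⟩,.a ⟨true,0,⟨1,[(17,0),(8,0),(0,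
  0)]⟩,⟨0,[(18,0)]⟩⟩ ⟨true,0,⟨0,[(3,0),(3,0),(10,0)]⟩,⟨0,[(4,0)]⟩⟩ ⟨false,1,⟨5,[(0,1),(6,1),(1,1),
  (6,0),(1,3),(16,4)]⟩,⟨1,[(17,0),(8,0),(0,0),(5,1)]⟩⟩,.o ⟨false,0,⟨1,[(17,0),(2,0),(2,0)]⟩,⟨1,[(18,
  1),(9,0),(5,0)]⟩⟩]⟩) (.R ⟨1,false,false,true,[0,0,0,1],[1,-1,-1],[1,0,0,-1,0,0,0,0,1],(⟨0,[(18,
  0)]⟩,⟨1,[(17,0),(8,0),(0,0)]⟩),(⟨0,[(12,0)]⟩,⟨0,[(27,0),(2,0)]⟩),⟨0,[(2,0)]⟩,.k,.k,(.r (-1) ⟨3,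
  [(5,1),(10,0),(1,1),(13,1),(1,1),(0,0)]⟩ ⟨0,[(4,0),(26,0),(1,0)]⟩),(.x (-1) ⟨0,[(23,0),(3,0),(2,
  0),(3,0)]⟩ ⟨0,[(12,0),(7,0)]⟩),.k,.k,⟨true,0,⟨1,[(0,1),(6,0),(5,0),(0,0),(3,1),(12,1)]⟩,⟨0,[(4,0),
  (20,0)]⟩⟩,⟨false,0,⟨0,[(10,0),(7,0)]⟩,⟨1,[(17,0),(5,1),(2,0),(0,0),(6,1)]⟩⟩,⟨false,1,⟨0,[(32,0),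
  (2,0)]⟩,⟨0,[(33,0)]⟩⟩,⟨true,0,⟨0,[(1,0),(7,0),(3,0)]⟩,⟨0,[(0,0),(20,0)]⟩⟩,⟨true,0,⟨0,[]⟩,⟨0,[(37,
  0)]⟩⟩,⟨true,0,⟨4,[(1,4),(5,2),(3,0),(7,0),(12,0)]⟩,⟨0,[(0,0),(12,0)]⟩⟩,[.o ⟨false,0,⟨4,[(7,0),(3,
  1),(7,1),(12,1)]⟩,⟨0,[(21,0),(11,0),(1,0)]⟩⟩,.o ⟨false,0,⟨0,[(9,0)]⟩,⟨3,[(15,0),(0,0),(4,3),(11,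
  3),(1,1)]⟩⟩,.a ⟨true,0,⟨1,[(17,0),(8,0),(0,0)]⟩,⟨0,[(18,0)]⟩⟩ ⟨true,0,⟨0,[(5,0),(12,0)]⟩,⟨0,[(4,
  0),(28,0)]⟩⟩ ⟨false,0,⟨0,[(9,0),(8,0)]⟩,⟨1,[(0,1),(14,0),(5,1),(13,0)]⟩⟩,.o ⟨false,0,⟨1,[(17,0),
  (2,0),(2,0)]⟩,⟨1,[(18,1),(9,0),(5,0)]⟩⟩]⟩)) (.R ⟨1,false,false,true,[0,0,0,1],[1,0,-1],[0,0,0,0,0,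
  0,0,0,1],(⟨0,[(17,0)]⟩,⟨1,[(16,0),(8,0),(0,0)]⟩),(⟨0,[(25,0)]⟩,⟨0,[(26,0)]⟩),⟨0,[(1,0)]⟩,.k,.k,
  (.r (-1) ⟨3,[(4,1),(10,0),(1,1),(13,1),(1,1),(0,0)]⟩ ⟨0,[(3,0),(26,0),(1,0)]⟩),.k,(.x 0 ⟨1,[(1,1),
  (4,0),(9,0),(5,0),(1,0),(1,1),(3,0),(1,0)]⟩ ⟨3,[(7,1),(5,1),(0,0),(0,0),(9,1),(3,1),(3,1)]⟩),.k,
  ⟨false,1,⟨1,[(0,1),(12,0),(3,1),(7,0),(0,0),(5,1),(0,0),(0,0)]⟩,⟨0,[(3,0),(20,0)]⟩⟩,⟨true,0,⟨0,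
  [(9,0),(7,0)]⟩,⟨1,[(16,0),(5,1),(2,0),(0,0)]⟩⟩,⟨false,1,⟨3,[(14,0),(0,0),(18,1)]⟩,⟨0,[]⟩⟩,⟨true,0,
  ⟨0,[(3,0),(5,0),(7,0),(6,0)]⟩,⟨0,[(0,0),(24,0),(0,0),(5,0)]⟩⟩,⟨true,0,⟨0,[(32,0)]⟩,⟨0,[(31,0)]⟩⟩,
  ⟨true,0,⟨0,[(3,0),(5,0),(7,0),(6,0),(7,0)]⟩,⟨0,[(0,0),(24,0),(0,0)]⟩⟩,[.o ⟨false,0,⟨0,[(18,0)]⟩,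
  ⟨0,[(20,0),(13,0)]⟩⟩,.o ⟨false,0,⟨0,[(9,0),(14,0)]⟩,⟨3,[(14,0),(0,0),(4,3),(13,1)]⟩⟩,.a ⟨true,0,
  ⟨1,[(16,0),(8,0),(0,0)]⟩,⟨0,[(17,0)]⟩⟩ ⟨true,0,⟨2,[(0,1),(1,0),(14,2),(0,0),(13,0)]⟩,⟨0,[(3,0)]⟩⟩
  ⟨false,0,⟨0,[(9,0),(7,0),(6,0)]⟩,⟨1,[(16,0),(3,1),(4,0),(0,0),(7,1)]⟩⟩,.o ⟨false,0,⟨1,[(16,0),(2,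
  0),(2,0)]⟩,⟨1,[(17,1),(9,0),(5,0)]⟩⟩]⟩))) (.Q [0,0,0,0,0,1,0,0,0,0,0,-1] (.p false [0,0,0,1] []
  (⟨0,[(15,0)]⟩,⟨1,[(14,0),(8,0),(0,0)]⟩) .k 0 (⟨0,[]⟩,⟨0,[]⟩) .k .k) (.R ⟨0,false,false,false,[0,0,
  0,1],[1,-1],[1,0,0,0,0,0,0,0,1],(⟨0,[(16,0)]⟩,⟨1,[(15,0),(8,0),(0,0)]⟩),(⟨0,[(27,0)]⟩,⟨0,[(28,
  0)]⟩),⟨0,[(0,0)]⟩,.k,.k,(.r (-1) ⟨3,[(3,1),(10,0),(1,1),(13,1),(1,1),(0,0)]⟩ ⟨0,[(2,0),(26,0),(1,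
  0)]⟩),(.r 0 ⟨1,[(3,1),(12,1),(4,0),(0,0),(8,3)]⟩ ⟨5,[(1,3),(7,1),(3,0),(1,1),(8,3),(0,3),(6,2),(0,
  1)]⟩),.k,.k,⟨false,0,⟨0,[(3,0),(12,0),(14,1)]⟩,⟨5,[(1,3),(7,1),(3,0),(1,1),(8,3),(0,3),(6,2),(0,
  1)]⟩⟩,⟨true,0,⟨0,[(8,0),(7,0),(4,0)]⟩,⟨1,[(15,0),(8,0),(0,0)]⟩⟩,⟨true,0,⟨0,[]⟩,⟨0,[(35,0)]⟩⟩,
  ⟨false,1,⟨5,[(1,3),(7,1),(3,0),(2,1),(16,4)]⟩,⟨0,[(3,0),(20,0),(0,0),(5,1)]⟩⟩,⟨false,0,⟨0,[]⟩,⟨0,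
  []⟩⟩,⟨false,0,⟨0,[]⟩,⟨0,[]⟩⟩,[.o ⟨false,1,⟨1,[(26,0),(3,1),(2,0)]⟩,⟨0,[(31,0)]⟩⟩,.o ⟨false,1,⟨7,
  [(5,3),(3,1),(16,0),(3,1),(2,6)]⟩,⟨0,[(31,0),(3,0)]⟩⟩,.a ⟨true,0,⟨1,[(15,0),(8,0),(0,0)]⟩,⟨0,[(16,
  0)]⟩⟩ ⟨true,0,⟨0,[(3,0),(12,0),(14,0)]⟩,⟨1,[(1,1),(5,1),(2,2),(4,0),(9,2),(2,2),(2,3)]⟩⟩ ⟨false,1,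
  ⟨3,[(1,1),(5,1),(6,0),(1,1),(16,2)]⟩,⟨1,[(15,0),(8,0),(0,0),(5,1)]⟩⟩,.o ⟨false,0,⟨1,[(15,0),(2,0),
  (2,0)]⟩,⟨1,[(16,1),(9,0),(5,0)]⟩⟩]⟩) (.R ⟨1,false,false,false,[1,0,0,-1],[1,-1],[1,1,0,-1,0,0,0,0,
  -1],(⟨1,[(15,0),(8,0),(0,0)]⟩,⟨0,[(16,0)]⟩),(⟨0,[(27,0)]⟩,⟨0,[(28,0)]⟩),⟨0,[(0,0),(14,0)]⟩,.k,.k,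
  (.r (-1) ⟨5,[(1,3),(7,1),(3,0),(1,1),(8,3),(0,3),(6,2),(0,1)]⟩ ⟨1,[(3,1),(12,1),(4,0),(0,0),(8,
  3)]⟩),(.r 0 ⟨0,[(2,0),(26,0),(1,0)]⟩ ⟨3,[(3,1),(10,0),(1,1),(13,1),(1,1),(0,0)]⟩),.k,.k,⟨false,0,
  ⟨0,[(2,0)]⟩,⟨1,[(3,1),(12,1),(14,1),(0,0),(0,0)]⟩⟩,⟨true,0,⟨1,[(15,0),(2,0),(2,0)]⟩,⟨0,[(16,0)]⟩⟩,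
  ⟨true,0,⟨0,[(30,0)]⟩,⟨0,[(31,0)]⟩⟩,⟨true,0,⟨0,[(3,0)]⟩,⟨0,[(2,0),(13,0),(14,0)]⟩⟩,⟨false,0,⟨0,[]⟩,
  ⟨3,[(13,0),(0,0),(18,1)]⟩⟩,⟨true,0,⟨0,[(3,0),(27,0)]⟩,⟨0,[(2,0),(13,0)]⟩⟩,[.o ⟨false,1,⟨1,[(26,0),
  (3,1),(2,0)]⟩,⟨0,[(31,0)]⟩⟩,.o ⟨false,1,⟨7,[(5,3),(3,1),(16,0),(3,1),(2,6)]⟩,⟨0,[(31,0),(3,0)]⟩⟩,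
  .a ⟨true,0,⟨0,[(16,0)]⟩,⟨1,[(15,0),(8,0),(0,0)]⟩⟩ ⟨true,0,⟨2,[(1,1),(0,0),(6,0),(5,0),(8,1),(0,
  1)]⟩,⟨0,[(3,0),(12,0),(14,1)]⟩⟩ ⟨false,1,⟨1,[(3,1),(9,0),(19,0)]⟩,⟨0,[(16,0),(14,0)]⟩⟩,.o ⟨false,
  0,⟨0,[(8,0),(7,0),(4,0)]⟩,⟨7,[(13,0),(0,0),(0,3),(10,1),(5,3)]⟩⟩]⟩))) (.Q [0,1,0,0,0,0,-1,-1,-1,
  -1,1,1] (.p true [0,0,1] [1,0,0,-1] (⟨0,[(23,0)]⟩,⟨0,[(22,0)]⟩) .k 2 (⟨1,[(13,0),(8,0),(0,0)]⟩,⟨0,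
  [(14,0)]⟩) .k (.r 0 ⟨1,[(0,1),(9,0),(6,1),(4,0),(0,0)]⟩ ⟨3,[(11,2),(0,0),(8,3)]⟩)) (.Q [0,0,0,0,0,
  1,0,0,0,0,0,-1] (.p false [0,0,0,1] [] (⟨0,[(15,0)]⟩,⟨1,[(14,0),(8,0),(0,0)]⟩) .k 0 (⟨0,[]⟩,⟨0,
  []⟩) .k .k) (.R ⟨0,false,false,true,[0,0,0,1],[1,0,-1],[0,1],(⟨0,[(16,0)]⟩,⟨1,[(15,0),(8,0),(0,
  0)]⟩),(⟨0,[(24,0)]⟩,⟨0,[(25,0)]⟩),⟨0,[(0,0)]⟩,.k,.k,(.x 0 ⟨0,[(8,0),(12,0),(5,0)]⟩ ⟨3,[(13,0),(0,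
  0),(13,3),(3,1)]⟩),.k,.k,.k,⟨false,1,⟨1,[(12,0),(6,1),(4,0),(0,0),(6,0),(0,0)]⟩,⟨0,[(23,0)]⟩⟩,
  ⟨true,0,⟨0,[(8,0),(7,0)]⟩,⟨1,[(15,0),(5,1),(2,0),(0,0)]⟩⟩,⟨false,1,⟨3,[(13,2),(0,0)]⟩,⟨0,[(2,
  0)]⟩⟩,⟨true,0,⟨0,[(1,0)]⟩,⟨1,[(2,1),(12,0),(3,1),(4,0),(0,0)]⟩⟩,⟨false,0,⟨0,[]⟩,⟨0,[]⟩⟩,⟨false,0,
  ⟨0,[]⟩,⟨0,[]⟩⟩,[.o ⟨false,0,⟨0,[(17,0)]⟩,⟨0,[(19,0),(13,0)]⟩⟩,.o ⟨false,0,⟨0,[(8,0),(14,0)]⟩,⟨3,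
  [(13,0),(0,0),(4,3),(13,1)]⟩⟩,.a ⟨true,0,⟨1,[(15,0),(8,0),(0,0)]⟩,⟨0,[(16,0)]⟩⟩ ⟨true,0,⟨0,[(35,
  0)]⟩,⟨0,[]⟩⟩ ⟨false,0,⟨0,[(1,0),(0,0)]⟩,⟨1,[(15,0),(3,1),(4,0),(0,0),(7,1)]⟩⟩,.o ⟨false,0,⟨1,[(15,
  0),(2,0),(2,0)]⟩,⟨1,[(16,1),(9,0),(5,0)]⟩⟩]⟩) (.R ⟨1,false,false,true,[0,0,0,1],[1,-1,1],[0,0,0,0,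
  0,0,0,0,1],(⟨0,[(16,0)]⟩,⟨1,[(15,0),(8,0),(0,0)]⟩),(⟨0,[(25,0),(1,0)]⟩,⟨0,[(6,0)]⟩),⟨0,[(0,0)]⟩,
  .k,.k,(.x 0 ⟨1,[(0,1),(14,0),(2,0),(2,0)]⟩ ⟨3,[(13,0),(0,0),(13,3),(3,1)]⟩),(.x (-1) ⟨3,[(6,1),(5,
  1),(0,0),(0,0),(9,1),(3,1),(3,1)]⟩ ⟨1,[(0,1),(4,0),(9,0),(5,0),(1,0),(1,1),(3,0),(1,0)]⟩),.k,.k,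
  ⟨false,0,⟨0,[(2,0),(20,0),(7,0)]⟩,⟨1,[(11,1),(0,0),(0,0),(10,0),(0,0),(6,0)]⟩⟩,⟨true,0,⟨0,[(5,0),
  (10,0),(6,0),(5,0),(1,0)]⟩,⟨1,[(12,0),(2,0),(8,1),(0,1)]⟩⟩,⟨false,1,⟨3,[(13,0),(0,0),(18,1)]⟩,⟨0,
  []⟩⟩,⟨false,1,⟨1,[(5,1),(7,0),(2,1),(16,0)]⟩,⟨1,[(2,1),(6,0),(5,0),(8,1),(0,1),(5,2)]⟩⟩,⟨true,0,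
  ⟨0,[(31,0)]⟩,⟨0,[(30,0)]⟩⟩,⟨false,1,⟨1,[(5,1),(7,0),(2,1),(14,1),(1,0)]⟩,⟨1,[(2,1),(6,0),(5,0),(8,
  1),(0,1),(5,0)]⟩⟩,[.o ⟨false,0,⟨0,[(5,0)]⟩,⟨0,[(20,0),(10,0),(1,0)]⟩⟩,.o ⟨false,1,⟨3,[(5,3),(7,0),
  (0,0),(18,1)]⟩,⟨1,[(9,0),(14,0),(0,0),(5,2)]⟩⟩,.a ⟨true,0,⟨1,[(15,0),(8,0),(0,0)]⟩,⟨0,[(16,0)]⟩⟩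
  ⟨false,0,⟨0,[(2,0)]⟩,⟨3,[(13,2),(0,0)]⟩⟩ ⟨true,0,⟨0,[(5,0),(10,0)]⟩,⟨1,[(9,0),(5,0),(8,1),(0,1),
  (5,2)]⟩⟩,.o ⟨false,0,⟨1,[(15,0),(2,0),(2,0)]⟩,⟨1,[(16,1),(9,0),(5,0)]⟩⟩]⟩)) (.I [0,0,-2,-1,1,0,0,
  1] (.Q [0,0,1,0,0,0,2,0,0,0,-2] (.p false [0,0,1] [0,1,-1] (⟨0,[(25,0)]⟩,⟨0,[(24,0)]⟩) .k 2 (⟨0,
  [(6,0)]⟩,⟨0,[(25,0),(1,0)]⟩) .k (.r (-1) ⟨4,[(0,1),(0,1),(10,1),(0,0),(2,1),(2,5),(2,3),(8,1),(1,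
  1)]⟩ ⟨0,[(23,1)]⟩)) (.K ⟨2,[0,1,-1],0,0,(⟨0,[(7,0)]⟩,⟨0,[(26,0),(1,0)]⟩),.k,.k,(.x (-1) ⟨1,[(7,0),
  (5,0),(11,0),(3,2),(3,1)]⟩ ⟨1,[(0,2),(8,2),(9,0),(6,1),(1,3)]⟩),(.r 0 ⟨1,[(21,0),(0,0),(1,2),(5,
  0),(1,1)]⟩ ⟨3,[(1,2),(0,1),(9,0),(0,1),(0,0),(2,1),(2,1),(2,0),(6,0)]⟩),.k,[⟨0,[(0,0)]⟩,⟨1,[(13,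
  0),(11,0),(0,0)]⟩,⟨0,[(12,0)]⟩,⟨0,[(21,0),(10,0)]⟩]⟩) (.Q [0,0,0,0,0,1,0,0,0,0,0,-1] (.p false [0,
  0,0,1] [] (⟨0,[(17,0)]⟩,⟨1,[(16,0),(8,0),(0,0)]⟩) .k 0 (⟨0,[]⟩,⟨0,[]⟩) .k .k) (.R ⟨0,false,false,
  false,[0,0,0,1],[1,0,-1],[1,0,0,0,0,0,0,0,1],(⟨0,[(18,0)]⟩,⟨1,[(17,0),(8,0),(0,0)]⟩),(⟨0,[(26,
  0)]⟩,⟨0,[(27,0)]⟩),⟨0,[(0,0)]⟩,.k,.k,(.r 0 ⟨0,[(1,0),(1,0),(3,0),(10,0),(6,1)]⟩ ⟨3,[(15,2),(0,0),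
  (6,1),(0,1),(8,3)]⟩),.k,.k,.k,⟨false,0,⟨0,[(1,0),(1,0),(3,0),(10,0),(6,0),(7,0)]⟩,⟨3,[(15,2),(0,
  0),(8,3)]⟩⟩,⟨true,0,⟨0,[(10,0),(7,0)]⟩,⟨1,[(17,0),(5,1),(2,0),(0,0)]⟩⟩,⟨true,0,⟨0,[]⟩,⟨0,[(37,
  0)]⟩⟩,⟨false,1,⟨1,[(10,1),(4,0),(2,1),(6,1),(9,0)]⟩,⟨0,[(3,0),(33,0)]⟩⟩,⟨false,0,⟨0,[]⟩,⟨0,[]⟩⟩,
  ⟨false,0,⟨0,[]⟩,⟨0,[]⟩⟩,[.o ⟨false,0,⟨0,[(10,0),(14,0)]⟩,⟨3,[(15,0),(0,0),(4,3),(13,1)]⟩⟩,.o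
  ⟨false,1,⟨2,[(11,0),(10,0),(5,0),(4,0),(1,1)]⟩,⟨0,[(21,0)]⟩⟩,.a ⟨true,0,⟨1,[(17,0),(8,0),(0,0)]⟩,
  ⟨0,[(18,0)]⟩⟩ ⟨false,0,⟨0,[(4,0)]⟩,⟨3,[(15,2),(0,0)]⟩⟩ ⟨true,0,⟨0,[(10,0),(7,0),(6,0)]⟩,⟨1,[(17,
  0),(3,1),(4,0),(0,0)]⟩⟩,.o ⟨false,0,⟨1,[(17,0),(2,0),(2,0)]⟩,⟨1,[(18,1),(9,0),(5,0)]⟩⟩]⟩) (.R ⟨1,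
  false,false,true,[0,0,0,1],[1,-1],[0,0,0,0,0,0,0,0,1],(⟨0,[(18,0)]⟩,⟨1,[(17,0),(8,0),(0,0)]⟩),(⟨0,
  [(29,0)]⟩,⟨0,[(30,0)]⟩),⟨0,[(0,0)]⟩,.k,.k,(.r 0 ⟨0,[(1,0),(1,0),(3,0),(10,0),(6,1)]⟩ ⟨3,[(15,2),
  (0,0),(6,1),(0,1),(8,3)]⟩),(.r 0 ⟨1,[(4,1),(18,0),(0,0),(8,1),(3,1)]⟩ ⟨0,[(1,0),(1,0),(3,0),(7,0),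
  (2,0),(6,1)]⟩),.k,.k,⟨false,0,⟨0,[(4,0),(28,0)]⟩,⟨1,[(15,0),(16,1),(1,0)]⟩⟩,⟨true,0,⟨0,[(10,0),(7,
  0),(4,0)]⟩,⟨1,[(17,0),(8,0),(0,0)]⟩⟩,⟨false,1,⟨3,[(15,0),(0,0),(18,1)]⟩,⟨0,[]⟩⟩,⟨false,1,⟨7,[(7,
  3),(3,1),(3,3),(2,7),(9,0),(3,1),(2,2)]⟩,⟨1,[(4,1),(12,0),(8,0),(0,0),(5,1)]⟩⟩,⟨true,0,⟨0,[(33,
  0)]⟩,⟨0,[(32,0)]⟩⟩,⟨false,1,⟨1,[(15,0),(2,1),(9,0)]⟩,⟨1,[(4,1),(12,0),(8,0),(0,0)]⟩⟩,[.o ⟨false,0,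
  ⟨4,[(7,2),(3,0),(7,0),(12,0)]⟩,⟨3,[(15,0),(0,0),(16,3),(1,1)]⟩⟩,.o ⟨false,1,⟨1,[(28,0),(3,1),(2,
  0)]⟩,⟨0,[(33,0)]⟩⟩,.a ⟨true,0,⟨1,[(17,0),(8,0),(0,0)]⟩,⟨0,[(18,0)]⟩⟩ ⟨false,0,⟨0,[(4,0)]⟩,⟨3,[(15,
  2),(0,0)]⟩⟩ ⟨true,0,⟨4,[(7,2),(3,0),(6,4),(0,0),(12,0)]⟩,⟨1,[(17,0),(8,0),(0,0),(5,1)]⟩⟩,.o
  ⟨false,0,⟨1,[(17,0),(2,0),(2,0)]⟩,⟨1,[(18,1),(9,0),(5,0)]⟩⟩]⟩))) (.K ⟨2,[0,1,-1],0,0,(⟨0,[(6,0)]⟩,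
  ⟨0,[(25,0),(1,0)]⟩),.k,.k,(.r 1 ⟨0,[(0,0),(30,0)]⟩ ⟨3,[(1,1),(9,1),(0,1),(0,0),(2,1),(13,5),(1,3),
  (0,2)]⟩),(.r 0 ⟨3,[(0,1),(12,0),(0,0),(8,5),(7,1)]⟩ ⟨1,[(1,1),(9,1),(0,1),(0,0),(2,1),(15,0)]⟩),
  .k,[⟨1,[(0,0),(0,1),(3,1),(7,0),(2,1),(6,2),(7,0)]⟩,⟨1,[(12,0),(11,0),(0,0)]⟩,⟨0,[(11,0)]⟩,⟨0,
  [(20,0),(10,0)]⟩]⟩)))) (.Q [0,0,0,0,0,1,0,0,0,0,0,-1] (.p false [0,0,0,1] [] (⟨0,[(13,0)]⟩,⟨1,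
  [(12,0),(8,0),(0,0)]⟩) .k 0 (⟨0,[]⟩,⟨0,[]⟩) .k .k) (.I [1,-1,1,1,0,0,0,0,-1] (.R ⟨0,false,false,
  false,[0,0,0,1],[0,1],[1,0,1,1],(⟨0,[(15,0)]⟩,⟨1,[(14,0),(8,0),(0,0)]⟩),(⟨0,[(27,0)]⟩,⟨0,[(26,
  0)]⟩),⟨0,[(1,0)]⟩,.k,.k,(.r (-1) ⟨1,[(3,1),(11,1),(15,0),(0,0)]⟩ ⟨0,[(0,0),(33,0)]⟩),(.r (-1) ⟨1,
  [(3,1),(11,1),(15,0),(0,0)]⟩ ⟨0,[(0,0),(33,0)]⟩),.k,.k,⟨true,0,⟨0,[]⟩,⟨1,[(20,0),(0,0)]⟩⟩,⟨false,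
  1,⟨0,[(15,0),(15,0)]⟩,⟨1,[(14,0),(2,0),(2,0)]⟩⟩,⟨false,0,⟨0,[(0,0)]⟩,⟨1,[(3,1),(11,1),(15,0),(0,
  0)]⟩⟩,⟨true,0,⟨0,[(2,0)]⟩,⟨0,[(3,0)]⟩⟩,⟨false,0,⟨0,[]⟩,⟨0,[]⟩⟩,⟨false,0,⟨0,[]⟩,⟨0,[]⟩⟩,[.o ⟨false,
  0,⟨0,[(30,0)]⟩,⟨1,[(25,0),(3,1),(2,0)]⟩⟩,.o ⟨false,1,⟨3,[(12,0),(0,0),(16,3),(1,1)]⟩,⟨4,[(4,2),(3,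
  0),(7,0),(12,0)]⟩⟩,.a ⟨true,0,⟨1,[(14,0),(8,0),(0,0)]⟩,⟨0,[(15,0)]⟩⟩ ⟨false,0,⟨0,[(28,0),(1,0)]⟩,
  ⟨1,[(29,1),(1,0),(0,0)]⟩⟩ ⟨true,0,⟨0,[(15,0),(14,0)]⟩,⟨9,[(4,2),(3,0),(5,4),(1,0),(12,5)]⟩⟩,.o
  ⟨false,0,⟨1,[(14,0),(2,0),(2,0)]⟩,⟨1,[(15,1),(9,0),(5,0)]⟩⟩]⟩) (.R ⟨0,false,false,false,[0,0,0,1],
  [0,1],[0,1,1],(⟨0,[(15,0)]⟩,⟨1,[(14,0),(8,0),(0,0)]⟩),(⟨0,[(27,0)]⟩,⟨0,[(26,0)]⟩),⟨0,[(1,0)]⟩,.k,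
  .k,(.r (-1) ⟨3,[(0,1),(12,0),(15,1),(1,0),(0,1)]⟩ ⟨1,[(2,1),(11,0),(2,0),(2,0)]⟩),(.r (-1) ⟨3,[(0,
  1),(12,0),(15,1),(1,0),(0,1)]⟩ ⟨1,[(2,1),(11,0),(2,0),(2,0)]⟩),.k,.k,⟨true,0,⟨0,[(29,0)]⟩,⟨0,[(28,
  0),(1,0)]⟩⟩,⟨false,1,⟨0,[(15,0),(15,0)]⟩,⟨1,[(14,0),(2,0),(2,0)]⟩⟩,⟨false,0,⟨13,[(2,13),(1,3),(3,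
  1),(5,6),(2,0),(2,0),(7,11),(0,7)]⟩,⟨0,[(0,0),(29,0),(1,0)]⟩⟩,⟨true,0,⟨0,[(2,0)]⟩,⟨0,[(3,0)]⟩⟩,
  ⟨false,0,⟨0,[]⟩,⟨0,[]⟩⟩,⟨false,0,⟨0,[]⟩,⟨0,[]⟩⟩,[.o ⟨false,0,⟨0,[(30,0)]⟩,⟨1,[(25,0),(3,1),(2,
  0)]⟩⟩,.o ⟨false,1,⟨3,[(12,0),(0,0),(16,3),(1,1)]⟩,⟨4,[(4,2),(3,0),(7,0),(12,0)]⟩⟩,.a ⟨true,0,⟨1,
  [(14,0),(8,0),(0,0)]⟩,⟨0,[(15,0)]⟩⟩ ⟨false,0,⟨1,[(20,0),(0,0)]⟩,⟨1,[(31,0),(0,0)]⟩⟩ ⟨true,0,⟨0,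
  [(15,0),(14,0)]⟩,⟨9,[(4,2),(3,0),(5,4),(1,0),(12,5)]⟩⟩,.o ⟨false,0,⟨1,[(14,0),(2,0),(2,0)]⟩,⟨1,
  [(15,1),(9,0),(5,0)]⟩⟩]⟩)) (.I [0,0,0,0,0,0,0,0,-1] (.R ⟨1,false,false,true,[1,0,0,-1],[1,-1],[0,
  1,0,0,0,0,0,0,-1],(⟨1,[(14,0),(8,0),(0,0)]⟩,⟨0,[(15,0)]⟩),(⟨0,[(26,0)]⟩,⟨0,[(27,0)]⟩),⟨0,[(1,0),
  (12,0)]⟩,.k,.k,(.r (-1) ⟨1,[(0,1),(28,1),(1,0),(0,0)]⟩ ⟨0,[(3,0),(11,0),(12,0),(1,1)]⟩),(.r 0 ⟨1,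
  [(2,1),(11,0),(2,0),(2,0)]⟩ ⟨1,[(3,1),(11,1),(15,0),(0,0)]⟩),.k,.k,⟨false,0,⟨0,[(0,0),(29,0)]⟩,⟨1,
  [(3,1),(11,1),(15,0),(0,0)]⟩⟩,⟨true,0,⟨1,[(14,0),(2,0),(2,0)]⟩,⟨0,[(15,0)]⟩⟩,⟨true,0,⟨0,[(34,0)]⟩,
  ⟨0,[]⟩⟩,⟨true,0,⟨0,[(3,0)]⟩,⟨0,[(2,0)]⟩⟩,⟨false,0,⟨0,[(30,0)]⟩,⟨0,[(29,0),(2,0)]⟩⟩,⟨true,0,⟨0,[(3,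
  0),(26,0)]⟩,⟨0,[(0,0),(14,0)]⟩⟩,[.o ⟨false,0,⟨4,[(4,2),(3,0),(7,0),(12,0)]⟩,⟨3,[(12,0),(0,0),(16,
  3),(1,1)]⟩⟩,.o ⟨false,1,⟨1,[(25,0),(3,1),(2,0)]⟩,⟨0,[(30,0)]⟩⟩,.a ⟨true,0,⟨0,[(15,0)]⟩,⟨1,[(14,0),
  (8,0),(0,0)]⟩⟩ ⟨false,0,⟨0,[(0,0)]⟩,⟨1,[(13,0),(18,0)]⟩⟩ ⟨true,0,⟨9,[(4,2),(3,0),(5,4),(1,0),(12,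
  5)]⟩,⟨0,[(15,0),(14,0)]⟩⟩,.o ⟨false,0,⟨0,[(7,0),(7,0),(4,0)]⟩,⟨7,[(12,0),(0,0),(0,3),(10,1),(5,
  3)]⟩⟩]⟩) (.R ⟨1,false,false,false,[1,0,0,-1],[1,-1,-1],[1,0,0,-1,0,0,0,0,-1],(⟨1,[(14,0),(8,0),(0,
  0)]⟩,⟨0,[(15,0)]⟩),(⟨0,[(9,0)]⟩,⟨0,[(24,0),(2,0)]⟩),⟨0,[(1,0),(12,0)]⟩,.k,.k,(.r (-1) ⟨1,[(2,1),
  (3,1),(3,1),(3,0),(8,0),(0,0),(6,0),(0,0)]⟩ ⟨1,[(0,1),(19,0),(0,0),(8,1)]⟩),(.r 0 ⟨1,[(2,1),(8,0),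
  (2,0),(3,1),(9,1)]⟩ ⟨1,[(0,1),(21,1),(6,1),(1,0),(0,0)]⟩),.k,.k,⟨true,0,⟨1,[(2,1),(7,1),(0,0),(2,
  0),(13,1)]⟩,⟨0,[(0,0),(21,0)]⟩⟩,⟨false,0,⟨1,[(11,0),(2,0)]⟩,⟨0,[(15,0),(4,0),(10,0)]⟩⟩,⟨false,1,
  ⟨0,[(29,0),(2,0)]⟩,⟨0,[(30,0)]⟩⟩,⟨true,0,⟨1,[(0,1),(5,1),(7,0),(8,0),(0,0)]⟩,⟨0,[(2,0),(15,0)]⟩⟩,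
  ⟨true,0,⟨0,[]⟩,⟨0,[(34,0)]⟩⟩,⟨true,0,⟨1,[(0,1),(7,0),(5,0),(15,0)]⟩,⟨0,[(2,0),(7,0)]⟩⟩,[.o ⟨false,
  0,⟨0,[(6,0)]⟩,⟨3,[(12,0),(0,0),(4,3),(11,3),(1,1)]⟩⟩,.o ⟨false,1,⟨3,[(8,1),(16,0),(3,1),(2,2)]⟩,
  ⟨0,[(18,0),(11,0)]⟩⟩,.a ⟨true,0,⟨0,[(15,0)]⟩,⟨1,[(14,0),(8,0),(0,0)]⟩⟩ ⟨false,1,⟨1,[(2,1),(3,1),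
  (3,1),(3,0),(8,0),(0,0),(7,1)]⟩,⟨0,[(0,0),(29,0)]⟩⟩ ⟨true,0,⟨1,[(6,1),(7,0),(8,0),(0,0)]⟩,⟨0,[(0,
  0),(1,0),(15,0)]⟩⟩,.o ⟨false,0,⟨0,[(7,0),(7,0),(4,0)]⟩,⟨7,[(12,0),(0,0),(0,3),(10,1),(5,
  3)]⟩⟩]⟩)))) (.Q [0,0,0,0,0,-1,0,0,0,1,0,-1] (.p false [0,0,0,1] [1] (⟨0,[(12,0)]⟩,⟨1,[(11,0),(8,
  0),(0,0)]⟩) .k 1 (⟨0,[]⟩,⟨0,[]⟩) .k .k) (.I [0,0,-1,-1,1,0,0,1,1] (.R ⟨1,false,false,true,[1,0,0,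
  -1],[1,-1,1],[0,1,0,0,0,0,0,0,-1],(⟨1,[(13,0),(8,0),(0,0)]⟩,⟨0,[(14,0)]⟩),(⟨0,[(23,0),(1,0)]⟩,⟨0,
  [(4,0)]⟩),⟨0,[(1,0)]⟩,.k,.k,(.x 0 ⟨0,[(6,0),(12,0),(5,0)]⟩ ⟨3,[(11,0),(0,0),(13,3),(3,1)]⟩),(.r 0
  ⟨1,[(2,1),(10,0),(1,0),(2,0),(0,1)]⟩ ⟨0,[(0,0)]⟩),.k,.k,⟨false,0,⟨1,[(2,1),(10,0),(1,0),(1,0),(3,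
  1)]⟩,⟨0,[(0,0)]⟩⟩,⟨true,0,⟨1,[(3,0),(9,0),(5,0),(1,0),(5,0),(1,0)]⟩,⟨1,[(10,0),(3,1),(7,0),(0,
  0)]⟩⟩,⟨true,0,⟨0,[(33,0)]⟩,⟨0,[]⟩⟩,⟨false,1,⟨1,[(3,0),(5,0),(2,0),(0,0),(17,0)]⟩,⟨1,[(2,1),(4,0),
  (14,0),(0,0),(5,0)]⟩⟩,⟨false,0,⟨0,[(29,0)]⟩,⟨0,[(28,0),(2,0)]⟩⟩,⟨false,1,⟨1,[(3,0),(8,0),(0,0),(3,
  0),(11,0),(1,0)]⟩,⟨0,[(2,0),(2,0),(16,0),(0,0)]⟩⟩,[.o ⟨false,0,⟨0,[(3,0)]⟩,⟨0,[(18,0),(10,0),(1,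
  0)]⟩⟩,.o ⟨false,1,⟨3,[(3,3),(7,0),(0,0),(18,1)]⟩,⟨1,[(7,0),(14,0),(0,0),(5,2)]⟩⟩,.a ⟨true,0,⟨0,
  [(14,0)]⟩,⟨1,[(13,0),(8,0),(0,0)]⟩⟩ ⟨false,0,⟨9,[(2,9),(0,2),(3,0),(5,4),(1,0),(12,5)]⟩,⟨1,[(12,
  0),(18,0)]⟩⟩ ⟨true,0,⟨1,[(3,0),(5,0),(3,0)]⟩,⟨1,[(7,0),(6,1),(7,0),(0,0),(5,2)]⟩⟩,.o ⟨false,0,⟨0,
  [(6,0),(7,0),(4,0)]⟩,⟨7,[(11,0),(0,0),(0,3),(10,1),(5,3)]⟩⟩]⟩) (.Q [0,0,0,0,0,1,0,0,0,0,0,-1] (.p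
  false [0,0,0,1] [] (⟨0,[(14,0)]⟩,⟨1,[(13,0),(8,0),(0,0)]⟩) .k 0 (⟨0,[]⟩,⟨0,[]⟩) .k .k) (.R ⟨0,
  false,false,false,[0,0,0,1],[0,1],[0,1,1],(⟨0,[(15,0)]⟩,⟨1,[(14,0),(8,0),(0,0)]⟩),(⟨0,[(27,0)]⟩,
  ⟨0,[(26,0)]⟩),⟨0,[(0,0)]⟩,.k,.k,(.x 0 ⟨5,[(1,1),(2,1),(8,0),(3,1),(7,0),(0,5),(1,1)]⟩ ⟨3,[(12,0),
  (0,0),(13,3),(3,1)]⟩),(.x 0 ⟨5,[(1,1),(2,1),(8,0),(3,1),(7,0),(0,5),(1,1)]⟩ ⟨3,[(12,0),(0,0),(13,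
  3),(3,1)]⟩),.k,.k,⟨true,0,⟨0,[(29,0)]⟩,⟨0,[(28,0),(1,0)]⟩⟩,⟨false,1,⟨0,[(15,0),(15,0)]⟩,⟨1,[(14,
  0),(2,0),(2,0)]⟩⟩,⟨true,(-1),⟨1,[(1,1),(8,1),(0,0),(11,0),(0,0)]⟩,⟨1,[(13,0),(17,0)]⟩⟩,⟨false,0,
  ⟨0,[(3,0)]⟩,⟨15,[(4,3),(3,1),(4,7),(0,7),(10,0),(3,9),(2,6)]⟩⟩,⟨false,0,⟨0,[]⟩,⟨0,[]⟩⟩,⟨false,0,
  ⟨0,[]⟩,⟨0,[]⟩⟩,[.o ⟨false,0,⟨0,[(30,0)]⟩,⟨1,[(25,0),(3,1),(2,0)]⟩⟩,.o ⟨false,1,⟨3,[(12,0),(0,0),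
  (16,3),(1,1)]⟩,⟨4,[(4,2),(3,0),(7,0),(12,0)]⟩⟩,.a ⟨true,0,⟨1,[(14,0),(8,0),(0,0)]⟩,⟨0,[(15,0)]⟩⟩
  ⟨false,0,⟨1,[(20,0),(0,0)]⟩,⟨1,[(31,0),(0,0)]⟩⟩ ⟨true,0,⟨0,[(15,0),(14,0)]⟩,⟨9,[(4,2),(3,0),(5,4),
  (1,0),(12,5)]⟩⟩,.o ⟨false,0,⟨1,[(14,0),(2,0),(2,0)]⟩,⟨1,[(15,1),(9,0),(5,0)]⟩⟩]⟩) (.I [1,1,-1,-2,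
  0,0,0,1,-1] (.I [1,-1,2,1,0,0,0,0,1] (.Q [0,0,0,-2,0,0,0,0,-1,-1,0,1] (.p true [0,0,0,1] [1] (⟨0,
  [(17,0)]⟩,⟨1,[(16,0),(8,0),(0,0)]⟩) .k 1 (⟨0,[]⟩,⟨0,[]⟩) .k .k) (.R ⟨1,false,false,false,[1,0,0,
  -1],[0,1],[0,1,0,0,0,0,0,0,-1],(⟨1,[(17,0),(8,0),(0,0)]⟩,⟨0,[(18,0)]⟩),(⟨0,[(30,0)]⟩,⟨0,[(29,
  0)]⟩),⟨0,[(5,0)]⟩,.k,.k,(.x 0 ⟨1,[(3,0),(1,0),(14,0),(2,0)]⟩ ⟨3,[(15,0),(0,0),(13,3),(3,1)]⟩),(.x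
  0 ⟨1,[(3,0),(1,0),(14,0),(2,0)]⟩ ⟨3,[(15,0),(0,0),(13,3),(3,1)]⟩),(.r (-1) ⟨1,[(2,1),(22,1),(8,0),
  (0,0)]⟩ ⟨0,[(1,0),(31,0),(3,0)]⟩),.k,⟨true,0,⟨2,[(2,1),(1,0),(20,0),(8,0),(2,0)]⟩,⟨0,[(1,0)]⟩⟩,
  ⟨false,1,⟨1,[(17,0),(8,0),(0,0),(6,1)]⟩,⟨15,[(0,1),(0,4),(2,2),(2,3),(10,13),(0,0),(0,2),(7,2)]⟩⟩,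
  ⟨true,0,⟨0,[(37,0)]⟩,⟨0,[]⟩⟩,⟨false,1,⟨0,[(6,0),(9,0),(0,0)]⟩,⟨4,[(0,2),(5,1),(0,0),(11,0)]⟩⟩,
  ⟨false,0,⟨0,[(33,0)]⟩,⟨0,[(32,0),(2,0)]⟩⟩,⟨false,1,⟨0,[(6,0),(9,0),(0,0),(15,0)]⟩,⟨0,[(0,0)]⟩⟩,
  [.o ⟨false,0,⟨0,[(33,0)]⟩,⟨15,[(0,7),(14,2),(0,6),(0,3),(10,5)]⟩⟩,.o ⟨false,1,⟨3,[(15,0),(0,0),
  (16,3),(1,1)]⟩,⟨4,[(7,2),(3,0),(7,0),(12,0)]⟩⟩,.a ⟨true,0,⟨0,[(18,0)]⟩,⟨1,[(17,0),(8,0),(0,0)]⟩⟩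
  ⟨false,0,⟨17,[(2,3),(1,3),(1,3),(8,2),(1,1),(10,0)]⟩,⟨1,[(16,0),(18,0)]⟩⟩ ⟨true,0,⟨1,[(17,0),(8,
  0),(0,0),(5,1)]⟩,⟨4,[(7,2),(3,0),(6,4),(0,0),(12,0)]⟩⟩,.o ⟨false,0,⟨15,[(0,1),(0,4),(2,2),(2,3),
  (10,13),(0,0),(0,2),(7,2)]⟩,⟨7,[(15,0),(0,0),(0,3),(10,1),(5,3)]⟩⟩]⟩) (.R ⟨1,true,false,false,[1,
  0,0,-1],[0,1],[0,1,0,0,0,0,0,0,-1],(⟨1,[(17,0),(8,0),(0,0)]⟩,⟨0,[(18,0)]⟩),(⟨0,[(30,0)]⟩,⟨0,[(29,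
  0)]⟩),⟨0,[(5,0)]⟩,.k,.k,(.x 0 ⟨1,[(3,0),(1,0),(14,0),(2,0)]⟩ ⟨3,[(15,0),(0,0),(13,3),(3,1)]⟩),(.x
  0 ⟨1,[(3,0),(1,0),(14,0),(2,0)]⟩ ⟨3,[(15,0),(0,0),(13,3),(3,1)]⟩),(.r (-1) ⟨1,[(2,1),(22,1),(8,0),
  (0,0)]⟩ ⟨0,[(1,0),(31,0),(3,0)]⟩),.k,⟨true,0,⟨2,[(2,1),(1,0),(20,0),(8,0),(2,0)]⟩,⟨0,[(1,0)]⟩⟩,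
  ⟨false,1,⟨1,[(17,0),(8,0),(0,0),(6,1)]⟩,⟨13,[(1,2),(2,1),(1,0),(0,3),(1,1),(8,12),(1,3),(2,1),(4,
  1)]⟩⟩,⟨true,0,⟨0,[(37,0)]⟩,⟨0,[]⟩⟩,⟨false,1,⟨7,[(0,3),(14,0),(0,2),(0,1),(8,1),(0,1),(7,3)]⟩,⟨2,
  [(2,0),(3,1),(0,0),(1,1),(8,0),(4,0)]⟩⟩,⟨false,0,⟨0,[(33,0)]⟩,⟨0,[(32,0),(2,0)]⟩⟩,⟨true,0,⟨0,[(0,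
  0)]⟩,⟨9,[(2,5),(1,0),(1,0),(0,4),(3,4),(3,0),(2,8),(4,4)]⟩⟩,[]⟩)) (.R ⟨1,false,false,false,[0,0,0,
  1],[0,1],[0,0,0,0,0,0,0,0,1],(⟨0,[(17,0)]⟩,⟨1,[(16,0),(8,0),(0,0)]⟩),(⟨0,[(29,0)]⟩,⟨0,[(28,0)]⟩),
  ⟨0,[(2,0)]⟩,.k,.k,(.r (-1) ⟨0,[(0,0),(14,0),(14,0)]⟩ ⟨7,[(3,1),(1,1),(8,1),(1,0),(2,0),(0,1),(1,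
  1),(0,2),(8,3)]⟩),(.r (-1) ⟨0,[(0,0),(14,0),(14,0)]⟩ ⟨7,[(3,1),(1,1),(8,1),(1,0),(2,0),(0,1),(1,
  1),(0,2),(8,3)]⟩),(.r (-2) ⟨1,[(1,1),(13,1),(8,1),(8,0),(0,0)]⟩ ⟨1,[(3,1),(9,0),(6,1),(4,0),(0,0),
  (3,1),(1,1)]⟩),.k,⟨true,1,⟨0,[(0,0),(14,0),(14,0)]⟩,⟨1,[(3,1),(9,0),(6,1),(4,0),(0,0),(3,1)]⟩⟩,
  ⟨false,1,⟨0,[(17,0),(15,0)]⟩,⟨1,[(16,0),(2,0),(2,0)]⟩⟩,⟨false,1,⟨3,[(14,0),(0,0),(18,1)]⟩,⟨0,[]⟩⟩,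
  ⟨false,0,⟨0,[(5,0)]⟩,⟨15,[(6,3),(3,1),(4,7),(0,7),(10,0),(3,9),(2,6)]⟩⟩,⟨true,0,⟨0,[(32,0)]⟩,⟨0,
  [(31,0)]⟩⟩,⟨false,0,⟨0,[(5,0),(26,0)]⟩,⟨3,[(1,1),(6,1),(3,1),(2,2),(0,1),(7,1),(5,1),(3,0)]⟩⟩,[.o
  ⟨false,0,⟨0,[(32,0)]⟩,⟨1,[(27,0),(3,1),(2,0)]⟩⟩,.o ⟨false,1,⟨3,[(14,0),(0,0),(16,3),(1,1)]⟩,⟨4,
  [(6,2),(3,0),(7,0),(12,0)]⟩⟩,.a ⟨true,0,⟨1,[(16,0),(8,0),(0,0)]⟩,⟨0,[(17,0)]⟩⟩ ⟨false,1,⟨1,[(15,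
  0),(18,0)]⟩,⟨17,[(1,3),(1,3),(1,3),(8,2),(1,1),(10,0)]⟩⟩ ⟨true,0,⟨0,[(17,0),(14,0)]⟩,⟨9,[(6,2),(3,
  0),(5,4),(1,0),(12,5)]⟩⟩,.o ⟨false,0,⟨1,[(16,0),(2,0),(2,0)]⟩,⟨1,[(17,1),(9,0),(5,0)]⟩⟩]⟩)) (.I
  [0,0,-1,-1,1,0,0,0,1] (.R ⟨1,false,false,false,[0,0,0,1],[0,1],[0,0,0,0,0,0,0,0,1],(⟨0,[(17,0)]⟩,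
  ⟨1,[(16,0),(8,0),(0,0)]⟩),(⟨0,[(29,0)]⟩,⟨0,[(28,0)]⟩),⟨0,[(2,0)]⟩,.k,.k,(.r (-1) ⟨0,[(0,0)]⟩ ⟨19,
  [(1,3),(1,5),(1,5),(8,5),(1,2),(2,2),(0,9),(2,6)]⟩),(.r (-1) ⟨0,[(0,0)]⟩ ⟨19,[(1,3),(1,5),(1,5),
  (8,5),(1,2),(2,2),(0,9),(2,6)]⟩),(.r (-2) ⟨1,[(0,1),(30,1),(1,0),(0,0)]⟩ ⟨5,[(1,1),(1,5),(1,1),(7,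
  3),(2,0),(3,7),(4,2),(0,2),(3,3)]⟩),.k,⟨true,1,⟨0,[(0,0)]⟩,⟨1,[(3,1),(9,0),(6,1),(4,0),(0,0),(3,
  1)]⟩⟩,⟨false,1,⟨0,[(17,0),(15,0)]⟩,⟨1,[(16,0),(2,0),(2,0)]⟩⟩,⟨false,1,⟨3,[(14,0),(0,0),(18,1)]⟩,
  ⟨0,[]⟩⟩,⟨false,0,⟨0,[(5,0)]⟩,⟨15,[(6,3),(3,1),(4,7),(0,7),(10,0),(3,9),(2,6)]⟩⟩,⟨true,0,⟨0,[(32,
  0)]⟩,⟨0,[(31,0)]⟩⟩,⟨false,0,⟨0,[(5,0),(26,0)]⟩,⟨11,[(0,9),(5,3),(3,1),(4,0),(0,5),(13,9),(0,7),(2,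
  0)]⟩⟩,[.o ⟨false,0,⟨0,[(32,0)]⟩,⟨1,[(27,0),(3,1),(2,0)]⟩⟩,.o ⟨false,1,⟨3,[(14,0),(0,0),(16,3),(1,
  1)]⟩,⟨4,[(6,2),(3,0),(7,0),(12,0)]⟩⟩,.a ⟨true,0,⟨1,[(16,0),(8,0),(0,0)]⟩,⟨0,[(17,0)]⟩⟩ ⟨false,1,
  ⟨1,[(15,0),(18,0)]⟩,⟨9,[(3,1),(1,5),(2,1),(3,3),(0,0),(0,0),(1,2),(14,1),(1,0)]⟩⟩ ⟨true,0,⟨0,[(17,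
  0),(14,0)]⟩,⟨9,[(6,2),(3,0),(5,4),(1,0),(12,5)]⟩⟩,.o ⟨false,0,⟨1,[(16,0),(2,0),(2,0)]⟩,⟨1,[(17,1),
  (9,0),(5,0)]⟩⟩]⟩) (.R ⟨1,false,false,false,[0,0,0,1],[0,1],[1,1,0,-1,0,0,0,0,1],(⟨0,[(17,0)]⟩,⟨1,
  [(16,0),(8,0),(0,0)]⟩),(⟨0,[(29,0)]⟩,⟨0,[(28,0)]⟩),⟨0,[(2,0)]⟩,.k,.k,(.x 0 ⟨1,[(2,0),(1,0),(14,0),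
  (2,0)]⟩ ⟨3,[(14,0),(0,0),(13,3),(3,1)]⟩),(.x 0 ⟨1,[(2,0),(1,0),(14,0),(2,0)]⟩ ⟨3,[(14,0),(0,0),
  (13,3),(3,1)]⟩),(.r (-2) ⟨1,[(8,1),(3,1),(2,0),(9,1),(0,1),(6,1),(0,0)]⟩ ⟨6,[(0,7),(0,2),(12,0),
  (5,2),(2,2)]⟩),.k,⟨true,1,⟨1,[(8,1),(3,1),(2,0),(9,1),(0,1),(6,0)]⟩,⟨5,[(0,5),(0,1),(3,1),(7,0),
  (2,0),(3,1),(9,3)]⟩⟩,⟨false,1,⟨0,[(17,0),(15,0)]⟩,⟨1,[(16,0),(2,0),(2,0)]⟩⟩,⟨true,0,⟨0,[(31,0)]⟩,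
  ⟨0,[(32,0)]⟩⟩,⟨false,0,⟨0,[(5,0)]⟩,⟨15,[(6,3),(3,1),(4,7),(0,7),(10,0),(3,9),(2,6)]⟩⟩,⟨false,0,⟨0,
  []⟩,⟨3,[(14,0),(0,0),(18,1)]⟩⟩,⟨false,0,⟨0,[(5,0),(26,0)]⟩,⟨1,[(8,1),(3,1),(2,0),(0,0),(8,0),(0,
  0),(7,0)]⟩⟩,[.o ⟨false,0,⟨0,[(32,0)]⟩,⟨1,[(27,0),(3,1),(2,0)]⟩⟩,.o ⟨false,1,⟨3,[(14,0),(0,0),(16,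
  3),(1,1)]⟩,⟨4,[(6,2),(3,0),(7,0),(12,0)]⟩⟩,.a ⟨true,0,⟨1,[(16,0),(8,0),(0,0)]⟩,⟨0,[(17,0)]⟩⟩
  ⟨false,1,⟨1,[(15,0),(15,1),(2,0)]⟩,⟨1,[(0,1),(32,0),(0,0)]⟩⟩ ⟨true,0,⟨0,[(17,0),(14,0)]⟩,⟨9,[(6,
  2),(3,0),(5,4),(1,0),(12,5)]⟩⟩,.o ⟨false,0,⟨1,[(16,0),(2,0),(2,0)]⟩,⟨1,[(17,1),(9,0),(5,
  0)]⟩⟩]⟩))))) (.I [0,0,-1,-1,1,0,0,0,1] (.R ⟨0,false,false,true,[1,0,0,-1],[1,-1],[0,1,0,0,0,0,0,0,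
  -1],(⟨1,[(13,0),(8,0),(0,0)]⟩,⟨0,[(14,0)]⟩),(⟨0,[(25,0)]⟩,⟨0,[(26,0)]⟩),⟨0,[(1,0)]⟩,.k,.k,(.x 0
  ⟨0,[(6,0),(12,0),(5,0)]⟩ ⟨3,[(11,0),(0,0),(13,3),(3,1)]⟩),(.r 0 ⟨1,[(2,1),(10,0),(2,0),(2,0),(13,
  1)]⟩ ⟨0,[(0,0)]⟩),.k,.k,⟨false,0,⟨1,[(2,1),(10,0),(1,0),(1,0)]⟩,⟨0,[(0,0)]⟩⟩,⟨true,0,⟨1,[(13,0),
  (2,0),(2,0)]⟩,⟨0,[(14,0)]⟩⟩,⟨true,0,⟨0,[(33,0)]⟩,⟨0,[]⟩⟩,⟨false,1,⟨15,[(3,3),(3,1),(4,7),(0,7),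
  (10,0),(3,9),(2,6)]⟩,⟨0,[(2,0)]⟩⟩,⟨false,0,⟨0,[]⟩,⟨0,[]⟩⟩,⟨false,0,⟨0,[]⟩,⟨0,[]⟩⟩,[.o ⟨false,0,⟨4,
  [(3,2),(3,0),(7,0),(12,0)]⟩,⟨3,[(11,0),(0,0),(16,3),(1,1)]⟩⟩,.o ⟨false,1,⟨1,[(24,0),(3,1),(2,0)]⟩,
  ⟨0,[(29,0)]⟩⟩,.a ⟨true,0,⟨0,[(14,0)]⟩,⟨1,[(13,0),(8,0),(0,0)]⟩⟩ ⟨false,0,⟨9,[(2,9),(0,2),(3,0),(5,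
  4),(1,0),(12,5)]⟩,⟨1,[(12,0),(18,0)]⟩⟩ ⟨true,0,⟨9,[(3,2),(3,0),(5,4),(1,0),(12,5)]⟩,⟨0,[(14,0),
  (14,0)]⟩⟩,.o ⟨false,0,⟨0,[(6,0),(7,0),(4,0)]⟩,⟨7,[(11,0),(0,0),(0,3),(10,1),(5,3)]⟩⟩]⟩) (.R ⟨0,
  false,false,false,[0,0,0,1],[0,1],[1,0,1,1],(⟨0,[(14,0)]⟩,⟨1,[(13,0),(8,0),(0,0)]⟩),(⟨0,[(26,0)]⟩,
  ⟨0,[(25,0)]⟩),⟨0,[(1,0),(11,0)]⟩,.k,.k,(.x 0 ⟨4,[(0,1),(2,0),(1,0),(6,0),(3,0),(2,0),(4,0),(0,4),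
  (1,0)]⟩ ⟨3,[(11,0),(0,0),(13,3),(3,1)]⟩),(.x 0 ⟨4,[(0,1),(2,0),(1,0),(6,0),(3,0),(2,0),(4,0),(0,
  4),(1,0)]⟩ ⟨3,[(11,0),(0,0),(13,3),(3,1)]⟩),.k,.k,⟨true,0,⟨0,[]⟩,⟨1,[(19,0),(0,0)]⟩⟩,⟨false,1,⟨0,
  [(14,0),(15,0)]⟩,⟨1,[(13,0),(2,0),(2,0)]⟩⟩,⟨true,(-1),⟨0,[(0,0)]⟩,⟨1,[(12,0),(15,1),(1,0)]⟩⟩,
  ⟨false,0,⟨0,[(2,0)]⟩,⟨15,[(3,3),(3,1),(4,7),(0,7),(10,0),(3,9),(2,6)]⟩⟩,⟨false,0,⟨0,[]⟩,⟨0,[]⟩⟩,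
  ⟨false,0,⟨0,[]⟩,⟨0,[]⟩⟩,[.o ⟨false,0,⟨0,[(29,0)]⟩,⟨1,[(24,0),(3,1),(2,0)]⟩⟩,.o ⟨false,1,⟨3,[(11,
  0),(0,0),(16,3),(1,1)]⟩,⟨4,[(3,2),(3,0),(7,0),(12,0)]⟩⟩,.a ⟨true,0,⟨1,[(13,0),(8,0),(0,0)]⟩,⟨0,
  [(14,0)]⟩⟩ ⟨false,0,⟨0,[(27,0),(1,0)]⟩,⟨1,[(28,1),(1,0),(0,0)]⟩⟩ ⟨true,0,⟨0,[(14,0),(14,0)]⟩,⟨9,
  [(3,2),(3,0),(5,4),(1,0),(12,5)]⟩⟩,.o ⟨false,0,⟨1,[(13,0),(2,0),(2,0)]⟩,⟨1,[(14,1),(9,0),(5,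
  0)]⟩⟩]⟩)))))

theorem ok5 : chk (cU (-1) false 2) t5 l5 = true := by decide +kernel

noncomputable def t6 : Tre :=
  (.Q [0,0,2,1,-1,0,-2,-1,0,-1,2] (.p true [0,0,1] [1,0,-1] (⟨0,[(19,0)]⟩,⟨0,[(18,0)]⟩) .k 2 (⟨0,
  [(18,0)]⟩,⟨0,[(19,0)]⟩) .k (.r (-1) ⟨0,[(6,0),(6,1),(4,0),(0,0),(7,0)]⟩ ⟨0,[(17,1)]⟩)) (.I [0,0,1,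
  0,0,-1,2] (.I [0,0,2,2,-1,0,0,-1] (.Q [0,0,1,0,0,0,2,0,0,1,-2] (.p false [0,0,1] [1,0,-1] (⟨0,
  [(22,0)]⟩,⟨0,[(21,0)]⟩) .k 2 (⟨0,[(21,0)]⟩,⟨0,[(22,0)]⟩) .k (.r (-1) ⟨0,[(9,0),(6,1),(4,0),(0,0),
  (7,0)]⟩ ⟨0,[(20,1)]⟩)) (.K ⟨2,[1,1,-1],0,0,(⟨0,[(22,0),(3,0)]⟩,⟨0,[(4,0)]⟩),.k,.k,(.r 1 ⟨0,[(1,
  0)]⟩ ⟨1,[(9,1),(0,0),(11,0),(0,0),(4,1),(1,1),(0,1)]⟩),(.x (-1) ⟨1,[(10,1),(11,3),(1,0),(1,1),(3,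
  0)]⟩ ⟨0,[(2,0)]⟩),.k,[⟨0,[(0,0)]⟩,⟨0,[(6,0)]⟩,⟨0,[(9,0),(12,0),(0,0)]⟩,⟨0,[(15,0),(13,0)]⟩]⟩) (.Q
  [0,-1,0,2,0,0,-1,-1,0,0,1] (.p true [0,0,1] [] (⟨0,[(23,0)]⟩,⟨0,[(22,0)]⟩) .k 0 (⟨0,[]⟩,⟨0,[]⟩)
  .k .k) (.R ⟨1,true,false,false,[0,0,1],[0,1],[1,0,0,-1,0,0,0,1],(⟨0,[(24,0)]⟩,⟨0,[(23,0)]⟩),(⟨0,
  [(27,0)]⟩,⟨0,[(26,0)]⟩),⟨0,[(5,0)]⟩,.k,.k,.k,.k,(.r (-2) ⟨2,[(1,0),(8,2),(10,0),(1,0),(0,0),(4,2),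
  (1,2),(0,2)]⟩ ⟨0,[(2,0)]⟩),.k,⟨true,1,⟨3,[(1,1),(4,1),(3,5),(12,3),(0,3),(6,0),(0,2)]⟩,⟨0,[(2,
  0)]⟩⟩,⟨false,1,⟨2,[(1,0),(19,0),(1,0),(0,0),(6,2)]⟩,⟨0,[(20,0)]⟩⟩,⟨false,1,⟨0,[(29,0),(2,0)]⟩,⟨0,
  [(30,0)]⟩⟩,⟨true,0,⟨1,[(0,0),(18,0)]⟩,⟨0,[(10,0)]⟩⟩,⟨true,0,⟨0,[]⟩,⟨0,[(34,0)]⟩⟩,⟨false,0,⟨0,[(0,
  0)]⟩,⟨0,[(10,0),(18,0),(2,0)]⟩⟩,[]⟩) (.I [0,0,-2,-2,1,0,0,-1] (.Q [0,0,-1,0,1,0,2,0,0,1,-2] (.p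
  false [0,0,1] [1,0,-1] (⟨0,[(25,0)]⟩,⟨0,[(24,0)]⟩) .k 2 (⟨0,[(24,0)]⟩,⟨0,[(25,0)]⟩) .k (.r (-1)
  ⟨2,[(2,1),(16,5),(2,1),(1,1),(0,1),(7,2)]⟩ ⟨0,[(0,0),(2,0)]⟩)) (.K ⟨2,[1,-1,-1],(-1),0,(⟨0,[(11,
  0)]⟩,⟨0,[(26,0),(2,0)]⟩),.k,(.r (-1) ⟨0,[(1,0)]⟩ ⟨0,[(20,0),(2,0),(6,0),(1,1)]⟩),.k,(.r (-1) ⟨0,
  [(0,0),(9,0)]⟩ ⟨0,[(3,0),(16,1),(4,0),(0,0),(3,1),(1,0)]⟩),.k,[⟨0,[(0,0)]⟩,⟨0,[(2,0),(0,0),(0,0),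
  (25,0)]⟩,⟨0,[(20,0),(4,0),(0,0),(5,0)]⟩,⟨2,[(2,0),(7,0),(7,1)]⟩]⟩) (.Q [0,0,0,0,0,0,1,1,1,1,-1,
  -1] (.p false [0,0,1] [1,0,0,-1] (⟨0,[(26,0)]⟩,⟨0,[(25,0)]⟩) .k 2 (⟨1,[(16,0),(8,0),(0,0)]⟩,⟨0,
  [(17,0)]⟩) .k (.x (-1) ⟨7,[(5,3),(8,2),(0,2),(13,3),(3,1)]⟩ ⟨3,[(0,0),(2,0),(21,3),(1,0)]⟩)) (.R
  ⟨1,false,false,true,[1,0,0,-1],[0,0,1],[0,0,0,0,0,0,0,0,-1],(⟨1,[(17,0),(8,0),(0,0)]⟩,⟨0,[(18,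
  0)]⟩),(⟨0,[(27,0)]⟩,⟨0,[(26,0)]⟩),⟨1,[(8,0),(3,0),(4,0)]⟩,.k,.k,(.x 0 ⟨2,[(6,0),(5,1),(7,1)]⟩ ⟨3,
  [(15,0),(0,0),(13,3),(3,1)]⟩),.k,(.r (-1) ⟨3,[(2,2),(2,0),(9,1)]⟩ ⟨25,[(0,11),(0,11),(3,3),(10,6),
  (1,11),(2,17),(2,5),(8,17),(1,8)]⟩),.k,⟨true,1,⟨1,[(2,0),(2,0),(9,0),(19,0)]⟩,⟨3,[(0,3),(0,1),(0,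
  0),(1,1),(0,2),(7,3),(4,3)]⟩⟩,⟨false,1,⟨1,[(0,1),(1,0),(2,0),(9,0),(18,0)]⟩,⟨3,[(1,0),(2,0),(13,
  3),(9,0)]⟩⟩,⟨false,1,⟨3,[(15,0),(0,0),(18,1)]⟩,⟨0,[]⟩⟩,⟨false,0,⟨0,[(0,0)]⟩,⟨11,[(2,2),(1,3),(0,
  4),(3,3),(5,5),(2,11),(9,1),(6,5)]⟩⟩,⟨true,0,⟨0,[(33,0)]⟩,⟨0,[(32,0)]⟩⟩,⟨false,0,⟨0,[(0,0),(32,
  0)]⟩,⟨1,[(9,1),(5,0),(2,1),(16,0)]⟩⟩,[.o ⟨false,0,⟨0,[(21,0)]⟩,⟨11,[(5,0),(1,0),(3,2),(10,3),(5,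
  3),(5,1),(0,7)]⟩⟩,.o ⟨false,1,⟨3,[(15,0),(0,0),(4,3),(13,1)]⟩,⟨11,[(2,2),(1,3),(0,4),(3,3),(18,
  1)]⟩⟩,.a ⟨true,0,⟨0,[(18,0)]⟩,⟨1,[(17,0),(8,0),(0,0)]⟩⟩ ⟨false,1,⟨1,[(15,0),(19,0)]⟩,⟨11,[(0,11),
  (1,2),(1,3),(0,4),(3,3),(8,11),(9,1)]⟩⟩ ⟨true,0,⟨1,[(17,0),(3,1),(4,0),(0,0)]⟩,⟨11,[(2,2),(1,3),
  (0,4),(3,3),(8,11),(9,1)]⟩⟩,.o ⟨false,0,⟨2,[(1,0),(16,2),(4,1),(4,0)]⟩,⟨7,[(15,0),(0,0),(0,3),(10,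
  1),(5,3)]⟩⟩]⟩) (.Q [0,0,0,0,0,0,1,1,-1,0,-1,1] (.p false [0,0,1] [0,0,0,1] (⟨0,[(27,0)]⟩,⟨0,[(26,
  0)]⟩) .k 2 (⟨0,[(18,0)]⟩,⟨1,[(17,0),(8,0),(0,0)]⟩) .k (.x (-1) ⟨7,[(6,3),(8,2),(0,2),(13,3),(3,
  1)]⟩ ⟨3,[(1,0),(2,0),(21,3),(1,0)]⟩)) (.R ⟨1,false,false,false,[1,0,0,-1],[1,-1,-1],[0,1,0,0,0,0,
  0,0,-1],(⟨1,[(18,0),(8,0),(0,0)]⟩,⟨0,[(19,0)]⟩),(⟨0,[(13,0)]⟩,⟨0,[(28,0),(2,0)]⟩),⟨1,[(9,0),(3,0),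
  (4,0)]⟩,.k,.k,(.x 0 ⟨2,[(7,0),(5,1),(7,1)]⟩ ⟨3,[(16,0),(0,0),(13,3),(3,1)]⟩),(.r 0 ⟨1,[(0,1),(17,
  0),(2,0),(3,0),(8,1)]⟩ ⟨3,[(3,2),(2,0),(10,1)]⟩),.k,.k,⟨true,(-1),⟨1,[(0,1),(4,1),(0,1),(7,1),(3,
  0),(8,0),(0,0)]⟩,⟨3,[(3,2),(2,0),(10,1),(14,3)]⟩⟩,⟨false,0,⟨1,[(15,0),(2,0)]⟩,⟨0,[(19,0),(4,0),
  (10,0)]⟩⟩,⟨true,0,⟨0,[(38,0)]⟩,⟨0,[]⟩⟩,⟨false,1,⟨19,[(2,1),(0,4),(0,0),(7,7),(4,9),(0,9),(6,0),(6,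
  6),(3,6)]⟩,⟨0,[(0,0),(33,0)]⟩⟩,⟨false,0,⟨0,[(34,0)]⟩,⟨15,[(3,3),(0,3),(11,0),(0,0),(6,1),(0,5),
  (10,9)]⟩⟩,⟨false,1,⟨7,[(6,0),(1,0),(3,2),(4,3),(0,3),(16,1),(0,3)]⟩,⟨0,[(0,0)]⟩⟩,[.o ⟨false,0,⟨0,
  [(10,0)]⟩,⟨3,[(16,0),(0,0),(4,3),(11,3),(1,1)]⟩⟩,.o ⟨false,1,⟨9,[(4,1),(7,5),(3,0),(0,0),(11,1),
  (6,5)]⟩,⟨0,[(22,0),(11,0)]⟩⟩,.a ⟨true,0,⟨0,[(19,0)]⟩,⟨1,[(18,0),(8,0),(0,0)]⟩⟩ ⟨false,0,⟨1,[(0,0),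
  (0,0),(16,0)]⟩,⟨1,[(17,0),(18,0)]⟩⟩ ⟨true,0,⟨13,[(2,1),(0,2),(0,1),(1,0),(5,5),(5,6),(8,0),(0,0),
  (3,1)]⟩,⟨0,[(19,0),(2,0),(11,0)]⟩⟩,.o ⟨false,0,⟨2,[(2,0),(16,2),(4,1),(4,0)]⟩,⟨7,[(16,0),(0,0),(0,
  3),(10,1),(5,3)]⟩⟩]⟩) (.I [0,0,0,0,0,0,0,0,-1] (.R ⟨1,false,false,false,[1,0,0,-1],[1,-1],[0,0,0,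
  0,0,0,0,0,-1],(⟨1,[(19,0),(8,0),(0,0)]⟩,⟨0,[(20,0)]⟩),(⟨0,[(31,0)]⟩,⟨0,[(32,0)]⟩),⟨1,[(10,0),(3,
  0),(4,0)]⟩,.k,.k,(.r (-1) ⟨15,[(0,1),(3,3),(0,3),(0,1),(10,6),(10,1),(0,1),(6,2),(0,1)]⟩ ⟨0,[(1,
  0),(18,0),(2,0),(9,0),(1,0)]⟩),(.r 0 ⟨6,[(0,0),(2,0),(3,1),(9,2),(5,1),(4,0),(0,0),(3,1),(1,2)]⟩
  ⟨3,[(1,1),(3,1),(12,0),(1,1),(15,1),(0,0)]⟩),.k,.k,⟨false,0,⟨0,[(0,0),(34,0)]⟩,⟨3,[(1,1),(3,1),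
  (12,0),(1,1),(15,1),(0,0)]⟩⟩,⟨true,0,⟨1,[(19,0),(2,0),(2,0)]⟩,⟨0,[(20,0)]⟩⟩,⟨false,1,⟨3,[(17,0),
  (0,0),(18,1)]⟩,⟨0,[]⟩⟩,⟨false,1,⟨0,[(1,0),(13,0),(21,0)]⟩,⟨0,[(0,0),(19,0),(14,0)]⟩⟩,⟨true,0,⟨0,
  [(35,0)]⟩,⟨0,[(34,0)]⟩⟩,⟨false,1,⟨0,[(1,0),(21,0),(13,0)]⟩,⟨0,[(0,0),(19,0)]⟩⟩,[.o ⟨false,1,⟨4,
  [(5,1),(7,0),(3,0),(0,0),(11,1),(6,0)]⟩,⟨0,[(35,0)]⟩⟩,.o ⟨false,1,⟨2,[(5,0),(5,0),(18,0),(6,1)]⟩,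
  ⟨0,[(35,0),(3,0)]⟩⟩,.a ⟨true,0,⟨0,[(20,0)]⟩,⟨1,[(19,0),(8,0),(0,0)]⟩⟩ ⟨true,0,⟨0,[(0,0)]⟩,⟨0,[(1,
  0),(18,0),(2,0)]⟩⟩ ⟨false,1,⟨39,[(5,15),(7,7),(3,2),(0,2),(0,19),(10,5),(6,27)]⟩,⟨0,[(20,0),(14,
  0)]⟩⟩,.o ⟨false,0,⟨2,[(3,0),(16,2),(4,1),(4,0)]⟩,⟨7,[(17,0),(0,0),(0,3),(10,1),(5,3)]⟩⟩]⟩) (.Q [0,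
  -1,0,-1,1,0,1,1,-1,0,-1,1] (.p false [0,0,1] [0,0,0,1] (⟨0,[(29,0)]⟩,⟨0,[(28,0)]⟩) .k 2 (⟨0,[(20,
  0)]⟩,⟨1,[(19,0),(8,0),(0,0)]⟩) .k (.r (-1) ⟨5,[(6,1),(10,2),(5,5),(2,1),(1,1),(0,1),(7,2)]⟩ ⟨1,
  [(0,1),(3,0),(2,0)]⟩)) (.R ⟨1,false,false,true,[1,0,0,-1],[1,0,-1],[0,1,0,0,0,0,0,0,-1],(⟨1,[(20,
  0),(8,0),(0,0)]⟩,⟨0,[(21,0)]⟩),(⟨0,[(29,0)]⟩,⟨0,[(30,0)]⟩),⟨1,[(11,0),(3,0),(4,0)]⟩,.k,.k,(.r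
  (-1) ⟨13,[(0,1),(4,3),(0,1),(0,1),(10,5),(1,0),(8,0),(0,0),(6,1)]⟩ ⟨3,[(1,1),(6,0),(10,0),(4,0),
  (2,0),(6,0),(1,1)]⟩),.k,(.r (-1) ⟨3,[(0,1),(6,1),(8,1),(1,0),(1,0),(8,0),(0,0),(6,0)]⟩ ⟨3,[(5,0),
  (2,2),(10,1)]⟩),.k,⟨false,1,⟨3,[(0,1),(6,1),(10,0),(1,0),(3,1),(4,0),(0,0),(5,1),(0,0)]⟩,⟨1,[(1,
  1),(3,0),(2,0)]⟩⟩,⟨true,0,⟨1,[(17,0),(2,0)]⟩,⟨0,[(21,0),(4,0)]⟩⟩,⟨true,0,⟨0,[(40,0)]⟩,⟨0,[]⟩⟩,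
  ⟨false,0,⟨0,[(2,0)]⟩,⟨0,[(0,0),(35,0)]⟩⟩,⟨false,0,⟨0,[(36,0)]⟩,⟨9,[(0,3),(4,0),(0,0),(7,1),(4,1),
  (0,1),(6,0),(6,0),(3,2)]⟩⟩,⟨false,0,⟨0,[(2,0),(33,0)]⟩,⟨0,[(0,0)]⟩⟩,[.o ⟨false,0,⟨0,[(22,0)]⟩,⟨0,
  [(24,0),(13,0)]⟩⟩,.o ⟨false,0,⟨11,[(5,2),(1,3),(0,4),(3,3),(18,1)]⟩,⟨3,[(18,0),(0,0),(4,3),(13,
  1)]⟩⟩,.a ⟨true,0,⟨0,[(21,0)]⟩,⟨1,[(20,0),(8,0),(0,0)]⟩⟩ ⟨true,0,⟨1,[(3,1),(16,0),(3,1),(4,0),(0,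
  0)]⟩,⟨0,[(1,0)]⟩⟩ ⟨false,0,⟨7,[(8,0),(1,0),(3,2),(5,3),(16,1)]⟩,⟨0,[(0,0),(0,0),(34,0)]⟩⟩,.o
  ⟨false,0,⟨2,[(4,0),(16,2),(4,1),(4,0)]⟩,⟨7,[(18,0),(0,0),(0,3),(10,1),(5,3)]⟩⟩]⟩) (.R ⟨1,false,
  false,false,[1,0,0,-1],[0,1],[0,0,0,0,0,0,0,0,-1],(⟨1,[(20,0),(8,0),(0,0)]⟩,⟨0,[(21,0)]⟩),(⟨0,
  [(33,0)]⟩,⟨0,[(32,0)]⟩),⟨1,[(11,0),(3,0),(4,0)]⟩,.k,.k,(.r (-1) ⟨3,[(3,1),(2,1),(11,0),(1,0),(8,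
  0),(0,0),(6,1),(0,0)]⟩ ⟨3,[(1,1),(6,0),(10,0),(4,0),(2,0),(6,0),(1,1)]⟩),(.r (-1) ⟨3,[(3,1),(2,1),
  (11,0),(1,0),(8,0),(0,0),(6,1),(0,0)]⟩ ⟨3,[(1,1),(6,0),(10,0),(4,0),(2,0),(6,0),(1,1)]⟩),(.r (-2)
  ⟨3,[(5,1),(0,1),(11,1),(8,1),(9,2),(0,0)]⟩ ⟨0,[(0,0),(20,0),(2,0),(9,1),(1,0)]⟩),.k,⟨true,1,⟨3,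
  [(3,1),(2,1),(11,0),(1,0),(8,0),(0,0),(6,1),(0,0)]⟩,⟨0,[(0,0),(20,0),(2,0),(9,1)]⟩⟩,⟨false,1,⟨1,
  [(20,0),(8,0),(0,0),(6,1)]⟩,⟨2,[(4,0),(16,2),(4,1),(4,0)]⟩⟩,⟨false,1,⟨3,[(18,0),(0,0),(18,1)]⟩,⟨0,
  []⟩⟩,⟨true,0,⟨1,[(1,1),(18,0),(8,0),(0,0),(5,1)]⟩,⟨0,[(3,0),(12,0)]⟩⟩,⟨true,0,⟨0,[(36,0)]⟩,⟨0,
  [(35,0)]⟩⟩,⟨true,0,⟨1,[(1,1),(18,0),(8,0),(0,0),(5,3)]⟩,⟨0,[(3,0),(2,0)]⟩⟩,[.o ⟨false,0,⟨0,[(36,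
  0)]⟩,⟨4,[(6,1),(7,0),(3,0),(0,0),(11,1),(6,0)]⟩⟩,.o ⟨false,1,⟨3,[(18,0),(0,0),(16,3),(1,1)]⟩,⟨2,
  [(0,0),(2,0),(2,1),(24,0)]⟩⟩,.a ⟨true,0,⟨0,[(21,0)]⟩,⟨1,[(20,0),(8,0),(0,0)]⟩⟩ ⟨false,1,⟨1,[(18,
  0),(19,0)]⟩,⟨0,[(1,0)]⟩⟩ ⟨true,0,⟨1,[(20,0),(8,0),(0,0),(5,1)]⟩,⟨2,[(0,0),(2,0),(2,1),(14,2),(9,
  0)]⟩⟩,.o ⟨false,0,⟨2,[(4,0),(16,2),(4,1),(4,0)]⟩,⟨7,[(18,0),(0,0),(0,3),(10,1),(5,3)]⟩⟩]⟩))))))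
  (.Q [0,0,0,-2,0,0,0,0,-1,-1,0,1] (.p true [0,0,0,1] [1] (⟨0,[(16,0)]⟩,⟨1,[(15,0),(8,0),(0,0)]⟩)
  .k 1 (⟨0,[]⟩,⟨0,[]⟩) .k .k) (.Q [0,-1,-2,0,1,0,0,0,-1,0,0,1] (.p true [0,0,0,1] [] (⟨0,[(17,0)]⟩,
  ⟨1,[(16,0),(8,0),(0,0)]⟩) .k 0 (⟨0,[]⟩,⟨0,[]⟩) .k .k) (.R ⟨1,false,false,false,[1,0,0,-1],[0,1],
  [0,1,0,0,0,0,0,0,-1],(⟨1,[(17,0),(8,0),(0,0)]⟩,⟨0,[(18,0)]⟩),(⟨0,[(30,0)]⟩,⟨0,[(29,0)]⟩),⟨1,[(8,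
  0),(3,0),(4,0)]⟩,.k,.k,(.r (-1) ⟨9,[(0,3),(2,3),(7,1),(3,3),(0,0),(0,1),(16,0)]⟩ ⟨3,[(2,0),(2,0),
  (10,1)]⟩),(.r (-1) ⟨9,[(0,3),(2,3),(7,1),(3,3),(0,0),(0,1),(16,0)]⟩ ⟨3,[(2,0),(2,0),(10,1)]⟩),(.r
  (-1) ⟨3,[(0,2),(0,0),(1,1),(7,0),(5,1),(14,0),(1,0)]⟩ ⟨3,[(2,1),(2,1),(9,0),(0,2)]⟩),.k,⟨true,0,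
  ⟨1,[(0,1),(2,1),(0,1),(0,1),(7,1),(3,0),(7,1),(0,0),(0,0)]⟩,⟨3,[(2,0),(2,0),(10,1),(14,3)]⟩⟩,
  ⟨false,1,⟨1,[(17,0),(8,0),(0,0),(6,1)]⟩,⟨3,[(1,1),(0,0),(2,0),(10,0),(1,1),(9,0)]⟩⟩,⟨true,0,⟨0,
  [(37,0)]⟩,⟨0,[]⟩⟩,⟨false,1,⟨3,[(0,1),(1,0),(2,0),(10,2),(0,2),(8,0),(0,0),(7,0)]⟩,⟨35,[(0,7),(0,
  27),(0,0),(1,3),(0,8),(15,7),(6,1)]⟩⟩,⟨false,0,⟨0,[(33,0)]⟩,⟨0,[(32,0),(2,0)]⟩⟩,⟨false,1,⟨1,[(0,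
  1),(1,0),(2,0),(10,1),(0,1)]⟩,⟨0,[(1,0)]⟩⟩,[.o ⟨false,0,⟨0,[(33,0)]⟩,⟨4,[(3,1),(7,0),(3,0),(0,0),
  (11,1),(6,0)]⟩⟩,.o ⟨false,1,⟨3,[(15,0),(0,0),(16,3),(1,1)]⟩,⟨0,[(9,0),(11,0)]⟩⟩,.a ⟨true,0,⟨0,
  [(18,0)]⟩,⟨1,[(17,0),(8,0),(0,0)]⟩⟩ ⟨false,0,⟨3,[(0,1),(0,1),(0,0),(2,0),(11,1),(19,1)]⟩,⟨1,[(16,
  0),(18,0)]⟩⟩ ⟨true,0,⟨1,[(17,0),(8,0),(0,0),(5,1)]⟩,⟨0,[(9,0),(8,0),(2,0)]⟩⟩,.o ⟨false,0,⟨3,[(1,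
  1),(0,0),(2,0),(10,0),(1,1),(9,0)]⟩,⟨7,[(15,0),(0,0),(0,3),(10,1),(5,3)]⟩⟩]⟩) (.R ⟨1,false,false,
  true,[1,0,0,-1],[0,1],[0,0,0,0,0,0,0,0,-1],(⟨1,[(17,0),(8,0),(0,0)]⟩,⟨0,[(18,0)]⟩),(⟨0,[(30,0)]⟩,
  ⟨0,[(29,0)]⟩),⟨1,[(8,0),(3,0),(4,0)]⟩,.k,.k,(.r (-1) ⟨17,[(1,3),(1,3),(7,1),(3,6),(1,1),(8,3),(0,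
  3),(6,8),(0,1)]⟩ ⟨3,[(2,0),(2,0),(10,1)]⟩),(.r (-1) ⟨17,[(1,3),(1,3),(7,1),(3,6),(1,1),(8,3),(0,
  3),(6,8),(0,1)]⟩ ⟨3,[(2,0),(2,0),(10,1)]⟩),(.r (-1) ⟨1,[(1,1),(15,0),(8,0),(0,0),(6,1)]⟩ ⟨3,[(2,
  1),(2,1),(9,0),(0,2)]⟩),.k,⟨true,1,⟨1,[(1,1),(15,0),(8,0),(0,0),(5,1),(0,0),(0,0)]⟩,⟨0,[(0,0),(17,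
  0),(14,0)]⟩⟩,⟨false,1,⟨1,[(17,0),(8,0),(0,0),(6,1)]⟩,⟨3,[(1,1),(0,0),(2,0),(10,0),(1,1),(9,0)]⟩⟩,
  ⟨false,1,⟨3,[(15,0),(0,0),(18,1)]⟩,⟨0,[]⟩⟩,⟨true,0,⟨0,[(0,0),(25,0),(0,0),(5,0),(0,0)]⟩,⟨0,[(1,0),
  (31,0)]⟩⟩,⟨true,0,⟨0,[(33,0)]⟩,⟨0,[(32,0)]⟩⟩,⟨true,0,⟨0,[(0,0),(25,0),(0,0),(5,1),(0,0)]⟩,⟨0,[(1,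
  0)]⟩⟩,[.o ⟨false,0,⟨0,[(33,0),(3,0)]⟩,⟨2,[(3,0),(5,0),(18,0),(6,1)]⟩⟩,.o ⟨false,0,⟨0,[(33,0)]⟩,⟨4,
  [(3,1),(7,0),(3,0),(0,0),(11,1),(6,0)]⟩⟩,.a ⟨true,0,⟨0,[(18,0)]⟩,⟨1,[(17,0),(8,0),(0,0)]⟩⟩ ⟨true,
  0,⟨1,[(1,1),(15,0),(8,0),(0,0),(5,3)]⟩,⟨0,[(0,0),(17,0),(15,0)]⟩⟩ ⟨false,0,⟨1,[(17,0),(8,0),(0,0),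
  (5,1)]⟩,⟨3,[(1,1),(14,0),(1,1),(9,0),(6,1)]⟩⟩,.o ⟨false,0,⟨3,[(1,1),(0,0),(2,0),(10,0),(1,1),(9,
  0)]⟩,⟨7,[(15,0),(0,0),(0,3),(10,1),(5,3)]⟩⟩]⟩)) (.Q [0,0,0,1,0,0,0,0,-1,0,0,1] (.p true [0,0,0,1]
  [] (⟨0,[(17,0)]⟩,⟨1,[(16,0),(8,0),(0,0)]⟩) .k 0 (⟨0,[]⟩,⟨0,[]⟩) .k .k) (.I [1,0,0,0,0,0,0,0,-1]
  (.I [0,0,0,0,0,0,0,0,-1] (.R ⟨1,false,false,false,[1,0,0,-1],[1,-1],[0,0,0,0,0,0,0,0,-1],(⟨1,[(19,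
  0),(8,0),(0,0)]⟩,⟨0,[(20,0)]⟩),(⟨0,[(31,0)]⟩,⟨0,[(32,0)]⟩),⟨1,[(10,0),(3,0),(4,0)]⟩,.k,.k,(.r
  (-1) ⟨9,[(0,3),(4,3),(7,1),(3,2),(10,1),(0,1),(6,4),(0,1)]⟩ ⟨3,[(4,0),(2,0),(10,1)]⟩),(.r 0 ⟨3,
  [(4,0),(2,0),(9,1)]⟩ ⟨3,[(3,1),(1,3),(0,1),(11,0),(1,1),(6,3),(8,0),(0,1)]⟩),.k,.k,⟨false,0,⟨0,
  [(0,0),(34,0)]⟩,⟨3,[(3,1),(1,3),(0,1),(11,0),(1,1),(6,3),(8,0),(0,1)]⟩⟩,⟨true,0,⟨1,[(19,0),(2,0),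
  (2,0)]⟩,⟨0,[(20,0)]⟩⟩,⟨false,1,⟨3,[(17,0),(0,0),(18,1)]⟩,⟨0,[]⟩⟩,⟨false,1,⟨0,[(3,0),(1,0),(5,0),
  (25,0)]⟩,⟨0,[(2,0)]⟩⟩,⟨true,0,⟨0,[(35,0)]⟩,⟨0,[(34,0)]⟩⟩,⟨false,1,⟨5,[(3,5),(1,3),(5,3),(18,0),(6,
  4)]⟩,⟨0,[(0,0),(19,0)]⟩⟩,[.o ⟨false,1,⟨4,[(5,1),(7,0),(3,0),(0,0),(11,1),(6,0)]⟩,⟨0,[(35,0)]⟩⟩,.o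
  ⟨false,1,⟨2,[(5,0),(5,0),(18,0),(6,1)]⟩,⟨2,[(2,0),(0,0),(17,0),(1,0),(15,0)]⟩⟩,.a ⟨true,0,⟨0,[(20,
  0)]⟩,⟨1,[(19,0),(8,0),(0,0)]⟩⟩ ⟨true,0,⟨0,[(0,0)]⟩,⟨3,[(3,1),(1,1),(0,1),(0,0),(7,1),(2,0),(1,1),
  (6,2)]⟩⟩ ⟨false,1,⟨39,[(5,15),(7,7),(3,2),(0,2),(0,19),(10,5),(6,27)]⟩,⟨0,[(20,0),(14,0)]⟩⟩,.o
  ⟨false,0,⟨15,[(4,2),(0,3),(1,2),(3,3),(8,15),(9,5),(2,3)]⟩,⟨7,[(17,0),(0,0),(0,3),(10,1),(5,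
  3)]⟩⟩]⟩) (.N [0,0,0,1] 0 ⟨0,[(0,0)]⟩ ⟨0,[(1,0)]⟩ .k)) (.R ⟨1,false,false,false,[1,0,0,-1],[0,1],
  [1,0,0,-1,0,0,0,0,-1],(⟨1,[(18,0),(8,0),(0,0)]⟩,⟨0,[(19,0)]⟩),(⟨0,[(31,0)]⟩,⟨0,[(30,0)]⟩),⟨1,[(9,
  0),(3,0),(4,0)]⟩,.k,.k,(.r (-1) ⟨5,[(1,3),(2,3),(7,1),(3,0),(1,1),(16,2),(0,1)]⟩ ⟨3,[(3,0),(2,0),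
  (10,1)]⟩),(.r (-1) ⟨5,[(1,3),(2,3),(7,1),(3,0),(1,1),(16,2),(0,1)]⟩ ⟨3,[(3,0),(2,0),(10,1)]⟩),(.r
  (-2) ⟨5,[(4,3),(7,1),(3,2),(10,1),(0,1),(4,1),(1,5),(0,2)]⟩ ⟨1,[(0,1),(2,0),(2,0)]⟩),.k,⟨true,1,
  ⟨5,[(1,5),(2,7),(0,1),(6,1),(5,2),(7,3),(0,0),(0,0),(6,1),(0,3)]⟩,⟨1,[(0,1),(2,0),(2,0)]⟩⟩,⟨false,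
  1,⟨1,[(18,0),(8,0),(0,0),(6,1)]⟩,⟨15,[(3,2),(0,3),(1,2),(3,3),(8,15),(9,5),(2,3)]⟩⟩,⟨false,1,⟨0,
  [(33,0),(2,0)]⟩,⟨0,[(34,0)]⟩⟩,⟨true,0,⟨3,[(0,1),(1,1),(15,0),(8,0),(0,0)]⟩,⟨0,[(1,0),(8,0),(3,
  0)]⟩⟩,⟨true,0,⟨0,[]⟩,⟨0,[(38,0)]⟩⟩,⟨true,0,⟨0,[(2,0)]⟩,⟨0,[(1,0),(2,0),(5,0)]⟩⟩,[.o ⟨false,0,⟨0,
  [(34,0)]⟩,⟨4,[(4,1),(7,0),(3,0),(0,0),(11,1),(6,0)]⟩⟩,.o ⟨false,1,⟨5,[(1,1),(0,1),(13,0),(0,0),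
  (11,0),(6,2)]⟩,⟨0,[(10,0),(11,0)]⟩⟩,.a ⟨true,0,⟨0,[(19,0)]⟩,⟨1,[(18,0),(8,0),(0,0)]⟩⟩ ⟨false,1,⟨5,
  [(1,3),(2,3),(7,1),(3,0),(1,1),(17,4)]⟩,⟨0,[(0,0),(33,0)]⟩⟩ ⟨true,0,⟨5,[(1,1),(0,1),(15,2),(8,0),
  (0,0)]⟩,⟨0,[(10,0),(8,0),(2,0)]⟩⟩,.o ⟨false,0,⟨15,[(3,2),(0,3),(1,2),(3,3),(8,15),(9,5),(2,3)]⟩,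
  ⟨7,[(16,0),(0,0),(0,3),(10,1),(5,3)]⟩⟩]⟩)) (.Q [0,0,0,-2,0,0,0,0,1,0,0,-1] (.p false [0,0,0,1] []
  (⟨0,[(18,0)]⟩,⟨1,[(17,0),(8,0),(0,0)]⟩) .k 0 (⟨0,[]⟩,⟨0,[]⟩) .k .k) (.I [1,-1,2,1,-1,0,0,0,1] (.R
  ⟨1,false,false,true,[1,0,0,-1],[1,-1],[0,0,0,0,0,0,0,0,-1],(⟨1,[(19,0),(8,0),(0,0)]⟩,⟨0,[(20,
  0)]⟩),(⟨0,[(31,0)]⟩,⟨0,[(32,0)]⟩),⟨1,[(10,0),(3,0),(4,0)]⟩,.k,.k,(.x 0 ⟨2,[(8,0),(5,1),(7,1)]⟩ ⟨3,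
  [(17,0),(0,0),(13,3),(3,1)]⟩),(.r 0 ⟨3,[(4,0),(2,0),(9,1)]⟩ ⟨5,[(1,1),(16,1),(1,1),(13,1),(1,2),
  (0,0)]⟩),.k,.k,⟨false,1,⟨1,[(17,0),(17,1),(1,0)]⟩,⟨0,[(0,0),(5,0),(8,1),(11,1),(0,0),(0,0),(6,
  0)]⟩⟩,⟨true,0,⟨1,[(19,0),(2,0),(2,0)]⟩,⟨0,[(20,0)]⟩⟩,⟨false,1,⟨3,[(17,0),(0,0),(18,1)]⟩,⟨0,[]⟩⟩,
  ⟨false,0,⟨0,[(2,0)]⟩,⟨1,[(17,0),(2,1),(14,1),(1,0)]⟩⟩,⟨true,0,⟨0,[(35,0)]⟩,⟨0,[(34,0)]⟩⟩,⟨false,0,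
  ⟨21,[(0,3),(1,15),(0,1),(2,1),(0,3),(11,1),(3,3),(6,0),(5,6)]⟩,⟨1,[(17,0),(2,1),(16,0)]⟩⟩,[.o
  ⟨false,0,⟨0,[(11,0),(11,0)]⟩,⟨3,[(3,1),(13,0),(2,1),(9,0),(6,1)]⟩⟩,.o ⟨false,1,⟨4,[(5,1),(7,0),(3,
  0),(0,0),(11,1),(6,0)]⟩,⟨0,[(35,0)]⟩⟩,.a ⟨true,0,⟨0,[(20,0)]⟩,⟨1,[(19,0),(8,0),(0,0)]⟩⟩ ⟨false,1,
  ⟨1,[(17,0),(19,0)]⟩,⟨6,[(0,1),(1,3),(0,0),(16,4),(0,0),(1,0),(12,1)]⟩⟩ ⟨true,0,⟨1,[(5,0),(13,0),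
  (1,0)]⟩,⟨0,[(20,0),(14,0)]⟩⟩,.o ⟨false,0,⟨7,[(0,1),(3,0),(0,1),(1,0),(3,1),(5,0),(2,7),(9,2)]⟩,⟨7,
  [(17,0),(0,0),(0,3),(10,1),(5,3)]⟩⟩]⟩) (.I [1,1,1,0,-1,0,0,1,1] (.R ⟨1,false,false,true,[1,0,0,
  -1],[1,-1],[1,0,0,-1,0,0,0,0,-1],(⟨1,[(20,0),(8,0),(0,0)]⟩,⟨0,[(21,0)]⟩),(⟨0,[(32,0)]⟩,⟨0,[(33,
  0)]⟩),⟨1,[(11,0),(3,0),(4,0)]⟩,.k,.k,(.r (-1) ⟨0,[(1,0),(32,0)]⟩ ⟨3,[(5,0),(2,0),(10,1)]⟩),(.r 0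
  ⟨3,[(5,0),(2,0),(9,1)]⟩ ⟨9,[(1,1),(0,3),(16,3),(1,3),(15,2),(0,0)]⟩),.k,.k,⟨false,1,⟨1,[(18,0),
  (19,0)]⟩,⟨0,[(0,0),(27,0),(8,0)]⟩⟩,⟨true,0,⟨1,[(20,0),(2,0),(2,0)]⟩,⟨0,[(21,0)]⟩⟩,⟨false,1,⟨0,
  [(35,0),(2,0)]⟩,⟨0,[(36,0)]⟩⟩,⟨false,0,⟨0,[(3,0)]⟩,⟨1,[(18,0),(2,1),(14,1),(1,0)]⟩⟩,⟨true,0,⟨0,
  []⟩,⟨0,[(40,0)]⟩⟩,⟨false,0,⟨0,[(3,0),(32,0)]⟩,⟨1,[(18,0),(2,1),(16,0)]⟩⟩,[.o ⟨false,0,⟨0,[(12,0),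
  (11,0)]⟩,⟨3,[(4,1),(13,0),(2,1),(9,0),(6,1)]⟩⟩,.o ⟨false,1,⟨4,[(6,1),(7,0),(3,0),(0,0),(11,1),(6,
  0)]⟩,⟨0,[(36,0)]⟩⟩,.a ⟨true,0,⟨0,[(21,0)]⟩,⟨1,[(20,0),(8,0),(0,0)]⟩⟩ ⟨false,1,⟨0,[(1,0),(32,1)]⟩,
  ⟨2,[(0,1),(2,0),(4,1),(12,0),(15,2),(0,0)]⟩⟩ ⟨true,0,⟨1,[(6,0),(13,0),(1,0)]⟩,⟨0,[(21,0),(14,
  0)]⟩⟩,.o ⟨false,0,⟨15,[(5,2),(0,3),(1,2),(3,3),(8,15),(9,5),(2,3)]⟩,⟨7,[(18,0),(0,0),(0,3),(10,1),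
  (5,3)]⟩⟩]⟩) (.R ⟨1,false,false,false,[1,0,0,-1],[0,1],[0,0,0,0,0,0,0,0,-1],(⟨1,[(20,0),(8,0),(0,
  0)]⟩,⟨0,[(21,0)]⟩),(⟨0,[(33,0)]⟩,⟨0,[(32,0)]⟩),⟨1,[(11,0),(3,0),(4,0)]⟩,.k,.k,(.r (-1) ⟨39,[(0,7),
  (0,13),(4,11),(0,3),(6,1),(3,8),(10,5),(0,5),(7,8)]⟩ ⟨3,[(5,0),(2,0),(10,1)]⟩),(.r (-1) ⟨39,[(0,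
  7),(0,13),(4,11),(0,3),(6,1),(3,8),(10,5),(0,5),(7,8)]⟩ ⟨3,[(5,0),(2,0),(10,1)]⟩),(.r (-2) ⟨0,[(1,
  0),(33,0),(2,0)]⟩ ⟨1,[(3,1),(1,0),(2,0),(12,1),(14,1)]⟩),.k,⟨true,1,⟨39,[(0,7),(0,13),(4,11),(0,
  3),(6,1),(3,8),(10,5),(0,5),(7,8)]⟩,⟨1,[(3,1),(1,0),(2,0),(12,1)]⟩⟩,⟨false,1,⟨1,[(20,0),(8,0),(0,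
  0),(6,1)]⟩,⟨15,[(5,2),(0,3),(1,2),(3,3),(8,15),(9,5),(2,3)]⟩⟩,⟨false,1,⟨3,[(18,0),(0,0),(18,1)]⟩,
  ⟨0,[]⟩⟩,⟨true,0,⟨3,[(2,0),(1,2),(24,0),(0,0)]⟩,⟨0,[(0,0),(5,0),(0,0),(0,0),(7,0),(4,0)]⟩⟩,⟨true,0,
  ⟨0,[(36,0)]⟩,⟨0,[(35,0)]⟩⟩,⟨true,0,⟨0,[(4,0)]⟩,⟨0,[(0,0),(5,1),(0,0),(0,0),(12,0)]⟩⟩,[.o ⟨false,0,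
  ⟨0,[(36,0)]⟩,⟨4,[(6,1),(7,0),(3,0),(0,0),(11,1),(6,0)]⟩⟩,.o ⟨false,1,⟨7,[(0,3),(4,3),(12,0),(0,2),
  (17,1),(0,1)]⟩,⟨0,[(12,0),(11,0)]⟩⟩,.a ⟨true,0,⟨0,[(21,0)]⟩,⟨1,[(20,0),(8,0),(0,0)]⟩⟩ ⟨false,1,⟨1,
  [(18,0),(19,0)]⟩,⟨0,[(3,0),(17,0),(14,0)]⟩⟩ ⟨true,0,⟨1,[(20,0),(8,0),(0,0),(5,1)]⟩,⟨0,[(12,0),(8,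
  0),(2,0)]⟩⟩,.o ⟨false,0,⟨15,[(5,2),(0,3),(1,2),(3,3),(8,15),(9,5),(2,3)]⟩,⟨7,[(18,0),(0,0),(0,3),
  (10,1),(5,3)]⟩⟩]⟩))) (.R ⟨1,true,false,true,[1,-1],[1,0,0,-1],[0,0,-1,-1],(⟨0,[(30,0)]⟩,⟨0,[(31,
  0)]⟩),(⟨1,[(18,0),(8,0),(0,0)]⟩,⟨0,[(19,0)]⟩),⟨0,[(9,0),(3,0)]⟩,.k,.k,(.r (-2) ⟨0,[(33,1),(1,0),
  (0,0)]⟩ ⟨1,[(3,0),(2,0)]⟩),(.r (-1) ⟨13,[(1,3),(2,3),(7,1),(4,4),(1,3),(7,1),(0,1),(6,6),(0,1)]⟩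
  ⟨3,[(3,0),(2,0),(9,1)]⟩),(.x 0 ⟨2,[(7,1),(5,3),(7,3)]⟩ ⟨0,[(31,1),(3,0)]⟩),.k,⟨true,1,⟨1,[(1,1),
  (17,1),(15,0),(0,0)]⟩,⟨3,[(0,3),(3,4),(0,0),(0,2),(1,0),(1,0),(7,1),(8,0),(0,0),(3,0)]⟩⟩,⟨false,1,
  ⟨0,[(19,0),(15,0)]⟩,⟨1,[(18,0),(2,0),(2,0)]⟩⟩,⟨false,1,⟨3,[(16,0),(0,0),(18,1)]⟩,⟨0,[]⟩⟩,⟨true,0,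
  ⟨0,[(0,0),(32,0)]⟩,⟨0,[(1,0)]⟩⟩,⟨true,0,⟨0,[(34,0)]⟩,⟨0,[(33,0)]⟩⟩,⟨false,0,⟨0,[(0,0)]⟩,⟨13,[(1,
  7),(2,7),(7,3),(4,2),(0,2),(8,0),(0,0),(7,10)]⟩⟩,[]⟩))))))) (.Q [0,0,1,0,0,0,2,0,0,1,-2] (.p
  false [0,0,1] [1,0,-1] (⟨0,[(22,0)]⟩,⟨0,[(21,0)]⟩) .k 2 (⟨0,[(21,0)]⟩,⟨0,[(22,0)]⟩) .k (.r (-1)
  ⟨0,[(9,0),(6,1),(4,0),(0,0),(7,0)]⟩ ⟨0,[(20,1)]⟩)) (.K ⟨2,[1,1,-1],0,0,(⟨0,[(22,0),(3,0)]⟩,⟨0,[(4,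
  0)]⟩),.k,.k,(.x (-1) ⟨0,[(6,0),(15,0),(3,1),(3,0)]⟩ ⟨0,[(2,0),(5,0),(7,0)]⟩),(.x (-1) ⟨1,[(10,1),
  (11,3),(1,0),(1,1),(3,0)]⟩ ⟨0,[(2,0)]⟩),.k,[⟨0,[(0,0)]⟩,⟨0,[(6,0)]⟩,⟨0,[(9,0),(12,0),(0,0)]⟩,⟨0,
  [(15,0),(13,0)]⟩]⟩) (.Q [0,-1,0,1,0,0,0,0,1,1,0,-1] (.p false [0,0,0,1] [1] (⟨0,[(14,0)]⟩,⟨1,[(13,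
  0),(8,0),(0,0)]⟩) .k 1 (⟨0,[]⟩,⟨0,[]⟩) .k .k) (.R ⟨1,false,false,true,[1,0,0,-1],[1,-1],[0,0,0,0,
  0,0,0,0,-1],(⟨1,[(14,0),(8,0),(0,0)]⟩,⟨0,[(15,0)]⟩),(⟨0,[(26,0)]⟩,⟨0,[(27,0)]⟩),⟨1,[(5,0),(3,0),
  (4,0)]⟩,.k,.k,(.r (-1) ⟨1,[(2,0),(9,0),(9,0)]⟩ ⟨2,[(0,0),(3,0),(8,0),(1,0),(2,0),(1,0),(9,0)]⟩),
  (.x (-1) ⟨3,[(12,0),(0,0),(13,3),(3,1)]⟩ ⟨2,[(3,0),(5,1),(7,1)]⟩),.k,.k,⟨false,1,⟨1,[(12,0),(17,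
  1),(1,0)]⟩,⟨0,[(0,0),(0,0),(8,1),(4,0),(6,1)]⟩⟩,⟨true,0,⟨1,[(14,0),(2,0),(2,0)]⟩,⟨0,[(15,0)]⟩⟩,
  ⟨false,1,⟨3,[(12,0),(0,0),(18,1)]⟩,⟨0,[]⟩⟩,⟨false,0,⟨0,[(0,0),(5,0),(3,0)]⟩,⟨1,[(12,0),(2,1),(14,
  1),(1,0)]⟩⟩,⟨true,0,⟨0,[(30,0)]⟩,⟨0,[(29,0)]⟩⟩,⟨false,0,⟨0,[(0,0),(5,0),(11,0)]⟩,⟨1,[(12,0),(2,1),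
  (16,0)]⟩⟩,[.o ⟨false,0,⟨0,[(6,0),(11,0)]⟩,⟨3,[(12,0),(0,0),(16,3),(1,1)]⟩⟩,.o ⟨false,1,⟨1,[(25,0),
  (3,1),(2,0)]⟩,⟨0,[(30,0)]⟩⟩,.a ⟨true,0,⟨0,[(15,0)]⟩,⟨1,[(14,0),(8,0),(0,0)]⟩⟩ ⟨false,1,⟨1,[(12,0),
  (19,0)]⟩,⟨0,[(0,0),(5,0),(8,0),(2,0)]⟩⟩ ⟨true,0,⟨3,[(6,0),(3,1),(3,1),(1,0),(12,0)]⟩,⟨0,[(15,0),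
  (14,0)]⟩⟩,.o ⟨false,0,⟨0,[(7,0),(7,0),(4,0)]⟩,⟨7,[(12,0),(0,0),(0,3),(10,1),(5,3)]⟩⟩]⟩) (.Q [0,0,
  0,-1,0,0,1,1,-1,0,-1,1] (.p false [0,0,1] [0,0,0,1] (⟨0,[(24,0)]⟩,⟨0,[(23,0)]⟩) .k 2 (⟨0,[(15,
  0)]⟩,⟨1,[(14,0),(8,0),(0,0)]⟩) .k (.x (-1) ⟨7,[(3,3),(8,2),(0,2),(13,3),(3,1)]⟩ ⟨0,[(7,0),(15,
  0)]⟩)) (.I [1,0,-1,-1,1,0,0,1,1] (.R ⟨1,false,false,true,[1,0,0,-1],[0,-1,1],[0,1,0,0,0,0,0,0,-1],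
  (⟨1,[(16,0),(8,0),(0,0)]⟩,⟨0,[(17,0)]⟩),(⟨0,[(7,0)]⟩,⟨0,[(25,0),(3,0)]⟩),⟨1,[(7,0),(3,0),(4,0)]⟩,
  .k,.k,(.x 0 ⟨2,[(5,0),(5,1),(7,1)]⟩ ⟨3,[(14,0),(0,0),(13,3),(3,1)]⟩),(.x (-1) ⟨3,[(3,1),(10,0),(0,
  0),(9,3),(1,0),(1,3),(3,0)]⟩ ⟨2,[(5,1),(5,0),(7,0)]⟩),.k,.k,⟨false,0,⟨7,[(1,5),(1,1),(2,0),(7,0),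
  (1,2),(7,12),(7,12)]⟩,⟨0,[(0,0)]⟩⟩,⟨true,0,⟨7,[(5,1),(10,3),(5,4),(0,0),(1,3),(3,1)]⟩,⟨0,[(9,0),
  (7,0)]⟩⟩,⟨true,0,⟨0,[(36,0)]⟩,⟨0,[]⟩⟩,⟨false,1,⟨0,[(1,0),(13,0),(0,0)]⟩,⟨0,[(1,0),(1,0),(20,1),(5,
  0),(1,1)]⟩⟩,⟨false,0,⟨0,[(32,0)]⟩,⟨0,[(31,0),(2,0)]⟩⟩,⟨false,1,⟨1,[(15,0),(0,0),(3,1),(4,0),(0,0),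
  (7,0)]⟩,⟨0,[(1,0),(1,0),(20,1),(5,0),(1,0)]⟩⟩,[.o ⟨false,0,⟨0,[(12,0)]⟩,⟨2,[(6,0),(14,0),(2,0),(2,
  0),(4,1),(0,0),(0,1)]⟩⟩,.o ⟨false,1,⟨3,[(12,3),(1,0),(0,0),(18,1)]⟩,⟨0,[(9,0),(14,0),(7,0)]⟩⟩,.a
  ⟨true,0,⟨0,[(17,0)]⟩,⟨1,[(16,0),(8,0),(0,0)]⟩⟩ ⟨false,0,⟨7,[(1,5),(1,1),(2,0),(7,0),(1,2),(7,4),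
  (7,4)]⟩,⟨1,[(15,0),(18,0)]⟩⟩ ⟨true,0,⟨1,[(12,1),(3,0),(8,0),(0,0)]⟩,⟨0,[(9,0),(7,0),(6,0),(7,
  0)]⟩⟩,.o ⟨false,0,⟨0,[(9,0),(7,0),(4,0)]⟩,⟨7,[(14,0),(0,0),(0,3),(10,1),(5,3)]⟩⟩]⟩) (.R ⟨1,false,
  false,false,[1,0,0,-1],[0,1],[0,0,0,0,0,0,0,0,-1],(⟨1,[(16,0),(8,0),(0,0)]⟩,⟨0,[(17,0)]⟩),(⟨0,
  [(29,0)]⟩,⟨0,[(28,0)]⟩),⟨1,[(7,0),(3,0),(4,0)]⟩,.k,.k,(.r 0 ⟨0,[(0,0),(3,0)]⟩ ⟨3,[(14,0),(0,2),(6,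
  1),(0,1),(8,3)]⟩),(.r 0 ⟨0,[(0,0),(3,0)]⟩ ⟨3,[(14,0),(0,2),(6,1),(0,1),(8,3)]⟩),(.r (-1) ⟨3,[(0,
  1),(3,4),(9,0),(9,2)]⟩ ⟨7,[(5,1),(0,3),(8,3),(4,3),(1,0),(0,0),(1,3),(3,1),(0,3),(1,11)]⟩),.k,
  ⟨true,0,⟨0,[(0,0),(3,0)]⟩,⟨7,[(5,1),(0,3),(8,3),(4,3),(1,0),(0,0),(1,3),(3,1),(0,3),(1,3)]⟩⟩,
  ⟨false,1,⟨1,[(16,0),(8,0),(0,0),(6,1)]⟩,⟨0,[(9,0),(7,0),(4,0)]⟩⟩,⟨false,1,⟨3,[(14,0),(0,0),(18,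
  1)]⟩,⟨0,[]⟩⟩,⟨false,1,⟨1,[(15,0),(0,0),(8,0),(0,0),(5,1),(1,0)]⟩,⟨15,[(0,3),(0,11),(1,1),(4,7),(8,
  3),(9,2),(5,0)]⟩⟩,⟨true,0,⟨0,[(32,0)]⟩,⟨0,[(31,0)]⟩⟩,⟨false,1,⟨1,[(15,0),(0,0),(8,0),(0,0),(5,3),
  (1,0)]⟩,⟨0,[(1,0),(6,0)]⟩⟩,[.o ⟨false,0,⟨0,[(32,0)]⟩,⟨1,[(27,0),(3,1),(2,0)]⟩⟩,.o ⟨false,1,⟨3,
  [(14,0),(0,0),(16,3),(1,1)]⟩,⟨0,[(8,0),(11,0)]⟩⟩,.a ⟨true,0,⟨0,[(17,0)]⟩,⟨1,[(16,0),(8,0),(0,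
  0)]⟩⟩ ⟨false,0,⟨0,[(0,0),(3,0),(25,0),(1,0)]⟩,⟨3,[(14,0),(0,2)]⟩⟩ ⟨true,0,⟨1,[(16,0),(8,0),(0,0),
  (5,1)]⟩,⟨0,[(8,0),(8,0),(2,0)]⟩⟩,.o ⟨false,0,⟨0,[(9,0),(7,0),(4,0)]⟩,⟨7,[(14,0),(0,0),(0,3),(10,
  1),(5,3)]⟩⟩]⟩)) (.I [0,0,0,0,0,0,0,0,-1] (.R ⟨1,false,false,false,[1,0,0,-1],[1,-1],[0,0,0,0,0,0,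
  0,0,-1],(⟨1,[(16,0),(8,0),(0,0)]⟩,⟨0,[(17,0)]⟩),(⟨0,[(28,0)]⟩,⟨0,[(29,0)]⟩),⟨1,[(7,0),(3,0),(4,
  0)]⟩,.k,.k,(.r (-1) ⟨1,[(4,0),(9,0),(9,0)]⟩ ⟨0,[(1,0),(15,0),(2,0),(9,0)]⟩),(.r 0 ⟨6,[(0,2),(4,0),
  (0,1),(7,1),(5,1),(4,1),(3,0),(0,1),(1,4)]⟩ ⟨1,[(4,0),(10,0),(8,0)]⟩),.k,.k,⟨false,0,⟨0,[(0,0),
  (31,0)]⟩,⟨1,[(4,0),(10,0),(8,0)]⟩⟩,⟨true,0,⟨1,[(16,0),(2,0),(2,0)]⟩,⟨0,[(17,0)]⟩⟩,⟨false,1,⟨3,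
  [(14,0),(0,0),(18,1)]⟩,⟨0,[]⟩⟩,⟨false,1,⟨0,[(1,0),(2,0),(17,0),(7,0)]⟩,⟨0,[(0,0),(16,0),(14,0)]⟩⟩,
  ⟨true,0,⟨0,[(32,0)]⟩,⟨0,[(31,0)]⟩⟩,⟨false,1,⟨0,[(1,0),(10,0),(21,0)]⟩,⟨0,[(0,0),(16,0)]⟩⟩,[.o
  ⟨false,1,⟨1,[(27,0),(3,1),(2,0)]⟩,⟨0,[(32,0)]⟩⟩,.o ⟨false,1,⟨3,[(8,1),(3,1),(14,0),(6,2)]⟩,⟨0,
  [(32,0),(3,0)]⟩⟩,.a ⟨true,0,⟨0,[(17,0)]⟩,⟨1,[(16,0),(8,0),(0,0)]⟩⟩ ⟨true,0,⟨0,[(0,0)]⟩,⟨0,[(1,0),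
  (10,0),(4,0)]⟩⟩ ⟨false,1,⟨9,[(4,1),(3,1),(7,4),(2,0),(2,2),(4,0),(3,3),(2,6)]⟩,⟨0,[(17,0),(14,
  0)]⟩⟩,.o ⟨false,0,⟨0,[(9,0),(7,0),(4,0)]⟩,⟨7,[(14,0),(0,0),(0,3),(10,1),(5,3)]⟩⟩]⟩) (.I [0,0,2,2,
  -1,0,0,0,1] (.R ⟨1,false,false,true,[1,0,0,-1],[0,1],[1,1,0,-1,0,0,0,0,-1],(⟨1,[(17,0),(8,0),(0,
  0)]⟩,⟨0,[(18,0)]⟩),(⟨0,[(30,0)]⟩,⟨0,[(29,0)]⟩),⟨1,[(8,0),(3,0),(4,0)]⟩,.k,.k,(.r (-1) ⟨1,[(5,0),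
  (9,0),(9,0)]⟩ ⟨7,[(0,3),(14,0),(0,2)]⟩),(.r (-1) ⟨1,[(5,0),(9,0),(9,0)]⟩ ⟨7,[(0,3),(14,0),(0,
  2)]⟩),(.r (-2) ⟨3,[(5,3),(9,2),(0,0),(8,3)]⟩ ⟨0,[(0,0)]⟩),.k,⟨true,1,⟨3,[(3,1),(1,2),(9,0),(1,0),
  (7,2),(0,0),(0,0),(3,1)]⟩,⟨0,[(0,0)]⟩⟩,⟨false,1,⟨1,[(17,0),(8,0),(0,0),(6,1)]⟩,⟨3,[(0,0),(0,0),(1,
  1),(14,1),(9,0),(2,1)]⟩⟩,⟨true,0,⟨0,[(32,0)]⟩,⟨0,[(33,0)]⟩⟩,⟨false,0,⟨1,[(0,0),(0,0),(15,0),(8,0),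
  (0,0),(6,0)]⟩,⟨0,[(3,0),(31,0)]⟩⟩,⟨false,0,⟨0,[]⟩,⟨3,[(15,0),(0,0),(18,1)]⟩⟩,⟨false,0,⟨1,[(0,1),
  (16,0),(8,0),(0,0),(6,1)]⟩,⟨1,[(3,1),(1,0),(19,0),(5,1),(3,0)]⟩⟩,[.o ⟨false,0,⟨0,[(33,0),(3,0)]⟩,
  ⟨3,[(9,1),(3,1),(14,0),(6,2)]⟩⟩,.o ⟨false,0,⟨0,[(33,0)]⟩,⟨1,[(28,0),(3,1),(2,0)]⟩⟩,.a ⟨true,0,⟨0,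
  [(18,0)]⟩,⟨1,[(17,0),(8,0),(0,0)]⟩⟩ ⟨true,0,⟨1,[(3,1),(13,0),(8,0),(0,0)]⟩,⟨1,[(0,0),(0,0),(32,
  0)]⟩⟩ ⟨false,0,⟨1,[(17,0),(8,0),(0,0),(5,1)]⟩,⟨3,[(9,1),(3,1),(4,3),(9,0),(6,2)]⟩⟩,.o ⟨false,0,⟨3,
  [(0,0),(0,0),(1,1),(14,1),(9,0),(2,1)]⟩,⟨7,[(15,0),(0,0),(0,3),(10,1),(5,3)]⟩⟩]⟩) (.R ⟨1,false,
  false,true,[1,0,0,-1],[1,0,-1],[0,1,0,0,0,0,0,0,-1],(⟨1,[(17,0),(8,0),(0,0)]⟩,⟨0,[(18,0)]⟩),(⟨0,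
  [(26,0)]⟩,⟨0,[(27,0)]⟩),⟨1,[(8,0),(3,0),(4,0)]⟩,.k,.k,(.r (-1) ⟨7,[(0,3),(14,2),(0,0)]⟩ ⟨6,[(1,2),
  (4,0),(0,1),(8,1),(4,1),(4,1),(3,0),(0,1),(1,4)]⟩),.k,(.r (-1) ⟨2,[(0,0),(3,0),(0,0),(9,0),(5,1),
  (4,0),(0,0),(3,1),(1,0)]⟩ ⟨0,[(2,0),(15,0),(4,0)]⟩),.k,⟨false,1,⟨2,[(0,0),(3,0),(0,0),(9,0),(5,1),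
  (4,0),(0,0),(3,1),(1,3)]⟩,⟨0,[(1,0),(23,0)]⟩⟩,⟨true,0,⟨1,[(14,0),(2,0)]⟩,⟨0,[(18,0),(4,0)]⟩⟩,
  ⟨true,0,⟨0,[(37,0)]⟩,⟨0,[]⟩⟩,⟨false,0,⟨2,[(1,1),(0,0),(8,0),(5,0)]⟩,⟨0,[(0,0),(17,0),(2,0),(9,1),
  (1,1)]⟩⟩,⟨false,0,⟨0,[(33,0)]⟩,⟨0,[(32,0),(2,0)]⟩⟩,⟨false,0,⟨0,[(2,0)]⟩,⟨0,[(0,0),(17,0),(2,0),(9,
  1),(1,0)]⟩⟩,[.o ⟨false,0,⟨0,[(19,0)]⟩,⟨0,[(21,0),(13,0)]⟩⟩,.o ⟨false,0,⟨0,[(10,0),(14,0)]⟩,⟨3,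
  [(15,0),(0,0),(4,3),(13,1)]⟩⟩,.a ⟨true,0,⟨0,[(18,0)]⟩,⟨1,[(17,0),(8,0),(0,0)]⟩⟩ ⟨true,0,⟨1,[(3,1),
  (13,0),(8,0),(0,0),(5,1)]⟩,⟨0,[(1,0)]⟩⟩ ⟨false,0,⟨13,[(2,1),(1,1),(2,0),(3,2),(3,0),(1,5),(7,4)]⟩,
  ⟨0,[(18,0),(2,0),(13,0)]⟩⟩,.o ⟨false,0,⟨0,[(10,0),(7,0),(4,0)]⟩,⟨7,[(15,0),(0,0),(0,3),(10,1),(5,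
  3)]⟩⟩]⟩))))))) (.I [0,0,2,2,-1,0,0,-1] (.Q [0,-1,0,2,0,0,-1,-1,0,0,1] (.p true [0,0,1] [] (⟨0,
  [(22,0)]⟩,⟨0,[(21,0)]⟩) .k 0 (⟨0,[]⟩,⟨0,[]⟩) .k .k) (.R ⟨1,true,false,false,[0,0,1],[0,1],[1,0,0,
  -1,0,0,0,1],(⟨0,[(23,0)]⟩,⟨0,[(22,0)]⟩),(⟨0,[(26,0)]⟩,⟨0,[(25,0)]⟩),⟨0,[(4,0)]⟩,.k,.k,.k,.k,(.r
  (-2) ⟨4,[(2,0),(6,4),(0,0),(9,0),(2,1),(1,0),(2,4),(1,4),(0,4)]⟩ ⟨0,[(1,0)]⟩),.k,⟨true,1,⟨3,[(2,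
  1),(2,1),(3,5),(13,3),(1,1),(4,0),(0,2)]⟩,⟨0,[(1,0)]⟩⟩,⟨false,1,⟨4,[(2,0),(7,0),(9,0),(2,1),(1,0),
  (4,4)]⟩,⟨0,[(19,0)]⟩⟩,⟨false,1,⟨0,[(28,0),(2,0)]⟩,⟨0,[(29,0)]⟩⟩,⟨true,0,⟨1,[(0,0),(17,0)]⟩,⟨0,[(9,
  0)]⟩⟩,⟨true,0,⟨0,[]⟩,⟨0,[(33,0)]⟩⟩,⟨false,0,⟨0,[(0,0)]⟩,⟨0,[(9,0),(18,0),(2,0)]⟩⟩,[]⟩) (.Q [0,0,1,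
  0,0,0,2,0,0,1,-2] (.p false [0,0,1] [1,0,-1] (⟨0,[(23,0)]⟩,⟨0,[(22,0)]⟩) .k 2 (⟨0,[(22,0)]⟩,⟨0,
  [(23,0)]⟩) .k (.r (-1) ⟨4,[(2,1),(7,1),(6,9),(2,1),(2,3),(1,1),(5,4)]⟩ ⟨0,[(21,1)]⟩)) (.K ⟨2,[1,1,
  -1],0,0,(⟨0,[(23,0),(3,0)]⟩,⟨0,[(5,0)]⟩),.k,.k,(.r 1 ⟨0,[(2,0)]⟩ ⟨1,[(1,1),(19,1),(9,2),(0,0)]⟩),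
  (.r 0 ⟨3,[(2,1),(9,0),(0,0),(8,5)]⟩ ⟨0,[(3,0),(1,0),(4,0),(7,0),(5,0),(7,0)]⟩),.k,[⟨0,[(0,0)]⟩,⟨0,
  [(7,0)]⟩,⟨0,[(10,0),(12,0),(0,0)]⟩,⟨0,[(16,0),(13,0)]⟩]⟩) (.I [0,-1,-1,0,1,0,0,0,1] (.Q [0,0,0,-1,
  0,0,-1,-1,-1,-1,1,1] (.p true [0,0,1] [1,0,0,-1] (⟨0,[(25,0)]⟩,⟨0,[(24,0)]⟩) .k 2 (⟨1,[(15,0),(8,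
  0),(0,0)]⟩,⟨0,[(16,0)]⟩) .k (.x (-1) ⟨3,[(13,0),(0,0),(6,3),(3,3),(6,1)]⟩ ⟨2,[(4,0),(5,0),(7,
  0)]⟩)) (.I [0,0,2,2,-1,0,0,0,1] (.Q [0,0,0,0,0,0,0,0,1,1,0,-1] (.p false [0,0,0,1] [1] (⟨0,[(18,
  0)]⟩,⟨1,[(17,0),(8,0),(0,0)]⟩) .k 1 (⟨0,[]⟩,⟨0,[]⟩) .k .k) (.I [0,0,0,1,0,0,0,0,1] (.R ⟨1,false,
  false,false,[1,0,0,-1],[0,1],[1,0,0,-1,0,0,0,0,-1],(⟨1,[(19,0),(8,0),(0,0)]⟩,⟨0,[(20,0)]⟩),(⟨0,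
  [(32,0)]⟩,⟨0,[(31,0)]⟩),⟨1,[(10,0),(3,0),(4,0)]⟩,.k,.k,(.r (-1) ⟨5,[(3,1),(2,1),(10,1),(1,0),(8,
  0),(0,0),(6,2),(0,0)]⟩ ⟨7,[(2,3),(14,0),(0,2)]⟩),(.r (-1) ⟨5,[(3,1),(2,1),(10,1),(1,0),(8,0),(0,
  0),(6,2),(0,0)]⟩ ⟨7,[(2,3),(14,0),(0,2)]⟩),(.r (-2) ⟨5,[(6,3),(6,1),(3,2),(10,1),(0,1),(4,1),(1,
  5),(0,2)]⟩ ⟨0,[(2,0)]⟩),.k,⟨true,1,⟨5,[(3,3),(2,3),(10,0),(1,1),(8,1),(0,1),(6,2),(0,1)]⟩,⟨0,[(2,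
  0)]⟩⟩,⟨false,1,⟨1,[(19,0),(8,0),(0,0),(6,1)]⟩,⟨2,[(2,0),(0,0),(11,0),(4,1),(9,0),(2,0)]⟩⟩,⟨false,
  1,⟨0,[(34,0),(2,0)]⟩,⟨0,[(35,0)]⟩⟩,⟨true,0,⟨0,[(1,0),(33,0)]⟩,⟨0,[(3,0),(19,0)]⟩⟩,⟨true,0,⟨0,[]⟩,
  ⟨0,[(39,0)]⟩⟩,⟨true,0,⟨0,[(1,0),(33,1)]⟩,⟨0,[(3,0),(11,0)]⟩⟩,[.o ⟨false,0,⟨0,[(35,0)]⟩,⟨4,[(6,1),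
  (6,0),(3,0),(0,0),(11,1),(6,0)]⟩⟩,.o ⟨false,1,⟨5,[(2,1),(1,3),(12,2),(17,1),(1,0)]⟩,⟨0,[(11,0),
  (11,0)]⟩⟩,.a ⟨true,0,⟨0,[(20,0)]⟩,⟨1,[(19,0),(8,0),(0,0)]⟩⟩ ⟨false,1,⟨5,[(3,1),(2,1),(10,1),(1,0),
  (8,0),(0,0),(7,3)]⟩,⟨0,[(0,0)]⟩⟩ ⟨true,0,⟨1,[(19,0),(8,0),(0,0),(5,1)]⟩,⟨0,[(0,0),(2,0),(11,0)]⟩⟩,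
  .o ⟨false,0,⟨2,[(2,0),(0,0),(11,0),(4,1),(9,0),(2,0)]⟩,⟨7,[(17,0),(0,0),(0,3),(10,1),(5,3)]⟩⟩]⟩)
  (.R ⟨1,false,false,true,[1,0,0,-1],[0,1],[1,0,0,-1,0,0,0,0,-1],(⟨1,[(19,0),(8,0),(0,0)]⟩,⟨0,[(20,
  0)]⟩),(⟨0,[(32,0)]⟩,⟨0,[(31,0)]⟩),⟨1,[(10,0),(3,0),(4,0)]⟩,.k,.k,(.r (-1) ⟨2,[(0,1),(3,0),(12,0),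
  (16,0),(1,0)]⟩ ⟨7,[(2,3),(14,0),(0,2)]⟩),(.r (-1) ⟨2,[(0,1),(3,0),(12,0),(16,0),(1,0)]⟩ ⟨7,[(2,3),
  (14,0),(0,2)]⟩),(.r (-2) ⟨1,[(0,1),(3,1),(12,0),(16,1),(1,0)]⟩ ⟨0,[(2,0)]⟩),.k,⟨true,1,⟨0,[(0,1),
  (3,0)]⟩,⟨0,[(2,0),(36,0)]⟩⟩,⟨false,1,⟨1,[(19,0),(8,0),(0,0),(6,1)]⟩,⟨2,[(2,0),(0,0),(11,0),(4,1),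
  (9,0),(2,0)]⟩⟩,⟨false,1,⟨0,[(34,0),(2,0)]⟩,⟨0,[(35,0)]⟩⟩,⟨false,0,⟨0,[(1,0),(33,0)]⟩,⟨1,[(0,1),
  (19,1),(9,0),(6,0)]⟩⟩,⟨true,0,⟨0,[]⟩,⟨0,[(39,0)]⟩⟩,⟨false,0,⟨0,[(1,0),(33,1)]⟩,⟨0,[(3,0),(11,0),
  (21,0)]⟩⟩,[.o ⟨false,0,⟨0,[(35,0),(3,0)]⟩,⟨2,[(6,0),(4,0),(18,0),(6,1)]⟩⟩,.o ⟨false,0,⟨0,[(35,
  0)]⟩,⟨4,[(6,1),(6,0),(3,0),(0,0),(11,1),(6,0)]⟩⟩,.a ⟨true,0,⟨0,[(20,0)]⟩,⟨1,[(19,0),(8,0),(0,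
  0)]⟩⟩ ⟨true,0,⟨0,[(0,0)]⟩,⟨0,[(2,0),(31,0),(1,0)]⟩⟩ ⟨false,0,⟨1,[(19,0),(8,0),(0,0),(5,1)]⟩,⟨2,
  [(3,0),(0,0),(1,0),(13,1),(9,0),(2,0),(3,0)]⟩⟩,.o ⟨false,0,⟨2,[(2,0),(0,0),(11,0),(4,1),(9,0),(2,
  0)]⟩,⟨7,[(17,0),(0,0),(0,3),(10,1),(5,3)]⟩⟩]⟩)) (.R ⟨1,false,false,false,[1,0,0,-1],[1,-1],[0,0,0,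
  0,0,0,0,0,-1],(⟨1,[(18,0),(8,0),(0,0)]⟩,⟨0,[(19,0)]⟩),(⟨0,[(30,0)]⟩,⟨0,[(31,0)]⟩),⟨1,[(9,0),(3,0),
  (4,0)]⟩,.k,.k,(.r (-1) ⟨5,[(2,1),(2,1),(10,1),(1,0),(8,0),(0,0),(6,2),(0,0)]⟩ ⟨7,[(1,3),(14,0),(0,
  2)]⟩),(.r 0 ⟨3,[(0,1),(0,1),(14,1),(1,0),(8,0),(0,0)]⟩ ⟨0,[(3,0),(29,0)]⟩),.k,.k,⟨false,0,⟨1,[(0,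
  1),(17,0),(8,0),(0,0),(5,1)]⟩,⟨0,[(3,0),(29,0)]⟩⟩,⟨true,0,⟨1,[(18,0),(2,0),(2,0)]⟩,⟨0,[(19,0)]⟩⟩,
  ⟨false,1,⟨3,[(16,0),(0,0),(18,1)]⟩,⟨0,[]⟩⟩,⟨false,1,⟨11,[(3,5),(1,3),(4,3),(6,2),(0,5),(10,0),(2,
  5),(3,1)]⟩,⟨0,[(0,0),(26,0),(0,0),(5,0)]⟩⟩,⟨true,0,⟨0,[(34,0)]⟩,⟨0,[(33,0)]⟩⟩,⟨false,1,⟨3,[(3,1),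
  (13,0),(0,1),(10,0),(2,1)]⟩,⟨0,[(0,0),(26,0),(0,0)]⟩⟩,[.o ⟨false,1,⟨4,[(5,1),(6,0),(3,0),(0,0),
  (11,1),(6,0)]⟩,⟨0,[(34,0)]⟩⟩,.o ⟨false,1,⟨2,[(5,0),(4,0),(18,0),(6,1)]⟩,⟨0,[(34,0),(3,0)]⟩⟩,.a
  ⟨true,0,⟨0,[(19,0)]⟩,⟨1,[(18,0),(8,0),(0,0)]⟩⟩ ⟨true,0,⟨1,[(0,1),(17,0),(8,0),(0,0)]⟩,⟨7,[(1,5),
  (2,0),(0,3),(1,0),(9,0),(8,3),(1,1),(1,0),(2,3),(1,4)]⟩⟩ ⟨false,1,⟨39,[(5,15),(6,7),(3,2),(0,2),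
  (0,19),(10,5),(6,27)]⟩,⟨0,[(19,0),(14,0)]⟩⟩,.o ⟨false,0,⟨9,[(0,0),(0,2),(0,1),(2,1),(13,6),(1,0),
  (2,0),(4,2),(2,1)]⟩,⟨7,[(16,0),(0,0),(0,3),(10,1),(5,3)]⟩⟩]⟩)) (.I [0,0,0,0,0,0,0,0,-1] (.R ⟨1,
  false,false,false,[1,0,0,-1],[1,-1],[0,0,0,0,0,0,0,0,-1],(⟨1,[(18,0),(8,0),(0,0)]⟩,⟨0,[(19,0)]⟩),
  (⟨0,[(30,0)]⟩,⟨0,[(31,0)]⟩),⟨1,[(9,0),(3,0),(4,0)]⟩,.k,.k,(.r (-1) ⟨7,[(1,3),(14,2),(0,0)]⟩ ⟨5,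
  [(3,1),(0,0),(1,3),(0,0),(6,1),(2,1),(4,1),(5,1),(1,0),(1,1)]⟩),(.r 0 ⟨3,[(0,1),(5,0),(9,0),(5,0),
  (2,0),(6,0),(1,1)]⟩ ⟨0,[(3,0),(29,0)]⟩),.k,.k,⟨false,0,⟨0,[(0,0),(33,0)]⟩,⟨0,[(3,0),(29,0)]⟩⟩,
  ⟨true,0,⟨1,[(18,0),(2,0),(2,0)]⟩,⟨0,[(19,0)]⟩⟩,⟨false,1,⟨3,[(16,0),(0,0),(18,1)]⟩,⟨0,[]⟩⟩,⟨false,
  1,⟨11,[(3,5),(1,3),(4,3),(6,2),(0,5),(10,0),(2,5),(3,1)]⟩,⟨0,[(0,0),(18,0),(14,0)]⟩⟩,⟨true,0,⟨0,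
  [(34,0)]⟩,⟨0,[(33,0)]⟩⟩,⟨false,1,⟨3,[(3,1),(13,0),(0,1),(10,0),(2,1)]⟩,⟨0,[(0,0),(18,0)]⟩⟩,[.o
  ⟨false,1,⟨4,[(5,1),(6,0),(3,0),(0,0),(11,1),(6,0)]⟩,⟨0,[(34,0)]⟩⟩,.o ⟨false,1,⟨2,[(5,0),(4,0),(18,
  0),(6,1)]⟩,⟨0,[(34,0),(3,0)]⟩⟩,.a ⟨true,0,⟨0,[(19,0)]⟩,⟨1,[(18,0),(8,0),(0,0)]⟩⟩ ⟨true,0,⟨0,[(0,
  0)]⟩,⟨1,[(3,1),(0,0),(1,1),(0,0),(6,3),(11,1),(1,1),(1,0)]⟩⟩ ⟨false,1,⟨39,[(5,15),(6,7),(3,2),(0,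
  2),(0,19),(10,5),(6,27)]⟩,⟨0,[(19,0),(14,0)]⟩⟩,.o ⟨false,0,⟨2,[(5,0),(0,0),(4,0),(7,2),(9,0),(2,
  0)]⟩,⟨7,[(16,0),(0,0),(0,3),(10,1),(5,3)]⟩⟩]⟩) (.R ⟨1,false,false,true,[1,0,0,-1],[1,0,-1],[0,1,0,
  0,0,0,0,0,-1],(⟨1,[(18,0),(8,0),(0,0)]⟩,⟨0,[(19,0)]⟩),(⟨0,[(27,0)]⟩,⟨0,[(28,0)]⟩),⟨1,[(9,0),(3,0),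
  (4,0)]⟩,.k,.k,(.r (-1) ⟨7,[(1,3),(14,2),(0,0)]⟩ ⟨3,[(0,1),(5,0),(10,0),(4,0),(2,0),(6,0),(1,1)]⟩),
  .k,(.r (-1) ⟨3,[(1,1),(2,0),(2,0),(8,0),(5,3),(5,1),(1,0),(1,1),(3,0)]⟩ ⟨1,[(6,0),(10,0),(8,0)]⟩),
  .k,⟨false,1,⟨3,[(1,1),(2,0),(2,0),(8,0),(5,3),(5,1),(1,0),(1,1),(1,3),(1,0)]⟩,⟨0,[(0,0),(25,0)]⟩⟩,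
  ⟨true,0,⟨1,[(15,0),(2,0)]⟩,⟨0,[(19,0),(4,0)]⟩⟩,⟨true,0,⟨0,[(38,0)]⟩,⟨0,[]⟩⟩,⟨false,0,⟨21,[(0,19),
  (2,1),(0,1),(1,3),(5,7),(5,10),(1,0),(2,0),(11,1)]⟩,⟨0,[(1,0),(17,0),(2,0),(9,1),(1,1)]⟩⟩,⟨false,
  0,⟨0,[(34,0)]⟩,⟨0,[(33,0),(2,0)]⟩⟩,⟨false,0,⟨21,[(0,15),(2,5),(0,5),(1,11),(5,1),(5,10),(1,2),(2,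
  2),(11,5)]⟩,⟨0,[(1,0),(17,0),(2,0),(9,1),(1,0)]⟩⟩,[.o ⟨false,0,⟨0,[(20,0)]⟩,⟨0,[(22,0),(13,0)]⟩⟩,
  .o ⟨false,0,⟨5,[(4,1),(1,0),(3,1),(15,2),(2,0)]⟩,⟨3,[(16,0),(0,0),(4,3),(13,1)]⟩⟩,.a ⟨true,0,⟨0,
  [(19,0)]⟩,⟨1,[(18,0),(8,0),(0,0)]⟩⟩ ⟨true,0,⟨13,[(1,5),(0,3),(1,0),(1,7),(0,2),(8,1),(1,1),(3,11),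
  (5,5),(1,2),(7,1)]⟩,⟨0,[(0,0)]⟩⟩ ⟨false,0,⟨7,[(6,0),(1,0),(3,2),(5,3),(16,1)]⟩,⟨0,[(19,0),(2,0),
  (13,0)]⟩⟩,.o ⟨false,0,⟨2,[(5,0),(0,0),(4,0),(7,2),(9,0),(2,0)]⟩,⟨7,[(16,0),(0,0),(0,3),(10,1),(5,
  3)]⟩⟩]⟩))) (.I [0,0,-1,-1,1,0,0,0,-1] (.R ⟨1,false,false,true,[1,0,0,-1],[1,-1],[0,0,0,0,0,0,0,0,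
  -1],(⟨1,[(17,0),(8,0),(0,0)]⟩,⟨0,[(18,0)]⟩),(⟨0,[(29,0)]⟩,⟨0,[(30,0)]⟩),⟨1,[(8,0),(3,0),(4,0)]⟩,
  .k,.k,(.r (-1) ⟨0,[(0,0)]⟩ ⟨2,[(1,0),(3,0),(10,0),(1,0),(1,0)]⟩),(.x (-1) ⟨3,[(15,0),(0,0),(13,3),
  (3,1)]⟩ ⟨1,[(8,0),(3,0),(7,0),(2,0)]⟩),.k,.k,⟨false,1,⟨1,[(15,0),(17,1),(1,0)]⟩,⟨0,[(1,0),(1,0),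
  (0,0),(13,0),(6,1)]⟩⟩,⟨true,0,⟨1,[(17,0),(2,0),(2,0)]⟩,⟨0,[(18,0)]⟩⟩,⟨false,1,⟨3,[(15,0),(0,0),
  (18,1)]⟩,⟨0,[]⟩⟩,⟨false,0,⟨0,[(1,0),(1,0),(0,0),(20,1),(5,0)]⟩,⟨1,[(15,0),(2,1),(14,1),(1,0)]⟩⟩,
  ⟨true,0,⟨0,[(33,0)]⟩,⟨0,[(32,0)]⟩⟩,⟨false,0,⟨0,[(1,0),(7,0)]⟩,⟨1,[(15,0),(2,1),(16,0)]⟩⟩,[.o
  ⟨false,0,⟨0,[(9,0),(11,0)]⟩,⟨3,[(15,0),(0,0),(16,3),(1,1)]⟩⟩,.o ⟨false,1,⟨4,[(4,1),(6,0),(3,0),(0,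
  0),(11,1),(6,0)]⟩,⟨0,[(33,0)]⟩⟩,.a ⟨true,0,⟨0,[(18,0)]⟩,⟨1,[(17,0),(8,0),(0,0)]⟩⟩ ⟨false,1,⟨1,
  [(15,0),(19,0)]⟩,⟨0,[(1,0),(7,0),(8,0)]⟩⟩ ⟨true,0,⟨1,[(4,0),(12,0),(1,0)]⟩,⟨0,[(18,0),(14,0)]⟩⟩,
  .o ⟨false,0,⟨2,[(4,0),(0,0),(4,0),(7,2),(9,0),(2,0)]⟩,⟨7,[(15,0),(0,0),(0,3),(10,1),(5,3)]⟩⟩]⟩)
  (.R ⟨1,false,false,false,[1,0,0,-1],[0,1],[1,1,0,-1,0,0,0,0,-1],(⟨1,[(17,0),(8,0),(0,0)]⟩,⟨0,[(18,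
  0)]⟩),(⟨0,[(30,0)]⟩,⟨0,[(29,0)]⟩),⟨1,[(8,0),(3,0),(4,0)]⟩,.k,.k,(.x 0 ⟨1,[(8,0),(3,0),(7,0),(2,
  0)]⟩ ⟨3,[(15,0),(0,0),(13,3),(3,1)]⟩),(.x 0 ⟨1,[(8,0),(3,0),(7,0),(2,0)]⟩ ⟨3,[(15,0),(0,0),(13,3),
  (3,1)]⟩),(.r (-2) ⟨5,[(4,3),(6,1),(3,2),(10,1),(0,1),(4,1),(1,5),(0,2)]⟩ ⟨1,[(0,0),(0,0),(3,0),
  (12,0),(1,0)]⟩),.k,⟨true,1,⟨5,[(4,3),(6,1),(3,2),(10,1),(0,1),(4,1),(1,2)]⟩,⟨1,[(0,3),(14,0),(19,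
  0)]⟩⟩,⟨false,1,⟨1,[(17,0),(8,0),(0,0),(6,1)]⟩,⟨2,[(4,0),(0,0),(4,0),(7,2),(9,0),(2,0)]⟩⟩,⟨true,0,
  ⟨0,[(32,0)]⟩,⟨0,[(33,0)]⟩⟩,⟨false,0,⟨1,[(0,1),(16,0),(8,0),(0,0),(6,0),(0,0)]⟩,⟨5,[(4,1),(4,1),(5,
  2),(2,5),(9,1),(6,0)]⟩⟩,⟨false,0,⟨0,[]⟩,⟨3,[(15,0),(0,0),(18,1)]⟩⟩,⟨false,0,⟨1,[(0,1),(16,0),(8,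
  0),(0,0),(5,1),(0,0),(0,0)]⟩,⟨5,[(4,3),(4,3),(5,2),(2,5),(9,0),(6,1)]⟩⟩,[.o ⟨false,0,⟨0,[(33,0)]⟩,
  ⟨4,[(4,1),(6,0),(3,0),(0,0),(11,1),(6,0)]⟩⟩,.o ⟨false,1,⟨3,[(15,0),(0,0),(16,3),(1,1)]⟩,⟨0,[(9,0),
  (11,0)]⟩⟩,.a ⟨true,0,⟨0,[(18,0)]⟩,⟨1,[(17,0),(8,0),(0,0)]⟩⟩ ⟨false,1,⟨1,[(15,0),(16,1),(2,0)]⟩,⟨1,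
  [(0,1),(33,0),(0,0)]⟩⟩ ⟨true,0,⟨1,[(17,0),(8,0),(0,0),(5,1)]⟩,⟨0,[(9,0),(8,0),(2,0)]⟩⟩,.o ⟨false,
  0,⟨2,[(4,0),(0,0),(4,0),(7,2),(9,0),(2,0)]⟩,⟨7,[(15,0),(0,0),(0,3),(10,1),(5,3)]⟩⟩]⟩))) (.Q [0,1,
  0,-1,0,0,0,0,1,0,0,-1] (.p false [0,0,0,1] [] (⟨0,[(16,0)]⟩,⟨1,[(15,0),(8,0),(0,0)]⟩) .k 0 (⟨0,
  []⟩,⟨0,[]⟩) .k .k) (.R ⟨1,false,false,true,[1,0,0,-1],[1,-1],[0,1,0,0,0,0,0,0,-1],(⟨1,[(16,0),(8,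
  0),(0,0)]⟩,⟨0,[(17,0)]⟩),(⟨0,[(28,0)]⟩,⟨0,[(29,0)]⟩),⟨1,[(7,0),(3,0),(4,0)]⟩,.k,.k,(.r (-1) ⟨9,
  [(1,3),(1,3),(6,1),(3,2),(10,1),(0,1),(6,6),(0,3)]⟩ ⟨0,[(0,0),(16,0),(12,0),(1,1)]⟩),(.r 0 ⟨7,[(1,
  1),(2,0),(9,2),(5,0),(2,0),(6,2),(1,5)]⟩ ⟨1,[(0,1),(16,1),(15,0),(0,0)]⟩),.k,.k,⟨false,0,⟨1,[(1,
  1),(30,1),(0,0),(0,0)]⟩,⟨1,[(0,1),(16,1),(15,0),(0,0)]⟩⟩,⟨true,0,⟨1,[(16,0),(2,0),(2,0)]⟩,⟨0,[(17,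
  0)]⟩⟩,⟨true,0,⟨0,[(36,0)]⟩,⟨0,[]⟩⟩,⟨true,0,⟨0,[(0,0)]⟩,⟨1,[(1,1),(15,1),(14,1),(0,0),(0,0)]⟩⟩,
  ⟨false,0,⟨0,[(32,0)]⟩,⟨0,[(31,0),(2,0)]⟩⟩,⟨true,0,⟨0,[(0,0),(31,0)]⟩,⟨1,[(1,1),(15,1),(15,0),(0,
  0)]⟩⟩,[.o ⟨false,0,⟨0,[(8,0),(11,0)]⟩,⟨3,[(14,0),(0,0),(16,3),(1,1)]⟩⟩,.o ⟨false,1,⟨4,[(3,1),(6,
  0),(3,0),(0,0),(11,1),(6,0)]⟩,⟨0,[(32,0)]⟩⟩,.a ⟨true,0,⟨0,[(17,0)]⟩,⟨1,[(16,0),(8,0),(0,0)]⟩⟩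
  ⟨false,0,⟨1,[(1,1),(31,0),(0,0)]⟩,⟨1,[(15,0),(18,0)]⟩⟩ ⟨true,0,⟨1,[(3,0),(12,0),(1,0)]⟩,⟨0,[(17,
  0),(14,0)]⟩⟩,.o ⟨false,0,⟨2,[(3,0),(0,0),(4,0),(7,2),(9,0),(2,0)]⟩,⟨7,[(14,0),(0,0),(0,3),(10,1),
  (5,3)]⟩⟩]⟩) (.R ⟨1,false,false,false,[1,0,0,-1],[1,0,-1],[0,1,0,0,0,0,0,0,-1],(⟨1,[(16,0),(8,0),
  (0,0)]⟩,⟨0,[(17,0)]⟩),(⟨0,[(25,0)]⟩,⟨0,[(26,0)]⟩),⟨1,[(7,0),(3,0),(4,0)]⟩,.k,.k,(.x 0 ⟨1,[(7,0),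
  (3,0),(7,0),(2,0)]⟩ ⟨3,[(14,0),(0,0),(13,3),(3,1)]⟩),.k,(.r (-1) ⟨15,[(0,3),(1,4),(0,3),(1,2),(6,
  11),(1,5),(1,1),(9,5),(1,2),(4,3),(0,5)]⟩ ⟨1,[(4,0),(10,0),(8,0)]⟩),.k,⟨false,0,⟨7,[(0,3),(0,3),
  (0,2),(2,0),(6,3),(3,1),(3,3),(5,1),(1,0),(4,3)]⟩,⟨1,[(15,0),(8,1),(9,0)]⟩⟩,⟨true,0,⟨1,[(13,0),(2,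
  0)]⟩,⟨0,[(17,0),(4,0)]⟩⟩,⟨true,0,⟨0,[(36,0)]⟩,⟨0,[]⟩⟩,⟨false,1,⟨7,[(4,0),(1,0),(3,2),(4,3),(0,3),
  (16,1),(0,3)]⟩,⟨0,[(0,0),(11,0)]⟩⟩,⟨false,0,⟨0,[(32,0)]⟩,⟨0,[(31,0),(2,0)]⟩⟩,⟨false,1,⟨7,[(4,2),
  (1,2),(3,0),(4,3),(0,3),(16,5),(0,3)]⟩,⟨0,[(0,0),(2,0)]⟩⟩,[.o ⟨false,0,⟨5,[(2,1),(1,0),(3,1),(15,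
  2),(2,0)]⟩,⟨3,[(14,0),(0,0),(4,3),(13,1)]⟩⟩,.o ⟨false,1,⟨11,[(4,0),(1,0),(3,2),(10,3),(5,3),(5,1),
  (0,7)]⟩,⟨0,[(20,0)]⟩⟩,.a ⟨true,0,⟨0,[(17,0)]⟩,⟨1,[(16,0),(8,0),(0,0)]⟩⟩ ⟨false,0,⟨25,[(0,11),(0,
  7),(1,3),(4,3),(5,2),(1,5),(10,0),(5,3)]⟩,⟨1,[(15,0),(18,0)]⟩⟩ ⟨true,0,⟨7,[(4,0),(1,0),(3,2),(5,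
  3),(16,1)]⟩,⟨0,[(17,0),(2,0)]⟩⟩,.o ⟨false,0,⟨2,[(3,0),(0,0),(4,0),(7,2),(9,0),(2,0)]⟩,⟨7,[(14,0),
  (0,0),(0,3),(10,1),(5,3)]⟩⟩]⟩))))) (.Q [0,0,1,0,0,0,2,0,0,1,-2] (.p false [0,0,1] [1,0,-1] (⟨0,
  [(22,0)]⟩,⟨0,[(21,0)]⟩) .k 2 (⟨0,[(21,0)]⟩,⟨0,[(22,0)]⟩) .k (.r (-1) ⟨4,[(1,1),(7,1),(6,9),(2,1),
  (2,3),(1,1),(5,4)]⟩ ⟨0,[(20,1)]⟩)) (.K ⟨2,[1,1,-1],0,0,(⟨0,[(22,0),(3,0)]⟩,⟨0,[(4,0)]⟩),.k,.k,(.x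
  (-1) ⟨7,[(2,3),(8,0),(0,0),(13,11),(3,5)]⟩ ⟨1,[(4,2),(3,0),(7,0),(2,2)]⟩),(.r 0 ⟨5,[(0,1),(2,1),
  (7,0),(0,0),(8,9),(7,3)]⟩ ⟨3,[(1,1),(0,1),(1,0),(5,0),(6,5),(5,2),(1,0),(1,1),(3,1)]⟩),.k,[⟨0,[(0,
  0)]⟩,⟨0,[(6,0)]⟩,⟨0,[(9,0),(12,0),(0,0)]⟩,⟨0,[(15,0),(13,0)]⟩]⟩) (.Q [0,0,0,-1,0,0,-1,-1,-1,-1,1,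
  1] (.p true [0,0,1] [1,0,0,-1] (⟨0,[(23,0)]⟩,⟨0,[(22,0)]⟩) .k 2 (⟨1,[(13,0),(8,0),(0,0)]⟩,⟨0,[(14,
  0)]⟩) .k (.x (-1) ⟨3,[(11,0),(0,0),(6,3),(3,3),(6,1)]⟩ ⟨2,[(2,0),(5,0),(7,0)]⟩)) (.Q [0,-1,0,0,0,
  0,0,0,-1,0,0,1] (.p true [0,0,0,1] [] (⟨0,[(15,0)]⟩,⟨1,[(14,0),(8,0),(0,0)]⟩) .k 0 (⟨0,[]⟩,⟨0,
  []⟩) .k .k) (.R ⟨1,false,false,true,[1,0,0,-1],[1,-1],[0,1,0,0,0,0,0,0,-1],(⟨1,[(15,0),(8,0),(0,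
  0)]⟩,⟨0,[(16,0)]⟩),(⟨0,[(27,0)]⟩,⟨0,[(28,0)]⟩),⟨1,[(6,0),(3,0),(4,0)]⟩,.k,.k,(.x 0 ⟨1,[(6,0),(3,
  0),(7,0),(2,0)]⟩ ⟨3,[(13,0),(0,0),(13,3),(3,1)]⟩),(.r 0 ⟨5,[(0,1),(4,1),(7,1),(1,0),(3,1),(1,1),
  (2,0),(0,0),(5,3)]⟩ ⟨1,[(3,0),(10,0),(8,0)]⟩),.k,.k,⟨false,0,⟨1,[(0,1),(14,0),(1,0),(1,0),(11,
  1)]⟩,⟨1,[(3,0),(10,0),(8,0)]⟩⟩,⟨true,0,⟨1,[(15,0),(2,0),(2,0)]⟩,⟨0,[(16,0)]⟩⟩,⟨true,0,⟨0,[(35,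
  0)]⟩,⟨0,[]⟩⟩,⟨false,1,⟨9,[(3,1),(3,1),(6,4),(0,4),(2,0),(2,2),(4,0),(3,3),(2,1)]⟩,⟨0,[(0,0),(30,
  0)]⟩⟩,⟨false,0,⟨0,[(31,0)]⟩,⟨0,[(30,0),(2,0)]⟩⟩,⟨false,1,⟨7,[(13,0),(0,4),(0,3),(10,1)]⟩,⟨0,[(0,
  0)]⟩⟩,[.o ⟨false,0,⟨0,[(7,0),(11,0)]⟩,⟨3,[(13,0),(0,0),(16,3),(1,1)]⟩⟩,.o ⟨false,1,⟨1,[(26,0),(3,
  1),(2,0)]⟩,⟨0,[(31,0)]⟩⟩,.a ⟨true,0,⟨0,[(16,0)]⟩,⟨1,[(15,0),(8,0),(0,0)]⟩⟩ ⟨false,0,⟨1,[(0,1),(14,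
  0),(1,0),(1,0)]⟩,⟨1,[(14,0),(18,0)]⟩⟩ ⟨true,0,⟨3,[(7,0),(3,1),(3,1),(1,0),(12,0)]⟩,⟨0,[(16,0),(14,
  0)]⟩⟩,.o ⟨false,0,⟨0,[(8,0),(7,0),(4,0)]⟩,⟨7,[(13,0),(0,0),(0,3),(10,1),(5,3)]⟩⟩]⟩) (.I [0,0,0,1,
  0,0,0,0,1] (.R ⟨1,false,false,false,[1,0,0,-1],[0,-1,1],[1,1,0,-1,0,0,0,0,-1],(⟨1,[(16,0),(8,0),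
  (0,0)]⟩,⟨0,[(17,0)]⟩),(⟨0,[(7,0)]⟩,⟨0,[(25,0),(3,0)]⟩),⟨1,[(7,0),(3,0),(4,0)]⟩,.k,.k,(.r (-1) ⟨1,
  [(4,0),(9,0),(9,0)]⟩ ⟨1,[(0,1),(21,0),(0,0)]⟩),(.r 0 ⟨1,[(2,1),(13,0),(5,1),(2,0),(0,0),(5,3)]⟩
  ⟨3,[(0,1),(3,2),(10,0),(4,0),(2,0),(6,0)]⟩),.k,.k,⟨false,0,⟨1,[(2,1),(13,0),(3,1),(3,1),(0,0),(0,
  0),(5,1)]⟩,⟨0,[(0,0),(3,0),(25,0),(1,0)]⟩⟩,⟨true,0,⟨1,[(16,0),(5,1),(2,0),(0,0)]⟩,⟨0,[(9,0),(7,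
  0)]⟩⟩,⟨true,0,⟨0,[(31,0)]⟩,⟨0,[(32,0)]⟩⟩,⟨false,1,⟨1,[(0,1),(3,1),(11,0),(5,1),(2,0),(0,0),(3,
  1)]⟩,⟨0,[(2,0),(29,1)]⟩⟩,⟨false,0,⟨0,[]⟩,⟨3,[(14,0),(0,0),(18,1)]⟩⟩,⟨false,1,⟨1,[(0,1),(11,1),(3,
  0),(8,0),(0,0),(7,1)]⟩,⟨0,[(2,0),(29,0)]⟩⟩,[.o ⟨false,1,⟨3,[(12,3),(1,0),(0,0),(18,1)]⟩,⟨0,[(9,0),
  (14,0),(7,0)]⟩⟩,.o ⟨false,1,⟨0,[(12,0),(21,0)]⟩,⟨0,[(18,0),(13,0)]⟩⟩,.a ⟨true,0,⟨0,[(17,0)]⟩,⟨1,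
  [(16,0),(8,0),(0,0)]⟩⟩ ⟨true,0,⟨1,[(2,1),(13,0),(3,1),(4,0),(0,0)]⟩,⟨0,[(0,0)]⟩⟩ ⟨false,1,⟨1,[(12,
  1),(3,0),(8,0),(0,0),(7,1)]⟩,⟨0,[(0,0),(1,0),(29,0)]⟩⟩,.o ⟨false,0,⟨0,[(9,0),(7,0),(4,0)]⟩,⟨7,
  [(14,0),(0,0),(0,3),(10,1),(5,3)]⟩⟩]⟩) (.R ⟨1,false,false,false,[1,0,0,-1],[1,-1],[1,0,0,-1,0,0,0,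
  0,-1],(⟨1,[(16,0),(8,0),(0,0)]⟩,⟨0,[(17,0)]⟩),(⟨0,[(28,0)]⟩,⟨0,[(29,0)]⟩),⟨1,[(7,0),(3,0),(4,0)]⟩,
  .k,.k,(.r (-1) ⟨1,[(4,0),(9,0),(9,0)]⟩ ⟨0,[(1,0),(15,0),(12,0),(1,0)]⟩),(.r 0 ⟨3,[(0,1),(5,0),(7,
  0),(5,0),(1,0),(2,0),(0,0),(3,0),(1,4)]⟩ ⟨1,[(4,0),(10,0),(8,0)]⟩),.k,.k,⟨false,0,⟨0,[(0,0),(31,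
  0)]⟩,⟨1,[(15,0),(17,0)]⟩⟩,⟨true,0,⟨1,[(16,0),(2,0),(2,0)]⟩,⟨0,[(17,0)]⟩⟩,⟨false,1,⟨0,[(31,0),(2,
  0)]⟩,⟨0,[(32,0)]⟩⟩,⟨false,1,⟨1,[(1,1),(2,0),(19,0),(5,1),(3,0)]⟩,⟨0,[(0,0),(16,0),(14,1)]⟩⟩,⟨true,
  0,⟨0,[]⟩,⟨0,[(36,0)]⟩⟩,⟨false,1,⟨0,[(1,0),(32,0)]⟩,⟨0,[(0,0),(16,0),(14,0)]⟩⟩,[.o ⟨false,1,⟨1,
  [(27,0),(3,1),(2,0)]⟩,⟨0,[(32,0)]⟩⟩,.o ⟨false,1,⟨3,[(8,1),(3,1),(14,0),(6,2)]⟩,⟨0,[(32,0),(3,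
  0)]⟩⟩,.a ⟨true,0,⟨0,[(17,0)]⟩,⟨1,[(16,0),(8,0),(0,0)]⟩⟩ ⟨true,0,⟨0,[(0,0)]⟩,⟨0,[(1,0),(15,0),(14,
  0)]⟩⟩ ⟨false,1,⟨9,[(4,1),(3,1),(7,4),(2,0),(2,2),(4,0),(3,3),(2,6)]⟩,⟨0,[(17,0),(14,0)]⟩⟩,.o
  ⟨false,0,⟨0,[(9,0),(7,0),(4,0)]⟩,⟨7,[(14,0),(0,0),(0,3),(10,1),(5,3)]⟩⟩]⟩))) (.Q [0,-1,0,0,0,0,-1,
  -1,1,0,1,-1] (.p true [0,0,1] [0,0,0,1] (⟨0,[(24,0)]⟩,⟨0,[(23,0)]⟩) .k 2 (⟨0,[(15,0)]⟩,⟨1,[(14,0),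
  (8,0),(0,0)]⟩) .k (.r (-1) ⟨5,[(0,1),(1,0),(8,1),(0,3),(2,1),(2,2),(2,0),(6,0),(3,0)]⟩ ⟨0,[(0,0),
  (5,0),(8,0),(6,0)]⟩)) (.R ⟨1,false,false,true,[1,0,0,-1],[1,-1],[1,0,0,-1,0,0,0,0,-1],(⟨1,[(15,0),
  (8,0),(0,0)]⟩,⟨0,[(16,0)]⟩),(⟨0,[(27,0)]⟩,⟨0,[(28,0)]⟩),⟨1,[(6,0),(3,0),(4,0)]⟩,.k,.k,(.r (-1) ⟨1,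
  [(3,0),(9,0),(9,0)]⟩ ⟨2,[(1,0),(3,0),(8,0),(1,0),(4,0),(9,0)]⟩),(.x (-1) ⟨3,[(13,0),(0,0),(13,3),
  (3,1)]⟩ ⟨1,[(6,0),(3,0),(7,0),(2,0)]⟩),.k,.k,⟨false,1,⟨1,[(13,0),(19,0)]⟩,⟨0,[(1,0),(0,0),(8,0),
  (4,0),(6,1)]⟩⟩,⟨true,0,⟨1,[(15,0),(2,0),(2,0)]⟩,⟨0,[(16,0)]⟩⟩,⟨false,1,⟨0,[(30,0),(2,0)]⟩,⟨0,[(31,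
  0)]⟩⟩,⟨false,0,⟨0,[(0,0),(10,0)]⟩,⟨1,[(13,0),(2,1),(14,1),(1,0)]⟩⟩,⟨true,0,⟨0,[]⟩,⟨0,[(35,0)]⟩⟩,
  ⟨false,0,⟨0,[(0,0),(18,0)]⟩,⟨1,[(13,0),(2,1),(16,0)]⟩⟩,[.o ⟨false,0,⟨0,[(7,0),(11,0)]⟩,⟨3,[(13,0),
  (0,0),(16,3),(1,1)]⟩⟩,.o ⟨false,1,⟨1,[(26,0),(3,1),(2,0)]⟩,⟨0,[(31,0)]⟩⟩,.a ⟨true,0,⟨0,[(16,0)]⟩,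
  ⟨1,[(15,0),(8,0),(0,0)]⟩⟩ ⟨false,1,⟨1,[(3,0),(9,0),(9,0),(5,1)]⟩,⟨0,[(1,0),(6,0),(7,0),(6,0)]⟩⟩
  ⟨true,0,⟨3,[(7,0),(3,1),(3,1),(1,0),(12,0)]⟩,⟨0,[(16,0),(14,0)]⟩⟩,.o ⟨false,0,⟨0,[(8,0),(7,0),(4,
  0)]⟩,⟨7,[(13,0),(0,0),(0,3),(10,1),(5,3)]⟩⟩]⟩) (.R ⟨1,true,false,true,[1,0,-1],[0,0,1],[0,1,0,0,0,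
  0,0,-1],(⟨0,[(24,0)]⟩,⟨0,[(25,0)]⟩),(⟨0,[(25,0)]⟩,⟨0,[(24,0)]⟩),⟨0,[(10,0)]⟩,.k,.k,.k,.k,(.r (-1)
  ⟨3,[(3,1),(9,0),(0,0),(8,9)]⟩ ⟨0,[(0,0),(0,0),(10,0),(16,0)]⟩),.k,⟨true,0,⟨0,[(23,1)]⟩,⟨0,[(0,0),
  (0,0),(1,0),(1,0),(23,0)]⟩⟩,⟨false,1,⟨1,[(0,1),(0,1),(1,0),(19,4),(9,0)]⟩,⟨0,[(12,0)]⟩⟩,⟨true,0,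
  ⟨0,[(35,0)]⟩,⟨0,[]⟩⟩,⟨false,1,⟨5,[(0,3),(0,3),(9,3),(1,0),(0,0),(9,1),(0,1),(7,3)]⟩,⟨0,[(2,0),(20,
  1),(5,0)]⟩⟩,⟨false,0,⟨0,[(31,0)]⟩,⟨0,[(30,0),(2,0)]⟩⟩,⟨true,0,⟨0,[(0,0),(0,0)]⟩,⟨0,[(9,0)]⟩⟩,
  []⟩)))))) (.Q [0,0,0,0,0,-1,0,0,0,0,0,1] (.p true [0,0,0,1] [] (⟨0,[(11,0)]⟩,⟨1,[(10,0),(8,0),(0,
  0)]⟩) .k 0 (⟨0,[]⟩,⟨0,[]⟩) .k .k) (.Q [0,0,1,0,0,0,2,0,0,1,-2] (.p false [0,0,1] [1,0,-1] (⟨0,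
  [(21,0)]⟩,⟨0,[(20,0)]⟩) .k 2 (⟨0,[(20,0)]⟩,⟨0,[(21,0)]⟩) .k (.r (-1) ⟨0,[(8,0),(6,1),(4,0),(0,0),
  (7,0)]⟩ ⟨0,[(19,1)]⟩)) (.K ⟨2,[1,1,-1],0,0,(⟨0,[(21,0),(3,0)]⟩,⟨0,[(3,0)]⟩),.k,.k,(.x (-1) ⟨0,[(5,
  0),(15,0),(3,1),(3,0)]⟩ ⟨1,[(3,2),(3,0),(7,0),(2,2)]⟩),(.r 0 ⟨2,[(0,0),(14,0),(1,0),(2,4),(5,0),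
  (1,2)]⟩ ⟨1,[(2,1),(6,2),(6,1),(4,0),(0,0),(3,1)]⟩),.k,[⟨0,[(0,0)]⟩,⟨0,[(5,0)]⟩,⟨0,[(8,0),(12,0),
  (0,0)]⟩,⟨0,[(14,0),(13,0)]⟩]⟩) (.Q [0,0,0,0,0,0,0,0,-1,-1,0,1] (.p true [0,0,0,1] [1] (⟨0,[(13,
  0)]⟩,⟨1,[(12,0),(8,0),(0,0)]⟩) .k 1 (⟨0,[]⟩,⟨0,[]⟩) .k .k) (.Q [0,-1,0,0,0,0,0,0,-1,0,0,1] (.p
  true [0,0,0,1] [] (⟨0,[(14,0)]⟩,⟨1,[(13,0),(8,0),(0,0)]⟩) .k 0 (⟨0,[]⟩,⟨0,[]⟩) .k .k) (.R ⟨1,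
  false,false,false,[0,0,0,1],[1,0,-1],[0,0,0,0,0,0,0,0,1],(⟨0,[(15,0)]⟩,⟨1,[(14,0),(8,0),(0,0)]⟩),
  (⟨0,[(23,0)]⟩,⟨0,[(24,0)]⟩),⟨0,[(3,0)]⟩,.k,.k,(.r (-1) ⟨3,[(2,0),(1,1),(3,0),(4,1),(14,0),(0,0)]⟩
  ⟨1,[(0,0),(0,0),(12,0),(5,0),(0,0),(8,1),(3,0)]⟩),.k,(.r (-1) ⟨5,[(2,3),(1,2),(5,2),(2,2),(7,0),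
  (1,0),(0,0),(3,2)]⟩ ⟨5,[(0,3),(0,1),(12,2),(2,0),(1,3),(0,4),(1,1),(7,5)]⟩),.k,⟨false,1,⟨5,[(2,3),
  (1,1),(8,2),(4,3),(4,1),(0,1),(3,1),(1,1),(1,0)]⟩,⟨1,[(0,0),(0,0),(12,0),(7,1),(11,0)]⟩⟩,⟨true,0,
  ⟨0,[(7,0),(7,0)]⟩,⟨1,[(14,0),(5,1),(2,0),(0,0)]⟩⟩,⟨false,1,⟨3,[(12,0),(0,0),(18,1)]⟩,⟨0,[]⟩⟩,
  ⟨false,0,⟨0,[(0,0),(6,0),(14,0)]⟩,⟨1,[(13,0),(0,0),(3,1),(4,0),(0,0),(7,0)]⟩⟩,⟨true,0,⟨0,[(30,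
  0)]⟩,⟨0,[(29,0)]⟩⟩,⟨false,0,⟨0,[(0,0),(6,0),(14,0),(7,0)]⟩,⟨1,[(4,0),(5,0),(2,0),(0,0),(6,0),(6,
  0)]⟩⟩,[.o ⟨false,0,⟨0,[(7,0),(14,0)]⟩,⟨3,[(12,0),(0,0),(4,3),(13,1)]⟩⟩,.o ⟨false,1,⟨2,[(8,0),(10,
  0),(5,0),(4,0),(1,1)]⟩,⟨0,[(18,0)]⟩⟩,.a ⟨true,0,⟨1,[(14,0),(8,0),(0,0)]⟩,⟨0,[(15,0)]⟩⟩ ⟨false,1,
  ⟨1,[(13,0),(18,0)]⟩,⟨1,[(0,0),(0,0),(12,0),(19,0)]⟩⟩ ⟨true,0,⟨0,[(7,0),(7,0),(6,0)]⟩,⟨1,[(14,0),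
  (3,1),(4,0),(0,0)]⟩⟩,.o ⟨false,0,⟨1,[(14,0),(2,0),(2,0)]⟩,⟨1,[(15,1),(9,0),(5,0)]⟩⟩]⟩) (.R ⟨1,
  false,false,true,[0,0,0,1],[1,0,-1],[0,1,0,0,0,0,0,0,1],(⟨0,[(15,0)]⟩,⟨1,[(14,0),(8,0),(0,0)]⟩),
  (⟨0,[(23,0)]⟩,⟨0,[(24,0)]⟩),⟨0,[(3,0)]⟩,.k,.k,(.r (-1) ⟨3,[(2,0),(1,1),(3,0),(4,1),(14,0),(0,0)]⟩
  ⟨1,[(1,1),(12,0),(5,0),(0,0),(1,0),(0,0),(5,1)]⟩),.k,(.r (-1) ⟨5,[(2,3),(1,2),(5,2),(2,2),(7,0),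
  (1,0),(0,0),(3,2)]⟩ ⟨1,[(1,1),(12,0),(4,0),(0,0),(1,0),(0,0),(0,0),(3,0),(1,1)]⟩),.k,⟨false,1,⟨5,
  [(2,3),(1,1),(8,2),(4,3),(4,1),(0,1),(3,1),(1,1),(1,0)]⟩,⟨1,[(1,1),(12,0),(7,1),(0,0),(0,0)]⟩⟩,
  ⟨true,0,⟨0,[(7,0),(7,0)]⟩,⟨1,[(14,0),(5,1),(2,0),(0,0)]⟩⟩,⟨true,0,⟨0,[(34,0)]⟩,⟨0,[]⟩⟩,⟨false,0,
  ⟨1,[(1,1),(6,0),(14,0),(0,0),(5,0)]⟩,⟨2,[(0,0),(1,0),(1,1),(8,0),(0,0),(3,0),(4,0),(0,0),(3,4),(1,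
  1)]⟩⟩,⟨false,0,⟨0,[(30,0)]⟩,⟨0,[(29,0),(2,0)]⟩⟩,⟨false,0,⟨1,[(1,1),(6,0),(14,0),(0,0),(5,2)]⟩,⟨2,
  [(0,0),(1,0),(1,1),(5,0),(2,0),(0,0),(8,0),(0,0),(3,4)]⟩⟩,[.o ⟨false,0,⟨0,[(16,0)]⟩,⟨0,[(18,0),
  (13,0)]⟩⟩,.o ⟨false,0,⟨0,[(7,0),(14,0)]⟩,⟨3,[(12,0),(0,0),(4,3),(13,1)]⟩⟩,.a ⟨true,0,⟨1,[(14,0),
  (8,0),(0,0)]⟩,⟨0,[(15,0)]⟩⟩ ⟨true,0,⟨0,[(0,0),(14,0)]⟩,⟨1,[(1,1),(12,0),(8,0),(0,0)]⟩⟩ ⟨false,0,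
  ⟨0,[(7,0),(7,0),(6,0)]⟩,⟨1,[(14,0),(3,1),(4,0),(0,0),(7,1)]⟩⟩,.o ⟨false,0,⟨1,[(14,0),(2,0),(2,
  0)]⟩,⟨1,[(15,1),(9,0),(5,0)]⟩⟩]⟩)) (.Q [0,0,0,-1,0,0,0,0,1,0,0,-1] (.p false [0,0,0,1] [] (⟨0,
  [(14,0)]⟩,⟨1,[(13,0),(8,0),(0,0)]⟩) .k 0 (⟨0,[]⟩,⟨0,[]⟩) .k .k) (.I [0,-1,0,1,0,0,0,-1,1] (.R ⟨1,
  false,false,false,[1,0,0,-1],[1,0,-1],[0,0,0,0,0,0,0,0,-1],(⟨1,[(15,0),(8,0),(0,0)]⟩,⟨0,[(16,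
  0)]⟩),(⟨0,[(24,0)]⟩,⟨0,[(25,0)]⟩),⟨1,[(6,0),(3,0),(4,0)]⟩,.k,.k,(.r (-1) ⟨3,[(3,0),(1,1),(3,0),(3,
  1),(15,0),(0,0)]⟩ ⟨0,[(0,0),(18,0),(2,0)]⟩),.k,(.r (-1) ⟨5,[(3,3),(1,2),(5,2),(1,2),(8,0),(1,0),
  (0,0),(3,2)]⟩ ⟨1,[(0,1),(20,0),(0,0),(12,1)]⟩),.k,⟨false,1,⟨5,[(3,3),(1,1),(7,2),(5,3),(4,1),(0,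
  1),(3,1),(1,1),(1,0)]⟩,⟨0,[(0,0),(29,0)]⟩⟩,⟨true,0,⟨1,[(12,0),(2,0)]⟩,⟨0,[(16,0),(4,0)]⟩⟩,⟨false,
  1,⟨3,[(13,0),(0,0),(18,1)]⟩,⟨0,[]⟩⟩,⟨false,0,⟨2,[(0,1),(0,0),(1,0),(3,0),(7,0),(8,0),(0,0),(3,
  0)]⟩,⟨1,[(13,0),(2,1),(2,1),(13,0)]⟩⟩,⟨true,0,⟨0,[(31,0)]⟩,⟨0,[(30,0)]⟩⟩,⟨false,0,⟨1,[(0,1),(11,
  0),(2,0)]⟩,⟨1,[(11,1),(1,0),(2,1),(16,0)]⟩⟩,[.o ⟨false,0,⟨0,[(8,0),(14,0)]⟩,⟨3,[(13,0),(0,0),(4,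
  3),(13,1)]⟩⟩,.o ⟨false,1,⟨23,[(0,7),(8,7),(2,3),(0,6),(0,2),(11,5),(6,7)]⟩,⟨0,[(19,0)]⟩⟩,.a ⟨true,
  0,⟨0,[(16,0)]⟩,⟨1,[(15,0),(8,0),(0,0)]⟩⟩ ⟨false,1,⟨1,[(13,0),(19,0)]⟩,⟨4,[(0,1),(0,1),(0,0),(9,0),
  (3,2),(2,1)]⟩⟩ ⟨true,0,⟨1,[(9,0),(5,0),(15,0)]⟩,⟨0,[(16,0),(2,0)]⟩⟩,.o ⟨false,0,⟨0,[(8,0),(7,0),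
  (4,0)]⟩,⟨7,[(13,0),(0,0),(0,3),(10,1),(5,3)]⟩⟩]⟩) (.R ⟨1,false,false,false,[0,0,0,1],[1,-1],[0,0,
  0,0,0,0,0,0,1],(⟨0,[(16,0)]⟩,⟨1,[(15,0),(8,0),(0,0)]⟩),(⟨0,[(27,0)]⟩,⟨0,[(28,0)]⟩),⟨0,[(4,0)]⟩,.k,
  .k,(.r (-1) ⟨13,[(0,1),(0,1),(1,1),(1,5),(3,3),(4,6),(1,1),(16,0)]⟩ ⟨0,[(0,0),(22,0),(5,0),(1,
  1)]⟩),(.r 0 ⟨1,[(1,0),(0,0),(13,1),(1,0),(2,0),(9,2)]⟩ ⟨35,[(0,7),(2,3),(1,15),(3,11),(3,14),(0,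
  0),(18,3)]⟩),.k,.k,⟨false,0,⟨0,[(1,0),(14,0),(14,1)]⟩,⟨35,[(0,7),(2,3),(1,15),(3,11),(3,14),(0,0),
  (18,3)]⟩⟩,⟨true,0,⟨0,[(8,0),(7,0),(4,0)]⟩,⟨1,[(15,0),(8,0),(0,0)]⟩⟩,⟨false,1,⟨3,[(13,0),(0,0),(18,
  1)]⟩,⟨0,[]⟩⟩,⟨false,1,⟨0,[(0,0),(4,0),(2,1),(7,0),(6,1),(5,1),(1,0)]⟩,⟨0,[(2,0),(28,0)]⟩⟩,⟨true,0,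
  ⟨0,[(31,0)]⟩,⟨0,[(30,0)]⟩⟩,⟨false,1,⟨0,[(0,0),(4,0),(2,1),(7,0),(6,1),(5,1),(1,1)]⟩,⟨0,[(2,0)]⟩⟩,
  [.o ⟨false,1,⟨1,[(26,0),(3,1),(2,0)]⟩,⟨0,[(31,0)]⟩⟩,.o ⟨false,1,⟨3,[(7,1),(3,1),(14,0),(6,2)]⟩,⟨0,
  [(31,0),(3,0)]⟩⟩,.a ⟨true,0,⟨1,[(15,0),(8,0),(0,0)]⟩,⟨0,[(16,0)]⟩⟩ ⟨true,0,⟨0,[(1,0),(14,0),(14,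
  0)]⟩,⟨0,[(0,0),(22,0),(7,0)]⟩⟩ ⟨false,1,⟨3,[(7,1),(3,1),(4,3),(9,0),(6,2)]⟩,⟨1,[(15,0),(8,0),(0,
  0),(5,1)]⟩⟩,.o ⟨false,0,⟨1,[(15,0),(2,0),(2,0)]⟩,⟨1,[(16,1),(9,0),(5,0)]⟩⟩]⟩)) (.I [1,0,0,0,0,0,0,
  0,-1] (.R ⟨2,false,false,false,[0,1],[0,0,0,1],[0,1,1,1],(⟨0,[]⟩,⟨0,[]⟩),(⟨0,[(16,0)]⟩,⟨1,[(15,0),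
  (8,0),(0,0)]⟩),⟨0,[]⟩,.k,.k,.k,(.r 0 ⟨1,[(1,1),(13,0),(2,0),(2,0)]⟩ ⟨3,[(3,0),(1,1),(3,0),(4,1),
  (14,0),(0,0)]⟩),.k,.k,⟨false,0,⟨1,[(1,1),(13,0),(1,0),(1,0)]⟩,⟨0,[(2,0),(2,0),(2,1),(7,0),(6,0),
  (5,0)]⟩⟩,⟨true,0,⟨1,[(15,0),(2,0),(2,0)]⟩,⟨0,[(16,0)]⟩⟩,⟨true,0,⟨0,[(35,0)]⟩,⟨0,[]⟩⟩,⟨false,1,⟨3,
  [(2,3),(4,1),(3,1),(14,0),(6,2)]⟩,⟨0,[(1,0)]⟩⟩,⟨false,0,⟨0,[(31,0)]⟩,⟨0,[(30,0),(2,0)]⟩⟩,⟨false,1,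
  ⟨1,[(2,1),(23,0),(6,0)]⟩,⟨0,[(0,0),(15,0)]⟩⟩,[.a ⟨true,0,⟨0,[(2,0)]⟩,⟨0,[(0,0),(15,0)]⟩⟩ ⟨false,0,
  ⟨0,[(31,0),(3,0)]⟩,⟨3,[(3,0),(1,1),(3,0),(19,0),(0,0),(2,1)]⟩⟩ ⟨true,0,⟨0,[(2,0),(5,0),(12,0)]⟩,
  ⟨0,[(0,0),(15,0)]⟩⟩,.o ⟨false,1,⟨1,[(2,1),(23,0),(6,0)]⟩,⟨0,[(1,0),(5,0),(11,0)]⟩⟩,.o ⟨false,1,⟨3,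
  [(13,0),(0,0),(17,1)]⟩,⟨0,[(8,0),(12,0)]⟩⟩,.e ⟨false,0,⟨0,[(31,0)]⟩,⟨0,[(30,0),(2,0)]⟩⟩ ⟨false,1,
  ⟨1,[(2,1),(23,0),(6,0)]⟩,⟨0,[(0,0),(15,0)]⟩⟩]⟩) (.R ⟨1,false,false,false,[0,0,0,1],[1,-1],[0,0,0,
  0,0,0,0,0,1],(⟨0,[(16,0)]⟩,⟨1,[(15,0),(8,0),(0,0)]⟩),(⟨0,[(27,0)]⟩,⟨0,[(28,0)]⟩),⟨0,[(4,0)]⟩,.k,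
  .k,(.r (-1) ⟨4,[(0,0),(2,0),(1,1),(3,0),(4,1),(15,1),(2,0)]⟩ ⟨1,[(1,1),(13,0),(2,0),(2,0)]⟩),(.r
  0 ⟨1,[(0,1),(20,0),(0,0),(8,1)]⟩ ⟨3,[(3,0),(1,1),(3,0),(3,1),(15,0),(0,0)]⟩),.k,.k,⟨false,0,⟨0,
  [(0,0),(30,0)]⟩,⟨3,[(3,0),(1,1),(3,0),(3,1),(15,0),(0,0)]⟩⟩,⟨true,0,⟨0,[(8,0),(7,0),(4,0)]⟩,⟨1,
  [(15,0),(8,0),(0,0)]⟩⟩,⟨false,1,⟨3,[(13,0),(0,0),(18,1)]⟩,⟨0,[]⟩⟩,⟨false,1,⟨0,[(1,0),(5,0),(3,0),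
  (21,0)]⟩,⟨0,[(2,0),(28,0)]⟩⟩,⟨true,0,⟨0,[(31,0)]⟩,⟨0,[(30,0)]⟩⟩,⟨false,1,⟨3,[(1,3),(5,1),(3,1),
  (14,0),(6,2)]⟩,⟨0,[(2,0)]⟩⟩,[.o ⟨false,1,⟨1,[(26,0),(3,1),(2,0)]⟩,⟨0,[(31,0)]⟩⟩,.o ⟨false,1,⟨3,
  [(7,1),(3,1),(14,0),(6,2)]⟩,⟨0,[(31,0),(3,0)]⟩⟩,.a ⟨true,0,⟨1,[(15,0),(8,0),(0,0)]⟩,⟨0,[(16,0)]⟩⟩
  ⟨true,0,⟨0,[(0,0)]⟩,⟨3,[(1,3),(5,0),(3,1),(3,1),(1,0),(12,0)]⟩⟩ ⟨false,1,⟨3,[(7,1),(3,1),(4,3),(9,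
  0),(6,2)]⟩,⟨1,[(1,0),(0,0),(12,0),(15,0)]⟩⟩,.o ⟨false,0,⟨1,[(15,0),(2,0),(2,0)]⟩,⟨1,[(16,1),(9,0),
  (5,0)]⟩⟩]⟩))))) (.I [0,0,-2,-2,1,0,0,1] (.Q [0,0,1,0,0,0,2,0,0,1,-2] (.p false [0,0,1] [1,0,-1]
  (⟨0,[(22,0)]⟩,⟨0,[(21,0)]⟩) .k 2 (⟨0,[(21,0)]⟩,⟨0,[(22,0)]⟩) .k (.r (-1) ⟨0,[(9,0),(6,1),(4,0),(0,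
  0),(7,0)]⟩ ⟨0,[(20,1)]⟩)) (.K ⟨2,[1,1,-1],0,0,(⟨0,[(22,0),(3,0)]⟩,⟨0,[(4,0)]⟩),.k,.k,(.r 0 ⟨0,
  [(18,0),(0,0),(7,0),(1,1)]⟩ ⟨0,[(1,0)]⟩),(.r 0 ⟨1,[(18,0),(0,0),(1,2),(5,0),(1,1)]⟩ ⟨1,[(1,1),(8,
  0),(6,1),(4,0),(0,0),(3,1),(1,1)]⟩),.k,[⟨0,[(0,0)]⟩,⟨0,[(6,0)]⟩,⟨0,[(9,0),(12,0),(0,0)]⟩,⟨0,[(15,
  0),(13,0)]⟩]⟩) (.Q [0,-1,0,0,0,0,-1,-1,-1,-1,1,1] (.p true [0,0,1] [1,0,0,-1] (⟨0,[(23,0)]⟩,⟨0,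
  [(22,0)]⟩) .k 2 (⟨1,[(13,0),(8,0),(0,0)]⟩,⟨0,[(14,0)]⟩) .k (.x (-1) ⟨15,[(3,3),(7,4),(0,4),(6,7),
  (1,3),(1,15),(0,1),(4,3)]⟩ ⟨0,[(6,0),(15,0)]⟩)) (.R ⟨0,false,false,false,[0,0,0,1],[1,0,-1],[1,0,
  0,0,0,0,0,0,1],(⟨0,[(15,0)]⟩,⟨1,[(14,0),(8,0),(0,0)]⟩),(⟨0,[(23,0)]⟩,⟨0,[(24,0)]⟩),⟨0,[(3,0)]⟩,.k,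
  .k,(.r (-1) ⟨3,[(2,0),(1,0),(3,0),(4,1)]⟩ ⟨1,[(0,1),(13,0),(3,1),(1,0),(0,0),(1,0),(0,0),(5,1)]⟩),
  .k,.k,.k,⟨false,1,⟨5,[(1,3),(2,1),(8,2),(4,3),(4,1),(0,1),(3,1),(1,1),(1,0)]⟩,⟨1,[(0,1),(13,0),(3,
  1),(3,1),(0,0),(0,0)]⟩⟩,⟨true,0,⟨0,[(7,0),(7,0)]⟩,⟨1,[(14,0),(5,1),(2,0),(0,0)]⟩⟩,⟨true,0,⟨0,[]⟩,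
  ⟨0,[(34,0)]⟩⟩,⟨false,0,⟨0,[(0,0)]⟩,⟨1,[(13,0),(0,0),(3,1),(4,0),(0,0),(7,0)]⟩⟩,⟨false,0,⟨0,[]⟩,⟨0,
  []⟩⟩,⟨false,0,⟨0,[]⟩,⟨0,[]⟩⟩,[.o ⟨false,0,⟨0,[(7,0),(14,0)]⟩,⟨3,[(12,0),(0,0),(4,3),(13,1)]⟩⟩,.o
  ⟨false,1,⟨2,[(8,0),(10,0),(5,0),(4,0),(1,1)]⟩,⟨0,[(18,0)]⟩⟩,.a ⟨true,0,⟨1,[(14,0),(8,0),(0,0)]⟩,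
  ⟨0,[(15,0)]⟩⟩ ⟨false,1,⟨1,[(13,0),(18,0)]⟩,⟨1,[(0,1),(13,0),(3,1),(4,0),(0,0)]⟩⟩ ⟨true,0,⟨0,[(7,
  0),(7,0),(6,0)]⟩,⟨1,[(14,0),(3,1),(4,0),(0,0)]⟩⟩,.o ⟨false,0,⟨1,[(14,0),(2,0),(2,0)]⟩,⟨1,[(15,1),
  (9,0),(5,0)]⟩⟩]⟩) (.Q [0,-1,0,0,0,0,-1,-1,1,0,1,-1] (.p true [0,0,1] [0,0,0,1] (⟨0,[(24,0)]⟩,⟨0,
  [(23,0)]⟩) .k 2 (⟨0,[(15,0)]⟩,⟨1,[(14,0),(8,0),(0,0)]⟩) .k (.x (-1) ⟨15,[(4,3),(7,4),(0,4),(6,7),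
  (1,3),(1,15),(0,1),(4,3)]⟩ ⟨0,[(7,0),(15,0)]⟩)) (.R ⟨1,false,false,false,[1,0,0,-1],[1,0,-1],[0,0,
  0,0,0,0,0,0,-1],(⟨1,[(15,0),(8,0),(0,0)]⟩,⟨0,[(16,0)]⟩),(⟨0,[(24,0)]⟩,⟨0,[(25,0)]⟩),⟨1,[(6,0),(3,
  0),(4,0)]⟩,.k,.k,(.r (-1) ⟨3,[(3,0),(1,0),(3,0),(3,1)]⟩ ⟨1,[(0,0),(0,0),(14,1),(1,0),(2,0),(9,
  1)]⟩),.k,(.r (-1) ⟨3,[(2,1),(0,0),(1,0),(5,0),(1,1),(5,0),(4,0),(0,0),(3,1)]⟩ ⟨3,[(0,2),(0,0),(14,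
  3),(0,0),(2,0),(0,3),(9,3)]⟩),.k,⟨false,1,⟨5,[(2,3),(2,1),(7,2),(5,3),(4,1),(0,1),(3,1),(1,1),(1,
  0)]⟩,⟨0,[(0,0),(15,0),(2,0),(3,0)]⟩⟩,⟨true,0,⟨1,[(12,0),(2,0)]⟩,⟨0,[(16,0),(4,0)]⟩⟩,⟨false,1,⟨3,
  [(13,0),(0,0),(18,1)]⟩,⟨0,[]⟩⟩,⟨false,0,⟨0,[(0,0)]⟩,⟨1,[(13,0),(2,1),(2,1),(13,0)]⟩⟩,⟨true,0,⟨0,
  [(31,0)]⟩,⟨0,[(30,0)]⟩⟩,⟨false,0,⟨0,[(0,0),(30,0)]⟩,⟨1,[(11,1),(1,0),(2,1),(16,0)]⟩⟩,[.o ⟨false,0,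
  ⟨0,[(8,0),(14,0)]⟩,⟨3,[(13,0),(0,0),(4,3),(13,1)]⟩⟩,.o ⟨false,1,⟨2,[(9,0),(10,0),(5,0),(4,0),(1,
  1)]⟩,⟨0,[(19,0)]⟩⟩,.a ⟨true,0,⟨0,[(16,0)]⟩,⟨1,[(15,0),(8,0),(0,0)]⟩⟩ ⟨false,1,⟨1,[(13,0),(19,0)]⟩,
  ⟨0,[(0,0),(15,0),(2,0)]⟩⟩ ⟨true,0,⟨1,[(9,0),(5,0),(15,0)]⟩,⟨0,[(16,0),(2,0)]⟩⟩,.o ⟨false,0,⟨0,[(8,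
  0),(7,0),(4,0)]⟩,⟨7,[(13,0),(0,0),(0,3),(10,1),(5,3)]⟩⟩]⟩) (.R ⟨0,false,false,true,[0,0,0,1],[0,0,
  1],[0,1,1,0,0,0,0,1],(⟨0,[(16,0)]⟩,⟨1,[(15,0),(8,0),(0,0)]⟩),(⟨0,[(25,0)]⟩,⟨0,[(24,0)]⟩),⟨0,[(4,
  0)]⟩,.k,.k,(.r (-1) ⟨3,[(3,0),(1,0),(3,0),(4,1)]⟩ ⟨1,[(0,1),(8,0),(5,0),(13,1),(1,2)]⟩),.k,.k,.k,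
  ⟨true,0,⟨1,[(21,0),(0,0)]⟩,⟨0,[]⟩⟩,⟨false,1,⟨5,[(0,1),(4,1),(8,0),(1,3),(6,3),(2,0),(4,1),(0,0),
  (0,0)]⟩,⟨1,[(12,0),(2,0)]⟩⟩,⟨false,0,⟨1,[(0,1),(11,0),(2,0),(13,1)]⟩,⟨0,[(1,0),(0,0),(2,0),(2,0),
  (7,0),(6,2),(5,1),(1,0)]⟩⟩,⟨true,0,⟨0,[(0,0)]⟩,⟨0,[(1,0),(0,0),(20,1),(5,0)]⟩⟩,⟨false,0,⟨0,[]⟩,⟨0,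
  []⟩⟩,⟨false,0,⟨0,[]⟩,⟨0,[]⟩⟩,[.o ⟨false,0,⟨0,[(19,0)]⟩,⟨2,[(9,0),(10,0),(5,0),(4,0),(1,1)]⟩⟩,.o
  ⟨false,1,⟨7,[(0,3),(0,3),(11,0),(0,0),(11,1),(6,3)]⟩,⟨0,[(8,0),(14,0)]⟩⟩,.a ⟨true,0,⟨1,[(15,0),(8,
  0),(0,0)]⟩,⟨0,[(16,0)]⟩⟩ ⟨false,0,⟨1,[(0,0),(0,0),(10,0),(16,1)]⟩,⟨1,[(23,1),(8,0),(0,0)]⟩⟩ ⟨true,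
  0,⟨0,[(16,0),(2,0)]⟩,⟨1,[(9,0),(5,0),(15,0)]⟩⟩,.o ⟨false,0,⟨1,[(15,0),(2,0),(2,0)]⟩,⟨1,[(16,1),(9,
  0),(5,0)]⟩⟩]⟩)))) (.K ⟨2,[1,1,-1],0,0,(⟨0,[(21,0),(3,0)]⟩,⟨0,[(3,0)]⟩),.k,.k,(.x (-1) ⟨0,[(5,0),
  (15,0),(3,1),(3,0)]⟩ ⟨1,[(3,2),(3,0),(7,0),(2,2)]⟩),(.r 0 ⟨3,[(0,1),(9,0),(0,0),(8,5)]⟩ ⟨1,[(2,1),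
  (6,2),(6,1),(4,0),(0,0),(3,1)]⟩),.k,[⟨0,[(0,0),(1,0),(23,0),(0,0)]⟩,⟨0,[(5,0)]⟩,⟨0,[(8,0),(12,0),
  (0,0)]⟩,⟨0,[(14,0),(13,0)]⟩]⟩))))

theorem ok6 : chk (cU (-1) false 2) t6 r5 = true := by decide +kernel

noncomputable def t7 : Tre :=
  .Q [0,0,0,0,0,1,0,0,0,0,-1] (.ed true [1,-1,1] .k) t5 t6

theorem ok7 : chk (cU (-1) false 2) t7 r4 = true :=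
  chk_Q (e' := [0,0,0,0,0,-1,0,0,0,0,1]) (by decide +kernel) (by decide +kernel) ok5 ok6

noncomputable def t8 : Tre :=
  .Q [0,0,0,1,0,0,1,1,0,1,-1] (.p false [0,0,1] [1] (⟨0,[(17,0)]⟩,⟨0,[(16,0)]⟩) .k 1 (⟨0,[]⟩,⟨0,
  []⟩) .k .k) t4 t7

theorem ok8 : chk (cU (-1) false 2) t8 r3 = true :=
  chk_Q (e' := [0,0,0,-1,0,0,-1,-1,0,-1,1]) (by decide +kernel) (by decide +kernel) ok4 ok7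

noncomputable def t9 : Tre :=
  .Q [0,0,0,0,0,0,1,0,0,1,-1] (.p false [0,0,1] [1] (⟨0,[(16,0)]⟩,⟨0,[(15,0)]⟩) .k 1 (⟨0,[]⟩,⟨0,
  []⟩) .k .k) t3 t8

theorem ok9 : chk (cU (-1) false 2) t9 r2 = true :=
  chk_Q (e' := [0,0,0,0,0,0,-1,0,0,-1,1]) (by decide +kernel) (by decide +kernel) ok3 ok8

noncomputable def t10 : Tre :=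
  .Q [0,0,0,1,0,0,2,2,0,1,-2] (.p false [0,0,1] [1,0,-1] (⟨0,[(15,0)]⟩,⟨0,[(14,0)]⟩) .k 2 (⟨0,[(14,
  0)]⟩,⟨0,[(15,0)]⟩) .k (.r (-1) ⟨0,[(2,0),(6,1),(4,0),(0,0),(7,0)]⟩ ⟨0,[(13,1)]⟩)) t2 t9

theorem ok10 : chk (cU (-1) false 2) t10 r1 = true :=
  chk_Q (e' := [0,0,0,-1,0,0,-2,-2,0,-1,2]) (by decide +kernel) (by decide +kernel) ok2 ok9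

noncomputable def t11 : Tre :=
  .Q [0,0,0,0,0,1,0,0,0,-1,1] (.ed false [0,1,1] .k) t1 t10

theorem ok11 : chk (cU (-1) false 2) t11 r0 = true :=
  chk_Q (e' := [0,0,0,0,0,-1,0,0,0,1,-1]) (by decide +kernel) (by decide +kernel) ok1 ok10

noncomputable def t12 : Tre :=
  .Q [0,-1,0,1,0,0,-1,-1,0,0,1] (.p true [0,0,1] [] (⟨0,[(13,0)]⟩,⟨0,[(12,0)]⟩) .k 0 (⟨0,[]⟩,⟨0,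
  []⟩) .k .k) t0 t11

theorem ok12 : chk (cU (-1) false 2) t12 base = true :=
  chk_Q (e' := [0,1,0,-1,0,0,1,1,0,0,-1]) (by decide +kernel) (by decide +kernel) ok0 ok11

theorem ok : chkB (cU (-1) false 2) (fax (fcU (-1)) true 3 (-1) 2 false (tU false)) t12 base = true :=
  chkB_of (by decide +kernel) ok12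

end Helper11.CT.T1_3_m1_m1_v
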