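import Pool.Agent.Helper11.CT.Cfg
import Pool.Agent.Helper11.CT.Cut

set_option autoImplicit false
set_option linter.all false

namespace Helper11.CT.T1_3_m1_m1_v2

open Helper11.CT

noncomputable def base : List Con :=
  [(false,[0,0,0,0,0,-2,0,0,2,-2]),
  (false,[0,0,0,0,0,0,0,0,0,1]),
  (false,[0,1,0,0,0,-1,-1,0,1,-2]),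
  (false,[0,0,1,0,0,-1,0,0,1,-2]),
  (false,[0,1,0,0,0,1,1,0,-1]),
  (false,[0,1,0,0,0,-1,-1,0,1]),
  (false,[0,0,1,0,0,1,0,0,-1]),
  (false,[0,0,1,0,0,-1,0,0,1]),
  (true,[0,0,0,0,0,0,-1]),
  (false,[0,0,0,0,0,0,0,0,-1,2]),
  (false,[0,0,0,0,0,0,0,0,1]),
  (false,[0,0,0,0,0,0,0,2,0,-4]),
  (false,[0,0,0,0,-1,0,0,0,0,2]),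
  (true,[0,0,0,0,1]),
  (true,[1,-1,1]),
  (true,[0,1,0,-1]),
  (true,[0,0,0,1]),
  (true,[0,0,-2,0,0,0,0,2]),
  (true,[0,-2,0,0,0,0,0,2]),
  (true,[-1,0,1]),
  (true,[-1,1])]

noncomputable def t0 : Tre :=
  (.Q [0,-1,0,1,0,-1,-1,0,1] (.p true [0,0,1] [] (⟨0,[(10,0)]⟩,⟨0,[(9,0)]⟩) .k 0 (⟨0,[]⟩,⟨0,[]⟩) .k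
  .k) (.R ⟨2,true,false,true,[0,1],[0,0,1],[1,1,1],(⟨0,[]⟩,⟨0,[]⟩),(⟨0,[(11,0)]⟩,⟨0,[(10,0)]⟩),⟨0,
  []⟩,.k,.k,.k,.k,.k,.k,⟨false,0,⟨0,[(9,0)]⟩,⟨1,[(1,0),(3,1),(4,0),(0,0),(6,0),(0,0)]⟩⟩,⟨true,0,⟨0,
  [(7,0)]⟩,⟨1,[(1,0),(8,0),(0,0)]⟩⟩,⟨true,0,⟨0,[(16,0)]⟩,⟨0,[(17,0)]⟩⟩,⟨false,1,⟨0,[(5,0),(10,0),(2,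
  0)]⟩,⟨0,[(0,0)]⟩⟩,⟨false,0,⟨0,[]⟩,⟨0,[(19,0),(1,0)]⟩⟩,⟨true,0,⟨0,[(5,0)]⟩,⟨0,[(0,0),(15,0)]⟩⟩,
  []⟩) (.Q [0,0,0,0,1,0,0,0,1,-2] (.ed false [0,1,1] .k) (.Q [0,0,0,0,0,-1,-1,0,1,-2] (.p true [0,0,
  1] [1] (⟨0,[(12,0)]⟩,⟨0,[(11,0)]⟩) .k 1 (⟨0,[]⟩,⟨0,[]⟩) .k .k) (.Q [0,0,0,0,2,0,0,0,0,-2] (.pp
  true [-1,1]) (.R ⟨0,false,false,true,[0,0,0,1],[1,-1],[1,0,0,0,0,0,0,1],(⟨0,[(5,0)]⟩,⟨0,[(5,0)]⟩),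
  (⟨0,[(16,0)]⟩,⟨0,[(17,0)]⟩),⟨1,[(0,0)]⟩,.k,.k,(.x 0 ⟨0,[(1,0),(6,0),(7,0),(1,0)]⟩ ⟨1,[(17,1),(3,
  0),(0,0),(1,1)]⟩),(.x (-1) ⟨1,[(17,1),(3,0),(0,0),(1,1)]⟩ ⟨0,[(1,0),(6,0),(7,0),(1,0)]⟩),.k,.k,
  ⟨false,0,⟨1,[(20,1),(1,0)]⟩,⟨1,[(19,1),(1,0)]⟩⟩,⟨true,0,⟨1,[(7,0),(2,0)]⟩,⟨0,[(5,0)]⟩⟩,⟨true,0,⟨0,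
  []⟩,⟨0,[(24,0)]⟩⟩,⟨false,1,⟨1,[(1,0),(1,0),(15,0),(2,0)]⟩,⟨1,[(13,0),(0,0),(5,1),(1,0)]⟩⟩,⟨false,
  0,⟨0,[]⟩,⟨0,[]⟩⟩,⟨false,0,⟨0,[]⟩,⟨0,[]⟩⟩,[.o ⟨false,0,⟨0,[(1,0),(1,0)]⟩,⟨0,[(20,0),(1,0),(1,0)]⟩⟩,
  .o ⟨false,1,⟨1,[(15,0),(3,1),(2,0)]⟩,⟨0,[(20,0)]⟩⟩,.a ⟨true,0,⟨0,[(5,0)]⟩,⟨0,[(5,0)]⟩⟩ ⟨false,0,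
  ⟨1,[(22,0)]⟩,⟨1,[(22,0),(1,1)]⟩⟩ ⟨true,0,⟨1,[(1,0),(1,0),(15,0)]⟩,⟨1,[(13,0),(0,0),(5,1)]⟩⟩,.o
  ⟨false,0,⟨1,[(7,0),(2,0)]⟩,⟨3,[(15,0),(5,1),(0,0),(1,1)]⟩⟩]⟩) (.R ⟨1,false,false,true,[0,0,0,1],
  [1,-1],[0,0,0,0,0,0,0,1],(⟨0,[(5,0)]⟩,⟨0,[(5,0)]⟩),(⟨0,[(16,0)]⟩,⟨0,[(17,0)]⟩),⟨1,[(0,0)]⟩,.k,.k,
  (.x 0 ⟨1,[(0,0),(6,0),(2,0)]⟩ ⟨1,[(17,1),(3,0),(0,0),(1,1)]⟩),(.x (-1) ⟨1,[(17,1),(3,0),(0,0),(1,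
  1)]⟩ ⟨1,[(0,0),(6,0),(2,0)]⟩),.k,.k,⟨false,0,⟨1,[(20,1),(1,0)]⟩,⟨1,[(19,1),(1,0)]⟩⟩,⟨true,0,⟨1,
  [(7,0),(2,0)]⟩,⟨0,[(5,0)]⟩⟩,⟨false,1,⟨0,[(22,0),(1,0)]⟩,⟨0,[]⟩⟩,⟨false,1,⟨1,[(1,0),(1,0),(15,0),
  (2,0)]⟩,⟨1,[(13,0),(0,0),(5,1),(1,0)]⟩⟩,⟨true,0,⟨0,[(20,0)]⟩,⟨0,[(19,0)]⟩⟩,⟨false,1,⟨3,[(15,0),(6,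
  0),(1,1)]⟩,⟨1,[(13,0),(0,0),(7,0)]⟩⟩,[.o ⟨false,0,⟨0,[(1,0),(1,0)]⟩,⟨0,[(20,0),(1,0),(1,0)]⟩⟩,.o
  ⟨false,1,⟨1,[(15,0),(3,1),(2,0)]⟩,⟨0,[(20,0)]⟩⟩,.a ⟨true,0,⟨0,[(5,0)]⟩,⟨0,[(5,0)]⟩⟩ ⟨false,0,⟨1,
  [(22,0)]⟩,⟨1,[(22,0),(1,1)]⟩⟩ ⟨true,0,⟨1,[(1,0),(1,0),(15,0)]⟩,⟨1,[(13,0),(0,0),(5,1)]⟩⟩,.o
  ⟨false,0,⟨1,[(7,0),(2,0)]⟩,⟨3,[(15,0),(5,1),(0,0),(1,1)]⟩⟩]⟩)) (.R ⟨0,false,false,false,[1,0,-1],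
  [0,1],[1,1,1],(⟨0,[(12,0)]⟩,⟨0,[(13,0)]⟩),(⟨0,[(16,0)]⟩,⟨0,[(15,0)]⟩),⟨0,[(1,0)]⟩,.k,.k,.k,.k,.k,
  .k,⟨true,0,⟨0,[(18,0)]⟩,⟨0,[(17,0),(1,0)]⟩⟩,⟨false,1,⟨0,[(0,0),(10,0),(8,0)]⟩,⟨0,[(6,0)]⟩⟩,⟨false,
  0,⟨0,[(0,0),(5,0)]⟩,⟨1,[(11,1),(8,0),(0,0)]⟩⟩,⟨true,0,⟨0,[(0,0),(18,0)]⟩,⟨0,[(2,0),(0,0),(7,1)]⟩⟩,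
  ⟨false,0,⟨0,[]⟩,⟨0,[]⟩⟩,⟨false,0,⟨0,[]⟩,⟨0,[]⟩⟩,[.o ⟨false,0,⟨0,[(19,0)]⟩,⟨1,[(14,0),(3,1),(2,
  0)]⟩⟩,.e ⟨false,0,⟨0,[]⟩,⟨1,[(20,0),(0,0),(1,1)]⟩⟩ ⟨false,1,⟨1,[(0,1),(10,1),(7,1),(0,0),(0,0)]⟩,
  ⟨0,[(2,0),(0,0),(7,0)]⟩⟩,.a ⟨true,0,⟨1,[(3,0),(8,0),(0,0)]⟩,⟨0,[(0,0),(10,0)]⟩⟩ ⟨false,0,⟨1,[(9,
  0),(0,0)]⟩,⟨1,[(20,0),(0,0)]⟩⟩ ⟨true,0,⟨0,[(0,0),(10,0),(7,0)]⟩,⟨0,[(2,0),(0,0),(7,0)]⟩⟩,.o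
  ⟨false,0,⟨0,[(6,0)]⟩,⟨0,[(9,0),(10,0)]⟩⟩]⟩)) (.Q [0,-1,0,-1,0,0,0,2,0,-2] (.pp true [-1,1]) (.Q
  [0,0,0,0,0,1,0,0,-1,2] (.p false [0,0,1] [1] (⟨0,[(13,0)]⟩,⟨0,[(12,0)]⟩) .k 1 (⟨0,[]⟩,⟨0,[]⟩) .k
  .k) (.R ⟨1,false,false,false,[1,0,-1],[1,-1],[0,0,0,0,0,0,-1],(⟨0,[(13,0)]⟩,⟨0,[(14,0)]⟩),(⟨0,
  [(16,0)]⟩,⟨0,[(17,0)]⟩),⟨0,[(2,0)]⟩,.k,.k,.k,.k,.k,.k,⟨false,0,⟨0,[(12,0),(7,0)]⟩,⟨1,[(3,1),(0,0),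
  (8,0),(0,0),(6,0),(0,0)]⟩⟩,⟨true,0,⟨0,[(10,0)]⟩,⟨1,[(4,0),(8,0),(0,0)]⟩⟩,⟨false,1,⟨0,[(22,0),(1,
  0)]⟩,⟨0,[]⟩⟩,⟨false,1,⟨0,[(3,0),(18,0)]⟩,⟨1,[(4,0),(7,1),(0,0),(0,0),(5,1)]⟩⟩,⟨true,0,⟨0,[(20,
  0)]⟩,⟨0,[(19,0)]⟩⟩,⟨false,1,⟨0,[(8,0),(13,0)]⟩,⟨1,[(4,0),(7,1),(0,0),(0,0)]⟩⟩,[.o ⟨false,1,⟨1,
  [(15,0),(3,1),(2,0)]⟩,⟨0,[(20,0)]⟩⟩,.o ⟨false,1,⟨0,[(1,0)]⟩,⟨0,[(20,0),(3,0)]⟩⟩,.a ⟨true,0,⟨1,[(4,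
  0),(8,0),(0,0)]⟩,⟨0,[(0,0)]⟩⟩ ⟨true,0,⟨0,[(12,0)]⟩,⟨1,[(4,0),(3,1),(4,0),(0,0)]⟩⟩ ⟨false,1,⟨0,[(0,
  0),(0,0)]⟩,⟨1,[(4,0),(8,0),(0,0),(5,1)]⟩⟩,.o ⟨false,0,⟨0,[(7,0)]⟩,⟨1,[(0,1),(14,0),(5,0)]⟩⟩]⟩)
  (.Q [0,0,0,0,-1,0,0,0,0,1] (.p true [0,0,0,1] [] (⟨0,[(5,0)]⟩,⟨0,[(5,0)]⟩) .k 0 (⟨0,[]⟩,⟨0,[]⟩)
  .k .k) (.R ⟨1,false,false,true,[0,0,0,1],[1,-1],[0,0,0,0,0,0,0,1],(⟨0,[(6,0)]⟩,⟨0,[(6,0)]⟩),(⟨0,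
  [(17,0)]⟩,⟨0,[(18,0)]⟩),⟨0,[(0,0)]⟩,.k,.k,(.x 0 ⟨1,[(0,1),(7,0),(2,0)]⟩ ⟨1,[(18,1),(3,0),(0,0),(1,
  1)]⟩),(.x (-1) ⟨1,[(18,1),(3,0),(0,0),(1,1)]⟩ ⟨1,[(0,1),(7,0),(2,0)]⟩),.k,.k,⟨false,0,⟨1,[(21,1),
  (1,0)]⟩,⟨1,[(20,1),(1,0)]⟩⟩,⟨true,0,⟨1,[(8,0),(2,0)]⟩,⟨0,[(6,0)]⟩⟩,⟨false,1,⟨0,[(23,0),(1,0)]⟩,⟨0,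
  []⟩⟩,⟨false,1,⟨1,[(2,0),(17,0)]⟩,⟨1,[(14,0),(0,0),(5,1),(1,0)]⟩⟩,⟨true,0,⟨0,[(21,0)]⟩,⟨0,[(20,
  0)]⟩⟩,⟨false,1,⟨3,[(16,0),(6,0),(1,1)]⟩,⟨1,[(14,0),(0,0),(7,0)]⟩⟩,[.o ⟨false,0,⟨0,[(1,0),(2,0),(8,
  0)]⟩,⟨0,[(21,0),(1,0),(1,0)]⟩⟩,.o ⟨false,1,⟨1,[(16,0),(3,1),(2,0)]⟩,⟨0,[(21,0)]⟩⟩,.a ⟨true,0,⟨0,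
  [(6,0)]⟩,⟨0,[(6,0)]⟩⟩ ⟨false,0,⟨1,[(23,0)]⟩,⟨1,[(23,0),(1,1)]⟩⟩ ⟨true,0,⟨1,[(1,0),(2,0),(8,0),(6,
  0)]⟩,⟨1,[(14,0),(0,0),(5,1)]⟩⟩,.o ⟨false,0,⟨1,[(8,0),(2,0)]⟩,⟨3,[(16,0),(5,1),(0,0),(1,1)]⟩⟩]⟩)
  (.R ⟨0,false,false,true,[0,0,0,1],[1,-1],[1,0,0,0,0,0,0,1],(⟨0,[(6,0)]⟩,⟨0,[(6,0)]⟩),(⟨0,[(17,
  0)]⟩,⟨0,[(18,0)]⟩),⟨0,[(0,0)]⟩,.k,.k,(.x 0 ⟨0,[(1,0),(9,0),(5,0)]⟩ ⟨1,[(18,1),(3,0),(0,0),(1,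
  1)]⟩),(.x (-1) ⟨1,[(18,1),(3,0),(0,0),(1,1)]⟩ ⟨0,[(1,0),(9,0),(5,0)]⟩),.k,.k,⟨false,0,⟨1,[(21,1),
  (1,0)]⟩,⟨1,[(20,1),(1,0)]⟩⟩,⟨true,0,⟨1,[(8,0),(2,0)]⟩,⟨0,[(6,0)]⟩⟩,⟨true,0,⟨0,[]⟩,⟨0,[(25,0)]⟩⟩,
  ⟨false,1,⟨1,[(2,0),(17,0)]⟩,⟨1,[(14,0),(0,0),(5,1),(1,0)]⟩⟩,⟨false,0,⟨0,[]⟩,⟨0,[]⟩⟩,⟨false,0,⟨0,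
  []⟩,⟨0,[]⟩⟩,[.o ⟨false,0,⟨0,[(1,0),(2,0),(8,0)]⟩,⟨0,[(21,0),(1,0),(1,0)]⟩⟩,.o ⟨false,1,⟨1,[(16,0),
  (3,1),(2,0)]⟩,⟨0,[(21,0)]⟩⟩,.a ⟨true,0,⟨0,[(6,0)]⟩,⟨0,[(6,0)]⟩⟩ ⟨false,0,⟨1,[(23,0)]⟩,⟨1,[(23,0),
  (1,1)]⟩⟩ ⟨true,0,⟨1,[(1,0),(2,0),(8,0),(6,0)]⟩,⟨1,[(14,0),(0,0),(5,1)]⟩⟩,.o ⟨false,0,⟨1,[(8,0),(2,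
  0)]⟩,⟨3,[(16,0),(5,1),(0,0),(1,1)]⟩⟩]⟩))) (.K ⟨1,[0,0,0,1],0,0,(⟨0,[(4,0)]⟩,⟨0,[(4,0)]⟩),.k,(.r
  (-1) ⟨1,[(18,1),(1,0),(0,1),(1,1)]⟩ ⟨1,[(0,1),(13,0),(2,1)]⟩),(.r 1 ⟨1,[(0,1),(13,0),(2,1)]⟩ ⟨1,
  [(18,1),(1,0),(0,1),(1,1)]⟩),.k,.k,[⟨1,[(9,0),(0,0),(1,0),(0,0)]⟩,⟨1,[(6,0),(2,0)]⟩,⟨1,[(0,0),(17,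
  0)]⟩,⟨1,[(12,0),(0,0),(7,0)]⟩]⟩))))

theorem ok0 : chk (cW (-1) 2) t0 base = true := by decide +kernel

theorem ok : chkB (cW (-1) 2) (fax (fcW (-1)) true 3 (-1) 2 false tW) t0 base = true :=
  chkB_of (by decide +kernel) ok0

end Helper11.CT.T1_3_m1_m1_v2
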