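import Pool.Agent.Helper11.CT.T.Tm1_1_1_1_v_p0
import Pool.Agent.Helper11.CT.T.Tm1_1_1_1_v_p1

set_option autoImplicit false
set_option linter.all false

namespace Helper11.CT.Tm1_1_1_1_v

open Helper11.CT

noncomputable def t7 : Tre :=
  .Q [0,0,0,0,0,-1,0,0,0,1,-1] (.ed true [0,1,1] .k) t5 t6

theorem ok7 : chk (cU 1 false 3) t7 r7 = true :=
  chk_Q (e' := [0,0,0,0,0,1,0,0,0,-1,1]) (by decide +kernel) (by decide +kernel) ok5 ok6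

noncomputable def t8 : Tre :=
  .I [0,0,1,0,0,0,0,-1] t4 t7

theorem ok8 : chk (cU 1 false 3) t8 r6 = true :=
  chk_I (e' := [1,0,-1,0,0,0,0,1]) (by decide +kernel) (by decide +kernel) ok4 ok7

noncomputable def t9 : Tre :=
  .Q [0,1,0,1,0,0,-1,-1,0,0,-1] (.p false [0,0,1] [] (⟨0,[(19,0)]⟩,⟨0,[(18,0)]⟩) .k 0 (⟨0,[]⟩,⟨0,
  []⟩) .k .k) t3 t8

theorem ok9 : chk (cU 1 false 3) t9 r5 = true :=
  chk_Q (e' := [0,-1,0,-1,0,0,1,1,0,0,1]) (by decide +kernel) (by decide +kernel) ok3 ok8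

noncomputable def t10 : Tre :=
  .Q [0,0,0,-1,0,0,-1,-1,0,1,-1] (.p false [0,0,1] [1] (⟨0,[(18,0)]⟩,⟨0,[(17,0)]⟩) .k 1 (⟨0,[]⟩,⟨0,
  []⟩) .k .k) t2 t9

theorem ok10 : chk (cU 1 false 3) t10 r4 = true :=
  chk_Q (e' := [0,0,0,1,0,0,1,1,0,-1,1]) (by decide +kernel) (by decide +kernel) ok2 ok9

noncomputable def t11 : Tre :=
  .Q [0,0,0,0,0,0,-1,0,0,1,-1] (.p false [0,0,1] [1] (⟨0,[(17,0)]⟩,⟨0,[(16,0)]⟩) .k 1 (⟨0,[]⟩,⟨0,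
  []⟩) .k .k) t1 t10

theorem ok11 : chk (cU 1 false 3) t11 l3 = true :=
  chk_Q (e' := [0,0,0,0,0,0,1,0,0,-1,1]) (by decide +kernel) (by decide +kernel) ok1 ok10

noncomputable def t13 : Tre :=
  .Q [0,0,0,0,0,0,1,0,0,0,1] (.p true [0,0,1] [] (⟨0,[(16,0)]⟩,⟨0,[(15,0)]⟩) .k 0 (⟨0,[]⟩,⟨0,[]⟩)
  .k .k) t11 t12

theorem ok13 : chk (cU 1 false 3) t13 r2 = true :=
  chk_Q (e' := [0,0,0,0,0,0,-1,0,0,0,-1]) (by decide +kernel) (by decide +kernel) ok11 ok12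

noncomputable def t14 : Tre :=
  .Q [0,-1,0,-1,0,0,0,0,0,1] (.pp false [-1,1]) t0 t13

theorem ok14 : chk (cU 1 false 3) t14 l1 = true :=
  chk_Q (e' := [0,1,0,1,0,0,0,0,0,-1]) (by decide +kernel) (by decide +kernel) ok0 ok13

noncomputable def t19 : Tre :=
  .Q [0,0,0,-1,0,0,-1,-1,0,1,-1] (.p false [0,0,1] [1] (⟨0,[(20,0)]⟩,⟨0,[(19,0)]⟩) .k 1 (⟨0,[]⟩,⟨0,
  []⟩) .k .k) t17 t18

theorem ok19 : chk (cU 1 false 3) t19 r13 = true :=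
  chk_Q (e' := [0,0,0,1,0,0,1,1,0,-1,1]) (by decide +kernel) (by decide +kernel) ok17 ok18

noncomputable def t20 : Tre :=
  .Q [0,0,0,0,0,0,-1,0,0,1,-1] (.p false [0,0,1] [1] (⟨0,[(19,0)]⟩,⟨0,[(18,0)]⟩) .k 1 (⟨0,[]⟩,⟨0,
  []⟩) .k .k) t16 t19

theorem ok20 : chk (cU 1 false 3) t20 r12 = true :=
  chk_Q (e' := [0,0,0,0,0,0,1,0,0,-1,1]) (by decide +kernel) (by decide +kernel) ok16 ok19

noncomputable def t21 : Tre :=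
  .Q [0,0,0,0,0,0,-1,0,0,0,-1] (.p false [0,0,1] [] (⟨0,[(18,0)]⟩,⟨0,[(17,0)]⟩) .k 0 (⟨0,[]⟩,⟨0,
  []⟩) .k .k) t15 t20

theorem ok21 : chk (cU 1 false 3) t21 l11 = true :=
  chk_Q (e' := [0,0,0,0,0,0,1,0,0,0,1]) (by decide +kernel) (by decide +kernel) ok15 ok20

noncomputable def t23 : Tre :=
  .I [0,0,2,1] t21 t22

theorem ok23 : chk (cU 1 false 3) t23 l10 = true :=
  chk_I (e' := [1,0,-2,-1]) (by decide +kernel) (by decide +kernel) ok21 ok22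

noncomputable def t25 : Tre :=
  .Q [0,0,0,0,0,0,1,1,0,-1,1] (.p true [0,0,1] [1] (⟨0,[(16,0)]⟩,⟨0,[(15,0)]⟩) .k 1 (⟨0,[]⟩,⟨0,[]⟩)
  .k .k) t23 t24

theorem ok25 : chk (cU 1 false 3) t25 l9 = true :=
  chk_Q (e' := [0,0,0,0,0,0,-1,-1,0,1,-1]) (by decide +kernel) (by decide +kernel) ok23 ok24

noncomputable def t33 : Tre :=
  .I [1,0,0,1,0,0,0,1] t31 t32

theorem ok33 : chk (cU 1 false 3) t33 r19 = true :=
  chk_I (e' := [0,0,0,-1,0,0,0,-1]) (by decide +kernel) (by decide +kernel) ok31 ok32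

noncomputable def t34 : Tre :=
  .I [0,0,2,2,0,0,0,1] t30 t33

theorem ok34 : chk (cU 1 false 3) t34 r18 = true :=
  chk_I (e' := [1,0,-2,-2,0,0,0,-1]) (by decide +kernel) (by decide +kernel) ok30 ok33

noncomputable def t35 : Tre :=
  .I [1,0,-1,0,0,0,0,-1,-1] t29 t34

theorem ok35 : chk (cU 1 false 3) t35 r17 = true :=
  chk_I (e' := [0,0,1,0,0,0,0,1,1]) (by decide +kernel) (by decide +kernel) ok29 ok34

noncomputable def t36 : Tre :=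
  .I [0,0,1,0,0,0,0,-1] t28 t35

theorem ok36 : chk (cU 1 false 3) t36 r16 = true :=
  chk_I (e' := [1,0,-1,0,0,0,0,1]) (by decide +kernel) (by decide +kernel) ok28 ok35

noncomputable def t37 : Tre :=
  .Q [0,0,0,-1,0,0,-1,-1,0,1,-1] (.p false [0,0,1] [1] (⟨0,[(17,0)]⟩,⟨0,[(16,0)]⟩) .k 1 (⟨0,[]⟩,⟨0,
  []⟩) .k .k) t27 t36

theorem ok37 : chk (cU 1 false 3) t37 r15 = true :=
  chk_Q (e' := [0,0,0,1,0,0,1,1,0,-1,1]) (by decide +kernel) (by decide +kernel) ok27 ok36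

noncomputable def t38 : Tre :=
  .Q [0,0,0,0,0,0,-1,0,0,1,-1] (.p false [0,0,1] [1] (⟨0,[(16,0)]⟩,⟨0,[(15,0)]⟩) .k 1 (⟨0,[]⟩,⟨0,
  []⟩) .k .k) t26 t37

theorem ok38 : chk (cU 1 false 3) t38 r9 = true :=
  chk_Q (e' := [0,0,0,0,0,0,1,0,0,-1,1]) (by decide +kernel) (by decide +kernel) ok26 ok37

noncomputable def t39 : Tre :=
  .Q [0,1,0,1,0,0,-1,-1,0,1,-1] (.p false [0,0,1] [1] (⟨0,[(15,0)]⟩,⟨0,[(14,0)]⟩) .k 1 (⟨0,[]⟩,⟨0,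
  []⟩) .k .k) t25 t38

theorem ok39 : chk (cU 1 false 3) t39 r1 = true :=
  chk_Q (e' := [0,-1,0,-1,0,0,1,1,0,-1,1]) (by decide +kernel) (by decide +kernel) ok25 ok38

noncomputable def t40 : Tre :=
  .I [0,0,2,2,0,0,0,-1] t14 t39

theorem ok40 : chk (cU 1 false 3) t40 l0 = true :=
  chk_I (e' := [1,0,-2,-2,0,0,0,1]) (by decide +kernel) (by decide +kernel) ok14 ok39

noncomputable def t46 : Tre :=
  .Q [0,0,0,0,0,0,0,0,-1,0,0,-1] (.p false [0,0,0,1] [] (⟨0,[(10,0)]⟩,⟨1,[(9,0),(8,0),(0,0)]⟩) .k 0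
  (⟨0,[]⟩,⟨0,[]⟩) .k .k) t44 t45

theorem ok46 : chk (cU 1 false 3) t46 r25 = true :=
  chk_Q (e' := [0,0,0,0,0,0,0,0,1,0,0,1]) (by decide +kernel) (by decide +kernel) ok44 ok45

noncomputable def t47 : Tre :=
  .Q [0,0,0,0,0,0,-2,0,0,1,-2] (.p false [0,0,1] [1,0,-1] (⟨0,[(18,0)]⟩,⟨0,[(17,0)]⟩) .k 2 (⟨0,[(17,
  0)]⟩,⟨0,[(18,0)]⟩) .k (.r 0 ⟨0,[(16,1)]⟩ ⟨1,[(2,1),(0,3),(15,0),(6,0)]⟩)) t43 t46

theorem ok47 : chk (cU 1 false 3) t47 l24 = true :=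
  chk_Q (e' := [0,0,0,0,0,0,2,0,0,-1,2]) (by decide +kernel) (by decide +kernel) ok43 ok46

noncomputable def t49 : Tre :=
  .Q [0,0,0,0,0,0,2,1,0,-1,2] (.p true [0,0,1] [1,0,-1] (⟨0,[(17,0)]⟩,⟨0,[(16,0)]⟩) .k 2 (⟨0,[(16,
  0)]⟩,⟨0,[(17,0)]⟩) .k (.r 0 ⟨0,[(15,1)]⟩ ⟨1,[(1,1),(0,3),(15,0),(6,0)]⟩)) t47 t48

theorem ok49 : chk (cU 1 false 3) t49 r23 = true :=
  chk_Q (e' := [0,0,0,0,0,0,-2,-1,0,1,-2]) (by decide +kernel) (by decide +kernel) ok47 ok48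

noncomputable def t50 : Tre :=
  .I [1,0,1,1,0,0,0,-1] t42 t49

theorem ok50 : chk (cU 1 false 3) t50 r22 = true :=
  chk_I (e' := [0,0,-1,-1,0,0,0,1]) (by decide +kernel) (by decide +kernel) ok42 ok49

noncomputable def t51 : Tre :=
  .Q [0,-1,0,0,0,0,2,2,0,-1,2] (.p true [0,0,1] [1,0,-1] (⟨0,[(15,0)]⟩,⟨0,[(14,0)]⟩) .k 2 (⟨0,[(14,
  0)]⟩,⟨0,[(15,0)]⟩) .k (.r 0 ⟨0,[(13,1)]⟩ ⟨0,[(0,1),(9,1),(12,0)]⟩)) t41 t50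

theorem ok51 : chk (cU 1 false 3) t51 l21 = true :=
  chk_Q (e' := [0,1,0,0,0,0,-2,-2,0,1,-2]) (by decide +kernel) (by decide +kernel) ok41 ok50

noncomputable def t53 : Tre :=
  .Q [0,0,0,0,0,0,1,0,0,0,1] (.p true [0,0,1] [] (⟨0,[(14,0)]⟩,⟨0,[(13,0)]⟩) .k 0 (⟨0,[]⟩,⟨0,[]⟩)
  .k .k) t51 t52

theorem ok53 : chk (cU 1 false 3) t53 r0 = true :=
  chk_Q (e' := [0,0,0,0,0,0,-1,0,0,0,-1]) (by decide +kernel) (by decide +kernel) ok51 ok52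

noncomputable def t54 : Tre :=
  .Q [0,0,0,0,0,-1,0,0,0,0,1] (.ed false [1,-1,1] .k) t40 t53

theorem ok54 : chk (cU 1 false 3) t54 base = true :=
  chk_Q (e' := [0,0,0,0,0,1,0,0,0,0,-1]) (by decide +kernel) (by decide +kernel) ok40 ok53

theorem ok : chkB (cU 1 false 3) (fax (fcU 1) false 1 1 3 true (tU false)) t54 base = true :=
  chkB_of (by decide +kernel) ok54

end Helper11.CT.Tm1_1_1_1_v
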