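import Pool.Agent.Helper11.CT.Cfg
import Pool.Agent.Helper11.CT.Cut

set_option autoImplicit false
set_option linter.all false

namespace Helper11.CT.Tm1_1_m1_1_u

open Helper11.CT

noncomputable def base : List Con :=
  [(false,[0,0,0,0,0,0,2,2,0,1,-2]),
  (true,[0,0,0,0,1,0,0,0,-2]),
  (true,[0,0,0,0,1,0,0,0,2]),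
  (false,[0,0,0,0,0,0,0,0,0,1,0,-1]),
  (false,[0,0,0,0,0,0,0,0,0,0,0,1]),
  (false,[0,1,0,0,0,0,-1,-1,0,-1,1]),
  (false,[0,0,1,0,0,0,-1,0,0,-1,1]),
  (false,[0,1,0,0,0,0,1,1,0,0,-1]),
  (false,[0,1,0,0,0,0,-1,-1,0,0,1]),
  (false,[0,0,1,0,0,0,1,0,0,0,-1]),
  (false,[0,0,1,0,0,0,-1,0,0,0,1]),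
  (true,[0,0,0,0,0,0,0,1]),
  (false,[0,0,0,0,0,0,0,0,0,1,-1]),
  (false,[0,0,0,0,0,0,0,0,0,0,1]),
  (false,[0,0,0,0,1,0,0,0,0,-2]),
  (false,[0,0,0,0,0,-1,0,0,0,1]),
  (true,[0,0,0,0,0,1]),
  (true,[0,1,-1,1]),
  (true,[0,1,0,1]),
  (true,[0,0,0,-1]),
  (true,[0,0,-2,0,1]),
  (true,[0,-2,0,0,1]),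
  (true,[-1,0,1]),
  (true,[-1,1])]

noncomputable def l0 : List Con := (false, [0,0,0,1,0,0,1,1,0,1,-1]) :: base

noncomputable def r0 : List Con := (false, [0,0,0,-1,0,0,-1,-1,0,-1,1]) :: base

noncomputable def l1 : List Con := (false, [0,1,0,1,0,0,-1,-1,0,0,1]) :: l0

noncomputable def r1 : List Con := (false, [0,-1,0,-1,0,0,1,1,0,0,-1]) :: l0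

noncomputable def l2 : List Con := (false, [0,0,0,0,0,-1,0,0,0,0,1]) :: l1

noncomputable def r2 : List Con := (false, [0,0,0,0,0,1,0,0,0,0,-1]) :: l1

noncomputable def l3 : List Con := (true, [0,0,-2,-2,0,0,0,1]) :: l2

noncomputable def r3 : List Con := (true, [1,0,2,2,0,0,0,-1]) :: l2

noncomputable def t0 : Tre :=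
  (.Q [0,0,0,0,0,0,-1,0,0,0,1] (.p true [0,0,1] [] (⟨0,[(17,0)]⟩,⟨0,[(16,0)]⟩) .k 0 (⟨0,[]⟩,⟨0,[]⟩)
  .k .k) (.K ⟨2,[0,-1,1],0,0,(⟨0,[(2,0)]⟩,⟨0,[(17,0),(3,0)]⟩),.k,(.r 0 ⟨0,[(1,0)]⟩ ⟨7,[(3,11),(0,3),
  (1,0),(0,0),(3,3),(2,11),(11,5)]⟩),.k,.k,.k,[⟨0,[(24,0)]⟩,⟨0,[(3,0)]⟩,⟨0,[(0,0)]⟩,⟨1,[(14,2),(0,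
  0)]⟩]⟩) (.Q [0,1,1,0,-1,0,0,0,1,0,0,-1] (.p false [0,0,0,1] [] (⟨0,[(9,0)]⟩,⟨0,[(8,0)]⟩) .k 0 (⟨0,
  []⟩,⟨0,[]⟩) .k .k) (.K ⟨0,[0,0,0,1],0,(-1),(⟨0,[(10,0)]⟩,⟨0,[(9,0)]⟩),.k,(.r 0 ⟨0,[(0,0),(0,0),(0,
  0),(1,0),(5,0),(16,0)]⟩ ⟨7,[(4,3),(0,3),(1,4),(0,0),(3,3),(2,3),(11,1)]⟩),(.x 0 ⟨0,[(22,0)]⟩ ⟨3,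
  [(7,0),(0,0),(11,1),(0,3)]⟩),.k,.k,[⟨0,[(10,0)]⟩,⟨0,[(9,0)]⟩,⟨1,[(7,0),(2,1),(15,0),(2,1)]⟩,⟨0,
  [(0,0)]⟩]⟩) (.I [0,0,1,1,0,0,0,0,-1] (.Q [0,1,1,0,0,0,0,0,1,0,0,-1] (.p false [0,0,0,1] [] (⟨0,
  [(11,0)]⟩,⟨0,[(10,0)]⟩) .k 0 (⟨0,[]⟩,⟨0,[]⟩) .k .k) (.K ⟨0,[0,0,0,1],0,0,(⟨0,[(12,0)]⟩,⟨0,[(11,
  0)]⟩),.k,(.r (-1) ⟨1,[(10,0),(16,1),(0,0)]⟩ ⟨0,[(1,0)]⟩),(.x 0 ⟨0,[(24,0)]⟩ ⟨3,[(9,0),(0,0),(11,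
  1),(0,3)]⟩),.k,.k,[⟨0,[(12,0)]⟩,⟨0,[(11,0)]⟩,⟨0,[(1,0),(1,0),(0,0),(1,0),(5,0)]⟩,⟨0,[(0,0)]⟩]⟩)
  (.Q [0,0,0,0,0,1,0,0,0,-1,0,1] (.p true [0,0,0,1] [1] (⟨0,[(12,0)]⟩,⟨0,[(11,0)]⟩) .k 1 (⟨0,[]⟩,⟨0,
  []⟩) .k .k) (.R ⟨0,false,false,true,[1,0,0,-1],[1,0,-1],[0,1,0,0,0,0,0,0,-1],(⟨0,[(12,0)]⟩,⟨0,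
  [(13,0)]⟩),(⟨0,[(21,0)]⟩,⟨0,[(22,0)]⟩),⟨0,[(0,0)]⟩,.k,.k,(.x (-1) ⟨3,[(10,0),(0,0),(11,1),(0,3)]⟩
  ⟨0,[(25,0)]⟩),.k,.k,.k,⟨false,0,⟨1,[(1,0),(0,0),(1,0),(0,0),(6,0),(2,0),(4,0),(5,0)]⟩,⟨1,[(4,1),
  (6,0),(5,1),(12,0)]⟩⟩,⟨true,0,⟨0,[(12,0),(2,0)]⟩,⟨0,[(4,0),(8,0)]⟩⟩,⟨true,0,⟨0,[(32,0)]⟩,⟨0,[]⟩⟩,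
  ⟨false,1,⟨1,[(11,0),(0,1),(1,0),(0,0),(1,0),(0,0),(11,0)]⟩,⟨0,[(1,0),(2,0),(15,0)]⟩⟩,⟨false,0,⟨0,
  []⟩,⟨0,[]⟩⟩,⟨false,0,⟨0,[]⟩,⟨0,[]⟩⟩,[.o ⟨false,0,⟨0,[(14,0)]⟩,⟨7,[(9,3),(0,0),(0,0),(11,1),(6,
  3)]⟩⟩,.o ⟨false,1,⟨1,[(17,1),(5,0),(6,0)]⟩,⟨0,[(4,0),(15,0)]⟩⟩,.o ⟨false,1,⟨1,[(13,1),(9,0),(5,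
  0)]⟩,⟨0,[(4,0),(7,0),(2,0)]⟩⟩,.a ⟨true,0,⟨0,[(13,0)]⟩,⟨0,[(12,0)]⟩⟩ ⟨false,0,⟨2,[(1,1),(0,0),(1,
  1),(0,0),(6,1),(1,0),(0,0),(10,0)]⟩,⟨1,[(11,0),(6,0),(0,0),(10,0)]⟩⟩ ⟨true,0,⟨0,[(12,0),(1,0)]⟩,
  ⟨0,[(4,0),(8,0),(6,0)]⟩⟩]⟩) (.R ⟨1,false,false,true,[1,0,0,-1],[1,0,-1],[1,1,0,0,0,0,0,0,-1],(⟨0,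
  [(12,0)]⟩,⟨0,[(13,0)]⟩),(⟨0,[(21,0)]⟩,⟨0,[(22,0)]⟩),⟨0,[(0,0)]⟩,.k,.k,(.x (-1) ⟨3,[(10,0),(0,0),
  (11,1),(0,3)]⟩ ⟨0,[(25,0)]⟩),.k,(.r 0 ⟨0,[(2,0),(2,0)]⟩ ⟨1,[(7,1),(3,0),(6,1),(11,0)]⟩),.k,⟨false,
  0,⟨1,[(1,0),(0,0),(1,0),(0,0),(6,0),(2,0),(4,0),(5,0)]⟩,⟨1,[(4,1),(6,0),(5,1),(12,0)]⟩⟩,⟨true,0,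
  ⟨0,[(12,0),(2,0)]⟩,⟨0,[(4,0),(8,0)]⟩⟩,⟨false,0,⟨0,[]⟩,⟨3,[(10,0),(0,0),(18,1)]⟩⟩,⟨false,1,⟨1,[(11,
  0),(0,1),(1,0),(0,0),(1,0),(0,0),(11,0)]⟩,⟨0,[(1,0),(2,0),(15,0)]⟩⟩,⟨true,0,⟨0,[(27,0)]⟩,⟨0,[(28,
  0)]⟩⟩,⟨false,1,⟨1,[(4,1),(2,1),(3,0),(0,1),(2,1),(14,0)]⟩,⟨3,[(1,3),(3,1),(3,0),(5,0),(2,2)]⟩⟩,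
  [.o ⟨false,0,⟨0,[(14,0)]⟩,⟨7,[(9,3),(0,0),(0,0),(11,1),(6,3)]⟩⟩,.o ⟨false,1,⟨1,[(17,1),(5,0),(6,
  0)]⟩,⟨0,[(4,0),(15,0)]⟩⟩,.o ⟨false,1,⟨1,[(13,1),(9,0),(5,0)]⟩,⟨0,[(4,0),(7,0),(2,0)]⟩⟩,.a ⟨true,0,
  ⟨0,[(13,0)]⟩,⟨0,[(12,0)]⟩⟩ ⟨false,0,⟨2,[(1,1),(0,0),(1,1),(0,0),(6,1),(1,0),(0,0),(10,0)]⟩,⟨1,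
  [(11,0),(6,0),(0,0),(10,0)]⟩⟩ ⟨true,0,⟨0,[(12,0),(1,0)]⟩,⟨0,[(4,0),(8,0),(6,0)]⟩⟩]⟩))) (.Q [0,1,
  -1,0,0,0,0,0,-1,0,0,1] (.p true [0,0,0,1] [] (⟨0,[(11,0)]⟩,⟨0,[(10,0)]⟩) .k 0 (⟨0,[]⟩,⟨0,[]⟩) .k
  .k) (.K ⟨0,[0,0,0,1],0,0,(⟨0,[(12,0)]⟩,⟨0,[(11,0)]⟩),.k,(.x 0 ⟨0,[(14,0),(2,0),(5,0)]⟩ ⟨0,[(24,0),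
  (3,0)]⟩),(.x 0 ⟨0,[(24,0)]⟩ ⟨3,[(9,0),(0,0),(11,1),(0,3)]⟩),.k,.k,[⟨0,[(12,0)]⟩,⟨0,[(11,0)]⟩,⟨0,
  [(0,0)]⟩,⟨0,[(1,0),(9,0),(2,0),(2,0),(8,0)]⟩]⟩) (.Q [0,0,0,0,0,1,0,0,0,-1,0,1] (.p true [0,0,0,1]
  [1] (⟨0,[(12,0)]⟩,⟨0,[(11,0)]⟩) .k 1 (⟨0,[]⟩,⟨0,[]⟩) .k .k) (.I [0,-1,-1,-1,1,0,0,0,-1] (.R ⟨0,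
  false,false,true,[1,0,0,-1],[1,0,-1],[0,0,0,-1,0,0,0,0,-1],(⟨0,[(13,0)]⟩,⟨0,[(14,0)]⟩),(⟨0,[(22,
  0)]⟩,⟨0,[(23,0)]⟩),⟨0,[(1,0)]⟩,.k,.k,(.x (-1) ⟨3,[(11,0),(0,0),(11,1),(0,3)]⟩ ⟨0,[(26,0)]⟩),.k,.k,
  .k,⟨false,1,⟨1,[(6,0),(4,0),(9,0),(9,0)]⟩,⟨1,[(2,0),(0,0),(1,1),(2,1),(5,0),(13,0)]⟩⟩,⟨true,0,⟨0,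
  [(13,0),(2,0)]⟩,⟨0,[(5,0),(8,0)]⟩⟩,⟨true,0,⟨0,[(29,0)]⟩,⟨0,[(28,0)]⟩⟩,⟨false,0,⟨0,[(2,0),(15,0)]⟩,
  ⟨0,[(4,0),(0,0),(15,0)]⟩⟩,⟨false,0,⟨0,[]⟩,⟨0,[]⟩⟩,⟨false,0,⟨0,[]⟩,⟨0,[]⟩⟩,[.o ⟨false,0,⟨0,[(15,
  0)]⟩,⟨7,[(10,3),(0,0),(0,0),(11,1),(6,3)]⟩⟩,.o ⟨false,1,⟨1,[(18,1),(5,0),(6,0)]⟩,⟨0,[(5,0),(15,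
  0)]⟩⟩,.o ⟨false,1,⟨1,[(14,1),(9,0),(5,0)]⟩,⟨0,[(5,0),(7,0),(2,0)]⟩⟩,.a ⟨true,0,⟨0,[(14,0)]⟩,⟨0,
  [(13,0)]⟩⟩ ⟨false,1,⟨0,[(0,0)]⟩,⟨0,[(2,0),(11,0),(13,0)]⟩⟩ ⟨true,0,⟨0,[(13,0),(1,0)]⟩,⟨0,[(5,0),
  (8,0),(6,0)]⟩⟩]⟩) (.R ⟨0,false,false,false,[1,0,0,-1],[0,0,0,1],[1,0,0,0,0,0,0,0,1],(⟨0,[(13,0)]⟩,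
  ⟨0,[(14,0)]⟩),(⟨0,[(14,0)]⟩,⟨0,[(13,0)]⟩),⟨0,[(1,0)]⟩,.k,.k,(.x (-1) ⟨3,[(11,0),(0,0),(11,1),(0,
  3)]⟩ ⟨0,[(26,0)]⟩),.k,.k,.k,⟨true,0,⟨0,[]⟩,⟨1,[(19,0),(0,0)]⟩⟩,⟨false,0,⟨0,[(5,0),(7,1),(2,0)]⟩,
  ⟨4,[(0,2),(2,2),(0,5),(0,0),(0,0),(7,3),(0,0),(8,1),(2,1)]⟩⟩,⟨false,0,⟨0,[(0,0),(2,0),(27,0)]⟩,⟨0,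
  [(11,0)]⟩⟩,⟨true,(-1),⟨0,[(0,0),(1,0),(10,0),(15,0)]⟩,⟨0,[(0,1),(3,1),(0,0),(0,0),(4,0),(3,0)]⟩⟩,
  ⟨false,0,⟨0,[]⟩,⟨0,[]⟩⟩,⟨false,0,⟨0,[]⟩,⟨0,[]⟩⟩,[.o ⟨false,0,⟨0,[(2,0),(30,0)]⟩,⟨4,[(4,2),(0,2),
  (0,0),(4,0),(2,1),(0,0),(0,1),(7,0),(2,1)]⟩⟩,.o ⟨false,0,⟨0,[(2,0)]⟩,⟨0,[(4,0),(10,0),(1,0)]⟩⟩,.o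
  ⟨false,1,⟨1,[(14,1),(9,0),(5,0)]⟩,⟨0,[(5,0),(7,0),(2,0)]⟩⟩,.a ⟨true,0,⟨0,[(14,0)]⟩,⟨0,[(13,0)]⟩⟩
  ⟨true,0,⟨0,[(0,0),(4,0),(0,0),(1,0),(22,0)]⟩,⟨0,[(0,0),(10,0),(17,0)]⟩⟩ ⟨false,0,⟨0,[(2,0),(10,
  0)]⟩,⟨4,[(4,2),(0,2),(0,0),(4,0),(2,6),(0,0),(0,1),(7,0),(2,1)]⟩⟩]⟩)) (.I [0,-1,-1,-1,1,0,0,0,-1]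
  (.R ⟨1,false,false,true,[1,0,0,-1],[1,0,-1],[0,0,0,-1,0,0,0,0,-1],(⟨0,[(13,0)]⟩,⟨0,[(14,0)]⟩),(⟨0,
  [(22,0)]⟩,⟨0,[(23,0)]⟩),⟨0,[(1,0)]⟩,.k,.k,(.x (-1) ⟨3,[(11,0),(0,0),(11,1),(0,3)]⟩ ⟨0,[(26,0)]⟩),
  .k,(.r (-1) ⟨3,[(6,1),(4,2),(0,0),(8,1)]⟩ ⟨0,[(2,0),(2,0),(2,0),(5,0)]⟩),.k,⟨false,1,⟨1,[(6,0),(4,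
  0),(9,0),(9,0)]⟩,⟨1,[(2,0),(0,0),(1,1),(2,1),(5,0),(13,0)]⟩⟩,⟨true,0,⟨0,[(13,0),(2,0)]⟩,⟨0,[(5,0),
  (8,0)]⟩⟩,⟨true,0,⟨0,[(29,0)]⟩,⟨0,[(28,0)]⟩⟩,⟨false,0,⟨0,[(2,0),(15,0)]⟩,⟨0,[(4,0),(0,0),(15,0)]⟩⟩,
  ⟨false,1,⟨3,[(11,0),(0,0),(18,1)]⟩,⟨0,[]⟩⟩,⟨false,0,⟨0,[(2,0),(5,0)]⟩,⟨3,[(4,3),(1,1),(3,0),(5,0),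
  (2,2)]⟩⟩,[.o ⟨false,0,⟨0,[(15,0)]⟩,⟨7,[(10,3),(0,0),(0,0),(11,1),(6,3)]⟩⟩,.o ⟨false,1,⟨1,[(18,1),
  (5,0),(6,0)]⟩,⟨0,[(5,0),(15,0)]⟩⟩,.o ⟨false,1,⟨1,[(14,1),(9,0),(5,0)]⟩,⟨0,[(5,0),(7,0),(2,0)]⟩⟩,
  .a ⟨true,0,⟨0,[(14,0)]⟩,⟨0,[(13,0)]⟩⟩ ⟨false,1,⟨0,[(0,0)]⟩,⟨0,[(2,0),(11,0),(13,0)]⟩⟩ ⟨true,0,⟨0,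
  [(13,0),(1,0)]⟩,⟨0,[(5,0),(8,0),(6,0)]⟩⟩]⟩) (.Q [0,1,1,-1,-1,0,0,0,1,0,0,-1] (.p false [0,0,0,1]
  [] (⟨0,[(14,0)]⟩,⟨0,[(13,0)]⟩) .k 0 (⟨0,[]⟩,⟨0,[]⟩) .k .k) (.R ⟨2,false,false,true,[0,1],[0,0,0,
  1],[],(⟨0,[]⟩,⟨0,[]⟩),(⟨0,[(15,0)]⟩,⟨0,[(14,0)]⟩),⟨0,[]⟩,.k,.k,.k,(.r (-1) ⟨7,[(9,3),(0,3),(1,4),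
  (0,0),(3,3),(2,3),(11,1)]⟩ ⟨0,[(1,1),(0,0),(2,0),(0,0),(0,0),(8,0),(10,0),(2,0),(1,0)]⟩),.k,.k,
  ⟨true,1,⟨1,[(12,0),(19,0)]⟩,⟨1,[(0,0),(0,0),(13,0)]⟩⟩,⟨false,0,⟨0,[(6,0),(7,0),(2,0)]⟩,⟨0,[(15,0),
  (15,0)]⟩⟩,⟨false,1,⟨1,[(4,1),(7,0),(19,0)]⟩,⟨1,[(1,1),(10,0),(19,0)]⟩⟩,⟨true,(-1),⟨0,[(0,0)]⟩,⟨0,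
  [(5,0),(23,0)]⟩⟩,⟨false,1,⟨1,[(31,0),(0,0)]⟩,⟨1,[(20,0),(0,0)]⟩⟩,⟨false,0,⟨5,[(0,1),(2,3),(8,0),
  (0,0),(15,1)]⟩,⟨0,[(5,0)]⟩⟩,[.a ⟨true,(-1),⟨1,[(0,0),(0,0),(12,1),(0,0)]⟩,⟨0,[(5,0)]⟩⟩ ⟨false,1,
  ⟨3,[(12,0),(0,0),(17,1)]⟩,⟨0,[]⟩⟩ ⟨true,(-1),⟨5,[(0,3),(0,3),(1,1),(8,1),(7,0),(0,0)]⟩,⟨0,[(5,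
  0)]⟩⟩,.o ⟨false,0,⟨5,[(0,1),(2,3),(8,0),(0,0),(15,1)]⟩,⟨4,[(5,2),(0,2),(0,0),(4,0),(2,1),(0,0),(0,
  1),(7,0),(2,1)]⟩⟩,.o ⟨false,1,⟨3,[(12,0),(0,0),(17,1)]⟩,⟨0,[(6,0),(10,0)]⟩⟩,.e ⟨false,1,⟨1,[(31,
  0),(0,0)]⟩,⟨1,[(20,0),(0,0)]⟩⟩ ⟨false,0,⟨5,[(0,1),(2,3),(8,0),(0,0),(15,1)]⟩,⟨0,[(5,0)]⟩⟩]⟩) (.I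
  [1,-1,-1,0,1,0,0,-1] (.R ⟨1,false,false,false,[1,0,0,-1],[1,0,-1],[0,0,0,-1,0,0,0,0,-1],(⟨0,[(15,
  0)]⟩,⟨0,[(16,0)]⟩),(⟨0,[(24,0)]⟩,⟨0,[(25,0)]⟩),⟨0,[(3,0)]⟩,.k,.k,(.x (-1) ⟨3,[(13,0),(0,0),(11,1),
  (0,3)]⟩ ⟨0,[(28,0)]⟩),.k,(.r (-1) ⟨3,[(8,1),(4,2),(0,0),(8,1)]⟩ ⟨1,[(0,0),(1,0),(1,0),(5,0),(5,0),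
  (4,0)]⟩),.k,⟨false,1,⟨3,[(8,1),(4,2),(0,0),(8,1)]⟩,⟨0,[(0,0),(1,0)]⟩⟩,⟨true,0,⟨0,[(15,0),(2,0)]⟩,
  ⟨0,[(7,0),(8,0)]⟩⟩,⟨true,0,⟨0,[(31,0)]⟩,⟨0,[(30,0)]⟩⟩,⟨true,0,⟨0,[(4,0),(15,0)]⟩,⟨1,[(1,0),(0,2),
  (4,1),(0,1),(4,1),(2,0)]⟩⟩,⟨false,1,⟨3,[(13,0),(0,0),(18,1)]⟩,⟨0,[]⟩⟩,⟨true,0,⟨0,[(4,0),(5,0)]⟩,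
  ⟨0,[(2,0),(4,0),(0,0),(4,0),(2,0)]⟩⟩,[.o ⟨false,1,⟨1,[(20,1),(5,0),(6,0)]⟩,⟨0,[(7,0),(15,0)]⟩⟩,.o
  ⟨false,1,⟨0,[(0,0),(17,0)]⟩,⟨0,[(19,0)]⟩⟩,.o ⟨false,1,⟨1,[(16,1),(9,0),(5,0)]⟩,⟨0,[(7,0),(7,0),(2,
  0)]⟩⟩,.a ⟨true,0,⟨0,[(16,0)]⟩,⟨0,[(15,0)]⟩⟩ ⟨true,1,⟨0,[(5,0),(7,0)]⟩,⟨0,[(2,0)]⟩⟩ ⟨false,1,⟨0,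
  [(0,0),(14,0),(2,0)]⟩,⟨4,[(1,0),(0,0),(4,2),(0,0),(3,1),(3,3),(1,1)]⟩⟩]⟩) (.Q [0,0,0,0,0,1,0,0,0,
  -1,1] (.ed false [0,1,1] .k) (.K ⟨2,[-1,1,1],0,0,(⟨0,[(0,0)]⟩,⟨0,[(25,0),(2,0)]⟩),.k,.k,(.r 0 ⟨1,
  [(3,1),(8,1),(1,0),(4,1),(14,0)]⟩ ⟨0,[(8,1),(0,0),(11,1),(12,0)]⟩),.k,.k,[⟨1,[(2,0),(0,0),(12,1),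
  (0,0)]⟩,⟨0,[(18,0),(13,0)]⟩,⟨1,[(19,1),(2,0),(0,0)]⟩,⟨0,[(8,0),(7,0),(0,0)]⟩]⟩) (.R ⟨1,false,
  false,true,[1,0,0,-1],[0,1,1],[0,0,0,-1,0,0,0,0,-1],(⟨0,[(16,0)]⟩,⟨0,[(17,0)]⟩),(⟨0,[(26,0),(2,
  0)]⟩,⟨0,[(0,0)]⟩),⟨0,[(4,0)]⟩,.k,.k,(.x (-1) ⟨7,[(0,3),(9,3),(3,2),(0,2),(11,1)]⟩ ⟨0,[(29,0)]⟩),
  (.r (-1) ⟨0,[(7,0),(0,0),(7,0),(1,0),(13,0)]⟩ ⟨3,[(3,1),(8,1),(2,0),(3,1),(4,1),(9,0)]⟩),(.r (-2)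
  ⟨1,[(6,3),(1,1),(5,2),(6,1),(12,0)]⟩ ⟨0,[(1,0),(0,0),(0,0),(1,0)]⟩),.k,⟨false,2,⟨1,[(8,3),(0,1),
  (4,0),(6,3),(12,2)]⟩,⟨1,[(1,0),(0,0),(0,1),(1,0),(18,0),(5,0)]⟩⟩,⟨true,0,⟨0,[(8,0),(7,0)]⟩,⟨0,
  [(17,0),(1,0)]⟩⟩,⟨true,0,⟨0,[(32,0)]⟩,⟨0,[(31,0)]⟩⟩,⟨true,(-1),⟨2,[(1,0),(1,1),(1,0),(2,0),(4,0),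
  (2,1),(13,0)]⟩,⟨0,[(7,0),(10,0),(13,0)]⟩⟩,⟨false,1,⟨3,[(14,0),(0,0),(18,1)]⟩,⟨0,[]⟩⟩,⟨true,(-1),
  ⟨2,[(1,1),(0,0),(0,1),(1,1),(2,1),(3,0),(3,1),(13,1)]⟩,⟨0,[(7,0),(10,0),(13,1)]⟩⟩,[.o ⟨false,0,⟨3,
  [(1,0),(6,0),(3,0),(0,0),(13,0),(2,0),(0,1)]⟩,⟨0,[(18,0),(13,0),(1,0)]⟩⟩,.o ⟨false,0,⟨14,[(1,9),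
  (0,8),(2,8),(2,10),(0,0),(3,1),(13,0),(2,7)]⟩,⟨1,[(21,1),(5,0),(4,1),(1,0)]⟩⟩,.o ⟨false,1,⟨1,[(17,
  1),(9,0),(5,0)]⟩,⟨2,[(1,0),(3,1),(2,0),(5,0),(1,0),(1,0)]⟩⟩,.a ⟨true,0,⟨0,[(17,0)]⟩,⟨0,[(16,0)]⟩⟩
  ⟨true,1,⟨0,[(6,0),(7,0)]⟩,⟨0,[(3,0)]⟩⟩ ⟨false,0,⟨6,[(1,3),(0,2),(2,4),(2,4),(0,0),(2,1),(1,0),(1,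
  4),(13,3)]⟩,⟨0,[(17,0),(0,0),(13,0),(1,0)]⟩⟩]⟩))))))))))

theorem ok0 : chk (cU (-1) true 3) t0 l3 = true := by decide +kernel

noncomputable def t1 : Tre :=
  (.Q [0,0,0,-1,0,0,1,1,0,0,-1] (.p false [0,0,1] [] (⟨0,[(17,0)]⟩,⟨0,[(16,0)]⟩) .k 0 (⟨0,[]⟩,⟨0,
  []⟩) .k .k) (.Q [0,0,0,0,0,0,-1,-1,0,0,1] (.p true [0,0,1] [] (⟨0,[(18,0)]⟩,⟨0,[(17,0)]⟩) .k 0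
  (⟨0,[]⟩,⟨0,[]⟩) .k .k) (.R ⟨2,true,false,false,[0,1],[0,0,1],[0,1,1],(⟨0,[]⟩,⟨0,[]⟩),(⟨0,[(19,
  0)]⟩,⟨0,[(18,0)]⟩),⟨0,[]⟩,.k,.k,.k,.k,.k,.k,⟨false,0,⟨0,[(0,0),(14,0),(7,0),(1,0)]⟩,⟨1,[(17,1),(8,
  0),(0,0)]⟩⟩,⟨true,0,⟨0,[(15,0)]⟩,⟨0,[(0,0),(16,0)]⟩⟩,⟨false,0,⟨0,[(25,0)]⟩,⟨0,[(24,0),(2,0)]⟩⟩,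
  ⟨true,0,⟨0,[(1,0)]⟩,⟨0,[(4,0)]⟩⟩,⟨true,0,⟨0,[(29,0)]⟩,⟨0,[]⟩⟩,⟨false,1,⟨7,[(6,3),(0,0),(0,0),(11,
  1),(6,3)]⟩,⟨0,[(0,0)]⟩⟩,[]⟩) (.Q [0,0,0,0,0,0,-1,0,0,0,1] (.p true [0,0,1] [] (⟨0,[(19,0)]⟩,⟨0,
  [(18,0)]⟩) .k 0 (⟨0,[]⟩,⟨0,[]⟩) .k .k) (.I [0,0,2,2,0,0,0,-1] (.K ⟨2,[0,-1,1],0,0,(⟨0,[(5,0)]⟩,⟨0,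
  [(20,0),(3,0)]⟩),.k,(.r (-1) ⟨0,[(19,0),(7,1),(0,0)]⟩ ⟨0,[(0,0)]⟩),.k,.k,.k,[⟨0,[(27,0)]⟩,⟨0,[(6,
  0)]⟩,⟨0,[(1,0)]⟩,⟨1,[(17,2),(0,0)]⟩]⟩) (.I [0,0,2,0,0,-2,1] (.K ⟨2,[0,-1,1],0,0,(⟨0,[(6,0)]⟩,⟨0,
  [(21,0),(3,0)]⟩),.k,(.x 0 ⟨0,[(0,0)]⟩ ⟨3,[(1,1),(0,1),(11,1),(6,3),(1,0),(1,7),(0,3),(3,2)]⟩),.k,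
  .k,.k,[⟨0,[(28,0)]⟩,⟨0,[(7,0)]⟩,⟨0,[(2,0)]⟩,⟨1,[(18,2),(0,0)]⟩]⟩) (.K ⟨2,[-1,1,1],0,0,(⟨0,[(0,1),
  (5,2),(8,0),(2,2)]⟩,⟨0,[(21,0),(2,0)]⟩),.k,.k,(.r 0 ⟨0,[(5,0),(14,1)]⟩ ⟨0,[(0,1),(0,0),(4,1),(7,
  1),(3,3),(5,1),(5,0)]⟩),.k,.k,[⟨2,[(0,0),(4,0),(2,0),(13,0),(1,1)]⟩,⟨0,[(14,0),(13,0)]⟩,⟨1,[(15,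
  1),(2,0),(0,0)]⟩,⟨0,[(0,0),(5,0),(11,1),(5,0)]⟩]⟩))) (.I [0,0,1,1,0,0,0,0,-1] (.Q [0,0,-2,0,1,0,
  -1,0,0,-1,1] (.p true [0,0,1] [1] (⟨0,[(21,0)]⟩,⟨0,[(20,0)]⟩) .k 1 (⟨0,[]⟩,⟨0,[]⟩) .k .k) (.Q [0,
  1,1,0,0,0,0,0,1,0,0,-1] (.p false [0,0,0,1] [] (⟨0,[(13,0)]⟩,⟨0,[(12,0)]⟩) .k 0 (⟨0,[]⟩,⟨0,[]⟩)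
  .k .k) (.Q [0,1,-1,0,0,0,0,0,-1,0,0,1] (.p true [0,0,0,1] [] (⟨0,[(14,0)]⟩,⟨0,[(13,0)]⟩) .k 0 (⟨0,
  []⟩,⟨0,[]⟩) .k .k) (.K ⟨0,[0,0,0,1],0,0,(⟨0,[(15,0)]⟩,⟨0,[(14,0)]⟩),.k,(.r (-1) ⟨1,[(13,0),(16,1),
  (0,0)]⟩ ⟨0,[(3,0)]⟩),(.x 0 ⟨0,[(27,0)]⟩ ⟨3,[(12,0),(0,0),(11,1),(0,3)]⟩),.k,.k,[⟨0,[(15,0)]⟩,⟨0,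
  [(14,0)]⟩,⟨0,[(0,0)]⟩,⟨0,[(1,0)]⟩]⟩) (.Q [0,0,0,2,0,0,0,0,0,1] (.pp false [-1,1]) (.Q [0,0,0,0,0,
  2,0,0,0,0,-1] (.p false [0,0,1] [] (⟨0,[(25,0)]⟩,⟨0,[(24,0)]⟩) .k 0 (⟨0,[]⟩,⟨0,[]⟩) .k .k) (.Q [0,
  0,0,1,0,0,0,0,0,1,0,-1] (.p false [0,0,0,1] [1] (⟨0,[(17,0)]⟩,⟨0,[(16,0)]⟩) .k 1 (⟨0,[]⟩,⟨0,[]⟩)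
  .k .k) (.Q [0,0,0,0,0,1,0,0,0,-1,1] (.ed false [0,1,1] .k) (.R ⟨0,false,false,false,[1,0,-1],[0,
  1],[0,1],(⟨0,[(27,0)]⟩,⟨0,[(28,0)]⟩),(⟨0,[(31,0)]⟩,⟨0,[(30,0)]⟩),⟨0,[(0,0)]⟩,.k,.k,.k,.k,.k,.k,
  ⟨true,0,⟨0,[(32,0),(1,1)]⟩,⟨0,[(4,0),(2,0),(11,0)]⟩⟩,⟨false,1,⟨0,[(8,0),(9,0),(0,0),(15,0)]⟩,⟨0,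
  [(21,0)]⟩⟩,⟨false,0,⟨0,[(26,0)]⟩,⟨0,[(8,0),(14,0),(12,0)]⟩⟩,⟨true,0,⟨0,[(14,0)]⟩,⟨0,[(20,0),(13,
  0)]⟩⟩,⟨false,0,⟨0,[]⟩,⟨0,[]⟩⟩,⟨false,0,⟨0,[]⟩,⟨0,[]⟩⟩,[.a ⟨true,0,⟨1,[(3,0),(14,0),(0,0)]⟩,⟨0,
  [(34,0)]⟩⟩ ⟨false,0,⟨0,[(32,0),(1,0)]⟩,⟨3,[(16,0),(0,0),(18,1)]⟩⟩ ⟨true,0,⟨1,[(3,0),(4,1),(9,0),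
  (0,0)]⟩,⟨0,[(21,0),(12,0)]⟩⟩,.o ⟨false,1,⟨7,[(3,3),(12,0),(0,0),(11,1),(6,3)]⟩,⟨0,[(10,0),(9,
  0)]⟩⟩,.o ⟨false,1,⟨2,[(6,0),(9,0),(0,0),(3,1)]⟩,⟨0,[(8,0)]⟩⟩,.o ⟨false,0,⟨0,[(21,0)]⟩,⟨3,[(8,3),
  (7,0),(0,0),(17,1)]⟩⟩]⟩) (.Q [0,0,0,0,0,1,0,0,0,0,0,-1] (.p false [0,0,0,1] [] (⟨0,[(19,0)]⟩,⟨0,
  [(18,0)]⟩) .k 0 (⟨0,[]⟩,⟨0,[]⟩) .k .k) (.R ⟨0,false,false,true,[0,0,0,1],[1,-1],[1,1],(⟨0,[(20,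
  0)]⟩,⟨0,[(19,0)]⟩),(⟨0,[(31,0)]⟩,⟨0,[(32,0)]⟩),⟨0,[(0,0)]⟩,.k,.k,(.r (-1) ⟨1,[(18,0),(16,1),(0,
  0)]⟩ ⟨0,[(8,0)]⟩),(.x 0 ⟨0,[(32,0)]⟩ ⟨7,[(1,3),(11,3),(3,2),(0,2),(11,1)]⟩),.k,.k,⟨true,0,⟨1,[(12,
  0),(14,0)]⟩,⟨0,[(35,0)]⟩⟩,⟨false,1,⟨1,[(20,1),(9,0),(5,0)]⟩,⟨0,[(19,0)]⟩⟩,⟨true,0,⟨0,[(8,0),(24,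
  0),(1,1)]⟩,⟨0,[(5,0),(14,0),(12,0),(1,0)]⟩⟩,⟨false,1,⟨0,[(7,0),(0,0),(0,0),(10,0),(14,1)]⟩,⟨1,[(4,
  0),(0,1),(13,0),(0,0)]⟩⟩,⟨false,0,⟨0,[]⟩,⟨0,[]⟩⟩,⟨false,0,⟨0,[]⟩,⟨0,[]⟩⟩,[.o ⟨false,0,⟨0,[(11,0),
  (9,0)]⟩,⟨7,[(4,3),(12,0),(0,0),(11,1),(6,3)]⟩⟩,.a ⟨true,0,⟨0,[(35,0)]⟩,⟨1,[(4,0),(14,0),(0,0)]⟩⟩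
  ⟨true,0,⟨0,[]⟩,⟨1,[(25,0),(0,0)]⟩⟩ ⟨false,1,⟨0,[(7,0),(1,0),(10,0),(14,0)]⟩,⟨15,[(2,5),(2,0),(0,
  0),(1,1),(3,3),(3,1),(2,7),(6,3)]⟩⟩,.o ⟨false,0,⟨1,[(5,0),(2,0),(2,0),(7,0),(1,0)]⟩,⟨1,[(20,1),(9,
  0),(5,0)]⟩⟩,.o ⟨false,0,⟨0,[(19,0),(2,0),(2,0)]⟩,⟨0,[(7,0),(1,0),(10,0)]⟩⟩]⟩) (.I [0,0,1,0,0,0,0,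
  -1] (.R ⟨0,false,false,false,[0,-1,1],[1,-1],[0,0,0,-1],(⟨0,[(14,0)]⟩,⟨1,[(4,0),(15,0),(0,0),(7,
  0)]⟩),(⟨0,[(32,0)]⟩,⟨0,[(33,0)]⟩),⟨0,[(4,0)]⟩,.k,.k,(.r (-1) ⟨0,[(28,0),(7,1),(0,0)]⟩ ⟨0,[(0,0),
  (0,0),(4,0),(2,0),(23,0),(0,0)]⟩),.k,.k,.k,⟨true,0,⟨1,[(26,0),(0,0)]⟩,⟨0,[]⟩⟩,⟨false,1,⟨5,[(8,3),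
  (9,0),(0,0),(3,1)]⟩,⟨0,[(10,0),(9,0),(0,0)]⟩⟩,⟨true,0,⟨0,[(0,0)]⟩,⟨0,[(28,0),(5,0),(1,0)]⟩⟩,
  ⟨false,1,⟨0,[(22,0),(15,0)]⟩,⟨1,[(17,0),(2,0),(0,0)]⟩⟩,⟨false,0,⟨0,[]⟩,⟨0,[]⟩⟩,⟨false,0,⟨0,[]⟩,⟨0,
  []⟩⟩,[.a ⟨true,0,⟨0,[(36,0)]⟩,⟨1,[(5,0),(14,0),(0,0)]⟩⟩ ⟨true,0,⟨0,[(36,0)]⟩,⟨1,[(13,0),(14,0)]⟩⟩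
  ⟨false,1,⟨0,[(8,0),(27,0)]⟩,⟨1,[(0,1),(4,0),(11,0)]⟩⟩,.o ⟨false,1,⟨1,[(31,0),(4,1),(1,0)]⟩,⟨0,
  [(35,0)]⟩⟩,.o ⟨false,0,⟨0,[(26,0)]⟩,⟨5,[(8,3),(9,0),(0,0),(3,1)]⟩⟩,.o ⟨false,0,⟨1,[(26,2),(0,0)]⟩,
  ⟨0,[(8,0)]⟩⟩]⟩) (.Q [0,1,1,0,-1,0,0,0,1,0,0,-1] (.p false [0,0,0,1] [] (⟨0,[(21,0)]⟩,⟨0,[(20,
  0)]⟩) .k 0 (⟨0,[]⟩,⟨0,[]⟩) .k .k) (.K ⟨0,[0,0,0,1],0,(-1),(⟨0,[(22,0)]⟩,⟨0,[(21,0)]⟩),.k,(.r (-1)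
  ⟨1,[(20,0),(16,1),(0,0)]⟩ ⟨0,[(10,0)]⟩),(.x 0 ⟨0,[(34,0)]⟩ ⟨7,[(3,3),(11,3),(3,2),(0,2),(11,1)]⟩),
  .k,.k,[⟨0,[(22,0)]⟩,⟨0,[(21,0)]⟩,⟨1,[(19,0),(2,1),(15,0),(2,1)]⟩,⟨0,[(0,0)]⟩]⟩) (.Q [0,0,0,0,0,-1,
  0,0,0,1,0,-1] (.p false [0,0,0,1] [1] (⟨0,[(22,0)]⟩,⟨0,[(21,0)]⟩) .k 1 (⟨0,[]⟩,⟨0,[]⟩) .k .k) (.R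
  ⟨1,false,false,false,[1,0,0,-1],[0,1,1],[1,1,0,0,0,0,0,0,-1],(⟨0,[(22,0)]⟩,⟨0,[(23,0)]⟩),(⟨0,[(32,
  0),(2,0)]⟩,⟨0,[(4,0)]⟩),⟨0,[(0,0)]⟩,.k,.k,(.x (-1) ⟨7,[(0,3),(2,3),(16,2),(0,2),(11,1)]⟩ ⟨0,[(35,
  0)]⟩),(.r (-1) ⟨0,[(1,0),(10,0),(9,0),(1,0),(13,0)]⟩ ⟨0,[(8,0),(14,0),(6,0),(6,0)]⟩),(.x 0 ⟨0,[(2,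
  0),(0,0),(0,0),(3,0),(2,0),(12,0),(13,0)]⟩ ⟨3,[(12,3),(7,0),(0,0),(10,3),(2,7),(3,1)]⟩),.k,⟨false,
  1,⟨0,[(1,0),(10,0),(9,0),(1,0),(11,0),(1,1)]⟩,⟨1,[(2,1),(5,1),(6,0),(7,1),(6,0)]⟩⟩,⟨true,0,⟨0,
  [(12,0),(9,0)]⟩,⟨0,[(23,0),(1,0)]⟩⟩,⟨false,0,⟨0,[]⟩,⟨3,[(20,0),(0,0),(18,1)]⟩⟩,⟨false,0,⟨1,[(7,0),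
  (0,1),(10,0)]⟩,⟨0,[(1,0),(22,0),(13,0)]⟩⟩,⟨true,0,⟨0,[(37,0)]⟩,⟨0,[(38,0)]⟩⟩,⟨false,0,⟨0,[(7,0),
  (0,0),(4,0)]⟩,⟨0,[(1,0),(22,0),(13,1)]⟩⟩,[.o ⟨false,0,⟨1,[(2,1),(9,0),(0,0),(1,0)]⟩,⟨1,[(27,1),(5,
  0),(4,1),(1,0)]⟩⟩,.o ⟨false,1,⟨1,[(7,0),(11,0),(13,0),(6,0)]⟩,⟨0,[(24,0),(13,0)]⟩⟩,.o ⟨false,1,⟨1,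
  [(23,1),(9,0),(5,0)]⟩,⟨1,[(8,0),(2,0),(2,0),(7,0),(1,0)]⟩⟩,.a ⟨true,0,⟨0,[(23,0)]⟩,⟨0,[(22,0)]⟩⟩
  ⟨false,1,⟨1,[(20,0),(18,0)]⟩,⟨0,[(8,0),(14,0)]⟩⟩ ⟨true,0,⟨0,[(5,0),(7,0)]⟩,⟨0,[(23,0),(0,0),(13,
  0)]⟩⟩]⟩) (.R ⟨0,false,false,false,[1,0,0,-1],[1,0,-1],[1,0,1],(⟨0,[(22,0)]⟩,⟨0,[(23,0)]⟩),(⟨0,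
  [(31,0)]⟩,⟨0,[(32,0)]⟩),⟨0,[(0,0)]⟩,.k,.k,(.x (-1) ⟨7,[(4,3),(11,3),(3,2),(0,2),(11,1)]⟩ ⟨0,[(35,
  0)]⟩),.k,.k,.k,⟨false,0,⟨0,[(30,0)]⟩,⟨1,[(12,1),(14,1),(11,0),(0,0)]⟩⟩,⟨true,0,⟨0,[(22,0),(2,0)]⟩,
  ⟨0,[(12,0),(10,0)]⟩⟩,⟨false,0,⟨0,[(8,0),(14,0)]⟩,⟨1,[(20,0),(18,0)]⟩⟩,⟨true,0,⟨0,[(8,0),(18,0)]⟩,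
  ⟨0,[(2,0),(8,0),(0,0),(10,0),(12,0),(1,1)]⟩⟩,⟨false,0,⟨0,[]⟩,⟨0,[]⟩⟩,⟨false,0,⟨0,[]⟩,⟨0,[]⟩⟩,[.o
  ⟨false,1,⟨1,[(27,1),(5,0),(6,0)]⟩,⟨0,[(13,0)]⟩⟩,.o ⟨false,1,⟨0,[(24,0),(15,0)]⟩,⟨0,[(26,0)]⟩⟩,.o
  ⟨false,1,⟨9,[(0,3),(0,1),(1,3),(17,0),(11,2),(5,3),(2,1)]⟩,⟨1,[(8,0),(2,0),(2,0),(7,0),(1,0)]⟩⟩,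
  .a ⟨true,0,⟨0,[(23,0)]⟩,⟨0,[(22,0)]⟩⟩ ⟨true,0,⟨0,[]⟩,⟨0,[(42,0)]⟩⟩ ⟨false,1,⟨0,[(22,0),(1,0),(15,
  0)]⟩,⟨1,[(0,0),(2,0),(15,0)]⟩⟩]⟩)))))) (.I [1,0,1,1,0,0,0,-1] (.R ⟨1,false,false,false,[0,0,1],[1,
  -1],[0,0,0,-1,0,0,0,1],(⟨0,[(28,0)]⟩,⟨0,[(27,0)]⟩),(⟨0,[(30,0)]⟩,⟨0,[(31,0)]⟩),⟨0,[(12,0)]⟩,.k,.k,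
  .k,.k,.k,.k,⟨false,0,⟨0,[(26,0)]⟩,⟨1,[(8,1),(14,1),(11,0),(0,0)]⟩⟩,⟨true,0,⟨0,[(21,0)]⟩,⟨0,[(8,0),
  (9,0),(0,0)]⟩⟩,⟨true,0,⟨0,[(34,0)]⟩,⟨0,[(33,0)]⟩⟩,⟨false,1,⟨0,[(20,0),(13,0),(1,0)]⟩,⟨0,[(14,
  0)]⟩⟩,⟨false,1,⟨3,[(16,0),(0,0),(18,1)]⟩,⟨0,[]⟩⟩,⟨false,1,⟨0,[(20,0),(15,0)]⟩,⟨1,[(15,0),(2,0),(0,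
  0)]⟩⟩,[.a ⟨true,0,⟨0,[(34,0)]⟩,⟨1,[(3,0),(14,0),(0,0)]⟩⟩ ⟨true,0,⟨0,[(26,0),(7,0)]⟩,⟨0,[(0,0)]⟩⟩
  ⟨false,1,⟨5,[(6,3),(9,0),(0,0),(3,1),(12,5)]⟩,⟨1,[(3,0),(4,1),(9,0),(0,0)]⟩⟩,.o ⟨false,1,⟨1,[(29,
  0),(4,1),(1,0)]⟩,⟨0,[(33,0)]⟩⟩,.o ⟨false,0,⟨0,[(8,0)]⟩,⟨2,[(6,0),(9,0),(0,0),(3,1)]⟩⟩,.o ⟨false,0,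
  ⟨0,[(24,0)]⟩,⟨5,[(6,3),(9,0),(0,0),(3,1)]⟩⟩]⟩) (.Q [0,0,0,0,0,1,0,0,0,-1,0,1] (.p true [0,0,0,1]
  [1] (⟨0,[(19,0)]⟩,⟨0,[(18,0)]⟩) .k 1 (⟨0,[]⟩,⟨0,[]⟩) .k .k) (.R ⟨0,false,false,false,[1,0,0,-1],
  [1,0,-1],[1,0,1],(⟨0,[(19,0)]⟩,⟨0,[(20,0)]⟩),(⟨0,[(28,0)]⟩,⟨0,[(29,0)]⟩),⟨0,[(0,0)]⟩,.k,.k,(.x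
  (-1) ⟨3,[(17,0),(0,0),(11,1),(0,3)]⟩ ⟨0,[(32,0)]⟩),.k,.k,.k,⟨false,0,⟨0,[(27,0)]⟩,⟨1,[(9,1),(14,
  1),(11,0),(0,0)]⟩⟩,⟨true,0,⟨0,[(19,0),(2,0)]⟩,⟨0,[(9,0),(10,0)]⟩⟩,⟨false,0,⟨0,[(5,0),(14,0)]⟩,⟨1,
  [(17,0),(18,0)]⟩⟩,⟨true,0,⟨0,[(5,0),(18,0)]⟩,⟨1,[(1,2),(6,1),(0,2),(10,1),(3,0),(8,0)]⟩⟩,⟨false,0,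
  ⟨0,[]⟩,⟨0,[]⟩⟩,⟨false,0,⟨0,[]⟩,⟨0,[]⟩⟩,[.o ⟨false,1,⟨1,[(24,1),(5,0),(6,0)]⟩,⟨0,[(10,0)]⟩⟩,.o
  ⟨false,1,⟨0,[(21,0),(15,0)]⟩,⟨0,[(23,0)]⟩⟩,.o ⟨false,1,⟨1,[(20,1),(9,0),(5,0)]⟩,⟨1,[(5,0),(2,0),
  (2,0),(7,0),(1,0)]⟩⟩,.a ⟨true,0,⟨0,[(20,0)]⟩,⟨0,[(19,0)]⟩⟩ ⟨true,0,⟨0,[]⟩,⟨0,[(39,0)]⟩⟩ ⟨false,1,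
  ⟨0,[(19,0),(1,0),(15,0)]⟩,⟨1,[(2,1),(1,0),(11,0)]⟩⟩]⟩) (.Q [0,0,1,-1,-1,0,1,1,1,1,-1,-1] (.p
  false [0,0,1] [1,0,0,-1] (⟨0,[(29,0)]⟩,⟨0,[(28,0)]⟩) .k 2 (⟨0,[(19,0)]⟩,⟨0,[(20,0)]⟩) .k (.r 0 ⟨3,
  [(1,1),(3,2),(0,0),(13,3),(6,1),(5,1)]⟩ ⟨1,[(9,1),(7,0),(6,1),(12,0)]⟩)) (.Q [0,-1,0,-1,0,0,1,1,0,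
  1,-1] (.p false [0,0,1] [1] (⟨0,[(30,0)]⟩,⟨0,[(29,0)]⟩) .k 1 (⟨0,[]⟩,⟨0,[]⟩) .k .k) (.R ⟨1,false,
  false,false,[1,-1],[0,-1,1],[1,0,-1,-1],(⟨0,[(33,0)]⟩,⟨0,[(34,0)]⟩),(⟨0,[(15,0)]⟩,⟨5,[(0,1),(4,2),
  (0,0),(19,1),(3,2)]⟩),⟨0,[(2,1),(1,1),(1,0)]⟩,.k,.k,(.r (-1) ⟨0,[(37,1),(0,0)]⟩ ⟨0,[(14,0),(14,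
  0)]⟩),.k,.k,.k,⟨false,1,⟨1,[(11,1),(14,1),(11,0),(0,0)]⟩,⟨0,[(29,0)]⟩⟩,⟨true,0,⟨2,[(0,1),(5,0),(4,
  2),(14,1)]⟩,⟨0,[(24,0)]⟩⟩,⟨true,0,⟨0,[]⟩,⟨0,[(41,0)]⟩⟩,⟨true,0,⟨5,[(0,1),(5,0),(11,2),(7,1)]⟩,⟨0,
  [(23,0)]⟩⟩,⟨false,1,⟨7,[(6,3),(12,0),(0,0),(11,1),(6,3)]⟩,⟨0,[(37,0)]⟩⟩,⟨true,0,⟨0,[(17,0)]⟩,⟨0,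
  [(23,0),(13,0)]⟩⟩,[.o ⟨false,0,⟨0,[(13,0)]⟩,⟨1,[(16,1),(15,0),(6,0)]⟩⟩,.a ⟨true,0,⟨0,[(0,0)]⟩,⟨0,
  [(16,0)]⟩⟩ ⟨true,1,⟨1,[(37,1),(0,0),(0,0)]⟩,⟨0,[(1,0),(2,0),(1,0),(3,0),(12,0)]⟩⟩ ⟨false,1,⟨0,[(0,
  0),(37,0)]⟩,⟨2,[(14,0),(8,1),(0,0),(11,0)]⟩⟩,.o ⟨false,0,⟨0,[(11,0),(12,0)]⟩,⟨3,[(19,0),(0,0),(17,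
  1)]⟩⟩,.o ⟨false,0,⟨0,[(24,0),(2,0)]⟩,⟨0,[(38,0)]⟩⟩]⟩) (.K ⟨0,[0,0,0,1],0,(-1),(⟨0,[(22,0)]⟩,⟨0,
  [(21,0)]⟩),.k,(.r (-1) ⟨1,[(20,0),(16,1),(0,0)]⟩ ⟨0,[(10,0)]⟩),(.x 0 ⟨0,[(34,0)]⟩ ⟨3,[(19,0),(0,
  0),(11,1),(0,3)]⟩),.k,.k,[⟨0,[(22,0)]⟩,⟨0,[(21,0)]⟩,⟨1,[(19,0),(2,1),(15,0),(2,1)]⟩,⟨0,[(0,0),(0,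
  0)]⟩]⟩)) (.I [1,-1,2,3] (.I [1,-1,-1,0,1,0,0,0,-1] (.R ⟨1,false,false,false,[1,0,0,-1],[1,-1],[1,
  0,0,0,0,0,0,0,-1],(⟨0,[(22,0)]⟩,⟨0,[(23,0)]⟩),(⟨0,[(34,0)]⟩,⟨0,[(35,0)]⟩),⟨0,[(3,0)]⟩,.k,.k,(.x
  (-1) ⟨3,[(20,0),(0,0),(11,1),(0,3)]⟩ ⟨0,[(35,0)]⟩),(.r 0 ⟨0,[(11,0)]⟩ ⟨1,[(21,0),(16,1),(0,0)]⟩),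
  .k,.k,⟨true,0,⟨0,[(11,0)]⟩,⟨0,[(4,0),(3,0),(3,0),(10,0),(3,0)]⟩⟩,⟨false,0,⟨1,[(8,0),(2,0),(2,0),
  (7,0),(1,0)]⟩,⟨0,[(23,0),(15,0)]⟩⟩,⟨true,0,⟨0,[]⟩,⟨0,[(42,0)]⟩⟩,⟨false,0,⟨0,[(8,0),(29,0)]⟩,⟨3,
  [(2,1),(4,0),(11,0),(0,0),(2,1),(15,0)]⟩⟩,⟨false,1,⟨2,[(0,1),(0,0),(19,0)]⟩,⟨0,[(38,0)]⟩⟩,⟨false,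
  0,⟨0,[(8,0)]⟩,⟨1,[(20,0),(2,1),(15,0)]⟩⟩,[.a ⟨true,0,⟨0,[(38,0)]⟩,⟨1,[(7,0),(14,0),(0,0)]⟩⟩
  ⟨false,1,⟨1,[(20,0),(18,0)]⟩,⟨1,[(4,0),(3,1),(3,0),(10,1),(3,0),(8,0)]⟩⟩ ⟨true,0,⟨1,[(8,0),(2,0),
  (2,0),(7,0),(1,0),(13,1)]⟩,⟨0,[(5,0),(1,0)]⟩⟩,.o ⟨false,1,⟨1,[(33,0),(4,1),(1,0)]⟩,⟨0,[(37,0)]⟩⟩,
  .o ⟨false,1,⟨3,[(2,1),(2,1),(4,0),(1,0),(6,0),(1,0)]⟩,⟨1,[(8,0),(2,0),(2,0),(7,0),(1,0)]⟩⟩,.e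
  ⟨false,1,⟨0,[(0,0)]⟩,⟨1,[(8,0),(0,0),(13,1)]⟩⟩ ⟨false,1,⟨1,[(22,1),(10,0),(4,1),(1,0)]⟩,⟨0,[(5,0),
  (1,0)]⟩⟩]⟩) (.R ⟨1,false,false,true,[1,0,0,-1],[0,-1,1],[1,0,0,0,0,0,0,0,-1],(⟨0,[(22,0)]⟩,⟨0,
  [(23,0)]⟩),(⟨0,[(16,0)]⟩,⟨1,[(6,0),(15,0),(0,0),(7,0)]⟩),⟨0,[(3,0)]⟩,.k,.k,(.x (-1) ⟨3,[(20,0),(0,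
  0),(11,1),(0,3)]⟩ ⟨0,[(35,0)]⟩),(.r (-1) ⟨7,[(12,3),(2,3),(4,4),(0,0),(5,3),(12,1)]⟩ ⟨1,[(0,1),(3,
  1),(34,0),(0,0)]⟩),.k,.k,⟨true,1,⟨0,[(11,0),(0,0),(14,0),(12,0)]⟩,⟨0,[(0,0),(3,0)]⟩⟩,⟨false,0,⟨0,
  [(22,0),(5,0)]⟩,⟨0,[(10,0),(12,0)]⟩⟩,⟨true,0,⟨0,[]⟩,⟨0,[(42,0)]⟩⟩,⟨true,(-1),⟨0,[(0,0),(13,0),(7,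
  0)]⟩,⟨0,[(2,0)]⟩⟩,⟨false,1,⟨5,[(1,1),(18,0),(0,0),(17,1),(0,1)]⟩,⟨0,[(38,0)]⟩⟩,⟨true,(-1),⟨0,[(0,
  0),(12,0),(8,0)]⟩,⟨0,[(2,0),(35,0)]⟩⟩,[.o ⟨false,0,⟨0,[(14,0),(27,0)]⟩,⟨0,[(2,0),(5,0)]⟩⟩,.o
  ⟨false,0,⟨0,[(14,0)]⟩,⟨1,[(17,1),(15,0),(6,0)]⟩⟩,.o ⟨false,1,⟨3,[(2,1),(2,1),(4,0),(1,0),(6,0),(1,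
  0)]⟩,⟨1,[(8,0),(2,0),(2,0),(7,0),(1,0)]⟩⟩,.a ⟨true,0,⟨0,[(23,0)]⟩,⟨0,[(22,0)]⟩⟩ ⟨true,1,⟨1,[(20,
  0),(18,0)]⟩,⟨0,[(0,0)]⟩⟩ ⟨false,0,⟨0,[(14,0),(7,0)]⟩,⟨0,[(0,0),(1,0),(37,0)]⟩⟩]⟩)) (.R ⟨1,true,
  false,false,[1,-1],[0,1],[1,0,1,1],(⟨0,[(33,0)]⟩,⟨0,[(34,0)]⟩),(⟨0,[(34,0)]⟩,⟨0,[(33,0)]⟩),⟨0,[(2,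
  1),(1,1),(1,0)]⟩,.k,.k,(.r (-1) ⟨5,[(0,3),(18,0),(0,0),(17,1),(0,1)]⟩ ⟨0,[(14,0),(14,0)]⟩),(.r
  (-1) ⟨5,[(0,3),(18,0),(0,0),(17,1),(0,1)]⟩ ⟨0,[(14,0),(14,0)]⟩),(.r (-1) ⟨1,[(0,1),(37,0),(0,0)]⟩
  ⟨1,[(14,2),(14,2)]⟩),.k,⟨true,0,⟨0,[]⟩,⟨1,[(27,0),(0,0)]⟩⟩,⟨false,1,⟨1,[(0,1),(5,2),(2,0),(1,0),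
  (27,0)]⟩,⟨0,[(24,0),(2,0)]⟩⟩,⟨false,0,⟨0,[(4,0),(1,0),(0,0),(2,0)]⟩,⟨5,[(0,3),(18,0),(0,0),(17,1),
  (0,1)]⟩⟩,⟨true,0,⟨0,[(6,0)]⟩,⟨1,[(0,0),(12,0),(9,0),(0,0),(2,0)]⟩⟩,⟨true,0,⟨1,[(6,1),(4,0),(0,0),
  (1,0),(9,1)]⟩,⟨0,[(0,0)]⟩⟩,⟨false,1,⟨7,[(6,11),(12,0),(0,0),(11,1),(6,3)]⟩,⟨0,[(0,0),(3,0),(2,0),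
  (2,0)]⟩⟩,[]⟩)))))) (.I [1,0,1,1,0,0,0,-1] (.R ⟨1,false,false,false,[0,0,1],[1,-1],[0,0,0,-1,0,0,0,
  1],(⟨0,[(27,0)]⟩,⟨0,[(26,0)]⟩),(⟨0,[(29,0)]⟩,⟨0,[(30,0)]⟩),⟨0,[(11,0)]⟩,.k,.k,.k,.k,.k,.k,⟨false,
  0,⟨0,[(25,0)]⟩,⟨1,[(7,1),(14,1),(11,0),(0,0)]⟩⟩,⟨true,0,⟨0,[(20,0)]⟩,⟨0,[(7,0),(9,0),(0,0)]⟩⟩,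
  ⟨true,0,⟨0,[(33,0)]⟩,⟨0,[(32,0)]⟩⟩,⟨false,1,⟨0,[(19,0),(13,0),(1,0)]⟩,⟨0,[(13,0)]⟩⟩,⟨false,1,⟨3,
  [(15,0),(0,0),(18,1)]⟩,⟨0,[]⟩⟩,⟨false,1,⟨0,[(19,0),(15,0)]⟩,⟨1,[(14,0),(2,0),(0,0)]⟩⟩,[.a ⟨true,0,
  ⟨0,[(33,0)]⟩,⟨1,[(2,0),(14,0),(0,0)]⟩⟩ ⟨true,0,⟨0,[(25,0),(7,0)]⟩,⟨0,[(0,0)]⟩⟩ ⟨false,1,⟨5,[(5,3),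
  (9,0),(0,0),(3,1),(12,5)]⟩,⟨1,[(2,0),(4,1),(9,0),(0,0)]⟩⟩,.o ⟨false,1,⟨1,[(28,0),(4,1),(1,0)]⟩,⟨0,
  [(32,0)]⟩⟩,.o ⟨false,0,⟨0,[(7,0)]⟩,⟨2,[(5,0),(9,0),(0,0),(3,1)]⟩⟩,.o ⟨false,0,⟨0,[(23,0)]⟩,⟨5,[(5,
  3),(9,0),(0,0),(3,1)]⟩⟩]⟩) (.Q [0,-1,0,-1,0,0,1,1,0,1,-1] (.p false [0,0,1] [1] (⟨0,[(27,0)]⟩,⟨0,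
  [(26,0)]⟩) .k 1 (⟨0,[]⟩,⟨0,[]⟩) .k .k) (.R ⟨1,false,false,true,[0,-1,1],[1,-1],[1,1],(⟨0,[(12,
  0)]⟩,⟨0,[(27,0),(3,0)]⟩),(⟨0,[(30,0)]⟩,⟨0,[(31,0)]⟩),⟨0,[(2,0)]⟩,.k,.k,(.r (-1) ⟨3,[(1,3),(14,0),
  (0,0),(16,3),(0,1)]⟩ ⟨1,[(2,0),(0,0),(0,1),(2,1),(0,1),(10,1),(0,1),(6,0),(3,1)]⟩),.k,.k,.k,⟨true,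
  0,⟨1,[(11,0),(14,0)]⟩,⟨0,[(34,0)]⟩⟩,⟨false,1,⟨5,[(6,3),(9,0),(0,0),(3,1)]⟩,⟨2,[(0,1),(2,0),(4,2),
  (14,1)]⟩⟩,⟨true,0,⟨1,[(8,0),(2,0),(11,0),(14,0)]⟩,⟨0,[(1,0)]⟩⟩,⟨true,0,⟨0,[(20,0)]⟩,⟨5,[(0,1),(2,
  0),(11,2),(7,1)]⟩⟩,⟨true,0,⟨1,[(8,0),(2,0),(1,0),(19,0)]⟩,⟨0,[(1,0),(32,0)]⟩⟩,⟨false,1,⟨1,[(13,1),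
  (15,0),(6,0)]⟩,⟨0,[(0,0)]⟩⟩,[.o ⟨false,0,⟨0,[(10,0),(9,0)]⟩,⟨7,[(3,3),(12,0),(0,0),(11,1),(6,
  3)]⟩⟩,.a ⟨true,0,⟨0,[(34,0)]⟩,⟨2,[(0,0),(2,1),(19,0)]⟩⟩ ⟨true,0,⟨0,[]⟩,⟨1,[(24,0),(0,0)]⟩⟩ ⟨false,
  1,⟨0,[(6,0),(27,0)]⟩,⟨2,[(0,0),(2,1),(19,0),(0,2)]⟩⟩,.o ⟨false,0,⟨0,[(24,0)]⟩,⟨5,[(6,3),(9,0),(0,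
  0),(3,1)]⟩⟩,.o ⟨false,0,⟨1,[(24,2),(0,0)]⟩,⟨0,[(6,0)]⟩⟩]⟩) (.I [0,-1,-1,-1,1,0,0,0,-1] (.Q [0,0,0,
  0,0,-1,0,0,0,1,-1] (.ed true [0,1,1] .k) (.Q [0,0,0,0,0,-1,0,0,0,1,0,-1] (.p false [0,0,0,1] [1]
  (⟨0,[(21,0)]⟩,⟨0,[(20,0)]⟩) .k 1 (⟨0,[]⟩,⟨0,[]⟩) .k .k) (.R ⟨1,false,false,true,[1,0,0,-1],[1,0,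
  -1],[0,0,0,-1,0,0,0,0,-1],(⟨0,[(21,0)]⟩,⟨0,[(22,0)]⟩),(⟨0,[(30,0)]⟩,⟨0,[(31,0)]⟩),⟨0,[(0,0)]⟩,.k,
  .k,(.x (-1) ⟨11,[(1,3),(3,3),(13,4),(0,4),(11,1)]⟩ ⟨0,[(34,0)]⟩),.k,(.r (-1) ⟨3,[(4,3),(14,2),(0,
  0)]⟩ ⟨0,[(7,0),(3,0),(4,0),(5,0)]⟩),.k,⟨false,1,⟨1,[(4,1),(14,0),(19,0)]⟩,⟨0,[(7,0),(3,0),(10,0),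
  (3,0),(8,0)]⟩⟩,⟨true,0,⟨0,[(21,0),(2,0)]⟩,⟨0,[(11,0),(10,0)]⟩⟩,⟨true,0,⟨0,[(37,0)]⟩,⟨0,[(36,0)]⟩⟩,
  ⟨false,0,⟨0,[(7,0),(18,0)]⟩,⟨3,[(2,1),(1,1),(1,0),(2,0),(0,1),(0,2),(0,1),(9,3),(16,0)]⟩⟩,⟨false,
  1,⟨3,[(19,0),(0,0),(18,1)]⟩,⟨0,[]⟩⟩,⟨false,0,⟨0,[(7,0),(8,0)]⟩,⟨0,[(2,0),(9,0),(9,0)]⟩⟩,[.o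
  ⟨false,0,⟨0,[(23,0)]⟩,⟨7,[(18,3),(0,0),(0,0),(11,1),(6,3)]⟩⟩,.o ⟨false,1,⟨1,[(26,1),(5,0),(6,0)]⟩,
  ⟨0,[(12,0)]⟩⟩,.o ⟨false,1,⟨1,[(22,1),(9,0),(5,0)]⟩,⟨1,[(7,0),(2,0),(2,0),(7,0),(1,0)]⟩⟩,.a ⟨true,
  0,⟨0,[(22,0)]⟩,⟨0,[(21,0)]⟩⟩ ⟨false,1,⟨0,[(2,0)]⟩,⟨0,[(7,0),(14,0),(13,0)]⟩⟩ ⟨true,0,⟨0,[(21,0),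
  (1,0)]⟩,⟨0,[(12,0),(9,0)]⟩⟩]⟩) (.R ⟨0,false,false,true,[1,0,0,-1],[1,0,-1],[0,0,0,-1,0,0,0,0,-1],
  (⟨0,[(21,0)]⟩,⟨0,[(22,0)]⟩),(⟨0,[(30,0)]⟩,⟨0,[(31,0)]⟩),⟨0,[(0,0)]⟩,.k,.k,(.x (-1) ⟨11,[(1,3),(3,
  3),(13,4),(0,4),(11,1)]⟩ ⟨0,[(34,0)]⟩),.k,.k,.k,⟨false,1,⟨1,[(4,1),(14,0),(19,0)]⟩,⟨0,[(7,0),(3,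
  0),(10,0),(3,0),(8,0)]⟩⟩,⟨true,0,⟨0,[(21,0),(2,0)]⟩,⟨0,[(11,0),(10,0)]⟩⟩,⟨true,0,⟨0,[(37,0)]⟩,⟨0,
  [(36,0)]⟩⟩,⟨false,0,⟨0,[(7,0),(18,0)]⟩,⟨3,[(0,2),(0,0),(0,3),(2,0),(0,1),(5,3),(9,0)]⟩⟩,⟨false,0,
  ⟨0,[]⟩,⟨0,[]⟩⟩,⟨false,0,⟨0,[]⟩,⟨0,[]⟩⟩,[.o ⟨false,0,⟨0,[(23,0)]⟩,⟨7,[(18,3),(0,0),(0,0),(11,1),(6,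
  3)]⟩⟩,.o ⟨false,1,⟨1,[(26,1),(5,0),(6,0)]⟩,⟨0,[(12,0)]⟩⟩,.o ⟨false,1,⟨1,[(22,1),(9,0),(5,0)]⟩,⟨1,
  [(7,0),(2,0),(2,0),(7,0),(1,0)]⟩⟩,.a ⟨true,0,⟨0,[(22,0)]⟩,⟨0,[(21,0)]⟩⟩ ⟨false,1,⟨0,[(2,0)]⟩,⟨0,
  [(7,0),(14,0),(13,0)]⟩⟩ ⟨true,0,⟨0,[(21,0),(1,0)]⟩,⟨0,[(12,0),(9,0)]⟩⟩]⟩)) (.R ⟨0,false,false,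
  false,[1,0,-1],[0,1],[0,1],(⟨0,[(29,0)]⟩,⟨0,[(30,0)]⟩),(⟨0,[(33,0)]⟩,⟨0,[(32,0)]⟩),⟨0,[(0,0)]⟩,.k,
  .k,.k,.k,.k,.k,⟨true,0,⟨0,[(3,0),(6,0),(14,0)]⟩,⟨0,[(6,0),(2,0),(11,0)]⟩⟩,⟨false,1,⟨0,[(10,0),(9,
  0),(0,0),(15,0)]⟩,⟨0,[(23,0)]⟩⟩,⟨false,0,⟨0,[(28,0)]⟩,⟨0,[(10,0),(14,0),(12,0)]⟩⟩,⟨true,0,⟨0,[(16,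
  0)]⟩,⟨0,[(22,0),(13,0)]⟩⟩,⟨false,0,⟨0,[]⟩,⟨0,[]⟩⟩,⟨false,0,⟨0,[]⟩,⟨0,[]⟩⟩,[.a ⟨true,0,⟨1,[(5,0),
  (14,0),(0,0)]⟩,⟨0,[(36,0)]⟩⟩ ⟨false,0,⟨1,[(3,0),(6,0),(14,0),(8,0)]⟩,⟨3,[(18,0),(0,0),(18,1)]⟩⟩
  ⟨true,0,⟨1,[(5,0),(4,1),(9,0),(0,0)]⟩,⟨0,[(23,0),(12,0)]⟩⟩,.o ⟨false,1,⟨7,[(5,3),(12,0),(0,0),(11,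
  1),(6,3)]⟩,⟨0,[(12,0),(9,0)]⟩⟩,.o ⟨false,1,⟨2,[(8,0),(9,0),(0,0),(3,1)]⟩,⟨0,[(10,0)]⟩⟩,.o ⟨false,
  0,⟨0,[(23,0)]⟩,⟨3,[(10,3),(7,0),(0,0),(17,1)]⟩⟩]⟩)) (.Q [0,1,1,0,-1,0,0,0,1,0,0,-1] (.p false [0,
  0,0,1] [] (⟨0,[(20,0)]⟩,⟨0,[(19,0)]⟩) .k 0 (⟨0,[]⟩,⟨0,[]⟩) .k .k) (.K ⟨0,[0,0,0,1],0,(-1),(⟨0,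
  [(21,0)]⟩,⟨0,[(20,0)]⟩),.k,(.r (-1) ⟨1,[(19,0),(16,1),(0,0)]⟩ ⟨0,[(9,0)]⟩),(.x 0 ⟨0,[(33,0)]⟩ ⟨7,
  [(4,3),(13,2),(0,2),(9,3),(1,1)]⟩),.k,.k,[⟨0,[(21,0)]⟩,⟨0,[(20,0)]⟩,⟨1,[(18,0),(2,1),(15,0),(2,
  1)]⟩,⟨0,[(0,0)]⟩]⟩) (.Q [0,1,1,2,-1,0,0,0,1,1,0,-1] (.p false [0,0,0,1] [1] (⟨0,[(21,0)]⟩,⟨0,[(20,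
  0)]⟩) .k 1 (⟨0,[]⟩,⟨0,[]⟩) .k .k) (.R ⟨1,false,false,true,[1,-1],[0,0,0,1],[0,1,-1,-2],(⟨0,[(33,
  0)]⟩,⟨0,[(34,0)]⟩),(⟨0,[(22,0)]⟩,⟨0,[(21,0)]⟩),⟨0,[(5,0),(24,0)]⟩,.k,.k,(.r (-1) ⟨0,[(37,1),(0,
  0)]⟩ ⟨0,[(14,0),(14,0)]⟩),(.x (-1) ⟨7,[(5,3),(13,2),(0,2),(9,3),(1,1)]⟩ ⟨0,[(34,0)]⟩),(.r (-1) ⟨0,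
  [(1,0),(2,0),(6,0),(9,0),(1,0),(13,0)]⟩ ⟨3,[(2,1),(11,2),(5,0),(8,2),(9,0)]⟩),.k,⟨false,1,⟨0,[(1,
  0),(2,0),(6,0),(9,0),(1,0),(13,0)]⟩,⟨7,[(2,5),(3,3),(7,0),(5,0),(8,0),(2,1),(6,2)]⟩⟩,⟨true,0,⟨0,
  [(21,0)]⟩,⟨0,[(11,0),(10,0),(1,0)]⟩⟩,⟨false,0,⟨0,[(37,0)]⟩,⟨7,[(6,3),(12,0),(0,0),(11,1),(6,3)]⟩⟩,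
  ⟨true,(-1),⟨0,[(2,0),(18,0)]⟩,⟨0,[(1,0),(11,0),(9,0)]⟩⟩,⟨true,0,⟨0,[(41,0)]⟩,⟨0,[]⟩⟩,⟨true,(-1),
  ⟨0,[(0,0)]⟩,⟨0,[(1,0),(11,0),(9,0),(13,0)]⟩⟩,[.a ⟨true,(-1),⟨0,[(2,0),(18,0),(15,0)]⟩,⟨0,[(1,
  0)]⟩⟩ ⟨true,0,⟨0,[(4,0),(6,0),(14,0),(10,0)]⟩,⟨0,[(2,0),(7,0),(28,0)]⟩⟩ ⟨false,0,⟨0,[(2,0),(18,0),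
  (15,0),(0,0)]⟩,⟨0,[(1,0),(9,0),(12,0)]⟩⟩,.o ⟨false,0,⟨1,[(7,0),(0,0)]⟩,⟨3,[(1,1),(1,1),(0,1),(6,
  1),(7,0),(2,1),(9,0)]⟩⟩,.o ⟨false,0,⟨0,[(11,0),(12,0)]⟩,⟨3,[(19,0),(0,0),(17,1)]⟩⟩,.o ⟨false,0,⟨0,
  [(24,0),(2,0)]⟩,⟨0,[(38,0)]⟩⟩]⟩) (.R ⟨1,true,false,true,[1,-1],[0,0,0,1],[0,1,-1,-2],(⟨0,[(33,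
  0)]⟩,⟨0,[(34,0)]⟩),(⟨0,[(22,0)]⟩,⟨0,[(21,0)]⟩),⟨0,[(5,0),(24,0)]⟩,.k,.k,(.r (-1) ⟨0,[(37,1),(0,
  0)]⟩ ⟨0,[(14,0),(14,0)]⟩),(.x (-1) ⟨7,[(5,3),(13,2),(0,2),(9,3),(1,1)]⟩ ⟨0,[(34,0)]⟩),(.r (-1) ⟨1,
  [(0,1),(3,0),(6,0),(9,1),(4,0),(8,0)]⟩ ⟨3,[(2,1),(11,2),(5,0),(8,2),(9,0)]⟩),.k,⟨false,1,⟨1,[(0,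
  1),(3,0),(6,0),(9,1),(4,0),(8,0)]⟩,⟨7,[(2,5),(3,3),(7,0),(5,0),(8,0),(2,1),(6,2)]⟩⟩,⟨true,0,⟨0,
  [(21,0)]⟩,⟨2,[(0,1),(1,1),(9,0),(1,0),(7,0),(1,0)]⟩⟩,⟨false,0,⟨0,[(37,0)]⟩,⟨7,[(6,3),(12,0),(0,0),
  (11,1),(6,3)]⟩⟩,⟨true,(-1),⟨0,[(2,0),(18,0)]⟩,⟨0,[(0,0),(35,0)]⟩⟩,⟨true,0,⟨0,[(41,0)]⟩,⟨0,[]⟩⟩,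
  ⟨false,0,⟨1,[(6,1),(0,0),(0,0)]⟩,⟨0,[(0,0)]⟩⟩,[]⟩))))))) (.Q [0,0,0,1,0,0,0,0,0,1] (.pp false [-1,
  1]) (.R ⟨2,true,false,true,[0,1],[1,-1],[0,0,1],(⟨0,[]⟩,⟨0,[]⟩),(⟨0,[(28,0)]⟩,⟨0,[(29,0)]⟩),⟨0,
  []⟩,.k,.k,.k,(.r 0 ⟨0,[(9,0),(14,0)]⟩ ⟨0,[(32,1),(0,0)]⟩),.k,.k,⟨true,0,⟨0,[(2,0),(2,0),(11,0)]⟩,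
  ⟨0,[(30,0),(1,1)]⟩⟩,⟨false,0,⟨0,[(6,0),(12,0)]⟩,⟨0,[(16,0),(0,0),(15,0)]⟩⟩,⟨true,0,⟨0,[(32,0)]⟩,
  ⟨0,[(31,0)]⟩⟩,⟨false,0,⟨0,[(1,0)]⟩,⟨11,[(0,11),(3,3),(4,3),(2,3),(1,0),(0,0),(18,5)]⟩⟩,⟨false,1,
  ⟨3,[(14,0),(0,0),(18,1)]⟩,⟨0,[]⟩⟩,⟨true,0,⟨1,[(1,0),(16,0),(1,0)]⟩,⟨0,[(0,0)]⟩⟩,[]⟩) (.Q [0,0,0,0,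
  0,-1,0,0,0,1,0,-1] (.p false [0,0,0,1] [1] (⟨0,[(17,0)]⟩,⟨0,[(16,0)]⟩) .k 1 (⟨0,[]⟩,⟨0,[]⟩) .k
  .k) (.I [0,-1,-1,-1,1,0,0,0,-1] (.R ⟨1,false,false,false,[1,0,0,-1],[1,-1],[0,0,0,-1,0,0,0,0,-1],
  (⟨0,[(18,0)]⟩,⟨0,[(19,0)]⟩),(⟨0,[(30,0)]⟩,⟨0,[(31,0)]⟩),⟨0,[(1,0)]⟩,.k,.k,(.x (-1) ⟨3,[(16,0),(0,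
  0),(11,1),(0,3)]⟩ ⟨0,[(31,0)]⟩),(.r 0 ⟨0,[(7,0)]⟩ ⟨1,[(17,0),(16,1),(0,0)]⟩),.k,.k,⟨true,0,⟨0,[(7,
  0),(26,0)]⟩,⟨0,[(4,0),(14,0),(12,0),(1,0)]⟩⟩,⟨false,0,⟨3,[(2,1),(1,0),(0,0),(1,1),(10,1)]⟩,⟨0,
  [(19,0),(15,0)]⟩⟩,⟨true,0,⟨0,[(34,0)]⟩,⟨0,[(33,0)]⟩⟩,⟨false,0,⟨0,[(4,0),(29,0)]⟩,⟨1,[(16,0),(2,1),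
  (12,1),(3,0)]⟩⟩,⟨false,1,⟨3,[(16,0),(0,0),(18,1)]⟩,⟨0,[]⟩⟩,⟨false,0,⟨0,[(4,0)]⟩,⟨1,[(16,0),(2,1),
  (15,0)]⟩⟩,[.o ⟨false,0,⟨0,[(2,0)]⟩,⟨2,[(6,0),(4,0),(2,0),(1,0),(0,0)]⟩⟩,.o ⟨false,1,⟨7,[(3,3),(12,
  0),(0,0),(11,1),(6,3)]⟩,⟨0,[(33,0)]⟩⟩,.o ⟨false,1,⟨1,[(19,1),(9,0),(5,0)]⟩,⟨3,[(2,1),(1,0),(0,0),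
  (1,1),(10,1)]⟩⟩,.a ⟨true,0,⟨0,[(19,0)]⟩,⟨0,[(18,0)]⟩⟩ ⟨false,1,⟨0,[(0,0)]⟩,⟨0,[(4,0),(14,0),(13,
  0)]⟩⟩ ⟨true,0,⟨0,[(2,0),(15,0)]⟩,⟨0,[(19,0),(13,0)]⟩⟩]⟩) (.K ⟨0,[0,0,0,1],0,(-1),(⟨0,[(19,0)]⟩,⟨0,
  [(18,0)]⟩),.k,(.r (-1) ⟨1,[(17,0),(16,1),(0,0)]⟩ ⟨0,[(7,0)]⟩),(.x 0 ⟨0,[(31,0)]⟩ ⟨3,[(16,0),(0,0),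
  (11,1),(0,3)]⟩),.k,.k,[⟨0,[(19,0)]⟩,⟨0,[(18,0)]⟩,⟨1,[(16,0),(2,1),(15,0),(2,1)]⟩,⟨0,[(0,0),(1,0),
  (15,0)]⟩]⟩)) (.R ⟨0,false,false,false,[1,0,0,-1],[1,-1],[1],(⟨0,[(17,0)]⟩,⟨0,[(18,0)]⟩),(⟨0,[(29,
  0)]⟩,⟨0,[(30,0)]⟩),⟨0,[(0,0)]⟩,.k,.k,(.x (-1) ⟨3,[(15,0),(0,0),(11,1),(0,3)]⟩ ⟨0,[(30,0)]⟩),(.r 0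
  ⟨0,[(6,0)]⟩ ⟨1,[(16,0),(16,1),(0,0)]⟩),.k,.k,⟨true,0,⟨1,[(10,0),(14,0)]⟩,⟨0,[(33,0)]⟩⟩,⟨false,0,
  ⟨3,[(1,1),(1,0),(0,0),(1,1),(10,1)]⟩,⟨0,[(18,0),(15,0)]⟩⟩,⟨true,0,⟨0,[(3,0),(14,0),(12,0),(1,0)]⟩,
  ⟨0,[(6,0),(24,0),(1,1)]⟩⟩,⟨false,0,⟨0,[(3,0),(29,0)]⟩,⟨1,[(15,0),(2,1),(12,1),(3,0)]⟩⟩,⟨false,0,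
  ⟨0,[]⟩,⟨0,[]⟩⟩,⟨false,0,⟨0,[]⟩,⟨0,[]⟩⟩,[.o ⟨false,0,⟨0,[(1,0)]⟩,⟨2,[(5,0),(4,0),(2,0),(1,0),(0,
  0)]⟩⟩,.o ⟨false,1,⟨7,[(2,3),(12,0),(0,0),(11,1),(6,3)]⟩,⟨0,[(32,0)]⟩⟩,.o ⟨false,1,⟨1,[(18,1),(9,
  0),(5,0)]⟩,⟨3,[(1,1),(1,0),(0,0),(1,1),(10,1)]⟩⟩,.a ⟨true,0,⟨0,[(18,0)]⟩,⟨0,[(17,0)]⟩⟩ ⟨false,1,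
  ⟨1,[(34,0),(0,0)]⟩,⟨1,[(23,0),(0,0)]⟩⟩ ⟨true,0,⟨0,[(1,0),(15,0)]⟩,⟨0,[(18,0),(13,0)]⟩⟩]⟩))))) (.Q
  [0,0,0,0,0,1,0,0,0,-1,0,1] (.p true [0,0,0,1] [1] (⟨0,[(14,0)]⟩,⟨0,[(13,0)]⟩) .k 1 (⟨0,[]⟩,⟨0,
  []⟩) .k .k) (.R ⟨0,false,false,true,[1,0,0,-1],[1,0,-1],[0,1,0,0,0,0,0,0,-1],(⟨0,[(14,0)]⟩,⟨0,
  [(15,0)]⟩),(⟨0,[(23,0)]⟩,⟨0,[(24,0)]⟩),⟨0,[(0,0)]⟩,.k,.k,(.x (-1) ⟨3,[(12,0),(0,0),(11,1),(0,3)]⟩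
  ⟨0,[(27,0)]⟩),.k,.k,.k,⟨false,0,⟨0,[(1,0),(3,0),(8,0),(1,0),(5,0)]⟩,⟨1,[(4,1),(8,0),(5,1),(12,
  0)]⟩⟩,⟨true,0,⟨0,[(14,0),(2,0)]⟩,⟨0,[(4,0),(10,0)]⟩⟩,⟨true,0,⟨0,[(34,0)]⟩,⟨0,[]⟩⟩,⟨false,1,⟨1,
  [(13,0),(0,1),(1,0),(0,0),(1,0),(0,0),(11,0)]⟩,⟨0,[(1,0),(3,0)]⟩⟩,⟨false,0,⟨0,[]⟩,⟨0,[]⟩⟩,⟨false,
  0,⟨0,[]⟩,⟨0,[]⟩⟩,[.o ⟨false,0,⟨0,[(16,0)]⟩,⟨7,[(11,3),(0,0),(0,0),(11,1),(6,3)]⟩⟩,.o ⟨false,1,⟨1,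
  [(19,1),(5,0),(6,0)]⟩,⟨0,[(5,0)]⟩⟩,.o ⟨false,1,⟨1,[(15,1),(9,0),(5,0)]⟩,⟨0,[(4,0),(9,0),(2,0)]⟩⟩,
  .a ⟨true,0,⟨0,[(15,0)]⟩,⟨0,[(14,0)]⟩⟩ ⟨false,0,⟨0,[(1,0),(3,0),(8,0),(1,0)]⟩,⟨1,[(13,0),(6,0),(0,
  0),(10,0)]⟩⟩ ⟨true,0,⟨0,[(14,0),(1,0)]⟩,⟨0,[(5,0),(9,0)]⟩⟩]⟩) (.R ⟨1,false,false,true,[1,0,0,-1],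
  [1,0,-1],[0,1,0,-1,0,0,0,0,-1],(⟨0,[(14,0)]⟩,⟨0,[(15,0)]⟩),(⟨0,[(23,0)]⟩,⟨0,[(24,0)]⟩),⟨0,[(0,
  0)]⟩,.k,.k,(.x (-1) ⟨3,[(12,0),(0,0),(11,1),(0,3)]⟩ ⟨0,[(27,0)]⟩),.k,(.r 0 ⟨0,[(1,0),(4,0),(7,0),
  (1,0),(5,0)]⟩ ⟨7,[(4,3),(2,3),(4,0),(0,4),(5,3),(12,1)]⟩),.k,⟨false,0,⟨0,[(1,0),(4,0),(7,0),(1,0),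
  (5,0)]⟩,⟨1,[(4,1),(4,1),(3,0),(18,0)]⟩⟩,⟨true,0,⟨0,[(14,0),(2,0)]⟩,⟨0,[(4,0),(10,0)]⟩⟩,⟨false,0,
  ⟨0,[(30,0)]⟩,⟨11,[(2,3),(4,3),(2,3),(1,0),(0,0),(18,5)]⟩⟩,⟨false,1,⟨1,[(13,0),(0,1),(1,0),(0,0),
  (1,0),(0,0),(11,0)]⟩,⟨0,[(1,0),(3,0)]⟩⟩,⟨true,0,⟨0,[(34,0)]⟩,⟨0,[]⟩⟩,⟨false,1,⟨5,[(7,1),(1,1),(3,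
  2),(0,5),(1,1),(0,1),(7,0),(6,1)]⟩,⟨0,[(1,0),(4,0)]⟩⟩,[.o ⟨false,0,⟨0,[(16,0)]⟩,⟨7,[(11,3),(0,0),
  (0,0),(11,1),(6,3)]⟩⟩,.o ⟨false,1,⟨1,[(19,1),(5,0),(6,0)]⟩,⟨0,[(5,0)]⟩⟩,.o ⟨false,1,⟨1,[(15,1),(9,
  0),(5,0)]⟩,⟨0,[(4,0),(9,0),(2,0)]⟩⟩,.a ⟨true,0,⟨0,[(15,0)]⟩,⟨0,[(14,0)]⟩⟩ ⟨false,0,⟨0,[(1,0),(4,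
  0),(7,0),(1,0)]⟩,⟨1,[(7,0),(5,0),(8,0),(9,0)]⟩⟩ ⟨true,0,⟨0,[(14,0),(1,0)]⟩,⟨0,[(5,0),(9,
  0)]⟩⟩]⟩))) (.Q [0,0,0,1,0,0,0,0,0,1] (.pp false [-1,1]) (.R ⟨1,false,false,false,[0,0,1],[1,-1],
  [0,0,0,-1,0,0,0,1],(⟨0,[(23,0)]⟩,⟨0,[(22,0)]⟩),(⟨0,[(25,0)]⟩,⟨0,[(26,0)]⟩),⟨0,[(7,0)]⟩,.k,.k,.k,
  .k,.k,.k,⟨false,0,⟨0,[(21,0)]⟩,⟨1,[(3,1),(14,1),(11,0),(0,0)]⟩⟩,⟨true,0,⟨0,[(16,0)]⟩,⟨0,[(1,0),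
  (28,0)]⟩⟩,⟨true,0,⟨0,[(29,0)]⟩,⟨0,[(28,0)]⟩⟩,⟨false,1,⟨0,[(15,0),(13,0),(1,0)]⟩,⟨0,[(9,0)]⟩⟩,
  ⟨false,1,⟨3,[(11,0),(0,0),(18,1)]⟩,⟨0,[]⟩⟩,⟨false,1,⟨0,[(15,0),(15,0)]⟩,⟨1,[(10,0),(2,0),(0,0)]⟩⟩,
  [.a ⟨true,0,⟨0,[(29,0)]⟩,⟨0,[(0,0)]⟩⟩ ⟨true,0,⟨0,[(21,0),(7,0)]⟩,⟨0,[(1,0),(13,0),(11,0),(3,0)]⟩⟩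
  ⟨false,1,⟨0,[(16,0),(12,0),(0,0)]⟩,⟨0,[(0,0),(2,0)]⟩⟩,.o ⟨false,1,⟨1,[(24,0),(4,1),(1,0)]⟩,⟨0,
  [(28,0)]⟩⟩,.o ⟨false,0,⟨0,[(3,0)]⟩,⟨3,[(11,0),(0,0),(3,3),(13,1)]⟩⟩,.o ⟨false,0,⟨0,[(19,0)]⟩,⟨0,
  [(16,0),(13,0)]⟩⟩]⟩) (.Q [0,1,-1,0,0,0,0,0,-1,0,0,1] (.p true [0,0,0,1] [] (⟨0,[(14,0)]⟩,⟨0,[(13,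
  0)]⟩) .k 0 (⟨0,[]⟩,⟨0,[]⟩) .k .k) (.K ⟨0,[0,0,0,1],0,0,(⟨0,[(15,0)]⟩,⟨0,[(14,0)]⟩),.k,(.r (-1) ⟨1,
  [(13,0),(16,1),(0,0)]⟩ ⟨0,[(3,0)]⟩),(.x 0 ⟨0,[(27,0)]⟩ ⟨3,[(12,0),(0,0),(11,1),(0,3)]⟩),.k,.k,[⟨0,
  [(15,0)]⟩,⟨0,[(14,0)]⟩,⟨0,[(0,0)]⟩,⟨13,[(1,9),(0,7),(10,6),(0,13),(1,1),(0,7),(0,1),(6,0),(2,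
  9)]⟩]⟩) (.Q [0,1,1,0,-1,0,0,0,1,0,0,-1] (.p false [0,0,0,1] [] (⟨0,[(15,0)]⟩,⟨0,[(14,0)]⟩) .k 0
  (⟨0,[]⟩,⟨0,[]⟩) .k .k) (.K ⟨0,[0,0,0,1],0,(-1),(⟨0,[(16,0)]⟩,⟨0,[(15,0)]⟩),.k,(.r (-1) ⟨1,[(14,0),
  (16,1),(0,0)]⟩ ⟨0,[(4,0)]⟩),(.x 0 ⟨0,[(28,0)]⟩ ⟨3,[(13,0),(0,0),(11,1),(0,3)]⟩),.k,.k,[⟨0,[(16,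
  0)]⟩,⟨0,[(15,0)]⟩,⟨1,[(13,0),(2,1),(15,0),(2,1)]⟩,⟨0,[(0,0)]⟩]⟩) (.Q [0,0,0,0,0,-1,0,0,0,1,0,-1]
  (.p false [0,0,0,1] [1] (⟨0,[(16,0)]⟩,⟨0,[(15,0)]⟩) .k 1 (⟨0,[]⟩,⟨0,[]⟩) .k .k) (.R ⟨1,false,
  false,false,[1,0,0,-1],[1,-1],[0,0,0,-1,0,0,0,0,-1],(⟨0,[(16,0)]⟩,⟨0,[(17,0)]⟩),(⟨0,[(28,0)]⟩,⟨0,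
  [(29,0)]⟩),⟨0,[(0,0)]⟩,.k,.k,(.x (-1) ⟨3,[(14,0),(0,0),(11,1),(0,3)]⟩ ⟨0,[(29,0)]⟩),(.r 0 ⟨0,[(5,
  0)]⟩ ⟨1,[(15,0),(16,1),(0,0)]⟩),.k,.k,⟨true,0,⟨0,[(5,0),(26,0)]⟩,⟨0,[(2,0),(14,0),(12,0),(1,0)]⟩⟩,
  ⟨false,0,⟨6,[(2,1),(0,1),(0,0),(0,1),(10,4),(1,0),(0,0),(0,0),(6,0)]⟩,⟨0,[(17,0),(15,0)]⟩⟩,⟨true,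
  0,⟨0,[(32,0)]⟩,⟨0,[(31,0)]⟩⟩,⟨false,0,⟨0,[(2,0),(29,0)]⟩,⟨0,[(1,0),(29,0)]⟩⟩,⟨false,1,⟨3,[(14,0),
  (0,0),(18,1)]⟩,⟨0,[]⟩⟩,⟨false,0,⟨0,[(2,0)]⟩,⟨0,[(1,0),(34,0)]⟩⟩,[.o ⟨false,0,⟨0,[(3,0)]⟩,⟨3,[(14,
  0),(0,0),(15,3),(2,1)]⟩⟩,.o ⟨false,1,⟨1,[(27,0),(4,1),(1,0)]⟩,⟨0,[(31,0)]⟩⟩,.o ⟨false,1,⟨1,[(17,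
  1),(9,0),(5,0)]⟩,⟨6,[(2,1),(0,1),(0,0),(0,1),(10,4),(1,0),(0,0),(0,0),(6,0)]⟩⟩,.a ⟨true,0,⟨0,[(17,
  0)]⟩,⟨0,[(16,0)]⟩⟩ ⟨false,1,⟨0,[(1,0),(1,0),(12,0)]⟩,⟨4,[(2,2),(1,0),(4,0),(5,0),(1,2),(1,0),(4,
  0),(5,2)]⟩⟩ ⟨true,0,⟨0,[(3,0),(12,0)]⟩,⟨0,[(17,0),(13,0)]⟩⟩]⟩) (.R ⟨0,false,false,true,[1,0,0,-1],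
  [0,1],[0,1,0,0,0,0,0,0,-1],(⟨0,[(16,0)]⟩,⟨0,[(17,0)]⟩),(⟨0,[(29,0)]⟩,⟨0,[(28,0)]⟩),⟨0,[(0,0)]⟩,.k,
  .k,(.x (-1) ⟨3,[(14,0),(0,0),(11,1),(0,3)]⟩ ⟨0,[(29,0)]⟩),(.x (-1) ⟨3,[(14,0),(0,0),(11,1),(0,
  3)]⟩ ⟨0,[(29,0)]⟩),.k,.k,⟨false,1,⟨0,[(1,0),(1,0),(12,0),(13,0),(1,0)]⟩,⟨4,[(2,2),(1,0),(4,0),(5,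
  0),(1,2),(1,0),(4,0),(5,2)]⟩⟩,⟨true,0,⟨0,[(16,0)]⟩,⟨2,[(3,1),(3,0),(1,0),(7,2),(1,0)]⟩⟩,⟨true,0,
  ⟨0,[(36,0)]⟩,⟨0,[]⟩⟩,⟨false,0,⟨4,[(2,2),(1,0),(6,2),(0,1),(2,0),(0,1),(7,0)]⟩,⟨0,[(1,0),(1,0)]⟩⟩,
  ⟨false,0,⟨0,[]⟩,⟨0,[]⟩⟩,⟨false,0,⟨0,[]⟩,⟨0,[]⟩⟩,[.o ⟨false,0,⟨0,[(31,0)]⟩,⟨1,[(27,0),(4,1),(1,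
  0)]⟩⟩,.o ⟨false,1,⟨3,[(14,0),(0,0),(15,3),(2,1)]⟩,⟨0,[(3,0)]⟩⟩,.o ⟨false,1,⟨1,[(17,1),(9,0),(5,
  0)]⟩,⟨6,[(2,1),(0,1),(0,0),(0,1),(10,4),(1,0),(0,0),(0,0),(6,0)]⟩⟩,.a ⟨true,0,⟨0,[(17,0)]⟩,⟨0,
  [(16,0)]⟩⟩ ⟨false,1,⟨1,[(14,0),(18,0)]⟩,⟨0,[(2,0),(14,0)]⟩⟩ ⟨true,0,⟨0,[(16,0),(14,0)]⟩,⟨0,[(3,0),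
  (13,0)]⟩⟩]⟩)))))) (.Q [0,1,1,0,-1,0,0,0,1,0,0,-1] (.p false [0,0,0,1] [] (⟨0,[(12,0)]⟩,⟨0,[(11,
  0)]⟩) .k 0 (⟨0,[]⟩,⟨0,[]⟩) .k .k) (.K ⟨0,[0,0,0,1],0,(-1),(⟨0,[(13,0)]⟩,⟨0,[(12,0)]⟩),.k,(.x 0 ⟨0,
  [(15,0),(2,0),(5,0)]⟩ ⟨0,[(25,0),(3,0)]⟩),(.x 0 ⟨0,[(25,0)]⟩ ⟨3,[(10,0),(0,0),(11,1),(0,3)]⟩),.k,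
  .k,[⟨0,[(13,0)]⟩,⟨0,[(12,0)]⟩,⟨1,[(10,0),(2,1),(15,0),(2,1)]⟩,⟨0,[(0,0)]⟩]⟩) (.Q [0,1,-1,0,0,0,0,
  0,-1,0,0,1] (.p true [0,0,0,1] [] (⟨0,[(13,0)]⟩,⟨0,[(12,0)]⟩) .k 0 (⟨0,[]⟩,⟨0,[]⟩) .k .k) (.K ⟨0,
  [0,0,0,1],0,0,(⟨0,[(14,0)]⟩,⟨0,[(13,0)]⟩),.k,(.x 0 ⟨0,[(16,0),(2,0),(5,0)]⟩ ⟨0,[(26,0),(3,0)]⟩),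
  (.x 0 ⟨0,[(26,0)]⟩ ⟨3,[(11,0),(0,0),(11,1),(0,3)]⟩),.k,.k,[⟨0,[(14,0)]⟩,⟨0,[(13,0)]⟩,⟨0,[(0,0)]⟩,
  ⟨3,[(2,3),(3,1),(6,3),(1,0),(0,2),(0,2),(1,0)]⟩]⟩) (.Q [0,0,0,0,0,-1,0,0,0,1,0,-1] (.p false [0,0,
  0,1] [1] (⟨0,[(14,0)]⟩,⟨0,[(13,0)]⟩) .k 1 (⟨0,[]⟩,⟨0,[]⟩) .k .k) (.I [0,-1,-1,-1,1,0,0,0,-1] (.R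
  ⟨1,false,false,true,[1,0,0,-1],[1,0,-1],[0,0,0,-1,0,0,0,0,-1],(⟨0,[(15,0)]⟩,⟨0,[(16,0)]⟩),(⟨0,
  [(24,0)]⟩,⟨0,[(25,0)]⟩),⟨0,[(1,0)]⟩,.k,.k,(.x (-1) ⟨3,[(13,0),(0,0),(11,1),(0,3)]⟩ ⟨0,[(28,0)]⟩),
  .k,(.r (-1) ⟨0,[(0,0),(22,0),(11,0)]⟩ ⟨0,[(2,0),(2,0),(4,0),(5,0)]⟩),.k,⟨false,1,⟨0,[(0,0),(22,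
  0)]⟩,⟨1,[(4,1),(0,0),(2,0),(1,0),(19,0)]⟩⟩,⟨true,0,⟨0,[(15,0),(2,0)]⟩,⟨0,[(5,0),(10,0)]⟩⟩,⟨true,0,
  ⟨0,[(31,0)]⟩,⟨0,[(30,0)]⟩⟩,⟨false,0,⟨0,[(2,0),(17,0)]⟩,⟨0,[(3,0),(2,0)]⟩⟩,⟨false,1,⟨3,[(13,0),(0,
  0),(18,1)]⟩,⟨0,[]⟩⟩,⟨false,0,⟨0,[(2,0),(7,0)]⟩,⟨0,[(3,0),(3,0)]⟩⟩,[.o ⟨false,0,⟨0,[(17,0)]⟩,⟨7,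
  [(12,3),(0,0),(0,0),(11,1),(6,3)]⟩⟩,.o ⟨false,1,⟨1,[(20,1),(5,0),(6,0)]⟩,⟨0,[(6,0)]⟩⟩,.o ⟨false,1,
  ⟨1,[(16,1),(9,0),(5,0)]⟩,⟨0,[(5,0),(9,0),(2,0)]⟩⟩,.a ⟨true,0,⟨0,[(16,0)]⟩,⟨0,[(15,0)]⟩⟩ ⟨false,1,
  ⟨0,[(0,0)]⟩,⟨0,[(4,0),(3,0),(14,0)]⟩⟩ ⟨true,0,⟨0,[(15,0),(1,0)]⟩,⟨0,[(6,0),(9,0)]⟩⟩]⟩) (.I [0,0,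
  -1,-1,1,0,0,-2] (.I [1,0,0,1,0,0,0,-1,1] (.R ⟨1,false,false,true,[1,0,0,-1],[1,0,-1],[0,1,0,-1,0,
  0,0,0,-1],(⟨0,[(17,0)]⟩,⟨0,[(18,0)]⟩),(⟨0,[(26,0)]⟩,⟨0,[(27,0)]⟩),⟨0,[(3,0)]⟩,.k,.k,(.x (-1) ⟨3,
  [(15,0),(0,0),(11,1),(0,3)]⟩ ⟨0,[(30,0)]⟩),.k,(.r (-1) ⟨0,[(6,0),(8,0),(9,0)]⟩ ⟨24,[(0,6),(0,4),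
  (0,6),(1,6),(5,7),(5,1),(1,6)]⟩),.k,⟨false,1,⟨0,[(6,0),(8,0),(9,0)]⟩,⟨0,[(0,0)]⟩⟩,⟨true,0,⟨0,[(17,
  0),(2,0)]⟩,⟨0,[(7,0),(10,0)]⟩⟩,⟨false,0,⟨0,[(33,0)]⟩,⟨0,[(32,0),(2,0)]⟩⟩,⟨false,0,⟨0,[(4,0),(17,
  0)]⟩,⟨0,[(5,0),(2,0)]⟩⟩,⟨true,0,⟨0,[(37,0)]⟩,⟨0,[]⟩⟩,⟨false,0,⟨0,[(4,0),(7,0)]⟩,⟨0,[(5,0),(3,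
  0)]⟩⟩,[.o ⟨false,0,⟨0,[(19,0)]⟩,⟨7,[(14,3),(0,0),(0,0),(11,1),(6,3)]⟩⟩,.o ⟨false,1,⟨1,[(22,1),(5,
  0),(6,0)]⟩,⟨0,[(8,0)]⟩⟩,.o ⟨false,1,⟨1,[(18,1),(9,0),(5,0)]⟩,⟨0,[(7,0),(9,0),(2,0)]⟩⟩,.a ⟨true,0,
  ⟨0,[(18,0)]⟩,⟨0,[(17,0)]⟩⟩ ⟨false,1,⟨0,[(6,0),(8,0)]⟩,⟨0,[(2,0),(32,0)]⟩⟩ ⟨true,0,⟨0,[(17,0),(1,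
  0)]⟩,⟨0,[(8,0),(9,0)]⟩⟩]⟩) (.Q [0,1,1,-1,-1,0,0,0,1,0,0,-1] (.p false [0,0,0,1] [] (⟨0,[(18,0)]⟩,
  ⟨0,[(17,0)]⟩) .k 0 (⟨0,[]⟩,⟨0,[]⟩) .k .k) (.R ⟨2,false,false,true,[0,1],[0,0,0,1],[],(⟨0,[]⟩,⟨0,
  []⟩),(⟨0,[(19,0)]⟩,⟨0,[(18,0)]⟩),⟨0,[]⟩,.k,.k,.k,(.x (-1) ⟨0,[(31,0),(3,0)]⟩ ⟨0,[(21,0),(2,0),(5,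
  0)]⟩),.k,.k,⟨true,1,⟨1,[(16,0),(19,0)]⟩,⟨1,[(0,0),(2,0),(15,0)]⟩⟩,⟨false,0,⟨4,[(0,0),(0,1),(3,2),
  (2,0),(2,0),(4,0),(1,0),(1,0),(11,0)]⟩,⟨0,[(19,0),(15,0)]⟩⟩,⟨false,1,⟨17,[(1,7),(0,3),(4,5),(9,0),
  (17,3),(0,8)]⟩,⟨1,[(11,0),(14,0)]⟩⟩,⟨true,(-1),⟨0,[(0,0)]⟩,⟨0,[(6,0),(26,0)]⟩⟩,⟨false,1,⟨1,[(35,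
  0),(0,0)]⟩,⟨1,[(24,0),(0,0)]⟩⟩,⟨false,0,⟨18,[(0,4),(4,7),(5,1),(5,2),(0,5),(2,1),(0,1),(6,1),(3,
  0)]⟩,⟨0,[(6,0)]⟩⟩,[.a ⟨true,(-1),⟨1,[(0,0),(2,0),(14,1),(0,0)]⟩,⟨0,[(6,0)]⟩⟩ ⟨false,1,⟨3,[(16,0),
  (0,0),(17,1)]⟩,⟨0,[]⟩⟩ ⟨true,(-1),⟨5,[(0,4),(2,0),(7,1),(3,0),(2,0),(2,1)]⟩,⟨0,[(6,0)]⟩⟩,.o
  ⟨false,0,⟨18,[(0,4),(4,7),(5,1),(5,2),(0,5),(2,1),(0,1),(6,1),(3,0)]⟩,⟨2,[(1,0),(4,1),(1,0),(10,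
  0),(0,0),(8,0),(2,0)]⟩⟩,.o ⟨false,1,⟨3,[(16,0),(0,0),(17,1)]⟩,⟨0,[(8,0),(12,0)]⟩⟩,.e ⟨false,1,⟨1,
  [(35,0),(0,0)]⟩,⟨1,[(24,0),(0,0)]⟩⟩ ⟨false,0,⟨18,[(0,4),(4,7),(5,1),(5,2),(0,5),(2,1),(0,1),(6,1),
  (3,0)]⟩,⟨0,[(6,0)]⟩⟩]⟩) (.I [1,-1,1,1,1,0,0,-1,-1] (.R ⟨1,false,false,true,[1,0,0,-1],[0,-1,1],[1,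
  0,0,0,0,0,0,0,-1],(⟨0,[(19,0)]⟩,⟨0,[(20,0)]⟩),(⟨0,[(13,0)]⟩,⟨0,[(28,0),(3,0)]⟩),⟨0,[(5,0)]⟩,.k,.k,
  (.x (-1) ⟨3,[(17,0),(0,0),(11,1),(0,3)]⟩ ⟨0,[(32,0)]⟩),(.r (-1) ⟨19,[(3,3),(8,11),(4,12),(0,2)]⟩
  ⟨0,[(8,0),(18,0)]⟩),.k,.k,⟨true,1,⟨0,[(0,0)]⟩,⟨0,[(2,0),(1,0),(3,0)]⟩⟩,⟨false,0,⟨0,[(19,0),(5,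
  0)]⟩,⟨0,[(7,0),(0,0),(13,0),(10,0)]⟩⟩,⟨true,0,⟨0,[]⟩,⟨0,[(39,0)]⟩⟩,⟨true,(-1),⟨0,[(4,0),(6,0),(7,
  0),(15,0)]⟩,⟨0,[(1,0),(19,0)]⟩⟩,⟨false,1,⟨0,[(34,0),(2,0)]⟩,⟨0,[(35,0)]⟩⟩,⟨true,(-1),⟨0,[(4,0),(6,
  0),(7,0)]⟩,⟨0,[(7,0),(13,0)]⟩⟩,[.o ⟨false,0,⟨0,[(11,0),(27,0)]⟩,⟨0,[(1,0),(4,0),(14,0)]⟩⟩,.o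
  ⟨false,0,⟨0,[(11,0)]⟩,⟨1,[(14,1),(15,0),(6,0)]⟩⟩,.o ⟨false,1,⟨1,[(20,1),(9,0),(5,0)]⟩,⟨8,[(2,4),
  (1,0),(1,3),(2,2),(2,1),(6,4),(1,2),(8,0)]⟩⟩,.a ⟨true,0,⟨0,[(20,0)]⟩,⟨0,[(19,0)]⟩⟩ ⟨true,1,⟨1,
  [(17,0),(18,0)]⟩,⟨0,[(4,0),(30,0)]⟩⟩ ⟨false,0,⟨0,[(11,0),(7,0)]⟩,⟨1,[(1,0),(2,0),(15,0),(0,1),(15,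
  1)]⟩⟩]⟩) (.Q [0,0,0,0,0,-1,0,0,0,1,-1] (.ed true [0,1,1] .k) (.R ⟨1,false,false,false,[1,0,0,-1],
  [0,1,1],[0,1,0,-1,0,0,0,0,-1],(⟨0,[(20,0)]⟩,⟨0,[(21,0)]⟩),(⟨0,[(30,0),(2,0)]⟩,⟨0,[(0,0)]⟩),⟨0,[(6,
  0)]⟩,.k,.k,(.x (-1) ⟨7,[(0,3),(13,3),(3,2),(0,2),(11,1)]⟩ ⟨0,[(33,0)]⟩),(.r (-1) ⟨2,[(2,0),(0,1),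
  (0,1),(5,0),(9,0),(1,0)]⟩ ⟨3,[(5,1),(7,0),(5,0),(8,4),(9,0)]⟩),(.r (-2) ⟨3,[(3,3),(0,3),(13,0),(0,
  0),(17,1)]⟩ ⟨0,[(2,0),(0,0),(1,1),(1,0)]⟩),.k,⟨false,1,⟨0,[(1,0),(2,0),(13,0)]⟩,⟨0,[(2,0),(2,0),
  (1,0),(20,0)]⟩⟩,⟨true,0,⟨0,[(10,0),(9,0)]⟩,⟨0,[(21,0),(1,0)]⟩⟩,⟨false,0,⟨0,[(36,0)]⟩,⟨0,[(35,0),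
  (2,0)]⟩⟩,⟨false,0,⟨0,[(7,0),(8,0)]⟩,⟨0,[(8,0),(13,0),(13,0)]⟩⟩,⟨true,0,⟨0,[(40,0)]⟩,⟨0,[]⟩⟩,
  ⟨false,0,⟨2,[(2,1),(0,0),(1,1),(1,3),(2,0),(5,1),(3,0),(13,0)]⟩,⟨0,[(8,0),(13,0),(13,1)]⟩⟩,[.o
  ⟨false,0,⟨1,[(2,0),(0,0),(1,0),(1,0),(2,0),(0,0),(22,0)]⟩,⟨5,[(3,1),(0,3),(14,0),(3,5),(13,0)]⟩⟩,
  .o ⟨false,1,⟨1,[(16,1),(14,0),(6,0)]⟩,⟨0,[(22,0),(13,0)]⟩⟩,.o ⟨false,1,⟨1,[(21,1),(9,0),(5,0)]⟩,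
  ⟨8,[(3,4),(1,0),(1,3),(2,2),(2,1),(6,4),(1,2),(8,0)]⟩⟩,.a ⟨true,0,⟨0,[(21,0)]⟩,⟨0,[(20,0)]⟩⟩
  ⟨false,1,⟨11,[(3,7),(0,3),(13,2),(0,0),(17,3)]⟩,⟨0,[(5,0),(32,0)]⟩⟩ ⟨true,0,⟨2,[(2,0),(0,1),(1,0),
  (1,1),(2,1),(5,0),(3,1),(13,1)]⟩,⟨0,[(21,0),(0,0),(13,0)]⟩⟩]⟩) (.K ⟨2,[-1,1,1],0,0,(⟨0,[(0,0)]⟩,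
  ⟨0,[(29,0),(2,0)]⟩),.k,.k,(.r 0 ⟨0,[(13,0),(14,1)]⟩ ⟨3,[(1,1),(1,1),(0,3),(32,0),(0,0)]⟩),.k,.k,
  [⟨1,[(2,0),(2,0),(14,1),(0,0)]⟩,⟨0,[(22,0),(13,0)]⟩,⟨1,[(23,1),(2,0),(0,0)]⟩,⟨0,[(10,0),(9,0),(0,
  0)]⟩]⟩))))) (.Q [0,0,0,0,0,1,0,0,0,-1,1] (.ed false [0,1,1] .k) (.K ⟨2,[-1,1,1],0,0,(⟨0,[(0,0)]⟩,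
  ⟨0,[(26,0),(2,0)]⟩),.k,.k,(.r 0 ⟨4,[(1,3),(8,2),(4,1),(0,1)]⟩ ⟨0,[(5,0),(0,0),(0,0),(9,0),(1,0),
  (13,0)]⟩),.k,.k,[⟨0,[(2,0),(2,0),(11,0)]⟩,⟨0,[(19,0),(13,0)]⟩,⟨1,[(20,1),(2,0),(0,0)]⟩,⟨0,[(7,0),
  (9,0),(0,0)]⟩]⟩) (.R ⟨1,false,false,true,[1,0,0,-1],[0,1,1],[0,0,0,-1,0,0,0,0,-1],(⟨0,[(17,0)]⟩,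
  ⟨0,[(18,0)]⟩),(⟨0,[(27,0),(2,0)]⟩,⟨0,[(0,0)]⟩),⟨0,[(3,0)]⟩,.k,.k,(.x (-1) ⟨7,[(0,3),(10,3),(3,2),
  (0,2),(11,1)]⟩ ⟨0,[(30,0)]⟩),(.r (-1) ⟨0,[(5,0),(1,0),(9,0),(1,0),(13,0)]⟩ ⟨19,[(1,11),(8,3),(4,
  0),(0,10)]⟩),(.r (-2) ⟨1,[(6,3),(0,1),(7,2),(6,1),(12,0)]⟩ ⟨15,[(1,9),(0,13),(7,3),(5,0),(18,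
  6)]⟩),.k,⟨false,2,⟨1,[(5,1),(0,1),(0,1),(7,0),(1,1),(1,1),(13,1),(1,0)]⟩,⟨31,[(1,17),(0,21),(7,3),
  (5,4),(14,15),(3,2)]⟩⟩,⟨true,0,⟨0,[(7,0),(9,0)]⟩,⟨0,[(18,0),(1,0)]⟩⟩,⟨true,0,⟨0,[(33,0)]⟩,⟨0,[(32,
  0)]⟩⟩,⟨true,(-1),⟨0,[(2,0),(5,0),(8,0)]⟩,⟨0,[(5,0),(13,0),(13,0)]⟩⟩,⟨false,1,⟨3,[(15,0),(0,0),(18,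
  1)]⟩,⟨0,[]⟩⟩,⟨true,(-1),⟨12,[(1,3),(0,8),(1,3),(2,5),(2,1),(2,0),(0,2),(2,8),(13,7)]⟩,⟨0,[(5,0),
  (13,0),(13,1)]⟩⟩,[.o ⟨false,0,⟨25,[(1,2),(5,0),(2,4),(3,5),(6,12),(6,2),(2,12)]⟩,⟨0,[(19,0),(13,
  0),(1,0)]⟩⟩,.o ⟨false,0,⟨5,[(1,1),(5,3),(5,1),(14,0),(2,1),(3,0)]⟩,⟨1,[(22,1),(5,0),(4,1),(1,
  0)]⟩⟩,.o ⟨false,1,⟨1,[(18,1),(9,0),(5,0)]⟩,⟨0,[(7,0),(9,0),(2,0)]⟩⟩,.a ⟨true,0,⟨0,[(18,0)]⟩,⟨0,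
  [(17,0)]⟩⟩ ⟨true,1,⟨0,[(6,0),(8,0)]⟩,⟨0,[(2,0)]⟩⟩ ⟨false,0,⟨5,[(1,1),(5,3),(5,1),(3,5),(10,0),(2,
  1),(3,0)]⟩,⟨0,[(18,0),(0,0),(13,0),(1,0)]⟩⟩]⟩)))) (.I [1,1,0,0,0,0,0,0,-1] (.R ⟨0,false,false,
  true,[1,0,0,-1],[1,0,-1],[],(⟨0,[(15,0)]⟩,⟨0,[(16,0)]⟩),(⟨0,[(24,0)]⟩,⟨0,[(25,0)]⟩),⟨0,[(1,0)]⟩,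
  .k,.k,(.x (-1) ⟨3,[(13,0),(0,0),(11,1),(0,3)]⟩ ⟨0,[(28,0)]⟩),.k,.k,.k,⟨false,1,⟨1,[(23,1),(8,0),
  (0,0)]⟩,⟨0,[(5,0),(14,0)]⟩⟩,⟨true,0,⟨0,[(15,0),(2,0)]⟩,⟨0,[(5,0),(10,0)]⟩⟩,⟨true,0,⟨1,[(4,1),(3,
  0),(14,0)]⟩,⟨0,[(0,0)]⟩⟩,⟨false,0,⟨0,[(2,0),(17,0)]⟩,⟨0,[(3,0),(2,0)]⟩⟩,⟨false,0,⟨0,[]⟩,⟨0,[]⟩⟩,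
  ⟨false,0,⟨0,[]⟩,⟨0,[]⟩⟩,[.o ⟨false,0,⟨0,[(17,0)]⟩,⟨7,[(12,3),(0,0),(0,0),(11,1),(6,3)]⟩⟩,.o
  ⟨false,1,⟨1,[(20,1),(5,0),(6,0)]⟩,⟨0,[(6,0)]⟩⟩,.o ⟨false,1,⟨1,[(16,1),(9,0),(5,0)]⟩,⟨0,[(0,0),(1,
  0)]⟩⟩,.a ⟨true,0,⟨0,[(16,0)]⟩,⟨0,[(15,0)]⟩⟩ ⟨false,1,⟨1,[(32,0),(0,0)]⟩,⟨1,[(21,0),(0,0)]⟩⟩ ⟨true,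
  0,⟨0,[(15,0),(1,0)]⟩,⟨0,[(6,0),(9,0)]⟩⟩]⟩) (.R ⟨0,false,false,true,[1,0,0,-1],[1,0,-1],[0,1,0,0,0,
  0,0,0,-1],(⟨0,[(15,0)]⟩,⟨0,[(16,0)]⟩),(⟨0,[(24,0)]⟩,⟨0,[(25,0)]⟩),⟨0,[(1,0)]⟩,.k,.k,(.x (-1) ⟨3,
  [(13,0),(0,0),(11,1),(0,3)]⟩ ⟨0,[(28,0)]⟩),.k,.k,.k,⟨false,1,⟨1,[(13,0),(9,1),(8,0)]⟩,⟨0,[(0,0),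
  (4,0),(14,0)]⟩⟩,⟨true,0,⟨0,[(15,0),(2,0)]⟩,⟨0,[(5,0),(10,0)]⟩⟩,⟨true,0,⟨0,[(35,0)]⟩,⟨0,[]⟩⟩,
  ⟨false,0,⟨0,[(2,0),(17,0)]⟩,⟨0,[(3,0),(2,0)]⟩⟩,⟨false,0,⟨0,[]⟩,⟨0,[]⟩⟩,⟨false,0,⟨0,[]⟩,⟨0,[]⟩⟩,
  [.o ⟨false,0,⟨0,[(17,0)]⟩,⟨7,[(12,3),(0,0),(0,0),(11,1),(6,3)]⟩⟩,.o ⟨false,1,⟨1,[(20,1),(5,0),(6,
  0)]⟩,⟨0,[(6,0)]⟩⟩,.o ⟨false,1,⟨1,[(16,1),(9,0),(5,0)]⟩,⟨0,[(5,0),(9,0),(2,0)]⟩⟩,.a ⟨true,0,⟨0,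
  [(16,0)]⟩,⟨0,[(15,0)]⟩⟩ ⟨false,1,⟨1,[(13,0),(18,0)]⟩,⟨1,[(0,1),(20,0),(0,0)]⟩⟩ ⟨true,0,⟨0,[(15,0),
  (1,0)]⟩,⟨0,[(6,0),(9,0)]⟩⟩]⟩)))))))) (.K ⟨2,[0,-1,1],0,0,(⟨0,[(2,0)]⟩,⟨0,[(17,0),(3,0)]⟩),.k,(.r
  (-1) ⟨0,[(16,0),(7,1),(0,0)]⟩ ⟨0,[(0,1),(13,1),(1,0)]⟩),.k,.k,.k,[⟨0,[(24,0)]⟩,⟨0,[(3,0)]⟩,⟨0,[(0,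
  0),(15,0),(7,0)]⟩,⟨1,[(14,2),(0,0)]⟩]⟩))

theorem ok1 : chk (cU (-1) true 3) t1 r3 = true := by decide +kernel

noncomputable def t2 : Tre :=
  .I [0,0,-2,-2,0,0,0,1] t0 t1

theorem ok2 : chk (cU (-1) true 3) t2 l2 = true :=
  chk_I (e' := [1,0,2,2,0,0,0,-1]) (by decide +kernel) (by decide +kernel) ok0 ok1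

noncomputable def l4 : List Con := (false, [0,-1,0,1,0,0,-1,-1,0,1,1]) :: r2

noncomputable def r4 : List Con := (false, [0,1,0,-1,0,0,1,1,0,-1,-1]) :: r2

noncomputable def t3 : Tre :=
  (.K ⟨1,[0,1,-1],0,0,(⟨0,[(1,0)]⟩,⟨0,[(17,0),(1,0)]⟩),.k,.k,(.r 0 ⟨0,[(0,0),(9,0),(2,1),(7,0)]⟩ ⟨0,
  [(15,0),(7,1),(0,0)]⟩),.k,.k,[⟨1,[(13,2),(0,0)]⟩,⟨1,[(0,0),(8,0),(5,1),(7,0)]⟩,⟨0,[(11,0),(11,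
  0)]⟩,⟨0,[(0,0)]⟩]⟩)

theorem ok3 : chk (cU (-1) true 3) t3 l4 = true := by decide +kernel

noncomputable def l5 : List Con := (true, [0,1,0,0,0,0,0,-1]) :: r4

noncomputable def r5 : List Con := (true, [1,-1,0,0,0,0,0,1]) :: r4

noncomputable def l6 : List Con := (true, [0,0,-2,-2,0,0,0,1]) :: l5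

noncomputable def r6 : List Con := (true, [1,0,2,2,0,0,0,-1]) :: l5

noncomputable def l7 : List Con := (false, [0,0,-2,0,0,0,-1,0,0,1,1]) :: l6

noncomputable def r7 : List Con := (false, [0,0,2,0,0,0,1,0,0,-1,-1]) :: l6

noncomputable def t4 : Tre :=
  (.K ⟨0,[0,1,-1],0,0,(⟨0,[(4,0)]⟩,⟨0,[(20,0),(1,0)]⟩),.k,.k,(.r (-1) ⟨7,[(5,11),(0,3),(1,0),(0,0),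
  (3,3),(2,11),(11,5)]⟩ ⟨0,[(1,0)]⟩),.k,.k,[⟨1,[(16,2),(0,0)]⟩,⟨0,[(0,0)]⟩,⟨2,[(3,0),(3,0),(18,1),
  (3,1)]⟩,⟨0,[(5,0)]⟩]⟩)

theorem ok4 : chk (cU (-1) true 3) t4 l7 = true := by decide +kernel

noncomputable def l8 : List Con := (false, [0,0,1,0,0,0,0,0,0,-1]) :: r7

noncomputable def r8 : List Con := (false, [0,0,-1,0,0,0,0,0,0,1]) :: r7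

noncomputable def l9 : List Con := (false, [0,0,0,-1,0,0,0,0,0,-1]) :: l8

noncomputable def r9 : List Con := (false, [0,0,0,1,0,0,0,0,0,1]) :: l8

noncomputable def t5 : Tre :=
  (.Q [0,0,0,0,0,0,-1,0,0,1,1] (.p true [1,-1,1] [] (⟨0,[(22,0),(1,0)]⟩,⟨0,[(6,0)]⟩) .k 0 (⟨0,[]⟩,
  ⟨0,[]⟩) .k .k) (.K ⟨2,[1,-1,1],0,0,(⟨0,[(23,0),(1,0)]⟩,⟨0,[(7,0)]⟩),.k,(.r 0 ⟨0,[(4,0)]⟩ ⟨7,[(0,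
  1),(2,5),(4,11),(0,3),(1,0),(0,0),(6,3),(11,5)]⟩),.k,.k,.k,[⟨0,[(1,0)]⟩,⟨0,[(8,0),(4,0),(0,0)]⟩,
  ⟨0,[(0,0)]⟩,⟨0,[(3,0)]⟩]⟩) (.I [0,0,1,1,0,0,0,0,-1] (.Q [0,1,1,0,0,0,0,0,1,0,0,-1] (.p false [0,0,
  0,1] [] (⟨0,[(15,0)]⟩,⟨0,[(14,0)]⟩) .k 0 (⟨0,[]⟩,⟨0,[]⟩) .k .k) (.K ⟨0,[0,0,0,1],0,0,(⟨0,[(16,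
  0)]⟩,⟨0,[(15,0)]⟩),.k,(.r (-1) ⟨7,[(6,3),(0,3),(5,0),(0,4),(18,1)]⟩ ⟨0,[(1,0)]⟩),(.x 0 ⟨0,[(28,
  0)]⟩ ⟨3,[(13,0),(0,0),(11,1),(0,3)]⟩),.k,.k,[⟨0,[(16,0)]⟩,⟨0,[(15,0)]⟩,⟨0,[(1,0),(0,0),(3,0),(3,
  0),(4,0),(0,1)]⟩,⟨0,[(0,0)]⟩]⟩) (.Q [0,0,0,0,0,1,0,0,0,-1,0,1] (.p true [0,0,0,1] [1] (⟨0,[(16,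
  0)]⟩,⟨0,[(15,0)]⟩) .k 1 (⟨0,[]⟩,⟨0,[]⟩) .k .k) (.R ⟨0,false,false,true,[1,0,0,-1],[0,1],[0,1,0,0,
  0,0,0,0,-1],(⟨0,[(16,0)]⟩,⟨0,[(17,0)]⟩),(⟨0,[(29,0)]⟩,⟨0,[(28,0)]⟩),⟨0,[(0,0)]⟩,.k,.k,(.x (-1) ⟨3,
  [(14,0),(0,0),(11,1),(0,3)]⟩ ⟨0,[(29,0)]⟩),(.x (-1) ⟨3,[(14,0),(0,0),(11,1),(0,3)]⟩ ⟨0,[(29,0)]⟩),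
  .k,.k,⟨false,0,⟨17,[(1,13),(0,3),(0,6),(3,11),(0,4),(7,13),(1,6),(11,1)]⟩,⟨0,[(2,0),(12,0)]⟩⟩,
  ⟨true,0,⟨0,[(16,0)]⟩,⟨3,[(3,0),(2,0),(10,3),(1,1)]⟩⟩,⟨true,0,⟨0,[(36,0)]⟩,⟨0,[]⟩⟩,⟨false,1,⟨0,[(2,
  0),(12,0),(0,0)]⟩,⟨0,[(1,0),(2,0)]⟩⟩,⟨false,0,⟨0,[]⟩,⟨0,[]⟩⟩,⟨false,0,⟨0,[]⟩,⟨0,[]⟩⟩,[.o ⟨false,0,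
  ⟨0,[(31,0)]⟩,⟨3,[(4,3),(9,0),(0,0),(18,1)]⟩⟩,.o ⟨false,1,⟨3,[(14,0),(0,0),(15,3),(2,1)]⟩,⟨0,[(4,
  0)]⟩⟩,.o ⟨false,1,⟨1,[(17,1),(9,0),(5,0)]⟩,⟨3,[(3,0),(2,0),(9,3),(2,1)]⟩⟩,.a ⟨true,0,⟨0,[(17,0)]⟩,
  ⟨0,[(16,0)]⟩⟩ ⟨false,0,⟨17,[(1,9),(0,7),(0,4),(3,5),(0,0),(7,9),(1,4),(11,3)]⟩,⟨1,[(15,0),(6,0),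
  (0,0),(10,0)]⟩⟩ ⟨true,0,⟨0,[(16,0),(14,0)]⟩,⟨0,[(4,0),(12,0)]⟩⟩]⟩) (.R ⟨1,false,false,true,[1,0,0,
  -1],[0,1],[1,1,0,0,0,0,0,0,-1],(⟨0,[(16,0)]⟩,⟨0,[(17,0)]⟩),(⟨0,[(29,0)]⟩,⟨0,[(28,0)]⟩),⟨0,[(0,
  0)]⟩,.k,.k,(.x (-1) ⟨3,[(14,0),(0,0),(11,1),(0,3)]⟩ ⟨0,[(29,0)]⟩),(.x (-1) ⟨3,[(14,0),(0,0),(11,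
  1),(0,3)]⟩ ⟨0,[(29,0)]⟩),(.r 0 ⟨3,[(1,2),(0,0),(1,2),(2,2),(0,2),(7,2)]⟩ ⟨5,[(6,3),(4,5),(0,5),(2,
  2),(3,1),(3,1),(10,2)]⟩),.k,⟨false,0,⟨17,[(1,13),(0,3),(0,6),(3,11),(0,4),(7,13),(1,6),(11,1)]⟩,
  ⟨0,[(2,0),(12,0)]⟩⟩,⟨true,0,⟨0,[(16,0)]⟩,⟨3,[(3,0),(2,0),(10,3),(1,1)]⟩⟩,⟨false,0,⟨0,[]⟩,⟨3,[(14,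
  0),(0,0),(18,1)]⟩⟩,⟨false,1,⟨0,[(2,0),(12,0),(0,0)]⟩,⟨0,[(1,0),(2,0)]⟩⟩,⟨true,0,⟨0,[(31,0)]⟩,⟨0,
  [(32,0)]⟩⟩,⟨false,1,⟨3,[(3,0),(2,0),(4,3),(0,3),(2,1),(0,3),(2,1),(14,1)]⟩,⟨0,[(1,0),(2,0),(27,
  0)]⟩⟩,[.o ⟨false,0,⟨0,[(31,0)]⟩,⟨3,[(4,3),(9,0),(0,0),(18,1)]⟩⟩,.o ⟨false,1,⟨3,[(14,0),(0,0),(15,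
  3),(2,1)]⟩,⟨0,[(4,0)]⟩⟩,.o ⟨false,1,⟨1,[(17,1),(9,0),(5,0)]⟩,⟨3,[(3,0),(2,0),(9,3),(2,1)]⟩⟩,.a
  ⟨true,0,⟨0,[(17,0)]⟩,⟨0,[(16,0)]⟩⟩ ⟨false,0,⟨17,[(1,9),(0,7),(0,4),(3,5),(0,0),(7,9),(1,4),(11,
  3)]⟩,⟨1,[(15,0),(6,0),(0,0),(10,0)]⟩⟩ ⟨true,0,⟨0,[(16,0),(14,0)]⟩,⟨0,[(4,0),(12,0)]⟩⟩]⟩))) (.Q [0,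
  1,-1,0,0,0,0,0,-1,0,0,1] (.p true [0,0,0,1] [] (⟨0,[(15,0)]⟩,⟨0,[(14,0)]⟩) .k 0 (⟨0,[]⟩,⟨0,[]⟩)
  .k .k) (.K ⟨0,[0,0,0,1],0,0,(⟨0,[(16,0)]⟩,⟨0,[(15,0)]⟩),.k,(.x 0 ⟨2,[(5,1),(12,0),(3,0),(4,2)]⟩
  ⟨0,[(28,0),(3,0)]⟩),(.x 0 ⟨0,[(28,0)]⟩ ⟨3,[(13,0),(0,0),(11,1),(0,3)]⟩),.k,.k,[⟨0,[(16,0)]⟩,⟨0,
  [(15,0)]⟩,⟨0,[(0,0)]⟩,⟨2,[(1,2),(3,1),(9,2),(2,0),(3,0),(7,2)]⟩]⟩) (.Q [0,1,1,0,-1,0,0,0,1,0,0,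
  -1] (.p false [0,0,0,1] [] (⟨0,[(16,0)]⟩,⟨0,[(15,0)]⟩) .k 0 (⟨0,[]⟩,⟨0,[]⟩) .k .k) (.K ⟨0,[0,0,0,
  1],0,(-1),(⟨0,[(17,0)]⟩,⟨0,[(16,0)]⟩),.k,(.r 0 ⟨0,[(0,0),(2,0),(3,0),(3,0),(5,0),(10,0),(0,0),(4,
  0)]⟩ ⟨23,[(6,7),(4,11),(0,11),(1,14),(0,2),(3,3),(3,3),(10,5)]⟩),(.x 0 ⟨0,[(29,0)]⟩ ⟨3,[(14,0),(0,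
  0),(11,1),(0,3)]⟩),.k,.k,[⟨0,[(17,0)]⟩,⟨0,[(16,0)]⟩,⟨1,[(14,0),(2,1),(15,0),(2,1)]⟩,⟨0,[(0,
  0)]⟩]⟩) (.Q [0,0,0,0,0,1,0,0,0,-1,0,1] (.p true [0,0,0,1] [1] (⟨0,[(17,0)]⟩,⟨0,[(16,0)]⟩) .k 1
  (⟨0,[]⟩,⟨0,[]⟩) .k .k) (.R ⟨0,false,false,true,[1,0,0,-1],[0,1],[0,1,0,0,0,0,0,0,-1],(⟨0,[(17,
  0)]⟩,⟨0,[(18,0)]⟩),(⟨0,[(30,0)]⟩,⟨0,[(29,0)]⟩),⟨0,[(0,0)]⟩,.k,.k,(.x (-1) ⟨3,[(15,0),(0,0),(11,1),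
  (0,3)]⟩ ⟨0,[(30,0)]⟩),(.x (-1) ⟨3,[(15,0),(0,0),(11,1),(0,3)]⟩ ⟨0,[(30,0)]⟩),.k,.k,⟨false,1,⟨3,
  [(1,1),(2,0),(3,1),(0,0),(5,0),(1,1),(1,0),(14,0)]⟩,⟨0,[(2,0),(15,0),(13,0)]⟩⟩,⟨true,0,⟨0,[(17,
  0)]⟩,⟨3,[(4,0),(2,0),(10,3),(1,1)]⟩⟩,⟨true,0,⟨0,[(37,0)]⟩,⟨0,[]⟩⟩,⟨false,0,⟨0,[(2,0),(10,0),(8,
  0)]⟩,⟨0,[(1,0),(3,0)]⟩⟩,⟨false,0,⟨0,[]⟩,⟨0,[]⟩⟩,⟨false,0,⟨0,[]⟩,⟨0,[]⟩⟩,[.o ⟨false,0,⟨0,[(32,0)]⟩,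
  ⟨3,[(5,3),(9,0),(0,0),(18,1)]⟩⟩,.o ⟨false,1,⟨3,[(15,0),(0,0),(15,3),(2,1)]⟩,⟨0,[(5,0)]⟩⟩,.o
  ⟨false,1,⟨1,[(18,1),(9,0),(5,0)]⟩,⟨3,[(4,0),(2,0),(9,3),(2,1)]⟩⟩,.a ⟨true,0,⟨0,[(18,0)]⟩,⟨0,[(17,
  0)]⟩⟩ ⟨false,1,⟨1,[(15,0),(18,0)]⟩,⟨0,[(2,0),(15,0)]⟩⟩ ⟨true,0,⟨0,[(17,0),(14,0)]⟩,⟨0,[(5,0),(12,
  0)]⟩⟩]⟩) (.R ⟨1,false,false,true,[1,0,0,-1],[0,1],[1,1,0,0,0,0,0,0,-1],(⟨0,[(17,0)]⟩,⟨0,[(18,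
  0)]⟩),(⟨0,[(30,0)]⟩,⟨0,[(29,0)]⟩),⟨0,[(0,0)]⟩,.k,.k,(.x (-1) ⟨3,[(15,0),(0,0),(11,1),(0,3)]⟩ ⟨0,
  [(30,0)]⟩),(.x (-1) ⟨3,[(15,0),(0,0),(11,1),(0,3)]⟩ ⟨0,[(30,0)]⟩),(.r (-1) ⟨1,[(8,1),(0,1),(5,0),
  (19,0)]⟩ ⟨3,[(2,3),(1,0),(2,0),(4,3),(0,3),(4,3),(1,1)]⟩),.k,⟨false,1,⟨3,[(1,1),(2,0),(3,1),(0,0),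
  (5,0),(1,1),(1,0),(14,0)]⟩,⟨0,[(2,0),(15,0),(13,0)]⟩⟩,⟨true,0,⟨0,[(17,0)]⟩,⟨3,[(4,0),(2,0),(10,3),
  (1,1)]⟩⟩,⟨false,0,⟨0,[]⟩,⟨3,[(15,0),(0,0),(18,1)]⟩⟩,⟨false,0,⟨0,[(2,0),(10,0),(8,0)]⟩,⟨0,[(1,0),
  (3,0)]⟩⟩,⟨true,0,⟨0,[(32,0)]⟩,⟨0,[(33,0)]⟩⟩,⟨false,0,⟨0,[(2,0),(9,0),(0,0)]⟩,⟨0,[(1,0),(3,0),(27,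
  0)]⟩⟩,[.o ⟨false,0,⟨0,[(32,0)]⟩,⟨3,[(5,3),(9,0),(0,0),(18,1)]⟩⟩,.o ⟨false,1,⟨3,[(15,0),(0,0),(15,
  3),(2,1)]⟩,⟨0,[(5,0)]⟩⟩,.o ⟨false,1,⟨1,[(18,1),(9,0),(5,0)]⟩,⟨3,[(4,0),(2,0),(9,3),(2,1)]⟩⟩,.a
  ⟨true,0,⟨0,[(18,0)]⟩,⟨0,[(17,0)]⟩⟩ ⟨false,1,⟨1,[(15,0),(18,0)]⟩,⟨0,[(2,0),(15,0)]⟩⟩ ⟨true,0,⟨0,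
  [(17,0),(14,0)]⟩,⟨0,[(5,0),(12,0)]⟩⟩]⟩))))))

theorem ok5 : chk (cU (-1) true 3) t5 l9 = true := by decide +kernel

noncomputable def t6 : Tre :=
  (.Q [0,0,0,-2,0,0,0,0,0,-1] (.pp true [-1,1]) (.R ⟨2,false,false,false,[0,1],[1,-1],[],(⟨0,[]⟩,⟨0,
  []⟩),(⟨0,[(25,0)]⟩,⟨0,[(26,0)]⟩),⟨0,[]⟩,.k,.k,.k,(.r 0 ⟨0,[(1,1),(0,1)]⟩ ⟨3,[(4,3),(0,3),(5,0),(0,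
  0),(18,1)]⟩),.k,.k,⟨true,0,⟨0,[(1,0),(0,0)]⟩,⟨0,[(29,0)]⟩⟩,⟨false,0,⟨0,[(2,0)]⟩,⟨0,[(13,0),(0,0),
  (15,0)]⟩⟩,⟨false,1,⟨7,[(4,3),(0,3),(5,0),(0,0),(18,5)]⟩,⟨0,[(1,0),(0,0)]⟩⟩,⟨true,0,⟨0,[(0,0)]⟩,⟨0,
  [(1,0),(26,0)]⟩⟩,⟨false,1,⟨1,[(30,0),(0,0)]⟩,⟨1,[(19,0),(0,0)]⟩⟩,⟨false,1,⟨7,[(0,3),(10,0),(0,0),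
  (11,1),(6,3)]⟩,⟨0,[(1,0)]⟩⟩,[.a ⟨true,0,⟨0,[(29,0)]⟩,⟨0,[(1,0)]⟩⟩ ⟨false,1,⟨3,[(11,0),(0,0),(17,
  1)]⟩,⟨0,[]⟩⟩ ⟨true,0,⟨5,[(0,2),(2,1),(12,0),(3,0)]⟩,⟨0,[(1,0)]⟩⟩,.o ⟨false,1,⟨7,[(0,3),(10,0),(0,
  0),(11,1),(6,3)]⟩,⟨0,[(28,0)]⟩⟩,.o ⟨false,1,⟨3,[(11,0),(0,0),(17,1)]⟩,⟨0,[(2,0)]⟩⟩,.e ⟨false,1,⟨1,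
  [(30,0),(0,0)]⟩,⟨1,[(19,0),(0,0)]⟩⟩ ⟨false,1,⟨7,[(0,3),(10,0),(0,0),(11,1),(6,3)]⟩,⟨0,[(1,
  0)]⟩⟩]⟩) (.Q [0,0,-1,0,0,0,-1,0,0,1,1] (.p true [1,-1,1] [] (⟨0,[(23,0),(1,0)]⟩,⟨0,[(7,0)]⟩) .k 0
  (⟨0,[]⟩,⟨0,[]⟩) .k .k) (.R ⟨0,false,false,false,[0,1,-1],[1,0,-1],[0,1,1,1,0,0,0,-1],(⟨0,[(8,0)]⟩,
  ⟨0,[(24,0),(1,0)]⟩),(⟨0,[(23,0)]⟩,⟨0,[(24,0)]⟩),⟨0,[(24,0)]⟩,.k,.k,.k,.k,.k,.k,⟨false,0,⟨0,[(29,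
  0)]⟩,⟨7,[(5,3),(0,3),(5,0),(0,0),(18,5)]⟩⟩,⟨true,0,⟨0,[(3,0)]⟩,⟨0,[(14,0),(0,0)]⟩⟩,⟨true,0,⟨0,
  [(34,0)]⟩,⟨0,[]⟩⟩,⟨false,1,⟨1,[(25,0),(4,1),(1,0)]⟩,⟨0,[(2,0)]⟩⟩,⟨false,0,⟨0,[]⟩,⟨0,[]⟩⟩,⟨false,0,
  ⟨0,[]⟩,⟨0,[]⟩⟩,[.o ⟨false,1,⟨1,[(19,1),(5,0),(6,0)]⟩,⟨0,[(1,0),(2,0),(0,0)]⟩⟩,.o ⟨false,1,⟨0,[(16,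
  0),(15,0)]⟩,⟨0,[(18,0)]⟩⟩,.a ⟨true,0,⟨0,[(0,0)]⟩,⟨0,[(20,0)]⟩⟩ ⟨true,0,⟨0,[(9,0),(10,0)]⟩,⟨1,[(5,
  0),(16,0)]⟩⟩ ⟨false,1,⟨1,[(4,0),(1,0),(9,0),(15,1)]⟩,⟨3,[(0,1),(4,0),(4,1),(11,0)]⟩⟩,.o ⟨false,0,
  ⟨1,[(0,0),(16,0)]⟩,⟨0,[(4,0),(26,0)]⟩⟩]⟩) (.Q [0,1,0,0,0,0,0,-1,0,-1] (.pp true [-1,1]) (.Q [0,0,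
  0,0,0,1,0,0,0,-1,1] (.ed false [0,1,1] .k) (.Q [0,0,0,0,0,0,1,0,0,1,-1] (.p false [0,0,1] [1] (⟨0,
  [(26,0)]⟩,⟨0,[(25,0)]⟩) .k 1 (⟨0,[]⟩,⟨0,[]⟩) .k .k) (.K ⟨2,[-1,1,1],0,0,(⟨0,[(1,0)]⟩,⟨0,[(26,0),
  (2,0)]⟩),.k,.k,(.r 0 ⟨5,[(4,2),(2,1),(5,5),(6,6),(3,0)]⟩ ⟨0,[(8,0),(0,1),(25,0)]⟩),.k,.k,[⟨0,[(5,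
  0)]⟩,⟨0,[(19,0),(13,0)]⟩,⟨2,[(7,0),(12,1),(3,1)]⟩,⟨0,[(0,0)]⟩]⟩) (.I [0,-1,1,0,0,0,0,1] (.R ⟨0,
  false,false,false,[1,0,-1],[0,1],[0,0,1],(⟨0,[(27,0)]⟩,⟨0,[(28,0)]⟩),(⟨0,[(31,0)]⟩,⟨0,[(30,0)]⟩),
  ⟨0,[(2,0)]⟩,.k,.k,.k,.k,.k,.k,⟨true,0,⟨0,[(34,0)]⟩,⟨5,[(5,2),(2,1),(12,0),(3,0)]⟩⟩,⟨false,1,⟨1,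
  [(5,1),(3,1),(0,1),(13,1),(10,0),(0,0)]⟩,⟨0,[(21,0)]⟩⟩,⟨false,0,⟨0,[(0,0)]⟩,⟨1,[(10,1),(24,0),(0,
  0)]⟩⟩,⟨true,0,⟨0,[(14,0)]⟩,⟨0,[(20,0),(13,0)]⟩⟩,⟨false,0,⟨0,[]⟩,⟨0,[]⟩⟩,⟨false,0,⟨0,[]⟩,⟨0,[]⟩⟩,
  [.a ⟨true,0,⟨0,[(6,0)]⟩,⟨0,[(34,0)]⟩⟩ ⟨true,0,⟨1,[(24,0),(0,0)]⟩,⟨0,[]⟩⟩ ⟨false,1,⟨0,[(6,0),(17,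
  0),(10,0)]⟩,⟨0,[(1,0),(32,0)]⟩⟩,.o ⟨false,1,⟨7,[(5,3),(10,0),(0,0),(11,1),(6,3)]⟩,⟨1,[(11,0),(8,
  0),(13,0)]⟩⟩,.o ⟨false,0,⟨0,[(1,0)]⟩,⟨3,[(16,0),(0,0),(6,3),(10,1)]⟩⟩,.o ⟨false,0,⟨0,[(21,0)]⟩,⟨0,
  [(24,0),(10,0)]⟩⟩]⟩) (.Q [0,0,0,0,0,0,1,0,0,2,-1] (.p false [-1,1,1] [1] (⟨0,[(2,0)]⟩,⟨0,[(27,0),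
  (2,0)]⟩) .k 1 (⟨0,[]⟩,⟨0,[]⟩) .k .k) (.K ⟨0,[2,-1,-1],0,0,(⟨0,[(28,0),(2,0)]⟩,⟨0,[(3,0)]⟩),.k,(.r
  (-1) ⟨5,[(1,7),(8,1),(6,0),(0,0),(16,7),(1,3)]⟩ ⟨5,[(6,2),(2,1),(5,5),(6,6),(3,0)]⟩),.k,.k,.k,[⟨0,
  [(0,0)]⟩,⟨0,[(2,0)]⟩,⟨1,[(0,0),(6,0),(7,0),(11,0),(11,1)]⟩,⟨0,[(2,0),(1,0),(30,0)]⟩]⟩) (.I [0,0,1,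
  1,0,0,0,0,-1] (.Q [0,1,1,0,0,0,0,0,1,0,0,-1] (.p false [0,0,0,1] [] (⟨0,[(21,0)]⟩,⟨0,[(20,0)]⟩)
  .k 0 (⟨0,[]⟩,⟨0,[]⟩) .k .k) (.K ⟨0,[0,0,0,1],0,0,(⟨0,[(22,0)]⟩,⟨0,[(21,0)]⟩),.k,(.r (-1) ⟨5,[(3,
  1),(8,1),(6,0),(0,3),(16,1),(1,0)]⟩ ⟨0,[(1,0)]⟩),(.x 0 ⟨0,[(34,0)]⟩ ⟨3,[(19,0),(0,0),(11,1),(0,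
  3)]⟩),.k,.k,[⟨0,[(22,0)]⟩,⟨0,[(21,0)]⟩,⟨4,[(1,4),(1,2),(8,2),(9,4),(12,0),(5,0)]⟩,⟨0,[(0,0)]⟩]⟩)
  (.Q [0,0,0,0,0,1,0,0,0,-1,0,1] (.p true [0,0,0,1] [1] (⟨0,[(22,0)]⟩,⟨0,[(21,0)]⟩) .k 1 (⟨0,[]⟩,⟨0,
  []⟩) .k .k) (.R ⟨0,false,false,false,[1,0,0,-1],[0,0,1],[0,1,0,0,0,0,0,0,-1],(⟨0,[(22,0)]⟩,⟨0,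
  [(23,0)]⟩),(⟨0,[(32,0)]⟩,⟨0,[(31,0)]⟩),⟨0,[(0,0)]⟩,.k,.k,(.x (-1) ⟨3,[(20,0),(0,0),(11,1),(0,3)]⟩
  ⟨0,[(35,0)]⟩),.k,.k,.k,⟨false,0,⟨2,[(1,0),(0,1),(1,1),(2,0),(5,0),(0,0),(7,0)]⟩,⟨1,[(21,0),(8,1),
  (9,0)]⟩⟩,⟨true,0,⟨0,[(22,0),(5,0)]⟩,⟨0,[(5,0),(17,0)]⟩⟩,⟨true,0,⟨0,[(42,0)]⟩,⟨0,[]⟩⟩,⟨false,1,⟨5,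
  [(12,1),(6,2),(1,2),(0,5),(2,0),(3,0),(10,2)]⟩,⟨0,[(1,0),(22,0)]⟩⟩,⟨false,0,⟨0,[]⟩,⟨0,[]⟩⟩,⟨false,
  0,⟨0,[]⟩,⟨0,[]⟩⟩,[.o ⟨false,0,⟨6,[(3,0),(4,1),(4,0),(4,1),(0,1)]⟩,⟨1,[(27,1),(5,0),(6,0)]⟩⟩,.o
  ⟨false,1,⟨7,[(19,3),(0,0),(0,0),(11,1),(6,3)]⟩,⟨0,[(24,0)]⟩⟩,.o ⟨false,1,⟨1,[(23,1),(9,0),(5,0)]⟩,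
  ⟨4,[(3,0),(8,1),(9,4),(2,0)]⟩⟩,.a ⟨true,0,⟨0,[(23,0)]⟩,⟨0,[(22,0)]⟩⟩ ⟨false,0,⟨8,[(1,5),(0,2),(0,
  0),(3,2),(5,1),(1,0),(6,5),(13,1)]⟩,⟨1,[(21,0),(6,0),(0,0),(10,0)]⟩⟩ ⟨true,0,⟨6,[(3,0),(4,1),(4,
  0),(4,1),(0,1),(2,6)]⟩,⟨0,[(23,0),(0,0)]⟩⟩]⟩) (.R ⟨1,false,false,false,[1,0,0,-1],[0,0,1],[1,1,0,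
  0,0,0,0,0,-1],(⟨0,[(22,0)]⟩,⟨0,[(23,0)]⟩),(⟨0,[(32,0)]⟩,⟨0,[(31,0)]⟩),⟨0,[(0,0)]⟩,.k,.k,(.x (-1)
  ⟨3,[(20,0),(0,0),(11,1),(0,3)]⟩ ⟨0,[(35,0)]⟩),.k,(.r 0 ⟨0,[(1,0),(5,0),(14,0),(15,0)]⟩ ⟨0,[(2,0),
  (18,0),(8,0)]⟩),.k,⟨false,0,⟨2,[(1,0),(0,1),(1,1),(2,0),(5,0),(0,0),(7,0)]⟩,⟨1,[(21,0),(8,1),(9,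
  0)]⟩⟩,⟨true,0,⟨0,[(22,0),(5,0)]⟩,⟨0,[(5,0),(17,0)]⟩⟩,⟨false,0,⟨0,[]⟩,⟨3,[(20,0),(0,0),(18,1)]⟩⟩,
  ⟨false,1,⟨5,[(12,1),(6,2),(1,2),(0,5),(2,0),(3,0),(10,2)]⟩,⟨0,[(1,0),(22,0)]⟩⟩,⟨true,0,⟨0,[(37,
  0)]⟩,⟨0,[(38,0)]⟩⟩,⟨false,1,⟨9,[(3,1),(8,3),(5,9),(2,4),(0,9),(2,1),(14,4)]⟩,⟨0,[(1,0),(22,0),(13,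
  0)]⟩⟩,[.o ⟨false,0,⟨6,[(3,0),(4,1),(4,0),(4,1),(0,1)]⟩,⟨1,[(27,1),(5,0),(6,0)]⟩⟩,.o ⟨false,1,⟨7,
  [(19,3),(0,0),(0,0),(11,1),(6,3)]⟩,⟨0,[(24,0)]⟩⟩,.o ⟨false,1,⟨1,[(23,1),(9,0),(5,0)]⟩,⟨4,[(3,0),
  (8,1),(9,4),(2,0)]⟩⟩,.a ⟨true,0,⟨0,[(23,0)]⟩,⟨0,[(22,0)]⟩⟩ ⟨false,0,⟨8,[(1,5),(0,2),(0,0),(3,2),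
  (5,1),(1,0),(6,5),(13,1)]⟩,⟨1,[(21,0),(6,0),(0,0),(10,0)]⟩⟩ ⟨true,0,⟨6,[(3,0),(4,1),(4,0),(4,1),
  (0,1),(2,6)]⟩,⟨0,[(23,0),(0,0)]⟩⟩]⟩))) (.Q [0,-1,1,0,0,0,0,0,1,0,0,-1] (.p false [0,0,0,1] [] (⟨0,
  [(21,0)]⟩,⟨0,[(20,0)]⟩) .k 0 (⟨0,[]⟩,⟨0,[]⟩) .k .k) (.Q [0,0,0,0,0,1,0,0,0,-1,0,1] (.p true [0,0,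
  0,1] [1] (⟨0,[(22,0)]⟩,⟨0,[(21,0)]⟩) .k 1 (⟨0,[]⟩,⟨0,[]⟩) .k .k) (.R ⟨0,false,false,false,[1,0,0,
  -1],[0,0,1],[0,1,0,0,0,0,0,0,-1],(⟨0,[(22,0)]⟩,⟨0,[(23,0)]⟩),(⟨0,[(32,0)]⟩,⟨0,[(31,0)]⟩),⟨0,[(0,
  0)]⟩,.k,.k,(.x (-1) ⟨3,[(20,0),(0,0),(11,1),(0,3)]⟩ ⟨0,[(35,0)]⟩),.k,.k,.k,⟨false,1,⟨3,[(4,3),(15,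
  2),(0,0)]⟩,⟨5,[(1,5),(1,1),(5,1),(3,2),(4,1),(4,5),(6,0)]⟩⟩,⟨true,0,⟨0,[(22,0),(5,0)]⟩,⟨0,[(5,0),
  (17,0)]⟩⟩,⟨true,0,⟨0,[(42,0)]⟩,⟨0,[]⟩⟩,⟨false,0,⟨1,[(1,1),(17,0),(2,0),(0,0)]⟩,⟨1,[(4,1),(0,1),
  (14,0),(2,1),(16,0)]⟩⟩,⟨false,0,⟨0,[]⟩,⟨0,[]⟩⟩,⟨false,0,⟨0,[]⟩,⟨0,[]⟩⟩,[.o ⟨false,0,⟨6,[(3,0),(4,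
  1),(4,0),(4,1),(0,1)]⟩,⟨1,[(27,1),(5,0),(6,0)]⟩⟩,.o ⟨false,1,⟨7,[(19,3),(0,0),(0,0),(11,1),(6,
  3)]⟩,⟨0,[(24,0)]⟩⟩,.o ⟨false,1,⟨1,[(23,1),(9,0),(5,0)]⟩,⟨4,[(3,0),(8,1),(9,4),(2,0)]⟩⟩,.a ⟨true,0,
  ⟨0,[(23,0)]⟩,⟨0,[(22,0)]⟩⟩ ⟨false,1,⟨1,[(20,0),(18,0)]⟩,⟨0,[(1,0),(21,0)]⟩⟩ ⟨true,0,⟨6,[(3,0),(4,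
  1),(4,0),(4,1),(0,1),(2,6)]⟩,⟨0,[(23,0),(0,0)]⟩⟩]⟩) (.R ⟨1,false,false,false,[1,0,0,-1],[0,0,1],
  [1,1,0,0,0,0,0,0,-1],(⟨0,[(22,0)]⟩,⟨0,[(23,0)]⟩),(⟨0,[(32,0)]⟩,⟨0,[(31,0)]⟩),⟨0,[(0,0)]⟩,.k,.k,
  (.x (-1) ⟨3,[(20,0),(0,0),(11,1),(0,3)]⟩ ⟨0,[(35,0)]⟩),.k,(.r (-1) ⟨1,[(4,1),(15,0),(17,1),(1,
  0)]⟩ ⟨1,[(1,0),(0,0),(15,1),(4,0),(1,1),(11,0)]⟩),.k,⟨false,1,⟨3,[(4,3),(15,2),(0,0)]⟩,⟨5,[(1,5),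
  (1,1),(5,1),(3,2),(4,1),(4,5),(6,0)]⟩⟩,⟨true,0,⟨0,[(22,0),(5,0)]⟩,⟨0,[(5,0),(17,0)]⟩⟩,⟨false,0,⟨0,
  []⟩,⟨3,[(20,0),(0,0),(18,1)]⟩⟩,⟨false,0,⟨1,[(1,1),(17,0),(2,0),(0,0)]⟩,⟨1,[(4,1),(0,1),(14,0),(2,
  1),(16,0)]⟩⟩,⟨true,0,⟨0,[(37,0)]⟩,⟨0,[(38,0)]⟩⟩,⟨false,0,⟨0,[(1,0),(16,0)]⟩,⟨1,[(4,1),(0,1),(14,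
  0),(2,1),(14,1),(1,0)]⟩⟩,[.o ⟨false,0,⟨6,[(3,0),(4,1),(4,0),(4,1),(0,1)]⟩,⟨1,[(27,1),(5,0),(6,
  0)]⟩⟩,.o ⟨false,1,⟨7,[(19,3),(0,0),(0,0),(11,1),(6,3)]⟩,⟨0,[(24,0)]⟩⟩,.o ⟨false,1,⟨1,[(23,1),(9,
  0),(5,0)]⟩,⟨4,[(3,0),(8,1),(9,4),(2,0)]⟩⟩,.a ⟨true,0,⟨0,[(23,0)]⟩,⟨0,[(22,0)]⟩⟩ ⟨false,1,⟨1,[(20,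
  0),(18,0)]⟩,⟨0,[(1,0),(21,0)]⟩⟩ ⟨true,0,⟨6,[(3,0),(4,1),(4,0),(4,1),(0,1),(2,6)]⟩,⟨0,[(23,0),(0,
  0)]⟩⟩]⟩)) (.K ⟨0,[0,0,0,1],0,0,(⟨0,[(22,0)]⟩,⟨0,[(21,0)]⟩),.k,(.x 0 ⟨2,[(11,1),(12,0),(3,0),(4,
  2)]⟩ ⟨0,[(34,0),(3,0)]⟩),(.x 0 ⟨0,[(34,0)]⟩ ⟨3,[(19,0),(0,0),(11,1),(0,3)]⟩),.k,.k,[⟨0,[(22,0)]⟩,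
  ⟨0,[(21,0)]⟩,⟨0,[(0,0)]⟩,⟨2,[(1,2),(9,1),(9,2),(2,0),(3,0),(7,2)]⟩]⟩)))))) (.Q [0,0,0,0,0,-2,0,0,
  0,1] (.pp false [-1,1]) (.Q [0,0,0,-3,0,0,0,0,0,-1] (.pp true [-1,1]) (.R ⟨1,false,false,true,[1,
  -1],[0,1],[0,1,1],(⟨0,[(30,0)]⟩,⟨0,[(31,0)]⟩),(⟨0,[(31,0)]⟩,⟨0,[(30,0)]⟩),⟨0,[(1,0)]⟩,.k,.k,(.r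
  (-1) ⟨2,[(0,1),(17,1),(0,1),(15,2)]⟩ ⟨2,[(5,2),(2,1),(12,0),(3,0)]⟩),(.r (-1) ⟨2,[(0,1),(17,1),(0,
  1),(15,2)]⟩ ⟨2,[(5,2),(2,1),(12,0),(3,0)]⟩),(.r (-1) ⟨5,[(0,1),(8,5),(0,5),(7,1),(0,1),(15,2),(0,
  2)]⟩ ⟨1,[(5,2),(2,1),(12,0),(3,0)]⟩),.k,⟨true,0,⟨0,[(34,0)]⟩,⟨5,[(5,2),(2,1),(12,0),(3,0)]⟩⟩,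
  ⟨false,1,⟨1,[(5,1),(3,1),(0,1),(24,0),(0,0)]⟩,⟨2,[(8,1),(12,0),(3,0)]⟩⟩,⟨false,0,⟨2,[(5,0),(0,0),
  (1,1),(16,1)]⟩,⟨1,[(3,0),(1,0),(3,1),(0,0),(25,1)]⟩⟩,⟨false,0,⟨0,[(5,0)]⟩,⟨5,[(0,3),(15,0),(0,0),
  (11,0),(6,2)]⟩⟩,⟨false,0,⟨2,[(5,2),(2,1),(12,0),(3,0)]⟩,⟨0,[(9,0),(0,0),(25,0)]⟩⟩,⟨true,0,⟨0,[(5,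
  0),(27,0)]⟩,⟨0,[(0,0)]⟩⟩,[.o ⟨false,0,⟨0,[(33,0)]⟩,⟨11,[(0,3),(15,0),(0,0),(11,3),(6,5)]⟩⟩,.a
  ⟨true,0,⟨0,[(6,0)]⟩,⟨0,[(34,0)]⟩⟩ ⟨true,0,⟨1,[(24,0),(0,0)]⟩,⟨0,[]⟩⟩ ⟨false,1,⟨0,[(6,0),(28,0)]⟩,
  ⟨2,[(0,0),(7,0),(12,0)]⟩⟩,.o ⟨false,0,⟨0,[(7,0)]⟩,⟨3,[(16,0),(0,0),(17,1)]⟩⟩,.o ⟨false,0,⟨2,[(8,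
  1),(12,0),(3,0)]⟩,⟨0,[(35,0)]⟩⟩]⟩) (.Q [0,0,0,0,0,0,-1,0,0,0,1] (.p true [0,0,1] [] (⟨0,[(28,0)]⟩,
  ⟨0,[(27,0)]⟩) .k 0 (⟨0,[]⟩,⟨0,[]⟩) .k .k) (.Q [0,0,0,0,0,0,1,0,0,1,-1] (.p false [0,0,1] [1] (⟨0,
  [(29,0)]⟩,⟨0,[(28,0)]⟩) .k 1 (⟨0,[]⟩,⟨0,[]⟩) .k .k) (.K ⟨0,[1,-1,-1],0,0,(⟨0,[(4,0)]⟩,⟨0,[(30,0),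
  (2,0)]⟩),.k,(.r (-1) ⟨0,[(11,0),(0,1),(25,0)]⟩ ⟨5,[(2,3),(7,1),(6,2),(5,4),(3,2)]⟩),.k,.k,.k,[⟨0,
  [(0,0)]⟩,⟨0,[(1,0)]⟩,⟨0,[(16,0),(23,0)]⟩,⟨0,[(22,0),(13,0)]⟩]⟩) (.I [0,-1,1,0,0,0,0,1] (.R ⟨1,
  false,false,false,[1,0,-1],[1,-1],[1,1,0,0,0,0,0,-1],(⟨0,[(30,0)]⟩,⟨0,[(31,0)]⟩),(⟨0,[(33,0)]⟩,⟨0,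
  [(34,0)]⟩),⟨0,[(5,0)]⟩,.k,.k,.k,.k,.k,.k,⟨false,0,⟨2,[(3,0),(2,0),(6,1)]⟩,⟨3,[(12,1),(6,0),(0,0),
  (8,1),(9,1)]⟩⟩,⟨true,0,⟨0,[(27,0)]⟩,⟨0,[(2,0)]⟩⟩,⟨false,0,⟨0,[]⟩,⟨3,[(19,0),(0,0),(18,1)]⟩⟩,⟨true,
  0,⟨2,[(11,0),(0,0),(5,0),(18,0)]⟩,⟨0,[(16,0)]⟩⟩,⟨true,0,⟨0,[(36,0)]⟩,⟨0,[(37,0)]⟩⟩,⟨true,0,⟨16,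
  [(1,2),(1,1),(3,5),(4,2),(5,6)]⟩,⟨0,[(26,0)]⟩⟩,[.a ⟨true,0,⟨0,[(37,0)]⟩,⟨0,[(9,0)]⟩⟩ ⟨true,0,⟨0,
  [(13,0)]⟩,⟨0,[(0,0)]⟩⟩ ⟨false,1,⟨7,[(12,3),(0,3),(5,0),(0,0),(6,7),(10,3),(0,1)]⟩,⟨2,[(1,0),(0,1),
  (0,0)]⟩⟩,.o ⟨false,1,⟨1,[(32,0),(4,1),(1,0)]⟩,⟨0,[(36,0)]⟩⟩,.o ⟨false,0,⟨0,[(1,0)]⟩,⟨3,[(19,0),(0,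
  0),(6,3),(10,1)]⟩⟩,.o ⟨false,0,⟨0,[(24,0)]⟩,⟨0,[(27,0),(10,0)]⟩⟩]⟩) (.I [1,1,-2,-1,0,0,0,0,-1]
  (.Q [0,1,1,0,0,0,0,0,1,0,0,-1] (.p false [0,0,0,1] [] (⟨0,[(23,0)]⟩,⟨0,[(22,0)]⟩) .k 0 (⟨0,[]⟩,⟨0,
  []⟩) .k .k) (.K ⟨0,[0,0,0,1],0,0,(⟨0,[(24,0)]⟩,⟨0,[(23,0)]⟩),.k,(.x 0 ⟨3,[(6,1),(6,1),(15,0),(0,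
  2)]⟩ ⟨0,[(36,0),(3,0)]⟩),(.x 0 ⟨0,[(36,0)]⟩ ⟨7,[(6,3),(14,2),(0,2),(11,1)]⟩),.k,.k,[⟨0,[(24,0)]⟩,
  ⟨0,[(23,0)]⟩,⟨2,[(1,2),(3,0),(7,0),(10,2),(5,0)]⟩,⟨0,[(0,0)]⟩]⟩) (.Q [0,0,0,0,0,-1,0,0,0,1,0,-1]
  (.p false [0,0,0,1] [1] (⟨0,[(24,0)]⟩,⟨0,[(23,0)]⟩) .k 1 (⟨0,[]⟩,⟨0,[]⟩) .k .k) (.R ⟨1,false,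
  false,false,[1,0,0,-1],[0,0,1],[1,1,0,0,0,0,0,0,-1],(⟨0,[(24,0)]⟩,⟨0,[(25,0)]⟩),(⟨0,[(34,0)]⟩,⟨0,
  [(33,0)]⟩),⟨0,[(0,0)]⟩,.k,.k,(.x (-1) ⟨7,[(7,3),(14,2),(0,2),(11,1)]⟩ ⟨0,[(37,0)]⟩),.k,(.r 0 ⟨0,
  [(1,0),(7,0),(14,0),(15,0)]⟩ ⟨11,[(6,3),(14,5),(0,2),(0,8),(3,9),(3,1)]⟩),.k,⟨false,0,⟨11,[(1,5),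
  (0,5),(3,0),(2,3),(4,2),(1,4),(2,2),(4,5)]⟩,⟨1,[(23,0),(8,1),(9,0)]⟩⟩,⟨true,0,⟨0,[(24,0),(5,0)]⟩,
  ⟨0,[(4,0),(20,0)]⟩⟩,⟨false,0,⟨0,[]⟩,⟨3,[(22,0),(0,0),(18,1)]⟩⟩,⟨false,1,⟨5,[(14,1),(6,2),(1,2),(0,
  5),(2,0),(3,0),(10,2)]⟩,⟨0,[(1,0),(24,0)]⟩⟩,⟨true,0,⟨0,[(39,0)]⟩,⟨0,[(40,0)]⟩⟩,⟨false,1,⟨5,[(4,0),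
  (1,1),(7,2),(6,1),(1,2),(0,5),(7,1),(9,2)]⟩,⟨0,[(1,0),(24,0),(13,0)]⟩⟩,[.o ⟨false,0,⟨16,[(4,2),(1,
  1),(3,5),(4,2),(5,6)]⟩,⟨1,[(29,1),(5,0),(6,0)]⟩⟩,.o ⟨false,1,⟨7,[(21,3),(0,0),(0,0),(11,1),(6,
  3)]⟩,⟨0,[(26,0)]⟩⟩,.o ⟨false,1,⟨1,[(25,1),(9,0),(5,0)]⟩,⟨1,[(4,0),(9,0),(9,1)]⟩⟩,.a ⟨true,0,⟨0,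
  [(25,0)]⟩,⟨0,[(24,0)]⟩⟩ ⟨false,0,⟨5,[(1,2),(0,2),(1,1),(1,0),(3,0),(3,0),(9,2)]⟩,⟨1,[(23,0),(6,0),
  (0,0),(10,0)]⟩⟩ ⟨true,0,⟨16,[(4,2),(1,1),(3,5),(4,2),(5,6),(2,16)]⟩,⟨0,[(25,0),(0,0)]⟩⟩]⟩) (.R ⟨0,
  false,false,false,[1,0,0,-1],[0,0,1],[0,1,0,0,0,0,0,0,-1],(⟨0,[(24,0)]⟩,⟨0,[(25,0)]⟩),(⟨0,[(34,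
  0)]⟩,⟨0,[(33,0)]⟩),⟨0,[(0,0)]⟩,.k,.k,(.x (-1) ⟨7,[(7,3),(14,2),(0,2),(11,1)]⟩ ⟨0,[(37,0)]⟩),.k,.k,
  .k,⟨false,0,⟨11,[(1,5),(0,5),(3,0),(2,3),(4,2),(1,4),(2,2),(4,5)]⟩,⟨1,[(23,0),(8,1),(9,0)]⟩⟩,
  ⟨true,0,⟨0,[(24,0),(5,0)]⟩,⟨0,[(4,0),(20,0)]⟩⟩,⟨true,0,⟨0,[(44,0)]⟩,⟨0,[]⟩⟩,⟨false,1,⟨5,[(14,1),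
  (6,2),(1,2),(0,5),(2,0),(3,0),(10,2)]⟩,⟨0,[(1,0),(24,0)]⟩⟩,⟨false,0,⟨0,[]⟩,⟨0,[]⟩⟩,⟨false,0,⟨0,
  []⟩,⟨0,[]⟩⟩,[.o ⟨false,0,⟨16,[(4,2),(1,1),(3,5),(4,2),(5,6)]⟩,⟨1,[(29,1),(5,0),(6,0)]⟩⟩,.o ⟨false,
  1,⟨7,[(21,3),(0,0),(0,0),(11,1),(6,3)]⟩,⟨0,[(26,0)]⟩⟩,.o ⟨false,1,⟨1,[(25,1),(9,0),(5,0)]⟩,⟨1,[(4,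
  0),(9,0),(9,1)]⟩⟩,.a ⟨true,0,⟨0,[(25,0)]⟩,⟨0,[(24,0)]⟩⟩ ⟨false,0,⟨5,[(1,2),(0,2),(1,1),(1,0),(3,
  0),(3,0),(9,2)]⟩,⟨1,[(23,0),(6,0),(0,0),(10,0)]⟩⟩ ⟨true,0,⟨16,[(4,2),(1,1),(3,5),(4,2),(5,6),(2,
  16)]⟩,⟨0,[(25,0),(0,0)]⟩⟩]⟩))) (.Q [0,-1,1,0,0,0,0,0,1,0,0,-1] (.p false [0,0,0,1] [] (⟨0,[(23,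
  0)]⟩,⟨0,[(22,0)]⟩) .k 0 (⟨0,[]⟩,⟨0,[]⟩) .k .k) (.Q [0,0,0,0,0,-1,0,0,0,1,0,-1] (.p false [0,0,0,
  1] [1] (⟨0,[(24,0)]⟩,⟨0,[(23,0)]⟩) .k 1 (⟨0,[]⟩,⟨0,[]⟩) .k .k) (.R ⟨1,false,false,false,[1,0,0,
  -1],[0,0,1],[1,1,0,0,0,0,0,0,-1],(⟨0,[(24,0)]⟩,⟨0,[(25,0)]⟩),(⟨0,[(34,0)]⟩,⟨0,[(33,0)]⟩),⟨0,[(0,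
  0)]⟩,.k,.k,(.x (-1) ⟨7,[(7,3),(14,2),(0,2),(11,1)]⟩ ⟨0,[(37,0)]⟩),.k,(.r (-1) ⟨1,[(3,1),(18,0),
  (17,1),(1,0)]⟩ ⟨1,[(2,1),(12,0),(16,0),(6,1)]⟩),.k,⟨false,1,⟨3,[(3,3),(18,2),(0,0)]⟩,⟨4,[(1,0),(0,
  3),(1,0),(1,1),(3,0),(4,4),(9,0)]⟩⟩,⟨true,0,⟨0,[(24,0),(5,0)]⟩,⟨0,[(4,0),(20,0)]⟩⟩,⟨false,0,⟨0,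
  []⟩,⟨3,[(22,0),(0,0),(18,1)]⟩⟩,⟨false,0,⟨1,[(1,1),(19,0),(2,0),(0,0)]⟩,⟨1,[(3,1),(0,1),(17,0),(2,
  1),(16,0)]⟩⟩,⟨true,0,⟨0,[(39,0)]⟩,⟨0,[(40,0)]⟩⟩,⟨false,0,⟨0,[(1,0),(18,0)]⟩,⟨1,[(3,1),(0,1),(17,
  0),(2,1),(14,1),(1,0)]⟩⟩,[.o ⟨false,0,⟨16,[(4,2),(1,1),(3,5),(4,2),(5,6)]⟩,⟨1,[(29,1),(5,0),(6,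
  0)]⟩⟩,.o ⟨false,1,⟨7,[(21,3),(0,0),(0,0),(11,1),(6,3)]⟩,⟨0,[(26,0)]⟩⟩,.o ⟨false,1,⟨1,[(25,1),(9,
  0),(5,0)]⟩,⟨1,[(4,0),(9,0),(9,1)]⟩⟩,.a ⟨true,0,⟨0,[(25,0)]⟩,⟨0,[(24,0)]⟩⟩ ⟨false,1,⟨1,[(22,0),(18,
  0)]⟩,⟨0,[(1,0),(23,0)]⟩⟩ ⟨true,0,⟨16,[(4,2),(1,1),(3,5),(4,2),(5,6),(2,16)]⟩,⟨0,[(25,0),(0,
  0)]⟩⟩]⟩) (.R ⟨0,false,false,false,[1,0,0,-1],[0,0,1],[0,1,0,0,0,0,0,0,-1],(⟨0,[(24,0)]⟩,⟨0,[(25,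
  0)]⟩),(⟨0,[(34,0)]⟩,⟨0,[(33,0)]⟩),⟨0,[(0,0)]⟩,.k,.k,(.x (-1) ⟨7,[(7,3),(14,2),(0,2),(11,1)]⟩ ⟨0,
  [(37,0)]⟩),.k,.k,.k,⟨false,1,⟨3,[(3,3),(18,2),(0,0)]⟩,⟨12,[(0,1),(0,1),(0,10),(1,1),(1,4),(0,0),
  (2,1),(4,12)]⟩⟩,⟨true,0,⟨0,[(24,0),(5,0)]⟩,⟨0,[(4,0),(20,0)]⟩⟩,⟨true,0,⟨0,[(44,0)]⟩,⟨0,[]⟩⟩,
  ⟨false,0,⟨1,[(1,1),(19,0),(2,0),(0,0)]⟩,⟨1,[(3,1),(0,1),(17,0),(2,1),(16,0)]⟩⟩,⟨false,0,⟨0,[]⟩,⟨0,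
  []⟩⟩,⟨false,0,⟨0,[]⟩,⟨0,[]⟩⟩,[.o ⟨false,0,⟨16,[(4,2),(1,1),(3,5),(4,2),(5,6)]⟩,⟨1,[(29,1),(5,0),
  (6,0)]⟩⟩,.o ⟨false,1,⟨7,[(21,3),(0,0),(0,0),(11,1),(6,3)]⟩,⟨0,[(26,0)]⟩⟩,.o ⟨false,1,⟨1,[(25,1),
  (9,0),(5,0)]⟩,⟨1,[(4,0),(9,0),(9,1)]⟩⟩,.a ⟨true,0,⟨0,[(25,0)]⟩,⟨0,[(24,0)]⟩⟩ ⟨false,1,⟨1,[(22,0),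
  (18,0)]⟩,⟨0,[(1,0),(23,0)]⟩⟩ ⟨true,0,⟨16,[(4,2),(1,1),(3,5),(4,2),(5,6),(2,16)]⟩,⟨0,[(25,0),(0,
  0)]⟩⟩]⟩)) (.K ⟨0,[0,0,0,1],0,0,(⟨0,[(24,0)]⟩,⟨0,[(23,0)]⟩),.k,(.r 0 ⟨0,[(1,0),(0,0),(11,0)]⟩ ⟨7,
  [(1,3),(19,6),(0,0),(15,3)]⟩),(.x 0 ⟨0,[(36,0)]⟩ ⟨7,[(6,3),(14,2),(0,2),(11,1)]⟩),.k,.k,[⟨0,[(24,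
  0)]⟩,⟨0,[(23,0)]⟩,⟨0,[(0,0)]⟩,⟨2,[(1,2),(6,0),(5,0),(1,1),(6,2),(4,1),(8,0)]⟩]⟩))))) (.Q [0,0,0,0,
  0,0,-1,0,0,1,1] (.p true [1,-1,1] [] (⟨0,[(29,0),(1,0)]⟩,⟨0,[(13,0)]⟩) .k 0 (⟨0,[]⟩,⟨0,[]⟩) .k
  .k) (.K ⟨0,[1,-1,1],0,0,(⟨0,[(30,0),(1,0)]⟩,⟨0,[(14,0)]⟩),.k,(.r 0 ⟨0,[(11,0)]⟩ ⟨3,[(8,3),(1,3),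
  (4,3),(2,0),(0,0),(18,1)]⟩),.k,.k,.k,[⟨0,[(0,0)]⟩,⟨0,[(1,0)]⟩,⟨0,[(8,0),(16,0)]⟩,⟨0,[(13,0)]⟩]⟩)
  (.Q [0,-1,1,1,0,0,0,0,1,1,0,-1] (.p false [0,0,0,1] [1] (⟨0,[(21,0)]⟩,⟨0,[(20,0)]⟩) .k 1 (⟨0,[]⟩,
  ⟨0,[]⟩) .k .k) (.Q [0,1,1,0,-1,0,0,0,1,0,0,-1] (.p false [0,0,0,1] [] (⟨0,[(22,0)]⟩,⟨0,[(21,0)]⟩)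
  .k 0 (⟨0,[]⟩,⟨0,[]⟩) .k .k) (.K ⟨0,[0,0,0,1],0,(-1),(⟨0,[(23,0)]⟩,⟨0,[(22,0)]⟩),.k,(.r 0 ⟨0,[(1,
  0),(5,0),(5,0),(9,0)]⟩ ⟨11,[(4,3),(7,3),(7,8),(0,2),(7,3)]⟩),(.x 0 ⟨0,[(35,0)]⟩ ⟨7,[(5,3),(14,2),
  (0,2),(11,1)]⟩),.k,.k,[⟨0,[(23,0)]⟩,⟨0,[(22,0)]⟩,⟨1,[(20,0),(2,1),(15,0),(2,1)]⟩,⟨0,[(0,0)]⟩]⟩)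
  (.Q [0,0,0,0,0,-1,0,0,0,1,0,-1] (.p false [0,0,0,1] [1] (⟨0,[(23,0)]⟩,⟨0,[(22,0)]⟩) .k 1 (⟨0,[]⟩,
  ⟨0,[]⟩) .k .k) (.I [0,-1,-1,-1,1,0,0,0,-1] (.R ⟨1,false,false,true,[1,0,0,-1],[1,0,-1],[0,0,0,-1,
  0,0,0,0,-1],(⟨0,[(24,0)]⟩,⟨0,[(25,0)]⟩),(⟨0,[(33,0)]⟩,⟨0,[(34,0)]⟩),⟨0,[(1,0)]⟩,.k,.k,(.x (-1) ⟨7,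
  [(7,3),(14,2),(0,2),(11,1)]⟩ ⟨0,[(37,0)]⟩),.k,(.r (-1) ⟨3,[(15,1),(6,2),(0,0),(8,1)]⟩ ⟨0,[(3,0),
  (5,0),(15,0)]⟩),.k,⟨false,1,⟨1,[(15,0),(6,0),(9,0),(9,0)]⟩,⟨3,[(3,3),(5,3),(5,0),(0,0),(8,3),(12,
  1),(5,0)]⟩⟩,⟨true,0,⟨0,[(24,0),(2,0)]⟩,⟨0,[(5,0),(19,0)]⟩⟩,⟨true,0,⟨0,[(40,0)]⟩,⟨0,[(39,0)]⟩⟩,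
  ⟨false,0,⟨0,[(3,0),(22,0),(13,0)]⟩,⟨2,[(2,2),(1,0),(16,0),(10,0)]⟩⟩,⟨false,1,⟨3,[(22,0),(0,0),(18,
  1)]⟩,⟨0,[]⟩⟩,⟨false,0,⟨0,[(3,0),(22,0)]⟩,⟨2,[(2,2),(11,0),(0,0),(5,0),(18,0)]⟩⟩,[.o ⟨false,0,⟨0,
  [(26,0)]⟩,⟨7,[(21,3),(0,0),(0,0),(11,1),(6,3)]⟩⟩,.o ⟨false,1,⟨1,[(29,1),(5,0),(6,0)]⟩,⟨2,[(4,0),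
  (16,0),(10,0)]⟩⟩,.o ⟨false,1,⟨1,[(25,1),(9,0),(5,0)]⟩,⟨3,[(4,0),(9,0),(9,3),(2,1)]⟩⟩,.a ⟨true,0,
  ⟨0,[(25,0)]⟩,⟨0,[(24,0)]⟩⟩ ⟨false,1,⟨0,[(0,0)]⟩,⟨2,[(3,2),(5,0),(7,0),(7,2),(1,0),(10,0)]⟩⟩ ⟨true,
  0,⟨0,[(24,0),(1,0)]⟩,⟨2,[(4,0),(16,0),(3,2),(6,0)]⟩⟩]⟩) (.Q [0,1,1,-1,-1,0,0,0,1,0,0,-1] (.p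
  false [0,0,0,1] [] (⟨0,[(25,0)]⟩,⟨0,[(24,0)]⟩) .k 0 (⟨0,[]⟩,⟨0,[]⟩) .k .k) (.R ⟨2,false,false,
  true,[0,1],[0,0,0,1],[],(⟨0,[]⟩,⟨0,[]⟩),(⟨0,[(26,0)]⟩,⟨0,[(25,0)]⟩),⟨0,[]⟩,.k,.k,.k,(.r (-1) ⟨11,
  [(7,3),(7,3),(7,8),(0,2),(7,3)]⟩ ⟨0,[(4,0),(5,0),(5,0),(9,0)]⟩),.k,.k,⟨true,1,⟨1,[(23,0),(19,0)]⟩,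
  ⟨1,[(0,0),(0,0),(24,0)]⟩⟩,⟨false,0,⟨3,[(5,0),(9,0),(9,3),(2,1)]⟩,⟨0,[(26,0),(15,0)]⟩⟩,⟨false,1,⟨7,
  [(16,3),(0,3),(5,0),(0,0),(18,5)]⟩,⟨2,[(7,0),(7,0),(16,0)]⟩⟩,⟨true,(-1),⟨0,[(0,0)]⟩,⟨0,[(3,0),(36,
  0)]⟩⟩,⟨false,1,⟨1,[(42,0),(0,0)]⟩,⟨1,[(31,0),(0,0)]⟩⟩,⟨false,0,⟨7,[(0,3),(3,3),(18,0),(0,0),(11,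
  1)]⟩,⟨0,[(3,0)]⟩⟩,[.a ⟨true,(-1),⟨0,[(0,0),(12,0)]⟩,⟨0,[(3,0)]⟩⟩ ⟨false,1,⟨3,[(23,0),(0,0),(17,
  1)]⟩,⟨0,[]⟩⟩ ⟨true,(-1),⟨2,[(0,2),(6,0),(7,0),(16,0)]⟩,⟨0,[(3,0)]⟩⟩,.o ⟨false,0,⟨7,[(0,3),(3,3),
  (18,0),(0,0),(11,1)]⟩,⟨2,[(3,2),(6,0),(7,0),(9,0),(10,0)]⟩⟩,.o ⟨false,1,⟨3,[(23,0),(0,0),(17,1)]⟩,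
  ⟨0,[(14,0)]⟩⟩,.e ⟨false,1,⟨1,[(42,0),(0,0)]⟩,⟨1,[(31,0),(0,0)]⟩⟩ ⟨false,0,⟨7,[(0,3),(3,3),(18,0),
  (0,0),(11,1)]⟩,⟨0,[(3,0)]⟩⟩]⟩) (.I [0,0,-2,-2,0,0,0,0,1] (.Q [0,1,1,-2,-1,0,0,0,1,0,0,-1] (.p
  false [0,0,0,1] [] (⟨0,[(27,0)]⟩,⟨0,[(26,0)]⟩) .k 0 (⟨0,[]⟩,⟨0,[]⟩) .k .k) (.R ⟨1,false,false,
  false,[1,-1],[1,0,0,-1],[0,1,1],(⟨0,[(39,0)]⟩,⟨0,[(40,0)]⟩),(⟨0,[(27,0)]⟩,⟨0,[(28,0)]⟩),⟨0,[(10,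
  0)]⟩,.k,.k,(.r (-1) ⟨3,[(1,3),(23,2),(0,0)]⟩ ⟨2,[(9,1),(7,1),(16,1)]⟩),(.r 0 ⟨9,[(1,5),(1,1),(22,
  0),(18,0)]⟩ ⟨11,[(9,3),(7,3),(7,8),(0,2),(7,3)]⟩),(.r 0 ⟨0,[(1,0)]⟩ ⟨11,[(9,7),(7,7),(7,8),(0,2),
  (7,7)]⟩),.k,⟨true,(-1),⟨2,[(0,0),(2,1),(24,0)]⟩,⟨1,[(25,0),(19,0)]⟩⟩,⟨false,1,⟨1,[(1,0),(0,0),(25,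
  0),(12,0),(2,0)]⟩,⟨2,[(17,1),(9,2),(2,0),(3,0)]⟩⟩,⟨false,0,⟨5,[(9,0),(5,2),(1,3),(16,3)]⟩,⟨5,[(1,
  1),(0,1),(9,1),(5,1),(8,1),(16,0),(0,2)]⟩⟩,⟨false,1,⟨0,[(2,0)]⟩,⟨5,[(0,3),(5,1),(18,0),(0,0),(11,
  0),(6,0)]⟩⟩,⟨false,0,⟨2,[(9,1),(7,1),(16,1)]⟩,⟨1,[(1,1),(23,0),(19,0)]⟩⟩,⟨true,1,⟨0,[(2,0),(39,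
  0)]⟩,⟨0,[(0,0)]⟩⟩,[.o ⟨false,1,⟨1,[(2,0),(2,0),(14,0),(8,0)]⟩,⟨45,[(0,15),(5,23),(10,1),(8,2),(0,
  5),(2,1),(7,12),(3,7)]⟩⟩,.a ⟨true,1,⟨0,[(5,0)]⟩,⟨1,[(0,0),(2,0),(11,0),(11,0)]⟩⟩ ⟨true,0,⟨1,[(33,
  0),(0,0)]⟩,⟨0,[]⟩⟩ ⟨false,2,⟨0,[(5,0),(38,0)]⟩,⟨2,[(0,0),(2,1),(13,0),(9,1),(2,0)]⟩⟩,.o ⟨false,0,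
  ⟨0,[(16,0)]⟩,⟨3,[(25,0),(0,0),(17,1)]⟩⟩,.o ⟨false,0,⟨2,[(17,1),(12,0),(3,0)]⟩,⟨0,[(44,0)]⟩⟩]⟩)
  (.I [1,1,-1,-1,0,0,0,-1] (.R ⟨1,false,false,false,[1,0,0,-1],[1,0,-1],[1,0,0,0,0,0,0,0,-1],(⟨0,
  [(28,0)]⟩,⟨0,[(29,0)]⟩),(⟨0,[(37,0)]⟩,⟨0,[(38,0)]⟩),⟨0,[(5,0)]⟩,.k,.k,(.x (-1) ⟨7,[(11,3),(14,2),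
  (0,2),(11,1)]⟩ ⟨0,[(41,0)]⟩),.k,(.r (-1) ⟨3,[(19,1),(6,2),(0,0),(8,1)]⟩ ⟨0,[(7,0),(5,0),(15,0)]⟩),
  .k,⟨false,1,⟨1,[(26,0),(9,1),(8,0)]⟩,⟨0,[(0,0),(3,0),(41,0)]⟩⟩,⟨true,0,⟨0,[(28,0),(2,0)]⟩,⟨0,[(9,
  0),(19,0)]⟩⟩,⟨true,0,⟨0,[]⟩,⟨0,[(48,0)]⟩⟩,⟨true,0,⟨0,[(0,0),(6,0),(23,0)]⟩,⟨2,[(1,0),(2,3),(4,2),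
  (9,2),(6,2),(2,1)]⟩⟩,⟨false,1,⟨5,[(1,1),(5,1),(18,0),(0,0),(11,0),(6,0)]⟩,⟨0,[(44,0)]⟩⟩,⟨true,0,
  ⟨0,[(7,0),(22,0)]⟩,⟨0,[(4,0),(4,0),(9,0),(6,0),(2,0)]⟩⟩,[.o ⟨false,1,⟨1,[(33,1),(5,0),(6,0)]⟩,⟨2,
  [(8,0),(16,0),(10,0)]⟩⟩,.o ⟨false,1,⟨0,[(30,0),(15,0)]⟩,⟨0,[(32,0)]⟩⟩,.o ⟨false,1,⟨1,[(29,1),(9,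
  0),(5,0)]⟩,⟨3,[(8,0),(9,0),(9,3),(2,1)]⟩⟩,.a ⟨true,0,⟨0,[(29,0)]⟩,⟨0,[(28,0)]⟩⟩ ⟨true,1,⟨1,[(26,
  0),(18,0)]⟩,⟨0,[(4,0),(39,0)]⟩⟩ ⟨false,1,⟨0,[(28,0),(1,0),(15,0)]⟩,⟨2,[(8,0),(16,0),(3,2),(6,
  0)]⟩⟩]⟩) (.R ⟨1,false,false,true,[1,0,0,-1],[0,1,1],[1,0,0,0,0,0,0,0,-1],(⟨0,[(28,0)]⟩,⟨0,[(29,
  0)]⟩),(⟨0,[(38,0),(2,0)]⟩,⟨0,[(12,0)]⟩),⟨0,[(5,0)]⟩,.k,.k,(.x (-1) ⟨7,[(11,3),(14,2),(0,2),(11,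
  1)]⟩ ⟨0,[(41,0)]⟩),(.r (-1) ⟨0,[(6,0),(6,0),(14,0),(15,0)]⟩ ⟨8,[(0,4),(3,2),(22,2),(4,0),(2,0),(0,
  2),(6,0)]⟩),(.r (-2) ⟨3,[(2,3),(17,3),(5,4),(0,0),(18,1)]⟩ ⟨0,[(0,0),(3,0)]⟩),.k,⟨false,2,⟨3,[(2,
  1),(3,1),(6,1),(6,1),(5,1),(1,1),(16,0),(0,2)]⟩,⟨0,[(4,0),(31,0)]⟩⟩,⟨true,0,⟨0,[(9,0),(18,0)]⟩,⟨0,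
  [(29,0),(1,0)]⟩⟩,⟨true,0,⟨0,[]⟩,⟨0,[(48,0)]⟩⟩,⟨true,(-1),⟨17,[(0,2),(3,17),(3,3),(10,0),(1,1),(3,
  5),(2,17),(13,0)]⟩,⟨0,[(6,0),(23,0),(13,0)]⟩⟩,⟨false,1,⟨5,[(1,1),(5,1),(18,0),(0,0),(11,0),(6,
  0)]⟩,⟨0,[(44,0)]⟩⟩,⟨true,(-1),⟨12,[(0,4),(3,12),(3,4),(1,0),(14,3),(2,12),(13,4)]⟩,⟨0,[(6,0),(23,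
  0),(13,1)]⟩⟩,[.o ⟨false,0,⟨1,[(10,0),(10,0),(10,0)]⟩,⟨0,[(30,0),(13,0),(1,0)]⟩⟩,.o ⟨false,0,⟨12,
  [(0,4),(7,4),(1,0),(14,3),(16,4)]⟩,⟨1,[(33,1),(5,0),(4,1),(1,0)]⟩⟩,.o ⟨false,1,⟨1,[(29,1),(9,0),
  (5,0)]⟩,⟨3,[(8,0),(9,0),(9,3),(2,1)]⟩⟩,.a ⟨true,0,⟨0,[(29,0)]⟩,⟨0,[(28,0)]⟩⟩ ⟨true,1,⟨1,[(26,0),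
  (18,0)]⟩,⟨0,[(4,0),(39,0)]⟩⟩ ⟨false,0,⟨12,[(0,4),(7,4),(1,0),(14,3),(2,12),(13,4)]⟩,⟨0,[(29,0),(0,
  0),(13,0),(1,0)]⟩⟩]⟩))) (.R ⟨1,false,false,true,[1,0,0,-1],[0,1,1],[0,0,0,-1,0,0,0,0,-1],(⟨0,[(26,
  0)]⟩,⟨0,[(27,0)]⟩),(⟨0,[(36,0),(2,0)]⟩,⟨0,[(10,0)]⟩),⟨0,[(3,0)]⟩,.k,.k,(.x (-1) ⟨7,[(9,3),(14,2),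
  (0,2),(11,1)]⟩ ⟨0,[(39,0)]⟩),(.r (-1) ⟨0,[(4,0),(6,0),(14,0),(15,0)]⟩ ⟨9,[(0,1),(1,5),(22,2),(8,
  9),(9,2)]⟩),(.r (-2) ⟨3,[(17,3),(0,7),(5,2),(0,0),(18,3)]⟩ ⟨0,[(0,0),(1,1),(14,0),(26,0)]⟩),.k,
  ⟨false,2,⟨1,[(17,1),(0,3),(5,0),(19,2)]⟩,⟨9,[(2,9),(3,1),(1,3),(8,0),(11,1),(4,8)]⟩⟩,⟨true,0,⟨0,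
  [(7,0),(18,0)]⟩,⟨0,[(27,0),(1,0)]⟩⟩,⟨true,0,⟨0,[(42,0)]⟩,⟨0,[(41,0)]⟩⟩,⟨true,(-1),⟨2,[(2,2),(3,0),
  (16,0),(2,2),(7,0)]⟩,⟨0,[(4,0),(23,0),(13,0)]⟩⟩,⟨false,1,⟨3,[(24,0),(0,0),(18,1)]⟩,⟨0,[]⟩⟩,⟨true,
  (-1),⟨8,[(2,8),(3,4),(1,2),(14,1),(2,8),(7,4)]⟩,⟨0,[(4,0),(23,0),(13,1)]⟩⟩,[.o ⟨false,0,⟨1,[(8,0),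
  (10,0),(10,0)]⟩,⟨0,[(28,0),(13,0),(1,0)]⟩⟩,.o ⟨false,0,⟨8,[(6,4),(1,2),(14,1),(10,4)]⟩,⟨1,[(31,1),
  (5,0),(4,1),(1,0)]⟩⟩,.o ⟨false,1,⟨1,[(27,1),(9,0),(5,0)]⟩,⟨3,[(6,0),(9,0),(9,3),(2,1)]⟩⟩,.a ⟨true,
  0,⟨0,[(27,0)]⟩,⟨0,[(26,0)]⟩⟩ ⟨true,1,⟨7,[(17,3),(0,3),(5,4),(0,0),(18,1)]⟩,⟨0,[(2,0)]⟩⟩ ⟨false,0,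
  ⟨8,[(6,4),(1,2),(14,1),(2,8),(7,4)]⟩,⟨0,[(27,0),(0,0),(13,0),(1,0)]⟩⟩]⟩)))) (.I [1,-1,1,0,0,0,0,0,
  1] (.R ⟨0,false,false,false,[1,0,0,-1],[0,1,1],[0,1,0,0,0,0,0,0,-1],(⟨0,[(24,0)]⟩,⟨0,[(25,0)]⟩),
  (⟨0,[(34,0),(2,0)]⟩,⟨0,[(8,0)]⟩),⟨0,[(1,0)]⟩,.k,.k,(.x (-1) ⟨7,[(7,3),(14,2),(0,2),(11,1)]⟩ ⟨0,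
  [(37,0)]⟩),(.r (-1) ⟨0,[(2,0),(6,0),(14,0),(15,0)]⟩ ⟨0,[(0,0),(31,0),(6,0)]⟩),.k,.k,⟨false,1,⟨3,
  [(2,1),(6,1),(5,1),(0,3),(5,0),(1,1),(16,0)]⟩,⟨9,[(0,9),(3,1),(1,3),(8,0),(11,1),(4,8)]⟩⟩,⟨true,0,
  ⟨0,[(5,0),(18,0)]⟩,⟨0,[(25,0),(1,0)]⟩⟩,⟨true,0,⟨0,[(44,0)]⟩,⟨0,[]⟩⟩,⟨false,0,⟨2,[(3,2),(0,0),(16,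
  0),(10,0)]⟩,⟨0,[(2,0),(23,0),(13,0)]⟩⟩,⟨false,0,⟨0,[]⟩,⟨0,[]⟩⟩,⟨false,0,⟨0,[]⟩,⟨0,[]⟩⟩,[.o ⟨false,
  0,⟨8,[(4,4),(1,2),(14,1),(10,4)]⟩,⟨1,[(29,1),(5,0),(4,1),(1,0)]⟩⟩,.o ⟨false,1,⟨23,[(6,7),(14,11),
  (0,0),(0,0),(11,9),(6,11)]⟩,⟨0,[(26,0),(13,0)]⟩⟩,.o ⟨false,1,⟨1,[(25,1),(9,0),(5,0)]⟩,⟨3,[(4,0),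
  (9,0),(9,3),(2,1)]⟩⟩,.a ⟨true,0,⟨0,[(25,0)]⟩,⟨0,[(24,0)]⟩⟩ ⟨false,1,⟨1,[(22,0),(18,0)]⟩,⟨0,[(0,
  0)]⟩⟩ ⟨true,0,⟨8,[(4,4),(1,2),(14,1),(2,8),(7,4)]⟩,⟨0,[(25,0),(0,0),(13,0)]⟩⟩]⟩) (.K ⟨0,[0,0,0,1],
  0,0,(⟨0,[(25,0)]⟩,⟨0,[(24,0)]⟩),.k,(.r 0 ⟨0,[(3,0),(5,0),(5,0),(9,0)]⟩ ⟨11,[(6,3),(7,3),(7,8),(0,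
  2),(7,3)]⟩),(.x 0 ⟨0,[(37,0)]⟩ ⟨7,[(7,3),(14,2),(0,2),(11,1)]⟩),.k,.k,[⟨0,[(25,0)]⟩,⟨0,[(24,0)]⟩,
  ⟨0,[(0,0),(24,0)]⟩,⟨0,[(3,0),(13,0),(11,0)]⟩]⟩)))) (.Q [0,1,1,0,0,0,0,0,1,0,0,-1] (.p false [0,0,
  0,1] [] (⟨0,[(22,0)]⟩,⟨0,[(21,0)]⟩) .k 0 (⟨0,[]⟩,⟨0,[]⟩) .k .k) (.K ⟨0,[0,0,0,1],0,0,(⟨0,[(23,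
  0)]⟩,⟨0,[(22,0)]⟩),.k,(.x 0 ⟨3,[(5,1),(6,1),(15,0),(0,2)]⟩ ⟨0,[(35,0),(3,0)]⟩),(.x 0 ⟨0,[(35,0)]⟩
  ⟨7,[(5,3),(14,2),(0,2),(11,1)]⟩),.k,.k,[⟨0,[(23,0)]⟩,⟨0,[(22,0)]⟩,⟨0,[(1,0),(8,0)]⟩,⟨0,[(0,
  0)]⟩]⟩) (.Q [0,0,0,0,0,1,0,0,0,-1,0,1] (.p true [0,0,0,1] [1] (⟨0,[(23,0)]⟩,⟨0,[(22,0)]⟩) .k 1
  (⟨0,[]⟩,⟨0,[]⟩) .k .k) (.R ⟨0,false,false,true,[1,0,0,-1],[1,0,-1],[0,1,0,0,0,0,0,0,-1],(⟨0,[(23,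
  0)]⟩,⟨0,[(24,0)]⟩),(⟨0,[(32,0)]⟩,⟨0,[(33,0)]⟩),⟨0,[(0,0)]⟩,.k,.k,(.x (-1) ⟨7,[(6,3),(14,2),(0,2),
  (11,1)]⟩ ⟨0,[(36,0)]⟩),.k,.k,.k,⟨false,0,⟨1,[(1,1),(14,0),(6,1),(2,0),(4,0),(5,0)]⟩,⟨1,[(15,1),(6,
  0),(18,0)]⟩⟩,⟨true,0,⟨0,[(23,0),(2,0)]⟩,⟨0,[(4,0),(19,0)]⟩⟩,⟨true,0,⟨0,[(43,0)]⟩,⟨0,[]⟩⟩,⟨false,1,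
  ⟨5,[(13,1),(8,2),(0,5),(1,1),(0,1),(1,3),(12,2)]⟩,⟨2,[(1,2),(1,0),(16,0),(10,0)]⟩⟩,⟨false,0,⟨0,
  []⟩,⟨0,[]⟩⟩,⟨false,0,⟨0,[]⟩,⟨0,[]⟩⟩,[.o ⟨false,0,⟨0,[(25,0)]⟩,⟨7,[(20,3),(0,0),(0,0),(11,1),(6,
  3)]⟩⟩,.o ⟨false,1,⟨1,[(28,1),(5,0),(6,0)]⟩,⟨2,[(3,0),(16,0),(10,0)]⟩⟩,.o ⟨false,1,⟨1,[(24,1),(9,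
  0),(5,0)]⟩,⟨3,[(3,0),(9,0),(9,3),(2,1)]⟩⟩,.a ⟨true,0,⟨0,[(24,0)]⟩,⟨0,[(23,0)]⟩⟩ ⟨false,0,⟨2,[(1,
  1),(0,0),(0,0),(19,2),(2,0),(10,0)]⟩,⟨1,[(22,0),(6,0),(0,0),(10,0)]⟩⟩ ⟨true,0,⟨0,[(23,0),(1,0)]⟩,
  ⟨2,[(3,0),(16,0),(3,2),(6,0)]⟩⟩]⟩) (.R ⟨1,false,false,true,[1,0,0,-1],[1,0,-1],[0,1,0,-1,0,0,0,0,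
  -1],(⟨0,[(23,0)]⟩,⟨0,[(24,0)]⟩),(⟨0,[(32,0)]⟩,⟨0,[(33,0)]⟩),⟨0,[(0,0)]⟩,.k,.k,(.x (-1) ⟨7,[(6,3),
  (14,2),(0,2),(11,1)]⟩ ⟨0,[(36,0)]⟩),.k,(.r 0 ⟨5,[(1,3),(0,1),(11,0),(1,1),(6,5),(2,1),(4,2)]⟩ ⟨1,
  [(18,1),(3,0),(6,1),(11,0)]⟩),.k,⟨false,0,⟨5,[(1,3),(0,1),(11,0),(1,1),(6,5),(2,1),(4,2)]⟩,⟨5,[(5,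
  1),(2,1),(6,3),(6,2),(18,2)]⟩⟩,⟨true,0,⟨0,[(23,0),(2,0)]⟩,⟨0,[(4,0),(19,0)]⟩⟩,⟨false,0,⟨0,[(39,
  0)]⟩,⟨5,[(5,1),(15,0),(0,0),(11,0),(6,2)]⟩⟩,⟨false,1,⟨5,[(13,1),(8,2),(0,5),(1,1),(0,1),(1,3),(12,
  2)]⟩,⟨2,[(1,2),(1,0),(16,0),(10,0)]⟩⟩,⟨true,0,⟨0,[(43,0)]⟩,⟨0,[]⟩⟩,⟨false,1,⟨17,[(5,1),(2,5),(4,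
  3),(4,11),(3,8),(0,17),(2,9),(14,8)]⟩,⟨2,[(1,2),(11,0),(0,0),(5,0),(18,0)]⟩⟩,[.o ⟨false,0,⟨0,[(25,
  0)]⟩,⟨7,[(20,3),(0,0),(0,0),(11,1),(6,3)]⟩⟩,.o ⟨false,1,⟨1,[(28,1),(5,0),(6,0)]⟩,⟨2,[(3,0),(16,0),
  (10,0)]⟩⟩,.o ⟨false,1,⟨1,[(24,1),(9,0),(5,0)]⟩,⟨3,[(3,0),(9,0),(9,3),(2,1)]⟩⟩,.a ⟨true,0,⟨0,[(24,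
  0)]⟩,⟨0,[(23,0)]⟩⟩ ⟨false,0,⟨10,[(1,6),(0,3),(5,2),(4,1),(0,2),(8,10),(2,1),(12,0)]⟩,⟨5,[(5,1),(7,
  1),(8,2),(7,1),(10,2)]⟩⟩ ⟨true,0,⟨0,[(23,0),(1,0)]⟩,⟨2,[(3,0),(16,0),(3,2),(6,0)]⟩⟩]⟩))))))) (.Q
  [0,0,0,0,0,0,1,0,0,1,-1] (.p false [0,0,1] [1] (⟨0,[(27,0)]⟩,⟨0,[(26,0)]⟩) .k 1 (⟨0,[]⟩,⟨0,[]⟩)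
  .k .k) (.Q [0,0,0,0,0,0,-1,0,0,0,1] (.p true [0,0,1] [] (⟨0,[(28,0)]⟩,⟨0,[(27,0)]⟩) .k 0 (⟨0,[]⟩,
  ⟨0,[]⟩) .k .k) (.K ⟨0,[1,-1,-1],0,0,(⟨0,[(3,0)]⟩,⟨0,[(29,0),(2,0)]⟩),.k,(.r (-1) ⟨0,[(10,0),(0,1),
  (25,0)]⟩ ⟨5,[(6,2),(2,1),(5,5),(6,6),(3,0)]⟩),.k,.k,.k,[⟨0,[(1,0)]⟩,⟨0,[(0,0)]⟩,⟨0,[(15,0),(23,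
  0)]⟩,⟨0,[(21,0),(13,0)]⟩]⟩) (.Q [0,0,0,0,0,0,-1,0,0,1,1] (.p true [1,-1,1] [] (⟨0,[(29,0),(1,0)]⟩,
  ⟨0,[(13,0)]⟩) .k 0 (⟨0,[]⟩,⟨0,[]⟩) .k .k) (.K ⟨0,[1,-1,1],0,0,(⟨0,[(30,0),(1,0)]⟩,⟨0,[(14,0)]⟩),
  .k,(.r 0 ⟨0,[(11,0)]⟩ ⟨3,[(8,3),(1,3),(4,3),(2,0),(0,0),(18,1)]⟩),.k,.k,.k,[⟨0,[(0,0)]⟩,⟨0,[(1,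
  0)]⟩,⟨0,[(8,0),(16,0)]⟩,⟨0,[(13,0)]⟩]⟩) (.I [0,-1,2,1,0,0,0,1] (.R ⟨0,false,false,false,[1,-1,-1],
  [1,-1],[0,0,1],(⟨0,[(5,0)]⟩,⟨0,[(31,0),(2,0)]⟩),(⟨0,[(33,0)]⟩,⟨0,[(34,0)]⟩),⟨0,[(4,0),(26,0)]⟩,.k,
  .k,(.r (-1) ⟨0,[(12,0),(0,1),(25,0)]⟩ ⟨0,[(0,0),(35,0)]⟩),.k,.k,.k,⟨false,0,⟨3,[(0,0),(7,0),(2,0),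
  (4,0)]⟩,⟨7,[(12,3),(0,3),(5,0),(0,0),(17,3),(0,1)]⟩⟩,⟨true,0,⟨0,[(2,0)]⟩,⟨0,[(28,0)]⟩⟩,⟨false,0,
  ⟨0,[(0,0)]⟩,⟨1,[(6,0),(1,0),(3,1),(0,2),(25,1)]⟩⟩,⟨true,0,⟨2,[(1,0),(16,0),(10,0)]⟩,⟨0,[(26,0)]⟩⟩,
  ⟨false,0,⟨0,[]⟩,⟨0,[]⟩⟩,⟨false,0,⟨0,[]⟩,⟨0,[]⟩⟩,[.a ⟨true,0,⟨0,[(37,0)]⟩,⟨0,[(9,0)]⟩⟩ ⟨true,0,⟨3,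
  [(3,0),(7,0),(16,1)]⟩,⟨0,[]⟩⟩ ⟨false,1,⟨7,[(1,1),(1,5),(2,3),(5,3),(6,0),(0,0),(17,3),(0,1)]⟩,⟨1,
  [(8,0),(15,0),(3,0)]⟩⟩,.o ⟨false,1,⟨1,[(32,0),(4,1),(1,0)]⟩,⟨0,[(36,0)]⟩⟩,.o ⟨false,0,⟨0,[(24,
  0)]⟩,⟨3,[(1,1),(1,1),(15,0),(0,0),(17,1)]⟩⟩,.o ⟨false,0,⟨2,[(11,0),(12,1),(3,1)]⟩,⟨1,[(1,0),(1,0),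
  (34,1)]⟩⟩]⟩) (.I [1,-1,-1,0,1,0,0,0,-1] (.I [0,0,1,1,0,0,0,0,-1] (.Q [0,1,1,0,0,0,0,0,1,0,0,-1]
  (.p false [0,0,0,1] [] (⟨0,[(24,0)]⟩,⟨0,[(23,0)]⟩) .k 0 (⟨0,[]⟩,⟨0,[]⟩) .k .k) (.K ⟨0,[0,0,0,1],0,
  0,(⟨0,[(25,0)]⟩,⟨0,[(24,0)]⟩),.k,(.r (-1) ⟨15,[(3,3),(11,3),(6,2),(0,10),(16,3),(1,1)]⟩ ⟨0,[(1,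
  0)]⟩),(.x 0 ⟨0,[(37,0)]⟩ ⟨3,[(22,0),(0,0),(11,1),(0,3)]⟩),.k,.k,[⟨0,[(25,0)]⟩,⟨0,[(24,0)]⟩,⟨6,[(1,
  6),(1,2),(11,2),(9,6),(12,1),(5,1)]⟩,⟨0,[(0,0)]⟩]⟩) (.Q [0,0,0,0,0,1,0,0,0,-1,0,1] (.p true [0,0,
  0,1] [1] (⟨0,[(25,0)]⟩,⟨0,[(24,0)]⟩) .k 1 (⟨0,[]⟩,⟨0,[]⟩) .k .k) (.R ⟨0,false,false,true,[1,0,0,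
  -1],[1,0,-1],[0,1,0,0,0,0,0,0,-1],(⟨0,[(25,0)]⟩,⟨0,[(26,0)]⟩),(⟨0,[(34,0)]⟩,⟨0,[(35,0)]⟩),⟨0,[(0,
  0)]⟩,.k,.k,(.x (-1) ⟨3,[(23,0),(0,0),(11,1),(0,3)]⟩ ⟨0,[(38,0)]⟩),.k,.k,.k,⟨false,0,⟨9,[(1,3),(0,
  5),(2,1),(10,4),(8,3),(2,1),(4,4),(5,3)]⟩,⟨1,[(17,1),(6,0),(18,0)]⟩⟩,⟨true,0,⟨0,[(25,0),(2,0)]⟩,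
  ⟨1,[(5,0),(1,0),(18,1)]⟩⟩,⟨true,0,⟨0,[(45,0)]⟩,⟨0,[]⟩⟩,⟨false,1,⟨5,[(15,1),(8,2),(0,5),(1,1),(0,
  1),(1,3),(12,2)]⟩,⟨2,[(1,2),(3,0),(16,0),(10,0)]⟩⟩,⟨false,0,⟨0,[]⟩,⟨0,[]⟩⟩,⟨false,0,⟨0,[]⟩,⟨0,
  []⟩⟩,[.o ⟨false,0,⟨0,[(27,0)]⟩,⟨7,[(22,3),(0,0),(0,0),(11,1),(6,3)]⟩⟩,.o ⟨false,1,⟨1,[(30,1),(5,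
  0),(6,0)]⟩,⟨2,[(5,0),(16,0),(10,0)]⟩⟩,.o ⟨false,1,⟨1,[(26,1),(9,0),(5,0)]⟩,⟨3,[(5,0),(9,0),(9,3),
  (2,1)]⟩⟩,.a ⟨true,0,⟨0,[(26,0)]⟩,⟨0,[(25,0)]⟩⟩ ⟨false,0,⟨18,[(1,9),(0,8),(1,0),(0,4),(10,5),(8,9),
  (1,4),(11,3)]⟩,⟨3,[(7,0),(7,0),(8,1),(7,1),(10,1)]⟩⟩ ⟨true,0,⟨0,[(25,0),(1,0)]⟩,⟨2,[(5,0),(16,0),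
  (3,2),(6,0)]⟩⟩]⟩) (.R ⟨1,false,false,true,[1,0,0,-1],[1,0,-1],[0,1,0,-1,0,0,0,0,-1],(⟨0,[(25,0)]⟩,
  ⟨0,[(26,0)]⟩),(⟨0,[(34,0)]⟩,⟨0,[(35,0)]⟩),⟨0,[(0,0)]⟩,.k,.k,(.x (-1) ⟨3,[(23,0),(0,0),(11,1),(0,
  3)]⟩ ⟨0,[(38,0)]⟩),.k,(.r 0 ⟨0,[(2,0),(13,0)]⟩ ⟨1,[(7,0),(7,0),(4,1),(3,0),(18,0)]⟩),.k,⟨false,0,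
  ⟨0,[(2,0),(13,0)]⟩,⟨1,[(10,0),(1,0),(4,0),(6,0),(18,0)]⟩⟩,⟨true,0,⟨0,[(25,0),(2,0)]⟩,⟨1,[(5,0),(1,
  0),(18,1)]⟩⟩,⟨false,0,⟨0,[(41,0)]⟩,⟨7,[(12,3),(10,0),(0,0),(11,1),(6,3)]⟩⟩,⟨false,1,⟨5,[(15,1),(8,
  2),(0,5),(1,1),(0,1),(1,3),(12,2)]⟩,⟨2,[(1,2),(3,0),(16,0),(10,0)]⟩⟩,⟨true,0,⟨0,[(45,0)]⟩,⟨0,[]⟩⟩,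
  ⟨false,1,⟨3,[(5,0),(9,0),(4,3),(3,1),(0,3),(2,1),(14,1)]⟩,⟨2,[(1,2),(13,0),(0,0),(5,0),(18,0)]⟩⟩,
  [.o ⟨false,0,⟨0,[(27,0)]⟩,⟨7,[(22,3),(0,0),(0,0),(11,1),(6,3)]⟩⟩,.o ⟨false,1,⟨1,[(30,1),(5,0),(6,
  0)]⟩,⟨2,[(5,0),(16,0),(10,0)]⟩⟩,.o ⟨false,1,⟨1,[(26,1),(9,0),(5,0)]⟩,⟨3,[(5,0),(9,0),(9,3),(2,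
  1)]⟩⟩,.a ⟨true,0,⟨0,[(26,0)]⟩,⟨0,[(25,0)]⟩⟩ ⟨false,0,⟨1,[(1,0),(0,0),(7,0),(5,0),(8,0),(15,0)]⟩,
  ⟨5,[(12,2),(2,1),(8,2),(3,0),(3,0),(10,2)]⟩⟩ ⟨true,0,⟨0,[(25,0),(1,0)]⟩,⟨2,[(5,0),(16,0),(3,2),(6,
  0)]⟩⟩]⟩))) (.Q [0,1,-1,0,0,0,0,0,-1,0,0,1] (.p true [0,0,0,1] [] (⟨0,[(24,0)]⟩,⟨0,[(23,0)]⟩) .k 0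
  (⟨0,[]⟩,⟨0,[]⟩) .k .k) (.K ⟨0,[0,0,0,1],0,0,(⟨0,[(25,0)]⟩,⟨0,[(24,0)]⟩),.k,(.x 0 ⟨2,[(14,1),(12,
  0),(3,0),(4,2)]⟩ ⟨0,[(37,0),(3,0)]⟩),(.x 0 ⟨0,[(37,0)]⟩ ⟨3,[(22,0),(0,0),(11,1),(0,3)]⟩),.k,.k,
  [⟨0,[(25,0)]⟩,⟨0,[(24,0)]⟩,⟨0,[(0,0)]⟩,⟨2,[(1,2),(12,1),(9,2),(2,0),(3,0),(7,2)]⟩]⟩) (.Q [0,0,0,0,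
  0,-1,0,0,0,1,0,-1] (.p false [0,0,0,1] [1] (⟨0,[(25,0)]⟩,⟨0,[(24,0)]⟩) .k 1 (⟨0,[]⟩,⟨0,[]⟩) .k
  .k) (.R ⟨1,false,false,true,[1,0,0,-1],[1,0,-1],[1,0,0,0,0,0,0,0,-1],(⟨0,[(25,0)]⟩,⟨0,[(26,0)]⟩),
  (⟨0,[(34,0)]⟩,⟨0,[(35,0)]⟩),⟨0,[(0,0)]⟩,.k,.k,(.x (-1) ⟨3,[(23,0),(0,0),(11,1),(0,3)]⟩ ⟨0,[(38,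
  0)]⟩),.k,(.r (-1) ⟨3,[(16,1),(6,2),(0,0),(8,1)]⟩ ⟨1,[(1,1),(8,0),(1,0),(4,0),(8,1)]⟩),.k,⟨false,1,
  ⟨0,[(3,0),(29,0)]⟩,⟨1,[(2,1),(4,0),(7,0),(4,1)]⟩⟩,⟨true,0,⟨0,[(25,0),(2,0)]⟩,⟨1,[(5,0),(1,0),(18,
  1)]⟩⟩,⟨true,0,⟨0,[]⟩,⟨0,[(45,0)]⟩⟩,⟨false,0,⟨0,[(1,0),(28,0)]⟩,⟨2,[(3,2),(1,0),(16,0),(3,2),(6,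
  0)]⟩⟩,⟨false,1,⟨7,[(12,3),(10,0),(0,0),(11,1),(6,3)]⟩,⟨0,[(41,0)]⟩⟩,⟨false,0,⟨0,[(1,0),(18,0)]⟩,
  ⟨7,[(5,2),(1,0),(8,3),(5,1),(0,3),(2,7),(16,3)]⟩⟩,[.o ⟨false,0,⟨0,[(27,0)]⟩,⟨7,[(22,3),(0,0),(0,
  0),(11,1),(6,3)]⟩⟩,.o ⟨false,1,⟨1,[(30,1),(5,0),(6,0)]⟩,⟨2,[(5,0),(16,0),(10,0)]⟩⟩,.o ⟨false,1,⟨1,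
  [(26,1),(9,0),(5,0)]⟩,⟨3,[(5,0),(9,0),(9,3),(2,1)]⟩⟩,.a ⟨true,0,⟨0,[(26,0)]⟩,⟨0,[(25,0)]⟩⟩ ⟨false,
  1,⟨0,[(3,0)]⟩,⟨0,[(1,0),(24,0),(18,0)]⟩⟩ ⟨true,0,⟨0,[(25,0),(1,0)]⟩,⟨2,[(5,0),(16,0),(3,2),(6,
  0)]⟩⟩]⟩) (.R ⟨0,false,false,true,[1,0,0,-1],[1,0,-1],[1,0,0,0,0,0,0,0,-1],(⟨0,[(25,0)]⟩,⟨0,[(26,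
  0)]⟩),(⟨0,[(34,0)]⟩,⟨0,[(35,0)]⟩),⟨0,[(0,0)]⟩,.k,.k,(.x (-1) ⟨3,[(23,0),(0,0),(11,1),(0,3)]⟩ ⟨0,
  [(38,0)]⟩),.k,.k,.k,⟨false,1,⟨0,[(3,0),(29,0)]⟩,⟨1,[(2,1),(4,0),(7,0),(4,1)]⟩⟩,⟨true,0,⟨0,[(25,0),
  (2,0)]⟩,⟨1,[(5,0),(1,0),(18,1)]⟩⟩,⟨true,0,⟨0,[]⟩,⟨0,[(45,0)]⟩⟩,⟨false,0,⟨0,[(1,0),(28,0)]⟩,⟨2,[(3,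
  2),(1,0),(16,0),(3,2),(6,0)]⟩⟩,⟨false,0,⟨0,[]⟩,⟨0,[]⟩⟩,⟨false,0,⟨0,[]⟩,⟨0,[]⟩⟩,[.o ⟨false,0,⟨0,
  [(27,0)]⟩,⟨7,[(22,3),(0,0),(0,0),(11,1),(6,3)]⟩⟩,.o ⟨false,1,⟨1,[(30,1),(5,0),(6,0)]⟩,⟨2,[(5,0),
  (16,0),(10,0)]⟩⟩,.o ⟨false,1,⟨1,[(26,1),(9,0),(5,0)]⟩,⟨3,[(5,0),(9,0),(9,3),(2,1)]⟩⟩,.a ⟨true,0,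
  ⟨0,[(26,0)]⟩,⟨0,[(25,0)]⟩⟩ ⟨false,1,⟨0,[(3,0)]⟩,⟨0,[(1,0),(24,0),(18,0)]⟩⟩ ⟨true,0,⟨0,[(25,0),(1,
  0)]⟩,⟨2,[(5,0),(16,0),(3,2),(6,0)]⟩⟩]⟩)))) (.Q [0,1,1,0,-1,0,0,0,1,0,0,-1] (.p false [0,0,0,1] []
  (⟨0,[(23,0)]⟩,⟨0,[(22,0)]⟩) .k 0 (⟨0,[]⟩,⟨0,[]⟩) .k .k) (.K ⟨0,[0,0,0,1],0,(-1),(⟨0,[(24,0)]⟩,⟨0,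
  [(23,0)]⟩),.k,(.r 0 ⟨9,[(1,7),(0,3),(11,3),(7,0),(14,1),(3,6)]⟩ ⟨11,[(10,5),(2,3),(7,8),(0,2),(3,
  1),(3,1)]⟩),(.x 0 ⟨0,[(36,0)]⟩ ⟨3,[(21,0),(0,0),(11,1),(0,3)]⟩),.k,.k,[⟨0,[(24,0)]⟩,⟨0,[(23,0)]⟩,
  ⟨1,[(21,0),(2,1),(15,0),(2,1)]⟩,⟨0,[(0,0)]⟩]⟩) (.Q [0,0,0,0,0,1,0,0,0,-1,0,1] (.p true [0,0,0,1]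
  [1] (⟨0,[(24,0)]⟩,⟨0,[(23,0)]⟩) .k 1 (⟨0,[]⟩,⟨0,[]⟩) .k .k) (.R ⟨0,false,false,false,[1,0,0,-1],
  [1,0,-1],[1,0,1],(⟨0,[(24,0)]⟩,⟨0,[(25,0)]⟩),(⟨0,[(33,0)]⟩,⟨0,[(34,0)]⟩),⟨0,[(0,0)]⟩,.k,.k,(.x
  (-1) ⟨3,[(22,0),(0,0),(11,1),(0,3)]⟩ ⟨0,[(37,0)]⟩),.k,.k,.k,⟨false,0,⟨0,[(32,0)]⟩,⟨1,[(16,1),(24,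
  0),(0,0)]⟩⟩,⟨true,0,⟨0,[(24,0),(2,0)]⟩,⟨1,[(4,0),(1,0),(18,1)]⟩⟩,⟨false,0,⟨0,[(2,0),(39,0)]⟩,⟨1,
  [(22,0),(18,0)]⟩⟩,⟨true,0,⟨0,[(2,0),(21,0),(1,0),(15,0)]⟩,⟨0,[(2,0),(1,0),(6,0),(3,0),(6,0),(2,
  0)]⟩⟩,⟨false,0,⟨0,[]⟩,⟨0,[]⟩⟩,⟨false,0,⟨0,[]⟩,⟨0,[]⟩⟩,[.o ⟨false,1,⟨1,[(29,1),(5,0),(6,0)]⟩,⟨2,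
  [(4,0),(16,0),(10,0)]⟩⟩,.o ⟨false,1,⟨0,[(26,0),(15,0)]⟩,⟨0,[(28,0)]⟩⟩,.o ⟨false,1,⟨1,[(25,1),(9,
  0),(5,0)]⟩,⟨3,[(4,0),(9,0),(9,3),(2,1)]⟩⟩,.a ⟨true,0,⟨0,[(25,0)]⟩,⟨0,[(24,0)]⟩⟩ ⟨true,0,⟨0,[]⟩,⟨0,
  [(44,0)]⟩⟩ ⟨false,1,⟨0,[(24,0),(1,0),(15,0)]⟩,⟨2,[(4,0),(16,0),(3,2),(6,0)]⟩⟩]⟩) (.R ⟨1,false,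
  false,false,[1,0,0,-1],[1,0,-1],[1,0,0,0,0,0,0,0,-1],(⟨0,[(24,0)]⟩,⟨0,[(25,0)]⟩),(⟨0,[(33,0)]⟩,⟨0,
  [(34,0)]⟩),⟨0,[(0,0)]⟩,.k,.k,(.x (-1) ⟨3,[(22,0),(0,0),(11,1),(0,3)]⟩ ⟨0,[(37,0)]⟩),.k,(.r (-1)
  ⟨3,[(15,1),(6,2),(0,0),(8,1)]⟩ ⟨1,[(2,1),(6,0),(1,0),(4,0),(25,1)]⟩),.k,⟨false,1,⟨1,[(22,0),(9,1),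
  (8,0)]⟩,⟨3,[(2,3),(0,1),(5,0),(1,0),(4,0),(25,3)]⟩⟩,⟨true,0,⟨0,[(24,0),(2,0)]⟩,⟨1,[(4,0),(1,0),
  (18,1)]⟩⟩,⟨true,0,⟨0,[]⟩,⟨0,[(44,0)]⟩⟩,⟨true,0,⟨0,[(2,0),(21,0),(1,0),(15,0)]⟩,⟨0,[(2,0),(1,0),(6,
  0),(3,0),(6,0),(2,0)]⟩⟩,⟨false,1,⟨7,[(11,3),(10,0),(0,0),(11,1),(6,3)]⟩,⟨0,[(40,0)]⟩⟩,⟨true,0,⟨1,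
  [(0,1),(1,1),(4,0),(3,0),(14,1),(15,1)]⟩,⟨3,[(2,3),(1,2),(1,0),(4,1),(3,3),(6,3),(2,3)]⟩⟩,[.o
  ⟨false,1,⟨1,[(29,1),(5,0),(6,0)]⟩,⟨2,[(4,0),(16,0),(10,0)]⟩⟩,.o ⟨false,1,⟨0,[(26,0),(15,0)]⟩,⟨0,
  [(28,0)]⟩⟩,.o ⟨false,1,⟨1,[(25,1),(9,0),(5,0)]⟩,⟨3,[(4,0),(9,0),(9,3),(2,1)]⟩⟩,.a ⟨true,0,⟨0,[(25,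
  0)]⟩,⟨0,[(24,0)]⟩⟩ ⟨true,1,⟨1,[(22,0),(18,0)]⟩,⟨0,[(2,0)]⟩⟩ ⟨false,1,⟨0,[(24,0),(1,0),(15,0)]⟩,⟨2,
  [(4,0),(16,0),(3,2),(6,0)]⟩⟩]⟩))))))) (.I [0,-1,1,0,0,0,0,1] (.R ⟨1,false,false,false,[1,0,-1],[1,
  -1],[1,1,0,0,0,0,0,-1],(⟨0,[(28,0)]⟩,⟨0,[(29,0)]⟩),(⟨0,[(31,0)]⟩,⟨0,[(32,0)]⟩),⟨0,[(3,0)]⟩,.k,.k,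
  .k,.k,.k,.k,⟨false,0,⟨1,[(4,0),(1,0),(4,0)]⟩,⟨3,[(10,1),(6,0),(0,0),(8,1),(9,1)]⟩⟩,⟨true,0,⟨0,
  [(25,0)]⟩,⟨0,[(1,0),(17,0),(0,0)]⟩⟩,⟨false,0,⟨0,[]⟩,⟨3,[(17,0),(0,0),(18,1)]⟩⟩,⟨true,0,⟨2,[(9,0),
  (0,0),(5,0),(18,0)]⟩,⟨0,[(14,0)]⟩⟩,⟨true,0,⟨0,[(34,0)]⟩,⟨0,[(35,0)]⟩⟩,⟨true,0,⟨4,[(0,0),(4,1),(4,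
  0),(4,0),(0,0),(16,0)]⟩,⟨0,[(24,0)]⟩⟩,[.a ⟨true,0,⟨0,[(35,0)]⟩,⟨0,[(7,0)]⟩⟩ ⟨true,0,⟨0,[(11,0)]⟩,
  ⟨0,[(0,0)]⟩⟩ ⟨false,1,⟨7,[(10,3),(0,3),(5,0),(0,0),(6,7),(10,3),(0,1)]⟩,⟨0,[(1,0),(5,0)]⟩⟩,.o
  ⟨false,1,⟨1,[(30,0),(4,1),(1,0)]⟩,⟨0,[(34,0)]⟩⟩,.o ⟨false,0,⟨0,[(1,0)]⟩,⟨3,[(17,0),(0,0),(6,3),
  (10,1)]⟩⟩,.o ⟨false,0,⟨0,[(22,0)]⟩,⟨0,[(25,0),(10,0)]⟩⟩]⟩) (.I [0,0,1,1,0,0,0,0,-1] (.Q [0,1,1,0,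
  0,0,0,0,1,0,0,-1] (.p false [0,0,0,1] [] (⟨0,[(21,0)]⟩,⟨0,[(20,0)]⟩) .k 0 (⟨0,[]⟩,⟨0,[]⟩) .k .k)
  (.K ⟨0,[0,0,0,1],0,0,(⟨0,[(22,0)]⟩,⟨0,[(21,0)]⟩),.k,(.r (-1) ⟨5,[(2,1),(9,1),(6,0),(0,3),(16,1),
  (1,0)]⟩ ⟨0,[(1,0)]⟩),(.x 0 ⟨0,[(34,0)]⟩ ⟨3,[(19,0),(0,0),(11,1),(0,3)]⟩),.k,.k,[⟨0,[(22,0)]⟩,⟨0,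
  [(21,0)]⟩,⟨4,[(1,4),(0,2),(9,2),(9,4),(12,0),(5,0)]⟩,⟨0,[(0,0)]⟩]⟩) (.Q [0,0,0,0,0,1,0,0,0,-1,0,
  1] (.p true [0,0,0,1] [1] (⟨0,[(22,0)]⟩,⟨0,[(21,0)]⟩) .k 1 (⟨0,[]⟩,⟨0,[]⟩) .k .k) (.R ⟨0,false,
  false,false,[1,0,0,-1],[0,0,1],[0,1,0,0,0,0,0,0,-1],(⟨0,[(22,0)]⟩,⟨0,[(23,0)]⟩),(⟨0,[(32,0)]⟩,⟨0,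
  [(31,0)]⟩),⟨0,[(0,0)]⟩,.k,.k,(.x (-1) ⟨3,[(20,0),(0,0),(11,1),(0,3)]⟩ ⟨0,[(35,0)]⟩),.k,.k,.k,
  ⟨false,0,⟨3,[(1,0),(0,2),(0,3),(3,0),(5,0),(8,0),(15,0)]⟩,⟨1,[(21,0),(8,1),(9,0)]⟩⟩,⟨true,0,⟨0,
  [(22,0),(5,0)]⟩,⟨0,[(4,0),(18,0)]⟩⟩,⟨true,0,⟨0,[(42,0)]⟩,⟨0,[]⟩⟩,⟨false,1,⟨5,[(12,1),(6,2),(1,2),
  (0,5),(2,0),(3,0),(10,2)]⟩,⟨0,[(1,0),(22,0)]⟩⟩,⟨false,0,⟨0,[]⟩,⟨0,[]⟩⟩,⟨false,0,⟨0,[]⟩,⟨0,[]⟩⟩,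
  [.o ⟨false,0,⟨4,[(4,0),(3,1),(4,0),(4,1),(0,0)]⟩,⟨1,[(27,1),(5,0),(6,0)]⟩⟩,.o ⟨false,1,⟨7,[(19,3),
  (0,0),(0,0),(11,1),(6,3)]⟩,⟨0,[(24,0)]⟩⟩,.o ⟨false,1,⟨1,[(23,1),(9,0),(5,0)]⟩,⟨1,[(8,0),(13,1),(2,
  0)]⟩⟩,.a ⟨true,0,⟨0,[(23,0)]⟩,⟨0,[(22,0)]⟩⟩ ⟨false,0,⟨14,[(1,8),(0,5),(1,1),(2,4),(0,1),(4,4),(8,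
  8),(13,3)]⟩,⟨1,[(21,0),(6,0),(0,0),(10,0)]⟩⟩ ⟨true,0,⟨4,[(4,0),(3,1),(4,0),(4,1),(0,0),(2,4)]⟩,⟨0,
  [(23,0),(0,0)]⟩⟩]⟩) (.R ⟨1,false,false,false,[1,0,0,-1],[0,0,1],[1,1,0,0,0,0,0,0,-1],(⟨0,[(22,
  0)]⟩,⟨0,[(23,0)]⟩),(⟨0,[(32,0)]⟩,⟨0,[(31,0)]⟩),⟨0,[(0,0)]⟩,.k,.k,(.x (-1) ⟨3,[(20,0),(0,0),(11,1),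
  (0,3)]⟩ ⟨0,[(35,0)]⟩),.k,(.r 0 ⟨0,[(1,0),(5,0),(14,0),(15,0)]⟩ ⟨0,[(2,0),(18,0),(8,0)]⟩),.k,
  ⟨false,0,⟨3,[(1,0),(0,2),(0,3),(3,0),(5,0),(8,0),(15,0)]⟩,⟨1,[(21,0),(8,1),(9,0)]⟩⟩,⟨true,0,⟨0,
  [(22,0),(5,0)]⟩,⟨0,[(4,0),(18,0)]⟩⟩,⟨false,0,⟨0,[]⟩,⟨3,[(20,0),(0,0),(18,1)]⟩⟩,⟨false,1,⟨5,[(12,
  1),(6,2),(1,2),(0,5),(2,0),(3,0),(10,2)]⟩,⟨0,[(1,0),(22,0)]⟩⟩,⟨true,0,⟨0,[(37,0)]⟩,⟨0,[(38,0)]⟩⟩,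
  ⟨false,1,⟨5,[(0,3),(4,1),(6,1),(5,5),(2,2),(0,1),(2,1),(14,2)]⟩,⟨0,[(1,0),(22,0),(13,0)]⟩⟩,[.o
  ⟨false,0,⟨4,[(4,0),(3,1),(4,0),(4,1),(0,0)]⟩,⟨1,[(27,1),(5,0),(6,0)]⟩⟩,.o ⟨false,1,⟨7,[(19,3),(0,
  0),(0,0),(11,1),(6,3)]⟩,⟨0,[(24,0)]⟩⟩,.o ⟨false,1,⟨1,[(23,1),(9,0),(5,0)]⟩,⟨2,[(0,1),(4,0),(6,0),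
  (9,0),(2,0)]⟩⟩,.a ⟨true,0,⟨0,[(23,0)]⟩,⟨0,[(22,0)]⟩⟩ ⟨false,0,⟨8,[(0,3),(0,4),(0,3),(2,1),(1,2),
  (5,2),(8,0),(13,1)]⟩,⟨1,[(21,0),(6,0),(0,0),(10,0)]⟩⟩ ⟨true,0,⟨1,[(0,1),(4,0),(13,0)]⟩,⟨0,[(23,0),
  (0,0)]⟩⟩]⟩))) (.Q [0,-1,1,0,0,0,0,0,1,0,0,-1] (.p false [0,0,0,1] [] (⟨0,[(21,0)]⟩,⟨0,[(20,0)]⟩)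
  .k 0 (⟨0,[]⟩,⟨0,[]⟩) .k .k) (.Q [0,0,0,0,0,-1,0,0,0,1,0,-1] (.p false [0,0,0,1] [1] (⟨0,[(22,0)]⟩,
  ⟨0,[(21,0)]⟩) .k 1 (⟨0,[]⟩,⟨0,[]⟩) .k .k) (.R ⟨1,false,false,false,[1,0,0,-1],[0,0,1],[1,1,0,0,0,
  0,0,0,-1],(⟨0,[(22,0)]⟩,⟨0,[(23,0)]⟩),(⟨0,[(32,0)]⟩,⟨0,[(31,0)]⟩),⟨0,[(0,0)]⟩,.k,.k,(.x (-1) ⟨3,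
  [(20,0),(0,0),(11,1),(0,3)]⟩ ⟨0,[(35,0)]⟩),.k,(.r (-1) ⟨1,[(3,1),(16,0),(17,1),(1,0)]⟩ ⟨1,[(1,0),
  (0,0),(15,1),(4,0),(1,1),(11,0)]⟩),.k,⟨false,1,⟨3,[(3,3),(16,2),(0,0)]⟩,⟨4,[(1,4),(2,2),(3,0),(0,
  1),(3,2),(4,1),(4,4)]⟩⟩,⟨true,0,⟨0,[(22,0),(5,0)]⟩,⟨0,[(4,0),(18,0)]⟩⟩,⟨false,0,⟨0,[]⟩,⟨3,[(20,0),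
  (0,0),(18,1)]⟩⟩,⟨false,0,⟨1,[(1,1),(17,0),(2,0),(0,0)]⟩,⟨1,[(3,1),(0,1),(15,0),(2,1),(16,0)]⟩⟩,
  ⟨true,0,⟨0,[(37,0)]⟩,⟨0,[(38,0)]⟩⟩,⟨false,0,⟨0,[(1,0),(16,0)]⟩,⟨1,[(3,1),(0,1),(15,0),(2,1),(14,
  1),(1,0)]⟩⟩,[.o ⟨false,0,⟨4,[(4,0),(3,1),(4,0),(4,1),(0,0)]⟩,⟨1,[(27,1),(5,0),(6,0)]⟩⟩,.o ⟨false,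
  1,⟨7,[(19,3),(0,0),(0,0),(11,1),(6,3)]⟩,⟨0,[(24,0)]⟩⟩,.o ⟨false,1,⟨1,[(23,1),(9,0),(5,0)]⟩,⟨2,[(0,
  1),(4,0),(6,0),(9,0),(2,0)]⟩⟩,.a ⟨true,0,⟨0,[(23,0)]⟩,⟨0,[(22,0)]⟩⟩ ⟨false,1,⟨1,[(20,0),(18,0)]⟩,
  ⟨0,[(1,0),(21,0)]⟩⟩ ⟨true,0,⟨1,[(0,1),(4,0),(13,0)]⟩,⟨0,[(23,0),(0,0)]⟩⟩]⟩) (.R ⟨0,false,false,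
  false,[1,0,0,-1],[0,0,1],[0,1,0,0,0,0,0,0,-1],(⟨0,[(22,0)]⟩,⟨0,[(23,0)]⟩),(⟨0,[(32,0)]⟩,⟨0,[(31,
  0)]⟩),⟨0,[(0,0)]⟩,.k,.k,(.x (-1) ⟨3,[(20,0),(0,0),(11,1),(0,3)]⟩ ⟨0,[(35,0)]⟩),.k,.k,.k,⟨false,1,
  ⟨3,[(3,3),(16,2),(0,0)]⟩,⟨4,[(1,4),(2,2),(3,0),(0,1),(3,2),(4,1),(4,4)]⟩⟩,⟨true,0,⟨0,[(22,0),(5,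
  0)]⟩,⟨0,[(4,0),(18,0)]⟩⟩,⟨true,0,⟨0,[(42,0)]⟩,⟨0,[]⟩⟩,⟨false,0,⟨1,[(1,1),(17,0),(2,0),(0,0)]⟩,⟨1,
  [(3,1),(0,1),(15,0),(2,1),(16,0)]⟩⟩,⟨false,0,⟨0,[]⟩,⟨0,[]⟩⟩,⟨false,0,⟨0,[]⟩,⟨0,[]⟩⟩,[.o ⟨false,0,
  ⟨4,[(4,0),(3,1),(4,0),(4,1),(0,0)]⟩,⟨1,[(27,1),(5,0),(6,0)]⟩⟩,.o ⟨false,1,⟨7,[(19,3),(0,0),(0,0),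
  (11,1),(6,3)]⟩,⟨0,[(24,0)]⟩⟩,.o ⟨false,1,⟨1,[(23,1),(9,0),(5,0)]⟩,⟨1,[(8,0),(13,1),(2,0)]⟩⟩,.a
  ⟨true,0,⟨0,[(23,0)]⟩,⟨0,[(22,0)]⟩⟩ ⟨false,1,⟨1,[(20,0),(18,0)]⟩,⟨0,[(1,0),(21,0)]⟩⟩ ⟨true,0,⟨4,
  [(4,0),(3,1),(4,0),(4,1),(0,0),(2,4)]⟩,⟨0,[(23,0),(0,0)]⟩⟩]⟩)) (.K ⟨0,[0,0,0,1],0,0,(⟨0,[(22,0)]⟩,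
  ⟨0,[(21,0)]⟩),.k,(.x 0 ⟨2,[(11,1),(12,0),(3,0),(4,2)]⟩ ⟨0,[(34,0),(3,0)]⟩),(.x 0 ⟨0,[(34,0)]⟩ ⟨3,
  [(19,0),(0,0),(11,1),(0,3)]⟩),.k,.k,[⟨0,[(22,0)]⟩,⟨0,[(21,0)]⟩,⟨0,[(0,0)]⟩,⟨2,[(1,2),(9,1),(9,2),
  (2,0),(3,0),(7,2)]⟩]⟩))))))) (.R ⟨0,false,false,false,[0,1,-1],[0,1],[0,0,2,1],(⟨0,[(9,0)]⟩,⟨0,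
  [(25,0),(1,0)]⟩),(⟨0,[(28,0)]⟩,⟨0,[(27,0)]⟩),⟨0,[(25,0)]⟩,.k,.k,.k,.k,.k,.k,⟨true,0,⟨1,[(21,0),(0,
  0)]⟩,⟨0,[]⟩⟩,⟨false,1,⟨0,[(21,0),(10,0)]⟩,⟨0,[(0,0),(16,0)]⟩⟩,⟨false,0,⟨1,[(0,1),(0,0),(16,0)]⟩,
  ⟨1,[(7,1),(24,0),(0,0)]⟩⟩,⟨true,0,⟨3,[(1,1),(4,0),(4,1),(11,0)]⟩,⟨0,[(20,0)]⟩⟩,⟨false,0,⟨0,[]⟩,⟨0,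
  []⟩⟩,⟨false,0,⟨0,[]⟩,⟨0,[]⟩⟩,[.a ⟨true,0,⟨0,[(3,0)]⟩,⟨0,[(31,0)]⟩⟩ ⟨false,0,⟨5,[(2,2),(2,1),(12,
  0),(3,0)]⟩,⟨7,[(6,3),(0,3),(5,0),(0,0),(17,3),(0,1)]⟩⟩ ⟨true,0,⟨1,[(1,0),(0,0),(18,0)]⟩,⟨0,[(0,0),
  (16,0),(13,0)]⟩⟩,.o ⟨false,1,⟨7,[(2,3),(10,0),(0,0),(11,1),(6,3)]⟩,⟨1,[(8,0),(8,0),(13,0)]⟩⟩,.o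
  ⟨false,1,⟨0,[(22,0),(9,0)]⟩,⟨0,[(1,0)]⟩⟩,.o ⟨false,0,⟨0,[(0,0),(16,0)]⟩,⟨0,[(5,0),(26,0)]⟩⟩]⟩))))

theorem ok6 : chk (cU (-1) true 3) t6 r9 = true := by decide +kernel

noncomputable def t7 : Tre :=
  .Q [0,0,0,-1,0,0,0,0,0,-1] (.pp true [-1,1]) t5 t6

theorem ok7 : chk (cU (-1) true 3) t7 l8 = true :=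
  chk_Q (e' := [0,0,0,1,0,0,0,0,0,1]) (by decide +kernel) (by decide +kernel) ok5 ok6

noncomputable def t8 : Tre :=
  (.Q [0,0,0,0,0,0,1,1,0,0,-1] (.p false [0,0,1] [] (⟨0,[(21,0)]⟩,⟨0,[(20,0)]⟩) .k 0 (⟨0,[]⟩,⟨0,
  []⟩) .k .k) (.R ⟨2,false,false,false,[0,1],[0,0,1],[0,1,1],(⟨0,[]⟩,⟨0,[]⟩),(⟨0,[(22,0)]⟩,⟨0,[(21,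
  0)]⟩),⟨0,[]⟩,.k,.k,.k,.k,.k,.k,⟨false,0,⟨0,[(4,0)]⟩,⟨1,[(20,1),(8,0),(0,0)]⟩⟩,⟨true,0,⟨0,[(18,
  0)]⟩,⟨0,[(1,0),(13,0)]⟩⟩,⟨false,0,⟨0,[(28,0)]⟩,⟨0,[(27,0),(2,0)]⟩⟩,⟨true,0,⟨2,[(2,0),(0,0),(5,0),
  (18,0)]⟩,⟨0,[(7,0)]⟩⟩,⟨true,0,⟨0,[(32,0)]⟩,⟨0,[]⟩⟩,⟨true,0,⟨0,[(0,0)]⟩,⟨0,[(17,0)]⟩⟩,[.o ⟨false,0,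
  ⟨0,[(0,0)]⟩,⟨1,[(17,1),(5,0),(6,0)]⟩⟩,.o ⟨false,1,⟨7,[(9,3),(0,0),(0,0),(11,1),(6,3)]⟩,⟨0,[(14,
  0)]⟩⟩,.a ⟨true,0,⟨0,[(1,0)]⟩,⟨1,[(18,0),(0,0)]⟩⟩ ⟨false,0,⟨1,[(18,0),(0,0)]⟩,⟨1,[(29,0),(0,0)]⟩⟩
  ⟨true,0,⟨5,[(2,1),(6,2),(5,0),(3,0)]⟩,⟨0,[(1,0),(12,0)]⟩⟩,.e ⟨true,0,⟨0,[(32,0)]⟩,⟨0,[]⟩⟩ ⟨true,0,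
  ⟨0,[(0,0)]⟩,⟨0,[(17,0)]⟩⟩]⟩) (.R ⟨2,true,false,false,[0,1],[0,0,1],[0,1,1],(⟨0,[]⟩,⟨0,[]⟩),(⟨0,
  [(22,0)]⟩,⟨0,[(21,0)]⟩),⟨0,[]⟩,.k,.k,.k,.k,.k,.k,⟨false,0,⟨0,[(4,0)]⟩,⟨1,[(20,1),(8,0),(0,0)]⟩⟩,
  ⟨true,0,⟨0,[(18,0)]⟩,⟨0,[(0,0),(19,0)]⟩⟩,⟨false,0,⟨0,[(28,0)]⟩,⟨0,[(27,0),(2,0)]⟩⟩,⟨true,0,⟨2,[(2,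
  0),(0,0),(5,0),(18,0)]⟩,⟨0,[(7,0)]⟩⟩,⟨true,0,⟨0,[(32,0)]⟩,⟨0,[]⟩⟩,⟨false,1,⟨7,[(9,3),(0,0),(0,0),
  (11,1),(6,3)]⟩,⟨0,[(0,0)]⟩⟩,[]⟩))

theorem ok8 : chk (cU (-1) true 3) t8 r8 = true := by decide +kernel

noncomputable def t9 : Tre :=
  .Q [0,0,1,0,0,0,0,0,0,-1] (.pp true [-1,1]) t7 t8

theorem ok9 : chk (cU (-1) true 3) t9 r7 = true :=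
  chk_Q (e' := [0,0,-1,0,0,0,0,0,0,1]) (by decide +kernel) (by decide +kernel) ok7 ok8

noncomputable def t10 : Tre :=
  .Q [0,0,-2,0,0,0,-1,0,0,1,1] (.p true [1,-1,1] [] (⟨0,[(19,0),(1,0)]⟩,⟨0,[(3,0)]⟩) .k 0 (⟨0,[]⟩,
  ⟨0,[]⟩) .k .k) t4 t9

theorem ok10 : chk (cU (-1) true 3) t10 l6 = true :=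
  chk_Q (e' := [0,0,2,0,0,0,1,0,0,-1,-1]) (by decide +kernel) (by decide +kernel) ok4 ok9

noncomputable def l10 : List Con := (false, [0,0,0,0,0,0,1,0,0,1,-1]) :: r6

noncomputable def r10 : List Con := (false, [0,0,0,0,0,0,-1,0,0,-1,1]) :: r6

noncomputable def t11 : Tre :=
  (.Q [0,0,0,1,0,0,1,0,0,1,-1] (.p false [0,0,1] [1] (⟨0,[(20,0)]⟩,⟨0,[(19,0)]⟩) .k 1 (⟨0,[]⟩,⟨0,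
  []⟩) .k .k) (.Q [0,0,0,0,0,0,-1,0,0,0,1] (.p true [0,0,1] [] (⟨0,[(21,0)]⟩,⟨0,[(20,0)]⟩) .k 0 (⟨0,
  []⟩,⟨0,[]⟩) .k .k) (.R ⟨0,false,false,false,[0,0,1],[1,-1],[0,1],(⟨0,[(22,0)]⟩,⟨0,[(21,0)]⟩),(⟨0,
  [(24,0)]⟩,⟨0,[(25,0)]⟩),⟨0,[(6,0)]⟩,.k,.k,.k,.k,.k,.k,⟨false,0,⟨0,[(27,0)]⟩,⟨1,[(28,1),(0,0),(0,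
  0)]⟩⟩,⟨true,0,⟨0,[(15,0)]⟩,⟨0,[(2,0)]⟩⟩,⟨true,0,⟨0,[(4,0)]⟩,⟨0,[(20,0)]⟩⟩,⟨false,1,⟨0,[(14,0),(13,
  0),(1,0)]⟩,⟨0,[(8,0)]⟩⟩,⟨false,0,⟨0,[]⟩,⟨0,[]⟩⟩,⟨false,0,⟨0,[]⟩,⟨0,[]⟩⟩,[.e ⟨false,0,⟨0,[(26,0),
  (1,0)]⟩,⟨3,[(10,0),(0,0),(18,1)]⟩⟩ ⟨false,1,⟨1,[(0,1),(22,0),(4,1),(0,0)]⟩,⟨0,[(1,0)]⟩⟩,.o ⟨false,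
  1,⟨1,[(23,0),(4,1),(1,0)]⟩,⟨0,[(27,0)]⟩⟩,.a ⟨true,0,⟨0,[(2,0)]⟩,⟨0,[(0,0)]⟩⟩ ⟨true,0,⟨0,[(32,0)]⟩,
  ⟨0,[]⟩⟩ ⟨false,1,⟨1,[(0,1),(22,0),(4,1),(1,0)]⟩,⟨0,[(1,0)]⟩⟩,.o ⟨false,0,⟨0,[(18,0)]⟩,⟨1,[(0,1),
  (22,0),(5,0)]⟩⟩]⟩) (.Q [0,0,-3,0,1,0,0,0,0,1] (.pp false [-1,1]) (.Q [0,0,0,0,0,0,-1,0,0,1,1] (.p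
  true [1,-1,1] [] (⟨0,[(23,0),(1,0)]⟩,⟨0,[(7,0)]⟩) .k 0 (⟨0,[]⟩,⟨0,[]⟩) .k .k) (.K ⟨0,[1,-1,1],0,0,
  (⟨0,[(24,0),(1,0)]⟩,⟨0,[(8,0)]⟩),.k,(.x 0 ⟨0,[(2,2),(14,1),(6,0),(1,1)]⟩ ⟨0,[(1,0),(6,0),(8,0),(9,
  0)]⟩),.k,.k,.k,[⟨0,[(0,0)]⟩,⟨0,[(2,0)]⟩,⟨1,[(0,0),(3,0),(4,1)]⟩,⟨0,[(7,0)]⟩]⟩) (.Q [0,1,-1,0,0,0,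
  0,0,-1,0,0,1] (.p true [0,0,0,1] [] (⟨0,[(15,0)]⟩,⟨0,[(14,0)]⟩) .k 0 (⟨0,[]⟩,⟨0,[]⟩) .k .k) (.Q
  [0,1,1,0,0,0,0,0,1,0,0,-1] (.p false [0,0,0,1] [] (⟨0,[(16,0)]⟩,⟨0,[(15,0)]⟩) .k 0 (⟨0,[]⟩,⟨0,
  []⟩) .k .k) (.I [0,0,1,1,0,0,0,0,-1] (.K ⟨0,[0,0,0,1],0,0,(⟨0,[(18,0)]⟩,⟨0,[(17,0)]⟩),.k,(.r (-1)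
  ⟨5,[(4,1),(11,2),(11,0),(4,5)]⟩ ⟨0,[(0,0)]⟩),(.x 0 ⟨0,[(30,0)]⟩ ⟨3,[(15,0),(0,0),(11,1),(0,3)]⟩),
  .k,.k,[⟨0,[(18,0)]⟩,⟨0,[(17,0)]⟩,⟨0,[(2,0)]⟩,⟨0,[(1,0)]⟩]⟩) (.K ⟨0,[0,0,0,1],0,0,(⟨0,[(18,0)]⟩,⟨0,
  [(17,0)]⟩),.k,(.x 0 ⟨0,[(20,0),(2,0),(5,0)]⟩ ⟨2,[(4,1),(23,0),(1,2)]⟩),(.x 0 ⟨0,[(30,0)]⟩ ⟨3,[(15,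
  0),(0,0),(11,1),(0,3)]⟩),.k,.k,[⟨0,[(18,0)]⟩,⟨0,[(17,0)]⟩,⟨0,[(2,0)]⟩,⟨0,[(1,0)]⟩]⟩)) (.Q [0,0,0,
  0,0,1,0,0,0,-1,0,1] (.p true [0,0,0,1] [1] (⟨0,[(17,0)]⟩,⟨0,[(16,0)]⟩) .k 1 (⟨0,[]⟩,⟨0,[]⟩) .k
  .k) (.R ⟨0,false,false,true,[1,0,0,-1],[1,0,-1],[0,1,0,0,0,0,0,0,-1],(⟨0,[(17,0)]⟩,⟨0,[(18,0)]⟩),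
  (⟨0,[(26,0)]⟩,⟨0,[(27,0)]⟩),⟨0,[(0,0)]⟩,.k,.k,(.x (-1) ⟨3,[(15,0),(0,0),(11,1),(0,3)]⟩ ⟨0,[(30,
  0)]⟩),.k,.k,.k,⟨false,0,⟨1,[(1,1),(8,0),(6,1),(2,0),(4,0),(5,0)]⟩,⟨1,[(9,1),(6,0),(18,0)]⟩⟩,⟨true,
  0,⟨0,[(17,0),(2,0)]⟩,⟨1,[(3,0),(3,0),(10,1)]⟩⟩,⟨true,0,⟨0,[(37,0)]⟩,⟨0,[]⟩⟩,⟨false,1,⟨1,[(16,0),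
  (0,1),(1,0),(0,0),(1,0),(0,0),(11,0)]⟩,⟨2,[(1,2),(1,0),(10,0),(10,0)]⟩⟩,⟨false,0,⟨0,[]⟩,⟨0,[]⟩⟩,
  ⟨false,0,⟨0,[]⟩,⟨0,[]⟩⟩,[.o ⟨false,0,⟨0,[(19,0)]⟩,⟨7,[(14,3),(0,0),(0,0),(11,1),(6,3)]⟩⟩,.o
  ⟨false,1,⟨1,[(22,1),(5,0),(6,0)]⟩,⟨2,[(3,0),(10,0),(10,0)]⟩⟩,.o ⟨false,1,⟨1,[(1,0),(0,0),(13,0),
  (11,0)]⟩,⟨2,[(3,0),(13,2),(2,1),(2,0)]⟩⟩,.a ⟨true,0,⟨0,[(18,0)]⟩,⟨0,[(17,0)]⟩⟩ ⟨false,0,⟨7,[(1,6),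
  (0,0),(0,1),(6,1),(6,7),(1,1),(0,1),(10,1)]⟩,⟨1,[(16,0),(6,0),(0,0),(10,0)]⟩⟩ ⟨true,0,⟨0,[(17,0),
  (1,0)]⟩,⟨2,[(3,0),(10,0),(3,2),(6,0)]⟩⟩]⟩) (.R ⟨1,false,false,true,[1,0,0,-1],[1,0,-1],[0,1,0,-1,
  0,0,0,0,-1],(⟨0,[(17,0)]⟩,⟨0,[(18,0)]⟩),(⟨0,[(26,0)]⟩,⟨0,[(27,0)]⟩),⟨0,[(0,0)]⟩,.k,.k,(.x (-1) ⟨3,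
  [(15,0),(0,0),(11,1),(0,3)]⟩ ⟨0,[(30,0)]⟩),.k,(.r 0 ⟨1,[(1,1),(8,0),(6,1),(1,0),(5,1),(7,0)]⟩ ⟨7,
  [(8,3),(0,3),(5,0),(0,4),(18,1)]⟩),.k,⟨false,0,⟨1,[(1,1),(8,0),(6,1),(1,0),(5,1),(7,0)]⟩,⟨5,[(3,
  1),(2,1),(2,1),(2,3),(3,2),(18,2)]⟩⟩,⟨true,0,⟨0,[(17,0),(2,0)]⟩,⟨1,[(3,0),(3,0),(10,1)]⟩⟩,⟨false,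
  0,⟨0,[(33,0)]⟩,⟨0,[(32,0),(2,0)]⟩⟩,⟨false,1,⟨1,[(16,0),(0,1),(1,0),(0,0),(1,0),(0,0),(11,0)]⟩,⟨2,
  [(1,2),(1,0),(10,0),(10,0)]⟩⟩,⟨true,0,⟨0,[(37,0)]⟩,⟨0,[]⟩⟩,⟨false,1,⟨5,[(8,1),(3,1),(3,2),(0,5),
  (1,1),(0,1),(7,0),(6,1)]⟩,⟨2,[(1,2),(1,0),(10,0),(10,0),(7,2)]⟩⟩,[.o ⟨false,0,⟨0,[(19,0)]⟩,⟨7,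
  [(14,3),(0,0),(0,0),(11,1),(6,3)]⟩⟩,.o ⟨false,1,⟨1,[(22,1),(5,0),(6,0)]⟩,⟨2,[(3,0),(10,0),(10,
  0)]⟩⟩,.o ⟨false,1,⟨1,[(1,0),(0,0),(13,0),(11,0)]⟩,⟨2,[(3,0),(13,2),(2,1),(2,0)]⟩⟩,.a ⟨true,0,⟨0,
  [(18,0)]⟩,⟨0,[(17,0)]⟩⟩ ⟨false,0,⟨1,[(1,1),(8,0),(6,1),(1,0),(13,0)]⟩,⟨5,[(8,1),(4,1),(2,2),(3,1),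
  (14,2)]⟩⟩ ⟨true,0,⟨0,[(17,0),(1,0)]⟩,⟨2,[(3,0),(10,0),(3,2),(6,0)]⟩⟩]⟩))) (.I [1,-1,-1,0,1,0,0,1,
  -1] (.Q [0,0,0,0,0,1,0,0,0,-1,0,1] (.p true [0,0,0,1] [1] (⟨0,[(17,0)]⟩,⟨0,[(16,0)]⟩) .k 1 (⟨0,
  []⟩,⟨0,[]⟩) .k .k) (.I [1,1,1,0,-1,0,0,0,1] (.R ⟨0,false,false,true,[1,0,0,-1],[1,0,-1],[1,1,1],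
  (⟨0,[(18,0)]⟩,⟨0,[(19,0)]⟩),(⟨0,[(27,0)]⟩,⟨0,[(28,0)]⟩),⟨0,[(1,0)]⟩,.k,.k,(.x (-1) ⟨3,[(16,0),(0,
  0),(11,1),(0,3)]⟩ ⟨0,[(31,0)]⟩),.k,.k,.k,⟨false,0,⟨0,[(26,0)]⟩,⟨5,[(5,1),(4,5),(18,0),(6,2)]⟩⟩,
  ⟨true,0,⟨0,[(18,0),(2,0)]⟩,⟨1,[(4,0),(3,0),(10,1)]⟩⟩,⟨true,(-1),⟨0,[(0,0)]⟩,⟨5,[(5,1),(10,2),(12,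
  0)]⟩⟩,⟨false,0,⟨0,[(3,0),(19,0)]⟩,⟨1,[(2,1),(1,0),(3,0),(10,1)]⟩⟩,⟨false,0,⟨0,[]⟩,⟨0,[]⟩⟩,⟨false,
  0,⟨0,[]⟩,⟨0,[]⟩⟩,[.o ⟨false,0,⟨0,[(20,0)]⟩,⟨7,[(15,3),(0,0),(0,0),(11,1),(6,3)]⟩⟩,.o ⟨false,1,⟨1,
  [(23,1),(5,0),(6,0)]⟩,⟨2,[(4,0),(10,0),(10,0)]⟩⟩,.o ⟨false,1,⟨2,[(5,0),(13,2),(9,1)]⟩,⟨2,[(4,0),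
  (13,2),(2,1),(2,0)]⟩⟩,.a ⟨true,0,⟨0,[(19,0)]⟩,⟨0,[(18,0)]⟩⟩ ⟨false,0,⟨0,[]⟩,⟨3,[(16,0),(0,0),(18,
  1)]⟩⟩ ⟨true,0,⟨0,[(18,0),(1,0)]⟩,⟨2,[(4,0),(10,0),(3,2),(6,0)]⟩⟩]⟩) (.R ⟨0,false,false,true,[1,0,
  0,-1],[1,0,-1],[1,0,0,0,0,0,0,0,-1],(⟨0,[(18,0)]⟩,⟨0,[(19,0)]⟩),(⟨0,[(27,0)]⟩,⟨0,[(28,0)]⟩),⟨0,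
  [(1,0)]⟩,.k,.k,(.x (-1) ⟨3,[(16,0),(0,0),(11,1),(0,3)]⟩ ⟨0,[(31,0)]⟩),.k,.k,.k,⟨false,1,⟨0,[(2,
  0)]⟩,⟨0,[(3,0),(6,0),(8,0),(12,0),(1,0)]⟩⟩,⟨true,0,⟨0,[(18,0),(2,0)]⟩,⟨1,[(4,0),(3,0),(10,1)]⟩⟩,
  ⟨true,0,⟨0,[]⟩,⟨0,[(38,0)]⟩⟩,⟨false,0,⟨0,[(3,0),(19,0)]⟩,⟨2,[(0,1),(1,0),(1,0),(10,0),(3,2)]⟩⟩,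
  ⟨false,0,⟨0,[]⟩,⟨0,[]⟩⟩,⟨false,0,⟨0,[]⟩,⟨0,[]⟩⟩,[.o ⟨false,0,⟨0,[(20,0)]⟩,⟨7,[(15,3),(0,0),(0,0),
  (11,1),(6,3)]⟩⟩,.o ⟨false,1,⟨1,[(23,1),(5,0),(6,0)]⟩,⟨2,[(4,0),(10,0),(10,0)]⟩⟩,.o ⟨false,1,⟨2,
  [(5,0),(13,2),(9,1)]⟩,⟨2,[(4,0),(13,2),(2,1),(2,0)]⟩⟩,.a ⟨true,0,⟨0,[(19,0)]⟩,⟨0,[(18,0)]⟩⟩
  ⟨false,1,⟨0,[(0,0)]⟩,⟨0,[(3,0),(15,0),(18,0)]⟩⟩ ⟨true,0,⟨0,[(18,0),(1,0)]⟩,⟨2,[(4,0),(10,0),(3,2),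
  (6,0)]⟩⟩]⟩)) (.I [0,-1,-1,-1,1,0,0,0,-1] (.R ⟨1,false,false,true,[1,0,0,-1],[1,0,-1],[0,0,0,-1,0,
  0,0,0,-1],(⟨0,[(18,0)]⟩,⟨0,[(19,0)]⟩),(⟨0,[(27,0)]⟩,⟨0,[(28,0)]⟩),⟨0,[(1,0)]⟩,.k,.k,(.x (-1) ⟨3,
  [(16,0),(0,0),(11,1),(0,3)]⟩ ⟨0,[(31,0)]⟩),.k,(.r (-1) ⟨2,[(2,0),(2,0),(5,0),(4,0),(8,0),(0,0),(7,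
  1)]⟩ ⟨2,[(3,2),(0,0),(2,0),(2,0),(2,1),(5,2)]⟩),.k,⟨false,1,⟨0,[(2,0),(31,0)]⟩,⟨0,[(3,0),(6,0),(8,
  0),(12,0)]⟩⟩,⟨true,0,⟨0,[(18,0),(2,0)]⟩,⟨1,[(4,0),(3,0),(10,1)]⟩⟩,⟨true,0,⟨0,[(34,0)]⟩,⟨0,[(33,
  0)]⟩⟩,⟨false,0,⟨0,[(3,0),(19,0)]⟩,⟨6,[(0,1),(1,4),(1,2),(2,1),(7,0),(3,6)]⟩⟩,⟨false,1,⟨3,[(16,0),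
  (0,0),(18,1)]⟩,⟨0,[]⟩⟩,⟨false,0,⟨0,[(3,0),(9,0)]⟩,⟨2,[(0,1),(1,0),(1,0),(10,0),(3,2),(14,0)]⟩⟩,
  [.o ⟨false,0,⟨0,[(20,0)]⟩,⟨7,[(15,3),(0,0),(0,0),(11,1),(6,3)]⟩⟩,.o ⟨false,1,⟨1,[(23,1),(5,0),(6,
  0)]⟩,⟨2,[(4,0),(10,0),(10,0)]⟩⟩,.o ⟨false,1,⟨2,[(5,0),(13,2),(9,1)]⟩,⟨2,[(4,0),(13,2),(2,1),(2,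
  0)]⟩⟩,.a ⟨true,0,⟨0,[(19,0)]⟩,⟨0,[(18,0)]⟩⟩ ⟨false,1,⟨0,[(0,0)]⟩,⟨0,[(3,0),(15,0),(13,0)]⟩⟩ ⟨true,
  0,⟨0,[(18,0),(1,0)]⟩,⟨2,[(4,0),(10,0),(3,2),(6,0)]⟩⟩]⟩) (.Q [0,1,1,0,-1,0,0,0,1,0,0,-1] (.p false
  [0,0,0,1] [] (⟨0,[(19,0)]⟩,⟨0,[(18,0)]⟩) .k 0 (⟨0,[]⟩,⟨0,[]⟩) .k .k) (.K ⟨0,[0,0,0,1],0,(-1),(⟨0,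
  [(20,0)]⟩,⟨0,[(19,0)]⟩),.k,(.x 0 ⟨0,[(22,0),(2,0),(5,0)]⟩ ⟨2,[(6,1),(23,0),(1,2)]⟩),(.x 0 ⟨0,[(32,
  0)]⟩ ⟨3,[(17,0),(0,0),(11,1),(0,3)]⟩),.k,.k,[⟨0,[(20,0)]⟩,⟨0,[(19,0)]⟩,⟨5,[(6,1),(10,2),(2,5),(9,
  0),(8,5)]⟩,⟨0,[(0,0)]⟩]⟩) (.I [0,0,1,0,0,0,0,-1] (.R ⟨0,false,false,false,[0,0,1],[1,-1],[0,0,1],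
  (⟨0,[(30,0)]⟩,⟨0,[(29,0)]⟩),(⟨0,[(32,0)]⟩,⟨0,[(33,0)]⟩),⟨0,[(14,0)]⟩,.k,.k,.k,.k,.k,.k,⟨false,0,
  ⟨2,[(11,0),(4,0),(6,0)]⟩,⟨2,[(7,1),(23,0),(4,2)]⟩⟩,⟨true,0,⟨0,[(23,0)]⟩,⟨0,[(10,0)]⟩⟩,⟨true,0,⟨0,
  [(0,0)]⟩,⟨0,[(28,0),(5,0),(1,0)]⟩⟩,⟨false,1,⟨0,[(22,0),(13,0),(1,0)]⟩,⟨0,[(16,0)]⟩⟩,⟨false,0,⟨0,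
  []⟩,⟨0,[]⟩⟩,⟨false,0,⟨0,[]⟩,⟨0,[]⟩⟩,[.a ⟨true,0,⟨0,[(36,0)]⟩,⟨0,[(1,0),(0,0),(17,0)]⟩⟩ ⟨true,0,⟨1,
  [(26,0),(0,0)]⟩,⟨0,[]⟩⟩ ⟨false,1,⟨2,[(7,1),(15,2),(7,0),(4,2)]⟩,⟨0,[(9,0)]⟩⟩,.o ⟨false,1,⟨1,[(31,
  0),(4,1),(1,0)]⟩,⟨0,[(35,0)]⟩⟩,.o ⟨false,0,⟨0,[(8,0)]⟩,⟨3,[(4,1),(14,0),(3,1),(1,1),(5,0)]⟩⟩,.o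
  ⟨false,0,⟨0,[(26,0)]⟩,⟨2,[(7,1),(15,2),(7,0)]⟩⟩]⟩) (.I [1,-1,3,3] (.I [0,-1,1,0,1,0,0,-1,-1] (.R
  ⟨1,false,false,true,[1,0,0,-1],[1,-1,1],[0,0,0,-1,0,0,0,0,-1],(⟨0,[(22,0)]⟩,⟨0,[(23,0)]⟩),(⟨0,
  [(32,0),(1,0)]⟩,⟨0,[(16,0)]⟩),⟨0,[(5,0)]⟩,.k,.k,(.x (-1) ⟨3,[(20,0),(0,0),(11,1),(0,3)]⟩ ⟨0,[(35,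
  0)]⟩),(.r (-1) ⟨23,[(0,5),(8,1),(3,11),(0,5),(5,11),(0,2),(11,0)]⟩ ⟨8,[(2,9),(1,2),(2,3),(0,0),(0,
  1),(11,0),(1,3),(0,0),(13,11)]⟩),.k,.k,⟨true,1,⟨0,[(0,0)]⟩,⟨0,[(2,0),(1,0),(33,0)]⟩⟩,⟨false,0,⟨2,
  [(8,1),(13,2),(2,0),(2,1)]⟩,⟨0,[(9,0),(13,0),(1,0)]⟩⟩,⟨true,0,⟨0,[(38,0)]⟩,⟨0,[(37,0)]⟩⟩,⟨true,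
  (-1),⟨0,[(4,0),(3,0),(13,0),(7,0),(7,1)]⟩,⟨0,[(3,0),(13,0)]⟩⟩,⟨false,1,⟨3,[(20,0),(0,0),(18,1)]⟩,
  ⟨0,[]⟩⟩,⟨true,(-1),⟨0,[(4,0),(3,0),(13,0),(7,0),(7,0)]⟩,⟨0,[(3,0),(23,0)]⟩⟩,[.o ⟨false,0,⟨0,[(15,
  0)]⟩,⟨0,[(17,0),(22,0)]⟩⟩,.o ⟨false,0,⟨0,[(8,0),(21,0),(7,0)]⟩,⟨3,[(17,3),(2,0),(0,0),(18,1)]⟩⟩,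
  .o ⟨false,1,⟨2,[(9,0),(13,2),(9,1)]⟩,⟨2,[(8,0),(13,2),(2,1),(2,0)]⟩⟩,.a ⟨true,0,⟨0,[(23,0)]⟩,⟨0,
  [(22,0)]⟩⟩ ⟨true,1,⟨5,[(9,1),(10,2),(12,0),(4,5)]⟩,⟨0,[(4,0)]⟩⟩ ⟨false,0,⟨0,[(8,0),(13,0),(7,0),
  (7,0)]⟩,⟨0,[(17,0),(5,0),(16,0)]⟩⟩]⟩) (.Q [0,1,1,-1,-1,0,0,0,1,0,0,-1] (.p false [0,0,0,1] [] (⟨0,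
  [(23,0)]⟩,⟨0,[(22,0)]⟩) .k 0 (⟨0,[]⟩,⟨0,[]⟩) .k .k) (.R ⟨2,false,false,true,[0,1],[0,0,0,1],[],
  (⟨0,[]⟩,⟨0,[]⟩),(⟨0,[(24,0)]⟩,⟨0,[(23,0)]⟩),⟨0,[]⟩,.k,.k,.k,(.r (-1) ⟨11,[(2,3),(18,8),(0,2),(20,
  3)]⟩ ⟨0,[(1,0),(13,0),(23,0),(1,0)]⟩),.k,.k,⟨true,1,⟨1,[(21,0),(19,0)]⟩,⟨1,[(0,0),(4,0),(18,0)]⟩⟩,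
  ⟨false,0,⟨19,[(0,5),(1,1),(5,3),(0,3),(11,4),(1,9),(2,3),(7,0)]⟩,⟨2,[(10,1),(13,2),(9,0)]⟩⟩,
  ⟨false,1,⟨5,[(10,1),(23,0),(4,5),(1,2)]⟩,⟨2,[(2,0),(40,0)]⟩⟩,⟨true,(-1),⟨0,[(0,0)]⟩,⟨0,[(4,0),(33,
  0)]⟩⟩,⟨false,1,⟨5,[(10,1),(23,0),(6,2)]⟩,⟨1,[(29,0),(0,0)]⟩⟩,⟨false,0,⟨15,[(0,5),(1,1),(5,3),(13,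
  2),(0,5),(10,2)]⟩,⟨0,[(4,0)]⟩⟩,[.a ⟨true,(-1),⟨1,[(0,0),(4,0),(17,1),(0,0)]⟩,⟨0,[(4,0)]⟩⟩ ⟨false,
  1,⟨11,[(10,3),(10,2),(0,2),(11,1)]⟩,⟨0,[]⟩⟩ ⟨true,(-1),⟨2,[(0,2),(1,0),(40,0)]⟩,⟨0,[(4,0)]⟩⟩,.o
  ⟨false,0,⟨15,[(0,5),(1,1),(5,3),(13,2),(0,5),(10,2)]⟩,⟨13,[(1,1),(2,9),(4,1),(6,1),(4,2),(2,3),(0,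
  3),(8,2),(2,1)]⟩⟩,.o ⟨false,1,⟨11,[(10,3),(10,2),(0,2),(11,1)]⟩,⟨2,[(9,0),(16,1),(2,0)]⟩⟩,.e
  ⟨false,1,⟨5,[(10,1),(23,0),(6,2)]⟩,⟨1,[(29,0),(0,0)]⟩⟩ ⟨false,0,⟨15,[(0,5),(1,1),(5,3),(13,2),(0,
  5),(10,2)]⟩,⟨0,[(4,0)]⟩⟩]⟩) (.I [0,0,-2,-2,0,0,0,0,1] (.R ⟨1,false,false,true,[1,0,0,-1],[1,0,-1],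
  [1,1,0,0,0,0,0,0,-1],(⟨0,[(24,0)]⟩,⟨0,[(25,0)]⟩),(⟨0,[(33,0)]⟩,⟨0,[(34,0)]⟩),⟨0,[(7,0)]⟩,.k,.k,
  (.x (-1) ⟨3,[(22,0),(0,0),(11,1),(0,3)]⟩ ⟨0,[(37,0)]⟩),.k,(.r (-1) ⟨7,[(0,3),(21,6),(0,0),(8,7)]⟩
  ⟨9,[(0,5),(5,1),(8,9),(7,0),(18,0)]⟩),.k,⟨false,1,⟨3,[(4,3),(17,2),(0,0)]⟩,⟨0,[(0,0),(14,0)]⟩⟩,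
  ⟨true,0,⟨0,[(24,0),(2,0)]⟩,⟨1,[(10,0),(3,0),(10,1)]⟩⟩,⟨false,0,⟨0,[]⟩,⟨3,[(22,0),(0,0),(18,1)]⟩⟩,
  ⟨false,0,⟨0,[(9,0),(19,0)]⟩,⟨2,[(5,2),(4,0),(10,0),(10,0)]⟩⟩,⟨true,0,⟨0,[(39,0)]⟩,⟨0,[(40,0)]⟩⟩,
  ⟨false,0,⟨0,[(9,0),(9,0)]⟩,⟨2,[(5,2),(4,0),(10,0),(10,0),(7,2)]⟩⟩,[.o ⟨false,0,⟨0,[(26,0)]⟩,⟨7,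
  [(21,3),(0,0),(0,0),(11,1),(6,3)]⟩⟩,.o ⟨false,1,⟨1,[(29,1),(5,0),(6,0)]⟩,⟨2,[(10,0),(10,0),(10,
  0)]⟩⟩,.o ⟨false,1,⟨2,[(11,0),(13,2),(9,1)]⟩,⟨2,[(10,0),(13,2),(2,1),(2,0)]⟩⟩,.a ⟨true,0,⟨0,[(25,
  0)]⟩,⟨0,[(24,0)]⟩⟩ ⟨false,1,⟨5,[(11,1),(10,2),(12,0)]⟩,⟨0,[(9,0),(15,0)]⟩⟩ ⟨true,0,⟨0,[(24,0),(1,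
  0)]⟩,⟨2,[(10,0),(10,0),(3,2),(6,0)]⟩⟩]⟩) (.Q [0,0,0,0,0,-1,0,0,0,1,-1] (.ed true [0,1,1] .k) (.R
  ⟨1,false,false,true,[1,0,0,-1],[0,1,1],[0,0,0,-1,0,0,0,0,-1],(⟨0,[(25,0)]⟩,⟨0,[(26,0)]⟩),(⟨0,[(35,
  0),(2,0)]⟩,⟨0,[(0,0)]⟩),⟨0,[(8,0)]⟩,.k,.k,(.x (-1) ⟨3,[(23,0),(0,0),(11,1),(0,3)]⟩ ⟨0,[(38,0)]⟩),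
  (.r (-1) ⟨1,[(6,1),(4,0),(5,0),(7,1),(1,0),(13,1)]⟩ ⟨5,[(3,1),(0,1),(17,0),(1,1),(3,0),(3,0),(0,
  1)]⟩),(.r (-2) ⟨5,[(12,3),(4,5),(5,2),(12,1),(4,11),(1,2)]⟩ ⟨0,[(3,0),(0,0),(36,0)]⟩),.k,⟨false,2,
  ⟨3,[(6,1),(4,1),(0,1),(4,1),(5,0),(1,1),(1,1),(13,7),(1,2)]⟩,⟨5,[(3,4),(0,2),(2,0),(21,0),(2,0),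
  (7,1)]⟩⟩,⟨true,0,⟨1,[(11,0),(3,0),(9,1)]⟩,⟨0,[(26,0),(1,0)]⟩⟩,⟨true,0,⟨0,[(41,0)]⟩,⟨0,[(40,0)]⟩⟩,
  ⟨true,(-1),⟨16,[(1,0),(1,2),(0,0),(2,13),(2,0),(0,2),(6,1),(3,5),(2,15)]⟩,⟨0,[(6,0),(20,0),(13,
  0)]⟩⟩,⟨false,1,⟨3,[(23,0),(0,0),(18,1)]⟩,⟨0,[]⟩⟩,⟨true,(-1),⟨2,[(3,0),(0,0),(2,1),(3,0),(10,0),(2,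
  2),(13,0)]⟩,⟨0,[(6,0),(20,0),(13,1)]⟩⟩,[.o ⟨false,0,⟨4,[(4,0),(13,0),(3,0),(6,1),(9,2)]⟩,⟨0,[(27,
  0),(13,0),(1,0)]⟩⟩,.o ⟨false,0,⟨4,[(4,0),(0,1),(5,1),(9,0),(0,0),(16,0)]⟩,⟨1,[(30,1),(5,0),(4,1),
  (1,0)]⟩⟩,.o ⟨false,1,⟨2,[(12,0),(13,2),(9,1)]⟩,⟨2,[(11,0),(13,2),(2,1),(2,0)]⟩⟩,.a ⟨true,0,⟨0,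
  [(26,0)]⟩,⟨0,[(25,0)]⟩⟩ ⟨true,1,⟨5,[(12,1),(10,2),(12,0),(4,5)]⟩,⟨0,[(7,0)]⟩⟩ ⟨false,0,⟨4,[(4,0),
  (0,1),(5,1),(9,0),(0,0),(2,4),(13,0)]⟩,⟨0,[(26,0),(0,0),(13,0),(1,0)]⟩⟩]⟩) (.K ⟨2,[-1,1,1],0,0,
  (⟨0,[(0,0)]⟩,⟨0,[(34,0),(2,0)]⟩),.k,.k,(.r 0 ⟨6,[(4,3),(24,1),(2,1),(0,4),(6,1)]⟩ ⟨1,[(3,1),(2,1),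
  (4,0),(5,2),(7,1),(1,0),(13,3),(1,1)]⟩),.k,.k,[⟨1,[(2,0),(4,0),(17,1),(0,0)]⟩,⟨0,[(27,0),(13,0)]⟩,
  ⟨1,[(28,1),(2,0),(0,0)]⟩,⟨0,[(15,0)]⟩]⟩))))) (.R ⟨1,false,false,true,[1,0,0,-1],[1,0,-1],[1,1,0,0,
  0,0,0,0,-1],(⟨0,[(21,0)]⟩,⟨0,[(22,0)]⟩),(⟨0,[(30,0)]⟩,⟨0,[(31,0)]⟩),⟨0,[(4,0)]⟩,.k,.k,(.x (-1) ⟨3,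
  [(19,0),(0,0),(11,1),(0,3)]⟩ ⟨0,[(34,0)]⟩),.k,(.r (-1) ⟨19,[(0,5),(4,7),(8,1),(3,1),(0,8),(0,2),
  (7,5),(0,5)]⟩ ⟨0,[(3,0),(9,0),(25,0)]⟩),.k,⟨false,1,⟨3,[(1,3),(17,2),(0,0)]⟩,⟨0,[(0,0),(2,0),(8,
  0),(26,0)]⟩⟩,⟨true,0,⟨0,[(21,0),(2,0)]⟩,⟨1,[(7,0),(3,0),(10,1)]⟩⟩,⟨false,0,⟨0,[]⟩,⟨3,[(19,0),(0,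
  0),(18,1)]⟩⟩,⟨false,0,⟨0,[(6,0),(19,0)]⟩,⟨2,[(2,2),(4,0),(10,0),(10,0)]⟩⟩,⟨true,0,⟨0,[(36,0)]⟩,⟨0,
  [(37,0)]⟩⟩,⟨false,0,⟨0,[(6,0),(9,0)]⟩,⟨2,[(2,2),(4,0),(10,0),(10,0),(7,2)]⟩⟩,[.o ⟨false,0,⟨0,[(23,
  0)]⟩,⟨7,[(18,3),(0,0),(0,0),(11,1),(6,3)]⟩⟩,.o ⟨false,1,⟨1,[(26,1),(5,0),(6,0)]⟩,⟨2,[(7,0),(10,0),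
  (10,0)]⟩⟩,.o ⟨false,1,⟨2,[(8,0),(13,2),(9,1)]⟩,⟨2,[(7,0),(13,2),(2,1),(2,0)]⟩⟩,.a ⟨true,0,⟨0,[(22,
  0)]⟩,⟨0,[(21,0)]⟩⟩ ⟨false,1,⟨5,[(8,1),(10,2),(12,0)]⟩,⟨0,[(6,0),(15,0)]⟩⟩ ⟨true,0,⟨0,[(21,0),(1,
  0)]⟩,⟨2,[(7,0),(10,0),(3,2),(6,0)]⟩⟩]⟩)))))) (.Q [0,0,0,1,0,0,0,0,0,1] (.pp false [-1,1]) (.R ⟨0,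
  false,false,false,[0,0,1],[1,-1],[0,0,1],(⟨0,[(27,0)]⟩,⟨0,[(26,0)]⟩),(⟨0,[(29,0)]⟩,⟨0,[(30,0)]⟩),
  ⟨0,[(11,0)]⟩,.k,.k,.k,.k,.k,.k,⟨false,0,⟨2,[(8,0),(4,0),(6,0)]⟩,⟨2,[(4,1),(23,0),(4,2)]⟩⟩,⟨true,0,
  ⟨0,[(20,0)]⟩,⟨0,[(7,0)]⟩⟩,⟨true,0,⟨1,[(1,1),(13,0),(19,0)]⟩,⟨0,[(25,0),(5,0),(1,0)]⟩⟩,⟨false,1,⟨0,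
  [(19,0),(13,0),(1,0)]⟩,⟨0,[(13,0)]⟩⟩,⟨false,0,⟨0,[]⟩,⟨0,[]⟩⟩,⟨false,0,⟨0,[]⟩,⟨0,[]⟩⟩,[.a ⟨true,0,
  ⟨0,[(33,0)]⟩,⟨0,[(0,0)]⟩⟩ ⟨true,0,⟨1,[(23,0),(0,0)]⟩,⟨0,[]⟩⟩ ⟨false,1,⟨2,[(4,1),(15,2),(7,0),(4,
  2)]⟩,⟨0,[(6,0)]⟩⟩,.o ⟨false,1,⟨1,[(28,0),(4,1),(1,0)]⟩,⟨0,[(32,0)]⟩⟩,.o ⟨false,0,⟨0,[(5,0)]⟩,⟨11,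
  [(4,3),(10,2),(0,2),(3,11),(7,1)]⟩⟩,.o ⟨false,0,⟨0,[(23,0)]⟩,⟨2,[(4,1),(15,2),(7,0)]⟩⟩]⟩) (.Q [0,
  1,1,0,-1,0,0,0,1,0,0,-1] (.p false [0,0,0,1] [] (⟨0,[(18,0)]⟩,⟨0,[(17,0)]⟩) .k 0 (⟨0,[]⟩,⟨0,[]⟩)
  .k .k) (.K ⟨0,[0,0,0,1],0,(-1),(⟨0,[(19,0)]⟩,⟨0,[(18,0)]⟩),.k,(.x 0 ⟨0,[(21,0),(2,0),(5,0)]⟩ ⟨2,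
  [(5,1),(23,0),(1,2)]⟩),(.x 0 ⟨0,[(31,0)]⟩ ⟨3,[(16,0),(0,0),(11,1),(0,3)]⟩),.k,.k,[⟨0,[(19,0)]⟩,⟨0,
  [(18,0)]⟩,⟨5,[(5,1),(10,2),(2,5),(9,0),(8,5)]⟩,⟨0,[(0,0)]⟩]⟩) (.R ⟨0,false,false,true,[0,0,1],[0,
  0,0,1],[0,0,1],(⟨0,[(28,0)]⟩,⟨0,[(27,0)]⟩),(⟨0,[(19,0)]⟩,⟨0,[(18,0)]⟩),⟨0,[(12,0)]⟩,.k,.k,.k,.k,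
  .k,.k,⟨false,1,⟨1,[(16,0),(19,0)]⟩,⟨4,[(1,1),(0,2),(2,1),(11,0),(8,2),(5,1)]⟩⟩,⟨true,0,⟨0,[(18,0),
  (2,0)]⟩,⟨1,[(4,0),(3,0),(10,1)]⟩⟩,⟨true,0,⟨1,[(2,1),(13,0),(19,0)]⟩,⟨0,[(26,0),(5,0),(1,0)]⟩⟩,
  ⟨false,0,⟨0,[(3,0),(19,0)]⟩,⟨2,[(0,2),(3,0),(10,0),(10,0)]⟩⟩,⟨false,0,⟨0,[]⟩,⟨0,[]⟩⟩,⟨false,0,⟨0,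
  []⟩,⟨0,[]⟩⟩,[.a ⟨true,(-1),⟨0,[(2,0),(15,0),(7,0)]⟩,⟨0,[(0,0)]⟩⟩ ⟨true,0,⟨1,[(24,0),(0,0)]⟩,⟨0,
  []⟩⟩ ⟨false,0,⟨7,[(2,2),(0,2),(1,1),(11,0),(0,4),(1,6),(2,0),(2,10)]⟩,⟨1,[(0,1),(3,0),(3,0)]⟩⟩,.o
  ⟨false,0,⟨0,[(3,0),(34,0)]⟩,⟨13,[(0,11),(3,1),(6,3),(4,0),(2,1),(0,3),(0,1),(7,0),(2,3)]⟩⟩,.o
  ⟨false,0,⟨0,[(6,0)]⟩,⟨11,[(5,3),(10,2),(0,2),(3,11),(7,1)]⟩⟩,.o ⟨false,0,⟨0,[(24,0)]⟩,⟨2,[(5,1),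
  (15,2),(7,0)]⟩⟩]⟩)))))) (.Q [0,1,-1,0,0,0,0,0,-1,0,0,1] (.p true [0,0,0,1] [] (⟨0,[(14,0)]⟩,⟨0,
  [(13,0)]⟩) .k 0 (⟨0,[]⟩,⟨0,[]⟩) .k .k) (.K ⟨0,[0,0,0,1],0,0,(⟨0,[(15,0)]⟩,⟨0,[(14,0)]⟩),.k,(.r
  (-1) ⟨1,[(13,0),(16,1),(0,0)]⟩ ⟨0,[(0,0),(0,0),(12,0),(13,0),(3,0)]⟩),(.x 0 ⟨0,[(27,0)]⟩ ⟨3,[(12,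
  0),(0,0),(11,1),(0,3)]⟩),.k,.k,[⟨0,[(15,0)]⟩,⟨0,[(14,0)]⟩,⟨0,[(0,0)]⟩,⟨3,[(1,1),(5,0),(5,1),(0,3),
  (1,0),(11,1),(1,0)]⟩]⟩) (.I [0,0,-1,-1,0,0,0,0,1] (.K ⟨0,[0,0,0,1],0,(-1),(⟨0,[(16,0)]⟩,⟨0,[(15,
  0)]⟩),.k,(.r 0 ⟨0,[(0,0)]⟩ ⟨11,[(6,3),(4,3),(1,8),(0,2),(3,3)]⟩),(.x 0 ⟨0,[(28,0)]⟩ ⟨3,[(13,0),(0,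
  0),(11,1),(0,3)]⟩),.k,.k,[⟨0,[(16,0)]⟩,⟨0,[(15,0)]⟩,⟨1,[(13,0),(2,1),(15,0),(2,1)]⟩,⟨0,[(0,0),(1,
  0),(12,0),(13,0)]⟩]⟩) (.Q [0,0,0,0,0,0,-1,0,0,1,1] (.p true [1,-1,1] [] (⟨0,[(25,0),(1,0)]⟩,⟨0,
  [(9,0)]⟩) .k 0 (⟨0,[]⟩,⟨0,[]⟩) .k .k) (.K ⟨0,[1,-1,1],0,0,(⟨0,[(26,0),(1,0)]⟩,⟨0,[(10,0)]⟩),.k,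
  (.r (-1) ⟨0,[(24,0),(7,1),(0,0)]⟩ ⟨0,[(3,0),(1,0),(12,0),(9,0),(0,0),(0,0),(3,0)]⟩),.k,.k,.k,[⟨0,
  [(0,0)]⟩,⟨0,[(4,0)]⟩,⟨1,[(0,0),(5,0),(4,1)]⟩,⟨0,[(9,0)]⟩]⟩) (.Q [0,1,1,0,-1,0,0,0,1,0,0,-1] (.p
  false [0,0,0,1] [] (⟨0,[(17,0)]⟩,⟨0,[(16,0)]⟩) .k 0 (⟨0,[]⟩,⟨0,[]⟩) .k .k) (.K ⟨0,[0,0,0,1],0,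
  (-1),(⟨0,[(18,0)]⟩,⟨0,[(17,0)]⟩),.k,(.x 0 ⟨11,[(4,7),(10,2),(0,2),(11,1),(0,11)]⟩ ⟨0,[(30,0),(3,
  0)]⟩),(.x 0 ⟨0,[(30,0)]⟩ ⟨3,[(15,0),(0,0),(11,1),(0,3)]⟩),.k,.k,[⟨0,[(18,0)]⟩,⟨0,[(17,0)]⟩,⟨1,
  [(15,0),(2,1),(15,0),(2,1)]⟩,⟨0,[(0,0)]⟩]⟩) (.Q [0,0,0,0,0,1,0,0,0,-1,0,1] (.p true [0,0,0,1] [1]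
  (⟨0,[(18,0)]⟩,⟨0,[(17,0)]⟩) .k 1 (⟨0,[]⟩,⟨0,[]⟩) .k .k) (.R ⟨0,false,false,true,[1,0,0,-1],[1,0,
  -1],[1],(⟨0,[(18,0)]⟩,⟨0,[(19,0)]⟩),(⟨0,[(27,0)]⟩,⟨0,[(28,0)]⟩),⟨0,[(0,0)]⟩,.k,.k,(.x (-1) ⟨3,
  [(16,0),(0,0),(11,1),(0,3)]⟩ ⟨0,[(31,0)]⟩),.k,.k,.k,⟨false,1,⟨1,[(26,1),(8,0),(0,0)]⟩,⟨0,[(10,
  0)]⟩⟩,⟨true,0,⟨0,[(18,0),(2,0)]⟩,⟨0,[(6,0),(12,0)]⟩⟩,⟨true,0,⟨0,[(4,0),(14,0),(12,0),(1,0)]⟩,⟨0,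
  [(3,0),(28,0),(1,1)]⟩⟩,⟨false,0,⟨0,[(4,0),(18,0)]⟩,⟨2,[(1,2),(0,0),(12,0),(10,0)]⟩⟩,⟨false,0,⟨0,
  []⟩,⟨0,[]⟩⟩,⟨false,0,⟨0,[]⟩,⟨0,[]⟩⟩,[.o ⟨false,0,⟨0,[(20,0)]⟩,⟨7,[(15,3),(0,0),(0,0),(11,1),(6,
  3)]⟩⟩,.o ⟨false,1,⟨1,[(23,1),(5,0),(6,0)]⟩,⟨2,[(2,0),(12,0),(10,0)]⟩⟩,.o ⟨false,1,⟨1,[(19,1),(9,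
  0),(5,0)]⟩,⟨2,[(5,0),(12,2),(10,0)]⟩⟩,.a ⟨true,0,⟨0,[(19,0)]⟩,⟨0,[(18,0)]⟩⟩ ⟨false,1,⟨1,[(35,0),
  (0,0)]⟩,⟨7,[(5,1),(2,1),(7,0),(0,0),(7,1)]⟩⟩ ⟨true,0,⟨0,[(18,0),(1,0)]⟩,⟨2,[(2,0),(12,0),(3,2),(6,
  0)]⟩⟩]⟩) (.I [1,-1,-1,0,1,0,0,0,-1] (.R ⟨1,false,false,true,[1,0,0,-1],[1,0,-1],[1,0,0,0,0,0,0,0,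
  -1],(⟨0,[(19,0)]⟩,⟨0,[(20,0)]⟩),(⟨0,[(28,0)]⟩,⟨0,[(29,0)]⟩),⟨0,[(1,0)]⟩,.k,.k,(.x (-1) ⟨3,[(17,0),
  (0,0),(11,1),(0,3)]⟩ ⟨0,[(32,0)]⟩),.k,(.r (-1) ⟨1,[(17,0),(9,1),(7,1),(0,0)]⟩ ⟨2,[(3,0),(1,2),(2,
  0),(2,0),(2,1),(5,2)]⟩),.k,⟨false,1,⟨0,[(0,0),(26,0)]⟩,⟨0,[(5,0),(5,0),(8,0),(12,0),(1,0)]⟩⟩,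
  ⟨true,0,⟨0,[(19,0),(2,0)]⟩,⟨0,[(7,0),(12,0)]⟩⟩,⟨true,0,⟨0,[]⟩,⟨0,[(39,0)]⟩⟩,⟨false,0,⟨0,[(5,0),
  (18,0)]⟩,⟨2,[(2,2),(0,0),(12,0),(10,0)]⟩⟩,⟨false,1,⟨0,[(34,0),(2,0)]⟩,⟨0,[(35,0)]⟩⟩,⟨false,0,⟨0,
  [(5,0),(8,0)]⟩,⟨2,[(2,2),(0,0),(12,0),(10,0),(7,2)]⟩⟩,[.o ⟨false,0,⟨0,[(21,0)]⟩,⟨7,[(16,3),(0,0),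
  (0,0),(11,1),(6,3)]⟩⟩,.o ⟨false,1,⟨1,[(24,1),(5,0),(6,0)]⟩,⟨2,[(3,0),(12,0),(10,0)]⟩⟩,.o ⟨false,1,
  ⟨1,[(20,1),(9,0),(5,0)]⟩,⟨2,[(6,0),(12,2),(10,0)]⟩⟩,.a ⟨true,0,⟨0,[(20,0)]⟩,⟨0,[(19,0)]⟩⟩ ⟨false,
  1,⟨0,[(0,0)]⟩,⟨4,[(5,2),(0,0),(9,0),(1,0),(1,2),(3,1),(8,0),(1,0)]⟩⟩ ⟨true,0,⟨0,[(19,0),(1,0)]⟩,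
  ⟨2,[(3,0),(12,0),(3,2),(6,0)]⟩⟩]⟩) (.I [0,0,0,-1,0,0,0,-1,1] (.R ⟨0,false,false,true,[0,0,1],[0,0,
  0,1],[0,0,1],(⟨0,[(30,0)]⟩,⟨0,[(29,0)]⟩),(⟨0,[(21,0)]⟩,⟨0,[(20,0)]⟩),⟨0,[(14,0)]⟩,.k,.k,.k,.k,.k,
  .k,⟨false,1,⟨1,[(18,0),(19,0)]⟩,⟨0,[(1,0),(35,0)]⟩⟩,⟨true,0,⟨0,[(20,0),(2,0)]⟩,⟨0,[(8,0),(12,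
  0)]⟩⟩,⟨true,0,⟨0,[(0,0),(4,0)]⟩,⟨0,[(28,0),(5,0),(1,0)]⟩⟩,⟨false,0,⟨0,[(6,0),(18,0)]⟩,⟨2,[(3,2),
  (0,0),(12,0),(10,0)]⟩⟩,⟨false,0,⟨0,[]⟩,⟨0,[]⟩⟩,⟨false,0,⟨0,[]⟩,⟨0,[]⟩⟩,[.a ⟨true,(-1),⟨0,[(1,0),
  (18,0)]⟩,⟨0,[(3,0)]⟩⟩ ⟨true,0,⟨7,[(7,1),(2,1),(7,0),(0,0),(7,1)]⟩,⟨0,[]⟩⟩ ⟨false,0,⟨1,[(1,0),(4,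
  0),(13,0),(1,0),(2,0),(2,1),(8,0)]⟩,⟨0,[(3,0),(4,0)]⟩⟩,.o ⟨false,0,⟨17,[(1,0),(4,10),(0,1),(5,4),
  (1,4),(3,2),(0,6)]⟩,⟨8,[(3,8),(3,0),(5,2),(8,2),(8,0),(2,2)]⟩⟩,.o ⟨false,0,⟨0,[(8,0)]⟩,⟨3,[(18,0),
  (0,0),(3,3),(13,1)]⟩⟩,.o ⟨false,0,⟨0,[(26,0)]⟩,⟨0,[(23,0),(13,0)]⟩⟩]⟩) (.Q [0,1,1,-1,-1,0,0,0,1,0,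
  0,-1] (.p false [0,0,0,1] [] (⟨0,[(21,0)]⟩,⟨0,[(20,0)]⟩) .k 0 (⟨0,[]⟩,⟨0,[]⟩) .k .k) (.R ⟨2,true,
  false,true,[0,1],[0,0,0,1],[0,1,1],(⟨0,[]⟩,⟨0,[]⟩),(⟨0,[(22,0)]⟩,⟨0,[(21,0)]⟩),⟨0,[]⟩,.k,.k,.k,
  (.r 0 ⟨0,[(3,0),(0,0),(3,0),(25,0),(0,0)]⟩ ⟨1,[(20,0),(16,1),(0,0)]⟩),.k,.k,⟨true,0,⟨0,[(6,0),(30,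
  0)]⟩,⟨1,[(2,1),(35,0),(0,0)]⟩⟩,⟨false,0,⟨2,[(8,0),(12,2),(10,0)]⟩,⟨0,[(22,0),(15,0)]⟩⟩,⟨false,0,
  ⟨0,[(37,0)]⟩,⟨5,[(1,1),(10,1),(7,0),(17,1),(0,2)]⟩⟩,⟨true,(-1),⟨0,[(0,0)]⟩,⟨0,[(4,0),(31,0)]⟩⟩,
  ⟨true,0,⟨0,[(41,0)]⟩,⟨0,[]⟩⟩,⟨false,0,⟨15,[(0,4),(0,0),(5,5),(4,1),(7,2),(0,4),(2,0),(0,0),(6,
  1)]⟩,⟨0,[(4,0)]⟩⟩,[]⟩) (.Q [0,0,0,0,0,-2,0,0,0,1] (.pp false [-1,1]) (.R ⟨1,false,false,true,[1,0,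
  0,-1],[0,1,1],[1,0,0,0,0,0,0,0,-1],(⟨0,[(22,0)]⟩,⟨0,[(23,0)]⟩),(⟨0,[(32,0),(2,0)]⟩,⟨0,[(0,0),(15,
  0)]⟩),⟨0,[(4,0)]⟩,.k,.k,(.x (-1) ⟨7,[(0,3),(19,2),(0,2),(11,1)]⟩ ⟨0,[(35,0)]⟩),(.r (-1) ⟨1,[(5,1),
  (0,0),(7,0),(7,1),(1,0),(13,1)]⟩ ⟨1,[(2,1),(0,1),(17,0),(18,0)]⟩),(.r (-2) ⟨1,[(14,1),(5,0),(17,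
  3),(0,1),(0,0)]⟩ ⟨0,[(1,0),(0,0),(0,1),(4,0)]⟩),.k,⟨false,2,⟨1,[(5,1),(0,0),(7,0),(7,1),(1,0),(13,
  1),(0,0),(0,0)]⟩,⟨2,[(1,0),(0,0),(0,3),(4,0),(21,1),(5,0)]⟩⟩,⟨true,0,⟨0,[(10,0),(11,0)]⟩,⟨0,[(23,
  0),(1,0)]⟩⟩,⟨true,0,⟨0,[]⟩,⟨0,[(42,0)]⟩⟩,⟨true,(-1),⟨6,[(2,1),(0,6),(2,1),(1,1),(9,2),(0,0),(2,4),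
  (13,1)]⟩,⟨0,[(5,0),(18,0),(13,0)]⟩⟩,⟨false,1,⟨5,[(2,1),(10,1),(7,0),(17,1),(0,2)]⟩,⟨0,[(38,0)]⟩⟩,
  ⟨true,(-1),⟨4,[(2,2),(0,4),(2,0),(1,2),(2,1),(6,1),(3,1),(13,2)]⟩,⟨0,[(5,0),(18,0),(13,1)]⟩⟩,[.o
  ⟨false,0,⟨9,[(2,0),(0,0),(2,0),(8,2),(2,5),(14,0),(2,0),(0,4)]⟩,⟨0,[(24,0),(13,0),(1,0)]⟩⟩,.o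
  ⟨false,0,⟨5,[(1,0),(0,0),(0,0),(2,2),(1,0),(9,2),(11,1),(5,0)]⟩,⟨1,[(27,1),(5,0),(4,1),(1,0)]⟩⟩,
  .o ⟨false,1,⟨1,[(23,1),(9,0),(5,0)]⟩,⟨2,[(9,0),(12,2),(10,0)]⟩⟩,.a ⟨true,0,⟨0,[(23,0)]⟩,⟨0,[(22,
  0)]⟩⟩ ⟨true,1,⟨1,[(20,0),(18,0)]⟩,⟨0,[(3,0)]⟩⟩ ⟨false,0,⟨6,[(2,1),(3,1),(1,1),(9,2),(0,0),(2,4),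
  (13,1)]⟩,⟨0,[(23,0),(0,0),(13,0),(1,0)]⟩⟩]⟩) (.R ⟨0,false,false,false,[1,-1],[1,0,0,-1],[0,0,0,0,
  0,0,0,0,-1],(⟨0,[(34,0)]⟩,⟨0,[(35,0)]⟩),(⟨0,[(22,0)]⟩,⟨0,[(23,0)]⟩),⟨0,[(0,0)]⟩,.k,.k,(.r (-1) ⟨0,
  [(38,1),(0,0)]⟩ ⟨2,[(13,1),(4,1),(6,1)]⟩),(.r (-1) ⟨1,[(21,0),(16,1),(0,0)]⟩ ⟨1,[(0,2),(0,5),(0,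
  0),(0,4),(0,5),(1,0),(2,0),(14,0),(13,4)]⟩),.k,.k,⟨false,1,⟨3,[(20,0),(0,0),(17,1)]⟩,⟨0,[]⟩⟩,
  ⟨true,1,⟨0,[(23,0),(15,0)]⟩,⟨0,[(9,0),(12,0)]⟩⟩,⟨true,0,⟨1,[(0,2),(0,5),(0,0),(0,4),(0,5),(1,0),
  (2,0),(14,0),(13,4)]⟩,⟨0,[(3,0),(34,0),(0,0)]⟩⟩,⟨false,1,⟨0,[(1,0)]⟩,⟨17,[(3,0),(4,10),(0,1),(5,
  4),(5,2),(0,6),(4,4),(10,12)]⟩⟩,⟨false,0,⟨0,[]⟩,⟨0,[]⟩⟩,⟨false,0,⟨0,[]⟩,⟨0,[]⟩⟩,[.o ⟨false,1,⟨1,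
  [(1,0),(3,0),(9,0),(8,0)]⟩,⟨17,[(3,0),(4,10),(0,1),(5,4),(1,4),(3,2),(0,6)]⟩⟩,.a ⟨true,1,⟨0,[(5,
  0)]⟩,⟨0,[(3,0),(18,0)]⟩⟩ ⟨true,1,⟨1,[(20,0),(19,0)]⟩,⟨0,[(3,0)]⟩⟩ ⟨false,2,⟨0,[(5,0),(33,0)]⟩,⟨2,
  [(3,1),(4,0),(0,0),(5,0),(1,0),(4,1)]⟩⟩,.o ⟨false,0,⟨2,[(9,0),(23,0)]⟩,⟨3,[(20,0),(0,0),(17,1)]⟩⟩,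
  .o ⟨false,0,⟨11,[(9,7),(10,2),(0,2),(11,1)]⟩,⟨0,[(39,0)]⟩⟩]⟩)))))))))))) (.Q [0,0,0,0,0,0,-1,0,0,
  0,1] (.p true [0,0,1] [] (⟨0,[(21,0)]⟩,⟨0,[(20,0)]⟩) .k 0 (⟨0,[]⟩,⟨0,[]⟩) .k .k) (.Q [0,0,0,1,0,0,
  0,0,0,1] (.pp false [-1,1]) (.R ⟨0,false,false,false,[0,0,1],[1,-1],[0,1],(⟨0,[(23,0)]⟩,⟨0,[(22,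
  0)]⟩),(⟨0,[(25,0)]⟩,⟨0,[(26,0)]⟩),⟨0,[(7,0)]⟩,.k,.k,.k,.k,.k,.k,⟨false,0,⟨0,[(28,0)]⟩,⟨1,[(29,1),
  (0,0),(0,0)]⟩⟩,⟨true,0,⟨0,[(16,0)]⟩,⟨0,[(3,0)]⟩⟩,⟨true,0,⟨0,[(5,0)]⟩,⟨0,[(21,0)]⟩⟩,⟨false,1,⟨0,
  [(15,0),(13,0),(1,0)]⟩,⟨0,[(9,0)]⟩⟩,⟨false,0,⟨0,[]⟩,⟨0,[]⟩⟩,⟨false,0,⟨0,[]⟩,⟨0,[]⟩⟩,[.a ⟨true,0,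
  ⟨0,[(29,0)]⟩,⟨0,[(0,0)]⟩⟩ ⟨false,0,⟨0,[(27,0),(1,0)]⟩,⟨3,[(11,0),(0,0),(18,1)]⟩⟩ ⟨true,0,⟨0,[(2,
  0)]⟩,⟨6,[(3,4),(0,2),(4,0),(0,0),(9,0)]⟩⟩,.o ⟨false,1,⟨1,[(24,0),(4,1),(1,0)]⟩,⟨0,[(28,0)]⟩⟩,.e
  ⟨true,0,⟨0,[(33,0)]⟩,⟨0,[]⟩⟩ ⟨true,0,⟨0,[(2,0)]⟩,⟨0,[(3,0),(24,0)]⟩⟩,.o ⟨false,0,⟨0,[(19,0)]⟩,⟨1,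
  [(1,1),(22,0),(5,0)]⟩⟩]⟩) (.R ⟨0,false,false,false,[0,0,1],[1,-1],[1,1],(⟨0,[(23,0)]⟩,⟨0,[(22,
  0)]⟩),(⟨0,[(25,0)]⟩,⟨0,[(26,0)]⟩),⟨0,[(7,0)]⟩,.k,.k,.k,.k,.k,.k,⟨false,0,⟨0,[(28,0)]⟩,⟨1,[(29,1),
  (0,0),(0,0)]⟩⟩,⟨true,0,⟨0,[(16,0)]⟩,⟨0,[(3,0)]⟩⟩,⟨true,0,⟨0,[(5,0)]⟩,⟨0,[(21,0)]⟩⟩,⟨false,1,⟨0,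
  [(0,0),(17,0),(12,0)]⟩,⟨0,[(9,0)]⟩⟩,⟨false,0,⟨0,[]⟩,⟨0,[]⟩⟩,⟨false,0,⟨0,[]⟩,⟨0,[]⟩⟩,[.o ⟨false,0,
  ⟨0,[(0,0)]⟩,⟨3,[(11,0),(0,0),(15,3),(2,1)]⟩⟩,.o ⟨false,1,⟨1,[(24,0),(4,1),(1,0)]⟩,⟨0,[(28,0)]⟩⟩,
  .a ⟨true,0,⟨0,[(3,0)]⟩,⟨0,[(1,0)]⟩⟩ ⟨false,0,⟨0,[]⟩,⟨3,[(11,0),(0,0),(18,1)]⟩⟩ ⟨true,0,⟨0,[(2,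
  0)]⟩,⟨0,[(3,0),(24,0)]⟩⟩,.o ⟨false,0,⟨0,[(19,0)]⟩,⟨1,[(1,1),(22,0),(5,0)]⟩⟩]⟩)) (.Q [0,0,0,0,0,0,
  -1,0,0,1,1] (.p true [1,-1,1] [] (⟨0,[(22,0),(1,0)]⟩,⟨0,[(6,0)]⟩) .k 0 (⟨0,[]⟩,⟨0,[]⟩) .k .k) (.K
  ⟨0,[1,-1,1],0,0,(⟨0,[(23,0),(1,0)]⟩,⟨0,[(7,0)]⟩),.k,(.x 0 ⟨0,[(1,2),(14,1),(6,0),(1,1)]⟩ ⟨3,[(0,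
  1),(1,1),(4,3),(18,3),(0,1),(2,2),(0,0)]⟩),.k,.k,.k,[⟨0,[(0,0)]⟩,⟨0,[(1,0)]⟩,⟨1,[(0,0),(2,0),(4,
  1)]⟩,⟨0,[(6,0)]⟩]⟩) (.I [0,0,1,1,0,0,0,0,-1] (.I [0,1,1,0,-1,0,0,0,-1] (.Q [0,1,1,0,0,0,0,0,1,0,0,
  -1] (.p false [0,0,0,1] [] (⟨0,[(16,0)]⟩,⟨0,[(15,0)]⟩) .k 0 (⟨0,[]⟩,⟨0,[]⟩) .k .k) (.K ⟨0,[0,0,0,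
  1],0,0,(⟨0,[(17,0)]⟩,⟨0,[(16,0)]⟩),.k,(.r (-1) ⟨1,[(15,0),(16,1),(0,0)]⟩ ⟨0,[(2,0)]⟩),(.x 0 ⟨0,
  [(29,0)]⟩ ⟨3,[(14,0),(0,0),(11,1),(0,3)]⟩),.k,.k,[⟨0,[(17,0)]⟩,⟨0,[(16,0)]⟩,⟨0,[(1,0),(15,0),(15,
  0)]⟩,⟨0,[(0,0)]⟩]⟩) (.R ⟨2,false,false,true,[0,1],[0,0,0,1],[],(⟨0,[]⟩,⟨0,[]⟩),(⟨0,[(17,0)]⟩,⟨0,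
  [(16,0)]⟩),⟨0,[]⟩,.k,.k,.k,(.r 0 ⟨0,[(2,0)]⟩ ⟨1,[(15,0),(16,1),(0,0)]⟩),.k,.k,⟨true,0,⟨2,[(0,1),
  (0,0),(1,0),(12,1),(2,0),(14,0)]⟩,⟨0,[(1,0),(13,0)]⟩⟩,⟨false,0,⟨2,[(3,0),(12,2),(2,1),(2,0)]⟩,⟨0,
  [(17,0),(15,0)]⟩⟩,⟨false,1,⟨1,[(32,1),(0,0),(0,0)]⟩,⟨2,[(7,0),(4,0),(6,0)]⟩⟩,⟨true,0,⟨1,[(1,1),(1,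
  0),(1,0),(9,1),(0,1),(15,0)]⟩,⟨0,[(0,0),(30,0)]⟩⟩,⟨false,1,⟨1,[(33,0),(0,0)]⟩,⟨1,[(22,0),(0,0)]⟩⟩,
  ⟨false,1,⟨7,[(14,0),(0,4),(0,7),(2,3),(2,3),(4,1)]⟩,⟨0,[(0,0)]⟩⟩,[.a ⟨true,0,⟨0,[(1,0),(13,0),(0,
  0)]⟩,⟨0,[(0,0)]⟩⟩ ⟨false,1,⟨3,[(14,0),(0,0),(17,1)]⟩,⟨0,[]⟩⟩ ⟨true,0,⟨2,[(1,2),(1,0),(11,2),(0,2),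
  (2,1),(2,0)]⟩,⟨0,[(0,0)]⟩⟩,.o ⟨false,1,⟨7,[(14,0),(0,4),(0,7),(2,3),(2,3),(4,1)]⟩,⟨13,[(0,12),(0,
  0),(1,1),(5,3),(7,0),(0,3),(0,1),(7,0),(2,3)]⟩⟩,.o ⟨false,1,⟨3,[(14,0),(0,0),(17,1)]⟩,⟨2,[(3,0),
  (15,1),(2,0)]⟩⟩,.e ⟨false,1,⟨1,[(33,0),(0,0)]⟩,⟨1,[(22,0),(0,0)]⟩⟩ ⟨false,1,⟨7,[(14,0),(0,4),(0,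
  7),(2,3),(2,3),(4,1)]⟩,⟨0,[(0,0)]⟩⟩]⟩)) (.Q [0,-1,-1,-1,0,0,0,0,-1,-1,0,1] (.p true [0,0,0,1] [1]
  (⟨0,[(16,0)]⟩,⟨0,[(15,0)]⟩) .k 1 (⟨0,[]⟩,⟨0,[]⟩) .k .k) (.Q [0,0,0,0,0,1,0,0,0,-1,0,1] (.p true
  [0,0,0,1] [1] (⟨0,[(17,0)]⟩,⟨0,[(16,0)]⟩) .k 1 (⟨0,[]⟩,⟨0,[]⟩) .k .k) (.R ⟨0,false,false,true,[1,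
  0,0,-1],[0,1],[0,1,0,0,0,0,0,0,-1],(⟨0,[(17,0)]⟩,⟨0,[(18,0)]⟩),(⟨0,[(30,0)]⟩,⟨0,[(29,0)]⟩),⟨0,[(0,
  0)]⟩,.k,.k,(.x (-1) ⟨3,[(15,0),(0,0),(11,1),(0,3)]⟩ ⟨0,[(30,0)]⟩),(.x (-1) ⟨3,[(15,0),(0,0),(11,
  1),(0,3)]⟩ ⟨0,[(30,0)]⟩),.k,.k,⟨false,0,⟨0,[(1,0),(15,0),(13,0),(1,0)]⟩,⟨11,[(8,3),(4,3),(1,2),(0,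
  8),(3,3)]⟩⟩,⟨true,0,⟨0,[(17,0)]⟩,⟨2,[(4,0),(13,2),(1,1),(2,0)]⟩⟩,⟨true,0,⟨0,[(37,0)]⟩,⟨0,[]⟩⟩,
  ⟨false,1,⟨11,[(8,3),(4,3),(1,2),(0,8),(0,11),(2,3)]⟩,⟨0,[(1,0)]⟩⟩,⟨false,0,⟨0,[]⟩,⟨0,[]⟩⟩,⟨false,
  0,⟨0,[]⟩,⟨0,[]⟩⟩,[.o ⟨false,0,⟨0,[(32,0)]⟩,⟨1,[(28,0),(4,1),(1,0)]⟩⟩,.o ⟨false,1,⟨23,[(2,11),(5,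
  3),(4,3),(1,8),(0,2),(3,3),(11,11)]⟩,⟨1,[(4,0),(1,0),(26,0)]⟩⟩,.o ⟨false,1,⟨1,[(18,1),(9,0),(5,
  0)]⟩,⟨2,[(4,0),(12,2),(2,1),(2,0)]⟩⟩,.a ⟨true,0,⟨0,[(18,0)]⟩,⟨0,[(17,0)]⟩⟩ ⟨false,0,⟨3,[(1,2),(1,
  0),(13,2),(13,1),(5,0)]⟩,⟨1,[(16,0),(6,0),(0,0),(10,0)]⟩⟩ ⟨true,0,⟨0,[(17,0),(14,0)]⟩,⟨1,[(4,0),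
  (1,0),(11,1),(14,0)]⟩⟩]⟩) (.R ⟨1,false,false,true,[1,0,0,-1],[0,1],[0,1,0,-1,0,0,0,0,-1],(⟨0,[(17,
  0)]⟩,⟨0,[(18,0)]⟩),(⟨0,[(30,0)]⟩,⟨0,[(29,0)]⟩),⟨0,[(0,0)]⟩,.k,.k,(.x (-1) ⟨3,[(15,0),(0,0),(11,1),
  (0,3)]⟩ ⟨0,[(30,0)]⟩),(.x (-1) ⟨3,[(15,0),(0,0),(11,1),(0,3)]⟩ ⟨0,[(30,0)]⟩),(.r 0 ⟨0,[(1,0),(15,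
  0),(13,0),(1,1)]⟩ ⟨11,[(8,7),(4,7),(1,2),(0,8),(3,7)]⟩),.k,⟨false,0,⟨0,[(1,0),(15,0),(13,0),(1,
  1)]⟩,⟨7,[(2,3),(5,3),(4,3),(1,0),(0,2),(3,3),(11,3)]⟩⟩,⟨true,0,⟨0,[(17,0)]⟩,⟨2,[(4,0),(13,2),(1,
  1),(2,0)]⟩⟩,⟨false,0,⟨0,[(33,0)]⟩,⟨0,[(32,0),(2,0)]⟩⟩,⟨false,1,⟨11,[(8,3),(4,3),(1,2),(0,8),(0,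
  11),(2,3)]⟩,⟨0,[(1,0)]⟩⟩,⟨true,0,⟨0,[(37,0)]⟩,⟨0,[]⟩⟩,⟨false,1,⟨7,[(2,3),(5,3),(4,3),(1,0),(0,2),
  (0,7),(2,3),(11,3)]⟩,⟨0,[(1,0),(31,0)]⟩⟩,[.o ⟨false,0,⟨0,[(32,0)]⟩,⟨1,[(28,0),(4,1),(1,0)]⟩⟩,.o
  ⟨false,1,⟨23,[(2,11),(5,3),(4,3),(1,8),(0,2),(3,3),(11,11)]⟩,⟨1,[(4,0),(1,0),(26,0)]⟩⟩,.o ⟨false,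
  1,⟨1,[(18,1),(9,0),(5,0)]⟩,⟨2,[(4,0),(12,2),(2,1),(2,0)]⟩⟩,.a ⟨true,0,⟨0,[(18,0)]⟩,⟨0,[(17,0)]⟩⟩
  ⟨false,0,⟨0,[(1,0),(15,0),(19,0)]⟩,⟨5,[(8,1),(4,1),(2,2),(3,1),(14,2)]⟩⟩ ⟨true,0,⟨0,[(17,0),(14,
  0)]⟩,⟨1,[(4,0),(1,0),(11,1),(14,0)]⟩⟩]⟩)) (.Q [0,1,-1,0,0,0,0,0,-1,0,0,1] (.p true [0,0,0,1] []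
  (⟨0,[(17,0)]⟩,⟨0,[(16,0)]⟩) .k 0 (⟨0,[]⟩,⟨0,[]⟩) .k .k) (.K ⟨0,[0,0,0,1],0,0,(⟨0,[(18,0)]⟩,⟨0,
  [(17,0)]⟩),.k,(.r (-1) ⟨1,[(16,0),(16,1),(0,0)]⟩ ⟨0,[(3,0)]⟩),(.x 0 ⟨0,[(30,0)]⟩ ⟨3,[(15,0),(0,0),
  (11,1),(0,3)]⟩),.k,.k,[⟨0,[(18,0)]⟩,⟨0,[(17,0)]⟩,⟨0,[(0,0)]⟩,⟨1,[(1,1),(2,0),(1,0),(26,0)]⟩]⟩)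
  (.Q [0,0,0,0,0,1,0,0,0,-1,0,1] (.p true [0,0,0,1] [1] (⟨0,[(18,0)]⟩,⟨0,[(17,0)]⟩) .k 1 (⟨0,[]⟩,⟨0,
  []⟩) .k .k) (.R ⟨0,false,false,false,[1,0,0,-1],[1,-1],[1],(⟨0,[(18,0)]⟩,⟨0,[(19,0)]⟩),(⟨0,[(30,
  0)]⟩,⟨0,[(31,0)]⟩),⟨0,[(0,0)]⟩,.k,.k,(.x (-1) ⟨3,[(16,0),(0,0),(11,1),(0,3)]⟩ ⟨0,[(31,0)]⟩),(.r 0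
  ⟨0,[(4,0)]⟩ ⟨1,[(17,0),(16,1),(0,0)]⟩),.k,.k,⟨true,0,⟨2,[(9,0),(4,0),(6,0)]⟩,⟨0,[(34,0)]⟩⟩,⟨false,
  0,⟨4,[(1,1),(2,1),(2,0),(3,0),(6,2),(1,0),(3,0)]⟩,⟨0,[(19,0),(15,0)]⟩⟩,⟨true,0,⟨0,[(1,0),(17,0),
  (12,0),(1,0)]⟩,⟨0,[(4,0),(27,0),(1,1)]⟩⟩,⟨false,0,⟨0,[(1,0),(32,0)]⟩,⟨1,[(16,0),(2,1),(12,1),(3,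
  0)]⟩⟩,⟨false,0,⟨0,[]⟩,⟨0,[]⟩⟩,⟨false,0,⟨0,[]⟩,⟨0,[]⟩⟩,[.o ⟨false,0,⟨1,[(5,0),(1,0),(26,0)]⟩,⟨23,
  [(3,11),(5,3),(4,3),(1,8),(0,2),(3,3),(11,11)]⟩⟩,.o ⟨false,1,⟨1,[(29,0),(4,1),(1,0)]⟩,⟨0,[(33,
  0)]⟩⟩,.o ⟨false,1,⟨1,[(19,1),(9,0),(5,0)]⟩,⟨4,[(1,1),(2,1),(2,0),(3,0),(6,2),(1,0),(3,0)]⟩⟩,.a
  ⟨true,0,⟨0,[(19,0)]⟩,⟨0,[(18,0)]⟩⟩ ⟨false,1,⟨1,[(35,0),(0,0)]⟩,⟨1,[(24,0),(0,0)]⟩⟩ ⟨true,0,⟨1,[(5,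
  0),(1,0),(10,1),(15,0)]⟩,⟨0,[(19,0),(13,0)]⟩⟩]⟩) (.Q [0,1,1,0,-1,0,0,0,1,0,0,-1] (.p false [0,0,0,
  1] [] (⟨0,[(19,0)]⟩,⟨0,[(18,0)]⟩) .k 0 (⟨0,[]⟩,⟨0,[]⟩) .k .k) (.K ⟨0,[0,0,0,1],0,(-1),(⟨0,[(20,
  0)]⟩,⟨0,[(19,0)]⟩),.k,(.r (-1) ⟨1,[(18,0),(16,1),(0,0)]⟩ ⟨0,[(5,0)]⟩),(.x 0 ⟨0,[(32,0)]⟩ ⟨3,[(17,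
  0),(0,0),(11,1),(0,3)]⟩),.k,.k,[⟨0,[(20,0)]⟩,⟨0,[(19,0)]⟩,⟨1,[(17,0),(2,1),(15,0),(2,1)]⟩,⟨0,[(0,
  0)]⟩]⟩) (.R ⟨1,false,false,false,[1,0,0,-1],[1,-1],[0,0,0,-1,0,0,0,0,-1],(⟨0,[(19,0)]⟩,⟨0,[(20,
  0)]⟩),(⟨0,[(31,0)]⟩,⟨0,[(32,0)]⟩),⟨0,[(1,0)]⟩,.k,.k,(.x (-1) ⟨3,[(17,0),(0,0),(11,1),(0,3)]⟩ ⟨0,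
  [(32,0)]⟩),(.r 0 ⟨0,[(5,0)]⟩ ⟨1,[(18,0),(16,1),(0,0)]⟩),.k,.k,⟨true,0,⟨0,[(5,0),(29,0)]⟩,⟨0,[(2,
  0),(17,0),(12,0),(1,0)]⟩⟩,⟨false,0,⟨4,[(2,1),(2,1),(2,0),(3,0),(6,2),(1,0),(3,0)]⟩,⟨0,[(20,0),(15,
  0)]⟩⟩,⟨true,0,⟨0,[(35,0)]⟩,⟨0,[(34,0)]⟩⟩,⟨false,0,⟨0,[(2,0),(32,0)]⟩,⟨0,[(0,0),(33,0)]⟩⟩,⟨false,1,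
  ⟨3,[(17,0),(0,0),(18,1)]⟩,⟨0,[]⟩⟩,⟨false,0,⟨0,[(2,0)]⟩,⟨0,[(0,0),(38,0)]⟩⟩,[.o ⟨false,0,⟨1,[(6,0),
  (1,0),(26,0)]⟩,⟨23,[(4,11),(5,3),(4,3),(1,8),(0,2),(3,3),(11,11)]⟩⟩,.o ⟨false,1,⟨1,[(30,0),(4,1),
  (1,0)]⟩,⟨0,[(34,0)]⟩⟩,.o ⟨false,1,⟨1,[(20,1),(9,0),(5,0)]⟩,⟨4,[(2,1),(2,1),(2,0),(3,0),(6,2),(1,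
  0),(3,0)]⟩⟩,.a ⟨true,0,⟨0,[(20,0)]⟩,⟨0,[(19,0)]⟩⟩ ⟨false,1,⟨1,[(0,1),(5,0),(1,0),(10,1),(15,0)]⟩,
  ⟨0,[(2,0),(17,0),(13,0)]⟩⟩ ⟨true,0,⟨1,[(6,0),(1,0),(10,1),(15,0)]⟩,⟨0,[(20,0),(13,0)]⟩⟩]⟩))))))
  (.I [1,-1,1,0,0,0,0,0,1] (.Q [0,1,1,0,-1,0,0,0,1,0,0,-1] (.p false [0,0,0,1] [] (⟨0,[(16,0)]⟩,⟨0,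
  [(15,0)]⟩) .k 0 (⟨0,[]⟩,⟨0,[]⟩) .k .k) (.K ⟨0,[0,0,0,1],0,(-1),(⟨0,[(17,0)]⟩,⟨0,[(16,0)]⟩),.k,(.x
  0 ⟨0,[(19,0),(2,0),(5,0)]⟩ ⟨0,[(29,0),(3,0)]⟩),(.x 0 ⟨0,[(29,0)]⟩ ⟨3,[(14,0),(0,0),(11,1),(0,
  3)]⟩),.k,.k,[⟨0,[(17,0)]⟩,⟨0,[(16,0)]⟩,⟨1,[(14,0),(2,1),(15,0),(2,1)]⟩,⟨0,[(0,0)]⟩]⟩) (.Q [0,0,0,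
  0,0,1,0,0,0,-1,0,1] (.p true [0,0,0,1] [1] (⟨0,[(17,0)]⟩,⟨0,[(16,0)]⟩) .k 1 (⟨0,[]⟩,⟨0,[]⟩) .k
  .k) (.R ⟨0,false,false,true,[1,0,0,-1],[0,1],[0,1,0,0,0,0,0,0,-1],(⟨0,[(17,0)]⟩,⟨0,[(18,0)]⟩),(⟨0,
  [(30,0)]⟩,⟨0,[(29,0)]⟩),⟨0,[(0,0)]⟩,.k,.k,(.x (-1) ⟨3,[(15,0),(0,0),(11,1),(0,3)]⟩ ⟨0,[(30,0)]⟩),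
  (.x (-1) ⟨3,[(15,0),(0,0),(11,1),(0,3)]⟩ ⟨0,[(30,0)]⟩),.k,.k,⟨false,1,⟨1,[(1,1),(2,0),(1,0),(10,
  1),(13,1),(1,2)]⟩,⟨0,[(2,0),(29,0)]⟩⟩,⟨true,0,⟨0,[(17,0)]⟩,⟨2,[(4,0),(13,2),(1,1),(2,0)]⟩⟩,⟨true,
  0,⟨0,[(37,0)]⟩,⟨0,[]⟩⟩,⟨false,0,⟨0,[(2,0),(14,0),(14,0)]⟩,⟨1,[(1,1),(2,0),(1,0),(26,0)]⟩⟩,⟨false,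
  0,⟨0,[]⟩,⟨0,[]⟩⟩,⟨false,0,⟨0,[]⟩,⟨0,[]⟩⟩,[.o ⟨false,0,⟨0,[(32,0)]⟩,⟨1,[(28,0),(4,1),(1,0)]⟩⟩,.o
  ⟨false,1,⟨3,[(15,0),(0,0),(15,3),(2,1)]⟩,⟨1,[(4,0),(1,0),(26,0)]⟩⟩,.o ⟨false,1,⟨1,[(18,1),(9,0),
  (5,0)]⟩,⟨2,[(4,0),(12,2),(2,1),(2,0)]⟩⟩,.a ⟨true,0,⟨0,[(18,0)]⟩,⟨0,[(17,0)]⟩⟩ ⟨false,1,⟨1,[(15,0),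
  (18,0)]⟩,⟨0,[(2,0)]⟩⟩ ⟨true,0,⟨0,[(17,0),(14,0)]⟩,⟨1,[(4,0),(1,0),(11,1),(14,0)]⟩⟩]⟩) (.I [1,-1,
  -2,-1,1,0,0,0,-1] (.R ⟨1,false,false,true,[1,0,0,-1],[0,1],[1,0,0,0,0,0,0,0,-1],(⟨0,[(18,0)]⟩,⟨0,
  [(19,0)]⟩),(⟨0,[(31,0)]⟩,⟨0,[(30,0)]⟩),⟨0,[(1,0)]⟩,.k,.k,(.x (-1) ⟨3,[(16,0),(0,0),(11,1),(0,3)]⟩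
  ⟨0,[(31,0)]⟩),(.x (-1) ⟨3,[(16,0),(0,0),(11,1),(0,3)]⟩ ⟨0,[(31,0)]⟩),(.r (-1) ⟨0,[(0,0),(33,0),(3,
  0)]⟩ ⟨2,[(3,2),(5,0),(4,0),(6,0),(11,2)]⟩),.k,⟨false,1,⟨0,[(0,0)]⟩,⟨0,[(3,0),(29,0),(4,0)]⟩⟩,
  ⟨true,0,⟨0,[(18,0)]⟩,⟨2,[(5,0),(13,2),(1,1),(2,0)]⟩⟩,⟨true,0,⟨0,[]⟩,⟨0,[(38,0)]⟩⟩,⟨false,0,⟨0,[(3,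
  0),(14,0),(14,0)]⟩,⟨1,[(2,1),(2,0),(1,0),(26,0)]⟩⟩,⟨false,1,⟨0,[(33,0),(2,0)]⟩,⟨0,[(34,0)]⟩⟩,
  ⟨false,0,⟨2,[(3,2),(5,0),(4,0),(3,2),(2,0),(10,2)]⟩,⟨1,[(2,1),(2,0),(1,0),(26,2)]⟩⟩,[.o ⟨false,0,
  ⟨0,[(33,0)]⟩,⟨1,[(29,0),(4,1),(1,0)]⟩⟩,.o ⟨false,1,⟨3,[(16,0),(0,0),(15,3),(2,1)]⟩,⟨1,[(5,0),(1,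
  0),(26,0)]⟩⟩,.o ⟨false,1,⟨1,[(19,1),(9,0),(5,0)]⟩,⟨2,[(5,0),(12,2),(2,1),(2,0)]⟩⟩,.a ⟨true,0,⟨0,
  [(19,0)]⟩,⟨0,[(18,0)]⟩⟩ ⟨false,1,⟨2,[(0,2),(8,0),(4,0),(6,0)]⟩,⟨0,[(3,0),(34,0)]⟩⟩ ⟨true,0,⟨0,
  [(18,0),(14,0)]⟩,⟨1,[(5,0),(1,0),(11,1),(14,0)]⟩⟩]⟩) (.Q [0,0,1,1,0,0,-1,-1,1,0,1,-1] (.p true [0,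
  0,1] [0,0,0,1] (⟨0,[(28,0)]⟩,⟨0,[(27,0)]⟩) .k 2 (⟨0,[(19,0)]⟩,⟨0,[(18,0)]⟩) .k (.x (-1) ⟨1,[(8,1),
  (19,1),(0,0),(5,0)]⟩ ⟨0,[(21,0),(5,0)]⟩)) (.R ⟨1,false,false,true,[1,0,0,-1],[1,0,-1],[0,0,0,-1,0,
  0,0,0,-1],(⟨0,[(19,0)]⟩,⟨0,[(20,0)]⟩),(⟨0,[(28,0)]⟩,⟨0,[(29,0)]⟩),⟨0,[(2,0)]⟩,.k,.k,(.x (-1) ⟨3,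
  [(17,0),(0,0),(11,1),(0,3)]⟩ ⟨0,[(32,0)]⟩),.k,(.r (-1) ⟨0,[(5,0),(11,0),(9,0)]⟩ ⟨0,[(0,0),(1,0),
  (3,0),(13,1),(11,0)]⟩),.k,⟨false,1,⟨2,[(3,2),(2,0),(1,2),(7,0),(2,2),(7,0)]⟩,⟨14,[(1,0),(3,11),(4,
  8),(0,5),(6,0),(14,7)]⟩⟩,⟨true,0,⟨0,[(19,0),(2,0)]⟩,⟨0,[(7,0),(12,0)]⟩⟩,⟨true,0,⟨0,[(35,0)]⟩,⟨0,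
  [(34,0)]⟩⟩,⟨false,0,⟨0,[(0,0),(34,0)]⟩,⟨2,[(3,2),(2,0),(9,0),(10,0)]⟩⟩,⟨false,1,⟨3,[(17,0),(0,0),
  (18,1)]⟩,⟨0,[]⟩⟩,⟨false,0,⟨0,[(0,0)]⟩,⟨3,[(3,3),(2,0),(1,0),(7,1),(18,2)]⟩⟩,[.o ⟨false,0,⟨0,[(21,
  0)]⟩,⟨7,[(16,3),(0,0),(0,0),(11,1),(6,3)]⟩⟩,.o ⟨false,1,⟨1,[(24,1),(5,0),(6,0)]⟩,⟨2,[(6,0),(9,0),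
  (10,0)]⟩⟩,.o ⟨false,1,⟨1,[(20,1),(9,0),(5,0)]⟩,⟨2,[(6,0),(12,2),(2,1),(2,0)]⟩⟩,.a ⟨true,0,⟨0,[(20,
  0)]⟩,⟨0,[(19,0)]⟩⟩ ⟨false,1,⟨1,[(3,1),(2,0),(1,0),(10,1),(15,0)]⟩,⟨5,[(1,0),(2,2),(5,0),(4,0),(2,
  0),(3,0),(10,1)]⟩⟩ ⟨true,0,⟨0,[(19,0),(1,0)]⟩,⟨2,[(6,0),(9,0),(3,2),(6,0)]⟩⟩]⟩) (.R ⟨1,true,false,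
  true,[1,0,0,-1],[1,0,-1],[0,0,0,-1,0,0,0,0,-1],(⟨0,[(19,0)]⟩,⟨0,[(20,0)]⟩),(⟨0,[(28,0)]⟩,⟨0,[(29,
  0)]⟩),⟨0,[(2,0)]⟩,.k,.k,(.x (-1) ⟨3,[(17,0),(0,0),(11,1),(0,3)]⟩ ⟨0,[(32,0)]⟩),.k,(.r (-1) ⟨0,[(5,
  0),(11,0),(9,0)]⟩ ⟨0,[(0,0),(1,0),(1,1),(1,0),(7,1),(17,0)]⟩),.k,⟨false,1,⟨3,[(0,1),(7,1),(8,0),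
  (1,1),(7,1),(8,0),(0,1)]⟩,⟨14,[(1,0),(3,11),(4,8),(0,5),(6,0),(14,7)]⟩⟩,⟨true,0,⟨0,[(19,0),(2,
  0)]⟩,⟨0,[(7,0),(12,0)]⟩⟩,⟨true,0,⟨0,[(35,0)]⟩,⟨0,[(34,0)]⟩⟩,⟨false,0,⟨0,[(4,0),(14,0),(1,0)]⟩,⟨3,
  [(0,1),(2,1),(11,1),(14,0),(6,0)]⟩⟩,⟨false,1,⟨3,[(17,0),(0,0),(18,1)]⟩,⟨0,[]⟩⟩,⟨true,0,⟨11,[(1,3),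
  (2,5),(9,5),(3,0),(0,11),(1,5),(8,2),(2,1)]⟩,⟨0,[(0,0)]⟩⟩,[]⟩))))) (.K ⟨0,[0,0,0,1],0,0,(⟨0,[(16,
  0)]⟩,⟨0,[(15,0)]⟩),.k,(.x 0 ⟨0,[(18,0),(2,0),(5,0)]⟩ ⟨0,[(28,0),(3,0)]⟩),(.x 0 ⟨0,[(28,0)]⟩ ⟨3,
  [(13,0),(0,0),(11,1),(0,3)]⟩),.k,.k,[⟨0,[(16,0)]⟩,⟨0,[(15,0)]⟩,⟨0,[(0,0),(15,0)]⟩,⟨2,[(1,2),(4,1),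
  (1,0),(6,2),(2,1),(0,0),(15,0)]⟩]⟩))))))

theorem ok11 : chk (cU (-1) true 3) t11 l10 = true := by decide +kernel

noncomputable def t12 : Tre :=
  (.I [0,-1,1,1,0,0,0,1] (.Q [0,0,0,1,0,0,0,0,0,1] (.pp false [-1,1]) (.R ⟨0,false,false,true,[0,0,
  1],[1,-1],[1,1,-1,-1],(⟨0,[(22,0)]⟩,⟨0,[(21,0)]⟩),(⟨0,[(24,0)]⟩,⟨0,[(25,0)]⟩),⟨0,[(6,0)]⟩,.k,.k,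
  .k,.k,.k,.k,⟨true,0,⟨0,[]⟩,⟨1,[(18,0),(0,0)]⟩⟩,⟨false,0,⟨0,[(2,0)]⟩,⟨1,[(4,1),(4,0),(2,0),(0,0),
  (15,0),(0,0)]⟩⟩,⟨false,1,⟨1,[(4,1),(23,1),(0,0),(0,0)]⟩,⟨0,[(1,0)]⟩⟩,⟨true,0,⟨0,[(14,0),(13,0)]⟩,
  ⟨0,[(8,0)]⟩⟩,⟨false,0,⟨0,[]⟩,⟨0,[]⟩⟩,⟨false,0,⟨0,[]⟩,⟨0,[]⟩⟩,[.o ⟨false,0,⟨1,[(5,0),(8,0),(13,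
  0)]⟩,⟨11,[(1,3),(1,3),(6,0),(0,0),(17,5),(0,3)]⟩⟩,.a ⟨true,0,⟨0,[(28,0)]⟩,⟨0,[(0,0)]⟩⟩ ⟨false,1,
  ⟨0,[(28,0),(0,0)]⟩,⟨8,[(1,1),(1,2),(12,0),(2,0),(7,0)]⟩⟩ ⟨true,0,⟨0,[(2,0),(25,0)]⟩,⟨0,[(0,0),(17,
  0)]⟩⟩,.o ⟨false,1,⟨3,[(10,0),(0,0),(6,3),(10,1)]⟩,⟨0,[(2,0)]⟩⟩,.o ⟨false,0,⟨0,[(18,0)]⟩,⟨3,[(2,3),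
  (7,0),(0,0),(17,1)]⟩⟩]⟩) (.K ⟨2,[1,-1,1],0,0,(⟨0,[(22,0),(1,0)]⟩,⟨0,[(6,0)]⟩),.k,(.x 0 ⟨1,[(0,3),
  (0,0),(1,0),(14,1),(3,1),(1,3),(1,0)]⟩ ⟨0,[(2,0),(18,0),(3,1),(3,0)]⟩),.k,.k,.k,[⟨0,[(0,0)]⟩,⟨0,
  [(7,0),(4,0),(0,0)]⟩,⟨0,[(2,0),(9,1),(0,1)]⟩,⟨5,[(0,3),(0,0),(1,1),(1,0),(9,0),(2,5)]⟩]⟩)) (.Q [0,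
  0,0,0,0,1,0,0,0,-1,1] (.ed false [0,1,1] .k) (.Q [0,0,0,0,0,0,1,0,0,2,-1] (.p false [-1,1,1] [1]
  (⟨0,[(0,0)]⟩,⟨0,[(21,0),(2,0)]⟩) .k 1 (⟨0,[]⟩,⟨0,[]⟩) .k .k) (.K ⟨0,[2,-1,-1],0,0,(⟨0,[(22,0),(2,
  0)]⟩,⟨0,[(1,0)]⟩),.k,(.r (-1) ⟨1,[(2,1),(26,1),(0,0),(0,0)]⟩ ⟨2,[(4,0),(4,3),(6,3)]⟩),.k,.k,.k,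
  [⟨0,[(0,0)]⟩,⟨0,[(3,0)]⟩,⟨1,[(0,0),(8,1),(8,0),(2,0),(11,0)]⟩,⟨0,[(2,0),(0,1),(15,0)]⟩]⟩) (.Q [0,
  0,0,1,0,0,0,0,0,1] (.pp false [-1,1]) (.Q [0,0,0,-2,0,0,0,0,0,-1] (.pp true [-1,1]) (.R ⟨2,false,
  false,false,[0,1],[1,-1],[],(⟨0,[]⟩,⟨0,[]⟩),(⟨0,[(27,0)]⟩,⟨0,[(28,0)]⟩),⟨0,[]⟩,.k,.k,.k,(.r 0 ⟨2,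
  [(6,1),(4,1),(6,1)]⟩ ⟨0,[(31,1),(0,0)]⟩),.k,.k,⟨true,0,⟨2,[(6,0),(4,0),(6,0)]⟩,⟨0,[(31,0)]⟩⟩,
  ⟨false,0,⟨2,[(2,0),(15,0),(2,1)]⟩,⟨0,[(15,0),(0,0),(15,0)]⟩⟩,⟨false,1,⟨1,[(31,1),(0,0),(0,0)]⟩,⟨2,
  [(6,0),(4,0),(6,0)]⟩⟩,⟨true,0,⟨0,[(0,0)]⟩,⟨0,[(10,0),(0,0)]⟩⟩,⟨false,1,⟨1,[(32,0),(0,0)]⟩,⟨1,[(21,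
  0),(0,0)]⟩⟩,⟨false,1,⟨7,[(0,3),(12,0),(0,0),(11,1),(6,3)]⟩,⟨0,[(1,0)]⟩⟩,[.a ⟨true,0,⟨0,[(31,0)]⟩,
  ⟨0,[(1,0)]⟩⟩ ⟨false,1,⟨3,[(13,0),(0,0),(17,1)]⟩,⟨0,[]⟩⟩ ⟨true,0,⟨1,[(0,0),(17,0),(2,0)]⟩,⟨0,[(1,
  0)]⟩⟩,.o ⟨false,1,⟨7,[(0,3),(12,0),(0,0),(11,1),(6,3)]⟩,⟨0,[(30,0)]⟩⟩,.o ⟨false,1,⟨3,[(13,0),(0,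
  0),(17,1)]⟩,⟨2,[(2,0),(15,0),(2,1)]⟩⟩,.e ⟨false,1,⟨1,[(32,0),(0,0)]⟩,⟨1,[(21,0),(0,0)]⟩⟩ ⟨false,1,
  ⟨7,[(0,3),(12,0),(0,0),(11,1),(6,3)]⟩,⟨0,[(1,0)]⟩⟩]⟩) (.Q [0,0,0,1,0,0,-1,-1,0,0,1] (.p true [0,0,
  1] [] (⟨0,[(25,0)]⟩,⟨0,[(24,0)]⟩) .k 0 (⟨0,[]⟩,⟨0,[]⟩) .k .k) (.R ⟨0,false,false,false,[1,0,-1],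
  [1,-1],[1,0,0,-1],(⟨0,[(25,0)]⟩,⟨0,[(26,0)]⟩),(⟨0,[(28,0)]⟩,⟨0,[(29,0)]⟩),⟨0,[(4,0)]⟩,.k,.k,.k,.k,
  .k,.k,⟨false,0,⟨0,[]⟩,⟨3,[(14,0),(0,0),(17,1)]⟩⟩,⟨true,0,⟨0,[(22,0)]⟩,⟨0,[(6,0),(9,0),(0,0)]⟩⟩,
  ⟨true,0,⟨0,[(24,0),(7,0)]⟩,⟨1,[(5,0),(1,0),(22,0)]⟩⟩,⟨false,1,⟨5,[(9,1),(3,1),(0,0),(0,0),(16,3),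
  (1,3)]⟩,⟨0,[(0,0)]⟩⟩,⟨false,0,⟨0,[]⟩,⟨0,[]⟩⟩,⟨false,0,⟨0,[]⟩,⟨0,[]⟩⟩,[.a ⟨true,0,⟨0,[(32,0)]⟩,⟨0,
  [(2,0)]⟩⟩ ⟨true,0,⟨0,[(32,0)]⟩,⟨5,[(1,0),(5,1),(5,0),(5,1)]⟩⟩ ⟨false,1,⟨7,[(5,5),(3,1),(3,1),(0,
  0),(0,0),(6,1),(10,1),(0,3)]⟩,⟨0,[(2,0),(3,0)]⟩⟩,.o ⟨false,1,⟨1,[(27,0),(4,1),(1,0)]⟩,⟨0,[(31,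
  0)]⟩⟩,.o ⟨false,0,⟨0,[(6,0)]⟩,⟨3,[(14,0),(0,0),(6,3),(10,1)]⟩⟩,.o ⟨false,0,⟨0,[(19,0)]⟩,⟨0,[(22,
  0),(10,0)]⟩⟩]⟩) (.I [1,0,-1,-2,0,0,0,1] (.R ⟨0,false,false,true,[0,0,1],[0,1],[0,1,2,1],(⟨0,[(27,
  0)]⟩,⟨0,[(26,0)]⟩),(⟨0,[(30,0)]⟩,⟨0,[(29,0)]⟩),⟨0,[(11,0)]⟩,.k,.k,.k,.k,.k,.k,⟨true,0,⟨1,[(23,0),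
  (0,0)]⟩,⟨0,[]⟩⟩,⟨false,1,⟨2,[(0,1),(1,0),(4,0),(4,1),(21,1),(0,0)]⟩,⟨0,[(23,0)]⟩⟩,⟨false,0,⟨0,[(8,
  0),(24,0)]⟩,⟨0,[(0,0),(30,0),(3,0)]⟩⟩,⟨true,0,⟨0,[(12,0)]⟩,⟨0,[(1,0)]⟩⟩,⟨false,0,⟨0,[]⟩,⟨0,[]⟩⟩,
  ⟨false,0,⟨0,[]⟩,⟨0,[]⟩⟩,[.o ⟨false,0,⟨0,[(32,0)]⟩,⟨1,[(28,0),(4,1),(1,0)]⟩⟩,.a ⟨true,0,⟨0,[(3,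
  0)]⟩,⟨0,[(33,0)]⟩⟩ ⟨false,0,⟨5,[(2,0),(5,1),(5,0),(5,1)]⟩,⟨11,[(0,3),(5,3),(8,0),(0,0),(17,7),(0,
  1)]⟩⟩ ⟨true,0,⟨0,[(3,0),(3,0)]⟩,⟨0,[(23,0),(9,0)]⟩⟩,.o ⟨false,1,⟨3,[(15,0),(0,0),(6,3),(10,1)]⟩,
  ⟨0,[(7,0)]⟩⟩,.o ⟨false,0,⟨0,[(23,0)]⟩,⟨3,[(7,3),(7,0),(0,0),(17,1)]⟩⟩]⟩) (.R ⟨0,false,false,true,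
  [0,0,1],[0,1],[1,1,1],(⟨0,[(27,0)]⟩,⟨0,[(26,0)]⟩),(⟨0,[(30,0)]⟩,⟨0,[(29,0)]⟩),⟨0,[(11,0)]⟩,.k,.k,
  .k,.k,.k,.k,⟨true,0,⟨0,[(33,0)]⟩,⟨5,[(2,0),(5,1),(5,0),(5,1)]⟩⟩,⟨false,1,⟨0,[(7,0),(9,0),(0,0),
  (15,0)]⟩,⟨0,[(23,0)]⟩⟩,⟨false,0,⟨0,[(0,0),(32,1)]⟩,⟨1,[(25,1),(8,0),(0,0)]⟩⟩,⟨true,0,⟨0,[(12,0)]⟩,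
  ⟨0,[(1,0)]⟩⟩,⟨false,0,⟨0,[]⟩,⟨0,[]⟩⟩,⟨false,0,⟨0,[]⟩,⟨0,[]⟩⟩,[.o ⟨false,0,⟨0,[(32,0)]⟩,⟨1,[(28,0),
  (4,1),(1,0)]⟩⟩,.a ⟨true,0,⟨0,[(3,0)]⟩,⟨0,[(33,0)]⟩⟩ ⟨false,0,⟨0,[]⟩,⟨3,[(15,0),(0,0),(17,1)]⟩⟩
  ⟨true,0,⟨0,[(3,0),(3,0)]⟩,⟨0,[(23,0),(9,0)]⟩⟩,.o ⟨false,1,⟨3,[(15,0),(0,0),(6,3),(10,1)]⟩,⟨0,[(7,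
  0)]⟩⟩,.o ⟨false,0,⟨0,[(23,0)]⟩,⟨3,[(7,3),(7,0),(0,0),(17,1)]⟩⟩]⟩)))) (.K ⟨2,[1,-1,1],0,0,(⟨0,[(24,
  0),(1,0)]⟩,⟨0,[(8,0)]⟩),.k,(.x 0 ⟨0,[(1,0),(18,1),(3,0),(1,1)]⟩ ⟨0,[(4,0),(18,0),(3,1),(3,0)]⟩),
  .k,.k,.k,[⟨0,[(0,0)]⟩,⟨0,[(9,0),(4,0),(0,0)]⟩,⟨0,[(4,0),(9,1),(0,1)]⟩,⟨2,[(1,0),(15,0),(2,
  4)]⟩]⟩))) (.Q [0,0,0,-1,0,0,-2,-2,0,-1,2] (.p true [0,0,1] [1,0,-1] (⟨0,[(22,0)]⟩,⟨0,[(21,0)]⟩)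
  .k 2 (⟨0,[(21,0)]⟩,⟨0,[(22,0)]⟩) .k (.r 0 ⟨0,[(20,1)]⟩ ⟨5,[(1,7),(1,3),(6,0),(0,0),(18,3)]⟩)) (.R
  ⟨0,false,false,false,[0,0,1],[1,-1,-1],[0,0,0,-1,0,0,0,-1],(⟨0,[(23,0)]⟩,⟨0,[(22,0)]⟩),(⟨0,[(1,
  0)]⟩,⟨0,[(23,0),(2,0)]⟩),⟨0,[(7,0)]⟩,.k,.k,.k,(.r 0 ⟨0,[(9,0),(6,0),(4,0)]⟩ ⟨11,[(2,19),(1,3),(6,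
  0),(0,0),(18,9)]⟩),.k,.k,⟨true,0,⟨1,[(19,0),(0,0)]⟩,⟨0,[]⟩⟩,⟨false,0,⟨0,[(3,1),(9,0),(0,0)]⟩,⟨1,
  [(2,1),(6,1),(9,1),(10,0),(0,0)]⟩⟩,⟨false,1,⟨0,[(0,0),(1,0),(6,0),(9,0),(11,0)]⟩,⟨0,[(3,0),(5,0),
  (11,0)]⟩⟩,⟨true,0,⟨0,[(0,0)]⟩,⟨0,[(10,0),(17,0)]⟩⟩,⟨false,0,⟨0,[]⟩,⟨0,[]⟩⟩,⟨false,0,⟨0,[]⟩,⟨0,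
  []⟩⟩,[.a ⟨true,0,⟨1,[(0,0),(12,0),(0,0),(14,0)]⟩,⟨0,[(9,0)]⟩⟩ ⟨false,1,⟨3,[(2,3),(8,0),(0,0),(18,
  1)]⟩,⟨0,[(3,0),(5,0)]⟩⟩ ⟨true,0,⟨0,[(0,0),(20,0)]⟩,⟨0,[(9,0),(9,0)]⟩⟩,.o ⟨false,1,⟨5,[(0,3),(5,1),
  (4,0),(0,0),(18,3)]⟩,⟨5,[(3,0),(0,0),(1,2),(2,3),(17,1),(0,0)]⟩⟩,.o ⟨false,1,⟨3,[(11,0),(0,0),(6,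
  3),(10,1)]⟩,⟨0,[(3,0)]⟩⟩,.o ⟨false,0,⟨0,[(19,0)]⟩,⟨3,[(3,3),(7,0),(0,0),(17,1)]⟩⟩]⟩) (.Q [0,0,-1,
  0,0,0,-1,0,0,0,1,1] (.p true [1,-1,1] [1,0,0,-1] (⟨0,[(23,0),(1,0)]⟩,⟨0,[(7,0)]⟩) .k 2 (⟨0,[(13,
  0)]⟩,⟨0,[(14,0)]⟩) .k (.x 0 ⟨0,[(19,0),(3,0)]⟩ ⟨3,[(3,3),(7,0),(0,0),(9,3),(7,1)]⟩)) (.I [0,0,-1,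
  -1,0,0,0,2] (.Q [0,0,0,1,0,0,0,0,0,1] (.pp false [-1,1]) (.Q [0,0,-1,0,0,0,0,1,0,1] (.pp false
  [-1,1]) (.R ⟨0,false,false,false,[0,1,-1],[1,0,-1],[1,0,1],(⟨0,[(11,0)]⟩,⟨0,[(27,0),(1,0)]⟩),(⟨0,
  [(26,0)]⟩,⟨0,[(27,0)]⟩),⟨0,[(27,0)]⟩,.k,.k,.k,.k,.k,.k,⟨false,0,⟨2,[(2,1),(5,0)]⟩,⟨11,[(6,7),(1,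
  3),(6,0),(0,0),(17,5),(0,3)]⟩⟩,⟨true,0,⟨0,[(7,0),(15,0)]⟩,⟨0,[(17,0),(0,0)]⟩⟩,⟨true,0,⟨3,[(2,1),
  (20,0),(0,0),(8,1)]⟩,⟨1,[(6,0),(1,0),(22,0)]⟩⟩,⟨false,1,⟨1,[(28,0),(4,1),(1,0)]⟩,⟨0,[(1,0)]⟩⟩,
  ⟨false,0,⟨0,[]⟩,⟨0,[]⟩⟩,⟨false,0,⟨0,[]⟩,⟨0,[]⟩⟩,[.e ⟨false,0,⟨0,[]⟩,⟨3,[(15,0),(0,0),(17,1)]⟩⟩
  ⟨false,1,⟨11,[(6,7),(1,3),(6,0),(0,0),(11,5),(6,3)]⟩,⟨0,[(0,0)]⟩⟩,.o ⟨false,1,⟨0,[(19,0),(15,0)]⟩,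
  ⟨0,[(21,0)]⟩⟩,.a ⟨true,0,⟨0,[(3,0),(13,0)]⟩,⟨0,[(23,0)]⟩⟩ ⟨true,0,⟨1,[(23,0),(0,0)]⟩,⟨5,[(2,0),(3,
  1),(24,2),(5,0)]⟩⟩ ⟨false,1,⟨0,[(19,0),(3,0),(11,0)]⟩,⟨0,[(0,0)]⟩⟩,.o ⟨false,0,⟨2,[(3,0),(3,0),(9,
  0),(6,0)]⟩,⟨1,[(23,1),(4,0),(5,0)]⟩⟩]⟩) (.R ⟨0,false,false,false,[0,1,-1],[1,0,-1],[1,0,1],(⟨0,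
  [(11,0)]⟩,⟨0,[(27,0),(1,0)]⟩),(⟨0,[(26,0)]⟩,⟨0,[(27,0)]⟩),⟨0,[(27,0)]⟩,.k,.k,.k,.k,.k,.k,⟨false,0,
  ⟨2,[(2,1),(5,0)]⟩,⟨11,[(6,7),(1,3),(6,0),(0,0),(17,5),(0,3)]⟩⟩,⟨true,0,⟨4,[(0,3),(1,0),(1,0),(15,
  1)]⟩,⟨0,[(17,0),(0,0)]⟩⟩,⟨true,0,⟨3,[(2,1),(20,0),(0,0),(8,1)]⟩,⟨1,[(6,0),(1,0),(22,0)]⟩⟩,⟨false,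
  1,⟨1,[(28,0),(4,1),(1,0)]⟩,⟨0,[(1,0)]⟩⟩,⟨false,0,⟨0,[]⟩,⟨0,[]⟩⟩,⟨false,0,⟨0,[]⟩,⟨0,[]⟩⟩,[.a ⟨true,
  0,⟨0,[(0,0),(2,0),(13,0)]⟩,⟨1,[(14,0),(2,0),(0,0)]⟩⟩ ⟨false,0,⟨0,[]⟩,⟨3,[(15,0),(0,0),(17,1)]⟩⟩
  ⟨true,0,⟨0,[(0,0)]⟩,⟨1,[(3,0),(10,0),(2,0),(6,0)]⟩⟩,.o ⟨false,1,⟨0,[(19,0),(15,0)]⟩,⟨0,[(21,0)]⟩⟩,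
  .e ⟨true,0,⟨1,[(23,0),(0,0)]⟩,⟨5,[(2,0),(3,1),(24,2),(5,0)]⟩⟩ ⟨true,0,⟨0,[(0,0)]⟩,⟨2,[(1,0),(0,1),
  (3,0),(6,1),(8,1)]⟩⟩,.o ⟨false,0,⟨2,[(3,0),(3,0),(9,0),(6,0)]⟩,⟨1,[(23,1),(4,0),(5,0)]⟩⟩]⟩)) (.K
  ⟨2,[1,-1,1],0,0,(⟨0,[(26,0),(1,0)]⟩,⟨0,[(10,0)]⟩),.k,(.x 0 ⟨1,[(0,4),(2,0),(3,1),(18,1),(1,3)]⟩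
  ⟨2,[(2,0),(3,0),(3,2),(5,0),(6,0),(5,2),(3,2)]⟩),.k,.k,.k,[⟨0,[(0,0)]⟩,⟨0,[(11,0),(4,0),(0,0)]⟩,
  ⟨1,[(2,0),(13,1),(0,0),(5,0)]⟩,⟨5,[(0,4),(2,0),(3,1),(11,1),(2,5)]⟩]⟩)) (.R ⟨0,false,false,true,
  [0,0,1],[1,0,-1],[1],(⟨0,[(25,0)]⟩,⟨0,[(24,0)]⟩),(⟨0,[(24,0)]⟩,⟨0,[(25,0)]⟩),⟨0,[(9,0)]⟩,.k,.k,.k,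
  .k,.k,.k,⟨false,1,⟨1,[(23,1),(8,0),(0,0)]⟩,⟨0,[(7,0)]⟩⟩,⟨true,0,⟨2,[(1,0),(3,3),(9,0),(6,0)]⟩,⟨0,
  [(0,0),(11,0),(18,0)]⟩⟩,⟨false,1,⟨5,[(0,1),(3,1),(8,0),(0,0),(18,3)]⟩,⟨0,[(23,0)]⟩⟩,⟨true,0,⟨5,
  [(0,2),(0,0),(2,1),(0,6),(9,0),(4,3),(10,0)]⟩,⟨0,[(12,0)]⟩⟩,⟨false,0,⟨0,[]⟩,⟨0,[]⟩⟩,⟨false,0,⟨0,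
  []⟩,⟨0,[]⟩⟩,[.o ⟨false,0,⟨0,[(17,0)]⟩,⟨7,[(12,3),(0,0),(0,0),(11,1),(6,3)]⟩⟩,.a ⟨true,0,⟨1,[(0,0),
  (0,0),(3,0),(9,0),(15,0)]⟩,⟨1,[(12,0),(2,0),(0,0)]⟩⟩ ⟨false,1,⟨1,[(32,0),(0,0)]⟩,⟨0,[(35,0)]⟩⟩
  ⟨true,0,⟨1,[(0,0),(0,0),(3,2),(9,0),(15,0)]⟩,⟨1,[(12,0),(2,0),(0,0),(4,1)]⟩⟩,.o ⟨false,1,⟨3,[(13,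
  0),(0,0),(6,3),(10,1)]⟩,⟨0,[(5,0)]⟩⟩,.o ⟨false,0,⟨0,[(21,0)]⟩,⟨3,[(5,3),(7,0),(0,0),(17,1)]⟩⟩]⟩))
  (.Q [0,0,0,-1,0,0,0,0,0,-1] (.pp true [-1,1]) (.K ⟨2,[1,-1,1],0,0,(⟨0,[(25,0),(1,0)]⟩,⟨0,[(9,
  0)]⟩),.k,(.x 0 ⟨1,[(0,4),(1,0),(3,1),(18,1),(1,3)]⟩ ⟨0,[(5,0),(18,0),(3,1),(3,0)]⟩),.k,.k,.k,[⟨0,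
  [(0,0)]⟩,⟨0,[(10,0),(4,0),(0,0)]⟩,⟨0,[(5,0),(9,1),(0,1)]⟩,⟨5,[(0,4),(1,0),(3,1),(11,1),(2,5)]⟩]⟩)
  (.I [1,0,-1,-1,0,0,0,1] (.R ⟨0,false,false,true,[0,0,1],[0,1],[0,1,2,1],(⟨0,[(26,0)]⟩,⟨0,[(25,
  0)]⟩),(⟨0,[(29,0)]⟩,⟨0,[(28,0)]⟩),⟨0,[(10,0)]⟩,.k,.k,.k,.k,.k,.k,⟨true,0,⟨1,[(22,0),(0,0)]⟩,⟨0,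
  []⟩⟩,⟨false,1,⟨3,[(0,1),(0,1),(4,1),(14,1),(11,2),(0,0)]⟩,⟨0,[(22,0)]⟩⟩,⟨false,0,⟨0,[(7,0),(24,
  0)]⟩,⟨1,[(0,1),(32,0),(0,0)]⟩⟩,⟨true,0,⟨0,[(11,0)]⟩,⟨0,[(0,0),(21,0)]⟩⟩,⟨false,0,⟨0,[]⟩,⟨0,[]⟩⟩,
  ⟨false,0,⟨0,[]⟩,⟨0,[]⟩⟩,[.o ⟨false,0,⟨0,[(31,0)]⟩,⟨1,[(27,0),(4,1),(1,0)]⟩⟩,.a ⟨true,0,⟨0,[(1,
  0)]⟩,⟨0,[(32,0)]⟩⟩ ⟨false,0,⟨5,[(1,0),(1,0),(3,1),(11,1)]⟩,⟨7,[(0,3),(4,3),(8,0),(0,0),(17,3),(0,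
  1)]⟩⟩ ⟨true,0,⟨0,[(1,0),(4,0)]⟩,⟨0,[(22,0),(9,0)]⟩⟩,.o ⟨false,1,⟨3,[(14,0),(0,0),(6,3),(10,1)]⟩,
  ⟨0,[(6,0)]⟩⟩,.o ⟨false,0,⟨0,[(22,0)]⟩,⟨3,[(6,3),(7,0),(0,0),(17,1)]⟩⟩]⟩) (.Q [0,0,0,-1,0,0,1,1,0,
  0,-1] (.p false [0,0,1] [] (⟨0,[(26,0)]⟩,⟨0,[(25,0)]⟩) .k 0 (⟨0,[]⟩,⟨0,[]⟩) .k .k) (.R ⟨0,false,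
  false,true,[0,0,1],[0,1],[1,1,1],(⟨0,[(27,0)]⟩,⟨0,[(26,0)]⟩),(⟨0,[(30,0)]⟩,⟨0,[(29,0)]⟩),⟨0,[(11,
  0)]⟩,.k,.k,.k,.k,.k,.k,⟨true,0,⟨0,[(33,0)]⟩,⟨5,[(2,0),(1,0),(3,1),(11,1)]⟩⟩,⟨false,1,⟨0,[(7,0),(9,
  0),(0,0),(15,0)]⟩,⟨0,[(23,0)]⟩⟩,⟨false,0,⟨0,[(1,0),(31,0)]⟩,⟨1,[(25,1),(8,0),(0,0)]⟩⟩,⟨true,0,⟨0,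
  [(12,0)]⟩,⟨0,[(0,0)]⟩⟩,⟨false,0,⟨0,[]⟩,⟨0,[]⟩⟩,⟨false,0,⟨0,[]⟩,⟨0,[]⟩⟩,[.o ⟨false,0,⟨0,[(32,0)]⟩,
  ⟨1,[(28,0),(4,1),(1,0)]⟩⟩,.a ⟨true,0,⟨0,[(2,0)]⟩,⟨0,[(33,0)]⟩⟩ ⟨false,0,⟨0,[]⟩,⟨3,[(15,0),(0,0),
  (17,1)]⟩⟩ ⟨true,0,⟨0,[(2,0),(4,0)]⟩,⟨0,[(23,0),(9,0)]⟩⟩,.o ⟨false,1,⟨3,[(15,0),(0,0),(6,3),(10,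
  1)]⟩,⟨0,[(7,0)]⟩⟩,.o ⟨false,0,⟨0,[(23,0)]⟩,⟨3,[(7,3),(7,0),(0,0),(17,1)]⟩⟩]⟩) (.I [0,0,-1,-1,0,0,
  0,2] (.K ⟨2,[0,1,-1],0,0,(⟨0,[(12,0)]⟩,⟨0,[(28,0),(1,0)]⟩),.k,.k,(.r 0 ⟨0,[(1,0),(0,1),(2,0),(2,
  0),(25,1)]⟩ ⟨7,[(0,3),(15,0),(0,0),(16,11),(0,5)]⟩),(.r (-1) ⟨3,[(7,3),(1,3),(6,0),(0,0),(18,1)]⟩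
  ⟨0,[(0,0)]⟩),.k,[⟨0,[(1,1),(32,0)]⟩,⟨2,[(11,0),(3,0),(18,1),(3,1)]⟩,⟨1,[(24,2),(0,0)]⟩,⟨2,[(0,0),
  (0,1),(23,0),(8,0)]⟩]⟩) (.R ⟨0,false,false,true,[0,0,1],[1,0,-1],[1],(⟨0,[(28,0)]⟩,⟨0,[(27,0)]⟩),
  (⟨0,[(27,0)]⟩,⟨0,[(28,0)]⟩),⟨0,[(12,0)]⟩,.k,.k,.k,.k,.k,.k,⟨false,1,⟨1,[(26,1),(8,0),(0,0)]⟩,⟨0,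
  [(10,0)]⟩⟩,⟨true,0,⟨0,[(8,1),(9,0),(0,0)]⟩,⟨0,[(0,0),(14,0),(18,0)]⟩⟩,⟨false,1,⟨5,[(0,1),(6,1),(8,
  0),(0,0),(18,3)]⟩,⟨0,[(26,0)]⟩⟩,⟨true,0,⟨2,[(0,0),(0,0),(5,0),(0,2),(14,1),(10,0)]⟩,⟨0,[(15,0)]⟩⟩,
  ⟨false,0,⟨0,[]⟩,⟨0,[]⟩⟩,⟨false,0,⟨0,[]⟩,⟨0,[]⟩⟩,[.o ⟨false,0,⟨0,[(20,0)]⟩,⟨7,[(15,3),(0,0),(0,0),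
  (11,1),(6,3)]⟩⟩,.a ⟨true,0,⟨0,[(1,0),(32,0)]⟩,⟨1,[(15,0),(2,0),(0,0)]⟩⟩ ⟨false,1,⟨1,[(35,0),(0,
  0)]⟩,⟨0,[(38,0)]⟩⟩ ⟨true,0,⟨0,[(1,0),(6,0),(25,0)]⟩,⟨1,[(15,0),(2,0),(0,0),(4,1)]⟩⟩,.o ⟨false,1,
  ⟨3,[(16,0),(0,0),(6,3),(10,1)]⟩,⟨0,[(8,0)]⟩⟩,.o ⟨false,0,⟨0,[(24,0)]⟩,⟨3,[(8,3),(7,0),(0,0),(17,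
  1)]⟩⟩]⟩)))))))))

theorem ok12 : chk (cU (-1) true 3) t12 r10 = true := by decide +kernel

noncomputable def t13 : Tre :=
  .Q [0,0,0,0,0,0,1,0,0,1,-1] (.p false [0,0,1] [1] (⟨0,[(19,0)]⟩,⟨0,[(18,0)]⟩) .k 1 (⟨0,[]⟩,⟨0,
  []⟩) .k .k) t11 t12

theorem ok13 : chk (cU (-1) true 3) t13 r6 = true :=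
  chk_Q (e' := [0,0,0,0,0,0,-1,0,0,-1,1]) (by decide +kernel) (by decide +kernel) ok11 ok12

noncomputable def t14 : Tre :=
  .I [0,0,-2,-2,0,0,0,1] t10 t13

theorem ok14 : chk (cU (-1) true 3) t14 l5 = true :=
  chk_I (e' := [1,0,2,2,0,0,0,-1]) (by decide +kernel) (by decide +kernel) ok10 ok13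

noncomputable def t15 : Tre :=
  (.Q [0,0,0,1,0,0,0,0,0,1] (.pp false [-1,1]) (.R ⟨0,false,false,true,[0,0,1],[1,-1],[0,1],(⟨0,
  [(19,0)]⟩,⟨0,[(18,0)]⟩),(⟨0,[(21,0)]⟩,⟨0,[(22,0)]⟩),⟨0,[(3,0)]⟩,.k,.k,.k,.k,.k,.k,⟨true,0,⟨0,[(1,
  0),(2,0),(10,0)]⟩,⟨0,[(25,0)]⟩⟩,⟨false,0,⟨0,[(1,0),(9,0)]⟩,⟨0,[(9,0),(0,0),(4,0),(10,0)]⟩⟩,⟨false,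
  1,⟨1,[(14,1),(0,1),(10,0),(0,0)]⟩,⟨0,[(1,0)]⟩⟩,⟨true,0,⟨0,[(11,0),(13,0)]⟩,⟨0,[(5,0)]⟩⟩,⟨false,0,
  ⟨0,[]⟩,⟨0,[]⟩⟩,⟨false,0,⟨0,[]⟩,⟨0,[]⟩⟩,[.o ⟨false,0,⟨1,[(2,0),(8,0),(13,0)]⟩,⟨0,[(24,0),(2,0)]⟩⟩,
  .a ⟨true,0,⟨0,[(25,0)]⟩,⟨0,[(0,0)]⟩⟩ ⟨false,1,⟨3,[(7,0),(0,0),(17,1)]⟩,⟨0,[]⟩⟩ ⟨true,0,⟨0,[(1,0),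
  (9,0),(13,0)]⟩,⟨0,[(0,0),(14,0)]⟩⟩,.o ⟨false,1,⟨3,[(7,0),(0,0),(6,3),(10,1)]⟩,⟨0,[(1,0),(9,0)]⟩⟩,
  .o ⟨false,0,⟨0,[(15,0)]⟩,⟨0,[(12,0),(13,0)]⟩⟩]⟩) (.I [0,0,-2,-2,0,0,0,1] (.K ⟨2,[1,-1,1],0,0,(⟨0,
  [(20,0),(1,0)]⟩,⟨0,[(4,0)]⟩),.k,(.r 0 ⟨0,[(0,0)]⟩ ⟨7,[(5,11),(0,3),(1,0),(0,0),(3,3),(2,11),(11,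
  5)]⟩),.k,.k,.k,[⟨0,[(1,0)]⟩,⟨0,[(5,0),(4,0),(0,0)]⟩,⟨0,[(2,0),(7,0),(0,0),(3,0)]⟩,⟨0,[(2,0),(9,0),
  (3,1)]⟩]⟩) (.K ⟨2,[1,-1,1],0,0,(⟨0,[(20,0),(1,0)]⟩,⟨0,[(4,0)]⟩),.k,(.x 0 ⟨4,[(0,3),(0,8),(0,2),(0,
  0),(12,3),(3,4),(1,9),(1,1)]⟩ ⟨0,[(2,0),(1,0),(10,0),(7,0),(3,0)]⟩),.k,.k,.k,[⟨0,[(1,0)]⟩,⟨0,[(5,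
  0),(4,0),(0,0)]⟩,⟨0,[(2,0),(7,0),(0,0),(3,0)]⟩,⟨4,[(0,1),(0,2),(0,0),(0,0),(9,0),(2,4)]⟩]⟩)))

theorem ok15 : chk (cU (-1) true 3) t15 r5 = true := by decide +kernel

noncomputable def t16 : Tre :=
  .I [0,1,0,0,0,0,0,-1] t14 t15

theorem ok16 : chk (cU (-1) true 3) t16 r4 = true :=
  chk_I (e' := [1,-1,0,0,0,0,0,1]) (by decide +kernel) (by decide +kernel) ok14 ok15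

noncomputable def t17 : Tre :=
  .Q [0,-1,0,1,0,0,-1,-1,0,1,1] (.p true [1,-1,1] [] (⟨0,[(16,0),(1,0)]⟩,⟨0,[(0,0)]⟩) .k 0 (⟨0,[]⟩,
  ⟨0,[]⟩) .k .k) t3 t16

theorem ok17 : chk (cU (-1) true 3) t17 r2 = true :=
  chk_Q (e' := [0,1,0,-1,0,0,1,1,0,-1,-1]) (by decide +kernel) (by decide +kernel) ok3 ok16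

noncomputable def t18 : Tre :=
  .Q [0,0,0,0,0,-1,0,0,0,0,1] (.ed false [1,-1,1] .k) t2 t17

theorem ok18 : chk (cU (-1) true 3) t18 l1 = true :=
  chk_Q (e' := [0,0,0,0,0,1,0,0,0,0,-1]) (by decide +kernel) (by decide +kernel) ok2 ok17

noncomputable def l11 : List Con := (false, [0,0,0,0,0,0,-1,0,0,0,1]) :: r1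

noncomputable def r11 : List Con := (false, [0,0,0,0,0,0,1,0,0,0,-1]) :: r1

noncomputable def t19 : Tre :=
  (.R ⟨2,true,false,false,[0,1],[0,0,1],[0,0,1],(⟨0,[]⟩,⟨0,[]⟩),(⟨0,[(16,0)]⟩,⟨0,[(15,0)]⟩),⟨0,[]⟩,
  .k,.k,.k,.k,.k,.k,⟨false,1,⟨1,[(11,1),(0,1),(10,0),(0,0)]⟩,⟨0,[(0,0),(0,0),(18,0)]⟩⟩,⟨true,0,⟨0,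
  [(12,0)]⟩,⟨0,[(0,0)]⟩⟩,⟨true,0,⟨0,[(22,0)]⟩,⟨0,[(21,0)]⟩⟩,⟨false,0,⟨0,[(1,0)]⟩,⟨0,[(11,0),(9,0),
  (2,0)]⟩⟩,⟨false,1,⟨3,[(4,0),(0,0),(18,1)]⟩,⟨0,[]⟩⟩,⟨true,0,⟨3,[(1,1),(1,0),(5,0),(2,0),(7,1)]⟩,⟨0,
  [(11,0)]⟩⟩,[]⟩)

theorem ok19 : chk (cU (-1) true 3) t19 l11 = true := by decide +kernel

noncomputable def l12 : List Con := (true, [0,0,1,0,0,0,0,-1]) :: r11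

noncomputable def r12 : List Con := (true, [1,0,-1,0,0,0,0,1]) :: r11

noncomputable def t20 : Tre :=
  (.R ⟨2,true,false,false,[0,1],[0,0,1],[0,0,1],(⟨0,[]⟩,⟨0,[]⟩),(⟨0,[(17,0)]⟩,⟨0,[(16,0)]⟩),⟨0,[]⟩,
  .k,.k,.k,.k,.k,.k,⟨true,0,⟨0,[(0,0)]⟩,⟨0,[(15,0)]⟩⟩,⟨false,0,⟨0,[(1,0)]⟩,⟨0,[(14,0),(9,0)]⟩⟩,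
  ⟨true,0,⟨0,[(23,0)]⟩,⟨0,[(22,0)]⟩⟩,⟨false,0,⟨0,[(2,0)]⟩,⟨0,[(12,0),(9,0),(2,0)]⟩⟩,⟨false,1,⟨3,[(5,
  0),(0,0),(18,1)]⟩,⟨0,[]⟩⟩,⟨true,0,⟨2,[(1,0),(0,0),(1,0),(5,0),(10,0)]⟩,⟨0,[(12,0)]⟩⟩,[]⟩)

theorem ok20 : chk (cU (-1) true 3) t20 l12 = true := by decide +kernel

noncomputable def l13 : List Con := (false, [0,0,0,0,0,1,0,0,0,-1,1]) :: r12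

noncomputable def r13 : List Con := (false, [0,0,0,0,0,-1,0,0,0,1,-1]) :: r12

noncomputable def l14 : List Con := (false, [0,0,-1,0,0,0,1,0,0,2,-1]) :: l13

noncomputable def r14 : List Con := (false, [0,0,1,0,0,0,-1,0,0,-2,1]) :: l13

noncomputable def t21 : Tre :=
  (.R ⟨0,false,false,false,[-1,1,1],[0,0,1],[],(⟨0,[(1,0)]⟩,⟨0,[(18,0),(2,0)]⟩),(⟨0,[(19,0)]⟩,⟨0,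
  [(18,0)]⟩),⟨0,[(18,0)]⟩,.k,.k,.k,.k,.k,.k,⟨false,1,⟨1,[(3,1),(10,1),(11,0),(0,0)]⟩,⟨0,[(17,0)]⟩⟩,
  ⟨true,0,⟨0,[(3,0),(8,0)]⟩,⟨1,[(0,0),(15,0)]⟩⟩,⟨false,1,⟨0,[(0,0),(3,0),(6,1),(15,0)]⟩,⟨0,[(5,0),
  (6,0)]⟩⟩,⟨true,0,⟨0,[(4,0),(6,0)]⟩,⟨0,[(5,0),(8,0)]⟩⟩,⟨false,0,⟨0,[]⟩,⟨0,[]⟩⟩,⟨false,0,⟨0,[]⟩,⟨0,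
  []⟩⟩,[.o ⟨false,0,⟨2,[(3,0),(0,0),(1,0),(5,0),(10,0)]⟩,⟨1,[(14,1),(5,0),(6,0)]⟩⟩,.o ⟨false,1,⟨7,
  [(6,3),(0,0),(0,0),(11,1),(6,3)]⟩,⟨0,[(11,0)]⟩⟩,.a ⟨true,0,⟨0,[(0,0)]⟩,⟨0,[(12,0)]⟩⟩ ⟨false,1,⟨3,
  [(7,0),(0,0),(18,1)]⟩,⟨0,[]⟩⟩ ⟨true,0,⟨2,[(3,0),(0,0),(1,0),(5,3),(10,0)]⟩,⟨0,[(0,0),(10,0)]⟩⟩,.o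
  ⟨false,0,⟨1,[(0,0),(14,0)]⟩,⟨1,[(12,1),(7,0),(5,0)]⟩⟩]⟩)

theorem ok21 : chk (cU (-1) true 3) t21 l14 = true := by decide +kernel

noncomputable def l15 : List Con := (false, [0,1,-1,0,-1,0,1,1,-1,0,-1,1]) :: r14

noncomputable def r15 : List Con := (false, [0,-1,1,0,1,0,-1,-1,1,0,1,-1]) :: r14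

noncomputable def t22 : Tre :=
  (.Q [0,0,0,0,0,1,0,0,0,-1,0,1] (.p true [0,0,0,1] [1] (⟨0,[(11,0)]⟩,⟨0,[(10,0)]⟩) .k 1 (⟨0,[]⟩,⟨0,
  []⟩) .k .k) (.R ⟨0,false,false,false,[1,0,0,-1],[1,0,-1],[1,0,1],(⟨0,[(11,0)]⟩,⟨0,[(12,0)]⟩),(⟨0,
  [(20,0)]⟩,⟨0,[(21,0)]⟩),⟨0,[(0,0)]⟩,.k,.k,(.x (-1) ⟨3,[(9,0),(0,0),(11,1),(0,3)]⟩ ⟨0,[(24,0)]⟩),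
  .k,.k,.k,⟨false,0,⟨0,[(19,0)]⟩,⟨1,[(5,1),(10,1),(11,0),(0,0)]⟩⟩,⟨true,0,⟨0,[(11,0),(2,0)]⟩,⟨0,[(5,
  0),(6,0)]⟩⟩,⟨false,1,⟨1,[(10,0),(6,0),(0,0),(10,0)]⟩,⟨0,[(1,0),(9,0),(1,0),(15,0)]⟩⟩,⟨true,1,⟨1,
  [(2,0),(7,0),(0,1),(4,1),(0,0),(11,0)]⟩,⟨0,[(1,0)]⟩⟩,⟨false,0,⟨0,[]⟩,⟨0,[]⟩⟩,⟨false,0,⟨0,[]⟩,⟨0,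
  []⟩⟩,[.o ⟨false,1,⟨1,[(16,1),(5,0),(6,0)]⟩,⟨4,[(2,0),(2,0),(0,0),(1,1),(16,0)]⟩⟩,.o ⟨false,1,⟨0,
  [(13,0),(15,0)]⟩,⟨0,[(15,0)]⟩⟩,.o ⟨false,1,⟨1,[(12,1),(9,0),(5,0)]⟩,⟨1,[(2,0),(8,1),(5,0)]⟩⟩,.a
  ⟨true,0,⟨0,[(12,0)]⟩,⟨0,[(11,0)]⟩⟩ ⟨true,0,⟨0,[]⟩,⟨0,[(31,0)]⟩⟩ ⟨false,1,⟨0,[(11,0),(1,0),(15,
  0)]⟩,⟨9,[(1,1),(0,0),(3,1),(0,1),(0,1),(1,0),(1,7),(4,0),(4,0)]⟩⟩]⟩) (.Q [0,0,1,1,1,0,-1,-1,1,0,1,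
  -1] (.p true [0,0,1] [0,0,0,1] (⟨0,[(21,0)]⟩,⟨0,[(20,0)]⟩) .k 2 (⟨0,[(12,0)]⟩,⟨0,[(11,0)]⟩) .k
  (.r 0 ⟨3,[(1,1),(7,0),(1,1),(2,1),(4,1),(9,0)]⟩ ⟨1,[(5,1),(4,0),(5,1),(12,0)]⟩)) (.R ⟨1,false,
  false,true,[1,0,0,-1],[1,0,-1],[1,1,0,0,0,0,0,0,-1],(⟨0,[(12,0)]⟩,⟨0,[(13,0)]⟩),(⟨0,[(21,0)]⟩,⟨0,
  [(22,0)]⟩),⟨0,[(1,0)]⟩,.k,.k,(.x (-1) ⟨3,[(10,0),(0,0),(11,1),(0,3)]⟩ ⟨0,[(25,0)]⟩),.k,(.r 0 ⟨5,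
  [(2,3),(0,1),(1,3),(4,0),(1,3),(4,1),(10,5),(1,2)]⟩ ⟨0,[(0,0),(5,0),(6,0)]⟩),.k,⟨false,0,⟨5,[(2,
  3),(0,1),(1,3),(4,0),(1,3),(4,1),(12,2)]⟩,⟨1,[(6,1),(4,0),(5,1),(12,0)]⟩⟩,⟨true,0,⟨0,[(12,0),(2,
  0)]⟩,⟨0,[(6,0),(6,0)]⟩⟩,⟨false,0,⟨0,[]⟩,⟨3,[(10,0),(0,0),(18,1)]⟩⟩,⟨false,1,⟨0,[(0,0),(27,0)]⟩,⟨0,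
  [(2,0),(27,0)]⟩⟩,⟨true,0,⟨0,[(27,0)]⟩,⟨0,[(28,0)]⟩⟩,⟨false,1,⟨0,[(0,0)]⟩,⟨0,[(2,0),(25,0),(1,
  0)]⟩⟩,[.o ⟨false,0,⟨0,[(14,0)]⟩,⟨7,[(9,3),(0,0),(0,0),(11,1),(6,3)]⟩⟩,.o ⟨false,1,⟨1,[(17,1),(5,
  0),(6,0)]⟩,⟨4,[(3,0),(2,0),(0,0),(1,1),(16,0)]⟩⟩,.o ⟨false,1,⟨1,[(13,1),(9,0),(5,0)]⟩,⟨1,[(3,0),
  (8,1),(5,0)]⟩⟩,.a ⟨true,0,⟨0,[(13,0)]⟩,⟨0,[(12,0)]⟩⟩ ⟨false,0,⟨0,[(2,0),(9,0),(1,0),(15,0)]⟩,⟨1,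
  [(11,0),(6,0),(0,0),(10,0)]⟩⟩ ⟨true,0,⟨0,[(12,0),(1,0)]⟩,⟨9,[(2,1),(0,0),(3,1),(0,1),(0,1),(1,0),
  (1,7),(4,0),(4,0)]⟩⟩]⟩) (.Q [0,0,1,2,1,0,0,0,1,1,0,-1] (.p false [0,0,0,1] [1] (⟨0,[(13,0)]⟩,⟨0,
  [(12,0)]⟩) .k 1 (⟨0,[]⟩,⟨0,[]⟩) .k .k) (.R ⟨1,false,false,true,[1,0,0,-1],[0,1],[1,1,0,0,0,0,0,0,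
  -1],(⟨0,[(13,0)]⟩,⟨0,[(14,0)]⟩),(⟨0,[(26,0)]⟩,⟨0,[(25,0)]⟩),⟨0,[(2,0)]⟩,.k,.k,(.x (-1) ⟨3,[(11,0),
  (0,0),(11,1),(0,3)]⟩ ⟨0,[(26,0)]⟩),(.x (-1) ⟨3,[(11,0),(0,0),(11,1),(0,3)]⟩ ⟨0,[(26,0)]⟩),(.r 0
  ⟨1,[(1,1),(11,1),(1,1),(13,1),(0,0),(0,0)]⟩ ⟨1,[(0,1),(3,0),(9,1),(4,0)]⟩),.k,⟨false,0,⟨1,[(1,1),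
  (11,1),(1,1),(14,0),(0,0)]⟩,⟨15,[(0,7),(10,0),(0,4),(1,7),(1,3),(2,3),(4,1)]⟩⟩,⟨true,0,⟨0,[(13,
  0)]⟩,⟨1,[(4,0),(9,1),(4,0)]⟩⟩,⟨false,0,⟨0,[]⟩,⟨3,[(11,0),(0,0),(18,1)]⟩⟩,⟨false,1,⟨7,[(0,3),(10,
  0),(0,2),(0,3),(5,1),(0,1)]⟩,⟨0,[(1,0),(13,0),(15,0)]⟩⟩,⟨true,0,⟨0,[(28,0)]⟩,⟨0,[(29,0)]⟩⟩,⟨false,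
  1,⟨0,[(0,0)]⟩,⟨0,[(1,0),(13,0),(13,0),(1,0)]⟩⟩,[.o ⟨false,0,⟨0,[(28,0)]⟩,⟨1,[(24,0),(4,1),(1,
  0)]⟩⟩,.o ⟨false,1,⟨9,[(0,3),(10,1),(2,3),(9,1),(2,1),(2,0),(0,0)]⟩,⟨0,[(8,0),(6,0)]⟩⟩,.o ⟨false,1,
  ⟨1,[(14,1),(9,0),(5,0)]⟩,⟨1,[(4,0),(8,1),(5,0)]⟩⟩,.a ⟨true,0,⟨0,[(14,0)]⟩,⟨0,[(13,0)]⟩⟩ ⟨false,0,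
  ⟨0,[(3,0),(9,0),(1,0),(15,0)]⟩,⟨1,[(12,0),(6,0),(0,0),(10,0)]⟩⟩ ⟨true,0,⟨0,[(13,0),(14,0)]⟩,⟨0,
  [(8,0),(5,0),(0,0)]⟩⟩]⟩) (.R ⟨1,true,false,false,[1,0,0,-1],[0,1],[1,1,0,0,0,0,0,0,-1],(⟨0,[(13,
  0)]⟩,⟨0,[(14,0)]⟩),(⟨0,[(26,0)]⟩,⟨0,[(25,0)]⟩),⟨0,[(2,0)]⟩,.k,.k,(.x (-1) ⟨3,[(11,0),(0,0),(11,1),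
  (0,3)]⟩ ⟨0,[(26,0)]⟩),(.x (-1) ⟨3,[(11,0),(0,0),(11,1),(0,3)]⟩ ⟨0,[(26,0)]⟩),(.x 0 ⟨0,[(4,0),(2,
  0),(17,1)]⟩ ⟨3,[(11,0),(0,0),(13,7),(3,1)]⟩),.k,⟨false,(-1),⟨0,[(0,0),(12,0),(13,0)]⟩,⟨3,[(11,0),
  (0,2),(6,1),(0,1),(7,3),(2,3)]⟩⟩,⟨true,0,⟨0,[(13,0)]⟩,⟨1,[(4,0),(9,1),(4,0)]⟩⟩,⟨false,0,⟨0,[]⟩,⟨3,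
  [(11,0),(0,0),(18,1)]⟩⟩,⟨true,1,⟨1,[(12,0),(0,1),(5,0),(0,0),(7,1),(2,0)]⟩,⟨1,[(0,0),(2,0),(11,
  0)]⟩⟩,⟨true,0,⟨0,[(28,0)]⟩,⟨0,[(29,0)]⟩⟩,⟨false,2,⟨1,[(12,0),(0,1),(5,0),(0,0),(7,3),(2,2)]⟩,⟨0,
  [(0,0)]⟩⟩,[]⟩))))

theorem ok22 : chk (cU (-1) true 3) t22 l15 = true := by decide +kernel

noncomputable def l16 : List Con := (true, [1,-1,0,-1,0,0,0,1]) :: r15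

noncomputable def r16 : List Con := (true, [0,1,0,1,0,0,0,-1]) :: r15

noncomputable def t23 : Tre :=
  (.I [1,-1,-1,0,1,0,0,0,-1] (.I [1,-1,-1,0,1,0,0,-1] (.Q [0,0,0,0,0,1,0,0,0,0,-1] (.ed true [1,-1,
  1] .k) (.Q [0,0,0,0,0,0,-1,0,0,1,1] (.p true [1,-1,1] [] (⟨0,[(24,0),(1,0)]⟩,⟨0,[(0,0)]⟩) .k 0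
  (⟨0,[]⟩,⟨0,[]⟩) .k .k) (.R ⟨0,false,false,true,[0,1,-1],[0,1],[0,1,1,1,0,0,0,-1],(⟨0,[(1,0)]⟩,⟨0,
  [(25,0),(1,0)]⟩),(⟨0,[(28,0)]⟩,⟨0,[(27,0)]⟩),⟨0,[(25,0)]⟩,.k,.k,.k,.k,.k,.k,⟨false,1,⟨0,[(2,0),
  (32,0)]⟩,⟨0,[(23,0)]⟩⟩,⟨true,0,⟨0,[(9,0)]⟩,⟨0,[(22,0)]⟩⟩,⟨true,0,⟨0,[(35,0)]⟩,⟨0,[]⟩⟩,⟨false,0,⟨4,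
  [(6,0),(2,0),(0,0),(1,1),(16,0)]⟩,⟨0,[(20,0),(12,0)]⟩⟩,⟨false,0,⟨0,[]⟩,⟨0,[]⟩⟩,⟨false,0,⟨0,[]⟩,⟨0,
  []⟩⟩,[.o ⟨false,0,⟨0,[(30,0)]⟩,⟨1,[(26,0),(4,1),(1,0)]⟩⟩,.o ⟨false,1,⟨3,[(13,0),(0,0),(15,3),(2,
  1)]⟩,⟨0,[(10,0),(6,0)]⟩⟩,.o ⟨false,1,⟨1,[(0,1),(25,0),(5,0)]⟩,⟨1,[(6,0),(2,1),(11,0)]⟩⟩,.a ⟨true,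
  0,⟨0,[(0,0)]⟩,⟨0,[(9,0)]⟩⟩ ⟨false,1,⟨1,[(2,0),(17,0),(0,0),(8,1),(2,0)]⟩,⟨0,[(4,0)]⟩⟩ ⟨true,0,⟨0,
  [(9,0),(20,0)]⟩,⟨0,[(4,0),(15,0)]⟩⟩]⟩) (.Q [0,0,1,1,0,0,0,0,1,1,0,-1] (.p false [0,0,0,1] [1] (⟨0,
  [(16,0)]⟩,⟨0,[(15,0)]⟩) .k 1 (⟨0,[]⟩,⟨0,[]⟩) .k .k) (.I [1,0,-1,-1,0,0,0,0,1] (.Q [0,1,-1,0,0,0,0,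
  0,-1,0,0,1] (.p true [0,0,0,1] [] (⟨0,[(18,0)]⟩,⟨0,[(17,0)]⟩) .k 0 (⟨0,[]⟩,⟨0,[]⟩) .k .k) (.K ⟨0,
  [0,0,0,1],0,0,(⟨0,[(19,0)]⟩,⟨0,[(18,0)]⟩),.k,(.x 0 ⟨0,[(21,0),(2,0),(5,0)]⟩ ⟨0,[(31,0),(3,0)]⟩),
  (.x 0 ⟨0,[(31,0)]⟩ ⟨3,[(16,0),(0,0),(11,1),(0,3)]⟩),.k,.k,[⟨0,[(19,0)]⟩,⟨0,[(18,0)]⟩,⟨0,[(0,0)]⟩,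
  ⟨3,[(1,0),(0,2),(6,0),(8,0),(1,1),(1,1),(1,0),(9,1)]⟩]⟩) (.Q [0,0,0,0,0,1,0,0,0,-1,0,1] (.p true
  [0,0,0,1] [1] (⟨0,[(19,0)]⟩,⟨0,[(18,0)]⟩) .k 1 (⟨0,[]⟩,⟨0,[]⟩) .k .k) (.R ⟨0,false,false,true,[1,
  0,0,-1],[0,1],[0,1,0,0,0,0,0,0,-1],(⟨0,[(19,0)]⟩,⟨0,[(20,0)]⟩),(⟨0,[(32,0)]⟩,⟨0,[(31,0)]⟩),⟨0,[(0,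
  0)]⟩,.k,.k,(.x (-1) ⟨3,[(17,0),(0,0),(11,1),(0,3)]⟩ ⟨0,[(32,0)]⟩),(.x (-1) ⟨3,[(17,0),(0,0),(11,
  1),(0,3)]⟩ ⟨0,[(32,0)]⟩),.k,.k,⟨false,1,⟨0,[(7,0),(25,0),(1,1)]⟩,⟨3,[(1,0),(1,2),(0,0),(5,0),(9,
  3),(12,0)]⟩⟩,⟨true,0,⟨0,[(19,0)]⟩,⟨1,[(10,0),(9,1),(4,0)]⟩⟩,⟨true,0,⟨0,[(39,0)]⟩,⟨0,[]⟩⟩,⟨false,0,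
  ⟨0,[(3,0)]⟩,⟨0,[(7,0),(6,0),(5,0),(0,0)]⟩⟩,⟨false,0,⟨0,[]⟩,⟨0,[]⟩⟩,⟨false,0,⟨0,[]⟩,⟨0,[]⟩⟩,[.o
  ⟨false,0,⟨0,[(34,0)]⟩,⟨1,[(30,0),(4,1),(1,0)]⟩⟩,.o ⟨false,1,⟨3,[(17,0),(0,0),(15,3),(2,1)]⟩,⟨0,
  [(14,0),(6,0)]⟩⟩,.o ⟨false,1,⟨1,[(20,1),(9,0),(5,0)]⟩,⟨1,[(10,0),(8,1),(5,0)]⟩⟩,.a ⟨true,0,⟨0,
  [(20,0)]⟩,⟨0,[(19,0)]⟩⟩ ⟨false,1,⟨1,[(17,0),(18,0)]⟩,⟨0,[(1,0),(18,0)]⟩⟩ ⟨true,0,⟨0,[(19,0),(14,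
  0)]⟩,⟨0,[(14,0),(5,0),(0,0)]⟩⟩]⟩) (.Q [0,0,1,2,0,0,0,0,1,1,0,-1] (.p false [0,0,0,1] [1] (⟨0,[(20,
  0)]⟩,⟨0,[(19,0)]⟩) .k 1 (⟨0,[]⟩,⟨0,[]⟩) .k .k) (.R ⟨1,false,false,true,[1,0,0,-1],[0,1],[1,1,0,0,
  0,0,0,0,-1],(⟨0,[(20,0)]⟩,⟨0,[(21,0)]⟩),(⟨0,[(33,0)]⟩,⟨0,[(32,0)]⟩),⟨0,[(1,0)]⟩,.k,.k,(.x (-1) ⟨3,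
  [(18,0),(0,0),(11,1),(0,3)]⟩ ⟨0,[(33,0)]⟩),(.x (-1) ⟨3,[(18,0),(0,0),(11,1),(0,3)]⟩ ⟨0,[(33,0)]⟩),
  (.r (-1) ⟨0,[(8,0),(25,0),(1,2)]⟩ ⟨1,[(0,1),(10,0),(9,1),(4,0)]⟩),.k,⟨false,1,⟨0,[(8,0),(25,0),(1,
  1)]⟩,⟨2,[(0,1),(2,0),(7,0),(9,1),(4,0)]⟩⟩,⟨true,0,⟨0,[(20,0)]⟩,⟨1,[(11,0),(9,1),(4,0)]⟩⟩,⟨false,0,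
  ⟨0,[]⟩,⟨3,[(18,0),(0,0),(18,1)]⟩⟩,⟨false,0,⟨0,[(4,0)]⟩,⟨0,[(8,0),(6,0),(5,0),(0,0)]⟩⟩,⟨true,0,⟨0,
  [(35,0)]⟩,⟨0,[(36,0)]⟩⟩,⟨false,0,⟨0,[(0,0)]⟩,⟨0,[(8,0),(6,0),(5,0),(0,0),(13,0)]⟩⟩,[.o ⟨false,0,
  ⟨0,[(35,0)]⟩,⟨1,[(31,0),(4,1),(1,0)]⟩⟩,.o ⟨false,1,⟨3,[(18,0),(0,0),(15,3),(2,1)]⟩,⟨0,[(15,0),(6,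
  0)]⟩⟩,.o ⟨false,1,⟨1,[(21,1),(9,0),(5,0)]⟩,⟨1,[(11,0),(8,1),(5,0)]⟩⟩,.a ⟨true,0,⟨0,[(21,0)]⟩,⟨0,
  [(20,0)]⟩⟩ ⟨false,1,⟨1,[(18,0),(18,0)]⟩,⟨0,[(2,0),(18,0)]⟩⟩ ⟨true,0,⟨0,[(20,0),(14,0)]⟩,⟨0,[(15,
  0),(5,0),(0,0)]⟩⟩]⟩) (.R ⟨1,true,false,false,[1,0,0,-1],[0,1],[1,1,0,0,0,0,0,0,-1],(⟨0,[(20,0)]⟩,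
  ⟨0,[(21,0)]⟩),(⟨0,[(33,0)]⟩,⟨0,[(32,0)]⟩),⟨0,[(1,0)]⟩,.k,.k,(.x (-1) ⟨3,[(18,0),(0,0),(11,1),(0,
  3)]⟩ ⟨0,[(33,0)]⟩),(.x (-1) ⟨3,[(18,0),(0,0),(11,1),(0,3)]⟩ ⟨0,[(33,0)]⟩),(.x 0 ⟨3,[(5,1),(5,2),
  (14,0),(5,7)]⟩ ⟨3,[(18,0),(0,0),(13,7),(3,1)]⟩),.k,⟨false,0,⟨0,[(0,0),(19,0),(13,0)]⟩,⟨3,[(4,1),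
  (6,0),(7,0),(1,1),(4,0),(8,1),(2,2)]⟩⟩,⟨true,0,⟨0,[(20,0)]⟩,⟨1,[(11,0),(9,1),(4,0)]⟩⟩,⟨false,0,⟨0,
  []⟩,⟨3,[(18,0),(0,0),(18,1)]⟩⟩,⟨true,0,⟨0,[(4,0)]⟩,⟨0,[(0,0),(34,0)]⟩⟩,⟨true,0,⟨0,[(35,0)]⟩,⟨0,
  [(36,0)]⟩⟩,⟨false,1,⟨0,[(4,0),(30,0),(2,0)]⟩,⟨0,[(0,0)]⟩⟩,[]⟩)))) (.Q [0,1,-1,0,0,0,0,0,-1,0,0,1]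
  (.p true [0,0,0,1] [] (⟨0,[(18,0)]⟩,⟨0,[(17,0)]⟩) .k 0 (⟨0,[]⟩,⟨0,[]⟩) .k .k) (.K ⟨0,[0,0,0,1],0,
  0,(⟨0,[(19,0)]⟩,⟨0,[(18,0)]⟩),.k,(.r (-1) ⟨1,[(17,0),(16,1),(0,0)]⟩ ⟨0,[(1,0)]⟩),(.x 0 ⟨0,[(31,
  0)]⟩ ⟨3,[(16,0),(0,0),(11,1),(0,3)]⟩),.k,.k,[⟨0,[(19,0)]⟩,⟨0,[(18,0)]⟩,⟨0,[(0,0)]⟩,⟨8,[(2,8),(0,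
  1),(5,0),(1,0),(8,4),(1,3),(11,8)]⟩]⟩) (.Q [0,0,0,0,0,1,0,0,0,-1,0,1] (.p true [0,0,0,1] [1] (⟨0,
  [(19,0)]⟩,⟨0,[(18,0)]⟩) .k 1 (⟨0,[]⟩,⟨0,[]⟩) .k .k) (.R ⟨0,false,false,true,[1,0,0,-1],[0,1],[0,1,
  0,0,0,0,0,0,-1],(⟨0,[(19,0)]⟩,⟨0,[(20,0)]⟩),(⟨0,[(32,0)]⟩,⟨0,[(31,0)]⟩),⟨0,[(0,0)]⟩,.k,.k,(.x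
  (-1) ⟨3,[(17,0),(0,0),(11,1),(0,3)]⟩ ⟨0,[(32,0)]⟩),(.x (-1) ⟨3,[(17,0),(0,0),(11,1),(0,3)]⟩ ⟨0,
  [(32,0)]⟩),.k,.k,⟨false,1,⟨0,[(7,0),(25,0),(1,1)]⟩,⟨3,[(1,0),(1,2),(0,0),(5,0),(9,3),(12,0)]⟩⟩,
  ⟨true,0,⟨0,[(19,0)]⟩,⟨1,[(10,0),(9,1),(4,0)]⟩⟩,⟨true,0,⟨0,[(39,0)]⟩,⟨0,[]⟩⟩,⟨false,0,⟨0,[(3,0)]⟩,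
  ⟨0,[(7,0),(6,0),(5,0),(0,0)]⟩⟩,⟨false,0,⟨0,[]⟩,⟨0,[]⟩⟩,⟨false,0,⟨0,[]⟩,⟨0,[]⟩⟩,[.o ⟨false,0,⟨0,
  [(34,0)]⟩,⟨1,[(30,0),(4,1),(1,0)]⟩⟩,.o ⟨false,1,⟨3,[(17,0),(0,0),(15,3),(2,1)]⟩,⟨0,[(14,0),(6,
  0)]⟩⟩,.o ⟨false,1,⟨1,[(20,1),(9,0),(5,0)]⟩,⟨1,[(10,0),(8,1),(5,0)]⟩⟩,.a ⟨true,0,⟨0,[(20,0)]⟩,⟨0,
  [(19,0)]⟩⟩ ⟨false,1,⟨1,[(17,0),(18,0)]⟩,⟨0,[(1,0),(18,0)]⟩⟩ ⟨true,0,⟨0,[(19,0),(14,0)]⟩,⟨0,[(14,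
  0),(5,0),(0,0)]⟩⟩]⟩) (.R ⟨1,false,false,false,[1,0,0,-1],[1,-1],[1,0,0,0,0,0,0,0,-1],(⟨0,[(19,
  0)]⟩,⟨0,[(20,0)]⟩),(⟨0,[(31,0)]⟩,⟨0,[(32,0)]⟩),⟨0,[(0,0)]⟩,.k,.k,(.x (-1) ⟨3,[(17,0),(0,0),(11,1),
  (0,3)]⟩ ⟨0,[(32,0)]⟩),(.r 0 ⟨0,[(2,0)]⟩ ⟨1,[(18,0),(16,1),(0,0)]⟩),.k,.k,⟨true,0,⟨0,[(2,0)]⟩,⟨0,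
  [(1,0),(18,0),(12,0),(1,1)]⟩⟩,⟨false,0,⟨1,[(10,0),(8,1),(5,0)]⟩,⟨0,[(20,0),(15,0)]⟩⟩,⟨true,0,⟨0,
  []⟩,⟨0,[(39,0)]⟩⟩,⟨false,0,⟨0,[(1,0),(33,0)]⟩,⟨0,[(7,0),(12,0),(13,0)]⟩⟩,⟨false,1,⟨0,[(34,0),(2,
  0)]⟩,⟨0,[(35,0)]⟩⟩,⟨false,0,⟨0,[(1,0)]⟩,⟨1,[(17,0),(2,1),(15,0)]⟩⟩,[.o ⟨false,0,⟨0,[(14,0),(6,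
  0)]⟩,⟨3,[(17,0),(0,0),(15,3),(2,1)]⟩⟩,.o ⟨false,1,⟨1,[(30,0),(4,1),(1,0)]⟩,⟨0,[(34,0)]⟩⟩,.o
  ⟨false,1,⟨1,[(20,1),(9,0),(5,0)]⟩,⟨1,[(10,0),(8,1),(5,0)]⟩⟩,.a ⟨true,0,⟨0,[(20,0)]⟩,⟨0,[(19,0)]⟩⟩
  ⟨false,1,⟨0,[(7,0)]⟩,⟨0,[(1,0),(18,0),(18,0)]⟩⟩ ⟨true,0,⟨0,[(14,0),(4,0),(1,0)]⟩,⟨0,[(20,0),(13,
  0)]⟩⟩]⟩)))) (.I [0,0,1,1,0,0,0,0,-1] (.Q [0,1,1,0,0,0,0,0,1,0,0,-1] (.p false [0,0,0,1] [] (⟨0,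
  [(18,0)]⟩,⟨0,[(17,0)]⟩) .k 0 (⟨0,[]⟩,⟨0,[]⟩) .k .k) (.K ⟨0,[0,0,0,1],0,0,(⟨0,[(19,0)]⟩,⟨0,[(18,
  0)]⟩),.k,(.r (-1) ⟨1,[(17,0),(16,1),(0,0)]⟩ ⟨0,[(1,0)]⟩),(.x 0 ⟨0,[(31,0)]⟩ ⟨3,[(16,0),(0,0),(11,
  1),(0,3)]⟩),.k,.k,[⟨0,[(19,0)]⟩,⟨0,[(18,0)]⟩,⟨0,[(2,0),(11,0),(8,0)]⟩,⟨0,[(0,0)]⟩]⟩) (.Q [0,0,0,0,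
  0,1,0,0,0,-1,0,1] (.p true [0,0,0,1] [1] (⟨0,[(19,0)]⟩,⟨0,[(18,0)]⟩) .k 1 (⟨0,[]⟩,⟨0,[]⟩) .k .k)
  (.R ⟨0,false,false,true,[1,0,0,-1],[0,1],[0,1,0,0,0,0,0,0,-1],(⟨0,[(19,0)]⟩,⟨0,[(20,0)]⟩),(⟨0,
  [(32,0)]⟩,⟨0,[(31,0)]⟩),⟨0,[(0,0)]⟩,.k,.k,(.x (-1) ⟨3,[(17,0),(0,0),(11,1),(0,3)]⟩ ⟨0,[(32,0)]⟩),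
  (.x (-1) ⟨3,[(17,0),(0,0),(11,1),(0,3)]⟩ ⟨0,[(32,0)]⟩),.k,.k,⟨false,0,⟨1,[(1,1),(2,0),(7,0),(6,1),
  (1,0),(11,0),(1,2)]⟩,⟨0,[(2,0),(15,0)]⟩⟩,⟨true,0,⟨0,[(19,0)]⟩,⟨1,[(10,0),(9,1),(4,0)]⟩⟩,⟨true,0,
  ⟨0,[(39,0)]⟩,⟨0,[]⟩⟩,⟨false,1,⟨0,[(9,0),(5,0),(23,0)]⟩,⟨0,[(1,0),(12,0),(6,0)]⟩⟩,⟨false,0,⟨0,[]⟩,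
  ⟨0,[]⟩⟩,⟨false,0,⟨0,[]⟩,⟨0,[]⟩⟩,[.o ⟨false,0,⟨0,[(34,0)]⟩,⟨7,[(3,3),(5,3),(4,3),(2,0),(0,0),(11,
  1)]⟩⟩,.o ⟨false,1,⟨3,[(17,0),(0,0),(15,3),(2,1)]⟩,⟨0,[(14,0),(6,0)]⟩⟩,.o ⟨false,1,⟨1,[(20,1),(9,
  0),(5,0)]⟩,⟨1,[(10,0),(8,1),(5,0)]⟩⟩,.a ⟨true,0,⟨0,[(20,0)]⟩,⟨0,[(19,0)]⟩⟩ ⟨false,0,⟨7,[(1,2),(0,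
  0),(0,3),(0,0),(5,0),(8,6),(13,2)]⟩,⟨1,[(18,0),(6,0),(0,0),(10,0)]⟩⟩ ⟨true,0,⟨0,[(19,0),(14,0)]⟩,
  ⟨0,[(14,0),(5,0),(0,0)]⟩⟩]⟩) (.R ⟨1,false,false,true,[1,0,0,-1],[0,1],[1,1,0,0,0,0,0,0,-1],(⟨0,
  [(19,0)]⟩,⟨0,[(20,0)]⟩),(⟨0,[(32,0)]⟩,⟨0,[(31,0)]⟩),⟨0,[(0,0)]⟩,.k,.k,(.x (-1) ⟨3,[(17,0),(0,0),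
  (11,1),(0,3)]⟩ ⟨0,[(32,0)]⟩),(.x (-1) ⟨3,[(17,0),(0,0),(11,1),(0,3)]⟩ ⟨0,[(32,0)]⟩),(.r 0 ⟨1,[(1,
  1),(2,0),(7,0),(6,1),(1,0),(11,0),(1,4)]⟩ ⟨1,[(9,1),(0,0),(4,1),(4,1),(4,0),(8,1)]⟩),.k,⟨false,0,
  ⟨1,[(1,1),(2,0),(7,0),(6,1),(1,0),(11,0),(1,2)]⟩,⟨0,[(2,0),(15,0)]⟩⟩,⟨true,0,⟨0,[(19,0)]⟩,⟨1,[(10,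
  0),(9,1),(4,0)]⟩⟩,⟨false,0,⟨0,[]⟩,⟨3,[(17,0),(0,0),(18,1)]⟩⟩,⟨false,1,⟨0,[(9,0),(5,0),(23,0)]⟩,⟨0,
  [(1,0),(12,0),(6,0)]⟩⟩,⟨true,0,⟨0,[(34,0)]⟩,⟨0,[(35,0)]⟩⟩,⟨false,1,⟨0,[(9,0),(5,0),(18,0)]⟩,⟨0,
  [(1,0),(12,0),(6,0),(13,0)]⟩⟩,[.o ⟨false,0,⟨0,[(34,0)]⟩,⟨7,[(3,3),(5,3),(4,3),(2,0),(0,0),(11,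
  1)]⟩⟩,.o ⟨false,1,⟨3,[(17,0),(0,0),(15,3),(2,1)]⟩,⟨0,[(14,0),(6,0)]⟩⟩,.o ⟨false,1,⟨1,[(20,1),(9,
  0),(5,0)]⟩,⟨1,[(10,0),(8,1),(5,0)]⟩⟩,.a ⟨true,0,⟨0,[(20,0)]⟩,⟨0,[(19,0)]⟩⟩ ⟨false,0,⟨7,[(1,2),(0,
  0),(0,3),(0,0),(5,0),(8,6),(13,2)]⟩,⟨1,[(18,0),(6,0),(0,0),(10,0)]⟩⟩ ⟨true,0,⟨0,[(19,0),(14,0)]⟩,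
  ⟨0,[(14,0),(5,0),(0,0)]⟩⟩]⟩))) (.I [0,0,-1,-1,0,0,0,0,1] (.K ⟨0,[0,0,0,1],0,0,(⟨0,[(19,0)]⟩,⟨0,
  [(18,0)]⟩),.k,(.r 0 ⟨0,[(0,0)]⟩ ⟨1,[(16,0),(7,0),(0,0),(7,1),(2,0)]⟩),(.x 0 ⟨0,[(31,0)]⟩ ⟨3,[(16,
  0),(0,0),(11,1),(0,3)]⟩),.k,.k,[⟨0,[(19,0)]⟩,⟨0,[(18,0)]⟩,⟨0,[(2,0),(11,0),(8,0)]⟩,⟨0,[(1,0),(16,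
  0),(2,0),(2,0),(8,0)]⟩]⟩) (.K ⟨0,[0,0,0,1],0,0,(⟨0,[(19,0)]⟩,⟨0,[(18,0)]⟩),.k,(.x 0 ⟨0,[(21,0),(2,
  0),(5,0)]⟩ ⟨0,[(31,0),(3,0)]⟩),(.x 0 ⟨0,[(31,0)]⟩ ⟨3,[(16,0),(0,0),(11,1),(0,3)]⟩),.k,.k,[⟨0,[(19,
  0)]⟩,⟨0,[(18,0)]⟩,⟨0,[(2,0),(11,0),(8,0)]⟩,⟨0,[(1,0),(16,0),(2,0),(2,0),(8,0)]⟩]⟩))))) (.Q [0,1,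
  -1,-1,-1,0,1,1,-1,0,-1,1] (.p false [0,0,1] [0,0,0,1] (⟨0,[(24,0)]⟩,⟨0,[(23,0)]⟩) .k 2 (⟨0,[(15,
  0)]⟩,⟨0,[(14,0)]⟩) .k (.x (-1) ⟨0,[(20,0),(3,0),(6,0)]⟩ ⟨0,[(17,0),(5,0)]⟩)) (.R ⟨1,true,false,
  false,[0,0,1],[0,0,0,1],[0,0,0,-1,0,0,0,1],(⟨0,[(25,0)]⟩,⟨0,[(24,0)]⟩),(⟨0,[(16,0)]⟩,⟨0,[(15,
  0)]⟩),⟨0,[(1,0)]⟩,.k,.k,.k,.k,(.r 0 ⟨4,[(0,1),(2,0),(0,2),(3,1),(4,0),(1,1),(1,1)]⟩ ⟨0,[(5,0),(3,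
  0),(6,0),(13,0)]⟩),.k,⟨false,0,⟨4,[(0,1),(2,0),(0,2),(3,1),(4,0),(1,1),(1,1)]⟩,⟨0,[(5,0),(3,0),(6,
  0),(12,0)]⟩⟩,⟨true,0,⟨0,[(15,0),(2,0)]⟩,⟨0,[(9,0),(6,0)]⟩⟩,⟨true,0,⟨0,[(31,0)]⟩,⟨0,[(30,0)]⟩⟩,
  ⟨false,1,⟨0,[(5,0)]⟩,⟨4,[(0,2),(2,1),(2,0),(2,0),(1,1),(4,1),(12,0),(3,0)]⟩⟩,⟨false,1,⟨3,[(13,0),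
  (0,0),(18,1)]⟩,⟨0,[]⟩⟩,⟨true,1,⟨0,[(5,0),(24,0)]⟩,⟨0,[(0,0)]⟩⟩,[]⟩) (.Q [0,1,-1,0,0,0,0,0,-1,0,0,
  1] (.p true [0,0,0,1] [] (⟨0,[(16,0)]⟩,⟨0,[(15,0)]⟩) .k 0 (⟨0,[]⟩,⟨0,[]⟩) .k .k) (.Q [0,1,1,0,0,0,
  0,0,1,0,0,-1] (.p false [0,0,0,1] [] (⟨0,[(17,0)]⟩,⟨0,[(16,0)]⟩) .k 0 (⟨0,[]⟩,⟨0,[]⟩) .k .k) (.K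
  ⟨0,[0,0,0,1],0,0,(⟨0,[(18,0)]⟩,⟨0,[(17,0)]⟩),.k,(.x 0 ⟨0,[(20,0),(2,0),(5,0)]⟩ ⟨0,[(30,0),(3,
  0)]⟩),(.x 0 ⟨0,[(30,0)]⟩ ⟨3,[(15,0),(0,0),(11,1),(0,3)]⟩),.k,.k,[⟨0,[(18,0)]⟩,⟨0,[(17,0)]⟩,⟨0,[(1,
  0)]⟩,⟨0,[(0,0)]⟩]⟩) (.Q [0,0,0,0,0,1,0,0,0,-1,0,1] (.p true [0,0,0,1] [1] (⟨0,[(18,0)]⟩,⟨0,[(17,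
  0)]⟩) .k 1 (⟨0,[]⟩,⟨0,[]⟩) .k .k) (.R ⟨0,false,false,true,[1,0,0,-1],[0,1],[0,1,0,0,0,0,0,0,-1],
  (⟨0,[(18,0)]⟩,⟨0,[(19,0)]⟩),(⟨0,[(31,0)]⟩,⟨0,[(30,0)]⟩),⟨0,[(0,0)]⟩,.k,.k,(.x (-1) ⟨3,[(16,0),(0,
  0),(11,1),(0,3)]⟩ ⟨0,[(31,0)]⟩),(.x (-1) ⟨3,[(16,0),(0,0),(11,1),(0,3)]⟩ ⟨0,[(31,0)]⟩),.k,.k,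
  ⟨false,0,⟨0,[(1,0),(11,0),(4,0),(1,0),(11,0),(1,0)]⟩,⟨5,[(3,1),(10,1),(1,0),(0,2),(1,1),(1,1),(2,
  1),(8,1)]⟩⟩,⟨true,0,⟨0,[(18,0)]⟩,⟨1,[(9,0),(9,1),(4,0)]⟩⟩,⟨true,0,⟨0,[(38,0)]⟩,⟨0,[]⟩⟩,⟨false,1,
  ⟨0,[(8,0),(5,0),(23,0)]⟩,⟨0,[(1,0),(11,0),(6,0)]⟩⟩,⟨false,0,⟨0,[]⟩,⟨0,[]⟩⟩,⟨false,0,⟨0,[]⟩,⟨0,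
  []⟩⟩,[.o ⟨false,0,⟨0,[(33,0)]⟩,⟨1,[(29,0),(4,1),(1,0)]⟩⟩,.o ⟨false,1,⟨3,[(16,0),(0,0),(15,3),(2,
  1)]⟩,⟨0,[(13,0),(6,0)]⟩⟩,.o ⟨false,1,⟨1,[(1,0),(0,0),(14,0),(11,0)]⟩,⟨1,[(9,0),(8,1),(5,0)]⟩⟩,.a
  ⟨true,0,⟨0,[(19,0)]⟩,⟨0,[(18,0)]⟩⟩ ⟨false,0,⟨2,[(1,1),(0,0),(6,0),(2,0),(0,0),(4,2),(1,0),(11,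
  0)]⟩,⟨1,[(17,0),(6,0),(0,0),(10,0)]⟩⟩ ⟨true,0,⟨0,[(18,0),(14,0)]⟩,⟨0,[(13,0),(5,0),(0,0)]⟩⟩]⟩)
  (.R ⟨1,false,false,true,[1,0,0,-1],[0,1],[0,1,0,-1,0,0,0,0,-1],(⟨0,[(18,0)]⟩,⟨0,[(19,0)]⟩),(⟨0,
  [(31,0)]⟩,⟨0,[(30,0)]⟩),⟨0,[(0,0)]⟩,.k,.k,(.x (-1) ⟨3,[(16,0),(0,0),(11,1),(0,3)]⟩ ⟨0,[(31,0)]⟩),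
  (.x (-1) ⟨3,[(16,0),(0,0),(11,1),(0,3)]⟩ ⟨0,[(31,0)]⟩),(.r 0 ⟨0,[(1,0),(11,0),(4,0),(1,0),(11,0),
  (1,1)]⟩ ⟨11,[(3,7),(10,7),(1,0),(0,2),(1,7),(1,7),(2,7),(8,7)]⟩),.k,⟨false,0,⟨0,[(1,0),(11,0),(4,
  0),(1,0),(11,0),(1,1)]⟩,⟨5,[(3,3),(5,0),(4,3),(2,0),(1,3),(4,0),(4,0),(3,3)]⟩⟩,⟨true,0,⟨0,[(18,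
  0)]⟩,⟨1,[(9,0),(9,1),(4,0)]⟩⟩,⟨false,0,⟨0,[(34,0)]⟩,⟨0,[(33,0),(2,0)]⟩⟩,⟨false,1,⟨0,[(8,0),(5,0),
  (23,0)]⟩,⟨0,[(1,0),(11,0),(6,0)]⟩⟩,⟨true,0,⟨0,[(38,0)]⟩,⟨0,[]⟩⟩,⟨false,1,⟨0,[(3,0),(10,0),(23,
  0)]⟩,⟨0,[(1,0),(11,0),(6,0),(13,0)]⟩⟩,[.o ⟨false,0,⟨0,[(33,0)]⟩,⟨1,[(29,0),(4,1),(1,0)]⟩⟩,.o
  ⟨false,1,⟨3,[(16,0),(0,0),(15,3),(2,1)]⟩,⟨0,[(13,0),(6,0)]⟩⟩,.o ⟨false,1,⟨1,[(1,0),(0,0),(14,0),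
  (11,0)]⟩,⟨1,[(9,0),(8,1),(5,0)]⟩⟩,.a ⟨true,0,⟨0,[(19,0)]⟩,⟨0,[(18,0)]⟩⟩ ⟨false,0,⟨1,[(1,0),(0,0),
  (10,1),(4,1),(1,1)]⟩,⟨3,[(3,1),(5,0),(4,1),(2,0),(1,1),(4,0),(11,0)]⟩⟩ ⟨true,0,⟨0,[(18,0),(14,
  0)]⟩,⟨0,[(13,0),(5,0),(0,0)]⟩⟩]⟩))) (.Q [0,0,0,0,0,1,0,0,0,-1,0,1] (.p true [0,0,0,1] [1] (⟨0,
  [(17,0)]⟩,⟨0,[(16,0)]⟩) .k 1 (⟨0,[]⟩,⟨0,[]⟩) .k .k) (.R ⟨0,false,false,true,[1,0,0,-1],[0,1],[0,1,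
  0,0,0,0,0,0,-1],(⟨0,[(17,0)]⟩,⟨0,[(18,0)]⟩),(⟨0,[(30,0)]⟩,⟨0,[(29,0)]⟩),⟨0,[(0,0)]⟩,.k,.k,(.x
  (-1) ⟨3,[(15,0),(0,0),(11,1),(0,3)]⟩ ⟨0,[(30,0)]⟩),(.x (-1) ⟨3,[(15,0),(0,0),(11,1),(0,3)]⟩ ⟨0,
  [(30,0)]⟩),.k,.k,⟨false,1,⟨0,[(5,0),(25,0),(1,1)]⟩,⟨0,[(1,0),(16,0),(13,0)]⟩⟩,⟨true,0,⟨0,[(17,
  0)]⟩,⟨1,[(8,0),(9,1),(4,0)]⟩⟩,⟨true,0,⟨0,[(37,0)]⟩,⟨0,[]⟩⟩,⟨false,0,⟨0,[(1,0),(11,0),(8,0)]⟩,⟨0,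
  [(5,0),(6,0),(5,0),(0,0)]⟩⟩,⟨false,0,⟨0,[]⟩,⟨0,[]⟩⟩,⟨false,0,⟨0,[]⟩,⟨0,[]⟩⟩,[.o ⟨false,0,⟨0,[(32,
  0)]⟩,⟨1,[(28,0),(4,1),(1,0)]⟩⟩,.o ⟨false,1,⟨3,[(15,0),(0,0),(15,3),(2,1)]⟩,⟨0,[(12,0),(6,0)]⟩⟩,.o
  ⟨false,1,⟨1,[(18,1),(9,0),(5,0)]⟩,⟨1,[(8,0),(8,1),(5,0)]⟩⟩,.a ⟨true,0,⟨0,[(18,0)]⟩,⟨0,[(17,0)]⟩⟩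
  ⟨false,1,⟨1,[(15,0),(18,0)]⟩,⟨0,[(1,0),(16,0)]⟩⟩ ⟨true,0,⟨0,[(17,0),(14,0)]⟩,⟨0,[(12,0),(5,0),(0,
  0)]⟩⟩]⟩) (.Q [0,0,1,2,0,0,0,0,1,1,0,-1] (.p false [0,0,0,1] [1] (⟨0,[(18,0)]⟩,⟨0,[(17,0)]⟩) .k 1
  (⟨0,[]⟩,⟨0,[]⟩) .k .k) (.R ⟨1,false,false,true,[1,0,0,-1],[0,1],[1,1,0,0,0,0,0,0,-1],(⟨0,[(18,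
  0)]⟩,⟨0,[(19,0)]⟩),(⟨0,[(31,0)]⟩,⟨0,[(30,0)]⟩),⟨0,[(1,0)]⟩,.k,.k,(.x (-1) ⟨3,[(16,0),(0,0),(11,1),
  (0,3)]⟩ ⟨0,[(31,0)]⟩),(.x (-1) ⟨3,[(16,0),(0,0),(11,1),(0,3)]⟩ ⟨0,[(31,0)]⟩),(.r (-1) ⟨0,[(6,0),
  (25,0),(1,2)]⟩ ⟨1,[(0,1),(8,0),(9,1),(4,0)]⟩),.k,⟨false,1,⟨0,[(6,0),(25,0),(1,1)]⟩,⟨8,[(0,3),(1,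
  4),(6,0),(2,0),(6,8),(0,1),(1,1),(9,0)]⟩⟩,⟨true,0,⟨0,[(18,0)]⟩,⟨1,[(9,0),(9,1),(4,0)]⟩⟩,⟨false,0,
  ⟨0,[]⟩,⟨3,[(16,0),(0,0),(18,1)]⟩⟩,⟨false,0,⟨0,[(0,0),(33,0)]⟩,⟨0,[(6,0),(6,0),(5,0),(0,0)]⟩⟩,
  ⟨true,0,⟨0,[(33,0)]⟩,⟨0,[(34,0)]⟩⟩,⟨false,0,⟨0,[(0,0)]⟩,⟨0,[(6,0),(6,0),(5,0),(0,0),(13,0)]⟩⟩,[.o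
  ⟨false,0,⟨0,[(33,0)]⟩,⟨1,[(29,0),(4,1),(1,0)]⟩⟩,.o ⟨false,1,⟨3,[(16,0),(0,0),(15,3),(2,1)]⟩,⟨0,
  [(13,0),(6,0)]⟩⟩,.o ⟨false,1,⟨1,[(19,1),(9,0),(5,0)]⟩,⟨1,[(9,0),(8,1),(5,0)]⟩⟩,.a ⟨true,0,⟨0,[(19,
  0)]⟩,⟨0,[(18,0)]⟩⟩ ⟨false,1,⟨1,[(16,0),(18,0)]⟩,⟨0,[(2,0),(16,0)]⟩⟩ ⟨true,0,⟨0,[(18,0),(14,0)]⟩,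
  ⟨0,[(13,0),(5,0),(0,0)]⟩⟩]⟩) (.R ⟨1,true,false,true,[1,0,0,-1],[0,1],[0,0,0,-1,0,0,0,0,-1],(⟨0,
  [(18,0)]⟩,⟨0,[(19,0)]⟩),(⟨0,[(31,0)]⟩,⟨0,[(30,0)]⟩),⟨0,[(1,0)]⟩,.k,.k,(.x (-1) ⟨3,[(16,0),(0,0),
  (11,1),(0,3)]⟩ ⟨0,[(31,0)]⟩),(.x (-1) ⟨3,[(16,0),(0,0),(11,1),(0,3)]⟩ ⟨0,[(31,0)]⟩),(.x 0 ⟨0,[(9,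
  0),(2,0),(17,1)]⟩ ⟨3,[(16,0),(0,0),(13,7),(3,1)]⟩),.k,⟨false,1,⟨1,[(0,1),(17,1),(16,0),(0,0)]⟩,⟨0,
  [(2,0),(16,0),(13,1)]⟩⟩,⟨true,0,⟨0,[(18,0)]⟩,⟨1,[(9,0),(9,1),(4,0)]⟩⟩,⟨true,0,⟨0,[(34,0)]⟩,⟨0,
  [(33,0)]⟩⟩,⟨false,0,⟨0,[(2,0),(11,0),(8,0)]⟩,⟨3,[(0,1),(5,1),(12,1),(9,0),(6,0)]⟩⟩,⟨false,1,⟨3,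
  [(16,0),(0,0),(18,1)]⟩,⟨0,[]⟩⟩,⟨true,0,⟨0,[(2,0),(11,0),(8,0),(9,0)]⟩,⟨0,[(0,0)]⟩⟩,[]⟩)))))) (.Q
  [0,0,0,0,0,1,0,0,0,0,-1] (.ed true [1,-1,1] .k) (.Q [0,0,0,0,0,0,-1,0,0,1,1] (.p true [1,-1,1] []
  (⟨0,[(24,0),(1,0)]⟩,⟨0,[(0,0)]⟩) .k 0 (⟨0,[]⟩,⟨0,[]⟩) .k .k) (.R ⟨0,false,false,true,[0,1,-1],[0,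
  1],[0,1,1,1,0,0,0,-1],(⟨0,[(1,0)]⟩,⟨0,[(25,0),(1,0)]⟩),(⟨0,[(28,0)]⟩,⟨0,[(27,0)]⟩),⟨0,[(25,0)]⟩,
  .k,.k,.k,.k,.k,.k,⟨false,1,⟨1,[(9,1),(10,1),(11,0),(0,0)]⟩,⟨0,[(23,0)]⟩⟩,⟨true,0,⟨0,[(9,0)]⟩,⟨0,
  [(22,0)]⟩⟩,⟨true,0,⟨0,[(35,0)]⟩,⟨0,[]⟩⟩,⟨false,0,⟨4,[(6,0),(2,0),(0,0),(1,1),(16,0)]⟩,⟨0,[(20,0),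
  (12,0)]⟩⟩,⟨false,0,⟨0,[]⟩,⟨0,[]⟩⟩,⟨false,0,⟨0,[]⟩,⟨0,[]⟩⟩,[.o ⟨false,0,⟨0,[(30,0)]⟩,⟨1,[(26,0),(4,
  1),(1,0)]⟩⟩,.o ⟨false,1,⟨3,[(13,0),(0,0),(15,3),(2,1)]⟩,⟨0,[(10,0),(6,0)]⟩⟩,.o ⟨false,1,⟨1,[(0,1),
  (25,0),(5,0)]⟩,⟨1,[(6,0),(2,1),(11,0)]⟩⟩,.a ⟨true,0,⟨0,[(0,0)]⟩,⟨0,[(9,0)]⟩⟩ ⟨false,1,⟨0,[(9,0),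
  (10,0),(9,0),(2,0)]⟩,⟨0,[(4,0)]⟩⟩ ⟨true,0,⟨0,[(9,0),(20,0)]⟩,⟨0,[(4,0),(15,0)]⟩⟩]⟩) (.Q [0,1,-1,0,
  0,0,0,0,-1,0,0,1] (.p true [0,0,0,1] [] (⟨0,[(16,0)]⟩,⟨0,[(15,0)]⟩) .k 0 (⟨0,[]⟩,⟨0,[]⟩) .k .k)
  (.K ⟨0,[0,0,0,1],0,0,(⟨0,[(17,0)]⟩,⟨0,[(16,0)]⟩),.k,(.x 0 ⟨0,[(19,0),(2,0),(5,0)]⟩ ⟨0,[(29,0),(3,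
  0)]⟩),(.x 0 ⟨0,[(29,0)]⟩ ⟨3,[(14,0),(0,0),(11,1),(0,3)]⟩),.k,.k,[⟨0,[(17,0)]⟩,⟨0,[(16,0)]⟩,⟨0,[(0,
  0)]⟩,⟨4,[(1,1),(1,2),(2,0),(8,1),(0,3),(1,1),(3,0),(13,0)]⟩]⟩) (.Q [0,0,0,0,0,1,0,0,0,-1,0,1] (.p
  true [0,0,0,1] [1] (⟨0,[(17,0)]⟩,⟨0,[(16,0)]⟩) .k 1 (⟨0,[]⟩,⟨0,[]⟩) .k .k) (.R ⟨0,false,false,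
  true,[1,0,0,-1],[0,1],[0,1,0,0,0,0,0,0,-1],(⟨0,[(17,0)]⟩,⟨0,[(18,0)]⟩),(⟨0,[(30,0)]⟩,⟨0,[(29,
  0)]⟩),⟨0,[(0,0)]⟩,.k,.k,(.x (-1) ⟨3,[(15,0),(0,0),(11,1),(0,3)]⟩ ⟨0,[(30,0)]⟩),(.x (-1) ⟨3,[(15,
  0),(0,0),(11,1),(0,3)]⟩ ⟨0,[(30,0)]⟩),.k,.k,⟨false,1,⟨0,[(5,0),(25,0),(1,1)]⟩,⟨0,[(1,0),(16,0),
  (13,0)]⟩⟩,⟨true,0,⟨0,[(17,0)]⟩,⟨1,[(8,0),(9,1),(4,0)]⟩⟩,⟨true,0,⟨0,[(37,0)]⟩,⟨0,[]⟩⟩,⟨false,0,⟨0,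
  [(1,0),(11,0),(8,0)]⟩,⟨0,[(5,0),(6,0),(5,0),(0,0)]⟩⟩,⟨false,0,⟨0,[]⟩,⟨0,[]⟩⟩,⟨false,0,⟨0,[]⟩,⟨0,
  []⟩⟩,[.o ⟨false,0,⟨0,[(32,0)]⟩,⟨1,[(28,0),(4,1),(1,0)]⟩⟩,.o ⟨false,1,⟨3,[(15,0),(0,0),(15,3),(2,
  1)]⟩,⟨0,[(12,0),(6,0)]⟩⟩,.o ⟨false,1,⟨1,[(18,1),(9,0),(5,0)]⟩,⟨1,[(8,0),(8,1),(5,0)]⟩⟩,.a ⟨true,0,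
  ⟨0,[(18,0)]⟩,⟨0,[(17,0)]⟩⟩ ⟨false,1,⟨1,[(15,0),(18,0)]⟩,⟨0,[(1,0),(16,0)]⟩⟩ ⟨true,0,⟨0,[(17,0),
  (14,0)]⟩,⟨0,[(12,0),(5,0),(0,0)]⟩⟩]⟩) (.Q [0,-1,1,2,0,0,1,1,1,2,-1,-1] (.p false [-1,1,1] [1,0,0,
  -1] (⟨0,[(9,0)]⟩,⟨0,[(26,0),(2,0)]⟩) .k 2 (⟨0,[(17,0)]⟩,⟨0,[(18,0)]⟩) .k (.r 0 ⟨2,[(1,0),(2,0),(5,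
  1),(5,0),(1,0)]⟩ ⟨0,[(5,0),(16,0),(0,0)]⟩)) (.R ⟨1,false,false,true,[1,0,0,-1],[0,1],[1,1,0,0,0,0,
  0,0,-1],(⟨0,[(18,0)]⟩,⟨0,[(19,0)]⟩),(⟨0,[(31,0)]⟩,⟨0,[(30,0)]⟩),⟨0,[(1,0)]⟩,.k,.k,(.x (-1) ⟨3,
  [(16,0),(0,0),(11,1),(0,3)]⟩ ⟨0,[(31,0)]⟩),(.x (-1) ⟨3,[(16,0),(0,0),(11,1),(0,3)]⟩ ⟨0,[(31,0)]⟩),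
  (.r (-1) ⟨0,[(6,0),(25,0),(1,2)]⟩ ⟨1,[(0,1),(8,0),(9,1),(0,1),(3,0)]⟩),.k,⟨false,1,⟨0,[(6,0),(25,
  0),(1,1)]⟩,⟨31,[(0,15),(1,7),(0,5),(1,3),(3,2),(7,3),(1,23),(0,19),(3,0)]⟩⟩,⟨true,0,⟨0,[(18,0)]⟩,
  ⟨1,[(9,0),(9,1),(4,0)]⟩⟩,⟨false,0,⟨0,[]⟩,⟨3,[(16,0),(0,0),(18,1)]⟩⟩,⟨false,0,⟨1,[(0,0),(1,0),(20,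
  0),(14,0)]⟩,⟨0,[(6,0),(6,0),(5,0),(0,0)]⟩⟩,⟨true,0,⟨0,[(33,0)]⟩,⟨0,[(34,0)]⟩⟩,⟨false,0,⟨0,[(0,0),
  (19,0)]⟩,⟨0,[(6,0),(6,0),(5,0),(0,0),(13,0)]⟩⟩,[.o ⟨false,0,⟨0,[(33,0)]⟩,⟨1,[(29,0),(4,1),(1,
  0)]⟩⟩,.o ⟨false,1,⟨3,[(16,0),(0,0),(15,3),(2,1)]⟩,⟨0,[(13,0),(6,0)]⟩⟩,.o ⟨false,1,⟨1,[(19,1),(9,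
  0),(5,0)]⟩,⟨1,[(9,0),(8,1),(5,0)]⟩⟩,.a ⟨true,0,⟨0,[(19,0)]⟩,⟨0,[(18,0)]⟩⟩ ⟨false,1,⟨1,[(16,0),(18,
  0)]⟩,⟨0,[(2,0),(16,0)]⟩⟩ ⟨true,0,⟨0,[(18,0),(14,0)]⟩,⟨0,[(13,0),(5,0),(0,0)]⟩⟩]⟩) (.R ⟨1,true,
  false,false,[1,0,0,-1],[-1,1,1],[1,0,0,0,0,0,0,0,-1],(⟨0,[(18,0)]⟩,⟨0,[(19,0)]⟩),(⟨0,[(10,0)]⟩,⟨0,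
  [(27,0),(2,0)]⟩),⟨0,[(1,0)]⟩,.k,.k,(.x (-1) ⟨3,[(16,0),(0,0),(11,1),(0,3)]⟩ ⟨0,[(31,0)]⟩),(.r
  (-1) ⟨0,[(6,0),(5,0),(10,0),(10,0)]⟩ ⟨8,[(2,4),(2,1),(5,0),(2,5),(2,1),(1,4),(1,5),(10,2)]⟩),(.r
  (-1) ⟨1,[(0,1),(11,1),(5,3),(0,1),(15,0),(0,0)]⟩ ⟨0,[(2,0),(11,0),(4,0),(1,0),(11,0)]⟩),.k,⟨false,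
  1,⟨0,[(0,0),(11,0),(5,1),(0,0),(12,0),(3,0)]⟩,⟨8,[(2,4),(2,1),(5,0),(2,5),(2,1),(1,4),(1,5),(10,
  2)]⟩⟩,⟨true,0,⟨0,[(12,0),(5,1),(0,0)]⟩,⟨0,[(9,0),(9,0)]⟩⟩,⟨true,0,⟨0,[]⟩,⟨0,[(38,0)]⟩⟩,⟨false,0,
  ⟨0,[(2,0),(11,0),(3,0),(0,0)]⟩,⟨3,[(0,1),(5,1),(12,1),(0,1),(8,0),(6,0)]⟩⟩,⟨false,1,⟨0,[(33,0),(2,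
  0)]⟩,⟨0,[(34,0)]⟩⟩,⟨true,0,⟨0,[(2,0),(11,1),(8,0)]⟩,⟨0,[(0,0)]⟩⟩,[]⟩))))) (.Q [0,1,-1,-1,-1,0,1,1,
  -1,0,-1,1] (.p false [0,0,1] [0,0,0,1] (⟨0,[(24,0)]⟩,⟨0,[(23,0)]⟩) .k 2 (⟨0,[(15,0)]⟩,⟨0,[(14,
  0)]⟩) .k (.r 0 ⟨0,[(1,0),(0,0)]⟩ ⟨1,[(8,1),(4,0),(5,1),(12,0)]⟩)) (.R ⟨1,true,false,false,[0,0,1],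
  [0,0,0,1],[0,0,0,-1,0,0,0,1],(⟨0,[(25,0)]⟩,⟨0,[(24,0)]⟩),(⟨0,[(16,0)]⟩,⟨0,[(15,0)]⟩),⟨0,[(1,0)]⟩,
  .k,.k,.k,.k,(.r 0 ⟨4,[(0,1),(2,0),(0,2),(3,1),(4,0),(1,1),(1,1)]⟩ ⟨0,[(5,0),(3,0),(6,0),(13,0)]⟩),
  .k,⟨false,0,⟨4,[(0,1),(2,0),(0,2),(3,1),(4,0),(1,1),(1,1)]⟩,⟨0,[(5,0),(3,0),(6,0),(12,0)]⟩⟩,⟨true,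
  0,⟨0,[(15,0),(2,0)]⟩,⟨0,[(9,0),(6,0)]⟩⟩,⟨true,0,⟨0,[(31,0)]⟩,⟨0,[(30,0)]⟩⟩,⟨false,1,⟨0,[(5,0)]⟩,
  ⟨4,[(0,2),(2,1),(2,0),(2,0),(1,1),(4,1),(12,0),(3,0)]⟩⟩,⟨false,1,⟨3,[(13,0),(0,0),(18,1)]⟩,⟨0,
  []⟩⟩,⟨true,1,⟨0,[(5,0),(24,0)]⟩,⟨0,[(0,0)]⟩⟩,[]⟩) (.I [0,0,-1,-1,0,0,0,0,1] (.Q [0,1,-1,0,0,0,0,0,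
  -1,0,0,1] (.p true [0,0,0,1] [] (⟨0,[(17,0)]⟩,⟨0,[(16,0)]⟩) .k 0 (⟨0,[]⟩,⟨0,[]⟩) .k .k) (.K ⟨0,[0,
  0,0,1],0,0,(⟨0,[(18,0)]⟩,⟨0,[(17,0)]⟩),.k,(.r 0 ⟨0,[(1,0)]⟩ ⟨2,[(2,0),(10,0),(1,1),(2,0),(1,0),(2,
  0),(8,0)]⟩),(.x 0 ⟨0,[(30,0)]⟩ ⟨3,[(15,0),(0,0),(11,1),(0,3)]⟩),.k,.k,[⟨0,[(18,0)]⟩,⟨0,[(17,0)]⟩,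
  ⟨0,[(0,0)]⟩,⟨3,[(4,1),(3,0),(2,1),(4,1),(0,3),(1,1),(3,0)]⟩]⟩) (.Q [0,1,1,0,-1,0,0,0,1,1,0,-1]
  (.p false [0,0,0,1] [1] (⟨0,[(18,0)]⟩,⟨0,[(17,0)]⟩) .k 1 (⟨0,[]⟩,⟨0,[]⟩) .k .k) (.R ⟨0,false,
  false,false,[1,0,-1],[1,0,0,-1],[1,0,0,0,0,0,0,0,-1],(⟨0,[(27,0)]⟩,⟨0,[(28,0)]⟩),(⟨0,[(18,0)]⟩,⟨0,
  [(19,0)]⟩),⟨0,[(10,0)]⟩,.k,.k,.k,.k,.k,.k,⟨true,0,⟨0,[]⟩,⟨1,[(24,0),(0,0)]⟩⟩,⟨false,1,⟨0,[(12,0),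
  (6,0),(15,0)]⟩,⟨0,[(18,0),(2,0)]⟩⟩,⟨true,0,⟨0,[(5,0),(0,0)]⟩,⟨13,[(0,3),(1,4),(0,2),(8,13),(4,0),
  (1,6),(0,3),(2,6),(8,1)]⟩⟩,⟨false,1,⟨4,[(6,4),(2,0),(2,0),(0,0),(1,1),(3,4),(12,0)]⟩,⟨0,[(1,0),
  (21,0)]⟩⟩,⟨false,0,⟨0,[]⟩,⟨0,[]⟩⟩,⟨false,0,⟨0,[]⟩,⟨0,[]⟩⟩,[.o ⟨false,1,⟨3,[(6,1),(6,1),(2,0),(2,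
  3),(0,1),(8,0),(2,1)]⟩,⟨4,[(0,1),(0,1),(6,0),(13,0),(6,0)]⟩⟩,.a ⟨true,1,⟨0,[(6,0),(12,0)]⟩,⟨0,[(0,
  0)]⟩⟩ ⟨false,1,⟨0,[(6,0)]⟩,⟨3,[(0,0),(1,0),(14,0),(1,0),(0,0),(1,0),(10,0)]⟩⟩ ⟨true,1,⟨0,[(6,0),
  (5,0),(6,0)]⟩,⟨0,[(0,0),(20,0)]⟩⟩,.o ⟨false,1,⟨3,[(16,0),(0,0),(3,3),(13,1)]⟩,⟨0,[(12,0)]⟩⟩,.o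
  ⟨false,0,⟨0,[(21,0)]⟩,⟨0,[(24,0),(10,0)]⟩⟩]⟩) (.Q [0,0,0,0,0,1,0,0,0,-1,0,1] (.p true [0,0,0,1]
  [1] (⟨0,[(19,0)]⟩,⟨0,[(18,0)]⟩) .k 1 (⟨0,[]⟩,⟨0,[]⟩) .k .k) (.R ⟨0,false,false,true,[1,0,0,-1],[0,
  1],[0,1,0,0,0,0,0,0,-1],(⟨0,[(19,0)]⟩,⟨0,[(20,0)]⟩),(⟨0,[(32,0)]⟩,⟨0,[(31,0)]⟩),⟨0,[(0,0)]⟩,.k,.k,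
  (.x (-1) ⟨3,[(17,0),(0,0),(11,1),(0,3)]⟩ ⟨0,[(32,0)]⟩),(.x (-1) ⟨3,[(17,0),(0,0),(11,1),(0,3)]⟩
  ⟨0,[(32,0)]⟩),.k,.k,⟨false,1,⟨0,[(7,0),(25,0),(1,1)]⟩,⟨0,[(2,0),(17,0),(13,0)]⟩⟩,⟨true,0,⟨0,[(19,
  0)]⟩,⟨1,[(10,0),(9,1),(4,0)]⟩⟩,⟨true,0,⟨0,[(39,0)]⟩,⟨0,[]⟩⟩,⟨false,0,⟨0,[(2,0),(12,0),(8,0)]⟩,⟨0,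
  [(1,0),(33,0)]⟩⟩,⟨false,0,⟨0,[]⟩,⟨0,[]⟩⟩,⟨false,0,⟨0,[]⟩,⟨0,[]⟩⟩,[.o ⟨false,0,⟨0,[(34,0)]⟩,⟨2,[(1,
  0),(7,0),(4,0),(15,0),(4,1)]⟩⟩,.o ⟨false,1,⟨3,[(1,0),(2,0),(10,0),(1,0),(0,0),(15,1)]⟩,⟨0,[(14,0),
  (6,0)]⟩⟩,.o ⟨false,1,⟨1,[(20,1),(9,0),(5,0)]⟩,⟨1,[(10,0),(8,1),(5,0)]⟩⟩,.a ⟨true,0,⟨0,[(20,0)]⟩,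
  ⟨0,[(19,0)]⟩⟩ ⟨false,1,⟨1,[(17,0),(18,0)]⟩,⟨0,[(2,0),(17,0)]⟩⟩ ⟨true,0,⟨0,[(19,0),(14,0)]⟩,⟨0,
  [(14,0),(5,0),(0,0)]⟩⟩]⟩) (.I [0,-1,-2,-2,1,0,0,0,-1] (.I [1,0,1,1] (.R ⟨1,false,false,true,[1,0,
  0,-1],[0,1],[0,0,0,-1,0,0,0,0,-1],(⟨0,[(21,0)]⟩,⟨0,[(22,0)]⟩),(⟨0,[(34,0)]⟩,⟨0,[(33,0)]⟩),⟨0,[(2,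
  0)]⟩,.k,.k,(.x (-1) ⟨3,[(19,0),(0,0),(11,1),(0,3)]⟩ ⟨0,[(34,0)]⟩),(.x (-1) ⟨3,[(19,0),(0,0),(11,
  1),(0,3)]⟩ ⟨0,[(34,0)]⟩),(.r (-1) ⟨0,[(1,0),(39,0)]⟩ ⟨0,[(0,0),(3,0),(17,0),(13,0)]⟩),.k,⟨false,1,
  ⟨0,[(1,0)]⟩,⟨0,[(4,0),(17,0),(13,1)]⟩⟩,⟨true,0,⟨0,[(21,0)]⟩,⟨1,[(12,0),(9,1),(4,0)]⟩⟩,⟨true,0,⟨0,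
  [(37,0)]⟩,⟨0,[(36,0)]⟩⟩,⟨false,0,⟨0,[(4,0),(12,0),(8,0)]⟩,⟨3,[(1,1),(1,1),(8,0),(9,1),(4,0)]⟩⟩,
  ⟨false,1,⟨3,[(19,0),(0,0),(18,1)]⟩,⟨0,[]⟩⟩,⟨false,0,⟨0,[(0,0),(3,0),(16,0),(0,0),(12,0)]⟩,⟨1,[(1,
  1),(10,0),(9,1),(4,0)]⟩⟩,[.o ⟨false,0,⟨0,[(36,0)]⟩,⟨5,[(1,1),(9,1),(0,0),(3,1),(5,1),(4,0),(4,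
  1)]⟩⟩,.o ⟨false,1,⟨3,[(3,0),(2,0),(10,0),(1,0),(0,0),(15,1)]⟩,⟨0,[(16,0),(6,0)]⟩⟩,.o ⟨false,1,⟨1,
  [(22,1),(9,0),(5,0)]⟩,⟨1,[(12,0),(8,1),(5,0)]⟩⟩,.a ⟨true,0,⟨0,[(22,0)]⟩,⟨0,[(21,0)]⟩⟩ ⟨false,1,⟨3,
  [(1,1),(17,0),(19,0)]⟩,⟨0,[(4,0),(17,0),(13,0)]⟩⟩ ⟨true,0,⟨0,[(21,0),(14,0)]⟩,⟨0,[(16,0),(5,0),(0,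
  0)]⟩⟩]⟩) (.R ⟨1,true,false,false,[0,0,1],[0,0,0,1],[1,1,0,0,0,0,0,1],(⟨0,[(31,0)]⟩,⟨0,[(30,0)]⟩),
  (⟨0,[(22,0)]⟩,⟨0,[(21,0)]⟩),⟨0,[(7,0)]⟩,.k,.k,.k,.k,(.r 0 ⟨0,[(0,0),(7,0),(0,0)]⟩ ⟨11,[(6,7),(8,
  7),(3,0),(0,2),(1,7),(3,3),(0,3),(8,3)]⟩),.k,⟨false,0,⟨2,[(1,0),(6,1),(5,0),(4,0),(15,1)]⟩,⟨1,[(5,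
  0),(0,0),(8,1),(6,0),(3,0),(12,0)]⟩⟩,⟨true,0,⟨0,[(21,0),(2,0)]⟩,⟨0,[(15,0),(6,0)]⟩⟩,⟨false,0,⟨0,
  []⟩,⟨3,[(19,0),(0,0),(18,1)]⟩⟩,⟨true,0,⟨0,[(4,0),(21,0)]⟩,⟨13,[(1,5),(1,1),(4,10),(6,10),(1,0),(0,
  0),(0,2),(2,11),(12,10)]⟩⟩,⟨true,0,⟨0,[(36,0)]⟩,⟨0,[(37,0)]⟩⟩,⟨false,1,⟨0,[(6,0)]⟩,⟨0,[(0,0),(7,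
  0),(0,0),(5,0),(6,0)]⟩⟩,[]⟩)) (.R ⟨1,false,false,true,[1,0,0,-1],[0,1],[1,1,0,0,0,0,0,0,-1],(⟨0,
  [(20,0)]⟩,⟨0,[(21,0)]⟩),(⟨0,[(33,0)]⟩,⟨0,[(32,0)]⟩),⟨0,[(1,0)]⟩,.k,.k,(.x (-1) ⟨3,[(18,0),(0,0),
  (11,1),(0,3)]⟩ ⟨0,[(33,0)]⟩),(.x (-1) ⟨3,[(18,0),(0,0),(11,1),(0,3)]⟩ ⟨0,[(33,0)]⟩),(.r (-1) ⟨0,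
  [(8,0),(25,0),(1,2)]⟩ ⟨3,[(0,3),(17,0),(0,0),(18,1)]⟩),.k,⟨false,1,⟨0,[(8,0),(25,0),(1,1)]⟩,⟨3,
  [(0,1),(18,0),(18,0)]⟩⟩,⟨true,0,⟨0,[(20,0)]⟩,⟨1,[(11,0),(9,1),(4,0)]⟩⟩,⟨false,0,⟨0,[]⟩,⟨3,[(18,0),
  (0,0),(18,1)]⟩⟩,⟨false,0,⟨3,[(0,1),(18,0),(0,3),(17,0)]⟩,⟨0,[(2,0),(33,0)]⟩⟩,⟨true,0,⟨0,[(35,0)]⟩,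
  ⟨0,[(36,0)]⟩⟩,⟨false,0,⟨7,[(0,4),(3,0),(0,1),(10,1),(3,5),(13,2),(3,2)]⟩,⟨0,[(2,0),(33,1)]⟩⟩,[.o
  ⟨false,0,⟨0,[(35,0)]⟩,⟨2,[(2,0),(7,0),(4,0),(15,0),(4,1)]⟩⟩,.o ⟨false,1,⟨3,[(2,0),(2,0),(10,0),(1,
  0),(0,0),(15,1)]⟩,⟨0,[(15,0),(6,0)]⟩⟩,.o ⟨false,1,⟨1,[(21,1),(9,0),(5,0)]⟩,⟨1,[(11,0),(8,1),(5,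
  0)]⟩⟩,.a ⟨true,0,⟨0,[(21,0)]⟩,⟨0,[(20,0)]⟩⟩ ⟨false,1,⟨1,[(18,0),(18,0)]⟩,⟨0,[(3,0),(17,0)]⟩⟩
  ⟨true,0,⟨0,[(20,0),(14,0)]⟩,⟨0,[(15,0),(5,0),(0,0)]⟩⟩]⟩))))) (.Q [0,1,-1,0,0,0,0,0,-1,0,0,1] (.p
  true [0,0,0,1] [] (⟨0,[(17,0)]⟩,⟨0,[(16,0)]⟩) .k 0 (⟨0,[]⟩,⟨0,[]⟩) .k .k) (.K ⟨0,[0,0,0,1],0,0,
  (⟨0,[(18,0)]⟩,⟨0,[(17,0)]⟩),.k,(.x 0 ⟨0,[(20,0),(2,0),(5,0)]⟩ ⟨0,[(30,0),(3,0)]⟩),(.x 0 ⟨0,[(30,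
  0)]⟩ ⟨3,[(15,0),(0,0),(11,1),(0,3)]⟩),.k,.k,[⟨0,[(18,0)]⟩,⟨0,[(17,0)]⟩,⟨0,[(0,0)]⟩,⟨3,[(4,1),(3,
  0),(2,1),(4,1),(0,3),(1,1),(3,0)]⟩]⟩) (.Q [0,1,1,-1,-1,0,0,0,1,0,0,-1] (.p false [0,0,0,1] [] (⟨0,
  [(18,0)]⟩,⟨0,[(17,0)]⟩) .k 0 (⟨0,[]⟩,⟨0,[]⟩) .k .k) (.R ⟨2,true,false,true,[0,1],[0,0,0,1],[1,1,1,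
  1],(⟨0,[]⟩,⟨0,[]⟩),(⟨0,[(19,0)]⟩,⟨0,[(18,0)]⟩),⟨0,[]⟩,.k,.k,.k,(.x (-1) ⟨0,[(31,0),(3,0)]⟩ ⟨0,
  [(21,0),(2,0),(5,0)]⟩),.k,.k,⟨true,0,⟨0,[(2,0)]⟩,⟨1,[(0,0),(0,0),(17,1),(14,0),(0,0)]⟩⟩,⟨false,0,
  ⟨5,[(0,1),(0,1),(0,1),(13,0),(1,1),(10,0)]⟩,⟨0,[(19,0),(15,0)]⟩⟩,⟨false,0,⟨0,[]⟩,⟨3,[(16,0),(0,0),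
  (18,1)]⟩⟩,⟨true,(-1),⟨0,[(0,0)]⟩,⟨0,[(6,0),(12,0),(13,0)]⟩⟩,⟨true,0,⟨0,[(33,0)]⟩,⟨0,[(34,0)]⟩⟩,
  ⟨false,0,⟨2,[(0,0),(0,0),(1,0),(18,0)]⟩,⟨0,[(6,0),(12,0)]⟩⟩,[]⟩) (.Q [0,0,0,0,0,-1,0,0,0,1,0,-1]
  (.p false [0,0,0,1] [1] (⟨0,[(19,0)]⟩,⟨0,[(18,0)]⟩) .k 1 (⟨0,[]⟩,⟨0,[]⟩) .k .k) (.R ⟨1,false,
  false,false,[1,0,0,-1],[1,-1],[1,0,0,0,0,0,0,0,-1],(⟨0,[(19,0)]⟩,⟨0,[(20,0)]⟩),(⟨0,[(31,0)]⟩,⟨0,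
  [(32,0)]⟩),⟨0,[(0,0)]⟩,.k,.k,(.x (-1) ⟨3,[(17,0),(0,0),(11,1),(0,3)]⟩ ⟨0,[(32,0)]⟩),(.x (-1) ⟨0,
  [(32,0),(3,0)]⟩ ⟨0,[(22,0),(2,0),(5,0)]⟩),.k,.k,⟨true,0,⟨0,[(3,0)]⟩,⟨0,[(2,0),(17,0),(12,0),(1,
  1)]⟩⟩,⟨false,0,⟨1,[(10,0),(8,1),(5,0)]⟩,⟨0,[(20,0),(15,0)]⟩⟩,⟨true,0,⟨0,[]⟩,⟨0,[(39,0)]⟩⟩,⟨false,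
  0,⟨0,[(2,0),(32,0)]⟩,⟨0,[(1,0),(37,0)]⟩⟩,⟨false,1,⟨5,[(1,1),(2,1),(10,1),(14,0),(6,0)]⟩,⟨0,[(35,
  0)]⟩⟩,⟨false,0,⟨0,[(2,0)]⟩,⟨1,[(17,0),(2,1),(15,0)]⟩⟩,[.o ⟨false,0,⟨0,[(14,0),(6,0)]⟩,⟨19,[(1,3),
  (2,3),(10,3),(1,4),(0,4),(11,1),(3,7)]⟩⟩,.o ⟨false,1,⟨1,[(30,0),(4,1),(1,0)]⟩,⟨0,[(34,0)]⟩⟩,.o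
  ⟨false,1,⟨1,[(20,1),(9,0),(5,0)]⟩,⟨1,[(10,0),(8,1),(5,0)]⟩⟩,.a ⟨true,0,⟨0,[(20,0)]⟩,⟨0,[(19,0)]⟩⟩
  ⟨false,1,⟨0,[(7,0)]⟩,⟨3,[(2,1),(3,0),(11,0),(1,1),(3,0),(0,0)]⟩⟩ ⟨true,0,⟨0,[(14,0),(4,0),(1,0)]⟩,
  ⟨0,[(20,0),(13,0)]⟩⟩]⟩) (.R ⟨0,false,false,true,[1,0,0,-1],[0,1],[0,1,0,0,0,0,0,0,-1],(⟨0,[(19,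
  0)]⟩,⟨0,[(20,0)]⟩),(⟨0,[(32,0)]⟩,⟨0,[(31,0)]⟩),⟨0,[(0,0)]⟩,.k,.k,(.x (-1) ⟨3,[(17,0),(0,0),(11,1),
  (0,3)]⟩ ⟨0,[(32,0)]⟩),(.x (-1) ⟨3,[(17,0),(0,0),(11,1),(0,3)]⟩ ⟨0,[(32,0)]⟩),.k,.k,⟨false,1,⟨0,
  [(7,0),(25,0),(1,1)]⟩,⟨0,[(2,0),(17,0),(13,0)]⟩⟩,⟨true,0,⟨0,[(19,0)]⟩,⟨1,[(10,0),(9,1),(4,0)]⟩⟩,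
  ⟨true,0,⟨0,[(39,0)]⟩,⟨0,[]⟩⟩,⟨false,0,⟨0,[(2,0),(12,0),(8,0)]⟩,⟨0,[(7,0),(6,0),(5,0),(0,0)]⟩⟩,
  ⟨false,0,⟨0,[]⟩,⟨0,[]⟩⟩,⟨false,0,⟨0,[]⟩,⟨0,[]⟩⟩,[.o ⟨false,0,⟨0,[(34,0)]⟩,⟨1,[(30,0),(4,1),(1,
  0)]⟩⟩,.o ⟨false,1,⟨19,[(1,3),(2,3),(10,3),(1,4),(0,4),(11,1),(3,7)]⟩,⟨0,[(14,0),(6,0)]⟩⟩,.o
  ⟨false,1,⟨1,[(20,1),(9,0),(5,0)]⟩,⟨1,[(10,0),(8,1),(5,0)]⟩⟩,.a ⟨true,0,⟨0,[(20,0)]⟩,⟨0,[(19,0)]⟩⟩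
  ⟨false,1,⟨1,[(17,0),(18,0)]⟩,⟨0,[(2,0),(17,0)]⟩⟩ ⟨true,0,⟨0,[(19,0),(14,0)]⟩,⟨0,[(14,0),(5,0),(0,
  0)]⟩⟩]⟩)))))))) (.Q [0,0,0,0,0,1,0,0,0,-1,0,1] (.p true [0,0,0,1] [1] (⟨0,[(13,0)]⟩,⟨0,[(12,0)]⟩)
  .k 1 (⟨0,[]⟩,⟨0,[]⟩) .k .k) (.R ⟨0,false,false,true,[1,0,0,-1],[1,0,-1],[1,1,1],(⟨0,[(13,0)]⟩,⟨0,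
  [(14,0)]⟩),(⟨0,[(22,0)]⟩,⟨0,[(23,0)]⟩),⟨0,[(0,0)]⟩,.k,.k,(.x (-1) ⟨3,[(11,0),(0,0),(11,1),(0,3)]⟩
  ⟨0,[(26,0)]⟩),.k,.k,.k,⟨false,0,⟨0,[(21,0)]⟩,⟨1,[(7,1),(10,1),(11,0),(0,0)]⟩⟩,⟨true,0,⟨0,[(13,0),
  (2,0)]⟩,⟨0,[(7,0),(6,0)]⟩⟩,⟨true,(-1),⟨0,[(1,0)]⟩,⟨1,[(11,0),(18,0)]⟩⟩,⟨false,0,⟨0,[(1,0),(11,0),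
  (1,0),(15,0)]⟩,⟨1,[(8,1),(2,0),(2,1),(12,1),(3,0)]⟩⟩,⟨false,0,⟨0,[]⟩,⟨0,[]⟩⟩,⟨false,0,⟨0,[]⟩,⟨0,
  []⟩⟩,[.o ⟨false,0,⟨0,[(15,0)]⟩,⟨7,[(10,3),(0,0),(0,0),(11,1),(6,3)]⟩⟩,.o ⟨false,1,⟨1,[(18,1),(5,
  0),(6,0)]⟩,⟨4,[(4,0),(2,0),(0,0),(1,1),(16,0)]⟩⟩,.o ⟨false,1,⟨1,[(14,1),(9,0),(5,0)]⟩,⟨1,[(4,0),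
  (8,1),(5,0)]⟩⟩,.a ⟨true,0,⟨0,[(14,0)]⟩,⟨0,[(13,0)]⟩⟩ ⟨false,0,⟨0,[]⟩,⟨3,[(11,0),(0,0),(18,1)]⟩⟩
  ⟨true,0,⟨0,[(13,0),(1,0)]⟩,⟨4,[(4,0),(2,0),(0,0),(1,1),(3,4),(12,0)]⟩⟩]⟩) (.I [1,0,-2,-1,1,0,0,
  -1] (.Q [0,-1,-1,-2,1,0,-1,-1,-1,-2,1,1] (.p true [-1,1,1] [1,0,0,-1] (⟨0,[(6,0)]⟩,⟨0,[(23,0),(2,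
  0)]⟩) .k 2 (⟨0,[(14,0)]⟩,⟨0,[(15,0)]⟩) .k (.r 0 ⟨3,[(2,1),(4,1),(5,0),(8,1),(9,0)]⟩ ⟨1,[(8,1),(3,
  0),(6,1),(12,0)]⟩)) (.R ⟨1,true,false,true,[1,0,0,-1],[-1,1,1],[1,1,0,0,0,0,0,0,-1],(⟨0,[(15,0)]⟩,
  ⟨0,[(16,0)]⟩),(⟨0,[(7,0)]⟩,⟨0,[(24,0),(2,0)]⟩),⟨0,[(2,0)]⟩,.k,.k,(.x (-1) ⟨3,[(13,0),(0,0),(11,1),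
  (0,3)]⟩ ⟨0,[(28,0)]⟩),(.r (-1) ⟨2,[(0,0),(0,0),(7,1),(3,0),(1,1),(0,0),(3,0)]⟩ ⟨4,[(3,2),(4,0),(2,
  3),(2,0),(3,3),(10,0),(3,1)]⟩),(.r (-1) ⟨0,[(0,0),(8,0),(5,1),(0,0),(12,0),(1,0)]⟩ ⟨0,[(3,0),(7,
  0),(6,0),(11,0),(2,0)]⟩),.k,⟨false,1,⟨0,[(0,0),(8,0),(5,1),(0,0),(12,0)]⟩,⟨4,[(3,2),(4,0),(2,3),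
  (2,0),(3,3),(10,0),(3,1)]⟩⟩,⟨true,0,⟨0,[(9,0),(5,1),(0,0)]⟩,⟨0,[(6,0),(9,0)]⟩⟩,⟨false,0,⟨0,[]⟩,⟨3,
  [(13,0),(0,0),(18,1)]⟩⟩,⟨true,(-1),⟨0,[(3,0),(7,0),(3,0)]⟩,⟨0,[(0,0),(29,0)]⟩⟩,⟨true,0,⟨0,[(30,
  0)]⟩,⟨0,[(31,0)]⟩⟩,⟨false,0,⟨0,[(3,0),(7,0),(3,0),(14,0),(2,0)]⟩,⟨0,[(0,0)]⟩⟩,[]⟩) (.Q [0,-1,-1,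
  -1,1,0,0,0,-1,-1,0,1] (.p true [0,0,0,1] [1] (⟨0,[(16,0)]⟩,⟨0,[(15,0)]⟩) .k 1 (⟨0,[]⟩,⟨0,[]⟩) .k
  .k) (.R ⟨1,false,false,true,[1,0,0,-1],[0,1],[1,1,0,0,0,0,0,0,-1],(⟨0,[(16,0)]⟩,⟨0,[(17,0)]⟩),(⟨0,
  [(29,0)]⟩,⟨0,[(28,0)]⟩),⟨0,[(3,0)]⟩,.k,.k,(.x (-1) ⟨3,[(14,0),(0,0),(11,1),(0,3)]⟩ ⟨0,[(29,0)]⟩),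
  (.x (-1) ⟨3,[(14,0),(0,0),(11,1),(0,3)]⟩ ⟨0,[(29,0)]⟩),(.r (-1) ⟨0,[(0,0),(15,0),(13,0),(1,1)]⟩
  ⟨1,[(1,1),(5,0),(9,1),(0,1),(3,0),(11,1)]⟩),.k,⟨false,1,⟨0,[(0,0),(15,0),(13,0),(1,0)]⟩,⟨0,[(4,0),
  (26,0),(2,0)]⟩⟩,⟨true,0,⟨0,[(16,0)]⟩,⟨1,[(7,0),(9,1),(4,0)]⟩⟩,⟨false,0,⟨0,[]⟩,⟨3,[(14,0),(0,0),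
  (18,1)]⟩⟩,⟨false,0,⟨1,[(1,0),(4,0)]⟩,⟨0,[(0,0)]⟩⟩,⟨true,0,⟨0,[(31,0)]⟩,⟨0,[(32,0)]⟩⟩,⟨false,0,⟨0,
  [(1,0),(16,0),(15,0)]⟩,⟨0,[(0,0),(31,0)]⟩⟩,[.o ⟨false,0,⟨0,[(31,0)]⟩,⟨2,[(0,0),(5,0),(4,0),(15,0),
  (4,0)]⟩⟩,.o ⟨false,1,⟨3,[(14,0),(0,0),(15,3),(2,1)]⟩,⟨0,[(11,0),(6,0)]⟩⟩,.o ⟨false,1,⟨1,[(17,1),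
  (9,0),(5,0)]⟩,⟨1,[(7,0),(8,1),(5,0)]⟩⟩,.a ⟨true,0,⟨0,[(17,0)]⟩,⟨0,[(16,0)]⟩⟩ ⟨false,1,⟨1,[(14,0),
  (18,0)]⟩,⟨0,[(4,0),(29,0)]⟩⟩ ⟨true,0,⟨0,[(16,0),(14,0)]⟩,⟨0,[(0,0),(3,0)]⟩⟩]⟩) (.I [0,0,-1,-1,0,0,
  0,0,1] (.K ⟨0,[0,0,0,1],0,(-1),(⟨0,[(18,0)]⟩,⟨0,[(17,0)]⟩),.k,(.r 0 ⟨0,[(0,0)]⟩ ⟨5,[(2,0),(4,0),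
  (7,3),(2,1),(1,1),(2,1),(8,3),(2,1)]⟩),(.x 0 ⟨0,[(30,0)]⟩ ⟨3,[(15,0),(0,0),(11,1),(0,3)]⟩),.k,.k,
  [⟨0,[(18,0)]⟩,⟨0,[(17,0)]⟩,⟨1,[(15,0),(2,1),(15,0),(2,1)]⟩,⟨0,[(1,0),(10,0),(6,0)]⟩]⟩) (.K ⟨0,[0,
  0,0,1],0,(-1),(⟨0,[(18,0)]⟩,⟨0,[(17,0)]⟩),.k,(.x 0 ⟨0,[(20,0),(2,0),(5,0)]⟩ ⟨0,[(30,0),(3,0)]⟩),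
  (.x 0 ⟨0,[(30,0)]⟩ ⟨3,[(15,0),(0,0),(11,1),(0,3)]⟩),.k,.k,[⟨0,[(18,0)]⟩,⟨0,[(17,0)]⟩,⟨1,[(15,0),
  (2,1),(15,0),(2,1)]⟩,⟨0,[(1,0),(10,0),(6,0)]⟩]⟩)))) (.Q [0,0,0,0,0,1,0,0,0,0,-1] (.ed true [1,-1,
  1] .k) (.Q [0,0,0,0,0,0,-1,0,0,1,1] (.p true [1,-1,1] [] (⟨0,[(25,0),(1,0)]⟩,⟨0,[(0,0)]⟩) .k 0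
  (⟨0,[]⟩,⟨0,[]⟩) .k .k) (.R ⟨0,false,false,true,[0,1,-1],[0,1],[0,1,1,1,0,0,0,-1],(⟨0,[(1,0)]⟩,⟨0,
  [(26,0),(1,0)]⟩),(⟨0,[(29,0)]⟩,⟨0,[(28,0)]⟩),⟨0,[(26,0)]⟩,.k,.k,.k,.k,.k,.k,⟨false,1,⟨1,[(10,1),
  (10,1),(11,0),(0,0)]⟩,⟨0,[(24,0)]⟩⟩,⟨true,0,⟨0,[(10,0)]⟩,⟨0,[(23,0)]⟩⟩,⟨true,0,⟨0,[(36,0)]⟩,⟨0,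
  []⟩⟩,⟨false,0,⟨8,[(2,0),(7,0),(0,2),(1,1),(6,0),(6,0),(2,1)]⟩,⟨0,[(21,0),(12,0)]⟩⟩,⟨false,0,⟨0,
  []⟩,⟨0,[]⟩⟩,⟨false,0,⟨0,[]⟩,⟨0,[]⟩⟩,[.o ⟨false,0,⟨0,[(31,0)]⟩,⟨1,[(27,0),(4,1),(1,0)]⟩⟩,.o ⟨false,
  1,⟨3,[(14,0),(0,0),(15,3),(2,1)]⟩,⟨0,[(11,0),(6,0)]⟩⟩,.o ⟨false,1,⟨7,[(0,3),(13,0),(0,0),(3,3),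
  (13,5)]⟩,⟨1,[(7,0),(2,1),(11,0)]⟩⟩,.a ⟨true,0,⟨0,[(0,0)]⟩,⟨0,[(10,0)]⟩⟩ ⟨false,1,⟨0,[(10,0),(10,
  0),(9,0),(2,0)]⟩,⟨0,[(5,0)]⟩⟩ ⟨true,0,⟨0,[(10,0),(20,0)]⟩,⟨0,[(5,0),(15,0)]⟩⟩]⟩) (.Q [0,1,1,0,-1,
  0,0,0,1,0,0,-1] (.p false [0,0,0,1] [] (⟨0,[(17,0)]⟩,⟨0,[(16,0)]⟩) .k 0 (⟨0,[]⟩,⟨0,[]⟩) .k .k)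
  (.K ⟨0,[0,0,0,1],0,(-1),(⟨0,[(18,0)]⟩,⟨0,[(17,0)]⟩),.k,(.x 0 ⟨0,[(20,0),(2,0),(5,0)]⟩ ⟨0,[(30,0),
  (3,0)]⟩),(.x 0 ⟨0,[(30,0)]⟩ ⟨3,[(15,0),(0,0),(11,1),(0,3)]⟩),.k,.k,[⟨0,[(18,0)]⟩,⟨0,[(17,0)]⟩,⟨1,
  [(15,0),(2,1),(15,0),(2,1)]⟩,⟨0,[(0,0)]⟩]⟩) (.R ⟨2,true,false,true,[0,1],[0,0,0,1],[0,1,1],(⟨0,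
  []⟩,⟨0,[]⟩),(⟨0,[(18,0)]⟩,⟨0,[(17,0)]⟩),⟨0,[]⟩,.k,.k,.k,(.x (-1) ⟨0,[(30,0),(3,0)]⟩ ⟨0,[(20,0),(2,
  0),(5,0)]⟩),.k,.k,⟨true,0,⟨0,[(0,0),(0,0),(1,0),(13,0),(4,0),(10,0)]⟩,⟨1,[(5,1),(28,0),(0,0)]⟩⟩,
  ⟨false,0,⟨1,[(8,0),(8,1),(5,0)]⟩,⟨0,[(18,0),(15,0)]⟩⟩,⟨false,0,⟨0,[(33,0)]⟩,⟨0,[(32,0),(2,0)]⟩⟩,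
  ⟨true,(-1),⟨0,[(5,0),(6,0),(4,0),(1,0)]⟩,⟨0,[(0,0),(31,0)]⟩⟩,⟨true,0,⟨0,[(37,0)]⟩,⟨0,[]⟩⟩,⟨false,
  0,⟨8,[(1,2),(1,0),(1,2),(1,1),(0,1),(3,0),(3,1),(0,6)]⟩,⟨0,[(0,0)]⟩⟩,[]⟩))) (.Q [0,1,1,0,-1,0,0,0,
  1,0,0,-1] (.p false [0,0,0,1] [] (⟨0,[(16,0)]⟩,⟨0,[(15,0)]⟩) .k 0 (⟨0,[]⟩,⟨0,[]⟩) .k .k) (.K ⟨0,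
  [0,0,0,1],0,(-1),(⟨0,[(17,0)]⟩,⟨0,[(16,0)]⟩),.k,(.x 0 ⟨0,[(19,0),(2,0),(5,0)]⟩ ⟨0,[(29,0),(3,
  0)]⟩),(.x 0 ⟨0,[(29,0)]⟩ ⟨3,[(14,0),(0,0),(11,1),(0,3)]⟩),.k,.k,[⟨0,[(17,0)]⟩,⟨0,[(16,0)]⟩,⟨1,
  [(14,0),(2,1),(15,0),(2,1)]⟩,⟨0,[(0,0)]⟩]⟩) (.R ⟨2,true,false,true,[0,1],[0,0,0,1],[0,1,1],(⟨0,
  []⟩,⟨0,[]⟩),(⟨0,[(17,0)]⟩,⟨0,[(16,0)]⟩),⟨0,[]⟩,.k,.k,.k,(.r 0 ⟨0,[(0,0),(1,0),(7,0),(5,0),(1,0)]⟩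
  ⟨1,[(15,0),(16,1),(0,0)]⟩),.k,.k,⟨true,0,⟨0,[(0,0),(1,0),(7,0),(5,0),(1,0),(13,0)]⟩,⟨1,[(4,1),(28,
  0),(0,0)]⟩⟩,⟨false,0,⟨1,[(7,0),(8,1),(5,0)]⟩,⟨0,[(17,0),(15,0)]⟩⟩,⟨false,0,⟨0,[(32,0)]⟩,⟨0,[(31,
  0),(2,0)]⟩⟩,⟨true,(-1),⟨0,[(4,0),(6,0),(4,0),(1,0)]⟩,⟨0,[(0,0),(30,0)]⟩⟩,⟨true,0,⟨0,[(36,0)]⟩,⟨0,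
  []⟩⟩,⟨false,0,⟨10,[(2,0),(1,5),(1,4),(0,0),(2,1),(0,3),(4,5),(10,1),(2,2)]⟩,⟨0,[(0,0)]⟩⟩,[]⟩))))))

theorem ok23 : chk (cU (-1) true 3) t23 l16 = true := by decide +kernel

noncomputable def l17 : List Con := (true, [0,-1,-1,-1,1,0,0,-1]) :: r16

noncomputable def r17 : List Con := (true, [1,1,1,1,-1,0,0,1]) :: r16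

noncomputable def t24 : Tre :=
  (.I [1,-1,-1,0,1,0,0,0,-1] (.I [1,-1,-1,0,1,0,0,-1] (.I [0,1,-2,-1] (.Q [0,0,0,0,0,1,0,0,0,0,-1]
  (.ed true [1,-1,1] .k) (.Q [0,0,0,0,0,0,-1,0,0,1,1] (.p true [1,-1,1] [] (⟨0,[(26,0),(1,0)]⟩,⟨0,
  [(0,0)]⟩) .k 0 (⟨0,[]⟩,⟨0,[]⟩) .k .k) (.K ⟨1,[1,-1,1],0,0,(⟨0,[(27,0),(1,0)]⟩,⟨0,[(1,0)]⟩),.k,(.x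
  0 ⟨0,[(8,0),(2,0),(11,0),(3,0),(1,1)]⟩ ⟨9,[(0,7),(0,14),(1,0),(4,0),(0,4),(0,1),(8,0),(14,8)]⟩),
  .k,.k,.k,[⟨0,[(0,0)]⟩,⟨1,[(8,0),(14,2)]⟩,⟨0,[(0,0),(5,0)]⟩,⟨0,[(12,0)]⟩]⟩) (.I [0,0,2,1] (.Q [0,1,
  0,1,0,0,-1,-1,0,1,1] (.p true [1,-1,1] [] (⟨0,[(28,0),(1,0)]⟩,⟨0,[(2,0)]⟩) .k 0 (⟨0,[]⟩,⟨0,[]⟩)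
  .k .k) (.R ⟨0,false,false,true,[1,0,-1],[0,1,-1],[0,1,2,1,0,0,0,-1],(⟨0,[(28,0)]⟩,⟨0,[(29,0)]⟩),
  (⟨0,[(3,0)]⟩,⟨0,[(29,0),(1,0)]⟩),⟨0,[(11,0)]⟩,.k,.k,.k,.k,.k,.k,⟨true,0,⟨1,[(25,0),(0,0)]⟩,⟨0,
  []⟩⟩,⟨false,1,⟨2,[(0,1),(3,1),(11,0),(19,0),(0,1)]⟩,⟨1,[(10,0),(14,0)]⟩⟩,⟨false,0,⟨0,[(1,0)]⟩,⟨0,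
  [(4,0),(32,0)]⟩⟩,⟨true,0,⟨2,[(0,1),(15,0),(17,0)]⟩,⟨0,[(14,0),(6,0)]⟩⟩,⟨false,0,⟨0,[]⟩,⟨0,[]⟩⟩,
  ⟨false,0,⟨0,[]⟩,⟨0,[]⟩⟩,[.a ⟨true,0,⟨0,[(0,0)]⟩,⟨0,[(14,0)]⟩⟩ ⟨false,0,⟨2,[(1,0),(6,1),(15,0),(0,
  0)]⟩,⟨0,[(4,0),(22,0),(9,0)]⟩⟩ ⟨true,0,⟨0,[(0,0),(12,0)]⟩,⟨0,[(14,0),(7,0)]⟩⟩,.o ⟨false,1,⟨1,[(0,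
  1),(29,0),(6,0)]⟩,⟨11,[(2,3),(1,1),(5,3),(3,6),(8,4),(11,2)]⟩⟩,.o ⟨false,1,⟨3,[(17,0),(0,0),(3,3),
  (13,1)]⟩,⟨0,[(13,0)]⟩⟩,.o ⟨false,0,⟨0,[(22,0)]⟩,⟨0,[(5,0),(17,0)]⟩⟩]⟩) (.I [0,0,1,1,0,0,0,0,-1]
  (.I [1,-1,-1,0,0,0,0,0,-1] (.Q [0,0,0,0,0,1,0,0,0,-1,0,1] (.p true [0,0,0,1] [1] (⟨0,[(22,0)]⟩,⟨0,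
  [(21,0)]⟩) .k 1 (⟨0,[]⟩,⟨0,[]⟩) .k .k) (.R ⟨0,false,false,true,[1,0,0,-1],[0,1],[0,1,0,0,0,0,0,0,
  -1],(⟨0,[(22,0)]⟩,⟨0,[(23,0)]⟩),(⟨0,[(35,0)]⟩,⟨0,[(34,0)]⟩),⟨0,[(0,0)]⟩,.k,.k,(.x (-1) ⟨3,[(20,0),
  (0,0),(11,1),(0,3)]⟩ ⟨0,[(35,0)]⟩),(.x (-1) ⟨3,[(20,0),(0,0),(11,1),(0,3)]⟩ ⟨0,[(35,0)]⟩),.k,.k,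
  ⟨false,0,⟨3,[(1,2),(0,0),(4,2),(30,1)]⟩,⟨0,[(2,0),(18,0)]⟩⟩,⟨true,0,⟨0,[(22,0)]⟩,⟨1,[(13,0),(9,1),
  (4,0)]⟩⟩,⟨true,0,⟨0,[(42,0)]⟩,⟨0,[]⟩⟩,⟨false,1,⟨5,[(4,1),(7,1),(5,1),(1,0),(0,2),(0,3),(14,1)]⟩,
  ⟨1,[(1,1),(1,0),(19,1),(0,0),(13,0)]⟩⟩,⟨false,0,⟨0,[]⟩,⟨0,[]⟩⟩,⟨false,0,⟨0,[]⟩,⟨0,[]⟩⟩,[.o ⟨false,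
  0,⟨0,[(37,0)]⟩,⟨7,[(10,3),(6,3),(2,0),(0,0),(3,3),(7,1)]⟩⟩,.o ⟨false,1,⟨3,[(20,0),(0,0),(15,3),(2,
  1)]⟩,⟨1,[(3,0),(20,0),(13,0)]⟩⟩,.o ⟨false,1,⟨1,[(23,1),(9,0),(5,0)]⟩,⟨1,[(13,0),(8,1),(5,0)]⟩⟩,.a
  ⟨true,0,⟨0,[(23,0)]⟩,⟨0,[(22,0)]⟩⟩ ⟨false,0,⟨1,[(1,0),(0,0),(4,0)]⟩,⟨11,[(4,3),(7,3),(4,3),(2,0),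
  (0,4),(1,3),(16,1)]⟩⟩ ⟨true,0,⟨0,[(22,0),(14,0)]⟩,⟨1,[(3,0),(19,1),(0,0),(13,0)]⟩⟩]⟩) (.R ⟨1,
  false,false,true,[1,0,0,-1],[0,1],[0,1,0,-1,0,0,0,0,-1],(⟨0,[(22,0)]⟩,⟨0,[(23,0)]⟩),(⟨0,[(35,0)]⟩,
  ⟨0,[(34,0)]⟩),⟨0,[(0,0)]⟩,.k,.k,(.x (-1) ⟨3,[(20,0),(0,0),(11,1),(0,3)]⟩ ⟨0,[(35,0)]⟩),(.x (-1)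
  ⟨3,[(20,0),(0,0),(11,1),(0,3)]⟩ ⟨0,[(35,0)]⟩),(.r 0 ⟨3,[(1,2),(0,0),(4,2),(30,5)]⟩ ⟨1,[(4,1),(16,
  0),(15,1),(2,0)]⟩),.k,⟨false,0,⟨3,[(1,2),(0,0),(4,2),(30,5)]⟩,⟨1,[(4,1),(16,0),(14,1),(3,0)]⟩⟩,
  ⟨true,0,⟨0,[(22,0)]⟩,⟨1,[(13,0),(9,1),(4,0)]⟩⟩,⟨false,0,⟨0,[(38,0)]⟩,⟨0,[(37,0),(2,0)]⟩⟩,⟨false,1,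
  ⟨5,[(4,1),(7,1),(5,1),(1,0),(0,2),(0,3),(14,1)]⟩,⟨1,[(1,1),(1,0),(19,1),(0,0),(13,0)]⟩⟩,⟨true,0,
  ⟨0,[(42,0)]⟩,⟨0,[]⟩⟩,⟨false,1,⟨0,[(12,0),(5,0),(18,0)]⟩,⟨1,[(1,1),(1,0),(19,1),(0,0),(13,2)]⟩⟩,
  [.o ⟨false,0,⟨0,[(37,0)]⟩,⟨7,[(10,3),(6,3),(2,0),(0,0),(3,3),(7,1)]⟩⟩,.o ⟨false,1,⟨3,[(20,0),(0,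
  0),(15,3),(2,1)]⟩,⟨1,[(3,0),(20,0),(13,0)]⟩⟩,.o ⟨false,1,⟨1,[(23,1),(9,0),(5,0)]⟩,⟨1,[(13,0),(8,
  1),(5,0)]⟩⟩,.a ⟨true,0,⟨0,[(23,0)]⟩,⟨0,[(22,0)]⟩⟩ ⟨false,0,⟨1,[(1,0),(0,0),(4,0),(30,1)]⟩,⟨0,[(1,
  0),(2,0),(16,0)]⟩⟩ ⟨true,0,⟨0,[(22,0),(14,0)]⟩,⟨1,[(3,0),(19,1),(0,0),(13,0)]⟩⟩]⟩)) (.Q [0,1,1,0,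
  0,0,0,0,1,0,0,-1] (.p false [0,0,0,1] [] (⟨0,[(22,0)]⟩,⟨0,[(21,0)]⟩) .k 0 (⟨0,[]⟩,⟨0,[]⟩) .k .k)
  (.K ⟨0,[0,0,0,1],0,0,(⟨0,[(23,0)]⟩,⟨0,[(22,0)]⟩),.k,(.r (-1) ⟨7,[(7,3),(2,1),(6,1),(2,0),(0,4),(7,
  1)]⟩ ⟨0,[(2,0)]⟩),(.x 0 ⟨0,[(35,0)]⟩ ⟨3,[(20,0),(0,0),(11,1),(0,3)]⟩),.k,.k,[⟨0,[(23,0)]⟩,⟨0,[(22,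
  0)]⟩,⟨0,[(2,0),(4,0),(15,0)]⟩,⟨0,[(0,0)]⟩]⟩) (.R ⟨0,false,false,false,[1,-1],[1,0,0,-1],[0,1,1],
  (⟨0,[(34,0)]⟩,⟨0,[(35,0)]⟩),(⟨0,[(22,0)]⟩,⟨0,[(23,0)]⟩),⟨0,[(6,0),(7,0)]⟩,.k,.k,(.x 0 ⟨0,[(13,0),
  (14,0),(5,1)]⟩ ⟨0,[(35,1),(3,0)]⟩),(.r (-1) ⟨7,[(7,3),(2,1),(6,1),(2,0),(0,4),(7,1)]⟩ ⟨0,[(2,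
  0)]⟩),.k,.k,⟨true,0,⟨0,[(1,0)]⟩,⟨1,[(0,1),(12,0),(8,1),(5,0)]⟩⟩,⟨false,1,⟨2,[(0,1),(6,0),(13,0),
  (1,0),(12,0),(2,1)]⟩,⟨0,[(22,0),(2,0),(2,0)]⟩⟩,⟨false,0,⟨0,[(4,0)]⟩,⟨0,[(7,0),(32,0)]⟩⟩,⟨true,0,
  ⟨0,[(0,0),(36,0)]⟩,⟨1,[(1,1),(1,0),(18,1),(1,0),(13,0)]⟩⟩,⟨false,0,⟨0,[]⟩,⟨0,[]⟩⟩,⟨false,0,⟨0,[]⟩,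
  ⟨0,[]⟩⟩,[.o ⟨false,0,⟨15,[(0,15),(4,2),(1,0),(5,2),(10,6),(1,6),(9,0)]⟩,⟨0,[(12,0),(13,0)]⟩⟩,.a
  ⟨true,0,⟨0,[(0,0)]⟩,⟨0,[(1,0),(20,0)]⟩⟩ ⟨true,0,⟨1,[(28,0),(0,0)]⟩,⟨0,[]⟩⟩ ⟨false,1,⟨0,[(0,0),(38,
  0)]⟩,⟨1,[(1,1),(11,0),(8,1),(5,0)]⟩⟩,.o ⟨false,0,⟨1,[(13,0),(14,0)]⟩,⟨3,[(20,0),(0,0),(17,1)]⟩⟩,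
  .o ⟨false,0,⟨0,[(25,0),(2,0)]⟩,⟨0,[(39,0)]⟩⟩]⟩))) (.Q [0,-1,0,-2,0,0,0,0,0,-1] (.pp true [-1,1])
  (.R ⟨2,true,false,false,[0,1],[1,-1],[0,0,1],(⟨0,[]⟩,⟨0,[]⟩),(⟨0,[(33,0)]⟩,⟨0,[(34,0)]⟩),⟨0,[]⟩,
  .k,.k,.k,(.r (-1) ⟨3,[(3,3),(15,0),(0,0),(15,3),(2,1)]⟩ ⟨0,[(0,1),(20,1),(0,1),(12,1)]⟩),.k,.k,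
  ⟨true,0,⟨0,[(3,0)]⟩,⟨0,[(0,0),(20,0),(0,0),(12,0)]⟩⟩,⟨false,0,⟨1,[(12,0),(14,0)]⟩,⟨0,[(21,0),(0,
  0),(15,0)]⟩⟩,⟨true,0,⟨0,[(37,0)]⟩,⟨0,[(36,0)]⟩⟩,⟨false,0,⟨0,[(0,0)]⟩,⟨0,[(17,0),(8,0),(9,0),(2,
  0)]⟩⟩,⟨false,1,⟨3,[(19,0),(0,0),(18,1)]⟩,⟨0,[]⟩⟩,⟨true,0,⟨18,[(0,8),(3,1),(1,0),(5,1),(10,3),(1,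
  3)]⟩,⟨0,[(17,0),(8,0)]⟩⟩,[]⟩) (.Q [0,1,-1,0,0,0,0,0,-1,0,0,1] (.p true [0,0,0,1] [] (⟨0,[(22,0)]⟩,
  ⟨0,[(21,0)]⟩) .k 0 (⟨0,[]⟩,⟨0,[]⟩) .k .k) (.K ⟨0,[0,0,0,1],0,0,(⟨0,[(23,0)]⟩,⟨0,[(22,0)]⟩),.k,(.x
  0 ⟨0,[(25,0),(2,0),(5,0)]⟩ ⟨0,[(35,0),(3,0)]⟩),(.x 0 ⟨0,[(35,0)]⟩ ⟨3,[(20,0),(0,0),(11,1),(0,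
  3)]⟩),.k,.k,[⟨0,[(23,0)]⟩,⟨0,[(22,0)]⟩,⟨0,[(0,0)]⟩,⟨7,[(2,7),(1,5),(6,1),(1,2),(8,7),(1,1),(1,3),
  (1,0)]⟩]⟩) (.Q [0,0,0,0,0,1,0,0,0,-1,0,1] (.p true [0,0,0,1] [1] (⟨0,[(23,0)]⟩,⟨0,[(22,0)]⟩) .k 1
  (⟨0,[]⟩,⟨0,[]⟩) .k .k) (.R ⟨0,false,false,true,[1,0,0,-1],[0,1],[0,1,0,0,0,0,0,0,-1],(⟨0,[(23,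
  0)]⟩,⟨0,[(24,0)]⟩),(⟨0,[(36,0)]⟩,⟨0,[(35,0)]⟩),⟨0,[(0,0)]⟩,.k,.k,(.x (-1) ⟨3,[(21,0),(0,0),(11,1),
  (0,3)]⟩ ⟨0,[(36,0)]⟩),(.x (-1) ⟨3,[(21,0),(0,0),(11,1),(0,3)]⟩ ⟨0,[(36,0)]⟩),.k,.k,⟨false,1,⟨1,
  [(8,1),(12,0),(19,0)]⟩,⟨10,[(1,5),(0,5),(0,4),(1,3),(0,1),(7,1),(9,5)]⟩⟩,⟨true,0,⟨0,[(23,0)]⟩,⟨1,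
  [(14,0),(9,1),(4,0)]⟩⟩,⟨true,0,⟨0,[(43,0)]⟩,⟨0,[]⟩⟩,⟨false,0,⟨1,[(1,0),(0,0),(0,0),(1,0),(17,0)]⟩,
  ⟨1,[(4,0),(5,1),(13,1),(0,0),(13,0)]⟩⟩,⟨false,0,⟨0,[]⟩,⟨0,[]⟩⟩,⟨false,0,⟨0,[]⟩,⟨0,[]⟩⟩,[.o ⟨false,
  0,⟨0,[(38,0)]⟩,⟨7,[(11,3),(6,3),(2,0),(0,0),(3,3),(7,1)]⟩⟩,.o ⟨false,1,⟨3,[(2,1),(18,0),(0,0),(11,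
  0),(6,0)]⟩,⟨1,[(4,0),(20,0),(13,0)]⟩⟩,.o ⟨false,1,⟨1,[(24,1),(9,0),(5,0)]⟩,⟨1,[(14,0),(8,1),(5,
  0)]⟩⟩,.a ⟨true,0,⟨0,[(24,0)]⟩,⟨0,[(23,0)]⟩⟩ ⟨false,1,⟨1,[(21,0),(18,0)]⟩,⟨0,[(1,0),(22,0)]⟩⟩
  ⟨true,0,⟨0,[(23,0),(14,0)]⟩,⟨1,[(4,0),(19,1),(0,0),(13,0)]⟩⟩]⟩) (.R ⟨1,false,false,true,[1,0,0,
  -1],[0,1],[1,1,0,0,0,0,0,0,-1],(⟨0,[(23,0)]⟩,⟨0,[(24,0)]⟩),(⟨0,[(36,0)]⟩,⟨0,[(35,0)]⟩),⟨0,[(0,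
  0)]⟩,.k,.k,(.x (-1) ⟨3,[(21,0),(0,0),(11,1),(0,3)]⟩ ⟨0,[(36,0)]⟩),(.x (-1) ⟨3,[(21,0),(0,0),(11,
  1),(0,3)]⟩ ⟨0,[(36,0)]⟩),(.r (-1) ⟨1,[(8,1),(2,0),(6,0),(2,0),(8,0)]⟩ ⟨10,[(1,8),(0,8),(0,1),(1,
  5),(0,2),(7,2),(9,8)]⟩),.k,⟨false,1,⟨1,[(8,1),(12,0),(19,0)]⟩,⟨10,[(1,5),(0,5),(0,4),(1,3),(0,1),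
  (7,1),(9,5)]⟩⟩,⟨true,0,⟨0,[(23,0)]⟩,⟨1,[(14,0),(9,1),(4,0)]⟩⟩,⟨false,0,⟨0,[]⟩,⟨3,[(21,0),(0,0),
  (18,1)]⟩⟩,⟨false,0,⟨1,[(1,0),(0,0),(0,0),(1,0),(17,0)]⟩,⟨1,[(4,0),(5,1),(13,1),(0,0),(13,0)]⟩⟩,
  ⟨true,0,⟨0,[(38,0)]⟩,⟨0,[(39,0)]⟩⟩,⟨false,0,⟨0,[(1,0),(0,0)]⟩,⟨1,[(4,0),(5,1),(13,1),(0,0),(13,
  2)]⟩⟩,[.o ⟨false,0,⟨0,[(38,0)]⟩,⟨7,[(11,3),(6,3),(2,0),(0,0),(3,3),(7,1)]⟩⟩,.o ⟨false,1,⟨3,[(2,1),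
  (18,0),(0,0),(11,0),(6,0)]⟩,⟨1,[(4,0),(20,0),(13,0)]⟩⟩,.o ⟨false,1,⟨1,[(24,1),(9,0),(5,0)]⟩,⟨1,
  [(14,0),(8,1),(5,0)]⟩⟩,.a ⟨true,0,⟨0,[(24,0)]⟩,⟨0,[(23,0)]⟩⟩ ⟨false,1,⟨1,[(21,0),(18,0)]⟩,⟨0,[(1,
  0),(22,0)]⟩⟩ ⟨true,0,⟨0,[(23,0),(14,0)]⟩,⟨1,[(4,0),(19,1),(0,0),(13,0)]⟩⟩]⟩)))))) (.I [0,1,-2,-1,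
  0,0,0,-1,-1] (.I [1,-1,-1,0,0,0,0,0,-1] (.Q [0,0,0,0,0,1,0,0,0,-1,0,1] (.p true [0,0,0,1] [1] (⟨0,
  [(21,0)]⟩,⟨0,[(20,0)]⟩) .k 1 (⟨0,[]⟩,⟨0,[]⟩) .k .k) (.R ⟨0,false,false,true,[1,0,0,-1],[0,1],[1,0,
  0,0,0,0,0,0,-1],(⟨0,[(21,0)]⟩,⟨0,[(22,0)]⟩),(⟨0,[(34,0)]⟩,⟨0,[(33,0)]⟩),⟨0,[(0,0)]⟩,.k,.k,(.x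
  (-1) ⟨3,[(19,0),(0,0),(11,1),(0,3)]⟩ ⟨0,[(34,0)]⟩),(.x (-1) ⟨3,[(19,0),(0,0),(11,1),(0,3)]⟩ ⟨0,
  [(34,0)]⟩),.k,.k,⟨false,0,⟨1,[(1,1),(1,0),(33,0)]⟩,⟨3,[(19,0),(0,2),(6,1),(0,1),(7,3)]⟩⟩,⟨true,0,
  ⟨0,[(21,0)]⟩,⟨1,[(12,0),(9,1),(4,0)]⟩⟩,⟨true,0,⟨0,[]⟩,⟨0,[(41,0)]⟩⟩,⟨false,1,⟨0,[(11,0),(5,0),(23,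
  0)]⟩,⟨5,[(1,5),(1,0),(0,1),(7,1),(9,5),(14,4)]⟩⟩,⟨false,0,⟨0,[]⟩,⟨0,[]⟩⟩,⟨false,0,⟨0,[]⟩,⟨0,[]⟩⟩,
  [.o ⟨false,0,⟨0,[(36,0)]⟩,⟨7,[(9,3),(6,3),(2,0),(0,0),(3,3),(7,1)]⟩⟩,.o ⟨false,1,⟨3,[(19,0),(0,0),
  (15,3),(2,1)]⟩,⟨5,[(3,0),(0,1),(7,1),(24,4)]⟩⟩,.o ⟨false,1,⟨1,[(22,1),(9,0),(5,0)]⟩,⟨1,[(12,0),(8,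
  1),(5,0)]⟩⟩,.a ⟨true,0,⟨0,[(22,0)]⟩,⟨0,[(21,0)]⟩⟩ ⟨false,0,⟨0,[(1,0)]⟩,⟨3,[(19,0),(0,2),(6,1),(0,
  1)]⟩⟩ ⟨true,0,⟨0,[(21,0),(14,0)]⟩,⟨5,[(3,0),(0,1),(7,1),(9,5),(14,4)]⟩⟩]⟩) (.R ⟨1,false,false,
  true,[1,0,0,-1],[0,1],[1,0,0,0,0,0,0,0,-1],(⟨0,[(21,0)]⟩,⟨0,[(22,0)]⟩),(⟨0,[(34,0)]⟩,⟨0,[(33,
  0)]⟩),⟨0,[(0,0)]⟩,.k,.k,(.x (-1) ⟨3,[(19,0),(0,0),(11,1),(0,3)]⟩ ⟨0,[(34,0)]⟩),(.x (-1) ⟨3,[(19,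
  0),(0,0),(11,1),(0,3)]⟩ ⟨0,[(34,0)]⟩),(.r 0 ⟨2,[(1,1),(0,0),(3,0),(22,0),(7,3)]⟩ ⟨1,[(11,1),(0,0),
  (4,1),(4,1),(4,0),(8,1)]⟩),.k,⟨false,0,⟨1,[(1,1),(1,0),(33,0)]⟩,⟨3,[(19,0),(0,2),(6,1),(0,1),(7,
  3)]⟩⟩,⟨true,0,⟨0,[(21,0)]⟩,⟨1,[(12,0),(9,1),(4,0)]⟩⟩,⟨true,0,⟨0,[]⟩,⟨0,[(41,0)]⟩⟩,⟨false,1,⟨0,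
  [(11,0),(5,0),(23,0)]⟩,⟨5,[(1,5),(1,0),(0,1),(7,1),(9,5),(14,4)]⟩⟩,⟨false,1,⟨0,[(36,0),(2,0)]⟩,⟨0,
  [(37,0)]⟩⟩,⟨false,1,⟨0,[(11,0),(5,0),(18,0)]⟩,⟨5,[(1,5),(1,0),(0,1),(7,1),(9,5),(14,10)]⟩⟩,[.o
  ⟨false,0,⟨0,[(36,0)]⟩,⟨7,[(9,3),(6,3),(2,0),(0,0),(3,3),(7,1)]⟩⟩,.o ⟨false,1,⟨3,[(19,0),(0,0),(15,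
  3),(2,1)]⟩,⟨5,[(3,0),(0,1),(7,1),(24,4)]⟩⟩,.o ⟨false,1,⟨1,[(22,1),(9,0),(5,0)]⟩,⟨1,[(12,0),(8,1),
  (5,0)]⟩⟩,.a ⟨true,0,⟨0,[(22,0)]⟩,⟨0,[(21,0)]⟩⟩ ⟨false,0,⟨0,[(1,0)]⟩,⟨3,[(19,0),(0,2),(6,1),(0,
  1)]⟩⟩ ⟨true,0,⟨0,[(21,0),(14,0)]⟩,⟨5,[(3,0),(0,1),(7,1),(9,5),(14,4)]⟩⟩]⟩)) (.Q [0,1,1,0,0,0,0,0,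
  1,0,0,-1] (.p false [0,0,0,1] [] (⟨0,[(21,0)]⟩,⟨0,[(20,0)]⟩) .k 0 (⟨0,[]⟩,⟨0,[]⟩) .k .k) (.K ⟨0,
  [0,0,0,1],0,0,(⟨0,[(22,0)]⟩,⟨0,[(21,0)]⟩),.k,(.x 0 ⟨0,[(24,0),(2,0),(5,0)]⟩ ⟨0,[(34,0),(3,0)]⟩),
  (.x 0 ⟨0,[(34,0)]⟩ ⟨3,[(19,0),(0,0),(11,1),(0,3)]⟩),.k,.k,[⟨0,[(22,0)]⟩,⟨0,[(21,0)]⟩,⟨0,[(2,0),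
  (14,0),(4,0),(1,0)]⟩,⟨0,[(0,0)]⟩]⟩) (.Q [0,0,0,0,0,1,0,0,0,-1,0,1] (.p true [0,0,0,1] [1] (⟨0,
  [(22,0)]⟩,⟨0,[(21,0)]⟩) .k 1 (⟨0,[]⟩,⟨0,[]⟩) .k .k) (.R ⟨0,false,false,false,[1,0,0,-1],[1,0,-1],
  [0,1,1],(⟨0,[(22,0)]⟩,⟨0,[(23,0)]⟩),(⟨0,[(31,0)]⟩,⟨0,[(32,0)]⟩),⟨0,[(0,0)]⟩,.k,.k,(.x (-1) ⟨3,
  [(20,0),(0,0),(11,1),(0,3)]⟩ ⟨0,[(35,0)]⟩),.k,.k,.k,⟨false,0,⟨0,[(30,0),(11,0)]⟩,⟨0,[(8,0)]⟩⟩,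
  ⟨true,0,⟨0,[(22,0),(2,0)]⟩,⟨0,[(16,0),(6,0)]⟩⟩,⟨true,0,⟨0,[(2,0)]⟩,⟨1,[(1,0),(1,0),(9,0),(4,0),(3,
  0)]⟩⟩,⟨false,1,⟨0,[(12,0)]⟩,⟨0,[(1,0),(24,0)]⟩⟩,⟨false,0,⟨0,[]⟩,⟨0,[]⟩⟩,⟨false,0,⟨0,[]⟩,⟨0,[]⟩⟩,
  [.o ⟨false,1,⟨1,[(27,1),(5,0),(6,0)]⟩,⟨8,[(5,1),(7,0),(1,0),(3,3)]⟩⟩,.o ⟨false,1,⟨1,[(8,0),(4,0),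
  (13,0),(12,0)]⟩,⟨0,[(26,0)]⟩⟩,.o ⟨false,1,⟨1,[(23,1),(9,0),(5,0)]⟩,⟨1,[(13,0),(8,1),(5,0)]⟩⟩,.a
  ⟨true,0,⟨0,[(23,0)]⟩,⟨0,[(22,0)]⟩⟩ ⟨true,0,⟨0,[(42,0)]⟩,⟨0,[]⟩⟩ ⟨false,1,⟨3,[(1,0),(6,0),(0,0),(2,
  1),(0,0),(8,2),(1,0)]⟩,⟨8,[(5,1),(7,0),(1,0),(3,3),(3,8)]⟩⟩]⟩) (.R ⟨1,false,false,true,[1,0,0,-1],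
  [1,0,-1],[1,1,1],(⟨0,[(22,0)]⟩,⟨0,[(23,0)]⟩),(⟨0,[(31,0)]⟩,⟨0,[(32,0)]⟩),⟨0,[(0,0)]⟩,.k,.k,(.x
  (-1) ⟨3,[(20,0),(0,0),(11,1),(0,3)]⟩ ⟨0,[(35,0)]⟩),.k,(.r 0 ⟨5,[(1,1),(1,3),(13,1),(1,0),(2,1),(2,
  2),(3,0),(0,5)]⟩ ⟨3,[(11,1),(0,1),(8,0),(1,1),(4,1),(8,1),(2,0)]⟩),.k,⟨false,0,⟨0,[(30,0)]⟩,⟨15,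
  [(3,3),(4,7),(2,3),(8,2),(0,4)]⟩⟩,⟨true,0,⟨0,[(22,0),(2,0)]⟩,⟨0,[(16,0),(6,0)]⟩⟩,⟨true,0,⟨0,[(2,
  0)]⟩,⟨1,[(1,0),(1,0),(9,0),(4,0),(3,0)]⟩⟩,⟨false,1,⟨0,[(12,0),(29,0)]⟩,⟨8,[(1,8),(3,1),(7,0),(1,
  0),(3,3)]⟩⟩,⟨false,1,⟨0,[(2,0),(34,0),(2,0)]⟩,⟨5,[(1,5),(2,0),(0,1),(7,1),(8,5),(15,4)]⟩⟩,⟨false,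
  1,⟨0,[(12,0),(24,0)]⟩,⟨1,[(1,1),(15,0),(8,0),(11,0)]⟩⟩,[.o ⟨false,0,⟨0,[(24,0)]⟩,⟨7,[(19,3),(0,0),
  (0,0),(11,1),(6,3)]⟩⟩,.o ⟨false,1,⟨1,[(27,1),(5,0),(6,0)]⟩,⟨8,[(5,1),(7,0),(1,0),(3,3)]⟩⟩,.o
  ⟨false,1,⟨1,[(23,1),(9,0),(5,0)]⟩,⟨1,[(13,0),(8,1),(5,0)]⟩⟩,.a ⟨true,0,⟨0,[(23,0)]⟩,⟨0,[(22,0)]⟩⟩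
  ⟨false,0,⟨0,[]⟩,⟨3,[(20,0),(0,0),(18,1)]⟩⟩ ⟨true,0,⟨0,[(22,0),(1,0)]⟩,⟨8,[(5,1),(7,0),(1,0),(3,3),
  (3,8)]⟩⟩]⟩)))) (.Q [0,0,0,0,0,1,0,0,0,-1,0,1] (.p true [0,0,0,1] [1] (⟨0,[(20,0)]⟩,⟨0,[(19,0)]⟩)
  .k 1 (⟨0,[]⟩,⟨0,[]⟩) .k .k) (.R ⟨0,false,false,true,[1,0,0,-1],[0,1],[1,0,0,0,0,0,0,0,-1],(⟨0,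
  [(20,0)]⟩,⟨0,[(21,0)]⟩),(⟨0,[(33,0)]⟩,⟨0,[(32,0)]⟩),⟨0,[(0,0)]⟩,.k,.k,(.x (-1) ⟨3,[(18,0),(0,0),
  (11,1),(0,3)]⟩ ⟨0,[(33,0)]⟩),(.x (-1) ⟨3,[(18,0),(0,0),(11,1),(0,3)]⟩ ⟨0,[(33,0)]⟩),.k,.k,⟨false,
  1,⟨1,[(2,1),(15,0),(19,0)]⟩,⟨2,[(1,2),(3,1),(3,1),(15,0),(0,0),(13,0)]⟩⟩,⟨true,0,⟨0,[(20,0)]⟩,⟨1,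
  [(11,0),(9,1),(4,0)]⟩⟩,⟨true,0,⟨0,[]⟩,⟨0,[(40,0)]⟩⟩,⟨false,0,⟨1,[(1,1),(0,0),(6,0),(4,0),(5,1),(4,
  0)]⟩,⟨15,[(2,5),(0,1),(3,5),(0,4),(2,6),(3,4),(2,4),(2,15)]⟩⟩,⟨false,0,⟨0,[]⟩,⟨0,[]⟩⟩,⟨false,0,⟨0,
  []⟩,⟨0,[]⟩⟩,[.o ⟨false,0,⟨0,[(35,0)]⟩,⟨7,[(8,3),(6,3),(2,0),(0,0),(3,3),(7,1)]⟩⟩,.o ⟨false,1,⟨3,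
  [(18,0),(0,0),(15,3),(2,1)]⟩,⟨5,[(2,0),(0,1),(7,1),(24,4)]⟩⟩,.o ⟨false,1,⟨1,[(21,1),(9,0),(5,0)]⟩,
  ⟨1,[(11,0),(8,1),(5,0)]⟩⟩,.a ⟨true,0,⟨0,[(21,0)]⟩,⟨0,[(20,0)]⟩⟩ ⟨false,1,⟨0,[(7,0)]⟩,⟨0,[(1,0),(0,
  0),(22,0),(0,0)]⟩⟩ ⟨true,0,⟨0,[(20,0),(14,0)]⟩,⟨5,[(2,0),(0,1),(7,1),(9,5),(14,4)]⟩⟩]⟩) (.Q [0,0,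
  1,2,0,0,0,0,1,1,0,-1] (.p false [0,0,0,1] [1] (⟨0,[(21,0)]⟩,⟨0,[(20,0)]⟩) .k 1 (⟨0,[]⟩,⟨0,[]⟩) .k
  .k) (.R ⟨1,false,false,true,[1,0,0,-1],[0,1],[1,0,0,0,0,0,0,0,-1],(⟨0,[(21,0)]⟩,⟨0,[(22,0)]⟩),(⟨0,
  [(34,0)]⟩,⟨0,[(33,0)]⟩),⟨0,[(1,0)]⟩,.k,.k,(.x (-1) ⟨3,[(19,0),(0,0),(11,1),(0,3)]⟩ ⟨0,[(34,0)]⟩),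
  (.x (-1) ⟨3,[(19,0),(0,0),(11,1),(0,3)]⟩ ⟨0,[(34,0)]⟩),(.r (-1) ⟨1,[(6,1),(2,0),(6,0),(2,0),(8,
  0)]⟩ ⟨0,[(2,0),(7,0)]⟩),.k,⟨false,1,⟨1,[(3,1),(15,0),(19,0)]⟩,⟨2,[(2,2),(3,1),(3,1),(15,0),(0,0),
  (13,0)]⟩⟩,⟨true,0,⟨0,[(21,0)]⟩,⟨1,[(12,0),(9,1),(4,0)]⟩⟩,⟨true,0,⟨0,[]⟩,⟨0,[(41,0)]⟩⟩,⟨false,0,⟨0,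
  [(0,0),(36,0)]⟩,⟨15,[(3,5),(0,1),(3,5),(0,4),(2,6),(3,4),(2,4),(2,15)]⟩⟩,⟨false,1,⟨0,[(36,0),(2,
  0)]⟩,⟨0,[(37,0)]⟩⟩,⟨false,0,⟨0,[(0,0)]⟩,⟨1,[(3,0),(5,0),(2,0),(3,0),(2,0),(2,1),(14,0)]⟩⟩,[.o
  ⟨false,0,⟨0,[(36,0)]⟩,⟨7,[(9,3),(6,3),(2,0),(0,0),(3,3),(7,1)]⟩⟩,.o ⟨false,1,⟨3,[(19,0),(0,0),(15,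
  3),(2,1)]⟩,⟨5,[(3,0),(0,1),(7,1),(24,4)]⟩⟩,.o ⟨false,1,⟨1,[(22,1),(9,0),(5,0)]⟩,⟨1,[(12,0),(8,1),
  (5,0)]⟩⟩,.a ⟨true,0,⟨0,[(22,0)]⟩,⟨0,[(21,0)]⟩⟩ ⟨false,1,⟨0,[(8,0)]⟩,⟨3,[(0,1),(1,1),(0,0),(0,1),
  (17,1),(3,1),(10,4)]⟩⟩ ⟨true,0,⟨0,[(21,0),(14,0)]⟩,⟨5,[(3,0),(0,1),(7,1),(9,5),(14,4)]⟩⟩]⟩) (.R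
  ⟨1,true,false,false,[1,0,0,-1],[0,1],[1,1,0,0,0,0,0,0,-1],(⟨0,[(21,0)]⟩,⟨0,[(22,0)]⟩),(⟨0,[(34,
  0)]⟩,⟨0,[(33,0)]⟩),⟨0,[(1,0)]⟩,.k,.k,(.x (-1) ⟨3,[(19,0),(0,0),(11,1),(0,3)]⟩ ⟨0,[(34,0)]⟩),(.x
  (-1) ⟨3,[(19,0),(0,0),(11,1),(0,3)]⟩ ⟨0,[(34,0)]⟩),(.r (-1) ⟨1,[(6,1),(2,0),(6,0),(2,0),(8,0)]⟩
  ⟨0,[(2,0),(7,0)]⟩),.k,⟨false,0,⟨0,[(0,0),(20,0),(13,0)]⟩,⟨7,[(2,3),(7,3),(8,0),(0,2),(18,3)]⟩⟩,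
  ⟨true,0,⟨0,[(21,0)]⟩,⟨1,[(12,0),(9,1),(4,0)]⟩⟩,⟨false,0,⟨0,[]⟩,⟨3,[(19,0),(0,0),(18,1)]⟩⟩,⟨true,0,
  ⟨1,[(2,1),(0,0),(6,0),(4,0),(5,1),(4,0)]⟩,⟨0,[(0,0),(35,0)]⟩⟩,⟨true,0,⟨0,[(36,0)]⟩,⟨0,[(37,0)]⟩⟩,
  ⟨false,1,⟨1,[(2,0),(7,0),(0,0),(5,0),(3,0),(13,0),(3,0)]⟩,⟨0,[(0,0)]⟩⟩,[]⟩)))))) (.I [1,-1,1,0,0,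
  0,0,0,1] (.Q [0,0,0,0,0,1,0,0,0,-1,0,1] (.p true [0,0,0,1] [1] (⟨0,[(18,0)]⟩,⟨0,[(17,0)]⟩) .k 1
  (⟨0,[]⟩,⟨0,[]⟩) .k .k) (.R ⟨0,false,false,true,[1,0,0,-1],[0,1],[0,1,0,0,0,0,0,0,-1],(⟨0,[(18,
  0)]⟩,⟨0,[(19,0)]⟩),(⟨0,[(31,0)]⟩,⟨0,[(30,0)]⟩),⟨0,[(0,0)]⟩,.k,.k,(.x (-1) ⟨3,[(16,0),(0,0),(11,1),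
  (0,3)]⟩ ⟨0,[(31,0)]⟩),(.x (-1) ⟨3,[(16,0),(0,0),(11,1),(0,3)]⟩ ⟨0,[(31,0)]⟩),.k,.k,⟨false,1,⟨1,
  [(3,1),(12,0),(19,0)]⟩,⟨0,[(1,0),(31,0)]⟩⟩,⟨true,0,⟨0,[(18,0)]⟩,⟨1,[(9,0),(9,1),(4,0)]⟩⟩,⟨true,0,
  ⟨0,[(38,0)]⟩,⟨0,[]⟩⟩,⟨false,0,⟨0,[(1,0),(16,0),(14,0)]⟩,⟨0,[(5,0),(7,0),(5,0),(0,0)]⟩⟩,⟨false,0,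
  ⟨0,[]⟩,⟨0,[]⟩⟩,⟨false,0,⟨0,[]⟩,⟨0,[]⟩⟩,[.o ⟨false,0,⟨0,[(33,0)]⟩,⟨7,[(6,3),(6,3),(2,0),(0,0),(3,
  3),(7,1)]⟩⟩,.o ⟨false,1,⟨3,[(16,0),(0,0),(15,3),(2,1)]⟩,⟨0,[(13,0),(6,0)]⟩⟩,.o ⟨false,1,⟨1,[(19,
  1),(9,0),(5,0)]⟩,⟨1,[(9,0),(8,1),(5,0)]⟩⟩,.a ⟨true,0,⟨0,[(19,0)]⟩,⟨0,[(18,0)]⟩⟩ ⟨false,1,⟨1,[(16,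
  0),(18,0)]⟩,⟨0,[(1,0)]⟩⟩ ⟨true,0,⟨0,[(18,0),(14,0)]⟩,⟨0,[(13,0),(5,0),(0,0)]⟩⟩]⟩) (.Q [0,0,1,1,0,
  0,-1,-1,1,0,1,-1] (.p true [0,0,1] [0,0,0,1] (⟨0,[(28,0)]⟩,⟨0,[(27,0)]⟩) .k 2 (⟨0,[(19,0)]⟩,⟨0,
  [(18,0)]⟩) .k (.x (-1) ⟨0,[(4,0),(17,0),(5,0)]⟩ ⟨0,[(21,0),(5,0)]⟩)) (.R ⟨1,false,false,true,[1,0,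
  0,-1],[1,0,-1],[1,0,0,0,0,0,0,0,-1],(⟨0,[(19,0)]⟩,⟨0,[(20,0)]⟩),(⟨0,[(28,0)]⟩,⟨0,[(29,0)]⟩),⟨0,
  [(1,0)]⟩,.k,.k,(.x (-1) ⟨3,[(17,0),(0,0),(11,1),(0,3)]⟩ ⟨0,[(32,0)]⟩),.k,(.r (-1) ⟨7,[(4,3),(2,1),
  (6,1),(2,4),(0,0),(7,1),(0,7)]⟩ ⟨0,[(2,0),(5,0)]⟩),.k,⟨false,1,⟨1,[(12,1),(4,0),(19,0)]⟩,⟨2,[(2,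
  2),(1,1),(3,1),(15,0),(0,0),(13,0)]⟩⟩,⟨true,0,⟨0,[(19,0),(2,0)]⟩,⟨0,[(13,0),(6,0)]⟩⟩,⟨true,0,⟨0,
  []⟩,⟨0,[(39,0)]⟩⟩,⟨false,0,⟨0,[(0,0),(34,0)]⟩,⟨5,[(6,3),(7,3),(0,1),(1,0),(2,5),(9,0),(2,1)]⟩⟩,
  ⟨false,1,⟨0,[(34,0),(2,0)]⟩,⟨0,[(35,0)]⟩⟩,⟨false,0,⟨0,[(0,0)]⟩,⟨1,[(14,1),(2,0),(2,1),(15,0)]⟩⟩,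
  [.o ⟨false,0,⟨0,[(21,0)]⟩,⟨7,[(16,3),(0,0),(0,0),(11,1),(6,3)]⟩⟩,.o ⟨false,1,⟨1,[(24,1),(5,0),(6,
  0)]⟩,⟨4,[(10,0),(2,0),(0,0),(1,1),(16,0)]⟩⟩,.o ⟨false,1,⟨1,[(20,1),(9,0),(5,0)]⟩,⟨1,[(10,0),(8,1),
  (5,0)]⟩⟩,.a ⟨true,0,⟨0,[(20,0)]⟩,⟨0,[(19,0)]⟩⟩ ⟨false,1,⟨0,[(6,0)]⟩,⟨0,[(2,0),(36,0)]⟩⟩ ⟨true,0,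
  ⟨0,[(19,0),(1,0)]⟩,⟨4,[(10,0),(2,0),(0,0),(1,1),(3,4),(12,0)]⟩⟩]⟩) (.R ⟨1,true,false,false,[0,0,
  1],[0,0,0,1],[0,1,0,-1,0,0,0,1],(⟨0,[(29,0)]⟩,⟨0,[(28,0)]⟩),(⟨0,[(20,0)]⟩,⟨0,[(19,0)]⟩),⟨0,[(3,
  0)]⟩,.k,.k,.k,.k,(.r (-1) ⟨1,[(0,0),(3,0),(4,0),(7,0),(9,1)]⟩ ⟨0,[(2,0),(5,0)]⟩),.k,⟨false,0,⟨1,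
  [(0,1),(3,0),(14,1),(2,1),(11,0)]⟩,⟨5,[(2,3),(2,1),(2,3),(9,0),(14,1),(3,2)]⟩⟩,⟨true,0,⟨0,[(19,0),
  (2,0)]⟩,⟨0,[(13,0),(6,0)]⟩⟩,⟨false,0,⟨0,[(35,0)]⟩,⟨0,[(34,0),(2,0)]⟩⟩,⟨true,0,⟨0,[(2,0),(16,0),(1,
  0)]⟩,⟨0,[(0,0),(33,0)]⟩⟩,⟨true,0,⟨0,[(39,0)]⟩,⟨0,[]⟩⟩,⟨false,1,⟨1,[(2,0),(5,0),(0,0),(9,0),(2,0),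
  (10,0),(3,0)]⟩,⟨0,[(0,0)]⟩⟩,[]⟩))) (.Q [0,1,1,0,0,0,0,0,1,0,0,-1] (.p false [0,0,0,1] [] (⟨0,[(18,
  0)]⟩,⟨0,[(17,0)]⟩) .k 0 (⟨0,[]⟩,⟨0,[]⟩) .k .k) (.K ⟨0,[0,0,0,1],0,0,(⟨0,[(19,0)]⟩,⟨0,[(18,0)]⟩),
  .k,(.x 0 ⟨0,[(21,0),(2,0),(5,0)]⟩ ⟨0,[(31,0),(3,0)]⟩),(.x 0 ⟨0,[(31,0)]⟩ ⟨3,[(16,0),(0,0),(11,1),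
  (0,3)]⟩),.k,.k,[⟨0,[(19,0)]⟩,⟨0,[(18,0)]⟩,⟨0,[(1,0),(17,0)]⟩,⟨0,[(0,0)]⟩]⟩) (.Q [0,0,0,0,0,-1,0,0,
  0,1,0,-1] (.p false [0,0,0,1] [1] (⟨0,[(19,0)]⟩,⟨0,[(18,0)]⟩) .k 1 (⟨0,[]⟩,⟨0,[]⟩) .k .k) (.R ⟨1,
  false,false,true,[1,0,0,-1],[0,1],[1,1,0,0,0,0,0,0,-1],(⟨0,[(19,0)]⟩,⟨0,[(20,0)]⟩),(⟨0,[(32,0)]⟩,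
  ⟨0,[(31,0)]⟩),⟨0,[(0,0)]⟩,.k,.k,(.x (-1) ⟨3,[(17,0),(0,0),(11,1),(0,3)]⟩ ⟨0,[(32,0)]⟩),(.x (-1)
  ⟨3,[(17,0),(0,0),(11,1),(0,3)]⟩ ⟨0,[(32,0)]⟩),(.r 0 ⟨3,[(1,2),(0,0),(1,1),(9,2),(4,2),(1,2),(13,
  2)]⟩ ⟨1,[(9,1),(0,0),(4,1),(4,1),(4,0),(8,1)]⟩),.k,⟨false,0,⟨4,[(1,3),(0,0),(1,2),(5,0),(2,0),(0,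
  1),(4,3),(1,1)]⟩,⟨11,[(9,3),(5,3),(1,0),(0,4),(1,3),(1,3),(2,3),(8,7),(2,1)]⟩⟩,⟨true,0,⟨0,[(19,
  0)]⟩,⟨1,[(10,0),(9,1),(4,0)]⟩⟩,⟨false,0,⟨0,[]⟩,⟨3,[(17,0),(0,0),(18,1)]⟩⟩,⟨false,1,⟨0,[(9,0),(5,
  0),(23,0)]⟩,⟨0,[(1,0),(12,0),(6,0)]⟩⟩,⟨true,0,⟨0,[(34,0)]⟩,⟨0,[(35,0)]⟩⟩,⟨false,1,⟨0,[(9,0),(5,0),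
  (18,0)]⟩,⟨0,[(1,0),(12,0),(6,0),(13,0)]⟩⟩,[.o ⟨false,0,⟨0,[(34,0)]⟩,⟨7,[(7,3),(6,3),(2,0),(0,0),
  (3,3),(7,1)]⟩⟩,.o ⟨false,1,⟨3,[(17,0),(0,0),(15,3),(2,1)]⟩,⟨0,[(14,0),(6,0)]⟩⟩,.o ⟨false,1,⟨1,
  [(20,1),(9,0),(5,0)]⟩,⟨1,[(10,0),(8,1),(5,0)]⟩⟩,.a ⟨true,0,⟨0,[(20,0)]⟩,⟨0,[(19,0)]⟩⟩ ⟨false,0,⟨9,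
  [(1,5),(0,3),(1,0),(5,2),(2,2),(5,5),(13,0)]⟩,⟨1,[(18,0),(6,0),(0,0),(10,0)]⟩⟩ ⟨true,0,⟨0,[(19,0),
  (14,0)]⟩,⟨0,[(14,0),(5,0),(0,0)]⟩⟩]⟩) (.R ⟨0,false,false,true,[1,0,0,-1],[0,1],[0,1,0,0,0,0,0,0,
  -1],(⟨0,[(19,0)]⟩,⟨0,[(20,0)]⟩),(⟨0,[(32,0)]⟩,⟨0,[(31,0)]⟩),⟨0,[(0,0)]⟩,.k,.k,(.x (-1) ⟨3,[(17,0),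
  (0,0),(11,1),(0,3)]⟩ ⟨0,[(32,0)]⟩),(.x (-1) ⟨3,[(17,0),(0,0),(11,1),(0,3)]⟩ ⟨0,[(32,0)]⟩),.k,.k,
  ⟨false,0,⟨4,[(1,3),(0,0),(1,2),(5,0),(2,0),(0,1),(4,3),(1,1)]⟩,⟨11,[(9,3),(5,3),(1,0),(0,4),(1,3),
  (1,3),(2,3),(8,7),(2,1)]⟩⟩,⟨true,0,⟨0,[(19,0)]⟩,⟨1,[(10,0),(9,1),(4,0)]⟩⟩,⟨true,0,⟨0,[(39,0)]⟩,⟨0,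
  []⟩⟩,⟨false,1,⟨0,[(9,0),(5,0),(23,0)]⟩,⟨0,[(1,0),(12,0),(6,0)]⟩⟩,⟨false,0,⟨0,[]⟩,⟨0,[]⟩⟩,⟨false,0,
  ⟨0,[]⟩,⟨0,[]⟩⟩,[.o ⟨false,0,⟨0,[(34,0)]⟩,⟨7,[(7,3),(6,3),(2,0),(0,0),(3,3),(7,1)]⟩⟩,.o ⟨false,1,
  ⟨3,[(17,0),(0,0),(15,3),(2,1)]⟩,⟨0,[(14,0),(6,0)]⟩⟩,.o ⟨false,1,⟨1,[(20,1),(9,0),(5,0)]⟩,⟨1,[(10,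
  0),(8,1),(5,0)]⟩⟩,.a ⟨true,0,⟨0,[(20,0)]⟩,⟨0,[(19,0)]⟩⟩ ⟨false,0,⟨9,[(1,5),(0,3),(1,0),(5,2),(2,
  2),(5,5),(13,0)]⟩,⟨1,[(18,0),(6,0),(0,0),(10,0)]⟩⟩ ⟨true,0,⟨0,[(19,0),(14,0)]⟩,⟨0,[(14,0),(5,0),
  (0,0)]⟩⟩]⟩))))) (.Q [0,0,0,0,0,1,0,0,0,0,-1] (.ed true [1,-1,1] .k) (.Q [0,1,0,1,0,0,-1,-1,0,1,1]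
  (.p true [1,-1,1] [] (⟨0,[(26,0),(1,0)]⟩,⟨0,[(0,0)]⟩) .k 0 (⟨0,[]⟩,⟨0,[]⟩) .k .k) (.R ⟨0,false,
  false,true,[1,0,-1],[0,1,-1],[0,1],(⟨0,[(26,0)]⟩,⟨0,[(27,0)]⟩),(⟨0,[(1,0)]⟩,⟨0,[(27,0),(1,0)]⟩),
  ⟨0,[(9,0)]⟩,.k,.k,.k,.k,.k,.k,⟨true,0,⟨0,[(10,0),(22,0)]⟩,⟨0,[(2,0),(8,0),(10,0)]⟩⟩,⟨false,1,⟨2,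
  [(0,1),(4,1),(4,1),(3,0),(19,0)]⟩,⟨1,[(8,0),(14,0)]⟩⟩,⟨false,0,⟨0,[(25,0)]⟩,⟨9,[(2,3),(0,1),(1,5),
  (0,1),(8,0),(0,0)]⟩⟩,⟨true,0,⟨2,[(0,1),(13,0),(17,0)]⟩,⟨0,[(12,0),(6,0)]⟩⟩,⟨false,0,⟨0,[]⟩,⟨0,
  []⟩⟩,⟨false,0,⟨0,[]⟩,⟨0,[]⟩⟩,[.a ⟨true,0,⟨0,[(0,0)]⟩,⟨0,[(12,0)]⟩⟩ ⟨false,0,⟨0,[(31,0),(1,0)]⟩,⟨3,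
  [(15,0),(0,0),(18,1)]⟩⟩ ⟨true,0,⟨0,[(0,0),(10,0)]⟩,⟨0,[(12,0),(7,0)]⟩⟩,.o ⟨false,1,⟨1,[(0,1),(27,
  0),(6,0)]⟩,⟨4,[(8,0),(2,0),(0,5),(6,2),(1,1),(9,0)]⟩⟩,.o ⟨false,1,⟨3,[(15,0),(0,0),(3,3),(13,1)]⟩,
  ⟨0,[(11,0)]⟩⟩,.o ⟨false,0,⟨0,[(20,0)]⟩,⟨0,[(3,0),(17,0)]⟩⟩]⟩) (.Q [0,1,-1,0,0,0,0,0,-1,0,0,1] (.p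
  true [0,0,0,1] [] (⟨0,[(18,0)]⟩,⟨0,[(17,0)]⟩) .k 0 (⟨0,[]⟩,⟨0,[]⟩) .k .k) (.Q [0,1,1,0,0,0,0,0,1,
  0,0,-1] (.p false [0,0,0,1] [] (⟨0,[(19,0)]⟩,⟨0,[(18,0)]⟩) .k 0 (⟨0,[]⟩,⟨0,[]⟩) .k .k) (.K ⟨0,[0,
  0,0,1],0,0,(⟨0,[(20,0)]⟩,⟨0,[(19,0)]⟩),.k,(.x 0 ⟨0,[(22,0),(2,0),(5,0)]⟩ ⟨0,[(32,0),(3,0)]⟩),(.x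
  0 ⟨0,[(32,0)]⟩ ⟨3,[(17,0),(0,0),(11,1),(0,3)]⟩),.k,.k,[⟨0,[(20,0)]⟩,⟨0,[(19,0)]⟩,⟨0,[(1,0)]⟩,⟨0,
  [(0,0)]⟩]⟩) (.Q [0,0,0,0,0,1,0,0,0,-1,0,1] (.p true [0,0,0,1] [1] (⟨0,[(20,0)]⟩,⟨0,[(19,0)]⟩) .k
  1 (⟨0,[]⟩,⟨0,[]⟩) .k .k) (.R ⟨0,false,false,true,[1,0,0,-1],[0,1],[0,1,0,0,0,0,0,0,-1],(⟨0,[(20,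
  0)]⟩,⟨0,[(21,0)]⟩),(⟨0,[(33,0)]⟩,⟨0,[(32,0)]⟩),⟨0,[(0,0)]⟩,.k,.k,(.x (-1) ⟨3,[(18,0),(0,0),(11,1),
  (0,3)]⟩ ⟨0,[(33,0)]⟩),(.x (-1) ⟨3,[(18,0),(0,0),(11,1),(0,3)]⟩ ⟨0,[(33,0)]⟩),.k,.k,⟨false,0,⟨1,
  [(1,1),(1,0),(16,1),(1,0),(11,1),(1,2)]⟩,⟨3,[(5,1),(12,0),(0,2),(15,1)]⟩⟩,⟨true,0,⟨0,[(20,0)]⟩,⟨1,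
  [(11,0),(9,1),(4,0)]⟩⟩,⟨true,0,⟨0,[(40,0)]⟩,⟨0,[]⟩⟩,⟨false,1,⟨0,[(10,0),(5,0),(23,0)]⟩,⟨1,[(1,1),
  (1,0),(18,0),(13,0)]⟩⟩,⟨false,0,⟨0,[]⟩,⟨0,[]⟩⟩,⟨false,0,⟨0,[]⟩,⟨0,[]⟩⟩,[.o ⟨false,0,⟨0,[(35,0)]⟩,
  ⟨7,[(8,3),(6,3),(2,0),(0,0),(3,3),(7,1)]⟩⟩,.o ⟨false,1,⟨3,[(18,0),(0,0),(15,3),(2,1)]⟩,⟨1,[(3,0),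
  (18,0),(13,0)]⟩⟩,.o ⟨false,1,⟨1,[(21,1),(9,0),(5,0)]⟩,⟨1,[(11,0),(8,1),(5,0)]⟩⟩,.a ⟨true,0,⟨0,
  [(21,0)]⟩,⟨0,[(20,0)]⟩⟩ ⟨false,0,⟨4,[(1,2),(0,1),(0,1),(5,0),(1,0),(8,4),(1,0),(11,0)]⟩,⟨5,[(5,1),
  (4,1),(4,1),(2,0),(0,2),(1,1)]⟩⟩ ⟨true,0,⟨0,[(20,0),(14,0)]⟩,⟨1,[(3,0),(17,1),(0,0),(13,0)]⟩⟩]⟩)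
  (.R ⟨1,false,false,true,[1,0,0,-1],[0,1],[0,1,0,-1,0,0,0,0,-1],(⟨0,[(20,0)]⟩,⟨0,[(21,0)]⟩),(⟨0,
  [(33,0)]⟩,⟨0,[(32,0)]⟩),⟨0,[(0,0)]⟩,.k,.k,(.x (-1) ⟨3,[(18,0),(0,0),(11,1),(0,3)]⟩ ⟨0,[(33,0)]⟩),
  (.x (-1) ⟨3,[(18,0),(0,0),(11,1),(0,3)]⟩ ⟨0,[(33,0)]⟩),(.r 0 ⟨1,[(1,1),(1,0),(16,1),(1,0),(11,1),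
  (1,4)]⟩ ⟨3,[(5,3),(12,0),(0,2),(15,3)]⟩),.k,⟨false,0,⟨1,[(1,1),(1,0),(16,1),(1,0),(11,1),(1,4)]⟩,
  ⟨1,[(5,0),(13,0),(15,2),(2,0)]⟩⟩,⟨true,0,⟨0,[(20,0)]⟩,⟨1,[(11,0),(9,1),(4,0)]⟩⟩,⟨false,0,⟨0,[(36,
  0)]⟩,⟨0,[(35,0),(2,0)]⟩⟩,⟨false,1,⟨0,[(10,0),(5,0),(23,0)]⟩,⟨1,[(1,1),(1,0),(18,0),(13,0)]⟩⟩,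
  ⟨true,0,⟨0,[(40,0)]⟩,⟨0,[]⟩⟩,⟨false,1,⟨0,[(10,0),(5,0),(18,0)]⟩,⟨1,[(1,1),(1,0),(18,0),(13,2)]⟩⟩,
  [.o ⟨false,0,⟨0,[(35,0)]⟩,⟨7,[(8,3),(6,3),(2,0),(0,0),(3,3),(7,1)]⟩⟩,.o ⟨false,1,⟨3,[(18,0),(0,0),
  (15,3),(2,1)]⟩,⟨1,[(3,0),(18,0),(13,0)]⟩⟩,.o ⟨false,1,⟨1,[(21,1),(9,0),(5,0)]⟩,⟨1,[(11,0),(8,1),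
  (5,0)]⟩⟩,.a ⟨true,0,⟨0,[(21,0)]⟩,⟨0,[(20,0)]⟩⟩ ⟨false,0,⟨1,[(1,0),(0,0),(0,0),(16,1),(1,0),(13,
  0)]⟩,⟨1,[(5,0),(13,0),(15,0),(2,0)]⟩⟩ ⟨true,0,⟨0,[(20,0),(14,0)]⟩,⟨1,[(3,0),(17,1),(0,0),(13,
  0)]⟩⟩]⟩))) (.Q [0,0,0,0,0,1,0,0,0,-1,0,1] (.p true [0,0,0,1] [1] (⟨0,[(19,0)]⟩,⟨0,[(18,0)]⟩) .k 1
  (⟨0,[]⟩,⟨0,[]⟩) .k .k) (.R ⟨0,false,false,true,[1,0,0,-1],[0,1],[0,1,0,0,0,0,0,0,-1],(⟨0,[(19,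
  0)]⟩,⟨0,[(20,0)]⟩),(⟨0,[(32,0)]⟩,⟨0,[(31,0)]⟩),⟨0,[(0,0)]⟩,.k,.k,(.x (-1) ⟨3,[(17,0),(0,0),(11,1),
  (0,3)]⟩ ⟨0,[(32,0)]⟩),(.x (-1) ⟨3,[(17,0),(0,0),(11,1),(0,3)]⟩ ⟨0,[(32,0)]⟩),.k,.k,⟨false,1,⟨0,
  [(6,0),(26,0),(1,1)]⟩,⟨0,[(1,0),(18,0),(13,0)]⟩⟩,⟨true,0,⟨0,[(19,0)]⟩,⟨1,[(10,0),(9,1),(4,0)]⟩⟩,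
  ⟨true,0,⟨0,[(39,0)]⟩,⟨0,[]⟩⟩,⟨false,0,⟨0,[(1,0),(13,0),(8,0)]⟩,⟨1,[(2,0),(3,1),(13,1),(0,0),(13,
  0)]⟩⟩,⟨false,0,⟨0,[]⟩,⟨0,[]⟩⟩,⟨false,0,⟨0,[]⟩,⟨0,[]⟩⟩,[.o ⟨false,0,⟨0,[(34,0)]⟩,⟨7,[(7,3),(6,3),
  (2,0),(0,0),(3,3),(7,1)]⟩⟩,.o ⟨false,1,⟨3,[(17,0),(0,0),(15,3),(2,1)]⟩,⟨1,[(2,0),(18,0),(13,0)]⟩⟩,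
  .o ⟨false,1,⟨1,[(20,1),(9,0),(5,0)]⟩,⟨1,[(10,0),(8,1),(5,0)]⟩⟩,.a ⟨true,0,⟨0,[(20,0)]⟩,⟨0,[(19,
  0)]⟩⟩ ⟨false,1,⟨1,[(17,0),(18,0)]⟩,⟨0,[(1,0),(18,0)]⟩⟩ ⟨true,0,⟨0,[(19,0),(14,0)]⟩,⟨1,[(2,0),(17,
  1),(0,0),(13,0)]⟩⟩]⟩) (.R ⟨1,false,false,true,[1,0,0,-1],[0,1],[1,1,0,0,0,0,0,0,-1],(⟨0,[(19,0)]⟩,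
  ⟨0,[(20,0)]⟩),(⟨0,[(32,0)]⟩,⟨0,[(31,0)]⟩),⟨0,[(0,0)]⟩,.k,.k,(.x (-1) ⟨3,[(17,0),(0,0),(11,1),(0,
  3)]⟩ ⟨0,[(32,0)]⟩),(.x (-1) ⟨3,[(17,0),(0,0),(11,1),(0,3)]⟩ ⟨0,[(32,0)]⟩),(.r (-1) ⟨0,[(6,0),(26,
  0),(1,2)]⟩ ⟨1,[(1,1),(2,0),(15,1),(13,2)]⟩),.k,⟨false,1,⟨0,[(6,0),(26,0),(1,1)]⟩,⟨0,[(1,0),(18,0),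
  (13,0)]⟩⟩,⟨true,0,⟨0,[(19,0)]⟩,⟨1,[(10,0),(9,1),(4,0)]⟩⟩,⟨false,0,⟨0,[]⟩,⟨3,[(17,0),(0,0),(18,
  1)]⟩⟩,⟨false,0,⟨0,[(1,0),(13,0),(8,0)]⟩,⟨1,[(2,0),(3,1),(13,1),(0,0),(13,0)]⟩⟩,⟨true,0,⟨0,[(34,
  0)]⟩,⟨0,[(35,0)]⟩⟩,⟨false,0,⟨1,[(1,1),(2,0),(10,0),(3,0),(0,0),(3,0),(8,1)]⟩,⟨1,[(2,0),(3,1),(13,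
  1),(0,0),(13,2)]⟩⟩,[.o ⟨false,0,⟨0,[(34,0)]⟩,⟨7,[(7,3),(6,3),(2,0),(0,0),(3,3),(7,1)]⟩⟩,.o ⟨false,
  1,⟨3,[(17,0),(0,0),(15,3),(2,1)]⟩,⟨1,[(2,0),(18,0),(13,0)]⟩⟩,.o ⟨false,1,⟨1,[(20,1),(9,0),(5,0)]⟩,
  ⟨1,[(10,0),(8,1),(5,0)]⟩⟩,.a ⟨true,0,⟨0,[(20,0)]⟩,⟨0,[(19,0)]⟩⟩ ⟨false,1,⟨1,[(17,0),(18,0)]⟩,⟨0,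
  [(1,0),(18,0)]⟩⟩ ⟨true,0,⟨0,[(19,0),(14,0)]⟩,⟨1,[(2,0),(17,1),(0,0),(13,0)]⟩⟩]⟩)))) (.Q [0,-1,-1,
  1,1,0,0,0,-1,0,0,1] (.p true [0,0,0,1] [] (⟨0,[(17,0)]⟩,⟨0,[(16,0)]⟩) .k 0 (⟨0,[]⟩,⟨0,[]⟩) .k .k)
  (.I [0,0,1,1,0,0,0,0,-1] (.I [0,1,1,0,-1,0,0,0,-1] (.Q [0,1,1,0,0,0,0,0,1,0,0,-1] (.p false [0,0,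
  0,1] [] (⟨0,[(20,0)]⟩,⟨0,[(19,0)]⟩) .k 0 (⟨0,[]⟩,⟨0,[]⟩) .k .k) (.K ⟨0,[0,0,0,1],0,0,(⟨0,[(21,
  0)]⟩,⟨0,[(20,0)]⟩),.k,(.r (-1) ⟨1,[(19,0),(16,1),(0,0)]⟩ ⟨0,[(2,0)]⟩),(.x 0 ⟨0,[(33,0)]⟩ ⟨3,[(18,
  0),(0,0),(11,1),(0,3)]⟩),.k,.k,[⟨0,[(21,0)]⟩,⟨0,[(20,0)]⟩,⟨0,[(1,0),(19,0),(15,0)]⟩,⟨0,[(0,
  0)]⟩]⟩) (.R ⟨1,true,false,false,[0,0,1],[1,0,0,-1],[1,1,0,0,0,0,0,1],(⟨0,[(30,0)]⟩,⟨0,[(29,0)]⟩),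
  (⟨0,[(20,0)]⟩,⟨0,[(21,0)]⟩),⟨0,[(4,0)]⟩,.k,.k,.k,.k,(.r (-1) ⟨3,[(13,3),(4,0),(0,2),(16,3)]⟩ ⟨2,
  [(1,1),(0,0),(2,0),(0,1),(2,0)]⟩),.k,⟨true,0,⟨0,[(1,0),(11,0),(5,0)]⟩,⟨0,[(0,0),(0,0),(8,0),(3,
  0)]⟩⟩,⟨false,1,⟨3,[(0,1),(10,1),(1,1),(5,0),(1,1),(3,1),(11,2)]⟩,⟨0,[(20,0),(5,0)]⟩⟩,⟨false,0,⟨0,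
  []⟩,⟨3,[(18,0),(0,0),(18,1)]⟩⟩,⟨true,0,⟨0,[(0,0),(21,0)]⟩,⟨4,[(1,4),(9,0),(2,0),(0,0),(1,1),(1,4),
  (0,4),(13,0)]⟩⟩,⟨true,0,⟨0,[(35,0)]⟩,⟨0,[(36,0)]⟩⟩,⟨false,1,⟨8,[(0,6),(2,4),(2,0),(2,1),(0,2),(0,
  2),(10,2),(11,1)]⟩,⟨0,[(1,0),(13,0),(3,0),(0,0)]⟩⟩,[]⟩)) (.Q [0,1,1,0,0,0,0,0,1,0,0,-1] (.p false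
  [0,0,0,1] [] (⟨0,[(20,0)]⟩,⟨0,[(19,0)]⟩) .k 0 (⟨0,[]⟩,⟨0,[]⟩) .k .k) (.Q [0,1,-1,0,0,0,0,0,-1,0,0,
  1] (.p true [0,0,0,1] [] (⟨0,[(21,0)]⟩,⟨0,[(20,0)]⟩) .k 0 (⟨0,[]⟩,⟨0,[]⟩) .k .k) (.K ⟨0,[0,0,0,1],
  0,0,(⟨0,[(22,0)]⟩,⟨0,[(21,0)]⟩),.k,(.r (-1) ⟨1,[(20,0),(16,1),(0,0)]⟩ ⟨0,[(3,0)]⟩),(.x 0 ⟨0,[(34,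
  0)]⟩ ⟨3,[(19,0),(0,0),(11,1),(0,3)]⟩),.k,.k,[⟨0,[(22,0)]⟩,⟨0,[(21,0)]⟩,⟨0,[(0,0)]⟩,⟨0,[(1,0)]⟩]⟩)
  (.Q [0,0,0,0,0,-1,0,0,0,1,0,-1] (.p false [0,0,0,1] [1] (⟨0,[(22,0)]⟩,⟨0,[(21,0)]⟩) .k 1 (⟨0,[]⟩,
  ⟨0,[]⟩) .k .k) (.R ⟨1,false,false,false,[1,0,0,-1],[1,-1],[1,0,0,0,0,0,0,0,-1],(⟨0,[(22,0)]⟩,⟨0,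
  [(23,0)]⟩),(⟨0,[(34,0)]⟩,⟨0,[(35,0)]⟩),⟨0,[(0,0)]⟩,.k,.k,(.x (-1) ⟨3,[(20,0),(0,0),(11,1),(0,3)]⟩
  ⟨0,[(35,0)]⟩),(.r 0 ⟨0,[(4,0)]⟩ ⟨1,[(21,0),(16,1),(0,0)]⟩),.k,.k,⟨true,0,⟨0,[(4,0)]⟩,⟨0,[(1,0),
  (21,0),(12,0),(1,1)]⟩⟩,⟨false,0,⟨1,[(13,0),(8,1),(5,0)]⟩,⟨0,[(23,0),(15,0)]⟩⟩,⟨true,0,⟨0,[]⟩,⟨0,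
  [(42,0)]⟩⟩,⟨false,0,⟨0,[(1,0),(36,0)]⟩,⟨0,[(5,0),(36,0)]⟩⟩,⟨false,1,⟨18,[(1,3),(3,9),(1,0),(4,5),
  (5,5),(14,2),(2,1)]⟩,⟨0,[(38,0)]⟩⟩,⟨false,0,⟨0,[(1,0)]⟩,⟨1,[(20,0),(2,1),(15,0)]⟩⟩,[.o ⟨false,0,
  ⟨0,[(17,0),(6,0)]⟩,⟨15,[(5,3),(6,3),(5,3),(1,2),(0,2),(11,1),(3,7)]⟩⟩,.o ⟨false,1,⟨7,[(10,3),(6,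
  3),(2,0),(0,0),(3,3),(7,1)]⟩,⟨0,[(37,0)]⟩⟩,.o ⟨false,1,⟨1,[(23,1),(9,0),(5,0)]⟩,⟨1,[(13,0),(8,1),
  (5,0)]⟩⟩,.a ⟨true,0,⟨0,[(23,0)]⟩,⟨0,[(22,0)]⟩⟩ ⟨false,1,⟨0,[(9,0)]⟩,⟨1,[(1,0),(0,0),(20,1)]⟩⟩
  ⟨true,0,⟨0,[(17,0),(4,0),(1,0)]⟩,⟨0,[(23,0),(13,0)]⟩⟩]⟩) (.R ⟨0,false,false,false,[1,0,0,-1],[1,0,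
  -1],[0,1,1],(⟨0,[(22,0)]⟩,⟨0,[(23,0)]⟩),(⟨0,[(31,0)]⟩,⟨0,[(32,0)]⟩),⟨0,[(0,0)]⟩,.k,.k,(.x (-1) ⟨3,
  [(20,0),(0,0),(11,1),(0,3)]⟩ ⟨0,[(35,0)]⟩),.k,.k,.k,⟨false,0,⟨0,[(30,0),(11,0)]⟩,⟨0,[(8,0)]⟩⟩,
  ⟨true,0,⟨0,[(22,0),(2,0)]⟩,⟨0,[(16,0),(6,0)]⟩⟩,⟨false,0,⟨1,[(1,0),(0,0),(20,1)]⟩,⟨0,[(9,0)]⟩⟩,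
  ⟨true,0,⟨0,[(1,0),(25,0)]⟩,⟨0,[(4,0),(12,0),(5,0),(12,1),(1,1)]⟩⟩,⟨false,0,⟨0,[]⟩,⟨0,[]⟩⟩,⟨false,
  0,⟨0,[]⟩,⟨0,[]⟩⟩,[.o ⟨false,1,⟨4,[(5,0),(4,0),(1,0),(12,0),(1,2),(5,1)]⟩,⟨4,[(13,0),(2,0),(0,0),
  (1,1),(16,0)]⟩⟩,.o ⟨false,1,⟨1,[(8,0),(4,0),(13,0),(12,0)]⟩,⟨0,[(26,0)]⟩⟩,.o ⟨false,1,⟨1,[(23,1),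
  (9,0),(5,0)]⟩,⟨1,[(13,0),(8,1),(5,0)]⟩⟩,.a ⟨true,0,⟨0,[(23,0)]⟩,⟨0,[(22,0)]⟩⟩ ⟨true,0,⟨0,[(42,
  0)]⟩,⟨0,[]⟩⟩ ⟨false,1,⟨1,[(8,0),(4,0),(8,1),(4,0),(12,0)]⟩,⟨4,[(13,0),(2,0),(0,0),(1,1),(3,4),(12,
  0)]⟩⟩]⟩))) (.Q [0,0,0,0,0,-1,0,0,0,1,0,-1] (.p false [0,0,0,1] [1] (⟨0,[(21,0)]⟩,⟨0,[(20,0)]⟩) .k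
  1 (⟨0,[]⟩,⟨0,[]⟩) .k .k) (.R ⟨1,false,false,true,[1,0,0,-1],[0,1],[0,1,0,-1,0,0,0,0,-1],(⟨0,[(21,
  0)]⟩,⟨0,[(22,0)]⟩),(⟨0,[(34,0)]⟩,⟨0,[(33,0)]⟩),⟨0,[(0,0)]⟩,.k,.k,(.x (-1) ⟨3,[(19,0),(0,0),(11,1),
  (0,3)]⟩ ⟨0,[(34,0)]⟩),(.x (-1) ⟨3,[(19,0),(0,0),(11,1),(0,3)]⟩ ⟨0,[(34,0)]⟩),(.r 0 ⟨0,[(1,0),(14,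
  0),(4,0),(1,0),(11,0),(1,1)]⟩ ⟨3,[(6,3),(12,0),(0,2),(15,3)]⟩),.k,⟨false,0,⟨0,[(1,0),(14,0),(4,0),
  (1,0),(11,0),(1,1)]⟩,⟨11,[(2,1),(1,1),(1,6),(4,1),(5,1),(2,4),(11,0),(3,12)]⟩⟩,⟨true,0,⟨0,[(21,
  0)]⟩,⟨1,[(12,0),(9,1),(4,0)]⟩⟩,⟨false,0,⟨0,[(37,0)]⟩,⟨6,[(4,1),(1,0),(4,1),(5,1),(14,0),(2,1),(3,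
  1)]⟩⟩,⟨false,1,⟨0,[(11,0),(5,0),(23,0)]⟩,⟨0,[(1,0),(14,0),(6,0)]⟩⟩,⟨true,0,⟨0,[(41,0)]⟩,⟨0,[]⟩⟩,
  ⟨false,1,⟨0,[(11,0),(5,0),(18,0)]⟩,⟨0,[(1,0),(14,0),(6,0),(13,0)]⟩⟩,[.o ⟨false,0,⟨0,[(36,0)]⟩,⟨7,
  [(9,3),(6,3),(2,0),(0,0),(3,3),(7,1)]⟩⟩,.o ⟨false,1,⟨15,[(4,3),(6,3),(5,3),(1,2),(0,2),(11,1),(3,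
  7)]⟩,⟨0,[(16,0),(6,0)]⟩⟩,.o ⟨false,1,⟨1,[(22,1),(9,0),(5,0)]⟩,⟨1,[(12,0),(8,1),(5,0)]⟩⟩,.a ⟨true,
  0,⟨0,[(22,0)]⟩,⟨0,[(21,0)]⟩⟩ ⟨false,0,⟨1,[(1,1),(14,0),(4,1),(1,1),(1,0),(11,0)]⟩,⟨11,[(2,1),(1,
  1),(1,6),(4,1),(5,1),(2,4),(11,0),(3,0)]⟩⟩ ⟨true,0,⟨0,[(21,0),(14,0)]⟩,⟨0,[(16,0),(5,0),(0,
  0)]⟩⟩]⟩) (.R ⟨0,false,false,true,[1,0,0,-1],[0,1],[0,1,0,0,0,0,0,0,-1],(⟨0,[(21,0)]⟩,⟨0,[(22,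
  0)]⟩),(⟨0,[(34,0)]⟩,⟨0,[(33,0)]⟩),⟨0,[(0,0)]⟩,.k,.k,(.x (-1) ⟨3,[(19,0),(0,0),(11,1),(0,3)]⟩ ⟨0,
  [(34,0)]⟩),(.x (-1) ⟨3,[(19,0),(0,0),(11,1),(0,3)]⟩ ⟨0,[(34,0)]⟩),.k,.k,⟨false,0,⟨0,[(1,0),(14,0),
  (4,0),(1,0),(11,0),(1,0)]⟩,⟨3,[(6,1),(12,0),(0,2),(15,1)]⟩⟩,⟨true,0,⟨0,[(21,0)]⟩,⟨1,[(12,0),(9,1),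
  (4,0)]⟩⟩,⟨true,0,⟨0,[(41,0)]⟩,⟨0,[]⟩⟩,⟨false,1,⟨0,[(11,0),(5,0),(23,0)]⟩,⟨0,[(1,0),(14,0),(6,
  0)]⟩⟩,⟨false,0,⟨0,[]⟩,⟨0,[]⟩⟩,⟨false,0,⟨0,[]⟩,⟨0,[]⟩⟩,[.o ⟨false,0,⟨0,[(36,0)]⟩,⟨7,[(9,3),(6,3),
  (2,0),(0,0),(3,3),(7,1)]⟩⟩,.o ⟨false,1,⟨15,[(4,3),(6,3),(5,3),(1,2),(0,2),(11,1),(3,7)]⟩,⟨0,[(16,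
  0),(6,0)]⟩⟩,.o ⟨false,1,⟨1,[(22,1),(9,0),(5,0)]⟩,⟨1,[(12,0),(8,1),(5,0)]⟩⟩,.a ⟨true,0,⟨0,[(22,
  0)]⟩,⟨0,[(21,0)]⟩⟩ ⟨false,0,⟨4,[(1,4),(10,0),(2,0),(0,0),(4,4),(1,2),(1,1),(9,0)]⟩,⟨5,[(6,1),(4,
  1),(4,1),(2,0),(0,2),(1,1)]⟩⟩ ⟨true,0,⟨0,[(21,0),(14,0)]⟩,⟨0,[(16,0),(5,0),(0,0)]⟩⟩]⟩)))) (.Q [0,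
  0,0,0,0,1,0,0,0,-1,0,1] (.p true [0,0,0,1] [1] (⟨0,[(19,0)]⟩,⟨0,[(18,0)]⟩) .k 1 (⟨0,[]⟩,⟨0,[]⟩)
  .k .k) (.R ⟨0,false,false,true,[1,0,0,-1],[0,1],[0,1,0,0,0,0,0,0,-1],(⟨0,[(19,0)]⟩,⟨0,[(20,0)]⟩),
  (⟨0,[(32,0)]⟩,⟨0,[(31,0)]⟩),⟨0,[(0,0)]⟩,.k,.k,(.x (-1) ⟨3,[(17,0),(0,0),(11,1),(0,3)]⟩ ⟨0,[(32,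
  0)]⟩),(.x (-1) ⟨3,[(17,0),(0,0),(11,1),(0,3)]⟩ ⟨0,[(32,0)]⟩),.k,.k,⟨false,1,⟨0,[(6,0),(26,0),(1,
  1)]⟩,⟨0,[(1,0),(2,0),(29,0)]⟩⟩,⟨true,0,⟨0,[(19,0)]⟩,⟨1,[(10,0),(9,1),(4,0)]⟩⟩,⟨true,0,⟨0,[(39,
  0)]⟩,⟨0,[]⟩⟩,⟨false,0,⟨0,[(1,0),(2,0),(14,0),(14,0)]⟩,⟨0,[(2,0),(11,0),(6,0),(13,0)]⟩⟩,⟨false,0,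
  ⟨0,[]⟩,⟨0,[]⟩⟩,⟨false,0,⟨0,[]⟩,⟨0,[]⟩⟩,[.o ⟨false,0,⟨0,[(34,0)]⟩,⟨7,[(7,3),(6,3),(2,0),(0,0),(3,
  3),(7,1)]⟩⟩,.o ⟨false,1,⟨15,[(2,3),(6,3),(5,3),(1,2),(0,2),(11,1),(3,7)]⟩,⟨0,[(14,0),(6,0)]⟩⟩,.o
  ⟨false,1,⟨1,[(20,1),(9,0),(5,0)]⟩,⟨1,[(10,0),(8,1),(5,0)]⟩⟩,.a ⟨true,0,⟨0,[(20,0)]⟩,⟨0,[(19,0)]⟩⟩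
  ⟨false,1,⟨1,[(17,0),(18,0)]⟩,⟨0,[(1,0),(2,0)]⟩⟩ ⟨true,0,⟨0,[(19,0),(14,0)]⟩,⟨0,[(14,0),(5,0),(0,
  0)]⟩⟩]⟩) (.I [0,-1,1,0,0,0,0,0,1] (.R ⟨1,false,false,true,[1,0,0,-1],[0,1],[1,1,0,0,0,0,0,0,-1],
  (⟨0,[(20,0)]⟩,⟨0,[(21,0)]⟩),(⟨0,[(33,0)]⟩,⟨0,[(32,0)]⟩),⟨0,[(1,0)]⟩,.k,.k,(.x (-1) ⟨3,[(18,0),(0,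
  0),(11,1),(0,3)]⟩ ⟨0,[(33,0)]⟩),(.x (-1) ⟨3,[(18,0),(0,0),(11,1),(0,3)]⟩ ⟨0,[(33,0)]⟩),(.r (-1)
  ⟨0,[(7,0),(26,0),(1,2)]⟩ ⟨1,[(0,1),(4,0),(29,2)]⟩),.k,⟨false,1,⟨0,[(7,0),(26,0),(1,1)]⟩,⟨0,[(0,0),
  (34,0)]⟩⟩,⟨true,0,⟨0,[(20,0)]⟩,⟨1,[(11,0),(9,1),(4,0)]⟩⟩,⟨false,0,⟨0,[]⟩,⟨3,[(18,0),(0,0),(18,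
  1)]⟩⟩,⟨false,0,⟨0,[(0,0),(19,0),(14,0)]⟩,⟨0,[(3,0),(11,0),(6,0),(13,0)]⟩⟩,⟨true,0,⟨0,[(35,0)]⟩,⟨0,
  [(36,0)]⟩⟩,⟨false,0,⟨1,[(0,1),(4,0),(14,1),(13,1),(0,0)]⟩,⟨0,[(3,0),(11,0),(6,0),(13,1)]⟩⟩,[.o
  ⟨false,0,⟨0,[(35,0)]⟩,⟨7,[(8,3),(6,3),(2,0),(0,0),(3,3),(7,1)]⟩⟩,.o ⟨false,1,⟨15,[(3,3),(6,3),(5,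
  3),(1,2),(0,2),(11,1),(3,7)]⟩,⟨0,[(15,0),(6,0)]⟩⟩,.o ⟨false,1,⟨1,[(21,1),(9,0),(5,0)]⟩,⟨1,[(11,0),
  (8,1),(5,0)]⟩⟩,.a ⟨true,0,⟨0,[(21,0)]⟩,⟨0,[(20,0)]⟩⟩ ⟨false,1,⟨1,[(18,0),(18,0)]⟩,⟨0,[(0,0)]⟩⟩
  ⟨true,0,⟨0,[(20,0),(14,0)]⟩,⟨0,[(15,0),(5,0),(0,0)]⟩⟩]⟩) (.K ⟨0,[0,0,0,1],0,0,(⟨0,[(21,0)]⟩,⟨0,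
  [(20,0)]⟩),.k,(.x 0 ⟨0,[(23,0),(2,0),(5,0)]⟩ ⟨0,[(33,0),(3,0)]⟩),(.x 0 ⟨0,[(33,0)]⟩ ⟨3,[(18,0),(0,
  0),(11,1),(0,3)]⟩),.k,.k,[⟨0,[(21,0)]⟩,⟨0,[(20,0)]⟩,⟨0,[(0,0),(20,0)]⟩,⟨1,[(2,1),(2,0),(5,0),(8,
  1),(5,0),(8,0),(4,1)]⟩]⟩)))) (.Q [0,0,0,0,0,1,0,0,0,-1,0,1] (.p true [0,0,0,1] [1] (⟨0,[(18,0)]⟩,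
  ⟨0,[(17,0)]⟩) .k 1 (⟨0,[]⟩,⟨0,[]⟩) .k .k) (.R ⟨0,false,false,true,[1,0,0,-1],[0,1],[1,1,2,1],(⟨0,
  [(18,0)]⟩,⟨0,[(19,0)]⟩),(⟨0,[(31,0)]⟩,⟨0,[(30,0)]⟩),⟨0,[(0,0)]⟩,.k,.k,(.x (-1) ⟨3,[(16,0),(0,0),
  (11,1),(0,3)]⟩ ⟨0,[(31,0)]⟩),(.x (-1) ⟨3,[(16,0),(0,0),(11,1),(0,3)]⟩ ⟨0,[(31,0)]⟩),.k,.k,⟨false,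
  0,⟨0,[]⟩,⟨3,[(16,0),(0,0),(17,1)]⟩⟩,⟨true,0,⟨0,[(18,0)]⟩,⟨1,[(9,0),(9,1),(4,0)]⟩⟩,⟨true,(-1),⟨0,
  [(1,0),(1,0),(15,0),(12,0)]⟩,⟨0,[(5,0),(26,0),(1,1)]⟩⟩,⟨false,0,⟨8,[(1,4),(1,7),(0,2),(6,2),(5,1),
  (0,8),(0,4),(12,5)]⟩,⟨0,[(5,0),(7,0),(5,0),(0,0)]⟩⟩,⟨false,0,⟨0,[]⟩,⟨0,[]⟩⟩,⟨false,0,⟨0,[]⟩,⟨0,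
  []⟩⟩,[.o ⟨false,0,⟨0,[(33,0)]⟩,⟨7,[(6,3),(6,3),(2,0),(0,0),(3,3),(7,1)]⟩⟩,.o ⟨false,1,⟨3,[(16,0),
  (0,0),(15,3),(2,1)]⟩,⟨0,[(13,0),(6,0)]⟩⟩,.o ⟨false,1,⟨1,[(19,1),(9,0),(5,0)]⟩,⟨7,[(1,1),(1,1),(5,
  1),(2,1),(3,0),(1,5),(10,0)]⟩⟩,.a ⟨true,0,⟨0,[(19,0)]⟩,⟨0,[(18,0)]⟩⟩ ⟨false,0,⟨1,[(3,0),(29,0)]⟩,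
  ⟨0,[(6,0),(19,0)]⟩⟩ ⟨true,0,⟨0,[(18,0),(14,0)]⟩,⟨0,[(13,0),(5,0),(0,0)]⟩⟩]⟩) (.R ⟨1,false,false,
  true,[1,0,0,-1],[0,1],[1,1,0,0,0,0,0,0,-1],(⟨0,[(18,0)]⟩,⟨0,[(19,0)]⟩),(⟨0,[(31,0)]⟩,⟨0,[(30,
  0)]⟩),⟨0,[(0,0)]⟩,.k,.k,(.x (-1) ⟨3,[(16,0),(0,0),(11,1),(0,3)]⟩ ⟨0,[(31,0)]⟩),(.x (-1) ⟨3,[(16,
  0),(0,0),(11,1),(0,3)]⟩ ⟨0,[(31,0)]⟩),(.r (-1) ⟨0,[(5,0),(26,0),(1,2)]⟩ ⟨2,[(1,0),(1,3),(13,0),(1,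
  0),(12,2)]⟩),.k,⟨false,1,⟨0,[(5,0),(26,0),(1,1)]⟩,⟨8,[(1,4),(1,7),(0,2),(6,2),(5,1),(1,4),(12,
  5)]⟩⟩,⟨true,0,⟨0,[(18,0)]⟩,⟨1,[(9,0),(9,1),(4,0)]⟩⟩,⟨false,0,⟨0,[]⟩,⟨3,[(16,0),(0,0),(18,1)]⟩⟩,
  ⟨false,0,⟨8,[(1,4),(1,7),(0,2),(6,2),(5,1),(0,8),(0,4),(12,5)]⟩,⟨0,[(5,0),(7,0),(5,0),(0,0)]⟩⟩,
  ⟨true,0,⟨0,[(33,0)]⟩,⟨0,[(34,0)]⟩⟩,⟨false,0,⟨8,[(1,6),(1,12),(0,5),(6,5),(5,0),(0,8),(0,6),(12,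
  11)]⟩,⟨0,[(5,0),(7,0),(5,0),(0,0),(13,0)]⟩⟩,[.o ⟨false,0,⟨0,[(33,0)]⟩,⟨7,[(6,3),(6,3),(2,0),(0,0),
  (3,3),(7,1)]⟩⟩,.o ⟨false,1,⟨3,[(16,0),(0,0),(15,3),(2,1)]⟩,⟨0,[(13,0),(6,0)]⟩⟩,.o ⟨false,1,⟨1,
  [(19,1),(9,0),(5,0)]⟩,⟨7,[(1,1),(1,1),(5,1),(2,1),(3,0),(1,5),(10,0)]⟩⟩,.a ⟨true,0,⟨0,[(19,0)]⟩,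
  ⟨0,[(18,0)]⟩⟩ ⟨false,1,⟨1,[(16,0),(18,0)]⟩,⟨0,[(1,0),(1,0),(0,0),(6,0),(7,0)]⟩⟩ ⟨true,0,⟨0,[(18,
  0),(14,0)]⟩,⟨0,[(13,0),(5,0),(0,0)]⟩⟩]⟩))))) (.I [0,0,1,1,0,0,0,0,-1] (.Q [0,1,-1,0,0,0,0,0,-1,0,
  0,1] (.p true [0,0,0,1] [] (⟨0,[(16,0)]⟩,⟨0,[(15,0)]⟩) .k 0 (⟨0,[]⟩,⟨0,[]⟩) .k .k) (.K ⟨0,[0,0,0,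
  1],0,0,(⟨0,[(17,0)]⟩,⟨0,[(16,0)]⟩),.k,(.r (-1) ⟨1,[(15,0),(16,1),(0,0)]⟩ ⟨0,[(1,0)]⟩),(.x 0 ⟨0,
  [(29,0)]⟩ ⟨3,[(14,0),(0,0),(11,1),(0,3)]⟩),.k,.k,[⟨0,[(17,0)]⟩,⟨0,[(16,0)]⟩,⟨0,[(0,0)]⟩,⟨3,[(2,1),
  (4,0),(2,1),(4,1),(0,3),(1,1),(3,0)]⟩]⟩) (.Q [0,0,0,0,0,1,0,0,0,-1,0,1] (.p true [0,0,0,1] [1]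
  (⟨0,[(17,0)]⟩,⟨0,[(16,0)]⟩) .k 1 (⟨0,[]⟩,⟨0,[]⟩) .k .k) (.R ⟨0,false,false,true,[1,0,0,-1],[0,1],
  [1,1,2,1],(⟨0,[(17,0)]⟩,⟨0,[(18,0)]⟩),(⟨0,[(30,0)]⟩,⟨0,[(29,0)]⟩),⟨0,[(0,0)]⟩,.k,.k,(.x (-1) ⟨3,
  [(15,0),(0,0),(11,1),(0,3)]⟩ ⟨0,[(30,0)]⟩),(.x (-1) ⟨3,[(15,0),(0,0),(11,1),(0,3)]⟩ ⟨0,[(30,0)]⟩),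
  .k,.k,⟨false,0,⟨0,[]⟩,⟨3,[(15,0),(0,0),(17,1)]⟩⟩,⟨true,0,⟨0,[(17,0)]⟩,⟨1,[(8,0),(9,1),(4,0)]⟩⟩,
  ⟨true,(-1),⟨0,[(1,0),(1,0),(2,0),(11,0)]⟩,⟨0,[(4,0),(26,0),(1,1)]⟩⟩,⟨false,0,⟨0,[(1,0),(11,0),(8,
  0)]⟩,⟨0,[(4,0),(7,0),(5,0),(0,0)]⟩⟩,⟨false,0,⟨0,[]⟩,⟨0,[]⟩⟩,⟨false,0,⟨0,[]⟩,⟨0,[]⟩⟩,[.o ⟨false,0,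
  ⟨0,[(32,0)]⟩,⟨7,[(5,3),(6,3),(2,0),(0,0),(3,3),(7,1)]⟩⟩,.o ⟨false,1,⟨3,[(15,0),(0,0),(15,3),(2,
  1)]⟩,⟨0,[(12,0),(6,0)]⟩⟩,.o ⟨false,1,⟨1,[(18,1),(9,0),(5,0)]⟩,⟨1,[(8,0),(8,1),(5,0)]⟩⟩,.a ⟨true,0,
  ⟨0,[(18,0)]⟩,⟨0,[(17,0)]⟩⟩ ⟨false,0,⟨1,[(1,0),(0,0),(15,0),(13,0)]⟩,⟨0,[(5,0),(19,0)]⟩⟩ ⟨true,0,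
  ⟨0,[(17,0),(14,0)]⟩,⟨0,[(12,0),(5,0),(0,0)]⟩⟩]⟩) (.R ⟨1,false,false,false,[1,0,0,-1],[1,-1],[1,0,
  0,0,0,0,0,0,-1],(⟨0,[(17,0)]⟩,⟨0,[(18,0)]⟩),(⟨0,[(29,0)]⟩,⟨0,[(30,0)]⟩),⟨0,[(0,0)]⟩,.k,.k,(.x
  (-1) ⟨3,[(15,0),(0,0),(11,1),(0,3)]⟩ ⟨0,[(30,0)]⟩),(.r 0 ⟨0,[(2,0)]⟩ ⟨1,[(16,0),(16,1),(0,0)]⟩),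
  .k,.k,⟨true,0,⟨0,[(2,0)]⟩,⟨0,[(1,0),(16,0),(12,0),(1,1)]⟩⟩,⟨false,0,⟨1,[(8,0),(8,1),(5,0)]⟩,⟨0,
  [(18,0),(15,0)]⟩⟩,⟨true,0,⟨0,[]⟩,⟨0,[(37,0)]⟩⟩,⟨false,0,⟨0,[(1,0),(31,0)]⟩,⟨1,[(15,0),(2,1),(12,
  1),(3,0)]⟩⟩,⟨false,1,⟨0,[(32,0),(2,0)]⟩,⟨0,[(33,0)]⟩⟩,⟨false,0,⟨0,[(1,0)]⟩,⟨1,[(15,0),(2,1),(15,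
  0)]⟩⟩,[.o ⟨false,0,⟨0,[(12,0),(6,0)]⟩,⟨3,[(15,0),(0,0),(15,3),(2,1)]⟩⟩,.o ⟨false,1,⟨7,[(5,3),(6,
  3),(2,0),(0,0),(3,3),(7,1)]⟩,⟨0,[(32,0)]⟩⟩,.o ⟨false,1,⟨1,[(18,1),(9,0),(5,0)]⟩,⟨1,[(8,0),(8,1),
  (5,0)]⟩⟩,.a ⟨true,0,⟨0,[(18,0)]⟩,⟨0,[(17,0)]⟩⟩ ⟨false,1,⟨0,[(4,0)]⟩,⟨3,[(1,1),(1,0),(12,0),(1,1),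
  (3,0),(0,0)]⟩⟩ ⟨true,0,⟨0,[(12,0),(4,0),(1,0)]⟩,⟨0,[(18,0),(13,0)]⟩⟩]⟩))) (.Q [0,0,0,0,0,1,0,0,0,
  -1,0,1] (.p true [0,0,0,1] [1] (⟨0,[(16,0)]⟩,⟨0,[(15,0)]⟩) .k 1 (⟨0,[]⟩,⟨0,[]⟩) .k .k) (.R ⟨0,
  false,false,true,[1,0,0,-1],[0,1],[],(⟨0,[(16,0)]⟩,⟨0,[(17,0)]⟩),(⟨0,[(29,0)]⟩,⟨0,[(28,0)]⟩),⟨0,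
  [(0,0)]⟩,.k,.k,(.x (-1) ⟨3,[(14,0),(0,0),(11,1),(0,3)]⟩ ⟨0,[(29,0)]⟩),(.x (-1) ⟨3,[(14,0),(0,0),
  (11,1),(0,3)]⟩ ⟨0,[(29,0)]⟩),.k,.k,⟨false,1,⟨0,[(4,0),(4,0)]⟩,⟨1,[(22,0),(0,0),(7,1)]⟩⟩,⟨true,0,
  ⟨0,[(16,0)]⟩,⟨1,[(7,0),(9,1),(4,0)]⟩⟩,⟨true,0,⟨0,[(1,0),(0,0),(2,0),(28,0)]⟩,⟨0,[(2,0),(0,0),(6,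
  0),(10,0)]⟩⟩,⟨false,0,⟨0,[(1,0),(0,1),(2,1),(10,0),(17,1)]⟩,⟨0,[(3,0),(7,0),(5,0),(0,0)]⟩⟩,⟨false,
  0,⟨0,[]⟩,⟨0,[]⟩⟩,⟨false,0,⟨0,[]⟩,⟨0,[]⟩⟩,[.o ⟨false,0,⟨0,[(31,0)]⟩,⟨7,[(4,3),(6,3),(2,0),(0,0),(3,
  3),(7,1)]⟩⟩,.o ⟨false,1,⟨3,[(14,0),(0,0),(15,3),(2,1)]⟩,⟨0,[(11,0),(6,0)]⟩⟩,.o ⟨false,1,⟨1,[(17,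
  1),(9,0),(5,0)]⟩,⟨1,[(7,0),(8,1),(5,0)]⟩⟩,.a ⟨true,0,⟨0,[(17,0)]⟩,⟨0,[(16,0)]⟩⟩ ⟨false,1,⟨1,[(33,
  0),(0,0)]⟩,⟨1,[(22,0),(0,0)]⟩⟩ ⟨true,0,⟨0,[(16,0),(14,0)]⟩,⟨0,[(11,0),(5,0),(0,0)]⟩⟩]⟩) (.Q [0,1,
  -1,0,0,0,0,0,-1,0,0,1] (.p true [0,0,0,1] [] (⟨0,[(17,0)]⟩,⟨0,[(16,0)]⟩) .k 0 (⟨0,[]⟩,⟨0,[]⟩) .k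
  .k) (.K ⟨0,[0,0,0,1],0,0,(⟨0,[(18,0)]⟩,⟨0,[(17,0)]⟩),.k,(.x 0 ⟨0,[(20,0),(2,0),(5,0)]⟩ ⟨0,[(30,0),
  (3,0)]⟩),(.x 0 ⟨0,[(30,0)]⟩ ⟨3,[(15,0),(0,0),(11,1),(0,3)]⟩),.k,.k,[⟨0,[(18,0)]⟩,⟨0,[(17,0)]⟩,⟨0,
  [(0,0)]⟩,⟨3,[(2,1),(0,2),(2,1),(0,1),(9,1),(3,0),(1,0),(4,0)]⟩]⟩) (.R ⟨1,false,false,true,[1,0,0,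
  -1],[0,1],[1,1,0,0,0,0,0,0,-1],(⟨0,[(17,0)]⟩,⟨0,[(18,0)]⟩),(⟨0,[(30,0)]⟩,⟨0,[(29,0)]⟩),⟨0,[(1,
  0)]⟩,.k,.k,(.x (-1) ⟨3,[(15,0),(0,0),(11,1),(0,3)]⟩ ⟨0,[(30,0)]⟩),(.x (-1) ⟨3,[(15,0),(0,0),(11,
  1),(0,3)]⟩ ⟨0,[(30,0)]⟩),(.r (-1) ⟨0,[(4,0),(26,0),(1,2)]⟩ ⟨0,[(0,0),(5,0),(6,0),(4,0),(1,0)]⟩),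
  .k,⟨false,1,⟨0,[(4,0),(26,0),(1,1)]⟩,⟨0,[(0,0),(17,0),(13,0)]⟩⟩,⟨true,0,⟨0,[(17,0)]⟩,⟨1,[(8,0),(9,
  1),(4,0)]⟩⟩,⟨false,0,⟨0,[]⟩,⟨3,[(15,0),(0,0),(18,1)]⟩⟩,⟨false,0,⟨0,[(0,0),(12,0),(8,0)]⟩,⟨0,[(4,
  0),(7,0),(5,0),(0,0)]⟩⟩,⟨true,0,⟨0,[(32,0)]⟩,⟨0,[(33,0)]⟩⟩,⟨false,0,⟨0,[(0,0),(2,0),(2,0),(10,0),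
  (0,0),(12,0),(3,0)]⟩,⟨0,[(4,0),(7,0),(5,0),(0,0),(13,0)]⟩⟩,[.o ⟨false,0,⟨0,[(32,0)]⟩,⟨7,[(5,3),(6,
  3),(2,0),(0,0),(3,3),(7,1)]⟩⟩,.o ⟨false,1,⟨3,[(15,0),(0,0),(15,3),(2,1)]⟩,⟨0,[(12,0),(6,0)]⟩⟩,.o
  ⟨false,1,⟨1,[(18,1),(9,0),(5,0)]⟩,⟨1,[(8,0),(8,1),(5,0)]⟩⟩,.a ⟨true,0,⟨0,[(18,0)]⟩,⟨0,[(17,0)]⟩⟩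
  ⟨false,1,⟨1,[(15,0),(18,0)]⟩,⟨0,[(0,0),(17,0)]⟩⟩ ⟨true,0,⟨0,[(17,0),(14,0)]⟩,⟨0,[(12,0),(5,0),(0,
  0)]⟩⟩]⟩))))) (.Q [0,0,0,0,0,1,0,0,0,-1,0,1] (.p true [0,0,0,1] [1] (⟨0,[(14,0)]⟩,⟨0,[(13,0)]⟩) .k
  1 (⟨0,[]⟩,⟨0,[]⟩) .k .k) (.R ⟨0,false,false,true,[1,0,0,-1],[1,0,-1],[1,1,1],(⟨0,[(14,0)]⟩,⟨0,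
  [(15,0)]⟩),(⟨0,[(23,0)]⟩,⟨0,[(24,0)]⟩),⟨0,[(0,0)]⟩,.k,.k,(.x (-1) ⟨3,[(12,0),(0,0),(11,1),(0,3)]⟩
  ⟨0,[(27,0)]⟩),.k,.k,.k,⟨false,0,⟨0,[(22,0)]⟩,⟨7,[(2,3),(0,3),(8,0),(0,0),(17,1)]⟩⟩,⟨true,0,⟨0,
  [(14,0),(2,0)]⟩,⟨0,[(8,0),(6,0)]⟩⟩,⟨true,(-1),⟨0,[(1,0)]⟩,⟨1,[(12,0),(18,0)]⟩⟩,⟨false,0,⟨0,[(1,0),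
  (12,0),(1,0),(15,0)]⟩,⟨1,[(9,1),(2,0),(2,1),(12,1),(3,0)]⟩⟩,⟨false,0,⟨0,[]⟩,⟨0,[]⟩⟩,⟨false,0,⟨0,
  []⟩,⟨0,[]⟩⟩,[.o ⟨false,0,⟨0,[(16,0)]⟩,⟨7,[(11,3),(0,0),(0,0),(11,1),(6,3)]⟩⟩,.o ⟨false,1,⟨1,[(19,
  1),(5,0),(6,0)]⟩,⟨4,[(5,0),(2,0),(0,0),(1,1),(16,0)]⟩⟩,.o ⟨false,1,⟨1,[(15,1),(9,0),(5,0)]⟩,⟨1,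
  [(5,0),(8,1),(5,0)]⟩⟩,.a ⟨true,0,⟨0,[(15,0)]⟩,⟨0,[(14,0)]⟩⟩ ⟨false,0,⟨0,[]⟩,⟨3,[(12,0),(0,0),(18,
  1)]⟩⟩ ⟨true,0,⟨0,[(14,0),(1,0)]⟩,⟨4,[(5,0),(2,0),(0,0),(1,1),(3,4),(12,0)]⟩⟩]⟩) (.Q [0,1,1,0,-1,0,
  0,0,1,0,0,-1] (.p false [0,0,0,1] [] (⟨0,[(15,0)]⟩,⟨0,[(14,0)]⟩) .k 0 (⟨0,[]⟩,⟨0,[]⟩) .k .k) (.K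
  ⟨0,[0,0,0,1],0,(-1),(⟨0,[(16,0)]⟩,⟨0,[(15,0)]⟩),.k,(.r 0 ⟨0,[(2,0),(0,0),(4,0)]⟩ ⟨7,[(4,1),(0,1),
  (5,3),(1,4),(2,1),(1,3),(2,1),(8,1),(2,0)]⟩),(.x 0 ⟨0,[(28,0)]⟩ ⟨3,[(13,0),(0,0),(11,1),(0,3)]⟩),
  .k,.k,[⟨0,[(16,0)]⟩,⟨0,[(15,0)]⟩,⟨1,[(13,0),(2,1),(15,0),(2,1)]⟩,⟨0,[(0,0)]⟩]⟩) (.I [1,0,0,1,0,0,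
  0,1] (.R ⟨1,false,false,true,[1,0,0,-1],[0,1],[1,1,0,0,0,0,0,0,-1],(⟨0,[(16,0)]⟩,⟨0,[(17,0)]⟩),
  (⟨0,[(29,0)]⟩,⟨0,[(28,0)]⟩),⟨0,[(2,0)]⟩,.k,.k,(.x (-1) ⟨3,[(14,0),(0,0),(11,1),(0,3)]⟩ ⟨0,[(29,
  0)]⟩),(.x (-1) ⟨3,[(14,0),(0,0),(11,1),(0,3)]⟩ ⟨0,[(29,0)]⟩),(.r (-1) ⟨0,[(1,0),(9,0),(4,0),(1,0),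
  (11,0),(1,1)]⟩ ⟨0,[(3,0),(1,0),(6,0),(6,0),(14,0)]⟩),.k,⟨false,1,⟨0,[(1,0),(9,0),(4,0),(1,0),(11,
  0),(1,0)]⟩,⟨13,[(0,3),(2,9),(1,5),(0,1),(0,1),(4,3),(2,0),(1,1),(16,6)]⟩⟩,⟨true,0,⟨0,[(16,0)]⟩,⟨1,
  [(7,0),(9,1),(4,0)]⟩⟩,⟨false,0,⟨0,[]⟩,⟨3,[(14,0),(0,0),(18,1)]⟩⟩,⟨false,0,⟨2,[(0,0),(2,1),(1,0),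
  (0,0),(5,0),(3,1),(17,0)]⟩,⟨0,[(1,0),(9,0),(6,0)]⟩⟩,⟨true,0,⟨0,[(31,0)]⟩,⟨0,[(32,0)]⟩⟩,⟨false,0,
  ⟨0,[(0,0),(2,0),(1,0),(10,0),(17,0)]⟩,⟨0,[(1,0),(9,0),(6,0),(13,0)]⟩⟩,[.o ⟨false,0,⟨0,[(31,0)]⟩,
  ⟨4,[(1,0),(2,0),(1,0),(4,1),(7,0),(7,1),(4,1)]⟩⟩,.o ⟨false,1,⟨11,[(1,3),(4,3),(5,3),(1,0),(0,0),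
  (11,1),(3,7)]⟩,⟨0,[(11,0),(6,0)]⟩⟩,.o ⟨false,1,⟨1,[(17,1),(9,0),(5,0)]⟩,⟨1,[(7,0),(8,1),(5,0)]⟩⟩,
  .a ⟨true,0,⟨0,[(17,0)]⟩,⟨0,[(16,0)]⟩⟩ ⟨false,1,⟨1,[(14,0),(18,0)]⟩,⟨0,[(3,0),(30,0)]⟩⟩ ⟨true,0,⟨0,
  [(16,0),(14,0)]⟩,⟨0,[(11,0),(5,0),(0,0)]⟩⟩]⟩) (.R ⟨1,true,false,true,[1,0,0,-1],[-1,1,1],[1,1,0,0,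
  0,0,0,0,-1],(⟨0,[(16,0)]⟩,⟨0,[(17,0)]⟩),(⟨0,[(8,0)]⟩,⟨0,[(25,0),(2,0)]⟩),⟨0,[(2,0)]⟩,.k,.k,(.x
  (-1) ⟨3,[(14,0),(0,0),(11,1),(0,3)]⟩ ⟨0,[(29,0)]⟩),(.r (-1) ⟨1,[(0,1),(13,0),(18,0)]⟩ ⟨4,[(3,2),
  (5,0),(2,3),(2,0),(3,3),(10,0),(3,1)]⟩),(.r (-1) ⟨1,[(0,3),(8,1),(4,0),(18,0)]⟩ ⟨0,[(3,0),(8,0),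
  (6,0),(11,0),(2,0)]⟩),.k,⟨false,1,⟨3,[(0,5),(0,1),(2,0),(2,0),(1,1),(1,0),(2,0),(1,1),(13,3)]⟩,⟨4,
  [(3,2),(5,0),(2,3),(2,0),(3,3),(10,0),(3,1)]⟩⟩,⟨true,0,⟨0,[(0,0),(11,0),(3,0)]⟩,⟨0,[(7,0),(9,
  0)]⟩⟩,⟨false,0,⟨0,[]⟩,⟨3,[(14,0),(0,0),(18,1)]⟩⟩,⟨true,(-1),⟨0,[(3,0),(8,0),(3,0)]⟩,⟨0,[(1,0),(9,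
  0),(6,1)]⟩⟩,⟨true,0,⟨0,[(31,0)]⟩,⟨0,[(32,0)]⟩⟩,⟨false,0,⟨3,[(3,2),(1,0),(0,0),(5,5),(3,2),(2,0),
  (10,0),(3,1)]⟩,⟨0,[(0,1),(0,0),(5,0),(1,0)]⟩⟩,[]⟩)))))

theorem ok24 : chk (cU (-1) true 3) t24 l17 = true := by decide +kernel

noncomputable def t25 : Tre :=
  (.I [1,0,0,0,0,0,0,0,-1] (.K ⟨0,[0,0,0,1],0,0,(⟨0,[(14,0)]⟩,⟨0,[(13,0)]⟩),.k,(.r (-1) ⟨1,[(12,0),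
  (16,1),(0,0)]⟩ ⟨3,[(0,3),(0,1),(0,1),(16,0),(0,0),(10,1)]⟩),(.x 0 ⟨0,[(26,0)]⟩ ⟨3,[(11,0),(0,0),
  (11,1),(0,3)]⟩),.k,.k,[⟨0,[(14,0)]⟩,⟨0,[(13,0)]⟩,⟨0,[(0,0),(13,0),(12,0),(1,0)]⟩,⟨1,[(1,0),(6,0),
  (3,0),(0,1),(1,1),(3,0)]⟩]⟩) (.I [1,0,0,0,0,0,0,-1,1] (.K ⟨0,[0,0,0,1],0,(-1),(⟨0,[(15,0)]⟩,⟨0,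
  [(14,0)]⟩),.k,(.r 0 ⟨0,[(0,0),(6,0),(22,0)]⟩ ⟨2,[(2,0),(1,0),(7,1),(2,0),(4,0),(8,1),(2,0)]⟩),(.x
  0 ⟨0,[(27,0)]⟩ ⟨3,[(12,0),(0,0),(11,1),(0,3)]⟩),.k,.k,[⟨0,[(15,0)]⟩,⟨0,[(14,0)]⟩,⟨1,[(12,0),(2,1),
  (15,0),(2,1)]⟩,⟨0,[(0,0),(1,0),(6,0),(4,0),(1,0)]⟩]⟩) (.Q [0,0,0,0,0,1,0,0,0,0,-1] (.ed true [1,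
  -1,1] .k) (.Q [0,1,0,1,0,0,-1,-1,0,1,1] (.p true [1,-1,1] [] (⟨0,[(25,0),(1,0)]⟩,⟨0,[(0,0)]⟩) .k
  0 (⟨0,[]⟩,⟨0,[]⟩) .k .k) (.R ⟨0,false,false,true,[1,0,-1],[0,1,-1],[1,1,1,1,0,0,0,-1],(⟨0,[(25,
  0)]⟩,⟨0,[(26,0)]⟩),(⟨0,[(1,0)]⟩,⟨0,[(26,0),(1,0)]⟩),⟨0,[(8,0)]⟩,.k,.k,.k,.k,.k,.k,⟨true,0,⟨0,[]⟩,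
  ⟨1,[(22,0),(0,0)]⟩⟩,⟨false,1,⟨0,[(16,0),(0,0),(15,0)]⟩,⟨1,[(7,0),(14,0)]⟩⟩,⟨false,0,⟨5,[(0,0),(3,
  2),(0,1),(13,0),(2,1),(11,2)]⟩,⟨1,[(32,1),(0,0),(0,0)]⟩⟩,⟨true,0,⟨2,[(0,1),(12,0),(17,0)]⟩,⟨0,
  [(11,0),(6,0)]⟩⟩,⟨false,0,⟨0,[]⟩,⟨0,[]⟩⟩,⟨false,0,⟨0,[]⟩,⟨0,[]⟩⟩,[.a ⟨true,0,⟨0,[(0,0)]⟩,⟨0,[(11,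
  0)]⟩⟩ ⟨false,0,⟨0,[(5,0)]⟩,⟨3,[(9,3),(4,0),(0,0),(16,3),(1,1)]⟩⟩ ⟨true,0,⟨0,[(0,0),(9,0)]⟩,⟨0,
  [(11,0),(7,0)]⟩⟩,.o ⟨false,1,⟨1,[(0,1),(26,0),(6,0)]⟩,⟨4,[(7,0),(2,0),(0,5),(6,2),(1,1),(9,0)]⟩⟩,
  .o ⟨false,1,⟨3,[(14,0),(0,0),(3,3),(13,1)]⟩,⟨0,[(10,0)]⟩⟩,.o ⟨false,0,⟨0,[(19,0)]⟩,⟨0,[(22,0),(10,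
  0)]⟩⟩]⟩) (.Q [0,0,-1,-1,1,0,-1,-1,-1,-2,1,1] (.p true [-1,1,1] [1,0,0,-1] (⟨0,[(8,0)]⟩,⟨0,[(25,0),
  (2,0)]⟩) .k 2 (⟨0,[(16,0)]⟩,⟨0,[(17,0)]⟩) .k (.r 0 ⟨3,[(3,1),(0,0),(4,1),(1,0),(3,0),(7,0)]⟩ ⟨1,
  [(10,1),(3,0),(6,1),(12,0)]⟩)) (.I [1,1,2,1,-1,0,0,0,1] (.I [1,-1,0,-1,0,0,0,1,1] (.I [0,0,1,1,0,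
  0,0,0,-1] (.Q [0,1,-1,0,0,0,0,0,-1,-1,0,2] (.p true [0,0,0,1] [1,0,0,-1] (⟨0,[(21,0)]⟩,⟨0,[(20,
  0)]⟩) .k 2 (⟨0,[(20,0)]⟩,⟨0,[(21,0)]⟩) .k (.r 0 ⟨0,[(7,1)]⟩ ⟨0,[(18,0)]⟩)) (.K ⟨0,[0,0,0,1],0,0,
  (⟨0,[(22,0)]⟩,⟨0,[(21,0)]⟩),.k,(.r (-1) ⟨1,[(20,0),(16,1),(0,0)]⟩ ⟨0,[(1,0)]⟩),(.x 0 ⟨0,[(34,0)]⟩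
  ⟨3,[(19,0),(0,0),(11,1),(0,3)]⟩),.k,.k,[⟨0,[(22,0)]⟩,⟨0,[(21,0)]⟩,⟨0,[(0,0),(20,0)]⟩,⟨19,[(3,7),
  (1,4),(5,3),(8,3),(0,15),(1,10),(1,9),(11,2)]⟩]⟩) (.Q [0,0,0,0,0,1,0,0,0,-1,0,1] (.p true [0,0,0,
  1] [1] (⟨0,[(22,0)]⟩,⟨0,[(21,0)]⟩) .k 1 (⟨0,[]⟩,⟨0,[]⟩) .k .k) (.R ⟨0,false,false,false,[1,0,0,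
  -1],[1,-1],[],(⟨0,[(22,0)]⟩,⟨0,[(23,0)]⟩),(⟨0,[(34,0)]⟩,⟨0,[(35,0)]⟩),⟨0,[(0,0)]⟩,.k,.k,(.x (-1)
  ⟨3,[(20,0),(0,0),(11,1),(0,3)]⟩ ⟨0,[(35,0)]⟩),(.r 0 ⟨0,[(2,0)]⟩ ⟨1,[(21,0),(16,1),(0,0)]⟩),.k,.k,
  ⟨true,0,⟨2,[(2,0),(1,0),(32,0),(2,0)]⟩,⟨0,[(38,0)]⟩⟩,⟨false,0,⟨1,[(13,0),(8,1),(5,0)]⟩,⟨0,[(23,0),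
  (15,0)]⟩⟩,⟨true,0,⟨0,[(9,0)]⟩,⟨0,[(8,0),(7,0),(10,0)]⟩⟩,⟨false,0,⟨1,[(1,1),(4,0),(16,1),(0,0),(13,
  0)]⟩,⟨1,[(20,0),(2,1),(12,1),(3,0)]⟩⟩,⟨false,0,⟨0,[]⟩,⟨0,[]⟩⟩,⟨false,0,⟨0,[]⟩,⟨0,[]⟩⟩,[.o ⟨false,
  0,⟨1,[(6,0),(17,0),(13,0)]⟩,⟨3,[(20,0),(0,0),(15,3),(2,1)]⟩⟩,.o ⟨false,1,⟨11,[(5,3),(6,3),(4,7),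
  (2,0),(0,0),(11,1)]⟩,⟨0,[(37,0)]⟩⟩,.o ⟨false,1,⟨1,[(23,1),(9,0),(5,0)]⟩,⟨1,[(13,0),(8,1),(5,0)]⟩⟩,
  .a ⟨true,0,⟨0,[(23,0)]⟩,⟨0,[(22,0)]⟩⟩ ⟨false,1,⟨1,[(39,0),(0,0)]⟩,⟨1,[(28,0),(0,0)]⟩⟩ ⟨true,0,⟨1,
  [(6,0),(15,1),(1,0),(13,0)]⟩,⟨0,[(23,0),(13,0)]⟩⟩]⟩) (.Q [0,1,-1,-1,0,0,0,0,-1,-1,0,1] (.p true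
  [0,0,0,1] [1] (⟨0,[(23,0)]⟩,⟨0,[(22,0)]⟩) .k 1 (⟨0,[]⟩,⟨0,[]⟩) .k .k) (.Q [0,1,-1,0,0,0,0,0,-1,0,
  0,1] (.p true [0,0,0,1] [] (⟨0,[(24,0)]⟩,⟨0,[(23,0)]⟩) .k 0 (⟨0,[]⟩,⟨0,[]⟩) .k .k) (.K ⟨0,[0,0,0,
  1],0,0,(⟨0,[(25,0)]⟩,⟨0,[(24,0)]⟩),.k,(.r (-1) ⟨1,[(23,0),(16,1),(0,0)]⟩ ⟨0,[(4,0)]⟩),(.x 0 ⟨0,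
  [(37,0)]⟩ ⟨3,[(22,0),(0,0),(11,1),(0,3)]⟩),.k,.k,[⟨0,[(25,0)]⟩,⟨0,[(24,0)]⟩,⟨0,[(0,0)]⟩,⟨7,[(3,3),
  (2,1),(16,0),(2,1),(1,1),(6,0),(4,1),(3,5)]⟩]⟩) (.R ⟨1,false,false,false,[1,0,0,-1],[1,-1],[0,0,0,
  -1,0,0,0,0,-1],(⟨0,[(24,0)]⟩,⟨0,[(25,0)]⟩),(⟨0,[(36,0)]⟩,⟨0,[(37,0)]⟩),⟨0,[(2,0)]⟩,.k,.k,(.x (-1)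
  ⟨3,[(22,0),(0,0),(11,1),(0,3)]⟩ ⟨0,[(37,0)]⟩),(.r 0 ⟨0,[(4,0)]⟩ ⟨1,[(23,0),(16,1),(0,0)]⟩),.k,.k,
  ⟨true,0,⟨0,[(4,0),(35,0)]⟩,⟨0,[(11,0)]⟩⟩,⟨false,0,⟨9,[(1,1),(1,5),(8,1),(2,0),(6,1),(3,1),(3,2)]⟩,
  ⟨0,[(25,0),(15,0)]⟩⟩,⟨true,0,⟨0,[(40,0)]⟩,⟨0,[(39,0)]⟩⟩,⟨false,0,⟨0,[(0,0),(39,0)]⟩,⟨1,[(22,0),(2,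
  1),(12,1),(3,0)]⟩⟩,⟨false,1,⟨3,[(22,0),(0,0),(18,1)]⟩,⟨0,[]⟩⟩,⟨false,0,⟨0,[(0,0)]⟩,⟨1,[(22,0),(2,
  1),(15,0)]⟩⟩,[.o ⟨false,0,⟨1,[(8,0),(17,0),(13,0)]⟩,⟨3,[(22,0),(0,0),(15,3),(2,1)]⟩⟩,.o ⟨false,1,
  ⟨11,[(7,3),(6,3),(4,7),(2,0),(0,0),(11,1)]⟩,⟨0,[(39,0)]⟩⟩,.o ⟨false,1,⟨1,[(25,1),(9,0),(5,0)]⟩,⟨9,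
  [(1,1),(1,5),(8,1),(2,0),(6,1),(3,1),(3,2)]⟩⟩,.a ⟨true,0,⟨0,[(25,0)]⟩,⟨0,[(24,0)]⟩⟩ ⟨false,1,⟨0,
  [(1,0),(22,0),(17,0)]⟩,⟨5,[(6,3),(16,0),(14,1),(3,2)]⟩⟩ ⟨true,0,⟨0,[(1,0),(1,0)]⟩,⟨0,[(25,0),(13,
  0)]⟩⟩]⟩)) (.R ⟨1,false,false,false,[1,0,0,-1],[-1,1,1],[1,1,0,0,0,0,0,0,-1],(⟨0,[(23,0)]⟩,⟨0,[(24,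
  0)]⟩),(⟨0,[(15,0)]⟩,⟨0,[(32,0),(2,0)]⟩),⟨0,[(1,0)]⟩,.k,.k,(.x (-1) ⟨3,[(21,0),(0,0),(11,1),(0,
  3)]⟩ ⟨0,[(36,0)]⟩),(.r (-1) ⟨0,[(6,0),(10,0),(5,1),(0,0)]⟩ ⟨1,[(11,1),(10,0),(18,0)]⟩),(.x 0 ⟨0,
  [(0,0),(5,0),(0,0),(3,0),(13,0),(6,0),(2,1)]⟩ ⟨0,[(29,0),(3,0),(2,1),(3,0)]⟩),.k,⟨false,1,⟨0,[(6,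
  0),(10,0),(5,1),(0,0),(12,0),(1,0)]⟩,⟨1,[(4,0),(0,0),(5,0),(25,0),(3,1)]⟩⟩,⟨true,0,⟨0,[(17,0),(5,
  1),(0,0)]⟩,⟨0,[(14,0),(9,0)]⟩⟩,⟨false,0,⟨0,[]⟩,⟨3,[(21,0),(0,0),(18,1)]⟩⟩,⟨false,0,⟨1,[(0,1),(19,
  0),(2,0),(0,0)]⟩,⟨0,[(6,0)]⟩⟩,⟨true,0,⟨0,[(38,0)]⟩,⟨0,[(39,0)]⟩⟩,⟨false,0,⟨0,[(0,0),(18,0)]⟩,⟨0,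
  [(6,0),(32,0)]⟩⟩,[.o ⟨false,0,⟨0,[(19,0)]⟩,⟨5,[(6,1),(0,0),(5,1),(11,2),(8,1),(4,2)]⟩⟩,.o ⟨false,
  1,⟨3,[(19,3),(1,0),(0,0),(18,1)]⟩,⟨1,[(7,0),(17,2),(13,0)]⟩⟩,.o ⟨false,1,⟨1,[(24,1),(9,0),(5,0)]⟩,
  ⟨1,[(14,0),(8,1),(5,0)]⟩⟩,.a ⟨true,0,⟨0,[(24,0)]⟩,⟨0,[(23,0)]⟩⟩ ⟨false,1,⟨1,[(21,0),(18,0)]⟩,⟨1,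
  [(0,0),(1,0),(4,0),(16,2),(0,0)]⟩⟩ ⟨true,0,⟨0,[(19,0),(3,0)]⟩,⟨1,[(7,0),(16,1),(0,2),(13,
  0)]⟩⟩]⟩)))) (.Q [0,-1,1,0,0,0,0,0,1,0,0,-1] (.p false [0,0,0,1] [] (⟨0,[(21,0)]⟩,⟨0,[(20,0)]⟩) .k
  0 (⟨0,[]⟩,⟨0,[]⟩) .k .k) (.Q [0,0,0,0,0,1,0,0,0,-1,0,1] (.p true [0,0,0,1] [1] (⟨0,[(22,0)]⟩,⟨0,
  [(21,0)]⟩) .k 1 (⟨0,[]⟩,⟨0,[]⟩) .k .k) (.R ⟨0,false,false,false,[1,0,0,-1],[1,0,-1],[0,1],(⟨0,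
  [(22,0)]⟩,⟨0,[(23,0)]⟩),(⟨0,[(31,0)]⟩,⟨0,[(32,0)]⟩),⟨0,[(0,0)]⟩,.k,.k,(.x (-1) ⟨3,[(20,0),(0,0),
  (11,1),(0,3)]⟩ ⟨0,[(35,0)]⟩),.k,.k,.k,⟨false,0,⟨0,[(15,0),(26,0)]⟩,⟨0,[(16,0),(10,0),(12,0)]⟩⟩,
  ⟨true,0,⟨0,[(22,0),(2,0)]⟩,⟨0,[(16,0),(6,0)]⟩⟩,⟨false,0,⟨0,[(9,0)]⟩,⟨1,[(20,0),(19,0)]⟩⟩,⟨true,0,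
  ⟨0,[(1,0),(25,0)]⟩,⟨0,[(8,0),(7,0),(6,0),(12,0),(1,0)]⟩⟩,⟨false,0,⟨0,[]⟩,⟨0,[]⟩⟩,⟨false,0,⟨0,[]⟩,
  ⟨0,[]⟩⟩,[.o ⟨false,1,⟨1,[(5,0),(6,0),(24,0)]⟩,⟨10,[(6,1),(3,0),(5,0),(2,3),(13,0),(2,0)]⟩⟩,.o
  ⟨false,1,⟨0,[(24,0),(15,0)]⟩,⟨0,[(26,0)]⟩⟩,.o ⟨false,1,⟨1,[(23,1),(9,0),(5,0)]⟩,⟨1,[(13,0),(8,1),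
  (5,0)]⟩⟩,.a ⟨true,0,⟨0,[(23,0)]⟩,⟨0,[(22,0)]⟩⟩ ⟨true,0,⟨0,[(36,0),(1,0)]⟩,⟨1,[(28,0),(0,0)]⟩⟩
  ⟨false,1,⟨0,[(22,0),(1,0),(15,0)]⟩,⟨10,[(6,1),(3,0),(5,0),(2,3),(3,10),(9,0),(2,0)]⟩⟩]⟩) (.R ⟨1,
  false,false,false,[1,0,0,-1],[-1,1,1],[1,1,0,0,0,0,0,0,-1],(⟨0,[(22,0)]⟩,⟨0,[(23,0)]⟩),(⟨0,[(14,
  0)]⟩,⟨0,[(31,0),(2,0)]⟩),⟨0,[(0,0)]⟩,.k,.k,(.x (-1) ⟨3,[(20,0),(0,0),(11,1),(0,3)]⟩ ⟨0,[(35,0)]⟩),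
  (.r (-1) ⟨0,[(5,0),(10,0),(5,1),(0,0)]⟩ ⟨1,[(10,1),(10,0),(18,0)]⟩),(.x 0 ⟨0,[(6,0),(3,0),(13,1),
  (6,0),(2,1),(5,0)]⟩ ⟨0,[(28,0),(3,0),(2,1),(3,0)]⟩),.k,⟨false,1,⟨0,[(5,0),(10,0),(5,1),(0,0),(12,
  0),(1,0)]⟩,⟨1,[(3,0),(0,0),(5,0),(25,0),(3,1)]⟩⟩,⟨true,0,⟨0,[(16,0),(5,1),(0,0)]⟩,⟨0,[(13,0),(9,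
  0)]⟩⟩,⟨false,0,⟨0,[]⟩,⟨3,[(20,0),(0,0),(18,1)]⟩⟩,⟨false,0,⟨0,[(1,0),(16,0),(3,0),(0,0)]⟩,⟨0,[(5,
  0)]⟩⟩,⟨true,0,⟨0,[(37,0)]⟩,⟨0,[(38,0)]⟩⟩,⟨false,0,⟨0,[(1,0),(8,0),(5,0),(5,1),(0,1),(12,0),(3,
  0)]⟩,⟨0,[(5,0),(32,0)]⟩⟩,[.o ⟨false,0,⟨0,[(18,0)]⟩,⟨5,[(5,1),(0,0),(5,1),(11,2),(8,1),(4,2)]⟩⟩,.o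
  ⟨false,1,⟨3,[(18,3),(1,0),(0,0),(18,1)]⟩,⟨1,[(6,0),(17,2),(13,0)]⟩⟩,.o ⟨false,1,⟨1,[(23,1),(9,0),
  (5,0)]⟩,⟨1,[(13,0),(8,1),(5,0)]⟩⟩,.a ⟨true,0,⟨0,[(23,0)]⟩,⟨0,[(22,0)]⟩⟩ ⟨false,1,⟨1,[(20,0),(18,
  0)]⟩,⟨0,[(1,0),(21,0)]⟩⟩ ⟨true,0,⟨0,[(18,0),(3,0)]⟩,⟨1,[(6,0),(16,1),(0,2),(13,0)]⟩⟩]⟩)) (.K ⟨0,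
  [0,0,0,1],0,0,(⟨0,[(22,0)]⟩,⟨0,[(21,0)]⟩),.k,(.x 0 ⟨0,[(24,0),(2,0),(5,0)]⟩ ⟨0,[(34,0),(3,0)]⟩),
  (.x 0 ⟨0,[(34,0)]⟩ ⟨3,[(19,0),(0,0),(11,1),(0,3)]⟩),.k,.k,[⟨0,[(22,0)]⟩,⟨0,[(21,0)]⟩,⟨0,[(0,0)]⟩,
  ⟨19,[(1,3),(1,7),(1,2),(5,7),(9,11),(1,8),(1,13),(11,0)]⟩]⟩))) (.K ⟨0,[0,0,0,1],0,0,(⟨0,[(20,0)]⟩,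
  ⟨0,[(19,0)]⟩),.k,(.r (-1) ⟨1,[(18,0),(16,1),(0,0)]⟩ ⟨1,[(0,1),(6,0),(6,0),(11,0),(10,0)]⟩),(.x 0
  ⟨0,[(32,0)]⟩ ⟨3,[(17,0),(0,0),(11,1),(0,3)]⟩),.k,.k,[⟨0,[(20,0)]⟩,⟨0,[(19,0)]⟩,⟨0,[(0,0),(11,0),
  (7,0),(14,0)]⟩,⟨19,[(1,7),(1,4),(5,3),(8,3),(0,15),(1,10),(1,9),(11,2)]⟩]⟩)) (.Q [0,0,0,0,0,1,0,0,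
  0,-1,0,1] (.p true [0,0,0,1] [1] (⟨0,[(19,0)]⟩,⟨0,[(18,0)]⟩) .k 1 (⟨0,[]⟩,⟨0,[]⟩) .k .k) (.R ⟨0,
  false,false,true,[1,0,0,-1],[0,1],[],(⟨0,[(19,0)]⟩,⟨0,[(20,0)]⟩),(⟨0,[(32,0)]⟩,⟨0,[(31,0)]⟩),⟨0,
  [(0,0)]⟩,.k,.k,(.x (-1) ⟨3,[(17,0),(0,0),(11,1),(0,3)]⟩ ⟨0,[(32,0)]⟩),(.x (-1) ⟨3,[(17,0),(0,0),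
  (11,1),(0,3)]⟩ ⟨0,[(32,0)]⟩),.k,.k,⟨false,1,⟨0,[(1,0),(4,0)]⟩,⟨1,[(25,0),(0,0),(7,1)]⟩⟩,⟨true,0,
  ⟨0,[(19,0)]⟩,⟨1,[(10,0),(9,1),(4,0)]⟩⟩,⟨true,0,⟨0,[(6,0)]⟩,⟨0,[(5,0),(7,0),(10,0)]⟩⟩,⟨false,0,⟨4,
  [(6,3),(0,2),(0,1),(0,0),(9,4),(0,0),(4,0),(11,1)]⟩,⟨5,[(1,1),(0,1),(0,1),(13,0),(2,3),(16,0)]⟩⟩,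
  ⟨false,0,⟨0,[]⟩,⟨0,[]⟩⟩,⟨false,0,⟨0,[]⟩,⟨0,[]⟩⟩,[.o ⟨false,0,⟨0,[(34,0)]⟩,⟨11,[(2,3),(6,3),(4,7),
  (2,0),(0,0),(11,1)]⟩⟩,.o ⟨false,1,⟨3,[(17,0),(0,0),(15,3),(2,1)]⟩,⟨1,[(3,0),(17,0),(13,0)]⟩⟩,.o
  ⟨false,1,⟨1,[(20,1),(9,0),(5,0)]⟩,⟨1,[(10,0),(8,1),(5,0)]⟩⟩,.a ⟨true,0,⟨0,[(20,0)]⟩,⟨0,[(19,0)]⟩⟩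
  ⟨false,1,⟨1,[(36,0),(0,0)]⟩,⟨1,[(25,0),(0,0)]⟩⟩ ⟨true,0,⟨0,[(19,0),(14,0)]⟩,⟨1,[(3,0),(16,1),(0,
  0),(13,0)]⟩⟩]⟩) (.K ⟨0,[0,0,0,1],0,0,(⟨0,[(20,0)]⟩,⟨0,[(19,0)]⟩),.k,(.x 0 ⟨0,[(22,0),(2,0),(5,
  0)]⟩ ⟨0,[(32,0),(3,0)]⟩),(.x 0 ⟨0,[(32,0)]⟩ ⟨3,[(17,0),(0,0),(11,1),(0,3)]⟩),.k,.k,[⟨0,[(20,0)]⟩,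
  ⟨0,[(19,0)]⟩,⟨0,[(1,0),(5,0),(5,0),(6,0),(3,0)]⟩,⟨3,[(3,0),(3,1),(10,1),(0,3),(1,2),(3,1),(9,
  0)]⟩]⟩))) (.K ⟨0,[0,0,0,1],0,(-1),(⟨0,[(18,0)]⟩,⟨0,[(17,0)]⟩),.k,(.x 0 ⟨0,[(20,0),(2,0),(5,0)]⟩
  ⟨0,[(30,0),(3,0)]⟩),(.x 0 ⟨0,[(30,0)]⟩ ⟨3,[(15,0),(0,0),(11,1),(0,3)]⟩),.k,.k,[⟨0,[(18,0)]⟩,⟨0,
  [(17,0)]⟩,⟨1,[(15,0),(2,1),(15,0),(2,1)]⟩,⟨1,[(0,1),(0,0),(17,2),(13,0)]⟩]⟩))) (.Q [0,1,-1,0,0,0,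
  0,0,-1,0,0,1] (.p true [0,0,0,1] [] (⟨0,[(16,0)]⟩,⟨0,[(15,0)]⟩) .k 0 (⟨0,[]⟩,⟨0,[]⟩) .k .k) (.K
  ⟨0,[0,0,0,1],0,0,(⟨0,[(17,0)]⟩,⟨0,[(16,0)]⟩),.k,(.x 0 ⟨0,[(19,0),(2,0),(5,0)]⟩ ⟨0,[(29,0),(3,
  0)]⟩),(.x 0 ⟨0,[(29,0)]⟩ ⟨3,[(14,0),(0,0),(11,1),(0,3)]⟩),.k,.k,[⟨0,[(17,0)]⟩,⟨0,[(16,0)]⟩,⟨0,[(0,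
  0)]⟩,⟨3,[(3,1),(0,0),(2,0),(7,0),(0,3),(1,1),(1,0),(1,1),(9,0)]⟩]⟩) (.Q [0,0,0,0,0,-1,0,0,0,1,0,
  -1] (.p false [0,0,0,1] [1] (⟨0,[(17,0)]⟩,⟨0,[(16,0)]⟩) .k 1 (⟨0,[]⟩,⟨0,[]⟩) .k .k) (.Q [0,-1,-1,
  -1,1,0,0,0,-1,-1,0,1] (.p true [0,0,0,1] [1] (⟨0,[(18,0)]⟩,⟨0,[(17,0)]⟩) .k 1 (⟨0,[]⟩,⟨0,[]⟩) .k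
  .k) (.R ⟨1,false,false,true,[1,0,0,-1],[0,1],[1,1,0,0,0,0,0,0,-1],(⟨0,[(18,0)]⟩,⟨0,[(19,0)]⟩),(⟨0,
  [(31,0)]⟩,⟨0,[(30,0)]⟩),⟨0,[(1,0)]⟩,.k,.k,(.x (-1) ⟨3,[(16,0),(0,0),(11,1),(0,3)]⟩ ⟨0,[(31,0)]⟩),
  (.x (-1) ⟨3,[(16,0),(0,0),(11,1),(0,3)]⟩ ⟨0,[(31,0)]⟩),(.r (-1) ⟨0,[(0,0),(17,0),(13,0),(1,1)]⟩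
  ⟨15,[(2,5),(3,17),(0,13),(0,3),(8,2),(1,9),(4,3),(11,10)]⟩),.k,⟨false,1,⟨0,[(0,0),(17,0),(13,0),
  (1,0)]⟩,⟨3,[(2,1),(3,1),(0,1),(9,0),(1,1),(16,0)]⟩⟩,⟨true,0,⟨0,[(18,0)]⟩,⟨1,[(9,0),(9,1),(4,0)]⟩⟩,
  ⟨false,0,⟨0,[]⟩,⟨3,[(16,0),(0,0),(18,1)]⟩⟩,⟨false,0,⟨0,[(2,0),(11,0),(8,0)]⟩,⟨0,[(0,0)]⟩⟩,⟨true,0,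
  ⟨0,[(33,0)]⟩,⟨0,[(34,0)]⟩⟩,⟨false,0,⟨1,[(2,1),(3,0),(0,0),(6,0),(3,0),(0,0),(3,0),(8,0),(3,0)]⟩,
  ⟨0,[(0,0),(33,0)]⟩⟩,[.o ⟨false,0,⟨0,[(33,0)]⟩,⟨2,[(0,0),(7,0),(4,0),(15,0),(4,0)]⟩⟩,.o ⟨false,1,
  ⟨3,[(16,0),(0,0),(15,3),(2,1)]⟩,⟨0,[(13,0),(6,0)]⟩⟩,.o ⟨false,1,⟨1,[(19,1),(9,0),(5,0)]⟩,⟨1,[(9,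
  0),(8,1),(5,0)]⟩⟩,.a ⟨true,0,⟨0,[(19,0)]⟩,⟨0,[(18,0)]⟩⟩ ⟨false,1,⟨1,[(16,0),(18,0)]⟩,⟨0,[(2,0),
  (16,0)]⟩⟩ ⟨true,0,⟨0,[(18,0),(14,0)]⟩,⟨0,[(13,0),(5,0),(0,0)]⟩⟩]⟩) (.Q [0,-1,-1,-2,1,0,0,0,-1,-1,
  0,1] (.p true [0,0,0,1] [1] (⟨0,[(19,0)]⟩,⟨0,[(18,0)]⟩) .k 1 (⟨0,[]⟩,⟨0,[]⟩) .k .k) (.K ⟨0,[0,0,0,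
  1],0,(-1),(⟨0,[(20,0)]⟩,⟨0,[(19,0)]⟩),.k,(.x 0 ⟨0,[(22,0),(2,0),(5,0)]⟩ ⟨0,[(32,0),(3,0)]⟩),(.x 0
  ⟨0,[(32,0)]⟩ ⟨3,[(17,0),(0,0),(11,1),(0,3)]⟩),.k,.k,[⟨0,[(20,0)]⟩,⟨0,[(19,0)]⟩,⟨1,[(17,0),(2,1),
  (15,0),(2,1)]⟩,⟨0,[(1,0),(12,0),(6,0)]⟩]⟩) (.K ⟨0,[0,0,0,1],0,(-1),(⟨0,[(20,0)]⟩,⟨0,[(19,0)]⟩),.k,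
  (.x 0 ⟨0,[(22,0),(2,0),(5,0)]⟩ ⟨0,[(32,0),(3,0)]⟩),(.x 0 ⟨0,[(32,0)]⟩ ⟨3,[(17,0),(0,0),(11,1),(0,
  3)]⟩),.k,.k,[⟨0,[(20,0)]⟩,⟨0,[(19,0)]⟩,⟨1,[(17,0),(2,1),(15,0),(2,1)]⟩,⟨0,[(1,0),(12,0),(6,
  0)]⟩]⟩))) (.R ⟨0,false,false,false,[1,0,0,-1],[1,0,-1],[0,1],(⟨0,[(17,0)]⟩,⟨0,[(18,0)]⟩),(⟨0,[(26,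
  0)]⟩,⟨0,[(27,0)]⟩),⟨0,[(0,0)]⟩,.k,.k,(.x (-1) ⟨3,[(15,0),(0,0),(11,1),(0,3)]⟩ ⟨0,[(30,0)]⟩),.k,.k,
  .k,⟨false,0,⟨0,[(10,0),(26,0)]⟩,⟨0,[(11,0),(10,0),(12,0)]⟩⟩,⟨true,0,⟨0,[(17,0),(2,0)]⟩,⟨0,[(11,0),
  (6,0)]⟩⟩,⟨false,0,⟨0,[(4,0)]⟩,⟨1,[(15,0),(19,0)]⟩⟩,⟨true,0,⟨0,[(1,0),(20,0)]⟩,⟨0,[(3,0),(7,0),(6,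
  0),(12,0),(1,0)]⟩⟩,⟨false,0,⟨0,[]⟩,⟨0,[]⟩⟩,⟨false,0,⟨0,[]⟩,⟨0,[]⟩⟩,[.o ⟨false,1,⟨1,[(22,1),(5,0),
  (6,0)]⟩,⟨6,[(5,0),(5,0),(0,1),(1,1),(13,0),(2,0)]⟩⟩,.o ⟨false,1,⟨0,[(19,0),(15,0)]⟩,⟨0,[(21,0)]⟩⟩,
  .o ⟨false,1,⟨1,[(18,1),(9,0),(5,0)]⟩,⟨1,[(8,0),(8,1),(5,0)]⟩⟩,.a ⟨true,0,⟨0,[(18,0)]⟩,⟨0,[(17,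
  0)]⟩⟩ ⟨true,0,⟨0,[(31,0),(1,0)]⟩,⟨1,[(23,0),(0,0)]⟩⟩ ⟨false,1,⟨0,[(17,0),(1,0),(15,0)]⟩,⟨6,[(5,0),
  (5,0),(0,1),(1,1),(3,6),(9,0),(2,0)]⟩⟩]⟩))))))

theorem ok25 : chk (cU (-1) true 3) t25 r17 = true := by decide +kernel

noncomputable def t26 : Tre :=
  .I [0,-1,-1,-1,1,0,0,-1] t24 t25

theorem ok26 : chk (cU (-1) true 3) t26 r16 = true :=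
  chk_I (e' := [1,1,1,1,-1,0,0,1]) (by decide +kernel) (by decide +kernel) ok24 ok25

noncomputable def t27 : Tre :=
  .I [1,-1,0,-1,0,0,0,1] t23 t26

theorem ok27 : chk (cU (-1) true 3) t27 r15 = true :=
  chk_I (e' := [0,1,0,1,0,0,0,-1]) (by decide +kernel) (by decide +kernel) ok23 ok26

noncomputable def t28 : Tre :=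
  .Q [0,1,-1,0,-1,0,1,1,-1,0,-1,1] (.p false [0,0,1] [0,0,0,1] (⟨0,[(19,0)]⟩,⟨0,[(18,0)]⟩) .k 2 (⟨0,
  [(10,0)]⟩,⟨0,[(9,0)]⟩) .k (.x (-1) ⟨0,[(15,0),(3,0),(6,0)]⟩ ⟨0,[(12,0),(5,0)]⟩)) t22 t27

theorem ok28 : chk (cU (-1) true 3) t28 r14 = true :=
  chk_Q (e' := [0,-1,1,0,1,0,-1,-1,1,0,1,-1]) (by decide +kernel) (by decide +kernel) ok22 ok27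

noncomputable def t29 : Tre :=
  .Q [0,0,-1,0,0,0,1,0,0,2,-1] (.p false [-1,1,1] [1] (⟨0,[(0,0)]⟩,⟨0,[(17,0),(2,0)]⟩) .k 1 (⟨0,[]⟩,
  ⟨0,[]⟩) .k .k) t21 t28

theorem ok29 : chk (cU (-1) true 3) t29 l13 = true :=
  chk_Q (e' := [0,0,1,0,0,0,-1,0,0,-2,1]) (by decide +kernel) (by decide +kernel) ok21 ok28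

noncomputable def t30 : Tre :=
  (.Q [0,0,0,-1,0,0,-1,-1,0,0,1] (.p true [0,0,1] [] (⟨0,[(18,0)]⟩,⟨0,[(17,0)]⟩) .k 0 (⟨0,[]⟩,⟨0,
  []⟩) .k .k) (.R ⟨2,true,false,false,[0,1],[0,1,1],[0,1,1],(⟨0,[]⟩,⟨0,[]⟩),(⟨0,[(19,0),(2,0)]⟩,⟨0,
  [(1,0)]⟩),⟨0,[]⟩,.k,.k,.k,.k,.k,.k,⟨false,0,⟨0,[(0,0),(2,0),(19,0),(1,0)]⟩,⟨0,[(17,0),(6,0),(2,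
  0)]⟩⟩,⟨true,0,⟨0,[(3,0)]⟩,⟨0,[(16,0)]⟩⟩,⟨false,0,⟨0,[(25,0)]⟩,⟨0,[(24,0),(2,0)]⟩⟩,⟨true,0,⟨2,[(3,
  0),(0,0),(1,0),(5,0),(10,0)]⟩,⟨0,[(14,0)]⟩⟩,⟨true,0,⟨0,[(29,0)]⟩,⟨0,[]⟩⟩,⟨false,1,⟨1,[(5,1),(14,
  0),(6,0)]⟩,⟨0,[(0,0)]⟩⟩,[]⟩) (.I [0,0,1,1,0,0,0,0,-1] (.Q [0,1,1,0,0,0,0,0,1,0,0,-1] (.p false [0,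
  0,0,1] [] (⟨0,[(11,0)]⟩,⟨0,[(10,0)]⟩) .k 0 (⟨0,[]⟩,⟨0,[]⟩) .k .k) (.Q [0,1,-1,0,0,0,0,0,-1,0,0,1]
  (.p true [0,0,0,1] [] (⟨0,[(12,0)]⟩,⟨0,[(11,0)]⟩) .k 0 (⟨0,[]⟩,⟨0,[]⟩) .k .k) (.K ⟨0,[0,0,0,1],0,
  0,(⟨0,[(13,0)]⟩,⟨0,[(12,0)]⟩),.k,(.r (-1) ⟨1,[(11,0),(16,1),(0,0)]⟩ ⟨0,[(2,0)]⟩),(.x 0 ⟨0,[(25,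
  0)]⟩ ⟨3,[(10,0),(0,0),(11,1),(0,3)]⟩),.k,.k,[⟨0,[(13,0)]⟩,⟨0,[(12,0)]⟩,⟨0,[(0,0)]⟩,⟨0,[(1,0)]⟩]⟩)
  (.Q [0,-1,-1,0,1,0,0,0,-1,0,0,1] (.p true [0,0,0,1] [] (⟨0,[(13,0)]⟩,⟨0,[(12,0)]⟩) .k 0 (⟨0,[]⟩,
  ⟨0,[]⟩) .k .k) (.Q [0,0,0,0,0,-1,0,0,0,1,0,-1] (.p false [0,0,0,1] [1] (⟨0,[(14,0)]⟩,⟨0,[(13,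
  0)]⟩) .k 1 (⟨0,[]⟩,⟨0,[]⟩) .k .k) (.R ⟨1,false,false,false,[1,0,0,-1],[1,-1],[0,0,0,-1,0,0,0,0,
  -1],(⟨0,[(14,0)]⟩,⟨0,[(15,0)]⟩),(⟨0,[(26,0)]⟩,⟨0,[(27,0)]⟩),⟨0,[(0,0)]⟩,.k,.k,(.x (-1) ⟨3,[(12,0),
  (0,0),(11,1),(0,3)]⟩ ⟨0,[(27,0)]⟩),(.r 0 ⟨0,[(4,0)]⟩ ⟨1,[(13,0),(16,1),(0,0)]⟩),.k,.k,⟨true,0,⟨0,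
  [(4,0),(25,0)]⟩,⟨0,[(2,0),(12,0),(12,0),(1,0)]⟩⟩,⟨false,0,⟨3,[(2,0),(0,0),(0,1),(4,1),(4,1),(1,
  1)]⟩,⟨0,[(15,0),(15,0)]⟩⟩,⟨true,0,⟨0,[(30,0)]⟩,⟨0,[(29,0)]⟩⟩,⟨false,0,⟨0,[(2,0),(27,0)]⟩,⟨0,[(1,
  0),(27,0)]⟩⟩,⟨false,1,⟨3,[(12,0),(0,0),(18,1)]⟩,⟨0,[]⟩⟩,⟨false,0,⟨0,[(2,0)]⟩,⟨0,[(1,0),(32,0)]⟩⟩,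
  [.o ⟨false,0,⟨0,[(9,0),(6,0)]⟩,⟨3,[(12,0),(0,0),(15,3),(2,1)]⟩⟩,.o ⟨false,1,⟨1,[(25,0),(4,1),(1,
  0)]⟩,⟨0,[(29,0)]⟩⟩,.o ⟨false,1,⟨1,[(15,1),(9,0),(5,0)]⟩,⟨3,[(2,0),(0,0),(0,1),(4,1),(4,1),(1,
  1)]⟩⟩,.a ⟨true,0,⟨0,[(15,0)]⟩,⟨0,[(14,0)]⟩⟩ ⟨false,1,⟨0,[(1,0),(7,0),(4,0),(1,0)]⟩,⟨0,[(2,0),(12,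
  0),(13,0)]⟩⟩ ⟨true,0,⟨0,[(9,0),(4,0),(1,0)]⟩,⟨0,[(15,0),(13,0)]⟩⟩]⟩) (.R ⟨0,false,false,true,[1,0,
  0,-1],[0,1],[0,1,0,0,0,0,0,0,-1],(⟨0,[(14,0)]⟩,⟨0,[(15,0)]⟩),(⟨0,[(27,0)]⟩,⟨0,[(26,0)]⟩),⟨0,[(0,
  0)]⟩,.k,.k,(.x (-1) ⟨3,[(12,0),(0,0),(11,1),(0,3)]⟩ ⟨0,[(27,0)]⟩),(.x (-1) ⟨3,[(12,0),(0,0),(11,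
  1),(0,3)]⟩ ⟨0,[(27,0)]⟩),.k,.k,⟨false,1,⟨0,[(1,0),(7,0),(4,0),(1,0),(11,0),(1,0)]⟩,⟨0,[(2,0),(12,
  0),(13,0)]⟩⟩,⟨true,0,⟨0,[(14,0)]⟩,⟨0,[(8,0),(6,0),(1,0)]⟩⟩,⟨true,0,⟨0,[(34,0)]⟩,⟨0,[]⟩⟩,⟨false,0,
  ⟨0,[(2,0),(7,0),(8,0)]⟩,⟨0,[(1,0),(7,0),(6,0)]⟩⟩,⟨false,0,⟨0,[]⟩,⟨0,[]⟩⟩,⟨false,0,⟨0,[]⟩,⟨0,[]⟩⟩,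
  [.o ⟨false,0,⟨0,[(29,0)]⟩,⟨1,[(25,0),(4,1),(1,0)]⟩⟩,.o ⟨false,1,⟨3,[(12,0),(0,0),(15,3),(2,1)]⟩,
  ⟨0,[(9,0),(6,0)]⟩⟩,.o ⟨false,1,⟨1,[(15,1),(9,0),(5,0)]⟩,⟨3,[(2,0),(0,0),(0,1),(4,1),(4,1),(1,
  1)]⟩⟩,.a ⟨true,0,⟨0,[(15,0)]⟩,⟨0,[(14,0)]⟩⟩ ⟨false,1,⟨1,[(12,0),(18,0)]⟩,⟨0,[(2,0),(12,0)]⟩⟩
  ⟨true,0,⟨0,[(14,0),(14,0)]⟩,⟨0,[(9,0),(5,0),(0,0)]⟩⟩]⟩)) (.K ⟨0,[0,0,0,1],0,(-1),(⟨0,[(14,0)]⟩,⟨0,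
  [(13,0)]⟩),.k,(.r (-1) ⟨1,[(12,0),(16,1),(0,0)]⟩ ⟨0,[(3,0)]⟩),(.x 0 ⟨0,[(26,0)]⟩ ⟨3,[(11,0),(0,0),
  (11,1),(0,3)]⟩),.k,.k,[⟨0,[(14,0)]⟩,⟨0,[(13,0)]⟩,⟨1,[(11,0),(2,1),(15,0),(2,1)]⟩,⟨0,[(0,0)]⟩]⟩)))
  (.Q [0,0,0,0,0,1,0,0,0,-1,0,1] (.p true [0,0,0,1] [1] (⟨0,[(12,0)]⟩,⟨0,[(11,0)]⟩) .k 1 (⟨0,[]⟩,⟨0,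
  []⟩) .k .k) (.R ⟨0,false,false,true,[1,0,0,-1],[0,1],[0,1,0,0,0,0,0,0,-1],(⟨0,[(12,0)]⟩,⟨0,[(13,
  0)]⟩),(⟨0,[(25,0)]⟩,⟨0,[(24,0)]⟩),⟨0,[(0,0)]⟩,.k,.k,(.x (-1) ⟨3,[(10,0),(0,0),(11,1),(0,3)]⟩ ⟨0,
  [(25,0)]⟩),(.x (-1) ⟨3,[(10,0),(0,0),(11,1),(0,3)]⟩ ⟨0,[(25,0)]⟩),.k,.k,⟨false,0,⟨0,[(1,0),(5,0),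
  (4,0),(1,0),(11,0),(1,0)]⟩,⟨0,[(2,0),(8,0)]⟩⟩,⟨true,0,⟨0,[(12,0)]⟩,⟨0,[(6,0),(6,0),(1,0)]⟩⟩,⟨true,
  0,⟨0,[(32,0)]⟩,⟨0,[]⟩⟩,⟨false,1,⟨0,[(2,0),(8,0),(0,0)]⟩,⟨0,[(1,0),(5,0),(6,0)]⟩⟩,⟨false,0,⟨0,[]⟩,
  ⟨0,[]⟩⟩,⟨false,0,⟨0,[]⟩,⟨0,[]⟩⟩,[.o ⟨false,0,⟨0,[(27,0)]⟩,⟨1,[(23,0),(4,1),(1,0)]⟩⟩,.o ⟨false,1,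
  ⟨3,[(10,0),(0,0),(15,3),(2,1)]⟩,⟨0,[(7,0),(6,0)]⟩⟩,.o ⟨false,1,⟨1,[(13,1),(9,0),(5,0)]⟩,⟨0,[(6,0),
  (5,0),(2,0)]⟩⟩,.a ⟨true,0,⟨0,[(13,0)]⟩,⟨0,[(12,0)]⟩⟩ ⟨false,0,⟨4,[(1,3),(0,0),(4,2),(4,3),(1,3),
  (1,0),(9,1)]⟩,⟨1,[(11,0),(6,0),(0,0),(10,0)]⟩⟩ ⟨true,0,⟨0,[(12,0),(14,0)]⟩,⟨0,[(7,0),(5,0),(0,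
  0)]⟩⟩]⟩) (.Q [0,0,1,2,1,0,0,0,1,1,0,-1] (.p false [0,0,0,1] [1] (⟨0,[(13,0)]⟩,⟨0,[(12,0)]⟩) .k 1
  (⟨0,[]⟩,⟨0,[]⟩) .k .k) (.R ⟨1,false,false,true,[1,0,0,-1],[0,1],[1,1,0,0,0,0,0,0,-1],(⟨0,[(13,
  0)]⟩,⟨0,[(14,0)]⟩),(⟨0,[(26,0)]⟩,⟨0,[(25,0)]⟩),⟨0,[(1,0)]⟩,.k,.k,(.x (-1) ⟨3,[(11,0),(0,0),(11,1),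
  (0,3)]⟩ ⟨0,[(26,0)]⟩),(.x (-1) ⟨3,[(11,0),(0,0),(11,1),(0,3)]⟩ ⟨0,[(26,0)]⟩),(.r 0 ⟨0,[(2,0),(5,
  0),(4,0),(1,0),(11,0),(1,1)]⟩ ⟨0,[(0,0),(6,0),(6,0),(1,0)]⟩),.k,⟨false,0,⟨0,[(2,0),(5,0),(4,0),(1,
  0),(11,0),(1,0)]⟩,⟨0,[(3,0),(8,0)]⟩⟩,⟨true,0,⟨0,[(13,0)]⟩,⟨0,[(7,0),(6,0),(1,0)]⟩⟩,⟨false,0,⟨0,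
  []⟩,⟨3,[(11,0),(0,0),(18,1)]⟩⟩,⟨false,1,⟨7,[(0,3),(10,0),(0,2),(0,3),(5,1),(0,1)]⟩,⟨0,[(2,0),(5,
  0),(6,0)]⟩⟩,⟨true,0,⟨0,[(28,0)]⟩,⟨0,[(29,0)]⟩⟩,⟨false,1,⟨0,[(0,0)]⟩,⟨0,[(2,0),(5,0),(6,0),(13,
  0)]⟩⟩,[.o ⟨false,0,⟨0,[(28,0)]⟩,⟨1,[(24,0),(4,1),(1,0)]⟩⟩,.o ⟨false,1,⟨17,[(0,7),(1,1),(8,2),(2,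
  5),(9,3),(3,1),(1,2)]⟩,⟨0,[(8,0),(6,0)]⟩⟩,.o ⟨false,1,⟨1,[(14,1),(9,0),(5,0)]⟩,⟨0,[(7,0),(5,0),(2,
  0)]⟩⟩,.a ⟨true,0,⟨0,[(14,0)]⟩,⟨0,[(13,0)]⟩⟩ ⟨false,0,⟨4,[(2,3),(0,0),(4,2),(4,3),(1,3),(1,0),(9,
  1)]⟩,⟨1,[(12,0),(6,0),(0,0),(10,0)]⟩⟩ ⟨true,0,⟨0,[(13,0),(14,0)]⟩,⟨0,[(8,0),(5,0),(0,0)]⟩⟩]⟩) (.R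
  ⟨1,true,false,false,[1,0,0,-1],[0,1,1],[0,0,0,-1,0,0,0,0,-1],(⟨0,[(13,0)]⟩,⟨0,[(14,0)]⟩),(⟨0,[(23,
  0),(2,0)]⟩,⟨0,[(5,0)]⟩),⟨0,[(1,0)]⟩,.k,.k,(.x (-1) ⟨3,[(11,0),(0,0),(11,1),(0,3)]⟩ ⟨0,[(26,0)]⟩),
  (.r 0 ⟨11,[(0,5),(1,3),(4,11),(3,0),(1,9),(1,3),(2,7),(11,0),(0,3)]⟩ ⟨0,[(3,0),(8,0),(8,0)]⟩),(.r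
  0 ⟨1,[(0,1),(6,1),(5,1),(4,1),(11,0),(0,0)]⟩ ⟨0,[(3,0),(5,0),(2,0),(3,0)]⟩),.k,⟨false,0,⟨1,[(0,1),
  (6,1),(5,1),(4,1),(11,0),(0,0)]⟩,⟨1,[(9,1),(2,0),(3,1),(11,1),(2,0)]⟩⟩,⟨true,0,⟨0,[(7,0),(5,0)]⟩,
  ⟨0,[(14,0),(1,0)]⟩⟩,⟨true,0,⟨0,[(29,0)]⟩,⟨0,[(28,0)]⟩⟩,⟨false,1,⟨1,[(4,0),(4,0),(2,0),(0,1),(2,0),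
  (2,0),(11,0)]⟩,⟨3,[(0,1),(1,1),(15,3),(5,0),(6,0)]⟩⟩,⟨false,1,⟨3,[(11,0),(0,0),(18,1)]⟩,⟨0,[]⟩⟩,
  ⟨true,1,⟨0,[(3,0),(0,0),(7,0),(0,0)]⟩,⟨0,[(0,0),(17,0)]⟩⟩,[]⟩)))) (.Q [0,1,-1,0,0,0,0,0,-1,0,0,1]
  (.p true [0,0,0,1] [] (⟨0,[(11,0)]⟩,⟨0,[(10,0)]⟩) .k 0 (⟨0,[]⟩,⟨0,[]⟩) .k .k) (.K ⟨0,[0,0,0,1],0,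
  0,(⟨0,[(12,0)]⟩,⟨0,[(11,0)]⟩),.k,(.x 0 ⟨0,[(14,0),(2,0),(5,0)]⟩ ⟨0,[(24,0),(3,0)]⟩),(.x 0 ⟨0,[(24,
  0)]⟩ ⟨3,[(9,0),(0,0),(11,1),(0,3)]⟩),.k,.k,[⟨0,[(12,0)]⟩,⟨0,[(11,0)]⟩,⟨0,[(0,0)]⟩,⟨0,[(1,0),(9,0),
  (2,0),(2,0),(8,0)]⟩]⟩) (.Q [0,1,1,0,-1,0,0,0,1,0,0,-1] (.p false [0,0,0,1] [] (⟨0,[(12,0)]⟩,⟨0,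
  [(11,0)]⟩) .k 0 (⟨0,[]⟩,⟨0,[]⟩) .k .k) (.K ⟨0,[0,0,0,1],0,(-1),(⟨0,[(13,0)]⟩,⟨0,[(12,0)]⟩),.k,(.x
  0 ⟨0,[(15,0),(2,0),(5,0)]⟩ ⟨0,[(25,0),(3,0)]⟩),(.x 0 ⟨0,[(25,0)]⟩ ⟨3,[(10,0),(0,0),(11,1),(0,
  3)]⟩),.k,.k,[⟨0,[(13,0)]⟩,⟨0,[(12,0)]⟩,⟨1,[(10,0),(2,1),(15,0),(2,1)]⟩,⟨0,[(0,0)]⟩]⟩) (.Q [0,0,0,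
  0,0,-1,0,0,0,1,0,-1] (.p false [0,0,0,1] [1] (⟨0,[(13,0)]⟩,⟨0,[(12,0)]⟩) .k 1 (⟨0,[]⟩,⟨0,[]⟩) .k
  .k) (.Q [0,0,1,2,0,0,0,0,1,1,0,-1] (.p false [0,0,0,1] [1] (⟨0,[(14,0)]⟩,⟨0,[(13,0)]⟩) .k 1 (⟨0,
  []⟩,⟨0,[]⟩) .k .k) (.R ⟨1,false,false,true,[1,0,0,-1],[0,1],[1,1,0,0,0,0,0,0,-1],(⟨0,[(14,0)]⟩,⟨0,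
  [(15,0)]⟩),(⟨0,[(27,0)]⟩,⟨0,[(26,0)]⟩),⟨0,[(1,0)]⟩,.k,.k,(.x (-1) ⟨3,[(12,0),(0,0),(11,1),(0,3)]⟩
  ⟨0,[(27,0)]⟩),(.x (-1) ⟨3,[(12,0),(0,0),(11,1),(0,3)]⟩ ⟨0,[(27,0)]⟩),(.r (-1) ⟨0,[(2,0),(6,0),(4,
  0),(1,0),(11,0),(1,1)]⟩ ⟨0,[(0,0),(7,0),(6,0),(1,0)]⟩),.k,⟨false,1,⟨0,[(2,0),(6,0),(4,0),(1,0),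
  (11,0),(1,0)]⟩,⟨3,[(0,1),(2,0),(0,0),(0,0),(9,2),(0,0),(0,0),(2,0)]⟩⟩,⟨true,0,⟨0,[(14,0)]⟩,⟨0,[(8,
  0),(6,0),(1,0)]⟩⟩,⟨false,0,⟨0,[]⟩,⟨3,[(12,0),(0,0),(18,1)]⟩⟩,⟨false,0,⟨2,[(0,1),(3,0),(9,0),(5,0),
  (0,0)]⟩,⟨0,[(2,0),(6,0),(6,0)]⟩⟩,⟨true,0,⟨0,[(29,0)]⟩,⟨0,[(30,0)]⟩⟩,⟨false,0,⟨0,[(0,0)]⟩,⟨0,[(2,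
  0),(6,0),(6,0),(13,0)]⟩⟩,[.o ⟨false,0,⟨0,[(29,0)]⟩,⟨1,[(25,0),(4,1),(1,0)]⟩⟩,.o ⟨false,1,⟨11,[(0,
  3),(1,3),(9,2),(0,2),(11,1),(3,3)]⟩,⟨0,[(9,0),(6,0)]⟩⟩,.o ⟨false,1,⟨1,[(15,1),(9,0),(5,0)]⟩,⟨0,
  [(8,0),(5,0),(2,0)]⟩⟩,.a ⟨true,0,⟨0,[(15,0)]⟩,⟨0,[(14,0)]⟩⟩ ⟨false,1,⟨1,[(12,0),(18,0)]⟩,⟨0,[(3,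
  0),(11,0)]⟩⟩ ⟨true,0,⟨0,[(14,0),(14,0)]⟩,⟨0,[(9,0),(5,0),(0,0)]⟩⟩]⟩) (.R ⟨1,true,false,false,[1,0,
  0,-1],[0,1,1],[1,0,0,0,0,0,0,0,-1],(⟨0,[(14,0)]⟩,⟨0,[(15,0)]⟩),(⟨0,[(24,0),(2,0)]⟩,⟨0,[(6,0)]⟩),
  ⟨0,[(1,0)]⟩,.k,.k,(.x (-1) ⟨3,[(12,0),(0,0),(11,1),(0,3)]⟩ ⟨0,[(27,0)]⟩),(.r (-1) ⟨3,[(0,1),(7,3),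
  (3,0),(1,1),(4,3),(11,0),(0,1)]⟩ ⟨1,[(3,0),(0,0),(5,1),(4,0),(1,1),(11,0)]⟩),(.r (-1) ⟨1,[(0,1),
  (7,1),(5,1),(4,1),(11,0),(0,0)]⟩ ⟨0,[(3,0),(6,0),(4,0),(1,0),(11,0)]⟩),.k,⟨false,1,⟨0,[(0,0),(7,
  0),(5,0),(4,0),(8,0),(3,0)]⟩,⟨1,[(3,0),(0,0),(5,1),(4,0),(1,1),(11,0)]⟩⟩,⟨true,0,⟨0,[(8,0),(5,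
  0)]⟩,⟨0,[(15,0),(1,0)]⟩⟩,⟨true,0,⟨0,[]⟩,⟨0,[(34,0)]⟩⟩,⟨false,0,⟨0,[(3,0),(6,0)]⟩,⟨3,[(0,1),(1,1),
  (16,3),(5,0),(6,0)]⟩⟩,⟨false,1,⟨0,[(29,0),(2,0)]⟩,⟨0,[(30,0)]⟩⟩,⟨true,0,⟨0,[(3,0),(6,0),(18,0)]⟩,
  ⟨0,[(0,0),(18,0)]⟩⟩,[]⟩)) (.R ⟨0,false,false,true,[1,0,0,-1],[0,1],[0,1,0,0,0,0,0,0,-1],(⟨0,[(13,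
  0)]⟩,⟨0,[(14,0)]⟩),(⟨0,[(26,0)]⟩,⟨0,[(25,0)]⟩),⟨0,[(0,0)]⟩,.k,.k,(.x (-1) ⟨3,[(11,0),(0,0),(11,1),
  (0,3)]⟩ ⟨0,[(26,0)]⟩),(.x (-1) ⟨3,[(11,0),(0,0),(11,1),(0,3)]⟩ ⟨0,[(26,0)]⟩),.k,.k,⟨false,1,⟨0,
  [(1,0),(6,0),(4,0),(1,0),(11,0),(1,0)]⟩,⟨0,[(2,0),(11,0),(13,0)]⟩⟩,⟨true,0,⟨0,[(13,0)]⟩,⟨0,[(7,0),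
  (6,0),(1,0)]⟩⟩,⟨true,0,⟨0,[(33,0)]⟩,⟨0,[]⟩⟩,⟨false,0,⟨0,[(2,0),(6,0),(8,0)]⟩,⟨0,[(1,0),(6,0),(6,
  0)]⟩⟩,⟨false,0,⟨0,[]⟩,⟨0,[]⟩⟩,⟨false,0,⟨0,[]⟩,⟨0,[]⟩⟩,[.o ⟨false,0,⟨0,[(28,0)]⟩,⟨1,[(24,0),(4,1),
  (1,0)]⟩⟩,.o ⟨false,1,⟨3,[(11,0),(0,0),(15,3),(2,1)]⟩,⟨0,[(8,0),(6,0)]⟩⟩,.o ⟨false,1,⟨1,[(14,1),(9,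
  0),(5,0)]⟩,⟨0,[(7,0),(5,0),(2,0)]⟩⟩,.a ⟨true,0,⟨0,[(14,0)]⟩,⟨0,[(13,0)]⟩⟩ ⟨false,1,⟨1,[(11,0),(18,
  0)]⟩,⟨0,[(2,0),(11,0)]⟩⟩ ⟨true,0,⟨0,[(13,0),(14,0)]⟩,⟨0,[(8,0),(5,0),(0,0)]⟩⟩]⟩))))))

theorem ok30 : chk (cU (-1) true 3) t30 r13 = true := by decide +kernel

noncomputable def t31 : Tre :=
  .Q [0,0,0,0,0,1,0,0,0,-1,1] (.ed false [0,1,1] .k) t29 t30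

theorem ok31 : chk (cU (-1) true 3) t31 r12 = true :=
  chk_Q (e' := [0,0,0,0,0,-1,0,0,0,1,-1]) (by decide +kernel) (by decide +kernel) ok29 ok30

noncomputable def t32 : Tre :=
  .I [0,0,1,0,0,0,0,-1] t20 t31

theorem ok32 : chk (cU (-1) true 3) t32 r11 = true :=
  chk_I (e' := [1,0,-1,0,0,0,0,1]) (by decide +kernel) (by decide +kernel) ok20 ok31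

noncomputable def t33 : Tre :=
  .Q [0,0,0,0,0,0,-1,0,0,0,1] (.p true [0,0,1] [] (⟨0,[(15,0)]⟩,⟨0,[(14,0)]⟩) .k 0 (⟨0,[]⟩,⟨0,[]⟩)
  .k .k) t19 t32

theorem ok33 : chk (cU (-1) true 3) t33 r1 = true :=
  chk_Q (e' := [0,0,0,0,0,0,1,0,0,0,-1]) (by decide +kernel) (by decide +kernel) ok19 ok32

noncomputable def t34 : Tre :=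
  .Q [0,1,0,1,0,0,-1,-1,0,0,1] (.p true [0,0,1] [] (⟨0,[(14,0)]⟩,⟨0,[(13,0)]⟩) .k 0 (⟨0,[]⟩,⟨0,[]⟩)
  .k .k) t18 t33

theorem ok34 : chk (cU (-1) true 3) t34 l0 = true :=
  chk_Q (e' := [0,-1,0,-1,0,0,1,1,0,0,-1]) (by decide +kernel) (by decide +kernel) ok18 ok33

noncomputable def t35 : Tre :=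
  (.Q [0,0,0,0,0,0,1,0,0,1,-1] (.p false [0,0,1] [1] (⟨0,[(14,0)]⟩,⟨0,[(13,0)]⟩) .k 1 (⟨0,[]⟩,⟨0,
  []⟩) .k .k) (.R ⟨2,true,false,true,[0,1],[1,0,-1],[0,0,1],(⟨0,[]⟩,⟨0,[]⟩),(⟨0,[(14,0)]⟩,⟨0,[(15,
  0)]⟩),⟨0,[]⟩,.k,.k,.k,.k,.k,.k,⟨false,1,⟨3,[(3,0),(0,0),(8,3),(9,1)]⟩,⟨0,[(0,0),(0,0),(17,0)]⟩⟩,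
  ⟨true,0,⟨0,[(8,0)]⟩,⟨0,[(0,0)]⟩⟩,⟨true,0,⟨0,[(21,0)]⟩,⟨0,[(20,0)]⟩⟩,⟨false,0,⟨0,[(1,0)]⟩,⟨1,[(2,
  0),(2,0),(0,0),(13,1),(2,1)]⟩⟩,⟨false,1,⟨3,[(3,0),(0,0),(18,1)]⟩,⟨0,[]⟩⟩,⟨true,0,⟨0,[(7,0)]⟩,⟨1,
  [(2,0),(2,0),(0,0)]⟩⟩,[]⟩) (.Q [0,0,0,0,0,0,-1,-1,0,0,1] (.p true [0,0,1] [] (⟨0,[(15,0)]⟩,⟨0,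
  [(14,0)]⟩) .k 0 (⟨0,[]⟩,⟨0,[]⟩) .k .k) (.R ⟨2,true,false,true,[0,1],[0,0,1],[0,0,1],(⟨0,[]⟩,⟨0,
  []⟩),(⟨0,[(16,0)]⟩,⟨0,[(15,0)]⟩),⟨0,[]⟩,.k,.k,.k,.k,.k,.k,⟨false,1,⟨1,[(0,1),(11,1),(10,0),(0,
  0)]⟩,⟨0,[(14,0),(5,0),(1,0)]⟩⟩,⟨true,0,⟨0,[(12,0)]⟩,⟨0,[(0,0),(13,0)]⟩⟩,⟨true,0,⟨0,[(22,0)]⟩,⟨0,
  [(21,0)]⟩⟩,⟨false,0,⟨0,[(2,0),(0,0)]⟩,⟨0,[(0,0),(20,0),(2,0)]⟩⟩,⟨false,1,⟨3,[(4,0),(0,0),(18,1)]⟩,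
  ⟨0,[]⟩⟩,⟨true,0,⟨0,[(10,0)]⟩,⟨0,[(0,0)]⟩⟩,[]⟩) (.I [0,-1,1,0,0,0,0,1] (.R ⟨2,true,false,true,[0,
  1],[1,0,-1],[0,0,1],(⟨0,[]⟩,⟨0,[]⟩),(⟨0,[(16,0)]⟩,⟨0,[(17,0)]⟩),⟨0,[]⟩,.k,.k,.k,.k,.k,.k,⟨true,0,
  ⟨0,[(0,0)]⟩,⟨0,[(3,0),(3,0),(0,0),(4,0),(7,0)]⟩⟩,⟨false,0,⟨0,[(2,0)]⟩,⟨0,[(7,0),(0,0),(4,0),(10,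
  0)]⟩⟩,⟨true,0,⟨0,[(23,0)]⟩,⟨0,[(22,0)]⟩⟩,⟨false,0,⟨0,[(3,0)]⟩,⟨1,[(4,0),(2,0),(0,0),(13,1),(2,
  1)]⟩⟩,⟨false,1,⟨3,[(5,0),(0,0),(18,1)]⟩,⟨0,[]⟩⟩,⟨true,0,⟨0,[(9,0)]⟩,⟨1,[(4,0),(2,0),(0,0)]⟩⟩,[]⟩)
  (.Q [0,-1,0,-1,0,0,1,1,0,0,-1] (.p false [0,0,1] [] (⟨0,[(17,0)]⟩,⟨0,[(16,0)]⟩) .k 0 (⟨0,[]⟩,⟨0,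
  []⟩) .k .k) (.R ⟨2,true,false,false,[0,1],[0,0,1],[0,0,1],(⟨0,[]⟩,⟨0,[]⟩),(⟨0,[(18,0)]⟩,⟨0,[(17,
  0)]⟩),⟨0,[]⟩,.k,.k,.k,.k,.k,.k,⟨false,1,⟨3,[(1,1),(4,0),(0,0),(5,1),(0,1),(11,1)]⟩,⟨0,[(0,0),(2,
  0),(4,0),(0,0),(12,0)]⟩⟩,⟨true,0,⟨0,[(14,0)]⟩,⟨0,[(3,0),(4,0),(0,0)]⟩⟩,⟨true,0,⟨0,[(24,0)]⟩,⟨0,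
  [(23,0)]⟩⟩,⟨false,0,⟨0,[(0,0)]⟩,⟨0,[(13,0),(9,0),(2,0)]⟩⟩,⟨false,1,⟨3,[(6,0),(0,0),(18,1)]⟩,⟨0,
  []⟩⟩,⟨true,0,⟨0,[(2,0)]⟩,⟨0,[(13,0)]⟩⟩,[]⟩) (.I [0,0,-2,-2,0,0,0,1] (.Q [0,0,0,0,0,1,0,0,0,0,-1]
  (.ed true [1,-1,1] .k) (.K ⟨2,[1,-1,1],0,0,(⟨0,[(20,0),(1,0)]⟩,⟨0,[(0,0)]⟩),.k,(.r 0 ⟨0,[(1,0)]⟩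
  ⟨1,[(2,1),(13,2),(0,0),(7,1),(2,1)]⟩),.k,.k,.k,[⟨0,[(4,0),(1,0)]⟩,⟨0,[(2,0),(7,0),(0,0)]⟩,⟨0,[(5,
  0),(4,1),(0,1)]⟩,⟨0,[(5,0),(10,1)]⟩]⟩) (.K ⟨2,[0,-1,1],0,0,(⟨0,[(0,0)]⟩,⟨0,[(19,0),(3,0)]⟩),.k,
  (.r 0 ⟨0,[(1,0)]⟩ ⟨1,[(2,1),(13,2),(0,0),(7,1),(2,1)]⟩),.k,.k,.k,[⟨0,[(26,0)]⟩,⟨0,[(2,0)]⟩,⟨0,[(5,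
  0),(4,0),(0,0)]⟩,⟨1,[(16,2),(0,0)]⟩]⟩)) (.Q [0,0,0,0,0,1,0,0,0,0,-1] (.ed true [1,-1,1] .k) (.K
  ⟨2,[1,-1,1],0,0,(⟨0,[(20,0),(1,0)]⟩,⟨0,[(0,0)]⟩),.k,(.x 0 ⟨0,[(1,0),(2,2),(1,1),(13,0),(1,1)]⟩ ⟨0,
  [(5,0),(13,0),(3,1),(3,0)]⟩),.k,.k,.k,[⟨0,[(4,0),(1,0)]⟩,⟨0,[(2,0),(7,0),(0,0)]⟩,⟨0,[(5,0),(4,1),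
  (0,1)]⟩,⟨0,[(5,0),(10,1)]⟩]⟩) (.K ⟨2,[0,-1,1],0,0,(⟨0,[(0,0)]⟩,⟨0,[(19,0),(3,0)]⟩),.k,(.x 0 ⟨0,
  [(0,0),(4,0),(10,1),(5,0)]⟩ ⟨0,[(5,0),(13,0),(3,1),(3,0)]⟩),.k,.k,.k,[⟨0,[(26,0)]⟩,⟨0,[(2,0)]⟩,⟨0,
  [(5,0),(4,0),(0,0)]⟩,⟨1,[(16,2),(0,0)]⟩]⟩)))))))

theorem ok35 : chk (cU (-1) true 3) t35 r0 = true := by decide +kernel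

noncomputable def t36 : Tre :=
  .Q [0,0,0,1,0,0,1,1,0,1,-1] (.p false [0,0,1] [1] (⟨0,[(13,0)]⟩,⟨0,[(12,0)]⟩) .k 1 (⟨0,[]⟩,⟨0,
  []⟩) .k .k) t34 t35

theorem ok36 : chk (cU (-1) true 3) t36 base = true :=
  chk_Q (e' := [0,0,0,-1,0,0,-1,-1,0,-1,1]) (by decide +kernel) (by decide +kernel) ok34 ok35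

theorem ok : chkB (cU (-1) true 3) (fax (fcU (-1)) false 1 (-1) 3 true (tU true)) t36 base = true :=
  chkB_of (by decide +kernel) ok36

end Helper11.CT.Tm1_1_m1_1_u
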