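import Pool.Agent.Helper11.CT.Cfg
import Pool.Agent.Helper11.CT.Cut

set_option autoImplicit false
set_option linter.all false

namespace Helper11.CT.Tm1_1_m1_1_v2

open Helper11.CT

noncomputable def base : List Con :=
  [(false,[0,0,0,0,0,2,2,0,-2,2]),
  (false,[0,0,0,0,0,0,0,0,0,1]),
  (false,[0,1,0,0,0,-1,-1,0,1,-2]),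
  (false,[0,0,1,0,0,-1,0,0,1,-2]),
  (false,[0,1,0,0,0,1,1,0,-1]),
  (false,[0,1,0,0,0,-1,-1,0,1]),
  (false,[0,0,1,0,0,1,0,0,-1]),
  (false,[0,0,1,0,0,-1,0,0,1]),
  (true,[0,0,0,0,0,0,1]),
  (false,[0,0,0,0,0,0,0,0,-1,2]),
  (false,[0,0,0,0,0,0,0,0,1]),
  (false,[0,0,0,0,0,0,0,2,0,-4]),
  (false,[0,0,0,0,-1,0,0,0,0,2]),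
  (true,[0,0,0,0,1]),
  (true,[0,1,-1,1]),
  (true,[0,1,0,1]),
  (true,[0,0,0,-1]),
  (true,[0,0,-2,0,0,0,0,2]),
  (true,[0,-2,0,0,0,0,0,2]),
  (true,[-1,0,1]),
  (true,[-1,1])]

noncomputable def t0 : Tre :=
  (.Q [0,1,0,0,0,0,0,-1,0,1] (.p true [0,0,0,1] [] (⟨0,[(1,0)]⟩,⟨0,[(1,0)]⟩) .k 0 (⟨0,[]⟩,⟨0,[]⟩)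
  .k .k) (.K ⟨1,[0,0,0,1],0,0,(⟨0,[(2,0)]⟩,⟨0,[(2,0)]⟩),.k,(.r 0 ⟨1,[(17,1),(0,0)]⟩ ⟨1,[(7,0),(0,0),
  (7,1),(2,0)]⟩),(.r 0 ⟨1,[(7,0),(0,0),(7,1),(2,0)]⟩ ⟨1,[(17,1),(0,0)]⟩),.k,.k,[⟨1,[(7,0),(0,0),(1,
  0),(0,0)]⟩,⟨1,[(4,0),(2,0)]⟩,⟨0,[(0,0)]⟩,⟨1,[(10,0),(0,0),(7,0)]⟩]⟩) (.Q [0,0,1,0,0,0,0,0,0,-2]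
  (.pp true [-1,1]) (.Q [0,-1,0,1,0,0,0,1,0,1] (.p true [0,0,0,1] [] (⟨0,[(3,0)]⟩,⟨0,[(3,0)]⟩) .k 0
  (⟨0,[]⟩,⟨0,[]⟩) .k .k) (.Q [0,0,0,-1,0,0,0,0,0,-1] (.p false [0,0,0,1] [] (⟨0,[(4,0)]⟩,⟨0,[(4,
  0)]⟩) .k 0 (⟨0,[]⟩,⟨0,[]⟩) .k .k) (.Q [0,0,0,1,0,0,0,0,0,2] (.pp false [-1,1]) (.R ⟨2,false,false,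
  false,[0,1],[1,-1],[],(⟨0,[]⟩,⟨0,[]⟩),(⟨0,[(17,0)]⟩,⟨0,[(18,0)]⟩),⟨0,[]⟩,.k,.k,.k,(.r 0 ⟨0,[(0,1),
  (2,1)]⟩ ⟨0,[(21,1),(0,0)]⟩),.k,.k,⟨true,0,⟨0,[(0,0),(2,0)]⟩,⟨0,[(21,0)]⟩⟩,⟨false,0,⟨0,[(3,0)]⟩,⟨0,
  [(0,0),(20,0),(0,0)]⟩⟩,⟨false,1,⟨1,[(21,1),(0,0),(0,0)]⟩,⟨0,[(0,0),(2,0)]⟩⟩,⟨true,0,⟨0,[(1,1)]⟩,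
  ⟨0,[(0,0),(19,0)]⟩⟩,⟨false,1,⟨1,[(22,0),(0,0)]⟩,⟨1,[(11,0),(0,0)]⟩⟩,⟨false,1,⟨1,[(16,0),(4,1),(1,
  0)]⟩,⟨0,[(0,0)]⟩⟩,[.a ⟨true,0,⟨0,[(21,0)]⟩,⟨0,[(0,0)]⟩⟩ ⟨false,1,⟨5,[(5,1),(4,3),(5,0),(5,2),(0,
  1)]⟩,⟨0,[]⟩⟩ ⟨true,0,⟨0,[(3,0),(17,0)]⟩,⟨0,[(0,0)]⟩⟩,.o ⟨false,1,⟨1,[(16,0),(4,1),(1,0)]⟩,⟨0,[(20,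
  0)]⟩⟩,.o ⟨false,1,⟨5,[(5,1),(4,3),(5,0),(5,2),(0,1)]⟩,⟨0,[(3,0)]⟩⟩,.e ⟨false,1,⟨1,[(22,0),(0,0)]⟩,
  ⟨1,[(11,0),(0,0)]⟩⟩ ⟨false,1,⟨1,[(16,0),(4,1),(1,0)]⟩,⟨0,[(0,0)]⟩⟩]⟩) (.Q [0,0,0,0,1,0,0,0,0,-1]
  (.p false [0,0,0,1] [] (⟨0,[(6,0)]⟩,⟨0,[(6,0)]⟩) .k 0 (⟨0,[]⟩,⟨0,[]⟩) .k .k) (.R ⟨0,false,false,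
  false,[0,0,0,1],[1,-1],[1,0,0,0,0,0,0,1],(⟨0,[(7,0)]⟩,⟨0,[(7,0)]⟩),(⟨0,[(18,0)]⟩,⟨0,[(19,0)]⟩),⟨0,
  [(0,0)]⟩,.k,.k,(.r 0 ⟨1,[(22,1),(0,0)]⟩ ⟨1,[(12,0),(0,0),(7,1),(2,0)]⟩),(.r 0 ⟨1,[(12,0),(0,0),(7,
  1),(2,0)]⟩ ⟨1,[(22,1),(0,0)]⟩),.k,.k,⟨false,0,⟨1,[(21,1),(2,0)]⟩,⟨1,[(22,1),(0,0)]⟩⟩,⟨true,0,⟨1,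
  [(9,0),(2,0)]⟩,⟨0,[(7,0)]⟩⟩,⟨true,0,⟨0,[]⟩,⟨0,[(26,0)]⟩⟩,⟨false,1,⟨1,[(1,0),(20,0),(1,0)]⟩,⟨3,[(3,
  1),(2,0),(4,1),(9,1),(2,0)]⟩⟩,⟨false,0,⟨0,[]⟩,⟨0,[]⟩⟩,⟨false,0,⟨0,[]⟩,⟨0,[]⟩⟩,[.o ⟨false,0,⟨0,[(1,
  0)]⟩,⟨5,[(6,1),(4,3),(5,0),(3,5),(2,4)]⟩⟩,.o ⟨false,1,⟨1,[(17,0),(4,1),(1,0)]⟩,⟨0,[(21,0)]⟩⟩,.a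
  ⟨true,0,⟨0,[(7,0)]⟩,⟨0,[(7,0)]⟩⟩ ⟨false,0,⟨1,[(24,0)]⟩,⟨5,[(6,1),(4,3),(5,0),(6,1)]⟩⟩ ⟨true,0,⟨0,
  [(2,0)]⟩,⟨1,[(15,0),(0,0),(4,1)]⟩⟩,.o ⟨false,0,⟨1,[(9,0),(2,0)]⟩,⟨5,[(6,0),(4,1),(5,1),(5,2),(0,
  0)]⟩⟩]⟩) (.R ⟨1,false,false,false,[0,0,0,1],[1,-1],[1,0,0,0,0,0,0,1],(⟨0,[(7,0)]⟩,⟨0,[(7,0)]⟩),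
  (⟨0,[(18,0)]⟩,⟨0,[(19,0)]⟩),⟨0,[(0,0)]⟩,.k,.k,(.r 0 ⟨1,[(22,1),(0,0)]⟩ ⟨1,[(12,0),(0,0),(7,1),(2,
  0)]⟩),(.r 0 ⟨1,[(12,0),(0,0),(7,1),(2,0)]⟩ ⟨1,[(22,1),(0,0)]⟩),.k,.k,⟨false,0,⟨1,[(21,1),(2,0)]⟩,
  ⟨1,[(22,1),(0,0)]⟩⟩,⟨true,0,⟨1,[(9,0),(2,0)]⟩,⟨0,[(7,0)]⟩⟩,⟨true,0,⟨0,[]⟩,⟨0,[(26,0)]⟩⟩,⟨false,1,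
  ⟨1,[(1,0),(20,0),(1,0)]⟩,⟨3,[(3,1),(2,0),(4,1),(9,1),(2,0)]⟩⟩,⟨false,1,⟨0,[(21,0),(2,0)]⟩,⟨0,[(22,
  0)]⟩⟩,⟨false,1,⟨0,[(5,0)]⟩,⟨1,[(6,0),(4,1),(12,0)]⟩⟩,[.o ⟨false,0,⟨0,[(1,0)]⟩,⟨5,[(6,1),(4,3),(5,
  0),(3,5),(2,4)]⟩⟩,.o ⟨false,1,⟨1,[(17,0),(4,1),(1,0)]⟩,⟨0,[(21,0)]⟩⟩,.a ⟨true,0,⟨0,[(7,0)]⟩,⟨0,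
  [(7,0)]⟩⟩ ⟨false,0,⟨1,[(24,0)]⟩,⟨5,[(6,1),(4,3),(5,0),(6,1)]⟩⟩ ⟨true,0,⟨0,[(2,0)]⟩,⟨1,[(15,0),(0,
  0),(4,1)]⟩⟩,.o ⟨false,0,⟨1,[(9,0),(2,0)]⟩,⟨5,[(6,0),(4,1),(5,1),(5,2),(0,0)]⟩⟩]⟩))) (.Q [0,0,0,0,
  2,0,0,0,0,-2] (.pp true [-1,1]) (.R ⟨0,false,false,true,[0,0,0,1],[1,-1],[0,1,0,0,0,0,0,1],(⟨0,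
  [(6,0)]⟩,⟨0,[(6,0)]⟩),(⟨0,[(17,0)]⟩,⟨0,[(18,0)]⟩),⟨1,[(0,0)]⟩,.k,.k,(.r 0 ⟨1,[(21,1),(0,0)]⟩ ⟨1,
  [(11,0),(0,0),(7,1),(2,0)]⟩),(.r 0 ⟨1,[(11,0),(0,0),(7,1),(2,0)]⟩ ⟨1,[(21,1),(0,0)]⟩),.k,.k,
  ⟨false,0,⟨1,[(20,1),(2,0)]⟩,⟨1,[(21,1),(0,0)]⟩⟩,⟨true,0,⟨1,[(8,0),(2,0)]⟩,⟨0,[(6,0)]⟩⟩,⟨true,0,⟨0,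
  [(25,0)]⟩,⟨0,[]⟩⟩,⟨false,1,⟨5,[(5,0),(4,1),(5,1),(4,5),(1,0)]⟩,⟨0,[(2,0)]⟩⟩,⟨false,0,⟨0,[]⟩,⟨0,
  []⟩⟩,⟨false,0,⟨0,[]⟩,⟨0,[]⟩⟩,[.o ⟨false,0,⟨0,[(3,0),(15,0),(1,1)]⟩,⟨0,[(20,0),(2,0)]⟩⟩,.e ⟨false,
  0,⟨1,[(22,0)]⟩,⟨5,[(5,1),(4,3),(5,0),(6,1)]⟩⟩ ⟨false,1,⟨5,[(5,0),(4,1),(5,1),(4,5),(0,2),(0,0)]⟩,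
  ⟨0,[(1,0)]⟩⟩,.a ⟨true,0,⟨0,[(6,0)]⟩,⟨0,[(6,0)]⟩⟩ ⟨false,0,⟨5,[(5,1),(4,3),(5,0),(6,1)]⟩,⟨1,[(23,
  0)]⟩⟩ ⟨true,0,⟨1,[(7,0),(1,0),(11,1)]⟩,⟨0,[(1,0)]⟩⟩,.o ⟨false,0,⟨1,[(8,0),(2,0)]⟩,⟨5,[(5,0),(4,1),
  (5,1),(5,2),(0,0)]⟩⟩]⟩) (.R ⟨1,false,false,true,[0,0,0,1],[1,-1],[1,1,0,0,0,0,0,1],(⟨0,[(6,0)]⟩,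
  ⟨0,[(6,0)]⟩),(⟨0,[(17,0)]⟩,⟨0,[(18,0)]⟩),⟨1,[(0,0)]⟩,.k,.k,(.r 0 ⟨1,[(21,1),(0,0)]⟩ ⟨1,[(11,0),(0,
  0),(7,1),(2,0)]⟩),(.r 0 ⟨1,[(11,0),(0,0),(7,1),(2,0)]⟩ ⟨1,[(21,1),(0,0)]⟩),.k,.k,⟨false,0,⟨1,[(20,
  1),(2,0)]⟩,⟨1,[(21,1),(0,0)]⟩⟩,⟨true,0,⟨1,[(8,0),(2,0)]⟩,⟨0,[(6,0)]⟩⟩,⟨false,0,⟨0,[]⟩,⟨5,[(5,1),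
  (4,3),(5,0),(6,4)]⟩⟩,⟨false,1,⟨5,[(5,0),(4,1),(5,1),(4,5),(1,0)]⟩,⟨0,[(2,0)]⟩⟩,⟨true,0,⟨0,[(20,
  0)]⟩,⟨0,[(21,0)]⟩⟩,⟨false,1,⟨5,[(5,0),(4,1),(5,1),(6,0)]⟩,⟨1,[(14,0),(0,0),(7,0)]⟩⟩,[.o ⟨false,0,
  ⟨0,[(3,0),(15,0),(1,1)]⟩,⟨0,[(20,0),(2,0)]⟩⟩,.e ⟨false,0,⟨1,[(22,0)]⟩,⟨5,[(5,1),(4,3),(5,0),(6,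
  1)]⟩⟩ ⟨false,1,⟨5,[(5,0),(4,1),(5,1),(4,5),(0,2),(0,0)]⟩,⟨0,[(1,0)]⟩⟩,.a ⟨true,0,⟨0,[(6,0)]⟩,⟨0,
  [(6,0)]⟩⟩ ⟨false,0,⟨5,[(5,1),(4,3),(5,0),(6,1)]⟩,⟨1,[(23,0)]⟩⟩ ⟨true,0,⟨1,[(7,0),(1,0),(11,1)]⟩,
  ⟨0,[(1,0)]⟩⟩,.o ⟨false,0,⟨1,[(8,0),(2,0)]⟩,⟨5,[(5,0),(4,1),(5,1),(5,2),(0,0)]⟩⟩]⟩))) (.R ⟨2,true,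
  false,true,[0,1],[0,0,0,1],[1,1,1,1],(⟨0,[]⟩,⟨0,[]⟩),(⟨0,[(4,0)]⟩,⟨0,[(4,0)]⟩),⟨0,[]⟩,.k,.k,.k,
  (.r (-1) ⟨1,[(9,0),(0,0),(7,1),(2,0)]⟩ ⟨1,[(19,1),(0,0)]⟩),.k,.k,⟨false,1,⟨1,[(18,1),(2,0)]⟩,⟨1,
  [(19,1),(0,0)]⟩⟩,⟨true,0,⟨1,[(6,0),(2,0)]⟩,⟨0,[(4,0)]⟩⟩,⟨false,0,⟨0,[]⟩,⟨5,[(3,1),(4,3),(5,0),(6,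
  4)]⟩⟩,⟨true,(-1),⟨0,[(0,0)]⟩,⟨1,[(12,0),(0,0),(4,1),(2,0)]⟩⟩,⟨true,0,⟨0,[(18,0)]⟩,⟨0,[(19,0)]⟩⟩,
  ⟨false,0,⟨5,[(3,0),(4,1),(5,1),(6,0)]⟩,⟨1,[(12,0),(0,0),(7,0)]⟩⟩,[]⟩)) (.R ⟨2,false,false,false,
  [0,1],[0,0,0,1],[0,0,1],(⟨0,[]⟩,⟨0,[]⟩),(⟨0,[(3,0)]⟩,⟨0,[(3,0)]⟩),⟨0,[]⟩,.k,.k,.k,(.r (-1) ⟨1,[(8,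
  0),(0,0),(7,1),(2,0)]⟩ ⟨1,[(18,1),(0,0)]⟩),.k,.k,⟨false,1,⟨5,[(2,1),(4,3),(5,0),(6,1)]⟩,⟨1,[(19,
  0)]⟩⟩,⟨true,0,⟨1,[(5,0),(2,0)]⟩,⟨0,[(3,0)]⟩⟩,⟨true,0,⟨0,[(18,0)]⟩,⟨0,[(17,0)]⟩⟩,⟨false,0,⟨0,[(1,
  0),(16,0)]⟩,⟨1,[(11,0),(0,0),(4,1),(2,0)]⟩⟩,⟨false,1,⟨5,[(2,1),(4,3),(5,0),(6,4)]⟩,⟨0,[]⟩⟩,⟨false,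
  0,⟨0,[(1,0)]⟩,⟨1,[(2,0),(4,1),(12,0)]⟩⟩,[.o ⟨false,0,⟨5,[(2,0),(4,1),(5,1),(6,0)]⟩,⟨5,[(2,0),(4,
  1),(5,1),(6,0)]⟩⟩,.o ⟨false,0,⟨0,[(1,0)]⟩,⟨1,[(2,0),(4,1),(5,0)]⟩⟩,.a ⟨true,0,⟨0,[(0,0)]⟩,⟨1,[(8,
  0),(0,0)]⟩⟩ ⟨true,0,⟨1,[(8,0),(0,0)]⟩,⟨0,[(16,0),(1,0)]⟩⟩ ⟨false,0,⟨1,[(5,0),(2,0),(11,0)]⟩,⟨5,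
  [(0,1),(1,0),(4,1),(11,1),(0,0)]⟩⟩,.e ⟨false,1,⟨5,[(2,1),(4,3),(5,0),(6,4)]⟩,⟨0,[]⟩⟩ ⟨false,0,⟨0,
  [(1,0)]⟩,⟨1,[(2,0),(4,1),(12,0)]⟩⟩]⟩)))

theorem ok0 : chk (cW (-1) 3) t0 base = true := by decide +kernel

theorem ok : chkB (cW (-1) 3) (fax (fcW (-1)) false 1 (-1) 3 true tW) t0 base = true :=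
  chkB_of (by decide +kernel) ok0

end Helper11.CT.Tm1_1_m1_1_v2
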