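import Pool.Agent.Helper11.CT.Cfg
import Pool.Agent.Helper11.CT.Cut

set_option autoImplicit false
set_option linter.all false

namespace Helper11.CT.Tm1_1_m1_m1_u

open Helper11.CT

noncomputable def base : List Con :=
  [(false,[0,0,0,0,0,0,2,2,0,1,-2]),
  (true,[0,0,0,0,1,0,0,0,-2]),
  (true,[0,0,0,0,1,0,0,0,2]),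
  (false,[0,0,0,0,0,0,0,0,0,1,0,-1]),
  (false,[0,0,0,0,0,0,0,0,0,0,0,1]),
  (false,[0,1,0,0,0,0,-1,-1,0,-1,1]),
  (false,[0,0,1,0,0,0,-1,0,0,-1,1]),
  (false,[0,1,0,0,0,0,1,1,0,0,-1]),
  (false,[0,1,0,0,0,0,-1,-1,0,0,1]),
  (false,[0,0,1,0,0,0,1,0,0,0,-1]),
  (false,[0,0,1,0,0,0,-1,0,0,0,1]),
  (true,[0,0,0,0,0,0,0,-1]),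
  (false,[0,0,0,0,0,0,0,0,0,1,-1]),
  (false,[0,0,0,0,0,0,0,0,0,0,1]),
  (false,[0,0,0,0,1,0,0,0,0,-2]),
  (false,[0,0,0,0,0,-1,0,0,0,1]),
  (true,[0,0,0,0,0,1]),
  (true,[0,1,-1,1]),
  (true,[0,1,0,1]),
  (true,[0,0,0,-1]),
  (true,[0,0,-2,0,1]),
  (true,[0,-2,0,0,1]),
  (true,[-1,0,1]),
  (true,[-1,1])]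

noncomputable def l0 : List Con := (false, [0,0,0,-1,0,0,-1,-1,0,-1,1]) :: base

noncomputable def r0 : List Con := (false, [0,0,0,1,0,0,1,1,0,1,-1]) :: base

noncomputable def t0 : Tre :=
  (.R ⟨2,true,false,true,[0,1],[1,0,-1],[0,0,1],(⟨0,[]⟩,⟨0,[]⟩),(⟨0,[(13,0)]⟩,⟨0,[(14,0)]⟩),⟨0,[]⟩,
  .k,.k,.k,.k,.k,.k,⟨false,1,⟨1,[(1,0),(5,0),(3,0),(9,0),(0,0)]⟩,⟨0,[(12,0),(5,0),(1,0)]⟩⟩,⟨true,0,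
  ⟨0,[(7,0)]⟩,⟨1,[(1,0),(2,0),(0,0),(6,1)]⟩⟩,⟨true,0,⟨0,[(20,0)]⟩,⟨0,[(19,0)]⟩⟩,⟨false,0,⟨0,[(0,
  0)]⟩,⟨1,[(1,0),(2,0),(0,0),(13,1),(2,1)]⟩⟩,⟨false,1,⟨3,[(2,0),(0,0),(18,1)]⟩,⟨0,[]⟩⟩,⟨true,0,⟨0,
  [(6,0)]⟩,⟨1,[(1,0),(2,0),(0,0)]⟩⟩,[]⟩)

theorem ok0 : chk (cU (-1) true 3) t0 l0 = true := by decide +kernel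

noncomputable def l1 : List Con := (false, [0,0,0,0,0,-1,0,0,0,1,-1]) :: r0

noncomputable def r1 : List Con := (false, [0,0,0,0,0,1,0,0,0,-1,1]) :: r0

noncomputable def l2 : List Con := (false, [0,0,0,0,0,0,-1,0,0,0,1]) :: l1

noncomputable def r2 : List Con := (false, [0,0,0,0,0,0,1,0,0,0,-1]) :: l1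

noncomputable def t1 : Tre :=
  (.K ⟨0,[1,-1,-1],0,0,(⟨0,[(1,0)]⟩,⟨0,[(16,0),(2,0)]⟩),.k,(.r (-1) ⟨0,[(14,0),(7,1),(0,0)]⟩ ⟨0,[(2,
  1),(6,1),(4,0)]⟩),.k,.k,.k,[⟨1,[(3,0),(2,0),(0,0),(6,1)]⟩,⟨0,[(0,0)]⟩,⟨0,[(2,0),(23,0)]⟩,⟨0,[(8,
  0),(13,0)]⟩]⟩)

theorem ok1 : chk (cU (-1) true 3) t1 l2 = true := by decide +kernel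

noncomputable def l3 : List Con := (true, [1,1,-2,-1,0,0,0,-1]) :: r2

noncomputable def r3 : List Con := (true, [0,-1,2,1,0,0,0,1]) :: r2

noncomputable def l4 : List Con := (false, [0,0,0,-1,0,0,1,1,0,0,-1]) :: l3

noncomputable def r4 : List Con := (false, [0,0,0,1,0,0,-1,-1,0,0,1]) :: l3

noncomputable def t2 : Tre :=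
  (.Q [0,0,0,0,0,0,-1,-1,0,0,1] (.p true [0,0,1] [] (⟨0,[(18,0)]⟩,⟨0,[(17,0)]⟩) .k 0 (⟨0,[]⟩,⟨0,
  []⟩) .k .k) (.R ⟨2,false,false,false,[0,1],[0,0,1],[],(⟨0,[]⟩,⟨0,[]⟩),(⟨0,[(19,0)]⟩,⟨0,[(18,0)]⟩),
  ⟨0,[]⟩,.k,.k,.k,.k,.k,.k,⟨true,0,⟨0,[(17,0)]⟩,⟨1,[(6,0),(5,0),(3,0)]⟩⟩,⟨false,0,⟨0,[(3,0)]⟩,⟨0,
  [(16,0),(9,0)]⟩⟩,⟨false,1,⟨1,[(25,1),(0,0),(0,0)]⟩,⟨0,[(5,0),(6,0),(4,0)]⟩⟩,⟨true,0,⟨0,[(1,0)]⟩,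
  ⟨0,[(0,0),(23,0)]⟩⟩,⟨false,1,⟨1,[(26,0),(0,0)]⟩,⟨1,[(15,0),(0,0)]⟩⟩,⟨false,1,⟨7,[(6,3),(0,0),(0,
  0),(11,1),(6,3)]⟩,⟨0,[(0,0)]⟩⟩,[.a ⟨true,0,⟨1,[(6,0),(2,0),(0,0)]⟩,⟨0,[(0,0)]⟩⟩ ⟨false,1,⟨3,[(7,
  0),(0,0),(17,1)]⟩,⟨0,[]⟩⟩ ⟨true,0,⟨1,[(6,0),(5,0),(2,0)]⟩,⟨0,[(0,0)]⟩⟩,.o ⟨false,1,⟨7,[(6,3),(0,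
  0),(0,0),(11,1),(6,3)]⟩,⟨0,[(11,0)]⟩⟩,.o ⟨false,1,⟨3,[(7,0),(0,0),(17,1)]⟩,⟨0,[(3,0),(8,0)]⟩⟩,.e
  ⟨false,1,⟨1,[(26,0),(0,0)]⟩,⟨1,[(15,0),(0,0)]⟩⟩ ⟨false,1,⟨7,[(6,3),(0,0),(0,0),(11,1),(6,3)]⟩,⟨0,
  [(0,0)]⟩⟩]⟩) (.Q [0,0,0,-1,0,0,-1,-1,0,0,1] (.p true [0,0,1] [] (⟨0,[(19,0)]⟩,⟨0,[(18,0)]⟩) .k 0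
  (⟨0,[]⟩,⟨0,[]⟩) .k .k) (.R ⟨2,true,false,false,[0,1],[0,1,1],[0,1,1],(⟨0,[]⟩,⟨0,[]⟩),(⟨0,[(20,0),
  (2,0)]⟩,⟨0,[(5,0)]⟩),⟨0,[]⟩,.k,.k,.k,.k,.k,.k,⟨false,0,⟨2,[(0,0),(2,1),(12,0),(13,0)]⟩,⟨1,[(6,1),
  (6,1),(13,0),(0,0)]⟩⟩,⟨true,0,⟨0,[(4,0)]⟩,⟨0,[(17,0)]⟩⟩,⟨false,0,⟨0,[(26,0)]⟩,⟨0,[(25,0),(2,0)]⟩⟩,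
  ⟨true,0,⟨0,[(1,0)]⟩,⟨0,[(15,0)]⟩⟩,⟨true,0,⟨0,[(30,0)]⟩,⟨0,[]⟩⟩,⟨false,1,⟨1,[(6,1),(14,0),(6,0)]⟩,
  ⟨0,[(0,0)]⟩⟩,[]⟩) (.I [0,1,1,0,-1,0,0,0,-1] (.Q [0,1,1,0,0,0,0,0,1,0,0,-1] (.p false [0,0,0,1] []
  (⟨0,[(12,0)]⟩,⟨0,[(11,0)]⟩) .k 0 (⟨0,[]⟩,⟨0,[]⟩) .k .k) (.K ⟨0,[0,0,0,1],0,0,(⟨0,[(13,0)]⟩,⟨0,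
  [(12,0)]⟩),.k,(.r (-1) ⟨1,[(11,0),(16,1),(0,0)]⟩ ⟨0,[(1,0),(25,0),(2,0)]⟩),(.x 0 ⟨0,[(25,0)]⟩ ⟨3,
  [(10,0),(0,0),(11,1),(0,3)]⟩),.k,.k,[⟨0,[(13,0)]⟩,⟨0,[(12,0)]⟩,⟨0,[(1,0),(11,0),(15,0)]⟩,⟨0,[(0,
  0)]⟩]⟩) (.Q [0,0,0,0,0,-1,0,0,0,0,0,1] (.ed false [1,-1,0,1] .k) (.R ⟨1,false,false,false,[0,0,0,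
  1],[1,0,0,-1],[1,0,0,0,0,0,0,0,1],(⟨0,[(14,0)]⟩,⟨0,[(13,0)]⟩),(⟨0,[(13,0)]⟩,⟨0,[(14,0)]⟩),⟨0,[(0,
  0)]⟩,.k,.k,(.r (-1) ⟨1,[(12,0),(16,1),(0,0)]⟩ ⟨0,[(2,0),(25,0),(2,0)]⟩),.k,(.r (-2) ⟨3,[(11,0),(0,
  4),(16,3),(0,1)]⟩ ⟨0,[(1,0),(0,0),(0,0),(9,0),(2,0),(4,0)]⟩),.k,⟨true,1,⟨0,[(12,0)]⟩,⟨0,[(1,0),(0,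
  0),(4,0),(5,0),(2,0)]⟩⟩,⟨false,1,⟨3,[(1,5),(3,1),(0,1),(5,2),(1,1),(1,1),(7,0),(2,3)]⟩,⟨0,[(13,1),
  (2,0),(2,0)]⟩⟩,⟨true,0,⟨0,[]⟩,⟨0,[(33,0)]⟩⟩,⟨false,0,⟨3,[(1,6),(0,0),(0,1),(2,1),(7,0),(1,1),(7,
  0)]⟩,⟨0,[(12,0),(0,1),(2,0),(2,0)]⟩⟩,⟨false,1,⟨0,[(28,0),(2,0)]⟩,⟨0,[(29,0)]⟩⟩,⟨false,0,⟨0,[(1,1),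
  (1,0),(11,0)]⟩,⟨0,[(12,0),(0,1),(2,0),(2,0),(9,0)]⟩⟩,[.o ⟨false,0,⟨3,[(1,2),(0,0),(0,1),(2,1),(7,
  0),(1,1),(7,0)]⟩,⟨7,[(11,0),(0,4),(0,7),(2,3),(2,3),(4,1)]⟩⟩,.a ⟨true,0,⟨0,[(1,0)]⟩,⟨0,[(2,0),(9,
  0),(0,0)]⟩⟩ ⟨true,1,⟨1,[(12,0),(18,0)]⟩,⟨0,[(2,0)]⟩⟩ ⟨false,1,⟨7,[(1,13),(3,1),(0,1),(5,2),(1,1),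
  (1,1),(7,2),(2,3),(2,1)]⟩,⟨0,[(2,0),(4,0),(4,0),(0,1),(2,0)]⟩⟩,.o ⟨false,0,⟨0,[(7,0),(5,0),(2,
  0)]⟩,⟨1,[(14,1),(9,0),(5,0)]⟩⟩,.o ⟨false,0,⟨0,[(13,0),(2,0),(2,0)]⟩,⟨7,[(1,5),(3,1),(0,1),(5,2),
  (1,1),(1,1),(7,2),(2,3),(2,1)]⟩⟩]⟩) (.R ⟨0,false,false,false,[0,0,0,1],[1,0,0,-1],[1,0,0,0,0,0,0,
  0,1],(⟨0,[(14,0)]⟩,⟨0,[(13,0)]⟩),(⟨0,[(13,0)]⟩,⟨0,[(14,0)]⟩),⟨0,[(0,0)]⟩,.k,.k,(.r (-1) ⟨1,[(12,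
  0),(16,1),(0,0)]⟩ ⟨0,[(2,0),(25,0),(2,0)]⟩),.k,.k,.k,⟨true,1,⟨0,[(12,0)]⟩,⟨0,[(1,0),(0,0),(4,0),
  (5,0),(2,0)]⟩⟩,⟨false,1,⟨3,[(1,5),(3,1),(0,1),(5,2),(1,1),(1,1),(7,0),(2,3)]⟩,⟨0,[(13,1),(2,0),(2,
  0)]⟩⟩,⟨true,0,⟨0,[]⟩,⟨0,[(33,0)]⟩⟩,⟨false,0,⟨3,[(1,6),(0,0),(0,1),(2,1),(7,0),(1,1),(7,0)]⟩,⟨0,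
  [(12,0),(0,1),(2,0),(2,0)]⟩⟩,⟨false,0,⟨0,[]⟩,⟨0,[]⟩⟩,⟨false,0,⟨0,[]⟩,⟨0,[]⟩⟩,[.o ⟨false,0,⟨3,[(1,
  2),(0,0),(0,1),(2,1),(7,0),(1,1),(7,0)]⟩,⟨7,[(11,0),(0,4),(0,7),(2,3),(2,3),(4,1)]⟩⟩,.a ⟨true,0,
  ⟨0,[(1,0)]⟩,⟨0,[(2,0),(9,0),(0,0)]⟩⟩ ⟨true,1,⟨1,[(12,0),(18,0)]⟩,⟨0,[(2,0)]⟩⟩ ⟨false,1,⟨7,[(1,13),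
  (3,1),(0,1),(5,2),(1,1),(1,1),(7,2),(2,3),(2,1)]⟩,⟨0,[(2,0),(4,0),(4,0),(0,1),(2,0)]⟩⟩,.o ⟨false,
  0,⟨0,[(7,0),(5,0),(2,0)]⟩,⟨1,[(14,1),(9,0),(5,0)]⟩⟩,.o ⟨false,0,⟨0,[(13,0),(2,0),(2,0)]⟩,⟨7,[(1,
  5),(3,1),(0,1),(5,2),(1,1),(1,1),(7,2),(2,3),(2,1)]⟩⟩]⟩))) (.Q [0,0,0,1,0,0,0,0,0,1] (.pp false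
  [-1,1]) (.Q [0,0,0,0,0,1,0,0,0,0,-1] (.ed true [1,-1,1] .k) (.R ⟨0,false,false,false,[0,0,1],[1,
  -1],[1,0,0,-1],(⟨0,[(23,0)]⟩,⟨0,[(22,0)]⟩),(⟨0,[(25,0)]⟩,⟨0,[(26,0)]⟩),⟨0,[(0,0)]⟩,.k,.k,.k,.k,.k,
  .k,⟨false,0,⟨0,[]⟩,⟨3,[(11,0),(0,0),(17,1)]⟩⟩,⟨true,0,⟨0,[(16,0)]⟩,⟨1,[(10,0),(2,0),(0,0),(6,
  1)]⟩⟩,⟨true,0,⟨0,[(21,0),(7,0)]⟩,⟨1,[(10,0),(5,0),(3,0),(6,1)]⟩⟩,⟨false,1,⟨0,[(15,0),(13,0),(1,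
  0)]⟩,⟨0,[(9,0)]⟩⟩,⟨false,0,⟨0,[]⟩,⟨0,[]⟩⟩,⟨false,0,⟨0,[]⟩,⟨0,[]⟩⟩,[.a ⟨true,0,⟨0,[(29,0)]⟩,⟨0,[(1,
  0)]⟩⟩ ⟨true,0,⟨0,[(29,0)]⟩,⟨2,[(1,1),(1,0),(12,1),(2,0),(1,0)]⟩⟩ ⟨false,1,⟨0,[(16,0),(12,0),(0,
  0)]⟩,⟨0,[(9,0),(11,0)]⟩⟩,.o ⟨false,1,⟨1,[(24,0),(4,1),(1,0)]⟩,⟨0,[(28,0)]⟩⟩,.o ⟨false,0,⟨0,[(7,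
  0)]⟩,⟨3,[(11,0),(0,0),(3,3),(13,1)]⟩⟩,.o ⟨false,0,⟨0,[(19,0)]⟩,⟨0,[(16,0),(13,0)]⟩⟩]⟩) (.Q [0,0,0,
  -2,0,0,0,0,0,-1] (.pp true [-1,1]) (.R ⟨2,false,false,false,[0,1],[1,-1],[],(⟨0,[]⟩,⟨0,[]⟩),(⟨0,
  [(26,0)]⟩,⟨0,[(27,0)]⟩),⟨0,[]⟩,.k,.k,.k,(.r 0 ⟨2,[(2,3),(1,1),(12,3),(2,1),(1,1)]⟩ ⟨0,[(30,1),(0,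
  0)]⟩),.k,.k,⟨true,0,⟨2,[(2,1),(1,0),(12,1),(2,0),(1,0)]⟩,⟨0,[(30,0)]⟩⟩,⟨false,0,⟨0,[(8,0),(8,0)]⟩,
  ⟨0,[(14,0),(0,0),(15,0)]⟩⟩,⟨false,1,⟨1,[(30,1),(0,0),(0,0)]⟩,⟨2,[(2,1),(1,0),(12,1),(2,0),(1,
  0)]⟩⟩,⟨true,0,⟨0,[(0,0)]⟩,⟨0,[(2,0),(26,0)]⟩⟩,⟨false,1,⟨1,[(31,0),(0,0)]⟩,⟨1,[(20,0),(0,0)]⟩⟩,
  ⟨false,1,⟨7,[(0,3),(11,0),(0,0),(11,1),(6,3)]⟩,⟨0,[(2,0)]⟩⟩,[.a ⟨true,0,⟨0,[(30,0)]⟩,⟨0,[(2,0)]⟩⟩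
  ⟨false,1,⟨3,[(12,0),(0,0),(17,1)]⟩,⟨0,[]⟩⟩ ⟨true,0,⟨1,[(0,0),(16,0),(2,0)]⟩,⟨0,[(2,0)]⟩⟩,.o
  ⟨false,1,⟨7,[(0,3),(11,0),(0,0),(11,1),(6,3)]⟩,⟨0,[(29,0)]⟩⟩,.o ⟨false,1,⟨3,[(12,0),(0,0),(17,
  1)]⟩,⟨0,[(8,0),(8,0)]⟩⟩,.e ⟨false,1,⟨1,[(31,0),(0,0)]⟩,⟨1,[(20,0),(0,0)]⟩⟩ ⟨false,1,⟨7,[(0,3),(11,
  0),(0,0),(11,1),(6,3)]⟩,⟨0,[(2,0)]⟩⟩]⟩) (.I [1,1,-1,0,0,0,0,1] (.Q [0,0,0,0,0,2,0,0,0,0,-1] (.p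
  false [0,0,1] [] (⟨0,[(25,0)]⟩,⟨0,[(24,0)]⟩) .k 0 (⟨0,[]⟩,⟨0,[]⟩) .k .k) (.Q [0,0,-2,0,1,0,-1,0,0,
  -1,1] (.p true [0,0,1] [1] (⟨0,[(26,0)]⟩,⟨0,[(25,0)]⟩) .k 1 (⟨0,[]⟩,⟨0,[]⟩) .k .k) (.R ⟨0,false,
  false,false,[0,-1,1],[1,-1],[0,0,0,-1],(⟨0,[(4,0)]⟩,⟨1,[(1,0),(15,0),(0,0),(7,0)]⟩),(⟨0,[(29,0)]⟩,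
  ⟨0,[(30,0)]⟩),⟨0,[(1,0)]⟩,.k,.k,(.r (-1) ⟨1,[(2,1),(30,3),(0,0),(0,0)]⟩ ⟨0,[(3,0),(16,0),(2,0),(1,
  0)]⟩),.k,.k,.k,⟨true,0,⟨1,[(23,0),(0,0)]⟩,⟨0,[]⟩⟩,⟨false,1,⟨5,[(0,3),(14,0),(0,0),(3,1)]⟩,⟨1,[(14,
  0),(2,0),(0,0),(6,1)]⟩⟩,⟨true,0,⟨1,[(23,0),(0,0),(0,1)]⟩,⟨0,[(2,0)]⟩⟩,⟨false,1,⟨0,[(19,0),(15,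
  0)]⟩,⟨1,[(14,0),(2,0),(0,0)]⟩⟩,⟨false,0,⟨0,[]⟩,⟨0,[]⟩⟩,⟨false,0,⟨0,[]⟩,⟨0,[]⟩⟩,[.a ⟨true,0,⟨0,
  [(33,0)]⟩,⟨0,[(5,0)]⟩⟩ ⟨true,0,⟨0,[(33,0)]⟩,⟨1,[(3,0),(16,0),(2,0)]⟩⟩ ⟨false,1,⟨0,[(0,0),(32,0)]⟩,
  ⟨0,[(5,0),(17,0)]⟩⟩,.o ⟨false,1,⟨1,[(28,0),(4,1),(1,0)]⟩,⟨0,[(32,0)]⟩⟩,.o ⟨false,0,⟨0,[(23,0)]⟩,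
  ⟨5,[(0,3),(14,0),(0,0),(3,1)]⟩⟩,.o ⟨false,0,⟨1,[(23,2),(0,0)]⟩,⟨0,[(0,0)]⟩⟩]⟩) (.K ⟨0,[1,1,-1],1,
  0,(⟨1,[(1,0),(15,0),(0,0),(7,0)]⟩,⟨0,[(4,0)]⟩),.k,.k,(.r 0 ⟨7,[(0,5),(2,7),(16,3),(1,1),(2,5),(2,
  4),(6,0)]⟩ ⟨1,[(2,1),(30,3),(0,0),(0,0)]⟩),.k,.k,[⟨0,[(0,0)]⟩,⟨1,[(2,1),(0,0),(6,1),(9,0),(3,0),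
  (10,1)]⟩,⟨0,[(14,0),(7,0),(10,0)]⟩,⟨0,[(20,0),(4,0),(5,0)]⟩]⟩)) (.I [0,0,1,1,0,0,0,0,-1] (.Q [0,1,
  1,0,0,0,0,0,1,0,0,-1] (.p false [0,0,0,1] [] (⟨0,[(18,0)]⟩,⟨0,[(17,0)]⟩) .k 0 (⟨0,[]⟩,⟨0,[]⟩) .k
  .k) (.Q [0,1,-1,0,0,0,0,0,-1,0,0,1] (.p true [0,0,0,1] [] (⟨0,[(19,0)]⟩,⟨0,[(18,0)]⟩) .k 0 (⟨0,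
  []⟩,⟨0,[]⟩) .k .k) (.K ⟨0,[0,0,0,1],0,0,(⟨0,[(20,0)]⟩,⟨0,[(19,0)]⟩),.k,(.r (-1) ⟨1,[(18,0),(16,1),
  (0,0)]⟩ ⟨0,[(2,0)]⟩),(.x 0 ⟨0,[(32,0)]⟩ ⟨11,[(3,3),(10,3),(2,4),(0,4),(11,1)]⟩),.k,.k,[⟨0,[(20,
  0)]⟩,⟨0,[(19,0)]⟩,⟨0,[(0,0)]⟩,⟨0,[(1,0)]⟩]⟩) (.I [0,-1,0,-1,1,0,0,0,-2] (.Q [0,-1,-1,0,1,0,1,1,-1,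
  0,-1,1] (.p false [0,0,1] [0,0,0,1] (⟨0,[(30,0)]⟩,⟨0,[(29,0)]⟩) .k 2 (⟨0,[(21,0)]⟩,⟨0,[(20,0)]⟩)
  .k (.r (-1) ⟨7,[(5,3),(11,1),(0,4),(0,0),(3,1),(3,1),(10,1)]⟩ ⟨5,[(1,4),(0,0),(10,1),(7,5),(6,3),
  (5,1)]⟩)) (.Q [0,0,0,0,0,-1,0,0,0,1,0,-1] (.ed true [0,1,0,1] .k) (.R ⟨1,false,false,true,[1,0,0,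
  -1],[1,0,-1],[1,1,0,0,0,0,0,0,-1],(⟨0,[(22,0)]⟩,⟨0,[(23,0)]⟩),(⟨0,[(31,0)]⟩,⟨0,[(32,0)]⟩),⟨0,[(0,
  0)]⟩,.k,.k,(.x (-1) ⟨11,[(6,3),(10,3),(2,4),(0,4),(11,1)]⟩ ⟨0,[(35,0)]⟩),.k,(.r (-1) ⟨5,[(2,3),(4,
  5),(13,0),(16,1),(1,0)]⟩ ⟨0,[(3,0),(19,0),(6,0),(6,0)]⟩),.k,⟨false,1,⟨1,[(7,1),(12,0),(19,0)]⟩,⟨5,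
  [(3,4),(0,0),(10,1),(7,5),(6,3),(5,1)]⟩⟩,⟨true,0,⟨0,[(22,0),(2,0)]⟩,⟨0,[(16,0),(6,0)]⟩⟩,⟨false,0,
  ⟨0,[]⟩,⟨3,[(20,0),(0,0),(18,1)]⟩⟩,⟨false,0,⟨0,[(3,0),(23,0)]⟩,⟨0,[(1,0)]⟩⟩,⟨true,0,⟨0,[(37,0)]⟩,
  ⟨0,[(38,0)]⟩⟩,⟨false,0,⟨1,[(3,1),(4,0),(15,0),(2,0)]⟩,⟨0,[(1,0),(36,0)]⟩⟩,[.o ⟨false,0,⟨0,[(24,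
  0)]⟩,⟨7,[(19,3),(0,0),(0,0),(11,1),(6,3)]⟩⟩,.o ⟨false,1,⟨1,[(27,1),(5,0),(6,0)]⟩,⟨0,[(13,0)]⟩⟩,.o
  ⟨false,1,⟨1,[(23,1),(9,0),(5,0)]⟩,⟨1,[(3,0),(1,0),(8,0),(7,0),(1,0)]⟩⟩,.a ⟨true,0,⟨0,[(23,0)]⟩,⟨0,
  [(22,0)]⟩⟩ ⟨false,1,⟨1,[(20,0),(18,0)]⟩,⟨0,[(3,0),(19,0)]⟩⟩ ⟨true,0,⟨0,[(22,0),(1,0)]⟩,⟨1,[(12,0),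
  (1,0),(8,1)]⟩⟩]⟩) (.R ⟨0,false,false,true,[1,0,0,-1],[1,0,-1],[0,1,0,0,0,0,0,0,-1],(⟨0,[(22,0)]⟩,
  ⟨0,[(23,0)]⟩),(⟨0,[(31,0)]⟩,⟨0,[(32,0)]⟩),⟨0,[(0,0)]⟩,.k,.k,(.x (-1) ⟨11,[(6,3),(10,3),(2,4),(0,
  4),(11,1)]⟩ ⟨0,[(35,0)]⟩),.k,.k,.k,⟨false,1,⟨1,[(7,1),(12,0),(19,0)]⟩,⟨5,[(3,4),(0,0),(10,1),(7,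
  5),(6,3),(5,1)]⟩⟩,⟨true,0,⟨0,[(22,0),(2,0)]⟩,⟨0,[(16,0),(6,0)]⟩⟩,⟨true,0,⟨0,[(42,0)]⟩,⟨0,[]⟩⟩,
  ⟨false,0,⟨0,[(3,0),(23,0)]⟩,⟨0,[(1,0)]⟩⟩,⟨false,0,⟨0,[]⟩,⟨0,[]⟩⟩,⟨false,0,⟨0,[]⟩,⟨0,[]⟩⟩,[.o
  ⟨false,0,⟨0,[(24,0)]⟩,⟨7,[(19,3),(0,0),(0,0),(11,1),(6,3)]⟩⟩,.o ⟨false,1,⟨1,[(27,1),(5,0),(6,0)]⟩,
  ⟨0,[(13,0)]⟩⟩,.o ⟨false,1,⟨1,[(23,1),(9,0),(5,0)]⟩,⟨1,[(3,0),(1,0),(8,0),(7,0),(1,0)]⟩⟩,.a ⟨true,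
  0,⟨0,[(23,0)]⟩,⟨0,[(22,0)]⟩⟩ ⟨false,1,⟨1,[(20,0),(18,0)]⟩,⟨0,[(3,0),(19,0)]⟩⟩ ⟨true,0,⟨0,[(22,0),
  (1,0)]⟩,⟨3,[(0,2),(5,0),(10,0),(1,1),(3,0)]⟩⟩]⟩)) (.K ⟨0,[0,0,0,1],0,(-1),(⟨0,[(22,0)]⟩,⟨0,[(21,
  0)]⟩),.k,(.r (-1) ⟨16,[(1,2),(4,3),(3,4),(3,3),(5,8),(16,9)]⟩ ⟨0,[(4,0)]⟩),(.x 0 ⟨0,[(34,0)]⟩ ⟨11,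
  [(5,3),(10,3),(2,4),(0,4),(11,1)]⟩),.k,.k,[⟨0,[(22,0)]⟩,⟨0,[(21,0)]⟩,⟨11,[(6,3),(7,3),(4,8),(0,2),
  (1,11),(13,3)]⟩,⟨1,[(0,1),(10,0),(1,0)]⟩]⟩)) (.Q [0,1,1,0,-1,0,0,0,1,0,0,-1] (.p false [0,0,0,1]
  [] (⟨0,[(21,0)]⟩,⟨0,[(20,0)]⟩) .k 0 (⟨0,[]⟩,⟨0,[]⟩) .k .k) (.K ⟨0,[0,0,0,1],0,(-1),(⟨0,[(22,0)]⟩,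
  ⟨0,[(21,0)]⟩),.k,(.r (-1) ⟨1,[(20,0),(16,1),(0,0)]⟩ ⟨0,[(4,0)]⟩),(.x 0 ⟨0,[(34,0)]⟩ ⟨11,[(5,3),
  (10,3),(2,4),(0,4),(11,1)]⟩),.k,.k,[⟨0,[(22,0)]⟩,⟨0,[(21,0)]⟩,⟨11,[(6,3),(7,3),(4,8),(0,2),(1,11),
  (13,3)]⟩,⟨0,[(0,0)]⟩]⟩) (.R ⟨1,false,false,true,[1,-1],[0,0,0,1],[0,1,-1,-2],(⟨0,[(33,0)]⟩,⟨0,
  [(34,0)]⟩),(⟨0,[(22,0)]⟩,⟨0,[(21,0)]⟩),⟨1,[(5,0),(10,0),(16,0)]⟩,.k,.k,(.r (-1) ⟨0,[(37,1),(0,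
  0)]⟩ ⟨2,[(1,0),(0,0),(1,4),(15,0),(1,0)]⟩),(.x (-1) ⟨11,[(5,3),(10,3),(2,4),(0,4),(11,1)]⟩ ⟨0,
  [(34,0)]⟩),(.r (-1) ⟨0,[(0,0),(12,0),(0,0),(6,0),(2,0)]⟩ ⟨1,[(1,0),(0,0),(1,2),(15,0),(1,0)]⟩),.k,
  ⟨false,1,⟨0,[(0,0),(12,0),(0,0),(6,0),(2,0)]⟩,⟨13,[(1,9),(2,13),(2,1),(12,3),(11,0),(6,4)]⟩⟩,
  ⟨true,0,⟨0,[(21,0)]⟩,⟨0,[(15,0),(6,0),(1,0)]⟩⟩,⟨false,0,⟨0,[(37,0)]⟩,⟨7,[(7,3),(11,0),(0,0),(11,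
  1),(6,3)]⟩⟩,⟨true,(-1),⟨0,[(1,0),(2,0),(16,0),(15,0)]⟩,⟨3,[(0,1),(12,1),(0,1),(4,0),(2,1),(1,1),
  (7,0)]⟩⟩,⟨true,0,⟨0,[(41,0)]⟩,⟨0,[]⟩⟩,⟨true,(-1),⟨0,[(1,0),(2,0),(16,0)]⟩,⟨3,[(0,1),(12,1),(0,1),
  (4,0),(2,1),(1,1),(7,0),(4,3)]⟩⟩,[.a ⟨true,(-1),⟨0,[(1,0),(2,0),(16,0),(15,1)]⟩,⟨0,[(0,0)]⟩⟩
  ⟨true,0,⟨2,[(6,0),(7,0),(22,4),(3,0)]⟩,⟨1,[(1,0),(0,0),(1,2),(17,0),(16,0)]⟩⟩ ⟨false,0,⟨11,[(1,2),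
  (4,3),(7,3),(5,2),(0,11),(14,0)]⟩,⟨0,[(0,0),(14,0),(8,0)]⟩⟩,.o ⟨false,0,⟨1,[(2,0),(0,0)]⟩,⟨9,[(0,
  5),(3,3),(1,1),(4,0),(1,0),(0,3),(7,3),(1,1),(7,3)]⟩⟩,.o ⟨false,0,⟨0,[(15,0),(8,0)]⟩,⟨3,[(19,0),
  (0,0),(17,1)]⟩⟩,.o ⟨false,0,⟨0,[(24,0),(2,0)]⟩,⟨0,[(38,0)]⟩⟩]⟩)))) (.Q [0,0,0,0,0,1,0,0,0,-1,0,1]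
  (.ed false [0,1,0,1] .k) (.R ⟨0,false,false,true,[1,0,0,-1],[1,0,-1],[0,1,0,0,0,0,0,0,-1],(⟨0,
  [(19,0)]⟩,⟨0,[(20,0)]⟩),(⟨0,[(28,0)]⟩,⟨0,[(29,0)]⟩),⟨0,[(0,0)]⟩,.k,.k,(.x (-1) ⟨11,[(3,3),(10,3),
  (2,4),(0,4),(11,1)]⟩ ⟨0,[(32,0)]⟩),.k,.k,.k,⟨false,0,⟨5,[(1,4),(0,0),(1,2),(4,2),(1,1),(0,1),(6,
  4),(2,4)]⟩,⟨3,[(17,0),(0,2),(8,3)]⟩⟩,⟨true,0,⟨0,[(19,0),(2,0)]⟩,⟨0,[(13,0),(6,0)]⟩⟩,⟨true,0,⟨0,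
  [(39,0)]⟩,⟨0,[]⟩⟩,⟨false,1,⟨5,[(18,2),(0,5),(2,3),(1,3),(0,1),(1,1),(2,0),(6,1)]⟩,⟨1,[(1,1),(7,0),
  (1,0)]⟩⟩,⟨false,0,⟨0,[]⟩,⟨0,[]⟩⟩,⟨false,0,⟨0,[]⟩,⟨0,[]⟩⟩,[.o ⟨false,0,⟨0,[(21,0)]⟩,⟨7,[(16,3),(0,
  0),(0,0),(11,1),(6,3)]⟩⟩,.o ⟨false,1,⟨1,[(24,1),(5,0),(6,0)]⟩,⟨0,[(10,0)]⟩⟩,.o ⟨false,1,⟨1,[(20,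
  1),(9,0),(5,0)]⟩,⟨0,[(13,0),(5,0),(2,0)]⟩⟩,.a ⟨true,0,⟨0,[(20,0)]⟩,⟨0,[(19,0)]⟩⟩ ⟨false,0,⟨5,[(1,
  3),(0,1),(6,2),(1,0),(0,3),(6,3),(2,3)]⟩,⟨1,[(18,0),(6,0),(0,0),(10,0)]⟩⟩ ⟨true,0,⟨0,[(19,0),(1,
  0)]⟩,⟨1,[(9,0),(1,0),(8,1)]⟩⟩]⟩) (.R ⟨1,false,false,true,[1,0,0,-1],[1,0,-1],[0,1,0,-1,0,0,0,0,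
  -1],(⟨0,[(19,0)]⟩,⟨0,[(20,0)]⟩),(⟨0,[(28,0)]⟩,⟨0,[(29,0)]⟩),⟨0,[(0,0)]⟩,.k,.k,(.x (-1) ⟨11,[(3,3),
  (10,3),(2,4),(0,4),(11,1)]⟩ ⟨0,[(32,0)]⟩),.k,(.r 0 ⟨5,[(1,4),(0,0),(1,2),(6,4),(0,1),(6,4),(2,
  4)]⟩ ⟨0,[(2,0),(15,0),(8,0)]⟩),.k,⟨false,0,⟨5,[(1,4),(0,0),(1,2),(6,4),(0,1),(6,4),(2,4)]⟩,⟨7,[(5,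
  3),(11,0),(0,4),(8,7),(2,1)]⟩⟩,⟨true,0,⟨0,[(19,0),(2,0)]⟩,⟨0,[(13,0),(6,0)]⟩⟩,⟨false,0,⟨0,[(35,
  0)]⟩,⟨7,[(5,3),(11,0),(0,0),(11,1),(6,3)]⟩⟩,⟨false,1,⟨5,[(18,2),(0,5),(2,3),(1,3),(0,1),(1,1),(2,
  0),(6,1)]⟩,⟨1,[(1,1),(7,0),(1,0)]⟩⟩,⟨true,0,⟨0,[(39,0)]⟩,⟨0,[]⟩⟩,⟨false,1,⟨9,[(2,1),(2,3),(12,5),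
  (0,9),(2,7),(1,1),(2,7),(2,2),(6,0)]⟩,⟨0,[(1,0),(9,0)]⟩⟩,[.o ⟨false,0,⟨0,[(21,0)]⟩,⟨7,[(16,3),(0,
  0),(0,0),(11,1),(6,3)]⟩⟩,.o ⟨false,1,⟨1,[(24,1),(5,0),(6,0)]⟩,⟨0,[(10,0)]⟩⟩,.o ⟨false,1,⟨1,[(20,
  1),(9,0),(5,0)]⟩,⟨0,[(13,0),(5,0),(2,0)]⟩⟩,.a ⟨true,0,⟨0,[(20,0)]⟩,⟨0,[(19,0)]⟩⟩ ⟨false,0,⟨2,[(1,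
  1),(0,0),(8,1),(0,1),(6,1),(2,1)]⟩,⟨1,[(5,0),(12,0),(3,0),(2,0),(11,0)]⟩⟩ ⟨true,0,⟨0,[(19,0),(1,
  0)]⟩,⟨1,[(9,0),(1,0),(8,1)]⟩⟩]⟩))) (.Q [0,1,-1,0,0,0,0,0,-1,0,0,1] (.p true [0,0,0,1] [] (⟨0,[(18,
  0)]⟩,⟨0,[(17,0)]⟩) .k 0 (⟨0,[]⟩,⟨0,[]⟩) .k .k) (.K ⟨0,[0,0,0,1],0,0,(⟨0,[(19,0)]⟩,⟨0,[(18,0)]⟩),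
  .k,(.x 0 ⟨2,[(2,0),(10,0),(7,0),(2,2),(0,1)]⟩ ⟨0,[(31,0),(3,0)]⟩),(.x 0 ⟨0,[(31,0)]⟩ ⟨11,[(2,3),
  (10,3),(2,4),(0,4),(11,1)]⟩),.k,.k,[⟨0,[(19,0)]⟩,⟨0,[(18,0)]⟩,⟨0,[(0,0)]⟩,⟨0,[(1,0),(16,0),(2,0),
  (2,0),(8,0)]⟩]⟩) (.Q [0,1,1,0,-1,0,0,0,1,0,0,-1] (.p false [0,0,0,1] [] (⟨0,[(19,0)]⟩,⟨0,[(18,
  0)]⟩) .k 0 (⟨0,[]⟩,⟨0,[]⟩) .k .k) (.K ⟨0,[0,0,0,1],0,(-1),(⟨0,[(20,0)]⟩,⟨0,[(19,0)]⟩),.k,(.x 0 ⟨2,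
  [(3,0),(10,0),(7,0),(2,2),(0,1)]⟩ ⟨0,[(32,0),(3,0)]⟩),(.x 0 ⟨0,[(32,0)]⟩ ⟨11,[(3,3),(10,3),(2,4),
  (0,4),(11,1)]⟩),.k,.k,[⟨0,[(20,0)]⟩,⟨0,[(19,0)]⟩,⟨11,[(4,3),(7,3),(4,8),(0,2),(1,11),(13,3)]⟩,⟨0,
  [(0,0)]⟩]⟩) (.Q [0,0,0,0,0,-1,0,0,0,1,0,-1] (.ed true [0,1,0,1] .k) (.R ⟨1,false,false,true,[1,0,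
  0,-1],[1,0,-1],[1,1,0,0,0,0,0,0,-1],(⟨0,[(20,0)]⟩,⟨0,[(21,0)]⟩),(⟨0,[(29,0)]⟩,⟨0,[(30,0)]⟩),⟨0,
  [(0,0)]⟩,.k,.k,(.x (-1) ⟨11,[(4,3),(10,3),(2,4),(0,4),(11,1)]⟩ ⟨0,[(33,0)]⟩),.k,(.r (-1) ⟨1,[(5,
  1),(12,0),(17,1),(1,0)]⟩ ⟨0,[(2,0),(18,0),(6,0),(6,0)]⟩),.k,⟨false,1,⟨1,[(5,1),(12,0),(19,0)]⟩,⟨1,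
  [(2,0),(0,0),(17,0),(6,1),(6,0)]⟩⟩,⟨true,0,⟨0,[(20,0),(2,0)]⟩,⟨0,[(14,0),(6,0)]⟩⟩,⟨false,0,⟨0,[]⟩,
  ⟨3,[(18,0),(0,0),(18,1)]⟩⟩,⟨false,0,⟨0,[(2,0),(22,0)]⟩,⟨1,[(1,1),(8,0),(1,0)]⟩⟩,⟨true,0,⟨0,[(35,
  0)]⟩,⟨0,[(36,0)]⟩⟩,⟨false,0,⟨1,[(2,1),(3,0),(15,0),(2,0)]⟩,⟨0,[(1,0),(10,0)]⟩⟩,[.o ⟨false,0,⟨0,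
  [(22,0)]⟩,⟨7,[(17,3),(0,0),(0,0),(11,1),(6,3)]⟩⟩,.o ⟨false,1,⟨1,[(25,1),(5,0),(6,0)]⟩,⟨0,[(11,
  0)]⟩⟩,.o ⟨false,1,⟨1,[(21,1),(9,0),(5,0)]⟩,⟨0,[(14,0),(5,0),(2,0)]⟩⟩,.a ⟨true,0,⟨0,[(21,0)]⟩,⟨0,
  [(20,0)]⟩⟩ ⟨false,1,⟨1,[(18,0),(18,0)]⟩,⟨0,[(2,0),(18,0)]⟩⟩ ⟨true,0,⟨0,[(20,0),(1,0)]⟩,⟨1,[(10,0),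
  (1,0),(8,1)]⟩⟩]⟩) (.R ⟨0,false,false,true,[1,0,0,-1],[1,0,-1],[0,1,0,0,0,0,0,0,-1],(⟨0,[(20,0)]⟩,
  ⟨0,[(21,0)]⟩),(⟨0,[(29,0)]⟩,⟨0,[(30,0)]⟩),⟨0,[(0,0)]⟩,.k,.k,(.x (-1) ⟨11,[(4,3),(10,3),(2,4),(0,
  4),(11,1)]⟩ ⟨0,[(33,0)]⟩),.k,.k,.k,⟨false,1,⟨1,[(5,1),(12,0),(19,0)]⟩,⟨1,[(2,0),(0,0),(17,0),(6,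
  1),(6,0)]⟩⟩,⟨true,0,⟨0,[(20,0),(2,0)]⟩,⟨0,[(14,0),(6,0)]⟩⟩,⟨true,0,⟨0,[(40,0)]⟩,⟨0,[]⟩⟩,⟨false,0,
  ⟨0,[(2,0),(22,0)]⟩,⟨1,[(1,1),(8,0),(1,0)]⟩⟩,⟨false,0,⟨0,[]⟩,⟨0,[]⟩⟩,⟨false,0,⟨0,[]⟩,⟨0,[]⟩⟩,[.o
  ⟨false,0,⟨0,[(22,0)]⟩,⟨7,[(17,3),(0,0),(0,0),(11,1),(6,3)]⟩⟩,.o ⟨false,1,⟨1,[(25,1),(5,0),(6,0)]⟩,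
  ⟨0,[(11,0)]⟩⟩,.o ⟨false,1,⟨1,[(21,1),(9,0),(5,0)]⟩,⟨0,[(14,0),(5,0),(2,0)]⟩⟩,.a ⟨true,0,⟨0,[(21,
  0)]⟩,⟨0,[(20,0)]⟩⟩ ⟨false,1,⟨1,[(18,0),(18,0)]⟩,⟨0,[(2,0),(18,0)]⟩⟩ ⟨true,0,⟨0,[(20,0),(1,0)]⟩,⟨3,
  [(0,2),(3,0),(10,0),(1,1),(3,0)]⟩⟩]⟩)))))) (.R ⟨1,false,false,false,[0,0,1],[1,-1],[1,1,0,0,0,0,0,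
  1],(⟨0,[(25,0)]⟩,⟨0,[(24,0)]⟩),(⟨0,[(27,0)]⟩,⟨0,[(28,0)]⟩),⟨0,[(2,0)]⟩,.k,.k,.k,.k,.k,.k,⟨false,0,
  ⟨1,[(12,0),(5,0),(3,0),(6,1)]⟩,⟨5,[(0,1),(7,3),(4,0),(0,0),(16,1),(1,3)]⟩⟩,⟨true,0,⟨0,[(18,0)]⟩,
  ⟨2,[(0,0),(2,0),(4,0),(3,0),(2,0),(0,0),(4,0)]⟩⟩,⟨false,0,⟨0,[]⟩,⟨3,[(13,0),(0,0),(18,1)]⟩⟩,
  ⟨false,1,⟨4,[(0,0),(7,1),(9,2),(1,1),(5,0),(4,2),(1,3)]⟩,⟨0,[(11,0)]⟩⟩,⟨true,0,⟨0,[(30,0)]⟩,⟨0,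
  [(31,0)]⟩⟩,⟨false,1,⟨0,[(17,0),(15,0)]⟩,⟨1,[(12,0),(2,0),(0,0)]⟩⟩,[.a ⟨true,0,⟨0,[(31,0)]⟩,⟨0,[(3,
  0)]⟩⟩ ⟨true,0,⟨0,[(7,0),(14,0),(6,0)]⟩,⟨0,[(0,0)]⟩⟩ ⟨false,1,⟨0,[(18,0),(12,0),(0,0)]⟩,⟨2,[(0,0),
  (0,0),(6,0),(2,1),(9,0)]⟩⟩,.o ⟨false,1,⟨1,[(26,0),(4,1),(1,0)]⟩,⟨0,[(30,0)]⟩⟩,.o ⟨false,0,⟨0,[(9,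
  0)]⟩,⟨3,[(13,0),(0,0),(3,3),(13,1)]⟩⟩,.o ⟨false,0,⟨0,[(21,0)]⟩,⟨0,[(18,0),(13,0)]⟩⟩]⟩)))) (.Q [0,
  1,-1,0,0,0,0,0,-1,0,0,1] (.p true [0,0,0,1] [] (⟨0,[(13,0)]⟩,⟨0,[(12,0)]⟩) .k 0 (⟨0,[]⟩,⟨0,[]⟩)
  .k .k) (.Q [0,1,1,0,0,0,0,0,1,0,0,-1] (.p false [0,0,0,1] [] (⟨0,[(14,0)]⟩,⟨0,[(13,0)]⟩) .k 0 (⟨0,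
  []⟩,⟨0,[]⟩) .k .k) (.K ⟨0,[0,0,0,1],0,0,(⟨0,[(15,0)]⟩,⟨0,[(14,0)]⟩),.k,(.x 0 ⟨0,[(17,0),(2,0),(5,
  0)]⟩ ⟨0,[(27,0),(3,0)]⟩),(.x 0 ⟨0,[(27,0)]⟩ ⟨3,[(12,0),(0,0),(11,1),(0,3)]⟩),.k,.k,[⟨0,[(15,0)]⟩,
  ⟨0,[(14,0)]⟩,⟨0,[(1,0)]⟩,⟨0,[(0,0)]⟩]⟩) (.Q [0,0,0,0,0,-1,0,0,0,1,0,-1] (.ed true [0,1,0,1] .k)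
  (.R ⟨1,false,false,true,[1,0,0,-1],[0,1],[0,1,0,-1,0,0,0,0,-1],(⟨0,[(15,0)]⟩,⟨0,[(16,0)]⟩),(⟨0,
  [(28,0)]⟩,⟨0,[(27,0)]⟩),⟨0,[(0,0)]⟩,.k,.k,(.x (-1) ⟨3,[(13,0),(0,0),(11,1),(0,3)]⟩ ⟨0,[(28,0)]⟩),
  (.x (-1) ⟨3,[(13,0),(0,0),(11,1),(0,3)]⟩ ⟨0,[(28,0)]⟩),(.r 0 ⟨0,[(1,0),(5,0),(0,0),(6,0),(2,0)]⟩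
  ⟨1,[(11,1),(2,0),(3,1),(2,0),(0,0),(0,1),(6,1),(2,0)]⟩),.k,⟨false,0,⟨0,[(1,0),(5,0),(0,0),(6,0),
  (2,0)]⟩,⟨1,[(11,1),(2,0),(3,1),(4,1),(6,1),(2,0)]⟩⟩,⟨true,0,⟨0,[(15,0)]⟩,⟨2,[(3,0),(1,0),(10,2),
  (1,1),(2,0),(1,0)]⟩⟩,⟨false,0,⟨0,[(31,0)]⟩,⟨0,[(30,0),(2,0)]⟩⟩,⟨false,1,⟨1,[(14,0),(0,1),(5,0),(0,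
  0),(7,1),(2,0)]⟩,⟨0,[(1,0),(1,0)]⟩⟩,⟨true,0,⟨0,[(35,0)]⟩,⟨0,[]⟩⟩,⟨false,1,⟨1,[(11,1),(2,0),(0,1),
  (2,1),(4,1),(6,1),(2,0)]⟩,⟨0,[(1,0),(1,0),(27,0)]⟩⟩,[.o ⟨false,0,⟨0,[(30,0)]⟩,⟨3,[(3,3),(9,0),(0,
  0),(18,1)]⟩⟩,.o ⟨false,1,⟨3,[(13,0),(0,0),(15,3),(2,1)]⟩,⟨0,[(3,0)]⟩⟩,.o ⟨false,1,⟨1,[(16,1),(9,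
  0),(5,0)]⟩,⟨2,[(3,0),(1,0),(9,2),(2,1),(2,0),(1,0)]⟩⟩,.a ⟨true,0,⟨0,[(16,0)]⟩,⟨0,[(15,0)]⟩⟩
  ⟨false,0,⟨1,[(1,0),(0,0),(0,1),(11,1)]⟩,⟨1,[(11,1),(2,0),(3,1),(4,1),(9,0)]⟩⟩ ⟨true,0,⟨0,[(15,0),
  (14,0)]⟩,⟨0,[(3,0),(12,0)]⟩⟩]⟩) (.R ⟨0,false,false,true,[1,0,0,-1],[0,1],[0,1,0,0,0,0,0,0,-1],(⟨0,
  [(15,0)]⟩,⟨0,[(16,0)]⟩),(⟨0,[(28,0)]⟩,⟨0,[(27,0)]⟩),⟨0,[(0,0)]⟩,.k,.k,(.x (-1) ⟨3,[(13,0),(0,0),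
  (11,1),(0,3)]⟩ ⟨0,[(28,0)]⟩),(.x (-1) ⟨3,[(13,0),(0,0),(11,1),(0,3)]⟩ ⟨0,[(28,0)]⟩),.k,.k,⟨false,
  0,⟨1,[(1,1),(1,0),(3,0),(0,0),(6,1),(2,0),(10,0)]⟩,⟨1,[(14,0),(6,0),(0,0),(7,1),(2,0)]⟩⟩,⟨true,0,
  ⟨0,[(15,0)]⟩,⟨2,[(3,0),(1,0),(10,2),(1,1),(2,0),(1,0)]⟩⟩,⟨true,0,⟨0,[(35,0)]⟩,⟨0,[]⟩⟩,⟨false,1,⟨1,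
  [(14,0),(0,1),(5,0),(0,0),(7,1),(2,0)]⟩,⟨0,[(1,0),(1,0)]⟩⟩,⟨false,0,⟨0,[]⟩,⟨0,[]⟩⟩,⟨false,0,⟨0,
  []⟩,⟨0,[]⟩⟩,[.o ⟨false,0,⟨0,[(30,0)]⟩,⟨3,[(3,3),(9,0),(0,0),(18,1)]⟩⟩,.o ⟨false,1,⟨3,[(13,0),(0,
  0),(15,3),(2,1)]⟩,⟨0,[(3,0)]⟩⟩,.o ⟨false,1,⟨1,[(16,1),(9,0),(5,0)]⟩,⟨2,[(3,0),(1,0),(9,2),(2,1),
  (2,0),(1,0)]⟩⟩,.a ⟨true,0,⟨0,[(16,0)]⟩,⟨0,[(15,0)]⟩⟩ ⟨false,0,⟨3,[(1,2),(0,0),(0,1),(1,1),(9,3),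
  (1,1)]⟩,⟨1,[(14,0),(6,0),(0,0),(10,0)]⟩⟩ ⟨true,0,⟨0,[(15,0),(14,0)]⟩,⟨0,[(3,0),(12,0)]⟩⟩]⟩))) (.I
  [1,1,1,0,-1,0,0,1,1] (.Q [0,1,1,0,-1,0,0,0,1,0,0,-1] (.p false [0,0,0,1] [] (⟨0,[(15,0)]⟩,⟨0,[(14,
  0)]⟩) .k 0 (⟨0,[]⟩,⟨0,[]⟩) .k .k) (.K ⟨0,[0,0,0,1],0,(-1),(⟨0,[(16,0)]⟩,⟨0,[(15,0)]⟩),.k,(.r 0 ⟨0,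
  [(1,0),(6,0),(24,0)]⟩ ⟨1,[(13,0),(7,0),(0,0),(7,1),(2,0)]⟩),(.x 0 ⟨0,[(28,0)]⟩ ⟨3,[(13,0),(0,0),
  (11,1),(0,3)]⟩),.k,.k,[⟨0,[(16,0)]⟩,⟨0,[(15,0)]⟩,⟨1,[(13,0),(2,1),(15,0),(2,1)]⟩,⟨0,[(0,0)]⟩]⟩)
  (.R ⟨2,false,false,true,[0,1],[0,0,0,1],[],(⟨0,[]⟩,⟨0,[]⟩),(⟨0,[(16,0)]⟩,⟨0,[(15,0)]⟩),⟨0,[]⟩,.k,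
  .k,.k,(.r (-1) ⟨1,[(13,0),(7,0),(0,0),(7,1),(2,0)]⟩ ⟨0,[(1,0),(6,0),(24,0)]⟩),.k,.k,⟨true,1,⟨1,
  [(13,0),(19,0)]⟩,⟨0,[(1,0),(21,0)]⟩⟩,⟨false,0,⟨2,[(3,0),(1,0),(9,2),(2,1),(2,0),(1,0)]⟩,⟨0,[(16,
  0),(15,0)]⟩⟩,⟨false,1,⟨1,[(31,1),(0,0),(0,0)]⟩,⟨0,[(11,0),(6,0),(4,0)]⟩⟩,⟨true,(-1),⟨0,[(1,0),(1,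
  0),(11,0),(7,0)]⟩,⟨0,[(0,0),(29,0)]⟩⟩,⟨false,1,⟨1,[(32,0),(0,0)]⟩,⟨1,[(21,0),(0,0)]⟩⟩,⟨false,0,⟨0,
  [(2,0),(32,0)]⟩,⟨0,[(0,0)]⟩⟩,[.a ⟨true,(-1),⟨0,[(1,0),(13,0),(7,0)]⟩,⟨0,[(0,0)]⟩⟩ ⟨false,1,⟨3,
  [(13,0),(0,0),(17,1)]⟩,⟨0,[]⟩⟩ ⟨true,(-1),⟨2,[(1,2),(1,0),(1,0),(9,2),(2,1),(2,0),(1,3)]⟩,⟨0,[(0,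
  0)]⟩⟩,.o ⟨false,0,⟨0,[(2,0),(32,0)]⟩,⟨3,[(0,1),(2,1),(9,0),(2,1),(9,0),(2,1)]⟩⟩,.o ⟨false,1,⟨3,
  [(13,0),(0,0),(17,1)]⟩,⟨2,[(3,0),(1,0),(12,1),(2,0),(1,0)]⟩⟩,.e ⟨false,1,⟨1,[(32,0),(0,0)]⟩,⟨1,
  [(21,0),(0,0)]⟩⟩ ⟨false,0,⟨0,[(2,0),(32,0)]⟩,⟨0,[(0,0)]⟩⟩]⟩)) (.Q [0,0,0,0,0,-1,0,0,0,1,0,-1]
  (.ed true [0,1,0,1] .k) (.Q [0,-1,-1,-1,1,0,0,0,-1,-1,0,1] (.p true [0,0,0,1] [1] (⟨0,[(16,0)]⟩,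
  ⟨0,[(15,0)]⟩) .k 1 (⟨0,[]⟩,⟨0,[]⟩) .k .k) (.R ⟨1,false,false,true,[1,0,0,-1],[0,1],[1,1,0,0,0,0,0,
  0,-1],(⟨0,[(16,0)]⟩,⟨0,[(17,0)]⟩),(⟨0,[(29,0)]⟩,⟨0,[(28,0)]⟩),⟨0,[(1,0)]⟩,.k,.k,(.x (-1) ⟨3,[(14,
  0),(0,0),(11,1),(0,3)]⟩ ⟨0,[(29,0)]⟩),(.x (-1) ⟨3,[(14,0),(0,0),(11,1),(0,3)]⟩ ⟨0,[(29,0)]⟩),(.r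
  (-1) ⟨2,[(0,2),(7,1),(0,1),(6,2),(6,1),(6,0)]⟩ ⟨0,[(3,0),(8,0),(4,0),(1,0),(4,0),(6,0)]⟩),.k,
  ⟨false,1,⟨2,[(0,2),(7,0),(0,0),(6,2),(6,0),(6,1)]⟩,⟨0,[(3,0),(13,0),(13,0)]⟩⟩,⟨true,0,⟨0,[(16,
  0)]⟩,⟨2,[(4,0),(1,0),(10,2),(1,1),(2,0),(1,0)]⟩⟩,⟨false,0,⟨0,[]⟩,⟨3,[(14,0),(0,0),(18,1)]⟩⟩,
  ⟨false,0,⟨0,[(3,0),(8,0),(8,0)]⟩,⟨0,[(0,0)]⟩⟩,⟨true,0,⟨0,[(31,0)]⟩,⟨0,[(32,0)]⟩⟩,⟨false,0,⟨0,[(3,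
  0),(8,0),(10,0),(0,0),(5,0)]⟩,⟨0,[(0,0),(31,0)]⟩⟩,[.o ⟨false,0,⟨0,[(31,0)]⟩,⟨3,[(4,3),(9,0),(0,0),
  (18,1)]⟩⟩,.o ⟨false,1,⟨3,[(14,0),(0,0),(15,3),(2,1)]⟩,⟨0,[(4,0)]⟩⟩,.o ⟨false,1,⟨1,[(17,1),(9,0),
  (5,0)]⟩,⟨2,[(4,0),(1,0),(9,2),(2,1),(2,0),(1,0)]⟩⟩,.a ⟨true,0,⟨0,[(17,0)]⟩,⟨0,[(16,0)]⟩⟩ ⟨false,1,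
  ⟨1,[(14,0),(18,0)]⟩,⟨0,[(3,0),(13,0)]⟩⟩ ⟨true,0,⟨0,[(16,0),(14,0)]⟩,⟨0,[(4,0),(12,0)]⟩⟩]⟩) (.K ⟨0,
  [0,0,0,1],0,(-1),(⟨0,[(17,0)]⟩,⟨0,[(16,0)]⟩),.k,(.x 0 ⟨0,[(19,0),(2,0),(5,0)]⟩ ⟨0,[(29,0),(3,
  0)]⟩),(.x 0 ⟨0,[(29,0)]⟩ ⟨3,[(14,0),(0,0),(11,1),(0,3)]⟩),.k,.k,[⟨0,[(17,0)]⟩,⟨0,[(16,0)]⟩,⟨1,
  [(14,0),(2,1),(15,0),(2,1)]⟩,⟨0,[(0,0),(3,0)]⟩]⟩)) (.I [1,1,0,0,0,0,0,0,-1] (.R ⟨0,false,false,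
  false,[1,0,0,-1],[0,0,1],[],(⟨0,[(16,0)]⟩,⟨0,[(17,0)]⟩),(⟨0,[(26,0)]⟩,⟨0,[(25,0)]⟩),⟨0,[(1,0)]⟩,
  .k,.k,(.x (-1) ⟨3,[(14,0),(0,0),(11,1),(0,3)]⟩ ⟨0,[(29,0)]⟩),.k,.k,.k,⟨true,0,⟨0,[(24,0)]⟩,⟨1,
  [(13,0),(5,0),(3,0)]⟩⟩,⟨false,0,⟨0,[(10,0),(5,0)]⟩,⟨0,[(17,0),(1,0),(13,0)]⟩⟩,⟨true,0,⟨2,[(3,2),
  (4,0),(0,0),(7,2),(5,0),(6,1)]⟩,⟨0,[(0,0)]⟩⟩,⟨false,0,⟨1,[(3,1),(9,0),(2,0),(0,0)]⟩,⟨5,[(2,3),(6,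
  1),(4,0),(2,5),(1,5),(10,1),(2,0)]⟩⟩,⟨false,0,⟨0,[]⟩,⟨0,[]⟩⟩,⟨false,0,⟨0,[]⟩,⟨0,[]⟩⟩,[.o ⟨false,0,
  ⟨0,[(7,0)]⟩,⟨1,[(21,1),(5,0),(6,0)]⟩⟩,.o ⟨false,1,⟨7,[(13,3),(0,0),(0,0),(11,1),(6,3)]⟩,⟨0,[(18,
  0)]⟩⟩,.o ⟨false,1,⟨1,[(17,1),(9,0),(5,0)]⟩,⟨0,[(0,0),(2,0)]⟩⟩,.a ⟨true,0,⟨0,[(17,0)]⟩,⟨0,[(16,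
  0)]⟩⟩ ⟨false,1,⟨1,[(33,0),(0,0)]⟩,⟨1,[(22,0),(0,0)]⟩⟩ ⟨true,0,⟨2,[(4,0),(1,0),(6,0),(2,2)]⟩,⟨0,
  [(17,0),(0,0)]⟩⟩]⟩) (.R ⟨0,false,false,false,[1,0,0,-1],[0,1,1],[0,1,0,0,0,0,0,0,-1],(⟨0,[(16,
  0)]⟩,⟨0,[(17,0)]⟩),(⟨0,[(26,0),(2,0)]⟩,⟨0,[(11,0)]⟩),⟨0,[(1,0)]⟩,.k,.k,(.x (-1) ⟨3,[(14,0),(0,0),
  (11,1),(0,3)]⟩ ⟨0,[(29,0)]⟩),(.r (-1) ⟨23,[(2,11),(6,7),(4,8),(0,2),(5,3),(0,3),(9,15)]⟩ ⟨1,[(0,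
  1),(12,0),(5,0),(3,0),(7,1)]⟩),.k,.k,⟨false,1,⟨3,[(9,3),(4,2),(0,0)]⟩,⟨0,[(0,0),(11,0),(6,0)]⟩⟩,
  ⟨true,0,⟨0,[(10,0),(5,0)]⟩,⟨0,[(17,0),(1,0)]⟩⟩,⟨true,0,⟨0,[(36,0)]⟩,⟨0,[]⟩⟩,⟨false,0,⟨0,[(3,0),(8,
  0)]⟩,⟨1,[(9,1),(4,0),(2,1),(1,1),(14,0)]⟩⟩,⟨false,0,⟨0,[]⟩,⟨0,[]⟩⟩,⟨false,0,⟨0,[]⟩,⟨0,[]⟩⟩,[.o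
  ⟨false,0,⟨0,[(6,0)]⟩,⟨3,[(4,3),(9,0),(0,0),(5,3),(12,1)]⟩⟩,.o ⟨false,1,⟨3,[(6,3),(7,0),(0,0),(18,
  1)]⟩,⟨0,[(4,0),(16,0)]⟩⟩,.o ⟨false,1,⟨1,[(17,1),(9,0),(5,0)]⟩,⟨2,[(4,0),(1,0),(9,2),(2,1),(2,0),
  (1,0)]⟩⟩,.a ⟨true,0,⟨0,[(17,0)]⟩,⟨0,[(16,0)]⟩⟩ ⟨false,1,⟨1,[(14,0),(18,0)]⟩,⟨0,[(3,0),(13,0)]⟩⟩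
  ⟨true,0,⟨0,[(6,0),(9,0)]⟩,⟨0,[(4,0),(12,0),(3,0)]⟩⟩]⟩)))))))))

theorem ok2 : chk (cU (-1) true 3) t2 l4 = true := by decide +kernel

noncomputable def t3 : Tre :=
  (.I [0,0,-1,-1,0,0,0,-2] (.Q [0,0,0,-1,0,0,-2,-2,0,-1,2] (.p true [0,0,1] [1,0,-1] (⟨0,[(19,0)]⟩,
  ⟨0,[(18,0)]⟩) .k 2 (⟨0,[(18,0)]⟩,⟨0,[(19,0)]⟩) .k (.r (-1) ⟨0,[(6,0),(5,0),(3,0),(9,0)]⟩ ⟨0,[(17,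
  1)]⟩)) (.K ⟨2,[1,-1,-1],0,0,(⟨0,[(5,0)]⟩,⟨0,[(20,0),(2,0)]⟩),.k,(.r (-1) ⟨3,[(3,3),(4,0),(0,0),
  (16,3),(1,1)]⟩ ⟨1,[(2,0),(3,2),(6,2),(2,0)]⟩),.k,(.r 0 ⟨0,[(1,0)]⟩ ⟨3,[(6,3),(0,1),(0,0),(0,0),(3,
  5),(3,1),(9,1)]⟩),.k,[⟨0,[(0,0)]⟩,⟨0,[(6,0),(23,0)]⟩,⟨5,[(1,1),(4,1),(0,0),(2,2),(0,2),(4,1)]⟩,⟨1,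
  [(13,1),(2,0),(0,0)]⟩]⟩) (.Q [0,0,0,0,0,2,0,0,0,-1,1] (.p true [0,0,1] [1] (⟨0,[(20,0)]⟩,⟨0,[(19,
  0)]⟩) .k 1 (⟨0,[]⟩,⟨0,[]⟩) .k .k) (.R ⟨0,false,false,false,[1,-1,-1],[1,-1],[0,0,1],(⟨0,[(6,0)]⟩,
  ⟨0,[(21,0),(2,0)]⟩),(⟨0,[(23,0)]⟩,⟨0,[(24,0)]⟩),⟨0,[(0,0)]⟩,.k,.k,(.r (-1) ⟨3,[(4,3),(4,0),(0,0),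
  (16,3),(1,1)]⟩ ⟨1,[(3,0),(3,2),(6,2),(2,0)]⟩),.k,.k,.k,⟨false,0,⟨1,[(3,0),(3,0),(6,0),(2,0)]⟩,⟨0,
  [(27,0),(0,0)]⟩⟩,⟨true,0,⟨0,[(5,0)]⟩,⟨0,[(18,0)]⟩⟩,⟨true,0,⟨1,[(7,1),(6,1),(2,0),(0,0)]⟩,⟨0,[(4,
  0)]⟩⟩,⟨false,1,⟨7,[(8,3),(0,0),(0,0),(11,1),(6,3)]⟩,⟨0,[(3,0),(23,0)]⟩⟩,⟨false,0,⟨0,[]⟩,⟨0,[]⟩⟩,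
  ⟨false,0,⟨0,[]⟩,⟨0,[]⟩⟩,[.a ⟨true,0,⟨0,[(27,0)]⟩,⟨1,[(3,0),(3,0),(3,0),(0,0)]⟩⟩ ⟨true,0,⟨1,[(17,
  0),(0,0)]⟩,⟨0,[]⟩⟩ ⟨false,1,⟨7,[(4,7),(3,3),(0,0),(0,0),(11,1),(6,3)]⟩,⟨1,[(3,0),(3,0),(6,0),(3,
  0)]⟩⟩,.o ⟨false,1,⟨1,[(22,0),(4,1),(1,0)]⟩,⟨0,[(26,0)]⟩⟩,.o ⟨false,0,⟨0,[(14,0)]⟩,⟨3,[(1,1),(0,1),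
  (6,0),(0,0),(11,0),(5,0)]⟩⟩,.o ⟨false,0,⟨1,[(14,1),(2,0),(0,0)]⟩,⟨3,[(1,1),(0,1),(19,0),(5,
  2)]⟩⟩]⟩) (.Q [0,0,0,-2,0,0,-2,-2,0,-1,2] (.p true [0,0,1] [1,0,-1] (⟨0,[(21,0)]⟩,⟨0,[(20,0)]⟩) .k
  2 (⟨0,[(20,0)]⟩,⟨0,[(21,0)]⟩) .k (.r (-1) ⟨0,[(8,0),(5,0),(3,0),(9,0)]⟩ ⟨0,[(19,1)]⟩)) (.R ⟨1,
  true,false,false,[1,0,-1],[0,1,1],[1,1,0,0,0,0,0,-1],(⟨0,[(21,0)]⟩,⟨0,[(22,0)]⟩),(⟨0,[(22,0),(2,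
  0)]⟩,⟨0,[(7,0)]⟩),⟨0,[(7,0)]⟩,.k,.k,.k,(.r 0 ⟨0,[(3,0)]⟩ ⟨3,[(2,3),(7,0),(0,0),(3,3),(3,3),(9,
  1)]⟩),(.r (-1) ⟨2,[(3,1),(1,1),(4,0),(0,0),(16,1),(1,0)]⟩ ⟨0,[(8,1),(6,1)]⟩),.k,⟨false,0,⟨2,[(3,
  1),(1,1),(21,0)]⟩,⟨1,[(2,1),(12,1),(3,1),(9,0),(0,0)]⟩⟩,⟨true,0,⟨0,[(2,0),(0,0)]⟩,⟨0,[(15,0),(3,
  0)]⟩⟩,⟨false,0,⟨0,[]⟩,⟨3,[(10,0),(0,0),(18,1)]⟩⟩,⟨true,0,⟨0,[(2,0)]⟩,⟨1,[(0,0),(13,0),(2,0)]⟩⟩,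
  ⟨true,0,⟨0,[(27,0)]⟩,⟨0,[(28,0)]⟩⟩,⟨false,1,⟨0,[(2,0),(24,0),(2,0)]⟩,⟨0,[(0,0)]⟩⟩,[]⟩) (.R ⟨1,
  false,false,false,[1,0,-1],[0,1,1],[1,1,0,0,0,0,0,-1],(⟨0,[(21,0)]⟩,⟨0,[(22,0)]⟩),(⟨0,[(22,0),(2,
  0)]⟩,⟨0,[(7,0)]⟩),⟨0,[(7,0)]⟩,.k,.k,.k,(.r 0 ⟨0,[(3,0)]⟩ ⟨3,[(2,3),(7,0),(0,0),(3,3),(3,3),(9,
  1)]⟩),(.r (-1) ⟨2,[(3,1),(1,1),(4,0),(0,0),(16,1),(1,0)]⟩ ⟨0,[(0,0),(14,0),(3,0)]⟩),.k,⟨false,0,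
  ⟨2,[(3,1),(1,1),(21,0)]⟩,⟨1,[(2,1),(12,1),(3,1),(9,0),(0,0)]⟩⟩,⟨true,0,⟨0,[(2,0),(0,0)]⟩,⟨0,[(15,
  0),(3,0)]⟩⟩,⟨false,0,⟨0,[]⟩,⟨3,[(10,0),(0,0),(18,1)]⟩⟩,⟨true,0,⟨0,[(2,0)]⟩,⟨1,[(3,0),(1,0),(9,1),
  (1,0),(1,0)]⟩⟩,⟨true,0,⟨0,[(27,0)]⟩,⟨0,[(28,0)]⟩⟩,⟨true,0,⟨0,[(0,0)]⟩,⟨1,[(3,0),(1,0),(9,1),(1,0),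
  (1,0),(8,1)]⟩⟩,[.a ⟨true,0,⟨0,[(8,0)]⟩,⟨0,[(4,0),(23,1)]⟩⟩ ⟨false,0,⟨2,[(3,0),(1,0),(21,1)]⟩,⟨1,
  [(9,0),(5,0),(3,0),(9,0),(0,0)]⟩⟩ ⟨true,0,⟨2,[(0,0),(1,0),(0,0),(4,0),(9,0)]⟩,⟨0,[(4,0),(10,0),
  (12,1)]⟩⟩,.o ⟨false,1,⟨7,[(0,3),(9,0),(0,0),(11,1),(6,3)]⟩,⟨0,[(14,0),(13,0)]⟩⟩,.o ⟨false,1,⟨3,
  [(10,0),(0,0),(3,3),(13,1)]⟩,⟨0,[(6,0)]⟩⟩,.o ⟨false,0,⟨0,[(15,0)]⟩,⟨3,[(2,1),(0,1),(6,0),(0,0),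
  (11,0),(5,0)]⟩⟩]⟩)))) (.Q [0,0,0,0,0,2,0,0,0,-1,1] (.p true [0,0,1] [1] (⟨0,[(19,0)]⟩,⟨0,[(18,
  0)]⟩) .k 1 (⟨0,[]⟩,⟨0,[]⟩) .k .k) (.R ⟨0,false,false,false,[1,-1,-1],[1,-1],[0,0,1],(⟨0,[(5,0)]⟩,
  ⟨1,[(0,0),(9,0),(0,0),(8,0)]⟩),(⟨0,[(22,0)]⟩,⟨0,[(23,0)]⟩),⟨0,[(0,0)]⟩,.k,.k,(.r (-1) ⟨3,[(3,3),
  (4,0),(0,0),(16,3),(1,1)]⟩ ⟨0,[(1,0),(0,0),(13,0)]⟩),.k,.k,.k,⟨false,0,⟨2,[(1,0),(0,1),(13,1)]⟩,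
  ⟨0,[(26,0),(0,0)]⟩⟩,⟨true,0,⟨0,[(4,0)]⟩,⟨0,[(17,0)]⟩⟩,⟨true,0,⟨5,[(1,3),(0,1),(13,4),(0,2)]⟩,⟨0,
  [(3,0)]⟩⟩,⟨false,1,⟨7,[(7,3),(0,0),(0,0),(11,1),(6,3)]⟩,⟨0,[(2,0),(23,0)]⟩⟩,⟨false,0,⟨0,[]⟩,⟨0,
  []⟩⟩,⟨false,0,⟨0,[]⟩,⟨0,[]⟩⟩,[.a ⟨true,0,⟨0,[(26,0)]⟩,⟨1,[(2,0),(3,0),(3,0),(0,0)]⟩⟩ ⟨true,0,⟨1,
  [(16,0),(0,0)]⟩,⟨0,[]⟩⟩ ⟨false,1,⟨7,[(3,7),(3,3),(0,0),(0,0),(11,1),(6,3)]⟩,⟨5,[(1,1),(0,3),(13,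
  0),(0,2)]⟩⟩,.o ⟨false,1,⟨1,[(21,0),(4,1),(1,0)]⟩,⟨0,[(25,0)]⟩⟩,.o ⟨false,0,⟨0,[(13,0)]⟩,⟨0,[(16,
  0),(10,0)]⟩⟩,.o ⟨false,0,⟨1,[(13,1),(2,0),(0,0)]⟩,⟨0,[(4,0),(22,0)]⟩⟩]⟩) (.Q [0,0,0,-2,0,0,1,1,0,
  0,-1] (.p false [0,0,1] [] (⟨0,[(20,0)]⟩,⟨0,[(19,0)]⟩) .k 0 (⟨0,[]⟩,⟨0,[]⟩) .k .k) (.R ⟨1,false,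
  false,false,[1,-1],[1,0,-1],[1,0,0,0,0,0,0,-1],(⟨0,[(23,0)]⟩,⟨0,[(24,0)]⟩),(⟨0,[(20,0)]⟩,⟨0,[(21,
  0)]⟩),⟨0,[(1,0),(19,0)]⟩,.k,.k,(.r (-1) ⟨2,[(0,1),(3,1),(13,1),(9,1),(0,0)]⟩ ⟨2,[(2,1),(0,3),(13,
  3)]⟩),.k,(.r (-1) ⟨5,[(0,3),(1,5),(1,9),(13,3),(9,0),(0,4)]⟩ ⟨2,[(2,0),(0,4),(13,4)]⟩),.k,⟨true,0,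
  ⟨0,[]⟩,⟨1,[(17,0),(0,0)]⟩⟩,⟨false,1,⟨3,[(2,3),(0,1),(0,5),(13,1),(9,0),(0,2)]⟩,⟨0,[(17,0)]⟩⟩,
  ⟨true,0,⟨0,[(3,0),(13,0)]⟩,⟨0,[(2,0),(1,0),(22,0)]⟩⟩,⟨true,0,⟨0,[(3,0)]⟩,⟨1,[(0,0),(14,0),(15,
  0)]⟩⟩,⟨true,0,⟨2,[(2,0),(0,4),(1,2),(11,1)]⟩,⟨0,[(2,0),(1,0),(22,1)]⟩⟩,⟨false,1,⟨0,[(3,0),(22,0),
  (2,0)]⟩,⟨0,[(0,0)]⟩⟩,[.a ⟨true,0,⟨0,[(3,0),(23,0)]⟩,⟨1,[(8,0),(2,0),(0,0)]⟩⟩ ⟨true,0,⟨0,[(19,0)]⟩,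
  ⟨4,[(0,0),(1,1),(14,0),(0,1)]⟩⟩ ⟨false,1,⟨3,[(3,1),(0,1),(13,1),(9,2),(0,0)]⟩,⟨4,[(0,0),(1,1),(2,
  0),(11,2)]⟩⟩,.o ⟨false,1,⟨0,[(13,0),(15,0)]⟩,⟨0,[(15,0)]⟩⟩,.o ⟨false,0,⟨0,[(5,0),(8,0)]⟩,⟨3,[(9,
  0),(0,0),(17,1)]⟩⟩,.o ⟨false,0,⟨0,[(14,0),(2,0)]⟩,⟨0,[(28,0)]⟩⟩]⟩) (.I [0,-1,2,1] (.R ⟨1,false,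
  false,false,[1,-1],[1,0,-1],[1,1,-1,-1],(⟨0,[(24,0)]⟩,⟨0,[(25,0)]⟩),(⟨0,[(21,0)]⟩,⟨0,[(22,0)]⟩),
  ⟨0,[(2,0),(19,0)]⟩,.k,.k,(.r (-1) ⟨0,[(28,1),(0,0)]⟩ ⟨0,[(0,0),(26,0)]⟩),.k,(.r (-1) ⟨1,[(3,1),(1,
  1),(22,3),(0,0),(0,0)]⟩ ⟨5,[(0,2),(0,3),(15,1),(0,5),(8,0)]⟩),.k,⟨true,0,⟨0,[(3,0),(1,0),(22,0)]⟩,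
  ⟨0,[(0,0),(19,0)]⟩⟩,⟨false,1,⟨3,[(3,3),(0,1),(0,5),(13,1),(9,0),(0,2)]⟩,⟨0,[(18,0)]⟩⟩,⟨false,0,⟨0,
  []⟩,⟨3,[(10,0),(0,0),(18,1)]⟩⟩,⟨true,0,⟨0,[(4,0)]⟩,⟨0,[(16,0),(11,0)]⟩⟩,⟨true,0,⟨0,[(27,0)]⟩,⟨0,
  [(28,0)]⟩⟩,⟨true,0,⟨0,[(1,0)]⟩,⟨0,[(16,0),(11,1)]⟩⟩,[.a ⟨true,0,⟨0,[(4,0),(23,0)]⟩,⟨1,[(9,0),(2,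
  0),(0,0)]⟩⟩ ⟨true,0,⟨2,[(3,0),(1,1),(22,1),(3,0)]⟩,⟨0,[(0,0)]⟩⟩ ⟨false,1,⟨3,[(4,1),(0,1),(13,1),
  (9,2),(0,0)]⟩,⟨1,[(9,0),(5,0),(2,0)]⟩⟩,.o ⟨false,1,⟨0,[(14,0),(15,0)]⟩,⟨0,[(16,0)]⟩⟩,.o ⟨false,0,
  ⟨0,[(6,0),(8,0)]⟩,⟨3,[(10,0),(0,0),(17,1)]⟩⟩,.o ⟨false,0,⟨0,[(15,0),(2,0)]⟩,⟨0,[(29,0)]⟩⟩]⟩) (.Q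
  [0,0,0,0,0,1,0,0,0,0,-1] (.ed true [1,-1,1] .k) (.R ⟨0,false,false,false,[0,0,1],[1,-1],[0,0,1],
  (⟨0,[(23,0)]⟩,⟨0,[(22,0)]⟩),(⟨0,[(25,0)]⟩,⟨0,[(26,0)]⟩),⟨0,[(0,0)]⟩,.k,.k,.k,.k,.k,.k,⟨false,0,⟨4,
  [(2,1),(1,0),(14,2),(0,0)]⟩,⟨3,[(1,3),(9,0),(0,0),(18,1)]⟩⟩,⟨true,0,⟨0,[(16,0)]⟩,⟨1,[(10,0),(2,0),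
  (0,0),(6,1)]⟩⟩,⟨true,0,⟨1,[(19,0),(0,0),(0,1)]⟩,⟨3,[(1,2),(2,1),(23,0)]⟩⟩,⟨false,1,⟨0,[(15,0),(13,
  0),(1,0)]⟩,⟨0,[(9,0)]⟩⟩,⟨false,0,⟨0,[]⟩,⟨0,[]⟩⟩,⟨false,0,⟨0,[]⟩,⟨0,[]⟩⟩,[.a ⟨true,0,⟨0,[(29,0)]⟩,
  ⟨2,[(2,0),(6,0),(3,1),(0,1)]⟩⟩ ⟨true,0,⟨1,[(19,0),(0,0)]⟩,⟨0,[]⟩⟩ ⟨false,1,⟨3,[(1,3),(9,0),(0,0),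
  (3,3),(14,1)]⟩,⟨0,[(9,0),(11,0)]⟩⟩,.o ⟨false,1,⟨1,[(24,0),(4,1),(1,0)]⟩,⟨0,[(28,0)]⟩⟩,.o ⟨false,0,
  ⟨0,[(7,0)]⟩,⟨3,[(11,0),(0,0),(3,3),(13,1)]⟩⟩,.o ⟨false,0,⟨0,[(19,0)]⟩,⟨0,[(16,0),(13,0)]⟩⟩]⟩) (.Q
  [0,0,0,0,0,-2,0,0,0,0,1] (.p true [0,0,1] [] (⟨0,[(23,0)]⟩,⟨0,[(22,0)]⟩) .k 0 (⟨0,[]⟩,⟨0,[]⟩) .k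
  .k) (.I [0,-1,2,1,0,0,0,-1] (.R ⟨1,false,false,false,[0,-1,1],[1,0,-1],[1,1,-1,-1,0,0,0,1],(⟨0,
  [(2,0)]⟩,⟨0,[(24,0),(3,0)]⟩),(⟨0,[(24,0)]⟩,⟨0,[(25,0)]⟩),⟨0,[(1,0)]⟩,.k,.k,(.r (-1) ⟨15,[(3,19),
  (2,7),(6,2),(0,2),(16,19),(1,9)]⟩ ⟨0,[(0,0),(29,0)]⟩),(.r (-1) ⟨3,[(3,3),(2,3),(6,0),(0,0),(16,3),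
  (1,1)]⟩ ⟨3,[(0,4),(7,2),(21,1)]⟩),(.r (-1) ⟨7,[(3,11),(2,7),(6,0),(0,0),(16,11),(1,5)]⟩ ⟨1,[(0,2),
  (7,0),(21,1)]⟩),.k,⟨true,0,⟨0,[(3,0),(2,0),(24,0)]⟩,⟨1,[(0,2),(7,0)]⟩⟩,⟨false,1,⟨5,[(3,9),(0,3),
  (1,1),(11,5),(3,1),(9,0),(0,4)]⟩,⟨1,[(0,0),(7,0),(3,0),(2,0),(0,0),(4,1)]⟩⟩,⟨false,0,⟨0,[]⟩,⟨3,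
  [(13,0),(0,0),(18,1)]⟩⟩,⟨false,1,⟨0,[(7,0),(9,0),(15,0)]⟩,⟨0,[(12,0),(18,0)]⟩⟩,⟨true,0,⟨0,[(30,
  0)]⟩,⟨0,[(31,0)]⟩⟩,⟨false,1,⟨0,[(4,0),(12,0),(15,0)]⟩,⟨0,[(12,0),(18,1)]⟩⟩,[.a ⟨true,0,⟨0,[(7,0),
  (23,0)]⟩,⟨1,[(12,0),(2,0),(0,0)]⟩⟩ ⟨true,0,⟨4,[(3,3),(2,1),(12,0),(2,0),(8,2)]⟩,⟨0,[(0,0)]⟩⟩
  ⟨false,1,⟨1,[(3,1),(3,1),(10,1),(13,0),(0,0)]⟩,⟨1,[(12,0),(2,0),(0,0),(4,1)]⟩⟩,.o ⟨false,1,⟨0,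
  [(17,0),(15,0)]⟩,⟨0,[(19,0)]⟩⟩,.o ⟨false,0,⟨0,[(21,0)]⟩,⟨0,[(18,0),(13,0)]⟩⟩,.o ⟨false,0,⟨1,[(21,
  2),(0,0)]⟩,⟨7,[(3,9),(0,3),(1,1),(11,3),(7,1),(5,0),(0,4)]⟩⟩]⟩) (.I [0,0,-1,-1,0,0,0,0,1] (.Q [0,
  -1,1,0,0,0,0,0,1,0,0,-1] (.p false [0,0,0,1] [] (⟨0,[(17,0)]⟩,⟨0,[(16,0)]⟩) .k 0 (⟨0,[]⟩,⟨0,[]⟩)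
  .k .k) (.Q [0,1,1,0,-1,0,0,0,1,0,0,-1] (.p false [0,0,0,1] [] (⟨0,[(18,0)]⟩,⟨0,[(17,0)]⟩) .k 0
  (⟨0,[]⟩,⟨0,[]⟩) .k .k) (.K ⟨0,[0,0,0,1],0,(-1),(⟨0,[(19,0)]⟩,⟨0,[(18,0)]⟩),.k,(.r 0 ⟨0,[(2,0)]⟩
  ⟨19,[(7,7),(1,3),(6,14),(0,4),(6,11),(0,3)]⟩),(.x 0 ⟨0,[(31,0)]⟩ ⟨15,[(4,3),(3,3),(7,6),(0,6),(11,
  1)]⟩),.k,.k,[⟨0,[(19,0)]⟩,⟨0,[(18,0)]⟩,⟨3,[(3,0),(7,0),(4,2),(0,0),(1,3),(13,1)]⟩,⟨0,[(0,0)]⟩]⟩)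
  (.Q [0,1,1,-1,-1,0,0,0,1,0,0,-1] (.p false [0,0,0,1] [] (⟨0,[(19,0)]⟩,⟨0,[(18,0)]⟩) .k 0 (⟨0,[]⟩,
  ⟨0,[]⟩) .k .k) (.R ⟨2,false,false,true,[0,1],[0,0,0,1],[1,1,0,0,0,0,0,0,1],(⟨0,[]⟩,⟨0,[]⟩),(⟨0,
  [(20,0)]⟩,⟨0,[(19,0)]⟩),⟨0,[]⟩,.k,.k,.k,(.r (-1) ⟨19,[(8,7),(1,3),(6,14),(0,4),(6,11),(0,3)]⟩ ⟨0,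
  [(3,0)]⟩),.k,.k,⟨true,0,⟨0,[]⟩,⟨1,[(25,0),(0,0)]⟩⟩,⟨false,0,⟨0,[(13,0),(5,0),(2,0)]⟩,⟨0,[(20,0),
  (15,0)]⟩⟩,⟨false,0,⟨0,[(3,0)]⟩,⟨9,[(8,3),(1,1),(6,4),(7,5),(0,1),(10,4)]⟩⟩,⟨true,(-1),⟨0,[(0,0)]⟩,
  ⟨0,[(1,0),(32,0)]⟩⟩,⟨false,0,⟨1,[(2,0),(0,0),(0,0),(3,0),(4,0),(6,0)]⟩,⟨1,[(17,0),(7,0),(0,0),(10,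
  0)]⟩⟩,⟨false,0,⟨5,[(0,1),(1,3),(14,0),(0,0),(15,1)]⟩,⟨0,[(1,0)]⟩⟩,[.a ⟨true,(-1),⟨2,[(0,2),(7,0),
  (6,0),(3,1),(0,1)]⟩,⟨0,[(1,0)]⟩⟩ ⟨false,0,⟨17,[(0,3),(2,5),(0,0),(7,0),(5,3),(1,3),(12,11)]⟩,⟨1,
  [(17,0),(19,0)]⟩⟩ ⟨true,(-1),⟨4,[(0,4),(7,1),(1,0),(14,2),(0,0)]⟩,⟨0,[(1,0)]⟩⟩,.o ⟨false,0,⟨5,[(0,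
  1),(1,3),(14,0),(0,0),(15,1)]⟩,⟨7,[(1,5),(2,1),(8,5),(3,0),(2,1),(0,1),(0,3),(7,0),(2,1)]⟩⟩,.o
  ⟨false,1,⟨3,[(17,0),(0,0),(17,1)]⟩,⟨0,[(13,0),(8,0)]⟩⟩,.e ⟨false,0,⟨1,[(2,0),(0,0),(0,0),(3,0),(4,
  0),(6,0)]⟩,⟨1,[(17,0),(7,0),(0,0),(10,0)]⟩⟩ ⟨false,0,⟨5,[(0,1),(1,3),(14,0),(0,0),(15,1)]⟩,⟨0,[(1,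
  0)]⟩⟩]⟩) (.I [1,-1,-1,0,1,0,0,0,-1] (.Q [0,0,0,0,0,-1,0,0,0,1,0,-1] (.ed true [0,1,0,1] .k) (.Q
  [0,0,0,1,0,0,0,0,0,1,0,-1] (.p false [0,0,0,1] [1] (⟨0,[(22,0)]⟩,⟨0,[(21,0)]⟩) .k 1 (⟨0,[]⟩,⟨0,
  []⟩) .k .k) (.R ⟨1,false,false,false,[1,0,0,-1],[0,1],[1,0,0,0,0,0,0,0,-1],(⟨0,[(22,0)]⟩,⟨0,[(23,
  0)]⟩),(⟨0,[(35,0)]⟩,⟨0,[(34,0)]⟩),⟨0,[(1,0)]⟩,.k,.k,(.r (-1) ⟨7,[(7,1),(7,1),(4,4),(0,0),(16,3),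
  (1,1)]⟩ ⟨0,[(5,0),(17,0),(13,0)]⟩),(.r (-1) ⟨7,[(7,1),(7,1),(4,4),(0,0),(16,3),(1,1)]⟩ ⟨0,[(5,0),
  (17,0),(13,0)]⟩),(.r (-1) ⟨1,[(7,0),(7,0),(4,0),(17,1),(1,0)]⟩ ⟨4,[(5,4),(5,1),(1,0),(9,4),(4,2),
  (0,0),(7,4)]⟩),.k,⟨false,1,⟨1,[(7,0),(7,0),(4,0),(19,0)]⟩,⟨0,[(5,0),(17,0),(13,0)]⟩⟩,⟨true,0,⟨0,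
  [(22,0)]⟩,⟨0,[(16,0),(6,0),(1,0)]⟩⟩,⟨true,0,⟨0,[]⟩,⟨0,[(42,0)]⟩⟩,⟨false,0,⟨2,[(5,2),(5,0),(6,0),
  (3,1),(0,1)]⟩,⟨3,[(4,1),(2,0),(7,0),(0,1),(3,0),(2,1),(1,1),(7,0),(4,1)]⟩⟩,⟨false,1,⟨5,[(11,1),(6,
  1),(1,0),(0,0),(11,0),(6,2)]⟩,⟨0,[(38,0)]⟩⟩,⟨false,0,⟨2,[(5,2),(5,1),(6,1),(3,0),(0,0)]⟩,⟨3,[(4,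
  1),(2,0),(7,0),(0,1),(3,0),(2,1),(1,1),(7,0),(4,5)]⟩⟩,[.e ⟨false,1,⟨1,[(20,0),(18,0)]⟩,⟨1,[(5,0),
  (0,0),(16,0),(13,0)]⟩⟩ ⟨false,0,⟨0,[(0,0)]⟩,⟨5,[(4,1),(2,0),(7,0),(5,0),(1,3),(9,2),(4,3)]⟩⟩,.o
  ⟨false,1,⟨5,[(11,1),(6,1),(1,0),(0,0),(11,0),(6,2)]⟩,⟨1,[(7,0),(7,0),(9,1),(2,1)]⟩⟩,.o ⟨false,1,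
  ⟨5,[(3,1),(3,0),(7,0),(5,0),(1,3),(9,2)]⟩,⟨0,[(16,0),(5,0),(2,0)]⟩⟩,.a ⟨true,0,⟨0,[(23,0)]⟩,⟨0,
  [(22,0)]⟩⟩ ⟨false,1,⟨0,[(2,0)]⟩,⟨0,[(5,0),(17,0),(18,0)]⟩⟩ ⟨true,0,⟨0,[(0,0)]⟩,⟨1,[(7,0),(7,0),(7,
  1),(1,1),(2,1)]⟩⟩]⟩) (.R ⟨1,false,false,false,[1,0,0,-1],[0,1],[1,0,0,0,0,0,0,0,-1],(⟨0,[(22,0)]⟩,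
  ⟨0,[(23,0)]⟩),(⟨0,[(35,0)]⟩,⟨0,[(34,0)]⟩),⟨0,[(1,0)]⟩,.k,.k,(.r (-1) ⟨7,[(7,1),(7,1),(4,4),(0,0),
  (16,3),(1,1)]⟩ ⟨0,[(5,0),(17,0),(13,0)]⟩),(.r (-1) ⟨7,[(7,1),(7,1),(4,4),(0,0),(16,3),(1,1)]⟩ ⟨0,
  [(5,0),(17,0),(13,0)]⟩),(.r (-1) ⟨1,[(7,0),(7,0),(4,0),(17,1),(1,0)]⟩ ⟨4,[(5,4),(5,1),(1,0),(9,4),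
  (4,2),(0,0),(7,4)]⟩),.k,⟨false,1,⟨1,[(7,0),(7,0),(4,0),(19,0)]⟩,⟨0,[(5,0),(17,0),(13,0)]⟩⟩,⟨true,
  0,⟨0,[(22,0)]⟩,⟨6,[(0,4),(10,1),(1,0),(9,1),(1,1),(2,3)]⟩⟩,⟨true,0,⟨0,[]⟩,⟨0,[(42,0)]⟩⟩,⟨false,0,
  ⟨2,[(5,2),(5,0),(6,0),(3,1),(0,1)]⟩,⟨11,[(0,7),(3,3),(2,1),(7,1),(4,4),(0,0),(11,1)]⟩⟩,⟨false,1,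
  ⟨5,[(11,1),(6,1),(1,0),(0,0),(11,0),(6,2)]⟩,⟨0,[(38,0)]⟩⟩,⟨false,0,⟨2,[(5,2),(5,1),(6,1),(3,0),(0,
  0)]⟩,⟨7,[(0,7),(6,1),(7,1),(4,4),(0,0),(16,3),(1,1)]⟩⟩,[.a ⟨true,0,⟨2,[(11,0),(6,0),(3,1),(0,1)]⟩,
  ⟨0,[(38,0)]⟩⟩ ⟨false,1,⟨1,[(20,0),(18,0)]⟩,⟨1,[(5,0),(0,0),(16,0),(13,0)]⟩⟩ ⟨true,0,⟨4,[(11,1),(1,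
  0),(8,4),(5,2),(0,0)]⟩,⟨0,[(0,0)]⟩⟩,.o ⟨false,1,⟨5,[(11,1),(6,1),(1,0),(0,0),(11,0),(6,2)]⟩,⟨1,
  [(7,0),(7,0),(9,1),(2,1)]⟩⟩,.o ⟨false,1,⟨7,[(0,3),(2,3),(3,0),(7,0),(5,1),(11,1),(3,1)]⟩,⟨0,[(16,
  0),(5,0),(2,0)]⟩⟩,.e ⟨false,1,⟨0,[(2,0)]⟩,⟨0,[(5,0),(17,0),(18,0)]⟩⟩ ⟨false,1,⟨5,[(11,1),(6,1),(1,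
  0),(0,0),(0,5),(10,0),(6,2)]⟩,⟨0,[(0,0)]⟩⟩]⟩)) (.R ⟨0,false,false,false,[1,0,0,-1],[1,0,-1],[1,0,
  0,0,0,0,0,0,-1],(⟨0,[(21,0)]⟩,⟨0,[(22,0)]⟩),(⟨0,[(30,0)]⟩,⟨0,[(31,0)]⟩),⟨0,[(0,0)]⟩,.k,.k,(.x
  (-1) ⟨15,[(7,3),(3,3),(7,6),(0,6),(11,1)]⟩ ⟨0,[(34,0)]⟩),.k,.k,.k,⟨false,1,⟨11,[(1,3),(4,3),(5,3),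
  (6,4),(0,0),(17,1)]⟩,⟨4,[(4,0),(0,3),(4,1),(11,0),(3,0),(0,2),(1,1)]⟩⟩,⟨true,0,⟨0,[(21,0),(2,0)]⟩,
  ⟨0,[(15,0),(6,0)]⟩⟩,⟨true,0,⟨0,[]⟩,⟨0,[(41,0)]⟩⟩,⟨false,0,⟨0,[(4,0),(8,0),(23,0)]⟩,⟨0,[(3,0),(21,
  0)]⟩⟩,⟨false,0,⟨0,[]⟩,⟨0,[]⟩⟩,⟨false,0,⟨0,[]⟩,⟨0,[]⟩⟩,[.a ⟨true,0,⟨0,[(13,0),(23,0)]⟩,⟨1,[(18,0),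
  (2,0),(0,0)]⟩⟩ ⟨false,1,⟨1,[(19,0),(18,0)]⟩,⟨1,[(4,0),(0,0),(16,0),(13,0)]⟩⟩ ⟨true,0,⟨0,[(21,0),
  (2,0),(4,0)]⟩,⟨5,[(0,3),(6,0),(3,0),(6,2),(3,1)]⟩⟩,.o ⟨false,1,⟨0,[(23,0),(15,0)]⟩,⟨0,[(25,0)]⟩⟩,
  .o ⟨false,1,⟨5,[(2,1),(3,0),(7,0),(5,0),(1,3),(9,2)]⟩,⟨0,[(15,0),(5,0),(2,0)]⟩⟩,.e ⟨false,1,⟨0,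
  [(1,0)]⟩,⟨0,[(4,0),(17,0),(18,0)]⟩⟩ ⟨false,1,⟨0,[(1,0),(2,0),(21,0)]⟩,⟨5,[(0,3),(6,0),(3,0),(6,2),
  (3,1)]⟩⟩]⟩)) (.Q [0,1,1,-2,-1,0,0,0,1,0,0,-1] (.p false [0,0,0,1] [] (⟨0,[(21,0)]⟩,⟨0,[(20,0)]⟩)
  .k 0 (⟨0,[]⟩,⟨0,[]⟩) .k .k) (.R ⟨1,false,false,false,[1,-1],[1,0,0,-1],[0,1,1],(⟨0,[(33,0)]⟩,⟨0,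
  [(34,0)]⟩),(⟨0,[(21,0)]⟩,⟨0,[(22,0)]⟩),⟨2,[(7,0),(3,0),(21,1)]⟩,.k,.k,(.r (-1) ⟨3,[(6,1),(7,1),(4,
  0),(0,0),(16,3),(1,1)]⟩ ⟨4,[(10,3),(1,1),(14,5),(0,1)]⟩),(.r 0 ⟨0,[(5,0)]⟩ ⟨19,[(10,7),(1,3),(6,
  14),(0,4),(6,11),(0,3)]⟩),(.x 0 ⟨1,[(7,0),(3,0),(12,0),(2,2),(0,1)]⟩ ⟨5,[(2,3),(1,3),(1,2),(7,2),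
  (19,11),(0,1),(2,1)]⟩),.k,⟨true,(-1),⟨0,[(1,0)]⟩,⟨1,[(19,0),(19,0)]⟩⟩,⟨false,1,⟨17,[(2,15),(2,11),
  (0,4),(7,4),(5,1),(1,1),(12,5)]⟩,⟨0,[(1,0),(2,0),(14,0)]⟩⟩,⟨false,0,⟨9,[(10,3),(1,1),(14,10),(0,
  6)]⟩,⟨1,[(6,0),(7,0),(24,1)]⟩⟩,⟨false,1,⟨0,[(2,0)]⟩,⟨3,[(0,1),(3,1),(14,0),(0,0)]⟩⟩,⟨false,0,⟨4,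
  [(10,3),(1,1),(14,5),(0,1)]⟩,⟨1,[(6,0),(7,0),(22,1),(1,1)]⟩⟩,⟨true,1,⟨0,[(2,0),(33,0)]⟩,⟨0,[(0,
  0)]⟩⟩,[.o ⟨false,1,⟨3,[(2,1),(3,0),(7,0),(0,1),(3,0),(2,1),(1,1),(7,0)]⟩,⟨7,[(0,1),(3,5),(14,0),
  (0,0),(15,3)]⟩⟩,.a ⟨true,1,⟨0,[(3,0)]⟩,⟨0,[(1,0),(19,0)]⟩⟩ ⟨true,0,⟨1,[(27,0),(0,0)]⟩,⟨0,[]⟩⟩
  ⟨false,2,⟨0,[(3,0),(34,0)]⟩,⟨4,[(0,4),(9,3),(1,1),(2,0),(11,2)]⟩⟩,.o ⟨false,0,⟨0,[(15,0),(8,0)]⟩,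
  ⟨3,[(19,0),(0,0),(17,1)]⟩⟩,.o ⟨false,0,⟨0,[(24,0),(2,0)]⟩,⟨0,[(38,0)]⟩⟩]⟩) (.I [0,-1,0,-1,0,0,0,0,
  1] (.Q [0,0,0,0,0,-1,0,0,0,0,0,1] (.ed false [1,-1,0,1] .k) (.I [1,1,1,1,0,0,0,0,-1] (.R ⟨1,false,
  false,true,[0,0,0,1],[0,-1,1],[0,0,0,-1,0,0,0,0,1],(⟨0,[(25,0)]⟩,⟨0,[(24,0)]⟩),(⟨0,[(11,0)]⟩,⟨0,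
  [(33,0),(3,0)]⟩),⟨0,[(1,0)]⟩,.k,.k,(.r 0 ⟨0,[(8,0)]⟩ ⟨3,[(0,3),(21,0),(0,0),(18,1)]⟩),(.r 0 ⟨3,
  [(4,1),(8,1),(9,0),(6,1),(1,1),(9,0)]⟩ ⟨9,[(2,5),(6,5),(5,1),(6,8),(0,0)]⟩),.k,.k,⟨false,0,⟨1,[(2,
  1),(10,0),(4,0),(13,0)]⟩,⟨19,[(9,11),(5,3),(6,14),(0,4),(15,7)]⟩⟩,⟨true,0,⟨0,[(18,0),(6,0)]⟩,⟨0,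
  [(24,0),(2,0)]⟩⟩,⟨true,0,⟨0,[(40,0)]⟩,⟨0,[(39,0)]⟩⟩,⟨false,1,⟨0,[(6,0),(21,0),(11,0)]⟩,⟨0,[(7,0),
  (8,0)]⟩⟩,⟨false,1,⟨3,[(22,0),(0,0),(18,1)]⟩,⟨0,[]⟩⟩,⟨false,1,⟨0,[(6,0),(21,0)]⟩,⟨1,[(2,0),(4,0),
  (8,0),(7,0),(2,0),(4,0)]⟩⟩,[.o ⟨false,0,⟨0,[(28,0),(11,0)]⟩,⟨3,[(13,1),(12,1),(8,0),(6,2)]⟩⟩,.a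
  ⟨true,0,⟨1,[(21,0),(2,0),(0,0),(14,1)]⟩,⟨0,[(16,0)]⟩⟩ ⟨true,0,⟨0,[(2,0)]⟩,⟨0,[(0,0)]⟩⟩ ⟨false,1,
  ⟨35,[(2,5),(3,19),(2,12),(7,12),(3,17),(1,6),(1,15),(9,8),(4,3)]⟩,⟨1,[(13,0),(4,0),(5,1),(2,1),(4,
  0)]⟩⟩,.o ⟨false,0,⟨0,[(18,0),(5,0),(2,0)]⟩,⟨5,[(5,1),(3,0),(7,0),(5,0),(1,3),(9,2)]⟩⟩,.o ⟨false,0,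
  ⟨0,[(4,0),(2,0),(14,0)]⟩,⟨3,[(3,1),(4,1),(0,0),(7,0),(7,1),(9,1)]⟩⟩]⟩) (.R ⟨1,false,false,true,[0,
  0,0,1],[0,-1,1],[0,1,1],(⟨0,[(25,0)]⟩,⟨0,[(24,0)]⟩),(⟨0,[(11,0)]⟩,⟨0,[(33,0),(3,0)]⟩),⟨0,[(1,0)]⟩,
  .k,.k,(.r 0 ⟨0,[(8,0)]⟩ ⟨19,[(13,7),(1,3),(6,14),(0,4),(6,11),(0,3)]⟩),(.r 0 ⟨3,[(4,1),(8,1),(9,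
  0),(6,1),(1,1),(9,0)]⟩ ⟨9,[(2,5),(6,5),(5,1),(6,8),(0,0)]⟩),.k,.k,⟨false,0,⟨3,[(13,1),(16,2),(0,
  0),(0,1)]⟩,⟨3,[(9,3),(12,0),(0,0),(18,1)]⟩⟩,⟨true,0,⟨0,[(18,0),(6,0)]⟩,⟨0,[(24,0),(2,0)]⟩⟩,⟨true,
  0,⟨0,[(4,0),(17,0)]⟩,⟨25,[(0,15),(2,0),(0,3),(2,0),(15,2),(14,13)]⟩⟩,⟨false,1,⟨0,[(6,0),(21,0),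
  (11,0)]⟩,⟨0,[(7,0),(8,0)]⟩⟩,⟨false,1,⟨19,[(13,7),(1,3),(6,14),(0,4),(6,11),(0,3)]⟩,⟨0,[(0,0)]⟩⟩,
  ⟨false,1,⟨0,[(6,0),(21,0)]⟩,⟨1,[(2,0),(4,0),(8,0),(7,0),(2,0),(4,0)]⟩⟩,[.o ⟨false,0,⟨0,[(28,0),
  (11,0)]⟩,⟨3,[(13,1),(12,1),(8,0),(6,2)]⟩⟩,.a ⟨true,0,⟨1,[(21,0),(2,0),(0,0),(14,1)]⟩,⟨0,[(16,
  0)]⟩⟩ ⟨true,0,⟨1,[(30,0),(0,0)]⟩,⟨0,[]⟩⟩ ⟨false,1,⟨35,[(2,5),(3,19),(2,12),(7,12),(3,17),(1,6),(1,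
  15),(9,8),(4,3)]⟩,⟨1,[(13,0),(4,0),(5,1),(2,1),(4,0)]⟩⟩,.o ⟨false,0,⟨0,[(18,0),(5,0),(2,0)]⟩,⟨5,
  [(5,1),(3,0),(7,0),(5,0),(1,3),(9,2)]⟩⟩,.o ⟨false,0,⟨0,[(4,0),(2,0),(14,0)]⟩,⟨37,[(0,9),(2,15),(5,
  11),(7,11),(5,2),(1,21),(9,18),(2,1)]⟩⟩]⟩)) (.R ⟨0,false,false,true,[0,0,0,1],[0,-1,1],[0,1,1],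
  (⟨0,[(24,0)]⟩,⟨0,[(23,0)]⟩),(⟨0,[(10,0)]⟩,⟨0,[(32,0),(3,0)]⟩),⟨0,[(0,0)]⟩,.k,.k,(.r 0 ⟨0,[(7,0)]⟩
  ⟨19,[(12,7),(1,3),(6,14),(0,4),(6,11),(0,3)]⟩),(.r 0 ⟨3,[(3,1),(8,1),(9,0),(6,1),(1,1),(9,0)]⟩ ⟨9,
  [(1,5),(6,5),(5,1),(6,8),(0,0)]⟩),.k,.k,⟨false,0,⟨3,[(12,1),(16,2),(0,0),(0,1)]⟩,⟨3,[(8,3),(12,0),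
  (0,0),(18,1)]⟩⟩,⟨true,0,⟨0,[(17,0),(6,0)]⟩,⟨0,[(23,0),(2,0)]⟩⟩,⟨true,0,⟨0,[(3,0),(17,0)]⟩,⟨0,[(1,
  0),(35,0)]⟩⟩,⟨false,1,⟨0,[(5,0),(21,0),(11,0)]⟩,⟨0,[(6,0),(8,0)]⟩⟩,⟨false,0,⟨0,[]⟩,⟨0,[]⟩⟩,⟨false,
  0,⟨0,[]⟩,⟨0,[]⟩⟩,[.o ⟨false,0,⟨0,[(27,0),(11,0)]⟩,⟨3,[(12,1),(12,1),(8,0),(6,2)]⟩⟩,.a ⟨true,0,⟨1,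
  [(20,0),(2,0),(0,0),(14,1)]⟩,⟨0,[(15,0)]⟩⟩ ⟨true,0,⟨1,[(29,0),(0,0)]⟩,⟨0,[]⟩⟩ ⟨false,1,⟨35,[(1,5),
  (3,19),(2,12),(7,12),(3,17),(1,6),(1,15),(9,8),(4,3)]⟩,⟨11,[(0,3),(2,2),(2,2),(2,0),(2,5),(0,0),
  (7,2),(1,4),(2,5),(4,5)]⟩⟩,.o ⟨false,0,⟨5,[(0,3),(2,1),(2,1),(2,0),(3,0),(7,1),(4,0),(2,0)]⟩,⟨5,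
  [(4,1),(3,0),(7,0),(5,0),(1,3),(9,2)]⟩⟩,.o ⟨false,0,⟨0,[(3,0),(2,0),(14,0)]⟩,⟨3,[(2,1),(4,1),(0,
  0),(7,0),(7,1),(9,1)]⟩⟩]⟩)) (.Q [0,0,0,0,0,-1,0,0,0,1,0,-1] (.ed true [0,1,0,1] .k) (.I [0,0,1,0,
  -1,0,0,0,2] (.R ⟨1,false,false,false,[1,0,0,-1],[0,0,0,1],[1,0,0,0,0,0,0,0,-1],(⟨0,[(24,0)]⟩,⟨0,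
  [(25,0)]⟩),(⟨0,[(25,0)]⟩,⟨0,[(24,0)]⟩),⟨0,[(1,0)]⟩,.k,.k,(.x (-1) ⟨15,[(10,3),(3,3),(7,6),(0,6),
  (11,1)]⟩ ⟨0,[(37,0)]⟩),.k,(.x (-1) ⟨15,[(10,3),(3,3),(7,2),(0,2),(11,1),(5,7)]⟩ ⟨1,[(30,0),(0,0),
  (5,1)]⟩),.k,⟨true,1,⟨0,[(22,0)]⟩,⟨0,[(0,0)]⟩⟩,⟨false,0,⟨0,[(18,0),(5,1),(2,0)]⟩,⟨3,[(3,1),(4,1),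
  (0,0),(7,0),(7,5),(9,1)]⟩⟩,⟨true,0,⟨0,[]⟩,⟨0,[(44,0)]⟩⟩,⟨true,(-1),⟨0,[(4,0),(2,0),(16,0)]⟩,⟨1,
  [(2,1),(3,1),(2,0),(7,0),(0,1),(6,1),(1,1)]⟩⟩,⟨false,1,⟨3,[(3,1),(3,1),(14,0),(0,0)]⟩,⟨0,[(40,
  0)]⟩⟩,⟨true,(-1),⟨0,[(0,0),(1,0),(4,0),(16,0)]⟩,⟨1,[(2,1),(3,1),(2,0),(7,0),(0,1),(6,1),(1,1),(12,
  1)]⟩⟩,[.o ⟨false,0,⟨0,[(7,0),(36,0)]⟩,⟨5,[(2,1),(3,3),(2,0),(7,0),(0,1),(6,1),(1,1),(7,1)]⟩⟩,.o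
  ⟨false,0,⟨0,[(7,0)]⟩,⟨9,[(2,1),(2,1),(3,1),(7,1),(4,2),(2,7),(9,4),(8,5)]⟩⟩,.o ⟨false,1,⟨5,[(5,1),
  (3,0),(7,0),(5,0),(1,3),(9,2)]⟩,⟨0,[(18,0),(5,0),(2,0)]⟩⟩,.a ⟨true,0,⟨0,[(25,0)]⟩,⟨0,[(24,0)]⟩⟩
  ⟨true,1,⟨1,[(22,0),(18,0)]⟩,⟨0,[(4,0)]⟩⟩ ⟨false,0,⟨0,[(7,0),(16,0)]⟩,⟨5,[(2,1),(3,3),(2,0),(7,0),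
  (0,1),(6,7),(1,1),(7,1)]⟩⟩]⟩) (.Q [0,1,1,0,-1,0,-1,-1,1,0,1,-1] (.p true [0,0,1] [0,0,0,1] (⟨0,
  [(34,0)]⟩,⟨0,[(33,0)]⟩) .k 2 (⟨0,[(25,0)]⟩,⟨0,[(24,0)]⟩) .k (.r (-1) ⟨9,[(9,1),(5,3),(6,6),(0,1),
  (16,1),(1,0)]⟩ ⟨5,[(3,0),(0,1),(2,0),(0,1),(14,0),(8,5)]⟩)) (.Q [0,-1,-1,-1,1,0,1,1,-1,0,-1,1]
  (.p false [0,0,1] [0,0,0,1] (⟨0,[(35,0)]⟩,⟨0,[(34,0)]⟩) .k 2 (⟨0,[(26,0)]⟩,⟨0,[(25,0)]⟩) .k (.r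
  (-1) ⟨9,[(10,1),(5,3),(6,6),(0,1),(16,1),(1,0)]⟩ ⟨5,[(4,0),(0,1),(2,0),(0,1),(14,0),(8,5)]⟩)) (.R
  ⟨1,true,false,true,[0,0,1],[0,0,0,1],[0,1,0,-1,0,0,0,1],(⟨0,[(36,0)]⟩,⟨0,[(35,0)]⟩),(⟨0,[(27,0)]⟩,
  ⟨0,[(26,0)]⟩),⟨0,[(13,0)]⟩,.k,.k,.k,.k,(.r (-1) ⟨11,[(0,3),(8,3),(1,7),(12,6),(0,0),(7,3)]⟩ ⟨3,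
  [(6,1),(8,1),(9,0),(6,1),(1,1),(9,0)]⟩),.k,⟨false,1,⟨11,[(0,3),(8,3),(1,7),(12,6),(0,0),(7,3)]⟩,
  ⟨5,[(5,0),(0,1),(2,0),(0,1),(4,2),(4,2),(4,0),(8,2)]⟩⟩,⟨true,0,⟨0,[(26,0),(2,0)]⟩,⟨0,[(20,0),(6,
  0)]⟩⟩,⟨false,0,⟨0,[(42,0)]⟩,⟨3,[(5,1),(3,1),(14,0),(0,0)]⟩⟩,⟨true,(-1),⟨0,[(1,0)]⟩,⟨0,[(0,0),(40,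
  0)]⟩⟩,⟨true,0,⟨0,[(46,0)]⟩,⟨0,[]⟩⟩,⟨false,0,⟨3,[(1,1),(7,1),(5,1),(8,0),(0,0)]⟩,⟨0,[(0,0)]⟩⟩,[]⟩)
  (.K ⟨1,[1,-1,0,-1],0,1,(⟨0,[(3,0)]⟩,⟨0,[(27,0),(11,0)]⟩),(.x (-1) ⟨15,[(12,3),(3,3),(7,6),(0,6),
  (11,1)]⟩ ⟨0,[(39,0)]⟩),(.r (-1) ⟨1,[(11,0),(7,0),(4,0),(17,1),(1,0)]⟩ ⟨19,[(6,9),(8,15),(1,7),(7,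
  4),(6,18),(0,2),(10,4)]⟩),.k,.k,.k,[⟨1,[(26,1),(5,0),(0,0)]⟩,⟨0,[(20,0),(6,0),(1,0)]⟩,⟨0,[(1,0),
  (20,0)]⟩,⟨0,[(8,0),(33,0)]⟩]⟩)) (.Q [0,1,1,-1,-1,0,-1,-1,1,0,1,-1] (.p true [0,0,1] [0,0,0,1] (⟨0,
  [(35,0)]⟩,⟨0,[(34,0)]⟩) .k 2 (⟨0,[(26,0)]⟩,⟨0,[(25,0)]⟩) .k (.r (-1) ⟨9,[(10,1),(5,3),(6,6),(0,1),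
  (16,1),(1,0)]⟩ ⟨5,[(4,0),(0,1),(2,0),(0,1),(14,0),(8,5)]⟩)) (.R ⟨1,false,false,false,[1,0,-1],[1,
  0,0,-1],[1,1,1],(⟨0,[(35,0)]⟩,⟨0,[(36,0)]⟩),(⟨0,[(26,0)]⟩,⟨0,[(27,0)]⟩),⟨0,[(21,0)]⟩,.k,.k,.k,.k,
  (.r 0 ⟨0,[(10,0),(23,0)]⟩ ⟨19,[(15,3),(1,11),(6,14),(0,4),(6,5),(0,1)]⟩),.k,⟨true,(-1),⟨0,[(6,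
  0)]⟩,⟨1,[(24,0),(19,0)]⟩⟩,⟨false,1,⟨2,[(1,1),(3,0),(0,0),(12,1),(0,0),(4,0)]⟩,⟨0,[(26,0),(2,0)]⟩⟩,
  ⟨false,0,⟨3,[(17,1),(14,0),(0,0),(8,1)]⟩,⟨1,[(34,1),(8,0),(0,0)]⟩⟩,⟨false,1,⟨0,[(1,0)]⟩,⟨0,[(9,0),
  (21,0)]⟩⟩,⟨false,0,⟨9,[(15,1),(1,5),(14,2),(0,0)]⟩,⟨7,[(19,3),(4,0),(0,0),(8,3),(7,3),(1,5)]⟩⟩,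
  ⟨true,1,⟨0,[(1,0),(39,0)]⟩,⟨0,[(0,0)]⟩⟩,[.o ⟨false,1,⟨0,[(1,0),(26,0)]⟩,⟨23,[(0,5),(8,11),(7,1),
  (7,2),(0,5),(3,1),(1,3),(4,2),(3,3)]⟩⟩,.a ⟨true,1,⟨0,[(8,0)]⟩,⟨0,[(6,0),(19,0)]⟩⟩ ⟨false,0,⟨0,[]⟩,
  ⟨3,[(24,0),(0,0),(17,1)]⟩⟩ ⟨true,1,⟨0,[(1,0),(32,0)]⟩,⟨9,[(0,9),(14,1),(1,5),(14,2),(0,0)]⟩⟩,.o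
  ⟨false,1,⟨3,[(24,0),(0,0),(3,3),(13,1)]⟩,⟨0,[(20,0)]⟩⟩,.o ⟨false,0,⟨0,[(29,0)]⟩,⟨0,[(32,0),(10,
  0)]⟩⟩]⟩) (.Q [0,0,1,0,0,0,-2,0,0,-1,2] (.p true [0,0,1] [1,0,-1] (⟨0,[(36,0)]⟩,⟨0,[(35,0)]⟩) .k 2
  (⟨0,[(35,0)]⟩,⟨0,[(36,0)]⟩) .k (.r (-1) ⟨4,[(11,1),(5,3),(6,1),(0,1),(16,1),(1,0)]⟩ ⟨0,[(34,
  1)]⟩)) (.Q [0,0,0,1,0,0,2,2,0,1,-2] (.p false [0,0,1] [1,0,-1] (⟨0,[(37,0)]⟩,⟨0,[(36,0)]⟩) .k 2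
  (⟨0,[(36,0)]⟩,⟨0,[(37,0)]⟩) .k (.r (-1) ⟨4,[(12,1),(5,3),(6,1),(0,1),(16,1),(1,0)]⟩ ⟨0,[(35,
  1)]⟩)) (.R ⟨1,false,false,false,[1,0,-1],[0,0,1],[1,1,0,0,0,0,0,-1],(⟨0,[(37,0)]⟩,⟨0,[(38,0)]⟩),
  (⟨0,[(38,0)]⟩,⟨0,[(37,0)]⟩),⟨0,[(23,0)]⟩,.k,.k,.k,.k,(.r (-1) ⟨7,[(21,3),(4,2),(0,2),(8,11),(7,3),
  (1,1)]⟩ ⟨0,[(0,0),(0,0)]⟩),.k,⟨false,0,⟨1,[(21,0),(14,2),(6,0)]⟩,⟨19,[(13,7),(5,15),(6,2),(0,2),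
  (16,7),(1,13)]⟩⟩,⟨true,0,⟨0,[(25,0),(10,1)]⟩,⟨0,[(1,0)]⟩⟩,⟨false,0,⟨0,[]⟩,⟨3,[(26,0),(0,0),(18,
  1)]⟩⟩,⟨true,0,⟨0,[(25,0)]⟩,⟨3,[(1,1),(18,0),(0,0),(8,1),(2,0),(2,2)]⟩⟩,⟨true,0,⟨0,[(43,0)]⟩,⟨0,
  [(44,0)]⟩⟩,⟨true,0,⟨0,[(0,0)]⟩,⟨2,[(1,1),(19,0),(8,0),(2,0),(2,2),(7,1)]⟩⟩,[.a ⟨true,0,⟨1,[(25,0),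
  (2,0),(0,0)]⟩,⟨0,[(20,0),(23,0)]⟩⟩ ⟨false,0,⟨1,[(21,0),(14,0),(6,0)]⟩,⟨4,[(13,0),(5,1),(6,0),(0,
  0),(16,0),(1,2)]⟩⟩ ⟨true,0,⟨0,[(25,0),(10,0)]⟩,⟨0,[(1,0),(34,0)]⟩⟩,.o ⟨false,1,⟨7,[(25,3),(0,0),
  (0,0),(11,1),(6,3)]⟩,⟨0,[(30,0)]⟩⟩,.o ⟨false,1,⟨3,[(1,1),(24,0),(0,0),(11,0),(5,0)]⟩,⟨0,[(22,
  0)]⟩⟩,.o ⟨false,0,⟨0,[(31,0)]⟩,⟨0,[(34,0),(10,0)]⟩⟩]⟩) (.Q [0,1,1,-1,-1,0,1,1,1,1,-1,-1] (.p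
  false [0,0,1] [1,0,0,-1] (⟨0,[(38,0)]⟩,⟨0,[(37,0)]⟩) .k 2 (⟨0,[(28,0)]⟩,⟨0,[(29,0)]⟩) .k (.r 0
  ⟨11,[(7,0),(0,1),(2,0),(0,7),(6,5),(7,0)]⟩ ⟨3,[(26,2),(0,0),(8,3)]⟩)) (.R ⟨1,false,false,false,[0,
  0,1],[1,0,0,-1],[0,1,1],(⟨0,[(39,0)]⟩,⟨0,[(38,0)]⟩),(⟨0,[(29,0)]⟩,⟨0,[(30,0)]⟩),⟨0,[(16,0)]⟩,.k,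
  .k,.k,.k,(.r 0 ⟨0,[(9,0),(4,0),(32,0)]⟩ ⟨7,[(18,3),(8,4),(0,0),(5,3),(0,7),(11,1)]⟩),.k,⟨true,
  (-1),⟨0,[(9,0)]⟩,⟨1,[(27,0),(19,0)]⟩⟩,⟨false,1,⟨113,[(1,33),(0,21),(5,69),(4,39),(0,69),(3,1),(9,
  14),(1,43),(9,28)]⟩,⟨0,[(29,0),(5,0)]⟩⟩,⟨false,0,⟨1,[(35,0),(0,0),(0,1)]⟩,⟨2,[(14,0),(5,0),(25,0),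
  (0,1)]⟩⟩,⟨false,1,⟨0,[(1,0),(1,0)]⟩,⟨11,[(0,2),(11,2),(7,1),(4,0),(0,1),(1,2),(0,5),(5,3)]⟩⟩,
  ⟨false,0,⟨3,[(18,1),(16,2),(0,0),(0,1)]⟩,⟨9,[(0,1),(1,1),(1,1),(9,5),(12,0),(0,0),(16,1),(1,7)]⟩⟩,
  ⟨true,1,⟨0,[(10,0),(20,0)]⟩,⟨0,[(0,0)]⟩⟩,[.o ⟨false,1,⟨0,[(4,0),(26,0)]⟩,⟨15,[(0,3),(11,11),(14,
  0),(0,0),(5,3),(5,1),(3,3)]⟩⟩,.a ⟨true,1,⟨0,[(11,0)]⟩,⟨0,[(9,0),(19,0)]⟩⟩ ⟨true,0,⟨1,[(35,0),(0,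
  0)]⟩,⟨0,[]⟩⟩ ⟨false,2,⟨3,[(2,1),(8,3),(28,0),(5,2)]⟩,⟨1,[(0,1),(17,0),(4,0),(13,0)]⟩⟩,.o ⟨false,0,
  ⟨0,[(23,0)]⟩,⟨3,[(2,1),(24,0),(0,0),(11,0),(5,0)]⟩⟩,.o ⟨false,0,⟨0,[(35,0)]⟩,⟨3,[(2,1),(37,0),(5,
  2)]⟩⟩]⟩) (.Q [0,1,1,-2,-1,0,1,1,1,1,-1,-1] (.p false [0,0,1] [1,0,0,-1] (⟨0,[(39,0)]⟩,⟨0,[(38,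
  0)]⟩) .k 2 (⟨0,[(29,0)]⟩,⟨0,[(30,0)]⟩) .k (.r 0 ⟨11,[(8,0),(0,1),(2,0),(0,7),(6,5),(7,0)]⟩ ⟨3,
  [(27,2),(0,0),(8,3)]⟩)) (.R ⟨1,false,false,false,[0,-1,1],[1,0,0,-1],[0,1,1],(⟨0,[(17,0)]⟩,⟨0,
  [(39,0),(3,0)]⟩),(⟨0,[(30,0)]⟩,⟨0,[(31,0)]⟩),⟨0,[(16,0)]⟩,.k,.k,(.r (-1) ⟨11,[(0,3),(1,3),(2,3),
  (9,11),(12,2),(0,2),(18,5)]⟩ ⟨1,[(19,1),(16,2),(0,0)]⟩),(.r 0 ⟨0,[(10,0),(4,0),(32,0)]⟩ ⟨7,[(19,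
  3),(8,4),(0,0),(5,3),(0,7),(11,1)]⟩),(.x 0 ⟨0,[(16,0),(19,1),(0,0)]⟩ ⟨5,[(1,3),(11,3),(1,6),(3,1),
  (3,0),(15,5),(1,0),(1,11),(3,0)]⟩),.k,⟨true,(-1),⟨0,[(10,0)]⟩,⟨1,[(28,0),(19,0)]⟩⟩,⟨false,1,⟨34,
  [(1,30),(7,3),(0,5),(3,20),(0,28),(3,3),(1,2),(7,3),(11,1)]⟩,⟨1,[(30,1),(5,2),(0,0)]⟩⟩,⟨false,0,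
  ⟨3,[(19,1),(16,4),(0,2),(0,1)]⟩,⟨0,[(15,0),(32,0)]⟩⟩,⟨false,1,⟨0,[(1,0)]⟩,⟨11,[(0,7),(12,3),(12,
  3),(1,2),(0,2),(18,1)]⟩⟩,⟨false,0,⟨1,[(19,1),(16,2),(0,0)]⟩,⟨2,[(0,0),(1,0),(2,0),(9,2),(32,2)]⟩⟩,
  ⟨true,1,⟨0,[(1,0),(43,0)]⟩,⟨0,[(0,0)]⟩⟩,[.o ⟨false,1,⟨0,[(5,0),(26,0)]⟩,⟨19,[(0,3),(12,15),(14,0),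
  (0,0),(5,3),(5,1),(3,7)]⟩⟩,.a ⟨true,1,⟨0,[(12,0)]⟩,⟨0,[(10,0),(19,0)]⟩⟩ ⟨true,0,⟨1,[(36,0),(0,
  0)]⟩,⟨0,[]⟩⟩ ⟨false,2,⟨7,[(1,3),(1,1),(8,3),(2,3),(25,0),(5,4),(0,1)]⟩,⟨0,[(10,0),(19,0),(5,0)]⟩⟩,
  .o ⟨false,0,⟨0,[(36,0)]⟩,⟨3,[(3,1),(37,0),(5,2)]⟩⟩,.o ⟨false,0,⟨1,[(36,2),(0,0)]⟩,⟨31,[(1,9),(0,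
  1),(0,5),(9,9),(1,19),(3,5),(21,6),(5,14)]⟩⟩]⟩) (.Q [0,1,1,1,-1,0,0,0,1,1,0,-1] (.p false [0,0,0,
  1] [1] (⟨0,[(31,0)]⟩,⟨0,[(30,0)]⟩) .k 1 (⟨0,[]⟩,⟨0,[]⟩) .k .k) (.K ⟨1,[1,-1,0,-1],0,1,(⟨0,[(8,
  0)]⟩,⟨0,[(32,0),(11,0)]⟩),(.x (-1) ⟨15,[(17,3),(3,3),(7,6),(0,6),(11,1)]⟩ ⟨0,[(44,0)]⟩),(.r (-1)
  ⟨1,[(16,0),(7,0),(4,0),(17,1),(1,0)]⟩ ⟨19,[(11,9),(8,15),(1,7),(7,4),(6,18),(0,2),(10,4)]⟩),.k,.k,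
  .k,[⟨1,[(31,1),(5,0),(0,0)]⟩,⟨0,[(25,0),(6,0),(1,0)]⟩,⟨0,[(0,0)]⟩,⟨0,[(13,0),(33,0)]⟩]⟩) (.R ⟨1,
  false,false,false,[0,0,0,1],[1,-1],[1],(⟨0,[(32,0)]⟩,⟨0,[(31,0)]⟩),(⟨0,[(43,0)]⟩,⟨0,[(44,0)]⟩),
  ⟨15,[(0,2),(0,0),(3,0),(5,4),(5,3),(3,3),(10,10)]⟩,.k,.k,(.r 0 ⟨0,[(15,0)]⟩ ⟨19,[(20,7),(1,3),(6,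
  14),(0,4),(6,11),(0,3)]⟩),(.x 0 ⟨0,[(44,0)]⟩ ⟨15,[(17,3),(3,3),(7,6),(0,6),(11,1)]⟩),.k,.k,⟨true,
  0,⟨4,[(20,1),(1,0),(14,2),(0,0)]⟩,⟨0,[(47,0)]⟩⟩,⟨false,1,⟨25,[(1,3),(4,5),(9,3),(7,3),(5,4),(1,
  15),(3,1),(5,10)]⟩,⟨0,[(31,0)]⟩⟩,⟨false,1,⟨1,[(29,0),(19,0)]⟩,⟨5,[(10,0),(0,1),(2,0),(0,1),(14,
  0)]⟩⟩,⟨false,1,⟨0,[(0,0)]⟩,⟨39,[(11,9),(2,9),(5,13),(1,1),(4,9),(2,9),(0,29),(5,10),(0,6)]⟩⟩,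
  ⟨false,1,⟨1,[(10,0),(3,0),(14,0)]⟩,⟨5,[(11,1),(3,1),(14,0),(16,3),(1,0)]⟩⟩,⟨true,1,⟨21,[(0,9),(0,
  3),(4,3),(2,3),(6,0),(7,0),(7,3),(9,3),(8,11)]⟩,⟨0,[(11,0),(19,0)]⟩⟩,[.a ⟨true,0,⟨0,[(47,0)]⟩,⟨2,
  [(20,0),(6,0),(3,1),(0,1)]⟩⟩ ⟨true,0,⟨0,[]⟩,⟨1,[(37,0),(0,0)]⟩⟩ ⟨false,1,⟨37,[(0,13),(0,3),(4,3),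
  (8,9),(0,10),(7,10),(5,5),(1,15),(9,9)]⟩,⟨4,[(20,1),(1,0),(8,4),(5,2),(0,0)]⟩⟩,.o ⟨false,1,⟨1,
  [(42,0),(4,1),(1,0)]⟩,⟨0,[(46,0)]⟩⟩,.o ⟨false,0,⟨0,[(7,0),(3,0),(2,0)]⟩,⟨25,[(1,3),(4,5),(9,3),(7,
  3),(5,4),(1,15),(3,1),(5,10)]⟩⟩,.o ⟨false,0,⟨0,[(11,0),(2,0),(14,0)]⟩,⟨39,[(1,11),(3,11),(5,1),(3,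
  13),(0,10),(7,10),(5,3),(1,15),(9,13)]⟩⟩]⟩))))) (.I [0,0,1,1,0,0,0,2] (.Q [0,0,0,2,0,0,2,2,0,1,
  -2] (.p false [0,0,1] [1,0,-1] (⟨0,[(38,0)]⟩,⟨0,[(37,0)]⟩) .k 2 (⟨0,[(37,0)]⟩,⟨0,[(38,0)]⟩) .k
  (.r (-1) ⟨4,[(13,1),(5,3),(6,1),(0,1),(16,1),(1,0)]⟩ ⟨0,[(36,1)]⟩)) (.R ⟨1,false,false,false,[1,0,
  -1],[0,1,1],[1,1,0,0,0,0,0,-1],(⟨0,[(38,0)]⟩,⟨0,[(39,0)]⟩),(⟨0,[(39,0),(2,0)]⟩,⟨0,[(24,0)]⟩),⟨0,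
  [(24,0)]⟩,.k,.k,.k,(.r (-1) ⟨7,[(22,3),(4,2),(0,2),(8,11),(7,3),(1,1)]⟩ ⟨0,[(1,0)]⟩),(.r (-1) ⟨3,
  [(22,3),(4,0),(0,0),(8,3),(7,3),(1,1)]⟩ ⟨4,[(18,1),(1,5),(14,2),(0,0)]⟩),.k,⟨false,0,⟨0,[(22,0),
  (14,0)]⟩,⟨3,[(20,3),(6,0),(0,0),(18,1)]⟩⟩,⟨true,0,⟨0,[(2,0)]⟩,⟨0,[(32,0),(3,0)]⟩⟩,⟨false,0,⟨0,[]⟩,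
  ⟨3,[(27,0),(0,0),(18,1)]⟩⟩,⟨true,0,⟨1,[(0,0),(25,0)]⟩,⟨1,[(21,0),(0,0),(9,1),(1,0),(2,0),(7,1)]⟩⟩,
  ⟨true,0,⟨0,[(44,0)]⟩,⟨0,[(45,0)]⟩⟩,⟨true,0,⟨0,[(0,0)]⟩,⟨1,[(21,0),(0,0),(9,1),(1,0),(2,0),(7,
  3)]⟩⟩,[.a ⟨true,0,⟨0,[(25,0)]⟩,⟨0,[(21,0),(23,1)]⟩⟩ ⟨false,0,⟨1,[(22,0),(14,0),(6,0)]⟩,⟨4,[(14,0),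
  (5,1),(6,0),(0,0),(16,0),(1,2)]⟩⟩ ⟨true,0,⟨2,[(0,0),(1,0),(22,0),(9,0)]⟩,⟨0,[(21,0),(10,0),(12,
  1)]⟩⟩,.o ⟨false,1,⟨7,[(0,3),(26,0),(0,0),(11,1),(6,3)]⟩,⟨0,[(31,0),(13,0)]⟩⟩,.o ⟨false,1,⟨3,[(27,
  0),(0,0),(3,3),(13,1)]⟩,⟨0,[(23,0)]⟩⟩,.o ⟨false,0,⟨0,[(32,0)]⟩,⟨3,[(2,1),(24,0),(0,0),(11,0),(5,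
  0)]⟩⟩]⟩) (.R ⟨1,true,false,true,[1,0,-1],[0,1,1],[0,0,0,-1,0,0,0,-1],(⟨0,[(38,0)]⟩,⟨0,[(39,0)]⟩),
  (⟨0,[(39,0),(2,0)]⟩,⟨0,[(24,0)]⟩),⟨0,[(24,0)]⟩,.k,.k,.k,(.r (-1) ⟨11,[(0,3),(1,3),(19,3),(4,4),(0,
  4),(8,11),(9,1)]⟩ ⟨0,[(1,0)]⟩),(.r (-1) ⟨2,[(0,1),(1,1),(19,1),(4,0),(0,0),(18,0)]⟩ ⟨4,[(18,1),(1,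
  5),(14,2),(0,0)]⟩),.k,⟨false,1,⟨11,[(0,7),(1,7),(19,7),(4,0),(0,0),(18,9)]⟩,⟨0,[(20,0),(23,0)]⟩⟩,
  ⟨true,0,⟨0,[(2,0)]⟩,⟨0,[(32,0),(3,0)]⟩⟩,⟨true,0,⟨0,[(45,0)]⟩,⟨0,[(44,0)]⟩⟩,⟨false,0,⟨0,[(2,0),(17,
  0)]⟩,⟨23,[(0,19),(17,7),(8,4),(0,4),(11,1),(6,11)]⟩⟩,⟨false,1,⟨3,[(27,0),(0,0),(18,1)]⟩,⟨0,[]⟩⟩,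
  ⟨true,0,⟨0,[(2,0),(17,0),(23,0)]⟩,⟨0,[(0,0)]⟩⟩,[]⟩)) (.Q [0,1,1,-2,-1,0,-1,-1,1,0,1,-1] (.p true
  [0,0,1] [0,0,0,1] (⟨0,[(38,0)]⟩,⟨0,[(37,0)]⟩) .k 2 (⟨0,[(29,0)]⟩,⟨0,[(28,0)]⟩) .k (.r (-1) ⟨9,
  [(13,1),(5,3),(6,6),(0,1),(16,1),(1,0)]⟩ ⟨3,[(0,1),(6,0),(0,1),(2,0),(15,0)]⟩)) (.R ⟨1,false,
  false,false,[1,-1,-1],[1,0,0,-1],[0,1,1],(⟨0,[(24,0)]⟩,⟨0,[(39,0),(2,0)]⟩),(⟨0,[(29,0)]⟩,⟨0,[(30,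
  0)]⟩),⟨0,[(19,0)]⟩,.k,.k,(.r (-1) ⟨3,[(0,1),(3,1),(17,3),(4,0),(0,0),(18,1)]⟩ ⟨9,[(18,5),(1,7),
  (14,8),(0,2)]⟩),(.r 0 ⟨11,[(1,5),(6,0),(0,1),(2,0),(0,7),(14,0)]⟩ ⟨19,[(18,3),(1,11),(6,14),(0,4),
  (6,5),(0,1)]⟩),(.r 0 ⟨0,[(1,0),(7,0),(4,0),(32,0)]⟩ ⟨19,[(18,11),(1,15),(6,14),(0,4),(6,17),(0,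
  5)]⟩),.k,⟨true,(-1),⟨0,[(9,0)]⟩,⟨1,[(27,0),(19,0)]⟩⟩,⟨false,1,⟨9,[(2,1),(0,5),(4,1),(4,5),(8,5),
  (5,0),(1,1),(9,0),(2,1)]⟩,⟨13,[(0,3),(6,5),(4,9),(7,1),(6,3),(7,0),(0,10)]⟩⟩,⟨false,0,⟨4,[(18,0),
  (1,2),(14,3),(0,2)]⟩,⟨0,[(22,0),(24,0)]⟩⟩,⟨false,1,⟨0,[(3,0)]⟩,⟨7,[(0,3),(11,3),(14,0),(0,0),(5,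
  3),(12,1)]⟩⟩,⟨false,0,⟨9,[(18,5),(1,7),(14,8),(0,2)]⟩,⟨1,[(0,0),(3,0),(17,1),(24,1)]⟩⟩,⟨true,1,⟨0,
  [(3,0),(40,0)]⟩,⟨0,[(0,0)]⟩⟩,[.o ⟨false,1,⟨0,[(4,0),(26,0)]⟩,⟨29,[(0,5),(11,17),(7,1),(7,2),(0,5),
  (3,1),(1,3),(4,2),(3,9)]⟩⟩,.a ⟨true,1,⟨0,[(11,0)]⟩,⟨0,[(9,0),(19,0)]⟩⟩ ⟨true,0,⟨1,[(35,0),(0,0)]⟩,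
  ⟨0,[]⟩⟩ ⟨false,2,⟨11,[(1,3),(0,1),(1,7),(5,3),(16,0),(0,0),(11,0),(5,8)]⟩,⟨4,[(0,2),(6,1),(1,1),
  (2,1),(5,0),(1,1),(15,0)]⟩⟩,.o ⟨false,0,⟨0,[(32,0)]⟩,⟨3,[(2,1),(24,0),(0,0),(11,0),(5,0)]⟩⟩,.o
  ⟨false,0,⟨1,[(32,1),(2,0),(0,0)]⟩,⟨3,[(2,1),(37,0),(5,2)]⟩⟩]⟩) (.I [0,0,-1,0,0,1,2] (.Q [0,0,0,2,
  0,0,2,2,0,1,-2] (.p false [0,0,1] [1,0,-1] (⟨0,[(40,0)]⟩,⟨0,[(39,0)]⟩) .k 2 (⟨0,[(39,0)]⟩,⟨0,[(40,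
  0)]⟩) .k (.r (-1) ⟨4,[(15,1),(5,3),(6,1),(0,1),(16,1),(1,0)]⟩ ⟨0,[(38,1)]⟩)) (.R ⟨1,false,false,
  false,[1,0,-1],[0,1,1],[1,1,0,0,0,0,0,-1],(⟨0,[(40,0)]⟩,⟨0,[(41,0)]⟩),(⟨0,[(41,0),(2,0)]⟩,⟨0,[(26,
  0)]⟩),⟨0,[(26,0)]⟩,.k,.k,.k,(.x (-1) ⟨3,[(26,3),(2,0),(0,0),(3,7),(5,3),(7,1)]⟩ ⟨0,[(1,0)]⟩),(.r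
  (-1) ⟨2,[(3,1),(20,1),(4,0),(0,0),(16,1),(1,0)]⟩ ⟨4,[(20,1),(1,5),(14,2),(0,0)]⟩),.k,⟨false,0,⟨2,
  [(3,1),(20,1),(21,0)]⟩,⟨3,[(22,3),(6,0),(0,0),(18,1)]⟩⟩,⟨true,0,⟨0,[(4,0)]⟩,⟨0,[(34,0),(3,0)]⟩⟩,
  ⟨false,0,⟨0,[]⟩,⟨3,[(29,0),(0,0),(18,1)]⟩⟩,⟨true,0,⟨1,[(0,0),(27,0)]⟩,⟨3,[(3,2),(12,0),(17,3),(1,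
  2),(1,0)]⟩⟩,⟨true,0,⟨0,[(46,0)]⟩,⟨0,[(47,0)]⟩⟩,⟨true,0,⟨0,[(0,0)]⟩,⟨3,[(3,2),(12,0),(17,3),(1,2),
  (1,0),(8,3)]⟩⟩,[.a ⟨true,0,⟨0,[(27,0)]⟩,⟨0,[(23,0),(23,1)]⟩⟩ ⟨false,0,⟨2,[(3,0),(20,0),(21,1)]⟩,
  ⟨4,[(16,0),(5,1),(6,0),(0,0),(16,0),(1,2)]⟩⟩ ⟨true,0,⟨2,[(0,0),(3,0),(22,0),(9,0)]⟩,⟨0,[(23,0),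
  (10,0),(12,1)]⟩⟩,.o ⟨false,1,⟨7,[(0,3),(28,0),(0,0),(11,1),(6,3)]⟩,⟨0,[(33,0),(13,0)]⟩⟩,.o ⟨false,
  1,⟨3,[(29,0),(0,0),(3,3),(13,1)]⟩,⟨0,[(25,0)]⟩⟩,.o ⟨false,0,⟨0,[(34,0)]⟩,⟨3,[(4,1),(24,0),(0,0),
  (11,0),(5,0)]⟩⟩]⟩) (.R ⟨1,true,false,true,[1,0,-1],[0,1,1],[0,0,0,-1,0,0,0,-1],(⟨0,[(40,0)]⟩,⟨0,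
  [(41,0)]⟩),(⟨0,[(41,0),(2,0)]⟩,⟨0,[(26,0)]⟩),⟨0,[(26,0)]⟩,.k,.k,.k,(.x (-1) ⟨3,[(26,3),(2,0),(0,
  0),(3,7),(5,3),(7,1)]⟩ ⟨0,[(1,0)]⟩),(.r (-1) ⟨2,[(0,1),(3,1),(19,1),(4,0),(0,0),(18,0)]⟩ ⟨4,[(20,
  1),(1,5),(14,2),(0,0)]⟩),.k,⟨false,1,⟨11,[(0,7),(3,7),(19,7),(4,0),(0,0),(18,9)]⟩,⟨0,[(22,0),(23,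
  0)]⟩⟩,⟨true,0,⟨0,[(4,0)]⟩,⟨0,[(34,0),(3,0)]⟩⟩,⟨true,0,⟨0,[(47,0)]⟩,⟨0,[(46,0)]⟩⟩,⟨false,0,⟨0,[(4,
  0),(17,0)]⟩,⟨23,[(0,19),(19,7),(8,4),(0,4),(11,1),(6,11)]⟩⟩,⟨false,1,⟨3,[(29,0),(0,0),(18,1)]⟩,⟨0,
  []⟩⟩,⟨true,0,⟨0,[(4,0),(17,0),(23,0)]⟩,⟨0,[(0,0)]⟩⟩,[]⟩)) (.Q [0,1,1,1,-1,0,0,0,1,1,0,-1] (.p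
  false [0,0,0,1] [1] (⟨0,[(31,0)]⟩,⟨0,[(30,0)]⟩) .k 1 (⟨0,[]⟩,⟨0,[]⟩) .k .k) (.K ⟨1,[1,-1,0,-1],0,
  1,(⟨0,[(8,0)]⟩,⟨0,[(32,0),(11,0)]⟩),(.x (-1) ⟨15,[(17,3),(3,3),(7,6),(0,6),(11,1)]⟩ ⟨0,[(44,0)]⟩),
  (.r (-1) ⟨1,[(16,0),(7,0),(4,0),(17,1),(1,0)]⟩ ⟨19,[(11,9),(8,15),(1,7),(7,4),(6,18),(0,2),(10,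
  4)]⟩),.k,.k,.k,[⟨1,[(31,1),(5,0),(0,0)]⟩,⟨0,[(25,0),(6,0),(1,0)]⟩,⟨0,[(0,0)]⟩,⟨0,[(13,0),(33,
  0)]⟩]⟩) (.R ⟨1,false,false,false,[0,0,0,1],[1,-1],[0,0,0,-1],(⟨0,[(32,0)]⟩,⟨0,[(31,0)]⟩),(⟨0,[(43,
  0)]⟩,⟨0,[(44,0)]⟩),⟨7,[(0,1),(9,0),(0,2),(5,1),(3,1),(10,4)]⟩,.k,.k,(.r 0 ⟨0,[(15,0)]⟩ ⟨19,[(20,
  7),(1,3),(6,14),(0,4),(6,11),(0,3)]⟩),(.x 0 ⟨0,[(44,0)]⟩ ⟨15,[(17,3),(3,3),(7,6),(0,6),(11,1)]⟩),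
  .k,.k,⟨true,0,⟨1,[(37,0),(0,0)]⟩,⟨0,[]⟩⟩,⟨false,1,⟨5,[(12,1),(3,0),(7,0),(5,0),(1,3),(9,2)]⟩,⟨0,
  [(31,0)]⟩⟩,⟨false,1,⟨1,[(29,0),(17,1),(1,0)]⟩,⟨6,[(2,1),(8,2),(2,1),(0,1),(4,1),(9,0),(14,0)]⟩⟩,
  ⟨false,1,⟨0,[(0,0)]⟩,⟨39,[(11,9),(2,9),(5,13),(1,1),(4,9),(2,9),(0,29),(5,10),(0,6)]⟩⟩,⟨false,1,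
  ⟨1,[(29,0),(19,0)]⟩,⟨11,[(2,0),(8,3),(2,0),(0,3),(4,0),(9,1),(18,0)]⟩⟩,⟨true,1,⟨13,[(0,5),(1,1),
  (3,1),(2,3),(6,0),(7,0),(7,3),(3,3),(5,3)]⟩,⟨0,[(11,0),(19,0)]⟩⟩,[.a ⟨true,0,⟨0,[(47,0)]⟩,⟨2,[(20,
  0),(6,0),(3,1),(0,1)]⟩⟩ ⟨true,0,⟨0,[(47,0)]⟩,⟨4,[(20,1),(1,0),(14,2),(0,0)]⟩⟩ ⟨false,1,⟨6,[(0,2),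
  (9,0),(4,1),(0,1),(7,1),(5,0),(1,2),(9,1)]⟩,⟨4,[(20,1),(1,0),(8,4),(5,2),(0,0)]⟩⟩,.o ⟨false,1,⟨1,
  [(42,0),(4,1),(1,0)]⟩,⟨0,[(46,0)]⟩⟩,.o ⟨false,0,⟨0,[(7,0),(3,0),(2,0)]⟩,⟨5,[(12,1),(3,0),(7,0),(5,
  0),(1,3),(9,2)]⟩⟩,.o ⟨false,0,⟨0,[(11,0),(2,0),(14,0)]⟩,⟨3,[(10,1),(4,1),(0,0),(7,0),(7,1),(9,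
  1)]⟩⟩]⟩))))))))) (.R ⟨0,false,false,false,[1,0,0,-1],[0,0,0,1],[1,0,0,0,0,0,0,0,1],(⟨0,[(23,0)]⟩,
  ⟨0,[(24,0)]⟩),(⟨0,[(24,0)]⟩,⟨0,[(23,0)]⟩),⟨0,[(0,0)]⟩,.k,.k,(.x (-1) ⟨15,[(9,3),(3,3),(7,6),(0,6),
  (11,1)]⟩ ⟨0,[(36,0)]⟩),.k,.k,.k,⟨true,0,⟨0,[]⟩,⟨1,[(29,0),(0,0)]⟩⟩,⟨false,0,⟨0,[(17,0),(5,1),(2,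
  0)]⟩,⟨3,[(2,1),(4,1),(0,0),(7,0),(7,5),(9,1)]⟩⟩,⟨false,0,⟨1,[(2,0),(0,1),(2,0),(0,1),(33,0)]⟩,⟨0,
  [(21,0)]⟩⟩,⟨true,(-1),⟨0,[(3,0),(2,0),(16,0)]⟩,⟨7,[(0,7),(0,5),(3,3),(2,2),(0,1),(3,1),(2,2),(4,
  2),(2,3),(9,0)]⟩⟩,⟨false,0,⟨0,[]⟩,⟨0,[]⟩⟩,⟨false,0,⟨0,[]⟩,⟨0,[]⟩⟩,[.o ⟨false,0,⟨0,[(6,0),(36,0)]⟩,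
  ⟨23,[(0,7),(0,5),(3,11),(2,2),(0,1),(3,1),(2,2),(4,2),(2,3),(9,8)]⟩⟩,.o ⟨false,0,⟨0,[(6,0)]⟩,⟨9,
  [(1,1),(2,1),(3,1),(7,1),(4,2),(2,7),(9,4),(8,5)]⟩⟩,.o ⟨false,1,⟨5,[(4,1),(3,0),(7,0),(5,0),(1,3),
  (9,2)]⟩,⟨0,[(17,0),(5,0),(2,0)]⟩⟩,.a ⟨true,0,⟨0,[(24,0)]⟩,⟨0,[(23,0)]⟩⟩ ⟨true,0,⟨3,[(2,0),(0,0),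
  (2,0),(0,2),(0,0),(3,0),(4,0)]⟩,⟨0,[(3,0),(17,0)]⟩⟩ ⟨false,0,⟨0,[(6,0),(16,0)]⟩,⟨23,[(0,7),(0,5),
  (3,11),(2,2),(0,1),(3,1),(2,2),(4,2),(2,27),(9,8)]⟩⟩]⟩))))))) (.K ⟨0,[0,0,0,1],0,0,(⟨0,[(18,0)]⟩,
  ⟨0,[(17,0)]⟩),.k,(.r 0 ⟨0,[(1,0)]⟩ ⟨19,[(6,7),(1,3),(6,14),(0,4),(6,11),(0,3)]⟩),(.x 0 ⟨0,[(30,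
  0)]⟩ ⟨15,[(3,3),(3,3),(7,6),(0,6),(11,1)]⟩),.k,.k,[⟨0,[(18,0)]⟩,⟨0,[(17,0)]⟩,⟨0,[(0,0)]⟩,⟨0,[(1,
  0),(15,0),(2,0),(2,0),(8,0)]⟩]⟩)) (.Q [0,1,1,0,0,0,0,0,1,0,0,-1] (.p false [0,0,0,1] [] (⟨0,[(17,
  0)]⟩,⟨0,[(16,0)]⟩) .k 0 (⟨0,[]⟩,⟨0,[]⟩) .k .k) (.I [0,0,1,1,0,0,0,0,-1] (.K ⟨0,[0,0,0,1],0,0,(⟨0,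
  [(19,0)]⟩,⟨0,[(18,0)]⟩),.k,(.r (-1) ⟨7,[(3,1),(7,1),(4,0),(0,4),(16,3),(1,1)]⟩ ⟨0,[(0,0)]⟩),(.x 0
  ⟨0,[(31,0)]⟩ ⟨15,[(4,3),(3,3),(7,6),(0,6),(11,1)]⟩),.k,.k,[⟨0,[(19,0)]⟩,⟨0,[(18,0)]⟩,⟨1,[(2,1),(0,
  0),(7,0),(7,1)]⟩,⟨0,[(1,0)]⟩]⟩) (.K ⟨0,[0,0,0,1],0,0,(⟨0,[(19,0)]⟩,⟨0,[(18,0)]⟩),.k,(.x 0 ⟨3,[(4,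
  0),(3,0),(12,0),(2,3),(0,2)]⟩ ⟨0,[(31,0),(3,0)]⟩),(.x 0 ⟨0,[(31,0)]⟩ ⟨15,[(4,3),(3,3),(7,6),(0,6),
  (11,1)]⟩),.k,.k,[⟨0,[(19,0)]⟩,⟨0,[(18,0)]⟩,⟨1,[(2,1),(0,0),(7,0),(7,1)]⟩,⟨0,[(1,0)]⟩]⟩)) (.Q [0,0,
  0,0,0,-1,0,0,0,1,0,-1] (.ed true [0,1,0,1] .k) (.Q [0,0,0,0,0,0,-1,-1,0,-1,1,1] (.p true [0,0,1]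
  [1,0,0,-1] (⟨0,[(28,0)]⟩,⟨0,[(27,0)]⟩) .k 2 (⟨0,[(18,0)]⟩,⟨0,[(19,0)]⟩) .k (.r (-1) ⟨9,[(3,1),(5,
  3),(6,1),(0,6),(16,1),(1,0)]⟩ ⟨2,[(1,0),(0,1),(8,0),(0,0),(5,0),(2,0),(4,1),(7,0)]⟩)) (.R ⟨1,
  false,false,false,[1,0,0,-1],[1,0,-1],[1,1,0,0,0,0,0,0,-1],(⟨0,[(19,0)]⟩,⟨0,[(20,0)]⟩),(⟨0,[(28,
  0)]⟩,⟨0,[(29,0)]⟩),⟨0,[(1,0)]⟩,.k,.k,(.x (-1) ⟨15,[(5,3),(3,3),(7,6),(0,6),(11,1)]⟩ ⟨0,[(32,0)]⟩),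
  .k,(.r 0 ⟨6,[(2,4),(0,1),(0,4),(8,3),(2,0),(2,4),(2,5),(12,3)]⟩ ⟨7,[(8,3),(8,0),(0,4),(5,3),(0,7),
  (11,1)]⟩),.k,⟨false,0,⟨0,[(3,0),(0,0)]⟩,⟨1,[(18,0),(8,1),(9,0)]⟩⟩,⟨true,0,⟨0,[(19,0),(2,0)]⟩,⟨0,
  [(13,0),(6,0)]⟩⟩,⟨false,0,⟨0,[]⟩,⟨3,[(17,0),(0,0),(18,1)]⟩⟩,⟨false,1,⟨1,[(18,0),(0,1),(2,1),(4,1),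
  (9,0)]⟩,⟨0,[(2,0),(20,0)]⟩⟩,⟨true,0,⟨0,[(34,0)]⟩,⟨0,[(35,0)]⟩⟩,⟨false,1,⟨1,[(8,0),(4,0),(4,0),(0,
  1),(2,1),(4,0),(9,0)]⟩,⟨0,[(2,0),(20,0),(11,0)]⟩⟩,[.a ⟨true,0,⟨0,[(0,0),(18,0)]⟩,⟨1,[(16,0),(2,0),
  (0,0)]⟩⟩ ⟨false,0,⟨1,[(3,1),(0,0),(7,0)]⟩,⟨1,[(18,0),(18,0)]⟩⟩ ⟨true,0,⟨0,[(19,0),(2,0),(4,0)]⟩,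
  ⟨0,[(0,0),(15,0)]⟩⟩,.o ⟨false,1,⟨0,[(21,0),(15,0)]⟩,⟨0,[(23,0)]⟩⟩,.o ⟨false,1,⟨1,[(20,1),(9,0),(5,
  0)]⟩,⟨0,[(13,0),(5,0),(2,0)]⟩⟩,.e ⟨false,0,⟨3,[(2,2),(0,0),(0,0),(7,0),(0,2),(5,2),(2,2),(10,0)]⟩,
  ⟨1,[(18,0),(6,0),(0,0),(10,0)]⟩⟩ ⟨false,1,⟨0,[(19,0),(1,0),(15,0)]⟩,⟨0,[(0,0),(15,0)]⟩⟩]⟩) (.R ⟨1,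
  false,false,false,[1,0,0,-1],[0,1],[1,1,0,0,0,0,0,0,-1],(⟨0,[(19,0)]⟩,⟨0,[(20,0)]⟩),(⟨0,[(32,0)]⟩,
  ⟨0,[(31,0)]⟩),⟨0,[(1,0)]⟩,.k,.k,(.x (-1) ⟨15,[(5,3),(3,3),(7,6),(0,6),(11,1)]⟩ ⟨0,[(32,0)]⟩),(.x
  (-1) ⟨15,[(5,3),(3,3),(7,6),(0,6),(11,1)]⟩ ⟨0,[(32,0)]⟩),(.r 0 ⟨0,[(0,0),(1,0),(9,0),(9,0),(12,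
  0)]⟩ ⟨4,[(3,4),(4,1),(1,0),(7,4),(6,2),(0,0)]⟩),.k,⟨false,0,⟨5,[(0,1),(1,1),(0,3),(0,2),(7,4),(9,
  1),(12,1)]⟩,⟨9,[(8,3),(1,1),(7,4),(6,5),(0,1),(10,4)]⟩⟩,⟨true,0,⟨0,[(19,0)]⟩,⟨0,[(13,0),(6,0),(1,
  0)]⟩⟩,⟨false,0,⟨0,[]⟩,⟨3,[(17,0),(0,0),(18,1)]⟩⟩,⟨false,1,⟨9,[(8,3),(1,1),(7,4),(0,9),(5,5),(0,1),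
  (10,4)]⟩,⟨1,[(2,1),(1,0),(7,0),(9,1),(2,1)]⟩⟩,⟨true,0,⟨0,[(34,0)]⟩,⟨0,[(35,0)]⟩⟩,⟨false,1,⟨5,[(0,
  0),(7,4),(1,1),(7,2),(0,4),(5,3),(11,2)]⟩,⟨1,[(2,1),(1,0),(7,0),(9,1),(2,1),(9,1)]⟩⟩,[.e ⟨false,0,
  ⟨1,[(3,1),(0,0),(7,0)]⟩,⟨1,[(18,0),(18,0)]⟩⟩ ⟨false,0,⟨1,[(0,0),(7,0),(10,0)]⟩,⟨7,[(4,1),(7,1),(4,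
  0),(0,0),(1,7),(9,3),(4,3),(1,1)]⟩⟩,.o ⟨false,1,⟨5,[(8,1),(6,1),(1,0),(0,0),(11,0),(6,2)]⟩,⟨1,[(4,
  0),(7,0),(9,1),(2,1)]⟩⟩,.o ⟨false,1,⟨1,[(20,1),(9,0),(5,0)]⟩,⟨0,[(13,0),(5,0),(2,0)]⟩⟩,.a ⟨true,0,
  ⟨0,[(20,0)]⟩,⟨0,[(19,0)]⟩⟩ ⟨false,0,⟨0,[(0,0),(1,0),(18,0)]⟩,⟨1,[(18,0),(6,0),(0,0),(10,0)]⟩⟩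
  ⟨true,0,⟨1,[(0,0),(7,0),(10,0)]⟩,⟨1,[(4,0),(7,0),(7,1),(1,1),(2,1)]⟩⟩]⟩)) (.R ⟨0,false,false,
  false,[1,0,0,-1],[1,0,-1],[0,1,0,0,0,0,0,0,-1],(⟨0,[(18,0)]⟩,⟨0,[(19,0)]⟩),(⟨0,[(27,0)]⟩,⟨0,[(28,
  0)]⟩),⟨0,[(0,0)]⟩,.k,.k,(.x (-1) ⟨15,[(4,3),(3,3),(7,6),(0,6),(11,1)]⟩ ⟨0,[(31,0)]⟩),.k,.k,.k,
  ⟨false,0,⟨0,[(1,0),(1,1),(3,6),(1,2),(2,7),(5,0),(2,0),(12,14)]⟩,⟨1,[(17,0),(8,1),(9,0)]⟩⟩,⟨true,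
  0,⟨0,[(18,0),(2,0)]⟩,⟨0,[(12,0),(6,0)]⟩⟩,⟨true,0,⟨0,[(38,0)]⟩,⟨0,[]⟩⟩,⟨false,1,⟨1,[(17,0),(0,1),
  (2,1),(4,1),(9,0)]⟩,⟨0,[(1,0),(20,0)]⟩⟩,⟨false,0,⟨0,[]⟩,⟨0,[]⟩⟩,⟨false,0,⟨0,[]⟩,⟨0,[]⟩⟩,[.a ⟨true,
  0,⟨0,[(10,0),(23,0)]⟩,⟨1,[(15,0),(2,0),(0,0)]⟩⟩ ⟨false,0,⟨0,[(1,0),(1,1),(3,7),(1,2),(2,8),(5,0),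
  (2,0),(12,16)]⟩,⟨1,[(17,0),(18,0)]⟩⟩ ⟨true,0,⟨0,[(18,0),(2,0),(4,0)]⟩,⟨5,[(0,3),(3,0),(3,0),(6,2),
  (3,1)]⟩⟩,.o ⟨false,1,⟨0,[(20,0),(15,0)]⟩,⟨0,[(22,0)]⟩⟩,.o ⟨false,1,⟨1,[(19,1),(9,0),(5,0)]⟩,⟨0,
  [(12,0),(5,0),(2,0)]⟩⟩,.e ⟨false,0,⟨3,[(1,2),(0,0),(0,0),(7,0),(0,2),(5,2),(2,2),(10,0)]⟩,⟨1,[(17,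
  0),(6,0),(0,0),(10,0)]⟩⟩ ⟨false,1,⟨0,[(18,0),(1,0),(15,0)]⟩,⟨5,[(0,3),(3,0),(3,0),(6,2),(3,
  1)]⟩⟩]⟩))))) (.R ⟨0,false,false,false,[0,-1,1],[1,-1],[1],(⟨0,[(1,0)]⟩,⟨1,[(0,0),(13,0),(0,0),(7,
  0)]⟩),(⟨0,[(26,0)]⟩,⟨0,[(27,0)]⟩),⟨0,[(0,0)]⟩,.k,.k,(.r (-1) ⟨15,[(2,19),(2,7),(6,2),(0,2),(16,
  19),(1,9)]⟩ ⟨1,[(3,1),(16,2),(0,0)]⟩),.k,.k,.k,⟨true,0,⟨4,[(3,1),(1,0),(14,2),(0,0)]⟩,⟨0,[(30,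
  0)]⟩⟩,⟨false,1,⟨0,[(17,0),(13,0)]⟩,⟨1,[(11,0),(2,0),(0,0),(6,1)]⟩⟩,⟨true,0,⟨3,[(3,1),(16,2),(0,0),
  (0,1)]⟩,⟨4,[(2,3),(2,1),(12,0),(2,0),(8,2)]⟩⟩,⟨false,1,⟨0,[(16,0),(15,0)]⟩,⟨1,[(11,0),(2,0),(0,
  0)]⟩⟩,⟨false,0,⟨0,[]⟩,⟨0,[]⟩⟩,⟨false,0,⟨0,[]⟩,⟨0,[]⟩⟩,[.a ⟨true,0,⟨0,[(30,0)]⟩,⟨2,[(3,0),(6,0),(3,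
  1),(0,1)]⟩⟩ ⟨true,0,⟨0,[]⟩,⟨1,[(20,0),(0,0)]⟩⟩ ⟨false,1,⟨1,[(2,1),(14,1),(13,0),(0,0)]⟩,⟨2,[(3,0),
  (6,0),(3,1),(0,1),(4,2)]⟩⟩,.o ⟨false,1,⟨1,[(25,0),(4,1),(1,0)]⟩,⟨0,[(29,0)]⟩⟩,.o ⟨false,0,⟨0,[(20,
  0)]⟩,⟨0,[(17,0),(13,0)]⟩⟩,.o ⟨false,0,⟨1,[(20,2),(0,0)]⟩,⟨7,[(2,9),(0,3),(1,1),(11,3),(7,1),(5,0),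
  (0,4)]⟩⟩]⟩)))))))

theorem ok3 : chk (cU (-1) true 3) t3 r4 = true := by decide +kernel

noncomputable def t4 : Tre :=
  .Q [0,0,0,-1,0,0,1,1,0,0,-1] (.p false [0,0,1] [] (⟨0,[(17,0)]⟩,⟨0,[(16,0)]⟩) .k 0 (⟨0,[]⟩,⟨0,
  []⟩) .k .k) t2 t3

theorem ok4 : chk (cU (-1) true 3) t4 l3 = true :=
  chk_Q (e' := [0,0,0,1,0,0,-1,-1,0,0,1]) (by decide +kernel) (by decide +kernel) ok2 ok3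

noncomputable def t5 : Tre :=
  (.Q [0,0,0,2,0,0,1,1,0,1,-1] (.p false [0,0,1] [1] (⟨0,[(17,0)]⟩,⟨0,[(16,0)]⟩) .k 1 (⟨0,[]⟩,⟨0,
  []⟩) .k .k) (.Q [0,0,0,1,0,0,0,0,0,1] (.pp false [-1,1]) (.R ⟨1,false,false,false,[1,0,-1],[0,1],
  [1,1,0,0,0,0,0,-1],(⟨0,[(18,0)]⟩,⟨0,[(19,0)]⟩),(⟨0,[(22,0)]⟩,⟨0,[(21,0)]⟩),⟨0,[(4,0)]⟩,.k,.k,.k,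
  .k,(.r (-1) ⟨0,[(17,0),(7,1),(0,0)]⟩ ⟨0,[(2,0),(21,0)]⟩),.k,⟨true,0,⟨0,[(17,0),(5,0),(1,1)]⟩,⟨0,
  [(2,0)]⟩⟩,⟨false,1,⟨1,[(6,0),(2,0),(0,0),(6,1),(8,1)]⟩,⟨0,[(12,0)]⟩⟩,⟨false,0,⟨0,[]⟩,⟨3,[(7,0),(0,
  0),(18,1)]⟩⟩,⟨true,0,⟨0,[(5,0)]⟩,⟨0,[(11,0),(13,0)]⟩⟩,⟨true,0,⟨0,[(24,0)]⟩,⟨0,[(25,0)]⟩⟩,⟨true,0,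
  ⟨0,[(1,0)]⟩,⟨0,[(11,0),(13,1)]⟩⟩,[.a ⟨true,0,⟨0,[(0,0)]⟩,⟨0,[(25,0)]⟩⟩ ⟨false,0,⟨0,[(17,0),(5,0),
  (1,0)]⟩,⟨1,[(6,0),(5,0),(3,0),(9,0),(0,0)]⟩⟩ ⟨true,0,⟨0,[(5,0),(11,0)]⟩,⟨0,[(12,0),(12,0)]⟩⟩,.o
  ⟨false,1,⟨0,[(24,0),(2,0)]⟩,⟨0,[(3,0),(8,0),(10,0),(1,1)]⟩⟩,.o ⟨false,1,⟨3,[(7,0),(0,0),(3,3),(13,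
  1)]⟩,⟨0,[(3,0)]⟩⟩,.o ⟨false,0,⟨0,[(12,0)]⟩,⟨0,[(15,0),(10,0)]⟩⟩]⟩) (.Q [0,1,-1,0,0,0,0,0,-1,0,0,
  1] (.p true [0,0,0,1] [] (⟨0,[(10,0)]⟩,⟨0,[(9,0)]⟩) .k 0 (⟨0,[]⟩,⟨0,[]⟩) .k .k) (.I [0,1,1,0,-1,0,
  0,0,-1] (.Q [0,1,1,0,0,0,0,0,1,0,0,-1] (.p false [0,0,0,1] [] (⟨0,[(12,0)]⟩,⟨0,[(11,0)]⟩) .k 0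
  (⟨0,[]⟩,⟨0,[]⟩) .k .k) (.K ⟨0,[0,0,0,1],0,0,(⟨0,[(13,0)]⟩,⟨0,[(12,0)]⟩),.k,(.r (-1) ⟨1,[(11,0),
  (16,1),(0,0)]⟩ ⟨4,[(1,2),(2,1),(0,0),(4,0),(3,1),(5,0),(9,1)]⟩),(.x 0 ⟨0,[(25,0)]⟩ ⟨3,[(10,0),(0,
  0),(11,1),(0,3)]⟩),.k,.k,[⟨0,[(13,0)]⟩,⟨0,[(12,0)]⟩,⟨0,[(2,0)]⟩,⟨0,[(0,0)]⟩]⟩) (.R ⟨2,false,false,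
  true,[0,1],[0,0,0,1],[],(⟨0,[]⟩,⟨0,[]⟩),(⟨0,[(13,0)]⟩,⟨0,[(12,0)]⟩),⟨0,[]⟩,.k,.k,.k,(.r 0 ⟨20,[(0,
  3),(0,6),(2,5),(0,8),(4,4),(1,3),(1,5),(5,8),(2,1)]⟩ ⟨1,[(11,0),(16,1),(0,0)]⟩),.k,.k,⟨true,0,⟨6,
  [(0,5),(0,0),(1,3),(1,2),(6,5),(7,2),(2,0),(2,0)]⟩,⟨0,[(1,0),(9,0)]⟩⟩,⟨false,0,⟨0,[(6,0),(5,0),(2,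
  0)]⟩,⟨1,[(0,0),(1,0),(8,0),(17,0)]⟩⟩,⟨false,1,⟨1,[(28,1),(0,0),(0,0)]⟩,⟨1,[(5,0),(14,0),(6,0)]⟩⟩,
  ⟨true,0,⟨0,[(1,0),(1,0),(7,0),(0,0)]⟩,⟨0,[(0,0),(26,0)]⟩⟩,⟨false,1,⟨1,[(29,0),(0,0)]⟩,⟨1,[(18,0),
  (0,0)]⟩⟩,⟨false,1,⟨7,[(10,0),(0,4),(0,7),(2,3),(2,3),(4,1)]⟩,⟨0,[(0,0)]⟩⟩,[.a ⟨true,0,⟨0,[(1,0),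
  (9,0),(0,0)]⟩,⟨0,[(0,0)]⟩⟩ ⟨false,1,⟨3,[(10,0),(0,0),(17,1)]⟩,⟨0,[]⟩⟩ ⟨true,0,⟨0,[(1,0),(4,0),(4,
  0),(0,0),(2,0)]⟩,⟨0,[(0,0)]⟩⟩,.o ⟨false,1,⟨7,[(10,0),(0,4),(0,7),(2,3),(2,3),(4,1)]⟩,⟨3,[(0,2),(0,
  0),(1,1),(9,0),(9,0),(2,1)]⟩⟩,.o ⟨false,1,⟨3,[(10,0),(0,0),(17,1)]⟩,⟨0,[(6,0),(8,0)]⟩⟩,.e ⟨false,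
  1,⟨1,[(29,0),(0,0)]⟩,⟨1,[(18,0),(0,0)]⟩⟩ ⟨false,1,⟨7,[(10,0),(0,4),(0,7),(2,3),(2,3),(4,1)]⟩,⟨0,
  [(0,0)]⟩⟩]⟩)) (.Q [0,1,1,0,0,0,0,0,1,0,0,-1] (.p false [0,0,0,1] [] (⟨0,[(12,0)]⟩,⟨0,[(11,0)]⟩)
  .k 0 (⟨0,[]⟩,⟨0,[]⟩) .k .k) (.K ⟨0,[0,0,0,1],0,0,(⟨0,[(13,0)]⟩,⟨0,[(12,0)]⟩),.k,(.x 0 ⟨0,[(15,0),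
  (2,0),(5,0)]⟩ ⟨0,[(25,0),(3,0)]⟩),(.x 0 ⟨0,[(25,0)]⟩ ⟨3,[(10,0),(0,0),(11,1),(0,3)]⟩),.k,.k,[⟨0,
  [(13,0)]⟩,⟨0,[(12,0)]⟩,⟨0,[(2,0)]⟩,⟨0,[(0,0)]⟩]⟩) (.Q [0,0,0,0,0,1,0,0,0,-1,0,1] (.ed false [0,1,
  0,1] .k) (.R ⟨0,false,false,true,[1,0,0,-1],[0,1],[0,1,0,0,0,0,0,0,-1],(⟨0,[(13,0)]⟩,⟨0,[(14,
  0)]⟩),(⟨0,[(26,0)]⟩,⟨0,[(25,0)]⟩),⟨0,[(0,0)]⟩,.k,.k,(.x (-1) ⟨3,[(11,0),(0,0),(11,1),(0,3)]⟩ ⟨0,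
  [(26,0)]⟩),(.x (-1) ⟨3,[(11,0),(0,0),(11,1),(0,3)]⟩ ⟨0,[(26,0)]⟩),.k,.k,⟨false,0,⟨0,[(1,0),(2,0),
  (8,0),(13,0),(1,0)]⟩,⟨3,[(6,1),(4,0),(0,2),(8,1),(6,1)]⟩⟩,⟨true,0,⟨0,[(13,0)]⟩,⟨0,[(7,0),(6,0),(1,
  0)]⟩⟩,⟨true,0,⟨0,[(33,0)]⟩,⟨0,[]⟩⟩,⟨false,1,⟨3,[(6,1),(4,0),(0,2),(0,3),(7,1),(6,1)]⟩,⟨0,[(1,0),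
  (2,0)]⟩⟩,⟨false,0,⟨0,[]⟩,⟨0,[]⟩⟩,⟨false,0,⟨0,[]⟩,⟨0,[]⟩⟩,[.o ⟨false,0,⟨0,[(28,0)]⟩,⟨3,[(4,3),(6,
  0),(0,0),(18,1)]⟩⟩,.o ⟨false,1,⟨3,[(11,0),(0,0),(15,3),(2,1)]⟩,⟨0,[(4,0)]⟩⟩,.o ⟨false,1,⟨1,[(1,0),
  (1,0),(8,0),(11,0)]⟩,⟨0,[(7,0),(5,0),(2,0)]⟩⟩,.a ⟨true,0,⟨0,[(14,0)]⟩,⟨0,[(13,0)]⟩⟩ ⟨false,0,⟨0,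
  [(1,0),(2,0),(8,0),(14,0)]⟩,⟨1,[(12,0),(6,0),(0,0),(10,0)]⟩⟩ ⟨true,0,⟨0,[(13,0),(14,0)]⟩,⟨0,[(4,
  0),(9,0)]⟩⟩]⟩) (.R ⟨1,false,false,true,[1,0,0,-1],[0,1],[1,1,0,0,0,0,0,0,-1],(⟨0,[(13,0)]⟩,⟨0,
  [(14,0)]⟩),(⟨0,[(26,0)]⟩,⟨0,[(25,0)]⟩),⟨0,[(0,0)]⟩,.k,.k,(.x (-1) ⟨3,[(11,0),(0,0),(11,1),(0,3)]⟩
  ⟨0,[(26,0)]⟩),(.x (-1) ⟨3,[(11,0),(0,0),(11,1),(0,3)]⟩ ⟨0,[(26,0)]⟩),(.r 0 ⟨0,[(1,0),(2,0),(8,0),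
  (13,0),(1,1)]⟩ ⟨3,[(6,3),(4,0),(0,2),(8,3),(6,3)]⟩),.k,⟨false,0,⟨0,[(1,0),(2,0),(8,0),(13,0),(1,
  0)]⟩,⟨3,[(6,1),(4,0),(0,2),(8,1),(6,1)]⟩⟩,⟨true,0,⟨0,[(13,0)]⟩,⟨0,[(7,0),(6,0),(1,0)]⟩⟩,⟨false,0,
  ⟨0,[]⟩,⟨3,[(11,0),(0,0),(18,1)]⟩⟩,⟨false,1,⟨3,[(6,1),(4,0),(0,2),(0,3),(7,1),(6,1)]⟩,⟨0,[(1,0),(2,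
  0)]⟩⟩,⟨true,0,⟨0,[(28,0)]⟩,⟨0,[(29,0)]⟩⟩,⟨false,1,⟨1,[(6,0),(5,0),(0,1),(7,0),(6,2),(2,0)]⟩,⟨0,
  [(1,0),(2,0),(24,0)]⟩⟩,[.o ⟨false,0,⟨0,[(28,0)]⟩,⟨3,[(4,3),(6,0),(0,0),(18,1)]⟩⟩,.o ⟨false,1,⟨3,
  [(11,0),(0,0),(15,3),(2,1)]⟩,⟨0,[(4,0)]⟩⟩,.o ⟨false,1,⟨1,[(1,0),(1,0),(8,0),(11,0)]⟩,⟨0,[(7,0),(5,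
  0),(2,0)]⟩⟩,.a ⟨true,0,⟨0,[(14,0)]⟩,⟨0,[(13,0)]⟩⟩ ⟨false,0,⟨0,[(1,0),(2,0),(8,0),(14,0)]⟩,⟨1,[(12,
  0),(6,0),(0,0),(10,0)]⟩⟩ ⟨true,0,⟨0,[(13,0),(14,0)]⟩,⟨0,[(4,0),(9,0)]⟩⟩]⟩)))) (.Q [0,0,0,0,0,1,0,
  0,0,-1,0,1] (.ed false [0,1,0,1] .k) (.Q [0,1,1,1,-1,0,0,0,1,1,0,-1] (.p false [0,0,0,1] [1] (⟨0,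
  [(12,0)]⟩,⟨0,[(11,0)]⟩) .k 1 (⟨0,[]⟩,⟨0,[]⟩) .k .k) (.K ⟨0,[0,0,0,1],0,(-1),(⟨0,[(13,0)]⟩,⟨0,[(12,
  0)]⟩),.k,(.x 0 ⟨0,[(15,0),(2,0),(5,0)]⟩ ⟨0,[(25,0),(3,0)]⟩),(.x 0 ⟨0,[(25,0)]⟩ ⟨3,[(10,0),(0,0),
  (11,1),(0,3)]⟩),.k,.k,[⟨0,[(13,0)]⟩,⟨0,[(12,0)]⟩,⟨1,[(10,0),(2,1),(15,0),(2,1)]⟩,⟨0,[(0,0),(2,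
  0)]⟩]⟩) (.R ⟨0,false,false,true,[1,0,0,-1],[0,1],[0,1,0,0,0,0,0,0,-1],(⟨0,[(12,0)]⟩,⟨0,[(13,0)]⟩),
  (⟨0,[(25,0)]⟩,⟨0,[(24,0)]⟩),⟨0,[(1,0)]⟩,.k,.k,(.x (-1) ⟨3,[(10,0),(0,0),(11,1),(0,3)]⟩ ⟨0,[(25,
  0)]⟩),(.x (-1) ⟨3,[(10,0),(0,0),(11,1),(0,3)]⟩ ⟨0,[(25,0)]⟩),.k,.k,⟨false,1,⟨0,[(0,0),(11,0),(13,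
  0),(1,0)]⟩,⟨0,[(2,0),(10,0),(13,0)]⟩⟩,⟨true,0,⟨0,[(12,0)]⟩,⟨0,[(6,0),(6,0),(1,0)]⟩⟩,⟨true,0,⟨0,
  [(32,0)]⟩,⟨0,[]⟩⟩,⟨false,0,⟨0,[(2,0),(5,0),(8,0)]⟩,⟨0,[(0,0)]⟩⟩,⟨false,0,⟨0,[]⟩,⟨0,[]⟩⟩,⟨false,0,
  ⟨0,[]⟩,⟨0,[]⟩⟩,[.o ⟨false,0,⟨0,[(27,0)]⟩,⟨3,[(0,1),(1,1),(0,1),(6,0),(0,0)]⟩⟩,.o ⟨false,1,⟨3,[(10,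
  0),(0,0),(15,3),(2,1)]⟩,⟨0,[(3,0)]⟩⟩,.o ⟨false,1,⟨3,[(0,1),(10,0),(1,1),(9,0),(2,1)]⟩,⟨0,[(6,0),
  (5,0),(2,0)]⟩⟩,.a ⟨true,0,⟨0,[(13,0)]⟩,⟨0,[(12,0)]⟩⟩ ⟨false,1,⟨1,[(10,0),(18,0)]⟩,⟨0,[(2,0),(10,
  0)]⟩⟩ ⟨true,0,⟨0,[(12,0),(14,0)]⟩,⟨0,[(3,0),(9,0)]⟩⟩]⟩)) (.Q [0,-1,-1,0,1,0,1,1,-1,0,-1,1] (.p
  false [0,0,1] [0,0,0,1] (⟨0,[(21,0)]⟩,⟨0,[(20,0)]⟩) .k 2 (⟨0,[(12,0)]⟩,⟨0,[(11,0)]⟩) .k (.r (-1)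
  ⟨1,[(8,0),(0,0),(4,0),(3,0),(9,0)]⟩ ⟨0,[(1,0),(10,0),(6,0),(5,0),(1,0)]⟩)) (.R ⟨1,false,false,
  true,[1,0,0,-1],[1,0,-1],[1,1,0,0,0,0,0,0,-1],(⟨0,[(12,0)]⟩,⟨0,[(13,0)]⟩),(⟨0,[(21,0)]⟩,⟨0,[(22,
  0)]⟩),⟨0,[(1,0)]⟩,.k,.k,(.x (-1) ⟨3,[(10,0),(0,0),(11,1),(0,3)]⟩ ⟨0,[(25,0)]⟩),.k,(.r (-1) ⟨0,[(0,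
  0),(11,0),(2,0),(10,0),(1,1)]⟩ ⟨0,[(2,0),(10,0),(6,0),(6,0)]⟩),.k,⟨false,1,⟨0,[(0,0),(11,0),(2,0),
  (10,0),(1,0)]⟩,⟨0,[(2,0),(10,0),(6,0),(5,0),(1,0)]⟩⟩,⟨true,0,⟨0,[(12,0),(2,0)]⟩,⟨0,[(6,0),(6,
  0)]⟩⟩,⟨false,0,⟨0,[]⟩,⟨3,[(10,0),(0,0),(18,1)]⟩⟩,⟨false,0,⟨0,[(2,0),(14,0)]⟩,⟨0,[(0,0)]⟩⟩,⟨true,0,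
  ⟨0,[(27,0)]⟩,⟨0,[(28,0)]⟩⟩,⟨false,0,⟨0,[(2,0),(16,0),(0,0),(5,0)]⟩,⟨0,[(0,0),(27,0)]⟩⟩,[.o ⟨false,
  0,⟨0,[(14,0)]⟩,⟨7,[(9,3),(0,0),(0,0),(11,1),(6,3)]⟩⟩,.o ⟨false,1,⟨1,[(17,1),(5,0),(6,0)]⟩,⟨2,[(3,
  1),(0,0),(4,0)]⟩⟩,.o ⟨false,1,⟨1,[(13,1),(9,0),(5,0)]⟩,⟨0,[(6,0),(5,0),(2,0)]⟩⟩,.a ⟨true,0,⟨0,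
  [(13,0)]⟩,⟨0,[(12,0)]⟩⟩ ⟨false,1,⟨1,[(10,0),(18,0)]⟩,⟨0,[(2,0),(10,0)]⟩⟩ ⟨true,0,⟨0,[(12,0),(1,
  0)]⟩,⟨2,[(3,1),(0,0),(4,0),(3,2)]⟩⟩]⟩) (.I [0,0,1,1,0,0,0,0,-1] (.K ⟨0,[0,0,0,1],0,(-1),(⟨0,[(14,
  0)]⟩,⟨0,[(13,0)]⟩),.k,(.r (-1) ⟨1,[(12,0),(16,1),(0,0)]⟩ ⟨0,[(0,0)]⟩),(.x 0 ⟨0,[(26,0)]⟩ ⟨3,[(11,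
  0),(0,0),(11,1),(0,3)]⟩),.k,.k,[⟨0,[(14,0)]⟩,⟨0,[(13,0)]⟩,⟨1,[(11,0),(2,1),(15,0),(2,1)]⟩,⟨2,[(1,
  2),(2,1),(0,0),(4,0)]⟩]⟩) (.I [0,0,-1,-1,0,0,0,0,1] (.K ⟨0,[0,0,0,1],0,(-1),(⟨0,[(15,0)]⟩,⟨0,[(14,
  0)]⟩),.k,(.r 0 ⟨0,[(0,0)]⟩ ⟨3,[(7,1),(4,2),(0,0),(8,1),(6,1)]⟩),(.x 0 ⟨0,[(27,0)]⟩ ⟨3,[(12,0),(0,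
  0),(11,1),(0,3)]⟩),.k,.k,[⟨0,[(15,0)]⟩,⟨0,[(14,0)]⟩,⟨1,[(12,0),(2,1),(15,0),(2,1)]⟩,⟨2,[(2,2),(2,
  1),(0,0),(4,0)]⟩]⟩) (.K ⟨0,[0,0,0,1],0,(-1),(⟨0,[(15,0)]⟩,⟨0,[(14,0)]⟩),.k,(.x 0 ⟨0,[(17,0),(2,0),
  (5,0)]⟩ ⟨0,[(27,0),(3,0)]⟩),(.x 0 ⟨0,[(27,0)]⟩ ⟨3,[(12,0),(0,0),(11,1),(0,3)]⟩),.k,.k,[⟨0,[(15,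
  0)]⟩,⟨0,[(14,0)]⟩,⟨1,[(12,0),(2,1),(15,0),(2,1)]⟩,⟨2,[(2,2),(2,1),(0,0),(4,0)]⟩]⟩))))))) (.R ⟨1,
  true,false,false,[1,0,-1],[0,1],[1,1,0,0,0,0,0,-1],(⟨0,[(17,0)]⟩,⟨0,[(18,0)]⟩),(⟨0,[(21,0)]⟩,⟨0,
  [(20,0)]⟩),⟨0,[(3,0)]⟩,.k,.k,.k,.k,(.r (-1) ⟨0,[(16,0),(7,1),(0,0)]⟩ ⟨0,[(1,0),(21,0)]⟩),.k,⟨true,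
  0,⟨0,[(16,0),(5,0),(1,1)]⟩,⟨0,[(1,0)]⟩⟩,⟨false,1,⟨1,[(5,0),(2,0),(0,0),(6,1),(8,1)]⟩,⟨0,[(11,
  0)]⟩⟩,⟨false,0,⟨0,[]⟩,⟨3,[(6,0),(0,0),(18,1)]⟩⟩,⟨true,0,⟨0,[(4,0)]⟩,⟨1,[(0,0),(9,0),(17,0)]⟩⟩,
  ⟨true,0,⟨0,[(23,0)]⟩,⟨0,[(24,0)]⟩⟩,⟨false,1,⟨0,[(4,0),(18,0),(2,0)]⟩,⟨0,[(0,0)]⟩⟩,[]⟩))

theorem ok5 : chk (cU (-1) true 3) t5 r3 = true := by decide +kernel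

noncomputable def t6 : Tre :=
  .I [1,1,-2,-1,0,0,0,-1] t4 t5

theorem ok6 : chk (cU (-1) true 3) t6 r2 = true :=
  chk_I (e' := [0,-1,2,1,0,0,0,1]) (by decide +kernel) (by decide +kernel) ok4 ok5

noncomputable def t7 : Tre :=
  .Q [0,0,0,0,0,0,-1,0,0,0,1] (.p true [0,0,1] [] (⟨0,[(15,0)]⟩,⟨0,[(14,0)]⟩) .k 0 (⟨0,[]⟩,⟨0,[]⟩)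
  .k .k) t1 t6

theorem ok7 : chk (cU (-1) true 3) t7 l1 = true :=
  chk_Q (e' := [0,0,0,0,0,0,1,0,0,0,-1]) (by decide +kernel) (by decide +kernel) ok1 ok6

noncomputable def t8 : Tre :=
  (.Q [0,0,0,1,0,0,0,0,0,1] (.pp false [-1,1]) (.K ⟨2,[-1,1,1],0,0,(⟨0,[(1,0)]⟩,⟨0,[(15,0),(2,0)]⟩),
  .k,.k,(.r 0 ⟨0,[(2,1),(6,1),(4,0)]⟩ ⟨0,[(14,0),(7,1),(0,0)]⟩),.k,.k,[⟨0,[(0,0)]⟩,⟨0,[(8,0),(13,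
  0)]⟩,⟨1,[(9,1),(2,0),(0,0)]⟩,⟨1,[(3,0),(2,0),(0,0),(6,1)]⟩]⟩) (.Q [0,0,-1,0,0,0,1,0,0,2,-1] (.p
  false [-1,1,1] [1] (⟨0,[(1,0)]⟩,⟨0,[(15,0),(2,0)]⟩) .k 1 (⟨0,[]⟩,⟨0,[]⟩) .k .k) (.R ⟨0,false,
  false,true,[-1,1,1],[0,1],[0,1,1],(⟨0,[(2,0)]⟩,⟨0,[(16,0),(2,0)]⟩),(⟨0,[(20,0)]⟩,⟨0,[(19,0)]⟩),⟨0,
  [(16,0)]⟩,.k,.k,.k,.k,.k,.k,⟨true,0,⟨0,[(23,0)]⟩,⟨0,[(3,0),(6,0),(4,0)]⟩⟩,⟨false,1,⟨0,[(10,0),(13,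
  0)]⟩,⟨1,[(0,0),(12,0)]⟩⟩,⟨false,0,⟨0,[(15,0),(7,0)]⟩,⟨1,[(3,1),(6,1),(13,0),(0,0)]⟩⟩,⟨true,0,⟨0,
  [(9,0)]⟩,⟨3,[(0,0),(3,1),(9,0)]⟩⟩,⟨false,0,⟨0,[]⟩,⟨0,[]⟩⟩,⟨false,0,⟨0,[]⟩,⟨0,[]⟩⟩,[.o ⟨false,0,⟨0,
  [(22,0)]⟩,⟨1,[(18,0),(4,1),(1,0)]⟩⟩,.o ⟨false,1,⟨3,[(5,0),(0,0),(15,3),(2,1)]⟩,⟨0,[(1,0)]⟩⟩,.a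
  ⟨true,0,⟨0,[(0,0)]⟩,⟨0,[(10,0)]⟩⟩ ⟨false,0,⟨1,[(13,0),(0,0)]⟩,⟨1,[(24,0),(0,0)]⟩⟩ ⟨true,0,⟨0,[(10,
  0),(11,0)]⟩,⟨0,[(0,0),(0,0)]⟩⟩,.o ⟨false,0,⟨1,[(0,0),(12,0)]⟩,⟨1,[(10,1),(7,0),(5,0)]⟩⟩]⟩) (.I [1,
  -1,-1,0,1,0,0,0,-1] (.Q [0,-1,-1,0,1,0,-1,-1,-1,-1,1,1] (.p true [0,0,1] [1,0,0,-1] (⟨0,[(18,0)]⟩,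
  ⟨0,[(17,0)]⟩) .k 2 (⟨0,[(8,0)]⟩,⟨0,[(9,0)]⟩) .k (.x 0 ⟨0,[(14,0),(3,0)]⟩ ⟨0,[(11,0),(5,0),(7,
  0)]⟩)) (.I [0,1,1,0,-1,0,0,0,-1] (.Q [0,1,1,0,0,0,0,0,1,0,0,-1] (.p false [0,0,0,1] [] (⟨0,[(11,
  0)]⟩,⟨0,[(10,0)]⟩) .k 0 (⟨0,[]⟩,⟨0,[]⟩) .k .k) (.K ⟨0,[0,0,0,1],0,0,(⟨0,[(12,0)]⟩,⟨0,[(11,0)]⟩),
  .k,(.r (-1) ⟨1,[(10,0),(16,1),(0,0)]⟩ ⟨0,[(1,0),(24,0),(2,0)]⟩),(.x 0 ⟨0,[(24,0)]⟩ ⟨3,[(9,0),(0,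
  0),(11,1),(0,3)]⟩),.k,.k,[⟨0,[(12,0)]⟩,⟨0,[(11,0)]⟩,⟨0,[(1,0),(10,0),(15,0)]⟩,⟨0,[(0,0)]⟩]⟩) (.R
  ⟨2,false,false,true,[0,1],[0,0,0,1],[],(⟨0,[]⟩,⟨0,[]⟩),(⟨0,[(12,0)]⟩,⟨0,[(11,0)]⟩),⟨0,[]⟩,.k,.k,
  .k,(.r 0 ⟨0,[(1,0),(24,0),(2,0)]⟩ ⟨1,[(10,0),(16,1),(0,0)]⟩),.k,.k,⟨true,0,⟨1,[(0,1),(3,0),(6,1),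
  (5,0)]⟩,⟨0,[(1,0),(8,0)]⟩⟩,⟨false,0,⟨1,[(4,0),(6,1),(5,0)]⟩,⟨0,[(12,0),(15,0)]⟩⟩,⟨false,1,⟨1,[(27,
  1),(0,0),(0,0)]⟩,⟨0,[(7,0),(6,0),(4,0)]⟩⟩,⟨true,0,⟨0,[(1,0),(3,0),(4,0),(0,0)]⟩,⟨0,[(0,0),(25,
  0)]⟩⟩,⟨false,1,⟨1,[(28,0),(0,0)]⟩,⟨1,[(17,0),(0,0)]⟩⟩,⟨false,1,⟨7,[(9,0),(0,4),(0,7),(2,3),(2,3),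
  (4,1)]⟩,⟨0,[(0,0)]⟩⟩,[.a ⟨true,0,⟨0,[(1,0),(8,0),(0,0)]⟩,⟨0,[(0,0)]⟩⟩ ⟨false,1,⟨3,[(9,0),(0,0),
  (17,1)]⟩,⟨0,[]⟩⟩ ⟨true,0,⟨1,[(1,1),(2,0),(5,1),(0,1),(5,0)]⟩,⟨0,[(0,0)]⟩⟩,.o ⟨false,1,⟨7,[(9,0),
  (0,4),(0,7),(2,3),(2,3),(4,1)]⟩,⟨3,[(0,2),(0,0),(3,1),(6,0),(9,0),(2,1)]⟩⟩,.o ⟨false,1,⟨3,[(9,0),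
  (0,0),(17,1)]⟩,⟨1,[(4,0),(12,0)]⟩⟩,.e ⟨false,1,⟨1,[(28,0),(0,0)]⟩,⟨1,[(17,0),(0,0)]⟩⟩ ⟨false,1,⟨7,
  [(9,0),(0,4),(0,7),(2,3),(2,3),(4,1)]⟩,⟨0,[(0,0)]⟩⟩]⟩)) (.Q [0,1,1,0,0,0,0,0,1,0,0,-1] (.p false
  [0,0,0,1] [] (⟨0,[(11,0)]⟩,⟨0,[(10,0)]⟩) .k 0 (⟨0,[]⟩,⟨0,[]⟩) .k .k) (.I [0,0,0,0,0,0,0,-1,-1]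
  (.Q [0,1,-1,0,0,0,0,0,-1,0,0,1] (.p true [0,0,0,1] [] (⟨0,[(13,0)]⟩,⟨0,[(12,0)]⟩) .k 0 (⟨0,[]⟩,⟨0,
  []⟩) .k .k) (.K ⟨0,[0,0,0,1],0,0,(⟨0,[(14,0)]⟩,⟨0,[(13,0)]⟩),.k,(.r (-1) ⟨1,[(12,0),(16,1),(0,
  0)]⟩ ⟨0,[(1,0),(7,0),(6,0)]⟩),(.x 0 ⟨0,[(26,0)]⟩ ⟨3,[(11,0),(0,0),(11,1),(0,3)]⟩),.k,.k,[⟨0,[(14,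
  0)]⟩,⟨0,[(13,0)]⟩,⟨0,[(0,0)]⟩,⟨0,[(2,0)]⟩]⟩) (.Q [0,0,0,0,0,1,0,0,0,-1,0,1] (.ed false [0,1,0,1]
  .k) (.R ⟨0,false,false,true,[1,0,0,-1],[0,1],[0,1,0,0,0,0,0,0,-1],(⟨0,[(14,0)]⟩,⟨0,[(15,0)]⟩),(⟨0,
  [(27,0)]⟩,⟨0,[(26,0)]⟩),⟨0,[(0,0)]⟩,.k,.k,(.x (-1) ⟨3,[(12,0),(0,0),(11,1),(0,3)]⟩ ⟨0,[(27,0)]⟩),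
  (.x (-1) ⟨3,[(12,0),(0,0),(11,1),(0,3)]⟩ ⟨0,[(27,0)]⟩),.k,.k,⟨false,1,⟨0,[(6,0),(21,0),(1,1)]⟩,⟨0,
  [(1,0),(13,0),(13,0)]⟩⟩,⟨true,0,⟨0,[(14,0)]⟩,⟨1,[(7,0),(7,1),(4,0)]⟩⟩,⟨true,0,⟨0,[(34,0)]⟩,⟨0,
  []⟩⟩,⟨false,0,⟨0,[(1,0),(8,0),(8,0)]⟩,⟨1,[(5,1),(2,0),(2,0),(18,0)]⟩⟩,⟨false,0,⟨0,[]⟩,⟨0,[]⟩⟩,
  ⟨false,0,⟨0,[]⟩,⟨0,[]⟩⟩,[.o ⟨false,0,⟨0,[(29,0)]⟩,⟨1,[(25,0),(4,1),(1,0)]⟩⟩,.o ⟨false,1,⟨3,[(12,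
  0),(0,0),(15,3),(2,1)]⟩,⟨0,[(8,0)]⟩⟩,.o ⟨false,1,⟨1,[(15,1),(9,0),(5,0)]⟩,⟨1,[(7,0),(6,1),(5,
  0)]⟩⟩,.a ⟨true,0,⟨0,[(15,0)]⟩,⟨0,[(14,0)]⟩⟩ ⟨false,1,⟨1,[(12,0),(18,0)]⟩,⟨0,[(1,0),(13,0)]⟩⟩
  ⟨true,0,⟨0,[(14,0),(14,0)]⟩,⟨0,[(8,0),(6,0)]⟩⟩]⟩) (.R ⟨1,false,false,false,[1,0,0,-1],[1,-1],[1,0,
  0,0,0,0,0,0,-1],(⟨0,[(14,0)]⟩,⟨0,[(15,0)]⟩),(⟨0,[(26,0)]⟩,⟨0,[(27,0)]⟩),⟨0,[(0,0)]⟩,.k,.k,(.x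
  (-1) ⟨3,[(12,0),(0,0),(11,1),(0,3)]⟩ ⟨0,[(27,0)]⟩),(.r 0 ⟨0,[(2,0),(7,0),(6,0)]⟩ ⟨1,[(13,0),(16,
  1),(0,0)]⟩),.k,.k,⟨true,0,⟨0,[(2,0),(7,0),(6,0)]⟩,⟨0,[(1,0),(13,0),(12,0),(1,1)]⟩⟩,⟨false,0,⟨1,
  [(7,0),(6,1),(5,0)]⟩,⟨0,[(15,0),(15,0)]⟩⟩,⟨true,0,⟨0,[]⟩,⟨0,[(34,0)]⟩⟩,⟨false,0,⟨0,[(1,0),(28,
  0)]⟩,⟨3,[(5,1),(4,1),(1,0),(2,1),(13,1),(1,0)]⟩⟩,⟨false,1,⟨0,[(29,0),(2,0)]⟩,⟨0,[(30,0)]⟩⟩,⟨false,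
  0,⟨0,[(1,0)]⟩,⟨1,[(12,0),(2,1),(15,0)]⟩⟩,[.o ⟨false,0,⟨0,[(8,0)]⟩,⟨3,[(12,0),(0,0),(15,3),(2,
  1)]⟩⟩,.o ⟨false,1,⟨1,[(25,0),(4,1),(1,0)]⟩,⟨0,[(29,0)]⟩⟩,.o ⟨false,1,⟨1,[(15,1),(9,0),(5,0)]⟩,⟨1,
  [(7,0),(6,1),(5,0)]⟩⟩,.a ⟨true,0,⟨0,[(15,0)]⟩,⟨0,[(14,0)]⟩⟩ ⟨false,1,⟨0,[(6,0)]⟩,⟨1,[(1,0),(1,0),
  (11,1)]⟩⟩ ⟨true,0,⟨0,[(8,0),(5,0)]⟩,⟨0,[(15,0),(13,0)]⟩⟩]⟩))) (.Q [0,1,-1,0,0,0,0,0,-1,0,0,1] (.p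
  true [0,0,0,1] [] (⟨0,[(13,0)]⟩,⟨0,[(12,0)]⟩) .k 0 (⟨0,[]⟩,⟨0,[]⟩) .k .k) (.K ⟨0,[0,0,0,1],0,0,
  (⟨0,[(14,0)]⟩,⟨0,[(13,0)]⟩),.k,(.x 0 ⟨0,[(16,0),(2,0),(5,0)]⟩ ⟨0,[(26,0),(3,0)]⟩),(.x 0 ⟨0,[(26,
  0)]⟩ ⟨3,[(11,0),(0,0),(11,1),(0,3)]⟩),.k,.k,[⟨0,[(14,0)]⟩,⟨0,[(13,0)]⟩,⟨0,[(0,0)]⟩,⟨0,[(2,0)]⟩]⟩)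
  (.Q [0,0,0,0,0,1,0,0,0,-1,0,1] (.ed false [0,1,0,1] .k) (.R ⟨0,false,false,true,[1,0,0,-1],[0,1],
  [0,1,0,0,0,0,0,0,-1],(⟨0,[(14,0)]⟩,⟨0,[(15,0)]⟩),(⟨0,[(27,0)]⟩,⟨0,[(26,0)]⟩),⟨0,[(0,0)]⟩,.k,.k,
  (.x (-1) ⟨3,[(12,0),(0,0),(11,1),(0,3)]⟩ ⟨0,[(27,0)]⟩),(.x (-1) ⟨3,[(12,0),(0,0),(11,1),(0,3)]⟩
  ⟨0,[(27,0)]⟩),.k,.k,⟨false,1,⟨0,[(6,0),(21,0),(1,1)]⟩,⟨0,[(1,0),(13,0),(13,0)]⟩⟩,⟨true,0,⟨0,[(14,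
  0)]⟩,⟨1,[(7,0),(7,1),(4,0)]⟩⟩,⟨true,0,⟨0,[(34,0)]⟩,⟨0,[]⟩⟩,⟨false,0,⟨0,[(1,0),(8,0),(8,0)]⟩,⟨1,
  [(5,1),(2,0),(2,0),(18,0)]⟩⟩,⟨false,0,⟨0,[]⟩,⟨0,[]⟩⟩,⟨false,0,⟨0,[]⟩,⟨0,[]⟩⟩,[.o ⟨false,0,⟨0,[(29,
  0)]⟩,⟨1,[(25,0),(4,1),(1,0)]⟩⟩,.o ⟨false,1,⟨3,[(12,0),(0,0),(15,3),(2,1)]⟩,⟨0,[(8,0)]⟩⟩,.o ⟨false,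
  1,⟨1,[(15,1),(9,0),(5,0)]⟩,⟨1,[(7,0),(6,1),(5,0)]⟩⟩,.a ⟨true,0,⟨0,[(15,0)]⟩,⟨0,[(14,0)]⟩⟩ ⟨false,
  1,⟨1,[(12,0),(18,0)]⟩,⟨0,[(1,0),(13,0)]⟩⟩ ⟨true,0,⟨0,[(14,0),(14,0)]⟩,⟨0,[(8,0),(6,0)]⟩⟩]⟩) (.R
  ⟨1,false,false,true,[1,0,0,-1],[0,1],[1,1,0,0,0,0,0,0,-1],(⟨0,[(14,0)]⟩,⟨0,[(15,0)]⟩),(⟨0,[(27,
  0)]⟩,⟨0,[(26,0)]⟩),⟨0,[(0,0)]⟩,.k,.k,(.x (-1) ⟨3,[(12,0),(0,0),(11,1),(0,3)]⟩ ⟨0,[(27,0)]⟩),(.x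
  (-1) ⟨3,[(12,0),(0,0),(11,1),(0,3)]⟩ ⟨0,[(27,0)]⟩),(.r (-1) ⟨0,[(6,0),(21,0),(1,2)]⟩ ⟨0,[(1,0),(8,
  0),(4,0),(1,0),(4,0),(6,0)]⟩),.k,⟨false,1,⟨0,[(6,0),(21,0),(1,1)]⟩,⟨0,[(1,0),(13,0),(13,0)]⟩⟩,
  ⟨true,0,⟨0,[(14,0)]⟩,⟨1,[(7,0),(7,1),(4,0)]⟩⟩,⟨false,0,⟨0,[]⟩,⟨3,[(12,0),(0,0),(18,1)]⟩⟩,⟨false,0,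
  ⟨0,[(1,0),(8,0),(8,0)]⟩,⟨1,[(5,1),(2,0),(2,0),(18,0)]⟩⟩,⟨true,0,⟨0,[(29,0)]⟩,⟨0,[(30,0)]⟩⟩,⟨false,
  0,⟨0,[(1,0),(8,0),(10,0),(0,0),(5,0)]⟩,⟨1,[(5,1),(2,0),(2,0),(18,2)]⟩⟩,[.o ⟨false,0,⟨0,[(29,0)]⟩,
  ⟨1,[(25,0),(4,1),(1,0)]⟩⟩,.o ⟨false,1,⟨3,[(12,0),(0,0),(15,3),(2,1)]⟩,⟨0,[(8,0)]⟩⟩,.o ⟨false,1,⟨1,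
  [(15,1),(9,0),(5,0)]⟩,⟨1,[(7,0),(6,1),(5,0)]⟩⟩,.a ⟨true,0,⟨0,[(15,0)]⟩,⟨0,[(14,0)]⟩⟩ ⟨false,1,⟨1,
  [(12,0),(18,0)]⟩,⟨0,[(1,0),(13,0)]⟩⟩ ⟨true,0,⟨0,[(14,0),(14,0)]⟩,⟨0,[(8,0),(6,0)]⟩⟩]⟩)))) (.Q [0,
  0,0,0,0,1,0,0,0,-1,0,1] (.ed false [0,1,0,1] .k) (.R ⟨0,false,false,true,[1,0,0,-1],[0,1],[0,1,0,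
  0,0,0,0,0,-1],(⟨0,[(12,0)]⟩,⟨0,[(13,0)]⟩),(⟨0,[(25,0)]⟩,⟨0,[(24,0)]⟩),⟨0,[(0,0)]⟩,.k,.k,(.x (-1)
  ⟨3,[(10,0),(0,0),(11,1),(0,3)]⟩ ⟨0,[(25,0)]⟩),(.x (-1) ⟨3,[(10,0),(0,0),(11,1),(0,3)]⟩ ⟨0,[(25,
  0)]⟩),.k,.k,⟨false,0,⟨0,[(1,0),(4,0),(5,0),(13,0),(1,0)]⟩,⟨1,[(11,0),(6,0),(0,0),(7,1),(2,0)]⟩⟩,
  ⟨true,0,⟨0,[(12,0)]⟩,⟨1,[(5,0),(7,1),(4,0)]⟩⟩,⟨true,0,⟨0,[(32,0)]⟩,⟨0,[]⟩⟩,⟨false,1,⟨1,[(11,0),(0,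
  1),(5,0),(0,0),(7,1),(2,0)]⟩,⟨0,[(1,0),(4,0)]⟩⟩,⟨false,0,⟨0,[]⟩,⟨0,[]⟩⟩,⟨false,0,⟨0,[]⟩,⟨0,[]⟩⟩,
  [.o ⟨false,0,⟨0,[(27,0)]⟩,⟨1,[(23,0),(4,1),(1,0)]⟩⟩,.o ⟨false,1,⟨3,[(10,0),(0,0),(15,3),(2,1)]⟩,
  ⟨0,[(6,0)]⟩⟩,.o ⟨false,1,⟨1,[(13,1),(9,0),(5,0)]⟩,⟨1,[(5,0),(6,1),(5,0)]⟩⟩,.a ⟨true,0,⟨0,[(13,
  0)]⟩,⟨0,[(12,0)]⟩⟩ ⟨false,0,⟨5,[(1,5),(3,0),(0,1),(5,5),(1,1),(1,1),(1,0),(7,1)]⟩,⟨1,[(11,0),(6,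
  0),(0,0),(10,0)]⟩⟩ ⟨true,0,⟨0,[(12,0),(14,0)]⟩,⟨0,[(6,0),(6,0)]⟩⟩]⟩) (.R ⟨1,false,false,true,[1,0,
  0,-1],[0,1],[0,1,0,-1,0,0,0,0,-1],(⟨0,[(12,0)]⟩,⟨0,[(13,0)]⟩),(⟨0,[(25,0)]⟩,⟨0,[(24,0)]⟩),⟨0,[(0,
  0)]⟩,.k,.k,(.x (-1) ⟨3,[(10,0),(0,0),(11,1),(0,3)]⟩ ⟨0,[(25,0)]⟩),(.x (-1) ⟨3,[(10,0),(0,0),(11,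
  1),(0,3)]⟩ ⟨0,[(25,0)]⟩),(.r 0 ⟨0,[(1,0),(4,0),(5,0),(13,0),(1,1)]⟩ ⟨1,[(8,1),(2,0),(3,1),(2,0),
  (0,0),(0,1),(6,1),(2,0)]⟩),.k,⟨false,0,⟨0,[(1,0),(4,0),(5,0),(13,0),(1,1)]⟩,⟨1,[(8,1),(2,0),(3,1),
  (4,1),(6,1),(2,0)]⟩⟩,⟨true,0,⟨0,[(12,0)]⟩,⟨1,[(5,0),(7,1),(4,0)]⟩⟩,⟨false,0,⟨0,[(28,0)]⟩,⟨0,[(27,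
  0),(2,0)]⟩⟩,⟨false,1,⟨1,[(11,0),(0,1),(5,0),(0,0),(7,1),(2,0)]⟩,⟨0,[(1,0),(4,0)]⟩⟩,⟨true,0,⟨0,
  [(32,0)]⟩,⟨0,[]⟩⟩,⟨false,1,⟨1,[(8,1),(2,0),(0,1),(2,1),(4,1),(6,1),(2,0)]⟩,⟨0,[(1,0),(4,0),(21,
  0)]⟩⟩,[.o ⟨false,0,⟨0,[(27,0)]⟩,⟨1,[(23,0),(4,1),(1,0)]⟩⟩,.o ⟨false,1,⟨3,[(10,0),(0,0),(15,3),(2,
  1)]⟩,⟨0,[(6,0)]⟩⟩,.o ⟨false,1,⟨1,[(13,1),(9,0),(5,0)]⟩,⟨1,[(5,0),(6,1),(5,0)]⟩⟩,.a ⟨true,0,⟨0,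
  [(13,0)]⟩,⟨0,[(12,0)]⟩⟩ ⟨false,0,⟨0,[(1,0),(4,0),(5,0),(19,0)]⟩,⟨1,[(8,1),(2,0),(3,1),(4,1),(9,
  0)]⟩⟩ ⟨true,0,⟨0,[(12,0),(14,0)]⟩,⟨0,[(6,0),(6,0)]⟩⟩]⟩)))) (.Q [0,0,0,0,0,1,0,0,0,-1,0,1] (.ed
  false [0,1,0,1] .k) (.R ⟨0,false,false,true,[1,0,0,-1],[0,0,1],[0,1,1,0,0,0,0,1],(⟨0,[(10,0)]⟩,⟨0,
  [(11,0)]⟩),(⟨0,[(20,0)]⟩,⟨0,[(19,0)]⟩),⟨0,[(0,0)]⟩,.k,.k,(.x (-1) ⟨3,[(8,0),(0,0),(11,1),(0,3)]⟩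
  ⟨0,[(23,0)]⟩),.k,.k,.k,⟨true,0,⟨1,[(16,0),(0,0)]⟩,⟨0,[]⟩⟩,⟨false,0,⟨0,[(1,0),(0,0),(15,0)]⟩,⟨0,
  [(11,0),(1,0),(13,0)]⟩⟩,⟨false,0,⟨1,[(1,1),(9,1),(1,1),(13,0),(0,0)]⟩,⟨0,[(2,0),(15,0)]⟩⟩,⟨true,
  (-1),⟨0,[(1,0)]⟩,⟨0,[(2,0),(8,0),(0,0)]⟩⟩,⟨false,0,⟨0,[]⟩,⟨0,[]⟩⟩,⟨false,0,⟨0,[]⟩,⟨0,[]⟩⟩,[.o
  ⟨false,0,⟨0,[(14,0)]⟩,⟨0,[(12,0),(15,0)]⟩⟩,.o ⟨false,0,⟨0,[(4,0),(1,0)]⟩,⟨1,[(15,1),(5,0),(6,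
  0)]⟩⟩,.o ⟨false,1,⟨1,[(11,1),(9,0),(5,0)]⟩,⟨1,[(3,0),(6,1),(5,0)]⟩⟩,.a ⟨true,0,⟨0,[(11,0)]⟩,⟨0,
  [(10,0)]⟩⟩ ⟨true,0,⟨1,[(7,0),(5,0),(3,0),(6,1),(1,1)]⟩,⟨0,[(18,0)]⟩⟩ ⟨false,0,⟨0,[(1,0),(0,0)]⟩,
  ⟨0,[(11,0),(0,0),(15,0)]⟩⟩]⟩) (.Q [0,-1,-1,-1,1,0,-1,-1,-1,-1,1,1] (.p true [0,0,1] [1,0,0,-1]
  (⟨0,[(20,0)]⟩,⟨0,[(19,0)]⟩) .k 2 (⟨0,[(10,0)]⟩,⟨0,[(11,0)]⟩) .k (.x 0 ⟨0,[(16,0),(3,0)]⟩ ⟨0,[(13,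
  0),(5,0),(7,0)]⟩)) (.R ⟨1,false,false,true,[1,0,0,-1],[0,0,1],[0,1,1,0,0,0,0,1],(⟨0,[(11,0)]⟩,⟨0,
  [(12,0)]⟩),(⟨0,[(21,0)]⟩,⟨0,[(20,0)]⟩),⟨0,[(1,0)]⟩,.k,.k,(.x (-1) ⟨3,[(9,0),(0,0),(11,1),(0,3)]⟩
  ⟨0,[(24,0)]⟩),.k,(.r (-1) ⟨1,[(9,0),(9,1),(7,1),(0,0)]⟩ ⟨0,[(2,0),(9,0),(1,0),(10,0),(3,0)]⟩),.k,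
  ⟨true,0,⟨1,[(17,0),(0,0)]⟩,⟨0,[]⟩⟩,⟨false,0,⟨0,[(2,0),(0,0),(15,0)]⟩,⟨0,[(12,0),(1,0),(13,0)]⟩⟩,
  ⟨false,0,⟨1,[(2,1),(9,1),(1,1),(13,0),(0,0)]⟩,⟨0,[(3,0),(15,0)]⟩⟩,⟨true,(-1),⟨0,[(2,0)]⟩,⟨0,[(0,
  0),(25,0)]⟩⟩,⟨false,0,⟨0,[(2,0),(9,0),(1,0),(10,0),(3,0)]⟩,⟨0,[(3,0),(15,0),(7,0)]⟩⟩,⟨false,0,⟨0,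
  [(2,0),(23,0),(2,0)]⟩,⟨0,[(0,0)]⟩⟩,[.o ⟨false,0,⟨0,[(15,0)]⟩,⟨0,[(13,0),(15,0)]⟩⟩,.o ⟨false,0,⟨0,
  [(5,0),(1,0)]⟩,⟨1,[(16,1),(5,0),(6,0)]⟩⟩,.o ⟨false,1,⟨1,[(12,1),(9,0),(5,0)]⟩,⟨1,[(4,0),(6,1),(5,
  0)]⟩⟩,.a ⟨true,0,⟨0,[(12,0)]⟩,⟨0,[(11,0)]⟩⟩ ⟨true,0,⟨1,[(8,0),(5,0),(3,0),(6,1),(1,1)]⟩,⟨0,[(19,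
  0)]⟩⟩ ⟨false,0,⟨0,[(2,0),(0,0)]⟩,⟨0,[(12,0),(0,0),(15,0)]⟩⟩]⟩) (.Q [0,1,1,-1,-1,0,0,0,1,0,0,-1]
  (.p false [0,0,0,1] [] (⟨0,[(12,0)]⟩,⟨0,[(11,0)]⟩) .k 0 (⟨0,[]⟩,⟨0,[]⟩) .k .k) (.R ⟨1,false,false,
  true,[1,0,0,-1],[1,-1],[0,1,0,-1],(⟨0,[(12,0)]⟩,⟨0,[(13,0)]⟩),(⟨0,[(24,0)]⟩,⟨0,[(25,0)]⟩),⟨0,[(2,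
  0)]⟩,.k,.k,(.x (-1) ⟨3,[(10,0),(0,0),(11,1),(0,3)]⟩ ⟨0,[(25,0)]⟩),(.x (-1) ⟨0,[(25,0),(3,0)]⟩ ⟨0,
  [(15,0),(2,0),(5,0)]⟩),.k,.k,⟨true,0,⟨1,[(18,0),(0,0)]⟩,⟨0,[]⟩⟩,⟨false,0,⟨1,[(5,0),(6,1),(5,0)]⟩,
  ⟨0,[(13,0),(15,0)]⟩⟩,⟨false,0,⟨1,[(0,1),(12,1),(15,0),(0,0)]⟩,⟨0,[(4,0),(3,0),(6,0),(4,0)]⟩⟩,
  ⟨true,(-1),⟨0,[(0,0)]⟩,⟨1,[(10,0),(2,1),(12,1),(3,0)]⟩⟩,⟨false,0,⟨0,[(0,0),(12,0),(12,0),(3,0)]⟩,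
  ⟨1,[(10,0),(19,0)]⟩⟩,⟨false,0,⟨7,[(0,1),(0,1),(3,2),(5,1),(0,3),(5,0),(1,1),(9,1)]⟩,⟨0,[(4,0),(8,
  0)]⟩⟩,[.o ⟨false,0,⟨0,[(6,0),(25,0)]⟩,⟨0,[(27,0),(2,0)]⟩⟩,.o ⟨false,0,⟨0,[(6,0)]⟩,⟨3,[(10,0),(0,
  0),(15,3),(2,1)]⟩⟩,.o ⟨false,1,⟨1,[(13,1),(9,0),(5,0)]⟩,⟨1,[(5,0),(6,1),(5,0)]⟩⟩,.a ⟨true,0,⟨0,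
  [(13,0)]⟩,⟨0,[(12,0)]⟩⟩ ⟨true,0,⟨0,[(26,0),(1,1)]⟩,⟨0,[(8,0),(6,0),(4,0)]⟩⟩ ⟨false,0,⟨0,[(6,0),(5,
  0)]⟩,⟨0,[(13,0),(13,0),(2,0)]⟩⟩]⟩) (.I [0,0,0,-1,0,0,0,-1,-1] (.R ⟨1,false,false,false,[1,0,0,-1],
  [0,0,1],[0,0,0,-1,0,0,0,0,-1],(⟨0,[(13,0)]⟩,⟨0,[(14,0)]⟩),(⟨0,[(23,0)]⟩,⟨0,[(22,0)]⟩),⟨0,[(3,0)]⟩,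
  .k,.k,(.x (-1) ⟨3,[(11,0),(0,0),(11,1),(0,3)]⟩ ⟨0,[(26,0)]⟩),.k,(.r (-1) ⟨3,[(0,3),(10,0),(0,0),
  (17,1)]⟩ ⟨1,[(2,1),(11,1),(1,1),(13,0),(0,0)]⟩),.k,⟨true,0,⟨0,[(0,0)]⟩,⟨1,[(2,1),(11,1),(1,1),(13,
  0),(0,0)]⟩⟩,⟨false,0,⟨2,[(2,0),(2,0),(1,0),(2,0),(2,1),(7,2)]⟩,⟨0,[(14,0),(1,0),(13,0)]⟩⟩,⟨true,0,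
  ⟨0,[(29,0)]⟩,⟨0,[(28,0)]⟩⟩,⟨false,0,⟨0,[(4,0),(26,0)]⟩,⟨0,[(1,0),(5,0),(10,0)]⟩⟩,⟨false,1,⟨3,[(11,
  0),(0,0),(18,1)]⟩,⟨0,[]⟩⟩,⟨false,0,⟨0,[(2,0),(28,0)]⟩,⟨0,[(1,0),(5,0),(10,0),(10,0)]⟩⟩,[.o ⟨false,
  0,⟨2,[(1,0),(0,0),(4,1),(2,0)]⟩,⟨1,[(18,1),(5,0),(6,0)]⟩⟩,.o ⟨false,1,⟨7,[(10,3),(0,0),(0,0),(11,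
  1),(6,3)]⟩,⟨0,[(15,0)]⟩⟩,.o ⟨false,1,⟨1,[(14,1),(9,0),(5,0)]⟩,⟨1,[(6,0),(6,1),(5,0)]⟩⟩,.a ⟨true,0,
  ⟨0,[(14,0)]⟩,⟨0,[(13,0)]⟩⟩ ⟨false,1,⟨0,[(5,0),(23,0)]⟩,⟨5,[(2,3),(9,0),(1,3),(1,3),(4,3),(5,1),(3,
  2)]⟩⟩ ⟨true,0,⟨2,[(2,0),(2,0),(1,0),(2,0),(2,1)]⟩,⟨0,[(14,0),(0,0)]⟩⟩]⟩) (.I [0,1,-1,-1,0,0,0,1,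
  -1] (.R ⟨1,false,false,false,[1,0,0,-1],[1,0,-1],[0,1,0,-1,0,0,0,0,-1],(⟨0,[(14,0)]⟩,⟨0,[(15,
  0)]⟩),(⟨0,[(23,0)]⟩,⟨0,[(24,0)]⟩),⟨0,[(4,0)]⟩,.k,.k,(.x (-1) ⟨3,[(12,0),(0,0),(11,1),(0,3)]⟩ ⟨0,
  [(27,0)]⟩),.k,(.r (-1) ⟨3,[(0,3),(11,0),(0,0),(18,1)]⟩ ⟨1,[(1,1),(18,0),(0,0),(0,3)]⟩),.k,⟨false,
  0,⟨0,[(0,0)]⟩,⟨3,[(1,1),(11,0),(8,5),(6,1),(2,2)]⟩⟩,⟨true,0,⟨0,[(14,0),(2,0)]⟩,⟨2,[(2,0),(0,0),(4,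
  1),(2,0),(3,2),(6,2)]⟩⟩,⟨false,0,⟨0,[(30,0)]⟩,⟨0,[(29,0),(2,0)]⟩⟩,⟨true,0,⟨0,[(1,0),(12,0),(2,0),
  (4,1),(7,0)]⟩,⟨0,[(0,0),(1,0),(0,0),(4,0),(6,0),(6,0)]⟩⟩,⟨true,0,⟨0,[(34,0)]⟩,⟨0,[]⟩⟩,⟨true,0,⟨0,
  [(1,0),(12,0),(2,0),(4,1)]⟩,⟨2,[(0,2),(1,0),(0,0),(4,1),(2,0),(3,2),(6,2)]⟩⟩,[.o ⟨false,1,⟨1,[(19,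
  1),(5,0),(6,0)]⟩,⟨2,[(2,0),(0,0),(4,1),(2,0)]⟩⟩,.o ⟨false,1,⟨0,[(16,0),(15,0)]⟩,⟨0,[(18,0)]⟩⟩,.o
  ⟨false,1,⟨1,[(15,1),(9,0),(5,0)]⟩,⟨1,[(7,0),(6,1),(5,0)]⟩⟩,.a ⟨true,0,⟨0,[(15,0)]⟩,⟨0,[(14,0)]⟩⟩
  ⟨true,0,⟨0,[(0,0),(21,0)]⟩,⟨1,[(1,1),(18,0),(0,0),(0,1)]⟩⟩ ⟨false,1,⟨0,[(14,0),(1,0),(15,0)]⟩,⟨2,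
  [(2,0),(0,0),(4,1),(2,0),(3,2)]⟩⟩]⟩) (.I [0,-1,-1,-1,1,0,0,1,-1] (.R ⟨1,false,false,true,[1,0,0,
  -1],[1,0,-1],[0,0,0,-1,0,0,0,0,-1],(⟨0,[(15,0)]⟩,⟨0,[(16,0)]⟩),(⟨0,[(24,0)]⟩,⟨0,[(25,0)]⟩),⟨0,[(5,
  0)]⟩,.k,.k,(.x (-1) ⟨3,[(13,0),(0,0),(11,1),(0,3)]⟩ ⟨0,[(28,0)]⟩),.k,(.r (-1) ⟨0,[(0,0),(34,0)]⟩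
  ⟨9,[(1,6),(4,0),(7,0),(1,0),(0,0),(2,1),(0,1),(1,0),(6,2)]⟩),.k,⟨false,1,⟨0,[(0,0)]⟩,⟨6,[(1,0),(2,
  1),(9,1),(1,1),(0,1),(5,5),(5,2),(0,0)]⟩⟩,⟨true,0,⟨0,[(15,0),(2,0)]⟩,⟨2,[(3,0),(0,0),(4,1),(2,0),
  (3,2),(6,2)]⟩⟩,⟨true,0,⟨0,[(31,0)]⟩,⟨0,[(30,0)]⟩⟩,⟨false,0,⟨2,[(1,1),(0,0),(5,0),(0,0),(5,2),(4,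
  1),(10,1)]⟩,⟨3,[(0,0),(2,2),(5,1),(2,1),(3,0),(6,0)]⟩⟩,⟨false,1,⟨3,[(13,0),(0,0),(18,1)]⟩,⟨0,[]⟩⟩,
  ⟨false,0,⟨2,[(1,1),(0,0),(5,0),(6,2),(1,0),(2,0)]⟩,⟨3,[(0,2),(2,0),(5,1),(2,1),(3,2),(6,2)]⟩⟩,[.o
  ⟨false,0,⟨0,[(17,0)]⟩,⟨7,[(12,3),(0,0),(0,0),(11,1),(6,3)]⟩⟩,.o ⟨false,1,⟨1,[(20,1),(5,0),(6,0)]⟩,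
  ⟨2,[(3,0),(0,0),(4,1),(2,0)]⟩⟩,.o ⟨false,1,⟨1,[(16,1),(9,0),(5,0)]⟩,⟨1,[(8,0),(6,1),(5,0)]⟩⟩,.a
  ⟨true,0,⟨0,[(16,0)]⟩,⟨0,[(15,0)]⟩⟩ ⟨false,1,⟨0,[(0,0),(22,0)]⟩,⟨4,[(1,1),(2,0),(6,0),(2,0),(1,0),
  (1,1),(11,0)]⟩⟩ ⟨true,0,⟨0,[(15,0),(1,0)]⟩,⟨2,[(3,0),(0,0),(4,1),(2,0),(3,2)]⟩⟩]⟩) (.Q [0,-1,1,2,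
  0,0,1,1,1,2,-1,-1] (.p false [-1,1,1] [1,0,0,-1] (⟨0,[(10,0)]⟩,⟨0,[(24,0),(2,0)]⟩) .k 2 (⟨0,[(15,
  0)]⟩,⟨0,[(16,0)]⟩) .k (.r 0 ⟨0,[(2,0),(28,0)]⟩ ⟨3,[(13,2),(0,0),(8,3)]⟩)) (.R ⟨1,false,false,
  false,[1,0,0,-1],[-1,1,1],[1,0,0,0,0,0,0,0,-1],(⟨0,[(16,0)]⟩,⟨0,[(17,0)]⟩),(⟨0,[(11,0)]⟩,⟨0,[(25,
  0),(2,0)]⟩),⟨0,[(6,0)]⟩,.k,.k,(.x (-1) ⟨3,[(14,0),(0,0),(11,1),(0,3)]⟩ ⟨0,[(29,0)]⟩),(.r (-1) ⟨1,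
  [(14,0),(9,1),(7,1),(0,0)]⟩ ⟨16,[(0,3),(0,0),(1,6),(1,0),(7,1),(1,1),(1,4),(1,10),(0,1)]⟩),(.r
  (-1) ⟨0,[(8,0),(15,0),(5,0),(1,2)]⟩ ⟨1,[(0,0),(2,0),(13,0),(1,1),(2,0),(8,0)]⟩),.k,⟨false,1,⟨0,
  [(8,0),(15,0),(5,0),(1,1)]⟩,⟨16,[(0,3),(0,0),(1,6),(1,0),(7,1),(1,1),(1,4),(1,10),(0,1)]⟩⟩,⟨true,
  0,⟨1,[(13,0),(2,2),(0,0),(6,1)]⟩,⟨0,[(9,0),(7,0)]⟩⟩,⟨true,0,⟨0,[]⟩,⟨0,[(36,0)]⟩⟩,⟨false,0,⟨0,[(0,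
  0),(31,0)]⟩,⟨0,[(4,0),(5,1),(10,0)]⟩⟩,⟨false,1,⟨2,[(0,0),(3,0),(16,0),(5,0),(6,0)]⟩,⟨0,[(32,0)]⟩⟩,
  ⟨false,0,⟨0,[(0,0)]⟩,⟨0,[(4,0),(5,1),(10,0),(10,0)]⟩⟩,[.o ⟨false,0,⟨0,[(12,0)]⟩,⟨1,[(10,1),(10,1),
  (5,0),(6,0)]⟩⟩,.o ⟨false,1,⟨11,[(0,3),(3,3),(8,3),(0,2),(0,2),(18,1)]⟩,⟨0,[(10,0),(7,0)]⟩⟩,.o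
  ⟨false,1,⟨1,[(17,1),(9,0),(5,0)]⟩,⟨1,[(9,0),(6,1),(5,0)]⟩⟩,.a ⟨true,0,⟨0,[(17,0)]⟩,⟨0,[(16,0)]⟩⟩
  ⟨false,1,⟨0,[(8,0)]⟩,⟨7,[(2,1),(4,1),(7,1),(1,1),(1,1),(2,0),(0,0),(8,1)]⟩⟩ ⟨true,0,⟨0,[(12,0),(3,
  0)]⟩,⟨0,[(10,0),(6,0),(0,0)]⟩⟩]⟩) (.R ⟨1,true,false,false,[1,0,0,-1],[-1,1,1],[1,0,0,0,0,0,0,0,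
  -1],(⟨0,[(16,0)]⟩,⟨0,[(17,0)]⟩),(⟨0,[(11,0)]⟩,⟨0,[(25,0),(2,0)]⟩),⟨0,[(6,0)]⟩,.k,.k,(.x (-1) ⟨3,
  [(14,0),(0,0),(11,1),(0,3)]⟩ ⟨0,[(29,0)]⟩),(.r (-1) ⟨1,[(14,0),(9,1),(7,1),(0,0)]⟩ ⟨1,[(3,1),(18,
  0),(0,0)]⟩),(.r (-1) ⟨3,[(0,1),(3,0),(3,0),(4,0),(2,2),(7,3),(7,4),(0,1)]⟩ ⟨3,[(1,0),(0,0),(9,5),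
  (2,0),(3,5)]⟩),.k,⟨false,1,⟨3,[(0,1),(3,0),(3,0),(4,0),(2,2),(7,3),(7,0),(0,1)]⟩,⟨1,[(3,1),(18,0),
  (0,0)]⟩⟩,⟨true,0,⟨1,[(13,0),(2,2),(0,0),(6,1)]⟩,⟨0,[(9,0),(7,0)]⟩⟩,⟨true,0,⟨0,[]⟩,⟨0,[(36,0)]⟩⟩,
  ⟨false,0,⟨0,[(5,0),(10,0),(0,0),(16,0)]⟩,⟨2,[(0,1),(3,0),(16,0),(5,0),(6,0)]⟩⟩,⟨false,1,⟨0,[(31,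
  0),(2,0)]⟩,⟨0,[(32,0)]⟩⟩,⟨true,0,⟨27,[(2,11),(0,3),(1,7),(6,27),(1,2),(0,4),(0,19),(6,7),(7,3)]⟩,
  ⟨0,[(0,0)]⟩⟩,[]⟩))))))))) (.Q [0,1,1,0,-1,0,0,0,1,0,0,-1] (.p false [0,0,0,1] [] (⟨0,[(9,0)]⟩,⟨0,
  [(8,0)]⟩) .k 0 (⟨0,[]⟩,⟨0,[]⟩) .k .k) (.K ⟨0,[0,0,0,1],0,(-1),(⟨0,[(10,0)]⟩,⟨0,[(9,0)]⟩),.k,(.x 0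
  ⟨0,[(12,0),(2,0),(5,0)]⟩ ⟨0,[(22,0),(3,0)]⟩),(.x 0 ⟨0,[(22,0)]⟩ ⟨3,[(7,0),(0,0),(11,1),(0,3)]⟩),
  .k,.k,[⟨0,[(10,0)]⟩,⟨0,[(9,0)]⟩,⟨1,[(7,0),(2,1),(15,0),(2,1)]⟩,⟨0,[(0,0)]⟩]⟩) (.R ⟨0,false,false,
  true,[1,0,-1],[0,0,0,1],[],(⟨0,[(18,0)]⟩,⟨0,[(19,0)]⟩),(⟨0,[(10,0)]⟩,⟨0,[(9,0)]⟩),⟨0,[(4,0)]⟩,.k,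
  .k,.k,.k,.k,.k,⟨true,1,⟨1,[(7,0),(19,0)]⟩,⟨0,[(1,0)]⟩⟩,⟨false,0,⟨0,[(3,0),(1,0),(3,0),(7,0)]⟩,⟨0,
  [(10,0),(1,0),(13,0)]⟩⟩,⟨false,1,⟨1,[(6,0),(5,0),(3,0),(9,0),(0,0)]⟩,⟨0,[(17,0)]⟩⟩,⟨true,(-1),⟨0,
  [(1,0),(1,0),(1,0),(3,0)]⟩,⟨0,[(0,0),(10,0)]⟩⟩,⟨false,0,⟨0,[]⟩,⟨0,[]⟩⟩,⟨false,0,⟨0,[]⟩,⟨0,[]⟩⟩,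
  [.a ⟨true,(-1),⟨0,[(1,0),(7,0)]⟩,⟨0,[(0,0)]⟩⟩ ⟨false,1,⟨3,[(7,0),(0,0),(17,1)]⟩,⟨0,[]⟩⟩ ⟨true,
  (-1),⟨0,[(1,0),(1,0),(1,0),(3,0),(7,0)]⟩,⟨0,[(0,0),(11,0)]⟩⟩,.o ⟨false,0,⟨1,[(1,1),(7,1),(10,0),
  (6,0)]⟩,⟨3,[(0,1),(2,1),(3,0),(2,1),(9,0),(2,1)]⟩⟩,.o ⟨false,1,⟨3,[(7,0),(0,0),(3,3),(13,1)]⟩,⟨0,
  [(3,0),(1,0),(11,0)]⟩⟩,.o ⟨false,0,⟨0,[(12,0)]⟩,⟨0,[(15,0),(10,0)]⟩⟩]⟩)))))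

theorem ok8 : chk (cU (-1) true 3) t8 r1 = true := by decide +kernel

noncomputable def t9 : Tre :=
  .Q [0,0,0,0,0,-1,0,0,0,1,-1] (.ed true [0,1,1] .k) t7 t8

theorem ok9 : chk (cU (-1) true 3) t9 r0 = true :=
  chk_Q (e' := [0,0,0,0,0,1,0,0,0,-1,1]) (by decide +kernel) (by decide +kernel) ok7 ok8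

noncomputable def t10 : Tre :=
  .Q [0,0,0,-1,0,0,-1,-1,0,-1,1] (.p true [0,0,1] [1] (⟨0,[(13,0)]⟩,⟨0,[(12,0)]⟩) .k 1 (⟨0,[]⟩,⟨0,
  []⟩) .k .k) t0 t9

theorem ok10 : chk (cU (-1) true 3) t10 base = true :=
  chk_Q (e' := [0,0,0,1,0,0,1,1,0,1,-1]) (by decide +kernel) (by decide +kernel) ok0 ok9

theorem ok : chkB (cU (-1) true 3) (fax (fcU (-1)) false 1 (-1) 3 false (tU true)) t10 base = true :=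
  chkB_of (by decide +kernel) ok10

end Helper11.CT.Tm1_1_m1_m1_u
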