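import Pool.Agent.Helper11.CT.Cfg
import Pool.Agent.Helper11.CT.Cut

set_option autoImplicit false
set_option linter.all false

namespace Helper11.CT.Tm1_1_m1_m1_v

open Helper11.CT

noncomputable def base : List Con :=
  [(false,[0,0,0,0,0,0,2,2,0,1,-2]),
  (true,[0,0,0,0,1,0,0,0,-2]),
  (true,[0,0,0,0,1,0,0,0,2]),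
  (false,[0,0,0,0,0,0,0,0,0,1,0,-2]),
  (false,[0,0,0,0,0,0,0,0,0,0,0,1]),
  (false,[0,1,0,0,0,0,-1,-1,0,-1,1]),
  (false,[0,0,1,0,0,0,-1,0,0,-1,1]),
  (false,[0,1,0,0,0,0,1,1,0,0,-1]),
  (false,[0,1,0,0,0,0,-1,-1,0,0,1]),
  (false,[0,0,1,0,0,0,1,0,0,0,-1]),
  (false,[0,0,1,0,0,0,-1,0,0,0,1]),
  (true,[0,0,0,0,0,0,0,-1]),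
  (false,[0,0,0,0,0,0,0,0,0,1,-1]),
  (false,[0,0,0,0,0,0,0,0,0,0,1]),
  (false,[0,0,0,0,1,0,0,0,0,-2]),
  (false,[0,0,0,0,0,-1,0,0,0,1]),
  (true,[0,0,0,0,0,1]),
  (true,[0,1,-1,1]),
  (true,[0,1,0,1]),
  (true,[0,0,0,-1]),
  (true,[0,0,-2,0,1]),
  (true,[0,-2,0,0,1]),
  (true,[-1,0,1]),
  (true,[-1,1])]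

noncomputable def l0 : List Con := (false, [0,0,0,-1,0,0,-1,-1,0,-1,1]) :: base

noncomputable def r0 : List Con := (false, [0,0,0,1,0,0,1,1,0,1,-1]) :: base

noncomputable def t0 : Tre :=
  (.R ⟨2,true,false,true,[0,1],[1,0,-1],[0,0,1],(⟨0,[]⟩,⟨0,[]⟩),(⟨0,[(13,0)]⟩,⟨0,[(14,0)]⟩),⟨0,[]⟩,
  .k,.k,.k,.k,.k,.k,⟨false,1,⟨1,[(1,0),(5,0),(3,0),(9,0),(0,0)]⟩,⟨0,[(12,0),(5,0),(1,0)]⟩⟩,⟨true,0,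
  ⟨0,[(7,0)]⟩,⟨1,[(1,0),(10,1),(0,0),(0,0)]⟩⟩,⟨true,0,⟨0,[(20,0)]⟩,⟨0,[(19,0)]⟩⟩,⟨false,0,⟨0,[(0,
  0)]⟩,⟨1,[(1,0),(11,0),(0,0),(4,1),(2,1)]⟩⟩,⟨false,1,⟨3,[(2,0),(0,0),(18,1)]⟩,⟨0,[]⟩⟩,⟨true,0,⟨0,
  [(6,0)]⟩,⟨1,[(1,0),(11,0),(0,0)]⟩⟩,[]⟩)

theorem ok0 : chk (cU (-1) false 3) t0 l0 = true := by decide +kernel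

noncomputable def l1 : List Con := (false, [0,0,0,0,0,-1,0,0,0,1,-1]) :: r0

noncomputable def r1 : List Con := (false, [0,0,0,0,0,1,0,0,0,-1,1]) :: r0

noncomputable def l2 : List Con := (false, [0,0,0,0,0,0,-1,0,0,0,1]) :: l1

noncomputable def r2 : List Con := (false, [0,0,0,0,0,0,1,0,0,0,-1]) :: l1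

noncomputable def t1 : Tre :=
  (.K ⟨0,[1,-1,-1],0,0,(⟨0,[(1,0)]⟩,⟨0,[(16,0),(2,0)]⟩),.k,(.r (-1) ⟨0,[(14,0),(7,1),(0,0)]⟩ ⟨0,[(2,
  1),(6,1),(4,0)]⟩),.k,.k,.k,[⟨1,[(3,0),(10,1),(0,0),(0,0)]⟩,⟨0,[(0,0)]⟩,⟨0,[(2,0),(23,0)]⟩,⟨0,[(8,
  0),(13,0)]⟩]⟩)

theorem ok1 : chk (cU (-1) false 3) t1 l2 = true := by decide +kernel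

noncomputable def l3 : List Con := (true, [1,1,-2,-1,0,0,0,-1]) :: r2

noncomputable def r3 : List Con := (true, [0,-1,2,1,0,0,0,1]) :: r2

noncomputable def t2 : Tre :=
  (.Q [0,0,0,-1,0,0,1,1,0,0,-1] (.p false [0,0,1] [] (⟨0,[(17,0)]⟩,⟨0,[(16,0)]⟩) .k 0 (⟨0,[]⟩,⟨0,
  []⟩) .k .k) (.Q [0,0,0,0,0,0,-1,-1,0,0,1] (.p true [0,0,1] [] (⟨0,[(18,0)]⟩,⟨0,[(17,0)]⟩) .k 0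
  (⟨0,[]⟩,⟨0,[]⟩) .k .k) (.R ⟨2,false,false,false,[0,1],[0,0,1],[],(⟨0,[]⟩,⟨0,[]⟩),(⟨0,[(19,0)]⟩,⟨0,
  [(18,0)]⟩),⟨0,[]⟩,.k,.k,.k,.k,.k,.k,⟨true,0,⟨0,[(17,0)]⟩,⟨1,[(6,0),(5,0),(3,0)]⟩⟩,⟨false,0,⟨0,[(3,
  0)]⟩,⟨0,[(16,0),(9,0)]⟩⟩,⟨false,1,⟨1,[(25,1),(0,0),(0,0)]⟩,⟨0,[(5,0),(6,0),(4,0)]⟩⟩,⟨true,0,⟨0,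
  [(1,0)]⟩,⟨0,[(0,0),(23,0)]⟩⟩,⟨false,1,⟨1,[(26,0),(0,0)]⟩,⟨1,[(15,0),(0,0)]⟩⟩,⟨false,1,⟨7,[(6,3),
  (0,0),(0,0),(11,1),(6,3)]⟩,⟨0,[(0,0)]⟩⟩,[.a ⟨true,0,⟨1,[(6,0),(11,0),(0,0)]⟩,⟨0,[(0,0)]⟩⟩ ⟨false,
  1,⟨3,[(7,0),(0,0),(17,1)]⟩,⟨0,[]⟩⟩ ⟨true,0,⟨1,[(6,0),(5,0),(2,0)]⟩,⟨0,[(0,0)]⟩⟩,.o ⟨false,1,⟨7,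
  [(6,3),(0,0),(0,0),(11,1),(6,3)]⟩,⟨0,[(11,0)]⟩⟩,.o ⟨false,1,⟨3,[(7,0),(0,0),(17,1)]⟩,⟨0,[(3,0),(8,
  0)]⟩⟩,.e ⟨false,1,⟨1,[(26,0),(0,0)]⟩,⟨1,[(15,0),(0,0)]⟩⟩ ⟨false,1,⟨7,[(6,3),(0,0),(0,0),(11,1),(6,
  3)]⟩,⟨0,[(0,0)]⟩⟩]⟩) (.Q [0,0,0,-1,0,0,-1,-1,0,0,1] (.p true [0,0,1] [] (⟨0,[(19,0)]⟩,⟨0,[(18,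
  0)]⟩) .k 0 (⟨0,[]⟩,⟨0,[]⟩) .k .k) (.R ⟨2,true,false,false,[0,1],[0,1,1],[0,1,1],(⟨0,[]⟩,⟨0,[]⟩),
  (⟨0,[(20,0),(2,0)]⟩,⟨0,[(5,0)]⟩),⟨0,[]⟩,.k,.k,.k,.k,.k,.k,⟨false,0,⟨2,[(0,0),(2,1),(12,0),(13,
  0)]⟩,⟨1,[(6,1),(6,1),(13,0),(0,0)]⟩⟩,⟨true,0,⟨0,[(4,0)]⟩,⟨0,[(17,0)]⟩⟩,⟨false,0,⟨0,[(26,0)]⟩,⟨0,
  [(25,0),(2,0)]⟩⟩,⟨true,0,⟨0,[(1,0)]⟩,⟨0,[(15,0)]⟩⟩,⟨true,0,⟨0,[(30,0)]⟩,⟨0,[]⟩⟩,⟨false,1,⟨1,[(6,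
  1),(14,0),(6,0)]⟩,⟨0,[(0,0)]⟩⟩,[]⟩) (.I [0,0,-1,-1,0,0,0,0,-1] (.Q [0,1,0,0,0,0,0,0,1,1,0,-1] (.p
  false [0,0,0,1] [1] (⟨0,[(12,0)]⟩,⟨1,[(11,0),(8,0),(0,0)]⟩) .k 1 (⟨0,[]⟩,⟨0,[]⟩) .k .k) (.Q [0,0,
  0,0,0,0,-1,-1,-1,-1,1,1] (.p true [0,0,1] [1,0,0,-1] (⟨0,[(22,0)]⟩,⟨0,[(21,0)]⟩) .k 2 (⟨1,[(12,0),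
  (8,0),(0,0)]⟩,⟨0,[(13,0)]⟩) .k (.r (-1) ⟨1,[(9,0),(1,0),(3,0),(3,0),(9,0)]⟩ ⟨0,[(1,0),(6,0),(6,0),
  (4,1)]⟩)) (.K ⟨2,[1,0,0,-1],0,0,(⟨1,[(13,0),(8,0),(0,0)]⟩,⟨0,[(14,0)]⟩),.k,(.r 0 ⟨0,[(2,0)]⟩ ⟨1,
  [(12,0),(6,0),(0,0),(7,1),(2,0)]⟩),(.r 0 ⟨1,[(0,1),(8,1),(3,0),(2,0),(2,0)]⟩ ⟨1,[(12,0),(16,1),(0,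
  0)]⟩),.k,.k,[⟨0,[(0,0)]⟩,⟨0,[(1,0)]⟩,⟨1,[(13,0),(5,0),(0,0),(1,0),(0,0)]⟩,⟨0,[(7,0),(6,0),(1,
  0)]⟩]⟩) (.R ⟨1,true,false,false,[1,0,-1],[0,0,0,1],[1,1,0,0,0,0,0,-1],(⟨0,[(22,0)]⟩,⟨0,[(23,0)]⟩),
  (⟨0,[(14,0)]⟩,⟨1,[(13,0),(8,0),(0,0)]⟩),⟨0,[(8,0)]⟩,.k,.k,.k,.k,(.r 0 ⟨0,[(2,0),(18,0)]⟩ ⟨3,[(9,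
  3),(1,0),(0,2),(3,3)]⟩),.k,⟨false,0,⟨0,[(2,0),(18,0),(6,0)]⟩,⟨1,[(0,1),(13,1),(1,1),(13,0),(0,
  0)]⟩⟩,⟨true,0,⟨1,[(10,0),(2,0),(7,1)]⟩,⟨0,[(14,0),(1,0)]⟩⟩,⟨false,0,⟨0,[]⟩,⟨3,[(11,0),(0,0),(18,
  1)]⟩⟩,⟨true,0,⟨0,[(0,0)]⟩,⟨0,[(2,0),(11,0),(1,0),(4,0),(6,0)]⟩⟩,⟨true,0,⟨0,[(28,0)]⟩,⟨0,[(29,
  0)]⟩⟩,⟨false,1,⟨1,[(3,0),(5,0),(2,0),(0,0),(17,0)]⟩,⟨0,[(2,0),(11,0),(1,0),(4,0)]⟩⟩,[]⟩)) (.Q [0,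
  0,0,0,0,1,0,0,0,0,0,-1] (.p false [0,0,0,1] [] (⟨0,[(13,0)]⟩,⟨1,[(12,0),(8,0),(0,0)]⟩) .k 0 (⟨0,
  []⟩,⟨0,[]⟩) .k .k) (.R ⟨0,false,false,false,[0,0,0,1],[0,0,1],[1,0,0,0,0,0,0,0,1],(⟨0,[(14,0)]⟩,
  ⟨1,[(13,0),(8,0),(0,0)]⟩),(⟨0,[(23,0)]⟩,⟨0,[(22,0)]⟩),⟨0,[(0,0)]⟩,.k,.k,(.r (-1) ⟨1,[(12,0),(16,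
  1),(0,0)]⟩ ⟨1,[(1,1),(7,0),(3,0),(4,0),(0,0),(0,0),(7,0)]⟩),.k,.k,.k,⟨false,1,⟨1,[(12,0),(8,1),(8,
  0)]⟩,⟨0,[(2,0),(6,0),(6,0)]⟩⟩,⟨true,0,⟨0,[(7,0),(6,0)]⟩,⟨1,[(13,0),(2,0),(3,0)]⟩⟩,⟨true,0,⟨0,[]⟩,
  ⟨0,[(33,0)]⟩⟩,⟨false,0,⟨1,[(1,1),(8,0),(11,0),(0,0)]⟩,⟨1,[(12,0),(0,0),(1,0),(2,0),(12,0)]⟩⟩,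
  ⟨false,0,⟨0,[]⟩,⟨0,[]⟩⟩,⟨false,0,⟨0,[]⟩,⟨0,[]⟩⟩,[.o ⟨false,0,⟨0,[(4,0)]⟩,⟨1,[(18,1),(5,0),(6,
  0)]⟩⟩,.o ⟨false,1,⟨7,[(10,3),(0,0),(0,0),(11,1),(6,3)]⟩,⟨0,[(15,0)]⟩⟩,.a ⟨true,0,⟨1,[(13,0),(8,0),
  (0,0)]⟩,⟨0,[(14,0)]⟩⟩ ⟨false,1,⟨1,[(12,0),(18,0)]⟩,⟨3,[(1,1),(0,1),(6,0),(3,0),(4,0),(0,0),(0,0),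
  (7,0)]⟩⟩ ⟨true,0,⟨1,[(3,0),(1,0),(8,1)]⟩,⟨1,[(13,0),(1,0),(2,0)]⟩⟩,.o ⟨false,0,⟨1,[(13,0),(2,0),
  (2,0)]⟩,⟨1,[(14,1),(9,0),(5,0)]⟩⟩]⟩) (.R ⟨1,false,false,false,[0,0,0,1],[0,0,1],[0,0,0,-1,0,0,0,0,
  1],(⟨0,[(14,0)]⟩,⟨1,[(13,0),(8,0),(0,0)]⟩),(⟨0,[(23,0)]⟩,⟨0,[(22,0)]⟩),⟨0,[(0,0)]⟩,.k,.k,(.r (-1)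
  ⟨1,[(12,0),(16,1),(0,0)]⟩ ⟨1,[(1,1),(7,0),(3,0),(4,0),(0,0),(0,0),(7,0)]⟩),.k,(.r (-1) ⟨7,[(6,3),
  (4,0),(0,4),(8,3),(7,3),(1,1)]⟩ ⟨1,[(1,1),(8,0),(2,0),(6,1),(7,1)]⟩),.k,⟨false,1,⟨7,[(6,3),(4,0),
  (0,4),(8,3),(7,3),(1,1)]⟩,⟨3,[(1,1),(0,1),(6,3),(3,0),(2,2),(3,0),(6,1)]⟩⟩,⟨true,0,⟨0,[(7,0),(6,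
  0)]⟩,⟨1,[(13,0),(2,0),(3,0)]⟩⟩,⟨true,0,⟨0,[(29,0)]⟩,⟨0,[(28,0)]⟩⟩,⟨false,0,⟨1,[(1,1),(8,0),(11,0),
  (0,0)]⟩,⟨1,[(12,0),(0,0),(1,0),(2,0),(12,0)]⟩⟩,⟨false,1,⟨3,[(11,0),(0,0),(18,1)]⟩,⟨0,[]⟩⟩,⟨false,
  0,⟨0,[(1,0),(7,0)]⟩,⟨1,[(12,0),(0,0),(1,0),(2,0),(10,1),(1,0)]⟩⟩,[.o ⟨false,0,⟨0,[(4,0)]⟩,⟨1,[(18,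
  1),(5,0),(6,0)]⟩⟩,.o ⟨false,1,⟨7,[(10,3),(0,0),(0,0),(11,1),(6,3)]⟩,⟨0,[(15,0)]⟩⟩,.a ⟨true,0,⟨1,
  [(13,0),(8,0),(0,0)]⟩,⟨0,[(14,0)]⟩⟩ ⟨false,1,⟨1,[(12,0),(16,1),(1,0)]⟩,⟨1,[(1,1),(7,0),(3,0),(4,
  0),(9,0)]⟩⟩ ⟨true,0,⟨1,[(3,0),(1,0),(8,1)]⟩,⟨1,[(13,0),(1,0),(2,0)]⟩⟩,.o ⟨false,0,⟨1,[(13,0),(2,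
  0),(2,0)]⟩,⟨1,[(14,1),(9,0),(5,0)]⟩⟩]⟩))) (.Q [0,0,0,0,0,0,1,1,1,1,-1,-1] (.p false [0,0,1] [1,0,
  0,-1] (⟨0,[(21,0)]⟩,⟨0,[(20,0)]⟩) .k 2 (⟨1,[(11,0),(8,0),(0,0)]⟩,⟨0,[(12,0)]⟩) .k (.x 0 ⟨0,[(5,0),
  (15,0)]⟩ ⟨3,[(9,0),(0,0),(3,3),(5,3),(7,1)]⟩)) (.Q [0,0,0,1,0,0,1,1,1,1,-1,-1] (.p false [0,0,1]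
  [1,0,0,-1] (⟨0,[(22,0)]⟩,⟨0,[(21,0)]⟩) .k 2 (⟨1,[(12,0),(8,0),(0,0)]⟩,⟨0,[(13,0)]⟩) .k (.x 0 ⟨0,
  [(6,0),(15,0)]⟩ ⟨3,[(10,0),(0,0),(3,3),(5,3),(7,1)]⟩)) (.Q [0,0,0,1,0,0,0,0,0,1] (.pp false [-1,
  1]) (.Q [0,0,0,0,0,1,0,0,0,0,-1] (.ed true [1,-1,1] .k) (.R ⟨0,false,false,false,[0,0,1],[1,-1],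
  [1,0,0,-1],(⟨0,[(25,0)]⟩,⟨0,[(24,0)]⟩),(⟨0,[(27,0)]⟩,⟨0,[(28,0)]⟩),⟨0,[(0,0)]⟩,.k,.k,.k,.k,.k,.k,
  ⟨false,0,⟨0,[]⟩,⟨3,[(13,0),(0,0),(17,1)]⟩⟩,⟨true,0,⟨0,[(18,0)]⟩,⟨1,[(12,0),(10,1),(0,0),(0,0)]⟩⟩,
  ⟨true,0,⟨0,[(23,0),(7,0)]⟩,⟨1,[(12,0),(5,0),(3,0),(6,1)]⟩⟩,⟨false,1,⟨0,[(17,0),(13,0),(1,0)]⟩,⟨0,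
  [(11,0)]⟩⟩,⟨false,0,⟨0,[]⟩,⟨0,[]⟩⟩,⟨false,0,⟨0,[]⟩,⟨0,[]⟩⟩,[.a ⟨true,0,⟨0,[(31,0)]⟩,⟨0,[(1,0)]⟩⟩
  ⟨true,0,⟨0,[(31,0)]⟩,⟨2,[(1,1),(3,0),(12,1),(2,0),(1,0)]⟩⟩ ⟨false,1,⟨0,[(18,0),(12,0),(0,0)]⟩,⟨0,
  [(11,0),(11,0)]⟩⟩,.o ⟨false,1,⟨1,[(26,0),(4,1),(1,0)]⟩,⟨0,[(30,0)]⟩⟩,.o ⟨false,0,⟨0,[(9,0)]⟩,⟨3,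
  [(13,0),(0,0),(3,3),(13,1)]⟩⟩,.o ⟨false,0,⟨0,[(21,0)]⟩,⟨0,[(18,0),(13,0)]⟩⟩]⟩) (.Q [0,0,0,-2,0,0,
  0,0,0,-1] (.pp true [-1,1]) (.R ⟨2,false,false,false,[0,1],[1,-1],[],(⟨0,[]⟩,⟨0,[]⟩),(⟨0,[(28,
  0)]⟩,⟨0,[(29,0)]⟩),⟨0,[]⟩,.k,.k,.k,(.r 0 ⟨2,[(2,3),(3,1),(12,3),(2,1),(1,1)]⟩ ⟨0,[(32,1),(0,0)]⟩),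
  .k,.k,⟨true,0,⟨2,[(2,1),(3,0),(12,1),(2,0),(1,0)]⟩,⟨0,[(32,0)]⟩⟩,⟨false,0,⟨0,[(10,0),(8,0)]⟩,⟨0,
  [(25,0),(0,0),(6,0)]⟩⟩,⟨false,1,⟨1,[(32,1),(0,0),(0,0)]⟩,⟨2,[(2,1),(3,0),(12,1),(2,0),(1,0)]⟩⟩,
  ⟨true,0,⟨0,[(0,0)]⟩,⟨0,[(2,0),(28,0)]⟩⟩,⟨false,1,⟨1,[(33,0),(0,0)]⟩,⟨1,[(22,0),(0,0)]⟩⟩,⟨false,1,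
  ⟨7,[(0,3),(13,0),(0,0),(11,1),(6,3)]⟩,⟨0,[(2,0)]⟩⟩,[.a ⟨true,0,⟨0,[(32,0)]⟩,⟨0,[(2,0)]⟩⟩ ⟨false,1,
  ⟨3,[(14,0),(0,0),(17,1)]⟩,⟨0,[]⟩⟩ ⟨true,0,⟨1,[(0,0),(18,0),(2,0)]⟩,⟨0,[(2,0)]⟩⟩,.o ⟨false,1,⟨7,
  [(0,3),(13,0),(0,0),(11,1),(6,3)]⟩,⟨0,[(31,0)]⟩⟩,.o ⟨false,1,⟨3,[(14,0),(0,0),(17,1)]⟩,⟨0,[(10,0),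
  (8,0)]⟩⟩,.e ⟨false,1,⟨1,[(33,0),(0,0)]⟩,⟨1,[(22,0),(0,0)]⟩⟩ ⟨false,1,⟨7,[(0,3),(13,0),(0,0),(11,
  1),(6,3)]⟩,⟨0,[(2,0)]⟩⟩]⟩) (.Q [0,-1,0,1,0,0,1,1,1,1,-1,-1] (.p false [0,0,1] [1,0,0,-1] (⟨0,[(26,
  0)]⟩,⟨0,[(25,0)]⟩) .k 2 (⟨1,[(16,0),(8,0),(0,0)]⟩,⟨0,[(17,0)]⟩) .k (.x 0 ⟨0,[(10,0),(15,0)]⟩ ⟨3,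
  [(14,0),(0,0),(3,3),(5,3),(7,1)]⟩)) (.R ⟨1,false,false,false,[1,0,0,-1],[0,0,1],[0,0,0,-1,0,0,0,0,
  -1],(⟨1,[(17,0),(8,0),(0,0)]⟩,⟨0,[(18,0)]⟩),(⟨0,[(27,0)]⟩,⟨0,[(26,0)]⟩),⟨1,[(2,0),(9,0),(4,0)]⟩,
  .k,.k,(.r (-1) ⟨1,[(15,0),(17,1),(0,0)]⟩ ⟨0,[(0,0),(1,1),(4,1),(2,0),(1,1),(5,0),(1,2),(4,1),(4,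
  3),(2,0)]⟩),.k,(.r (-1) ⟨7,[(10,3),(4,4),(0,0),(8,3),(7,3),(1,1)]⟩ ⟨0,[(4,0),(13,0),(1,0)]⟩),.k,
  ⟨false,1,⟨7,[(10,3),(4,4),(0,0),(8,3),(7,3),(1,1)]⟩,⟨2,[(0,2),(8,0),(0,0),(7,2),(1,2),(3,0),(6,
  1)]⟩⟩,⟨true,0,⟨1,[(14,0),(2,0),(7,1)]⟩,⟨0,[(18,0),(1,0)]⟩⟩,⟨true,0,⟨0,[(33,0)]⟩,⟨0,[(32,0)]⟩⟩,
  ⟨false,0,⟨0,[(0,0),(32,0)]⟩,⟨1,[(15,0),(2,1),(0,1),(15,0)]⟩⟩,⟨false,1,⟨3,[(15,0),(0,0),(18,1)]⟩,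
  ⟨0,[]⟩⟩,⟨false,0,⟨0,[(0,0)]⟩,⟨1,[(15,0),(2,1),(0,1),(13,1),(1,0)]⟩⟩,[.o ⟨false,0,⟨0,[(8,0)]⟩,⟨1,
  [(22,1),(5,0),(6,0)]⟩⟩,.o ⟨false,1,⟨7,[(14,3),(0,0),(0,0),(11,1),(6,3)]⟩,⟨0,[(19,0)]⟩⟩,.a ⟨true,0,
  ⟨0,[(18,0)]⟩,⟨1,[(17,0),(8,0),(0,0)]⟩⟩ ⟨false,1,⟨1,[(15,0),(17,1),(1,0)]⟩,⟨0,[(0,0),(17,0),(0,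
  0)]⟩⟩ ⟨true,0,⟨1,[(14,0),(2,0)]⟩,⟨0,[(18,0),(0,0)]⟩⟩,.o ⟨false,0,⟨0,[(11,0),(6,0),(1,0)]⟩,⟨7,[(15,
  0),(0,0),(0,3),(10,1),(5,3)]⟩⟩]⟩) (.Q [0,0,0,0,0,0,-1,-1,1,0,1,-1] (.p true [0,0,1] [0,0,0,1] (⟨0,
  [(27,0)]⟩,⟨0,[(26,0)]⟩) .k 2 (⟨0,[(18,0)]⟩,⟨1,[(17,0),(8,0),(0,0)]⟩) .k (.x 0 ⟨0,[(11,0),(15,0)]⟩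
  ⟨3,[(15,0),(0,0),(3,3),(5,3),(7,1)]⟩)) (.K ⟨2,[0,0,0,1],0,0,(⟨0,[(19,0)]⟩,⟨1,[(18,0),(8,0),(0,
  0)]⟩),.k,(.x 0 ⟨1,[(3,0),(9,0),(7,0),(2,0)]⟩ ⟨3,[(16,0),(0,0),(13,3),(3,1)]⟩),(.r 0 ⟨0,[(0,0),(2,
  0),(4,1),(4,0),(5,0),(1,0),(4,0),(4,1),(2,0)]⟩ ⟨1,[(16,0),(17,1),(0,0)]⟩),.k,.k,[⟨0,[(0,0)]⟩,⟨0,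
  [(1,0),(12,0)]⟩,⟨1,[(19,1),(4,0),(0,0)]⟩,⟨1,[(18,0),(2,0),(2,0)]⟩]⟩) (.I [0,0,0,-1,0,0,0,0,-1]
  (.R ⟨1,false,false,false,[1,0,0,-1],[0,0,1],[0,1,0,-1,0,0,0,0,-1],(⟨1,[(19,0),(8,0),(0,0)]⟩,⟨0,
  [(20,0)]⟩),(⟨0,[(29,0)]⟩,⟨0,[(28,0)]⟩),⟨1,[(4,0),(9,0),(4,0)]⟩,.k,.k,(.r (-1) ⟨1,[(17,0),(17,1),
  (0,0)]⟩ ⟨0,[(6,0),(13,0),(1,0),(4,0)]⟩),.k,(.r (-1) ⟨7,[(12,3),(4,4),(0,0),(8,3),(7,3),(1,1)]⟩ ⟨0,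
  [(6,0),(13,0),(1,0)]⟩),.k,⟨false,0,⟨1,[(1,0),(0,0),(9,0),(6,0),(7,0)]⟩,⟨1,[(6,1),(13,1),(1,1),(13,
  0),(0,0)]⟩⟩,⟨true,0,⟨1,[(16,0),(2,0),(7,1)]⟩,⟨0,[(20,0),(1,0)]⟩⟩,⟨false,0,⟨0,[(35,0)]⟩,⟨7,[(3,3),
  (13,0),(0,0),(11,1),(6,3)]⟩⟩,⟨true,0,⟨0,[(7,0)]⟩,⟨1,[(1,0),(0,0),(0,0),(8,0),(9,1),(4,0)]⟩⟩,⟨true,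
  0,⟨0,[(39,0)]⟩,⟨0,[]⟩⟩,⟨true,0,⟨0,[(6,0)]⟩,⟨0,[(2,0)]⟩⟩,[.o ⟨false,0,⟨0,[(10,0)]⟩,⟨1,[(24,1),(5,
  0),(6,0)]⟩⟩,.o ⟨false,1,⟨7,[(16,3),(0,0),(0,0),(11,1),(6,3)]⟩,⟨0,[(21,0)]⟩⟩,.a ⟨true,0,⟨0,[(20,
  0)]⟩,⟨1,[(19,0),(8,0),(0,0)]⟩⟩ ⟨false,0,⟨0,[(0,0)]⟩,⟨3,[(8,1),(9,0),(14,1),(3,2)]⟩⟩ ⟨true,0,⟨1,
  [(16,0),(2,0)]⟩,⟨0,[(20,0),(0,0)]⟩⟩,.o ⟨false,0,⟨0,[(13,0),(6,0),(1,0)]⟩,⟨7,[(17,0),(0,0),(0,3),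
  (10,1),(5,3)]⟩⟩]⟩) (.Q [0,0,0,-1,0,0,-1,-1,1,0,1,-1] (.p true [0,0,1] [0,0,0,1] (⟨0,[(29,0)]⟩,⟨0,
  [(28,0)]⟩) .k 2 (⟨0,[(20,0)]⟩,⟨1,[(19,0),(8,0),(0,0)]⟩) .k (.r (-1) ⟨1,[(16,0),(0,0),(4,0),(3,0),
  (9,0)]⟩ ⟨0,[(0,0),(26,0),(7,0)]⟩)) (.R ⟨1,true,false,false,[1,0,-1],[1,0,0,-1],[0,1,0,-1,0,0,0,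
  -1],(⟨0,[(29,0)]⟩,⟨0,[(30,0)]⟩),(⟨1,[(20,0),(8,0),(0,0)]⟩,⟨0,[(21,0)]⟩),⟨0,[(15,0)]⟩,.k,.k,.k,.k,
  (.r (-1) ⟨7,[(13,3),(4,0),(0,4),(8,3),(7,3),(1,1)]⟩ ⟨1,[(2,1),(1,0),(15,0),(2,1)]⟩),.k,⟨false,0,
  ⟨5,[(0,2),(8,2),(2,0),(0,4),(7,2),(2,0),(1,0)]⟩,⟨1,[(2,1),(1,0),(15,0),(2,1),(13,0),(0,0)]⟩⟩,
  ⟨true,0,⟨0,[(14,0),(6,0)]⟩,⟨1,[(20,0),(2,0),(3,0)]⟩⟩,⟨false,0,⟨0,[(36,0)]⟩,⟨7,[(4,3),(13,0),(0,0),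
  (11,1),(6,3)]⟩⟩,⟨true,0,⟨0,[(2,0)]⟩,⟨0,[(0,0),(34,0)]⟩⟩,⟨true,0,⟨0,[(40,0)]⟩,⟨0,[]⟩⟩,⟨false,1,⟨7,
  [(2,7),(1,3),(13,0),(0,0),(11,1),(6,3)]⟩,⟨0,[(0,0)]⟩⟩,[]⟩) (.R ⟨1,false,false,false,[1,0,0,-1],[1,
  -1,-1],[0,1,0,-1,0,0,0,0,-1],(⟨1,[(20,0),(8,0),(0,0)]⟩,⟨0,[(21,0)]⟩),(⟨0,[(15,0)]⟩,⟨0,[(30,0),(2,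
  0)]⟩),⟨1,[(5,0),(9,0),(4,0)]⟩,.k,.k,(.r (-1) ⟨1,[(18,0),(17,1),(0,0)]⟩ ⟨0,[(1,0),(3,0),(4,0),(4,
  0),(7,0),(4,0),(4,1),(2,0)]⟩),(.r 0 ⟨1,[(0,1),(19,0),(2,0),(3,0)]⟩ ⟨7,[(13,3),(4,0),(0,4),(8,3),
  (7,3),(1,1)]⟩),.k,.k,⟨false,0,⟨5,[(2,5),(9,1),(0,1),(6,2),(2,2),(3,4),(6,3)]⟩,⟨3,[(1,1),(11,1),(5,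
  0),(8,1),(9,2)]⟩⟩,⟨true,0,⟨1,[(20,0),(2,0),(3,0)]⟩,⟨0,[(14,0),(6,0)]⟩⟩,⟨false,0,⟨0,[(36,0)]⟩,⟨7,
  [(4,3),(13,0),(0,0),(11,1),(6,3)]⟩⟩,⟨false,1,⟨3,[(1,1),(11,1),(5,0),(0,1),(2,1),(3,1),(0,1),(7,3),
  (1,2)]⟩,⟨0,[(0,0)]⟩⟩,⟨true,0,⟨0,[(40,0)]⟩,⟨0,[]⟩⟩,⟨false,1,⟨3,[(1,1),(11,1),(5,0),(0,1),(2,1),(3,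
  1),(0,1),(9,2)]⟩,⟨0,[(2,0)]⟩⟩,[.o ⟨false,1,⟨5,[(3,3),(15,1),(0,1),(1,1),(8,0),(4,1),(1,2)]⟩,⟨0,
  [(10,0)]⟩⟩,.o ⟨false,1,⟨0,[(22,0),(13,0),(1,0)]⟩,⟨1,[(10,0),(13,0),(10,0)]⟩⟩,.a ⟨true,0,⟨0,[(21,
  0)]⟩,⟨1,[(20,0),(8,0),(0,0)]⟩⟩ ⟨true,0,⟨1,[(3,1),(13,0),(2,0)]⟩,⟨0,[(1,0)]⟩⟩ ⟨false,1,⟨1,[(20,0),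
  (1,0),(2,0),(10,1),(1,1)]⟩,⟨0,[(10,0),(10,0)]⟩⟩,.o ⟨false,0,⟨0,[(14,0),(6,0),(1,0)]⟩,⟨7,[(18,0),
  (0,0),(0,3),(10,1),(5,3)]⟩⟩]⟩))))))) (.I [0,0,1,0,0,0,0,-1,-1] (.Q [0,1,0,-1,0,0,-1,-1,-1,-1,1,1]
  (.p true [0,0,1] [1,0,0,-1] (⟨0,[(25,0)]⟩,⟨0,[(24,0)]⟩) .k 2 (⟨1,[(15,0),(8,0),(0,0)]⟩,⟨0,[(16,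
  0)]⟩) .k (.x 0 ⟨0,[(9,0),(15,0)]⟩ ⟨3,[(13,0),(0,0),(3,3),(5,3),(7,1)]⟩)) (.I [1,0,0,-1,0,0,0,-1,
  -1] (.Q [0,0,0,0,0,1,0,0,0,0,0,-1] (.p false [0,0,0,1] [] (⟨0,[(18,0)]⟩,⟨1,[(17,0),(8,0),(0,0)]⟩)
  .k 0 (⟨0,[]⟩,⟨0,[]⟩) .k .k) (.R ⟨0,false,false,false,[0,0,0,1],[1,0,-1],[1,0,1],(⟨0,[(19,0)]⟩,⟨1,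
  [(18,0),(8,0),(0,0)]⟩),(⟨0,[(27,0)]⟩,⟨0,[(28,0)]⟩),⟨0,[(0,0)]⟩,.k,.k,(.x 0 ⟨2,[(4,0),(3,0),(12,1),
  (2,0),(1,0),(3,2)]⟩ ⟨3,[(16,0),(0,0),(13,3),(3,1)]⟩),.k,.k,.k,⟨true,0,⟨1,[(15,0),(5,0),(3,0)]⟩,⟨0,
  [(26,0)]⟩⟩,⟨false,1,⟨0,[(19,0),(1,0),(13,0)]⟩,⟨2,[(1,0),(4,0),(5,0),(1,0),(3,0),(7,0)]⟩⟩,⟨true,0,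
  ⟨0,[(1,0),(12,0),(6,0)]⟩,⟨0,[(5,0),(5,0),(7,0),(1,0)]⟩⟩,⟨false,1,⟨0,[(1,0),(17,0),(1,0),(10,0),(3,
  0)]⟩,⟨0,[(6,0)]⟩⟩,⟨false,0,⟨0,[]⟩,⟨0,[]⟩⟩,⟨false,0,⟨0,[]⟩,⟨0,[]⟩⟩,[.o ⟨false,1,⟨1,[(23,1),(5,0),
  (6,0)]⟩,⟨0,[(9,0)]⟩⟩,.o ⟨false,1,⟨0,[(20,0),(15,0)]⟩,⟨0,[(22,0)]⟩⟩,.a ⟨true,0,⟨1,[(18,0),(8,0),(0,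
  0)]⟩,⟨0,[(19,0)]⟩⟩ ⟨true,0,⟨1,[(24,0),(0,0)]⟩,⟨2,[(10,0),(0,0),(13,0),(6,1)]⟩⟩ ⟨false,1,⟨0,[(19,
  0),(0,0),(15,0)]⟩,⟨1,[(15,0),(2,0)]⟩⟩,.o ⟨false,0,⟨1,[(18,0),(2,0),(2,0)]⟩,⟨1,[(19,1),(9,0),(5,
  0)]⟩⟩]⟩) (.I [0,0,0,-1,0,0,0,0,-1] (.R ⟨1,false,false,false,[1,0,0,-1],[0,0,1],[0,1,0,-1,0,0,0,0,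
  -1],(⟨1,[(19,0),(8,0),(0,0)]⟩,⟨0,[(20,0)]⟩),(⟨0,[(29,0)]⟩,⟨0,[(28,0)]⟩),⟨0,[(1,0),(17,0)]⟩,.k,.k,
  (.r (-1) ⟨1,[(17,0),(17,1),(0,0)]⟩ ⟨0,[(1,0),(4,0),(15,0),(4,0),(4,0)]⟩),.k,(.r (-1) ⟨3,[(2,1),(9,
  1),(4,1),(0,0),(18,0)]⟩ ⟨0,[(6,0),(13,0),(1,0)]⟩),.k,⟨false,0,⟨2,[(0,1),(3,0),(7,1),(21,0)]⟩,⟨1,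
  [(6,1),(13,1),(1,1),(13,0),(0,0)]⟩⟩,⟨true,0,⟨2,[(2,0),(4,0),(5,0),(1,0),(3,0),(7,0)]⟩,⟨0,[(20,0),
  (1,0)]⟩⟩,⟨false,0,⟨0,[(35,0)]⟩,⟨0,[(34,0),(2,0)]⟩⟩,⟨true,0,⟨0,[(7,0)]⟩,⟨0,[(2,0),(17,0),(1,0),(10,
  0)]⟩⟩,⟨true,0,⟨0,[(39,0)]⟩,⟨0,[]⟩⟩,⟨true,0,⟨0,[(6,0)]⟩,⟨0,[(3,0)]⟩⟩,[.o ⟨false,0,⟨0,[(10,0)]⟩,⟨1,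
  [(24,1),(5,0),(6,0)]⟩⟩,.o ⟨false,1,⟨7,[(16,3),(0,0),(0,0),(11,1),(6,3)]⟩,⟨0,[(21,0)]⟩⟩,.a ⟨true,0,
  ⟨0,[(20,0)]⟩,⟨1,[(19,0),(8,0),(0,0)]⟩⟩ ⟨false,0,⟨0,[(0,0)]⟩,⟨3,[(8,1),(9,0),(14,1),(3,2)]⟩⟩ ⟨true,
  0,⟨1,[(16,0),(2,0)]⟩,⟨0,[(20,0),(0,0)]⟩⟩,.o ⟨false,0,⟨2,[(5,0),(3,0),(10,2),(1,1),(2,0),(1,0)]⟩,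
  ⟨7,[(17,0),(0,0),(0,3),(10,1),(5,3)]⟩⟩]⟩) (.I [1,-1,-1,0,1,0,0,0,-1] (.R ⟨1,false,false,false,[0,
  0,0,1],[1,-1],[0,1,0,-1,0,0,0,0,1],(⟨0,[(21,0)]⟩,⟨1,[(20,0),(8,0),(0,0)]⟩),(⟨0,[(32,0)]⟩,⟨0,[(33,
  0)]⟩),⟨0,[(2,0)]⟩,.k,.k,(.x 0 ⟨1,[(2,1),(17,0),(2,0),(2,0)]⟩ ⟨3,[(18,0),(0,0),(13,3),(3,1)]⟩),(.r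
  0 ⟨0,[(1,0),(0,3),(3,0),(3,0),(9,1),(2,0),(4,0),(4,3)]⟩ ⟨1,[(18,0),(17,1),(0,0)]⟩),.k,.k,⟨false,0,
  ⟨1,[(1,0),(4,0),(1,0),(12,0),(3,0),(14,0)]⟩,⟨0,[(0,0)]⟩⟩,⟨true,0,⟨2,[(6,0),(3,0),(10,2),(1,1),(2,
  0),(1,0)]⟩,⟨1,[(20,0),(8,0),(0,0)]⟩⟩,⟨false,0,⟨0,[(36,0)]⟩,⟨0,[(35,0),(2,0)]⟩⟩,⟨false,1,⟨1,[(6,1),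
  (11,0),(2,1),(16,0)]⟩,⟨1,[(1,1),(18,0),(8,0),(0,0)]⟩⟩,⟨true,0,⟨0,[(40,0)]⟩,⟨0,[]⟩⟩,⟨false,1,⟨0,
  [(4,0),(5,0),(27,0)]⟩,⟨1,[(1,1),(18,0),(8,0),(0,0),(5,1)]⟩⟩,[.o ⟨false,0,⟨0,[(6,0)]⟩,⟨3,[(18,0),
  (0,0),(15,3),(2,1)]⟩⟩,.o ⟨false,1,⟨3,[(6,3),(11,0),(0,0),(18,1)]⟩,⟨0,[(35,0)]⟩⟩,.a ⟨true,0,⟨1,
  [(20,0),(8,0),(0,0)]⟩,⟨0,[(21,0)]⟩⟩ ⟨false,0,⟨0,[(1,0),(34,1)]⟩,⟨1,[(0,1),(0,0),(3,0),(10,0),(6,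
  0)]⟩⟩ ⟨true,0,⟨0,[(6,0),(14,0)]⟩,⟨1,[(16,0),(3,0),(4,0),(9,0)]⟩⟩,.o ⟨false,0,⟨1,[(20,0),(2,0),(2,
  0)]⟩,⟨1,[(21,1),(9,0),(5,0)]⟩⟩]⟩) (.Q [0,0,0,0,0,0,-1,-1,1,0,1,-1] (.p true [0,0,1] [0,0,0,1] (⟨0,
  [(30,0)]⟩,⟨0,[(29,0)]⟩) .k 2 (⟨0,[(21,0)]⟩,⟨1,[(20,0),(8,0),(0,0)]⟩) .k (.r (-1) ⟨1,[(17,0),(0,0),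
  (4,0),(3,0),(9,0)]⟩ ⟨7,[(0,3),(0,1),(11,1),(5,0),(8,5),(9,2)]⟩)) (.K ⟨2,[0,0,0,1],0,0,(⟨0,[(22,
  0)]⟩,⟨1,[(21,0),(8,0),(0,0)]⟩),.k,(.x 0 ⟨1,[(3,1),(17,0),(2,0),(2,0)]⟩ ⟨3,[(19,0),(0,0),(13,3),(3,
  1)]⟩),(.r 0 ⟨0,[(1,1),(1,3),(0,0),(2,0),(3,0),(9,1),(2,0),(9,3),(0,1),(3,1)]⟩ ⟨1,[(19,0),(17,1),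
  (0,0)]⟩),.k,.k,[⟨0,[(0,0)]⟩,⟨0,[(5,0),(11,0)]⟩,⟨1,[(22,1),(4,0),(0,0)]⟩,⟨1,[(21,0),(2,0),(2,
  0)]⟩]⟩) (.R ⟨1,true,false,false,[1,0,-1],[1,0,0,-1],[0,1,0,-1,0,0,0,-1],(⟨0,[(30,0)]⟩,⟨0,[(31,
  0)]⟩),(⟨1,[(21,0),(8,0),(0,0)]⟩,⟨0,[(22,0)]⟩),⟨0,[(16,0)]⟩,.k,.k,.k,.k,(.r 0 ⟨0,[(1,0),(12,0),(24,
  0)]⟩ ⟨3,[(17,3),(1,2),(0,0),(3,3)]⟩),.k,⟨false,0,⟨7,[(1,3),(2,1),(9,5),(5,2),(18,0)]⟩,⟨1,[(0,1),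
  (20,0),(2,0),(3,0),(6,1),(3,1)]⟩⟩,⟨true,0,⟨0,[(15,0),(6,0)]⟩,⟨1,[(21,0),(2,0),(3,0)]⟩⟩,⟨false,0,
  ⟨0,[(37,0)]⟩,⟨0,[(36,0),(2,0)]⟩⟩,⟨true,0,⟨0,[(0,0)]⟩,⟨5,[(1,1),(0,1),(11,1),(5,0),(0,2),(1,0),(0,
  1),(1,2),(12,0)]⟩⟩,⟨true,0,⟨0,[(41,0)]⟩,⟨0,[]⟩⟩,⟨false,1,⟨1,[(11,1),(7,0),(2,1),(16,0)]⟩,⟨1,[(1,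
  1),(12,1),(6,0),(2,0),(3,0),(10,1)]⟩⟩,[]⟩))))) (.Q [0,0,0,0,0,0,-1,-1,1,0,1,-1] (.p true [0,0,1]
  [0,0,0,1] (⟨0,[(27,0)]⟩,⟨0,[(26,0)]⟩) .k 2 (⟨0,[(18,0)]⟩,⟨1,[(17,0),(8,0),(0,0)]⟩) .k (.r (-1) ⟨3,
  [(0,1),(8,1),(5,2),(8,1),(9,0)]⟩ ⟨0,[(0,0),(24,1),(7,0)]⟩)) (.K ⟨2,[0,0,0,1],0,0,(⟨0,[(19,0)]⟩,⟨1,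
  [(18,0),(8,0),(0,0)]⟩),.k,(.x 0 ⟨2,[(4,0),(3,0),(12,1),(2,0),(1,0),(3,2)]⟩ ⟨3,[(16,0),(0,0),(13,
  3),(3,1)]⟩),(.r 0 ⟨0,[(1,0),(2,0),(3,0),(4,1),(7,0),(4,1),(1,1),(2,1)]⟩ ⟨1,[(16,0),(17,1),(0,
  0)]⟩),.k,.k,[⟨0,[(0,0)]⟩,⟨0,[(2,0),(11,0)]⟩,⟨1,[(19,1),(4,0),(0,0)]⟩,⟨1,[(18,0),(2,0),(2,0)]⟩]⟩)
  (.Q [0,0,0,-1,0,0,-1,-1,1,0,1,-1] (.p true [0,0,1] [0,0,0,1] (⟨0,[(28,0)]⟩,⟨0,[(27,0)]⟩) .k 2 (⟨0,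
  [(19,0)]⟩,⟨1,[(18,0),(8,0),(0,0)]⟩) .k (.r (-1) ⟨3,[(1,1),(8,1),(5,2),(8,1),(9,0)]⟩ ⟨0,[(1,0),(24,
  1),(7,0)]⟩)) (.R ⟨1,true,false,false,[1,0,-1],[1,0,0,-1],[1,1,0,0,0,0,0,-1],(⟨0,[(28,0)]⟩,⟨0,[(29,
  0)]⟩),(⟨1,[(19,0),(8,0),(0,0)]⟩,⟨0,[(20,0)]⟩),⟨0,[(14,0)]⟩,.k,.k,.k,.k,(.x 0 ⟨0,[(14,0),(7,0)]⟩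
  ⟨0,[(25,0),(3,0),(2,0),(3,0)]⟩),.k,⟨false,0,⟨0,[(8,0),(3,0)]⟩,⟨1,[(1,1),(17,0),(2,0),(3,0),(9,0),
  (0,0)]⟩⟩,⟨true,0,⟨0,[(13,0),(6,0)]⟩,⟨1,[(19,0),(2,0),(3,0)]⟩⟩,⟨false,0,⟨0,[]⟩,⟨3,[(17,0),(0,0),
  (18,1)]⟩⟩,⟨true,0,⟨0,[(1,0)]⟩,⟨0,[(0,0),(33,0)]⟩⟩,⟨true,0,⟨0,[(34,0)]⟩,⟨0,[(35,0)]⟩⟩,⟨false,1,⟨1,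
  [(9,1),(7,0),(2,1),(16,0)]⟩,⟨0,[(0,0)]⟩⟩,[]⟩) (.Q [0,0,0,0,0,1,0,0,0,0,0,-1] (.p false [0,0,0,1]
  [] (⟨0,[(20,0)]⟩,⟨1,[(19,0),(8,0),(0,0)]⟩) .k 0 (⟨0,[]⟩,⟨0,[]⟩) .k .k) (.R ⟨0,false,false,true,[0,
  0,0,1],[1,0,-1],[0,1,1,0,0,0,0,-1],(⟨0,[(21,0)]⟩,⟨1,[(20,0),(8,0),(0,0)]⟩),(⟨0,[(29,0)]⟩,⟨0,[(30,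
  0)]⟩),⟨0,[(0,0)]⟩,.k,.k,(.r (-1) ⟨1,[(19,0),(16,1),(0,0)]⟩ ⟨1,[(1,1),(18,0),(2,0),(3,0),(0,1)]⟩),
  .k,.k,.k,⟨true,0,⟨1,[(26,0),(0,0)]⟩,⟨0,[]⟩⟩,⟨false,1,⟨1,[(3,1),(0,1),(32,0),(0,0)]⟩,⟨1,[(17,0),(2,
  0),(7,1)]⟩⟩,⟨false,0,⟨0,[(5,0)]⟩,⟨1,[(3,1),(32,1),(0,0),(0,0)]⟩⟩,⟨true,0,⟨0,[(1,0),(11,0),(9,0),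
  (3,0),(0,0)]⟩,⟨0,[(8,0)]⟩⟩,⟨false,0,⟨0,[]⟩,⟨0,[]⟩⟩,⟨false,0,⟨0,[]⟩,⟨0,[]⟩⟩,[.o ⟨false,0,⟨0,[(22,
  0)]⟩,⟨7,[(17,3),(0,0),(0,0),(11,1),(6,3)]⟩⟩,.o ⟨false,1,⟨1,[(25,1),(5,0),(6,0)]⟩,⟨0,[(11,0)]⟩⟩,.a
  ⟨true,0,⟨1,[(20,0),(8,0),(0,0)]⟩,⟨0,[(21,0)]⟩⟩ ⟨false,0,⟨1,[(5,0),(3,0),(18,0),(7,0)]⟩,⟨1,[(2,1),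
  (0,1),(9,1),(6,0),(2,0),(3,0),(10,1)]⟩⟩ ⟨true,0,⟨0,[(21,0),(0,0)]⟩,⟨1,[(17,0),(2,0)]⟩⟩,.o ⟨false,
  0,⟨1,[(20,0),(2,0),(2,0)]⟩,⟨1,[(21,1),(9,0),(5,0)]⟩⟩]⟩) (.R ⟨1,false,false,false,[1,0,0,-1],[0,0,
  1],[0,0,0,-1,0,0,0,0,-1],(⟨1,[(20,0),(8,0),(0,0)]⟩,⟨0,[(21,0)]⟩),(⟨0,[(30,0)]⟩,⟨0,[(29,0)]⟩),⟨0,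
  [(0,0),(19,0)]⟩,.k,.k,(.r (-1) ⟨1,[(18,0),(17,1),(0,0)]⟩ ⟨0,[(0,4),(0,0),(1,1),(2,1),(13,2),(2,0),
  (4,2),(4,4)]⟩),.k,(.r (-1) ⟨5,[(5,1),(7,3),(4,2),(0,0),(16,1),(1,1)]⟩ ⟨3,[(3,1),(5,1),(7,0),(5,0),
  (3,0)]⟩),.k,⟨false,1,⟨5,[(5,1),(7,3),(4,2),(0,0),(16,1),(1,1)]⟩,⟨0,[(3,0)]⟩⟩,⟨true,0,⟨1,[(17,0),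
  (2,0),(7,1)]⟩,⟨0,[(21,0),(1,0)]⟩⟩,⟨true,0,⟨0,[(36,0)]⟩,⟨0,[(35,0)]⟩⟩,⟨true,0,⟨0,[(8,0)]⟩,⟨0,[(1,
  0),(11,0),(9,0),(3,0),(0,0)]⟩⟩,⟨false,1,⟨3,[(18,0),(0,0),(18,1)]⟩,⟨0,[]⟩⟩,⟨true,0,⟨0,[(7,0)]⟩,⟨0,
  [(4,0)]⟩⟩,[.o ⟨false,0,⟨0,[(11,0)]⟩,⟨1,[(25,1),(5,0),(6,0)]⟩⟩,.o ⟨false,1,⟨7,[(17,3),(0,0),(0,0),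
  (11,1),(6,3)]⟩,⟨0,[(22,0)]⟩⟩,.a ⟨true,0,⟨0,[(21,0)]⟩,⟨1,[(20,0),(8,0),(0,0)]⟩⟩ ⟨false,1,⟨1,[(18,
  0),(17,1),(1,0)]⟩,⟨0,[(3,0),(24,0)]⟩⟩ ⟨true,0,⟨1,[(17,0),(2,0)]⟩,⟨0,[(21,0),(0,0)]⟩⟩,.o ⟨false,0,
  ⟨3,[(1,0),(4,1),(2,0),(11,2),(1,1),(2,0),(1,0)]⟩,⟨7,[(18,0),(0,0),(0,3),(10,1),(5,3)]⟩⟩]⟩)))))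
  (.Q [0,1,0,0,0,0,0,0,-1,0,0,1] (.p true [0,0,0,1] [] (⟨0,[(17,0)]⟩,⟨1,[(16,0),(8,0),(0,0)]⟩) .k 0
  (⟨0,[]⟩,⟨0,[]⟩) .k .k) (.K ⟨2,[0,0,0,1],0,0,(⟨0,[(18,0)]⟩,⟨1,[(17,0),(8,0),(0,0)]⟩),.k,(.r 0 ⟨0,
  [(1,0),(8,0),(7,0),(1,0),(12,0)]⟩ ⟨0,[(6,0),(8,0)]⟩),(.r 0 ⟨0,[(1,2),(0,1),(0,2),(6,0),(1,2),(5,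
  2),(1,2),(6,2),(2,2),(0,1)]⟩ ⟨1,[(15,0),(17,1),(0,0)]⟩),.k,.k,[⟨0,[(1,0),(8,0),(9,0),(3,0),(0,
  0)]⟩,⟨0,[(0,0)]⟩,⟨1,[(18,1),(4,0),(0,0)]⟩,⟨1,[(17,0),(2,0),(2,0)]⟩]⟩) (.Q [0,0,0,0,0,1,0,0,0,0,0,
  -1] (.p false [0,0,0,1] [] (⟨0,[(18,0)]⟩,⟨1,[(17,0),(8,0),(0,0)]⟩) .k 0 (⟨0,[]⟩,⟨0,[]⟩) .k .k)
  (.R ⟨0,false,false,true,[0,0,0,1],[0,1],[1,1,1,1],(⟨0,[(19,0)]⟩,⟨1,[(18,0),(8,0),(0,0)]⟩),(⟨0,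
  [(31,0)]⟩,⟨0,[(30,0)]⟩),⟨0,[(0,0)]⟩,.k,.k,(.r 0 ⟨2,[(1,2),(8,1),(0,1),(7,2),(5,1),(6,0)]⟩ ⟨0,[(7,
  0),(8,0)]⟩),(.r 0 ⟨2,[(1,2),(8,1),(0,1),(7,2),(5,1),(6,0)]⟩ ⟨0,[(7,0),(8,0)]⟩),.k,.k,⟨true,0,⟨0,
  []⟩,⟨1,[(24,0),(0,0)]⟩⟩,⟨false,1,⟨0,[(19,0),(15,0)]⟩,⟨1,[(18,0),(2,0),(2,0)]⟩⟩,⟨true,0,⟨1,[(3,1),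
  (11,0),(5,0),(3,0),(6,1)]⟩,⟨2,[(1,2),(8,1),(0,1),(7,2),(5,1),(6,0)]⟩⟩,⟨false,1,⟨1,[(16,0),(2,1),
  (13,1),(2,0)]⟩,⟨0,[(1,0),(32,0)]⟩⟩,⟨false,0,⟨0,[]⟩,⟨0,[]⟩⟩,⟨false,0,⟨0,[]⟩,⟨0,[]⟩⟩,[.o ⟨false,0,
  ⟨0,[(33,0)]⟩,⟨3,[(4,3),(11,0),(0,0),(18,1)]⟩⟩,.o ⟨false,1,⟨3,[(16,0),(0,0),(15,3),(2,1)]⟩,⟨0,[(4,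
  0)]⟩⟩,.a ⟨true,0,⟨1,[(18,0),(8,0),(0,0)]⟩,⟨0,[(19,0)]⟩⟩ ⟨false,0,⟨3,[(2,0),(0,1),(3,0),(6,0),(4,
  0),(1,1),(10,0)]⟩,⟨1,[(34,1),(0,0),(0,0)]⟩⟩ ⟨true,0,⟨0,[(19,0),(13,0)]⟩,⟨1,[(4,0),(13,0),(15,
  0)]⟩⟩,.o ⟨false,0,⟨1,[(18,0),(2,0),(2,0)]⟩,⟨1,[(19,1),(9,0),(5,0)]⟩⟩]⟩) (.R ⟨1,false,false,false,
  [1,0,0,-1],[1,-1],[1,0,0,0,0,0,0,0,-1],(⟨1,[(18,0),(8,0),(0,0)]⟩,⟨0,[(19,0)]⟩),(⟨0,[(30,0)]⟩,⟨0,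
  [(31,0)]⟩),⟨0,[(0,0),(17,0)]⟩,.k,.k,(.r (-1) ⟨1,[(16,0),(17,1),(0,0)]⟩ ⟨0,[(0,14),(0,2),(1,1),(0,
  3),(3,1),(9,5),(2,1),(9,14),(0,2)]⟩),(.r (-1) ⟨0,[(7,0),(8,0)]⟩ ⟨2,[(1,2),(8,1),(0,1),(7,2),(5,1),
  (6,0)]⟩),.k,.k,⟨false,1,⟨1,[(16,0),(16,1),(2,0)]⟩,⟨2,[(1,2),(8,1),(0,1),(7,2),(5,1),(6,0)]⟩⟩,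
  ⟨true,0,⟨1,[(18,0),(2,0),(2,0)]⟩,⟨0,[(19,0)]⟩⟩,⟨true,0,⟨0,[]⟩,⟨0,[(38,0)]⟩⟩,⟨false,0,⟨0,[(1,0),
  (32,0)]⟩,⟨1,[(16,0),(2,1),(13,1),(2,0)]⟩⟩,⟨false,1,⟨0,[(33,0),(2,0)]⟩,⟨0,[(34,0)]⟩⟩,⟨false,0,⟨0,
  [(1,0)]⟩,⟨3,[(16,2),(0,0),(1,3)]⟩⟩,[.o ⟨false,0,⟨0,[(4,0)]⟩,⟨3,[(16,0),(0,0),(15,3),(2,1)]⟩⟩,.o
  ⟨false,1,⟨3,[(4,3),(11,0),(0,0),(18,1)]⟩,⟨0,[(33,0)]⟩⟩,.a ⟨true,0,⟨0,[(19,0)]⟩,⟨1,[(18,0),(8,0),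
  (0,0)]⟩⟩ ⟨false,1,⟨1,[(16,0),(19,0)]⟩,⟨2,[(1,0),(4,0),(0,0),(3,0),(7,1),(1,0)]⟩⟩ ⟨true,0,⟨1,[(4,
  0),(13,0),(15,0)]⟩,⟨0,[(19,0),(13,0)]⟩⟩,.o ⟨false,0,⟨2,[(4,0),(3,0),(10,2),(1,1),(2,0),(1,0)]⟩,⟨7,
  [(16,0),(0,0),(0,3),(10,1),(5,3)]⟩⟩]⟩)))) (.Q [0,1,0,0,0,0,0,0,-1,0,0,1] (.p true [0,0,0,1] []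
  (⟨0,[(16,0)]⟩,⟨1,[(15,0),(8,0),(0,0)]⟩) .k 0 (⟨0,[]⟩,⟨0,[]⟩) .k .k) (.K ⟨2,[0,0,0,1],0,0,(⟨0,[(17,
  0)]⟩,⟨1,[(16,0),(8,0),(0,0)]⟩),.k,(.r 0 ⟨0,[(1,0),(22,0),(7,0)]⟩ ⟨0,[(5,0),(8,0)]⟩),(.r 0 ⟨0,[(1,
  0),(0,0),(3,1),(4,2),(7,1),(4,2),(1,2),(2,2)]⟩ ⟨1,[(14,0),(17,1),(0,0)]⟩),.k,.k,[⟨1,[(1,1),(14,0),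
  (2,0),(3,0),(0,3)]⟩,⟨0,[(0,0)]⟩,⟨1,[(17,1),(4,0),(0,0)]⟩,⟨1,[(16,0),(2,0),(2,0)]⟩]⟩) (.Q [0,0,0,0,
  0,1,0,0,0,0,-1] (.ed true [1,-1,1] .k) (.Q [0,0,0,0,0,1,0,0,0,0,0,-1] (.p false [0,0,0,1] [] (⟨0,
  [(18,0)]⟩,⟨1,[(17,0),(8,0),(0,0)]⟩) .k 0 (⟨0,[]⟩,⟨0,[]⟩) .k .k) (.R ⟨0,false,false,false,[0,0,0,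
  1],[1,-1],[1,0,0,0,0,0,0,0,1],(⟨0,[(19,0)]⟩,⟨1,[(18,0),(8,0),(0,0)]⟩),(⟨0,[(30,0)]⟩,⟨0,[(31,0)]⟩),
  ⟨0,[(0,0)]⟩,.k,.k,(.r 0 ⟨4,[(2,1),(0,1),(3,0),(3,1),(7,1),(14,3)]⟩ ⟨0,[(7,0),(8,0)]⟩),(.r 0 ⟨0,
  [(2,0),(1,1),(3,1),(4,3),(5,0),(1,1),(4,1),(1,3),(2,3),(0,0)]⟩ ⟨1,[(16,0),(17,1),(0,0)]⟩),.k,.k,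
  ⟨false,0,⟨1,[(2,0),(4,0),(11,0),(12,0)]⟩,⟨1,[(16,0),(17,1),(0,0)]⟩⟩,⟨true,0,⟨2,[(4,0),(3,0),(10,
  2),(1,1),(2,0),(1,0)]⟩,⟨1,[(18,0),(8,0),(0,0)]⟩⟩,⟨true,0,⟨0,[]⟩,⟨0,[(38,0)]⟩⟩,⟨false,1,⟨1,[(4,1),
  (11,0),(2,1),(16,0)]⟩,⟨0,[(2,0),(11,0),(8,0)]⟩⟩,⟨false,0,⟨0,[]⟩,⟨0,[]⟩⟩,⟨false,0,⟨0,[]⟩,⟨0,[]⟩⟩,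
  [.o ⟨false,0,⟨0,[(4,0)]⟩,⟨3,[(16,0),(0,0),(15,3),(2,1)]⟩⟩,.o ⟨false,1,⟨3,[(4,3),(11,0),(0,0),(18,
  1)]⟩,⟨0,[(33,0)]⟩⟩,.a ⟨true,0,⟨1,[(18,0),(8,0),(0,0)]⟩,⟨0,[(19,0)]⟩⟩ ⟨false,0,⟨0,[(2,0),(16,0)]⟩,
  ⟨3,[(16,2),(0,0)]⟩⟩ ⟨true,0,⟨0,[(4,0),(14,0)]⟩,⟨1,[(14,0),(3,0),(4,0),(9,0)]⟩⟩,.o ⟨false,0,⟨1,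
  [(18,0),(2,0),(2,0)]⟩,⟨1,[(19,1),(9,0),(5,0)]⟩⟩]⟩) (.R ⟨1,false,false,false,[0,0,0,1],[0,0,1],[1,
  0,0,0,0,0,0,0,1],(⟨0,[(19,0)]⟩,⟨1,[(18,0),(8,0),(0,0)]⟩),(⟨0,[(28,0)]⟩,⟨0,[(27,0)]⟩),⟨0,[(0,0)]⟩,
  .k,.k,(.r 0 ⟨4,[(2,1),(0,1),(3,0),(3,1),(7,1),(14,3)]⟩ ⟨0,[(7,0),(8,0)]⟩),.k,(.r 0 ⟨2,[(2,1),(4,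
  0),(3,1),(7,1),(6,0),(7,1)]⟩ ⟨3,[(14,3),(1,2),(0,0),(3,3)]⟩),.k,⟨false,0,⟨0,[(3,0),(22,1)]⟩,⟨7,
  [(3,3),(11,1),(0,6),(0,0),(3,1),(3,1)]⟩⟩,⟨true,0,⟨0,[(12,0),(6,0)]⟩,⟨1,[(18,0),(2,0),(3,0)]⟩⟩,
  ⟨true,0,⟨0,[]⟩,⟨0,[(38,0)]⟩⟩,⟨false,1,⟨5,[(4,1),(3,1),(6,1),(0,2),(2,5),(16,2)]⟩,⟨0,[(2,0),(20,
  0)]⟩⟩,⟨false,1,⟨0,[(33,0),(2,0)]⟩,⟨0,[(34,0)]⟩⟩,⟨false,1,⟨1,[(8,1),(7,0),(2,1),(16,0)]⟩,⟨0,[(2,0),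
  (20,0),(10,0)]⟩⟩,[.o ⟨false,0,⟨0,[(9,0)]⟩,⟨1,[(23,1),(5,0),(6,0)]⟩⟩,.o ⟨false,1,⟨7,[(15,3),(0,0),
  (0,0),(11,1),(6,3)]⟩,⟨0,[(20,0)]⟩⟩,.a ⟨true,0,⟨1,[(18,0),(8,0),(0,0)]⟩,⟨0,[(19,0)]⟩⟩ ⟨false,0,⟨0,
  [(2,0),(16,0)]⟩,⟨3,[(16,2),(0,0)]⟩⟩ ⟨true,0,⟨2,[(4,0),(3,0),(6,0),(3,2)]⟩,⟨1,[(18,0),(1,0),(2,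
  0)]⟩⟩,.o ⟨false,0,⟨1,[(18,0),(2,0),(2,0)]⟩,⟨1,[(19,1),(9,0),(5,0)]⟩⟩]⟩)) (.R ⟨1,false,false,false,
  [1,0,0,-1],[1,-1],[1,0,0,0,0,0,0,0,-1],(⟨1,[(17,0),(8,0),(0,0)]⟩,⟨0,[(18,0)]⟩),(⟨0,[(29,0)]⟩,⟨0,
  [(30,0)]⟩),⟨1,[(0,0),(11,0),(4,0)]⟩,.k,.k,(.r (-1) ⟨1,[(15,0),(17,1),(0,0)]⟩ ⟨0,[(0,3),(0,0),(1,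
  1),(3,1),(4,3),(5,0),(1,1),(4,1),(4,7),(0,0)]⟩),(.r (-1) ⟨0,[(6,0),(8,0)]⟩ ⟨4,[(1,1),(0,1),(3,0),
  (3,1),(7,1),(14,3)]⟩),.k,.k,⟨false,1,⟨1,[(15,0),(16,1),(2,0)]⟩,⟨4,[(1,1),(0,1),(3,0),(3,1),(7,1),
  (14,3)]⟩⟩,⟨true,0,⟨1,[(17,0),(2,0),(2,0)]⟩,⟨0,[(18,0)]⟩⟩,⟨true,0,⟨0,[]⟩,⟨0,[(37,0)]⟩⟩,⟨false,0,⟨0,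
  [(1,0),(31,0)]⟩,⟨1,[(15,0),(2,1),(13,1),(2,0)]⟩⟩,⟨false,1,⟨0,[(32,0),(2,0)]⟩,⟨0,[(33,0)]⟩⟩,⟨false,
  0,⟨0,[(1,0)]⟩,⟨3,[(15,2),(0,0),(1,3)]⟩⟩,[.o ⟨false,0,⟨0,[(3,0)]⟩,⟨3,[(15,0),(0,0),(15,3),(2,1)]⟩⟩,
  .o ⟨false,1,⟨3,[(3,3),(11,0),(0,0),(18,1)]⟩,⟨0,[(32,0)]⟩⟩,.a ⟨true,0,⟨0,[(18,0)]⟩,⟨1,[(17,0),(8,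
  0),(0,0)]⟩⟩ ⟨false,1,⟨1,[(15,0),(19,0)]⟩,⟨4,[(1,0),(0,0),(3,2),(3,0),(7,0),(14,1)]⟩⟩ ⟨true,0,⟨1,
  [(3,0),(13,0),(15,0)]⟩,⟨0,[(18,0),(13,0)]⟩⟩,.o ⟨false,0,⟨2,[(3,0),(3,0),(10,2),(1,1),(2,0),(1,
  0)]⟩,⟨7,[(15,0),(0,0),(0,3),(10,1),(5,3)]⟩⟩]⟩))))) (.R ⟨1,true,false,false,[1,0,-1],[0,0,0,1],[1,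
  1,0,0,0,0,0,-1],(⟨0,[(22,0)]⟩,⟨0,[(23,0)]⟩),(⟨0,[(14,0)]⟩,⟨1,[(13,0),(8,0),(0,0)]⟩),⟨0,[(8,0)]⟩,
  .k,.k,.k,.k,(.x 0 ⟨0,[(8,0),(7,0)]⟩ ⟨0,[(19,0),(3,0),(2,0),(3,0)]⟩),.k,⟨false,0,⟨3,[(0,3),(5,0),
  (0,1),(1,1),(3,1),(7,0),(5,1),(0,0)]⟩,⟨1,[(1,1),(12,1),(1,1),(13,0),(0,0)]⟩⟩,⟨true,0,⟨1,[(10,0),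
  (2,0),(7,1)]⟩,⟨0,[(14,0),(1,0)]⟩⟩,⟨false,0,⟨0,[]⟩,⟨3,[(11,0),(0,0),(18,1)]⟩⟩,⟨true,0,⟨0,[(1,0)]⟩,
  ⟨0,[(0,0),(27,0)]⟩⟩,⟨true,0,⟨0,[(28,0)]⟩,⟨0,[(29,0)]⟩⟩,⟨false,1,⟨1,[(3,0),(5,0),(2,0),(0,0),(17,
  0)]⟩,⟨0,[(0,0)]⟩⟩,[]⟩)) (.K ⟨2,[1,0,0,-1],0,0,(⟨1,[(12,0),(8,0),(0,0)]⟩,⟨0,[(13,0)]⟩),.k,(.x 0 ⟨0,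
  [(6,0),(8,0),(8,0)]⟩ ⟨3,[(10,0),(0,0),(13,3),(3,1)]⟩),(.r 0 ⟨1,[(0,1),(7,1),(3,0),(2,0),(2,0)]⟩
  ⟨1,[(11,0),(16,1),(0,0)]⟩),.k,.k,[⟨0,[(0,0)]⟩,⟨1,[(1,1),(3,1),(3,0),(2,0),(6,1)]⟩,⟨1,[(12,0),(5,
  0),(0,0),(1,0),(0,0)]⟩,⟨0,[(6,0),(6,0),(1,0)]⟩]⟩))))) (.I [0,0,-1,-1,0,0,0,-2] (.Q [0,0,0,-1,0,0,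
  -2,-2,0,-1,2] (.p true [0,0,1] [1,0,-1] (⟨0,[(19,0)]⟩,⟨0,[(18,0)]⟩) .k 2 (⟨0,[(18,0)]⟩,⟨0,[(19,
  0)]⟩) .k (.r (-1) ⟨0,[(6,0),(5,0),(3,0),(9,0)]⟩ ⟨0,[(17,1)]⟩)) (.K ⟨2,[1,-1,-1],0,0,(⟨0,[(5,0)]⟩,
  ⟨0,[(20,0),(2,0)]⟩),.k,(.r (-1) ⟨3,[(3,3),(4,0),(0,0),(16,3),(1,1)]⟩ ⟨1,[(2,0),(3,2),(6,2),(2,
  0)]⟩),.k,(.r 0 ⟨0,[(1,0)]⟩ ⟨3,[(6,3),(0,1),(0,0),(0,0),(3,5),(3,1),(9,1)]⟩),.k,[⟨0,[(0,0)]⟩,⟨0,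
  [(6,0),(23,0)]⟩,⟨5,[(1,1),(4,1),(0,0),(8,1),(2,2),(0,2)]⟩,⟨1,[(13,1),(2,0),(0,0)]⟩]⟩) (.Q [0,0,0,
  0,0,-2,0,0,0,1] (.pp false [-1,1]) (.Q [0,0,0,-2,0,0,-2,-2,0,-1,2] (.p true [0,0,1] [1,0,-1] (⟨0,
  [(21,0)]⟩,⟨0,[(20,0)]⟩) .k 2 (⟨0,[(20,0)]⟩,⟨0,[(21,0)]⟩) .k (.r (-1) ⟨0,[(8,0),(5,0),(3,0),(9,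
  0)]⟩ ⟨0,[(19,1)]⟩)) (.R ⟨1,true,false,true,[1,0,-1],[0,1,1],[0,0,0,-1,0,0,0,-1],(⟨0,[(21,0)]⟩,⟨0,
  [(22,0)]⟩),(⟨0,[(22,0),(2,0)]⟩,⟨0,[(7,0)]⟩),⟨0,[(7,0)]⟩,.k,.k,.k,(.r 0 ⟨0,[(3,0)]⟩ ⟨3,[(2,3),(7,
  0),(0,0),(3,3),(3,3),(9,1)]⟩),(.r (-1) ⟨2,[(3,1),(1,1),(4,0),(0,0),(16,1),(1,0)]⟩ ⟨0,[(8,1),(6,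
  1)]⟩),.k,⟨false,1,⟨11,[(3,7),(1,7),(4,0),(0,0),(16,7),(1,9)]⟩,⟨0,[(2,0),(12,0),(3,0),(6,0)]⟩⟩,
  ⟨true,0,⟨0,[(2,0),(0,0)]⟩,⟨0,[(15,0),(3,0)]⟩⟩,⟨true,0,⟨0,[(28,0)]⟩,⟨0,[(27,0)]⟩⟩,⟨false,0,⟨0,[(2,
  0)]⟩,⟨15,[(0,11),(3,7),(5,2),(0,2),(11,1),(6,7)]⟩⟩,⟨false,1,⟨3,[(10,0),(0,0),(18,1)]⟩,⟨0,[]⟩⟩,
  ⟨true,0,⟨0,[(2,0),(24,0)]⟩,⟨0,[(0,0)]⟩⟩,[]⟩) (.R ⟨1,false,false,true,[1,0,-1],[0,1,1],[0,0,0,-1,0,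
  0,0,-1],(⟨0,[(21,0)]⟩,⟨0,[(22,0)]⟩),(⟨0,[(22,0),(2,0)]⟩,⟨0,[(7,0)]⟩),⟨0,[(7,0)]⟩,.k,.k,.k,(.r 0
  ⟨0,[(3,0)]⟩ ⟨3,[(2,3),(7,0),(0,0),(3,3),(3,3),(9,1)]⟩),(.r (-1) ⟨2,[(3,1),(1,1),(4,0),(0,0),(16,
  1),(1,0)]⟩ ⟨0,[(0,0),(14,0),(3,0)]⟩),.k,⟨false,1,⟨11,[(3,7),(1,7),(4,0),(0,0),(16,7),(1,9)]⟩,⟨0,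
  [(2,0),(12,0),(3,0),(6,0)]⟩⟩,⟨true,0,⟨0,[(2,0),(0,0)]⟩,⟨0,[(15,0),(3,0)]⟩⟩,⟨true,0,⟨0,[(28,0)]⟩,
  ⟨0,[(27,0)]⟩⟩,⟨false,0,⟨0,[(2,0)]⟩,⟨1,[(3,0),(1,0),(9,1),(1,0),(1,0),(10,1)]⟩⟩,⟨false,1,⟨3,[(10,
  0),(0,0),(18,1)]⟩,⟨0,[]⟩⟩,⟨false,0,⟨0,[(0,0)]⟩,⟨1,[(3,0),(1,0),(9,1),(1,0),(1,0),(8,1),(1,1)]⟩⟩,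
  [.o ⟨false,0,⟨1,[(0,0),(13,0),(1,0)]⟩,⟨4,[(3,0),(1,0),(9,2),(1,1),(5,0),(4,2),(1,3)]⟩⟩,.a ⟨true,0,
  ⟨0,[(8,0)]⟩,⟨0,[(4,0),(23,1)]⟩⟩ ⟨false,1,⟨5,[(3,1),(1,1),(4,0),(0,0),(16,1),(1,3)]⟩,⟨1,[(9,0),(5,
  0),(3,0),(6,1)]⟩⟩ ⟨true,0,⟨2,[(0,0),(1,0),(0,0),(4,0),(9,0)]⟩,⟨0,[(4,0),(10,0),(12,1)]⟩⟩,.o
  ⟨false,1,⟨3,[(10,0),(0,0),(3,3),(13,1)]⟩,⟨0,[(6,0)]⟩⟩,.o ⟨false,0,⟨0,[(15,0)]⟩,⟨3,[(2,1),(0,1),(6,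
  0),(0,0),(11,0),(5,0)]⟩⟩]⟩)) (.R ⟨0,false,false,false,[0,0,1],[1,-1],[1,0,0,-1],(⟨0,[(21,0)]⟩,⟨0,
  [(20,0)]⟩),(⟨0,[(23,0)]⟩,⟨0,[(24,0)]⟩),⟨0,[(0,0),(5,0)]⟩,.k,.k,.k,.k,.k,.k,⟨false,0,⟨0,[]⟩,⟨3,[(9,
  0),(0,0),(17,1)]⟩⟩,⟨true,0,⟨0,[(14,0)]⟩,⟨5,[(2,1),(4,1),(0,0),(8,1),(2,2),(0,2)]⟩⟩,⟨true,0,⟨3,[(2,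
  1),(14,0),(0,0),(8,1)]⟩,⟨1,[(8,0),(5,0),(3,0),(6,1)]⟩⟩,⟨false,1,⟨4,[(2,0),(1,0),(9,2),(1,1),(5,0),
  (4,2),(1,3)]⟩,⟨0,[(7,0)]⟩⟩,⟨false,0,⟨0,[]⟩,⟨0,[]⟩⟩,⟨false,0,⟨0,[]⟩,⟨0,[]⟩⟩,[.a ⟨true,0,⟨0,[(27,
  0)]⟩,⟨1,[(3,0),(3,0),(12,0),(0,0)]⟩⟩ ⟨true,0,⟨0,[(27,0)]⟩,⟨1,[(3,0),(3,0),(6,0),(2,0)]⟩⟩ ⟨false,1,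
  ⟨0,[(14,0),(12,0),(0,0)]⟩,⟨0,[(7,0),(11,0)]⟩⟩,.o ⟨false,1,⟨1,[(22,0),(4,1),(1,0)]⟩,⟨0,[(26,0)]⟩⟩,
  .o ⟨false,0,⟨0,[(5,0)]⟩,⟨3,[(9,0),(0,0),(3,3),(13,1)]⟩⟩,.o ⟨false,0,⟨0,[(17,0)]⟩,⟨0,[(14,0),(13,
  0)]⟩⟩]⟩))) (.Q [0,0,0,0,0,2,0,0,0,-1,1] (.p true [0,0,1] [1] (⟨0,[(19,0)]⟩,⟨0,[(18,0)]⟩) .k 1 (⟨0,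
  []⟩,⟨0,[]⟩) .k .k) (.R ⟨0,false,false,false,[1,-1,-1],[1,-1],[0,0,1],(⟨0,[(5,0)]⟩,⟨0,[(20,0),(2,
  0)]⟩),(⟨0,[(22,0)]⟩,⟨0,[(23,0)]⟩),⟨0,[(0,0)]⟩,.k,.k,(.r (-1) ⟨3,[(3,3),(4,0),(0,0),(16,3),(1,1)]⟩
  ⟨0,[(1,0),(0,0),(13,0)]⟩),.k,.k,.k,⟨false,0,⟨2,[(1,0),(0,1),(13,1)]⟩,⟨0,[(26,0),(0,0)]⟩⟩,⟨true,0,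
  ⟨0,[(4,0)]⟩,⟨0,[(17,0)]⟩⟩,⟨true,0,⟨5,[(1,3),(0,1),(13,4),(0,2)]⟩,⟨0,[(3,0)]⟩⟩,⟨false,1,⟨7,[(7,3),
  (0,0),(0,0),(11,1),(6,3)]⟩,⟨0,[(2,0),(23,0)]⟩⟩,⟨false,0,⟨0,[]⟩,⟨0,[]⟩⟩,⟨false,0,⟨0,[]⟩,⟨0,[]⟩⟩,
  [.a ⟨true,0,⟨0,[(26,0)]⟩,⟨1,[(2,0),(3,0),(12,0),(0,0)]⟩⟩ ⟨true,0,⟨1,[(16,0),(0,0)]⟩,⟨0,[]⟩⟩
  ⟨false,1,⟨7,[(3,7),(3,3),(0,0),(0,0),(11,1),(6,3)]⟩,⟨5,[(1,1),(0,3),(13,0),(0,2)]⟩⟩,.o ⟨false,1,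
  ⟨1,[(21,0),(4,1),(1,0)]⟩,⟨0,[(25,0)]⟩⟩,.o ⟨false,0,⟨0,[(13,0)]⟩,⟨0,[(16,0),(10,0)]⟩⟩,.o ⟨false,0,
  ⟨1,[(13,1),(2,0),(0,0)]⟩,⟨0,[(4,0),(22,0)]⟩⟩]⟩) (.Q [0,0,0,-2,0,0,1,1,0,0,-1] (.p false [0,0,1]
  [] (⟨0,[(20,0)]⟩,⟨0,[(19,0)]⟩) .k 0 (⟨0,[]⟩,⟨0,[]⟩) .k .k) (.R ⟨1,false,false,false,[1,-1],[1,0,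
  -1],[1,0,0,0,0,0,0,-1],(⟨0,[(23,0)]⟩,⟨0,[(24,0)]⟩),(⟨0,[(20,0)]⟩,⟨0,[(21,0)]⟩),⟨0,[(1,0),(19,0)]⟩,
  .k,.k,(.r (-1) ⟨2,[(0,1),(3,1),(13,1),(9,1),(0,0)]⟩ ⟨2,[(2,1),(0,3),(13,3)]⟩),.k,(.r (-1) ⟨5,[(0,
  3),(1,5),(1,9),(13,3),(9,0),(0,4)]⟩ ⟨2,[(2,0),(0,4),(13,4)]⟩),.k,⟨true,0,⟨0,[]⟩,⟨1,[(17,0),(0,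
  0)]⟩⟩,⟨false,1,⟨3,[(2,3),(0,1),(0,5),(13,1),(9,0),(0,2)]⟩,⟨0,[(17,0)]⟩⟩,⟨true,0,⟨0,[(3,0),(13,
  0)]⟩,⟨0,[(2,0),(1,0),(22,0)]⟩⟩,⟨true,0,⟨0,[(3,0)]⟩,⟨1,[(0,0),(14,0),(15,0)]⟩⟩,⟨true,0,⟨2,[(2,0),
  (0,4),(1,2),(11,1)]⟩,⟨0,[(2,0),(1,0),(22,1)]⟩⟩,⟨false,1,⟨0,[(3,0),(22,0),(2,0)]⟩,⟨0,[(0,0)]⟩⟩,[.a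
  ⟨true,0,⟨0,[(3,0),(23,0)]⟩,⟨1,[(8,0),(11,0),(0,0)]⟩⟩ ⟨true,0,⟨0,[(19,0)]⟩,⟨4,[(0,0),(1,1),(14,0),
  (0,1)]⟩⟩ ⟨false,1,⟨3,[(3,1),(0,1),(13,1),(9,2),(0,0)]⟩,⟨4,[(0,0),(1,1),(2,0),(11,2)]⟩⟩,.o ⟨false,
  1,⟨0,[(13,0),(15,0)]⟩,⟨0,[(15,0)]⟩⟩,.o ⟨false,0,⟨0,[(5,0),(8,0)]⟩,⟨3,[(9,0),(0,0),(17,1)]⟩⟩,.o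
  ⟨false,0,⟨0,[(14,0),(2,0)]⟩,⟨0,[(28,0)]⟩⟩]⟩) (.I [0,-1,2,1] (.R ⟨1,false,false,false,[1,-1],[1,0,
  -1],[1,1,-1,-1],(⟨0,[(24,0)]⟩,⟨0,[(25,0)]⟩),(⟨0,[(21,0)]⟩,⟨0,[(22,0)]⟩),⟨0,[(2,0),(19,0)]⟩,.k,.k,
  (.r (-1) ⟨0,[(28,1),(0,0)]⟩ ⟨0,[(0,0),(26,0)]⟩),.k,(.r (-1) ⟨1,[(3,1),(1,1),(22,3),(0,0),(0,0)]⟩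
  ⟨5,[(0,2),(0,3),(15,1),(0,5),(8,0)]⟩),.k,⟨true,0,⟨0,[(3,0),(1,0),(22,0)]⟩,⟨0,[(0,0),(19,0)]⟩⟩,
  ⟨false,1,⟨3,[(3,3),(0,1),(0,5),(13,1),(9,0),(0,2)]⟩,⟨0,[(18,0)]⟩⟩,⟨false,0,⟨0,[]⟩,⟨3,[(10,0),(0,
  0),(18,1)]⟩⟩,⟨true,0,⟨0,[(4,0)]⟩,⟨0,[(16,0),(11,0)]⟩⟩,⟨true,0,⟨0,[(27,0)]⟩,⟨0,[(28,0)]⟩⟩,⟨true,0,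
  ⟨0,[(1,0)]⟩,⟨0,[(16,0),(11,1)]⟩⟩,[.a ⟨true,0,⟨0,[(4,0),(23,0)]⟩,⟨1,[(9,0),(11,0),(0,0)]⟩⟩ ⟨true,0,
  ⟨2,[(3,0),(1,1),(22,1),(3,0)]⟩,⟨0,[(0,0)]⟩⟩ ⟨false,1,⟨3,[(4,1),(0,1),(13,1),(9,2),(0,0)]⟩,⟨1,[(9,
  0),(5,0),(2,0)]⟩⟩,.o ⟨false,1,⟨0,[(14,0),(15,0)]⟩,⟨0,[(16,0)]⟩⟩,.o ⟨false,0,⟨0,[(6,0),(8,0)]⟩,⟨3,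
  [(10,0),(0,0),(17,1)]⟩⟩,.o ⟨false,0,⟨0,[(15,0),(2,0)]⟩,⟨0,[(29,0)]⟩⟩]⟩) (.Q [0,0,0,0,0,1,0,0,0,0,
  -1] (.ed true [1,-1,1] .k) (.R ⟨0,false,false,false,[0,0,1],[1,-1],[0,0,1],(⟨0,[(23,0)]⟩,⟨0,[(22,
  0)]⟩),(⟨0,[(25,0)]⟩,⟨0,[(26,0)]⟩),⟨0,[(0,0)]⟩,.k,.k,.k,.k,.k,.k,⟨false,0,⟨4,[(2,1),(1,0),(14,2),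
  (0,0)]⟩,⟨3,[(1,3),(9,0),(0,0),(18,1)]⟩⟩,⟨true,0,⟨0,[(16,0)]⟩,⟨1,[(10,0),(10,1),(0,0),(0,0)]⟩⟩,
  ⟨true,0,⟨1,[(19,0),(0,0),(0,1)]⟩,⟨3,[(1,2),(2,1),(23,0)]⟩⟩,⟨false,1,⟨0,[(15,0),(13,0),(1,0)]⟩,⟨0,
  [(9,0)]⟩⟩,⟨false,0,⟨0,[]⟩,⟨0,[]⟩⟩,⟨false,0,⟨0,[]⟩,⟨0,[]⟩⟩,[.a ⟨true,0,⟨0,[(29,0)]⟩,⟨2,[(2,0),(6,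
  0),(12,1),(0,1)]⟩⟩ ⟨true,0,⟨1,[(19,0),(0,0)]⟩,⟨0,[]⟩⟩ ⟨false,1,⟨3,[(1,3),(9,0),(0,0),(3,3),(14,
  1)]⟩,⟨0,[(9,0),(11,0)]⟩⟩,.o ⟨false,1,⟨1,[(24,0),(4,1),(1,0)]⟩,⟨0,[(28,0)]⟩⟩,.o ⟨false,0,⟨0,[(7,
  0)]⟩,⟨3,[(11,0),(0,0),(3,3),(13,1)]⟩⟩,.o ⟨false,0,⟨0,[(19,0)]⟩,⟨0,[(16,0),(13,0)]⟩⟩]⟩) (.Q [0,0,0,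
  0,0,-2,0,0,0,0,1] (.p true [0,0,1] [] (⟨0,[(23,0)]⟩,⟨0,[(22,0)]⟩) .k 0 (⟨0,[]⟩,⟨0,[]⟩) .k .k) (.I
  [0,-1,2,1,0,0,0,-1] (.R ⟨1,false,false,false,[0,-1,1],[1,0,-1],[1,1,-1,-1,0,0,0,1],(⟨0,[(2,0)]⟩,
  ⟨0,[(24,0),(3,0)]⟩),(⟨0,[(24,0)]⟩,⟨0,[(25,0)]⟩),⟨0,[(1,0)]⟩,.k,.k,(.r (-1) ⟨15,[(3,19),(2,7),(6,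
  2),(0,2),(16,19),(1,9)]⟩ ⟨0,[(0,0),(29,0)]⟩),(.r (-1) ⟨3,[(3,3),(2,3),(6,0),(0,0),(16,3),(1,1)]⟩
  ⟨3,[(0,4),(7,2),(21,1)]⟩),(.r (-1) ⟨7,[(3,11),(2,7),(6,0),(0,0),(16,11),(1,5)]⟩ ⟨1,[(0,2),(7,0),
  (21,1)]⟩),.k,⟨true,0,⟨0,[(3,0),(2,0),(24,0)]⟩,⟨1,[(0,2),(7,0)]⟩⟩,⟨false,1,⟨5,[(3,9),(0,3),(1,1),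
  (11,5),(3,1),(9,0),(0,4)]⟩,⟨1,[(0,0),(7,0),(3,0),(8,1),(2,0),(0,0)]⟩⟩,⟨false,0,⟨0,[]⟩,⟨3,[(13,0),
  (0,0),(18,1)]⟩⟩,⟨false,1,⟨0,[(7,0),(9,0),(15,0)]⟩,⟨0,[(12,0),(18,0)]⟩⟩,⟨true,0,⟨0,[(30,0)]⟩,⟨0,
  [(31,0)]⟩⟩,⟨false,1,⟨0,[(4,0),(12,0),(15,0)]⟩,⟨0,[(12,0),(18,1)]⟩⟩,[.a ⟨true,0,⟨0,[(7,0),(23,0)]⟩,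
  ⟨1,[(12,0),(11,0),(0,0)]⟩⟩ ⟨true,0,⟨4,[(3,3),(2,1),(12,0),(2,0),(8,2)]⟩,⟨0,[(0,0)]⟩⟩ ⟨false,1,⟨1,
  [(3,1),(3,1),(10,1),(13,0),(0,0)]⟩,⟨1,[(12,0),(8,1),(2,0),(0,0)]⟩⟩,.o ⟨false,1,⟨0,[(17,0),(15,
  0)]⟩,⟨0,[(19,0)]⟩⟩,.o ⟨false,0,⟨0,[(21,0)]⟩,⟨0,[(18,0),(13,0)]⟩⟩,.o ⟨false,0,⟨1,[(21,2),(0,0)]⟩,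
  ⟨7,[(3,9),(0,3),(1,1),(11,3),(7,1),(5,0),(0,4)]⟩⟩]⟩) (.I [0,0,1,1,0,0,0,0,1] (.Q [0,0,0,0,0,0,1,1,
  1,1,-1,-1] (.p false [0,0,1] [1,0,0,-1] (⟨0,[(26,0)]⟩,⟨0,[(25,0)]⟩) .k 2 (⟨1,[(16,0),(8,0),(0,
  0)]⟩,⟨0,[(17,0)]⟩) .k (.x 0 ⟨0,[(10,0),(15,0)]⟩ ⟨3,[(14,0),(0,0),(3,3),(5,3),(7,1)]⟩)) (.Q [0,1,0,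
  0,-1,0,0,0,1,1,0,-1] (.p false [0,0,0,1] [1] (⟨0,[(18,0)]⟩,⟨1,[(17,0),(8,0),(0,0)]⟩) .k 1 (⟨0,[]⟩,
  ⟨0,[]⟩) .k .k) (.K ⟨1,[1,0,0,-1],0,1,(⟨1,[(18,0),(8,0),(0,0)]⟩,⟨0,[(19,0)]⟩),.k,(.r (-1) ⟨7,[(3,
  1),(7,1),(4,4),(0,0),(16,3),(1,1)]⟩ ⟨0,[(2,0)]⟩),(.r (-1) ⟨0,[(2,0),(13,0)]⟩ ⟨1,[(0,1),(2,0),(7,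
  0),(0,1),(6,1),(1,1),(14,1)]⟩),.k,.k,[⟨1,[(18,0),(5,0),(0,0),(1,0),(0,0)]⟩,⟨0,[(12,0),(6,0),(1,
  0)]⟩,⟨0,[(0,0)]⟩,⟨1,[(16,0),(2,1),(16,0)]⟩]⟩) (.Q [0,0,0,-1,0,0,-1,-1,1,0,1,-1] (.p true [0,0,1]
  [0,0,0,1] (⟨0,[(28,0)]⟩,⟨0,[(27,0)]⟩) .k 2 (⟨0,[(19,0)]⟩,⟨1,[(18,0),(8,0),(0,0)]⟩) .k (.x 0 ⟨0,
  [(12,0),(15,0)]⟩ ⟨3,[(16,0),(0,0),(3,3),(5,3),(7,1)]⟩)) (.I [0,-1,0,0,0,0,0,0,1] (.R ⟨1,false,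
  false,true,[1,0,0,-1],[0,0,1],[1,1,0,0,0,0,0,0,-1],(⟨1,[(20,0),(8,0),(0,0)]⟩,⟨0,[(21,0)]⟩),(⟨0,
  [(30,0)]⟩,⟨0,[(29,0)]⟩),⟨5,[(6,0),(3,0),(9,2),(11,1)]⟩,.k,.k,(.r (-1) ⟨7,[(5,1),(7,1),(4,4),(0,0),
  (16,3),(1,1)]⟩ ⟨0,[(4,0)]⟩),.k,(.r (-1) ⟨7,[(13,3),(4,4),(0,0),(8,3),(7,3),(1,1)]⟩ ⟨6,[(0,0),(3,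
  5),(0,0),(5,2),(24,0)]⟩),.k,⟨false,1,⟨1,[(18,0),(9,1),(8,0)]⟩,⟨6,[(0,2),(3,3),(0,2),(5,1),(24,
  2)]⟩⟩,⟨true,0,⟨1,[(17,0),(2,0),(7,1)]⟩,⟨0,[(21,0),(1,0)]⟩⟩,⟨false,0,⟨0,[]⟩,⟨3,[(18,0),(0,0),(18,
  1)]⟩⟩,⟨false,0,⟨0,[(3,0)]⟩,⟨0,[(2,0),(9,0),(23,0)]⟩⟩,⟨true,0,⟨0,[(35,0)]⟩,⟨0,[(36,0)]⟩⟩,⟨false,0,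
  ⟨11,[(0,1),(2,9),(5,3),(1,1),(2,3),(2,0),(2,0),(13,1)]⟩,⟨0,[(2,0),(9,0),(23,1)]⟩⟩,[.o ⟨false,0,⟨0,
  [(24,0)]⟩,⟨0,[(22,0),(15,0)]⟩⟩,.a ⟨true,0,⟨1,[(17,0),(11,0),(0,0)]⟩,⟨0,[(12,0),(23,0)]⟩⟩ ⟨false,1,
  ⟨1,[(18,0),(18,0)]⟩,⟨9,[(0,3),(0,1),(2,3),(0,0),(7,0),(7,1),(2,1)]⟩⟩ ⟨true,0,⟨1,[(17,0),(2,0)]⟩,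
  ⟨0,[(21,0),(1,0),(4,0)]⟩⟩,.e ⟨false,1,⟨3,[(18,2),(0,0)]⟩,⟨0,[(0,0)]⟩⟩ ⟨false,0,⟨1,[(17,0),(2,0)]⟩,
  ⟨0,[(0,0),(1,0),(22,0)]⟩⟩,.o ⟨false,0,⟨0,[(14,0),(6,0),(1,0)]⟩,⟨7,[(18,0),(0,0),(0,3),(10,1),(5,
  3)]⟩⟩]⟩) (.I [0,0,-1,-1,0,0,0,0,1] (.K ⟨2,[0,0,0,1],0,0,(⟨0,[(22,0)]⟩,⟨1,[(21,0),(8,0),(0,0)]⟩),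
  .k,(.r 0 ⟨0,[(0,0)]⟩ ⟨0,[(5,0),(13,0)]⟩),(.r 0 ⟨0,[(5,0)]⟩ ⟨7,[(6,1),(7,1),(4,4),(0,0),(16,3),(1,
  1)]⟩),.k,.k,[⟨8,[(0,1),(1,5),(1,0),(5,3),(4,1),(5,0),(2,1)]⟩,⟨0,[(1,0),(20,0)]⟩,⟨1,[(22,1),(4,0),
  (0,0)]⟩,⟨1,[(21,0),(2,0),(2,0)]⟩]⟩) (.I [0,0,0,0,0,0,0,0,1] (.Q [0,0,0,1,0,0,1,1,1,1,-1,-1] (.p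
  false [0,0,1] [1,0,0,-1] (⟨0,[(32,0)]⟩,⟨0,[(31,0)]⟩) .k 2 (⟨1,[(22,0),(8,0),(0,0)]⟩,⟨0,[(23,0)]⟩)
  .k (.x 0 ⟨0,[(16,0),(15,0)]⟩ ⟨3,[(20,0),(0,0),(3,3),(5,3),(7,1)]⟩)) (.R ⟨1,false,false,false,[1,0,
  0,-1],[0,0,1],[1,1,0,0,0,0,0,0,-1],(⟨1,[(23,0),(8,0),(0,0)]⟩,⟨0,[(24,0)]⟩),(⟨0,[(33,0)]⟩,⟨0,[(32,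
  0)]⟩),⟨5,[(9,0),(3,0),(9,2),(11,1)]⟩,.k,.k,(.r (-1) ⟨7,[(8,1),(7,1),(4,4),(0,0),(16,3),(1,1)]⟩ ⟨0,
  [(7,0)]⟩),.k,(.r (-1) ⟨7,[(16,3),(4,4),(0,0),(8,3),(7,3),(1,1)]⟩ ⟨1,[(1,0),(5,0),(6,0)]⟩),.k,
  ⟨false,0,⟨0,[(2,0),(13,0)]⟩,⟨4,[(1,0),(6,0),(5,1),(7,1),(16,0),(1,2)]⟩⟩,⟨true,0,⟨1,[(20,0),(2,0),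
  (7,1)]⟩,⟨0,[(24,0),(1,0)]⟩⟩,⟨false,0,⟨0,[]⟩,⟨3,[(21,0),(0,0),(18,1)]⟩⟩,⟨true,0,⟨0,[(6,0)]⟩,⟨0,[(2,
  0),(13,0),(7,0),(1,0)]⟩⟩,⟨true,0,⟨0,[(38,0)]⟩,⟨0,[(39,0)]⟩⟩,⟨true,0,⟨0,[(0,0)]⟩,⟨0,[(2,0),(13,0),
  (7,0),(1,0),(12,0)]⟩⟩,[.a ⟨true,0,⟨1,[(20,0),(11,0),(0,0)]⟩,⟨0,[(15,0),(23,0)]⟩⟩ ⟨false,0,⟨1,[(2,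
  1),(5,0),(7,0)]⟩,⟨1,[(22,0),(18,0)]⟩⟩ ⟨true,0,⟨1,[(20,0),(2,0)]⟩,⟨0,[(24,0),(1,0),(4,0)]⟩⟩,.o
  ⟨false,1,⟨7,[(20,3),(0,0),(0,0),(11,1),(6,3)]⟩,⟨0,[(25,0)]⟩⟩,.e ⟨true,0,⟨0,[(3,0)]⟩,⟨0,[(1,0)]⟩⟩
  ⟨true,0,⟨1,[(20,0),(2,0)]⟩,⟨0,[(24,0),(0,0)]⟩⟩,.o ⟨false,0,⟨0,[(17,0),(6,0),(1,0)]⟩,⟨7,[(21,0),(0,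
  0),(0,3),(10,1),(5,3)]⟩⟩]⟩) (.R ⟨1,true,false,false,[1,0,-1],[0,0,0,1],[1,1,0,0,0,0,0,-1],(⟨0,
  [(32,0)]⟩,⟨0,[(33,0)]⟩),(⟨0,[(24,0)]⟩,⟨1,[(23,0),(8,0),(0,0)]⟩),⟨0,[(18,0)]⟩,.k,.k,.k,.k,(.r (-1)
  ⟨7,[(16,3),(4,4),(0,0),(8,3),(7,3),(1,1)]⟩ ⟨1,[(1,0),(5,0),(6,0)]⟩),.k,⟨false,0,⟨0,[(2,0),(13,
  0)]⟩,⟨4,[(1,0),(6,0),(5,1),(7,1),(16,0),(1,2)]⟩⟩,⟨true,0,⟨1,[(20,0),(2,0),(7,1)]⟩,⟨0,[(24,0),(1,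
  0)]⟩⟩,⟨false,0,⟨0,[]⟩,⟨3,[(21,0),(0,0),(18,1)]⟩⟩,⟨true,0,⟨0,[(6,0)]⟩,⟨0,[(0,0),(37,0)]⟩⟩,⟨true,0,
  ⟨0,[(38,0)]⟩,⟨0,[(39,0)]⟩⟩,⟨false,1,⟨13,[(6,5),(5,1),(6,9),(2,3),(0,3),(10,2),(6,6)]⟩,⟨0,[(0,
  0)]⟩⟩,[]⟩)) (.Q [0,0,0,0,0,0,1,1,-1,0,-1,1] (.p false [0,0,1] [0,0,0,1] (⟨0,[(32,0)]⟩,⟨0,[(31,
  0)]⟩) .k 2 (⟨0,[(23,0)]⟩,⟨1,[(22,0),(8,0),(0,0)]⟩) .k (.x 0 ⟨0,[(16,0),(15,0)]⟩ ⟨3,[(20,0),(0,0),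
  (3,3),(5,3),(7,1)]⟩)) (.R ⟨1,true,false,true,[1,0,-1],[1,0,0,-1],[0,0,0,-1,0,0,0,-1],(⟨0,[(32,
  0)]⟩,⟨0,[(33,0)]⟩),(⟨1,[(23,0),(8,0),(0,0)]⟩,⟨0,[(24,0)]⟩),⟨0,[(18,0)]⟩,.k,.k,.k,.k,(.r (-1) ⟨7,
  [(16,3),(4,0),(0,4),(8,3),(7,3),(1,1)]⟩ ⟨0,[(1,0),(10,0),(1,0),(2,0),(21,1)]⟩),.k,⟨false,1,⟨3,[(4,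
  1),(11,1),(0,1),(4,0),(1,1),(16,2)]⟩,⟨1,[(1,0),(1,0),(10,0),(22,0)]⟩⟩,⟨true,0,⟨0,[(17,0),(6,0)]⟩,
  ⟨1,[(23,0),(2,0),(3,0)]⟩⟩,⟨true,0,⟨0,[(39,0)]⟩,⟨0,[(38,0)]⟩⟩,⟨false,0,⟨0,[(0,0)]⟩,⟨23,[(4,15),(7,
  7),(8,2),(0,6),(0,3),(10,1),(6,11)]⟩⟩,⟨false,1,⟨3,[(21,0),(0,0),(18,1)]⟩,⟨0,[]⟩⟩,⟨true,0,⟨0,[(0,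
  0),(37,0)]⟩,⟨0,[(4,0)]⟩⟩,[]⟩) (.K ⟨2,[0,0,0,1],0,0,(⟨0,[(24,0)]⟩,⟨1,[(23,0),(8,0),(0,0)]⟩),.k,(.r
  (-1) ⟨7,[(8,1),(7,1),(4,0),(0,4),(16,3),(1,1)]⟩ ⟨0,[(1,0),(10,1),(1,0),(2,1),(21,3)]⟩),(.r 0 ⟨0,
  [(7,0)]⟩ ⟨7,[(8,1),(7,1),(4,4),(0,0),(16,3),(1,1)]⟩),.k,.k,[⟨0,[(0,0)]⟩,⟨0,[(3,0),(20,0)]⟩,⟨1,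
  [(24,1),(4,0),(0,0)]⟩,⟨1,[(23,0),(2,0),(2,0)]⟩]⟩))))) (.R ⟨1,false,false,false,[1,0,-1],[1,0,0,
  -1],[1,1,0,0,0,0,0,-1],(⟨0,[(28,0)]⟩,⟨0,[(29,0)]⟩),(⟨1,[(19,0),(8,0),(0,0)]⟩,⟨0,[(20,0)]⟩),⟨0,
  [(14,0)]⟩,.k,.k,.k,.k,(.r (-1) ⟨7,[(12,3),(4,0),(0,4),(8,3),(7,3),(1,1)]⟩ ⟨1,[(0,1),(18,0),(2,0),
  (3,0)]⟩),.k,⟨false,0,⟨0,[(3,0),(8,0)]⟩,⟨7,[(0,1),(3,1),(5,1),(6,2),(1,0),(2,0),(3,0),(8,1),(1,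
  4)]⟩⟩,⟨true,0,⟨0,[(13,0),(6,0)]⟩,⟨1,[(19,0),(2,0),(3,0)]⟩⟩,⟨false,0,⟨0,[]⟩,⟨3,[(17,0),(0,0),(18,
  1)]⟩⟩,⟨true,0,⟨0,[(0,0),(34,0)]⟩,⟨1,[(3,1),(8,1),(6,0),(2,0),(3,0)]⟩⟩,⟨true,0,⟨0,[(34,0)]⟩,⟨0,
  [(35,0)]⟩⟩,⟨true,0,⟨0,[(0,0)]⟩,⟨1,[(3,1),(8,1),(6,0),(2,0),(3,0),(8,1)]⟩⟩,[.a ⟨true,0,⟨0,[(0,0),
  (10,0),(23,1)]⟩,⟨0,[(2,0),(8,0),(23,0)]⟩⟩ ⟨false,0,⟨1,[(12,0),(14,0),(6,0)]⟩,⟨4,[(4,0),(5,1),(6,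
  0),(0,0),(16,0),(1,2)]⟩⟩ ⟨true,0,⟨0,[(0,0),(26,0),(7,0)]⟩,⟨0,[(2,0),(8,0),(10,0),(12,0)]⟩⟩,.o
  ⟨false,1,⟨0,[(1,0)]⟩,⟨0,[(2,0),(18,0)]⟩⟩,.o ⟨false,1,⟨3,[(17,0),(0,0),(3,3),(13,1)]⟩,⟨0,[(13,
  0)]⟩⟩,.o ⟨false,0,⟨0,[(22,0)]⟩,⟨0,[(25,0),(10,0)]⟩⟩]⟩))) (.K ⟨2,[1,0,0,-1],0,0,(⟨1,[(17,0),(8,0),
  (0,0)]⟩,⟨0,[(18,0)]⟩),.k,(.r (-1) ⟨7,[(2,1),(7,1),(4,4),(0,0),(16,3),(1,1)]⟩ ⟨0,[(1,0)]⟩),(.r 0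
  ⟨19,[(0,19),(5,1),(1,5),(4,9),(3,9),(5,12),(0,0)]⟩ ⟨7,[(2,1),(7,1),(4,0),(0,4),(16,3),(1,1)]⟩),.k,
  .k,[⟨0,[(0,0)]⟩,⟨3,[(1,3),(0,0),(7,0),(3,0),(2,1),(4,1),(3,0),(0,0),(5,1)]⟩,⟨1,[(17,0),(5,0),(0,
  0),(1,0),(0,0)]⟩,⟨0,[(11,0),(6,0),(1,0)]⟩]⟩)) (.Q [0,-1,0,0,0,0,-1,-1,-1,-1,1,1] (.p true [0,0,1]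
  [1,0,0,-1] (⟨0,[(26,0)]⟩,⟨0,[(25,0)]⟩) .k 2 (⟨1,[(16,0),(8,0),(0,0)]⟩,⟨0,[(17,0)]⟩) .k (.r (-1)
  ⟨9,[(1,1),(5,3),(6,1),(0,6),(16,1),(1,0)]⟩ ⟨3,[(0,3),(4,1),(16,2),(0,0),(0,1)]⟩)) (.R ⟨1,false,
  false,true,[1,0,0,-1],[0,0,1],[1,1,0,0,0,0,0,0,-1],(⟨1,[(17,0),(8,0),(0,0)]⟩,⟨0,[(18,0)]⟩),(⟨0,
  [(27,0)]⟩,⟨0,[(26,0)]⟩),⟨5,[(3,0),(3,0),(9,2),(11,1)]⟩,.k,.k,(.r 0 ⟨1,[(0,1),(1,1),(3,5),(1,1),(2,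
  5),(2,0),(2,0),(15,13)]⟩ ⟨19,[(6,7),(1,3),(6,4),(0,14),(6,11),(0,3)]⟩),.k,(.r 0 ⟨0,[(1,0),(23,
  0)]⟩ ⟨19,[(6,3),(1,11),(6,4),(0,14),(6,5),(0,1)]⟩),.k,⟨false,0,⟨1,[(1,1),(4,0),(4,0),(13,0)]⟩,⟨9,
  [(2,1),(5,3),(6,1),(0,6),(16,1),(1,0)]⟩⟩,⟨true,0,⟨1,[(14,0),(2,0),(7,1)]⟩,⟨0,[(18,0),(1,0)]⟩⟩,
  ⟨false,0,⟨0,[]⟩,⟨3,[(15,0),(0,0),(18,1)]⟩⟩,⟨false,1,⟨3,[(14,1),(0,0),(0,2),(0,1)]⟩,⟨0,[(0,0)]⟩⟩,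
  ⟨true,0,⟨0,[(32,0)]⟩,⟨0,[(33,0)]⟩⟩,⟨false,1,⟨7,[(13,7),(1,0),(0,4),(0,3),(10,1)]⟩,⟨0,[(0,0),(32,
  0)]⟩⟩,[.o ⟨false,0,⟨0,[(21,0)]⟩,⟨0,[(19,0),(15,0)]⟩⟩,.a ⟨true,0,⟨1,[(14,0),(11,0),(0,0)]⟩,⟨0,[(9,
  0),(23,0)]⟩⟩ ⟨false,0,⟨3,[(0,1),(0,1),(12,0),(2,0),(13,1)]⟩,⟨3,[(15,0),(0,2)]⟩⟩ ⟨true,0,⟨1,[(14,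
  0),(2,0)]⟩,⟨0,[(18,0),(1,0),(4,0)]⟩⟩,.e ⟨false,0,⟨10,[(0,3),(0,6),(6,0),(4,1),(3,1),(5,3),(0,1),
  (7,3)]⟩,⟨1,[(16,0),(18,0)]⟩⟩ ⟨false,0,⟨1,[(14,0),(2,0)]⟩,⟨3,[(0,3),(14,0),(0,2)]⟩⟩,.o ⟨false,0,⟨0,
  [(11,0),(6,0),(1,0)]⟩,⟨7,[(15,0),(0,0),(0,3),(10,1),(5,3)]⟩⟩]⟩) (.K ⟨2,[1,0,0,-1],0,0,(⟨1,[(17,0),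
  (8,0),(0,0)]⟩,⟨0,[(18,0)]⟩),.k,(.x 0 ⟨3,[(3,0),(3,0),(12,0),(2,1),(0,0)]⟩ ⟨3,[(15,0),(0,0),(13,3),
  (3,1)]⟩),(.r 0 ⟨4,[(1,4),(4,3),(1,1),(14,5),(0,1)]⟩ ⟨7,[(2,1),(7,1),(4,0),(0,4),(16,3),(1,1)]⟩),
  .k,.k,[⟨1,[(1,1),(4,0),(4,0),(6,1),(1,1),(4,0)]⟩,⟨0,[(0,0),(8,0),(23,0)]⟩,⟨1,[(17,0),(5,0),(0,0),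
  (1,0),(0,0)]⟩,⟨0,[(11,0),(6,0),(1,0)]⟩]⟩)))) (.R ⟨0,false,false,false,[0,-1,1],[1,-1],[1],(⟨0,[(1,
  0)]⟩,⟨1,[(0,0),(22,1),(0,0)]⟩),(⟨0,[(26,0)]⟩,⟨0,[(27,0)]⟩),⟨0,[(0,0)]⟩,.k,.k,(.r (-1) ⟨15,[(2,19),
  (2,7),(6,2),(0,2),(16,19),(1,9)]⟩ ⟨1,[(3,1),(16,2),(0,0)]⟩),.k,.k,.k,⟨true,0,⟨4,[(3,1),(1,0),(14,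
  2),(0,0)]⟩,⟨0,[(30,0)]⟩⟩,⟨false,1,⟨0,[(17,0),(13,0)]⟩,⟨1,[(11,0),(10,1),(0,0),(0,0)]⟩⟩,⟨true,0,⟨3,
  [(3,1),(16,2),(0,0),(0,1)]⟩,⟨4,[(2,3),(2,1),(12,0),(2,0),(8,2)]⟩⟩,⟨false,1,⟨0,[(16,0),(15,0)]⟩,⟨1,
  [(11,0),(11,0),(0,0)]⟩⟩,⟨false,0,⟨0,[]⟩,⟨0,[]⟩⟩,⟨false,0,⟨0,[]⟩,⟨0,[]⟩⟩,[.a ⟨true,0,⟨0,[(30,0)]⟩,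
  ⟨2,[(3,0),(6,0),(12,1),(0,1)]⟩⟩ ⟨true,0,⟨0,[]⟩,⟨1,[(20,0),(0,0)]⟩⟩ ⟨false,1,⟨1,[(2,1),(14,1),(13,
  0),(0,0)]⟩,⟨2,[(3,0),(6,0),(9,2),(2,1),(0,1)]⟩⟩,.o ⟨false,1,⟨1,[(25,0),(4,1),(1,0)]⟩,⟨0,[(29,
  0)]⟩⟩,.o ⟨false,0,⟨0,[(20,0)]⟩,⟨0,[(17,0),(13,0)]⟩⟩,.o ⟨false,0,⟨1,[(20,2),(0,0)]⟩,⟨7,[(2,9),(0,
  3),(1,1),(11,3),(7,1),(5,0),(0,4)]⟩⟩]⟩))))))))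

theorem ok2 : chk (cU (-1) false 3) t2 l3 = true := by decide +kernel

noncomputable def t3 : Tre :=
  (.Q [0,0,0,0,0,1,0,0,0,0,-1] (.ed true [1,-1,1] .k) (.Q [0,0,0,1,0,0,0,0,0,1] (.pp false [-1,1])
  (.R ⟨0,false,false,false,[0,0,1],[1,-1],[1,0,0,-1],(⟨0,[(19,0)]⟩,⟨0,[(18,0)]⟩),(⟨0,[(21,0)]⟩,⟨0,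
  [(22,0)]⟩),⟨0,[(1,0)]⟩,.k,.k,.k,.k,.k,.k,⟨false,0,⟨0,[]⟩,⟨3,[(7,0),(0,0),(17,1)]⟩⟩,⟨true,0,⟨0,
  [(12,0)]⟩,⟨1,[(6,0),(10,1),(0,0),(0,0)]⟩⟩,⟨true,0,⟨0,[(17,0),(7,0)]⟩,⟨1,[(6,0),(5,0),(3,0),(6,
  1)]⟩⟩,⟨false,1,⟨0,[(11,0),(13,0),(1,0)]⟩,⟨0,[(5,0)]⟩⟩,⟨false,0,⟨0,[]⟩,⟨0,[]⟩⟩,⟨false,0,⟨0,[]⟩,⟨0,
  []⟩⟩,[.a ⟨true,0,⟨0,[(25,0)]⟩,⟨0,[(0,0)]⟩⟩ ⟨true,0,⟨0,[(25,0)]⟩,⟨1,[(2,0),(14,0),(6,0)]⟩⟩ ⟨false,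
  1,⟨0,[(12,0),(12,0),(0,0)]⟩,⟨0,[(5,0),(11,0)]⟩⟩,.o ⟨false,1,⟨1,[(20,0),(4,1),(1,0)]⟩,⟨0,[(24,
  0)]⟩⟩,.o ⟨false,0,⟨0,[(3,0)]⟩,⟨3,[(7,0),(0,0),(3,3),(13,1)]⟩⟩,.o ⟨false,0,⟨0,[(15,0)]⟩,⟨0,[(12,0),
  (13,0)]⟩⟩]⟩) (.Q [0,0,0,-2,0,0,-1,-1,0,-1,1] (.p true [0,0,1] [1] (⟨0,[(19,0)]⟩,⟨0,[(18,0)]⟩) .k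
  1 (⟨0,[]⟩,⟨0,[]⟩) .k .k) (.R ⟨1,true,false,false,[1,0,-1],[0,1],[1,1,0,0,0,0,0,-1],(⟨0,[(19,0)]⟩,
  ⟨0,[(20,0)]⟩),(⟨0,[(23,0)]⟩,⟨0,[(22,0)]⟩),⟨0,[(5,0)]⟩,.k,.k,.k,.k,(.r (-1) ⟨0,[(18,0),(7,1),(0,
  0)]⟩ ⟨0,[(3,0),(21,0)]⟩),.k,⟨true,0,⟨0,[(18,0),(5,0),(1,1)]⟩,⟨0,[(3,0)]⟩⟩,⟨false,1,⟨1,[(7,0),(10,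
  1),(0,0),(0,0),(6,1)]⟩,⟨0,[(13,0)]⟩⟩,⟨false,0,⟨0,[]⟩,⟨3,[(8,0),(0,0),(18,1)]⟩⟩,⟨true,0,⟨0,[(6,
  0)]⟩,⟨1,[(0,0),(11,0),(17,0)]⟩⟩,⟨true,0,⟨0,[(25,0)]⟩,⟨0,[(26,0)]⟩⟩,⟨false,1,⟨0,[(6,0),(18,0),(2,
  0)]⟩,⟨0,[(0,0)]⟩⟩,[]⟩) (.I [1,1,0,0,0,0,0,0,1] (.I [1,0,-1,0,0,0,0,0,-1] (.K ⟨2,[1,0,0,-1],0,0,
  (⟨1,[(12,0),(8,0),(0,0)]⟩,⟨0,[(13,0)]⟩),.k,(.r 0 ⟨0,[(0,0),(27,0)]⟩ ⟨3,[(5,1),(4,0),(0,2),(8,1),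
  (6,1)]⟩),(.r 0 ⟨3,[(0,3),(4,2),(11,1),(0,1),(1,0),(6,0)]⟩ ⟨1,[(11,0),(16,1),(0,0)]⟩),.k,.k,[⟨0,
  [(0,0),(12,0),(1,0),(4,0)]⟩,⟨1,[(1,1),(10,0),(8,0),(0,0)]⟩,⟨1,[(12,0),(5,0),(0,0),(1,0),(0,0)]⟩,
  ⟨0,[(6,0),(6,0),(1,0)]⟩]⟩) (.Q [0,0,0,-1,0,0,0,0,-1,-1,0,1] (.p true [0,0,0,1] [1] (⟨0,[(13,0)]⟩,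
  ⟨1,[(12,0),(8,0),(0,0)]⟩) .k 1 (⟨0,[]⟩,⟨0,[]⟩) .k .k) (.I [0,0,0,0,0,0,0,0,-1] (.Q [0,0,0,0,0,1,0,
  0,0,0,0,-1] (.p false [0,0,0,1] [] (⟨0,[(15,0)]⟩,⟨1,[(14,0),(8,0),(0,0)]⟩) .k 0 (⟨0,[]⟩,⟨0,[]⟩)
  .k .k) (.R ⟨0,false,false,false,[0,0,0,1],[1,-1],[1,1],(⟨0,[(16,0)]⟩,⟨1,[(15,0),(8,0),(0,0)]⟩),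
  (⟨0,[(27,0)]⟩,⟨0,[(28,0)]⟩),⟨0,[(0,0)]⟩,.k,.k,(.r (-1) ⟨1,[(14,0),(16,1),(0,0)]⟩ ⟨1,[(1,1),(6,0),
  (14,0),(6,0)]⟩),(.x (-1) ⟨3,[(13,0),(0,0),(13,3),(3,1)]⟩ ⟨0,[(9,0),(8,0),(8,0)]⟩),.k,.k,⟨false,0,
  ⟨0,[(30,0)]⟩,⟨1,[(31,1),(0,0),(0,0)]⟩⟩,⟨true,0,⟨0,[(9,0),(6,0),(1,0)]⟩,⟨1,[(15,0),(8,0),(0,0)]⟩⟩,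
  ⟨false,0,⟨0,[(1,0)]⟩,⟨1,[(14,0),(18,0)]⟩⟩,⟨true,0,⟨0,[(2,0)]⟩,⟨1,[(3,1),(11,0),(8,0),(0,0),(3,
  1)]⟩⟩,⟨false,0,⟨0,[]⟩,⟨0,[]⟩⟩,⟨false,0,⟨0,[]⟩,⟨0,[]⟩⟩,[.o ⟨false,0,⟨0,[(6,0)]⟩,⟨3,[(5,1),(7,0),(0,
  0),(5,1),(5,0),(6,0)]⟩⟩,.o ⟨false,1,⟨3,[(6,3),(6,0),(0,0),(18,1)]⟩,⟨0,[(30,0)]⟩⟩,.a ⟨true,0,⟨1,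
  [(15,0),(8,0),(0,0)]⟩,⟨0,[(16,0)]⟩⟩ ⟨false,0,⟨0,[]⟩,⟨3,[(13,0),(0,0),(18,1)]⟩⟩ ⟨true,0,⟨0,[(6,0),
  (9,0)]⟩,⟨1,[(5,0),(9,0),(4,0),(14,0)]⟩⟩,.o ⟨false,0,⟨1,[(15,0),(2,0),(2,0)]⟩,⟨1,[(16,1),(9,0),(5,
  0)]⟩⟩]⟩) (.Q [0,0,0,0,0,0,-1,-1,-1,-1,1,1] (.p true [0,0,1] [1,0,0,-1] (⟨0,[(25,0)]⟩,⟨0,[(24,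
  0)]⟩) .k 2 (⟨1,[(15,0),(8,0),(0,0)]⟩,⟨0,[(16,0)]⟩) .k (.r (-1) ⟨1,[(12,0),(1,0),(3,0),(3,0),(9,
  0)]⟩ ⟨0,[(1,0),(21,0)]⟩)) (.K ⟨2,[1,0,0,-1],0,0,(⟨1,[(16,0),(8,0),(0,0)]⟩,⟨0,[(17,0)]⟩),.k,(.x 0
  ⟨1,[(1,1),(14,0),(2,0),(2,0)]⟩ ⟨3,[(14,0),(0,0),(13,3),(3,1)]⟩),(.r 0 ⟨8,[(0,3),(1,4),(3,1),(2,2),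
  (6,1),(4,0),(0,2),(8,1)]⟩ ⟨1,[(15,0),(16,1),(0,0)]⟩),.k,.k,[⟨0,[(0,0)]⟩,⟨1,[(5,1),(10,0),(8,0),(0,
  0)]⟩,⟨1,[(16,0),(5,0),(0,0),(1,0),(0,0)]⟩,⟨2,[(0,0),(3,0),(1,0),(0,1),(9,1),(1,0),(2,0)]⟩]⟩) (.Q
  [0,0,0,1,0,0,1,1,1,1,-1,-1] (.p false [0,0,1] [1,0,0,-1] (⟨0,[(26,0)]⟩,⟨0,[(25,0)]⟩) .k 2 (⟨1,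
  [(16,0),(8,0),(0,0)]⟩,⟨0,[(17,0)]⟩) .k (.r (-1) ⟨1,[(13,0),(1,0),(3,0),(3,0),(9,0)]⟩ ⟨0,[(2,0),
  (21,0)]⟩)) (.R ⟨1,false,false,false,[0,0,0,1],[1,-1,-1],[1,1,0,0,0,0,0,0,1],(⟨0,[(18,0)]⟩,⟨1,[(17,
  0),(8,0),(0,0)]⟩),(⟨0,[(12,0)]⟩,⟨0,[(27,0),(2,0)]⟩),⟨0,[(2,0)]⟩,.k,.k,(.r (-1) ⟨1,[(16,0),(16,1),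
  (0,0)]⟩ ⟨1,[(3,1),(6,0),(14,0),(6,0)]⟩),(.r 0 ⟨0,[(0,0),(17,0),(1,0)]⟩ ⟨1,[(15,0),(9,1),(7,1),(0,
  0)]⟩),.k,.k,⟨false,0,⟨0,[(1,0),(16,0),(1,0),(10,0)]⟩,⟨1,[(3,1),(21,1),(7,1),(0,0),(0,0)]⟩⟩,⟨true,
  0,⟨0,[(18,0),(1,0)]⟩,⟨1,[(14,0),(2,0),(7,1)]⟩⟩,⟨false,0,⟨0,[]⟩,⟨3,[(15,0),(0,0),(18,1)]⟩⟩,⟨false,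
  1,⟨0,[(4,0),(17,0),(12,0)]⟩,⟨0,[(0,0)]⟩⟩,⟨true,0,⟨0,[(32,0)]⟩,⟨0,[(33,0)]⟩⟩,⟨false,1,⟨0,[(3,0),
  (14,0),(0,0),(15,0)]⟩,⟨0,[(1,0)]⟩⟩,[.o ⟨false,1,⟨3,[(8,3),(6,0),(0,0),(5,3),(12,1)]⟩,⟨0,[(7,0),(0,
  0)]⟩⟩,.o ⟨false,1,⟨0,[(8,0),(13,0),(12,0)]⟩,⟨1,[(7,0),(0,0),(12,0),(10,0)]⟩⟩,.a ⟨true,0,⟨1,[(17,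
  0),(8,0),(0,0)]⟩,⟨0,[(18,0)]⟩⟩ ⟨true,0,⟨0,[(6,0)]⟩,⟨0,[(3,0)]⟩⟩ ⟨false,1,⟨0,[(8,0),(9,0),(3,0),
  (12,0)]⟩,⟨5,[(7,3),(0,1),(5,0),(2,2)]⟩⟩,.o ⟨false,0,⟨1,[(17,0),(2,0),(2,0)]⟩,⟨1,[(18,1),(9,0),(5,
  0)]⟩⟩]⟩) (.R ⟨1,true,false,false,[1,0,-1],[0,0,0,1],[1,1,0,0,0,0,0,-1],(⟨0,[(26,0)]⟩,⟨0,[(27,
  0)]⟩),(⟨0,[(18,0)]⟩,⟨1,[(17,0),(8,0),(0,0)]⟩),⟨0,[(12,0)]⟩,.k,.k,.k,.k,(.x 0 ⟨0,[(12,0),(7,0)]⟩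
  ⟨0,[(23,0),(3,0),(2,0),(3,0)]⟩),.k,⟨false,0,⟨1,[(0,1),(13,0),(2,0),(7,1),(5,1)]⟩,⟨1,[(1,1),(16,1),
  (1,1),(13,0),(0,0)]⟩⟩,⟨true,0,⟨1,[(14,0),(2,0),(7,1)]⟩,⟨0,[(18,0),(1,0)]⟩⟩,⟨false,0,⟨0,[]⟩,⟨3,
  [(15,0),(0,0),(18,1)]⟩⟩,⟨true,0,⟨0,[(1,0)]⟩,⟨0,[(0,0),(31,0)]⟩⟩,⟨true,0,⟨0,[(32,0)]⟩,⟨0,[(33,
  0)]⟩⟩,⟨false,1,⟨7,[(1,1),(5,3),(6,0),(1,2),(0,2),(10,0),(6,3)]⟩,⟨0,[(0,0)]⟩⟩,[]⟩)))) (.R ⟨2,true,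
  false,false,[0,1],[1,0,0,-1],[0,1,1],(⟨0,[]⟩,⟨0,[]⟩),(⟨1,[(14,0),(8,0),(0,0)]⟩,⟨0,[(15,0)]⟩),⟨0,
  []⟩,.k,.k,.k,(.r 0 ⟨2,[(0,1),(1,0),(1,0),(2,0),(8,0),(5,0)]⟩ ⟨1,[(12,0),(17,1),(0,0)]⟩),.k,.k,
  ⟨false,0,⟨0,[(0,0),(4,2),(1,0),(1,2),(12,0),(1,2),(2,2),(0,1)]⟩,⟨1,[(1,1),(12,0),(8,0),(0,0),(3,
  1),(3,1)]⟩⟩,⟨true,0,⟨0,[(8,0),(6,0),(1,0)]⟩,⟨1,[(14,0),(8,0),(0,0)]⟩⟩,⟨false,0,⟨0,[(30,0)]⟩,⟨3,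
  [(4,1),(14,1),(5,0),(6,2)]⟩⟩,⟨true,0,⟨0,[(1,0)]⟩,⟨1,[(0,0),(2,0),(0,0),(9,0),(4,0)]⟩⟩,⟨true,0,⟨0,
  [(34,0)]⟩,⟨0,[]⟩⟩,⟨false,1,⟨5,[(1,3),(2,1),(7,0),(2,1),(0,1),(8,0),(6,3)]⟩,⟨1,[(0,1),(13,0),(8,0),
  (0,0)]⟩⟩,[]⟩)) (.I [0,0,-1,-1,0,0,0,0,1] (.Q [0,1,0,0,0,0,0,0,-1,0,0,1] (.p true [0,0,0,1] [] (⟨0,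
  [(15,0)]⟩,⟨1,[(14,0),(8,0),(0,0)]⟩) .k 0 (⟨0,[]⟩,⟨0,[]⟩) .k .k) (.Q [0,0,0,0,0,0,-1,-1,1,0,1,-1]
  (.p true [0,0,1] [0,0,0,1] (⟨0,[(25,0)]⟩,⟨0,[(24,0)]⟩) .k 2 (⟨0,[(16,0)]⟩,⟨1,[(15,0),(8,0),(0,
  0)]⟩) .k (.r (-1) ⟨1,[(12,0),(0,0),(4,0),(3,0),(9,0)]⟩ ⟨2,[(1,1),(1,0),(1,0),(12,0),(4,3)]⟩)) (.K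
  ⟨2,[0,0,0,1],0,0,(⟨0,[(17,0)]⟩,⟨1,[(16,0),(8,0),(0,0)]⟩),.k,(.r 0 ⟨0,[(2,0)]⟩ ⟨3,[(9,1),(4,2),(0,
  0),(8,1),(6,1)]⟩),(.r 0 ⟨2,[(2,0),(1,1),(1,1),(12,1),(4,1)]⟩ ⟨0,[(2,0),(11,0)]⟩),.k,.k,[⟨0,[(0,
  0)]⟩,⟨0,[(1,0)]⟩,⟨1,[(17,1),(4,0),(0,0)]⟩,⟨1,[(16,0),(2,0),(2,0)]⟩]⟩) (.R ⟨1,true,false,false,[1,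
  0,-1],[1,0,0,-1],[1,1,0,0,0,0,0,-1],(⟨0,[(25,0)]⟩,⟨0,[(26,0)]⟩),(⟨1,[(16,0),(8,0),(0,0)]⟩,⟨0,[(17,
  0)]⟩),⟨0,[(11,0)]⟩,.k,.k,.k,.k,(.r 0 ⟨0,[(2,0),(21,0)]⟩ ⟨5,[(6,1),(2,1),(4,3),(0,0),(3,1),(0,1),
  (2,1),(9,0)]⟩),.k,⟨false,0,⟨1,[(2,0),(2,0),(18,1),(5,0)]⟩,⟨1,[(0,1),(15,0),(2,0),(3,0),(9,0),(0,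
  0)]⟩⟩,⟨true,0,⟨0,[(10,0),(6,0)]⟩,⟨1,[(16,0),(2,0),(3,0)]⟩⟩,⟨false,0,⟨0,[]⟩,⟨3,[(14,0),(0,0),(18,
  1)]⟩⟩,⟨true,0,⟨0,[(0,0)]⟩,⟨2,[(2,0),(0,0),(0,0),(11,0),(1,1),(2,0)]⟩⟩,⟨true,0,⟨0,[(31,0)]⟩,⟨0,
  [(32,0)]⟩⟩,⟨false,1,⟨3,[(0,1),(0,1),(4,1),(20,0),(6,2)]⟩,⟨1,[(2,1),(13,0),(2,0),(3,0),(0,1)]⟩⟩,
  []⟩)) (.Q [0,0,0,0,0,1,0,0,0,0,0,-1] (.p false [0,0,0,1] [] (⟨0,[(16,0)]⟩,⟨1,[(15,0),(8,0),(0,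
  0)]⟩) .k 0 (⟨0,[]⟩,⟨0,[]⟩) .k .k) (.R ⟨0,false,false,false,[0,0,0,1],[1,-1],[1,0,0,0,0,0,0,0,1],
  (⟨0,[(17,0)]⟩,⟨1,[(16,0),(8,0),(0,0)]⟩),(⟨0,[(28,0)]⟩,⟨0,[(29,0)]⟩),⟨0,[(0,0)]⟩,.k,.k,(.r 0 ⟨0,
  [(2,0)]⟩ ⟨3,[(9,1),(4,2),(0,0),(8,1),(6,1)]⟩),(.r 0 ⟨6,[(1,1),(2,4),(1,2),(2,0),(7,1),(0,2),(5,
  0)]⟩ ⟨0,[(2,0),(11,0)]⟩),.k,.k,⟨false,0,⟨2,[(1,1),(2,0),(1,0),(10,1),(0,0),(11,0)]⟩,⟨0,[(2,0),(11,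
  0)]⟩⟩,⟨true,0,⟨0,[(10,0),(6,0),(1,0)]⟩,⟨1,[(16,0),(8,0),(0,0)]⟩⟩,⟨true,0,⟨0,[]⟩,⟨0,[(36,0)]⟩⟩,
  ⟨false,1,⟨1,[(7,1),(6,0),(2,1),(16,0)]⟩,⟨0,[(3,0)]⟩⟩,⟨false,0,⟨0,[]⟩,⟨0,[]⟩⟩,⟨false,0,⟨0,[]⟩,⟨0,
  []⟩⟩,[.o ⟨false,0,⟨0,[(7,0)]⟩,⟨3,[(6,1),(7,0),(0,0),(5,1),(5,0),(6,0)]⟩⟩,.o ⟨false,1,⟨3,[(7,3),(6,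
  0),(0,0),(18,1)]⟩,⟨0,[(31,0)]⟩⟩,.a ⟨true,0,⟨1,[(16,0),(8,0),(0,0)]⟩,⟨0,[(17,0)]⟩⟩ ⟨false,0,⟨0,[(1,
  0),(15,0)]⟩,⟨3,[(14,2),(0,0)]⟩⟩ ⟨true,0,⟨0,[(7,0),(9,0)]⟩,⟨1,[(6,0),(9,0),(4,0),(14,0)]⟩⟩,.o
  ⟨false,0,⟨1,[(16,0),(2,0),(2,0)]⟩,⟨1,[(17,1),(9,0),(5,0)]⟩⟩]⟩) (.R ⟨1,false,false,false,[1,0,0,
  -1],[1,-1],[1,0,0,0,0,0,0,0,-1],(⟨1,[(16,0),(8,0),(0,0)]⟩,⟨0,[(17,0)]⟩),(⟨0,[(28,0)]⟩,⟨0,[(29,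
  0)]⟩),⟨0,[(0,0),(15,0)]⟩,.k,.k,(.r (-1) ⟨0,[(2,0),(11,0)]⟩ ⟨6,[(1,1),(2,4),(1,2),(2,0),(7,1),(0,
  2),(5,0)]⟩),(.r (-1) ⟨3,[(9,1),(4,2),(0,0),(8,1),(6,1)]⟩ ⟨0,[(2,0)]⟩),.k,.k,⟨false,1,⟨3,[(6,1),(7,
  1),(6,1),(5,0),(6,0)]⟩,⟨0,[(2,0)]⟩⟩,⟨true,0,⟨1,[(16,0),(2,0),(2,0)]⟩,⟨0,[(17,0)]⟩⟩,⟨true,0,⟨0,[]⟩,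
  ⟨0,[(36,0)]⟩⟩,⟨false,0,⟨0,[(1,0),(30,0)]⟩,⟨3,[(6,1),(7,1),(2,3),(3,1),(5,0),(6,0)]⟩⟩,⟨false,1,⟨3,
  [(6,1),(14,1),(5,0),(6,2)]⟩,⟨0,[(32,0)]⟩⟩,⟨false,0,⟨0,[(1,0)]⟩,⟨3,[(14,2),(0,0),(1,3)]⟩⟩,[.o
  ⟨false,0,⟨0,[(7,0)]⟩,⟨3,[(6,1),(7,0),(0,0),(5,1),(5,0),(6,0)]⟩⟩,.o ⟨false,1,⟨3,[(7,3),(6,0),(0,0),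
  (18,1)]⟩,⟨0,[(31,0)]⟩⟩,.a ⟨true,0,⟨0,[(17,0)]⟩,⟨1,[(16,0),(8,0),(0,0)]⟩⟩ ⟨false,1,⟨1,[(14,0),(19,
  0)]⟩,⟨3,[(1,0),(0,0),(1,1),(12,0),(12,0)]⟩⟩ ⟨true,0,⟨1,[(7,0),(8,0),(15,0)]⟩,⟨0,[(17,0),(13,0)]⟩⟩,
  .o ⟨false,0,⟨0,[(10,0),(6,0),(1,0)]⟩,⟨7,[(14,0),(0,0),(0,3),(10,1),(5,3)]⟩⟩]⟩))) (.Q [0,0,0,-1,0,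
  0,-1,-1,1,0,1,-1] (.p true [0,0,1] [0,0,0,1] (⟨0,[(24,0)]⟩,⟨0,[(23,0)]⟩) .k 2 (⟨0,[(15,0)]⟩,⟨1,
  [(14,0),(8,0),(0,0)]⟩) .k (.r (-1) ⟨1,[(11,0),(0,0),(4,0),(3,0),(9,0)]⟩ ⟨0,[(1,0),(3,0),(9,0),(6,
  0)]⟩)) (.Q [0,0,0,0,0,0,-1,-1,1,0,1,-1] (.p true [0,0,1] [0,0,0,1] (⟨0,[(25,0)]⟩,⟨0,[(24,0)]⟩) .k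
  2 (⟨0,[(16,0)]⟩,⟨1,[(15,0),(8,0),(0,0)]⟩) .k (.r (-1) ⟨1,[(12,0),(0,0),(4,0),(3,0),(9,0)]⟩ ⟨0,[(2,
  0),(3,0),(9,0),(6,0)]⟩)) (.K ⟨2,[0,0,0,1],0,0,(⟨0,[(17,0)]⟩,⟨1,[(16,0),(8,0),(0,0)]⟩),.k,(.x 0 ⟨0,
  [(10,0),(8,0),(8,0)]⟩ ⟨3,[(14,0),(0,0),(13,3),(3,1)]⟩),(.r 0 ⟨2,[(0,0),(3,1),(1,1),(0,0),(9,0),(1,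
  0),(4,0)]⟩ ⟨1,[(14,0),(17,1),(0,0)]⟩),.k,.k,[⟨0,[(0,0)]⟩,⟨0,[(2,0),(14,0),(12,0),(1,1)]⟩,⟨1,[(17,
  1),(4,0),(0,0)]⟩,⟨1,[(16,0),(2,0),(2,0)]⟩]⟩) (.R ⟨1,true,false,false,[1,0,-1],[1,0,0,-1],[1,1,0,0,
  0,0,0,-1],(⟨0,[(25,0)]⟩,⟨0,[(26,0)]⟩),(⟨1,[(16,0),(8,0),(0,0)]⟩,⟨0,[(17,0)]⟩),⟨0,[(11,0)]⟩,.k,.k,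
  .k,.k,(.x 0 ⟨0,[(11,0),(7,0)]⟩ ⟨0,[(22,0),(3,0),(2,0),(3,0)]⟩),.k,⟨false,0,⟨0,[(1,0),(8,0),(6,0),
  (12,0)]⟩,⟨1,[(0,1),(15,0),(2,0),(3,0),(9,0),(0,0)]⟩⟩,⟨true,0,⟨0,[(10,0),(6,0)]⟩,⟨1,[(16,0),(2,0),
  (3,0)]⟩⟩,⟨false,0,⟨0,[]⟩,⟨3,[(14,0),(0,0),(18,1)]⟩⟩,⟨true,0,⟨0,[(0,0)]⟩,⟨0,[(1,0),(29,0)]⟩⟩,⟨true,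
  0,⟨0,[(31,0)]⟩,⟨0,[(32,0)]⟩⟩,⟨false,1,⟨3,[(0,1),(5,1),(7,0),(2,1),(9,0),(6,1)]⟩,⟨0,[(1,0)]⟩⟩,
  []⟩)) (.Q [0,0,0,0,0,1,0,0,0,0,0,-1] (.p false [0,0,0,1] [] (⟨0,[(16,0)]⟩,⟨1,[(15,0),(8,0),(0,
  0)]⟩) .k 0 (⟨0,[]⟩,⟨0,[]⟩) .k .k) (.R ⟨0,false,false,true,[0,0,0,1],[0,1],[1,1,1,1],(⟨0,[(17,0)]⟩,
  ⟨1,[(16,0),(8,0),(0,0)]⟩),(⟨0,[(29,0)]⟩,⟨0,[(28,0)]⟩),⟨0,[(0,0)]⟩,.k,.k,(.r (-1) ⟨1,[(15,0),(16,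
  1),(0,0)]⟩ ⟨1,[(1,1),(9,0),(4,0),(2,1),(4,1),(1,0),(2,0)]⟩),(.r (-1) ⟨1,[(15,0),(16,1),(0,0)]⟩ ⟨1,
  [(1,1),(9,0),(4,0),(2,1),(4,1),(1,0),(2,0)]⟩),.k,.k,⟨true,0,⟨0,[]⟩,⟨1,[(22,0),(0,0)]⟩⟩,⟨false,1,
  ⟨0,[(17,0),(15,0)]⟩,⟨1,[(16,0),(2,0),(2,0)]⟩⟩,⟨false,0,⟨0,[(2,0)]⟩,⟨1,[(3,1),(3,1),(9,1),(14,1),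
  (0,0),(0,0)]⟩⟩,⟨true,0,⟨0,[(1,0),(19,0)]⟩,⟨0,[(3,0),(3,0),(24,0)]⟩⟩,⟨false,0,⟨0,[]⟩,⟨0,[]⟩⟩,
  ⟨false,0,⟨0,[]⟩,⟨0,[]⟩⟩,[.o ⟨false,0,⟨0,[(31,0)]⟩,⟨3,[(7,3),(6,0),(0,0),(18,1)]⟩⟩,.o ⟨false,1,⟨3,
  [(6,1),(7,0),(0,0),(5,1),(5,0),(6,0)]⟩,⟨0,[(7,0)]⟩⟩,.a ⟨true,0,⟨1,[(16,0),(8,0),(0,0)]⟩,⟨0,[(17,
  0)]⟩⟩ ⟨false,0,⟨1,[(9,0),(14,0),(6,0)]⟩,⟨1,[(32,1),(0,0),(0,0)]⟩⟩ ⟨true,0,⟨0,[(17,0),(13,0)]⟩,⟨1,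
  [(7,0),(8,0),(15,0)]⟩⟩,.o ⟨false,0,⟨1,[(16,0),(2,0),(2,0)]⟩,⟨1,[(17,1),(9,0),(5,0)]⟩⟩]⟩) (.R ⟨1,
  false,false,false,[0,0,0,1],[0,0,1],[1,1,0,0,0,0,0,0,1],(⟨0,[(17,0)]⟩,⟨1,[(16,0),(8,0),(0,0)]⟩),
  (⟨0,[(26,0)]⟩,⟨0,[(25,0)]⟩),⟨0,[(0,0)]⟩,.k,.k,(.r (-1) ⟨1,[(15,0),(16,1),(0,0)]⟩ ⟨0,[(0,0),(0,0),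
  (14,0),(2,0),(4,0),(4,0)]⟩),.k,(.r (-1) ⟨1,[(15,0),(8,1),(7,1),(0,0)]⟩ ⟨1,[(1,1),(14,0),(2,0),(3,
  0)]⟩),.k,⟨false,0,⟨0,[(3,0),(3,0),(9,0),(6,0),(5,0),(1,0)]⟩,⟨1,[(1,1),(14,0),(2,0),(3,0),(8,1),(0,
  0),(0,0)]⟩⟩,⟨true,0,⟨0,[(10,0),(6,0)]⟩,⟨1,[(16,0),(2,0),(3,0)]⟩⟩,⟨false,0,⟨0,[]⟩,⟨3,[(14,0),(0,0),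
  (18,1)]⟩⟩,⟨true,0,⟨0,[(1,0),(30,0)]⟩,⟨0,[(3,0),(3,0),(13,0)]⟩⟩,⟨true,0,⟨0,[(31,0)]⟩,⟨0,[(32,0)]⟩⟩,
  ⟨true,0,⟨0,[(1,0)]⟩,⟨0,[(3,0),(3,0),(13,0),(10,0)]⟩⟩,[.o ⟨false,0,⟨2,[(6,0),(0,1),(5,0)]⟩,⟨1,[(21,
  1),(5,0),(6,0)]⟩⟩,.o ⟨false,1,⟨7,[(13,3),(0,0),(0,0),(11,1),(6,3)]⟩,⟨0,[(18,0)]⟩⟩,.a ⟨true,0,⟨1,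
  [(16,0),(8,0),(0,0)]⟩,⟨0,[(17,0)]⟩⟩ ⟨false,0,⟨0,[(3,0),(3,0),(9,0)]⟩,⟨1,[(14,0),(19,0)]⟩⟩ ⟨true,0,
  ⟨2,[(6,0),(0,1),(5,0),(3,2)]⟩,⟨1,[(16,0),(1,0),(2,0)]⟩⟩,.o ⟨false,0,⟨1,[(16,0),(2,0),(2,0)]⟩,⟨1,
  [(17,1),(9,0),(5,0)]⟩⟩]⟩)))))) (.Q [0,0,0,0,0,1,0,0,0,0,0,-1] (.p false [0,0,0,1] [] (⟨0,[(12,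
  0)]⟩,⟨1,[(11,0),(8,0),(0,0)]⟩) .k 0 (⟨0,[]⟩,⟨0,[]⟩) .k .k) (.R ⟨0,false,false,false,[0,0,0,1],[1,
  -1],[1,0,0,0,0,0,0,0,1],(⟨0,[(13,0)]⟩,⟨1,[(12,0),(8,0),(0,0)]⟩),(⟨0,[(24,0)]⟩,⟨0,[(25,0)]⟩),⟨0,
  [(0,0)]⟩,.k,.k,(.r (-1) ⟨1,[(11,0),(16,1),(0,0)]⟩ ⟨2,[(1,2),(3,0),(11,0),(0,0),(8,1),(4,0)]⟩),(.r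
  (-1) ⟨3,[(5,1),(4,0),(0,2),(8,1),(6,1)]⟩ ⟨0,[(1,0),(24,0),(1,1)]⟩),.k,.k,⟨false,1,⟨3,[(2,1),(8,1),
  (5,1),(5,0),(6,0)]⟩,⟨0,[(1,0),(24,0),(1,1)]⟩⟩,⟨true,0,⟨0,[(6,0),(6,0),(1,0)]⟩,⟨1,[(12,0),(8,0),(0,
  0)]⟩⟩,⟨true,0,⟨0,[]⟩,⟨0,[(32,0)]⟩⟩,⟨false,0,⟨0,[(1,0),(1,0),(9,0)]⟩,⟨7,[(2,3),(7,0),(0,4),(0,3),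
  (4,3),(12,1)]⟩⟩,⟨false,0,⟨0,[]⟩,⟨0,[]⟩⟩,⟨false,0,⟨0,[]⟩,⟨0,[]⟩⟩,[.o ⟨false,0,⟨0,[(3,0)]⟩,⟨3,[(2,
  1),(7,0),(0,0),(5,1),(5,0),(6,0)]⟩⟩,.o ⟨false,1,⟨3,[(3,3),(6,0),(0,0),(18,1)]⟩,⟨0,[(27,0)]⟩⟩,.a
  ⟨true,0,⟨1,[(12,0),(8,0),(0,0)]⟩,⟨0,[(13,0)]⟩⟩ ⟨false,1,⟨1,[(11,0),(18,0)]⟩,⟨0,[(1,0),(30,0)]⟩⟩
  ⟨true,0,⟨0,[(3,0),(9,0)]⟩,⟨1,[(2,0),(9,0),(4,0),(14,0)]⟩⟩,.o ⟨false,0,⟨1,[(12,0),(2,0),(2,0)]⟩,⟨1,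
  [(13,1),(9,0),(5,0)]⟩⟩]⟩) (.R ⟨1,false,false,false,[0,0,0,1],[0,0,1],[0,0,0,-1,0,0,0,0,1],(⟨0,
  [(13,0)]⟩,⟨1,[(12,0),(8,0),(0,0)]⟩),(⟨0,[(22,0)]⟩,⟨0,[(21,0)]⟩),⟨0,[(0,0)]⟩,.k,.k,(.r (-1) ⟨1,
  [(11,0),(16,1),(0,0)]⟩ ⟨2,[(1,2),(3,0),(11,0),(0,0),(8,1),(4,0)]⟩),.k,(.r (-1) ⟨1,[(11,0),(8,1),
  (7,1),(0,0)]⟩ ⟨2,[(1,2),(0,0),(12,0),(0,1),(2,1),(7,0)]⟩),.k,⟨false,1,⟨1,[(11,0),(8,1),(7,1),(0,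
  0)]⟩,⟨1,[(1,1),(7,0),(5,0),(3,0),(6,1)]⟩⟩,⟨true,0,⟨0,[(6,0),(6,0)]⟩,⟨1,[(12,0),(2,0),(3,0)]⟩⟩,
  ⟨true,0,⟨0,[(28,0)]⟩,⟨0,[(27,0)]⟩⟩,⟨false,0,⟨2,[(1,2),(0,0),(0,1),(5,0),(3,2)]⟩,⟨1,[(11,0),(0,0),
  (1,0),(2,0),(12,0)]⟩⟩,⟨false,1,⟨3,[(10,0),(0,0),(18,1)]⟩,⟨0,[]⟩⟩,⟨false,0,⟨0,[(1,0),(0,0),(0,0),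
  (9,0)]⟩,⟨1,[(3,0),(7,0),(0,0),(4,1),(10,0),(1,0)]⟩⟩,[.o ⟨false,0,⟨2,[(2,0),(0,1),(5,0)]⟩,⟨1,[(17,
  1),(5,0),(6,0)]⟩⟩,.o ⟨false,1,⟨7,[(9,3),(0,0),(0,0),(11,1),(6,3)]⟩,⟨0,[(14,0)]⟩⟩,.a ⟨true,0,⟨1,
  [(12,0),(8,0),(0,0)]⟩,⟨0,[(13,0)]⟩⟩ ⟨false,1,⟨1,[(11,0),(16,1),(1,0)]⟩,⟨0,[(1,0),(25,0)]⟩⟩ ⟨true,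
  0,⟨2,[(2,0),(0,1),(5,0),(3,2)]⟩,⟨1,[(12,0),(1,0),(2,0)]⟩⟩,.o ⟨false,0,⟨1,[(12,0),(2,0),(2,0)]⟩,⟨1,
  [(13,1),(9,0),(5,0)]⟩⟩]⟩))))) (.I [0,-1,1,0,0,0,0,-1] (.Q [0,0,0,1,0,0,0,0,0,1] (.pp false [-1,
  1]) (.R ⟨1,false,false,false,[0,0,1],[1,-1],[1,1,0,0,0,0,0,1],(⟨0,[(20,0)]⟩,⟨0,[(19,0)]⟩),(⟨0,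
  [(22,0)]⟩,⟨0,[(23,0)]⟩),⟨0,[(2,0)]⟩,.k,.k,.k,.k,.k,.k,⟨false,0,⟨1,[(7,0),(5,0),(3,0),(6,1)]⟩,⟨1,
  [(18,1),(7,1),(0,0),(0,0)]⟩⟩,⟨true,0,⟨0,[(13,0)]⟩,⟨1,[(0,0),(6,0),(10,1),(7,0)]⟩⟩,⟨false,0,⟨0,[]⟩,
  ⟨3,[(8,0),(0,0),(18,1)]⟩⟩,⟨false,1,⟨0,[(12,0),(13,0),(1,0)]⟩,⟨0,[(6,0)]⟩⟩,⟨true,0,⟨0,[(25,0)]⟩,⟨0,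
  [(26,0)]⟩⟩,⟨false,1,⟨0,[(12,0),(15,0)]⟩,⟨1,[(0,0),(6,0),(18,0)]⟩⟩,[.a ⟨true,0,⟨0,[(26,0)]⟩,⟨0,[(0,
  0)]⟩⟩ ⟨true,0,⟨1,[(7,0),(5,0),(3,0),(6,1),(1,1)]⟩,⟨0,[(1,0)]⟩⟩ ⟨false,1,⟨0,[(13,0),(12,0),(0,0)]⟩,
  ⟨0,[(0,0),(3,0)]⟩⟩,.o ⟨false,1,⟨1,[(21,0),(4,1),(1,0)]⟩,⟨0,[(25,0)]⟩⟩,.o ⟨false,0,⟨0,[(4,0)]⟩,⟨3,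
  [(8,0),(0,0),(3,3),(13,1)]⟩⟩,.o ⟨false,0,⟨0,[(16,0)]⟩,⟨0,[(13,0),(13,0)]⟩⟩]⟩) (.Q [0,0,0,-2,0,0,
  -1,-1,0,-1,1] (.p true [0,0,1] [1] (⟨0,[(20,0)]⟩,⟨0,[(19,0)]⟩) .k 1 (⟨0,[]⟩,⟨0,[]⟩) .k .k) (.R ⟨1,
  true,false,false,[1,0,-1],[0,1],[1,1,0,0,0,0,0,-1],(⟨0,[(20,0)]⟩,⟨0,[(21,0)]⟩),(⟨0,[(24,0)]⟩,⟨0,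
  [(23,0)]⟩),⟨0,[(6,0)]⟩,.k,.k,.k,.k,(.r (-1) ⟨0,[(19,0),(7,1),(0,0)]⟩ ⟨0,[(4,0),(21,0)]⟩),.k,⟨true,
  0,⟨0,[(19,0),(5,0),(1,1)]⟩,⟨0,[(4,0)]⟩⟩,⟨false,1,⟨1,[(8,0),(10,1),(0,0),(0,0),(6,1)]⟩,⟨0,[(14,
  0)]⟩⟩,⟨false,0,⟨0,[]⟩,⟨3,[(9,0),(0,0),(18,1)]⟩⟩,⟨true,0,⟨0,[(7,0)]⟩,⟨1,[(0,0),(12,0),(17,0)]⟩⟩,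
  ⟨true,0,⟨0,[(26,0)]⟩,⟨0,[(27,0)]⟩⟩,⟨false,1,⟨0,[(7,0),(18,0),(2,0)]⟩,⟨0,[(0,0)]⟩⟩,[]⟩) (.Q [0,-1,
  0,1,0,0,1,1,-1,0,-1,1] (.p false [0,0,1] [0,0,0,1] (⟨0,[(21,0)]⟩,⟨0,[(20,0)]⟩) .k 2 (⟨0,[(12,0)]⟩,
  ⟨1,[(11,0),(8,0),(0,0)]⟩) .k (.x 0 ⟨0,[(5,0),(15,0)]⟩ ⟨3,[(9,0),(0,0),(3,3),(5,3),(7,1)]⟩)) (.Q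
  [0,0,0,0,0,1,0,0,0,0,0,-1] (.p false [0,0,0,1] [] (⟨0,[(13,0)]⟩,⟨1,[(12,0),(8,0),(0,0)]⟩) .k 0
  (⟨0,[]⟩,⟨0,[]⟩) .k .k) (.R ⟨0,false,false,false,[0,0,0,1],[0,0,1],[0,0,0,-1,0,0,0,0,1],(⟨0,[(14,
  0)]⟩,⟨1,[(13,0),(8,0),(0,0)]⟩),(⟨0,[(23,0)]⟩,⟨0,[(22,0)]⟩),⟨0,[(0,0)]⟩,.k,.k,(.r (-1) ⟨1,[(12,0),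
  (16,1),(0,0)]⟩ ⟨1,[(1,1),(11,0),(2,0),(1,1),(0,0)]⟩),.k,.k,.k,⟨false,1,⟨1,[(12,0),(8,1),(7,1),(0,
  0)]⟩,⟨1,[(1,1),(11,0),(2,0),(3,0),(6,1),(1,1)]⟩⟩,⟨true,0,⟨0,[(7,0),(6,0)]⟩,⟨1,[(13,0),(2,0),(3,
  0)]⟩⟩,⟨true,0,⟨0,[(29,0)]⟩,⟨0,[(28,0)]⟩⟩,⟨false,0,⟨0,[(1,0),(27,0)]⟩,⟨1,[(12,0),(0,0),(1,0),(2,0),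
  (12,0)]⟩⟩,⟨false,0,⟨0,[]⟩,⟨0,[]⟩⟩,⟨false,0,⟨0,[]⟩,⟨0,[]⟩⟩,[.o ⟨false,0,⟨2,[(2,0),(0,1),(6,0)]⟩,⟨1,
  [(18,1),(5,0),(6,0)]⟩⟩,.o ⟨false,1,⟨7,[(10,3),(0,0),(0,0),(11,1),(6,3)]⟩,⟨0,[(15,0)]⟩⟩,.a ⟨true,0,
  ⟨1,[(13,0),(8,0),(0,0)]⟩,⟨0,[(14,0)]⟩⟩ ⟨false,1,⟨1,[(12,0),(16,1),(1,0)]⟩,⟨1,[(1,1),(11,0),(1,0),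
  (2,0)]⟩⟩ ⟨true,0,⟨2,[(2,0),(0,1),(6,0),(3,2)]⟩,⟨1,[(13,0),(1,0),(2,0)]⟩⟩,.o ⟨false,0,⟨1,[(13,0),
  (2,0),(2,0)]⟩,⟨1,[(14,1),(9,0),(5,0)]⟩⟩]⟩) (.R ⟨1,false,false,false,[0,0,0,1],[0,0,1],[0,0,0,-1,0,
  0,0,0,1],(⟨0,[(14,0)]⟩,⟨1,[(13,0),(8,0),(0,0)]⟩),(⟨0,[(23,0)]⟩,⟨0,[(22,0)]⟩),⟨0,[(0,0)]⟩,.k,.k,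
  (.r (-1) ⟨1,[(12,0),(16,1),(0,0)]⟩ ⟨1,[(1,1),(11,0),(2,0),(1,1),(0,0)]⟩),.k,(.r (-1) ⟨1,[(12,0),
  (8,1),(7,1),(0,0)]⟩ ⟨1,[(1,1),(11,0),(2,0),(3,0),(12,1)]⟩),.k,⟨false,1,⟨1,[(12,0),(8,1),(7,1),(0,
  0)]⟩,⟨1,[(1,1),(11,0),(2,0),(3,0),(6,1),(1,1)]⟩⟩,⟨true,0,⟨0,[(7,0),(6,0)]⟩,⟨1,[(13,0),(2,0),(3,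
  0)]⟩⟩,⟨true,0,⟨0,[(29,0)]⟩,⟨0,[(28,0)]⟩⟩,⟨false,0,⟨0,[(1,0),(27,0)]⟩,⟨1,[(12,0),(0,0),(1,0),(2,0),
  (12,0)]⟩⟩,⟨false,1,⟨3,[(11,0),(0,0),(18,1)]⟩,⟨0,[]⟩⟩,⟨false,0,⟨0,[(1,0)]⟩,⟨1,[(3,0),(8,0),(0,0),
  (4,1),(10,0),(1,0)]⟩⟩,[.o ⟨false,0,⟨2,[(2,0),(0,1),(6,0)]⟩,⟨1,[(18,1),(5,0),(6,0)]⟩⟩,.o ⟨false,1,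
  ⟨7,[(10,3),(0,0),(0,0),(11,1),(6,3)]⟩,⟨0,[(15,0)]⟩⟩,.a ⟨true,0,⟨1,[(13,0),(8,0),(0,0)]⟩,⟨0,[(14,
  0)]⟩⟩ ⟨false,1,⟨1,[(12,0),(16,1),(1,0)]⟩,⟨1,[(1,1),(11,0),(1,0),(2,0)]⟩⟩ ⟨true,0,⟨2,[(2,0),(0,1),
  (6,0),(3,2)]⟩,⟨1,[(13,0),(1,0),(2,0)]⟩⟩,.o ⟨false,0,⟨1,[(13,0),(2,0),(2,0)]⟩,⟨1,[(14,1),(9,0),(5,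
  0)]⟩⟩]⟩)) (.Q [0,1,0,0,0,0,0,0,-1,-1,0,1] (.p true [0,0,0,1] [1] (⟨0,[(13,0)]⟩,⟨1,[(12,0),(8,0),
  (0,0)]⟩) .k 1 (⟨0,[]⟩,⟨0,[]⟩) .k .k) (.I [0,0,1,1,0,0,0,0,1] (.Q [0,0,0,0,0,0,-1,-1,1,0,1,-1] (.p
  true [0,0,1] [0,0,0,1] (⟨0,[(24,0)]⟩,⟨0,[(23,0)]⟩) .k 2 (⟨0,[(15,0)]⟩,⟨1,[(14,0),(8,0),(0,0)]⟩)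
  .k (.x 0 ⟨0,[(8,0),(15,0)]⟩ ⟨3,[(12,0),(0,0),(3,3),(5,3),(7,1)]⟩)) (.K ⟨2,[0,0,0,1],0,0,(⟨0,[(16,
  0)]⟩,⟨1,[(15,0),(8,0),(0,0)]⟩),.k,(.x 0 ⟨1,[(7,0),(2,0),(7,0),(2,0)]⟩ ⟨3,[(13,0),(0,0),(13,3),(3,
  1)]⟩),(.r 0 ⟨0,[(1,0)]⟩ ⟨1,[(13,0),(17,1),(0,0)]⟩),.k,.k,[⟨0,[(0,0)]⟩,⟨0,[(2,0),(21,0),(0,0)]⟩,⟨1,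
  [(16,1),(4,0),(0,0)]⟩,⟨1,[(15,0),(2,0),(2,0)]⟩]⟩) (.I [1,0,0,0,0,0,0,0,-1] (.Q [0,0,0,0,0,0,1,1,1,
  1,-1,-1] (.p false [0,0,1] [1,0,0,-1] (⟨0,[(26,0)]⟩,⟨0,[(25,0)]⟩) .k 2 (⟨1,[(16,0),(8,0),(0,0)]⟩,
  ⟨0,[(17,0)]⟩) .k (.r (-1) ⟨1,[(13,0),(1,0),(3,0),(3,0),(9,0)]⟩ ⟨0,[(0,0),(23,0)]⟩)) (.R ⟨1,false,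
  false,true,[1,0,0,-1],[0,-1,1],[0,0,0,-1,0,0,0,0,-1],(⟨1,[(17,0),(8,0),(0,0)]⟩,⟨0,[(18,0)]⟩),(⟨0,
  [(9,0)]⟩,⟨0,[(26,0),(3,0)]⟩),⟨1,[(9,0),(2,0),(4,0)]⟩,.k,.k,(.r (-1) ⟨1,[(15,0),(17,1),(0,0)]⟩ ⟨0,
  [(3,0)]⟩),(.r 0 ⟨0,[(1,0),(6,0),(23,0)]⟩ ⟨0,[(0,0),(17,0),(1,0),(12,0),(0,0)]⟩),.k,.k,⟨true,0,⟨0,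
  [(1,0),(6,0)]⟩,⟨0,[(0,0),(17,0),(1,0),(10,0),(1,0)]⟩⟩,⟨false,0,⟨1,[(14,0),(2,0),(7,1)]⟩,⟨0,[(18,
  0),(1,0),(13,0)]⟩⟩,⟨true,0,⟨0,[(33,0)]⟩,⟨0,[(32,0)]⟩⟩,⟨false,0,⟨0,[(0,0),(32,0)]⟩,⟨1,[(1,1),(6,0),
  (9,1),(0,0),(0,0),(10,1),(3,1)]⟩⟩,⟨false,1,⟨3,[(15,0),(0,0),(18,1)]⟩,⟨0,[]⟩⟩,⟨false,0,⟨0,[(0,0)]⟩,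
  ⟨0,[(1,0),(16,0),(0,0),(15,0)]⟩⟩,[.o ⟨false,0,⟨0,[(21,0),(11,0)]⟩,⟨1,[(8,0),(10,0),(0,0),(10,1),
  (3,1)]⟩⟩,.o ⟨false,0,⟨1,[(7,0),(6,0),(18,0)]⟩,⟨0,[(19,0),(12,0),(2,0)]⟩⟩,.a ⟨true,0,⟨0,[(18,0)]⟩,
  ⟨1,[(17,0),(8,0),(0,0)]⟩⟩ ⟨true,0,⟨0,[(1,0),(31,0)]⟩,⟨8,[(0,0),(2,5),(1,1),(1,0),(10,2),(2,0),(9,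
  5)]⟩⟩ ⟨false,0,⟨1,[(14,0),(2,0),(15,1)]⟩,⟨1,[(8,0),(9,1),(0,0),(0,0),(10,1),(3,1)]⟩⟩,.o ⟨false,0,
  ⟨4,[(3,1),(0,1),(2,2),(0,0),(1,0),(7,2)]⟩,⟨7,[(15,0),(0,0),(0,3),(10,1),(5,3)]⟩⟩]⟩) (.K ⟨2,[1,0,0,
  -1],0,0,(⟨1,[(17,0),(8,0),(0,0)]⟩,⟨0,[(18,0)]⟩),.k,(.r (-1) ⟨1,[(15,0),(17,1),(0,0)]⟩ ⟨0,[(3,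
  0)]⟩),(.r 0 ⟨2,[(1,2),(6,0),(1,0),(21,1)]⟩ ⟨1,[(16,0),(16,1),(0,0)]⟩),.k,.k,[⟨0,[(0,0)]⟩,⟨0,[(5,
  0),(7,0)]⟩,⟨1,[(17,0),(5,0),(0,0),(1,0),(0,0)]⟩,⟨4,[(0,0),(2,1),(0,0),(2,2),(2,0),(7,2),(4,
  0)]⟩]⟩)) (.R ⟨1,false,false,false,[1,0,0,-1],[1,0,-1],[1,1,0,0,0,0,0,0,-1],(⟨1,[(16,0),(8,0),(0,
  0)]⟩,⟨0,[(17,0)]⟩),(⟨0,[(25,0)]⟩,⟨0,[(26,0)]⟩),⟨1,[(8,0),(2,0),(4,0)]⟩,.k,.k,(.r (-1) ⟨1,[(14,0),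
  (17,1),(0,0)]⟩ ⟨0,[(2,0)]⟩),.k,(.r (-1) ⟨1,[(1,1),(14,0),(2,0),(3,0),(8,1),(0,1)]⟩ ⟨0,[(2,0),(21,
  0)]⟩),.k,⟨true,0,⟨1,[(1,1),(14,0),(2,0),(3,0),(6,1),(1,1)]⟩,⟨0,[(0,0),(6,0)]⟩⟩,⟨false,1,⟨1,[(16,
  0),(2,0),(3,0),(9,1)]⟩,⟨0,[(10,0),(6,0)]⟩⟩,⟨false,0,⟨0,[]⟩,⟨3,[(14,0),(0,0),(18,1)]⟩⟩,⟨false,1,⟨3,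
  [(0,1),(3,1),(2,0),(8,0),(2,0),(1,0),(8,1),(3,3)]⟩,⟨0,[(1,0)]⟩⟩,⟨true,0,⟨0,[(31,0)]⟩,⟨0,[(32,
  0)]⟩⟩,⟨false,1,⟨1,[(0,1),(6,0),(8,0),(2,0),(1,0),(8,1),(3,1)]⟩,⟨0,[(1,0),(30,0)]⟩⟩,[.o ⟨false,1,
  ⟨1,[(21,1),(5,0),(6,0)]⟩,⟨2,[(5,0),(0,1),(6,0)]⟩⟩,.o ⟨false,1,⟨0,[(18,0),(15,0)]⟩,⟨0,[(20,0)]⟩⟩,
  .a ⟨true,0,⟨0,[(17,0)]⟩,⟨1,[(16,0),(8,0),(0,0)]⟩⟩ ⟨true,0,⟨1,[(1,0),(1,0),(12,0),(4,0)]⟩,⟨0,[(0,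
  0)]⟩⟩ ⟨false,1,⟨1,[(16,0),(1,0),(2,0),(12,1)]⟩,⟨0,[(0,0),(0,0)]⟩⟩,.o ⟨false,0,⟨4,[(2,1),(0,1),(2,
  2),(0,0),(1,0),(7,2)]⟩,⟨7,[(14,0),(0,0),(0,3),(10,1),(5,3)]⟩⟩]⟩))) (.K ⟨2,[1,0,0,-1],0,0,(⟨1,[(14,
  0),(8,0),(0,0)]⟩,⟨0,[(15,0)]⟩),.k,(.x 0 ⟨1,[(6,0),(2,0),(7,0),(2,0)]⟩ ⟨3,[(12,0),(0,0),(13,3),(3,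
  1)]⟩),(.r 0 ⟨3,[(0,1),(0,1),(1,1),(1,1),(1,1),(6,0),(1,0),(2,0)]⟩ ⟨0,[(0,0),(12,0)]⟩),.k,.k,[⟨0,
  [(0,0),(4,0),(9,0),(1,0),(10,0)]⟩,⟨0,[(2,0),(7,0)]⟩,⟨1,[(14,0),(5,0),(0,0),(1,0),(0,0)]⟩,⟨0,[(8,
  0),(6,0),(1,0)]⟩]⟩)) (.R ⟨1,false,false,false,[1,0,0,-1],[0,0,1],[0,0,0,-1,0,0,0,0,-1],(⟨1,[(13,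
  0),(8,0),(0,0)]⟩,⟨0,[(14,0)]⟩),(⟨0,[(23,0)]⟩,⟨0,[(22,0)]⟩),⟨1,[(5,0),(2,0),(4,0)]⟩,.k,.k,(.r (-1)
  ⟨1,[(11,0),(17,1),(0,0)]⟩ ⟨0,[(0,0),(6,0),(6,0),(1,0),(11,0)]⟩),.k,(.r (-1) ⟨1,[(11,0),(9,1),(7,
  1),(0,0)]⟩ ⟨2,[(0,1),(0,0),(0,2),(0,1),(10,2),(1,2),(0,0)]⟩),.k,⟨false,1,⟨1,[(11,0),(9,1),(7,1),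
  (0,0)]⟩,⟨2,[(0,2),(1,0),(0,1),(6,0),(3,2),(1,2),(10,2)]⟩⟩,⟨true,0,⟨1,[(10,0),(2,0),(7,1)]⟩,⟨0,
  [(14,0),(1,0)]⟩⟩,⟨true,0,⟨0,[(29,0)]⟩,⟨0,[(28,0)]⟩⟩,⟨false,0,⟨2,[(0,2),(1,0),(0,1),(6,0)]⟩,⟨1,
  [(11,0),(2,1),(0,1),(15,0)]⟩⟩,⟨false,1,⟨3,[(11,0),(0,0),(18,1)]⟩,⟨0,[]⟩⟩,⟨false,0,⟨0,[(0,0),(1,0),
  (0,0)]⟩,⟨1,[(3,1),(7,0),(2,1),(3,1),(12,0)]⟩⟩,[.o ⟨false,0,⟨2,[(2,0),(0,1),(6,0)]⟩,⟨1,[(18,1),(5,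
  0),(6,0)]⟩⟩,.o ⟨false,1,⟨7,[(10,3),(0,0),(0,0),(11,1),(6,3)]⟩,⟨0,[(15,0)]⟩⟩,.a ⟨true,0,⟨0,[(14,
  0)]⟩,⟨1,[(13,0),(8,0),(0,0)]⟩⟩ ⟨false,1,⟨1,[(11,0),(17,1),(1,0)]⟩,⟨0,[(0,0),(1,0),(0,0),(10,0),(0,
  0)]⟩⟩ ⟨true,0,⟨1,[(10,0),(2,0)]⟩,⟨0,[(14,0),(0,0)]⟩⟩,.o ⟨false,0,⟨0,[(7,0),(6,0),(1,0)]⟩,⟨7,[(11,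
  0),(0,0),(0,3),(10,1),(5,3)]⟩⟩]⟩))))) (.Q [0,0,0,-3,0,0,0,0,0,-1] (.pp true [-1,1]) (.Q [0,0,0,2,
  0,0,1,1,0,1,-1] (.p false [0,0,1] [1] (⟨0,[(20,0)]⟩,⟨0,[(19,0)]⟩) .k 1 (⟨0,[]⟩,⟨0,[]⟩) .k .k) (.Q
  [0,0,0,1,0,0,0,0,0,1] (.pp false [-1,1]) (.R ⟨1,false,false,false,[1,0,-1],[0,1],[1,1,0,0,0,0,0,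
  -1],(⟨0,[(21,0)]⟩,⟨0,[(22,0)]⟩),(⟨0,[(25,0)]⟩,⟨0,[(24,0)]⟩),⟨0,[(7,0)]⟩,.k,.k,.k,.k,(.r (-1) ⟨0,
  [(0,0),(1,0),(17,0),(8,0)]⟩ ⟨0,[(5,0),(21,0)]⟩),.k,⟨true,0,⟨1,[(0,0),(1,0),(0,1),(16,3)]⟩,⟨0,[(5,
  0)]⟩⟩,⟨false,1,⟨3,[(0,2),(1,0),(6,1),(10,3),(8,3)]⟩,⟨0,[(15,0)]⟩⟩,⟨false,0,⟨0,[]⟩,⟨3,[(10,0),(0,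
  0),(18,1)]⟩⟩,⟨true,0,⟨0,[(8,0)]⟩,⟨2,[(2,0),(11,1),(2,0)]⟩⟩,⟨true,0,⟨0,[(27,0)]⟩,⟨0,[(28,0)]⟩⟩,
  ⟨true,0,⟨0,[(1,0)]⟩,⟨2,[(2,1),(11,0),(2,1)]⟩⟩,[.a ⟨true,0,⟨0,[(0,0)]⟩,⟨0,[(28,0)]⟩⟩ ⟨false,0,⟨0,
  [(3,0),(16,1)]⟩,⟨12,[(2,0),(0,7),(1,2),(3,0),(0,1),(0,1),(7,1),(10,8)]⟩⟩ ⟨true,0,⟨0,[(8,0),(11,
  0)]⟩,⟨2,[(2,0),(12,1),(3,0)]⟩⟩,.o ⟨false,1,⟨0,[(27,0),(2,0)]⟩,⟨4,[(2,1),(3,0),(7,1),(0,0),(0,1),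
  (9,0)]⟩⟩,.o ⟨false,1,⟨3,[(10,0),(0,0),(3,3),(13,1)]⟩,⟨0,[(6,0)]⟩⟩,.o ⟨false,0,⟨0,[(15,0)]⟩,⟨0,
  [(18,0),(10,0)]⟩⟩]⟩) (.Q [0,-1,0,1,0,0,1,1,-1,0,-1,1] (.p false [0,0,1] [0,0,0,1] (⟨0,[(22,0)]⟩,
  ⟨0,[(21,0)]⟩) .k 2 (⟨0,[(13,0)]⟩,⟨1,[(12,0),(8,0),(0,0)]⟩) .k (.x 0 ⟨0,[(6,0),(15,0)]⟩ ⟨3,[(10,0),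
  (0,0),(3,3),(5,3),(7,1)]⟩)) (.I [0,0,-1,-1,0,0,0,0,-1] (.R ⟨1,false,false,true,[1,0,0,-1],[1,-1,
  -1],[1,1,0,0,0,0,0,0,-1],(⟨1,[(14,0),(8,0),(0,0)]⟩,⟨0,[(15,0)]⟩),(⟨0,[(9,0)]⟩,⟨0,[(24,0),(2,0)]⟩),
  ⟨1,[(6,0),(2,0),(4,0)]⟩,.k,.k,(.r 0 ⟨0,[(0,0)]⟩ ⟨3,[(7,1),(4,0),(0,2),(8,1),(6,1)]⟩),(.r 0 ⟨0,[(0,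
  0),(6,0),(21,0)]⟩ ⟨5,[(4,1),(8,2),(8,5),(0,1),(0,1),(6,2)]⟩),.k,.k,⟨false,0,⟨7,[(0,1),(0,5),(3,1),
  (8,2),(2,2),(3,2),(6,1),(0,1)]⟩,⟨5,[(4,1),(8,2),(8,5),(0,1),(0,1),(6,2)]⟩⟩,⟨true,0,⟨1,[(14,0),(2,
  0),(3,0)]⟩,⟨0,[(8,0),(6,0)]⟩⟩,⟨false,0,⟨0,[]⟩,⟨3,[(12,0),(0,0),(18,1)]⟩⟩,⟨false,1,⟨5,[(4,1),(8,2),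
  (0,2),(1,0),(2,4),(12,2)]⟩,⟨0,[(1,0)]⟩⟩,⟨true,0,⟨0,[(29,0)]⟩,⟨0,[(30,0)]⟩⟩,⟨false,1,⟨1,[(13,0),(0,
  0),(1,0),(2,0),(12,0)]⟩,⟨2,[(1,2),(2,0),(18,0),(0,0)]⟩⟩,[.o ⟨false,0,⟨2,[(4,0),(11,1),(2,0)]⟩,⟨15,
  [(3,7),(7,3),(0,0),(0,0),(11,5),(6,7)]⟩⟩,.o ⟨false,1,⟨11,[(4,3),(7,0),(0,0),(5,11),(5,3),(6,5)]⟩,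
  ⟨0,[(2,0),(0,0)]⟩⟩,.a ⟨true,0,⟨0,[(15,0)]⟩,⟨1,[(14,0),(8,0),(0,0)]⟩⟩ ⟨false,0,⟨4,[(0,2),(0,1),(5,
  0),(6,0),(1,0),(2,1),(0,0)]⟩,⟨1,[(13,0),(18,0)]⟩⟩ ⟨true,0,⟨5,[(4,1),(9,2),(1,0),(2,4)]⟩,⟨0,[(2,0),
  (0,0),(11,0)]⟩⟩,.o ⟨false,0,⟨0,[(8,0),(6,0),(1,0)]⟩,⟨7,[(12,0),(0,0),(0,3),(10,1),(5,3)]⟩⟩]⟩) (.R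
  ⟨1,false,false,true,[1,0,0,-1],[1,0,-1],[1,1,0,0,0,0,0,0,-1],(⟨1,[(14,0),(8,0),(0,0)]⟩,⟨0,[(15,
  0)]⟩),(⟨0,[(23,0)]⟩,⟨0,[(24,0)]⟩),⟨1,[(6,0),(2,0),(4,0)]⟩,.k,.k,(.x 0 ⟨1,[(6,0),(2,0),(7,0),(2,
  0)]⟩ ⟨3,[(12,0),(0,0),(13,3),(3,1)]⟩),.k,(.r (-1) ⟨5,[(4,1),(0,5),(6,2),(10,1),(0,1),(7,2)]⟩ ⟨0,
  [(0,0),(21,0)]⟩),.k,⟨true,0,⟨5,[(1,5),(2,1),(0,2),(8,2),(2,0),(1,2),(1,1)]⟩,⟨2,[(0,2),(3,0),(17,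
  2),(0,0),(0,0)]⟩⟩,⟨false,1,⟨1,[(14,0),(2,0),(3,0),(9,1)]⟩,⟨0,[(8,0),(6,0)]⟩⟩,⟨false,0,⟨0,[]⟩,⟨3,
  [(12,0),(0,0),(18,1)]⟩⟩,⟨false,1,⟨1,[(13,0),(0,0),(1,0),(2,0),(12,0)]⟩,⟨2,[(1,2),(2,0),(18,0),(0,
  0)]⟩⟩,⟨true,0,⟨0,[(29,0)]⟩,⟨0,[(30,0)]⟩⟩,⟨false,1,⟨3,[(0,1),(12,0),(0,1),(1,1),(2,1),(8,1),(3,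
  2)]⟩,⟨2,[(1,2),(2,1),(18,1),(0,1)]⟩⟩,[.o ⟨false,0,⟨0,[(16,0)]⟩,⟨7,[(11,3),(0,0),(0,0),(11,1),(6,
  3)]⟩⟩,.o ⟨false,1,⟨1,[(19,1),(5,0),(6,0)]⟩,⟨2,[(2,1),(0,0),(7,0)]⟩⟩,.a ⟨true,0,⟨0,[(15,0)]⟩,⟨1,
  [(14,0),(8,0),(0,0)]⟩⟩ ⟨false,0,⟨5,[(1,5),(2,1),(9,2),(1,0),(2,4)]⟩,⟨1,[(13,0),(18,0)]⟩⟩ ⟨true,0,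
  ⟨1,[(14,0),(1,0),(2,0)]⟩,⟨6,[(0,0),(0,0),(0,2),(8,2),(3,5),(12,0)]⟩⟩,.o ⟨false,0,⟨4,[(0,0),(0,0),
  (0,1),(12,3),(0,0),(0,1),(2,1)]⟩,⟨7,[(12,0),(0,0),(0,3),(10,1),(5,3)]⟩⟩]⟩)) (.Q [0,-1,0,1,0,0,1,1,
  1,1,-1,-1] (.p false [0,0,1] [1,0,0,-1] (⟨0,[(23,0)]⟩,⟨0,[(22,0)]⟩) .k 2 (⟨1,[(13,0),(8,0),(0,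
  0)]⟩,⟨0,[(14,0)]⟩) .k (.x 0 ⟨0,[(7,0),(15,0)]⟩ ⟨3,[(11,0),(0,0),(3,3),(5,3),(7,1)]⟩)) (.R ⟨1,
  false,false,false,[1,0,0,-1],[0,0,1],[0,0,0,-1,0,0,0,0,-1],(⟨1,[(14,0),(8,0),(0,0)]⟩,⟨0,[(15,
  0)]⟩),(⟨0,[(24,0)]⟩,⟨0,[(23,0)]⟩),⟨1,[(6,0),(2,0),(4,0)]⟩,.k,.k,(.r (-1) ⟨5,[(4,1),(7,2),(10,1),
  (0,1),(6,2)]⟩ ⟨7,[(0,5),(0,1),(5,2),(7,7),(0,5),(3,1),(1,0),(6,0)]⟩),.k,(.r (-1) ⟨5,[(4,1),(7,2),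
  (9,5),(0,1),(0,1),(6,2)]⟩ ⟨11,[(0,8),(0,2),(3,0),(1,1),(7,11),(1,8),(0,2),(10,3)]⟩),.k,⟨false,1,
  ⟨5,[(4,1),(7,2),(9,5),(0,1),(0,1),(6,2)]⟩,⟨1,[(0,1),(4,0),(9,1),(0,0),(0,0)]⟩⟩,⟨true,0,⟨1,[(11,0),
  (2,0),(7,1)]⟩,⟨0,[(15,0),(1,0)]⟩⟩,⟨true,0,⟨0,[(30,0)]⟩,⟨0,[(29,0)]⟩⟩,⟨false,0,⟨2,[(0,2),(3,0),(18,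
  0),(0,0)]⟩,⟨1,[(12,0),(2,1),(0,1),(15,0)]⟩⟩,⟨false,1,⟨3,[(12,0),(0,0),(18,1)]⟩,⟨0,[]⟩⟩,⟨false,0,
  ⟨0,[(0,0)]⟩,⟨5,[(4,1),(7,2),(2,5),(0,3),(2,1),(12,2)]⟩⟩,[.o ⟨false,0,⟨2,[(2,1),(0,0),(7,0)]⟩,⟨1,
  [(19,1),(5,0),(6,0)]⟩⟩,.o ⟨false,1,⟨7,[(11,3),(0,0),(0,0),(11,1),(6,3)]⟩,⟨0,[(16,0)]⟩⟩,.a ⟨true,0,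
  ⟨0,[(15,0)]⟩,⟨1,[(14,0),(8,0),(0,0)]⟩⟩ ⟨false,1,⟨5,[(4,1),(7,2),(10,1),(0,1),(7,2)]⟩,⟨0,[(0,0),
  (14,0),(0,0)]⟩⟩ ⟨true,0,⟨1,[(11,0),(2,0)]⟩,⟨0,[(15,0),(0,0)]⟩⟩,.o ⟨false,0,⟨0,[(8,0),(6,0),(1,
  0)]⟩,⟨7,[(12,0),(0,0),(0,3),(10,1),(5,3)]⟩⟩]⟩) (.Q [0,0,0,0,0,0,-1,-1,-1,-1,1,1] (.p true [0,0,1]
  [1,0,0,-1] (⟨0,[(24,0)]⟩,⟨0,[(23,0)]⟩) .k 2 (⟨1,[(14,0),(8,0),(0,0)]⟩,⟨0,[(15,0)]⟩) .k (.x 0 ⟨0,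
  [(8,0),(15,0)]⟩ ⟨3,[(12,0),(0,0),(3,3),(5,3),(7,1)]⟩)) (.K ⟨2,[1,0,0,-1],0,0,(⟨1,[(15,0),(8,0),(0,
  0)]⟩,⟨0,[(16,0)]⟩),.k,(.x 0 ⟨1,[(7,0),(2,0),(7,0),(2,0)]⟩ ⟨3,[(13,0),(0,0),(13,3),(3,1)]⟩),(.r 0
  ⟨17,[(0,13),(0,3),(2,7),(3,5),(3,0),(2,8),(3,1),(1,5)]⟩ ⟨5,[(5,1),(8,2),(9,1),(0,1),(6,2)]⟩),.k,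
  .k,[⟨0,[(0,0)]⟩,⟨0,[(2,0),(8,0)]⟩,⟨1,[(15,0),(5,0),(0,0),(1,0),(0,0)]⟩,⟨0,[(9,0),(6,0),(1,0)]⟩]⟩)
  (.Q [0,1,0,0,0,0,-1,-1,-1,-1,1,1] (.p true [0,0,1] [1,0,0,-1] (⟨0,[(25,0)]⟩,⟨0,[(24,0)]⟩) .k 2
  (⟨1,[(15,0),(8,0),(0,0)]⟩,⟨0,[(16,0)]⟩) .k (.x 0 ⟨0,[(9,0),(15,0)]⟩ ⟨3,[(13,0),(0,0),(3,3),(5,3),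
  (7,1)]⟩)) (.I [1,0,0,0,0,0,0,-1,-1] (.Q [0,0,0,0,0,1,0,0,0,0,0,-1] (.p false [0,0,0,1] [] (⟨0,
  [(18,0)]⟩,⟨1,[(17,0),(8,0),(0,0)]⟩) .k 0 (⟨0,[]⟩,⟨0,[]⟩) .k .k) (.R ⟨0,false,false,true,[0,0,0,1],
  [1,0,-1],[1,1,0,0,0,0,0,-1],(⟨0,[(19,0)]⟩,⟨1,[(18,0),(8,0),(0,0)]⟩),(⟨0,[(27,0)]⟩,⟨0,[(28,0)]⟩),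
  ⟨0,[(0,0)]⟩,.k,.k,(.r (-1) ⟨5,[(8,1),(8,2),(9,1),(0,1),(6,2)]⟩ ⟨7,[(1,5),(0,1),(4,1),(1,0),(1,3),
  (6,0),(2,0),(0,0)]⟩),.k,.k,.k,⟨true,0,⟨0,[]⟩,⟨1,[(24,0),(0,0)]⟩⟩,⟨false,1,⟨0,[(19,0),(1,0),(13,
  0)]⟩,⟨0,[(1,0),(1,0)]⟩⟩,⟨false,0,⟨0,[(1,0)]⟩,⟨3,[(3,1),(5,1),(7,0),(1,1),(1,1),(14,2)]⟩⟩,⟨true,0,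
  ⟨0,[(2,0)]⟩,⟨0,[(3,0)]⟩⟩,⟨false,0,⟨0,[]⟩,⟨0,[]⟩⟩,⟨false,0,⟨0,[]⟩,⟨0,[]⟩⟩,[.o ⟨false,0,⟨0,[(20,
  0)]⟩,⟨7,[(15,3),(0,0),(0,0),(11,1),(6,3)]⟩⟩,.o ⟨false,1,⟨1,[(23,1),(5,0),(6,0)]⟩,⟨2,[(6,1),(0,0),
  (7,0)]⟩⟩,.a ⟨true,0,⟨1,[(18,0),(8,0),(0,0)]⟩,⟨0,[(19,0)]⟩⟩ ⟨false,0,⟨0,[(26,0)]⟩,⟨12,[(8,0),(0,7),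
  (1,2),(3,0),(0,1),(0,1),(7,1),(10,8)]⟩⟩ ⟨true,0,⟨0,[(19,0),(0,0)]⟩,⟨1,[(15,0),(2,0)]⟩⟩,.o ⟨false,
  0,⟨1,[(18,0),(2,0),(2,0)]⟩,⟨1,[(19,1),(9,0),(5,0)]⟩⟩]⟩) (.I [0,-1,1,0,0,0,0,-1,-1] (.R ⟨1,false,
  false,false,[0,0,0,1],[1,0,-1],[1,1,0,0,0,0,0,0,1],(⟨0,[(20,0)]⟩,⟨1,[(19,0),(8,0),(0,0)]⟩),(⟨0,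
  [(28,0)]⟩,⟨0,[(29,0)]⟩),⟨0,[(1,0)]⟩,.k,.k,(.r (-1) ⟨5,[(9,1),(8,2),(9,1),(0,1),(6,2)]⟩ ⟨7,[(2,5),
  (0,1),(4,1),(1,0),(1,3),(6,0),(2,0),(0,0)]⟩),.k,(.r (-1) ⟨5,[(9,1),(0,5),(7,2),(9,1),(0,1),(7,
  2)]⟩ ⟨0,[(0,0),(33,0)]⟩),.k,⟨true,0,⟨1,[(4,1),(5,0),(9,1),(0,0),(0,0)]⟩,⟨0,[(0,0)]⟩⟩,⟨false,1,⟨0,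
  [(20,0),(1,0),(13,0)]⟩,⟨0,[(2,0),(1,0)]⟩⟩,⟨false,0,⟨0,[]⟩,⟨3,[(17,0),(0,0),(18,1)]⟩⟩,⟨false,1,⟨0,
  [(3,0),(33,0)]⟩,⟨0,[(4,0)]⟩⟩,⟨true,0,⟨0,[(34,0)]⟩,⟨0,[(35,0)]⟩⟩,⟨false,1,⟨1,[(0,0),(2,0),(16,0),
  (1,0),(10,1),(3,1)]⟩,⟨2,[(4,2),(4,0),(18,0),(0,0)]⟩⟩,[.o ⟨false,1,⟨1,[(24,1),(5,0),(6,0)]⟩,⟨2,[(7,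
  1),(0,0),(7,0)]⟩⟩,.o ⟨false,1,⟨0,[(21,0),(15,0)]⟩,⟨0,[(23,0)]⟩⟩,.a ⟨true,0,⟨1,[(19,0),(8,0),(0,
  0)]⟩,⟨0,[(20,0)]⟩⟩ ⟨true,0,⟨0,[(4,0),(15,0),(0,0)]⟩,⟨0,[(0,0),(9,0)]⟩⟩ ⟨false,1,⟨0,[(20,0),(0,0),
  (15,0)]⟩,⟨1,[(16,0),(2,0)]⟩⟩,.o ⟨false,0,⟨1,[(19,0),(2,0),(2,0)]⟩,⟨1,[(20,1),(9,0),(5,0)]⟩⟩]⟩)
  (.I [0,0,0,-1,0,0,0,1,1] (.R ⟨1,false,false,true,[0,0,0,1],[1,0,-1],[1,1,0,0,0,0,0,-1],(⟨0,[(21,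
  0)]⟩,⟨1,[(20,0),(8,0),(0,0)]⟩),(⟨0,[(29,0)]⟩,⟨0,[(30,0)]⟩),⟨0,[(2,0)]⟩,.k,.k,(.r (-1) ⟨5,[(10,1),
  (8,2),(9,1),(0,1),(6,2)]⟩ ⟨7,[(3,5),(0,1),(4,1),(1,0),(1,3),(6,0),(2,0),(0,0)]⟩),.k,(.r (-1) ⟨3,
  [(0,3),(17,0),(0,0),(17,1)]⟩ ⟨1,[(3,1),(9,0),(14,0),(6,0)]⟩),.k,⟨true,0,⟨0,[]⟩,⟨1,[(26,0),(0,
  0)]⟩⟩,⟨false,1,⟨0,[(1,0),(2,0),(33,0)]⟩,⟨0,[(3,0),(1,0)]⟩⟩,⟨false,0,⟨0,[(3,0)]⟩,⟨7,[(0,1),(0,3),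
  (11,1),(4,0),(0,1),(18,4)]⟩⟩,⟨true,0,⟨0,[(4,0)]⟩,⟨0,[(5,0)]⟩⟩,⟨true,0,⟨0,[(3,0),(31,0)]⟩,⟨0,[(0,
  0)]⟩⟩,⟨true,0,⟨0,[(3,0),(17,0),(1,0),(10,0)]⟩,⟨2,[(5,2),(4,0),(18,0),(0,0)]⟩⟩,[.o ⟨false,0,⟨0,
  [(22,0)]⟩,⟨7,[(17,3),(0,0),(0,0),(11,1),(6,3)]⟩⟩,.o ⟨false,1,⟨1,[(25,1),(5,0),(6,0)]⟩,⟨2,[(8,1),
  (0,0),(7,0)]⟩⟩,.a ⟨true,0,⟨1,[(20,0),(8,0),(0,0)]⟩,⟨0,[(21,0)]⟩⟩ ⟨false,0,⟨0,[(28,0)]⟩,⟨7,[(0,1),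
  (0,3),(11,1),(4,2),(19,4)]⟩⟩ ⟨true,0,⟨0,[(21,0),(0,0)]⟩,⟨1,[(17,0),(2,0)]⟩⟩,.o ⟨false,0,⟨1,[(20,
  0),(2,0),(2,0)]⟩,⟨1,[(21,1),(9,0),(5,0)]⟩⟩]⟩) (.Q [0,0,0,1,0,0,0,0,-1,0,0,1] (.p true [0,0,0,1]
  [] (⟨0,[(21,0)]⟩,⟨1,[(20,0),(8,0),(0,0)]⟩) .k 0 (⟨0,[]⟩,⟨0,[]⟩) .k .k) (.R ⟨1,false,false,false,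
  [1,0,0,-1],[1,-1],[1,1,0,0,0,0,0,0,-1],(⟨1,[(21,0),(8,0),(0,0)]⟩,⟨0,[(22,0)]⟩),(⟨0,[(33,0)]⟩,⟨0,
  [(34,0)]⟩),⟨1,[(13,0),(2,0),(4,0)]⟩,.k,.k,(.r (-1) ⟨5,[(11,1),(7,2),(10,1),(0,1),(6,2)]⟩ ⟨0,[(2,
  0),(11,0),(14,1)]⟩),(.r 0 ⟨3,[(0,0),(0,1),(5,0),(6,1),(6,0),(3,0)]⟩ ⟨5,[(11,1),(8,2),(9,1),(0,1),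
  (6,2)]⟩),.k,.k,⟨false,0,⟨8,[(0,2),(0,2),(3,2),(6,1),(1,0),(6,2),(3,2),(10,1)]⟩,⟨2,[(2,2),(8,0),
  (17,2),(0,0),(0,0),(7,2)]⟩⟩,⟨true,0,⟨1,[(21,0),(2,0),(2,0)]⟩,⟨0,[(22,0)]⟩⟩,⟨false,0,⟨0,[]⟩,⟨3,
  [(19,0),(0,0),(18,1)]⟩⟩,⟨false,1,⟨3,[(9,0),(1,0),(8,1),(0,1),(17,1)]⟩,⟨0,[(0,0)]⟩⟩,⟨true,0,⟨0,
  [(36,0)]⟩,⟨0,[(37,0)]⟩⟩,⟨false,1,⟨5,[(2,1),(3,1),(13,0),(0,1),(2,1),(4,3),(2,0),(6,3)]⟩,⟨2,[(0,2),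
  (10,0),(18,0),(0,0)]⟩⟩,[.o ⟨false,0,⟨0,[(9,0)]⟩,⟨3,[(19,0),(0,0),(15,3),(2,1)]⟩⟩,.o ⟨false,1,⟨11,
  [(11,3),(7,0),(0,0),(11,3),(6,5)]⟩,⟨0,[(36,0)]⟩⟩,.a ⟨true,0,⟨0,[(22,0)]⟩,⟨1,[(21,0),(8,0),(0,
  0)]⟩⟩ ⟨false,0,⟨3,[(0,3),(8,0),(1,0),(9,1)]⟩,⟨1,[(20,0),(18,0)]⟩⟩ ⟨true,0,⟨3,[(9,0),(1,0),(9,1)]⟩,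
  ⟨0,[(22,0),(13,0)]⟩⟩,.o ⟨false,0,⟨0,[(15,0),(6,0),(1,0)]⟩,⟨7,[(19,0),(0,0),(0,3),(10,1),(5,
  3)]⟩⟩]⟩) (.Q [0,0,0,1,0,0,1,1,-1,0,-1,1] (.p false [0,0,1] [0,0,0,1] (⟨0,[(31,0)]⟩,⟨0,[(30,0)]⟩)
  .k 2 (⟨0,[(22,0)]⟩,⟨1,[(21,0),(8,0),(0,0)]⟩) .k (.x 0 ⟨0,[(15,0),(15,0)]⟩ ⟨3,[(19,0),(0,0),(3,3),
  (5,3),(7,1)]⟩)) (.R ⟨1,false,false,false,[0,0,0,1],[0,0,1],[0,1,0,-1,0,0,0,0,1],(⟨0,[(23,0)]⟩,⟨1,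
  [(22,0),(8,0),(0,0)]⟩),(⟨0,[(32,0)]⟩,⟨0,[(31,0)]⟩),⟨0,[(4,0)]⟩,.k,.k,(.r (-1) ⟨5,[(12,1),(8,2),(9,
  1),(0,1),(6,2)]⟩ ⟨3,[(0,0),(1,1),(5,0),(6,1),(6,0),(19,0)]⟩),.k,(.r (-1) ⟨5,[(12,1),(8,2),(8,5),
  (0,1),(0,1),(6,2)]⟩ ⟨1,[(0,1),(21,0),(2,0),(3,0)]⟩),.k,⟨false,0,⟨2,[(3,2),(8,0),(17,5),(0,0),(0,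
  0)]⟩,⟨3,[(2,1),(10,3),(1,1),(4,0),(19,2)]⟩⟩,⟨true,0,⟨0,[(16,0),(6,0)]⟩,⟨1,[(22,0),(2,0),(3,0)]⟩⟩,
  ⟨false,0,⟨0,[(38,0)]⟩,⟨0,[(37,0),(2,0)]⟩⟩,⟨true,0,⟨2,[(0,2),(11,0),(18,0),(0,0)]⟩,⟨0,[(1,0),(27,
  0),(0,0),(5,0)]⟩⟩,⟨true,0,⟨0,[(42,0)]⟩,⟨0,[]⟩⟩,⟨true,0,⟨0,[(0,0)]⟩,⟨0,[(9,0)]⟩⟩,[.o ⟨false,0,⟨2,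
  [(10,1),(0,0),(7,0)]⟩,⟨1,[(27,1),(5,0),(6,0)]⟩⟩,.o ⟨false,1,⟨7,[(19,3),(0,0),(0,0),(11,1),(6,3)]⟩,
  ⟨0,[(24,0)]⟩⟩,.a ⟨true,0,⟨1,[(22,0),(8,0),(0,0)]⟩,⟨0,[(23,0)]⟩⟩ ⟨false,0,⟨0,[(1,0),(21,0)]⟩,⟨7,
  [(2,1),(8,1),(8,2),(4,1),(10,1),(3,4)]⟩⟩ ⟨true,0,⟨2,[(10,1),(0,0),(7,0),(3,2)]⟩,⟨1,[(22,0),(1,0),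
  (2,0)]⟩⟩,.o ⟨false,0,⟨1,[(22,0),(2,0),(2,0)]⟩,⟨1,[(23,1),(9,0),(5,0)]⟩⟩]⟩) (.R ⟨1,false,false,
  false,[0,0,0,1],[1,-1],[1,1,0,0,0,0,0,0,1],(⟨0,[(23,0)]⟩,⟨1,[(22,0),(8,0),(0,0)]⟩),(⟨0,[(34,0)]⟩,
  ⟨0,[(35,0)]⟩),⟨0,[(4,0)]⟩,.k,.k,(.r (-1) ⟨5,[(12,1),(8,2),(9,1),(0,1),(6,2)]⟩ ⟨3,[(2,1),(3,1),(8,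
  1),(3,0),(2,0)]⟩),(.r 0 ⟨0,[(3,0),(11,0),(14,1)]⟩ ⟨5,[(12,1),(7,2),(10,1),(0,1),(6,2)]⟩),.k,.k,
  ⟨false,0,⟨1,[(3,1),(11,0),(14,2),(6,0)]⟩,⟨2,[(5,2),(6,0),(0,2),(17,0),(0,0),(7,2)]⟩⟩,⟨true,0,⟨0,
  [(16,0),(6,0),(1,0)]⟩,⟨1,[(22,0),(8,0),(0,0)]⟩⟩,⟨false,0,⟨0,[]⟩,⟨3,[(20,0),(0,0),(18,1)]⟩⟩,⟨false,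
  1,⟨1,[(10,1),(9,0),(2,1),(16,0)]⟩,⟨0,[(0,0),(10,0)]⟩⟩,⟨true,0,⟨0,[(37,0)]⟩,⟨0,[(38,0)]⟩⟩,⟨false,1,
  ⟨2,[(6,2),(3,1),(0,0),(7,0),(20,2)]⟩,⟨2,[(0,1),(6,0),(3,0),(19,0),(0,0)]⟩⟩,[.o ⟨false,0,⟨0,[(10,
  0)]⟩,⟨3,[(20,0),(0,0),(15,3),(2,1)]⟩⟩,.o ⟨false,1,⟨11,[(12,3),(7,0),(0,0),(11,3),(6,5)]⟩,⟨0,[(37,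
  0)]⟩⟩,.a ⟨true,0,⟨1,[(22,0),(8,0),(0,0)]⟩,⟨0,[(23,0)]⟩⟩ ⟨false,0,⟨0,[(0,0),(9,0),(0,0),(11,0)]⟩,
  ⟨1,[(20,0),(19,0)]⟩⟩ ⟨true,0,⟨0,[(10,0),(12,0)]⟩,⟨1,[(18,0),(3,0),(4,0),(9,0)]⟩⟩,.o ⟨false,0,⟨1,
  [(22,0),(2,0),(2,0)]⟩,⟨1,[(23,1),(9,0),(5,0)]⟩⟩]⟩)))))) (.R ⟨1,false,false,false,[1,0,0,-1],[0,0,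
  1],[1,0,0,0,0,0,0,0,-1],(⟨1,[(17,0),(8,0),(0,0)]⟩,⟨0,[(18,0)]⟩),(⟨0,[(27,0)]⟩,⟨0,[(26,0)]⟩),⟨1,
  [(9,0),(2,0),(4,0)]⟩,.k,.k,(.r (-1) ⟨5,[(7,1),(7,2),(10,1),(0,1),(6,2)]⟩ ⟨1,[(0,1),(9,0),(14,2),
  (6,0)]⟩),.k,(.r (-1) ⟨5,[(7,1),(7,2),(9,5),(0,1),(0,1),(6,2)]⟩ ⟨1,[(0,1),(9,0),(14,0),(6,0)]⟩),.k,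
  ⟨false,1,⟨1,[(15,0),(9,1),(8,0)]⟩,⟨0,[(0,0)]⟩⟩,⟨true,0,⟨1,[(14,0),(2,0),(7,1)]⟩,⟨0,[(18,0),(1,
  0)]⟩⟩,⟨true,0,⟨0,[]⟩,⟨0,[(37,0)]⟩⟩,⟨true,0,⟨0,[(2,0)]⟩,⟨0,[(1,0)]⟩⟩,⟨false,1,⟨0,[(32,0),(2,0)]⟩,
  ⟨0,[(33,0)]⟩⟩,⟨true,0,⟨2,[(0,1),(1,0),(2,0),(0,1),(10,0),(7,1)]⟩,⟨0,[(3,0)]⟩⟩,[.o ⟨false,0,⟨2,[(5,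
  1),(0,0),(7,0)]⟩,⟨1,[(22,1),(5,0),(6,0)]⟩⟩,.o ⟨false,1,⟨7,[(14,3),(0,0),(0,0),(11,1),(6,3)]⟩,⟨0,
  [(19,0)]⟩⟩,.a ⟨true,0,⟨0,[(18,0)]⟩,⟨1,[(17,0),(8,0),(0,0)]⟩⟩ ⟨false,1,⟨1,[(15,0),(19,0)]⟩,⟨0,[(0,
  0),(24,0)]⟩⟩ ⟨true,0,⟨1,[(14,0),(2,0)]⟩,⟨0,[(18,0),(0,0)]⟩⟩,.o ⟨false,0,⟨0,[(11,0),(6,0),(1,0)]⟩,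
  ⟨7,[(15,0),(0,0),(0,3),(10,1),(5,3)]⟩⟩]⟩)) (.R ⟨1,true,false,false,[1,0,-1],[0,0,0,1],[0,0,0,-1,0,
  0,0,-1],(⟨0,[(25,0)]⟩,⟨0,[(26,0)]⟩),(⟨0,[(17,0)]⟩,⟨1,[(16,0),(8,0),(0,0)]⟩),⟨0,[(11,0)]⟩,.k,.k,.k,
  .k,(.r (-1) ⟨5,[(6,1),(7,2),(9,5),(0,1),(0,1),(6,2)]⟩ ⟨0,[(0,0),(16,0),(1,0),(11,0)]⟩),.k,⟨false,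
  1,⟨5,[(6,1),(7,2),(9,5),(0,1),(0,1),(6,2)]⟩,⟨0,[(0,0),(16,0),(1,0),(10,0)]⟩⟩,⟨true,0,⟨1,[(13,0),
  (2,0),(7,1)]⟩,⟨0,[(17,0),(1,0)]⟩⟩,⟨true,0,⟨0,[(32,0)]⟩,⟨0,[(31,0)]⟩⟩,⟨false,0,⟨0,[(0,0)]⟩,⟨0,[(2,
  0),(28,0),(2,0)]⟩⟩,⟨false,1,⟨3,[(14,0),(0,0),(18,1)]⟩,⟨0,[]⟩⟩,⟨true,0,⟨0,[(0,0),(30,0)]⟩,⟨0,[(2,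
  0)]⟩⟩,[]⟩)))))) (.R ⟨1,true,false,false,[1,0,-1],[0,1],[1,1,0,0,0,0,0,-1],(⟨0,[(20,0)]⟩,⟨0,[(21,
  0)]⟩),(⟨0,[(24,0)]⟩,⟨0,[(23,0)]⟩),⟨0,[(6,0)]⟩,.k,.k,.k,.k,(.r (-1) ⟨2,[(1,1),(17,2),(0,1),(0,1),
  (6,2)]⟩ ⟨0,[(4,0),(21,0)]⟩),.k,⟨true,0,⟨2,[(1,0),(0,2),(16,5),(0,0),(0,0)]⟩,⟨0,[(4,0)]⟩⟩,⟨false,1,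
  ⟨1,[(8,0),(10,1),(0,0),(0,0),(6,1)]⟩,⟨0,[(14,0)]⟩⟩,⟨false,0,⟨0,[]⟩,⟨3,[(9,0),(0,0),(18,1)]⟩⟩,
  ⟨true,0,⟨0,[(7,0)]⟩,⟨2,[(1,0),(11,1),(2,0)]⟩⟩,⟨true,0,⟨0,[(26,0)]⟩,⟨0,[(27,0)]⟩⟩,⟨false,1,⟨0,[(7,
  0),(18,0),(2,0)]⟩,⟨0,[(0,0)]⟩⟩,[]⟩)) (.Q [0,0,0,2,0,0,1,1,0,1,-1] (.p false [0,0,1] [1] (⟨0,[(20,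
  0)]⟩,⟨0,[(19,0)]⟩) .k 1 (⟨0,[]⟩,⟨0,[]⟩) .k .k) (.R ⟨1,false,false,false,[1,0,-1],[0,1],[1,1,0,0,0,
  0,0,-1],(⟨0,[(20,0)]⟩,⟨0,[(21,0)]⟩),(⟨0,[(24,0)]⟩,⟨0,[(23,0)]⟩),⟨0,[(6,0)]⟩,.k,.k,.k,.k,(.r (-1)
  ⟨0,[(19,0),(7,1),(0,0)]⟩ ⟨0,[(4,0),(21,0)]⟩),.k,⟨true,0,⟨0,[(2,0),(16,1),(7,0)]⟩,⟨0,[(4,0)]⟩⟩,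
  ⟨false,1,⟨1,[(8,0),(10,1),(0,0),(0,0),(6,1)]⟩,⟨0,[(14,0)]⟩⟩,⟨false,0,⟨0,[]⟩,⟨3,[(9,0),(0,0),(18,
  1)]⟩⟩,⟨true,0,⟨0,[(7,0)]⟩,⟨0,[(13,0),(13,0)]⟩⟩,⟨true,0,⟨0,[(26,0)]⟩,⟨0,[(27,0)]⟩⟩,⟨true,0,⟨0,[(0,
  0)]⟩,⟨0,[(13,0),(13,1)]⟩⟩,[.a ⟨true,0,⟨2,[(1,0),(18,1),(0,1)]⟩,⟨0,[(27,0)]⟩⟩ ⟨false,0,⟨0,[(2,0),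
  (16,1)]⟩,⟨7,[(2,3),(5,1),(0,0),(0,0),(3,1),(3,1),(10,5)]⟩⟩ ⟨true,0,⟨0,[(7,0),(11,0)]⟩,⟨0,[(14,0),
  (12,0)]⟩⟩,.o ⟨false,1,⟨5,[(1,1),(7,0),(0,0),(11,0),(6,2)]⟩,⟨1,[(2,0),(2,1),(7,0),(0,0),(12,1)]⟩⟩,
  .o ⟨false,1,⟨3,[(9,0),(0,0),(3,3),(13,1)]⟩,⟨0,[(5,0)]⟩⟩,.o ⟨false,0,⟨0,[(14,0)]⟩,⟨0,[(17,0),(10,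
  0)]⟩⟩]⟩) (.R ⟨1,true,false,false,[1,0,-1],[0,1],[1,1,0,0,0,0,0,-1],(⟨0,[(20,0)]⟩,⟨0,[(21,0)]⟩),
  (⟨0,[(24,0)]⟩,⟨0,[(23,0)]⟩),⟨0,[(6,0)]⟩,.k,.k,.k,.k,(.r (-1) ⟨0,[(19,0),(7,1),(0,0)]⟩ ⟨0,[(4,0),
  (21,0)]⟩),.k,⟨true,0,⟨0,[(2,0),(16,1),(7,0)]⟩,⟨0,[(4,0)]⟩⟩,⟨false,1,⟨1,[(8,0),(10,1),(0,0),(0,0),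
  (6,1)]⟩,⟨0,[(14,0)]⟩⟩,⟨false,0,⟨0,[]⟩,⟨3,[(9,0),(0,0),(18,1)]⟩⟩,⟨true,0,⟨0,[(7,0)]⟩,⟨1,[(0,0),(12,
  0),(17,0)]⟩⟩,⟨true,0,⟨0,[(26,0)]⟩,⟨0,[(27,0)]⟩⟩,⟨false,1,⟨23,[(1,15),(6,11),(0,4),(0,4),(11,1),(6,
  11)]⟩,⟨0,[(0,0)]⟩⟩,[]⟩)))))

theorem ok3 : chk (cU (-1) false 3) t3 r3 = true := by decide +kernel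

noncomputable def t4 : Tre :=
  .I [1,1,-2,-1,0,0,0,-1] t2 t3

theorem ok4 : chk (cU (-1) false 3) t4 r2 = true :=
  chk_I (e' := [0,-1,2,1,0,0,0,1]) (by decide +kernel) (by decide +kernel) ok2 ok3

noncomputable def t5 : Tre :=
  .Q [0,0,0,0,0,0,-1,0,0,0,1] (.p true [0,0,1] [] (⟨0,[(15,0)]⟩,⟨0,[(14,0)]⟩) .k 0 (⟨0,[]⟩,⟨0,[]⟩)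
  .k .k) t1 t4

theorem ok5 : chk (cU (-1) false 3) t5 l1 = true :=
  chk_Q (e' := [0,0,0,0,0,0,1,0,0,0,-1]) (by decide +kernel) (by decide +kernel) ok1 ok4

noncomputable def t6 : Tre :=
  (.Q [0,0,0,1,0,0,0,0,0,1] (.pp false [-1,1]) (.K ⟨2,[-1,1,1],0,0,(⟨0,[(1,0)]⟩,⟨0,[(15,0),(2,0)]⟩),
  .k,.k,(.r 0 ⟨0,[(2,1),(6,1),(4,0)]⟩ ⟨0,[(14,0),(7,1),(0,0)]⟩),.k,.k,[⟨0,[(0,0)]⟩,⟨0,[(8,0),(13,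
  0)]⟩,⟨1,[(9,1),(2,0),(0,0)]⟩,⟨1,[(3,0),(10,1),(0,0),(0,0)]⟩]⟩) (.Q [0,0,-1,0,0,0,1,0,0,2,-1] (.p
  false [-1,1,1] [1] (⟨0,[(1,0)]⟩,⟨0,[(15,0),(2,0)]⟩) .k 1 (⟨0,[]⟩,⟨0,[]⟩) .k .k) (.R ⟨0,false,
  false,true,[-1,1,1],[0,1],[0,1,1],(⟨0,[(2,0)]⟩,⟨0,[(16,0),(2,0)]⟩),(⟨0,[(20,0)]⟩,⟨0,[(19,0)]⟩),⟨0,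
  [(16,0)]⟩,.k,.k,.k,.k,.k,.k,⟨true,0,⟨0,[(23,0)]⟩,⟨0,[(3,0),(6,0),(4,0)]⟩⟩,⟨false,1,⟨0,[(10,0),(13,
  0)]⟩,⟨1,[(0,0),(12,0)]⟩⟩,⟨false,0,⟨0,[(15,0),(7,0)]⟩,⟨1,[(3,1),(6,1),(13,0),(0,0)]⟩⟩,⟨true,0,⟨0,
  [(9,0)]⟩,⟨3,[(0,0),(3,1),(9,0)]⟩⟩,⟨false,0,⟨0,[]⟩,⟨0,[]⟩⟩,⟨false,0,⟨0,[]⟩,⟨0,[]⟩⟩,[.o ⟨false,0,⟨0,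
  [(22,0)]⟩,⟨1,[(18,0),(4,1),(1,0)]⟩⟩,.o ⟨false,1,⟨3,[(5,0),(0,0),(15,3),(2,1)]⟩,⟨0,[(1,0)]⟩⟩,.a
  ⟨true,0,⟨0,[(0,0)]⟩,⟨0,[(10,0)]⟩⟩ ⟨false,0,⟨1,[(13,0),(0,0)]⟩,⟨1,[(24,0),(0,0)]⟩⟩ ⟨true,0,⟨0,[(10,
  0),(11,0)]⟩,⟨0,[(0,0),(0,0)]⟩⟩,.o ⟨false,0,⟨1,[(0,0),(12,0)]⟩,⟨1,[(10,1),(7,0),(5,0)]⟩⟩]⟩) (.I [0,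
  -1,0,-1,0,0,0,0,1] (.Q [0,0,0,0,0,1,0,0,0,0,0,-1] (.p false [0,0,0,1] [] (⟨0,[(9,0)]⟩,⟨1,[(8,0),
  (8,0),(0,0)]⟩) .k 0 (⟨0,[]⟩,⟨0,[]⟩) .k .k) (.R ⟨0,false,false,false,[0,0,0,1],[1,-1],[0,0,0,-1,0,
  0,0,0,1],(⟨0,[(10,0)]⟩,⟨1,[(9,0),(8,0),(0,0)]⟩),(⟨0,[(21,0)]⟩,⟨0,[(22,0)]⟩),⟨0,[(0,0)]⟩,.k,.k,(.r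
  0 ⟨0,[(1,0),(21,0),(1,0)]⟩ ⟨1,[(7,0),(7,0),(0,0),(7,1),(2,0)]⟩),(.r 0 ⟨0,[(1,0),(3,0),(6,0),(4,0),
  (6,0)]⟩ ⟨1,[(7,0),(17,1),(0,0)]⟩),.k,.k,⟨false,0,⟨0,[(1,0),(22,0)]⟩,⟨1,[(7,0),(18,0)]⟩⟩,⟨true,0,
  ⟨1,[(2,0),(7,1),(4,0)]⟩,⟨1,[(9,0),(8,0),(0,0)]⟩⟩,⟨true,0,⟨0,[(25,0)]⟩,⟨0,[(24,0)]⟩⟩,⟨false,1,⟨1,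
  [(3,1),(3,0),(2,1),(16,0)]⟩,⟨1,[(1,1),(3,1),(3,0),(2,0),(3,0),(0,1),(5,1)]⟩⟩,⟨false,0,⟨0,[]⟩,⟨0,
  []⟩⟩,⟨false,0,⟨0,[]⟩,⟨0,[]⟩⟩,[.o ⟨false,0,⟨0,[(3,0)]⟩,⟨3,[(7,0),(0,0),(15,3),(2,1)]⟩⟩,.o ⟨false,1,
  ⟨1,[(20,0),(4,1),(1,0)]⟩,⟨0,[(24,0)]⟩⟩,.a ⟨true,0,⟨1,[(9,0),(8,0),(0,0)]⟩,⟨0,[(10,0)]⟩⟩ ⟨false,0,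
  ⟨0,[(1,0)]⟩,⟨1,[(7,0),(16,1),(2,0)]⟩⟩ ⟨true,0,⟨0,[(3,0),(6,0)]⟩,⟨1,[(5,0),(3,0),(4,0),(9,0)]⟩⟩,.o
  ⟨false,0,⟨1,[(9,0),(2,0),(2,0)]⟩,⟨1,[(10,1),(9,0),(5,0)]⟩⟩]⟩) (.Q [0,1,0,0,0,0,0,0,-1,0,0,1] (.p
  true [0,0,0,1] [] (⟨0,[(10,0)]⟩,⟨1,[(9,0),(8,0),(0,0)]⟩) .k 0 (⟨0,[]⟩,⟨0,[]⟩) .k .k) (.K ⟨2,[0,0,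
  0,1],0,0,(⟨0,[(11,0)]⟩,⟨1,[(10,0),(8,0),(0,0)]⟩),.k,(.r 0 ⟨0,[(2,0),(21,0),(1,0)]⟩ ⟨1,[(8,0),(7,
  0),(0,0),(7,1),(2,0)]⟩),(.r 0 ⟨0,[(2,0),(3,0),(6,0),(4,0),(6,0)]⟩ ⟨1,[(8,0),(17,1),(0,0)]⟩),.k,.k,
  [⟨1,[(2,1),(7,0),(2,0),(3,0),(0,1),(5,1)]⟩,⟨0,[(0,0)]⟩,⟨1,[(11,1),(4,0),(0,0)]⟩,⟨1,[(10,0),(2,0),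
  (2,0)]⟩]⟩) (.R ⟨1,false,false,false,[1,0,0,-1],[1,-1],[1,0,0,0,0,0,0,0,-1],(⟨1,[(10,0),(8,0),(0,
  0)]⟩,⟨0,[(11,0)]⟩),(⟨0,[(22,0)]⟩,⟨0,[(23,0)]⟩),⟨0,[(1,0),(8,0)]⟩,.k,.k,(.r (-1) ⟨1,[(8,0),(17,1),
  (0,0)]⟩ ⟨1,[(0,1),(10,1),(4,0),(0,0),(7,1)]⟩),(.r (-1) ⟨1,[(8,0),(7,0),(0,0),(7,1),(2,0)]⟩ ⟨0,[(2,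
  0),(21,0),(1,0)]⟩),.k,.k,⟨false,1,⟨1,[(8,0),(16,1),(2,0)]⟩,⟨0,[(2,0),(21,0),(1,0)]⟩⟩,⟨true,0,⟨1,
  [(10,0),(2,0),(2,0)]⟩,⟨0,[(11,0)]⟩⟩,⟨true,0,⟨0,[]⟩,⟨0,[(30,0)]⟩⟩,⟨false,0,⟨2,[(0,0),(1,1),(1,0),
  (5,0)]⟩,⟨1,[(8,0),(2,1),(13,1),(2,0)]⟩⟩,⟨false,1,⟨0,[(25,0),(2,0)]⟩,⟨0,[(26,0)]⟩⟩,⟨false,0,⟨0,[(0,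
  0)]⟩,⟨3,[(8,2),(0,0),(1,3)]⟩⟩,[.o ⟨false,0,⟨0,[(4,0)]⟩,⟨3,[(8,0),(0,0),(15,3),(2,1)]⟩⟩,.o ⟨false,
  1,⟨1,[(21,0),(4,1),(1,0)]⟩,⟨0,[(25,0)]⟩⟩,.a ⟨true,0,⟨0,[(11,0)]⟩,⟨1,[(10,0),(8,0),(0,0)]⟩⟩ ⟨false,
  1,⟨1,[(8,0),(19,0)]⟩,⟨0,[(2,0),(22,0)]⟩⟩ ⟨true,0,⟨1,[(4,0),(5,0),(15,0)]⟩,⟨0,[(11,0),(13,0)]⟩⟩,.o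
  ⟨false,0,⟨1,[(3,0),(7,1),(4,0)]⟩,⟨7,[(8,0),(0,0),(0,3),(10,1),(5,3)]⟩⟩]⟩))) (.Q [0,0,0,1,0,0,0,0,
  1,1,0,-1] (.p false [0,0,0,1] [1] (⟨0,[(9,0)]⟩,⟨1,[(8,0),(8,0),(0,0)]⟩) .k 1 (⟨0,[]⟩,⟨0,[]⟩) .k
  .k) (.Q [0,0,0,0,0,1,0,0,0,0,0,-1] (.p false [0,0,0,1] [] (⟨0,[(10,0)]⟩,⟨1,[(9,0),(8,0),(0,0)]⟩)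
  .k 0 (⟨0,[]⟩,⟨0,[]⟩) .k .k) (.R ⟨0,false,false,false,[0,0,0,1],[1,-1],[1,1],(⟨0,[(11,0)]⟩,⟨1,[(10,
  0),(8,0),(0,0)]⟩),(⟨0,[(22,0)]⟩,⟨0,[(23,0)]⟩),⟨0,[(0,0)]⟩,.k,.k,(.x 0 ⟨1,[(3,0),(12,0),(5,1)]⟩ ⟨3,
  [(8,0),(0,0),(13,3),(3,1)]⟩),(.r 0 ⟨1,[(1,1),(1,0),(7,1),(4,0)]⟩ ⟨1,[(8,0),(17,1),(0,0)]⟩),.k,.k,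
  ⟨false,0,⟨0,[(25,0)]⟩,⟨1,[(26,1),(0,0),(0,0)]⟩⟩,⟨true,0,⟨1,[(3,0),(7,1),(4,0)]⟩,⟨1,[(10,0),(8,0),
  (0,0)]⟩⟩,⟨true,0,⟨0,[(2,0),(23,0)]⟩,⟨0,[(1,0),(2,0),(6,0)]⟩⟩,⟨false,1,⟨1,[(4,1),(3,0),(2,1),(16,
  0)]⟩,⟨0,[(1,0)]⟩⟩,⟨false,0,⟨0,[]⟩,⟨0,[]⟩⟩,⟨false,0,⟨0,[]⟩,⟨0,[]⟩⟩,[.o ⟨false,0,⟨0,[(4,0)]⟩,⟨3,[(8,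
  0),(0,0),(15,3),(2,1)]⟩⟩,.o ⟨false,1,⟨1,[(21,0),(4,1),(1,0)]⟩,⟨0,[(25,0)]⟩⟩,.a ⟨true,0,⟨1,[(10,0),
  (8,0),(0,0)]⟩,⟨0,[(11,0)]⟩⟩ ⟨false,0,⟨0,[]⟩,⟨3,[(8,0),(0,0),(18,1)]⟩⟩ ⟨true,0,⟨0,[(4,0),(6,0)]⟩,
  ⟨1,[(6,0),(3,0),(4,0),(9,0)]⟩⟩,.o ⟨false,0,⟨1,[(10,0),(2,0),(2,0)]⟩,⟨1,[(11,1),(9,0),(5,0)]⟩⟩]⟩)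
  (.Q [0,0,0,0,0,0,-1,-1,1,0,1,-1] (.p true [0,0,1] [0,0,0,1] (⟨0,[(20,0)]⟩,⟨0,[(19,0)]⟩) .k 2 (⟨0,
  [(11,0)]⟩,⟨1,[(10,0),(8,0),(0,0)]⟩) .k (.r (-1) ⟨1,[(7,0),(0,0),(4,0),(3,0),(9,0)]⟩ ⟨0,[(1,0),(2,
  0),(6,0),(6,0)]⟩)) (.K ⟨2,[0,0,0,1],0,0,(⟨0,[(12,0)]⟩,⟨1,[(11,0),(8,0),(0,0)]⟩),.k,(.x 0 ⟨1,[(4,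
  0),(12,0),(5,1)]⟩ ⟨3,[(9,0),(0,0),(13,3),(3,1)]⟩),(.r 0 ⟨1,[(2,1),(1,0),(7,1),(4,0)]⟩ ⟨1,[(9,0),
  (17,1),(0,0)]⟩),.k,.k,[⟨0,[(0,0)]⟩,⟨0,[(3,0),(8,0),(14,0)]⟩,⟨1,[(12,1),(4,0),(0,0)]⟩,⟨1,[(11,0),
  (2,0),(2,0)]⟩]⟩) (.I [1,1,-1,0,0,0,0,0,-1] (.R ⟨1,false,false,false,[1,0,0,-1],[0,0,0,1],[1,0,0,0,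
  0,0,0,0,-1],(⟨1,[(12,0),(8,0),(0,0)]⟩,⟨0,[(13,0)]⟩),(⟨0,[(13,0)]⟩,⟨1,[(12,0),(8,0),(0,0)]⟩),⟨0,
  [(2,0),(9,0)]⟩,.k,.k,(.r (-1) ⟨1,[(10,0),(17,1),(0,0)]⟩ ⟨1,[(3,1),(1,0),(7,1),(4,0)]⟩),.k,(.r
  (-1) ⟨1,[(0,1),(9,0),(17,1),(1,0)]⟩ ⟨1,[(3,3),(1,0),(0,1),(6,3),(4,0)]⟩),.k,⟨false,1,⟨1,[(0,1),(9,
  0),(19,0)]⟩,⟨0,[(3,1),(2,1),(6,1)]⟩⟩,⟨true,0,⟨0,[(12,0)]⟩,⟨1,[(5,0),(7,3),(4,0)]⟩⟩,⟨true,0,⟨0,[]⟩,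
  ⟨0,[(32,0)]⟩⟩,⟨true,0,⟨0,[(3,1),(2,0),(21,0)]⟩,⟨0,[(0,0),(0,0),(11,0),(1,0),(4,0)]⟩⟩,⟨false,1,⟨0,
  [(27,0),(2,0)]⟩,⟨0,[(28,0)]⟩⟩,⟨true,0,⟨0,[(3,1),(2,0)]⟩,⟨0,[(0,0),(0,0),(11,0),(1,0),(4,0),(7,
  0)]⟩⟩,[.o ⟨false,0,⟨0,[(3,0),(2,0)]⟩,⟨1,[(10,0),(2,1),(9,0)]⟩⟩,.o ⟨false,1,⟨5,[(3,1),(2,1),(4,1),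
  (0,1),(10,0),(6,2)]⟩,⟨0,[(1,0),(12,0)]⟩⟩,.a ⟨true,0,⟨0,[(13,0)]⟩,⟨1,[(12,0),(8,0),(0,0)]⟩⟩ ⟨false,
  1,⟨1,[(10,0),(19,0)]⟩,⟨0,[(3,0),(2,0),(6,0)]⟩⟩ ⟨true,0,⟨1,[(3,1),(2,0),(5,0),(15,0)]⟩,⟨0,[(1,0),
  (11,0),(0,0)]⟩⟩,.o ⟨false,0,⟨1,[(5,0),(7,1),(4,0)]⟩,⟨7,[(10,0),(0,0),(0,3),(10,1),(5,3)]⟩⟩]⟩) (.R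
  ⟨1,false,false,false,[1,0,0,-1],[1,0,-1],[1,1,0,0,0,0,0,0,-1],(⟨1,[(12,0),(8,0),(0,0)]⟩,⟨0,[(13,
  0)]⟩),(⟨0,[(21,0)]⟩,⟨0,[(22,0)]⟩),⟨0,[(2,0),(9,0)]⟩,.k,.k,(.r (-1) ⟨1,[(10,0),(17,1),(0,0)]⟩ ⟨0,
  [(0,0),(26,0)]⟩),.k,(.r (-1) ⟨1,[(1,1),(10,0),(2,0),(3,0),(8,1),(0,1)]⟩ ⟨0,[(0,0),(19,0),(6,0)]⟩),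
  .k,⟨true,0,⟨1,[(1,1),(10,0),(2,0),(3,0),(6,1),(1,1)]⟩,⟨0,[(0,0),(19,0)]⟩⟩,⟨false,1,⟨1,[(12,0),(2,
  0),(3,0),(9,1)]⟩,⟨2,[(0,0),(0,0),(4,0),(2,0),(3,1),(6,2),(5,0)]⟩⟩,⟨false,0,⟨0,[]⟩,⟨3,[(10,0),(0,
  0),(18,1)]⟩⟩,⟨false,1,⟨1,[(0,1),(11,0),(1,0),(2,0),(11,0),(0,0)]⟩,⟨0,[(1,0)]⟩⟩,⟨true,0,⟨0,[(27,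
  0)]⟩,⟨0,[(28,0)]⟩⟩,⟨false,1,⟨0,[(3,0),(10,0),(15,0)]⟩,⟨0,[(1,0),(26,0)]⟩⟩,[.o ⟨false,1,⟨1,[(17,1),
  (5,0),(6,0)]⟩,⟨0,[(6,0),(1,0)]⟩⟩,.o ⟨false,1,⟨0,[(14,0),(15,0)]⟩,⟨0,[(16,0)]⟩⟩,.a ⟨true,0,⟨0,[(13,
  0)]⟩,⟨1,[(12,0),(8,0),(0,0)]⟩⟩ ⟨true,0,⟨0,[(4,0),(23,0)]⟩,⟨0,[(3,0),(2,0),(6,0)]⟩⟩ ⟨false,1,⟨1,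
  [(12,0),(1,0),(2,0),(12,1)]⟩,⟨2,[(0,0),(0,0),(4,0),(2,0),(3,1),(12,0)]⟩⟩,.o ⟨false,0,⟨1,[(5,0),(7,
  1),(4,0)]⟩,⟨7,[(10,0),(0,0),(0,3),(10,1),(5,3)]⟩⟩]⟩)))) (.I [0,1,0,0,0,0,0,0,1] (.Q [0,0,0,0,0,0,
  -1,-1,-1,-1,1,1] (.p true [0,0,1] [1,0,0,-1] (⟨0,[(20,0)]⟩,⟨0,[(19,0)]⟩) .k 2 (⟨1,[(10,0),(8,0),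
  (0,0)]⟩,⟨0,[(11,0)]⟩) .k (.x 0 ⟨0,[(4,0),(1,0),(11,0),(1,0)]⟩ ⟨3,[(8,0),(0,0),(3,3),(5,3),(7,
  1)]⟩)) (.K ⟨2,[1,0,0,-1],0,0,(⟨1,[(11,0),(8,0),(0,0)]⟩,⟨0,[(12,0)]⟩),.k,(.x 0 ⟨1,[(4,0),(12,0),(5,
  1)]⟩ ⟨3,[(9,0),(0,0),(13,3),(3,1)]⟩),(.r 0 ⟨1,[(0,1),(6,1),(3,0),(2,0),(2,0)]⟩ ⟨1,[(10,0),(16,1),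
  (0,0)]⟩),.k,.k,[⟨0,[(0,0)]⟩,⟨1,[(1,1),(9,0),(8,0),(0,0)]⟩,⟨1,[(11,0),(5,0),(0,0),(1,0),(0,0)]⟩,⟨1,
  [(4,0),(7,1),(4,0)]⟩]⟩) (.I [0,-1,-1,0,1,0,0,0,1] (.Q [0,0,0,0,0,1,0,0,0,0,0,-1] (.p false [0,0,0,
  1] [] (⟨0,[(13,0)]⟩,⟨1,[(12,0),(8,0),(0,0)]⟩) .k 0 (⟨0,[]⟩,⟨0,[]⟩) .k .k) (.R ⟨0,false,false,true,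
  [0,0,0,1],[1,0,-1],[1,1,1],(⟨0,[(14,0)]⟩,⟨1,[(13,0),(8,0),(0,0)]⟩),(⟨0,[(22,0)]⟩,⟨0,[(23,0)]⟩),⟨0,
  [(0,0)]⟩,.k,.k,(.x 0 ⟨1,[(6,0),(12,0),(5,1)]⟩ ⟨3,[(11,0),(0,0),(13,3),(3,1)]⟩),.k,.k,.k,⟨true,0,
  ⟨1,[(10,0),(5,0),(3,0)]⟩,⟨0,[(21,0)]⟩⟩,⟨false,1,⟨0,[(14,0),(1,0),(13,0)]⟩,⟨1,[(10,0),(2,0),(7,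
  1)]⟩⟩,⟨false,0,⟨1,[(4,1),(4,1),(3,0),(2,0),(3,0),(0,1)]⟩,⟨0,[(1,0)]⟩⟩,⟨true,0,⟨0,[(4,0),(15,0),(0,
  0),(5,0)]⟩,⟨0,[(2,0)]⟩⟩,⟨false,0,⟨0,[]⟩,⟨0,[]⟩⟩,⟨false,0,⟨0,[]⟩,⟨0,[]⟩⟩,[.o ⟨false,0,⟨0,[(15,0)]⟩,
  ⟨7,[(10,3),(0,0),(0,0),(11,1),(6,3)]⟩⟩,.o ⟨false,1,⟨1,[(18,1),(5,0),(6,0)]⟩,⟨0,[(7,0),(1,0)]⟩⟩,.a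
  ⟨true,0,⟨1,[(13,0),(8,0),(0,0)]⟩,⟨0,[(14,0)]⟩⟩ ⟨false,0,⟨1,[(19,0),(0,0)]⟩,⟨1,[(30,0),(0,0)]⟩⟩
  ⟨true,0,⟨0,[(14,0),(0,0)]⟩,⟨1,[(10,0),(2,0)]⟩⟩,.o ⟨false,0,⟨1,[(13,0),(2,0),(2,0)]⟩,⟨1,[(14,1),(9,
  0),(5,0)]⟩⟩]⟩) (.Q [0,0,0,-1,0,0,-1,-1,-1,-2,1,1] (.p true [-1,1,1] [1,0,0,-1] (⟨0,[(8,0)]⟩,⟨0,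
  [(22,0),(2,0)]⟩) .k 2 (⟨1,[(13,0),(8,0),(0,0)]⟩,⟨0,[(14,0)]⟩) .k (.x 0 ⟨0,[(7,0),(1,0),(11,0),(1,
  0)]⟩ ⟨3,[(11,0),(0,0),(3,3),(5,3),(7,1)]⟩)) (.R ⟨1,true,false,false,[0,0,0,1],[2,-1,-1],[1,1,0,0,
  0,0,0,0,1],(⟨0,[(15,0)]⟩,⟨1,[(14,0),(8,0),(0,0)]⟩),(⟨0,[(23,0),(2,0)]⟩,⟨0,[(9,0)]⟩),⟨0,[(1,0)]⟩,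
  .k,.k,(.r (-1) ⟨1,[(13,0),(16,1),(0,0)]⟩ ⟨1,[(0,1),(9,3),(3,0),(2,0),(3,0),(0,1)]⟩),(.x (-1) ⟨3,
  [(9,1),(1,1),(0,0),(0,0),(8,3),(1,1),(2,1),(3,1)]⟩ ⟨0,[(7,0),(15,0),(2,0)]⟩),.k,.k,⟨false,0,⟨0,
  [(3,0),(11,0),(1,0),(10,0)]⟩,⟨1,[(5,1),(8,0),(7,1),(0,0),(0,0),(6,0),(0,0)]⟩⟩,⟨true,0,⟨0,[(7,0),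
  (7,0)]⟩,⟨1,[(11,0),(2,0),(7,1),(0,1),(0,1)]⟩⟩,⟨false,0,⟨0,[]⟩,⟨3,[(12,0),(0,0),(18,1)]⟩⟩,⟨true,0,
  ⟨0,[(0,0)]⟩,⟨0,[(3,0),(6,0),(8,0)]⟩⟩,⟨true,0,⟨0,[(29,0)]⟩,⟨0,[(30,0)]⟩⟩,⟨false,1,⟨0,[(0,0),(28,0),
  (2,0)]⟩,⟨0,[(3,0),(19,0),(0,0)]⟩⟩,[]⟩) (.Q [0,0,0,0,0,0,0,0,1,1,0,-1] (.p false [0,0,0,1] [1] (⟨0,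
  [(15,0)]⟩,⟨1,[(14,0),(8,0),(0,0)]⟩) .k 1 (⟨0,[]⟩,⟨0,[]⟩) .k .k) (.R ⟨2,true,false,false,[0,1],[1,
  0,0,-1],[0,1,1],(⟨0,[]⟩,⟨0,[]⟩),(⟨1,[(15,0),(8,0),(0,0)]⟩,⟨0,[(16,0)]⟩),⟨0,[]⟩,.k,.k,.k,(.r 0 ⟨0,
  [(1,0),(6,0),(7,0),(6,0)]⟩ ⟨1,[(13,0),(17,1),(0,0)]⟩),.k,.k,⟨false,0,⟨0,[(5,0)]⟩,⟨1,[(6,1),(8,0),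
  (8,0),(0,0),(3,1),(3,1)]⟩⟩,⟨true,0,⟨1,[(8,0),(7,1),(4,0)]⟩,⟨1,[(15,0),(8,0),(0,0)]⟩⟩,⟨false,0,⟨0,
  [(31,0)]⟩,⟨0,[(30,0),(2,0)]⟩⟩,⟨true,0,⟨0,[(6,0)]⟩,⟨0,[(0,0),(29,0)]⟩⟩,⟨true,0,⟨0,[(35,0)]⟩,⟨0,
  []⟩⟩,⟨false,1,⟨3,[(6,1),(0,1),(8,1),(9,0),(6,2)]⟩,⟨0,[(0,0)]⟩⟩,[]⟩) (.R ⟨1,false,false,false,[0,0,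
  0,1],[2,-1,-1],[1,1,0,0,0,0,0,0,1],(⟨0,[(16,0)]⟩,⟨1,[(15,0),(8,0),(0,0)]⟩),(⟨0,[(24,0),(2,0)]⟩,⟨0,
  [(10,0)]⟩),⟨0,[(2,0)]⟩,.k,.k,(.r (-1) ⟨1,[(14,0),(16,1),(0,0)]⟩ ⟨1,[(0,1),(10,1),(3,0),(2,0),(3,
  0),(0,1)]⟩),(.r 0 ⟨0,[(1,0),(6,0),(7,0)]⟩ ⟨1,[(13,0),(9,1),(7,1),(0,0)]⟩),.k,.k,⟨false,0,⟨0,[(4,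
  0),(11,0),(1,0),(10,0)]⟩,⟨1,[(6,1),(8,0),(7,1),(0,0),(0,0),(6,0),(0,0)]⟩⟩,⟨true,0,⟨0,[(8,0),(7,
  0)]⟩,⟨1,[(12,0),(2,0),(7,1),(0,1),(0,1)]⟩⟩,⟨false,0,⟨0,[]⟩,⟨3,[(13,0),(0,0),(18,1)]⟩⟩,⟨false,1,⟨0,
  [(6,0),(10,0),(15,0)]⟩,⟨0,[(1,0)]⟩⟩,⟨true,0,⟨0,[(30,0)]⟩,⟨0,[(31,0)]⟩⟩,⟨false,1,⟨0,[(0,0),(16,0),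
  (15,0)]⟩,⟨0,[(1,0),(29,0)]⟩⟩,[.o ⟨false,1,⟨1,[(9,1),(10,1),(5,0),(6,0)]⟩,⟨0,[(11,0)]⟩⟩,.o ⟨false,
  1,⟨0,[(9,0),(7,0),(15,0)]⟩,⟨0,[(11,0),(23,0)]⟩⟩,.a ⟨true,0,⟨1,[(15,0),(8,0),(0,0)]⟩,⟨0,[(16,0)]⟩⟩
  ⟨true,0,⟨0,[(5,0)]⟩,⟨1,[(0,1),(14,0),(8,0),(0,0)]⟩⟩ ⟨false,1,⟨2,[(3,1),(2,1),(1,1),(7,0),(3,0),(2,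
  1),(7,0),(1,0)]⟩,⟨1,[(11,1),(3,0),(8,0),(0,0)]⟩⟩,.o ⟨false,0,⟨1,[(15,0),(2,0),(2,0)]⟩,⟨1,[(0,1),
  (13,0),(17,0)]⟩⟩]⟩)))) (.Q [0,0,0,0,0,1,0,0,0,0,0,-1] (.p false [0,0,0,1] [] (⟨0,[(13,0)]⟩,⟨1,
  [(12,0),(8,0),(0,0)]⟩) .k 0 (⟨0,[]⟩,⟨0,[]⟩) .k .k) (.R ⟨0,false,false,true,[0,0,0,1],[0,1],[1,1,
  1],(⟨0,[(14,0)]⟩,⟨1,[(13,0),(8,0),(0,0)]⟩),(⟨0,[(26,0)]⟩,⟨0,[(25,0)]⟩),⟨0,[(0,0)]⟩,.k,.k,(.r (-1)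
  ⟨1,[(12,0),(16,1),(0,0)]⟩ ⟨0,[(1,0),(26,0),(2,0)]⟩),(.r (-1) ⟨1,[(12,0),(16,1),(0,0)]⟩ ⟨0,[(1,0),
  (26,0),(2,0)]⟩),.k,.k,⟨true,0,⟨0,[(29,0)]⟩,⟨0,[(9,0),(6,0),(4,0)]⟩⟩,⟨false,1,⟨0,[(14,0),(15,0)]⟩,
  ⟨1,[(13,0),(2,0),(2,0)]⟩⟩,⟨true,(-1),⟨0,[(1,0)]⟩,⟨1,[(12,0),(17,0)]⟩⟩,⟨false,0,⟨0,[(1,0),(12,0),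
  (12,0),(3,0)]⟩,⟨1,[(7,0),(4,0),(0,0),(15,0),(1,0)]⟩⟩,⟨false,0,⟨0,[]⟩,⟨0,[]⟩⟩,⟨false,0,⟨0,[]⟩,⟨0,
  []⟩⟩,[.o ⟨false,0,⟨0,[(28,0)]⟩,⟨1,[(24,0),(4,1),(1,0)]⟩⟩,.o ⟨false,1,⟨3,[(11,0),(0,0),(15,3),(2,
  1)]⟩,⟨0,[(7,0)]⟩⟩,.a ⟨true,0,⟨1,[(13,0),(8,0),(0,0)]⟩,⟨0,[(14,0)]⟩⟩ ⟨false,0,⟨1,[(19,0),(0,0)]⟩,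
  ⟨1,[(30,0),(0,0)]⟩⟩ ⟨true,0,⟨0,[(14,0),(13,0)]⟩,⟨1,[(7,0),(5,0),(15,0)]⟩⟩,.o ⟨false,0,⟨1,[(13,0),
  (2,0),(2,0)]⟩,⟨1,[(14,1),(9,0),(5,0)]⟩⟩]⟩) (.R ⟨1,false,false,false,[0,0,0,1],[1,0,-1],[1,1,0,0,0,
  0,0,0,1],(⟨0,[(14,0)]⟩,⟨1,[(13,0),(8,0),(0,0)]⟩),(⟨0,[(22,0)]⟩,⟨0,[(23,0)]⟩),⟨0,[(0,0)]⟩,.k,.k,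
  (.r (-1) ⟨1,[(12,0),(16,1),(0,0)]⟩ ⟨0,[(1,0),(26,0),(2,0)]⟩),.k,(.r (-1) ⟨0,[(2,0),(11,0),(1,0),
  (12,0),(0,0)]⟩ ⟨0,[(1,0),(19,0),(6,0),(2,0)]⟩),.k,⟨true,0,⟨0,[(2,0),(11,0),(1,0),(10,0),(1,0)]⟩,
  ⟨0,[(1,0),(19,0),(9,0)]⟩⟩,⟨false,1,⟨0,[(14,0),(1,0),(13,0)]⟩,⟨1,[(10,0),(2,0),(7,1)]⟩⟩,⟨false,0,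
  ⟨0,[]⟩,⟨3,[(11,0),(0,0),(18,1)]⟩⟩,⟨false,1,⟨1,[(1,0),(2,0),(9,0),(0,0),(2,0),(8,0),(3,2)]⟩,⟨0,[(2,
  0)]⟩⟩,⟨true,0,⟨0,[(28,0)]⟩,⟨0,[(29,0)]⟩⟩,⟨false,1,⟨0,[(1,0),(12,0),(0,0),(11,0),(3,1)]⟩,⟨0,[(2,0),
  (26,0)]⟩⟩,[.o ⟨false,1,⟨1,[(18,1),(5,0),(6,0)]⟩,⟨0,[(7,0),(1,0)]⟩⟩,.o ⟨false,1,⟨0,[(15,0),(15,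
  0)]⟩,⟨0,[(17,0)]⟩⟩,.a ⟨true,0,⟨1,[(13,0),(8,0),(0,0)]⟩,⟨0,[(14,0)]⟩⟩ ⟨true,0,⟨0,[(3,0)]⟩,⟨1,[(1,
  1),(28,0),(0,0)]⟩⟩ ⟨false,1,⟨0,[(14,0),(0,0),(15,0)]⟩,⟨1,[(10,0),(2,0)]⟩⟩,.o ⟨false,0,⟨1,[(13,0),
  (2,0),(2,0)]⟩,⟨1,[(14,1),(9,0),(5,0)]⟩⟩]⟩)))) (.Q [0,0,0,0,0,1,0,0,0,0,0,-1] (.p false [0,0,0,1]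
  [] (⟨0,[(11,0)]⟩,⟨1,[(10,0),(8,0),(0,0)]⟩) .k 0 (⟨0,[]⟩,⟨0,[]⟩) .k .k) (.R ⟨0,false,false,false,
  [0,0,0,1],[1,-1],[1,0,0,0,0,0,0,0,1],(⟨0,[(12,0)]⟩,⟨1,[(11,0),(8,0),(0,0)]⟩),(⟨0,[(23,0)]⟩,⟨0,
  [(24,0)]⟩),⟨0,[(0,0)]⟩,.k,.k,(.r (-1) ⟨1,[(10,0),(16,1),(0,0)]⟩ ⟨1,[(1,1),(15,0),(0,0),(7,1)]⟩),
  (.r (-1) ⟨1,[(10,0),(6,0),(0,0),(7,1),(2,0)]⟩ ⟨0,[(1,0),(23,0),(1,1)]⟩),.k,.k,⟨false,1,⟨1,[(10,0),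
  (15,1),(2,0)]⟩,⟨0,[(1,0),(23,0),(1,1)]⟩⟩,⟨true,0,⟨1,[(4,0),(7,1),(4,0)]⟩,⟨1,[(11,0),(8,0),(0,
  0)]⟩⟩,⟨true,0,⟨0,[]⟩,⟨0,[(31,0)]⟩⟩,⟨false,0,⟨0,[(1,0),(3,0),(6,0)]⟩,⟨1,[(7,0),(2,0),(0,0),(4,0),
  (9,0),(2,0)]⟩⟩,⟨false,0,⟨0,[]⟩,⟨0,[]⟩⟩,⟨false,0,⟨0,[]⟩,⟨0,[]⟩⟩,[.o ⟨false,0,⟨0,[(5,0)]⟩,⟨3,[(9,0),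
  (0,0),(15,3),(2,1)]⟩⟩,.o ⟨false,1,⟨1,[(22,0),(4,1),(1,0)]⟩,⟨0,[(26,0)]⟩⟩,.a ⟨true,0,⟨1,[(11,0),(8,
  0),(0,0)]⟩,⟨0,[(12,0)]⟩⟩ ⟨false,1,⟨1,[(10,0),(18,0)]⟩,⟨7,[(1,3),(0,1),(0,1),(4,0),(2,0),(4,1)]⟩⟩
  ⟨true,0,⟨0,[(5,0),(6,0)]⟩,⟨1,[(7,0),(3,0),(4,0),(9,0)]⟩⟩,.o ⟨false,0,⟨1,[(11,0),(2,0),(2,0)]⟩,⟨1,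
  [(12,1),(9,0),(5,0)]⟩⟩]⟩) (.R ⟨1,false,false,true,[1,0,0,-1],[2,-1,-1],[1,1,0,0,0,0,0,0,-1],(⟨1,
  [(11,0),(8,0),(0,0)]⟩,⟨0,[(12,0)]⟩),(⟨0,[(20,0),(2,0)]⟩,⟨0,[(6,0)]⟩),⟨0,[(0,0),(10,0)]⟩,.k,.k,(.r
  0 ⟨0,[(1,0),(23,0),(1,1)]⟩ ⟨1,[(10,0),(6,0),(0,0),(7,1),(2,0)]⟩),(.r 0 ⟨3,[(1,1),(1,1),(3,1),(0,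
  0),(5,2),(3,0)]⟩ ⟨1,[(10,0),(8,1),(7,1),(0,0)]⟩),.k,.k,⟨false,0,⟨1,[(1,1),(6,0),(5,0),(3,0),(6,
  1)]⟩,⟨1,[(10,0),(8,1),(7,1),(0,0)]⟩⟩,⟨true,0,⟨1,[(4,0),(6,0),(2,0)]⟩,⟨1,[(8,0),(3,1),(6,1),(0,0),
  (0,0)]⟩⟩,⟨false,0,⟨0,[]⟩,⟨3,[(9,0),(0,0),(18,1)]⟩⟩,⟨false,1,⟨1,[(5,1),(4,0),(0,0),(1,0),(2,0),(12,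
  0)]⟩,⟨0,[(1,0),(5,0),(4,0)]⟩⟩,⟨true,0,⟨0,[(26,0)]⟩,⟨0,[(27,0)]⟩⟩,⟨false,1,⟨3,[(4,1),(5,1),(0,1),
  (1,1),(5,1),(8,0),(0,0)]⟩,⟨1,[(1,1),(6,0),(3,1),(7,0),(0,0)]⟩⟩,[.o ⟨false,0,⟨0,[(5,0),(7,0)]⟩,⟨3,
  [(7,3),(1,0),(0,0),(18,1)]⟩⟩,.o ⟨false,1,⟨1,[(5,1),(10,1),(5,0),(6,0)]⟩,⟨0,[(7,0)]⟩⟩,.a ⟨true,0,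
  ⟨0,[(12,0)]⟩,⟨1,[(11,0),(8,0),(0,0)]⟩⟩ ⟨false,0,⟨7,[(1,3),(0,1),(0,1),(4,0),(2,0),(4,1)]⟩,⟨1,[(10,
  0),(18,0)]⟩⟩ ⟨true,0,⟨1,[(5,1),(5,0),(1,0),(2,0)]⟩,⟨0,[(7,0),(4,0)]⟩⟩,.o ⟨false,0,⟨1,[(4,0),(7,1),
  (4,0)]⟩,⟨7,[(9,0),(0,0),(0,3),(10,1),(5,3)]⟩⟩]⟩)))))))

theorem ok6 : chk (cU (-1) false 3) t6 r1 = true := by decide +kernel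

noncomputable def t7 : Tre :=
  .Q [0,0,0,0,0,-1,0,0,0,1,-1] (.ed true [0,1,1] .k) t5 t6

theorem ok7 : chk (cU (-1) false 3) t7 r0 = true :=
  chk_Q (e' := [0,0,0,0,0,1,0,0,0,-1,1]) (by decide +kernel) (by decide +kernel) ok5 ok6

noncomputable def t8 : Tre :=
  .Q [0,0,0,-1,0,0,-1,-1,0,-1,1] (.p true [0,0,1] [1] (⟨0,[(13,0)]⟩,⟨0,[(12,0)]⟩) .k 1 (⟨0,[]⟩,⟨0,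
  []⟩) .k .k) t0 t7

theorem ok8 : chk (cU (-1) false 3) t8 base = true :=
  chk_Q (e' := [0,0,0,1,0,0,1,1,0,1,-1]) (by decide +kernel) (by decide +kernel) ok0 ok7

theorem ok : chkB (cU (-1) false 3) (fax (fcU (-1)) false 1 (-1) 3 false (tU false)) t8 base = true :=
  chkB_of (by decide +kernel) ok8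

end Helper11.CT.Tm1_1_m1_m1_v
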