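import Pool.Agent.Helper11.CT.Cfg
import Pool.Agent.Helper11.CT.Cut

set_option autoImplicit false
set_option linter.all false

namespace Helper11.CT.Tm1_1_m1_m1_v2

open Helper11.CT

noncomputable def base : List Con :=
  [(false,[0,0,0,0,0,2,2,0,-2,2]),
  (false,[0,0,0,0,0,0,0,0,0,1]),
  (false,[0,1,0,0,0,-1,-1,0,1,-2]),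
  (false,[0,0,1,0,0,-1,0,0,1,-2]),
  (false,[0,1,0,0,0,1,1,0,-1]),
  (false,[0,1,0,0,0,-1,-1,0,1]),
  (false,[0,0,1,0,0,1,0,0,-1]),
  (false,[0,0,1,0,0,-1,0,0,1]),
  (true,[0,0,0,0,0,0,-1]),
  (false,[0,0,0,0,0,0,0,0,-1,2]),
  (false,[0,0,0,0,0,0,0,0,1]),
  (false,[0,0,0,0,0,0,0,2,0,-4]),
  (false,[0,0,0,0,-1,0,0,0,0,2]),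
  (true,[0,0,0,0,1]),
  (true,[0,1,-1,1]),
  (true,[0,1,0,1]),
  (true,[0,0,0,-1]),
  (true,[0,0,-2,0,0,0,0,2]),
  (true,[0,-2,0,0,0,0,0,2]),
  (true,[-1,0,1]),
  (true,[-1,1])]

noncomputable def t0 : Tre :=
  (.Q [0,1,0,0,0,0,0,-1,0,1] (.p true [0,0,0,1] [] (⟨0,[(1,0)]⟩,⟨0,[(1,0)]⟩) .k 0 (⟨0,[]⟩,⟨0,[]⟩)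
  .k .k) (.K ⟨1,[0,0,0,1],0,0,(⟨0,[(2,0)]⟩,⟨0,[(2,0)]⟩),.k,(.r 0 ⟨1,[(17,1),(0,0)]⟩ ⟨1,[(7,0),(0,0),
  (7,1),(2,0)]⟩),(.r 0 ⟨1,[(7,0),(0,0),(7,1),(2,0)]⟩ ⟨1,[(17,1),(0,0)]⟩),.k,.k,[⟨1,[(7,0),(0,0),(1,
  0),(0,0)]⟩,⟨1,[(4,0),(2,0)]⟩,⟨0,[(0,0)]⟩,⟨1,[(10,0),(0,0),(7,0)]⟩]⟩) (.Q [0,0,0,-1,0,-1,-1,0,1,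
  -2] (.p true [0,0,1] [1] (⟨0,[(11,0)]⟩,⟨0,[(10,0)]⟩) .k 1 (⟨0,[]⟩,⟨0,[]⟩) .k .k) (.R ⟨2,true,
  false,true,[0,1],[1,0,-1],[0,0,1],(⟨0,[]⟩,⟨0,[]⟩),(⟨0,[(11,0)]⟩,⟨0,[(12,0)]⟩),⟨0,[]⟩,.k,.k,.k,.k,
  .k,.k,⟨false,1,⟨1,[(2,0),(2,0),(3,0),(9,0),(0,0)]⟩,⟨0,[(10,0),(5,0),(1,0)]⟩⟩,⟨true,0,⟨0,[(5,0)]⟩,
  ⟨1,[(2,0),(7,1),(0,0),(0,0)]⟩⟩,⟨true,0,⟨0,[(18,0)]⟩,⟨0,[(17,0)]⟩⟩,⟨false,0,⟨0,[(0,0)]⟩,⟨1,[(2,0),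
  (8,0),(0,0),(4,1),(2,1)]⟩⟩,⟨false,1,⟨5,[(2,1),(4,3),(5,0),(6,4)]⟩,⟨0,[]⟩⟩,⟨true,0,⟨0,[(4,0)]⟩,⟨1,
  [(2,0),(8,0),(0,0)]⟩⟩,[]⟩) (.Q [0,0,-1,0,0,0,0,0,0,2] (.pp false [-1,1]) (.R ⟨2,false,false,false,
  [0,1],[0,0,0,1],[0,0,1],(⟨0,[]⟩,⟨0,[]⟩),(⟨0,[(4,0)]⟩,⟨0,[(4,0)]⟩),⟨0,[]⟩,.k,.k,.k,(.r (-1) ⟨1,[(9,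
  0),(0,0),(7,1),(2,0)]⟩ ⟨1,[(19,1),(0,0)]⟩),.k,.k,⟨false,1,⟨5,[(3,1),(4,3),(5,0),(6,1)]⟩,⟨1,[(20,
  0)]⟩⟩,⟨true,0,⟨1,[(6,0),(2,0)]⟩,⟨0,[(4,0)]⟩⟩,⟨true,0,⟨0,[(19,0)]⟩,⟨0,[(18,0)]⟩⟩,⟨false,0,⟨0,[(2,
  0),(16,0)]⟩,⟨1,[(1,0),(6,0),(9,0),(2,0)]⟩⟩,⟨false,1,⟨5,[(3,1),(4,3),(5,0),(6,4)]⟩,⟨0,[]⟩⟩,⟨false,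
  0,⟨0,[(2,0)]⟩,⟨1,[(3,0),(4,1),(12,0)]⟩⟩,[.o ⟨false,0,⟨5,[(3,0),(4,1),(5,1),(6,0)]⟩,⟨5,[(3,0),(4,
  1),(5,1),(6,0)]⟩⟩,.o ⟨false,0,⟨0,[(2,0)]⟩,⟨1,[(3,0),(4,1),(5,0)]⟩⟩,.a ⟨true,0,⟨0,[(0,0)]⟩,⟨1,[(9,
  0),(0,0)]⟩⟩ ⟨true,0,⟨1,[(9,0),(0,0)]⟩,⟨0,[(17,0),(1,0)]⟩⟩ ⟨false,0,⟨1,[(6,0),(2,0),(11,0)]⟩,⟨5,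
  [(0,1),(2,0),(4,1),(11,1),(0,0)]⟩⟩,.e ⟨false,1,⟨5,[(3,1),(4,3),(5,0),(6,4)]⟩,⟨0,[]⟩⟩ ⟨false,0,⟨0,
  [(2,0)]⟩,⟨1,[(3,0),(4,1),(12,0)]⟩⟩]⟩) (.Q [0,0,0,0,1,0,0,0,0,-1] (.p false [0,0,0,1] [] (⟨0,[(4,
  0)]⟩,⟨0,[(4,0)]⟩) .k 0 (⟨0,[]⟩,⟨0,[]⟩) .k .k) (.Q [0,0,0,0,0,-1,-1,0,1] (.p true [0,0,1] [] (⟨0,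
  [(14,0)]⟩,⟨0,[(13,0)]⟩) .k 0 (⟨0,[]⟩,⟨0,[]⟩) .k .k) (.R ⟨0,false,false,true,[0,0,0,1],[0,0,1],[0,
  1,0,0,0,0,0,1],(⟨0,[(6,0)]⟩,⟨0,[(6,0)]⟩),(⟨0,[(15,0)]⟩,⟨0,[(14,0)]⟩),⟨0,[(1,0)]⟩,.k,.k,(.r 0 ⟨1,
  [(21,1),(0,0)]⟩ ⟨1,[(11,0),(0,0),(7,1),(2,0)]⟩),.k,.k,.k,⟨false,0,⟨1,[(13,1),(8,0)]⟩,⟨1,[(5,0),(2,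
  0),(3,0),(9,0)]⟩⟩,⟨true,0,⟨1,[(5,0),(7,1)]⟩,⟨1,[(8,0),(3,0)]⟩⟩,⟨true,0,⟨0,[(25,0)]⟩,⟨0,[]⟩⟩,
  ⟨false,1,⟨5,[(5,4),(4,3),(5,0),(6,1)]⟩,⟨0,[(0,0),(3,0)]⟩⟩,⟨false,0,⟨0,[]⟩,⟨0,[]⟩⟩,⟨false,0,⟨0,[]⟩,
  ⟨0,[]⟩⟩,[.o ⟨false,0,⟨0,[(9,0)]⟩,⟨1,[(0,1),(15,0),(6,0)]⟩⟩,.a ⟨true,0,⟨1,[(5,0),(8,0),(0,0)]⟩,⟨0,
  [(0,0)]⟩⟩ ⟨false,0,⟨1,[(22,0)]⟩,⟨5,[(5,1),(4,3),(5,0),(6,1)]⟩⟩ ⟨true,0,⟨1,[(5,0)]⟩,⟨1,[(0,1),(7,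
  0),(2,0)]⟩⟩,.e ⟨false,0,⟨5,[(5,1),(4,3),(5,0),(6,1)]⟩,⟨1,[(23,0)]⟩⟩ ⟨false,0,⟨1,[(5,0)]⟩,⟨3,[(0,
  1),(9,1),(5,0),(6,2)]⟩⟩,.o ⟨false,0,⟨1,[(8,0),(2,0)]⟩,⟨5,[(5,0),(4,1),(5,1),(5,2),(0,0)]⟩⟩]⟩) (.R
  ⟨0,false,false,false,[0,0,0,1],[0,0,1],[1,0,0,0,0,0,0,1],(⟨0,[(6,0)]⟩,⟨0,[(6,0)]⟩),(⟨0,[(15,0)]⟩,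
  ⟨0,[(14,0)]⟩),⟨0,[(1,0)]⟩,.k,.k,(.r 0 ⟨1,[(21,1),(0,0)]⟩ ⟨1,[(11,0),(0,0),(7,1),(2,0)]⟩),.k,.k,.k,
  ⟨false,0,⟨1,[(13,1),(8,0)]⟩,⟨1,[(5,0),(2,0),(3,0),(9,0)]⟩⟩,⟨true,0,⟨1,[(5,0),(7,1)]⟩,⟨1,[(8,0),(3,
  0)]⟩⟩,⟨true,0,⟨0,[]⟩,⟨0,[(25,0)]⟩⟩,⟨false,1,⟨1,[(5,0),(17,0)]⟩,⟨1,[(7,0),(2,0),(12,0)]⟩⟩,⟨false,0,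
  ⟨0,[]⟩,⟨0,[]⟩⟩,⟨false,0,⟨0,[]⟩,⟨0,[]⟩⟩,[.o ⟨false,0,⟨0,[(0,0)]⟩,⟨1,[(10,1),(5,0),(6,0)]⟩⟩,.o
  ⟨false,1,⟨2,[(5,1),(4,0),(5,0),(6,1)]⟩,⟨0,[(7,0)]⟩⟩,.a ⟨true,0,⟨0,[(6,0)]⟩,⟨0,[(6,0)]⟩⟩ ⟨false,0,
  ⟨1,[(23,0)]⟩,⟨5,[(5,1),(4,3),(5,0),(6,1)]⟩⟩ ⟨true,0,⟨1,[(5,0)]⟩,⟨1,[(7,0),(2,0)]⟩⟩,.o ⟨false,0,⟨1,
  [(8,0),(2,0)]⟩,⟨5,[(5,0),(4,1),(5,1),(5,2),(0,0)]⟩⟩]⟩)) (.Q [0,0,0,0,0,-1,-1,0,1] (.p true [0,0,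
  1] [] (⟨0,[(14,0)]⟩,⟨0,[(13,0)]⟩) .k 0 (⟨0,[]⟩,⟨0,[]⟩) .k .k) (.R ⟨1,false,false,true,[0,0,0,1],
  [0,0,1],[1,1,0,0,0,0,0,1],(⟨0,[(6,0)]⟩,⟨0,[(6,0)]⟩),(⟨0,[(15,0)]⟩,⟨0,[(14,0)]⟩),⟨0,[(1,0)]⟩,.k,.k,
  (.r 0 ⟨1,[(21,1),(0,0)]⟩ ⟨1,[(11,0),(0,0),(7,1),(2,0)]⟩),.k,(.r 0 ⟨1,[(13,1),(7,1),(0,0)]⟩ ⟨1,[(3,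
  1),(8,1),(3,0)]⟩),.k,⟨false,0,⟨1,[(13,1),(8,0)]⟩,⟨1,[(5,0),(2,0),(3,0),(9,0)]⟩⟩,⟨true,0,⟨1,[(5,0),
  (7,1)]⟩,⟨1,[(8,0),(3,0)]⟩⟩,⟨false,0,⟨0,[]⟩,⟨5,[(5,1),(4,3),(5,0),(6,4)]⟩⟩,⟨false,1,⟨5,[(5,4),(4,
  3),(5,0),(6,1)]⟩,⟨0,[(0,0),(3,0)]⟩⟩,⟨true,0,⟨0,[(20,0)]⟩,⟨0,[(21,0)]⟩⟩,⟨false,1,⟨1,[(5,0),(14,1),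
  (2,0)]⟩,⟨0,[(0,0),(3,0),(16,0)]⟩⟩,[.o ⟨false,0,⟨0,[(9,0)]⟩,⟨1,[(0,1),(15,0),(6,0)]⟩⟩,.a ⟨true,0,
  ⟨1,[(5,0),(8,0),(0,0)]⟩,⟨0,[(0,0)]⟩⟩ ⟨false,0,⟨1,[(22,0)]⟩,⟨5,[(5,1),(4,3),(5,0),(6,1)]⟩⟩ ⟨true,0,
  ⟨1,[(5,0)]⟩,⟨1,[(0,1),(7,0),(2,0)]⟩⟩,.e ⟨false,0,⟨5,[(5,1),(4,3),(5,0),(6,1)]⟩,⟨1,[(23,0)]⟩⟩
  ⟨false,0,⟨1,[(5,0)]⟩,⟨3,[(0,1),(9,1),(5,0),(6,2)]⟩⟩,.o ⟨false,0,⟨1,[(8,0),(2,0)]⟩,⟨5,[(5,0),(4,1),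
  (5,1),(5,2),(0,0)]⟩⟩]⟩) (.R ⟨1,false,false,false,[0,0,0,1],[0,0,1],[0,0,0,-1,0,0,0,1],(⟨0,[(6,
  0)]⟩,⟨0,[(6,0)]⟩),(⟨0,[(15,0)]⟩,⟨0,[(14,0)]⟩),⟨0,[(1,0)]⟩,.k,.k,(.r 0 ⟨1,[(21,1),(0,0)]⟩ ⟨1,[(11,
  0),(0,0),(7,1),(2,0)]⟩),.k,(.r 0 ⟨1,[(13,1),(7,1),(0,0)]⟩ ⟨1,[(3,1),(8,1),(3,0)]⟩),.k,⟨false,0,⟨1,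
  [(13,1),(7,1),(0,0)]⟩,⟨1,[(3,1),(4,1),(13,0)]⟩⟩,⟨true,0,⟨1,[(5,0),(7,1)]⟩,⟨1,[(8,0),(3,0)]⟩⟩,
  ⟨true,0,⟨0,[(21,0)]⟩,⟨0,[(20,0)]⟩⟩,⟨false,1,⟨1,[(5,0),(17,0)]⟩,⟨1,[(7,0),(2,0),(12,0)]⟩⟩,⟨false,1,
  ⟨5,[(5,1),(4,3),(5,0),(6,4)]⟩,⟨0,[]⟩⟩,⟨false,1,⟨0,[(3,0),(0,0)]⟩,⟨1,[(7,0),(2,0),(10,1),(1,0)]⟩⟩,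
  [.o ⟨false,0,⟨0,[(0,0)]⟩,⟨1,[(10,1),(5,0),(6,0)]⟩⟩,.o ⟨false,1,⟨2,[(5,1),(4,0),(5,0),(6,1)]⟩,⟨0,
  [(7,0)]⟩⟩,.a ⟨true,0,⟨0,[(6,0)]⟩,⟨0,[(6,0)]⟩⟩ ⟨false,0,⟨1,[(21,1),(1,0)]⟩,⟨1,[(20,1),(2,0)]⟩⟩
  ⟨true,0,⟨1,[(5,0)]⟩,⟨1,[(7,0),(2,0)]⟩⟩,.o ⟨false,0,⟨1,[(8,0),(2,0)]⟩,⟨5,[(5,0),(4,1),(5,1),(5,2),
  (0,0)]⟩⟩]⟩))))))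

theorem ok0 : chk (cW (-1) 3) t0 base = true := by decide +kernel

theorem ok : chkB (cW (-1) 3) (fax (fcW (-1)) false 1 (-1) 3 false tW) t0 base = true :=
  chkB_of (by decide +kernel) ok0

end Helper11.CT.Tm1_1_m1_m1_v2
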