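import Pool.Agent.Helper11.CT.T.Tm1_2_1_1_v_p0
import Pool.Agent.Helper11.CT.T.Tm1_2_1_1_v_p1

set_option autoImplicit false
set_option linter.all false

namespace Helper11.CT.Tm1_2_1_1_v

open Helper11.CT

noncomputable def t9 : Tre :=
  .I [0,0,-1,-1,0,0,0,2] t7 t8

theorem ok9 : chk (cU 1 false 3) t9 r13 = true :=
  chk_I (e' := [1,0,1,1,0,0,0,-2]) (by decide +kernel) (by decide +kernel) ok7 ok8

noncomputable def t10 : Tre :=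
  .Q [0,0,0,-2,0,0,-1,-1,0,1,-1] (.p false [0,0,1] [1] (⟨0,[(26,0)]⟩,⟨0,[(25,0)]⟩) .k 1 (⟨0,[]⟩,⟨0,
  []⟩) .k .k) t6 t9

theorem ok10 : chk (cU 1 false 3) t10 r12 = true :=
  chk_Q (e' := [0,0,0,2,0,0,1,1,0,-1,1]) (by decide +kernel) (by decide +kernel) ok6 ok9

noncomputable def t11 : Tre :=
  .Q [0,0,0,0,0,1,0,0,0,-1,1] (.ed false [0,1,1] .k) t5 t10

theorem ok11 : chk (cU 1 false 3) t11 l11 = true :=
  chk_Q (e' := [0,0,0,0,0,-1,0,0,0,1,-1]) (by decide +kernel) (by decide +kernel) ok5 ok10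

noncomputable def t13 : Tre :=
  .I [0,-1,2,1] t11 t12

theorem ok13 : chk (cU 1 false 3) t13 r10 = true :=
  chk_I (e' := [1,1,-2,-1]) (by decide +kernel) (by decide +kernel) ok11 ok12

noncomputable def t14 : Tre :=
  .Q [0,0,0,-1,0,0,-1,-1,0,1,-1] (.p false [0,0,1] [1] (⟨0,[(23,0)]⟩,⟨0,[(22,0)]⟩) .k 1 (⟨0,[]⟩,⟨0,
  []⟩) .k .k) t4 t13

theorem ok14 : chk (cU 1 false 3) t14 r9 = true :=
  chk_Q (e' := [0,0,0,1,0,0,1,1,0,-1,1]) (by decide +kernel) (by decide +kernel) ok4 ok13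

noncomputable def t15 : Tre :=
  .Q [0,0,0,0,0,0,-1,0,0,1,-1] (.p false [0,0,1] [1] (⟨0,[(22,0)]⟩,⟨0,[(21,0)]⟩) .k 1 (⟨0,[]⟩,⟨0,
  []⟩) .k .k) t3 t14

theorem ok15 : chk (cU 1 false 3) t15 l8 = true :=
  chk_Q (e' := [0,0,0,0,0,0,1,0,0,-1,1]) (by decide +kernel) (by decide +kernel) ok3 ok14

noncomputable def t17 : Tre :=
  .I [1,0,1,1] t15 t16

theorem ok17 : chk (cU 1 false 3) t17 l7 = true :=
  chk_I (e' := [0,0,-1,-1]) (by decide +kernel) (by decide +kernel) ok15 ok16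

noncomputable def t19 : Tre :=
  .Q [0,0,-2,0,1,0,-1,0,0,0,-1] (.p false [0,0,1] [] (⟨0,[(20,0)]⟩,⟨0,[(19,0)]⟩) .k 0 (⟨0,[]⟩,⟨0,
  []⟩) .k .k) t17 t18

theorem ok19 : chk (cU 1 false 3) t19 r6 = true :=
  chk_Q (e' := [0,0,2,0,-1,0,1,0,0,0,1]) (by decide +kernel) (by decide +kernel) ok17 ok18

noncomputable def t20 : Tre :=
  .Q [0,-1,0,-1,0,0,0,0,0,1] (.pp false [-1,1]) t2 t19

theorem ok20 : chk (cU 1 false 3) t20 l5 = true :=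
  chk_Q (e' := [0,1,0,1,0,0,0,0,0,-1]) (by decide +kernel) (by decide +kernel) ok2 ok19

noncomputable def t22 : Tre :=
  .Q [0,0,-1,0,1,0,-1,0,0,-1,-1] (.p false [1,-1,1] [] (⟨0,[(18,0),(1,0)]⟩,⟨0,[(0,0)]⟩) .k 0 (⟨0,
  []⟩,⟨0,[]⟩) .k .k) t20 t21

theorem ok22 : chk (cU 1 false 3) t22 l4 = true :=
  chk_Q (e' := [0,0,1,0,-1,0,1,0,0,1,1]) (by decide +kernel) (by decide +kernel) ok20 ok21

noncomputable def t30 : Tre :=
  .Q [0,0,0,0,0,1,0,0,0,-1,1] (.ed false [0,1,1] .k) t28 t29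

theorem ok30 : chk (cU 1 false 3) t30 r21 = true :=
  chk_Q (e' := [0,0,0,0,0,-1,0,0,0,1,-1]) (by decide +kernel) (by decide +kernel) ok28 ok29

noncomputable def t31 : Tre :=
  .Q [0,0,0,-1,0,0,-1,-1,0,1,-1] (.p false [0,0,1] [1] (⟨0,[(24,0)]⟩,⟨0,[(23,0)]⟩) .k 1 (⟨0,[]⟩,⟨0,
  []⟩) .k .k) t27 t30

theorem ok31 : chk (cU 1 false 3) t31 r20 = true :=
  chk_Q (e' := [0,0,0,1,0,0,1,1,0,-1,1]) (by decide +kernel) (by decide +kernel) ok27 ok30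

noncomputable def t32 : Tre :=
  .Q [0,0,0,0,0,0,-1,0,0,1,-1] (.p false [0,0,1] [1] (⟨0,[(23,0)]⟩,⟨0,[(22,0)]⟩) .k 1 (⟨0,[]⟩,⟨0,
  []⟩) .k .k) t26 t31

theorem ok32 : chk (cU 1 false 3) t32 r19 = true :=
  chk_Q (e' := [0,0,0,0,0,0,1,0,0,-1,1]) (by decide +kernel) (by decide +kernel) ok26 ok31

noncomputable def t33 : Tre :=
  .Q [0,0,0,0,0,0,-1,-1,0,1,-1] (.p false [0,0,1] [1] (⟨0,[(22,0)]⟩,⟨0,[(21,0)]⟩) .k 1 (⟨0,[]⟩,⟨0,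
  []⟩) .k .k) t25 t32

theorem ok33 : chk (cU 1 false 3) t33 l18 = true :=
  chk_Q (e' := [0,0,0,0,0,0,1,1,0,-1,1]) (by decide +kernel) (by decide +kernel) ok25 ok32

noncomputable def t35 : Tre :=
  .Q [0,-1,0,-2,0,0,2,2,0,-1,2] (.p true [0,0,1] [1,0,-1] (⟨0,[(21,0)]⟩,⟨0,[(20,0)]⟩) .k 2 (⟨0,[(20,
  0)]⟩,⟨0,[(21,0)]⟩) .k (.r 0 ⟨0,[(19,1)]⟩ ⟨0,[(5,1),(23,0)]⟩)) t33 t34

theorem ok35 : chk (cU 1 false 3) t35 l17 = true :=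
  chk_Q (e' := [0,1,0,2,0,0,-2,-2,0,1,-2]) (by decide +kernel) (by decide +kernel) ok33 ok34

noncomputable def t37 : Tre :=
  .Q [0,0,-2,0,1,0,-1,0,0,0,-1] (.p false [0,0,1] [] (⟨0,[(20,0)]⟩,⟨0,[(19,0)]⟩) .k 0 (⟨0,[]⟩,⟨0,
  []⟩) .k .k) t35 t36

theorem ok37 : chk (cU 1 false 3) t37 r16 = true :=
  chk_Q (e' := [0,0,2,0,-1,0,1,0,0,0,1]) (by decide +kernel) (by decide +kernel) ok35 ok36

noncomputable def t38 : Tre :=
  .I [0,0,-2,-2,0,0,0,1] t24 t37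

theorem ok38 : chk (cU 1 false 3) t38 r15 = true :=
  chk_I (e' := [1,0,2,2,0,0,0,-1]) (by decide +kernel) (by decide +kernel) ok24 ok37

noncomputable def t39 : Tre :=
  .Q [0,-1,1,1,0,0,-1,0,0,1,-1] (.p false [0,0,1] [1] (⟨0,[(18,0)]⟩,⟨0,[(17,0)]⟩) .k 1 (⟨0,[]⟩,⟨0,
  []⟩) .k .k) t23 t38

theorem ok39 : chk (cU 1 false 3) t39 r4 = true :=
  chk_Q (e' := [0,1,-1,-1,0,0,1,0,0,-1,1]) (by decide +kernel) (by decide +kernel) ok23 ok38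

noncomputable def t40 : Tre :=
  .Q [0,0,0,0,0,1,0,0,0,0,-1] (.ed true [1,-1,1] .k) t22 t39

theorem ok40 : chk (cU 1 false 3) t40 r3 = true :=
  chk_Q (e' := [0,0,0,0,0,-1,0,0,0,0,1]) (by decide +kernel) (by decide +kernel) ok22 ok39

noncomputable def t41 : Tre :=
  .Q [0,-1,0,-1,0,0,1,1,0,0,1] (.p true [0,0,1] [] (⟨0,[(16,0)]⟩,⟨0,[(15,0)]⟩) .k 0 (⟨0,[]⟩,⟨0,[]⟩)
  .k .k) t1 t40

theorem ok41 : chk (cU 1 false 3) t41 l2 = true :=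
  chk_Q (e' := [0,1,0,1,0,0,-1,-1,0,0,-1]) (by decide +kernel) (by decide +kernel) ok1 ok40

noncomputable def t47 : Tre :=
  .I [0,0,0,0,0,0,0,1,-1] t45 t46

theorem ok47 : chk (cU 1 false 3) t47 r29 = true :=
  chk_I (e' := [1,0,0,0,0,0,0,-1,1]) (by decide +kernel) (by decide +kernel) ok45 ok46

noncomputable def t48 : Tre :=
  .Q [0,-1,0,-2,0,0,0,0,0,1] (.pp false [-1,1]) t44 t47

theorem ok48 : chk (cU 1 false 3) t48 r28 = true :=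
  chk_Q (e' := [0,1,0,2,0,0,0,0,0,-1]) (by decide +kernel) (by decide +kernel) ok44 ok47

noncomputable def t49 : Tre :=
  .Q [0,0,0,0,0,0,-1,0,0,1,-1] (.p false [0,0,1] [1] (⟨0,[(21,0)]⟩,⟨0,[(20,0)]⟩) .k 1 (⟨0,[]⟩,⟨0,
  []⟩) .k .k) t43 t48

theorem ok49 : chk (cU 1 false 3) t49 l27 = true :=
  chk_Q (e' := [0,0,0,0,0,0,1,0,0,-1,1]) (by decide +kernel) (by decide +kernel) ok43 ok48

noncomputable def t51 : Tre :=
  .Q [0,0,0,0,0,-1,0,0,0,0,1] (.ed false [1,-1,1] .k) t49 t50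

theorem ok51 : chk (cU 1 false 3) t51 l26 = true :=
  chk_Q (e' := [0,0,0,0,0,1,0,0,0,0,-1]) (by decide +kernel) (by decide +kernel) ok49 ok50

noncomputable def t55 : Tre :=
  .Q [0,0,0,0,0,1,0,0,0,-1,1] (.ed false [0,1,1] .k) t53 t54

theorem ok55 : chk (cU 1 false 3) t55 l34 = true :=
  chk_Q (e' := [0,0,0,0,0,-1,0,0,0,1,-1]) (by decide +kernel) (by decide +kernel) ok53 ok54

noncomputable def t57 : Tre :=
  .I [1,0,0,-1,0,0,0,-1] t55 t56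

theorem ok57 : chk (cU 1 false 3) t57 l33 = true :=
  chk_I (e' := [0,0,0,1,0,0,0,1]) (by decide +kernel) (by decide +kernel) ok55 ok56

noncomputable def t59 : Tre :=
  .I [1,-1,1,1,0,0,0,2] t57 t58

theorem ok59 : chk (cU 1 false 3) t59 l32 = true :=
  chk_I (e' := [0,1,-1,-1,0,0,0,-2]) (by decide +kernel) (by decide +kernel) ok57 ok58

noncomputable def t61 : Tre :=
  .Q [0,0,0,0,0,0,1,0,0,-1,1] (.p true [0,0,1] [1] (⟨0,[(21,0)]⟩,⟨0,[(20,0)]⟩) .k 1 (⟨0,[]⟩,⟨0,[]⟩)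
  .k .k) t59 t60

theorem ok61 : chk (cU 1 false 3) t61 r31 = true :=
  chk_Q (e' := [0,0,0,0,0,0,-1,0,0,1,-1]) (by decide +kernel) (by decide +kernel) ok59 ok60

noncomputable def t62 : Tre :=
  .I [0,0,2,1] t52 t61

theorem ok62 : chk (cU 1 false 3) t62 r26 = true :=
  chk_I (e' := [1,0,-2,-1]) (by decide +kernel) (by decide +kernel) ok52 ok61

noncomputable def t63 : Tre :=
  .I [0,0,1,1] t51 t62

theorem ok63 : chk (cU 1 false 3) t63 r25 = true :=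
  chk_I (e' := [1,0,-1,-1]) (by decide +kernel) (by decide +kernel) ok51 ok62

noncomputable def t64 : Tre :=
  .Q [0,0,0,-1,0,0,-1,-1,0,1,-1] (.p false [0,0,1] [1] (⟨0,[(18,0)]⟩,⟨0,[(17,0)]⟩) .k 1 (⟨0,[]⟩,⟨0,
  []⟩) .k .k) t42 t63

theorem ok64 : chk (cU 1 false 3) t64 l24 = true :=
  chk_Q (e' := [0,0,0,1,0,0,1,1,0,-1,1]) (by decide +kernel) (by decide +kernel) ok42 ok63

noncomputable def t66 : Tre :=
  .Q [0,-1,0,0,0,0,2,2,0,-1,2] (.p true [0,0,1] [1,0,-1] (⟨0,[(17,0)]⟩,⟨0,[(16,0)]⟩) .k 2 (⟨0,[(16,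
  0)]⟩,⟨0,[(17,0)]⟩) .k (.r 0 ⟨0,[(15,1)]⟩ ⟨0,[(3,1),(8,1),(13,0)]⟩)) t64 t65

theorem ok66 : chk (cU 1 false 3) t66 l23 = true :=
  chk_Q (e' := [0,1,0,0,0,0,-2,-2,0,1,-2]) (by decide +kernel) (by decide +kernel) ok64 ok65

noncomputable def t70 : Tre :=
  .Q [0,0,0,0,0,1,0,0,0,0,-1] (.ed true [1,-1,1] .k) t68 t69

theorem ok70 : chk (cU 1 false 3) t70 r36 = true :=
  chk_Q (e' := [0,0,0,0,0,-1,0,0,0,0,1]) (by decide +kernel) (by decide +kernel) ok68 ok69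

noncomputable def t71 : Tre :=
  .Q [0,0,0,-2,-1,0,0,0,0,1] (.pp false [-1,1]) t67 t70

theorem ok71 : chk (cU 1 false 3) t71 r23 = true :=
  chk_Q (e' := [0,0,0,2,1,0,0,0,0,-1]) (by decide +kernel) (by decide +kernel) ok67 ok70

noncomputable def t72 : Tre :=
  .I [0,-1,1,0,0,0,0,1] t66 t71

theorem ok72 : chk (cU 1 false 3) t72 r2 = true :=
  chk_I (e' := [1,1,-1,0,0,0,0,-1]) (by decide +kernel) (by decide +kernel) ok66 ok71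

noncomputable def t73 : Tre :=
  .I [0,0,1,0,0,0,0,-1] t41 t72

theorem ok73 : chk (cU 1 false 3) t73 r1 = true :=
  chk_I (e' := [1,0,-1,0,0,0,0,1]) (by decide +kernel) (by decide +kernel) ok41 ok72

noncomputable def t74 : Tre :=
  .Q [0,-1,0,-1,0,0,-1,-1,0,1,-1] (.p false [0,0,1] [1] (⟨0,[(14,0)]⟩,⟨0,[(13,0)]⟩) .k 1 (⟨0,[]⟩,⟨0,
  []⟩) .k .k) t0 t73

theorem ok74 : chk (cU 1 false 3) t74 l0 = true :=
  chk_Q (e' := [0,1,0,1,0,0,1,1,0,-1,1]) (by decide +kernel) (by decide +kernel) ok0 ok73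

noncomputable def t76 : Tre :=
  .Q [0,0,0,0,0,0,1,0,0,0,1] (.p true [0,0,1] [] (⟨0,[(13,0)]⟩,⟨0,[(12,0)]⟩) .k 0 (⟨0,[]⟩,⟨0,[]⟩)
  .k .k) t74 t75

theorem ok76 : chk (cU 1 false 3) t76 base = true :=
  chk_Q (e' := [0,0,0,0,0,0,-1,0,0,0,-1]) (by decide +kernel) (by decide +kernel) ok74 ok75

theorem ok : chkB (cU 1 false 3) (fax (fcU 1) false 2 1 3 true (tU false)) t76 base = true :=
  chkB_of (by decide +kernel) ok76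

end Helper11.CT.Tm1_2_1_1_v
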