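import Pool.Agent.Helper11.CT.T.Tm1_2_m1_1_u_q

set_option autoImplicit false
set_option linter.all false

namespace Helper11.CT.Tm1_2_m1_1_u

open Helper11.CT

noncomputable def t1 : Tre :=
  (.I [0,0,-2,-2,1,0,0,-1] (.Q [0,0,0,0,0,0,-1,0,0,0,1] (.p true [0,0,1] [] (⟨0,[(21,0)]⟩,⟨0,[(20,
  0)]⟩) .k 0 (⟨0,[]⟩,⟨0,[]⟩) .k .k) (.K ⟨0,[1,-1,-1],0,0,(⟨0,[(6,0)]⟩,⟨0,[(22,0),(2,0)]⟩),.k,(.r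
  (-1) ⟨0,[(1,0)]⟩ ⟨0,[(3,0)]⟩),.k,.k,.k,[⟨0,[(5,0)]⟩,⟨0,[(0,0)]⟩,⟨0,[(8,0),(0,0)]⟩,⟨0,[(14,0),(14,
  0)]⟩]⟩) (.Q [0,0,0,-1,0,0,-1,-1,0,0,1] (.p true [0,0,1] [] (⟨0,[(22,0)]⟩,⟨0,[(21,0)]⟩) .k 0 (⟨0,
  []⟩,⟨0,[]⟩) .k .k) (.R ⟨2,true,false,false,[0,1],[0,1,1],[0,1,1],(⟨0,[]⟩,⟨0,[]⟩),(⟨0,[(23,0),(2,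
  0)]⟩,⟨0,[(7,0)]⟩),⟨0,[]⟩,.k,.k,.k,.k,.k,.k,⟨false,0,⟨0,[(0,0),(0,0),(26,0)]⟩,⟨1,[(4,0),(16,0),(9,
  0),(0,0)]⟩⟩,⟨true,0,⟨0,[(1,0)]⟩,⟨0,[(20,0)]⟩⟩,⟨false,0,⟨0,[(30,0)]⟩,⟨2,[(3,0),(0,0),(26,0),(0,
  1)]⟩⟩,⟨true,0,⟨0,[(1,0),(19,0)]⟩,⟨0,[(18,0)]⟩⟩,⟨true,0,⟨0,[(34,0)]⟩,⟨0,[]⟩⟩,⟨false,1,⟨0,[(5,0),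
  (26,0)]⟩,⟨0,[(0,0)]⟩⟩,[]⟩) (.Q [0,0,0,0,0,-1,0,0,0,0,1] (.ed false [1,-1,1] .k) (.Q [0,-1,0,-1,0,
  0,1,1,0,1,-1] (.p false [0,0,1] [1] (⟨0,[(24,0)]⟩,⟨0,[(23,0)]⟩) .k 1 (⟨0,[]⟩,⟨0,[]⟩) .k .k) (.R
  ⟨2,true,false,true,[0,1],[1,1,-1],[1,1,1,1],(⟨0,[]⟩,⟨0,[]⟩),(⟨0,[(24,0),(3,0)]⟩,⟨0,[(1,0)]⟩),⟨0,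
  []⟩,.k,.k,.k,.k,.k,.k,⟨true,0,⟨0,[(23,0)]⟩,⟨0,[(3,0),(7,0),(17,0)]⟩⟩,⟨false,1,⟨0,[(18,0),(14,0)]⟩,
  ⟨0,[(8,0)]⟩⟩,⟨false,0,⟨0,[]⟩,⟨3,[(13,0),(0,0),(19,1)]⟩⟩,⟨true,0,⟨0,[(17,0)]⟩,⟨2,[(0,0),(9,0),(1,
  0),(7,0)]⟩⟩,⟨true,0,⟨0,[(31,0)]⟩,⟨0,[(32,0)]⟩⟩,⟨false,1,⟨1,[(11,1),(14,0),(7,0)]⟩,⟨0,[(0,0)]⟩⟩,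
  []⟩) (.Q [0,0,0,1,0,0,0,0,0,1] (.pp false [-1,1]) (.R ⟨1,false,false,false,[0,0,1],[1,-1],[0,0,0,
  -1,0,0,0,1],(⟨0,[(26,0)]⟩,⟨0,[(25,0)]⟩),(⟨0,[(28,0)]⟩,⟨0,[(29,0)]⟩),⟨0,[(2,0)]⟩,.k,.k,.k,.k,.k,.k,
  ⟨false,0,⟨0,[(24,0)]⟩,⟨11,[(5,3),(0,7),(7,0),(0,0),(18,1),(0,3)]⟩⟩,⟨true,0,⟨0,[(19,0)]⟩,⟨0,[(9,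
  0)]⟩⟩,⟨true,0,⟨0,[(33,0)]⟩,⟨0,[(32,0)]⟩⟩,⟨false,1,⟨2,[(5,0),(12,1),(0,0),(10,0),(4,1)]⟩,⟨0,[(11,
  0)]⟩⟩,⟨false,1,⟨3,[(14,0),(0,0),(19,1)]⟩,⟨0,[]⟩⟩,⟨false,1,⟨0,[(18,0),(16,0)]⟩,⟨1,[(13,0),(2,0),(0,
  0)]⟩⟩,[.a ⟨true,0,⟨0,[(33,0)]⟩,⟨0,[(0,0)]⟩⟩ ⟨true,0,⟨0,[(24,0),(8,0)]⟩,⟨0,[(0,0),(0,0),(2,0),(25,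
  0)]⟩⟩ ⟨false,1,⟨1,[(5,0),(13,1),(4,0),(9,0)]⟩,⟨0,[(0,0),(3,0)]⟩⟩,.o ⟨false,1,⟨3,[(5,0),(18,0),(2,
  1),(2,1),(4,0)]⟩,⟨0,[(32,0)]⟩⟩,.o ⟨false,0,⟨0,[(4,0)]⟩,⟨1,[(23,1),(3,0),(6,0)]⟩⟩,.o ⟨false,0,⟨0,
  [(22,0)]⟩,⟨0,[(19,0),(14,0)]⟩⟩]⟩) (.Q [0,-1,-1,0,1,0,1,1,-1,0,-1,1] (.p false [0,0,1] [0,0,0,1]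
  (⟨0,[(26,0)]⟩,⟨0,[(25,0)]⟩) .k 2 (⟨0,[(17,0)]⟩,⟨0,[(16,0)]⟩) .k (.x (-1) ⟨0,[(22,0),(3,0),(7,0)]⟩
  ⟨0,[(19,0),(5,0)]⟩)) (.I [1,0,-1,-2] (.Q [0,0,-2,0,1,0,-1,0,0,0,1] (.p true [0,0,1] [] (⟨0,[(28,
  0)]⟩,⟨0,[(27,0)]⟩) .k 0 (⟨0,[]⟩,⟨0,[]⟩) .k .k) (.Q [0,0,-3,0,1,0,0,0,0,1] (.pp false [-1,1]) (.I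
  [0,0,-2,0,1,2,-1] (.R ⟨1,true,false,true,[1,-1],[1,0,-1],[0,1],(⟨0,[(33,0)]⟩,⟨0,[(34,0)]⟩),(⟨0,
  [(30,0)]⟩,⟨0,[(31,0)]⟩),⟨0,[(7,0),(7,0)]⟩,.k,.k,(.r (-1) ⟨23,[(2,7),(0,15),(6,7),(7,3),(0,2),(0,
  2),(11,1)]⟩ ⟨0,[(8,1),(8,1),(17,1)]⟩),.k,(.x 0 ⟨1,[(7,2),(7,0),(8,0),(2,2)]⟩ ⟨0,[(0,0)]⟩),.k,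
  ⟨true,0,⟨0,[(29,0)]⟩,⟨0,[(11,0),(23,0)]⟩⟩,⟨false,1,⟨0,[(2,0)]⟩,⟨0,[(27,0)]⟩⟩,⟨false,0,⟨0,[(8,0),
  (8,0),(17,0)]⟩,⟨47,[(2,7),(0,15),(6,7),(7,3),(0,2),(0,2),(11,1),(7,23)]⟩⟩,⟨true,0,⟨0,[(17,0)]⟩,⟨4,
  [(3,0),(1,1),(12,1),(6,0),(9,0)]⟩⟩,⟨true,0,⟨1,[(11,0),(0,0),(24,0)]⟩,⟨0,[(3,0)]⟩⟩,⟨false,1,⟨8,[(1,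
  1),(9,2),(0,2),(4,8),(14,0),(7,5)]⟩,⟨0,[(3,0),(4,0),(26,0)]⟩⟩,[]⟩) (.R ⟨1,true,false,true,[1,-1],
  [1,0,-1],[0,1],(⟨0,[(33,0)]⟩,⟨0,[(34,0)]⟩),(⟨0,[(30,0)]⟩,⟨0,[(31,0)]⟩),⟨0,[(7,0),(7,0)]⟩,.k,.k,
  (.r (-1) ⟨23,[(2,7),(0,15),(6,7),(7,3),(0,2),(0,2),(11,1)]⟩ ⟨2,[(0,0),(5,0),(4,0),(0,1),(17,0),(3,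
  1),(5,0)]⟩),.k,(.r (-1) ⟨23,[(2,15),(0,23),(14,11),(0,0),(0,0),(7,7),(3,5)]⟩ ⟨2,[(0,1),(5,1),(4,
  1),(0,0),(17,1),(3,3),(5,1)]⟩),.k,⟨true,0,⟨0,[(29,0)]⟩,⟨0,[(11,0),(23,0)]⟩⟩,⟨false,1,⟨0,[(2,0)]⟩,
  ⟨0,[(27,0)]⟩⟩,⟨false,0,⟨5,[(0,0),(5,0),(4,0),(0,1),(17,0),(3,1),(5,0)]⟩,⟨47,[(2,7),(0,15),(6,7),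
  (7,3),(0,2),(0,2),(11,1),(7,23)]⟩⟩,⟨true,0,⟨0,[(17,0)]⟩,⟨4,[(3,0),(1,1),(12,1),(6,0),(9,0)]⟩⟩,
  ⟨true,0,⟨1,[(11,0),(0,0),(24,0)]⟩,⟨0,[(3,0)]⟩⟩,⟨false,1,⟨8,[(1,1),(9,2),(0,2),(4,8),(14,0),(7,
  5)]⟩,⟨0,[(3,0),(4,0),(26,0)]⟩⟩,[]⟩)) (.I [0,0,2,2,0,0,0,-1] (.R ⟨1,true,false,true,[1,-1],[1,0,
  -1],[0,1],(⟨0,[(33,0)]⟩,⟨0,[(34,0)]⟩),(⟨0,[(30,0)]⟩,⟨0,[(31,0)]⟩),⟨0,[(7,0),(7,0)]⟩,.k,.k,(.r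
  (-1) ⟨23,[(2,7),(0,15),(6,7),(7,3),(0,2),(0,2),(11,1)]⟩ ⟨1,[(0,0),(11,0)]⟩),.k,(.r (-1) ⟨23,[(2,
  15),(0,23),(14,11),(0,0),(0,0),(7,7),(3,5)]⟩ ⟨0,[(0,0)]⟩),.k,⟨true,0,⟨0,[(29,0)]⟩,⟨0,[(0,0),(2,
  0)]⟩⟩,⟨false,1,⟨0,[(2,0)]⟩,⟨0,[(27,0)]⟩⟩,⟨false,0,⟨3,[(0,0),(11,0)]⟩,⟨47,[(2,7),(0,15),(6,7),(7,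
  3),(0,2),(0,2),(11,1),(7,23)]⟩⟩,⟨true,0,⟨0,[(17,0)]⟩,⟨5,[(1,0),(1,2),(14,2),(13,0)]⟩⟩,⟨true,0,⟨3,
  [(0,0),(11,0),(24,3)]⟩,⟨0,[(3,0)]⟩⟩,⟨false,1,⟨0,[(0,0),(1,0)]⟩,⟨0,[(3,0),(4,0),(26,0)]⟩⟩,[]⟩) (.R
  ⟨1,true,false,true,[1,-1],[1,0,-1],[0,1],(⟨0,[(33,0)]⟩,⟨0,[(34,0)]⟩),(⟨0,[(30,0)]⟩,⟨0,[(31,0)]⟩),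
  ⟨0,[(7,0),(7,0)]⟩,.k,.k,(.r (-1) ⟨3,[(0,1),(9,1),(8,0),(0,0)]⟩ ⟨4,[(1,1),(9,1),(0,1),(3,1),(0,1),
  (22,1)]⟩),.k,(.x 0 ⟨23,[(1,7),(5,35),(7,11),(3,2),(0,2),(6,23),(4,1)]⟩ ⟨7,[(0,3),(1,3),(3,5),(1,
  1),(21,7),(1,0),(1,15),(5,2)]⟩),.k,⟨true,0,⟨0,[(29,0)]⟩,⟨0,[(11,0),(23,0)]⟩⟩,⟨false,1,⟨0,[(2,0)]⟩,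
  ⟨0,[(27,0)]⟩⟩,⟨false,0,⟨4,[(1,0),(9,0),(0,0),(3,0),(0,0),(22,0)]⟩,⟨7,[(0,1),(9,1),(8,0),(0,0),(19,
  3)]⟩⟩,⟨true,0,⟨0,[(17,0)]⟩,⟨5,[(1,0),(1,2),(14,2),(13,0)]⟩⟩,⟨true,0,⟨1,[(11,0),(0,0),(24,0)]⟩,⟨0,
  [(3,0)]⟩⟩,⟨false,1,⟨2,[(2,0),(8,1),(0,0),(4,1),(22,1)]⟩,⟨8,[(0,4),(0,0),(3,0),(3,4),(8,1),(16,6),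
  (4,0)]⟩⟩,[]⟩))) (.K ⟨2,[0,-1,1],(-1),0,(⟨0,[(5,0)]⟩,⟨0,[(28,0),(3,0)]⟩),.k,(.r (-1) ⟨0,[(8,0),(18,
  1)]⟩ ⟨2,[(0,1),(8,1),(0,0),(4,1),(22,1)]⟩),.k,.k,.k,[⟨0,[(36,0)]⟩,⟨0,[(15,0)]⟩,⟨3,[(17,0),(0,0),
  (7,3),(10,1)]⟩,⟨0,[(0,0)]⟩]⟩)) (.Q [0,1,-1,0,0,0,0,0,-1,0,0,1] (.p true [0,0,0,1] [] (⟨0,[(19,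
  0)]⟩,⟨0,[(18,0)]⟩) .k 0 (⟨0,[]⟩,⟨0,[]⟩) .k .k) (.I [1,1,2,1,-1] (.I [0,0,1,1,0,0,0,0,-1] (.K ⟨0,
  [0,0,0,1],0,0,(⟨0,[(22,0)]⟩,⟨0,[(21,0)]⟩),.k,(.r (-1) ⟨1,[(10,0),(9,0),(8,0)]⟩ ⟨0,[(0,0)]⟩),(.x 0
  ⟨0,[(34,0)]⟩ ⟨7,[(7,3),(7,3),(3,2),(0,2),(11,1)]⟩),.k,.k,[⟨0,[(22,0)]⟩,⟨0,[(21,0)]⟩,⟨0,[(2,0)]⟩,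
  ⟨3,[(1,1),(3,2),(0,0),(13,1),(0,3),(3,0)]⟩]⟩) (.K ⟨0,[0,0,0,1],0,0,(⟨0,[(22,0)]⟩,⟨0,[(21,0)]⟩),.k,
  (.x 0 ⟨7,[(1,1),(5,3),(7,3),(11,4),(0,4),(3,1),(2,1)]⟩ ⟨0,[(34,0),(4,0)]⟩),(.x 0 ⟨0,[(34,0)]⟩ ⟨7,
  [(7,3),(7,3),(3,2),(0,2),(11,1)]⟩),.k,.k,[⟨0,[(22,0)]⟩,⟨0,[(21,0)]⟩,⟨0,[(2,0)]⟩,⟨4,[(0,0),(0,2),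
  (3,1),(14,1),(0,4),(1,0),(1,0),(6,0)]⟩]⟩)) (.Q [0,0,0,-2,0,0,-1,-1,0,-1,1] (.p true [0,0,1] [1]
  (⟨0,[(30,0)]⟩,⟨0,[(29,0)]⟩) .k 1 (⟨0,[]⟩,⟨0,[]⟩) .k .k) (.I [1,1,-1,-1,0,0,0,-1] (.R ⟨1,true,
  false,false,[1,-1],[0,0,1],[1,1,-1,-1],(⟨0,[(34,0)]⟩,⟨0,[(35,0)]⟩),(⟨0,[(32,0)]⟩,⟨0,[(31,0)]⟩),⟨0,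
  [(8,0),(7,0)]⟩,.k,.k,(.r (-1) ⟨0,[(11,0),(18,0)]⟩ ⟨2,[(4,1),(8,0),(4,0),(9,0),(7,0)]⟩),.k,(.r
  (-1) ⟨0,[(11,0)]⟩ ⟨0,[(13,0)]⟩),.k,⟨true,0,⟨0,[(0,0)]⟩,⟨0,[(4,0),(25,0),(5,0)]⟩⟩,⟨false,1,⟨0,[(15,
  0),(24,0)]⟩,⟨0,[(25,0)]⟩⟩,⟨false,0,⟨0,[]⟩,⟨3,[(20,0),(0,0),(19,1)]⟩⟩,⟨true,0,⟨0,[(17,0)]⟩,⟨1,[(1,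
  0),(22,0),(18,0)]⟩⟩,⟨true,0,⟨0,[(38,0)]⟩,⟨0,[(39,0)]⟩⟩,⟨false,1,⟨7,[(4,3),(12,7),(2,0),(0,0),(18,
  1),(0,3)]⟩,⟨0,[(1,0)]⟩⟩,[]⟩) (.R ⟨1,true,false,false,[1,-1],[0,0,1],[0,1,-1,-2],(⟨0,[(34,0)]⟩,⟨0,
  [(35,0)]⟩),(⟨0,[(32,0)]⟩,⟨0,[(31,0)]⟩),⟨0,[(8,0),(7,0)]⟩,.k,.k,(.r (-1) ⟨0,[(11,0),(18,0)]⟩ ⟨2,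
  [(4,1),(8,0),(4,0),(9,0),(7,0)]⟩),.k,(.r (-1) ⟨0,[(11,0)]⟩ ⟨0,[(13,0)]⟩),.k,⟨true,0,⟨0,[(1,0),(13,
  0),(21,0)]⟩,⟨3,[(0,2),(3,1),(8,0),(22,0)]⟩⟩,⟨false,1,⟨0,[(15,0),(24,0)]⟩,⟨0,[(25,0)]⟩⟩,⟨false,0,
  ⟨0,[(39,0)]⟩,⟨7,[(4,3),(15,0),(0,0),(18,1),(0,3)]⟩⟩,⟨true,0,⟨0,[(17,0)]⟩,⟨1,[(1,0),(22,0),(18,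
  0)]⟩⟩,⟨true,0,⟨0,[(43,0)]⟩,⟨0,[]⟩⟩,⟨false,1,⟨7,[(4,3),(12,7),(2,0),(0,0),(18,1),(0,3)]⟩,⟨0,[(1,
  0)]⟩⟩,[]⟩)) (.Q [0,-1,1,0,0,0,0,0,1,1,0,-1] (.p false [0,0,0,1] [1] (⟨0,[(22,0)]⟩,⟨0,[(21,0)]⟩)
  .k 1 (⟨0,[]⟩,⟨0,[]⟩) .k .k) (.I [1,-1,1,0,0,0,0,0,1] (.R ⟨1,false,false,false,[1,0,-1],[0,0,0,1],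
  [1,1,0,0,0,0,0,-1],(⟨0,[(32,0)]⟩,⟨0,[(33,0)]⟩),(⟨0,[(24,0)]⟩,⟨0,[(23,0)]⟩),⟨0,[(17,0)]⟩,.k,.k,.k,
  .k,(.r (-1) ⟨2,[(3,0),(0,0),(3,0),(2,0),(0,0),(0,0),(7,0),(1,0),(13,1)]⟩ ⟨0,[(0,0),(30,0),(7,
  0)]⟩),.k,⟨true,0,⟨0,[(4,0),(3,0),(2,0),(11,0),(13,0)]⟩,⟨0,[(0,0),(30,0)]⟩⟩,⟨false,0,⟨0,[(11,0),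
  (11,0)]⟩,⟨0,[(24,0),(1,0),(14,0)]⟩⟩,⟨false,0,⟨0,[]⟩,⟨3,[(21,0),(0,0),(19,1)]⟩⟩,⟨false,0,⟨2,[(1,2),
  (5,0),(2,0),(9,0)]⟩,⟨0,[(4,0),(20,0),(16,0)]⟩⟩,⟨true,0,⟨0,[(39,0)]⟩,⟨0,[(40,0)]⟩⟩,⟨false,0,⟨0,[(1,
  0),(8,0)]⟩,⟨2,[(4,2),(7,0),(12,1),(0,0),(10,0),(4,1)]⟩⟩,[.o ⟨false,0,⟨1,[(1,1),(5,0),(0,0),(18,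
  0)]⟩,⟨1,[(4,1),(29,0),(7,0)]⟩⟩,.a ⟨true,0,⟨0,[(1,0)]⟩,⟨0,[(4,0)]⟩⟩ ⟨false,1,⟨11,[(12,3),(0,7),(7,
  0),(0,0),(18,1),(0,3)]⟩,⟨0,[(31,0)]⟩⟩ ⟨true,0,⟨0,[(1,0),(9,0)]⟩,⟨0,[(4,0),(21,0)]⟩⟩,.o ⟨false,1,
  ⟨1,[(30,1),(3,0),(6,0)]⟩,⟨0,[(11,0)]⟩⟩,.o ⟨false,0,⟨0,[(26,0)]⟩,⟨2,[(2,1),(9,1),(16,0),(4,
  0)]⟩⟩]⟩) (.K ⟨0,[0,0,0,1],0,0,(⟨0,[(24,0)]⟩,⟨0,[(23,0)]⟩),.k,(.r (-1) ⟨1,[(12,0),(9,0),(8,0)]⟩ ⟨0,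
  [(0,0),(4,0),(31,0)]⟩),(.x 0 ⟨0,[(36,0)]⟩ ⟨7,[(9,3),(7,3),(3,2),(0,2),(11,1)]⟩),.k,.k,[⟨0,[(24,
  0)]⟩,⟨0,[(23,0)]⟩,⟨0,[(4,0)]⟩,⟨0,[(1,0),(23,0),(1,0)]⟩]⟩)) (.Q [0,1,1,0,0,0,0,0,1,0,0,-1] (.p
  false [0,0,0,1] [] (⟨0,[(23,0)]⟩,⟨0,[(22,0)]⟩) .k 0 (⟨0,[]⟩,⟨0,[]⟩) .k .k) (.K ⟨0,[0,0,0,1],0,0,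
  (⟨0,[(24,0)]⟩,⟨0,[(23,0)]⟩),.k,(.r (-1) ⟨1,[(12,0),(9,0),(8,0)]⟩ ⟨0,[(1,0),(3,0),(17,0),(13,0)]⟩),
  (.x 0 ⟨0,[(36,0)]⟩ ⟨7,[(9,3),(7,3),(3,2),(0,2),(11,1)]⟩),.k,.k,[⟨0,[(24,0)]⟩,⟨0,[(23,0)]⟩,⟨0,[(4,
  0)]⟩,⟨0,[(0,0)]⟩]⟩) (.Q [0,0,0,0,0,-1,0,0,0,1,0,-1] (.p false [0,0,0,1] [1] (⟨0,[(24,0)]⟩,⟨0,[(23,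
  0)]⟩) .k 1 (⟨0,[]⟩,⟨0,[]⟩) .k .k) (.R ⟨1,false,false,true,[1,0,0,-1],[0,1],[0,1,0,-1,0,0,0,0,-1],
  (⟨0,[(24,0)]⟩,⟨0,[(25,0)]⟩),(⟨0,[(37,0)]⟩,⟨0,[(36,0)]⟩),⟨0,[(0,0)]⟩,.k,.k,(.x (-1) ⟨7,[(10,3),(7,
  3),(3,2),(0,2),(11,1)]⟩ ⟨0,[(37,0)]⟩),(.x (-1) ⟨7,[(10,3),(7,3),(3,2),(0,2),(11,1)]⟩ ⟨0,[(37,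
  0)]⟩),(.r 0 ⟨0,[(1,0),(6,0),(15,0),(14,0),(1,0)]⟩ ⟨11,[(15,7),(4,7),(1,0),(0,6),(6,7),(12,3)]⟩),
  .k,⟨false,0,⟨0,[(1,0),(6,0),(15,0),(14,0),(1,0)]⟩,⟨3,[(6,3),(15,0),(0,2)]⟩⟩,⟨true,0,⟨0,[(24,0)]⟩,
  ⟨2,[(6,0),(1,1),(16,2),(1,0),(2,0)]⟩⟩,⟨false,0,⟨0,[(41,0)]⟩,⟨7,[(6,3),(15,0),(0,0),(18,1),(0,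
  3)]⟩⟩,⟨false,1,⟨5,[(15,1),(4,1),(1,0),(0,3),(0,5),(5,1),(12,0)]⟩,⟨0,[(1,0),(6,0)]⟩⟩,⟨true,0,⟨0,
  [(45,0)]⟩,⟨0,[]⟩⟩,⟨false,1,⟨3,[(6,3),(15,0),(0,2),(0,3)]⟩,⟨0,[(1,0),(6,0),(32,0)]⟩⟩,[.o ⟨false,0,
  ⟨0,[(40,0)]⟩,⟨11,[(4,3),(17,0),(0,0),(11,5),(2,7)]⟩⟩,.o ⟨false,1,⟨7,[(6,3),(15,2),(0,2),(18,1)]⟩,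
  ⟨0,[(8,0)]⟩⟩,.o ⟨false,1,⟨1,[(1,0),(3,0),(17,0),(11,0)]⟩,⟨2,[(6,0),(1,1),(15,2),(2,0),(2,0)]⟩⟩,.a
  ⟨true,0,⟨0,[(25,0)]⟩,⟨0,[(24,0)]⟩⟩ ⟨false,0,⟨1,[(1,0),(3,0),(2,1),(15,1)]⟩,⟨5,[(6,1),(8,0),(4,0),
  (2,2),(6,0),(7,0),(4,2)]⟩⟩ ⟨true,0,⟨0,[(24,0),(15,0)]⟩,⟨0,[(8,0),(16,0)]⟩⟩]⟩) (.R ⟨0,false,false,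
  true,[1,0,0,-1],[0,1],[0,1,0,0,0,0,0,0,-1],(⟨0,[(24,0)]⟩,⟨0,[(25,0)]⟩),(⟨0,[(37,0)]⟩,⟨0,[(36,
  0)]⟩),⟨0,[(0,0)]⟩,.k,.k,(.x (-1) ⟨7,[(10,3),(7,3),(3,2),(0,2),(11,1)]⟩ ⟨0,[(37,0)]⟩),(.x (-1) ⟨7,
  [(10,3),(7,3),(3,2),(0,2),(11,1)]⟩ ⟨0,[(37,0)]⟩),.k,.k,⟨false,0,⟨0,[(1,0),(6,0),(15,0),(14,0)]⟩,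
  ⟨5,[(15,1),(4,1),(1,0),(0,3),(6,1),(12,0)]⟩⟩,⟨true,0,⟨0,[(24,0)]⟩,⟨2,[(6,0),(1,1),(16,2),(1,0),(2,
  0)]⟩⟩,⟨true,0,⟨0,[(45,0)]⟩,⟨0,[]⟩⟩,⟨false,1,⟨5,[(15,1),(4,1),(1,0),(0,3),(0,5),(5,1),(12,0)]⟩,⟨0,
  [(1,0),(6,0)]⟩⟩,⟨false,0,⟨0,[]⟩,⟨0,[]⟩⟩,⟨false,0,⟨0,[]⟩,⟨0,[]⟩⟩,[.o ⟨false,0,⟨0,[(40,0)]⟩,⟨11,[(4,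
  3),(17,0),(0,0),(11,5),(2,7)]⟩⟩,.o ⟨false,1,⟨7,[(6,3),(15,2),(0,2),(18,1)]⟩,⟨0,[(8,0)]⟩⟩,.o
  ⟨false,1,⟨1,[(1,0),(3,0),(17,0),(11,0)]⟩,⟨2,[(6,0),(1,1),(15,2),(2,0),(2,0)]⟩⟩,.a ⟨true,0,⟨0,[(25,
  0)]⟩,⟨0,[(24,0)]⟩⟩ ⟨false,0,⟨4,[(1,2),(0,1),(5,1),(0,0),(1,0),(12,4)]⟩,⟨11,[(15,1),(4,1),(1,0),(0,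
  6),(6,1),(7,5),(4,3)]⟩⟩ ⟨true,0,⟨0,[(24,0),(15,0)]⟩,⟨0,[(8,0),(16,0)]⟩⟩]⟩)))))) (.Q [0,0,0,0,0,1,
  0,0,0,-1,0,1] (.p true [0,0,0,1] [1] (⟨0,[(20,0)]⟩,⟨0,[(19,0)]⟩) .k 1 (⟨0,[]⟩,⟨0,[]⟩) .k .k) (.Q
  [0,-1,-1,-1,1,0,0,0,-1,-1,0,1] (.p true [0,0,0,1] [1] (⟨0,[(21,0)]⟩,⟨0,[(20,0)]⟩) .k 1 (⟨0,[]⟩,⟨0,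
  []⟩) .k .k) (.R ⟨0,false,false,true,[1,0,0,-1],[0,1],[0,1,0,0,0,0,0,0,-1],(⟨0,[(21,0)]⟩,⟨0,[(22,
  0)]⟩),(⟨0,[(34,0)]⟩,⟨0,[(33,0)]⟩),⟨0,[(1,0)]⟩,.k,.k,(.x (-1) ⟨7,[(7,3),(7,3),(3,2),(0,2),(11,1)]⟩
  ⟨0,[(34,0)]⟩),(.x (-1) ⟨7,[(7,3),(7,3),(3,2),(0,2),(11,1)]⟩ ⟨0,[(34,0)]⟩),.k,.k,⟨false,1,⟨0,[(0,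
  0),(20,0),(14,0)]⟩,⟨0,[(2,0),(19,0),(14,0)]⟩⟩,⟨true,0,⟨0,[(21,0)]⟩,⟨2,[(3,0),(1,1),(16,2),(1,0),
  (2,0)]⟩⟩,⟨true,0,⟨0,[(42,0)]⟩,⟨0,[]⟩⟩,⟨false,0,⟨0,[(2,0),(13,0),(9,0)]⟩,⟨0,[(0,0)]⟩⟩,⟨false,0,⟨0,
  []⟩,⟨0,[]⟩⟩,⟨false,0,⟨0,[]⟩,⟨0,[]⟩⟩,[.o ⟨false,0,⟨0,[(37,0)]⟩,⟨3,[(10,0),(18,0),(2,1),(2,1),(4,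
  0)]⟩⟩,.o ⟨false,1,⟨7,[(3,3),(15,2),(0,2),(18,1)]⟩,⟨0,[(5,0)]⟩⟩,.o ⟨false,1,⟨1,[(22,1),(9,0),(6,
  0)]⟩,⟨2,[(3,0),(1,1),(15,2),(2,0),(2,0)]⟩⟩,.a ⟨true,0,⟨0,[(22,0)]⟩,⟨0,[(21,0)]⟩⟩ ⟨false,1,⟨1,[(19,
  0),(19,0)]⟩,⟨0,[(2,0),(19,0)]⟩⟩ ⟨true,0,⟨0,[(21,0),(15,0)]⟩,⟨0,[(5,0),(16,0)]⟩⟩]⟩) (.R ⟨0,false,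
  false,true,[1,0,0,-1],[0,1],[0,0,1],(⟨0,[(21,0)]⟩,⟨0,[(22,0)]⟩),(⟨0,[(34,0)]⟩,⟨0,[(33,0)]⟩),⟨0,
  [(1,0)]⟩,.k,.k,(.x (-1) ⟨7,[(7,3),(7,3),(3,2),(0,2),(11,1)]⟩ ⟨0,[(34,0)]⟩),(.x (-1) ⟨7,[(7,3),(7,
  3),(3,2),(0,2),(11,1)]⟩ ⟨0,[(34,0)]⟩),.k,.k,⟨false,1,⟨1,[(10,0),(18,0),(10,0)]⟩,⟨0,[(37,0)]⟩⟩,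
  ⟨true,0,⟨0,[(21,0)]⟩,⟨2,[(3,0),(1,1),(16,2),(1,0),(2,0)]⟩⟩,⟨false,0,⟨0,[(2,0),(19,0)]⟩,⟨1,[(19,0),
  (19,0)]⟩⟩,⟨true,(-1),⟨0,[(0,0)]⟩,⟨3,[(4,1),(0,1),(4,0),(8,0),(2,1),(0,1),(5,0)]⟩⟩,⟨false,0,⟨0,[]⟩,
  ⟨0,[]⟩⟩,⟨false,0,⟨0,[]⟩,⟨0,[]⟩⟩,[.o ⟨false,0,⟨0,[(37,0)]⟩,⟨3,[(10,0),(18,0),(2,1),(2,1),(4,0)]⟩⟩,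
  .o ⟨false,1,⟨7,[(3,3),(15,2),(0,2),(18,1)]⟩,⟨0,[(5,0)]⟩⟩,.o ⟨false,1,⟨1,[(22,1),(9,0),(6,0)]⟩,⟨1,
  [(0,0),(1,0),(2,0),(13,0)]⟩⟩,.a ⟨true,0,⟨0,[(22,0)]⟩,⟨0,[(21,0)]⟩⟩ ⟨false,1,⟨3,[(19,0),(0,0),(19,
  1)]⟩,⟨0,[]⟩⟩ ⟨true,0,⟨0,[(21,0),(15,0)]⟩,⟨0,[(5,0),(16,0)]⟩⟩]⟩)) (.I [0,-1,-1,-1,1,0,0,0,-1] (.R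
  ⟨1,false,false,true,[1,0,0,-1],[1,0,-1],[0,0,0,-1,0,0,0,0,-1],(⟨0,[(21,0)]⟩,⟨0,[(22,0)]⟩),(⟨0,
  [(30,0)]⟩,⟨0,[(31,0)]⟩),⟨0,[(1,0)]⟩,.k,.k,(.x (-1) ⟨7,[(7,3),(7,3),(3,2),(0,2),(11,1)]⟩ ⟨0,[(34,
  0)]⟩),.k,(.r (-1) ⟨1,[(10,0),(8,0),(9,2)]⟩ ⟨0,[(2,0),(8,0),(10,0)]⟩),.k,⟨false,1,⟨0,[(0,0),(28,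
  0)]⟩,⟨0,[(2,0),(8,0),(10,0),(13,0)]⟩⟩,⟨true,0,⟨0,[(21,0),(2,0)]⟩,⟨0,[(9,0),(12,0)]⟩⟩,⟨true,0,⟨0,
  [(38,0)]⟩,⟨0,[(37,0)]⟩⟩,⟨false,0,⟨0,[(2,0),(23,0)]⟩,⟨0,[(4,0)]⟩⟩,⟨false,1,⟨3,[(19,0),(0,0),(19,
  1)]⟩,⟨0,[]⟩⟩,⟨false,0,⟨0,[(2,0),(14,0)]⟩,⟨0,[(4,0),(33,0)]⟩⟩,[.o ⟨false,0,⟨0,[(23,0)]⟩,⟨7,[(18,3),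
  (0,0),(0,0),(11,1),(7,3)]⟩⟩,.o ⟨false,1,⟨1,[(26,1),(5,0),(7,0)]⟩,⟨2,[(5,0),(2,0),(9,0)]⟩⟩,.o
  ⟨false,1,⟨1,[(22,1),(9,0),(6,0)]⟩,⟨2,[(3,0),(1,1),(15,2),(2,0),(2,0)]⟩⟩,.a ⟨true,0,⟨0,[(22,0)]⟩,
  ⟨0,[(21,0)]⟩⟩ ⟨false,1,⟨0,[(0,0)]⟩,⟨0,[(2,0),(19,0),(14,0)]⟩⟩ ⟨true,0,⟨0,[(21,0),(1,0)]⟩,⟨2,[(5,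
  0),(2,0),(9,0),(3,2)]⟩⟩]⟩) (.I [0,0,-1,-1,0,0,0,0,1] (.K ⟨0,[0,0,0,1],0,(-1),(⟨0,[(23,0)]⟩,⟨0,
  [(22,0)]⟩),.k,(.r 0 ⟨0,[(0,0)]⟩ ⟨5,[(13,1),(4,1),(1,3),(0,0),(6,1),(12,0)]⟩),(.x 0 ⟨0,[(35,0)]⟩
  ⟨7,[(8,3),(7,3),(3,2),(0,2),(11,1)]⟩),.k,.k,[⟨0,[(23,0)]⟩,⟨0,[(22,0)]⟩,⟨1,[(20,0),(2,1),(16,0),(2,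
  1)]⟩,⟨0,[(1,0),(4,0),(15,0)]⟩]⟩) (.K ⟨0,[0,0,0,1],0,(-1),(⟨0,[(23,0)]⟩,⟨0,[(22,0)]⟩),.k,(.x 0 ⟨1,
  [(8,0),(7,0),(8,0),(2,1),(0,0)]⟩ ⟨0,[(35,0),(4,0)]⟩),(.x 0 ⟨0,[(35,0)]⟩ ⟨7,[(8,3),(7,3),(3,2),(0,
  2),(11,1)]⟩),.k,.k,[⟨0,[(23,0)]⟩,⟨0,[(22,0)]⟩,⟨1,[(20,0),(2,1),(16,0),(2,1)]⟩,⟨0,[(1,0),(4,0),(15,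
  0)]⟩]⟩)))))) (.I [0,0,-1,-1,0,0,0,0,1] (.K ⟨0,[0,0,0,1],0,(-1),(⟨0,[(19,0)]⟩,⟨0,[(18,0)]⟩),.k,(.r
  0 ⟨0,[(0,0)]⟩ ⟨5,[(9,1),(4,1),(1,3),(0,0),(6,1),(12,0)]⟩),(.x 0 ⟨0,[(31,0)]⟩ ⟨7,[(4,3),(7,3),(3,
  2),(0,2),(11,1)]⟩),.k,.k,[⟨0,[(19,0)]⟩,⟨0,[(18,0)]⟩,⟨1,[(16,0),(2,1),(16,0),(2,1)]⟩,⟨2,[(1,2),(0,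
  0),(2,0),(9,0)]⟩]⟩) (.K ⟨0,[0,0,0,1],0,(-1),(⟨0,[(19,0)]⟩,⟨0,[(18,0)]⟩),.k,(.x 0 ⟨1,[(4,0),(7,0),
  (8,0),(2,1),(0,0)]⟩ ⟨0,[(31,0),(4,0)]⟩),(.x 0 ⟨0,[(31,0)]⟩ ⟨7,[(4,3),(7,3),(3,2),(0,2),(11,1)]⟩),
  .k,.k,[⟨0,[(19,0)]⟩,⟨0,[(18,0)]⟩,⟨1,[(16,0),(2,1),(16,0),(2,1)]⟩,⟨2,[(1,2),(0,0),(2,0),(9,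
  0)]⟩]⟩))))) (.Q [0,0,0,1,0,0,0,0,0,1] (.pp false [-1,1]) (.R ⟨0,false,false,false,[0,0,1],[1,-1],
  [0,0,1],(⟨0,[(25,0)]⟩,⟨0,[(24,0)]⟩),(⟨0,[(27,0)]⟩,⟨0,[(28,0)]⟩),⟨0,[(1,0)]⟩,.k,.k,.k,.k,.k,.k,
  ⟨false,0,⟨1,[(0,0),(1,0),(2,0),(12,0),(10,0)]⟩,⟨1,[(4,0),(18,0),(9,0)]⟩⟩,⟨true,0,⟨0,[(18,0)]⟩,⟨0,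
  [(8,0)]⟩⟩,⟨true,0,⟨0,[(0,0),(2,0),(13,0),(11,0)]⟩,⟨0,[(23,0),(6,0)]⟩⟩,⟨false,1,⟨2,[(4,0),(12,1),
  (0,0),(10,0),(4,1)]⟩,⟨0,[(10,0)]⟩⟩,⟨false,0,⟨0,[]⟩,⟨0,[]⟩⟩,⟨false,0,⟨0,[]⟩,⟨0,[]⟩⟩,[.a ⟨true,0,⟨0,
  [(32,0)]⟩,⟨0,[(0,0)]⟩⟩ ⟨true,0,⟨1,[(21,0),(0,0)]⟩,⟨0,[]⟩⟩ ⟨false,1,⟨1,[(4,0),(13,1),(4,0),(9,0)]⟩,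
  ⟨0,[(0,0),(2,0)]⟩⟩,.o ⟨false,1,⟨3,[(4,0),(18,0),(2,1),(2,1),(4,0)]⟩,⟨0,[(31,0)]⟩⟩,.o ⟨false,0,⟨0,
  [(3,0)]⟩,⟨1,[(22,1),(3,0),(6,0)]⟩⟩,.o ⟨false,0,⟨0,[(21,0)]⟩,⟨0,[(18,0),(14,0)]⟩⟩]⟩) (.Q [0,0,0,0,
  0,0,-1,0,0,1,1] (.p true [1,-1,1] [] (⟨0,[(25,0),(1,0)]⟩,⟨0,[(1,0)]⟩) .k 0 (⟨0,[]⟩,⟨0,[]⟩) .k .k)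
  (.R ⟨0,false,false,true,[0,1,-1],[0,1],[0,0,1],(⟨0,[(2,0)]⟩,⟨0,[(26,0),(1,0)]⟩),(⟨0,[(29,0)]⟩,⟨0,
  [(28,0)]⟩),⟨0,[(26,0)]⟩,.k,.k,.k,.k,.k,.k,⟨false,1,⟨1,[(5,0),(18,0),(10,0)]⟩,⟨0,[(32,0)]⟩⟩,⟨true,
  0,⟨0,[(4,0)]⟩,⟨0,[(23,0)]⟩⟩,⟨true,0,⟨0,[(24,0),(8,0)]⟩,⟨0,[(6,0)]⟩⟩,⟨false,0,⟨2,[(1,0),(1,0),(9,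
  0)]⟩,⟨0,[(21,0),(13,0)]⟩⟩,⟨false,0,⟨0,[]⟩,⟨0,[]⟩⟩,⟨false,0,⟨0,[]⟩,⟨0,[]⟩⟩,[.o ⟨false,0,⟨0,[(32,
  0)]⟩,⟨3,[(5,0),(18,0),(2,1),(2,1),(4,0)]⟩⟩,.o ⟨false,1,⟨11,[(6,3),(0,3),(6,2),(0,2),(18,3),(0,
  1)]⟩,⟨0,[(1,0)]⟩⟩,.o ⟨false,1,⟨1,[(0,1),(26,0),(6,0)]⟩,⟨0,[(4,1),(14,0)]⟩⟩,.a ⟨true,0,⟨0,[(0,0)]⟩,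
  ⟨0,[(4,0)]⟩⟩ ⟨false,1,⟨3,[(14,0),(0,0),(19,1)]⟩,⟨0,[]⟩⟩ ⟨true,0,⟨1,[(4,0),(1,0),(1,0)]⟩,⟨0,[(0,0),
  (0,0)]⟩⟩]⟩) (.I [0,1,1,0,-1,0,0,0,-1] (.Q [0,1,1,0,0,0,0,0,1,0,0,-1] (.p false [0,0,0,1] [] (⟨0,
  [(18,0)]⟩,⟨0,[(17,0)]⟩) .k 0 (⟨0,[]⟩,⟨0,[]⟩) .k .k) (.K ⟨0,[0,0,0,1],0,0,(⟨0,[(19,0)]⟩,⟨0,[(18,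
  0)]⟩),.k,(.r (-1) ⟨1,[(7,0),(9,0),(8,0)]⟩ ⟨6,[(1,4),(3,1),(2,0),(0,0),(4,1),(1,0),(20,3)]⟩),(.x 0
  ⟨0,[(31,0)]⟩ ⟨3,[(16,0),(0,0),(11,1),(0,3)]⟩),.k,.k,[⟨0,[(19,0)]⟩,⟨0,[(18,0)]⟩,⟨0,[(1,0),(17,0),
  (16,0)]⟩,⟨0,[(0,0)]⟩]⟩) (.R ⟨2,false,false,true,[0,1],[0,0,0,1],[],(⟨0,[]⟩,⟨0,[]⟩),(⟨0,[(19,0)]⟩,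
  ⟨0,[(18,0)]⟩),⟨0,[]⟩,.k,.k,.k,(.r 0 ⟨5,[(0,0),(0,2),(0,0),(5,0),(0,1),(4,0),(1,0),(1,0),(18,1)]⟩
  ⟨1,[(7,0),(9,0),(8,0)]⟩),.k,.k,⟨true,0,⟨2,[(0,1),(0,0),(0,0),(15,1),(2,0),(15,0)]⟩,⟨0,[(1,0),(15,
  0)]⟩⟩,⟨false,0,⟨2,[(2,0),(15,2),(2,1),(2,0)]⟩,⟨0,[(19,0),(16,0)]⟩⟩,⟨false,1,⟨1,[(7,0),(18,0),(10,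
  0)]⟩,⟨0,[(5,0),(8,0),(17,0)]⟩⟩,⟨true,0,⟨0,[(1,0),(1,0),(13,0),(0,0)]⟩,⟨0,[(0,0),(33,0)]⟩⟩,⟨false,
  1,⟨1,[(36,0),(0,0)]⟩,⟨1,[(24,0),(0,0)]⟩⟩,⟨false,1,⟨1,[(17,0),(0,1),(5,0),(0,0),(3,0)]⟩,⟨0,[(0,
  0)]⟩⟩,[.a ⟨true,0,⟨0,[(1,0),(15,0),(0,0)]⟩,⟨0,[(0,0)]⟩⟩ ⟨false,1,⟨3,[(16,0),(0,0),(18,1)]⟩,⟨0,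
  []⟩⟩ ⟨true,0,⟨2,[(1,2),(0,0),(14,2),(0,2),(2,1),(2,0)]⟩,⟨0,[(0,0)]⟩⟩,.o ⟨false,1,⟨1,[(17,0),(0,1),
  (5,0),(0,0),(3,0)]⟩,⟨1,[(0,1),(2,0),(6,0),(9,0)]⟩⟩,.o ⟨false,1,⟨3,[(16,0),(0,0),(18,1)]⟩,⟨2,[(2,
  0),(18,1),(2,0)]⟩⟩,.e ⟨false,1,⟨1,[(36,0),(0,0)]⟩,⟨1,[(24,0),(0,0)]⟩⟩ ⟨false,1,⟨1,[(17,0),(0,1),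
  (5,0),(0,0),(3,0)]⟩,⟨0,[(0,0)]⟩⟩]⟩)) (.I [0,0,-1,-1,0,0,0,0,1] (.Q [0,1,1,0,-1,0,0,0,1,0,0,-1]
  (.p false [0,0,0,1] [] (⟨0,[(19,0)]⟩,⟨0,[(18,0)]⟩) .k 0 (⟨0,[]⟩,⟨0,[]⟩) .k .k) (.K ⟨0,[0,0,0,1],0,
  (-1),(⟨0,[(20,0)]⟩,⟨0,[(19,0)]⟩),.k,(.r 0 ⟨0,[(1,0)]⟩ ⟨5,[(10,1),(4,1),(1,3),(0,0),(6,1),(12,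
  0)]⟩),(.x 0 ⟨0,[(32,0)]⟩ ⟨3,[(17,0),(0,0),(11,1),(0,3)]⟩),.k,.k,[⟨0,[(20,0)]⟩,⟨0,[(19,0)]⟩,⟨1,
  [(17,0),(2,1),(16,0),(2,1)]⟩,⟨0,[(0,0)]⟩]⟩) (.Q [0,1,-1,0,0,0,0,0,-1,0,0,1] (.p true [0,0,0,1] []
  (⟨0,[(20,0)]⟩,⟨0,[(19,0)]⟩) .k 0 (⟨0,[]⟩,⟨0,[]⟩) .k .k) (.K ⟨0,[0,0,0,1],0,0,(⟨0,[(21,0)]⟩,⟨0,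
  [(20,0)]⟩),.k,(.r 0 ⟨0,[(2,0)]⟩ ⟨5,[(11,1),(4,1),(1,3),(0,0),(6,1),(12,0)]⟩),(.x 0 ⟨0,[(33,0)]⟩
  ⟨3,[(18,0),(0,0),(11,1),(0,3)]⟩),.k,.k,[⟨0,[(21,0)]⟩,⟨0,[(20,0)]⟩,⟨0,[(0,0)]⟩,⟨3,[(2,3),(8,1),(8,
  3),(1,2),(0,0),(0,0),(1,2)]⟩]⟩) (.Q [0,0,0,0,0,1,0,0,0,-1,0,1] (.p true [0,0,0,1] [1] (⟨0,[(21,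
  0)]⟩,⟨0,[(20,0)]⟩) .k 1 (⟨0,[]⟩,⟨0,[]⟩) .k .k) (.R ⟨0,false,false,true,[1,0,0,-1],[0,1],[0,1,0,0,
  0,0,0,0,-1],(⟨0,[(21,0)]⟩,⟨0,[(22,0)]⟩),(⟨0,[(34,0)]⟩,⟨0,[(33,0)]⟩),⟨0,[(0,0)]⟩,.k,.k,(.x (-1) ⟨3,
  [(19,0),(0,0),(11,1),(0,3)]⟩ ⟨0,[(34,0)]⟩),(.x (-1) ⟨3,[(19,0),(0,0),(11,1),(0,3)]⟩ ⟨0,[(34,0)]⟩),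
  .k,.k,⟨false,1,⟨0,[(2,0),(3,0),(14,0),(14,0)]⟩,⟨1,[(1,0),(1,0),(7,0),(0,0),(9,0)]⟩⟩,⟨true,0,⟨0,
  [(21,0)]⟩,⟨2,[(5,0),(16,2),(1,1),(2,0)]⟩⟩,⟨true,0,⟨0,[(42,0)]⟩,⟨0,[]⟩⟩,⟨false,0,⟨1,[(1,0),(1,0),
  (8,0),(1,0),(2,0),(3,0)]⟩,⟨0,[(2,0),(3,0)]⟩⟩,⟨false,0,⟨0,[]⟩,⟨0,[]⟩⟩,⟨false,0,⟨0,[]⟩,⟨0,[]⟩⟩,[.o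
  ⟨false,0,⟨0,[(37,0)]⟩,⟨3,[(10,0),(18,0),(2,1),(2,1),(4,0)]⟩⟩,.o ⟨false,1,⟨11,[(11,3),(0,3),(6,2),
  (0,2),(18,3),(0,1)]⟩,⟨0,[(6,0)]⟩⟩,.o ⟨false,1,⟨1,[(22,1),(9,0),(6,0)]⟩,⟨2,[(5,0),(15,2),(2,1),(2,
  0)]⟩⟩,.a ⟨true,0,⟨0,[(22,0)]⟩,⟨0,[(21,0)]⟩⟩ ⟨false,1,⟨1,[(19,0),(19,0)]⟩,⟨0,[(1,0),(20,0)]⟩⟩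
  ⟨true,0,⟨0,[(21,0),(15,0)]⟩,⟨0,[(6,0),(15,0)]⟩⟩]⟩) (.R ⟨1,false,false,true,[1,0,0,-1],[0,1],[1,1,
  0,0,0,0,0,0,-1],(⟨0,[(21,0)]⟩,⟨0,[(22,0)]⟩),(⟨0,[(34,0)]⟩,⟨0,[(33,0)]⟩),⟨0,[(0,0)]⟩,.k,.k,(.x
  (-1) ⟨3,[(19,0),(0,0),(11,1),(0,3)]⟩ ⟨0,[(34,0)]⟩),(.x (-1) ⟨3,[(19,0),(0,0),(11,1),(0,3)]⟩ ⟨0,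
  [(34,0)]⟩),(.r (-1) ⟨0,[(2,0),(3,0),(14,0),(14,0),(1,0)]⟩ ⟨3,[(1,2),(1,0),(7,2),(0,2),(9,2)]⟩),.k,
  ⟨false,1,⟨0,[(2,0),(3,0),(14,0),(14,0)]⟩,⟨1,[(1,0),(1,0),(7,0),(0,0),(9,0)]⟩⟩,⟨true,0,⟨0,[(21,
  0)]⟩,⟨2,[(5,0),(16,2),(1,1),(2,0)]⟩⟩,⟨false,0,⟨0,[]⟩,⟨3,[(19,0),(0,0),(19,1)]⟩⟩,⟨false,0,⟨1,[(1,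
  0),(1,0),(8,0),(1,0),(2,0),(3,0)]⟩,⟨0,[(2,0),(3,0)]⟩⟩,⟨true,0,⟨0,[(37,0)]⟩,⟨0,[(38,0)]⟩⟩,⟨false,0,
  ⟨0,[(1,0),(14,0),(0,0)]⟩,⟨0,[(2,0),(3,0),(31,0)]⟩⟩,[.o ⟨false,0,⟨0,[(37,0)]⟩,⟨3,[(10,0),(18,0),(2,
  1),(2,1),(4,0)]⟩⟩,.o ⟨false,1,⟨11,[(11,3),(0,3),(6,2),(0,2),(18,3),(0,1)]⟩,⟨0,[(6,0)]⟩⟩,.o ⟨false,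
  1,⟨1,[(22,1),(9,0),(6,0)]⟩,⟨2,[(5,0),(15,2),(2,1),(2,0)]⟩⟩,.a ⟨true,0,⟨0,[(22,0)]⟩,⟨0,[(21,0)]⟩⟩
  ⟨false,1,⟨1,[(19,0),(19,0)]⟩,⟨0,[(1,0),(20,0)]⟩⟩ ⟨true,0,⟨0,[(21,0),(15,0)]⟩,⟨0,[(6,0),(15,
  0)]⟩⟩]⟩)))) (.Q [0,1,1,0,0,0,0,0,1,0,0,-1] (.p false [0,0,0,1] [] (⟨0,[(19,0)]⟩,⟨0,[(18,0)]⟩) .k
  0 (⟨0,[]⟩,⟨0,[]⟩) .k .k) (.I [1,0,0,0,0,0,0,0,-1] (.K ⟨0,[0,0,0,1],0,0,(⟨0,[(21,0)]⟩,⟨0,[(20,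
  0)]⟩),.k,(.r (-1) ⟨1,[(9,0),(9,0),(8,0)]⟩ ⟨0,[(0,0),(6,0),(8,0),(17,0)]⟩),(.x 0 ⟨0,[(33,0)]⟩ ⟨3,
  [(18,0),(0,0),(11,1),(0,3)]⟩),.k,.k,[⟨0,[(21,0)]⟩,⟨0,[(20,0)]⟩,⟨0,[(0,0),(20,0),(13,0)]⟩,⟨0,[(1,
  0)]⟩]⟩) (.Q [0,1,1,0,-1,0,0,0,1,0,0,-1] (.p false [0,0,0,1] [] (⟨0,[(21,0)]⟩,⟨0,[(20,0)]⟩) .k 0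
  (⟨0,[]⟩,⟨0,[]⟩) .k .k) (.K ⟨0,[0,0,0,1],0,(-1),(⟨0,[(22,0)]⟩,⟨0,[(21,0)]⟩),.k,(.x 0 ⟨0,[(24,0),(2,
  0),(5,0)]⟩ ⟨0,[(34,0),(4,0)]⟩),(.x 0 ⟨0,[(34,0)]⟩ ⟨3,[(19,0),(0,0),(11,1),(0,3)]⟩),.k,.k,[⟨0,[(22,
  0)]⟩,⟨0,[(21,0)]⟩,⟨1,[(19,0),(2,1),(16,0),(2,1)]⟩,⟨0,[(0,0)]⟩]⟩) (.Q [0,1,-1,0,0,0,0,0,-1,0,0,1]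
  (.p true [0,0,0,1] [] (⟨0,[(22,0)]⟩,⟨0,[(21,0)]⟩) .k 0 (⟨0,[]⟩,⟨0,[]⟩) .k .k) (.K ⟨0,[0,0,0,1],0,
  0,(⟨0,[(23,0)]⟩,⟨0,[(22,0)]⟩),.k,(.x 0 ⟨0,[(25,0),(2,0),(5,0)]⟩ ⟨0,[(35,0),(4,0)]⟩),(.x 0 ⟨0,[(35,
  0)]⟩ ⟨3,[(20,0),(0,0),(11,1),(0,3)]⟩),.k,.k,[⟨0,[(23,0)]⟩,⟨0,[(22,0)]⟩,⟨0,[(0,0)]⟩,⟨0,[(3,0)]⟩]⟩)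
  (.Q [0,0,0,0,0,-1,0,0,0,1,0,-1] (.p false [0,0,0,1] [1] (⟨0,[(23,0)]⟩,⟨0,[(22,0)]⟩) .k 1 (⟨0,[]⟩,
  ⟨0,[]⟩) .k .k) (.R ⟨1,false,false,false,[1,0,0,-1],[1,-1],[0,0,0,-1,0,0,0,0,-1],(⟨0,[(23,0)]⟩,⟨0,
  [(24,0)]⟩),(⟨0,[(35,0)]⟩,⟨0,[(36,0)]⟩),⟨0,[(0,0)]⟩,.k,.k,(.x (-1) ⟨3,[(21,0),(0,0),(11,1),(0,3)]⟩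
  ⟨0,[(36,0)]⟩),(.x (-1) ⟨0,[(36,0),(4,0)]⟩ ⟨0,[(26,0),(2,0),(5,0)]⟩),.k,.k,⟨true,0,⟨0,[(5,0),(34,
  0)]⟩,⟨0,[(3,0)]⟩⟩,⟨false,0,⟨3,[(1,0),(2,0),(0,1),(2,1),(14,1)]⟩,⟨0,[(24,0),(16,0)]⟩⟩,⟨true,0,⟨0,
  [(40,0)]⟩,⟨0,[(39,0)]⟩⟩,⟨false,0,⟨0,[(1,0),(38,0)]⟩,⟨0,[(2,0),(36,0)]⟩⟩,⟨false,1,⟨3,[(21,0),(0,0),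
  (19,1)]⟩,⟨0,[]⟩⟩,⟨false,0,⟨0,[(1,0)]⟩,⟨0,[(2,0),(41,0)]⟩⟩,[.o ⟨false,0,⟨0,[(8,0)]⟩,⟨11,[(13,3),(0,
  3),(6,2),(0,2),(18,3),(0,1)]⟩⟩,.o ⟨false,1,⟨3,[(12,0),(18,0),(2,1),(2,1),(4,0)]⟩,⟨0,[(39,0)]⟩⟩,.o
  ⟨false,1,⟨1,[(24,1),(9,0),(6,0)]⟩,⟨3,[(1,0),(2,0),(0,1),(2,1),(14,1)]⟩⟩,.a ⟨true,0,⟨0,[(24,0)]⟩,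
  ⟨0,[(23,0)]⟩⟩ ⟨false,1,⟨0,[(2,0),(5,0),(14,0)]⟩,⟨2,[(1,0),(1,1),(9,0),(0,0),(9,0)]⟩⟩ ⟨true,0,⟨0,
  [(8,0),(14,0)]⟩,⟨0,[(24,0),(14,0)]⟩⟩]⟩) (.R ⟨0,false,false,true,[1,0,0,-1],[0,1],[0,1,0,0,0,0,0,0,
  -1],(⟨0,[(23,0)]⟩,⟨0,[(24,0)]⟩),(⟨0,[(36,0)]⟩,⟨0,[(35,0)]⟩),⟨0,[(0,0)]⟩,.k,.k,(.x (-1) ⟨3,[(21,0),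
  (0,0),(11,1),(0,3)]⟩ ⟨0,[(36,0)]⟩),(.x (-1) ⟨3,[(21,0),(0,0),(11,1),(0,3)]⟩ ⟨0,[(36,0)]⟩),.k,.k,
  ⟨false,1,⟨0,[(2,0),(5,0),(14,0),(14,0)]⟩,⟨2,[(1,0),(1,1),(9,0),(0,0),(9,0)]⟩⟩,⟨true,0,⟨0,[(23,
  0)]⟩,⟨2,[(7,0),(16,2),(1,1),(2,0)]⟩⟩,⟨true,0,⟨0,[(44,0)]⟩,⟨0,[]⟩⟩,⟨false,0,⟨2,[(1,0),(1,1),(10,0),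
  (1,0),(2,0),(3,1)]⟩,⟨0,[(2,0),(5,0)]⟩⟩,⟨false,0,⟨0,[]⟩,⟨0,[]⟩⟩,⟨false,0,⟨0,[]⟩,⟨0,[]⟩⟩,[.o ⟨false,
  0,⟨0,[(39,0)]⟩,⟨3,[(12,0),(18,0),(2,1),(2,1),(4,0)]⟩⟩,.o ⟨false,1,⟨11,[(13,3),(0,3),(6,2),(0,2),
  (18,3),(0,1)]⟩,⟨0,[(8,0)]⟩⟩,.o ⟨false,1,⟨1,[(24,1),(9,0),(6,0)]⟩,⟨3,[(1,0),(2,0),(0,1),(2,1),(14,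
  1)]⟩⟩,.a ⟨true,0,⟨0,[(24,0)]⟩,⟨0,[(23,0)]⟩⟩ ⟨false,1,⟨1,[(21,0),(19,0)]⟩,⟨0,[(1,0),(22,0)]⟩⟩
  ⟨true,0,⟨0,[(23,0),(15,0)]⟩,⟨0,[(8,0),(15,0)]⟩⟩]⟩))))) (.Q [0,0,0,0,0,1,0,0,0,-1,0,1] (.p true [0,
  0,0,1] [1] (⟨0,[(20,0)]⟩,⟨0,[(19,0)]⟩) .k 1 (⟨0,[]⟩,⟨0,[]⟩) .k .k) (.R ⟨0,false,false,true,[1,0,0,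
  -1],[0,1],[0,1,0,0,0,0,0,0,-1],(⟨0,[(20,0)]⟩,⟨0,[(21,0)]⟩),(⟨0,[(33,0)]⟩,⟨0,[(32,0)]⟩),⟨0,[(0,
  0)]⟩,.k,.k,(.x (-1) ⟨3,[(18,0),(0,0),(11,1),(0,3)]⟩ ⟨0,[(33,0)]⟩),(.x (-1) ⟨3,[(18,0),(0,0),(11,
  1),(0,3)]⟩ ⟨0,[(33,0)]⟩),.k,.k,⟨false,0,⟨0,[(1,0),(3,0),(14,0),(14,0)]⟩,⟨5,[(11,1),(4,1),(1,0),(0,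
  3),(6,1),(12,0)]⟩⟩,⟨true,0,⟨0,[(20,0)]⟩,⟨2,[(4,0),(16,2),(1,1),(2,0)]⟩⟩,⟨true,0,⟨0,[(41,0)]⟩,⟨0,
  []⟩⟩,⟨false,1,⟨5,[(11,1),(4,1),(1,0),(0,3),(0,5),(5,1),(12,0)]⟩,⟨0,[(1,0),(3,0)]⟩⟩,⟨false,0,⟨0,
  []⟩,⟨0,[]⟩⟩,⟨false,0,⟨0,[]⟩,⟨0,[]⟩⟩,[.o ⟨false,0,⟨0,[(36,0)]⟩,⟨3,[(9,0),(18,0),(2,1),(2,1),(4,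
  0)]⟩⟩,.o ⟨false,1,⟨11,[(10,3),(0,3),(6,2),(0,2),(18,3),(0,1)]⟩,⟨0,[(5,0)]⟩⟩,.o ⟨false,1,⟨1,[(21,
  1),(9,0),(6,0)]⟩,⟨2,[(4,0),(15,2),(2,1),(2,0)]⟩⟩,.a ⟨true,0,⟨0,[(21,0)]⟩,⟨0,[(20,0)]⟩⟩ ⟨false,0,
  ⟨3,[(1,2),(0,0),(2,1),(1,0),(12,2),(1,0),(12,1)]⟩,⟨11,[(11,1),(4,1),(1,0),(0,6),(6,1),(7,5),(4,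
  3)]⟩⟩ ⟨true,0,⟨0,[(20,0),(15,0)]⟩,⟨0,[(5,0),(15,0)]⟩⟩]⟩) (.R ⟨1,false,false,true,[1,0,0,-1],[0,1],
  [0,1,0,-1,0,0,0,0,-1],(⟨0,[(20,0)]⟩,⟨0,[(21,0)]⟩),(⟨0,[(33,0)]⟩,⟨0,[(32,0)]⟩),⟨0,[(0,0)]⟩,.k,.k,
  (.x (-1) ⟨3,[(18,0),(0,0),(11,1),(0,3)]⟩ ⟨0,[(33,0)]⟩),(.x (-1) ⟨3,[(18,0),(0,0),(11,1),(0,3)]⟩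
  ⟨0,[(33,0)]⟩),(.r 0 ⟨0,[(1,0),(3,0),(14,0),(14,0),(1,0)]⟩ ⟨11,[(11,7),(4,7),(1,0),(0,6),(6,7),(12,
  3)]⟩),.k,⟨false,0,⟨0,[(1,0),(3,0),(14,0),(14,0),(1,0)]⟩,⟨5,[(10,3),(0,3),(7,2),(18,0),(0,1)]⟩⟩,
  ⟨true,0,⟨0,[(20,0)]⟩,⟨2,[(4,0),(16,2),(1,1),(2,0)]⟩⟩,⟨false,0,⟨0,[(37,0)]⟩,⟨2,[(10,0),(0,0),(26,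
  0),(0,1)]⟩⟩,⟨false,1,⟨5,[(11,1),(4,1),(1,0),(0,3),(0,5),(5,1),(12,0)]⟩,⟨0,[(1,0),(3,0)]⟩⟩,⟨true,0,
  ⟨0,[(41,0)]⟩,⟨0,[]⟩⟩,⟨false,1,⟨5,[(10,3),(0,3),(7,2),(0,5),(17,0),(0,1)]⟩,⟨0,[(1,0),(3,0),(31,
  0)]⟩⟩,[.o ⟨false,0,⟨0,[(36,0)]⟩,⟨3,[(9,0),(18,0),(2,1),(2,1),(4,0)]⟩⟩,.o ⟨false,1,⟨11,[(10,3),(0,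
  3),(6,2),(0,2),(18,3),(0,1)]⟩,⟨0,[(5,0)]⟩⟩,.o ⟨false,1,⟨1,[(21,1),(9,0),(6,0)]⟩,⟨2,[(4,0),(15,2),
  (2,1),(2,0)]⟩⟩,.a ⟨true,0,⟨0,[(21,0)]⟩,⟨0,[(20,0)]⟩⟩ ⟨false,0,⟨2,[(1,1),(0,0),(2,1),(14,1),(14,1),
  (1,1)]⟩,⟨3,[(3,1),(6,1),(0,1),(7,0),(14,1),(4,0)]⟩⟩ ⟨true,0,⟨0,[(20,0),(15,0)]⟩,⟨0,[(5,0),(15,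
  0)]⟩⟩]⟩)))))))))) (.I [0,0,2,0,-1,-2,-1] (.K ⟨0,[0,1,1],1,0,(⟨0,[(22,0),(2,0)]⟩,⟨0,[(6,0)]⟩),.k,
  .k,(.x (-2) ⟨3,[(10,0),(0,0),(6,3),(3,3),(2,7),(4,5)]⟩ ⟨0,[(0,0)]⟩),.k,.k,[⟨0,[(0,0),(21,0),(2,
  1)]⟩,⟨0,[(5,0),(24,0)]⟩,⟨0,[(17,0),(11,0)]⟩,⟨0,[(4,0)]⟩]⟩) (.I [0,0,2,2,-1,0,0,1] (.Q [0,0,0,0,0,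
  0,-1,0,0,0,1] (.p true [0,0,1] [] (⟨0,[(23,0)]⟩,⟨0,[(22,0)]⟩) .k 0 (⟨0,[]⟩,⟨0,[]⟩) .k .k) (.K ⟨0,
  [1,-1,-1],0,0,(⟨0,[(8,0)]⟩,⟨0,[(24,0),(2,0)]⟩),.k,(.r (-2) ⟨1,[(19,1),(0,1),(10,3),(0,2),(0,0)]⟩
  ⟨0,[(1,0)]⟩),.k,.k,.k,[⟨0,[(7,0)]⟩,⟨0,[(0,0)]⟩,⟨0,[(10,0),(0,0)]⟩,⟨0,[(16,0),(14,0)]⟩]⟩) (.Q [0,0,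
  0,1,0,0,0,0,0,1] (.pp false [-1,1]) (.R ⟨1,false,false,false,[1,0,-1],[1,-1],[0,0,0,-1,0,0,0,-1],
  (⟨0,[(24,0)]⟩,⟨0,[(25,0)]⟩),(⟨0,[(27,0)]⟩,⟨0,[(28,0)]⟩),⟨0,[(9,0)]⟩,.k,.k,.k,.k,.k,.k,⟨true,0,⟨0,
  [(0,0),(0,0),(15,0),(11,0)]⟩,⟨0,[(23,0)]⟩⟩,⟨false,0,⟨0,[(1,0)]⟩,⟨0,[(22,0),(10,0)]⟩⟩,⟨true,0,⟨0,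
  [(32,0)]⟩,⟨0,[(31,0)]⟩⟩,⟨true,0,⟨0,[(1,0),(21,0),(8,0)]⟩,⟨0,[(11,0)]⟩⟩,⟨false,1,⟨3,[(13,0),(0,0),
  (19,1)]⟩,⟨0,[]⟩⟩,⟨true,0,⟨0,[(1,0),(21,0)]⟩,⟨0,[(20,0)]⟩⟩,[.a ⟨true,0,⟨0,[(32,0)]⟩,⟨0,[(0,0)]⟩⟩
  ⟨false,1,⟨1,[(1,1),(18,1),(11,1),(0,0),(0,0)]⟩,⟨1,[(4,0),(18,0),(9,0)]⟩⟩ ⟨true,0,⟨0,[(1,0),(30,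
  0)]⟩,⟨5,[(4,1),(6,1),(10,3),(10,0),(0,0)]⟩⟩,.o ⟨false,1,⟨1,[(26,0),(5,1),(1,0)]⟩,⟨0,[(31,0)]⟩⟩,.o
  ⟨false,1,⟨1,[(22,1),(3,0),(6,0)]⟩,⟨0,[(1,0)]⟩⟩,.o ⟨false,0,⟨0,[(18,0)]⟩,⟨3,[(1,3),(11,0),(0,0),
  (18,1)]⟩⟩]⟩) (.Q [0,1,-1,0,0,0,0,0,-1,0,0,1] (.p true [0,0,0,1] [] (⟨0,[(16,0)]⟩,⟨0,[(15,0)]⟩) .k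
  0 (⟨0,[]⟩,⟨0,[]⟩) .k .k) (.K ⟨0,[0,0,0,1],0,0,(⟨0,[(17,0)]⟩,⟨0,[(16,0)]⟩),.k,(.r (-1) ⟨1,[(15,0),
  (17,1),(0,0)]⟩ ⟨5,[(0,3),(1,3),(2,3),(8,0),(1,3),(1,3),(11,1),(4,2)]⟩),(.x 0 ⟨0,[(29,0)]⟩ ⟨3,[(14,
  0),(0,0),(11,1),(0,3)]⟩),.k,.k,[⟨0,[(17,0)]⟩,⟨0,[(16,0)]⟩,⟨0,[(0,0)]⟩,⟨1,[(1,0),(0,0),(2,0),(9,0),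
  (0,1),(1,0),(14,0),(3,0)]⟩]⟩) (.Q [0,1,1,0,-1,0,0,0,1,0,0,-1] (.p false [0,0,0,1] [] (⟨0,[(17,
  0)]⟩,⟨0,[(16,0)]⟩) .k 0 (⟨0,[]⟩,⟨0,[]⟩) .k .k) (.K ⟨0,[0,0,0,1],0,(-1),(⟨0,[(18,0)]⟩,⟨0,[(17,
  0)]⟩),.k,(.x 0 ⟨0,[(20,0),(2,0),(5,0)]⟩ ⟨0,[(30,0),(4,0)]⟩),(.x 0 ⟨0,[(30,0)]⟩ ⟨3,[(15,0),(0,0),
  (11,1),(0,3)]⟩),.k,.k,[⟨0,[(18,0)]⟩,⟨0,[(17,0)]⟩,⟨1,[(15,0),(2,1),(16,0),(2,1)]⟩,⟨0,[(0,0)]⟩]⟩)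
  (.Q [0,0,0,0,0,-1,0,0,0,1,0,-1] (.p false [0,0,0,1] [1] (⟨0,[(18,0)]⟩,⟨0,[(17,0)]⟩) .k 1 (⟨0,[]⟩,
  ⟨0,[]⟩) .k .k) (.R ⟨1,false,false,false,[1,0,0,-1],[1,-1],[0,0,0,-1,0,0,0,0,-1],(⟨0,[(18,0)]⟩,⟨0,
  [(19,0)]⟩),(⟨0,[(30,0)]⟩,⟨0,[(31,0)]⟩),⟨0,[(0,0)]⟩,.k,.k,(.x (-1) ⟨3,[(16,0),(0,0),(11,1),(0,3)]⟩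
  ⟨0,[(31,0)]⟩),(.r 0 ⟨0,[(1,0),(2,0),(2,0),(10,0),(1,0),(14,0)]⟩ ⟨1,[(17,0),(17,1),(0,0)]⟩),.k,.k,
  ⟨true,0,⟨0,[(1,0),(2,0),(2,0),(10,0),(1,0),(14,1)]⟩,⟨0,[(2,0),(16,0),(13,0)]⟩⟩,⟨false,0,⟨11,[(2,
  3),(0,3),(3,1),(8,1),(1,7),(1,2),(0,0),(0,0),(1,2)]⟩,⟨0,[(19,0),(16,0)]⟩⟩,⟨true,0,⟨0,[(35,0)]⟩,⟨0,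
  [(34,0)]⟩⟩,⟨false,0,⟨0,[(2,0),(32,0)]⟩,⟨0,[(1,0),(32,0)]⟩⟩,⟨false,1,⟨3,[(16,0),(0,0),(19,1)]⟩,⟨0,
  []⟩⟩,⟨false,0,⟨0,[(2,0)]⟩,⟨1,[(16,0),(2,1),(16,0)]⟩⟩,[.o ⟨false,0,⟨0,[(3,0)]⟩,⟨11,[(8,3),(0,3),(6,
  2),(0,2),(18,3),(0,1)]⟩⟩,.o ⟨false,1,⟨1,[(29,0),(5,1),(1,0)]⟩,⟨0,[(34,0)]⟩⟩,.o ⟨false,1,⟨1,[(19,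
  1),(9,0),(6,0)]⟩,⟨11,[(2,3),(0,3),(3,1),(8,1),(1,7),(1,2),(0,0),(0,0),(1,2)]⟩⟩,.a ⟨true,0,⟨0,[(19,
  0)]⟩,⟨0,[(18,0)]⟩⟩ ⟨false,1,⟨0,[(1,0),(1,0),(14,0)]⟩,⟨2,[(2,0),(4,0),(0,0),(8,0),(1,0)]⟩⟩ ⟨true,0,
  ⟨0,[(3,0),(14,0)]⟩,⟨0,[(19,0),(14,0)]⟩⟩]⟩) (.R ⟨0,false,false,true,[1,0,0,-1],[0,1],[0,1,0,0,0,0,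
  0,0,-1],(⟨0,[(18,0)]⟩,⟨0,[(19,0)]⟩),(⟨0,[(31,0)]⟩,⟨0,[(30,0)]⟩),⟨0,[(0,0)]⟩,.k,.k,(.x (-1) ⟨3,
  [(16,0),(0,0),(11,1),(0,3)]⟩ ⟨0,[(31,0)]⟩),(.x (-1) ⟨3,[(16,0),(0,0),(11,1),(0,3)]⟩ ⟨0,[(31,0)]⟩),
  .k,.k,⟨false,1,⟨0,[(1,0),(1,0),(14,0),(14,0)]⟩,⟨2,[(2,0),(4,0),(0,0),(8,0),(1,0)]⟩⟩,⟨true,0,⟨0,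
  [(18,0)]⟩,⟨3,[(3,0),(3,0),(11,3),(0,0),(3,0),(4,0),(2,0)]⟩⟩,⟨true,0,⟨0,[(39,0)]⟩,⟨0,[]⟩⟩,⟨false,0,
  ⟨2,[(2,0),(4,0),(3,0),(2,0),(2,0),(0,1)]⟩,⟨0,[(1,0),(1,0)]⟩⟩,⟨false,0,⟨0,[]⟩,⟨0,[]⟩⟩,⟨false,0,⟨0,
  []⟩,⟨0,[]⟩⟩,[.o ⟨false,0,⟨0,[(34,0)]⟩,⟨1,[(29,0),(5,1),(1,0)]⟩⟩,.o ⟨false,1,⟨11,[(8,3),(0,3),(6,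
  2),(0,2),(18,3),(0,1)]⟩,⟨0,[(3,0)]⟩⟩,.o ⟨false,1,⟨1,[(19,1),(9,0),(6,0)]⟩,⟨11,[(2,3),(0,3),(3,1),
  (8,1),(1,7),(1,2),(0,0),(0,0),(1,2)]⟩⟩,.a ⟨true,0,⟨0,[(19,0)]⟩,⟨0,[(18,0)]⟩⟩ ⟨false,1,⟨1,[(16,0),
  (19,0)]⟩,⟨0,[(2,0),(16,0)]⟩⟩ ⟨true,0,⟨0,[(18,0),(15,0)]⟩,⟨0,[(3,0),(15,0)]⟩⟩]⟩)))))) (.I [0,0,-2,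
  0,1,2,1] (.Q [0,0,0,0,0,0,-1,0,0,0,1] (.p true [0,0,1] [] (⟨0,[(24,0)]⟩,⟨0,[(23,0)]⟩) .k 0 (⟨0,
  []⟩,⟨0,[]⟩) .k .k) (.K ⟨0,[1,-1,-1],0,0,(⟨0,[(9,0)]⟩,⟨0,[(25,0),(2,0)]⟩),.k,(.x 0 ⟨1,[(4,0),(4,1),
  (7,0),(0,0),(7,0),(0,1),(1,0),(2,0)]⟩ ⟨0,[(1,0)]⟩),.k,.k,.k,[⟨0,[(8,0)]⟩,⟨0,[(0,0)]⟩,⟨0,[(11,0),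
  (0,0)]⟩,⟨0,[(17,0),(14,0)]⟩]⟩) (.Q [0,0,0,1,0,0,0,0,0,1] (.pp false [-1,1]) (.R ⟨1,false,false,
  false,[1,0,-1],[1,-1],[0,0,0,-1,0,0,0,-1],(⟨0,[(25,0)]⟩,⟨0,[(26,0)]⟩),(⟨0,[(28,0)]⟩,⟨0,[(29,0)]⟩),
  ⟨0,[(10,0)]⟩,.k,.k,.k,.k,.k,.k,⟨true,0,⟨0,[(0,0),(0,0),(16,0),(11,0)]⟩,⟨0,[(24,0)]⟩⟩,⟨false,0,⟨0,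
  [(1,0)]⟩,⟨0,[(23,0),(10,0)]⟩⟩,⟨true,0,⟨0,[(33,0)]⟩,⟨0,[(32,0)]⟩⟩,⟨true,0,⟨0,[(1,0),(22,0),(8,0)]⟩,
  ⟨0,[(12,0)]⟩⟩,⟨false,1,⟨3,[(14,0),(0,0),(19,1)]⟩,⟨0,[]⟩⟩,⟨true,0,⟨0,[(1,0),(22,0)]⟩,⟨0,[(21,0)]⟩⟩,
  [.a ⟨true,0,⟨0,[(33,0)]⟩,⟨0,[(0,0)]⟩⟩ ⟨false,1,⟨11,[(3,7),(8,3),(1,0),(0,0),(6,3),(12,1)]⟩,⟨1,[(5,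
  0),(18,0),(9,0)]⟩⟩ ⟨true,0,⟨0,[(1,0),(31,0)]⟩,⟨5,[(5,1),(6,1),(10,3),(10,0),(0,0)]⟩⟩,.o ⟨false,1,
  ⟨3,[(3,0),(20,0),(2,1),(2,1),(4,0)]⟩,⟨0,[(32,0)]⟩⟩,.o ⟨false,1,⟨1,[(23,1),(3,0),(6,0)]⟩,⟨0,[(1,
  0)]⟩⟩,.o ⟨false,0,⟨0,[(19,0)]⟩,⟨0,[(22,0),(11,0)]⟩⟩]⟩) (.Q [0,1,-1,0,0,0,0,0,-1,0,0,1] (.p true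
  [0,0,0,1] [] (⟨0,[(17,0)]⟩,⟨0,[(16,0)]⟩) .k 0 (⟨0,[]⟩,⟨0,[]⟩) .k .k) (.K ⟨0,[0,0,0,1],0,0,(⟨0,
  [(18,0)]⟩,⟨0,[(17,0)]⟩),.k,(.r (-1) ⟨1,[(4,0),(11,0),(8,0)]⟩ ⟨5,[(0,3),(0,3),(4,3),(0,3),(7,0),(1,
  3),(13,1),(4,2)]⟩),(.x 0 ⟨0,[(30,0)]⟩ ⟨3,[(15,0),(0,0),(11,1),(0,3)]⟩),.k,.k,[⟨0,[(18,0)]⟩,⟨0,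
  [(17,0)]⟩,⟨0,[(0,0)]⟩,⟨3,[(1,4),(4,1),(0,0),(2,0),(5,1),(0,3),(4,0),(15,1)]⟩]⟩) (.I [0,0,-1,-1,0,
  0,0,0,1] (.K ⟨0,[0,0,0,1],0,(-1),(⟨0,[(19,0)]⟩,⟨0,[(18,0)]⟩),.k,(.r 0 ⟨0,[(0,0)]⟩ ⟨5,[(9,1),(4,1),
  (1,3),(0,0),(6,1),(12,0)]⟩),(.x 0 ⟨0,[(31,0)]⟩ ⟨3,[(16,0),(0,0),(11,1),(0,3)]⟩),.k,.k,[⟨0,[(19,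
  0)]⟩,⟨0,[(18,0)]⟩,⟨1,[(16,0),(2,1),(16,0),(2,1)]⟩,⟨1,[(0,1),(1,2),(4,1),(0,0),(2,0),(6,1),(4,
  0)]⟩]⟩) (.Q [0,1,1,0,-1,0,0,0,1,0,0,-1] (.p false [0,0,0,1] [] (⟨0,[(19,0)]⟩,⟨0,[(18,0)]⟩) .k 0
  (⟨0,[]⟩,⟨0,[]⟩) .k .k) (.K ⟨0,[0,0,0,1],0,(-1),(⟨0,[(20,0)]⟩,⟨0,[(19,0)]⟩),.k,(.x 0 ⟨0,[(22,0),(2,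
  0),(5,0)]⟩ ⟨0,[(32,0),(4,0)]⟩),(.x 0 ⟨0,[(32,0)]⟩ ⟨3,[(17,0),(0,0),(11,1),(0,3)]⟩),.k,.k,[⟨0,[(20,
  0)]⟩,⟨0,[(19,0)]⟩,⟨1,[(17,0),(2,1),(16,0),(2,1)]⟩,⟨0,[(0,0)]⟩]⟩) (.Q [0,0,0,0,0,-1,0,0,0,1,0,-1]
  (.p false [0,0,0,1] [1] (⟨0,[(20,0)]⟩,⟨0,[(19,0)]⟩) .k 1 (⟨0,[]⟩,⟨0,[]⟩) .k .k) (.R ⟨1,false,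
  false,false,[1,0,0,-1],[1,-1],[0,0,0,-1,0,0,0,0,-1],(⟨0,[(20,0)]⟩,⟨0,[(21,0)]⟩),(⟨0,[(32,0)]⟩,⟨0,
  [(33,0)]⟩),⟨0,[(0,0)]⟩,.k,.k,(.x (-1) ⟨3,[(18,0),(0,0),(11,1),(0,3)]⟩ ⟨0,[(33,0)]⟩),(.r 0 ⟨0,[(0,
  1),(0,0),(2,1),(0,0),(3,0),(6,0),(4,0),(11,1)]⟩ ⟨1,[(7,0),(11,0),(8,0)]⟩),.k,.k,⟨true,0,⟨0,[(2,0),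
  (34,0)]⟩,⟨0,[(3,0),(17,0),(13,0)]⟩⟩,⟨false,0,⟨8,[(2,0),(0,0),(0,2),(4,0),(10,7),(1,0),(0,1),(2,2),
  (4,0)]⟩,⟨0,[(21,0),(16,0)]⟩⟩,⟨true,0,⟨0,[(37,0)]⟩,⟨0,[(36,0)]⟩⟩,⟨false,0,⟨0,[(3,0),(33,0)]⟩,⟨0,
  [(1,0),(34,0)]⟩⟩,⟨false,1,⟨3,[(18,0),(0,0),(19,1)]⟩,⟨0,[]⟩⟩,⟨false,0,⟨0,[(3,0)]⟩,⟨0,[(1,0),(39,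
  0)]⟩⟩,[.o ⟨false,0,⟨0,[(4,0)]⟩,⟨11,[(10,3),(0,3),(6,2),(0,2),(18,3),(0,1)]⟩⟩,.o ⟨false,1,⟨3,[(7,
  0),(20,0),(2,1),(2,1),(4,0)]⟩,⟨0,[(36,0)]⟩⟩,.o ⟨false,1,⟨1,[(21,1),(9,0),(6,0)]⟩,⟨8,[(2,0),(0,0),
  (0,2),(4,0),(10,7),(1,0),(0,1),(2,2),(4,0)]⟩⟩,.a ⟨true,0,⟨0,[(21,0)]⟩,⟨0,[(20,0)]⟩⟩ ⟨false,1,⟨0,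
  [(1,0),(2,0),(15,0)]⟩,⟨2,[(3,0),(5,0),(0,0),(8,0),(1,0)]⟩⟩ ⟨true,0,⟨0,[(4,0),(15,0)]⟩,⟨0,[(21,0),
  (14,0)]⟩⟩]⟩) (.R ⟨0,false,false,true,[1,0,0,-1],[0,1],[0,1,0,0,0,0,0,0,-1],(⟨0,[(20,0)]⟩,⟨0,[(21,
  0)]⟩),(⟨0,[(33,0)]⟩,⟨0,[(32,0)]⟩),⟨0,[(0,0)]⟩,.k,.k,(.x (-1) ⟨3,[(18,0),(0,0),(11,1),(0,3)]⟩ ⟨0,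
  [(33,0)]⟩),(.x (-1) ⟨3,[(18,0),(0,0),(11,1),(0,3)]⟩ ⟨0,[(33,0)]⟩),.k,.k,⟨false,1,⟨0,[(1,0),(2,0),
  (15,0),(14,0)]⟩,⟨2,[(3,0),(5,0),(0,0),(8,0),(1,0)]⟩⟩,⟨true,0,⟨0,[(20,0)]⟩,⟨3,[(4,0),(4,0),(11,3),
  (0,0),(3,0),(4,0),(2,0)]⟩⟩,⟨true,0,⟨0,[(41,0)]⟩,⟨0,[]⟩⟩,⟨false,0,⟨2,[(3,0),(5,0),(3,0),(2,0),(2,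
  0),(0,1)]⟩,⟨0,[(1,0),(2,0)]⟩⟩,⟨false,0,⟨0,[]⟩,⟨0,[]⟩⟩,⟨false,0,⟨0,[]⟩,⟨0,[]⟩⟩,[.o ⟨false,0,⟨0,
  [(36,0)]⟩,⟨3,[(7,0),(20,0),(2,1),(2,1),(4,0)]⟩⟩,.o ⟨false,1,⟨11,[(10,3),(0,3),(6,2),(0,2),(18,3),
  (0,1)]⟩,⟨0,[(4,0)]⟩⟩,.o ⟨false,1,⟨1,[(21,1),(9,0),(6,0)]⟩,⟨8,[(2,0),(0,0),(0,2),(4,0),(10,7),(1,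
  0),(0,1),(2,2),(4,0)]⟩⟩,.a ⟨true,0,⟨0,[(21,0)]⟩,⟨0,[(20,0)]⟩⟩ ⟨false,1,⟨1,[(18,0),(19,0)]⟩,⟨0,[(3,
  0),(17,0)]⟩⟩ ⟨true,0,⟨0,[(20,0),(15,0)]⟩,⟨0,[(4,0),(16,0)]⟩⟩]⟩))))))) (.Q [0,0,0,0,0,-1,0,0,0,0,
  1] (.ed false [1,-1,1] .k) (.K ⟨0,[0,-1,1],0,0,(⟨0,[(0,0)]⟩,⟨0,[(24,0),(3,0)]⟩),.k,(.r (-1) ⟨0,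
  [(2,0),(20,1)]⟩ ⟨1,[(4,0),(0,1),(5,0),(9,0),(7,0),(4,0)]⟩),.k,.k,.k,[⟨0,[(1,0),(23,0),(2,1),(4,
  0)]⟩,⟨0,[(8,0)]⟩,⟨0,[(11,0)]⟩,⟨0,[(19,0),(12,0)]⟩]⟩) (.Q [0,0,0,-1,0,0,-1,0,0,-1,1] (.p true [0,0,
  1] [1] (⟨0,[(25,0)]⟩,⟨0,[(24,0)]⟩) .k 1 (⟨0,[]⟩,⟨0,[]⟩) .k .k) (.Q [0,0,0,1,0,0,0,0,0,1] (.pp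
  false [-1,1]) (.R ⟨0,false,false,false,[0,0,1],[1,-1],[0,1],(⟨0,[(27,0)]⟩,⟨0,[(26,0)]⟩),(⟨0,[(29,
  0)]⟩,⟨0,[(30,0)]⟩),⟨0,[(2,0)]⟩,.k,.k,.k,.k,.k,.k,⟨false,0,⟨0,[(33,0)]⟩,⟨1,[(4,0),(20,0),(10,0)]⟩⟩,
  ⟨true,0,⟨0,[(20,0)]⟩,⟨0,[(10,0)]⟩⟩,⟨true,0,⟨0,[(7,0),(26,0)]⟩,⟨0,[(25,0)]⟩⟩,⟨false,1,⟨15,[(1,1),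
  (2,3),(14,11),(4,1),(3,0),(2,5),(4,10)]⟩,⟨0,[(12,0)]⟩⟩,⟨false,0,⟨0,[]⟩,⟨0,[]⟩⟩,⟨false,0,⟨0,[]⟩,⟨0,
  []⟩⟩,[.a ⟨true,0,⟨0,[(34,0)]⟩,⟨0,[(0,0)]⟩⟩ ⟨false,0,⟨0,[(32,0)]⟩,⟨3,[(15,0),(0,0),(19,1)]⟩⟩ ⟨true,
  0,⟨0,[(1,0)]⟩,⟨0,[(0,0),(22,0)]⟩⟩,.o ⟨false,1,⟨39,[(1,7),(2,7),(9,3),(0,0),(0,0),(11,17),(2,15),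
  (4,11)]⟩,⟨0,[(33,0)]⟩⟩,.e ⟨true,0,⟨0,[(38,0)]⟩,⟨0,[]⟩⟩ ⟨true,0,⟨0,[(1,0)]⟩,⟨0,[(10,0),(22,0)]⟩⟩,
  .o ⟨false,0,⟨0,[(23,0)]⟩,⟨7,[(1,5),(6,1),(4,1),(14,0),(6,5),(0,0)]⟩⟩]⟩) (.K ⟨2,[1,-1,1],0,0,(⟨0,
  [(27,0),(1,0)]⟩,⟨0,[(2,0)]⟩),.k,(.r (-1) ⟨0,[(4,0),(20,1)]⟩ ⟨1,[(6,0),(0,1),(5,0),(9,0),(7,0),(4,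
  0)]⟩),.k,.k,.k,[⟨0,[(0,0)]⟩,⟨0,[(13,0),(3,0),(0,0)]⟩,⟨0,[(3,0),(13,0),(0,0),(8,0),(2,1),(4,0)]⟩,
  ⟨3,[(0,0),(5,0),(12,0),(3,4),(4,0),(2,0)]⟩]⟩)) (.R ⟨0,false,false,false,[0,0,1],[1,-1],[0,1],(⟨0,
  [(26,0)]⟩,⟨0,[(25,0)]⟩),(⟨0,[(28,0)]⟩,⟨0,[(29,0)]⟩),⟨0,[(1,0)]⟩,.k,.k,.k,.k,.k,.k,⟨false,0,⟨0,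
  [(32,0)]⟩,⟨1,[(3,0),(20,0),(10,0)]⟩⟩,⟨true,0,⟨0,[(19,0)]⟩,⟨0,[(9,0)]⟩⟩,⟨true,0,⟨0,[(6,0),(26,0)]⟩,
  ⟨0,[(24,0)]⟩⟩,⟨false,1,⟨2,[(3,0),(14,1),(0,0),(10,0),(4,1)]⟩,⟨0,[(11,0)]⟩⟩,⟨false,0,⟨0,[]⟩,⟨0,
  []⟩⟩,⟨false,0,⟨0,[]⟩,⟨0,[]⟩⟩,[.e ⟨false,0,⟨0,[(31,0)]⟩,⟨3,[(14,0),(0,0),(19,1)]⟩⟩ ⟨false,1,⟨1,[(3,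
  0),(15,1),(4,0),(9,0)]⟩,⟨0,[(0,0)]⟩⟩,.o ⟨false,1,⟨3,[(3,0),(20,0),(2,1),(2,1),(4,0)]⟩,⟨0,[(32,
  0)]⟩⟩,.a ⟨true,0,⟨0,[(9,0)]⟩,⟨0,[(2,0),(23,0),(2,1),(4,0)]⟩⟩ ⟨true,0,⟨0,[(37,0)]⟩,⟨0,[]⟩⟩ ⟨false,
  1,⟨1,[(3,0),(15,1),(4,0),(10,0)]⟩,⟨0,[(0,0)]⟩⟩,.o ⟨false,0,⟨0,[(22,0)]⟩,⟨0,[(19,0),(14,
  0)]⟩⟩]⟩)))))))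

theorem ok1 : chk (cU (-1) true 3) t1 l6 = true := by decide +kernel

noncomputable def t2 : Tre :=
  (.I [0,0,-2,-2,1,0,0,-1] (.K ⟨0,[1,-1,-1],0,0,(⟨0,[(5,0)]⟩,⟨0,[(21,0),(2,0)]⟩),.k,(.r (-1) ⟨0,[(0,
  0)]⟩ ⟨0,[(2,0)]⟩),.k,.k,.k,[⟨0,[(4,0)]⟩,⟨0,[(1,0),(5,0)]⟩,⟨0,[(7,0),(0,0)]⟩,⟨0,[(13,0),(14,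
  0)]⟩]⟩) (.Q [0,0,0,0,0,1,0,0,0,0,-1] (.ed true [1,-1,1] .k) (.Q [0,0,2,0,-1,0,-1,0,0,0,1] (.p
  true [0,0,1] [] (⟨0,[(22,0)]⟩,⟨0,[(21,0)]⟩) .k 0 (⟨0,[]⟩,⟨0,[]⟩) .k .k) (.Q [0,0,0,1,0,0,0,0,0,1]
  (.pp false [-1,1]) (.R ⟨0,false,false,false,[0,0,1],[1,-1],[0,1],(⟨0,[(24,0)]⟩,⟨0,[(23,0)]⟩),(⟨0,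
  [(26,0)]⟩,⟨0,[(27,0)]⟩),⟨0,[(2,0)]⟩,.k,.k,.k,.k,.k,.k,⟨false,0,⟨0,[(30,0)]⟩,⟨1,[(31,1),(0,0),(0,
  0)]⟩⟩,⟨true,0,⟨0,[(17,0)]⟩,⟨0,[(7,0)]⟩⟩,⟨true,0,⟨0,[(7,0),(8,0)]⟩,⟨0,[(22,0)]⟩⟩,⟨false,1,⟨0,[(16,
  0),(14,0),(1,0)]⟩,⟨0,[(9,0)]⟩⟩,⟨false,0,⟨0,[]⟩,⟨0,[]⟩⟩,⟨false,0,⟨0,[]⟩,⟨0,[]⟩⟩,[.a ⟨true,0,⟨0,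
  [(31,0)]⟩,⟨0,[(0,0)]⟩⟩ ⟨false,0,⟨0,[(29,0)]⟩,⟨3,[(12,0),(0,0),(19,1)]⟩⟩ ⟨true,0,⟨0,[(4,0),(11,
  0)]⟩,⟨0,[(0,0),(19,0)]⟩⟩,.o ⟨false,1,⟨1,[(25,0),(5,1),(1,0)]⟩,⟨0,[(30,0)]⟩⟩,.e ⟨true,0,⟨0,[(35,
  0)]⟩,⟨0,[]⟩⟩ ⟨true,0,⟨0,[(4,0),(11,0)]⟩,⟨0,[(7,0),(22,0)]⟩⟩,.o ⟨false,0,⟨0,[(20,0)]⟩,⟨0,[(17,0),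
  (14,0)]⟩⟩]⟩) (.R ⟨0,false,false,false,[0,0,1],[1,-1],[1,1],(⟨0,[(24,0)]⟩,⟨0,[(23,0)]⟩),(⟨0,[(26,
  0)]⟩,⟨0,[(27,0)]⟩),⟨0,[(2,0)]⟩,.k,.k,.k,.k,.k,.k,⟨false,0,⟨0,[(30,0)]⟩,⟨1,[(31,1),(0,0),(0,0)]⟩⟩,
  ⟨true,0,⟨0,[(17,0)]⟩,⟨0,[(7,0)]⟩⟩,⟨true,0,⟨0,[(7,0),(8,0)]⟩,⟨0,[(22,0)]⟩⟩,⟨false,1,⟨0,[(0,0),(18,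
  0),(13,0)]⟩,⟨0,[(9,0)]⟩⟩,⟨false,0,⟨0,[]⟩,⟨0,[]⟩⟩,⟨false,0,⟨0,[]⟩,⟨0,[]⟩⟩,[.o ⟨false,0,⟨0,[(0,0)]⟩,
  ⟨3,[(12,0),(0,0),(16,3),(2,1)]⟩⟩,.o ⟨false,1,⟨3,[(0,3),(11,0),(0,0),(19,1)]⟩,⟨0,[(30,0)]⟩⟩,.a
  ⟨true,0,⟨0,[(7,0)]⟩,⟨0,[(4,0),(5,0)]⟩⟩ ⟨false,0,⟨0,[]⟩,⟨3,[(12,0),(0,0),(19,1)]⟩⟩ ⟨true,0,⟨0,[(4,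
  0),(11,0)]⟩,⟨0,[(7,0),(22,0)]⟩⟩,.o ⟨false,0,⟨0,[(20,0)]⟩,⟨0,[(17,0),(14,0)]⟩⟩]⟩)) (.K ⟨0,[1,-1,
  -1],0,0,(⟨0,[(7,0)]⟩,⟨0,[(23,0),(2,0)]⟩),.k,(.x 0 ⟨6,[(2,2),(0,0),(3,6),(7,4),(0,2),(0,0),(6,2),
  (0,6),(1,4)]⟩ ⟨0,[(0,0),(22,0),(2,1)]⟩),.k,.k,.k,[⟨0,[(6,0)]⟩,⟨0,[(3,0),(5,0)]⟩,⟨0,[(9,0),(0,0)]⟩,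
  ⟨0,[(15,0),(14,0)]⟩]⟩)) (.K ⟨0,[0,-1,1],0,0,(⟨0,[(0,0)]⟩,⟨0,[(21,0),(3,0)]⟩),.k,(.r (-1) ⟨0,[(2,
  0),(26,0),(0,0),(2,0)]⟩ ⟨0,[(1,0),(3,1),(8,1),(16,0)]⟩),.k,.k,.k,[⟨0,[(2,0),(5,0)]⟩,⟨0,[(5,0)]⟩,
  ⟨0,[(8,0)]⟩,⟨0,[(16,0),(12,0)]⟩]⟩)))

theorem ok2 : chk (cU (-1) true 3) t2 r6 = true := by decide +kernel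

noncomputable def t4 : Tre :=
  (.Q [0,0,0,-1,0,0,0,0,0,-1] (.pp true [-1,1]) (.Q [0,0,0,0,0,0,-1,0,0,0,1] (.p true [0,0,1] []
  (⟨0,[(20,0)]⟩,⟨0,[(19,0)]⟩) .k 0 (⟨0,[]⟩,⟨0,[]⟩) .k .k) (.R ⟨1,false,false,false,[1,0,-1],[1,-1],
  [],(⟨0,[(20,0)]⟩,⟨0,[(21,0)]⟩),(⟨0,[(23,0)]⟩,⟨0,[(24,0)]⟩),⟨0,[(5,0)]⟩,.k,.k,.k,.k,.k,.k,⟨false,1,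
  ⟨3,[(9,0),(0,0),(16,3),(2,1)]⟩,⟨1,[(2,0),(16,0)]⟩⟩,⟨true,0,⟨0,[(17,0)]⟩,⟨0,[(0,0)]⟩⟩,⟨true,0,⟨0,
  [(19,0)]⟩,⟨2,[(2,0),(4,1),(9,1),(14,0)]⟩⟩,⟨true,0,⟨1,[(1,0),(6,0),(19,0)]⟩,⟨0,[(7,0)]⟩⟩,⟨false,1,
  ⟨0,[(0,0),(2,0),(26,0)]⟩,⟨1,[(2,0),(4,0),(9,0),(7,0)]⟩⟩,⟨true,0,⟨0,[(1,0),(4,0)]⟩,⟨0,[(16,0)]⟩⟩,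
  [.o ⟨false,0,⟨0,[(1,0)]⟩,⟨3,[(9,0),(0,0),(16,3),(2,1)]⟩⟩,.o ⟨false,1,⟨7,[(2,1),(6,0),(0,0),(8,1),
  (2,3),(2,3),(4,1)]⟩,⟨0,[(27,0)]⟩⟩,.a ⟨true,0,⟨0,[(0,0)]⟩,⟨0,[(4,0)]⟩⟩ ⟨false,1,⟨3,[(9,0),(0,0),
  (19,1)]⟩,⟨0,[]⟩⟩ ⟨true,0,⟨7,[(1,0),(0,2),(5,0),(6,0),(1,4),(7,0)]⟩,⟨0,[(0,0),(26,0)]⟩⟩,.o ⟨false,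
  0,⟨0,[(14,0)]⟩,⟨0,[(17,0),(11,0)]⟩⟩]⟩) (.R ⟨2,true,false,false,[0,1],[0,1,1],[0,1,1],(⟨0,[]⟩,⟨0,
  []⟩),(⟨0,[(21,0),(2,0)]⟩,⟨0,[(5,0)]⟩),⟨0,[]⟩,.k,.k,.k,.k,.k,.k,⟨false,0,⟨2,[(2,1),(4,0),(9,0),(14,
  1)]⟩,⟨0,[(19,0),(7,0),(2,0)]⟩⟩,⟨true,0,⟨0,[(0,0)]⟩,⟨0,[(18,0)]⟩⟩,⟨false,0,⟨0,[(28,0)]⟩,⟨0,[(27,0),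
  (2,0)]⟩⟩,⟨true,0,⟨0,[(0,0),(18,0)]⟩,⟨0,[(16,0)]⟩⟩,⟨true,0,⟨0,[(32,0)]⟩,⟨0,[]⟩⟩,⟨false,1,⟨0,[(3,0),
  (26,0)]⟩,⟨1,[(2,0),(4,0),(10,0),(6,0)]⟩⟩,[]⟩)) (.R ⟨2,true,false,false,[0,1],[1,-1],[0,1],(⟨0,[]⟩,
  ⟨0,[]⟩),(⟨0,[(22,0)]⟩,⟨0,[(23,0)]⟩),⟨0,[]⟩,.k,.k,.k,(.r (-1) ⟨0,[(16,0),(0,0),(8,1),(2,0)]⟩ ⟨0,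
  [(1,0),(16,0)]⟩),.k,.k,⟨false,0,⟨0,[(26,0)]⟩,⟨3,[(1,1),(6,0),(0,0),(8,1),(10,1)]⟩⟩,⟨true,0,⟨0,
  [(13,0),(2,0)]⟩,⟨1,[(0,1),(0,0),(16,0)]⟩⟩,⟨false,0,⟨1,[(1,0),(16,0)]⟩,⟨1,[(16,0),(0,0),(8,1),(2,
  1)]⟩⟩,⟨true,0,⟨1,[(1,1),(5,0),(5,2),(2,0)]⟩,⟨0,[(5,0),(0,0)]⟩⟩,⟨true,0,⟨0,[(25,0)]⟩,⟨1,[(16,0),(0,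
  0)]⟩⟩,⟨false,1,⟨7,[(1,1),(6,0),(0,0),(8,1),(2,3),(2,3),(4,1)]⟩,⟨0,[(0,0)]⟩⟩,[]⟩))

theorem ok4 : chk (cU (-1) true 3) t4 r5 = true := by decide +kernel

noncomputable def t9 : Tre :=
  (.K ⟨0,[-1,1,1],0,0,(⟨0,[(3,0)]⟩,⟨0,[(18,0),(2,0)]⟩),.k,.k,(.r 0 ⟨0,[(1,0)]⟩ ⟨1,[(0,1),(10,1),(8,
  0),(5,3),(1,0)]⟩),.k,.k,[⟨1,[(12,1),(2,0),(0,0)]⟩,⟨0,[(0,0)]⟩,⟨0,[(11,0),(14,0)]⟩,⟨2,[(0,0),(0,0),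
  (4,0),(18,0),(4,1)]⟩]⟩)

theorem ok9 : chk (cU (-1) true 3) t9 l9 = true := by decide +kernel

noncomputable def t10 : Tre :=
  (.Q [0,-1,0,-1,1,0,-1,-1,0,-2,1] (.p true [-1,1,1] [1] (⟨0,[(7,0)]⟩,⟨0,[(22,0),(2,0)]⟩) .k 1 (⟨0,
  []⟩,⟨0,[]⟩) .k .k) (.R ⟨2,false,false,true,[0,1],[-1,1,1],[0,0,1],(⟨0,[]⟩,⟨0,[]⟩),(⟨0,[(8,0)]⟩,⟨0,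
  [(23,0),(2,0)]⟩),⟨0,[]⟩,.k,.k,.k,.k,.k,.k,⟨false,1,⟨1,[(0,1),(0,0),(5,1),(18,1)]⟩,⟨0,[(22,0),(7,
  0)]⟩⟩,⟨true,0,⟨0,[(7,0)]⟩,⟨0,[(17,0)]⟩⟩,⟨true,0,⟨0,[(31,0)]⟩,⟨0,[(30,0)]⟩⟩,⟨false,0,⟨7,[(1,0),(5,
  1),(3,3),(9,1),(4,1)]⟩,⟨1,[(0,0),(9,0),(22,0)]⟩⟩,⟨false,1,⟨3,[(12,0),(0,0),(19,1)]⟩,⟨0,[]⟩⟩,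
  ⟨false,0,⟨0,[(9,0)]⟩,⟨1,[(0,0),(18,0),(11,0),(1,0)]⟩⟩,[.o ⟨false,0,⟨0,[(10,0),(0,0)]⟩,⟨0,[(0,
  0)]⟩⟩,.o ⟨false,0,⟨0,[(9,0)]⟩,⟨0,[(0,0),(34,0)]⟩⟩,.a ⟨true,0,⟨1,[(1,0),(24,1)]⟩,⟨1,[(20,0),(0,
  0)]⟩⟩ ⟨true,0,⟨1,[(20,0),(0,0)]⟩,⟨0,[(29,0)]⟩⟩ ⟨false,0,⟨6,[(2,2),(3,0),(2,1),(1,1),(9,1)]⟩,⟨1,
  [(0,1),(0,0),(24,1)]⟩⟩,.e ⟨false,1,⟨3,[(12,0),(0,0),(19,1)]⟩,⟨0,[]⟩⟩ ⟨false,0,⟨0,[(9,0)]⟩,⟨1,[(0,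
  0),(18,0),(11,0),(1,0)]⟩⟩]⟩) (.I [0,0,-2,-2,1,0,0,-1] (.K ⟨1,[2,-1,-1],0,1,(⟨0,[(24,0),(2,0)]⟩,⟨0,
  [(9,0)]⟩),.k,(.r (-1) ⟨0,[(0,0)]⟩ ⟨0,[(7,0)]⟩),.k,.k,.k,[⟨2,[(0,0),(0,1),(1,0),(4,0),(11,0),(8,0),
  (4,0)]⟩,⟨0,[(6,0)]⟩,⟨0,[(1,0)]⟩,⟨3,[(0,0),(3,1),(6,0),(9,0),(7,0),(4,0)]⟩]⟩) (.Q [0,0,-1,1,0,0,0,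
  0,0,1] (.pp false [-1,1]) (.R ⟨0,false,false,true,[1,0,-1],[0,1],[],(⟨0,[(25,0)]⟩,⟨0,[(26,0)]⟩),
  (⟨0,[(29,0)]⟩,⟨0,[(28,0)]⟩),⟨0,[(10,0)]⟩,.k,.k,.k,.k,.k,.k,⟨true,1,⟨1,[(33,1),(0,0),(0,0)]⟩,⟨1,
  [(1,0),(0,0),(15,1),(3,0),(7,0)]⟩⟩,⟨false,1,⟨0,[(9,0),(24,0)]⟩,⟨0,[(19,0)]⟩⟩,⟨true,0,⟨0,[(24,0)]⟩,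
  ⟨0,[(9,0),(8,0)]⟩⟩,⟨false,0,⟨0,[(11,0)]⟩,⟨0,[(5,0),(3,0)]⟩⟩,⟨false,0,⟨0,[]⟩,⟨0,[]⟩⟩,⟨false,0,⟨0,
  []⟩,⟨0,[]⟩⟩,[.o ⟨false,0,⟨0,[(32,0)]⟩,⟨1,[(27,0),(5,1),(1,0)]⟩⟩,.a ⟨true,0,⟨2,[(0,1),(3,0),(18,
  0)]⟩,⟨0,[(33,0)]⟩⟩ ⟨false,1,⟨1,[(34,0),(0,0)]⟩,⟨0,[(37,0)]⟩⟩ ⟨true,0,⟨0,[(0,0),(21,0)]⟩,⟨0,[(19,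
  0),(13,0)]⟩⟩,.e ⟨false,1,⟨3,[(14,0),(0,0),(19,1)]⟩,⟨0,[]⟩⟩ ⟨false,0,⟨0,[(0,0),(21,0)]⟩,⟨5,[(5,3),
  (7,1),(9,1),(9,1),(0,0),(0,0)]⟩⟩,.o ⟨false,0,⟨0,[(19,0)]⟩,⟨0,[(22,0),(11,0)]⟩⟩]⟩) (.R ⟨0,false,
  false,false,[1,-1],[0,1],[0,1],(⟨0,[(28,0)]⟩,⟨0,[(29,0)]⟩),(⟨0,[(29,0)]⟩,⟨0,[(28,0)]⟩),⟨3,[(3,2),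
  (3,1),(14,1),(6,1)]⟩,.k,.k,(.x (-1) ⟨2,[(7,1),(6,0),(0,0),(6,1),(4,0),(0,5)]⟩ ⟨0,[(3,0)]⟩),(.x
  (-1) ⟨2,[(7,1),(6,0),(0,0),(6,1),(4,0),(0,5)]⟩ ⟨0,[(3,0)]⟩),.k,.k,⟨true,0,⟨0,[(31,0),(1,0)]⟩,⟨1,
  [(1,0),(10,0),(9,0),(7,0),(4,0)]⟩⟩,⟨false,1,⟨1,[(3,0),(24,1),(5,1)]⟩,⟨3,[(7,1),(14,2),(0,0)]⟩⟩,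
  ⟨false,0,⟨17,[(1,2),(2,5),(2,1),(0,0),(3,3),(14,0),(7,1)]⟩,⟨1,[(33,1),(0,0),(0,0)]⟩⟩,⟨true,0,⟨1,
  [(1,1),(1,0),(5,1),(8,1),(9,1),(5,0),(0,0)]⟩,⟨0,[(0,0),(30,0),(1,0)]⟩⟩,⟨false,0,⟨0,[]⟩,⟨0,[]⟩⟩,
  ⟨false,0,⟨0,[]⟩,⟨0,[]⟩⟩,[.e ⟨false,0,⟨0,[(31,0)]⟩,⟨3,[(14,0),(0,0),(19,1)]⟩⟩ ⟨false,1,⟨1,[(2,0),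
  (9,0),(21,1),(0,0)]⟩,⟨0,[(0,0)]⟩⟩,.o ⟨false,1,⟨0,[(32,0),(2,0)]⟩,⟨0,[(0,0),(30,0)]⟩⟩,.a ⟨true,0,
  ⟨1,[(22,0),(0,0)]⟩,⟨1,[(3,0),(24,1)]⟩⟩ ⟨true,0,⟨0,[(37,0)]⟩,⟨0,[]⟩⟩ ⟨false,1,⟨1,[(2,0),(9,0),(21,
  0),(0,1)]⟩,⟨0,[(0,0)]⟩⟩,.o ⟨false,0,⟨3,[(7,1),(14,2),(0,0)]⟩,⟨0,[(34,0)]⟩⟩]⟩))))

theorem ok10 : chk (cU (-1) true 3) t10 l13 = true := by decide +kernel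

noncomputable def t11 : Tre :=
  (.Q [0,0,0,1,0,0,0,0,0,1] (.pp false [-1,1]) (.K ⟨2,[-1,1,1],0,0,(⟨0,[(9,0)]⟩,⟨0,[(24,0),(2,0)]⟩),
  .k,.k,(.r 0 ⟨0,[(7,0)]⟩ ⟨0,[(1,0)]⟩),.k,.k,[⟨0,[(0,0)]⟩,⟨0,[(17,0),(14,0)]⟩,⟨3,[(6,1),(14,0),(0,
  2)]⟩,⟨0,[(8,0)]⟩]⟩) (.Q [0,0,0,0,0,0,-1,0,0,0,1] (.p true [0,0,1] [] (⟨0,[(25,0)]⟩,⟨0,[(24,0)]⟩)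
  .k 0 (⟨0,[]⟩,⟨0,[]⟩) .k .k) (.R ⟨0,false,false,false,[1,0,-1],[1,-1],[1,1],(⟨0,[(25,0)]⟩,⟨0,[(26,
  0)]⟩),(⟨0,[(28,0)]⟩,⟨0,[(29,0)]⟩),⟨0,[(10,0)]⟩,.k,.k,.k,.k,.k,.k,⟨false,0,⟨0,[(32,0)]⟩,⟨1,[(2,0),
  (21,0),(10,0)]⟩⟩,⟨true,0,⟨0,[(22,0)]⟩,⟨0,[(0,0)]⟩⟩,⟨false,0,⟨0,[(24,0)]⟩,⟨0,[(9,0),(8,0),(16,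
  0)]⟩⟩,⟨true,0,⟨1,[(1,0),(11,0),(19,0)]⟩,⟨0,[(12,0)]⟩⟩,⟨false,0,⟨0,[]⟩,⟨0,[]⟩⟩,⟨false,0,⟨0,[]⟩,⟨0,
  []⟩⟩,[.o ⟨false,0,⟨0,[(1,0)]⟩,⟨15,[(4,3),(3,3),(3,3),(1,2),(0,2),(11,1),(6,5),(0,1)]⟩⟩,.o ⟨false,
  1,⟨4,[(2,0),(2,0),(7,0),(13,1),(2,1),(4,0)]⟩,⟨0,[(32,0)]⟩⟩,.a ⟨true,0,⟨0,[(0,0)]⟩,⟨0,[(9,0)]⟩⟩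
  ⟨false,0,⟨0,[]⟩,⟨3,[(14,0),(0,0),(19,1)]⟩⟩ ⟨true,0,⟨0,[(1,0),(7,0)]⟩,⟨0,[(0,0),(31,0)]⟩⟩,.o
  ⟨false,0,⟨0,[(19,0)]⟩,⟨0,[(22,0),(11,0)]⟩⟩]⟩) (.Q [0,0,-1,0,0,0,1,0,0,2,-1] (.p false [-1,1,1]
  [1] (⟨0,[(10,0)]⟩,⟨0,[(25,0),(2,0)]⟩) .k 1 (⟨0,[]⟩,⟨0,[]⟩) .k .k) (.R ⟨0,false,false,true,[-1,1,
  1],[0,1],[1,1,1,1,0,0,0,1],(⟨0,[(11,0)]⟩,⟨0,[(26,0),(2,0)]⟩),(⟨0,[(30,0)]⟩,⟨0,[(29,0)]⟩),⟨0,[(26,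
  0)]⟩,.k,.k,.k,.k,.k,.k,⟨true,0,⟨0,[(25,0)]⟩,⟨0,[(1,0),(11,0),(17,0)]⟩⟩,⟨false,1,⟨1,[(6,0),(18,0),
  (7,0),(1,0)]⟩,⟨0,[(10,0)]⟩⟩,⟨false,0,⟨0,[]⟩,⟨3,[(15,0),(0,0),(19,1)]⟩⟩,⟨true,0,⟨0,[(19,0)]⟩,⟨3,
  [(0,0),(13,1),(9,0)]⟩⟩,⟨false,0,⟨0,[]⟩,⟨0,[]⟩⟩,⟨false,0,⟨0,[]⟩,⟨0,[]⟩⟩,[.o ⟨false,0,⟨0,[(33,0)]⟩,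
  ⟨4,[(3,0),(2,0),(7,0),(13,1),(2,1),(4,0)]⟩⟩,.o ⟨false,1,⟨15,[(5,3),(3,3),(3,3),(1,2),(0,2),(11,1),
  (6,5),(0,1)]⟩,⟨0,[(2,0)]⟩⟩,.a ⟨true,0,⟨0,[(0,0)]⟩,⟨0,[(20,0)]⟩⟩ ⟨false,0,⟨1,[(9,0),(15,0)]⟩,⟨0,
  [(0,0),(0,0),(4,0)]⟩⟩ ⟨true,0,⟨1,[(8,0),(4,0),(11,0),(7,0)]⟩,⟨0,[(0,0),(1,0)]⟩⟩,.o ⟨false,0,⟨0,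
  [(10,0)]⟩,⟨1,[(6,0),(18,0),(2,0),(4,0)]⟩⟩]⟩) (.Q [0,0,0,0,0,1,0,0,0,0,-1] (.ed true [1,-1,1] .k)
  (.Q [0,0,0,0,0,0,-1,0,0,1,1] (.p true [1,-1,1] [] (⟨0,[(28,0),(1,0)]⟩,⟨0,[(0,0)]⟩) .k 0 (⟨0,[]⟩,
  ⟨0,[]⟩) .k .k) (.R ⟨0,false,false,false,[0,1,-1],[0,1],[0,1,1],(⟨0,[(1,0)]⟩,⟨0,[(29,0),(1,0)]⟩),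
  (⟨0,[(32,0)]⟩,⟨0,[(31,0)]⟩),⟨0,[(29,0)]⟩,.k,.k,.k,.k,.k,.k,⟨false,0,⟨0,[(34,0),(1,0)]⟩,⟨0,[(35,0),
  (2,0)]⟩⟩,⟨true,0,⟨0,[(3,0)]⟩,⟨0,[(26,0)]⟩⟩,⟨false,0,⟨0,[(27,0),(8,0)]⟩,⟨0,[(3,0),(11,0),(22,0)]⟩⟩,
  ⟨true,0,⟨0,[(3,0),(23,0)]⟩,⟨0,[(24,0)]⟩⟩,⟨false,0,⟨0,[]⟩,⟨0,[]⟩⟩,⟨false,0,⟨0,[]⟩,⟨0,[]⟩⟩,[.o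
  ⟨false,1,⟨15,[(7,3),(3,3),(3,3),(1,2),(0,2),(11,1),(6,5),(0,1)]⟩,⟨0,[(4,0)]⟩⟩,.o ⟨false,1,⟨0,[(35,
  0),(2,0)]⟩,⟨0,[(4,0),(35,0)]⟩⟩,.o ⟨false,1,⟨1,[(0,1),(29,0),(6,0)]⟩,⟨1,[(3,2),(6,0)]⟩⟩,.a ⟨true,0,
  ⟨0,[(0,0)]⟩,⟨0,[(3,0)]⟩⟩ ⟨true,0,⟨0,[(40,0)]⟩,⟨0,[]⟩⟩ ⟨false,1,⟨0,[(3,0),(31,0),(2,0)]⟩,⟨0,[(0,0),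
  (3,0)]⟩⟩]⟩) (.I [1,1,1,0,-1,0,0,-1,-1] (.Q [0,0,1,-1,0,0,1,1,1,0,-1,-1] (.p false [1,-1,1] [1,0,0,
  -1] (⟨0,[(30,0),(1,0)]⟩,⟨0,[(2,0)]⟩) .k 2 (⟨0,[(20,0)]⟩,⟨0,[(21,0)]⟩) .k (.r (-1) ⟨3,[(18,0),(0,
  2),(8,3)]⟩ ⟨1,[(0,1),(37,0),(0,0)]⟩)) (.K ⟨0,[0,0,0,1],0,0,(⟨0,[(22,0)]⟩,⟨0,[(21,0)]⟩),.k,(.r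
  (-1) ⟨1,[(7,0),(12,0),(8,0)]⟩ ⟨5,[(1,3),(2,1),(11,3),(0,1),(1,0),(9,1),(10,2)]⟩),(.x 0 ⟨0,[(34,
  0)]⟩ ⟨3,[(8,1),(10,0),(0,0),(18,1)]⟩),.k,.k,[⟨0,[(22,0)]⟩,⟨0,[(21,0)]⟩,⟨0,[(1,0),(20,0),(6,0),(9,
  0)]⟩,⟨0,[(0,0),(16,0)]⟩]⟩) (.Q [0,1,1,0,0,0,0,0,1,0,0,-1] (.p false [0,0,0,1] [] (⟨0,[(22,0)]⟩,⟨0,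
  [(21,0)]⟩) .k 0 (⟨0,[]⟩,⟨0,[]⟩) .k .k) (.K ⟨0,[0,0,0,1],0,0,(⟨0,[(23,0)]⟩,⟨0,[(22,0)]⟩),.k,(.r
  (-1) ⟨1,[(8,0),(12,0),(8,0)]⟩ ⟨3,[(1,0),(0,0),(0,0),(8,0),(1,0),(5,0),(1,0)]⟩),(.x 0 ⟨0,[(35,0)]⟩
  ⟨3,[(9,1),(10,0),(0,0),(18,1)]⟩),.k,.k,[⟨0,[(23,0)]⟩,⟨0,[(22,0)]⟩,⟨0,[(1,0),(24,0),(12,0)]⟩,⟨0,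
  [(0,0)]⟩]⟩) (.R ⟨0,false,false,true,[0,0,1],[0,0,0,1],[0,0,1],(⟨0,[(32,0)]⟩,⟨0,[(31,0)]⟩),(⟨0,
  [(23,0)]⟩,⟨0,[(22,0)]⟩),⟨0,[(4,0)]⟩,.k,.k,.k,.k,.k,.k,⟨false,0,⟨15,[(0,11),(1,1),(0,3),(1,3),(6,
  1),(7,0),(1,11),(13,1),(4,0)]⟩,⟨1,[(21,0),(18,0),(2,1)]⟩⟩,⟨true,0,⟨1,[(5,0),(16,1),(6,0)]⟩,⟨0,[(6,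
  0),(16,0)]⟩⟩,⟨true,0,⟨1,[(2,1),(18,0),(19,0)]⟩,⟨0,[(30,0),(6,0)]⟩⟩,⟨false,1,⟨5,[(10,1),(0,2),(1,
  0),(4,0),(2,2),(0,5),(4,1),(0,1)]⟩,⟨2,[(0,2),(2,0),(15,0),(10,0)]⟩⟩,⟨false,0,⟨0,[]⟩,⟨0,[]⟩⟩,
  ⟨false,0,⟨0,[]⟩,⟨0,[]⟩⟩,[.a ⟨true,0,⟨0,[(2,0),(18,0),(0,0),(7,0)]⟩,⟨0,[(0,0)]⟩⟩ ⟨true,0,⟨1,[(28,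
  0),(0,0)]⟩,⟨0,[]⟩⟩ ⟨false,1,⟨1,[(11,0),(9,0),(0,1),(7,0),(7,0),(4,1)]⟩,⟨0,[(0,0),(5,0)]⟩⟩,.o
  ⟨false,1,⟨5,[(13,1),(6,0),(0,3),(0,5),(5,1),(4,0)]⟩,⟨4,[(0,2),(0,1),(1,0),(1,0),(1,1),(18,1),(10,
  0)]⟩⟩,.o ⟨false,0,⟨0,[(6,0)]⟩,⟨11,[(11,5),(2,1),(5,0),(0,0),(4,3),(2,3),(8,1),(1,3)]⟩⟩,.o ⟨false,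
  0,⟨0,[(28,0)]⟩,⟨1,[(11,0),(18,0),(7,0),(1,0)]⟩⟩]⟩))) (.Q [0,0,1,-1,-1,0,1,1,1,0,-1,-1] (.p false
  [1,-1,1] [1,0,0,-1] (⟨0,[(30,0),(1,0)]⟩,⟨0,[(2,0)]⟩) .k 2 (⟨0,[(20,0)]⟩,⟨0,[(21,0)]⟩) .k (.x 0 ⟨0,
  [(26,0),(3,0)]⟩ ⟨1,[(9,0),(18,0),(0,1),(6,0),(1,0)]⟩)) (.I [0,0,-1,-1,0,0,0,0,1] (.K ⟨0,[0,0,0,1],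
  0,(-1),(⟨0,[(23,0)]⟩,⟨0,[(22,0)]⟩),.k,(.r 0 ⟨0,[(0,0)]⟩ ⟨13,[(10,5),(0,1),(2,3),(3,1),(1,8),(0,1),
  (11,0)]⟩),(.x 0 ⟨0,[(35,0)]⟩ ⟨3,[(9,1),(10,0),(0,0),(18,1)]⟩),.k,.k,[⟨0,[(23,0)]⟩,⟨0,[(22,0)]⟩,⟨1,
  [(20,0),(2,1),(16,0),(2,1)]⟩,⟨0,[(1,0),(16,0)]⟩]⟩) (.K ⟨0,[0,0,0,1],0,(-1),(⟨0,[(23,0)]⟩,⟨0,[(22,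
  0)]⟩),.k,(.x 0 ⟨1,[(9,0),(18,0),(0,0)]⟩ ⟨0,[(35,0),(4,0)]⟩),(.x 0 ⟨0,[(35,0)]⟩ ⟨3,[(9,1),(10,0),
  (0,0),(18,1)]⟩),.k,.k,[⟨0,[(23,0)]⟩,⟨0,[(22,0)]⟩,⟨1,[(20,0),(2,1),(16,0),(2,1)]⟩,⟨0,[(1,0),(16,
  0)]⟩]⟩)) (.I [0,0,1,0,0,0,0,0,1] (.I [0,0,0,0,0,0,0,0,1] (.I [1,1,1,0,-1,0,0,0,1] (.Q [0,0,0,0,0,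
  1,0,0,0,-1,0,1] (.p true [0,0,0,1] [1] (⟨0,[(25,0)]⟩,⟨0,[(24,0)]⟩) .k 1 (⟨0,[]⟩,⟨0,[]⟩) .k .k)
  (.R ⟨0,false,false,true,[1,0,0,-1],[0,0,1],[0,0,0,0,0,0,0,0,-1],(⟨0,[(25,0)]⟩,⟨0,[(26,0)]⟩),(⟨0,
  [(35,0)]⟩,⟨0,[(34,0)]⟩),⟨0,[(0,0)]⟩,.k,.k,(.x (-1) ⟨3,[(12,1),(10,0),(0,0),(18,1)]⟩ ⟨0,[(38,0)]⟩),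
  .k,.k,.k,⟨true,1,⟨0,[(4,0),(1,0),(18,0),(13,0)]⟩,⟨0,[(1,0),(31,0)]⟩⟩,⟨false,0,⟨0,[(9,0),(15,0)]⟩,
  ⟨5,[(4,1),(0,1),(2,0),(5,1),(11,3),(2,0),(3,0),(6,2)]⟩⟩,⟨false,1,⟨3,[(23,0),(0,0),(19,1)]⟩,⟨0,
  []⟩⟩,⟨true,(-1),⟨2,[(1,2),(4,0),(15,0),(2,2),(7,0)]⟩,⟨0,[(4,0),(5,0)]⟩⟩,⟨false,0,⟨0,[]⟩,⟨0,[]⟩⟩,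
  ⟨false,0,⟨0,[]⟩,⟨0,[]⟩⟩,[.o ⟨false,0,⟨0,[(29,0)]⟩,⟨15,[(6,3),(4,0),(2,5),(6,8),(9,0),(7,0),(4,
  8)]⟩⟩,.o ⟨false,0,⟨2,[(6,0),(15,0),(10,0)]⟩,⟨27,[(11,3),(1,7),(0,11),(6,11),(1,2),(0,2),(11,5)]⟩⟩,
  .o ⟨false,1,⟨1,[(26,1),(9,0),(6,0)]⟩,⟨4,[(6,0),(9,1),(8,4),(5,0)]⟩⟩,.a ⟨true,0,⟨0,[(26,0)]⟩,⟨0,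
  [(25,0)]⟩⟩ ⟨true,1,⟨1,[(23,0),(19,0)]⟩,⟨0,[(1,0)]⟩⟩ ⟨false,0,⟨2,[(6,0),(15,0),(2,2),(7,0)]⟩,⟨15,
  [(6,3),(4,0),(2,5),(6,8),(4,15),(4,0),(7,0),(4,8)]⟩⟩]⟩) (.I [0,-1,-1,-1,1,0,0,0,-1] (.Q [0,-1,-1,
  0,1,0,1,1,-1,0,-1,1] (.p false [0,0,1] [0,0,0,1] (⟨0,[(36,0)]⟩,⟨0,[(35,0)]⟩) .k 2 (⟨0,[(27,0)]⟩,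
  ⟨0,[(26,0)]⟩) .k (.x (-1) ⟨29,[(7,5),(4,7),(1,15),(8,3),(12,29),(0,6),(6,14)]⟩ ⟨1,[(9,0),(23,0),
  (1,1)]⟩)) (.Q [0,0,1,1,0,0,-1,-1,1,0,1,-1] (.p true [0,0,1] [0,0,0,1] (⟨0,[(37,0)]⟩,⟨0,[(36,0)]⟩)
  .k 2 (⟨0,[(28,0)]⟩,⟨0,[(27,0)]⟩) .k (.x (-1) ⟨29,[(8,5),(4,7),(1,15),(8,3),(12,29),(0,6),(6,14)]⟩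
  ⟨1,[(10,0),(23,0),(1,1)]⟩)) (.R ⟨1,false,false,true,[1,0,0,-1],[1,0,-1],[1,1,1],(⟨0,[(28,0)]⟩,⟨0,
  [(29,0)]⟩),(⟨0,[(37,0)]⟩,⟨0,[(38,0)]⟩),⟨0,[(3,0)]⟩,.k,.k,(.x (-1) ⟨3,[(15,1),(10,0),(0,0),(18,
  1)]⟩ ⟨0,[(41,0)]⟩),.k,(.r (-1) ⟨1,[(14,0),(11,0),(9,2)]⟩ ⟨0,[(0,0),(11,0),(16,0)]⟩),.k,⟨false,0,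
  ⟨0,[(36,0)]⟩,⟨17,[(0,4),(6,4),(1,3),(4,7),(1,5),(22,0),(6,3)]⟩⟩,⟨true,0,⟨1,[(11,0),(16,1),(6,0)]⟩,
  ⟨0,[(12,0),(16,0)]⟩⟩,⟨true,(-1),⟨0,[(4,0)]⟩,⟨1,[(26,0),(19,0)]⟩⟩,⟨false,0,⟨13,[(0,9),(3,3),(9,2),
  (2,0),(1,0),(8,3),(6,0),(6,2)]⟩,⟨0,[(1,0)]⟩⟩,⟨false,0,⟨6,[(0,1),(4,4),(3,0),(6,0),(3,1),(8,1)]⟩,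
  ⟨0,[(2,0)]⟩⟩,⟨false,0,⟨0,[(0,0)]⟩,⟨0,[(1,0),(43,0)]⟩⟩,[.o ⟨false,0,⟨0,[(30,0)]⟩,⟨7,[(25,3),(0,0),
  (0,0),(11,1),(7,3)]⟩⟩,.o ⟨false,1,⟨35,[(0,3),(6,3),(6,3),(2,11),(6,11),(1,4),(0,4),(6,7),(4,5)]⟩,
  ⟨2,[(9,0),(15,0),(10,0)]⟩⟩,.o ⟨false,1,⟨1,[(29,1),(9,0),(6,0)]⟩,⟨4,[(9,0),(9,1),(8,4),(5,0)]⟩⟩,.a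
  ⟨true,0,⟨0,[(29,0)]⟩,⟨0,[(28,0)]⟩⟩ ⟨false,0,⟨0,[]⟩,⟨3,[(26,0),(0,0),(19,1)]⟩⟩ ⟨true,0,⟨0,[(28,0),
  (1,0)]⟩,⟨2,[(9,0),(15,0),(3,2),(6,0)]⟩⟩]⟩) (.R ⟨1,true,false,true,[1,0,0,-1],[1,0,-1],[1,1,1],(⟨0,
  [(28,0)]⟩,⟨0,[(29,0)]⟩),(⟨0,[(37,0)]⟩,⟨0,[(38,0)]⟩),⟨0,[(3,0)]⟩,.k,.k,(.x (-1) ⟨3,[(15,1),(10,0),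
  (0,0),(18,1)]⟩ ⟨0,[(41,0)]⟩),.k,(.r (-1) ⟨1,[(14,0),(11,0),(9,2)]⟩ ⟨0,[(4,0),(7,0),(11,0),(22,
  0)]⟩),.k,⟨false,0,⟨0,[(36,0)]⟩,⟨17,[(9,3),(4,7),(1,5),(7,9),(14,0),(6,3),(0,4)]⟩⟩,⟨true,0,⟨1,[(11,
  0),(16,1),(6,0)]⟩,⟨0,[(12,0),(16,0)]⟩⟩,⟨true,(-1),⟨0,[(4,0)]⟩,⟨1,[(26,0),(19,0)]⟩⟩,⟨false,0,⟨15,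
  [(4,15),(4,3),(4,0),(2,5),(6,8),(3,15),(5,0),(7,0),(4,8)]⟩,⟨0,[(1,0)]⟩⟩,⟨false,0,⟨6,[(4,1),(0,4),
  (3,0),(6,0),(3,1),(3,1),(22,1)]⟩,⟨0,[(2,0)]⟩⟩,⟨true,0,⟨5,[(4,1),(0,1),(3,1),(9,1),(4,5),(2,0),(0,
  5),(18,0)]⟩,⟨0,[(0,0)]⟩⟩,[]⟩)) (.K ⟨0,[0,0,0,1],0,(-1),(⟨0,[(28,0)]⟩,⟨0,[(27,0)]⟩),.k,(.x 0 ⟨1,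
  [(14,0),(18,0),(0,0)]⟩ ⟨0,[(40,0),(4,0)]⟩),(.x 0 ⟨0,[(40,0)]⟩ ⟨3,[(14,1),(10,0),(0,0),(18,1)]⟩),
  .k,.k,[⟨0,[(28,0)]⟩,⟨0,[(27,0)]⟩,⟨3,[(6,1),(6,0),(11,0),(2,1),(2,1),(3,0),(12,1)]⟩,⟨2,[(0,2),(7,
  0),(15,0),(10,0)]⟩]⟩)) (.R ⟨1,false,false,true,[1,0,0,-1],[0,0,1],[0,0,0,-1,0,0,0,0,-1],(⟨0,[(26,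
  0)]⟩,⟨0,[(27,0)]⟩),(⟨0,[(36,0)]⟩,⟨0,[(35,0)]⟩),⟨0,[(1,0)]⟩,.k,.k,(.x (-1) ⟨3,[(13,1),(10,0),(0,0),
  (18,1)]⟩ ⟨0,[(39,0)]⟩),.k,(.r (-1) ⟨0,[(5,0),(1,0),(18,0),(16,1)]⟩ ⟨1,[(2,0),(3,0),(11,0)]⟩),.k,
  ⟨true,1,⟨0,[(5,0),(1,0),(18,0),(13,0),(2,0)]⟩,⟨0,[(0,0),(33,0)]⟩⟩,⟨false,0,⟨0,[(10,0),(15,0)]⟩,⟨5,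
  [(5,1),(0,1),(2,0),(5,1),(11,3),(2,0),(3,0),(6,2)]⟩⟩,⟨true,0,⟨0,[(43,0)]⟩,⟨0,[(42,0)]⟩⟩,⟨true,
  (-1),⟨2,[(2,2),(4,0),(15,0),(2,2),(7,0)]⟩,⟨0,[(5,0),(5,0)]⟩⟩,⟨false,1,⟨3,[(24,0),(0,0),(19,1)]⟩,
  ⟨0,[]⟩⟩,⟨true,(-1),⟨2,[(0,2),(6,0),(15,0),(2,2),(7,0)]⟩,⟨0,[(5,0),(5,0),(31,0)]⟩⟩,[.o ⟨false,0,⟨0,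
  [(30,0)]⟩,⟨15,[(7,3),(4,0),(2,5),(6,8),(9,0),(7,0),(4,8)]⟩⟩,.o ⟨false,0,⟨2,[(7,0),(15,0),(10,0)]⟩,
  ⟨27,[(12,3),(1,7),(0,11),(6,11),(1,2),(0,2),(11,5)]⟩⟩,.o ⟨false,1,⟨1,[(27,1),(9,0),(6,0)]⟩,⟨4,[(7,
  0),(9,1),(8,4),(5,0)]⟩⟩,.a ⟨true,0,⟨0,[(27,0)]⟩,⟨0,[(26,0)]⟩⟩ ⟨true,1,⟨1,[(12,0),(11,0),(9,0)]⟩,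
  ⟨0,[(0,0)]⟩⟩ ⟨false,0,⟨2,[(7,0),(15,0),(2,2),(7,0)]⟩,⟨6,[(0,2),(4,2),(1,0),(4,0),(2,2),(11,3),(4,
  0),(7,0),(4,2)]⟩⟩]⟩))) (.Q [0,0,0,0,0,1,0,0,0,-1,0,1] (.p true [0,0,0,1] [1] (⟨0,[(25,0)]⟩,⟨0,
  [(24,0)]⟩) .k 1 (⟨0,[]⟩,⟨0,[]⟩) .k .k) (.I [0,0,1,2,0,0,0,1,1] (.Q [0,0,1,0,0,0,-1,-1,1,0,1,-1]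
  (.p true [0,0,1] [0,0,0,1] (⟨0,[(36,0)]⟩,⟨0,[(35,0)]⟩) .k 2 (⟨0,[(27,0)]⟩,⟨0,[(26,0)]⟩) .k (.x
  (-1) ⟨29,[(7,5),(4,7),(1,15),(8,3),(12,29),(0,6),(6,14)]⟩ ⟨1,[(9,0),(23,0),(1,1)]⟩)) (.R ⟨0,false,
  false,true,[1,0,0,-1],[1,0,-1],[1,0,0,0,0,0,0,0,-1],(⟨0,[(27,0)]⟩,⟨0,[(28,0)]⟩),(⟨0,[(36,0)]⟩,⟨0,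
  [(37,0)]⟩),⟨0,[(2,0)]⟩,.k,.k,(.x (-1) ⟨3,[(14,1),(10,0),(0,0),(18,1)]⟩ ⟨0,[(40,0)]⟩),.k,.k,.k,
  ⟨false,1,⟨0,[(3,0),(31,0)]⟩,⟨0,[(4,0),(6,0),(20,0)]⟩⟩,⟨true,0,⟨1,[(10,0),(16,1),(6,0)]⟩,⟨0,[(11,
  0),(16,0)]⟩⟩,⟨true,0,⟨0,[]⟩,⟨0,[(48,0)]⟩⟩,⟨false,0,⟨0,[(0,0)]⟩,⟨2,[(3,2),(4,0),(15,0),(3,2),(6,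
  0)]⟩⟩,⟨false,0,⟨0,[]⟩,⟨0,[]⟩⟩,⟨false,0,⟨0,[]⟩,⟨0,[]⟩⟩,[.o ⟨false,0,⟨0,[(29,0)]⟩,⟨7,[(24,3),(0,0),
  (0,0),(11,1),(7,3)]⟩⟩,.o ⟨false,1,⟨19,[(0,7),(5,7),(6,3),(4,3),(6,0),(0,0),(11,5)]⟩,⟨2,[(8,0),(15,
  0),(10,0)]⟩⟩,.o ⟨false,1,⟨1,[(28,1),(9,0),(6,0)]⟩,⟨4,[(8,0),(9,1),(8,4),(5,0)]⟩⟩,.a ⟨true,0,⟨0,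
  [(28,0)]⟩,⟨0,[(27,0)]⟩⟩ ⟨false,1,⟨0,[(3,0)]⟩,⟨0,[(5,0)]⟩⟩ ⟨true,0,⟨0,[(27,0),(1,0)]⟩,⟨2,[(8,0),
  (15,0),(3,2),(6,0)]⟩⟩]⟩) (.R ⟨0,false,false,true,[1,0,0,-1],[1,0,-1],[1,1,1],(⟨0,[(27,0)]⟩,⟨0,
  [(28,0)]⟩),(⟨0,[(36,0)]⟩,⟨0,[(37,0)]⟩),⟨0,[(2,0)]⟩,.k,.k,(.x (-1) ⟨3,[(14,1),(10,0),(0,0),(18,
  1)]⟩ ⟨0,[(40,0)]⟩),.k,.k,.k,⟨false,0,⟨0,[(35,0)]⟩,⟨17,[(8,3),(4,7),(1,5),(7,9),(14,0),(6,3),(0,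
  4)]⟩⟩,⟨true,0,⟨1,[(10,0),(16,1),(6,0)]⟩,⟨0,[(11,0),(16,0)]⟩⟩,⟨false,0,⟨0,[(5,0)]⟩,⟨0,[(3,0)]⟩⟩,
  ⟨true,0,⟨0,[(5,0),(21,0),(1,0)]⟩,⟨0,[(0,0)]⟩⟩,⟨false,0,⟨0,[]⟩,⟨0,[]⟩⟩,⟨false,0,⟨0,[]⟩,⟨0,[]⟩⟩,[.o
  ⟨false,0,⟨0,[(29,0)]⟩,⟨7,[(24,3),(0,0),(0,0),(11,1),(7,3)]⟩⟩,.o ⟨false,1,⟨27,[(13,3),(1,7),(0,11),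
  (6,11),(1,2),(0,2),(11,5)]⟩,⟨2,[(8,0),(15,0),(10,0)]⟩⟩,.o ⟨false,1,⟨1,[(28,1),(9,0),(6,0)]⟩,⟨4,
  [(8,0),(9,1),(8,4),(5,0)]⟩⟩,.a ⟨true,0,⟨0,[(28,0)]⟩,⟨0,[(27,0)]⟩⟩ ⟨false,0,⟨0,[]⟩,⟨3,[(25,0),(0,
  0),(19,1)]⟩⟩ ⟨true,0,⟨0,[(27,0),(1,0)]⟩,⟨6,[(0,0),(3,0),(3,0),(1,0),(13,2),(3,5)]⟩⟩]⟩)) (.R ⟨0,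
  false,false,false,[1,0,0,-1],[0,1],[0,1,1],(⟨0,[(26,0)]⟩,⟨0,[(27,0)]⟩),(⟨0,[(39,0)]⟩,⟨0,[(38,
  0)]⟩),⟨0,[(1,0)]⟩,.k,.k,(.x (-1) ⟨3,[(13,1),(10,0),(0,0),(18,1)]⟩ ⟨0,[(39,0)]⟩),(.x (-1) ⟨3,[(13,
  1),(10,0),(0,0),(18,1)]⟩ ⟨0,[(39,0)]⟩),.k,.k,⟨false,0,⟨0,[(41,0),(1,0)]⟩,⟨13,[(7,1),(6,1),(3,3),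
  (3,3),(21,4),(0,8)]⟩⟩,⟨true,0,⟨0,[(26,0)]⟩,⟨1,[(1,1),(11,0)]⟩⟩,⟨false,0,⟨0,[(4,0)]⟩,⟨0,[(2,0)]⟩⟩,
  ⟨true,0,⟨4,[(3,4),(3,0),(6,0),(1,1),(5,1),(3,4)]⟩,⟨0,[(0,0),(8,0),(11,0),(5,0),(13,0)]⟩⟩,⟨false,0,
  ⟨0,[]⟩,⟨0,[]⟩⟩,⟨false,0,⟨0,[]⟩,⟨0,[]⟩⟩,[.o ⟨false,1,⟨11,[(2,5),(11,1),(3,1),(3,1),(1,0),(0,3),(11,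
  0),(4,3)]⟩,⟨0,[(11,0)]⟩⟩,.o ⟨false,1,⟨13,[(7,1),(6,1),(3,3),(3,3),(21,4),(0,8)]⟩,⟨0,[(11,0),(35,
  0)]⟩⟩,.o ⟨false,1,⟨1,[(27,1),(9,0),(6,0)]⟩,⟨4,[(7,0),(9,1),(8,4),(5,0)]⟩⟩,.a ⟨true,0,⟨0,[(27,0)]⟩,
  ⟨0,[(26,0)]⟩⟩ ⟨true,0,⟨0,[(47,0)]⟩,⟨0,[]⟩⟩ ⟨false,1,⟨13,[(7,1),(6,1),(3,3),(3,3),(3,13),(17,4),(0,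
  8)]⟩,⟨0,[(11,0),(15,0)]⟩⟩]⟩)) (.Q [0,0,1,1,0,0,-1,-1,1,0,1,-1] (.p true [0,0,1] [0,0,0,1] (⟨0,
  [(35,0)]⟩,⟨0,[(34,0)]⟩) .k 2 (⟨0,[(26,0)]⟩,⟨0,[(25,0)]⟩) .k (.x (-1) ⟨29,[(6,5),(4,7),(1,15),(8,
  3),(12,29),(0,6),(6,14)]⟩ ⟨1,[(8,0),(23,0),(1,1)]⟩)) (.R ⟨1,false,false,true,[1,0,0,-1],[1,0,-1],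
  [1,0,0,0,0,0,0,0,-1],(⟨0,[(26,0)]⟩,⟨0,[(27,0)]⟩),(⟨0,[(35,0)]⟩,⟨0,[(36,0)]⟩),⟨0,[(1,0)]⟩,.k,.k,
  (.x (-1) ⟨3,[(13,1),(10,0),(0,0),(18,1)]⟩ ⟨0,[(39,0)]⟩),.k,(.r (-1) ⟨1,[(12,0),(11,0),(9,2)]⟩ ⟨0,
  [(0,0),(9,0),(16,0)]⟩),.k,⟨false,1,⟨0,[(2,0),(31,0)]⟩,⟨0,[(3,0),(6,0),(20,0)]⟩⟩,⟨true,0,⟨1,[(9,0),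
  (16,1),(6,0)]⟩,⟨0,[(10,0),(16,0)]⟩⟩,⟨true,0,⟨0,[]⟩,⟨0,[(47,0)]⟩⟩,⟨false,0,⟨0,[(0,0),(42,0)]⟩,⟨2,
  [(2,2),(4,0),(15,0),(3,2),(6,0)]⟩⟩,⟨false,1,⟨3,[(0,0),(4,0),(15,1),(15,0),(7,1)]⟩,⟨0,[(43,0)]⟩⟩,
  ⟨false,0,⟨0,[(0,0)]⟩,⟨1,[(2,1),(8,0),(11,0),(3,1),(15,0)]⟩⟩,[.o ⟨false,0,⟨0,[(28,0)]⟩,⟨7,[(23,3),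
  (0,0),(0,0),(11,1),(7,3)]⟩⟩,.o ⟨false,1,⟨11,[(0,3),(4,3),(6,3),(4,3),(6,0),(0,0),(11,1)]⟩,⟨2,[(7,
  0),(15,0),(10,0)]⟩⟩,.o ⟨false,1,⟨1,[(27,1),(9,0),(6,0)]⟩,⟨4,[(7,0),(9,1),(8,4),(5,0)]⟩⟩,.a ⟨true,
  0,⟨0,[(27,0)]⟩,⟨0,[(26,0)]⟩⟩ ⟨false,1,⟨0,[(2,0)]⟩,⟨0,[(4,0)]⟩⟩ ⟨true,0,⟨0,[(26,0),(1,0)]⟩,⟨2,[(7,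
  0),(15,0),(3,2),(6,0)]⟩⟩]⟩) (.K ⟨0,[0,0,0,1],0,0,(⟨0,[(27,0)]⟩,⟨0,[(26,0)]⟩),.k,(.x 0 ⟨1,[(13,0),
  (18,0),(0,0)]⟩ ⟨0,[(39,0),(4,0)]⟩),(.x 0 ⟨0,[(39,0)]⟩ ⟨3,[(13,1),(10,0),(0,0),(18,1)]⟩),.k,.k,[⟨0,
  [(27,0)]⟩,⟨0,[(26,0)]⟩,⟨0,[(0,0),(21,0)]⟩,⟨5,[(3,1),(0,3),(2,0),(9,0),(8,5),(1,2),(1,2)]⟩]⟩))))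
  (.K ⟨0,[0,0,0,1],0,0,(⟨0,[(24,0)]⟩,⟨0,[(23,0)]⟩),.k,(.r (-1) ⟨1,[(9,0),(12,0),(8,0)]⟩ ⟨4,[(0,4),
  (3,0),(6,0),(1,1),(5,1)]⟩),(.x 0 ⟨0,[(36,0)]⟩ ⟨3,[(10,1),(10,0),(0,0),(18,1)]⟩),.k,.k,[⟨0,[(24,
  0)]⟩,⟨0,[(23,0)]⟩,⟨0,[(0,0),(23,0),(13,0)]⟩,⟨4,[(1,4),(2,0),(1,0),(16,4),(1,1),(1,1),(10,0)]⟩]⟩))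
  (.Q [0,1,1,0,0,0,0,0,1,0,0,-1] (.p false [0,0,0,1] [] (⟨0,[(23,0)]⟩,⟨0,[(22,0)]⟩) .k 0 (⟨0,[]⟩,⟨0,
  []⟩) .k .k) (.K ⟨0,[0,0,0,1],0,0,(⟨0,[(24,0)]⟩,⟨0,[(23,0)]⟩),.k,(.r (-1) ⟨1,[(9,0),(12,0),(8,0)]⟩
  ⟨7,[(1,7),(9,5),(1,0),(0,2),(4,0),(10,1)]⟩),(.x 0 ⟨0,[(36,0)]⟩ ⟨3,[(10,1),(10,0),(0,0),(18,1)]⟩),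
  .k,.k,[⟨0,[(24,0)]⟩,⟨0,[(23,0)]⟩,⟨0,[(1,0),(22,0),(19,0)]⟩,⟨0,[(0,0)]⟩]⟩) (.Q [0,0,0,0,0,1,0,0,0,
  -1,0,1] (.p true [0,0,0,1] [1] (⟨0,[(24,0)]⟩,⟨0,[(23,0)]⟩) .k 1 (⟨0,[]⟩,⟨0,[]⟩) .k .k) (.R ⟨0,
  false,false,true,[1,0,0,-1],[0,1],[0,1,0,0,0,0,0,0,-1],(⟨0,[(24,0)]⟩,⟨0,[(25,0)]⟩),(⟨0,[(37,0)]⟩,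
  ⟨0,[(36,0)]⟩),⟨0,[(0,0)]⟩,.k,.k,(.x (-1) ⟨3,[(11,1),(10,0),(0,0),(18,1)]⟩ ⟨0,[(37,0)]⟩),(.x (-1)
  ⟨3,[(11,1),(10,0),(0,0),(18,1)]⟩ ⟨0,[(37,0)]⟩),.k,.k,⟨false,0,⟨0,[(1,0),(7,0),(14,0),(14,0)]⟩,⟨13,
  [(12,5),(0,1),(2,3),(3,1),(1,1),(0,8),(11,0)]⟩⟩,⟨true,0,⟨0,[(24,0)]⟩,⟨1,[(0,1),(10,0)]⟩⟩,⟨true,0,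
  ⟨0,[(45,0)]⟩,⟨0,[]⟩⟩,⟨false,1,⟨13,[(12,5),(0,1),(2,3),(3,1),(1,1),(0,8),(0,13),(10,0)]⟩,⟨0,[(1,0),
  (7,0)]⟩⟩,⟨false,0,⟨0,[]⟩,⟨0,[]⟩⟩,⟨false,0,⟨0,[]⟩,⟨0,[]⟩⟩,[.o ⟨false,0,⟨0,[(40,0)]⟩,⟨4,[(10,0),(2,
  0),(7,0),(13,1),(2,1),(4,0)]⟩⟩,.o ⟨false,1,⟨15,[(3,3),(8,3),(3,3),(5,0),(0,2),(0,3),(10,3),(6,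
  3)]⟩,⟨0,[(9,0)]⟩⟩,.o ⟨false,1,⟨1,[(25,1),(9,0),(6,0)]⟩,⟨4,[(5,0),(9,1),(8,4),(5,0)]⟩⟩,.a ⟨true,0,
  ⟨0,[(25,0)]⟩,⟨0,[(24,0)]⟩⟩ ⟨false,0,⟨0,[(1,0),(3,0),(1,0),(16,0),(11,1),(0,1),(1,0)]⟩,⟨13,[(12,3),
  (2,1),(6,0),(0,7),(7,1),(6,3),(4,4)]⟩⟩ ⟨true,0,⟨0,[(24,0),(15,0)]⟩,⟨0,[(9,0),(15,0)]⟩⟩]⟩) (.R ⟨1,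
  false,false,true,[1,0,0,-1],[0,1],[1,1,0,0,0,0,0,0,-1],(⟨0,[(24,0)]⟩,⟨0,[(25,0)]⟩),(⟨0,[(37,0)]⟩,
  ⟨0,[(36,0)]⟩),⟨0,[(0,0)]⟩,.k,.k,(.x (-1) ⟨3,[(11,1),(10,0),(0,0),(18,1)]⟩ ⟨0,[(37,0)]⟩),(.x (-1)
  ⟨3,[(11,1),(10,0),(0,0),(18,1)]⟩ ⟨0,[(37,0)]⟩),(.r 0 ⟨0,[(1,0),(7,0),(14,0),(14,0),(1,0)]⟩ ⟨27,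
  [(12,23),(0,7),(2,15),(3,7),(1,0),(0,14),(11,3)]⟩),.k,⟨false,0,⟨0,[(1,0),(7,0),(14,0),(14,0)]⟩,
  ⟨13,[(12,5),(0,1),(2,3),(3,1),(1,1),(0,8),(11,0)]⟩⟩,⟨true,0,⟨0,[(24,0)]⟩,⟨4,[(5,0),(9,1),(9,4),(4,
  0)]⟩⟩,⟨false,0,⟨0,[]⟩,⟨3,[(22,0),(0,0),(19,1)]⟩⟩,⟨false,1,⟨13,[(12,5),(0,1),(2,3),(3,1),(1,1),(0,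
  8),(0,13),(10,0)]⟩,⟨0,[(1,0),(7,0)]⟩⟩,⟨true,0,⟨0,[(40,0)]⟩,⟨0,[(41,0)]⟩⟩,⟨false,1,⟨13,[(5,3),(6,
  3),(3,7),(3,7),(2,6),(0,13),(17,2),(0,3)]⟩,⟨0,[(1,0),(7,0),(31,0)]⟩⟩,[.o ⟨false,0,⟨0,[(40,0)]⟩,⟨4,
  [(10,0),(2,0),(7,0),(13,1),(2,1),(4,0)]⟩⟩,.o ⟨false,1,⟨15,[(3,3),(8,3),(3,3),(5,0),(0,2),(0,3),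
  (10,3),(6,3)]⟩,⟨0,[(9,0)]⟩⟩,.o ⟨false,1,⟨1,[(25,1),(9,0),(6,0)]⟩,⟨4,[(5,0),(9,1),(8,4),(5,0)]⟩⟩,
  .a ⟨true,0,⟨0,[(25,0)]⟩,⟨0,[(24,0)]⟩⟩ ⟨false,0,⟨0,[(2,0)]⟩,⟨13,[(12,3),(2,1),(6,0),(0,7),(7,1),(6,
  3),(4,4)]⟩⟩ ⟨true,0,⟨0,[(24,0),(15,0)]⟩,⟨0,[(9,0),(15,0)]⟩⟩]⟩))))))) (.Q [0,-1,0,-1,0,0,1,1,0,1,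
  -1] (.p false [0,0,1] [1] (⟨0,[(28,0)]⟩,⟨0,[(27,0)]⟩) .k 1 (⟨0,[]⟩,⟨0,[]⟩) .k .k) (.R ⟨2,true,
  false,true,[0,1],[1,1,-1],[1,1,1,1],(⟨0,[]⟩,⟨0,[]⟩),(⟨0,[(28,0),(3,0)]⟩,⟨0,[(1,0)]⟩),⟨0,[]⟩,.k,.k,
  .k,.k,.k,.k,⟨true,0,⟨0,[(27,0)]⟩,⟨0,[(3,0),(11,0),(17,0)]⟩⟩,⟨false,1,⟨1,[(8,0),(18,0),(7,0),(1,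
  0)]⟩,⟨0,[(12,0)]⟩⟩,⟨false,0,⟨0,[]⟩,⟨3,[(17,0),(0,0),(19,1)]⟩⟩,⟨true,0,⟨0,[(21,0)]⟩,⟨2,[(0,0),(13,
  0),(1,0),(7,0)]⟩⟩,⟨true,0,⟨0,[(35,0)]⟩,⟨0,[(36,0)]⟩⟩,⟨false,1,⟨1,[(15,1),(14,0),(7,0)]⟩,⟨0,[(0,
  0)]⟩⟩,[]⟩) (.I [0,0,1,1,0,0,0,0,-1] (.I [0,1,1,0,-1,0,0,0,-1] (.Q [0,1,1,0,0,0,0,0,1,0,0,-1] (.p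
  false [0,0,0,1] [] (⟨0,[(22,0)]⟩,⟨0,[(21,0)]⟩) .k 0 (⟨0,[]⟩,⟨0,[]⟩) .k .k) (.K ⟨0,[0,0,0,1],0,0,
  (⟨0,[(23,0)]⟩,⟨0,[(22,0)]⟩),.k,(.r (-1) ⟨1,[(8,0),(12,0),(8,0)]⟩ ⟨0,[(2,0)]⟩),(.x 0 ⟨0,[(35,0)]⟩
  ⟨3,[(9,1),(10,0),(0,0),(18,1)]⟩),.k,.k,[⟨0,[(23,0)]⟩,⟨0,[(22,0)]⟩,⟨0,[(1,0),(21,0),(16,0)]⟩,⟨0,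
  [(0,0)]⟩]⟩) (.R ⟨0,false,false,true,[1,0,-1],[0,0,0,1],[1,1,0,0,0,0,0,0,1],(⟨0,[(31,0)]⟩,⟨0,[(32,
  0)]⟩),(⟨0,[(23,0)]⟩,⟨0,[(22,0)]⟩),⟨0,[(16,0)]⟩,.k,.k,.k,.k,.k,.k,⟨true,0,⟨0,[]⟩,⟨1,[(28,0),(0,
  0)]⟩⟩,⟨false,0,⟨0,[(6,0),(15,0)]⟩,⟨1,[(11,0),(11,1),(6,0),(7,0),(1,0)]⟩⟩,⟨false,1,⟨3,[(20,0),(0,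
  2),(8,3)]⟩,⟨0,[(0,0),(2,0),(2,0),(15,0),(13,0)]⟩⟩,⟨true,0,⟨0,[(1,0),(4,0),(14,0),(0,0),(7,0)]⟩,⟨0,
  [(0,0),(23,0)]⟩⟩,⟨false,0,⟨0,[]⟩,⟨0,[]⟩⟩,⟨false,0,⟨0,[]⟩,⟨0,[]⟩⟩,[.a ⟨true,0,⟨0,[(1,0),(19,0),(0,
  0)]⟩,⟨0,[(0,0)]⟩⟩ ⟨false,1,⟨1,[(21,0),(18,0),(2,1)]⟩,⟨2,[(0,1),(0,0),(3,0),(0,0),(15,1),(18,0)]⟩⟩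
  ⟨true,0,⟨0,[(1,0),(4,0),(14,0),(0,0)]⟩,⟨1,[(0,1),(4,0),(23,0)]⟩⟩,.o ⟨false,1,⟨5,[(13,1),(6,0),(0,
  3),(0,5),(5,1),(4,0)]⟩,⟨1,[(0,1),(2,0),(3,0),(18,0)]⟩⟩,.o ⟨false,1,⟨11,[(11,5),(2,1),(5,0),(0,0),
  (4,3),(2,3),(8,1),(1,3)]⟩,⟨0,[(6,0)]⟩⟩,.o ⟨false,0,⟨0,[(25,0)]⟩,⟨17,[(6,5),(1,3),(1,7),(8,1),(13,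
  4),(6,8)]⟩⟩]⟩)) (.Q [0,1,1,0,-1,0,0,0,1,0,0,-1] (.p false [0,0,0,1] [] (⟨0,[(22,0)]⟩,⟨0,[(21,
  0)]⟩) .k 0 (⟨0,[]⟩,⟨0,[]⟩) .k .k) (.K ⟨0,[0,0,0,1],0,(-1),(⟨0,[(23,0)]⟩,⟨0,[(22,0)]⟩),.k,(.r (-1)
  ⟨1,[(8,0),(12,0),(8,0)]⟩ ⟨0,[(2,0)]⟩),(.x 0 ⟨0,[(35,0)]⟩ ⟨3,[(9,1),(10,0),(0,0),(18,1)]⟩),.k,.k,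
  [⟨0,[(23,0)]⟩,⟨0,[(22,0)]⟩,⟨1,[(20,0),(2,1),(16,0),(2,1)]⟩,⟨0,[(0,0)]⟩]⟩) (.Q [0,1,1,0,0,0,0,0,1,
  0,0,-1] (.p false [0,0,0,1] [] (⟨0,[(23,0)]⟩,⟨0,[(22,0)]⟩) .k 0 (⟨0,[]⟩,⟨0,[]⟩) .k .k) (.Q [0,1,
  -1,0,0,0,0,0,-1,0,0,1] (.p true [0,0,0,1] [] (⟨0,[(24,0)]⟩,⟨0,[(23,0)]⟩) .k 0 (⟨0,[]⟩,⟨0,[]⟩) .k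
  .k) (.K ⟨0,[0,0,0,1],0,0,(⟨0,[(25,0)]⟩,⟨0,[(24,0)]⟩),.k,(.r (-1) ⟨1,[(10,0),(12,0),(8,0)]⟩ ⟨0,[(4,
  0)]⟩),(.x 0 ⟨0,[(37,0)]⟩ ⟨3,[(11,1),(10,0),(0,0),(18,1)]⟩),.k,.k,[⟨0,[(25,0)]⟩,⟨0,[(24,0)]⟩,⟨0,
  [(0,0)]⟩,⟨0,[(1,0)]⟩]⟩) (.Q [0,0,0,0,0,1,0,0,0,-1,0,1] (.p true [0,0,0,1] [1] (⟨0,[(25,0)]⟩,⟨0,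
  [(24,0)]⟩) .k 1 (⟨0,[]⟩,⟨0,[]⟩) .k .k) (.R ⟨0,false,false,true,[1,0,0,-1],[0,1],[0,1,0,0,0,0,0,0,
  -1],(⟨0,[(25,0)]⟩,⟨0,[(26,0)]⟩),(⟨0,[(38,0)]⟩,⟨0,[(37,0)]⟩),⟨0,[(0,0)]⟩,.k,.k,(.x (-1) ⟨3,[(12,1),
  (10,0),(0,0),(18,1)]⟩ ⟨0,[(38,0)]⟩),(.x (-1) ⟨3,[(12,1),(10,0),(0,0),(18,1)]⟩ ⟨0,[(38,0)]⟩),.k,.k,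
  ⟨false,1,⟨0,[(3,0),(6,0),(14,0),(14,0)]⟩,⟨0,[(1,0),(24,0),(14,0)]⟩⟩,⟨true,0,⟨0,[(25,0)]⟩,⟨1,[(0,
  1),(11,0)]⟩⟩,⟨true,0,⟨0,[(46,0)]⟩,⟨0,[]⟩⟩,⟨false,0,⟨3,[(1,2),(0,0),(17,1),(0,1),(3,1),(0,1)]⟩,⟨0,
  [(3,0),(6,0)]⟩⟩,⟨false,0,⟨0,[]⟩,⟨0,[]⟩⟩,⟨false,0,⟨0,[]⟩,⟨0,[]⟩⟩,[.o ⟨false,0,⟨0,[(41,0)]⟩,⟨4,[(11,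
  0),(2,0),(7,0),(13,1),(2,1),(4,0)]⟩⟩,.o ⟨false,1,⟨7,[(4,1),(8,1),(3,1),(3,1),(1,1),(0,0),(11,0),
  (6,1)]⟩,⟨0,[(10,0)]⟩⟩,.o ⟨false,1,⟨1,[(26,1),(9,0),(6,0)]⟩,⟨1,[(9,0),(6,0),(8,1)]⟩⟩,.a ⟨true,0,⟨0,
  [(26,0)]⟩,⟨0,[(25,0)]⟩⟩ ⟨false,1,⟨1,[(23,0),(19,0)]⟩,⟨0,[(1,0),(24,0)]⟩⟩ ⟨true,0,⟨0,[(25,0),(15,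
  0)]⟩,⟨0,[(10,0),(15,0)]⟩⟩]⟩) (.R ⟨1,false,false,false,[1,0,0,-1],[1,-1],[0,0,0,-1,0,0,0,0,-1],(⟨0,
  [(25,0)]⟩,⟨0,[(26,0)]⟩),(⟨0,[(37,0)]⟩,⟨0,[(38,0)]⟩),⟨0,[(0,0)]⟩,.k,.k,(.x (-1) ⟨3,[(12,1),(10,0),
  (0,0),(18,1)]⟩ ⟨0,[(38,0)]⟩),(.r 0 ⟨0,[(5,0)]⟩ ⟨1,[(11,0),(12,0),(8,0)]⟩),.k,.k,⟨true,0,⟨0,[(5,0),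
  (36,0)]⟩,⟨0,[(1,0),(24,0),(13,0)]⟩⟩,⟨false,0,⟨1,[(9,0),(6,0),(8,1)]⟩,⟨0,[(26,0),(16,0)]⟩⟩,⟨true,0,
  ⟨0,[(42,0)]⟩,⟨0,[(41,0)]⟩⟩,⟨false,0,⟨0,[(1,0),(40,0)]⟩,⟨0,[(3,0),(37,0)]⟩⟩,⟨false,1,⟨3,[(23,0),(0,
  0),(19,1)]⟩,⟨0,[]⟩⟩,⟨false,0,⟨0,[(1,0)]⟩,⟨1,[(23,0),(2,1),(16,0)]⟩⟩,[.o ⟨false,0,⟨0,[(10,0)]⟩,⟨7,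
  [(4,1),(8,1),(3,1),(3,1),(1,1),(0,0),(11,0),(6,1)]⟩⟩,.o ⟨false,1,⟨4,[(11,0),(2,0),(7,0),(13,1),(2,
  1),(4,0)]⟩,⟨0,[(41,0)]⟩⟩,.o ⟨false,1,⟨1,[(26,1),(9,0),(6,0)]⟩,⟨1,[(9,0),(6,0),(8,1)]⟩⟩,.a ⟨true,0,
  ⟨0,[(26,0)]⟩,⟨0,[(25,0)]⟩⟩ ⟨false,1,⟨0,[(3,0),(6,0),(14,0)]⟩,⟨0,[(1,0),(24,0),(14,0)]⟩⟩ ⟨true,0,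
  ⟨0,[(10,0),(14,0)]⟩,⟨0,[(26,0),(14,0)]⟩⟩]⟩))) (.Q [0,0,0,0,0,1,0,0,0,-1,0,1] (.p true [0,0,0,1]
  [1] (⟨0,[(24,0)]⟩,⟨0,[(23,0)]⟩) .k 1 (⟨0,[]⟩,⟨0,[]⟩) .k .k) (.R ⟨0,false,false,true,[1,0,0,-1],[0,
  1],[0,1,0,0,0,0,0,0,-1],(⟨0,[(24,0)]⟩,⟨0,[(25,0)]⟩),(⟨0,[(37,0)]⟩,⟨0,[(36,0)]⟩),⟨0,[(0,0)]⟩,.k,.k,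
  (.x (-1) ⟨3,[(11,1),(10,0),(0,0),(18,1)]⟩ ⟨0,[(37,0)]⟩),(.x (-1) ⟨3,[(11,1),(10,0),(0,0),(18,1)]⟩
  ⟨0,[(37,0)]⟩),.k,.k,⟨false,0,⟨0,[(1,0),(7,0),(14,0),(14,0)]⟩,⟨13,[(12,5),(0,1),(2,3),(3,1),(1,1),
  (0,8),(11,0)]⟩⟩,⟨true,0,⟨0,[(24,0)]⟩,⟨1,[(0,1),(10,0)]⟩⟩,⟨true,0,⟨0,[(45,0)]⟩,⟨0,[]⟩⟩,⟨false,1,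
  ⟨13,[(12,5),(0,1),(2,3),(3,1),(1,1),(0,8),(0,13),(10,0)]⟩,⟨0,[(1,0),(7,0)]⟩⟩,⟨false,0,⟨0,[]⟩,⟨0,
  []⟩⟩,⟨false,0,⟨0,[]⟩,⟨0,[]⟩⟩,[.o ⟨false,0,⟨0,[(40,0)]⟩,⟨4,[(10,0),(2,0),(7,0),(13,1),(2,1),(4,
  0)]⟩⟩,.o ⟨false,1,⟨7,[(3,1),(8,1),(3,1),(3,1),(1,1),(0,0),(11,0),(6,1)]⟩,⟨0,[(9,0)]⟩⟩,.o ⟨false,1,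
  ⟨1,[(25,1),(9,0),(6,0)]⟩,⟨1,[(8,0),(6,0),(8,1)]⟩⟩,.a ⟨true,0,⟨0,[(25,0)]⟩,⟨0,[(24,0)]⟩⟩ ⟨false,0,
  ⟨3,[(1,2),(2,0),(2,0),(0,0),(0,0),(14,2),(14,2)]⟩,⟨13,[(12,3),(2,1),(6,0),(0,7),(7,1),(6,3),(4,
  4)]⟩⟩ ⟨true,0,⟨0,[(24,0),(15,0)]⟩,⟨0,[(9,0),(15,0)]⟩⟩]⟩) (.R ⟨1,false,false,true,[1,0,0,-1],[0,1],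
  [0,1,0,-1,0,0,0,0,-1],(⟨0,[(24,0)]⟩,⟨0,[(25,0)]⟩),(⟨0,[(37,0)]⟩,⟨0,[(36,0)]⟩),⟨0,[(0,0)]⟩,.k,.k,
  (.x (-1) ⟨3,[(11,1),(10,0),(0,0),(18,1)]⟩ ⟨0,[(37,0)]⟩),(.x (-1) ⟨3,[(11,1),(10,0),(0,0),(18,1)]⟩
  ⟨0,[(37,0)]⟩),(.r 0 ⟨0,[(1,0),(7,0),(14,0),(14,0),(1,0)]⟩ ⟨27,[(12,23),(0,7),(2,15),(3,7),(1,0),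
  (0,14),(11,3)]⟩),.k,⟨false,0,⟨0,[(1,0),(7,0),(14,0),(14,0),(1,0)]⟩,⟨3,[(3,1),(8,1),(3,1),(3,1),(2,
  0),(11,0)]⟩⟩,⟨true,0,⟨0,[(24,0)]⟩,⟨1,[(8,0),(6,0),(9,1)]⟩⟩,⟨false,0,⟨0,[(41,0)]⟩,⟨7,[(5,1),(6,1),
  (3,1),(25,2),(0,4)]⟩⟩,⟨false,1,⟨13,[(12,5),(0,1),(2,3),(3,1),(1,1),(0,8),(0,13),(10,0)]⟩,⟨0,[(1,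
  0),(7,0)]⟩⟩,⟨true,0,⟨0,[(45,0)]⟩,⟨0,[]⟩⟩,⟨false,1,⟨3,[(3,1),(8,1),(3,1),(3,1),(2,0),(0,3),(10,
  0)]⟩,⟨0,[(1,0),(7,0),(31,0)]⟩⟩,[.o ⟨false,0,⟨0,[(40,0)]⟩,⟨4,[(10,0),(2,0),(7,0),(13,1),(2,1),(4,
  0)]⟩⟩,.o ⟨false,1,⟨7,[(3,1),(8,1),(3,1),(3,1),(1,1),(0,0),(11,0),(6,1)]⟩,⟨0,[(9,0)]⟩⟩,.o ⟨false,1,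
  ⟨1,[(25,1),(9,0),(6,0)]⟩,⟨1,[(8,0),(6,0),(8,1)]⟩⟩,.a ⟨true,0,⟨0,[(25,0)]⟩,⟨0,[(24,0)]⟩⟩ ⟨false,0,
  ⟨2,[(1,1),(2,0),(4,1),(14,1),(14,1),(1,1)]⟩,⟨5,[(5,1),(6,1),(1,1),(8,2),(19,2)]⟩⟩ ⟨true,0,⟨0,[(24,
  0),(15,0)]⟩,⟨0,[(9,0),(15,0)]⟩⟩]⟩))))) (.Q [0,1,1,0,-1,0,0,0,1,0,0,-1] (.p false [0,0,0,1] [] (⟨0,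
  [(21,0)]⟩,⟨0,[(20,0)]⟩) .k 0 (⟨0,[]⟩,⟨0,[]⟩) .k .k) (.K ⟨0,[0,0,0,1],0,(-1),(⟨0,[(22,0)]⟩,⟨0,[(21,
  0)]⟩),.k,(.x 0 ⟨1,[(8,0),(18,0),(0,0)]⟩ ⟨0,[(34,0),(4,0)]⟩),(.x 0 ⟨0,[(34,0)]⟩ ⟨3,[(8,1),(10,0),
  (0,0),(18,1)]⟩),.k,.k,[⟨0,[(22,0)]⟩,⟨0,[(21,0)]⟩,⟨1,[(19,0),(2,1),(16,0),(2,1)]⟩,⟨0,[(0,0)]⟩]⟩)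
  (.Q [0,0,0,0,0,1,0,0,0,-1,0,1] (.p true [0,0,0,1] [1] (⟨0,[(22,0)]⟩,⟨0,[(21,0)]⟩) .k 1 (⟨0,[]⟩,⟨0,
  []⟩) .k .k) (.R ⟨0,false,false,true,[1,0,0,-1],[1,0,-1],[0,0,0,-1,0,0,0,0,-1],(⟨0,[(22,0)]⟩,⟨0,
  [(23,0)]⟩),(⟨0,[(31,0)]⟩,⟨0,[(32,0)]⟩),⟨0,[(0,0)]⟩,.k,.k,(.x (-1) ⟨3,[(9,1),(10,0),(0,0),(18,1)]⟩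
  ⟨0,[(35,0)]⟩),.k,.k,.k,⟨false,1,⟨0,[(1,0),(5,0),(14,0),(7,0)]⟩,⟨0,[(2,0),(0,0),(6,0)]⟩⟩,⟨true,0,
  ⟨1,[(5,0),(16,1),(6,0)]⟩,⟨0,[(6,0),(16,0)]⟩⟩,⟨true,0,⟨0,[(39,0)]⟩,⟨0,[(38,0)]⟩⟩,⟨false,0,⟨2,[(2,
  2),(0,3),(6,0),(1,0),(9,2),(13,2)]⟩,⟨0,[(1,0),(4,0),(23,0)]⟩⟩,⟨false,0,⟨0,[]⟩,⟨0,[]⟩⟩,⟨false,0,⟨0,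
  []⟩,⟨0,[]⟩⟩,[.o ⟨false,0,⟨0,[(24,0)]⟩,⟨7,[(19,3),(0,0),(0,0),(11,1),(7,3)]⟩⟩,.o ⟨false,1,⟨27,[(8,
  3),(1,7),(0,11),(6,11),(1,2),(0,2),(11,5)]⟩,⟨0,[(6,0),(23,0)]⟩⟩,.o ⟨false,1,⟨1,[(23,1),(9,0),(6,
  0)]⟩,⟨1,[(6,0),(6,0),(8,1)]⟩⟩,.a ⟨true,0,⟨0,[(23,0)]⟩,⟨0,[(22,0)]⟩⟩ ⟨false,1,⟨0,[(1,0),(5,0),(14,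
  0)]⟩,⟨2,[(2,2),(0,1),(6,1),(1,1)]⟩⟩ ⟨true,0,⟨0,[(22,0),(1,0)]⟩,⟨0,[(6,0),(16,0),(6,0)]⟩⟩]⟩) (.Q
  [0,0,1,1,0,0,-1,-1,1,0,1,-1] (.p true [0,0,1] [0,0,0,1] (⟨0,[(32,0)]⟩,⟨0,[(31,0)]⟩) .k 2 (⟨0,[(23,
  0)]⟩,⟨0,[(22,0)]⟩) .k (.x (-1) ⟨5,[(4,2),(3,1),(1,3),(5,2),(2,0),(13,0),(6,2)]⟩ ⟨1,[(5,0),(23,0),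
  (1,1)]⟩)) (.R ⟨1,false,false,true,[1,0,0,-1],[1,0,-1],[0,0,0,-1,0,0,0,0,-1],(⟨0,[(23,0)]⟩,⟨0,[(24,
  0)]⟩),(⟨0,[(32,0)]⟩,⟨0,[(33,0)]⟩),⟨0,[(1,0)]⟩,.k,.k,(.x (-1) ⟨3,[(10,1),(10,0),(0,0),(18,1)]⟩ ⟨0,
  [(36,0)]⟩),.k,(.r (-1) ⟨1,[(9,0),(11,0),(9,2)]⟩ ⟨0,[(0,0),(6,0),(16,0)]⟩),.k,⟨false,1,⟨0,[(2,0),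
  (5,0),(14,0),(7,0)]⟩,⟨0,[(3,0),(0,0),(6,0)]⟩⟩,⟨true,0,⟨1,[(6,0),(16,1),(6,0)]⟩,⟨0,[(7,0),(16,
  0)]⟩⟩,⟨true,0,⟨0,[(40,0)]⟩,⟨0,[(39,0)]⟩⟩,⟨false,0,⟨0,[(0,0),(39,0)]⟩,⟨0,[(2,0),(4,0),(23,0)]⟩⟩,
  ⟨false,1,⟨3,[(21,0),(0,0),(19,1)]⟩,⟨0,[]⟩⟩,⟨false,0,⟨0,[(0,0)]⟩,⟨1,[(2,1),(5,0),(11,0),(19,0)]⟩⟩,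
  [.o ⟨false,0,⟨0,[(25,0)]⟩,⟨7,[(20,3),(0,0),(0,0),(11,1),(7,3)]⟩⟩,.o ⟨false,1,⟨27,[(9,3),(1,7),(0,
  11),(6,11),(1,2),(0,2),(11,5)]⟩,⟨0,[(7,0),(23,0)]⟩⟩,.o ⟨false,1,⟨1,[(24,1),(9,0),(6,0)]⟩,⟨1,[(7,
  0),(6,0),(8,1)]⟩⟩,.a ⟨true,0,⟨0,[(24,0)]⟩,⟨0,[(23,0)]⟩⟩ ⟨false,1,⟨0,[(2,0),(5,0),(14,0)]⟩,⟨1,[(0,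
  0),(2,0),(3,0),(7,0),(8,0)]⟩⟩ ⟨true,0,⟨0,[(23,0),(1,0)]⟩,⟨0,[(7,0),(16,0),(6,0)]⟩⟩]⟩) (.K ⟨0,[0,0,
  0,1],0,0,(⟨0,[(24,0)]⟩,⟨0,[(23,0)]⟩),.k,(.x 0 ⟨1,[(10,0),(18,0),(0,0)]⟩ ⟨0,[(36,0),(4,0)]⟩),(.x 0
  ⟨0,[(36,0)]⟩ ⟨3,[(10,1),(10,0),(0,0),(18,1)]⟩),.k,.k,[⟨0,[(24,0)]⟩,⟨0,[(23,0)]⟩,⟨0,[(0,0),(18,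
  0)]⟩,⟨5,[(3,5),(10,2),(0,0),(3,0),(3,5),(5,3),(9,2),(4,1)]⟩]⟩))))))))))

theorem ok11 : chk (cU (-1) true 3) t11 l14 = true := by decide +kernel

noncomputable def t12 : Tre :=
  (.I [0,0,1,1,-1,0,0,2] (.Q [0,0,0,0,0,0,-1,0,0,0,1] (.p true [0,0,1] [] (⟨0,[(25,0)]⟩,⟨0,[(24,
  0)]⟩) .k 0 (⟨0,[]⟩,⟨0,[]⟩) .k .k) (.R ⟨0,false,false,true,[1,0,-1],[-1,1,1],[0,1],(⟨0,[(25,0)]⟩,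
  ⟨0,[(26,0)]⟩),(⟨0,[(10,0)]⟩,⟨0,[(25,0),(2,0)]⟩),⟨0,[(10,0)]⟩,.k,.k,.k,(.r (-2) ⟨0,[(5,0),(3,1),
  (11,0),(0,0),(11,0)]⟩ ⟨0,[(1,0)]⟩),.k,.k,⟨true,1,⟨1,[(5,0),(3,2),(8,0),(14,0),(0,0)]⟩,⟨0,[(2,0),
  (30,0)]⟩⟩,⟨false,1,⟨0,[(9,1),(24,0)]⟩,⟨3,[(0,0),(0,1),(3,1),(1,0),(10,1)]⟩⟩,⟨false,0,⟨0,[(24,0)]⟩,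
  ⟨0,[(9,0),(8,0),(16,0)]⟩⟩,⟨true,(-1),⟨0,[(1,0),(7,1),(21,0)]⟩,⟨0,[(5,0),(3,0),(8,0)]⟩⟩,⟨false,0,
  ⟨0,[]⟩,⟨0,[]⟩⟩,⟨false,0,⟨0,[]⟩,⟨0,[]⟩⟩,[.e ⟨false,0,⟨0,[(31,0)]⟩,⟨3,[(14,0),(0,0),(19,1)]⟩⟩
  ⟨false,0,⟨0,[(9,0),(1,0),(19,0)]⟩,⟨0,[(5,0)]⟩⟩,.o ⟨false,0,⟨0,[(11,0)]⟩,⟨3,[(5,1),(12,1),(3,1),(4,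
  0),(5,1),(0,0)]⟩⟩,.a ⟨true,0,⟨0,[(0,0)]⟩,⟨0,[(9,0)]⟩⟩ ⟨true,0,⟨0,[(37,0)]⟩,⟨0,[]⟩⟩ ⟨false,0,⟨0,
  [(9,0),(1,0)]⟩,⟨0,[(5,0)]⟩⟩,.o ⟨false,0,⟨0,[(19,0)]⟩,⟨0,[(22,0),(11,0)]⟩⟩]⟩) (.Q [0,1,-1,0,0,0,0,
  0,-1,0,0,1] (.p true [0,0,0,1] [] (⟨0,[(17,0)]⟩,⟨0,[(16,0)]⟩) .k 0 (⟨0,[]⟩,⟨0,[]⟩) .k .k) (.K ⟨0,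
  [0,0,0,1],0,0,(⟨0,[(18,0)]⟩,⟨0,[(17,0)]⟩),.k,(.r (-1) ⟨1,[(16,0),(17,1),(0,0)]⟩ ⟨5,[(0,3),(0,5),
  (1,3),(2,1),(6,1),(1,0),(1,3),(13,1),(4,0)]⟩),(.x 0 ⟨0,[(30,0)]⟩ ⟨3,[(4,1),(10,0),(0,0),(18,1)]⟩),
  .k,.k,[⟨0,[(18,0)]⟩,⟨0,[(17,0)]⟩,⟨0,[(0,0)]⟩,⟨1,[(1,0),(0,0),(13,0),(0,1),(1,1),(3,0),(10,0)]⟩]⟩)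
  (.Q [0,0,0,1,0,0,0,0,0,1] (.pp false [-1,1]) (.K ⟨2,[-1,1,1],0,0,(⟨0,[(12,0)]⟩,⟨0,[(27,0),(2,
  0)]⟩),.k,.k,(.x (-1) ⟨0,[(11,0),(0,0),(18,0),(4,0)]⟩ ⟨3,[(2,1),(0,1),(1,2),(1,1),(12,1),(6,3),(2,
  1)]⟩),.k,.k,[⟨0,[(0,0)]⟩,⟨0,[(20,0),(14,0)]⟩,⟨3,[(9,1),(14,0),(0,2)]⟩,⟨0,[(11,0)]⟩]⟩) (.Q [0,1,1,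
  0,-1,0,0,0,1,0,0,-1] (.p false [0,0,0,1] [] (⟨0,[(19,0)]⟩,⟨0,[(18,0)]⟩) .k 0 (⟨0,[]⟩,⟨0,[]⟩) .k
  .k) (.K ⟨0,[0,0,0,1],0,(-1),(⟨0,[(20,0)]⟩,⟨0,[(19,0)]⟩),.k,(.x 0 ⟨1,[(6,0),(18,0),(0,0)]⟩ ⟨0,[(32,
  0),(4,0)]⟩),(.x 0 ⟨0,[(32,0)]⟩ ⟨3,[(6,1),(10,0),(0,0),(18,1)]⟩),.k,.k,[⟨0,[(20,0)]⟩,⟨0,[(19,0)]⟩,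
  ⟨1,[(17,0),(2,1),(16,0),(2,1)]⟩,⟨0,[(0,0)]⟩]⟩) (.Q [0,0,0,0,0,1,0,0,0,-1,0,1] (.p true [0,0,0,1]
  [1] (⟨0,[(20,0)]⟩,⟨0,[(19,0)]⟩) .k 1 (⟨0,[]⟩,⟨0,[]⟩) .k .k) (.R ⟨0,false,false,true,[1,0,0,-1],[0,
  1],[0,1,0,0,0,0,0,0,-1],(⟨0,[(20,0)]⟩,⟨0,[(21,0)]⟩),(⟨0,[(33,0)]⟩,⟨0,[(32,0)]⟩),⟨0,[(0,0)]⟩,.k,.k,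
  (.x (-1) ⟨3,[(7,1),(10,0),(0,0),(18,1)]⟩ ⟨0,[(33,0)]⟩),(.x (-1) ⟨3,[(7,1),(10,0),(0,0),(18,1)]⟩
  ⟨0,[(33,0)]⟩),.k,.k,⟨false,1,⟨0,[(1,0),(0,0),(17,0),(14,0)]⟩,⟨2,[(3,0),(0,0),(1,0),(9,0),(2,0),(1,
  0)]⟩⟩,⟨true,0,⟨0,[(20,0)]⟩,⟨1,[(0,1),(6,0)]⟩⟩,⟨true,0,⟨0,[(41,0)]⟩,⟨0,[]⟩⟩,⟨false,0,⟨2,[(3,0),(2,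
  0),(6,0),(2,0),(2,0),(0,1)]⟩,⟨0,[(1,0),(0,0)]⟩⟩,⟨false,0,⟨0,[]⟩,⟨0,[]⟩⟩,⟨false,0,⟨0,[]⟩,⟨0,[]⟩⟩,
  [.o ⟨false,0,⟨0,[(36,0)]⟩,⟨1,[(31,0),(5,1),(1,0)]⟩⟩,.o ⟨false,1,⟨15,[(8,3),(3,3),(3,3),(1,2),(0,
  2),(11,1),(6,5),(0,1)]⟩,⟨0,[(2,0)]⟩⟩,.o ⟨false,1,⟨1,[(21,1),(9,0),(6,0)]⟩,⟨1,[(4,0),(6,0),(8,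
  1)]⟩⟩,.a ⟨true,0,⟨0,[(21,0)]⟩,⟨0,[(20,0)]⟩⟩ ⟨false,1,⟨1,[(18,0),(19,0)]⟩,⟨0,[(3,0),(17,0)]⟩⟩
  ⟨true,0,⟨0,[(20,0),(15,0)]⟩,⟨0,[(2,0),(18,0)]⟩⟩]⟩) (.R ⟨1,false,false,false,[1,0,0,-1],[1,-1],[0,
  0,0,-1,0,0,0,0,-1],(⟨0,[(20,0)]⟩,⟨0,[(21,0)]⟩),(⟨0,[(32,0)]⟩,⟨0,[(33,0)]⟩),⟨0,[(0,0)]⟩,.k,.k,(.x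
  (-1) ⟨3,[(7,1),(10,0),(0,0),(18,1)]⟩ ⟨0,[(33,0)]⟩),(.r 0 ⟨0,[(1,0),(2,0),(1,0),(13,0),(1,0),(14,
  0)]⟩ ⟨1,[(19,0),(17,1),(0,0)]⟩),.k,.k,⟨true,0,⟨0,[(1,0),(2,0),(1,0),(13,0),(1,0),(14,1)]⟩,⟨0,[(3,
  0),(17,0),(13,0)]⟩⟩,⟨false,0,⟨1,[(4,0),(6,0),(8,1)]⟩,⟨0,[(21,0),(16,0)]⟩⟩,⟨true,0,⟨0,[(37,0)]⟩,⟨0,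
  [(36,0)]⟩⟩,⟨false,0,⟨0,[(3,0),(33,0)]⟩,⟨0,[(1,0),(34,0)]⟩⟩,⟨false,1,⟨3,[(18,0),(0,0),(19,1)]⟩,⟨0,
  []⟩⟩,⟨false,0,⟨0,[(3,0)]⟩,⟨0,[(1,0),(39,0)]⟩⟩,[.o ⟨false,0,⟨0,[(2,0)]⟩,⟨15,[(8,3),(3,3),(3,3),(1,
  2),(0,2),(11,1),(6,5),(0,1)]⟩⟩,.o ⟨false,1,⟨1,[(31,0),(5,1),(1,0)]⟩,⟨0,[(36,0)]⟩⟩,.o ⟨false,1,⟨1,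
  [(21,1),(9,0),(6,0)]⟩,⟨1,[(4,0),(6,0),(8,1)]⟩⟩,.a ⟨true,0,⟨0,[(21,0)]⟩,⟨0,[(20,0)]⟩⟩ ⟨false,1,⟨0,
  [(1,0),(0,0),(17,0)]⟩,⟨2,[(3,0),(0,0),(1,0),(9,0),(2,0),(1,0)]⟩⟩ ⟨true,0,⟨0,[(2,0),(17,0)]⟩,⟨0,
  [(21,0),(14,0)]⟩⟩]⟩)))))) (.Q [0,0,0,1,0,0,1,0,0,1,-1] (.p false [0,0,1] [1] (⟨0,[(25,0)]⟩,⟨0,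
  [(24,0)]⟩) .k 1 (⟨0,[]⟩,⟨0,[]⟩) .k .k) (.Q [0,0,0,1,0,0,0,0,0,1] (.pp false [-1,1]) (.R ⟨0,false,
  false,true,[1,0,-1],[0,1],[],(⟨0,[(26,0)]⟩,⟨0,[(27,0)]⟩),(⟨0,[(30,0)]⟩,⟨0,[(29,0)]⟩),⟨0,[(11,0)]⟩,
  .k,.k,.k,.k,.k,.k,⟨true,1,⟨1,[(34,1),(0,0),(0,0)]⟩,⟨0,[(3,0),(6,0),(8,0),(14,0)]⟩⟩,⟨false,1,⟨0,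
  [(10,0),(24,0)]⟩,⟨0,[(20,0)]⟩⟩,⟨true,0,⟨0,[(25,0)]⟩,⟨0,[(10,0),(8,0)]⟩⟩,⟨false,0,⟨0,[(12,0)]⟩,⟨15,
  [(2,3),(3,7),(8,0),(0,0),(14,3),(4,1)]⟩⟩,⟨false,0,⟨0,[]⟩,⟨0,[]⟩⟩,⟨false,0,⟨0,[]⟩,⟨0,[]⟩⟩,[.o
  ⟨false,0,⟨0,[(33,0)]⟩,⟨1,[(28,0),(5,1),(1,0)]⟩⟩,.a ⟨true,0,⟨0,[(0,0)]⟩,⟨0,[(34,0)]⟩⟩ ⟨false,1,⟨1,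
  [(35,0),(0,0)]⟩,⟨0,[(38,0)]⟩⟩ ⟨true,0,⟨0,[(1,0)]⟩,⟨0,[(20,0),(13,0)]⟩⟩,.e ⟨false,1,⟨3,[(15,0),(0,
  0),(19,1)]⟩,⟨0,[]⟩⟩ ⟨false,0,⟨0,[(1,0)]⟩,⟨5,[(6,3),(7,1),(9,1),(9,1),(0,0),(0,0)]⟩⟩,.o ⟨false,0,
  ⟨0,[(20,0)]⟩,⟨2,[(1,0),(0,0),(11,0),(13,0),(6,0)]⟩⟩]⟩) (.Q [0,1,-1,0,0,0,0,0,-1,0,0,1] (.p true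
  [0,0,0,1] [] (⟨0,[(18,0)]⟩,⟨0,[(17,0)]⟩) .k 0 (⟨0,[]⟩,⟨0,[]⟩) .k .k) (.K ⟨0,[0,0,0,1],0,0,(⟨0,
  [(19,0)]⟩,⟨0,[(18,0)]⟩),.k,(.r (-1) ⟨1,[(17,0),(17,1),(0,0)]⟩ ⟨3,[(0,1),(0,1),(1,1),(0,3),(11,0),
  (1,1),(18,0)]⟩),(.x 0 ⟨0,[(31,0)]⟩ ⟨3,[(5,1),(10,0),(0,0),(18,1)]⟩),.k,.k,[⟨0,[(19,0)]⟩,⟨0,[(18,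
  0)]⟩,⟨0,[(0,0)]⟩,⟨1,[(1,0),(2,0),(12,0),(0,1),(1,0),(3,0),(8,0),(1,0)]⟩]⟩) (.I [0,0,-1,-1,0,0,0,0,
  1] (.K ⟨0,[0,0,0,1],0,(-1),(⟨0,[(20,0)]⟩,⟨0,[(19,0)]⟩),.k,(.r 0 ⟨0,[(0,0)]⟩ ⟨11,[(4,3),(6,7),(5,
  6),(0,0)]⟩),(.x 0 ⟨0,[(32,0)]⟩ ⟨3,[(6,1),(10,0),(0,0),(18,1)]⟩),.k,.k,[⟨0,[(20,0)]⟩,⟨0,[(19,0)]⟩,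
  ⟨1,[(17,0),(2,1),(16,0),(2,1)]⟩,⟨0,[(0,0),(1,0),(2,0),(6,0),(6,0),(1,0)]⟩]⟩) (.Q [0,1,1,0,-1,0,0,
  0,1,0,0,-1] (.p false [0,0,0,1] [] (⟨0,[(20,0)]⟩,⟨0,[(19,0)]⟩) .k 0 (⟨0,[]⟩,⟨0,[]⟩) .k .k) (.K ⟨0,
  [0,0,0,1],0,(-1),(⟨0,[(21,0)]⟩,⟨0,[(20,0)]⟩),.k,(.x 0 ⟨1,[(7,0),(18,0),(0,0)]⟩ ⟨0,[(33,0),(4,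
  0)]⟩),(.x 0 ⟨0,[(33,0)]⟩ ⟨3,[(7,1),(10,0),(0,0),(18,1)]⟩),.k,.k,[⟨0,[(21,0)]⟩,⟨0,[(20,0)]⟩,⟨1,
  [(18,0),(2,1),(16,0),(2,1)]⟩,⟨0,[(0,0)]⟩]⟩) (.Q [0,0,0,0,0,1,0,0,0,-1,0,1] (.p true [0,0,0,1] [1]
  (⟨0,[(21,0)]⟩,⟨0,[(20,0)]⟩) .k 1 (⟨0,[]⟩,⟨0,[]⟩) .k .k) (.R ⟨0,false,false,true,[1,0,0,-1],[0,1],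
  [1,1,2,1],(⟨0,[(21,0)]⟩,⟨0,[(22,0)]⟩),(⟨0,[(34,0)]⟩,⟨0,[(33,0)]⟩),⟨0,[(0,0)]⟩,.k,.k,(.x (-1) ⟨3,
  [(8,1),(10,0),(0,0),(18,1)]⟩ ⟨0,[(34,0)]⟩),(.x (-1) ⟨3,[(8,1),(10,0),(0,0),(18,1)]⟩ ⟨0,[(34,0)]⟩),
  .k,.k,⟨false,0,⟨0,[]⟩,⟨3,[(19,0),(0,0),(18,1)]⟩⟩,⟨true,0,⟨0,[(21,0)]⟩,⟨1,[(0,1),(7,0)]⟩⟩,⟨true,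
  (-1),⟨0,[(3,0),(3,0),(6,0),(7,0),(0,0),(12,0),(1,0)]⟩,⟨0,[(1,0),(2,0),(16,0),(14,0)]⟩⟩,⟨false,0,
  ⟨2,[(3,0),(1,0),(1,0),(12,0),(0,1),(4,0)]⟩,⟨0,[(1,0),(2,0)]⟩⟩,⟨false,0,⟨0,[]⟩,⟨0,[]⟩⟩,⟨false,0,⟨0,
  []⟩,⟨0,[]⟩⟩,[.o ⟨false,0,⟨0,[(37,0)]⟩,⟨4,[(4,0),(1,0),(3,1),(7,1),(13,0),(2,0),(4,0)]⟩⟩,.o ⟨false,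
  1,⟨7,[(5,1),(7,1),(3,1),(1,1),(0,1),(11,0),(6,1),(0,0)]⟩,⟨0,[(4,0)]⟩⟩,.o ⟨false,1,⟨1,[(22,1),(9,
  0),(6,0)]⟩,⟨10,[(2,0),(0,0),(0,2),(2,0),(4,1),(8,9),(1,0),(3,2),(4,0)]⟩⟩,.a ⟨true,0,⟨0,[(22,0)]⟩,
  ⟨0,[(21,0)]⟩⟩ ⟨false,0,⟨2,[(6,0),(0,0),(5,0)]⟩,⟨1,[(38,1),(0,0),(0,0)]⟩⟩ ⟨true,0,⟨0,[(21,0),(15,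
  0)]⟩,⟨0,[(4,0),(17,0)]⟩⟩]⟩) (.R ⟨1,false,false,false,[1,0,0,-1],[1,-1],[0,0,0,-1,0,0,0,0,-1],(⟨0,
  [(21,0)]⟩,⟨0,[(22,0)]⟩),(⟨0,[(33,0)]⟩,⟨0,[(34,0)]⟩),⟨0,[(0,0)]⟩,.k,.k,(.x (-1) ⟨3,[(8,1),(10,0),
  (0,0),(18,1)]⟩ ⟨0,[(34,0)]⟩),(.r 0 ⟨0,[(0,1),(0,0),(2,1),(1,0),(0,1),(14,0),(11,1),(1,0)]⟩ ⟨1,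
  [(20,0),(17,1),(0,0)]⟩),.k,.k,⟨true,0,⟨0,[(2,0),(35,0)]⟩,⟨0,[(3,0),(18,0),(13,0)]⟩⟩,⟨false,0,⟨10,
  [(2,0),(0,0),(0,2),(2,0),(4,1),(8,9),(1,0),(3,2),(4,0)]⟩,⟨0,[(22,0),(16,0)]⟩⟩,⟨true,0,⟨0,[(38,
  0)]⟩,⟨0,[(37,0)]⟩⟩,⟨false,0,⟨0,[(3,0),(34,0)]⟩,⟨0,[(1,0),(35,0)]⟩⟩,⟨false,1,⟨3,[(19,0),(0,0),(19,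
  1)]⟩,⟨0,[]⟩⟩,⟨false,0,⟨0,[(3,0)]⟩,⟨0,[(1,0),(40,0)]⟩⟩,[.o ⟨false,0,⟨0,[(4,0)]⟩,⟨7,[(5,1),(7,1),(3,
  1),(1,1),(0,1),(11,0),(6,1),(0,0)]⟩⟩,.o ⟨false,1,⟨4,[(4,0),(1,0),(3,1),(7,1),(13,0),(2,0),(4,0)]⟩,
  ⟨0,[(37,0)]⟩⟩,.o ⟨false,1,⟨1,[(22,1),(9,0),(6,0)]⟩,⟨10,[(2,0),(0,0),(0,2),(2,0),(4,1),(8,9),(1,0),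
  (3,2),(4,0)]⟩⟩,.a ⟨true,0,⟨0,[(22,0)]⟩,⟨0,[(21,0)]⟩⟩ ⟨false,1,⟨0,[(1,0),(2,0),(16,0)]⟩,⟨2,[(3,0),
  (1,0),(1,0),(12,0),(1,0),(0,0)]⟩⟩ ⟨true,0,⟨0,[(4,0),(16,0)]⟩,⟨0,[(22,0),(14,0)]⟩⟩]⟩)))))) (.Q [0,
  0,0,0,0,0,-1,0,0,0,1] (.p true [0,0,1] [] (⟨0,[(26,0)]⟩,⟨0,[(25,0)]⟩) .k 0 (⟨0,[]⟩,⟨0,[]⟩) .k .k)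
  (.R ⟨0,false,false,false,[1,0,-1],[0,1],[0,1],(⟨0,[(26,0)]⟩,⟨0,[(27,0)]⟩),(⟨0,[(30,0)]⟩,⟨0,[(29,
  0)]⟩),⟨0,[(11,0)]⟩,.k,.k,.k,.k,.k,.k,⟨true,0,⟨0,[(32,0),(1,0)]⟩,⟨6,[(2,3),(0,4),(3,2),(23,1),(4,
  0)]⟩⟩,⟨false,1,⟨0,[(10,0),(24,0)]⟩,⟨0,[(20,0)]⟩⟩,⟨false,0,⟨0,[(25,0)]⟩,⟨5,[(2,3),(0,0),(5,0),(26,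
  2)]⟩⟩,⟨true,0,⟨0,[(12,0)]⟩,⟨0,[(19,0),(14,0)]⟩⟩,⟨false,0,⟨0,[]⟩,⟨0,[]⟩⟩,⟨false,0,⟨0,[]⟩,⟨0,[]⟩⟩,
  [.e ⟨false,0,⟨0,[(32,0)]⟩,⟨3,[(15,0),(0,0),(19,1)]⟩⟩ ⟨false,1,⟨0,[(5,0),(29,0)]⟩,⟨0,[(1,0)]⟩⟩,.o
  ⟨false,1,⟨0,[(33,0),(2,0)]⟩,⟨0,[(1,0),(21,0),(8,0)]⟩⟩,.a ⟨true,0,⟨0,[(0,0)]⟩,⟨0,[(10,0)]⟩⟩ ⟨true,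
  0,⟨0,[(38,0)]⟩,⟨0,[]⟩⟩ ⟨false,1,⟨1,[(5,1),(29,0),(0,0)]⟩,⟨0,[(1,0)]⟩⟩,.o ⟨false,0,⟨0,[(20,0)]⟩,⟨0,
  [(23,0),(11,0)]⟩⟩]⟩) (.Q [0,1,-1,0,0,0,0,0,-1,0,0,1] (.p true [0,0,0,1] [] (⟨0,[(18,0)]⟩,⟨0,[(17,
  0)]⟩) .k 0 (⟨0,[]⟩,⟨0,[]⟩) .k .k) (.K ⟨0,[0,0,0,1],0,0,(⟨0,[(19,0)]⟩,⟨0,[(18,0)]⟩),.k,(.r (-1) ⟨1,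
  [(17,0),(17,1),(0,0)]⟩ ⟨13,[(0,7),(0,7),(1,3),(0,11),(2,3),(8,2),(1,7),(13,1),(4,0)]⟩),(.x 0 ⟨0,
  [(31,0)]⟩ ⟨3,[(5,1),(10,0),(0,0),(18,1)]⟩),.k,.k,[⟨0,[(19,0)]⟩,⟨0,[(18,0)]⟩,⟨0,[(0,0)]⟩,⟨3,[(1,2),
  (0,0),(1,1),(12,1),(0,3),(1,2),(1,0),(12,2)]⟩]⟩) (.I [1,0,-1,-1,0,0,0,1] (.N [0,-1,1] 0 ⟨0,[(0,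
  0)]⟩ ⟨0,[(4,0),(0,0)]⟩ .k) (.I [1,1,0,1,0,0,0,0,-1] (.Q [0,0,0,0,0,1,0,0,0,0,-1] (.ed true [1,-1,
  1] .k) (.Q [0,0,0,0,0,0,-1,0,0,1,1] (.p true [1,-1,1] [] (⟨0,[(31,0),(1,0)]⟩,⟨0,[(0,0)]⟩) .k 0
  (⟨0,[]⟩,⟨0,[]⟩) .k .k) (.K ⟨0,[1,-1,1],0,0,(⟨0,[(32,0),(1,0)]⟩,⟨0,[(1,0)]⟩),.k,(.r (-1) ⟨3,[(0,0),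
  (5,2),(12,1),(19,4),(0,3)]⟩ ⟨2,[(3,3),(10,0)]⟩),.k,.k,.k,[⟨0,[(0,0)]⟩,⟨0,[(5,0)]⟩,⟨1,[(0,0),(14,
  0),(2,1)]⟩,⟨0,[(5,0),(0,0),(19,0)]⟩]⟩) (.Q [0,0,0,0,0,1,0,0,0,-1,0,1] (.p true [0,0,0,1] [1] (⟨0,
  [(23,0)]⟩,⟨0,[(22,0)]⟩) .k 1 (⟨0,[]⟩,⟨0,[]⟩) .k .k) (.R ⟨0,false,false,false,[1,0,0,-1],[1,-1],[0,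
  0,0,-1],(⟨0,[(23,0)]⟩,⟨0,[(24,0)]⟩),(⟨0,[(35,0)]⟩,⟨0,[(36,0)]⟩),⟨0,[(0,0)]⟩,.k,.k,(.x (-1) ⟨3,
  [(10,1),(10,0),(0,0),(18,1)]⟩ ⟨0,[(36,0)]⟩),(.x (-1) ⟨0,[(36,0),(4,0)]⟩ ⟨1,[(10,0),(18,0),(0,
  0)]⟩),.k,.k,⟨true,0,⟨1,[(29,0),(0,0)]⟩,⟨0,[]⟩⟩,⟨false,0,⟨4,[(1,0),(12,1),(8,4),(5,0)]⟩,⟨0,[(24,0),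
  (16,0)]⟩⟩,⟨true,0,⟨0,[(5,0),(18,0),(13,0),(1,0)]⟩,⟨0,[(3,0)]⟩⟩,⟨false,0,⟨0,[(5,0),(34,0)]⟩,⟨1,[(3,
  1),(20,1),(16,0),(0,0)]⟩⟩,⟨false,0,⟨0,[]⟩,⟨0,[]⟩⟩,⟨false,0,⟨0,[]⟩,⟨0,[]⟩⟩,[.o ⟨false,0,⟨1,[(1,0),
  (5,0),(32,0)]⟩,⟨11,[(4,3),(10,3),(5,2),(0,2),(18,5)]⟩⟩,.o ⟨false,1,⟨27,[(1,3),(6,5),(3,15),(7,13),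
  (13,2),(2,5),(4,2)]⟩,⟨0,[(39,0)]⟩⟩,.o ⟨false,1,⟨1,[(24,1),(9,0),(6,0)]⟩,⟨4,[(1,0),(12,1),(8,4),(5,
  0)]⟩⟩,.a ⟨true,0,⟨0,[(24,0)]⟩,⟨0,[(23,0)]⟩⟩ ⟨false,1,⟨1,[(40,1),(0,0),(0,0)]⟩,⟨2,[(4,0),(10,0)]⟩⟩
  ⟨true,0,⟨1,[(1,0),(5,0),(15,1),(16,0)]⟩,⟨0,[(24,0),(14,0)]⟩⟩]⟩) (.Q [0,-1,-1,-2,1,0,0,0,-1,-1,0,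
  1] (.p true [0,0,0,1] [1] (⟨0,[(24,0)]⟩,⟨0,[(23,0)]⟩) .k 1 (⟨0,[]⟩,⟨0,[]⟩) .k .k) (.Q [0,0,-1,0,1,
  0,-1,-1,-1,0,1,1] (.p true [1,-1,1] [1,0,0,-1] (⟨0,[(34,0),(1,0)]⟩,⟨0,[(3,0)]⟩) .k 2 (⟨0,[(24,
  0)]⟩,⟨0,[(25,0)]⟩) .k (.r 0 ⟨0,[(6,0),(18,0),(6,0),(6,0)]⟩ ⟨11,[(5,3),(3,3),(12,6),(0,0)]⟩)) (.R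
  ⟨1,false,false,false,[1,0,0,-1],[-1,1,1],[1,1,0,0,0,0,0,0,-1],(⟨0,[(25,0)]⟩,⟨0,[(26,0)]⟩),(⟨0,
  [(19,0)]⟩,⟨0,[(34,0),(2,0)]⟩),⟨0,[(2,0)]⟩,.k,.k,(.x (-1) ⟨3,[(12,1),(10,0),(0,0),(18,1)]⟩ ⟨0,[(38,
  0)]⟩),(.r (-1) ⟨1,[(1,0),(3,0),(4,0),(14,0)]⟩ ⟨1,[(11,0),(12,0),(8,0)]⟩),(.r (-2) ⟨7,[(1,5),(8,3),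
  (12,1),(0,0),(0,5),(17,2),(2,5)]⟩ ⟨0,[(7,0),(3,0),(14,0),(13,0)]⟩),.k,⟨false,1,⟨1,[(1,0),(3,0),(4,
  0),(14,0),(14,1)]⟩,⟨1,[(7,1),(3,0),(14,1),(6,0),(9,0)]⟩⟩,⟨true,0,⟨0,[(18,0),(6,0)]⟩,⟨15,[(3,3),(5,
  8),(1,5),(2,2),(1,1),(9,15),(0,2),(8,2)]⟩⟩,⟨false,0,⟨0,[]⟩,⟨3,[(23,0),(0,0),(19,1)]⟩⟩,⟨false,0,⟨0,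
  [(7,0),(12,0),(4,0),(0,0)]⟩,⟨0,[(0,0),(2,0),(5,0)]⟩⟩,⟨true,0,⟨0,[(41,0)]⟩,⟨0,[(42,0)]⟩⟩,⟨false,0,
  ⟨0,[(7,0),(3,0),(6,0),(6,0),(0,0),(16,0)]⟩,⟨0,[(1,0),(25,0)]⟩⟩,[.o ⟨false,0,⟨0,[(20,0)]⟩,⟨4,[(9,
  1),(0,1),(3,0),(1,0),(19,1),(9,0)]⟩⟩,.o ⟨false,1,⟨3,[(20,3),(2,0),(0,0),(19,1)]⟩,⟨1,[(3,0),(5,0),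
  (17,1),(14,0)]⟩⟩,.o ⟨false,1,⟨1,[(26,1),(9,0),(6,0)]⟩,⟨4,[(3,0),(12,1),(8,4),(5,0)]⟩⟩,.a ⟨true,0,
  ⟨0,[(26,0)]⟩,⟨0,[(25,0)]⟩⟩ ⟨false,1,⟨1,[(23,0),(19,0)]⟩,⟨0,[(7,0),(18,0)]⟩⟩ ⟨true,0,⟨0,[(20,0),(4,
  0)]⟩,⟨1,[(3,0),(5,0),(16,1),(0,1),(14,0)]⟩⟩]⟩) (.K ⟨0,[0,0,0,1],0,(-1),(⟨0,[(26,0)]⟩,⟨0,[(25,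
  0)]⟩),.k,(.r (-1) ⟨1,[(24,0),(17,1),(0,0)]⟩ ⟨1,[(1,0),(3,0),(0,0),(4,0),(13,0)]⟩),(.x 0 ⟨0,[(38,
  0)]⟩ ⟨3,[(12,1),(10,0),(0,0),(18,1)]⟩),.k,.k,[⟨0,[(26,0)]⟩,⟨0,[(25,0)]⟩,⟨1,[(23,0),(2,1),(16,0),
  (2,1)]⟩,⟨0,[(0,0),(29,0)]⟩]⟩)) (.K ⟨0,[0,0,0,1],0,(-1),(⟨0,[(25,0)]⟩,⟨0,[(24,0)]⟩),.k,(.x 0 ⟨1,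
  [(11,0),(18,0),(0,0)]⟩ ⟨0,[(37,0),(4,0)]⟩),(.x 0 ⟨0,[(37,0)]⟩ ⟨3,[(11,1),(10,0),(0,0),(18,1)]⟩),
  .k,.k,[⟨0,[(25,0)]⟩,⟨0,[(24,0)]⟩,⟨1,[(22,0),(2,1),(16,0),(2,1)]⟩,⟨1,[(0,1),(1,0),(5,0),(32,
  2)]⟩]⟩)))) (.Q [0,1,1,0,-1,0,0,0,1,0,0,-1] (.p false [0,0,0,1] [] (⟨0,[(22,0)]⟩,⟨0,[(21,0)]⟩) .k
  0 (⟨0,[]⟩,⟨0,[]⟩) .k .k) (.K ⟨0,[0,0,0,1],0,(-1),(⟨0,[(23,0)]⟩,⟨0,[(22,0)]⟩),.k,(.x 0 ⟨1,[(9,0),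
  (18,0),(0,0)]⟩ ⟨0,[(35,0),(4,0)]⟩),(.x 0 ⟨0,[(35,0)]⟩ ⟨3,[(9,1),(10,0),(0,0),(18,1)]⟩),.k,.k,[⟨0,
  [(23,0)]⟩,⟨0,[(22,0)]⟩,⟨1,[(20,0),(2,1),(16,0),(2,1)]⟩,⟨0,[(0,0)]⟩]⟩) (.Q [0,1,1,-1,-1,0,0,0,1,0,
  0,-1] (.p false [0,0,0,1] [] (⟨0,[(23,0)]⟩,⟨0,[(22,0)]⟩) .k 0 (⟨0,[]⟩,⟨0,[]⟩) .k .k) (.R ⟨2,true,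
  false,true,[0,1],[0,0,0,1],[0,1,1],(⟨0,[]⟩,⟨0,[]⟩),(⟨0,[(24,0)]⟩,⟨0,[(23,0)]⟩),⟨0,[]⟩,.k,.k,.k,
  (.r 0 ⟨2,[(1,0),(1,1),(0,0),(1,0),(0,0),(1,0),(13,0),(13,0)]⟩ ⟨1,[(22,0),(17,1),(0,0)]⟩),.k,.k,
  ⟨true,0,⟨0,[(1,0),(0,1),(1,0),(1,2),(0,2),(1,0),(13,0),(8,1),(3,1),(1,0)]⟩,⟨0,[(5,0),(18,0),(13,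
  0)]⟩⟩,⟨false,0,⟨2,[(0,0),(2,0),(1,1),(15,0)]⟩,⟨0,[(24,0),(16,0)]⟩⟩,⟨false,0,⟨0,[(40,0)]⟩,⟨5,[(4,
  1),(10,1),(25,2),(0,2)]⟩⟩,⟨true,(-1),⟨0,[(0,0)]⟩,⟨0,[(1,0),(37,0)]⟩⟩,⟨true,0,⟨0,[(44,0)]⟩,⟨0,[]⟩⟩,
  ⟨false,0,⟨17,[(0,5),(3,1),(0,5),(9,1),(6,2),(0,5),(10,2)]⟩,⟨0,[(1,0)]⟩⟩,[]⟩) (.Q [0,0,0,0,0,-1,0,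
  0,0,1,0,-1] (.p false [0,0,0,1] [1] (⟨0,[(24,0)]⟩,⟨0,[(23,0)]⟩) .k 1 (⟨0,[]⟩,⟨0,[]⟩) .k .k) (.R
  ⟨1,false,false,false,[1,0,0,-1],[1,-1],[1,0,0,0,0,0,0,0,-1],(⟨0,[(24,0)]⟩,⟨0,[(25,0)]⟩),(⟨0,[(36,
  0)]⟩,⟨0,[(37,0)]⟩),⟨0,[(0,0)]⟩,.k,.k,(.x (-1) ⟨3,[(11,1),(10,0),(0,0),(18,1)]⟩ ⟨0,[(37,0)]⟩),(.r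
  0 ⟨3,[(1,0),(2,2),(0,0),(1,0),(0,0),(1,0),(13,0),(13,1)]⟩ ⟨1,[(23,0),(17,1),(0,0)]⟩),.k,.k,⟨true,
  0,⟨3,[(1,0),(2,2),(0,0),(1,0),(0,0),(1,0),(13,0),(13,1)]⟩,⟨0,[(6,0),(18,0),(13,0),(1,0)]⟩⟩,⟨false,
  0,⟨1,[(7,0),(7,0),(8,1)]⟩,⟨0,[(25,0),(16,0)]⟩⟩,⟨true,0,⟨0,[]⟩,⟨0,[(45,0)]⟩⟩,⟨false,0,⟨0,[(6,0),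
  (34,0)]⟩,⟨0,[(1,0),(43,0)]⟩⟩,⟨false,1,⟨5,[(5,1),(10,1),(25,2),(0,2)]⟩,⟨0,[(41,0)]⟩⟩,⟨false,0,⟨0,
  [(6,0)]⟩,⟨1,[(22,0),(2,1),(16,0)]⟩⟩,[.o ⟨false,0,⟨0,[(7,0),(0,0)]⟩,⟨11,[(5,3),(10,3),(5,2),(0,2),
  (18,5)]⟩⟩,.o ⟨false,1,⟨7,[(8,3),(0,1),(11,1),(13,2),(2,1),(4,2)]⟩,⟨0,[(40,0)]⟩⟩,.o ⟨false,1,⟨1,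
  [(25,1),(9,0),(6,0)]⟩,⟨1,[(7,0),(7,0),(8,1)]⟩⟩,.a ⟨true,0,⟨0,[(25,0)]⟩,⟨0,[(24,0)]⟩⟩ ⟨false,1,⟨0,
  [(1,0),(5,0),(0,0),(15,0)]⟩,⟨2,[(6,0),(3,0),(6,0),(5,0),(1,0),(0,0),(14,1)]⟩⟩ ⟨true,0,⟨0,[(7,0),
  (0,0),(15,0)]⟩,⟨0,[(25,0),(14,0)]⟩⟩]⟩) (.R ⟨0,false,false,true,[1,0,0,-1],[0,1],[1,1,2,1],(⟨0,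
  [(24,0)]⟩,⟨0,[(25,0)]⟩),(⟨0,[(37,0)]⟩,⟨0,[(36,0)]⟩),⟨0,[(0,0)]⟩,.k,.k,(.x (-1) ⟨3,[(11,1),(10,0),
  (0,0),(18,1)]⟩ ⟨0,[(37,0)]⟩),(.x (-1) ⟨3,[(11,1),(10,0),(0,0),(18,1)]⟩ ⟨0,[(37,0)]⟩),.k,.k,⟨false,
  0,⟨0,[]⟩,⟨3,[(22,0),(0,0),(18,1)]⟩⟩,⟨true,0,⟨0,[(24,0)]⟩,⟨1,[(0,1),(10,0)]⟩⟩,⟨true,(-1),⟨0,[(6,0),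
  (3,0),(6,0),(7,0),(0,0),(12,0),(1,0)]⟩,⟨0,[(2,0),(4,0),(0,0),(15,0),(14,0)]⟩⟩,⟨false,0,⟨2,[(6,0),
  (3,0),(6,0),(2,0),(2,0),(0,1)]⟩,⟨0,[(2,0),(4,0),(0,0)]⟩⟩,⟨false,0,⟨0,[]⟩,⟨0,[]⟩⟩,⟨false,0,⟨0,[]⟩,
  ⟨0,[]⟩⟩,[.o ⟨false,0,⟨0,[(40,0)]⟩,⟨7,[(8,3),(0,1),(11,1),(13,2),(2,1),(4,2)]⟩⟩,.o ⟨false,1,⟨11,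
  [(5,3),(10,3),(5,2),(0,2),(18,5)]⟩,⟨0,[(7,0),(0,0)]⟩⟩,.o ⟨false,1,⟨1,[(25,1),(9,0),(6,0)]⟩,⟨1,[(7,
  0),(7,0),(8,1)]⟩⟩,.a ⟨true,0,⟨0,[(25,0)]⟩,⟨0,[(24,0)]⟩⟩ ⟨false,0,⟨2,[(5,0),(10,0)]⟩,⟨1,[(41,1),(0,
  0),(0,0)]⟩⟩ ⟨true,0,⟨0,[(24,0),(15,0)]⟩,⟨0,[(7,0),(0,0),(16,0)]⟩⟩]⟩))))) (.K ⟨0,[0,0,0,1],0,(-1),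
  (⟨0,[(21,0)]⟩,⟨0,[(20,0)]⟩),.k,(.r 0 ⟨0,[(0,0),(34,0)]⟩ ⟨11,[(1,3),(10,3),(5,8),(0,2)]⟩),(.x 0 ⟨0,
  [(33,0)]⟩ ⟨3,[(7,1),(10,0),(0,0),(18,1)]⟩),.k,.k,[⟨0,[(21,0)]⟩,⟨0,[(20,0)]⟩,⟨1,[(18,0),(2,1),(16,
  0),(2,1)]⟩,⟨0,[(0,0),(2,0),(2,0),(13,0),(1,0),(12,0),(1,0)]⟩]⟩)))))))

theorem ok12 : chk (cU (-1) true 3) t12 r14 = true := by decide +kernel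

noncomputable def t24 : Tre :=
  (.Q [0,0,0,0,0,0,1,1,0,0,-1] (.p false [0,0,1] [] (⟨0,[(17,0)]⟩,⟨0,[(16,0)]⟩) .k 0 (⟨0,[]⟩,⟨0,
  []⟩) .k .k) (.Q [0,-1,0,1,0,0,1,1,0,2,-1] (.p false [-1,1,1] [1] (⟨0,[(2,0)]⟩,⟨0,[(17,0),(2,0)]⟩)
  .k 1 (⟨0,[]⟩,⟨0,[]⟩) .k .k) (.I [1,-1,0,1,1,0,0,-1] (.R ⟨0,false,false,false,[1,0,-1],[1,-1],[0,0,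
  1],(⟨0,[(19,0)]⟩,⟨0,[(20,0)]⟩),(⟨0,[(22,0)]⟩,⟨0,[(23,0)]⟩),⟨0,[(4,0)]⟩,.k,.k,.k,.k,.k,.k,⟨false,0,
  ⟨1,[(1,0),(1,1),(2,0),(9,1)]⟩,⟨0,[(27,0),(0,0)]⟩⟩,⟨true,0,⟨0,[(16,0)]⟩,⟨1,[(1,0),(1,1),(11,0),(11,
  0)]⟩⟩,⟨false,0,⟨1,[(1,0),(0,0),(0,0),(9,0),(10,0)]⟩,⟨0,[(0,0),(24,0),(1,0)]⟩⟩,⟨true,0,⟨0,[(2,0),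
  (24,0)]⟩,⟨0,[(6,0)]⟩⟩,⟨false,0,⟨0,[]⟩,⟨0,[]⟩⟩,⟨false,0,⟨0,[]⟩,⟨0,[]⟩⟩,[.a ⟨true,0,⟨0,[(27,0)]⟩,⟨1,
  [(1,0),(4,0)]⟩⟩ ⟨true,0,⟨1,[(16,0),(0,0)]⟩,⟨0,[]⟩⟩ ⟨false,1,⟨0,[(16,0),(10,0),(0,0)]⟩,⟨1,[(1,0),
  (1,1),(2,0)]⟩⟩,.o ⟨false,1,⟨1,[(21,0),(5,1),(1,0)]⟩,⟨0,[(26,0)]⟩⟩,.o ⟨false,0,⟨0,[(3,0)]⟩,⟨3,[(8,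
  0),(0,0),(6,3),(11,1)]⟩⟩,.o ⟨false,0,⟨0,[(13,0)]⟩,⟨0,[(16,0),(11,0)]⟩⟩]⟩) (.R ⟨0,false,false,
  false,[1,0,-1],[1,-1],[1,0,0,-1],(⟨0,[(19,0)]⟩,⟨0,[(20,0)]⟩),(⟨0,[(22,0)]⟩,⟨0,[(23,0)]⟩),⟨0,[(4,
  0)]⟩,.k,.k,.k,.k,.k,.k,⟨false,0,⟨0,[]⟩,⟨3,[(8,0),(0,0),(18,1)]⟩⟩,⟨true,0,⟨0,[(16,0)]⟩,⟨2,[(0,0),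
  (0,0),(1,1),(11,1),(13,0)]⟩⟩,⟨false,0,⟨0,[(0,0),(28,0)]⟩,⟨1,[(6,1),(9,1),(11,0),(0,0)]⟩⟩,⟨true,0,
  ⟨0,[(2,0),(24,0)]⟩,⟨0,[(6,0)]⟩⟩,⟨false,0,⟨0,[]⟩,⟨0,[]⟩⟩,⟨false,0,⟨0,[]⟩,⟨0,[]⟩⟩,[.a ⟨true,0,⟨0,
  [(27,0)]⟩,⟨1,[(1,0),(4,0)]⟩⟩ ⟨true,0,⟨0,[(27,0)]⟩,⟨1,[(1,0),(1,1),(2,0),(9,1)]⟩⟩ ⟨false,1,⟨0,[(16,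
  0),(10,0),(0,0)]⟩,⟨1,[(1,0),(1,1),(2,0)]⟩⟩,.o ⟨false,1,⟨1,[(21,0),(5,1),(1,0)]⟩,⟨0,[(26,0)]⟩⟩,.o
  ⟨false,0,⟨0,[(3,0)]⟩,⟨3,[(8,0),(0,0),(6,3),(11,1)]⟩⟩,.o ⟨false,0,⟨0,[(13,0)]⟩,⟨0,[(16,0),(11,
  0)]⟩⟩]⟩)) (.Q [0,0,0,0,0,0,1,0,0,2,-1] (.p false [-1,1,1] [1] (⟨0,[(3,0)]⟩,⟨0,[(18,0),(2,0)]⟩) .k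
  1 (⟨0,[]⟩,⟨0,[]⟩) .k .k) (.Q [0,0,0,-1,0,0,0,0,0,-1] (.pp true [-1,1]) (.R ⟨0,false,false,true,
  [-1,1,1],[0,1],[0,0,1],(⟨0,[(5,0)]⟩,⟨0,[(20,0),(2,0)]⟩),(⟨0,[(24,0)]⟩,⟨0,[(23,0)]⟩),⟨0,[(20,0)]⟩,
  .k,.k,.k,.k,.k,.k,⟨false,1,⟨1,[(28,1),(0,0),(0,0)]⟩,⟨0,[(27,0)]⟩⟩,⟨true,0,⟨0,[(4,0)]⟩,⟨3,[(1,1),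
  (15,2),(0,0)]⟩⟩,⟨false,1,⟨0,[(1,0),(0,0),(27,0)]⟩,⟨0,[(4,0),(1,0)]⟩⟩,⟨true,0,⟨0,[(13,0)]⟩,⟨2,[(1,
  0),(6,0),(10,0)]⟩⟩,⟨false,0,⟨0,[]⟩,⟨0,[]⟩⟩,⟨false,0,⟨0,[]⟩,⟨0,[]⟩⟩,[.o ⟨false,0,⟨0,[(27,0)]⟩,⟨1,
  [(22,0),(5,1),(1,0)]⟩⟩,.o ⟨false,1,⟨3,[(9,0),(0,0),(16,3),(2,1)]⟩,⟨0,[(0,0)]⟩⟩,.o ⟨false,1,⟨1,[(1,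
  1),(20,0),(6,0)]⟩,⟨0,[(4,1),(12,0)]⟩⟩,.a ⟨true,0,⟨0,[(1,0)]⟩,⟨0,[(4,0)]⟩⟩ ⟨false,1,⟨3,[(9,0),(0,
  0),(19,1)]⟩,⟨0,[]⟩⟩ ⟨true,0,⟨0,[(4,0),(22,0)]⟩,⟨0,[(0,0),(0,0)]⟩⟩]⟩) (.R ⟨0,false,false,false,[-1,
  1,1],[0,0,1],[0,1,1,1,0,0,0,1],(⟨0,[(5,0)]⟩,⟨0,[(20,0),(2,0)]⟩),(⟨0,[(21,0)]⟩,⟨0,[(20,0)]⟩),⟨0,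
  [(20,0)]⟩,.k,.k,.k,.k,.k,.k,⟨false,0,⟨0,[(27,0)]⟩,⟨1,[(28,1),(0,0),(0,0)]⟩⟩,⟨true,0,⟨0,[(4,0),(12,
  0)]⟩,⟨0,[(11,0),(0,0)]⟩⟩,⟨true,0,⟨0,[(32,0)]⟩,⟨0,[]⟩⟩,⟨false,1,⟨1,[(22,0),(5,1),(1,0)]⟩,⟨0,[(0,
  0)]⟩⟩,⟨false,0,⟨0,[]⟩,⟨0,[]⟩⟩,⟨false,0,⟨0,[]⟩,⟨0,[]⟩⟩,[.o ⟨false,0,⟨0,[(3,0)]⟩,⟨3,[(2,1),(4,1),(1,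
  0),(0,0),(19,1)]⟩⟩,.o ⟨false,1,⟨7,[(8,3),(0,0),(0,0),(11,1),(7,3)]⟩,⟨0,[(13,0)]⟩⟩,.o ⟨false,1,⟨1,
  [(1,1),(20,0),(6,0)]⟩,⟨0,[(4,1),(12,0)]⟩⟩,.a ⟨true,0,⟨0,[(1,0)]⟩,⟨0,[(4,0)]⟩⟩ ⟨false,0,⟨0,[(4,0),
  (1,0)]⟩,⟨0,[(1,0),(0,0),(27,0)]⟩⟩ ⟨true,0,⟨0,[(3,0),(0,0)]⟩,⟨1,[(1,1),(0,0),(4,0)]⟩⟩]⟩)) (.Q [0,0,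
  0,-1,0,0,0,0,0,-1] (.pp true [-1,1]) (.Q [0,0,0,0,0,1,0,0,0,0,-1] (.ed true [1,-1,1] .k) (.K ⟨2,
  [1,-1,1],0,0,(⟨0,[(22,0),(1,0)]⟩,⟨0,[(0,0)]⟩),.k,(.x 0 ⟨0,[(2,0),(15,1),(3,0),(1,1)]⟩ ⟨0,[(5,0),
  (15,0),(3,1),(4,0)]⟩),.k,.k,.k,[⟨0,[(1,0)]⟩,⟨0,[(8,0),(3,0),(0,0)]⟩,⟨0,[(5,0),(6,1),(0,1)]⟩,⟨2,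
  [(2,0),(12,0),(2,4)]⟩]⟩) (.K ⟨2,[0,-1,1],0,0,(⟨0,[(0,0)]⟩,⟨0,[(21,0),(3,0)]⟩),.k,(.x 0 ⟨2,[(0,2),
  (1,0),(12,0),(2,4),(5,2)]⟩ ⟨0,[(5,0),(15,0),(3,1),(4,0)]⟩),.k,.k,.k,[⟨0,[(29,0)]⟩,⟨0,[(8,0)]⟩,⟨0,
  [(5,0),(6,0),(0,0)]⟩,⟨1,[(18,2),(0,0)]⟩]⟩)) (.I [1,-1,0,0,0,0,0,1] (.R ⟨0,false,false,false,[1,0,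
  -1],[1,-1],[1,0,0,-1],(⟨0,[(21,0)]⟩,⟨0,[(22,0)]⟩),(⟨0,[(24,0)]⟩,⟨0,[(25,0)]⟩),⟨0,[(6,0)]⟩,.k,.k,
  .k,.k,.k,.k,⟨false,0,⟨0,[]⟩,⟨3,[(10,0),(0,0),(18,1)]⟩⟩,⟨true,0,⟨0,[(18,0)]⟩,⟨0,[(0,0),(16,0)]⟩⟩,
  ⟨false,0,⟨0,[(0,0),(28,0)]⟩,⟨1,[(8,1),(9,1),(11,0),(0,0)]⟩⟩,⟨true,0,⟨0,[(4,0),(24,0)]⟩,⟨0,[(8,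
  0)]⟩⟩,⟨false,0,⟨0,[]⟩,⟨0,[]⟩⟩,⟨false,0,⟨0,[]⟩,⟨0,[]⟩⟩,[.a ⟨true,0,⟨0,[(29,0)]⟩,⟨0,[(1,0)]⟩⟩ ⟨true,
  0,⟨0,[(29,0)]⟩,⟨2,[(1,2),(0,0),(12,0),(2,1)]⟩⟩ ⟨false,1,⟨0,[(18,0),(10,0),(0,0)]⟩,⟨0,[(0,0),(7,
  0)]⟩⟩,.o ⟨false,1,⟨1,[(23,0),(5,1),(1,0)]⟩,⟨0,[(28,0)]⟩⟩,.o ⟨false,0,⟨0,[(5,0)]⟩,⟨3,[(10,0),(0,0),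
  (6,3),(11,1)]⟩⟩,.o ⟨false,0,⟨0,[(15,0)]⟩,⟨0,[(18,0),(11,0)]⟩⟩]⟩) (.R ⟨0,false,false,false,[1,0,
  -1],[1,-1],[0,1,0,-1,0,0,0,-1],(⟨0,[(21,0)]⟩,⟨0,[(22,0)]⟩),(⟨0,[(24,0)]⟩,⟨0,[(25,0)]⟩),⟨0,[(6,
  0)]⟩,.k,.k,.k,.k,.k,.k,⟨false,0,⟨0,[(0,0)]⟩,⟨1,[(20,1),(9,0),(0,0)]⟩⟩,⟨true,0,⟨0,[(18,0)]⟩,⟨0,[(5,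
  0),(6,0),(0,0)]⟩⟩,⟨false,0,⟨0,[(29,0)]⟩,⟨0,[(28,0),(2,0)]⟩⟩,⟨true,0,⟨0,[(4,0),(24,0)]⟩,⟨0,[(8,
  0)]⟩⟩,⟨false,0,⟨0,[]⟩,⟨0,[]⟩⟩,⟨false,0,⟨0,[]⟩,⟨0,[]⟩⟩,[.a ⟨true,0,⟨0,[(29,0)]⟩,⟨0,[(1,0)]⟩⟩ ⟨true,
  0,⟨0,[(0,0),(28,0)]⟩,⟨0,[(1,0),(0,0),(4,0),(18,0)]⟩⟩ ⟨false,1,⟨0,[(18,0),(10,0),(0,0)]⟩,⟨0,[(1,0),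
  (3,0)]⟩⟩,.o ⟨false,1,⟨1,[(23,0),(5,1),(1,0)]⟩,⟨0,[(28,0)]⟩⟩,.o ⟨false,0,⟨0,[(5,0)]⟩,⟨3,[(10,0),(0,
  0),(6,3),(11,1)]⟩⟩,.o ⟨false,0,⟨0,[(15,0)]⟩,⟨0,[(18,0),(11,0)]⟩⟩]⟩))))) (.Q [0,0,-1,0,1,0,2,0,0,1,
  -2] (.p false [0,0,1] [1,0,-1] (⟨0,[(18,0)]⟩,⟨0,[(17,0)]⟩) .k 2 (⟨0,[(17,0)]⟩,⟨0,[(18,0)]⟩) .k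
  (.r 0 ⟨0,[(16,1)]⟩ ⟨0,[(0,1),(13,1),(11,0)]⟩)) (.R ⟨0,false,false,false,[1,0,-1],[0,0,1],[0,0,1],
  (⟨0,[(18,0)]⟩,⟨0,[(19,0)]⟩),(⟨0,[(19,0)]⟩,⟨0,[(18,0)]⟩),⟨0,[(3,0)]⟩,.k,.k,.k,.k,.k,.k,⟨true,0,⟨0,
  [(1,0),(13,0)]⟩,⟨0,[(17,0)]⟩⟩,⟨false,1,⟨0,[(0,0)]⟩,⟨0,[(1,0),(0,0),(14,0)]⟩⟩,⟨false,0,⟨0,[(2,0),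
  (1,0),(18,0)]⟩,⟨3,[(0,1),(0,3),(18,0),(6,0)]⟩⟩,⟨true,0,⟨0,[(6,0)]⟩,⟨0,[(1,0),(9,0)]⟩⟩,⟨false,0,⟨0,
  []⟩,⟨0,[]⟩⟩,⟨false,0,⟨0,[]⟩,⟨0,[]⟩⟩,[.a ⟨true,0,⟨1,[(6,0),(2,0),(0,0)]⟩,⟨0,[(1,0)]⟩⟩ ⟨true,0,⟨1,
  [(15,0),(0,0)]⟩,⟨0,[]⟩⟩ ⟨false,1,⟨7,[(0,3),(5,3),(0,0),(0,0),(18,1)]⟩,⟨0,[(1,0),(0,0)]⟩⟩,.o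
  ⟨false,1,⟨7,[(6,3),(0,0),(0,0),(11,1),(7,3)]⟩,⟨0,[(11,0)]⟩⟩,.o ⟨false,0,⟨0,[(2,0)]⟩,⟨11,[(0,3),(6,
  2),(0,2),(6,3),(4,1)]⟩⟩,.o ⟨false,0,⟨0,[(12,0)]⟩,⟨3,[(0,1),(19,0),(6,0)]⟩⟩]⟩) (.R ⟨0,false,false,
  false,[1,0,-1],[0,0,1],[0,0,0,0,0,0,0,1],(⟨0,[(18,0)]⟩,⟨0,[(19,0)]⟩),(⟨0,[(19,0)]⟩,⟨0,[(18,0)]⟩),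
  ⟨0,[(3,0)]⟩,.k,.k,.k,.k,.k,.k,⟨false,1,⟨3,[(7,0),(0,0),(18,1)]⟩,⟨0,[]⟩⟩,⟨true,1,⟨0,[(9,0),(0,0),
  (4,1),(11,0)]⟩,⟨0,[(0,0)]⟩⟩,⟨false,0,⟨1,[(0,1),(5,1),(20,0),(0,0)]⟩,⟨0,[(1,1),(13,1),(11,0)]⟩⟩,
  ⟨true,0,⟨0,[(6,0)]⟩,⟨0,[(1,0),(9,0)]⟩⟩,⟨false,0,⟨0,[]⟩,⟨0,[]⟩⟩,⟨false,0,⟨0,[]⟩,⟨0,[]⟩⟩,[.a ⟨true,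
  0,⟨1,[(6,0),(2,0),(0,0)]⟩,⟨0,[(1,0)]⟩⟩ ⟨true,0,⟨0,[(17,0)]⟩,⟨0,[(1,0),(13,0)]⟩⟩ ⟨false,1,⟨1,[(6,
  0),(2,0),(0,0),(4,1),(11,1)]⟩,⟨3,[(0,1),(0,3),(18,0),(6,0)]⟩⟩,.o ⟨false,1,⟨7,[(6,3),(0,0),(0,0),
  (11,1),(7,3)]⟩,⟨0,[(11,0)]⟩⟩,.o ⟨false,0,⟨0,[(2,0)]⟩,⟨3,[(7,0),(0,0),(6,3),(11,1)]⟩⟩,.o ⟨false,0,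
  ⟨0,[(12,0)]⟩,⟨0,[(15,0),(11,0)]⟩⟩]⟩)))

theorem ok24 : chk (cU (-1) true 3) t24 r7 = true := by decide +kernel

noncomputable def t29 : Tre :=
  (.R ⟨2,true,false,false,[0,1],[0,0,1],[0,0,1],(⟨0,[]⟩,⟨0,[]⟩),(⟨0,[(16,0)]⟩,⟨0,[(15,0)]⟩),⟨0,[]⟩,
  .k,.k,.k,.k,.k,.k,⟨false,1,⟨1,[(11,1),(0,1),(11,0),(0,0)]⟩,⟨0,[(1,0)]⟩⟩,⟨true,0,⟨0,[(12,0)]⟩,⟨0,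
  [(0,0)]⟩⟩,⟨true,0,⟨0,[(23,0)]⟩,⟨0,[(22,0)]⟩⟩,⟨false,0,⟨0,[(2,0)]⟩,⟨0,[(11,0),(10,0),(2,0)]⟩⟩,
  ⟨false,1,⟨3,[(4,0),(0,0),(19,1)]⟩,⟨0,[]⟩⟩,⟨true,0,⟨0,[(2,0),(19,0)]⟩,⟨0,[(11,0)]⟩⟩,[]⟩)

theorem ok29 : chk (cU (-1) true 3) t29 l16 = true := by decide +kernel

noncomputable def t30 : Tre :=
  (.R ⟨2,true,false,false,[0,1],[1,0,-1],[1,1,1,1],(⟨0,[]⟩,⟨0,[]⟩),(⟨0,[(16,0)]⟩,⟨0,[(17,0)]⟩),⟨0,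
  []⟩,.k,.k,.k,.k,.k,.k,⟨false,0,⟨0,[(15,0),(7,0)]⟩,⟨1,[(0,1),(0,1),(5,1),(0,1),(16,0),(0,0)]⟩⟩,
  ⟨true,0,⟨0,[(10,0)]⟩,⟨0,[(1,0),(5,0),(0,0)]⟩⟩,⟨false,0,⟨0,[]⟩,⟨3,[(5,0),(0,0),(19,1)]⟩⟩,⟨true,0,
  ⟨0,[(0,0)]⟩,⟨1,[(4,0),(2,0),(0,0),(14,1)]⟩⟩,⟨true,0,⟨0,[(23,0)]⟩,⟨0,[(24,0)]⟩⟩,⟨false,1,⟨0,[(9,0),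
  (16,0)]⟩,⟨1,[(4,0),(2,0),(0,0)]⟩⟩,[]⟩)

theorem ok30 : chk (cU (-1) true 3) t30 l17 = true := by decide +kernel

noncomputable def t31 : Tre :=
  (.Q [0,0,0,0,0,0,-1,0,0,1,1] (.p true [1,-1,1] [] (⟨0,[(18,0),(1,0)]⟩,⟨0,[(0,0)]⟩) .k 0 (⟨0,[]⟩,
  ⟨0,[]⟩) .k .k) (.R ⟨0,false,false,true,[0,1,-1],[0,1],[0,1,1,1,0,0,0,-1],(⟨0,[(1,0)]⟩,⟨0,[(19,0),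
  (1,0)]⟩),(⟨0,[(22,0)]⟩,⟨0,[(21,0)]⟩),⟨0,[(19,0)]⟩,.k,.k,.k,.k,.k,.k,⟨false,1,⟨1,[(3,1),(10,1),(12,
  0),(0,0)]⟩,⟨0,[(17,0)]⟩⟩,⟨true,0,⟨0,[(3,0)]⟩,⟨0,[(16,0)]⟩⟩,⟨true,0,⟨0,[(30,0)]⟩,⟨0,[]⟩⟩,⟨false,0,
  ⟨2,[(3,1),(0,0),(1,0),(5,0)]⟩,⟨0,[(14,0),(13,0)]⟩⟩,⟨false,0,⟨0,[]⟩,⟨0,[]⟩⟩,⟨false,0,⟨0,[]⟩,⟨0,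
  []⟩⟩,[.o ⟨false,0,⟨0,[(25,0)]⟩,⟨1,[(20,0),(5,1),(1,0)]⟩⟩,.o ⟨false,1,⟨3,[(7,0),(0,0),(16,3),(2,
  1)]⟩,⟨0,[(5,0),(5,0)]⟩⟩,.o ⟨false,1,⟨1,[(0,1),(19,0),(6,0)]⟩,⟨0,[(3,1),(8,0)]⟩⟩,.a ⟨true,0,⟨0,[(0,
  0)]⟩,⟨0,[(3,0)]⟩⟩ ⟨false,1,⟨0,[(3,0),(10,0),(10,0),(2,0)]⟩,⟨0,[(4,0),(18,0)]⟩⟩ ⟨true,0,⟨0,[(3,0),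
  (21,0)]⟩,⟨1,[(0,0),(3,0),(6,0),(11,0),(2,0)]⟩⟩]⟩) (.Q [0,1,-1,0,0,0,0,0,-1,0,0,1] (.p true [0,0,0,
  1] [] (⟨0,[(10,0)]⟩,⟨0,[(9,0)]⟩) .k 0 (⟨0,[]⟩,⟨0,[]⟩) .k .k) (.Q [0,1,1,0,0,0,0,0,1,0,0,-1] (.p
  false [0,0,0,1] [] (⟨0,[(11,0)]⟩,⟨0,[(10,0)]⟩) .k 0 (⟨0,[]⟩,⟨0,[]⟩) .k .k) (.K ⟨0,[0,0,0,1],0,0,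
  (⟨0,[(12,0)]⟩,⟨0,[(11,0)]⟩),.k,(.x 0 ⟨0,[(14,0),(2,0),(5,0)]⟩ ⟨0,[(24,0),(4,0)]⟩),(.x 0 ⟨0,[(24,
  0)]⟩ ⟨3,[(9,0),(0,0),(11,1),(0,3)]⟩),.k,.k,[⟨0,[(12,0)]⟩,⟨0,[(11,0)]⟩,⟨0,[(1,0)]⟩,⟨0,[(0,0)]⟩]⟩)
  (.Q [0,0,0,0,0,1,0,0,0,-1,0,1] (.p true [0,0,0,1] [1] (⟨0,[(12,0)]⟩,⟨0,[(11,0)]⟩) .k 1 (⟨0,[]⟩,⟨0,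
  []⟩) .k .k) (.R ⟨0,false,false,true,[1,0,0,-1],[1,0,-1],[0,0,0,-1,0,0,0,0,-1],(⟨0,[(12,0)]⟩,⟨0,
  [(13,0)]⟩),(⟨0,[(21,0)]⟩,⟨0,[(22,0)]⟩),⟨0,[(0,0)]⟩,.k,.k,(.x (-1) ⟨3,[(10,0),(0,0),(11,1),(0,3)]⟩
  ⟨0,[(25,0)]⟩),.k,.k,.k,⟨false,0,⟨3,[(1,2),(0,0),(4,1),(0,3),(3,3),(1,1),(0,1)]⟩,⟨1,[(6,1),(4,0),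
  (5,1),(10,1),(2,0)]⟩⟩,⟨true,0,⟨0,[(12,0),(2,0)]⟩,⟨0,[(6,0),(6,0)]⟩⟩,⟨true,0,⟨0,[(29,0)]⟩,⟨0,[(28,
  0)]⟩⟩,⟨false,1,⟨1,[(11,0),(0,1),(1,1),(3,0),(0,0),(11,0)]⟩,⟨6,[(1,6),(1,1),(3,0),(1,2),(5,0)]⟩⟩,
  ⟨false,0,⟨0,[]⟩,⟨0,[]⟩⟩,⟨false,0,⟨0,[]⟩,⟨0,[]⟩⟩,[.o ⟨false,0,⟨0,[(14,0)]⟩,⟨7,[(9,3),(0,0),(0,0),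
  (11,1),(7,3)]⟩⟩,.o ⟨false,1,⟨1,[(17,1),(5,0),(7,0)]⟩,⟨6,[(3,1),(3,0),(1,2),(5,0)]⟩⟩,.o ⟨false,1,
  ⟨1,[(13,1),(9,0),(6,0)]⟩,⟨2,[(3,0),(8,2),(2,1),(2,0)]⟩⟩,.a ⟨true,0,⟨0,[(13,0)]⟩,⟨0,[(12,0)]⟩⟩
  ⟨false,0,⟨0,[(1,0),(6,0),(3,0),(1,0)]⟩,⟨1,[(11,0),(6,0),(0,0),(8,1),(2,0)]⟩⟩ ⟨true,0,⟨0,[(12,0),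
  (1,0)]⟩,⟨6,[(3,1),(3,0),(1,2),(3,6),(1,0)]⟩⟩]⟩) (.Q [0,0,1,2,1,0,0,0,1,1,0,-1] (.p false [0,0,0,
  1] [1] (⟨0,[(13,0)]⟩,⟨0,[(12,0)]⟩) .k 1 (⟨0,[]⟩,⟨0,[]⟩) .k .k) (.R ⟨1,false,false,true,[1,0,0,-1],
  [0,1],[1,1,0,0,0,0,0,0,-1],(⟨0,[(13,0)]⟩,⟨0,[(14,0)]⟩),(⟨0,[(26,0)]⟩,⟨0,[(25,0)]⟩),⟨0,[(1,0)]⟩,.k,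
  .k,(.x (-1) ⟨3,[(11,0),(0,0),(11,1),(0,3)]⟩ ⟨0,[(26,0)]⟩),(.x (-1) ⟨3,[(11,0),(0,0),(11,1),(0,
  3)]⟩ ⟨0,[(26,0)]⟩),(.r 0 ⟨0,[(2,0),(6,0),(3,0),(1,0),(12,0),(1,0)]⟩ ⟨2,[(0,2),(3,0),(9,2),(1,1),
  (2,0)]⟩),.k,⟨false,0,⟨0,[(2,0),(6,0),(3,0),(1,0),(12,0)]⟩,⟨3,[(0,1),(11,0),(1,1),(4,0),(0,0),(3,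
  0)]⟩⟩,⟨true,0,⟨0,[(13,0)]⟩,⟨2,[(4,0),(9,2),(1,1),(2,0)]⟩⟩,⟨false,0,⟨0,[]⟩,⟨3,[(11,0),(0,0),(19,
  1)]⟩⟩,⟨false,1,⟨11,[(0,7),(10,0),(0,2),(0,3),(13,3),(6,3)]⟩,⟨0,[(2,0),(6,0),(5,0)]⟩⟩,⟨true,0,⟨0,
  [(29,0)]⟩,⟨0,[(30,0)]⟩⟩,⟨false,1,⟨0,[(0,0)]⟩,⟨0,[(2,0),(6,0),(5,0),(14,0)]⟩⟩,[.o ⟨false,0,⟨0,[(29,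
  0)]⟩,⟨1,[(24,0),(5,1),(1,0)]⟩⟩,.o ⟨false,1,⟨7,[(0,3),(1,0),(0,0),(7,0),(2,1),(9,1),(6,0)]⟩,⟨0,[(9,
  0),(5,0)]⟩⟩,.o ⟨false,1,⟨1,[(14,1),(9,0),(6,0)]⟩,⟨2,[(4,0),(8,2),(2,1),(2,0)]⟩⟩,.a ⟨true,0,⟨0,
  [(14,0)]⟩,⟨0,[(13,0)]⟩⟩ ⟨false,0,⟨7,[(2,4),(0,2),(0,3),(3,1),(4,7),(1,1),(0,1)]⟩,⟨5,[(0,1),(11,1),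
  (1,1),(9,0),(2,3),(4,0)]⟩⟩ ⟨true,0,⟨0,[(13,0),(15,0)]⟩,⟨0,[(9,0),(4,0),(0,0)]⟩⟩]⟩) (.R ⟨1,true,
  false,true,[1,0,0,-1],[0,1],[0,0,0,-1,0,0,0,0,-1],(⟨0,[(13,0)]⟩,⟨0,[(14,0)]⟩),(⟨0,[(26,0)]⟩,⟨0,
  [(25,0)]⟩),⟨0,[(1,0)]⟩,.k,.k,(.x (-1) ⟨3,[(11,0),(0,0),(11,1),(0,3)]⟩ ⟨0,[(26,0)]⟩),(.x (-1) ⟨3,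
  [(11,0),(0,0),(11,1),(0,3)]⟩ ⟨0,[(26,0)]⟩),(.x 0 ⟨0,[(4,0),(11,0),(8,1)]⟩ ⟨3,[(11,0),(0,0),(13,7),
  (4,1)]⟩),.k,⟨false,0,⟨1,[(0,1),(12,1),(17,0),(0,0)]⟩,⟨1,[(12,0),(6,0),(0,0),(8,3),(2,0)]⟩⟩,⟨true,
  0,⟨0,[(13,0)]⟩,⟨2,[(4,0),(9,2),(1,1),(2,0)]⟩⟩,⟨true,0,⟨0,[(30,0)]⟩,⟨0,[(29,0)]⟩⟩,⟨false,1,⟨1,[(12,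
  0),(0,1),(5,0),(0,0),(8,1),(2,0)]⟩,⟨3,[(0,1),(1,1),(21,0),(7,0)]⟩⟩,⟨false,1,⟨3,[(11,0),(0,0),(19,
  1)]⟩,⟨0,[]⟩⟩,⟨true,1,⟨1,[(12,0),(0,1),(5,0),(0,0),(8,3),(2,0)]⟩,⟨0,[(0,0)]⟩⟩,[]⟩)))) (.I [0,0,0,
  -1,0,0,0,0,-1] (.R ⟨2,true,false,true,[0,1],[1,0,0,-1],[1,1,1,1],(⟨0,[]⟩,⟨0,[]⟩),(⟨0,[(11,0)]⟩,⟨0,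
  [(12,0)]⟩),⟨0,[]⟩,.k,.k,.k,(.x 0 ⟨0,[(24,0)]⟩ ⟨3,[(9,0),(0,0),(11,1),(0,3)]⟩),.k,.k,⟨true,0,⟨0,
  [(1,0),(10,0),(14,0)]⟩,⟨0,[(0,0)]⟩⟩,⟨false,1,⟨1,[(12,1),(9,0),(6,0)]⟩,⟨0,[(11,0)]⟩⟩,⟨false,0,⟨0,
  []⟩,⟨3,[(9,0),(0,0),(19,1)]⟩⟩,⟨true,0,⟨1,[(0,1),(1,0),(3,0),(5,1),(0,0),(12,0)]⟩,⟨0,[(1,0),(2,0),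
  (11,0)]⟩⟩,⟨true,0,⟨0,[(27,0)]⟩,⟨0,[(28,0)]⟩⟩,⟨false,1,⟨3,[(2,1),(3,1),(2,1),(2,3),(0,1),(15,0),(0,
  0)]⟩,⟨0,[(1,0),(9,0),(0,0)]⟩⟩,[]⟩) (.Q [0,0,1,-1,-1,0,0,0,1,0,0,-1] (.p false [0,0,0,1] [] (⟨0,
  [(12,0)]⟩,⟨0,[(11,0)]⟩) .k 0 (⟨0,[]⟩,⟨0,[]⟩) .k .k) (.K ⟨0,[0,0,0,1],0,(-1),(⟨0,[(13,0)]⟩,⟨0,[(12,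
  0)]⟩),.k,(.r 0 ⟨0,[(0,0),(12,0),(16,0)]⟩ ⟨1,[(10,0),(7,0),(0,0),(8,1),(2,0)]⟩),(.x 0 ⟨0,[(25,0)]⟩
  ⟨3,[(10,0),(0,0),(11,1),(0,3)]⟩),.k,.k,[⟨0,[(13,0)]⟩,⟨0,[(12,0)]⟩,⟨1,[(10,0),(2,1),(16,0),(2,1)]⟩,
  ⟨0,[(0,0),(27,0)]⟩]⟩) (.Q [0,0,0,0,0,1,0,0,0,-1,0,1] (.p true [0,0,0,1] [1] (⟨0,[(13,0)]⟩,⟨0,[(12,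
  0)]⟩) .k 1 (⟨0,[]⟩,⟨0,[]⟩) .k .k) (.Q [0,-1,-1,-1,1,0,0,0,-1,-1,0,1] (.p true [0,0,0,1] [1] (⟨0,
  [(14,0)]⟩,⟨0,[(13,0)]⟩) .k 1 (⟨0,[]⟩,⟨0,[]⟩) .k .k) (.R ⟨0,false,false,true,[1,0,0,-1],[0,1],[0,1,
  0,0,0,0,0,0,-1],(⟨0,[(14,0)]⟩,⟨0,[(15,0)]⟩),(⟨0,[(27,0)]⟩,⟨0,[(26,0)]⟩),⟨0,[(1,0)]⟩,.k,.k,(.x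
  (-1) ⟨3,[(12,0),(0,0),(11,1),(0,3)]⟩ ⟨0,[(27,0)]⟩),(.x (-1) ⟨3,[(12,0),(0,0),(11,1),(0,3)]⟩ ⟨0,
  [(27,0)]⟩),.k,.k,⟨false,1,⟨0,[(0,0),(13,0),(14,0)]⟩,⟨1,[(3,1),(16,0),(0,0)]⟩⟩,⟨true,0,⟨0,[(14,
  0)]⟩,⟨2,[(5,0),(9,2),(1,1),(2,0)]⟩⟩,⟨true,0,⟨0,[(35,0)]⟩,⟨0,[]⟩⟩,⟨false,0,⟨1,[(3,1),(10,1),(5,0),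
  (0,0)]⟩,⟨0,[(0,0)]⟩⟩,⟨false,0,⟨0,[]⟩,⟨0,[]⟩⟩,⟨false,0,⟨0,[]⟩,⟨0,[]⟩⟩,[.o ⟨false,0,⟨0,[(30,0)]⟩,⟨7,
  [(0,3),(3,1),(8,0),(0,1),(10,2),(2,1),(2,1)]⟩⟩,.o ⟨false,1,⟨3,[(12,0),(0,0),(16,3),(2,1)]⟩,⟨0,
  [(10,0),(5,0)]⟩⟩,.o ⟨false,1,⟨1,[(15,1),(9,0),(6,0)]⟩,⟨2,[(5,0),(8,2),(2,1),(2,0)]⟩⟩,.a ⟨true,0,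
  ⟨0,[(15,0)]⟩,⟨0,[(14,0)]⟩⟩ ⟨false,1,⟨1,[(12,0),(19,0)]⟩,⟨0,[(3,0),(24,0)]⟩⟩ ⟨true,0,⟨0,[(14,0),
  (15,0)]⟩,⟨0,[(10,0),(4,0),(0,0)]⟩⟩]⟩) (.R ⟨0,false,false,true,[1,0,0,-1],[0,1],[0,0,1],(⟨0,[(14,
  0)]⟩,⟨0,[(15,0)]⟩),(⟨0,[(27,0)]⟩,⟨0,[(26,0)]⟩),⟨0,[(1,0)]⟩,.k,.k,(.x (-1) ⟨3,[(12,0),(0,0),(11,1),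
  (0,3)]⟩ ⟨0,[(27,0)]⟩),(.x (-1) ⟨3,[(12,0),(0,0),(11,1),(0,3)]⟩ ⟨0,[(27,0)]⟩),.k,.k,⟨false,1,⟨1,
  [(31,1),(0,0),(0,0)]⟩,⟨0,[(30,0)]⟩⟩,⟨true,0,⟨0,[(14,0)]⟩,⟨2,[(5,0),(9,2),(1,1),(2,0)]⟩⟩,⟨false,0,
  ⟨0,[(4,0),(10,0)]⟩,⟨1,[(12,0),(19,0)]⟩⟩,⟨true,(-1),⟨0,[(0,0)]⟩,⟨1,[(10,1),(1,0),(2,1),(0,1),(15,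
  0)]⟩⟩,⟨false,0,⟨0,[]⟩,⟨0,[]⟩⟩,⟨false,0,⟨0,[]⟩,⟨0,[]⟩⟩,[.o ⟨false,0,⟨0,[(30,0)]⟩,⟨1,[(25,0),(5,1),
  (1,0)]⟩⟩,.o ⟨false,1,⟨3,[(12,0),(0,0),(16,3),(2,1)]⟩,⟨0,[(10,0),(5,0)]⟩⟩,.o ⟨false,1,⟨1,[(15,1),
  (9,0),(6,0)]⟩,⟨5,[(0,1),(4,1),(6,0),(1,3),(2,1),(7,0),(2,1)]⟩⟩,.a ⟨true,0,⟨0,[(15,0)]⟩,⟨0,[(14,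
  0)]⟩⟩ ⟨false,1,⟨3,[(12,0),(0,0),(19,1)]⟩,⟨0,[]⟩⟩ ⟨true,0,⟨0,[(14,0),(15,0)]⟩,⟨0,[(10,0),(4,0),(0,
  0)]⟩⟩]⟩)) (.Q [0,0,-1,-1,0,0,1,1,-1,0,-1,1] (.p false [0,0,1] [0,0,0,1] (⟨0,[(23,0)]⟩,⟨0,[(22,
  0)]⟩) .k 2 (⟨0,[(14,0)]⟩,⟨0,[(13,0)]⟩) .k (.x (-1) ⟨0,[(19,0),(3,0),(7,0)]⟩ ⟨0,[(16,0),(5,0)]⟩))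
  (.R ⟨1,true,false,true,[1,0,0,-1],[1,0,-1],[0,0,0,-1,0,0,0,0,-1],(⟨0,[(14,0)]⟩,⟨0,[(15,0)]⟩),(⟨0,
  [(23,0)]⟩,⟨0,[(24,0)]⟩),⟨0,[(1,0)]⟩,.k,.k,(.x (-1) ⟨3,[(12,0),(0,0),(11,1),(0,3)]⟩ ⟨0,[(27,0)]⟩),
  .k,(.x 0 ⟨0,[(5,0),(18,0),(1,0)]⟩ ⟨3,[(6,3),(5,0),(0,0),(7,3),(10,1)]⟩),.k,⟨false,1,⟨1,[(9,1),(2,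
  0),(18,1),(1,0)]⟩,⟨0,[(3,0),(4,0),(10,0)]⟩⟩,⟨true,0,⟨0,[(14,0),(2,0)]⟩,⟨0,[(8,0),(6,0)]⟩⟩,⟨true,0,
  ⟨0,[(31,0)]⟩,⟨0,[(30,0)]⟩⟩,⟨false,0,⟨0,[(4,0),(14,0)]⟩,⟨5,[(0,3),(1,1),(4,1),(17,0),(7,2)]⟩⟩,
  ⟨false,1,⟨3,[(12,0),(0,0),(19,1)]⟩,⟨0,[]⟩⟩,⟨true,0,⟨0,[(4,0),(14,0),(10,0)]⟩,⟨0,[(0,0)]⟩⟩,[]⟩)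
  (.I [0,-1,-1,-1,1,0,0,0,-1] (.R ⟨1,false,false,true,[1,0,0,-1],[1,0,-1],[0,0,0,-1,0,0,0,0,-1],(⟨0,
  [(15,0)]⟩,⟨0,[(16,0)]⟩),(⟨0,[(24,0)]⟩,⟨0,[(25,0)]⟩),⟨0,[(2,0)]⟩,.k,.k,(.x (-1) ⟨3,[(13,0),(0,0),
  (11,1),(0,3)]⟩ ⟨0,[(28,0)]⟩),.k,(.r (-1) ⟨1,[(0,1),(9,0),(8,0),(2,0),(13,0)]⟩ ⟨0,[(1,0),(7,0),(6,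
  0)]⟩),.k,⟨false,1,⟨0,[(0,0),(22,0)]⟩,⟨0,[(4,0),(4,0),(10,0)]⟩⟩,⟨true,0,⟨0,[(15,0),(2,0)]⟩,⟨0,[(9,
  0),(6,0)]⟩⟩,⟨true,0,⟨0,[(32,0)]⟩,⟨0,[(31,0)]⟩⟩,⟨false,0,⟨0,[(1,0),(30,0)]⟩,⟨0,[(3,0),(7,0)]⟩⟩,
  ⟨false,1,⟨3,[(13,0),(0,0),(19,1)]⟩,⟨0,[]⟩⟩,⟨false,0,⟨0,[(1,0)]⟩,⟨2,[(0,1),(2,0),(7,1),(4,1),(2,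
  0)]⟩⟩,[.o ⟨false,0,⟨0,[(17,0)]⟩,⟨7,[(12,3),(0,0),(0,0),(11,1),(7,3)]⟩⟩,.o ⟨false,1,⟨1,[(20,1),(5,
  0),(7,0)]⟩,⟨6,[(6,1),(3,0),(1,2),(5,0)]⟩⟩,.o ⟨false,1,⟨1,[(16,1),(9,0),(6,0)]⟩,⟨2,[(6,0),(8,2),(2,
  1),(2,0)]⟩⟩,.a ⟨true,0,⟨0,[(16,0)]⟩,⟨0,[(15,0)]⟩⟩ ⟨false,1,⟨0,[(0,0)]⟩,⟨1,[(4,1),(16,0),(0,0)]⟩⟩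
  ⟨true,0,⟨0,[(15,0),(1,0)]⟩,⟨6,[(6,1),(3,0),(1,2),(3,6),(1,0)]⟩⟩]⟩) (.I [0,0,-1,-1,0,0,0,0,1] (.K
  ⟨0,[0,0,0,1],0,(-1),(⟨0,[(17,0)]⟩,⟨0,[(16,0)]⟩),.k,(.r 0 ⟨0,[(0,0)]⟩ ⟨5,[(2,1),(1,1),(4,1),(4,2),
  (7,2),(0,2),(3,0)]⟩),(.x 0 ⟨0,[(29,0)]⟩ ⟨3,[(14,0),(0,0),(11,1),(0,3)]⟩),.k,.k,[⟨0,[(17,0)]⟩,⟨0,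
  [(16,0)]⟩,⟨1,[(14,0),(2,1),(16,0),(2,1)]⟩,⟨0,[(1,0),(10,0),(3,0),(1,0)]⟩]⟩) (.K ⟨0,[0,0,0,1],0,
  (-1),(⟨0,[(17,0)]⟩,⟨0,[(16,0)]⟩),.k,(.x 0 ⟨0,[(19,0),(2,0),(5,0)]⟩ ⟨0,[(29,0),(4,0)]⟩),(.x 0 ⟨0,
  [(29,0)]⟩ ⟨3,[(14,0),(0,0),(11,1),(0,3)]⟩),.k,.k,[⟨0,[(17,0)]⟩,⟨0,[(16,0)]⟩,⟨1,[(14,0),(2,1),(16,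
  0),(2,1)]⟩,⟨0,[(1,0),(10,0),(3,0),(1,0)]⟩]⟩)))))))))

theorem ok31 : chk (cU (-1) true 3) t31 l18 = true := by decide +kernel

noncomputable def t36 : Tre :=
  (.I [0,1,2,2] (.I [1,0,2,1] (.Q [0,0,0,-2,-1,0,2,2,0,1,-2] (.p false [0,0,1] [1,0,-1] (⟨0,[(25,
  0)]⟩,⟨0,[(24,0)]⟩) .k 2 (⟨0,[(24,0)]⟩,⟨0,[(25,0)]⟩) .k (.r 0 ⟨0,[(23,1)]⟩ ⟨0,[(9,1),(10,1),(13,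
  0)]⟩)) (.R ⟨1,true,false,false,[0,0,1],[1,1,-1],[0,0,2,1,0,0,0,-1],(⟨0,[(26,0)]⟩,⟨0,[(25,0)]⟩),
  (⟨0,[(25,0),(3,0)]⟩,⟨0,[(8,0)]⟩),⟨0,[(8,0)]⟩,.k,.k,.k,(.r 0 ⟨7,[(3,3),(10,0),(0,0),(8,7),(10,1)]⟩
  ⟨0,[(7,0),(2,0),(5,0),(0,0),(4,0)]⟩),(.r 0 ⟨3,[(3,3),(10,0),(0,0),(19,1)]⟩ ⟨0,[(1,0),(5,0),(2,1),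
  (5,0),(0,0)]⟩),.k,⟨true,0,⟨3,[(2,0),(27,1),(6,0)]⟩,⟨0,[]⟩⟩,⟨false,1,⟨7,[(3,3),(3,7),(3,7),(2,0),
  (0,0),(19,1)]⟩,⟨0,[(10,0),(5,0),(0,0),(4,0)]⟩⟩,⟨false,1,⟨0,[(1,0),(2,0),(5,1),(5,0),(0,0)]⟩,⟨7,
  [(3,3),(7,7),(2,0),(0,0),(19,1)]⟩⟩,⟨true,1,⟨0,[(7,0)]⟩,⟨0,[(0,0),(31,0)]⟩⟩,⟨true,1,⟨0,[(1,0),(5,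
  0),(2,1),(5,0),(0,0)]⟩,⟨0,[(3,0)]⟩⟩,⟨false,2,⟨4,[(2,0),(2,0),(1,5),(1,0),(24,0),(0,2)]⟩,⟨0,[(0,
  0)]⟩⟩,[]⟩) (.Q [0,1,0,-1,0,0,-2,-2,0,-1,2] (.p true [0,0,1] [1,0,-1] (⟨0,[(26,0)]⟩,⟨0,[(25,0)]⟩)
  .k 2 (⟨0,[(25,0)]⟩,⟨0,[(26,0)]⟩) .k (.r 0 ⟨0,[(24,1)]⟩ ⟨0,[(10,1),(10,1),(13,0)]⟩)) (.R ⟨1,true,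
  false,false,[1,0,-1],[0,0,1],[0,0,0,-1,0,0,0,-1],(⟨0,[(26,0)]⟩,⟨0,[(27,0)]⟩),(⟨0,[(27,0)]⟩,⟨0,
  [(26,0)]⟩),⟨0,[(7,0)]⟩,.k,.k,.k,.k,(.r (-1) ⟨1,[(0,1),(10,3),(5,1),(0,1),(16,0),(0,0)]⟩ ⟨0,[(6,0),
  (17,0),(0,0)]⟩),.k,⟨false,1,⟨1,[(0,1),(10,3),(5,1),(0,1),(16,0),(0,0)]⟩,⟨0,[(6,0),(5,0),(11,0)]⟩⟩,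
  ⟨true,0,⟨0,[(11,1),(5,0),(0,0)]⟩,⟨0,[(1,0),(0,0),(1,0),(26,0)]⟩⟩,⟨true,0,⟨0,[(34,0)]⟩,⟨0,[(33,
  0)]⟩⟩,⟨false,0,⟨0,[(10,0),(2,0)]⟩,⟨5,[(0,1),(4,1),(2,1),(6,0),(0,0)]⟩⟩,⟨false,1,⟨3,[(15,0),(0,0),
  (19,1)]⟩,⟨0,[]⟩⟩,⟨true,0,⟨1,[(6,0),(3,0),(3,0)]⟩,⟨0,[(0,0)]⟩⟩,[]⟩) (.I [0,0,2,1] (.R ⟨2,true,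
  false,false,[0,1],[1,-1],[0,0,1],(⟨0,[]⟩,⟨0,[]⟩),(⟨0,[(30,0)]⟩,⟨0,[(31,0)]⟩),⟨0,[]⟩,.k,.k,.k,(.r
  (-1) ⟨3,[(4,3),(11,0),(0,0),(19,1)]⟩ ⟨0,[(5,0),(0,0),(5,1),(5,0),(0,0)]⟩),.k,.k,⟨true,0,⟨0,[(0,
  0)]⟩,⟨1,[(5,0),(0,0),(5,1),(5,0),(0,0)]⟩⟩,⟨false,0,⟨0,[(12,0),(8,0)]⟩,⟨0,[(18,0),(0,0),(16,0)]⟩⟩,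
  ⟨true,0,⟨0,[(35,0)]⟩,⟨0,[(34,0)]⟩⟩,⟨false,0,⟨0,[(2,0),(2,0),(6,1),(19,1)]⟩,⟨5,[(9,3),(1,7),(4,0),
  (0,0),(0,1),(0,1)]⟩⟩,⟨false,1,⟨3,[(16,0),(0,0),(19,1)]⟩,⟨0,[]⟩⟩,⟨true,0,⟨0,[(14,0),(5,0)]⟩,⟨0,
  [(11,0),(11,0)]⟩⟩,[]⟩) (.Q [0,0,-1,-1,0,0,1,1,-1,0,-1,1] (.p false [0,0,1] [0,0,0,1] (⟨0,[(28,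
  0)]⟩,⟨0,[(27,0)]⟩) .k 2 (⟨0,[(19,0)]⟩,⟨0,[(18,0)]⟩) .k (.x (-1) ⟨0,[(24,0),(3,0),(7,0)]⟩ ⟨0,[(21,
  0),(5,0)]⟩)) (.Q [0,1,1,0,0,0,0,0,1,0,0,-1] (.p false [0,0,0,1] [] (⟨0,[(20,0)]⟩,⟨0,[(19,0)]⟩) .k
  0 (⟨0,[]⟩,⟨0,[]⟩) .k .k) (.Q [0,1,-1,0,0,0,0,0,-1,0,0,1] (.p true [0,0,0,1] [] (⟨0,[(21,0)]⟩,⟨0,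
  [(20,0)]⟩) .k 0 (⟨0,[]⟩,⟨0,[]⟩) .k .k) (.K ⟨0,[0,0,0,1],0,0,(⟨0,[(22,0)]⟩,⟨0,[(21,0)]⟩),.k,(.x 0
  ⟨5,[(7,1),(3,2),(1,2),(9,0),(0,1),(0,0),(1,1),(7,3)]⟩ ⟨0,[(34,0),(4,0)]⟩),(.x 0 ⟨0,[(34,0)]⟩ ⟨3,
  [(19,0),(0,0),(11,1),(0,3)]⟩),.k,.k,[⟨0,[(22,0)]⟩,⟨0,[(21,0)]⟩,⟨0,[(0,0)]⟩,⟨0,[(1,0)]⟩]⟩) (.R ⟨1,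
  true,false,false,[0,0,1],[0,0,0,1],[1,1,0,0,0,0,0,1],(⟨0,[(31,0)]⟩,⟨0,[(30,0)]⟩),(⟨0,[(22,0)]⟩,⟨0,
  [(21,0)]⟩),⟨0,[(13,0)]⟩,.k,.k,.k,.k,(.x 0 ⟨0,[(13,0),(1,0)]⟩ ⟨7,[(5,1),(2,1),(10,1),(0,1),(7,3),
  (1,7),(1,2),(1,7),(5,0)]⟩),.k,⟨false,0,⟨1,[(2,1),(2,0),(0,0),(1,0),(1,0),(10,1),(1,0)]⟩,⟨13,[(0,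
  3),(2,1),(1,0),(3,5),(5,13),(4,4),(0,6),(0,10),(17,1)]⟩⟩,⟨true,0,⟨0,[(21,0),(2,0)]⟩,⟨0,[(15,0),(6,
  0)]⟩⟩,⟨false,0,⟨0,[]⟩,⟨3,[(19,0),(0,0),(19,1)]⟩⟩,⟨true,0,⟨0,[(0,0),(25,0)]⟩,⟨0,[(2,0),(34,0)]⟩⟩,
  ⟨true,0,⟨0,[(37,0)]⟩,⟨0,[(38,0)]⟩⟩,⟨false,1,⟨3,[(0,1),(4,0),(0,0),(5,0),(7,0),(0,1),(18,0)]⟩,⟨0,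
  [(2,0)]⟩⟩,[]⟩)) (.Q [0,0,1,-2,0,0,0,0,1,0,0,-1] (.p false [0,0,0,1] [] (⟨0,[(21,0)]⟩,⟨0,[(20,
  0)]⟩) .k 0 (⟨0,[]⟩,⟨0,[]⟩) .k .k) (.I [1,1,-2,-2,0,0,0,0,1] (.R ⟨1,true,false,false,[1,-1],[1,0,0,
  -1],[0,0,1,0,0,0,0,0,-1],(⟨0,[(34,0)]⟩,⟨0,[(35,0)]⟩),(⟨0,[(22,0)]⟩,⟨0,[(23,0)]⟩),⟨0,[(12,0),(1,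
  0)]⟩,.k,.k,(.r 0 ⟨8,[(1,1),(1,1),(0,9),(22,1),(8,1)]⟩ ⟨3,[(8,3),(11,0),(0,0),(19,1)]⟩),(.r (-1)
  ⟨3,[(0,1),(19,0),(0,1),(19,0)]⟩ ⟨15,[(2,13),(5,6),(0,0),(1,3),(8,0),(1,13),(1,5),(0,7),(2,9)]⟩),
  (.r (-1) ⟨3,[(0,3),(19,0),(0,0),(19,1)]⟩ ⟨0,[(2,0),(5,0),(7,0),(5,0),(2,0)]⟩),.k,⟨true,0,⟨12,[(1,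
  0),(1,0),(4,3),(18,0),(8,4)]⟩,⟨0,[]⟩⟩,⟨false,1,⟨5,[(4,3),(0,0),(0,0),(16,5),(14,0),(1,4)]⟩,⟨0,
  [(22,0),(2,0),(2,0)]⟩⟩,⟨false,0,⟨0,[(2,0),(4,0),(8,0),(5,0),(2,0)]⟩,⟨3,[(0,1),(20,0),(18,1),(0,
  0)]⟩⟩,⟨true,0,⟨0,[(2,0),(35,0)]⟩,⟨0,[(1,0),(36,0)]⟩⟩,⟨true,0,⟨0,[(2,0),(5,0),(7,0),(5,0),(2,0)]⟩,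
  ⟨0,[(0,0)]⟩⟩,⟨false,1,⟨7,[(2,3),(0,1),(1,3),(0,5),(8,1),(4,0),(2,1),(16,0)]⟩,⟨0,[(1,0)]⟩⟩,[]⟩)
  (.R ⟨1,true,false,false,[1,-1],[1,0,0,-1],[1,0,0,0,0,0,0,0,-1],(⟨0,[(34,0)]⟩,⟨0,[(35,0)]⟩),(⟨0,
  [(22,0)]⟩,⟨0,[(23,0)]⟩),⟨0,[(12,0),(1,0)]⟩,.k,.k,(.r 0 ⟨8,[(1,1),(1,1),(0,9),(22,1),(8,1)]⟩ ⟨3,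
  [(8,3),(11,0),(0,0),(19,1)]⟩),(.r (-1) ⟨23,[(1,3),(1,3),(0,11),(15,4),(0,16),(5,3),(13,1)]⟩ ⟨10,
  [(0,6),(8,1),(6,2),(3,1),(6,3),(0,0),(9,0)]⟩),(.r (-1) ⟨5,[(1,1),(1,1),(0,5),(15,0),(0,3),(5,1),
  (13,0)]⟩ ⟨8,[(0,6),(7,1),(0,0),(10,0),(6,1),(0,1),(9,1)]⟩),.k,⟨true,0,⟨0,[]⟩,⟨12,[(1,0),(1,0),(4,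
  3),(18,0),(8,4)]⟩⟩,⟨false,1,⟨5,[(4,3),(0,0),(0,0),(16,5),(14,0),(1,4)]⟩,⟨2,[(0,1),(0,1),(20,0),(1,
  0),(1,0)]⟩⟩,⟨false,0,⟨22,[(0,18),(1,1),(1,7),(4,0),(6,1),(3,0),(1,1),(1,1),(11,4)]⟩,⟨23,[(1,3),(1,
  3),(0,11),(15,4),(0,16),(5,3),(13,1)]⟩⟩,⟨true,0,⟨0,[(2,0),(35,0)]⟩,⟨0,[(1,0),(36,0)]⟩⟩,⟨true,0,⟨0,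
  [(0,0),(36,0)]⟩,⟨4,[(1,2),(2,1),(4,0),(6,1),(4,0),(1,2),(3,1),(9,1)]⟩⟩,⟨false,1,⟨7,[(2,3),(0,1),
  (1,3),(0,5),(8,1),(4,0),(2,1),(16,0)]⟩,⟨0,[(1,0)]⟩⟩,[]⟩)) (.R ⟨1,true,false,false,[0,0,1],[1,0,0,
  -1],[1,1,0,0,0,0,0,1],(⟨0,[(31,0)]⟩,⟨0,[(30,0)]⟩),(⟨0,[(21,0)]⟩,⟨0,[(22,0)]⟩),⟨0,[(13,0)]⟩,.k,.k,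
  .k,.k,(.r (-1) ⟨7,[(8,3),(10,2),(0,6),(19,1)]⟩ ⟨0,[(0,0),(20,0),(1,0),(3,0),(7,0)]⟩),.k,⟨true,0,
  ⟨1,[(7,0),(0,0),(11,0)]⟩,⟨0,[(0,0),(14,0),(5,0),(1,0),(11,1)]⟩⟩,⟨false,1,⟨13,[(0,4),(0,2),(0,5),
  (5,6),(3,9),(7,6),(11,1),(7,1)]⟩,⟨0,[(21,0),(5,0)]⟩⟩,⟨false,0,⟨0,[]⟩,⟨3,[(19,0),(0,0),(19,1)]⟩⟩,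
  ⟨true,0,⟨0,[(1,0),(21,0)]⟩,⟨1,[(7,0),(0,0),(11,0),(0,1),(5,1)]⟩⟩,⟨true,0,⟨0,[(37,0)]⟩,⟨0,[(38,
  0)]⟩⟩,⟨false,1,⟨13,[(0,3),(0,7),(0,1),(9,7),(19,2),(7,2)]⟩,⟨1,[(6,0),(1,0),(6,0),(4,0),(0,1),(5,
  0),(7,0)]⟩⟩,[]⟩))) (.I [0,0,0,-1,-1,0,0,0,2] (.Q [0,0,1,-1,-1,0,1,1,1,1,-1,-1] (.p false [0,0,1]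
  [1,0,0,-1] (⟨0,[(30,0)]⟩,⟨0,[(29,0)]⟩) .k 2 (⟨0,[(20,0)]⟩,⟨0,[(21,0)]⟩) .k (.r 0 ⟨9,[(0,1),(2,1),
  (2,0),(0,0),(7,3),(3,2),(3,1),(3,1)]⟩ ⟨1,[(14,1),(3,0),(6,1),(13,0)]⟩)) (.R ⟨1,true,false,false,
  [0,0,1],[1,0,0,-1],[0,0,1,0,0,0,0,0,-1],(⟨0,[(31,0)]⟩,⟨0,[(30,0)]⟩),(⟨0,[(21,0)]⟩,⟨0,[(22,0)]⟩),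
  ⟨0,[(13,0)]⟩,.k,.k,.k,.k,(.r 0 ⟨13,[(1,1),(6,5),(7,1),(3,4),(19,2)]⟩ ⟨1,[(5,0),(13,0),(1,0),(0,0),
  (4,1)]⟩),.k,⟨true,0,⟨3,[(7,0),(27,1),(6,0)]⟩,⟨0,[]⟩⟩,⟨false,1,⟨3,[(5,1),(2,1),(13,3),(9,0),(6,1),
  (0,0)]⟩,⟨0,[(21,0),(5,0)]⟩⟩,⟨false,1,⟨1,[(5,0),(9,1),(3,0),(1,0),(0,0),(12,1)]⟩,⟨13,[(1,3),(2,0),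
  (0,0),(10,13),(3,2),(16,0)]⟩⟩,⟨true,1,⟨1,[(3,0),(1,0),(11,0),(1,0),(2,1),(0,0)]⟩,⟨0,[(0,0),(36,
  0)]⟩⟩,⟨true,1,⟨1,[(5,0),(13,0),(1,0),(0,0),(4,1)]⟩,⟨1,[(1,0),(6,0),(28,0)]⟩⟩,⟨false,2,⟨19,[(3,5),
  (0,1),(0,11),(13,9),(2,19),(9,4),(6,3),(0,8)]⟩,⟨0,[(0,0)]⟩⟩,[]⟩) (.Q [0,0,0,0,0,-1,0,0,0,0,0,1]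
  (.p true [0,0,0,1] [] (⟨0,[(22,0)]⟩,⟨0,[(21,0)]⟩) .k 0 (⟨0,[]⟩,⟨0,[]⟩) .k .k) (.R ⟨1,true,false,
  false,[0,0,0,1],[1,1,-1],[1,1,0,0,0,0,0,0,1],(⟨0,[(23,0)]⟩,⟨0,[(22,0)]⟩),(⟨0,[(31,0),(3,0)]⟩,⟨0,
  [(14,0)]⟩),⟨0,[(0,0)]⟩,.k,.k,(.r 0 ⟨3,[(2,0),(1,1),(16,0),(17,0)]⟩ ⟨7,[(8,3),(11,4),(0,0),(19,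
  1)]⟩),(.r 0 ⟨13,[(2,1),(6,5),(7,1),(3,4),(19,2)]⟩ ⟨1,[(6,0),(13,0),(1,0),(0,0),(4,1)]⟩),(.r 0 ⟨19,
  [(2,0),(1,12),(4,9),(11,8),(14,5),(4,1)]⟩ ⟨0,[(1,0),(5,0),(14,0),(5,0)]⟩),.k,⟨true,(-1),⟨1,[(2,0),
  (6,0),(28,0)]⟩,⟨0,[(1,0),(5,0),(8,0),(5,0),(13,0)]⟩⟩,⟨false,1,⟨13,[(1,13),(0,5),(6,3),(7,5),(3,0),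
  (18,6),(0,1)]⟩,⟨3,[(8,0),(13,3),(5,3),(7,1),(6,0)]⟩⟩,⟨false,0,⟨0,[]⟩,⟨3,[(20,0),(0,0),(19,1)]⟩⟩,
  ⟨true,1,⟨0,[(1,0)]⟩,⟨7,[(2,3),(5,2),(0,3),(12,7),(5,7),(7,1),(6,2)]⟩⟩,⟨true,0,⟨0,[(38,0)]⟩,⟨0,
  [(39,0)]⟩⟩,⟨false,2,⟨5,[(1,5),(3,1),(0,1),(13,0),(0,0),(19,1)]⟩,⟨7,[(2,3),(5,0),(0,3),(12,7),(5,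
  7),(7,5),(6,0)]⟩⟩,[]⟩) (.R ⟨1,true,false,true,[1,0,0,-1],[0,0,0,1],[1,1,0,0,0,0,0,0,1],(⟨0,[(22,
  0)]⟩,⟨0,[(23,0)]⟩),(⟨0,[(23,0)]⟩,⟨0,[(22,0)]⟩),⟨0,[(0,0),(11,0),(1,0)]⟩,.k,.k,(.x (-1) ⟨3,[(20,0),
  (0,0),(11,1),(0,3)]⟩ ⟨0,[(35,0)]⟩),.k,(.r (-1) ⟨1,[(4,0),(15,1),(18,0)]⟩ ⟨21,[(2,14),(2,4),(0,4),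
  (1,10),(12,6),(19,2)]⟩),.k,⟨true,0,⟨0,[]⟩,⟨3,[(8,0),(27,1),(6,0)]⟩⟩,⟨false,0,⟨0,[(16,0),(5,1),(2,
  0)]⟩,⟨5,[(1,1),(2,3),(6,1),(9,0),(1,9),(9,1),(6,0)]⟩⟩,⟨true,(-1),⟨0,[(2,0),(35,0)]⟩,⟨0,[(20,0)]⟩⟩,
  ⟨false,(-1),⟨0,[(0,1),(1,0),(4,0),(4,0),(1,0)]⟩,⟨1,[(1,1),(16,1),(1,0),(2,1),(16,0)]⟩⟩,⟨false,0,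
  ⟨6,[(2,4),(2,2),(0,2),(14,1),(16,2)]⟩,⟨0,[(1,1),(5,0),(1,0),(6,1),(5,1),(13,1)]⟩⟩,⟨true,(-1),⟨1,
  [(2,0),(0,1),(3,0),(0,0),(0,0),(6,1),(5,1)]⟩,⟨1,[(1,1),(2,0),(4,0),(6,0),(3,0),(2,1),(4,0),(7,
  0)]⟩⟩,[]⟩))) (.Q [0,0,0,0,0,-1,0,0,0,1,0,-1] (.p false [0,0,0,1] [1] (⟨0,[(21,0)]⟩,⟨0,[(20,0)]⟩)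
  .k 1 (⟨0,[]⟩,⟨0,[]⟩) .k .k) (.R ⟨1,false,false,true,[1,0,0,-1],[1,0,-1],[1,1,0,0,0,0,0,0,-1],(⟨0,
  [(21,0)]⟩,⟨0,[(22,0)]⟩),(⟨0,[(30,0)]⟩,⟨0,[(31,0)]⟩),⟨0,[(0,0)]⟩,.k,.k,(.x (-1) ⟨3,[(19,0),(0,0),
  (11,1),(0,3)]⟩ ⟨0,[(34,0)]⟩),.k,(.r (-1) ⟨7,[(8,3),(10,6),(0,2),(19,1)]⟩ ⟨0,[(2,0),(12,0),(6,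
  0)]⟩),.k,⟨false,1,⟨13,[(1,11),(6,5),(7,1),(3,4),(19,2)]⟩,⟨0,[(2,0),(0,0),(18,0),(4,0)]⟩⟩,⟨true,0,
  ⟨0,[(21,0),(2,0)]⟩,⟨0,[(15,0),(6,0)]⟩⟩,⟨false,0,⟨0,[]⟩,⟨3,[(19,0),(0,0),(19,1)]⟩⟩,⟨false,0,⟨0,[(2,
  0),(35,0)]⟩,⟨7,[(1,3),(1,1),(0,1),(12,3),(4,7),(9,0),(6,1),(0,0)]⟩⟩,⟨true,0,⟨0,[(37,0)]⟩,⟨0,[(38,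
  0)]⟩⟩,⟨false,0,⟨0,[(2,0)]⟩,⟨1,[(17,1),(1,0),(2,1),(16,0)]⟩⟩,[.o ⟨false,0,⟨0,[(23,0)]⟩,⟨7,[(18,3),
  (0,0),(0,0),(11,1),(7,3)]⟩⟩,.o ⟨false,1,⟨5,[(9,1),(9,0),(0,0),(5,1),(5,1)]⟩,⟨2,[(10,0),(6,0),(7,
  0)]⟩⟩,.o ⟨false,1,⟨1,[(22,1),(9,0),(6,0)]⟩,⟨0,[(15,0),(5,0),(2,0)]⟩⟩,.a ⟨true,0,⟨0,[(22,0)]⟩,⟨0,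
  [(21,0)]⟩⟩ ⟨false,1,⟨1,[(19,0),(19,0)]⟩,⟨0,[(2,0),(14,0),(4,0)]⟩⟩ ⟨true,0,⟨0,[(21,0),(1,0)]⟩,⟨2,
  [(10,0),(6,0),(4,2),(2,0)]⟩⟩]⟩) (.R ⟨0,false,false,true,[1,0,0,-1],[1,0,-1],[0,0,0,-1,0,0,0,0,-1],
  (⟨0,[(21,0)]⟩,⟨0,[(22,0)]⟩),(⟨0,[(30,0)]⟩,⟨0,[(31,0)]⟩),⟨0,[(0,0)]⟩,.k,.k,(.x (-1) ⟨3,[(19,0),(0,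
  0),(11,1),(0,3)]⟩ ⟨0,[(34,0)]⟩),.k,.k,.k,⟨false,1,⟨7,[(8,3),(10,4),(0,0),(19,5)]⟩,⟨0,[(2,0),(12,
  0),(6,0),(13,0)]⟩⟩,⟨true,0,⟨0,[(21,0),(2,0)]⟩,⟨0,[(15,0),(6,0)]⟩⟩,⟨true,0,⟨0,[(38,0)]⟩,⟨0,[(37,
  0)]⟩⟩,⟨false,0,⟨0,[(2,0),(35,0)]⟩,⟨7,[(1,3),(1,1),(0,1),(12,3),(4,7),(9,0),(6,1),(0,0)]⟩⟩,⟨false,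
  0,⟨0,[]⟩,⟨0,[]⟩⟩,⟨false,0,⟨0,[]⟩,⟨0,[]⟩⟩,[.o ⟨false,0,⟨0,[(23,0)]⟩,⟨7,[(18,3),(0,0),(0,0),(11,1),
  (7,3)]⟩⟩,.o ⟨false,1,⟨5,[(9,1),(9,0),(0,0),(5,1),(5,1)]⟩,⟨2,[(10,0),(6,0),(7,0)]⟩⟩,.o ⟨false,1,⟨1,
  [(22,1),(9,0),(6,0)]⟩,⟨0,[(15,0),(5,0),(2,0)]⟩⟩,.a ⟨true,0,⟨0,[(22,0)]⟩,⟨0,[(21,0)]⟩⟩ ⟨false,1,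
  ⟨11,[(3,7),(15,6),(0,0),(14,3),(4,3)]⟩,⟨8,[(2,6),(3,0),(1,0),(1,3),(6,0),(2,0),(1,6),(4,1)]⟩⟩
  ⟨true,0,⟨0,[(21,0),(1,0)]⟩,⟨2,[(10,0),(6,0),(4,2),(2,0)]⟩⟩]⟩))))))) (.Q [0,1,-1,-2,-1,0,0,0,-1,-1,
  0,1] (.p true [0,0,0,1] [1] (⟨0,[(16,0)]⟩,⟨0,[(15,0)]⟩) .k 1 (⟨0,[]⟩,⟨0,[]⟩) .k .k) (.Q [0,-1,1,1,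
  1,0,0,0,1,1,0,-1] (.p false [0,0,0,1] [1] (⟨0,[(17,0)]⟩,⟨0,[(16,0)]⟩) .k 1 (⟨0,[]⟩,⟨0,[]⟩) .k .k)
  (.R ⟨1,true,false,false,[1,-1],[0,0,0,1],[0,0,-1,-2],(⟨0,[(29,0)]⟩,⟨0,[(30,0)]⟩),(⟨0,[(18,0)]⟩,⟨0,
  [(17,0)]⟩),⟨0,[(7,0),(1,0)]⟩,.k,.k,(.r 0 ⟨0,[(2,0),(31,0)]⟩ ⟨3,[(3,3),(11,0),(0,0),(19,1)]⟩),(.x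
  (-1) ⟨3,[(15,0),(0,0),(11,1),(0,3)]⟩ ⟨0,[(30,0)]⟩),(.r 0 ⟨2,[(1,0),(0,2),(12,0),(1,0),(13,0)]⟩ ⟨1,
  [(3,1),(12,0),(19,0)]⟩),.k,⟨false,0,⟨2,[(1,0),(0,2),(12,0),(1,0),(13,0)]⟩,⟨2,[(0,0),(2,0),(2,1),
  (1,0),(7,0),(1,0)]⟩⟩,⟨true,0,⟨0,[(17,0)]⟩,⟨0,[(11,0),(6,0),(1,0)]⟩⟩,⟨true,0,⟨0,[(34,0)]⟩,⟨0,[(33,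
  0)]⟩⟩,⟨false,1,⟨0,[(0,0)]⟩,⟨9,[(1,7),(4,3),(1,1),(6,0),(2,1),(16,0),(0,3)]⟩⟩,⟨false,1,⟨3,[(15,0),
  (0,0),(19,1)]⟩,⟨0,[]⟩⟩,⟨true,1,⟨0,[(0,0),(32,0)]⟩,⟨0,[(1,0)]⟩⟩,[]⟩) (.I [0,-1,2,1,0,0,0,0,-1] (.R
  ⟨1,true,false,false,[1,-1],[1,0,0,-1],[1,1,-1,-1],(⟨0,[(30,0)]⟩,⟨0,[(31,0)]⟩),(⟨0,[(18,0)]⟩,⟨0,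
  [(19,0)]⟩),⟨0,[(8,0),(1,0)]⟩,.k,.k,(.r 0 ⟨0,[(3,0),(31,0)]⟩ ⟨3,[(4,3),(11,0),(0,0),(19,1)]⟩),(.r
  (-1) ⟨3,[(3,1),(12,0),(0,2),(17,1)]⟩ ⟨16,[(0,9),(0,2),(5,0),(1,0),(1,0),(4,1),(1,2),(15,6)]⟩),(.r
  (-1) ⟨3,[(3,3),(12,0),(0,2),(17,3)]⟩ ⟨0,[(0,0),(33,0)]⟩),.k,⟨true,0,⟨0,[(1,0),(15,0),(0,0)]⟩,⟨0,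
  [(0,0)]⟩⟩,⟨false,1,⟨3,[(3,2),(3,0),(1,0),(1,0),(7,3),(16,2)]⟩,⟨0,[(18,0),(2,0),(2,0)]⟩⟩,⟨false,0,
  ⟨0,[]⟩,⟨3,[(16,0),(0,0),(19,1)]⟩⟩,⟨true,0,⟨0,[(1,0),(4,0),(4,1)]⟩,⟨1,[(4,0),(0,0),(6,1),(4,0),(0,
  1),(1,1),(11,1)]⟩⟩,⟨true,0,⟨0,[(34,0)]⟩,⟨0,[(35,0)]⟩⟩,⟨false,1,⟨0,[(1,0),(7,0),(1,1),(25,0)]⟩,⟨0,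
  [(1,0),(10,0),(4,0),(0,1),(2,0),(10,0)]⟩⟩,[]⟩) (.Q [0,-1,-1,0,0,0,0,0,-1,0,0,1] (.p true [0,0,0,
  1] [] (⟨0,[(19,0)]⟩,⟨0,[(18,0)]⟩) .k 0 (⟨0,[]⟩,⟨0,[]⟩) .k .k) (.R ⟨1,false,false,true,[1,0,-1],[0,
  0,0,1],[1,1,0,0,0,0,0,0,1],(⟨0,[(28,0)]⟩,⟨0,[(29,0)]⟩),(⟨0,[(20,0)]⟩,⟨0,[(19,0)]⟩),⟨0,[(9,0)]⟩,.k,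
  .k,.k,.k,(.r 0 ⟨10,[(0,3),(2,4),(0,0),(2,3),(5,10),(3,0),(1,8),(4,2)]⟩ ⟨7,[(5,3),(11,0),(0,4),(8,
  7),(10,1)]⟩),.k,⟨true,0,⟨0,[]⟩,⟨3,[(5,0),(27,1),(6,0)]⟩⟩,⟨false,0,⟨0,[(13,0),(5,0)]⟩,⟨35,[(0,7),
  (5,7),(3,15),(3,15),(2,6),(0,10),(1,27),(5,3),(3,9)]⟩⟩,⟨true,0,⟨1,[(5,0),(0,0),(11,0)]⟩,⟨1,[(0,0),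
  (1,0),(7,0),(8,1),(5,1)]⟩⟩,⟨true,0,⟨1,[(5,0),(0,0),(11,0),(0,1),(5,1)]⟩,⟨1,[(0,0),(1,0),(7,0)]⟩⟩,
  ⟨false,1,⟨7,[(5,3),(8,7),(2,0),(0,4),(19,1)]⟩,⟨1,[(0,0),(1,0),(4,0),(5,0),(5,1),(5,0),(7,0)]⟩⟩,
  ⟨true,0,⟨0,[(1,0),(3,0),(2,0),(10,0),(13,0)]⟩,⟨17,[(0,5),(2,9),(3,5),(2,1),(6,0),(2,1),(3,1),(12,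
  0)]⟩⟩,[.a ⟨true,0,⟨0,[(1,0),(3,0),(13,0),(13,0)]⟩,⟨0,[(0,0)]⟩⟩ ⟨false,1,⟨1,[(18,0),(18,0),(2,1)]⟩,
  ⟨0,[(0,0),(12,0),(5,0),(2,0)]⟩⟩ ⟨true,0,⟨0,[(1,0),(3,0),(7,0),(5,0),(13,0)]⟩,⟨0,[(0,0),(21,0)]⟩⟩,
  .o ⟨false,1,⟨3,[(5,0),(12,1),(0,3),(10,1),(2,1),(6,0)]⟩,⟨2,[(0,1),(1,0),(27,0),(4,0)]⟩⟩,.o ⟨false,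
  1,⟨31,[(6,3),(3,7),(3,7),(2,6),(0,6),(7,15),(3,11),(7,1)]⟩,⟨0,[(13,0)]⟩⟩,.o ⟨false,0,⟨0,[(22,0)]⟩,
  ⟨0,[(25,0),(11,0)]⟩⟩]⟩) (.K ⟨0,[0,0,0,1],0,0,(⟨0,[(20,0)]⟩,⟨0,[(19,0)]⟩),.k,(.r (-1) ⟨5,[(1,3),
  (15,1),(0,2),(14,1),(4,0)]⟩ ⟨0,[(2,0),(2,0),(13,0),(18,0)]⟩),(.x 0 ⟨0,[(32,0)]⟩ ⟨3,[(17,0),(0,0),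
  (11,1),(0,3)]⟩),.k,.k,[⟨0,[(20,0)]⟩,⟨0,[(19,0)]⟩,⟨3,[(2,1),(9,1),(4,0),(2,1),(3,1),(12,0)]⟩,⟨0,
  [(0,0)]⟩]⟩)))) (.Q [0,-1,1,1,0,0,0,0,1,1,0,-1] (.p false [0,0,0,1] [1] (⟨0,[(17,0)]⟩,⟨0,[(16,
  0)]⟩) .k 1 (⟨0,[]⟩,⟨0,[]⟩) .k .k) (.R ⟨1,true,false,false,[1,-1],[0,0,0,1],[0,0,-1,-2],(⟨0,[(29,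
  0)]⟩,⟨0,[(30,0)]⟩),(⟨0,[(18,0)]⟩,⟨0,[(17,0)]⟩),⟨0,[(7,0),(1,0)]⟩,.k,.k,(.r 0 ⟨0,[(2,0),(31,0)]⟩
  ⟨3,[(3,3),(11,0),(0,0),(19,1)]⟩),(.x (-1) ⟨3,[(15,0),(0,0),(11,1),(0,3)]⟩ ⟨0,[(30,0)]⟩),(.r (-1)
  ⟨3,[(2,3),(12,2),(0,0),(17,3)]⟩ ⟨35,[(0,33),(2,8),(0,0),(1,21),(9,0),(1,33),(0,23),(0,9),(2,
  11)]⟩),.k,⟨false,1,⟨3,[(2,3),(12,2),(0,0),(17,3)]⟩,⟨0,[(0,0),(5,0),(11,0),(0,0)]⟩⟩,⟨true,0,⟨0,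
  [(17,0)]⟩,⟨0,[(11,0),(6,0),(1,0)]⟩⟩,⟨true,0,⟨0,[(34,0)]⟩,⟨0,[(33,0)]⟩⟩,⟨false,0,⟨0,[(0,0)]⟩,⟨1,
  [(2,0),(12,0),(2,1),(9,0),(5,0)]⟩⟩,⟨false,1,⟨3,[(15,0),(0,0),(19,1)]⟩,⟨0,[]⟩⟩,⟨true,0,⟨0,[(0,0),
  (32,0)]⟩,⟨1,[(2,0),(1,0),(6,0),(3,0),(2,1),(0,1),(3,0),(7,0)]⟩⟩,[]⟩) (.Q [0,-1,1,1,1,0,-1,-1,1,0,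
  1,-1] (.p true [0,0,1] [0,0,0,1] (⟨0,[(27,0)]⟩,⟨0,[(26,0)]⟩) .k 2 (⟨0,[(18,0)]⟩,⟨0,[(17,0)]⟩) .k
  (.x (-1) ⟨0,[(23,0),(3,0),(7,0)]⟩ ⟨0,[(20,0),(5,0)]⟩)) (.Q [0,1,-1,0,0,0,0,0,-1,0,0,1] (.p true
  [0,0,0,1] [] (⟨0,[(19,0)]⟩,⟨0,[(18,0)]⟩) .k 0 (⟨0,[]⟩,⟨0,[]⟩) .k .k) (.Q [0,1,1,0,0,0,0,0,1,0,0,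
  -1] (.p false [0,0,0,1] [] (⟨0,[(20,0)]⟩,⟨0,[(19,0)]⟩) .k 0 (⟨0,[]⟩,⟨0,[]⟩) .k .k) (.K ⟨0,[0,0,0,
  1],0,0,(⟨0,[(21,0)]⟩,⟨0,[(20,0)]⟩),.k,(.x 0 ⟨17,[(0,1),(2,1),(2,5),(3,8),(1,8),(10,6),(2,6),(7,
  9)]⟩ ⟨0,[(33,0),(4,0)]⟩),(.x 0 ⟨0,[(33,0)]⟩ ⟨3,[(18,0),(0,0),(11,1),(0,3)]⟩),.k,.k,[⟨0,[(21,0)]⟩,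
  ⟨0,[(20,0)]⟩,⟨0,[(1,0)]⟩,⟨0,[(0,0)]⟩]⟩) (.Q [0,1,1,0,0,0,0,0,1,1,0,-1] (.p false [0,0,0,1] [1]
  (⟨0,[(21,0)]⟩,⟨0,[(20,0)]⟩) .k 1 (⟨0,[]⟩,⟨0,[]⟩) .k .k) (.R ⟨1,false,false,true,[1,0,-1],[0,0,0,
  1],[1,1,0,0,0,0,0,0,1],(⟨0,[(30,0)]⟩,⟨0,[(31,0)]⟩),(⟨0,[(22,0)]⟩,⟨0,[(21,0)]⟩),⟨0,[(11,0)]⟩,.k,.k,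
  .k,.k,(.r 0 ⟨3,[(1,2),(2,0),(1,0),(8,3),(5,3),(1,2),(2,0),(8,1)]⟩ ⟨7,[(7,3),(11,0),(0,4),(8,7),
  (10,1)]⟩),.k,⟨true,0,⟨0,[]⟩,⟨10,[(0,0),(3,0),(2,2),(27,4)]⟩⟩,⟨false,0,⟨0,[(15,0),(5,0)]⟩,⟨9,[(2,
  3),(5,1),(3,3),(3,3),(3,1),(1,5),(5,1),(3,2),(7,2)]⟩⟩,⟨true,0,⟨1,[(7,0),(0,0),(11,0)]⟩,⟨0,[(1,0),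
  (19,0),(1,0),(3,0)]⟩⟩,⟨true,0,⟨2,[(0,2),(9,0),(6,0),(7,0)]⟩,⟨0,[(1,0),(21,0)]⟩⟩,⟨false,1,⟨15,[(2,
  3),(2,5),(1,1),(8,5),(3,6),(1,1),(6,9),(2,2)]⟩,⟨0,[(1,0),(13,0),(5,0),(1,0),(11,0)]⟩⟩,⟨true,0,⟨0,
  [(0,0),(9,0)]⟩,⟨3,[(1,2),(2,0),(1,0),(16,2),(2,0),(8,1)]⟩⟩,[.a ⟨true,0,⟨0,[(0,0)]⟩,⟨0,[(1,0)]⟩⟩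
  ⟨false,1,⟨1,[(20,0),(18,0),(2,1)]⟩,⟨0,[(1,0),(13,0),(5,0),(2,0)]⟩⟩ ⟨true,0,⟨0,[(0,0),(14,0)]⟩,⟨0,
  [(1,0),(22,0)]⟩⟩,.o ⟨false,1,⟨1,[(0,1),(31,0),(7,0)]⟩,⟨13,[(1,10),(2,2),(3,0),(1,4),(4,3),(7,6),
  (0,1),(7,0)]⟩⟩,.o ⟨false,1,⟨31,[(8,3),(3,7),(3,7),(2,6),(0,6),(7,15),(3,11),(7,1)]⟩,⟨0,[(15,0)]⟩⟩,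
  .o ⟨false,0,⟨0,[(24,0)]⟩,⟨0,[(27,0),(11,0)]⟩⟩]⟩) (.R ⟨1,true,false,false,[1,-1],[1,0,0,-1],[1,1,
  -1,-1],(⟨0,[(33,0)]⟩,⟨0,[(34,0)]⟩),(⟨0,[(21,0)]⟩,⟨0,[(22,0)]⟩),⟨0,[(11,0),(1,0)]⟩,.k,.k,(.r 0 ⟨0,
  [(6,0),(31,0)]⟩ ⟨3,[(7,3),(11,0),(0,0),(19,1)]⟩),(.x 0 ⟨5,[(7,1),(3,2),(1,2),(9,0),(0,1),(0,0),(1,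
  1),(7,3)]⟩ ⟨0,[(34,0),(4,0)]⟩),(.r (-1) ⟨3,[(6,3),(12,0),(0,2),(17,3)]⟩ ⟨10,[(0,9),(3,0),(2,13),
  (13,10),(13,4)]⟩),.k,⟨true,0,⟨0,[(3,0),(4,0),(6,1),(6,0),(3,0)]⟩,⟨0,[(0,0),(6,0),(13,0),(13,0)]⟩⟩,
  ⟨false,1,⟨3,[(1,2),(0,0),(3,1),(13,1),(16,1),(1,1)]⟩,⟨0,[(21,0),(2,0),(2,0)]⟩⟩,⟨false,0,⟨0,[]⟩,⟨3,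
  [(19,0),(0,0),(19,1)]⟩⟩,⟨true,0,⟨0,[(1,0),(35,0)]⟩,⟨0,[(3,0),(4,0),(17,0),(0,1)]⟩⟩,⟨true,0,⟨0,
  [(37,0)]⟩,⟨0,[(38,0)]⟩⟩,⟨false,1,⟨0,[(0,0),(1,0),(2,0)]⟩,⟨0,[(3,0),(4,0),(6,0),(10,0),(0,0),(7,
  0)]⟩⟩,[]⟩))) (.Q [0,0,-1,-1,0,0,1,1,-1,0,-1,1] (.p false [0,0,1] [0,0,0,1] (⟨0,[(29,0)]⟩,⟨0,[(28,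
  0)]⟩) .k 2 (⟨0,[(20,0)]⟩,⟨0,[(19,0)]⟩) .k (.x (-1) ⟨0,[(25,0),(3,0),(7,0)]⟩ ⟨0,[(22,0),(5,0)]⟩))
  (.R ⟨1,true,false,false,[0,0,1],[0,0,0,1],[0,1,0,-1,0,0,0,1],(⟨0,[(30,0)]⟩,⟨0,[(29,0)]⟩),(⟨0,[(21,
  0)]⟩,⟨0,[(20,0)]⟩),⟨0,[(12,0)]⟩,.k,.k,.k,.k,(.x 0 ⟨0,[(12,0),(1,0)]⟩ ⟨31,[(7,3),(3,7),(3,7),(2,6),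
  (0,6),(7,15),(1,31),(1,11),(1,31),(5,1)]⟩),.k,⟨false,0,⟨1,[(7,0),(10,0),(22,0)]⟩,⟨1,[(1,0),(2,0),
  (0,0),(5,0),(2,1),(6,1)]⟩⟩,⟨true,0,⟨0,[(20,0),(2,0)]⟩,⟨0,[(14,0),(6,0)]⟩⟩,⟨false,0,⟨0,[(37,0)]⟩,
  ⟨9,[(4,1),(4,3),(1,1),(6,0),(2,1),(16,0),(0,3)]⟩⟩,⟨true,0,⟨0,[(1,0),(23,0)]⟩,⟨0,[(0,0),(35,0)]⟩⟩,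
  ⟨true,0,⟨0,[(41,0)]⟩,⟨0,[]⟩⟩,⟨false,1,⟨0,[(2,0)]⟩,⟨0,[(0,0)]⟩⟩,[]⟩) (.Q [0,0,0,0,0,-1,0,0,0,1,0,
  -1] (.p false [0,0,0,1] [1] (⟨0,[(21,0)]⟩,⟨0,[(20,0)]⟩) .k 1 (⟨0,[]⟩,⟨0,[]⟩) .k .k) (.R ⟨1,false,
  false,true,[1,0,0,-1],[1,0,-1],[1,1,0,0,0,0,0,0,-1],(⟨0,[(21,0)]⟩,⟨0,[(22,0)]⟩),(⟨0,[(30,0)]⟩,⟨0,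
  [(31,0)]⟩),⟨0,[(0,0)]⟩,.k,.k,(.x (-1) ⟨3,[(19,0),(0,0),(11,1),(0,3)]⟩ ⟨0,[(34,0)]⟩),.k,(.r (-1)
  ⟨7,[(8,3),(10,6),(0,2),(19,1)]⟩ ⟨0,[(1,0),(13,0),(6,0)]⟩),.k,⟨false,1,⟨3,[(16,3),(2,2),(0,0)]⟩,⟨1,
  [(1,0),(0,0),(3,0),(8,1),(6,1),(3,0)]⟩⟩,⟨true,0,⟨0,[(21,0),(2,0)]⟩,⟨0,[(15,0),(6,0)]⟩⟩,⟨false,0,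
  ⟨0,[]⟩,⟨3,[(19,0),(0,0),(19,1)]⟩⟩,⟨false,0,⟨0,[(2,0),(23,0)]⟩,⟨4,[(4,0),(1,1),(3,2),(7,0),(0,1),
  (2,3),(17,2)]⟩⟩,⟨true,0,⟨0,[(37,0)]⟩,⟨0,[(38,0)]⟩⟩,⟨false,0,⟨0,[(1,0)]⟩,⟨1,[(17,1),(1,0),(2,1),
  (16,0)]⟩⟩,[.o ⟨false,0,⟨0,[(23,0)]⟩,⟨7,[(18,3),(0,0),(0,0),(11,1),(7,3)]⟩⟩,.o ⟨false,1,⟨5,[(9,1),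
  (9,0),(0,0),(5,1),(5,1)]⟩,⟨2,[(10,0),(6,0),(7,0)]⟩⟩,.o ⟨false,1,⟨1,[(22,1),(9,0),(6,0)]⟩,⟨0,[(15,
  0),(5,0),(2,0)]⟩⟩,.a ⟨true,0,⟨0,[(22,0)]⟩,⟨0,[(21,0)]⟩⟩ ⟨false,1,⟨1,[(19,0),(19,0)]⟩,⟨0,[(2,0),
  (19,0)]⟩⟩ ⟨true,0,⟨0,[(21,0),(1,0)]⟩,⟨2,[(10,0),(6,0),(4,2),(2,0)]⟩⟩]⟩) (.R ⟨0,false,false,false,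
  [1,0,0,-1],[0,1],[1,0,1],(⟨0,[(21,0)]⟩,⟨0,[(22,0)]⟩),(⟨0,[(34,0)]⟩,⟨0,[(33,0)]⟩),⟨0,[(0,0)]⟩,.k,
  .k,(.x (-1) ⟨3,[(19,0),(0,0),(11,1),(0,3)]⟩ ⟨0,[(34,0)]⟩),(.x (-1) ⟨3,[(19,0),(0,0),(11,1),(0,
  3)]⟩ ⟨0,[(34,0)]⟩),.k,.k,⟨false,0,⟨1,[(6,0),(31,0)]⟩,⟨15,[(5,3),(1,3),(11,2),(0,0),(1,3),(9,1),(6,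
  5)]⟩⟩,⟨true,0,⟨0,[(21,0)]⟩,⟨0,[(15,0),(6,0),(1,0)]⟩⟩,⟨false,0,⟨0,[(2,0),(19,0)]⟩,⟨1,[(19,0),(19,
  0)]⟩⟩,⟨true,0,⟨1,[(1,1),(16,0),(2,0),(0,0)]⟩,⟨0,[(4,0)]⟩⟩,⟨false,0,⟨0,[]⟩,⟨0,[]⟩⟩,⟨false,0,⟨0,[]⟩,
  ⟨0,[]⟩⟩,[.o ⟨false,1,⟨15,[(5,3),(1,3),(11,2),(0,0),(1,3),(9,1),(6,5)]⟩,⟨0,[(17,0),(5,0)]⟩⟩,.o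
  ⟨false,1,⟨9,[(5,1),(4,3),(1,1),(6,0),(2,1),(16,0),(0,3)]⟩,⟨4,[(8,0),(14,2),(1,0),(1,1),(4,0),(5,
  2)]⟩⟩,.o ⟨false,1,⟨1,[(22,1),(9,0),(6,0)]⟩,⟨0,[(15,0),(5,0),(2,0)]⟩⟩,.a ⟨true,0,⟨0,[(22,0)]⟩,⟨0,
  [(21,0)]⟩⟩ ⟨true,0,⟨0,[]⟩,⟨0,[(42,0)]⟩⟩ ⟨false,1,⟨5,[(5,1),(0,0),(3,0),(1,0),(1,0),(4,0),(1,3),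
  (18,1)]⟩,⟨0,[(17,0),(4,0),(0,0)]⟩⟩]⟩)))) (.R ⟨1,true,false,false,[0,0,1],[0,0,0,1],[0,0,0,-1,0,0,
  0,1],(⟨0,[(28,0)]⟩,⟨0,[(27,0)]⟩),(⟨0,[(19,0)]⟩,⟨0,[(18,0)]⟩),⟨0,[(10,0)]⟩,.k,.k,.k,.k,(.r 0 ⟨9,
  [(0,3),(4,3),(0,1),(0,1),(8,2),(1,3),(2,1),(15,2)]⟩ ⟨2,[(2,0),(6,0),(2,0),(4,0),(1,0),(3,0),(0,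
  1)]⟩),.k,⟨false,0,⟨9,[(0,3),(4,3),(0,1),(0,1),(8,2),(1,3),(2,1),(15,2)]⟩,⟨3,[(2,1),(0,0),(5,0),(2,
  3),(4,0),(1,1),(0,0),(2,0)]⟩⟩,⟨true,0,⟨0,[(18,0),(2,0)]⟩,⟨0,[(12,0),(6,0)]⟩⟩,⟨true,0,⟨0,[(35,0)]⟩,
  ⟨0,[(34,0)]⟩⟩,⟨false,1,⟨4,[(2,2),(0,0),(2,0),(7,0),(2,0),(0,1),(1,3),(11,3)]⟩,⟨9,[(0,7),(6,3),(1,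
  1),(1,1),(4,0),(2,1),(16,0),(0,3)]⟩⟩,⟨false,1,⟨3,[(16,0),(0,0),(19,1)]⟩,⟨0,[]⟩⟩,⟨true,1,⟨31,[(2,
  13),(1,3),(4,5),(7,8),(0,17),(1,19),(8,2),(2,9)]⟩,⟨0,[(0,0)]⟩⟩,[]⟩))))) (.I [1,0,0,0,0,0,0,0,1]
  (.I [1,0,0,1,0,0,0,0,1] (.Q [0,0,-1,-1,0,0,1,1,-1,0,-1,1] (.p false [0,0,1] [0,0,0,1] (⟨0,[(26,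
  0)]⟩,⟨0,[(25,0)]⟩) .k 2 (⟨0,[(17,0)]⟩,⟨0,[(16,0)]⟩) .k (.x (-1) ⟨0,[(22,0),(3,0),(7,0)]⟩ ⟨0,[(19,
  0),(5,0)]⟩)) (.R ⟨1,true,false,true,[0,0,1],[0,0,0,1],[0,0,0,-1,0,0,0,1],(⟨0,[(27,0)]⟩,⟨0,[(26,
  0)]⟩),(⟨0,[(18,0)]⟩,⟨0,[(17,0)]⟩),⟨0,[(9,0)]⟩,.k,.k,.k,.k,(.x 0 ⟨0,[(9,0),(1,0)]⟩ ⟨31,[(4,3),(3,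
  7),(3,7),(2,6),(0,6),(7,15),(1,31),(1,11),(1,31),(5,1)]⟩),.k,⟨false,1,⟨7,[(4,3),(10,4),(0,0),(19,
  5)]⟩,⟨0,[(1,0),(9,0),(10,0)]⟩⟩,⟨true,0,⟨0,[(17,0),(2,0)]⟩,⟨0,[(11,0),(6,0)]⟩⟩,⟨true,0,⟨0,[(34,
  0)]⟩,⟨0,[(33,0)]⟩⟩,⟨false,0,⟨0,[(1,0),(15,0),(1,0),(11,0)]⟩,⟨3,[(0,1),(5,1),(8,0),(2,1),(16,0),(0,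
  1)]⟩⟩,⟨false,1,⟨3,[(15,0),(0,0),(19,1)]⟩,⟨0,[]⟩⟩,⟨true,0,⟨1,[(1,1),(15,1),(1,1),(3,0),(0,0)]⟩,⟨0,
  [(0,0)]⟩⟩,[]⟩) (.Q [0,0,0,0,0,-1,0,0,0,1,0,-1] (.p false [0,0,0,1] [1] (⟨0,[(18,0)]⟩,⟨0,[(17,
  0)]⟩) .k 1 (⟨0,[]⟩,⟨0,[]⟩) .k .k) (.R ⟨1,false,false,true,[1,0,0,-1],[1,0,-1],[1,1,0,0,0,0,0,0,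
  -1],(⟨0,[(18,0)]⟩,⟨0,[(19,0)]⟩),(⟨0,[(27,0)]⟩,⟨0,[(28,0)]⟩),⟨0,[(0,0)]⟩,.k,.k,(.x (-1) ⟨3,[(16,0),
  (0,0),(11,1),(0,3)]⟩ ⟨0,[(31,0)]⟩),.k,(.r (-1) ⟨7,[(5,3),(10,6),(0,2),(19,1)]⟩ ⟨0,[(1,0),(10,0),
  (6,0)]⟩),.k,⟨false,1,⟨3,[(13,3),(2,2),(0,0)]⟩,⟨2,[(1,1),(1,0),(0,0),(7,2),(6,1),(3,0)]⟩⟩,⟨true,0,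
  ⟨0,[(18,0),(2,0)]⟩,⟨0,[(12,0),(6,0)]⟩⟩,⟨false,0,⟨0,[]⟩,⟨3,[(16,0),(0,0),(19,1)]⟩⟩,⟨false,0,⟨0,[(1,
  0),(33,0)]⟩,⟨15,[(4,5),(2,11),(7,1),(0,7),(2,15),(9,0),(6,1),(0,4)]⟩⟩,⟨true,0,⟨0,[(34,0)]⟩,⟨0,
  [(35,0)]⟩⟩,⟨false,0,⟨0,[(1,0)]⟩,⟨3,[(4,1),(10,1),(0,1),(2,3),(9,0),(7,0)]⟩⟩,[.o ⟨false,0,⟨0,[(20,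
  0)]⟩,⟨7,[(15,3),(0,0),(0,0),(11,1),(7,3)]⟩⟩,.o ⟨false,1,⟨5,[(6,1),(9,0),(0,0),(5,1),(5,1)]⟩,⟨2,
  [(7,0),(6,0),(7,0)]⟩⟩,.o ⟨false,1,⟨1,[(19,1),(9,0),(6,0)]⟩,⟨0,[(12,0),(5,0),(2,0)]⟩⟩,.a ⟨true,0,
  ⟨0,[(19,0)]⟩,⟨0,[(18,0)]⟩⟩ ⟨false,1,⟨1,[(16,0),(19,0)]⟩,⟨0,[(1,0),(2,0),(2,0),(0,1),(1,1),(1,1),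
  (6,0),(1,1),(9,3)]⟩⟩ ⟨true,0,⟨0,[(18,0),(1,0)]⟩,⟨2,[(7,0),(6,0),(4,2),(2,0)]⟩⟩]⟩) (.R ⟨0,false,
  false,true,[1,0,0,-1],[0,1],[0,0,0,-1,0,0,0,0,-1],(⟨0,[(18,0)]⟩,⟨0,[(19,0)]⟩),(⟨0,[(31,0)]⟩,⟨0,
  [(30,0)]⟩),⟨0,[(0,0)]⟩,.k,.k,(.x (-1) ⟨3,[(16,0),(0,0),(11,1),(0,3)]⟩ ⟨0,[(31,0)]⟩),(.x (-1) ⟨3,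
  [(16,0),(0,0),(11,1),(0,3)]⟩ ⟨0,[(31,0)]⟩),.k,.k,⟨false,1,⟨3,[(4,3),(11,2),(0,0)]⟩,⟨1,[(2,1),(21,
  0),(0,0),(8,1)]⟩⟩,⟨true,0,⟨0,[(18,0)]⟩,⟨0,[(12,0),(6,0),(1,0)]⟩⟩,⟨true,0,⟨0,[(35,0)]⟩,⟨0,[(34,
  0)]⟩⟩,⟨false,0,⟨1,[(1,1),(13,0),(2,0),(0,0)]⟩,⟨3,[(0,1),(3,1),(1,0),(0,0),(0,0),(1,0),(3,0),(1,1),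
  (2,1),(9,0)]⟩⟩,⟨false,0,⟨0,[]⟩,⟨0,[]⟩⟩,⟨false,0,⟨0,[]⟩,⟨0,[]⟩⟩,[.o ⟨false,0,⟨0,[(34,0)]⟩,⟨15,[(4,
  3),(11,2),(0,2),(11,7),(2,7),(4,1)]⟩⟩,.o ⟨false,1,⟨2,[(7,0),(1,0),(1,0),(4,0),(0,0)]⟩,⟨0,[(14,0),
  (5,0)]⟩⟩,.o ⟨false,1,⟨1,[(19,1),(9,0),(6,0)]⟩,⟨0,[(12,0),(5,0),(2,0)]⟩⟩,.a ⟨true,0,⟨0,[(19,0)]⟩,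
  ⟨0,[(18,0)]⟩⟩ ⟨false,1,⟨7,[(4,3),(11,4),(0,0),(19,1)]⟩,⟨1,[(2,1),(21,0),(0,0)]⟩⟩ ⟨true,0,⟨0,[(18,
  0),(15,0)]⟩,⟨0,[(14,0),(4,0),(0,0)]⟩⟩]⟩))) (.Q [0,1,-1,0,0,0,0,0,-1,0,0,1] (.p true [0,0,0,1] []
  (⟨0,[(17,0)]⟩,⟨0,[(16,0)]⟩) .k 0 (⟨0,[]⟩,⟨0,[]⟩) .k .k) (.K ⟨0,[0,0,0,1],0,0,(⟨0,[(18,0)]⟩,⟨0,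
  [(17,0)]⟩),.k,(.r 0 ⟨7,[(2,5),(0,2),(0,0),(6,1),(4,0),(5,1)]⟩ ⟨11,[(6,3),(1,3),(1,3),(4,6),(0,0),
  (6,5),(0,5)]⟩),(.x 0 ⟨0,[(30,0)]⟩ ⟨3,[(15,0),(0,0),(11,1),(0,3)]⟩),.k,.k,[⟨0,[(18,0)]⟩,⟨0,[(17,
  0)]⟩,⟨0,[(0,0)]⟩,⟨1,[(2,1),(14,1),(1,0),(0,0),(0,0),(1,0)]⟩]⟩) (.R ⟨2,true,false,true,[0,1],[1,0,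
  0,-1],[1,1,1,1],(⟨0,[]⟩,⟨0,[]⟩),(⟨0,[(17,0)]⟩,⟨0,[(18,0)]⟩),⟨0,[]⟩,.k,.k,.k,(.x 0 ⟨0,[(30,0)]⟩ ⟨3,
  [(15,0),(0,0),(11,1),(0,3)]⟩),.k,.k,⟨true,0,⟨0,[(0,0),(17,0),(14,0)]⟩,⟨0,[(1,0)]⟩⟩,⟨false,1,⟨1,
  [(18,1),(9,0),(6,0)]⟩,⟨0,[(17,0)]⟩⟩,⟨false,0,⟨0,[]⟩,⟨3,[(15,0),(0,0),(19,1)]⟩⟩,⟨true,0,⟨3,[(1,1),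
  (1,0),(0,0),(1,1),(4,1),(3,0),(2,3),(0,3)]⟩,⟨0,[(0,0),(9,0),(11,0)]⟩⟩,⟨true,0,⟨0,[(33,0)]⟩,⟨0,
  [(34,0)]⟩⟩,⟨false,1,⟨7,[(3,2),(2,4),(1,0),(6,3),(2,7),(0,2),(8,1),(6,0)]⟩,⟨0,[(0,0),(16,0),(0,
  0)]⟩⟩,[]⟩))) (.I [0,0,2,2,0,0,0,0,-1] (.Q [0,-1,1,1,1,0,0,0,1,1,0,-1] (.p false [0,0,0,1] [1] (⟨0,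
  [(17,0)]⟩,⟨0,[(16,0)]⟩) .k 1 (⟨0,[]⟩,⟨0,[]⟩) .k .k) (.Q [0,1,-1,-2,-1,0,0,0,-1,-1,0,1] (.p true
  [0,0,0,1] [1] (⟨0,[(18,0)]⟩,⟨0,[(17,0)]⟩) .k 1 (⟨0,[]⟩,⟨0,[]⟩) .k .k) (.R ⟨1,true,false,false,[1,
  -1],[0,0,0,1],[0,0,-1,-2],(⟨0,[(30,0)]⟩,⟨0,[(31,0)]⟩),(⟨0,[(19,0)]⟩,⟨0,[(18,0)]⟩),⟨0,[(8,0),(1,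
  0)]⟩,.k,.k,(.r 0 ⟨0,[(4,0),(34,0)]⟩ ⟨3,[(2,3),(13,0),(0,2)]⟩),(.x (-1) ⟨3,[(16,0),(0,0),(11,1),(0,
  3)]⟩ ⟨0,[(31,0)]⟩),(.r 0 ⟨2,[(0,0),(3,1),(11,0),(1,0),(14,0)]⟩ ⟨0,[(2,0),(14,0)]⟩),.k,⟨false,0,⟨2,
  [(0,0),(3,1),(11,0),(1,0),(14,0)]⟩,⟨0,[(1,0),(5,0),(11,0),(0,0)]⟩⟩,⟨true,0,⟨0,[(18,0)]⟩,⟨0,[(12,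
  0),(6,0),(1,0)]⟩⟩,⟨true,0,⟨0,[(35,0)]⟩,⟨0,[(34,0)]⟩⟩,⟨false,1,⟨0,[(1,0)]⟩,⟨9,[(0,7),(6,3),(1,1),
  (6,0),(2,1),(16,0),(0,3)]⟩⟩,⟨false,1,⟨3,[(16,0),(0,0),(19,1)]⟩,⟨0,[]⟩⟩,⟨true,1,⟨0,[(1,0),(32,0)]⟩,
  ⟨0,[(0,0)]⟩⟩,[]⟩) (.Q [0,1,1,0,0,0,0,0,1,0,0,-1] (.p false [0,0,0,1] [] (⟨0,[(19,0)]⟩,⟨0,[(18,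
  0)]⟩) .k 0 (⟨0,[]⟩,⟨0,[]⟩) .k .k) (.K ⟨0,[0,0,0,1],0,0,(⟨0,[(20,0)]⟩,⟨0,[(19,0)]⟩),.k,(.r (-1) ⟨3,
  [(5,1),(11,0),(0,2),(21,1)]⟩ ⟨1,[(3,0),(0,0)]⟩),(.x 0 ⟨0,[(32,0)]⟩ ⟨3,[(17,0),(0,0),(11,1),(0,
  3)]⟩),.k,.k,[⟨0,[(20,0)]⟩,⟨0,[(19,0)]⟩,⟨0,[(4,0),(15,0),(13,0)]⟩,⟨0,[(0,0)]⟩]⟩) (.Q [0,1,-1,-1,-1,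
  0,1,1,-1,0,-1,1] (.p false [0,0,1] [0,0,0,1] (⟨0,[(29,0)]⟩,⟨0,[(28,0)]⟩) .k 2 (⟨0,[(20,0)]⟩,⟨0,
  [(19,0)]⟩) .k (.r 0 ⟨3,[(3,1),(2,1),(10,0),(20,0)]⟩ ⟨17,[(2,3),(2,1),(1,3),(5,11),(4,6),(1,3),(3,
  9),(0,5),(11,2)]⟩)) (.R ⟨1,true,false,false,[0,0,1],[0,0,0,1],[0,0,0,-1,0,0,0,1],(⟨0,[(30,0)]⟩,⟨0,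
  [(29,0)]⟩),(⟨0,[(21,0)]⟩,⟨0,[(20,0)]⟩),⟨0,[(12,0)]⟩,.k,.k,.k,.k,(.r 0 ⟨7,[(4,1),(1,1),(0,3),(10,
  2),(20,0)]⟩ ⟨2,[(2,0),(8,0),(2,0),(4,0),(1,0),(3,0),(0,1)]⟩),.k,⟨false,0,⟨7,[(4,1),(1,1),(0,3),
  (10,2),(20,0)]⟩,⟨3,[(2,1),(3,0),(4,0),(2,3),(4,0),(1,1),(0,0),(2,0),(10,0)]⟩⟩,⟨true,0,⟨0,[(20,0),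
  (2,0)]⟩,⟨0,[(14,0),(6,0)]⟩⟩,⟨true,0,⟨0,[(37,0)]⟩,⟨0,[(36,0)]⟩⟩,⟨false,1,⟨2,[(2,0),(0,1),(2,0),(15,
  2),(11,1)]⟩,⟨13,[(0,4),(0,4),(7,4),(7,1),(0,1),(2,3),(9,0),(6,1)]⟩⟩,⟨false,1,⟨3,[(18,0),(0,0),(19,
  1)]⟩,⟨0,[]⟩⟩,⟨true,1,⟨0,[(3,0),(18,0)]⟩,⟨0,[(0,0)]⟩⟩,[]⟩) (.Q [0,0,0,0,0,-1,0,0,0,1,0,-1] (.p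
  false [0,0,0,1] [1] (⟨0,[(21,0)]⟩,⟨0,[(20,0)]⟩) .k 1 (⟨0,[]⟩,⟨0,[]⟩) .k .k) (.R ⟨1,false,false,
  true,[1,0,0,-1],[1,0,-1],[1,1,0,0,0,0,0,0,-1],(⟨0,[(21,0)]⟩,⟨0,[(22,0)]⟩),(⟨0,[(30,0)]⟩,⟨0,[(31,
  0)]⟩),⟨0,[(0,0)]⟩,.k,.k,(.x (-1) ⟨3,[(19,0),(0,0),(11,1),(0,3)]⟩ ⟨0,[(34,0)]⟩),.k,(.r 0 ⟨7,[(5,1),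
  (1,1),(0,3),(10,2),(20,0)]⟩ ⟨2,[(3,0),(8,0),(2,0),(4,0),(1,0),(3,0),(0,1)]⟩),.k,⟨false,0,⟨0,[(6,
  0),(9,0)]⟩,⟨17,[(4,3),(2,1),(1,3),(5,11),(4,6),(1,3),(3,9),(0,5),(11,2)]⟩⟩,⟨true,0,⟨0,[(21,0),(2,
  0)]⟩,⟨0,[(15,0),(6,0)]⟩⟩,⟨false,0,⟨0,[]⟩,⟨3,[(19,0),(0,0),(19,1)]⟩⟩,⟨false,1,⟨3,[(1,1),(18,0),(0,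
  1),(4,1),(5,0),(2,1),(6,1)]⟩,⟨2,[(2,2),(7,0),(6,0),(7,0)]⟩⟩,⟨true,0,⟨0,[(37,0)]⟩,⟨0,[(38,0)]⟩⟩,
  ⟨false,1,⟨0,[(1,0),(40,0)]⟩,⟨7,[(2,5),(4,0),(0,0),(8,3),(1,0),(2,1),(2,1),(1,1)]⟩⟩,[.o ⟨false,0,
  ⟨0,[(23,0)]⟩,⟨7,[(18,3),(0,0),(0,0),(11,1),(7,3)]⟩⟩,.o ⟨false,1,⟨5,[(9,1),(9,0),(0,0),(5,1),(5,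
  1)]⟩,⟨2,[(10,0),(6,0),(7,0)]⟩⟩,.o ⟨false,1,⟨1,[(22,1),(9,0),(6,0)]⟩,⟨0,[(15,0),(5,0),(2,0)]⟩⟩,.a
  ⟨true,0,⟨0,[(22,0)]⟩,⟨0,[(21,0)]⟩⟩ ⟨false,0,⟨4,[(2,1),(3,2),(0,0),(2,1),(10,1),(1,1),(12,0)]⟩,⟨15,
  [(5,3),(13,0),(0,10),(14,7),(4,3)]⟩⟩ ⟨true,0,⟨0,[(21,0),(1,0)]⟩,⟨2,[(10,0),(6,0),(4,2),(2,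
  0)]⟩⟩]⟩) (.R ⟨0,false,false,true,[1,0,0,-1],[1,0,-1],[0,0,0,-1,0,0,0,0,-1],(⟨0,[(21,0)]⟩,⟨0,[(22,
  0)]⟩),(⟨0,[(30,0)]⟩,⟨0,[(31,0)]⟩),⟨0,[(0,0)]⟩,.k,.k,(.x (-1) ⟨3,[(19,0),(0,0),(11,1),(0,3)]⟩ ⟨0,
  [(34,0)]⟩),.k,.k,.k,⟨false,0,⟨7,[(5,5),(1,5),(0,3),(10,0),(20,2)]⟩,⟨11,[(3,1),(8,1),(2,7),(4,4),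
  (1,1),(3,7),(0,3),(9,5),(1,2)]⟩⟩,⟨true,0,⟨0,[(21,0),(2,0)]⟩,⟨0,[(15,0),(6,0)]⟩⟩,⟨true,0,⟨0,[(38,
  0)]⟩,⟨0,[(37,0)]⟩⟩,⟨false,1,⟨3,[(1,1),(18,0),(0,1),(4,1),(5,0),(2,1),(6,1)]⟩,⟨2,[(2,2),(7,0),(6,
  0),(7,0)]⟩⟩,⟨false,0,⟨0,[]⟩,⟨0,[]⟩⟩,⟨false,0,⟨0,[]⟩,⟨0,[]⟩⟩,[.o ⟨false,0,⟨0,[(23,0)]⟩,⟨7,[(18,3),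
  (0,0),(0,0),(11,1),(7,3)]⟩⟩,.o ⟨false,1,⟨5,[(9,1),(9,0),(0,0),(5,1),(5,1)]⟩,⟨2,[(10,0),(6,0),(7,
  0)]⟩⟩,.o ⟨false,1,⟨1,[(22,1),(9,0),(6,0)]⟩,⟨0,[(15,0),(5,0),(2,0)]⟩⟩,.a ⟨true,0,⟨0,[(22,0)]⟩,⟨0,
  [(21,0)]⟩⟩ ⟨false,0,⟨1,[(5,0),(0,0),(0,1)]⟩,⟨7,[(5,3),(13,0),(0,6)]⟩⟩ ⟨true,0,⟨0,[(21,0),(1,0)]⟩,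
  ⟨2,[(10,0),(6,0),(4,2),(2,0)]⟩⟩]⟩))))) (.I [0,0,1,0,-1,0,0,0,-2] (.Q [0,0,0,0,0,-1,0,0,0,0,0,1]
  (.p true [0,0,0,1] [] (⟨0,[(19,0)]⟩,⟨0,[(18,0)]⟩) .k 0 (⟨0,[]⟩,⟨0,[]⟩) .k .k) (.R ⟨1,true,false,
  true,[0,0,0,1],[1,0,0,-1],[1,1,0,0,0,0,0,0,1],(⟨0,[(20,0)]⟩,⟨0,[(19,0)]⟩),(⟨0,[(19,0)]⟩,⟨0,[(20,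
  0)]⟩),⟨0,[(0,0)]⟩,.k,.k,(.r (-1) ⟨3,[(5,1),(11,0),(0,2),(21,1)]⟩ ⟨11,[(1,1),(1,5),(13,0),(19,
  0)]⟩),.k,(.r (-1) ⟨1,[(5,0),(12,1),(21,0)]⟩ ⟨3,[(1,1),(1,1),(13,0),(19,0)]⟩),.k,⟨true,1,⟨0,[(18,
  0)]⟩,⟨0,[(1,0)]⟩⟩,⟨false,1,⟨3,[(2,1),(2,1),(2,3),(1,1),(7,0),(1,5),(16,2)]⟩,⟨0,[(19,1),(2,0),(2,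
  0)]⟩⟩,⟨false,0,⟨0,[]⟩,⟨3,[(17,0),(0,0),(19,1)]⟩⟩,⟨true,(-1),⟨0,[(2,1),(4,0),(4,1)]⟩,⟨0,[(18,0),(0,
  1),(2,0),(2,0)]⟩⟩,⟨true,0,⟨0,[(35,0)]⟩,⟨0,[(36,0)]⟩⟩,⟨false,0,⟨0,[(2,1),(7,0),(1,1),(25,0)]⟩,⟨0,
  [(13,0),(4,0),(0,1),(2,0),(10,0)]⟩⟩,[]⟩) (.I [0,0,-1,-1,-1,0,0,1,-1] (.R ⟨1,true,false,false,[0,0,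
  1],[0,0,0,1],[1,1,0,0,0,0,0,1],(⟨0,[(30,0)]⟩,⟨0,[(29,0)]⟩),(⟨0,[(21,0)]⟩,⟨0,[(20,0)]⟩),⟨0,[(12,
  0)]⟩,.k,.k,.k,.k,(.r 1 ⟨0,[(0,0)]⟩ ⟨11,[(11,7),(1,3),(4,4),(0,10),(0,3),(0,3),(4,11)]⟩),.k,⟨false,
  (-1),⟨0,[(0,0),(35,0)]⟩,⟨1,[(19,0),(5,1),(0,1),(11,0),(0,1)]⟩⟩,⟨true,0,⟨0,[(20,0),(2,0)]⟩,⟨0,[(14,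
  0),(6,0)]⟩⟩,⟨false,0,⟨0,[]⟩,⟨3,[(18,0),(0,0),(19,1)]⟩⟩,⟨true,1,⟨5,[(11,1),(7,2),(0,5),(1,1),(3,1),
  (0,1),(3,0),(2,1)]⟩,⟨0,[(3,0),(9,0)]⟩⟩,⟨true,0,⟨0,[(36,0)]⟩,⟨0,[(37,0)]⟩⟩,⟨false,2,⟨7,[(4,3),(3,
  3),(9,0),(0,6),(0,7),(10,1),(7,1)]⟩,⟨0,[(0,0),(13,0),(6,0)]⟩⟩,[]⟩) (.Q [0,0,1,2,1,0,0,0,1,1,0,-1]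
  (.p false [0,0,0,1] [1] (⟨0,[(21,0)]⟩,⟨0,[(20,0)]⟩) .k 1 (⟨0,[]⟩,⟨0,[]⟩) .k .k) (.R ⟨1,false,
  false,true,[1,0,0,-1],[0,1],[1,1,0,0,0,0,0,0,-1],(⟨0,[(21,0)]⟩,⟨0,[(22,0)]⟩),(⟨0,[(34,0)]⟩,⟨0,
  [(33,0)]⟩),⟨0,[(2,0),(8,0),(1,0)]⟩,.k,.k,(.x (-1) ⟨3,[(19,0),(0,0),(11,1),(0,3)]⟩ ⟨0,[(34,0)]⟩),
  (.x (-1) ⟨3,[(19,0),(0,0),(11,1),(0,3)]⟩ ⟨0,[(34,0)]⟩),(.r 0 ⟨5,[(4,1),(2,4),(11,1),(1,1),(20,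
  2)]⟩ ⟨0,[(5,0),(14,0)]⟩),.k,⟨false,0,⟨1,[(3,0),(3,0),(28,0),(2,0)]⟩,⟨7,[(5,3),(13,0),(0,6)]⟩⟩,
  ⟨true,0,⟨0,[(21,0)]⟩,⟨0,[(15,0),(6,0),(1,0)]⟩⟩,⟨false,0,⟨0,[]⟩,⟨3,[(19,0),(0,0),(19,1)]⟩⟩,⟨false,
  1,⟨11,[(0,7),(18,0),(0,2),(0,3),(13,3),(6,3)]⟩,⟨0,[(4,0),(35,0)]⟩⟩,⟨true,0,⟨0,[(37,0)]⟩,⟨0,[(38,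
  0)]⟩⟩,⟨false,1,⟨0,[(0,0)]⟩,⟨19,[(4,13),(2,7),(11,2),(2,5),(9,2),(2,9),(4,7)]⟩⟩,[.o ⟨false,0,⟨0,
  [(37,0)]⟩,⟨15,[(7,3),(11,2),(0,2),(11,7),(2,7),(4,1)]⟩⟩,.o ⟨false,1,⟨15,[(0,5),(4,1),(13,1),(2,5),
  (9,2),(6,4)]⟩,⟨0,[(17,0),(5,0)]⟩⟩,.o ⟨false,1,⟨1,[(22,1),(9,0),(6,0)]⟩,⟨1,[(2,1),(8,0),(1,0),(10,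
  0),(2,0)]⟩⟩,.a ⟨true,0,⟨0,[(22,0)]⟩,⟨0,[(21,0)]⟩⟩ ⟨false,0,⟨7,[(3,3),(3,2),(2,0),(1,0),(1,0),(22,
  2),(1,2)]⟩,⟨15,[(5,3),(13,0),(0,10),(14,7),(4,3)]⟩⟩ ⟨true,0,⟨0,[(21,0),(15,0)]⟩,⟨3,[(4,1),(15,0),
  (1,1),(9,0),(2,1)]⟩⟩]⟩) (.R ⟨1,true,false,true,[1,0,0,-1],[0,1],[0,0,0,-1,0,0,0,0,-1],(⟨0,[(21,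
  0)]⟩,⟨0,[(22,0)]⟩),(⟨0,[(34,0)]⟩,⟨0,[(33,0)]⟩),⟨0,[(2,0),(8,0),(1,0)]⟩,.k,.k,(.x (-1) ⟨3,[(19,0),
  (0,0),(11,1),(0,3)]⟩ ⟨0,[(34,0)]⟩),(.x (-1) ⟨3,[(19,0),(0,0),(11,1),(0,3)]⟩ ⟨0,[(34,0)]⟩),(.r 0
  ⟨5,[(4,1),(2,4),(11,1),(1,1),(20,2)]⟩ ⟨0,[(5,0),(14,0)]⟩),.k,⟨false,0,⟨5,[(3,1),(3,5),(11,0),(19,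
  0)]⟩,⟨7,[(5,3),(13,0),(0,6),(16,7)]⟩⟩,⟨true,0,⟨0,[(21,0)]⟩,⟨2,[(0,0),(0,0),(8,0),(11,1),(1,1),(2,
  0)]⟩⟩,⟨true,0,⟨0,[(38,0)]⟩,⟨0,[(37,0)]⟩⟩,⟨false,1,⟨7,[(5,3),(13,0),(0,6),(0,7)]⟩,⟨0,[(4,0),(35,
  0)]⟩⟩,⟨false,1,⟨3,[(19,0),(0,0),(19,1)]⟩,⟨0,[]⟩⟩,⟨true,1,⟨7,[(5,3),(13,0),(0,6),(0,7),(15,7)]⟩,⟨0,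
  [(0,0)]⟩⟩,[]⟩)))) (.Q [0,0,0,0,0,1,0,0,0,-1,0,1] (.p true [0,0,0,1] [1] (⟨0,[(19,0)]⟩,⟨0,[(18,
  0)]⟩) .k 1 (⟨0,[]⟩,⟨0,[]⟩) .k .k) (.R ⟨0,false,false,false,[1,0,0,-1],[0,1],[1,0,1],(⟨0,[(19,0)]⟩,
  ⟨0,[(20,0)]⟩),(⟨0,[(32,0)]⟩,⟨0,[(31,0)]⟩),⟨0,[(0,0)]⟩,.k,.k,(.x (-1) ⟨3,[(17,0),(0,0),(11,1),(0,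
  3)]⟩ ⟨0,[(32,0)]⟩),(.x (-1) ⟨3,[(17,0),(0,0),(11,1),(0,3)]⟩ ⟨0,[(32,0)]⟩),.k,.k,⟨false,0,⟨1,[(5,
  0),(34,0)]⟩,⟨7,[(3,3),(13,0),(0,2),(18,3)]⟩⟩,⟨true,0,⟨0,[(19,0)]⟩,⟨1,[(0,1),(8,0),(1,0),(10,0),(2,
  0)]⟩⟩,⟨false,1,⟨15,[(3,3),(13,0),(0,10),(14,7),(4,3)]⟩,⟨10,[(2,4),(0,5),(1,4),(2,0),(1,0),(1,0),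
  (6,4),(17,3)]⟩⟩,⟨true,1,⟨7,[(3,3),(13,0),(0,6),(0,7)]⟩,⟨0,[(2,0)]⟩⟩,⟨false,0,⟨0,[]⟩,⟨0,[]⟩⟩,
  ⟨false,0,⟨0,[]⟩,⟨0,[]⟩⟩,[.o ⟨false,1,⟨7,[(3,3),(13,0),(0,2),(18,3)]⟩,⟨0,[(15,0),(5,0)]⟩⟩,.o
  ⟨false,1,⟨13,[(1,1),(1,3),(4,1),(1,1),(1,1),(24,2),(0,6)]⟩,⟨4,[(6,0),(14,2),(1,0),(1,1),(4,0),(5,
  2)]⟩⟩,.o ⟨false,1,⟨1,[(20,1),(9,0),(6,0)]⟩,⟨0,[(13,0),(5,0),(2,0)]⟩⟩,.a ⟨true,0,⟨0,[(20,0)]⟩,⟨0,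
  [(19,0)]⟩⟩ ⟨true,0,⟨0,[]⟩,⟨0,[(40,0)]⟩⟩ ⟨false,1,⟨13,[(1,1),(1,3),(4,1),(1,1),(1,1),(6,13),(17,2),
  (0,6)]⟩,⟨3,[(2,1),(15,0),(1,1),(9,0),(2,1)]⟩⟩]⟩) (.R ⟨1,false,false,true,[1,0,0,-1],[0,1],[1,1,0,
  0,0,0,0,0,-1],(⟨0,[(19,0)]⟩,⟨0,[(20,0)]⟩),(⟨0,[(32,0)]⟩,⟨0,[(31,0)]⟩),⟨0,[(0,0)]⟩,.k,.k,(.x (-1)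
  ⟨3,[(17,0),(0,0),(11,1),(0,3)]⟩ ⟨0,[(32,0)]⟩),(.x (-1) ⟨3,[(17,0),(0,0),(11,1),(0,3)]⟩ ⟨0,[(32,
  0)]⟩),(.r 0 ⟨5,[(2,1),(2,4),(11,1),(1,1),(20,2)]⟩ ⟨0,[(3,0),(14,0)]⟩),.k,⟨false,0,⟨3,[(2,1),(0,0),
  (0,0),(0,1),(13,1),(17,1)]⟩,⟨7,[(3,3),(13,0),(0,6)]⟩⟩,⟨true,0,⟨0,[(19,0)]⟩,⟨0,[(13,0),(6,0),(1,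
  0)]⟩⟩,⟨false,0,⟨0,[]⟩,⟨3,[(17,0),(0,0),(19,1)]⟩⟩,⟨false,1,⟨7,[(3,3),(13,0),(0,6),(0,7)]⟩,⟨0,[(2,
  0),(35,0)]⟩⟩,⟨true,0,⟨0,[(35,0)]⟩,⟨0,[(36,0)]⟩⟩,⟨false,1,⟨0,[(1,0),(1,0),(15,0)]⟩,⟨19,[(2,13),(2,
  7),(11,2),(2,5),(9,2),(2,9),(4,7)]⟩⟩,[.o ⟨false,0,⟨0,[(35,0)]⟩,⟨15,[(5,3),(11,2),(0,2),(11,7),(2,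
  7),(4,1)]⟩⟩,.o ⟨false,1,⟨7,[(3,3),(13,0),(0,2),(18,3)]⟩,⟨0,[(15,0),(5,0)]⟩⟩,.o ⟨false,1,⟨1,[(20,
  1),(9,0),(6,0)]⟩,⟨0,[(13,0),(5,0),(2,0)]⟩⟩,.a ⟨true,0,⟨0,[(20,0)]⟩,⟨0,[(19,0)]⟩⟩ ⟨false,0,⟨10,[(2,
  4),(0,5),(1,4),(2,0),(1,0),(1,0),(6,4),(17,3)]⟩,⟨15,[(3,3),(13,0),(0,10),(14,7),(4,3)]⟩⟩ ⟨true,0,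
  ⟨0,[(19,0),(15,0)]⟩,⟨3,[(2,1),(15,0),(1,1),(9,0),(2,1)]⟩⟩]⟩)))) (.Q [0,-1,-1,-1,0,0,0,0,-1,-1,0,
  1] (.p true [0,0,0,1] [1] (⟨0,[(17,0)]⟩,⟨0,[(16,0)]⟩) .k 1 (⟨0,[]⟩,⟨0,[]⟩) .k .k) (.Q [0,1,1,0,0,
  0,0,0,1,0,0,-1] (.p false [0,0,0,1] [] (⟨0,[(18,0)]⟩,⟨0,[(17,0)]⟩) .k 0 (⟨0,[]⟩,⟨0,[]⟩) .k .k)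
  (.I [0,0,1,1,0,0,0,0,-1] (.K ⟨0,[0,0,0,1],0,0,(⟨0,[(20,0)]⟩,⟨0,[(19,0)]⟩),.k,(.r (-1) ⟨7,[(3,3),
  (13,2),(0,4)]⟩ ⟨0,[(0,0)]⟩),(.x 0 ⟨0,[(32,0)]⟩ ⟨3,[(17,0),(0,0),(11,1),(0,3)]⟩),.k,.k,[⟨0,[(20,
  0)]⟩,⟨0,[(19,0)]⟩,⟨0,[(4,0),(15,0),(13,0)]⟩,⟨0,[(1,0)]⟩]⟩) (.K ⟨0,[0,0,0,1],0,0,(⟨0,[(20,0)]⟩,⟨0,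
  [(19,0)]⟩),.k,(.x 0 ⟨1,[(9,0),(1,0),(10,0),(2,1),(0,0)]⟩ ⟨0,[(32,0),(4,0)]⟩),(.x 0 ⟨0,[(32,0)]⟩
  ⟨3,[(17,0),(0,0),(11,1),(0,3)]⟩),.k,.k,[⟨0,[(20,0)]⟩,⟨0,[(19,0)]⟩,⟨0,[(4,0),(15,0),(13,0)]⟩,⟨0,
  [(1,0)]⟩]⟩)) (.Q [0,0,0,0,0,1,0,0,0,-1,0,1] (.p true [0,0,0,1] [1] (⟨0,[(19,0)]⟩,⟨0,[(18,0)]⟩) .k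
  1 (⟨0,[]⟩,⟨0,[]⟩) .k .k) (.R ⟨0,false,false,true,[1,0,0,-1],[0,1],[0,0,0,-1,0,0,0,0,-1],(⟨0,[(19,
  0)]⟩,⟨0,[(20,0)]⟩),(⟨0,[(32,0)]⟩,⟨0,[(31,0)]⟩),⟨0,[(0,0)]⟩,.k,.k,(.x (-1) ⟨3,[(17,0),(0,0),(11,1),
  (0,3)]⟩ ⟨0,[(32,0)]⟩),(.x (-1) ⟨3,[(17,0),(0,0),(11,1),(0,3)]⟩ ⟨0,[(32,0)]⟩),.k,.k,⟨false,0,⟨0,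
  [(4,0),(0,0)]⟩,⟨11,[(8,3),(1,3),(1,3),(4,0),(0,6),(6,5),(0,5),(8,11)]⟩⟩,⟨true,0,⟨0,[(19,0)]⟩,⟨1,
  [(0,1),(8,0),(1,0),(10,0),(2,0)]⟩⟩,⟨true,0,⟨0,[(36,0)]⟩,⟨0,[(35,0)]⟩⟩,⟨false,1,⟨11,[(8,3),(1,3),
  (1,3),(4,0),(0,6),(0,11),(5,5),(0,5)]⟩,⟨0,[(2,0)]⟩⟩,⟨false,0,⟨0,[]⟩,⟨0,[]⟩⟩,⟨false,0,⟨0,[]⟩,⟨0,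
  []⟩⟩,[.o ⟨false,0,⟨0,[(35,0)]⟩,⟨15,[(5,3),(11,2),(0,2),(11,7),(2,7),(4,1)]⟩⟩,.o ⟨false,1,⟨2,[(8,
  0),(1,0),(1,0),(4,0),(0,0)]⟩,⟨0,[(15,0),(5,0)]⟩⟩,.o ⟨false,1,⟨1,[(20,1),(9,0),(6,0)]⟩,⟨0,[(13,0),
  (5,0),(2,0)]⟩⟩,.a ⟨true,0,⟨0,[(20,0)]⟩,⟨0,[(19,0)]⟩⟩ ⟨false,0,⟨0,[(2,0),(16,0)]⟩,⟨11,[(8,3),(1,3),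
  (1,3),(4,0),(0,6),(6,5),(0,5)]⟩⟩ ⟨true,0,⟨0,[(19,0),(15,0)]⟩,⟨19,[(2,4),(0,4),(2,1),(13,14),(0,3),
  (0,6),(2,10),(4,1),(2,0)]⟩⟩]⟩) (.Q [0,0,-1,-1,-1,0,1,1,-1,0,-1,1] (.p false [0,0,1] [0,0,0,1] (⟨0,
  [(29,0)]⟩,⟨0,[(28,0)]⟩) .k 2 (⟨0,[(20,0)]⟩,⟨0,[(19,0)]⟩) .k (.r 0 ⟨0,[(4,0),(22,0)]⟩ ⟨1,[(13,1),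
  (4,0),(5,1),(13,0)]⟩)) (.R ⟨1,true,false,true,[0,0,1],[0,0,0,1],[0,0,0,-1,0,0,0,1],(⟨0,[(30,0)]⟩,
  ⟨0,[(29,0)]⟩),(⟨0,[(21,0)]⟩,⟨0,[(20,0)]⟩),⟨0,[(12,0)]⟩,.k,.k,.k,.k,(.x 0 ⟨0,[(12,0),(1,0)]⟩ ⟨31,
  [(7,3),(3,7),(3,7),(2,6),(0,6),(7,15),(1,31),(1,11),(1,31),(5,1)]⟩),.k,⟨false,0,⟨7,[(2,1),(0,1),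
  (1,3),(1,2),(1,0),(6,0),(3,3),(2,1),(15,2)]⟩,⟨5,[(11,1),(1,1),(0,3),(4,2),(5,3),(0,1),(9,1),(1,
  0)]⟩⟩,⟨true,0,⟨0,[(20,0),(2,0)]⟩,⟨0,[(14,0),(6,0)]⟩⟩,⟨true,0,⟨0,[(37,0)]⟩,⟨0,[(36,0)]⟩⟩,⟨false,1,
  ⟨5,[(11,1),(7,2),(0,5),(1,1),(3,1),(0,1),(3,0),(2,1)]⟩,⟨2,[(2,1),(0,0),(5,0),(7,0)]⟩⟩,⟨false,1,⟨3,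
  [(18,0),(0,0),(19,1)]⟩,⟨0,[]⟩⟩,⟨true,1,⟨5,[(11,1),(7,2),(0,5),(1,1),(3,2),(0,2),(3,0),(4,3)]⟩,⟨0,
  [(0,0)]⟩⟩,[]⟩) (.R ⟨1,false,false,true,[1,0,0,-1],[0,1],[1,1,0,0,0,0,0,0,-1],(⟨0,[(20,0)]⟩,⟨0,
  [(21,0)]⟩),(⟨0,[(33,0)]⟩,⟨0,[(32,0)]⟩),⟨0,[(1,0)]⟩,.k,.k,(.x (-1) ⟨3,[(18,0),(0,0),(11,1),(0,3)]⟩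
  ⟨0,[(33,0)]⟩),(.x (-1) ⟨3,[(18,0),(0,0),(11,1),(0,3)]⟩ ⟨0,[(33,0)]⟩),(.r 0 ⟨3,[(5,1),(0,2),(0,0),
  (6,1),(3,0),(6,1)]⟩ ⟨1,[(0,1),(8,1),(11,1),(4,0),(0,0)]⟩),.k,⟨false,0,⟨4,[(2,0),(2,3),(0,2),(2,0),
  (10,0),(1,0),(12,2)]⟩,⟨7,[(0,5),(8,1),(7,1),(1,0),(1,5),(4,0),(0,0),(3,0)]⟩⟩,⟨true,0,⟨0,[(20,0)]⟩,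
  ⟨0,[(14,0),(6,0),(1,0)]⟩⟩,⟨false,0,⟨0,[]⟩,⟨3,[(18,0),(0,0),(19,1)]⟩⟩,⟨false,1,⟨1,[(0,1),(16,0),(2,
  0),(0,0)]⟩,⟨0,[(3,0)]⟩⟩,⟨true,0,⟨0,[(36,0)]⟩,⟨0,[(37,0)]⟩⟩,⟨false,1,⟨0,[(0,0),(12,0)]⟩,⟨0,[(3,0),
  (33,0)]⟩⟩,[.o ⟨false,0,⟨0,[(36,0)]⟩,⟨15,[(6,3),(11,2),(0,2),(11,7),(2,7),(4,1)]⟩⟩,.o ⟨false,1,⟨2,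
  [(9,0),(1,0),(1,0),(4,0),(0,0)]⟩,⟨0,[(16,0),(5,0)]⟩⟩,.o ⟨false,1,⟨1,[(21,1),(9,0),(6,0)]⟩,⟨0,[(14,
  0),(5,0),(2,0)]⟩⟩,.a ⟨true,0,⟨0,[(21,0)]⟩,⟨0,[(20,0)]⟩⟩ ⟨false,0,⟨4,[(2,1),(2,2),(0,0),(2,1),(10,
  1),(1,1),(12,0)]⟩,⟨1,[(19,0),(6,0),(0,0),(11,0)]⟩⟩ ⟨true,0,⟨0,[(20,0),(15,0)]⟩,⟨19,[(3,4),(0,4),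
  (2,1),(13,14),(0,3),(0,6),(2,10),(4,1),(2,0)]⟩⟩]⟩)))) (.R ⟨1,true,false,true,[1,-1],[0,0,0,1],[1,
  1,-1,-1],(⟨0,[(29,0)]⟩,⟨0,[(30,0)]⟩),(⟨0,[(18,0)]⟩,⟨0,[(17,0)]⟩),⟨0,[(7,0),(1,0)]⟩,.k,.k,(.r 0 ⟨5,
  [(1,1),(1,2),(0,0),(6,1),(3,0),(6,1)]⟩ ⟨5,[(6,3),(1,3),(1,3),(4,0),(0,0),(6,5),(0,5)]⟩),(.x (-1)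
  ⟨3,[(15,0),(0,0),(11,1),(0,3)]⟩ ⟨0,[(30,0)]⟩),(.r 0 ⟨3,[(2,1),(0,2),(0,0),(6,1),(3,0),(6,1)]⟩ ⟨3,
  [(0,1),(5,3),(1,1),(7,0),(1,1),(4,2),(0,2),(11,0)]⟩),.k,⟨false,0,⟨0,[(2,0),(0,0),(29,0)]⟩,⟨11,[(6,
  3),(1,3),(1,3),(4,0),(0,6),(6,5),(0,5)]⟩⟩,⟨true,0,⟨0,[(17,0)]⟩,⟨0,[(11,0),(6,0),(1,0)]⟩⟩,⟨false,0,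
  ⟨0,[]⟩,⟨3,[(15,0),(0,0),(19,1)]⟩⟩,⟨true,0,⟨0,[(0,0)]⟩,⟨11,[(2,11),(0,6),(0,0),(1,3),(4,5),(6,11),
  (0,5),(0,3),(7,0)]⟩⟩,⟨true,0,⟨0,[(33,0)]⟩,⟨0,[(34,0)]⟩⟩,⟨false,1,⟨11,[(0,11),(5,3),(1,3),(1,3),(4,
  0),(0,0),(19,5)]⟩,⟨0,[(2,0),(0,0),(7,0),(6,0),(1,0)]⟩⟩,[]⟩)))))

theorem ok36 : chk (cU (-1) true 3) t36 l23 = true := by decide +kernel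

noncomputable def t37 : Tre :=
  (.I [1,0,-3,-3] (.I [0,0,3,2] (.R ⟨1,true,false,true,[1,-1],[0,1],[1,1,-1,-1],(⟨0,[(28,0)]⟩,⟨0,
  [(29,0)]⟩),(⟨0,[(29,0)]⟩,⟨0,[(28,0)]⟩),⟨0,[(6,0),(1,0)]⟩,.k,.k,(.x 0 ⟨0,[(6,0),(1,0),(10,0),(2,
  0)]⟩ ⟨0,[(29,1),(4,0)]⟩),(.x 0 ⟨0,[(6,0),(1,0),(10,0),(2,0)]⟩ ⟨0,[(29,1),(4,0)]⟩),(.x 0 ⟨1,[(6,2),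
  (1,2),(10,2),(2,2)]⟩ ⟨5,[(1,3),(0,2),(1,2),(0,5),(23,17),(4,2)]⟩),.k,⟨true,0,⟨2,[(1,1)]⟩,⟨0,[(0,
  0)]⟩⟩,⟨false,1,⟨5,[(1,3),(0,5),(31,2),(0,2)]⟩,⟨0,[(19,0),(2,0)]⟩⟩,⟨false,0,⟨0,[]⟩,⟨3,[(14,0),(0,
  0),(19,1)]⟩⟩,⟨true,0,⟨0,[(2,0)]⟩,⟨2,[(1,1),(17,2),(2,2)]⟩⟩,⟨true,0,⟨0,[(32,0)]⟩,⟨0,[(33,0)]⟩⟩,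
  ⟨false,1,⟨3,[(2,5),(24,0),(7,2)]⟩,⟨2,[(1,0),(10,2),(5,2),(11,2)]⟩⟩,[]⟩) (.Q [0,0,0,-2,-1,0,2,2,0,
  1,-2] (.p false [0,0,1] [1,0,-1] (⟨0,[(26,0)]⟩,⟨0,[(25,0)]⟩) .k 2 (⟨0,[(25,0)]⟩,⟨0,[(26,0)]⟩) .k
  (.r 0 ⟨0,[(24,1)]⟩ ⟨2,[(1,1),(1,2),(33,2)]⟩)) (.R ⟨1,true,false,false,[0,0,1],[1,1,-1],[1,0,1,1,0,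
  0,0,-1],(⟨0,[(27,0)]⟩,⟨0,[(26,0)]⟩),(⟨0,[(26,0),(3,0)]⟩,⟨0,[(9,0)]⟩),⟨0,[(9,0)]⟩,.k,.k,.k,(.r 0
  ⟨2,[(2,0),(22,5)]⟩ ⟨2,[(2,0),(1,2),(33,2)]⟩),(.r 0 ⟨2,[(2,1),(22,5)]⟩ ⟨0,[(4,0),(33,0)]⟩),.k,
  ⟨true,0,⟨0,[]⟩,⟨1,[(23,0),(0,0)]⟩⟩,⟨false,1,⟨7,[(2,1),(5,5),(3,11),(11,3),(3,0),(6,0)]⟩,⟨5,[(0,2),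
  (1,1),(0,2),(0,2),(18,5)]⟩⟩,⟨false,1,⟨2,[(2,0),(1,2)]⟩,⟨2,[(2,0),(22,5)]⟩⟩,⟨true,1,⟨0,[(8,0)]⟩,⟨0,
  [(0,0),(32,0)]⟩⟩,⟨true,1,⟨0,[(4,0),(27,0)]⟩,⟨0,[(0,0),(0,0),(1,0),(16,1)]⟩⟩,⟨false,2,⟨3,[(3,1),(4,
  3),(19,0),(7,2)]⟩,⟨0,[(0,0)]⟩⟩,[]⟩) (.I [0,0,1,0,0,0,0,0,1] (.Q [0,-1,-1,-1,0,0,1,1,-1,0,-1,1]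
  (.p false [0,0,1] [0,0,0,1] (⟨0,[(28,0)]⟩,⟨0,[(27,0)]⟩) .k 2 (⟨0,[(19,0)]⟩,⟨0,[(18,0)]⟩) .k (.x
  (-1) ⟨0,[(24,0),(3,0),(7,0)]⟩ ⟨0,[(21,0),(5,0)]⟩)) (.K ⟨0,[0,0,0,1],0,0,(⟨0,[(20,0)]⟩,⟨0,[(19,
  0)]⟩),.k,(.x 0 ⟨1,[(9,0),(1,0),(10,0),(2,1),(0,0)]⟩ ⟨0,[(32,0),(4,0)]⟩),(.x 0 ⟨0,[(32,0)]⟩ ⟨3,
  [(17,0),(0,0),(11,1),(0,3)]⟩),.k,.k,[⟨0,[(20,0)]⟩,⟨0,[(19,0)]⟩,⟨1,[(0,1),(4,0),(15,0),(2,0),(15,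
  0)]⟩,⟨2,[(1,2),(6,0),(6,0),(3,2),(1,2),(1,0)]⟩]⟩) (.Q [0,0,1,2,0,0,0,0,1,1,0,-1] (.p false [0,0,0,
  1] [1] (⟨0,[(20,0)]⟩,⟨0,[(19,0)]⟩) .k 1 (⟨0,[]⟩,⟨0,[]⟩) .k .k) (.Q [0,0,0,0,0,-1,0,0,0,1,0,-1]
  (.p false [0,0,0,1] [1] (⟨0,[(21,0)]⟩,⟨0,[(20,0)]⟩) .k 1 (⟨0,[]⟩,⟨0,[]⟩) .k .k) (.R ⟨1,false,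
  false,true,[1,0,0,-1],[0,1],[0,0,0,-1,0,0,0,0,-1],(⟨0,[(21,0)]⟩,⟨0,[(22,0)]⟩),(⟨0,[(34,0)]⟩,⟨0,
  [(33,0)]⟩),⟨0,[(0,0)]⟩,.k,.k,(.x (-1) ⟨3,[(19,0),(0,0),(11,1),(0,3)]⟩ ⟨0,[(34,0)]⟩),(.x (-1) ⟨3,
  [(19,0),(0,0),(11,1),(0,3)]⟩ ⟨0,[(34,0)]⟩),(.r (-1) ⟨11,[(6,7),(12,8),(0,2)]⟩ ⟨0,[(1,0),(13,0),(6,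
  0),(1,0)]⟩),.k,⟨false,1,⟨5,[(6,3),(12,2),(20,2)]⟩,⟨0,[(2,0),(7,0),(11,0)]⟩⟩,⟨true,0,⟨0,[(21,0)]⟩,
  ⟨0,[(15,0),(6,0),(1,0)]⟩⟩,⟨true,0,⟨0,[(38,0)]⟩,⟨0,[(37,0)]⟩⟩,⟨false,0,⟨1,[(1,0),(1,0),(17,0)]⟩,⟨1,
  [(4,0),(0,0),(9,0),(1,1),(1,0),(2,1),(1,0)]⟩⟩,⟨false,1,⟨3,[(19,0),(0,0),(19,1)]⟩,⟨0,[]⟩⟩,⟨false,0,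
  ⟨0,[(1,0)]⟩,⟨5,[(5,2),(3,0),(7,2),(1,2),(2,5),(0,0),(8,1),(2,2)]⟩⟩,[.o ⟨false,0,⟨0,[(37,0)]⟩,⟨23,
  [(6,3),(12,2),(0,2),(11,11),(2,11),(4,5)]⟩⟩,.o ⟨false,1,⟨3,[(7,1),(11,0),(0,0),(11,0),(7,0)]⟩,⟨0,
  [(17,0),(5,0)]⟩⟩,.o ⟨false,1,⟨1,[(22,1),(9,0),(6,0)]⟩,⟨0,[(15,0),(5,0),(2,0)]⟩⟩,.a ⟨true,0,⟨0,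
  [(22,0)]⟩,⟨0,[(21,0)]⟩⟩ ⟨false,1,⟨5,[(6,1),(12,2),(20,2)]⟩,⟨3,[(1,2),(1,0),(1,0),(9,2),(6,2),(1,
  2)]⟩⟩ ⟨true,0,⟨0,[(21,0),(15,0)]⟩,⟨0,[(17,0),(4,0),(0,0)]⟩⟩]⟩) (.R ⟨0,false,false,true,[1,0,0,-1],
  [0,1],[0,0,0,-1,0,0,0,0,-1],(⟨0,[(21,0)]⟩,⟨0,[(22,0)]⟩),(⟨0,[(34,0)]⟩,⟨0,[(33,0)]⟩),⟨0,[(0,0)]⟩,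
  .k,.k,(.x (-1) ⟨3,[(19,0),(0,0),(11,1),(0,3)]⟩ ⟨0,[(34,0)]⟩),(.x (-1) ⟨3,[(19,0),(0,0),(11,1),(0,
  3)]⟩ ⟨0,[(34,0)]⟩),.k,.k,⟨false,1,⟨5,[(6,3),(12,2),(20,2)]⟩,⟨0,[(2,0),(7,0),(11,0)]⟩⟩,⟨true,0,⟨0,
  [(21,0)]⟩,⟨0,[(15,0),(6,0),(1,0)]⟩⟩,⟨true,0,⟨0,[(38,0)]⟩,⟨0,[(37,0)]⟩⟩,⟨false,0,⟨1,[(1,0),(1,0),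
  (17,0)]⟩,⟨11,[(0,9),(3,2),(0,3),(3,1),(1,4),(1,4),(3,9),(1,5),(2,1),(9,0)]⟩⟩,⟨false,0,⟨0,[]⟩,⟨0,
  []⟩⟩,⟨false,0,⟨0,[]⟩,⟨0,[]⟩⟩,[.o ⟨false,0,⟨0,[(37,0)]⟩,⟨23,[(6,3),(12,2),(0,2),(11,11),(2,11),(4,
  5)]⟩⟩,.o ⟨false,1,⟨3,[(7,1),(11,0),(0,0),(11,0),(7,0)]⟩,⟨0,[(17,0),(5,0)]⟩⟩,.o ⟨false,1,⟨1,[(22,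
  1),(9,0),(6,0)]⟩,⟨0,[(15,0),(5,0),(2,0)]⟩⟩,.a ⟨true,0,⟨0,[(22,0)]⟩,⟨0,[(21,0)]⟩⟩ ⟨false,1,⟨5,[(6,
  1),(12,2),(20,2)]⟩,⟨9,[(0,5),(0,5),(1,3),(1,0),(5,2),(1,2),(1,2),(8,2)]⟩⟩ ⟨true,0,⟨0,[(21,0),(15,
  0)]⟩,⟨0,[(17,0),(4,0),(0,0)]⟩⟩]⟩)) (.K ⟨0,[0,0,0,1],0,0,(⟨0,[(21,0)]⟩,⟨0,[(20,0)]⟩),.k,(.r 0 ⟨0,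
  [(1,0),(2,0),(4,0),(11,0),(12,0)]⟩ ⟨3,[(6,0),(0,0),(9,0),(0,1),(8,1),(3,0)]⟩),(.x 0 ⟨0,[(33,0)]⟩
  ⟨3,[(18,0),(0,0),(11,1),(0,3)]⟩),.k,.k,[⟨0,[(21,0)]⟩,⟨0,[(20,0)]⟩,⟨0,[(0,0),(5,0)]⟩,⟨8,[(1,8),(3,
  0),(10,2),(7,5),(9,2)]⟩]⟩))) (.Q [0,1,1,0,0,0,0,0,1,0,0,-1] (.p false [0,0,0,1] [] (⟨0,[(19,0)]⟩,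
  ⟨0,[(18,0)]⟩) .k 0 (⟨0,[]⟩,⟨0,[]⟩) .k .k) (.K ⟨0,[0,0,0,1],0,0,(⟨0,[(20,0)]⟩,⟨0,[(19,0)]⟩),.k,(.r
  (-1) ⟨11,[(4,3),(12,2),(0,8)]⟩ ⟨0,[(1,0),(3,0),(7,0),(8,0),(10,0)]⟩),(.x 0 ⟨0,[(32,0)]⟩ ⟨3,[(17,
  0),(0,0),(11,1),(0,3)]⟩),.k,.k,[⟨0,[(20,0)]⟩,⟨0,[(19,0)]⟩,⟨0,[(1,0),(18,0),(19,0)]⟩,⟨0,[(0,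
  0)]⟩]⟩) (.Q [0,0,0,0,0,-1,0,0,0,1,0,-1] (.p false [0,0,0,1] [1] (⟨0,[(20,0)]⟩,⟨0,[(19,0)]⟩) .k 1
  (⟨0,[]⟩,⟨0,[]⟩) .k .k) (.R ⟨1,false,false,true,[1,0,0,-1],[0,1],[1,1,0,0,0,0,0,0,-1],(⟨0,[(20,
  0)]⟩,⟨0,[(21,0)]⟩),(⟨0,[(33,0)]⟩,⟨0,[(32,0)]⟩),⟨0,[(0,0)]⟩,.k,.k,(.x (-1) ⟨3,[(18,0),(0,0),(11,1),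
  (0,3)]⟩ ⟨0,[(33,0)]⟩),(.x (-1) ⟨3,[(18,0),(0,0),(11,1),(0,3)]⟩ ⟨0,[(33,0)]⟩),(.r 0 ⟨2,[(2,2),(2,
  0),(31,2)]⟩ ⟨1,[(6,0),(0,0),(9,0),(1,0),(3,1)]⟩),.k,⟨false,0,⟨2,[(2,2),(2,0)]⟩,⟨3,[(6,0),(0,0),(9,
  0),(1,1),(7,1),(3,0)]⟩⟩,⟨true,0,⟨0,[(20,0)]⟩,⟨0,[(14,0),(6,0),(1,0)]⟩⟩,⟨false,0,⟨0,[]⟩,⟨3,[(18,0),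
  (0,0),(19,1)]⟩⟩,⟨false,1,⟨3,[(6,0),(0,0),(9,0),(1,1),(0,3),(6,1),(3,0)]⟩,⟨0,[(1,0),(14,0),(5,
  0)]⟩⟩,⟨true,0,⟨0,[(36,0)]⟩,⟨0,[(37,0)]⟩⟩,⟨false,1,⟨23,[(3,1),(2,7),(0,5),(1,15),(9,11),(0,23),(6,
  11),(3,2),(7,0)]⟩,⟨2,[(1,2),(3,1),(17,2),(2,2)]⟩⟩,[.o ⟨false,0,⟨0,[(36,0)]⟩,⟨23,[(5,3),(12,2),(0,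
  2),(11,11),(2,11),(4,5)]⟩⟩,.o ⟨false,1,⟨3,[(6,1),(11,0),(0,0),(11,0),(7,0)]⟩,⟨0,[(16,0),(5,0)]⟩⟩,
  .o ⟨false,1,⟨1,[(21,1),(9,0),(6,0)]⟩,⟨0,[(14,0),(5,0),(2,0)]⟩⟩,.a ⟨true,0,⟨0,[(21,0)]⟩,⟨0,[(20,
  0)]⟩⟩ ⟨false,0,⟨0,[(2,0)]⟩,⟨11,[(7,1),(9,1),(1,5),(7,3),(3,0),(2,3),(4,2)]⟩⟩ ⟨true,0,⟨0,[(20,0),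
  (15,0)]⟩,⟨0,[(16,0),(4,0),(0,0)]⟩⟩]⟩) (.R ⟨0,false,false,true,[1,0,0,-1],[0,1],[0,0,0,-1,0,0,0,0,
  -1],(⟨0,[(20,0)]⟩,⟨0,[(21,0)]⟩),(⟨0,[(33,0)]⟩,⟨0,[(32,0)]⟩),⟨0,[(0,0)]⟩,.k,.k,(.x (-1) ⟨3,[(18,0),
  (0,0),(11,1),(0,3)]⟩ ⟨0,[(33,0)]⟩),(.x (-1) ⟨3,[(18,0),(0,0),(11,1),(0,3)]⟩ ⟨0,[(33,0)]⟩),.k,.k,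
  ⟨false,0,⟨2,[(1,0),(0,1),(1,1),(9,0),(5,0),(2,0),(10,1)]⟩,⟨3,[(6,2),(0,0),(11,1),(3,0),(0,1),(2,
  0),(3,0)]⟩⟩,⟨true,0,⟨0,[(20,0)]⟩,⟨0,[(14,0),(6,0),(1,0)]⟩⟩,⟨true,0,⟨0,[(37,0)]⟩,⟨0,[(36,0)]⟩⟩,
  ⟨false,1,⟨3,[(6,0),(0,0),(9,0),(1,1),(0,3),(6,1),(3,0)]⟩,⟨0,[(1,0),(14,0),(5,0)]⟩⟩,⟨false,0,⟨0,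
  []⟩,⟨0,[]⟩⟩,⟨false,0,⟨0,[]⟩,⟨0,[]⟩⟩,[.o ⟨false,0,⟨0,[(36,0)]⟩,⟨23,[(5,3),(12,2),(0,2),(11,11),(2,
  11),(4,5)]⟩⟩,.o ⟨false,1,⟨3,[(6,1),(11,0),(0,0),(11,0),(7,0)]⟩,⟨0,[(16,0),(5,0)]⟩⟩,.o ⟨false,1,⟨1,
  [(21,1),(9,0),(6,0)]⟩,⟨0,[(14,0),(5,0),(2,0)]⟩⟩,.a ⟨true,0,⟨0,[(21,0)]⟩,⟨0,[(20,0)]⟩⟩ ⟨false,0,⟨2,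
  [(1,1),(0,0),(1,0),(9,1),(5,1),(2,1),(10,0)]⟩,⟨3,[(6,0),(0,0),(9,0),(1,1),(7,1),(3,0)]⟩⟩ ⟨true,0,
  ⟨0,[(20,0),(15,0)]⟩,⟨0,[(16,0),(4,0),(0,0)]⟩⟩]⟩)))))) (.Q [0,0,0,-2,0,0,-1,-1,0,-1,1] (.p true [0,
  0,1] [1] (⟨0,[(25,0)]⟩,⟨0,[(24,0)]⟩) .k 1 (⟨0,[]⟩,⟨0,[]⟩) .k .k) (.R ⟨1,true,false,false,[1,-1],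
  [0,0,1],[0,1],(⟨0,[(28,0)]⟩,⟨0,[(29,0)]⟩),(⟨0,[(26,0)]⟩,⟨0,[(25,0)]⟩),⟨0,[(6,0),(1,0)]⟩,.k,.k,(.r
  (-1) ⟨0,[(33,1),(0,0)]⟩ ⟨2,[(1,1)]⟩),.k,(.r (-1) ⟨0,[(0,0),(9,0),(5,0),(0,0),(16,0)]⟩ ⟨2,[(1,1),
  (22,2)]⟩),.k,⟨true,0,⟨0,[(10,0),(10,0)]⟩,⟨2,[(1,0),(9,2),(18,2)]⟩⟩,⟨false,1,⟨0,[(10,0),(5,0),(0,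
  0),(16,0)]⟩,⟨0,[(19,0)]⟩⟩,⟨false,0,⟨2,[(1,0)]⟩,⟨1,[(33,1),(0,0),(0,0)]⟩⟩,⟨true,0,⟨0,[(9,0)]⟩,⟨1,
  [(0,0),(17,0),(18,0)]⟩⟩,⟨true,0,⟨2,[(1,0),(30,2)]⟩,⟨0,[(0,0),(9,0),(0,0),(4,0),(0,0)]⟩⟩,⟨false,1,
  ⟨11,[(2,9),(2,3),(7,3),(13,0),(7,10)]⟩,⟨0,[(0,0)]⟩⟩,[]⟩) (.Q [0,0,-1,0,0,0,1,1,-1,0,-1,1] (.p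
  false [0,0,1] [0,0,0,1] (⟨0,[(26,0)]⟩,⟨0,[(25,0)]⟩) .k 2 (⟨0,[(17,0)]⟩,⟨0,[(16,0)]⟩) .k (.x (-1)
  ⟨0,[(22,0),(3,0),(7,0)]⟩ ⟨0,[(19,0),(5,0)]⟩)) (.I [0,0,2,1,0,0,0,-1] (.I [1,1,1,0,0,0,0,0,1] (.Q
  [0,0,1,0,0,0,1,1,1,1,-1,-1] (.p false [0,0,1] [1,0,0,-1] (⟨0,[(29,0)]⟩,⟨0,[(28,0)]⟩) .k 2 (⟨0,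
  [(19,0)]⟩,⟨0,[(20,0)]⟩) .k (.x 0 ⟨0,[(25,0),(3,0)]⟩ ⟨0,[(22,0),(5,0),(8,0)]⟩)) (.I [0,0,1,1,0,0,0,
  0,-1] (.K ⟨0,[0,0,0,1],0,0,(⟨0,[(22,0)]⟩,⟨0,[(21,0)]⟩),.k,(.r (-1) ⟨1,[(20,0),(17,1),(0,0)]⟩ ⟨0,
  [(0,0)]⟩),(.x 0 ⟨0,[(34,0)]⟩ ⟨3,[(19,0),(0,0),(11,1),(0,3)]⟩),.k,.k,[⟨0,[(22,0)]⟩,⟨0,[(21,0)]⟩,⟨0,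
  [(4,0),(21,0)]⟩,⟨0,[(1,0),(21,0)]⟩]⟩) (.K ⟨0,[0,0,0,1],0,0,(⟨0,[(22,0)]⟩,⟨0,[(21,0)]⟩),.k,(.x 0
  ⟨1,[(11,0),(1,0),(10,0),(2,1),(0,0)]⟩ ⟨0,[(34,0),(4,0)]⟩),(.x 0 ⟨0,[(34,0)]⟩ ⟨3,[(19,0),(0,0),(11,
  1),(0,3)]⟩),.k,.k,[⟨0,[(22,0)]⟩,⟨0,[(21,0)]⟩,⟨0,[(4,0),(21,0)]⟩,⟨0,[(1,0),(21,0)]⟩]⟩)) (.R ⟨1,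
  true,false,false,[0,0,1],[1,0,0,-1],[1,1,0,0,0,0,0,1],(⟨0,[(30,0)]⟩,⟨0,[(29,0)]⟩),(⟨0,[(20,0)]⟩,
  ⟨0,[(21,0)]⟩),⟨0,[(12,0)]⟩,.k,.k,.k,.k,(.r (-1) ⟨3,[(15,3),(2,0),(0,2),(17,3)]⟩ ⟨2,[(0,2),(4,0),
  (14,2),(5,2)]⟩),.k,⟨true,0,⟨0,[(1,0),(13,0)]⟩,⟨0,[(0,0),(1,0),(13,0),(3,0)]⟩⟩,⟨false,1,⟨5,[(0,3),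
  (14,3),(3,1),(1,1),(5,1),(3,0),(6,2)]⟩,⟨0,[(20,0),(5,0)]⟩⟩,⟨false,0,⟨0,[]⟩,⟨3,[(18,0),(0,0),(19,
  1)]⟩⟩,⟨true,0,⟨0,[(0,0)]⟩,⟨2,[(1,2),(7,0),(6,0),(3,2),(3,0)]⟩⟩,⟨true,0,⟨0,[(36,0)]⟩,⟨0,[(37,0)]⟩⟩,
  ⟨false,1,⟨13,[(0,9),(2,3),(0,3),(6,5),(19,0),(7,6)]⟩,⟨0,[(1,0),(14,0),(3,0)]⟩⟩,[]⟩)) (.Q [0,0,0,0,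
  0,1,0,0,0,-1,0,1] (.p true [0,0,0,1] [1] (⟨0,[(20,0)]⟩,⟨0,[(19,0)]⟩) .k 1 (⟨0,[]⟩,⟨0,[]⟩) .k .k)
  (.R ⟨0,false,false,true,[1,0,0,-1],[1,0,-1],[0,0,0,-1,0,0,0,0,-1],(⟨0,[(20,0)]⟩,⟨0,[(21,0)]⟩),(⟨0,
  [(29,0)]⟩,⟨0,[(30,0)]⟩),⟨0,[(0,0)]⟩,.k,.k,(.x (-1) ⟨3,[(18,0),(0,0),(11,1),(0,3)]⟩ ⟨0,[(33,0)]⟩),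
  .k,.k,.k,⟨false,0,⟨0,[(1,0),(26,0),(8,0)]⟩,⟨1,[(7,0),(11,0),(15,1),(5,0)]⟩⟩,⟨true,0,⟨0,[(20,0),(2,
  0)]⟩,⟨0,[(14,0),(6,0)]⟩⟩,⟨true,0,⟨0,[(37,0)]⟩,⟨0,[(36,0)]⟩⟩,⟨false,1,⟨9,[(2,1),(8,1),(7,4),(0,9),
  (1,1),(2,1),(1,1),(3,2),(2,3)]⟩,⟨2,[(1,1),(1,0),(5,0),(6,0),(4,1)]⟩⟩,⟨false,0,⟨0,[]⟩,⟨0,[]⟩⟩,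
  ⟨false,0,⟨0,[]⟩,⟨0,[]⟩⟩,[.o ⟨false,0,⟨0,[(22,0)]⟩,⟨7,[(17,3),(0,0),(0,0),(11,1),(7,3)]⟩⟩,.o
  ⟨false,1,⟨5,[(8,1),(9,0),(0,0),(5,1),(5,1)]⟩,⟨2,[(9,0),(6,0),(7,0)]⟩⟩,.o ⟨false,1,⟨1,[(21,1),(9,
  0),(6,0)]⟩,⟨0,[(14,0),(5,0),(2,0)]⟩⟩,.a ⟨true,0,⟨0,[(21,0)]⟩,⟨0,[(20,0)]⟩⟩ ⟨false,0,⟨0,[(1,0),(35,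
  0)]⟩,⟨11,[(5,3),(12,2),(0,8)]⟩⟩ ⟨true,0,⟨0,[(20,0),(1,0)]⟩,⟨2,[(9,0),(6,0),(4,2),(2,0)]⟩⟩]⟩) (.R
  ⟨1,false,false,true,[1,0,0,-1],[0,1],[1,1,0,0,0,0,0,0,-1],(⟨0,[(20,0)]⟩,⟨0,[(21,0)]⟩),(⟨0,[(33,
  0)]⟩,⟨0,[(32,0)]⟩),⟨0,[(0,0)]⟩,.k,.k,(.x (-1) ⟨3,[(18,0),(0,0),(11,1),(0,3)]⟩ ⟨0,[(33,0)]⟩),(.x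
  (-1) ⟨3,[(18,0),(0,0),(11,1),(0,3)]⟩ ⟨0,[(33,0)]⟩),(.r 0 ⟨0,[(1,0),(33,0),(1,1)]⟩ ⟨11,[(5,7),(12,
  2),(0,8)]⟩),.k,⟨false,0,⟨0,[(1,0),(33,0),(1,0)]⟩,⟨11,[(5,3),(12,2),(0,8)]⟩⟩,⟨true,0,⟨0,[(20,0)]⟩,
  ⟨0,[(14,0),(6,0),(1,0)]⟩⟩,⟨false,0,⟨0,[]⟩,⟨3,[(18,0),(0,0),(19,1)]⟩⟩,⟨false,1,⟨11,[(5,3),(12,2),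
  (0,8),(0,11)]⟩,⟨0,[(1,0),(14,0),(4,0),(0,0)]⟩⟩,⟨true,0,⟨0,[(36,0)]⟩,⟨0,[(37,0)]⟩⟩,⟨false,1,⟨29,
  [(4,11),(0,9),(5,5),(6,2),(0,17),(0,29),(10,2)]⟩,⟨0,[(1,0),(14,0),(4,0),(0,0),(14,0)]⟩⟩,[.o
  ⟨false,0,⟨0,[(36,0)]⟩,⟨1,[(31,0),(5,1),(1,0)]⟩⟩,.o ⟨false,1,⟨19,[(4,7),(6,3),(6,6),(0,6),(11,1)]⟩,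
  ⟨0,[(16,0),(5,0)]⟩⟩,.o ⟨false,1,⟨1,[(21,1),(9,0),(6,0)]⟩,⟨0,[(14,0),(5,0),(2,0)]⟩⟩,.a ⟨true,0,⟨0,
  [(21,0)]⟩,⟨0,[(20,0)]⟩⟩ ⟨false,0,⟨0,[(1,0),(39,0)]⟩,⟨23,[(5,3),(12,2),(0,14),(14,11),(4,5)]⟩⟩
  ⟨true,0,⟨0,[(20,0),(15,0)]⟩,⟨0,[(16,0),(4,0),(0,0)]⟩⟩]⟩))) (.I [0,0,-2,-3] (.R ⟨1,true,false,true,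
  [1,-1],[0,1],[0,1,-1,-2],(⟨0,[(31,0)]⟩,⟨0,[(32,0)]⟩),(⟨0,[(32,0)]⟩,⟨0,[(31,0)]⟩),⟨0,[(9,0),(1,
  0)]⟩,.k,.k,(.r (-1) ⟨2,[(0,1),(16,0),(0,0),(18,0)]⟩ ⟨2,[(4,1)]⟩),(.r (-1) ⟨2,[(0,1),(16,0),(0,0),
  (18,0)]⟩ ⟨2,[(4,1)]⟩),(.r (-1) ⟨3,[(0,3),(16,0),(0,0),(18,1)]⟩ ⟨0,[(4,0)]⟩),.k,⟨true,0,⟨0,[(0,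
  0)]⟩,⟨0,[(4,0)]⟩⟩,⟨false,1,⟨1,[(0,1),(2,1),(1,0),(1,0),(29,0)]⟩,⟨0,[(22,0),(2,0)]⟩⟩,⟨false,0,⟨0,
  [(36,0)]⟩,⟨9,[(3,3),(6,1),(6,0),(0,0),(11,0),(7,4)]⟩⟩,⟨true,0,⟨0,[(5,0)]⟩,⟨1,[(0,0),(14,0),(5,0),
  (0,0),(2,0)]⟩⟩,⟨true,0,⟨0,[(40,0)]⟩,⟨0,[]⟩⟩,⟨false,1,⟨5,[(3,3),(1,3),(4,1),(6,0),(0,0),(19,1)]⟩,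
  ⟨0,[(1,0),(11,0),(7,0),(11,1)]⟩⟩,[]⟩) (.Q [0,1,1,0,0,0,0,0,1,0,0,-1] (.p false [0,0,0,1] [] (⟨0,
  [(20,0)]⟩,⟨0,[(19,0)]⟩) .k 0 (⟨0,[]⟩,⟨0,[]⟩) .k .k) (.I [0,0,1,1,0,0,0,0,-1] (.K ⟨0,[0,0,0,1],0,0,
  (⟨0,[(22,0)]⟩,⟨0,[(21,0)]⟩),.k,(.r (-1) ⟨1,[(20,0),(17,1),(0,0)]⟩ ⟨0,[(0,0)]⟩),(.x 0 ⟨0,[(34,0)]⟩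
  ⟨3,[(19,0),(0,0),(11,1),(0,3)]⟩),.k,.k,[⟨0,[(22,0)]⟩,⟨0,[(21,0)]⟩,⟨0,[(4,0),(21,0)]⟩,⟨0,[(1,
  0)]⟩]⟩) (.K ⟨0,[0,0,0,1],0,0,(⟨0,[(22,0)]⟩,⟨0,[(21,0)]⟩),.k,(.x 0 ⟨1,[(11,0),(1,0),(10,0),(2,1),
  (0,0)]⟩ ⟨0,[(34,0),(4,0)]⟩),(.x 0 ⟨0,[(34,0)]⟩ ⟨3,[(19,0),(0,0),(11,1),(0,3)]⟩),.k,.k,[⟨0,[(22,
  0)]⟩,⟨0,[(21,0)]⟩,⟨0,[(4,0),(21,0)]⟩,⟨0,[(1,0)]⟩]⟩)) (.Q [0,0,0,0,0,1,0,0,0,-1,0,1] (.p true [0,0,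
  0,1] [1] (⟨0,[(21,0)]⟩,⟨0,[(20,0)]⟩) .k 1 (⟨0,[]⟩,⟨0,[]⟩) .k .k) (.R ⟨0,false,false,true,[1,0,0,
  -1],[0,1],[0,0,0,-1,0,0,0,0,-1],(⟨0,[(21,0)]⟩,⟨0,[(22,0)]⟩),(⟨0,[(34,0)]⟩,⟨0,[(33,0)]⟩),⟨0,[(0,
  0)]⟩,.k,.k,(.x (-1) ⟨3,[(19,0),(0,0),(11,1),(0,3)]⟩ ⟨0,[(34,0)]⟩),(.x (-1) ⟨3,[(19,0),(0,0),(11,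
  1),(0,3)]⟩ ⟨0,[(34,0)]⟩),.k,.k,⟨false,0,⟨0,[(1,0),(1,0),(11,0),(5,0),(1,0),(11,0)]⟩,⟨23,[(6,7),(0,
  11),(11,2),(0,14),(11,5),(9,11)]⟩⟩,⟨true,0,⟨0,[(21,0)]⟩,⟨0,[(15,0),(6,0),(1,0)]⟩⟩,⟨true,0,⟨0,[(38,
  0)]⟩,⟨0,[(37,0)]⟩⟩,⟨false,1,⟨11,[(6,3),(12,2),(0,8),(0,11)]⟩,⟨0,[(1,0),(15,0),(5,0)]⟩⟩,⟨false,0,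
  ⟨0,[]⟩,⟨0,[]⟩⟩,⟨false,0,⟨0,[]⟩,⟨0,[]⟩⟩,[.o ⟨false,0,⟨0,[(37,0)]⟩,⟨1,[(32,0),(5,1),(1,0)]⟩⟩,.o
  ⟨false,1,⟨2,[(2,0),(16,0),(0,0),(18,0)]⟩,⟨0,[(17,0),(5,0)]⟩⟩,.o ⟨false,1,⟨1,[(22,1),(9,0),(6,0)]⟩,
  ⟨0,[(15,0),(5,0),(2,0)]⟩⟩,.a ⟨true,0,⟨0,[(22,0)]⟩,⟨0,[(21,0)]⟩⟩ ⟨false,0,⟨0,[(1,0),(15,0),(3,0),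
  (1,0)]⟩,⟨11,[(6,3),(12,2),(0,8)]⟩⟩ ⟨true,0,⟨0,[(21,0),(15,0)]⟩,⟨0,[(17,0),(4,0),(0,0)]⟩⟩]⟩) (.R
  ⟨1,false,false,true,[1,0,0,-1],[0,1],[1,1,0,0,0,0,0,0,-1],(⟨0,[(21,0)]⟩,⟨0,[(22,0)]⟩),(⟨0,[(34,
  0)]⟩,⟨0,[(33,0)]⟩),⟨0,[(0,0)]⟩,.k,.k,(.x (-1) ⟨3,[(19,0),(0,0),(11,1),(0,3)]⟩ ⟨0,[(34,0)]⟩),(.x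
  (-1) ⟨3,[(19,0),(0,0),(11,1),(0,3)]⟩ ⟨0,[(34,0)]⟩),(.r 0 ⟨3,[(1,2),(1,1),(0,0),(10,1),(1,0),(3,3),
  (1,3),(14,4)]⟩ ⟨11,[(6,7),(12,2),(0,8)]⟩),.k,⟨false,0,⟨3,[(1,2),(1,1),(0,0),(10,1),(1,0),(3,3),(1,
  3),(14,0)]⟩,⟨11,[(6,3),(12,2),(0,8)]⟩⟩,⟨true,0,⟨0,[(21,0)]⟩,⟨0,[(15,0),(6,0),(1,0)]⟩⟩,⟨false,0,⟨0,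
  []⟩,⟨3,[(19,0),(0,0),(19,1)]⟩⟩,⟨false,1,⟨11,[(6,3),(12,2),(0,8),(0,11)]⟩,⟨0,[(1,0),(15,0),(5,
  0)]⟩⟩,⟨true,0,⟨0,[(37,0)]⟩,⟨0,[(38,0)]⟩⟩,⟨false,1,⟨5,[(2,3),(16,0),(0,3),(0,5),(17,0)]⟩,⟨0,[(1,0),
  (15,0),(5,0),(14,0)]⟩⟩,[.o ⟨false,0,⟨0,[(37,0)]⟩,⟨1,[(32,0),(5,1),(1,0)]⟩⟩,.o ⟨false,1,⟨2,[(2,0),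
  (16,0),(0,0),(18,0)]⟩,⟨0,[(17,0),(5,0)]⟩⟩,.o ⟨false,1,⟨1,[(22,1),(9,0),(6,0)]⟩,⟨0,[(15,0),(5,0),
  (2,0)]⟩⟩,.a ⟨true,0,⟨0,[(22,0)]⟩,⟨0,[(21,0)]⟩⟩ ⟨false,0,⟨2,[(1,1),(2,0),(5,0),(6,0),(3,2),(1,2)]⟩,
  ⟨23,[(6,3),(12,2),(0,14),(14,11),(4,5)]⟩⟩ ⟨true,0,⟨0,[(21,0),(15,0)]⟩,⟨0,[(17,0),(4,0),(0,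
  0)]⟩⟩]⟩))))) (.I [0,0,1,1,0,0,0,-1,1] (.Q [0,0,0,0,0,1,0,0,0,-1,0,1] (.p true [0,0,0,1] [1] (⟨0,
  [(19,0)]⟩,⟨0,[(18,0)]⟩) .k 1 (⟨0,[]⟩,⟨0,[]⟩) .k .k) (.Q [0,-1,-1,-1,1,0,0,0,-1,-1,0,1] (.p true
  [0,0,0,1] [1] (⟨0,[(20,0)]⟩,⟨0,[(19,0)]⟩) .k 1 (⟨0,[]⟩,⟨0,[]⟩) .k .k) (.R ⟨0,false,false,true,[1,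
  0,0,-1],[1,0,-1],[0,0,0,-1,0,0,0,0,-1],(⟨0,[(20,0)]⟩,⟨0,[(21,0)]⟩),(⟨0,[(29,0)]⟩,⟨0,[(30,0)]⟩),⟨0,
  [(1,0)]⟩,.k,.k,(.x (-1) ⟨3,[(18,0),(0,0),(11,1),(0,3)]⟩ ⟨0,[(33,0)]⟩),.k,.k,.k,⟨false,1,⟨3,[(0,1),
  (14,1),(0,1),(1,0),(1,1),(6,1),(10,0)]⟩,⟨0,[(2,0),(32,0)]⟩⟩,⟨true,0,⟨0,[(20,0),(2,0)]⟩,⟨0,[(14,0),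
  (6,0)]⟩⟩,⟨true,0,⟨0,[(37,0)]⟩,⟨0,[(36,0)]⟩⟩,⟨false,0,⟨0,[(3,0)]⟩,⟨0,[(0,0),(12,0)]⟩⟩,⟨false,0,⟨0,
  []⟩,⟨0,[]⟩⟩,⟨false,0,⟨0,[]⟩,⟨0,[]⟩⟩,[.o ⟨false,0,⟨0,[(22,0)]⟩,⟨7,[(17,3),(0,0),(0,0),(11,1),(7,
  3)]⟩⟩,.o ⟨false,1,⟨5,[(8,1),(9,0),(0,0),(5,1),(5,1)]⟩,⟨2,[(9,0),(6,0),(7,0)]⟩⟩,.o ⟨false,1,⟨1,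
  [(21,1),(9,0),(6,0)]⟩,⟨0,[(14,0),(5,0),(2,0)]⟩⟩,.a ⟨true,0,⟨0,[(21,0)]⟩,⟨0,[(20,0)]⟩⟩ ⟨false,1,⟨0,
  [(0,0),(19,0)]⟩,⟨0,[(2,0),(25,0)]⟩⟩ ⟨true,0,⟨0,[(20,0),(1,0)]⟩,⟨2,[(9,0),(6,0),(4,2),(2,0)]⟩⟩]⟩)
  (.K ⟨0,[0,0,0,1],0,(-1),(⟨0,[(21,0)]⟩,⟨0,[(20,0)]⟩),.k,(.r 0 ⟨0,[(0,0),(7,0),(7,1),(4,0),(13,1)]⟩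
  ⟨11,[(5,3),(12,8),(0,2)]⟩),(.x 0 ⟨0,[(33,0)]⟩ ⟨3,[(18,0),(0,0),(11,1),(0,3)]⟩),.k,.k,[⟨0,[(21,
  0)]⟩,⟨0,[(20,0)]⟩,⟨1,[(18,0),(2,1),(16,0),(2,1)]⟩,⟨0,[(0,0),(15,0),(5,0)]⟩]⟩)) (.Q [0,1,1,-1,-1,0,
  0,0,1,0,0,-1] (.p false [0,0,0,1] [] (⟨0,[(20,0)]⟩,⟨0,[(19,0)]⟩) .k 0 (⟨0,[]⟩,⟨0,[]⟩) .k .k) (.Q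
  [0,-1,-1,0,1,0,0,0,-1,0,0,1] (.p true [0,0,0,1] [] (⟨0,[(21,0)]⟩,⟨0,[(20,0)]⟩) .k 0 (⟨0,[]⟩,⟨0,
  []⟩) .k .k) (.R ⟨1,false,false,true,[1,0,0,-1],[1,0,-1],[0,0,0,-1,0,0,0,0,-1],(⟨0,[(21,0)]⟩,⟨0,
  [(22,0)]⟩),(⟨0,[(30,0)]⟩,⟨0,[(31,0)]⟩),⟨0,[(2,0)]⟩,.k,.k,(.x (-1) ⟨3,[(19,0),(0,0),(11,1),(0,3)]⟩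
  ⟨0,[(34,0)]⟩),.k,(.r (-1) ⟨3,[(16,3),(2,2),(0,0),(17,3)]⟩ ⟨0,[(3,0)]⟩),.k,⟨false,1,⟨1,[(16,1),(2,
  0),(18,1),(1,0)]⟩,⟨0,[(3,0),(32,0)]⟩⟩,⟨true,0,⟨0,[(21,0),(2,0)]⟩,⟨0,[(15,0),(6,0)]⟩⟩,⟨true,0,⟨0,
  [(38,0)]⟩,⟨0,[(37,0)]⟩⟩,⟨false,0,⟨0,[(4,0)]⟩,⟨2,[(0,2),(9,0),(6,0),(7,0)]⟩⟩,⟨false,1,⟨3,[(19,0),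
  (0,0),(19,1)]⟩,⟨0,[]⟩⟩,⟨false,0,⟨0,[(1,0),(3,0),(3,0)]⟩,⟨1,[(0,1),(16,0),(7,0),(12,0)]⟩⟩,[.o
  ⟨false,0,⟨0,[(23,0)]⟩,⟨7,[(18,3),(0,0),(0,0),(11,1),(7,3)]⟩⟩,.o ⟨false,1,⟨5,[(9,1),(9,0),(0,0),(5,
  1),(5,1)]⟩,⟨2,[(10,0),(6,0),(7,0)]⟩⟩,.o ⟨false,1,⟨1,[(22,1),(9,0),(6,0)]⟩,⟨0,[(15,0),(5,0),(2,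
  0)]⟩⟩,.a ⟨true,0,⟨0,[(22,0)]⟩,⟨0,[(21,0)]⟩⟩ ⟨false,1,⟨0,[(0,0),(16,0),(3,0),(1,0)]⟩,⟨23,[(1,2),(1,
  14),(2,4),(9,11),(0,2),(2,2),(1,2),(5,2)]⟩⟩ ⟨true,0,⟨0,[(21,0),(1,0)]⟩,⟨2,[(10,0),(6,0),(4,2),(2,
  0)]⟩⟩]⟩) (.K ⟨0,[0,0,0,1],0,(-1),(⟨0,[(22,0)]⟩,⟨0,[(21,0)]⟩),.k,(.r 0 ⟨0,[(0,0),(8,0),(5,0),(0,0),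
  (0,0),(3,0),(0,1),(13,0)]⟩ ⟨11,[(6,3),(12,8),(0,2)]⟩),(.x 0 ⟨0,[(34,0)]⟩ ⟨3,[(19,0),(0,0),(11,1),
  (0,3)]⟩),.k,.k,[⟨0,[(22,0)]⟩,⟨0,[(21,0)]⟩,⟨1,[(19,0),(2,1),(16,0),(2,1)]⟩,⟨0,[(0,0)]⟩]⟩)) (.R ⟨1,
  false,false,true,[1,0,0,-1],[0,1],[1,1,0,0,0,0,0,0,-1],(⟨0,[(20,0)]⟩,⟨0,[(21,0)]⟩),(⟨0,[(33,0)]⟩,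
  ⟨0,[(32,0)]⟩),⟨0,[(1,0)]⟩,.k,.k,(.x (-1) ⟨3,[(18,0),(0,0),(11,1),(0,3)]⟩ ⟨0,[(33,0)]⟩),(.x (-1)
  ⟨3,[(18,0),(0,0),(11,1),(0,3)]⟩ ⟨0,[(33,0)]⟩),(.r (-1) ⟨0,[(0,0),(15,0),(3,0),(1,0),(12,0),(1,
  1)]⟩ ⟨2,[(2,2),(2,0),(22,2)]⟩),.k,⟨false,1,⟨0,[(0,0),(15,0),(3,0),(1,0),(12,0),(1,0)]⟩,⟨0,[(2,0),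
  (25,0)]⟩⟩,⟨true,0,⟨0,[(20,0)]⟩,⟨0,[(14,0),(6,0),(1,0)]⟩⟩,⟨false,0,⟨0,[]⟩,⟨3,[(18,0),(0,0),(19,
  1)]⟩⟩,⟨false,0,⟨0,[(3,0),(9,0)]⟩,⟨0,[(0,0),(15,0),(5,0),(14,0)]⟩⟩,⟨true,0,⟨0,[(36,0)]⟩,⟨0,[(37,
  0)]⟩⟩,⟨false,0,⟨0,[(3,0),(0,0)]⟩,⟨0,[(0,0),(15,0),(5,0),(14,1)]⟩⟩,[.o ⟨false,0,⟨0,[(36,0)]⟩,⟨1,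
  [(31,0),(5,1),(1,0)]⟩⟩,.o ⟨false,1,⟨19,[(4,7),(6,3),(6,6),(0,6),(11,1)]⟩,⟨0,[(16,0),(5,0)]⟩⟩,.o
  ⟨false,1,⟨1,[(21,1),(9,0),(6,0)]⟩,⟨0,[(14,0),(5,0),(2,0)]⟩⟩,.a ⟨true,0,⟨0,[(21,0)]⟩,⟨0,[(20,0)]⟩⟩
  ⟨false,1,⟨1,[(18,0),(19,0)]⟩,⟨0,[(2,0),(12,0),(18,0)]⟩⟩ ⟨true,0,⟨0,[(20,0),(15,0)]⟩,⟨0,[(16,0),(4,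
  0),(0,0)]⟩⟩]⟩))) (.R ⟨1,true,false,false,[0,0,1],[0,0,0,1],[1,1,0,0,0,0,0,1],(⟨0,[(28,0)]⟩,⟨0,
  [(27,0)]⟩),(⟨0,[(19,0)]⟩,⟨0,[(18,0)]⟩),⟨0,[(10,0)]⟩,.k,.k,.k,.k,(.x 0 ⟨0,[(10,0),(1,0)]⟩ ⟨7,[(0,
  1),(8,1),(3,1),(2,0),(0,1),(7,3),(1,7),(1,2),(1,7)]⟩),.k,⟨false,0,⟨0,[(0,0),(33,0)]⟩,⟨1,[(1,1),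
  (10,1),(6,1),(16,0),(0,0)]⟩⟩,⟨true,0,⟨0,[(18,0),(2,0)]⟩,⟨0,[(12,0),(6,0)]⟩⟩,⟨false,0,⟨0,[]⟩,⟨3,
  [(16,0),(0,0),(19,1)]⟩⟩,⟨true,0,⟨0,[(1,0)]⟩,⟨0,[(0,0),(11,0),(6,0),(14,0)]⟩⟩,⟨true,0,⟨0,[(34,0)]⟩,
  ⟨0,[(35,0)]⟩⟩,⟨false,1,⟨23,[(1,17),(0,5),(0,1),(5,5),(7,2),(0,5),(10,2),(7,11)]⟩,⟨0,[(0,0),(11,0),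
  (6,0)]⟩⟩,[]⟩)))))

theorem ok37 : chk (cU (-1) true 3) t37 l24 = true := by decide +kernel

noncomputable def t48 : Tre :=
  (.R ⟨2,true,false,false,[0,1],[0,0,1],[0,0,0,0,0,0,0,1],(⟨0,[]⟩,⟨0,[]⟩),(⟨0,[(16,0)]⟩,⟨0,[(15,
  0)]⟩),⟨0,[]⟩,.k,.k,.k,.k,.k,.k,⟨false,1,⟨3,[(4,0),(0,0),(18,1)]⟩,⟨0,[]⟩⟩,⟨true,0,⟨0,[(12,0)]⟩,⟨0,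
  [(0,0)]⟩⟩,⟨true,0,⟨0,[(0,0),(1,0),(18,0)]⟩,⟨0,[(1,0),(20,0)]⟩⟩,⟨false,0,⟨0,[(2,0)]⟩,⟨0,[(11,0),
  (10,0),(2,0)]⟩⟩,⟨false,1,⟨1,[(14,1),(9,0),(0,0)]⟩,⟨0,[(1,0)]⟩⟩,⟨true,0,⟨0,[(2,0),(19,0)]⟩,⟨0,[(11,
  0)]⟩⟩,[]⟩)

theorem ok48 : chk (cU (-1) true 3) t48 l25 = true := by decide +kernel

noncomputable def t51 : Tre :=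
  (.Q [0,0,0,1,1,0,-2,-2,0,-1,2] (.p true [0,0,1] [1,0,-1] (⟨0,[(19,0)]⟩,⟨0,[(18,0)]⟩) .k 2 (⟨0,
  [(18,0)]⟩,⟨0,[(19,0)]⟩) .k (.r 0 ⟨0,[(17,1)]⟩ ⟨0,[(4,1),(22,0)]⟩)) (.Q [0,0,0,-2,-1,0,2,2,0,1,-2]
  (.p false [0,0,1] [1,0,-1] (⟨0,[(20,0)]⟩,⟨0,[(19,0)]⟩) .k 2 (⟨0,[(19,0)]⟩,⟨0,[(20,0)]⟩) .k (.r 0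
  ⟨0,[(18,1)]⟩ ⟨0,[(5,1),(22,0)]⟩)) (.R ⟨1,true,false,true,[0,0,1],[1,1,-1],[1,0,0,0,0,0,0,1],(⟨0,
  [(21,0)]⟩,⟨0,[(20,0)]⟩),(⟨0,[(20,0),(3,0)]⟩,⟨0,[(2,0)]⟩),⟨0,[(2,0)]⟩,.k,.k,.k,(.r 0 ⟨5,[(0,1),(3,
  7),(13,3),(3,0),(5,1),(0,0)]⟩ ⟨1,[(1,0),(1,0),(2,2),(10,0),(11,0)]⟩),(.r 0 ⟨0,[(4,1),(23,1)]⟩ ⟨0,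
  [(1,0),(1,0),(2,0),(10,0)]⟩),.k,⟨true,0,⟨0,[(4,1),(20,0)]⟩,⟨0,[(6,1),(20,0)]⟩⟩,⟨false,1,⟨0,[(1,0),
  (2,1),(23,0)]⟩,⟨3,[(0,0),(2,1),(1,1),(0,5),(1,0),(20,0)]⟩⟩,⟨true,0,⟨0,[]⟩,⟨0,[(32,0)]⟩⟩,⟨false,1,
  ⟨0,[(1,0)]⟩,⟨1,[(0,0),(7,0),(21,0)]⟩⟩,⟨false,1,⟨5,[(1,1),(1,3),(18,0),(7,2)]⟩,⟨0,[(28,0)]⟩⟩,⟨true,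
  1,⟨0,[(1,0),(25,0)]⟩,⟨0,[(0,0)]⟩⟩,[]⟩) (.Q [0,0,0,0,0,-1,0,0,0,1,-1] (.ed true [0,1,1] .k) (.Q [0,
  0,0,-1,0,0,-1,-1,0,0,1] (.p true [0,0,1] [] (⟨0,[(22,0)]⟩,⟨0,[(21,0)]⟩) .k 0 (⟨0,[]⟩,⟨0,[]⟩) .k
  .k) (.R ⟨2,true,false,false,[0,1],[0,1,1],[0,1,1],(⟨0,[]⟩,⟨0,[]⟩),(⟨0,[(23,0),(2,0)]⟩,⟨0,[(1,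
  0)]⟩),⟨0,[]⟩,.k,.k,.k,.k,.k,.k,⟨false,0,⟨0,[(0,0),(6,0),(20,0)]⟩,⟨1,[(2,0),(7,0),(10,1),(10,0)]⟩⟩,
  ⟨true,0,⟨0,[(7,0)]⟩,⟨0,[(20,0)]⟩⟩,⟨false,0,⟨0,[(30,0)]⟩,⟨1,[(2,0),(7,0),(21,0)]⟩⟩,⟨true,0,⟨2,[(6,
  0),(0,1),(2,0),(5,0)]⟩,⟨0,[(18,0)]⟩⟩,⟨true,0,⟨0,[(34,0)]⟩,⟨0,[]⟩⟩,⟨false,1,⟨1,[(5,1),(18,0),(7,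
  0)]⟩,⟨0,[(0,0)]⟩⟩,[]⟩) (.Q [0,1,0,-1,0,0,-2,-2,0,-1,2] (.p true [0,0,1] [1,0,-1] (⟨0,[(23,0)]⟩,⟨0,
  [(22,0)]⟩) .k 2 (⟨0,[(22,0)]⟩,⟨0,[(23,0)]⟩) .k (.r 0 ⟨0,[(21,1)]⟩ ⟨0,[(8,1),(22,0)]⟩)) (.Q [0,0,1,
  0,0,0,-2,0,0,-1,2] (.p true [0,0,1] [1,0,-1] (⟨0,[(24,0)]⟩,⟨0,[(23,0)]⟩) .k 2 (⟨0,[(23,0)]⟩,⟨0,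
  [(24,0)]⟩) .k (.r 0 ⟨0,[(22,1)]⟩ ⟨0,[(9,1),(22,0)]⟩)) (.R ⟨1,true,false,false,[1,0,-1],[0,0,1],[0,
  0,0,-1,0,0,0,-1],(⟨0,[(24,0)]⟩,⟨0,[(25,0)]⟩),(⟨0,[(25,0)]⟩,⟨0,[(24,0)]⟩),⟨0,[(3,0)]⟩,.k,.k,.k,.k,
  (.r (-1) ⟨1,[(1,1),(7,3),(5,1),(0,1),(16,0),(0,0)]⟩ ⟨1,[(0,1),(1,0),(4,0),(4,0)]⟩),.k,⟨false,1,⟨1,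
  [(1,1),(7,3),(5,1),(0,1),(16,0),(0,0)]⟩,⟨5,[(0,3),(1,2),(4,2),(0,3),(3,0)]⟩⟩,⟨true,0,⟨0,[(9,1),(5,
  0),(0,0)]⟩,⟨0,[(0,0)]⟩⟩,⟨true,0,⟨0,[(32,0)]⟩,⟨0,[(31,0)]⟩⟩,⟨false,0,⟨0,[(7,0),(3,0)]⟩,⟨7,[(1,3),
  (3,3),(7,0),(0,0),(19,1)]⟩⟩,⟨false,1,⟨3,[(13,0),(0,0),(19,1)]⟩,⟨0,[]⟩⟩,⟨true,0,⟨1,[(2,0),(4,0),(4,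
  0)]⟩,⟨0,[(1,0)]⟩⟩,[]⟩) (.Q [0,1,0,2,0,0,0,0,0,1] (.pp false [-1,1]) (.R ⟨1,true,false,true,[1,-1],
  [0,1],[1,1,-1,-1],(⟨0,[(28,0)]⟩,⟨0,[(29,0)]⟩),(⟨0,[(29,0)]⟩,⟨0,[(28,0)]⟩),⟨0,[(4,0),(2,0)]⟩,.k,.k,
  (.r 0 ⟨0,[(1,0),(0,0),(6,1),(20,0)]⟩ ⟨1,[(0,1),(21,1),(0,1),(3,0),(7,0)]⟩),(.r 0 ⟨0,[(1,0),(0,0),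
  (6,1),(20,0)]⟩ ⟨1,[(0,1),(21,1),(0,1),(3,0),(7,0)]⟩),(.r 0 ⟨1,[(1,2),(0,2),(6,5),(20,2)]⟩ ⟨11,[(0,
  9),(2,7),(1,3),(16,17),(0,17),(3,2),(7,4)]⟩),.k,⟨true,0,⟨0,[(1,0),(0,0),(6,1),(20,0)]⟩,⟨0,[(0,0),
  (2,0),(7,0),(7,0),(10,0)]⟩⟩,⟨false,1,⟨4,[(1,2),(0,1),(2,0),(3,5),(6,4),(0,4),(16,2),(0,0)]⟩,⟨0,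
  [(19,0),(2,0)]⟩⟩,⟨false,0,⟨0,[]⟩,⟨3,[(14,0),(0,0),(19,1)]⟩⟩,⟨true,0,⟨0,[(0,0)]⟩,⟨2,[(2,1),(9,3),
  (5,0),(1,0)]⟩⟩,⟨true,0,⟨0,[(32,0)]⟩,⟨0,[(33,0)]⟩⟩,⟨false,1,⟨3,[(0,5),(26,0),(7,2)]⟩,⟨0,[(2,0),(9,
  1)]⟩⟩,[]⟩) (.R ⟨2,true,false,false,[0,1],[1,-1],[0,0,1],(⟨0,[]⟩,⟨0,[]⟩),(⟨0,[(28,0)]⟩,⟨0,[(29,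
  0)]⟩),⟨0,[]⟩,.k,.k,.k,(.r (-1) ⟨0,[(5,0),(7,0),(8,0),(0,0)]⟩ ⟨2,[(0,1),(0,1),(0,1),(6,3),(6,1),(0,
  1)]⟩),.k,.k,⟨true,0,⟨0,[(3,0),(7,0),(11,0)]⟩,⟨2,[(0,0),(0,0),(0,0),(6,1),(6,0),(0,0)]⟩⟩,⟨false,0,
  ⟨3,[(0,0),(2,1),(7,0),(6,0),(0,1),(2,0)]⟩,⟨0,[(16,0),(0,0),(16,0)]⟩⟩,⟨true,0,⟨0,[(33,0)]⟩,⟨0,[(32,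
  0)]⟩⟩,⟨false,0,⟨0,[(0,0)]⟩,⟨3,[(5,1),(2,3),(5,0),(0,0),(0,1),(0,1)]⟩⟩,⟨false,1,⟨3,[(14,0),(0,0),
  (19,1)]⟩,⟨0,[]⟩⟩,⟨true,0,⟨4,[(0,2),(2,0),(14,1),(1,0)]⟩,⟨0,[(8,0),(12,0)]⟩⟩,[]⟩))) (.Q [0,0,1,0,0,
  0,-2,0,0,-1,2] (.p true [0,0,1] [1,0,-1] (⟨0,[(24,0)]⟩,⟨0,[(23,0)]⟩) .k 2 (⟨0,[(23,0)]⟩,⟨0,[(24,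
  0)]⟩) .k (.r 0 ⟨0,[(22,1)]⟩ ⟨0,[(9,1),(22,0)]⟩)) (.Q [0,0,0,-2,0,0,-1,-1,0,-1,1] (.p true [0,0,1]
  [1] (⟨0,[(25,0)]⟩,⟨0,[(24,0)]⟩) .k 1 (⟨0,[]⟩,⟨0,[]⟩) .k .k) (.I [0,0,1,1] (.R ⟨1,true,false,false,
  [1,-1],[0,0,1],[0,1],(⟨0,[(29,0)]⟩,⟨0,[(30,0)]⟩),(⟨0,[(27,0)]⟩,⟨0,[(26,0)]⟩),⟨0,[(5,0),(2,0)]⟩,.k,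
  .k,(.r (-1) ⟨0,[(34,1),(0,0)]⟩ ⟨0,[(0,1)]⟩),.k,(.r (-1) ⟨0,[(1,0),(9,0),(5,0),(0,0),(16,0)]⟩ ⟨3,
  [(0,5),(1,1),(0,0),(10,0),(18,0)]⟩),.k,⟨true,0,⟨0,[(11,0),(10,0)]⟩,⟨1,[(2,0),(0,0),(27,0)]⟩⟩,
  ⟨false,1,⟨0,[(11,0),(5,0),(0,0),(16,0)]⟩,⟨0,[(20,0)]⟩⟩,⟨false,0,⟨0,[(0,0)]⟩,⟨1,[(34,1),(0,0),(0,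
  0)]⟩⟩,⟨true,0,⟨0,[(9,0)]⟩,⟨1,[(1,0),(17,0),(18,0)]⟩⟩,⟨true,0,⟨0,[(0,0),(32,0)]⟩,⟨0,[(1,0),(8,0),
  (0,0),(5,0),(0,0)]⟩⟩,⟨false,1,⟨5,[(3,1),(2,1),(2,5),(5,0),(0,0),(19,1)]⟩,⟨0,[(1,0)]⟩⟩,[]⟩) (.R ⟨1,
  true,false,false,[1,0,-1],[0,1],[0,0,2,1],(⟨0,[(26,0)]⟩,⟨0,[(27,0)]⟩),(⟨0,[(30,0)]⟩,⟨0,[(29,0)]⟩),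
  ⟨0,[(5,0)]⟩,.k,.k,.k,.k,(.r (-1) ⟨0,[(0,0),(11,0),(21,0),(0,0)]⟩ ⟨0,[(2,0),(0,0),(8,0),(20,0)]⟩),
  .k,⟨true,0,⟨1,[(23,0),(0,0)]⟩,⟨0,[]⟩⟩,⟨false,1,⟨0,[(11,0),(5,0),(0,0),(16,0)]⟩,⟨0,[(20,0)]⟩⟩,
  ⟨false,0,⟨0,[(2,0),(0,0),(8,0)]⟩,⟨0,[(0,0),(11,0),(22,0)]⟩⟩,⟨true,0,⟨0,[(9,0)]⟩,⟨1,[(1,0),(17,0),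
  (18,0)]⟩⟩,⟨true,0,⟨0,[(2,0),(0,0),(8,0),(20,0)]⟩,⟨0,[(0,1),(10,0),(10,0)]⟩⟩,⟨false,1,⟨5,[(3,1),(2,
  1),(2,5),(5,0),(0,0),(19,1)]⟩,⟨0,[(1,0)]⟩⟩,[]⟩)) (.I [0,1,1,0,-1,0,0,0,-1] (.Q [0,1,1,0,0,0,0,0,1,
  0,0,-1] (.p false [0,0,0,1] [] (⟨0,[(18,0)]⟩,⟨0,[(17,0)]⟩) .k 0 (⟨0,[]⟩,⟨0,[]⟩) .k .k) (.K ⟨0,[0,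
  0,0,1],0,0,(⟨0,[(19,0)]⟩,⟨0,[(18,0)]⟩),.k,(.r (-1) ⟨1,[(17,0),(17,1),(0,0)]⟩ ⟨9,[(1,5),(2,3),(2,
  3),(8,1),(7,0),(0,0),(6,1)]⟩),(.x 0 ⟨0,[(31,0)]⟩ ⟨3,[(16,0),(0,0),(11,1),(0,3)]⟩),.k,.k,[⟨0,[(19,
  0)]⟩,⟨0,[(18,0)]⟩,⟨0,[(1,0),(17,0),(16,0)]⟩,⟨0,[(0,0)]⟩]⟩) (.R ⟨1,true,false,false,[0,0,1],[1,0,0,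
  -1],[1,1,0,0,0,0,0,1],(⟨0,[(28,0)]⟩,⟨0,[(27,0)]⟩),(⟨0,[(18,0)]⟩,⟨0,[(19,0)]⟩),⟨0,[(9,0)]⟩,.k,.k,
  .k,.k,(.r (-1) ⟨5,[(3,1),(7,1),(3,1),(1,2),(17,5),(0,2)]⟩ ⟨9,[(0,1),(0,5),(2,1),(2,3),(4,3),(0,5),
  (2,0),(1,1),(18,0)]⟩),.k,⟨true,0,⟨0,[(1,0),(9,0),(5,0)]⟩,⟨1,[(0,0),(0,0),(5,0),(4,1),(5,0),(13,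
  1)]⟩⟩,⟨false,1,⟨7,[(0,3),(2,1),(7,3),(5,1),(1,3),(0,3),(8,0),(6,4)]⟩,⟨0,[(18,0),(5,0)]⟩⟩,⟨false,0,
  ⟨0,[]⟩,⟨3,[(16,0),(0,0),(19,1)]⟩⟩,⟨true,0,⟨0,[(0,0),(19,0)]⟩,⟨2,[(1,2),(3,0),(8,0),(2,2),(0,2),(3,
  0)]⟩⟩,⟨true,0,⟨0,[(34,0)]⟩,⟨0,[(35,0)]⟩⟩,⟨false,1,⟨11,[(0,9),(6,5),(8,0),(2,1),(9,2),(6,0),(0,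
  0)]⟩,⟨0,[(1,0),(12,0),(2,0),(0,0)]⟩⟩,[]⟩)) (.Q [0,1,1,0,-1,0,0,0,1,0,0,-1] (.p false [0,0,0,1] []
  (⟨0,[(18,0)]⟩,⟨0,[(17,0)]⟩) .k 0 (⟨0,[]⟩,⟨0,[]⟩) .k .k) (.K ⟨0,[0,0,0,1],0,(-1),(⟨0,[(19,0)]⟩,⟨0,
  [(18,0)]⟩),.k,(.x 0 ⟨3,[(3,1),(2,1),(2,1),(14,4),(0,0)]⟩ ⟨0,[(31,0),(4,0)]⟩),(.x 0 ⟨0,[(31,0)]⟩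
  ⟨3,[(16,0),(0,0),(11,1),(0,3)]⟩),.k,.k,[⟨0,[(19,0)]⟩,⟨0,[(18,0)]⟩,⟨1,[(16,0),(2,1),(16,0),(2,1)]⟩,
  ⟨0,[(0,0)]⟩]⟩) (.I [0,-1,1,0,0,0,0,0,1] (.Q [0,0,0,0,0,-1,0,0,0,1,0,-1] (.p false [0,0,0,1] [1]
  (⟨0,[(20,0)]⟩,⟨0,[(19,0)]⟩) .k 1 (⟨0,[]⟩,⟨0,[]⟩) .k .k) (.R ⟨1,false,false,true,[1,0,0,-1],[0,1],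
  [1,1,0,0,0,0,0,0,-1],(⟨0,[(20,0)]⟩,⟨0,[(21,0)]⟩),(⟨0,[(33,0)]⟩,⟨0,[(32,0)]⟩),⟨0,[(0,0)]⟩,.k,.k,
  (.x (-1) ⟨3,[(18,0),(0,0),(11,1),(0,3)]⟩ ⟨0,[(33,0)]⟩),(.x (-1) ⟨3,[(18,0),(0,0),(11,1),(0,3)]⟩
  ⟨0,[(33,0)]⟩),(.r (-1) ⟨0,[(2,0),(13,0),(3,0),(1,0),(12,0),(1,0)]⟩ ⟨1,[(1,1),(2,0),(10,0),(7,0),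
  (12,1)]⟩),.k,⟨false,1,⟨0,[(2,0),(13,0),(3,0),(1,0),(12,0)]⟩,⟨0,[(1,0),(34,0)]⟩⟩,⟨true,0,⟨0,[(20,
  0)]⟩,⟨0,[(14,0),(6,0),(1,0)]⟩⟩,⟨false,0,⟨0,[]⟩,⟨3,[(18,0),(0,0),(19,1)]⟩⟩,⟨false,0,⟨0,[(1,0),(18,
  0),(15,0)]⟩,⟨0,[(2,0),(13,0),(5,0)]⟩⟩,⟨true,0,⟨0,[(36,0)]⟩,⟨0,[(37,0)]⟩⟩,⟨false,0,⟨0,[(1,0),(2,0),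
  (15,0),(1,0)]⟩,⟨0,[(2,0),(13,0),(5,0),(14,0)]⟩⟩,[.o ⟨false,0,⟨0,[(36,0)]⟩,⟨1,[(31,0),(5,1),(1,
  0)]⟩⟩,.o ⟨false,1,⟨23,[(4,7),(4,3),(8,8),(0,8),(11,1)]⟩,⟨0,[(16,0),(5,0)]⟩⟩,.o ⟨false,1,⟨1,[(21,
  1),(9,0),(6,0)]⟩,⟨0,[(14,0),(5,0),(2,0)]⟩⟩,.a ⟨true,0,⟨0,[(21,0)]⟩,⟨0,[(20,0)]⟩⟩ ⟨false,1,⟨1,[(18,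
  0),(19,0)]⟩,⟨0,[(1,0)]⟩⟩ ⟨true,0,⟨0,[(20,0),(15,0)]⟩,⟨0,[(16,0),(4,0),(0,0)]⟩⟩]⟩) (.R ⟨0,false,
  false,true,[1,0,0,-1],[0,1],[0,1,0,0,0,0,0,0,-1],(⟨0,[(20,0)]⟩,⟨0,[(21,0)]⟩),(⟨0,[(33,0)]⟩,⟨0,
  [(32,0)]⟩),⟨0,[(0,0)]⟩,.k,.k,(.x (-1) ⟨3,[(18,0),(0,0),(11,1),(0,3)]⟩ ⟨0,[(33,0)]⟩),(.x (-1) ⟨3,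
  [(18,0),(0,0),(11,1),(0,3)]⟩ ⟨0,[(33,0)]⟩),.k,.k,⟨false,1,⟨0,[(2,0),(13,0),(3,0),(1,0),(12,0)]⟩,
  ⟨0,[(1,0),(34,0)]⟩⟩,⟨true,0,⟨0,[(20,0)]⟩,⟨0,[(14,0),(6,0),(1,0)]⟩⟩,⟨true,0,⟨0,[(41,0)]⟩,⟨0,[]⟩⟩,
  ⟨false,0,⟨0,[(1,0),(18,0),(15,0)]⟩,⟨0,[(2,0),(13,0),(5,0)]⟩⟩,⟨false,0,⟨0,[]⟩,⟨0,[]⟩⟩,⟨false,0,⟨0,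
  []⟩,⟨0,[]⟩⟩,[.o ⟨false,0,⟨0,[(36,0)]⟩,⟨1,[(31,0),(5,1),(1,0)]⟩⟩,.o ⟨false,1,⟨23,[(4,7),(4,3),(8,
  8),(0,8),(11,1)]⟩,⟨0,[(16,0),(5,0)]⟩⟩,.o ⟨false,1,⟨1,[(21,1),(9,0),(6,0)]⟩,⟨0,[(14,0),(5,0),(2,
  0)]⟩⟩,.a ⟨true,0,⟨0,[(21,0)]⟩,⟨0,[(20,0)]⟩⟩ ⟨false,1,⟨1,[(18,0),(19,0)]⟩,⟨0,[(1,0)]⟩⟩ ⟨true,0,⟨0,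
  [(20,0),(15,0)]⟩,⟨0,[(16,0),(4,0),(0,0)]⟩⟩]⟩)) (.Q [0,1,1,0,0,0,0,0,1,0,0,-1] (.p false [0,0,0,1]
  [] (⟨0,[(20,0)]⟩,⟨0,[(19,0)]⟩) .k 0 (⟨0,[]⟩,⟨0,[]⟩) .k .k) (.I [0,0,1,1,0,0,0,0,-1] (.K ⟨0,[0,0,0,
  1],0,0,(⟨0,[(22,0)]⟩,⟨0,[(21,0)]⟩),.k,(.r (-1) ⟨1,[(20,0),(17,1),(0,0)]⟩ ⟨0,[(0,0)]⟩),(.x 0 ⟨0,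
  [(34,0)]⟩ ⟨3,[(19,0),(0,0),(11,1),(0,3)]⟩),.k,.k,[⟨0,[(22,0)]⟩,⟨0,[(21,0)]⟩,⟨0,[(2,0),(19,0)]⟩,⟨0,
  [(1,0)]⟩]⟩) (.K ⟨0,[0,0,0,1],0,0,(⟨0,[(22,0)]⟩,⟨0,[(21,0)]⟩),.k,(.x 0 ⟨3,[(6,1),(2,1),(2,1),(14,
  4),(0,0)]⟩ ⟨0,[(34,0),(4,0)]⟩),(.x 0 ⟨0,[(34,0)]⟩ ⟨3,[(19,0),(0,0),(11,1),(0,3)]⟩),.k,.k,[⟨0,[(22,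
  0)]⟩,⟨0,[(21,0)]⟩,⟨0,[(2,0),(19,0)]⟩,⟨0,[(1,0)]⟩]⟩)) (.Q [0,0,0,0,0,1,0,0,0,-1,0,1] (.p true [0,0,
  0,1] [1] (⟨0,[(21,0)]⟩,⟨0,[(20,0)]⟩) .k 1 (⟨0,[]⟩,⟨0,[]⟩) .k .k) (.R ⟨0,false,false,true,[1,0,0,
  -1],[0,1],[0,1,0,0,0,0,0,0,-1],(⟨0,[(21,0)]⟩,⟨0,[(22,0)]⟩),(⟨0,[(34,0)]⟩,⟨0,[(33,0)]⟩),⟨0,[(0,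
  0)]⟩,.k,.k,(.x (-1) ⟨3,[(19,0),(0,0),(11,1),(0,3)]⟩ ⟨0,[(34,0)]⟩),(.x (-1) ⟨3,[(19,0),(0,0),(11,
  1),(0,3)]⟩ ⟨0,[(34,0)]⟩),.k,.k,⟨false,0,⟨0,[(1,0),(15,0),(3,0),(1,0),(12,0)]⟩,⟨23,[(5,7),(4,3),(8,
  2),(0,14),(6,11),(0,11),(3,1)]⟩⟩,⟨true,0,⟨0,[(21,0)]⟩,⟨1,[(0,1),(8,0),(2,0),(11,0),(2,0)]⟩⟩,⟨true,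
  0,⟨0,[(42,0)]⟩,⟨0,[]⟩⟩,⟨false,1,⟨23,[(5,7),(4,3),(8,2),(0,14),(0,23),(5,11),(0,11),(3,1)]⟩,⟨0,[(1,
  0),(15,0),(5,0)]⟩⟩,⟨false,0,⟨0,[]⟩,⟨0,[]⟩⟩,⟨false,0,⟨0,[]⟩,⟨0,[]⟩⟩,[.o ⟨false,0,⟨0,[(37,0)]⟩,⟨1,
  [(32,0),(5,1),(1,0)]⟩⟩,.o ⟨false,1,⟨23,[(5,7),(4,3),(8,8),(0,8),(11,1)]⟩,⟨0,[(17,0),(5,0)]⟩⟩,.o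
  ⟨false,1,⟨1,[(22,1),(9,0),(6,0)]⟩,⟨0,[(15,0),(5,0),(2,0)]⟩⟩,.a ⟨true,0,⟨0,[(22,0)]⟩,⟨0,[(21,0)]⟩⟩
  ⟨false,0,⟨2,[(1,1),(0,0),(5,0),(8,0),(3,1),(1,1)]⟩,⟨1,[(20,0),(6,0),(0,0),(11,0)]⟩⟩ ⟨true,0,⟨0,
  [(21,0),(15,0)]⟩,⟨0,[(17,0),(4,0),(0,0)]⟩⟩]⟩) (.R ⟨1,false,false,true,[1,0,0,-1],[0,1],[0,1,0,-1,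
  0,0,0,0,-1],(⟨0,[(21,0)]⟩,⟨0,[(22,0)]⟩),(⟨0,[(34,0)]⟩,⟨0,[(33,0)]⟩),⟨0,[(0,0)]⟩,.k,.k,(.x (-1) ⟨3,
  [(19,0),(0,0),(11,1),(0,3)]⟩ ⟨0,[(34,0)]⟩),(.x (-1) ⟨3,[(19,0),(0,0),(11,1),(0,3)]⟩ ⟨0,[(34,0)]⟩),
  (.r 0 ⟨0,[(1,0),(15,0),(3,0),(1,0),(12,0),(1,0)]⟩ ⟨5,[(5,3),(4,1),(9,2),(6,5),(0,5),(3,0)]⟩),.k,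
  ⟨false,0,⟨0,[(1,0),(15,0),(3,0),(1,0),(12,0),(1,0)]⟩,⟨5,[(5,3),(4,1),(9,2),(6,2),(0,2),(3,0)]⟩⟩,
  ⟨true,0,⟨0,[(21,0)]⟩,⟨0,[(15,0),(6,0),(1,0)]⟩⟩,⟨false,0,⟨0,[(38,0)]⟩,⟨5,[(7,1),(2,1),(8,0),(0,0),
  (19,1)]⟩⟩,⟨false,1,⟨23,[(5,7),(4,3),(8,2),(0,14),(0,23),(5,11),(0,11),(3,1)]⟩,⟨0,[(1,0),(15,0),(5,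
  0)]⟩⟩,⟨true,0,⟨0,[(42,0)]⟩,⟨0,[]⟩⟩,⟨false,1,⟨5,[(5,3),(4,1),(9,2),(0,5),(5,2),(0,2),(3,0)]⟩,⟨0,
  [(1,0),(15,0),(5,0),(14,0)]⟩⟩,[.o ⟨false,0,⟨0,[(37,0)]⟩,⟨1,[(32,0),(5,1),(1,0)]⟩⟩,.o ⟨false,1,⟨23,
  [(5,7),(4,3),(8,8),(0,8),(11,1)]⟩,⟨0,[(17,0),(5,0)]⟩⟩,.o ⟨false,1,⟨1,[(22,1),(9,0),(6,0)]⟩,⟨0,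
  [(15,0),(5,0),(2,0)]⟩⟩,.a ⟨true,0,⟨0,[(22,0)]⟩,⟨0,[(21,0)]⟩⟩ ⟨false,0,⟨1,[(1,0),(0,0),(14,0),(3,
  0),(1,0),(14,0)]⟩,⟨3,[(7,1),(2,1),(9,1),(6,0),(0,0),(6,1)]⟩⟩ ⟨true,0,⟨0,[(21,0),(15,0)]⟩,⟨0,[(17,
  0),(4,0),(0,0)]⟩⟩]⟩))))))) (.I [0,0,-2,-3] (.Q [0,1,0,-2,0,0,-2,-2,0,-1,2] (.p true [0,0,1] [1,0,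
  -1] (⟨0,[(26,0)]⟩,⟨0,[(25,0)]⟩) .k 2 (⟨0,[(25,0)]⟩,⟨0,[(26,0)]⟩) .k (.r 0 ⟨0,[(24,1)]⟩ ⟨21,[(0,3),
  (0,11),(4,11),(4,19),(2,4),(0,4)]⟩)) (.R ⟨1,true,false,false,[1,0,-1],[0,1,1],[1,0,0,0,0,0,0,-1],
  (⟨0,[(26,0)]⟩,⟨0,[(27,0)]⟩),(⟨0,[(27,0),(2,0)]⟩,⟨0,[(5,0)]⟩),⟨0,[(5,0)]⟩,.k,.k,.k,(.r (-1) ⟨5,[(0,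
  3),(1,5),(4,1),(7,0),(0,0),(19,1)]⟩ ⟨1,[(3,0),(16,0),(3,0),(0,1),(7,0)]⟩),(.r (-1) ⟨7,[(0,3),(0,
  3),(0,7),(4,3),(7,0),(0,0),(19,1)]⟩ ⟨0,[(3,0),(16,0),(3,0),(8,0)]⟩),.k,⟨false,1,⟨23,[(0,3),(0,11),
  (0,23),(4,19),(7,0),(0,0),(19,1)]⟩,⟨1,[(3,0),(16,0),(3,0),(0,1),(7,0)]⟩⟩,⟨true,0,⟨0,[(2,0)]⟩,⟨0,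
  [(20,0),(3,0)]⟩⟩,⟨true,0,⟨0,[]⟩,⟨0,[(38,0)]⟩⟩,⟨false,0,⟨0,[(3,0)]⟩,⟨5,[(0,3),(6,1),(7,0),(0,0),
  (19,1)]⟩⟩,⟨false,1,⟨5,[(3,1),(2,1),(8,0),(0,0),(19,1)]⟩,⟨0,[(34,0)]⟩⟩,⟨true,0,⟨0,[(3,0),(29,0)]⟩,
  ⟨0,[(0,0)]⟩⟩,[]⟩) (.R ⟨1,true,false,true,[1,-1],[0,1],[0,1,-1,-2],(⟨0,[(29,0)]⟩,⟨0,[(30,0)]⟩),(⟨0,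
  [(30,0)]⟩,⟨0,[(29,0)]⟩),⟨0,[(5,0),(2,0)]⟩,.k,.k,(.r (-1) ⟨2,[(1,1),(13,0),(0,0),(18,0)]⟩ ⟨0,[(0,
  0),(11,0),(6,0),(4,0)]⟩),(.r (-1) ⟨2,[(1,1),(13,0),(0,0),(18,0)]⟩ ⟨0,[(0,0),(11,0),(6,0),(4,0)]⟩),
  (.r (-1) ⟨3,[(1,3),(13,0),(0,0),(18,1)]⟩ ⟨1,[(0,2),(11,2),(6,2),(4,2)]⟩),.k,⟨true,0,⟨0,[(1,0)]⟩,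
  ⟨1,[(0,2),(11,2),(6,2),(4,2)]⟩⟩,⟨false,1,⟨6,[(1,1),(0,2),(3,2),(3,5),(6,6),(0,6),(16,3)]⟩,⟨0,[(20,
  0),(2,0)]⟩⟩,⟨false,0,⟨0,[(34,0)]⟩,⟨15,[(0,3),(5,3),(8,2),(0,2),(19,5)]⟩⟩,⟨true,0,⟨0,[(0,0),(21,
  1)]⟩,⟨1,[(1,0),(11,0),(5,0),(0,0),(2,0)]⟩⟩,⟨true,0,⟨0,[(38,0)]⟩,⟨0,[]⟩⟩,⟨false,1,⟨7,[(6,5),(2,11),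
  (5,0),(0,0),(0,1),(0,1)]⟩,⟨0,[(0,0),(0,0),(17,1),(11,1)]⟩⟩,[]⟩)) (.Q [0,1,1,0,-1,0,0,0,1,0,0,-1]
  (.p false [0,0,0,1] [] (⟨0,[(17,0)]⟩,⟨0,[(16,0)]⟩) .k 0 (⟨0,[]⟩,⟨0,[]⟩) .k .k) (.K ⟨0,[0,0,0,1],0,
  (-1),(⟨0,[(18,0)]⟩,⟨0,[(17,0)]⟩),.k,(.r 0 ⟨0,[(0,0),(1,0),(4,0),(2,1),(7,0),(12,0),(2,0)]⟩ ⟨11,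
  [(1,3),(13,8),(0,2),(6,1),(0,1)]⟩),(.x 0 ⟨0,[(30,0)]⟩ ⟨3,[(15,0),(0,0),(11,1),(0,3)]⟩),.k,.k,[⟨0,
  [(18,0)]⟩,⟨0,[(17,0)]⟩,⟨1,[(15,0),(2,1),(16,0),(2,1)]⟩,⟨0,[(0,0)]⟩]⟩) (.I [0,0,1,1,0,0,0,0,-1]
  (.Q [0,1,1,0,0,0,0,0,1,0,0,-1] (.p false [0,0,0,1] [] (⟨0,[(19,0)]⟩,⟨0,[(18,0)]⟩) .k 0 (⟨0,[]⟩,⟨0,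
  []⟩) .k .k) (.K ⟨0,[0,0,0,1],0,0,(⟨0,[(20,0)]⟩,⟨0,[(19,0)]⟩),.k,(.r (-1) ⟨1,[(18,0),(17,1),(0,
  0)]⟩ ⟨0,[(1,0)]⟩),(.x 0 ⟨0,[(32,0)]⟩ ⟨3,[(17,0),(0,0),(11,1),(0,3)]⟩),.k,.k,[⟨0,[(20,0)]⟩,⟨0,[(19,
  0)]⟩,⟨0,[(1,0),(2,0),(7,1),(7,0),(0,0),(2,0),(8,0)]⟩,⟨0,[(0,0)]⟩]⟩) (.Q [0,0,0,0,0,-1,0,0,0,1,0,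
  -1] (.p false [0,0,0,1] [1] (⟨0,[(20,0)]⟩,⟨0,[(19,0)]⟩) .k 1 (⟨0,[]⟩,⟨0,[]⟩) .k .k) (.R ⟨1,false,
  false,true,[1,0,0,-1],[0,1],[0,1,0,-1,0,0,0,0,-1],(⟨0,[(20,0)]⟩,⟨0,[(21,0)]⟩),(⟨0,[(33,0)]⟩,⟨0,
  [(32,0)]⟩),⟨0,[(0,0)]⟩,.k,.k,(.x (-1) ⟨3,[(18,0),(0,0),(11,1),(0,3)]⟩ ⟨0,[(33,0)]⟩),(.x (-1) ⟨3,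
  [(18,0),(0,0),(11,1),(0,3)]⟩ ⟨0,[(33,0)]⟩),(.r 0 ⟨0,[(1,0),(14,0),(3,0),(1,0),(12,0),(1,0)]⟩ ⟨11,
  [(4,7),(13,2),(0,8),(6,3),(0,3)]⟩),.k,⟨false,0,⟨0,[(1,0),(14,0),(3,0),(1,0),(12,0),(1,0)]⟩,⟨5,[(4,
  3),(13,0),(0,3),(18,0)]⟩⟩,⟨true,0,⟨0,[(20,0)]⟩,⟨0,[(14,0),(6,0),(1,0)]⟩⟩,⟨false,0,⟨0,[(37,0)]⟩,⟨5,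
  [(6,1),(2,1),(8,0),(0,0),(19,1)]⟩⟩,⟨false,1,⟨11,[(4,3),(13,2),(0,8),(0,11),(5,1),(0,1)]⟩,⟨0,[(1,
  0),(14,0),(5,0)]⟩⟩,⟨true,0,⟨0,[(41,0)]⟩,⟨0,[]⟩⟩,⟨false,1,⟨5,[(4,3),(13,0),(0,3),(0,5),(17,0)]⟩,⟨0,
  [(1,0),(14,0),(5,0),(14,0)]⟩⟩,[.o ⟨false,0,⟨0,[(36,0)]⟩,⟨1,[(31,0),(5,1),(1,0)]⟩⟩,.o ⟨false,1,⟨2,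
  [(4,0),(13,0),(0,0),(18,0)]⟩,⟨0,[(16,0),(5,0)]⟩⟩,.o ⟨false,1,⟨1,[(21,1),(9,0),(6,0)]⟩,⟨0,[(14,0),
  (5,0),(2,0)]⟩⟩,.a ⟨true,0,⟨0,[(21,0)]⟩,⟨0,[(20,0)]⟩⟩ ⟨false,0,⟨2,[(1,1),(0,0),(13,1),(3,1),(1,1),
  (12,1),(1,1)]⟩,⟨19,[(4,7),(13,0),(0,10),(14,3),(4,7)]⟩⟩ ⟨true,0,⟨0,[(20,0),(15,0)]⟩,⟨0,[(16,0),(4,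
  0),(0,0)]⟩⟩]⟩) (.R ⟨0,false,false,true,[1,0,0,-1],[0,1],[0,1,0,0,0,0,0,0,-1],(⟨0,[(20,0)]⟩,⟨0,
  [(21,0)]⟩),(⟨0,[(33,0)]⟩,⟨0,[(32,0)]⟩),⟨0,[(0,0)]⟩,.k,.k,(.x (-1) ⟨3,[(18,0),(0,0),(11,1),(0,3)]⟩
  ⟨0,[(33,0)]⟩),(.x (-1) ⟨3,[(18,0),(0,0),(11,1),(0,3)]⟩ ⟨0,[(33,0)]⟩),.k,.k,⟨false,0,⟨0,[(1,0),(14,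
  0),(3,0),(1,0),(12,0)]⟩,⟨11,[(4,3),(13,2),(0,8),(6,1),(0,1)]⟩⟩,⟨true,0,⟨0,[(20,0)]⟩,⟨0,[(14,0),(6,
  0),(1,0)]⟩⟩,⟨true,0,⟨0,[(41,0)]⟩,⟨0,[]⟩⟩,⟨false,1,⟨11,[(4,3),(13,2),(0,8),(0,11),(5,1),(0,1)]⟩,⟨0,
  [(1,0),(14,0),(5,0)]⟩⟩,⟨false,0,⟨0,[]⟩,⟨0,[]⟩⟩,⟨false,0,⟨0,[]⟩,⟨0,[]⟩⟩,[.o ⟨false,0,⟨0,[(36,0)]⟩,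
  ⟨1,[(31,0),(5,1),(1,0)]⟩⟩,.o ⟨false,1,⟨2,[(4,0),(13,0),(0,0),(18,0)]⟩,⟨0,[(16,0),(5,0)]⟩⟩,.o
  ⟨false,1,⟨1,[(21,1),(9,0),(6,0)]⟩,⟨0,[(14,0),(5,0),(2,0)]⟩⟩,.a ⟨true,0,⟨0,[(21,0)]⟩,⟨0,[(20,0)]⟩⟩
  ⟨false,0,⟨4,[(1,2),(0,1),(2,0),(7,1),(2,1),(3,2),(1,3),(12,0)]⟩,⟨19,[(4,3),(13,2),(0,12),(14,11),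
  (4,3)]⟩⟩ ⟨true,0,⟨0,[(20,0),(15,0)]⟩,⟨0,[(16,0),(4,0),(0,0)]⟩⟩]⟩))) (.Q [0,0,0,0,0,-1,0,0,0,1,0,
  -1] (.p false [0,0,0,1] [1] (⟨0,[(19,0)]⟩,⟨0,[(18,0)]⟩) .k 1 (⟨0,[]⟩,⟨0,[]⟩) .k .k) (.R ⟨1,false,
  false,true,[1,0,0,-1],[0,1],[0,0,0,-1,0,0,0,0,-1],(⟨0,[(19,0)]⟩,⟨0,[(20,0)]⟩),(⟨0,[(32,0)]⟩,⟨0,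
  [(31,0)]⟩),⟨0,[(0,0)]⟩,.k,.k,(.x (-1) ⟨3,[(17,0),(0,0),(11,1),(0,3)]⟩ ⟨0,[(32,0)]⟩),(.x (-1) ⟨3,
  [(17,0),(0,0),(11,1),(0,3)]⟩ ⟨0,[(32,0)]⟩),(.r (-1) ⟨5,[(2,3),(1,1),(7,3),(2,1),(1,0),(1,3),(1,5),
  (14,9),(0,0)]⟩ ⟨1,[(1,1),(1,1),(21,0),(0,0)]⟩),.k,⟨false,1,⟨0,[(2,0),(1,0),(7,1),(6,0),(1,1),(11,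
  1)]⟩,⟨0,[(1,0),(1,0),(36,0)]⟩⟩,⟨true,0,⟨0,[(19,0)]⟩,⟨0,[(13,0),(6,0),(1,0)]⟩⟩,⟨true,0,⟨0,[(36,
  0)]⟩,⟨0,[(35,0)]⟩⟩,⟨false,0,⟨2,[(1,2),(1,1),(15,2),(5,0),(0,0)]⟩,⟨0,[(2,0),(12,0),(5,0)]⟩⟩,⟨false,
  1,⟨3,[(17,0),(0,0),(19,1)]⟩,⟨0,[]⟩⟩,⟨false,0,⟨0,[(1,0),(1,0),(15,0)]⟩,⟨0,[(2,0),(12,0),(5,0),(14,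
  0)]⟩⟩,[.o ⟨false,0,⟨0,[(35,0)]⟩,⟨1,[(30,0),(5,1),(1,0)]⟩⟩,.o ⟨false,1,⟨2,[(3,0),(13,0),(0,0),(18,
  0)]⟩,⟨0,[(15,0),(5,0)]⟩⟩,.o ⟨false,1,⟨1,[(20,1),(9,0),(6,0)]⟩,⟨0,[(13,0),(5,0),(2,0)]⟩⟩,.a ⟨true,
  0,⟨0,[(20,0)]⟩,⟨0,[(19,0)]⟩⟩ ⟨false,1,⟨0,[(2,0),(12,0),(3,0),(1,0)]⟩,⟨2,[(1,2),(1,1),(21,0),(0,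
  0)]⟩⟩ ⟨true,0,⟨0,[(19,0),(15,0)]⟩,⟨0,[(15,0),(4,0),(0,0)]⟩⟩]⟩) (.R ⟨0,false,false,true,[1,0,0,-1],
  [0,1],[0,0,0,-1,0,0,0,0,-1],(⟨0,[(19,0)]⟩,⟨0,[(20,0)]⟩),(⟨0,[(32,0)]⟩,⟨0,[(31,0)]⟩),⟨0,[(0,0)]⟩,
  .k,.k,(.x (-1) ⟨3,[(17,0),(0,0),(11,1),(0,3)]⟩ ⟨0,[(32,0)]⟩),(.x (-1) ⟨3,[(17,0),(0,0),(11,1),(0,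
  3)]⟩ ⟨0,[(32,0)]⟩),.k,.k,⟨false,1,⟨0,[(2,0),(1,0),(7,1),(6,0),(1,1),(11,1)]⟩,⟨0,[(1,0),(1,0),(36,
  0)]⟩⟩,⟨true,0,⟨0,[(19,0)]⟩,⟨1,[(0,1),(6,0),(2,0),(11,0),(2,0)]⟩⟩,⟨true,0,⟨0,[(36,0)]⟩,⟨0,[(35,
  0)]⟩⟩,⟨false,0,⟨2,[(1,2),(1,1),(15,2),(5,0),(0,0)]⟩,⟨0,[(2,0),(12,0),(5,0)]⟩⟩,⟨false,0,⟨0,[]⟩,⟨0,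
  []⟩⟩,⟨false,0,⟨0,[]⟩,⟨0,[]⟩⟩,[.o ⟨false,0,⟨0,[(35,0)]⟩,⟨1,[(30,0),(5,1),(1,0)]⟩⟩,.o ⟨false,1,⟨2,
  [(3,0),(13,0),(0,0),(18,0)]⟩,⟨0,[(15,0),(5,0)]⟩⟩,.o ⟨false,1,⟨1,[(20,1),(9,0),(6,0)]⟩,⟨0,[(13,0),
  (5,0),(2,0)]⟩⟩,.a ⟨true,0,⟨0,[(20,0)]⟩,⟨0,[(19,0)]⟩⟩ ⟨false,1,⟨0,[(2,0),(12,0),(3,0),(1,0)]⟩,⟨2,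
  [(1,2),(1,1),(21,0),(0,0)]⟩⟩ ⟨true,0,⟨0,[(19,0),(15,0)]⟩,⟨0,[(15,0),(4,0),(0,0)]⟩⟩]⟩)))))))) (.Q
  [0,0,-1,0,0,0,1,0,0,2,-1] (.p false [-1,1,1] [1] (⟨0,[(0,0)]⟩,⟨0,[(21,0),(2,0)]⟩) .k 1 (⟨0,[]⟩,⟨0,
  []⟩) .k .k) (.R ⟨0,false,false,false,[-1,1,1],[0,0,1],[],(⟨0,[(1,0)]⟩,⟨0,[(22,0),(2,0)]⟩),(⟨0,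
  [(23,0)]⟩,⟨0,[(22,0)]⟩),⟨0,[(22,0)]⟩,.k,.k,.k,.k,.k,.k,⟨false,1,⟨0,[(8,0),(22,0)]⟩,⟨0,[(21,0)]⟩⟩,
  ⟨true,0,⟨0,[(7,0),(8,0)]⟩,⟨1,[(0,0),(19,0)]⟩⟩,⟨false,1,⟨0,[(0,0),(2,0),(5,1),(5,0)]⟩,⟨0,[(5,0),
  (10,0)]⟩⟩,⟨true,0,⟨0,[(9,0),(5,0)]⟩,⟨1,[(0,0),(19,0),(8,1)]⟩⟩,⟨false,0,⟨0,[]⟩,⟨0,[]⟩⟩,⟨false,0,⟨0,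
  []⟩,⟨0,[]⟩⟩,[.o ⟨false,0,⟨2,[(6,0),(0,1),(2,0),(5,0)]⟩,⟨7,[(3,3),(7,0),(0,0),(11,1),(5,3)]⟩⟩,.o
  ⟨false,1,⟨7,[(10,3),(0,0),(0,0),(11,1),(7,3)]⟩,⟨0,[(15,0)]⟩⟩,.a ⟨true,0,⟨0,[(0,0)]⟩,⟨0,[(16,0)]⟩⟩
  ⟨false,1,⟨3,[(11,0),(0,0),(19,1)]⟩,⟨0,[]⟩⟩ ⟨true,0,⟨2,[(6,0),(0,1),(2,0),(5,3)]⟩,⟨0,[(0,0),(14,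
  0)]⟩⟩,.o ⟨false,0,⟨1,[(0,0),(18,0)]⟩,⟨1,[(16,1),(7,0),(6,0)]⟩⟩]⟩) (.Q [0,-1,0,-2,0,0,0,0,0,-1]
  (.pp true [-1,1]) (.I [1,0,-1,-1] (.R ⟨2,true,false,false,[0,1],[1,-1],[0,0,1],(⟨0,[]⟩,⟨0,[]⟩),
  (⟨0,[(27,0)]⟩,⟨0,[(28,0)]⟩),⟨0,[]⟩,.k,.k,.k,(.x (-1) ⟨0,[(28,1),(4,0)]⟩ ⟨0,[(2,0),(18,0),(5,1)]⟩),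
  .k,.k,⟨true,0,⟨1,[(2,0),(4,1),(2,1),(11,0)]⟩,⟨0,[(0,0)]⟩⟩,⟨false,0,⟨1,[(2,0),(18,0)]⟩,⟨0,[(15,0),
  (0,0),(16,0)]⟩⟩,⟨true,0,⟨0,[(32,0)]⟩,⟨0,[(31,0)]⟩⟩,⟨false,0,⟨0,[(1,0)]⟩,⟨3,[(4,1),(2,3),(5,0),(0,
  0),(0,1),(0,1)]⟩⟩,⟨false,1,⟨3,[(13,0),(0,0),(19,1)]⟩,⟨0,[]⟩⟩,⟨true,0,⟨5,[(1,2),(0,0),(6,0),(7,0),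
  (1,0),(10,0)]⟩,⟨0,[(7,0),(12,0)]⟩⟩,[]⟩) (.R ⟨2,true,false,false,[0,1],[1,-1],[1,0,1,1],(⟨0,[]⟩,⟨0,
  []⟩),(⟨0,[(27,0)]⟩,⟨0,[(28,0)]⟩),⟨0,[]⟩,.k,.k,.k,(.r 0 ⟨0,[(0,1)]⟩ ⟨0,[(32,1),(0,0)]⟩),.k,.k,
  ⟨true,0,⟨0,[(0,1)]⟩,⟨0,[(1,0),(13,0),(0,0),(13,0)]⟩⟩,⟨false,0,⟨1,[(2,0),(18,0)]⟩,⟨0,[(15,0),(0,0),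
  (16,0)]⟩⟩,⟨true,0,⟨0,[]⟩,⟨0,[(36,0)]⟩⟩,⟨false,0,⟨0,[(1,0)]⟩,⟨3,[(4,1),(2,3),(5,0),(0,0),(0,1),(0,
  1)]⟩⟩,⟨false,1,⟨1,[(4,0),(7,0),(21,0)]⟩,⟨0,[(32,0)]⟩⟩,⟨true,0,⟨5,[(1,2),(0,0),(6,0),(7,0),(1,0),
  (10,0)]⟩,⟨0,[(7,0),(12,0)]⟩⟩,[]⟩)) (.I [0,0,-1,-1,0,0,0,1,-1] (.Q [0,0,-1,0,0,0,1,1,-1,0,-1,1]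
  (.p false [0,0,1] [0,0,0,1] (⟨0,[(25,0)]⟩,⟨0,[(24,0)]⟩) .k 2 (⟨0,[(16,0)]⟩,⟨0,[(15,0)]⟩) .k (.x
  (-1) ⟨0,[(21,0),(3,0),(7,0)]⟩ ⟨1,[(2,0),(19,0),(1,1)]⟩)) (.Q [0,1,1,0,0,0,0,0,1,0,0,-1] (.p false
  [0,0,0,1] [] (⟨0,[(17,0)]⟩,⟨0,[(16,0)]⟩) .k 0 (⟨0,[]⟩,⟨0,[]⟩) .k .k) (.I [0,0,1,1,0,0,0,0,-1] (.K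
  ⟨0,[0,0,0,1],0,0,(⟨0,[(19,0)]⟩,⟨0,[(18,0)]⟩),.k,(.r (-1) ⟨1,[(17,0),(17,1),(0,0)]⟩ ⟨0,[(0,0)]⟩),
  (.x 0 ⟨0,[(31,0)]⟩ ⟨3,[(16,0),(0,0),(11,1),(0,3)]⟩),.k,.k,[⟨0,[(19,0)]⟩,⟨0,[(18,0)]⟩,⟨0,[(2,0),
  (20,0)]⟩,⟨0,[(1,0)]⟩]⟩) (.K ⟨0,[0,0,0,1],0,0,(⟨0,[(19,0)]⟩,⟨0,[(18,0)]⟩),.k,(.x 0 ⟨1,[(5,0),(18,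
  1),(0,0),(4,1)]⟩ ⟨0,[(31,0),(4,0)]⟩),(.x 0 ⟨0,[(31,0)]⟩ ⟨3,[(16,0),(0,0),(11,1),(0,3)]⟩),.k,.k,
  [⟨0,[(19,0)]⟩,⟨0,[(18,0)]⟩,⟨0,[(2,0),(20,0)]⟩,⟨0,[(1,0)]⟩]⟩)) (.Q [0,0,0,0,0,1,0,0,0,-1,0,1] (.p
  true [0,0,0,1] [1] (⟨0,[(18,0)]⟩,⟨0,[(17,0)]⟩) .k 1 (⟨0,[]⟩,⟨0,[]⟩) .k .k) (.R ⟨0,false,false,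
  true,[1,0,0,-1],[0,1],[0,1,0,0,0,0,0,0,-1],(⟨0,[(18,0)]⟩,⟨0,[(19,0)]⟩),(⟨0,[(31,0)]⟩,⟨0,[(30,
  0)]⟩),⟨0,[(0,0)]⟩,.k,.k,(.x (-1) ⟨3,[(16,0),(0,0),(11,1),(0,3)]⟩ ⟨0,[(31,0)]⟩),(.x (-1) ⟨3,[(16,
  0),(0,0),(11,1),(0,3)]⟩ ⟨0,[(31,0)]⟩),.k,.k,⟨false,0,⟨0,[(1,0),(12,0),(3,0),(1,0),(12,0)]⟩,⟨3,[(4,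
  1),(12,1),(6,1),(0,1),(3,0),(7,0)]⟩⟩,⟨true,0,⟨0,[(18,0)]⟩,⟨1,[(5,0),(13,1),(4,0)]⟩⟩,⟨true,0,⟨0,
  [(39,0)]⟩,⟨0,[]⟩⟩,⟨false,1,⟨3,[(4,1),(12,1),(0,3),(5,1),(0,1),(3,0),(7,0)]⟩,⟨0,[(1,0),(12,0),(5,
  0)]⟩⟩,⟨false,0,⟨0,[]⟩,⟨0,[]⟩⟩,⟨false,0,⟨0,[]⟩,⟨0,[]⟩⟩,[.o ⟨false,0,⟨0,[(34,0)]⟩,⟨1,[(29,0),(5,1),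
  (1,0)]⟩⟩,.o ⟨false,1,⟨3,[(4,1),(11,0),(0,0),(11,0),(7,0)]⟩,⟨0,[(14,0),(5,0)]⟩⟩,.o ⟨false,1,⟨1,
  [(19,1),(9,0),(6,0)]⟩,⟨1,[(5,0),(12,1),(5,0)]⟩⟩,.a ⟨true,0,⟨0,[(19,0)]⟩,⟨0,[(18,0)]⟩⟩ ⟨false,0,⟨3,
  [(1,2),(1,0),(1,0),(6,1),(5,2),(1,0),(12,0),(0,0)]⟩,⟨1,[(17,0),(6,0),(0,0),(11,0)]⟩⟩ ⟨true,0,⟨0,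
  [(18,0),(15,0)]⟩,⟨0,[(14,0),(4,0),(0,0)]⟩⟩]⟩) (.R ⟨1,false,false,true,[1,0,0,-1],[0,1],[0,1,0,-1,
  0,0,0,0,-1],(⟨0,[(18,0)]⟩,⟨0,[(19,0)]⟩),(⟨0,[(31,0)]⟩,⟨0,[(30,0)]⟩),⟨0,[(0,0)]⟩,.k,.k,(.x (-1) ⟨3,
  [(16,0),(0,0),(11,1),(0,3)]⟩ ⟨0,[(31,0)]⟩),(.x (-1) ⟨3,[(16,0),(0,0),(11,1),(0,3)]⟩ ⟨0,[(31,0)]⟩),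
  (.r 0 ⟨0,[(1,0),(12,0),(3,0),(1,0),(12,0),(1,0)]⟩ ⟨1,[(4,1),(0,0),(11,0),(6,1),(0,0),(11,0)]⟩),.k,
  ⟨false,0,⟨0,[(1,0),(12,0),(3,0),(1,0),(12,0),(1,0)]⟩,⟨1,[(4,1),(0,0),(11,0),(6,0),(12,0)]⟩⟩,⟨true,
  0,⟨0,[(18,0)]⟩,⟨1,[(5,0),(13,1),(4,0)]⟩⟩,⟨false,0,⟨0,[(35,0)]⟩,⟨3,[(4,1),(24,0),(7,2)]⟩⟩,⟨false,1,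
  ⟨3,[(4,1),(12,1),(0,3),(5,1),(0,1),(3,0),(7,0)]⟩,⟨0,[(1,0),(12,0),(5,0)]⟩⟩,⟨true,0,⟨0,[(39,0)]⟩,
  ⟨0,[]⟩⟩,⟨false,1,⟨1,[(4,1),(0,0),(11,0),(0,1),(5,0),(12,0)]⟩,⟨0,[(1,0),(12,0),(5,0),(14,0)]⟩⟩,[.o
  ⟨false,0,⟨0,[(34,0)]⟩,⟨1,[(29,0),(5,1),(1,0)]⟩⟩,.o ⟨false,1,⟨3,[(4,1),(11,0),(0,0),(11,0),(7,0)]⟩,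
  ⟨0,[(14,0),(5,0)]⟩⟩,.o ⟨false,1,⟨1,[(19,1),(9,0),(6,0)]⟩,⟨1,[(5,0),(12,1),(5,0)]⟩⟩,.a ⟨true,0,⟨0,
  [(19,0)]⟩,⟨0,[(18,0)]⟩⟩ ⟨false,0,⟨1,[(1,0),(1,0),(8,0),(5,0),(1,0),(14,0)]⟩,⟨0,[(1,0),(3,0),(4,0),
  (2,0),(3,0),(0,0)]⟩⟩ ⟨true,0,⟨0,[(18,0),(15,0)]⟩,⟨0,[(14,0),(4,0),(0,0)]⟩⟩]⟩))) (.R ⟨1,true,false,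
  false,[0,0,1],[0,0,0,1],[1,1,0,0,0,0,0,1],(⟨0,[(26,0)]⟩,⟨0,[(25,0)]⟩),(⟨0,[(17,0)]⟩,⟨0,[(16,0)]⟩),
  ⟨0,[(7,0)]⟩,.k,.k,.k,.k,(.r 0 ⟨0,[(1,0)]⟩ ⟨15,[(2,3),(2,3),(5,7),(2,0),(0,8),(6,7),(12,1)]⟩),.k,
  ⟨false,0,⟨0,[(1,0),(30,0)]⟩,⟨1,[(0,1),(9,1),(6,1),(16,0),(0,0)]⟩⟩,⟨true,0,⟨1,[(3,0),(12,1),(6,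
  0)]⟩,⟨0,[(10,0),(6,0)]⟩⟩,⟨false,0,⟨0,[]⟩,⟨3,[(14,0),(0,0),(19,1)]⟩⟩,⟨true,0,⟨0,[(0,0)]⟩,⟨0,[(1,0),
  (8,0),(6,0),(14,0)]⟩⟩,⟨true,0,⟨0,[(32,0)]⟩,⟨0,[(33,0)]⟩⟩,⟨false,1,⟨3,[(0,3),(1,1),(24,0),(7,2)]⟩,
  ⟨0,[(1,0),(8,0),(6,0)]⟩⟩,[]⟩)) (.Q [0,0,0,0,0,1,0,0,0,-1,0,1] (.p true [0,0,0,1] [1] (⟨0,[(16,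
  0)]⟩,⟨0,[(15,0)]⟩) .k 1 (⟨0,[]⟩,⟨0,[]⟩) .k .k) (.I [1,-1,-1,0,1,0,0,0,-1] (.R ⟨0,false,false,true,
  [1,0,0,-1],[0,1],[0,1,0,0,0,0,0,0,-1],(⟨0,[(17,0)]⟩,⟨0,[(18,0)]⟩),(⟨0,[(30,0)]⟩,⟨0,[(29,0)]⟩),⟨0,
  [(1,0)]⟩,.k,.k,(.x (-1) ⟨3,[(15,0),(0,0),(11,1),(0,3)]⟩ ⟨0,[(30,0)]⟩),(.x (-1) ⟨3,[(15,0),(0,0),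
  (11,1),(0,3)]⟩ ⟨0,[(30,0)]⟩),.k,.k,⟨false,1,⟨0,[(0,0),(31,0),(1,0)]⟩,⟨0,[(2,0),(22,0)]⟩⟩,⟨true,0,
  ⟨0,[(17,0)]⟩,⟨1,[(4,0),(13,1),(4,0)]⟩⟩,⟨true,0,⟨0,[(38,0)]⟩,⟨0,[]⟩⟩,⟨false,0,⟨0,[(2,0),(14,0),(7,
  0)]⟩,⟨0,[(0,0),(12,0),(4,0),(0,0)]⟩⟩,⟨false,0,⟨0,[]⟩,⟨0,[]⟩⟩,⟨false,0,⟨0,[]⟩,⟨0,[]⟩⟩,[.o ⟨false,0,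
  ⟨0,[(33,0)]⟩,⟨1,[(28,0),(5,1),(1,0)]⟩⟩,.o ⟨false,1,⟨3,[(3,1),(11,0),(0,0),(11,0),(7,0)]⟩,⟨0,[(13,
  0),(5,0)]⟩⟩,.o ⟨false,1,⟨1,[(18,1),(9,0),(6,0)]⟩,⟨1,[(4,0),(12,1),(5,0)]⟩⟩,.a ⟨true,0,⟨0,[(18,
  0)]⟩,⟨0,[(17,0)]⟩⟩ ⟨false,1,⟨1,[(15,0),(19,0)]⟩,⟨0,[(2,0),(7,0),(20,0)]⟩⟩ ⟨true,0,⟨0,[(17,0),(15,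
  0)]⟩,⟨0,[(13,0),(4,0),(0,0)]⟩⟩]⟩) (.R ⟨0,false,false,true,[1,0,0,-1],[1,0,-1],[1,1,1],(⟨0,[(17,
  0)]⟩,⟨0,[(18,0)]⟩),(⟨0,[(26,0)]⟩,⟨0,[(27,0)]⟩),⟨0,[(1,0)]⟩,.k,.k,(.x (-1) ⟨3,[(15,0),(0,0),(11,1),
  (0,3)]⟩ ⟨0,[(30,0)]⟩),.k,.k,.k,⟨false,0,⟨0,[(25,0)]⟩,⟨0,[(12,0),(22,0)]⟩⟩,⟨true,0,⟨1,[(4,0),(12,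
  1),(6,0)]⟩,⟨0,[(11,0),(6,0)]⟩⟩,⟨true,(-1),⟨0,[(0,0)]⟩,⟨1,[(15,0),(19,0)]⟩⟩,⟨false,0,⟨0,[(0,0),(6,
  0),(5,0),(3,0)]⟩,⟨1,[(10,1),(0,1),(3,0),(2,1),(17,0)]⟩⟩,⟨false,0,⟨0,[]⟩,⟨0,[]⟩⟩,⟨false,0,⟨0,[]⟩,
  ⟨0,[]⟩⟩,[.o ⟨false,0,⟨0,[(19,0)]⟩,⟨7,[(14,3),(0,0),(0,0),(11,1),(7,3)]⟩⟩,.o ⟨false,1,⟨7,[(7,3),(7,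
  0),(0,0),(11,1),(5,3)]⟩,⟨4,[(4,0),(5,0),(0,1),(2,1)]⟩⟩,.o ⟨false,1,⟨1,[(18,1),(9,0),(6,0)]⟩,⟨1,
  [(4,0),(12,1),(5,0)]⟩⟩,.a ⟨true,0,⟨0,[(18,0)]⟩,⟨0,[(17,0)]⟩⟩ ⟨false,0,⟨0,[]⟩,⟨3,[(15,0),(0,0),(19,
  1)]⟩⟩ ⟨true,0,⟨0,[(17,0),(1,0)]⟩,⟨4,[(4,0),(5,0),(0,1),(2,1),(3,4)]⟩⟩]⟩)) (.Q [0,0,1,1,0,0,-1,-1,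
  1,0,1,-1] (.p true [0,0,1] [0,0,0,1] (⟨0,[(26,0)]⟩,⟨0,[(25,0)]⟩) .k 2 (⟨0,[(17,0)]⟩,⟨0,[(16,0)]⟩)
  .k (.x (-1) ⟨0,[(22,0),(3,0),(7,0)]⟩ ⟨1,[(3,0),(19,0),(1,1)]⟩)) (.Q [0,-1,-1,-1,1,0,0,0,-1,-1,0,
  1] (.p true [0,0,0,1] [1] (⟨0,[(18,0)]⟩,⟨0,[(17,0)]⟩) .k 1 (⟨0,[]⟩,⟨0,[]⟩) .k .k) (.R ⟨1,false,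
  false,true,[1,0,0,-1],[0,1],[1,1,0,0,0,0,0,0,-1],(⟨0,[(18,0)]⟩,⟨0,[(19,0)]⟩),(⟨0,[(31,0)]⟩,⟨0,
  [(30,0)]⟩),⟨0,[(2,0)]⟩,.k,.k,(.x (-1) ⟨3,[(16,0),(0,0),(11,1),(0,3)]⟩ ⟨0,[(31,0)]⟩),(.x (-1) ⟨3,
  [(16,0),(0,0),(11,1),(0,3)]⟩ ⟨0,[(31,0)]⟩),(.r (-1) ⟨0,[(0,0),(17,0),(14,0),(1,0)]⟩ ⟨1,[(3,1),(1,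
  0),(4,1),(14,0)]⟩),.k,⟨false,1,⟨0,[(0,0),(17,0),(14,0)]⟩,⟨0,[(3,0),(22,0)]⟩⟩,⟨true,0,⟨0,[(18,0)]⟩,
  ⟨1,[(5,0),(13,1),(4,0)]⟩⟩,⟨false,0,⟨0,[]⟩,⟨3,[(16,0),(0,0),(19,1)]⟩⟩,⟨false,0,⟨1,[(1,1),(13,0),(2,
  0),(0,0)]⟩,⟨0,[(0,0)]⟩⟩,⟨true,0,⟨0,[(34,0)]⟩,⟨0,[(35,0)]⟩⟩,⟨false,0,⟨0,[(1,0),(8,0)]⟩,⟨0,[(0,0),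
  (34,0)]⟩⟩,[.o ⟨false,0,⟨0,[(34,0)]⟩,⟨1,[(29,0),(5,1),(1,0)]⟩⟩,.o ⟨false,1,⟨3,[(4,1),(11,0),(0,0),
  (11,0),(7,0)]⟩,⟨0,[(14,0),(5,0)]⟩⟩,.o ⟨false,1,⟨1,[(19,1),(9,0),(6,0)]⟩,⟨1,[(5,0),(12,1),(5,0)]⟩⟩,
  .a ⟨true,0,⟨0,[(19,0)]⟩,⟨0,[(18,0)]⟩⟩ ⟨false,1,⟨1,[(16,0),(19,0)]⟩,⟨0,[(1,0),(12,0),(4,0)]⟩⟩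
  ⟨true,0,⟨0,[(18,0),(15,0)]⟩,⟨0,[(14,0),(4,0),(0,0)]⟩⟩]⟩) (.I [1,0,0,0,0,0,0,-1,1] (.K ⟨0,[0,0,0,
  1],0,(-1),(⟨0,[(20,0)]⟩,⟨0,[(19,0)]⟩),.k,(.r 0 ⟨0,[(0,0),(11,0),(23,0)]⟩ ⟨3,[(5,1),(11,1),(7,1),
  (0,1),(3,0),(7,0)]⟩),(.x 0 ⟨0,[(32,0)]⟩ ⟨3,[(17,0),(0,0),(11,1),(0,3)]⟩),.k,.k,[⟨0,[(20,0)]⟩,⟨0,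
  [(19,0)]⟩,⟨1,[(17,0),(2,1),(16,0),(2,1)]⟩,⟨0,[(1,0),(13,0),(5,0)]⟩]⟩) (.K ⟨0,[0,0,0,1],0,(-1),(⟨0,
  [(20,0)]⟩,⟨0,[(19,0)]⟩),.k,(.x 0 ⟨1,[(6,0),(18,1),(0,0),(4,1)]⟩ ⟨0,[(32,0),(4,0)]⟩),(.x 0 ⟨0,[(32,
  0)]⟩ ⟨3,[(17,0),(0,0),(11,1),(0,3)]⟩),.k,.k,[⟨0,[(20,0)]⟩,⟨0,[(19,0)]⟩,⟨1,[(17,0),(2,1),(16,0),(2,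
  1)]⟩,⟨0,[(1,0),(13,0),(5,0)]⟩]⟩))) (.R ⟨1,true,false,false,[0,0,1],[0,0,0,1],[1,1,0,0,0,0,0,1],
  (⟨0,[(27,0)]⟩,⟨0,[(26,0)]⟩),(⟨0,[(18,0)]⟩,⟨0,[(17,0)]⟩),⟨0,[(8,0)]⟩,.k,.k,.k,.k,(.x 0 ⟨0,[(8,0),
  (2,0)]⟩ ⟨1,[(24,1),(1,1),(1,0),(1,1),(4,0)]⟩),.k,⟨false,0,⟨1,[(0,1),(2,0),(0,0),(5,0),(6,1),(1,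
  0)]⟩,⟨1,[(2,1),(31,1),(0,0),(0,0)]⟩⟩,⟨true,0,⟨1,[(4,0),(12,1),(6,0)]⟩,⟨0,[(11,0),(6,0)]⟩⟩,⟨false,
  0,⟨0,[]⟩,⟨3,[(15,0),(0,0),(19,1)]⟩⟩,⟨true,0,⟨0,[(2,0),(7,0),(6,0),(1,0),(11,0)]⟩,⟨0,[(0,0),(32,
  0)]⟩⟩,⟨true,0,⟨0,[(33,0)]⟩,⟨0,[(34,0)]⟩⟩,⟨false,1,⟨7,[(2,3),(1,2),(1,1),(9,1),(0,7),(6,0),(11,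
  3)]⟩,⟨0,[(0,0)]⟩⟩,[]⟩)))))))) (.R ⟨1,true,false,true,[0,0,1],[1,0,-1],[0,1],(⟨0,[(20,0)]⟩,⟨0,[(19,
  0)]⟩),(⟨0,[(19,0)]⟩,⟨0,[(20,0)]⟩),⟨0,[(1,0)]⟩,.k,.k,.k,.k,(.r 0 ⟨0,[(3,0),(14,0),(8,0)]⟩ ⟨1,[(5,
  3),(20,1),(1,0),(0,0)]⟩),.k,⟨true,0,⟨0,[(18,0)]⟩,⟨0,[(5,0)]⟩⟩,⟨false,1,⟨1,[(3,1),(8,1),(4,1),(10,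
  0),(0,0)]⟩,⟨0,[(4,1),(5,0),(0,0)]⟩⟩,⟨true,0,⟨0,[(4,0),(10,0)]⟩,⟨0,[(18,0)]⟩⟩,⟨false,1,⟨0,[(12,0),
  (2,0),(13,0)]⟩,⟨0,[(2,0),(3,0)]⟩⟩,⟨false,1,⟨1,[(5,1),(20,1),(1,0),(0,0)]⟩,⟨0,[(3,0),(20,0)]⟩⟩,
  ⟨true,1,⟨0,[(12,0),(2,0),(10,0),(2,0)]⟩,⟨0,[(0,0)]⟩⟩,[]⟩))

theorem ok51 : chk (cU (-1) true 3) t51 r28 = true := by decide +kernel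

end Helper11.CT.Tm1_2_m1_1_u
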