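import Pool.Agent.Helper11.CT.T.Tm1_2_m1_1_u_p0
import Pool.Agent.Helper11.CT.T.Tm1_2_m1_1_u_p1

set_option autoImplicit false
set_option linter.all false

namespace Helper11.CT.Tm1_2_m1_1_u

open Helper11.CT

noncomputable def t3 : Tre :=
  .I [1,1,0,1,0,0,0,-1] t1 t2

theorem ok3 : chk (cU (-1) true 3) t3 l5 = true :=
  chk_I (e' := [0,-1,0,-1,0,0,0,1]) (by decide +kernel) (by decide +kernel) ok1 ok2

noncomputable def t5 : Tre :=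
  .I [0,0,2,2,0,0,0,1] t3 t4

theorem ok5 : chk (cU (-1) true 3) t5 r4 = true :=
  chk_I (e' := [1,0,-2,-2,0,0,0,-1]) (by decide +kernel) (by decide +kernel) ok3 ok4

noncomputable def t6 : Tre :=
  .Q [0,-1,0,-1,0,0,-1,-1,0,0,1] (.p true [0,0,1] [] (⟨0,[(17,0)]⟩,⟨0,[(16,0)]⟩) .k 0 (⟨0,[]⟩,⟨0,
  []⟩) .k .k) t0 t5

theorem ok6 : chk (cU (-1) true 3) t6 l3 = true :=
  chk_Q (e' := [0,1,0,1,0,0,1,1,0,0,-1]) (by decide +kernel) (by decide +kernel) ok0 ok5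

noncomputable def t8 : Tre :=
  .Q [0,0,0,0,0,0,1,0,0,1,-1] (.p false [0,0,1] [1] (⟨0,[(16,0)]⟩,⟨0,[(15,0)]⟩) .k 1 (⟨0,[]⟩,⟨0,
  []⟩) .k .k) t6 t7

theorem ok8 : chk (cU (-1) true 3) t8 l2 = true :=
  chk_Q (e' := [0,0,0,0,0,0,-1,0,0,-1,1]) (by decide +kernel) (by decide +kernel) ok6 ok7

noncomputable def t13 : Tre :=
  .I [0,0,-2,-2,1,0,0,-1] t11 t12

theorem ok13 : chk (cU (-1) true 3) t13 r13 = true :=
  chk_I (e' := [1,0,2,2,-1,0,0,1]) (by decide +kernel) (by decide +kernel) ok11 ok12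

noncomputable def t14 : Tre :=
  .I [0,0,-2,0,0,2] t10 t13

theorem ok14 : chk (cU (-1) true 3) t14 l12 = true :=
  chk_I (e' := [1,0,2,0,0,-2]) (by decide +kernel) (by decide +kernel) ok10 ok13

noncomputable def t16 : Tre :=
  .Q [0,0,1,1,0,0,1,0,0,1,-1] (.p false [0,0,1] [1] (⟨0,[(21,0)]⟩,⟨0,[(20,0)]⟩) .k 1 (⟨0,[]⟩,⟨0,
  []⟩) .k .k) t14 t15

theorem ok16 : chk (cU (-1) true 3) t16 l11 = true :=
  chk_Q (e' := [0,0,-1,-1,0,0,-1,0,0,-1,1]) (by decide +kernel) (by decide +kernel) ok14 ok15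

noncomputable def t18 : Tre :=
  .Q [0,-1,0,-1,1,0,-2,-1,0,-2,2] (.p true [0,0,1] [2,-1,-1] (⟨0,[(20,0)]⟩,⟨0,[(19,0)]⟩) .k 2 (⟨0,
  [(19,0),(2,0)]⟩,⟨0,[(4,0)]⟩) .k (.r 0 ⟨0,[(18,1)]⟩ ⟨0,[(3,1),(8,1),(16,0)]⟩)) t16 t17

theorem ok18 : chk (cU (-1) true 3) t18 l10 = true :=
  chk_Q (e' := [0,1,0,1,-1,0,2,1,0,2,-2]) (by decide +kernel) (by decide +kernel) ok16 ok17

noncomputable def t20 : Tre :=
  .I [1,-1,2,1,0,0,0,1] t18 t19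

theorem ok20 : chk (cU (-1) true 3) t20 r9 = true :=
  chk_I (e' := [0,1,-2,-1,0,0,0,-1]) (by decide +kernel) (by decide +kernel) ok18 ok19

noncomputable def t21 : Tre :=
  .Q [0,0,-2,0,0,0,1,0,0,2,-1] (.p false [-1,1,1] [1] (⟨0,[(2,0)]⟩,⟨0,[(17,0),(2,0)]⟩) .k 1 (⟨0,[]⟩,
  ⟨0,[]⟩) .k .k) t9 t20

theorem ok21 : chk (cU (-1) true 3) t21 l8 = true :=
  chk_Q (e' := [0,0,2,0,0,0,-1,0,0,-2,1]) (by decide +kernel) (by decide +kernel) ok9 ok20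

noncomputable def t23 : Tre :=
  .I [0,0,2,2,0,0,0,1] t21 t22

theorem ok23 : chk (cU (-1) true 3) t23 l7 = true :=
  chk_I (e' := [1,0,-2,-2,0,0,0,-1]) (by decide +kernel) (by decide +kernel) ok21 ok22

noncomputable def t25 : Tre :=
  .Q [0,0,0,0,0,0,1,0,0,1,-1] (.p false [0,0,1] [1] (⟨0,[(16,0)]⟩,⟨0,[(15,0)]⟩) .k 1 (⟨0,[]⟩,⟨0,
  []⟩) .k .k) t23 t24

theorem ok25 : chk (cU (-1) true 3) t25 r2 = true :=
  chk_Q (e' := [0,0,0,0,0,0,-1,0,0,-1,1]) (by decide +kernel) (by decide +kernel) ok23 ok24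

noncomputable def t26 : Tre :=
  .Q [0,0,0,0,0,-1,0,0,0,1,-1] (.ed true [0,1,1] .k) t8 t25

theorem ok26 : chk (cU (-1) true 3) t26 l1 = true :=
  chk_Q (e' := [0,0,0,0,0,1,0,0,0,-1,1]) (by decide +kernel) (by decide +kernel) ok8 ok25

noncomputable def t28 : Tre :=
  .Q [0,0,0,1,0,0,1,1,0,1,-1] (.p false [0,0,1] [1] (⟨0,[(14,0)]⟩,⟨0,[(13,0)]⟩) .k 1 (⟨0,[]⟩,⟨0,
  []⟩) .k .k) t26 t27

theorem ok28 : chk (cU (-1) true 3) t28 l0 = true :=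
  chk_Q (e' := [0,0,0,-1,0,0,-1,-1,0,-1,1]) (by decide +kernel) (by decide +kernel) ok26 ok27

noncomputable def t39 : Tre :=
  .Q [0,1,0,2,0,0,0,0,0,1] (.pp false [-1,1]) t37 t38

theorem ok39 : chk (cU (-1) true 3) t39 r23 = true :=
  chk_Q (e' := [0,-1,0,-2,0,0,0,0,0,-1]) (by decide +kernel) (by decide +kernel) ok37 ok38

noncomputable def t40 : Tre :=
  .I [1,1,-2,-2,-1,0,0,2] t36 t39

theorem ok40 : chk (cU (-1) true 3) t40 r22 = true :=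
  chk_I (e' := [0,-1,2,2,1,0,0,-2]) (by decide +kernel) (by decide +kernel) ok36 ok39

noncomputable def t41 : Tre :=
  .Q [0,1,0,0,-1,0,2,2,0,1,-2] (.p false [0,0,1] [1,0,-1] (⟨0,[(21,0)]⟩,⟨0,[(20,0)]⟩) .k 2 (⟨0,[(20,
  0)]⟩,⟨0,[(21,0)]⟩) .k (.r 0 ⟨0,[(19,1)]⟩ ⟨0,[(5,1),(10,1),(13,0)]⟩)) t35 t40

theorem ok41 : chk (cU (-1) true 3) t41 r21 = true :=
  chk_Q (e' := [0,-1,0,0,1,0,-2,-2,0,-1,2]) (by decide +kernel) (by decide +kernel) ok35 ok40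

noncomputable def t42 : Tre :=
  .Q [0,0,0,-1,0,0,-1,-1,0,0,1] (.p true [0,0,1] [] (⟨0,[(20,0)]⟩,⟨0,[(19,0)]⟩) .k 0 (⟨0,[]⟩,⟨0,
  []⟩) .k .k) t34 t41

theorem ok42 : chk (cU (-1) true 3) t42 r20 = true :=
  chk_Q (e' := [0,0,0,1,0,0,1,1,0,0,-1]) (by decide +kernel) (by decide +kernel) ok34 ok41

noncomputable def t43 : Tre :=
  .Q [0,0,0,0,0,1,0,0,0,-1,1] (.ed false [0,1,1] .k) t33 t42

theorem ok43 : chk (cU (-1) true 3) t43 r19 = true :=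
  chk_Q (e' := [0,0,0,0,0,-1,0,0,0,1,-1]) (by decide +kernel) (by decide +kernel) ok33 ok42

noncomputable def t44 : Tre :=
  .Q [0,0,0,-1,-1,0,2,2,0,1,-2] (.p false [0,0,1] [1,0,-1] (⟨0,[(18,0)]⟩,⟨0,[(17,0)]⟩) .k 2 (⟨0,
  [(17,0)]⟩,⟨0,[(18,0)]⟩) .k (.r 0 ⟨0,[(16,1)]⟩ ⟨0,[(2,1),(10,1),(13,0)]⟩)) t32 t43

theorem ok44 : chk (cU (-1) true 3) t44 r18 = true :=
  chk_Q (e' := [0,0,0,1,1,0,-2,-2,0,-1,2]) (by decide +kernel) (by decide +kernel) ok32 ok43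

noncomputable def t45 : Tre :=
  .Q [0,0,0,0,0,1,0,0,0,0,-1] (.ed true [1,-1,1] .k) t31 t44

theorem ok45 : chk (cU (-1) true 3) t45 r17 = true :=
  chk_Q (e' := [0,0,0,0,0,-1,0,0,0,0,1]) (by decide +kernel) (by decide +kernel) ok31 ok44

noncomputable def t46 : Tre :=
  .Q [0,0,0,-1,0,0,-1,-1,0,-1,1] (.p true [0,0,1] [1] (⟨0,[(16,0)]⟩,⟨0,[(15,0)]⟩) .k 1 (⟨0,[]⟩,⟨0,
  []⟩) .k .k) t30 t45

theorem ok46 : chk (cU (-1) true 3) t46 r16 = true :=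
  chk_Q (e' := [0,0,0,1,0,0,1,1,0,1,-1]) (by decide +kernel) (by decide +kernel) ok30 ok45

noncomputable def t47 : Tre :=
  .Q [0,0,0,0,0,0,-1,0,0,0,1] (.p true [0,0,1] [] (⟨0,[(15,0)]⟩,⟨0,[(14,0)]⟩) .k 0 (⟨0,[]⟩,⟨0,[]⟩)
  .k .k) t29 t46

theorem ok47 : chk (cU (-1) true 3) t47 l15 = true :=
  chk_Q (e' := [0,0,0,0,0,0,1,0,0,0,-1]) (by decide +kernel) (by decide +kernel) ok29 ok46

noncomputable def t52 : Tre :=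
  .Q [0,0,0,0,0,1,0,0,0,0,-1] (.ed true [1,-1,1] .k) t50 t51

theorem ok52 : chk (cU (-1) true 3) t52 l27 = true :=
  chk_Q (e' := [0,0,0,0,0,-1,0,0,0,0,1]) (by decide +kernel) (by decide +kernel) ok50 ok51

noncomputable def t54 : Tre :=
  .Q [0,0,0,1,0,0,1,1,0,1,-1] (.p false [0,0,1] [1] (⟨0,[(17,0)]⟩,⟨0,[(16,0)]⟩) .k 1 (⟨0,[]⟩,⟨0,
  []⟩) .k .k) t52 t53

theorem ok54 : chk (cU (-1) true 3) t54 r26 = true :=
  chk_Q (e' := [0,0,0,-1,0,0,-1,-1,0,-1,1]) (by decide +kernel) (by decide +kernel) ok52 ok53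

noncomputable def t55 : Tre :=
  .I [0,0,1,0,0,0,0,-1] t49 t54

theorem ok55 : chk (cU (-1) true 3) t55 r25 = true :=
  chk_I (e' := [1,0,-1,0,0,0,0,1]) (by decide +kernel) (by decide +kernel) ok49 ok54

noncomputable def t56 : Tre :=
  .Q [0,0,0,0,0,0,-1,0,0,0,1] (.p true [0,0,1] [] (⟨0,[(15,0)]⟩,⟨0,[(14,0)]⟩) .k 0 (⟨0,[]⟩,⟨0,[]⟩)
  .k .k) t48 t55

theorem ok56 : chk (cU (-1) true 3) t56 r15 = true :=
  chk_Q (e' := [0,0,0,0,0,0,1,0,0,0,-1]) (by decide +kernel) (by decide +kernel) ok48 ok55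

noncomputable def t57 : Tre :=
  .I [0,0,-1,0,0,0,0,1] t47 t56

theorem ok57 : chk (cU (-1) true 3) t57 r0 = true :=
  chk_I (e' := [1,0,1,0,0,0,0,-1]) (by decide +kernel) (by decide +kernel) ok47 ok56

noncomputable def t58 : Tre :=
  .Q [0,1,0,1,0,0,-1,-1,0,0,1] (.p true [0,0,1] [] (⟨0,[(13,0)]⟩,⟨0,[(12,0)]⟩) .k 0 (⟨0,[]⟩,⟨0,[]⟩)
  .k .k) t28 t57

theorem ok58 : chk (cU (-1) true 3) t58 base = true :=
  chk_Q (e' := [0,-1,0,-1,0,0,1,1,0,0,-1]) (by decide +kernel) (by decide +kernel) ok28 ok57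

theorem ok : chkB (cU (-1) true 3) (fax (fcU (-1)) false 2 (-1) 3 true (tU true)) t58 base = true :=
  chkB_of (by decide +kernel) ok58

end Helper11.CT.Tm1_2_m1_1_u
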