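import Pool.Agent.Helper11.CT.T.Tm1_2_m1_1_v_p0

set_option autoImplicit false
set_option linter.all false

namespace Helper11.CT.Tm1_2_m1_1_v

open Helper11.CT

noncomputable def t5 : Tre :=
  .Q [0,0,0,1,0,0,1,0,0,1,-1] (.p false [0,0,1] [1] (⟨0,[(20,0)]⟩,⟨0,[(19,0)]⟩) .k 1 (⟨0,[]⟩,⟨0,
  []⟩) .k .k) t3 t4

theorem ok5 : chk (cU (-1) false 3) t5 r6 = true :=
  chk_Q (e' := [0,0,0,-1,0,0,-1,0,0,-1,1]) (by decide +kernel) (by decide +kernel) ok3 ok4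

noncomputable def t6 : Tre :=
  .I [0,0,-2,-2,1,0,0,-1] t2 t5

theorem ok6 : chk (cU (-1) false 3) t6 r5 = true :=
  chk_I (e' := [1,0,2,2,-1,0,0,1]) (by decide +kernel) (by decide +kernel) ok2 ok5

noncomputable def t7 : Tre :=
  .Q [0,0,-2,0,0,0,1,0,0,2,-1] (.p false [-1,1,1] [1] (⟨0,[(2,0)]⟩,⟨0,[(17,0),(2,0)]⟩) .k 1 (⟨0,[]⟩,
  ⟨0,[]⟩) .k .k) t1 t6

theorem ok7 : chk (cU (-1) false 3) t7 l4 = true :=
  chk_Q (e' := [0,0,2,0,0,0,-1,0,0,-2,1]) (by decide +kernel) (by decide +kernel) ok1 ok6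

noncomputable def t9 : Tre :=
  .Q [0,0,0,0,0,0,1,0,0,1,-1] (.p false [0,0,1] [1] (⟨0,[(17,0)]⟩,⟨0,[(16,0)]⟩) .k 1 (⟨0,[]⟩,⟨0,
  []⟩) .k .k) t7 t8

theorem ok9 : chk (cU (-1) false 3) t9 l3 = true :=
  chk_Q (e' := [0,0,0,0,0,0,-1,0,0,-1,1]) (by decide +kernel) (by decide +kernel) ok7 ok8

noncomputable def t11 : Tre :=
  .I [0,0,2,2,0,0,0,1] t9 t10

theorem ok11 : chk (cU (-1) false 3) t11 l2 = true :=
  chk_I (e' := [1,0,-2,-2,0,0,0,-1]) (by decide +kernel) (by decide +kernel) ok9 ok10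

noncomputable def t16 : Tre :=
  .I [0,0,-2,-2,1,0,0,-1] t14 t15

theorem ok16 : chk (cU (-1) false 3) t16 r13 = true :=
  chk_I (e' := [1,0,2,2,-1,0,0,1]) (by decide +kernel) (by decide +kernel) ok14 ok15

noncomputable def t17 : Tre :=
  .I [1,0,-2,-1,1,0,0,-1] t13 t16

theorem ok17 : chk (cU (-1) false 3) t17 l12 = true :=
  chk_I (e' := [0,0,2,1,-1,0,0,1]) (by decide +kernel) (by decide +kernel) ok13 ok16

noncomputable def t19 : Tre :=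
  .Q [0,0,0,1,0,0,2,2,0,1,-2] (.p false [0,0,1] [1,0,-1] (⟨0,[(20,0)]⟩,⟨0,[(19,0)]⟩) .k 2 (⟨0,[(19,
  0)]⟩,⟨0,[(20,0)]⟩) .k (.r 0 ⟨0,[(18,1)]⟩ ⟨0,[(2,1),(9,1),(16,0)]⟩)) t17 t18

theorem ok19 : chk (cU (-1) false 3) t19 l11 = true :=
  chk_Q (e' := [0,0,0,-1,0,0,-2,-2,0,-1,2]) (by decide +kernel) (by decide +kernel) ok17 ok18

noncomputable def t21 : Tre :=
  .I [0,0,2,2,0,0,0,1] t19 t20

theorem ok21 : chk (cU (-1) false 3) t21 r10 = true :=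
  chk_I (e' := [1,0,-2,-2,0,0,0,-1]) (by decide +kernel) (by decide +kernel) ok19 ok20

noncomputable def t22 : Tre :=
  .Q [0,0,0,0,0,0,-2,-1,0,-1,2] (.p true [0,0,1] [1,0,-1] (⟨0,[(18,0)]⟩,⟨0,[(17,0)]⟩) .k 2 (⟨0,[(17,
  0)]⟩,⟨0,[(18,0)]⟩) .k (.r 0 ⟨0,[(16,1)]⟩ ⟨0,[(0,1),(9,1),(16,0)]⟩)) t12 t21

theorem ok22 : chk (cU (-1) false 3) t22 l9 = true :=
  chk_Q (e' := [0,0,0,0,0,0,2,1,0,1,-2]) (by decide +kernel) (by decide +kernel) ok12 ok21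

noncomputable def t24 : Tre :=
  .Q [0,0,0,0,0,0,1,0,0,1,-1] (.p false [0,0,1] [1] (⟨0,[(17,0)]⟩,⟨0,[(16,0)]⟩) .k 1 (⟨0,[]⟩,⟨0,
  []⟩) .k .k) t22 t23

theorem ok24 : chk (cU (-1) false 3) t24 l8 = true :=
  chk_Q (e' := [0,0,0,0,0,0,-1,0,0,-1,1]) (by decide +kernel) (by decide +kernel) ok22 ok23

noncomputable def t26 : Tre :=
  .Q [0,-1,0,0,1,0,0,0,1,0,0,-1] (.p false [0,0,0,1] [] (⟨0,[(7,0)]⟩,⟨1,[(6,0),(8,0),(0,0)]⟩) .k 0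
  (⟨0,[]⟩,⟨0,[]⟩) .k .k) t24 t25

theorem ok26 : chk (cU (-1) false 3) t26 r2 = true :=
  chk_Q (e' := [0,1,0,0,-1,0,0,0,-1,0,0,1]) (by decide +kernel) (by decide +kernel) ok24 ok25

noncomputable def t27 : Tre :=
  .Q [0,0,0,0,0,1,0,0,0,-1,1] (.ed false [0,1,1] .k) t11 t26

theorem ok27 : chk (cU (-1) false 3) t27 r1 = true :=
  chk_Q (e' := [0,0,0,0,0,-1,0,0,0,1,-1]) (by decide +kernel) (by decide +kernel) ok11 ok26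

noncomputable def t28 : Tre :=
  .Q [0,0,0,-1,0,0,-1,-1,0,-1,1] (.p true [0,0,1] [1] (⟨0,[(14,0)]⟩,⟨0,[(13,0)]⟩) .k 1 (⟨0,[]⟩,⟨0,
  []⟩) .k .k) t0 t27

theorem ok28 : chk (cU (-1) false 3) t28 l0 = true :=
  chk_Q (e' := [0,0,0,1,0,0,1,1,0,1,-1]) (by decide +kernel) (by decide +kernel) ok0 ok27

noncomputable def t31 : Tre :=
  .I [1,-1,-1,-1,0,0,0,1] t29 t30

theorem ok31 : chk (cU (-1) false 3) t31 r0 = true :=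
  chk_I (e' := [0,1,1,1,0,0,0,-1]) (by decide +kernel) (by decide +kernel) ok29 ok30

noncomputable def t32 : Tre :=
  .Q [0,1,0,1,0,0,-1,-1,0,0,1] (.p true [0,0,1] [] (⟨0,[(13,0)]⟩,⟨0,[(12,0)]⟩) .k 0 (⟨0,[]⟩,⟨0,[]⟩)
  .k .k) t28 t31

theorem ok32 : chk (cU (-1) false 3) t32 base = true :=
  chk_Q (e' := [0,-1,0,-1,0,0,1,1,0,0,-1]) (by decide +kernel) (by decide +kernel) ok28 ok31

theorem ok : chkB (cU (-1) false 3) (fax (fcU (-1)) false 2 (-1) 3 true (tU false)) t32 base = true :=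
  chkB_of (by decide +kernel) ok32

end Helper11.CT.Tm1_2_m1_1_v
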