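import Pool.Agent.Helper11.CT.Cfg
import Pool.Agent.Helper11.CT.Cut

set_option autoImplicit false
set_option linter.all false

namespace Helper11.CT.Tm1_2_m1_1_v2

open Helper11.CT

noncomputable def base : List Con :=
  [(false,[0,0,0,0,0,2,2,0,-2,2]),
  (false,[0,0,0,0,0,0,0,0,0,1]),
  (false,[0,1,0,0,0,-1,-1,0,1,-2]),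
  (false,[0,0,1,0,0,-1,0,0,1,-2]),
  (false,[0,1,0,0,0,1,1,0,-1]),
  (false,[0,1,0,0,0,-1,-1,0,1]),
  (false,[0,0,1,0,0,1,0,0,-1]),
  (false,[0,0,1,0,0,-1,0,0,1]),
  (true,[0,0,0,0,0,0,1]),
  (false,[0,0,0,0,0,0,0,0,-1,2]),
  (false,[0,0,0,0,0,0,0,0,1]),
  (false,[0,0,0,0,0,0,0,2,0,-4]),
  (false,[0,0,0,0,-1,0,0,0,0,2]),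
  (true,[0,0,0,0,1]),
  (true,[1,-1,1,-1]),
  (true,[0,1,-1]),
  (true,[0,1,0,1]),
  (true,[0,0,0,-1]),
  (true,[0,0,-2,0,0,0,0,2]),
  (true,[0,-2,0,0,0,0,0,2]),
  (true,[-1,0,1]),
  (true,[-1,1])]

noncomputable def t0 : Tre :=
  (.Q [0,1,0,0,0,0,0,-1,0,1] (.p true [0,0,0,1] [] (⟨0,[(1,0)]⟩,⟨0,[(1,0)]⟩) .k 0 (⟨0,[]⟩,⟨0,[]⟩)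
  .k .k) (.K ⟨1,[0,0,0,1],0,0,(⟨0,[(2,0)]⟩,⟨0,[(2,0)]⟩),.k,(.r 0 ⟨1,[(18,1),(0,0)]⟩ ⟨1,[(7,0),(0,0),
  (8,1),(2,0)]⟩),(.r 0 ⟨1,[(7,0),(0,0),(8,1),(2,0)]⟩ ⟨1,[(18,1),(0,0)]⟩),.k,.k,[⟨1,[(2,1),(4,0),(0,
  0)]⟩,⟨1,[(4,0),(2,0)]⟩,⟨0,[(0,0)]⟩,⟨1,[(2,1),(17,0)]⟩]⟩) (.Q [0,-1,0,1,0,0,0,1,0,1] (.p true [0,0,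
  0,1] [] (⟨0,[(2,0)]⟩,⟨0,[(2,0)]⟩) .k 0 (⟨0,[]⟩,⟨0,[]⟩) .k .k) (.Q [0,0,-1,0,0,0,0,0,0,2] (.pp
  false [-1,1]) (.R ⟨2,false,false,true,[0,1],[0,0,0,1],[0,0,1],(⟨0,[]⟩,⟨0,[]⟩),(⟨0,[(4,0)]⟩,⟨0,[(4,
  0)]⟩),⟨0,[]⟩,.k,.k,.k,(.r (-1) ⟨1,[(9,0),(0,0),(8,1),(2,0)]⟩ ⟨1,[(20,1),(0,0)]⟩),.k,.k,⟨false,1,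
  ⟨1,[(22,0)]⟩,⟨1,[(21,0),(2,1)]⟩⟩,⟨true,0,⟨1,[(6,0),(2,0)]⟩,⟨0,[(4,0)]⟩⟩,⟨true,0,⟨0,[(20,0)]⟩,⟨0,
  [(19,0)]⟩⟩,⟨false,0,⟨3,[(14,0),(5,3),(1,0),(1,1)]⟩,⟨0,[(1,0)]⟩⟩,⟨false,1,⟨0,[(22,0),(1,0)]⟩,⟨0,
  []⟩⟩,⟨false,0,⟨3,[(14,0),(7,0),(1,1)]⟩,⟨1,[(4,1),(17,0)]⟩⟩,[.o ⟨false,0,⟨3,[(14,0),(7,0),(1,5)]⟩,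
  ⟨0,[(2,0)]⟩⟩,.o ⟨false,0,⟨3,[(14,0),(7,0),(1,1)]⟩,⟨3,[(14,0),(7,0),(1,1)]⟩⟩,.a ⟨true,0,⟨0,[(0,
  0)]⟩,⟨1,[(9,0),(0,0)]⟩⟩ ⟨true,0,⟨1,[(9,0),(0,0)]⟩,⟨0,[(18,0)]⟩⟩ ⟨false,0,⟨3,[(9,1),(0,1),(3,0),(7,
  0),(1,1)]⟩,⟨0,[(0,0),(1,0)]⟩⟩,.e ⟨false,1,⟨0,[(22,0),(1,0)]⟩,⟨0,[]⟩⟩ ⟨false,0,⟨3,[(14,0),(7,0),(1,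
  1)]⟩,⟨1,[(4,1),(17,0)]⟩⟩]⟩) (.Q [0,0,0,-1,0,0,0,0,0,-2] (.pp true [-1,1]) (.Q [0,0,0,0,1,0,0,0,0,
  -1] (.p false [0,0,0,1] [] (⟨0,[(5,0)]⟩,⟨0,[(5,0)]⟩) .k 0 (⟨0,[]⟩,⟨0,[]⟩) .k .k) (.R ⟨0,false,
  false,false,[0,0,0,1],[1,-1],[1,0,0,0,0,0,0,1],(⟨0,[(6,0)]⟩,⟨0,[(6,0)]⟩),(⟨0,[(17,0)]⟩,⟨0,[(18,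
  0)]⟩),⟨0,[(0,0)]⟩,.k,.k,(.r 0 ⟨1,[(22,1),(0,0)]⟩ ⟨1,[(11,0),(0,0),(8,1),(2,0)]⟩),(.r 0 ⟨1,[(11,0),
  (0,0),(8,1),(2,0)]⟩ ⟨1,[(22,1),(0,0)]⟩),.k,.k,⟨false,0,⟨1,[(21,1),(2,0)]⟩,⟨1,[(22,1),(0,0)]⟩⟩,
  ⟨true,0,⟨3,[(2,1),(8,0),(0,0)]⟩,⟨0,[(6,0)]⟩⟩,⟨true,0,⟨0,[]⟩,⟨0,[(26,0)]⟩⟩,⟨false,1,⟨1,[(1,0),(20,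
  0),(1,0)]⟩,⟨0,[(3,0),(22,0)]⟩⟩,⟨false,0,⟨0,[]⟩,⟨0,[]⟩⟩,⟨false,0,⟨0,[]⟩,⟨0,[]⟩⟩,[.o ⟨false,0,⟨0,
  [(1,0)]⟩,⟨0,[(21,0),(2,0),(1,0)]⟩⟩,.o ⟨false,1,⟨1,[(16,0),(5,1),(1,0)]⟩,⟨0,[(21,0)]⟩⟩,.a ⟨true,0,
  ⟨0,[(6,0)]⟩,⟨0,[(6,0)]⟩⟩ ⟨false,0,⟨1,[(24,0)]⟩,⟨1,[(24,0),(1,1)]⟩⟩ ⟨true,0,⟨1,[(1,0),(20,0)]⟩,⟨0,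
  [(6,0),(14,0)]⟩⟩,.o ⟨false,0,⟨3,[(2,1),(8,0),(0,0)]⟩,⟨3,[(16,0),(6,1),(0,0),(1,1)]⟩⟩]⟩) (.R ⟨1,
  false,false,false,[0,0,0,1],[1,-1],[1,0,0,0,0,0,0,1],(⟨0,[(6,0)]⟩,⟨0,[(6,0)]⟩),(⟨0,[(17,0)]⟩,⟨0,
  [(18,0)]⟩),⟨0,[(0,0)]⟩,.k,.k,(.r 0 ⟨1,[(22,1),(0,0)]⟩ ⟨1,[(11,0),(0,0),(8,1),(2,0)]⟩),(.r 0 ⟨1,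
  [(11,0),(0,0),(8,1),(2,0)]⟩ ⟨1,[(22,1),(0,0)]⟩),.k,.k,⟨false,0,⟨1,[(21,1),(2,0)]⟩,⟨1,[(22,1),(0,
  0)]⟩⟩,⟨true,0,⟨3,[(2,1),(8,0),(0,0)]⟩,⟨0,[(6,0)]⟩⟩,⟨true,0,⟨0,[]⟩,⟨0,[(26,0)]⟩⟩,⟨false,1,⟨1,[(1,
  0),(20,0),(1,0)]⟩,⟨0,[(3,0),(22,0)]⟩⟩,⟨false,1,⟨0,[(21,0),(2,0)]⟩,⟨0,[(22,0)]⟩⟩,⟨false,1,⟨0,[(4,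
  0)]⟩,⟨1,[(5,0),(4,1),(13,0)]⟩⟩,[.o ⟨false,0,⟨0,[(1,0)]⟩,⟨0,[(21,0),(2,0),(1,0)]⟩⟩,.o ⟨false,1,⟨1,
  [(16,0),(5,1),(1,0)]⟩,⟨0,[(21,0)]⟩⟩,.a ⟨true,0,⟨0,[(6,0)]⟩,⟨0,[(6,0)]⟩⟩ ⟨false,0,⟨1,[(24,0)]⟩,⟨1,
  [(24,0),(1,1)]⟩⟩ ⟨true,0,⟨1,[(1,0),(20,0)]⟩,⟨0,[(6,0),(14,0)]⟩⟩,.o ⟨false,0,⟨3,[(2,1),(8,0),(0,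
  0)]⟩,⟨3,[(16,0),(6,1),(0,0),(1,1)]⟩⟩]⟩)) (.Q [0,0,0,-2,0,0,0,0,0,-2] (.pp true [-1,1]) (.R ⟨2,
  false,false,false,[0,1],[1,-1],[],(⟨0,[]⟩,⟨0,[]⟩),(⟨0,[(17,0)]⟩,⟨0,[(18,0)]⟩),⟨0,[]⟩,.k,.k,.k,(.r
  0 ⟨0,[(1,1),(0,1)]⟩ ⟨0,[(22,1),(0,0)]⟩),.k,.k,⟨true,0,⟨0,[(1,0),(0,0)]⟩,⟨0,[(22,0)]⟩⟩,⟨false,0,⟨0,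
  [(2,0)]⟩,⟨0,[(6,1),(16,0)]⟩⟩,⟨false,1,⟨1,[(22,1),(0,0),(0,0)]⟩,⟨0,[(1,0),(0,0)]⟩⟩,⟨true,0,⟨0,[(0,
  0)]⟩,⟨0,[(1,0),(19,0)]⟩⟩,⟨false,1,⟨1,[(23,0),(0,0)]⟩,⟨1,[(11,0),(0,0)]⟩⟩,⟨false,1,⟨3,[(0,1),(15,
  0),(7,2),(1,1)]⟩,⟨0,[(1,0)]⟩⟩,[.a ⟨true,0,⟨0,[(22,0)]⟩,⟨0,[(1,0)]⟩⟩ ⟨false,1,⟨1,[(23,0),(0,0),(1,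
  1)]⟩,⟨0,[]⟩⟩ ⟨true,0,⟨3,[(0,1),(1,1),(8,0),(0,0)]⟩,⟨0,[(1,0)]⟩⟩,.o ⟨false,1,⟨3,[(0,1),(15,0),(7,
  2),(1,1)]⟩,⟨0,[(21,0)]⟩⟩,.o ⟨false,1,⟨1,[(23,0),(0,0),(1,1)]⟩,⟨0,[(2,0)]⟩⟩,.e ⟨false,1,⟨1,[(23,0),
  (0,0)]⟩,⟨1,[(11,0),(0,0)]⟩⟩ ⟨false,1,⟨3,[(0,1),(15,0),(7,2),(1,1)]⟩,⟨0,[(1,0)]⟩⟩]⟩) (.Q [0,0,0,0,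
  -1,0,0,0,0,1] (.p true [0,0,0,1] [] (⟨0,[(6,0)]⟩,⟨0,[(6,0)]⟩) .k 0 (⟨0,[]⟩,⟨0,[]⟩) .k .k) (.R ⟨1,
  false,false,true,[0,0,0,1],[1,-1],[1,1,0,0,0,0,0,1],(⟨0,[(7,0)]⟩,⟨0,[(7,0)]⟩),(⟨0,[(18,0)]⟩,⟨0,
  [(19,0)]⟩),⟨0,[(0,0)]⟩,.k,.k,(.r 0 ⟨1,[(23,1),(0,0)]⟩ ⟨1,[(2,1),(9,0),(0,0),(3,0)]⟩),(.r 0 ⟨1,[(2,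
  1),(9,0),(0,0),(3,0)]⟩ ⟨1,[(23,1),(0,0)]⟩),.k,.k,⟨false,0,⟨1,[(2,1),(14,0)]⟩,⟨1,[(23,1),(0,0)]⟩⟩,
  ⟨true,0,⟨3,[(3,1),(8,0),(0,0)]⟩,⟨0,[(7,0)]⟩⟩,⟨false,0,⟨0,[]⟩,⟨0,[(25,0),(1,0)]⟩⟩,⟨false,1,⟨3,[(17,
  0),(5,3),(1,0),(1,1)]⟩,⟨0,[(4,0)]⟩⟩,⟨true,0,⟨0,[(22,0)]⟩,⟨0,[(23,0)]⟩⟩,⟨false,1,⟨3,[(17,0),(7,0),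
  (1,1)]⟩,⟨1,[(7,1),(17,0)]⟩⟩,[.o ⟨false,0,⟨0,[(3,0),(17,0),(1,0)]⟩,⟨1,[(2,1),(14,0),(7,0)]⟩⟩,.e
  ⟨false,0,⟨1,[(24,0)]⟩,⟨1,[(25,0),(1,1)]⟩⟩ ⟨false,1,⟨3,[(17,0),(5,3),(0,1),(0,0),(1,1)]⟩,⟨1,[(1,
  0)]⟩⟩,.a ⟨true,0,⟨0,[(7,0)]⟩,⟨0,[(7,0)]⟩⟩ ⟨false,0,⟨1,[(25,0),(1,1)]⟩,⟨1,[(25,0)]⟩⟩ ⟨true,0,⟨1,
  [(8,0),(1,0),(12,1)]⟩,⟨1,[(1,0)]⟩⟩,.o ⟨false,0,⟨3,[(3,1),(8,0),(0,0)]⟩,⟨3,[(17,0),(6,1),(0,0),(1,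
  1)]⟩⟩]⟩) (.R ⟨0,false,false,true,[0,0,0,1],[1,-1],[0,1,0,0,0,0,0,1],(⟨0,[(7,0)]⟩,⟨0,[(7,0)]⟩),(⟨0,
  [(18,0)]⟩,⟨0,[(19,0)]⟩),⟨0,[(0,0)]⟩,.k,.k,(.r 0 ⟨1,[(23,1),(0,0)]⟩ ⟨1,[(2,1),(9,0),(0,0),(3,0)]⟩),
  (.r 0 ⟨1,[(2,1),(9,0),(0,0),(3,0)]⟩ ⟨1,[(23,1),(0,0)]⟩),.k,.k,⟨false,0,⟨1,[(2,1),(14,0)]⟩,⟨1,[(23,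
  1),(0,0)]⟩⟩,⟨true,0,⟨3,[(3,1),(8,0),(0,0)]⟩,⟨0,[(7,0)]⟩⟩,⟨true,0,⟨0,[(27,0)]⟩,⟨0,[]⟩⟩,⟨false,1,⟨3,
  [(17,0),(5,3),(1,0),(1,1)]⟩,⟨0,[(4,0)]⟩⟩,⟨false,0,⟨0,[]⟩,⟨0,[]⟩⟩,⟨false,0,⟨0,[]⟩,⟨0,[]⟩⟩,[.o
  ⟨false,0,⟨0,[(3,0),(17,0),(1,0)]⟩,⟨1,[(2,1),(14,0),(7,0)]⟩⟩,.e ⟨false,0,⟨1,[(24,0)]⟩,⟨1,[(25,0),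
  (1,1)]⟩⟩ ⟨false,1,⟨3,[(17,0),(5,3),(0,1),(0,0),(1,1)]⟩,⟨1,[(1,0)]⟩⟩,.a ⟨true,0,⟨0,[(7,0)]⟩,⟨0,[(7,
  0)]⟩⟩ ⟨false,0,⟨1,[(25,0),(1,1)]⟩,⟨1,[(25,0)]⟩⟩ ⟨true,0,⟨1,[(8,0),(1,0),(12,1)]⟩,⟨1,[(1,0)]⟩⟩,.o
  ⟨false,0,⟨3,[(3,1),(8,0),(0,0)]⟩,⟨3,[(17,0),(6,1),(0,0),(1,1)]⟩⟩]⟩))))) (.R ⟨2,true,false,true,[0,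
  1],[0,0,0,1],[1,1,1,1],(⟨0,[]⟩,⟨0,[]⟩),(⟨0,[(3,0)]⟩,⟨0,[(3,0)]⟩),⟨0,[]⟩,.k,.k,.k,(.r (-1) ⟨1,[(8,
  0),(0,0),(8,1),(2,0)]⟩ ⟨1,[(19,1),(0,0)]⟩),.k,.k,⟨false,1,⟨1,[(18,1),(2,0)]⟩,⟨1,[(19,1),(0,0)]⟩⟩,
  ⟨true,0,⟨1,[(5,0),(2,0)]⟩,⟨0,[(3,0)]⟩⟩,⟨false,0,⟨0,[]⟩,⟨0,[(21,0),(1,0)]⟩⟩,⟨true,(-1),⟨0,[(0,0)]⟩,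
  ⟨1,[(3,1),(14,1),(2,0)]⟩⟩,⟨true,0,⟨0,[(18,0)]⟩,⟨0,[(19,0)]⟩⟩,⟨false,0,⟨3,[(13,0),(7,0),(1,1)]⟩,⟨1,
  [(3,1),(17,0)]⟩⟩,[]⟩)))

theorem ok0 : chk (cW (-1) 3) t0 base = true := by decide +kernel

theorem ok : chkB (cW (-1) 3) (fax (fcW (-1)) false 2 (-1) 3 true tW) t0 base = true :=
  chkB_of (by decide +kernel) ok0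

end Helper11.CT.Tm1_2_m1_1_v2
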