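import Pool.Agent.Helper11.CT.Cfg
import Pool.Agent.Helper11.CT.Cut

set_option autoImplicit false
set_option linter.all false

namespace Helper11.CT.Tm1_2_m1_m1_u

open Helper11.CT

noncomputable def base : List Con :=
  [(false,[0,0,0,0,0,0,2,2,0,1,-2]),
  (true,[0,0,0,0,1,0,0,0,-2]),
  (true,[0,0,0,0,1,0,0,0,2]),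
  (false,[0,0,0,0,0,0,0,0,0,1,0,-1]),
  (false,[0,0,0,0,0,0,0,0,0,0,0,1]),
  (false,[0,1,0,0,0,0,-1,-1,0,-1,1]),
  (false,[0,0,1,0,0,0,-1,0,0,-1,1]),
  (false,[0,1,0,0,0,0,1,1,0,0,-1]),
  (false,[0,1,0,0,0,0,-1,-1,0,0,1]),
  (false,[0,0,1,0,0,0,1,0,0,0,-1]),
  (false,[0,0,1,0,0,0,-1,0,0,0,1]),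
  (true,[0,0,0,0,0,0,0,-1]),
  (false,[0,0,0,0,0,0,0,0,0,1,-1]),
  (false,[0,0,0,0,0,0,0,0,0,0,1]),
  (false,[0,0,0,0,1,0,0,0,0,-2]),
  (false,[0,0,0,0,0,-1,0,0,0,1]),
  (true,[0,0,0,0,0,1]),
  (true,[1,-1,1,-1]),
  (true,[0,1,-1]),
  (true,[0,1,0,1]),
  (true,[0,0,0,-1]),
  (true,[0,0,-2,0,1]),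
  (true,[0,-2,0,0,1]),
  (true,[-1,0,1]),
  (true,[-1,1])]

noncomputable def t0 : Tre :=
  (.Q [0,0,0,-1,0,0,-1,-1,0,-1,1] (.p true [0,0,1] [1] (⟨0,[(13,0)]⟩,⟨0,[(12,0)]⟩) .k 1 (⟨0,[]⟩,⟨0,
  []⟩) .k .k) (.R ⟨2,true,false,true,[0,1],[1,0,-1],[0,0,1],(⟨0,[]⟩,⟨0,[]⟩),(⟨0,[(13,0)]⟩,⟨0,[(14,
  0)]⟩),⟨0,[]⟩,.k,.k,.k,.k,.k,.k,⟨false,1,⟨1,[(1,0),(5,0),(3,0),(10,0),(0,0)]⟩,⟨0,[(12,0),(6,0)]⟩⟩,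
  ⟨true,0,⟨0,[(7,0)]⟩,⟨1,[(1,0),(2,0),(0,0),(6,1)]⟩⟩,⟨true,0,⟨0,[(21,0)]⟩,⟨0,[(20,0)]⟩⟩,⟨false,0,⟨0,
  [(0,0)]⟩,⟨1,[(1,0),(2,0),(0,0),(14,1),(2,1)]⟩⟩,⟨false,1,⟨3,[(2,0),(0,0),(19,1)]⟩,⟨0,[]⟩⟩,⟨true,0,
  ⟨0,[(6,0)]⟩,⟨1,[(1,0),(2,0),(0,0)]⟩⟩,[]⟩) (.Q [0,0,0,0,0,-1,0,0,0,1,-1] (.ed true [0,1,1] .k) (.Q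
  [0,0,0,0,0,0,-1,0,0,0,1] (.p true [0,0,1] [] (⟨0,[(15,0)]⟩,⟨0,[(14,0)]⟩) .k 0 (⟨0,[]⟩,⟨0,[]⟩) .k
  .k) (.K ⟨0,[1,-1,-1],0,0,(⟨0,[(1,0)]⟩,⟨0,[(16,0),(2,0)]⟩),.k,(.r (-1) ⟨0,[(14,0),(8,1),(0,0)]⟩ ⟨0,
  [(2,1),(6,1),(4,0)]⟩),.k,.k,.k,[⟨1,[(3,0),(2,0),(0,0),(6,1)]⟩,⟨0,[(0,0)]⟩,⟨0,[(2,0),(24,0)]⟩,⟨0,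
  [(8,0),(14,0)]⟩]⟩) (.Q [0,0,0,1,0,0,-1,-1,0,0,1] (.p true [0,0,1] [] (⟨0,[(16,0)]⟩,⟨0,[(15,0)]⟩)
  .k 0 (⟨0,[]⟩,⟨0,[]⟩) .k .k) (.R ⟨1,false,false,true,[1,0,-1],[1,-1],[0,0,0,-1,0,0,0,-1],(⟨0,[(16,
  0)]⟩,⟨0,[(17,0)]⟩),(⟨0,[(19,0)]⟩,⟨0,[(20,0)]⟩),⟨0,[(2,0)]⟩,.k,.k,.k,.k,.k,.k,⟨true,0,⟨0,[(0,0),(0,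
  0),(19,0)]⟩,⟨1,[(4,0),(5,0),(3,0),(7,1)]⟩⟩,⟨false,0,⟨0,[(1,0)]⟩,⟨0,[(14,0),(10,0)]⟩⟩,⟨true,0,⟨0,
  [(24,0)]⟩,⟨0,[(23,0)]⟩⟩,⟨true,0,⟨0,[(11,0),(12,0)]⟩,⟨0,[(0,0)]⟩⟩,⟨false,1,⟨3,[(5,0),(0,0),(19,
  1)]⟩,⟨0,[]⟩⟩,⟨true,0,⟨0,[(11,0)]⟩,⟨0,[(0,0),(23,0)]⟩⟩,[.o ⟨false,0,⟨0,[(1,0),(8,0),(11,0),(1,0)]⟩,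
  ⟨0,[(23,0),(2,0)]⟩⟩,.a ⟨true,0,⟨0,[(24,0)]⟩,⟨1,[(0,0),(2,0),(3,0),(0,0)]⟩⟩ ⟨false,1,⟨1,[(15,1),(8,
  1),(0,0),(0,0)]⟩,⟨0,[(3,0),(6,0),(11,0)]⟩⟩ ⟨true,0,⟨0,[(1,0),(22,0)]⟩,⟨1,[(0,0),(2,0),(6,0),(3,
  0)]⟩⟩,.o ⟨false,1,⟨1,[(14,1),(3,0),(6,0)]⟩,⟨0,[(1,0)]⟩⟩,.o ⟨false,0,⟨0,[(10,0)]⟩,⟨0,[(13,0),(11,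
  0)]⟩⟩]⟩) (.Q [0,0,0,0,0,0,-1,-1,0,0,1] (.p true [0,0,1] [] (⟨0,[(17,0)]⟩,⟨0,[(16,0)]⟩) .k 0 (⟨0,
  []⟩,⟨0,[]⟩) .k .k) (.R ⟨2,false,false,true,[0,1],[0,0,1],[0,1],(⟨0,[]⟩,⟨0,[]⟩),(⟨0,[(18,0)]⟩,⟨0,
  [(17,0)]⟩),⟨0,[]⟩,.k,.k,.k,.k,.k,.k,⟨true,0,⟨0,[(16,0)]⟩,⟨1,[(5,0),(5,0),(3,0)]⟩⟩,⟨false,0,⟨0,[(2,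
  0)]⟩,⟨0,[(15,0),(10,0)]⟩⟩,⟨true,0,⟨0,[(23,0),(1,0)]⟩,⟨0,[(4,0),(6,0),(4,0)]⟩⟩,⟨false,0,⟨0,[(1,
  0)]⟩,⟨0,[(0,0),(23,0),(2,0)]⟩⟩,⟨true,0,⟨0,[(23,0)]⟩,⟨1,[(14,0),(0,0)]⟩⟩,⟨true,0,⟨0,[(12,0)]⟩,⟨0,
  [(0,0)]⟩⟩,[.o ⟨false,0,⟨0,[(12,0)]⟩,⟨1,[(0,1),(18,0),(7,0)]⟩⟩,.a ⟨true,0,⟨1,[(5,0),(2,0),(0,0)]⟩,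
  ⟨0,[(0,0)]⟩⟩ ⟨false,1,⟨3,[(6,0),(0,0),(18,1)]⟩,⟨0,[]⟩⟩ ⟨true,0,⟨1,[(5,0),(5,0),(2,0)]⟩,⟨0,[(0,
  0)]⟩⟩,.o ⟨false,1,⟨3,[(6,0),(0,0),(18,1)]⟩,⟨0,[(2,0),(8,0)]⟩⟩,.e ⟨true,0,⟨0,[(23,0)]⟩,⟨1,[(14,0),
  (0,0)]⟩⟩ ⟨true,0,⟨0,[(12,0)]⟩,⟨0,[(0,0)]⟩⟩]⟩) (.Q [0,0,0,-1,0,0,-1,-1,0,0,1] (.p true [0,0,1] []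
  (⟨0,[(18,0)]⟩,⟨0,[(17,0)]⟩) .k 0 (⟨0,[]⟩,⟨0,[]⟩) .k .k) (.R ⟨2,true,false,false,[0,1],[0,1,1],[0,
  1,1],(⟨0,[]⟩,⟨0,[]⟩),(⟨0,[(19,0),(2,0)]⟩,⟨0,[(4,0)]⟩),⟨0,[]⟩,.k,.k,.k,.k,.k,.k,⟨false,0,⟨0,[(0,0),
  (2,0),(20,0)]⟩,⟨1,[(5,1),(6,1),(14,0),(0,0)]⟩⟩,⟨true,0,⟨0,[(3,0)]⟩,⟨0,[(16,0)]⟩⟩,⟨false,0,⟨0,[(26,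
  0)]⟩,⟨0,[(25,0),(2,0)]⟩⟩,⟨true,0,⟨0,[(1,0)]⟩,⟨0,[(14,0)]⟩⟩,⟨true,0,⟨0,[(30,0)]⟩,⟨0,[]⟩⟩,⟨false,1,
  ⟨1,[(5,1),(14,0),(7,0)]⟩,⟨0,[(0,0)]⟩⟩,[]⟩) (.Q [0,0,0,1,0,0,0,0,0,1] (.pp false [-1,1]) (.R ⟨1,
  false,false,false,[1,0,-1],[0,1],[1,1,0,0,0,0,0,-1],(⟨0,[(19,0)]⟩,⟨0,[(20,0)]⟩),(⟨0,[(23,0)]⟩,⟨0,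
  [(22,0)]⟩),⟨0,[(5,0)]⟩,.k,.k,.k,.k,(.r (-1) ⟨0,[(18,0),(8,1),(0,0)]⟩ ⟨1,[(0,1),(0,1),(11,1),(2,0),
  (0,0)]⟩),.k,⟨true,0,⟨0,[(18,0),(6,0),(1,0)]⟩,⟨0,[(0,0),(0,0),(11,0),(10,0)]⟩⟩,⟨false,1,⟨1,[(7,0),
  (2,0),(0,0),(6,1),(9,1)]⟩,⟨0,[(13,0)]⟩⟩,⟨false,0,⟨0,[]⟩,⟨3,[(8,0),(0,0),(19,1)]⟩⟩,⟨true,0,⟨0,[(6,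
  0)]⟩,⟨0,[(12,0),(14,0)]⟩⟩,⟨true,0,⟨0,[(26,0)]⟩,⟨0,[(27,0)]⟩⟩,⟨true,0,⟨0,[(0,0),(0,0)]⟩,⟨0,[(12,0),
  (14,1)]⟩⟩,[.a ⟨true,0,⟨0,[(0,0)]⟩,⟨0,[(27,0)]⟩⟩ ⟨false,0,⟨0,[(18,0),(6,0)]⟩,⟨1,[(7,0),(5,0),(3,0),
  (10,0),(0,0)]⟩⟩ ⟨true,0,⟨0,[(0,0),(3,0)]⟩,⟨0,[(13,0),(13,0)]⟩⟩,.o ⟨false,1,⟨0,[(26,0),(2,0)]⟩,⟨0,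
  [(3,0),(8,0)]⟩⟩,.o ⟨false,1,⟨1,[(17,1),(3,0),(6,0)]⟩,⟨0,[(4,0)]⟩⟩,.o ⟨false,0,⟨0,[(13,0)]⟩,⟨0,
  [(16,0),(11,0)]⟩⟩]⟩) (.I [0,1,1,0,-1,0,0,0,-1] (.Q [0,1,1,0,0,0,0,0,1,0,0,-1] (.p false [0,0,0,1]
  [] (⟨0,[(12,0)]⟩,⟨0,[(11,0)]⟩) .k 0 (⟨0,[]⟩,⟨0,[]⟩) .k .k) (.K ⟨0,[0,0,0,1],0,0,(⟨0,[(13,0)]⟩,⟨0,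
  [(12,0)]⟩),.k,(.r (-1) ⟨1,[(11,0),(17,1),(0,0)]⟩ ⟨0,[(1,0),(26,0),(2,0)]⟩),(.x 0 ⟨0,[(25,0)]⟩ ⟨3,
  [(10,0),(0,0),(11,1),(0,3)]⟩),.k,.k,[⟨0,[(13,0)]⟩,⟨0,[(12,0)]⟩,⟨0,[(1,0),(11,0),(16,0)]⟩,⟨0,[(0,
  0)]⟩]⟩) (.R ⟨2,false,false,true,[0,1],[0,0,0,1],[],(⟨0,[]⟩,⟨0,[]⟩),(⟨0,[(13,0)]⟩,⟨0,[(12,0)]⟩),⟨0,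
  []⟩,.k,.k,.k,(.r 0 ⟨0,[(1,0),(26,0),(2,0)]⟩ ⟨1,[(11,0),(17,1),(0,0)]⟩),.k,.k,⟨true,0,⟨2,[(0,1),(0,
  0),(0,0),(0,0),(8,1),(2,0),(4,0),(10,0)]⟩,⟨0,[(1,0),(9,0)]⟩⟩,⟨false,0,⟨0,[(6,0),(5,0),(2,0)]⟩,⟨0,
  [(13,0),(16,0)]⟩⟩,⟨false,1,⟨1,[(29,1),(0,0),(0,0)]⟩,⟨0,[(3,0),(15,0),(0,0)]⟩⟩,⟨true,0,⟨0,[(1,0),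
  (0,0),(8,0),(0,0)]⟩,⟨0,[(0,0),(27,0)]⟩⟩,⟨false,1,⟨1,[(30,0),(0,0)]⟩,⟨1,[(18,0),(0,0)]⟩⟩,⟨false,1,
  ⟨1,[(11,0),(0,1),(5,0),(0,0),(3,0)]⟩,⟨0,[(0,0)]⟩⟩,[.a ⟨true,0,⟨0,[(1,0),(9,0),(0,0)]⟩,⟨0,[(0,
  0)]⟩⟩ ⟨false,1,⟨3,[(10,0),(0,0),(18,1)]⟩,⟨0,[]⟩⟩ ⟨true,0,⟨0,[(1,0),(4,0),(4,0),(0,0),(2,0)]⟩,⟨0,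
  [(0,0)]⟩⟩,.o ⟨false,1,⟨1,[(11,0),(0,1),(5,0),(0,0),(3,0)]⟩,⟨5,[(0,4),(0,0),(0,1),(0,1),(9,0),(0,
  1),(8,0),(3,1)]⟩⟩,.o ⟨false,1,⟨3,[(10,0),(0,0),(18,1)]⟩,⟨0,[(6,0),(8,0)]⟩⟩,.e ⟨false,1,⟨1,[(30,0),
  (0,0)]⟩,⟨1,[(18,0),(0,0)]⟩⟩ ⟨false,1,⟨1,[(11,0),(0,1),(5,0),(0,0),(3,0)]⟩,⟨0,[(0,0)]⟩⟩]⟩)) (.I [0,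
  0,-1,-1,0,0,0,0,1] (.Q [0,1,1,0,-1,0,0,0,1,0,0,-1] (.p false [0,0,0,1] [] (⟨0,[(13,0)]⟩,⟨0,[(12,
  0)]⟩) .k 0 (⟨0,[]⟩,⟨0,[]⟩) .k .k) (.K ⟨0,[0,0,0,1],0,(-1),(⟨0,[(14,0)]⟩,⟨0,[(13,0)]⟩),.k,(.r 0 ⟨0,
  [(1,0)]⟩ ⟨1,[(11,0),(7,0),(0,0),(8,1),(2,0)]⟩),(.x 0 ⟨0,[(26,0)]⟩ ⟨3,[(11,0),(0,0),(11,1),(0,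
  3)]⟩),.k,.k,[⟨0,[(14,0)]⟩,⟨0,[(13,0)]⟩,⟨1,[(11,0),(2,1),(16,0),(2,1)]⟩,⟨0,[(0,0)]⟩]⟩) (.Q [0,0,0,
  0,0,1,0,0,0,-1,0,1] (.p true [0,0,0,1] [1] (⟨0,[(14,0)]⟩,⟨0,[(13,0)]⟩) .k 1 (⟨0,[]⟩,⟨0,[]⟩) .k
  .k) (.I [1,1,0,0,0,0,0,0,-1] (.R ⟨0,false,false,false,[1,0,0,-1],[0,0,1],[],(⟨0,[(15,0)]⟩,⟨0,[(16,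
  0)]⟩),(⟨0,[(25,0)]⟩,⟨0,[(24,0)]⟩),⟨0,[(1,0)]⟩,.k,.k,(.x (-1) ⟨3,[(13,0),(0,0),(11,1),(0,3)]⟩ ⟨0,
  [(28,0)]⟩),.k,.k,.k,⟨true,0,⟨0,[(23,0)]⟩,⟨1,[(12,0),(5,0),(3,0)]⟩⟩,⟨false,0,⟨0,[(9,0),(5,0)]⟩,⟨0,
  [(16,0),(1,0),(14,0)]⟩⟩,⟨true,0,⟨0,[(3,0),(2,0),(15,0),(0,0)]⟩,⟨0,[(0,0)]⟩⟩,⟨false,0,⟨0,[(3,0),(2,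
  1),(8,0),(6,0),(0,0),(5,0)]⟩,⟨0,[(2,0),(14,0)]⟩⟩,⟨false,0,⟨0,[]⟩,⟨0,[]⟩⟩,⟨false,0,⟨0,[]⟩,⟨0,[]⟩⟩,
  [.o ⟨false,0,⟨0,[(7,0)]⟩,⟨1,[(20,1),(5,0),(7,0)]⟩⟩,.o ⟨false,1,⟨7,[(12,3),(0,0),(0,0),(11,1),(7,
  3)]⟩,⟨0,[(17,0)]⟩⟩,.o ⟨false,1,⟨1,[(16,1),(9,0),(6,0)]⟩,⟨0,[(9,0),(5,0),(2,0)]⟩⟩,.a ⟨true,0,⟨0,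
  [(16,0)]⟩,⟨0,[(15,0)]⟩⟩ ⟨false,1,⟨1,[(33,0),(0,0)]⟩,⟨1,[(21,0),(0,0)]⟩⟩ ⟨true,0,⟨2,[(5,0),(0,0),
  (5,0),(2,2)]⟩,⟨0,[(16,0),(0,0)]⟩⟩]⟩) (.R ⟨0,false,false,true,[1,0,0,-1],[0,1],[0,1,0,0,0,0,0,0,
  -1],(⟨0,[(15,0)]⟩,⟨0,[(16,0)]⟩),(⟨0,[(28,0)]⟩,⟨0,[(27,0)]⟩),⟨0,[(1,0)]⟩,.k,.k,(.x (-1) ⟨3,[(13,0),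
  (0,0),(11,1),(0,3)]⟩ ⟨0,[(28,0)]⟩),(.x (-1) ⟨3,[(13,0),(0,0),(11,1),(0,3)]⟩ ⟨0,[(28,0)]⟩),.k,.k,
  ⟨false,1,⟨0,[(2,0),(2,0),(9,0),(14,0)]⟩,⟨1,[(0,1),(20,0),(0,0),(8,1)]⟩⟩,⟨true,0,⟨0,[(15,0)]⟩,⟨0,
  [(9,0),(6,0),(1,0)]⟩⟩,⟨true,0,⟨0,[(36,0)]⟩,⟨0,[]⟩⟩,⟨false,0,⟨1,[(0,1),(14,1),(5,0),(0,0),(8,1)]⟩,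
  ⟨0,[(2,0),(2,0)]⟩⟩,⟨false,0,⟨0,[]⟩,⟨0,[]⟩⟩,⟨false,0,⟨0,[]⟩,⟨0,[]⟩⟩,[.o ⟨false,0,⟨0,[(31,0)]⟩,⟨1,
  [(26,0),(5,1),(1,0)]⟩⟩,.o ⟨false,1,⟨3,[(13,0),(0,0),(16,3),(2,1)]⟩,⟨0,[(5,0)]⟩⟩,.o ⟨false,1,⟨1,
  [(16,1),(9,0),(6,0)]⟩,⟨0,[(9,0),(5,0),(2,0)]⟩⟩,.a ⟨true,0,⟨0,[(16,0)]⟩,⟨0,[(15,0)]⟩⟩ ⟨false,1,⟨1,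
  [(13,0),(19,0)]⟩,⟨1,[(0,1),(20,0),(0,0)]⟩⟩ ⟨true,0,⟨0,[(15,0),(15,0)]⟩,⟨0,[(5,0),(10,0)]⟩⟩]⟩))
  (.I [0,0,0,1,0,0,0,0,1] (.R ⟨1,false,false,true,[1,0,0,-1],[0,1],[1,1,0,0,0,0,0,0,-1],(⟨0,[(15,
  0)]⟩,⟨0,[(16,0)]⟩),(⟨0,[(28,0)]⟩,⟨0,[(27,0)]⟩),⟨0,[(1,0)]⟩,.k,.k,(.x (-1) ⟨3,[(13,0),(0,0),(11,1),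
  (0,3)]⟩ ⟨0,[(28,0)]⟩),(.x (-1) ⟨3,[(13,0),(0,0),(11,1),(0,3)]⟩ ⟨0,[(28,0)]⟩),(.r (-1) ⟨0,[(2,0),
  (2,0),(9,0),(14,0),(1,0)]⟩ ⟨1,[(0,1),(5,1),(14,0),(0,2),(0,1)]⟩),.k,⟨false,1,⟨0,[(2,0),(2,0),(9,
  0),(14,0)]⟩,⟨1,[(0,1),(20,0),(0,0)]⟩⟩,⟨true,0,⟨0,[(15,0)]⟩,⟨0,[(9,0),(6,0),(1,0)]⟩⟩,⟨false,0,⟨0,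
  []⟩,⟨3,[(13,0),(0,0),(19,1)]⟩⟩,⟨false,0,⟨1,[(0,1),(14,1),(5,0),(0,0)]⟩,⟨0,[(2,0),(2,0)]⟩⟩,⟨true,0,
  ⟨0,[(31,0)]⟩,⟨0,[(32,0)]⟩⟩,⟨false,0,⟨0,[(0,0),(5,0),(8,0),(6,0),(0,0)]⟩,⟨0,[(2,0),(2,0),(26,0)]⟩⟩,
  [.o ⟨false,0,⟨0,[(31,0)]⟩,⟨1,[(26,0),(5,1),(1,0)]⟩⟩,.o ⟨false,1,⟨3,[(13,0),(0,0),(16,3),(2,1)]⟩,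
  ⟨0,[(5,0)]⟩⟩,.o ⟨false,1,⟨1,[(16,1),(9,0),(6,0)]⟩,⟨0,[(9,0),(5,0),(2,0)]⟩⟩,.a ⟨true,0,⟨0,[(16,
  0)]⟩,⟨0,[(15,0)]⟩⟩ ⟨false,1,⟨1,[(13,0),(19,0)]⟩,⟨0,[(0,0),(28,0)]⟩⟩ ⟨true,0,⟨0,[(15,0),(15,0)]⟩,
  ⟨0,[(5,0),(10,0)]⟩⟩]⟩) (.Q [0,-1,0,-1,0,0,1,1,0,0,-1] (.p false [0,0,1] [] (⟨0,[(25,0)]⟩,⟨0,[(24,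
  0)]⟩) .k 0 (⟨0,[]⟩,⟨0,[]⟩) .k .k) (.R ⟨2,true,false,false,[0,1],[0,0,1],[1,0,1,1],(⟨0,[]⟩,⟨0,[]⟩),
  (⟨0,[(26,0)]⟩,⟨0,[(25,0)]⟩),⟨0,[]⟩,.k,.k,.k,.k,.k,.k,⟨true,0,⟨0,[(7,0),(15,0),(0,1)]⟩,⟨0,[(0,0),
  (22,0),(7,0)]⟩⟩,⟨false,0,⟨0,[(10,0)]⟩,⟨0,[(23,0),(10,0)]⟩⟩,⟨true,0,⟨0,[]⟩,⟨0,[(37,0)]⟩⟩,⟨false,0,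
  ⟨0,[(0,0)]⟩,⟨0,[(21,0),(10,0),(2,0)]⟩⟩,⟨false,1,⟨0,[(32,0),(2,0)]⟩,⟨0,[(33,0)]⟩⟩,⟨true,0,⟨0,[(8,
  0)]⟩,⟨0,[(21,0)]⟩⟩,[]⟩) (.Q [0,-1,1,1,0,0,1,1,1,1,-1,-1] (.p false [0,0,1] [1,0,0,-1] (⟨0,[(26,
  0)]⟩,⟨0,[(25,0)]⟩) .k 2 (⟨0,[(16,0)]⟩,⟨0,[(17,0)]⟩) .k (.r 0 ⟨0,[(4,0),(2,0),(15,0)]⟩ ⟨3,[(14,2),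
  (0,0),(8,3)]⟩)) (.R ⟨1,false,false,false,[1,0,0,-1],[0,0,1],[],(⟨0,[(17,0)]⟩,⟨0,[(18,0)]⟩),(⟨0,
  [(27,0)]⟩,⟨0,[(26,0)]⟩),⟨0,[(3,0)]⟩,.k,.k,(.x (-1) ⟨3,[(15,0),(0,0),(11,1),(0,3)]⟩ ⟨0,[(30,0)]⟩),
  .k,(.r (-1) ⟨1,[(15,0),(9,1),(8,1),(0,0)]⟩ ⟨1,[(0,0),(4,0),(2,0),(9,0),(1,0),(3,0),(8,0)]⟩),.k,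
  ⟨true,0,⟨0,[(25,0)]⟩,⟨1,[(14,0),(5,0),(3,0)]⟩⟩,⟨false,0,⟨0,[(11,0),(5,0)]⟩,⟨0,[(18,0),(1,0),(14,
  0)]⟩⟩,⟨true,0,⟨1,[(0,0),(4,0),(12,0),(0,0)]⟩,⟨0,[(2,0),(30,0)]⟩⟩,⟨false,0,⟨3,[(0,2),(4,0),(11,0),
  (3,0),(9,1)]⟩,⟨0,[(4,0),(14,0)]⟩⟩,⟨false,1,⟨3,[(0,1),(0,1),(4,1),(11,1),(9,0),(7,0)]⟩,⟨0,[(2,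
  0)]⟩⟩,⟨false,0,⟨0,[(0,0)]⟩,⟨0,[(4,0),(14,0),(14,0)]⟩⟩,[.o ⟨false,0,⟨0,[(9,0)]⟩,⟨1,[(22,1),(5,0),
  (7,0)]⟩⟩,.o ⟨false,1,⟨7,[(14,3),(0,0),(0,0),(11,1),(7,3)]⟩,⟨0,[(19,0)]⟩⟩,.o ⟨false,1,⟨1,[(18,1),
  (9,0),(6,0)]⟩,⟨0,[(11,0),(5,0),(2,0)]⟩⟩,.a ⟨true,0,⟨0,[(18,0)]⟩,⟨0,[(17,0)]⟩⟩ ⟨false,1,⟨1,[(35,0),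
  (0,0)]⟩,⟨1,[(23,0),(0,0)]⟩⟩ ⟨true,0,⟨2,[(7,0),(0,0),(5,0),(2,2)]⟩,⟨0,[(18,0),(0,0)]⟩⟩]⟩) (.K ⟨0,
  [0,0,0,1],0,0,(⟨0,[(18,0)]⟩,⟨0,[(17,0)]⟩),.k,(.r 0 ⟨0,[(5,0)]⟩ ⟨3,[(1,1),(11,1),(1,1),(7,1),(0,1),
  (3,0),(7,0)]⟩),(.x 0 ⟨0,[(30,0)]⟩ ⟨3,[(15,0),(0,0),(11,1),(0,3)]⟩),.k,.k,[⟨0,[(18,0)]⟩,⟨0,[(17,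
  0)]⟩,⟨0,[(0,0),(12,0)]⟩,⟨0,[(5,0),(11,0),(2,0),(2,0),(9,0)]⟩]⟩)))))) (.Q [0,1,-1,0,0,0,0,0,-1,0,0,
  1] (.p true [0,0,0,1] [] (⟨0,[(13,0)]⟩,⟨0,[(12,0)]⟩) .k 0 (⟨0,[]⟩,⟨0,[]⟩) .k .k) (.Q [0,1,1,0,0,0,
  0,0,1,0,0,-1] (.p false [0,0,0,1] [] (⟨0,[(14,0)]⟩,⟨0,[(13,0)]⟩) .k 0 (⟨0,[]⟩,⟨0,[]⟩) .k .k) (.I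
  [0,0,1,1,0,0,0,0,-1] (.K ⟨0,[0,0,0,1],0,0,(⟨0,[(16,0)]⟩,⟨0,[(15,0)]⟩),.k,(.r (-1) ⟨1,[(14,0),(17,
  1),(0,0)]⟩ ⟨0,[(0,0)]⟩),(.x 0 ⟨0,[(28,0)]⟩ ⟨3,[(13,0),(0,0),(11,1),(0,3)]⟩),.k,.k,[⟨0,[(16,0)]⟩,
  ⟨0,[(15,0)]⟩,⟨0,[(2,0)]⟩,⟨0,[(1,0)]⟩]⟩) (.K ⟨0,[0,0,0,1],0,0,(⟨0,[(16,0)]⟩,⟨0,[(15,0)]⟩),.k,(.x 0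
  ⟨0,[(18,0),(2,0),(5,0)]⟩ ⟨0,[(28,0),(4,0)]⟩),(.x 0 ⟨0,[(28,0)]⟩ ⟨3,[(13,0),(0,0),(11,1),(0,3)]⟩),
  .k,.k,[⟨0,[(16,0)]⟩,⟨0,[(15,0)]⟩,⟨0,[(2,0)]⟩,⟨0,[(1,0)]⟩]⟩)) (.Q [0,0,0,0,0,1,0,0,0,-1,0,1] (.p
  true [0,0,0,1] [1] (⟨0,[(15,0)]⟩,⟨0,[(14,0)]⟩) .k 1 (⟨0,[]⟩,⟨0,[]⟩) .k .k) (.R ⟨0,false,false,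
  true,[1,0,0,-1],[0,1],[0,1,0,0,0,0,0,0,-1],(⟨0,[(15,0)]⟩,⟨0,[(16,0)]⟩),(⟨0,[(28,0)]⟩,⟨0,[(27,
  0)]⟩),⟨0,[(0,0)]⟩,.k,.k,(.x (-1) ⟨3,[(13,0),(0,0),(11,1),(0,3)]⟩ ⟨0,[(28,0)]⟩),(.x (-1) ⟨3,[(13,
  0),(0,0),(11,1),(0,3)]⟩ ⟨0,[(28,0)]⟩),.k,.k,⟨false,0,⟨0,[(1,0),(3,0),(9,0),(14,0)]⟩,⟨0,[(3,0),(10,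
  0)]⟩⟩,⟨true,0,⟨0,[(15,0)]⟩,⟨0,[(9,0),(6,0),(1,0)]⟩⟩,⟨true,0,⟨0,[(36,0)]⟩,⟨0,[]⟩⟩,⟨false,1,⟨0,[(3,
  0),(10,0),(0,0)]⟩,⟨0,[(1,0),(3,0)]⟩⟩,⟨false,0,⟨0,[]⟩,⟨0,[]⟩⟩,⟨false,0,⟨0,[]⟩,⟨0,[]⟩⟩,[.o ⟨false,0,
  ⟨0,[(31,0)]⟩,⟨1,[(26,0),(5,1),(1,0)]⟩⟩,.o ⟨false,1,⟨3,[(13,0),(0,0),(16,3),(2,1)]⟩,⟨0,[(5,0)]⟩⟩,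
  .o ⟨false,1,⟨1,[(2,0),(1,0),(11,0),(9,0)]⟩,⟨0,[(9,0),(5,0),(2,0)]⟩⟩,.a ⟨true,0,⟨0,[(16,0)]⟩,⟨0,
  [(15,0)]⟩⟩ ⟨false,0,⟨3,[(1,2),(1,0),(1,1),(0,0),(8,2),(1,0),(12,1)]⟩,⟨1,[(14,0),(6,0),(0,0),(11,
  0)]⟩⟩ ⟨true,0,⟨0,[(15,0),(15,0)]⟩,⟨0,[(5,0),(10,0)]⟩⟩]⟩) (.R ⟨1,false,false,true,[1,0,0,-1],[0,1],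
  [0,1,0,-1,0,0,0,0,-1],(⟨0,[(15,0)]⟩,⟨0,[(16,0)]⟩),(⟨0,[(28,0)]⟩,⟨0,[(27,0)]⟩),⟨0,[(0,0)]⟩,.k,.k,
  (.x (-1) ⟨3,[(13,0),(0,0),(11,1),(0,3)]⟩ ⟨0,[(28,0)]⟩),(.x (-1) ⟨3,[(13,0),(0,0),(11,1),(0,3)]⟩
  ⟨0,[(28,0)]⟩),(.r 0 ⟨0,[(1,0),(3,0),(9,0),(14,0),(1,0)]⟩ ⟨0,[(3,0),(2,0),(7,0),(7,0),(0,0)]⟩),.k,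
  ⟨false,0,⟨0,[(1,0),(3,0),(9,0),(14,0),(1,0)]⟩,⟨1,[(6,1),(7,0),(7,1),(0,1),(7,1),(2,0)]⟩⟩,⟨true,0,
  ⟨0,[(15,0)]⟩,⟨0,[(9,0),(6,0),(1,0)]⟩⟩,⟨false,0,⟨0,[(32,0)]⟩,⟨0,[(31,0),(2,0)]⟩⟩,⟨false,1,⟨0,[(3,
  0),(10,0),(0,0)]⟩,⟨0,[(1,0),(3,0)]⟩⟩,⟨true,0,⟨0,[(36,0)]⟩,⟨0,[]⟩⟩,⟨false,1,⟨1,[(6,1),(7,0),(0,1),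
  (6,1),(0,1),(7,1),(2,0)]⟩,⟨0,[(1,0),(3,0),(26,0)]⟩⟩,[.o ⟨false,0,⟨0,[(31,0)]⟩,⟨1,[(26,0),(5,1),(1,
  0)]⟩⟩,.o ⟨false,1,⟨3,[(13,0),(0,0),(16,3),(2,1)]⟩,⟨0,[(5,0)]⟩⟩,.o ⟨false,1,⟨1,[(2,0),(1,0),(11,0),
  (9,0)]⟩,⟨0,[(9,0),(5,0),(2,0)]⟩⟩,.a ⟨true,0,⟨0,[(16,0)]⟩,⟨0,[(15,0)]⟩⟩ ⟨false,0,⟨1,[(1,0),(0,0),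
  (2,1),(9,1)]⟩,⟨1,[(6,1),(7,0),(7,1),(0,1),(10,0)]⟩⟩ ⟨true,0,⟨0,[(15,0),(15,0)]⟩,⟨0,[(5,0),(10,
  0)]⟩⟩]⟩))) (.Q [0,1,1,0,-1,0,0,0,1,0,0,-1] (.p false [0,0,0,1] [] (⟨0,[(14,0)]⟩,⟨0,[(13,0)]⟩) .k
  0 (⟨0,[]⟩,⟨0,[]⟩) .k .k) (.K ⟨0,[0,0,0,1],0,(-1),(⟨0,[(15,0)]⟩,⟨0,[(14,0)]⟩),.k,(.x 0 ⟨0,[(17,0),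
  (2,0),(5,0)]⟩ ⟨0,[(27,0),(4,0)]⟩),(.x 0 ⟨0,[(27,0)]⟩ ⟨3,[(12,0),(0,0),(11,1),(0,3)]⟩),.k,.k,[⟨0,
  [(15,0)]⟩,⟨0,[(14,0)]⟩,⟨1,[(12,0),(2,1),(16,0),(2,1)]⟩,⟨0,[(0,0)]⟩]⟩) (.Q [0,0,0,0,0,1,0,0,0,-1,0,
  1] (.p true [0,0,0,1] [1] (⟨0,[(15,0)]⟩,⟨0,[(14,0)]⟩) .k 1 (⟨0,[]⟩,⟨0,[]⟩) .k .k) (.R ⟨0,false,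
  false,true,[1,0,0,-1],[0,1],[0,1,0,0,0,0,0,0,-1],(⟨0,[(15,0)]⟩,⟨0,[(16,0)]⟩),(⟨0,[(28,0)]⟩,⟨0,
  [(27,0)]⟩),⟨0,[(0,0)]⟩,.k,.k,(.x (-1) ⟨3,[(13,0),(0,0),(11,1),(0,3)]⟩ ⟨0,[(28,0)]⟩),(.x (-1) ⟨3,
  [(13,0),(0,0),(11,1),(0,3)]⟩ ⟨0,[(28,0)]⟩),.k,.k,⟨false,1,⟨0,[(1,0),(3,0),(9,0),(14,0)]⟩,⟨0,[(2,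
  0),(13,0),(14,0)]⟩⟩,⟨true,0,⟨0,[(15,0)]⟩,⟨0,[(9,0),(6,0),(1,0)]⟩⟩,⟨true,0,⟨0,[(36,0)]⟩,⟨0,[]⟩⟩,
  ⟨false,0,⟨0,[(2,0),(8,0),(8,0)]⟩,⟨0,[(1,0),(3,0)]⟩⟩,⟨false,0,⟨0,[]⟩,⟨0,[]⟩⟩,⟨false,0,⟨0,[]⟩,⟨0,
  []⟩⟩,[.o ⟨false,0,⟨0,[(31,0)]⟩,⟨1,[(26,0),(5,1),(1,0)]⟩⟩,.o ⟨false,1,⟨3,[(13,0),(0,0),(16,3),(2,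
  1)]⟩,⟨0,[(5,0)]⟩⟩,.o ⟨false,1,⟨1,[(16,1),(9,0),(6,0)]⟩,⟨5,[(2,1),(0,1),(1,1),(9,3),(1,0),(0,0),(0,
  0),(1,0)]⟩⟩,.a ⟨true,0,⟨0,[(16,0)]⟩,⟨0,[(15,0)]⟩⟩ ⟨false,1,⟨1,[(13,0),(19,0)]⟩,⟨0,[(2,0),(13,
  0)]⟩⟩ ⟨true,0,⟨0,[(15,0),(15,0)]⟩,⟨0,[(5,0),(10,0)]⟩⟩]⟩) (.R ⟨1,false,false,false,[1,0,0,-1],[1,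
  -1],[0,0,0,-1,0,0,0,0,-1],(⟨0,[(15,0)]⟩,⟨0,[(16,0)]⟩),(⟨0,[(27,0)]⟩,⟨0,[(28,0)]⟩),⟨0,[(0,0)]⟩,.k,
  .k,(.x (-1) ⟨3,[(13,0),(0,0),(11,1),(0,3)]⟩ ⟨0,[(28,0)]⟩),(.x (-1) ⟨0,[(28,0),(4,0)]⟩ ⟨0,[(18,0),
  (2,0),(5,0)]⟩),.k,.k,⟨true,0,⟨0,[(3,0),(28,0)]⟩,⟨0,[(2,0),(13,0),(13,0)]⟩⟩,⟨false,0,⟨5,[(2,1),(0,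
  1),(1,1),(9,3),(1,0),(0,0),(0,0),(1,0)]⟩,⟨0,[(16,0),(16,0)]⟩⟩,⟨true,0,⟨0,[(32,0)]⟩,⟨0,[(31,0)]⟩⟩,
  ⟨false,0,⟨0,[(2,0),(29,0)]⟩,⟨0,[(1,0),(29,0)]⟩⟩,⟨false,1,⟨3,[(13,0),(0,0),(19,1)]⟩,⟨0,[]⟩⟩,⟨false,
  0,⟨0,[(2,0)]⟩,⟨0,[(1,0),(34,0)]⟩⟩,[.o ⟨false,0,⟨0,[(5,0)]⟩,⟨3,[(13,0),(0,0),(16,3),(2,1)]⟩⟩,.o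
  ⟨false,1,⟨1,[(26,0),(5,1),(1,0)]⟩,⟨0,[(31,0)]⟩⟩,.o ⟨false,1,⟨1,[(16,1),(9,0),(6,0)]⟩,⟨5,[(2,1),(0,
  1),(1,1),(9,3),(1,0),(0,0),(0,0),(1,0)]⟩⟩,.a ⟨true,0,⟨0,[(16,0)]⟩,⟨0,[(15,0)]⟩⟩ ⟨false,1,⟨0,[(1,
  0),(3,0),(9,0)]⟩,⟨0,[(2,0),(13,0),(14,0)]⟩⟩ ⟨true,0,⟨0,[(5,0),(9,0)]⟩,⟨0,[(16,0),(14,
  0)]⟩⟩]⟩))))))))))) (.Q [0,0,-1,-1,0,0,1,0,0,1,-1] (.p false [0,0,1] [1] (⟨0,[(15,0)]⟩,⟨0,[(14,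
  0)]⟩) .k 1 (⟨0,[]⟩,⟨0,[]⟩) .k .k) (.Q [0,0,-1,0,0,0,1,0,0,2,-1] (.p false [-1,1,1] [1] (⟨0,[(1,
  0)]⟩,⟨0,[(15,0),(2,0)]⟩) .k 1 (⟨0,[]⟩,⟨0,[]⟩) .k .k) (.R ⟨0,false,false,true,[-1,1,1],[0,1],[1,1,
  1],(⟨0,[(2,0)]⟩,⟨0,[(16,0),(2,0)]⟩),(⟨0,[(20,0)]⟩,⟨0,[(19,0)]⟩),⟨0,[(16,0)]⟩,.k,.k,.k,.k,.k,.k,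
  ⟨true,0,⟨0,[(24,0)]⟩,⟨0,[(3,0),(6,0),(4,0)]⟩⟩,⟨false,1,⟨0,[(10,0),(14,0)]⟩,⟨1,[(0,0),(12,0)]⟩⟩,
  ⟨false,0,⟨1,[(1,0),(7,0),(5,0),(5,0)]⟩,⟨1,[(3,1),(6,1),(14,0),(0,0)]⟩⟩,⟨true,0,⟨0,[(9,0)]⟩,⟨3,[(0,
  0),(3,1),(9,0)]⟩⟩,⟨false,0,⟨0,[]⟩,⟨0,[]⟩⟩,⟨false,0,⟨0,[]⟩,⟨0,[]⟩⟩,[.o ⟨false,0,⟨0,[(23,0)]⟩,⟨1,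
  [(18,0),(5,1),(1,0)]⟩⟩,.e ⟨false,0,⟨0,[]⟩,⟨3,[(5,0),(0,0),(18,1)]⟩⟩ ⟨false,1,⟨1,[(10,1),(12,1),(1,
  0),(0,0)]⟩,⟨0,[(1,0)]⟩⟩,.a ⟨true,0,⟨0,[(0,0)]⟩,⟨0,[(10,0)]⟩⟩ ⟨false,0,⟨1,[(13,0),(0,0)]⟩,⟨1,[(25,
  0),(0,0)]⟩⟩ ⟨true,0,⟨0,[(10,0),(12,0)]⟩,⟨0,[(1,0)]⟩⟩,.o ⟨false,0,⟨1,[(0,0),(12,0)]⟩,⟨1,[(10,1),(7,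
  0),(6,0)]⟩⟩]⟩) (.Q [0,-1,0,-1,0,0,1,1,0,0,-1] (.p false [0,0,1] [] (⟨0,[(17,0)]⟩,⟨0,[(16,0)]⟩) .k
  0 (⟨0,[]⟩,⟨0,[]⟩) .k .k) (.R ⟨2,true,false,false,[0,1],[0,0,1],[1,0,1,1],(⟨0,[]⟩,⟨0,[]⟩),(⟨0,[(18,
  0)]⟩,⟨0,[(17,0)]⟩),⟨0,[]⟩,.k,.k,.k,.k,.k,.k,⟨true,0,⟨1,[(1,0),(2,1),(10,0),(0,3)]⟩,⟨0,[(0,0),(14,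
  0),(7,0)]⟩⟩,⟨false,0,⟨0,[(0,0),(15,0),(7,0)]⟩,⟨0,[(15,0),(10,0)]⟩⟩,⟨true,0,⟨0,[]⟩,⟨0,[(29,0)]⟩⟩,
  ⟨false,0,⟨0,[(0,0)]⟩,⟨0,[(13,0),(10,0),(2,0)]⟩⟩,⟨false,1,⟨0,[(24,0),(2,0)]⟩,⟨0,[(25,0)]⟩⟩,⟨true,0,
  ⟨0,[(0,0),(23,0)]⟩,⟨0,[(13,0)]⟩⟩,[]⟩) (.I [0,1,1,0,-1,0,0,0,-1] (.Q [0,1,1,0,0,0,0,0,1,0,0,-1]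
  (.p false [0,0,0,1] [] (⟨0,[(10,0)]⟩,⟨0,[(9,0)]⟩) .k 0 (⟨0,[]⟩,⟨0,[]⟩) .k .k) (.K ⟨0,[0,0,0,1],0,
  0,(⟨0,[(11,0)]⟩,⟨0,[(10,0)]⟩),.k,(.r (-1) ⟨1,[(9,0),(17,1),(0,0)]⟩ ⟨0,[(1,0),(24,0),(2,0)]⟩),(.x
  0 ⟨0,[(23,0)]⟩ ⟨3,[(8,0),(0,0),(11,1),(0,3)]⟩),.k,.k,[⟨0,[(11,0)]⟩,⟨0,[(10,0)]⟩,⟨0,[(1,0),(9,0),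
  (16,0)]⟩,⟨0,[(0,0)]⟩]⟩) (.R ⟨0,false,false,false,[-1,1,1],[1,0,0,-1],[1,1,1],(⟨0,[(5,0)]⟩,⟨0,[(19,
  0),(2,0)]⟩),(⟨0,[(10,0)]⟩,⟨0,[(11,0)]⟩),⟨0,[(19,0)]⟩,.k,.k,.k,(.r (-1) ⟨1,[(6,1),(2,0),(7,1),(3,
  0)]⟩ ⟨11,[(0,7),(0,1),(1,5),(0,11),(3,0),(1,7),(1,5),(5,5),(2,0)]⟩),.k,.k,⟨true,0,⟨0,[(1,0),(7,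
  0)]⟩,⟨1,[(0,1),(2,0),(6,1),(5,0)]⟩⟩,⟨false,1,⟨0,[(3,0),(7,0),(16,0)]⟩,⟨3,[(2,0),(1,1),(1,1),(3,3),
  (5,0),(1,0),(5,0)]⟩⟩,⟨false,0,⟨1,[(4,0),(7,0),(5,0),(5,0)]⟩,⟨1,[(3,0),(2,1),(10,0),(10,0),(0,
  0)]⟩⟩,⟨true,0,⟨0,[(0,0),(2,0),(0,0),(7,0)]⟩,⟨0,[(1,0),(4,0),(2,0),(0,0)]⟩⟩,⟨false,0,⟨0,[]⟩,⟨0,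
  []⟩⟩,⟨false,0,⟨0,[]⟩,⟨0,[]⟩⟩,[.o ⟨false,0,⟨1,[(0,1),(2,0),(12,0),(8,1)]⟩,⟨1,[(9,0),(0,1),(5,0),(0,
  0),(3,0)]⟩⟩,.a ⟨true,0,⟨0,[(0,0)]⟩,⟨0,[(1,0),(7,0),(0,0)]⟩⟩ ⟨false,0,⟨0,[]⟩,⟨3,[(8,0),(0,0),(18,
  1)]⟩⟩ ⟨true,0,⟨0,[(0,0),(2,0)]⟩,⟨3,[(1,3),(0,0),(1,1),(1,1),(2,3),(0,3),(5,0),(1,0),(5,0)]⟩⟩,.o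
  ⟨false,1,⟨7,[(4,3),(1,3),(1,2),(0,2),(8,3),(9,1)]⟩,⟨0,[(3,0)]⟩⟩,.o ⟨false,0,⟨3,[(2,0),(1,1),(1,1),
  (9,0),(1,0),(5,0)]⟩,⟨1,[(3,0),(13,0),(3,0),(6,0)]⟩⟩]⟩)) (.I [1,-1,0,1,1,0,0,0,-1] (.Q [0,1,-1,0,0,
  0,0,0,-1,0,0,1] (.p true [0,0,0,1] [] (⟨0,[(11,0)]⟩,⟨0,[(10,0)]⟩) .k 0 (⟨0,[]⟩,⟨0,[]⟩) .k .k) (.Q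
  [0,1,1,0,0,0,0,0,1,0,0,-1] (.p false [0,0,0,1] [] (⟨0,[(12,0)]⟩,⟨0,[(11,0)]⟩) .k 0 (⟨0,[]⟩,⟨0,
  []⟩) .k .k) (.I [0,0,1,1,0,0,0,0,-1] (.K ⟨0,[0,0,0,1],0,0,(⟨0,[(14,0)]⟩,⟨0,[(13,0)]⟩),.k,(.r (-1)
  ⟨1,[(12,0),(17,1),(0,0)]⟩ ⟨0,[(0,0)]⟩),(.x 0 ⟨0,[(26,0)]⟩ ⟨3,[(11,0),(0,0),(11,1),(0,3)]⟩),.k,.k,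
  [⟨0,[(14,0)]⟩,⟨0,[(13,0)]⟩,⟨0,[(2,0)]⟩,⟨0,[(1,0)]⟩]⟩) (.K ⟨0,[0,0,0,1],0,0,(⟨0,[(14,0)]⟩,⟨0,[(13,
  0)]⟩),.k,(.x 0 ⟨1,[(6,0),(12,1),(0,0),(4,1)]⟩ ⟨0,[(26,0),(4,0)]⟩),(.x 0 ⟨0,[(26,0)]⟩ ⟨3,[(11,0),
  (0,0),(11,1),(0,3)]⟩),.k,.k,[⟨0,[(14,0)]⟩,⟨0,[(13,0)]⟩,⟨0,[(2,0)]⟩,⟨0,[(1,0)]⟩]⟩)) (.Q [0,0,0,0,0,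
  1,0,0,0,-1,0,1] (.p true [0,0,0,1] [1] (⟨0,[(13,0)]⟩,⟨0,[(12,0)]⟩) .k 1 (⟨0,[]⟩,⟨0,[]⟩) .k .k)
  (.R ⟨0,false,false,true,[1,0,0,-1],[0,1],[0,1,0,0,0,0,0,0,-1],(⟨0,[(13,0)]⟩,⟨0,[(14,0)]⟩),(⟨0,
  [(26,0)]⟩,⟨0,[(25,0)]⟩),⟨0,[(0,0)]⟩,.k,.k,(.x (-1) ⟨3,[(11,0),(0,0),(11,1),(0,3)]⟩ ⟨0,[(26,0)]⟩),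
  (.x (-1) ⟨3,[(11,0),(0,0),(11,1),(0,3)]⟩ ⟨0,[(26,0)]⟩),.k,.k,⟨false,0,⟨0,[(1,0),(4,0),(0,0),(5,0),
  (14,0)]⟩,⟨5,[(3,1),(1,1),(0,0),(2,1),(2,3),(6,2),(0,1)]⟩⟩,⟨true,0,⟨0,[(13,0)]⟩,⟨1,[(6,0),(7,1),(4,
  0)]⟩⟩,⟨true,0,⟨0,[(34,0)]⟩,⟨0,[]⟩⟩,⟨false,1,⟨5,[(3,1),(1,1),(0,0),(2,1),(2,3),(0,5),(5,2),(0,1)]⟩,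
  ⟨0,[(1,0),(4,0),(0,0)]⟩⟩,⟨false,0,⟨0,[]⟩,⟨0,[]⟩⟩,⟨false,0,⟨0,[]⟩,⟨0,[]⟩⟩,[.o ⟨false,0,⟨0,[(29,
  0)]⟩,⟨1,[(24,0),(5,1),(1,0)]⟩⟩,.o ⟨false,1,⟨7,[(3,3),(7,0),(0,2),(16,3)]⟩,⟨0,[(6,0),(0,0)]⟩⟩,.o
  ⟨false,1,⟨1,[(2,0),(1,0),(9,0),(9,0)]⟩,⟨1,[(6,0),(6,1),(5,0)]⟩⟩,.a ⟨true,0,⟨0,[(14,0)]⟩,⟨0,[(13,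
  0)]⟩⟩ ⟨false,0,⟨1,[(1,1),(4,0),(6,1),(5,0),(8,1)]⟩,⟨1,[(12,0),(6,0),(0,0),(11,0)]⟩⟩ ⟨true,0,⟨0,
  [(13,0),(15,0)]⟩,⟨0,[(6,0),(0,0),(6,0)]⟩⟩]⟩) (.R ⟨1,false,false,true,[1,0,0,-1],[0,1],[0,1,0,-1,0,
  0,0,0,-1],(⟨0,[(13,0)]⟩,⟨0,[(14,0)]⟩),(⟨0,[(26,0)]⟩,⟨0,[(25,0)]⟩),⟨0,[(0,0)]⟩,.k,.k,(.x (-1) ⟨3,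
  [(11,0),(0,0),(11,1),(0,3)]⟩ ⟨0,[(26,0)]⟩),(.x (-1) ⟨3,[(11,0),(0,0),(11,1),(0,3)]⟩ ⟨0,[(26,0)]⟩),
  (.r 0 ⟨0,[(1,0),(4,0),(0,0),(5,0),(14,0),(1,0)]⟩ ⟨1,[(5,1),(0,0),(2,1),(2,0),(6,1),(0,0),(11,
  0)]⟩),.k,⟨false,0,⟨0,[(1,0),(4,0),(0,0),(5,0),(14,0),(1,0)]⟩,⟨1,[(5,1),(0,0),(2,1),(2,0),(6,0),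
  (12,0)]⟩⟩,⟨true,0,⟨0,[(13,0)]⟩,⟨1,[(6,0),(7,1),(4,0)]⟩⟩,⟨false,0,⟨0,[(30,0)]⟩,⟨0,[(29,0),(2,0)]⟩⟩,
  ⟨false,1,⟨5,[(3,1),(1,1),(0,0),(2,1),(2,3),(0,5),(5,2),(0,1)]⟩,⟨0,[(1,0),(4,0),(0,0)]⟩⟩,⟨true,0,
  ⟨0,[(34,0)]⟩,⟨0,[]⟩⟩,⟨false,1,⟨1,[(5,1),(0,0),(2,1),(2,0),(0,1),(5,0),(12,0)]⟩,⟨0,[(1,0),(4,0),(0,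
  0),(22,0)]⟩⟩,[.o ⟨false,0,⟨0,[(29,0)]⟩,⟨1,[(24,0),(5,1),(1,0)]⟩⟩,.o ⟨false,1,⟨7,[(3,3),(7,0),(0,
  2),(16,3)]⟩,⟨0,[(6,0),(0,0)]⟩⟩,.o ⟨false,1,⟨1,[(2,0),(1,0),(9,0),(9,0)]⟩,⟨1,[(6,0),(6,1),(5,0)]⟩⟩,
  .a ⟨true,0,⟨0,[(14,0)]⟩,⟨0,[(13,0)]⟩⟩ ⟨false,0,⟨1,[(1,0),(0,0),(3,1),(0,1),(5,1)]⟩,⟨1,[(5,0),(0,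
  0),(2,1),(2,0),(8,0),(5,0),(4,0)]⟩⟩ ⟨true,0,⟨0,[(13,0),(15,0)]⟩,⟨0,[(6,0),(0,0),(6,0)]⟩⟩]⟩))) (.Q
  [0,0,0,0,0,1,0,0,0,-1,0,1] (.p true [0,0,0,1] [1] (⟨0,[(12,0)]⟩,⟨0,[(11,0)]⟩) .k 1 (⟨0,[]⟩,⟨0,
  []⟩) .k .k) (.Q [0,-1,-1,-1,1,0,0,0,-1,-1,0,1] (.p true [0,0,0,1] [1] (⟨0,[(13,0)]⟩,⟨0,[(12,0)]⟩)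
  .k 1 (⟨0,[]⟩,⟨0,[]⟩) .k .k) (.R ⟨0,false,false,true,[1,0,0,-1],[0,1],[0,1,0,0,0,0,0,0,-1],(⟨0,
  [(13,0)]⟩,⟨0,[(14,0)]⟩),(⟨0,[(26,0)]⟩,⟨0,[(25,0)]⟩),⟨0,[(1,0)]⟩,.k,.k,(.x (-1) ⟨3,[(11,0),(0,0),
  (11,1),(0,3)]⟩ ⟨0,[(26,0)]⟩),(.x (-1) ⟨3,[(11,0),(0,0),(11,1),(0,3)]⟩ ⟨0,[(26,0)]⟩),.k,.k,⟨false,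
  1,⟨0,[(0,0),(12,0),(14,0)]⟩,⟨0,[(2,0),(11,0),(14,0)]⟩⟩,⟨true,0,⟨0,[(13,0)]⟩,⟨1,[(6,0),(7,1),(4,
  0)]⟩⟩,⟨true,0,⟨0,[(34,0)]⟩,⟨0,[]⟩⟩,⟨false,0,⟨0,[(2,0),(6,0),(8,0)]⟩,⟨0,[(0,0)]⟩⟩,⟨false,0,⟨0,[]⟩,
  ⟨0,[]⟩⟩,⟨false,0,⟨0,[]⟩,⟨0,[]⟩⟩,[.o ⟨false,0,⟨0,[(29,0)]⟩,⟨3,[(0,0),(3,0),(8,0),(10,1),(2,1),(2,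
  0)]⟩⟩,.o ⟨false,1,⟨7,[(3,3),(7,0),(0,2),(16,3)]⟩,⟨0,[(6,0),(0,0)]⟩⟩,.o ⟨false,1,⟨1,[(14,1),(9,0),
  (6,0)]⟩,⟨1,[(6,0),(6,1),(5,0)]⟩⟩,.a ⟨true,0,⟨0,[(14,0)]⟩,⟨0,[(13,0)]⟩⟩ ⟨false,1,⟨1,[(11,0),(19,
  0)]⟩,⟨0,[(2,0),(11,0)]⟩⟩ ⟨true,0,⟨0,[(13,0),(15,0)]⟩,⟨0,[(6,0),(0,0),(6,0)]⟩⟩]⟩) (.K ⟨0,[0,0,0,1],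
  0,(-1),(⟨0,[(14,0)]⟩,⟨0,[(13,0)]⟩),.k,(.x 0 ⟨1,[(6,0),(12,1),(0,0),(4,1)]⟩ ⟨0,[(26,0),(4,0)]⟩),
  (.x 0 ⟨0,[(26,0)]⟩ ⟨3,[(11,0),(0,0),(11,1),(0,3)]⟩),.k,.k,[⟨0,[(14,0)]⟩,⟨0,[(13,0)]⟩,⟨1,[(11,0),
  (2,1),(16,0),(2,1)]⟩,⟨0,[(0,0),(5,0),(0,0)]⟩]⟩)) (.Q [0,-1,-1,0,1,0,1,1,-1,0,-1,1] (.p false [0,0,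
  1] [0,0,0,1] (⟨0,[(22,0)]⟩,⟨0,[(21,0)]⟩) .k 2 (⟨0,[(13,0)]⟩,⟨0,[(12,0)]⟩) .k (.r (-1) ⟨3,[(5,0),
  (3,1),(0,1),(8,2),(10,1)]⟩ ⟨0,[(1,0),(11,0),(6,0),(6,0)]⟩)) (.R ⟨1,false,false,true,[1,0,0,-1],[1,
  0,-1],[1,1,0,0,0,0,0,0,-1],(⟨0,[(13,0)]⟩,⟨0,[(14,0)]⟩),(⟨0,[(22,0)]⟩,⟨0,[(23,0)]⟩),⟨0,[(1,0)]⟩,.k,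
  .k,(.x (-1) ⟨3,[(11,0),(0,0),(11,1),(0,3)]⟩ ⟨0,[(26,0)]⟩),.k,(.r (-1) ⟨1,[(0,1),(5,0),(6,1),(6,0),
  (7,1),(1,1)]⟩ ⟨0,[(2,0),(11,0),(6,0),(7,0)]⟩),.k,⟨false,1,⟨1,[(0,1),(5,0),(6,1),(6,0),(7,1)]⟩,⟨0,
  [(2,0),(11,0),(6,0),(6,0)]⟩⟩,⟨true,0,⟨1,[(6,0),(6,1),(6,0)]⟩,⟨0,[(6,0),(0,0),(1,0),(4,0),(6,0)]⟩⟩,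
  ⟨false,0,⟨0,[]⟩,⟨3,[(11,0),(0,0),(19,1)]⟩⟩,⟨false,0,⟨0,[(2,0),(15,0)]⟩,⟨0,[(0,0)]⟩⟩,⟨true,0,⟨0,
  [(29,0)]⟩,⟨0,[(30,0)]⟩⟩,⟨false,0,⟨0,[(2,0),(2,0)]⟩,⟨0,[(0,0),(29,0)]⟩⟩,[.o ⟨false,0,⟨0,[(15,0)]⟩,
  ⟨7,[(10,3),(0,0),(0,0),(11,1),(7,3)]⟩⟩,.o ⟨false,1,⟨1,[(18,1),(5,0),(7,0)]⟩,⟨0,[(6,0),(0,0),(1,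
  0)]⟩⟩,.o ⟨false,1,⟨1,[(14,1),(9,0),(6,0)]⟩,⟨1,[(6,0),(6,1),(5,0)]⟩⟩,.a ⟨true,0,⟨0,[(14,0)]⟩,⟨0,
  [(13,0)]⟩⟩ ⟨false,1,⟨1,[(11,0),(19,0)]⟩,⟨0,[(2,0),(11,0)]⟩⟩ ⟨true,0,⟨0,[(13,0),(1,0)]⟩,⟨0,[(6,0),
  (0,0),(1,0),(4,0)]⟩⟩]⟩) (.K ⟨0,[0,0,0,1],0,(-1),(⟨0,[(14,0)]⟩,⟨0,[(13,0)]⟩),.k,(.x 0 ⟨1,[(6,0),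
  (12,1),(0,0),(4,1)]⟩ ⟨0,[(26,0),(4,0)]⟩),(.x 0 ⟨0,[(26,0)]⟩ ⟨3,[(11,0),(0,0),(11,1),(0,3)]⟩),.k,
  .k,[⟨0,[(14,0)]⟩,⟨0,[(13,0)]⟩,⟨1,[(11,0),(2,1),(16,0),(2,1)]⟩,⟨0,[(0,0),(5,0),(0,0),(1,0)]⟩]⟩))))
  (.K ⟨0,[0,0,0,1],0,(-1),(⟨0,[(11,0)]⟩,⟨0,[(10,0)]⟩),.k,(.r 0 ⟨1,[(0,1),(27,0),(0,0)]⟩ ⟨1,[(8,0),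
  (7,0),(0,0),(8,1),(2,0)]⟩),(.x 0 ⟨0,[(23,0)]⟩ ⟨3,[(8,0),(0,0),(11,1),(0,3)]⟩),.k,.k,[⟨0,[(11,0)]⟩,
  ⟨0,[(10,0)]⟩,⟨1,[(8,0),(2,1),(16,0),(2,1)]⟩,⟨0,[(0,0),(2,0),(2,0),(3,0),(7,0)]⟩]⟩))))) (.Q [0,0,0,
  1,0,0,0,0,0,1] (.pp false [-1,1]) (.K ⟨2,[-1,1,1],0,0,(⟨0,[(2,0)]⟩,⟨0,[(16,0),(2,0)]⟩),.k,.k,(.r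
  0 ⟨1,[(1,1),(1,1),(9,0),(0,0)]⟩ ⟨0,[(15,0),(8,1),(0,0)]⟩),.k,.k,[⟨0,[(0,0)]⟩,⟨0,[(9,0),(14,0)]⟩,
  ⟨1,[(10,1),(2,0),(0,0)]⟩,⟨1,[(4,0),(2,0),(0,0),(6,1)]⟩]⟩) (.Q [0,1,-1,0,0,0,0,0,-1,0,0,1] (.p
  true [0,0,0,1] [] (⟨0,[(8,0)]⟩,⟨0,[(7,0)]⟩) .k 0 (⟨0,[]⟩,⟨0,[]⟩) .k .k) (.Q [0,1,1,0,0,0,0,0,1,0,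
  0,-1] (.p false [0,0,0,1] [] (⟨0,[(9,0)]⟩,⟨0,[(8,0)]⟩) .k 0 (⟨0,[]⟩,⟨0,[]⟩) .k .k) (.I [0,1,-1,0,
  0,0,0,0,-1] (.K ⟨0,[0,0,0,1],0,0,(⟨0,[(11,0)]⟩,⟨0,[(10,0)]⟩),.k,(.r (-1) ⟨1,[(9,0),(17,1),(0,0)]⟩
  ⟨0,[(0,0),(3,0),(1,0),(11,0),(5,0)]⟩),(.x 0 ⟨0,[(23,0)]⟩ ⟨3,[(8,0),(0,0),(11,1),(0,3)]⟩),.k,.k,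
  [⟨0,[(11,0)]⟩,⟨0,[(10,0)]⟩,⟨0,[(2,0)]⟩,⟨0,[(1,0)]⟩]⟩) (.R ⟨0,false,false,false,[1,0,-1],[0,0,0,1],
  [0,1],(⟨0,[(19,0)]⟩,⟨0,[(20,0)]⟩),(⟨0,[(11,0)]⟩,⟨0,[(10,0)]⟩),⟨0,[(5,0)]⟩,.k,.k,.k,.k,.k,.k,⟨true,
  0,⟨1,[(2,1),(0,0),(0,0),(5,1),(5,0)]⟩,⟨0,[(0,0)]⟩⟩,⟨false,0,⟨0,[(3,0),(2,0),(3,0),(7,0)]⟩,⟨0,[(11,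
  0),(1,0),(14,0)]⟩⟩,⟨true,0,⟨1,[(7,0),(5,0),(3,0),(7,1)]⟩,⟨0,[(18,0)]⟩⟩,⟨false,0,⟨0,[(0,0),(2,0),
  (2,0),(3,0)]⟩,⟨0,[(2,0),(9,0),(16,0)]⟩⟩,⟨false,0,⟨0,[]⟩,⟨0,[]⟩⟩,⟨false,0,⟨0,[]⟩,⟨0,[]⟩⟩,[.o
  ⟨false,0,⟨2,[(0,1),(0,0),(1,1),(0,0),(1,0),(3,1),(7,0),(6,0)]⟩,⟨1,[(2,1),(18,0),(7,0)]⟩⟩,.a ⟨true,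
  0,⟨0,[(0,0),(9,0)]⟩,⟨0,[(2,0)]⟩⟩ ⟨false,1,⟨3,[(8,0),(0,0),(18,1)]⟩,⟨0,[]⟩⟩ ⟨true,0,⟨0,[(0,0),(2,
  0),(2,0),(3,0),(7,0)]⟩,⟨0,[(2,0),(10,0)]⟩⟩,.o ⟨false,1,⟨1,[(17,1),(3,0),(6,0)]⟩,⟨0,[(3,0),(2,0),
  (11,0)]⟩⟩,.o ⟨false,0,⟨0,[(13,0)]⟩,⟨0,[(16,0),(11,0)]⟩⟩]⟩)) (.Q [0,0,0,0,0,1,0,0,0,-1,0,1] (.p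
  true [0,0,0,1] [1] (⟨0,[(10,0)]⟩,⟨0,[(9,0)]⟩) .k 1 (⟨0,[]⟩,⟨0,[]⟩) .k .k) (.R ⟨0,false,false,true,
  [1,0,0,-1],[0,1],[0,1,0,0,0,0,0,0,-1],(⟨0,[(10,0)]⟩,⟨0,[(11,0)]⟩),(⟨0,[(23,0)]⟩,⟨0,[(22,0)]⟩),⟨0,
  [(0,0)]⟩,.k,.k,(.x (-1) ⟨3,[(8,0),(0,0),(11,1),(0,3)]⟩ ⟨0,[(23,0)]⟩),(.x (-1) ⟨3,[(8,0),(0,0),(11,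
  1),(0,3)]⟩ ⟨0,[(23,0)]⟩),.k,.k,⟨false,0,⟨0,[(1,0),(1,0),(6,0),(14,0)]⟩,⟨1,[(9,0),(6,0),(0,0),(8,
  1),(2,0)]⟩⟩,⟨true,0,⟨0,[(10,0)]⟩,⟨1,[(3,0),(0,0),(6,1),(4,0)]⟩⟩,⟨true,0,⟨0,[(31,0)]⟩,⟨0,[]⟩⟩,
  ⟨false,1,⟨1,[(9,0),(0,1),(5,0),(0,0),(8,1),(2,0)]⟩,⟨0,[(1,0),(1,0)]⟩⟩,⟨false,0,⟨0,[]⟩,⟨0,[]⟩⟩,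
  ⟨false,0,⟨0,[]⟩,⟨0,[]⟩⟩,[.o ⟨false,0,⟨0,[(26,0)]⟩,⟨1,[(21,0),(5,1),(1,0)]⟩⟩,.o ⟨false,1,⟨3,[(8,0),
  (0,0),(16,3),(2,1)]⟩,⟨0,[(3,0)]⟩⟩,.o ⟨false,1,⟨1,[(1,0),(0,0),(6,0),(11,0)]⟩,⟨1,[(3,0),(0,0),(5,
  1),(5,0)]⟩⟩,.a ⟨true,0,⟨0,[(11,0)]⟩,⟨0,[(10,0)]⟩⟩ ⟨false,0,⟨0,[(1,0),(1,0),(6,0),(15,0)]⟩,⟨1,[(9,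
  0),(6,0),(0,0),(11,0)]⟩⟩ ⟨true,0,⟨0,[(10,0),(15,0)]⟩,⟨0,[(3,0),(7,0)]⟩⟩]⟩) (.R ⟨1,false,false,
  true,[1,0,0,-1],[0,1],[0,1,0,-1,0,0,0,0,-1],(⟨0,[(10,0)]⟩,⟨0,[(11,0)]⟩),(⟨0,[(23,0)]⟩,⟨0,[(22,
  0)]⟩),⟨0,[(0,0)]⟩,.k,.k,(.x (-1) ⟨3,[(8,0),(0,0),(11,1),(0,3)]⟩ ⟨0,[(23,0)]⟩),(.x (-1) ⟨3,[(8,0),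
  (0,0),(11,1),(0,3)]⟩ ⟨0,[(23,0)]⟩),(.r 0 ⟨0,[(1,0),(1,0),(6,0),(14,0),(1,0)]⟩ ⟨1,[(4,1),(1,1),(2,
  0),(5,1),(0,1),(12,0)]⟩),.k,⟨false,0,⟨0,[(1,0),(1,0),(6,0),(14,0),(1,0)]⟩,⟨5,[(4,3),(1,3),(2,2),
  (5,1),(0,1),(1,1),(7,3),(2,2)]⟩⟩,⟨true,0,⟨0,[(10,0)]⟩,⟨1,[(3,0),(0,0),(6,1),(4,0)]⟩⟩,⟨false,0,⟨0,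
  [(27,0)]⟩,⟨0,[(26,0),(2,0)]⟩⟩,⟨false,1,⟨1,[(9,0),(0,1),(5,0),(0,0),(8,1),(2,0)]⟩,⟨0,[(1,0),(1,
  0)]⟩⟩,⟨true,0,⟨0,[(31,0)]⟩,⟨0,[]⟩⟩,⟨false,1,⟨5,[(4,3),(1,3),(2,2),(0,5),(4,1),(0,1),(1,1),(7,3),
  (2,2)]⟩,⟨0,[(1,0),(1,0),(23,0)]⟩⟩,[.o ⟨false,0,⟨0,[(26,0)]⟩,⟨1,[(21,0),(5,1),(1,0)]⟩⟩,.o ⟨false,1,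
  ⟨3,[(8,0),(0,0),(16,3),(2,1)]⟩,⟨0,[(3,0)]⟩⟩,.o ⟨false,1,⟨1,[(1,0),(0,0),(6,0),(11,0)]⟩,⟨1,[(3,0),
  (0,0),(5,1),(5,0)]⟩⟩,.a ⟨true,0,⟨0,[(11,0)]⟩,⟨0,[(10,0)]⟩⟩ ⟨false,0,⟨1,[(1,0),(0,0),(0,1),(6,1)]⟩,
  ⟨3,[(4,1),(1,1),(2,1),(6,0),(0,0),(0,1),(10,1)]⟩⟩ ⟨true,0,⟨0,[(10,0),(15,0)]⟩,⟨0,[(3,0),(7,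
  0)]⟩⟩]⟩))) (.I [1,1,0,1,0,0,0,0,-1] (.Q [0,0,0,0,0,1,0,0,0,-1,0,1] (.p true [0,0,0,1] [1] (⟨0,
  [(10,0)]⟩,⟨0,[(9,0)]⟩) .k 1 (⟨0,[]⟩,⟨0,[]⟩) .k .k) (.R ⟨0,false,false,false,[1,0,0,-1],[1,-1],[],
  (⟨0,[(10,0)]⟩,⟨0,[(11,0)]⟩),(⟨0,[(22,0)]⟩,⟨0,[(23,0)]⟩),⟨0,[(0,0)]⟩,.k,.k,(.x (-1) ⟨3,[(8,0),(0,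
  0),(11,1),(0,3)]⟩ ⟨0,[(23,0)]⟩),(.x (-1) ⟨0,[(23,0),(4,0)]⟩ ⟨0,[(13,0),(2,0),(5,0)]⟩),.k,.k,⟨true,
  0,⟨3,[(4,1),(1,1),(9,0),(0,0),(0,1)]⟩,⟨0,[(27,0)]⟩⟩,⟨false,0,⟨2,[(1,0),(0,0),(0,0),(6,1),(2,0),(2,
  0)]⟩,⟨0,[(11,0),(16,0)]⟩⟩,⟨true,0,⟨0,[(2,0),(8,0),(13,0)]⟩,⟨0,[(1,0),(25,0)]⟩⟩,⟨false,0,⟨0,[(2,0),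
  (24,0)]⟩,⟨1,[(1,1),(9,1),(16,0),(0,0)]⟩⟩,⟨false,0,⟨0,[]⟩,⟨0,[]⟩⟩,⟨false,0,⟨0,[]⟩,⟨0,[]⟩⟩,[.o
  ⟨false,0,⟨0,[(3,0)]⟩,⟨1,[(1,1),(7,0),(19,0)]⟩⟩,.o ⟨false,1,⟨1,[(21,0),(5,1),(1,0)]⟩,⟨0,[(26,0)]⟩⟩,
  .o ⟨false,1,⟨1,[(11,1),(9,0),(6,0)]⟩,⟨2,[(1,0),(0,0),(0,0),(6,1),(2,0),(2,0)]⟩⟩,.a ⟨true,0,⟨0,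
  [(11,0)]⟩,⟨0,[(10,0)]⟩⟩ ⟨false,1,⟨1,[(28,0),(0,0)]⟩,⟨1,[(16,0),(0,0)]⟩⟩ ⟨true,0,⟨0,[(3,0),(6,0)]⟩,
  ⟨0,[(11,0),(14,0)]⟩⟩]⟩) (.Q [0,-1,-1,0,1,0,1,1,-1,0,-1,1] (.p false [0,0,1] [0,0,0,1] (⟨0,[(20,
  0)]⟩,⟨0,[(19,0)]⟩) .k 2 (⟨0,[(11,0)]⟩,⟨0,[(10,0)]⟩) .k (.r (-1) ⟨1,[(7,0),(0,0),(4,0),(3,0),(10,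
  0)]⟩ ⟨0,[(2,0),(8,0),(6,0),(6,0)]⟩)) (.R ⟨1,false,false,true,[1,0,0,-1],[1,0,-1],[1,1,0,0,0,0,0,0,
  -1],(⟨0,[(11,0)]⟩,⟨0,[(12,0)]⟩),(⟨0,[(20,0)]⟩,⟨0,[(21,0)]⟩),⟨0,[(1,0)]⟩,.k,.k,(.x (-1) ⟨3,[(9,0),
  (0,0),(11,1),(0,3)]⟩ ⟨0,[(24,0)]⟩),.k,(.r (-1) ⟨0,[(0,0),(3,0),(6,0),(6,0),(7,0)]⟩ ⟨0,[(3,0),(8,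
  0),(6,0),(7,0)]⟩),.k,⟨false,1,⟨0,[(0,0),(10,0),(2,0),(11,0)]⟩,⟨0,[(3,0),(8,0),(6,0),(6,0)]⟩⟩,
  ⟨true,0,⟨0,[(11,0),(2,0)]⟩,⟨0,[(4,0),(2,0),(4,0),(6,0)]⟩⟩,⟨false,0,⟨0,[]⟩,⟨3,[(9,0),(0,0),(19,
  1)]⟩⟩,⟨false,0,⟨0,[(3,0),(12,0)]⟩,⟨0,[(0,0)]⟩⟩,⟨true,0,⟨0,[(27,0)]⟩,⟨0,[(28,0)]⟩⟩,⟨false,0,⟨0,[(3,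
  0),(1,0),(5,0),(0,0),(6,0),(6,0)]⟩,⟨0,[(0,0),(27,0)]⟩⟩,[.o ⟨false,0,⟨0,[(13,0)]⟩,⟨7,[(8,3),(0,0),
  (0,0),(11,1),(7,3)]⟩⟩,.o ⟨false,1,⟨1,[(16,1),(5,0),(7,0)]⟩,⟨0,[(4,0),(2,0)]⟩⟩,.o ⟨false,1,⟨1,[(12,
  1),(9,0),(6,0)]⟩,⟨2,[(2,0),(0,0),(0,0),(6,1),(2,0),(2,0)]⟩⟩,.a ⟨true,0,⟨0,[(12,0)]⟩,⟨0,[(11,0)]⟩⟩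
  ⟨false,1,⟨1,[(9,0),(19,0)]⟩,⟨0,[(3,0),(8,0)]⟩⟩ ⟨true,0,⟨0,[(11,0),(1,0)]⟩,⟨0,[(4,0),(2,0),(4,
  0)]⟩⟩]⟩) (.I [0,0,1,1,0,0,0,0,-1] (.K ⟨0,[0,0,0,1],0,(-1),(⟨0,[(13,0)]⟩,⟨0,[(12,0)]⟩),.k,(.r (-1)
  ⟨1,[(11,0),(17,1),(0,0)]⟩ ⟨0,[(0,0)]⟩),(.x 0 ⟨0,[(25,0)]⟩ ⟨3,[(10,0),(0,0),(11,1),(0,3)]⟩),.k,.k,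
  [⟨0,[(13,0)]⟩,⟨0,[(12,0)]⟩,⟨1,[(10,0),(2,1),(16,0),(2,1)]⟩,⟨0,[(1,0),(3,0),(2,0)]⟩]⟩) (.K ⟨0,[0,0,
  0,1],0,(-1),(⟨0,[(13,0)]⟩,⟨0,[(12,0)]⟩),.k,(.x 0 ⟨0,[(15,0),(2,0),(5,0)]⟩ ⟨0,[(25,0),(4,0)]⟩),(.x
  0 ⟨0,[(25,0)]⟩ ⟨3,[(10,0),(0,0),(11,1),(0,3)]⟩),.k,.k,[⟨0,[(13,0)]⟩,⟨0,[(12,0)]⟩,⟨1,[(10,0),(2,1),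
  (16,0),(2,1)]⟩,⟨0,[(1,0),(3,0),(2,0)]⟩]⟩)))) (.Q [0,1,1,0,-1,0,0,0,1,0,0,-1] (.p false [0,0,0,1]
  [] (⟨0,[(10,0)]⟩,⟨0,[(9,0)]⟩) .k 0 (⟨0,[]⟩,⟨0,[]⟩) .k .k) (.K ⟨0,[0,0,0,1],0,(-1),(⟨0,[(11,0)]⟩,
  ⟨0,[(10,0)]⟩),.k,(.r 0 ⟨0,[(1,0),(23,0)]⟩ ⟨1,[(8,0),(7,0),(0,0),(8,1),(2,0)]⟩),(.x 0 ⟨0,[(23,0)]⟩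
  ⟨3,[(8,0),(0,0),(11,1),(0,3)]⟩),.k,.k,[⟨0,[(11,0)]⟩,⟨0,[(10,0)]⟩,⟨1,[(8,0),(2,1),(16,0),(2,1)]⟩,
  ⟨0,[(0,0)]⟩]⟩) (.Q [0,0,0,0,0,1,0,0,0,-1,0,1] (.p true [0,0,0,1] [1] (⟨0,[(11,0)]⟩,⟨0,[(10,0)]⟩)
  .k 1 (⟨0,[]⟩,⟨0,[]⟩) .k .k) (.R ⟨0,false,false,true,[1,0,0,-1],[0,1],[0,1,0,0,0,0,0,0,-1],(⟨0,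
  [(11,0)]⟩,⟨0,[(12,0)]⟩),(⟨0,[(24,0)]⟩,⟨0,[(23,0)]⟩),⟨0,[(0,0)]⟩,.k,.k,(.x (-1) ⟨3,[(9,0),(0,0),
  (11,1),(0,3)]⟩ ⟨0,[(24,0)]⟩),(.x (-1) ⟨3,[(9,0),(0,0),(11,1),(0,3)]⟩ ⟨0,[(24,0)]⟩),.k,.k,⟨false,1,
  ⟨0,[(1,0),(2,0),(6,0),(14,0)]⟩,⟨0,[(3,0),(8,0),(14,0)]⟩⟩,⟨true,0,⟨0,[(11,0)]⟩,⟨1,[(4,0),(0,0),(6,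
  1),(4,0)]⟩⟩,⟨true,0,⟨0,[(32,0)]⟩,⟨0,[]⟩⟩,⟨false,0,⟨0,[(3,0),(3,0),(8,0)]⟩,⟨0,[(1,0),(2,0)]⟩⟩,
  ⟨false,0,⟨0,[]⟩,⟨0,[]⟩⟩,⟨false,0,⟨0,[]⟩,⟨0,[]⟩⟩,[.o ⟨false,0,⟨0,[(27,0)]⟩,⟨1,[(2,1),(6,0),(12,
  0)]⟩⟩,.o ⟨false,1,⟨3,[(9,0),(0,0),(16,3),(2,1)]⟩,⟨0,[(4,0)]⟩⟩,.o ⟨false,1,⟨1,[(12,1),(9,0),(6,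
  0)]⟩,⟨1,[(4,0),(0,0),(5,1),(5,0)]⟩⟩,.a ⟨true,0,⟨0,[(12,0)]⟩,⟨0,[(11,0)]⟩⟩ ⟨false,1,⟨1,[(9,0),(19,
  0)]⟩,⟨0,[(3,0),(8,0)]⟩⟩ ⟨true,0,⟨0,[(11,0),(15,0)]⟩,⟨0,[(4,0),(7,0)]⟩⟩]⟩) (.R ⟨1,false,false,true,
  [1,0,0,-1],[0,1],[0,1,0,-1,0,0,0,0,-1],(⟨0,[(11,0)]⟩,⟨0,[(12,0)]⟩),(⟨0,[(24,0)]⟩,⟨0,[(23,0)]⟩),⟨0,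
  [(0,0)]⟩,.k,.k,(.x (-1) ⟨3,[(9,0),(0,0),(11,1),(0,3)]⟩ ⟨0,[(24,0)]⟩),(.x (-1) ⟨3,[(9,0),(0,0),(11,
  1),(0,3)]⟩ ⟨0,[(24,0)]⟩),(.r (-1) ⟨0,[(1,0),(2,0),(6,0),(14,0),(1,0)]⟩ ⟨2,[(3,2),(1,1),(1,1),(4,
  2),(3,0),(0,0),(1,0),(7,1)]⟩),.k,⟨false,1,⟨0,[(1,0),(2,0),(6,0),(14,0),(1,0)]⟩,⟨0,[(2,0),(2,0),(1,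
  0),(11,0),(7,0)]⟩⟩,⟨true,0,⟨0,[(11,0)]⟩,⟨1,[(4,0),(0,0),(6,1),(4,0)]⟩⟩,⟨false,0,⟨0,[(28,0)]⟩,⟨0,
  [(27,0),(2,0)]⟩⟩,⟨false,0,⟨0,[(3,0),(3,0),(8,0)]⟩,⟨0,[(1,0),(2,0)]⟩⟩,⟨true,0,⟨0,[(32,0)]⟩,⟨0,[]⟩⟩,
  ⟨false,0,⟨0,[(2,0),(2,0),(1,0),(3,0),(7,0),(7,0)]⟩,⟨0,[(1,0),(2,0),(23,0)]⟩⟩,[.o ⟨false,0,⟨0,[(27,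
  0)]⟩,⟨1,[(2,1),(6,0),(12,0)]⟩⟩,.o ⟨false,1,⟨3,[(9,0),(0,0),(16,3),(2,1)]⟩,⟨0,[(4,0)]⟩⟩,.o ⟨false,
  1,⟨1,[(12,1),(9,0),(6,0)]⟩,⟨1,[(4,0),(0,0),(5,1),(5,0)]⟩⟩,.a ⟨true,0,⟨0,[(12,0)]⟩,⟨0,[(11,0)]⟩⟩
  ⟨false,1,⟨1,[(9,0),(18,1),(0,0)]⟩,⟨0,[(2,0),(2,0),(1,0),(11,0)]⟩⟩ ⟨true,0,⟨0,[(11,0),(15,0)]⟩,⟨0,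
  [(4,0),(7,0)]⟩⟩]⟩)))))))))

theorem ok0 : chk (cU (-1) true 3) t0 base = true := by decide +kernel

theorem ok : chkB (cU (-1) true 3) (fax (fcU (-1)) false 2 (-1) 3 false (tU true)) t0 base = true :=
  chkB_of (by decide +kernel) ok0

end Helper11.CT.Tm1_2_m1_m1_u
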