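import Pool.Agent.Helper11.CT.Cfg
import Pool.Agent.Helper11.CT.Cut

set_option autoImplicit false
set_option linter.all false

namespace Helper11.CT.Tm1_2_m1_m1_v

open Helper11.CT

noncomputable def base : List Con :=
  [(false,[0,0,0,0,0,0,2,2,0,1,-2]),
  (true,[0,0,0,0,1,0,0,0,-2]),
  (true,[0,0,0,0,1,0,0,0,2]),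
  (false,[0,0,0,0,0,0,0,0,0,1,0,-2]),
  (false,[0,0,0,0,0,0,0,0,0,0,0,1]),
  (false,[0,1,0,0,0,0,-1,-1,0,-1,1]),
  (false,[0,0,1,0,0,0,-1,0,0,-1,1]),
  (false,[0,1,0,0,0,0,1,1,0,0,-1]),
  (false,[0,1,0,0,0,0,-1,-1,0,0,1]),
  (false,[0,0,1,0,0,0,1,0,0,0,-1]),
  (false,[0,0,1,0,0,0,-1,0,0,0,1]),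
  (true,[0,0,0,0,0,0,0,-1]),
  (false,[0,0,0,0,0,0,0,0,0,1,-1]),
  (false,[0,0,0,0,0,0,0,0,0,0,1]),
  (false,[0,0,0,0,1,0,0,0,0,-2]),
  (false,[0,0,0,0,0,-1,0,0,0,1]),
  (true,[0,0,0,0,0,1]),
  (true,[1,-1,1,-1]),
  (true,[0,1,-1]),
  (true,[0,1,0,1]),
  (true,[0,0,0,-1]),
  (true,[0,0,-2,0,1]),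
  (true,[0,-2,0,0,1]),
  (true,[-1,0,1]),
  (true,[-1,1])]

noncomputable def l0 : List Con := (false, [0,0,0,-1,0,0,-1,-1,0,-1,1]) :: base

noncomputable def r0 : List Con := (false, [0,0,0,1,0,0,1,1,0,1,-1]) :: base

noncomputable def t0 : Tre :=
  (.R ⟨2,true,false,true,[0,1],[1,0,-1],[0,0,1],(⟨0,[]⟩,⟨0,[]⟩),(⟨0,[(13,0)]⟩,⟨0,[(14,0)]⟩),⟨0,[]⟩,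
  .k,.k,.k,.k,.k,.k,⟨false,1,⟨1,[(1,0),(5,0),(3,0),(10,0),(0,0)]⟩,⟨0,[(12,0),(6,0)]⟩⟩,⟨true,0,⟨0,
  [(7,0)]⟩,⟨1,[(1,0),(10,1),(0,0),(0,0)]⟩⟩,⟨true,0,⟨0,[(21,0)]⟩,⟨0,[(20,0)]⟩⟩,⟨false,0,⟨0,[(0,0)]⟩,
  ⟨1,[(1,0),(11,0),(0,0),(5,1),(2,1)]⟩⟩,⟨false,1,⟨3,[(2,0),(0,0),(19,1)]⟩,⟨0,[]⟩⟩,⟨true,0,⟨0,[(6,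
  0)]⟩,⟨1,[(1,0),(11,0),(0,0)]⟩⟩,[]⟩)

theorem ok0 : chk (cU (-1) false 3) t0 l0 = true := by decide +kernel

noncomputable def l1 : List Con := (false, [0,0,0,0,0,-1,0,0,0,1,-1]) :: r0

noncomputable def r1 : List Con := (false, [0,0,0,0,0,1,0,0,0,-1,1]) :: r0

noncomputable def t1 : Tre :=
  (.Q [0,0,0,0,0,0,-1,0,0,0,1] (.p true [0,0,1] [] (⟨0,[(15,0)]⟩,⟨0,[(14,0)]⟩) .k 0 (⟨0,[]⟩,⟨0,[]⟩)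
  .k .k) (.K ⟨0,[1,-1,-1],0,0,(⟨0,[(1,0)]⟩,⟨0,[(16,0),(2,0)]⟩),.k,(.r (-1) ⟨0,[(14,0),(8,1),(0,0)]⟩
  ⟨0,[(2,1),(6,1),(4,0)]⟩),.k,.k,.k,[⟨1,[(3,0),(10,1),(0,0),(0,0)]⟩,⟨0,[(0,0)]⟩,⟨0,[(2,0),(24,0)]⟩,
  ⟨0,[(8,0),(14,0)]⟩]⟩) (.Q [0,0,0,-2,0,0,-1,-1,0,-1,1] (.p true [0,0,1] [1] (⟨0,[(16,0)]⟩,⟨0,[(15,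
  0)]⟩) .k 1 (⟨0,[]⟩,⟨0,[]⟩) .k .k) (.Q [0,0,1,0,0,0,-2,-1,0,-1,2] (.p true [0,0,1] [1,0,-1] (⟨0,
  [(17,0)]⟩,⟨0,[(16,0)]⟩) .k 2 (⟨0,[(16,0)]⟩,⟨0,[(17,0)]⟩) .k (.r (-1) ⟨0,[(4,0),(5,0),(3,0),(10,
  0)]⟩ ⟨0,[(15,1)]⟩)) (.Q [0,0,0,1,0,0,0,0,0,1] (.pp false [-1,1]) (.R ⟨1,false,false,true,[1,0,-1],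
  [0,1],[1,1,1],(⟨0,[(18,0)]⟩,⟨0,[(19,0)]⟩),(⟨0,[(22,0)]⟩,⟨0,[(21,0)]⟩),⟨0,[(4,0)]⟩,.k,.k,.k,.k,(.r
  (-1) ⟨0,[(17,0),(8,1),(0,0)]⟩ ⟨0,[(1,0),(1,0),(1,1),(6,0)]⟩),.k,⟨true,0,⟨0,[(26,0)]⟩,⟨0,[(1,0),(1,
  0),(1,0)]⟩⟩,⟨false,1,⟨1,[(0,0),(5,0),(10,1),(8,0),(0,1)]⟩,⟨0,[(12,0)]⟩⟩,⟨false,0,⟨1,[(6,0),(5,0),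
  (3,0)]⟩,⟨1,[(17,1),(9,0),(0,0)]⟩⟩,⟨false,0,⟨0,[(5,0)]⟩,⟨3,[(2,1),(11,1),(5,0),(7,2)]⟩⟩,⟨false,0,
  ⟨0,[(5,0),(6,0)]⟩,⟨1,[(17,1),(8,1),(0,0),(0,0)]⟩⟩,⟨true,0,⟨0,[(5,0),(19,0)]⟩,⟨0,[(2,0)]⟩⟩,[.o
  ⟨false,0,⟨0,[(25,0)]⟩,⟨15,[(2,7),(3,3),(0,0),(0,0),(11,5),(7,7)]⟩⟩,.a ⟨true,0,⟨0,[(0,0)]⟩,⟨0,[(26,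
  0)]⟩⟩ ⟨false,0,⟨0,[]⟩,⟨3,[(7,0),(0,0),(18,1)]⟩⟩ ⟨true,0,⟨0,[(0,0),(2,0)]⟩,⟨3,[(2,1),(3,0),(5,2),
  (3,0)]⟩⟩,.o ⟨false,1,⟨1,[(16,1),(3,0),(6,0)]⟩,⟨0,[(3,0)]⟩⟩,.o ⟨false,0,⟨0,[(12,0)]⟩,⟨0,[(15,0),
  (11,0)]⟩⟩]⟩) (.I [1,1,-2,-1,0,0,0,-1] (.R ⟨2,true,false,false,[0,1],[0,1,1],[0,1,1],(⟨0,[]⟩,⟨0,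
  []⟩),(⟨0,[(20,0),(2,0)]⟩,⟨0,[(5,0)]⟩),⟨0,[]⟩,.k,.k,.k,.k,.k,.k,⟨false,0,⟨2,[(0,1),(14,0),(0,0),
  (10,0)]⟩,⟨1,[(6,1),(6,1),(14,0),(0,0)]⟩⟩,⟨true,0,⟨0,[(4,0)]⟩,⟨0,[(17,0)]⟩⟩,⟨false,0,⟨0,[(27,0)]⟩,
  ⟨0,[(26,0),(2,0)]⟩⟩,⟨true,0,⟨0,[(1,0),(4,0)]⟩,⟨0,[(15,0)]⟩⟩,⟨true,0,⟨0,[(31,0)]⟩,⟨0,[]⟩⟩,⟨false,1,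
  ⟨1,[(6,1),(14,0),(7,0)]⟩,⟨1,[(0,0),(1,0),(16,0),(0,0),(3,0)]⟩⟩,[]⟩) (.R ⟨1,true,false,false,[1,0,
  -1],[0,1],[1,1,0,0,0,0,0,-1],(⟨0,[(19,0)]⟩,⟨0,[(20,0)]⟩),(⟨0,[(23,0)]⟩,⟨0,[(22,0)]⟩),⟨0,[(5,0)]⟩,
  .k,.k,.k,.k,(.r (-1) ⟨0,[(18,0),(8,1),(0,0)]⟩ ⟨0,[(0,0),(25,0)]⟩),.k,⟨true,0,⟨0,[(18,0),(6,0),(1,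
  0)]⟩,⟨0,[(0,0)]⟩⟩,⟨false,1,⟨1,[(7,0),(10,1),(0,0),(0,0),(7,1)]⟩,⟨0,[(13,0)]⟩⟩,⟨false,0,⟨0,[]⟩,⟨3,
  [(8,0),(0,0),(19,1)]⟩⟩,⟨true,0,⟨0,[(6,0)]⟩,⟨1,[(3,0),(8,0),(18,0)]⟩⟩,⟨true,0,⟨0,[(26,0)]⟩,⟨0,[(27,
  0)]⟩⟩,⟨false,1,⟨0,[(6,0),(19,0),(2,0)]⟩,⟨0,[(3,0)]⟩⟩,[]⟩))) (.Q [0,0,0,-1,0,0,-1,-1,0,0,1] (.p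
  true [0,0,1] [] (⟨0,[(18,0)]⟩,⟨0,[(17,0)]⟩) .k 0 (⟨0,[]⟩,⟨0,[]⟩) .k .k) (.R ⟨2,true,false,false,
  [0,1],[0,1,1],[0,1,1],(⟨0,[]⟩,⟨0,[]⟩),(⟨0,[(19,0),(2,0)]⟩,⟨0,[(4,0)]⟩),⟨0,[]⟩,.k,.k,.k,.k,.k,.k,
  ⟨false,0,⟨1,[(1,0),(0,0),(11,0),(2,0),(6,0)]⟩,⟨1,[(5,1),(6,1),(14,0),(0,0)]⟩⟩,⟨true,0,⟨0,[(3,0)]⟩,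
  ⟨0,[(16,0)]⟩⟩,⟨false,0,⟨0,[(26,0)]⟩,⟨0,[(25,0),(2,0)]⟩⟩,⟨true,0,⟨0,[(1,0),(10,0)]⟩,⟨0,[(14,0)]⟩⟩,
  ⟨true,0,⟨0,[(30,0)]⟩,⟨0,[]⟩⟩,⟨false,1,⟨1,[(5,1),(14,0),(7,0)]⟩,⟨0,[(0,0)]⟩⟩,[]⟩) (.I [0,-1,2,1,0,
  0,0,1] (.R ⟨1,true,false,false,[1,0,-1],[0,1],[1,1,0,0,0,0,0,-1],(⟨0,[(19,0)]⟩,⟨0,[(20,0)]⟩),(⟨0,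
  [(23,0)]⟩,⟨0,[(22,0)]⟩),⟨0,[(5,0)]⟩,.k,.k,.k,.k,(.r (-1) ⟨1,[(2,1),(0,1),(11,1),(12,0),(0,0)]⟩ ⟨0,
  [(0,0),(25,0)]⟩),.k,⟨true,0,⟨1,[(2,0),(0,0),(11,0),(2,0),(6,0)]⟩,⟨0,[(0,0)]⟩⟩,⟨false,1,⟨1,[(2,1),
  (12,1),(12,0),(0,0)]⟩,⟨0,[(13,0)]⟩⟩,⟨false,0,⟨0,[]⟩,⟨3,[(8,0),(0,0),(19,1)]⟩⟩,⟨true,0,⟨0,[(6,0)]⟩,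
  ⟨1,[(3,0),(8,0),(18,0)]⟩⟩,⟨true,0,⟨0,[(26,0)]⟩,⟨0,[(27,0)]⟩⟩,⟨false,1,⟨0,[(6,0),(19,0),(2,0)]⟩,⟨0,
  [(3,0)]⟩⟩,[]⟩) (.Q [0,-1,0,0,0,0,2,2,0,1,-2] (.p false [0,0,1] [1,0,-1] (⟨0,[(20,0)]⟩,⟨0,[(19,
  0)]⟩) .k 2 (⟨0,[(19,0)]⟩,⟨0,[(20,0)]⟩) .k (.r (-1) ⟨0,[(7,0),(5,0),(3,0),(10,0)]⟩ ⟨0,[(18,1)]⟩))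
  (.R ⟨1,true,false,false,[1,0,-1],[0,0,1],[1,0,0,0,0,0,0,-1],(⟨0,[(20,0)]⟩,⟨0,[(21,0)]⟩),(⟨0,[(21,
  0)]⟩,⟨0,[(20,0)]⟩),⟨0,[(6,0)]⟩,.k,.k,.k,.k,(.x (-1) ⟨1,[(6,1),(7,1),(3,1),(1,1),(1,0),(6,0)]⟩ ⟨1,
  [(0,0),(0,0),(0,2),(1,0),(14,2),(1,3),(2,1)]⟩),.k,⟨true,0,⟨0,[(19,1)]⟩,⟨0,[(0,0),(13,0),(3,0),(7,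
  0)]⟩⟩,⟨false,0,⟨0,[(3,0),(15,0)]⟩,⟨0,[(14,0),(3,0),(10,0)]⟩⟩,⟨true,0,⟨0,[]⟩,⟨0,[(32,0)]⟩⟩,⟨false,
  0,⟨0,[(0,0)]⟩,⟨0,[(13,0),(2,0),(13,0)]⟩⟩,⟨false,1,⟨0,[(27,0),(2,0)]⟩,⟨0,[(28,0)]⟩⟩,⟨true,0,⟨1,[(2,
  0),(4,0),(0,0)]⟩,⟨0,[(1,0),(12,0),(3,0),(0,0)]⟩⟩,[]⟩) (.I [0,-1,0,0,1,0,0,1,1] (.Q [0,1,0,-1,-1,0,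
  0,0,1,0,0,-1] (.p false [0,0,0,1] [] (⟨0,[(13,0)]⟩,⟨1,[(12,0),(8,0),(0,0)]⟩) .k 0 (⟨0,[]⟩,⟨0,[]⟩)
  .k .k) (.R ⟨2,true,false,true,[0,1],[0,0,0,1],[1,1,1,1],(⟨0,[]⟩,⟨0,[]⟩),(⟨0,[(14,0)]⟩,⟨1,[(13,0),
  (8,0),(0,0)]⟩),⟨0,[]⟩,.k,.k,.k,(.r (-1) ⟨1,[(11,0),(7,0),(0,0),(8,1),(2,0)]⟩ ⟨1,[(0,1),(13,1),(16,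
  0),(0,0)]⟩),.k,.k,⟨false,1,⟨1,[(11,0),(17,1),(2,0)]⟩,⟨1,[(0,1),(13,1),(16,0),(0,0)]⟩⟩,⟨true,0,⟨1,
  [(13,0),(2,0),(2,0)]⟩,⟨0,[(14,0)]⟩⟩,⟨false,0,⟨0,[]⟩,⟨3,[(11,0),(0,0),(19,1)]⟩⟩,⟨true,(-1),⟨0,[(0,
  0)]⟩,⟨1,[(11,0),(2,1),(14,1),(2,0)]⟩⟩,⟨true,0,⟨0,[(29,0)]⟩,⟨0,[(30,0)]⟩⟩,⟨false,0,⟨5,[(0,3),(1,1),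
  (1,2),(4,0),(2,0),(0,0),(18,2)]⟩,⟨1,[(11,0),(2,1),(17,0)]⟩⟩,[]⟩) (.I [1,-1,1,0,0,0,0,0,-1] (.I [1,
  0,0,1,0,0,0,0,-1] (.Q [0,0,0,0,0,1,0,0,0,0,0,-1] (.p false [0,0,0,1] [] (⟨0,[(16,0)]⟩,⟨1,[(15,0),
  (8,0),(0,0)]⟩) .k 0 (⟨0,[]⟩,⟨0,[]⟩) .k .k) (.Q [0,1,0,-1,0,0,0,0,1,0,0,-1] (.p false [0,0,0,1] []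
  (⟨0,[(17,0)]⟩,⟨1,[(16,0),(8,0),(0,0)]⟩) .k 0 (⟨0,[]⟩,⟨0,[]⟩) .k .k) (.R ⟨0,false,false,false,[0,0,
  0,1],[0,1],[1,0,1],(⟨0,[(18,0)]⟩,⟨1,[(17,0),(8,0),(0,0)]⟩),(⟨0,[(30,0)]⟩,⟨0,[(29,0)]⟩),⟨0,[(1,
  0)]⟩,.k,.k,(.r (-1) ⟨1,[(16,0),(17,1),(0,0)]⟩ ⟨0,[(3,0),(29,0)]⟩),(.r (-1) ⟨1,[(16,0),(17,1),(0,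
  0)]⟩ ⟨0,[(3,0),(29,0)]⟩),.k,.k,⟨true,0,⟨0,[(34,0)]⟩,⟨0,[(8,0),(15,0),(0,0)]⟩⟩,⟨false,1,⟨0,[(18,0),
  (16,0)]⟩,⟨1,[(17,0),(2,0),(2,0)]⟩⟩,⟨false,0,⟨0,[(3,0)]⟩,⟨1,[(16,0),(18,0)]⟩⟩,⟨true,0,⟨0,[(2,0),
  (15,0)]⟩,⟨0,[(0,0)]⟩⟩,⟨false,0,⟨0,[]⟩,⟨0,[]⟩⟩,⟨false,0,⟨0,[]⟩,⟨0,[]⟩⟩,[.o ⟨false,1,⟨15,[(4,7),(10,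
  0),(0,4),(0,3),(10,1),(4,7)]⟩,⟨0,[(8,0),(1,0)]⟩⟩,.o ⟨false,1,⟨0,[(33,0),(2,0)]⟩,⟨2,[(8,0),(1,1),
  (8,0),(1,1)]⟩⟩,.a ⟨true,0,⟨1,[(17,0),(8,0),(0,0)]⟩,⟨0,[(18,0)]⟩⟩ ⟨true,0,⟨1,[(23,0),(0,0)]⟩,⟨0,
  [(32,0)]⟩⟩ ⟨false,1,⟨5,[(4,1),(1,1),(1,1),(4,1),(2,0),(1,3),(17,2)]⟩,⟨5,[(8,1),(1,3),(3,0),(2,
  2)]⟩⟩,.o ⟨false,0,⟨1,[(17,0),(2,0),(2,0)]⟩,⟨1,[(18,1),(9,0),(6,0)]⟩⟩]⟩) (.R ⟨0,false,false,false,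
  [0,0,0,1],[0,0,1],[0,0,0,-1,0,0,0,0,1],(⟨0,[(18,0)]⟩,⟨1,[(17,0),(8,0),(0,0)]⟩),(⟨0,[(27,0)]⟩,⟨0,
  [(26,0)]⟩),⟨0,[(1,0)]⟩,.k,.k,(.r (-1) ⟨1,[(16,0),(17,1),(0,0)]⟩ ⟨0,[(3,0),(29,0)]⟩),.k,.k,.k,
  ⟨false,1,⟨5,[(7,3),(7,0),(0,3),(8,1),(5,1),(4,0)]⟩,⟨1,[(0,1),(13,0),(2,0),(2,1),(11,1)]⟩⟩,⟨true,0,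
  ⟨0,[(11,0),(6,0)]⟩,⟨1,[(17,0),(2,0),(3,0)]⟩⟩,⟨true,0,⟨0,[(34,0)]⟩,⟨0,[(33,0)]⟩⟩,⟨false,0,⟨2,[(0,
  2),(7,0),(1,1),(3,1)]⟩,⟨7,[(6,3),(8,0),(0,4),(0,3),(18,1)]⟩⟩,⟨false,0,⟨0,[]⟩,⟨0,[]⟩⟩,⟨false,0,⟨0,
  []⟩,⟨0,[]⟩⟩,[.o ⟨false,0,⟨2,[(8,1),(1,0),(3,0)]⟩,⟨3,[(6,1),(8,0),(0,0),(11,0),(7,0)]⟩⟩,.o ⟨false,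
  1,⟨7,[(14,3),(0,0),(0,0),(11,1),(7,3)]⟩,⟨0,[(19,0)]⟩⟩,.a ⟨true,0,⟨1,[(17,0),(8,0),(0,0)]⟩,⟨0,[(18,
  0)]⟩⟩ ⟨false,1,⟨1,[(16,0),(17,1),(1,0)]⟩,⟨0,[(2,0)]⟩⟩ ⟨true,0,⟨2,[(8,1),(1,0),(3,0),(3,2)]⟩,⟨1,
  [(6,0),(10,0),(20,0)]⟩⟩,.o ⟨false,0,⟨1,[(17,0),(2,0),(2,0)]⟩,⟨1,[(18,1),(9,0),(6,0)]⟩⟩]⟩)) (.Q [0,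
  0,0,0,0,0,-1,-1,-1,-1,1,1] (.p true [0,0,1] [1,0,0,-1] (⟨0,[(26,0)]⟩,⟨0,[(25,0)]⟩) .k 2 (⟨1,[(16,
  0),(8,0),(0,0)]⟩,⟨0,[(17,0)]⟩) .k (.r (-1) ⟨0,[(4,0),(32,0)]⟩ ⟨4,[(1,1),(0,2),(3,1),(14,0),(0,0),
  (1,1)]⟩)) (.R ⟨1,false,false,true,[0,0,0,1],[1,-1,-1],[0,0,0,-1,0,0,0,0,1],(⟨0,[(18,0)]⟩,⟨1,[(17,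
  0),(8,0),(0,0)]⟩),(⟨0,[(12,0)]⟩,⟨0,[(27,0),(2,0)]⟩),⟨0,[(1,0)]⟩,.k,.k,(.r (-1) ⟨1,[(16,0),(17,1),
  (0,0)]⟩ ⟨0,[(3,0),(29,0)]⟩),(.r (-1) ⟨1,[(13,1),(2,0),(7,1),(3,0)]⟩ ⟨0,[(0,0),(0,0),(5,0),(0,0),
  (8,0),(12,0),(0,0)]⟩),.k,.k,⟨false,1,⟨0,[(5,0)]⟩,⟨3,[(2,2),(0,0),(3,2),(14,0),(0,0),(14,0)]⟩⟩,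
  ⟨true,0,⟨0,[(18,0),(1,0)]⟩,⟨5,[(9,1),(7,2),(5,1),(1,1),(0,0),(0,0)]⟩⟩,⟨true,0,⟨0,[(34,0)]⟩,⟨0,
  [(33,0)]⟩⟩,⟨false,0,⟨0,[(0,0),(33,0)]⟩,⟨1,[(8,0),(4,0),(2,0),(0,0),(18,0)]⟩⟩,⟨false,1,⟨3,[(15,0),
  (0,0),(19,1)]⟩,⟨0,[]⟩⟩,⟨false,0,⟨0,[(0,0)]⟩,⟨1,[(14,0),(1,0),(0,0),(18,0)]⟩⟩,[.o ⟨false,0,⟨1,[(6,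
  0),(3,0),(10,0)]⟩,⟨1,[(13,1),(14,0),(7,0)]⟩⟩,.o ⟨false,1,⟨7,[(6,1),(3,3),(4,2),(0,2),(11,0),(7,
  0)]⟩,⟨0,[(8,0)]⟩⟩,.a ⟨true,0,⟨1,[(17,0),(8,0),(0,0)]⟩,⟨0,[(18,0)]⟩⟩ ⟨false,1,⟨1,[(16,0),(17,1),(1,
  0)]⟩,⟨0,[(2,0)]⟩⟩ ⟨true,0,⟨1,[(6,0),(3,0),(7,1),(2,0)]⟩,⟨1,[(8,0),(4,0),(3,0)]⟩⟩,.o ⟨false,0,⟨1,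
  [(17,0),(2,0),(2,0)]⟩,⟨1,[(18,1),(9,0),(6,0)]⟩⟩]⟩) (.R ⟨1,true,false,false,[1,0,-1],[0,0,0,1],[1,
  1,0,0,0,0,0,-1],(⟨0,[(26,0)]⟩,⟨0,[(27,0)]⟩),(⟨0,[(18,0)]⟩,⟨1,[(17,0),(8,0),(0,0)]⟩),⟨0,[(12,0)]⟩,
  .k,.k,.k,.k,(.x 0 ⟨0,[(12,0),(7,0)]⟩ ⟨0,[(23,0),(3,0),(2,0),(4,0)]⟩),.k,⟨false,0,⟨3,[(2,2),(0,0),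
  (3,2),(14,0),(0,0),(14,0)]⟩,⟨0,[(5,0)]⟩⟩,⟨true,0,⟨5,[(9,1),(7,2),(5,1),(1,1),(0,0),(0,0)]⟩,⟨0,
  [(18,0),(1,0)]⟩⟩,⟨false,0,⟨0,[]⟩,⟨3,[(15,0),(0,0),(19,1)]⟩⟩,⟨true,0,⟨0,[(0,0)]⟩,⟨1,[(2,1),(3,0),
  (3,0),(7,1),(2,0)]⟩⟩,⟨true,0,⟨0,[(33,0)]⟩,⟨0,[(34,0)]⟩⟩,⟨false,1,⟨1,[(8,0),(4,0),(2,0),(0,0),(18,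
  0)]⟩,⟨0,[(2,0),(7,0),(7,0)]⟩⟩,[]⟩))) (.R ⟨1,true,false,false,[1,0,-1],[0,0,0,1],[1,1,0,0,0,0,0,
  -1],(⟨0,[(24,0)]⟩,⟨0,[(25,0)]⟩),(⟨0,[(16,0)]⟩,⟨1,[(15,0),(8,0),(0,0)]⟩),⟨0,[(10,0)]⟩,.k,.k,.k,.k,
  (.x 0 ⟨0,[(10,0),(7,0)]⟩ ⟨0,[(21,0),(3,0),(2,0),(4,0)]⟩),.k,⟨false,0,⟨0,[(1,0),(3,0),(25,0)]⟩,⟨0,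
  [(3,0)]⟩⟩,⟨true,0,⟨5,[(7,1),(7,2),(5,1),(1,1),(0,0),(0,0)]⟩,⟨0,[(16,0),(1,0)]⟩⟩,⟨false,0,⟨0,[]⟩,
  ⟨3,[(13,0),(0,0),(19,1)]⟩⟩,⟨true,0,⟨1,[(0,1),(5,0),(4,0),(3,0)]⟩,⟨0,[(1,0),(14,0),(0,0),(12,0)]⟩⟩,
  ⟨true,0,⟨0,[(31,0)]⟩,⟨0,[(32,0)]⟩⟩,⟨false,1,⟨1,[(6,0),(4,0),(2,0),(0,0),(18,0)]⟩,⟨0,[(1,0),(3,0),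
  (10,0),(1,0)]⟩⟩,[]⟩)) (.Q [0,-1,0,0,1,0,-1,-1,-1,-1,1,1] (.p true [0,0,1] [1,0,0,-1] (⟨0,[(24,
  0)]⟩,⟨0,[(23,0)]⟩) .k 2 (⟨1,[(14,0),(8,0),(0,0)]⟩,⟨0,[(15,0)]⟩) .k (.x 0 ⟨0,[(8,0),(15,0)]⟩ ⟨1,
  [(21,1),(1,1),(1,0),(6,0)]⟩)) (.Q [0,1,0,0,0,0,-1,-1,-1,-1,1,1] (.p true [0,0,1] [1,0,0,-1] (⟨0,
  [(25,0)]⟩,⟨0,[(24,0)]⟩) .k 2 (⟨1,[(15,0),(8,0),(0,0)]⟩,⟨0,[(16,0)]⟩) .k (.x 0 ⟨0,[(9,0),(15,0)]⟩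
  ⟨1,[(22,1),(1,1),(1,0),(6,0)]⟩)) (.Q [0,0,0,0,0,1,0,0,0,0,0,-1] (.p false [0,0,0,1] [] (⟨0,[(17,
  0)]⟩,⟨1,[(16,0),(8,0),(0,0)]⟩) .k 0 (⟨0,[]⟩,⟨0,[]⟩) .k .k) (.R ⟨0,false,false,false,[0,0,0,1],[1,
  0,-1],[1,0,1],(⟨0,[(18,0)]⟩,⟨1,[(17,0),(8,0),(0,0)]⟩),(⟨0,[(26,0)]⟩,⟨0,[(27,0)]⟩),⟨0,[(0,0)]⟩,.k,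
  .k,(.x 0 ⟨0,[(11,0),(8,0),(8,0)]⟩ ⟨3,[(15,0),(0,0),(13,3),(4,1)]⟩),.k,.k,.k,⟨true,0,⟨1,[(14,0),(5,
  0),(3,0)]⟩,⟨0,[(25,0)]⟩⟩,⟨false,1,⟨0,[(18,0),(1,0),(14,0)]⟩,⟨5,[(9,1),(7,2),(5,1),(1,1),(0,0),(0,
  0)]⟩⟩,⟨true,0,⟨1,[(1,1),(6,0),(4,0),(3,0),(13,1)]⟩,⟨0,[(3,0)]⟩⟩,⟨false,1,⟨0,[(2,0)]⟩,⟨1,[(3,1),(4,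
  0),(4,0),(3,0),(13,1)]⟩⟩,⟨false,0,⟨0,[]⟩,⟨0,[]⟩⟩,⟨false,0,⟨0,[]⟩,⟨0,[]⟩⟩,[.o ⟨false,1,⟨3,[(6,1),
  (8,0),(0,0),(11,0),(7,0)]⟩,⟨2,[(8,1),(1,0),(3,0)]⟩⟩,.o ⟨false,1,⟨3,[(6,1),(21,0),(7,2)]⟩,⟨0,[(21,
  0)]⟩⟩,.a ⟨true,0,⟨1,[(17,0),(8,0),(0,0)]⟩,⟨0,[(18,0)]⟩⟩ ⟨true,0,⟨1,[(23,0),(0,0)]⟩,⟨0,[(32,0)]⟩⟩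
  ⟨false,1,⟨3,[(6,1),(11,3),(9,0),(7,2)]⟩,⟨1,[(14,0),(2,0)]⟩⟩,.o ⟨false,0,⟨1,[(17,0),(2,0),(2,0)]⟩,
  ⟨1,[(18,1),(9,0),(6,0)]⟩⟩]⟩) (.Q [0,0,0,0,0,0,0,0,1,0,0,-1] (.p false [0,0,0,1] [] (⟨0,[(18,0)]⟩,
  ⟨1,[(17,0),(8,0),(0,0)]⟩) .k 0 (⟨0,[]⟩,⟨0,[]⟩) .k .k) (.I [0,0,0,0,0,0,0,1,1] (.R ⟨1,false,false,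
  false,[1,0,0,-1],[0,0,1],[1,0,0,0,0,0,0,0,-1],(⟨1,[(19,0),(8,0),(0,0)]⟩,⟨0,[(20,0)]⟩),(⟨0,[(29,
  0)]⟩,⟨0,[(28,0)]⟩),⟨0,[(2,0),(16,0)]⟩,.k,.k,(.r (-1) ⟨1,[(17,0),(18,1),(0,0)]⟩ ⟨0,[(1,0),(8,0),(9,
  0),(5,0),(0,0)]⟩),.k,(.r (-1) ⟨5,[(9,3),(7,3),(0,0),(8,1),(5,1),(4,0)]⟩ ⟨0,[(1,0),(8,0),(9,0),(5,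
  0)]⟩),.k,⟨false,1,⟨1,[(17,0),(9,1),(9,0)]⟩,⟨0,[(0,0)]⟩⟩,⟨true,0,⟨5,[(11,1),(7,2),(5,1),(1,1),(0,
  0),(0,0)]⟩,⟨0,[(20,0),(1,0)]⟩⟩,⟨true,0,⟨0,[]⟩,⟨0,[(40,0)]⟩⟩,⟨true,0,⟨3,[(1,1),(3,1),(9,1),(0,0),
  (2,0),(13,1)]⟩,⟨0,[(3,0)]⟩⟩,⟨false,1,⟨0,[(35,0),(2,0)]⟩,⟨0,[(36,0)]⟩⟩,⟨true,0,⟨0,[(1,0),(13,0)]⟩,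
  ⟨0,[(3,0),(32,0)]⟩⟩,[.o ⟨false,0,⟨2,[(10,1),(1,0),(3,0)]⟩,⟨3,[(8,1),(8,0),(0,0),(11,0),(7,0)]⟩⟩,
  .o ⟨false,1,⟨7,[(16,3),(0,0),(0,0),(11,1),(7,3)]⟩,⟨0,[(21,0)]⟩⟩,.a ⟨true,0,⟨0,[(20,0)]⟩,⟨1,[(19,
  0),(8,0),(0,0)]⟩⟩ ⟨false,1,⟨1,[(17,0),(20,0)]⟩,⟨0,[(1,0),(18,0)]⟩⟩ ⟨true,0,⟨1,[(16,0),(2,0)]⟩,⟨0,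
  [(20,0),(0,0)]⟩⟩,.o ⟨false,0,⟨0,[(13,0),(6,0),(1,0)]⟩,⟨7,[(17,0),(0,0),(0,3),(10,1),(6,3)]⟩⟩]⟩)
  (.I [0,0,0,-1,0,0,0,0,-1] (.R ⟨1,false,false,false,[1,0,0,-1],[1,-1],[0,1,0,-1,0,0,0,0,-1],(⟨1,
  [(20,0),(8,0),(0,0)]⟩,⟨0,[(21,0)]⟩),(⟨0,[(32,0)]⟩,⟨0,[(33,0)]⟩),⟨0,[(3,0),(16,0)]⟩,.k,.k,(.r (-1)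
  ⟨1,[(18,0),(18,1),(0,0)]⟩ ⟨0,[(2,0),(8,0),(9,0),(5,0),(0,0)]⟩),(.r 0 ⟨0,[(1,0),(9,0),(15,0)]⟩ ⟨1,
  [(19,0),(17,1),(0,0)]⟩),.k,.k,⟨false,0,⟨2,[(0,0),(3,1),(11,0),(3,0),(3,0)]⟩,⟨0,[(6,0),(32,0)]⟩⟩,
  ⟨true,0,⟨1,[(20,0),(2,0),(2,0)]⟩,⟨0,[(21,0)]⟩⟩,⟨false,0,⟨0,[(37,0)]⟩,⟨0,[(36,0),(2,0)]⟩⟩,⟨true,0,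
  ⟨5,[(2,3),(3,1),(6,1),(3,0),(2,0),(13,1)]⟩,⟨0,[(4,0),(11,0)]⟩⟩,⟨true,0,⟨0,[(41,0)]⟩,⟨0,[]⟩⟩,⟨true,
  0,⟨0,[(2,0)]⟩,⟨2,[(0,0),(3,1),(11,0),(0,0),(3,0),(3,0)]⟩⟩,[.o ⟨false,0,⟨0,[(11,0),(1,0)]⟩,⟨15,[(7,
  7),(10,0),(0,4),(0,3),(10,1),(4,7)]⟩⟩,.o ⟨false,1,⟨15,[(13,7),(3,3),(0,0),(0,0),(11,5),(7,7)]⟩,⟨0,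
  [(36,0)]⟩⟩,.a ⟨true,0,⟨0,[(21,0)]⟩,⟨1,[(20,0),(8,0),(0,0)]⟩⟩ ⟨false,0,⟨0,[(0,0)]⟩,⟨3,[(2,1),(6,1),
  (1,1),(4,1),(2,0),(1,1),(17,2)]⟩⟩ ⟨true,0,⟨5,[(11,1),(1,3),(3,0),(2,2)]⟩,⟨0,[(21,0),(14,0)]⟩⟩,.o
  ⟨false,0,⟨0,[(14,0),(6,0),(1,0)]⟩,⟨7,[(18,0),(0,0),(0,3),(10,1),(6,3)]⟩⟩]⟩) (.Q [0,0,0,-2,0,0,0,0,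
  -1,-1,0,1] (.p true [0,0,0,1] [1] (⟨0,[(21,0)]⟩,⟨1,[(20,0),(8,0),(0,0)]⟩) .k 1 (⟨0,[]⟩,⟨0,[]⟩) .k
  .k) (.R ⟨1,true,false,false,[1,0,0,-1],[0,1],[0,1,0,-1,0,0,0,0,-1],(⟨1,[(21,0),(8,0),(0,0)]⟩,⟨0,
  [(22,0)]⟩),(⟨0,[(34,0)]⟩,⟨0,[(33,0)]⟩),⟨0,[(4,0),(16,0)]⟩,.k,.k,(.r (-1) ⟨1,[(19,0),(18,1),(0,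
  0)]⟩ ⟨1,[(1,1),(25,0),(0,0)]⟩),(.r (-1) ⟨1,[(19,0),(18,1),(0,0)]⟩ ⟨1,[(1,1),(25,0),(0,0)]⟩),(.r
  (-1) ⟨1,[(0,1),(20,0),(8,0),(0,0),(7,1)]⟩ ⟨3,[(1,5),(0,1),(9,1),(14,2),(0,4)]⟩),.k,⟨true,0,⟨1,[(0,
  1),(10,0),(5,0),(3,0),(6,0),(7,0)]⟩,⟨0,[(1,1),(0,0),(9,0),(15,0),(6,0)]⟩⟩,⟨false,1,⟨1,[(21,0),(8,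
  0),(0,0),(7,1)]⟩,⟨2,[(0,0),(0,1),(3,0),(6,0),(9,0),(1,0),(2,0),(7,0)]⟩⟩,⟨false,0,⟨0,[(38,0)]⟩,⟨13,
  [(1,5),(6,7),(11,0),(0,3),(10,1),(7,2)]⟩⟩,⟨true,0,⟨1,[(1,1),(19,0),(8,0),(0,0)]⟩,⟨1,[(0,0),(4,0),
  (19,0)]⟩⟩,⟨true,0,⟨0,[(42,0)]⟩,⟨0,[]⟩⟩,⟨false,1,⟨7,[(1,9),(6,3),(8,1),(2,0),(0,5),(4,1),(13,2)]⟩,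
  ⟨0,[(0,0)]⟩⟩,[]⟩) (.K ⟨2,[0,0,0,1],0,0,(⟨0,[(22,0)]⟩,⟨1,[(21,0),(8,0),(0,0)]⟩),.k,(.r (-1) ⟨1,
  [(20,0),(17,1),(0,0)]⟩ ⟨0,[(2,0),(9,0),(15,0)]⟩),(.r 0 ⟨1,[(1,1),(25,0),(0,0)]⟩ ⟨1,[(19,0),(18,1),
  (0,0)]⟩),.k,.k,[⟨0,[(0,0),(13,0)]⟩,⟨1,[(5,1),(12,0),(11,0),(0,0)]⟩,⟨1,[(22,1),(4,0),(0,0)]⟩,⟨1,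
  [(21,0),(2,0),(2,0)]⟩]⟩)))) (.R ⟨1,false,false,false,[0,0,0,1],[0,0,1],[0,1,0,-1,0,0,0,0,1],(⟨0,
  [(19,0)]⟩,⟨1,[(18,0),(8,0),(0,0)]⟩),(⟨0,[(28,0)]⟩,⟨0,[(27,0)]⟩),⟨0,[(1,0)]⟩,.k,.k,(.r (-1) ⟨1,
  [(17,0),(17,1),(0,0)]⟩ ⟨1,[(0,1),(8,1),(8,0),(2,0),(3,0),(0,1)]⟩),.k,(.r (-1) ⟨5,[(8,3),(7,0),(0,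
  3),(8,1),(5,1),(4,0)]⟩ ⟨1,[(0,1),(8,1),(8,0),(2,0),(3,0)]⟩),.k,⟨false,0,⟨4,[(4,4),(3,1),(14,0),(0,
  0),(1,1),(5,2)]⟩,⟨1,[(0,1),(8,1),(8,0),(2,0),(3,0),(10,0),(0,0)]⟩⟩,⟨true,0,⟨0,[(12,0),(6,0)]⟩,⟨1,
  [(18,0),(2,0),(3,0)]⟩⟩,⟨false,0,⟨0,[(35,0)]⟩,⟨0,[(34,0),(2,0)]⟩⟩,⟨true,0,⟨2,[(0,2),(8,1),(1,0),(3,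
  0)]⟩,⟨1,[(4,1),(13,0),(2,0),(3,0),(0,1)]⟩⟩,⟨true,0,⟨0,[(39,0)]⟩,⟨0,[]⟩⟩,⟨true,0,⟨0,[(0,0),(8,0)]⟩,
  ⟨3,[(4,3),(2,0),(3,0),(6,1),(4,0),(0,0),(0,0),(6,1)]⟩⟩,[.o ⟨false,0,⟨2,[(9,1),(1,0),(3,0)]⟩,⟨3,
  [(7,1),(8,0),(0,0),(11,0),(7,0)]⟩⟩,.o ⟨false,1,⟨7,[(15,3),(0,0),(0,0),(11,1),(7,3)]⟩,⟨0,[(20,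
  0)]⟩⟩,.a ⟨true,0,⟨1,[(18,0),(8,0),(0,0)]⟩,⟨0,[(19,0)]⟩⟩ ⟨false,0,⟨0,[(4,0),(27,0)]⟩,⟨1,[(3,0),(1,
  0),(3,0),(8,0)]⟩⟩ ⟨true,0,⟨2,[(9,1),(1,0),(3,0),(3,2)]⟩,⟨1,[(7,0),(10,0),(20,0)]⟩⟩,.o ⟨false,0,⟨1,
  [(18,0),(2,0),(2,0)]⟩,⟨1,[(19,1),(9,0),(6,0)]⟩⟩]⟩))) (.Q [0,1,0,0,0,0,0,0,-1,0,0,1] (.p true [0,0,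
  0,1] [] (⟨0,[(17,0)]⟩,⟨1,[(16,0),(8,0),(0,0)]⟩) .k 0 (⟨0,[]⟩,⟨0,[]⟩) .k .k) (.K ⟨2,[0,0,0,1],0,0,
  (⟨0,[(18,0)]⟩,⟨1,[(17,0),(8,0),(0,0)]⟩),.k,(.r 0 ⟨0,[(1,0),(5,0),(10,0),(1,0)]⟩ ⟨15,[(4,7),(10,4),
  (0,0),(0,3),(5,7),(0,7),(3,1),(4,7)]⟩),(.r 0 ⟨1,[(1,1),(4,1),(1,1),(9,1),(4,0),(0,0)]⟩ ⟨1,[(15,0),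
  (18,1),(0,0)]⟩),.k,.k,[⟨0,[(1,0),(4,0)]⟩,⟨0,[(0,0)]⟩,⟨1,[(18,1),(4,0),(0,0)]⟩,⟨1,[(17,0),(2,0),(2,
  0)]⟩]⟩) (.Q [0,0,0,0,0,1,0,0,0,0,0,-1] (.p false [0,0,0,1] [] (⟨0,[(18,0)]⟩,⟨1,[(17,0),(8,0),(0,
  0)]⟩) .k 0 (⟨0,[]⟩,⟨0,[]⟩) .k .k) (.R ⟨0,false,false,false,[0,0,0,1],[1,-1],[1,0,0,0,0,0,0,0,1],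
  (⟨0,[(19,0)]⟩,⟨1,[(18,0),(8,0),(0,0)]⟩),(⟨0,[(30,0)]⟩,⟨0,[(31,0)]⟩),⟨0,[(0,0)]⟩,.k,.k,(.r 0 ⟨1,
  [(1,0),(0,0),(8,0),(7,1),(13,1)]⟩ ⟨15,[(5,7),(10,4),(0,0),(0,3),(5,7),(0,7),(3,1),(4,7)]⟩),(.r 0
  ⟨1,[(1,1),(17,1),(4,0),(0,0),(8,1)]⟩ ⟨1,[(16,0),(18,1),(0,0)]⟩),.k,.k,⟨false,0,⟨0,[(1,0),(17,0),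
  (14,0)]⟩,⟨1,[(16,0),(18,1),(0,0)]⟩⟩,⟨true,0,⟨0,[(12,0),(6,0),(1,0)]⟩,⟨1,[(18,0),(8,0),(0,0)]⟩⟩,
  ⟨true,0,⟨0,[]⟩,⟨0,[(39,0)]⟩⟩,⟨false,1,⟨2,[(3,2),(5,0),(1,1),(3,1)]⟩,⟨0,[(2,0),(4,0),(6,0)]⟩⟩,
  ⟨false,0,⟨0,[]⟩,⟨0,[]⟩⟩,⟨false,0,⟨0,[]⟩,⟨0,[]⟩⟩,[.o ⟨false,0,⟨0,[(9,0),(1,0)]⟩,⟨15,[(5,7),(10,0),
  (0,4),(0,3),(10,1),(4,7)]⟩⟩,.o ⟨false,1,⟨15,[(11,7),(3,3),(0,0),(0,0),(11,5),(7,7)]⟩,⟨0,[(34,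
  0)]⟩⟩,.a ⟨true,0,⟨1,[(18,0),(8,0),(0,0)]⟩,⟨0,[(19,0)]⟩⟩ ⟨false,0,⟨0,[(1,0),(17,0)]⟩,⟨3,[(16,2),(0,
  0)]⟩⟩ ⟨true,0,⟨0,[(9,0),(1,0),(7,0)]⟩,⟨1,[(14,0),(3,0),(4,0),(10,0)]⟩⟩,.o ⟨false,0,⟨1,[(18,0),(2,
  0),(2,0)]⟩,⟨1,[(19,1),(9,0),(6,0)]⟩⟩]⟩) (.R ⟨1,false,false,false,[0,0,0,1],[1,-1],[1,0,0,0,0,0,0,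
  0,1],(⟨0,[(19,0)]⟩,⟨1,[(18,0),(8,0),(0,0)]⟩),(⟨0,[(30,0)]⟩,⟨0,[(31,0)]⟩),⟨0,[(0,0)]⟩,.k,.k,(.r 0
  ⟨1,[(1,0),(0,0),(8,0),(7,1),(13,1)]⟩ ⟨15,[(5,7),(10,4),(0,0),(0,3),(5,7),(0,7),(3,1),(4,7)]⟩),(.r
  0 ⟨1,[(1,1),(17,1),(4,0),(0,0),(8,1)]⟩ ⟨1,[(16,0),(18,1),(0,0)]⟩),.k,.k,⟨false,0,⟨0,[(1,0),(17,0),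
  (14,0)]⟩,⟨1,[(16,0),(18,1),(0,0)]⟩⟩,⟨true,0,⟨0,[(12,0),(6,0),(1,0)]⟩,⟨1,[(18,0),(8,0),(0,0)]⟩⟩,
  ⟨true,0,⟨0,[]⟩,⟨0,[(39,0)]⟩⟩,⟨false,1,⟨2,[(3,2),(5,0),(1,1),(3,1)]⟩,⟨0,[(2,0),(4,0),(6,0)]⟩⟩,
  ⟨false,1,⟨12,[(1,5),(3,9),(11,1),(0,1),(10,0),(4,2)]⟩,⟨0,[(35,0)]⟩⟩,⟨false,1,⟨2,[(3,2),(5,1),(1,
  0),(3,0)]⟩,⟨0,[(2,0),(20,0)]⟩⟩,[.o ⟨false,0,⟨0,[(9,0),(1,0)]⟩,⟨15,[(5,7),(10,0),(0,4),(0,3),(10,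
  1),(4,7)]⟩⟩,.o ⟨false,1,⟨15,[(11,7),(3,3),(0,0),(0,0),(11,5),(7,7)]⟩,⟨0,[(34,0)]⟩⟩,.a ⟨true,0,⟨1,
  [(18,0),(8,0),(0,0)]⟩,⟨0,[(19,0)]⟩⟩ ⟨false,0,⟨0,[(1,0),(17,0)]⟩,⟨3,[(16,2),(0,0)]⟩⟩ ⟨true,0,⟨0,
  [(9,0),(1,0),(7,0)]⟩,⟨1,[(14,0),(3,0),(4,0),(10,0)]⟩⟩,.o ⟨false,0,⟨1,[(18,0),(2,0),(2,0)]⟩,⟨1,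
  [(19,1),(9,0),(6,0)]⟩⟩]⟩)))) (.R ⟨1,true,false,true,[1,0,-1],[0,0,0,1],[1,1,0,0,0,0,0,-1],(⟨0,
  [(24,0)]⟩,⟨0,[(25,0)]⟩),(⟨0,[(16,0)]⟩,⟨1,[(15,0),(8,0),(0,0)]⟩),⟨0,[(10,0)]⟩,.k,.k,.k,.k,(.r (-1)
  ⟨5,[(5,3),(7,3),(0,0),(8,1),(5,1),(4,0)]⟩ ⟨5,[(0,3),(3,1),(1,5),(7,0),(1,3),(1,1),(3,3),(11,2)]⟩),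
  .k,⟨false,1,⟨1,[(13,0),(9,1),(9,0)]⟩,⟨1,[(0,1),(15,1),(1,1),(14,0),(0,0)]⟩⟩,⟨true,0,⟨5,[(7,1),(7,
  2),(5,1),(1,1),(0,0),(0,0)]⟩,⟨0,[(16,0),(1,0)]⟩⟩,⟨false,0,⟨0,[]⟩,⟨3,[(13,0),(0,0),(19,1)]⟩⟩,⟨true,
  (-1),⟨0,[(0,0)]⟩,⟨19,[(2,7),(1,7),(3,3),(4,6),(0,0),(1,11),(9,3)]⟩⟩,⟨true,0,⟨0,[(31,0)]⟩,⟨0,[(32,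
  0)]⟩⟩,⟨false,0,⟨5,[(0,3),(3,1),(1,2),(4,2),(2,0),(0,0),(18,2)]⟩,⟨0,[(2,0),(5,0)]⟩⟩,[]⟩)))) (.Q [0,
  0,0,0,0,1,0,0,0,0,0,-1] (.p false [0,0,0,1] [] (⟨0,[(13,0)]⟩,⟨1,[(12,0),(8,0),(0,0)]⟩) .k 0 (⟨0,
  []⟩,⟨0,[]⟩) .k .k) (.R ⟨0,false,false,true,[0,0,0,1],[0,1],[1,1,1,1],(⟨0,[(14,0)]⟩,⟨1,[(13,0),(8,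
  0),(0,0)]⟩),(⟨0,[(26,0)]⟩,⟨0,[(25,0)]⟩),⟨0,[(0,0)]⟩,.k,.k,(.r (-1) ⟨1,[(12,0),(17,1),(0,0)]⟩ ⟨5,
  [(1,3),(2,3),(6,0),(7,0),(0,4),(8,1),(2,2)]⟩),(.r (-1) ⟨1,[(12,0),(17,1),(0,0)]⟩ ⟨5,[(1,3),(2,3),
  (6,0),(7,0),(0,4),(8,1),(2,2)]⟩),.k,.k,⟨true,0,⟨0,[]⟩,⟨1,[(19,0),(0,0)]⟩⟩,⟨false,1,⟨0,[(14,0),(16,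
  0)]⟩,⟨1,[(13,0),(2,0),(2,0)]⟩⟩,⟨true,(-1),⟨0,[(1,0),(2,0),(15,0)]⟩,⟨1,[(12,0),(17,1),(0,0)]⟩⟩,
  ⟨false,0,⟨1,[(1,1),(2,1),(9,1),(5,1),(10,0),(0,0)]⟩,⟨5,[(4,1),(1,3),(3,0),(1,2),(0,2),(18,2)]⟩⟩,
  ⟨false,0,⟨0,[]⟩,⟨0,[]⟩⟩,⟨false,0,⟨0,[]⟩,⟨0,[]⟩⟩,[.o ⟨false,0,⟨0,[(29,0)]⟩,⟨15,[(6,7),(3,3),(0,0),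
  (0,0),(11,5),(7,7)]⟩⟩,.o ⟨false,1,⟨3,[(11,0),(0,0),(16,3),(2,1)]⟩,⟨0,[(4,0),(1,0)]⟩⟩,.a ⟨true,0,
  ⟨1,[(13,0),(8,0),(0,0)]⟩,⟨0,[(14,0)]⟩⟩ ⟨false,0,⟨0,[(4,0),(15,0),(0,0)]⟩,⟨1,[(30,1),(0,0),(0,
  0)]⟩⟩ ⟨true,0,⟨0,[(14,0),(14,0)]⟩,⟨5,[(4,1),(1,3),(3,0),(2,2)]⟩⟩,.o ⟨false,0,⟨1,[(13,0),(2,0),(2,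
  0)]⟩,⟨1,[(14,1),(9,0),(6,0)]⟩⟩]⟩) (.Q [0,-1,0,0,0,0,1,1,-1,0,-1,1] (.p false [0,0,1] [0,0,0,1]
  (⟨0,[(23,0)]⟩,⟨0,[(22,0)]⟩) .k 2 (⟨0,[(14,0)]⟩,⟨1,[(13,0),(8,0),(0,0)]⟩) .k (.x 0 ⟨0,[(7,0),(15,
  0)]⟩ ⟨1,[(20,1),(1,1),(1,0),(6,0)]⟩)) (.I [0,-1,0,-1,0,0,0,1,-1] (.R ⟨1,false,false,true,[1,0,0,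
  -1],[1,0,-1],[0,0,0,-1,0,0,0,0,-1],(⟨1,[(15,0),(8,0),(0,0)]⟩,⟨0,[(16,0)]⟩),(⟨0,[(24,0)]⟩,⟨0,[(25,
  0)]⟩),⟨0,[(2,0),(12,0)]⟩,.k,.k,(.r 0 ⟨9,[(0,5),(2,1),(1,3),(7,0),(19,0)]⟩ ⟨1,[(14,0),(6,0),(0,0),
  (8,1),(2,0)]⟩),.k,(.r 0 ⟨0,[(0,0),(29,0)]⟩ ⟨1,[(4,1),(6,1),(2,0),(6,1),(12,0)]⟩),.k,⟨true,0,⟨0,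
  [(0,0)]⟩,⟨0,[(3,0),(2,0),(7,0),(7,0),(0,0)]⟩⟩,⟨false,1,⟨1,[(15,0),(2,0),(3,0),(10,1)]⟩,⟨0,[(9,0),
  (6,0)]⟩⟩,⟨true,0,⟨0,[(32,0)]⟩,⟨0,[(31,0)]⟩⟩,⟨false,1,⟨7,[(4,3),(8,0),(0,4),(0,3),(18,1)]⟩,⟨0,[(1,
  0)]⟩⟩,⟨false,1,⟨3,[(13,0),(0,0),(19,1)]⟩,⟨0,[]⟩⟩,⟨false,1,⟨1,[(4,1),(1,0),(4,0),(2,0),(0,0),(18,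
  0)]⟩,⟨0,[(1,0),(30,0)]⟩⟩,[.o ⟨false,0,⟨0,[(17,0)]⟩,⟨7,[(12,3),(0,0),(0,0),(11,1),(7,3)]⟩⟩,.o
  ⟨false,1,⟨3,[(4,1),(8,0),(0,0),(11,0),(7,0)]⟩,⟨2,[(6,1),(1,0),(3,0)]⟩⟩,.a ⟨true,0,⟨0,[(16,0)]⟩,⟨1,
  [(15,0),(8,0),(0,0)]⟩⟩ ⟨false,0,⟨25,[(0,13),(2,9),(1,3),(7,0),(15,7),(4,8)]⟩,⟨1,[(14,0),(16,1),(2,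
  0)]⟩⟩ ⟨true,0,⟨1,[(4,0),(10,0),(20,0)]⟩,⟨2,[(6,1),(1,0),(3,0),(3,2)]⟩⟩,.o ⟨false,0,⟨0,[(9,0),(6,
  0),(1,0)]⟩,⟨7,[(13,0),(0,0),(0,3),(10,1),(6,3)]⟩⟩]⟩) (.Q [0,1,0,0,0,0,0,0,1,1,0,-1] (.p false [0,
  0,0,1] [1] (⟨0,[(16,0)]⟩,⟨1,[(15,0),(8,0),(0,0)]⟩) .k 1 (⟨0,[]⟩,⟨0,[]⟩) .k .k) (.K ⟨2,[1,0,0,-1],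
  0,0,(⟨1,[(16,0),(8,0),(0,0)]⟩,⟨0,[(17,0)]⟩),.k,(.r 0 ⟨1,[(2,1),(3,1),(9,0),(2,0),(3,0)]⟩ ⟨1,[(15,
  0),(6,0),(0,0),(8,1),(2,0)]⟩),(.r 0 ⟨5,[(4,3),(2,3),(6,0),(7,0),(0,4),(8,1),(2,2)]⟩ ⟨1,[(15,0),
  (17,1),(0,0)]⟩),.k,.k,[⟨0,[(2,0),(2,0)]⟩,⟨0,[(0,0)]⟩,⟨21,[(0,5),(3,1),(7,7),(1,1),(1,7),(5,2),(0,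
  10),(0,5),(5,7)]⟩,⟨0,[(10,0),(6,0),(1,0)]⟩]⟩) (.R ⟨1,false,false,false,[0,0,0,1],[1,-1],[1,0,0,0,
  0,0,0,0,1],(⟨0,[(17,0)]⟩,⟨1,[(16,0),(8,0),(0,0)]⟩),(⟨0,[(28,0)]⟩,⟨0,[(29,0)]⟩),⟨0,[(3,0)]⟩,.k,.k,
  (.r (-1) ⟨1,[(15,0),(17,1),(0,0)]⟩ ⟨5,[(4,3),(2,3),(6,0),(7,0),(0,4),(8,1),(2,2)]⟩),(.r (-1) ⟨1,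
  [(15,0),(6,0),(0,0),(8,1),(2,0)]⟩ ⟨3,[(0,0),(1,2),(3,1),(2,0),(6,1),(6,1),(7,1)]⟩),.k,.k,⟨false,1,
  ⟨1,[(15,0),(16,1),(2,0)]⟩,⟨3,[(0,0),(1,2),(3,1),(2,0),(6,1),(6,1),(7,1)]⟩⟩,⟨true,0,⟨6,[(0,0),(0,
  0),(5,2),(1,1),(7,5),(1,3),(2,2)]⟩,⟨1,[(16,0),(8,0),(0,0)]⟩⟩,⟨true,0,⟨0,[]⟩,⟨0,[(37,0)]⟩⟩,⟨false,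
  0,⟨1,[(0,0),(1,0),(6,0)]⟩,⟨7,[(5,3),(6,7),(1,0),(0,4),(0,3),(18,1)]⟩⟩,⟨false,1,⟨0,[(32,0),(2,0)]⟩,
  ⟨0,[(33,0)]⟩⟩,⟨false,0,⟨0,[(0,0)]⟩,⟨3,[(14,0),(0,2),(0,1),(8,1),(0,1)]⟩⟩,[.o ⟨false,0,⟨0,[(7,0),
  (1,0)]⟩,⟨3,[(14,0),(0,0),(16,3),(2,1)]⟩⟩,.o ⟨false,1,⟨15,[(9,7),(3,3),(0,0),(0,0),(11,5),(7,7)]⟩,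
  ⟨0,[(32,0)]⟩⟩,.a ⟨true,0,⟨1,[(16,0),(8,0),(0,0)]⟩,⟨0,[(17,0)]⟩⟩ ⟨false,1,⟨1,[(15,0),(19,0)]⟩,⟨4,
  [(0,0),(1,0),(1,0),(9,0),(1,0),(6,0),(7,0)]⟩⟩ ⟨true,0,⟨0,[(7,0),(1,0),(7,0)]⟩,⟨1,[(12,0),(3,0),(4,
  0),(10,0)]⟩⟩,.o ⟨false,0,⟨1,[(16,0),(2,0),(2,0)]⟩,⟨1,[(17,1),(9,0),(6,0)]⟩⟩]⟩))) (.K ⟨2,[1,0,0,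
  -1],0,0,(⟨1,[(14,0),(8,0),(0,0)]⟩,⟨0,[(15,0)]⟩),.k,(.x 0 ⟨1,[(1,1),(12,0),(2,0),(2,0)]⟩ ⟨3,[(12,
  0),(0,0),(13,3),(4,1)]⟩),(.r 0 ⟨5,[(2,3),(2,3),(6,0),(7,0),(0,4),(8,1),(2,2)]⟩ ⟨1,[(13,0),(17,1),
  (0,0)]⟩),.k,.k,[⟨1,[(2,1),(12,1),(1,1),(14,0),(0,0)]⟩,⟨1,[(0,1),(10,0),(11,0),(0,0)]⟩,⟨3,[(10,1),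
  (3,1),(4,1),(0,0),(0,0),(6,1)]⟩,⟨0,[(8,0),(6,0),(1,0)]⟩]⟩)))))))) (.Q [0,0,0,1,0,0,0,0,0,1] (.pp
  false [-1,1]) (.R ⟨1,false,false,false,[1,0,-1],[0,1],[1,1,0,0,0,0,0,-1],(⟨0,[(17,0)]⟩,⟨0,[(18,
  0)]⟩),(⟨0,[(21,0)]⟩,⟨0,[(20,0)]⟩),⟨0,[(3,0)]⟩,.k,.k,.k,.k,(.r (-1) ⟨0,[(16,0),(8,1),(0,0)]⟩ ⟨1,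
  [(1,1),(9,1),(2,0),(0,0)]⟩),.k,⟨true,0,⟨0,[(16,0),(6,0),(1,0)]⟩,⟨0,[(1,0),(9,0),(10,0)]⟩⟩,⟨false,
  1,⟨1,[(5,0),(10,1),(0,0),(0,0),(7,1)]⟩,⟨0,[(11,0)]⟩⟩,⟨false,0,⟨0,[]⟩,⟨3,[(6,0),(0,0),(19,1)]⟩⟩,
  ⟨true,0,⟨0,[(4,0)]⟩,⟨0,[(10,0),(14,0)]⟩⟩,⟨true,0,⟨0,[(24,0)]⟩,⟨0,[(25,0)]⟩⟩,⟨true,0,⟨0,[(1,0)]⟩,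
  ⟨0,[(10,0),(14,1)]⟩⟩,[.a ⟨true,0,⟨0,[(0,0)]⟩,⟨0,[(25,0)]⟩⟩ ⟨false,0,⟨0,[(16,0),(6,0)]⟩,⟨1,[(5,0),
  (5,0),(3,0),(10,0),(0,0)]⟩⟩ ⟨true,0,⟨0,[(0,0),(1,0)]⟩,⟨0,[(11,0),(13,0)]⟩⟩,.o ⟨false,1,⟨0,[(24,0),
  (2,0)]⟩,⟨0,[(2,0),(8,0),(11,0),(1,0)]⟩⟩,.o ⟨false,1,⟨1,[(15,1),(3,0),(6,0)]⟩,⟨0,[(2,0)]⟩⟩,.o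
  ⟨false,0,⟨0,[(11,0)]⟩,⟨0,[(14,0),(11,0)]⟩⟩]⟩) (.I [0,0,-1,-1,0,0,0,0,-1] (.Q [0,0,0,0,0,1,0,0,0,0,
  0,-1] (.p false [0,0,0,1] [] (⟨0,[(10,0)]⟩,⟨1,[(9,0),(8,0),(0,0)]⟩) .k 0 (⟨0,[]⟩,⟨0,[]⟩) .k .k)
  (.Q [0,1,0,0,0,0,0,0,1,1,0,-1] (.p false [0,0,0,1] [1] (⟨0,[(11,0)]⟩,⟨1,[(10,0),(8,0),(0,0)]⟩) .k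
  1 (⟨0,[]⟩,⟨0,[]⟩) .k .k) (.R ⟨0,false,false,false,[0,0,0,1],[0,1],[0,1],(⟨0,[(12,0)]⟩,⟨1,[(11,0),
  (8,0),(0,0)]⟩),(⟨0,[(24,0)]⟩,⟨0,[(23,0)]⟩),⟨0,[(1,0)]⟩,.k,.k,(.r (-1) ⟨0,[(2,0),(7,0)]⟩ ⟨1,[(2,1),
  (1,1),(9,1),(2,0),(0,0),(0,1)]⟩),(.r (-1) ⟨0,[(2,0),(7,0)]⟩ ⟨1,[(2,1),(1,1),(9,1),(2,0),(0,0),(0,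
  1)]⟩),.k,.k,⟨true,0,⟨0,[(26,0),(1,0)]⟩,⟨0,[(4,0),(9,0),(4,0),(5,0)]⟩⟩,⟨false,1,⟨0,[(12,0),(16,
  0)]⟩,⟨1,[(11,0),(2,0),(2,0)]⟩⟩,⟨false,0,⟨3,[(2,3),(1,1),(9,1),(2,0),(0,0),(0,1)]⟩,⟨1,[(10,0),(19,
  0)]⟩⟩,⟨true,0,⟨0,[(2,0),(1,0),(7,0),(1,0),(4,0)]⟩,⟨0,[(0,0),(2,0)]⟩⟩,⟨false,0,⟨0,[]⟩,⟨0,[]⟩⟩,
  ⟨false,0,⟨0,[]⟩,⟨0,[]⟩⟩,[.o ⟨false,1,⟨3,[(9,0),(0,0),(16,3),(2,1)]⟩,⟨0,[(3,0)]⟩⟩,.o ⟨false,1,⟨0,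
  [(27,0),(2,0)]⟩,⟨0,[(3,0),(28,0)]⟩⟩,.a ⟨true,0,⟨1,[(11,0),(8,0),(0,0)]⟩,⟨0,[(12,0)]⟩⟩ ⟨true,0,⟨0,
  [(32,0)]⟩,⟨0,[]⟩⟩ ⟨false,1,⟨0,[(12,0),(14,0),(2,0)]⟩,⟨1,[(3,0),(7,0),(16,0)]⟩⟩,.o ⟨false,0,⟨1,
  [(11,0),(2,0),(2,0)]⟩,⟨1,[(12,1),(9,0),(6,0)]⟩⟩]⟩) (.R ⟨0,false,false,false,[0,0,0,1],[1,-1],[1,0,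
  0,0,0,0,0,0,1],(⟨0,[(12,0)]⟩,⟨1,[(11,0),(8,0),(0,0)]⟩),(⟨0,[(23,0)]⟩,⟨0,[(24,0)]⟩),⟨0,[(1,0)]⟩,.k,
  .k,(.r (-1) ⟨0,[(2,0),(7,0)]⟩ ⟨4,[(0,3),(1,0),(1,1),(6,1),(4,1),(0,2),(0,2),(8,1)]⟩),(.r (-1) ⟨1,
  [(10,0),(6,0),(0,0),(8,1),(2,0)]⟩ ⟨0,[(2,0)]⟩),.k,.k,⟨false,1,⟨1,[(10,0),(16,1),(2,0)]⟩,⟨0,[(2,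
  0)]⟩⟩,⟨true,0,⟨0,[(5,0),(6,0),(1,0)]⟩,⟨1,[(11,0),(8,0),(0,0)]⟩⟩,⟨true,0,⟨0,[]⟩,⟨0,[(32,0)]⟩⟩,
  ⟨false,0,⟨2,[(0,1),(1,0),(0,0),(8,0),(12,0)]⟩,⟨7,[(4,3),(4,0),(0,4),(0,3),(4,3),(13,1)]⟩⟩,⟨false,
  0,⟨0,[]⟩,⟨0,[]⟩⟩,⟨false,0,⟨0,[]⟩,⟨0,[]⟩⟩,[.o ⟨false,0,⟨0,[(3,0)]⟩,⟨3,[(9,0),(0,0),(16,3),(2,1)]⟩⟩,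
  .o ⟨false,1,⟨3,[(2,1),(7,0),(11,1),(2,1),(4,0)]⟩,⟨0,[(27,0)]⟩⟩,.a ⟨true,0,⟨1,[(11,0),(8,0),(0,
  0)]⟩,⟨0,[(12,0)]⟩⟩ ⟨false,1,⟨1,[(10,0),(19,0)]⟩,⟨9,[(0,3),(1,5),(1,1),(6,1),(4,1),(0,2),(0,2),(8,
  1)]⟩⟩ ⟨true,0,⟨0,[(3,0),(8,0)]⟩,⟨1,[(7,0),(3,0),(4,0),(10,0)]⟩⟩,.o ⟨false,0,⟨1,[(11,0),(2,0),(2,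
  0)]⟩,⟨1,[(12,1),(9,0),(6,0)]⟩⟩]⟩)) (.Q [0,-1,0,-1,0,0,0,0,-1,-1,0,1] (.p true [0,0,0,1] [1] (⟨0,
  [(11,0)]⟩,⟨1,[(10,0),(8,0),(0,0)]⟩) .k 1 (⟨0,[]⟩,⟨0,[]⟩) .k .k) (.R ⟨1,false,false,false,[0,0,0,
  1],[0,0,1],[0,0,0,-1,0,0,0,0,1],(⟨0,[(12,0)]⟩,⟨1,[(11,0),(8,0),(0,0)]⟩),(⟨0,[(21,0)]⟩,⟨0,[(20,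
  0)]⟩),⟨0,[(1,0)]⟩,.k,.k,(.r (-1) ⟨0,[(2,0),(7,0)]⟩ ⟨3,[(0,3),(3,1),(6,1),(5,0),(0,2),(0,1),(7,
  3)]⟩),.k,(.r (-1) ⟨0,[(2,0),(7,0),(8,0)]⟩ ⟨1,[(2,1),(1,1),(9,1),(2,0),(0,0)]⟩),.k,⟨false,1,⟨0,[(2,
  0),(7,0),(8,0)]⟩,⟨0,[(2,0),(1,0),(9,0)]⟩⟩,⟨true,0,⟨0,[(5,0),(6,0)]⟩,⟨1,[(11,0),(2,0),(3,0)]⟩⟩,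
  ⟨true,0,⟨0,[(28,0)]⟩,⟨0,[(27,0)]⟩⟩,⟨false,0,⟨0,[(0,0),(6,0)]⟩,⟨1,[(10,0),(0,0),(1,0),(2,0),(13,
  0)]⟩⟩,⟨false,1,⟨3,[(9,0),(0,0),(19,1)]⟩,⟨0,[]⟩⟩,⟨false,0,⟨0,[(0,0),(3,0)]⟩,⟨3,[(2,1),(7,2),(0,1),
  (1,1),(2,1),(8,1),(4,0)]⟩⟩,[.o ⟨false,0,⟨2,[(3,1),(0,0),(3,0)]⟩,⟨1,[(16,1),(5,0),(7,0)]⟩⟩,.o
  ⟨false,1,⟨7,[(8,3),(0,0),(0,0),(11,1),(7,3)]⟩,⟨0,[(13,0)]⟩⟩,.a ⟨true,0,⟨1,[(11,0),(8,0),(0,0)]⟩,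
  ⟨0,[(12,0)]⟩⟩ ⟨false,1,⟨3,[(2,1),(7,2),(14,1),(4,0)]⟩,⟨1,[(0,1),(3,1),(6,0),(1,0),(2,0)]⟩⟩ ⟨true,
  0,⟨2,[(3,1),(0,0),(3,0),(3,2)]⟩,⟨1,[(11,0),(1,0),(2,0)]⟩⟩,.o ⟨false,0,⟨1,[(11,0),(2,0),(2,0)]⟩,⟨1,
  [(12,1),(9,0),(6,0)]⟩⟩]⟩) (.R ⟨1,false,false,false,[0,0,0,1],[1,-1],[1,0,0,0,0,0,0,0,1],(⟨0,[(12,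
  0)]⟩,⟨1,[(11,0),(8,0),(0,0)]⟩),(⟨0,[(23,0)]⟩,⟨0,[(24,0)]⟩),⟨0,[(1,0)]⟩,.k,.k,(.r (-1) ⟨0,[(2,0),
  (7,0)]⟩ ⟨1,[(2,1),(1,1),(9,1),(2,0),(0,0),(0,1)]⟩),(.r (-1) ⟨1,[(10,0),(6,0),(0,0),(8,1),(2,0)]⟩
  ⟨0,[(2,0)]⟩),.k,.k,⟨false,1,⟨1,[(10,0),(16,1),(2,0)]⟩,⟨0,[(2,0)]⟩⟩,⟨true,0,⟨0,[(5,0),(6,0),(1,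
  0)]⟩,⟨1,[(11,0),(8,0),(0,0)]⟩⟩,⟨true,0,⟨0,[]⟩,⟨0,[(32,0)]⟩⟩,⟨true,0,⟨0,[(2,0),(2,0),(6,0),(1,0)]⟩,
  ⟨0,[(0,0)]⟩⟩,⟨false,1,⟨0,[(27,0),(2,0)]⟩,⟨0,[(28,0)]⟩⟩,⟨true,0,⟨0,[(2,0),(0,0),(0,0),(7,0),(1,0),
  (4,0)]⟩,⟨0,[(0,0),(27,0)]⟩⟩,[.o ⟨false,0,⟨0,[(3,0)]⟩,⟨3,[(9,0),(0,0),(16,3),(2,1)]⟩⟩,.o ⟨false,1,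
  ⟨3,[(2,1),(7,0),(11,1),(2,1),(4,0)]⟩,⟨0,[(27,0)]⟩⟩,.a ⟨true,0,⟨1,[(11,0),(8,0),(0,0)]⟩,⟨0,[(12,
  0)]⟩⟩ ⟨false,1,⟨1,[(10,0),(19,0)]⟩,⟨3,[(2,3),(1,1),(9,1),(2,0),(0,0),(0,1)]⟩⟩ ⟨true,0,⟨0,[(3,0),
  (8,0)]⟩,⟨1,[(7,0),(3,0),(4,0),(10,0)]⟩⟩,.o ⟨false,0,⟨1,[(11,0),(2,0),(2,0)]⟩,⟨1,[(12,1),(9,0),(6,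
  0)]⟩⟩]⟩))) (.I [0,0,1,1,0,0,0,0,-1] (.Q [0,0,0,0,0,0,1,1,1,1,-1,-1] (.p false [0,0,1] [1,0,0,-1]
  (⟨0,[(20,0)]⟩,⟨0,[(19,0)]⟩) .k 2 (⟨1,[(10,0),(8,0),(0,0)]⟩,⟨0,[(11,0)]⟩) .k (.x 0 ⟨0,[(4,0),(15,
  0)]⟩ ⟨1,[(17,1),(1,1),(1,0),(6,0)]⟩)) (.Q [0,0,0,-1,0,0,-1,-1,-1,-1,1,1] (.p true [0,0,1] [1,0,0,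
  -1] (⟨0,[(21,0)]⟩,⟨0,[(20,0)]⟩) .k 2 (⟨1,[(11,0),(8,0),(0,0)]⟩,⟨0,[(12,0)]⟩) .k (.x 0 ⟨0,[(5,0),
  (15,0)]⟩ ⟨1,[(18,1),(1,1),(1,0),(6,0)]⟩)) (.R ⟨1,true,false,false,[1,0,-1],[0,0,0,1],[1,1,0,0,0,0,
  0,-1],(⟨0,[(21,0)]⟩,⟨0,[(22,0)]⟩),(⟨0,[(13,0)]⟩,⟨1,[(12,0),(8,0),(0,0)]⟩),⟨0,[(7,0)]⟩,.k,.k,.k,.k,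
  (.x 0 ⟨0,[(7,0),(7,0)]⟩ ⟨0,[(18,0),(3,0),(2,0),(4,0)]⟩),.k,⟨false,0,⟨1,[(0,1),(4,0),(0,0),(5,0),
  (7,0),(6,1)]⟩,⟨1,[(1,1),(11,1),(1,1),(14,0),(0,0)]⟩⟩,⟨true,0,⟨1,[(9,0),(2,0),(7,1)]⟩,⟨0,[(13,0),
  (1,0)]⟩⟩,⟨false,0,⟨0,[]⟩,⟨3,[(10,0),(0,0),(19,1)]⟩⟩,⟨true,0,⟨0,[(1,0)]⟩,⟨0,[(0,0),(27,0)]⟩⟩,⟨true,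
  0,⟨0,[(28,0)]⟩,⟨0,[(29,0)]⟩⟩,⟨false,1,⟨15,[(1,7),(3,7),(4,0),(0,4),(0,3),(10,1),(7,7)]⟩,⟨0,[(0,
  0)]⟩⟩,[]⟩) (.Q [0,0,0,0,0,0,1,1,-1,0,-1,1] (.p false [0,0,1] [0,0,0,1] (⟨0,[(22,0)]⟩,⟨0,[(21,
  0)]⟩) .k 2 (⟨0,[(13,0)]⟩,⟨1,[(12,0),(8,0),(0,0)]⟩) .k (.x 0 ⟨0,[(6,0),(15,0)]⟩ ⟨1,[(19,1),(1,1),
  (1,0),(6,0)]⟩)) (.Q [0,0,0,1,0,0,1,1,-1,0,-1,1] (.p false [0,0,1] [0,0,0,1] (⟨0,[(23,0)]⟩,⟨0,[(22,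
  0)]⟩) .k 2 (⟨0,[(14,0)]⟩,⟨1,[(13,0),(8,0),(0,0)]⟩) .k (.x 0 ⟨0,[(7,0),(15,0)]⟩ ⟨1,[(20,1),(1,1),
  (1,0),(6,0)]⟩)) (.Q [0,0,0,0,0,-1,0,0,0,1,0,-1] (.p false [0,0,0,1] [1] (⟨0,[(15,0)]⟩,⟨1,[(14,0),
  (8,0),(0,0)]⟩) .k 1 (⟨0,[]⟩,⟨0,[]⟩) .k .k) (.Q [0,0,0,0,0,0,0,0,-1,0,0,1] (.p true [0,0,0,1] []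
  (⟨0,[(16,0)]⟩,⟨1,[(15,0),(8,0),(0,0)]⟩) .k 0 (⟨0,[]⟩,⟨0,[]⟩) .k .k) (.R ⟨1,false,false,false,[1,0,
  0,-1],[0,0,1],[0,1,0,-1,0,0,0,0,-1],(⟨1,[(16,0),(8,0),(0,0)]⟩,⟨0,[(17,0)]⟩),(⟨0,[(26,0)]⟩,⟨0,[(25,
  0)]⟩),⟨0,[(1,0)]⟩,.k,.k,(.r (-1) ⟨1,[(14,0),(18,1),(0,0)]⟩ ⟨0,[(4,0),(12,0),(1,0),(4,0)]⟩),.k,(.r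
  (-1) ⟨1,[(14,0),(9,1),(8,1),(0,0)]⟩ ⟨0,[(4,0),(12,0),(1,0)]⟩),.k,⟨false,0,⟨1,[(0,1),(7,0),(7,0),
  (7,1),(6,1),(1,0)]⟩,⟨1,[(4,1),(12,1),(1,1),(14,0),(0,0)]⟩⟩,⟨true,0,⟨1,[(13,0),(2,0),(7,1)]⟩,⟨0,
  [(17,0),(1,0)]⟩⟩,⟨false,0,⟨0,[(33,0)]⟩,⟨0,[(32,0),(2,0)]⟩⟩,⟨true,0,⟨0,[(5,0)]⟩,⟨0,[(0,0),(17,
  0)]⟩⟩,⟨true,0,⟨0,[(37,0)]⟩,⟨0,[]⟩⟩,⟨true,0,⟨0,[(4,0)]⟩,⟨0,[(0,0),(17,0),(14,0)]⟩⟩,[.o ⟨false,0,⟨3,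
  [(2,0),(1,0),(3,1),(4,0)]⟩,⟨1,[(21,1),(5,0),(7,0)]⟩⟩,.o ⟨false,1,⟨7,[(13,3),(0,0),(0,0),(11,1),(7,
  3)]⟩,⟨0,[(18,0)]⟩⟩,.a ⟨true,0,⟨0,[(17,0)]⟩,⟨1,[(16,0),(8,0),(0,0)]⟩⟩ ⟨false,0,⟨1,[(0,1),(7,0),(7,
  0),(16,0)]⟩,⟨1,[(7,1),(26,0),(0,0)]⟩⟩ ⟨true,0,⟨1,[(13,0),(2,0)]⟩,⟨0,[(17,0),(0,0)]⟩⟩,.o ⟨false,0,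
  ⟨3,[(2,0),(4,0),(0,1),(8,2),(1,1),(2,0),(1,0)]⟩,⟨7,[(14,0),(0,0),(0,3),(10,1),(6,3)]⟩⟩]⟩) (.R ⟨1,
  false,false,false,[1,0,0,-1],[1,-1,-1],[1,1,0,0,0,0,0,0,-1],(⟨1,[(16,0),(8,0),(0,0)]⟩,⟨0,[(17,
  0)]⟩),(⟨0,[(11,0)]⟩,⟨0,[(26,0),(2,0)]⟩),⟨0,[(1,0)]⟩,.k,.k,(.r (-1) ⟨1,[(14,0),(18,1),(0,0)]⟩ ⟨0,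
  [(0,0),(0,0),(6,0),(0,0),(7,1),(1,0),(4,0),(4,0)]⟩),(.r 0 ⟨1,[(2,1),(13,0),(2,0),(3,0)]⟩ ⟨1,[(15,
  0),(8,1),(8,1),(0,0)]⟩),.k,.k,⟨false,0,⟨1,[(2,1),(13,0),(2,0),(3,0),(7,1)]⟩,⟨1,[(0,1),(16,1),(6,
  1),(8,1),(0,0),(0,0)]⟩⟩,⟨true,0,⟨1,[(16,0),(2,0),(3,0)]⟩,⟨0,[(10,0),(6,0)]⟩⟩,⟨false,0,⟨0,[]⟩,⟨3,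
  [(14,0),(0,0),(19,1)]⟩⟩,⟨false,1,⟨0,[(0,0),(20,0),(11,0),(1,0)]⟩,⟨0,[(2,0)]⟩⟩,⟨true,0,⟨0,[(32,
  0)]⟩,⟨0,[(33,0)]⟩⟩,⟨false,1,⟨0,[(0,0),(20,0),(13,0)]⟩,⟨0,[(3,0)]⟩⟩,[.o ⟨false,1,⟨1,[(21,1),(5,0),
  (5,1),(1,0)]⟩,⟨0,[(0,0),(1,0)]⟩⟩,.o ⟨false,1,⟨0,[(18,0),(14,0),(1,0)]⟩,⟨1,[(0,0),(1,0),(17,0),(11,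
  0)]⟩⟩,.a ⟨true,0,⟨0,[(17,0)]⟩,⟨1,[(16,0),(8,0),(0,0)]⟩⟩ ⟨true,0,⟨1,[(3,1),(12,0),(1,0),(2,0)]⟩,⟨0,
  [(0,0),(16,0)]⟩⟩ ⟨false,1,⟨1,[(16,0),(1,0),(2,0),(11,1),(1,1)]⟩,⟨0,[(0,0),(1,0),(14,0)]⟩⟩,.o
  ⟨false,0,⟨3,[(2,0),(4,0),(0,1),(8,2),(1,1),(2,0),(1,0)]⟩,⟨7,[(14,0),(0,0),(0,3),(10,1),(6,
  3)]⟩⟩]⟩)) (.I [1,0,0,0,0,0,0,0,-1] (.R ⟨0,false,false,true,[1,0,0,-1],[0,1],[1,1,1,1],(⟨1,[(16,0),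
  (8,0),(0,0)]⟩,⟨0,[(17,0)]⟩),(⟨0,[(29,0)]⟩,⟨0,[(28,0)]⟩),⟨0,[(1,0)]⟩,.k,.k,(.r (-1) ⟨1,[(14,0),(18,
  1),(0,0)]⟩ ⟨0,[(1,0),(2,0),(6,0),(7,0),(4,0),(1,0)]⟩),(.r (-1) ⟨1,[(14,0),(18,1),(0,0)]⟩ ⟨0,[(1,
  0),(2,0),(6,0),(7,0),(4,0),(1,0)]⟩),.k,.k,⟨true,0,⟨0,[]⟩,⟨1,[(22,0),(0,0)]⟩⟩,⟨false,1,⟨1,[(16,0),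
  (8,0),(0,0),(7,1)]⟩,⟨3,[(2,0),(4,0),(0,1),(8,2),(1,1),(2,0),(1,0)]⟩⟩,⟨false,0,⟨0,[(7,0)]⟩,⟨1,[(0,
  1),(32,1),(0,0),(0,0)]⟩⟩,⟨true,0,⟨0,[(4,0),(16,0)]⟩,⟨0,[(0,0),(7,0),(8,0)]⟩⟩,⟨false,0,⟨0,[]⟩,⟨0,
  []⟩⟩,⟨false,0,⟨0,[]⟩,⟨0,[]⟩⟩,[.o ⟨false,0,⟨0,[(32,0)]⟩,⟨1,[(27,0),(5,1),(1,0)]⟩⟩,.o ⟨false,1,⟨3,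
  [(14,0),(0,0),(16,3),(2,1)]⟩,⟨0,[(8,0)]⟩⟩,.a ⟨true,0,⟨0,[(17,0)]⟩,⟨1,[(16,0),(8,0),(0,0)]⟩⟩
  ⟨false,0,⟨1,[(6,0),(0,0)]⟩,⟨1,[(33,1),(0,0),(0,0)]⟩⟩ ⟨true,0,⟨1,[(12,0),(3,0),(4,0),(10,0)]⟩,⟨0,
  [(8,0),(8,0)]⟩⟩,.o ⟨false,0,⟨3,[(2,0),(4,0),(0,1),(8,2),(1,1),(2,0),(1,0)]⟩,⟨7,[(14,0),(0,0),(0,
  3),(10,1),(6,3)]⟩⟩]⟩) (.R ⟨0,false,false,true,[0,0,0,1],[0,1],[0,1,1],(⟨0,[(17,0)]⟩,⟨1,[(16,0),(8,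
  0),(0,0)]⟩),(⟨0,[(29,0)]⟩,⟨0,[(28,0)]⟩),⟨0,[(1,0),(14,0)]⟩,.k,.k,(.r (-1) ⟨1,[(15,0),(17,1),(0,
  0)]⟩ ⟨0,[(6,0)]⟩),(.r (-1) ⟨1,[(15,0),(17,1),(0,0)]⟩ ⟨0,[(6,0)]⟩),.k,.k,⟨true,0,⟨0,[(33,0)]⟩,⟨1,
  [(6,0),(0,0)]⟩⟩,⟨false,1,⟨0,[(17,0),(16,0)]⟩,⟨1,[(16,0),(2,0),(2,0)]⟩⟩,⟨false,0,⟨0,[(6,0),(26,
  0)]⟩,⟨1,[(0,1),(33,0),(0,0)]⟩⟩,⟨true,0,⟨0,[(2,0),(18,0)]⟩,⟨1,[(0,1),(7,0),(7,0),(16,0)]⟩⟩,⟨false,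
  0,⟨0,[]⟩,⟨0,[]⟩⟩,⟨false,0,⟨0,[]⟩,⟨0,[]⟩⟩,[.o ⟨false,0,⟨0,[(32,0)]⟩,⟨1,[(27,0),(5,1),(1,0)]⟩⟩,.o
  ⟨false,1,⟨3,[(14,0),(0,0),(16,3),(2,1)]⟩,⟨0,[(8,0)]⟩⟩,.a ⟨true,0,⟨1,[(16,0),(8,0),(0,0)]⟩,⟨0,[(17,
  0)]⟩⟩ ⟨false,0,⟨1,[(22,0),(0,0)]⟩,⟨1,[(34,0),(0,0)]⟩⟩ ⟨true,0,⟨0,[(17,0),(14,0)]⟩,⟨1,[(8,0),(7,0),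
  (16,0)]⟩⟩,.o ⟨false,0,⟨1,[(16,0),(2,0),(2,0)]⟩,⟨1,[(17,1),(9,0),(6,0)]⟩⟩]⟩))) (.R ⟨1,true,false,
  false,[1,0,-1],[1,0,0,-1],[1,1,0,0,0,0,0,-1],(⟨0,[(23,0)]⟩,⟨0,[(24,0)]⟩),(⟨1,[(14,0),(8,0),(0,
  0)]⟩,⟨0,[(15,0)]⟩),⟨0,[(9,0)]⟩,.k,.k,.k,.k,(.x 0 ⟨0,[(9,0),(7,0)]⟩ ⟨0,[(20,0),(3,0),(2,0),(4,
  0)]⟩),.k,⟨false,0,⟨0,[(0,0),(5,0),(0,0),(7,0),(6,0),(6,0)]⟩,⟨1,[(1,1),(12,0),(2,0),(3,0),(10,0),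
  (0,0)]⟩⟩,⟨true,0,⟨0,[(8,0),(6,0)]⟩,⟨1,[(14,0),(2,0),(3,0)]⟩⟩,⟨false,0,⟨0,[]⟩,⟨3,[(12,0),(0,0),(19,
  1)]⟩⟩,⟨true,0,⟨0,[(1,0)]⟩,⟨0,[(0,0),(29,0)]⟩⟩,⟨true,0,⟨0,[(30,0)]⟩,⟨0,[(31,0)]⟩⟩,⟨false,1,⟨3,[(1,
  1),(5,1),(4,0),(2,1),(9,0),(7,1)]⟩,⟨0,[(0,0)]⟩⟩,[]⟩)) (.K ⟨2,[0,0,0,1],0,0,(⟨0,[(14,0)]⟩,⟨1,[(13,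
  0),(8,0),(0,0)]⟩),.k,(.r (-1) ⟨1,[(12,0),(17,1),(0,0)]⟩ ⟨0,[(3,0)]⟩),(.r 0 ⟨0,[(0,1),(2,0),(1,3),
  (0,1),(1,1),(5,1),(8,1),(2,1)]⟩ ⟨1,[(11,0),(18,1),(0,0)]⟩),.k,.k,[⟨0,[(0,0)]⟩,⟨0,[(3,0),(10,0),
  (13,0),(1,0)]⟩,⟨1,[(14,1),(4,0),(0,0)]⟩,⟨1,[(13,0),(2,0),(2,0)]⟩]⟩))) (.K ⟨2,[1,0,0,-1],0,0,(⟨1,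
  [(11,0),(8,0),(0,0)]⟩,⟨0,[(12,0)]⟩),.k,(.x 0 ⟨1,[(1,0),(0,0),(0,1),(19,1)]⟩ ⟨3,[(9,0),(0,0),(13,
  3),(4,1)]⟩),(.r 0 ⟨0,[(1,0)]⟩ ⟨1,[(10,0),(17,1),(0,0)]⟩),.k,.k,[⟨0,[(0,0)]⟩,⟨1,[(2,1),(8,0),(8,0),
  (0,0),(4,1),(1,1)]⟩,⟨3,[(7,1),(3,1),(4,1),(0,0),(0,0),(6,1)]⟩,⟨3,[(0,1),(1,1),(0,1),(4,0),(3,1),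
  (1,0),(2,0)]⟩]⟩)) (.Q [0,0,0,0,0,-1,0,0,0,1,0,-1] (.p false [0,0,0,1] [1] (⟨0,[(11,0)]⟩,⟨1,[(10,
  0),(8,0),(0,0)]⟩) .k 1 (⟨0,[]⟩,⟨0,[]⟩) .k .k) (.Q [0,-1,0,1,0,0,1,1,1,1,-1,-1] (.p false [0,0,1]
  [1,0,0,-1] (⟨0,[(21,0)]⟩,⟨0,[(20,0)]⟩) .k 2 (⟨1,[(11,0),(8,0),(0,0)]⟩,⟨0,[(12,0)]⟩) .k (.r 0 ⟨3,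
  [(1,3),(2,1),(3,0),(5,2),(3,0)]⟩ ⟨3,[(9,2),(0,0),(8,3)]⟩)) (.R ⟨1,false,false,false,[1,0,0,-1],[0,
  0,1],[0,0,0,-1,0,0,0,0,-1],(⟨1,[(12,0),(8,0),(0,0)]⟩,⟨0,[(13,0)]⟩),(⟨0,[(22,0)]⟩,⟨0,[(21,0)]⟩),⟨0,
  [(1,0)]⟩,.k,.k,(.r (-1) ⟨1,[(10,0),(18,1),(0,0)]⟩ ⟨0,[(0,0),(0,1),(2,1),(0,0),(7,2),(1,1),(4,1),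
  (4,1),(1,0)]⟩),.k,(.r (-1) ⟨1,[(10,0),(9,1),(8,1),(0,0)]⟩ ⟨3,[(2,1),(0,1),(1,1),(3,0),(5,2),(3,
  0)]⟩),.k,⟨false,1,⟨1,[(10,0),(9,1),(8,1),(0,0)]⟩,⟨0,[(2,0),(2,0),(9,0)]⟩⟩,⟨true,0,⟨1,[(9,0),(2,0),
  (7,1)]⟩,⟨0,[(13,0),(1,0)]⟩⟩,⟨true,0,⟨0,[(29,0)]⟩,⟨0,[(28,0)]⟩⟩,⟨false,0,⟨5,[(0,3),(1,1),(6,0),(2,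
  0),(13,1)]⟩,⟨1,[(10,0),(2,1),(0,1),(16,0)]⟩⟩,⟨false,1,⟨3,[(10,0),(0,0),(19,1)]⟩,⟨0,[]⟩⟩,⟨false,0,
  ⟨0,[(0,0)]⟩,⟨1,[(10,0),(2,1),(0,1),(14,1),(1,0)]⟩⟩,[.o ⟨false,0,⟨2,[(4,1),(0,0),(3,0)]⟩,⟨1,[(17,
  1),(5,0),(7,0)]⟩⟩,.o ⟨false,1,⟨7,[(9,3),(0,0),(0,0),(11,1),(7,3)]⟩,⟨0,[(14,0)]⟩⟩,.a ⟨true,0,⟨0,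
  [(13,0)]⟩,⟨1,[(12,0),(8,0),(0,0)]⟩⟩ ⟨false,1,⟨1,[(10,0),(18,1),(1,0)]⟩,⟨0,[(0,0),(12,0),(0,0)]⟩⟩
  ⟨true,0,⟨1,[(9,0),(2,0)]⟩,⟨0,[(13,0),(0,0)]⟩⟩,.o ⟨false,0,⟨0,[(6,0),(6,0),(1,0)]⟩,⟨7,[(10,0),(0,
  0),(0,3),(10,1),(6,3)]⟩⟩]⟩) (.Q [0,-1,0,-2,0,0,0,0,1,0,0,-1] (.p false [0,0,0,1] [] (⟨0,[(13,0)]⟩,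
  ⟨1,[(12,0),(8,0),(0,0)]⟩) .k 0 (⟨0,[]⟩,⟨0,[]⟩) .k .k) (.R ⟨1,true,false,false,[1,0,-1],[0,0,0,1],
  [0,0,0,-1,0,0,0,-1],(⟨0,[(22,0)]⟩,⟨0,[(23,0)]⟩),(⟨0,[(14,0)]⟩,⟨1,[(13,0),(8,0),(0,0)]⟩),⟨0,[(8,
  0)]⟩,.k,.k,.k,.k,(.r (-1) ⟨1,[(11,0),(9,1),(8,1),(0,0)]⟩ ⟨3,[(3,1),(0,1),(1,1),(3,0),(5,2),(3,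
  0)]⟩),.k,⟨false,1,⟨1,[(11,0),(9,1),(8,1),(0,0)]⟩,⟨0,[(3,0),(2,0),(9,0)]⟩⟩,⟨true,0,⟨1,[(10,0),(2,
  0),(7,1)]⟩,⟨0,[(14,0),(1,0)]⟩⟩,⟨true,0,⟨0,[(30,0)]⟩,⟨0,[(29,0)]⟩⟩,⟨false,0,⟨0,[(0,0),(5,0)]⟩,⟨1,
  [(11,0),(2,1),(0,1),(16,0)]⟩⟩,⟨false,1,⟨3,[(11,0),(0,0),(19,1)]⟩,⟨0,[]⟩⟩,⟨true,0,⟨4,[(0,0),(2,1),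
  (0,1),(0,0),(0,3),(6,1),(3,0)]⟩,⟨0,[(1,0)]⟩⟩,[]⟩) (.Q [0,-1,0,0,1,0,-1,-1,-1,-1,1,1] (.p true [0,
  0,1] [1,0,0,-1] (⟨0,[(23,0)]⟩,⟨0,[(22,0)]⟩) .k 2 (⟨1,[(13,0),(8,0),(0,0)]⟩,⟨0,[(14,0)]⟩) .k (.r 0
  ⟨3,[(3,3),(2,1),(3,0),(5,2),(3,0)]⟩ ⟨3,[(11,2),(0,0),(8,3)]⟩)) (.R ⟨1,false,false,true,[1,0,0,-1],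
  [0,0,1],[0,1,0,-1,0,0,0,0,-1],(⟨1,[(14,0),(8,0),(0,0)]⟩,⟨0,[(15,0)]⟩),(⟨0,[(24,0)]⟩,⟨0,[(23,0)]⟩),
  ⟨0,[(3,0)]⟩,.k,.k,(.r (-1) ⟨1,[(12,0),(18,1),(0,0)]⟩ ⟨0,[(4,0),(1,1),(0,1),(1,1),(7,1),(4,1),(1,
  1),(2,1)]⟩),.k,(.r (-1) ⟨1,[(12,0),(9,1),(8,1),(0,0)]⟩ ⟨3,[(4,1),(0,1),(1,1),(3,0),(5,2),(3,0)]⟩),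
  .k,⟨false,1,⟨1,[(12,0),(9,1),(8,1),(0,0)]⟩,⟨0,[(4,0),(2,0),(9,0)]⟩⟩,⟨true,0,⟨1,[(11,0),(2,0),(7,
  1)]⟩,⟨0,[(15,0),(1,0)]⟩⟩,⟨false,0,⟨0,[(31,0)]⟩,⟨9,[(1,3),(3,1),(7,0),(0,1),(10,0),(6,0),(0,6)]⟩⟩,
  ⟨false,0,⟨1,[(4,0),(0,0),(5,0),(2,0)]⟩,⟨0,[(0,0)]⟩⟩,⟨true,0,⟨0,[(35,0)]⟩,⟨0,[]⟩⟩,⟨false,0,⟨5,[(4,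
  2),(0,2),(0,1),(0,3),(3,0),(2,2)]⟩,⟨0,[(0,0),(30,0)]⟩⟩,[.o ⟨false,0,⟨0,[(18,0)]⟩,⟨0,[(16,0),(16,
  0)]⟩⟩,.o ⟨false,0,⟨2,[(6,1),(0,0),(3,0)]⟩,⟨3,[(0,1),(12,0),(0,0),(1,0),(2,0),(5,0)]⟩⟩,.a ⟨true,0,
  ⟨0,[(15,0)]⟩,⟨1,[(14,0),(8,0),(0,0)]⟩⟩ ⟨true,0,⟨1,[(2,1),(8,0),(2,0)]⟩,⟨0,[(4,0),(2,0),(9,0),(4,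
  0)]⟩⟩ ⟨false,0,⟨1,[(11,0),(2,0)]⟩,⟨1,[(0,1),(3,0),(0,0)]⟩⟩,.o ⟨false,0,⟨1,[(1,0),(3,0),(0,1),(8,
  0),(12,0)]⟩,⟨7,[(12,0),(0,0),(0,3),(10,1),(6,3)]⟩⟩]⟩) (.R ⟨1,true,false,false,[1,0,-1],[0,0,0,1],
  [0,0,0,-1,0,0,0,-1],(⟨0,[(23,0)]⟩,⟨0,[(24,0)]⟩),(⟨0,[(15,0)]⟩,⟨1,[(14,0),(8,0),(0,0)]⟩),⟨0,[(9,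
  0)]⟩,.k,.k,.k,.k,(.r (-1) ⟨1,[(12,0),(9,1),(8,1),(0,0)]⟩ ⟨3,[(4,1),(0,1),(1,1),(3,0),(5,2),(3,
  0)]⟩),.k,⟨false,1,⟨1,[(12,0),(9,1),(8,1),(0,0)]⟩,⟨0,[(4,0),(2,0),(9,0)]⟩⟩,⟨true,0,⟨1,[(11,0),(2,
  0),(7,1)]⟩,⟨0,[(15,0),(1,0)]⟩⟩,⟨true,0,⟨0,[(31,0)]⟩,⟨0,[(30,0)]⟩⟩,⟨false,0,⟨0,[(0,0),(32,0)]⟩,⟨11,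
  [(1,3),(0,7),(9,0),(0,0),(5,3),(5,1),(7,7)]⟩⟩,⟨false,1,⟨3,[(12,0),(0,0),(19,1)]⟩,⟨0,[]⟩⟩,⟨true,0,
  ⟨9,[(0,5),(4,1),(1,3),(5,0),(0,1),(10,0),(6,0),(0,2)]⟩,⟨0,[(2,0)]⟩⟩,[]⟩)))) (.I [0,0,-1,-1,0,0,0,
  0,1] (.I [1,-1,0,-1,0,0,0,0,1] (.R ⟨0,false,false,false,[0,0,0,1],[1,-1],[1,0,0,-1,0,0,0,0,1],(⟨0,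
  [(14,0)]⟩,⟨1,[(13,0),(8,0),(0,0)]⟩),(⟨0,[(25,0)]⟩,⟨0,[(26,0)]⟩),⟨0,[(2,0),(10,0)]⟩,.k,.k,(.r 0 ⟨0,
  [(1,0)]⟩ ⟨0,[(4,0),(6,0)]⟩),(.r 0 ⟨0,[(1,0),(3,1),(0,1),(1,1),(7,1),(4,1),(1,1),(2,1)]⟩ ⟨1,[(11,
  0),(18,1),(0,0)]⟩),.k,.k,⟨false,0,⟨1,[(3,0),(0,0)]⟩,⟨1,[(11,0),(19,0)]⟩⟩,⟨true,0,⟨0,[(7,0),(6,0),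
  (1,0)]⟩,⟨1,[(13,0),(8,0),(0,0)]⟩⟩,⟨true,0,⟨0,[(30,0)]⟩,⟨0,[(29,0)]⟩⟩,⟨false,1,⟨1,[(5,1),(5,0),(2,
  1),(17,0)]⟩,⟨1,[(0,1),(5,1),(6,0),(1,0),(2,0)]⟩⟩,⟨false,0,⟨0,[]⟩,⟨0,[]⟩⟩,⟨false,0,⟨0,[]⟩,⟨0,[]⟩⟩,
  [.o ⟨false,0,⟨0,[(5,0)]⟩,⟨3,[(11,0),(0,0),(16,3),(2,1)]⟩⟩,.o ⟨false,1,⟨1,[(24,0),(5,1),(1,0)]⟩,⟨0,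
  [(29,0)]⟩⟩,.a ⟨true,0,⟨1,[(13,0),(8,0),(0,0)]⟩,⟨0,[(14,0)]⟩⟩ ⟨false,0,⟨0,[(0,0)]⟩,⟨1,[(11,0),(17,
  1),(2,0)]⟩⟩ ⟨true,0,⟨0,[(5,0),(8,0)]⟩,⟨1,[(9,0),(3,0),(4,0),(10,0)]⟩⟩,.o ⟨false,0,⟨1,[(13,0),(2,
  0),(2,0)]⟩,⟨1,[(14,1),(9,0),(6,0)]⟩⟩]⟩) (.R ⟨0,false,false,true,[0,0,0,1],[0,1],[1,1,0,0,0,0,0,0,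
  1],(⟨0,[(14,0)]⟩,⟨1,[(13,0),(8,0),(0,0)]⟩),(⟨0,[(26,0)]⟩,⟨0,[(25,0)]⟩),⟨0,[(2,0),(10,0)]⟩,.k,.k,
  (.r 0 ⟨0,[(1,0)]⟩ ⟨0,[(4,0),(6,0)]⟩),(.r 0 ⟨0,[(1,0)]⟩ ⟨0,[(4,0),(6,0)]⟩),.k,.k,⟨true,0,⟨0,[(3,
  0)]⟩,⟨2,[(0,3),(3,0),(1,0),(9,0),(4,0),(5,3)]⟩⟩,⟨false,1,⟨0,[(14,0),(16,0)]⟩,⟨1,[(13,0),(2,0),(2,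
  0)]⟩⟩,⟨false,0,⟨0,[]⟩,⟨3,[(11,0),(0,0),(19,1)]⟩⟩,⟨true,0,⟨0,[(0,0),(13,0)]⟩,⟨7,[(3,4),(0,2),(0,3),
  (7,3),(13,1),(6,1)]⟩⟩,⟨false,0,⟨0,[]⟩,⟨0,[]⟩⟩,⟨false,0,⟨0,[]⟩,⟨0,[]⟩⟩,[.o ⟨false,0,⟨0,[(29,0)]⟩,
  ⟨1,[(24,0),(5,1),(1,0)]⟩⟩,.o ⟨false,1,⟨3,[(11,0),(0,0),(16,3),(2,1)]⟩,⟨0,[(5,0)]⟩⟩,.a ⟨true,0,⟨1,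
  [(13,0),(8,0),(0,0)]⟩,⟨0,[(14,0)]⟩⟩ ⟨false,0,⟨1,[(3,0),(0,0)]⟩,⟨1,[(11,0),(20,0)]⟩⟩ ⟨true,0,⟨0,
  [(14,0),(14,0)]⟩,⟨1,[(5,0),(7,0),(16,0)]⟩⟩,.o ⟨false,0,⟨1,[(13,0),(2,0),(2,0)]⟩,⟨1,[(14,1),(9,0),
  (6,0)]⟩⟩]⟩)) (.R ⟨0,false,false,true,[0,0,0,1],[0,1],[1,1,1,1],(⟨0,[(13,0)]⟩,⟨1,[(12,0),(8,0),(0,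
  0)]⟩),(⟨0,[(25,0)]⟩,⟨0,[(24,0)]⟩),⟨0,[(1,0),(10,0)]⟩,.k,.k,(.x 0 ⟨1,[(0,0),(2,0),(0,1),(19,1)]⟩
  ⟨3,[(10,0),(0,0),(13,3),(4,1)]⟩),(.x 0 ⟨1,[(0,0),(2,0),(0,1),(19,1)]⟩ ⟨3,[(10,0),(0,0),(13,3),(4,
  1)]⟩),.k,.k,⟨true,0,⟨0,[]⟩,⟨1,[(18,0),(0,0)]⟩⟩,⟨false,1,⟨0,[(13,0),(16,0)]⟩,⟨1,[(12,0),(2,0),(2,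
  0)]⟩⟩,⟨false,0,⟨0,[(0,0)]⟩,⟨3,[(2,1),(8,0),(17,1),(0,0),(0,1)]⟩⟩,⟨true,0,⟨0,[(0,0),(12,0),(13,
  0)]⟩,⟨7,[(2,4),(0,2),(0,3),(7,3),(13,1),(6,1)]⟩⟩,⟨false,0,⟨0,[]⟩,⟨0,[]⟩⟩,⟨false,0,⟨0,[]⟩,⟨0,[]⟩⟩,
  [.o ⟨false,0,⟨0,[(28,0)]⟩,⟨1,[(23,0),(5,1),(1,0)]⟩⟩,.o ⟨false,1,⟨3,[(10,0),(0,0),(16,3),(2,1)]⟩,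
  ⟨0,[(4,0)]⟩⟩,.a ⟨true,0,⟨1,[(12,0),(8,0),(0,0)]⟩,⟨0,[(13,0)]⟩⟩ ⟨false,0,⟨1,[(0,0),(2,0)]⟩,⟨1,[(29,
  1),(0,0),(0,0)]⟩⟩ ⟨true,0,⟨0,[(13,0),(14,0)]⟩,⟨1,[(4,0),(7,0),(16,0)]⟩⟩,.o ⟨false,0,⟨1,[(12,0),(2,
  0),(2,0)]⟩,⟨1,[(13,1),(9,0),(6,0)]⟩⟩]⟩))))))))

theorem ok1 : chk (cU (-1) false 3) t1 l1 = true := by decide +kernel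

noncomputable def t2 : Tre :=
  (.Q [0,0,-1,-1,0,0,1,0,0,1,-1] (.p false [0,0,1] [1] (⟨0,[(15,0)]⟩,⟨0,[(14,0)]⟩) .k 1 (⟨0,[]⟩,⟨0,
  []⟩) .k .k) (.Q [0,0,-1,0,0,0,1,0,0,2,-1] (.p false [-1,1,1] [1] (⟨0,[(1,0)]⟩,⟨0,[(15,0),(2,0)]⟩)
  .k 1 (⟨0,[]⟩,⟨0,[]⟩) .k .k) (.R ⟨0,false,false,true,[-1,1,1],[0,1],[1,1,1],(⟨0,[(2,0)]⟩,⟨0,[(16,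
  0),(2,0)]⟩),(⟨0,[(20,0)]⟩,⟨0,[(19,0)]⟩),⟨0,[(16,0)]⟩,.k,.k,.k,.k,.k,.k,⟨true,0,⟨0,[(24,0)]⟩,⟨0,
  [(3,0),(6,0),(4,0)]⟩⟩,⟨false,1,⟨0,[(10,0),(14,0)]⟩,⟨1,[(0,0),(12,0)]⟩⟩,⟨false,0,⟨1,[(1,0),(7,0),
  (5,0),(5,0)]⟩,⟨1,[(3,1),(6,1),(14,0),(0,0)]⟩⟩,⟨true,0,⟨0,[(9,0)]⟩,⟨3,[(0,0),(3,1),(9,0)]⟩⟩,⟨false,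
  0,⟨0,[]⟩,⟨0,[]⟩⟩,⟨false,0,⟨0,[]⟩,⟨0,[]⟩⟩,[.o ⟨false,0,⟨0,[(23,0)]⟩,⟨1,[(18,0),(5,1),(1,0)]⟩⟩,.e
  ⟨false,0,⟨0,[]⟩,⟨3,[(5,0),(0,0),(18,1)]⟩⟩ ⟨false,1,⟨1,[(10,1),(12,1),(1,0),(0,0)]⟩,⟨0,[(1,0)]⟩⟩,
  .a ⟨true,0,⟨0,[(0,0)]⟩,⟨0,[(10,0)]⟩⟩ ⟨false,0,⟨1,[(13,0),(0,0)]⟩,⟨1,[(25,0),(0,0)]⟩⟩ ⟨true,0,⟨0,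
  [(10,0),(12,0)]⟩,⟨0,[(1,0)]⟩⟩,.o ⟨false,0,⟨1,[(0,0),(12,0)]⟩,⟨1,[(10,1),(7,0),(6,0)]⟩⟩]⟩) (.I [0,
  1,1,0,-1,0,0,0,-1] (.Q [0,1,0,0,-1,0,1,1,-1,0,-1,1] (.p false [0,0,1] [0,0,0,1] (⟨0,[(18,0)]⟩,⟨0,
  [(17,0)]⟩) .k 2 (⟨0,[(9,0)]⟩,⟨1,[(8,0),(8,0),(0,0)]⟩) .k (.x 0 ⟨0,[(1,0),(0,0),(1,0),(11,0),(1,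
  0)]⟩ ⟨1,[(15,1),(1,1),(1,0),(6,0)]⟩)) (.Q [0,0,0,0,0,1,0,0,0,0,0,-1] (.p false [0,0,0,1] [] (⟨0,
  [(10,0)]⟩,⟨1,[(9,0),(8,0),(0,0)]⟩) .k 0 (⟨0,[]⟩,⟨0,[]⟩) .k .k) (.R ⟨0,false,false,true,[0,0,0,1],
  [0,0,1],[0,1,0,0,0,0,0,1],(⟨0,[(11,0)]⟩,⟨1,[(10,0),(8,0),(0,0)]⟩),(⟨0,[(20,0)]⟩,⟨0,[(19,0)]⟩),⟨0,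
  [(0,0)]⟩,.k,.k,(.r (-1) ⟨1,[(9,0),(17,1),(0,0)]⟩ ⟨0,[(2,0),(23,0),(2,0)]⟩),.k,.k,.k,⟨false,1,⟨3,
  [(8,0),(0,0),(18,1)]⟩,⟨0,[]⟩⟩,⟨true,0,⟨1,[(1,1),(7,0),(8,1),(10,0)]⟩,⟨3,[(3,0),(6,1),(6,2)]⟩⟩,
  ⟨false,0,⟨3,[(1,3),(1,0),(6,1),(6,2),(10,1),(0,1)]⟩,⟨1,[(9,0),(8,1),(10,0)]⟩⟩,⟨true,(-1),⟨0,[(1,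
  0)]⟩,⟨1,[(9,0),(0,0),(1,0),(2,0),(13,0)]⟩⟩,⟨false,0,⟨0,[]⟩,⟨0,[]⟩⟩,⟨false,0,⟨0,[]⟩,⟨0,[]⟩⟩,[.o
  ⟨false,0,⟨0,[(14,0)]⟩,⟨0,[(12,0),(16,0)]⟩⟩,.o ⟨false,0,⟨0,[(3,0),(0,0),(1,0)]⟩,⟨1,[(15,1),(5,0),
  (7,0)]⟩⟩,.a ⟨true,0,⟨1,[(10,0),(8,0),(0,0)]⟩,⟨0,[(11,0)]⟩⟩ ⟨true,0,⟨3,[(3,0),(3,1),(9,2),(7,3)]⟩,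
  ⟨0,[(18,0)]⟩⟩ ⟨false,0,⟨1,[(1,1),(7,0),(19,0)]⟩,⟨1,[(10,0),(1,0),(2,0),(13,1)]⟩⟩,.o ⟨false,0,⟨3,
  [(3,0),(6,1),(5,1),(0,0)]⟩,⟨1,[(11,1),(9,0),(6,0)]⟩⟩]⟩) (.Q [0,-1,0,0,0,0,0,0,-1,0,0,1] (.p true
  [0,0,0,1] [] (⟨0,[(11,0)]⟩,⟨1,[(10,0),(8,0),(0,0)]⟩) .k 0 (⟨0,[]⟩,⟨0,[]⟩) .k .k) (.R ⟨1,false,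
  false,true,[1,0,0,-1],[2,-1,-1],[1,1,0,0,0,0,0,0,-1],(⟨1,[(11,0),(8,0),(0,0)]⟩,⟨0,[(12,0)]⟩),(⟨0,
  [(20,0),(2,0)]⟩,⟨0,[(6,0)]⟩),⟨0,[(1,0),(9,0)]⟩,.k,.k,(.r 0 ⟨1,[(0,1),(3,0),(0,0),(5,0),(14,1),(1,
  0)]⟩ ⟨1,[(10,0),(6,0),(0,0),(8,1),(2,0)]⟩),(.r 0 ⟨19,[(0,7),(1,3),(1,10),(2,15),(1,3),(1,5),(6,8),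
  (8,3)]⟩ ⟨1,[(5,1),(4,0),(2,1),(16,0)]⟩),.k,.k,⟨false,0,⟨3,[(0,3),(3,2),(2,3),(3,1),(6,0),(7,3)]⟩,
  ⟨1,[(5,1),(4,0),(2,1),(16,0)]⟩⟩,⟨true,0,⟨3,[(4,2),(6,1),(6,0)]⟩,⟨4,[(5,1),(1,2),(4,4),(3,0),(0,0),
  (1,1),(5,0)]⟩⟩,⟨false,0,⟨0,[]⟩,⟨3,[(9,0),(0,0),(19,1)]⟩⟩,⟨false,1,⟨1,[(4,0),(0,0),(4,0),(0,0),(1,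
  1),(14,0),(1,0)]⟩,⟨0,[(0,0),(6,0)]⟩⟩,⟨true,0,⟨0,[(27,0)]⟩,⟨0,[(28,0)]⟩⟩,⟨false,1,⟨3,[(4,1),(5,1),
  (0,1),(1,1),(5,1),(9,0),(0,0)]⟩,⟨2,[(0,2),(4,0),(1,0),(0,0),(9,0)]⟩⟩,[.o ⟨false,0,⟨0,[(4,0),(0,0),
  (7,0)]⟩,⟨3,[(7,3),(1,0),(0,0),(19,1)]⟩⟩,.o ⟨false,1,⟨1,[(13,1),(8,0),(5,1),(1,0)]⟩,⟨0,[(7,0)]⟩⟩,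
  .a ⟨true,0,⟨0,[(12,0)]⟩,⟨1,[(11,0),(8,0),(0,0)]⟩⟩ ⟨false,0,⟨9,[(0,3),(2,3),(5,0),(1,1),(10,0),(6,
  1)]⟩,⟨1,[(10,0),(19,0)]⟩⟩ ⟨true,0,⟨1,[(4,0),(0,0),(5,0),(1,1),(14,0)]⟩,⟨0,[(7,0),(4,0)]⟩⟩,.o
  ⟨false,0,⟨1,[(4,0),(7,1),(4,0)]⟩,⟨7,[(9,0),(0,0),(0,3),(10,1),(6,3)]⟩⟩]⟩) (.Q [0,1,0,-1,0,0,-1,-1,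
  1,0,1,-1] (.p true [0,0,1] [0,0,0,1] (⟨0,[(21,0)]⟩,⟨0,[(20,0)]⟩) .k 2 (⟨0,[(12,0)]⟩,⟨1,[(11,0),(8,
  0),(0,0)]⟩) .k (.r 0 ⟨3,[(2,3),(1,0),(6,1),(6,2),(10,1),(0,1)]⟩ ⟨3,[(9,0),(0,2),(8,3)]⟩)) (.R ⟨1,
  true,false,false,[0,0,0,1],[0,0,1],[1,0,0,0,0,0,0,0,1],(⟨0,[(13,0)]⟩,⟨1,[(12,0),(8,0),(0,0)]⟩),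
  (⟨0,[(22,0)]⟩,⟨0,[(21,0)]⟩),⟨0,[(2,0)]⟩,.k,.k,(.r (-1) ⟨1,[(11,0),(17,1),(0,0)]⟩ ⟨0,[(4,0),(23,0),
  (2,0)]⟩),.k,(.r (-1) ⟨1,[(6,1),(4,0),(2,1),(16,0)]⟩ ⟨1,[(4,1),(0,0),(2,1),(10,0),(10,0),(0,0)]⟩),
  .k,⟨false,1,⟨1,[(11,0),(8,1),(9,0)]⟩,⟨3,[(3,3),(1,0),(6,1),(6,2),(10,1),(0,1)]⟩⟩,⟨true,0,⟨1,[(3,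
  1),(7,0),(8,1),(10,0)]⟩,⟨3,[(5,0),(6,1),(6,2)]⟩⟩,⟨true,0,⟨0,[]⟩,⟨0,[(33,0)]⟩⟩,⟨false,0,⟨0,[(3,0),
  (27,0)]⟩,⟨1,[(11,0),(0,0),(1,0),(2,0),(13,0)]⟩⟩,⟨false,1,⟨0,[(28,0),(2,0)]⟩,⟨0,[(29,0)]⟩⟩,⟨true,0,
  ⟨0,[(3,0),(24,0),(2,0)]⟩,⟨0,[(0,0)]⟩⟩,[]⟩) (.R ⟨1,false,false,false,[0,0,0,1],[0,0,1],[0,0,0,-1,0,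
  0,0,0,1],(⟨0,[(13,0)]⟩,⟨1,[(12,0),(8,0),(0,0)]⟩),(⟨0,[(22,0)]⟩,⟨0,[(21,0)]⟩),⟨0,[(2,0)]⟩,.k,.k,
  (.r (-1) ⟨1,[(11,0),(17,1),(0,0)]⟩ ⟨0,[(4,0),(23,0),(2,0)]⟩),.k,(.r (-1) ⟨1,[(6,1),(4,0),(2,1),
  (16,0)]⟩ ⟨19,[(0,7),(2,3),(1,6),(2,7),(1,3),(1,5),(6,12),(8,3)]⟩),.k,⟨false,1,⟨1,[(6,1),(4,0),(2,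
  1),(16,0)]⟩,⟨3,[(0,3),(4,0),(6,1),(6,2),(7,3)]⟩⟩,⟨true,0,⟨5,[(0,1),(2,1),(1,0),(0,1),(4,1),(1,1),
  (4,0),(1,3)]⟩,⟨3,[(5,0),(6,1),(6,2)]⟩⟩,⟨true,0,⟨0,[(29,0)]⟩,⟨0,[(28,0)]⟩⟩,⟨false,0,⟨0,[(3,0),(27,
  0)]⟩,⟨1,[(11,0),(0,0),(1,0),(2,0),(13,0)]⟩⟩,⟨false,1,⟨3,[(10,0),(0,0),(19,1)]⟩,⟨0,[]⟩⟩,⟨false,0,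
  ⟨0,[(0,0)]⟩,⟨1,[(11,0),(0,0),(1,0),(2,0),(11,1),(1,0)]⟩⟩,[.o ⟨false,0,⟨2,[(0,0),(0,0),(3,0),(0,0),
  (2,0)]⟩,⟨1,[(17,1),(5,0),(7,0)]⟩⟩,.o ⟨false,1,⟨7,[(9,3),(0,0),(0,0),(11,1),(7,3)]⟩,⟨0,[(14,0)]⟩⟩,
  .a ⟨true,0,⟨1,[(12,0),(8,0),(0,0)]⟩,⟨0,[(13,0)]⟩⟩ ⟨false,1,⟨1,[(11,0),(17,1),(1,0)]⟩,⟨1,[(0,1),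
  (11,0),(1,0),(2,0)]⟩⟩ ⟨true,0,⟨1,[(3,1),(7,0),(19,0)]⟩,⟨1,[(12,0),(1,0),(2,0)]⟩⟩,.o ⟨false,0,⟨3,
  [(5,0),(6,1),(5,1),(0,0)]⟩,⟨1,[(13,1),(9,0),(6,0)]⟩⟩]⟩)))) (.Q [0,0,0,1,0,0,0,0,-1,0,0,1] (.p
  true [0,0,0,1] [] (⟨0,[(10,0)]⟩,⟨1,[(9,0),(8,0),(0,0)]⟩) .k 0 (⟨0,[]⟩,⟨0,[]⟩) .k .k) (.Q [0,0,0,0,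
  0,1,0,0,0,0,0,-1] (.p false [0,0,0,1] [] (⟨0,[(11,0)]⟩,⟨1,[(10,0),(8,0),(0,0)]⟩) .k 0 (⟨0,[]⟩,⟨0,
  []⟩) .k .k) (.R ⟨0,false,false,true,[0,0,0,1],[0,1],[1,1,1],(⟨0,[(12,0)]⟩,⟨1,[(11,0),(8,0),(0,
  0)]⟩),(⟨0,[(24,0)]⟩,⟨0,[(23,0)]⟩),⟨0,[(0,0)]⟩,.k,.k,(.r (-1) ⟨1,[(10,0),(17,1),(0,0)]⟩ ⟨3,[(1,3),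
  (2,0),(6,1),(5,1),(0,0)]⟩),(.r (-1) ⟨1,[(10,0),(17,1),(0,0)]⟩ ⟨3,[(1,3),(2,0),(6,1),(5,1),(0,
  0)]⟩),.k,.k,⟨true,0,⟨0,[(28,0)]⟩,⟨1,[(4,0),(2,1),(10,0),(0,1)]⟩⟩,⟨false,1,⟨0,[(12,0),(16,0)]⟩,⟨3,
  [(4,0),(6,1),(5,1),(0,0)]⟩⟩,⟨true,(-1),⟨0,[(3,0)]⟩,⟨1,[(10,0),(18,0)]⟩⟩,⟨false,0,⟨0,[(1,0)]⟩,⟨1,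
  [(2,1),(1,0),(0,0),(2,0),(19,0)]⟩⟩,⟨false,0,⟨0,[]⟩,⟨0,[]⟩⟩,⟨false,0,⟨0,[]⟩,⟨0,[]⟩⟩,[.o ⟨false,0,
  ⟨0,[(27,0)]⟩,⟨1,[(22,0),(5,1),(1,0)]⟩⟩,.o ⟨false,1,⟨3,[(9,0),(0,0),(16,3),(2,1)]⟩,⟨0,[(4,0),(0,
  0)]⟩⟩,.a ⟨true,0,⟨1,[(11,0),(8,0),(0,0)]⟩,⟨0,[(12,0)]⟩⟩ ⟨false,0,⟨1,[(17,0),(0,0)]⟩,⟨1,[(29,0),(0,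
  0)]⟩⟩ ⟨true,0,⟨0,[(12,0),(14,0)]⟩,⟨1,[(4,0),(0,0),(5,0),(16,0)]⟩⟩,.o ⟨false,0,⟨3,[(4,0),(6,1),(5,
  1),(0,0)]⟩,⟨1,[(12,1),(9,0),(6,0)]⟩⟩]⟩) (.I [0,-1,0,-1,0,0,0,0,-1] (.R ⟨1,false,false,false,[1,0,
  0,-1],[1,-1],[0,0,0,-1,0,0,0,0,-1],(⟨1,[(12,0),(8,0),(0,0)]⟩,⟨0,[(13,0)]⟩),(⟨0,[(24,0)]⟩,⟨0,[(25,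
  0)]⟩),⟨0,[(1,0),(10,0)]⟩,.k,.k,(.r 0 ⟨0,[(0,0),(26,0)]⟩ ⟨1,[(11,0),(6,0),(0,0),(8,1),(2,0)]⟩),(.r
  0 ⟨3,[(2,3),(2,0),(6,1),(5,1),(0,0)]⟩ ⟨1,[(11,0),(17,1),(0,0)]⟩),.k,.k,⟨false,0,⟨13,[(0,3),(1,3),
  (1,3),(5,0),(1,1),(10,0),(6,1)]⟩,⟨1,[(11,0),(18,0)]⟩⟩,⟨true,0,⟨3,[(5,0),(6,1),(5,1),(0,0)]⟩,⟨0,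
  [(13,0)]⟩⟩,⟨true,0,⟨0,[(29,0)]⟩,⟨0,[(28,0)]⟩⟩,⟨false,1,⟨1,[(3,1),(1,0),(0,0),(2,0),(19,0)]⟩,⟨0,
  [(2,0)]⟩⟩,⟨false,1,⟨3,[(10,0),(0,0),(19,1)]⟩,⟨0,[]⟩⟩,⟨false,1,⟨0,[(3,0),(1,0),(0,0),(1,0)]⟩,⟨6,
  [(0,1),(1,1),(1,0),(5,0),(2,4),(13,0)]⟩⟩,[.o ⟨false,0,⟨0,[(5,0),(0,0)]⟩,⟨3,[(10,0),(0,0),(16,3),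
  (2,1)]⟩⟩,.o ⟨false,1,⟨1,[(23,0),(5,1),(1,0)]⟩,⟨0,[(28,0)]⟩⟩,.a ⟨true,0,⟨0,[(13,0)]⟩,⟨1,[(12,0),(8,
  0),(0,0)]⟩⟩ ⟨false,0,⟨0,[(0,0)]⟩,⟨1,[(11,0),(16,1),(2,0)]⟩⟩ ⟨true,0,⟨1,[(5,0),(0,0),(5,0),(16,
  0)]⟩,⟨0,[(13,0),(14,0)]⟩⟩,.o ⟨false,0,⟨1,[(5,0),(7,1),(4,0)]⟩,⟨7,[(10,0),(0,0),(0,3),(10,1),(6,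
  3)]⟩⟩]⟩) (.Q [0,0,0,0,0,0,-1,-1,-1,-1,1,1] (.p true [0,0,1] [1,0,0,-1] (⟨0,[(22,0)]⟩,⟨0,[(21,
  0)]⟩) .k 2 (⟨1,[(12,0),(8,0),(0,0)]⟩,⟨0,[(13,0)]⟩) .k (.r (-1) ⟨3,[(5,0),(3,1),(1,1),(7,2),(10,
  1)]⟩ ⟨1,[(4,1),(15,1),(9,0),(0,0)]⟩)) (.K ⟨2,[1,0,0,-1],0,0,(⟨1,[(13,0),(8,0),(0,0)]⟩,⟨0,[(14,
  0)]⟩),.k,(.x 0 ⟨1,[(6,0),(12,0),(5,1)]⟩ ⟨3,[(11,0),(0,0),(13,3),(4,1)]⟩),(.r 0 ⟨3,[(3,3),(2,0),(6,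
  1),(5,1),(0,0)]⟩ ⟨1,[(12,0),(17,1),(0,0)]⟩),.k,.k,[⟨0,[(0,0)]⟩,⟨1,[(1,1),(5,0),(5,0),(6,0),(9,
  0)]⟩,⟨3,[(9,1),(3,1),(4,1),(0,0),(0,0),(6,1)]⟩,⟨1,[(6,0),(7,1),(4,0)]⟩]⟩) (.R ⟨1,false,false,
  false,[0,0,0,1],[1,0,-1],[1,1,0,0,0,0,0,0,1],(⟨0,[(14,0)]⟩,⟨1,[(13,0),(8,0),(0,0)]⟩),(⟨0,[(22,
  0)]⟩,⟨0,[(23,0)]⟩),⟨0,[(2,0)]⟩,.k,.k,(.r (-1) ⟨1,[(12,0),(17,1),(0,0)]⟩ ⟨3,[(3,3),(2,0),(6,1),(5,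
  1),(0,0)]⟩),.k,(.r (-1) ⟨1,[(0,1),(5,0),(7,1),(5,0),(9,1),(0,1)]⟩ ⟨5,[(3,5),(0,1),(0,1),(0,0),(6,
  1),(5,2),(1,3)]⟩),.k,⟨true,0,⟨1,[(0,1),(5,0),(7,1),(5,0),(7,1)]⟩,⟨0,[(5,0),(15,0),(10,0)]⟩⟩,
  ⟨false,1,⟨1,[(6,0),(7,1),(5,0),(10,1)]⟩,⟨1,[(10,0),(2,0),(7,1)]⟩⟩,⟨false,0,⟨0,[]⟩,⟨3,[(11,0),(0,
  0),(19,1)]⟩⟩,⟨false,1,⟨0,[(3,0),(11,0),(14,0),(1,0)]⟩,⟨0,[(0,0)]⟩⟩,⟨true,0,⟨0,[(29,0)]⟩,⟨0,[(30,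
  0)]⟩⟩,⟨false,1,⟨0,[(3,0),(11,0),(16,0)]⟩,⟨0,[(0,0),(29,0)]⟩⟩,[.o ⟨false,1,⟨3,[(4,1),(6,0),(2,1),
  (0,1),(8,0)]⟩,⟨0,[(6,0),(0,0),(1,0)]⟩⟩,.o ⟨false,1,⟨0,[(15,0),(16,0)]⟩,⟨0,[(17,0)]⟩⟩,.a ⟨true,0,
  ⟨1,[(13,0),(8,0),(0,0)]⟩,⟨0,[(14,0)]⟩⟩ ⟨true,0,⟨0,[(1,0),(28,0)]⟩,⟨1,[(5,1),(25,0),(0,0)]⟩⟩
  ⟨false,1,⟨0,[(14,0),(0,0),(16,0)]⟩,⟨1,[(10,0),(2,0)]⟩⟩,.o ⟨false,0,⟨3,[(6,0),(6,1),(5,1),(0,0)]⟩,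
  ⟨1,[(14,1),(9,0),(6,0)]⟩⟩]⟩)))) (.R ⟨2,true,false,false,[0,1],[0,0,0,1],[0,0,0,0,0,0,0,0,1],(⟨0,
  []⟩,⟨0,[]⟩),(⟨0,[(11,0)]⟩,⟨1,[(10,0),(8,0),(0,0)]⟩),⟨0,[]⟩,.k,.k,.k,(.r 0 ⟨0,[(2,0),(23,0),(2,
  0)]⟩ ⟨1,[(9,0),(17,1),(0,0)]⟩),.k,.k,⟨false,1,⟨3,[(8,0),(0,0),(18,1)]⟩,⟨0,[]⟩⟩,⟨true,0,⟨3,[(3,0),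
  (6,1),(5,1),(0,0)]⟩,⟨0,[(11,0)]⟩⟩,⟨false,1,⟨1,[(0,1),(10,1),(16,0),(0,0)]⟩,⟨0,[(2,0),(23,0),(2,
  0)]⟩⟩,⟨true,0,⟨0,[(0,0)]⟩,⟨1,[(2,1),(8,1),(14,1),(1,0),(0,0)]⟩⟩,⟨true,1,⟨1,[(9,0),(18,0)]⟩,⟨0,[(2,
  0)]⟩⟩,⟨false,1,⟨3,[(0,1),(0,1),(4,1),(14,0),(7,0)]⟩,⟨1,[(2,1),(8,1),(16,0),(0,0)]⟩⟩,[]⟩))) (.I [0,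
  0,1,1,0,0,0,0,-1] (.Q [0,0,0,0,0,0,-1,-1,-1,-1,1,1] (.p true [0,0,1] [1,0,0,-1] (⟨0,[(19,0)]⟩,⟨0,
  [(18,0)]⟩) .k 2 (⟨1,[(9,0),(8,0),(0,0)]⟩,⟨0,[(10,0)]⟩) .k (.x 0 ⟨0,[(2,0),(0,0),(1,0),(11,0),(1,
  0)]⟩ ⟨1,[(16,1),(1,1),(1,0),(6,0)]⟩)) (.Q [0,1,0,0,0,0,0,0,1,1,0,-1] (.p false [0,0,0,1] [1] (⟨0,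
  [(11,0)]⟩,⟨1,[(10,0),(8,0),(0,0)]⟩) .k 1 (⟨0,[]⟩,⟨0,[]⟩) .k .k) (.K ⟨2,[1,0,0,-1],0,0,(⟨1,[(11,0),
  (8,0),(0,0)]⟩,⟨0,[(12,0)]⟩),.k,(.x 0 ⟨1,[(4,0),(12,0),(5,1)]⟩ ⟨3,[(9,0),(0,0),(13,3),(4,1)]⟩),(.r
  0 ⟨0,[(2,0)]⟩ ⟨1,[(10,0),(17,1),(0,0)]⟩),.k,.k,[⟨0,[(1,0)]⟩,⟨0,[(0,0)]⟩,⟨3,[(0,1),(1,1),(8,0),(8,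
  0),(0,0),(3,1)]⟩,⟨1,[(4,0),(7,1),(4,0)]⟩]⟩) (.Q [0,0,0,0,0,1,0,0,0,0,0,-1] (.p false [0,0,0,1] []
  (⟨0,[(12,0)]⟩,⟨1,[(11,0),(8,0),(0,0)]⟩) .k 0 (⟨0,[]⟩,⟨0,[]⟩) .k .k) (.R ⟨0,false,false,false,[0,0,
  0,1],[1,-1],[1,0,0,0,0,0,0,0,1],(⟨0,[(13,0)]⟩,⟨1,[(12,0),(8,0),(0,0)]⟩),(⟨0,[(24,0)]⟩,⟨0,[(25,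
  0)]⟩),⟨0,[(0,0)]⟩,.k,.k,(.r (-1) ⟨1,[(11,0),(17,1),(0,0)]⟩ ⟨0,[(3,0)]⟩),(.r (-1) ⟨0,[(3,0),(7,
  0)]⟩ ⟨1,[(1,1),(4,0),(5,0),(6,0),(7,1),(1,0)]⟩),.k,.k,⟨false,1,⟨1,[(11,0),(16,1),(2,0)]⟩,⟨1,[(1,
  1),(4,0),(5,0),(6,0),(7,1),(1,0)]⟩⟩,⟨true,0,⟨1,[(5,0),(7,1),(4,0)]⟩,⟨1,[(12,0),(8,0),(0,0)]⟩⟩,
  ⟨true,0,⟨0,[]⟩,⟨0,[(33,0)]⟩⟩,⟨false,0,⟨0,[(1,0),(27,0)]⟩,⟨1,[(8,0),(2,0),(0,0),(4,0),(10,0),(2,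
  0)]⟩⟩,⟨false,0,⟨0,[]⟩,⟨0,[]⟩⟩,⟨false,0,⟨0,[]⟩,⟨0,[]⟩⟩,[.o ⟨false,0,⟨0,[(5,0),(0,0)]⟩,⟨3,[(10,0),
  (0,0),(16,3),(2,1)]⟩⟩,.o ⟨false,1,⟨1,[(23,0),(5,1),(1,0)]⟩,⟨0,[(28,0)]⟩⟩,.a ⟨true,0,⟨1,[(12,0),(8,
  0),(0,0)]⟩,⟨0,[(13,0)]⟩⟩ ⟨false,1,⟨1,[(11,0),(19,0)]⟩,⟨1,[(2,1),(6,0),(2,0)]⟩⟩ ⟨true,0,⟨0,[(5,0),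
  (0,0),(6,0)]⟩,⟨1,[(8,0),(3,0),(4,0),(10,0)]⟩⟩,.o ⟨false,0,⟨3,[(5,0),(6,1),(5,1),(0,0)]⟩,⟨1,[(13,
  1),(9,0),(6,0)]⟩⟩]⟩) (.R ⟨1,false,false,false,[0,0,0,1],[1,-1],[1,0,0,0,0,0,0,0,1],(⟨0,[(13,0)]⟩,
  ⟨1,[(12,0),(8,0),(0,0)]⟩),(⟨0,[(24,0)]⟩,⟨0,[(25,0)]⟩),⟨0,[(0,0)]⟩,.k,.k,(.r (-1) ⟨1,[(11,0),(17,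
  1),(0,0)]⟩ ⟨0,[(3,0)]⟩),(.r (-1) ⟨0,[(3,0),(7,0)]⟩ ⟨1,[(1,1),(4,0),(5,0),(6,0),(7,1),(1,0)]⟩),.k,
  .k,⟨false,1,⟨1,[(11,0),(16,1),(2,0)]⟩,⟨1,[(1,1),(4,0),(5,0),(6,0),(7,1),(1,0)]⟩⟩,⟨true,0,⟨1,[(5,
  0),(7,1),(4,0)]⟩,⟨1,[(12,0),(8,0),(0,0)]⟩⟩,⟨true,0,⟨0,[]⟩,⟨0,[(33,0)]⟩⟩,⟨false,0,⟨0,[(1,0),(27,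
  0)]⟩,⟨1,[(8,0),(2,0),(0,0),(4,0),(10,0),(2,0)]⟩⟩,⟨false,1,⟨0,[(28,0),(2,0)]⟩,⟨0,[(29,0)]⟩⟩,⟨false,
  0,⟨0,[(1,0)]⟩,⟨15,[(6,3),(1,3),(1,2),(0,10),(0,7),(4,3),(1,3),(11,1)]⟩⟩,[.o ⟨false,0,⟨0,[(5,0),(0,
  0)]⟩,⟨3,[(10,0),(0,0),(16,3),(2,1)]⟩⟩,.o ⟨false,1,⟨1,[(23,0),(5,1),(1,0)]⟩,⟨0,[(28,0)]⟩⟩,.a ⟨true,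
  0,⟨1,[(12,0),(8,0),(0,0)]⟩,⟨0,[(13,0)]⟩⟩ ⟨false,1,⟨1,[(11,0),(19,0)]⟩,⟨1,[(2,1),(6,0),(2,0)]⟩⟩
  ⟨true,0,⟨0,[(5,0),(0,0),(6,0)]⟩,⟨1,[(8,0),(3,0),(4,0),(10,0)]⟩⟩,.o ⟨false,0,⟨3,[(5,0),(6,1),(5,1),
  (0,0)]⟩,⟨1,[(13,1),(9,0),(6,0)]⟩⟩]⟩))) (.I [1,0,0,-1,0,0,0,1,1] (.Q [0,0,0,0,0,0,1,1,-1,0,-1,1]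
  (.p false [0,0,1] [0,0,0,1] (⟨0,[(21,0)]⟩,⟨0,[(20,0)]⟩) .k 2 (⟨0,[(12,0)]⟩,⟨1,[(11,0),(8,0),(0,
  0)]⟩) .k (.x 0 ⟨0,[(4,0),(0,0),(1,0),(11,0),(1,0)]⟩ ⟨1,[(18,1),(1,1),(1,0),(6,0)]⟩)) (.I [1,0,-1,
  -2,0,0,0,0,1] (.Q [0,0,0,0,0,1,0,0,0,0,0,-1] (.p false [0,0,0,1] [] (⟨0,[(14,0)]⟩,⟨1,[(13,0),(8,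
  0),(0,0)]⟩) .k 0 (⟨0,[]⟩,⟨0,[]⟩) .k .k) (.R ⟨0,false,false,true,[0,0,0,1],[0,1],[0,1,1],(⟨0,[(15,
  0)]⟩,⟨1,[(14,0),(8,0),(0,0)]⟩),(⟨0,[(27,0)]⟩,⟨0,[(26,0)]⟩),⟨0,[(0,0)]⟩,.k,.k,(.r (-1) ⟨3,[(1,1),
  (10,0),(0,1),(18,0)]⟩ ⟨0,[(5,0)]⟩),(.r (-1) ⟨3,[(1,1),(10,0),(0,1),(18,0)]⟩ ⟨0,[(5,0)]⟩),.k,.k,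
  ⟨true,0,⟨0,[(31,0)]⟩,⟨1,[(7,0),(2,1),(10,0),(0,1)]⟩⟩,⟨false,1,⟨0,[(15,0),(16,0)]⟩,⟨3,[(7,0),(6,1),
  (5,1),(0,0)]⟩⟩,⟨false,0,⟨0,[(5,0),(25,0)]⟩,⟨0,[(6,0)]⟩⟩,⟨true,0,⟨0,[(5,0),(9,0),(13,0)]⟩,⟨7,[(1,
  3),(2,3),(2,2),(6,1),(6,0),(0,3)]⟩⟩,⟨false,0,⟨0,[]⟩,⟨0,[]⟩⟩,⟨false,0,⟨0,[]⟩,⟨0,[]⟩⟩,[.o ⟨false,0,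
  ⟨0,[(30,0)]⟩,⟨5,[(1,1),(10,0),(12,2),(2,1),(4,1)]⟩⟩,.o ⟨false,1,⟨3,[(12,0),(0,0),(16,3),(2,1)]⟩,
  ⟨0,[(7,0),(0,0)]⟩⟩,.a ⟨true,0,⟨1,[(14,0),(8,0),(0,0)]⟩,⟨0,[(15,0)]⟩⟩ ⟨false,0,⟨1,[(20,0),(0,0)]⟩,
  ⟨1,[(32,0),(0,0)]⟩⟩ ⟨true,0,⟨0,[(15,0),(14,0)]⟩,⟨1,[(7,0),(0,0),(5,0),(16,0)]⟩⟩,.o ⟨false,0,⟨3,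
  [(7,0),(6,1),(5,1),(0,0)]⟩,⟨1,[(15,1),(9,0),(6,0)]⟩⟩]⟩) (.Q [0,0,0,-1,0,0,-1,-1,1,0,1,-1] (.p
  true [0,0,1] [0,0,0,1] (⟨0,[(24,0)]⟩,⟨0,[(23,0)]⟩) .k 2 (⟨0,[(15,0)]⟩,⟨1,[(14,0),(8,0),(0,0)]⟩)
  .k (.x 0 ⟨1,[(0,1),(8,1),(1,0),(2,0),(7,1)]⟩ ⟨1,[(21,1),(1,1),(1,0),(6,0)]⟩)) (.R ⟨1,true,false,
  true,[0,0,0,1],[0,0,1],[1,0,0,0,0,0,0,0,1],(⟨0,[(16,0)]⟩,⟨1,[(15,0),(8,0),(0,0)]⟩),(⟨0,[(25,0)]⟩,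
  ⟨0,[(24,0)]⟩),⟨0,[(1,0)]⟩,.k,.k,(.r (-1) ⟨3,[(2,1),(10,0),(0,1),(18,0)]⟩ ⟨0,[(6,0)]⟩),.k,(.x 0 ⟨0,
  [(8,0),(15,0),(2,0)]⟩ ⟨7,[(9,3),(0,7),(0,3),(1,2),(0,2),(8,3),(9,1)]⟩),.k,⟨false,1,⟨0,[(7,0),(15,
  0)]⟩,⟨3,[(3,3),(4,0),(6,1),(6,2),(7,3)]⟩⟩,⟨true,0,⟨1,[(2,0),(0,0),(4,0),(2,1),(4,0),(6,2)]⟩,⟨3,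
  [(8,0),(6,1),(6,2)]⟩⟩,⟨true,0,⟨0,[]⟩,⟨0,[(36,0)]⟩⟩,⟨false,0,⟨0,[(3,0)]⟩,⟨0,[(0,0),(30,0),(2,0)]⟩⟩,
  ⟨false,1,⟨0,[(31,0),(2,0)]⟩,⟨0,[(32,0)]⟩⟩,⟨true,0,⟨0,[(3,0),(27,0)]⟩,⟨0,[(0,0)]⟩⟩,[]⟩) (.R ⟨1,
  false,false,true,[0,0,0,1],[0,0,1],[0,0,0,-1,0,0,0,0,1],(⟨0,[(16,0)]⟩,⟨1,[(15,0),(8,0),(0,0)]⟩),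
  (⟨0,[(25,0)]⟩,⟨0,[(24,0)]⟩),⟨0,[(1,0)]⟩,.k,.k,(.r (-1) ⟨3,[(2,1),(10,0),(0,1),(18,0)]⟩ ⟨0,[(6,
  0)]⟩),.k,(.r (-1) ⟨3,[(2,1),(10,0),(0,1),(8,3),(9,0)]⟩ ⟨3,[(0,3),(7,0),(6,1),(6,2)]⟩),.k,⟨false,1,
  ⟨3,[(2,1),(11,0),(8,3),(9,0),(0,1)]⟩,⟨3,[(0,3),(7,0),(6,1),(6,2),(7,3)]⟩⟩,⟨true,0,⟨5,[(0,3),(1,1),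
  (2,1),(2,0),(7,3),(4,0),(1,5)]⟩,⟨3,[(8,0),(6,1),(6,2)]⟩⟩,⟨true,0,⟨0,[(32,0)]⟩,⟨0,[(31,0)]⟩⟩,
  ⟨false,0,⟨0,[(3,0)]⟩,⟨3,[(7,3),(0,0),(6,1),(6,2),(0,3)]⟩⟩,⟨false,1,⟨3,[(13,0),(0,0),(19,1)]⟩,⟨0,
  []⟩⟩,⟨false,0,⟨0,[(0,0)]⟩,⟨1,[(7,1),(7,0),(1,0),(2,0),(8,1)]⟩⟩,[.o ⟨false,0,⟨0,[(19,0)]⟩,⟨0,[(17,
  0),(16,0)]⟩⟩,.o ⟨false,0,⟨1,[(0,0),(4,0),(2,0),(0,0)]⟩,⟨1,[(20,1),(5,0),(7,0)]⟩⟩,.a ⟨true,0,⟨1,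
  [(15,0),(8,0),(0,0)]⟩,⟨0,[(16,0)]⟩⟩ ⟨true,0,⟨0,[(4,0),(18,0)]⟩,⟨0,[(6,0),(23,0)]⟩⟩ ⟨false,0,⟨5,
  [(0,3),(1,1),(2,1),(2,0),(7,3),(4,0)]⟩,⟨1,[(15,0),(1,0),(2,0),(13,1)]⟩⟩,.o ⟨false,0,⟨3,[(8,0),(6,
  1),(5,1),(0,0)]⟩,⟨1,[(16,1),(9,0),(6,0)]⟩⟩]⟩))) (.I [0,0,0,-1,0,0,0,1,1] (.Q [0,0,0,0,0,1,0,0,0,0,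
  0,-1] (.p false [0,0,0,1] [] (⟨0,[(15,0)]⟩,⟨1,[(14,0),(8,0),(0,0)]⟩) .k 0 (⟨0,[]⟩,⟨0,[]⟩) .k .k)
  (.Q [0,0,0,-1,0,0,0,0,1,0,0,-1] (.p false [0,0,0,1] [] (⟨0,[(16,0)]⟩,⟨1,[(15,0),(8,0),(0,0)]⟩) .k
  0 (⟨0,[]⟩,⟨0,[]⟩) .k .k) (.R ⟨0,false,false,true,[0,0,0,1],[0,1],[0,1,1],(⟨0,[(17,0)]⟩,⟨1,[(16,0),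
  (8,0),(0,0)]⟩),(⟨0,[(29,0)]⟩,⟨0,[(28,0)]⟩),⟨0,[(1,0)]⟩,.k,.k,(.r (-1) ⟨1,[(15,0),(17,1),(0,0)]⟩
  ⟨0,[(7,0)]⟩),(.r (-1) ⟨1,[(15,0),(17,1),(0,0)]⟩ ⟨0,[(7,0)]⟩),.k,.k,⟨true,0,⟨0,[(33,0)]⟩,⟨3,[(3,1),
  (2,1),(2,0),(7,1),(5,0),(0,1)]⟩⟩,⟨false,1,⟨0,[(17,0),(16,0)]⟩,⟨3,[(9,0),(6,1),(5,1),(0,0)]⟩⟩,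
  ⟨false,0,⟨0,[(7,0),(25,0)]⟩,⟨0,[(8,0)]⟩⟩,⟨true,0,⟨1,[(3,0),(0,0),(12,0),(3,0),(9,0)]⟩,⟨0,[(0,
  0)]⟩⟩,⟨false,0,⟨0,[]⟩,⟨0,[]⟩⟩,⟨false,0,⟨0,[]⟩,⟨0,[]⟩⟩,[.o ⟨false,0,⟨0,[(32,0)]⟩,⟨1,[(27,0),(5,1),
  (1,0)]⟩⟩,.o ⟨false,1,⟨3,[(3,1),(10,0),(0,1),(18,0)]⟩,⟨0,[(9,0),(0,0)]⟩⟩,.a ⟨true,0,⟨1,[(16,0),(8,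
  0),(0,0)]⟩,⟨0,[(17,0)]⟩⟩ ⟨false,0,⟨1,[(22,0),(0,0)]⟩,⟨1,[(34,0),(0,0)]⟩⟩ ⟨true,0,⟨0,[(17,0),(14,
  0)]⟩,⟨1,[(9,0),(0,0),(5,0),(16,0)]⟩⟩,.o ⟨false,0,⟨3,[(9,0),(6,1),(5,1),(0,0)]⟩,⟨1,[(17,1),(9,0),
  (6,0)]⟩⟩]⟩) (.R ⟨0,false,false,false,[0,0,0,1],[0,1],[1,1,0,0,0,0,0,0,1],(⟨0,[(17,0)]⟩,⟨1,[(16,0),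
  (8,0),(0,0)]⟩),(⟨0,[(29,0)]⟩,⟨0,[(28,0)]⟩),⟨0,[(1,0)]⟩,.k,.k,(.r (-1) ⟨1,[(15,0),(17,1),(0,0)]⟩
  ⟨0,[(7,0)]⟩),(.r (-1) ⟨1,[(15,0),(17,1),(0,0)]⟩ ⟨0,[(7,0)]⟩),.k,.k,⟨true,0,⟨0,[(2,0),(21,0),(6,
  0)]⟩,⟨0,[(3,0),(26,0)]⟩⟩,⟨false,1,⟨0,[(17,0),(16,0)]⟩,⟨3,[(9,0),(6,1),(5,1),(0,0)]⟩⟩,⟨false,0,⟨0,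
  []⟩,⟨3,[(14,0),(0,0),(19,1)]⟩⟩,⟨true,0,⟨0,[(0,0)]⟩,⟨2,[(2,1),(3,0),(3,0),(5,0),(1,2),(3,0)]⟩⟩,
  ⟨false,0,⟨0,[]⟩,⟨0,[]⟩⟩,⟨false,0,⟨0,[]⟩,⟨0,[]⟩⟩,[.o ⟨false,1,⟨3,[(3,1),(10,0),(0,1),(18,0)]⟩,⟨0,
  [(9,0),(0,0)]⟩⟩,.o ⟨false,1,⟨3,[(3,1),(11,0),(18,0),(0,1)]⟩,⟨1,[(9,0),(0,0),(7,0),(1,0),(12,0)]⟩⟩,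
  .a ⟨true,0,⟨1,[(16,0),(8,0),(0,0)]⟩,⟨0,[(17,0)]⟩⟩ ⟨true,0,⟨0,[(6,0),(10,0),(0,0)]⟩,⟨1,[(0,1),(8,
  0),(0,0),(5,0),(16,0)]⟩⟩ ⟨false,1,⟨1,[(0,1),(14,0),(19,0)]⟩,⟨1,[(9,0),(0,0),(5,0),(16,0)]⟩⟩,.o
  ⟨false,0,⟨3,[(9,0),(6,1),(5,1),(0,0)]⟩,⟨1,[(17,1),(9,0),(6,0)]⟩⟩]⟩)) (.Q [0,-1,0,1,1,0,-1,-1,-1,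
  -1,1,1] (.p true [0,0,1] [1,0,0,-1] (⟨0,[(25,0)]⟩,⟨0,[(24,0)]⟩) .k 2 (⟨1,[(15,0),(8,0),(0,0)]⟩,⟨0,
  [(16,0)]⟩) .k (.x 0 ⟨1,[(0,1),(9,1),(1,0),(2,0),(7,1)]⟩ ⟨1,[(22,1),(1,1),(1,0),(6,0)]⟩)) (.R ⟨1,
  false,false,false,[0,0,0,1],[1,0,-1],[0,0,0,-1,0,0,0,0,1],(⟨0,[(17,0)]⟩,⟨1,[(16,0),(8,0),(0,0)]⟩),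
  (⟨0,[(25,0)]⟩,⟨0,[(26,0)]⟩),⟨0,[(1,0)]⟩,.k,.k,(.r (-1) ⟨1,[(15,0),(17,1),(0,0)]⟩ ⟨0,[(7,0)]⟩),.k,
  (.r (-1) ⟨3,[(2,3),(11,0),(0,0),(18,1)]⟩ ⟨0,[(7,0),(16,0)]⟩),.k,⟨true,0,⟨0,[(2,0)]⟩,⟨0,[(7,0),(16,
  0)]⟩⟩,⟨false,1,⟨0,[(0,0),(1,0),(28,0)]⟩,⟨1,[(13,0),(2,0),(7,1)]⟩⟩,⟨true,0,⟨0,[(33,0)]⟩,⟨0,[(32,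
  0)]⟩⟩,⟨false,1,⟨0,[(0,0),(32,0)]⟩,⟨0,[(6,0)]⟩⟩,⟨false,1,⟨3,[(14,0),(0,0),(19,1)]⟩,⟨0,[]⟩⟩,⟨false,
  1,⟨0,[(0,0)]⟩,⟨2,[(2,1),(3,0),(3,0),(5,0),(5,0)]⟩⟩,[.o ⟨false,1,⟨1,[(21,1),(5,0),(7,0)]⟩,⟨0,[(9,
  0),(0,0),(1,0)]⟩⟩,.o ⟨false,1,⟨0,[(18,0),(16,0)]⟩,⟨0,[(20,0)]⟩⟩,.a ⟨true,0,⟨1,[(16,0),(8,0),(0,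
  0)]⟩,⟨0,[(17,0)]⟩⟩ ⟨true,0,⟨0,[(2,0),(21,0)]⟩,⟨0,[(7,0),(23,0)]⟩⟩ ⟨false,1,⟨1,[(0,0),(7,0),(8,0),
  (0,0),(11,0)]⟩,⟨1,[(13,0),(2,0)]⟩⟩,.o ⟨false,0,⟨3,[(9,0),(6,1),(5,1),(0,0)]⟩,⟨1,[(17,1),(9,0),(6,
  0)]⟩⟩]⟩) (.Q [0,0,0,-1,0,0,-1,-1,1,0,1,-1] (.p true [0,0,1] [0,0,0,1] (⟨0,[(26,0)]⟩,⟨0,[(25,0)]⟩)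
  .k 2 (⟨0,[(17,0)]⟩,⟨1,[(16,0),(8,0),(0,0)]⟩) .k (.x 0 ⟨3,[(0,1),(0,1),(1,1),(6,1),(0,1),(12,1),(1,
  1),(0,0),(7,0)]⟩ ⟨1,[(23,1),(1,1),(1,0),(6,0)]⟩)) (.R ⟨1,true,false,true,[0,0,0,1],[0,0,1],[1,0,0,
  0,0,0,0,0,1],(⟨0,[(18,0)]⟩,⟨1,[(17,0),(8,0),(0,0)]⟩),(⟨0,[(27,0)]⟩,⟨0,[(26,0)]⟩),⟨0,[(2,0)]⟩,.k,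
  .k,(.r (-1) ⟨1,[(16,0),(17,1),(0,0)]⟩ ⟨0,[(8,0)]⟩),.k,(.x 0 ⟨0,[(10,0),(15,0),(2,0)]⟩ ⟨3,[(4,1),
  (6,3),(0,3),(2,0),(0,1),(18,0)]⟩),.k,⟨false,1,⟨0,[(9,0),(15,0)]⟩,⟨3,[(5,3),(4,0),(6,1),(6,2),(7,
  3)]⟩⟩,⟨true,0,⟨2,[(1,0),(3,1),(3,0),(0,0),(2,0),(4,1),(6,3)]⟩,⟨3,[(10,0),(6,1),(6,2)]⟩⟩,⟨true,0,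
  ⟨0,[]⟩,⟨0,[(38,0)]⟩⟩,⟨false,0,⟨0,[(5,0)]⟩,⟨5,[(0,3),(3,1),(4,1),(6,0),(0,0),(1,0),(2,0),(13,2)]⟩⟩,
  ⟨false,1,⟨3,[(4,1),(11,0),(18,0),(0,1)]⟩,⟨0,[(34,0)]⟩⟩,⟨true,0,⟨0,[(5,0),(27,0)]⟩,⟨0,[(0,0)]⟩⟩,
  []⟩) (.R ⟨1,false,false,true,[0,0,0,1],[0,0,1],[0,0,0,-1,0,0,0,0,1],(⟨0,[(18,0)]⟩,⟨1,[(17,0),(8,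
  0),(0,0)]⟩),(⟨0,[(27,0)]⟩,⟨0,[(26,0)]⟩),⟨0,[(2,0)]⟩,.k,.k,(.r (-1) ⟨1,[(16,0),(17,1),(0,0)]⟩ ⟨0,
  [(8,0)]⟩),.k,(.r (-1) ⟨1,[(11,1),(4,0),(2,1),(16,0)]⟩ ⟨3,[(0,3),(9,0),(6,1),(6,2)]⟩),.k,⟨false,1,
  ⟨1,[(9,1),(1,0),(7,0),(5,0),(5,0)]⟩,⟨3,[(0,3),(9,0),(6,1),(6,2),(7,3)]⟩⟩,⟨true,0,⟨3,[(0,1),(0,0),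
  (7,0),(0,0),(0,0),(6,2),(4,0),(1,2)]⟩,⟨3,[(10,0),(6,1),(6,2)]⟩⟩,⟨true,0,⟨0,[(34,0)]⟩,⟨0,[(33,
  0)]⟩⟩,⟨false,0,⟨0,[(5,0)]⟩,⟨3,[(9,3),(0,0),(6,1),(6,2),(0,3)]⟩⟩,⟨false,1,⟨3,[(15,0),(0,0),(19,
  1)]⟩,⟨0,[]⟩⟩,⟨false,0,⟨0,[(0,0)]⟩,⟨1,[(9,1),(7,0),(1,0),(2,0),(8,1)]⟩⟩,[.o ⟨false,0,⟨0,[(21,0)]⟩,
  ⟨0,[(19,0),(16,0)]⟩⟩,.o ⟨false,0,⟨3,[(0,1),(0,1),(26,0),(7,0)]⟩,⟨1,[(22,1),(5,0),(7,0)]⟩⟩,.a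
  ⟨true,0,⟨1,[(17,0),(8,0),(0,0)]⟩,⟨0,[(18,0)]⟩⟩ ⟨true,0,⟨0,[(3,0),(21,0)]⟩,⟨0,[(8,0),(23,0)]⟩⟩
  ⟨false,0,⟨5,[(0,1),(0,1),(3,1),(3,1),(0,0),(7,3),(4,0)]⟩,⟨1,[(17,0),(1,0),(2,0),(13,1)]⟩⟩,.o
  ⟨false,0,⟨3,[(10,0),(6,1),(5,1),(0,0)]⟩,⟨1,[(18,1),(9,0),(6,0)]⟩⟩]⟩)))) (.Q [0,0,0,0,0,1,0,0,0,0,
  0,-1] (.p false [0,0,0,1] [] (⟨0,[(15,0)]⟩,⟨1,[(14,0),(8,0),(0,0)]⟩) .k 0 (⟨0,[]⟩,⟨0,[]⟩) .k .k)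
  (.R ⟨0,false,false,false,[0,0,0,1],[1,0,-1],[1,0,0,-1,0,0,0,0,1],(⟨0,[(16,0)]⟩,⟨1,[(15,0),(8,0),
  (0,0)]⟩),(⟨0,[(24,0)]⟩,⟨0,[(25,0)]⟩),⟨0,[(0,0)]⟩,.k,.k,(.r (-1) ⟨1,[(14,0),(17,1),(0,0)]⟩ ⟨0,[(6,
  0)]⟩),.k,.k,.k,⟨true,0,⟨0,[(4,0)]⟩,⟨1,[(1,1),(19,0),(0,0)]⟩⟩,⟨false,1,⟨1,[(8,0),(7,1),(5,0),(10,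
  1)]⟩,⟨2,[(1,0),(3,0),(3,0),(5,0),(5,0)]⟩⟩,⟨true,0,⟨0,[(32,0)]⟩,⟨0,[(31,0)]⟩⟩,⟨false,1,⟨1,[(1,1),
  (6,0),(7,1),(5,0),(9,1),(0,0),(0,0)]⟩,⟨0,[(5,0)]⟩⟩,⟨false,0,⟨0,[]⟩,⟨0,[]⟩⟩,⟨false,0,⟨0,[]⟩,⟨0,
  []⟩⟩,[.o ⟨false,1,⟨1,[(20,1),(5,0),(7,0)]⟩,⟨0,[(8,0),(0,0),(1,0)]⟩⟩,.o ⟨false,1,⟨0,[(17,0),(16,
  0)]⟩,⟨0,[(19,0)]⟩⟩,.a ⟨true,0,⟨1,[(15,0),(8,0),(0,0)]⟩,⟨0,[(16,0)]⟩⟩ ⟨true,0,⟨0,[(4,0),(18,0)]⟩,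
  ⟨0,[(6,0),(23,0)]⟩⟩ ⟨false,1,⟨0,[(16,0),(0,0),(16,0)]⟩,⟨1,[(12,0),(2,0)]⟩⟩,.o ⟨false,0,⟨3,[(8,0),
  (6,1),(5,1),(0,0)]⟩,⟨1,[(16,1),(9,0),(6,0)]⟩⟩]⟩) (.Q [0,0,0,1,0,0,1,1,-1,0,-1,1] (.p false [0,0,
  1] [0,0,0,1] (⟨0,[(25,0)]⟩,⟨0,[(24,0)]⟩) .k 2 (⟨0,[(16,0)]⟩,⟨1,[(15,0),(8,0),(0,0)]⟩) .k (.x 0 ⟨3,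
  [(0,1),(0,1),(3,1),(2,0),(0,1),(0,1),(10,0),(3,1)]⟩ ⟨1,[(22,1),(1,1),(1,0),(6,0)]⟩)) (.R ⟨1,false,
  false,true,[0,0,0,1],[0,0,1],[0,0,0,-1,0,0,0,0,1],(⟨0,[(17,0)]⟩,⟨1,[(16,0),(8,0),(0,0)]⟩),(⟨0,
  [(26,0)]⟩,⟨0,[(25,0)]⟩),⟨0,[(1,0)]⟩,.k,.k,(.r (-1) ⟨1,[(15,0),(17,1),(0,0)]⟩ ⟨0,[(7,0)]⟩),.k,(.r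
  (-1) ⟨1,[(10,1),(4,0),(2,1),(16,0)]⟩ ⟨3,[(0,3),(8,0),(6,1),(6,2)]⟩),.k,⟨false,1,⟨1,[(8,1),(1,0),
  (7,0),(5,0),(5,0)]⟩,⟨3,[(0,3),(8,0),(6,1),(6,2),(7,3)]⟩⟩,⟨true,0,⟨1,[(0,0),(5,0),(2,0),(0,0),(6,
  1),(6,1)]⟩,⟨3,[(9,0),(6,1),(6,2)]⟩⟩,⟨true,0,⟨0,[(33,0)]⟩,⟨0,[(32,0)]⟩⟩,⟨false,0,⟨0,[(4,0)]⟩,⟨3,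
  [(8,3),(0,0),(6,1),(6,2),(0,3)]⟩⟩,⟨false,1,⟨3,[(14,0),(0,0),(19,1)]⟩,⟨0,[]⟩⟩,⟨false,0,⟨0,[(0,0)]⟩,
  ⟨1,[(8,1),(7,0),(1,0),(2,0),(8,1)]⟩⟩,[.o ⟨false,0,⟨0,[(20,0)]⟩,⟨0,[(18,0),(16,0)]⟩⟩,.o ⟨false,0,
  ⟨1,[(0,0),(5,0),(2,0),(0,0)]⟩,⟨1,[(21,1),(5,0),(7,0)]⟩⟩,.a ⟨true,0,⟨1,[(16,0),(8,0),(0,0)]⟩,⟨0,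
  [(17,0)]⟩⟩ ⟨true,0,⟨0,[(5,0),(18,0)]⟩,⟨0,[(7,0),(23,0)]⟩⟩ ⟨false,0,⟨1,[(0,0),(5,0),(2,0),(0,0),(6,
  1)]⟩,⟨1,[(16,0),(1,0),(2,0),(13,1)]⟩⟩,.o ⟨false,0,⟨3,[(9,0),(6,1),(5,1),(0,0)]⟩,⟨1,[(17,1),(9,0),
  (6,0)]⟩⟩]⟩) (.R ⟨1,true,false,true,[0,0,0,1],[0,0,1],[1,0,0,0,0,0,0,0,1],(⟨0,[(17,0)]⟩,⟨1,[(16,0),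
  (8,0),(0,0)]⟩),(⟨0,[(26,0)]⟩,⟨0,[(25,0)]⟩),⟨0,[(1,0)]⟩,.k,.k,(.r (-1) ⟨1,[(15,0),(17,1),(0,0)]⟩
  ⟨0,[(7,0)]⟩),.k,(.x 0 ⟨0,[(9,0),(15,0),(2,0)]⟩ ⟨5,[(2,1),(7,3),(0,5),(0,1),(1,1),(0,2),(18,0)]⟩),
  .k,⟨false,1,⟨0,[(8,0),(15,0)]⟩,⟨3,[(4,3),(4,0),(6,1),(6,2),(7,3)]⟩⟩,⟨true,0,⟨0,[(9,0),(0,0),(1,0),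
  (4,0),(6,0)]⟩,⟨3,[(9,0),(6,1),(6,2)]⟩⟩,⟨true,0,⟨0,[]⟩,⟨0,[(37,0)]⟩⟩,⟨false,0,⟨0,[(4,0)]⟩,⟨3,[(0,
  3),(2,1),(11,0),(18,0),(0,1)]⟩⟩,⟨false,1,⟨3,[(3,1),(11,0),(18,0),(0,1)]⟩,⟨0,[(33,0)]⟩⟩,⟨true,0,⟨0,
  [(4,0),(27,0)]⟩,⟨0,[(0,0)]⟩⟩,[]⟩))))) (.K ⟨2,[0,0,0,1],0,0,(⟨0,[(13,0)]⟩,⟨1,[(12,0),(8,0),(0,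
  0)]⟩),.k,(.r (-1) ⟨1,[(11,0),(17,1),(0,0)]⟩ ⟨0,[(3,0)]⟩),(.r 0 ⟨1,[(0,1),(4,0),(2,1),(4,1),(4,
  0)]⟩ ⟨1,[(10,0),(18,1),(0,0)]⟩),.k,.k,[⟨0,[(0,0)]⟩,⟨0,[(3,0),(9,0),(13,0),(1,0)]⟩,⟨1,[(13,1),(4,
  0),(0,0)]⟩,⟨3,[(5,0),(6,1),(5,1),(0,0)]⟩]⟩)) (.Q [0,0,0,0,0,1,0,0,0,0,0,-1] (.p false [0,0,0,1]
  [] (⟨0,[(12,0)]⟩,⟨1,[(11,0),(8,0),(0,0)]⟩) .k 0 (⟨0,[]⟩,⟨0,[]⟩) .k .k) (.R ⟨0,false,false,false,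
  [0,0,0,1],[1,0,-1],[1,0,0,0,0,0,0,-1],(⟨0,[(13,0)]⟩,⟨1,[(12,0),(8,0),(0,0)]⟩),(⟨0,[(21,0)]⟩,⟨0,
  [(22,0)]⟩),⟨0,[(0,0)]⟩,.k,.k,(.r (-1) ⟨1,[(11,0),(17,1),(0,0)]⟩ ⟨0,[(3,0)]⟩),.k,.k,.k,⟨true,0,⟨0,
  []⟩,⟨1,[(18,0),(0,0)]⟩⟩,⟨false,1,⟨1,[(5,0),(7,1),(5,0),(10,1)]⟩,⟨2,[(1,0),(0,0),(3,0),(5,0),(5,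
  0)]⟩⟩,⟨true,0,⟨0,[(1,0),(27,0)]⟩,⟨1,[(2,1),(2,0),(7,1),(5,0),(7,1)]⟩⟩,⟨false,1,⟨1,[(1,1),(3,0),(7,
  1),(5,0),(9,1),(0,0),(0,0)]⟩,⟨0,[(2,0)]⟩⟩,⟨false,0,⟨0,[]⟩,⟨0,[]⟩⟩,⟨false,0,⟨0,[]⟩,⟨0,[]⟩⟩,[.o
  ⟨false,1,⟨1,[(17,1),(5,0),(7,0)]⟩,⟨0,[(5,0),(0,0),(1,0)]⟩⟩,.o ⟨false,1,⟨0,[(14,0),(16,0)]⟩,⟨0,
  [(16,0)]⟩⟩,.a ⟨true,0,⟨1,[(12,0),(8,0),(0,0)]⟩,⟨0,[(13,0)]⟩⟩ ⟨true,0,⟨0,[(20,0)]⟩,⟨3,[(5,0),(3,1),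
  (9,2),(7,3)]⟩⟩ ⟨false,1,⟨0,[(13,0),(0,0),(16,0)]⟩,⟨1,[(9,0),(2,0)]⟩⟩,.o ⟨false,0,⟨3,[(5,0),(6,1),
  (5,1),(0,0)]⟩,⟨1,[(13,1),(9,0),(6,0)]⟩⟩]⟩) (.I [0,0,0,0,0,0,0,0,-1] (.R ⟨1,false,false,false,[0,0,
  0,1],[1,0,-1],[1,1,0,0,0,0,0,0,1],(⟨0,[(14,0)]⟩,⟨1,[(13,0),(8,0),(0,0)]⟩),(⟨0,[(22,0)]⟩,⟨0,[(23,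
  0)]⟩),⟨0,[(1,0)]⟩,.k,.k,(.r (-1) ⟨1,[(12,0),(17,1),(0,0)]⟩ ⟨0,[(4,0)]⟩),.k,(.r (-1) ⟨3,[(5,3),(0,
  0),(3,1),(9,2),(7,3),(1,3)]⟩ ⟨1,[(2,1),(16,0),(0,0)]⟩),.k,⟨true,0,⟨1,[(3,1),(2,0),(7,1),(5,0),(7,
  1)]⟩,⟨0,[(2,0),(24,0)]⟩⟩,⟨false,1,⟨1,[(6,0),(7,1),(5,0),(10,1)]⟩,⟨2,[(2,0),(0,0),(3,0),(5,0),(5,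
  0)]⟩⟩,⟨false,0,⟨0,[]⟩,⟨3,[(11,0),(0,0),(19,1)]⟩⟩,⟨false,1,⟨0,[(0,0),(13,0),(0,0),(16,0)]⟩,⟨0,[(3,
  0)]⟩⟩,⟨true,0,⟨0,[(29,0)]⟩,⟨0,[(30,0)]⟩⟩,⟨false,1,⟨1,[(2,1),(3,0),(7,1),(5,0),(10,0),(0,0)]⟩,⟨0,
  [(3,0),(26,0)]⟩⟩,[.o ⟨false,1,⟨1,[(18,1),(5,0),(7,0)]⟩,⟨0,[(6,0),(0,0),(1,0)]⟩⟩,.o ⟨false,1,⟨0,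
  [(15,0),(16,0)]⟩,⟨0,[(17,0)]⟩⟩,.a ⟨true,0,⟨1,[(13,0),(8,0),(0,0)]⟩,⟨0,[(14,0)]⟩⟩ ⟨true,0,⟨0,[(3,
  0),(10,0),(0,0)]⟩,⟨0,[(0,0)]⟩⟩ ⟨false,1,⟨0,[(14,0),(0,0),(16,0)]⟩,⟨1,[(10,0),(2,0)]⟩⟩,.o ⟨false,0,
  ⟨3,[(6,0),(6,1),(5,1),(0,0)]⟩,⟨1,[(14,1),(9,0),(6,0)]⟩⟩]⟩) (.Q [0,0,0,0,0,0,1,1,-1,0,-1,1] (.p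
  false [0,0,1] [0,0,0,1] (⟨0,[(23,0)]⟩,⟨0,[(22,0)]⟩) .k 2 (⟨0,[(14,0)]⟩,⟨1,[(13,0),(8,0),(0,0)]⟩)
  .k (.r (-1) ⟨3,[(6,0),(3,1),(0,1),(8,2),(10,1)]⟩ ⟨0,[(0,0),(20,0)]⟩)) (.R ⟨1,false,false,true,[0,
  0,0,1],[0,-1,1],[0,0,0,-1,0,0,0,0,1],(⟨0,[(15,0)]⟩,⟨1,[(14,0),(8,0),(0,0)]⟩),(⟨0,[(2,1),(6,0),(4,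
  0)]⟩,⟨0,[(23,0),(3,0)]⟩),⟨0,[(2,0)]⟩,.k,.k,(.r (-1) ⟨1,[(13,0),(17,1),(0,0)]⟩ ⟨0,[(5,0)]⟩),(.r 0
  ⟨1,[(1,3),(1,1),(16,0),(0,0)]⟩ ⟨3,[(0,3),(6,0),(6,1),(6,2),(9,3),(0,3)]⟩),.k,.k,⟨true,0,⟨0,[(1,1),
  (1,0),(24,0)]⟩,⟨3,[(0,3),(6,0),(6,1),(6,2),(7,3)]⟩⟩,⟨false,0,⟨0,[(0,0),(0,0),(20,0)]⟩,⟨3,[(7,0),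
  (6,1),(6,2),(10,3)]⟩⟩,⟨true,0,⟨0,[(31,0)]⟩,⟨0,[(30,0)]⟩⟩,⟨false,0,⟨0,[(0,0),(30,0)]⟩,⟨3,[(1,3),(1,
  3),(2,3),(0,0),(6,1),(6,2)]⟩⟩,⟨false,1,⟨3,[(12,0),(0,0),(19,1)]⟩,⟨0,[]⟩⟩,⟨false,0,⟨0,[(0,0)]⟩,⟨1,
  [(1,1),(12,0),(1,0),(2,0),(13,1)]⟩⟩,[.o ⟨false,0,⟨0,[(18,0),(12,0)]⟩,⟨1,[(3,1),(2,1),(0,0),(13,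
  0)]⟩⟩,.o ⟨false,0,⟨1,[(7,0),(0,0),(2,0),(19,0)]⟩,⟨0,[(16,0),(13,0),(2,0)]⟩⟩,.a ⟨true,0,⟨1,[(14,0),
  (8,0),(0,0)]⟩,⟨0,[(15,0)]⟩⟩ ⟨true,0,⟨0,[(1,0),(29,0)]⟩,⟨0,[(5,0),(23,0)]⟩⟩ ⟨false,0,⟨1,[(7,0),(0,
  0),(2,0),(3,1),(15,0)]⟩,⟨3,[(3,3),(2,3),(0,0),(6,1),(6,2)]⟩⟩,.o ⟨false,0,⟨3,[(7,0),(6,1),(5,1),(0,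
  0)]⟩,⟨1,[(15,1),(9,0),(6,0)]⟩⟩]⟩) (.K ⟨2,[0,0,0,1],0,0,(⟨0,[(15,0)]⟩,⟨1,[(14,0),(8,0),(0,0)]⟩),.k,
  (.r (-1) ⟨1,[(13,0),(17,1),(0,0)]⟩ ⟨0,[(5,0)]⟩),(.r 0 ⟨0,[(1,1),(3,0)]⟩ ⟨1,[(12,0),(18,1),(0,
  0)]⟩),.k,.k,[⟨0,[(0,0)]⟩,⟨0,[(5,0),(9,0),(13,0),(1,0)]⟩,⟨1,[(15,1),(4,0),(0,0)]⟩,⟨3,[(7,0),(6,1),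
  (5,1),(0,0)]⟩]⟩)))))) (.Q [0,-1,0,-2,0,0,0,0,0,-1] (.pp true [-1,1]) (.R ⟨2,true,false,false,[0,
  1],[0,0,1],[1,0,1,1],(⟨0,[]⟩,⟨0,[]⟩),(⟨0,[(20,0)]⟩,⟨0,[(19,0)]⟩),⟨0,[]⟩,.k,.k,.k,.k,.k,.k,⟨true,0,
  ⟨1,[(3,0),(2,1),(10,0),(0,3)]⟩,⟨0,[(0,0),(5,0),(10,0),(7,0)]⟩⟩,⟨false,0,⟨2,[(0,0),(2,0),(2,1),(0,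
  0),(10,3),(6,0)]⟩,⟨0,[(17,0),(10,0)]⟩⟩,⟨true,0,⟨0,[]⟩,⟨0,[(31,0)]⟩⟩,⟨false,0,⟨0,[(0,0),(5,0)]⟩,⟨0,
  [(15,0),(10,0),(2,0)]⟩⟩,⟨false,1,⟨0,[(26,0),(2,0)]⟩,⟨0,[(27,0)]⟩⟩,⟨true,0,⟨2,[(0,0),(2,0),(2,1),
  (0,0),(10,0),(6,0)]⟩,⟨0,[(15,0)]⟩⟩,[]⟩) (.I [0,-1,0,-1,0,0,0,0,1] (.Q [0,1,0,-1,-1,0,0,0,1,0,0,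
  -1] (.p false [0,0,0,1] [] (⟨0,[(12,0)]⟩,⟨1,[(11,0),(8,0),(0,0)]⟩) .k 0 (⟨0,[]⟩,⟨0,[]⟩) .k .k)
  (.R ⟨2,true,false,true,[0,1],[0,0,0,1],[1,1,1,1],(⟨0,[]⟩,⟨0,[]⟩),(⟨0,[(13,0)]⟩,⟨1,[(12,0),(8,0),
  (0,0)]⟩),⟨0,[]⟩,.k,.k,.k,(.r (-1) ⟨3,[(2,1),(7,1),(7,1),(0,1),(3,0),(7,0)]⟩ ⟨0,[(0,0),(12,0),(13,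
  0),(3,0)]⟩),.k,.k,⟨false,1,⟨3,[(2,1),(7,1),(12,0),(7,0)]⟩,⟨0,[(0,0),(12,0),(13,0),(3,0)]⟩⟩,⟨true,
  0,⟨3,[(5,0),(6,1),(5,1),(0,0)]⟩,⟨0,[(13,0)]⟩⟩,⟨false,0,⟨0,[]⟩,⟨3,[(10,0),(0,0),(19,1)]⟩⟩,⟨true,
  (-1),⟨0,[(0,0)]⟩,⟨3,[(2,1),(7,1),(2,3),(9,0),(7,0)]⟩⟩,⟨true,0,⟨0,[(28,0)]⟩,⟨0,[(29,0)]⟩⟩,⟨false,0,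
  ⟨9,[(0,5),(1,1),(1,3),(0,2),(2,1),(3,1),(5,0),(1,1),(10,1)]⟩,⟨1,[(10,0),(2,1),(17,0)]⟩⟩,[]⟩) (.Q
  [0,0,0,0,0,1,0,0,0,0,0,-1] (.p false [0,0,0,1] [] (⟨0,[(13,0)]⟩,⟨1,[(12,0),(8,0),(0,0)]⟩) .k 0
  (⟨0,[]⟩,⟨0,[]⟩) .k .k) (.I [1,0,0,1,0,0,0,0,1] (.R ⟨0,false,false,false,[0,0,0,1],[1,-1],[0,0,0,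
  -1,0,0,0,0,1],(⟨0,[(15,0)]⟩,⟨1,[(14,0),(8,0),(0,0)]⟩),(⟨0,[(26,0)]⟩,⟨0,[(27,0)]⟩),⟨0,[(1,0)]⟩,.k,
  .k,(.r 0 ⟨0,[(3,0),(25,0)]⟩ ⟨3,[(4,1),(7,1),(7,1),(0,1),(3,0),(7,0)]⟩),(.r 0 ⟨1,[(0,1),(19,0),(0,
  0)]⟩ ⟨0,[(5,0),(6,0)]⟩),.k,.k,⟨false,0,⟨3,[(0,1),(4,1),(14,0),(0,0)]⟩,⟨1,[(12,0),(19,0)]⟩⟩,⟨true,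
  0,⟨1,[(7,0),(7,1),(4,0)]⟩,⟨1,[(14,0),(8,0),(0,0)]⟩⟩,⟨true,0,⟨0,[(31,0)]⟩,⟨0,[(30,0)]⟩⟩,⟨false,1,
  ⟨1,[(7,1),(0,1),(3,0),(2,1),(17,0)]⟩,⟨1,[(0,0),(2,0),(0,0),(9,0)]⟩⟩,⟨false,0,⟨0,[]⟩,⟨0,[]⟩⟩,
  ⟨false,0,⟨0,[]⟩,⟨0,[]⟩⟩,[.o ⟨false,0,⟨0,[(7,0),(0,0)]⟩,⟨3,[(4,1),(7,0),(0,0),(11,0),(7,0)]⟩⟩,.o
  ⟨false,1,⟨3,[(5,1),(6,0),(12,1),(2,1),(4,0)]⟩,⟨0,[(30,0)]⟩⟩,.a ⟨true,0,⟨1,[(14,0),(8,0),(0,0)]⟩,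
  ⟨0,[(15,0)]⟩⟩ ⟨false,0,⟨0,[(3,0)]⟩,⟨3,[(4,1),(7,1),(12,0),(7,0)]⟩⟩ ⟨true,0,⟨0,[(7,0),(0,0),(6,
  0)]⟩,⟨1,[(4,0),(9,0),(20,0)]⟩⟩,.o ⟨false,0,⟨3,[(7,0),(6,1),(5,1),(0,0)]⟩,⟨1,[(15,1),(9,0),(6,
  0)]⟩⟩]⟩) (.R ⟨0,false,false,false,[0,0,0,1],[0,1],[1,0,1],(⟨0,[(15,0)]⟩,⟨1,[(14,0),(8,0),(0,0)]⟩),
  (⟨0,[(27,0)]⟩,⟨0,[(26,0)]⟩),⟨0,[(1,0)]⟩,.k,.k,(.r 0 ⟨0,[(3,0),(25,0)]⟩ ⟨3,[(4,1),(7,1),(7,1),(0,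
  1),(3,0),(7,0)]⟩),(.r 0 ⟨0,[(3,0),(25,0)]⟩ ⟨3,[(4,1),(7,1),(7,1),(0,1),(3,0),(7,0)]⟩),.k,.k,⟨true,
  0,⟨0,[(31,0)]⟩,⟨1,[(4,0),(2,0),(2,0),(11,0),(5,0)]⟩⟩,⟨false,1,⟨0,[(15,0),(16,0)]⟩,⟨3,[(7,0),(6,1),
  (5,1),(0,0)]⟩⟩,⟨true,0,⟨1,[(0,1),(3,0),(2,0),(2,0),(11,0),(5,0)]⟩,⟨0,[(5,0),(24,0)]⟩⟩,⟨false,1,⟨0,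
  [(2,0)]⟩,⟨3,[(5,3),(1,0),(6,1),(5,1),(0,0)]⟩⟩,⟨false,0,⟨0,[]⟩,⟨0,[]⟩⟩,⟨false,0,⟨0,[]⟩,⟨0,[]⟩⟩,[.o
  ⟨false,1,⟨3,[(4,1),(7,0),(0,0),(11,0),(7,0)]⟩,⟨0,[(7,0),(0,0)]⟩⟩,.o ⟨false,1,⟨3,[(4,1),(20,0),(7,
  2)]⟩,⟨3,[(0,1),(4,1),(1,0),(8,1),(1,1),(1,0)]⟩⟩,.a ⟨true,0,⟨1,[(14,0),(8,0),(0,0)]⟩,⟨0,[(15,0)]⟩⟩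
  ⟨true,0,⟨1,[(20,0),(0,0)]⟩,⟨0,[(29,0)]⟩⟩ ⟨false,1,⟨5,[(2,1),(1,1),(1,1),(0,0),(7,3),(4,0),(12,
  1)]⟩,⟨3,[(0,1),(4,1),(1,0),(6,1),(5,0)]⟩⟩,.o ⟨false,0,⟨3,[(7,0),(6,1),(5,1),(0,0)]⟩,⟨1,[(15,1),(9,
  0),(6,0)]⟩⟩]⟩)) (.I [1,0,0,1,0,0,0,0,1] (.R ⟨1,false,false,false,[0,0,0,1],[1,-1],[0,0,0,-1,0,0,0,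
  0,1],(⟨0,[(15,0)]⟩,⟨1,[(14,0),(8,0),(0,0)]⟩),(⟨0,[(26,0)]⟩,⟨0,[(27,0)]⟩),⟨0,[(1,0)]⟩,.k,.k,(.r 0
  ⟨0,[(3,0),(25,0)]⟩ ⟨3,[(4,1),(7,1),(7,1),(0,1),(3,0),(7,0)]⟩),(.r 0 ⟨1,[(0,1),(19,0),(0,0)]⟩ ⟨0,
  [(5,0),(6,0)]⟩),.k,.k,⟨false,0,⟨3,[(0,1),(4,1),(14,0),(0,0)]⟩,⟨1,[(12,0),(19,0)]⟩⟩,⟨true,0,⟨1,[(7,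
  0),(7,1),(4,0)]⟩,⟨1,[(14,0),(8,0),(0,0)]⟩⟩,⟨true,0,⟨0,[(31,0)]⟩,⟨0,[(30,0)]⟩⟩,⟨false,1,⟨1,[(7,1),
  (0,1),(3,0),(2,1),(17,0)]⟩,⟨1,[(0,0),(2,0),(0,0),(9,0)]⟩⟩,⟨false,1,⟨3,[(12,0),(0,0),(19,1)]⟩,⟨0,
  []⟩⟩,⟨false,1,⟨0,[(2,0),(4,0),(0,0)]⟩,⟨3,[(3,1),(0,1),(0,1),(8,1),(5,0),(0,0)]⟩⟩,[.o ⟨false,0,⟨0,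
  [(7,0),(0,0)]⟩,⟨3,[(4,1),(7,0),(0,0),(11,0),(7,0)]⟩⟩,.o ⟨false,1,⟨3,[(5,1),(6,0),(12,1),(2,1),(4,
  0)]⟩,⟨0,[(30,0)]⟩⟩,.a ⟨true,0,⟨1,[(14,0),(8,0),(0,0)]⟩,⟨0,[(15,0)]⟩⟩ ⟨false,0,⟨0,[(3,0)]⟩,⟨3,[(4,
  1),(7,1),(12,0),(7,0)]⟩⟩ ⟨true,0,⟨0,[(7,0),(0,0),(6,0)]⟩,⟨1,[(4,0),(9,0),(20,0)]⟩⟩,.o ⟨false,0,⟨3,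
  [(7,0),(6,1),(5,1),(0,0)]⟩,⟨1,[(15,1),(9,0),(6,0)]⟩⟩]⟩) (.R ⟨2,true,false,true,[0,1],[1,1,-1],[0,
  1,1],(⟨0,[]⟩,⟨0,[]⟩),(⟨0,[(23,0),(3,0)]⟩,⟨0,[(1,1),(7,0),(4,0)]⟩),⟨0,[]⟩,.k,.k,.k,.k,.k,.k,⟨true,
  0,⟨1,[(0,1),(4,1),(1,0),(2,1),(10,0)]⟩,⟨1,[(4,0),(2,0),(2,0),(11,2),(5,0)]⟩⟩,⟨false,1,⟨1,[(7,0),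
  (13,0),(10,1)]⟩,⟨3,[(4,0),(3,1),(1,0),(9,0),(1,0),(5,0)]⟩⟩,⟨false,0,⟨0,[(31,0)]⟩,⟨3,[(4,1),(20,0),
  (7,2)]⟩⟩,⟨true,0,⟨0,[(16,0)]⟩,⟨2,[(8,0),(1,0),(0,0),(9,0)]⟩⟩,⟨true,0,⟨0,[(35,0)]⟩,⟨0,[]⟩⟩,⟨false,
  1,⟨3,[(4,1),(11,3),(8,0),(7,2)]⟩,⟨0,[(0,0),(2,0),(6,0)]⟩⟩,[]⟩)))) (.Q [0,0,0,0,0,1,0,0,0,0,0,-1]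
  (.p false [0,0,0,1] [] (⟨0,[(12,0)]⟩,⟨1,[(11,0),(8,0),(0,0)]⟩) .k 0 (⟨0,[]⟩,⟨0,[]⟩) .k .k) (.R ⟨0,
  false,false,true,[0,0,0,1],[0,1],[1,1,1],(⟨0,[(13,0)]⟩,⟨1,[(12,0),(8,0),(0,0)]⟩),(⟨0,[(25,0)]⟩,⟨0,
  [(24,0)]⟩),⟨0,[(0,0)]⟩,.k,.k,(.x 0 ⟨1,[(5,0),(12,0),(5,1)]⟩ ⟨3,[(10,0),(0,0),(13,3),(4,1)]⟩),(.x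
  0 ⟨1,[(5,0),(12,0),(5,1)]⟩ ⟨3,[(10,0),(0,0),(13,3),(4,1)]⟩),.k,.k,⟨true,0,⟨0,[(29,0)]⟩,⟨1,[(2,0),
  (2,0),(2,0),(11,0),(5,0)]⟩⟩,⟨false,1,⟨0,[(13,0),(16,0)]⟩,⟨3,[(5,0),(6,1),(5,1),(0,0)]⟩⟩,⟨false,0,
  ⟨0,[(1,0),(24,0)]⟩,⟨0,[(3,0),(1,0),(2,0),(11,0),(3,0),(0,0),(1,0),(3,0)]⟩⟩,⟨true,0,⟨0,[(1,0),(11,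
  0)]⟩,⟨3,[(3,3),(1,0),(6,1),(5,1),(0,0)]⟩⟩,⟨false,0,⟨0,[]⟩,⟨0,[]⟩⟩,⟨false,0,⟨0,[]⟩,⟨0,[]⟩⟩,[.o
  ⟨false,0,⟨0,[(28,0)]⟩,⟨3,[(3,1),(6,0),(12,1),(2,1),(4,0)]⟩⟩,.o ⟨false,1,⟨3,[(2,1),(7,0),(0,0),(11,
  0),(7,0)]⟩,⟨0,[(5,0),(0,0)]⟩⟩,.a ⟨true,0,⟨1,[(12,0),(8,0),(0,0)]⟩,⟨0,[(13,0)]⟩⟩ ⟨false,0,⟨1,[(18,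
  0),(0,0)]⟩,⟨1,[(30,0),(0,0)]⟩⟩ ⟨true,0,⟨0,[(13,0),(14,0)]⟩,⟨1,[(5,0),(0,0),(5,0),(16,0)]⟩⟩,.o
  ⟨false,0,⟨3,[(5,0),(6,1),(5,1),(0,0)]⟩,⟨1,[(13,1),(9,0),(6,0)]⟩⟩]⟩) (.Q [0,0,0,0,0,0,-1,-1,1,0,1,
  -1] (.p true [0,0,1] [0,0,0,1] (⟨0,[(22,0)]⟩,⟨0,[(21,0)]⟩) .k 2 (⟨0,[(13,0)]⟩,⟨1,[(12,0),(8,0),(0,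
  0)]⟩) .k (.r (-1) ⟨3,[(5,0),(3,1),(0,1),(8,2),(10,1)]⟩ ⟨1,[(2,0),(0,1),(1,0),(2,0),(11,2),(5,
  0)]⟩)) (.K ⟨2,[0,0,0,1],0,0,(⟨0,[(14,0)]⟩,⟨1,[(13,0),(8,0),(0,0)]⟩),.k,(.x 0 ⟨1,[(6,0),(12,0),(5,
  1)]⟩ ⟨3,[(11,0),(0,0),(13,3),(4,1)]⟩),(.r 0 ⟨1,[(0,1),(5,0),(2,1),(4,1),(4,0)]⟩ ⟨0,[(4,0),(6,
  0)]⟩),.k,.k,[⟨0,[(0,0)]⟩,⟨0,[(2,0),(11,0),(15,0)]⟩,⟨1,[(14,1),(4,0),(0,0)]⟩,⟨3,[(6,0),(6,1),(5,1),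
  (0,0)]⟩]⟩) (.R ⟨1,true,false,false,[0,0,0,1],[0,0,1],[1,1,0,0,0,0,0,0,1],(⟨0,[(14,0)]⟩,⟨1,[(13,0),
  (8,0),(0,0)]⟩),(⟨0,[(23,0)]⟩,⟨0,[(22,0)]⟩),⟨0,[(1,0)]⟩,.k,.k,(.x 0 ⟨1,[(6,0),(12,0),(5,1)]⟩ ⟨3,
  [(11,0),(0,0),(13,3),(4,1)]⟩),.k,(.r 0 ⟨0,[(4,0),(16,0)]⟩ ⟨1,[(9,1),(1,0),(8,1),(3,0)]⟩),.k,
  ⟨false,0,⟨0,[(4,0),(16,0),(7,0)]⟩,⟨3,[(0,3),(5,0),(6,1),(6,2),(10,1),(0,1)]⟩⟩,⟨true,0,⟨3,[(0,1),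
  (3,1),(1,0),(2,1),(4,1),(4,0),(1,3)]⟩,⟨3,[(6,0),(6,1),(6,2)]⟩⟩,⟨false,0,⟨0,[]⟩,⟨3,[(11,0),(0,0),
  (19,1)]⟩⟩,⟨true,0,⟨0,[(0,0)]⟩,⟨3,[(3,1),(0,3),(1,0),(6,1),(1,1),(3,0),(0,1),(0,1)]⟩⟩,⟨true,0,⟨0,
  [(29,0)]⟩,⟨0,[(30,0)]⟩⟩,⟨false,1,⟨3,[(0,3),(2,1),(20,0),(7,2)]⟩,⟨3,[(4,3),(1,0),(6,1),(6,2),(0,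
  3)]⟩⟩,[]⟩)))))))) (.Q [0,0,0,1,0,0,0,0,0,1] (.pp false [-1,1]) (.K ⟨2,[-1,1,1],0,0,(⟨0,[(2,0)]⟩,
  ⟨0,[(16,0),(2,0)]⟩),.k,.k,(.r 0 ⟨1,[(1,1),(1,1),(9,0),(0,0)]⟩ ⟨0,[(15,0),(8,1),(0,0)]⟩),.k,.k,[⟨0,
  [(0,0)]⟩,⟨0,[(9,0),(14,0)]⟩,⟨1,[(10,1),(2,0),(0,0)]⟩,⟨1,[(4,0),(10,1),(0,0),(0,0)]⟩]⟩) (.I [0,0,1,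
  1,0,0,0,0,-1] (.Q [0,0,0,-1,0,0,0,0,-1,-1,0,1] (.p true [0,0,0,1] [1] (⟨0,[(9,0)]⟩,⟨1,[(8,0),(8,
  0),(0,0)]⟩) .k 1 (⟨0,[]⟩,⟨0,[]⟩) .k .k) (.I [0,0,1,1,0,0,0,0,1] (.Q [0,0,0,0,0,1,0,0,0,0,0,-1]
  (.p false [0,0,0,1] [] (⟨0,[(11,0)]⟩,⟨1,[(10,0),(8,0),(0,0)]⟩) .k 0 (⟨0,[]⟩,⟨0,[]⟩) .k .k) (.R ⟨0,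
  false,false,false,[0,0,0,1],[1,-1],[0,0,-1,-1],(⟨0,[(12,0)]⟩,⟨1,[(11,0),(8,0),(0,0)]⟩),(⟨0,[(23,
  0)]⟩,⟨0,[(24,0)]⟩),⟨0,[(0,0)]⟩,.k,.k,(.r (-1) ⟨1,[(10,0),(17,1),(0,0)]⟩ ⟨0,[(3,0)]⟩),(.r 0 ⟨0,[(1,
  0)]⟩ ⟨1,[(9,0),(18,1),(0,0)]⟩),.k,.k,⟨false,1,⟨3,[(9,0),(0,0),(18,1)]⟩,⟨0,[]⟩⟩,⟨true,0,⟨0,[(1,0),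
  (0,0)]⟩,⟨1,[(11,0),(8,0),(0,0)]⟩⟩,⟨false,1,⟨1,[(2,1),(8,0),(8,0),(0,0),(7,0),(0,0)]⟩,⟨0,[(1,0)]⟩⟩,
  ⟨true,0,⟨0,[(2,0)]⟩,⟨1,[(1,1),(9,0),(8,0),(0,0),(4,1)]⟩⟩,⟨false,0,⟨0,[]⟩,⟨0,[]⟩⟩,⟨false,0,⟨0,[]⟩,
  ⟨0,[]⟩⟩,[.o ⟨false,0,⟨0,[(4,0)]⟩,⟨3,[(9,0),(0,0),(16,3),(2,1)]⟩⟩,.o ⟨false,1,⟨1,[(22,0),(5,1),(1,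
  0)]⟩,⟨0,[(27,0)]⟩⟩,.a ⟨true,0,⟨1,[(11,0),(8,0),(0,0)]⟩,⟨0,[(12,0)]⟩⟩ ⟨false,1,⟨1,[(28,1),(0,0),(0,
  0)]⟩,⟨1,[(1,0),(1,0)]⟩⟩ ⟨true,0,⟨0,[(4,0),(7,0)]⟩,⟨1,[(7,0),(3,0),(4,0),(10,0)]⟩⟩,.o ⟨false,0,⟨1,
  [(11,0),(2,0),(2,0)]⟩,⟨1,[(12,1),(9,0),(6,0)]⟩⟩]⟩) (.Q [0,0,0,-2,0,0,-1,-1,0,-1,1] (.p true [0,0,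
  1] [1] (⟨0,[(21,0)]⟩,⟨0,[(20,0)]⟩) .k 1 (⟨0,[]⟩,⟨0,[]⟩) .k .k) (.R ⟨1,true,false,false,[1,-1],[0,
  0,1],[1,1,-1,-1],(⟨0,[(24,0)]⟩,⟨0,[(25,0)]⟩),(⟨0,[(22,0)]⟩,⟨0,[(21,0)]⟩),⟨0,[(1,1),(10,0)]⟩,.k,.k,
  (.r (-1) ⟨0,[(29,1),(0,0)]⟩ ⟨0,[(2,0),(1,0)]⟩),.k,(.r (-1) ⟨0,[(20,0),(8,1),(0,0)]⟩ ⟨5,[(2,2),(1,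
  2),(1,3),(1,1),(0,1),(9,1)]⟩),.k,⟨true,0,⟨0,[(20,0),(6,0),(1,0)]⟩,⟨0,[(6,0),(1,0),(17,0)]⟩⟩,
  ⟨false,1,⟨1,[(9,0),(10,1),(0,0),(0,0),(7,1)]⟩,⟨0,[(15,0)]⟩⟩,⟨false,0,⟨0,[]⟩,⟨3,[(10,0),(0,0),(19,
  1)]⟩⟩,⟨true,0,⟨0,[(8,0)]⟩,⟨1,[(0,0),(13,0),(18,0)]⟩⟩,⟨true,0,⟨0,[(28,0)]⟩,⟨0,[(29,0)]⟩⟩,⟨false,1,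
  ⟨0,[(8,0),(19,0),(2,0)]⟩,⟨0,[(0,0)]⟩⟩,[]⟩) (.Q [0,0,2,0,-1,0,1,0,0,0,-1] (.p false [0,0,1] [] (⟨0,
  [(22,0)]⟩,⟨0,[(21,0)]⟩) .k 0 (⟨0,[]⟩,⟨0,[]⟩) .k .k) (.I [0,0,2,0,-1,-2,1] (.K ⟨2,[0,-1,1],(-1),0,
  (⟨0,[(3,1),(5,0),(4,0)]⟩,⟨0,[(23,0),(3,0)]⟩),.k,(.x 1 ⟨0,[(0,0)]⟩ ⟨1,[(21,1),(1,1),(1,0),(1,3),(4,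
  2)]⟩),.k,.k,.k,[⟨0,[(31,0)]⟩,⟨0,[(8,0),(13,0),(0,0),(0,0),(4,0)]⟩,⟨3,[(12,0),(0,0),(7,3),(10,1)]⟩,
  ⟨0,[(1,0)]⟩]⟩) (.K ⟨2,[0,-1,1],(-1),0,(⟨0,[(3,1),(5,0),(4,0)]⟩,⟨0,[(23,0),(3,0)]⟩),.k,(.r (-1) ⟨1,
  [(0,1),(2,1),(3,3),(3,0),(2,0),(9,1),(1,1)]⟩ ⟨0,[(4,0),(1,0),(15,0)]⟩),.k,.k,.k,[⟨0,[(31,0)]⟩,⟨0,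
  [(8,0),(13,0),(0,0),(0,0),(4,0)]⟩,⟨3,[(12,0),(0,0),(7,3),(10,1)]⟩,⟨0,[(1,0)]⟩]⟩)) (.I [0,0,0,0,0,
  0,0,1,-1] (.Q [0,0,0,0,0,0,-1,-1,-1,-1,1,1] (.p true [0,0,1] [1,0,0,-1] (⟨0,[(24,0)]⟩,⟨0,[(23,
  0)]⟩) .k 2 (⟨1,[(14,0),(8,0),(0,0)]⟩,⟨0,[(15,0)]⟩) .k (.r (-1) ⟨0,[(0,0),(12,0)]⟩ ⟨0,[(0,0),(21,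
  1)]⟩)) (.K ⟨2,[1,0,0,-1],0,0,(⟨1,[(15,0),(8,0),(0,0)]⟩,⟨0,[(16,0)]⟩),.k,(.r (-1) ⟨1,[(13,0),(18,
  1),(0,0)]⟩ ⟨0,[(5,0)]⟩),(.r 0 ⟨0,[(7,0)]⟩ ⟨1,[(14,0),(17,1),(0,0)]⟩),.k,.k,[⟨0,[(0,0)]⟩,⟨1,[(5,1),
  (9,0),(8,0),(0,0),(4,1),(1,1)]⟩,⟨3,[(11,1),(3,1),(4,1),(0,0),(0,0),(6,1)]⟩,⟨0,[(5,0),(0,0)]⟩]⟩)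
  (.R ⟨1,false,false,true,[0,0,0,1],[0,0,1],[1,1,0,0,0,0,0,0,1],(⟨0,[(16,0)]⟩,⟨1,[(15,0),(8,0),(0,
  0)]⟩),(⟨0,[(25,0)]⟩,⟨0,[(24,0)]⟩),⟨0,[(4,0)]⟩,.k,.k,(.r (-1) ⟨1,[(14,0),(17,1),(0,0)]⟩ ⟨0,[(7,
  0)]⟩),.k,(.r (-1) ⟨1,[(14,0),(8,1),(8,1),(0,0)]⟩ ⟨9,[(1,4),(1,0),(3,4),(1,2),(2,1),(9,1)]⟩),.k,
  ⟨false,1,⟨1,[(14,0),(8,1),(9,0)]⟩,⟨0,[(1,0)]⟩⟩,⟨true,0,⟨2,[(3,0),(4,1),(3,0),(3,2),(6,2)]⟩,⟨1,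
  [(15,0),(2,0),(3,0)]⟩⟩,⟨false,0,⟨0,[]⟩,⟨3,[(13,0),(0,0),(19,1)]⟩⟩,⟨false,0,⟨0,[(6,0),(4,0)]⟩,⟨0,
  [(0,0),(1,0),(6,0),(13,1),(5,0)]⟩⟩,⟨true,0,⟨0,[(31,0)]⟩,⟨0,[(32,0)]⟩⟩,⟨false,0,⟨0,[(3,0),(2,0)]⟩,
  ⟨2,[(0,0),(1,2),(2,1),(2,0),(6,0),(1,0),(5,2),(5,3)]⟩⟩,[.o ⟨false,0,⟨0,[(19,0)]⟩,⟨0,[(17,0),(16,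
  0)]⟩⟩,.o ⟨false,0,⟨2,[(3,0),(4,1),(3,0)]⟩,⟨1,[(20,1),(5,0),(7,0)]⟩⟩,.a ⟨true,0,⟨1,[(15,0),(8,0),
  (0,0)]⟩,⟨0,[(16,0)]⟩⟩ ⟨true,0,⟨0,[(0,0),(15,0),(0,0)]⟩,⟨0,[(1,0),(21,0)]⟩⟩ ⟨false,0,⟨2,[(3,0),(4,
  1),(3,0),(3,2)]⟩,⟨1,[(15,0),(1,0),(2,0),(13,1)]⟩⟩,.o ⟨false,0,⟨1,[(15,0),(2,0),(2,0)]⟩,⟨1,[(16,1),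
  (9,0),(6,0)]⟩⟩]⟩)) (.Q [0,0,0,-1,0,0,0,0,1,0,0,-1] (.p false [0,0,0,1] [] (⟨0,[(15,0)]⟩,⟨1,[(14,
  0),(8,0),(0,0)]⟩) .k 0 (⟨0,[]⟩,⟨0,[]⟩) .k .k) (.R ⟨1,false,false,false,[0,0,0,1],[0,0,1],[0,1,0,
  -1,0,0,0,0,1],(⟨0,[(16,0)]⟩,⟨1,[(15,0),(8,0),(0,0)]⟩),(⟨0,[(25,0)]⟩,⟨0,[(24,0)]⟩),⟨0,[(4,0)]⟩,.k,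
  .k,(.r (-1) ⟨1,[(14,0),(17,1),(0,0)]⟩ ⟨0,[(7,0)]⟩),.k,(.r (-1) ⟨3,[(1,3),(11,0),(0,0),(17,3),(0,
  1)]⟩ ⟨9,[(3,7),(2,9),(2,3),(2,0),(2,4),(6,5)]⟩),.k,⟨false,0,⟨0,[(1,0),(28,0),(1,0)]⟩,⟨19,[(2,9),
  (0,5),(2,9),(0,9),(1,7),(2,6),(2,4),(6,1),(11,9)]⟩⟩,⟨true,0,⟨2,[(1,1),(1,0),(2,1),(5,0),(3,0),(6,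
  0)]⟩,⟨1,[(15,0),(2,0),(3,0)]⟩⟩,⟨false,0,⟨0,[(32,0)]⟩,⟨0,[(31,0),(2,0)]⟩⟩,⟨true,0,⟨0,[(6,0),(4,
  0)]⟩,⟨2,[(0,0),(0,1),(7,0),(5,0),(4,0),(1,0),(7,1)]⟩⟩,⟨true,0,⟨0,[(36,0)]⟩,⟨0,[]⟩⟩,⟨true,0,⟨0,[(3,
  0),(2,0)]⟩,⟨0,[(0,0),(19,0)]⟩⟩,[.o ⟨false,0,⟨2,[(3,0),(4,1),(3,0)]⟩,⟨1,[(20,1),(5,0),(7,0)]⟩⟩,.o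
  ⟨false,1,⟨7,[(12,3),(0,0),(0,0),(11,1),(7,3)]⟩,⟨0,[(17,0)]⟩⟩,.a ⟨true,0,⟨1,[(15,0),(8,0),(0,0)]⟩,
  ⟨0,[(16,0)]⟩⟩ ⟨false,0,⟨0,[(0,0),(15,0)]⟩,⟨1,[(7,1),(25,0),(0,0)]⟩⟩ ⟨true,0,⟨2,[(3,0),(4,1),(3,0),
  (3,2)]⟩,⟨1,[(15,0),(1,0),(2,0)]⟩⟩,.o ⟨false,0,⟨1,[(15,0),(2,0),(2,0)]⟩,⟨1,[(16,1),(9,0),(6,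
  0)]⟩⟩]⟩) (.R ⟨1,false,false,false,[1,0,0,-1],[1,-1],[1,1,0,0,0,0,0,0,-1],(⟨1,[(15,0),(8,0),(0,
  0)]⟩,⟨0,[(16,0)]⟩),(⟨0,[(27,0)]⟩,⟨0,[(28,0)]⟩),⟨0,[(4,0),(10,0)]⟩,.k,.k,(.r (-1) ⟨1,[(13,0),(18,
  1),(0,0)]⟩ ⟨0,[(5,0)]⟩),(.r 0 ⟨0,[(7,0)]⟩ ⟨1,[(14,0),(17,1),(0,0)]⟩),.k,.k,⟨false,0,⟨0,[(7,0),(22,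
  0)]⟩,⟨2,[(1,2),(0,2),(0,0),(4,1),(3,0),(16,2)]⟩⟩,⟨true,0,⟨1,[(15,0),(2,0),(2,0)]⟩,⟨0,[(16,0)]⟩⟩,
  ⟨false,0,⟨0,[]⟩,⟨3,[(13,0),(0,0),(19,1)]⟩⟩,⟨false,1,⟨1,[(8,0),(5,0),(0,0),(16,0),(1,0)]⟩,⟨0,[(0,
  0)]⟩⟩,⟨true,0,⟨0,[(31,0)]⟩,⟨0,[(32,0)]⟩⟩,⟨false,1,⟨31,[(1,5),(0,1),(0,5),(4,15),(0,3),(4,12),(0,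
  15),(10,0),(7,15)]⟩,⟨1,[(0,0),(5,0),(17,0),(0,0)]⟩⟩,[.o ⟨false,0,⟨0,[(8,0)]⟩,⟨3,[(13,0),(0,0),(16,
  3),(2,1)]⟩⟩,.o ⟨false,1,⟨1,[(26,0),(5,1),(1,0)]⟩,⟨0,[(31,0)]⟩⟩,.a ⟨true,0,⟨0,[(16,0)]⟩,⟨1,[(15,0),
  (8,0),(0,0)]⟩⟩ ⟨false,0,⟨1,[(0,0),(5,0),(8,0)]⟩,⟨1,[(14,0),(19,0)]⟩⟩ ⟨true,0,⟨1,[(8,0),(6,0),(16,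
  0)]⟩,⟨0,[(16,0),(14,0)]⟩⟩,.o ⟨false,0,⟨0,[(5,0),(0,0)]⟩,⟨7,[(13,0),(0,0),(0,3),(10,1),(6,
  3)]⟩⟩]⟩)))))) (.Q [0,1,0,0,0,0,0,0,1,1,0,-1] (.p false [0,0,0,1] [1] (⟨0,[(11,0)]⟩,⟨1,[(10,0),(8,
  0),(0,0)]⟩) .k 1 (⟨0,[]⟩,⟨0,[]⟩) .k .k) (.K ⟨2,[1,0,0,-1],0,0,(⟨1,[(11,0),(8,0),(0,0)]⟩,⟨0,[(12,
  0)]⟩),.k,(.x 0 ⟨1,[(4,0),(0,0),(11,0),(5,1)]⟩ ⟨3,[(9,0),(0,0),(13,3),(4,1)]⟩),(.r 0 ⟨0,[(3,0)]⟩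
  ⟨0,[(1,0),(8,0)]⟩),.k,.k,[⟨0,[(1,0),(3,0),(6,0),(6,0)]⟩,⟨0,[(0,0)]⟩,⟨3,[(0,1),(2,1),(7,0),(8,0),
  (0,0),(3,1)]⟩,⟨1,[(4,0),(0,0),(6,1),(4,0)]⟩]⟩) (.Q [0,0,0,0,0,1,0,0,0,0,0,-1] (.p false [0,0,0,1]
  [] (⟨0,[(12,0)]⟩,⟨1,[(11,0),(8,0),(0,0)]⟩) .k 0 (⟨0,[]⟩,⟨0,[]⟩) .k .k) (.R ⟨0,false,false,false,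
  [0,0,0,1],[1,-1],[1,0,0,0,0,0,0,0,1],(⟨0,[(13,0)]⟩,⟨1,[(12,0),(8,0),(0,0)]⟩),(⟨0,[(24,0)]⟩,⟨0,
  [(25,0)]⟩),⟨0,[(0,0)]⟩,.k,.k,(.r (-1) ⟨0,[(2,0),(8,0)]⟩ ⟨0,[(4,0)]⟩),(.r (-1) ⟨0,[(4,0),(6,0)]⟩
  ⟨1,[(1,1),(3,1),(6,0),(11,2),(0,2),(1,1)]⟩),.k,.k,⟨false,1,⟨1,[(11,0),(16,1),(2,0)]⟩,⟨1,[(1,1),(3,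
  1),(6,0),(11,2),(0,2),(1,1)]⟩⟩,⟨true,0,⟨1,[(5,0),(0,0),(6,1),(4,0)]⟩,⟨1,[(12,0),(8,0),(0,0)]⟩⟩,
  ⟨true,0,⟨0,[]⟩,⟨0,[(33,0)]⟩⟩,⟨false,0,⟨0,[(1,0),(27,0)]⟩,⟨1,[(8,0),(2,0),(0,0),(4,0),(10,0),(2,
  0)]⟩⟩,⟨false,0,⟨0,[]⟩,⟨0,[]⟩⟩,⟨false,0,⟨0,[]⟩,⟨0,[]⟩⟩,[.o ⟨false,0,⟨0,[(5,0)]⟩,⟨3,[(10,0),(0,0),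
  (16,3),(2,1)]⟩⟩,.o ⟨false,1,⟨1,[(23,0),(5,1),(1,0)]⟩,⟨0,[(28,0)]⟩⟩,.a ⟨true,0,⟨1,[(12,0),(8,0),(0,
  0)]⟩,⟨0,[(13,0)]⟩⟩ ⟨false,1,⟨1,[(11,0),(19,0)]⟩,⟨1,[(2,0),(1,0)]⟩⟩ ⟨true,0,⟨0,[(5,0),(7,0)]⟩,⟨1,
  [(8,0),(3,0),(4,0),(10,0)]⟩⟩,.o ⟨false,0,⟨1,[(12,0),(2,0),(2,0)]⟩,⟨1,[(13,1),(9,0),(6,0)]⟩⟩]⟩)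
  (.R ⟨1,false,false,false,[0,0,0,1],[1,-1],[1,0,0,0,0,0,0,0,1],(⟨0,[(13,0)]⟩,⟨1,[(12,0),(8,0),(0,
  0)]⟩),(⟨0,[(24,0)]⟩,⟨0,[(25,0)]⟩),⟨0,[(0,0)]⟩,.k,.k,(.r (-1) ⟨0,[(2,0),(8,0)]⟩ ⟨0,[(4,0)]⟩),(.r
  (-1) ⟨0,[(4,0),(6,0)]⟩ ⟨0,[(0,2),(0,0),(3,0),(6,1),(12,2),(1,0)]⟩),.k,.k,⟨false,1,⟨1,[(11,0),(16,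
  1),(2,0)]⟩,⟨0,[(0,2),(0,0),(3,0),(6,1),(12,2),(1,0)]⟩⟩,⟨true,0,⟨1,[(5,0),(0,0),(6,1),(4,0)]⟩,⟨1,
  [(12,0),(8,0),(0,0)]⟩⟩,⟨true,0,⟨0,[]⟩,⟨0,[(33,0)]⟩⟩,⟨false,0,⟨0,[(1,0),(27,0)]⟩,⟨1,[(8,0),(2,0),
  (0,0),(4,0),(10,0),(2,0)]⟩⟩,⟨false,1,⟨0,[(28,0),(2,0)]⟩,⟨0,[(29,0)]⟩⟩,⟨false,0,⟨0,[(1,0)]⟩,⟨3,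
  [(10,0),(0,2),(0,1),(8,1),(0,1)]⟩⟩,[.o ⟨false,0,⟨0,[(5,0)]⟩,⟨3,[(10,0),(0,0),(16,3),(2,1)]⟩⟩,.o
  ⟨false,1,⟨1,[(23,0),(5,1),(1,0)]⟩,⟨0,[(28,0)]⟩⟩,.a ⟨true,0,⟨1,[(12,0),(8,0),(0,0)]⟩,⟨0,[(13,0)]⟩⟩
  ⟨false,1,⟨1,[(11,0),(19,0)]⟩,⟨1,[(2,0),(1,0)]⟩⟩ ⟨true,0,⟨0,[(5,0),(7,0)]⟩,⟨1,[(8,0),(3,0),(4,0),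
  (10,0)]⟩⟩,.o ⟨false,0,⟨1,[(12,0),(2,0),(2,0)]⟩,⟨1,[(13,1),(9,0),(6,0)]⟩⟩]⟩)))) (.Q [0,0,0,0,0,1,0,
  0,0,0,0,-1] (.p false [0,0,0,1] [] (⟨0,[(10,0)]⟩,⟨1,[(9,0),(8,0),(0,0)]⟩) .k 0 (⟨0,[]⟩,⟨0,[]⟩) .k
  .k) (.R ⟨0,false,false,true,[0,0,0,1],[0,1],[0,1,1],(⟨0,[(11,0)]⟩,⟨1,[(10,0),(8,0),(0,0)]⟩),(⟨0,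
  [(23,0)]⟩,⟨0,[(22,0)]⟩),⟨0,[(0,0)]⟩,.k,.k,(.r (-1) ⟨1,[(9,0),(17,1),(0,0)]⟩ ⟨0,[(2,0)]⟩),(.r (-1)
  ⟨1,[(9,0),(17,1),(0,0)]⟩ ⟨0,[(2,0)]⟩),.k,.k,⟨true,0,⟨0,[(27,0)]⟩,⟨2,[(1,0),(0,0),(1,0),(6,0),(4,
  0)]⟩⟩,⟨false,1,⟨0,[(11,0),(16,0)]⟩,⟨1,[(10,0),(2,0),(2,0)]⟩⟩,⟨false,0,⟨0,[(2,0),(24,0)]⟩,⟨1,[(1,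
  1),(1,1),(7,1),(16,0),(0,0)]⟩⟩,⟨true,0,⟨0,[(2,0),(8,0),(13,0)]⟩,⟨0,[(1,0),(1,0),(23,0)]⟩⟩,⟨false,
  0,⟨0,[]⟩,⟨0,[]⟩⟩,⟨false,0,⟨0,[]⟩,⟨0,[]⟩⟩,[.o ⟨false,0,⟨0,[(26,0)]⟩,⟨1,[(21,0),(5,1),(1,0)]⟩⟩,.o
  ⟨false,1,⟨3,[(8,0),(0,0),(16,3),(2,1)]⟩,⟨0,[(3,0)]⟩⟩,.a ⟨true,0,⟨1,[(10,0),(8,0),(0,0)]⟩,⟨0,[(11,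
  0)]⟩⟩ ⟨false,0,⟨1,[(16,0),(0,0)]⟩,⟨1,[(28,0),(0,0)]⟩⟩ ⟨true,0,⟨0,[(11,0),(14,0)]⟩,⟨1,[(3,0),(6,0),
  (16,0)]⟩⟩,.o ⟨false,0,⟨1,[(10,0),(2,0),(2,0)]⟩,⟨1,[(11,1),(9,0),(6,0)]⟩⟩]⟩) (.Q [0,0,0,0,0,0,-1,
  -1,1,0,1,-1] (.p true [0,0,1] [0,0,0,1] (⟨0,[(20,0)]⟩,⟨0,[(19,0)]⟩) .k 2 (⟨0,[(11,0)]⟩,⟨1,[(10,0),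
  (8,0),(0,0)]⟩) .k (.r (-1) ⟨1,[(7,0),(0,0),(4,0),(3,0),(10,0)]⟩ ⟨0,[(1,0),(1,0),(7,0),(6,0)]⟩))
  (.K ⟨2,[0,0,0,1],0,0,(⟨0,[(12,0)]⟩,⟨1,[(11,0),(8,0),(0,0)]⟩),.k,(.r (-1) ⟨1,[(10,0),(17,1),(0,
  0)]⟩ ⟨0,[(3,0)]⟩),(.r 0 ⟨1,[(2,1),(1,0),(0,0),(6,1),(4,0)]⟩ ⟨1,[(9,0),(18,1),(0,0)]⟩),.k,.k,[⟨0,
  [(0,0)]⟩,⟨0,[(3,0),(8,0),(13,0),(1,0)]⟩,⟨1,[(12,1),(4,0),(0,0)]⟩,⟨1,[(11,0),(2,0),(2,0)]⟩]⟩) (.Q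
  [0,0,0,-2,0,0,-1,-1,0,-1,1] (.p true [0,0,1] [1] (⟨0,[(21,0)]⟩,⟨0,[(20,0)]⟩) .k 1 (⟨0,[]⟩,⟨0,[]⟩)
  .k .k) (.R ⟨1,true,false,false,[1,-1],[0,0,1],[1,1,-1,-1],(⟨0,[(24,0)]⟩,⟨0,[(25,0)]⟩),(⟨0,[(22,
  0)]⟩,⟨0,[(21,0)]⟩),⟨0,[(2,1),(9,0)]⟩,.k,.k,(.r (-1) ⟨0,[(29,1),(0,0)]⟩ ⟨2,[(3,1),(0,1),(1,1),(6,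
  1),(4,1)]⟩),.k,(.r (-1) ⟨0,[(20,0),(8,1),(0,0)]⟩ ⟨1,[(6,1),(1,1),(9,0),(0,0)]⟩),.k,⟨true,0,⟨0,
  [(20,0),(6,0),(1,0)]⟩,⟨0,[(6,0),(1,0),(17,0)]⟩⟩,⟨false,1,⟨1,[(9,0),(10,1),(0,0),(0,0),(7,1)]⟩,⟨0,
  [(15,0)]⟩⟩,⟨false,0,⟨0,[]⟩,⟨3,[(10,0),(0,0),(19,1)]⟩⟩,⟨true,0,⟨0,[(8,0)]⟩,⟨1,[(0,0),(13,0),(18,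
  0)]⟩⟩,⟨true,0,⟨0,[(28,0)]⟩,⟨0,[(29,0)]⟩⟩,⟨false,1,⟨0,[(8,0),(19,0),(2,0)]⟩,⟨0,[(0,0)]⟩⟩,[]⟩) (.Q
  [0,-1,0,0,1,0,-1,-1,-1,-1,1,1] (.p true [0,0,1] [1,0,0,-1] (⟨0,[(22,0)]⟩,⟨0,[(21,0)]⟩) .k 2 (⟨1,
  [(12,0),(8,0),(0,0)]⟩,⟨0,[(13,0)]⟩) .k (.x 0 ⟨2,[(0,0),(4,1),(3,0),(10,2),(1,2)]⟩ ⟨1,[(19,1),(1,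
  1),(1,0),(6,0)]⟩)) (.R ⟨1,false,false,true,[1,0,0,-1],[0,0,0,1],[1,1,0,0,0,0,0,0,-1],(⟨1,[(13,0),
  (8,0),(0,0)]⟩,⟨0,[(14,0)]⟩),(⟨0,[(14,0)]⟩,⟨1,[(13,0),(8,0),(0,0)]⟩),⟨0,[(3,0),(9,0)]⟩,.k,.k,(.r
  (-1) ⟨1,[(11,0),(18,1),(0,0)]⟩ ⟨1,[(4,1),(1,0),(0,0),(6,1),(4,0)]⟩),.k,(.r (-1) ⟨0,[(0,0),(1,0),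
  (10,0),(14,0),(1,0)]⟩ ⟨1,[(4,3),(1,2),(0,0),(6,3),(4,0)]⟩),.k,⟨false,1,⟨0,[(0,0),(1,0),(10,0),(14,
  0)]⟩,⟨0,[(4,1),(1,1),(7,1)]⟩⟩,⟨true,0,⟨0,[(13,0)]⟩,⟨1,[(6,0),(0,0),(6,3),(4,0)]⟩⟩,⟨false,0,⟨0,[]⟩,
  ⟨3,[(11,0),(0,0),(19,1)]⟩⟩,⟨false,0,⟨0,[(4,1),(1,0),(23,0)]⟩,⟨0,[(0,0),(1,0)]⟩⟩,⟨true,0,⟨0,[(29,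
  0)]⟩,⟨0,[(30,0)]⟩⟩,⟨false,0,⟨0,[(4,1),(1,0)]⟩,⟨0,[(0,0),(1,0),(27,0)]⟩⟩,[.o ⟨false,0,⟨0,[(4,0),(1,
  0),(27,0)]⟩,⟨3,[(0,1),(1,1),(21,0),(7,0)]⟩⟩,.o ⟨false,0,⟨0,[(4,0),(1,0)]⟩,⟨1,[(11,0),(2,1),(9,
  0)]⟩⟩,.a ⟨true,0,⟨0,[(14,0)]⟩,⟨1,[(13,0),(8,0),(0,0)]⟩⟩ ⟨true,0,⟨1,[(2,1),(10,0),(1,0),(2,0)]⟩,⟨0,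
  [(4,0),(1,0),(7,0)]⟩⟩ ⟨false,0,⟨1,[(4,1),(1,0),(6,0),(16,0)]⟩,⟨3,[(0,1),(1,1),(11,3),(9,0),(7,
  0)]⟩⟩,.o ⟨false,0,⟨1,[(6,0),(0,0),(6,1),(4,0)]⟩,⟨7,[(11,0),(0,0),(0,3),(10,1),(6,3)]⟩⟩]⟩) (.R ⟨1,
  false,false,false,[0,0,0,1],[1,0,-1],[0,0,0,-1,0,0,0,0,1],(⟨0,[(14,0)]⟩,⟨1,[(13,0),(8,0),(0,0)]⟩),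
  (⟨0,[(22,0)]⟩,⟨0,[(23,0)]⟩),⟨0,[(3,0)]⟩,.k,.k,(.r (-1) ⟨1,[(12,0),(17,1),(0,0)]⟩ ⟨0,[(5,0)]⟩),.k,
  (.r (-1) ⟨3,[(0,1),(5,2),(3,0),(1,0),(1,1),(5,3),(9,0),(0,3),(0,0)]⟩ ⟨0,[(5,0),(15,0)]⟩),.k,⟨true,
  0,⟨1,[(0,1),(5,1),(7,1),(5,1),(10,0),(0,0)]⟩,⟨0,[(5,0),(15,0)]⟩⟩,⟨false,1,⟨0,[(14,0),(1,0),(14,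
  0)]⟩,⟨1,[(10,0),(2,0),(7,1)]⟩⟩,⟨true,0,⟨0,[(30,0)]⟩,⟨0,[(29,0)]⟩⟩,⟨true,1,⟨1,[(11,0),(2,1),(0,1),
  (16,0)]⟩,⟨0,[(0,0)]⟩⟩,⟨false,1,⟨3,[(11,0),(0,0),(19,1)]⟩,⟨0,[]⟩⟩,⟨true,1,⟨1,[(5,1),(8,1),(0,1),
  (15,0),(0,0)]⟩,⟨0,[(0,0),(29,0)]⟩⟩,[.o ⟨false,1,⟨1,[(18,1),(5,0),(7,0)]⟩,⟨3,[(0,1),(1,1),(21,0),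
  (7,0)]⟩⟩,.o ⟨false,1,⟨0,[(15,0),(16,0)]⟩,⟨0,[(17,0)]⟩⟩,.a ⟨true,0,⟨1,[(13,0),(8,0),(0,0)]⟩,⟨0,
  [(14,0)]⟩⟩ ⟨true,0,⟨0,[(4,0),(1,0),(7,0),(15,0)]⟩,⟨0,[(5,0),(22,0)]⟩⟩ ⟨false,1,⟨0,[(14,0),(0,0),
  (16,0)]⟩,⟨1,[(10,0),(2,0)]⟩⟩,.o ⟨false,0,⟨1,[(13,0),(2,0),(2,0)]⟩,⟨1,[(14,1),(9,0),(6,
  0)]⟩⟩]⟩)))))) (.Q [0,1,0,0,0,0,0,0,-1,0,0,1] (.p true [0,0,0,1] [] (⟨0,[(9,0)]⟩,⟨1,[(8,0),(8,0),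
  (0,0)]⟩) .k 0 (⟨0,[]⟩,⟨0,[]⟩) .k .k) (.K ⟨2,[0,0,0,1],0,0,(⟨0,[(10,0)]⟩,⟨1,[(9,0),(8,0),(0,0)]⟩),
  .k,(.x 0 ⟨1,[(2,0),(0,0),(11,0),(5,1)]⟩ ⟨3,[(7,0),(0,0),(13,3),(4,1)]⟩),(.r 0 ⟨1,[(1,1),(1,1),(1,
  1),(9,0),(0,0),(0,1)]⟩ ⟨1,[(7,0),(18,1),(0,0)]⟩),.k,.k,[⟨1,[(1,1),(1,1),(5,0),(7,1),(0,0),(0,0)]⟩,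
  ⟨0,[(0,0)]⟩,⟨1,[(10,1),(4,0),(0,0)]⟩,⟨1,[(9,0),(2,0),(2,0)]⟩]⟩) (.Q [0,0,0,0,0,-1,0,0,0,1,0,-1]
  (.p false [0,0,0,1] [1] (⟨0,[(10,0)]⟩,⟨1,[(9,0),(8,0),(0,0)]⟩) .k 1 (⟨0,[]⟩,⟨0,[]⟩) .k .k) (.R ⟨1,
  false,false,false,[1,0,0,-1],[1,-1],[1,0,0,0,0,0,0,0,-1],(⟨1,[(10,0),(8,0),(0,0)]⟩,⟨0,[(11,0)]⟩),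
  (⟨0,[(22,0)]⟩,⟨0,[(23,0)]⟩),⟨0,[(0,0)]⟩,.k,.k,(.r (-1) ⟨1,[(8,0),(18,1),(0,0)]⟩ ⟨1,[(1,1),(9,1),
  (4,0),(0,0),(8,1)]⟩),(.r (-1) ⟨1,[(8,0),(7,0),(0,0),(8,1),(2,0)]⟩ ⟨0,[(0,0),(0,0),(1,0),(7,1),(11,
  0),(1,0)]⟩),.k,.k,⟨false,1,⟨1,[(8,0),(17,1),(2,0)]⟩,⟨0,[(0,0),(0,0),(1,0),(7,1),(11,0),(1,0)]⟩⟩,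
  ⟨true,0,⟨1,[(10,0),(2,0),(2,0)]⟩,⟨0,[(11,0)]⟩⟩,⟨true,0,⟨0,[]⟩,⟨0,[(31,0)]⟩⟩,⟨false,0,⟨4,[(1,2),(0,
  1),(0,0),(6,0),(13,1)]⟩,⟨1,[(8,0),(2,1),(14,1),(2,0)]⟩⟩,⟨false,1,⟨0,[(26,0),(2,0)]⟩,⟨0,[(27,0)]⟩⟩,
  ⟨false,0,⟨0,[(1,0)]⟩,⟨3,[(8,2),(0,0),(1,3)]⟩⟩,[.o ⟨false,0,⟨0,[(3,0)]⟩,⟨3,[(8,0),(0,0),(16,3),(2,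
  1)]⟩⟩,.o ⟨false,1,⟨1,[(21,0),(5,1),(1,0)]⟩,⟨0,[(26,0)]⟩⟩,.a ⟨true,0,⟨0,[(11,0)]⟩,⟨1,[(10,0),(8,0),
  (0,0)]⟩⟩ ⟨false,1,⟨1,[(8,0),(20,0)]⟩,⟨3,[(1,1),(0,1),(8,1),(4,0),(0,0),(8,1)]⟩⟩ ⟨true,0,⟨1,[(3,0),
  (6,0),(16,0)]⟩,⟨0,[(11,0),(14,0)]⟩⟩,.o ⟨false,0,⟨1,[(3,0),(0,0),(6,1),(4,0)]⟩,⟨7,[(8,0),(0,0),(0,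
  3),(10,1),(6,3)]⟩⟩]⟩) (.R ⟨0,false,false,false,[1,0,0,-1],[1,-1],[1,0,0,0,0,0,0,0,-1],(⟨1,[(10,0),
  (8,0),(0,0)]⟩,⟨0,[(11,0)]⟩),(⟨0,[(22,0)]⟩,⟨0,[(23,0)]⟩),⟨0,[(0,0)]⟩,.k,.k,(.r (-1) ⟨1,[(8,0),(18,
  1),(0,0)]⟩ ⟨1,[(1,1),(9,1),(4,0),(0,0),(8,1)]⟩),(.r (-1) ⟨1,[(8,0),(7,0),(0,0),(8,1),(2,0)]⟩ ⟨0,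
  [(0,0),(0,0),(1,0),(18,1),(0,0),(1,0)]⟩),.k,.k,⟨false,1,⟨1,[(8,0),(17,1),(2,0)]⟩,⟨0,[(0,0),(0,0),
  (1,0),(18,1),(0,0),(1,0)]⟩⟩,⟨true,0,⟨1,[(10,0),(2,0),(2,0)]⟩,⟨0,[(11,0)]⟩⟩,⟨true,0,⟨0,[]⟩,⟨0,[(31,
  0)]⟩⟩,⟨false,0,⟨4,[(1,2),(0,1),(0,0),(6,0),(13,1)]⟩,⟨1,[(8,0),(2,1),(14,1),(2,0)]⟩⟩,⟨false,0,⟨0,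
  []⟩,⟨0,[]⟩⟩,⟨false,0,⟨0,[]⟩,⟨0,[]⟩⟩,[.o ⟨false,0,⟨0,[(3,0)]⟩,⟨3,[(8,0),(0,0),(16,3),(2,1)]⟩⟩,.o
  ⟨false,1,⟨1,[(21,0),(5,1),(1,0)]⟩,⟨0,[(26,0)]⟩⟩,.a ⟨true,0,⟨0,[(11,0)]⟩,⟨1,[(10,0),(8,0),(0,0)]⟩⟩
  ⟨false,1,⟨1,[(8,0),(20,0)]⟩,⟨3,[(1,1),(0,1),(8,1),(4,0),(0,0),(8,1)]⟩⟩ ⟨true,0,⟨1,[(3,0),(6,0),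
  (16,0)]⟩,⟨0,[(11,0),(14,0)]⟩⟩,.o ⟨false,0,⟨1,[(3,0),(0,0),(6,1),(4,0)]⟩,⟨7,[(8,0),(0,0),(0,3),(10,
  1),(6,3)]⟩⟩]⟩))))))

theorem ok2 : chk (cU (-1) false 3) t2 r1 = true := by decide +kernel

noncomputable def t3 : Tre :=
  .Q [0,0,0,0,0,-1,0,0,0,1,-1] (.ed true [0,1,1] .k) t1 t2

theorem ok3 : chk (cU (-1) false 3) t3 r0 = true :=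
  chk_Q (e' := [0,0,0,0,0,1,0,0,0,-1,1]) (by decide +kernel) (by decide +kernel) ok1 ok2

noncomputable def t4 : Tre :=
  .Q [0,0,0,-1,0,0,-1,-1,0,-1,1] (.p true [0,0,1] [1] (⟨0,[(13,0)]⟩,⟨0,[(12,0)]⟩) .k 1 (⟨0,[]⟩,⟨0,
  []⟩) .k .k) t0 t3

theorem ok4 : chk (cU (-1) false 3) t4 base = true :=
  chk_Q (e' := [0,0,0,1,0,0,1,1,0,1,-1]) (by decide +kernel) (by decide +kernel) ok0 ok3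

theorem ok : chkB (cU (-1) false 3) (fax (fcU (-1)) false 2 (-1) 3 false (tU false)) t4 base = true :=
  chkB_of (by decide +kernel) ok4

end Helper11.CT.Tm1_2_m1_m1_v
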