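import Pool.Agent.Helper11.CT.Cfg
import Pool.Agent.Helper11.CT.Cut

set_option autoImplicit false
set_option linter.all false

namespace Helper11.CT.Tm1_2_m1_m1_v2

open Helper11.CT

noncomputable def base : List Con :=
  [(false,[0,0,0,0,0,2,2,0,-2,2]),
  (false,[0,0,0,0,0,0,0,0,0,1]),
  (false,[0,1,0,0,0,-1,-1,0,1,-2]),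
  (false,[0,0,1,0,0,-1,0,0,1,-2]),
  (false,[0,1,0,0,0,1,1,0,-1]),
  (false,[0,1,0,0,0,-1,-1,0,1]),
  (false,[0,0,1,0,0,1,0,0,-1]),
  (false,[0,0,1,0,0,-1,0,0,1]),
  (true,[0,0,0,0,0,0,-1]),
  (false,[0,0,0,0,0,0,0,0,-1,2]),
  (false,[0,0,0,0,0,0,0,0,1]),
  (false,[0,0,0,0,0,0,0,2,0,-4]),
  (false,[0,0,0,0,-1,0,0,0,0,2]),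
  (true,[0,0,0,0,1]),
  (true,[1,-1,1,-1]),
  (true,[0,1,-1]),
  (true,[0,1,0,1]),
  (true,[0,0,0,-1]),
  (true,[0,0,-2,0,0,0,0,2]),
  (true,[0,-2,0,0,0,0,0,2]),
  (true,[-1,0,1]),
  (true,[-1,1])]

noncomputable def t0 : Tre :=
  (.Q [0,1,0,0,0,0,0,-1,0,1] (.p true [0,0,0,1] [] (⟨0,[(1,0)]⟩,⟨0,[(1,0)]⟩) .k 0 (⟨0,[]⟩,⟨0,[]⟩)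
  .k .k) (.K ⟨1,[0,0,0,1],0,0,(⟨0,[(2,0)]⟩,⟨0,[(2,0)]⟩),.k,(.r 0 ⟨1,[(18,1),(0,0)]⟩ ⟨1,[(7,0),(0,0),
  (8,1),(2,0)]⟩),(.r 0 ⟨1,[(7,0),(0,0),(8,1),(2,0)]⟩ ⟨1,[(18,1),(0,0)]⟩),.k,.k,[⟨1,[(2,1),(4,0),(0,
  0)]⟩,⟨1,[(4,0),(2,0)]⟩,⟨0,[(0,0)]⟩,⟨1,[(2,1),(17,0)]⟩]⟩) (.Q [0,0,0,-1,0,-1,-1,0,1,-2] (.p true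
  [0,0,1] [1] (⟨0,[(11,0)]⟩,⟨0,[(10,0)]⟩) .k 1 (⟨0,[]⟩,⟨0,[]⟩) .k .k) (.R ⟨2,true,false,true,[0,1],
  [1,0,-1],[0,0,1],(⟨0,[]⟩,⟨0,[]⟩),(⟨0,[(11,0)]⟩,⟨0,[(12,0)]⟩),⟨0,[]⟩,.k,.k,.k,.k,.k,.k,⟨false,1,⟨1,
  [(2,0),(2,0),(3,0),(10,0),(0,0)]⟩,⟨0,[(10,0),(6,0)]⟩⟩,⟨true,0,⟨0,[(5,0)]⟩,⟨1,[(2,0),(0,1),(6,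
  1)]⟩⟩,⟨true,0,⟨0,[(19,0)]⟩,⟨0,[(18,0)]⟩⟩,⟨false,0,⟨0,[(0,0)]⟩,⟨1,[(2,0),(0,1),(14,1),(2,1)]⟩⟩,
  ⟨false,1,⟨0,[(21,0),(1,0)]⟩,⟨0,[]⟩⟩,⟨true,0,⟨0,[(4,0)]⟩,⟨1,[(2,0),(0,1)]⟩⟩,[]⟩) (.Q [0,0,-1,0,0,0,
  0,0,0,2] (.pp false [-1,1]) (.R ⟨2,false,false,false,[0,1],[0,0,0,1],[0,0,1],(⟨0,[]⟩,⟨0,[]⟩),(⟨0,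
  [(4,0)]⟩,⟨0,[(4,0)]⟩),⟨0,[]⟩,.k,.k,.k,(.r (-1) ⟨1,[(9,0),(0,0),(8,1),(2,0)]⟩ ⟨1,[(20,1),(0,0)]⟩),
  .k,.k,⟨false,1,⟨1,[(22,0),(1,1)]⟩,⟨1,[(21,0)]⟩⟩,⟨true,0,⟨1,[(6,0),(2,0)]⟩,⟨0,[(4,0)]⟩⟩,⟨true,0,⟨0,
  [(20,0)]⟩,⟨0,[(19,0)]⟩⟩,⟨false,0,⟨0,[(2,0),(17,0)]⟩,⟨1,[(1,0),(6,0),(10,0),(2,0)]⟩⟩,⟨false,1,⟨0,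
  [(22,0),(1,0)]⟩,⟨0,[]⟩⟩,⟨false,0,⟨0,[(2,0)]⟩,⟨1,[(3,0),(4,1),(13,0)]⟩⟩,[.o ⟨false,0,⟨3,[(14,0),(7,
  0),(1,1)]⟩,⟨3,[(14,0),(7,0),(1,1)]⟩⟩,.o ⟨false,0,⟨0,[(2,0)]⟩,⟨3,[(14,0),(7,0),(1,5)]⟩⟩,.a ⟨true,0,
  ⟨0,[(0,0)]⟩,⟨1,[(9,0),(0,0)]⟩⟩ ⟨true,0,⟨1,[(9,0),(0,0)]⟩,⟨0,[(18,0)]⟩⟩ ⟨false,0,⟨1,[(6,0),(2,0),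
  (12,0)]⟩,⟨5,[(0,1),(2,0),(4,1),(12,1),(0,0)]⟩⟩,.e ⟨false,1,⟨0,[(22,0),(1,0)]⟩,⟨0,[]⟩⟩ ⟨false,0,⟨0,
  [(2,0)]⟩,⟨1,[(3,0),(4,1),(13,0)]⟩⟩]⟩) (.Q [0,0,0,0,2,0,0,0,0,-2] (.pp true [-1,1]) (.Q [0,0,0,0,0,
  1,1,0,-1] (.p false [0,0,1] [] (⟨0,[(14,0)]⟩,⟨0,[(13,0)]⟩) .k 0 (⟨0,[]⟩,⟨0,[]⟩) .k .k) (.R ⟨0,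
  false,false,false,[0,0,0,1],[0,0,1],[1,0,0,0,0,0,0,1],(⟨0,[(6,0)]⟩,⟨0,[(6,0)]⟩),(⟨0,[(15,0)]⟩,⟨0,
  [(14,0)]⟩),⟨1,[(1,0)]⟩,.k,.k,(.r 0 ⟨1,[(22,1),(0,0)]⟩ ⟨1,[(11,0),(0,0),(8,1),(2,0)]⟩),.k,.k,.k,
  ⟨false,0,⟨1,[(13,1),(9,0)]⟩,⟨1,[(5,0),(2,0),(3,0),(10,0)]⟩⟩,⟨true,0,⟨1,[(5,0),(7,1)]⟩,⟨1,[(8,0),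
  (3,0)]⟩⟩,⟨true,0,⟨0,[]⟩,⟨0,[(26,0)]⟩⟩,⟨false,1,⟨1,[(5,0),(18,0)]⟩,⟨1,[(7,0),(2,0),(13,0)]⟩⟩,
  ⟨false,0,⟨0,[]⟩,⟨0,[]⟩⟩,⟨false,0,⟨0,[]⟩,⟨0,[]⟩⟩,[.o ⟨false,0,⟨0,[(0,0)]⟩,⟨1,[(10,1),(5,0),(7,
  0)]⟩⟩,.o ⟨false,1,⟨0,[(9,0),(14,0)]⟩,⟨0,[(7,0)]⟩⟩,.a ⟨true,0,⟨0,[(6,0)]⟩,⟨0,[(6,0)]⟩⟩ ⟨false,0,⟨1,
  [(24,0)]⟩,⟨1,[(24,0),(1,1)]⟩⟩ ⟨true,0,⟨1,[(5,0)]⟩,⟨1,[(7,0),(2,0)]⟩⟩,.o ⟨false,0,⟨3,[(2,1),(8,0),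
  (0,0)]⟩,⟨3,[(16,0),(6,1),(0,0),(1,1)]⟩⟩]⟩) (.R ⟨0,false,false,true,[0,0,0,1],[0,0,1],[0,1,0,0,0,0,
  0,1],(⟨0,[(6,0)]⟩,⟨0,[(6,0)]⟩),(⟨0,[(15,0)]⟩,⟨0,[(14,0)]⟩),⟨1,[(1,0)]⟩,.k,.k,(.r 0 ⟨1,[(22,1),(0,
  0)]⟩ ⟨1,[(11,0),(0,0),(8,1),(2,0)]⟩),.k,.k,.k,⟨false,0,⟨1,[(13,1),(9,0)]⟩,⟨1,[(5,0),(2,0),(3,0),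
  (10,0)]⟩⟩,⟨true,0,⟨1,[(5,0),(7,1)]⟩,⟨1,[(8,0),(3,0)]⟩⟩,⟨true,0,⟨0,[(26,0)]⟩,⟨0,[]⟩⟩,⟨false,1,⟨1,
  [(5,0),(18,0),(1,1)]⟩,⟨0,[(0,0),(3,0)]⟩⟩,⟨false,0,⟨0,[]⟩,⟨0,[]⟩⟩,⟨false,0,⟨0,[]⟩,⟨0,[]⟩⟩,[.o
  ⟨false,0,⟨0,[(9,0)]⟩,⟨0,[(7,0),(16,0)]⟩⟩,.a ⟨true,0,⟨1,[(5,0),(0,1)]⟩,⟨0,[(0,0)]⟩⟩ ⟨false,0,⟨1,
  [(23,0)]⟩,⟨1,[(24,0),(1,1)]⟩⟩ ⟨true,0,⟨1,[(5,0)]⟩,⟨3,[(0,3),(1,1),(8,0),(0,0)]⟩⟩,.e ⟨false,0,⟨1,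
  [(24,0),(1,1)]⟩,⟨1,[(24,0)]⟩⟩ ⟨false,0,⟨1,[(5,0)]⟩,⟨1,[(7,0),(2,0),(13,1)]⟩⟩,.o ⟨false,0,⟨3,[(2,
  1),(8,0),(0,0)]⟩,⟨3,[(16,0),(6,1),(0,0),(1,1)]⟩⟩]⟩)) (.Q [0,0,0,0,0,1,1,0,-1] (.p false [0,0,1]
  [] (⟨0,[(14,0)]⟩,⟨0,[(13,0)]⟩) .k 0 (⟨0,[]⟩,⟨0,[]⟩) .k .k) (.R ⟨1,false,false,false,[0,0,0,1],[0,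
  0,1],[0,0,0,-1,0,0,0,1],(⟨0,[(6,0)]⟩,⟨0,[(6,0)]⟩),(⟨0,[(15,0)]⟩,⟨0,[(14,0)]⟩),⟨1,[(1,0)]⟩,.k,.k,
  (.r 0 ⟨1,[(22,1),(0,0)]⟩ ⟨1,[(11,0),(0,0),(8,1),(2,0)]⟩),.k,(.r 0 ⟨1,[(13,1),(8,1),(0,0)]⟩ ⟨1,[(3,
  1),(8,1),(3,0)]⟩),.k,⟨false,0,⟨1,[(13,1),(8,1),(0,0)]⟩,⟨1,[(3,1),(4,1),(14,0)]⟩⟩,⟨true,0,⟨1,[(5,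
  0),(7,1)]⟩,⟨1,[(8,0),(3,0)]⟩⟩,⟨true,0,⟨0,[(22,0)]⟩,⟨0,[(21,0)]⟩⟩,⟨false,1,⟨1,[(5,0),(18,0)]⟩,⟨1,
  [(7,0),(2,0),(13,0)]⟩⟩,⟨false,1,⟨0,[(24,0),(1,0)]⟩,⟨0,[]⟩⟩,⟨false,1,⟨0,[(3,0),(0,0)]⟩,⟨1,[(7,0),
  (2,0),(11,1),(1,0)]⟩⟩,[.o ⟨false,0,⟨0,[(0,0)]⟩,⟨1,[(10,1),(5,0),(7,0)]⟩⟩,.o ⟨false,1,⟨0,[(9,0),
  (14,0)]⟩,⟨0,[(7,0)]⟩⟩,.a ⟨true,0,⟨0,[(6,0)]⟩,⟨0,[(6,0)]⟩⟩ ⟨false,0,⟨1,[(22,1),(1,0)]⟩,⟨1,[(21,1),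
  (2,0)]⟩⟩ ⟨true,0,⟨1,[(5,0)]⟩,⟨1,[(7,0),(2,0)]⟩⟩,.o ⟨false,0,⟨3,[(2,1),(8,0),(0,0)]⟩,⟨3,[(16,0),(6,
  1),(0,0),(1,1)]⟩⟩]⟩) (.R ⟨1,false,false,true,[0,0,0,1],[0,0,1],[1,1,0,0,0,0,0,1],(⟨0,[(6,0)]⟩,⟨0,
  [(6,0)]⟩),(⟨0,[(15,0)]⟩,⟨0,[(14,0)]⟩),⟨1,[(1,0)]⟩,.k,.k,(.r 0 ⟨1,[(22,1),(0,0)]⟩ ⟨1,[(11,0),(0,0),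
  (8,1),(2,0)]⟩),.k,(.r 0 ⟨1,[(13,1),(8,1),(0,0)]⟩ ⟨1,[(3,1),(8,1),(3,0)]⟩),.k,⟨false,0,⟨1,[(13,1),
  (9,0)]⟩,⟨1,[(5,0),(2,0),(3,0),(10,0)]⟩⟩,⟨true,0,⟨1,[(5,0),(7,1)]⟩,⟨1,[(8,0),(3,0)]⟩⟩,⟨false,0,⟨0,
  []⟩,⟨0,[(24,0),(1,0)]⟩⟩,⟨false,1,⟨1,[(5,0),(18,0),(1,1)]⟩,⟨0,[(0,0),(3,0)]⟩⟩,⟨true,0,⟨0,[(21,0)]⟩,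
  ⟨0,[(22,0)]⟩⟩,⟨false,1,⟨1,[(5,0),(15,1),(2,0)]⟩,⟨0,[(0,0),(3,0),(17,0)]⟩⟩,[.o ⟨false,0,⟨0,[(9,
  0)]⟩,⟨0,[(7,0),(16,0)]⟩⟩,.a ⟨true,0,⟨1,[(5,0),(0,1)]⟩,⟨0,[(0,0)]⟩⟩ ⟨false,0,⟨1,[(23,0)]⟩,⟨1,[(24,
  0),(1,1)]⟩⟩ ⟨true,0,⟨1,[(5,0)]⟩,⟨3,[(0,3),(1,1),(8,0),(0,0)]⟩⟩,.e ⟨false,0,⟨1,[(24,0),(1,1)]⟩,⟨1,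
  [(24,0)]⟩⟩ ⟨false,0,⟨1,[(5,0)]⟩,⟨1,[(7,0),(2,0),(13,1)]⟩⟩,.o ⟨false,0,⟨3,[(2,1),(8,0),(0,0)]⟩,⟨3,
  [(16,0),(6,1),(0,0),(1,1)]⟩⟩]⟩))))))

theorem ok0 : chk (cW (-1) 3) t0 base = true := by decide +kernel

theorem ok : chkB (cW (-1) 3) (fax (fcW (-1)) false 2 (-1) 3 false tW) t0 base = true :=
  chkB_of (by decide +kernel) ok0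

end Helper11.CT.Tm1_2_m1_m1_v2
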