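import Pool.Agent.Helper11.CT.T.Tm1_34_1_m1_u_p0
import Pool.Agent.Helper11.CT.T.Tm1_34_1_m1_u_p1
import Pool.Agent.Helper11.CT.T.Tm1_34_1_m1_u_p2
import Pool.Agent.Helper11.CT.T.Tm1_34_1_m1_u_p3

set_option autoImplicit false
set_option linter.all false

namespace Helper11.CT.Tm1_34_1_m1_u

open Helper11.CT

noncomputable def t8 : Tre :=
  .Q [0,1,0,1,0,0,1,1,0,-1,1] (.p true [0,0,1] [1] (⟨0,[(23,0)]⟩,⟨0,[(22,0)]⟩) .k 1 (⟨0,[]⟩,⟨0,[]⟩)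
  .k .k) t6 t7

theorem ok8 : chk (cU 1 true 10) t8 r8 = true :=
  chk_Q (e' := [0,-1,0,-1,0,0,-1,-1,0,1,-1]) (by decide +kernel) (by decide +kernel) ok6 ok7

noncomputable def t9 : Tre :=
  .Q [0,-1,0,-2,0,0,0,0,0,1] (.pp false [-1,1]) t5 t8

theorem ok9 : chk (cU 1 true 10) t9 r7 = true :=
  chk_Q (e' := [0,1,0,2,0,0,0,0,0,-1]) (by decide +kernel) (by decide +kernel) ok5 ok8

noncomputable def t10 : Tre :=
  .I [0,1,2,1,-1,0,0,-1] t4 t9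

theorem ok10 : chk (cU 1 true 10) t10 r6 = true :=
  chk_I (e' := [1,-1,-2,-1,1,0,0,1]) (by decide +kernel) (by decide +kernel) ok4 ok9

noncomputable def t11 : Tre :=
  .Q [0,0,0,0,0,2,0,0,0,-1] (.pp true [-1,1]) t3 t10

theorem ok11 : chk (cU 1 true 10) t11 r5 = true :=
  chk_Q (e' := [0,0,0,0,0,-2,0,0,0,1]) (by decide +kernel) (by decide +kernel) ok3 ok10

noncomputable def t12 : Tre :=
  .Q [0,0,2,0,-1,0,1,0,0,0,1] (.p true [0,0,1] [] (⟨0,[(19,0)]⟩,⟨0,[(18,0)]⟩) .k 0 (⟨0,[]⟩,⟨0,[]⟩)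
  .k .k) t2 t11

theorem ok12 : chk (cU 1 true 10) t12 l4 = true :=
  chk_Q (e' := [0,0,-2,0,1,0,-1,0,0,0,-1]) (by decide +kernel) (by decide +kernel) ok2 ok11

noncomputable def t14 : Tre :=
  .Q [0,0,0,0,0,0,1,0,0,-1,1] (.p true [0,0,1] [1] (⟨0,[(18,0)]⟩,⟨0,[(17,0)]⟩) .k 1 (⟨0,[]⟩,⟨0,[]⟩)
  .k .k) t12 t13

theorem ok14 : chk (cU 1 true 10) t14 l3 = true :=
  chk_Q (e' := [0,0,0,0,0,0,-1,0,0,1,-1]) (by decide +kernel) (by decide +kernel) ok12 ok13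

noncomputable def t17 : Tre :=
  .Q [0,0,0,0,0,1,0,0,0,-1,1] (.ed false [0,1,1] .k) t15 t16

theorem ok17 : chk (cU 1 true 10) t17 l10 = true :=
  chk_Q (e' := [0,0,0,0,0,-1,0,0,0,1,-1]) (by decide +kernel) (by decide +kernel) ok15 ok16

noncomputable def t19 : Tre :=
  .Q [0,0,0,0,0,0,1,0,0,-1,1] (.p true [0,0,1] [1] (⟨0,[(18,0)]⟩,⟨0,[(17,0)]⟩) .k 1 (⟨0,[]⟩,⟨0,[]⟩)
  .k .k) t17 t18

theorem ok19 : chk (cU 1 true 10) t19 r3 = true :=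
  chk_Q (e' := [0,0,0,0,0,0,-1,0,0,1,-1]) (by decide +kernel) (by decide +kernel) ok17 ok18

noncomputable def t20 : Tre :=
  .Q [0,0,0,0,0,1,0,0,0,0,-1] (.ed true [1,-1,1] .k) t14 t19

theorem ok20 : chk (cU 1 true 10) t20 r2 = true :=
  chk_Q (e' := [0,0,0,0,0,-1,0,0,0,0,1]) (by decide +kernel) (by decide +kernel) ok14 ok19

noncomputable def t21 : Tre :=
  .Q [0,0,0,-1,0,0,1,1,0,0,1] (.p true [0,0,1] [] (⟨0,[(16,0)]⟩,⟨0,[(15,0)]⟩) .k 0 (⟨0,[]⟩,⟨0,[]⟩)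
  .k .k) t1 t20

theorem ok21 : chk (cU 1 true 10) t21 r1 = true :=
  chk_Q (e' := [0,0,0,1,0,0,-1,-1,0,0,-1]) (by decide +kernel) (by decide +kernel) ok1 ok20

noncomputable def t22 : Tre :=
  .Q [0,0,0,0,0,0,1,1,0,0,1] (.p true [0,0,1] [] (⟨0,[(15,0)]⟩,⟨0,[(14,0)]⟩) .k 0 (⟨0,[]⟩,⟨0,[]⟩)
  .k .k) t0 t21

theorem ok22 : chk (cU 1 true 10) t22 l0 = true :=
  chk_Q (e' := [0,0,0,0,0,0,-1,-1,0,0,-1]) (by decide +kernel) (by decide +kernel) ok0 ok21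

noncomputable def t35 : Tre :=
  .Q [0,0,0,0,0,0,-2,-2,0,1,-2] (.p false [0,0,1] [1,0,-1] (⟨0,[(28,0)]⟩,⟨0,[(27,0)]⟩) .k 2 (⟨0,
  [(27,0)]⟩,⟨0,[(28,0)]⟩) .k (.r (-1) ⟨8,[(1,3),(2,1),(2,3),(0,5),(11,9),(1,5),(13,4)]⟩ ⟨0,[(26,
  1)]⟩)) t33 t34

theorem ok35 : chk (cU 1 true 10) t35 r24 = true :=
  chk_Q (e' := [0,0,0,0,0,0,2,2,0,-1,2]) (by decide +kernel) (by decide +kernel) ok33 ok34

noncomputable def t36 : Tre :=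
  .Q [0,-1,0,-2,0,0,1,1,0,0,1] (.p true [0,0,1] [] (⟨0,[(27,0)]⟩,⟨0,[(26,0)]⟩) .k 0 (⟨0,[]⟩,⟨0,[]⟩)
  .k .k) t32 t35

theorem ok36 : chk (cU 1 true 10) t36 l23 = true :=
  chk_Q (e' := [0,1,0,2,0,0,-1,-1,0,0,-1]) (by decide +kernel) (by decide +kernel) ok32 ok35

noncomputable def t38 : Tre :=
  .Q [0,0,-2,0,1,0,-1,0,0,0,-1] (.p false [0,0,1] [] (⟨0,[(26,0)]⟩,⟨0,[(25,0)]⟩) .k 0 (⟨0,[]⟩,⟨0,
  []⟩) .k .k) t36 t37

theorem ok38 : chk (cU 1 true 10) t38 r22 = true :=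
  chk_Q (e' := [0,0,2,0,-1,0,1,0,0,0,1]) (by decide +kernel) (by decide +kernel) ok36 ok37

noncomputable def t39 : Tre :=
  .Q [0,-1,0,-1,0,0,1,1,0,0,1] (.p true [0,0,1] [] (⟨0,[(25,0)]⟩,⟨0,[(24,0)]⟩) .k 0 (⟨0,[]⟩,⟨0,[]⟩)
  .k .k) t31 t38

theorem ok39 : chk (cU 1 true 10) t39 r21 = true :=
  chk_Q (e' := [0,1,0,1,0,0,-1,-1,0,0,-1]) (by decide +kernel) (by decide +kernel) ok31 ok38

noncomputable def t40 : Tre :=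
  .Q [0,0,2,0,-1,0,0,0,0,1] (.pp false [-1,1]) t30 t39

theorem ok40 : chk (cU 1 true 10) t40 r20 = true :=
  chk_Q (e' := [0,0,-2,0,1,0,0,0,0,-1]) (by decide +kernel) (by decide +kernel) ok30 ok39

noncomputable def t41 : Tre :=
  .I [0,1,-1,-2,0,0,0,-1] t29 t40

theorem ok41 : chk (cU 1 true 10) t41 r19 = true :=
  chk_I (e' := [1,-1,1,2,0,0,0,1]) (by decide +kernel) (by decide +kernel) ok29 ok40

noncomputable def t42 : Tre :=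
  .Q [0,0,0,0,0,1,0,0,0,0,-1] (.ed true [1,-1,1] .k) t28 t41

theorem ok42 : chk (cU 1 true 10) t42 r18 = true :=
  chk_Q (e' := [0,0,0,0,0,-1,0,0,0,0,1]) (by decide +kernel) (by decide +kernel) ok28 ok41

noncomputable def t43 : Tre :=
  .Q [0,-1,0,-2,0,0,-1,-1,0,1,-1] (.p false [0,0,1] [1] (⟨0,[(21,0)]⟩,⟨0,[(20,0)]⟩) .k 1 (⟨0,[]⟩,⟨0,
  []⟩) .k .k) t27 t42

theorem ok43 : chk (cU 1 true 10) t43 l17 = true :=
  chk_Q (e' := [0,1,0,2,0,0,1,1,0,-1,1]) (by decide +kernel) (by decide +kernel) ok27 ok42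

noncomputable def t53 : Tre :=
  .I [1,1,-2,-1,1,0,0,2] t51 t52

theorem ok53 : chk (cU 1 true 10) t53 r34 = true :=
  chk_I (e' := [0,-1,2,1,-1,0,0,-2]) (by decide +kernel) (by decide +kernel) ok51 ok52

noncomputable def t54 : Tre :=
  .Q [0,-1,0,-2,0,0,-1,-1,0,1,-1] (.p false [0,0,1] [1] (⟨0,[(29,0)]⟩,⟨0,[(28,0)]⟩) .k 1 (⟨0,[]⟩,⟨0,
  []⟩) .k .k) t50 t53

theorem ok54 : chk (cU 1 true 10) t54 l33 = true :=
  chk_Q (e' := [0,1,0,2,0,0,1,1,0,-1,1]) (by decide +kernel) (by decide +kernel) ok50 ok53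

noncomputable def t56 : Tre :=
  .Q [0,0,0,1,0,0,-2,-2,0,1,-2] (.p false [0,0,1] [1,0,-1] (⟨0,[(28,0)]⟩,⟨0,[(27,0)]⟩) .k 2 (⟨0,
  [(27,0)]⟩,⟨0,[(28,0)]⟩) .k (.r (-1) ⟨9,[(1,3),(4,19),(1,7),(7,0),(0,0),(11,3)]⟩ ⟨0,[(26,1)]⟩))
  t54 t55

theorem ok56 : chk (cU 1 true 10) t56 r32 = true :=
  chk_Q (e' := [0,0,0,-1,0,0,2,2,0,-1,2]) (by decide +kernel) (by decide +kernel) ok54 ok55

noncomputable def t57 : Tre :=
  .Q [0,0,0,0,0,0,2,2,0,-1,2] (.p true [0,0,1] [1,0,-1] (⟨0,[(27,0)]⟩,⟨0,[(26,0)]⟩) .k 2 (⟨0,[(26,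
  0)]⟩,⟨0,[(27,0)]⟩) .k (.r (-1) ⟨9,[(0,3),(4,19),(1,7),(7,0),(0,0),(11,3)]⟩ ⟨0,[(25,1)]⟩)) t49 t56

theorem ok57 : chk (cU 1 true 10) t57 l31 = true :=
  chk_Q (e' := [0,0,0,0,0,0,-2,-2,0,1,-2]) (by decide +kernel) (by decide +kernel) ok49 ok56

noncomputable def t59 : Tre :=
  .Q [0,0,-2,0,1,0,-1,0,0,0,-1] (.p false [0,0,1] [] (⟨0,[(26,0)]⟩,⟨0,[(25,0)]⟩) .k 0 (⟨0,[]⟩,⟨0,
  []⟩) .k .k) t57 t58

theorem ok59 : chk (cU 1 true 10) t59 r30 = true :=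
  chk_Q (e' := [0,0,2,0,-1,0,1,0,0,0,1]) (by decide +kernel) (by decide +kernel) ok57 ok58

noncomputable def t60 : Tre :=
  .Q [0,0,2,0,-1,0,0,0,0,1] (.pp false [-1,1]) t48 t59

theorem ok60 : chk (cU 1 true 10) t60 r29 = true :=
  chk_Q (e' := [0,0,-2,0,1,0,0,0,0,-1]) (by decide +kernel) (by decide +kernel) ok48 ok59

noncomputable def t61 : Tre :=
  .I [0,1,-1,-2,0,0,0,-1] t47 t60

theorem ok61 : chk (cU 1 true 10) t61 r28 = true :=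
  chk_I (e' := [1,-1,1,2,0,0,0,1]) (by decide +kernel) (by decide +kernel) ok47 ok60

noncomputable def t62 : Tre :=
  .Q [0,0,0,0,0,1,0,0,0,0,-1] (.ed true [1,-1,1] .k) t46 t61

theorem ok62 : chk (cU 1 true 10) t62 r27 = true :=
  chk_Q (e' := [0,0,0,0,0,-1,0,0,0,0,1]) (by decide +kernel) (by decide +kernel) ok46 ok61

noncomputable def t63 : Tre :=
  .I [0,1,-1,-1,0,0,0,-1] t45 t62

theorem ok63 : chk (cU 1 true 10) t63 r26 = true :=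
  chk_I (e' := [1,-1,1,1,0,0,0,1]) (by decide +kernel) (by decide +kernel) ok45 ok62

noncomputable def t64 : Tre :=
  .Q [0,0,0,0,0,0,-1,-1,0,0,-1] (.p false [0,0,1] [] (⟨0,[(21,0)]⟩,⟨0,[(20,0)]⟩) .k 0 (⟨0,[]⟩,⟨0,
  []⟩) .k .k) t44 t63

theorem ok64 : chk (cU 1 true 10) t64 r17 = true :=
  chk_Q (e' := [0,0,0,0,0,0,1,1,0,0,1]) (by decide +kernel) (by decide +kernel) ok44 ok63

noncomputable def t65 : Tre :=
  .Q [0,-1,0,-1,0,0,0,0,0,1] (.pp false [-1,1]) t43 t64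

theorem ok65 : chk (cU 1 true 10) t65 r16 = true :=
  chk_Q (e' := [0,1,0,1,0,0,0,0,0,-1]) (by decide +kernel) (by decide +kernel) ok43 ok64

noncomputable def t66 : Tre :=
  .Q [0,0,-1,0,0,0,2,0,0,-1,2] (.p true [0,0,1] [1,0,-1] (⟨0,[(19,0)]⟩,⟨0,[(18,0)]⟩) .k 2 (⟨0,[(18,
  0)]⟩,⟨0,[(19,0)]⟩) .k (.r (-1) ⟨0,[(5,1),(5,1),(11,1),(1,1),(0,0)]⟩ ⟨0,[(17,1)]⟩)) t26 t65

theorem ok66 : chk (cU 1 true 10) t66 l15 = true :=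
  chk_Q (e' := [0,0,1,0,0,0,-2,0,0,1,-2]) (by decide +kernel) (by decide +kernel) ok26 ok65

noncomputable def t76 : Tre :=
  .I [0,0,1,0,0,1,-2] t74 t75

theorem ok76 : chk (cU 1 true 10) t76 l48 = true :=
  chk_I (e' := [1,0,-1,0,0,-1,2]) (by decide +kernel) (by decide +kernel) ok74 ok75

noncomputable def t78 : Tre :=
  .Q [0,0,1,0,0,0,-2,0,0,1,-2] (.p false [0,0,1] [1,0,-1] (⟨0,[(31,0)]⟩,⟨0,[(30,0)]⟩) .k 2 (⟨0,[(30,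
  0)]⟩,⟨0,[(31,0)]⟩) .k (.r (-1) ⟨14,[(1,11),(1,6),(3,5),(3,2),(5,8),(1,3),(0,3),(7,7)]⟩ ⟨0,[(29,
  1)]⟩)) t76 t77

theorem ok78 : chk (cU 1 true 10) t78 r47 = true :=
  chk_Q (e' := [0,0,-1,0,0,0,2,0,0,-1,2]) (by decide +kernel) (by decide +kernel) ok76 ok77

noncomputable def t79 : Tre :=
  .Q [0,0,0,0,0,0,-2,-2,0,1,-2] (.p false [0,0,1] [1,0,-1] (⟨0,[(30,0)]⟩,⟨0,[(29,0)]⟩) .k 2 (⟨0,
  [(29,0)]⟩,⟨0,[(30,0)]⟩) .k (.r (-1) ⟨14,[(0,11),(1,6),(3,5),(3,2),(5,8),(1,3),(0,3),(7,7)]⟩ ⟨0,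
  [(28,1)]⟩)) t73 t78

theorem ok79 : chk (cU 1 true 10) t79 l46 = true :=
  chk_Q (e' := [0,0,0,0,0,0,2,2,0,-1,2]) (by decide +kernel) (by decide +kernel) ok73 ok78

noncomputable def t81 : Tre :=
  .Q [0,0,0,-1,0,0,2,2,0,-1,2] (.p true [0,0,1] [1,0,-1] (⟨0,[(29,0)]⟩,⟨0,[(28,0)]⟩) .k 2 (⟨0,[(28,
  0)]⟩,⟨0,[(29,0)]⟩) .k (.r (-1) ⟨2,[(1,1),(3,1),(3,1),(13,3),(2,1),(3,0)]⟩ ⟨0,[(27,1)]⟩)) t79 t80

theorem ok81 : chk (cU 1 true 10) t81 r45 = true :=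
  chk_Q (e' := [0,0,0,1,0,0,-2,-2,0,1,-2]) (by decide +kernel) (by decide +kernel) ok79 ok80

noncomputable def t82 : Tre :=
  .Q [0,-1,0,-2,0,0,1,1,0,0,1] (.p true [0,0,1] [] (⟨0,[(28,0)]⟩,⟨0,[(27,0)]⟩) .k 0 (⟨0,[]⟩,⟨0,[]⟩)
  .k .k) t72 t81

theorem ok82 : chk (cU 1 true 10) t82 l44 = true :=
  chk_Q (e' := [0,1,0,2,0,0,-1,-1,0,0,-1]) (by decide +kernel) (by decide +kernel) ok72 ok81

noncomputable def t84 : Tre :=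
  .Q [0,0,-2,0,1,0,-1,0,0,0,-1] (.p false [0,0,1] [] (⟨0,[(27,0)]⟩,⟨0,[(26,0)]⟩) .k 0 (⟨0,[]⟩,⟨0,
  []⟩) .k .k) t82 t83

theorem ok84 : chk (cU 1 true 10) t84 r43 = true :=
  chk_Q (e' := [0,0,2,0,-1,0,1,0,0,0,1]) (by decide +kernel) (by decide +kernel) ok82 ok83

noncomputable def t85 : Tre :=
  .I [0,0,2,0,-1,2,1] t71 t84

theorem ok85 : chk (cU 1 true 10) t85 l42 = true :=
  chk_I (e' := [1,0,-2,0,1,-2,-1]) (by decide +kernel) (by decide +kernel) ok71 ok84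

noncomputable def t87 : Tre :=
  .Q [0,0,0,0,0,-1,0,0,0,0,1] (.ed false [1,-1,1] .k) t85 t86

theorem ok87 : chk (cU 1 true 10) t87 r41 = true :=
  chk_Q (e' := [0,0,0,0,0,1,0,0,0,0,-1]) (by decide +kernel) (by decide +kernel) ok85 ok86

noncomputable def t88 : Tre :=
  .Q [0,-1,0,-1,0,0,1,1,0,0,1] (.p true [0,0,1] [] (⟨0,[(24,0)]⟩,⟨0,[(23,0)]⟩) .k 0 (⟨0,[]⟩,⟨0,[]⟩)
  .k .k) t70 t87

theorem ok88 : chk (cU 1 true 10) t88 l40 = true :=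
  chk_Q (e' := [0,1,0,1,0,0,-1,-1,0,0,-1]) (by decide +kernel) (by decide +kernel) ok70 ok87

noncomputable def t90 : Tre :=
  .I [1,-1,1,1,0,0,0,1] t88 t89

theorem ok90 : chk (cU 1 true 10) t90 r39 = true :=
  chk_I (e' := [0,1,-1,-1,0,0,0,-1]) (by decide +kernel) (by decide +kernel) ok88 ok89

noncomputable def t91 : Tre :=
  .Q [0,0,2,0,-1,0,0,0,0,1] (.pp false [-1,1]) t69 t90

theorem ok91 : chk (cU 1 true 10) t91 r38 = true :=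
  chk_Q (e' := [0,0,-2,0,1,0,0,0,0,-1]) (by decide +kernel) (by decide +kernel) ok69 ok90

noncomputable def t92 : Tre :=
  .Q [0,0,0,0,0,2,0,0,0,-1,1] (.p true [0,0,1] [1] (⟨0,[(21,0)]⟩,⟨0,[(20,0)]⟩) .k 1 (⟨0,[]⟩,⟨0,[]⟩)
  .k .k) t68 t91

theorem ok92 : chk (cU 1 true 10) t92 r37 = true :=
  chk_Q (e' := [0,0,0,0,0,-2,0,0,0,1,-1]) (by decide +kernel) (by decide +kernel) ok68 ok91

noncomputable def t93 : Tre :=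
  .Q [0,-1,0,-2,0,0,-1,-1,0,1,-1] (.p false [0,0,1] [1] (⟨0,[(20,0)]⟩,⟨0,[(19,0)]⟩) .k 1 (⟨0,[]⟩,⟨0,
  []⟩) .k .k) t67 t92

theorem ok93 : chk (cU 1 true 10) t93 l36 = true :=
  chk_Q (e' := [0,1,0,2,0,0,1,1,0,-1,1]) (by decide +kernel) (by decide +kernel) ok67 ok92

noncomputable def t99 : Tre :=
  .Q [0,0,0,1,0,0,1,1,0,0,1] (.p true [0,0,1] [] (⟨0,[(27,0)]⟩,⟨0,[(26,0)]⟩) .k 0 (⟨0,[]⟩,⟨0,[]⟩)
  .k .k) t97 t98

theorem ok99 : chk (cU 1 true 10) t99 r56 = true :=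
  chk_Q (e' := [0,0,0,-1,0,0,-1,-1,0,0,-1]) (by decide +kernel) (by decide +kernel) ok97 ok98

noncomputable def t100 : Tre :=
  .I [1,1,-1,-1,0,0,0,-1] t96 t99

theorem ok100 : chk (cU 1 true 10) t100 r55 = true :=
  chk_I (e' := [0,-1,1,1,0,0,0,1]) (by decide +kernel) (by decide +kernel) ok96 ok99

noncomputable def t101 : Tre :=
  .Q [0,0,0,0,0,2,0,0,0,-1,1] (.p true [0,0,1] [1] (⟨0,[(25,0)]⟩,⟨0,[(24,0)]⟩) .k 1 (⟨0,[]⟩,⟨0,[]⟩)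
  .k .k) t95 t100

theorem ok101 : chk (cU 1 true 10) t101 l54 = true :=
  chk_Q (e' := [0,0,0,0,0,-2,0,0,0,1,-1]) (by decide +kernel) (by decide +kernel) ok95 ok100

noncomputable def t103 : Tre :=
  .Q [0,0,-2,0,1,0,-1,0,0,0,-1] (.p false [0,0,1] [] (⟨0,[(24,0)]⟩,⟨0,[(23,0)]⟩) .k 0 (⟨0,[]⟩,⟨0,
  []⟩) .k .k) t101 t102

theorem ok103 : chk (cU 1 true 10) t103 l53 = true :=
  chk_Q (e' := [0,0,2,0,-1,0,1,0,0,0,1]) (by decide +kernel) (by decide +kernel) ok101 ok102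

noncomputable def t105 : Tre :=
  .I [0,0,-2,-2,1,0,0,1] t103 t104

theorem ok105 : chk (cU 1 true 10) t105 l52 = true :=
  chk_I (e' := [1,0,2,2,-1,0,0,-1]) (by decide +kernel) (by decide +kernel) ok103 ok104

noncomputable def t107 : Tre :=
  .Q [0,0,1,0,0,0,-2,0,0,1,-2] (.p false [0,0,1] [1,0,-1] (⟨0,[(22,0)]⟩,⟨0,[(21,0)]⟩) .k 2 (⟨0,[(21,
  0)]⟩,⟨0,[(22,0)]⟩) .k (.r (-1) ⟨0,[(0,0),(2,0),(1,0),(8,0),(1,0),(4,0),(4,0)]⟩ ⟨0,[(20,1)]⟩))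
  t105 t106

theorem ok107 : chk (cU 1 true 10) t107 r51 = true :=
  chk_Q (e' := [0,0,-1,0,0,0,2,0,0,-1,2]) (by decide +kernel) (by decide +kernel) ok105 ok106

noncomputable def t108 : Tre :=
  .Q [0,0,2,0,-1,0,0,0,0,1] (.pp false [-1,1]) t94 t107

theorem ok108 : chk (cU 1 true 10) t108 l50 = true :=
  chk_Q (e' := [0,0,-2,0,1,0,0,0,0,-1]) (by decide +kernel) (by decide +kernel) ok94 ok107

noncomputable def t110 : Tre :=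
  .Q [0,0,0,0,0,-1,0,0,0,0,1] (.ed false [1,-1,1] .k) t108 t109

theorem ok110 : chk (cU 1 true 10) t110 r36 = true :=
  chk_Q (e' := [0,0,0,0,0,1,0,0,0,0,-1]) (by decide +kernel) (by decide +kernel) ok108 ok109

noncomputable def t111 : Tre :=
  .Q [0,-1,0,-1,0,0,0,0,0,1] (.pp false [-1,1]) t93 t110

theorem ok111 : chk (cU 1 true 10) t111 r15 = true :=
  chk_Q (e' := [0,1,0,1,0,0,0,0,0,-1]) (by decide +kernel) (by decide +kernel) ok93 ok110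

noncomputable def t112 : Tre :=
  .I [0,0,-1,0,0,-1,2] t66 t111

theorem ok112 : chk (cU 1 true 10) t112 r14 = true :=
  chk_I (e' := [1,0,1,0,0,1,-2]) (by decide +kernel) (by decide +kernel) ok66 ok111

noncomputable def t113 : Tre :=
  .Q [0,-1,0,-1,0,0,-1,-1,0,1,-1] (.p false [0,0,1] [1] (⟨0,[(17,0)]⟩,⟨0,[(16,0)]⟩) .k 1 (⟨0,[]⟩,⟨0,
  []⟩) .k .k) t25 t112

theorem ok113 : chk (cU 1 true 10) t113 r13 = true :=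
  chk_Q (e' := [0,1,0,1,0,0,1,1,0,-1,1]) (by decide +kernel) (by decide +kernel) ok25 ok112

noncomputable def t114 : Tre :=
  .Q [0,0,0,0,0,1,0,0,0,-1,1] (.ed false [0,1,1] .k) t24 t113

theorem ok114 : chk (cU 1 true 10) t114 r12 = true :=
  chk_Q (e' := [0,0,0,0,0,-1,0,0,0,1,-1]) (by decide +kernel) (by decide +kernel) ok24 ok113

noncomputable def t115 : Tre :=
  .Q [0,-1,2,-1,-1,0,0,0,0,1] (.pp false [-1,1]) t23 t114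

theorem ok115 : chk (cU 1 true 10) t115 r0 = true :=
  chk_Q (e' := [0,1,-2,1,1,0,0,0,0,-1]) (by decide +kernel) (by decide +kernel) ok23 ok114

noncomputable def t116 : Tre :=
  .I [0,1,0,-1,0,0,0,1] t22 t115

theorem ok116 : chk (cU 1 true 10) t116 base = true :=
  chk_I (e' := [1,-1,0,1,0,0,0,-1]) (by decide +kernel) (by decide +kernel) ok22 ok115

theorem ok : chkB (cU 1 true 10) (fax (fcU 1) false 34 1 10 false (tU true)) t116 base = true :=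
  chkB_of (by decide +kernel) ok116

end Helper11.CT.Tm1_34_1_m1_u
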