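import Pool.Agent.Helper11.CT.Cfg
import Pool.Agent.Helper11.CT.Cut

set_option autoImplicit false
set_option linter.all false

namespace Helper11.CT.Tm1_34_m1_1_u

open Helper11.CT

noncomputable def base : List Con :=
  [(false,[0,1,0,1,0,0,-1,0,0,0,1]),
  (false,[0,0,0,0,0,0,2,0,0,1,-2]),
  (true,[0,0,0,0,1,0,0,0,-2]),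
  (true,[0,0,0,0,1,0,0,0,2]),
  (false,[0,0,0,0,0,0,0,0,0,1,0,-1]),
  (false,[0,0,0,0,0,0,0,0,0,0,0,1]),
  (false,[0,1,0,0,0,0,-1,-1,0,-1,1]),
  (false,[0,0,1,0,0,0,-1,0,0,-1,1]),
  (false,[0,1,0,0,0,0,1,1,0,0,-1]),
  (false,[0,1,0,0,0,0,-1,-1,0,0,1]),
  (false,[0,0,1,0,0,0,1,0,0,0,-1]),
  (false,[0,0,1,0,0,0,-1,0,0,0,1]),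
  (true,[0,0,0,0,0,0,0,1]),
  (false,[0,0,0,0,0,0,0,0,0,1,-1]),
  (false,[0,0,0,0,0,0,0,0,0,0,1]),
  (false,[0,0,0,0,1,0,0,0,0,-2]),
  (false,[0,0,0,0,0,-1,0,0,0,1]),
  (true,[0,0,0,0,0,1]),
  (true,[1,-2,1]),
  (true,[0,1,0,1]),
  (true,[0,0,0,-1]),
  (true,[0,0,-2,0,1]),
  (true,[0,-2,0,0,1]),
  (true,[-1,0,1]),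
  (true,[-1,1])]

noncomputable def l0 : List Con := (false, [0,0,0,0,0,1,0,0,0,-1,1]) :: base

noncomputable def r0 : List Con := (false, [0,0,0,0,0,-1,0,0,0,1,-1]) :: base

noncomputable def t0 : Tre :=
  (.Q [0,0,0,1,0,0,0,0,0,1] (.pp false [-1,1]) (.R ⟨0,false,false,true,[-1,1,1],[0,1],[0,1,1,0,0,0,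
  0,1],(⟨0,[(1,0)]⟩,⟨0,[(15,0),(2,0)]⟩),(⟨0,[(19,0)]⟩,⟨0,[(18,0)]⟩),⟨0,[(15,0)]⟩,.k,.k,.k,.k,.k,.k,
  ⟨true,0,⟨0,[(14,0),(7,0)]⟩,⟨2,[(0,1),(2,0),(4,2),(3,0),(7,1),(0,0)]⟩⟩,⟨false,1,⟨0,[(9,0),(13,0)]⟩,
  ⟨1,[(3,0),(2,0),(0,0)]⟩⟩,⟨false,0,⟨0,[(22,0)]⟩,⟨0,[(21,0),(2,0)]⟩⟩,⟨true,0,⟨0,[(8,0)]⟩,⟨1,[(3,0),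
  (2,0),(0,0),(6,1)]⟩⟩,⟨false,0,⟨0,[]⟩,⟨0,[]⟩⟩,⟨false,0,⟨0,[]⟩,⟨0,[]⟩⟩,[.o ⟨false,0,⟨0,[(21,0)]⟩,⟨1,
  [(17,0),(4,1),(1,0)]⟩⟩,.a ⟨true,0,⟨0,[(0,0)]⟩,⟨0,[(22,0)]⟩⟩ ⟨false,0,⟨0,[(14,0)]⟩,⟨1,[(3,0),(4,0),
  (2,0),(11,0),(0,0)]⟩⟩ ⟨true,0,⟨0,[(8,0),(5,0),(5,0),(0,0)]⟩,⟨1,[(3,0),(2,0),(0,0),(14,1)]⟩⟩,.e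
  ⟨false,0,⟨1,[(12,0),(0,0),(0,1)]⟩,⟨1,[(3,0),(4,0),(2,0),(8,1),(2,1)]⟩⟩ ⟨false,0,⟨0,[(8,0),(5,0),
  (5,0),(0,0)]⟩,⟨1,[(3,0),(2,0),(0,0),(14,1),(0,0),(0,0)]⟩⟩,.o ⟨false,0,⟨1,[(3,0),(2,0),(0,0)]⟩,⟨1,
  [(9,1),(7,0),(5,0)]⟩⟩]⟩) (.Q [0,0,0,-1,0,0,-1,-1,0,-1,1] (.p true [0,0,1] [1] (⟨0,[(16,0)]⟩,⟨0,
  [(15,0)]⟩) .k 1 (⟨0,[]⟩,⟨0,[]⟩) .k .k) (.R ⟨2,true,false,false,[0,1],[1,0,-1],[0,1,1],(⟨0,[]⟩,⟨0,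
  []⟩),(⟨0,[(16,0)]⟩,⟨0,[(17,0)]⟩),⟨0,[]⟩,.k,.k,.k,.k,.k,.k,⟨false,0,⟨0,[(15,0),(11,0)]⟩,⟨1,[(4,0),
  (4,0),(2,0),(8,1),(2,1)]⟩⟩,⟨true,0,⟨0,[(10,0)]⟩,⟨1,[(4,0),(2,0),(0,0)]⟩⟩,⟨false,0,⟨0,[(23,0)]⟩,⟨0,
  [(22,0),(2,0)]⟩⟩,⟨true,0,⟨0,[(0,0)]⟩,⟨0,[(3,0),(0,0),(10,0)]⟩⟩,⟨true,0,⟨0,[(27,0)]⟩,⟨0,[]⟩⟩,
  ⟨false,1,⟨0,[(9,0),(15,0)]⟩,⟨1,[(4,0),(2,0),(0,0),(6,1)]⟩⟩,[]⟩) (.Q [0,0,0,0,0,0,-1,0,0,0,1] (.p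
  true [0,0,1] [] (⟨0,[(17,0)]⟩,⟨0,[(16,0)]⟩) .k 0 (⟨0,[]⟩,⟨0,[]⟩) .k .k) (.R ⟨0,false,false,true,
  [1,0,-1],[0,0,1],[1],(⟨0,[(17,0)]⟩,⟨0,[(18,0)]⟩),(⟨0,[(18,0)]⟩,⟨0,[(17,0)]⟩),⟨0,[(3,0)]⟩,.k,.k,.k,
  .k,.k,.k,⟨false,1,⟨1,[(5,0),(4,0),(2,0),(8,1),(2,1)]⟩,⟨0,[(16,0),(11,0)]⟩⟩,⟨true,0,⟨0,[(5,0)]⟩,⟨0,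
  [(0,0),(10,0)]⟩⟩,⟨true,0,⟨0,[(16,0)]⟩,⟨1,[(5,0),(4,0),(2,0)]⟩⟩,⟨false,0,⟨0,[(5,0),(10,1)]⟩,⟨1,
  [(10,1),(2,1),(8,1),(2,0),(0,0)]⟩⟩,⟨false,0,⟨0,[]⟩,⟨0,[]⟩⟩,⟨false,0,⟨0,[]⟩,⟨0,[]⟩⟩,[.o ⟨false,0,
  ⟨0,[(12,0)]⟩,⟨0,[(10,0),(15,0)]⟩⟩,.o ⟨false,0,⟨0,[(1,0),(0,0)]⟩,⟨1,[(13,1),(5,0),(6,0)]⟩⟩,.a
  ⟨true,0,⟨0,[(0,0)]⟩,⟨1,[(5,0),(2,0),(0,0)]⟩⟩ ⟨true,0,⟨0,[]⟩,⟨0,[(28,0)]⟩⟩ ⟨false,0,⟨0,[(5,0),(10,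
  0)]⟩,⟨0,[(0,0),(9,0),(15,0)]⟩⟩,.o ⟨false,0,⟨0,[(11,0)]⟩,⟨7,[(5,3),(0,0),(0,0),(11,1),(5,3)]⟩⟩]⟩)
  (.Q [0,-1,0,-1,0,0,1,1,0,0,-1] (.p false [0,0,1] [] (⟨0,[(18,0)]⟩,⟨0,[(17,0)]⟩) .k 0 (⟨0,[]⟩,⟨0,
  []⟩) .k .k) (.R ⟨2,true,false,false,[0,1],[0,0,1],[0,0,1],(⟨0,[]⟩,⟨0,[]⟩),(⟨0,[(19,0)]⟩,⟨0,[(18,
  0)]⟩),⟨0,[]⟩,.k,.k,.k,.k,.k,.k,⟨true,0,⟨3,[(6,0),(4,0),(2,2),(0,1),(7,1)]⟩,⟨0,[(17,0)]⟩⟩,⟨false,0,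
  ⟨0,[(1,0)]⟩,⟨0,[(16,0),(9,0)]⟩⟩,⟨true,0,⟨0,[(25,0)]⟩,⟨0,[(24,0)]⟩⟩,⟨false,0,⟨0,[(0,0)]⟩,⟨0,[(14,
  0),(9,0),(2,0)]⟩⟩,⟨false,1,⟨3,[(7,0),(0,0),(18,1)]⟩,⟨0,[]⟩⟩,⟨true,0,⟨0,[(0,0),(23,0)]⟩,⟨0,[(14,
  0)]⟩⟩,[]⟩) (.Q [0,0,0,0,0,-1,0,0,0,0,1] (.ed false [1,-1,1] .k) (.Q [0,-1,0,-1,0,0,1,1,0,1,-1]
  (.p false [0,0,1] [1] (⟨0,[(20,0)]⟩,⟨0,[(19,0)]⟩) .k 1 (⟨0,[]⟩,⟨0,[]⟩) .k .k) (.R ⟨2,true,false,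
  true,[0,1],[1,1,-1],[0,1,1],(⟨0,[]⟩,⟨0,[]⟩),(⟨0,[(20,0),(3,0)]⟩,⟨0,[(1,0)]⟩),⟨0,[]⟩,.k,.k,.k,.k,
  .k,.k,⟨true,0,⟨0,[(19,0),(7,0)]⟩,⟨1,[(2,1),(0,0),(13,0),(7,0)]⟩⟩,⟨false,1,⟨0,[(14,0),(13,0)]⟩,⟨1,
  [(8,0),(2,0),(0,0)]⟩⟩,⟨false,0,⟨0,[(27,0)]⟩,⟨0,[(26,0),(2,0)]⟩⟩,⟨true,0,⟨0,[(13,0)]⟩,⟨1,[(0,0),(3,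
  0),(26,0)]⟩⟩,⟨true,0,⟨0,[(31,0)]⟩,⟨0,[]⟩⟩,⟨false,1,⟨1,[(2,1),(19,0),(6,0)]⟩,⟨0,[(0,0)]⟩⟩,[]⟩) (.Q
  [0,0,-1,0,1,0,-1,-1,-1,-1,1,1] (.p true [0,0,1] [1,0,0,-1] (⟨0,[(21,0)]⟩,⟨0,[(20,0)]⟩) .k 2 (⟨0,
  [(11,0)]⟩,⟨0,[(12,0)]⟩) .k (.x 0 ⟨0,[(17,0),(3,0)]⟩ ⟨0,[(14,0),(5,0),(7,0)]⟩)) (.Q [0,1,-1,0,0,0,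
  0,0,-1,0,0,1] (.p true [0,0,0,1] [] (⟨0,[(13,0)]⟩,⟨0,[(12,0)]⟩) .k 0 (⟨0,[]⟩,⟨0,[]⟩) .k .k) (.Q
  [0,1,1,0,0,0,0,0,1,0,0,-1] (.p false [0,0,0,1] [] (⟨0,[(14,0)]⟩,⟨0,[(13,0)]⟩) .k 0 (⟨0,[]⟩,⟨0,
  []⟩) .k .k) (.K ⟨0,[0,0,0,1],0,0,(⟨0,[(15,0)]⟩,⟨0,[(14,0)]⟩),.k,(.r (-1) ⟨1,[(13,0),(16,1),(0,
  0)]⟩ ⟨4,[(1,4),(1,3),(3,0),(6,4),(2,1),(0,2),(1,1),(7,5)]⟩),(.x 0 ⟨0,[(27,0)]⟩ ⟨3,[(12,0),(0,0),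
  (11,1),(0,3)]⟩),.k,.k,[⟨0,[(15,0)]⟩,⟨0,[(14,0)]⟩,⟨0,[(1,0)]⟩,⟨0,[(0,0)]⟩]⟩) (.Q [0,0,0,0,0,1,0,0,
  0,-1,0,1] (.p true [0,0,0,1] [1] (⟨0,[(15,0)]⟩,⟨0,[(14,0)]⟩) .k 1 (⟨0,[]⟩,⟨0,[]⟩) .k .k) (.R ⟨0,
  false,false,true,[1,0,0,-1],[1,0,-1],[0,1,0,0,0,0,0,0,-1],(⟨0,[(15,0)]⟩,⟨0,[(16,0)]⟩),(⟨0,[(24,
  0)]⟩,⟨0,[(25,0)]⟩),⟨0,[(0,0)]⟩,.k,.k,(.x (-1) ⟨3,[(13,0),(0,0),(11,1),(0,3)]⟩ ⟨0,[(28,0)]⟩),.k,.k,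
  .k,⟨false,0,⟨1,[(1,1),(2,0),(4,0),(5,1),(3,0),(3,1)]⟩,⟨1,[(12,0),(1,0),(2,0),(2,0),(12,0)]⟩⟩,
  ⟨true,0,⟨0,[(15,0),(2,0)]⟩,⟨0,[(7,0),(8,0)]⟩⟩,⟨true,0,⟨0,[(35,0)]⟩,⟨0,[]⟩⟩,⟨false,1,⟨5,[(14,2),(0,
  5),(2,1),(1,5),(0,1),(4,1),(2,1),(3,0)]⟩,⟨0,[(1,0),(6,0),(0,0)]⟩⟩,⟨false,0,⟨0,[]⟩,⟨0,[]⟩⟩,⟨false,
  0,⟨0,[]⟩,⟨0,[]⟩⟩,[.o ⟨false,0,⟨0,[(17,0)]⟩,⟨0,[(19,0),(13,0)]⟩⟩,.o ⟨false,1,⟨1,[(20,1),(5,0),(6,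
  0)]⟩,⟨0,[(8,0),(0,0)]⟩⟩,.o ⟨false,1,⟨1,[(16,1),(9,0),(5,0)]⟩,⟨0,[(7,0),(7,0),(2,0)]⟩⟩,.a ⟨true,0,
  ⟨0,[(16,0)]⟩,⟨0,[(15,0)]⟩⟩ ⟨false,0,⟨1,[(1,1),(2,0),(4,0),(5,1),(3,0)]⟩,⟨1,[(14,0),(6,0),(0,0),
  (10,0)]⟩⟩ ⟨true,0,⟨0,[(15,0),(1,0)]⟩,⟨0,[(8,0),(0,0),(6,0)]⟩⟩]⟩) (.R ⟨1,false,false,true,[1,0,0,
  -1],[1,0,-1],[0,1,0,-1,0,0,0,0,-1],(⟨0,[(15,0)]⟩,⟨0,[(16,0)]⟩),(⟨0,[(24,0)]⟩,⟨0,[(25,0)]⟩),⟨0,[(0,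
  0)]⟩,.k,.k,(.x (-1) ⟨3,[(13,0),(0,0),(11,1),(0,3)]⟩ ⟨0,[(28,0)]⟩),.k,(.r 0 ⟨1,[(1,0),(0,0),(6,1),
  (5,1),(7,1)]⟩ ⟨1,[(6,1),(7,0),(6,1),(11,0)]⟩),.k,⟨false,0,⟨1,[(1,0),(0,0),(6,1),(5,1),(7,1)]⟩,⟨1,
  [(4,0),(1,0),(5,0),(1,0),(18,0)]⟩⟩,⟨true,0,⟨0,[(15,0),(2,0)]⟩,⟨0,[(7,0),(8,0)]⟩⟩,⟨false,0,⟨0,[(31,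
  0)]⟩,⟨0,[(30,0),(2,0)]⟩⟩,⟨false,1,⟨5,[(14,2),(0,5),(2,1),(1,5),(0,1),(4,1),(2,1),(3,0)]⟩,⟨0,[(1,
  0),(6,0),(0,0)]⟩⟩,⟨true,0,⟨0,[(35,0)]⟩,⟨0,[]⟩⟩,⟨false,1,⟨1,[(4,0),(1,0),(7,0),(0,1),(2,0),(2,0),
  (11,0)]⟩,⟨1,[(1,1),(7,0),(2,0),(10,1),(7,0)]⟩⟩,[.o ⟨false,0,⟨0,[(17,0)]⟩,⟨0,[(19,0),(13,0)]⟩⟩,.o
  ⟨false,1,⟨1,[(20,1),(5,0),(6,0)]⟩,⟨0,[(8,0),(0,0)]⟩⟩,.o ⟨false,1,⟨1,[(16,1),(9,0),(5,0)]⟩,⟨0,[(7,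
  0),(7,0),(2,0)]⟩⟩,.a ⟨true,0,⟨0,[(16,0)]⟩,⟨0,[(15,0)]⟩⟩ ⟨false,0,⟨1,[(1,0),(0,0),(6,1),(5,1)]⟩,⟨5,
  [(6,1),(1,1),(5,2),(3,1),(2,1),(7,1),(0,1),(2,2)]⟩⟩ ⟨true,0,⟨0,[(15,0),(1,0)]⟩,⟨0,[(8,0),(0,0),(6,
  0)]⟩⟩]⟩))) (.I [0,1,-2,-1,1,0,0,-1,-1] (.Q [0,0,0,0,0,1,0,0,0,-1,0,1] (.p true [0,0,0,1] [1] (⟨0,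
  [(15,0)]⟩,⟨0,[(14,0)]⟩) .k 1 (⟨0,[]⟩,⟨0,[]⟩) .k .k) (.Q [0,1,-1,-1,0,0,1,1,-1,0,-1,1] (.p false
  [0,0,1] [0,0,0,1] (⟨0,[(25,0)]⟩,⟨0,[(24,0)]⟩) .k 2 (⟨0,[(16,0)]⟩,⟨0,[(15,0)]⟩) .k (.x (-1) ⟨7,
  [(12,3),(0,0),(0,0),(10,7),(0,1),(5,3)]⟩ ⟨0,[(18,0),(5,0)]⟩)) (.R ⟨0,false,false,true,[1,0,0,-1],
  [0,1],[0,1,0,0,0,0,0,0,-1],(⟨0,[(16,0)]⟩,⟨0,[(17,0)]⟩),(⟨0,[(29,0)]⟩,⟨0,[(28,0)]⟩),⟨0,[(1,0)]⟩,.k,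
  .k,(.x (-1) ⟨3,[(14,0),(0,0),(11,1),(0,3)]⟩ ⟨0,[(29,0)]⟩),(.x (-1) ⟨3,[(14,0),(0,0),(11,1),(0,
  3)]⟩ ⟨0,[(29,0)]⟩),.k,.k,⟨false,1,⟨0,[(0,0),(15,0),(1,0),(11,0),(2,0)]⟩,⟨0,[(3,0),(13,0),(13,
  0)]⟩⟩,⟨true,0,⟨0,[(16,0)]⟩,⟨0,[(8,0),(8,0),(1,0)]⟩⟩,⟨true,0,⟨0,[(36,0)]⟩,⟨0,[]⟩⟩,⟨false,0,⟨0,[(3,
  0),(5,0),(11,0)]⟩,⟨3,[(0,1),(3,1),(5,1),(19,1),(2,0),(0,0)]⟩⟩,⟨false,0,⟨0,[]⟩,⟨0,[]⟩⟩,⟨false,0,⟨0,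
  []⟩,⟨0,[]⟩⟩,[.o ⟨false,0,⟨0,[(31,0)]⟩,⟨1,[(27,0),(4,1),(1,0)]⟩⟩,.o ⟨false,1,⟨3,[(14,0),(0,0),(15,
  3),(2,1)]⟩,⟨0,[(10,0)]⟩⟩,.o ⟨false,1,⟨1,[(17,1),(9,0),(5,0)]⟩,⟨0,[(8,0),(7,0),(2,0)]⟩⟩,.a ⟨true,0,
  ⟨0,[(17,0)]⟩,⟨0,[(16,0)]⟩⟩ ⟨false,1,⟨1,[(14,0),(18,0)]⟩,⟨0,[(3,0),(13,0)]⟩⟩ ⟨true,0,⟨0,[(16,0),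
  (14,0)]⟩,⟨0,[(10,0),(6,0)]⟩⟩]⟩) (.R ⟨0,false,false,false,[1,0,0,-1],[-1,1,1],[0,1,0,0,0,0,0,0,-1],
  (⟨0,[(16,0)]⟩,⟨0,[(17,0)]⟩),(⟨0,[(11,0)]⟩,⟨0,[(25,0),(2,0)]⟩),⟨0,[(1,0)]⟩,.k,.k,(.x (-1) ⟨3,[(14,
  0),(0,0),(11,1),(0,3)]⟩ ⟨0,[(29,0)]⟩),(.r (-1) ⟨9,[(2,7),(11,0),(6,1),(0,1),(7,3),(1,1),(1,0)]⟩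
  ⟨0,[(3,0),(13,0),(6,0),(6,0)]⟩),.k,.k,⟨false,1,⟨0,[(2,0)]⟩,⟨0,[(0,0),(8,0),(0,0),(6,0),(6,0)]⟩⟩,
  ⟨true,0,⟨1,[(13,0),(2,2),(0,0)]⟩,⟨3,[(5,2),(4,2),(6,3),(1,1),(0,0),(3,1),(5,1)]⟩⟩,⟨true,0,⟨0,[(36,
  0)]⟩,⟨0,[]⟩⟩,⟨false,0,⟨0,[(3,0),(5,0),(6,0),(0,0)]⟩,⟨0,[(4,0),(5,0)]⟩⟩,⟨false,0,⟨0,[]⟩,⟨0,[]⟩⟩,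
  ⟨false,0,⟨0,[]⟩,⟨0,[]⟩⟩,[.o ⟨false,0,⟨0,[(9,0)]⟩,⟨1,[(10,1),(10,1),(5,0),(6,0)]⟩⟩,.o ⟨false,1,⟨3,
  [(9,3),(4,0),(0,0),(18,1)]⟩,⟨0,[(10,0),(7,0)]⟩⟩,.o ⟨false,1,⟨1,[(17,1),(9,0),(5,0)]⟩,⟨0,[(8,0),(7,
  0),(2,0)]⟩⟩,.a ⟨true,0,⟨0,[(17,0)]⟩,⟨0,[(16,0)]⟩⟩ ⟨false,1,⟨1,[(14,0),(18,0)]⟩,⟨0,[(3,0),(13,
  0)]⟩⟩ ⟨true,0,⟨0,[(9,0),(6,0)]⟩,⟨0,[(10,0),(6,0),(0,0)]⟩⟩]⟩)) (.I [1,0,-2,-1,1,0,0,0,-1] (.R ⟨1,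
  false,false,true,[1,0,0,-1],[0,1],[1,1,0,0,0,0,0,0,-1],(⟨0,[(16,0)]⟩,⟨0,[(17,0)]⟩),(⟨0,[(29,0)]⟩,
  ⟨0,[(28,0)]⟩),⟨0,[(1,0)]⟩,.k,.k,(.x (-1) ⟨3,[(14,0),(0,0),(11,1),(0,3)]⟩ ⟨0,[(29,0)]⟩),(.x (-1)
  ⟨3,[(14,0),(0,0),(11,1),(0,3)]⟩ ⟨0,[(29,0)]⟩),(.r (-1) ⟨0,[(0,0),(31,0)]⟩ ⟨2,[(3,2),(3,0),(1,0),
  (7,2),(1,0),(2,0),(7,0),(0,3)]⟩),.k,⟨false,1,⟨0,[(0,0)]⟩,⟨0,[(3,0),(13,0),(13,0)]⟩⟩,⟨true,0,⟨0,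
  [(16,0)]⟩,⟨0,[(8,0),(8,0),(1,0)]⟩⟩,⟨false,0,⟨0,[]⟩,⟨3,[(14,0),(0,0),(18,1)]⟩⟩,⟨false,0,⟨0,[(3,0),
  (5,0),(11,0)]⟩,⟨1,[(0,0),(3,0),(4,0),(0,1),(6,0),(12,0)]⟩⟩,⟨true,0,⟨0,[(31,0)]⟩,⟨0,[(32,0)]⟩⟩,
  ⟨false,0,⟨0,[(3,0),(3,0),(1,0)]⟩,⟨5,[(0,3),(9,5),(3,0),(2,5),(12,1),(1,1),(1,0)]⟩⟩,[.o ⟨false,0,
  ⟨0,[(31,0)]⟩,⟨1,[(27,0),(4,1),(1,0)]⟩⟩,.o ⟨false,1,⟨3,[(14,0),(0,0),(15,3),(2,1)]⟩,⟨0,[(10,0)]⟩⟩,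
  .o ⟨false,1,⟨1,[(17,1),(9,0),(5,0)]⟩,⟨0,[(8,0),(7,0),(2,0)]⟩⟩,.a ⟨true,0,⟨0,[(17,0)]⟩,⟨0,[(16,
  0)]⟩⟩ ⟨false,1,⟨1,[(14,0),(18,0)]⟩,⟨0,[(3,0),(13,0)]⟩⟩ ⟨true,0,⟨0,[(16,0),(14,0)]⟩,⟨0,[(10,0),(6,
  0)]⟩⟩]⟩) (.R ⟨1,false,false,true,[1,0,0,-1],[1,1,-1],[0,0,0,-1,0,0,0,0,-1],(⟨0,[(16,0)]⟩,⟨0,[(17,
  0)]⟩),(⟨0,[(25,0),(3,0)]⟩,⟨0,[(6,0)]⟩),⟨0,[(1,0)]⟩,.k,.k,(.x (-1) ⟨3,[(14,0),(0,0),(11,1),(0,3)]⟩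
  ⟨0,[(29,0)]⟩),(.r (-1) ⟨3,[(2,1),(11,0),(9,5),(7,1),(1,0)]⟩ ⟨3,[(0,1),(4,1),(7,1),(1,0),(5,1),(8,
  1),(2,0)]⟩),(.x 0 ⟨3,[(0,1),(5,3),(1,3),(1,1),(3,0),(12,0),(0,3)]⟩ ⟨0,[(19,0),(5,0),(3,1),(3,
  0)]⟩),.k,⟨true,1,⟨0,[(2,0),(21,1),(5,0),(1,0)]⟩,⟨1,[(0,1),(4,0),(1,0),(5,0)]⟩⟩,⟨false,1,⟨0,[(16,
  0),(2,0),(13,0)]⟩,⟨0,[(8,0),(8,0)]⟩⟩,⟨true,0,⟨0,[(32,0)]⟩,⟨0,[(31,0)]⟩⟩,⟨false,0,⟨0,[(3,0),(3,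
  0)]⟩,⟨0,[(2,0),(6,0),(0,0),(6,0),(6,0),(5,0)]⟩⟩,⟨false,1,⟨3,[(14,0),(0,0),(18,1)]⟩,⟨0,[]⟩⟩,⟨false,
  0,⟨2,[(0,0),(2,1),(1,1),(1,1),(1,0),(6,0),(13,0),(2,0)]⟩,⟨1,[(2,1),(7,0),(2,0),(3,1),(6,3),(5,1),
  (1,0)]⟩⟩,[.o ⟨false,0,⟨0,[(5,0)]⟩,⟨0,[(20,0),(11,0),(1,0)]⟩⟩,.o ⟨false,1,⟨1,[(7,1),(19,0),(6,0)]⟩,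
  ⟨1,[(10,0),(2,0),(10,1),(7,0)]⟩⟩,.o ⟨false,1,⟨1,[(17,1),(9,0),(5,0)]⟩,⟨3,[(0,1),(9,1),(3,0),(1,3),
  (10,0)]⟩⟩,.a ⟨true,0,⟨0,[(17,0)]⟩,⟨0,[(16,0)]⟩⟩ ⟨false,1,⟨0,[(2,0),(21,0),(5,0)]⟩,⟨3,[(0,1),(14,
  0),(15,1),(2,0)]⟩⟩ ⟨true,0,⟨0,[(5,0),(10,0)]⟩,⟨1,[(10,0),(2,0),(3,1),(6,1),(7,0)]⟩⟩]⟩))) (.Q [0,1,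
  1,0,-1,0,0,0,1,0,0,-1] (.p false [0,0,0,1] [] (⟨0,[(15,0)]⟩,⟨0,[(14,0)]⟩) .k 0 (⟨0,[]⟩,⟨0,[]⟩) .k
  .k) (.K ⟨0,[0,0,0,1],0,(-1),(⟨0,[(16,0)]⟩,⟨0,[(15,0)]⟩),.k,(.x 0 ⟨0,[(18,0),(2,0),(5,0)]⟩ ⟨0,[(28,
  0),(3,0)]⟩),(.x 0 ⟨0,[(28,0)]⟩ ⟨3,[(13,0),(0,0),(11,1),(0,3)]⟩),.k,.k,[⟨0,[(16,0)]⟩,⟨0,[(15,0)]⟩,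
  ⟨1,[(13,0),(2,1),(15,0),(2,1)]⟩,⟨0,[(0,0)]⟩]⟩) (.Q [0,0,0,0,0,1,0,0,0,-1,0,1] (.p true [0,0,0,1]
  [1] (⟨0,[(16,0)]⟩,⟨0,[(15,0)]⟩) .k 1 (⟨0,[]⟩,⟨0,[]⟩) .k .k) (.R ⟨0,false,false,true,[1,0,0,-1],[1,
  0,-1],[0,0,0,-1,0,0,0,0,-1],(⟨0,[(16,0)]⟩,⟨0,[(17,0)]⟩),(⟨0,[(25,0)]⟩,⟨0,[(26,0)]⟩),⟨0,[(0,0)]⟩,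
  .k,.k,(.x (-1) ⟨3,[(14,0),(0,0),(11,1),(0,3)]⟩ ⟨0,[(29,0)]⟩),.k,.k,.k,⟨false,1,⟨0,[(1,0),(8,0),(5,
  0),(7,0)]⟩,⟨0,[(2,0),(10,0),(4,0),(2,0),(11,0)]⟩⟩,⟨true,0,⟨0,[(16,0),(2,0)]⟩,⟨0,[(8,0),(8,0)]⟩⟩,
  ⟨true,0,⟨0,[(32,0)]⟩,⟨0,[(31,0)]⟩⟩,⟨false,0,⟨0,[(3,0),(17,0)]⟩,⟨0,[(1,0),(7,0),(0,0)]⟩⟩,⟨false,0,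
  ⟨0,[]⟩,⟨0,[]⟩⟩,⟨false,0,⟨0,[]⟩,⟨0,[]⟩⟩,[.o ⟨false,0,⟨0,[(18,0)]⟩,⟨0,[(20,0),(13,0)]⟩⟩,.o ⟨false,1,
  ⟨1,[(21,1),(5,0),(6,0)]⟩,⟨0,[(9,0),(0,0)]⟩⟩,.o ⟨false,1,⟨1,[(17,1),(9,0),(5,0)]⟩,⟨9,[(2,1),(2,1),
  (4,3),(3,0),(1,9),(2,1),(2,3),(4,0)]⟩⟩,.a ⟨true,0,⟨0,[(17,0)]⟩,⟨0,[(16,0)]⟩⟩ ⟨false,1,⟨0,[(1,0),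
  (8,0),(5,0)]⟩,⟨9,[(2,3),(2,0),(1,2),(5,0),(1,2),(6,1),(8,1),(2,0)]⟩⟩ ⟨true,0,⟨0,[(16,0),(1,0)]⟩,
  ⟨0,[(9,0),(0,0),(6,0)]⟩⟩]⟩) (.R ⟨1,false,false,true,[1,0,0,-1],[1,0,-1],[0,0,0,-1,0,0,0,0,-1],(⟨0,
  [(16,0)]⟩,⟨0,[(17,0)]⟩),(⟨0,[(25,0)]⟩,⟨0,[(26,0)]⟩),⟨0,[(0,0)]⟩,.k,.k,(.x (-1) ⟨3,[(14,0),(0,0),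
  (11,1),(0,3)]⟩ ⟨0,[(29,0)]⟩),.k,(.r (-1) ⟨1,[(14,0),(9,1),(7,1),(0,0)]⟩ ⟨1,[(3,1),(1,0),(1,0),(5,
  0),(3,1)]⟩),.k,⟨false,1,⟨0,[(1,0),(8,0),(5,0),(7,0)]⟩,⟨0,[(2,0),(10,0),(4,0),(2,0),(11,0)]⟩⟩,
  ⟨true,0,⟨0,[(16,0),(2,0)]⟩,⟨0,[(8,0),(8,0)]⟩⟩,⟨true,0,⟨0,[(32,0)]⟩,⟨0,[(31,0)]⟩⟩,⟨false,0,⟨0,[(3,
  0),(17,0)]⟩,⟨0,[(1,0),(7,0),(0,0)]⟩⟩,⟨false,1,⟨3,[(14,0),(0,0),(18,1)]⟩,⟨0,[]⟩⟩,⟨false,0,⟨0,[(3,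
  0),(3,0)]⟩,⟨1,[(1,1),(8,0),(2,0),(10,1),(7,0)]⟩⟩,[.o ⟨false,0,⟨0,[(18,0)]⟩,⟨0,[(20,0),(13,0)]⟩⟩,
  .o ⟨false,1,⟨1,[(21,1),(5,0),(6,0)]⟩,⟨0,[(9,0),(0,0)]⟩⟩,.o ⟨false,1,⟨1,[(17,1),(9,0),(5,0)]⟩,⟨9,
  [(2,1),(2,1),(4,3),(3,0),(1,9),(2,1),(2,3),(4,0)]⟩⟩,.a ⟨true,0,⟨0,[(17,0)]⟩,⟨0,[(16,0)]⟩⟩ ⟨false,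
  1,⟨0,[(1,0),(8,0),(5,0)]⟩,⟨9,[(2,3),(2,0),(1,2),(5,0),(1,2),(6,1),(8,1),(2,0)]⟩⟩ ⟨true,0,⟨0,[(16,
  0),(1,0)]⟩,⟨0,[(9,0),(0,0),(6,0)]⟩⟩]⟩))))) (.K ⟨0,[0,0,0,1],0,(-1),(⟨0,[(13,0)]⟩,⟨0,[(12,0)]⟩),.k,
  (.x 0 ⟨0,[(15,0),(2,0),(5,0)]⟩ ⟨0,[(25,0),(3,0)]⟩),(.x 0 ⟨0,[(25,0)]⟩ ⟨3,[(10,0),(0,0),(11,1),(0,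
  3)]⟩),.k,.k,[⟨0,[(13,0)]⟩,⟨0,[(12,0)]⟩,⟨1,[(10,0),(2,1),(15,0),(2,1)]⟩,⟨0,[(0,0),(13,0)]⟩]⟩)))
  (.Q [0,0,0,0,0,0,-1,0,0,1,1] (.p true [1,-1,1] [] (⟨0,[(20,0),(1,0)]⟩,⟨0,[(0,0)]⟩) .k 0 (⟨0,[]⟩,
  ⟨0,[]⟩) .k .k) (.K ⟨0,[1,-1,1],0,0,(⟨0,[(21,0),(1,0)]⟩,⟨0,[(1,0)]⟩),.k,(.r (-1) ⟨0,[(19,0),(7,1),
  (0,0)]⟩ ⟨0,[(2,0),(14,0),(7,0),(0,0)]⟩),.k,.k,.k,[⟨0,[(0,0)]⟩,⟨0,[(3,0)]⟩,⟨2,[(0,1),(1,2),(5,0)]⟩,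
  ⟨0,[(5,0),(9,0)]⟩]⟩) (.I [0,1,0,0,0,0,0,-1,1] (.I [1,-1,-1,0,1,0,0,0,-1] (.Q [0,0,0,0,0,1,0,0,0,
  -1,0,1] (.p true [0,0,0,1] [1] (⟨0,[(14,0)]⟩,⟨0,[(13,0)]⟩) .k 1 (⟨0,[]⟩,⟨0,[]⟩) .k .k) (.R ⟨0,
  false,false,true,[1,0,0,-1],[1,0,-1],[1,0,0,0,0,0,0,0,-1],(⟨0,[(14,0)]⟩,⟨0,[(15,0)]⟩),(⟨0,[(23,
  0)]⟩,⟨0,[(24,0)]⟩),⟨0,[(0,0)]⟩,.k,.k,(.x (-1) ⟨3,[(12,0),(0,0),(11,1),(0,3)]⟩ ⟨0,[(27,0)]⟩),.k,.k,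
  .k,⟨false,1,⟨0,[(1,0),(20,0)]⟩,⟨0,[(2,0)]⟩⟩,⟨true,0,⟨0,[(14,0),(2,0)]⟩,⟨2,[(3,0),(7,0),(3,2)]⟩⟩,
  ⟨true,0,⟨0,[]⟩,⟨0,[(34,0)]⟩⟩,⟨false,0,⟨0,[(2,0),(5,0),(1,0),(3,0),(13,0)]⟩,⟨2,[(1,2),(1,0),(7,0),
  (3,2),(6,2)]⟩⟩,⟨false,0,⟨0,[]⟩,⟨0,[]⟩⟩,⟨false,0,⟨0,[]⟩,⟨0,[]⟩⟩,[.o ⟨false,0,⟨0,[(16,0)]⟩,⟨0,[(18,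
  0),(13,0)]⟩⟩,.o ⟨false,1,⟨1,[(19,1),(5,0),(6,0)]⟩,⟨2,[(3,0),(7,0),(10,2)]⟩⟩,.o ⟨false,1,⟨1,[(15,
  1),(9,0),(5,0)]⟩,⟨2,[(3,0),(10,2),(2,1),(2,0)]⟩⟩,.a ⟨true,0,⟨0,[(15,0)]⟩,⟨0,[(14,0)]⟩⟩ ⟨false,1,
  ⟨0,[(1,0)]⟩,⟨3,[(2,3),(17,0),(0,0),(0,3),(5,1)]⟩⟩ ⟨true,0,⟨0,[(14,0),(1,0)]⟩,⟨2,[(3,0),(7,0),(3,
  2),(6,2)]⟩⟩]⟩) (.Q [0,0,1,1,0,0,-1,-1,1,0,1,-1] (.p true [0,0,1] [0,0,0,1] (⟨0,[(24,0)]⟩,⟨0,[(23,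
  0)]⟩) .k 2 (⟨0,[(15,0)]⟩,⟨0,[(14,0)]⟩) .k (.x (-1) ⟨7,[(11,3),(0,0),(0,0),(10,7),(0,1),(5,3)]⟩ ⟨0,
  [(17,0),(5,0)]⟩)) (.R ⟨1,false,false,true,[1,0,0,-1],[1,0,-1],[1,0,0,0,0,0,0,0,-1],(⟨0,[(15,0)]⟩,
  ⟨0,[(16,0)]⟩),(⟨0,[(24,0)]⟩,⟨0,[(25,0)]⟩),⟨0,[(1,0)]⟩,.k,.k,(.x (-1) ⟨3,[(13,0),(0,0),(11,1),(0,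
  3)]⟩ ⟨0,[(28,0)]⟩),.k,(.r (-1) ⟨1,[(13,0),(9,1),(7,1),(0,0)]⟩ ⟨2,[(0,2),(3,0),(7,0),(3,2)]⟩),.k,
  ⟨false,1,⟨0,[(2,0),(20,0)]⟩,⟨0,[(3,0)]⟩⟩,⟨true,0,⟨0,[(15,0),(2,0)]⟩,⟨2,[(4,0),(7,0),(3,2)]⟩⟩,
  ⟨true,0,⟨0,[]⟩,⟨0,[(35,0)]⟩⟩,⟨false,0,⟨0,[(0,0),(30,0)]⟩,⟨2,[(2,2),(1,0),(7,0),(3,2),(6,2)]⟩⟩,
  ⟨false,1,⟨0,[(30,0),(2,0)]⟩,⟨0,[(31,0)]⟩⟩,⟨false,0,⟨0,[(0,0)]⟩,⟨1,[(2,1),(6,0),(2,0),(3,1),(6,1),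
  (7,0)]⟩⟩,[.o ⟨false,0,⟨0,[(17,0)]⟩,⟨0,[(19,0),(13,0)]⟩⟩,.o ⟨false,1,⟨1,[(20,1),(5,0),(6,0)]⟩,⟨2,
  [(4,0),(7,0),(10,2)]⟩⟩,.o ⟨false,1,⟨1,[(16,1),(9,0),(5,0)]⟩,⟨2,[(4,0),(10,2),(2,1),(2,0)]⟩⟩,.a
  ⟨true,0,⟨0,[(16,0)]⟩,⟨0,[(15,0)]⟩⟩ ⟨false,1,⟨0,[(2,0)]⟩,⟨3,[(3,3),(17,0),(0,0),(0,3),(5,1)]⟩⟩
  ⟨true,0,⟨0,[(15,0),(1,0)]⟩,⟨2,[(4,0),(7,0),(3,2),(6,2)]⟩⟩]⟩) (.R ⟨1,true,false,true,[1,0,0,-1],[1,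
  0,-1],[1,0,0,0,0,0,0,0,-1],(⟨0,[(15,0)]⟩,⟨0,[(16,0)]⟩),(⟨0,[(24,0)]⟩,⟨0,[(25,0)]⟩),⟨0,[(1,0)]⟩,.k,
  .k,(.x (-1) ⟨3,[(13,0),(0,0),(11,1),(0,3)]⟩ ⟨0,[(28,0)]⟩),.k,(.r (-1) ⟨1,[(13,0),(9,1),(7,1),(0,
  0)]⟩ ⟨0,[(3,0),(25,0),(0,0)]⟩),.k,⟨false,1,⟨0,[(2,0),(20,0)]⟩,⟨0,[(3,0)]⟩⟩,⟨true,0,⟨0,[(15,0),(2,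
  0)]⟩,⟨2,[(4,0),(7,0),(3,2)]⟩⟩,⟨true,0,⟨0,[]⟩,⟨0,[(35,0)]⟩⟩,⟨false,0,⟨0,[(3,0),(5,0),(1,0),(3,0),
  (13,0)]⟩,⟨3,[(0,1),(1,1),(5,1),(7,1),(9,0),(6,0)]⟩⟩,⟨false,1,⟨0,[(30,0),(2,0)]⟩,⟨0,[(31,0)]⟩⟩,
  ⟨true,0,⟨1,[(3,1),(0,0),(6,1),(3,1),(2,0),(10,0)]⟩,⟨0,[(0,0)]⟩⟩,[]⟩))) (.Q [0,0,0,0,0,1,0,0,0,-1,
  0,1] (.p true [0,0,0,1] [1] (⟨0,[(14,0)]⟩,⟨0,[(13,0)]⟩) .k 1 (⟨0,[]⟩,⟨0,[]⟩) .k .k) (.R ⟨0,false,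
  false,false,[1,0,0,-1],[1,0,-1],[0,1,1],(⟨0,[(14,0)]⟩,⟨0,[(15,0)]⟩),(⟨0,[(23,0)]⟩,⟨0,[(24,0)]⟩),
  ⟨0,[(0,0)]⟩,.k,.k,(.x (-1) ⟨3,[(12,0),(0,0),(11,1),(0,3)]⟩ ⟨0,[(27,0)]⟩),.k,.k,.k,⟨false,0,⟨0,
  [(22,0),(11,0)]⟩,⟨1,[(11,0),(4,0),(2,0),(8,1),(2,1)]⟩⟩,⟨true,0,⟨0,[(14,0),(2,0)]⟩,⟨2,[(3,0),(7,0),
  (3,2)]⟩⟩,⟨true,(-1),⟨0,[(1,0)]⟩,⟨1,[(12,0),(18,0)]⟩⟩,⟨false,0,⟨5,[(1,3),(11,0),(0,5),(1,5),(11,7),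
  (2,2)]⟩,⟨5,[(3,1),(7,1),(0,2),(2,5),(6,5),(8,2)]⟩⟩,⟨false,0,⟨0,[]⟩,⟨0,[]⟩⟩,⟨false,0,⟨0,[]⟩,⟨0,
  []⟩⟩,[.o ⟨false,1,⟨1,[(19,1),(5,0),(6,0)]⟩,⟨2,[(3,0),(7,0),(10,2)]⟩⟩,.o ⟨false,1,⟨0,[(16,0),(15,
  0)]⟩,⟨0,[(18,0)]⟩⟩,.o ⟨false,1,⟨1,[(15,1),(9,0),(5,0)]⟩,⟨2,[(3,0),(10,2),(2,1),(2,0)]⟩⟩,.a ⟨true,
  0,⟨0,[(15,0)]⟩,⟨0,[(14,0)]⟩⟩ ⟨true,0,⟨0,[(34,0)]⟩,⟨0,[]⟩⟩ ⟨false,1,⟨0,[(14,0),(1,0),(15,0)]⟩,⟨2,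
  [(3,0),(7,0),(3,2),(6,2)]⟩⟩]⟩) (.R ⟨1,false,false,false,[1,0,0,-1],[1,0,-1],[1,0,0,0,0,0,0,0,-1],
  (⟨0,[(14,0)]⟩,⟨0,[(15,0)]⟩),(⟨0,[(23,0)]⟩,⟨0,[(24,0)]⟩),⟨0,[(0,0)]⟩,.k,.k,(.x (-1) ⟨3,[(12,0),(0,
  0),(11,1),(0,3)]⟩ ⟨0,[(27,0)]⟩),.k,(.r (-1) ⟨1,[(12,0),(9,1),(7,1),(0,0)]⟩ ⟨0,[(2,0),(25,0),(0,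
  0)]⟩),.k,⟨false,1,⟨1,[(12,0),(9,1),(8,0)]⟩,⟨1,[(1,1),(9,0),(4,0),(2,0),(8,1),(2,1)]⟩⟩,⟨true,0,⟨0,
  [(14,0),(2,0)]⟩,⟨2,[(3,0),(7,0),(3,2)]⟩⟩,⟨true,0,⟨0,[]⟩,⟨0,[(34,0)]⟩⟩,⟨false,0,⟨5,[(1,3),(11,0),
  (0,5),(1,5),(11,7),(2,2)]⟩,⟨5,[(3,1),(7,1),(0,2),(2,5),(6,5),(8,2)]⟩⟩,⟨false,1,⟨0,[(29,0),(2,0)]⟩,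
  ⟨0,[(30,0)]⟩⟩,⟨false,0,⟨5,[(1,5),(1,1),(1,3),(4,1),(3,5),(1,1),(8,0),(2,9),(2,4)]⟩,⟨1,[(8,0),(2,
  0),(0,0),(2,1),(6,1),(7,0),(0,0)]⟩⟩,[.o ⟨false,1,⟨1,[(19,1),(5,0),(6,0)]⟩,⟨2,[(3,0),(7,0),(10,
  2)]⟩⟩,.o ⟨false,1,⟨0,[(16,0),(15,0)]⟩,⟨0,[(18,0)]⟩⟩,.o ⟨false,1,⟨1,[(15,1),(9,0),(5,0)]⟩,⟨2,[(3,
  0),(10,2),(2,1),(2,0)]⟩⟩,.a ⟨true,0,⟨0,[(15,0)]⟩,⟨0,[(14,0)]⟩⟩ ⟨true,1,⟨1,[(12,0),(18,0)]⟩,⟨0,[(1,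
  0)]⟩⟩ ⟨false,1,⟨0,[(14,0),(1,0),(15,0)]⟩,⟨2,[(3,0),(7,0),(3,2),(6,2)]⟩⟩]⟩))) (.I [1,1,1,0,-1,0,0,
  0,-1] (.Q [0,1,1,0,0,0,0,0,1,0,0,-1] (.p false [0,0,0,1] [] (⟨0,[(14,0)]⟩,⟨0,[(13,0)]⟩) .k 0 (⟨0,
  []⟩,⟨0,[]⟩) .k .k) (.K ⟨0,[0,0,0,1],0,0,(⟨0,[(15,0)]⟩,⟨0,[(14,0)]⟩),.k,(.r (-1) ⟨1,[(13,0),(16,1),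
  (0,0)]⟩ ⟨2,[(1,0),(10,0),(15,1),(0,2)]⟩),(.x 0 ⟨0,[(27,0)]⟩ ⟨3,[(12,0),(0,0),(11,1),(0,3)]⟩),.k,
  .k,[⟨0,[(15,0)]⟩,⟨0,[(14,0)]⟩,⟨0,[(1,0),(13,0),(15,0)]⟩,⟨0,[(0,0)]⟩]⟩) (.R ⟨0,false,false,true,[0,
  0,1],[0,0,0,1],[1,1],(⟨0,[(24,0)]⟩,⟨0,[(23,0)]⟩),(⟨0,[(15,0)]⟩,⟨0,[(14,0)]⟩),⟨0,[(4,0)]⟩,.k,.k,.k,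
  .k,.k,.k,⟨false,0,⟨2,[(0,1),(0,0),(1,0),(4,0),(1,0),(3,1),(16,0)]⟩,⟨3,[(12,0),(0,2)]⟩⟩,⟨true,0,⟨0,
  [(14,0),(2,0)]⟩,⟨2,[(3,0),(7,0),(3,2)]⟩⟩,⟨true,0,⟨1,[(11,0),(4,0),(2,0)]⟩,⟨0,[(22,0)]⟩⟩,⟨false,1,
  ⟨5,[(13,2),(0,5),(2,1),(1,5),(0,1),(4,1),(2,1),(3,0)]⟩,⟨2,[(0,2),(2,0),(7,0),(10,2)]⟩⟩,⟨false,0,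
  ⟨0,[]⟩,⟨0,[]⟩⟩,⟨false,0,⟨0,[]⟩,⟨0,[]⟩⟩,[.a ⟨true,0,⟨0,[(1,0),(11,0),(0,0)]⟩,⟨0,[(0,0)]⟩⟩ ⟨true,0,
  ⟨0,[(34,0)]⟩,⟨3,[(20,0),(0,0),(6,1)]⟩⟩ ⟨false,1,⟨1,[(13,0),(0,1),(4,1),(2,1),(2,0)]⟩,⟨2,[(0,2),(2,
  0),(7,0)]⟩⟩,.o ⟨false,1,⟨7,[(12,0),(0,4),(0,7),(2,3),(2,3),(4,1)]⟩,⟨2,[(0,2),(2,0),(4,0),(1,0),(5,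
  0),(1,0)]⟩⟩,.o ⟨false,0,⟨0,[(6,0)]⟩,⟨3,[(12,0),(0,0),(3,3),(13,1)]⟩⟩,.o ⟨false,0,⟨0,[(20,0)]⟩,⟨0,
  [(17,0),(13,0)]⟩⟩]⟩)) (.I [0,0,1,0,0,0,0,0,1] (.Q [0,1,-1,0,0,0,0,0,-1,0,0,1] (.p true [0,0,0,1]
  [] (⟨0,[(15,0)]⟩,⟨0,[(14,0)]⟩) .k 0 (⟨0,[]⟩,⟨0,[]⟩) .k .k) (.K ⟨0,[0,0,0,1],0,0,(⟨0,[(16,0)]⟩,⟨0,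
  [(15,0)]⟩),.k,(.r (-1) ⟨1,[(14,0),(16,1),(0,0)]⟩ ⟨0,[(3,0),(2,0),(14,0)]⟩),(.x 0 ⟨0,[(28,0)]⟩ ⟨3,
  [(13,0),(0,0),(11,1),(0,3)]⟩),.k,.k,[⟨0,[(16,0)]⟩,⟨0,[(15,0)]⟩,⟨0,[(0,0)]⟩,⟨2,[(1,2),(2,0),(4,0),
  (1,0),(3,2),(1,0),(1,0)]⟩]⟩) (.Q [0,0,0,0,0,1,0,0,0,-1,0,1] (.p true [0,0,0,1] [1] (⟨0,[(16,0)]⟩,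
  ⟨0,[(15,0)]⟩) .k 1 (⟨0,[]⟩,⟨0,[]⟩) .k .k) (.R ⟨0,false,false,true,[1,0,0,-1],[0,1],[0,1,0,0,0,0,0,
  0,-1],(⟨0,[(16,0)]⟩,⟨0,[(17,0)]⟩),(⟨0,[(29,0)]⟩,⟨0,[(28,0)]⟩),⟨0,[(0,0)]⟩,.k,.k,(.x (-1) ⟨3,[(14,
  0),(0,0),(11,1),(0,3)]⟩ ⟨0,[(29,0)]⟩),(.x (-1) ⟨3,[(14,0),(0,0),(11,1),(0,3)]⟩ ⟨0,[(29,0)]⟩),.k,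
  .k,⟨false,1,⟨1,[(4,1),(5,0),(2,0),(7,1),(10,0),(0,1)]⟩,⟨0,[(1,0),(15,0),(13,0)]⟩⟩,⟨true,0,⟨0,[(16,
  0)]⟩,⟨2,[(5,0),(11,2),(1,1),(2,0)]⟩⟩,⟨true,0,⟨0,[(36,0)]⟩,⟨0,[]⟩⟩,⟨false,0,⟨1,[(1,0),(0,0),(4,0),
  (1,0),(6,0)]⟩,⟨3,[(4,1),(5,3),(2,0),(0,0),(2,3),(0,0),(2,0),(8,1),(2,2)]⟩⟩,⟨false,0,⟨0,[]⟩,⟨0,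
  []⟩⟩,⟨false,0,⟨0,[]⟩,⟨0,[]⟩⟩,[.o ⟨false,0,⟨0,[(31,0)]⟩,⟨1,[(27,0),(4,1),(1,0)]⟩⟩,.o ⟨false,1,⟨3,
  [(14,0),(0,0),(15,3),(2,1)]⟩,⟨0,[(10,0)]⟩⟩,.o ⟨false,1,⟨1,[(17,1),(9,0),(5,0)]⟩,⟨2,[(5,0),(10,2),
  (2,1),(2,0)]⟩⟩,.a ⟨true,0,⟨0,[(17,0)]⟩,⟨0,[(16,0)]⟩⟩ ⟨false,1,⟨1,[(14,0),(18,0)]⟩,⟨0,[(1,0),(15,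
  0)]⟩⟩ ⟨true,0,⟨0,[(16,0),(14,0)]⟩,⟨0,[(10,0),(6,0)]⟩⟩]⟩) (.R ⟨1,false,false,true,[1,0,0,-1],[0,1],
  [1,1,0,0,0,0,0,0,-1],(⟨0,[(16,0)]⟩,⟨0,[(17,0)]⟩),(⟨0,[(29,0)]⟩,⟨0,[(28,0)]⟩),⟨0,[(0,0)]⟩,.k,.k,
  (.x (-1) ⟨3,[(14,0),(0,0),(11,1),(0,3)]⟩ ⟨0,[(29,0)]⟩),(.x (-1) ⟨3,[(14,0),(0,0),(11,1),(0,3)]⟩
  ⟨0,[(29,0)]⟩),(.r (-1) ⟨1,[(4,1),(5,0),(2,0),(7,1),(10,2),(0,1)]⟩ ⟨0,[(2,0),(27,0),(0,1)]⟩),.k,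
  ⟨false,1,⟨1,[(4,1),(5,0),(2,0),(7,1),(10,0),(0,1)]⟩,⟨0,[(1,0),(15,0),(13,0)]⟩⟩,⟨true,0,⟨0,[(16,
  0)]⟩,⟨2,[(5,0),(11,2),(1,1),(2,0)]⟩⟩,⟨false,0,⟨0,[]⟩,⟨3,[(14,0),(0,0),(18,1)]⟩⟩,⟨false,0,⟨1,[(1,
  0),(0,0),(4,0),(1,0),(6,0)]⟩,⟨3,[(4,1),(5,3),(2,0),(0,0),(2,3),(0,0),(2,0),(8,1),(2,2)]⟩⟩,⟨true,0,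
  ⟨0,[(31,0)]⟩,⟨0,[(32,0)]⟩⟩,⟨false,0,⟨0,[(1,0),(5,0),(1,0)]⟩,⟨3,[(4,1),(5,4),(2,0),(0,0),(2,3),(3,
  1),(8,1),(1,2),(0,2)]⟩⟩,[.o ⟨false,0,⟨0,[(31,0)]⟩,⟨1,[(27,0),(4,1),(1,0)]⟩⟩,.o ⟨false,1,⟨3,[(14,
  0),(0,0),(15,3),(2,1)]⟩,⟨0,[(10,0)]⟩⟩,.o ⟨false,1,⟨1,[(17,1),(9,0),(5,0)]⟩,⟨2,[(5,0),(10,2),(2,1),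
  (2,0)]⟩⟩,.a ⟨true,0,⟨0,[(17,0)]⟩,⟨0,[(16,0)]⟩⟩ ⟨false,1,⟨1,[(14,0),(18,0)]⟩,⟨0,[(1,0),(15,0)]⟩⟩
  ⟨true,0,⟨0,[(16,0),(14,0)]⟩,⟨0,[(10,0),(6,0)]⟩⟩]⟩))) (.Q [0,1,1,0,0,0,0,0,1,0,0,-1] (.p false [0,
  0,0,1] [] (⟨0,[(15,0)]⟩,⟨0,[(14,0)]⟩) .k 0 (⟨0,[]⟩,⟨0,[]⟩) .k .k) (.K ⟨0,[0,0,0,1],0,0,(⟨0,[(16,
  0)]⟩,⟨0,[(15,0)]⟩),.k,(.r (-1) ⟨1,[(14,0),(16,1),(0,0)]⟩ ⟨0,[(3,0),(2,0),(14,0)]⟩),(.x 0 ⟨0,[(28,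
  0)]⟩ ⟨3,[(13,0),(0,0),(11,1),(0,3)]⟩),.k,.k,[⟨0,[(16,0)]⟩,⟨0,[(15,0)]⟩,⟨0,[(1,0),(14,0),(18,0)]⟩,
  ⟨0,[(0,0)]⟩]⟩) (.Q [0,0,0,0,0,1,0,0,0,-1,0,1] (.p true [0,0,0,1] [1] (⟨0,[(16,0)]⟩,⟨0,[(15,0)]⟩)
  .k 1 (⟨0,[]⟩,⟨0,[]⟩) .k .k) (.R ⟨0,false,false,true,[1,0,0,-1],[1,0,-1],[0,1,0,0,0,0,0,0,-1],(⟨0,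
  [(16,0)]⟩,⟨0,[(17,0)]⟩),(⟨0,[(25,0)]⟩,⟨0,[(26,0)]⟩),⟨0,[(0,0)]⟩,.k,.k,(.x (-1) ⟨3,[(14,0),(0,0),
  (11,1),(0,3)]⟩ ⟨0,[(29,0)]⟩),.k,.k,.k,⟨false,0,⟨0,[(2,0),(21,0)]⟩,⟨1,[(13,0),(1,0),(2,0),(2,0),
  (12,0)]⟩⟩,⟨true,0,⟨0,[(16,0),(2,0)]⟩,⟨2,[(5,0),(7,0),(3,2)]⟩⟩,⟨true,0,⟨0,[(36,0)]⟩,⟨0,[]⟩⟩,⟨false,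
  1,⟨5,[(15,2),(0,5),(2,1),(1,5),(0,1),(4,1),(2,1),(3,0)]⟩,⟨2,[(1,2),(3,0),(7,0),(10,2)]⟩⟩,⟨false,0,
  ⟨0,[]⟩,⟨0,[]⟩⟩,⟨false,0,⟨0,[]⟩,⟨0,[]⟩⟩,[.o ⟨false,0,⟨0,[(18,0)]⟩,⟨0,[(20,0),(13,0)]⟩⟩,.o ⟨false,1,
  ⟨1,[(21,1),(5,0),(6,0)]⟩,⟨2,[(5,0),(7,0),(10,2)]⟩⟩,.o ⟨false,1,⟨1,[(17,1),(9,0),(5,0)]⟩,⟨2,[(5,0),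
  (10,2),(2,1),(2,0)]⟩⟩,.a ⟨true,0,⟨0,[(17,0)]⟩,⟨0,[(16,0)]⟩⟩ ⟨false,0,⟨0,[(1,0),(3,0),(1,0),(2,0),
  (5,0),(7,0),(3,0),(0,0)]⟩,⟨1,[(15,0),(6,0),(0,0),(10,0)]⟩⟩ ⟨true,0,⟨0,[(16,0),(1,0)]⟩,⟨2,[(5,0),
  (7,0),(3,2),(6,2)]⟩⟩]⟩) (.R ⟨1,false,false,true,[1,0,0,-1],[1,0,-1],[1,1,0,0,0,0,0,0,-1],(⟨0,[(16,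
  0)]⟩,⟨0,[(17,0)]⟩),(⟨0,[(25,0)]⟩,⟨0,[(26,0)]⟩),⟨0,[(0,0)]⟩,.k,.k,(.x (-1) ⟨3,[(14,0),(0,0),(11,1),
  (0,3)]⟩ ⟨0,[(29,0)]⟩),.k,(.r 0 ⟨0,[(2,0),(21,0),(7,0)]⟩ ⟨1,[(7,1),(7,0),(6,1),(11,0)]⟩),.k,⟨false,
  0,⟨0,[(2,0),(21,0)]⟩,⟨1,[(13,0),(1,0),(2,0),(2,0),(12,0)]⟩⟩,⟨true,0,⟨0,[(16,0),(2,0)]⟩,⟨2,[(5,0),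
  (7,0),(3,2)]⟩⟩,⟨false,0,⟨0,[]⟩,⟨3,[(14,0),(0,0),(18,1)]⟩⟩,⟨false,1,⟨5,[(15,2),(0,5),(2,1),(1,5),
  (0,1),(4,1),(2,1),(3,0)]⟩,⟨2,[(1,2),(3,0),(7,0),(10,2)]⟩⟩,⟨true,0,⟨0,[(31,0)]⟩,⟨0,[(32,0)]⟩⟩,
  ⟨false,1,⟨5,[(7,5),(7,2),(0,5),(2,1),(2,1),(4,1),(2,1),(3,0)]⟩,⟨1,[(1,1),(8,0),(2,0),(10,1),(7,
  0)]⟩⟩,[.o ⟨false,0,⟨0,[(18,0)]⟩,⟨0,[(20,0),(13,0)]⟩⟩,.o ⟨false,1,⟨1,[(21,1),(5,0),(6,0)]⟩,⟨2,[(5,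
  0),(7,0),(10,2)]⟩⟩,.o ⟨false,1,⟨1,[(17,1),(9,0),(5,0)]⟩,⟨2,[(5,0),(10,2),(2,1),(2,0)]⟩⟩,.a ⟨true,
  0,⟨0,[(17,0)]⟩,⟨0,[(16,0)]⟩⟩ ⟨false,0,⟨0,[(2,0)]⟩,⟨1,[(15,0),(6,0),(0,0),(10,0)]⟩⟩ ⟨true,0,⟨0,
  [(16,0),(1,0)]⟩,⟨2,[(5,0),(7,0),(3,2),(6,2)]⟩⟩]⟩))))))))))))

theorem ok0 : chk (cU (-1) true 10) t0 l0 = true := by decide +kernel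

noncomputable def l1 : List Con := (false, [0,0,0,-1,0,0,-2,-1,0,-1,2]) :: r0

noncomputable def r1 : List Con := (false, [0,0,0,1,0,0,2,1,0,1,-2]) :: r0

noncomputable def t1 : Tre :=
  (.Q [0,0,0,0,0,0,-1,0,0,0,1] (.p true [0,0,1] [] (⟨0,[(16,0)]⟩,⟨0,[(15,0)]⟩) .k 0 (⟨0,[]⟩,⟨0,[]⟩)
  .k .k) (.K ⟨0,[1,-1,-1],0,0,(⟨0,[(2,0)]⟩,⟨0,[(17,0),(2,0)]⟩),.k,(.r (-1) ⟨0,[(1,0),(2,0),(18,0),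
  (0,0)]⟩ ⟨1,[(13,0),(0,0),(0,1),(5,1),(0,3)]⟩),.k,.k,.k,[⟨1,[(4,0),(2,0),(0,0)]⟩,⟨0,[(0,0)]⟩,⟨0,
  [(3,0),(0,0),(10,0)]⟩,⟨0,[(9,0),(13,0)]⟩]⟩) (.R ⟨2,true,false,false,[0,1],[1,0,-1],[0,1,1],(⟨0,
  []⟩,⟨0,[]⟩),(⟨0,[(16,0)]⟩,⟨0,[(17,0)]⟩),⟨0,[]⟩,.k,.k,.k,.k,.k,.k,⟨false,0,⟨0,[(15,0),(11,0)]⟩,⟨1,
  [(4,0),(4,0),(2,0),(8,1),(2,1)]⟩⟩,⟨true,0,⟨0,[(10,0)]⟩,⟨1,[(4,0),(2,0),(0,0)]⟩⟩,⟨false,0,⟨0,[(23,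
  0)]⟩,⟨0,[(22,0),(2,0)]⟩⟩,⟨true,0,⟨0,[(0,0),(0,0)]⟩,⟨0,[(3,0),(0,0),(10,0)]⟩⟩,⟨true,0,⟨0,[(27,0)]⟩,
  ⟨0,[]⟩⟩,⟨false,1,⟨0,[(9,0),(15,0)]⟩,⟨1,[(4,0),(2,0),(0,0),(6,1)]⟩⟩,[]⟩))

theorem ok1 : chk (cU (-1) true 10) t1 l1 = true := by decide +kernel

noncomputable def l2 : List Con := (false, [0,0,0,0,0,0,-1,-1,0,0,1]) :: r1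

noncomputable def r2 : List Con := (false, [0,0,0,0,0,0,1,1,0,0,-1]) :: r1

noncomputable def t2 : Tre :=
  (.R ⟨1,false,false,true,[1,0,-1],[0,0,1],[1,0,0,0,0,0,0,-1],(⟨0,[(16,0)]⟩,⟨0,[(17,0)]⟩),(⟨0,[(17,
  0)]⟩,⟨0,[(16,0)]⟩),⟨0,[(2,0)]⟩,.k,.k,.k,.k,(.r (-1) ⟨1,[(0,3),(3,1),(13,0),(4,1),(0,0)]⟩ ⟨4,[(1,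
  2),(1,1),(6,2),(3,0),(0,6),(5,0)]⟩),.k,⟨false,1,⟨0,[(0,0),(3,0),(4,0),(11,0),(2,0)]⟩,⟨0,[(15,1),
  (11,0)]⟩⟩,⟨true,0,⟨0,[(4,0)]⟩,⟨0,[(0,0),(9,0),(4,0)]⟩⟩,⟨true,0,⟨0,[]⟩,⟨0,[(27,0)]⟩⟩,⟨false,0,⟨0,
  [(4,0),(10,1)]⟩,⟨1,[(0,3),(17,0),(6,0)]⟩⟩,⟨false,1,⟨0,[(22,0),(2,0)]⟩,⟨0,[(23,0)]⟩⟩,⟨false,0,⟨0,
  [(1,0),(13,0)]⟩,⟨1,[(0,3),(17,0),(4,1),(1,0)]⟩⟩,[.o ⟨false,0,⟨0,[(11,0)]⟩,⟨1,[(0,1),(17,0),(6,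
  0)]⟩⟩,.a ⟨true,0,⟨1,[(4,0),(2,0),(0,0),(6,1)]⟩,⟨0,[(0,0)]⟩⟩ ⟨false,1,⟨3,[(0,3),(3,1),(13,0),(2,1),
  (2,2)]⟩,⟨0,[(15,0),(11,0)]⟩⟩ ⟨true,0,⟨0,[(4,0),(10,0)]⟩,⟨0,[(0,0),(9,0)]⟩⟩,.e ⟨false,1,⟨3,[(0,1),
  (3,1),(7,1),(5,0),(6,2)]⟩,⟨0,[(15,0)]⟩⟩ ⟨false,0,⟨0,[(4,0),(10,0)]⟩,⟨1,[(0,1),(9,1),(13,0),(0,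
  0)]⟩⟩,.o ⟨false,0,⟨0,[(10,0)]⟩,⟨7,[(4,3),(0,0),(0,0),(11,1),(5,3)]⟩⟩]⟩)

theorem ok2 : chk (cU (-1) true 10) t2 l2 = true := by decide +kernel

noncomputable def l3 : List Con := (false, [0,0,0,0,0,0,-1,0,0,0,1]) :: r2

noncomputable def r3 : List Con := (false, [0,0,0,0,0,0,1,0,0,0,-1]) :: r2

noncomputable def t3 : Tre :=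
  (.R ⟨1,false,false,true,[1,0,-1],[0,0,1],[1,1,0,0,0,0,0,-1],(⟨0,[(17,0)]⟩,⟨0,[(18,0)]⟩),(⟨0,[(18,
  0)]⟩,⟨0,[(17,0)]⟩),⟨0,[(3,0)]⟩,.k,.k,.k,.k,(.r (-1) ⟨0,[(5,0),(4,0),(2,0),(8,0),(1,0),(0,0)]⟩ ⟨4,
  [(2,2),(1,1),(6,2),(3,0),(0,6),(5,0)]⟩),.k,⟨false,1,⟨0,[(5,0),(4,0),(2,0),(8,0),(2,0)]⟩,⟨0,[(16,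
  1)]⟩⟩,⟨true,0,⟨0,[(5,0)]⟩,⟨0,[(0,0),(10,0)]⟩⟩,⟨false,0,⟨0,[]⟩,⟨3,[(6,0),(0,0),(18,1)]⟩⟩,⟨false,0,
  ⟨0,[(5,0),(10,1)]⟩,⟨1,[(10,1),(2,1),(8,1),(2,0),(0,0)]⟩⟩,⟨true,0,⟨0,[(23,0)]⟩,⟨0,[(24,0)]⟩⟩,
  ⟨false,0,⟨0,[(2,0),(13,0)]⟩,⟨1,[(10,1),(2,1),(8,1),(1,1),(0,0),(0,0)]⟩⟩,[.o ⟨false,0,⟨0,[(12,0)]⟩,
  ⟨0,[(10,0),(15,0)]⟩⟩,.o ⟨false,0,⟨0,[(1,0)]⟩,⟨1,[(13,1),(5,0),(6,0)]⟩⟩,.a ⟨true,0,⟨0,[(0,0)]⟩,⟨1,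
  [(5,0),(2,0),(0,0)]⟩⟩ ⟨true,0,⟨1,[(5,0),(4,0),(2,0)]⟩,⟨0,[(16,0)]⟩⟩ ⟨false,0,⟨0,[(5,0),(10,0)]⟩,
  ⟨0,[(0,0),(9,0),(15,0)]⟩⟩,.o ⟨false,0,⟨0,[(11,0)]⟩,⟨7,[(5,3),(0,0),(0,0),(11,1),(5,3)]⟩⟩]⟩)

theorem ok3 : chk (cU (-1) true 10) t3 l3 = true := by decide +kernel

noncomputable def l4 : List Con := (false, [0,0,0,-1,0,0,-1,-1,0,0,1]) :: r3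

noncomputable def r4 : List Con := (false, [0,0,0,1,0,0,1,1,0,0,-1]) :: r3

noncomputable def t4 : Tre :=
  (.R ⟨2,true,false,true,[0,1],[0,1,1],[0,0,1],(⟨0,[]⟩,⟨0,[]⟩),(⟨0,[(19,0),(2,0)]⟩,⟨0,[(4,0)]⟩),⟨0,
  []⟩,.k,.k,.k,.k,.k,.k,⟨false,1,⟨1,[(0,1),(0,1),(24,0),(0,0)]⟩,⟨0,[(17,0),(6,0)]⟩⟩,⟨true,0,⟨0,[(1,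
  0)]⟩,⟨0,[(16,0)]⟩⟩,⟨true,0,⟨0,[(25,0)]⟩,⟨0,[(24,0)]⟩⟩,⟨false,0,⟨0,[(2,0)]⟩,⟨0,[(14,0),(12,0)]⟩⟩,
  ⟨false,1,⟨3,[(7,0),(0,0),(18,1)]⟩,⟨0,[]⟩⟩,⟨true,0,⟨0,[(2,0),(21,0)]⟩,⟨0,[(0,0)]⟩⟩,[]⟩)

theorem ok4 : chk (cU (-1) true 10) t4 l4 = true := by decide +kernel

noncomputable def l5 : List Con := (false, [0,0,0,1,0,0,0,0,0,1]) :: r4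

noncomputable def r5 : List Con := (false, [0,0,0,-1,0,0,0,0,0,-1]) :: r4

noncomputable def t5 : Tre :=
  (.R ⟨1,false,false,false,[1,0,-1],[1,-1],[1,0,0,0,0,0,0,-1],(⟨0,[(19,0)]⟩,⟨0,[(20,0)]⟩),(⟨0,[(22,
  0)]⟩,⟨0,[(23,0)]⟩),⟨0,[(5,0)]⟩,.k,.k,.k,.k,.k,.k,⟨true,0,⟨2,[(0,1),(6,0),(4,2),(3,0),(7,1),(0,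
  0)]⟩,⟨0,[(18,0),(7,0)]⟩⟩,⟨false,0,⟨0,[(2,0)]⟩,⟨0,[(17,0),(9,0)]⟩⟩,⟨true,0,⟨0,[]⟩,⟨0,[(30,0)]⟩⟩,
  ⟨true,0,⟨0,[(3,0),(22,0)]⟩,⟨0,[(0,0),(11,0)]⟩⟩,⟨false,1,⟨0,[(25,0),(2,0)]⟩,⟨0,[(26,0)]⟩⟩,⟨true,0,
  ⟨0,[(3,0)]⟩,⟨0,[(15,0)]⟩⟩,[.a ⟨true,0,⟨0,[(26,0)]⟩,⟨0,[(0,0)]⟩⟩ ⟨false,1,⟨1,[(7,0),(4,0),(2,0),
  (11,0),(0,0)]⟩,⟨0,[(18,0)]⟩⟩ ⟨true,0,⟨0,[(2,0),(23,0)]⟩,⟨0,[(0,0),(12,0)]⟩⟩,.o ⟨false,1,⟨1,[(21,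
  0),(4,1),(1,0)]⟩,⟨0,[(25,0)]⟩⟩,.o ⟨false,1,⟨3,[(8,0),(0,0),(3,3),(13,1)]⟩,⟨0,[(2,0)]⟩⟩,.o ⟨false,
  0,⟨0,[(13,0)]⟩,⟨7,[(7,3),(0,0),(0,0),(11,1),(5,3)]⟩⟩]⟩)

theorem ok5 : chk (cU (-1) true 10) t5 l5 = true := by decide +kernel

noncomputable def l6 : List Con := (false, [0,-1,0,-1,0,0,1,1,0,0,-1]) :: r5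

noncomputable def r6 : List Con := (false, [0,1,0,1,0,0,-1,-1,0,0,1]) :: r5

noncomputable def t6 : Tre :=
  (.R ⟨2,true,false,false,[0,1],[0,0,1],[0,0,1],(⟨0,[]⟩,⟨0,[]⟩),(⟨0,[(21,0)]⟩,⟨0,[(20,0)]⟩),⟨0,[]⟩,
  .k,.k,.k,.k,.k,.k,⟨true,0,⟨3,[(8,0),(4,0),(2,2),(0,1),(7,1)]⟩,⟨0,[(19,0)]⟩⟩,⟨false,0,⟨0,[(3,0)]⟩,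
  ⟨0,[(18,0),(9,0)]⟩⟩,⟨true,0,⟨0,[(27,0)]⟩,⟨0,[(26,0)]⟩⟩,⟨false,0,⟨0,[(0,0)]⟩,⟨0,[(16,0),(9,0),(2,
  0)]⟩⟩,⟨false,1,⟨3,[(9,0),(0,0),(18,1)]⟩,⟨0,[]⟩⟩,⟨true,0,⟨0,[(4,0)]⟩,⟨0,[(16,0)]⟩⟩,[]⟩)

theorem ok6 : chk (cU (-1) true 10) t6 l6 = true := by decide +kernel

noncomputable def l7 : List Con := (false, [0,0,0,0,0,1,0,0,0,0,-1]) :: r6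

noncomputable def r7 : List Con := (false, [0,0,0,0,0,-1,0,0,0,0,1]) :: r6

noncomputable def t7 : Tre :=
  (.Q [0,0,0,0,0,0,-1,0,0,1,1] (.p true [1,-1,1] [] (⟨0,[(22,0),(1,0)]⟩,⟨0,[(0,0)]⟩) .k 0 (⟨0,[]⟩,
  ⟨0,[]⟩) .k .k) (.K ⟨0,[1,-1,1],0,0,(⟨0,[(23,0),(1,0)]⟩,⟨0,[(1,0)]⟩),.k,(.r (-1) ⟨0,[(21,0),(7,1),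
  (0,0)]⟩ ⟨0,[(2,0),(16,0),(7,0),(0,0)]⟩),.k,.k,.k,[⟨0,[(0,0)]⟩,⟨0,[(5,0)]⟩,⟨2,[(0,1),(1,2),(7,0)]⟩,
  ⟨0,[(3,0),(13,0)]⟩]⟩) (.I [0,-1,1,0,0,0,0,0,1] (.I [0,1,-2,-1,1,0,0,-1,-1] (.Q [0,0,0,0,0,1,0,0,0,
  -1,0,1] (.p true [0,0,0,1] [1] (⟨0,[(16,0)]⟩,⟨0,[(15,0)]⟩) .k 1 (⟨0,[]⟩,⟨0,[]⟩) .k .k) (.Q [0,1,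
  -1,-1,0,0,1,1,-1,-1,-1,1] (.p false [1,-1,1] [0,0,0,1] (⟨0,[(26,0),(1,0)]⟩,⟨0,[(4,0)]⟩) .k 2 (⟨0,
  [(17,0)]⟩,⟨0,[(16,0)]⟩) .k (.x (-1) ⟨7,[(1,1),(8,1),(2,1),(1,0),(10,7),(0,1),(5,1),(0,0)]⟩ ⟨1,[(4,
  0),(6,0),(7,0),(3,0)]⟩)) (.R ⟨0,false,false,true,[1,0,0,-1],[0,1],[0,1,0,0,0,0,0,0,-1],(⟨0,[(17,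
  0)]⟩,⟨0,[(18,0)]⟩),(⟨0,[(30,0)]⟩,⟨0,[(29,0)]⟩),⟨0,[(1,0)]⟩,.k,.k,(.x (-1) ⟨3,[(15,0),(0,0),(11,1),
  (0,3)]⟩ ⟨0,[(30,0)]⟩),(.x (-1) ⟨3,[(15,0),(0,0),(11,1),(0,3)]⟩ ⟨0,[(30,0)]⟩),.k,.k,⟨false,1,⟨0,
  [(0,0),(16,0),(4,0),(8,0),(2,0)]⟩,⟨0,[(3,0),(28,0)]⟩⟩,⟨true,0,⟨0,[(17,0)]⟩,⟨2,[(4,0),(13,2),(1,1),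
  (2,0)]⟩⟩,⟨true,0,⟨0,[(37,0)]⟩,⟨0,[]⟩⟩,⟨false,0,⟨0,[(3,0),(13,0),(14,0)]⟩,⟨1,[(0,0),(1,0),(15,0),
  (1,0),(10,1),(2,0)]⟩⟩,⟨false,0,⟨0,[]⟩,⟨0,[]⟩⟩,⟨false,0,⟨0,[]⟩,⟨0,[]⟩⟩,[.o ⟨false,0,⟨0,[(32,0)]⟩,
  ⟨3,[(7,3),(7,0),(0,0),(18,1)]⟩⟩,.o ⟨false,1,⟨3,[(15,0),(0,0),(15,3),(2,1)]⟩,⟨0,[(7,0)]⟩⟩,.o
  ⟨false,1,⟨1,[(18,1),(9,0),(5,0)]⟩,⟨2,[(4,0),(12,2),(2,1),(2,0)]⟩⟩,.a ⟨true,0,⟨0,[(18,0)]⟩,⟨0,[(17,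
  0)]⟩⟩ ⟨false,1,⟨1,[(15,0),(18,0)]⟩,⟨0,[(3,0)]⟩⟩ ⟨true,0,⟨0,[(17,0),(14,0)]⟩,⟨0,[(7,0),(10,
  0)]⟩⟩]⟩) (.R ⟨0,false,false,false,[1,0,0,-1],[0,1,1],[0,1,0,0,0,0,0,0,-1],(⟨0,[(17,0)]⟩,⟨0,[(18,
  0)]⟩),(⟨0,[(27,0),(2,0)]⟩,⟨0,[(12,0)]⟩),⟨0,[(1,0)]⟩,.k,.k,(.x (-1) ⟨3,[(15,0),(0,0),(11,1),(0,
  3)]⟩ ⟨0,[(30,0)]⟩),(.r (-1) ⟨9,[(2,7),(12,0),(6,1),(0,1),(7,3),(1,1),(1,0)]⟩ ⟨2,[(3,2),(4,0),(4,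
  1),(7,0),(3,0)]⟩),.k,.k,⟨false,1,⟨0,[(2,0)]⟩,⟨0,[(0,0),(6,0),(0,0),(9,0),(6,0)]⟩⟩,⟨true,0,⟨2,[(4,
  0),(9,0),(2,2)]⟩,⟨0,[(18,0),(1,0)]⟩⟩,⟨true,0,⟨0,[(37,0)]⟩,⟨0,[]⟩⟩,⟨false,0,⟨0,[(0,0),(9,1)]⟩,⟨0,
  [(2,0),(4,0),(5,0),(4,0),(12,0)]⟩⟩,⟨false,0,⟨0,[]⟩,⟨0,[]⟩⟩,⟨false,0,⟨0,[]⟩,⟨0,[]⟩⟩,[.o ⟨false,0,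
  ⟨0,[(8,0)]⟩,⟨3,[(7,3),(7,0),(0,0),(5,3),(12,1)]⟩⟩,.o ⟨false,1,⟨3,[(8,3),(6,0),(0,0),(18,1)]⟩,⟨0,
  [(7,0),(14,0)]⟩⟩,.o ⟨false,1,⟨1,[(18,1),(9,0),(5,0)]⟩,⟨2,[(4,0),(12,2),(2,1),(2,0)]⟩⟩,.a ⟨true,0,
  ⟨0,[(18,0)]⟩,⟨0,[(17,0)]⟩⟩ ⟨false,1,⟨1,[(15,0),(18,0)]⟩,⟨0,[(3,0)]⟩⟩ ⟨true,0,⟨0,[(8,0),(8,0)]⟩,⟨0,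
  [(7,0),(10,0),(3,0)]⟩⟩]⟩)) (.I [1,0,0,0,0,0,0,0,1] (.R ⟨1,false,false,true,[1,0,0,-1],[1,0,-1],[0,
  0,0,-1,0,0,0,0,-1],(⟨0,[(17,0)]⟩,⟨0,[(18,0)]⟩),(⟨0,[(26,0)]⟩,⟨0,[(27,0)]⟩),⟨0,[(1,0)]⟩,.k,.k,(.x
  (-1) ⟨3,[(15,0),(0,0),(11,1),(0,3)]⟩ ⟨0,[(30,0)]⟩),.k,(.r (-1) ⟨3,[(2,1),(12,0),(9,5),(7,1),(1,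
  0)]⟩ ⟨2,[(3,2),(0,0),(1,2),(7,0)]⟩),.k,⟨false,1,⟨0,[(2,0),(22,1),(5,0)]⟩,⟨2,[(0,2),(3,0),(1,2),(7,
  0)]⟩⟩,⟨true,0,⟨0,[(17,0),(2,0)]⟩,⟨2,[(4,0),(9,0),(3,2)]⟩⟩,⟨true,0,⟨0,[(33,0)]⟩,⟨0,[(32,0)]⟩⟩,
  ⟨false,0,⟨0,[(3,0),(13,0),(1,0)]⟩,⟨0,[(2,0),(5,0),(9,0),(6,0),(5,0)]⟩⟩,⟨false,1,⟨3,[(15,0),(0,0),
  (18,1)]⟩,⟨0,[]⟩⟩,⟨false,0,⟨1,[(0,1),(3,0),(1,1),(10,1),(2,0),(10,0)]⟩,⟨0,[(2,0),(7,0),(7,0),(6,0),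
  (5,0)]⟩⟩,[.o ⟨false,0,⟨0,[(19,0)]⟩,⟨3,[(10,3),(4,0),(0,0),(18,1)]⟩⟩,.o ⟨false,1,⟨1,[(22,1),(5,0),
  (6,0)]⟩,⟨0,[(10,0)]⟩⟩,.o ⟨false,1,⟨1,[(18,1),(9,0),(5,0)]⟩,⟨2,[(4,0),(12,2),(2,1),(2,0)]⟩⟩,.a
  ⟨true,0,⟨0,[(18,0)]⟩,⟨0,[(17,0)]⟩⟩ ⟨false,1,⟨0,[(2,0),(22,0),(5,0)]⟩,⟨0,[(3,0),(28,0)]⟩⟩ ⟨true,0,
  ⟨0,[(17,0),(1,0)]⟩,⟨0,[(10,0),(7,0)]⟩⟩]⟩) (.R ⟨1,false,false,true,[1,0,0,-1],[0,1],[1,1,0,0,0,0,0,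
  0,-1],(⟨0,[(17,0)]⟩,⟨0,[(18,0)]⟩),(⟨0,[(30,0)]⟩,⟨0,[(29,0)]⟩),⟨0,[(1,0)]⟩,.k,.k,(.x (-1) ⟨3,[(15,
  0),(0,0),(11,1),(0,3)]⟩ ⟨0,[(30,0)]⟩),(.x (-1) ⟨3,[(15,0),(0,0),(11,1),(0,3)]⟩ ⟨0,[(30,0)]⟩),(.r
  (-1) ⟨0,[(0,0),(32,1),(0,0)]⟩ ⟨3,[(3,3),(19,0),(0,0),(6,1),(0,7)]⟩),.k,⟨false,1,⟨0,[(0,0),(32,0),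
  (0,0)]⟩,⟨0,[(3,0),(28,0)]⟩⟩,⟨true,0,⟨0,[(17,0)]⟩,⟨2,[(4,0),(13,2),(1,1),(2,0)]⟩⟩,⟨false,0,⟨0,[]⟩,
  ⟨3,[(15,0),(0,0),(18,1)]⟩⟩,⟨false,0,⟨0,[(3,0),(13,0),(14,0)]⟩,⟨1,[(0,1),(6,1),(10,1),(15,0),(0,
  0)]⟩⟩,⟨true,0,⟨0,[(32,0)]⟩,⟨0,[(33,0)]⟩⟩,⟨false,0,⟨0,[(3,0),(2,0),(1,0),(8,0)]⟩,⟨0,[(2,0),(4,0),
  (10,0),(6,0),(5,0)]⟩⟩,[.o ⟨false,0,⟨0,[(32,0)]⟩,⟨3,[(7,3),(7,0),(0,0),(18,1)]⟩⟩,.o ⟨false,1,⟨3,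
  [(15,0),(0,0),(15,3),(2,1)]⟩,⟨0,[(7,0)]⟩⟩,.o ⟨false,1,⟨1,[(18,1),(9,0),(5,0)]⟩,⟨2,[(4,0),(12,2),
  (2,1),(2,0)]⟩⟩,.a ⟨true,0,⟨0,[(18,0)]⟩,⟨0,[(17,0)]⟩⟩ ⟨false,1,⟨1,[(15,0),(18,0)]⟩,⟨0,[(3,0)]⟩⟩
  ⟨true,0,⟨0,[(17,0),(14,0)]⟩,⟨0,[(7,0),(10,0)]⟩⟩]⟩))) (.Q [0,0,0,0,0,-1,0,0,0,1,0,-1] (.p false [0,
  0,0,1] [1] (⟨0,[(16,0)]⟩,⟨0,[(15,0)]⟩) .k 1 (⟨0,[]⟩,⟨0,[]⟩) .k .k) (.Q [0,1,1,0,-1,0,0,0,1,0,0,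
  -1] (.p false [0,0,0,1] [] (⟨0,[(17,0)]⟩,⟨0,[(16,0)]⟩) .k 0 (⟨0,[]⟩,⟨0,[]⟩) .k .k) (.R ⟨1,false,
  false,false,[1,0,0,-1],[1,0,-1],[1,0,0,0,0,0,0,0,-1],(⟨0,[(17,0)]⟩,⟨0,[(18,0)]⟩),(⟨0,[(26,0)]⟩,⟨0,
  [(27,0)]⟩),⟨0,[(1,0)]⟩,.k,.k,(.x (-1) ⟨3,[(15,0),(0,0),(11,1),(0,3)]⟩ ⟨0,[(30,0)]⟩),.k,(.r (-1)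
  ⟨1,[(15,0),(9,1),(7,1),(0,0)]⟩ ⟨2,[(3,2),(0,0),(1,2),(7,0)]⟩),.k,⟨false,1,⟨1,[(15,0),(9,1),(8,
  0)]⟩,⟨1,[(0,1),(13,0),(3,1),(0,0),(2,0),(8,1),(2,1)]⟩⟩,⟨true,0,⟨0,[(17,0),(2,0)]⟩,⟨2,[(4,0),(9,0),
  (3,2)]⟩⟩,⟨true,0,⟨0,[]⟩,⟨0,[(37,0)]⟩⟩,⟨false,0,⟨1,[(0,1),(21,1),(8,1),(2,0),(0,0)]⟩,⟨1,[(10,1),(4,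
  0),(2,1),(15,0)]⟩⟩,⟨false,1,⟨0,[(32,0),(2,0)]⟩,⟨0,[(33,0)]⟩⟩,⟨false,0,⟨1,[(0,1),(5,1),(24,1),(2,
  0),(0,0)]⟩,⟨1,[(10,1),(4,0),(2,1),(14,1),(0,0)]⟩⟩,[.o ⟨false,1,⟨1,[(22,1),(5,0),(6,0)]⟩,⟨0,[(10,
  0)]⟩⟩,.o ⟨false,1,⟨0,[(19,0),(15,0)]⟩,⟨0,[(21,0)]⟩⟩,.o ⟨false,1,⟨1,[(18,1),(9,0),(5,0)]⟩,⟨4,[(0,
  1),(14,0),(1,2),(2,0),(2,0),(4,0),(2,0)]⟩⟩,.a ⟨true,0,⟨0,[(18,0)]⟩,⟨0,[(17,0)]⟩⟩ ⟨true,1,⟨1,[(15,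
  0),(18,0)]⟩,⟨0,[(0,0),(17,0)]⟩⟩ ⟨false,1,⟨0,[(17,0),(1,0),(15,0)]⟩,⟨0,[(10,0),(7,0)]⟩⟩]⟩) (.R ⟨1,
  false,false,true,[1,0,0,-1],[1,0,-1],[0,0,0,-1,0,0,0,0,-1],(⟨0,[(17,0)]⟩,⟨0,[(18,0)]⟩),(⟨0,[(26,
  0)]⟩,⟨0,[(27,0)]⟩),⟨0,[(1,0)]⟩,.k,.k,(.x (-1) ⟨3,[(15,0),(0,0),(11,1),(0,3)]⟩ ⟨0,[(30,0)]⟩),.k,
  (.r (-1) ⟨1,[(15,0),(9,1),(7,1),(0,0)]⟩ ⟨2,[(3,2),(0,0),(1,2),(7,0)]⟩),.k,⟨false,1,⟨0,[(0,0),(6,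
  0),(9,0),(7,0)]⟩,⟨0,[(2,0),(11,0),(4,0),(2,0),(11,0)]⟩⟩,⟨true,0,⟨0,[(17,0),(2,0)]⟩,⟨2,[(4,0),(9,
  0),(3,2)]⟩⟩,⟨true,0,⟨0,[(33,0)]⟩,⟨0,[(32,0)]⟩⟩,⟨false,0,⟨0,[(3,0),(13,0),(1,0)]⟩,⟨0,[(0,0),(9,
  0)]⟩⟩,⟨false,1,⟨3,[(15,0),(0,0),(18,1)]⟩,⟨0,[]⟩⟩,⟨false,0,⟨5,[(2,1),(0,3),(0,1),(1,3),(10,5),(1,
  3),(14,0),(0,0)]⟩,⟨0,[(0,0),(9,0),(22,0)]⟩⟩,[.o ⟨false,0,⟨0,[(19,0)]⟩,⟨3,[(10,3),(4,0),(0,0),(18,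
  1)]⟩⟩,.o ⟨false,1,⟨1,[(22,1),(5,0),(6,0)]⟩,⟨0,[(10,0)]⟩⟩,.o ⟨false,1,⟨1,[(18,1),(9,0),(5,0)]⟩,⟨2,
  [(4,0),(12,2),(2,1),(2,0)]⟩⟩,.a ⟨true,0,⟨0,[(18,0)]⟩,⟨0,[(17,0)]⟩⟩ ⟨false,1,⟨0,[(0,0),(6,0),(9,
  0)]⟩,⟨23,[(2,9),(3,11),(4,1),(2,1),(1,6),(6,3),(4,1),(6,0)]⟩⟩ ⟨true,0,⟨0,[(17,0),(1,0)]⟩,⟨0,[(10,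
  0),(7,0)]⟩⟩]⟩)) (.I [1,-1,-1,-1,1,0,0,0,-1] (.R ⟨0,false,false,true,[1,0,0,-1],[1,0,-1],[1,0,0,-1,
  0,0,0,0,-1],(⟨0,[(17,0)]⟩,⟨0,[(18,0)]⟩),(⟨0,[(26,0)]⟩,⟨0,[(27,0)]⟩),⟨0,[(1,0)]⟩,.k,.k,(.x (-1) ⟨3,
  [(15,0),(0,0),(11,1),(0,3)]⟩ ⟨0,[(30,0)]⟩),.k,.k,.k,⟨false,1,⟨0,[(0,0),(24,0)]⟩,⟨0,[(2,0),(11,0),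
  (4,0),(2,0),(11,0)]⟩⟩,⟨true,0,⟨0,[(17,0),(2,0)]⟩,⟨2,[(4,0),(9,0),(3,2)]⟩⟩,⟨true,0,⟨0,[(33,0)]⟩,⟨0,
  [(32,0)]⟩⟩,⟨false,0,⟨0,[(3,0),(13,0),(1,0)]⟩,⟨0,[(0,0),(7,0),(9,0)]⟩⟩,⟨false,0,⟨0,[]⟩,⟨0,[]⟩⟩,
  ⟨false,0,⟨0,[]⟩,⟨0,[]⟩⟩,[.o ⟨false,0,⟨0,[(19,0)]⟩,⟨3,[(10,3),(4,0),(0,0),(18,1)]⟩⟩,.o ⟨false,1,⟨1,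
  [(22,1),(5,0),(6,0)]⟩,⟨0,[(10,0)]⟩⟩,.o ⟨false,1,⟨1,[(18,1),(9,0),(5,0)]⟩,⟨2,[(4,0),(12,2),(2,1),
  (2,0)]⟩⟩,.a ⟨true,0,⟨0,[(18,0)]⟩,⟨0,[(17,0)]⟩⟩ ⟨false,1,⟨0,[(0,0)]⟩,⟨23,[(2,9),(3,11),(4,1),(2,1),
  (1,6),(6,3),(4,1),(6,0)]⟩⟩ ⟨true,0,⟨0,[(17,0),(1,0)]⟩,⟨0,[(10,0),(7,0)]⟩⟩]⟩) (.K ⟨0,[0,0,0,1],0,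
  (-1),(⟨0,[(18,0)]⟩,⟨0,[(17,0)]⟩),.k,(.x 0 ⟨0,[(20,0),(2,0),(5,0)]⟩ ⟨0,[(30,0),(3,0)]⟩),(.x 0 ⟨0,
  [(30,0)]⟩ ⟨3,[(15,0),(0,0),(11,1),(0,3)]⟩),.k,.k,[⟨0,[(18,0)]⟩,⟨0,[(17,0)]⟩,⟨1,[(15,0),(2,1),(15,
  0),(2,1)]⟩,⟨0,[(0,0),(6,0),(9,0)]⟩]⟩)))) (.Q [0,1,1,0,0,0,0,0,1,0,0,-1] (.p false [0,0,0,1] []
  (⟨0,[(15,0)]⟩,⟨0,[(14,0)]⟩) .k 0 (⟨0,[]⟩,⟨0,[]⟩) .k .k) (.K ⟨0,[0,0,0,1],0,0,(⟨0,[(16,0)]⟩,⟨0,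
  [(15,0)]⟩),.k,(.r (-1) ⟨1,[(14,0),(16,1),(0,0)]⟩ ⟨1,[(1,1),(19,0),(0,0),(6,1),(0,1)]⟩),(.x 0 ⟨0,
  [(28,0)]⟩ ⟨3,[(13,0),(0,0),(11,1),(0,3)]⟩),.k,.k,[⟨0,[(16,0)]⟩,⟨0,[(15,0)]⟩,⟨0,[(1,0),(14,0)]⟩,⟨0,
  [(0,0)]⟩]⟩) (.Q [0,0,0,0,0,1,0,0,0,-1,0,1] (.p true [0,0,0,1] [1] (⟨0,[(16,0)]⟩,⟨0,[(15,0)]⟩) .k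
  1 (⟨0,[]⟩,⟨0,[]⟩) .k .k) (.R ⟨0,false,false,true,[1,0,0,-1],[1,0,-1],[0,1,0,0,0,0,0,0,-1],(⟨0,
  [(16,0)]⟩,⟨0,[(17,0)]⟩),(⟨0,[(25,0)]⟩,⟨0,[(26,0)]⟩),⟨0,[(0,0)]⟩,.k,.k,(.x (-1) ⟨3,[(14,0),(0,0),
  (11,1),(0,3)]⟩ ⟨0,[(29,0)]⟩),.k,.k,.k,⟨false,0,⟨2,[(1,1),(0,0),(3,1),(0,0),(4,0),(3,1),(7,1)]⟩,⟨1,
  [(13,0),(1,0),(2,0),(2,0),(12,0)]⟩⟩,⟨true,0,⟨0,[(16,0),(2,0)]⟩,⟨2,[(3,0),(9,0),(3,2)]⟩⟩,⟨true,0,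
  ⟨0,[(36,0)]⟩,⟨0,[]⟩⟩,⟨false,1,⟨5,[(15,2),(0,5),(2,1),(1,5),(0,1),(4,1),(2,1),(3,0)]⟩,⟨0,[(1,0),(7,
  0)]⟩⟩,⟨false,0,⟨0,[]⟩,⟨0,[]⟩⟩,⟨false,0,⟨0,[]⟩,⟨0,[]⟩⟩,[.o ⟨false,0,⟨0,[(18,0)]⟩,⟨3,[(9,3),(4,0),
  (0,0),(18,1)]⟩⟩,.o ⟨false,1,⟨1,[(21,1),(5,0),(6,0)]⟩,⟨0,[(9,0)]⟩⟩,.o ⟨false,1,⟨1,[(17,1),(9,0),(5,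
  0)]⟩,⟨2,[(3,0),(12,2),(2,1),(2,0)]⟩⟩,.a ⟨true,0,⟨0,[(17,0)]⟩,⟨0,[(16,0)]⟩⟩ ⟨false,0,⟨2,[(1,1),(0,
  0),(3,0),(0,0),(8,1),(1,0)]⟩,⟨1,[(15,0),(6,0),(0,0),(10,0)]⟩⟩ ⟨true,0,⟨0,[(16,0),(1,0)]⟩,⟨0,[(9,
  0),(7,0)]⟩⟩]⟩) (.R ⟨1,false,false,true,[1,0,0,-1],[1,0,-1],[0,1,0,-1,0,0,0,0,-1],(⟨0,[(16,0)]⟩,⟨0,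
  [(17,0)]⟩),(⟨0,[(25,0)]⟩,⟨0,[(26,0)]⟩),⟨0,[(0,0)]⟩,.k,.k,(.x (-1) ⟨3,[(14,0),(0,0),(11,1),(0,3)]⟩
  ⟨0,[(29,0)]⟩),.k,(.r 0 ⟨1,[(1,0),(0,0),(3,0),(9,0),(7,1),(7,0)]⟩ ⟨1,[(5,1),(9,0),(6,1),(11,0)]⟩),
  .k,⟨false,0,⟨1,[(1,0),(0,0),(3,0),(9,0),(7,1),(7,0)]⟩,⟨5,[(3,1),(1,5),(7,1),(1,2),(18,2)]⟩⟩,⟨true,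
  0,⟨0,[(16,0),(2,0)]⟩,⟨2,[(3,0),(9,0),(3,2)]⟩⟩,⟨false,0,⟨0,[(32,0)]⟩,⟨0,[(31,0),(2,0)]⟩⟩,⟨false,1,
  ⟨5,[(15,2),(0,5),(2,1),(1,5),(0,1),(4,1),(2,1),(3,0)]⟩,⟨0,[(1,0),(7,0)]⟩⟩,⟨true,0,⟨0,[(36,0)]⟩,⟨0,
  []⟩⟩,⟨false,1,⟨5,[(5,5),(9,2),(0,5),(2,1),(2,1),(4,1),(2,1),(3,0)]⟩,⟨0,[(1,0),(7,0),(22,0)]⟩⟩,[.o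
  ⟨false,0,⟨0,[(18,0)]⟩,⟨3,[(9,3),(4,0),(0,0),(18,1)]⟩⟩,.o ⟨false,1,⟨1,[(21,1),(5,0),(6,0)]⟩,⟨0,[(9,
  0)]⟩⟩,.o ⟨false,1,⟨1,[(17,1),(9,0),(5,0)]⟩,⟨2,[(3,0),(12,2),(2,1),(2,0)]⟩⟩,.a ⟨true,0,⟨0,[(17,
  0)]⟩,⟨0,[(16,0)]⟩⟩ ⟨false,0,⟨1,[(1,0),(0,0),(3,0),(9,0),(15,0)]⟩,⟨3,[(15,1),(6,0),(0,0),(6,1),(0,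
  3),(2,1)]⟩⟩ ⟨true,0,⟨0,[(16,0),(1,0)]⟩,⟨0,[(9,0),(7,0)]⟩⟩]⟩)))))

theorem ok7 : chk (cU (-1) true 10) t7 l7 = true := by decide +kernel

noncomputable def t8 : Tre :=
  (.Q [0,-1,0,-1,0,0,1,1,0,1,-1] (.p false [0,0,1] [1] (⟨0,[(22,0)]⟩,⟨0,[(21,0)]⟩) .k 1 (⟨0,[]⟩,⟨0,
  []⟩) .k .k) (.R ⟨2,true,false,true,[0,1],[1,1,-1],[0,1,1],(⟨0,[]⟩,⟨0,[]⟩),(⟨0,[(22,0),(3,0)]⟩,⟨0,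
  [(1,0)]⟩),⟨0,[]⟩,.k,.k,.k,.k,.k,.k,⟨true,0,⟨0,[(21,0),(7,0)]⟩,⟨1,[(2,1),(2,0),(13,0),(7,0)]⟩⟩,
  ⟨false,1,⟨0,[(16,0),(13,0)]⟩,⟨1,[(10,0),(2,0),(0,0)]⟩⟩,⟨false,0,⟨0,[(29,0)]⟩,⟨0,[(28,0),(2,0)]⟩⟩,
  ⟨true,0,⟨0,[(15,0)]⟩,⟨2,[(0,1),(6,0),(1,0),(23,0)]⟩⟩,⟨true,0,⟨0,[(33,0)]⟩,⟨0,[]⟩⟩,⟨false,1,⟨1,[(2,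
  1),(21,0),(6,0)]⟩,⟨0,[(0,0)]⟩⟩,[]⟩) (.I [0,1,1,0,-1,0,0,1,-1] (.I [1,1,1,0,-1,0,0,0,-1] (.Q [0,1,
  1,0,0,0,0,0,1,0,0,-1] (.p false [0,0,0,1] [] (⟨0,[(16,0)]⟩,⟨0,[(15,0)]⟩) .k 0 (⟨0,[]⟩,⟨0,[]⟩) .k
  .k) (.K ⟨0,[0,0,0,1],0,0,(⟨0,[(17,0)]⟩,⟨0,[(16,0)]⟩),.k,(.r (-1) ⟨1,[(15,0),(16,1),(0,0)]⟩ ⟨2,[(1,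
  0),(12,0),(15,1),(0,2)]⟩),(.x 0 ⟨0,[(29,0)]⟩ ⟨7,[(4,3),(6,3),(2,2),(0,2),(11,1)]⟩),.k,.k,[⟨0,[(17,
  0)]⟩,⟨0,[(16,0)]⟩,⟨0,[(1,0),(15,0),(15,0)]⟩,⟨0,[(0,0)]⟩]⟩) (.R ⟨2,false,false,true,[0,1],[0,0,0,
  1],[],(⟨0,[]⟩,⟨0,[]⟩),(⟨0,[(17,0)]⟩,⟨0,[(16,0)]⟩),⟨0,[]⟩,.k,.k,.k,(.r 0 ⟨2,[(1,0),(12,0),(15,1),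
  (0,2)]⟩ ⟨1,[(15,0),(16,1),(0,0)]⟩),.k,.k,⟨true,0,⟨2,[(0,1),(0,0),(14,1),(10,0),(2,0)]⟩,⟨0,[(1,0),
  (13,0)]⟩⟩,⟨false,0,⟨10,[(3,1),(2,3),(0,1),(8,10),(2,4),(2,4),(7,0)]⟩,⟨0,[(17,0),(15,0)]⟩⟩,⟨false,
  1,⟨1,[(32,1),(0,0),(0,0)]⟩,⟨3,[(22,0),(0,0),(6,1),(0,3)]⟩⟩,⟨true,0,⟨0,[(1,0),(4,0),(8,0),(0,0)]⟩,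
  ⟨0,[(0,0),(30,0)]⟩⟩,⟨false,1,⟨1,[(33,0),(0,0)]⟩,⟨1,[(22,0),(0,0)]⟩⟩,⟨false,1,⟨7,[(14,0),(0,4),(0,
  7),(2,3),(2,3),(4,1)]⟩,⟨0,[(0,0)]⟩⟩,[.a ⟨true,0,⟨0,[(1,0),(13,0),(0,0)]⟩,⟨0,[(0,0)]⟩⟩ ⟨false,1,⟨3,
  [(14,0),(0,0),(17,1)]⟩,⟨0,[]⟩⟩ ⟨true,0,⟨10,[(1,10),(1,1),(2,3),(0,1),(7,10),(0,10),(2,4),(2,4),(7,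
  0)]⟩,⟨0,[(0,0)]⟩⟩,.o ⟨false,1,⟨7,[(14,0),(0,4),(0,7),(2,3),(2,3),(4,1)]⟩,⟨1,[(0,1),(2,0),(2,0),
  (13,0)]⟩⟩,.o ⟨false,1,⟨3,[(14,0),(0,0),(17,1)]⟩,⟨10,[(3,1),(2,3),(0,1),(11,4),(2,4),(7,0)]⟩⟩,.e
  ⟨false,1,⟨1,[(33,0),(0,0)]⟩,⟨1,[(22,0),(0,0)]⟩⟩ ⟨false,1,⟨7,[(14,0),(0,4),(0,7),(2,3),(2,3),(4,
  1)]⟩,⟨0,[(0,0)]⟩⟩]⟩)) (.I [0,1,1,0,0,0,0,0,1] (.Q [0,1,-1,0,0,0,0,0,-1,0,0,1] (.p true [0,0,0,1]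
  [] (⟨0,[(17,0)]⟩,⟨0,[(16,0)]⟩) .k 0 (⟨0,[]⟩,⟨0,[]⟩) .k .k) (.Q [0,1,1,0,0,0,0,0,1,0,0,-1] (.p
  false [0,0,0,1] [] (⟨0,[(18,0)]⟩,⟨0,[(17,0)]⟩) .k 0 (⟨0,[]⟩,⟨0,[]⟩) .k .k) (.K ⟨0,[0,0,0,1],0,0,
  (⟨0,[(19,0)]⟩,⟨0,[(18,0)]⟩),.k,(.r (-1) ⟨1,[(17,0),(16,1),(0,0)]⟩ ⟨8,[(4,2),(0,1),(1,2),(4,1),(3,
  2),(7,0),(7,4),(0,1)]⟩),(.x 0 ⟨0,[(31,0)]⟩ ⟨7,[(6,3),(6,3),(2,2),(0,2),(11,1)]⟩),.k,.k,[⟨0,[(19,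
  0)]⟩,⟨0,[(18,0)]⟩,⟨0,[(1,0)]⟩,⟨0,[(0,0)]⟩]⟩) (.R ⟨2,false,false,true,[0,1],[0,0,0,1],[],(⟨0,[]⟩,
  ⟨0,[]⟩),(⟨0,[(19,0)]⟩,⟨0,[(18,0)]⟩),⟨0,[]⟩,.k,.k,.k,(.r 0 ⟨8,[(4,2),(0,1),(1,2),(4,1),(3,2),(7,0),
  (7,4),(0,1)]⟩ ⟨1,[(17,0),(16,1),(0,0)]⟩),.k,.k,⟨true,0,⟨9,[(0,5),(3,1),(0,1),(2,1),(1,1),(5,0),(1,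
  5),(10,0),(2,3)]⟩,⟨0,[(2,0)]⟩⟩,⟨false,0,⟨10,[(5,1),(2,3),(0,1),(8,10),(2,4),(2,4),(7,0)]⟩,⟨0,[(1,
  0),(1,0)]⟩⟩,⟨false,1,⟨1,[(34,1),(0,0),(0,0)]⟩,⟨3,[(24,0),(0,0),(6,1),(0,3)]⟩⟩,⟨true,0,⟨0,[(2,0),
  (5,0),(9,0)]⟩,⟨0,[(0,0),(32,0)]⟩⟩,⟨false,1,⟨1,[(35,0),(0,0)]⟩,⟨1,[(24,0),(0,0)]⟩⟩,⟨false,1,⟨7,
  [(16,0),(0,4),(0,7),(2,3),(2,3),(4,1)]⟩,⟨0,[(0,0)]⟩⟩,[.a ⟨true,0,⟨0,[(2,0),(15,0)]⟩,⟨0,[(0,0)]⟩⟩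
  ⟨false,1,⟨3,[(16,0),(0,0),(17,1)]⟩,⟨0,[]⟩⟩ ⟨true,0,⟨10,[(2,10),(2,1),(2,3),(0,1),(8,10),(2,4),(2,
  4),(7,0)]⟩,⟨0,[(0,0)]⟩⟩,.o ⟨false,1,⟨7,[(16,0),(0,4),(0,7),(2,3),(2,3),(4,1)]⟩,⟨2,[(0,1),(0,0),(3,
  0),(2,1),(0,0)]⟩⟩,.o ⟨false,1,⟨3,[(16,0),(0,0),(17,1)]⟩,⟨10,[(5,1),(2,3),(0,1),(11,4),(2,4),(7,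
  0)]⟩⟩,.e ⟨false,1,⟨1,[(35,0),(0,0)]⟩,⟨1,[(24,0),(0,0)]⟩⟩ ⟨false,1,⟨7,[(16,0),(0,4),(0,7),(2,3),(2,
  3),(4,1)]⟩,⟨0,[(0,0)]⟩⟩]⟩)) (.Q [0,0,0,0,0,-1,0,0,0,1,0,-1] (.p false [0,0,0,1] [1] (⟨0,[(18,0)]⟩,
  ⟨0,[(17,0)]⟩) .k 1 (⟨0,[]⟩,⟨0,[]⟩) .k .k) (.R ⟨1,false,false,true,[1,0,0,-1],[0,1],[1,1,0,0,0,0,0,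
  0,-1],(⟨0,[(18,0)]⟩,⟨0,[(19,0)]⟩),(⟨0,[(31,0)]⟩,⟨0,[(30,0)]⟩),⟨0,[(0,0)]⟩,.k,.k,(.x (-1) ⟨7,[(6,
  3),(6,3),(2,2),(0,2),(11,1)]⟩ ⟨0,[(31,0)]⟩),(.x (-1) ⟨7,[(6,3),(6,3),(2,2),(0,2),(11,1)]⟩ ⟨0,[(31,
  0)]⟩),(.r (-1) ⟨1,[(4,1),(3,0),(6,0),(7,1),(8,1),(1,2),(0,3)]⟩ ⟨0,[(2,0),(4,0),(1,0),(22,0)]⟩),.k,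
  ⟨false,1,⟨1,[(4,1),(3,0),(6,0),(7,1),(8,1),(1,0),(0,3)]⟩,⟨3,[(1,2),(0,0),(4,1),(1,1),(9,2)]⟩⟩,
  ⟨true,0,⟨0,[(18,0)]⟩,⟨10,[(5,1),(2,3),(0,1),(9,10),(1,4),(2,4),(7,0)]⟩⟩,⟨false,0,⟨0,[]⟩,⟨3,[(16,
  0),(0,0),(18,1)]⟩⟩,⟨false,0,⟨5,[(1,4),(0,0),(4,1),(4,1),(1,1),(3,3),(0,2)]⟩,⟨3,[(4,1),(3,3),(6,0),
  (0,0),(2,3),(0,0),(2,0),(8,3),(2,4)]⟩⟩,⟨true,0,⟨0,[(33,0)]⟩,⟨0,[(34,0)]⟩⟩,⟨false,0,⟨0,[(1,0),(5,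
  0),(1,0),(8,0),(0,0)]⟩,⟨3,[(4,1),(3,4),(6,0),(0,0),(2,3),(3,1),(8,3),(1,2),(0,4)]⟩⟩,[.o ⟨false,0,
  ⟨0,[(33,0)]⟩,⟨3,[(8,3),(7,0),(0,0),(18,1)]⟩⟩,.o ⟨false,1,⟨3,[(16,0),(0,0),(15,3),(2,1)]⟩,⟨0,[(8,
  0)]⟩⟩,.o ⟨false,1,⟨1,[(19,1),(9,0),(5,0)]⟩,⟨7,[(1,3),(2,1),(11,0),(1,3),(1,1),(3,1),(4,0)]⟩⟩,.a
  ⟨true,0,⟨0,[(19,0)]⟩,⟨0,[(18,0)]⟩⟩ ⟨false,1,⟨1,[(16,0),(18,0)]⟩,⟨0,[(1,0),(17,0)]⟩⟩ ⟨true,0,⟨0,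
  [(18,0),(14,0)]⟩,⟨0,[(8,0),(10,0)]⟩⟩]⟩) (.R ⟨0,false,false,true,[1,0,0,-1],[0,1],[0,1,0,0,0,0,0,0,
  -1],(⟨0,[(18,0)]⟩,⟨0,[(19,0)]⟩),(⟨0,[(31,0)]⟩,⟨0,[(30,0)]⟩),⟨0,[(0,0)]⟩,.k,.k,(.x (-1) ⟨7,[(6,3),
  (6,3),(2,2),(0,2),(11,1)]⟩ ⟨0,[(31,0)]⟩),(.x (-1) ⟨7,[(6,3),(6,3),(2,2),(0,2),(11,1)]⟩ ⟨0,[(31,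
  0)]⟩),.k,.k,⟨false,1,⟨1,[(4,1),(3,0),(6,0),(7,1),(8,1),(1,0),(0,3)]⟩,⟨3,[(1,2),(0,0),(4,1),(1,1),
  (9,2)]⟩⟩,⟨true,0,⟨0,[(18,0)]⟩,⟨10,[(5,1),(2,3),(0,1),(9,10),(1,4),(2,4),(7,0)]⟩⟩,⟨true,0,⟨0,[(38,
  0)]⟩,⟨0,[]⟩⟩,⟨false,0,⟨5,[(1,4),(0,0),(4,1),(4,1),(1,1),(3,3),(0,2)]⟩,⟨3,[(4,1),(3,3),(6,0),(0,0),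
  (2,3),(0,0),(2,0),(8,3),(2,4)]⟩⟩,⟨false,0,⟨0,[]⟩,⟨0,[]⟩⟩,⟨false,0,⟨0,[]⟩,⟨0,[]⟩⟩,[.o ⟨false,0,⟨0,
  [(33,0)]⟩,⟨3,[(8,3),(7,0),(0,0),(18,1)]⟩⟩,.o ⟨false,1,⟨3,[(16,0),(0,0),(15,3),(2,1)]⟩,⟨0,[(8,
  0)]⟩⟩,.o ⟨false,1,⟨1,[(19,1),(9,0),(5,0)]⟩,⟨7,[(1,3),(2,1),(11,0),(1,3),(1,1),(3,1),(4,0)]⟩⟩,.a
  ⟨true,0,⟨0,[(19,0)]⟩,⟨0,[(18,0)]⟩⟩ ⟨false,1,⟨1,[(16,0),(18,0)]⟩,⟨0,[(1,0),(17,0)]⟩⟩ ⟨true,0,⟨0,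
  [(18,0),(14,0)]⟩,⟨0,[(8,0),(10,0)]⟩⟩]⟩))) (.Q [0,0,0,0,0,-1,0,0,0,1,0,-1] (.p false [0,0,0,1] [1]
  (⟨0,[(17,0)]⟩,⟨0,[(16,0)]⟩) .k 1 (⟨0,[]⟩,⟨0,[]⟩) .k .k) (.R ⟨1,false,false,true,[1,0,0,-1],[1,0,
  -1],[1,0,0,0,0,0,0,0,-1],(⟨0,[(17,0)]⟩,⟨0,[(18,0)]⟩),(⟨0,[(26,0)]⟩,⟨0,[(27,0)]⟩),⟨0,[(0,0)]⟩,.k,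
  .k,(.x (-1) ⟨7,[(5,3),(6,3),(2,2),(0,2),(11,1)]⟩ ⟨0,[(30,0)]⟩),.k,(.r 0 ⟨1,[(1,0),(1,0),(21,0),(7,
  1),(0,0)]⟩ ⟨1,[(6,1),(9,0),(6,1),(11,0)]⟩),.k,⟨false,0,⟨0,[(1,0),(23,0)]⟩,⟨7,[(14,3),(0,0),(0,4),
  (5,7),(5,1)]⟩⟩,⟨true,0,⟨0,[(17,0),(2,0)]⟩,⟨0,[(9,0),(8,0)]⟩⟩,⟨true,0,⟨0,[]⟩,⟨0,[(37,0)]⟩⟩,⟨false,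
  1,⟨5,[(16,2),(0,5),(2,1),(1,5),(0,1),(4,1),(2,1),(3,0)]⟩,⟨0,[(1,0),(8,0),(7,0)]⟩⟩,⟨false,1,⟨0,
  [(32,0),(2,0)]⟩,⟨0,[(33,0)]⟩⟩,⟨false,1,⟨1,[(4,0),(1,0),(9,0),(0,1),(2,0),(2,0),(11,0)]⟩,⟨0,[(1,0),
  (8,0),(7,0),(14,0)]⟩⟩,[.o ⟨false,0,⟨0,[(19,0)]⟩,⟨3,[(10,3),(4,0),(0,0),(18,1)]⟩⟩,.o ⟨false,1,⟨1,
  [(22,1),(5,0),(6,0)]⟩,⟨0,[(10,0)]⟩⟩,.o ⟨false,1,⟨1,[(18,1),(9,0),(5,0)]⟩,⟨10,[(4,1),(2,3),(0,1),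
  (8,10),(2,4),(2,4),(7,0)]⟩⟩,.a ⟨true,0,⟨0,[(18,0)]⟩,⟨0,[(17,0)]⟩⟩ ⟨false,0,⟨0,[(1,0)]⟩,⟨3,[(15,0),
  (0,2),(6,1),(0,1)]⟩⟩ ⟨true,0,⟨0,[(17,0),(1,0)]⟩,⟨0,[(10,0),(7,0)]⟩⟩]⟩) (.R ⟨0,false,false,true,[1,
  0,0,-1],[0,0,1],[0,1,1],(⟨0,[(17,0)]⟩,⟨0,[(18,0)]⟩),(⟨0,[(27,0)]⟩,⟨0,[(26,0)]⟩),⟨0,[(0,0)]⟩,.k,.k,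
  (.x (-1) ⟨7,[(5,3),(6,3),(2,2),(0,2),(11,1)]⟩ ⟨0,[(30,0)]⟩),.k,.k,.k,⟨true,0,⟨3,[(14,0),(4,0),(2,
  2),(0,1),(7,1)]⟩,⟨0,[(25,0)]⟩⟩,⟨false,0,⟨0,[(9,0),(7,0)]⟩,⟨0,[(18,0),(1,0),(13,0)]⟩⟩,⟨false,1,⟨3,
  [(15,0),(0,2),(6,1),(0,1)]⟩,⟨0,[(1,0)]⟩⟩,⟨true,0,⟨0,[(3,0),(5,0),(6,0),(0,0)]⟩,⟨0,[(1,0),(16,0),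
  (0,0)]⟩⟩,⟨false,0,⟨0,[]⟩,⟨0,[]⟩⟩,⟨false,0,⟨0,[]⟩,⟨0,[]⟩⟩,[.o ⟨false,0,⟨0,[(21,0)]⟩,⟨0,[(19,0),(15,
  0)]⟩⟩,.o ⟨false,0,⟨0,[(10,0)]⟩,⟨1,[(22,1),(5,0),(6,0)]⟩⟩,.o ⟨false,1,⟨1,[(18,1),(9,0),(5,0)]⟩,⟨10,
  [(4,1),(2,3),(0,1),(8,10),(2,4),(2,4),(7,0)]⟩⟩,.a ⟨true,0,⟨0,[(18,0)]⟩,⟨0,[(17,0)]⟩⟩ ⟨true,0,⟨0,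
  [(37,0)]⟩,⟨0,[]⟩⟩ ⟨false,0,⟨0,[(10,0),(6,0)]⟩,⟨0,[(18,0),(0,0),(15,0)]⟩⟩]⟩)))) (.Q [0,1,0,0,0,0,
  -2,-2,0,-1,2] (.p true [0,0,1] [1,0,-1] (⟨0,[(24,0)]⟩,⟨0,[(23,0)]⟩) .k 2 (⟨0,[(23,0)]⟩,⟨0,[(24,
  0)]⟩) .k (.r 0 ⟨0,[(22,1)]⟩ ⟨5,[(0,3),(10,2),(0,1),(3,2),(2,4),(0,1),(7,1)]⟩)) (.Q [0,-1,0,-1,0,0,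
  2,2,0,1,-2] (.p false [0,0,1] [1,0,-1] (⟨0,[(25,0)]⟩,⟨0,[(24,0)]⟩) .k 2 (⟨0,[(24,0)]⟩,⟨0,[(25,
  0)]⟩) .k (.r 0 ⟨0,[(23,1)]⟩ ⟨3,[(0,1),(0,1),(10,1),(0,0),(6,1),(0,1),(11,0)]⟩)) (.R ⟨1,true,false,
  true,[0,0,1],[1,0,-1],[1,1,0,0,0,0,0,1],(⟨0,[(26,0)]⟩,⟨0,[(25,0)]⟩),(⟨0,[(25,0)]⟩,⟨0,[(26,0)]⟩),
  ⟨0,[(4,0)]⟩,.k,.k,.k,.k,(.r (-1) ⟨3,[(14,0),(0,0),(8,7),(7,3),(0,1)]⟩ ⟨7,[(1,3),(1,2),(1,4),(7,6),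
  (8,1),(7,5)]⟩),.k,⟨true,0,⟨0,[(24,1)]⟩,⟨4,[(1,3),(11,3),(7,1),(0,1),(7,2)]⟩⟩,⟨false,1,⟨1,[(1,1),
  (22,3),(8,0),(0,0)]⟩,⟨0,[(13,0)]⟩⟩,⟨false,0,⟨0,[]⟩,⟨3,[(14,0),(0,0),(18,1)]⟩⟩,⟨true,0,⟨0,[(1,0)]⟩,
  ⟨2,[(0,1),(9,0),(1,0),(7,0)]⟩⟩,⟨true,0,⟨0,[(31,0)]⟩,⟨0,[(32,0)]⟩⟩,⟨false,1,⟨3,[(1,1),(3,3),(21,0),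
  (6,2)]⟩,⟨0,[(0,0)]⟩⟩,[]⟩) (.Q [0,-1,1,0,0,0,0,0,1,0,0,-1] (.p false [0,0,0,1] [] (⟨0,[(17,0)]⟩,⟨0,
  [(16,0)]⟩) .k 0 (⟨0,[]⟩,⟨0,[]⟩) .k .k) (.Q [0,0,2,1,-1,0,2,1,0,1,-2] (.p false [0,0,1] [1,0,-1]
  (⟨0,[(27,0)]⟩,⟨0,[(26,0)]⟩) .k 2 (⟨0,[(26,0)]⟩,⟨0,[(27,0)]⟩) .k (.r 0 ⟨0,[(25,1)]⟩ ⟨3,[(2,1),(0,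
  1),(10,1),(0,0),(6,1),(0,1),(11,0)]⟩)) (.Q [0,0,0,-2,0,0,-1,-1,0,-1,1] (.p true [0,0,1] [1] (⟨0,
  [(28,0)]⟩,⟨0,[(27,0)]⟩) .k 1 (⟨0,[]⟩,⟨0,[]⟩) .k .k) (.R ⟨1,true,false,true,[1,0,-1],[0,1],[1,0,0,
  0,0,0,0,-1],(⟨0,[(28,0)]⟩,⟨0,[(29,0)]⟩),(⟨0,[(32,0)]⟩,⟨0,[(31,0)]⟩),⟨0,[(14,0)]⟩,.k,.k,.k,.k,(.r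
  (-1) ⟨1,[(0,1),(15,0),(2,0),(0,0),(15,1)]⟩ ⟨11,[(1,7),(8,3),(4,11),(1,0),(0,0),(3,7),(14,5)]⟩),.k,
  ⟨true,1,⟨19,[(0,9),(3,1),(0,5),(10,6),(0,2),(1,4),(0,4),(12,7),(2,10)]⟩,⟨0,[(1,0),(2,0),(22,1)]⟩⟩,
  ⟨false,1,⟨1,[(16,0),(2,0),(0,0),(15,1)]⟩,⟨0,[(22,0)]⟩⟩,⟨true,0,⟨0,[]⟩,⟨0,[(39,0)]⟩⟩,⟨false,0,⟨0,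
  [(10,0),(8,0),(0,0)]⟩,⟨7,[(0,3),(3,1),(12,0),(0,0),(11,0),(6,4)]⟩⟩,⟨false,1,⟨0,[(34,0),(2,0)]⟩,⟨0,
  [(35,0)]⟩⟩,⟨true,0,⟨0,[(13,0),(1,0)]⟩,⟨0,[(0,0)]⟩⟩,[]⟩) (.Q [0,1,1,0,-1,0,0,0,1,0,0,-1] (.p false
  [0,0,0,1] [] (⟨0,[(20,0)]⟩,⟨0,[(19,0)]⟩) .k 0 (⟨0,[]⟩,⟨0,[]⟩) .k .k) (.K ⟨0,[0,0,0,1],0,(-1),(⟨0,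
  [(21,0)]⟩,⟨0,[(20,0)]⟩),.k,(.x 0 ⟨1,[(8,0),(6,0),(7,0),(2,1),(0,0)]⟩ ⟨0,[(33,0),(3,0)]⟩),(.x 0 ⟨0,
  [(33,0)]⟩ ⟨7,[(8,3),(6,3),(2,2),(0,2),(11,1)]⟩),.k,.k,[⟨0,[(21,0)]⟩,⟨0,[(20,0)]⟩,⟨1,[(18,0),(2,1),
  (15,0),(2,1)]⟩,⟨0,[(0,0)]⟩]⟩) (.I [1,-1,1,1,0,0,0,0,1] (.Q [0,-1,0,-2,0,0,2,2,0,1,-2] (.p false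
  [0,0,1] [1,0,-1] (⟨0,[(31,0)]⟩,⟨0,[(30,0)]⟩) .k 2 (⟨0,[(30,0)]⟩,⟨0,[(31,0)]⟩) .k (.r 0 ⟨0,[(29,
  1)]⟩ ⟨3,[(6,1),(0,1),(10,1),(0,0),(6,1),(0,1),(11,0)]⟩)) (.Q [0,0,2,0,-1,0,2,0,0,1,-2] (.p false
  [0,0,1] [1,0,-1] (⟨0,[(32,0)]⟩,⟨0,[(31,0)]⟩) .k 2 (⟨0,[(31,0)]⟩,⟨0,[(32,0)]⟩) .k (.r 0 ⟨0,[(30,
  1)]⟩ ⟨3,[(7,1),(0,1),(10,1),(0,0),(6,1),(0,1),(11,0)]⟩)) (.R ⟨1,true,false,true,[0,0,1],[1,1,-1],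
  [1,1,0,0,0,0,0,1],(⟨0,[(33,0)]⟩,⟨0,[(32,0)]⟩),(⟨0,[(32,0),(3,0)]⟩,⟨0,[(11,0)]⟩),⟨0,[(11,0)]⟩,.k,
  .k,.k,(.r (-1) ⟨3,[(1,1),(6,1),(12,0),(0,0),(8,7),(8,1)]⟩ ⟨1,[(0,0),(6,1),(12,0),(20,0)]⟩),(.r
  (-1) ⟨0,[(1,0),(6,0),(22,1),(8,0)]⟩ ⟨18,[(0,15),(1,11),(1,3),(2,17),(1,5),(11,8),(12,0)]⟩),.k,
  ⟨false,1,⟨1,[(1,0),(6,0),(22,3),(8,1)]⟩,⟨1,[(0,0),(6,1),(12,0),(20,0)]⟩⟩,⟨true,1,⟨1,[(8,1),(22,3),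
  (8,0),(0,0)]⟩,⟨0,[(0,0)]⟩⟩,⟨false,0,⟨0,[]⟩,⟨3,[(21,0),(0,0),(18,1)]⟩⟩,⟨true,0,⟨0,[(7,0)]⟩,⟨3,[(1,
  2),(2,0),(22,0),(15,1)]⟩⟩,⟨true,0,⟨0,[(38,0)]⟩,⟨0,[(39,0)]⟩⟩,⟨false,1,⟨19,[(4,7),(2,23),(13,2),(0,
  2),(11,1),(6,11)]⟩,⟨0,[(1,0)]⟩⟩,[]⟩) (.Q [0,1,-1,-2,0,0,1,1,-1,0,-1,1] (.p false [0,0,1] [0,0,0,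
  1] (⟨0,[(33,0)]⟩,⟨0,[(32,0)]⟩) .k 2 (⟨0,[(24,0)]⟩,⟨0,[(23,0)]⟩) .k (.x (-1) ⟨7,[(20,3),(0,0),(0,
  0),(10,7),(0,1),(5,3)]⟩ ⟨0,[(26,0),(5,0)]⟩)) (.Q [0,0,0,0,0,-1,0,0,0,1,0,-1] (.p false [0,0,0,1]
  [1] (⟨0,[(25,0)]⟩,⟨0,[(24,0)]⟩) .k 1 (⟨0,[]⟩,⟨0,[]⟩) .k .k) (.R ⟨1,false,false,true,[1,0,0,-1],[0,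
  1],[0,1,0,-1,0,0,0,0,-1],(⟨0,[(25,0)]⟩,⟨0,[(26,0)]⟩),(⟨0,[(38,0)]⟩,⟨0,[(37,0)]⟩),⟨0,[(0,0)]⟩,.k,
  .k,(.x (-1) ⟨7,[(13,3),(6,3),(2,2),(0,2),(11,1)]⟩ ⟨0,[(38,0)]⟩),(.x (-1) ⟨7,[(13,3),(6,3),(2,2),
  (0,2),(11,1)]⟩ ⟨0,[(38,0)]⟩),(.r (-1) ⟨2,[(1,1),(3,0),(4,0),(4,1),(9,2),(13,0),(2,1)]⟩ ⟨43,[(4,
  23),(1,7),(0,23),(1,15),(11,7),(1,6),(0,16),(3,15)]⟩),.k,⟨false,1,⟨2,[(1,1),(3,0),(4,0),(4,1),(9,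
  2),(13,0),(2,1)]⟩,⟨0,[(4,0),(35,0)]⟩⟩,⟨true,0,⟨0,[(25,0)]⟩,⟨14,[(7,3),(2,1),(4,3),(10,14),(1,4),
  (2,0),(4,3),(2,0)]⟩⟩,⟨false,0,⟨0,[(41,0)]⟩,⟨19,[(6,7),(2,3),(13,2),(0,2),(11,1),(6,11)]⟩⟩,⟨false,
  0,⟨3,[(4,0),(2,0),(0,0),(5,0),(6,0),(2,0),(0,2)]⟩,⟨0,[(5,0),(9,0)]⟩⟩,⟨true,0,⟨0,[(45,0)]⟩,⟨0,[]⟩⟩,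
  ⟨false,0,⟨7,[(4,0),(1,3),(0,0),(0,4),(5,4),(6,0),(2,0),(0,2)]⟩,⟨1,[(3,0),(1,1),(4,0),(4,1)]⟩⟩,[.o
  ⟨false,0,⟨0,[(40,0)]⟩,⟨3,[(15,3),(7,0),(0,0),(18,1)]⟩⟩,.o ⟨false,1,⟨9,[(6,3),(2,1),(13,3),(0,3),
  (11,0),(6,0)]⟩,⟨0,[(15,0)]⟩⟩,.o ⟨false,1,⟨1,[(26,1),(9,0),(5,0)]⟩,⟨13,[(7,3),(0,1),(1,1),(4,3),(7,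
  0),(1,11),(2,3),(7,2)]⟩⟩,.a ⟨true,0,⟨0,[(26,0)]⟩,⟨0,[(25,0)]⟩⟩ ⟨false,1,⟨11,[(1,3),(0,1),(0,0),(6,
  0),(0,3),(3,1),(7,5),(1,3)]⟩,⟨0,[(4,0)]⟩⟩ ⟨true,0,⟨0,[(25,0),(14,0)]⟩,⟨0,[(15,0),(10,0)]⟩⟩]⟩) (.R
  ⟨0,false,false,true,[1,0,0,-1],[0,1],[0,1,0,0,0,0,0,0,-1],(⟨0,[(25,0)]⟩,⟨0,[(26,0)]⟩),(⟨0,[(38,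
  0)]⟩,⟨0,[(37,0)]⟩),⟨0,[(0,0)]⟩,.k,.k,(.x (-1) ⟨7,[(13,3),(6,3),(2,2),(0,2),(11,1)]⟩ ⟨0,[(38,0)]⟩),
  (.x (-1) ⟨7,[(13,3),(6,3),(2,2),(0,2),(11,1)]⟩ ⟨0,[(38,0)]⟩),.k,.k,⟨false,1,⟨2,[(1,1),(0,1),(2,0),
  (3,0),(7,3),(7,2),(13,0)]⟩,⟨3,[(4,1),(2,0),(13,0),(2,0),(2,0)]⟩⟩,⟨true,0,⟨0,[(25,0)]⟩,⟨14,[(7,3),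
  (2,1),(4,3),(10,14),(1,4),(2,0),(4,3),(2,0)]⟩⟩,⟨true,0,⟨0,[(45,0)]⟩,⟨0,[]⟩⟩,⟨false,0,⟨3,[(4,0),(2,
  0),(0,0),(5,0),(6,0),(2,0),(0,2)]⟩,⟨0,[(5,0),(9,0)]⟩⟩,⟨false,0,⟨0,[]⟩,⟨0,[]⟩⟩,⟨false,0,⟨0,[]⟩,⟨0,
  []⟩⟩,[.o ⟨false,0,⟨0,[(40,0)]⟩,⟨3,[(15,3),(7,0),(0,0),(18,1)]⟩⟩,.o ⟨false,1,⟨9,[(6,3),(2,1),(13,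
  3),(0,3),(11,0),(6,0)]⟩,⟨0,[(15,0)]⟩⟩,.o ⟨false,1,⟨1,[(26,1),(9,0),(5,0)]⟩,⟨13,[(7,3),(0,1),(1,1),
  (4,3),(7,0),(1,11),(2,3),(7,2)]⟩⟩,.a ⟨true,0,⟨0,[(26,0)]⟩,⟨0,[(25,0)]⟩⟩ ⟨false,1,⟨1,[(23,0),(18,
  0)]⟩,⟨0,[(8,0),(17,0)]⟩⟩ ⟨true,0,⟨0,[(25,0),(14,0)]⟩,⟨0,[(15,0),(10,0)]⟩⟩]⟩)) (.Q [0,0,0,0,0,-1,0,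
  0,0,1,0,-1] (.p false [0,0,0,1] [1] (⟨0,[(25,0)]⟩,⟨0,[(24,0)]⟩) .k 1 (⟨0,[]⟩,⟨0,[]⟩) .k .k) (.I
  [1,1,2,2,-1,0,0,-1,1] (.R ⟨1,false,false,true,[1,0,0,-1],[1,0,-1],[0,0,0,-1,0,0,0,0,-1],(⟨0,[(26,
  0)]⟩,⟨0,[(27,0)]⟩),(⟨0,[(35,0)]⟩,⟨0,[(36,0)]⟩),⟨0,[(1,0)]⟩,.k,.k,(.x (-1) ⟨7,[(14,3),(6,3),(2,2),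
  (0,2),(11,1)]⟩ ⟨0,[(39,0)]⟩),.k,(.r (-1) ⟨1,[(3,0),(0,0),(19,0),(21,0)]⟩ ⟨9,[(0,4),(11,2),(12,0),
  (5,1),(0,1),(7,0),(3,0)]⟩),.k,⟨false,1,⟨0,[(6,0),(9,0),(9,0),(7,0)]⟩,⟨1,[(0,1),(3,0),(6,0),(31,
  1)]⟩⟩,⟨true,0,⟨0,[(26,0),(2,0)]⟩,⟨0,[(18,0),(8,0)]⟩⟩,⟨true,0,⟨0,[(42,0)]⟩,⟨0,[(41,0)]⟩⟩,⟨false,0,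
  ⟨0,[(9,0),(21,0)]⟩,⟨0,[(6,0),(12,0)]⟩⟩,⟨false,1,⟨3,[(24,0),(0,0),(18,1)]⟩,⟨0,[]⟩⟩,⟨false,0,⟨21,
  [(0,3),(1,5),(6,5),(1,5),(10,1),(2,2),(0,9),(2,1),(7,0)]⟩,⟨2,[(4,0),(1,2),(9,0),(13,0)]⟩⟩,[.o
  ⟨false,0,⟨0,[(28,0)]⟩,⟨5,[(4,1),(2,1),(16,0),(0,0),(11,1),(6,1)]⟩⟩,.o ⟨false,1,⟨3,[(11,1),(12,0),
  (0,0),(11,0),(6,0)]⟩,⟨0,[(19,0)]⟩⟩,.o ⟨false,1,⟨1,[(27,1),(9,0),(5,0)]⟩,⟨6,[(0,0),(7,0),(0,0),(6,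
  2),(7,0),(1,5),(2,1),(7,0)]⟩⟩,.a ⟨true,0,⟨0,[(27,0)]⟩,⟨0,[(26,0)]⟩⟩ ⟨false,1,⟨0,[(6,0),(9,0),(9,
  0)]⟩,⟨21,[(0,4),(4,4),(1,2),(0,0),(16,5),(3,3),(3,0),(0,0)]⟩⟩ ⟨true,0,⟨0,[(26,0),(1,0)]⟩,⟨0,[(19,
  0),(7,0)]⟩⟩]⟩) (.R ⟨1,false,false,true,[1,0,0,-1],[0,1],[0,1,0,-1,0,0,0,0,-1],(⟨0,[(26,0)]⟩,⟨0,
  [(27,0)]⟩),(⟨0,[(39,0)]⟩,⟨0,[(38,0)]⟩),⟨0,[(1,0)]⟩,.k,.k,(.x (-1) ⟨7,[(14,3),(6,3),(2,2),(0,2),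
  (11,1)]⟩ ⟨0,[(39,0)]⟩),(.x (-1) ⟨7,[(14,3),(6,3),(2,2),(0,2),(11,1)]⟩ ⟨0,[(39,0)]⟩),(.r (-1) ⟨1,
  [(0,1),(10,0),(11,0),(22,0)]⟩ ⟨43,[(5,23),(1,7),(0,23),(1,15),(11,7),(1,6),(0,16),(3,15)]⟩),.k,
  ⟨false,1,⟨1,[(0,1),(10,0),(11,0),(22,0)]⟩,⟨0,[(5,0),(35,0)]⟩⟩,⟨true,0,⟨0,[(26,0)]⟩,⟨14,[(8,3),(2,
  1),(4,3),(10,14),(1,4),(2,0),(4,3),(2,0)]⟩⟩,⟨false,0,⟨0,[(42,0)]⟩,⟨15,[(2,3),(3,3),(0,3),(16,2),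
  (0,2),(11,1),(6,3)]⟩⟩,⟨false,0,⟨6,[(2,0),(2,0),(2,1),(0,0),(12,1),(2,1),(0,4),(4,0)]⟩,⟨0,[(6,0),
  (9,0)]⟩⟩,⟨true,0,⟨0,[(46,0)]⟩,⟨0,[]⟩⟩,⟨false,0,⟨10,[(2,4),(4,1),(0,2),(13,2),(2,2),(0,5),(14,1)]⟩,
  ⟨1,[(4,0),(1,1),(4,0),(4,1)]⟩⟩,[.o ⟨false,0,⟨0,[(41,0)]⟩,⟨3,[(16,3),(7,0),(0,0),(18,1)]⟩⟩,.o
  ⟨false,1,⟨55,[(2,3),(3,3),(0,19),(2,7),(13,22),(0,22),(11,5)]⟩,⟨0,[(16,0)]⟩⟩,.o ⟨false,1,⟨1,[(27,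
  1),(9,0),(5,0)]⟩,⟨13,[(8,3),(0,1),(1,1),(4,3),(7,0),(1,11),(2,3),(7,2)]⟩⟩,.a ⟨true,0,⟨0,[(27,0)]⟩,
  ⟨0,[(26,0)]⟩⟩ ⟨false,1,⟨15,[(0,7),(22,3),(0,4),(0,0),(5,7),(5,1)]⟩,⟨0,[(5,0)]⟩⟩ ⟨true,0,⟨0,[(26,
  0),(14,0)]⟩,⟨0,[(16,0),(10,0)]⟩⟩]⟩)) (.I [1,0,0,0,0,0,0,0,1] (.R ⟨0,false,false,false,[1,0,0,-1],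
  [1,-1],[0,0,0,-1,0,0,0,0,-1],(⟨0,[(26,0)]⟩,⟨0,[(27,0)]⟩),(⟨0,[(38,0)]⟩,⟨0,[(39,0)]⟩),⟨0,[(1,0)]⟩,
  .k,.k,(.x (-1) ⟨7,[(14,3),(6,3),(2,2),(0,2),(11,1)]⟩ ⟨0,[(39,0)]⟩),(.r 0 ⟨0,[(6,0),(1,0),(1,0),(5,
  0),(9,0),(7,0)]⟩ ⟨1,[(4,0),(6,0),(13,0),(17,0)]⟩),.k,.k,⟨true,0,⟨0,[(6,0),(1,0),(2,0),(4,0),(9,0),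
  (7,0)]⟩,⟨0,[(0,0)]⟩⟩,⟨false,0,⟨13,[(8,3),(0,1),(1,1),(4,3),(7,0),(1,11),(2,3),(7,2)]⟩,⟨0,[(27,0),
  (15,0)]⟩⟩,⟨true,0,⟨0,[(42,0)]⟩,⟨0,[(41,0)]⟩⟩,⟨false,0,⟨1,[(4,0),(4,1),(1,0)]⟩,⟨0,[(6,0),(34,0)]⟩⟩,
  ⟨false,0,⟨0,[]⟩,⟨0,[]⟩⟩,⟨false,0,⟨0,[]⟩,⟨0,[]⟩⟩,[.o ⟨false,0,⟨0,[(16,0)]⟩,⟨55,[(2,3),(3,3),(0,19),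
  (2,7),(13,22),(0,22),(11,5)]⟩⟩,.o ⟨false,1,⟨3,[(16,3),(7,0),(0,0),(18,1)]⟩,⟨0,[(41,0)]⟩⟩,.o
  ⟨false,1,⟨1,[(27,1),(9,0),(5,0)]⟩,⟨13,[(8,3),(0,1),(1,1),(4,3),(7,0),(1,11),(2,3),(7,2)]⟩⟩,.a
  ⟨true,0,⟨0,[(27,0)]⟩,⟨0,[(26,0)]⟩⟩ ⟨false,1,⟨0,[(6,0),(9,0),(9,0)]⟩,⟨10,[(0,0),(4,3),(2,2),(1,0),
  (2,0),(8,1),(2,2),(3,0)]⟩⟩ ⟨true,0,⟨0,[(16,0),(9,0)]⟩,⟨0,[(27,0),(13,0)]⟩⟩]⟩) (.R ⟨0,false,false,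
  true,[1,0,0,-1],[0,1],[0,1,0,0,0,0,0,0,-1],(⟨0,[(26,0)]⟩,⟨0,[(27,0)]⟩),(⟨0,[(39,0)]⟩,⟨0,[(38,
  0)]⟩),⟨0,[(1,0)]⟩,.k,.k,(.x (-1) ⟨7,[(14,3),(6,3),(2,2),(0,2),(11,1)]⟩ ⟨0,[(39,0)]⟩),(.x (-1) ⟨7,
  [(14,3),(6,3),(2,2),(0,2),(11,1)]⟩ ⟨0,[(39,0)]⟩),.k,.k,⟨false,1,⟨1,[(0,1),(3,0),(6,0),(31,1)]⟩,⟨3,
  [(5,1),(2,0),(13,0),(2,0),(2,0)]⟩⟩,⟨true,0,⟨0,[(26,0)]⟩,⟨14,[(8,3),(2,1),(4,3),(10,14),(1,4),(2,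
  0),(4,3),(2,0)]⟩⟩,⟨true,0,⟨0,[(46,0)]⟩,⟨0,[]⟩⟩,⟨false,0,⟨6,[(2,0),(2,0),(2,1),(0,0),(12,1),(2,1),
  (0,4),(4,0)]⟩,⟨0,[(6,0),(9,0)]⟩⟩,⟨false,0,⟨0,[]⟩,⟨0,[]⟩⟩,⟨false,0,⟨0,[]⟩,⟨0,[]⟩⟩,[.o ⟨false,0,⟨0,
  [(41,0)]⟩,⟨3,[(16,3),(7,0),(0,0),(18,1)]⟩⟩,.o ⟨false,1,⟨55,[(2,3),(3,3),(0,19),(2,7),(13,22),(0,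
  22),(11,5)]⟩,⟨0,[(16,0)]⟩⟩,.o ⟨false,1,⟨1,[(27,1),(9,0),(5,0)]⟩,⟨13,[(8,3),(0,1),(1,1),(4,3),(7,
  0),(1,11),(2,3),(7,2)]⟩⟩,.a ⟨true,0,⟨0,[(27,0)]⟩,⟨0,[(26,0)]⟩⟩ ⟨false,1,⟨1,[(24,0),(18,0)]⟩,⟨0,
  [(9,0),(17,0)]⟩⟩ ⟨true,0,⟨0,[(26,0),(14,0)]⟩,⟨0,[(16,0),(10,0)]⟩⟩]⟩))))) (.Q [0,0,0,0,0,-1,0,0,0,
  1,0,-1] (.p false [0,0,0,1] [1] (⟨0,[(23,0)]⟩,⟨0,[(22,0)]⟩) .k 1 (⟨0,[]⟩,⟨0,[]⟩) .k .k) (.I [1,0,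
  0,1,0,0,0,-1,1] (.R ⟨1,false,false,true,[1,0,0,-1],[1,0,-1],[0,1,0,-1,0,0,0,0,-1],(⟨0,[(24,0)]⟩,
  ⟨0,[(25,0)]⟩),(⟨0,[(33,0)]⟩,⟨0,[(34,0)]⟩),⟨0,[(1,0)]⟩,.k,.k,(.x (-1) ⟨7,[(12,3),(6,3),(2,2),(0,2),
  (11,1)]⟩ ⟨0,[(37,0)]⟩),.k,(.r (-1) ⟨1,[(22,0),(9,1),(7,1),(0,0)]⟩ ⟨1,[(0,0),(2,0),(25,0),(0,0)]⟩),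
  .k,⟨false,1,⟨1,[(22,0),(9,1),(7,1),(0,0)]⟩,⟨0,[(0,0)]⟩⟩,⟨true,0,⟨0,[(24,0),(2,0)]⟩,⟨0,[(16,0),(8,
  0)]⟩⟩,⟨false,0,⟨0,[(40,0)]⟩,⟨11,[(2,1),(2,3),(16,1),(0,1),(11,0),(6,6)]⟩⟩,⟨false,0,⟨0,[(7,0),(21,
  0)]⟩,⟨0,[(4,0),(12,0)]⟩⟩,⟨true,0,⟨0,[(44,0)]⟩,⟨0,[]⟩⟩,⟨false,0,⟨10,[(2,3),(0,0),(2,0),(0,7),(12,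
  0),(2,0),(0,2),(4,3)]⟩,⟨0,[(4,0),(12,0),(22,0)]⟩⟩,[.o ⟨false,0,⟨0,[(26,0)]⟩,⟨3,[(17,3),(4,0),(0,
  0),(18,1)]⟩⟩,.o ⟨false,1,⟨3,[(9,1),(12,0),(0,0),(11,0),(6,0)]⟩,⟨0,[(17,0)]⟩⟩,.o ⟨false,1,⟨1,[(25,
  1),(9,0),(5,0)]⟩,⟨13,[(6,3),(0,1),(1,1),(4,3),(7,0),(1,11),(2,3),(7,2)]⟩⟩,.a ⟨true,0,⟨0,[(25,0)]⟩,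
  ⟨0,[(24,0)]⟩⟩ ⟨false,1,⟨1,[(22,0),(17,1),(0,0)]⟩,⟨0,[(3,0)]⟩⟩ ⟨true,0,⟨0,[(24,0),(1,0)]⟩,⟨0,[(17,
  0),(7,0)]⟩⟩]⟩) (.R ⟨1,false,false,false,[1,0,0,-1],[0,0,1],[0,1,0,-1,0,0,0,0,-1],(⟨0,[(24,0)]⟩,⟨0,
  [(25,0)]⟩),(⟨0,[(34,0)]⟩,⟨0,[(33,0)]⟩),⟨0,[(1,0)]⟩,.k,.k,(.x (-1) ⟨7,[(12,3),(6,3),(2,2),(0,2),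
  (11,1)]⟩ ⟨0,[(37,0)]⟩),.k,(.r (-1) ⟨3,[(4,1),(4,1),(4,1),(6,1),(0,0),(1,1),(15,1),(0,0)]⟩ ⟨3,[(3,
  1),(2,0),(7,0),(5,1),(2,0),(8,2)]⟩),.k,⟨true,0,⟨0,[(0,0),(8,0),(11,0)]⟩,⟨0,[(3,0),(28,0)]⟩⟩,
  ⟨false,0,⟨0,[(16,0),(7,0)]⟩,⟨0,[(25,0),(1,0),(13,0)]⟩⟩,⟨false,0,⟨0,[(40,0)]⟩,⟨11,[(2,1),(2,3),(16,
  1),(0,1),(11,0),(6,6)]⟩⟩,⟨false,0,⟨1,[(7,1),(13,0),(2,0),(0,0),(6,1)]⟩,⟨0,[(4,0),(21,0)]⟩⟩,⟨true,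
  0,⟨0,[(44,0)]⟩,⟨0,[]⟩⟩,⟨false,0,⟨1,[(3,0),(3,0),(10,0),(5,0),(7,0)]⟩,⟨0,[(4,0),(9,0),(14,0)]⟩⟩,
  [.o ⟨false,0,⟨0,[(17,0)]⟩,⟨3,[(9,1),(12,0),(0,0),(11,0),(6,0)]⟩⟩,.o ⟨false,1,⟨3,[(17,3),(4,0),(0,
  0),(18,1)]⟩,⟨0,[(26,0)]⟩⟩,.o ⟨false,1,⟨1,[(25,1),(9,0),(5,0)]⟩,⟨13,[(6,3),(0,1),(1,1),(4,3),(7,0),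
  (1,11),(2,3),(7,2)]⟩⟩,.a ⟨true,0,⟨0,[(25,0)]⟩,⟨0,[(24,0)]⟩⟩ ⟨false,1,⟨1,[(22,0),(17,1),(0,0)]⟩,⟨0,
  [(3,0)]⟩⟩ ⟨true,0,⟨0,[(17,0),(6,0)]⟩,⟨0,[(25,0),(0,0)]⟩⟩]⟩)) (.I [1,0,0,0,0,0,0,0,-1] (.R ⟨0,
  false,false,true,[1,0,0,-1],[0,1],[0,1,0,0,0,0,0,0,-1],(⟨0,[(24,0)]⟩,⟨0,[(25,0)]⟩),(⟨0,[(37,0)]⟩,
  ⟨0,[(36,0)]⟩),⟨0,[(1,0)]⟩,.k,.k,(.x (-1) ⟨7,[(12,3),(6,3),(2,2),(0,2),(11,1)]⟩ ⟨0,[(37,0)]⟩),(.x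
  (-1) ⟨7,[(12,3),(6,3),(2,2),(0,2),(11,1)]⟩ ⟨0,[(37,0)]⟩),.k,.k,⟨false,1,⟨0,[(0,0),(39,0),(0,0)]⟩,
  ⟨3,[(3,1),(2,0),(13,0),(2,0),(2,0)]⟩⟩,⟨true,0,⟨0,[(24,0)]⟩,⟨14,[(6,3),(2,1),(4,3),(10,14),(1,4),
  (2,0),(4,3),(2,0)]⟩⟩,⟨true,0,⟨0,[(44,0)]⟩,⟨0,[]⟩⟩,⟨false,0,⟨10,[(2,0),(0,2),(2,2),(0,1),(12,2),(2,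
  2),(0,8),(4,0)]⟩,⟨0,[(4,0),(9,0)]⟩⟩,⟨false,0,⟨0,[]⟩,⟨0,[]⟩⟩,⟨false,0,⟨0,[]⟩,⟨0,[]⟩⟩,[.o ⟨false,0,
  ⟨0,[(39,0)]⟩,⟨3,[(14,3),(7,0),(0,0),(18,1)]⟩⟩,.o ⟨false,1,⟨11,[(2,1),(2,3),(16,4),(0,4),(11,0),(6,
  0)]⟩,⟨0,[(14,0)]⟩⟩,.o ⟨false,1,⟨1,[(25,1),(9,0),(5,0)]⟩,⟨13,[(6,3),(0,1),(1,1),(4,3),(7,0),(1,11),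
  (2,3),(7,2)]⟩⟩,.a ⟨true,0,⟨0,[(25,0)]⟩,⟨0,[(24,0)]⟩⟩ ⟨false,1,⟨1,[(22,0),(18,0)]⟩,⟨0,[(7,0),(17,
  0)]⟩⟩ ⟨true,0,⟨0,[(24,0),(14,0)]⟩,⟨0,[(14,0),(10,0)]⟩⟩]⟩) (.R ⟨0,false,false,false,[1,0,0,-1],[1,
  -1],[1,0,0,-1,0,0,0,0,-1],(⟨0,[(24,0)]⟩,⟨0,[(25,0)]⟩),(⟨0,[(36,0)]⟩,⟨0,[(37,0)]⟩),⟨0,[(1,0)]⟩,.k,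
  .k,(.x (-1) ⟨7,[(12,3),(6,3),(2,2),(0,2),(11,1)]⟩ ⟨0,[(37,0)]⟩),(.r 0 ⟨1,[(2,0),(1,1),(1,1),(2,0),
  (4,1),(9,1),(7,1)]⟩ ⟨1,[(23,0),(16,1),(0,0)]⟩),.k,.k,⟨true,0,⟨0,[(4,0),(1,0),(2,0),(4,0),(9,0),(7,
  0)]⟩,⟨0,[(0,0)]⟩⟩,⟨false,0,⟨13,[(6,3),(0,1),(1,1),(4,3),(7,0),(1,11),(2,3),(7,2)]⟩,⟨0,[(25,0),(15,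
  0)]⟩⟩,⟨true,0,⟨0,[(40,0)]⟩,⟨0,[(39,0)]⟩⟩,⟨false,0,⟨0,[(7,0),(32,0)]⟩,⟨0,[(4,0),(34,0)]⟩⟩,⟨false,0,
  ⟨0,[]⟩,⟨0,[]⟩⟩,⟨false,0,⟨0,[]⟩,⟨0,[]⟩⟩,[.o ⟨false,0,⟨0,[(14,0)]⟩,⟨11,[(2,1),(2,3),(16,4),(0,4),
  (11,0),(6,0)]⟩⟩,.o ⟨false,1,⟨3,[(14,3),(7,0),(0,0),(18,1)]⟩,⟨0,[(39,0)]⟩⟩,.o ⟨false,1,⟨1,[(25,1),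
  (9,0),(5,0)]⟩,⟨13,[(6,3),(0,1),(1,1),(4,3),(7,0),(1,11),(2,3),(7,2)]⟩⟩,.a ⟨true,0,⟨0,[(25,0)]⟩,⟨0,
  [(24,0)]⟩⟩ ⟨false,1,⟨0,[(4,0),(9,0),(9,0)]⟩,⟨6,[(0,0),(1,0),(0,1),(2,1),(13,0),(2,1),(3,0)]⟩⟩
  ⟨true,0,⟨0,[(14,0),(9,0)]⟩,⟨0,[(25,0),(13,0)]⟩⟩]⟩)))) (.Q [0,-1,1,1,0,0,0,0,1,1,0,-1] (.p false
  [0,0,0,1] [1] (⟨0,[(22,0)]⟩,⟨0,[(21,0)]⟩) .k 1 (⟨0,[]⟩,⟨0,[]⟩) .k .k) (.R ⟨1,true,false,false,[1,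
  -1],[0,0,0,1],[0,0,-1,-2],(⟨0,[(34,0)]⟩,⟨0,[(35,0)]⟩),(⟨0,[(23,0)]⟩,⟨0,[(22,0)]⟩),⟨0,[(10,0),(6,
  0)]⟩,.k,.k,(.r (-1) ⟨0,[(38,1),(0,0)]⟩ ⟨14,[(3,5),(0,9),(1,7),(13,2),(0,2),(3,7),(3,1),(10,3)]⟩),
  (.x (-1) ⟨7,[(10,3),(6,3),(2,2),(0,2),(11,1)]⟩ ⟨0,[(35,0)]⟩),(.r (-1) ⟨1,[(1,1),(36,1),(0,0),(0,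
  0)]⟩ ⟨41,[(3,17),(0,25),(1,21),(14,20),(3,21),(3,3),(6,5),(3,4)]⟩),.k,⟨false,1,⟨1,[(1,1),(36,1),
  (0,0),(0,0)]⟩,⟨8,[(3,4),(0,0),(0,6),(3,5),(8,0),(2,0),(1,6)]⟩⟩,⟨true,0,⟨0,[(22,0)]⟩,⟨14,[(4,3),(2,
  1),(4,3),(10,14),(1,4),(2,0),(4,3),(2,0)]⟩⟩,⟨true,0,⟨0,[(38,0)]⟩,⟨0,[(37,0)]⟩⟩,⟨false,0,⟨0,[(0,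
  0)]⟩,⟨7,[(1,3),(0,3),(9,3),(7,0),(0,0),(1,3),(9,1)]⟩⟩,⟨false,1,⟨3,[(20,0),(0,0),(18,1)]⟩,⟨0,[]⟩⟩,
  ⟨true,0,⟨0,[(0,0),(36,0)]⟩,⟨0,[(1,0),(10,0),(10,0)]⟩⟩,[]⟩) (.R ⟨2,true,false,true,[0,1],[1,0,0,
  -1],[0,1,1],(⟨0,[]⟩,⟨0,[]⟩),(⟨0,[(22,0)]⟩,⟨0,[(23,0)]⟩),⟨0,[]⟩,.k,.k,.k,(.x 0 ⟨0,[(35,0)]⟩ ⟨7,
  [(10,3),(6,3),(2,2),(0,2),(11,1)]⟩),.k,.k,⟨true,0,⟨2,[(4,0),(0,0),(1,0),(13,0),(1,0),(6,0),(7,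
  0)]⟩,⟨9,[(1,7),(1,1),(0,0),(1,1),(6,0),(6,0),(4,0),(10,4)]⟩⟩,⟨false,1,⟨1,[(23,1),(9,0),(5,0)]⟩,⟨0,
  [(22,0)]⟩⟩,⟨false,0,⟨0,[(38,0)]⟩,⟨19,[(3,7),(2,3),(13,2),(0,2),(11,1),(6,11)]⟩⟩,⟨true,0,⟨0,[(0,
  0)]⟩,⟨8,[(3,0),(0,1),(0,4),(5,2),(6,1),(2,1),(0,5),(0,1)]⟩⟩,⟨true,0,⟨0,[(42,0)]⟩,⟨0,[]⟩⟩,⟨false,1,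
  ⟨2,[(0,0),(1,1),(30,0),(3,0)]⟩,⟨0,[(5,0),(16,0),(0,0)]⟩⟩,[]⟩))))) (.Q [0,0,0,0,0,-1,0,0,0,1,0,-1]
  (.p false [0,0,0,1] [1] (⟨0,[(19,0)]⟩,⟨0,[(18,0)]⟩) .k 1 (⟨0,[]⟩,⟨0,[]⟩) .k .k) (.I [0,1,0,-1,0,0,
  0,-1,-1] (.I [0,0,0,-1,0,0,0,0,1] (.R ⟨1,false,false,false,[1,0,0,-1],[1,-1],[1,0,0,0,0,0,0,0,-1],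
  (⟨0,[(21,0)]⟩,⟨0,[(22,0)]⟩),(⟨0,[(33,0)]⟩,⟨0,[(34,0)]⟩),⟨0,[(2,0)]⟩,.k,.k,(.x (-1) ⟨7,[(9,3),(6,
  3),(2,2),(0,2),(11,1)]⟩ ⟨0,[(34,0)]⟩),(.r 0 ⟨0,[(1,0),(10,0),(4,0),(17,0)]⟩ ⟨1,[(20,0),(16,1),(0,
  0)]⟩),.k,.k,⟨true,0,⟨0,[(1,0),(10,0),(4,0),(17,0)]⟩,⟨0,[(0,0)]⟩⟩,⟨false,0,⟨1,[(1,0),(2,0),(7,0),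
  (8,0),(2,0)]⟩,⟨0,[(22,0),(15,0)]⟩⟩,⟨true,0,⟨0,[]⟩,⟨0,[(41,0)]⟩⟩,⟨false,0,⟨0,[(4,0),(32,0)]⟩,⟨2,
  [(1,0),(1,0),(1,0),(6,3),(6,0),(1,1),(0,4),(12,0),(2,0)]⟩⟩,⟨false,1,⟨0,[(36,0),(2,0)]⟩,⟨0,[(37,
  0)]⟩⟩,⟨false,0,⟨0,[(4,0)]⟩,⟨1,[(19,0),(2,1),(15,0)]⟩⟩,[.o ⟨false,0,⟨0,[(11,0)]⟩,⟨3,[(19,0),(0,0),
  (15,3),(2,1)]⟩⟩,.o ⟨false,1,⟨3,[(11,3),(7,0),(0,0),(18,1)]⟩,⟨0,[(36,0)]⟩⟩,.o ⟨false,1,⟨1,[(22,1),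
  (9,0),(5,0)]⟩,⟨1,[(1,0),(2,0),(7,0),(8,0),(2,0)]⟩⟩,.a ⟨true,0,⟨0,[(22,0)]⟩,⟨0,[(21,0)]⟩⟩ ⟨false,1,
  ⟨0,[(1,0),(1,0),(8,1),(8,0),(0,0),(12,0)]⟩,⟨3,[(0,1),(3,1),(17,1),(4,0),(0,0),(7,1)]⟩⟩ ⟨true,0,⟨0,
  [(11,0),(9,0)]⟩,⟨0,[(22,0),(13,0)]⟩⟩]⟩) (.R ⟨1,false,false,true,[1,0,0,-1],[0,1],[1,1,0,0,0,0,0,0,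
  -1],(⟨0,[(21,0)]⟩,⟨0,[(22,0)]⟩),(⟨0,[(34,0)]⟩,⟨0,[(33,0)]⟩),⟨0,[(2,0)]⟩,.k,.k,(.x (-1) ⟨7,[(9,3),
  (6,3),(2,2),(0,2),(11,1)]⟩ ⟨0,[(34,0)]⟩),(.x (-1) ⟨7,[(9,3),(6,3),(2,2),(0,2),(11,1)]⟩ ⟨0,[(34,
  0)]⟩),(.r (-1) ⟨0,[(0,0),(36,2),(0,0)]⟩ ⟨3,[(4,3),(17,3),(4,0),(0,0),(6,1),(0,7)]⟩),.k,⟨false,1,
  ⟨0,[(0,0),(36,1),(0,0)]⟩,⟨0,[(4,0),(17,0),(13,0)]⟩⟩,⟨true,0,⟨0,[(21,0)]⟩,⟨10,[(8,1),(2,3),(0,1),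
  (9,10),(1,4),(2,4),(7,0)]⟩⟩,⟨false,0,⟨0,[]⟩,⟨3,[(19,0),(0,0),(18,1)]⟩⟩,⟨false,0,⟨1,[(4,1),(10,0),
  (1,0),(3,0),(0,0),(3,0)]⟩,⟨3,[(0,1),(10,3),(7,0),(2,3),(12,1),(1,1),(0,2)]⟩⟩,⟨true,0,⟨0,[(36,0)]⟩,
  ⟨0,[(37,0)]⟩⟩,⟨false,0,⟨1,[(4,1),(0,0),(6,0),(2,0),(1,0),(3,1),(0,1)]⟩,⟨3,[(0,1),(10,3),(7,0),(2,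
  3),(12,1),(1,5),(0,2)]⟩⟩,[.o ⟨false,0,⟨0,[(36,0)]⟩,⟨3,[(11,3),(7,0),(0,0),(18,1)]⟩⟩,.o ⟨false,1,
  ⟨3,[(19,0),(0,0),(15,3),(2,1)]⟩,⟨0,[(11,0)]⟩⟩,.o ⟨false,1,⟨1,[(22,1),(9,0),(5,0)]⟩,⟨2,[(0,0),(0,
  0),(2,1),(16,0),(2,0),(0,0)]⟩⟩,.a ⟨true,0,⟨0,[(22,0)]⟩,⟨0,[(21,0)]⟩⟩ ⟨false,1,⟨1,[(19,0),(18,0)]⟩,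
  ⟨0,[(4,0),(17,0)]⟩⟩ ⟨true,0,⟨0,[(21,0),(14,0)]⟩,⟨0,[(11,0),(10,0)]⟩⟩]⟩)) (.Q [0,1,1,0,-1,0,0,0,1,
  0,0,-1] (.p false [0,0,0,1] [] (⟨0,[(21,0)]⟩,⟨0,[(20,0)]⟩) .k 0 (⟨0,[]⟩,⟨0,[]⟩) .k .k) (.K ⟨0,[0,
  0,0,1],0,(-1),(⟨0,[(22,0)]⟩,⟨0,[(21,0)]⟩),.k,(.x 0 ⟨1,[(9,0),(6,0),(7,0),(2,1),(0,0)]⟩ ⟨0,[(34,0),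
  (3,0)]⟩),(.x 0 ⟨0,[(34,0)]⟩ ⟨7,[(9,3),(6,3),(2,2),(0,2),(11,1)]⟩),.k,.k,[⟨0,[(22,0)]⟩,⟨0,[(21,
  0)]⟩,⟨1,[(19,0),(2,1),(15,0),(2,1)]⟩,⟨0,[(0,0)]⟩]⟩) (.R ⟨1,false,false,true,[1,0,0,-1],[1,0,-1],
  [0,1,0,-1,0,0,0,0,-1],(⟨0,[(21,0)]⟩,⟨0,[(22,0)]⟩),(⟨0,[(30,0)]⟩,⟨0,[(31,0)]⟩),⟨0,[(2,0)]⟩,.k,.k,
  (.x (-1) ⟨7,[(9,3),(6,3),(2,2),(0,2),(11,1)]⟩ ⟨0,[(34,0)]⟩),.k,(.r (-1) ⟨1,[(19,0),(9,1),(7,1),(0,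
  0)]⟩ ⟨1,[(1,0),(2,0),(0,0),(12,0),(3,0),(3,0),(0,0)]⟩),.k,⟨false,1,⟨1,[(19,0),(9,1),(7,1),(0,0)]⟩,
  ⟨0,[(1,0),(4,0),(11,0)]⟩⟩,⟨true,0,⟨0,[(21,0),(2,0)]⟩,⟨0,[(13,0),(8,0)]⟩⟩,⟨false,0,⟨0,[(37,0)]⟩,⟨0,
  [(36,0),(2,0)]⟩⟩,⟨false,0,⟨0,[(4,0),(21,0)]⟩,⟨0,[(0,0),(13,0)]⟩⟩,⟨true,0,⟨0,[(41,0)]⟩,⟨0,[]⟩⟩,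
  ⟨false,0,⟨0,[(4,0),(5,0)]⟩,⟨0,[(0,0),(13,0),(22,0)]⟩⟩,[.o ⟨false,0,⟨0,[(23,0)]⟩,⟨3,[(14,3),(4,0),
  (0,0),(18,1)]⟩⟩,.o ⟨false,1,⟨3,[(6,1),(12,0),(0,0),(11,0),(6,0)]⟩,⟨0,[(14,0)]⟩⟩,.o ⟨false,1,⟨1,
  [(22,1),(9,0),(5,0)]⟩,⟨10,[(8,1),(2,3),(0,1),(8,10),(2,4),(2,4),(7,0)]⟩⟩,.a ⟨true,0,⟨0,[(22,0)]⟩,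
  ⟨0,[(21,0)]⟩⟩ ⟨false,1,⟨1,[(19,0),(17,1),(0,0)]⟩,⟨8,[(1,4),(2,3),(0,0),(4,2),(7,0),(3,3),(4,2),(7,
  1)]⟩⟩ ⟨true,0,⟨0,[(21,0),(1,0)]⟩,⟨0,[(14,0),(7,0)]⟩⟩]⟩))) (.I [1,1,1,0,-1,0,0,0,1] (.Q [0,0,-1,-1,
  1,0,-1,-1,-1,-1,1,1] (.p true [0,0,1] [1,0,0,-1] (⟨0,[(30,0)]⟩,⟨0,[(29,0)]⟩) .k 2 (⟨0,[(20,0)]⟩,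
  ⟨0,[(21,0)]⟩) .k (.r 0 ⟨1,[(0,0),(5,0),(21,2)]⟩ ⟨7,[(5,1),(0,1),(10,1),(0,4),(6,1),(0,1),(11,
  0)]⟩)) (.R ⟨0,false,false,true,[1,0,0,-1],[0,1,1],[1,0,1],(⟨0,[(21,0)]⟩,⟨0,[(22,0)]⟩),(⟨0,[(31,0),
  (2,0)]⟩,⟨0,[(16,0)]⟩),⟨0,[(2,0)]⟩,.k,.k,(.x (-1) ⟨7,[(9,3),(6,3),(2,2),(0,2),(11,1)]⟩ ⟨0,[(34,
  0)]⟩),(.r (-1) ⟨0,[(0,0),(12,0),(7,0)]⟩ ⟨2,[(1,0),(10,1),(4,0),(2,0),(7,0),(0,0),(5,0)]⟩),.k,.k,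
  ⟨false,1,⟨5,[(0,1),(2,1),(3,1),(3,0),(6,2),(2,1),(13,1),(1,0)]⟩,⟨2,[(12,0),(4,1),(7,0),(3,0)]⟩⟩,
  ⟨true,0,⟨0,[(13,0),(7,0)]⟩,⟨0,[(22,0),(1,0)]⟩⟩,⟨false,0,⟨2,[(1,0),(18,0),(14,1)]⟩,⟨1,[(19,0),(18,
  0)]⟩⟩,⟨true,(-1),⟨0,[(1,0),(10,0),(8,0)]⟩,⟨0,[(0,0)]⟩⟩,⟨false,0,⟨0,[]⟩,⟨0,[]⟩⟩,⟨false,0,⟨0,[]⟩,⟨0,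
  []⟩⟩,[.o ⟨false,0,⟨1,[(12,0),(12,0),(10,0)]⟩,⟨0,[(0,0),(3,0)]⟩⟩,.o ⟨false,0,⟨0,[(12,0)]⟩,⟨2,[(0,
  0),(3,0),(1,0),(4,0),(7,0),(0,0),(16,0)]⟩⟩,.o ⟨false,1,⟨1,[(22,1),(9,0),(5,0)]⟩,⟨10,[(1,4),(2,4),
  (3,1),(2,3),(0,1),(6,4),(1,5),(13,0)]⟩⟩,.a ⟨true,0,⟨0,[(22,0)]⟩,⟨0,[(21,0)]⟩⟩ ⟨true,0,⟨0,[]⟩,⟨0,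
  [(41,0)]⟩⟩ ⟨false,0,⟨0,[(12,0),(8,0)]⟩,⟨2,[(0,2),(0,0),(18,0),(14,1)]⟩⟩]⟩) (.K ⟨0,[0,0,0,1],0,
  (-1),(⟨0,[(22,0)]⟩,⟨0,[(21,0)]⟩),.k,(.r 0 ⟨1,[(0,1),(2,1),(7,0),(6,0),(3,1),(14,0)]⟩ ⟨1,[(19,0),
  (7,0),(0,0),(7,1),(2,0)]⟩),(.x 0 ⟨0,[(34,0)]⟩ ⟨7,[(9,3),(6,3),(2,2),(0,2),(11,1)]⟩),.k,.k,[⟨0,
  [(22,0)]⟩,⟨0,[(21,0)]⟩,⟨1,[(19,0),(2,1),(15,0),(2,1)]⟩,⟨1,[(0,0),(0,0),(9,0),(9,0),(1,0)]⟩]⟩))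
  (.I [1,0,0,0,0,0,0,0,1] (.R ⟨0,false,false,true,[1,0,0,-1],[1,0,-1],[1,0,0,0,0,0,0,0,-1],(⟨0,[(21,
  0)]⟩,⟨0,[(22,0)]⟩),(⟨0,[(30,0)]⟩,⟨0,[(31,0)]⟩),⟨0,[(2,0)]⟩,.k,.k,(.x (-1) ⟨7,[(9,3),(6,3),(2,2),
  (0,2),(11,1)]⟩ ⟨0,[(34,0)]⟩),.k,.k,.k,⟨false,1,⟨0,[(1,0),(27,0)]⟩,⟨1,[(0,1),(5,0),(11,0),(22,
  0)]⟩⟩,⟨true,0,⟨0,[(21,0),(2,0)]⟩,⟨0,[(13,0),(8,0)]⟩⟩,⟨true,0,⟨0,[]⟩,⟨0,[(41,0)]⟩⟩,⟨false,0,⟨0,[(4,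
  0),(21,0)]⟩,⟨0,[(1,0),(12,0),(7,0)]⟩⟩,⟨false,0,⟨0,[]⟩,⟨0,[]⟩⟩,⟨false,0,⟨0,[]⟩,⟨0,[]⟩⟩,[.o ⟨false,
  0,⟨0,[(23,0)]⟩,⟨3,[(14,3),(4,0),(0,0),(18,1)]⟩⟩,.o ⟨false,1,⟨3,[(6,1),(12,0),(0,0),(11,0),(6,0)]⟩,
  ⟨0,[(14,0)]⟩⟩,.o ⟨false,1,⟨1,[(22,1),(9,0),(5,0)]⟩,⟨10,[(8,1),(2,3),(0,1),(8,10),(2,4),(2,4),(7,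
  0)]⟩⟩,.a ⟨true,0,⟨0,[(22,0)]⟩,⟨0,[(21,0)]⟩⟩ ⟨false,1,⟨0,[(1,0)]⟩,⟨1,[(0,1),(26,0),(0,0)]⟩⟩ ⟨true,
  0,⟨0,[(21,0),(1,0)]⟩,⟨0,[(14,0),(7,0)]⟩⟩]⟩) (.R ⟨0,false,false,true,[1,0,0,-1],[0,1],[0,1,0,0,0,0,
  0,0,-1],(⟨0,[(21,0)]⟩,⟨0,[(22,0)]⟩),(⟨0,[(34,0)]⟩,⟨0,[(33,0)]⟩),⟨0,[(2,0)]⟩,.k,.k,(.x (-1) ⟨7,[(9,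
  3),(6,3),(2,2),(0,2),(11,1)]⟩ ⟨0,[(34,0)]⟩),(.x (-1) ⟨7,[(9,3),(6,3),(2,2),(0,2),(11,1)]⟩ ⟨0,[(34,
  0)]⟩),.k,.k,⟨false,1,⟨0,[(0,0),(36,0),(0,0)]⟩,⟨0,[(4,0),(17,0),(13,0)]⟩⟩,⟨true,0,⟨0,[(21,0)]⟩,⟨10,
  [(8,1),(2,3),(0,1),(9,10),(1,4),(2,4),(7,0)]⟩⟩,⟨true,0,⟨0,[(41,0)]⟩,⟨0,[]⟩⟩,⟨false,0,⟨1,[(4,1),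
  (10,0),(1,0),(3,0),(0,0),(3,0)]⟩,⟨0,[(1,0),(9,0),(10,0)]⟩⟩,⟨false,0,⟨0,[]⟩,⟨0,[]⟩⟩,⟨false,0,⟨0,
  []⟩,⟨0,[]⟩⟩,[.o ⟨false,0,⟨0,[(36,0)]⟩,⟨3,[(11,3),(7,0),(0,0),(18,1)]⟩⟩,.o ⟨false,1,⟨3,[(19,0),(0,
  0),(15,3),(2,1)]⟩,⟨0,[(11,0)]⟩⟩,.o ⟨false,1,⟨1,[(22,1),(9,0),(5,0)]⟩,⟨5,[(0,1),(3,1),(3,0),(2,0),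
  (9,3),(2,1),(0,0),(1,1)]⟩⟩,.a ⟨true,0,⟨0,[(22,0)]⟩,⟨0,[(21,0)]⟩⟩ ⟨false,1,⟨1,[(19,0),(18,0)]⟩,⟨0,
  [(4,0),(17,0)]⟩⟩ ⟨true,0,⟨0,[(21,0),(14,0)]⟩,⟨0,[(11,0),(10,0)]⟩⟩]⟩))))) (.Q [0,1,1,0,0,0,0,0,1,0,
  0,-1] (.p false [0,0,0,1] [] (⟨0,[(18,0)]⟩,⟨0,[(17,0)]⟩) .k 0 (⟨0,[]⟩,⟨0,[]⟩) .k .k) (.K ⟨0,[0,0,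
  0,1],0,0,(⟨0,[(19,0)]⟩,⟨0,[(18,0)]⟩),.k,(.r (-1) ⟨1,[(17,0),(16,1),(0,0)]⟩ ⟨2,[(1,2),(0,0),(6,1),
  (8,2),(2,1),(2,1),(7,1)]⟩),(.x 0 ⟨0,[(31,0)]⟩ ⟨7,[(6,3),(6,3),(2,2),(0,2),(11,1)]⟩),.k,.k,[⟨0,
  [(19,0)]⟩,⟨0,[(18,0)]⟩,⟨0,[(1,0)]⟩,⟨0,[(0,0)]⟩]⟩) (.Q [0,0,0,0,0,1,0,0,0,-1,0,1] (.p true [0,0,0,
  1] [1] (⟨0,[(19,0)]⟩,⟨0,[(18,0)]⟩) .k 1 (⟨0,[]⟩,⟨0,[]⟩) .k .k) (.R ⟨0,false,false,true,[1,0,0,-1],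
  [1,0,-1],[0,1,0,0,0,0,0,0,-1],(⟨0,[(19,0)]⟩,⟨0,[(20,0)]⟩),(⟨0,[(28,0)]⟩,⟨0,[(29,0)]⟩),⟨0,[(0,0)]⟩,
  .k,.k,(.x (-1) ⟨7,[(7,3),(6,3),(2,2),(0,2),(11,1)]⟩ ⟨0,[(32,0)]⟩),.k,.k,.k,⟨false,0,⟨2,[(1,1),(0,
  0),(3,0),(2,1),(0,0),(8,2),(7,2)]⟩,⟨7,[(5,3),(11,0),(0,2),(5,3),(0,3)]⟩⟩,⟨true,0,⟨0,[(19,0),(2,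
  0)]⟩,⟨0,[(11,0),(8,0)]⟩⟩,⟨true,0,⟨0,[(39,0)]⟩,⟨0,[]⟩⟩,⟨false,1,⟨7,[(4,3),(12,0),(0,4),(0,7),(2,3),
  (2,3),(11,1)]⟩,⟨0,[(1,0),(10,0)]⟩⟩,⟨false,0,⟨0,[]⟩,⟨0,[]⟩⟩,⟨false,0,⟨0,[]⟩,⟨0,[]⟩⟩,[.o ⟨false,0,
  ⟨0,[(21,0)]⟩,⟨3,[(12,3),(4,0),(0,0),(18,1)]⟩⟩,.o ⟨false,1,⟨3,[(4,1),(12,0),(0,0),(11,0),(6,0)]⟩,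
  ⟨0,[(12,0)]⟩⟩,.o ⟨false,1,⟨1,[(20,1),(9,0),(5,0)]⟩,⟨10,[(6,1),(2,3),(0,1),(8,10),(2,4),(2,4),(7,
  0)]⟩⟩,.a ⟨true,0,⟨0,[(20,0)]⟩,⟨0,[(19,0)]⟩⟩ ⟨false,0,⟨2,[(1,1),(0,0),(3,0),(2,1),(0,0),(8,2)]⟩,⟨1,
  [(18,0),(6,0),(0,0),(10,0)]⟩⟩ ⟨true,0,⟨0,[(19,0),(1,0)]⟩,⟨0,[(12,0),(7,0)]⟩⟩]⟩) (.R ⟨1,false,
  false,true,[1,0,0,-1],[1,0,-1],[0,1,0,-1,0,0,0,0,-1],(⟨0,[(19,0)]⟩,⟨0,[(20,0)]⟩),(⟨0,[(28,0)]⟩,⟨0,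
  [(29,0)]⟩),⟨0,[(0,0)]⟩,.k,.k,(.x (-1) ⟨7,[(7,3),(6,3),(2,2),(0,2),(11,1)]⟩ ⟨0,[(32,0)]⟩),.k,(.r 0
  ⟨1,[(1,0),(0,0),(6,1),(9,1),(7,1)]⟩ ⟨1,[(8,1),(9,0),(6,1),(11,0)]⟩),.k,⟨false,0,⟨1,[(1,0),(0,0),
  (6,1),(9,1),(7,1)]⟩,⟨11,[(3,3),(1,3),(2,3),(4,3),(3,0),(0,4),(6,3),(11,1)]⟩⟩,⟨true,0,⟨0,[(19,0),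
  (2,0)]⟩,⟨0,[(11,0),(8,0)]⟩⟩,⟨false,0,⟨0,[(35,0)]⟩,⟨0,[(34,0),(2,0)]⟩⟩,⟨false,1,⟨7,[(4,3),(12,0),
  (0,4),(0,7),(2,3),(2,3),(11,1)]⟩,⟨0,[(1,0),(10,0)]⟩⟩,⟨true,0,⟨0,[(39,0)]⟩,⟨0,[]⟩⟩,⟨false,1,⟨1,[(3,
  0),(14,0),(0,1),(2,0),(2,0),(8,0),(2,0)]⟩,⟨0,[(1,0),(10,0),(22,0)]⟩⟩,[.o ⟨false,0,⟨0,[(21,0)]⟩,⟨3,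
  [(12,3),(4,0),(0,0),(18,1)]⟩⟩,.o ⟨false,1,⟨3,[(4,1),(12,0),(0,0),(11,0),(6,0)]⟩,⟨0,[(12,0)]⟩⟩,.o
  ⟨false,1,⟨1,[(20,1),(9,0),(5,0)]⟩,⟨10,[(6,1),(2,3),(0,1),(8,10),(2,4),(2,4),(7,0)]⟩⟩,.a ⟨true,0,
  ⟨0,[(20,0)]⟩,⟨0,[(19,0)]⟩⟩ ⟨false,0,⟨1,[(1,0),(0,0),(6,1),(9,1)]⟩,⟨3,[(18,1),(6,0),(0,0),(6,1),(0,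
  3),(2,1)]⟩⟩ ⟨true,0,⟨0,[(19,0),(1,0)]⟩,⟨0,[(12,0),(7,0)]⟩⟩]⟩))))) (.Q [0,1,0,-1,0,0,-2,-2,0,-1,2]
  (.p true [0,0,1] [1,0,-1] (⟨0,[(25,0)]⟩,⟨0,[(24,0)]⟩) .k 2 (⟨0,[(24,0)]⟩,⟨0,[(25,0)]⟩) .k (.r 0
  ⟨0,[(23,1)]⟩ ⟨5,[(1,3),(10,2),(0,1),(3,2),(2,4),(0,1),(7,1)]⟩)) (.R ⟨1,true,false,false,[1,0,-1],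
  [0,0,1],[1,0,0,0,0,0,0,-1],(⟨0,[(25,0)]⟩,⟨0,[(26,0)]⟩),(⟨0,[(26,0)]⟩,⟨0,[(25,0)]⟩),⟨0,[(11,0)]⟩,
  .k,.k,.k,.k,(.r (-1) ⟨4,[(0,3),(1,1),(10,3),(0,0),(15,0),(1,0),(0,1)]⟩ ⟨0,[(1,0),(10,0),(6,0)]⟩),
  .k,⟨false,1,⟨6,[(0,3),(1,1),(0,1),(1,1),(7,5),(0,0),(15,2),(2,3)]⟩,⟨0,[(24,1)]⟩⟩,⟨true,0,⟨0,[(13,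
  0)]⟩,⟨1,[(0,0),(11,0),(6,0),(4,1),(5,0)]⟩⟩,⟨true,0,⟨0,[]⟩,⟨0,[(36,0)]⟩⟩,⟨false,0,⟨0,[(1,0)]⟩,⟨11,
  [(0,7),(4,7),(8,0),(0,0),(11,1),(6,7)]⟩⟩,⟨false,1,⟨0,[(31,0),(2,0)]⟩,⟨0,[(32,0)]⟩⟩,⟨true,0,⟨4,[(1,
  2),(5,0),(2,1),(1,1),(7,0)]⟩,⟨0,[(0,0)]⟩⟩,[]⟩) (.Q [0,0,0,0,0,-1,0,0,0,1,0,-1] (.p false [0,0,0,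
  1] [1] (⟨0,[(17,0)]⟩,⟨0,[(16,0)]⟩) .k 1 (⟨0,[]⟩,⟨0,[]⟩) .k .k) (.I [0,-1,-2,-2,1,0,0,0,-1] (.Q [0,
  0,1,2,0,0,0,0,1,1,0,-1] (.p false [0,0,0,1] [1] (⟨0,[(19,0)]⟩,⟨0,[(18,0)]⟩) .k 1 (⟨0,[]⟩,⟨0,[]⟩)
  .k .k) (.R ⟨1,false,false,true,[1,0,0,-1],[0,1],[0,0,0,-1,0,0,0,0,-1],(⟨0,[(19,0)]⟩,⟨0,[(20,0)]⟩),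
  (⟨0,[(32,0)]⟩,⟨0,[(31,0)]⟩),⟨0,[(2,0)]⟩,.k,.k,(.x (-1) ⟨7,[(7,3),(6,3),(2,2),(0,2),(11,1)]⟩ ⟨0,
  [(32,0)]⟩),(.x (-1) ⟨7,[(7,3),(6,3),(2,2),(0,2),(11,1)]⟩ ⟨0,[(32,0)]⟩),(.r (-1) ⟨0,[(1,0),(37,
  0)]⟩ ⟨10,[(0,10),(5,1),(2,3),(0,1),(9,10),(1,4),(2,4),(7,0)]⟩),.k,⟨false,1,⟨0,[(1,0)]⟩,⟨1,[(0,1),
  (5,0),(2,0),(10,1),(2,0)]⟩⟩,⟨true,0,⟨0,[(19,0)]⟩,⟨10,[(6,1),(2,3),(0,1),(9,10),(1,4),(2,4),(7,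
  0)]⟩⟩,⟨true,0,⟨0,[(35,0)]⟩,⟨0,[(34,0)]⟩⟩,⟨false,0,⟨0,[(0,0),(34,0)]⟩,⟨5,[(1,3),(4,1),(2,1),(0,1),
  (6,0),(2,5),(9,0),(2,1)]⟩⟩,⟨false,1,⟨3,[(17,0),(0,0),(18,1)]⟩,⟨0,[]⟩⟩,⟨false,0,⟨0,[(0,0)]⟩,⟨3,[(1,
  1),(7,3),(7,0),(2,3),(16,0)]⟩⟩,[.o ⟨false,0,⟨0,[(34,0)]⟩,⟨3,[(9,3),(7,0),(0,0),(18,1)]⟩⟩,.o
  ⟨false,1,⟨3,[(17,0),(0,0),(15,3),(2,1)]⟩,⟨0,[(9,0)]⟩⟩,.o ⟨false,1,⟨1,[(20,1),(9,0),(5,0)]⟩,⟨10,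
  [(6,1),(2,3),(0,1),(8,10),(2,4),(2,4),(7,0)]⟩⟩,.a ⟨true,0,⟨0,[(20,0)]⟩,⟨0,[(19,0)]⟩⟩ ⟨false,1,⟨3,
  [(1,1),(15,0),(19,0)]⟩,⟨0,[(0,0),(8,0),(10,0)]⟩⟩ ⟨true,0,⟨0,[(19,0),(14,0)]⟩,⟨0,[(9,0),(10,
  0)]⟩⟩]⟩) (.I [1,-1,-1,0,0,0,0,1,-1] (.R ⟨1,false,false,true,[1,0,0,-1],[1,0,-1],[0,1,0,-1,0,0,0,0,
  -1],(⟨0,[(20,0)]⟩,⟨0,[(21,0)]⟩),(⟨0,[(29,0)]⟩,⟨0,[(30,0)]⟩),⟨0,[(3,0)]⟩,.k,.k,(.x (-1) ⟨7,[(8,3),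
  (6,3),(2,2),(0,2),(11,1)]⟩ ⟨0,[(33,0)]⟩),.k,(.r 0 ⟨4,[(0,1),(0,2),(14,0),(3,2),(3,0),(3,1)]⟩ ⟨1,
  [(9,1),(9,0),(6,1),(11,0)]⟩),.k,⟨false,0,⟨4,[(0,1),(0,2),(14,0),(3,2),(3,0),(3,1)]⟩,⟨9,[(6,3),(2,
  7),(4,1),(4,2),(6,3),(4,0),(6,1)]⟩⟩,⟨true,0,⟨0,[(20,0),(2,0)]⟩,⟨0,[(12,0),(8,0)]⟩⟩,⟨false,0,⟨0,
  [(36,0)]⟩,⟨0,[(35,0),(2,0)]⟩⟩,⟨false,1,⟨7,[(6,1),(12,2),(0,7),(2,5),(1,5),(0,3),(4,0),(6,1)]⟩,⟨0,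
  [(0,0),(11,0),(8,0)]⟩⟩,⟨true,0,⟨0,[(40,0)]⟩,⟨0,[]⟩⟩,⟨false,1,⟨1,[(7,0),(1,0),(9,0),(0,1),(2,0),(2,
  0),(11,0)]⟩,⟨1,[(0,1),(9,0),(6,0),(3,1),(14,0)]⟩⟩,[.o ⟨false,0,⟨0,[(22,0)]⟩,⟨3,[(5,1),(12,0),(0,
  0),(11,0),(6,0)]⟩⟩,.o ⟨false,1,⟨1,[(25,1),(5,0),(6,0)]⟩,⟨0,[(13,0)]⟩⟩,.o ⟨false,1,⟨1,[(21,1),(9,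
  0),(5,0)]⟩,⟨10,[(7,1),(2,3),(0,1),(8,10),(2,4),(2,4),(7,0)]⟩⟩,.a ⟨true,0,⟨0,[(21,0)]⟩,⟨0,[(20,
  0)]⟩⟩ ⟨false,0,⟨5,[(0,1),(0,3),(5,0),(1,0),(7,0),(2,3)]⟩,⟨3,[(19,1),(6,0),(0,0),(6,1),(0,3),(2,
  1)]⟩⟩ ⟨true,0,⟨0,[(20,0),(1,0)]⟩,⟨0,[(13,0),(7,0)]⟩⟩]⟩) (.Q [0,1,1,0,0,0,0,0,1,0,0,-1] (.p false
  [0,0,0,1] [] (⟨0,[(21,0)]⟩,⟨0,[(20,0)]⟩) .k 0 (⟨0,[]⟩,⟨0,[]⟩) .k .k) (.K ⟨0,[0,0,0,1],0,0,(⟨0,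
  [(22,0)]⟩,⟨0,[(21,0)]⟩),.k,(.r (-1) ⟨3,[(2,1),(17,2),(0,1),(16,0)]⟩ ⟨3,[(2,3),(18,3),(5,0),(0,0),
  (6,5),(0,11)]⟩),(.x 0 ⟨0,[(34,0)]⟩ ⟨7,[(9,3),(6,3),(2,2),(0,2),(11,1)]⟩),.k,.k,[⟨0,[(22,0)]⟩,⟨0,
  [(21,0)]⟩,⟨2,[(2,2),(2,0),(4,2),(4,0),(1,0),(3,0),(0,0)]⟩,⟨0,[(0,0)]⟩]⟩) (.R ⟨2,false,false,true,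
  [0,1],[0,0,0,1],[],(⟨0,[]⟩,⟨0,[]⟩),(⟨0,[(22,0)]⟩,⟨0,[(21,0)]⟩),⟨0,[]⟩,.k,.k,.k,(.r 0 ⟨0,[(0,0),
  (20,0),(2,0),(2,0),(8,0)]⟩ ⟨3,[(2,1),(17,2),(0,1),(16,0)]⟩),.k,.k,⟨true,0,⟨10,[(0,10),(7,1),(2,3),
  (0,1),(8,10),(2,4),(2,4),(7,0)]⟩,⟨0,[(1,0),(27,0)]⟩⟩,⟨false,0,⟨10,[(8,1),(2,3),(0,1),(8,10),(2,4),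
  (2,4),(7,0)]⟩,⟨0,[(22,0),(15,0)]⟩⟩,⟨false,1,⟨3,[(3,1),(16,0),(18,0)]⟩,⟨3,[(27,0),(0,0),(6,1),(0,
  3)]⟩⟩,⟨true,0,⟨0,[(1,0),(9,0),(9,0),(7,0)]⟩,⟨0,[(0,0),(35,0)]⟩⟩,⟨false,1,⟨1,[(38,0),(0,0)]⟩,⟨1,
  [(27,0),(0,0)]⟩⟩,⟨false,1,⟨7,[(19,0),(0,4),(0,7),(2,3),(2,3),(4,1)]⟩,⟨0,[(0,0)]⟩⟩,[.a ⟨true,0,⟨0,
  [(1,0),(19,0),(7,0)]⟩,⟨0,[(0,0)]⟩⟩ ⟨false,1,⟨3,[(19,0),(0,0),(17,1)]⟩,⟨0,[]⟩⟩ ⟨true,0,⟨0,[(1,0),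
  (12,0),(6,0),(2,0)]⟩,⟨0,[(0,0)]⟩⟩,.o ⟨false,1,⟨7,[(19,0),(0,4),(0,7),(2,3),(2,3),(4,1)]⟩,⟨1,[(0,
  0),(1,0),(5,0),(3,0)]⟩⟩,.o ⟨false,1,⟨3,[(19,0),(0,0),(17,1)]⟩,⟨10,[(8,1),(2,3),(0,1),(11,4),(2,4),
  (7,0)]⟩⟩,.e ⟨false,1,⟨1,[(38,0),(0,0)]⟩,⟨1,[(27,0),(0,0)]⟩⟩ ⟨false,1,⟨7,[(19,0),(0,4),(0,7),(2,3),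
  (2,3),(4,1)]⟩,⟨0,[(0,0)]⟩⟩]⟩)))) (.I [0,1,-2,-2,1,0,0,-1,-1] (.R ⟨1,false,false,false,[1,0,0,-1],
  [0,1,1],[0,1,0,-1,0,0,0,0,-1],(⟨0,[(19,0)]⟩,⟨0,[(20,0)]⟩),(⟨0,[(29,0),(2,0)]⟩,⟨0,[(14,0)]⟩),⟨0,
  [(2,0)]⟩,.k,.k,(.x (-1) ⟨7,[(7,3),(6,3),(2,2),(0,2),(11,1)]⟩ ⟨0,[(32,0)]⟩),(.r (-1) ⟨7,[(0,4),(4,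
  0),(0,0),(1,0),(7,0),(0,1),(15,2)]⟩ ⟨3,[(1,1),(16,0),(8,3),(9,0)]⟩),(.x 0 ⟨7,[(6,1),(0,3),(1,2),
  (0,0),(3,11),(7,6),(4,0),(5,0)]⟩ ⟨15,[(0,3),(4,3),(7,7),(3,0),(0,0),(10,15),(0,3),(1,31),(3,1)]⟩),
  .k,⟨false,1,⟨0,[(0,0)]⟩,⟨0,[(1,0),(25,0),(5,0),(2,0)]⟩⟩,⟨true,0,⟨0,[(11,0),(7,0)]⟩,⟨0,[(20,0),(1,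
  0)]⟩⟩,⟨false,0,⟨0,[(35,0)]⟩,⟨0,[(34,0),(2,0)]⟩⟩,⟨false,0,⟨4,[(1,1),(1,1),(1,0),(3,1),(0,0),(7,0),
  (0,4),(7,0),(5,1)]⟩,⟨0,[(0,0),(5,0),(13,0),(6,0),(5,0)]⟩⟩,⟨true,0,⟨0,[(39,0)]⟩,⟨0,[]⟩⟩,⟨false,0,
  ⟨1,[(1,0),(3,0),(4,1),(8,1),(7,0),(5,0)]⟩,⟨0,[(0,0),(8,0),(5,0),(4,0),(12,0)]⟩⟩,[.o ⟨false,0,⟨0,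
  [(10,0)]⟩,⟨9,[(0,4),(4,2),(12,0),(3,9),(1,1),(0,1),(7,0),(3,0)]⟩⟩,.o ⟨false,1,⟨7,[(3,3),(13,0),(0,
  0),(11,1),(3,3),(2,3)]⟩,⟨0,[(9,0),(14,0)]⟩⟩,.o ⟨false,1,⟨1,[(20,1),(9,0),(5,0)]⟩,⟨6,[(1,1),(7,3),
  (7,0),(1,6),(2,0),(2,0),(4,0),(2,0)]⟩⟩,.a ⟨true,0,⟨0,[(20,0)]⟩,⟨0,[(19,0)]⟩⟩ ⟨false,1,⟨3,[(0,1),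
  (16,0),(9,1),(9,0)]⟩,⟨1,[(1,0),(3,0),(21,0),(5,0)]⟩⟩ ⟨true,0,⟨0,[(10,0),(8,0)]⟩,⟨0,[(9,0),(10,0),
  (3,0)]⟩⟩]⟩) (.I [1,-1,-1,0,1,0,0,0,-1] (.R ⟨1,false,false,true,[1,0,0,-1],[1,0,-1],[1,0,0,0,0,0,0,
  0,-1],(⟨0,[(20,0)]⟩,⟨0,[(21,0)]⟩),(⟨0,[(29,0)]⟩,⟨0,[(30,0)]⟩),⟨0,[(3,0)]⟩,.k,.k,(.x (-1) ⟨7,[(8,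
  3),(6,3),(2,2),(0,2),(11,1)]⟩ ⟨0,[(33,0)]⟩),.k,(.r (-1) ⟨1,[(18,0),(9,1),(7,1),(0,0)]⟩ ⟨7,[(2,3),
  (3,3),(10,0),(4,0),(2,2),(0,1),(7,1)]⟩),.k,⟨false,1,⟨0,[(0,0),(27,0)]⟩,⟨0,[(1,0),(8,0),(6,0),(7,
  1),(10,0),(0,0)]⟩⟩,⟨true,0,⟨0,[(20,0),(2,0)]⟩,⟨0,[(12,0),(8,0)]⟩⟩,⟨true,0,⟨0,[]⟩,⟨0,[(40,0)]⟩⟩,
  ⟨false,0,⟨4,[(1,0),(0,0),(3,0),(3,3),(8,0),(0,4),(1,0),(2,3),(8,1)]⟩,⟨0,[(0,0),(12,0),(7,0)]⟩⟩,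
  ⟨false,1,⟨0,[(35,0),(2,0)]⟩,⟨0,[(36,0)]⟩⟩,⟨false,0,⟨5,[(1,0),(0,1),(3,2),(13,5),(1,3),(0,1),(10,
  0)]⟩,⟨3,[(0,1),(4,1),(4,1),(7,0),(2,3),(14,1),(0,0)]⟩⟩,[.o ⟨false,0,⟨0,[(22,0)]⟩,⟨3,[(5,1),(12,0),
  (0,0),(11,0),(6,0)]⟩⟩,.o ⟨false,1,⟨1,[(25,1),(5,0),(6,0)]⟩,⟨0,[(13,0)]⟩⟩,.o ⟨false,1,⟨1,[(21,1),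
  (9,0),(5,0)]⟩,⟨13,[(1,1),(5,1),(2,5),(7,0),(1,13),(2,3),(2,5),(4,0)]⟩⟩,.a ⟨true,0,⟨0,[(21,0)]⟩,⟨0,
  [(20,0)]⟩⟩ ⟨false,1,⟨0,[(0,0)]⟩,⟨11,[(2,3),(16,3),(6,0),(0,0),(6,1),(1,7)]⟩⟩ ⟨true,0,⟨0,[(20,0),
  (1,0)]⟩,⟨0,[(13,0),(7,0)]⟩⟩]⟩) (.R ⟨1,false,false,false,[1,0,0,-1],[1,0,-1],[1,0,0,0,0,0,0,0,-1],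
  (⟨0,[(20,0)]⟩,⟨0,[(21,0)]⟩),(⟨0,[(29,0)]⟩,⟨0,[(30,0)]⟩),⟨0,[(3,0)]⟩,.k,.k,(.x (-1) ⟨7,[(8,3),(6,
  3),(2,2),(0,2),(11,1)]⟩ ⟨0,[(33,0)]⟩),.k,(.r (-1) ⟨1,[(18,0),(9,1),(7,1),(0,0)]⟩ ⟨7,[(2,3),(3,3),
  (10,0),(4,0),(2,2),(0,1),(7,1)]⟩),.k,⟨false,1,⟨1,[(18,0),(9,1),(8,0)]⟩,⟨1,[(0,1),(16,0),(4,0),(2,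
  0),(8,1),(2,1)]⟩⟩,⟨true,0,⟨0,[(20,0),(2,0)]⟩,⟨0,[(12,0),(8,0)]⟩⟩,⟨true,0,⟨0,[]⟩,⟨0,[(40,0)]⟩⟩,
  ⟨false,0,⟨1,[(1,0),(4,0),(3,1),(9,1),(4,1),(8,0)]⟩,⟨1,[(13,1),(4,0),(2,1),(15,0)]⟩⟩,⟨false,1,⟨0,
  [(35,0),(2,0)]⟩,⟨0,[(36,0)]⟩⟩,⟨false,0,⟨1,[(1,0),(4,0),(13,1),(1,1),(11,0)]⟩,⟨5,[(5,1),(4,1),(7,
  2),(2,5),(2,1),(11,3),(0,2)]⟩⟩,[.o ⟨false,1,⟨1,[(25,1),(5,0),(6,0)]⟩,⟨0,[(13,0)]⟩⟩,.o ⟨false,1,⟨0,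
  [(22,0),(15,0)]⟩,⟨0,[(24,0)]⟩⟩,.o ⟨false,1,⟨1,[(21,1),(9,0),(5,0)]⟩,⟨13,[(1,1),(5,1),(2,5),(7,0),
  (1,13),(2,3),(2,5),(4,0)]⟩⟩,.a ⟨true,0,⟨0,[(21,0)]⟩,⟨0,[(20,0)]⟩⟩ ⟨true,1,⟨1,[(18,0),(18,0)]⟩,⟨0,
  [(0,0)]⟩⟩ ⟨false,1,⟨0,[(20,0),(1,0),(15,0)]⟩,⟨0,[(13,0),(7,0)]⟩⟩]⟩)))) (.I [0,0,2,1,-1,0,0,-1,1]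
  (.Q [0,0,-1,0,1,0,-1,-1,-1,-1,1,1] (.p true [0,0,1] [1,0,0,-1] (⟨0,[(28,0)]⟩,⟨0,[(27,0)]⟩) .k 2
  (⟨0,[(18,0)]⟩,⟨0,[(19,0)]⟩) .k (.r 0 ⟨0,[(0,0),(25,1),(7,0),(0,0)]⟩ ⟨4,[(0,0),(3,1),(3,0),(6,0),
  (0,3),(6,1)]⟩)) (.R ⟨0,false,false,true,[1,0,0,-1],[1,0,-1],[0,1,0,0,0,0,0,0,-1],(⟨0,[(19,0)]⟩,⟨0,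
  [(20,0)]⟩),(⟨0,[(28,0)]⟩,⟨0,[(29,0)]⟩),⟨0,[(2,0)]⟩,.k,.k,(.x (-1) ⟨7,[(7,3),(6,3),(2,2),(0,2),(11,
  1)]⟩ ⟨0,[(32,0)]⟩),.k,.k,.k,⟨false,1,⟨1,[(17,0),(9,1),(8,0)]⟩,⟨0,[(1,0),(33,0),(0,0)]⟩⟩,⟨true,0,
  ⟨0,[(19,0),(2,0)]⟩,⟨0,[(11,0),(8,0)]⟩⟩,⟨true,0,⟨0,[(39,0)]⟩,⟨0,[]⟩⟩,⟨false,0,⟨1,[(1,0),(3,0),(3,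
  0),(9,1),(2,0),(1,0),(2,0)]⟩,⟨0,[(0,0),(3,0)]⟩⟩,⟨false,0,⟨0,[]⟩,⟨0,[]⟩⟩,⟨false,0,⟨0,[]⟩,⟨0,[]⟩⟩,
  [.o ⟨false,0,⟨0,[(21,0)]⟩,⟨3,[(4,1),(12,0),(0,0),(11,0),(6,0)]⟩⟩,.o ⟨false,1,⟨1,[(24,1),(5,0),(6,
  0)]⟩,⟨0,[(12,0)]⟩⟩,.o ⟨false,1,⟨1,[(20,1),(9,0),(5,0)]⟩,⟨9,[(1,1),(7,3),(0,1),(6,0),(1,9),(2,3),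
  (2,1),(4,0)]⟩⟩,.a ⟨true,0,⟨0,[(20,0)]⟩,⟨0,[(19,0)]⟩⟩ ⟨false,1,⟨1,[(17,0),(18,0)]⟩,⟨4,[(1,1),(3,0),
  (12,0),(8,2),(5,1),(1,1)]⟩⟩ ⟨true,0,⟨0,[(19,0),(1,0)]⟩,⟨0,[(12,0),(7,0)]⟩⟩]⟩) (.K ⟨0,[0,0,0,1],0,
  (-1),(⟨0,[(20,0)]⟩,⟨0,[(19,0)]⟩),.k,(.x 0 ⟨1,[(7,0),(6,0),(7,0),(2,1),(0,0)]⟩ ⟨0,[(32,0),(3,0)]⟩),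
  (.x 0 ⟨0,[(32,0)]⟩ ⟨7,[(7,3),(6,3),(2,2),(0,2),(11,1)]⟩),.k,.k,[⟨0,[(20,0)]⟩,⟨0,[(19,0)]⟩,⟨1,[(17,
  0),(2,1),(15,0),(2,1)]⟩,⟨0,[(0,0),(20,0)]⟩]⟩)) (.I [0,0,-1,0,0,0,0,0,-1] (.Q [0,-1,-1,0,0,0,1,1,
  -1,0,-1,1] (.p false [0,0,1] [0,0,0,1] (⟨0,[(29,0)]⟩,⟨0,[(28,0)]⟩) .k 2 (⟨0,[(20,0)]⟩,⟨0,[(19,
  0)]⟩) .k (.r 0 ⟨2,[(0,2),(3,0),(17,0),(0,0),(2,1)]⟩ ⟨7,[(5,3),(11,0),(0,2),(5,3),(0,3)]⟩)) (.R ⟨0,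
  false,false,true,[1,0,0,-1],[1,0,-1],[0,1,0,0,0,0,0,0,-1],(⟨0,[(20,0)]⟩,⟨0,[(21,0)]⟩),(⟨0,[(29,
  0)]⟩,⟨0,[(30,0)]⟩),⟨0,[(3,0)]⟩,.k,.k,(.x (-1) ⟨7,[(8,3),(6,3),(2,2),(0,2),(11,1)]⟩ ⟨0,[(33,0)]⟩),
  .k,.k,.k,⟨false,0,⟨0,[(1,0),(26,0)]⟩,⟨7,[(6,3),(11,0),(0,2),(5,3),(0,3)]⟩⟩,⟨true,0,⟨0,[(20,0),(2,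
  0)]⟩,⟨0,[(12,0),(8,0)]⟩⟩,⟨true,0,⟨0,[(40,0)]⟩,⟨0,[]⟩⟩,⟨false,1,⟨7,[(6,1),(12,2),(0,7),(2,5),(1,5),
  (0,3),(4,0),(6,1)]⟩,⟨0,[(0,0)]⟩⟩,⟨false,0,⟨0,[]⟩,⟨0,[]⟩⟩,⟨false,0,⟨0,[]⟩,⟨0,[]⟩⟩,[.o ⟨false,0,⟨0,
  [(22,0)]⟩,⟨3,[(5,1),(12,0),(0,0),(11,0),(6,0)]⟩⟩,.o ⟨false,1,⟨1,[(25,1),(5,0),(6,0)]⟩,⟨0,[(13,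
  0)]⟩⟩,.o ⟨false,1,⟨1,[(21,1),(9,0),(5,0)]⟩,⟨10,[(7,1),(2,3),(0,1),(8,10),(2,4),(2,4),(7,0)]⟩⟩,.a
  ⟨true,0,⟨0,[(21,0)]⟩,⟨0,[(20,0)]⟩⟩ ⟨false,0,⟨0,[(1,0)]⟩,⟨1,[(19,0),(6,0),(0,0),(10,0)]⟩⟩ ⟨true,0,
  ⟨0,[(20,0),(1,0)]⟩,⟨0,[(13,0),(7,0)]⟩⟩]⟩) (.K ⟨0,[0,0,0,1],0,0,(⟨0,[(21,0)]⟩,⟨0,[(20,0)]⟩),.k,(.r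
  (-1) ⟨1,[(19,0),(16,1),(0,0)]⟩ ⟨3,[(1,3),(24,2),(0,2),(6,1),(0,3)]⟩),(.x 0 ⟨0,[(33,0)]⟩ ⟨7,[(8,3),
  (6,3),(2,2),(0,2),(11,1)]⟩),.k,.k,[⟨0,[(21,0)]⟩,⟨0,[(20,0)]⟩,⟨0,[(1,0),(19,0),(18,0)]⟩,⟨0,[(0,0),
  (12,0)]⟩]⟩)) (.I [0,1,0,0,0,0,0,-1,1] (.R ⟨0,false,false,true,[1,0,0,-1],[1,0,-1],[1,0,0,0,0,0,0,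
  0,-1],(⟨0,[(20,0)]⟩,⟨0,[(21,0)]⟩),(⟨0,[(29,0)]⟩,⟨0,[(30,0)]⟩),⟨0,[(3,0)]⟩,.k,.k,(.x (-1) ⟨7,[(8,
  3),(6,3),(2,2),(0,2),(11,1)]⟩ ⟨0,[(33,0)]⟩),.k,.k,.k,⟨false,1,⟨7,[(2,5),(1,1),(2,1),(8,1),(1,0),
  (15,3),(3,0)]⟩,⟨0,[(0,0)]⟩⟩,⟨true,0,⟨0,[(20,0),(2,0)]⟩,⟨0,[(12,0),(8,0)]⟩⟩,⟨true,0,⟨0,[]⟩,⟨0,[(40,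
  0)]⟩⟩,⟨false,0,⟨0,[(0,0),(9,0),(5,0),(3,0),(13,0)]⟩,⟨3,[(2,1),(8,1),(0,1),(5,0),(2,3),(12,1),(2,
  0)]⟩⟩,⟨false,0,⟨0,[]⟩,⟨0,[]⟩⟩,⟨false,0,⟨0,[]⟩,⟨0,[]⟩⟩,[.o ⟨false,0,⟨0,[(22,0)]⟩,⟨3,[(5,1),(12,0),
  (0,0),(11,0),(6,0)]⟩⟩,.o ⟨false,1,⟨1,[(25,1),(5,0),(6,0)]⟩,⟨0,[(13,0)]⟩⟩,.o ⟨false,1,⟨1,[(21,1),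
  (9,0),(5,0)]⟩,⟨10,[(7,1),(2,3),(0,1),(8,10),(2,4),(2,4),(7,0)]⟩⟩,.a ⟨true,0,⟨0,[(21,0)]⟩,⟨0,[(20,
  0)]⟩⟩ ⟨false,1,⟨1,[(2,1),(4,0),(1,0),(7,0),(16,1)]⟩,⟨0,[(0,0),(3,0),(2,1),(0,3),(1,2),(4,3),(12,
  0),(4,7),(0,0)]⟩⟩ ⟨true,0,⟨0,[(20,0),(1,0)]⟩,⟨0,[(13,0),(7,0)]⟩⟩]⟩) (.Q [0,1,-1,0,0,0,0,0,-1,0,0,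
  1] (.p true [0,0,0,1] [] (⟨0,[(21,0)]⟩,⟨0,[(20,0)]⟩) .k 0 (⟨0,[]⟩,⟨0,[]⟩) .k .k) (.K ⟨0,[0,0,0,1],
  0,0,(⟨0,[(22,0)]⟩,⟨0,[(21,0)]⟩),.k,(.r (-1) ⟨1,[(20,0),(16,1),(0,0)]⟩ ⟨0,[(1,0),(8,0),(16,0)]⟩),
  (.x 0 ⟨0,[(34,0)]⟩ ⟨7,[(9,3),(6,3),(2,2),(0,2),(11,1)]⟩),.k,.k,[⟨0,[(22,0)]⟩,⟨0,[(21,0)]⟩,⟨0,[(0,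
  0)]⟩,⟨1,[(2,1),(5,0),(2,0),(9,1),(3,0)]⟩]⟩) (.R ⟨0,false,false,true,[1,0,0,-1],[0,1],[0,1,0,0,0,0,
  0,0,-1],(⟨0,[(21,0)]⟩,⟨0,[(22,0)]⟩),(⟨0,[(34,0)]⟩,⟨0,[(33,0)]⟩),⟨0,[(4,0)]⟩,.k,.k,(.x (-1) ⟨7,[(9,
  3),(6,3),(2,2),(0,2),(11,1)]⟩ ⟨0,[(34,0)]⟩),(.x (-1) ⟨7,[(9,3),(6,3),(2,2),(0,2),(11,1)]⟩ ⟨0,[(34,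
  0)]⟩),.k,.k,⟨false,1,⟨1,[(1,1),(9,0),(6,0),(7,1),(10,0),(0,1)]⟩,⟨2,[(0,0),(1,1),(2,0),(2,0),(1,0),
  (11,0)]⟩⟩,⟨true,0,⟨0,[(21,0)]⟩,⟨10,[(8,1),(2,3),(0,1),(9,10),(1,4),(2,4),(7,0)]⟩⟩,⟨true,0,⟨0,[(41,
  0)]⟩,⟨0,[]⟩⟩,⟨false,0,⟨2,[(0,0),(1,1),(2,0),(4,1),(10,1)]⟩,⟨3,[(1,3),(5,1),(3,3),(6,0),(0,0),(2,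
  3),(0,0),(2,0),(11,0)]⟩⟩,⟨false,0,⟨0,[]⟩,⟨0,[]⟩⟩,⟨false,0,⟨0,[]⟩,⟨0,[]⟩⟩,[.o ⟨false,0,⟨0,[(36,
  0)]⟩,⟨3,[(11,3),(7,0),(0,0),(18,1)]⟩⟩,.o ⟨false,1,⟨3,[(19,0),(0,0),(15,3),(2,1)]⟩,⟨0,[(11,0)]⟩⟩,
  .o ⟨false,1,⟨1,[(22,1),(9,0),(5,0)]⟩,⟨9,[(0,0),(0,0),(6,1),(2,2),(0,0),(8,8),(2,3),(2,4)]⟩⟩,.a
  ⟨true,0,⟨0,[(22,0)]⟩,⟨0,[(21,0)]⟩⟩ ⟨false,1,⟨1,[(19,0),(18,0)]⟩,⟨0,[(0,0),(21,0)]⟩⟩ ⟨true,0,⟨0,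
  [(21,0),(14,0)]⟩,⟨0,[(11,0),(10,0)]⟩⟩]⟩))))))))))

theorem ok8 : chk (cU (-1) true 10) t8 r7 = true := by decide +kernel

noncomputable def t9 : Tre :=
  .Q [0,0,0,0,0,1,0,0,0,0,-1] (.ed true [1,-1,1] .k) t7 t8

theorem ok9 : chk (cU (-1) true 10) t9 r6 = true :=
  chk_Q (e' := [0,0,0,0,0,-1,0,0,0,0,1]) (by decide +kernel) (by decide +kernel) ok7 ok8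

noncomputable def t10 : Tre :=
  .Q [0,-1,0,-1,0,0,1,1,0,0,-1] (.p false [0,0,1] [] (⟨0,[(20,0)]⟩,⟨0,[(19,0)]⟩) .k 0 (⟨0,[]⟩,⟨0,
  []⟩) .k .k) t6 t9

theorem ok10 : chk (cU (-1) true 10) t10 r5 = true :=
  chk_Q (e' := [0,1,0,1,0,0,-1,-1,0,0,1]) (by decide +kernel) (by decide +kernel) ok6 ok9

noncomputable def t11 : Tre :=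
  .Q [0,0,0,1,0,0,0,0,0,1] (.pp false [-1,1]) t5 t10

theorem ok11 : chk (cU (-1) true 10) t11 r4 = true :=
  chk_Q (e' := [0,0,0,-1,0,0,0,0,0,-1]) (by decide +kernel) (by decide +kernel) ok5 ok10

noncomputable def t12 : Tre :=
  .Q [0,0,0,-1,0,0,-1,-1,0,0,1] (.p true [0,0,1] [] (⟨0,[(18,0)]⟩,⟨0,[(17,0)]⟩) .k 0 (⟨0,[]⟩,⟨0,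
  []⟩) .k .k) t4 t11

theorem ok12 : chk (cU (-1) true 10) t12 r3 = true :=
  chk_Q (e' := [0,0,0,1,0,0,1,1,0,0,-1]) (by decide +kernel) (by decide +kernel) ok4 ok11

noncomputable def t13 : Tre :=
  .Q [0,0,0,0,0,0,-1,0,0,0,1] (.p true [0,0,1] [] (⟨0,[(17,0)]⟩,⟨0,[(16,0)]⟩) .k 0 (⟨0,[]⟩,⟨0,[]⟩)
  .k .k) t3 t12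

theorem ok13 : chk (cU (-1) true 10) t13 r2 = true :=
  chk_Q (e' := [0,0,0,0,0,0,1,0,0,0,-1]) (by decide +kernel) (by decide +kernel) ok3 ok12

noncomputable def t14 : Tre :=
  .Q [0,0,0,0,0,0,-1,-1,0,0,1] (.p true [0,0,1] [] (⟨0,[(16,0)]⟩,⟨0,[(15,0)]⟩) .k 0 (⟨0,[]⟩,⟨0,[]⟩)
  .k .k) t2 t13

theorem ok14 : chk (cU (-1) true 10) t14 r1 = true :=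
  chk_Q (e' := [0,0,0,0,0,0,1,1,0,0,-1]) (by decide +kernel) (by decide +kernel) ok2 ok13

noncomputable def t15 : Tre :=
  .Q [0,0,0,-1,0,0,-2,-1,0,-1,2] (.p true [0,0,1] [1,0,-1] (⟨0,[(15,0)]⟩,⟨0,[(14,0)]⟩) .k 2 (⟨0,
  [(14,0)]⟩,⟨0,[(15,0)]⟩) .k (.r 0 ⟨0,[(13,1)]⟩ ⟨0,[(2,0),(4,0),(2,0),(12,0)]⟩)) t1 t14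

theorem ok15 : chk (cU (-1) true 10) t15 r0 = true :=
  chk_Q (e' := [0,0,0,1,0,0,2,1,0,1,-2]) (by decide +kernel) (by decide +kernel) ok1 ok14

noncomputable def t16 : Tre :=
  .Q [0,0,0,0,0,1,0,0,0,-1,1] (.ed false [0,1,1] .k) t0 t15

theorem ok16 : chk (cU (-1) true 10) t16 base = true :=
  chk_Q (e' := [0,0,0,0,0,-1,0,0,0,1,-1]) (by decide +kernel) (by decide +kernel) ok0 ok15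

theorem ok : chkB (cU (-1) true 10) (fax (fcU (-1)) false 34 (-1) 10 true (tU true)) t16 base = true :=
  chkB_of (by decide +kernel) ok16

end Helper11.CT.Tm1_34_m1_1_u
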