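import Pool.Agent.Helper11.CT.Cfg
import Pool.Agent.Helper11.CT.Cut

set_option autoImplicit false
set_option linter.all false

namespace Helper11.CT.Tm1_34_m1_1_v

open Helper11.CT

noncomputable def base : List Con :=
  [(false,[0,1,0,1,0,0,-1,0,0,0,1]),
  (false,[0,0,0,0,0,0,2,0,0,1,-2]),
  (true,[0,0,0,0,1,0,0,0,-2]),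
  (true,[0,0,0,0,1,0,0,0,2]),
  (false,[0,0,0,0,0,0,0,0,0,1,0,-2]),
  (false,[0,0,0,0,0,0,0,0,0,0,0,1]),
  (false,[0,1,0,0,0,0,-1,-1,0,-1,1]),
  (false,[0,0,1,0,0,0,-1,0,0,-1,1]),
  (false,[0,1,0,0,0,0,1,1,0,0,-1]),
  (false,[0,1,0,0,0,0,-1,-1,0,0,1]),
  (false,[0,0,1,0,0,0,1,0,0,0,-1]),
  (false,[0,0,1,0,0,0,-1,0,0,0,1]),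
  (true,[0,0,0,0,0,0,0,1]),
  (false,[0,0,0,0,0,0,0,0,0,1,-1]),
  (false,[0,0,0,0,0,0,0,0,0,0,1]),
  (false,[0,0,0,0,1,0,0,0,0,-2]),
  (false,[0,0,0,0,0,-1,0,0,0,1]),
  (true,[0,0,0,0,0,1]),
  (true,[1,-2,1]),
  (true,[0,1,0,1]),
  (true,[0,0,0,-1]),
  (true,[0,0,-2,0,1]),
  (true,[0,-2,0,0,1]),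
  (true,[-1,0,1]),
  (true,[-1,1])]

noncomputable def t0 : Tre :=
  (.Q [0,0,0,0,0,1,0,0,0,-1,1] (.ed false [0,1,1] .k) (.Q [0,0,0,1,0,0,0,0,0,1] (.pp false [-1,1])
  (.R ⟨0,false,false,true,[-1,1,1],[0,1],[0,1,1,0,0,0,0,1],(⟨0,[(1,0)]⟩,⟨0,[(15,0),(2,0)]⟩),(⟨0,
  [(19,0)]⟩,⟨0,[(18,0)]⟩),⟨0,[(15,0)]⟩,.k,.k,.k,.k,.k,.k,⟨true,0,⟨0,[(14,0),(7,0)]⟩,⟨2,[(0,1),(2,0),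
  (4,2),(3,0),(7,1),(0,0)]⟩⟩,⟨false,1,⟨0,[(9,0),(13,0)]⟩,⟨1,[(3,0),(11,0),(0,0)]⟩⟩,⟨false,0,⟨0,[(22,
  0)]⟩,⟨0,[(21,0),(2,0)]⟩⟩,⟨true,0,⟨0,[(8,0)]⟩,⟨1,[(3,0),(10,1),(0,0),(0,0)]⟩⟩,⟨false,0,⟨0,[]⟩,⟨0,
  []⟩⟩,⟨false,0,⟨0,[]⟩,⟨0,[]⟩⟩,[.o ⟨false,0,⟨0,[(21,0)]⟩,⟨1,[(17,0),(4,1),(1,0)]⟩⟩,.a ⟨true,0,⟨0,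
  [(0,0)]⟩,⟨0,[(22,0)]⟩⟩ ⟨false,0,⟨0,[(14,0)]⟩,⟨1,[(3,0),(4,0),(2,0),(11,0),(0,0)]⟩⟩ ⟨true,0,⟨0,[(8,
  0),(5,0),(5,0),(0,0)]⟩,⟨1,[(3,0),(11,0),(0,0),(5,1)]⟩⟩,.e ⟨false,0,⟨1,[(12,0),(0,0),(0,1)]⟩,⟨1,
  [(3,0),(4,0),(2,0),(8,1),(2,1)]⟩⟩ ⟨false,0,⟨0,[(8,0),(5,0),(5,0),(0,0)]⟩,⟨1,[(3,0),(11,0),(0,0),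
  (5,1),(0,0),(0,0)]⟩⟩,.o ⟨false,0,⟨1,[(3,0),(11,0),(0,0)]⟩,⟨1,[(9,1),(7,0),(5,0)]⟩⟩]⟩) (.Q [0,0,0,
  -1,0,0,-1,-1,0,-1,1] (.p true [0,0,1] [1] (⟨0,[(16,0)]⟩,⟨0,[(15,0)]⟩) .k 1 (⟨0,[]⟩,⟨0,[]⟩) .k .k)
  (.R ⟨2,true,false,false,[0,1],[1,0,-1],[0,1,1],(⟨0,[]⟩,⟨0,[]⟩),(⟨0,[(16,0)]⟩,⟨0,[(17,0)]⟩),⟨0,[]⟩,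
  .k,.k,.k,.k,.k,.k,⟨false,0,⟨0,[(15,0),(11,0)]⟩,⟨1,[(4,0),(4,0),(2,0),(8,1),(2,1)]⟩⟩,⟨true,0,⟨0,
  [(10,0)]⟩,⟨1,[(4,0),(11,0),(0,0)]⟩⟩,⟨false,0,⟨0,[(23,0)]⟩,⟨0,[(22,0),(2,0)]⟩⟩,⟨true,0,⟨0,[(0,0)]⟩,
  ⟨0,[(3,0),(0,0),(10,0)]⟩⟩,⟨true,0,⟨0,[(27,0)]⟩,⟨0,[]⟩⟩,⟨false,1,⟨0,[(9,0),(15,0)]⟩,⟨1,[(4,0),(10,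
  1),(0,0),(0,0)]⟩⟩,[]⟩) (.Q [0,0,0,0,0,0,-1,0,0,0,1] (.p true [0,0,1] [] (⟨0,[(17,0)]⟩,⟨0,[(16,
  0)]⟩) .k 0 (⟨0,[]⟩,⟨0,[]⟩) .k .k) (.R ⟨0,false,false,true,[1,0,-1],[0,0,1],[1],(⟨0,[(17,0)]⟩,⟨0,
  [(18,0)]⟩),(⟨0,[(18,0)]⟩,⟨0,[(17,0)]⟩),⟨0,[(3,0)]⟩,.k,.k,.k,.k,.k,.k,⟨false,1,⟨1,[(5,0),(4,0),(2,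
  0),(8,1),(2,1)]⟩,⟨0,[(16,0),(11,0)]⟩⟩,⟨true,0,⟨0,[(5,0)]⟩,⟨0,[(0,0),(10,0)]⟩⟩,⟨true,0,⟨0,[(16,
  0)]⟩,⟨1,[(5,0),(4,0),(2,0)]⟩⟩,⟨false,0,⟨0,[(5,0),(10,1)]⟩,⟨1,[(10,1),(2,1),(8,1),(2,0),(0,0)]⟩⟩,
  ⟨false,0,⟨0,[]⟩,⟨0,[]⟩⟩,⟨false,0,⟨0,[]⟩,⟨0,[]⟩⟩,[.o ⟨false,0,⟨0,[(12,0)]⟩,⟨0,[(10,0),(15,0)]⟩⟩,.o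
  ⟨false,0,⟨0,[(1,0),(0,0)]⟩,⟨1,[(13,1),(5,0),(6,0)]⟩⟩,.a ⟨true,0,⟨0,[(0,0)]⟩,⟨1,[(5,0),(11,0),(0,
  0)]⟩⟩ ⟨true,0,⟨0,[]⟩,⟨0,[(28,0)]⟩⟩ ⟨false,0,⟨0,[(5,0),(10,0)]⟩,⟨0,[(0,0),(9,0),(15,0)]⟩⟩,.o
  ⟨false,0,⟨0,[(11,0)]⟩,⟨7,[(5,3),(0,0),(0,0),(11,1),(5,3)]⟩⟩]⟩) (.Q [0,-1,0,-1,0,0,1,1,0,0,-1] (.p
  false [0,0,1] [] (⟨0,[(18,0)]⟩,⟨0,[(17,0)]⟩) .k 0 (⟨0,[]⟩,⟨0,[]⟩) .k .k) (.R ⟨2,true,false,false,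
  [0,1],[0,0,1],[0,0,1],(⟨0,[]⟩,⟨0,[]⟩),(⟨0,[(19,0)]⟩,⟨0,[(18,0)]⟩),⟨0,[]⟩,.k,.k,.k,.k,.k,.k,⟨true,
  0,⟨3,[(6,0),(4,0),(2,2),(0,1),(7,1)]⟩,⟨0,[(17,0)]⟩⟩,⟨false,0,⟨0,[(1,0)]⟩,⟨0,[(16,0),(9,0)]⟩⟩,
  ⟨true,0,⟨0,[(25,0)]⟩,⟨0,[(24,0)]⟩⟩,⟨false,0,⟨0,[(0,0)]⟩,⟨0,[(14,0),(9,0),(2,0)]⟩⟩,⟨false,1,⟨3,[(7,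
  0),(0,0),(18,1)]⟩,⟨0,[]⟩⟩,⟨true,0,⟨0,[(0,0),(23,0)]⟩,⟨0,[(14,0)]⟩⟩,[]⟩) (.Q [0,0,0,0,0,-1,0,0,0,0,
  1] (.ed false [1,-1,1] .k) (.Q [0,-1,0,-1,0,0,1,1,0,1,-1] (.p false [0,0,1] [1] (⟨0,[(20,0)]⟩,⟨0,
  [(19,0)]⟩) .k 1 (⟨0,[]⟩,⟨0,[]⟩) .k .k) (.R ⟨2,true,false,true,[0,1],[1,1,-1],[0,1,1],(⟨0,[]⟩,⟨0,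
  []⟩),(⟨0,[(20,0),(3,0)]⟩,⟨0,[(1,0)]⟩),⟨0,[]⟩,.k,.k,.k,.k,.k,.k,⟨true,0,⟨0,[(19,0),(7,0)]⟩,⟨1,[(2,
  1),(0,0),(13,0),(7,0)]⟩⟩,⟨false,1,⟨0,[(14,0),(13,0)]⟩,⟨1,[(8,0),(11,0),(0,0)]⟩⟩,⟨false,0,⟨0,[(27,
  0)]⟩,⟨0,[(26,0),(2,0)]⟩⟩,⟨true,0,⟨0,[(13,0)]⟩,⟨1,[(0,0),(3,0),(26,0)]⟩⟩,⟨true,0,⟨0,[(31,0)]⟩,⟨0,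
  []⟩⟩,⟨false,1,⟨1,[(2,1),(19,0),(6,0)]⟩,⟨0,[(0,0)]⟩⟩,[]⟩) (.I [0,0,-1,-1,0,0,0,0,1] (.Q [0,0,0,0,0,
  1,0,0,0,0,0,-1] (.p false [0,0,0,1] [] (⟨0,[(13,0)]⟩,⟨1,[(12,0),(8,0),(0,0)]⟩) .k 0 (⟨0,[]⟩,⟨0,
  []⟩) .k .k) (.R ⟨0,false,false,false,[0,0,0,1],[1,-1],[1,0,0,0,0,0,0,0,1],(⟨0,[(14,0)]⟩,⟨1,[(13,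
  0),(8,0),(0,0)]⟩),(⟨0,[(25,0)]⟩,⟨0,[(26,0)]⟩),⟨0,[(0,0)]⟩,.k,.k,(.r 0 ⟨0,[(1,0)]⟩ ⟨7,[(4,3),(1,3),
  (4,4),(0,0),(3,3),(2,3),(11,1)]⟩),(.r 0 ⟨2,[(1,2),(2,1),(1,1),(9,1),(2,1),(7,1),(0,1)]⟩ ⟨0,[(1,0),
  (9,0)]⟩),.k,.k,⟨false,0,⟨0,[(1,0),(25,0),(0,1)]⟩,⟨0,[(1,0),(9,0)]⟩⟩,⟨true,0,⟨0,[(5,0),(8,0),(1,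
  0)]⟩,⟨1,[(13,0),(8,0),(0,0)]⟩⟩,⟨true,0,⟨0,[]⟩,⟨0,[(33,0)]⟩⟩,⟨false,1,⟨1,[(7,1),(3,0),(2,1),(16,
  0)]⟩,⟨5,[(1,5),(2,3),(1,3),(6,2),(2,0),(2,0),(7,3),(0,3)]⟩⟩,⟨false,0,⟨0,[]⟩,⟨0,[]⟩⟩,⟨false,0,⟨0,
  []⟩,⟨0,[]⟩⟩,[.o ⟨false,0,⟨0,[(7,0)]⟩,⟨3,[(11,0),(0,0),(15,3),(2,1)]⟩⟩,.o ⟨false,1,⟨1,[(24,0),(4,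
  1),(1,0)]⟩,⟨0,[(28,0)]⟩⟩,.a ⟨true,0,⟨1,[(13,0),(8,0),(0,0)]⟩,⟨0,[(14,0)]⟩⟩ ⟨false,0,⟨0,[(1,0),(25,
  0),(0,0)]⟩,⟨3,[(11,2),(0,0)]⟩⟩ ⟨true,0,⟨0,[(7,0),(6,0)]⟩,⟨1,[(6,0),(6,0),(4,0),(9,0)]⟩⟩,.o ⟨false,
  0,⟨1,[(13,0),(2,0),(2,0)]⟩,⟨1,[(14,1),(9,0),(5,0)]⟩⟩]⟩) (.R ⟨1,false,false,false,[0,0,0,1],[1,-1],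
  [1,0,0,0,0,0,0,0,1],(⟨0,[(14,0)]⟩,⟨1,[(13,0),(8,0),(0,0)]⟩),(⟨0,[(25,0)]⟩,⟨0,[(26,0)]⟩),⟨0,[(0,
  0)]⟩,.k,.k,(.r 0 ⟨0,[(1,0)]⟩ ⟨7,[(4,3),(1,3),(4,4),(0,0),(3,3),(2,3),(11,1)]⟩),(.r 0 ⟨2,[(1,2),(2,
  1),(1,1),(9,1),(2,1),(7,1),(0,1)]⟩ ⟨0,[(1,0),(9,0)]⟩),.k,.k,⟨false,0,⟨0,[(1,0),(25,0),(0,1)]⟩,⟨0,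
  [(1,0),(9,0)]⟩⟩,⟨true,0,⟨0,[(5,0),(8,0),(1,0)]⟩,⟨1,[(13,0),(8,0),(0,0)]⟩⟩,⟨true,0,⟨0,[]⟩,⟨0,[(33,
  0)]⟩⟩,⟨false,1,⟨1,[(7,1),(3,0),(2,1),(16,0)]⟩,⟨5,[(1,5),(2,3),(1,3),(6,2),(2,0),(2,0),(7,3),(0,
  3)]⟩⟩,⟨false,1,⟨0,[(28,0),(2,0)]⟩,⟨0,[(29,0)]⟩⟩,⟨false,1,⟨5,[(2,1),(3,1),(0,3),(3,2),(2,5),(9,0),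
  (2,3),(2,1)]⟩,⟨7,[(1,7),(2,3),(1,3),(6,3),(5,2),(0,2),(6,1)]⟩⟩,[.o ⟨false,0,⟨0,[(7,0)]⟩,⟨3,[(11,
  0),(0,0),(15,3),(2,1)]⟩⟩,.o ⟨false,1,⟨1,[(24,0),(4,1),(1,0)]⟩,⟨0,[(28,0)]⟩⟩,.a ⟨true,0,⟨1,[(13,0),
  (8,0),(0,0)]⟩,⟨0,[(14,0)]⟩⟩ ⟨false,0,⟨0,[(1,0),(25,0),(0,0)]⟩,⟨3,[(11,2),(0,0)]⟩⟩ ⟨true,0,⟨0,[(7,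
  0),(6,0)]⟩,⟨1,[(6,0),(6,0),(4,0),(9,0)]⟩⟩,.o ⟨false,0,⟨1,[(13,0),(2,0),(2,0)]⟩,⟨1,[(14,1),(9,0),
  (5,0)]⟩⟩]⟩)) (.I [1,-1,0,0,0,0,0,0,-1] (.Q [0,0,0,0,0,1,0,0,0,0,0,-1] (.p false [0,0,0,1] [] (⟨0,
  [(14,0)]⟩,⟨1,[(13,0),(8,0),(0,0)]⟩) .k 0 (⟨0,[]⟩,⟨0,[]⟩) .k .k) (.R ⟨0,false,false,false,[0,0,0,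
  1],[0,0,1],[0,1,0,0,0,0,0,0,1],(⟨0,[(15,0)]⟩,⟨1,[(14,0),(8,0),(0,0)]⟩),(⟨0,[(24,0)]⟩,⟨0,[(23,
  0)]⟩),⟨0,[(0,0)]⟩,.k,.k,(.r (-1) ⟨1,[(13,0),(16,1),(0,0)]⟩ ⟨0,[(1,0),(1,2),(0,4),(1,2),(1,1),(13,
  2),(0,4),(3,4),(0,0)]⟩),.k,.k,.k,⟨false,1,⟨1,[(11,0),(1,0),(2,0),(2,0),(11,0)]⟩,⟨0,[(1,0),(20,
  0)]⟩⟩,⟨true,0,⟨0,[(6,0),(8,0)]⟩,⟨1,[(14,0),(2,0),(3,0)]⟩⟩,⟨true,0,⟨0,[(34,0)]⟩,⟨0,[]⟩⟩,⟨false,0,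
  ⟨0,[(1,0),(5,0),(0,0),(6,0)]⟩,⟨1,[(13,0),(0,0),(1,0),(2,0),(12,0)]⟩⟩,⟨false,0,⟨0,[]⟩,⟨0,[]⟩⟩,
  ⟨false,0,⟨0,[]⟩,⟨0,[]⟩⟩,[.o ⟨false,0,⟨0,[(7,0),(0,0)]⟩,⟨1,[(19,1),(5,0),(6,0)]⟩⟩,.o ⟨false,1,⟨0,
  [(18,0),(13,0)]⟩,⟨0,[(16,0)]⟩⟩,.a ⟨true,0,⟨1,[(14,0),(8,0),(0,0)]⟩,⟨0,[(15,0)]⟩⟩ ⟨false,1,⟨3,[(12,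
  0),(0,2)]⟩,⟨0,[(1,0)]⟩⟩ ⟨true,0,⟨0,[(7,0),(0,0),(6,0)]⟩,⟨1,[(14,0),(1,0),(2,0)]⟩⟩,.o ⟨false,0,⟨1,
  [(14,0),(2,0),(2,0)]⟩,⟨1,[(15,1),(9,0),(5,0)]⟩⟩]⟩) (.I [0,0,-1,-1,0,0,0,1,-1] (.R ⟨1,false,false,
  false,[1,0,0,-1],[1,-1],[1,0,0,0,0,0,0,0,-1],(⟨1,[(15,0),(8,0),(0,0)]⟩,⟨0,[(16,0)]⟩),(⟨0,[(27,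
  0)]⟩,⟨0,[(28,0)]⟩),⟨0,[(1,0),(13,0)]⟩,.k,.k,(.x 0 ⟨1,[(1,1),(13,0),(2,0),(2,0)]⟩ ⟨3,[(13,0),(0,0),
  (13,3),(3,1)]⟩),(.r 0 ⟨0,[(0,0),(0,11),(2,3),(2,3),(1,1),(5,5),(7,2),(4,11),(0,1)]⟩ ⟨1,[(14,0),
  (16,1),(0,0)]⟩),.k,.k,⟨false,0,⟨0,[(2,0),(27,0)]⟩,⟨1,[(14,0),(16,1),(0,0)]⟩⟩,⟨true,0,⟨1,[(15,0),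
  (2,0),(2,0)]⟩,⟨0,[(16,0)]⟩⟩,⟨true,0,⟨0,[]⟩,⟨0,[(35,0)]⟩⟩,⟨false,1,⟨1,[(9,0),(4,0),(0,0),(15,0),(1,
  0)]⟩,⟨0,[(2,0),(13,0),(13,0)]⟩⟩,⟨false,1,⟨0,[(30,0),(2,0)]⟩,⟨0,[(31,0)]⟩⟩,⟨false,1,⟨3,[(14,1),(0,
  1),(10,0),(2,1),(2,0)]⟩,⟨5,[(0,1),(1,1),(0,1),(8,0),(3,5),(0,0),(2,0)]⟩⟩,[.o ⟨false,0,⟨0,[(9,0)]⟩,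
  ⟨3,[(13,0),(0,0),(15,3),(2,1)]⟩⟩,.o ⟨false,1,⟨1,[(26,0),(4,1),(1,0)]⟩,⟨0,[(30,0)]⟩⟩,.a ⟨true,0,⟨0,
  [(16,0)]⟩,⟨1,[(15,0),(8,0),(0,0)]⟩⟩ ⟨false,0,⟨0,[(2,0)]⟩,⟨3,[(13,0),(0,2)]⟩⟩ ⟨true,0,⟨1,[(9,0),(5,
  0),(15,0)]⟩,⟨0,[(16,0),(13,0)]⟩⟩,.o ⟨false,0,⟨0,[(7,0),(8,0),(1,0)]⟩,⟨7,[(13,0),(0,0),(0,3),(10,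
  1),(5,3)]⟩⟩]⟩) (.R ⟨1,false,false,false,[1,0,0,-1],[1,-1],[1,0,0,0,0,0,0,0,-1],(⟨1,[(15,0),(8,0),
  (0,0)]⟩,⟨0,[(16,0)]⟩),(⟨0,[(27,0)]⟩,⟨0,[(28,0)]⟩),⟨0,[(1,0),(13,0)]⟩,.k,.k,(.r (-1) ⟨1,[(13,0),
  (17,1),(0,0)]⟩ ⟨0,[(0,0),(22,0)]⟩),(.r 0 ⟨0,[(1,9),(0,0),(1,2),(2,2),(1,1),(5,4),(7,2),(4,9),(0,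
  0)]⟩ ⟨1,[(14,0),(16,1),(0,0)]⟩),.k,.k,⟨false,0,⟨0,[(2,0),(27,0)]⟩,⟨1,[(14,0),(16,1),(0,0)]⟩⟩,
  ⟨true,0,⟨1,[(15,0),(2,0),(2,0)]⟩,⟨0,[(16,0)]⟩⟩,⟨true,0,⟨0,[]⟩,⟨0,[(35,0)]⟩⟩,⟨false,1,⟨1,[(9,0),(4,
  0),(0,0),(15,0),(1,0)]⟩,⟨0,[(2,0),(13,0),(13,0)]⟩⟩,⟨false,1,⟨0,[(30,0),(2,0)]⟩,⟨0,[(31,0)]⟩⟩,
  ⟨false,1,⟨3,[(14,1),(0,1),(10,0),(2,1),(2,0)]⟩,⟨0,[(2,0),(13,0),(18,0)]⟩⟩,[.o ⟨false,0,⟨0,[(9,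
  0)]⟩,⟨3,[(13,0),(0,0),(15,3),(2,1)]⟩⟩,.o ⟨false,1,⟨1,[(26,0),(4,1),(1,0)]⟩,⟨0,[(30,0)]⟩⟩,.a ⟨true,
  0,⟨0,[(16,0)]⟩,⟨1,[(15,0),(8,0),(0,0)]⟩⟩ ⟨false,0,⟨0,[(2,0)]⟩,⟨3,[(13,0),(0,2)]⟩⟩ ⟨true,0,⟨1,[(9,
  0),(5,0),(15,0)]⟩,⟨0,[(16,0),(13,0)]⟩⟩,.o ⟨false,0,⟨0,[(7,0),(8,0),(1,0)]⟩,⟨7,[(13,0),(0,0),(0,3),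
  (10,1),(5,3)]⟩⟩]⟩))) (.I [1,-1,0,0,0,0,0,0,1] (.Q [0,0,0,0,0,1,0,0,0,0,0,-1] (.p false [0,0,0,1]
  [] (⟨0,[(15,0)]⟩,⟨1,[(14,0),(8,0),(0,0)]⟩) .k 0 (⟨0,[]⟩,⟨0,[]⟩) .k .k) (.R ⟨0,false,false,false,
  [0,0,0,1],[1,-1],[1,0,0,0,0,0,0,0,1],(⟨0,[(16,0)]⟩,⟨1,[(15,0),(8,0),(0,0)]⟩),(⟨0,[(27,0)]⟩,⟨0,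
  [(28,0)]⟩),⟨0,[(0,0)]⟩,.k,.k,(.x 0 ⟨0,[(7,0),(10,0),(8,0)]⟩ ⟨3,[(13,0),(0,0),(13,3),(3,1)]⟩),(.r
  0 ⟨1,[(1,1),(19,0),(0,0),(7,1)]⟩ ⟨1,[(13,0),(17,1),(0,0)]⟩),.k,.k,⟨false,0,⟨0,[(1,0),(28,0)]⟩,⟨1,
  [(13,0),(17,1),(0,0)]⟩⟩,⟨true,0,⟨0,[(7,0),(8,0),(1,0)]⟩,⟨1,[(15,0),(8,0),(0,0)]⟩⟩,⟨true,0,⟨0,[]⟩,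
  ⟨0,[(35,0)]⟩⟩,⟨false,1,⟨1,[(9,1),(3,0),(2,1),(16,0)]⟩,⟨3,[(1,2),(0,0),(3,1),(1,1),(6,1)]⟩⟩,⟨false,
  0,⟨0,[]⟩,⟨0,[]⟩⟩,⟨false,0,⟨0,[]⟩,⟨0,[]⟩⟩,[.o ⟨false,0,⟨0,[(9,0)]⟩,⟨3,[(13,0),(0,0),(15,3),(2,
  1)]⟩⟩,.o ⟨false,1,⟨1,[(26,0),(4,1),(1,0)]⟩,⟨0,[(30,0)]⟩⟩,.a ⟨true,0,⟨1,[(15,0),(8,0),(0,0)]⟩,⟨0,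
  [(16,0)]⟩⟩ ⟨false,0,⟨0,[(1,0)]⟩,⟨3,[(13,2),(0,0)]⟩⟩ ⟨true,0,⟨0,[(9,0),(6,0)]⟩,⟨1,[(8,0),(6,0),(4,
  0),(9,0)]⟩⟩,.o ⟨false,0,⟨1,[(15,0),(2,0),(2,0)]⟩,⟨1,[(16,1),(9,0),(5,0)]⟩⟩]⟩) (.R ⟨1,false,false,
  false,[0,0,0,1],[1,-1],[1,0,0,0,0,0,0,0,1],(⟨0,[(16,0)]⟩,⟨1,[(15,0),(8,0),(0,0)]⟩),(⟨0,[(27,0)]⟩,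
  ⟨0,[(28,0)]⟩),⟨0,[(0,0)]⟩,.k,.k,(.x 0 ⟨1,[(0,1),(14,0),(2,0),(2,0)]⟩ ⟨3,[(13,0),(0,0),(13,3),(3,
  1)]⟩),(.r 0 ⟨1,[(1,1),(19,0),(0,0),(7,1)]⟩ ⟨1,[(13,0),(17,1),(0,0)]⟩),.k,.k,⟨false,0,⟨0,[(1,0),
  (28,0)]⟩,⟨1,[(13,0),(17,1),(0,0)]⟩⟩,⟨true,0,⟨0,[(7,0),(8,0),(1,0)]⟩,⟨1,[(15,0),(8,0),(0,0)]⟩⟩,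
  ⟨true,0,⟨0,[]⟩,⟨0,[(35,0)]⟩⟩,⟨false,1,⟨1,[(9,1),(3,0),(2,1),(16,0)]⟩,⟨3,[(1,2),(0,0),(3,1),(1,1),
  (6,1)]⟩⟩,⟨false,1,⟨0,[(30,0),(2,0)]⟩,⟨0,[(31,0)]⟩⟩,⟨false,1,⟨3,[(3,1),(5,1),(3,0),(2,3),(9,0),(2,
  1),(2,1)]⟩,⟨1,[(1,0),(0,0),(12,0),(8,0),(0,0)]⟩⟩,[.o ⟨false,0,⟨0,[(9,0)]⟩,⟨3,[(13,0),(0,0),(15,3),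
  (2,1)]⟩⟩,.o ⟨false,1,⟨1,[(26,0),(4,1),(1,0)]⟩,⟨0,[(30,0)]⟩⟩,.a ⟨true,0,⟨1,[(15,0),(8,0),(0,0)]⟩,
  ⟨0,[(16,0)]⟩⟩ ⟨false,0,⟨0,[(1,0)]⟩,⟨3,[(13,2),(0,0)]⟩⟩ ⟨true,0,⟨0,[(9,0),(6,0)]⟩,⟨1,[(8,0),(6,0),
  (4,0),(9,0)]⟩⟩,.o ⟨false,0,⟨1,[(15,0),(2,0),(2,0)]⟩,⟨1,[(16,1),(9,0),(5,0)]⟩⟩]⟩)) (.Q [0,1,0,0,0,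
  0,-1,-1,-1,-1,1,1] (.p true [0,0,1] [1,0,0,-1] (⟨0,[(24,0)]⟩,⟨0,[(23,0)]⟩) .k 2 (⟨1,[(14,0),(8,0),
  (0,0)]⟩,⟨0,[(15,0)]⟩) .k (.x 0 ⟨1,[(4,0),(4,0),(1,0)]⟩ ⟨3,[(12,0),(0,0),(3,3),(5,3),(7,1)]⟩)) (.K
  ⟨2,[1,0,0,-1],0,0,(⟨1,[(15,0),(8,0),(0,0)]⟩,⟨0,[(16,0)]⟩),.k,(.r (-1) ⟨1,[(13,0),(17,1),(0,0)]⟩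
  ⟨0,[(2,0),(26,0),(0,0)]⟩),(.r 0 ⟨1,[(0,1),(3,1),(0,2),(1,3),(7,0),(7,3),(0,2),(3,2),(0,1)]⟩ ⟨1,
  [(14,0),(16,1),(0,0)]⟩),.k,.k,[⟨1,[(12,0),(2,0)]⟩,⟨0,[(7,0),(8,0)]⟩,⟨1,[(12,0),(2,0),(6,1)]⟩,⟨0,
  [(7,0),(8,0),(1,0)]⟩,⟨1,[(2,1),(12,0),(8,0),(0,0)]⟩,⟨0,[(0,0),(7,0),(0,0)]⟩]⟩) (.K ⟨2,[0,0,0,1],0,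
  0,(⟨0,[(16,0)]⟩,⟨1,[(15,0),(8,0),(0,0)]⟩),.k,(.r (-1) ⟨1,[(14,0),(16,1),(0,0)]⟩ ⟨0,[(1,0),(2,0),
  (0,0),(1,0),(15,0),(0,0),(3,0),(0,0)]⟩),(.r 0 ⟨0,[(2,0),(26,0),(0,0)]⟩ ⟨1,[(13,0),(17,1),(0,0)]⟩),
  .k,.k,[⟨0,[(7,0),(8,0)]⟩,⟨1,[(12,0),(2,0)]⟩,⟨1,[(16,1),(4,0),(0,0)]⟩,⟨1,[(15,0),(2,0),(2,0)]⟩,⟨0,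
  [(1,0),(14,0)]⟩,⟨9,[(0,1),(1,7),(1,2),(4,2),(5,3),(3,0)]⟩]⟩)))))) (.Q [0,0,0,0,0,0,-1,0,0,1,1]
  (.p true [1,-1,1] [] (⟨0,[(20,0),(1,0)]⟩,⟨0,[(0,0)]⟩) .k 0 (⟨0,[]⟩,⟨0,[]⟩) .k .k) (.K ⟨0,[1,-1,1],
  0,0,(⟨0,[(21,0),(1,0)]⟩,⟨0,[(1,0)]⟩),.k,(.r (-1) ⟨0,[(19,0),(7,1),(0,0)]⟩ ⟨0,[(2,0),(14,0),(7,0),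
  (0,0)]⟩),.k,.k,.k,[⟨0,[(0,0)]⟩,⟨0,[(3,0)]⟩,⟨2,[(0,1),(1,2),(5,0)]⟩,⟨0,[(5,0),(9,0)]⟩]⟩) (.I [1,-1,
  0,0,0,0,0,0,-1] (.R ⟨0,false,false,false,[0,0,0,1],[0,0,1],[0,1,0,0,0,0,0,0,1],(⟨0,[(13,0)]⟩,⟨1,
  [(12,0),(8,0),(0,0)]⟩),(⟨0,[(22,0)]⟩,⟨0,[(21,0)]⟩),⟨1,[(2,0),(4,0),(4,0)]⟩,.k,.k,(.r (-1) ⟨1,[(11,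
  0),(16,1),(0,0)]⟩ ⟨1,[(0,1),(17,0),(0,0),(7,1)]⟩),.k,.k,.k,⟨false,1,⟨1,[(9,0),(1,0),(2,0),(2,0),
  (11,0)]⟩,⟨0,[(0,0),(19,0)]⟩⟩,⟨true,0,⟨2,[(1,0),(7,0),(3,2)]⟩,⟨1,[(12,0),(2,0),(3,0)]⟩⟩,⟨true,0,⟨0,
  [(32,0)]⟩,⟨0,[]⟩⟩,⟨false,0,⟨2,[(0,2),(0,0),(7,0),(3,2),(6,2)]⟩,⟨1,[(11,0),(0,0),(1,0),(2,0),(12,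
  0)]⟩⟩,⟨false,0,⟨0,[]⟩,⟨0,[]⟩⟩,⟨false,0,⟨0,[]⟩,⟨0,[]⟩⟩,[.o ⟨false,0,⟨2,[(1,0),(7,0),(10,2)]⟩,⟨1,
  [(17,1),(5,0),(6,0)]⟩⟩,.o ⟨false,1,⟨0,[(16,0),(13,0)]⟩,⟨0,[(14,0)]⟩⟩,.a ⟨true,0,⟨1,[(12,0),(8,0),
  (0,0)]⟩,⟨0,[(13,0)]⟩⟩ ⟨false,1,⟨3,[(10,0),(0,2)]⟩,⟨0,[(0,0)]⟩⟩ ⟨true,0,⟨2,[(1,0),(7,0),(3,2),(6,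
  2)]⟩,⟨1,[(12,0),(1,0),(2,0)]⟩⟩,.o ⟨false,0,⟨1,[(12,0),(2,0),(2,0)]⟩,⟨1,[(13,1),(9,0),(5,0)]⟩⟩]⟩)
  (.Q [0,1,0,0,0,0,0,0,-1,-1,0,1] (.p true [0,0,0,1] [1] (⟨0,[(13,0)]⟩,⟨1,[(12,0),(8,0),(0,0)]⟩) .k
  1 (⟨0,[]⟩,⟨0,[]⟩) .k .k) (.K ⟨2,[1,0,0,-1],0,0,(⟨1,[(13,0),(8,0),(0,0)]⟩,⟨0,[(14,0)]⟩),.k,(.r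
  (-1) ⟨1,[(11,0),(17,1),(0,0)]⟩ ⟨0,[(1,0),(25,0),(0,0)]⟩),(.r 0 ⟨7,[(0,7),(3,3),(1,3),(6,3),(5,0),
  (0,0),(6,5)]⟩ ⟨1,[(12,0),(16,1),(0,0)]⟩),.k,.k,[⟨1,[(10,0),(2,0)]⟩,⟨2,[(2,0),(7,0),(3,2)]⟩,⟨1,
  [(10,0),(2,0),(6,1)]⟩,⟨2,[(2,0),(11,2),(1,1),(2,0)]⟩,⟨1,[(1,1),(11,0),(8,0),(0,0)]⟩,⟨0,[(0,
  0)]⟩]⟩) (.I [0,0,-1,-1,0,0,0,0,1] (.R ⟨0,false,false,false,[0,0,0,1],[1,-1],[1,0,0,0,0,0,0,0,1],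
  (⟨0,[(15,0)]⟩,⟨1,[(14,0),(8,0),(0,0)]⟩),(⟨0,[(26,0)]⟩,⟨0,[(27,0)]⟩),⟨1,[(4,0),(4,0),(4,0)]⟩,.k,.k,
  (.r 0 ⟨0,[(0,0)]⟩ ⟨7,[(5,3),(1,3),(4,4),(0,0),(3,3),(2,3),(11,1)]⟩),(.r 0 ⟨0,[(2,0),(25,0),(0,
  0)]⟩ ⟨0,[(0,0),(11,0)]⟩),.k,.k,⟨false,0,⟨0,[(0,0),(27,0),(0,1)]⟩,⟨0,[(0,0),(11,0)]⟩⟩,⟨true,0,⟨2,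
  [(3,0),(11,2),(1,1),(2,0)]⟩,⟨1,[(14,0),(8,0),(0,0)]⟩⟩,⟨true,0,⟨0,[]⟩,⟨0,[(34,0)]⟩⟩,⟨false,1,⟨1,
  [(8,1),(3,0),(2,1),(16,0)]⟩,⟨0,[(1,0),(27,0)]⟩⟩,⟨false,0,⟨0,[]⟩,⟨0,[]⟩⟩,⟨false,0,⟨0,[]⟩,⟨0,[]⟩⟩,
  [.o ⟨false,0,⟨0,[(8,0)]⟩,⟨3,[(12,0),(0,0),(15,3),(2,1)]⟩⟩,.o ⟨false,1,⟨1,[(25,0),(4,1),(1,0)]⟩,⟨0,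
  [(29,0)]⟩⟩,.a ⟨true,0,⟨1,[(14,0),(8,0),(0,0)]⟩,⟨0,[(15,0)]⟩⟩ ⟨false,0,⟨0,[(0,0),(27,0),(0,0)]⟩,⟨3,
  [(12,2),(0,0)]⟩⟩ ⟨true,0,⟨0,[(8,0),(6,0)]⟩,⟨1,[(7,0),(6,0),(4,0),(9,0)]⟩⟩,.o ⟨false,0,⟨1,[(14,0),
  (2,0),(2,0)]⟩,⟨1,[(15,1),(9,0),(5,0)]⟩⟩]⟩) (.R ⟨0,false,false,false,[0,0,0,1],[1,-1],[0,0,0,-1,0,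
  0,0,0,1],(⟨0,[(15,0)]⟩,⟨1,[(14,0),(8,0),(0,0)]⟩),(⟨0,[(26,0)]⟩,⟨0,[(27,0)]⟩),⟨1,[(4,0),(4,0),(4,
  0)]⟩,.k,.k,(.x 0 ⟨2,[(3,0),(13,1),(2,0),(5,2)]⟩ ⟨3,[(12,0),(0,0),(13,3),(3,1)]⟩),(.r 0 ⟨0,[(2,0),
  (25,0),(0,0)]⟩ ⟨1,[(12,0),(17,1),(0,0)]⟩),.k,.k,⟨false,0,⟨2,[(1,1),(0,0),(0,0),(4,0),(1,0),(4,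
  1)]⟩,⟨1,[(12,0),(18,0)]⟩⟩,⟨true,0,⟨2,[(3,0),(11,2),(1,1),(2,0)]⟩,⟨1,[(14,0),(8,0),(0,0)]⟩⟩,⟨true,
  0,⟨0,[(30,0)]⟩,⟨0,[(29,0)]⟩⟩,⟨false,1,⟨1,[(8,1),(3,0),(2,1),(16,0)]⟩,⟨0,[(1,0),(27,0)]⟩⟩,⟨false,0,
  ⟨0,[]⟩,⟨0,[]⟩⟩,⟨false,0,⟨0,[]⟩,⟨0,[]⟩⟩,[.o ⟨false,0,⟨0,[(8,0)]⟩,⟨3,[(12,0),(0,0),(15,3),(2,1)]⟩⟩,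
  .o ⟨false,1,⟨1,[(25,0),(4,1),(1,0)]⟩,⟨0,[(29,0)]⟩⟩,.a ⟨true,0,⟨1,[(14,0),(8,0),(0,0)]⟩,⟨0,[(15,
  0)]⟩⟩ ⟨false,0,⟨0,[(1,0),(6,0),(6,0)]⟩,⟨1,[(12,0),(16,1),(2,0)]⟩⟩ ⟨true,0,⟨0,[(8,0),(6,0)]⟩,⟨1,
  [(7,0),(6,0),(4,0),(9,0)]⟩⟩,.o ⟨false,0,⟨1,[(14,0),(2,0),(2,0)]⟩,⟨1,[(15,1),(9,0),(5,
  0)]⟩⟩]⟩)))))))))) (.Q [0,0,0,-1,0,0,-2,-2,0,-1,2] (.p true [0,0,1] [1,0,-1] (⟨0,[(15,0)]⟩,⟨0,[(14,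
  0)]⟩) .k 2 (⟨0,[(14,0)]⟩,⟨0,[(15,0)]⟩) .k (.r 0 ⟨0,[(13,1)]⟩ ⟨0,[(2,0),(4,0),(2,0),(12,0)]⟩)) (.R
  ⟨1,true,false,true,[1,0,-1],[0,0,1],[1,0,0,0,0,0,0,-1],(⟨0,[(15,0)]⟩,⟨0,[(16,0)]⟩),(⟨0,[(16,0)]⟩,
  ⟨0,[(15,0)]⟩),⟨0,[(1,0)]⟩,.k,.k,.k,.k,(.r (-1) ⟨3,[(0,3),(2,3),(0,0),(0,0),(17,1)]⟩ ⟨3,[(12,0),(0,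
  0),(0,7),(5,1),(0,3)]⟩),.k,⟨false,1,⟨0,[(0,0),(2,0),(16,0),(0,0),(1,0)]⟩,⟨0,[(14,1),(11,0)]⟩⟩,
  ⟨true,0,⟨0,[(3,0)]⟩,⟨4,[(0,1),(1,1),(6,2),(3,0),(0,3),(5,0)]⟩⟩,⟨true,0,⟨0,[]⟩,⟨0,[(26,0)]⟩⟩,
  ⟨false,0,⟨0,[(3,0),(10,1)]⟩,⟨0,[(0,0),(20,0),(2,0)]⟩⟩,⟨false,1,⟨0,[(21,0),(2,0)]⟩,⟨0,[(22,0)]⟩⟩,
  ⟨true,0,⟨0,[(3,0),(10,1),(6,0)]⟩,⟨0,[(0,0)]⟩⟩,[]⟩) (.Q [0,0,0,0,0,0,1,1,0,0,-1] (.p false [0,0,1]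
  [] (⟨0,[(16,0)]⟩,⟨0,[(15,0)]⟩) .k 0 (⟨0,[]⟩,⟨0,[]⟩) .k .k) (.Q [0,0,0,0,0,0,-1,0,0,0,1] (.p true
  [0,0,1] [] (⟨0,[(17,0)]⟩,⟨0,[(16,0)]⟩) .k 0 (⟨0,[]⟩,⟨0,[]⟩) .k .k) (.R ⟨1,false,false,true,[1,0,
  -1],[0,0,1],[1,1,0,0,0,0,0,-1],(⟨0,[(17,0)]⟩,⟨0,[(18,0)]⟩),(⟨0,[(18,0)]⟩,⟨0,[(17,0)]⟩),⟨0,[(3,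
  0)]⟩,.k,.k,.k,.k,(.r (-1) ⟨0,[(5,0),(4,0),(2,0),(8,0),(1,0),(0,0)]⟩ ⟨4,[(2,2),(1,1),(6,2),(3,0),
  (0,3),(5,0)]⟩),.k,⟨false,1,⟨0,[(5,0),(4,0),(2,0),(8,0),(2,0)]⟩,⟨0,[(16,1)]⟩⟩,⟨true,0,⟨0,[(5,0)]⟩,
  ⟨0,[(0,0),(10,0)]⟩⟩,⟨false,0,⟨0,[]⟩,⟨3,[(6,0),(0,0),(18,1)]⟩⟩,⟨false,0,⟨0,[(2,0),(21,0)]⟩,⟨1,[(10,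
  1),(2,1),(8,1),(2,0),(0,0)]⟩⟩,⟨true,0,⟨0,[(23,0)]⟩,⟨0,[(24,0)]⟩⟩,⟨false,0,⟨0,[(2,0)]⟩,⟨1,[(10,1),
  (2,1),(8,1),(1,1),(0,0),(0,0)]⟩⟩,[.o ⟨false,0,⟨0,[(12,0)]⟩,⟨0,[(10,0),(15,0)]⟩⟩,.o ⟨false,0,⟨0,
  [(1,0)]⟩,⟨1,[(13,1),(5,0),(6,0)]⟩⟩,.a ⟨true,0,⟨0,[(0,0)]⟩,⟨1,[(5,0),(11,0),(0,0)]⟩⟩ ⟨true,0,⟨1,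
  [(5,0),(4,0),(2,0)]⟩,⟨0,[(16,0)]⟩⟩ ⟨false,0,⟨1,[(2,0),(2,0),(18,0)]⟩,⟨0,[(0,0),(9,0),(15,0)]⟩⟩,.o
  ⟨false,0,⟨0,[(11,0)]⟩,⟨7,[(5,3),(0,0),(0,0),(11,1),(5,3)]⟩⟩]⟩) (.Q [0,-1,0,-1,0,0,1,1,0,0,-1] (.p
  false [0,0,1] [] (⟨0,[(18,0)]⟩,⟨0,[(17,0)]⟩) .k 0 (⟨0,[]⟩,⟨0,[]⟩) .k .k) (.R ⟨2,true,false,false,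
  [0,1],[0,0,1],[0,0,1],(⟨0,[]⟩,⟨0,[]⟩),(⟨0,[(19,0)]⟩,⟨0,[(18,0)]⟩),⟨0,[]⟩,.k,.k,.k,.k,.k,.k,⟨true,
  0,⟨3,[(6,0),(4,0),(2,2),(0,1),(7,1)]⟩,⟨0,[(17,0)]⟩⟩,⟨false,0,⟨0,[(1,0)]⟩,⟨0,[(16,0),(9,0)]⟩⟩,
  ⟨true,0,⟨0,[(25,0)]⟩,⟨0,[(24,0)]⟩⟩,⟨false,0,⟨0,[(0,0)]⟩,⟨0,[(14,0),(9,0),(2,0)]⟩⟩,⟨false,1,⟨3,[(7,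
  0),(0,0),(18,1)]⟩,⟨0,[]⟩⟩,⟨true,0,⟨0,[(2,0)]⟩,⟨0,[(14,0)]⟩⟩,[]⟩) (.Q [0,0,0,1,0,0,0,0,0,1] (.pp
  false [-1,1]) (.R ⟨1,false,false,false,[1,0,-1],[1,-1],[1,0,0,0,0,0,0,-1],(⟨0,[(19,0)]⟩,⟨0,[(20,
  0)]⟩),(⟨0,[(22,0)]⟩,⟨0,[(23,0)]⟩),⟨0,[(5,0)]⟩,.k,.k,.k,.k,.k,.k,⟨true,0,⟨1,[(1,1),(0,0),(13,0),(7,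
  0)]⟩,⟨0,[(18,0),(7,0)]⟩⟩,⟨false,0,⟨0,[(2,0)]⟩,⟨0,[(17,0),(9,0)]⟩⟩,⟨true,0,⟨0,[]⟩,⟨0,[(30,0)]⟩⟩,
  ⟨true,0,⟨0,[(3,0),(22,0)]⟩,⟨0,[(1,0)]⟩⟩,⟨false,1,⟨0,[(25,0),(2,0)]⟩,⟨0,[(26,0)]⟩⟩,⟨true,0,⟨0,[(3,
  0)]⟩,⟨0,[(15,0)]⟩⟩,[.a ⟨true,0,⟨0,[(26,0)]⟩,⟨0,[(0,0)]⟩⟩ ⟨false,1,⟨1,[(7,0),(4,0),(2,0),(11,0),(0,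
  0)]⟩,⟨0,[(18,0)]⟩⟩ ⟨true,0,⟨0,[(2,0),(23,0)]⟩,⟨0,[(0,0),(12,0)]⟩⟩,.o ⟨false,1,⟨1,[(21,0),(4,1),(1,
  0)]⟩,⟨0,[(25,0)]⟩⟩,.o ⟨false,1,⟨3,[(8,0),(0,0),(3,3),(13,1)]⟩,⟨0,[(2,0)]⟩⟩,.o ⟨false,0,⟨0,[(13,
  0)]⟩,⟨7,[(7,3),(0,0),(0,0),(11,1),(5,3)]⟩⟩]⟩) (.Q [0,0,0,-1,0,0,-1,-1,0,0,1] (.p true [0,0,1] []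
  (⟨0,[(20,0)]⟩,⟨0,[(19,0)]⟩) .k 0 (⟨0,[]⟩,⟨0,[]⟩) .k .k) (.R ⟨2,true,false,true,[0,1],[0,1,1],[0,0,
  1],(⟨0,[]⟩,⟨0,[]⟩),(⟨0,[(21,0),(2,0)]⟩,⟨0,[(6,0)]⟩),⟨0,[]⟩,.k,.k,.k,.k,.k,.k,⟨false,1,⟨7,[(0,5),
  (0,1),(6,3),(4,1),(11,1),(2,4),(0,2)]⟩,⟨0,[(19,0),(6,0)]⟩⟩,⟨true,0,⟨0,[(3,0)]⟩,⟨0,[(18,0)]⟩⟩,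
  ⟨true,0,⟨0,[(27,0)]⟩,⟨0,[(26,0)]⟩⟩,⟨false,0,⟨0,[(4,0)]⟩,⟨0,[(16,0),(12,0)]⟩⟩,⟨false,1,⟨3,[(9,0),
  (0,0),(18,1)]⟩,⟨0,[]⟩⟩,⟨true,0,⟨0,[(4,0),(21,0)]⟩,⟨0,[(0,0)]⟩⟩,[]⟩) (.Q [0,0,0,0,0,1,0,0,0,0,-1]
  (.ed true [1,-1,1] .k) (.Q [0,0,0,0,0,0,-1,0,0,1,1] (.p true [1,-1,1] [] (⟨0,[(22,0),(1,0)]⟩,⟨0,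
  [(0,0)]⟩) .k 0 (⟨0,[]⟩,⟨0,[]⟩) .k .k) (.K ⟨0,[1,-1,1],0,0,(⟨0,[(23,0),(1,0)]⟩,⟨0,[(1,0)]⟩),.k,(.r
  (-1) ⟨0,[(21,0),(7,1),(0,0)]⟩ ⟨0,[(4,0),(14,0),(7,0),(0,0)]⟩),.k,.k,.k,[⟨0,[(0,0)]⟩,⟨0,[(5,0)]⟩,
  ⟨2,[(0,1),(3,2),(5,0)]⟩,⟨0,[(3,0),(13,0)]⟩]⟩) (.Q [0,-1,0,-1,0,0,0,0,1,0,0,-1] (.p false [0,0,0,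
  1] [] (⟨0,[(14,0)]⟩,⟨1,[(13,0),(8,0),(0,0)]⟩) .k 0 (⟨0,[]⟩,⟨0,[]⟩) .k .k) (.I [0,0,-1,-1,0,0,0,0,
  1] (.Q [0,0,0,0,0,1,0,0,0,0,0,-1] (.p false [0,0,0,1] [] (⟨0,[(16,0)]⟩,⟨1,[(15,0),(8,0),(0,0)]⟩)
  .k 0 (⟨0,[]⟩,⟨0,[]⟩) .k .k) (.R ⟨0,false,false,false,[0,0,0,1],[1,-1],[1,0,0,0,0,0,0,0,1],(⟨0,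
  [(17,0)]⟩,⟨1,[(16,0),(8,0),(0,0)]⟩),(⟨0,[(28,0)]⟩,⟨0,[(29,0)]⟩),⟨0,[(0,0)]⟩,.k,.k,(.r 0 ⟨0,[(1,
  0)]⟩ ⟨1,[(14,0),(7,0),(0,0),(7,1),(2,0)]⟩),(.r 0 ⟨1,[(1,1),(20,0),(0,0),(6,1),(0,3)]⟩ ⟨0,[(1,0),
  (12,0)]⟩),.k,.k,⟨false,0,⟨0,[(1,0),(28,0),(0,1)]⟩,⟨0,[(1,0),(12,0)]⟩⟩,⟨true,0,⟨2,[(3,0),(13,2),(1,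
  1),(2,0)]⟩,⟨1,[(16,0),(8,0),(0,0)]⟩⟩,⟨true,0,⟨0,[]⟩,⟨0,[(36,0)]⟩⟩,⟨false,1,⟨1,[(6,1),(7,0),(2,1),
  (16,0)]⟩,⟨5,[(1,1),(0,3),(4,7),(2,3),(5,0),(8,0),(0,0),(3,1)]⟩⟩,⟨false,0,⟨0,[]⟩,⟨0,[]⟩⟩,⟨false,0,
  ⟨0,[]⟩,⟨0,[]⟩⟩,[.o ⟨false,0,⟨0,[(6,0)]⟩,⟨3,[(14,0),(0,0),(15,3),(2,1)]⟩⟩,.o ⟨false,1,⟨3,[(6,3),(7,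
  0),(0,0),(18,1)]⟩,⟨0,[(31,0)]⟩⟩,.a ⟨true,0,⟨1,[(16,0),(8,0),(0,0)]⟩,⟨0,[(17,0)]⟩⟩ ⟨false,0,⟨0,[(1,
  0),(28,0),(0,0)]⟩,⟨3,[(14,2),(0,0)]⟩⟩ ⟨true,0,⟨0,[(6,0),(10,0)]⟩,⟨1,[(7,0),(2,0),(5,0),(4,0)]⟩⟩,
  .o ⟨false,0,⟨1,[(16,0),(2,0),(2,0)]⟩,⟨1,[(17,1),(9,0),(5,0)]⟩⟩]⟩) (.R ⟨1,false,false,false,[0,0,0,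
  1],[1,-1],[1,0,0,0,0,0,0,0,1],(⟨0,[(17,0)]⟩,⟨1,[(16,0),(8,0),(0,0)]⟩),(⟨0,[(28,0)]⟩,⟨0,[(29,0)]⟩),
  ⟨0,[(0,0)]⟩,.k,.k,(.r 0 ⟨0,[(1,0)]⟩ ⟨1,[(14,0),(7,0),(0,0),(7,1),(2,0)]⟩),(.r 0 ⟨1,[(1,1),(20,0),
  (0,0),(6,1),(0,3)]⟩ ⟨0,[(1,0),(12,0)]⟩),.k,.k,⟨false,0,⟨0,[(1,0),(28,0),(0,1)]⟩,⟨0,[(1,0),(12,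
  0)]⟩⟩,⟨true,0,⟨2,[(3,0),(13,2),(1,1),(2,0)]⟩,⟨1,[(16,0),(8,0),(0,0)]⟩⟩,⟨true,0,⟨0,[]⟩,⟨0,[(36,
  0)]⟩⟩,⟨false,1,⟨1,[(6,1),(7,0),(2,1),(16,0)]⟩,⟨5,[(1,1),(0,3),(4,7),(2,3),(5,0),(8,0),(0,0),(3,
  1)]⟩⟩,⟨false,1,⟨0,[(31,0),(2,0)]⟩,⟨0,[(32,0)]⟩⟩,⟨false,1,⟨1,[(3,0),(10,0),(2,1),(1,0),(10,0),(2,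
  0)]⟩,⟨5,[(1,1),(0,3),(4,3),(2,1),(2,0),(2,0),(6,1),(1,1),(0,1)]⟩⟩,[.o ⟨false,0,⟨0,[(6,0)]⟩,⟨3,
  [(14,0),(0,0),(15,3),(2,1)]⟩⟩,.o ⟨false,1,⟨3,[(6,3),(7,0),(0,0),(18,1)]⟩,⟨0,[(31,0)]⟩⟩,.a ⟨true,0,
  ⟨1,[(16,0),(8,0),(0,0)]⟩,⟨0,[(17,0)]⟩⟩ ⟨false,0,⟨0,[(1,0),(28,0),(0,0)]⟩,⟨3,[(14,2),(0,0)]⟩⟩
  ⟨true,0,⟨0,[(6,0),(10,0)]⟩,⟨1,[(7,0),(2,0),(5,0),(4,0)]⟩⟩,.o ⟨false,0,⟨1,[(16,0),(2,0),(2,0)]⟩,⟨1,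
  [(17,1),(9,0),(5,0)]⟩⟩]⟩)) (.Q [0,1,0,1,0,0,1,1,-1,0,-1,1] (.p false [0,0,1] [0,0,0,1] (⟨0,[(25,
  0)]⟩,⟨0,[(24,0)]⟩) .k 2 (⟨0,[(16,0)]⟩,⟨1,[(15,0),(8,0),(0,0)]⟩) .k (.r (-1) ⟨3,[(13,2),(0,0),(8,
  3)]⟩ ⟨2,[(1,2),(0,0),(3,2),(5,0),(3,2)]⟩)) (.Q [0,0,0,0,0,1,0,0,0,0,0,-1] (.p false [0,0,0,1] []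
  (⟨0,[(17,0)]⟩,⟨1,[(16,0),(8,0),(0,0)]⟩) .k 0 (⟨0,[]⟩,⟨0,[]⟩) .k .k) (.R ⟨0,false,false,true,[0,0,
  0,1],[0,0,1],[1],(⟨0,[(18,0)]⟩,⟨1,[(17,0),(8,0),(0,0)]⟩),(⟨0,[(27,0)]⟩,⟨0,[(26,0)]⟩),⟨0,[(0,0)]⟩,
  .k,.k,(.r (-1) ⟨1,[(16,0),(16,1),(0,0)]⟩ ⟨1,[(1,1),(5,1),(0,1),(3,0),(4,0),(9,0),(2,0),(0,1)]⟩),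
  .k,.k,.k,⟨false,1,⟨1,[(14,0),(4,0),(2,0),(8,1),(2,1)]⟩,⟨0,[(25,0),(11,0)]⟩⟩,⟨true,0,⟨2,[(4,0),(9,
  0),(3,2)]⟩,⟨1,[(17,0),(2,0),(3,0)]⟩⟩,⟨false,1,⟨1,[(15,0),(19,0)]⟩,⟨0,[(3,0),(14,0),(13,0)]⟩⟩,
  ⟨true,0,⟨0,[(1,0),(31,0)]⟩,⟨0,[(3,0),(4,0)]⟩⟩,⟨false,0,⟨0,[]⟩,⟨0,[]⟩⟩,⟨false,0,⟨0,[]⟩,⟨0,[]⟩⟩,[.o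
  ⟨false,0,⟨0,[(21,0)]⟩,⟨0,[(19,0),(15,0)]⟩⟩,.o ⟨false,0,⟨0,[(10,0)]⟩,⟨1,[(22,1),(5,0),(6,0)]⟩⟩,.a
  ⟨true,0,⟨1,[(17,0),(8,0),(0,0)]⟩,⟨0,[(18,0)]⟩⟩ ⟨true,0,⟨0,[]⟩,⟨0,[(37,0)]⟩⟩ ⟨false,0,⟨0,[(10,0),
  (7,0)]⟩,⟨1,[(17,0),(1,0),(2,0),(12,1)]⟩⟩,.o ⟨false,0,⟨1,[(17,0),(2,0),(2,0)]⟩,⟨1,[(18,1),(9,0),(5,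
  0)]⟩⟩]⟩) (.R ⟨1,false,false,false,[0,0,0,1],[1,-1],[0,0,0,-1,0,0,0,0,1],(⟨0,[(18,0)]⟩,⟨1,[(17,0),
  (8,0),(0,0)]⟩),(⟨0,[(29,0)]⟩,⟨0,[(30,0)]⟩),⟨0,[(0,0)]⟩,.k,.k,(.r (-1) ⟨1,[(16,0),(16,1),(0,0)]⟩
  ⟨0,[(0,0),(0,0),(5,0),(0,0),(8,0),(12,0),(0,0)]⟩),(.r 0 ⟨3,[(3,3),(14,3),(4,0),(0,0),(6,1),(0,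
  7)]⟩ ⟨1,[(15,0),(17,1),(0,0)]⟩),.k,.k,⟨false,0,⟨0,[(3,0),(14,0),(13,0)]⟩,⟨1,[(15,0),(18,0)]⟩⟩,
  ⟨true,0,⟨2,[(4,0),(13,2),(1,1),(2,0)]⟩,⟨1,[(17,0),(8,0),(0,0)]⟩⟩,⟨true,0,⟨0,[(33,0)]⟩,⟨0,[(32,
  0)]⟩⟩,⟨false,1,⟨1,[(7,1),(7,0),(2,1),(16,0)]⟩,⟨0,[(3,0),(2,0),(1,0),(17,0),(0,0)]⟩⟩,⟨false,1,⟨3,
  [(15,0),(0,0),(18,1)]⟩,⟨0,[]⟩⟩,⟨false,1,⟨7,[(1,1),(5,1),(7,2),(2,5),(0,1),(8,1),(2,5),(2,2)]⟩,⟨1,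
  [(3,1),(4,0),(2,0),(10,0),(3,0),(0,0)]⟩⟩,[.o ⟨false,0,⟨0,[(7,0)]⟩,⟨3,[(15,0),(0,0),(15,3),(2,
  1)]⟩⟩,.o ⟨false,1,⟨3,[(7,3),(7,0),(0,0),(18,1)]⟩,⟨0,[(32,0)]⟩⟩,.a ⟨true,0,⟨1,[(17,0),(8,0),(0,
  0)]⟩,⟨0,[(18,0)]⟩⟩ ⟨false,0,⟨0,[(3,0),(14,0)]⟩,⟨1,[(15,0),(16,1),(2,0)]⟩⟩ ⟨true,0,⟨0,[(7,0),(10,
  0)]⟩,⟨1,[(8,0),(2,0),(5,0),(4,0)]⟩⟩,.o ⟨false,0,⟨1,[(17,0),(2,0),(2,0)]⟩,⟨1,[(18,1),(9,0),(5,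
  0)]⟩⟩]⟩)) (.Q [0,0,0,0,0,1,0,0,0,0,0,-1] (.p false [0,0,0,1] [] (⟨0,[(17,0)]⟩,⟨1,[(16,0),(8,0),(0,
  0)]⟩) .k 0 (⟨0,[]⟩,⟨0,[]⟩) .k .k) (.R ⟨0,false,false,false,[0,0,0,1],[1,-1],[1,0,0,0,0,0,0,0,1],
  (⟨0,[(18,0)]⟩,⟨1,[(17,0),(8,0),(0,0)]⟩),(⟨0,[(29,0)]⟩,⟨0,[(30,0)]⟩),⟨0,[(0,0)]⟩,.k,.k,(.x 0 ⟨2,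
  [(4,0),(15,1),(2,0),(5,2)]⟩ ⟨3,[(15,0),(0,0),(13,3),(3,1)]⟩),(.r 0 ⟨3,[(3,3),(14,3),(4,0),(0,0),
  (6,1),(0,7)]⟩ ⟨1,[(15,0),(17,1),(0,0)]⟩),.k,.k,⟨false,0,⟨0,[(1,0),(4,0),(11,0),(13,0)]⟩,⟨1,[(15,
  0),(17,1),(0,0)]⟩⟩,⟨true,0,⟨2,[(4,0),(13,2),(1,1),(2,0)]⟩,⟨1,[(17,0),(8,0),(0,0)]⟩⟩,⟨true,0,⟨0,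
  []⟩,⟨0,[(37,0)]⟩⟩,⟨false,1,⟨1,[(7,1),(7,0),(2,1),(16,0)]⟩,⟨0,[(1,0),(6,0),(2,0)]⟩⟩,⟨false,0,⟨0,
  []⟩,⟨0,[]⟩⟩,⟨false,0,⟨0,[]⟩,⟨0,[]⟩⟩,[.o ⟨false,0,⟨0,[(7,0)]⟩,⟨3,[(15,0),(0,0),(15,3),(2,1)]⟩⟩,.o
  ⟨false,1,⟨3,[(7,3),(7,0),(0,0),(18,1)]⟩,⟨0,[(32,0)]⟩⟩,.a ⟨true,0,⟨1,[(17,0),(8,0),(0,0)]⟩,⟨0,[(18,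
  0)]⟩⟩ ⟨false,0,⟨0,[(1,0),(4,0),(11,0)]⟩,⟨3,[(15,2),(0,0)]⟩⟩ ⟨true,0,⟨0,[(7,0),(10,0)]⟩,⟨1,[(8,0),
  (2,0),(5,0),(4,0)]⟩⟩,.o ⟨false,0,⟨1,[(17,0),(2,0),(2,0)]⟩,⟨1,[(18,1),(9,0),(5,0)]⟩⟩]⟩) (.R ⟨1,
  false,false,false,[0,0,0,1],[1,-1],[1,0,0,0,0,0,0,0,1],(⟨0,[(18,0)]⟩,⟨1,[(17,0),(8,0),(0,0)]⟩),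
  (⟨0,[(29,0)]⟩,⟨0,[(30,0)]⟩),⟨0,[(0,0)]⟩,.k,.k,(.x 0 ⟨1,[(0,1),(16,0),(2,0),(2,0)]⟩ ⟨3,[(15,0),(0,
  0),(13,3),(3,1)]⟩),(.r 0 ⟨3,[(3,3),(14,3),(4,0),(0,0),(6,1),(0,7)]⟩ ⟨1,[(15,0),(17,1),(0,0)]⟩),.k,
  .k,⟨false,0,⟨0,[(1,0),(4,0),(11,0),(13,0)]⟩,⟨1,[(15,0),(17,1),(0,0)]⟩⟩,⟨true,0,⟨2,[(4,0),(13,2),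
  (1,1),(2,0)]⟩,⟨1,[(17,0),(8,0),(0,0)]⟩⟩,⟨true,0,⟨0,[]⟩,⟨0,[(37,0)]⟩⟩,⟨false,1,⟨1,[(7,1),(7,0),(2,
  1),(16,0)]⟩,⟨0,[(1,0),(6,0),(2,0)]⟩⟩,⟨false,1,⟨0,[(32,0),(2,0)]⟩,⟨0,[(33,0)]⟩⟩,⟨false,1,⟨3,[(2,1),
  (4,1),(7,0),(2,3),(9,0),(2,1),(2,1)]⟩,⟨0,[(1,0),(9,0),(10,0)]⟩⟩,[.o ⟨false,0,⟨0,[(7,0)]⟩,⟨3,[(15,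
  0),(0,0),(15,3),(2,1)]⟩⟩,.o ⟨false,1,⟨3,[(7,3),(7,0),(0,0),(18,1)]⟩,⟨0,[(32,0)]⟩⟩,.a ⟨true,0,⟨1,
  [(17,0),(8,0),(0,0)]⟩,⟨0,[(18,0)]⟩⟩ ⟨false,0,⟨0,[(1,0),(4,0),(11,0)]⟩,⟨3,[(15,2),(0,0)]⟩⟩ ⟨true,0,
  ⟨0,[(7,0),(10,0)]⟩,⟨1,[(8,0),(2,0),(5,0),(4,0)]⟩⟩,.o ⟨false,0,⟨1,[(17,0),(2,0),(2,0)]⟩,⟨1,[(18,1),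
  (9,0),(5,0)]⟩⟩]⟩)))) (.I [1,-1,0,0,0,0,0,0,-1] (.Q [0,0,0,0,0,1,0,0,0,0,0,-1] (.p false [0,0,0,1]
  [] (⟨0,[(16,0)]⟩,⟨1,[(15,0),(8,0),(0,0)]⟩) .k 0 (⟨0,[]⟩,⟨0,[]⟩) .k .k) (.R ⟨0,false,false,false,
  [0,0,0,1],[0,0,1],[0,1,0,0,0,0,0,0,1],(⟨0,[(17,0)]⟩,⟨1,[(16,0),(8,0),(0,0)]⟩),(⟨0,[(26,0)]⟩,⟨0,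
  [(25,0)]⟩),⟨0,[(0,0)]⟩,.k,.k,(.r (-1) ⟨1,[(15,0),(16,1),(0,0)]⟩ ⟨2,[(1,0),(0,1),(13,0),(2,0),(2,
  0),(7,0),(0,0)]⟩),.k,.k,.k,⟨false,1,⟨1,[(13,0),(1,0),(2,0),(2,0),(11,0)]⟩,⟨0,[(1,0),(22,0)]⟩⟩,
  ⟨true,0,⟨2,[(3,0),(9,0),(3,2)]⟩,⟨1,[(16,0),(2,0),(3,0)]⟩⟩,⟨true,0,⟨0,[(36,0)]⟩,⟨0,[]⟩⟩,⟨false,0,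
  ⟨0,[(1,0),(7,0),(7,0)]⟩,⟨1,[(15,0),(0,0),(1,0),(2,0),(12,0)]⟩⟩,⟨false,0,⟨0,[]⟩,⟨0,[]⟩⟩,⟨false,0,
  ⟨0,[]⟩,⟨0,[]⟩⟩,[.o ⟨false,0,⟨0,[(9,0)]⟩,⟨1,[(21,1),(5,0),(6,0)]⟩⟩,.o ⟨false,1,⟨3,[(9,3),(4,0),(0,
  0),(18,1)]⟩,⟨0,[(18,0)]⟩⟩,.a ⟨true,0,⟨1,[(16,0),(8,0),(0,0)]⟩,⟨0,[(17,0)]⟩⟩ ⟨false,1,⟨3,[(14,0),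
  (0,2)]⟩,⟨0,[(1,0)]⟩⟩ ⟨true,0,⟨0,[(9,0),(7,0)]⟩,⟨1,[(16,0),(1,0),(2,0)]⟩⟩,.o ⟨false,0,⟨1,[(16,0),
  (2,0),(2,0)]⟩,⟨1,[(17,1),(9,0),(5,0)]⟩⟩]⟩) (.R ⟨1,false,false,false,[1,0,0,-1],[1,-1],[1,0,0,0,0,
  0,0,0,-1],(⟨1,[(16,0),(8,0),(0,0)]⟩,⟨0,[(17,0)]⟩),(⟨0,[(28,0)]⟩,⟨0,[(29,0)]⟩),⟨0,[(0,0),(15,0)]⟩,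
  .k,.k,(.x 0 ⟨2,[(3,0),(15,1),(2,0),(5,2)]⟩ ⟨3,[(14,0),(0,0),(13,3),(3,1)]⟩),(.r 0 ⟨2,[(1,0),(0,1),
  (13,0),(2,0),(2,0),(7,0),(0,0)]⟩ ⟨1,[(15,0),(16,1),(0,0)]⟩),.k,.k,⟨false,0,⟨0,[(1,0),(29,0)]⟩,⟨1,
  [(15,0),(16,1),(0,0)]⟩⟩,⟨true,0,⟨1,[(16,0),(2,0),(2,0)]⟩,⟨0,[(17,0)]⟩⟩,⟨true,0,⟨0,[]⟩,⟨0,[(36,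
  0)]⟩⟩,⟨false,1,⟨1,[(6,0),(8,0),(0,0),(15,0),(1,0)]⟩,⟨2,[(1,1),(0,0),(2,0),(1,0),(9,1)]⟩⟩,⟨false,1,
  ⟨0,[(31,0),(2,0)]⟩,⟨0,[(32,0)]⟩⟩,⟨false,1,⟨3,[(15,1),(0,1),(10,0),(2,1),(2,0)]⟩,⟨1,[(1,0),(0,0),
  (14,0),(14,0)]⟩⟩,[.o ⟨false,0,⟨0,[(6,0)]⟩,⟨3,[(14,0),(0,0),(15,3),(2,1)]⟩⟩,.o ⟨false,1,⟨3,[(6,3),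
  (7,0),(0,0),(18,1)]⟩,⟨0,[(31,0)]⟩⟩,.a ⟨true,0,⟨0,[(17,0)]⟩,⟨1,[(16,0),(8,0),(0,0)]⟩⟩ ⟨false,0,⟨0,
  [(1,0)]⟩,⟨3,[(14,0),(0,2)]⟩⟩ ⟨true,0,⟨1,[(6,0),(9,0),(15,0)]⟩,⟨0,[(17,0),(13,0)]⟩⟩,.o ⟨false,0,⟨2,
  [(3,0),(13,2),(1,1),(2,0)]⟩,⟨7,[(14,0),(0,0),(0,3),(10,1),(5,3)]⟩⟩]⟩)) (.K ⟨2,[1,0,0,-1],0,0,(⟨1,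
  [(15,0),(8,0),(0,0)]⟩,⟨0,[(16,0)]⟩),.k,(.r (-1) ⟨1,[(13,0),(17,1),(0,0)]⟩ ⟨0,[(0,0),(28,0),(0,
  0)]⟩),(.r 0 ⟨5,[(1,5),(0,0),(12,2),(2,1),(2,0),(7,2)]⟩ ⟨1,[(14,0),(16,1),(0,0)]⟩),.k,.k,[⟨1,[(12,
  0),(2,0)]⟩,⟨2,[(2,0),(9,0),(3,2)]⟩,⟨1,[(12,0),(2,0),(6,1)]⟩,⟨2,[(2,0),(13,2),(1,1),(2,0)]⟩,⟨1,[(0,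
  1),(14,0),(8,0),(0,0)]⟩,⟨0,[(1,0),(3,0)]⟩]⟩)))) (.Q [0,-1,0,-1,0,0,1,1,0,1,-1] (.p false [0,0,1]
  [1] (⟨0,[(22,0)]⟩,⟨0,[(21,0)]⟩) .k 1 (⟨0,[]⟩,⟨0,[]⟩) .k .k) (.R ⟨2,true,false,true,[0,1],[1,1,-1],
  [0,1,1],(⟨0,[]⟩,⟨0,[]⟩),(⟨0,[(22,0),(3,0)]⟩,⟨0,[(1,0)]⟩),⟨0,[]⟩,.k,.k,.k,.k,.k,.k,⟨true,0,⟨0,[(21,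
  0),(7,0)]⟩,⟨1,[(4,1),(0,0),(13,0),(7,0)]⟩⟩,⟨false,1,⟨0,[(16,0),(13,0)]⟩,⟨1,[(10,0),(11,0),(0,
  0)]⟩⟩,⟨false,0,⟨0,[(29,0)]⟩,⟨0,[(28,0),(2,0)]⟩⟩,⟨true,0,⟨0,[(15,0)]⟩,⟨1,[(0,0),(6,0),(10,0)]⟩⟩,
  ⟨true,0,⟨0,[(33,0)]⟩,⟨0,[]⟩⟩,⟨false,1,⟨1,[(4,1),(19,0),(6,0)]⟩,⟨0,[(0,0)]⟩⟩,[]⟩) (.I [0,0,1,1,0,0,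
  0,0,1] (.I [0,-1,0,-1,0,0,0,0,-1] (.R ⟨1,false,false,false,[1,0,0,-1],[1,-1],[0,0,0,-1,0,0,0,0,
  -1],(⟨1,[(15,0),(8,0),(0,0)]⟩,⟨0,[(16,0)]⟩),(⟨0,[(27,0)]⟩,⟨0,[(28,0)]⟩),⟨1,[(3,0),(6,0),(4,0)]⟩,
  .k,.k,(.r (-1) ⟨1,[(13,0),(17,1),(0,0)]⟩ ⟨0,[(1,0)]⟩),(.r 0 ⟨3,[(0,3),(20,0),(0,0),(6,1),(0,7)]⟩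
  ⟨1,[(14,0),(16,1),(0,0)]⟩),.k,.k,⟨false,0,⟨0,[(0,0),(29,0)]⟩,⟨1,[(14,0),(17,0)]⟩⟩,⟨true,0,⟨1,[(15,
  0),(2,0),(2,0)]⟩,⟨0,[(16,0)]⟩⟩,⟨true,0,⟨0,[(31,0)]⟩,⟨0,[(30,0)]⟩⟩,⟨false,1,⟨3,[(0,1),(4,1),(8,2),
  (0,1),(17,0)]⟩,⟨0,[(0,0),(3,0),(1,0),(9,0)]⟩⟩,⟨false,1,⟨3,[(13,0),(0,0),(18,1)]⟩,⟨0,[]⟩⟩,⟨false,1,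
  ⟨3,[(14,1),(0,1),(10,0),(2,1),(2,0)]⟩,⟨0,[(0,0),(15,0),(13,0)]⟩⟩,[.o ⟨false,0,⟨0,[(5,0)]⟩,⟨3,[(13,
  0),(0,0),(15,3),(2,1)]⟩⟩,.o ⟨false,1,⟨3,[(5,3),(7,0),(0,0),(18,1)]⟩,⟨0,[(30,0)]⟩⟩,.a ⟨true,0,⟨0,
  [(16,0)]⟩,⟨1,[(15,0),(8,0),(0,0)]⟩⟩ ⟨false,0,⟨0,[(0,0)]⟩,⟨1,[(14,0),(15,1),(2,0)]⟩⟩ ⟨true,0,⟨1,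
  [(5,0),(9,0),(15,0)]⟩,⟨0,[(16,0),(13,0)]⟩⟩,.o ⟨false,0,⟨10,[(2,1),(1,1),(0,3),(10,10),(1,4),(2,4),
  (7,0)]⟩,⟨7,[(13,0),(0,0),(0,3),(10,1),(5,3)]⟩⟩]⟩) (.Q [0,1,0,0,0,0,0,0,-1,0,0,1] (.p true [0,0,0,
  1] [] (⟨0,[(16,0)]⟩,⟨1,[(15,0),(8,0),(0,0)]⟩) .k 0 (⟨0,[]⟩,⟨0,[]⟩) .k .k) (.K ⟨2,[0,0,0,1],0,0,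
  (⟨0,[(17,0)]⟩,⟨1,[(16,0),(8,0),(0,0)]⟩),.k,(.r (-1) ⟨1,[(15,0),(16,1),(0,0)]⟩ ⟨9,[(0,9),(2,3),(1,
  3),(10,4),(2,0),(2,0),(7,7),(0,1)]⟩),(.r 0 ⟨0,[(2,0)]⟩ ⟨1,[(14,0),(17,1),(0,0)]⟩),.k,.k,[⟨0,[(8,
  0),(8,0)]⟩,⟨1,[(13,0),(2,0)]⟩,⟨1,[(17,1),(4,0),(0,0)]⟩,⟨1,[(16,0),(2,0),(2,0)]⟩,⟨0,[(0,0)]⟩,⟨1,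
  [(1,1),(4,0),(9,0),(15,0)]⟩]⟩) (.R ⟨1,false,false,false,[1,0,0,-1],[0,0,1],[1,1,0,0,0,0,0,0,-1],
  (⟨1,[(16,0),(8,0),(0,0)]⟩,⟨0,[(17,0)]⟩),(⟨0,[(26,0)]⟩,⟨0,[(25,0)]⟩),⟨1,[(4,0),(6,0),(4,0)]⟩,.k,.k,
  (.r (-1) ⟨1,[(14,0),(17,1),(0,0)]⟩ ⟨0,[(2,0)]⟩),.k,(.x 0 ⟨0,[(11,0),(7,0)]⟩ ⟨7,[(13,3),(0,0),(0,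
  0),(10,7),(0,1),(1,7),(3,3)]⟩),.k,⟨false,1,⟨1,[(13,0),(0,0),(3,0),(2,0),(11,0)]⟩,⟨0,[(0,0),(16,0),
  (6,0)]⟩⟩,⟨true,0,⟨1,[(13,0),(2,0)]⟩,⟨0,[(17,0),(1,0)]⟩⟩,⟨false,0,⟨0,[]⟩,⟨3,[(14,0),(0,0),(18,
  1)]⟩⟩,⟨false,0,⟨1,[(0,1),(9,0),(14,0),(0,0),(5,0)]⟩,⟨1,[(14,0),(2,1),(0,1),(15,0)]⟩⟩,⟨true,0,⟨0,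
  [(31,0)]⟩,⟨0,[(32,0)]⟩⟩,⟨false,0,⟨0,[(0,0),(4,0),(19,0),(0,0)]⟩,⟨1,[(6,1),(7,0),(2,1),(3,1),(12,
  0)]⟩⟩,[.o ⟨false,0,⟨0,[(9,0)]⟩,⟨1,[(21,1),(5,0),(6,0)]⟩⟩,.o ⟨false,1,⟨3,[(9,3),(4,0),(0,0),(18,
  1)]⟩,⟨0,[(18,0)]⟩⟩,.a ⟨true,0,⟨0,[(17,0)]⟩,⟨1,[(16,0),(8,0),(0,0)]⟩⟩ ⟨false,1,⟨3,[(14,2),(0,0)]⟩,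
  ⟨0,[(0,0),(16,0)]⟩⟩ ⟨true,0,⟨1,[(10,0),(5,0),(15,0)]⟩,⟨0,[(17,0),(0,0)]⟩⟩,.o ⟨false,0,⟨10,[(3,1),
  (1,1),(0,3),(10,10),(1,4),(2,4),(7,0)]⟩,⟨7,[(14,0),(0,0),(0,3),(10,1),(5,3)]⟩⟩]⟩))) (.R ⟨1,false,
  false,false,[1,0,0,-1],[1,-1],[1,0,0,0,0,0,0,0,-1],(⟨1,[(14,0),(8,0),(0,0)]⟩,⟨0,[(15,0)]⟩),(⟨0,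
  [(26,0)]⟩,⟨0,[(27,0)]⟩),⟨1,[(2,0),(6,0),(4,0)]⟩,.k,.k,(.x 0 ⟨1,[(2,0),(6,0),(7,0),(2,0)]⟩ ⟨3,[(12,
  0),(0,0),(13,3),(3,1)]⟩),(.r 0 ⟨1,[(0,1),(19,0),(0,0),(6,1),(0,3)]⟩ ⟨0,[(0,0),(12,0)]⟩),.k,.k,
  ⟨false,0,⟨0,[(0,0),(27,0),(0,1)]⟩,⟨0,[(0,0),(12,0)]⟩⟩,⟨true,0,⟨1,[(14,0),(2,0),(2,0)]⟩,⟨0,[(15,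
  0)]⟩⟩,⟨true,0,⟨0,[]⟩,⟨0,[(34,0)]⟩⟩,⟨false,1,⟨1,[(4,0),(8,0),(0,0),(15,0),(1,0)]⟩,⟨0,[(0,0),(14,0),
  (12,0),(0,1)]⟩⟩,⟨false,1,⟨0,[(29,0),(2,0)]⟩,⟨0,[(30,0)]⟩⟩,⟨false,1,⟨3,[(13,1),(0,1),(10,0),(2,1),
  (2,0)]⟩,⟨3,[(0,3),(14,3),(4,0),(0,0),(6,1),(0,3)]⟩⟩,[.o ⟨false,0,⟨0,[(4,0)]⟩,⟨3,[(12,0),(0,0),(15,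
  3),(2,1)]⟩⟩,.o ⟨false,1,⟨3,[(4,3),(7,0),(0,0),(18,1)]⟩,⟨0,[(29,0)]⟩⟩,.a ⟨true,0,⟨0,[(15,0)]⟩,⟨1,
  [(14,0),(8,0),(0,0)]⟩⟩ ⟨false,0,⟨0,[(0,0),(27,0),(0,0)]⟩,⟨3,[(12,0),(0,2)]⟩⟩ ⟨true,0,⟨1,[(4,0),(9,
  0),(15,0)]⟩,⟨0,[(15,0),(13,0)]⟩⟩,.o ⟨false,0,⟨10,[(1,1),(1,1),(0,3),(10,10),(1,4),(2,4),(7,0)]⟩,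
  ⟨7,[(12,0),(0,0),(0,3),(10,1),(5,3)]⟩⟩]⟩)))))))) (.R ⟨1,false,false,true,[1,0,-1],[0,0,1],[1,0,0,
  0,0,0,0,-1],(⟨0,[(16,0)]⟩,⟨0,[(17,0)]⟩),(⟨0,[(17,0)]⟩,⟨0,[(16,0)]⟩),⟨0,[(2,0)]⟩,.k,.k,.k,.k,(.r
  (-1) ⟨1,[(0,3),(3,1),(13,0),(4,1),(0,0)]⟩ ⟨4,[(1,2),(1,1),(6,2),(3,0),(0,3),(5,0)]⟩),.k,⟨false,1,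
  ⟨0,[(0,0),(3,0),(4,0),(11,0),(2,0)]⟩,⟨0,[(15,1),(11,0)]⟩⟩,⟨true,0,⟨0,[(4,0)]⟩,⟨0,[(0,0),(9,0),(4,
  0)]⟩⟩,⟨true,0,⟨0,[]⟩,⟨0,[(27,0)]⟩⟩,⟨false,0,⟨0,[(1,0),(21,0)]⟩,⟨1,[(0,3),(17,0),(6,0)]⟩⟩,⟨false,1,
  ⟨0,[(22,0),(2,0)]⟩,⟨0,[(23,0)]⟩⟩,⟨false,0,⟨0,[(1,0)]⟩,⟨1,[(0,3),(17,0),(4,1),(1,0)]⟩⟩,[.o ⟨false,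
  0,⟨0,[(11,0)]⟩,⟨1,[(0,1),(17,0),(6,0)]⟩⟩,.a ⟨true,0,⟨1,[(1,0),(14,0),(0,0),(5,0)]⟩,⟨0,[(0,0)]⟩⟩
  ⟨false,1,⟨3,[(0,3),(3,1),(13,0),(2,1),(2,2)]⟩,⟨0,[(15,0),(11,0)]⟩⟩ ⟨true,0,⟨1,[(1,0),(2,0),(18,
  0)]⟩,⟨0,[(0,0),(9,0)]⟩⟩,.e ⟨false,1,⟨3,[(0,1),(3,1),(7,1),(5,0),(6,2)]⟩,⟨0,[(15,0)]⟩⟩ ⟨false,0,⟨1,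
  [(1,0),(2,0),(18,0)]⟩,⟨1,[(0,1),(9,1),(13,0),(0,0)]⟩⟩,.o ⟨false,0,⟨0,[(10,0)]⟩,⟨7,[(4,3),(0,0),(0,
  0),(11,1),(5,3)]⟩⟩]⟩))))

theorem ok0 : chk (cU (-1) false 10) t0 base = true := by decide +kernel

theorem ok : chkB (cU (-1) false 10) (fax (fcU (-1)) false 34 (-1) 10 true (tU false)) t0 base = true :=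
  chkB_of (by decide +kernel) ok0

end Helper11.CT.Tm1_34_m1_1_v
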