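import Pool.Agent.Helper11.CT.T.Tm1_34_m1_m1_u_q

set_option autoImplicit false
set_option linter.all false

namespace Helper11.CT.Tm1_34_m1_m1_u

open Helper11.CT

noncomputable def t10 : Tre :=
  (.R ⟨2,true,false,true,[0,1],[0,0,1],[0,0,1],(⟨0,[]⟩,⟨0,[]⟩),(⟨0,[(23,0)]⟩,⟨0,[(22,0)]⟩),⟨0,[]⟩,
  .k,.k,.k,.k,.k,.k,⟨true,0,⟨2,[(18,0),(0,0),(1,1),(5,1)]⟩,⟨0,[(2,0),(3,0)]⟩⟩,⟨false,0,⟨0,[(1,0)]⟩,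
  ⟨0,[(20,0),(9,0)]⟩⟩,⟨true,0,⟨0,[(29,0)]⟩,⟨0,[(28,0)]⟩⟩,⟨false,0,⟨0,[(0,0)]⟩,⟨0,[(9,0),(11,0),(9,
  0)]⟩⟩,⟨false,1,⟨3,[(11,0),(0,0),(18,1)]⟩,⟨0,[]⟩⟩,⟨true,0,⟨0,[(17,0)]⟩,⟨0,[(4,0),(8,0),(0,0)]⟩⟩,
  []⟩)

theorem ok10 : chk (cU (-1) true 10) t10 l10 = true := by decide +kernel

noncomputable def t13 : Tre :=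
  (.I [0,0,-2,0,1,2,-1] (.Q [0,0,-2,0,1,0,-1,0,0,0,1] (.p true [0,0,1] [] (⟨0,[(27,0)]⟩,⟨0,[(26,
  0)]⟩) .k 0 (⟨0,[]⟩,⟨0,[]⟩) .k .k) (.K ⟨0,[1,1,-1],1,0,(⟨1,[(1,0),(0,0),(24,0)]⟩,⟨0,[(4,0)]⟩),.k,
  .k,(.x (-1) ⟨0,[(1,0)]⟩ ⟨0,[(2,0),(1,0),(24,0),(0,0)]⟩),.k,.k,[⟨0,[(2,0)]⟩,⟨0,[(0,0)]⟩,⟨0,[(7,0),
  (26,1)]⟩,⟨1,[(3,0),(16,0),(12,0)]⟩]⟩) (.Q [0,0,0,-2,0,0,1,1,0,0,-1] (.p false [0,0,1] [] (⟨0,[(28,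
  0)]⟩,⟨0,[(27,0)]⟩) .k 0 (⟨0,[]⟩,⟨0,[]⟩) .k .k) (.R ⟨1,true,false,false,[0,0,1],[0,1],[1,1,0,0,0,0,
  0,1],(⟨0,[(29,0)]⟩,⟨0,[(28,0)]⟩),(⟨0,[(32,0)]⟩,⟨0,[(31,0)]⟩),⟨0,[(5,0)]⟩,.k,.k,.k,.k,(.x 0 ⟨2,[(1,
  0),(3,2),(16,0),(2,2),(4,0),(0,2)]⟩ ⟨0,[(2,0)]⟩),.k,⟨false,1,⟨0,[(0,0),(14,0),(20,0)]⟩,⟨3,[(3,1),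
  (0,2),(1,0),(9,0),(20,1)]⟩⟩,⟨true,1,⟨0,[(26,0),(9,0)]⟩,⟨0,[(1,0)]⟩⟩,⟨false,0,⟨0,[]⟩,⟨3,[(17,0),(0,
  0),(18,1)]⟩⟩,⟨true,0,⟨0,[(6,0)]⟩,⟨1,[(0,0),(22,0),(15,0)]⟩⟩,⟨true,0,⟨0,[(34,0)]⟩,⟨0,[(35,0)]⟩⟩,
  ⟨false,1,⟨0,[(6,0),(27,0),(2,0)]⟩,⟨0,[(0,0)]⟩⟩,[]⟩) (.Q [0,0,0,0,0,1,0,0,0,-1,0,1] (.ed false [0,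
  1,0,1] .k) (.I [1,0,0,0,0,0,0,0,-1] (.Q [0,1,-1,0,0,0,0,0,-1,0,0,1] (.p true [0,0,0,1] [] (⟨0,
  [(22,0)]⟩,⟨0,[(21,0)]⟩) .k 0 (⟨0,[]⟩,⟨0,[]⟩) .k .k) (.K ⟨0,[0,0,0,1],0,0,(⟨0,[(23,0)]⟩,⟨0,[(22,
  0)]⟩),.k,(.r (-1) ⟨1,[(21,0),(16,1),(0,0)]⟩ ⟨35,[(1,17),(1,11),(0,9),(6,11),(8,8),(4,9),(7,0),(2,
  5)]⟩),(.x 0 ⟨0,[(35,0)]⟩ ⟨3,[(20,0),(0,0),(11,1),(0,3)]⟩),.k,.k,[⟨0,[(23,0)]⟩,⟨0,[(22,0)]⟩,⟨0,[(0,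
  0)]⟩,⟨3,[(4,1),(2,0),(7,0),(0,0),(1,0),(2,1),(0,3),(3,1)]⟩]⟩) (.R ⟨0,false,false,true,[1,0,0,-1],
  [0,1],[0,1,0,0,0,0,0,0,-1],(⟨0,[(22,0)]⟩,⟨0,[(23,0)]⟩),(⟨0,[(35,0)]⟩,⟨0,[(34,0)]⟩),⟨0,[(2,0)]⟩,.k,
  .k,(.x (-1) ⟨3,[(20,0),(0,0),(11,1),(0,3)]⟩ ⟨0,[(35,0)]⟩),(.x (-1) ⟨3,[(20,0),(0,0),(11,1),(0,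
  3)]⟩ ⟨0,[(35,0)]⟩),.k,.k,⟨false,1,⟨0,[(1,0),(36,0),(0,0)]⟩,⟨4,[(0,2),(3,0),(2,1),(3,1),(6,0),(2,
  0),(1,2)]⟩⟩,⟨true,0,⟨0,[(22,0)]⟩,⟨2,[(4,0),(18,2),(1,0),(7,0)]⟩⟩,⟨true,0,⟨0,[(42,0)]⟩,⟨0,[]⟩⟩,
  ⟨false,0,⟨3,[(0,1),(2,0),(2,0),(4,0),(6,0),(2,0),(0,1)]⟩,⟨1,[(1,1),(12,1),(8,1),(15,0),(0,0)]⟩⟩,
  ⟨false,0,⟨0,[]⟩,⟨0,[]⟩⟩,⟨false,0,⟨0,[]⟩,⟨0,[]⟩⟩,[.o ⟨false,0,⟨0,[(37,0)]⟩,⟨1,[(33,0),(4,1),(1,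
  0)]⟩⟩,.o ⟨false,1,⟨5,[(3,1),(7,1),(8,1),(0,1),(11,0),(6,0)]⟩,⟨0,[(14,0)]⟩⟩,.o ⟨false,1,⟨1,[(23,1),
  (9,0),(5,0)]⟩,⟨2,[(4,0),(17,2),(2,0),(7,0)]⟩⟩,.a ⟨true,0,⟨0,[(23,0)]⟩,⟨0,[(22,0)]⟩⟩ ⟨false,1,⟨1,
  [(20,0),(18,0)]⟩,⟨0,[(0,0),(22,0)]⟩⟩ ⟨true,0,⟨0,[(22,0),(14,0)]⟩,⟨0,[(14,0),(8,0)]⟩⟩]⟩)) (.Q [0,1,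
  1,1,-1,0,0,0,1,1,0,-1] (.p false [0,0,0,1] [1] (⟨0,[(22,0)]⟩,⟨0,[(21,0)]⟩) .k 1 (⟨0,[]⟩,⟨0,[]⟩)
  .k .k) (.R ⟨0,false,false,true,[1,0,0,-1],[0,1],[0,1],(⟨0,[(22,0)]⟩,⟨0,[(23,0)]⟩),(⟨0,[(35,0)]⟩,
  ⟨0,[(34,0)]⟩),⟨0,[(2,0)]⟩,.k,.k,(.x (-1) ⟨3,[(20,0),(0,0),(11,1),(0,3)]⟩ ⟨0,[(35,0)]⟩),(.x (-1)
  ⟨3,[(20,0),(0,0),(11,1),(0,3)]⟩ ⟨0,[(35,0)]⟩),.k,.k,⟨false,1,⟨0,[(38,0),(0,0)]⟩,⟨11,[(3,3),(2,0),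
  (4,3),(13,4),(2,3),(7,0),(3,0)]⟩⟩,⟨true,0,⟨0,[(22,0)]⟩,⟨2,[(4,0),(18,2),(1,0),(7,0)]⟩⟩,⟨false,0,
  ⟨0,[(1,0)]⟩,⟨1,[(20,0),(19,0)]⟩⟩,⟨true,(-1),⟨0,[(0,0)]⟩,⟨1,[(14,1),(5,0),(2,1),(15,0)]⟩⟩,⟨false,0,
  ⟨0,[]⟩,⟨0,[]⟩⟩,⟨false,0,⟨0,[]⟩,⟨0,[]⟩⟩,[.o ⟨false,0,⟨0,[(37,0)]⟩,⟨1,[(33,0),(4,1),(1,0)]⟩⟩,.o
  ⟨false,1,⟨5,[(3,1),(7,1),(8,1),(0,1),(11,0),(6,0)]⟩,⟨0,[(14,0)]⟩⟩,.o ⟨false,1,⟨1,[(23,1),(9,0),(5,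
  0)]⟩,⟨2,[(4,0),(17,2),(2,0),(7,0)]⟩⟩,.a ⟨true,0,⟨0,[(23,0)]⟩,⟨0,[(22,0)]⟩⟩ ⟨false,1,⟨3,[(20,0),(0,
  0),(17,1)]⟩,⟨3,[(6,0),(18,0),(10,0),(3,0)]⟩⟩ ⟨true,0,⟨0,[(22,0),(14,0)]⟩,⟨0,[(14,0),(8,0)]⟩⟩]⟩)
  (.R ⟨0,false,false,false,[1,0,0,-1],[1,-1],[1,0,0,-1,0,0,0,0,-1],(⟨0,[(22,0)]⟩,⟨0,[(23,0)]⟩),(⟨0,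
  [(34,0)]⟩,⟨0,[(35,0)]⟩),⟨0,[(2,0)]⟩,.k,.k,(.x (-1) ⟨3,[(20,0),(0,0),(11,1),(0,3)]⟩ ⟨0,[(35,0)]⟩),
  (.r 0 ⟨0,[(0,0),(2,0),(0,0),(6,0),(3,0),(6,0)]⟩ ⟨1,[(21,0),(16,1),(0,0)]⟩),.k,.k,⟨true,0,⟨2,[(0,
  0),(2,0),(0,0),(1,0),(4,0),(3,1),(4,0),(1,0)]⟩,⟨0,[(1,0)]⟩⟩,⟨false,0,⟨2,[(4,0),(17,2),(2,0),(7,
  0)]⟩,⟨0,[(23,0),(15,0)]⟩⟩,⟨true,0,⟨0,[(38,0)]⟩,⟨0,[(37,0)]⟩⟩,⟨false,0,⟨3,[(1,1),(2,0),(9,2),(0,0),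
  (5,0),(0,3),(13,1)]⟩,⟨3,[(0,1),(2,1),(7,1),(8,0),(2,1),(15,0)]⟩⟩,⟨false,0,⟨0,[]⟩,⟨0,[]⟩⟩,⟨false,0,
  ⟨0,[]⟩,⟨0,[]⟩⟩,[.o ⟨false,0,⟨0,[(14,0)]⟩,⟨5,[(3,1),(7,1),(8,1),(0,1),(11,0),(6,0)]⟩⟩,.o ⟨false,1,
  ⟨1,[(33,0),(4,1),(1,0)]⟩,⟨0,[(37,0)]⟩⟩,.o ⟨false,1,⟨1,[(23,1),(9,0),(5,0)]⟩,⟨2,[(4,0),(17,2),(2,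
  0),(7,0)]⟩⟩,.a ⟨true,0,⟨0,[(23,0)]⟩,⟨0,[(22,0)]⟩⟩ ⟨false,1,⟨0,[(0,0),(21,0)]⟩,⟨35,[(1,17),(1,11),
  (0,9),(6,11),(9,8),(3,9),(7,0),(2,5)]⟩⟩ ⟨true,0,⟨0,[(14,0),(7,0)]⟩,⟨0,[(23,0),(13,0)]⟩⟩]⟩))) (.I
  [0,0,1,1,0,0,0,0,-1] (.I [0,-1,-2,-2,1,0,0,-1,-1] (.I [0,0,0,0,0,0,0,0,-1] (.Q [0,0,0,0,0,1,0,0,0,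
  0,0,-1] (.ed true [1,-1,0,1] .k) (.Q [0,0,2,0,-1,0,0,0,0,1,0,-1] (.p false [0,0,0,1] [1] (⟨0,[(25,
  0)]⟩,⟨0,[(24,0)]⟩) .k 1 (⟨0,[]⟩,⟨0,[]⟩) .k .k) (.R ⟨0,false,false,false,[0,0,0,1],[1,-1],[1,0,0,
  -1,0,0,0,0,1],(⟨0,[(26,0)]⟩,⟨0,[(25,0)]⟩),(⟨0,[(37,0)]⟩,⟨0,[(38,0)]⟩),⟨0,[(1,0)]⟩,.k,.k,(.r (-1)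
  ⟨1,[(24,0),(16,1),(0,0)]⟩ ⟨0,[(4,0)]⟩),(.x 0 ⟨0,[(38,0)]⟩ ⟨3,[(23,0),(0,0),(11,1),(0,3)]⟩),.k,.k,
  ⟨true,0,⟨4,[(0,0),(6,1),(7,0),(2,0),(2,0),(2,1),(1,0)]⟩,⟨0,[(2,0)]⟩⟩,⟨false,1,⟨1,[(26,1),(9,0),(5,
  0)]⟩,⟨0,[(25,0)]⟩⟩,⟨true,0,⟨0,[(41,0)]⟩,⟨0,[(40,0)]⟩⟩,⟨false,1,⟨3,[(2,2),(0,0),(13,0),(0,0),(7,3),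
  (2,0),(6,0),(2,1),(2,1)]⟩,⟨6,[(0,4),(0,0),(3,0),(0,0),(3,1),(3,2),(0,2),(8,1)]⟩⟩,⟨false,0,⟨0,[]⟩,
  ⟨0,[]⟩⟩,⟨false,0,⟨0,[]⟩,⟨0,[]⟩⟩,[.o ⟨false,0,⟨0,[(17,0)]⟩,⟨5,[(6,1),(7,1),(8,1),(0,1),(11,0),(6,
  0)]⟩⟩,.o ⟨false,1,⟨1,[(36,0),(4,1),(1,0)]⟩,⟨0,[(40,0)]⟩⟩,.o ⟨false,0,⟨1,[(0,0),(24,0),(10,0)]⟩,⟨1,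
  [(26,1),(9,0),(5,0)]⟩⟩,.a ⟨true,(-1),⟨0,[(0,0)]⟩,⟨0,[(26,0),(15,0)]⟩⟩ ⟨false,1,⟨0,[(15,0),(25,
  0)]⟩,⟨0,[(4,0)]⟩⟩ ⟨true,1,⟨0,[(17,0),(8,0),(15,0)]⟩,⟨0,[(0,0),(39,0)]⟩⟩]⟩) (.I [1,0,0,1,0,0,0,-1,
  1] (.R ⟨1,false,false,true,[1,0,0,-1],[0,-1,1],[1,1,0,0,0,0,0,0,-1],(⟨0,[(26,0)]⟩,⟨0,[(27,0)]⟩),
  (⟨0,[(12,0)]⟩,⟨1,[(9,0),(0,0),(24,0)]⟩),⟨0,[(6,0)]⟩,.k,.k,(.x (-1) ⟨3,[(24,0),(0,0),(11,1),(0,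
  3)]⟩ ⟨0,[(39,0)]⟩),(.r 0 ⟨1,[(7,0),(0,0),(15,0),(9,0)]⟩ ⟨0,[(15,0),(0,0),(2,0),(22,0)]⟩),.k,.k,
  ⟨false,0,⟨2,[(3,2),(3,0),(3,0),(11,0),(10,0)]⟩,⟨0,[(15,0),(0,0),(2,0),(22,0)]⟩⟩,⟨true,(-1),⟨0,[(8,
  0),(17,0)]⟩,⟨0,[(1,0),(31,0)]⟩⟩,⟨false,0,⟨0,[]⟩,⟨3,[(24,0),(0,0),(18,1)]⟩⟩,⟨false,0,⟨0,[(10,0),(5,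
  0),(2,0),(6,0),(3,0)]⟩,⟨6,[(1,3),(1,1),(0,0),(2,3),(3,1),(7,0),(4,1),(2,2),(12,2)]⟩⟩,⟨true,0,⟨0,
  [(41,0)]⟩,⟨0,[(42,0)]⟩⟩,⟨false,0,⟨0,[(8,0),(6,0),(0,0),(2,0),(6,0)]⟩,⟨2,[(1,0),(2,0),(2,0),(3,0),
  (7,0),(4,0),(2,1),(12,0)]⟩⟩,[.o ⟨false,0,⟨0,[(30,0),(11,0)]⟩,⟨3,[(11,3),(12,0),(0,0),(18,1)]⟩⟩,.o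
  ⟨false,1,⟨3,[(24,0),(0,0),(4,3),(11,3),(1,1)]⟩,⟨0,[(11,0)]⟩⟩,.o ⟨false,1,⟨7,[(1,3),(22,0),(0,0),
  (1,3),(9,1)]⟩,⟨2,[(8,0),(17,2),(2,0),(7,0)]⟩⟩,.a ⟨true,0,⟨0,[(27,0)]⟩,⟨0,[(26,0)]⟩⟩ ⟨false,1,⟨1,
  [(24,0),(18,0)]⟩,⟨1,[(0,0),(9,0),(4,0),(0,0),(2,1),(20,0)]⟩⟩ ⟨true,0,⟨0,[(26,0),(3,0),(11,0)]⟩,⟨0,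
  [(11,0),(15,0)]⟩⟩]⟩) (.I [1,-1,0,1,0,0,0,-1,-1] (.R ⟨1,false,false,true,[1,0,0,-1],[0,-1,1],[1,0,
  0,0,0,0,0,0,-1],(⟨0,[(27,0)]⟩,⟨0,[(28,0)]⟩),(⟨0,[(13,0)]⟩,⟨1,[(10,0),(0,0),(24,0)]⟩),⟨0,[(7,0)]⟩,
  .k,.k,(.x (-1) ⟨3,[(25,0),(0,0),(11,1),(0,3)]⟩ ⟨0,[(40,0)]⟩),(.r 0 ⟨1,[(0,0),(5,0),(25,0),(0,0)]⟩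
  ⟨0,[(16,0),(0,0),(2,0),(22,0)]⟩),.k,.k,⟨false,0,⟨0,[(0,0)]⟩,⟨5,[(10,1),(9,3),(5,2),(4,5),(5,1),(1,
  3),(3,1),(0,0)]⟩⟩,⟨true,(-1),⟨0,[(9,0),(17,0)]⟩,⟨0,[(2,0),(31,0)]⟩⟩,⟨true,0,⟨0,[]⟩,⟨0,[(47,0)]⟩⟩,
  ⟨false,0,⟨0,[(11,0),(5,0),(2,0),(6,0),(3,0)]⟩,⟨3,[(0,1),(1,1),(5,1),(11,1),(4,0),(2,1),(16,0)]⟩⟩,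
  ⟨false,1,⟨11,[(8,3),(7,3),(8,0),(0,0),(11,1),(6,7)]⟩,⟨0,[(43,0)]⟩⟩,⟨false,0,⟨0,[(9,0),(6,0),(0,0),
  (2,0),(6,0)]⟩,⟨3,[(0,0),(1,0),(2,0),(2,0),(3,0),(7,1),(4,0),(2,2),(16,0)]⟩⟩,[.o ⟨false,0,⟨0,[(31,
  0),(11,0)]⟩,⟨3,[(12,3),(12,0),(0,0),(18,1)]⟩⟩,.o ⟨false,1,⟨7,[(1,7),(22,3),(0,0),(0,4),(11,1)]⟩,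
  ⟨0,[(12,0)]⟩⟩,.o ⟨false,1,⟨7,[(2,3),(22,0),(0,0),(1,3),(9,1)]⟩,⟨2,[(9,0),(17,2),(2,0),(7,0)]⟩⟩,.a
  ⟨true,0,⟨0,[(28,0)]⟩,⟨0,[(27,0)]⟩⟩ ⟨false,1,⟨5,[(0,1),(0,1),(23,0),(18,2),(0,1)]⟩,⟨2,[(9,0),(1,0),
  (5,0),(2,0),(2,0),(2,0)]⟩⟩ ⟨true,0,⟨0,[(27,0),(3,0),(11,0)]⟩,⟨0,[(12,0),(15,0)]⟩⟩]⟩) (.R ⟨1,false,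
  false,true,[1,0,0,-1],[0,-1,1],[0,1,0,-1,0,0,0,0,-1],(⟨0,[(27,0)]⟩,⟨0,[(28,0)]⟩),(⟨0,[(13,0)]⟩,⟨1,
  [(10,0),(0,0),(24,0)]⟩),⟨0,[(7,0)]⟩,.k,.k,(.x (-1) ⟨3,[(25,0),(0,0),(11,1),(0,3)]⟩ ⟨0,[(40,0)]⟩),
  (.r 0 ⟨1,[(8,0),(0,0),(15,0),(9,0)]⟩ ⟨7,[(0,5),(0,1),(15,5),(7,0),(18,0)]⟩),.k,.k,⟨false,0,⟨0,[(4,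
  0),(30,0)]⟩,⟨1,[(0,0),(0,0),(10,0),(3,0),(0,1)]⟩⟩,⟨true,(-1),⟨0,[(9,0),(17,0)]⟩,⟨0,[(2,0),(31,
  0)]⟩⟩,⟨false,0,⟨0,[(43,0)]⟩,⟨11,[(8,3),(7,3),(8,0),(0,0),(11,1),(6,7)]⟩⟩,⟨false,0,⟨3,[(0,3),(2,0),
  (3,0),(1,1),(14,0),(2,1),(17,1)]⟩,⟨16,[(1,2),(0,8),(1,0),(0,2),(2,8),(3,7),(12,4),(2,7),(12,6)]⟩⟩,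
  ⟨true,0,⟨0,[(47,0)]⟩,⟨0,[]⟩⟩,⟨false,0,⟨17,[(0,7),(2,8),(3,8),(1,5),(6,7),(0,1),(6,0),(1,3),(4,1),
  (9,7)]⟩,⟨2,[(2,0),(2,0),(2,0),(3,0),(7,0),(4,0),(2,1),(12,0)]⟩⟩,[.o ⟨false,0,⟨16,[(0,5),(0,1),(3,
  3),(3,1),(1,1),(9,0),(9,13)]⟩,⟨3,[(12,3),(12,0),(0,0),(18,1)]⟩⟩,.o ⟨false,1,⟨11,[(0,9),(0,1),(22,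
  5),(0,3),(12,2),(6,4)]⟩,⟨0,[(12,0)]⟩⟩,.o ⟨false,1,⟨7,[(2,3),(22,0),(0,0),(1,3),(9,1)]⟩,⟨2,[(9,0),
  (17,2),(2,0),(7,0)]⟩⟩,.a ⟨true,0,⟨0,[(28,0)]⟩,⟨0,[(27,0)]⟩⟩ ⟨false,1,⟨5,[(0,1),(4,1),(19,2),(18,
  0)]⟩,⟨0,[(0,0),(7,0),(6,0),(25,0)]⟩⟩ ⟨true,0,⟨16,[(0,5),(0,1),(3,3),(3,1),(1,1),(9,0),(5,16),(3,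
  13)]⟩,⟨0,[(12,0),(15,0)]⟩⟩]⟩)))) (.I [0,0,1,1,0,0,0,1,1] (.Q [0,0,1,2,0,0,1,1,1,2,-1,-1] (.p
  false [-1,1,1] [1,0,0,-1] (⟨0,[(20,0)]⟩,⟨0,[(34,0),(2,0)]⟩) .k 2 (⟨0,[(25,0)]⟩,⟨0,[(26,0)]⟩) .k
  (.r (-1) ⟨7,[(0,7),(2,3),(10,3),(3,3),(4,0),(0,2)]⟩ ⟨0,[(2,0),(30,0)]⟩)) (.R ⟨1,false,false,true,
  [1,0,0,-1],[-1,1,1],[0,0,0,-1,0,0,0,0,-1],(⟨0,[(26,0)]⟩,⟨0,[(27,0)]⟩),(⟨0,[(21,0)]⟩,⟨0,[(35,0),(2,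
  0)]⟩),⟨0,[(6,0)]⟩,.k,.k,(.x (-1) ⟨7,[(2,3),(3,3),(17,2),(0,2),(11,1)]⟩ ⟨0,[(39,0)]⟩),(.r (-1) ⟨15,
  [(4,7),(18,3),(0,4),(0,0),(5,7),(5,1)]⟩ ⟨0,[(1,0)]⟩),(.r (-1) ⟨0,[(4,0),(41,0)]⟩ ⟨5,[(1,6),(3,2),
  (1,0),(0,0),(16,0)]⟩),.k,⟨false,1,⟨0,[(4,0)]⟩,⟨0,[(1,0),(39,0)]⟩⟩,⟨true,0,⟨5,[(9,0),(0,0),(12,2),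
  (2,5),(9,0),(1,1)]⟩,⟨4,[(1,0),(3,0),(2,0),(2,2),(7,4),(7,4),(2,1),(6,0),(2,0)]⟩⟩,⟨true,0,⟨0,[(42,
  0)]⟩,⟨0,[(41,0)]⟩⟩,⟨false,0,⟨0,[(0,0),(41,0)]⟩,⟨18,[(2,8),(0,9),(0,8),(4,2),(1,9),(6,4),(0,5),(1,
  2),(5,9),(9,6),(2,4)]⟩⟩,⟨false,1,⟨3,[(24,0),(0,0),(18,1)]⟩,⟨0,[]⟩⟩,⟨false,0,⟨0,[(0,0)]⟩,⟨10,[(3,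
  3),(0,6),(6,1),(6,0),(0,6),(0,1),(6,10),(9,3),(2,2)]⟩⟩,[.o ⟨false,0,⟨0,[(15,0)]⟩,⟨0,[(20,0),(23,
  0)]⟩⟩,.o ⟨false,1,⟨3,[(15,3),(8,0),(0,0),(18,1)]⟩,⟨0,[(17,0),(0,0)]⟩⟩,.o ⟨false,1,⟨1,[(27,1),(9,
  0),(5,0)]⟩,⟨2,[(8,0),(17,2),(2,0),(7,0)]⟩⟩,.a ⟨true,0,⟨0,[(27,0)]⟩,⟨0,[(26,0)]⟩⟩ ⟨false,1,⟨1,[(3,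
  0),(0,0),(10,0),(3,0),(24,0)]⟩,⟨2,[(1,0),(5,0),(0,0),(16,0)]⟩⟩ ⟨true,0,⟨0,[(15,0),(10,0)]⟩,⟨0,
  [(17,0),(0,0),(8,0)]⟩⟩]⟩) (.R ⟨1,true,false,true,[1,0,0,-1],[-1,1,1],[0,0,0,-1,0,0,0,0,-1],(⟨0,
  [(26,0)]⟩,⟨0,[(27,0)]⟩),(⟨0,[(21,0)]⟩,⟨0,[(35,0),(2,0)]⟩),⟨0,[(6,0)]⟩,.k,.k,(.x (-1) ⟨7,[(2,3),(3,
  3),(17,2),(0,2),(11,1)]⟩ ⟨0,[(39,0)]⟩),(.r (-1) ⟨15,[(4,7),(18,3),(0,4),(0,0),(5,7),(5,1)]⟩ ⟨0,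
  [(1,0)]⟩),(.r (-1) ⟨0,[(4,0),(41,0)]⟩ ⟨5,[(1,6),(3,2),(1,0),(0,0),(16,0)]⟩),.k,⟨false,1,⟨0,[(4,
  0)]⟩,⟨0,[(1,0),(39,0)]⟩⟩,⟨true,0,⟨5,[(9,0),(0,0),(12,2),(2,5),(9,0),(1,1)]⟩,⟨14,[(0,8),(0,11),(3,
  2),(2,1),(2,2),(15,5),(1,4),(7,1)]⟩⟩,⟨true,0,⟨0,[(42,0)]⟩,⟨0,[(41,0)]⟩⟩,⟨false,0,⟨1,[(1,0),(8,0),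
  (4,0),(0,0),(9,1)]⟩,⟨7,[(0,5),(6,1),(16,0),(2,1),(9,1),(5,0),(0,3)]⟩⟩,⟨false,1,⟨3,[(24,0),(0,0),
  (18,1)]⟩,⟨0,[]⟩⟩,⟨true,0,⟨4,[(1,2),(5,0),(2,0),(4,2),(7,0),(1,0),(0,4),(14,1)]⟩,⟨0,[(0,0)]⟩⟩,
  []⟩)) (.R ⟨1,false,false,true,[1,0,0,-1],[0,-1,1],[1,0,0,0,0,0,0,0,-1],(⟨0,[(25,0)]⟩,⟨0,[(26,
  0)]⟩),(⟨0,[(11,0)]⟩,⟨1,[(8,0),(0,0),(24,0)]⟩),⟨0,[(5,0)]⟩,.k,.k,(.x (-1) ⟨7,[(1,3),(3,3),(17,2),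
  (0,2),(11,1)]⟩ ⟨0,[(38,0)]⟩),(.r 0 ⟨1,[(6,0),(0,0),(15,0),(9,0)]⟩ ⟨0,[(14,0),(0,0),(2,0),(22,
  0)]⟩),.k,.k,⟨false,0,⟨0,[(0,0),(9,0),(3,0),(24,0)]⟩,⟨5,[(8,1),(9,3),(5,2),(4,5),(5,1),(1,3),(3,1),
  (0,0)]⟩⟩,⟨true,(-1),⟨0,[(7,0),(17,0)]⟩,⟨5,[(1,5),(6,1),(6,1),(2,1),(1,1),(0,1),(1,0),(12,0)]⟩⟩,
  ⟨true,0,⟨0,[]⟩,⟨0,[(45,0)]⟩⟩,⟨false,0,⟨0,[(9,0),(5,0),(2,0),(6,0),(3,0)]⟩,⟨1,[(2,1),(7,1),(15,1),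
  (15,0),(0,0)]⟩⟩,⟨false,1,⟨11,[(6,3),(7,3),(8,0),(0,0),(11,1),(6,7)]⟩,⟨0,[(41,0)]⟩⟩,⟨false,0,⟨0,
  [(7,0),(6,0),(0,0),(2,0),(6,0)]⟩,⟨2,[(1,2),(1,0),(4,0),(1,1),(9,0),(2,0),(15,0)]⟩⟩,[.o ⟨false,0,
  ⟨0,[(29,0),(11,0)]⟩,⟨3,[(10,3),(12,0),(0,0),(18,1)]⟩⟩,.o ⟨false,1,⟨3,[(23,0),(0,0),(4,3),(11,3),
  (1,1)]⟩,⟨0,[(10,0)]⟩⟩,.o ⟨false,1,⟨1,[(26,1),(9,0),(5,0)]⟩,⟨2,[(7,0),(17,2),(2,0),(7,0)]⟩⟩,.a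
  ⟨true,0,⟨0,[(26,0)]⟩,⟨0,[(25,0)]⟩⟩ ⟨false,1,⟨1,[(2,1),(39,0),(0,0)]⟩,⟨2,[(7,0),(1,0),(5,0),(2,0),
  (2,0),(2,0)]⟩⟩ ⟨true,0,⟨0,[(25,0),(3,0),(11,0)]⟩,⟨0,[(10,0),(15,0)]⟩⟩]⟩))) (.R ⟨1,false,false,
  false,[1,0,0,-1],[1,-1],[0,0,0,-1,0,0,0,0,-1],(⟨0,[(23,0)]⟩,⟨0,[(24,0)]⟩),(⟨0,[(35,0)]⟩,⟨0,[(36,
  0)]⟩),⟨0,[(3,0)]⟩,.k,.k,(.x (-1) ⟨3,[(21,0),(0,0),(11,1),(0,3)]⟩ ⟨0,[(36,0)]⟩),(.r 0 ⟨0,[(2,0)]⟩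
  ⟨1,[(22,0),(16,1),(0,0)]⟩),.k,.k,⟨true,0,⟨2,[(2,0),(4,0),(8,0),(4,0)]⟩,⟨0,[(0,0)]⟩⟩,⟨false,0,⟨2,
  [(5,0),(17,2),(2,0),(7,0)]⟩,⟨0,[(24,0),(15,0)]⟩⟩,⟨true,0,⟨0,[(39,0)]⟩,⟨0,[(38,0)]⟩⟩,⟨false,0,⟨3,
  [(0,1),(4,0),(9,2),(0,0),(5,0),(0,3),(13,1)]⟩,⟨0,[(2,0),(21,0),(15,0)]⟩⟩,⟨false,1,⟨3,[(21,0),(0,
  0),(18,1)]⟩,⟨0,[]⟩⟩,⟨false,0,⟨5,[(0,5),(4,0),(2,1),(6,0),(0,0),(6,5),(3,1),(6,0),(2,3)]⟩,⟨1,[(21,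
  0),(2,1),(15,0)]⟩⟩,[.o ⟨false,0,⟨0,[(15,0)]⟩,⟨5,[(4,1),(7,1),(8,1),(0,1),(11,0),(6,0)]⟩⟩,.o
  ⟨false,1,⟨1,[(34,0),(4,1),(1,0)]⟩,⟨0,[(38,0)]⟩⟩,.o ⟨false,1,⟨1,[(24,1),(9,0),(5,0)]⟩,⟨2,[(5,0),
  (17,2),(2,0),(7,0)]⟩⟩,.a ⟨true,0,⟨0,[(24,0)]⟩,⟨0,[(23,0)]⟩⟩ ⟨false,1,⟨3,[(1,1),(10,1),(3,1),(4,0),
  (15,1),(2,0)]⟩,⟨35,[(0,17),(3,11),(0,9),(6,11),(9,8),(3,9),(7,0),(2,5)]⟩⟩ ⟨true,0,⟨0,[(15,0),(7,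
  0)]⟩,⟨0,[(24,0),(13,0)]⟩⟩]⟩)) (.Q [0,1,1,0,-1,0,0,0,1,1,0,-1] (.p false [0,0,0,1] [1] (⟨0,[(23,
  0)]⟩,⟨0,[(22,0)]⟩) .k 1 (⟨0,[]⟩,⟨0,[]⟩) .k .k) (.R ⟨1,false,false,false,[1,0,0,-1],[1,-1],[1,1,0,
  0,0,0,0,0,-1],(⟨0,[(23,0)]⟩,⟨0,[(24,0)]⟩),(⟨0,[(35,0)]⟩,⟨0,[(36,0)]⟩),⟨0,[(3,0)]⟩,.k,.k,(.x (-1)
  ⟨3,[(21,0),(0,0),(11,1),(0,3)]⟩ ⟨0,[(36,0)]⟩),(.r 0 ⟨0,[(2,0)]⟩ ⟨1,[(22,0),(16,1),(0,0)]⟩),.k,.k,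
  ⟨true,0,⟨0,[(2,0),(40,0)]⟩,⟨0,[(0,0),(14,0),(8,0),(12,0),(2,0)]⟩⟩,⟨false,0,⟨2,[(5,0),(17,2),(2,0),
  (7,0)]⟩,⟨0,[(24,0),(15,0)]⟩⟩,⟨false,0,⟨0,[]⟩,⟨3,[(21,0),(0,0),(18,1)]⟩⟩,⟨false,0,⟨2,[(0,0),(14,2),
  (6,0),(0,1),(13,1)]⟩,⟨0,[(2,0),(21,0),(15,0)]⟩⟩,⟨true,0,⟨0,[(38,0)]⟩,⟨0,[(39,0)]⟩⟩,⟨false,0,⟨7,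
  [(0,3),(0,0),(6,0),(2,0),(1,2),(1,2),(7,3),(10,1),(2,4)]⟩,⟨1,[(21,0),(2,1),(15,0)]⟩⟩,[.o ⟨false,0,
  ⟨0,[(15,0)]⟩,⟨5,[(4,1),(7,1),(8,1),(0,1),(11,0),(6,0)]⟩⟩,.o ⟨false,1,⟨1,[(34,0),(4,1),(1,0)]⟩,⟨0,
  [(38,0)]⟩⟩,.o ⟨false,1,⟨1,[(24,1),(9,0),(5,0)]⟩,⟨2,[(5,0),(17,2),(2,0),(7,0)]⟩⟩,.a ⟨true,0,⟨0,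
  [(24,0)]⟩,⟨0,[(23,0)]⟩⟩ ⟨false,1,⟨1,[(21,0),(18,0)]⟩,⟨24,[(0,5),(0,1),(3,3),(7,6),(2,1),(0,1),(4,
  4),(1,5),(12,13)]⟩⟩ ⟨true,0,⟨0,[(15,0),(7,0)]⟩,⟨0,[(24,0),(13,0)]⟩⟩]⟩) (.I [0,0,0,-1,0,0,0,0,1]
  (.R ⟨1,false,false,false,[1,0,0,-1],[1,-1],[1,0,0,0,0,0,0,0,-1],(⟨0,[(24,0)]⟩,⟨0,[(25,0)]⟩),(⟨0,
  [(36,0)]⟩,⟨0,[(37,0)]⟩),⟨0,[(4,0)]⟩,.k,.k,(.x (-1) ⟨3,[(22,0),(0,0),(11,1),(0,3)]⟩ ⟨0,[(37,0)]⟩),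
  (.r 0 ⟨0,[(3,0)]⟩ ⟨3,[(0,3),(21,0),(0,0),(17,1)]⟩),.k,.k,⟨true,0,⟨0,[(3,0)]⟩,⟨0,[(0,0)]⟩⟩,⟨false,
  0,⟨2,[(6,0),(17,2),(2,0),(7,0)]⟩,⟨0,[(25,0),(15,0)]⟩⟩,⟨true,0,⟨0,[]⟩,⟨0,[(44,0)]⟩⟩,⟨false,0,⟨6,
  [(0,4),(1,0),(3,0),(7,0),(1,2),(1,0),(5,6),(10,0),(2,3)]⟩,⟨2,[(1,0),(3,0),(7,0),(8,0),(2,1),(15,
  0)]⟩⟩,⟨false,1,⟨11,[(5,3),(7,3),(8,0),(0,0),(11,1),(6,7)]⟩,⟨0,[(40,0)]⟩⟩,⟨false,0,⟨9,[(0,0),(1,2),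
  (3,2),(2,1),(4,5),(1,5),(1,0),(5,9),(13,3)]⟩,⟨1,[(22,0),(2,1),(15,0)]⟩⟩,[.o ⟨false,0,⟨0,[(16,0)]⟩,
  ⟨5,[(5,1),(7,1),(8,1),(0,1),(11,0),(6,0)]⟩⟩,.o ⟨false,1,⟨1,[(35,0),(4,1),(1,0)]⟩,⟨0,[(39,0)]⟩⟩,.o
  ⟨false,1,⟨1,[(25,1),(9,0),(5,0)]⟩,⟨2,[(6,0),(17,2),(2,0),(7,0)]⟩⟩,.a ⟨true,0,⟨0,[(25,0)]⟩,⟨0,[(24,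
  0)]⟩⟩ ⟨false,1,⟨0,[(1,0),(22,0)]⟩,⟨23,[(0,3),(1,1),(5,6),(6,1),(7,8),(3,4),(10,0)]⟩⟩ ⟨true,0,⟨0,
  [(16,0),(7,0)]⟩,⟨0,[(25,0),(13,0)]⟩⟩]⟩) (.I [0,0,0,0,0,0,0,-1,1] (.R ⟨1,false,false,false,[1,0,0,
  -1],[1,0,-1],[1,0,0,0,0,0,0,0,-1],(⟨0,[(25,0)]⟩,⟨0,[(26,0)]⟩),(⟨0,[(34,0)]⟩,⟨0,[(35,0)]⟩),⟨0,[(5,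
  0)]⟩,.k,.k,(.x (-1) ⟨3,[(23,0),(0,0),(11,1),(0,3)]⟩ ⟨0,[(38,0)]⟩),.k,(.r (-1) ⟨0,[(2,0),(11,0),(3,
  0),(6,0),(15,0)]⟩ ⟨2,[(0,0),(5,0),(2,0),(0,0),(13,0),(6,0)]⟩),.k,⟨false,1,⟨0,[(2,0),(11,0),(3,0),
  (6,0)]⟩,⟨0,[(0,0)]⟩⟩,⟨true,0,⟨0,[(25,0),(2,0)]⟩,⟨0,[(13,0),(12,0)]⟩⟩,⟨true,0,⟨0,[]⟩,⟨0,[(45,0)]⟩⟩,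
  ⟨false,0,⟨14,[(0,11),(2,0),(6,3),(7,5),(5,0),(0,14),(2,4),(10,7)]⟩,⟨0,[(2,0),(11,0),(26,0)]⟩⟩,
  ⟨false,1,⟨11,[(6,3),(7,3),(8,0),(0,0),(11,1),(6,7)]⟩,⟨0,[(41,0)]⟩⟩,⟨false,0,⟨4,[(0,1),(2,0),(6,3),
  (7,0),(5,0),(0,4),(13,2)]⟩,⟨0,[(2,0),(11,0),(26,1)]⟩⟩,[.o ⟨false,0,⟨0,[(16,0)]⟩,⟨3,[(23,0),(0,0),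
  (4,3),(13,1)]⟩⟩,.o ⟨false,1,⟨7,[(10,1),(8,1),(10,3),(5,0),(6,6)]⟩,⟨0,[(29,0)]⟩⟩,.o ⟨false,1,⟨1,
  [(26,1),(9,0),(5,0)]⟩,⟨2,[(7,0),(17,2),(2,0),(7,0)]⟩⟩,.a ⟨true,0,⟨0,[(26,0)]⟩,⟨0,[(25,0)]⟩⟩
  ⟨false,1,⟨0,[(2,0),(22,0)]⟩,⟨21,[(0,1),(2,1),(5,6),(8,3),(5,8),(3,2),(10,0)]⟩⟩ ⟨true,0,⟨0,[(16,0),
  (8,0)]⟩,⟨0,[(26,0),(2,0)]⟩⟩]⟩) (.R ⟨1,false,false,true,[1,0,0,-1],[0,1],[0,1,0,-1,0,0,0,0,-1],(⟨0,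
  [(25,0)]⟩,⟨0,[(26,0)]⟩),(⟨0,[(38,0)]⟩,⟨0,[(37,0)]⟩),⟨0,[(5,0)]⟩,.k,.k,(.x (-1) ⟨3,[(23,0),(0,0),
  (11,1),(0,3)]⟩ ⟨0,[(38,0)]⟩),(.x (-1) ⟨3,[(23,0),(0,0),(11,1),(0,3)]⟩ ⟨0,[(38,0)]⟩),(.r (-1) ⟨0,
  [(0,0),(32,0),(7,1),(0,0)]⟩ ⟨39,[(3,17),(0,7),(1,17),(2,5),(14,14),(3,5),(2,17),(11,8)]⟩),.k,
  ⟨false,1,⟨0,[(0,0),(32,0),(7,1),(0,0)]⟩,⟨15,[(3,7),(2,7),(8,1),(6,3),(1,2),(11,1),(2,1),(3,0)]⟩⟩,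
  ⟨true,0,⟨0,[(25,0)]⟩,⟨2,[(7,0),(18,2),(1,0),(7,0)]⟩⟩,⟨false,0,⟨0,[(41,0)]⟩,⟨11,[(6,3),(7,3),(8,0),
  (0,0),(11,1),(6,7)]⟩⟩,⟨false,0,⟨7,[(3,1),(2,1),(0,1),(16,2),(0,7),(17,0)]⟩,⟨0,[(2,0),(38,0)]⟩⟩,
  ⟨true,0,⟨0,[(45,0)]⟩,⟨0,[]⟩⟩,⟨false,0,⟨15,[(3,7),(2,7),(8,1),(6,3),(1,2),(0,15),(10,1),(2,1),(3,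
  0)]⟩,⟨0,[(2,0),(38,1)]⟩⟩,[.o ⟨false,0,⟨0,[(40,0)]⟩,⟨1,[(36,0),(4,1),(1,0)]⟩⟩,.o ⟨false,1,⟨5,[(6,
  1),(7,1),(8,1),(0,1),(11,0),(6,0)]⟩,⟨0,[(17,0)]⟩⟩,.o ⟨false,1,⟨1,[(26,1),(9,0),(5,0)]⟩,⟨2,[(7,0),
  (17,2),(2,0),(7,0)]⟩⟩,.a ⟨true,0,⟨0,[(26,0)]⟩,⟨0,[(25,0)]⟩⟩ ⟨false,1,⟨1,[(23,0),(17,1),(0,0)]⟩,⟨2,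
  [(3,0),(5,0),(0,0),(4,1),(23,0)]⟩⟩ ⟨true,0,⟨0,[(25,0),(14,0)]⟩,⟨0,[(17,0),(8,0)]⟩⟩]⟩))))) (.K ⟨0,
  [0,0,0,1],0,(-1),(⟨0,[(22,0)]⟩,⟨0,[(21,0)]⟩),.k,(.x 0 ⟨0,[(24,0),(2,0),(5,0)]⟩ ⟨4,[(4,1),(11,0),
  (1,0),(12,0),(6,2)]⟩),(.x 0 ⟨0,[(34,0)]⟩ ⟨3,[(19,0),(0,0),(11,1),(0,3)]⟩),.k,.k,[⟨0,[(22,0)]⟩,⟨0,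
  [(21,0)]⟩,⟨1,[(19,0),(2,1),(15,0),(2,1)]⟩,⟨0,[(0,0),(2,0),(2,0),(3,0),(3,0),(6,0)]⟩]⟩))))) (.Q [0,
  0,0,0,0,-1,0,0,0,1,0,-1] (.ed true [0,1,0,1] .k) (.I [0,-1,-2,-2,1,0,0,0,-1] (.Q [0,-1,1,1,0,0,-1,
  -1,1,0,1,-1] (.p true [0,0,1] [0,0,0,1] (⟨0,[(29,0)]⟩,⟨0,[(28,0)]⟩) .k 2 (⟨0,[(20,0)]⟩,⟨0,[(19,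
  0)]⟩) .k (.x (-1) ⟨7,[(16,3),(0,0),(0,0),(10,7),(0,1),(5,3)]⟩ ⟨0,[(22,0),(5,0)]⟩)) (.R ⟨1,false,
  false,true,[1,0,0,-1],[0,1],[0,0,0,-1,0,0,0,0,-1],(⟨0,[(20,0)]⟩,⟨0,[(21,0)]⟩),(⟨0,[(33,0)]⟩,⟨0,
  [(32,0)]⟩),⟨0,[(2,0)]⟩,.k,.k,(.x (-1) ⟨3,[(18,0),(0,0),(11,1),(0,3)]⟩ ⟨0,[(33,0)]⟩),(.x (-1) ⟨3,
  [(18,0),(0,0),(11,1),(0,3)]⟩ ⟨0,[(33,0)]⟩),(.r (-1) ⟨0,[(1,0),(38,0)]⟩ ⟨1,[(4,0),(0,1),(3,1),(9,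
  0),(3,0),(10,0)]⟩),.k,⟨false,1,⟨0,[(1,0)]⟩,⟨3,[(0,1),(3,0),(0,2),(3,1),(6,0),(2,0),(1,1),(2,2)]⟩⟩,
  ⟨true,0,⟨0,[(20,0)]⟩,⟨9,[(4,2),(0,1),(6,1),(8,9),(1,2),(0,1),(6,2),(2,0)]⟩⟩,⟨true,0,⟨0,[(36,0)]⟩,
  ⟨0,[(35,0)]⟩⟩,⟨false,0,⟨4,[(0,2),(3,0),(4,2),(3,0),(5,0),(0,1)]⟩,⟨6,[(1,4),(3,3),(6,0),(5,0),(2,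
  6),(2,3),(6,0),(2,2)]⟩⟩,⟨false,1,⟨3,[(18,0),(0,0),(18,1)]⟩,⟨0,[]⟩⟩,⟨false,0,⟨0,[(0,0),(8,0)]⟩,⟨5,
  [(1,3),(10,2),(0,0),(4,0),(2,5),(4,0),(4,0),(2,0)]⟩⟩,[.o ⟨false,0,⟨0,[(35,0)]⟩,⟨7,[(1,1),(11,3),
  (5,0),(6,3),(4,1),(6,2)]⟩⟩,.o ⟨false,1,⟨3,[(18,0),(0,0),(15,3),(2,1)]⟩,⟨0,[(12,0)]⟩⟩,.o ⟨false,1,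
  ⟨1,[(21,1),(9,0),(5,0)]⟩,⟨9,[(4,2),(0,1),(6,1),(7,9),(2,2),(0,1),(6,2),(2,0)]⟩⟩,.a ⟨true,0,⟨0,
  [(21,0)]⟩,⟨0,[(20,0)]⟩⟩ ⟨false,1,⟨3,[(1,1),(16,0),(19,0)]⟩,⟨0,[(0,0),(20,0),(2,0)]⟩⟩ ⟨true,0,⟨0,
  [(20,0),(14,0)]⟩,⟨0,[(12,0),(8,0)]⟩⟩]⟩) (.K ⟨0,[0,0,0,1],0,0,(⟨0,[(21,0)]⟩,⟨0,[(20,0)]⟩),.k,(.r
  (-1) ⟨1,[(19,0),(16,1),(0,0)]⟩ ⟨15,[(0,5),(3,4),(0,13),(3,7),(8,4),(1,5),(2,4),(10,6)]⟩),(.x 0 ⟨0,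
  [(33,0)]⟩ ⟨3,[(18,0),(0,0),(11,1),(0,3)]⟩),.k,.k,[⟨0,[(21,0)]⟩,⟨0,[(20,0)]⟩,⟨0,[(0,0),(6,0)]⟩,⟨5,
  [(4,2),(0,3),(7,2),(0,0),(4,2),(0,5),(3,4)]⟩]⟩)) (.I [0,0,-1,-1,0,0,0,0,1] (.Q [0,1,1,0,-1,0,0,0,
  1,0,0,-1] (.p false [0,0,0,1] [] (⟨0,[(21,0)]⟩,⟨0,[(20,0)]⟩) .k 0 (⟨0,[]⟩,⟨0,[]⟩) .k .k) (.K ⟨0,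
  [0,0,0,1],0,(-1),(⟨0,[(22,0)]⟩,⟨0,[(21,0)]⟩),.k,(.r 0 ⟨0,[(1,0)]⟩ ⟨3,[(2,1),(16,3),(0,0),(18,
  0)]⟩),(.x 0 ⟨0,[(34,0)]⟩ ⟨3,[(19,0),(0,0),(11,1),(0,3)]⟩),.k,.k,[⟨0,[(22,0)]⟩,⟨0,[(21,0)]⟩,⟨1,
  [(19,0),(2,1),(15,0),(2,1)]⟩,⟨0,[(0,0)]⟩]⟩) (.K ⟨0,[1,1,-1],1,0,(⟨0,[(30,0),(3,0)]⟩,⟨0,[(7,0)]⟩),
  .k,.k,(.r 0 ⟨1,[(2,1),(16,0),(9,1),(9,0)]⟩ ⟨0,[(0,0),(0,0),(12,0),(6,0),(3,0)]⟩),.k,.k,[⟨0,[(5,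
  0)]⟩,⟨0,[(0,0),(0,0),(4,0),(3,0),(3,0),(6,0)]⟩,⟨0,[(10,0),(26,1)]⟩,⟨1,[(6,0),(16,0),(12,0)]⟩]⟩))
  (.I [0,0,-2,-2,1,0,0,-1,-1] (.Q [0,-1,-1,-1,1,0,-1,-1,-1,-2,1,1] (.p true [-1,1,1] [1,0,0,-1] (⟨0,
  [(16,0)]⟩,⟨0,[(30,0),(2,0)]⟩) .k 2 (⟨0,[(21,0)]⟩,⟨0,[(22,0)]⟩) .k (.x 0 ⟨0,[(27,0),(3,0)]⟩ ⟨3,
  [(14,1),(2,1),(12,3),(1,0),(5,1),(0,0)]⟩)) (.R ⟨1,false,false,true,[1,0,0,-1],[-1,1,1],[0,1,0,-1,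
  0,0,0,0,-1],(⟨0,[(22,0)]⟩,⟨0,[(23,0)]⟩),(⟨0,[(17,0)]⟩,⟨0,[(31,0),(2,0)]⟩),⟨0,[(4,0)]⟩,.k,.k,(.x
  (-1) ⟨3,[(20,0),(0,0),(11,1),(0,3)]⟩ ⟨0,[(35,0)]⟩),(.r (-1) ⟨7,[(1,3),(18,2),(0,0),(8,3)]⟩ ⟨1,[(3,
  0),(7,1),(0,0),(2,1),(20,0)]⟩),(.r (-1) ⟨0,[(1,0)]⟩ ⟨1,[(3,0),(7,1),(0,0),(12,1),(10,0)]⟩),.k,
  ⟨false,1,⟨0,[(1,0)]⟩,⟨0,[(3,0),(7,0),(3,0),(20,0),(2,0)]⟩⟩,⟨true,0,⟨1,[(19,0),(2,2),(0,0)]⟩,⟨4,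
  [(0,2),(2,2),(11,3),(2,0),(4,1),(2,2),(9,1)]⟩⟩,⟨false,0,⟨0,[(38,0)]⟩,⟨0,[(2,0),(9,0)]⟩⟩,⟨false,0,
  ⟨3,[(3,0),(2,1),(4,3),(0,2),(2,1),(6,3),(13,0)]⟩,⟨0,[(0,0)]⟩⟩,⟨true,0,⟨0,[(42,0)]⟩,⟨0,[]⟩⟩,⟨false,
  0,⟨1,[(3,0),(7,1),(0,0),(9,1),(13,0)]⟩,⟨0,[(0,0),(37,0)]⟩⟩,[.o ⟨false,0,⟨0,[(11,0)]⟩,⟨0,[(16,0),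
  (23,0)]⟩⟩,.o ⟨false,1,⟨3,[(11,3),(8,0),(0,0),(18,1)]⟩,⟨0,[(13,0),(0,0)]⟩⟩,.o ⟨false,1,⟨1,[(23,1),
  (9,0),(5,0)]⟩,⟨15,[(2,1),(0,1),(2,2),(7,5),(7,15),(2,2),(7,4),(2,0)]⟩⟩,.a ⟨true,0,⟨0,[(23,0)]⟩,⟨0,
  [(22,0)]⟩⟩ ⟨false,1,⟨3,[(1,1),(9,1),(3,1),(4,0),(19,0)]⟩,⟨1,[(3,0),(8,0),(23,0)]⟩⟩ ⟨true,0,⟨0,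
  [(11,0),(10,0)]⟩,⟨0,[(13,0),(0,0),(8,0)]⟩⟩]⟩) (.R ⟨1,true,false,true,[1,0,0,-1],[-1,1,1],[0,1,0,
  -1,0,0,0,0,-1],(⟨0,[(22,0)]⟩,⟨0,[(23,0)]⟩),(⟨0,[(17,0)]⟩,⟨0,[(31,0),(2,0)]⟩),⟨0,[(4,0)]⟩,.k,.k,
  (.x (-1) ⟨3,[(20,0),(0,0),(11,1),(0,3)]⟩ ⟨0,[(35,0)]⟩),(.r (-1) ⟨7,[(1,3),(18,2),(0,0),(8,3)]⟩ ⟨1,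
  [(3,0),(7,1),(0,0),(2,1),(20,0)]⟩),(.r (-1) ⟨0,[(1,0)]⟩ ⟨1,[(3,0),(7,1),(0,0),(12,1),(10,0)]⟩),.k,
  ⟨false,1,⟨0,[(1,0)]⟩,⟨0,[(3,0),(7,0),(3,0),(20,0),(2,0)]⟩⟩,⟨true,0,⟨1,[(19,0),(2,2),(0,0)]⟩,⟨8,
  [(2,1),(0,1),(3,3),(6,0),(0,8),(7,8),(2,3),(6,1),(2,2)]⟩⟩,⟨false,0,⟨0,[(38,0)]⟩,⟨0,[(2,0),(9,
  0)]⟩⟩,⟨true,(-1),⟨0,[(0,0)]⟩,⟨5,[(1,1),(5,3),(6,3),(0,1),(4,1),(2,5),(9,0),(5,0)]⟩⟩,⟨true,0,⟨0,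
  [(42,0)]⟩,⟨0,[]⟩⟩,⟨false,0,⟨0,[(0,0),(1,0),(9,0)]⟩,⟨3,[(1,1),(5,1),(6,3),(0,1),(4,0),(2,3),(12,1),
  (2,0)]⟩⟩,[]⟩)) (.I [1,0,-1,0,0,0,0,-1,1] (.R ⟨1,false,false,false,[1,0,0,-1],[1,-1],[1,1,0,0,0,0,
  0,0,-1],(⟨0,[(22,0)]⟩,⟨0,[(23,0)]⟩),(⟨0,[(34,0)]⟩,⟨0,[(35,0)]⟩),⟨0,[(4,0)]⟩,.k,.k,(.x (-1) ⟨3,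
  [(20,0),(0,0),(11,1),(0,3)]⟩ ⟨0,[(35,0)]⟩),(.x (-1) ⟨0,[(35,0),(3,0)]⟩ ⟨5,[(5,2),(0,0),(13,1),(0,
  1),(3,3),(5,2)]⟩),.k,.k,⟨true,0,⟨0,[(2,0),(39,0)]⟩,⟨1,[(0,0),(0,0),(34,0),(1,3),(0,0)]⟩⟩,⟨false,0,
  ⟨19,[(1,1),(0,1),(3,4),(7,3),(1,1),(5,19),(2,2),(7,6),(2,0)]⟩,⟨0,[(23,0),(15,0)]⟩⟩,⟨false,0,⟨0,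
  []⟩,⟨3,[(20,0),(0,0),(18,1)]⟩⟩,⟨false,0,⟨5,[(0,0),(0,0),(4,0),(7,5),(0,0),(5,1),(0,5),(13,2),(1,
  0)]⟩,⟨0,[(2,0),(20,0),(15,0)]⟩⟩,⟨true,0,⟨0,[(37,0)]⟩,⟨0,[(38,0)]⟩⟩,⟨false,0,⟨14,[(0,3),(0,4),(12,
  8),(1,0),(4,2),(0,14),(5,0),(4,1),(2,7)]⟩,⟨1,[(20,0),(2,1),(15,0)]⟩⟩,[.o ⟨false,0,⟨0,[(14,0)]⟩,⟨3,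
  [(2,1),(9,1),(7,0),(0,0),(15,1)]⟩⟩,.o ⟨false,1,⟨1,[(33,0),(4,1),(1,0)]⟩,⟨0,[(37,0)]⟩⟩,.o ⟨false,1,
  ⟨1,[(23,1),(9,0),(5,0)]⟩,⟨19,[(1,1),(0,1),(3,4),(7,3),(1,1),(5,19),(2,2),(7,6),(2,0)]⟩⟩,.a ⟨true,
  0,⟨0,[(23,0)]⟩,⟨0,[(22,0)]⟩⟩ ⟨false,1,⟨1,[(20,0),(18,0)]⟩,⟨5,[(0,0),(0,0),(4,0),(8,0),(5,1),(14,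
  2),(1,0)]⟩⟩ ⟨true,0,⟨0,[(14,0),(7,0)]⟩,⟨0,[(23,0),(13,0)]⟩⟩]⟩) (.I [0,-1,0,0,0,0,0,-1,1] (.R ⟨1,
  false,false,false,[1,0,0,-1],[1,0,-1],[1,1,0,0,0,0,0,0,-1],(⟨0,[(23,0)]⟩,⟨0,[(24,0)]⟩),(⟨0,[(32,
  0)]⟩,⟨0,[(33,0)]⟩),⟨0,[(5,0)]⟩,.k,.k,(.x (-1) ⟨3,[(21,0),(0,0),(11,1),(0,3)]⟩ ⟨0,[(36,0)]⟩),.k,
  (.r (-1) ⟨0,[(1,0),(37,0),(0,0)]⟩ ⟨3,[(4,1),(17,0),(8,3),(9,0)]⟩),.k,⟨false,1,⟨0,[(1,0),(38,0),(2,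
  0)]⟩,⟨0,[(0,0)]⟩⟩,⟨true,0,⟨0,[(23,0),(2,0)]⟩,⟨0,[(11,0),(12,0)]⟩⟩,⟨false,0,⟨0,[]⟩,⟨3,[(21,0),(0,
  0),(18,1)]⟩⟩,⟨false,0,⟨0,[(0,0),(22,0),(2,0)]⟩,⟨0,[(1,0),(9,0),(12,0),(15,0)]⟩⟩,⟨true,0,⟨0,[(38,
  0)]⟩,⟨0,[(39,0)]⟩⟩,⟨false,0,⟨16,[(0,7),(1,1),(1,0),(3,10),(13,2),(0,16),(2,5),(10,4)]⟩,⟨1,[(1,1),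
  (13,0),(4,0),(3,1),(14,0),(0,1)]⟩⟩,[.o ⟨false,0,⟨0,[(14,0)]⟩,⟨3,[(21,0),(0,0),(4,3),(13,1)]⟩⟩,.o
  ⟨false,1,⟨7,[(8,1),(8,1),(10,3),(5,0),(6,6)]⟩,⟨0,[(27,0)]⟩⟩,.o ⟨false,1,⟨1,[(24,1),(9,0),(5,0)]⟩,
  ⟨7,[(1,0),(0,0),(4,1),(9,1),(5,7),(10,2),(2,0)]⟩⟩,.a ⟨true,0,⟨0,[(24,0)]⟩,⟨0,[(23,0)]⟩⟩ ⟨false,1,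
  ⟨1,[(21,0),(18,0)]⟩,⟨9,[(0,1),(1,1),(4,0),(8,0),(5,2),(14,3),(1,2)]⟩⟩ ⟨true,0,⟨0,[(14,0),(8,0)]⟩,
  ⟨0,[(24,0),(2,0)]⟩⟩]⟩) (.R ⟨1,false,false,false,[1,0,0,-1],[1,0,-1],[0,0,0,-1,0,0,0,0,-1],(⟨0,
  [(23,0)]⟩,⟨0,[(24,0)]⟩),(⟨0,[(32,0)]⟩,⟨0,[(33,0)]⟩),⟨0,[(5,0)]⟩,.k,.k,(.x (-1) ⟨3,[(21,0),(0,0),
  (11,1),(0,3)]⟩ ⟨0,[(36,0)]⟩),.k,(.r (-1) ⟨0,[(1,0),(37,0),(0,0)]⟩ ⟨3,[(4,1),(17,0),(8,3),(9,0)]⟩),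
  .k,⟨false,1,⟨0,[(1,0),(37,0),(0,0)]⟩,⟨0,[(2,0),(28,1),(7,0),(0,0)]⟩⟩,⟨true,0,⟨0,[(23,0),(2,0)]⟩,
  ⟨0,[(11,0),(12,0)]⟩⟩,⟨true,0,⟨0,[(39,0)]⟩,⟨0,[(38,0)]⟩⟩,⟨false,0,⟨10,[(2,1),(4,5),(5,6),(0,12),(1,
  3),(5,0),(0,10),(13,1)]⟩,⟨0,[(1,0),(9,0),(12,0),(15,0)]⟩⟩,⟨false,1,⟨3,[(21,0),(0,0),(18,1)]⟩,⟨0,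
  []⟩⟩,⟨false,0,⟨1,[(4,0),(8,0),(0,1),(8,1),(13,0)]⟩,⟨1,[(1,1),(13,0),(4,0),(3,1),(14,0),(0,1)]⟩⟩,
  [.o ⟨false,0,⟨0,[(14,0)]⟩,⟨3,[(21,0),(0,0),(4,3),(13,1)]⟩⟩,.o ⟨false,1,⟨7,[(8,1),(8,1),(10,3),(5,
  0),(6,6)]⟩,⟨0,[(27,0)]⟩⟩,.o ⟨false,1,⟨1,[(24,1),(9,0),(5,0)]⟩,⟨7,[(1,0),(0,0),(4,1),(9,1),(5,7),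
  (10,2),(2,0)]⟩⟩,.a ⟨true,0,⟨0,[(24,0)]⟩,⟨0,[(23,0)]⟩⟩ ⟨false,1,⟨0,[(0,0),(30,0),(5,0),(1,0),(0,
  0)]⟩,⟨3,[(4,1),(17,0),(18,0)]⟩⟩ ⟨true,0,⟨0,[(14,0),(8,0)]⟩,⟨0,[(24,0),(2,0)]⟩⟩]⟩)))))) (.Q [0,0,
  -1,1,1,0,1,1,-1,1,-1,1] (.p false [-1,1,1] [0,0,0,1] (⟨0,[(13,0)]⟩,⟨0,[(27,0),(2,0)]⟩) .k 2 (⟨0,
  [(19,0)]⟩,⟨0,[(18,0)]⟩) .k (.x (-1) ⟨7,[(15,3),(0,0),(0,0),(10,7),(0,1),(5,3)]⟩ ⟨0,[(21,0),(5,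
  0)]⟩)) (.I [0,-1,-2,-2,1,0,0,0,-1] (.R ⟨0,false,false,true,[1,0,0,-1],[0,1],[0,0,0,-1,0,0,0,0,-1],
  (⟨0,[(20,0)]⟩,⟨0,[(21,0)]⟩),(⟨0,[(33,0)]⟩,⟨0,[(32,0)]⟩),⟨0,[(2,0)]⟩,.k,.k,(.x (-1) ⟨3,[(18,0),(0,
  0),(11,1),(0,3)]⟩ ⟨0,[(33,0)]⟩),(.x (-1) ⟨3,[(18,0),(0,0),(11,1),(0,3)]⟩ ⟨0,[(33,0)]⟩),.k,.k,
  ⟨false,1,⟨0,[(0,0)]⟩,⟨2,[(4,1),(0,3),(3,3),(0,0),(2,1),(5,0)]⟩⟩,⟨true,0,⟨0,[(20,0)]⟩,⟨5,[(2,1),(0,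
  0),(0,0),(16,3),(1,1),(5,0),(1,1)]⟩⟩,⟨true,0,⟨0,[(36,0)]⟩,⟨0,[(35,0)]⟩⟩,⟨false,0,⟨0,[(4,0),(0,0),
  (3,0),(0,0),(2,0),(6,0)]⟩,⟨73,[(0,49),(0,21),(0,35),(0,17),(1,21),(7,17),(4,0),(2,15),(7,17),(1,
  18),(2,11)]⟩⟩,⟨false,0,⟨0,[]⟩,⟨0,[]⟩⟩,⟨false,0,⟨0,[]⟩,⟨0,[]⟩⟩,[.o ⟨false,0,⟨0,[(35,0)]⟩,⟨7,[(0,1),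
  (12,3),(5,0),(6,3),(4,1),(6,2)]⟩⟩,.o ⟨false,1,⟨3,[(18,0),(0,0),(15,3),(2,1)]⟩,⟨0,[(12,0)]⟩⟩,.o
  ⟨false,1,⟨1,[(21,1),(9,0),(5,0)]⟩,⟨9,[(4,2),(0,1),(6,1),(7,9),(2,2),(0,1),(6,2),(2,0)]⟩⟩,.a ⟨true,
  0,⟨0,[(21,0)]⟩,⟨0,[(20,0)]⟩⟩ ⟨false,1,⟨3,[(0,1),(17,0),(19,0)]⟩,⟨0,[(4,0),(0,0),(3,0),(0,0),(2,
  0)]⟩⟩ ⟨true,0,⟨0,[(20,0),(14,0)]⟩,⟨0,[(12,0),(8,0)]⟩⟩]⟩) (.I [1,-1,0,-1,0,0,0,0,1] (.R ⟨0,false,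
  false,false,[1,0,0,-1],[1,0,-1],[0,1,0,0,0,0,0,0,-1],(⟨0,[(21,0)]⟩,⟨0,[(22,0)]⟩),(⟨0,[(30,0)]⟩,⟨0,
  [(31,0)]⟩),⟨0,[(3,0)]⟩,.k,.k,(.x (-1) ⟨3,[(19,0),(0,0),(11,1),(0,3)]⟩ ⟨0,[(34,0)]⟩),.k,.k,.k,
  ⟨false,1,⟨2,[(2,0),(11,1),(2,0),(1,0),(1,0),(3,1),(12,0)]⟩,⟨1,[(0,1),(5,0),(1,0),(9,0)]⟩⟩,⟨true,0,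
  ⟨0,[(21,0),(2,0)]⟩,⟨0,[(9,0),(12,0)]⟩⟩,⟨true,0,⟨0,[(41,0)]⟩,⟨0,[]⟩⟩,⟨false,0,⟨8,[(0,2),(0,1),(10,
  6),(2,0),(4,1),(0,8),(4,0),(8,4)]⟩,⟨0,[(2,0),(10,0)]⟩⟩,⟨false,0,⟨0,[]⟩,⟨0,[]⟩⟩,⟨false,0,⟨0,[]⟩,⟨0,
  []⟩⟩,[.o ⟨false,0,⟨0,[(12,0)]⟩,⟨3,[(19,0),(0,0),(4,3),(13,1)]⟩⟩,.o ⟨false,1,⟨7,[(6,1),(8,1),(10,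
  3),(5,0),(6,6)]⟩,⟨0,[(25,0)]⟩⟩,.o ⟨false,1,⟨1,[(22,1),(9,0),(5,0)]⟩,⟨7,[(1,1),(3,0),(7,3),(5,0),
  (1,7),(2,0),(7,1),(2,0)]⟩⟩,.a ⟨true,0,⟨0,[(22,0)]⟩,⟨0,[(21,0)]⟩⟩ ⟨false,1,⟨1,[(19,0),(18,0)]⟩,⟨11,
  [(0,3),(0,1),(3,0),(14,2),(3,0),(10,4)]⟩⟩ ⟨true,0,⟨0,[(12,0),(8,0)]⟩,⟨0,[(22,0),(2,0)]⟩⟩]⟩) (.I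
  [0,0,0,0,0,0,0,0,1] (.R ⟨0,false,false,false,[1,0,0,-1],[1,0,-1],[1,0,0,-1,0,0,0,0,-1],(⟨0,[(22,
  0)]⟩,⟨0,[(23,0)]⟩),(⟨0,[(31,0)]⟩,⟨0,[(32,0)]⟩),⟨0,[(4,0)]⟩,.k,.k,(.x (-1) ⟨3,[(20,0),(0,0),(11,1),
  (0,3)]⟩ ⟨0,[(35,0)]⟩),.k,.k,.k,⟨false,1,⟨0,[(3,0),(10,0),(0,0),(6,0)]⟩,⟨1,[(0,1),(6,0),(1,0),(9,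
  0)]⟩⟩,⟨true,0,⟨0,[(22,0),(2,0)]⟩,⟨0,[(10,0),(12,0)]⟩⟩,⟨true,0,⟨0,[(38,0)]⟩,⟨0,[(37,0)]⟩⟩,⟨false,0,
  ⟨12,[(0,5),(1,0),(3,1),(6,12),(1,1),(5,2),(0,12),(13,6)]⟩,⟨0,[(3,0),(10,0)]⟩⟩,⟨false,0,⟨0,[]⟩,⟨0,
  []⟩⟩,⟨false,0,⟨0,[]⟩,⟨0,[]⟩⟩,[.o ⟨false,0,⟨0,[(13,0)]⟩,⟨3,[(20,0),(0,0),(4,3),(13,1)]⟩⟩,.o ⟨false,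
  1,⟨7,[(7,1),(8,1),(10,3),(5,0),(6,6)]⟩,⟨0,[(26,0)]⟩⟩,.o ⟨false,1,⟨1,[(23,1),(9,0),(5,0)]⟩,⟨8,[(1,
  0),(0,0),(3,1),(7,2),(7,8),(2,1),(7,2),(2,0)]⟩⟩,.a ⟨true,0,⟨0,[(23,0)]⟩,⟨0,[(22,0)]⟩⟩ ⟨false,1,⟨0,
  [(1,0),(34,0),(1,1),(0,0)]⟩,⟨3,[(2,1),(18,0),(18,0)]⟩⟩ ⟨true,0,⟨0,[(13,0),(8,0)]⟩,⟨0,[(23,0),(2,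
  0)]⟩⟩]⟩) (.R ⟨0,false,false,true,[1,0,0,-1],[0,1],[0,1],(⟨0,[(22,0)]⟩,⟨0,[(23,0)]⟩),(⟨0,[(35,0)]⟩,
  ⟨0,[(34,0)]⟩),⟨0,[(4,0)]⟩,.k,.k,(.x (-1) ⟨3,[(20,0),(0,0),(11,1),(0,3)]⟩ ⟨0,[(35,0)]⟩),(.x (-1)
  ⟨3,[(20,0),(0,0),(11,1),(0,3)]⟩ ⟨0,[(35,0)]⟩),.k,.k,⟨false,1,⟨0,[(38,0),(0,0)]⟩,⟨3,[(2,1),(17,0),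
  (19,0)]⟩⟩,⟨true,0,⟨0,[(22,0)]⟩,⟨5,[(4,1),(0,0),(0,0),(16,3),(1,1),(5,0),(1,1)]⟩⟩,⟨true,0,⟨0,[(2,
  0),(35,1),(0,0)]⟩,⟨0,[(0,0)]⟩⟩,⟨false,0,⟨3,[(2,1),(18,0),(0,3),(17,0)]⟩,⟨1,[(0,1),(13,1),(8,1),
  (15,0),(0,0)]⟩⟩,⟨false,0,⟨0,[]⟩,⟨0,[]⟩⟩,⟨false,0,⟨0,[]⟩,⟨0,[]⟩⟩,[.o ⟨false,0,⟨0,[(37,0)]⟩,⟨1,[(33,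
  0),(4,1),(1,0)]⟩⟩,.o ⟨false,1,⟨11,[(2,3),(9,7),(7,6),(0,0),(15,3)]⟩,⟨0,[(14,0)]⟩⟩,.o ⟨false,1,⟨1,
  [(23,1),(9,0),(5,0)]⟩,⟨13,[(0,1),(1,1),(3,2),(7,3),(7,13),(2,2),(7,4),(2,0)]⟩⟩,.a ⟨true,0,⟨0,[(23,
  0)]⟩,⟨0,[(22,0)]⟩⟩ ⟨false,1,⟨3,[(20,0),(0,0),(17,1)]⟩,⟨3,[(6,0),(18,0),(10,0),(3,0)]⟩⟩ ⟨true,0,⟨0,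
  [(22,0),(14,0)]⟩,⟨0,[(14,0),(8,0)]⟩⟩]⟩)))) (.K ⟨0,[0,0,0,1],0,(-1),(⟨0,[(20,0)]⟩,⟨0,[(19,0)]⟩),.k,
  (.x 0 ⟨5,[(2,2),(0,0),(13,1),(0,1),(3,3),(5,2)]⟩ ⟨0,[(32,0),(3,0)]⟩),(.x 0 ⟨0,[(32,0)]⟩ ⟨3,[(17,
  0),(0,0),(11,1),(0,3)]⟩),.k,.k,[⟨0,[(20,0)]⟩,⟨0,[(19,0)]⟩,⟨1,[(17,0),(2,1),(15,0),(2,1)]⟩,⟨0,[(0,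
  0),(7,0)]⟩]⟩))))

theorem ok13 : chk (cU (-1) true 10) t13 l13 = true := by decide +kernel

noncomputable def t30 : Tre :=
  (.Q [0,0,0,0,0,0,-1,0,0,0,1] (.p true [0,0,1] [] (⟨0,[(21,0)]⟩,⟨0,[(20,0)]⟩) .k 0 (⟨0,[]⟩,⟨0,[]⟩)
  .k .k) (.Q [0,-1,0,-1,0,0,-1,-1,0,0,1] (.p true [0,0,1] [] (⟨0,[(22,0)]⟩,⟨0,[(21,0)]⟩) .k 0 (⟨0,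
  []⟩,⟨0,[]⟩) .k .k) (.R ⟨2,true,false,true,[0,1],[0,1,1],[0,1,1],(⟨0,[]⟩,⟨0,[]⟩),(⟨0,[(23,0),(2,
  0)]⟩,⟨0,[(8,0)]⟩),⟨0,[]⟩,.k,.k,.k,.k,.k,.k,⟨true,0,⟨2,[(0,0),(5,1),(11,0),(2,0)]⟩,⟨0,[(7,0),(19,
  0),(0,0)]⟩⟩,⟨false,1,⟨7,[(10,3),(0,0),(0,0),(11,1),(5,3)]⟩,⟨0,[(1,0)]⟩⟩,⟨false,0,⟨0,[(29,0)]⟩,⟨0,
  [(28,0),(2,0)]⟩⟩,⟨true,0,⟨0,[(17,0)]⟩,⟨1,[(0,0),(8,0),(11,0)]⟩⟩,⟨true,0,⟨0,[(33,0)]⟩,⟨0,[]⟩⟩,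
  ⟨false,1,⟨0,[(17,0),(10,0),(2,0)]⟩,⟨0,[(0,0)]⟩⟩,[]⟩) (.K ⟨0,[1,-1,-1],0,0,(⟨0,[(8,0)]⟩,⟨0,[(23,0),
  (2,0)]⟩),.k,(.r (-1) ⟨0,[(21,0),(7,1),(0,0)]⟩ ⟨0,[(0,0),(19,0),(6,0),(0,0)]⟩),.k,.k,.k,[⟨1,[(10,
  0),(2,0),(0,0)]⟩,⟨0,[(1,0)]⟩,⟨0,[(0,0),(12,0),(0,0)]⟩,⟨0,[(15,0),(13,0)]⟩]⟩)) (.Q [0,0,0,0,0,0,-1,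
  0,0,1,1] (.p true [1,-1,1] [] (⟨0,[(22,0),(1,0)]⟩,⟨0,[(1,0)]⟩) .k 0 (⟨0,[]⟩,⟨0,[]⟩) .k .k) (.R ⟨0,
  false,false,true,[0,1,-1],[0,1],[1,1],(⟨0,[(2,0)]⟩,⟨0,[(23,0),(1,0)]⟩),(⟨0,[(26,0)]⟩,⟨0,[(25,
  0)]⟩),⟨0,[(23,0)]⟩,.k,.k,.k,.k,.k,.k,⟨false,1,⟨0,[(29,0),(0,0)]⟩,⟨3,[(19,0),(0,0),(6,1),(0,3)]⟩⟩,
  ⟨true,0,⟨0,[(1,0)]⟩,⟨0,[(20,0)]⟩⟩,⟨false,1,⟨1,[(7,1),(21,1),(0,0),(0,0)]⟩,⟨0,[(21,0),(5,0),(0,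
  0)]⟩⟩,⟨true,0,⟨0,[(17,0)]⟩,⟨2,[(0,0),(3,0),(16,1)]⟩⟩,⟨false,0,⟨0,[]⟩,⟨0,[]⟩⟩,⟨false,0,⟨0,[]⟩,⟨0,
  []⟩⟩,[.o ⟨false,0,⟨0,[(28,0)]⟩,⟨1,[(24,0),(4,1),(1,0)]⟩⟩,.e ⟨true,0,⟨0,[]⟩,⟨1,[(19,0),(0,0)]⟩⟩
  ⟨true,0,⟨1,[(1,0),(17,0),(7,0),(0,1)]⟩,⟨0,[(5,0)]⟩⟩,.o ⟨false,1,⟨7,[(5,3),(3,3),(1,0),(0,0),(17,
  3),(0,1)]⟩,⟨4,[(3,3),(12,0),(0,3),(1,1),(7,1)]⟩⟩,.a ⟨true,0,⟨0,[(0,0)]⟩,⟨0,[(1,0)]⟩⟩ ⟨false,1,⟨3,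
  [(11,0),(0,0),(17,1)]⟩,⟨3,[(19,0),(0,0),(6,1)]⟩⟩ ⟨true,0,⟨0,[(1,0),(26,0)]⟩,⟨0,[(5,0)]⟩⟩]⟩) (.Q
  [0,0,0,-1,0,0,1,1,0,0,-1] (.p false [0,0,1] [] (⟨0,[(23,0)]⟩,⟨0,[(22,0)]⟩) .k 0 (⟨0,[]⟩,⟨0,[]⟩)
  .k .k) (.R ⟨2,true,false,true,[0,1],[0,0,1],[0,0,1],(⟨0,[]⟩,⟨0,[]⟩),(⟨0,[(24,0)]⟩,⟨0,[(23,0)]⟩),
  ⟨0,[]⟩,.k,.k,.k,.k,.k,.k,⟨true,0,⟨2,[(19,0),(0,0),(1,1),(5,1)]⟩,⟨0,[(8,0)]⟩⟩,⟨false,0,⟨0,[(2,0)]⟩,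
  ⟨7,[(6,3),(3,3),(1,0),(0,0),(17,3),(0,1)]⟩⟩,⟨true,0,⟨0,[(30,0)]⟩,⟨0,[(29,0)]⟩⟩,⟨false,0,⟨0,[(0,
  0)]⟩,⟨0,[(10,0),(11,0),(9,0)]⟩⟩,⟨false,1,⟨3,[(12,0),(0,0),(18,1)]⟩,⟨0,[]⟩⟩,⟨true,0,⟨0,[(18,0)]⟩,
  ⟨1,[(5,0),(8,0),(0,0),(6,0)]⟩⟩,[]⟩) (.Q [0,1,-1,0,0,0,0,0,-1,0,0,1] (.p true [0,0,0,1] [] (⟨0,
  [(15,0)]⟩,⟨0,[(14,0)]⟩) .k 0 (⟨0,[]⟩,⟨0,[]⟩) .k .k) (.Q [0,1,1,0,0,0,0,0,1,0,0,-1] (.p false [0,0,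
  0,1] [] (⟨0,[(16,0)]⟩,⟨0,[(15,0)]⟩) .k 0 (⟨0,[]⟩,⟨0,[]⟩) .k .k) (.K ⟨0,[0,0,0,1],0,0,(⟨0,[(17,
  0)]⟩,⟨0,[(16,0)]⟩),.k,(.r (-1) ⟨1,[(15,0),(16,1),(0,0)]⟩ ⟨2,[(1,2),(1,0),(12,2),(2,1),(2,0),(7,2),
  (0,2)]⟩),(.x 0 ⟨0,[(29,0)]⟩ ⟨3,[(14,0),(0,0),(11,1),(0,3)]⟩),.k,.k,[⟨0,[(17,0)]⟩,⟨0,[(16,0)]⟩,⟨0,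
  [(1,0)]⟩,⟨0,[(0,0)]⟩]⟩) (.Q [0,0,0,0,0,1,0,0,0,-1,0,1] (.ed false [0,1,0,1] .k) (.R ⟨0,false,
  false,false,[1,0,0,-1],[1,0,-1],[0,1,0,0,0,0,0,0,-1],(⟨0,[(17,0)]⟩,⟨0,[(18,0)]⟩),(⟨0,[(26,0)]⟩,⟨0,
  [(27,0)]⟩),⟨0,[(0,0)]⟩,.k,.k,(.x (-1) ⟨3,[(15,0),(0,0),(11,1),(0,3)]⟩ ⟨0,[(30,0)]⟩),.k,.k,.k,
  ⟨false,0,⟨2,[(1,1),(0,0),(1,1),(3,0),(2,3),(5,2)]⟩,⟨1,[(16,0),(8,1),(9,0)]⟩⟩,⟨true,0,⟨0,[(17,0),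
  (2,0)]⟩,⟨2,[(4,0),(9,0),(3,2)]⟩⟩,⟨true,0,⟨0,[(37,0)]⟩,⟨0,[]⟩⟩,⟨false,1,⟨13,[(7,5),(8,6),(0,13),(2,
  7),(1,7),(0,1),(7,3),(3,6)]⟩,⟨0,[(1,0),(19,0)]⟩⟩,⟨false,0,⟨0,[]⟩,⟨0,[]⟩⟩,⟨false,0,⟨0,[]⟩,⟨0,[]⟩⟩,
  [.o ⟨false,0,⟨1,[(7,0),(0,0)]⟩,⟨3,[(15,0),(0,0),(4,3),(13,1)]⟩⟩,.o ⟨false,1,⟨3,[(7,0),(0,0),(13,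
  1),(5,0),(6,2)]⟩,⟨0,[(21,0)]⟩⟩,.o ⟨false,1,⟨1,[(1,0),(0,0),(13,0),(11,0)]⟩,⟨2,[(4,0),(12,2),(2,1),
  (2,0)]⟩⟩,.a ⟨true,0,⟨0,[(18,0)]⟩,⟨0,[(17,0)]⟩⟩ ⟨false,0,⟨2,[(1,1),(0,0),(1,1),(3,0),(2,0),(5,2)]⟩,
  ⟨1,[(16,0),(6,0),(0,0),(10,0)]⟩⟩ ⟨true,0,⟨1,[(7,0),(0,0),(8,1)]⟩,⟨0,[(18,0),(2,0)]⟩⟩]⟩) (.R ⟨1,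
  false,false,false,[1,0,0,-1],[1,0,-1],[0,0,0,-1,0,0,0,0,-1],(⟨0,[(17,0)]⟩,⟨0,[(18,0)]⟩),(⟨0,[(26,
  0)]⟩,⟨0,[(27,0)]⟩),⟨0,[(0,0)]⟩,.k,.k,(.x (-1) ⟨3,[(15,0),(0,0),(11,1),(0,3)]⟩ ⟨0,[(30,0)]⟩),.k,
  (.r 0 ⟨0,[(1,0),(2,0),(4,0),(1,0),(5,0)]⟩ ⟨3,[(3,3),(11,0),(0,2),(6,3)]⟩),.k,⟨false,0,⟨0,[(1,0),
  (2,0),(4,0),(1,0),(5,0)]⟩,⟨7,[(3,7),(10,3),(0,0),(0,4),(11,1)]⟩⟩,⟨true,0,⟨0,[(17,0),(2,0)]⟩,⟨2,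
  [(4,0),(9,0),(3,2)]⟩⟩,⟨true,0,⟨0,[(33,0)]⟩,⟨0,[(32,0)]⟩⟩,⟨false,1,⟨13,[(7,5),(8,6),(0,13),(2,7),
  (1,7),(0,1),(7,3),(3,6)]⟩,⟨0,[(1,0),(19,0)]⟩⟩,⟨false,1,⟨3,[(15,0),(0,0),(18,1)]⟩,⟨0,[]⟩⟩,⟨false,1,
  ⟨5,[(3,5),(12,2),(0,5),(2,1),(2,1),(4,1),(2,1),(3,0)]⟩,⟨0,[(1,0),(8,0),(0,0)]⟩⟩,[.o ⟨false,0,⟨1,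
  [(7,0),(0,0)]⟩,⟨3,[(15,0),(0,0),(4,3),(13,1)]⟩⟩,.o ⟨false,1,⟨3,[(7,0),(0,0),(13,1),(5,0),(6,2)]⟩,
  ⟨0,[(21,0)]⟩⟩,.o ⟨false,1,⟨1,[(1,0),(0,0),(13,0),(11,0)]⟩,⟨2,[(4,0),(12,2),(2,1),(2,0)]⟩⟩,.a
  ⟨true,0,⟨0,[(18,0)]⟩,⟨0,[(17,0)]⟩⟩ ⟨false,0,⟨0,[(1,0),(2,0),(4,0),(7,0)]⟩,⟨1,[(16,0),(6,0),(0,0),
  (7,1),(2,0)]⟩⟩ ⟨true,0,⟨1,[(7,0),(0,0),(8,1)]⟩,⟨0,[(18,0),(2,0)]⟩⟩]⟩))) (.Q [0,0,0,0,0,-1,0,0,0,1,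
  0,-1] (.ed true [0,1,0,1] .k) (.I [1,0,-2,-1,1,0,0,0,-1] (.Q [0,0,1,2,0,0,0,0,1,1,0,-1] (.p false
  [0,0,0,1] [1] (⟨0,[(18,0)]⟩,⟨0,[(17,0)]⟩) .k 1 (⟨0,[]⟩,⟨0,[]⟩) .k .k) (.R ⟨1,false,false,true,[1,
  0,0,-1],[0,1],[1,1,0,0,0,0,0,0,-1],(⟨0,[(18,0)]⟩,⟨0,[(19,0)]⟩),(⟨0,[(31,0)]⟩,⟨0,[(30,0)]⟩),⟨0,[(2,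
  0)]⟩,.k,.k,(.x (-1) ⟨3,[(16,0),(0,0),(11,1),(0,3)]⟩ ⟨0,[(31,0)]⟩),(.x (-1) ⟨3,[(16,0),(0,0),(11,
  1),(0,3)]⟩ ⟨0,[(31,0)]⟩),(.r (-1) ⟨0,[(1,0),(32,0)]⟩ ⟨2,[(0,2),(4,0),(13,2),(1,1),(2,0)]⟩),.k,
  ⟨false,1,⟨0,[(1,0)]⟩,⟨0,[(3,0),(15,0),(13,0)]⟩⟩,⟨true,0,⟨0,[(18,0)]⟩,⟨2,[(5,0),(13,2),(1,1),(2,
  0)]⟩⟩,⟨false,0,⟨0,[]⟩,⟨3,[(16,0),(0,0),(18,1)]⟩⟩,⟨false,0,⟨3,[(0,2),(2,0),(6,1),(4,0),(22,0)]⟩,⟨1,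
  [(1,1),(3,0),(13,1),(1,0),(10,0)]⟩⟩,⟨true,0,⟨0,[(33,0)]⟩,⟨0,[(34,0)]⟩⟩,⟨false,0,⟨0,[(0,0)]⟩,⟨1,
  [(1,1),(3,0),(13,1),(1,0),(10,0),(1,1)]⟩⟩,[.o ⟨false,0,⟨0,[(33,0)]⟩,⟨1,[(29,0),(4,1),(1,0)]⟩⟩,.o
  ⟨false,1,⟨3,[(16,0),(0,0),(15,3),(2,1)]⟩,⟨0,[(5,0),(4,0)]⟩⟩,.o ⟨false,1,⟨1,[(19,1),(9,0),(5,0)]⟩,
  ⟨2,[(5,0),(12,2),(2,1),(2,0)]⟩⟩,.a ⟨true,0,⟨0,[(19,0)]⟩,⟨0,[(18,0)]⟩⟩ ⟨false,1,⟨1,[(16,0),(18,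
  0)]⟩,⟨0,[(3,0),(15,0)]⟩⟩ ⟨true,0,⟨0,[(18,0),(14,0)]⟩,⟨0,[(5,0),(4,0),(8,0)]⟩⟩]⟩) (.R ⟨2,true,
  false,true,[0,1],[1,0,0,-1],[1,1,1,1],(⟨0,[]⟩,⟨0,[]⟩),(⟨0,[(18,0)]⟩,⟨0,[(19,0)]⟩),⟨0,[]⟩,.k,.k,.k,
  (.x 0 ⟨0,[(31,0)]⟩ ⟨3,[(16,0),(0,0),(11,1),(0,3)]⟩),.k,.k,⟨true,0,⟨0,[(3,0),(15,0),(13,0)]⟩,⟨3,
  [(0,3),(17,3),(5,0),(0,0),(6,1),(0,3)]⟩⟩,⟨false,1,⟨1,[(19,1),(9,0),(5,0)]⟩,⟨0,[(18,0)]⟩⟩,⟨false,0,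
  ⟨0,[]⟩,⟨3,[(16,0),(0,0),(18,1)]⟩⟩,⟨true,0,⟨0,[(0,0),(32,0)]⟩,⟨1,[(3,1),(10,1),(0,0),(2,0),(0,
  0)]⟩⟩,⟨true,0,⟨0,[(33,0)]⟩,⟨0,[(34,0)]⟩⟩,⟨false,1,⟨7,[(0,1),(4,3),(8,3),(1,2),(2,5),(9,0),(2,1),
  (2,3)]⟩,⟨0,[(3,0),(14,0),(0,0)]⟩⟩,[]⟩)) (.I [1,-1,-1,0,1,0,0,0,-1] (.R ⟨1,false,false,false,[1,0,
  0,-1],[1,0,-1],[1,0,0,0,0,0,0,0,-1],(⟨0,[(18,0)]⟩,⟨0,[(19,0)]⟩),(⟨0,[(27,0)]⟩,⟨0,[(28,0)]⟩),⟨0,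
  [(2,0)]⟩,.k,.k,(.x (-1) ⟨3,[(16,0),(0,0),(11,1),(0,3)]⟩ ⟨0,[(31,0)]⟩),.k,(.r (-1) ⟨0,[(0,0),(11,
  0),(21,0)]⟩ ⟨5,[(1,1),(2,3),(3,0),(6,0),(1,1),(6,1),(1,0)]⟩),.k,⟨false,1,⟨0,[(0,0),(11,0)]⟩,⟨0,
  [(1,0),(24,0),(7,0),(0,0)]⟩⟩,⟨true,0,⟨0,[(18,0),(2,0)]⟩,⟨2,[(5,0),(9,0),(3,2)]⟩⟩,⟨true,0,⟨0,[]⟩,
  ⟨0,[(38,0)]⟩⟩,⟨false,0,⟨1,[(3,1),(0,0),(5,0),(15,0)]⟩,⟨0,[(0,0),(18,0),(2,0)]⟩⟩,⟨false,1,⟨0,[(33,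
  0),(2,0)]⟩,⟨0,[(34,0)]⟩⟩,⟨false,0,⟨0,[(3,0),(0,0)]⟩,⟨0,[(0,0),(10,0),(0,0),(6,0)]⟩⟩,[.o ⟨false,0,
  ⟨1,[(8,0),(0,0)]⟩,⟨3,[(16,0),(0,0),(4,3),(13,1)]⟩⟩,.o ⟨false,1,⟨3,[(8,0),(0,0),(13,1),(5,0),(6,
  2)]⟩,⟨0,[(22,0)]⟩⟩,.o ⟨false,1,⟨1,[(19,1),(9,0),(5,0)]⟩,⟨2,[(5,0),(12,2),(2,1),(2,0)]⟩⟩,.a ⟨true,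
  0,⟨0,[(19,0)]⟩,⟨0,[(18,0)]⟩⟩ ⟨false,1,⟨0,[(0,0)]⟩,⟨2,[(1,0),(9,0),(5,0),(7,0)]⟩⟩ ⟨true,0,⟨1,[(8,
  0),(0,0),(8,1)]⟩,⟨0,[(19,0),(2,0)]⟩⟩]⟩) (.I [0,0,-1,-1,0,0,0,0,1] (.Q [0,-1,-2,0,2,0,0,0,-2,-1,0,
  2] (.p true [0,0,0,1] [1,0,0,-1] (⟨0,[(20,0)]⟩,⟨0,[(19,0)]⟩) .k 2 (⟨0,[(19,0)]⟩,⟨0,[(20,0)]⟩) .k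
  (.r 0 ⟨2,[(0,1),(1,1),(15,0),(17,0)]⟩ ⟨0,[(17,0)]⟩)) (.Q [0,0,-1,1,1,0,0,0,-1,0,0,1] (.p true [0,
  0,0,1] [] (⟨0,[(21,0)]⟩,⟨0,[(20,0)]⟩) .k 0 (⟨0,[]⟩,⟨0,[]⟩) .k .k) (.R ⟨1,false,false,false,[1,0,0,
  -1],[1,-1],[0,1,0,-1,0,0,0,0,-1],(⟨0,[(21,0)]⟩,⟨0,[(22,0)]⟩),(⟨0,[(33,0)]⟩,⟨0,[(34,0)]⟩),⟨0,[(5,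
  0)]⟩,.k,.k,(.x (-1) ⟨3,[(19,0),(0,0),(11,1),(0,3)]⟩ ⟨0,[(34,0)]⟩),(.r (-1) ⟨3,[(4,1),(14,3),(0,0),
  (15,1),(2,0)]⟩ ⟨0,[(2,0)]⟩),.k,.k,⟨true,0,⟨0,[(3,0),(15,0)]⟩,⟨1,[(2,0),(1,0),(30,0),(2,0)]⟩⟩,
  ⟨false,0,⟨2,[(8,0),(12,2),(2,1),(2,0)]⟩,⟨0,[(0,0),(1,0)]⟩⟩,⟨false,0,⟨0,[(37,0)]⟩,⟨0,[(36,0),(2,
  0)]⟩⟩,⟨false,0,⟨0,[(6,0),(30,0)]⟩,⟨0,[(0,0)]⟩⟩,⟨true,0,⟨0,[(41,0)]⟩,⟨0,[]⟩⟩,⟨false,0,⟨0,[(6,0)]⟩,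
  ⟨6,[(0,2),(0,1),(11,2),(1,0),(2,1),(7,0)]⟩⟩,[.o ⟨false,0,⟨0,[(8,0),(4,0)]⟩,⟨3,[(19,0),(0,0),(15,
  3),(2,1)]⟩⟩,.o ⟨false,1,⟨1,[(32,0),(4,1),(1,0)]⟩,⟨0,[(36,0)]⟩⟩,.o ⟨false,1,⟨15,[(1,5),(0,7),(1,1),
  (15,0),(1,3),(9,4),(3,5)]⟩,⟨2,[(8,0),(12,2),(2,1),(2,0)]⟩⟩,.a ⟨true,0,⟨0,[(22,0)]⟩,⟨0,[(21,0)]⟩⟩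
  ⟨false,1,⟨0,[(2,0),(16,0)]⟩,⟨1,[(4,1),(33,0),(0,0)]⟩⟩ ⟨true,0,⟨0,[(8,0),(4,0),(7,0)]⟩,⟨0,[(22,0),
  (13,0)]⟩⟩]⟩) (.K ⟨0,[0,0,0,1],0,(-1),(⟨0,[(22,0)]⟩,⟨0,[(21,0)]⟩),.k,(.r 0 ⟨0,[(2,0)]⟩ ⟨3,[(4,1),
  (14,3),(0,0),(15,1),(2,0)]⟩),(.x 0 ⟨0,[(34,0)]⟩ ⟨3,[(19,0),(0,0),(11,1),(0,3)]⟩),.k,.k,[⟨0,[(22,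
  0)]⟩,⟨0,[(21,0)]⟩,⟨7,[(1,3),(13,5),(2,2),(2,0),(0,0),(3,5)]⟩,⟨0,[(0,0),(35,0)]⟩]⟩)) (.K ⟨0,[0,0,0,
  1],0,(-1),(⟨0,[(21,0)]⟩,⟨0,[(20,0)]⟩),.k,(.r 0 ⟨0,[(1,0)]⟩ ⟨3,[(3,1),(14,3),(0,0),(15,1),(2,0)]⟩),
  (.x 0 ⟨0,[(33,0)]⟩ ⟨3,[(18,0),(0,0),(11,1),(0,3)]⟩),.k,.k,[⟨0,[(21,0)]⟩,⟨0,[(20,0)]⟩,⟨1,[(18,0),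
  (2,1),(15,0),(2,1)]⟩,⟨3,[(0,1),(6,0),(6,0),(7,0)]⟩]⟩)) (.R ⟨1,false,false,false,[1,0,0,-1],[1,-1],
  [1,1,0,0,0,0,0,0,-1],(⟨0,[(19,0)]⟩,⟨0,[(20,0)]⟩),(⟨0,[(31,0)]⟩,⟨0,[(32,0)]⟩),⟨0,[(3,0)]⟩,.k,.k,
  (.x (-1) ⟨3,[(17,0),(0,0),(11,1),(0,3)]⟩ ⟨0,[(32,0)]⟩),(.x (-1) ⟨0,[(32,0),(3,0)]⟩ ⟨0,[(22,0),(2,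
  0),(5,0)]⟩),.k,.k,⟨true,0,⟨0,[(0,0),(38,0)]⟩,⟨0,[(1,0),(31,0),(1,0),(0,0)]⟩⟩,⟨false,0,⟨2,[(6,0),
  (12,2),(2,1),(2,0)]⟩,⟨0,[(20,0),(15,0)]⟩⟩,⟨false,0,⟨0,[]⟩,⟨3,[(17,0),(0,0),(18,1)]⟩⟩,⟨false,0,⟨0,
  [(4,0),(30,0)]⟩,⟨0,[(0,0),(19,0),(15,0)]⟩⟩,⟨true,0,⟨0,[(34,0)]⟩,⟨0,[(35,0)]⟩⟩,⟨false,0,⟨0,[(4,
  0)]⟩,⟨1,[(17,0),(2,1),(15,0)]⟩⟩,[.o ⟨false,0,⟨0,[(6,0),(4,0)]⟩,⟨3,[(17,0),(0,0),(15,3),(2,1)]⟩⟩,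
  .o ⟨false,1,⟨1,[(30,0),(4,1),(1,0)]⟩,⟨0,[(34,0)]⟩⟩,.o ⟨false,1,⟨1,[(20,1),(9,0),(5,0)]⟩,⟨2,[(6,0),
  (12,2),(2,1),(2,0)]⟩⟩,.a ⟨true,0,⟨0,[(20,0)]⟩,⟨0,[(19,0)]⟩⟩ ⟨false,1,⟨1,[(17,0),(18,0)]⟩,⟨2,[(1,
  0),(16,0),(14,1)]⟩⟩ ⟨true,0,⟨0,[(6,0),(4,0),(7,0)]⟩,⟨0,[(20,0),(13,0)]⟩⟩]⟩)))) (.I [0,0,-2,-1,1,0,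
  0,0,-1] (.R ⟨0,false,false,true,[1,0,0,-1],[0,1],[0,1,0,0,0,0,0,0,-1],(⟨0,[(17,0)]⟩,⟨0,[(18,0)]⟩),
  (⟨0,[(30,0)]⟩,⟨0,[(29,0)]⟩),⟨0,[(1,0)]⟩,.k,.k,(.x (-1) ⟨3,[(15,0),(0,0),(11,1),(0,3)]⟩ ⟨0,[(30,
  0)]⟩),(.x (-1) ⟨3,[(15,0),(0,0),(11,1),(0,3)]⟩ ⟨0,[(30,0)]⟩),.k,.k,⟨false,1,⟨0,[(0,0)]⟩,⟨0,[(2,0),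
  (15,0),(13,0)]⟩⟩,⟨true,0,⟨0,[(17,0)]⟩,⟨2,[(4,0),(13,2),(1,1),(2,0)]⟩⟩,⟨true,0,⟨0,[(37,0)]⟩,⟨0,
  []⟩⟩,⟨false,0,⟨1,[(2,1),(10,1),(0,0),(2,0),(0,0)]⟩,⟨1,[(0,1),(3,0),(13,1),(1,0),(10,0)]⟩⟩,⟨false,
  0,⟨0,[]⟩,⟨0,[]⟩⟩,⟨false,0,⟨0,[]⟩,⟨0,[]⟩⟩,[.o ⟨false,0,⟨0,[(32,0)]⟩,⟨1,[(28,0),(4,1),(1,0)]⟩⟩,.o
  ⟨false,1,⟨3,[(15,0),(0,0),(15,3),(2,1)]⟩,⟨0,[(4,0),(4,0)]⟩⟩,.o ⟨false,1,⟨1,[(18,1),(9,0),(5,0)]⟩,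
  ⟨2,[(4,0),(12,2),(2,1),(2,0)]⟩⟩,.a ⟨true,0,⟨0,[(18,0)]⟩,⟨0,[(17,0)]⟩⟩ ⟨false,1,⟨1,[(15,0),(18,
  0)]⟩,⟨0,[(2,0),(15,0)]⟩⟩ ⟨true,0,⟨0,[(17,0),(14,0)]⟩,⟨0,[(4,0),(4,0),(8,0)]⟩⟩]⟩) (.I [1,-1,-1,-1,
  1,0,0,0,-1] (.R ⟨0,false,false,false,[1,0,0,-1],[0,1,-1],[1,0,0,-1,0,0,0,0,-1],(⟨0,[(18,0)]⟩,⟨0,
  [(19,0)]⟩),(⟨0,[(7,0)]⟩,⟨0,[(28,0),(1,0)]⟩),⟨0,[(2,0)]⟩,.k,.k,(.x (-1) ⟨3,[(16,0),(0,0),(11,1),(0,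
  3)]⟩ ⟨0,[(31,0)]⟩),(.r (-1) ⟨0,[(0,0),(11,0)]⟩ ⟨5,[(1,1),(2,3),(3,0),(6,0),(1,1),(6,1),(1,0)]⟩),
  .k,.k,⟨true,1,⟨0,[(0,0),(11,0),(21,0)]⟩,⟨2,[(1,2),(2,2),(0,0),(9,0)]⟩⟩,⟨false,1,⟨7,[(10,3),(3,3),
  (1,0),(0,0),(0,7),(16,3),(0,1)]⟩,⟨0,[(5,0),(13,0)]⟩⟩,⟨true,0,⟨0,[(34,0)]⟩,⟨0,[(33,0)]⟩⟩,⟨false,0,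
  ⟨3,[(1,1),(2,2),(5,0),(6,0),(0,3),(7,0),(5,1),(2,0)]⟩,⟨0,[(0,0),(4,0),(6,0),(6,0)]⟩⟩,⟨false,0,⟨0,
  []⟩,⟨0,[]⟩⟩,⟨false,0,⟨0,[]⟩,⟨0,[]⟩⟩,[.o ⟨false,0,⟨0,[(4,0)]⟩,⟨1,[(11,1),(0,1),(16,0),(6,0)]⟩⟩,.o
  ⟨false,1,⟨3,[(4,3),(11,0),(0,0),(18,1)]⟩,⟨0,[(5,0),(6,0),(21,0)]⟩⟩,.o ⟨false,1,⟨1,[(19,1),(9,0),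
  (5,0)]⟩,⟨2,[(5,0),(12,2),(2,1),(2,0)]⟩⟩,.a ⟨true,0,⟨0,[(19,0)]⟩,⟨0,[(18,0)]⟩⟩ ⟨false,1,⟨0,[(0,
  0)]⟩,⟨3,[(1,1),(15,0),(15,1),(2,0)]⟩⟩ ⟨true,0,⟨0,[(4,0),(13,0)]⟩,⟨0,[(5,0),(6,0),(6,0),(14,
  0)]⟩⟩]⟩) (.K ⟨0,[0,0,0,1],0,(-1),(⟨0,[(19,0)]⟩,⟨0,[(18,0)]⟩),.k,(.x 0 ⟨0,[(21,0),(2,0),(5,0)]⟩ ⟨0,
  [(31,0),(3,0)]⟩),(.x 0 ⟨0,[(31,0)]⟩ ⟨3,[(16,0),(0,0),(11,1),(0,3)]⟩),.k,.k,[⟨0,[(19,0)]⟩,⟨0,[(18,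
  0)]⟩,⟨1,[(16,0),(2,1),(15,0),(2,1)]⟩,⟨0,[(0,0),(4,0),(4,0),(7,0)]⟩]⟩))))))))

theorem ok30 : chk (cU (-1) true 10) t30 r19 = true := by decide +kernel

noncomputable def t34 : Tre :=
  (.Q [0,0,0,1,0,0,-1,-1,0,0,1] (.p true [0,0,1] [] (⟨0,[(18,0)]⟩,⟨0,[(17,0)]⟩) .k 0 (⟨0,[]⟩,⟨0,
  []⟩) .k .k) (.Q [0,0,0,0,0,0,1,1,0,1,-1] (.p false [0,0,1] [1] (⟨0,[(19,0)]⟩,⟨0,[(18,0)]⟩) .k 1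
  (⟨0,[]⟩,⟨0,[]⟩) .k .k) (.R ⟨1,false,false,true,[1,0,-1],[1,-1],[1,0,0,0,0,0,0,-1],(⟨0,[(19,0)]⟩,
  ⟨0,[(20,0)]⟩),(⟨0,[(22,0)]⟩,⟨0,[(23,0)]⟩),⟨0,[(5,0)]⟩,.k,.k,.k,.k,.k,.k,⟨true,0,⟨3,[(1,2),(0,0),
  (13,1),(1,0),(5,1)]⟩,⟨0,[(4,0),(21,0)]⟩⟩,⟨false,0,⟨1,[(2,0),(0,0)]⟩,⟨0,[(17,0),(9,0)]⟩⟩,⟨true,0,
  ⟨0,[]⟩,⟨0,[(30,0)]⟩⟩,⟨true,0,⟨0,[(3,0),(0,0)]⟩,⟨0,[(1,0)]⟩⟩,⟨false,1,⟨0,[(25,0),(2,0)]⟩,⟨0,[(26,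
  0)]⟩⟩,⟨true,0,⟨0,[(14,0)]⟩,⟨0,[(1,0),(24,0)]⟩⟩,[.e ⟨true,0,⟨0,[(18,0)]⟩,⟨0,[(0,0),(12,0)]⟩⟩ ⟨true,
  0,⟨0,[(3,0),(26,0)]⟩,⟨0,[(6,0),(17,0)]⟩⟩,.a ⟨true,0,⟨0,[(26,0)]⟩,⟨0,[(0,0),(0,0)]⟩⟩ ⟨false,1,⟨1,
  [(18,1),(8,0),(0,0)]⟩,⟨0,[(4,0)]⟩⟩ ⟨true,0,⟨0,[(3,0)]⟩,⟨1,[(6,0),(10,0),(6,0),(0,0)]⟩⟩,.o ⟨false,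
  1,⟨3,[(8,0),(0,0),(3,3),(13,1)]⟩,⟨1,[(2,0),(0,0)]⟩⟩,.o ⟨false,0,⟨0,[(13,0)]⟩,⟨7,[(7,3),(0,0),(0,
  0),(11,1),(5,3)]⟩⟩]⟩) (.Q [0,0,0,1,0,0,0,0,0,1] (.pp false [-1,1]) (.R ⟨1,false,false,true,[1,0,
  -1],[1,-1],[1,0,0,0,0,0,0,-1],(⟨0,[(20,0)]⟩,⟨0,[(21,0)]⟩),(⟨0,[(23,0)]⟩,⟨0,[(24,0)]⟩),⟨0,[(6,0)]⟩,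
  .k,.k,.k,.k,.k,.k,⟨true,0,⟨3,[(2,2),(0,0),(13,1),(1,0),(5,1)]⟩,⟨0,[(5,0),(21,0)]⟩⟩,⟨false,0,⟨1,
  [(3,0),(0,0)]⟩,⟨0,[(18,0),(9,0)]⟩⟩,⟨true,0,⟨0,[]⟩,⟨0,[(31,0)]⟩⟩,⟨true,0,⟨0,[(4,0),(0,0)]⟩,⟨0,[(2,
  0)]⟩⟩,⟨false,1,⟨0,[(26,0),(2,0)]⟩,⟨0,[(27,0)]⟩⟩,⟨true,0,⟨0,[(15,0)]⟩,⟨0,[(2,0),(24,0)]⟩⟩,[.o
  ⟨false,0,⟨0,[(1,0),(2,0),(0,0)]⟩,⟨0,[(26,0),(2,0)]⟩⟩,.a ⟨true,0,⟨0,[(27,0)]⟩,⟨0,[(0,0)]⟩⟩ ⟨false,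
  1,⟨1,[(19,1),(8,0),(0,0)]⟩,⟨0,[(5,0)]⟩⟩ ⟨true,0,⟨0,[(4,0)]⟩,⟨0,[(0,0),(13,0)]⟩⟩,.o ⟨false,1,⟨3,
  [(9,0),(0,0),(3,3),(13,1)]⟩,⟨1,[(3,0),(0,0)]⟩⟩,.o ⟨false,0,⟨0,[(14,0)]⟩,⟨7,[(8,3),(0,0),(0,0),(11,
  1),(5,3)]⟩⟩]⟩) (.Q [0,1,-1,0,0,0,0,0,-1,0,0,1] (.p true [0,0,0,1] [] (⟨0,[(12,0)]⟩,⟨0,[(11,0)]⟩)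
  .k 0 (⟨0,[]⟩,⟨0,[]⟩) .k .k) (.Q [0,1,1,0,0,0,0,0,1,0,0,-1] (.p false [0,0,0,1] [] (⟨0,[(13,0)]⟩,
  ⟨0,[(12,0)]⟩) .k 0 (⟨0,[]⟩,⟨0,[]⟩) .k .k) (.K ⟨0,[0,0,0,1],0,0,(⟨0,[(14,0)]⟩,⟨0,[(13,0)]⟩),.k,(.r
  (-1) ⟨1,[(12,0),(16,1),(0,0)]⟩ ⟨2,[(1,2),(3,1),(7,2),(2,2),(2,0),(7,1),(0,0)]⟩),(.x 0 ⟨0,[(26,
  0)]⟩ ⟨3,[(11,0),(0,0),(11,1),(0,3)]⟩),.k,.k,[⟨0,[(14,0)]⟩,⟨0,[(13,0)]⟩,⟨0,[(1,0)]⟩,⟨0,[(0,0)]⟩]⟩)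
  (.Q [0,0,0,0,0,-1,0,0,0,1,0,-1] (.ed true [0,1,0,1] .k) (.R ⟨1,false,false,false,[1,0,0,-1],[1,0,
  -1],[0,0,0,-1,0,0,0,0,-1],(⟨0,[(14,0)]⟩,⟨0,[(15,0)]⟩),(⟨0,[(23,0)]⟩,⟨0,[(24,0)]⟩),⟨0,[(0,0)]⟩,.k,
  .k,(.x (-1) ⟨3,[(12,0),(0,0),(11,1),(0,3)]⟩ ⟨0,[(27,0)]⟩),.k,(.r 0 ⟨0,[(1,0),(1,0),(4,0),(5,0)]⟩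
  ⟨3,[(5,3),(6,0),(0,2),(6,3)]⟩),.k,⟨false,0,⟨0,[(1,0),(1,0),(4,0),(5,0)]⟩,⟨3,[(5,1),(0,1),(5,0),(0,
  2),(8,1)]⟩⟩,⟨true,0,⟨0,[(14,0),(2,0)]⟩,⟨1,[(6,0),(0,0),(7,1)]⟩⟩,⟨true,0,⟨0,[(30,0)]⟩,⟨0,[(29,
  0)]⟩⟩,⟨false,1,⟨9,[(4,5),(8,4),(0,9),(2,3),(1,3),(0,3),(7,1),(3,4)]⟩,⟨0,[(1,0),(16,0)]⟩⟩,⟨false,1,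
  ⟨3,[(12,0),(0,0),(18,1)]⟩,⟨0,[]⟩⟩,⟨false,1,⟨5,[(5,5),(7,2),(0,5),(2,1),(2,1),(4,1),(2,1),(3,0)]⟩,
  ⟨0,[(1,0),(5,0),(0,0)]⟩⟩,[.o ⟨false,0,⟨0,[(4,0)]⟩,⟨3,[(12,0),(0,0),(4,3),(13,1)]⟩⟩,.o ⟨false,1,⟨3,
  [(4,1),(14,1),(5,0),(6,2)]⟩,⟨0,[(18,0)]⟩⟩,.o ⟨false,1,⟨1,[(15,1),(9,0),(5,0)]⟩,⟨2,[(3,0),(2,0),(7,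
  2),(2,1),(2,0)]⟩⟩,.a ⟨true,0,⟨0,[(15,0)]⟩,⟨0,[(14,0)]⟩⟩ ⟨false,0,⟨0,[(1,0),(1,0),(10,0)]⟩,⟨1,[(13,
  0),(6,0),(0,0),(7,1),(2,0)]⟩⟩ ⟨true,0,⟨0,[(4,0),(9,0)]⟩,⟨0,[(15,0),(2,0)]⟩⟩]⟩) (.R ⟨0,false,false,
  false,[1,0,0,-1],[1,0,-1],[0,1,0,0,0,0,0,0,-1],(⟨0,[(14,0)]⟩,⟨0,[(15,0)]⟩),(⟨0,[(23,0)]⟩,⟨0,[(24,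
  0)]⟩),⟨0,[(0,0)]⟩,.k,.k,(.x (-1) ⟨3,[(12,0),(0,0),(11,1),(0,3)]⟩ ⟨0,[(27,0)]⟩),.k,.k,.k,⟨false,0,
  ⟨0,[(1,0),(2,0),(3,0),(5,0),(3,0)]⟩,⟨1,[(13,0),(8,1),(9,0)]⟩⟩,⟨true,0,⟨0,[(14,0),(2,0)]⟩,⟨1,[(6,
  0),(0,0),(7,1)]⟩⟩,⟨true,0,⟨0,[(34,0)]⟩,⟨0,[]⟩⟩,⟨false,1,⟨9,[(4,5),(8,4),(0,9),(2,3),(1,3),(0,3),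
  (7,1),(3,4)]⟩,⟨0,[(1,0),(16,0)]⟩⟩,⟨false,0,⟨0,[]⟩,⟨0,[]⟩⟩,⟨false,0,⟨0,[]⟩,⟨0,[]⟩⟩,[.o ⟨false,0,⟨0,
  [(4,0)]⟩,⟨3,[(12,0),(0,0),(4,3),(13,1)]⟩⟩,.o ⟨false,1,⟨3,[(4,1),(14,1),(5,0),(6,2)]⟩,⟨0,[(18,
  0)]⟩⟩,.o ⟨false,1,⟨1,[(15,1),(9,0),(5,0)]⟩,⟨2,[(3,0),(2,0),(7,2),(2,1),(2,0)]⟩⟩,.a ⟨true,0,⟨0,
  [(15,0)]⟩,⟨0,[(14,0)]⟩⟩ ⟨false,0,⟨0,[(1,0),(2,0),(9,0),(3,0)]⟩,⟨1,[(13,0),(6,0),(0,0),(10,0)]⟩⟩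
  ⟨true,0,⟨0,[(4,0),(9,0)]⟩,⟨0,[(15,0),(2,0)]⟩⟩]⟩))) (.Q [0,0,0,0,0,-1,0,0,0,1,0,-1] (.ed true [0,1,
  0,1] .k) (.I [1,0,-2,-1,1,0,0,0,-1] (.R ⟨1,false,false,true,[1,0,0,-1],[0,1],[1,1,0,0,0,0,0,0,-1],
  (⟨0,[(14,0)]⟩,⟨0,[(15,0)]⟩),(⟨0,[(27,0)]⟩,⟨0,[(26,0)]⟩),⟨0,[(1,0)]⟩,.k,.k,(.x (-1) ⟨3,[(12,0),(0,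
  0),(11,1),(0,3)]⟩ ⟨0,[(27,0)]⟩),(.x (-1) ⟨3,[(12,0),(0,0),(11,1),(0,3)]⟩ ⟨0,[(27,0)]⟩),(.r (-1)
  ⟨0,[(0,0),(29,0)]⟩ ⟨3,[(2,3),(12,3),(4,0),(0,0),(6,1),(0,7)]⟩),.k,⟨false,1,⟨0,[(0,0)]⟩,⟨0,[(2,0),
  (12,0),(13,0)]⟩⟩,⟨true,0,⟨0,[(14,0)]⟩,⟨2,[(3,0),(2,0),(8,2),(1,1),(2,0)]⟩⟩,⟨false,0,⟨0,[]⟩,⟨3,
  [(12,0),(0,0),(18,1)]⟩⟩,⟨false,0,⟨1,[(2,1),(7,1),(0,0),(2,0),(0,0)]⟩,⟨1,[(0,1),(2,0),(2,0),(8,1),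
  (1,0),(10,0)]⟩⟩,⟨true,0,⟨0,[(29,0)]⟩,⟨0,[(30,0)]⟩⟩,⟨false,0,⟨0,[(2,0),(3,0),(3,0),(3,0),(0,0)]⟩,
  ⟨5,[(0,3),(2,5),(8,0),(2,5),(12,1),(1,1),(1,0)]⟩⟩,[.o ⟨false,0,⟨0,[(29,0)]⟩,⟨1,[(25,0),(4,1),(1,
  0)]⟩⟩,.o ⟨false,1,⟨3,[(12,0),(0,0),(15,3),(2,1)]⟩,⟨0,[(3,0)]⟩⟩,.o ⟨false,1,⟨1,[(15,1),(9,0),(5,
  0)]⟩,⟨2,[(3,0),(2,0),(7,2),(2,1),(2,0)]⟩⟩,.a ⟨true,0,⟨0,[(15,0)]⟩,⟨0,[(14,0)]⟩⟩ ⟨false,1,⟨1,[(12,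
  0),(18,0)]⟩,⟨0,[(2,0),(12,0)]⟩⟩ ⟨true,0,⟨0,[(14,0),(14,0)]⟩,⟨0,[(3,0),(11,0)]⟩⟩]⟩) (.I [0,-1,-1,
  -1,1,0,0,0,-1] (.R ⟨1,false,false,false,[1,0,0,-1],[1,0,-1],[0,0,0,-1,0,0,0,0,-1],(⟨0,[(15,0)]⟩,
  ⟨0,[(16,0)]⟩),(⟨0,[(24,0)]⟩,⟨0,[(25,0)]⟩),⟨0,[(2,0)]⟩,.k,.k,(.x (-1) ⟨3,[(13,0),(0,0),(11,1),(0,
  3)]⟩ ⟨0,[(28,0)]⟩),.k,(.r (-1) ⟨0,[(0,0),(8,0)]⟩ ⟨5,[(1,1),(4,2),(0,0),(6,1),(6,1),(1,2)]⟩),.k,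
  ⟨false,1,⟨0,[(0,0),(8,0)]⟩,⟨0,[(1,0),(21,0),(8,0)]⟩⟩,⟨true,0,⟨0,[(15,0),(2,0)]⟩,⟨1,[(7,0),(0,0),
  (7,1)]⟩⟩,⟨true,0,⟨0,[(31,0)]⟩,⟨0,[(30,0)]⟩⟩,⟨false,0,⟨0,[(3,0),(2,0),(24,0)]⟩,⟨0,[(0,0),(6,0),(1,
  0),(6,0)]⟩⟩,⟨false,1,⟨3,[(13,0),(0,0),(18,1)]⟩,⟨0,[]⟩⟩,⟨false,0,⟨0,[(3,0),(2,0)]⟩,⟨0,[(0,0),(15,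
  0),(2,0)]⟩⟩,[.o ⟨false,0,⟨0,[(5,0)]⟩,⟨3,[(13,0),(0,0),(4,3),(13,1)]⟩⟩,.o ⟨false,1,⟨3,[(5,1),(14,
  1),(5,0),(6,2)]⟩,⟨0,[(19,0)]⟩⟩,.o ⟨false,1,⟨1,[(16,1),(9,0),(5,0)]⟩,⟨3,[(1,1),(2,1),(8,0),(1,3),
  (10,0)]⟩⟩,.a ⟨true,0,⟨0,[(16,0)]⟩,⟨0,[(15,0)]⟩⟩ ⟨false,1,⟨0,[(0,0)]⟩,⟨3,[(1,1),(12,0),(15,1),(2,
  0)]⟩⟩ ⟨true,0,⟨0,[(5,0),(9,0)]⟩,⟨0,[(16,0),(2,0)]⟩⟩]⟩) (.I [0,0,-1,-1,0,0,0,0,1] (.K ⟨0,[0,0,0,1],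
  0,(-1),(⟨0,[(17,0)]⟩,⟨0,[(16,0)]⟩),.k,(.r 0 ⟨0,[(0,0)]⟩ ⟨3,[(2,1),(11,3),(0,0),(15,1),(2,0)]⟩),
  (.x 0 ⟨0,[(29,0)]⟩ ⟨3,[(14,0),(0,0),(11,1),(0,3)]⟩),.k,.k,[⟨0,[(17,0)]⟩,⟨0,[(16,0)]⟩,⟨1,[(14,0),
  (2,1),(15,0),(2,1)]⟩,⟨0,[(1,0),(3,0),(10,0)]⟩]⟩) (.K ⟨0,[0,0,0,1],0,(-1),(⟨0,[(17,0)]⟩,⟨0,[(16,
  0)]⟩),.k,(.x 0 ⟨0,[(19,0),(2,0),(5,0)]⟩ ⟨0,[(29,0),(3,0)]⟩),(.x 0 ⟨0,[(29,0)]⟩ ⟨3,[(14,0),(0,0),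
  (11,1),(0,3)]⟩),.k,.k,[⟨0,[(17,0)]⟩,⟨0,[(16,0)]⟩,⟨1,[(14,0),(2,1),(15,0),(2,1)]⟩,⟨0,[(1,0),(3,0),
  (10,0)]⟩]⟩)))) (.I [1,-1,-2,-2,1,0,0,-1,-1] (.R ⟨0,false,false,true,[1,0,0,-1],[0,1,1],[1,0,0,-1,
  0,0,0,0,-1],(⟨0,[(14,0)]⟩,⟨0,[(15,0)]⟩),(⟨0,[(24,0),(2,0)]⟩,⟨0,[(9,0)]⟩),⟨0,[(1,0)]⟩,.k,.k,(.x
  (-1) ⟨3,[(12,0),(0,0),(11,1),(0,3)]⟩ ⟨0,[(27,0)]⟩),(.x (-1) ⟨3,[(9,3),(2,0),(0,0),(3,3),(13,1)]⟩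
  ⟨1,[(6,0),(0,0),(16,1),(2,1)]⟩),.k,.k,⟨false,1,⟨0,[(0,0)]⟩,⟨0,[(2,0),(3,0),(1,0),(1,0),(4,0)]⟩⟩,
  ⟨true,0,⟨1,[(6,0),(0,0),(6,1)]⟩,⟨0,[(15,0),(1,0)]⟩⟩,⟨true,0,⟨0,[(30,0)]⟩,⟨0,[(29,0)]⟩⟩,⟨false,0,
  ⟨0,[(2,0),(3,0),(1,0),(5,0),(0,0)]⟩,⟨3,[(0,1),(3,3),(3,1),(3,0),(2,3),(12,1),(2,0)]⟩⟩,⟨false,0,⟨0,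
  []⟩,⟨0,[]⟩⟩,⟨false,0,⟨0,[]⟩,⟨0,[]⟩⟩,[.o ⟨false,0,⟨0,[(6,0),(1,0)]⟩,⟨19,[(0,9),(3,5),(8,4),(3,13),
  (1,3),(0,3),(7,1),(3,4)]⟩⟩,.o ⟨false,1,⟨0,[(18,0),(10,0),(2,0)]⟩,⟨0,[(4,0),(25,0)]⟩⟩,.o ⟨false,1,
  ⟨1,[(15,1),(9,0),(5,0)]⟩,⟨2,[(3,0),(2,0),(7,2),(2,1),(2,0)]⟩⟩,.a ⟨true,0,⟨0,[(15,0)]⟩,⟨0,[(14,
  0)]⟩⟩ ⟨false,1,⟨3,[(0,1),(7,1),(3,0),(15,1),(2,0)]⟩,⟨0,[(2,0),(12,0),(13,0)]⟩⟩ ⟨true,0,⟨0,[(6,0),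
  (1,0),(5,0)]⟩,⟨0,[(4,0),(10,0),(14,0)]⟩⟩]⟩) (.Q [0,1,1,1,-1,0,0,0,1,1,0,-1] (.p false [0,0,0,1]
  [1] (⟨0,[(15,0)]⟩,⟨0,[(14,0)]⟩) .k 1 (⟨0,[]⟩,⟨0,[]⟩) .k .k) (.K ⟨0,[0,0,0,1],0,(-1),(⟨0,[(16,0)]⟩,
  ⟨0,[(15,0)]⟩),.k,(.x 0 ⟨0,[(18,0),(2,0),(5,0)]⟩ ⟨0,[(28,0),(3,0)]⟩),(.x 0 ⟨0,[(28,0)]⟩ ⟨3,[(13,0),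
  (0,0),(11,1),(0,3)]⟩),.k,.k,[⟨0,[(16,0)]⟩,⟨0,[(15,0)]⟩,⟨1,[(13,0),(2,1),(15,0),(2,1)]⟩,⟨0,[(0,0),
  (3,0)]⟩]⟩) (.I [0,0,0,0,0,0,0,0,1] (.R ⟨0,false,false,false,[1,0,0,-1],[1,0,-1],[0,0,0,-1,0,0,0,0,
  -1],(⟨0,[(16,0)]⟩,⟨0,[(17,0)]⟩),(⟨0,[(25,0)]⟩,⟨0,[(26,0)]⟩),⟨0,[(3,0)]⟩,.k,.k,(.x (-1) ⟨3,[(14,0),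
  (0,0),(11,1),(0,3)]⟩ ⟨0,[(29,0)]⟩),.k,.k,.k,⟨false,1,⟨0,[(1,0),(8,0),(5,0)]⟩,⟨1,[(0,1),(6,0),(0,
  0),(15,0)]⟩⟩,⟨true,0,⟨0,[(16,0),(2,0)]⟩,⟨1,[(8,0),(0,0),(7,1)]⟩⟩,⟨true,0,⟨0,[(32,0)]⟩,⟨0,[(31,
  0)]⟩⟩,⟨false,0,⟨1,[(0,0),(3,0),(1,0),(9,0),(4,0),(8,0)]⟩,⟨0,[(1,0),(6,0),(1,0),(5,0),(0,0)]⟩⟩,
  ⟨false,0,⟨0,[]⟩,⟨0,[]⟩⟩,⟨false,0,⟨0,[]⟩,⟨0,[]⟩⟩,[.o ⟨false,0,⟨0,[(6,0)]⟩,⟨3,[(14,0),(0,0),(4,3),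
  (13,1)]⟩⟩,.o ⟨false,1,⟨3,[(6,1),(14,1),(5,0),(6,2)]⟩,⟨0,[(20,0)]⟩⟩,.o ⟨false,1,⟨1,[(17,1),(9,0),
  (5,0)]⟩,⟨3,[(2,0),(1,0),(0,1),(0,0),(7,0),(1,2),(5,0)]⟩⟩,.a ⟨true,0,⟨0,[(17,0)]⟩,⟨0,[(16,0)]⟩⟩
  ⟨false,1,⟨0,[(1,0),(14,0)]⟩,⟨11,[(2,3),(4,2),(0,0),(6,3),(6,1),(1,0),(5,1)]⟩⟩ ⟨true,0,⟨0,[(6,0),
  (9,0)]⟩,⟨0,[(17,0),(2,0)]⟩⟩]⟩) (.R ⟨0,false,false,true,[1,0,0,-1],[0,1],[0,1],(⟨0,[(16,0)]⟩,⟨0,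
  [(17,0)]⟩),(⟨0,[(29,0)]⟩,⟨0,[(28,0)]⟩),⟨0,[(3,0)]⟩,.k,.k,(.x (-1) ⟨3,[(14,0),(0,0),(11,1),(0,3)]⟩
  ⟨0,[(29,0)]⟩),(.x (-1) ⟨3,[(14,0),(0,0),(11,1),(0,3)]⟩ ⟨0,[(29,0)]⟩),.k,.k,⟨false,1,⟨0,[(32,0),(0,
  0)]⟩,⟨5,[(2,1),(4,1),(6,0),(7,1),(11,0)]⟩⟩,⟨true,0,⟨0,[(16,0)]⟩,⟨3,[(1,0),(0,0),(2,0),(0,0),(10,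
  2),(1,0),(2,1)]⟩⟩,⟨true,0,⟨0,[(2,0),(21,0),(7,1),(0,0)]⟩,⟨0,[(0,0)]⟩⟩,⟨false,0,⟨23,[(2,7),(1,1),
  (2,7),(5,1),(1,6),(0,21),(5,3),(7,1),(3,0)]⟩,⟨0,[(1,0)]⟩⟩,⟨false,0,⟨0,[]⟩,⟨0,[]⟩⟩,⟨false,0,⟨0,[]⟩,
  ⟨0,[]⟩⟩,[.o ⟨false,0,⟨0,[(31,0)]⟩,⟨7,[(1,3),(2,3),(9,0),(0,0),(11,1),(4,3)]⟩⟩,.o ⟨false,1,⟨3,[(14,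
  0),(0,0),(15,3),(2,1)]⟩,⟨0,[(5,0)]⟩⟩,.o ⟨false,1,⟨1,[(17,1),(9,0),(5,0)]⟩,⟨4,[(0,0),(1,0),(1,1),
  (0,1),(8,0),(1,2),(1,0),(3,0)]⟩⟩,.a ⟨true,0,⟨0,[(17,0)]⟩,⟨0,[(16,0)]⟩⟩ ⟨false,1,⟨3,[(14,0),(0,0),
  (17,1)]⟩,⟨3,[(22,0),(0,0),(6,1)]⟩⟩ ⟨true,0,⟨0,[(16,0),(14,0)]⟩,⟨0,[(5,0),(11,0)]⟩⟩]⟩)))))))) (.Q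
  [0,0,0,0,0,0,-1,-1,0,0,1] (.p true [0,0,1] [] (⟨0,[(19,0)]⟩,⟨0,[(18,0)]⟩) .k 0 (⟨0,[]⟩,⟨0,[]⟩) .k
  .k) (.R ⟨2,true,false,true,[0,1],[0,0,1],[0,0,1],(⟨0,[]⟩,⟨0,[]⟩),(⟨0,[(20,0)]⟩,⟨0,[(19,0)]⟩),⟨0,
  []⟩,.k,.k,.k,.k,.k,.k,⟨true,0,⟨1,[(0,0),(15,0),(1,0),(5,0)]⟩,⟨0,[(4,0)]⟩⟩,⟨false,0,⟨1,[(2,0),(0,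
  0)]⟩,⟨0,[(17,0),(9,0)]⟩⟩,⟨true,0,⟨0,[(26,0)]⟩,⟨0,[(25,0)]⟩⟩,⟨false,0,⟨0,[(1,0)]⟩,⟨0,[(0,0),(24,0),
  (2,0)]⟩⟩,⟨false,1,⟨3,[(8,0),(0,0),(18,1)]⟩,⟨0,[]⟩⟩,⟨true,0,⟨0,[(14,0)]⟩,⟨0,[(0,0)]⟩⟩,[]⟩) (.Q [0,
  0,0,-1,0,0,-1,-1,0,0,1] (.p true [0,0,1] [] (⟨0,[(20,0)]⟩,⟨0,[(19,0)]⟩) .k 0 (⟨0,[]⟩,⟨0,[]⟩) .k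
  .k) (.R ⟨2,true,false,true,[0,1],[0,1,1],[1,0,1,1],(⟨0,[]⟩,⟨0,[]⟩),(⟨0,[(21,0),(2,0)]⟩,⟨0,[(6,
  0)]⟩),⟨0,[]⟩,.k,.k,.k,.k,.k,.k,⟨false,1,⟨1,[(19,1),(8,0),(0,0)]⟩,⟨0,[(5,0)]⟩⟩,⟨true,0,⟨1,[(3,0),
  (0,0)]⟩,⟨0,[(18,0)]⟩⟩,⟨true,0,⟨0,[]⟩,⟨0,[(31,0)]⟩⟩,⟨false,0,⟨0,[(1,0)]⟩,⟨0,[(16,0),(12,0)]⟩⟩,
  ⟨false,1,⟨0,[(26,0),(2,0)]⟩,⟨0,[(27,0)]⟩⟩,⟨true,0,⟨0,[(1,0),(24,0)]⟩,⟨0,[(0,0)]⟩⟩,[]⟩) (.Q [0,0,0,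
  1,0,0,0,0,0,1] (.pp false [-1,1]) (.R ⟨1,false,false,true,[1,0,-1],[1,-1],[1,0,0,0,0,0,0,-1],(⟨0,
  [(21,0)]⟩,⟨0,[(22,0)]⟩),(⟨0,[(24,0)]⟩,⟨0,[(25,0)]⟩),⟨0,[(7,0)]⟩,.k,.k,.k,.k,.k,.k,⟨true,0,⟨0,[(20,
  0),(5,0),(0,0)]⟩,⟨0,[(6,0),(21,0)]⟩⟩,⟨false,0,⟨1,[(4,0),(0,0)]⟩,⟨0,[(19,0),(9,0)]⟩⟩,⟨true,0,⟨0,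
  []⟩,⟨0,[(32,0)]⟩⟩,⟨false,0,⟨0,[(3,0)]⟩,⟨0,[(8,0),(11,0),(9,0)]⟩⟩,⟨false,1,⟨0,[(27,0),(2,0)]⟩,⟨0,
  [(28,0)]⟩⟩,⟨false,0,⟨0,[(2,0)]⟩,⟨0,[(17,0),(12,0)]⟩⟩,[.o ⟨false,0,⟨0,[(3,0),(10,0)]⟩,⟨0,[(27,0),
  (2,0)]⟩⟩,.a ⟨true,0,⟨0,[(28,0)]⟩,⟨0,[(0,0)]⟩⟩ ⟨false,1,⟨1,[(20,1),(8,0),(0,0)]⟩,⟨0,[(6,0)]⟩⟩
  ⟨true,0,⟨0,[(5,0)]⟩,⟨0,[(0,0),(14,0)]⟩⟩,.o ⟨false,1,⟨3,[(10,0),(0,0),(3,3),(13,1)]⟩,⟨1,[(4,0),(0,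
  0)]⟩⟩,.o ⟨false,0,⟨0,[(15,0)]⟩,⟨7,[(9,3),(0,0),(0,0),(11,1),(5,3)]⟩⟩]⟩) (.I [1,1,1,0,-1,0,0,0,-1]
  (.Q [0,1,1,0,0,0,0,0,1,0,0,-1] (.p false [0,0,0,1] [] (⟨0,[(14,0)]⟩,⟨0,[(13,0)]⟩) .k 0 (⟨0,[]⟩,⟨0,
  []⟩) .k .k) (.K ⟨0,[0,0,0,1],0,0,(⟨0,[(15,0)]⟩,⟨0,[(14,0)]⟩),.k,(.r (-1) ⟨1,[(13,0),(16,1),(0,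
  0)]⟩ ⟨2,[(1,0),(10,0),(15,1),(0,2)]⟩),(.x 0 ⟨0,[(27,0)]⟩ ⟨3,[(12,0),(0,0),(11,1),(0,3)]⟩),.k,.k,
  [⟨0,[(15,0)]⟩,⟨0,[(14,0)]⟩,⟨0,[(1,0),(13,0),(15,0)]⟩,⟨0,[(0,0)]⟩]⟩) (.R ⟨2,false,false,true,[0,1],
  [0,0,0,1],[],(⟨0,[]⟩,⟨0,[]⟩),(⟨0,[(15,0)]⟩,⟨0,[(14,0)]⟩),⟨0,[]⟩,.k,.k,.k,(.r 0 ⟨2,[(1,0),(10,0),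
  (15,1),(0,2)]⟩ ⟨1,[(13,0),(16,1),(0,0)]⟩),.k,.k,⟨true,0,⟨2,[(0,1),(0,0),(12,1),(10,0),(2,0)]⟩,⟨0,
  [(1,0),(11,0)]⟩⟩,⟨false,0,⟨2,[(2,0),(3,0),(7,2),(2,1),(2,0)]⟩,⟨0,[(15,0),(15,0)]⟩⟩,⟨false,1,⟨1,
  [(30,1),(0,0),(0,0)]⟩,⟨3,[(20,0),(0,0),(6,1),(0,3)]⟩⟩,⟨true,0,⟨0,[(1,0),(0,0),(10,0),(0,0)]⟩,⟨0,
  [(0,0),(28,0)]⟩⟩,⟨false,1,⟨1,[(31,0),(0,0)]⟩,⟨1,[(20,0),(0,0)]⟩⟩,⟨false,1,⟨7,[(12,0),(0,4),(0,7),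
  (2,3),(2,3),(4,1)]⟩,⟨0,[(0,0)]⟩⟩,[.a ⟨true,0,⟨0,[(1,0),(11,0),(0,0)]⟩,⟨0,[(0,0)]⟩⟩ ⟨false,1,⟨3,
  [(12,0),(0,0),(17,1)]⟩,⟨0,[]⟩⟩ ⟨true,0,⟨2,[(1,2),(0,0),(3,0),(6,2),(0,2),(2,1),(2,0)]⟩,⟨0,[(0,
  0)]⟩⟩,.o ⟨false,1,⟨7,[(12,0),(0,4),(0,7),(2,3),(2,3),(4,1)]⟩,⟨2,[(0,2),(1,0),(0,0),(12,1),(1,
  0)]⟩⟩,.o ⟨false,1,⟨3,[(12,0),(0,0),(17,1)]⟩,⟨2,[(2,0),(3,0),(10,1),(2,0)]⟩⟩,.e ⟨false,1,⟨1,[(31,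
  0),(0,0)]⟩,⟨1,[(20,0),(0,0)]⟩⟩ ⟨false,1,⟨7,[(12,0),(0,4),(0,7),(2,3),(2,3),(4,1)]⟩,⟨0,[(0,
  0)]⟩⟩]⟩)) (.Q [0,-1,-1,-1,1,0,0,0,-1,-1,0,1] (.p true [0,0,0,1] [1] (⟨0,[(14,0)]⟩,⟨0,[(13,0)]⟩)
  .k 1 (⟨0,[]⟩,⟨0,[]⟩) .k .k) (.Q [0,0,0,0,0,1,0,0,0,-1,0,1] (.ed false [0,1,0,1] .k) (.I [1,0,0,0,
  0,0,0,-1,1] (.R ⟨0,false,false,true,[1,0,0,-1],[1,0,-1],[0,1,0,0,0,0,0,0,-1],(⟨0,[(16,0)]⟩,⟨0,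
  [(17,0)]⟩),(⟨0,[(25,0)]⟩,⟨0,[(26,0)]⟩),⟨0,[(1,0)]⟩,.k,.k,(.x (-1) ⟨3,[(14,0),(0,0),(11,1),(0,3)]⟩
  ⟨0,[(29,0)]⟩),.k,.k,.k,⟨false,1,⟨1,[(2,1),(2,0),(4,0),(1,0),(3,1)]⟩,⟨0,[(0,0)]⟩⟩,⟨true,0,⟨0,[(16,
  0),(2,0)]⟩,⟨1,[(8,0),(0,0),(7,1)]⟩⟩,⟨true,0,⟨0,[(36,0)]⟩,⟨0,[]⟩⟩,⟨false,0,⟨0,[(0,0),(15,0),(2,
  0)]⟩,⟨0,[(2,0),(2,0),(10,0),(0,0)]⟩⟩,⟨false,0,⟨0,[]⟩,⟨0,[]⟩⟩,⟨false,0,⟨0,[]⟩,⟨0,[]⟩⟩,[.o ⟨false,0,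
  ⟨0,[(18,0)]⟩,⟨3,[(6,3),(7,0),(0,0),(18,1)]⟩⟩,.o ⟨false,1,⟨1,[(21,1),(5,0),(6,0)]⟩,⟨0,[(6,0)]⟩⟩,.o
  ⟨false,1,⟨1,[(17,1),(9,0),(5,0)]⟩,⟨2,[(4,0),(3,0),(7,2),(2,1),(2,0)]⟩⟩,.a ⟨true,0,⟨0,[(17,0)]⟩,⟨0,
  [(16,0)]⟩⟩ ⟨false,1,⟨1,[(14,0),(18,0)]⟩,⟨0,[(0,0),(9,0),(19,0)]⟩⟩ ⟨true,0,⟨0,[(16,0),(1,0)]⟩,⟨0,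
  [(6,0),(10,0)]⟩⟩]⟩) (.Q [0,-1,1,0,0,0,1,1,1,1,-1,-1] (.p false [0,0,1] [1,0,0,-1] (⟨0,[(26,0)]⟩,
  ⟨0,[(25,0)]⟩) .k 2 (⟨0,[(16,0)]⟩,⟨0,[(17,0)]⟩) .k (.r (-1) ⟨1,[(10,1),(4,0),(18,0)]⟩ ⟨0,[(0,0),
  (23,1)]⟩)) (.R ⟨0,false,false,false,[1,0,0,-1],[0,0,1],[1,0,0,0,0,0,0,0,-1],(⟨0,[(17,0)]⟩,⟨0,[(18,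
  0)]⟩),(⟨0,[(27,0)]⟩,⟨0,[(26,0)]⟩),⟨0,[(2,0)]⟩,.k,.k,(.x (-1) ⟨3,[(15,0),(0,0),(11,1),(0,3)]⟩ ⟨0,
  [(30,0)]⟩),.k,.k,.k,⟨true,0,⟨0,[(1,0),(23,1)]⟩,⟨0,[(0,0),(4,0),(7,0),(4,0)]⟩⟩,⟨false,0,⟨1,[(9,0),
  (0,0),(6,1)]⟩,⟨1,[(3,0),(0,0),(0,0),(7,1),(4,0)]⟩⟩,⟨true,0,⟨0,[]⟩,⟨0,[(37,0)]⟩⟩,⟨false,0,⟨0,[(0,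
  0)]⟩,⟨0,[(3,0),(9,0),(11,0)]⟩⟩,⟨false,0,⟨0,[]⟩,⟨0,[]⟩⟩,⟨false,0,⟨0,[]⟩,⟨0,[]⟩⟩,[.o ⟨false,0,⟨0,
  [(7,0)]⟩,⟨1,[(22,1),(5,0),(6,0)]⟩⟩,.o ⟨false,1,⟨3,[(7,3),(7,0),(0,0),(18,1)]⟩,⟨0,[(19,0)]⟩⟩,.o
  ⟨false,1,⟨1,[(18,1),(9,0),(5,0)]⟩,⟨2,[(5,0),(3,0),(7,2),(2,1),(2,0)]⟩⟩,.a ⟨true,0,⟨0,[(18,0)]⟩,⟨0,
  [(17,0)]⟩⟩ ⟨false,1,⟨3,[(1,1),(13,0),(9,1),(5,1),(2,2)]⟩,⟨0,[(0,0),(17,0),(0,0)]⟩⟩ ⟨true,0,⟨0,[(7,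
  0),(9,0)]⟩,⟨0,[(18,0),(0,0)]⟩⟩]⟩) (.Q [0,1,1,0,0,0,0,0,1,0,0,-1] (.p false [0,0,0,1] [] (⟨0,[(18,
  0)]⟩,⟨0,[(17,0)]⟩) .k 0 (⟨0,[]⟩,⟨0,[]⟩) .k .k) (.K ⟨0,[0,0,0,1],0,0,(⟨0,[(19,0)]⟩,⟨0,[(18,0)]⟩),
  .k,(.r (-1) ⟨1,[(17,0),(16,1),(0,0)]⟩ ⟨4,[(1,1),(0,2),(15,1),(4,0),(0,2),(7,3),(0,4)]⟩),(.x 0 ⟨0,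
  [(31,0)]⟩ ⟨3,[(16,0),(0,0),(11,1),(0,3)]⟩),.k,.k,[⟨0,[(19,0)]⟩,⟨0,[(18,0)]⟩,⟨0,[(1,0),(6,0),(9,0),
  (0,0)]⟩,⟨0,[(0,0)]⟩]⟩) (.R ⟨0,false,false,true,[1,0,0,-1],[1,0,-1],[0,1,0,0,0,0,0,0,-1],(⟨0,[(18,
  0)]⟩,⟨0,[(19,0)]⟩),(⟨0,[(27,0)]⟩,⟨0,[(28,0)]⟩),⟨0,[(3,0)]⟩,.k,.k,(.x (-1) ⟨3,[(16,0),(0,0),(11,1),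
  (0,3)]⟩ ⟨0,[(31,0)]⟩),.k,.k,.k,⟨false,0,⟨1,[(0,1),(5,1),(0,0),(4,0),(1,0),(3,1)]⟩,⟨3,[(16,0),(0,
  2),(8,3)]⟩⟩,⟨true,0,⟨0,[(18,0),(2,0)]⟩,⟨1,[(10,0),(0,0),(7,1)]⟩⟩,⟨true,0,⟨0,[(38,0)]⟩,⟨0,[]⟩⟩,
  ⟨false,1,⟨5,[(17,2),(0,5),(2,3),(1,3),(0,1),(1,1),(2,0),(6,1)]⟩,⟨0,[(0,0),(7,0)]⟩⟩,⟨false,0,⟨0,
  []⟩,⟨0,[]⟩⟩,⟨false,0,⟨0,[]⟩,⟨0,[]⟩⟩,[.o ⟨false,0,⟨0,[(20,0)]⟩,⟨3,[(8,3),(7,0),(0,0),(18,1)]⟩⟩,.o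
  ⟨false,1,⟨1,[(23,1),(5,0),(6,0)]⟩,⟨0,[(8,0)]⟩⟩,.o ⟨false,1,⟨1,[(1,0),(2,0),(2,0),(9,0)]⟩,⟨2,[(6,
  0),(3,0),(7,2),(2,1),(2,0)]⟩⟩,.a ⟨true,0,⟨0,[(19,0)]⟩,⟨0,[(18,0)]⟩⟩ ⟨false,0,⟨1,[(0,0),(0,0),(4,
  0),(0,0),(10,1)]⟩,⟨1,[(17,0),(6,0),(0,0),(10,0)]⟩⟩ ⟨true,0,⟨0,[(18,0),(1,0)]⟩,⟨0,[(8,0),(10,
  0)]⟩⟩]⟩)))) (.I [0,0,0,0,0,0,0,-1,1] (.R ⟨1,false,false,true,[1,0,0,-1],[1,0,-1],[1,1,0,0,0,0,0,0,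
  -1],(⟨0,[(16,0)]⟩,⟨0,[(17,0)]⟩),(⟨0,[(25,0)]⟩,⟨0,[(26,0)]⟩),⟨0,[(1,0)]⟩,.k,.k,(.x (-1) ⟨3,[(14,0),
  (0,0),(11,1),(0,3)]⟩ ⟨0,[(29,0)]⟩),.k,(.r (-1) ⟨0,[(2,0),(7,0),(5,0)]⟩ ⟨3,[(0,3),(21,0),(0,0),(6,
  1),(0,3)]⟩),.k,⟨false,1,⟨1,[(2,1),(2,0),(4,0),(1,0),(3,1)]⟩,⟨0,[(0,0)]⟩⟩,⟨true,0,⟨0,[(16,0),(2,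
  0)]⟩,⟨1,[(8,0),(0,0),(7,1)]⟩⟩,⟨false,0,⟨0,[]⟩,⟨3,[(14,0),(0,0),(18,1)]⟩⟩,⟨false,0,⟨0,[(0,0),(15,
  0),(2,0)]⟩,⟨0,[(2,0),(2,0),(10,0),(0,0)]⟩⟩,⟨true,0,⟨0,[(31,0)]⟩,⟨0,[(32,0)]⟩⟩,⟨false,0,⟨1,[(0,1),
  (4,0),(6,0),(3,1),(1,0),(0,0),(10,0)]⟩,⟨0,[(2,0),(3,0),(9,0),(0,0)]⟩⟩,[.o ⟨false,0,⟨0,[(18,0)]⟩,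
  ⟨3,[(6,3),(7,0),(0,0),(18,1)]⟩⟩,.o ⟨false,1,⟨1,[(21,1),(5,0),(6,0)]⟩,⟨0,[(6,0)]⟩⟩,.o ⟨false,1,⟨1,
  [(17,1),(9,0),(5,0)]⟩,⟨2,[(4,0),(3,0),(7,2),(2,1),(2,0)]⟩⟩,.a ⟨true,0,⟨0,[(17,0)]⟩,⟨0,[(16,0)]⟩⟩
  ⟨false,1,⟨1,[(14,0),(18,0)]⟩,⟨0,[(0,0),(9,0),(19,0)]⟩⟩ ⟨true,0,⟨0,[(16,0),(1,0)]⟩,⟨0,[(6,0),(10,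
  0)]⟩⟩]⟩) (.Q [0,-1,1,1,0,0,1,1,1,1,-1,-1] (.p false [0,0,1] [1,0,0,-1] (⟨0,[(26,0)]⟩,⟨0,[(25,
  0)]⟩) .k 2 (⟨0,[(16,0)]⟩,⟨0,[(17,0)]⟩) .k (.r (-1) ⟨1,[(10,1),(4,0),(18,0)]⟩ ⟨0,[(0,0),(23,1)]⟩))
  (.R ⟨1,false,false,false,[1,0,0,-1],[0,0,1],[1,0,0,0,0,0,0,0,-1],(⟨0,[(17,0)]⟩,⟨0,[(18,0)]⟩),(⟨0,
  [(27,0)]⟩,⟨0,[(26,0)]⟩),⟨0,[(2,0)]⟩,.k,.k,(.x (-1) ⟨3,[(15,0),(0,0),(11,1),(0,3)]⟩ ⟨0,[(30,0)]⟩),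
  .k,(.r (-1) ⟨3,[(3,1),(6,1),(4,0),(1,1),(4,1),(2,1),(8,0)]⟩ ⟨0,[(0,0),(4,0),(7,0),(4,0)]⟩),.k,
  ⟨true,0,⟨0,[(1,0),(23,1)]⟩,⟨0,[(0,0),(4,0),(7,0),(4,0),(14,0)]⟩⟩,⟨false,0,⟨1,[(9,0),(0,0),(6,1)]⟩,
  ⟨1,[(3,0),(0,0),(0,0),(7,1),(4,0)]⟩⟩,⟨true,0,⟨0,[]⟩,⟨0,[(37,0)]⟩⟩,⟨false,0,⟨0,[(0,0),(32,0)]⟩,⟨0,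
  [(3,0),(9,0),(11,0)]⟩⟩,⟨false,1,⟨0,[(32,0),(2,0)]⟩,⟨0,[(33,0)]⟩⟩,⟨false,0,⟨0,[(0,0)]⟩,⟨0,[(3,0),
  (18,0)]⟩⟩,[.o ⟨false,0,⟨0,[(7,0)]⟩,⟨1,[(22,1),(5,0),(6,0)]⟩⟩,.o ⟨false,1,⟨3,[(7,3),(7,0),(0,0),
  (18,1)]⟩,⟨0,[(19,0)]⟩⟩,.o ⟨false,1,⟨1,[(18,1),(9,0),(5,0)]⟩,⟨2,[(5,0),(3,0),(7,2),(2,1),(2,0)]⟩⟩,
  .a ⟨true,0,⟨0,[(18,0)]⟩,⟨0,[(17,0)]⟩⟩ ⟨false,1,⟨3,[(1,1),(13,0),(9,1),(5,1),(2,2)]⟩,⟨0,[(0,0),(4,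
  0),(12,0),(3,0)]⟩⟩ ⟨true,0,⟨0,[(7,0),(9,0)]⟩,⟨0,[(18,0),(0,0)]⟩⟩]⟩) (.I [0,-1,-1,-1,0,0,0,0,-1]
  (.R ⟨1,false,false,true,[1,0,0,-1],[1,0,-1],[0,1,0,-1,0,0,0,0,-1],(⟨0,[(18,0)]⟩,⟨0,[(19,0)]⟩),(⟨0,
  [(27,0)]⟩,⟨0,[(28,0)]⟩),⟨0,[(3,0)]⟩,.k,.k,(.x (-1) ⟨3,[(16,0),(0,0),(11,1),(0,3)]⟩ ⟨0,[(31,0)]⟩),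
  .k,(.r 0 ⟨0,[(0,0),(11,0)]⟩ ⟨5,[(17,2),(5,3),(0,3),(1,1),(5,1),(0,5),(2,2)]⟩),.k,⟨false,0,⟨0,[(0,
  0),(11,0)]⟩,⟨1,[(17,0),(8,1),(6,1),(2,0)]⟩⟩,⟨true,0,⟨0,[(18,0),(2,0)]⟩,⟨1,[(10,0),(0,0),(7,1)]⟩⟩,
  ⟨false,0,⟨0,[(34,0)]⟩,⟨0,[(33,0),(2,0)]⟩⟩,⟨false,1,⟨5,[(17,2),(0,5),(2,3),(1,3),(0,1),(1,1),(2,0),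
  (6,1)]⟩,⟨0,[(0,0),(6,0),(11,0)]⟩⟩,⟨true,0,⟨0,[(38,0)]⟩,⟨0,[]⟩⟩,⟨false,1,⟨1,[(17,0),(0,1),(2,1),(4,
  1),(6,1),(2,0)]⟩,⟨0,[(0,0),(7,0),(10,0)]⟩⟩,[.o ⟨false,0,⟨0,[(20,0)]⟩,⟨3,[(8,3),(7,0),(0,0),(18,
  1)]⟩⟩,.o ⟨false,1,⟨1,[(23,1),(5,0),(6,0)]⟩,⟨0,[(8,0)]⟩⟩,.o ⟨false,1,⟨1,[(19,1),(9,0),(5,0)]⟩,⟨2,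
  [(6,0),(3,0),(7,2),(2,1),(2,0)]⟩⟩,.a ⟨true,0,⟨0,[(19,0)]⟩,⟨0,[(18,0)]⟩⟩ ⟨false,0,⟨2,[(0,1),(0,0),
  (16,0),(3,0)]⟩,⟨3,[(17,1),(6,0),(0,0),(6,1),(0,3),(2,1)]⟩⟩ ⟨true,0,⟨0,[(18,0),(1,0)]⟩,⟨0,[(8,0),
  (10,0)]⟩⟩]⟩) (.K ⟨0,[0,0,0,1],0,0,(⟨0,[(19,0)]⟩,⟨0,[(18,0)]⟩),.k,(.r (-1) ⟨1,[(17,0),(16,1),(0,
  0)]⟩ ⟨2,[(2,2),(20,0),(0,0),(1,1),(5,1),(0,2)]⟩),(.x 0 ⟨0,[(31,0)]⟩ ⟨3,[(16,0),(0,0),(11,1),(0,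
  3)]⟩),.k,.k,[⟨0,[(19,0)]⟩,⟨0,[(18,0)]⟩,⟨0,[(1,0),(5,0),(10,0),(0,0)]⟩,⟨0,[(0,0),(5,0),(11,
  0)]⟩]⟩))))) (.K ⟨0,[0,0,0,1],0,(-1),(⟨0,[(15,0)]⟩,⟨0,[(14,0)]⟩),.k,(.x 0 ⟨0,[(17,0),(2,0),(5,0)]⟩
  ⟨0,[(27,0),(3,0)]⟩),(.x 0 ⟨0,[(27,0)]⟩ ⟨3,[(12,0),(0,0),(11,1),(0,3)]⟩),.k,.k,[⟨0,[(15,0)]⟩,⟨0,
  [(14,0)]⟩,⟨1,[(12,0),(2,1),(15,0),(2,1)]⟩,⟨0,[(0,0),(1,0)]⟩]⟩)))))))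

theorem ok34 : chk (cU (-1) true 10) t34 r16 = true := by decide +kernel

noncomputable def t41 : Tre :=
  (.R ⟨1,false,false,true,[1,-1],[1,0,-1],[0,1,1],(⟨0,[(26,0)]⟩,⟨0,[(27,0)]⟩),(⟨0,[(23,0)]⟩,⟨0,[(24,
  0)]⟩),⟨0,[(5,0),(18,0)]⟩,.k,.k,(.r (-1) ⟨0,[(2,0),(31,0)]⟩ ⟨1,[(20,0),(0,0),(6,1),(0,3)]⟩),.k,(.r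
  (-1) ⟨4,[(0,2),(0,0),(0,3),(3,0),(0,0),(2,3)]⟩ ⟨2,[(19,1),(0,1),(1,0),(5,3),(0,5)]⟩),.k,⟨true,0,
  ⟨4,[(0,0),(5,1),(13,0),(0,1)]⟩,⟨0,[(22,0)]⟩⟩,⟨false,1,⟨1,[(1,0),(0,0),(4,0),(2,2),(17,0)]⟩,⟨0,
  [(20,0)]⟩⟩,⟨false,0,⟨3,[(20,2),(0,2),(6,1),(0,3)]⟩,⟨1,[(1,0),(0,0),(4,0),(2,0),(17,0)]⟩⟩,⟨false,0,
  ⟨0,[(8,0),(1,0)]⟩,⟨9,[(0,5),(5,1),(0,1),(4,1),(0,1),(11,0),(6,4)]⟩⟩,⟨false,0,⟨1,[(20,0),(0,0),(6,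
  1),(0,3)]⟩,⟨0,[(2,0)]⟩⟩,⟨true,0,⟨0,[(8,0),(1,0),(18,0)]⟩,⟨0,[(0,0)]⟩⟩,[.o ⟨false,0,⟨0,[(16,0)]⟩,
  ⟨19,[(0,3),(5,7),(0,7),(4,2),(0,2),(11,3),(6,9)]⟩⟩,.a ⟨true,0,⟨0,[(8,0),(1,0),(19,0)]⟩,⟨9,[(0,1),
  (3,2),(1,3),(0,0),(15,5),(2,2)]⟩⟩ ⟨true,0,⟨1,[(20,0),(0,0)]⟩,⟨0,[]⟩⟩ ⟨false,1,⟨2,[(2,0),(5,1),(1,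
  1),(8,0),(11,1)]⟩,⟨6,[(0,0),(5,1),(11,1),(1,3),(7,0)]⟩⟩,.o ⟨false,0,⟨0,[(7,0),(9,1)]⟩,⟨3,[(12,0),
  (0,0),(17,1)]⟩⟩,.o ⟨false,0,⟨0,[(17,0),(2,0)]⟩,⟨0,[(31,0)]⟩⟩]⟩)

theorem ok41 : chk (cU (-1) true 10) t41 l27 = true := by decide +kernel

noncomputable def t46 : Tre :=
  (.Q [0,1,0,-2,0,0,0,0,0,-1] (.pp true [-1,1]) (.R ⟨2,false,false,true,[0,1],[1,-1],[0,1],(⟨0,[]⟩,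
  ⟨0,[]⟩),(⟨0,[(32,0)]⟩,⟨0,[(33,0)]⟩),⟨0,[]⟩,.k,.k,.k,(.r 0 ⟨4,[(6,3),(5,1),(13,5),(0,1)]⟩ ⟨0,[(8,
  0),(31,0)]⟩),.k,.k,⟨true,0,⟨4,[(6,1),(5,0),(13,2),(0,0)]⟩,⟨0,[(36,0)]⟩⟩,⟨false,0,⟨6,[(0,1),(3,3),
  (18,0),(0,3),(1,0),(7,4)]⟩,⟨43,[(1,7),(6,15),(1,11),(5,23),(1,2),(0,2),(9,23),(2,11),(4,21)]⟩⟩,
  ⟨false,1,⟨3,[(8,1),(9,0),(0,0),(20,1)]⟩,⟨18,[(4,0),(1,6),(5,3),(0,0),(12,5),(7,9)]⟩⟩,⟨true,0,⟨0,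
  [(0,0)]⟩,⟨0,[(1,0),(33,0)]⟩⟩,⟨false,1,⟨3,[(18,0),(0,0),(17,1)]⟩,⟨3,[(26,0),(0,0),(6,1)]⟩⟩,⟨false,
  1,⟨3,[(0,1),(17,0),(0,0),(11,0),(6,0)]⟩,⟨0,[(1,0)]⟩⟩,[.e ⟨true,0,⟨0,[(40,0)]⟩,⟨3,[(26,0),(0,0),(6,
  1)]⟩⟩ ⟨true,0,⟨1,[(0,0),(22,0),(2,0),(13,0)]⟩,⟨0,[(1,0)]⟩⟩,.a ⟨true,0,⟨0,[(36,0)]⟩,⟨9,[(1,4),(8,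
  0),(5,4),(0,1),(9,0),(1,1),(2,0)]⟩⟩ ⟨false,1,⟨3,[(18,0),(0,0),(17,1)]⟩,⟨0,[]⟩⟩ ⟨true,0,⟨6,[(0,3),
  (3,0),(18,1),(0,0),(1,1),(7,2)]⟩,⟨9,[(1,4),(8,0),(5,4),(0,1),(9,0),(1,1),(2,0)]⟩⟩,.o ⟨false,1,⟨3,
  [(18,0),(0,0),(17,1)]⟩,⟨6,[(0,1),(3,3),(18,0),(0,3),(1,0),(7,4)]⟩⟩,.e ⟨false,1,⟨3,[(18,0),(0,0),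
  (17,1)]⟩,⟨3,[(26,0),(0,0),(6,1)]⟩⟩ ⟨false,1,⟨3,[(0,1),(17,0),(0,0),(11,0),(6,0)]⟩,⟨0,[(1,0)]⟩⟩]⟩)
  (.I [0,0,-3,-3,1] (.Q [0,1,0,-3,0,0,0,0,0,-1] (.pp true [-1,1]) (.R ⟨1,false,false,false,[1,-1],
  [0,1],[0,1,1],(⟨0,[(34,0)]⟩,⟨0,[(35,0)]⟩),(⟨0,[(35,0)]⟩,⟨0,[(34,0)]⟩),⟨2,[(7,0),(5,0),(20,1)]⟩,.k,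
  .k,(.r (-1) ⟨5,[(1,3),(18,0),(0,0)]⟩ ⟨4,[(8,3),(5,1),(13,5),(0,1)]⟩),(.r (-1) ⟨5,[(1,3),(18,0),(0,
  0)]⟩ ⟨4,[(8,3),(5,1),(13,5),(0,1)]⟩),(.r (-1) ⟨0,[(1,0)]⟩ ⟨4,[(8,5),(5,2),(13,8),(0,2)]⟩),.k,
  ⟨true,0,⟨2,[(0,0),(21,0),(0,0),(18,1)]⟩,⟨5,[(2,0),(3,0),(1,0),(5,0),(13,1),(7,2)]⟩⟩,⟨false,1,⟨2,
  [(1,1),(0,1),(12,0),(2,1),(20,0)]⟩,⟨0,[(25,0),(2,0)]⟩⟩,⟨false,0,⟨9,[(8,3),(5,1),(13,10),(0,6)]⟩,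
  ⟨19,[(2,2),(2,5),(4,12),(4,2),(20,0),(3,0)]⟩⟩,⟨false,0,⟨0,[(2,0)]⟩,⟨11,[(0,7),(19,2),(0,2),(11,1),
  (6,3)]⟩⟩,⟨false,0,⟨4,[(8,3),(5,1),(13,5),(0,1)]⟩,⟨0,[(10,0)]⟩⟩,⟨true,0,⟨0,[(2,0),(34,0)]⟩,⟨0,[(0,
  0)]⟩⟩,[.e ⟨false,0,⟨0,[(42,0)]⟩,⟨1,[(39,0),(0,0)]⟩⟩ ⟨false,1,⟨5,[(1,1),(0,3),(12,1),(2,3),(1,0),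
  (0,0),(17,1)]⟩,⟨8,[(0,3),(5,2),(18,1),(0,2),(1,1),(7,4)]⟩⟩,.a ⟨true,0,⟨0,[(3,0)]⟩,⟨2,[(0,0),(21,
  0),(0,0),(18,1)]⟩⟩ ⟨true,0,⟨1,[(28,0),(0,0)]⟩,⟨0,[]⟩⟩ ⟨false,1,⟨11,[(1,3),(0,11),(17,0),(0,0),(17,
  5)]⟩,⟨1,[(0,0),(24,0),(2,0),(8,0)]⟩⟩,.o ⟨false,0,⟨8,[(0,1),(5,5),(18,0),(0,5),(1,0),(7,6)]⟩,⟨3,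
  [(20,0),(0,0),(17,1)]⟩⟩,.o ⟨false,0,⟨0,[(25,0),(2,0)]⟩,⟨0,[(39,0)]⟩⟩]⟩) (.Q [0,1,-1,0,0,0,0,0,-1,
  0,0,1] (.p true [0,0,0,1] [] (⟨0,[(23,0)]⟩,⟨0,[(22,0)]⟩) .k 0 (⟨0,[]⟩,⟨0,[]⟩) .k .k) (.Q [0,1,1,0,
  0,0,0,0,1,0,0,-1] (.p false [0,0,0,1] [] (⟨0,[(24,0)]⟩,⟨0,[(23,0)]⟩) .k 0 (⟨0,[]⟩,⟨0,[]⟩) .k .k)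
  (.K ⟨0,[0,0,0,1],0,0,(⟨0,[(25,0)]⟩,⟨0,[(24,0)]⟩),.k,(.r (-1) ⟨11,[(3,3),(18,0),(0,6)]⟩ ⟨5,[(1,5),
  (6,4),(7,0),(7,5),(2,0),(0,2),(1,2),(7,6)]⟩),(.x 0 ⟨0,[(37,0)]⟩ ⟨15,[(9,3),(5,3),(6,6),(0,6),(11,
  1)]⟩),.k,.k,[⟨0,[(25,0)]⟩,⟨0,[(24,0)]⟩,⟨0,[(1,0)]⟩,⟨0,[(0,0)]⟩]⟩) (.Q [0,0,0,0,0,0,-1,-1,0,0,1,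
  -1] (.p true [0,0,1] [0,0,0,1] (⟨0,[(34,0)]⟩,⟨0,[(33,0)]⟩) .k 2 (⟨0,[(25,0)]⟩,⟨0,[(24,0)]⟩) .k
  (.r 0 ⟨0,[(0,0),(23,0),(2,0),(0,0)]⟩ ⟨3,[(22,0),(0,2),(8,3)]⟩)) (.I [1,1,-1,0,0,0,0,1,-1] (.R ⟨1,
  false,false,false,[1,0,0,-1],[1,0,-1],[1,1,0,0,0,0,0,0,-1],(⟨0,[(26,0)]⟩,⟨0,[(27,0)]⟩),(⟨0,[(35,
  0)]⟩,⟨0,[(36,0)]⟩),⟨3,[(1,1),(9,0),(5,0),(0,0),(0,0),(6,1),(15,0)]⟩,.k,.k,(.x (-1) ⟨15,[(11,3),(5,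
  3),(6,6),(0,6),(11,1)]⟩ ⟨0,[(39,0)]⟩),.k,(.x 0 ⟨4,[(11,2),(4,0),(2,1),(9,1),(2,0)]⟩ ⟨4,[(9,0),(5,
  1),(8,1),(0,1),(9,0),(3,6)]⟩),.k,⟨false,0,⟨0,[(0,0)]⟩,⟨1,[(25,0),(8,1),(9,0)]⟩⟩,⟨true,0,⟨0,[(26,
  0),(2,0)]⟩,⟨0,[(19,0),(7,0),(1,0)]⟩⟩,⟨false,0,⟨0,[]⟩,⟨3,[(24,0),(0,0),(18,1)]⟩⟩,⟨false,1,⟨1,[(1,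
  1),(23,0),(6,0),(0,0),(10,0)]⟩,⟨0,[(2,0),(27,0)]⟩⟩,⟨true,0,⟨0,[(41,0)]⟩,⟨0,[(42,0)]⟩⟩,⟨false,1,
  ⟨11,[(1,11),(2,3),(19,0),(0,6),(3,3),(2,5),(0,1),(10,3)]⟩,⟨0,[(2,0),(27,0),(11,0)]⟩⟩,[.e ⟨false,0,
  ⟨13,[(0,9),(0,3),(0,0),(0,2),(4,1),(1,1),(12,1),(8,1)]⟩,⟨1,[(25,0),(18,0)]⟩⟩ ⟨false,0,⟨0,[(1,0)]⟩,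
  ⟨19,[(14,3),(3,7),(0,7),(4,2),(0,2),(1,19),(2,3),(6,3),(5,5)]⟩⟩,.o ⟨false,1,⟨0,[(28,0),(15,0)]⟩,
  ⟨0,[(30,0)]⟩⟩,.o ⟨false,1,⟨1,[(27,1),(9,0),(5,0)]⟩,⟨2,[(1,1),(24,0),(2,0),(0,1),(1,0),(7,0)]⟩⟩,.a
  ⟨true,0,⟨0,[(27,0)]⟩,⟨0,[(26,0)]⟩⟩ ⟨false,0,⟨0,[(0,0),(19,0)]⟩,⟨1,[(25,0),(6,0),(0,0),(10,0)]⟩⟩
  ⟨true,0,⟨0,[(1,0)]⟩,⟨0,[(27,0),(2,0)]⟩⟩]⟩) (.Q [0,1,1,-1,0,0,0,0,1,0,0,-1] (.p false [0,0,0,1] []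
  (⟨0,[(27,0)]⟩,⟨0,[(26,0)]⟩) .k 0 (⟨0,[]⟩,⟨0,[]⟩) .k .k) (.R ⟨2,false,false,true,[0,1],[0,0,0,1],
  [1],(⟨0,[]⟩,⟨0,[]⟩),(⟨0,[(28,0)]⟩,⟨0,[(27,0)]⟩),⟨0,[]⟩,.k,.k,.k,(.r 0 ⟨4,[(2,3),(0,1),(0,2),(0,0),
  (13,1),(7,0),(2,1),(2,5)]⟩ ⟨11,[(6,3),(18,0),(0,6)]⟩),.k,.k,⟨true,0,⟨2,[(2,1),(0,2),(23,0),(2,0),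
  (0,1),(1,0),(7,0)]⟩,⟨1,[(0,0),(0,0),(21,0),(4,0),(2,0)]⟩⟩,⟨false,0,⟨2,[(2,1),(24,0),(2,0),(0,1),
  (1,0),(7,0)]⟩,⟨0,[(28,0),(15,0)]⟩⟩,⟨false,1,⟨7,[(15,3),(9,0),(0,0),(18,1)]⟩,⟨4,[(13,1),(5,0),(13,
  2),(0,0)]⟩⟩,⟨true,0,⟨0,[(0,0)]⟩,⟨7,[(3,4),(0,2),(0,1),(5,1),(19,1)]⟩⟩,⟨false,1,⟨1,[(44,0),(0,0)]⟩,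
  ⟨1,[(33,0),(0,0)]⟩⟩,⟨false,1,⟨11,[(0,11),(4,3),(19,2),(0,2),(11,1),(6,3)]⟩,⟨0,[(3,0)]⟩⟩,[.e ⟨true,
  0,⟨0,[]⟩,⟨1,[(33,0),(0,0)]⟩⟩ ⟨true,0,⟨4,[(0,4),(12,1),(5,0),(13,2),(0,0)]⟩,⟨0,[(3,0)]⟩⟩,.a ⟨true,
  0,⟨0,[(0,0),(7,0)]⟩,⟨1,[(3,0),(0,0)]⟩⟩ ⟨false,1,⟨1,[(44,0),(0,0)]⟩,⟨0,[(47,0)]⟩⟩ ⟨true,0,⟨2,[(0,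
  2),(4,0),(24,0),(2,0),(7,0)]⟩,⟨1,[(3,0),(0,0)]⟩⟩,.o ⟨false,1,⟨3,[(25,0),(0,0),(17,1)]⟩,⟨0,[(20,0),
  (9,1)]⟩⟩,.e ⟨false,1,⟨1,[(44,0),(0,0)]⟩,⟨1,[(33,0),(0,0)]⟩⟩ ⟨false,1,⟨11,[(0,11),(4,3),(19,2),(0,
  2),(11,1),(6,3)]⟩,⟨0,[(3,0)]⟩⟩]⟩) (.I [0,1,-1,-2,0,0,0,1,-1] (.Q [0,0,0,-1,0,0,1,1,0,0,-1,1] (.p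
  false [0,0,1] [0,0,0,1] (⟨0,[(38,0)]⟩,⟨0,[(37,0)]⟩) .k 2 (⟨0,[(29,0)]⟩,⟨0,[(28,0)]⟩) .k (.r 0 ⟨1,
  [(0,0),(0,0),(1,0),(16,0),(13,0)]⟩ ⟨47,[(2,3),(7,15),(3,7),(11,12),(0,34),(5,3),(0,11)]⟩)) (.R ⟨1,
  false,false,false,[1,0,0,-1],[1,1,-1],[0,1,0,-1,0,0,0,0,-1],(⟨0,[(29,0)]⟩,⟨0,[(30,0)]⟩),(⟨0,[(38,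
  0),(3,0)]⟩,⟨1,[(14,0),(24,0)]⟩),⟨3,[(4,1),(9,0),(5,0),(0,0),(0,0),(6,1),(15,0)]⟩,.k,.k,(.x (-1)
  ⟨15,[(14,3),(5,3),(6,6),(0,6),(11,1)]⟩ ⟨0,[(42,0)]⟩),(.r (-1) ⟨1,[(8,0),(12,0),(5,0)]⟩ ⟨0,[(3,0),
  (40,0)]⟩),(.r (-1) ⟨33,[(1,19),(5,0),(4,1),(4,18),(3,6),(0,0),(4,6),(18,5)]⟩ ⟨4,[(3,4),(11,1),(5,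
  0),(13,2),(0,0),(7,4)]⟩),.k,⟨true,0,⟨0,[(1,0)]⟩,⟨5,[(3,5),(3,0),(5,0),(1,2),(5,1),(13,3)]⟩⟩,
  ⟨false,1,⟨4,[(4,1),(7,1),(3,0),(4,0),(5,0),(0,0),(0,2)]⟩,⟨6,[(0,2),(1,0),(0,0),(9,1),(8,1),(7,2),
  (4,1)]⟩⟩,⟨false,0,⟨0,[(45,0)]⟩,⟨11,[(7,3),(19,2),(0,2),(11,1),(6,3)]⟩⟩,⟨false,1,⟨13,[(3,3),(0,13),
  (2,3),(13,1),(5,2),(0,7),(3,3),(2,3),(11,2)]⟩,⟨2,[(0,0),(0,0),(3,1),(16,0),(9,0),(0,0)]⟩⟩,⟨true,0,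
  ⟨0,[(49,0)]⟩,⟨0,[]⟩⟩,⟨false,1,⟨23,[(4,23),(2,15),(19,2),(0,14),(3,11),(2,11),(4,1),(6,3)]⟩,⟨7,[(0,
  4),(0,4),(3,2),(5,0),(10,2),(9,2),(10,0)]⟩⟩,[.a ⟨true,0,⟨4,[(3,0),(0,0),(0,0),(9,1),(9,0),(8,0)]⟩,
  ⟨0,[(0,0),(28,0)]⟩⟩ ⟨false,0,⟨33,[(1,20),(0,2),(1,12),(1,9),(4,0),(1,5),(8,5),(12,6)]⟩,⟨5,[(7,1),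
  (20,2),(11,0),(6,1)]⟩⟩ ⟨true,0,⟨4,[(4,4),(10,1),(5,0),(13,2),(0,0)]⟩,⟨0,[(0,0)]⟩⟩,.o ⟨false,1,⟨0,
  [(13,0),(33,0)]⟩,⟨0,[(33,0),(11,0)]⟩⟩,.o ⟨false,1,⟨35,[(2,11),(3,11),(1,3),(18,0),(0,12),(1,11),
  (9,17)]⟩,⟨2,[(4,1),(24,0),(2,0),(0,1),(1,0),(7,0)]⟩⟩,.e ⟨false,0,⟨3,[(1,2),(0,0),(1,0),(8,0),(8,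
  0),(0,0),(19,0)]⟩,⟨13,[(3,3),(3,3),(13,1),(5,2),(0,7),(3,3),(2,3),(11,2)]⟩⟩ ⟨false,1,⟨11,[(4,11),
  (2,3),(19,2),(0,2),(11,1),(6,3)]⟩,⟨0,[(0,0)]⟩⟩]⟩) (.R ⟨1,false,false,false,[1,0,0,-1],[1,1,-1],[0,
  1,0,-1,0,0,0,0,-1],(⟨0,[(29,0)]⟩,⟨0,[(30,0)]⟩),(⟨0,[(38,0),(3,0)]⟩,⟨1,[(14,0),(24,0)]⟩),⟨3,[(4,1),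
  (9,0),(5,0),(0,0),(0,0),(6,1),(15,0)]⟩,.k,.k,(.x (-1) ⟨15,[(14,3),(5,3),(6,6),(0,6),(11,1)]⟩ ⟨0,
  [(42,0)]⟩),(.r (-1) ⟨1,[(8,0),(12,0),(5,0)]⟩ ⟨0,[(3,0),(40,0)]⟩),(.r (-1) ⟨33,[(1,19),(5,0),(4,1),
  (4,18),(3,6),(0,0),(4,6),(18,5)]⟩ ⟨4,[(3,4),(11,1),(5,0),(13,2),(0,0),(7,4)]⟩),.k,⟨true,0,⟨0,[(1,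
  0)]⟩,⟨5,[(3,5),(3,0),(5,0),(1,2),(5,1),(13,3)]⟩⟩,⟨false,1,⟨4,[(4,1),(7,1),(3,0),(4,0),(5,0),(0,0),
  (0,2)]⟩,⟨4,[(3,1),(1,1),(16,0),(7,2),(0,0),(1,2),(1,0)]⟩⟩,⟨false,0,⟨0,[(45,0)]⟩,⟨11,[(7,3),(19,2),
  (0,2),(11,1),(6,3)]⟩⟩,⟨false,1,⟨9,[(0,7),(2,5),(17,1),(5,2),(0,4),(0,1),(2,1),(14,1)]⟩,⟨0,[(5,0),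
  (27,0),(11,0)]⟩⟩,⟨true,0,⟨0,[(49,0)]⟩,⟨0,[]⟩⟩,⟨false,1,⟨13,[(0,13),(2,3),(3,3),(13,1),(5,2),(0,7),
  (3,3),(2,3),(11,2)]⟩,⟨0,[(5,0),(27,0),(11,1)]⟩⟩,[.e ⟨false,0,⟨39,[(0,12),(0,26),(0,1),(3,10),(4,
  4),(1,3),(8,3),(12,8)]⟩,⟨5,[(7,1),(20,2),(11,0),(6,1)]⟩⟩ ⟨false,0,⟨0,[(0,0)]⟩,⟨7,[(17,3),(9,0),(0,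
  0),(1,7),(2,7),(13,1)]⟩⟩,.o ⟨false,1,⟨0,[(13,0),(33,0)]⟩,⟨0,[(33,0),(11,0)]⟩⟩,.o ⟨false,1,⟨35,[(2,
  11),(3,11),(1,3),(18,0),(0,12),(1,11),(9,17)]⟩,⟨2,[(4,1),(24,0),(2,0),(0,1),(1,0),(7,0)]⟩⟩,.a
  ⟨true,0,⟨0,[(30,0)]⟩,⟨0,[(29,0)]⟩⟩ ⟨false,0,⟨4,[(0,0),(0,3),(0,0),(10,0),(8,0),(0,1),(19,0)]⟩,⟨13,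
  [(3,3),(3,3),(13,1),(5,2),(0,7),(3,3),(2,3),(11,2)]⟩⟩ ⟨true,0,⟨0,[(0,0)]⟩,⟨0,[(30,0),(2,0),(11,
  0)]⟩⟩]⟩)) (.K ⟨1,[1,-1,0,-1],0,0,(⟨3,[(3,1),(9,0),(5,0),(0,0),(0,0),(6,1),(15,0)]⟩,⟨0,[(29,0),(11,
  0)]⟩),(.x (-1) ⟨15,[(13,3),(5,3),(6,6),(0,6),(11,1)]⟩ ⟨0,[(41,0)]⟩),(.r (-1) ⟨4,[(3,0),(0,0),(2,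
  2),(18,1),(5,0),(11,0)]⟩ ⟨2,[(0,0),(1,1),(17,1),(12,0),(0,0),(8,1)]⟩),.k,.k,.k,[⟨1,[(28,1),(5,0),
  (0,0)]⟩,⟨3,[(2,1),(1,1),(24,1),(0,0),(0,2),(0,2),(1,0)]⟩,⟨0,[(2,0),(21,0),(3,0),(3,0)]⟩,⟨0,[(4,0),
  (39,0)]⟩]⟩)))) (.Q [0,0,0,0,0,-1,0,0,0,1,0,-1] (.ed true [0,1,0,1] .k) (.I [1,0,-1,0,0,0,0,0,-1]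
  (.I [1,1,-1,0,0,0,0,1,-1] (.R ⟨1,false,false,false,[1,0,0,-1],[1,0,-1],[1,1,0,0,0,0,0,0,-1],(⟨0,
  [(28,0)]⟩,⟨0,[(29,0)]⟩),(⟨0,[(37,0)]⟩,⟨0,[(38,0)]⟩),⟨0,[(2,0)]⟩,.k,.k,(.x (-1) ⟨15,[(13,3),(5,3),
  (6,6),(0,6),(11,1)]⟩ ⟨0,[(41,0)]⟩),.k,(.x 0 ⟨4,[(13,2),(4,0),(2,1),(9,1),(2,0)]⟩ ⟨4,[(11,0),(5,1),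
  (8,1),(0,1),(9,0),(3,6)]⟩),.k,⟨false,0,⟨0,[(0,0)]⟩,⟨1,[(27,0),(8,1),(9,0)]⟩⟩,⟨true,0,⟨0,[(28,0),
  (2,0)]⟩,⟨5,[(3,4),(6,1),(3,0),(14,0),(4,1)]⟩⟩,⟨false,0,⟨0,[]⟩,⟨3,[(26,0),(0,0),(18,1)]⟩⟩,⟨false,1,
  ⟨1,[(27,0),(0,1),(2,1),(4,1),(9,0)]⟩,⟨0,[(1,0),(1,0)]⟩⟩,⟨true,0,⟨0,[(43,0)]⟩,⟨0,[(44,0)]⟩⟩,⟨false,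
  1,⟨5,[(14,2),(12,2),(0,5),(2,3),(2,0),(1,2),(2,0),(2,0),(3,1)]⟩,⟨0,[(1,0),(1,0),(40,0)]⟩⟩,[.a
  ⟨true,0,⟨4,[(10,1),(3,0),(2,1),(20,3),(2,1)]⟩,⟨0,[(3,0),(24,0)]⟩⟩ ⟨false,0,⟨3,[(0,1),(0,1),(23,0),
  (4,0),(2,0)]⟩,⟨1,[(27,0),(18,0)]⟩⟩ ⟨true,0,⟨0,[(28,0),(2,0),(4,0)]⟩,⟨0,[(3,0)]⟩⟩,.o ⟨false,1,⟨0,
  [(30,0),(15,0)]⟩,⟨0,[(32,0)]⟩⟩,.o ⟨false,1,⟨1,[(29,1),(9,0),(5,0)]⟩,⟨0,[(21,0),(6,0),(2,1)]⟩⟩,.e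
  ⟨false,0,⟨0,[(1,0)]⟩,⟨1,[(27,0),(6,0),(0,0),(10,0)]⟩⟩ ⟨false,1,⟨0,[(28,0),(1,0),(15,0)]⟩,⟨0,[(3,
  0)]⟩⟩]⟩) (.K ⟨1,[1,-1,0,-1],0,0,(⟨0,[(2,0)]⟩,⟨0,[(29,0),(11,0)]⟩),(.x (-1) ⟨15,[(13,3),(5,3),(6,
  6),(0,6),(11,1)]⟩ ⟨0,[(41,0)]⟩),(.r (-1) ⟨4,[(1,0),(5,2),(18,1),(17,0)]⟩ ⟨9,[(0,9),(13,1),(5,5),
  (13,2),(0,0),(7,9)]⟩),.k,.k,.k,[⟨1,[(28,1),(5,0),(0,0)]⟩,⟨10,[(0,0),(2,6),(0,0),(5,1),(1,1),(16,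
  2),(1,8),(2,3)]⟩,⟨0,[(0,0),(23,0),(3,0),(3,0)]⟩,⟨0,[(4,0),(39,0)]⟩]⟩)) (.Q [0,0,1,2,0,0,0,0,1,1,0,
  -1] (.p false [0,0,0,1] [1] (⟨0,[(28,0)]⟩,⟨0,[(27,0)]⟩) .k 1 (⟨0,[]⟩,⟨0,[]⟩) .k .k) (.Q [0,0,0,1,
  0,0,0,0,0,1,0,-1] (.p false [0,0,0,1] [1] (⟨0,[(29,0)]⟩,⟨0,[(28,0)]⟩) .k 1 (⟨0,[]⟩,⟨0,[]⟩) .k .k)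
  (.R ⟨1,false,false,true,[1,0,0,-1],[0,1],[1,0,0,0,0,0,0,0,-1],(⟨0,[(29,0)]⟩,⟨0,[(30,0)]⟩),(⟨0,
  [(42,0)]⟩,⟨0,[(41,0)]⟩),⟨0,[(3,0)]⟩,.k,.k,(.x (-1) ⟨15,[(14,3),(5,3),(6,6),(0,6),(11,1)]⟩ ⟨0,[(42,
  0)]⟩),(.x (-1) ⟨15,[(14,3),(5,3),(6,6),(0,6),(11,1)]⟩ ⟨0,[(42,0)]⟩),(.r (-1) ⟨7,[(5,1),(2,4),(2,
  0),(15,2),(1,1),(2,1),(0,1)]⟩ ⟨5,[(2,5),(4,0),(5,0),(1,2),(5,1),(13,3)]⟩),.k,⟨false,1,⟨37,[(5,27),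
  (2,5),(3,3),(4,9),(4,1),(4,4),(1,27),(10,12)]⟩,⟨0,[(2,0),(41,0)]⟩⟩,⟨true,0,⟨0,[(29,0)]⟩,⟨5,[(4,3),
  (6,0),(1,0),(9,0),(6,1),(1,4),(2,1)]⟩⟩,⟨true,0,⟨0,[]⟩,⟨0,[(49,0)]⟩⟩,⟨false,0,⟨1,[(1,0),(0,0),(26,
  0)]⟩,⟨3,[(5,1),(2,0),(18,0),(2,1),(9,1),(2,0),(1,0)]⟩⟩,⟨false,1,⟨11,[(7,3),(19,2),(0,2),(11,1),(6,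
  3)]⟩,⟨0,[(45,0)]⟩⟩,⟨false,0,⟨0,[(1,0)]⟩,⟨3,[(5,1),(2,0),(18,0),(2,1),(9,1),(2,0),(1,4)]⟩⟩,[.o
  ⟨false,0,⟨0,[(44,0)]⟩,⟨3,[(17,1),(14,1),(2,1),(4,0),(6,0)]⟩⟩,.a ⟨true,0,⟨2,[(1,0),(4,0),(3,0),(18,
  0),(0,0)]⟩,⟨0,[(45,0)]⟩⟩ ⟨true,0,⟨0,[(5,0),(16,0),(6,0),(2,1)]⟩,⟨0,[(2,0),(46,0)]⟩⟩ ⟨false,0,⟨0,
  [(0,0)]⟩,⟨11,[(8,3),(18,0),(0,0),(1,11),(9,5)]⟩⟩,.o ⟨false,1,⟨1,[(30,1),(9,0),(5,0)]⟩,⟨0,[(22,0),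
  (6,0),(2,1)]⟩⟩,.e ⟨false,1,⟨45,[(0,7),(4,7),(6,15),(4,3),(4,7),(4,18),(15,9),(3,6)]⟩,⟨0,[(2,0)]⟩⟩
  ⟨false,0,⟨0,[(0,0)]⟩,⟨3,[(17,1),(12,3),(1,1),(2,1),(4,0),(6,0)]⟩⟩]⟩) (.R ⟨1,false,false,true,[1,0,
  0,-1],[0,1],[1,0,0,0,0,0,0,0,-1],(⟨0,[(29,0)]⟩,⟨0,[(30,0)]⟩),(⟨0,[(42,0)]⟩,⟨0,[(41,0)]⟩),⟨0,[(3,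
  0)]⟩,.k,.k,(.x (-1) ⟨15,[(14,3),(5,3),(6,6),(0,6),(11,1)]⟩ ⟨0,[(42,0)]⟩),(.x (-1) ⟨15,[(14,3),(5,
  3),(6,6),(0,6),(11,1)]⟩ ⟨0,[(42,0)]⟩),(.r (-1) ⟨7,[(5,1),(2,4),(2,0),(15,2),(1,1),(2,1),(0,1)]⟩
  ⟨5,[(2,5),(4,0),(5,0),(1,2),(5,1),(13,3)]⟩),.k,⟨false,1,⟨37,[(5,27),(2,5),(3,3),(4,9),(4,1),(4,4),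
  (1,27),(10,12)]⟩,⟨0,[(2,0),(41,0)]⟩⟩,⟨true,0,⟨0,[(29,0)]⟩,⟨3,[(0,1),(3,0),(10,0),(14,0),(1,1),(2,
  1)]⟩⟩,⟨true,0,⟨0,[]⟩,⟨0,[(49,0)]⟩⟩,⟨false,0,⟨1,[(1,0),(0,0),(26,0)]⟩,⟨6,[(0,2),(4,2),(11,1),(9,1),
  (2,0),(9,1),(6,0)]⟩⟩,⟨false,1,⟨11,[(7,3),(19,2),(0,2),(11,1),(6,3)]⟩,⟨0,[(45,0)]⟩⟩,⟨false,0,⟨0,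
  [(1,0)]⟩,⟨15,[(0,13),(4,1),(2,1),(8,5),(9,6),(12,0),(2,3)]⟩⟩,[.o ⟨false,0,⟨0,[(44,0)]⟩,⟨3,[(17,1),
  (14,1),(2,1),(4,0),(6,0)]⟩⟩,.e ⟨true,0,⟨0,[(5,0),(16,0),(6,0),(2,1)]⟩,⟨0,[(2,0),(46,0)]⟩⟩ ⟨true,0,
  ⟨4,[(15,1),(5,0),(7,4),(5,2),(0,0)]⟩,⟨0,[(0,0)]⟩⟩,.o ⟨false,1,⟨1,[(30,1),(9,0),(5,0)]⟩,⟨0,[(22,0),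
  (6,0),(2,1)]⟩⟩,.a ⟨true,0,⟨0,[(30,0)]⟩,⟨0,[(29,0)]⟩⟩ ⟨false,1,⟨70,[(5,4),(1,7),(4,25),(4,11),(4,
  12),(4,32),(1,4),(13,22)]⟩,⟨0,[(2,0)]⟩⟩ ⟨true,0,⟨0,[(29,0),(14,0)]⟩,⟨0,[(0,0)]⟩⟩]⟩)) (.Q [0,0,1,1,
  0,0,0,0,1,1,0,-1] (.p false [0,0,0,1] [1] (⟨0,[(29,0)]⟩,⟨0,[(28,0)]⟩) .k 1 (⟨0,[]⟩,⟨0,[]⟩) .k .k)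
  (.R ⟨1,true,false,true,[1,0,0,-1],[0,1],[1,0,0,0,0,0,0,0,-1],(⟨0,[(29,0)]⟩,⟨0,[(30,0)]⟩),(⟨0,[(42,
  0)]⟩,⟨0,[(41,0)]⟩),⟨0,[(3,0)]⟩,.k,.k,(.x (-1) ⟨15,[(14,3),(5,3),(6,6),(0,6),(11,1)]⟩ ⟨0,[(42,
  0)]⟩),(.x (-1) ⟨15,[(14,3),(5,3),(6,6),(0,6),(11,1)]⟩ ⟨0,[(42,0)]⟩),(.r (-1) ⟨65,[(1,11),(3,0),(0,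
  0),(1,35),(3,3),(9,1),(4,25),(1,13)]⟩ ⟨5,[(2,5),(4,0),(5,0),(1,2),(5,1),(13,3)]⟩),.k,⟨false,1,⟨19,
  [(1,1),(3,11),(6,3),(4,7),(4,1),(4,2),(1,13),(10,4)]⟩,⟨0,[(2,0),(41,0)]⟩⟩,⟨true,0,⟨0,[(29,0)]⟩,⟨7,
  [(1,0),(0,0),(1,3),(8,1),(9,1),(6,2),(1,4),(2,2)]⟩⟩,⟨true,0,⟨0,[]⟩,⟨0,[(49,0)]⟩⟩,⟨false,0,⟨0,[(0,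
  0)]⟩,⟨19,[(1,5),(3,5),(11,3),(9,3),(2,7),(9,6),(6,4)]⟩⟩,⟨false,1,⟨11,[(7,3),(19,2),(0,2),(11,1),
  (6,3)]⟩,⟨0,[(45,0)]⟩⟩,⟨true,0,⟨0,[(0,0),(43,0)]⟩,⟨0,[(1,0)]⟩⟩,[]⟩) (.R ⟨2,true,false,false,[0,1],
  [1,0,0,-1],[0,1,1],(⟨0,[]⟩,⟨0,[]⟩),(⟨0,[(29,0)]⟩,⟨0,[(30,0)]⟩),⟨0,[]⟩,.k,.k,.k,(.x 0 ⟨0,[(42,0)]⟩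
  ⟨15,[(14,3),(5,3),(6,6),(0,6),(11,1)]⟩),.k,.k,⟨true,0,⟨0,[(2,0),(46,0)]⟩,⟨2,[(0,2),(6,0),(21,2),
  (2,0),(2,0),(7,0)]⟩⟩,⟨false,1,⟨1,[(30,1),(9,0),(5,0)]⟩,⟨0,[(29,0)]⟩⟩,⟨false,0,⟨0,[(45,0)]⟩,⟨11,
  [(7,3),(19,2),(0,2),(11,1),(6,3)]⟩⟩,⟨true,0,⟨0,[(0,0)]⟩,⟨0,[(2,0),(26,0),(14,0)]⟩⟩,⟨true,0,⟨0,
  [(49,0)]⟩,⟨0,[]⟩⟩,⟨false,1,⟨3,[(5,3),(21,0),(0,0),(11,1)]⟩,⟨0,[(2,0),(26,0)]⟩⟩,[]⟩)))) (.I [0,1,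
  -1,0,0,0,0,1,-1] (.R ⟨0,false,false,false,[1,0,0,-1],[1,0,-1],[0,1,0,0,0,0,0,0,-1],(⟨0,[(27,0)]⟩,
  ⟨0,[(28,0)]⟩),(⟨0,[(36,0)]⟩,⟨0,[(37,0)]⟩),⟨0,[(1,0)]⟩,.k,.k,(.x (-1) ⟨15,[(12,3),(5,3),(6,6),(0,
  6),(11,1)]⟩ ⟨0,[(40,0)]⟩),.k,.k,.k,⟨false,0,⟨0,[(0,0)]⟩,⟨1,[(26,0),(8,1),(9,0)]⟩⟩,⟨true,0,⟨0,[(27,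
  0),(2,0)]⟩,⟨5,[(2,4),(6,1),(3,0),(14,0),(4,1)]⟩⟩,⟨true,0,⟨0,[(47,0)]⟩,⟨0,[]⟩⟩,⟨false,1,⟨1,[(26,0),
  (0,1),(2,1),(4,1),(9,0)]⟩,⟨0,[(3,0),(27,0)]⟩⟩,⟨false,0,⟨0,[]⟩,⟨0,[]⟩⟩,⟨false,0,⟨0,[]⟩,⟨0,[]⟩⟩,[.a
  ⟨true,0,⟨4,[(9,1),(3,0),(2,1),(20,3),(2,1)]⟩,⟨0,[(2,0),(24,0)]⟩⟩ ⟨false,0,⟨0,[(0,0),(34,0)]⟩,⟨1,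
  [(26,0),(18,0)]⟩⟩ ⟨true,0,⟨0,[(27,0),(2,0),(4,0)]⟩,⟨0,[(2,0)]⟩⟩,.o ⟨false,1,⟨0,[(29,0),(15,0)]⟩,
  ⟨0,[(31,0)]⟩⟩,.o ⟨false,1,⟨1,[(28,1),(9,0),(5,0)]⟩,⟨0,[(20,0),(6,0),(2,1)]⟩⟩,.e ⟨false,0,⟨0,[(0,
  0),(20,0)]⟩,⟨1,[(26,0),(6,0),(0,0),(10,0)]⟩⟩ ⟨false,1,⟨0,[(27,0),(1,0),(15,0)]⟩,⟨0,[(2,0)]⟩⟩]⟩)
  (.Q [0,1,1,0,0,0,1,1,1,1,-1,-1] (.p false [0,0,1] [1,0,0,-1] (⟨0,[(37,0)]⟩,⟨0,[(36,0)]⟩) .k 2 (⟨0,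
  [(27,0)]⟩,⟨0,[(28,0)]⟩) .k (.r (-1) ⟨5,[(6,0),(12,2),(5,0),(0,3)]⟩ ⟨0,[(3,0),(23,0),(1,0),(3,
  0)]⟩)) (.R ⟨0,false,false,true,[1,0,0,-1],[0,0,1],[1,1],(⟨0,[(28,0)]⟩,⟨0,[(29,0)]⟩),(⟨0,[(38,0)]⟩,
  ⟨0,[(37,0)]⟩),⟨0,[(2,0)]⟩,.k,.k,(.x (-1) ⟨15,[(13,3),(5,3),(6,6),(0,6),(11,1)]⟩ ⟨0,[(41,0)]⟩),.k,
  .k,.k,⟨true,0,⟨0,[(36,0)]⟩,⟨3,[(20,1),(13,0),(0,0),(8,1)]⟩⟩,⟨false,0,⟨0,[(21,0),(6,0),(2,0)]⟩,⟨5,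
  [(11,3),(14,0),(0,0),(1,5),(1,1)]⟩⟩,⟨false,1,⟨3,[(26,0),(0,2)]⟩,⟨0,[(4,0),(16,0),(6,0),(2,1)]⟩⟩,
  ⟨true,0,⟨0,[(0,0)]⟩,⟨0,[(4,0),(25,0)]⟩⟩,⟨false,0,⟨0,[]⟩,⟨0,[]⟩⟩,⟨false,0,⟨0,[]⟩,⟨0,[]⟩⟩,[.o
  ⟨false,0,⟨0,[(32,0)]⟩,⟨0,[(30,0),(15,0)]⟩⟩,.e ⟨true,0,⟨0,[]⟩,⟨1,[(34,0),(0,0)]⟩⟩ ⟨true,0,⟨3,[(20,
  0),(7,3),(3,1),(1,1),(7,0),(1,0)]⟩,⟨3,[(1,0),(0,2),(1,0),(5,0),(2,0),(3,0),(6,0),(5,0),(7,0)]⟩⟩,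
  .o ⟨false,1,⟨1,[(29,1),(9,0),(5,0)]⟩,⟨0,[(21,0),(6,0),(2,1)]⟩⟩,.a ⟨true,0,⟨0,[(29,0)]⟩,⟨0,[(28,
  0)]⟩⟩ ⟨false,1,⟨3,[(26,0),(0,0),(17,1)]⟩,⟨3,[(34,0),(0,0),(6,1)]⟩⟩ ⟨true,0,⟨0,[(28,0),(3,0)]⟩,⟨3,
  [(1,0),(0,2),(1,0),(5,0),(2,0),(3,0),(6,0),(5,0),(7,0)]⟩⟩]⟩) (.Q [0,0,0,-1,0,0,0,0,0,-1,0,1] (.p
  true [0,0,0,1] [1] (⟨0,[(29,0)]⟩,⟨0,[(28,0)]⟩) .k 1 (⟨0,[]⟩,⟨0,[]⟩) .k .k) (.R ⟨0,false,false,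
  true,[1,0,0,-1],[0,1],[1,1],(⟨0,[(29,0)]⟩,⟨0,[(30,0)]⟩),(⟨0,[(42,0)]⟩,⟨0,[(41,0)]⟩),⟨0,[(3,0)]⟩,
  .k,.k,(.x (-1) ⟨15,[(14,3),(5,3),(6,6),(0,6),(11,1)]⟩ ⟨0,[(42,0)]⟩),(.x (-1) ⟨15,[(14,3),(5,3),(6,
  6),(0,6),(11,1)]⟩ ⟨0,[(42,0)]⟩),.k,.k,⟨false,1,⟨11,[(8,3),(18,0),(0,0),(17,5)]⟩,⟨4,[(15,1),(5,0),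
  (13,2),(0,0)]⟩⟩,⟨true,0,⟨0,[(29,0)]⟩,⟨3,[(0,1),(3,0),(10,0),(14,0),(1,1),(2,1)]⟩⟩,⟨false,1,⟨3,
  [(27,0),(0,2)]⟩,⟨2,[(1,1),(3,0),(23,2),(2,0),(0,1),(1,0),(7,0)]⟩⟩,⟨true,0,⟨0,[(2,0),(22,0),(3,0),
  (3,0)]⟩,⟨0,[(1,0),(31,0),(11,0)]⟩⟩,⟨false,0,⟨0,[]⟩,⟨0,[]⟩⟩,⟨false,0,⟨0,[]⟩,⟨0,[]⟩⟩,[.o ⟨false,0,
  ⟨0,[(44,0)]⟩,⟨3,[(17,1),(14,1),(2,1),(4,0),(6,0)]⟩⟩,.e ⟨true,0,⟨0,[]⟩,⟨1,[(35,0),(0,0)]⟩⟩ ⟨true,0,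
  ⟨4,[(15,1),(5,0),(7,4),(5,2),(0,0)]⟩,⟨0,[(0,0)]⟩⟩,.o ⟨false,1,⟨1,[(30,1),(9,0),(5,0)]⟩,⟨0,[(22,0),
  (6,0),(2,1)]⟩⟩,.a ⟨true,0,⟨0,[(30,0)]⟩,⟨0,[(29,0)]⟩⟩ ⟨false,1,⟨3,[(27,0),(0,0),(17,1)]⟩,⟨3,[(35,
  0),(0,0),(6,1)]⟩⟩ ⟨true,0,⟨0,[(29,0),(14,0)]⟩,⟨0,[(0,0)]⟩⟩]⟩) (.R ⟨0,false,false,true,[1,0,0,-1],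
  [0,1],[1,1],(⟨0,[(29,0)]⟩,⟨0,[(30,0)]⟩),(⟨0,[(42,0)]⟩,⟨0,[(41,0)]⟩),⟨0,[(3,0)]⟩,.k,.k,(.x (-1)
  ⟨15,[(14,3),(5,3),(6,6),(0,6),(11,1)]⟩ ⟨0,[(42,0)]⟩),(.x (-1) ⟨15,[(14,3),(5,3),(6,6),(0,6),(11,
  1)]⟩ ⟨0,[(42,0)]⟩),.k,.k,⟨false,1,⟨11,[(8,3),(18,0),(0,0),(17,5)]⟩,⟨4,[(15,1),(5,0),(13,2),(0,
  0)]⟩⟩,⟨true,0,⟨0,[(29,0)]⟩,⟨6,[(3,4),(10,1),(3,0),(11,1),(1,1),(2,3)]⟩⟩,⟨false,1,⟨3,[(27,0),(0,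
  2)]⟩,⟨2,[(1,1),(3,0),(23,2),(2,0),(0,1),(1,0),(7,0)]⟩⟩,⟨true,0,⟨0,[(2,0),(22,0),(3,0),(3,0)]⟩,⟨0,
  [(1,0),(31,0),(11,0)]⟩⟩,⟨false,0,⟨0,[]⟩,⟨0,[]⟩⟩,⟨false,0,⟨0,[]⟩,⟨0,[]⟩⟩,[.o ⟨false,0,⟨0,[(44,0)]⟩,
  ⟨3,[(17,1),(14,1),(2,1),(4,0),(6,0)]⟩⟩,.a ⟨true,0,⟨9,[(10,4),(8,0),(5,4),(0,1),(9,0),(1,1),(2,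
  0)]⟩,⟨0,[(45,0)]⟩⟩ ⟨true,0,⟨0,[]⟩,⟨1,[(35,0),(0,0)]⟩⟩ ⟨false,0,⟨0,[(0,0)]⟩,⟨11,[(8,3),(18,0),(0,
  0),(1,11),(9,5)]⟩⟩,.o ⟨false,1,⟨1,[(30,1),(9,0),(5,0)]⟩,⟨0,[(22,0),(6,0),(2,1)]⟩⟩,.e ⟨false,1,⟨3,
  [(27,0),(0,0),(17,1)]⟩,⟨3,[(35,0),(0,0),(6,1)]⟩⟩ ⟨false,0,⟨0,[(0,0)]⟩,⟨3,[(2,1),(1,1),(12,1),(9,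
  0),(2,1),(1,1),(7,0)]⟩⟩]⟩))))))) (.Q [0,0,0,0,0,0,1,1,0,0,-1,1] (.p false [0,0,1] [0,0,0,1] (⟨0,
  [(33,0)]⟩,⟨0,[(32,0)]⟩) .k 2 (⟨0,[(24,0)]⟩,⟨0,[(23,0)]⟩) .k (.x (-1) ⟨19,[(8,3),(4,7),(2,1),(4,6),
  (0,6),(11,0),(5,4)]⟩ ⟨3,[(12,1),(16,0),(0,0),(5,1)]⟩)) (.Q [0,0,0,0,0,-1,0,0,0,1,0,-1] (.ed true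
  [0,1,0,1] .k) (.I [0,0,0,0,0,0,0,0,1] (.I [1,-1,-1,0,1,0,0,0,-1] (.I [1,0,-1,0,1,0,0,1,-1] (.R ⟨1,
  false,false,false,[1,0,0,-1],[1,0,-1],[1,0,0,0,0,0,0,0,-1],(⟨0,[(28,0)]⟩,⟨0,[(29,0)]⟩),(⟨0,[(37,
  0)]⟩,⟨0,[(38,0)]⟩),⟨0,[(3,0)]⟩,.k,.k,(.x (-1) ⟨15,[(13,3),(5,3),(6,6),(0,6),(11,1)]⟩ ⟨0,[(41,
  0)]⟩),.k,(.r (-1) ⟨1,[(7,0),(12,0),(5,0)]⟩ ⟨5,[(2,5),(11,2),(18,1),(0,4),(1,0),(5,0)]⟩),.k,⟨false,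
  1,⟨0,[(0,0)]⟩,⟨0,[(2,0),(33,0)]⟩⟩,⟨true,0,⟨0,[(28,0),(2,0)]⟩,⟨11,[(4,8),(1,0),(3,3),(1,0),(16,2),
  (4,3)]⟩⟩,⟨true,0,⟨0,[]⟩,⟨0,[(48,0)]⟩⟩,⟨false,0,⟨4,[(5,4),(4,1),(3,0),(2,1),(20,3),(2,1)]⟩,⟨1,[(4,
  1),(21,0),(18,0)]⟩⟩,⟨false,1,⟨11,[(6,3),(19,2),(0,2),(11,1),(6,3)]⟩,⟨0,[(44,0)]⟩⟩,⟨false,0,⟨4,[(5,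
  4),(4,0),(3,2),(2,0),(20,1),(2,0)]⟩,⟨11,[(4,11),(2,3),(18,6),(0,0)]⟩⟩,[.a ⟨true,0,⟨4,[(10,1),(3,
  0),(2,1),(20,3),(2,1)]⟩,⟨0,[(4,0),(23,0)]⟩⟩ ⟨false,1,⟨1,[(26,0),(18,0)]⟩,⟨0,[(2,0)]⟩⟩ ⟨true,0,⟨0,
  [(28,0),(2,0),(4,0)]⟩,⟨0,[(4,0)]⟩⟩,.o ⟨false,1,⟨0,[(30,0),(15,0)]⟩,⟨0,[(32,0)]⟩⟩,.o ⟨false,1,⟨1,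
  [(29,1),(9,0),(5,0)]⟩,⟨0,[(21,0),(6,0),(2,1)]⟩⟩,.e ⟨false,1,⟨0,[(1,0)]⟩,⟨1,[(2,1),(31,0),(0,0)]⟩⟩
  ⟨false,1,⟨37,[(5,21),(4,7),(0,9),(2,3),(11,10),(1,15),(2,5),(1,17),(12,16)]⟩,⟨0,[(4,0)]⟩⟩]⟩) (.R
  ⟨1,false,false,false,[1,0,0,-1],[1,0,-1],[0,1,0,-1,0,0,0,0,-1],(⟨0,[(28,0)]⟩,⟨0,[(29,0)]⟩),(⟨0,
  [(37,0)]⟩,⟨0,[(38,0)]⟩),⟨0,[(3,0)]⟩,.k,.k,(.x (-1) ⟨15,[(13,3),(5,3),(6,6),(0,6),(11,1)]⟩ ⟨0,[(41,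
  0)]⟩),.k,(.r (-1) ⟨1,[(7,0),(12,0),(5,0)]⟩ ⟨15,[(0,5),(13,7),(12,4),(5,1),(0,9),(11,0)]⟩),.k,
  ⟨false,1,⟨1,[(7,0),(12,0),(5,0),(21,1)]⟩,⟨20,[(0,14),(5,6),(4,5),(9,2),(0,5),(4,2),(11,1),(6,
  3)]⟩⟩,⟨true,0,⟨0,[(28,0),(2,0)]⟩,⟨11,[(4,8),(1,0),(3,3),(1,0),(16,2),(4,3)]⟩⟩,⟨false,0,⟨0,[(44,
  0)]⟩,⟨11,[(6,3),(19,2),(0,2),(11,1),(6,3)]⟩⟩,⟨false,0,⟨8,[(0,1),(4,6),(8,0),(0,1),(12,1),(4,5),(8,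
  3)]⟩,⟨1,[(4,1),(21,0),(18,0)]⟩⟩,⟨true,0,⟨0,[(48,0)]⟩,⟨0,[]⟩⟩,⟨false,0,⟨8,[(0,0),(4,7),(8,4),(0,0),
  (12,0),(4,2),(8,1)]⟩,⟨11,[(4,11),(2,3),(18,6),(0,0)]⟩⟩,[.a ⟨true,0,⟨4,[(10,1),(3,0),(2,1),(20,3),
  (2,1)]⟩,⟨0,[(4,0),(23,0)]⟩⟩ ⟨false,1,⟨11,[(7,3),(18,6),(0,0),(20,11)]⟩,⟨17,[(0,8),(1,1),(1,6),(0,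
  6),(0,6),(4,6),(4,1),(3,0),(21,0)]⟩⟩ ⟨true,0,⟨14,[(0,3),(4,3),(4,2),(1,0),(1,0),(11,3),(1,10),(2,
  9),(1,2)]⟩,⟨0,[(4,0)]⟩⟩,.o ⟨false,1,⟨0,[(30,0),(15,0)]⟩,⟨0,[(32,0)]⟩⟩,.o ⟨false,1,⟨1,[(29,1),(9,
  0),(5,0)]⟩,⟨0,[(21,0),(6,0),(2,1)]⟩⟩,.e ⟨false,1,⟨11,[(7,3),(18,6),(0,0)]⟩,⟨37,[(0,15),(5,9),(13,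
  7),(6,10),(11,4),(2,13)]⟩⟩ ⟨false,1,⟨37,[(5,21),(4,7),(0,9),(2,3),(11,10),(1,15),(2,5),(1,17),(12,
  16)]⟩,⟨0,[(4,0)]⟩⟩]⟩)) (.R ⟨1,false,false,false,[1,0,0,-1],[1,0,-1],[0,1,0,-1,0,0,0,0,-1],(⟨0,
  [(27,0)]⟩,⟨0,[(28,0)]⟩),(⟨0,[(36,0)]⟩,⟨0,[(37,0)]⟩),⟨0,[(2,0)]⟩,.k,.k,(.x (-1) ⟨15,[(12,3),(5,3),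
  (6,6),(0,6),(11,1)]⟩ ⟨0,[(40,0)]⟩),.k,(.r (-1) ⟨1,[(6,0),(12,0),(5,0)]⟩ ⟨5,[(0,1),(12,2),(12,1),
  (6,2),(1,2),(5,0)]⟩),.k,⟨false,1,⟨1,[(6,0),(12,0),(5,0),(21,1)]⟩,⟨30,[(0,6),(0,23),(3,10),(3,1),
  (0,1),(9,0),(0,26),(16,4)]⟩⟩,⟨true,0,⟨0,[(27,0),(2,0)]⟩,⟨11,[(3,8),(1,0),(3,3),(1,0),(16,2),(4,
  3)]⟩⟩,⟨false,0,⟨0,[(43,0)]⟩,⟨11,[(5,3),(19,2),(0,2),(11,1),(6,3)]⟩⟩,⟨false,0,⟨18,[(0,3),(3,14),(4,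
  1),(3,2),(0,3),(12,3),(4,11),(8,9)]⟩,⟨1,[(3,1),(21,0),(18,0)]⟩⟩,⟨true,0,⟨0,[(47,0)]⟩,⟨0,[]⟩⟩,
  ⟨false,0,⟨18,[(0,1),(3,16),(4,0),(3,10),(0,1),(12,1),(4,5),(8,4)]⟩,⟨11,[(3,11),(2,3),(18,6),(0,
  0)]⟩⟩,[.a ⟨true,0,⟨4,[(9,1),(3,0),(2,1),(20,3),(2,1)]⟩,⟨0,[(3,0),(23,0)]⟩⟩ ⟨false,1,⟨11,[(6,3),
  (18,6),(0,0),(20,11)]⟩,⟨32,[(0,15),(0,16),(3,10),(4,13),(9,6),(17,1),(2,18)]⟩⟩ ⟨true,0,⟨0,[(27,0),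
  (2,0),(4,0)]⟩,⟨0,[(3,0)]⟩⟩,.o ⟨false,1,⟨0,[(29,0),(15,0)]⟩,⟨0,[(31,0)]⟩⟩,.o ⟨false,1,⟨1,[(28,1),
  (9,0),(5,0)]⟩,⟨0,[(20,0),(6,0),(2,1)]⟩⟩,.e ⟨false,1,⟨11,[(6,3),(18,6),(0,0)]⟩,⟨17,[(0,7),(4,5),
  (20,4),(11,2),(2,9)]⟩⟩ ⟨false,1,⟨37,[(4,21),(4,7),(0,9),(2,3),(11,10),(1,15),(2,5),(1,17),(12,
  16)]⟩,⟨0,[(3,0)]⟩⟩]⟩)) (.R ⟨1,false,false,true,[1,0,0,-1],[1,0,-1],[1,1,0,0,0,0,0,0,-1],(⟨0,[(26,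
  0)]⟩,⟨0,[(27,0)]⟩),(⟨0,[(35,0)]⟩,⟨0,[(36,0)]⟩),⟨0,[(1,0)]⟩,.k,.k,(.x (-1) ⟨15,[(11,3),(5,3),(6,6),
  (0,6),(11,1)]⟩ ⟨0,[(39,0)]⟩),.k,(.r (-1) ⟨1,[(5,0),(12,0),(5,0)]⟩ ⟨5,[(3,5),(6,2),(1,0),(10,2),(3,
  5),(3,1),(9,0)]⟩),.k,⟨false,1,⟨14,[(0,0),(3,2),(0,4),(3,2),(8,5),(5,6),(5,2)]⟩,⟨0,[(2,0),(0,0),(4,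
  0),(13,0)]⟩⟩,⟨true,0,⟨0,[(26,0),(2,0)]⟩,⟨11,[(2,8),(1,0),(3,3),(1,0),(16,2),(4,3)]⟩⟩,⟨false,0,⟨0,
  []⟩,⟨3,[(24,0),(0,0),(18,1)]⟩⟩,⟨false,0,⟨0,[(3,0),(27,0)]⟩,⟨36,[(0,4),(1,36),(1,5),(4,11),(4,8),
  (4,5),(4,15),(15,10)]⟩⟩,⟨true,0,⟨0,[(41,0)]⟩,⟨0,[(42,0)]⟩⟩,⟨false,0,⟨2,[(3,2),(8,0),(18,1),(9,
  0)]⟩,⟨36,[(0,6),(1,36),(1,0),(4,1),(4,19),(4,0),(4,14),(15,7)]⟩⟩,[.o ⟨false,0,⟨0,[(28,0)]⟩,⟨0,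
  [(30,0),(13,0)]⟩⟩,.e ⟨true,0,⟨0,[(0,0)]⟩,⟨0,[(2,0),(0,0),(27,0)]⟩⟩ ⟨true,0,⟨0,[(26,0),(2,0),(4,
  0)]⟩,⟨0,[(2,0)]⟩⟩,.o ⟨false,1,⟨1,[(27,1),(9,0),(5,0)]⟩,⟨3,[(0,1),(2,1),(22,1),(1,0),(0,0),(0,0),
  (1,0)]⟩⟩,.a ⟨true,0,⟨0,[(27,0)]⟩,⟨0,[(26,0)]⟩⟩ ⟨false,1,⟨1,[(24,0),(18,0)]⟩,⟨0,[(3,0),(23,0)]⟩⟩
  ⟨true,0,⟨0,[(26,0),(1,0)]⟩,⟨0,[(2,0)]⟩⟩]⟩)) (.I [0,0,0,0,0,0,0,0,1] (.I [1,0,0,1,0,0,0,0,1] (.R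
  ⟨0,false,false,false,[1,0,0,-1],[1,0,-1],[0,0,0,-1,0,0,0,0,-1],(⟨0,[(27,0)]⟩,⟨0,[(28,0)]⟩),(⟨0,
  [(36,0)]⟩,⟨0,[(37,0)]⟩),⟨0,[(2,0)]⟩,.k,.k,(.x (-1) ⟨15,[(12,3),(5,3),(6,6),(0,6),(11,1)]⟩ ⟨0,[(40,
  0)]⟩),.k,.k,.k,⟨false,1,⟨1,[(6,0),(12,0),(5,0)]⟩,⟨0,[(0,0),(34,0)]⟩⟩,⟨true,0,⟨0,[(27,0),(2,0)]⟩,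
  ⟨5,[(2,3),(9,0),(5,0),(5,2),(3,1)]⟩⟩,⟨true,0,⟨0,[(43,0)]⟩,⟨0,[(42,0)]⟩⟩,⟨false,0,⟨4,[(4,4),(4,1),
  (3,0),(2,1),(20,3),(2,1)]⟩,⟨1,[(3,1),(21,0),(18,0)]⟩⟩,⟨false,0,⟨0,[]⟩,⟨0,[]⟩⟩,⟨false,0,⟨0,[]⟩,⟨0,
  []⟩⟩,[.a ⟨true,0,⟨4,[(9,1),(3,0),(2,1),(20,3),(2,1)]⟩,⟨0,[(3,0),(23,0)]⟩⟩ ⟨false,1,⟨11,[(6,3),(18,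
  6),(0,0)]⟩,⟨0,[(0,0)]⟩⟩ ⟨true,0,⟨0,[(27,0),(2,0),(4,0)]⟩,⟨0,[(3,0)]⟩⟩,.o ⟨false,1,⟨0,[(29,0),(15,
  0)]⟩,⟨0,[(31,0)]⟩⟩,.o ⟨false,1,⟨1,[(28,1),(9,0),(5,0)]⟩,⟨0,[(20,0),(6,0),(2,1)]⟩⟩,.e ⟨false,1,⟨1,
  [(6,0),(12,0),(1,1),(3,0)]⟩,⟨1,[(0,1),(32,0),(0,0)]⟩⟩ ⟨false,1,⟨37,[(4,21),(4,7),(0,9),(2,3),(11,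
  10),(1,15),(2,5),(1,17),(12,16)]⟩,⟨0,[(3,0)]⟩⟩]⟩) (.R ⟨0,false,false,false,[1,0,0,-1],[1,0,-1],[1,
  0,0,0,0,0,0,0,-1],(⟨0,[(27,0)]⟩,⟨0,[(28,0)]⟩),(⟨0,[(36,0)]⟩,⟨0,[(37,0)]⟩),⟨0,[(2,0)]⟩,.k,.k,(.x
  (-1) ⟨15,[(12,3),(5,3),(6,6),(0,6),(11,1)]⟩ ⟨0,[(40,0)]⟩),.k,.k,.k,⟨false,1,⟨27,[(0,1),(4,5),(0,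
  8),(3,5),(8,10),(5,12),(5,5)]⟩,⟨0,[(1,0),(33,0)]⟩⟩,⟨true,0,⟨0,[(27,0),(2,0)]⟩,⟨5,[(2,3),(9,0),(5,
  0),(5,2),(3,1)]⟩⟩,⟨true,0,⟨0,[]⟩,⟨0,[(47,0)]⟩⟩,⟨false,0,⟨4,[(4,4),(4,1),(3,0),(2,1),(20,3),(2,
  1)]⟩,⟨1,[(3,1),(21,0),(18,0)]⟩⟩,⟨false,0,⟨0,[]⟩,⟨0,[]⟩⟩,⟨false,0,⟨0,[]⟩,⟨0,[]⟩⟩,[.a ⟨true,0,⟨4,
  [(9,1),(3,0),(2,1),(20,3),(2,1)]⟩,⟨0,[(3,0),(23,0)]⟩⟩ ⟨false,1,⟨1,[(25,0),(18,0)]⟩,⟨0,[(1,0)]⟩⟩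
  ⟨true,0,⟨0,[(27,0),(2,0),(4,0)]⟩,⟨0,[(3,0)]⟩⟩,.o ⟨false,1,⟨0,[(29,0),(15,0)]⟩,⟨0,[(31,0)]⟩⟩,.o
  ⟨false,1,⟨1,[(28,1),(9,0),(5,0)]⟩,⟨6,[(0,3),(3,3),(6,2),(7,0),(7,2),(3,0),(1,1)]⟩⟩,.e ⟨false,1,
  ⟨38,[(0,4),(4,6),(4,13),(4,7),(4,6),(4,16),(15,11)]⟩,⟨1,[(1,1),(31,0),(0,0)]⟩⟩ ⟨false,1,⟨37,[(4,
  21),(4,7),(0,9),(2,3),(11,10),(1,15),(2,5),(1,17),(12,16)]⟩,⟨0,[(3,0)]⟩⟩]⟩)) (.I [1,1,0,0,0,0,0,0,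
  1] (.R ⟨1,false,false,false,[0,0,0,1],[0,0,1],[1,1,0,0,0,0,0,0,1],(⟨0,[(28,0)]⟩,⟨0,[(27,0)]⟩),(⟨0,
  [(37,0)]⟩,⟨0,[(36,0)]⟩),⟨2,[(2,0),(9,0),(5,0),(9,1)]⟩,.k,.k,(.r (-1) ⟨11,[(6,3),(18,0),(0,6)]⟩ ⟨4,
  [(1,4),(11,1),(5,0),(13,2),(0,0)]⟩),.k,(.r (-1) ⟨5,[(6,0),(2,2),(15,0),(0,3)]⟩ ⟨9,[(1,9),(11,1),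
  (5,5),(13,2),(0,0)]⟩),.k,⟨true,0,⟨0,[(0,0),(34,0)]⟩,⟨1,[(1,1),(17,0),(21,0),(1,0)]⟩⟩,⟨false,1,⟨3,
  [(20,1),(7,3),(9,0),(5,2)]⟩,⟨0,[(27,0),(2,0)]⟩⟩,⟨false,0,⟨0,[]⟩,⟨3,[(25,0),(0,0),(18,1)]⟩⟩,⟨false,
  1,⟨36,[(1,4),(1,36),(1,5),(4,11),(4,8),(4,5),(4,15),(15,10)]⟩,⟨0,[(4,0),(27,0)]⟩⟩,⟨true,0,⟨0,[(42,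
  0)]⟩,⟨0,[(43,0)]⟩⟩,⟨false,1,⟨29,[(1,3),(1,29),(1,9),(4,15),(9,7),(4,12),(12,0),(2,9)]⟩,⟨0,[(4,0),
  (27,0),(10,0)]⟩⟩,[.a ⟨true,0,⟨0,[(3,0),(23,0)]⟩,⟨4,[(9,1),(3,0),(2,1),(20,3),(2,1)]⟩⟩ ⟨true,0,⟨0,
  [(0,0)]⟩,⟨3,[(1,3),(31,0),(0,0),(6,1)]⟩⟩ ⟨false,1,⟨0,[(3,0),(40,0)]⟩,⟨0,[(27,0),(2,0),(4,0)]⟩⟩,.o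
  ⟨false,1,⟨0,[(31,0),(13,0)]⟩,⟨0,[(29,0)]⟩⟩,.o ⟨false,0,⟨3,[(1,1),(2,1),(22,1),(1,0),(0,0),(0,0),
  (1,0)]⟩,⟨1,[(28,1),(9,0),(5,0)]⟩⟩,.o ⟨false,0,⟨0,[(27,0),(2,0),(2,0)]⟩,⟨14,[(2,3),(7,11),(1,0),(5,
  0),(1,5),(7,10),(9,2)]⟩⟩]⟩) (.R ⟨0,false,false,true,[1,0,0,-1],[1,0,-1],[0,0,0,-1,0,0,0,0,-1],(⟨0,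
  [(27,0)]⟩,⟨0,[(28,0)]⟩),(⟨0,[(36,0)]⟩,⟨0,[(37,0)]⟩),⟨0,[(2,0)]⟩,.k,.k,(.x (-1) ⟨15,[(12,3),(5,3),
  (6,6),(0,6),(11,1)]⟩ ⟨0,[(40,0)]⟩),.k,.k,.k,⟨false,1,⟨9,[(0,3),(5,0),(8,5),(3,4),(5,2)]⟩,⟨1,[(3,
  1),(0,1),(4,0),(1,0),(8,0),(2,1),(8,0)]⟩⟩,⟨true,0,⟨0,[(27,0),(2,0)]⟩,⟨5,[(2,3),(9,0),(5,0),(5,2),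
  (3,1)]⟩⟩,⟨true,0,⟨0,[(43,0)]⟩,⟨0,[(42,0)]⟩⟩,⟨false,0,⟨0,[(4,0),(27,0)]⟩,⟨63,[(0,17),(2,63),(1,7),
  (4,15),(4,11),(4,7),(4,22),(19,12)]⟩⟩,⟨false,0,⟨0,[]⟩,⟨0,[]⟩⟩,⟨false,0,⟨0,[]⟩,⟨0,[]⟩⟩,[.o ⟨false,
  0,⟨0,[(29,0)]⟩,⟨0,[(31,0),(13,0)]⟩⟩,.e ⟨true,0,⟨0,[(0,0),(42,0)]⟩,⟨0,[(3,0),(0,0),(27,0),(9,0)]⟩⟩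
  ⟨true,0,⟨0,[(27,0),(2,0),(4,0)]⟩,⟨0,[(3,0)]⟩⟩,.o ⟨false,1,⟨1,[(28,1),(9,0),(5,0)]⟩,⟨3,[(1,1),(2,
  1),(22,1),(1,0),(0,0),(0,0),(1,0)]⟩⟩,.a ⟨true,0,⟨0,[(28,0)]⟩,⟨0,[(27,0)]⟩⟩ ⟨false,1,⟨7,[(0,1),(14,
  3),(9,2),(19,0)]⟩,⟨0,[(4,0),(23,0),(13,0)]⟩⟩ ⟨true,0,⟨0,[(27,0),(1,0)]⟩,⟨0,[(3,0)]⟩⟩]⟩)))) (.I [0,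
  0,0,0,0,0,0,0,1] (.I [1,1,0,0,0,0,0,0,-1] (.R ⟨1,false,false,false,[1,0,0,-1],[1,0,-1],[1,0,0,0,0,
  0,0,0,-1],(⟨0,[(26,0)]⟩,⟨0,[(27,0)]⟩),(⟨0,[(35,0)]⟩,⟨0,[(36,0)]⟩),⟨3,[(2,1),(8,0),(5,0),(0,0),(0,
  0),(6,1),(15,0)]⟩,.k,.k,(.x (-1) ⟨15,[(11,3),(5,3),(6,6),(0,6),(11,1)]⟩ ⟨0,[(39,0)]⟩),.k,(.r (-1)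
  ⟨1,[(5,0),(12,0),(5,0)]⟩ ⟨5,[(1,5),(10,2),(18,1),(0,4),(1,0),(5,0)]⟩),.k,⟨false,1,⟨17,[(0,1),(3,
  1),(0,4),(3,3),(8,8),(0,1),(4,7),(18,0)]⟩,⟨0,[(1,0),(32,0)]⟩⟩,⟨true,0,⟨0,[(26,0),(2,0)]⟩,⟨0,[(19,
  0),(7,0),(1,0)]⟩⟩,⟨true,0,⟨0,[]⟩,⟨0,[(46,0)]⟩⟩,⟨false,0,⟨1,[(1,0),(0,0),(0,0),(27,0),(8,0)]⟩,⟨41,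
  [(0,7),(4,6),(3,9),(8,20),(0,25),(4,16),(2,41),(9,7),(2,3)]⟩⟩,⟨false,1,⟨11,[(4,3),(19,2),(0,2),
  (11,1),(6,3)]⟩,⟨0,[(42,0)]⟩⟩,⟨false,0,⟨3,[(1,0),(0,0),(0,2),(8,1),(18,0),(8,0)]⟩,⟨6,[(0,0),(4,2),
  (12,1),(0,1),(4,2),(2,6),(2,2),(6,0),(2,1)]⟩⟩,[.e ⟨false,1,⟨1,[(24,0),(18,0)]⟩,⟨0,[(1,0)]⟩⟩
  ⟨false,0,⟨0,[(2,0)]⟩,⟨19,[(14,3),(3,7),(0,7),(4,2),(0,2),(1,19),(2,3),(6,3),(5,5)]⟩⟩,.o ⟨false,1,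
  ⟨0,[(28,0),(15,0)]⟩,⟨0,[(30,0)]⟩⟩,.o ⟨false,1,⟨1,[(27,1),(9,0),(5,0)]⟩,⟨0,[(0,0),(2,0)]⟩⟩,.a
  ⟨true,0,⟨0,[(27,0)]⟩,⟨0,[(26,0)]⟩⟩ ⟨false,1,⟨10,[(0,0),(3,1),(0,1),(3,3),(9,1),(4,4),(15,4)]⟩,⟨1,
  [(1,1),(30,0),(0,0)]⟩⟩ ⟨true,0,⟨0,[(2,0)]⟩,⟨0,[(27,0),(2,0)]⟩⟩]⟩) (.R ⟨1,false,false,false,[1,0,0,
  -1],[1,0,-1],[1,1,0,0,0,0,0,0,-1],(⟨0,[(26,0)]⟩,⟨0,[(27,0)]⟩),(⟨0,[(35,0)]⟩,⟨0,[(36,0)]⟩),⟨3,[(2,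
  1),(8,0),(5,0),(0,0),(0,0),(6,1),(15,0)]⟩,.k,.k,(.x (-1) ⟨15,[(11,3),(5,3),(6,6),(0,6),(11,1)]⟩
  ⟨0,[(39,0)]⟩),.k,(.r (-1) ⟨1,[(5,0),(12,0),(5,0)]⟩ ⟨5,[(1,5),(10,2),(18,1),(0,4),(1,0),(5,0)]⟩),
  .k,⟨false,1,⟨3,[(5,0),(12,0),(3,1),(1,1),(5,1),(12,0)]⟩,⟨0,[(1,0),(18,0)]⟩⟩,⟨true,0,⟨0,[(26,0),(2,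
  0)]⟩,⟨0,[(19,0),(7,0),(1,0)]⟩⟩,⟨false,0,⟨0,[]⟩,⟨3,[(24,0),(0,0),(18,1)]⟩⟩,⟨false,0,⟨2,[(0,0),(1,
  0),(0,1),(27,1),(8,0)]⟩,⟨13,[(5,0),(3,5),(8,2),(0,5),(4,6),(2,13),(2,7),(9,3)]⟩⟩,⟨true,0,⟨0,[(41,
  0)]⟩,⟨0,[(42,0)]⟩⟩,⟨false,0,⟨5,[(0,0),(1,0),(0,4),(8,2),(18,1),(8,0)]⟩,⟨13,[(5,4),(3,1),(8,0),(0,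
  1),(4,6),(2,13),(2,11),(9,5)]⟩⟩,[.e ⟨false,1,⟨11,[(5,3),(18,6),(0,0),(15,11)]⟩,⟨0,[(0,0)]⟩⟩
  ⟨false,0,⟨0,[(2,0)]⟩,⟨19,[(14,3),(3,7),(0,7),(4,2),(0,2),(1,19),(2,3),(6,3),(5,5)]⟩⟩,.o ⟨false,1,
  ⟨0,[(28,0),(15,0)]⟩,⟨0,[(30,0)]⟩⟩,.o ⟨false,1,⟨1,[(27,1),(9,0),(5,0)]⟩,⟨2,[(2,1),(23,0),(2,0),(0,
  1),(1,0),(7,0)]⟩⟩,.a ⟨true,0,⟨0,[(27,0)]⟩,⟨0,[(26,0)]⟩⟩ ⟨false,1,⟨1,[(24,0),(18,0)]⟩,⟨3,[(1,3),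
  (30,0),(0,0),(6,1)]⟩⟩ ⟨true,0,⟨0,[(2,0)]⟩,⟨0,[(27,0),(2,0)]⟩⟩]⟩)) (.R ⟨1,false,false,true,[1,0,0,
  -1],[0,1],[1,1,0,0,0,0,0,0,-1],(⟨0,[(25,0)]⟩,⟨0,[(26,0)]⟩),(⟨0,[(38,0)]⟩,⟨0,[(37,0)]⟩),⟨3,[(1,1),
  (8,0),(5,0),(0,0),(0,0),(6,1),(15,0)]⟩,.k,.k,(.x (-1) ⟨15,[(10,3),(5,3),(6,6),(0,6),(11,1)]⟩ ⟨0,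
  [(38,0)]⟩),(.x (-1) ⟨15,[(10,3),(5,3),(6,6),(0,6),(11,1)]⟩ ⟨0,[(38,0)]⟩),(.r (-1) ⟨2,[(0,0),(3,1),
  (18,0)]⟩ ⟨4,[(2,4),(8,1),(5,0),(8,4),(4,2),(0,0),(7,4)]⟩),.k,⟨false,1,⟨35,[(0,13),(2,2),(0,15),(3,
  8),(9,5),(2,2),(1,10)]⟩,⟨0,[(2,0),(23,0),(13,0)]⟩⟩,⟨true,0,⟨0,[(25,0)]⟩,⟨0,[(18,0),(7,0),(1,1)]⟩⟩,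
  ⟨false,0,⟨0,[]⟩,⟨3,[(23,0),(0,0),(18,1)]⟩⟩,⟨false,0,⟨4,[(2,4),(12,0),(5,4),(0,1),(9,0),(1,1),(2,
  0)]⟩,⟨10,[(0,10),(3,2),(3,1),(4,0),(4,0),(7,10),(9,4),(2,4)]⟩⟩,⟨true,0,⟨0,[(40,0)]⟩,⟨0,[(41,0)]⟩⟩,
  ⟨false,0,⟨2,[(2,2),(2,0),(15,3),(0,1)]⟩,⟨1,[(0,1),(3,0),(21,1),(9,0),(2,0),(1,0)]⟩⟩,[.o ⟨false,0,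
  ⟨0,[(40,0)]⟩,⟨3,[(13,1),(14,1),(2,1),(4,0),(6,0)]⟩⟩,.a ⟨true,0,⟨9,[(6,4),(8,0),(5,4),(0,1),(9,0),
  (1,1),(2,0)]⟩,⟨0,[(41,0)]⟩⟩ ⟨true,0,⟨0,[(0,0)]⟩,⟨0,[(2,0),(23,0),(18,0)]⟩⟩ ⟨false,0,⟨2,[(1,0),(1,
  0),(21,1),(3,0)]⟩,⟨11,[(4,3),(18,0),(0,0),(1,11),(9,5)]⟩⟩,.o ⟨false,1,⟨1,[(26,1),(9,0),(5,0)]⟩,⟨2,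
  [(0,0),(0,0),(0,0),(22,0),(2,0),(0,0),(1,0)]⟩⟩,.e ⟨false,1,⟨1,[(23,0),(18,0)]⟩,⟨0,[(2,0),(23,
  0)]⟩⟩ ⟨false,0,⟨2,[(1,0),(1,0),(21,1),(3,0)]⟩,⟨3,[(13,1),(12,3),(1,1),(2,1),(4,0),(6,0)]⟩⟩]⟩)))))
  (.Q [0,-1,-1,2,1,0,-1,-1,-1,-1,1,1] (.p true [0,0,1] [1,0,0,-1] (⟨0,[(31,0)]⟩,⟨0,[(30,0)]⟩) .k 2
  (⟨0,[(21,0)]⟩,⟨0,[(22,0)]⟩) .k (.x 0 ⟨0,[(27,0),(3,0)]⟩ ⟨4,[(4,2),(5,0),(8,0),(0,0),(9,2),(3,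
  0)]⟩)) (.I [1,0,0,0,0,0,0,0,1] (.I [0,0,1,0,0,0,0,0,-1] (.Q [0,0,0,0,0,-1,0,0,0,0,0,1] (.ed false
  [1,-1,0,1] .k) (.R ⟨1,false,false,false,[0,0,0,1],[0,-1,1],[1,0,0,0,0,0,0,0,1],(⟨0,[(26,0)]⟩,⟨0,
  [(25,0)]⟩),(⟨1,[(10,0),(24,0)]⟩,⟨0,[(34,0),(3,0)]⟩),⟨0,[(0,0)]⟩,.k,.k,(.x 0 ⟨9,[(10,3),(3,1),(16,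
  10),(0,6)]⟩ ⟨0,[(38,0),(3,0)]⟩),(.r 0 ⟨1,[(4,0),(2,0),(16,0)]⟩ ⟨1,[(1,1),(10,0),(0,0),(3,0),(0,0),
  (2,0),(19,0)]⟩),.k,.k,⟨false,0,⟨29,[(2,25),(1,4),(2,8),(3,11),(6,5),(5,1),(11,2)]⟩,⟨1,[(1,1),(10,
  0),(0,0),(3,0),(0,0),(2,0),(19,0)]⟩⟩,⟨true,0,⟨0,[(18,0),(7,0),(1,0)]⟩,⟨0,[(25,0),(2,0)]⟩⟩,⟨true,0,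
  ⟨0,[]⟩,⟨0,[(45,0)]⟩⟩,⟨false,1,⟨1,[(1,1),(10,1),(4,0),(0,1),(7,1),(12,0),(1,0)]⟩,⟨5,[(2,3),(1,0),
  (4,2),(9,2),(4,0),(0,5),(2,2)]⟩⟩,⟨false,1,⟨3,[(5,1),(17,0),(0,0),(11,0),(6,0)]⟩,⟨0,[(41,0)]⟩⟩,
  ⟨false,1,⟨6,[(1,5),(1,0),(8,5),(4,3),(0,6),(7,5),(12,2)]⟩,⟨5,[(2,3),(1,0),(2,2),(16,0),(0,5),(2,
  5)]⟩⟩,[.a ⟨true,0,⟨3,[(15,0),(1,1),(0,0),(15,1),(2,0),(3,5)]⟩,⟨4,[(7,0),(3,2),(2,0),(20,1),(2,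
  0)]⟩⟩ ⟨true,0,⟨0,[(2,0)]⟩,⟨0,[(1,0)]⟩⟩ ⟨false,1,⟨19,[(8,3),(4,11),(3,3),(0,5),(7,19),(2,11),(6,0),
  (5,2)]⟩,⟨25,[(4,5),(2,7),(3,7),(13,25),(2,15),(1,1),(5,4),(6,0)]⟩⟩,.o ⟨false,1,⟨15,[(13,11),(3,7),
  (5,0),(0,0),(6,15),(11,1)]⟩,⟨0,[(9,0)]⟩⟩,.o ⟨false,0,⟨0,[(18,0),(6,0),(2,1)]⟩,⟨1,[(26,1),(9,0),(5,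
  0)]⟩⟩,.o ⟨false,0,⟨0,[(25,0),(2,0),(2,0)]⟩,⟨0,[(8,0),(9,0),(7,0),(1,0)]⟩⟩]⟩) (.R ⟨0,false,false,
  false,[0,0,0,1],[0,-1,1],[1,0,0,0,0,0,0,0,1],(⟨0,[(26,0)]⟩,⟨0,[(25,0)]⟩),(⟨1,[(10,0),(24,0)]⟩,⟨0,
  [(34,0),(3,0)]⟩),⟨0,[(0,0)]⟩,.k,.k,(.x 0 ⟨9,[(10,3),(3,1),(16,10),(0,6)]⟩ ⟨0,[(38,0),(3,0)]⟩),(.r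
  0 ⟨1,[(4,0),(2,0),(16,0)]⟩ ⟨1,[(1,1),(10,0),(0,0),(3,0),(0,0),(2,0),(19,0)]⟩),.k,.k,⟨false,0,⟨29,
  [(2,25),(1,4),(2,8),(3,11),(6,5),(5,1),(11,2)]⟩,⟨1,[(1,1),(10,0),(0,0),(3,0),(0,0),(2,0),(19,
  0)]⟩⟩,⟨true,0,⟨0,[(18,0),(7,0),(1,0)]⟩,⟨0,[(25,0),(2,0)]⟩⟩,⟨true,0,⟨0,[]⟩,⟨0,[(45,0)]⟩⟩,⟨false,1,
  ⟨1,[(1,1),(10,1),(4,0),(0,1),(7,1),(12,0),(1,0)]⟩,⟨19,[(0,9),(1,9),(1,4),(2,6),(2,3),(0,5),(2,1),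
  (9,4),(0,9),(2,9)]⟩⟩,⟨false,0,⟨0,[]⟩,⟨0,[]⟩⟩,⟨false,0,⟨0,[]⟩,⟨0,[]⟩⟩,[.a ⟨true,0,⟨3,[(15,0),(1,1),
  (0,0),(15,1),(2,0),(3,5)]⟩,⟨4,[(7,0),(3,2),(2,0),(20,1),(2,0)]⟩⟩ ⟨true,0,⟨0,[(2,0)]⟩,⟨0,[(1,0)]⟩⟩
  ⟨false,1,⟨19,[(8,3),(4,11),(3,3),(0,5),(7,19),(2,11),(6,0),(5,2)]⟩,⟨25,[(4,5),(2,7),(3,7),(13,25),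
  (2,15),(1,1),(5,4),(6,0)]⟩⟩,.o ⟨false,1,⟨15,[(13,11),(3,7),(5,0),(0,0),(6,15),(11,1)]⟩,⟨0,[(9,
  0)]⟩⟩,.o ⟨false,0,⟨6,[(0,4),(9,1),(3,0),(10,1),(2,1),(2,3)]⟩,⟨1,[(26,1),(9,0),(5,0)]⟩⟩,.o ⟨false,
  0,⟨0,[(25,0),(2,0),(2,0)]⟩,⟨0,[(8,0),(9,0),(7,0),(1,0)]⟩⟩]⟩)) (.Q [0,0,0,1,0,0,-1,-1,0,-1,1,1]
  (.p true [0,0,1] [1,0,0,-1] (⟨0,[(34,0)]⟩,⟨0,[(33,0)]⟩) .k 2 (⟨0,[(24,0)]⟩,⟨0,[(25,0)]⟩) .k (.r 0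
  ⟨1,[(0,0),(0,0),(14,0),(23,0)]⟩ ⟨5,[(3,0),(2,2),(15,4),(0,1)]⟩)) (.Q [0,0,0,0,0,-1,0,0,0,1,0,-1]
  (.ed true [0,1,0,1] .k) (.R ⟨1,false,false,false,[1,0,0,-1],[1,0,-1],[1,1,0,0,0,0,0,0,-1],(⟨0,
  [(26,0)]⟩,⟨0,[(27,0)]⟩),(⟨0,[(35,0)]⟩,⟨0,[(36,0)]⟩),⟨0,[(0,0)]⟩,.k,.k,(.x (-1) ⟨15,[(11,3),(5,3),
  (6,6),(0,6),(11,1)]⟩ ⟨0,[(39,0)]⟩),.k,(.x 0 ⟨44,[(5,1),(2,5),(2,26),(4,8),(2,3),(10,11),(1,6),(4,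
  1),(2,5)]⟩ ⟨4,[(9,0),(5,1),(8,1),(0,1),(9,0),(3,6)]⟩),.k,⟨false,1,⟨3,[(13,0),(0,0),(3,0),(0,0),(2,
  2),(1,1),(5,1),(11,0)]⟩,⟨5,[(2,2),(0,0),(1,0),(2,2),(16,0),(14,2)]⟩⟩,⟨true,0,⟨0,[(26,0),(2,0)]⟩,
  ⟨4,[(1,1),(17,1),(7,2),(2,1),(1,0),(7,0),(1,1)]⟩⟩,⟨false,0,⟨0,[]⟩,⟨3,[(24,0),(0,0),(18,1)]⟩⟩,
  ⟨false,0,⟨5,[(2,2),(0,0),(1,0),(2,2),(16,0),(0,5),(2,5),(10,2)]⟩,⟨6,[(4,0),(8,1),(0,0),(3,1),(0,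
  2),(4,2),(2,5),(2,3),(9,0)]⟩⟩,⟨true,0,⟨0,[(41,0)]⟩,⟨0,[(42,0)]⟩⟩,⟨false,0,⟨4,[(2,2),(2,0),(4,1),
  (9,2),(4,0),(0,4),(2,2),(10,1)]⟩,⟨3,[(13,1),(4,0),(0,1),(4,1),(2,3),(2,1),(9,0),(1,2)]⟩⟩,[.a
  ⟨true,0,⟨4,[(8,1),(3,0),(2,1),(20,3),(2,1)]⟩,⟨3,[(16,0),(1,1),(0,0),(15,1),(2,0),(3,1)]⟩⟩ ⟨false,
  1,⟨1,[(24,0),(18,0),(2,1)]⟩,⟨0,[(2,0),(2,1),(0,0),(2,1),(9,0),(22,7)]⟩⟩ ⟨true,0,⟨21,[(5,2),(2,8),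
  (17,21),(2,19),(1,3),(0,1),(4,0),(6,1)]⟩,⟨0,[(1,0),(16,0),(0,0),(22,1)]⟩⟩,.o ⟨false,1,⟨0,[(28,0),
  (15,0)]⟩,⟨0,[(30,0)]⟩⟩,.o ⟨false,1,⟨1,[(27,1),(9,0),(5,0)]⟩,⟨0,[(19,0),(6,0),(2,1)]⟩⟩,.e ⟨false,1,
  ⟨1,[(24,0),(18,0)]⟩,⟨5,[(3,3),(1,0),(19,0),(14,2),(1,2)]⟩⟩ ⟨false,1,⟨0,[(26,0),(1,0),(15,0)]⟩,⟨0,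
  [(1,0),(16,0),(0,0),(22,1)]⟩⟩]⟩) (.R ⟨0,false,false,false,[1,0,0,-1],[1,0,-1],[0,1,0,0,0,0,0,0,
  -1],(⟨0,[(26,0)]⟩,⟨0,[(27,0)]⟩),(⟨0,[(35,0)]⟩,⟨0,[(36,0)]⟩),⟨0,[(0,0)]⟩,.k,.k,(.x (-1) ⟨15,[(11,
  3),(5,3),(6,6),(0,6),(11,1)]⟩ ⟨0,[(39,0)]⟩),.k,.k,.k,⟨false,1,⟨3,[(13,0),(0,0),(3,0),(0,0),(2,2),
  (1,1),(5,1),(11,0)]⟩,⟨5,[(2,2),(0,0),(1,0),(2,2),(16,0),(14,2)]⟩⟩,⟨true,0,⟨0,[(26,0),(2,0)]⟩,⟨8,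
  [(0,3),(10,0),(5,0),(1,2),(7,4),(4,2)]⟩⟩,⟨true,0,⟨0,[(46,0)]⟩,⟨0,[]⟩⟩,⟨false,0,⟨5,[(2,2),(0,0),(1,
  0),(2,2),(16,0),(0,5),(2,5),(10,2)]⟩,⟨38,[(0,3),(3,8),(6,0),(2,14),(2,0),(0,11),(0,11),(4,14),(2,
  25),(2,23)]⟩⟩,⟨false,0,⟨0,[]⟩,⟨0,[]⟩⟩,⟨false,0,⟨0,[]⟩,⟨0,[]⟩⟩,[.a ⟨true,0,⟨4,[(8,1),(3,0),(2,1),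
  (20,3),(2,1)]⟩,⟨3,[(16,0),(1,1),(0,0),(15,1),(2,0),(3,1)]⟩⟩ ⟨false,1,⟨1,[(24,0),(18,0),(2,1)]⟩,⟨1,
  [(2,0),(0,0),(36,0)]⟩⟩ ⟨true,0,⟨21,[(5,2),(2,8),(17,21),(2,19),(1,3),(0,1),(4,0),(6,1)]⟩,⟨5,[(0,
  3),(10,0),(5,0),(0,2),(0,2),(7,1),(14,2)]⟩⟩,.o ⟨false,1,⟨0,[(28,0),(15,0)]⟩,⟨0,[(30,0)]⟩⟩,.o
  ⟨false,1,⟨1,[(27,1),(9,0),(5,0)]⟩,⟨0,[(19,0),(6,0),(2,1)]⟩⟩,.e ⟨false,1,⟨1,[(24,0),(18,0)]⟩,⟨5,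
  [(3,3),(1,0),(19,0),(14,2),(1,2)]⟩⟩ ⟨false,1,⟨0,[(26,0),(1,0),(15,0)]⟩,⟨5,[(0,3),(10,0),(5,0),(0,
  2),(0,2),(7,1),(14,2)]⟩⟩]⟩)) (.R ⟨1,false,false,false,[1,0,0,-1],[0,-1,1],[1,0,0,0,0,0,0,0,-1],
  (⟨0,[(25,0)]⟩,⟨0,[(26,0)]⟩),(⟨1,[(10,0),(24,0)]⟩,⟨0,[(34,0),(3,0)]⟩),⟨9,[(0,6),(4,2),(1,1),(1,2),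
  (0,3),(3,1),(10,2)]⟩,.k,.k,(.x (-1) ⟨15,[(10,3),(5,3),(6,6),(0,6),(11,1)]⟩ ⟨0,[(38,0)]⟩),(.r 0 ⟨1,
  [(4,0),(2,0),(15,0)]⟩ ⟨8,[(0,4),(0,0),(10,4),(4,1),(6,3),(1,4),(14,0)]⟩),.k,.k,⟨true,0,⟨1,[(4,0),
  (2,0),(15,0)]⟩,⟨1,[(1,0),(0,0),(14,0),(23,2)]⟩⟩,⟨false,0,⟨0,[(25,0),(5,0)]⟩,⟨0,[(8,0),(17,0)]⟩⟩,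
  ⟨true,0,⟨0,[]⟩,⟨0,[(45,0)]⟩⟩,⟨false,0,⟨5,[(0,5),(1,3),(1,0),(19,0),(14,2),(1,2)]⟩,⟨25,[(3,15),(3,
  1),(4,3),(10,4),(2,9),(0,3),(2,1),(5,0),(8,9)]⟩⟩,⟨false,1,⟨3,[(5,1),(17,0),(0,0),(11,0),(6,0)]⟩,
  ⟨0,[(41,0)]⟩⟩,⟨false,0,⟨57,[(0,57),(0,23),(2,17),(0,1),(18,16),(11,0),(2,27)]⟩,⟨2,[(3,0),(9,0),(9,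
  0),(2,1),(0,1)]⟩⟩,[.e ⟨false,1,⟨1,[(23,0),(18,0)]⟩,⟨0,[(1,0),(2,1),(0,1),(2,1),(0,1),(7,0),(0,1),
  (22,12)]⟩⟩ ⟨false,0,⟨0,[(0,0)]⟩,⟨27,[(3,11),(3,1),(0,3),(0,5),(14,5),(1,15),(3,5),(5,2),(5,2)]⟩⟩,
  .o ⟨false,1,⟨15,[(13,11),(3,7),(5,0),(0,0),(6,15),(11,1)]⟩,⟨0,[(9,0)]⟩⟩,.o ⟨false,1,⟨1,[(26,1),(9,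
  0),(5,0)]⟩,⟨3,[(0,1),(3,0),(2,0),(17,1),(2,1),(7,0)]⟩⟩,.a ⟨true,0,⟨0,[(26,0)]⟩,⟨0,[(25,0)]⟩⟩
  ⟨false,1,⟨0,[(0,0),(2,0),(37,0)]⟩,⟨2,[(2,0),(1,0),(19,0),(16,2)]⟩⟩ ⟨true,0,⟨0,[(0,0)]⟩,⟨0,[(9,0),
  (16,0)]⟩⟩]⟩))) (.I [1,1,0,0,0,0,0,0,1] (.Q [0,0,0,0,0,-1,0,0,0,0,0,1] (.ed false [1,-1,0,1] .k)
  (.R ⟨1,false,false,true,[0,0,0,1],[1,-1],[1,1,0,0,0,0,0,0,1],(⟨0,[(26,0)]⟩,⟨0,[(25,0)]⟩),(⟨0,[(37,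
  0)]⟩,⟨0,[(38,0)]⟩),⟨0,[(0,0)]⟩,.k,.k,(.r (-1) ⟨1,[(13,0),(10,0),(20,0)]⟩ ⟨2,[(2,0),(1,0),(18,
  0)]⟩),(.x 0 ⟨0,[(38,0)]⟩ ⟨15,[(10,3),(5,3),(6,6),(0,6),(11,1)]⟩),.k,.k,⟨true,0,⟨28,[(1,14),(2,8),
  (0,0),(2,1),(9,0),(5,6),(14,6)]⟩,⟨0,[(2,0),(38,0)]⟩⟩,⟨false,1,⟨1,[(26,1),(9,0),(5,0)]⟩,⟨0,[(25,
  0)]⟩⟩,⟨false,0,⟨0,[]⟩,⟨3,[(23,0),(0,0),(18,1)]⟩⟩,⟨false,1,⟨17,[(2,11),(4,1),(4,3),(0,3),(9,2),(2,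
  17),(2,3),(6,6),(4,3)]⟩,⟨0,[(1,0),(15,0),(1,1),(5,0)]⟩⟩,⟨true,0,⟨0,[(40,0)]⟩,⟨0,[(41,0)]⟩⟩,⟨false,
  1,⟨5,[(2,2),(0,0),(8,1),(5,0),(4,0),(2,4),(2,0),(6,1)]⟩,⟨0,[(1,0),(23,0),(13,0)]⟩⟩,[.a ⟨true,0,⟨0,
  [(41,0),(3,0)]⟩,⟨0,[(6,0)]⟩⟩ ⟨true,0,⟨0,[(1,0)]⟩,⟨5,[(2,3),(1,0),(18,0),(15,2),(1,2)]⟩⟩ ⟨false,1,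
  ⟨4,[(7,0),(4,3),(5,0),(7,4),(2,1),(6,0),(8,2)]⟩,⟨15,[(4,3),(0,1),(19,15),(10,0),(2,3),(3,2)]⟩⟩,.e
  ⟨false,1,⟨1,[(24,0),(17,0)]⟩,⟨0,[(2,0)]⟩⟩ ⟨false,1,⟨0,[(12,0),(5,0),(7,0),(1,0)]⟩,⟨5,[(4,1),(18,
  0),(0,0),(0,5)]⟩⟩,.o ⟨false,0,⟨0,[(18,0),(6,0),(2,1)]⟩,⟨1,[(26,1),(9,0),(5,0)]⟩⟩,.o ⟨false,0,⟨0,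
  [(25,0),(2,0),(2,0)]⟩,⟨0,[(8,0),(9,0),(7,0),(1,0)]⟩⟩]⟩) (.R ⟨1,false,false,true,[1,0,0,-1],[0,1],
  [0,1,0,-1,0,0,0,0,-1],(⟨0,[(25,0)]⟩,⟨0,[(26,0)]⟩),(⟨0,[(38,0)]⟩,⟨0,[(37,0)]⟩),⟨2,[(0,0),(9,0),(5,
  0),(8,1)]⟩,.k,.k,(.x (-1) ⟨15,[(10,3),(5,3),(6,6),(0,6),(11,1)]⟩ ⟨0,[(38,0)]⟩),(.x (-1) ⟨15,[(10,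
  3),(5,3),(6,6),(0,6),(11,1)]⟩ ⟨0,[(38,0)]⟩),(.r (-1) ⟨0,[(2,0),(10,0),(31,0)]⟩ ⟨11,[(4,7),(18,0),
  (0,6)]⟩),.k,⟨false,1,⟨0,[(2,0),(10,0),(31,0)]⟩,⟨28,[(1,16),(2,15),(0,4),(2,9),(9,4),(5,5),(14,
  5)]⟩⟩,⟨true,0,⟨0,[(25,0)]⟩,⟨0,[(18,0),(7,0),(1,1)]⟩⟩,⟨false,0,⟨0,[(41,0)]⟩,⟨3,[(5,1),(17,0),(0,0),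
  (11,0),(6,0)]⟩⟩,⟨false,0,⟨32,[(0,3),(0,14),(2,8),(0,2),(4,0),(5,0),(7,8),(0,28),(13,5)]⟩,⟨4,[(2,
  4),(9,1),(0,0),(4,0),(7,4),(9,1),(2,1),(1,0)]⟩⟩,⟨true,0,⟨0,[(45,0)]⟩,⟨0,[]⟩⟩,⟨false,0,⟨26,[(0,15),
  (0,8),(2,8),(0,11),(4,3),(5,3),(7,8),(0,10),(14,2)]⟩,⟨4,[(2,4),(9,1),(0,0),(4,0),(7,4),(9,1),(2,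
  1),(1,5)]⟩⟩,[.o ⟨false,0,⟨0,[(40,0)]⟩,⟨3,[(13,1),(14,1),(2,1),(4,0),(6,0)]⟩⟩,.a ⟨true,0,⟨9,[(6,4),
  (8,0),(5,4),(0,1),(9,0),(1,1),(2,0)]⟩,⟨0,[(41,0)]⟩⟩ ⟨true,0,⟨0,[(2,0),(38,0)]⟩,⟨28,[(1,14),(2,8),
  (0,0),(2,1),(9,0),(5,6),(14,6)]⟩⟩ ⟨false,0,⟨8,[(0,3),(4,2),(4,0),(5,0),(8,4),(14,2)]⟩,⟨1,[(13,0),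
  (12,1),(9,0),(8,0)]⟩⟩,.o ⟨false,1,⟨1,[(26,1),(9,0),(5,0)]⟩,⟨6,[(0,4),(9,1),(3,0),(10,1),(2,1),(2,
  3)]⟩⟩,.e ⟨false,1,⟨1,[(13,0),(9,0),(21,0)]⟩,⟨0,[(1,0),(15,0),(1,1)]⟩⟩ ⟨false,0,⟨8,[(0,3),(4,2),(4,
  0),(5,0),(8,4),(14,2)]⟩,⟨3,[(13,1),(12,3),(1,1),(2,1),(4,0),(6,0)]⟩⟩]⟩)) (.Q [0,1,1,0,0,0,0,0,1,0,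
  0,-1] (.p false [0,0,0,1] [] (⟨0,[(25,0)]⟩,⟨0,[(24,0)]⟩) .k 0 (⟨0,[]⟩,⟨0,[]⟩) .k .k) (.Q [0,1,-1,
  0,0,0,0,0,-1,0,0,1] (.p true [0,0,0,1] [] (⟨0,[(26,0)]⟩,⟨0,[(25,0)]⟩) .k 0 (⟨0,[]⟩,⟨0,[]⟩) .k .k)
  (.K ⟨0,[0,0,0,1],0,0,(⟨0,[(27,0)]⟩,⟨0,[(26,0)]⟩),.k,(.r (-1) ⟨1,[(14,0),(10,0),(20,0)]⟩ ⟨2,[(3,0),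
  (1,0),(18,0)]⟩),(.x 0 ⟨0,[(39,0)]⟩ ⟨15,[(11,3),(5,3),(6,6),(0,6),(11,1)]⟩),.k,.k,[⟨0,[(27,0)]⟩,⟨0,
  [(26,0)]⟩,⟨0,[(0,0)]⟩,⟨0,[(1,0)]⟩]⟩) (.Q [0,0,0,0,0,-1,0,0,0,1,0,-1] (.ed true [0,1,0,1] .k) (.R
  ⟨1,false,false,true,[1,0,0,-1],[0,1],[1,0,0,0,0,0,0,0,-1],(⟨0,[(27,0)]⟩,⟨0,[(28,0)]⟩),(⟨0,[(40,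
  0)]⟩,⟨0,[(39,0)]⟩),⟨0,[(0,0)]⟩,.k,.k,(.x (-1) ⟨15,[(12,3),(5,3),(6,6),(0,6),(11,1)]⟩ ⟨0,[(40,
  0)]⟩),(.x (-1) ⟨15,[(12,3),(5,3),(6,6),(0,6),(11,1)]⟩ ⟨0,[(40,0)]⟩),(.r (-1) ⟨0,[(4,0),(10,0),(31,
  0)]⟩ ⟨11,[(6,7),(18,0),(0,6)]⟩),.k,⟨false,1,⟨1,[(3,0),(0,0),(10,0),(28,0)]⟩,⟨5,[(1,0),(0,2),(3,0),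
  (4,0),(8,0),(2,1),(2,0),(1,3),(2,0)]⟩⟩,⟨true,0,⟨0,[(27,0)]⟩,⟨0,[(20,0),(7,0),(1,1)]⟩⟩,⟨true,0,⟨0,
  []⟩,⟨0,[(47,0)]⟩⟩,⟨false,0,⟨0,[(2,0),(5,0)]⟩,⟨1,[(3,0),(0,0),(10,0),(12,1),(9,0)]⟩⟩,⟨false,1,⟨3,
  [(7,1),(17,0),(0,0),(11,0),(6,0)]⟩,⟨0,[(43,0)]⟩⟩,⟨false,0,⟨0,[(2,0),(4,0)]⟩,⟨1,[(3,0),(0,0),(10,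
  0),(12,1),(9,0),(4,1)]⟩⟩,[.o ⟨false,0,⟨0,[(42,0)]⟩,⟨3,[(15,1),(14,1),(2,1),(4,0),(6,0)]⟩⟩,.a
  ⟨true,0,⟨9,[(8,4),(8,0),(5,4),(0,1),(9,0),(1,1),(2,0)]⟩,⟨0,[(43,0)]⟩⟩ ⟨true,0,⟨0,[(3,0)]⟩,⟨0,[(2,
  0),(25,0)]⟩⟩ ⟨false,0,⟨1,[(1,0),(1,0),(16,0),(2,1),(3,0)]⟩,⟨1,[(15,0),(12,1),(9,0),(8,0)]⟩⟩,.o
  ⟨false,1,⟨1,[(28,1),(9,0),(5,0)]⟩,⟨0,[(2,0),(0,0)]⟩⟩,.e ⟨false,1,⟨13,[(3,3),(3,1),(2,3),(4,1),(4,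
  1),(4,4),(19,2)]⟩,⟨1,[(1,0),(0,0),(25,1)]⟩⟩ ⟨false,0,⟨1,[(1,0),(1,0),(16,0),(2,1),(3,0)]⟩,⟨3,[(15,
  1),(12,3),(1,1),(2,1),(4,0),(6,0)]⟩⟩]⟩) (.R ⟨0,false,false,true,[1,0,0,-1],[0,1],[1,0,0,0,0,0,0,0,
  -1],(⟨0,[(27,0)]⟩,⟨0,[(28,0)]⟩),(⟨0,[(40,0)]⟩,⟨0,[(39,0)]⟩),⟨0,[(0,0)]⟩,.k,.k,(.x (-1) ⟨15,[(12,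
  3),(5,3),(6,6),(0,6),(11,1)]⟩ ⟨0,[(40,0)]⟩),(.x (-1) ⟨15,[(12,3),(5,3),(6,6),(0,6),(11,1)]⟩ ⟨0,
  [(40,0)]⟩),.k,.k,⟨false,1,⟨1,[(3,0),(0,0),(10,0),(28,0)]⟩,⟨14,[(0,3),(1,8),(3,2),(5,0),(5,0),(1,
  2),(2,5),(2,2),(1,4)]⟩⟩,⟨true,0,⟨0,[(27,0)]⟩,⟨6,[(0,4),(11,1),(3,0),(11,1),(1,1),(2,3)]⟩⟩,⟨true,0,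
  ⟨0,[]⟩,⟨0,[(47,0)]⟩⟩,⟨false,0,⟨0,[(2,0),(5,0)]⟩,⟨11,[(0,7),(2,5),(8,1),(2,5),(2,1),(6,2),(2,3),(9,
  2)]⟩⟩,⟨false,0,⟨0,[]⟩,⟨0,[]⟩⟩,⟨false,0,⟨0,[]⟩,⟨0,[]⟩⟩,[.o ⟨false,0,⟨0,[(42,0)]⟩,⟨3,[(15,1),(14,1),
  (2,1),(4,0),(6,0)]⟩⟩,.a ⟨true,0,⟨9,[(8,4),(8,0),(5,4),(0,1),(9,0),(1,1),(2,0)]⟩,⟨0,[(43,0)]⟩⟩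
  ⟨true,0,⟨0,[(3,0)]⟩,⟨0,[(2,0),(25,0)]⟩⟩ ⟨false,0,⟨1,[(1,0),(1,0),(16,0),(2,1),(3,0)]⟩,⟨1,[(15,0),
  (12,1),(9,0),(8,0)]⟩⟩,.o ⟨false,1,⟨1,[(28,1),(9,0),(5,0)]⟩,⟨0,[(2,0),(0,0)]⟩⟩,.e ⟨false,1,⟨13,[(3,
  3),(3,1),(2,3),(4,1),(4,1),(4,4),(19,2)]⟩,⟨1,[(1,0),(0,0),(25,1)]⟩⟩ ⟨false,0,⟨1,[(1,0),(1,0),(16,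
  0),(2,1),(3,0)]⟩,⟨3,[(15,1),(12,3),(1,1),(2,1),(4,0),(6,0)]⟩⟩]⟩))) (.Q [0,0,0,1,0,0,-1,-1,0,-1,1,
  1] (.p true [0,0,1] [1,0,0,-1] (⟨0,[(35,0)]⟩,⟨0,[(34,0)]⟩) .k 2 (⟨0,[(25,0)]⟩,⟨0,[(26,0)]⟩) .k
  (.r (-1) ⟨7,[(13,1),(3,3),(5,0),(0,4),(20,1)]⟩ ⟨5,[(2,3),(1,0),(2,2),(15,0)]⟩)) (.Q [0,1,1,-1,0,0,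
  0,0,1,0,0,-1] (.p false [0,0,0,1] [] (⟨0,[(27,0)]⟩,⟨0,[(26,0)]⟩) .k 0 (⟨0,[]⟩,⟨0,[]⟩) .k .k) (.R
  ⟨2,false,false,true,[0,1],[0,0,0,1],[1],(⟨0,[]⟩,⟨0,[]⟩),(⟨0,[(28,0)]⟩,⟨0,[(27,0)]⟩),⟨0,[]⟩,.k,.k,
  .k,(.r 0 ⟨2,[(4,0),(1,0),(18,0)]⟩ ⟨1,[(15,0),(10,0),(20,0)]⟩),.k,.k,⟨true,0,⟨0,[(3,0)]⟩,⟨9,[(0,7),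
  (0,1),(4,0),(12,0),(0,1),(2,1),(2,0),(1,5)]⟩⟩,⟨false,0,⟨6,[(0,5),(2,5),(2,1),(3,1),(9,0),(6,0)]⟩,
  ⟨0,[(28,0),(15,0)]⟩⟩,⟨false,1,⟨7,[(15,3),(9,0),(0,0),(18,1)]⟩,⟨5,[(6,1),(18,0),(0,0)]⟩⟩,⟨true,0,
  ⟨0,[(0,0)]⟩,⟨0,[(2,0),(39,0)]⟩⟩,⟨false,1,⟨1,[(44,0),(0,0)]⟩,⟨1,[(33,0),(0,0)]⟩⟩,⟨false,1,⟨23,[(0,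
  11),(5,3),(18,4),(0,10),(0,11),(10,5),(6,5)]⟩,⟨0,[(2,0)]⟩⟩,[.e ⟨true,0,⟨0,[]⟩,⟨1,[(33,0),(0,0)]⟩⟩
  ⟨true,0,⟨5,[(0,5),(5,1),(18,0),(0,0)]⟩,⟨0,[(2,0)]⟩⟩,.a ⟨true,0,⟨0,[(0,0),(7,0)]⟩,⟨0,[(2,0),(44,
  0)]⟩⟩ ⟨false,1,⟨1,[(44,0),(0,0)]⟩,⟨0,[(47,0)]⟩⟩ ⟨true,0,⟨13,[(0,11),(5,3),(19,0),(0,1),(10,0),(2,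
  3),(3,1)]⟩,⟨0,[(2,0),(44,0)]⟩⟩,.o ⟨false,1,⟨3,[(25,0),(0,0),(17,1)]⟩,⟨0,[(20,0),(9,1)]⟩⟩,.e
  ⟨false,1,⟨1,[(44,0),(0,0)]⟩,⟨1,[(33,0),(0,0)]⟩⟩ ⟨false,1,⟨23,[(0,11),(5,3),(18,4),(0,10),(0,11),
  (10,5),(6,5)]⟩,⟨0,[(2,0)]⟩⟩]⟩) (.Q [0,0,0,0,0,-1,0,0,0,1,0,-1] (.ed true [0,1,0,1] .k) (.I [1,1,1,
  1,-1,0,0,-1,-1] (.I [1,0,-1,0,0,0,0,0,-1] (.R ⟨1,false,false,false,[1,0,0,-1],[0,-1,1],[1,1,0,0,0,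
  0,0,0,-1],(⟨0,[(30,0)]⟩,⟨0,[(31,0)]⟩),(⟨1,[(15,0),(24,0)]⟩,⟨0,[(39,0),(3,0)]⟩),⟨0,[(2,0)]⟩,.k,.k,
  (.x (-1) ⟨15,[(15,3),(5,3),(6,6),(0,6),(11,1)]⟩ ⟨0,[(43,0)]⟩),(.x (-1) ⟨0,[(13,0),(25,0),(3,0)]⟩
  ⟨1,[(15,0),(20,2),(0,0),(2,0)]⟩),.k,.k,⟨true,(-1),⟨0,[(1,0)]⟩,⟨5,[(18,1),(3,2),(6,2),(14,0),(1,4),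
  (1,0)]⟩⟩,⟨false,0,⟨0,[(30,0),(5,0)]⟩,⟨0,[(13,0),(17,0)]⟩⟩,⟨false,0,⟨0,[]⟩,⟨3,[(28,0),(0,0),(18,
  1)]⟩⟩,⟨false,1,⟨5,[(18,1),(3,2),(6,2),(0,5),(5,5),(7,0),(1,4),(1,0)]⟩,⟨0,[(5,0),(8,0)]⟩⟩,⟨true,0,
  ⟨0,[(45,0)]⟩,⟨0,[(46,0)]⟩⟩,⟨false,1,⟨23,[(18,5),(3,11),(4,1),(1,11),(0,23),(5,19),(4,0),(2,3),(3,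
  4)]⟩,⟨0,[(5,0),(26,0)]⟩⟩,[.a ⟨true,0,⟨3,[(20,0),(1,1),(0,0),(15,1),(2,0),(3,5)]⟩,⟨4,[(12,0),(3,2),
  (2,0),(20,1),(2,0)]⟩⟩ ⟨false,0,⟨0,[(0,0),(49,0)]⟩,⟨1,[(29,0),(18,0)]⟩⟩ ⟨true,0,⟨3,[(22,0),(7,3),
  (3,1),(1,1),(7,0),(1,4)]⟩,⟨0,[(4,0)]⟩⟩,.o ⟨false,1,⟨15,[(18,11),(3,7),(5,0),(0,0),(6,15),(11,1)]⟩,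
  ⟨0,[(14,0)]⟩⟩,.o ⟨false,1,⟨1,[(31,1),(9,0),(5,0)]⟩,⟨0,[(23,0),(6,0),(2,1)]⟩⟩,.e ⟨false,0,⟨0,[(0,
  0)]⟩,⟨1,[(29,0),(6,0),(0,0),(10,0)]⟩⟩ ⟨false,1,⟨15,[(18,11),(3,7),(5,0),(0,0),(0,15),(5,15),(11,
  1)]⟩,⟨0,[(4,0)]⟩⟩]⟩) (.Q [0,0,1,2,0,0,0,0,1,1,0,-1] (.p false [0,0,0,1] [1] (⟨0,[(31,0)]⟩,⟨0,[(30,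
  0)]⟩) .k 1 (⟨0,[]⟩,⟨0,[]⟩) .k .k) (.Q [0,0,0,1,0,0,0,0,0,1,0,-1] (.p false [0,0,0,1] [1] (⟨0,[(32,
  0)]⟩,⟨0,[(31,0)]⟩) .k 1 (⟨0,[]⟩,⟨0,[]⟩) .k .k) (.R ⟨1,false,false,true,[1,0,0,-1],[0,1],[1,0,0,0,
  0,0,0,0,-1],(⟨0,[(32,0)]⟩,⟨0,[(33,0)]⟩),(⟨0,[(45,0)]⟩,⟨0,[(44,0)]⟩),⟨0,[(4,0)]⟩,.k,.k,(.x (-1)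
  ⟨15,[(17,3),(5,3),(6,6),(0,6),(11,1)]⟩ ⟨0,[(45,0)]⟩),(.x (-1) ⟨15,[(17,3),(5,3),(6,6),(0,6),(11,
  1)]⟩ ⟨0,[(45,0)]⟩),(.r (-1) ⟨0,[(9,0),(10,0),(31,0)]⟩ ⟨11,[(11,7),(18,0),(0,6)]⟩),.k,⟨false,1,⟨5,
  [(7,0),(0,1),(0,0),(5,1),(4,2),(4,0),(4,0),(1,0)]⟩,⟨0,[(2,0),(44,0)]⟩⟩,⟨true,0,⟨0,[(32,0)]⟩,⟨2,
  [(6,1),(26,0),(1,0),(0,1),(1,0),(7,0),(1,1)]⟩⟩,⟨true,0,⟨0,[]⟩,⟨0,[(52,0)]⟩⟩,⟨false,0,⟨1,[(1,0),(0,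
  0),(29,0)]⟩,⟨21,[(7,11),(12,5),(9,4),(2,9),(9,10),(2,1),(1,9)]⟩⟩,⟨false,1,⟨17,[(1,3),(8,3),(13,1),
  (0,1),(4,2),(0,2),(11,0),(6,6)]⟩,⟨0,[(48,0)]⟩⟩,⟨false,0,⟨0,[(1,0)]⟩,⟨21,[(7,11),(12,5),(9,4),(2,
  9),(9,10),(2,1),(1,31)]⟩⟩,[.o ⟨false,0,⟨0,[(47,0)]⟩,⟨3,[(20,1),(14,1),(2,1),(4,0),(6,0)]⟩⟩,.a
  ⟨true,0,⟨26,[(1,1),(9,0),(1,9),(8,4),(5,9),(1,0),(2,1),(7,9),(2,4)]⟩,⟨0,[(48,0)]⟩⟩ ⟨true,0,⟨0,[(8,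
  0)]⟩,⟨0,[(2,0),(49,0)]⟩⟩ ⟨false,0,⟨0,[(0,0)]⟩,⟨1,[(20,0),(12,1),(9,0),(8,0)]⟩⟩,.o ⟨false,1,⟨1,
  [(33,1),(9,0),(5,0)]⟩,⟨0,[(25,0),(6,0),(2,1)]⟩⟩,.e ⟨false,1,⟨31,[(0,3),(4,3),(2,5),(6,7),(4,3),(4,
  3),(4,10),(19,8)]⟩,⟨0,[(2,0)]⟩⟩ ⟨false,0,⟨0,[(0,0)]⟩,⟨3,[(20,1),(12,3),(1,1),(2,1),(4,0),(6,
  0)]⟩⟩]⟩) (.R ⟨1,false,false,true,[1,0,0,-1],[0,1],[1,0,0,0,0,0,0,0,-1],(⟨0,[(32,0)]⟩,⟨0,[(33,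
  0)]⟩),(⟨0,[(45,0)]⟩,⟨0,[(44,0)]⟩),⟨0,[(4,0)]⟩,.k,.k,(.x (-1) ⟨15,[(17,3),(5,3),(6,6),(0,6),(11,
  1)]⟩ ⟨0,[(45,0)]⟩),(.x (-1) ⟨15,[(17,3),(5,3),(6,6),(0,6),(11,1)]⟩ ⟨0,[(45,0)]⟩),(.r (-1) ⟨0,[(9,
  0),(10,0),(31,0)]⟩ ⟨11,[(11,7),(18,0),(0,6)]⟩),.k,⟨false,1,⟨5,[(7,0),(0,1),(0,0),(5,1),(4,2),(4,
  0),(4,0),(1,0)]⟩,⟨0,[(2,0),(44,0)]⟩⟩,⟨true,0,⟨0,[(32,0)]⟩,⟨5,[(0,5),(10,1),(18,0),(0,0)]⟩⟩,⟨true,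
  0,⟨0,[]⟩,⟨0,[(52,0)]⟩⟩,⟨false,0,⟨1,[(1,0),(0,0),(29,0)]⟩,⟨15,[(0,7),(6,7),(12,3),(9,4),(0,0),(11,
  3),(6,1)]⟩⟩,⟨false,1,⟨17,[(1,3),(8,3),(13,1),(0,1),(4,2),(0,2),(11,0),(6,6)]⟩,⟨0,[(48,0)]⟩⟩,
  ⟨false,0,⟨0,[(1,0)]⟩,⟨25,[(0,23),(6,1),(0,1),(11,13),(9,10),(12,0),(2,3)]⟩⟩,[.o ⟨false,0,⟨0,[(47,
  0)]⟩,⟨3,[(20,1),(14,1),(2,1),(4,0),(6,0)]⟩⟩,.e ⟨true,0,⟨0,[(8,0)]⟩,⟨0,[(2,0),(49,0)]⟩⟩ ⟨true,0,⟨4,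
  [(1,0),(0,0),(8,0),(18,0),(1,3)]⟩,⟨0,[(0,0)]⟩⟩,.o ⟨false,1,⟨11,[(0,7),(9,3),(19,0),(0,2),(4,3),
  (12,3)]⟩,⟨0,[(25,0),(6,0),(2,1)]⟩⟩,.a ⟨true,0,⟨0,[(33,0)]⟩,⟨0,[(32,0)]⟩⟩ ⟨false,1,⟨13,[(8,3),(3,
  1),(2,3),(4,1),(4,1),(4,4),(19,2)]⟩,⟨0,[(2,0)]⟩⟩ ⟨true,0,⟨0,[(32,0),(14,0)]⟩,⟨0,[(0,0)]⟩⟩]⟩)) (.I
  [0,0,-1,-1,0,0,0,0,-1] (.R ⟨1,false,false,false,[1,0,0,-1],[0,-1,1],[0,1,0,-1,0,0,0,0,-1],(⟨0,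
  [(32,0)]⟩,⟨0,[(33,0)]⟩),(⟨1,[(17,0),(24,0)]⟩,⟨0,[(41,0),(3,0)]⟩),⟨0,[(4,0)]⟩,.k,.k,(.x (-1) ⟨15,
  [(17,3),(5,3),(6,6),(0,6),(11,1)]⟩ ⟨0,[(45,0)]⟩),(.r 0 ⟨1,[(11,0),(2,0),(15,0)]⟩ ⟨1,[(2,1),(16,0),
  (0,0),(3,0),(0,0),(2,0),(19,0)]⟩),.k,.k,⟨true,(-1),⟨0,[(3,0),(44,0)]⟩,⟨39,[(12,0),(2,1),(4,10),(3,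
  19),(0,0),(5,19),(14,6),(3,6)]⟩⟩,⟨false,0,⟨0,[(32,0),(5,0)]⟩,⟨0,[(15,0),(17,0)]⟩⟩,⟨false,0,⟨0,
  [(48,0)]⟩,⟨3,[(12,1),(17,0),(0,0),(11,0),(6,0)]⟩⟩,⟨false,1,⟨15,[(2,15),(17,11),(3,7),(5,0),(0,0),
  (0,15),(5,15),(11,1)]⟩,⟨0,[(7,0),(8,0)]⟩⟩,⟨true,0,⟨0,[(52,0)]⟩,⟨0,[]⟩⟩,⟨false,1,⟨23,[(20,5),(3,
  11),(4,1),(1,11),(0,23),(5,19),(4,0),(2,3),(3,4)]⟩,⟨0,[(7,0),(26,0)]⟩⟩,[.a ⟨true,0,⟨3,[(22,0),(1,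
  1),(0,0),(15,1),(2,0),(3,5)]⟩,⟨4,[(14,0),(3,2),(2,0),(20,1),(2,0)]⟩⟩ ⟨false,0,⟨0,[(0,0),(51,0)]⟩,
  ⟨3,[(12,1),(18,1),(11,0),(6,0)]⟩⟩ ⟨true,0,⟨3,[(24,0),(7,3),(3,1),(1,1),(7,0),(1,4)]⟩,⟨0,[(6,0)]⟩⟩,
  .o ⟨false,1,⟨15,[(20,11),(3,7),(5,0),(0,0),(6,15),(11,1)]⟩,⟨0,[(16,0)]⟩⟩,.o ⟨false,1,⟨1,[(33,1),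
  (9,0),(5,0)]⟩,⟨0,[(25,0),(6,0),(2,1)]⟩⟩,.e ⟨false,0,⟨0,[(0,0)]⟩,⟨5,[(11,1),(18,0),(0,3),(18,2)]⟩⟩
  ⟨false,1,⟨15,[(20,11),(3,7),(5,0),(0,0),(0,15),(5,15),(11,1)]⟩,⟨0,[(6,0)]⟩⟩]⟩) (.R ⟨1,true,false,
  true,[1,-1],[0,0,0,1],[1,0,-1,-1],(⟨0,[(44,0)]⟩,⟨0,[(45,0)]⟩),(⟨0,[(33,0)]⟩,⟨0,[(32,0)]⟩),⟨2,[(17,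
  0),(5,0),(20,1)]⟩,.k,.k,(.r (-1) ⟨0,[(20,0),(31,0)]⟩ ⟨2,[(11,1),(18,0),(0,0)]⟩),(.x (-1) ⟨15,[(17,
  3),(5,3),(6,6),(0,6),(11,1)]⟩ ⟨0,[(45,0)]⟩),(.r (-1) ⟨3,[(1,1),(18,1),(9,0),(1,1),(16,0),(2,1)]⟩
  ⟨11,[(11,7),(18,0),(0,6)]⟩),.k,⟨false,1,⟨39,[(1,1),(5,6),(0,14),(6,13),(4,17),(4,6),(4,7),(1,8)]⟩,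
  ⟨0,[(2,0),(44,0)]⟩⟩,⟨true,0,⟨0,[(32,0)]⟩,⟨7,[(1,2),(0,2),(8,1),(21,4),(1,0),(2,0),(4,1)]⟩⟩,⟨true,
  0,⟨0,[]⟩,⟨0,[(52,0)]⟩⟩,⟨false,0,⟨0,[(0,0),(31,0)]⟩,⟨19,[(1,5),(5,5),(12,3),(9,3),(2,7),(9,6),(6,
  4)]⟩⟩,⟨false,1,⟨3,[(12,1),(17,0),(0,0),(11,0),(6,0)]⟩,⟨0,[(48,0)]⟩⟩,⟨true,0,⟨0,[(0,0),(31,0),(14,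
  0)]⟩,⟨0,[(1,0)]⟩⟩,[]⟩)))) (.K ⟨1,[1,-1,0,-1],0,0,(⟨0,[(1,0)]⟩,⟨0,[(30,0),(11,0)]⟩),(.x (-1) ⟨15,
  [(14,3),(5,3),(6,6),(0,6),(11,1)]⟩ ⟨0,[(42,0)]⟩),(.r (-1) ⟨0,[(6,0),(10,0),(31,0)]⟩ ⟨11,[(8,7),
  (18,0),(0,6)]⟩),.k,.k,.k,[⟨1,[(29,1),(5,0),(0,0)]⟩,⟨2,[(3,1),(26,0),(1,0),(0,1),(1,0),(7,0),(1,
  1)]⟩,⟨0,[(0,0),(7,0),(2,0),(13,0),(3,0),(3,0),(11,0)]⟩,⟨0,[(4,0),(40,0)]⟩]⟩)) (.Q [0,1,1,0,0,0,1,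
  1,1,1,-1,-1] (.p false [0,0,1] [1,0,0,-1] (⟨0,[(38,0)]⟩,⟨0,[(37,0)]⟩) .k 2 (⟨0,[(28,0)]⟩,⟨0,[(29,
  0)]⟩) .k (.r (-1) ⟨7,[(16,1),(3,3),(5,0),(0,4),(20,1)]⟩ ⟨5,[(5,3),(1,0),(2,2),(15,0)]⟩)) (.R ⟨0,
  false,false,true,[1,0,0,-1],[0,0,1],[1,1],(⟨0,[(29,0)]⟩,⟨0,[(30,0)]⟩),(⟨0,[(39,0)]⟩,⟨0,[(38,0)]⟩),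
  ⟨0,[(1,0)]⟩,.k,.k,(.x (-1) ⟨15,[(14,3),(5,3),(6,6),(0,6),(11,1)]⟩ ⟨0,[(42,0)]⟩),.k,.k,.k,⟨true,0,
  ⟨11,[(8,1),(2,5),(15,0),(0,0)]⟩,⟨3,[(21,1),(13,0),(0,0),(8,1)]⟩⟩,⟨false,0,⟨0,[(22,0),(6,0),(2,
  0)]⟩,⟨5,[(12,3),(14,0),(0,0),(1,5),(1,1)]⟩⟩,⟨false,1,⟨3,[(27,0),(0,2)]⟩,⟨0,[(5,0)]⟩⟩,⟨true,0,⟨0,
  [(0,0)]⟩,⟨0,[(4,0),(26,0)]⟩⟩,⟨false,0,⟨0,[]⟩,⟨0,[]⟩⟩,⟨false,0,⟨0,[]⟩,⟨0,[]⟩⟩,[.o ⟨false,0,⟨0,[(33,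
  0)]⟩,⟨0,[(31,0),(15,0)]⟩⟩,.e ⟨true,0,⟨0,[]⟩,⟨1,[(35,0),(0,0)]⟩⟩ ⟨true,0,⟨0,[(0,0),(4,0)]⟩,⟨0,[(3,
  0),(41,0)]⟩⟩,.o ⟨false,1,⟨1,[(30,1),(9,0),(5,0)]⟩,⟨0,[(22,0),(6,0),(2,1)]⟩⟩,.a ⟨true,0,⟨0,[(30,
  0)]⟩,⟨0,[(29,0)]⟩⟩ ⟨false,1,⟨3,[(27,0),(0,0),(17,1)]⟩,⟨3,[(35,0),(0,0),(6,1)]⟩⟩ ⟨true,0,⟨0,[(29,
  0),(3,0)]⟩,⟨0,[(3,0),(41,0)]⟩⟩]⟩) (.Q [0,-1,-1,2,0,0,-1,-1,-1,-1,1,1] (.p true [0,0,1] [1,0,0,-1]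
  (⟨0,[(39,0)]⟩,⟨0,[(38,0)]⟩) .k 2 (⟨0,[(29,0)]⟩,⟨0,[(30,0)]⟩) .k (.r (-1) ⟨7,[(17,1),(3,3),(5,0),
  (0,4),(20,1)]⟩ ⟨5,[(6,3),(1,0),(2,2),(15,0)]⟩)) (.I [0,1,-1,-1,0,0,0,1,-1] (.R ⟨0,false,false,
  false,[1,0,0,-1],[0,-1,1],[0,1,0,0,0,0,0,0,-1],(⟨0,[(31,0)]⟩,⟨0,[(32,0)]⟩),(⟨1,[(16,0),(24,0)]⟩,
  ⟨0,[(40,0),(3,0)]⟩),⟨0,[(3,0)]⟩,.k,.k,(.x (-1) ⟨15,[(16,3),(5,3),(6,6),(0,6),(11,1)]⟩ ⟨0,[(44,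
  0)]⟩),(.x (-1) ⟨0,[(14,0),(25,0),(3,0)]⟩ ⟨1,[(16,0),(20,2),(0,0),(2,0)]⟩),.k,.k,⟨true,(-1),⟨0,[(0,
  0),(9,0),(2,0)]⟩,⟨5,[(19,1),(3,2),(6,2),(14,0),(1,4),(1,0)]⟩⟩,⟨false,0,⟨0,[(31,0),(5,0)]⟩,⟨0,[(14,
  0),(17,0)]⟩⟩,⟨true,0,⟨0,[(51,0)]⟩,⟨0,[]⟩⟩,⟨false,1,⟨5,[(19,1),(3,2),(6,2),(0,5),(5,5),(7,0),(1,4),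
  (1,0)]⟩,⟨45,[(0,19),(0,21),(3,23),(4,1),(2,8),(1,0),(8,0),(4,1),(6,0)]⟩⟩,⟨false,0,⟨0,[]⟩,⟨0,[]⟩⟩,
  ⟨false,0,⟨0,[]⟩,⟨0,[]⟩⟩,[.a ⟨true,0,⟨3,[(21,0),(1,1),(0,0),(15,1),(2,0),(3,5)]⟩,⟨4,[(13,0),(3,2),
  (2,0),(20,1),(2,0)]⟩⟩ ⟨false,0,⟨13,[(0,9),(0,1),(8,0),(2,0),(1,3),(8,3),(4,0),(1,1),(4,1)]⟩,⟨1,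
  [(30,0),(18,0)]⟩⟩ ⟨true,0,⟨3,[(23,0),(7,3),(3,1),(1,1),(7,0),(1,4)]⟩,⟨0,[(5,0)]⟩⟩,.o ⟨false,1,⟨15,
  [(19,11),(3,7),(5,0),(0,0),(6,15),(11,1)]⟩,⟨0,[(15,0)]⟩⟩,.o ⟨false,1,⟨1,[(32,1),(9,0),(5,0)]⟩,⟨0,
  [(24,0),(6,0),(2,1)]⟩⟩,.e ⟨false,0,⟨3,[(0,2),(0,0),(13,0),(8,0),(0,0),(5,0),(13,0)]⟩,⟨1,[(30,0),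
  (6,0),(0,0),(10,0)]⟩⟩ ⟨false,1,⟨15,[(19,11),(3,7),(5,0),(0,0),(0,15),(5,15),(11,1)]⟩,⟨0,[(5,
  0)]⟩⟩]⟩) (.I [0,1,1,1,-1,0,0,-1,-1] (.R ⟨0,false,false,false,[1,0,0,-1],[0,-1,1],[0,1,0,0,0,0,0,0,
  -1],(⟨0,[(32,0)]⟩,⟨0,[(33,0)]⟩),(⟨1,[(17,0),(24,0)]⟩,⟨0,[(41,0),(3,0)]⟩),⟨0,[(4,0)]⟩,.k,.k,(.x
  (-1) ⟨15,[(17,3),(5,3),(6,6),(0,6),(11,1)]⟩ ⟨0,[(45,0)]⟩),(.r 0 ⟨1,[(0,0),(0,0),(28,0)]⟩ ⟨0,[(1,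
  0),(17,0),(4,0),(0,0),(2,0),(19,2)]⟩),.k,.k,⟨true,(-1),⟨0,[(0,0)]⟩,⟨5,[(20,1),(3,2),(6,2),(14,0),
  (1,4),(1,0)]⟩⟩,⟨false,0,⟨0,[(32,0),(5,0)]⟩,⟨0,[(15,0),(17,0)]⟩⟩,⟨true,0,⟨0,[(52,0)]⟩,⟨0,[]⟩⟩,
  ⟨false,1,⟨5,[(20,1),(3,2),(6,2),(0,5),(5,5),(7,0),(1,4),(1,0)]⟩,⟨1,[(2,0),(0,0),(48,1)]⟩⟩,⟨false,
  0,⟨0,[]⟩,⟨0,[]⟩⟩,⟨false,0,⟨0,[]⟩,⟨0,[]⟩⟩,[.a ⟨true,0,⟨3,[(22,0),(1,1),(0,0),(15,1),(2,0),(3,5)]⟩,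
  ⟨3,[(1,0),(1,0),(14,0),(9,0),(3,0),(4,0)]⟩⟩ ⟨false,0,⟨1,[(0,0),(6,0),(11,0),(12,0),(3,0),(15,0)]⟩,
  ⟨1,[(31,0),(18,0)]⟩⟩ ⟨true,0,⟨3,[(24,0),(7,3),(3,1),(1,1),(7,0),(1,4)]⟩,⟨0,[(6,0)]⟩⟩,.o ⟨false,1,
  ⟨15,[(20,11),(3,7),(5,0),(0,0),(6,15),(11,1)]⟩,⟨0,[(16,0)]⟩⟩,.o ⟨false,1,⟨1,[(33,1),(9,0),(5,0)]⟩,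
  ⟨0,[(25,0),(6,0),(2,1)]⟩⟩,.e ⟨false,0,⟨0,[(3,0),(28,0),(3,0)]⟩,⟨1,[(31,0),(6,0),(0,0),(10,0)]⟩⟩
  ⟨false,1,⟨15,[(20,11),(3,7),(5,0),(0,0),(0,15),(5,15),(11,1)]⟩,⟨0,[(6,0)]⟩⟩]⟩) (.Q [0,0,0,-1,0,0,
  0,0,0,-1,0,1] (.p true [0,0,0,1] [1] (⟨0,[(33,0)]⟩,⟨0,[(32,0)]⟩) .k 1 (⟨0,[]⟩,⟨0,[]⟩) .k .k) (.R
  ⟨0,false,false,true,[1,0,0,-1],[0,1],[1,1],(⟨0,[(33,0)]⟩,⟨0,[(34,0)]⟩),(⟨0,[(46,0)]⟩,⟨0,[(45,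
  0)]⟩),⟨0,[(5,0)]⟩,.k,.k,(.x (-1) ⟨15,[(18,3),(5,3),(6,6),(0,6),(11,1)]⟩ ⟨0,[(46,0)]⟩),(.x (-1)
  ⟨15,[(18,3),(5,3),(6,6),(0,6),(11,1)]⟩ ⟨0,[(46,0)]⟩),.k,.k,⟨false,1,⟨1,[(21,0),(28,0),(2,0)]⟩,⟨5,
  [(12,1),(18,0),(0,0)]⟩⟩,⟨true,0,⟨0,[(33,0)]⟩,⟨5,[(0,5),(11,1),(18,0),(0,0)]⟩⟩,⟨false,1,⟨3,[(31,0),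
  (0,2)]⟩,⟨0,[(9,0)]⟩⟩,⟨true,0,⟨0,[(2,0),(26,0),(3,0),(3,0),(11,0)]⟩,⟨0,[(4,0),(32,0),(11,0)]⟩⟩,
  ⟨false,0,⟨0,[]⟩,⟨0,[]⟩⟩,⟨false,0,⟨0,[]⟩,⟨0,[]⟩⟩,[.o ⟨false,0,⟨0,[(48,0)]⟩,⟨3,[(21,1),(14,1),(2,1),
  (4,0),(6,0)]⟩⟩,.e ⟨true,0,⟨0,[]⟩,⟨1,[(39,0),(0,0)]⟩⟩ ⟨true,0,⟨5,[(12,1),(18,0),(0,0),(0,5)]⟩,⟨0,
  [(0,0)]⟩⟩,.o ⟨false,1,⟨1,[(34,1),(9,0),(5,0)]⟩,⟨0,[(26,0),(6,0),(2,1)]⟩⟩,.a ⟨true,0,⟨0,[(34,0)]⟩,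
  ⟨0,[(33,0)]⟩⟩ ⟨false,1,⟨3,[(31,0),(0,0),(17,1)]⟩,⟨3,[(39,0),(0,0),(6,1)]⟩⟩ ⟨true,0,⟨0,[(33,0),(14,
  0)]⟩,⟨0,[(0,0)]⟩⟩]⟩) (.R ⟨0,false,false,true,[1,0,0,-1],[0,1],[1,1],(⟨0,[(33,0)]⟩,⟨0,[(34,0)]⟩),
  (⟨0,[(46,0)]⟩,⟨0,[(45,0)]⟩),⟨0,[(5,0)]⟩,.k,.k,(.x (-1) ⟨15,[(18,3),(5,3),(6,6),(0,6),(11,1)]⟩ ⟨0,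
  [(46,0)]⟩),(.x (-1) ⟨15,[(18,3),(5,3),(6,6),(0,6),(11,1)]⟩ ⟨0,[(46,0)]⟩),.k,.k,⟨false,1,⟨1,[(21,
  0),(28,0),(2,0)]⟩,⟨5,[(12,1),(18,0),(0,0)]⟩⟩,⟨true,0,⟨0,[(33,0)]⟩,⟨6,[(5,4),(12,1),(3,0),(11,1),
  (1,1),(2,3)]⟩⟩,⟨false,1,⟨3,[(31,0),(0,2)]⟩,⟨0,[(9,0)]⟩⟩,⟨true,0,⟨0,[(2,0),(26,0),(3,0),(3,0),(11,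
  0)]⟩,⟨0,[(4,0),(32,0),(11,0)]⟩⟩,⟨false,0,⟨0,[]⟩,⟨0,[]⟩⟩,⟨false,0,⟨0,[]⟩,⟨0,[]⟩⟩,[.o ⟨false,0,⟨0,
  [(48,0)]⟩,⟨3,[(21,1),(14,1),(2,1),(4,0),(6,0)]⟩⟩,.a ⟨true,0,⟨9,[(14,4),(8,0),(5,4),(0,1),(9,0),(1,
  1),(2,0)]⟩,⟨0,[(49,0)]⟩⟩ ⟨true,0,⟨0,[]⟩,⟨1,[(39,0),(0,0)]⟩⟩ ⟨false,0,⟨0,[(0,0)]⟩,⟨1,[(21,0),(12,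
  1),(9,0),(8,0)]⟩⟩,.o ⟨false,1,⟨1,[(34,1),(9,0),(5,0)]⟩,⟨0,[(26,0),(6,0),(2,1)]⟩⟩,.e ⟨false,1,⟨3,
  [(31,0),(0,0),(17,1)]⟩,⟨3,[(39,0),(0,0),(6,1)]⟩⟩ ⟨false,0,⟨0,[(0,0)]⟩,⟨3,[(21,1),(12,3),(1,1),(2,
  1),(4,0),(6,0)]⟩⟩]⟩)))) (.Q [0,0,0,-1,0,0,0,0,0,-1,0,1] (.p true [0,0,0,1] [1] (⟨0,[(31,0)]⟩,⟨0,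
  [(30,0)]⟩) .k 1 (⟨0,[]⟩,⟨0,[]⟩) .k .k) (.R ⟨0,false,false,true,[1,0,0,-1],[0,1],[1,1],(⟨0,[(31,
  0)]⟩,⟨0,[(32,0)]⟩),(⟨0,[(44,0)]⟩,⟨0,[(43,0)]⟩),⟨0,[(3,0)]⟩,.k,.k,(.x (-1) ⟨15,[(16,3),(5,3),(6,6),
  (0,6),(11,1)]⟩ ⟨0,[(44,0)]⟩),(.x (-1) ⟨15,[(16,3),(5,3),(6,6),(0,6),(11,1)]⟩ ⟨0,[(44,0)]⟩),.k,.k,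
  ⟨false,1,⟨1,[(19,0),(28,0),(2,0)]⟩,⟨5,[(10,1),(18,0),(0,0)]⟩⟩,⟨true,0,⟨0,[(31,0)]⟩,⟨5,[(0,5),(9,
  1),(18,0),(0,0)]⟩⟩,⟨false,1,⟨3,[(29,0),(0,2)]⟩,⟨0,[(7,0)]⟩⟩,⟨true,0,⟨0,[(1,0),(9,0),(3,0)]⟩,⟨1,
  [(1,0),(0,2),(32,1)]⟩⟩,⟨false,0,⟨0,[]⟩,⟨0,[]⟩⟩,⟨false,0,⟨0,[]⟩,⟨0,[]⟩⟩,[.o ⟨false,0,⟨0,[(46,0)]⟩,
  ⟨73,[(0,11),(0,11),(11,5),(5,15),(9,5),(4,11),(7,30),(2,13),(3,20)]⟩⟩,.e ⟨true,0,⟨0,[]⟩,⟨1,[(37,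
  0),(0,0)]⟩⟩ ⟨true,0,⟨5,[(10,1),(18,0),(0,0),(0,5)]⟩,⟨0,[(0,0)]⟩⟩,.o ⟨false,1,⟨1,[(32,1),(9,0),(5,
  0)]⟩,⟨0,[(24,0),(6,0),(2,1)]⟩⟩,.a ⟨true,0,⟨0,[(32,0)]⟩,⟨0,[(31,0)]⟩⟩ ⟨false,1,⟨3,[(29,0),(0,0),
  (17,1)]⟩,⟨3,[(37,0),(0,0),(6,1)]⟩⟩ ⟨true,0,⟨0,[(31,0),(14,0)]⟩,⟨0,[(0,0)]⟩⟩]⟩) (.R ⟨0,false,false,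
  true,[1,0,0,-1],[0,1],[1,1],(⟨0,[(31,0)]⟩,⟨0,[(32,0)]⟩),(⟨0,[(44,0)]⟩,⟨0,[(43,0)]⟩),⟨0,[(3,0)]⟩,
  .k,.k,(.x (-1) ⟨15,[(16,3),(5,3),(6,6),(0,6),(11,1)]⟩ ⟨0,[(44,0)]⟩),(.x (-1) ⟨15,[(16,3),(5,3),(6,
  6),(0,6),(11,1)]⟩ ⟨0,[(44,0)]⟩),.k,.k,⟨false,1,⟨1,[(19,0),(28,0),(2,0)]⟩,⟨5,[(10,1),(18,0),(0,
  0)]⟩⟩,⟨true,0,⟨0,[(31,0)]⟩,⟨6,[(3,4),(12,1),(3,0),(11,1),(1,1),(2,3)]⟩⟩,⟨false,1,⟨3,[(29,0),(0,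
  2)]⟩,⟨0,[(7,0)]⟩⟩,⟨true,0,⟨0,[(1,0),(9,0),(3,0)]⟩,⟨1,[(1,0),(0,2),(32,1)]⟩⟩,⟨false,0,⟨0,[]⟩,⟨0,
  []⟩⟩,⟨false,0,⟨0,[]⟩,⟨0,[]⟩⟩,[.o ⟨false,0,⟨0,[(46,0)]⟩,⟨69,[(1,11),(11,5),(5,19),(9,5),(2,11),(1,
  11),(7,34),(2,21),(3,8)]⟩⟩,.a ⟨true,0,⟨30,[(1,1),(8,0),(0,7),(0,5),(8,4),(5,9),(1,0),(2,1),(3,1),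
  (3,9),(2,4)]⟩,⟨0,[(47,0)]⟩⟩ ⟨true,0,⟨0,[]⟩,⟨1,[(37,0),(0,0)]⟩⟩ ⟨false,0,⟨0,[(0,0)]⟩,⟨1,[(19,0),
  (12,1),(9,0),(8,0)]⟩⟩,.o ⟨false,1,⟨1,[(32,1),(9,0),(5,0)]⟩,⟨0,[(24,0),(6,0),(2,1)]⟩⟩,.e ⟨false,1,
  ⟨3,[(29,0),(0,0),(17,1)]⟩,⟨3,[(37,0),(0,0),(6,1)]⟩⟩ ⟨false,0,⟨0,[(0,0)]⟩,⟨69,[(1,11),(11,5),(5,
  19),(9,5),(2,81),(1,11),(7,34),(2,21),(3,8)]⟩⟩]⟩)))))) (.I [0,1,1,0,-1,0,0,-1,-1] (.R ⟨1,false,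
  false,false,[1,0,0,-1],[0,-1,1],[0,1,0,-1,0,0,0,0,-1],(⟨0,[(27,0)]⟩,⟨0,[(28,0)]⟩),(⟨1,[(12,0),(24,
  0)]⟩,⟨0,[(36,0),(3,0)]⟩),⟨9,[(1,6),(5,2),(1,1),(1,2),(0,3),(3,1),(10,2)]⟩,.k,.k,(.x (-1) ⟨15,[(12,
  3),(5,3),(6,6),(0,6),(11,1)]⟩ ⟨0,[(40,0)]⟩),(.x (-1) ⟨0,[(10,0),(25,0),(3,0)]⟩ ⟨1,[(12,0),(20,2),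
  (0,0),(2,0)]⟩),.k,.k,⟨true,(-1),⟨0,[(0,0)]⟩,⟨39,[(7,0),(2,1),(4,10),(3,19),(0,0),(5,19),(14,6),(3,
  6)]⟩⟩,⟨false,0,⟨0,[(27,0),(5,0)]⟩,⟨0,[(10,0),(17,0)]⟩⟩,⟨false,0,⟨0,[(43,0)]⟩,⟨3,[(7,1),(17,0),(0,
  0),(11,0),(6,0)]⟩⟩,⟨false,1,⟨1,[(1,1),(24,0),(6,0),(0,0),(10,0)]⟩,⟨0,[(2,0),(8,0)]⟩⟩,⟨true,0,⟨0,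
  [(47,0)]⟩,⟨0,[]⟩⟩,⟨false,1,⟨5,[(1,5),(4,1),(18,0),(0,3),(18,2)]⟩,⟨0,[(2,0),(26,0)]⟩⟩,[.e ⟨false,0,
  ⟨1,[(0,0),(0,0),(0,0),(11,0),(32,1)]⟩,⟨3,[(7,1),(18,1),(11,0),(6,0)]⟩⟩ ⟨false,0,⟨0,[(1,0)]⟩,⟨27,
  [(5,11),(3,1),(0,3),(0,5),(14,5),(1,15),(3,5),(5,2),(5,2)]⟩⟩,.o ⟨false,1,⟨15,[(15,11),(3,7),(5,0),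
  (0,0),(6,15),(11,1)]⟩,⟨0,[(11,0)]⟩⟩,.o ⟨false,1,⟨1,[(28,1),(9,0),(5,0)]⟩,⟨3,[(1,1),(4,0),(2,0),
  (17,1),(2,1),(7,0)]⟩⟩,.a ⟨true,0,⟨0,[(28,0)]⟩,⟨0,[(27,0)]⟩⟩ ⟨false,0,⟨1,[(0,0),(0,0),(0,0),(11,
  0)]⟩,⟨5,[(6,1),(18,0),(0,3),(18,2)]⟩⟩ ⟨true,0,⟨0,[(1,0)]⟩,⟨0,[(11,0),(16,0)]⟩⟩]⟩) (.Q [0,1,1,-1,0,
  0,0,0,1,0,0,-1] (.p false [0,0,0,1] [] (⟨0,[(28,0)]⟩,⟨0,[(27,0)]⟩) .k 0 (⟨0,[]⟩,⟨0,[]⟩) .k .k)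
  (.R ⟨2,false,false,true,[0,1],[0,0,0,1],[1],(⟨0,[]⟩,⟨0,[]⟩),(⟨0,[(29,0)]⟩,⟨0,[(28,0)]⟩),⟨0,[]⟩,.k,
  .k,.k,(.r 0 ⟨2,[(5,0),(1,0),(18,0)]⟩ ⟨1,[(16,0),(10,0),(20,0)]⟩),.k,.k,⟨true,0,⟨0,[(4,0)]⟩,⟨5,[(0,
  4),(0,0),(5,0),(4,0),(8,0),(2,0),(4,4)]⟩⟩,⟨false,0,⟨5,[(0,1),(1,1),(1,1),(2,0),(4,0),(9,0),(5,1),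
  (2,0),(7,0)]⟩,⟨0,[(29,0),(15,0)]⟩⟩,⟨false,1,⟨7,[(16,3),(9,0),(0,0),(18,1)]⟩,⟨5,[(7,1),(18,0),(0,
  0)]⟩⟩,⟨true,0,⟨0,[(0,0)]⟩,⟨0,[(3,0),(39,0)]⟩⟩,⟨false,1,⟨1,[(45,0),(0,0)]⟩,⟨1,[(34,0),(0,0)]⟩⟩,
  ⟨false,1,⟨23,[(0,11),(6,3),(18,4),(0,10),(0,11),(10,5),(6,5)]⟩,⟨0,[(3,0)]⟩⟩,[.e ⟨true,0,⟨0,[]⟩,⟨1,
  [(34,0),(0,0)]⟩⟩ ⟨true,0,⟨5,[(0,5),(6,1),(18,0),(0,0)]⟩,⟨0,[(3,0)]⟩⟩,.a ⟨true,0,⟨0,[(0,0),(8,0)]⟩,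
  ⟨0,[(3,0),(44,0)]⟩⟩ ⟨false,1,⟨1,[(45,0),(0,0)]⟩,⟨0,[(48,0)]⟩⟩ ⟨true,0,⟨13,[(0,11),(6,3),(19,0),(0,
  1),(10,0),(2,3),(3,1)]⟩,⟨0,[(3,0),(44,0)]⟩⟩,.o ⟨false,1,⟨3,[(26,0),(0,0),(17,1)]⟩,⟨0,[(21,0),(9,
  1)]⟩⟩,.e ⟨false,1,⟨1,[(45,0),(0,0)]⟩,⟨1,[(34,0),(0,0)]⟩⟩ ⟨false,1,⟨23,[(0,11),(6,3),(18,4),(0,10),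
  (0,11),(10,5),(6,5)]⟩,⟨0,[(3,0)]⟩⟩]⟩) (.K ⟨1,[1,-1,0,-1],0,0,(⟨9,[(2,6),(5,2),(1,1),(1,2),(0,3),
  (3,1),(10,2)]⟩,⟨0,[(29,0),(11,0)]⟩),(.x (-1) ⟨15,[(13,3),(5,3),(6,6),(0,6),(11,1)]⟩ ⟨0,[(41,0)]⟩),
  (.r (-1) ⟨0,[(5,0),(10,0),(31,0)]⟩ ⟨11,[(7,7),(18,0),(0,6)]⟩),.k,.k,.k,[⟨1,[(28,1),(5,0),(0,0)]⟩,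
  ⟨0,[(21,0),(7,0),(1,1)]⟩,⟨1,[(2,1),(4,0),(2,0),(13,1),(2,0)]⟩,⟨0,[(3,0),(40,0)]⟩]⟩))))))) (.Q [0,
  0,0,0,0,0,-1,-1,0,0,1,-1] (.p true [0,0,1] [0,0,0,1] (⟨0,[(32,0)]⟩,⟨0,[(31,0)]⟩) .k 2 (⟨0,[(23,
  0)]⟩,⟨0,[(22,0)]⟩) .k (.r (-1) ⟨49,[(0,1),(8,1),(0,9),(3,21),(3,3),(1,32),(0,6),(1,1),(2,3)]⟩ ⟨52,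
  [(0,22),(0,1),(3,9),(0,21),(1,8),(6,8),(0,44),(4,14),(1,22)]⟩)) (.R ⟨1,false,false,false,[1,0,0,
  -1],[1,0,-1],[1,1,0,0,0,0,0,0,-1],(⟨0,[(23,0)]⟩,⟨0,[(24,0)]⟩),(⟨0,[(32,0)]⟩,⟨0,[(33,0)]⟩),⟨35,[(0,
  15),(0,3),(2,1),(1,1),(1,8),(5,8),(0,5),(0,6),(4,1),(1,15),(13,0)]⟩,.k,.k,(.x (-1) ⟨15,[(8,3),(5,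
  3),(6,6),(0,6),(11,1)]⟩ ⟨0,[(36,0)]⟩),.k,(.x 0 ⟨44,[(2,1),(2,5),(2,26),(4,8),(2,3),(10,11),(1,6),
  (4,1),(2,5)]⟩ ⟨4,[(6,0),(5,1),(8,1),(0,1),(9,0),(3,6)]⟩),.k,⟨false,1,⟨12,[(1,0),(8,3),(0,2),(3,2),
  (0,2),(2,8),(1,6),(2,0),(2,5)]⟩,⟨57,[(1,35),(0,19),(0,2),(2,44),(2,2),(6,5),(0,90),(4,10),(1,
  35)]⟩⟩,⟨true,0,⟨0,[(23,0),(2,0)]⟩,⟨0,[(16,0),(7,0),(1,0)]⟩⟩,⟨false,0,⟨0,[]⟩,⟨3,[(21,0),(0,0),(18,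
  1)]⟩⟩,⟨false,0,⟨9,[(0,5),(0,3),(4,0),(2,3),(7,3),(4,2),(3,2),(10,4)]⟩,⟨3,[(6,0),(3,0),(4,0),(0,1),
  (4,1),(2,3),(2,1),(9,0)]⟩⟩,⟨true,0,⟨0,[(38,0)]⟩,⟨0,[(39,0)]⟩⟩,⟨false,0,⟨29,[(0,17),(0,11),(0,9),
  (0,0),(2,12),(2,10),(7,12),(4,8),(14,13)]⟩,⟨3,[(10,1),(4,0),(0,1),(4,1),(2,3),(2,1),(9,0),(1,
  2)]⟩⟩,[.e ⟨false,1,⟨1,[(21,0),(18,0),(2,1)]⟩,⟨72,[(1,60),(0,31),(0,12),(2,86),(9,12),(0,60),(4,5),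
  (1,60),(12,29)]⟩⟩ ⟨false,0,⟨0,[(0,0)]⟩,⟨19,[(11,3),(3,7),(0,7),(4,2),(0,2),(1,19),(2,3),(6,3),(5,
  5)]⟩⟩,.o ⟨false,1,⟨0,[(25,0),(15,0)]⟩,⟨0,[(27,0)]⟩⟩,.o ⟨false,1,⟨1,[(24,1),(9,0),(5,0)]⟩,⟨26,[(0,
  9),(0,7),(0,4),(12,0),(0,0),(4,3),(1,8),(10,8),(2,3)]⟩⟩,.a ⟨true,0,⟨0,[(24,0)]⟩,⟨0,[(23,0)]⟩⟩
  ⟨false,1,⟨1,[(21,0),(18,0)]⟩,⟨19,[(1,7),(0,4),(3,6),(0,0),(9,6),(4,5),(1,7),(12,10)]⟩⟩ ⟨true,0,⟨0,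
  [(0,0)]⟩,⟨0,[(24,0),(2,0)]⟩⟩]⟩) (.Q [0,0,0,0,0,-1,0,0,0,1,0,-1] (.ed true [0,1,0,1] .k) (.R ⟨1,
  false,false,false,[1,0,0,-1],[1,0,-1],[1,1,0,0,0,0,0,0,-1],(⟨0,[(24,0)]⟩,⟨0,[(25,0)]⟩),(⟨0,[(33,
  0)]⟩,⟨0,[(34,0)]⟩),⟨0,[(0,0)]⟩,.k,.k,(.x (-1) ⟨15,[(9,3),(5,3),(6,6),(0,6),(11,1)]⟩ ⟨0,[(37,0)]⟩),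
  .k,(.x 0 ⟨44,[(1,3),(0,3),(0,3),(2,3),(2,26),(4,8),(2,7),(4,1),(7,2),(4,5),(2,1)]⟩ ⟨4,[(7,0),(5,
  1),(8,1),(0,1),(9,0),(3,6)]⟩),.k,⟨false,1,⟨14,[(1,0),(0,0),(8,3),(0,3),(3,2),(0,2),(2,10),(1,7),
  (5,6)]⟩,⟨9,[(1,2),(0,5),(0,1),(3,5),(2,2),(7,15),(4,1),(1,2)]⟩⟩,⟨true,0,⟨0,[(24,0),(2,0)]⟩,⟨9,[(1,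
  5),(1,0),(2,2),(14,1),(3,3),(9,0)]⟩⟩,⟨false,0,⟨0,[]⟩,⟨3,[(22,0),(0,0),(18,1)]⟩⟩,⟨false,0,⟨3,[(2,
  1),(4,0),(2,1),(7,3),(4,0),(0,1),(2,2),(10,0)]⟩,⟨1,[(1,1),(20,0),(18,0)]⟩⟩,⟨true,0,⟨0,[(39,0)]⟩,
  ⟨0,[(40,0)]⟩⟩,⟨false,0,⟨23,[(2,13),(4,5),(0,11),(1,19),(7,5),(4,4),(0,9),(10,2),(2,21)]⟩,⟨1,[(1,
  1),(10,0),(9,0),(21,0)]⟩⟩,[.a ⟨true,0,⟨4,[(6,1),(3,0),(2,1),(20,3),(2,1)]⟩,⟨13,[(1,1),(0,1),(2,0),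
  (6,0),(1,2),(1,4),(0,1),(4,0),(10,5),(2,2)]⟩⟩ ⟨false,1,⟨1,[(22,0),(18,0),(2,1)]⟩,⟨19,[(1,12),(0,
  15),(0,1),(3,15),(2,12),(7,15),(4,1),(1,2),(12,9)]⟩⟩ ⟨true,0,⟨21,[(3,2),(2,8),(17,21),(2,19),(1,
  3),(0,1),(4,0),(6,1)]⟩,⟨0,[(1,0)]⟩⟩,.o ⟨false,1,⟨0,[(26,0),(15,0)]⟩,⟨0,[(28,0)]⟩⟩,.o ⟨false,1,⟨1,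
  [(25,1),(9,0),(5,0)]⟩,⟨3,[(2,1),(0,0),(3,0),(0,0),(9,0),(3,0),(1,1),(10,0),(2,0)]⟩⟩,.e ⟨false,1,
  ⟨1,[(22,0),(18,0)]⟩,⟨19,[(2,7),(0,4),(3,6),(0,0),(9,6),(4,5),(1,7),(12,10)]⟩⟩ ⟨false,1,⟨0,[(24,0),
  (1,0),(15,0)]⟩,⟨0,[(1,0)]⟩⟩]⟩) (.R ⟨0,false,false,false,[1,0,0,-1],[1,0,-1],[1,0,1,0,0,0,0,-1],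
  (⟨0,[(24,0)]⟩,⟨0,[(25,0)]⟩),(⟨0,[(33,0)]⟩,⟨0,[(34,0)]⟩),⟨0,[(0,0)]⟩,.k,.k,(.x (-1) ⟨15,[(9,3),(5,
  3),(6,6),(0,6),(11,1)]⟩ ⟨0,[(37,0)]⟩),.k,.k,.k,⟨false,0,⟨0,[]⟩,⟨3,[(22,0),(0,0),(17,1)]⟩⟩,⟨true,0,
  ⟨0,[(24,0),(2,0)]⟩,⟨9,[(1,5),(1,0),(2,2),(14,1),(3,3),(9,0)]⟩⟩,⟨true,(-1),⟨4,[(0,4),(1,4),(0,1),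
  (0,2),(1,2),(0,1),(0,0),(0,1),(3,0),(4,2)]⟩,⟨14,[(1,0),(0,0),(8,3),(0,3),(3,2),(0,2),(2,10),(1,7),
  (5,6)]⟩⟩,⟨false,0,⟨3,[(2,1),(4,0),(2,1),(7,3),(4,0),(0,1),(2,2),(10,0)]⟩,⟨1,[(1,1),(20,0),(18,
  0)]⟩⟩,⟨false,0,⟨0,[]⟩,⟨0,[]⟩⟩,⟨false,0,⟨0,[]⟩,⟨0,[]⟩⟩,[.a ⟨true,0,⟨4,[(6,1),(3,0),(2,1),(20,3),(2,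
  1)]⟩,⟨13,[(1,1),(0,1),(2,0),(6,0),(1,2),(1,4),(0,1),(4,0),(10,5),(2,2)]⟩⟩ ⟨false,0,⟨11,[(3,1),(2,
  5),(15,0),(0,0)]⟩,⟨6,[(12,1),(3,2),(3,0),(1,0),(0,0),(4,0),(12,2)]⟩⟩ ⟨true,0,⟨21,[(3,2),(2,8),(17,
  21),(2,19),(1,3),(0,1),(4,0),(6,1)]⟩,⟨0,[(1,0)]⟩⟩,.o ⟨false,1,⟨0,[(26,0),(15,0)]⟩,⟨0,[(28,0)]⟩⟩,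
  .o ⟨false,1,⟨1,[(25,1),(9,0),(5,0)]⟩,⟨3,[(2,1),(0,0),(3,0),(0,0),(9,0),(3,0),(1,1),(10,0),(2,
  0)]⟩⟩,.e ⟨false,0,⟨0,[(18,0)]⟩,⟨83,[(1,3),(0,3),(8,3),(0,15),(3,35),(3,7),(1,34),(0,32),(4,3)]⟩⟩
  ⟨false,1,⟨0,[(24,0),(1,0),(15,0)]⟩,⟨0,[(1,0)]⟩⟩]⟩))))))

theorem ok46 : chk (cU (-1) true 10) t46 r32 = true := by decide +kernel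

noncomputable def t56 : Tre :=
  (.Q [0,0,3,0,-1,0,0,0,0,-1] (.pp true [-1,1]) (.R ⟨1,false,false,true,[1,-1],[0,1],[1,0,-1,-1],
  (⟨0,[(25,0)]⟩,⟨0,[(26,0)]⟩),(⟨0,[(26,0)]⟩,⟨0,[(25,0)]⟩),⟨0,[(4,0),(18,0)]⟩,.k,.k,(.r (-1) ⟨0,[(29,
  1),(0,0)]⟩ ⟨3,[(1,3),(9,0),(0,0),(18,1)]⟩),(.r (-1) ⟨0,[(29,1),(0,0)]⟩ ⟨3,[(1,3),(9,0),(0,0),(18,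
  1)]⟩),(.r (-2) ⟨3,[(11,0),(0,0),(16,11),(0,5)]⟩ ⟨3,[(1,5),(25,1),(2,0),(0,0)]⟩),.k,⟨false,2,⟨1,
  [(29,3),(0,2),(0,0)]⟩,⟨0,[(1,0)]⟩⟩,⟨true,1,⟨0,[(13,0),(0,0),(15,0)]⟩,⟨0,[(0,0)]⟩⟩,⟨true,0,⟨0,[]⟩,
  ⟨0,[(33,0)]⟩⟩,⟨false,0,⟨0,[(6,0),(2,1),(17,0)]⟩,⟨1,[(24,0),(4,3),(1,0)]⟩⟩,⟨false,1,⟨0,[(28,0),(2,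
  0)]⟩,⟨0,[(29,0)]⟩⟩,⟨false,0,⟨0,[(5,0),(0,0),(0,1),(1,1)]⟩,⟨1,[(24,0),(4,5),(1,0)]⟩⟩,[.o ⟨false,0,
  ⟨0,[(28,0)]⟩,⟨1,[(24,0),(4,1),(1,0)]⟩⟩,.a ⟨true,0,⟨3,[(3,0),(2,0),(2,3),(12,1),(2,0),(1,1)]⟩,⟨0,
  [(29,0)]⟩⟩ ⟨true,1,⟨1,[(29,1),(0,0),(0,0)]⟩,⟨0,[(1,0),(27,0)]⟩⟩ ⟨false,1,⟨3,[(3,0),(2,0),(2,3),
  (12,1),(2,0),(1,1),(2,3)]⟩,⟨2,[(0,0),(23,0),(4,2)]⟩⟩,.o ⟨false,0,⟨2,[(0,0),(23,0)]⟩,⟨3,[(11,0),(0,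
  0),(17,1)]⟩⟩,.o ⟨false,0,⟨11,[(0,7),(10,2),(0,2),(11,1)]⟩,⟨0,[(30,0)]⟩⟩]⟩) (.R ⟨1,false,false,
  true,[1,-1],[1,0,-1],[1,0,-1,-1],(⟨0,[(25,0)]⟩,⟨0,[(26,0)]⟩),(⟨0,[(22,0)]⟩,⟨0,[(23,0)]⟩),⟨0,[(4,
  0),(18,0)]⟩,.k,.k,(.r (-1) ⟨2,[(0,1),(23,0),(4,5)]⟩ ⟨3,[(1,3),(9,0),(0,0),(18,1)]⟩),.k,(.r (-2)
  ⟨23,[(0,19),(4,11),(5,8),(0,8),(11,9),(4,59)]⟩ ⟨0,[(1,0),(5,0)]⟩),.k,⟨true,1,⟨5,[(0,3),(4,2),(18,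
  1),(2,2),(1,8)]⟩,⟨0,[(1,0),(19,0),(7,0)]⟩⟩,⟨false,1,⟨0,[(0,0),(15,0)]⟩,⟨0,[(19,0)]⟩⟩,⟨true,0,⟨0,
  []⟩,⟨0,[(33,0)]⟩⟩,⟨false,0,⟨0,[(7,0),(1,0)]⟩,⟨0,[(17,0),(11,0),(1,0)]⟩⟩,⟨false,1,⟨0,[(28,0),(2,
  0)]⟩,⟨0,[(29,0)]⟩⟩,⟨false,0,⟨0,[(0,0),(0,0),(5,0),(8,0)]⟩,⟨0,[(17,0),(11,1),(1,0)]⟩⟩,[.o ⟨false,0,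
  ⟨0,[(15,0)]⟩,⟨0,[(17,0),(13,0)]⟩⟩,.a ⟨true,0,⟨0,[(7,0),(1,0),(19,0)]⟩,⟨3,[(3,0),(1,1),(0,0),(15,
  1),(2,0),(3,1)]⟩⟩ ⟨true,1,⟨5,[(0,1),(23,0),(4,5),(1,2)]⟩,⟨0,[(1,0),(27,0)]⟩⟩ ⟨false,1,⟨3,[(0,2),
  (6,0),(7,1),(0,0),(1,0),(12,0)]⟩,⟨3,[(5,0),(11,1),(1,1),(7,0),(1,0)]⟩⟩,.o ⟨false,0,⟨0,[(6,0),(9,
  1)]⟩,⟨11,[(0,3),(10,2),(0,2),(11,1)]⟩⟩,.o ⟨false,0,⟨0,[(16,0),(2,0)]⟩,⟨0,[(30,0)]⟩⟩]⟩))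

theorem ok56 : chk (cU (-1) true 10) t56 r25 = true := by decide +kernel

noncomputable def t86 : Tre :=
  (.Q [0,0,0,-1,0,0,1,1,0,1,-1] (.p false [0,0,1] [1] (⟨0,[(33,0)]⟩,⟨0,[(32,0)]⟩) .k 1 (⟨0,[]⟩,⟨0,
  []⟩) .k .k) (.R ⟨2,true,false,false,[0,1],[1,1,-1],[0,1,1],(⟨0,[]⟩,⟨0,[]⟩),(⟨0,[(33,0),(3,0)]⟩,⟨0,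
  [(10,0)]⟩),⟨0,[]⟩,.k,.k,.k,.k,.k,.k,⟨true,0,⟨0,[(1,0),(18,0)]⟩,⟨1,[(3,0),(0,0),(37,0)]⟩⟩,⟨false,1,
  ⟨3,[(17,1),(17,0),(5,2)]⟩,⟨4,[(0,0),(3,0),(4,0),(5,2),(13,0)]⟩⟩,⟨false,0,⟨0,[(40,0)]⟩,⟨7,[(3,0),
  (1,1),(8,0),(0,0),(6,1),(0,1),(17,0),(0,2)]⟩⟩,⟨true,0,⟨0,[(1,0),(1,0)]⟩,⟨0,[(0,0),(38,0)]⟩⟩,⟨true,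
  0,⟨0,[(44,0)]⟩,⟨0,[]⟩⟩,⟨false,1,⟨7,[(3,3),(18,0),(0,0),(11,1),(6,3)]⟩,⟨0,[(0,0)]⟩⟩,[]⟩) (.Q [0,1,
  -1,0,0,0,0,0,-1,0,0,1] (.p true [0,0,0,1] [] (⟨0,[(25,0)]⟩,⟨0,[(24,0)]⟩) .k 0 (⟨0,[]⟩,⟨0,[]⟩) .k
  .k) (.K ⟨0,[0,0,0,1],0,0,(⟨0,[(26,0)]⟩,⟨0,[(25,0)]⟩),.k,(.r (-1) ⟨1,[(10,0),(13,0),(20,0)]⟩ ⟨2,
  [(0,0),(0,0),(3,0),(0,0),(16,0),(1,0),(2,0)]⟩),(.x 0 ⟨0,[(38,0)]⟩ ⟨11,[(11,3),(1,3),(9,4),(0,4),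
  (11,1)]⟩),.k,.k,[⟨0,[(26,0)]⟩,⟨0,[(25,0)]⟩,⟨0,[(0,0)]⟩,⟨3,[(1,5),(0,4),(0,0),(1,0),(8,0),(6,2),(2,
  1),(0,3),(8,0),(3,1)]⟩]⟩) (.I [0,-1,0,-1,0,0,0,0,1] (.I [0,0,2,0,-1,-2,1] (.Q [0,0,2,0,-1,0,1,0,0,
  0,-1] (.p false [0,0,1] [] (⟨0,[(37,0)]⟩,⟨0,[(36,0)]⟩) .k 0 (⟨0,[]⟩,⟨0,[]⟩) .k .k) (.R ⟨1,true,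
  false,false,[0,0,1],[0,1],[1],(⟨0,[(38,0)]⟩,⟨0,[(37,0)]⟩),(⟨0,[(41,0)]⟩,⟨0,[(40,0)]⟩),⟨0,[(14,
  0)]⟩,.k,.k,.k,.k,(.x 1 ⟨0,[(1,0)]⟩ ⟨7,[(20,3),(5,2),(0,2),(13,19),(3,9)]⟩),.k,⟨false,1,⟨1,[(13,0),
  (31,0),(2,0)]⟩,⟨47,[(7,5),(0,13),(0,11),(11,7),(4,6),(0,6),(15,11)]⟩⟩,⟨true,1,⟨7,[(13,3),(10,7),
  (1,0),(0,0),(18,1)]⟩,⟨0,[(0,0)]⟩⟩,⟨false,0,⟨0,[(22,0)]⟩,⟨7,[(5,1),(7,1),(1,3),(8,3),(1,2),(0,2),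
  (4,1)]⟩⟩,⟨true,0,⟨1,[(7,0),(20,0),(0,0)]⟩,⟨1,[(5,0),(26,0),(15,0)]⟩⟩,⟨true,0,⟨1,[(7,0),(17,0)]⟩,
  ⟨0,[(5,0),(18,0)]⟩⟩,⟨false,1,⟨7,[(7,3),(11,3),(4,3),(1,0),(0,0),(18,5)]⟩,⟨0,[(5,0)]⟩⟩,[]⟩) (.K ⟨0,
  [1,1,-1],1,0,(⟨0,[(37,0),(3,0)]⟩,⟨0,[(14,0)]⟩),.k,.k,(.x (-2) ⟨3,[(0,3),(25,0),(0,0),(9,3),(1,1),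
  (1,7)]⟩ ⟨0,[(1,0)]⟩),.k,.k,[⟨0,[(6,0),(30,0),(3,1)]⟩,⟨0,[(0,0)]⟩,⟨1,[(5,0),(22,1),(0,1),(2,0),(15,
  0)]⟩,⟨2,[(7,0),(9,0),(12,1)]⟩]⟩)) (.I [0,0,-1,-1,0,0,0,0,1] (.Q [0,1,1,0,-1,0,0,0,1,0,0,-1] (.p
  false [0,0,0,1] [] (⟨0,[(29,0)]⟩,⟨0,[(28,0)]⟩) .k 0 (⟨0,[]⟩,⟨0,[]⟩) .k .k) (.K ⟨0,[0,0,0,1],0,
  (-1),(⟨0,[(30,0)]⟩,⟨0,[(29,0)]⟩),.k,(.r 0 ⟨0,[(1,0)]⟩ ⟨47,[(8,5),(0,13),(0,11),(11,7),(4,42),(0,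
  18),(15,11)]⟩),(.x 0 ⟨0,[(42,0)]⟩ ⟨11,[(15,3),(1,3),(9,4),(0,4),(11,1)]⟩),.k,.k,[⟨0,[(30,0)]⟩,⟨0,
  [(29,0)]⟩,⟨1,[(27,0),(2,1),(15,0),(2,1)]⟩,⟨0,[(0,0)]⟩]⟩) (.Q [0,0,0,0,0,1,0,0,0,-1,0,1] (.ed
  false [0,1,0,1] .k) (.R ⟨0,false,false,false,[1,0,0,-1],[1,0,-1],[1,0,1,0,0,0,0,-1],(⟨0,[(30,0)]⟩,
  ⟨0,[(31,0)]⟩),(⟨0,[(39,0)]⟩,⟨0,[(40,0)]⟩),⟨0,[(0,0)]⟩,.k,.k,(.x (-1) ⟨11,[(16,3),(1,3),(9,4),(0,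
  4),(11,1)]⟩ ⟨0,[(43,0)]⟩),.k,.k,.k,⟨false,0,⟨0,[]⟩,⟨3,[(28,0),(0,0),(17,1)]⟩⟩,⟨true,0,⟨0,[(30,0),
  (2,0)]⟩,⟨6,[(0,3),(7,0),(9,0),(8,2),(3,2),(15,0)]⟩⟩,⟨true,(-1),⟨0,[(2,0),(3,0),(1,0),(30,0),(3,
  1)]⟩,⟨2,[(1,0),(4,0),(0,1),(7,0),(3,1),(6,2),(1,0),(1,0)]⟩⟩,⟨false,0,⟨23,[(4,5),(0,13),(3,2),(0,
  1),(2,8),(15,1),(0,9),(6,3),(6,1)]⟩,⟨0,[(1,0),(32,0)]⟩⟩,⟨false,0,⟨0,[]⟩,⟨0,[]⟩⟩,⟨false,0,⟨0,[]⟩,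
  ⟨0,[]⟩⟩,[.o ⟨false,0,⟨3,[(6,2),(0,0),(6,0)]⟩,⟨3,[(28,0),(0,0),(4,3),(13,1)]⟩⟩,.o ⟨false,1,⟨7,[(13,
  3),(14,0),(0,0),(11,1),(6,3)]⟩,⟨0,[(34,0)]⟩⟩,.o ⟨false,1,⟨1,[(31,1),(9,0),(5,0)]⟩,⟨23,[(6,6),(0,
  4),(2,5),(0,0),(7,0),(10,23),(2,10),(7,5)]⟩⟩,.a ⟨true,0,⟨0,[(31,0)]⟩,⟨0,[(30,0)]⟩⟩ ⟨false,0,⟨0,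
  [(24,0)]⟩,⟨7,[(7,1),(7,1),(1,3),(8,3),(1,2),(0,2),(4,1)]⟩⟩ ⟨true,0,⟨3,[(6,2),(0,0),(6,0),(15,3)]⟩,
  ⟨0,[(31,0),(2,0)]⟩⟩]⟩) (.R ⟨1,false,false,false,[1,0,0,-1],[1,-1],[0,1,0,-1,0,0,0,0,-1],(⟨0,[(30,
  0)]⟩,⟨0,[(31,0)]⟩),(⟨0,[(42,0)]⟩,⟨0,[(43,0)]⟩),⟨0,[(0,0)]⟩,.k,.k,(.x (-1) ⟨11,[(16,3),(1,3),(9,4),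
  (0,4),(11,1)]⟩ ⟨0,[(43,0)]⟩),(.r (-1) ⟨47,[(9,5),(0,13),(0,11),(11,7),(4,42),(0,18),(15,11)]⟩ ⟨0,
  [(2,0)]⟩),.k,.k,⟨true,0,⟨7,[(6,2),(0,4),(2,3),(3,0),(11,7),(1,3)]⟩,⟨7,[(2,1),(1,5),(4,0),(1,1),(8,
  0),(0,0)]⟩⟩,⟨false,0,⟨23,[(6,6),(0,4),(2,5),(0,0),(7,0),(10,23),(2,10),(7,5)]⟩,⟨0,[(31,0),(15,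
  0)]⟩⟩,⟨false,0,⟨0,[(46,0)]⟩,⟨7,[(9,0),(1,1),(8,0),(0,0),(6,1),(0,1),(17,0),(0,2)]⟩⟩,⟨false,0,⟨64,
  [(4,5),(0,56),(1,21),(2,2),(3,10),(0,1),(13,0),(0,7),(6,5)]⟩,⟨0,[(1,0),(43,0)]⟩⟩,⟨true,0,⟨0,[(50,
  0)]⟩,⟨0,[]⟩⟩,⟨false,0,⟨0,[(5,0)]⟩,⟨0,[(1,0),(48,0)]⟩⟩,[.o ⟨false,0,⟨0,[(6,0),(0,0)]⟩,⟨19,[(9,1),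
  (1,3),(8,1),(0,1),(6,8),(0,8),(15,3),(1,1)]⟩⟩,.o ⟨false,1,⟨19,[(7,7),(6,3),(13,0),(0,0),(11,7),(6,
  9)]⟩,⟨0,[(45,0)]⟩⟩,.o ⟨false,1,⟨1,[(31,1),(9,0),(5,0)]⟩,⟨23,[(6,6),(0,4),(2,5),(0,0),(7,0),(10,
  23),(2,10),(7,5)]⟩⟩,.a ⟨true,0,⟨0,[(31,0)]⟩,⟨0,[(30,0)]⟩⟩ ⟨false,1,⟨1,[(15,0),(12,0),(21,0)]⟩,⟨3,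
  [(4,1),(4,0),(0,0),(0,1),(17,0)]⟩⟩ ⟨true,0,⟨0,[(6,0),(0,0),(22,0)]⟩,⟨0,[(31,0),(13,0)]⟩⟩]⟩))) (.Q
  [0,0,0,0,0,-1,0,0,0,1,0,-1] (.ed true [0,1,0,1] .k) (.I [0,0,1,1,0,0,0,0,-1] (.R ⟨1,false,false,
  false,[1,0,0,-1],[1,-1],[1,1,0,0,0,0,0,0,-1],(⟨0,[(30,0)]⟩,⟨0,[(31,0)]⟩),(⟨0,[(42,0)]⟩,⟨0,[(43,
  0)]⟩),⟨0,[(1,0)]⟩,.k,.k,(.x (-1) ⟨11,[(16,3),(1,3),(9,4),(0,4),(11,1)]⟩ ⟨0,[(43,0)]⟩),(.r 0 ⟨0,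
  [(0,0)]⟩ ⟨1,[(15,0),(13,0),(20,0)]⟩),.k,.k,⟨true,0,⟨0,[(0,0),(49,0)]⟩,⟨0,[(4,0)]⟩⟩,⟨false,0,⟨13,
  [(0,0),(4,0),(0,3),(0,2),(2,2),(8,0),(10,12),(2,5),(7,2)]⟩,⟨0,[(31,0),(15,0)]⟩⟩,⟨false,0,⟨0,[]⟩,
  ⟨3,[(28,0),(0,0),(18,1)]⟩⟩,⟨false,0,⟨64,[(4,5),(0,56),(1,21),(2,2),(3,10),(0,1),(13,0),(0,7),(6,
  5)]⟩,⟨0,[(0,0),(30,0),(15,0)]⟩⟩,⟨true,0,⟨0,[(45,0)]⟩,⟨0,[(46,0)]⟩⟩,⟨false,0,⟨0,[(5,0)]⟩,⟨1,[(28,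
  0),(2,1),(15,0)]⟩⟩,[.o ⟨false,0,⟨0,[(6,0),(0,0)]⟩,⟨19,[(9,1),(1,3),(8,1),(0,1),(6,8),(0,8),(15,3),
  (1,1)]⟩⟩,.o ⟨false,1,⟨19,[(7,7),(6,3),(13,0),(0,0),(11,7),(6,9)]⟩,⟨0,[(45,0)]⟩⟩,.o ⟨false,1,⟨1,
  [(31,1),(9,0),(5,0)]⟩,⟨13,[(0,0),(4,0),(0,3),(0,2),(2,2),(8,0),(10,12),(2,5),(7,2)]⟩⟩,.a ⟨true,0,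
  ⟨0,[(31,0)]⟩,⟨0,[(30,0)]⟩⟩ ⟨false,1,⟨1,[(28,0),(18,0)]⟩,⟨11,[(4,5),(4,0),(0,2),(0,1),(11,1),(5,2),
  (14,1)]⟩⟩ ⟨true,0,⟨0,[(6,0),(0,0),(22,0)]⟩,⟨0,[(31,0),(13,0)]⟩⟩]⟩) (.R ⟨1,false,false,false,[1,0,
  0,-1],[1,-1],[1,1,0,0,0,0,0,0,-1],(⟨0,[(30,0)]⟩,⟨0,[(31,0)]⟩),(⟨0,[(42,0)]⟩,⟨0,[(43,0)]⟩),⟨0,[(1,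
  0)]⟩,.k,.k,(.x (-1) ⟨11,[(16,3),(1,3),(9,4),(0,4),(11,1)]⟩ ⟨0,[(43,0)]⟩),(.x (-1) ⟨11,[(3,5),(11,
  1),(4,3),(6,0),(4,0),(1,0),(5,5),(6,3)]⟩ ⟨29,[(8,11),(1,9),(11,5),(0,9),(4,10),(0,10)]⟩),.k,.k,
  ⟨true,0,⟨0,[(2,0),(47,0)]⟩,⟨0,[(4,0)]⟩⟩,⟨false,0,⟨13,[(2,0),(2,0),(0,3),(0,2),(2,2),(8,0),(10,12),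
  (2,5),(7,2)]⟩,⟨0,[(31,0),(15,0)]⟩⟩,⟨false,0,⟨0,[]⟩,⟨3,[(28,0),(0,0),(18,1)]⟩⟩,⟨false,0,⟨64,[(4,5),
  (0,56),(1,21),(2,2),(3,10),(0,1),(13,0),(0,7),(6,5)]⟩,⟨0,[(2,0),(28,0),(15,0)]⟩⟩,⟨true,0,⟨0,[(45,
  0)]⟩,⟨0,[(46,0)]⟩⟩,⟨false,0,⟨0,[(5,0)]⟩,⟨1,[(28,0),(2,1),(15,0)]⟩⟩,[.o ⟨false,0,⟨0,[(6,0),(0,0)]⟩,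
  ⟨19,[(9,1),(1,3),(8,1),(0,1),(6,8),(0,8),(15,3),(1,1)]⟩⟩,.o ⟨false,1,⟨19,[(7,7),(6,3),(13,0),(0,
  0),(11,7),(6,9)]⟩,⟨0,[(45,0)]⟩⟩,.o ⟨false,1,⟨1,[(31,1),(9,0),(5,0)]⟩,⟨13,[(2,0),(2,0),(0,3),(0,2),
  (2,2),(8,0),(10,12),(2,5),(7,2)]⟩⟩,.a ⟨true,0,⟨0,[(31,0)]⟩,⟨0,[(30,0)]⟩⟩ ⟨false,1,⟨1,[(28,0),(18,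
  0)]⟩,⟨11,[(4,5),(4,0),(0,2),(0,1),(11,1),(5,2),(14,1)]⟩⟩ ⟨true,0,⟨0,[(6,0),(0,0),(22,0)]⟩,⟨0,[(31,
  0),(13,0)]⟩⟩]⟩)) (.R ⟨0,false,false,false,[1,0,0,-1],[1,0,-1],[0,1,0,0,0,0,0,0,-1],(⟨0,[(29,0)]⟩,
  ⟨0,[(30,0)]⟩),(⟨0,[(38,0)]⟩,⟨0,[(39,0)]⟩),⟨0,[(0,0)]⟩,.k,.k,(.x (-1) ⟨11,[(15,3),(1,3),(9,4),(0,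
  4),(11,1)]⟩ ⟨0,[(42,0)]⟩),.k,.k,.k,⟨false,1,⟨2,[(1,0),(4,0),(7,1),(3,1),(6,2),(1,0)]⟩,⟨1,[(3,1),
  (4,0),(17,0)]⟩⟩,⟨true,0,⟨0,[(29,0),(2,0)]⟩,⟨6,[(0,3),(6,0),(9,0),(8,2),(3,2),(15,0)]⟩⟩,⟨true,0,⟨0,
  [(49,0)]⟩,⟨0,[]⟩⟩,⟨false,0,⟨23,[(3,5),(0,13),(3,2),(0,1),(2,8),(15,1),(0,9),(6,3),(6,1)]⟩,⟨0,[(1,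
  0),(12,0),(3,0),(11,0)]⟩⟩,⟨false,0,⟨0,[]⟩,⟨0,[]⟩⟩,⟨false,0,⟨0,[]⟩,⟨0,[]⟩⟩,[.o ⟨false,0,⟨3,[(5,2),
  (0,0),(6,0)]⟩,⟨3,[(27,0),(0,0),(4,3),(13,1)]⟩⟩,.o ⟨false,1,⟨7,[(12,3),(14,0),(0,0),(11,1),(6,3)]⟩,
  ⟨0,[(33,0)]⟩⟩,.o ⟨false,1,⟨1,[(30,1),(9,0),(5,0)]⟩,⟨13,[(1,0),(2,0),(0,3),(0,2),(2,2),(8,0),(10,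
  12),(2,5),(7,2)]⟩⟩,.a ⟨true,0,⟨0,[(30,0)]⟩,⟨0,[(29,0)]⟩⟩ ⟨false,1,⟨1,[(27,0),(18,0)]⟩,⟨11,[(3,5),
  (4,0),(0,2),(0,1),(11,1),(5,2),(14,1)]⟩⟩ ⟨true,0,⟨3,[(5,2),(0,0),(6,0),(15,3)]⟩,⟨0,[(30,0),(2,
  0)]⟩⟩]⟩)))) (.Q [0,0,0,0,0,-1,0,0,0,1,0,-1] (.ed true [0,1,0,1] .k) (.R ⟨1,false,false,true,[1,0,
  0,-1],[0,1],[1,1,0,0,0,0,0,0,-1],(⟨0,[(27,0)]⟩,⟨0,[(28,0)]⟩),(⟨0,[(40,0)]⟩,⟨0,[(39,0)]⟩),⟨0,[(0,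
  0)]⟩,.k,.k,(.x (-1) ⟨11,[(13,3),(1,3),(9,4),(0,4),(11,1)]⟩ ⟨0,[(40,0)]⟩),(.x (-1) ⟨11,[(13,3),(1,
  3),(9,4),(0,4),(11,1)]⟩ ⟨0,[(40,0)]⟩),(.r (-1) ⟨0,[(1,0),(10,0),(30,0)]⟩ ⟨23,[(6,5),(0,13),(0,11),
  (11,7),(4,0),(0,12),(15,11)]⟩),.k,⟨false,1,⟨0,[(1,0),(10,0)]⟩,⟨5,[(2,3),(3,0),(0,0),(8,1),(6,1),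
  (2,0),(1,3)]⟩⟩,⟨true,0,⟨0,[(27,0)]⟩,⟨23,[(3,6),(0,4),(2,5),(0,0),(7,0),(11,23),(1,10),(7,5)]⟩⟩,
  ⟨false,0,⟨0,[]⟩,⟨3,[(25,0),(0,0),(18,1)]⟩⟩,⟨false,0,⟨5,[(2,3),(4,0),(10,1),(4,3),(2,0),(0,2),(0,
  0)]⟩,⟨20,[(1,20),(1,12),(0,11),(3,0),(3,16),(4,0),(10,20),(9,3),(2,11)]⟩⟩,⟨true,0,⟨0,[(42,0)]⟩,⟨0,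
  [(43,0)]⟩⟩,⟨false,0,⟨0,[(2,0),(15,0),(4,0)]⟩,⟨2,[(1,0),(1,2),(0,2),(7,1),(12,0),(2,2),(12,0)]⟩⟩,
  [.o ⟨false,0,⟨0,[(42,0)]⟩,⟨19,[(4,7),(6,3),(13,0),(0,0),(11,7),(6,9)]⟩⟩,.o ⟨false,1,⟨19,[(6,1),(1,
  3),(8,1),(0,1),(6,8),(0,8),(15,3),(1,1)]⟩,⟨0,[(3,0),(0,0)]⟩⟩,.o ⟨false,1,⟨1,[(28,1),(9,0),(5,0)]⟩,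
  ⟨8,[(1,4),(0,4),(1,1),(2,0),(3,0),(15,3),(2,1),(7,0)]⟩⟩,.a ⟨true,0,⟨0,[(28,0)]⟩,⟨0,[(27,0)]⟩⟩
  ⟨false,1,⟨1,[(25,0),(18,0)]⟩,⟨0,[(2,0),(25,0)]⟩⟩ ⟨true,0,⟨0,[(27,0),(14,0)]⟩,⟨0,[(3,0),(0,0),(23,
  0)]⟩⟩]⟩) (.I [0,0,0,0,0,0,0,0,1] (.R ⟨0,false,false,false,[1,0,0,-1],[1,0,-1],[1,0,0,-1,0,0,0,0,
  -1],(⟨0,[(28,0)]⟩,⟨0,[(29,0)]⟩),(⟨0,[(37,0)]⟩,⟨0,[(38,0)]⟩),⟨0,[(1,0)]⟩,.k,.k,(.x (-1) ⟨11,[(14,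
  3),(1,3),(9,4),(0,4),(11,1)]⟩ ⟨0,[(41,0)]⟩),.k,.k,.k,⟨false,1,⟨2,[(2,0),(2,1),(3,0),(3,1),(10,1),
  (1,0)]⟩,⟨1,[(0,1),(6,0),(17,0)]⟩⟩,⟨true,0,⟨0,[(28,0),(2,0)]⟩,⟨6,[(1,3),(4,0),(9,0),(8,2),(3,2),
  (15,0)]⟩⟩,⟨true,0,⟨0,[(44,0)]⟩,⟨0,[(43,0)]⟩⟩,⟨false,0,⟨17,[(0,5),(2,9),(4,0),(2,8),(15,0),(0,7),
  (6,1),(6,3)]⟩,⟨12,[(2,2),(2,1),(3,2),(3,7),(3,7),(0,2),(7,4),(2,12)]⟩⟩,⟨false,0,⟨0,[]⟩,⟨0,[]⟩⟩,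
  ⟨false,0,⟨0,[]⟩,⟨0,[]⟩⟩,[.o ⟨false,0,⟨3,[(4,2),(0,0),(6,0)]⟩,⟨3,[(26,0),(0,0),(4,3),(13,1)]⟩⟩,.o
  ⟨false,1,⟨7,[(11,3),(14,0),(0,0),(11,1),(6,3)]⟩,⟨0,[(32,0)]⟩⟩,.o ⟨false,1,⟨1,[(29,1),(9,0),(5,
  0)]⟩,⟨8,[(2,4),(0,4),(1,1),(2,0),(3,0),(15,3),(2,1),(7,0)]⟩⟩,.a ⟨true,0,⟨0,[(29,0)]⟩,⟨0,[(28,
  0)]⟩⟩ ⟨false,1,⟨2,[(2,0),(10,1),(12,0),(15,0)]⟩,⟨53,[(0,19),(6,8),(0,16),(0,11),(7,5),(3,7),(2,5),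
  (2,16)]⟩⟩ ⟨true,0,⟨3,[(4,2),(0,0),(6,0),(15,3)]⟩,⟨0,[(29,0),(2,0)]⟩⟩]⟩) (.R ⟨0,false,false,true,
  [1,0,0,-1],[0,1],[0,1,0,0,0,0,0,0,-1],(⟨0,[(28,0)]⟩,⟨0,[(29,0)]⟩),(⟨0,[(41,0)]⟩,⟨0,[(40,0)]⟩),⟨0,
  [(1,0)]⟩,.k,.k,(.x (-1) ⟨11,[(14,3),(1,3),(9,4),(0,4),(11,1)]⟩ ⟨0,[(41,0)]⟩),(.x (-1) ⟨11,[(14,3),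
  (1,3),(9,4),(0,4),(11,1)]⟩ ⟨0,[(41,0)]⟩),.k,.k,⟨false,1,⟨0,[(0,0),(3,1),(0,0),(7,0),(0,1),(1,1),
  (0,0),(23,5)]⟩,⟨5,[(3,3),(3,0),(0,0),(8,1),(6,1),(2,0),(1,3)]⟩⟩,⟨true,0,⟨0,[(28,0)]⟩,⟨20,[(1,4),
  (4,1),(1,3),(11,0),(8,15),(1,7),(7,5)]⟩⟩,⟨true,0,⟨0,[(48,0)]⟩,⟨0,[]⟩⟩,⟨false,0,⟨5,[(3,3),(4,0),
  (10,1),(4,3),(2,0),(0,2),(0,0)]⟩,⟨29,[(0,7),(0,29),(2,5),(1,5),(2,5),(3,23),(0,1),(1,7),(9,10),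
  (12,0)]⟩⟩,⟨false,0,⟨0,[]⟩,⟨0,[]⟩⟩,⟨false,0,⟨0,[]⟩,⟨0,[]⟩⟩,[.o ⟨false,0,⟨0,[(43,0)]⟩,⟨19,[(5,7),(6,
  3),(13,0),(0,0),(11,7),(6,9)]⟩⟩,.o ⟨false,1,⟨19,[(7,1),(1,3),(8,1),(0,1),(6,8),(0,8),(15,3),(1,
  1)]⟩,⟨0,[(4,0),(0,0)]⟩⟩,.o ⟨false,1,⟨1,[(29,1),(9,0),(5,0)]⟩,⟨6,[(0,0),(1,1),(0,2),(1,0),(2,0),
  (19,3),(1,0),(0,1),(7,0)]⟩⟩,.a ⟨true,0,⟨0,[(29,0)]⟩,⟨0,[(28,0)]⟩⟩ ⟨false,1,⟨1,[(26,0),(18,0)]⟩,⟨0,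
  [(3,0),(25,0)]⟩⟩ ⟨true,0,⟨0,[(28,0),(14,0)]⟩,⟨5,[(1,5),(2,0),(0,2),(6,0),(1,1),(1,1)]⟩⟩]⟩))))))

theorem ok86 : chk (cU (-1) true 10) t86 r53 = true := by decide +kernel

noncomputable def t93 : Tre :=
  (.K ⟨0,[0,0,0,1],0,0,(⟨0,[(27,0)]⟩,⟨0,[(26,0)]⟩),.k,(.r (-1) ⟨1,[(11,0),(13,0),(20,0)]⟩ ⟨1,[(3,1),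
  (3,0),(23,0),(0,0)]⟩),(.x 0 ⟨0,[(39,0)]⟩ ⟨15,[(5,3),(8,3),(9,6),(0,6),(11,1)]⟩),.k,.k,[⟨0,[(27,
  0)]⟩,⟨0,[(26,0)]⟩,⟨0,[(1,0)]⟩,⟨0,[(0,0)]⟩]⟩)

theorem ok93 : chk (cU (-1) true 10) t93 l60 = true := by decide +kernel

noncomputable def t125 : Tre :=
  (.K ⟨0,[1,1,-1],1,0,(⟨0,[(33,0),(3,0)]⟩,⟨0,[(10,0)]⟩),.k,.k,(.r 1 ⟨0,[(0,0)]⟩ ⟨2,[(3,0),(5,2),(12,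
  0),(0,0),(4,2),(2,1)]⟩),.k,.k,[⟨0,[(6,0),(33,0)]⟩,⟨0,[(3,0)]⟩,⟨1,[(8,0),(15,0),(0,0),(14,2),(3,
  1)]⟩,⟨0,[(5,0)]⟩]⟩)

theorem ok125 : chk (cU (-1) true 10) t125 l74 = true := by decide +kernel

noncomputable def t141 : Tre :=
  (.Q [0,0,0,1,0,0,0,0,0,1] (.pp false [-1,1]) (.R ⟨1,false,false,false,[1,-1,-1],[1,-1],[0,1,-1,-2,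
  0,0,0,-1],(⟨0,[(9,0)]⟩,⟨0,[(24,0),(2,0)]⟩),(⟨0,[(26,0)]⟩,⟨0,[(27,0)]⟩),⟨0,[(2,0)]⟩,.k,.k,(.r (-1)
  ⟨1,[(1,1),(28,1),(0,0),(0,0)]⟩ ⟨7,[(0,6),(2,7),(0,0),(2,6),(12,4),(7,3)]⟩),.k,.k,.k,⟨false,0,⟨0,
  [(1,0)]⟩,⟨1,[(0,0),(2,0),(3,0),(10,0),(9,0),(2,0),(0,0)]⟩⟩,⟨true,0,⟨0,[(4,0),(25,0)]⟩,⟨0,[(21,
  0)]⟩⟩,⟨false,0,⟨0,[(30,0)]⟩,⟨0,[(29,0),(2,0)]⟩⟩,⟨false,1,⟨0,[(18,0),(13,0)]⟩,⟨1,[(0,0),(0,0),(5,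
  0),(0,0)]⟩⟩,⟨true,0,⟨0,[(34,0)]⟩,⟨0,[]⟩⟩,⟨false,1,⟨0,[(3,0),(28,0)]⟩,⟨1,[(1,0),(5,0),(0,0),(5,0),
  (0,0),(14,0)]⟩⟩,[.a ⟨true,0,⟨0,[(30,0)]⟩,⟨0,[(0,0)]⟩⟩ ⟨true,0,⟨0,[(1,0),(28,0)]⟩,⟨3,[(0,2),(2,3),
  (0,0),(2,2),(12,0),(7,3)]⟩⟩ ⟨false,1,⟨0,[(4,0),(25,1),(0,0)]⟩,⟨3,[(0,2),(3,0),(2,2),(12,0)]⟩⟩,.o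
  ⟨false,1,⟨1,[(25,0),(4,1),(1,0)]⟩,⟨0,[(29,0)]⟩⟩,.o ⟨false,0,⟨0,[(17,0)]⟩,⟨7,[(11,3),(0,0),(0,0),
  (11,1),(5,3)]⟩⟩,.o ⟨false,0,⟨0,[(7,0),(12,0)]⟩,⟨0,[(4,0),(25,0),(0,0)]⟩⟩]⟩) (.Q [0,1,0,1,0,0,2,2,
  0,1,-2] (.p false [0,0,1] [1,0,-1] (⟨0,[(24,0)]⟩,⟨0,[(23,0)]⟩) .k 2 (⟨0,[(23,0)]⟩,⟨0,[(24,0)]⟩)
  .k (.r (-1) ⟨0,[(7,0),(6,0),(0,0),(2,1),(9,0),(2,0)]⟩ ⟨0,[(22,1)]⟩)) (.Q [0,-1,0,-2,0,0,-2,-2,0,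
  -1,2] (.p true [0,0,1] [1,0,-1] (⟨0,[(25,0)]⟩,⟨0,[(24,0)]⟩) .k 2 (⟨0,[(24,0)]⟩,⟨0,[(25,0)]⟩) .k
  (.r (-1) ⟨1,[(0,1),(7,1),(22,1),(0,0),(0,0)]⟩ ⟨0,[(23,1)]⟩)) (.R ⟨1,true,false,true,[1,0,-1],[0,1,
  1],[0,1,0,-1,0,0,0,-1],(⟨0,[(25,0)]⟩,⟨0,[(26,0)]⟩),(⟨0,[(26,0),(2,0)]⟩,⟨0,[(11,0)]⟩),⟨0,[(11,0)]⟩,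
  .k,.k,.k,(.x 0 ⟨0,[(8,0)]⟩ ⟨1,[(13,1),(12,3),(0,0),(1,1),(3,0)]⟩),(.r (-1) ⟨0,[(3,1),(30,0)]⟩ ⟨1,
  [(1,1),(4,0),(0,0),(1,2),(20,0)]⟩),.k,⟨true,0,⟨0,[(3,0),(6,0),(21,0)]⟩,⟨1,[(1,1),(4,0),(0,0),(1,
  2),(20,0)]⟩⟩,⟨false,1,⟨0,[(13,0),(19,0)]⟩,⟨0,[(9,0)]⟩⟩,⟨false,0,⟨0,[(32,0)]⟩,⟨0,[(31,0),(2,0)]⟩⟩,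
  ⟨true,0,⟨0,[(1,0)]⟩,⟨4,[(0,2),(9,0),(1,0),(5,1),(2,0)]⟩⟩,⟨true,0,⟨0,[(36,0)]⟩,⟨0,[]⟩⟩,⟨false,1,⟨0,
  [(1,0),(29,0),(2,0)]⟩,⟨0,[(0,0)]⟩⟩,[]⟩) (.I [1,-1,1,0,0,0,0,0,1] (.Q [0,-1,-1,0,1,0,-1,-1,-1,-1,1,
  1] (.p true [0,0,1] [1,0,0,-1] (⟨0,[(27,0)]⟩,⟨0,[(26,0)]⟩) .k 2 (⟨0,[(17,0)]⟩,⟨0,[(18,0)]⟩) .k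
  (.x 0 ⟨0,[(23,0),(3,0)]⟩ ⟨7,[(9,3),(5,0),(0,0),(13,3),(3,5)]⟩)) (.Q [0,0,0,0,0,1,0,0,0,-1,0,1]
  (.ed false [0,1,0,1] .k) (.I [1,-1,0,-1,0,0,0,0,1] (.R ⟨0,false,false,false,[1,0,0,-1],[1,0,-1],
  [0,1,0,0,0,0,0,0,-1],(⟨0,[(20,0)]⟩,⟨0,[(21,0)]⟩),(⟨0,[(29,0)]⟩,⟨0,[(30,0)]⟩),⟨0,[(1,0)]⟩,.k,.k,
  (.x (-1) ⟨7,[(8,3),(9,2),(0,2),(10,3),(0,1)]⟩ ⟨0,[(33,0)]⟩),.k,.k,.k,⟨false,1,⟨0,[(2,0),(2,0),(0,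
  0),(9,0),(3,0),(15,0)]⟩,⟨2,[(0,2),(9,1),(3,1),(1,0),(8,0)]⟩⟩,⟨true,0,⟨0,[(20,0),(2,0)]⟩,⟨2,[(6,0),
  (3,0),(6,0),(3,2)]⟩⟩,⟨true,0,⟨0,[(40,0)]⟩,⟨0,[]⟩⟩,⟨false,0,⟨1,[(0,0),(2,0),(6,0),(2,0),(0,0),(5,
  1),(1,0)]⟩,⟨0,[(2,0),(2,0),(30,0)]⟩⟩,⟨false,0,⟨0,[]⟩,⟨0,[]⟩⟩,⟨false,0,⟨0,[]⟩,⟨0,[]⟩⟩,[.o ⟨false,0,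
  ⟨0,[(6,0),(7,0),(1,0)]⟩,⟨3,[(0,1),(4,1),(12,1),(0,0),(11,0)]⟩⟩,.o ⟨false,1,⟨0,[(22,0),(15,0)]⟩,⟨0,
  [(24,0)]⟩⟩,.o ⟨false,1,⟨1,[(21,1),(9,0),(5,0)]⟩,⟨2,[(6,0),(3,0),(9,2),(2,1),(2,0)]⟩⟩,.a ⟨true,0,
  ⟨0,[(21,0)]⟩,⟨0,[(20,0)]⟩⟩ ⟨false,1,⟨1,[(18,0),(18,0)]⟩,⟨0,[(3,0)]⟩⟩ ⟨true,0,⟨0,[(6,0),(7,0),(1,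
  0),(3,0)]⟩,⟨0,[(21,0),(2,0)]⟩⟩]⟩) (.I [0,0,2,1,-1,0,0,-1,1] (.I [1,0,-1,-1,1,0,0,1,-1] (.R ⟨0,
  false,false,false,[1,0,0,-1],[1,0,-1],[1,0,0,-1,0,0,0,0,-1],(⟨0,[(22,0)]⟩,⟨0,[(23,0)]⟩),(⟨0,[(31,
  0)]⟩,⟨0,[(32,0)]⟩),⟨0,[(3,0)]⟩,.k,.k,(.x (-1) ⟨7,[(10,3),(9,2),(0,2),(10,3),(0,1)]⟩ ⟨0,[(35,0)]⟩),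
  .k,.k,.k,⟨false,1,⟨0,[(0,0)]⟩,⟨0,[(1,0),(37,0)]⟩⟩,⟨true,0,⟨0,[(22,0),(2,0)]⟩,⟨2,[(8,0),(3,0),(6,
  0),(3,2)]⟩⟩,⟨true,0,⟨0,[(38,0)]⟩,⟨0,[(37,0)]⟩⟩,⟨false,0,⟨1,[(1,0),(3,0),(2,0),(6,0),(0,0),(5,1),
  (16,0)]⟩,⟨4,[(0,1),(3,2),(2,2),(0,0),(10,0),(3,1)]⟩⟩,⟨false,0,⟨0,[]⟩,⟨0,[]⟩⟩,⟨false,0,⟨0,[]⟩,⟨0,
  []⟩⟩,[.o ⟨false,0,⟨0,[(8,0),(7,0),(1,0)]⟩,⟨11,[(0,3),(6,3),(12,0),(0,2),(6,3),(4,1),(6,1)]⟩⟩,.o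
  ⟨false,1,⟨0,[(24,0),(15,0)]⟩,⟨0,[(26,0)]⟩⟩,.o ⟨false,1,⟨1,[(23,1),(9,0),(5,0)]⟩,⟨2,[(8,0),(3,0),
  (9,2),(2,1),(2,0)]⟩⟩,.a ⟨true,0,⟨0,[(23,0)]⟩,⟨0,[(22,0)]⟩⟩ ⟨false,1,⟨0,[(0,0),(15,0)]⟩,⟨11,[(1,3),
  (3,1),(0,1),(5,1),(2,1),(2,1),(2,2),(18,0)]⟩⟩ ⟨true,0,⟨0,[(8,0),(7,0),(1,0),(3,0)]⟩,⟨0,[(23,0),(2,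
  0)]⟩⟩]⟩) (.R ⟨0,false,false,false,[1,0,0,-1],[1,0,-1],[0,1,0,0,0,0,0,0,-1],(⟨0,[(22,0)]⟩,⟨0,[(23,
  0)]⟩),(⟨0,[(31,0)]⟩,⟨0,[(32,0)]⟩),⟨0,[(3,0)]⟩,.k,.k,(.x (-1) ⟨7,[(10,3),(9,2),(0,2),(10,3),(0,
  1)]⟩ ⟨0,[(35,0)]⟩),.k,.k,.k,⟨false,1,⟨3,[(2,1),(4,1),(7,1),(4,0),(17,3),(0,2)]⟩,⟨1,[(0,0),(4,0),
  (10,0),(21,0),(0,0)]⟩⟩,⟨true,0,⟨0,[(22,0),(2,0)]⟩,⟨2,[(8,0),(3,0),(6,0),(3,2)]⟩⟩,⟨true,0,⟨0,[(42,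
  0)]⟩,⟨0,[]⟩⟩,⟨false,0,⟨3,[(0,1),(7,1),(6,1),(0,1),(4,0),(0,3),(17,0)]⟩,⟨0,[(4,0),(2,0),(30,0)]⟩⟩,
  ⟨false,0,⟨0,[]⟩,⟨0,[]⟩⟩,⟨false,0,⟨0,[]⟩,⟨0,[]⟩⟩,[.o ⟨false,0,⟨5,[(0,1),(1,1),(5,2),(0,0),(5,2),(0,
  2),(22,1)]⟩,⟨7,[(7,3),(0,3),(11,2),(0,2),(18,1)]⟩⟩,.o ⟨false,1,⟨0,[(24,0),(15,0)]⟩,⟨0,[(26,0)]⟩⟩,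
  .o ⟨false,1,⟨1,[(23,1),(9,0),(5,0)]⟩,⟨2,[(8,0),(3,0),(9,2),(2,1),(2,0)]⟩⟩,.a ⟨true,0,⟨0,[(23,0)]⟩,
  ⟨0,[(22,0)]⟩⟩ ⟨false,1,⟨1,[(20,0),(18,0)]⟩,⟨0,[(5,0)]⟩⟩ ⟨true,0,⟨5,[(0,1),(1,1),(5,2),(0,0),(5,2),
  (0,2),(5,5),(16,1)]⟩,⟨0,[(23,0),(2,0)]⟩⟩]⟩)) (.R ⟨0,false,false,true,[1,0,0,-1],[0,1],[0,1,0,0,0,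
  0,0,0,-1],(⟨0,[(21,0)]⟩,⟨0,[(22,0)]⟩),(⟨0,[(34,0)]⟩,⟨0,[(33,0)]⟩),⟨0,[(2,0)]⟩,.k,.k,(.x (-1) ⟨7,
  [(9,3),(9,2),(0,2),(10,3),(0,1)]⟩ ⟨0,[(34,0)]⟩),(.x (-1) ⟨7,[(9,3),(9,2),(0,2),(10,3),(0,1)]⟩ ⟨0,
  [(34,0)]⟩),.k,.k,⟨false,1,⟨5,[(0,3),(7,1),(6,1),(3,0),(18,0)]⟩,⟨0,[(4,0),(31,0)]⟩⟩,⟨true,0,⟨0,
  [(21,0)]⟩,⟨2,[(7,0),(3,0),(10,2),(1,1),(2,0)]⟩⟩,⟨true,0,⟨0,[(41,0)]⟩,⟨0,[]⟩⟩,⟨false,0,⟨0,[(4,0),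
  (16,0),(14,0)]⟩,⟨49,[(0,19),(2,23),(2,1),(0,31),(10,9),(0,2),(2,25),(9,2),(2,13)]⟩⟩,⟨false,0,⟨0,
  []⟩,⟨0,[]⟩⟩,⟨false,0,⟨0,[]⟩,⟨0,[]⟩⟩,[.o ⟨false,0,⟨0,[(36,0)]⟩,⟨3,[(7,3),(11,0),(0,0),(18,1)]⟩⟩,.o
  ⟨false,1,⟨3,[(19,0),(0,0),(15,3),(2,1)]⟩,⟨0,[(7,0)]⟩⟩,.o ⟨false,1,⟨1,[(22,1),(9,0),(5,0)]⟩,⟨2,[(7,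
  0),(3,0),(9,2),(2,1),(2,0)]⟩⟩,.a ⟨true,0,⟨0,[(22,0)]⟩,⟨0,[(21,0)]⟩⟩ ⟨false,1,⟨1,[(19,0),(18,0)]⟩,
  ⟨0,[(4,0)]⟩⟩ ⟨true,0,⟨0,[(21,0),(14,0)]⟩,⟨0,[(7,0),(14,0)]⟩⟩]⟩))) (.I [0,-1,-2,-2,1,0,0,-1,-1]
  (.R ⟨1,false,false,true,[1,0,0,-1],[0,1,1],[0,0,0,-1,0,0,0,0,-1],(⟨0,[(20,0)]⟩,⟨0,[(21,0)]⟩),(⟨0,
  [(30,0),(2,0)]⟩,⟨0,[(15,0)]⟩),⟨0,[(1,0)]⟩,.k,.k,(.x (-1) ⟨7,[(8,3),(9,2),(0,2),(10,3),(0,1)]⟩ ⟨0,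
  [(33,0)]⟩),(.x (-1) ⟨11,[(8,3),(3,3),(0,1),(4,3),(0,3),(11,0),(5,2)]⟩ ⟨2,[(6,0),(3,0),(6,0),(12,
  2),(2,2)]⟩),(.r (-1) ⟨0,[(0,0),(39,0)]⟩ ⟨5,[(3,5),(0,2),(5,0),(0,1),(1,4),(12,0),(8,2)]⟩),.k,
  ⟨false,1,⟨0,[(0,0)]⟩,⟨0,[(3,0),(5,0),(6,0)]⟩⟩,⟨true,0,⟨2,[(6,0),(3,0),(6,0),(2,2)]⟩,⟨0,[(21,0),(1,
  0)]⟩⟩,⟨true,0,⟨0,[(36,0)]⟩,⟨0,[(35,0)]⟩⟩,⟨false,0,⟨0,[(3,0),(5,0),(10,0)]⟩,⟨1,[(0,0),(1,0),(18,0),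
  (1,0)]⟩⟩,⟨false,1,⟨3,[(18,0),(0,0),(18,1)]⟩,⟨0,[]⟩⟩,⟨false,0,⟨0,[(3,0),(0,0),(1,0),(7,0),(1,0),(3,
  0)]⟩,⟨0,[(0,0),(20,0),(1,0)]⟩⟩,[.o ⟨false,0,⟨0,[(9,0)]⟩,⟨3,[(0,1),(2,1),(19,1),(1,1),(5,0),(6,
  0)]⟩⟩,.o ⟨false,1,⟨3,[(4,1),(13,0),(0,0),(11,0),(6,0)]⟩,⟨1,[(6,0),(0,0),(5,0),(0,0)]⟩⟩,.o ⟨false,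
  1,⟨1,[(21,1),(9,0),(5,0)]⟩,⟨2,[(6,0),(3,0),(9,2),(2,1),(2,0)]⟩⟩,.a ⟨true,0,⟨0,[(21,0)]⟩,⟨0,[(20,
  0)]⟩⟩ ⟨false,1,⟨9,[(0,7),(3,1),(0,1),(7,3),(4,0),(15,1),(3,0)]⟩,⟨0,[(3,0),(31,0)]⟩⟩ ⟨true,0,⟨0,
  [(9,0),(10,0)]⟩,⟨1,[(6,0),(0,0),(5,0),(0,0),(6,1)]⟩⟩]⟩) (.R ⟨1,false,false,false,[1,0,0,-1],[1,0,
  -1],[0,1,0,-1,0,0,0,0,-1],(⟨0,[(20,0)]⟩,⟨0,[(21,0)]⟩),(⟨0,[(29,0)]⟩,⟨0,[(30,0)]⟩),⟨0,[(1,0)]⟩,.k,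
  .k,(.x (-1) ⟨7,[(8,3),(9,2),(0,2),(10,3),(0,1)]⟩ ⟨0,[(33,0)]⟩),.k,(.x 0 ⟨5,[(6,3),(1,2),(1,3),(6,
  0),(12,8)]⟩ ⟨7,[(12,3),(5,2),(0,2),(13,11),(3,1)]⟩),.k,⟨false,1,⟨0,[(2,0),(2,0),(0,0),(9,0),(3,0),
  (15,1)]⟩,⟨0,[(0,0),(13,1),(21,0),(0,0)]⟩⟩,⟨true,0,⟨0,[(20,0),(2,0)]⟩,⟨2,[(6,0),(3,0),(6,0),(3,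
  2)]⟩⟩,⟨false,0,⟨0,[(36,0)]⟩,⟨0,[(35,0),(2,0)]⟩⟩,⟨false,0,⟨7,[(0,1),(2,5),(2,2),(0,0),(5,2),(0,6),
  (5,7),(1,1),(14,1)]⟩,⟨0,[(2,0),(2,0),(30,0)]⟩⟩,⟨true,0,⟨0,[(40,0)]⟩,⟨0,[]⟩⟩,⟨false,0,⟨9,[(0,5),(2,
  3),(2,1),(6,3),(0,13),(5,9),(1,1),(8,0),(5,4)]⟩,⟨0,[(2,0),(2,0),(30,1)]⟩⟩,[.o ⟨false,0,⟨0,[(6,0),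
  (7,0),(1,0)]⟩,⟨7,[(5,3),(0,3),(11,2),(0,2),(18,1)]⟩⟩,.o ⟨false,1,⟨0,[(22,0),(15,0)]⟩,⟨0,[(24,
  0)]⟩⟩,.o ⟨false,1,⟨1,[(21,1),(9,0),(5,0)]⟩,⟨2,[(6,0),(3,0),(9,2),(2,1),(2,0)]⟩⟩,.a ⟨true,0,⟨0,
  [(21,0)]⟩,⟨0,[(20,0)]⟩⟩ ⟨false,1,⟨1,[(18,0),(17,1),(0,0)]⟩,⟨3,[(0,1),(2,1),(10,1),(22,0),(0,0)]⟩⟩
  ⟨true,0,⟨0,[(6,0),(7,0),(1,0),(3,0)]⟩,⟨0,[(21,0),(2,0)]⟩⟩]⟩))) (.K ⟨0,[0,0,0,1],0,(-1),(⟨0,[(19,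
  0)]⟩,⟨0,[(18,0)]⟩),.k,(.x 0 ⟨3,[(6,1),(4,1),(12,4),(0,0),(2,1)]⟩ ⟨0,[(31,0),(3,0)]⟩),(.x 0 ⟨0,
  [(31,0)]⟩ ⟨7,[(6,3),(9,2),(0,2),(10,3),(0,1)]⟩),.k,.k,[⟨0,[(19,0)]⟩,⟨0,[(18,0)]⟩,⟨1,[(16,0),(2,1),
  (15,0),(2,1)]⟩,⟨0,[(0,0),(3,0),(7,0),(1,0)]⟩]⟩)) (.Q [0,1,1,0,0,0,0,0,1,0,0,-1] (.p false [0,0,0,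
  1] [] (⟨0,[(18,0)]⟩,⟨0,[(17,0)]⟩) .k 0 (⟨0,[]⟩,⟨0,[]⟩) .k .k) (.K ⟨0,[0,0,0,1],0,0,(⟨0,[(19,0)]⟩,
  ⟨0,[(18,0)]⟩),.k,(.r (-1) ⟨1,[(17,0),(16,1),(0,0)]⟩ ⟨5,[(1,5),(6,0),(0,4),(1,4),(12,3),(7,2)]⟩),
  (.x 0 ⟨0,[(31,0)]⟩ ⟨7,[(6,3),(9,2),(0,2),(10,3),(0,1)]⟩),.k,.k,[⟨0,[(19,0)]⟩,⟨0,[(18,0)]⟩,⟨0,[(1,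
  0),(17,0)]⟩,⟨0,[(0,0)]⟩]⟩) (.Q [0,0,0,0,0,-1,0,0,0,1,0,-1] (.ed true [0,1,0,1] .k) (.R ⟨1,false,
  false,false,[1,0,0,-1],[1,0,-1],[0,1,0,-1,0,0,0,0,-1],(⟨0,[(19,0)]⟩,⟨0,[(20,0)]⟩),(⟨0,[(28,0)]⟩,
  ⟨0,[(29,0)]⟩),⟨0,[(0,0)]⟩,.k,.k,(.x (-1) ⟨7,[(7,3),(9,2),(0,2),(10,3),(0,1)]⟩ ⟨0,[(32,0)]⟩),.k,
  (.x 0 ⟨5,[(5,3),(1,2),(1,3),(6,0),(12,8)]⟩ ⟨7,[(11,3),(5,2),(0,2),(13,11),(3,1)]⟩),.k,⟨false,0,⟨3,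
  [(1,2),(0,0),(1,1),(0,4),(9,3),(3,2),(15,4)]⟩,⟨5,[(9,3),(3,3),(1,1),(2,2),(5,1),(12,2)]⟩⟩,⟨true,0,
  ⟨0,[(19,0),(2,0)]⟩,⟨2,[(5,0),(3,0),(6,0),(3,2)]⟩⟩,⟨false,0,⟨0,[(35,0)]⟩,⟨0,[(34,0),(2,0)]⟩⟩,
  ⟨false,1,⟨1,[(18,0),(0,1),(2,1),(4,1),(9,0)]⟩,⟨0,[(1,0),(21,0)]⟩⟩,⟨true,0,⟨0,[(39,0)]⟩,⟨0,[]⟩⟩,
  ⟨false,1,⟨1,[(9,1),(2,1),(5,0),(0,1),(7,1),(9,0)]⟩,⟨0,[(1,0),(21,0),(11,0)]⟩⟩,[.o ⟨false,0,⟨0,[(5,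
  0),(7,0),(1,0)]⟩,⟨7,[(4,3),(0,3),(11,2),(0,2),(18,1)]⟩⟩,.o ⟨false,1,⟨0,[(21,0),(15,0)]⟩,⟨0,[(23,
  0)]⟩⟩,.o ⟨false,1,⟨1,[(20,1),(9,0),(5,0)]⟩,⟨2,[(5,0),(3,0),(9,2),(2,1),(2,0)]⟩⟩,.a ⟨true,0,⟨0,
  [(20,0)]⟩,⟨0,[(19,0)]⟩⟩ ⟨false,0,⟨1,[(1,0),(0,0),(2,0),(13,0),(15,0)]⟩,⟨5,[(9,1),(0,3),(1,3),(5,
  2),(6,1),(11,2)]⟩⟩ ⟨true,0,⟨0,[(5,0),(7,0),(1,0),(3,0)]⟩,⟨0,[(20,0),(2,0)]⟩⟩]⟩) (.R ⟨0,false,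
  false,false,[1,0,0,-1],[1,0,-1],[0,1,0,0,0,0,0,0,-1],(⟨0,[(19,0)]⟩,⟨0,[(20,0)]⟩),(⟨0,[(28,0)]⟩,⟨0,
  [(29,0)]⟩),⟨0,[(0,0)]⟩,.k,.k,(.x (-1) ⟨7,[(7,3),(9,2),(0,2),(10,3),(0,1)]⟩ ⟨0,[(32,0)]⟩),.k,.k,.k,
  ⟨false,0,⟨3,[(1,2),(0,0),(1,1),(0,4),(9,3),(3,2),(15,0)]⟩,⟨1,[(18,0),(8,1),(9,0)]⟩⟩,⟨true,0,⟨0,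
  [(19,0),(2,0)]⟩,⟨2,[(5,0),(3,0),(6,0),(3,2)]⟩⟩,⟨true,0,⟨0,[(39,0)]⟩,⟨0,[]⟩⟩,⟨false,1,⟨1,[(18,0),
  (0,1),(2,1),(4,1),(9,0)]⟩,⟨0,[(1,0),(21,0)]⟩⟩,⟨false,0,⟨0,[]⟩,⟨0,[]⟩⟩,⟨false,0,⟨0,[]⟩,⟨0,[]⟩⟩,[.o
  ⟨false,0,⟨0,[(5,0),(7,0),(1,0)]⟩,⟨7,[(4,3),(0,3),(11,2),(0,2),(18,1)]⟩⟩,.o ⟨false,1,⟨0,[(21,0),
  (15,0)]⟩,⟨0,[(23,0)]⟩⟩,.o ⟨false,1,⟨1,[(20,1),(9,0),(5,0)]⟩,⟨2,[(5,0),(3,0),(9,2),(2,1),(2,0)]⟩⟩,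
  .a ⟨true,0,⟨0,[(20,0)]⟩,⟨0,[(19,0)]⟩⟩ ⟨false,0,⟨2,[(1,1),(0,0),(2,1),(3,0),(5,0),(3,1)]⟩,⟨1,[(18,
  0),(6,0),(0,0),(10,0)]⟩⟩ ⟨true,0,⟨0,[(5,0),(7,0),(1,0),(3,0)]⟩,⟨0,[(20,0),(2,0)]⟩⟩]⟩))))) (.Q [0,
  1,0,0,0,0,2,2,0,1,-2] (.p false [0,0,1] [1,0,-1] (⟨0,[(25,0)]⟩,⟨0,[(24,0)]⟩) .k 2 (⟨0,[(24,0)]⟩,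
  ⟨0,[(25,0)]⟩) .k (.r (-1) ⟨0,[(8,0),(6,0),(0,0),(2,1),(9,0),(2,0)]⟩ ⟨0,[(23,1)]⟩)) (.R ⟨1,true,
  false,true,[1,0,-1],[0,0,1],[0,1,0,-1,0,0,0,-1],(⟨0,[(25,0)]⟩,⟨0,[(26,0)]⟩),(⟨0,[(26,0)]⟩,⟨0,[(25,
  0)]⟩),⟨0,[(11,0)]⟩,.k,.k,.k,.k,(.x 0 ⟨0,[(8,0)]⟩ ⟨1,[(13,1),(12,3),(0,0),(1,1),(3,0)]⟩),.k,⟨false,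
  0,⟨0,[(3,0),(6,0)]⟩,⟨7,[(0,5),(4,3),(3,5),(2,3),(17,3),(2,4),(0,2)]⟩⟩,⟨true,0,⟨0,[(13,0)]⟩,⟨0,[(9,
  0)]⟩⟩,⟨false,0,⟨0,[(32,0)]⟩,⟨0,[(31,0),(2,0)]⟩⟩,⟨true,0,⟨0,[(0,0)]⟩,⟨0,[(1,0),(29,0)]⟩⟩,⟨true,0,
  ⟨0,[(36,0)]⟩,⟨0,[]⟩⟩,⟨false,1,⟨7,[(0,5),(4,3),(1,1),(4,1),(1,0),(0,0),(18,5)]⟩,⟨0,[(1,0)]⟩⟩,[]⟩)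
  (.I [1,-1,0,0,0,0,0,-1,1] (.Q [0,0,0,0,0,1,0,0,0,-1,0,1] (.ed false [0,1,0,1] .k) (.Q [0,-1,-1,-1,
  1,0,0,0,-1,-1,0,1] (.p true [0,0,0,1] [1] (⟨0,[(19,0)]⟩,⟨0,[(18,0)]⟩) .k 1 (⟨0,[]⟩,⟨0,[]⟩) .k .k)
  (.R ⟨0,false,false,false,[1,0,0,-1],[1,0,-1],[0,1,0,0,0,0,0,0,-1],(⟨0,[(19,0)]⟩,⟨0,[(20,0)]⟩),(⟨0,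
  [(28,0)]⟩,⟨0,[(29,0)]⟩),⟨0,[(1,0)]⟩,.k,.k,(.x (-1) ⟨7,[(7,3),(9,2),(0,2),(10,3),(0,1)]⟩ ⟨0,[(32,
  0)]⟩),.k,.k,.k,⟨false,1,⟨0,[(0,0),(14,0),(3,0),(3,0)]⟩,⟨0,[(2,0)]⟩⟩,⟨true,0,⟨0,[(19,0),(2,0)]⟩,⟨2,
  [(5,0),(3,0),(6,0),(3,2)]⟩⟩,⟨true,0,⟨0,[(39,0)]⟩,⟨0,[]⟩⟩,⟨false,0,⟨0,[(2,0),(16,0),(2,0)]⟩,⟨0,[(0,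
  0),(7,0),(10,0),(0,0)]⟩⟩,⟨false,0,⟨0,[]⟩,⟨0,[]⟩⟩,⟨false,0,⟨0,[]⟩,⟨0,[]⟩⟩,[.o ⟨false,0,⟨3,[(3,1),
  (1,0),(2,0),(12,0)]⟩,⟨3,[(17,0),(0,0),(4,3),(13,1)]⟩⟩,.o ⟨false,1,⟨3,[(3,1),(13,0),(0,0),(11,0),
  (6,0)]⟩,⟨0,[(23,0)]⟩⟩,.o ⟨false,1,⟨1,[(20,1),(9,0),(5,0)]⟩,⟨2,[(5,0),(3,0),(9,2),(2,1),(2,0)]⟩⟩,
  .a ⟨true,0,⟨0,[(20,0)]⟩,⟨0,[(19,0)]⟩⟩ ⟨false,1,⟨1,[(17,0),(18,0)]⟩,⟨1,[(2,1),(9,0),(6,0),(0,0),(2,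
  1),(9,0)]⟩⟩ ⟨true,0,⟨3,[(3,1),(1,0),(2,0),(10,3),(1,0)]⟩,⟨0,[(20,0),(2,0)]⟩⟩]⟩) (.K ⟨0,[0,0,0,1],
  0,(-1),(⟨0,[(20,0)]⟩,⟨0,[(19,0)]⟩),.k,(.x 0 ⟨3,[(7,1),(4,1),(12,4),(0,0),(2,1)]⟩ ⟨0,[(32,0),(3,
  0)]⟩),(.x 0 ⟨0,[(32,0)]⟩ ⟨7,[(7,3),(9,2),(0,2),(10,3),(0,1)]⟩),.k,.k,[⟨0,[(20,0)]⟩,⟨0,[(19,0)]⟩,
  ⟨1,[(17,0),(2,1),(15,0),(2,1)]⟩,⟨0,[(0,0),(4,0)]⟩]⟩)) (.I [0,0,-1,-1,1,0,0,1,-1] (.R ⟨1,false,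
  false,false,[1,0,0,-1],[1,0,-1],[0,0,0,-1,0,0,0,0,-1],(⟨0,[(19,0)]⟩,⟨0,[(20,0)]⟩),(⟨0,[(28,0)]⟩,
  ⟨0,[(29,0)]⟩),⟨0,[(1,0)]⟩,.k,.k,(.x (-1) ⟨7,[(7,3),(9,2),(0,2),(10,3),(0,1)]⟩ ⟨0,[(32,0)]⟩),.k,
  (.r (-1) ⟨0,[(0,0)]⟩ ⟨1,[(2,1),(22,0),(0,0),(7,1)]⟩),.k,⟨false,1,⟨0,[(0,0)]⟩,⟨0,[(2,0),(31,0)]⟩⟩,
  ⟨true,0,⟨0,[(19,0),(2,0)]⟩,⟨2,[(5,0),(3,0),(6,0),(3,2)]⟩⟩,⟨true,0,⟨0,[(35,0)]⟩,⟨0,[(34,0)]⟩⟩,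
  ⟨false,0,⟨0,[(2,0),(16,0),(2,0)]⟩,⟨0,[(0,0),(8,0),(10,0)]⟩⟩,⟨false,1,⟨3,[(17,0),(0,0),(18,1)]⟩,⟨0,
  []⟩⟩,⟨false,0,⟨0,[(2,0),(6,0),(2,0),(6,0)]⟩,⟨2,[(0,2),(4,0),(3,0),(6,0),(3,2)]⟩⟩,[.o ⟨false,0,⟨3,
  [(3,1),(1,0),(2,0),(12,0)]⟩,⟨3,[(17,0),(0,0),(4,3),(13,1)]⟩⟩,.o ⟨false,1,⟨3,[(3,1),(13,0),(0,0),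
  (11,0),(6,0)]⟩,⟨0,[(23,0)]⟩⟩,.o ⟨false,1,⟨1,[(20,1),(9,0),(5,0)]⟩,⟨2,[(5,0),(3,0),(9,2),(2,1),(2,
  0)]⟩⟩,.a ⟨true,0,⟨0,[(20,0)]⟩,⟨0,[(19,0)]⟩⟩ ⟨false,1,⟨0,[(0,0),(12,0)]⟩,⟨0,[(2,0),(5,0),(17,0)]⟩⟩
  ⟨true,0,⟨3,[(3,1),(1,0),(2,0),(10,3),(1,0)]⟩,⟨0,[(20,0),(2,0)]⟩⟩]⟩) (.Q [0,1,1,0,-1,0,0,0,1,0,0,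
  -1] (.p false [0,0,0,1] [] (⟨0,[(20,0)]⟩,⟨0,[(19,0)]⟩) .k 0 (⟨0,[]⟩,⟨0,[]⟩) .k .k) (.K ⟨0,[0,0,0,
  1],0,(-1),(⟨0,[(21,0)]⟩,⟨0,[(20,0)]⟩),.k,(.x 0 ⟨3,[(8,1),(4,1),(12,4),(0,0),(2,1)]⟩ ⟨0,[(33,0),(3,
  0)]⟩),(.x 0 ⟨0,[(33,0)]⟩ ⟨7,[(8,3),(9,2),(0,2),(10,3),(0,1)]⟩),.k,.k,[⟨0,[(21,0)]⟩,⟨0,[(20,0)]⟩,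
  ⟨1,[(18,0),(2,1),(15,0),(2,1)]⟩,⟨0,[(0,0)]⟩]⟩) (.R ⟨1,false,false,false,[1,0,0,-1],[1,0,-1],[0,1,
  0,-1,0,0,0,0,-1],(⟨0,[(20,0)]⟩,⟨0,[(21,0)]⟩),(⟨0,[(29,0)]⟩,⟨0,[(30,0)]⟩),⟨0,[(2,0)]⟩,.k,.k,(.x
  (-1) ⟨7,[(8,3),(9,2),(0,2),(10,3),(0,1)]⟩ ⟨0,[(33,0)]⟩),.k,(.x 0 ⟨5,[(6,3),(1,2),(1,3),(6,0),(12,
  8)]⟩ ⟨7,[(12,3),(5,2),(0,2),(13,11),(3,1)]⟩),.k,⟨false,1,⟨0,[(0,0),(5,0),(9,0),(3,0),(3,0),(11,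
  0)]⟩,⟨1,[(1,1),(35,0),(0,0)]⟩⟩,⟨true,0,⟨0,[(20,0),(2,0)]⟩,⟨2,[(6,0),(3,0),(6,0),(3,2)]⟩⟩,⟨false,0,
  ⟨0,[(36,0)]⟩,⟨0,[(35,0),(2,0)]⟩⟩,⟨false,0,⟨0,[(3,0),(16,0),(2,0)]⟩,⟨0,[(0,0),(23,0)]⟩⟩,⟨true,0,⟨0,
  [(40,0)]⟩,⟨0,[]⟩⟩,⟨false,0,⟨3,[(1,3),(11,1),(6,3),(10,0),(5,0),(0,1)]⟩,⟨0,[(0,0),(23,0),(11,0)]⟩⟩,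
  [.o ⟨false,0,⟨3,[(4,1),(1,0),(2,0),(12,0)]⟩,⟨3,[(18,0),(0,0),(4,3),(13,1)]⟩⟩,.o ⟨false,1,⟨3,[(4,
  1),(13,0),(0,0),(11,0),(6,0)]⟩,⟨0,[(24,0)]⟩⟩,.o ⟨false,1,⟨1,[(21,1),(9,0),(5,0)]⟩,⟨2,[(6,0),(3,0),
  (9,2),(2,1),(2,0)]⟩⟩,.a ⟨true,0,⟨0,[(21,0)]⟩,⟨0,[(20,0)]⟩⟩ ⟨false,1,⟨1,[(18,0),(17,1),(0,0)]⟩,⟨3,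
  [(1,1),(7,1),(3,0),(5,0),(0,0),(0,0),(12,2),(2,0)]⟩⟩ ⟨true,0,⟨3,[(4,1),(1,0),(2,0),(10,3),(1,0)]⟩,
  ⟨0,[(21,0),(2,0)]⟩⟩]⟩)))) (.I [0,0,-1,-1,1,0,0,1,1] (.Q [0,0,0,0,0,1,0,0,0,-1,0,1] (.ed false [0,
  1,0,1] .k) (.Q [0,0,1,0,0,0,1,1,1,1,-1,-1] (.p false [0,0,1] [1,0,0,-1] (⟨0,[(29,0)]⟩,⟨0,[(28,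
  0)]⟩) .k 2 (⟨0,[(19,0)]⟩,⟨0,[(20,0)]⟩) .k (.r (-1) ⟨3,[(1,1),(6,1),(9,0),(7,1),(10,0)]⟩ ⟨0,[(2,0),
  (10,0),(13,0)]⟩)) (.R ⟨0,false,false,true,[1,0,0,-1],[0,0,1],[1,0,0,0,0,0,0,0,-1],(⟨0,[(20,0)]⟩,
  ⟨0,[(21,0)]⟩),(⟨0,[(30,0)]⟩,⟨0,[(29,0)]⟩),⟨0,[(1,0)]⟩,.k,.k,(.x (-1) ⟨7,[(8,3),(9,2),(0,2),(10,3),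
  (0,1)]⟩ ⟨0,[(33,0)]⟩),.k,.k,.k,⟨true,0,⟨0,[(3,0),(10,1)]⟩,⟨0,[(0,0),(5,0),(9,0),(4,0)]⟩⟩,⟨false,0,
  ⟨2,[(6,0),(3,0),(6,0),(2,2)]⟩,⟨3,[(13,1),(7,3),(9,0),(5,2)]⟩⟩,⟨true,0,⟨0,[]⟩,⟨0,[(40,0)]⟩⟩,⟨false,
  0,⟨0,[(0,0)]⟩,⟨2,[(3,0),(0,1),(1,0),(3,0),(7,0),(2,2),(12,0),(2,1)]⟩⟩,⟨false,0,⟨0,[]⟩,⟨0,[]⟩⟩,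
  ⟨false,0,⟨0,[]⟩,⟨0,[]⟩⟩,[.o ⟨false,0,⟨0,[(24,0)]⟩,⟨3,[(4,1),(13,0),(0,0),(11,0),(6,0)]⟩⟩,.o
  ⟨false,1,⟨3,[(18,0),(0,0),(4,3),(13,1)]⟩,⟨3,[(4,1),(1,0),(2,0),(12,0)]⟩⟩,.o ⟨false,1,⟨1,[(21,1),
  (9,0),(5,0)]⟩,⟨2,[(6,0),(3,0),(9,2),(2,1),(2,0)]⟩⟩,.a ⟨true,0,⟨0,[(21,0)]⟩,⟨0,[(20,0)]⟩⟩ ⟨false,1,
  ⟨3,[(3,1),(10,1),(3,0),(15,1),(2,2)]⟩,⟨3,[(0,3),(3,1),(1,0),(2,0),(11,3),(0,0)]⟩⟩ ⟨true,0,⟨0,[(20,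
  0),(3,0)]⟩,⟨3,[(4,1),(1,0),(2,0),(11,3),(0,0)]⟩⟩]⟩) (.Q [0,1,1,0,0,0,0,0,1,0,0,-1] (.p false [0,0,
  0,1] [] (⟨0,[(21,0)]⟩,⟨0,[(20,0)]⟩) .k 0 (⟨0,[]⟩,⟨0,[]⟩) .k .k) (.K ⟨0,[0,0,0,1],0,0,(⟨0,[(22,
  0)]⟩,⟨0,[(21,0)]⟩),.k,(.r (-1) ⟨3,[(3,1),(4,1),(11,0),(18,0)]⟩ ⟨3,[(4,3),(0,1),(5,0),(0,2),(1,0),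
  (12,1),(7,0)]⟩),(.x 0 ⟨0,[(34,0)]⟩ ⟨7,[(9,3),(9,2),(0,2),(10,3),(0,1)]⟩),.k,.k,[⟨0,[(22,0)]⟩,⟨0,
  [(21,0)]⟩,⟨0,[(1,0),(19,0),(0,0),(2,0)]⟩,⟨0,[(0,0)]⟩]⟩) (.R ⟨0,false,false,false,[1,0,0,-1],[1,0,
  -1],[0,1,0,0,0,0,0,0,-1],(⟨0,[(21,0)]⟩,⟨0,[(22,0)]⟩),(⟨0,[(30,0)]⟩,⟨0,[(31,0)]⟩),⟨0,[(2,0)]⟩,.k,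
  .k,(.x (-1) ⟨7,[(9,3),(9,2),(0,2),(10,3),(0,1)]⟩ ⟨0,[(34,0)]⟩),.k,.k,.k,⟨false,0,⟨0,[(0,0),(6,0),
  (9,0),(3,0),(3,0)]⟩,⟨1,[(20,0),(8,1),(9,0)]⟩⟩,⟨true,0,⟨0,[(21,0),(2,0)]⟩,⟨2,[(7,0),(3,0),(6,0),(3,
  2)]⟩⟩,⟨true,0,⟨0,[(41,0)]⟩,⟨0,[]⟩⟩,⟨false,1,⟨7,[(5,3),(13,0),(0,4),(0,7),(2,3),(2,3),(11,1)]⟩,⟨0,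
  [(0,0),(24,0)]⟩⟩,⟨false,0,⟨0,[]⟩,⟨0,[]⟩⟩,⟨false,0,⟨0,[]⟩,⟨0,[]⟩⟩,[.o ⟨false,0,⟨3,[(5,1),(1,0),(2,
  0),(12,0)]⟩,⟨3,[(19,0),(0,0),(4,3),(13,1)]⟩⟩,.o ⟨false,1,⟨3,[(5,1),(13,0),(0,0),(11,0),(6,0)]⟩,⟨0,
  [(25,0)]⟩⟩,.o ⟨false,1,⟨1,[(22,1),(9,0),(5,0)]⟩,⟨2,[(7,0),(3,0),(9,2),(2,1),(2,0)]⟩⟩,.a ⟨true,0,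
  ⟨0,[(22,0)]⟩,⟨0,[(21,0)]⟩⟩ ⟨false,0,⟨1,[(0,0),(0,0),(5,0),(2,0),(10,1)]⟩,⟨1,[(20,0),(6,0),(0,0),
  (10,0)]⟩⟩ ⟨true,0,⟨3,[(5,1),(1,0),(2,0),(10,3),(1,0)]⟩,⟨0,[(22,0),(2,0)]⟩⟩]⟩))) (.I [0,0,0,-1,0,0,
  0,-1,1] (.Q [0,-1,1,0,0,0,-1,-1,1,0,1,-1] (.p true [0,0,1] [0,0,0,1] (⟨0,[(30,0)]⟩,⟨0,[(29,0)]⟩)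
  .k 2 (⟨0,[(21,0)]⟩,⟨0,[(20,0)]⟩) .k (.x (-1) ⟨7,[(17,3),(0,0),(0,0),(10,7),(0,1),(5,3)]⟩ ⟨3,[(12,
  1),(13,0),(0,0),(5,1)]⟩)) (.R ⟨1,false,false,false,[1,0,0,-1],[1,-1,-1],[1,0,0,0,0,0,0,0,-1],(⟨0,
  [(21,0)]⟩,⟨0,[(22,0)]⟩),(⟨0,[(16,0)]⟩,⟨0,[(31,0),(2,0)]⟩),⟨0,[(2,0)]⟩,.k,.k,(.x (-1) ⟨7,[(9,3),(9,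
  2),(0,2),(10,3),(0,1)]⟩ ⟨0,[(34,0)]⟩),(.r 0 ⟨1,[(4,1),(6,0),(0,0),(1,0),(20,0)]⟩ ⟨3,[(1,3),(17,0),
  (0,0),(17,1)]⟩),.k,.k,⟨true,0,⟨1,[(4,1),(6,0),(0,0),(1,0),(20,0)]⟩,⟨0,[(1,0)]⟩⟩,⟨false,0,⟨0,[(21,
  0),(2,0)]⟩,⟨2,[(7,0),(3,0),(6,0),(3,2),(15,2)]⟩⟩,⟨true,0,⟨0,[]⟩,⟨0,[(41,0)]⟩⟩,⟨false,0,⟨0,[(0,0),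
  (36,0)]⟩,⟨1,[(4,1),(6,1),(10,1),(15,0),(0,0)]⟩⟩,⟨false,1,⟨0,[(36,0),(2,0)]⟩,⟨0,[(37,0)]⟩⟩,⟨false,
  0,⟨0,[(0,0)]⟩,⟨5,[(4,5),(2,1),(3,1),(6,1),(3,5),(15,2),(0,2)]⟩⟩,[.o ⟨false,0,⟨2,[(6,0),(0,1),(18,
  0)]⟩,⟨3,[(10,3),(8,0),(0,0),(18,1)]⟩⟩,.o ⟨false,1,⟨39,[(1,17),(1,5),(2,13),(0,1),(6,5),(4,11),(12,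
  8),(6,12)]⟩,⟨0,[(10,0)]⟩⟩,.o ⟨false,1,⟨1,[(22,1),(9,0),(5,0)]⟩,⟨2,[(7,0),(3,0),(9,2),(2,1),(2,
  0)]⟩⟩,.a ⟨true,0,⟨0,[(22,0)]⟩,⟨0,[(21,0)]⟩⟩ ⟨false,1,⟨3,[(4,1),(10,1),(3,0),(15,1),(2,2)]⟩,⟨0,[(0,
  0),(21,0),(2,0)]⟩⟩ ⟨true,0,⟨2,[(6,0),(0,1),(13,2),(4,0)]⟩,⟨0,[(10,0),(11,0)]⟩⟩]⟩) (.R ⟨1,true,
  false,true,[1,0,-1],[1,0,0,-1],[0,1,0,-1,0,0,0,-1],(⟨0,[(30,0)]⟩,⟨0,[(31,0)]⟩),(⟨0,[(21,0)]⟩,⟨0,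
  [(22,0)]⟩),⟨0,[(16,0)]⟩,.k,.k,.k,.k,(.r (-1) ⟨3,[(1,3),(17,0),(0,0),(17,1)]⟩ ⟨1,[(4,1),(6,0),(0,
  0),(1,0),(20,0)]⟩),.k,⟨true,0,⟨0,[(1,0)]⟩,⟨1,[(4,1),(6,0),(0,0),(1,0),(20,0)]⟩⟩,⟨false,1,⟨3,[(0,
  1),(0,1),(9,1),(10,1),(15,2),(0,0)]⟩,⟨0,[(21,0),(2,0)]⟩⟩,⟨false,0,⟨0,[(37,0)]⟩,⟨0,[(36,0),(2,
  0)]⟩⟩,⟨true,0,⟨0,[(0,0)]⟩,⟨0,[(1,0),(9,0),(2,0),(6,0)]⟩⟩,⟨true,0,⟨0,[(41,0)]⟩,⟨0,[]⟩⟩,⟨false,1,⟨0,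
  [(0,0),(35,0),(2,0)]⟩,⟨0,[(1,0),(5,0),(9,0),(3,0),(13,0)]⟩⟩,[]⟩)) (.Q [0,-1,-1,-1,0,0,0,0,-1,-1,0,
  1] (.p true [0,0,0,1] [1] (⟨0,[(21,0)]⟩,⟨0,[(20,0)]⟩) .k 1 (⟨0,[]⟩,⟨0,[]⟩) .k .k) (.R ⟨1,false,
  false,false,[1,0,0,-1],[1,0,-1],[0,1,0,-1,0,0,0,0,-1],(⟨0,[(21,0)]⟩,⟨0,[(22,0)]⟩),(⟨0,[(30,0)]⟩,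
  ⟨0,[(31,0)]⟩),⟨0,[(2,0)]⟩,.k,.k,(.x (-1) ⟨7,[(9,3),(9,2),(0,2),(10,3),(0,1)]⟩ ⟨0,[(34,0)]⟩),.k,
  (.x 0 ⟨5,[(7,3),(1,2),(1,3),(6,0),(12,8)]⟩ ⟨7,[(13,3),(5,2),(0,2),(13,11),(3,1)]⟩),.k,⟨false,0,⟨0,
  [(0,0),(16,0),(3,0),(3,0),(11,0)]⟩,⟨7,[(5,3),(5,3),(0,3),(6,0),(0,4),(18,1)]⟩⟩,⟨true,0,⟨0,[(21,0),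
  (2,0)]⟩,⟨2,[(7,0),(3,0),(6,0),(3,2)]⟩⟩,⟨false,0,⟨0,[(37,0)]⟩,⟨0,[(36,0),(2,0)]⟩⟩,⟨false,1,⟨7,[(5,
  3),(13,0),(0,4),(0,7),(2,3),(2,3),(11,1)]⟩,⟨0,[(0,0),(9,0),(10,0),(0,0)]⟩⟩,⟨true,0,⟨0,[(41,0)]⟩,
  ⟨0,[]⟩⟩,⟨false,1,⟨1,[(5,0),(5,0),(2,0),(5,0),(0,1),(5,0),(8,0),(2,0)]⟩,⟨0,[(0,0),(20,0),(0,0),(2,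
  0)]⟩⟩,[.o ⟨false,0,⟨3,[(5,1),(1,0),(2,0),(12,0)]⟩,⟨3,[(19,0),(0,0),(4,3),(13,1)]⟩⟩,.o ⟨false,1,⟨3,
  [(5,1),(13,0),(0,0),(11,0),(6,0)]⟩,⟨0,[(25,0)]⟩⟩,.o ⟨false,1,⟨1,[(22,1),(9,0),(5,0)]⟩,⟨2,[(7,0),
  (3,0),(9,2),(2,1),(2,0)]⟩⟩,.a ⟨true,0,⟨0,[(22,0)]⟩,⟨0,[(21,0)]⟩⟩ ⟨false,0,⟨2,[(0,1),(3,0),(3,0),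
  (12,1)]⟩,⟨5,[(11,1),(0,3),(1,3),(5,2),(6,1),(11,2)]⟩⟩ ⟨true,0,⟨3,[(5,1),(1,0),(2,0),(10,3),(1,
  0)]⟩,⟨0,[(22,0),(2,0)]⟩⟩]⟩) (.K ⟨0,[0,0,0,1],0,0,(⟨0,[(22,0)]⟩,⟨0,[(21,0)]⟩),.k,(.r (-1) ⟨3,[(3,
  1),(4,1),(11,0),(18,0)]⟩ ⟨4,[(1,4),(4,0),(5,0),(13,2),(0,3),(7,0)]⟩),(.x 0 ⟨0,[(34,0)]⟩ ⟨7,[(9,3),
  (9,2),(0,2),(10,3),(0,1)]⟩),.k,.k,[⟨0,[(22,0)]⟩,⟨0,[(21,0)]⟩,⟨0,[(1,0),(6,0),(13,0)]⟩,⟨0,[(0,0),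
  (6,0)]⟩]⟩)))) (.I [0,1,1,0,-1,0,0,0,-1] (.Q [0,1,1,0,0,0,0,0,1,0,0,-1] (.p false [0,0,0,1] [] (⟨0,
  [(20,0)]⟩,⟨0,[(19,0)]⟩) .k 0 (⟨0,[]⟩,⟨0,[]⟩) .k .k) (.K ⟨0,[0,0,0,1],0,0,(⟨0,[(21,0)]⟩,⟨0,[(20,
  0)]⟩),.k,(.r (-1) ⟨1,[(19,0),(16,1),(0,0)]⟩ ⟨11,[(2,3),(6,3),(1,3),(1,3),(4,3),(7,0),(0,0),(6,
  1)]⟩),(.x 0 ⟨0,[(33,0)]⟩ ⟨7,[(8,3),(9,2),(0,2),(10,3),(0,1)]⟩),.k,.k,[⟨0,[(21,0)]⟩,⟨0,[(20,0)]⟩,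
  ⟨0,[(1,0),(19,0),(15,0)]⟩,⟨0,[(0,0)]⟩]⟩) (.R ⟨1,false,false,true,[1,-1,-1],[0,0,0,1],[0,1,-1,-2,0,
  0,0,-1],(⟨0,[(15,0)]⟩,⟨0,[(30,0),(2,0)]⟩),(⟨0,[(21,0)]⟩,⟨0,[(20,0)]⟩),⟨0,[(8,0)]⟩,.k,.k,(.r (-1)
  ⟨1,[(7,1),(28,1),(0,0),(0,0)]⟩ ⟨3,[(9,3),(1,3),(1,3),(12,0),(0,0),(6,1)]⟩),(.r 0 ⟨5,[(0,2),(1,0),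
  (3,2),(0,3),(6,0),(3,0),(1,2)]⟩ ⟨1,[(9,1),(9,0),(7,1),(10,0)]⟩),(.r 0 ⟨0,[(0,0),(5,0),(0,0),(12,
  0)]⟩ ⟨1,[(9,1),(1,1),(1,1),(5,0),(6,0),(0,0),(10,0)]⟩),.k,⟨false,0,⟨0,[(0,0),(5,0),(0,0),(12,0)]⟩,
  ⟨1,[(9,1),(1,1),(1,1),(5,0),(18,0)]⟩⟩,⟨true,0,⟨2,[(6,0),(3,0),(6,0),(2,2)]⟩,⟨0,[(21,0),(1,0)]⟩⟩,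
  ⟨false,0,⟨0,[(36,0)]⟩,⟨0,[(35,0),(2,0)]⟩⟩,⟨false,1,⟨1,[(9,1),(9,0),(0,1),(5,0),(0,0),(10,0)]⟩,⟨8,
  [(0,7),(2,0),(1,3),(0,3),(0,0),(13,0),(0,0)]⟩⟩,⟨true,0,⟨0,[(40,0)]⟩,⟨0,[]⟩⟩,⟨false,1,⟨5,[(9,5),(0,
  1),(0,3),(1,3),(5,2),(0,5),(5,1),(11,2)]⟩,⟨5,[(0,4),(2,0),(1,2),(0,2),(0,0),(13,0),(14,4)]⟩⟩,[.a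
  ⟨true,0,⟨0,[(1,0),(17,0),(0,0)]⟩,⟨0,[(0,0)]⟩⟩ ⟨true,0,⟨0,[(7,0),(28,0)]⟩,⟨0,[(9,0),(1,0),(1,0),
  (20,0)]⟩⟩ ⟨false,1,⟨15,[(7,7),(1,7),(7,3),(0,0),(0,8),(0,15),(10,1),(5,3)]⟩,⟨0,[(0,0),(22,0)]⟩⟩,
  .o ⟨false,1,⟨7,[(18,0),(0,4),(0,7),(2,3),(2,3),(4,1)]⟩,⟨1,[(0,1),(5,0),(2,0),(12,0)]⟩⟩,.o ⟨false,
  0,⟨0,[(23,0)]⟩,⟨7,[(17,3),(0,0),(0,0),(11,1),(5,3)]⟩⟩,.o ⟨false,0,⟨0,[(13,0),(12,0)]⟩,⟨2,[(6,0),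
  (3,0),(6,0),(19,2)]⟩⟩]⟩)) (.Q [0,1,-1,0,0,0,0,0,-1,0,0,1] (.p true [0,0,0,1] [] (⟨0,[(20,0)]⟩,⟨0,
  [(19,0)]⟩) .k 0 (⟨0,[]⟩,⟨0,[]⟩) .k .k) (.Q [0,1,1,0,0,0,0,0,1,0,0,-1] (.p false [0,0,0,1] [] (⟨0,
  [(21,0)]⟩,⟨0,[(20,0)]⟩) .k 0 (⟨0,[]⟩,⟨0,[]⟩) .k .k) (.K ⟨0,[0,0,0,1],0,0,(⟨0,[(22,0)]⟩,⟨0,[(21,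
  0)]⟩),.k,(.r (-1) ⟨1,[(20,0),(16,1),(0,0)]⟩ ⟨11,[(3,3),(6,3),(1,3),(1,3),(4,3),(7,0),(0,0),(6,
  1)]⟩),(.x 0 ⟨0,[(34,0)]⟩ ⟨7,[(9,3),(9,2),(0,2),(10,3),(0,1)]⟩),.k,.k,[⟨0,[(22,0)]⟩,⟨0,[(21,0)]⟩,
  ⟨0,[(1,0)]⟩,⟨0,[(0,0)]⟩]⟩) (.Q [0,1,1,-1,0,0,0,0,1,0,0,-1] (.p false [0,0,0,1] [] (⟨0,[(22,0)]⟩,
  ⟨0,[(21,0)]⟩) .k 0 (⟨0,[]⟩,⟨0,[]⟩) .k .k) (.I [1,1,1,0,0,0,0,0,1] (.R ⟨2,false,false,true,[0,1],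
  [0,0,0,1],[],(⟨0,[]⟩,⟨0,[]⟩),(⟨0,[(24,0)]⟩,⟨0,[(23,0)]⟩),⟨0,[]⟩,.k,.k,.k,(.r 0 ⟨11,[(5,3),(6,3),
  (1,3),(1,3),(4,3),(7,0),(0,0),(6,1)]⟩ ⟨1,[(22,0),(16,1),(0,0)]⟩),.k,.k,⟨true,0,⟨29,[(2,15),(2,5),
  (0,5),(2,5),(11,0),(1,15),(10,4),(2,9)]⟩,⟨0,[(0,0)]⟩⟩,⟨false,0,⟨20,[(1,6),(3,4),(0,1),(2,0),(2,2),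
  (10,13),(2,2),(7,4),(2,5)]⟩,⟨0,[(3,0),(0,0)]⟩⟩,⟨false,1,⟨1,[(39,1),(0,0),(0,0)]⟩,⟨2,[(13,0),(0,1),
  (1,1),(12,0)]⟩⟩,⟨true,0,⟨0,[(1,0)]⟩,⟨3,[(2,2),(0,0),(9,1),(5,1)]⟩⟩,⟨false,1,⟨1,[(40,0),(0,0)]⟩,⟨1,
  [(29,0),(0,0)]⟩⟩,⟨false,1,⟨0,[(1,0),(36,0),(2,0)]⟩,⟨0,[(2,0)]⟩⟩,[.a ⟨true,0,⟨0,[(0,0),(22,0)]⟩,⟨0,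
  [(2,0)]⟩⟩ ⟨false,1,⟨3,[(21,0),(0,0),(17,1)]⟩,⟨0,[]⟩⟩ ⟨true,0,⟨2,[(1,2),(11,0),(0,1),(1,1),(12,
  0)]⟩,⟨0,[(2,0)]⟩⟩,.o ⟨false,1,⟨0,[(1,0),(36,0),(2,0)]⟩,⟨1,[(2,1),(6,0),(2,0),(12,0)]⟩⟩,.o ⟨false,
  1,⟨3,[(21,0),(0,0),(17,1)]⟩,⟨2,[(9,0),(3,0),(12,1),(2,0)]⟩⟩,.e ⟨false,1,⟨1,[(40,0),(0,0)]⟩,⟨1,
  [(29,0),(0,0)]⟩⟩ ⟨false,1,⟨0,[(1,0),(36,0),(2,0)]⟩,⟨0,[(2,0)]⟩⟩]⟩) (.Q [0,0,0,0,0,-1,0,0,0,1,0,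
  -1] (.ed true [0,1,0,1] .k) (.R ⟨1,false,false,false,[1,0,0,-1],[1,0,-1],[0,1,0,-1,0,0,0,0,-1],
  (⟨0,[(24,0)]⟩,⟨0,[(25,0)]⟩),(⟨0,[(33,0)]⟩,⟨0,[(34,0)]⟩),⟨0,[(0,0)]⟩,.k,.k,(.x (-1) ⟨7,[(12,3),(9,
  2),(0,2),(10,3),(0,1)]⟩ ⟨0,[(37,0)]⟩),.k,(.r (-1) ⟨1,[(7,1),(32,1),(0,0),(0,0)]⟩ ⟨0,[(6,0),(16,
  0)]⟩),.k,⟨false,0,⟨0,[(1,0),(18,0),(7,0),(11,1)]⟩,⟨7,[(8,3),(5,3),(0,3),(6,0),(0,4),(18,1)]⟩⟩,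
  ⟨true,0,⟨0,[(24,0),(2,0)]⟩,⟨2,[(10,0),(3,0),(6,0),(3,2)]⟩⟩,⟨false,0,⟨0,[(40,0)]⟩,⟨0,[(39,0),(2,
  0)]⟩⟩,⟨false,1,⟨19,[(2,7),(3,7),(1,5),(8,3),(4,2),(0,12),(0,11),(10,0),(6,10)]⟩,⟨0,[(3,0),(24,
  0)]⟩⟩,⟨true,0,⟨0,[(44,0)]⟩,⟨0,[]⟩⟩,⟨false,1,⟨11,[(6,7),(1,1),(8,3),(5,9),(0,11),(10,2),(3,3),(2,
  6)]⟩,⟨0,[(3,0),(24,0),(11,0)]⟩⟩,[.o ⟨false,0,⟨3,[(8,1),(1,0),(2,0),(12,0)]⟩,⟨3,[(22,0),(0,0),(4,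
  3),(13,1)]⟩⟩,.o ⟨false,1,⟨3,[(8,1),(13,0),(0,0),(11,0),(6,0)]⟩,⟨0,[(28,0)]⟩⟩,.o ⟨false,1,⟨1,[(4,
  0),(0,0),(19,0),(9,0)]⟩,⟨20,[(2,6),(3,4),(0,1),(2,0),(2,2),(10,13),(2,2),(7,4),(2,5)]⟩⟩,.a ⟨true,
  0,⟨0,[(25,0)]⟩,⟨0,[(24,0)]⟩⟩ ⟨false,0,⟨2,[(1,1),(5,0),(3,0),(28,1)]⟩,⟨5,[(14,1),(0,3),(1,3),(5,2),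
  (6,1),(11,2)]⟩⟩ ⟨true,0,⟨3,[(8,1),(1,0),(2,0),(10,3),(1,0)]⟩,⟨0,[(25,0),(2,0)]⟩⟩]⟩) (.R ⟨0,false,
  false,false,[1,0,0,-1],[1,0,-1],[1,0,1,0,0,0,0,-1],(⟨0,[(24,0)]⟩,⟨0,[(25,0)]⟩),(⟨0,[(33,0)]⟩,⟨0,
  [(34,0)]⟩),⟨0,[(0,0)]⟩,.k,.k,(.x (-1) ⟨7,[(12,3),(9,2),(0,2),(10,3),(0,1)]⟩ ⟨0,[(37,0)]⟩),.k,.k,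
  .k,⟨false,0,⟨0,[]⟩,⟨3,[(22,0),(0,0),(17,1)]⟩⟩,⟨true,0,⟨0,[(24,0),(2,0)]⟩,⟨2,[(10,0),(3,0),(6,0),
  (3,2)]⟩⟩,⟨true,0,⟨1,[(2,0),(3,0),(11,0),(4,0),(1,0)]⟩,⟨0,[(1,0),(18,0),(7,0),(11,0)]⟩⟩,⟨false,1,
  ⟨19,[(2,7),(3,7),(1,5),(8,3),(4,2),(0,12),(0,11),(10,0),(6,10)]⟩,⟨0,[(3,0),(24,0)]⟩⟩,⟨false,0,⟨0,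
  []⟩,⟨0,[]⟩⟩,⟨false,0,⟨0,[]⟩,⟨0,[]⟩⟩,[.o ⟨false,0,⟨3,[(8,1),(1,0),(2,0),(12,0)]⟩,⟨3,[(22,0),(0,0),
  (4,3),(13,1)]⟩⟩,.o ⟨false,1,⟨3,[(8,1),(13,0),(0,0),(11,0),(6,0)]⟩,⟨0,[(28,0)]⟩⟩,.o ⟨false,1,⟨1,
  [(4,0),(0,0),(19,0),(9,0)]⟩,⟨20,[(2,6),(3,4),(0,1),(2,0),(2,2),(10,13),(2,2),(7,4),(2,5)]⟩⟩,.a
  ⟨true,0,⟨0,[(25,0)]⟩,⟨0,[(24,0)]⟩⟩ ⟨false,0,⟨0,[(18,0)]⟩,⟨1,[(7,1),(15,0),(18,0)]⟩⟩ ⟨true,0,⟨3,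
  [(8,1),(1,0),(2,0),(10,3),(1,0)]⟩,⟨0,[(25,0),(2,0)]⟩⟩]⟩))) (.Q [0,0,0,0,0,-1,0,0,0,1,0,-1] (.ed
  true [0,1,0,1] .k) (.R ⟨1,false,false,false,[1,0,0,-1],[1,0,-1],[0,1,0,-1,0,0,0,0,-1],(⟨0,[(23,
  0)]⟩,⟨0,[(24,0)]⟩),(⟨0,[(32,0)]⟩,⟨0,[(33,0)]⟩),⟨0,[(0,0)]⟩,.k,.k,(.x (-1) ⟨7,[(11,3),(9,2),(0,2),
  (10,3),(0,1)]⟩ ⟨0,[(36,0)]⟩),.k,(.r (-1) ⟨1,[(6,1),(32,1),(0,0),(0,0)]⟩ ⟨0,[(5,0),(16,0)]⟩),.k,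
  ⟨false,0,⟨0,[(2,0),(6,0),(9,0),(3,0),(3,0),(11,0)]⟩,⟨7,[(7,3),(5,3),(0,3),(6,0),(0,4),(18,1)]⟩⟩,
  ⟨true,0,⟨0,[(23,0),(2,0)]⟩,⟨2,[(9,0),(3,0),(6,0),(3,2)]⟩⟩,⟨false,0,⟨0,[(39,0)]⟩,⟨0,[(38,0),(2,
  0)]⟩⟩,⟨false,1,⟨7,[(7,3),(13,0),(0,4),(0,7),(2,3),(2,3),(11,1)]⟩,⟨0,[(2,0),(24,0)]⟩⟩,⟨true,0,⟨0,
  [(43,0)]⟩,⟨0,[]⟩⟩,⟨false,1,⟨11,[(5,7),(1,1),(8,3),(5,9),(0,11),(10,2),(3,3),(2,6)]⟩,⟨0,[(2,0),(24,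
  0),(11,0)]⟩⟩,[.o ⟨false,0,⟨3,[(7,1),(1,0),(2,0),(12,0)]⟩,⟨3,[(21,0),(0,0),(4,3),(13,1)]⟩⟩,.o
  ⟨false,1,⟨3,[(7,1),(13,0),(0,0),(11,0),(6,0)]⟩,⟨0,[(27,0)]⟩⟩,.o ⟨false,1,⟨1,[(3,0),(0,0),(19,0),
  (9,0)]⟩,⟨2,[(9,0),(3,0),(9,2),(2,1),(2,0)]⟩⟩,.a ⟨true,0,⟨0,[(24,0)]⟩,⟨0,[(23,0)]⟩⟩ ⟨false,0,⟨2,
  [(2,1),(3,0),(2,1),(0,0),(12,1)]⟩,⟨5,[(13,1),(0,3),(1,3),(5,2),(6,1),(11,2)]⟩⟩ ⟨true,0,⟨3,[(7,1),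
  (1,0),(2,0),(10,3),(1,0)]⟩,⟨0,[(24,0),(2,0)]⟩⟩]⟩) (.R ⟨0,false,false,false,[1,0,0,-1],[1,0,-1],[1,
  0,1,0,0,0,0,-1],(⟨0,[(23,0)]⟩,⟨0,[(24,0)]⟩),(⟨0,[(32,0)]⟩,⟨0,[(33,0)]⟩),⟨0,[(0,0)]⟩,.k,.k,(.x
  (-1) ⟨7,[(11,3),(9,2),(0,2),(10,3),(0,1)]⟩ ⟨0,[(36,0)]⟩),.k,.k,.k,⟨false,0,⟨0,[]⟩,⟨3,[(21,0),(0,
  0),(17,1)]⟩⟩,⟨true,0,⟨0,[(23,0),(2,0)]⟩,⟨2,[(9,0),(3,0),(6,0),(3,2)]⟩⟩,⟨true,0,⟨0,[(5,0),(16,0),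
  (16,0)]⟩,⟨0,[(2,0),(6,0),(9,0),(3,0),(3,0)]⟩⟩,⟨false,1,⟨7,[(7,3),(13,0),(0,4),(0,7),(2,3),(2,3),
  (11,1)]⟩,⟨0,[(2,0),(24,0)]⟩⟩,⟨false,0,⟨0,[]⟩,⟨0,[]⟩⟩,⟨false,0,⟨0,[]⟩,⟨0,[]⟩⟩,[.o ⟨false,0,⟨3,[(7,
  1),(1,0),(2,0),(12,0)]⟩,⟨3,[(21,0),(0,0),(4,3),(13,1)]⟩⟩,.o ⟨false,1,⟨3,[(7,1),(13,0),(0,0),(11,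
  0),(6,0)]⟩,⟨0,[(27,0)]⟩⟩,.o ⟨false,1,⟨1,[(3,0),(0,0),(19,0),(9,0)]⟩,⟨2,[(9,0),(3,0),(9,2),(2,1),
  (2,0)]⟩⟩,.a ⟨true,0,⟨0,[(24,0)]⟩,⟨0,[(23,0)]⟩⟩ ⟨false,0,⟨0,[(17,0)]⟩,⟨1,[(6,1),(15,0),(18,0)]⟩⟩
  ⟨true,0,⟨3,[(7,1),(1,0),(2,0),(10,3),(1,0)]⟩,⟨0,[(24,0),(2,0)]⟩⟩]⟩)))) (.Q [0,0,0,0,0,-1,0,0,0,1,
  0,-1] (.ed true [0,1,0,1] .k) (.R ⟨1,false,false,true,[1,0,0,-1],[0,1],[1,1,0,0,0,0,0,0,-1],(⟨0,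
  [(21,0)]⟩,⟨0,[(22,0)]⟩),(⟨0,[(34,0)]⟩,⟨0,[(33,0)]⟩),⟨0,[(0,0)]⟩,.k,.k,(.x (-1) ⟨7,[(9,3),(9,2),(0,
  2),(10,3),(0,1)]⟩ ⟨0,[(34,0)]⟩),(.x (-1) ⟨7,[(9,3),(9,2),(0,2),(10,3),(0,1)]⟩ ⟨0,[(34,0)]⟩),(.r
  (-1) ⟨9,[(3,3),(0,3),(14,0),(15,1),(1,23),(0,12)]⟩ ⟨3,[(1,0),(1,2),(6,2),(1,1),(1,1),(5,2),(1,0),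
  (5,0),(6,0)]⟩),.k,⟨false,1,⟨9,[(3,3),(0,3),(14,0),(15,1),(1,13),(0,12)]⟩,⟨2,[(1,1),(1,0),(6,0),(6,
  0),(2,0),(1,1)]⟩⟩,⟨true,0,⟨0,[(21,0)]⟩,⟨2,[(7,0),(3,0),(10,2),(1,1),(2,0)]⟩⟩,⟨false,0,⟨0,[]⟩,⟨3,
  [(19,0),(0,0),(18,1)]⟩⟩,⟨false,0,⟨1,[(1,1),(10,0),(4,0),(3,0),(0,0),(18,0)]⟩,⟨9,[(3,1),(0,1),(2,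
  9),(11,2),(2,9),(12,5),(1,1),(0,8)]⟩⟩,⟨true,0,⟨0,[(36,0)]⟩,⟨0,[(37,0)]⟩⟩,⟨false,0,⟨0,[(1,0),(10,
  0),(4,0)]⟩,⟨9,[(3,1),(0,1),(2,9),(11,2),(2,9),(12,5),(1,11),(0,8)]⟩⟩,[.o ⟨false,0,⟨0,[(36,0)]⟩,⟨3,
  [(7,3),(11,0),(0,0),(18,1)]⟩⟩,.o ⟨false,1,⟨3,[(19,0),(0,0),(15,3),(2,1)]⟩,⟨0,[(7,0)]⟩⟩,.o ⟨false,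
  1,⟨1,[(22,1),(9,0),(5,0)]⟩,⟨10,[(1,6),(1,0),(0,3),(2,0),(11,0),(1,3),(1,2),(3,2)]⟩⟩,.a ⟨true,0,⟨0,
  [(22,0)]⟩,⟨0,[(21,0)]⟩⟩ ⟨false,1,⟨1,[(19,0),(18,0)]⟩,⟨0,[(1,0),(20,0)]⟩⟩ ⟨true,0,⟨0,[(21,0),(14,
  0)]⟩,⟨0,[(7,0),(14,0)]⟩⟩]⟩) (.R ⟨0,false,false,true,[1,0,0,-1],[0,1],[0,1,0,0,0,0,0,0,-1],(⟨0,
  [(21,0)]⟩,⟨0,[(22,0)]⟩),(⟨0,[(34,0)]⟩,⟨0,[(33,0)]⟩),⟨0,[(0,0)]⟩,.k,.k,(.x (-1) ⟨7,[(9,3),(9,2),(0,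
  2),(10,3),(0,1)]⟩ ⟨0,[(34,0)]⟩),(.x (-1) ⟨7,[(9,3),(9,2),(0,2),(10,3),(0,1)]⟩ ⟨0,[(34,0)]⟩),.k,.k,
  ⟨false,1,⟨9,[(3,3),(0,3),(14,0),(15,1),(1,13),(0,12)]⟩,⟨2,[(1,1),(1,0),(6,0),(6,0),(2,0),(1,1)]⟩⟩,
  ⟨true,0,⟨0,[(21,0)]⟩,⟨2,[(7,0),(3,0),(10,2),(1,1),(2,0)]⟩⟩,⟨true,0,⟨0,[(41,0)]⟩,⟨0,[]⟩⟩,⟨false,0,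
  ⟨1,[(1,1),(10,0),(4,0),(3,0),(0,0),(18,0)]⟩,⟨9,[(3,1),(0,1),(2,9),(11,2),(2,9),(12,5),(1,1),(0,
  8)]⟩⟩,⟨false,0,⟨0,[]⟩,⟨0,[]⟩⟩,⟨false,0,⟨0,[]⟩,⟨0,[]⟩⟩,[.o ⟨false,0,⟨0,[(36,0)]⟩,⟨3,[(7,3),(11,0),
  (0,0),(18,1)]⟩⟩,.o ⟨false,1,⟨3,[(19,0),(0,0),(15,3),(2,1)]⟩,⟨0,[(7,0)]⟩⟩,.o ⟨false,1,⟨1,[(22,1),
  (9,0),(5,0)]⟩,⟨10,[(1,6),(1,0),(0,3),(2,0),(11,0),(1,3),(1,2),(3,2)]⟩⟩,.a ⟨true,0,⟨0,[(22,0)]⟩,⟨0,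
  [(21,0)]⟩⟩ ⟨false,1,⟨1,[(19,0),(18,0)]⟩,⟨0,[(1,0),(20,0)]⟩⟩ ⟨true,0,⟨0,[(21,0),(14,0)]⟩,⟨0,[(7,0),
  (14,0)]⟩⟩]⟩)))))))))

theorem ok141 : chk (cU (-1) true 10) t141 r38 = true := by decide +kernel

noncomputable def t147 : Tre :=
  (.Q [0,0,0,-1,0,0,1,1,0,1,-1] (.p false [0,0,1] [1] (⟨0,[(20,0)]⟩,⟨0,[(19,0)]⟩) .k 1 (⟨0,[]⟩,⟨0,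
  []⟩) .k .k) (.R ⟨2,true,false,false,[0,1],[1,1,-1],[0,1,1],(⟨0,[]⟩,⟨0,[]⟩),(⟨0,[(20,0),(3,0)]⟩,⟨0,
  [(1,0)]⟩),⟨0,[]⟩,.k,.k,.k,.k,.k,.k,⟨true,0,⟨2,[(0,1),(1,1),(4,0),(7,0),(15,0)]⟩,⟨0,[(19,0),(5,0),
  (0,0)]⟩⟩,⟨false,1,⟨3,[(4,1),(17,0),(5,2)]⟩,⟨1,[(8,0),(2,0),(0,0)]⟩⟩,⟨false,0,⟨0,[(27,0)]⟩,⟨0,[(26,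
  0),(2,0)]⟩⟩,⟨true,0,⟨0,[(2,0),(2,0),(20,0)]⟩,⟨0,[(0,0),(25,0)]⟩⟩,⟨true,0,⟨0,[(31,0)]⟩,⟨0,[]⟩⟩,
  ⟨false,1,⟨1,[(5,1),(1,1),(14,0),(6,0)]⟩,⟨0,[(0,0)]⟩⟩,[]⟩) (.I [1,1,1,0,-1,0,0,0,-1] (.Q [0,1,1,0,
  0,0,0,0,1,0,0,-1] (.p false [0,0,0,1] [] (⟨0,[(13,0)]⟩,⟨0,[(12,0)]⟩) .k 0 (⟨0,[]⟩,⟨0,[]⟩) .k .k)
  (.K ⟨0,[0,0,0,1],0,0,(⟨0,[(14,0)]⟩,⟨0,[(13,0)]⟩),.k,(.r (-1) ⟨1,[(12,0),(16,1),(0,0)]⟩ ⟨2,[(1,0),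
  (9,0),(15,1),(0,2)]⟩),(.x 0 ⟨0,[(26,0)]⟩ ⟨7,[(3,3),(4,3),(2,2),(0,2),(11,1)]⟩),.k,.k,[⟨0,[(14,
  0)]⟩,⟨0,[(13,0)]⟩,⟨0,[(1,0),(12,0),(15,0)]⟩,⟨0,[(0,0)]⟩]⟩) (.R ⟨2,false,false,true,[0,1],[0,0,0,
  1],[],(⟨0,[]⟩,⟨0,[]⟩),(⟨0,[(14,0)]⟩,⟨0,[(13,0)]⟩),⟨0,[]⟩,.k,.k,.k,(.r 0 ⟨2,[(1,0),(9,0),(15,1),(0,
  2)]⟩ ⟨1,[(12,0),(16,1),(0,0)]⟩),.k,.k,⟨true,0,⟨2,[(0,1),(0,0),(11,1),(10,0),(2,0)]⟩,⟨0,[(1,0),(10,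
  0)]⟩⟩,⟨false,0,⟨4,[(2,1),(1,1),(8,4),(2,0),(0,1),(1,2),(7,0)]⟩,⟨0,[(14,0),(15,0)]⟩⟩,⟨false,1,⟨1,
  [(29,1),(0,0),(0,0)]⟩,⟨3,[(19,0),(0,0),(6,1),(0,3)]⟩⟩,⟨true,0,⟨0,[(1,0),(2,0),(2,0),(4,0),(0,0),
  (3,0)]⟩,⟨0,[(0,0),(27,0)]⟩⟩,⟨false,1,⟨1,[(30,0),(0,0)]⟩,⟨1,[(19,0),(0,0)]⟩⟩,⟨false,1,⟨7,[(11,0),
  (0,4),(0,7),(2,3),(2,3),(4,1)]⟩,⟨0,[(0,0)]⟩⟩,[.a ⟨true,0,⟨0,[(1,0),(10,0),(0,0)]⟩,⟨0,[(0,0)]⟩⟩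
  ⟨false,1,⟨3,[(11,0),(0,0),(17,1)]⟩,⟨0,[]⟩⟩ ⟨true,0,⟨4,[(1,4),(0,1),(1,1),(7,4),(0,4),(2,0),(0,1),
  (1,2),(7,0)]⟩,⟨0,[(0,0)]⟩⟩,.o ⟨false,1,⟨7,[(11,0),(0,4),(0,7),(2,3),(2,3),(4,1)]⟩,⟨3,[(0,3),(1,1),
  (1,1),(5,0),(4,0),(1,2)]⟩⟩,.o ⟨false,1,⟨3,[(11,0),(0,0),(17,1)]⟩,⟨4,[(2,1),(1,1),(11,0),(0,1),(1,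
  2),(7,0)]⟩⟩,.e ⟨false,1,⟨1,[(30,0),(0,0)]⟩,⟨1,[(19,0),(0,0)]⟩⟩ ⟨false,1,⟨7,[(11,0),(0,4),(0,7),(2,
  3),(2,3),(4,1)]⟩,⟨0,[(0,0)]⟩⟩]⟩)) (.Q [0,0,-2,0,1,0,-1,0,0,0,1] (.p true [0,0,1] [] (⟨0,[(22,0)]⟩,
  ⟨0,[(21,0)]⟩) .k 0 (⟨0,[]⟩,⟨0,[]⟩) .k .k) (.I [0,0,-2,-2,1,0,0,1] (.Q [0,0,2,0,-1,0,1,0,0,1,-1]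
  (.p false [0,0,1] [1] (⟨0,[(24,0)]⟩,⟨0,[(23,0)]⟩) .k 1 (⟨0,[]⟩,⟨0,[]⟩) .k .k) (.K ⟨0,[1,1,-1],1,0,
  (⟨0,[(24,0),(3,0)]⟩,⟨0,[(5,0)]⟩),.k,.k,(.r 0 ⟨3,[(0,3),(3,3),(8,0),(0,0),(15,3),(2,1)]⟩ ⟨0,[(1,
  0)]⟩),.k,.k,[⟨0,[(0,0)]⟩,⟨0,[(2,0)]⟩,⟨3,[(0,2),(0,2),(9,1),(0,0),(6,0),(15,0)]⟩,⟨1,[(4,0),(12,0),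
  (12,0)]⟩]⟩) (.Q [0,1,-1,0,0,0,0,0,-1,0,0,1] (.p true [0,0,0,1] [] (⟨0,[(16,0)]⟩,⟨0,[(15,0)]⟩) .k
  0 (⟨0,[]⟩,⟨0,[]⟩) .k .k) (.Q [0,1,1,0,0,0,0,0,1,0,0,-1] (.p false [0,0,0,1] [] (⟨0,[(17,0)]⟩,⟨0,
  [(16,0)]⟩) .k 0 (⟨0,[]⟩,⟨0,[]⟩) .k .k) (.K ⟨0,[0,0,0,1],0,0,(⟨0,[(18,0)]⟩,⟨0,[(17,0)]⟩),.k,(.r
  (-1) ⟨1,[(3,0),(12,0),(8,0)]⟩ ⟨1,[(1,1),(4,0),(10,1),(2,0),(0,0),(1,0),(7,1),(0,0)]⟩),(.x 0 ⟨0,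
  [(30,0)]⟩ ⟨7,[(7,3),(4,3),(2,2),(0,2),(11,1)]⟩),.k,.k,[⟨0,[(18,0)]⟩,⟨0,[(17,0)]⟩,⟨0,[(1,0)]⟩,⟨0,
  [(0,0)]⟩]⟩) (.Q [0,0,0,0,0,-1,0,0,0,1,0,-1] (.ed true [0,1,0,1] .k) (.R ⟨1,false,false,false,[1,0,
  0,-1],[1,0,-1],[0,0,0,-1,0,0,0,0,-1],(⟨0,[(18,0)]⟩,⟨0,[(19,0)]⟩),(⟨0,[(27,0)]⟩,⟨0,[(28,0)]⟩),⟨0,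
  [(0,0)]⟩,.k,.k,(.x (-1) ⟨7,[(8,3),(4,3),(2,2),(0,2),(11,1)]⟩ ⟨0,[(31,0)]⟩),.k,(.r 0 ⟨0,[(1,0),(7,
  0),(8,0),(3,0)]⟩ ⟨5,[(17,2),(5,3),(0,3),(1,1),(5,1),(0,5),(2,2)]⟩),.k,⟨false,0,⟨0,[(1,0),(7,0),(8,
  0),(3,0)]⟩,⟨1,[(17,0),(8,1),(6,1),(2,0)]⟩⟩,⟨true,0,⟨0,[(18,0),(2,0)]⟩,⟨0,[(12,0),(6,0),(2,0)]⟩⟩,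
  ⟨true,0,⟨0,[(34,0)]⟩,⟨0,[(33,0)]⟩⟩,⟨false,1,⟨1,[(17,0),(0,1),(2,1),(4,1),(9,0)]⟩,⟨0,[(1,0),(20,
  0)]⟩⟩,⟨false,1,⟨3,[(16,0),(0,0),(18,1)]⟩,⟨0,[]⟩⟩,⟨false,1,⟨1,[(7,1),(9,0),(0,1),(5,0),(0,0),(10,
  0)]⟩,⟨0,[(1,0),(20,0),(11,0)]⟩⟩,[.o ⟨false,0,⟨2,[(7,0),(1,0),(2,0),(7,0)]⟩,⟨3,[(16,0),(0,0),(4,3),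
  (13,1)]⟩⟩,.o ⟨false,1,⟨0,[(20,0),(15,0)]⟩,⟨0,[(22,0)]⟩⟩,.o ⟨false,1,⟨1,[(2,0),(3,0),(12,0),(9,
  0)]⟩,⟨4,[(7,1),(1,1),(8,4),(2,0),(0,1),(1,2),(7,0)]⟩⟩,.a ⟨true,0,⟨0,[(19,0)]⟩,⟨0,[(18,0)]⟩⟩
  ⟨false,0,⟨0,[(1,0),(7,0),(2,0),(5,0),(3,0)]⟩,⟨1,[(17,0),(6,0),(0,0),(7,1),(2,0)]⟩⟩ ⟨true,0,⟨2,[(7,
  0),(1,0),(2,0),(5,2),(1,0)]⟩,⟨0,[(19,0),(2,0)]⟩⟩]⟩) (.R ⟨0,false,false,false,[1,0,0,-1],[1,0,-1],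
  [0,1,0,0,0,0,0,0,-1],(⟨0,[(18,0)]⟩,⟨0,[(19,0)]⟩),(⟨0,[(27,0)]⟩,⟨0,[(28,0)]⟩),⟨0,[(0,0)]⟩,.k,.k,
  (.x (-1) ⟨7,[(8,3),(4,3),(2,2),(0,2),(11,1)]⟩ ⟨0,[(31,0)]⟩),.k,.k,.k,⟨false,0,⟨5,[(1,4),(0,0),(4,
  1),(1,3),(4,1),(3,5),(3,7)]⟩,⟨1,[(17,0),(8,1),(9,0)]⟩⟩,⟨true,0,⟨0,[(18,0),(2,0)]⟩,⟨1,[(0,1),(7,0),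
  (4,0),(1,0)]⟩⟩,⟨true,0,⟨0,[(38,0)]⟩,⟨0,[]⟩⟩,⟨false,1,⟨1,[(17,0),(0,1),(2,1),(4,1),(9,0)]⟩,⟨0,[(1,
  0),(20,0)]⟩⟩,⟨false,0,⟨0,[]⟩,⟨0,[]⟩⟩,⟨false,0,⟨0,[]⟩,⟨0,[]⟩⟩,[.o ⟨false,0,⟨2,[(7,0),(1,0),(2,0),
  (7,0)]⟩,⟨3,[(16,0),(0,0),(4,3),(13,1)]⟩⟩,.o ⟨false,1,⟨0,[(20,0),(15,0)]⟩,⟨0,[(22,0)]⟩⟩,.o ⟨false,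
  1,⟨1,[(2,0),(3,0),(12,0),(9,0)]⟩,⟨4,[(7,1),(1,1),(8,4),(2,0),(0,1),(1,2),(7,0)]⟩⟩,.a ⟨true,0,⟨0,
  [(19,0)]⟩,⟨0,[(18,0)]⟩⟩ ⟨false,0,⟨3,[(1,3),(5,1),(1,1),(5,0),(2,3),(1,0),(1,2)]⟩,⟨1,[(17,0),(6,0),
  (0,0),(10,0)]⟩⟩ ⟨true,0,⟨2,[(7,0),(1,0),(2,0),(5,2),(1,0)]⟩,⟨0,[(19,0),(2,0)]⟩⟩]⟩))) (.I [0,1,2,1,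
  -1,0,0,-1] (.Q [0,0,0,-2,0,0,1,1,0,0,-1] (.p false [0,0,1] [] (⟨0,[(27,0)]⟩,⟨0,[(26,0)]⟩) .k 0
  (⟨0,[]⟩,⟨0,[]⟩) .k .k) (.R ⟨1,true,false,true,[0,0,1],[0,1],[1,0,0,0,0,0,0,1],(⟨0,[(28,0)]⟩,⟨0,
  [(27,0)]⟩),(⟨0,[(31,0)]⟩,⟨0,[(30,0)]⟩),⟨0,[(8,0)]⟩,.k,.k,.k,.k,(.r (-1) ⟨0,[(4,0)]⟩ ⟨0,[(1,0),(31,
  0),(2,0)]⟩),.k,⟨true,1,⟨4,[(4,2),(0,0),(8,0),(7,1),(9,2),(3,0)]⟩,⟨0,[(1,0)]⟩⟩,⟨false,1,⟨0,[(5,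
  0)]⟩,⟨0,[(24,0)]⟩⟩,⟨true,0,⟨0,[]⟩,⟨0,[(38,0)]⟩⟩,⟨false,0,⟨0,[(12,0),(1,0)]⟩,⟨7,[(0,3),(15,0),(0,
  0),(4,3),(13,5)]⟩⟩,⟨false,1,⟨0,[(33,0),(2,0)]⟩,⟨0,[(34,0)]⟩⟩,⟨true,0,⟨0,[(12,0),(1,0),(18,0)]⟩,⟨0,
  [(0,0)]⟩⟩,[]⟩) (.Q [0,1,1,-1,-1,0,1,1,1,1,-1,-1] (.p false [0,0,1] [1,0,0,-1] (⟨0,[(28,0)]⟩,⟨0,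
  [(27,0)]⟩) .k 2 (⟨0,[(18,0)]⟩,⟨0,[(19,0)]⟩) .k (.x 0 ⟨0,[(24,0),(3,0)]⟩ ⟨4,[(3,2),(6,0),(5,0),(0,
  0),(9,2),(3,0)]⟩)) (.K ⟨0,[0,0,0,1],0,(-1),(⟨0,[(20,0)]⟩,⟨0,[(19,0)]⟩),.k,(.r 0 ⟨0,[(0,0),(3,0),
  (8,0),(6,0)]⟩ ⟨1,[(17,0),(7,0),(0,0),(7,1),(2,0)]⟩),(.x 0 ⟨0,[(32,0)]⟩ ⟨7,[(9,3),(4,3),(2,2),(0,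
  2),(11,1)]⟩),.k,.k,[⟨0,[(20,0)]⟩,⟨0,[(19,0)]⟩,⟨1,[(17,0),(2,1),(15,0),(2,1)]⟩,⟨0,[(0,0),(7,
  0)]⟩]⟩) (.Q [0,0,0,0,0,1,0,0,0,-1,0,1] (.ed false [0,1,0,1] .k) (.I [0,0,-2,-1,1,0,0,0,-1] (.R ⟨0,
  false,false,true,[1,0,0,-1],[0,1],[0,1,0,0,0,0,0,0,-1],(⟨0,[(21,0)]⟩,⟨0,[(22,0)]⟩),(⟨0,[(34,0)]⟩,
  ⟨0,[(33,0)]⟩),⟨0,[(1,0)]⟩,.k,.k,(.x (-1) ⟨7,[(11,3),(4,3),(2,2),(0,2),(11,1)]⟩ ⟨0,[(34,0)]⟩),(.x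
  (-1) ⟨7,[(11,3),(4,3),(2,2),(0,2),(11,1)]⟩ ⟨0,[(34,0)]⟩),.k,.k,⟨false,1,⟨0,[(0,0)]⟩,⟨7,[(3,2),(0,
  0),(0,5),(11,0),(2,0),(1,5),(2,3)]⟩⟩,⟨true,0,⟨0,[(21,0)]⟩,⟨2,[(1,2),(9,1),(1,0),(13,1)]⟩⟩,⟨true,0,
  ⟨0,[(41,0)]⟩,⟨0,[]⟩⟩,⟨false,0,⟨1,[(5,1),(11,1),(0,0),(2,0),(0,0)]⟩,⟨11,[(0,7),(0,9),(0,1),(8,4),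
  (0,5),(3,4),(1,2),(0,0),(5,1),(6,0),(2,5)]⟩⟩,⟨false,0,⟨0,[]⟩,⟨0,[]⟩⟩,⟨false,0,⟨0,[]⟩,⟨0,[]⟩⟩,[.o
  ⟨false,0,⟨0,[(36,0)]⟩,⟨1,[(32,0),(4,1),(1,0)]⟩⟩,.o ⟨false,1,⟨3,[(19,0),(0,0),(15,3),(2,1)]⟩,⟨0,
  [(12,0),(2,0),(9,0)]⟩⟩,.o ⟨false,1,⟨1,[(22,1),(9,0),(5,0)]⟩,⟨2,[(4,0),(7,0),(8,2),(3,0),(6,0),(2,
  0)]⟩⟩,.a ⟨true,0,⟨0,[(22,0)]⟩,⟨0,[(21,0)]⟩⟩ ⟨false,1,⟨1,[(19,0),(18,0)]⟩,⟨0,[(5,0),(16,0)]⟩⟩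
  ⟨true,0,⟨0,[(21,0),(14,0)]⟩,⟨1,[(1,1),(9,0),(0,1),(3,0),(1,0)]⟩⟩]⟩) (.Q [0,0,-1,-1,1,0,1,1,-1,0,
  -1,1] (.p false [0,0,1] [0,0,0,1] (⟨0,[(31,0)]⟩,⟨0,[(30,0)]⟩) .k 2 (⟨0,[(22,0)]⟩,⟨0,[(21,0)]⟩) .k
  (.r (-1) ⟨13,[(7,3),(9,7),(1,6),(5,9),(2,1),(6,5),(3,2)]⟩ ⟨1,[(0,1),(6,0),(21,2),(8,0)]⟩)) (.R ⟨0,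
  false,false,false,[1,0,0,-1],[1,1,-1],[0,1,0,0,0,0,0,0,-1],(⟨0,[(22,0)]⟩,⟨0,[(23,0)]⟩),(⟨0,[(31,
  0),(3,0)]⟩,⟨0,[(12,0)]⟩),⟨0,[(2,0)]⟩,.k,.k,(.x (-1) ⟨7,[(12,3),(4,3),(2,2),(0,2),(11,1)]⟩ ⟨0,[(35,
  0)]⟩),(.x 0 ⟨0,[(12,0),(3,0),(9,0)]⟩ ⟨4,[(7,0),(6,1),(5,1),(0,1),(9,0),(3,6)]⟩),.k,.k,⟨true,1,⟨1,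
  [(8,0),(9,0),(1,0),(5,0),(11,0)]⟩,⟨0,[(1,0),(14,0)]⟩⟩,⟨false,1,⟨19,[(7,11),(7,3),(4,2),(0,2),(0,
  19),(10,1)]⟩,⟨1,[(2,1),(9,0),(4,0),(1,0)]⟩⟩,⟨true,0,⟨0,[(42,0)]⟩,⟨0,[]⟩⟩,⟨false,0,⟨8,[(1,0),(2,3),
  (1,7),(2,0),(5,0),(0,2),(5,0),(4,1)]⟩,⟨0,[(0,0)]⟩⟩,⟨false,0,⟨0,[]⟩,⟨0,[]⟩⟩,⟨false,0,⟨0,[]⟩,⟨0,
  []⟩⟩,[.o ⟨false,0,⟨0,[(11,0)]⟩,⟨5,[(0,1),(5,1),(1,1),(11,0),(0,0),(4,1),(1,2),(0,0)]⟩⟩,.o ⟨false,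
  1,⟨2,[(4,0),(6,0),(15,0),(5,0),(6,1)]⟩,⟨0,[(26,0),(11,0)]⟩⟩,.o ⟨false,1,⟨1,[(23,1),(9,0),(5,0)]⟩,
  ⟨2,[(5,0),(7,0),(8,2),(3,0),(6,0),(2,0)]⟩⟩,.a ⟨true,0,⟨0,[(23,0)]⟩,⟨0,[(22,0)]⟩⟩ ⟨false,1,⟨1,[(20,
  0),(18,0)]⟩,⟨6,[(1,2),(6,0),(7,0),(4,1),(14,2),(1,0)]⟩⟩ ⟨true,0,⟨0,[(11,0),(10,0)]⟩,⟨0,[(23,0),(2,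
  0),(11,0)]⟩⟩]⟩) (.K ⟨0,[0,0,0,1],0,(-1),(⟨0,[(23,0)]⟩,⟨0,[(22,0)]⟩),.k,(.r 0 ⟨1,[(0,1),(1,1),(5,
  1),(3,0),(4,0),(1,0)]⟩ ⟨3,[(1,1),(18,3),(0,0),(15,1),(2,0)]⟩),(.x 0 ⟨0,[(35,0)]⟩ ⟨7,[(12,3),(4,3),
  (2,2),(0,2),(11,1)]⟩),.k,.k,[⟨0,[(23,0)]⟩,⟨0,[(22,0)]⟩,⟨1,[(20,0),(2,1),(15,0),(2,1)]⟩,⟨0,[(0,0),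
  (25,0),(11,0)]⟩]⟩))) (.I [1,0,-2,-1,1,0,0,0,-1] (.R ⟨1,false,false,true,[1,0,0,-1],[0,1],[1,1,0,0,
  0,0,0,0,-1],(⟨0,[(21,0)]⟩,⟨0,[(22,0)]⟩),(⟨0,[(34,0)]⟩,⟨0,[(33,0)]⟩),⟨0,[(1,0)]⟩,.k,.k,(.x (-1) ⟨7,
  [(11,3),(4,3),(2,2),(0,2),(11,1)]⟩ ⟨0,[(34,0)]⟩),(.x (-1) ⟨7,[(11,3),(4,3),(2,2),(0,2),(11,1)]⟩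
  ⟨0,[(34,0)]⟩),(.r (-1) ⟨0,[(0,0),(36,0)]⟩ ⟨1,[(3,0),(0,0),(12,0),(2,0),(4,1),(9,1)]⟩),.k,⟨false,1,
  ⟨0,[(0,0)]⟩,⟨7,[(3,2),(0,0),(0,5),(11,0),(2,0),(1,5),(2,3)]⟩⟩,⟨true,0,⟨0,[(21,0)]⟩,⟨2,[(4,0),(7,
  0),(9,2),(2,0),(6,0),(2,0)]⟩⟩,⟨false,0,⟨0,[]⟩,⟨3,[(19,0),(0,0),(18,1)]⟩⟩,⟨false,0,⟨1,[(5,1),(11,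
  1),(0,0),(2,0),(0,0)]⟩,⟨1,[(0,0),(1,0),(9,1),(5,0),(3,0),(2,0),(9,0)]⟩⟩,⟨true,0,⟨0,[(36,0)]⟩,⟨0,
  [(37,0)]⟩⟩,⟨false,0,⟨0,[(3,0),(1,0),(15,0),(0,0),(2,0)]⟩,⟨9,[(0,6),(1,0),(9,13),(5,6),(0,0),(2,8),
  (2,0),(6,0),(2,4)]⟩⟩,[.o ⟨false,0,⟨0,[(36,0)]⟩,⟨1,[(32,0),(4,1),(1,0)]⟩⟩,.o ⟨false,1,⟨3,[(19,0),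
  (0,0),(15,3),(2,1)]⟩,⟨0,[(12,0),(2,0),(9,0)]⟩⟩,.o ⟨false,1,⟨1,[(22,1),(9,0),(5,0)]⟩,⟨2,[(4,0),(7,
  0),(8,2),(3,0),(6,0),(2,0)]⟩⟩,.a ⟨true,0,⟨0,[(22,0)]⟩,⟨0,[(21,0)]⟩⟩ ⟨false,1,⟨1,[(19,0),(18,0)]⟩,
  ⟨0,[(5,0),(16,0)]⟩⟩ ⟨true,0,⟨0,[(21,0),(14,0)]⟩,⟨0,[(12,0),(2,0),(6,0),(2,0)]⟩⟩]⟩) (.I [1,-1,-1,0,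
  1,0,0,0,-1] (.R ⟨1,false,false,false,[1,0,0,-1],[1,0,-1],[0,0,0,-1,0,0,0,0,-1],(⟨0,[(22,0)]⟩,⟨0,
  [(23,0)]⟩),(⟨0,[(31,0)]⟩,⟨0,[(32,0)]⟩),⟨0,[(2,0)]⟩,.k,.k,(.x (-1) ⟨7,[(12,3),(4,3),(2,2),(0,2),
  (11,1)]⟩ ⟨0,[(35,0)]⟩),.k,(.r (-1) ⟨0,[(0,0),(12,0),(8,0),(0,0),(2,0)]⟩ ⟨15,[(1,1),(2,3),(0,5),
  (10,5),(2,1),(1,6),(11,0)]⟩),.k,⟨false,1,⟨0,[(0,0),(12,0),(8,0),(0,0),(2,0)]⟩,⟨0,[(1,0),(28,0),(8,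
  0)]⟩⟩,⟨true,0,⟨0,[(22,0),(2,0)]⟩,⟨0,[(16,0),(6,0),(2,0)]⟩⟩,⟨true,0,⟨0,[(38,0)]⟩,⟨0,[(37,0)]⟩⟩,
  ⟨false,0,⟨4,[(1,0),(4,2),(3,0),(2,0),(1,0),(0,2),(5,1),(4,1)]⟩,⟨0,[(0,0),(22,0),(2,0)]⟩⟩,⟨false,1,
  ⟨3,[(20,0),(0,0),(18,1)]⟩,⟨0,[]⟩⟩,⟨false,0,⟨8,[(1,0),(2,3),(1,7),(2,0),(5,0),(0,2),(5,0),(4,1)]⟩,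
  ⟨0,[(0,0),(22,0),(2,0),(11,0)]⟩⟩,[.o ⟨false,0,⟨2,[(11,0),(1,0),(2,0),(7,0)]⟩,⟨3,[(20,0),(0,0),(4,
  3),(13,1)]⟩⟩,.o ⟨false,1,⟨0,[(24,0),(15,0)]⟩,⟨0,[(26,0)]⟩⟩,.o ⟨false,1,⟨1,[(23,1),(9,0),(5,0)]⟩,
  ⟨2,[(5,0),(7,0),(8,2),(3,0),(6,0),(2,0)]⟩⟩,.a ⟨true,0,⟨0,[(23,0)]⟩,⟨0,[(22,0)]⟩⟩ ⟨false,1,⟨0,[(0,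
  0),(37,0)]⟩,⟨3,[(1,1),(19,0),(15,1),(2,0)]⟩⟩ ⟨true,0,⟨2,[(11,0),(1,0),(2,0),(5,2),(1,0)]⟩,⟨0,[(23,
  0),(2,0)]⟩⟩]⟩) (.R ⟨1,false,false,false,[1,0,0,-1],[1,-1],[0,1,0,-1,0,0,0,0,-1],(⟨0,[(22,0)]⟩,⟨0,
  [(23,0)]⟩),(⟨0,[(34,0)]⟩,⟨0,[(35,0)]⟩),⟨0,[(2,0)]⟩,.k,.k,(.x (-1) ⟨7,[(12,3),(4,3),(2,2),(0,2),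
  (11,1)]⟩ ⟨0,[(35,0)]⟩),(.x (-1) ⟨0,[(35,0),(3,0)]⟩ ⟨5,[(12,3),(1,1),(13,6),(0,2)]⟩),.k,.k,⟨true,0,
  ⟨0,[(0,0),(19,0)]⟩,⟨0,[(0,0),(35,0),(2,0)]⟩⟩,⟨false,0,⟨2,[(5,0),(7,0),(8,2),(3,0),(6,0),(2,0)]⟩,
  ⟨0,[(23,0),(15,0)]⟩⟩,⟨false,0,⟨0,[(38,0)]⟩,⟨0,[(37,0),(2,0)]⟩⟩,⟨false,0,⟨0,[(6,0),(31,0)]⟩,⟨0,[(3,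
  0),(18,0),(0,0),(2,0)]⟩⟩,⟨true,0,⟨0,[(42,0)]⟩,⟨0,[]⟩⟩,⟨false,0,⟨0,[(6,0)]⟩,⟨1,[(20,0),(2,1),(15,
  0)]⟩⟩,[.o ⟨false,0,⟨0,[(13,0),(2,0),(9,0)]⟩,⟨3,[(20,0),(0,0),(15,3),(2,1)]⟩⟩,.o ⟨false,1,⟨1,[(33,
  0),(4,1),(1,0)]⟩,⟨0,[(37,0)]⟩⟩,.o ⟨false,1,⟨1,[(23,1),(9,0),(5,0)]⟩,⟨2,[(5,0),(7,0),(8,2),(3,0),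
  (6,0),(2,0)]⟩⟩,.a ⟨true,0,⟨0,[(23,0)]⟩,⟨0,[(22,0)]⟩⟩ ⟨false,1,⟨1,[(8,0),(11,0),(9,0)]⟩,⟨4,[(1,2),
  (2,0),(5,1),(15,0),(9,0),(3,0)]⟩⟩ ⟨true,0,⟨0,[(13,0),(2,0),(5,0),(3,0)]⟩,⟨0,[(23,0),(13,
  0)]⟩⟩]⟩)))))) (.Q [0,0,0,0,0,-1,0,0,0,1,0,-1] (.ed true [0,1,0,1] .k) (.I [0,-1,-2,-2,1,0,0,0,-1]
  (.Q [0,-1,1,1,0,0,0,0,1,1,0,-1] (.p false [0,0,0,1] [1] (⟨0,[(20,0)]⟩,⟨0,[(19,0)]⟩) .k 1 (⟨0,[]⟩,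
  ⟨0,[]⟩) .k .k) (.R ⟨1,false,false,true,[1,0,0,-1],[0,1],[0,0,0,-1,0,0,0,0,-1],(⟨0,[(20,0)]⟩,⟨0,
  [(21,0)]⟩),(⟨0,[(33,0)]⟩,⟨0,[(32,0)]⟩),⟨0,[(2,0)]⟩,.k,.k,(.x (-1) ⟨7,[(10,3),(4,3),(2,2),(0,2),
  (11,1)]⟩ ⟨0,[(33,0)]⟩),(.x (-1) ⟨7,[(10,3),(4,3),(2,2),(0,2),(11,1)]⟩ ⟨0,[(33,0)]⟩),(.r (-1) ⟨0,
  [(1,0),(38,0)]⟩ ⟨1,[(0,1),(8,0),(11,1),(1,0),(0,0),(1,0),(8,0)]⟩),.k,⟨false,1,⟨0,[(1,0)]⟩,⟨0,[(4,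
  0),(16,0),(13,1)]⟩⟩,⟨true,0,⟨0,[(20,0)]⟩,⟨4,[(9,1),(1,1),(9,4),(1,0),(0,1),(1,2),(7,0)]⟩⟩,⟨true,0,
  ⟨0,[(36,0)]⟩,⟨0,[(35,0)]⟩⟩,⟨false,0,⟨0,[(0,0),(39,0)]⟩,⟨8,[(1,6),(7,5),(1,0),(6,0),(2,8),(2,5),(1,
  0),(4,0),(2,3)]⟩⟩,⟨false,1,⟨3,[(18,0),(0,0),(18,1)]⟩,⟨0,[]⟩⟩,⟨false,0,⟨0,[(0,0),(34,0)]⟩,⟨17,[(1,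
  15),(7,5),(1,9),(6,0),(2,17),(2,5),(1,9),(4,0),(2,3)]⟩⟩,[.o ⟨false,0,⟨0,[(35,0)]⟩,⟨7,[(1,1),(9,3),
  (7,0),(6,3),(4,1),(6,2)]⟩⟩,.o ⟨false,1,⟨3,[(18,0),(0,0),(15,3),(2,1)]⟩,⟨0,[(11,0),(2,0),(9,0)]⟩⟩,
  .o ⟨false,1,⟨1,[(21,1),(9,0),(5,0)]⟩,⟨4,[(9,1),(1,1),(8,4),(2,0),(0,1),(1,2),(7,0)]⟩⟩,.a ⟨true,0,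
  ⟨0,[(21,0)]⟩,⟨0,[(20,0)]⟩⟩ ⟨false,1,⟨3,[(1,1),(16,0),(19,0)]⟩,⟨0,[(4,0),(16,0),(13,0)]⟩⟩ ⟨true,0,
  ⟨0,[(20,0),(14,0)]⟩,⟨0,[(11,0),(2,0),(6,0),(2,0)]⟩⟩]⟩) (.R ⟨2,true,false,true,[0,1],[1,0,0,-1],[0,
  1,1],(⟨0,[]⟩,⟨0,[]⟩),(⟨0,[(20,0)]⟩,⟨0,[(21,0)]⟩),⟨0,[]⟩,.k,.k,.k,(.x 0 ⟨0,[(33,0)]⟩ ⟨7,[(10,3),(4,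
  3),(2,2),(0,2),(11,1)]⟩),.k,.k,⟨true,0,⟨0,[(4,0),(16,0),(18,0)]⟩,⟨0,[(0,0),(19,0),(13,0),(0,0)]⟩⟩,
  ⟨false,1,⟨1,[(21,1),(9,0),(5,0)]⟩,⟨0,[(20,0)]⟩⟩,⟨false,0,⟨0,[(36,0)]⟩,⟨0,[(35,0),(2,0)]⟩⟩,⟨true,0,
  ⟨0,[(0,0)]⟩,⟨1,[(4,1),(11,1),(0,0),(2,0),(0,0)]⟩⟩,⟨true,0,⟨0,[(40,0)]⟩,⟨0,[]⟩⟩,⟨false,1,⟨0,[(0,0),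
  (34,0),(2,0)]⟩,⟨0,[(4,0),(15,0),(0,0)]⟩⟩,[]⟩)) (.R ⟨1,false,false,false,[1,0,0,-1],[1,1,-1],[0,0,
  0,-1,0,0,0,0,-1],(⟨0,[(19,0)]⟩,⟨0,[(20,0)]⟩),(⟨0,[(28,0),(3,0)]⟩,⟨0,[(9,0)]⟩),⟨0,[(1,0)]⟩,.k,.k,
  (.x (-1) ⟨7,[(9,3),(4,3),(2,2),(0,2),(11,1)]⟩ ⟨0,[(32,0)]⟩),(.r (-1) ⟨1,[(2,0),(7,0),(6,0),(1,0),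
  (0,0),(2,0)]⟩ ⟨3,[(0,1),(17,0),(8,3),(9,0)]⟩),(.x 0 ⟨7,[(8,1),(0,11),(0,1),(2,2),(0,3),(8,4),(1,
  6),(7,0)]⟩ ⟨4,[(4,2),(6,0),(5,0),(0,0),(9,2),(3,10)]⟩),.k,⟨true,1,⟨1,[(2,0),(7,0),(6,0),(1,0),(0,
  0),(2,0),(11,1)]⟩,⟨0,[(0,0),(12,0)]⟩⟩,⟨false,1,⟨19,[(4,11),(7,3),(4,2),(0,2),(0,19),(10,1)]⟩,⟨0,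
  [(13,0),(6,0),(2,0)]⟩⟩,⟨true,0,⟨0,[(35,0)]⟩,⟨0,[(34,0)]⟩⟩,⟨false,0,⟨2,[(0,0),(2,0),(3,0),(0,0),(3,
  0),(0,1),(5,1)]⟩,⟨1,[(2,0),(7,0),(5,0),(0,0),(2,1),(2,0)]⟩⟩,⟨false,1,⟨3,[(17,0),(0,0),(18,1)]⟩,⟨0,
  []⟩⟩,⟨false,0,⟨1,[(0,0),(6,0),(0,1),(10,1),(13,0)]⟩,⟨1,[(2,0),(7,0),(5,0),(0,0),(2,1),(2,0),(11,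
  1)]⟩⟩,[.o ⟨false,0,⟨0,[(8,0)]⟩,⟨7,[(5,3),(11,0),(0,0),(4,3),(1,5),(0,1),(10,1)]⟩⟩,.o ⟨false,1,⟨3,
  [(8,3),(8,0),(0,0),(18,1)]⟩,⟨0,[(23,0),(11,0)]⟩⟩,.o ⟨false,1,⟨1,[(20,1),(9,0),(5,0)]⟩,⟨4,[(8,1),
  (1,1),(8,4),(2,0),(0,1),(1,2),(7,0)]⟩⟩,.a ⟨true,0,⟨0,[(20,0)]⟩,⟨0,[(19,0)]⟩⟩ ⟨false,1,⟨1,[(2,0),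
  (10,0),(3,0),(17,0)]⟩,⟨3,[(0,1),(17,0),(18,0)]⟩⟩ ⟨true,0,⟨0,[(8,0),(10,0)]⟩,⟨0,[(20,0),(2,0),(11,
  0)]⟩⟩]⟩)) (.I [1,-1,2,1,-1,0,0,-1,1] (.R ⟨0,false,false,false,[1,0,0,-1],[1,1,-1],[0,1,0,0,0,0,0,
  0,-1],(⟨0,[(19,0)]⟩,⟨0,[(20,0)]⟩),(⟨0,[(28,0),(3,0)]⟩,⟨0,[(9,0)]⟩),⟨0,[(1,0)]⟩,.k,.k,(.x (-1) ⟨7,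
  [(9,3),(4,3),(2,2),(0,2),(11,1)]⟩ ⟨0,[(32,0)]⟩),(.r (-1) ⟨1,[(2,0),(7,0),(6,0),(1,0),(0,0),(2,
  0)]⟩ ⟨7,[(0,3),(16,0),(0,2),(8,3),(6,3)]⟩),.k,.k,⟨true,1,⟨1,[(5,0),(9,0),(1,0),(5,0),(11,0)]⟩,⟨0,
  [(0,0)]⟩⟩,⟨false,1,⟨19,[(4,11),(7,3),(4,2),(0,2),(0,19),(10,1)]⟩,⟨1,[(1,1),(7,0),(4,0),(1,0)]⟩⟩,
  ⟨true,0,⟨0,[(39,0)]⟩,⟨0,[]⟩⟩,⟨false,0,⟨9,[(0,3),(2,1),(3,1),(0,5),(3,1),(5,0),(0,7),(17,0)]⟩,⟨1,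
  [(2,0),(7,0),(5,0),(0,0),(2,1),(2,0)]⟩⟩,⟨false,0,⟨0,[]⟩,⟨0,[]⟩⟩,⟨false,0,⟨0,[]⟩,⟨0,[]⟩⟩,[.o
  ⟨false,0,⟨0,[(8,0)]⟩,⟨7,[(5,3),(11,0),(0,0),(4,3),(1,5),(0,1),(10,1)]⟩⟩,.o ⟨false,1,⟨3,[(8,3),(8,
  0),(0,0),(18,1)]⟩,⟨0,[(23,0),(11,0)]⟩⟩,.o ⟨false,1,⟨1,[(20,1),(9,0),(5,0)]⟩,⟨3,[(0,1),(9,1),(6,0),
  (1,3),(3,1),(6,0)]⟩⟩,.a ⟨true,0,⟨0,[(20,0)]⟩,⟨0,[(19,0)]⟩⟩ ⟨false,1,⟨1,[(17,0),(18,0)]⟩,⟨12,[(0,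
  6),(1,0),(2,2),(12,2),(4,2),(2,2),(6,3)]⟩⟩ ⟨true,0,⟨0,[(8,0),(10,0)]⟩,⟨0,[(20,0),(2,0),(11,
  0)]⟩⟩]⟩) (.R ⟨0,false,false,true,[1,0,0,-1],[0,1],[0,1,0,0,0,0,0,0,-1],(⟨0,[(19,0)]⟩,⟨0,[(20,
  0)]⟩),(⟨0,[(32,0)]⟩,⟨0,[(31,0)]⟩),⟨0,[(1,0)]⟩,.k,.k,(.x (-1) ⟨7,[(9,3),(4,3),(2,2),(0,2),(11,1)]⟩
  ⟨0,[(32,0)]⟩),(.x (-1) ⟨7,[(9,3),(4,3),(2,2),(0,2),(11,1)]⟩ ⟨0,[(32,0)]⟩),.k,.k,⟨false,1,⟨0,[(0,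
  0),(12,0)]⟩,⟨0,[(3,0),(16,0),(13,0)]⟩⟩,⟨true,0,⟨0,[(19,0)]⟩,⟨2,[(1,2),(7,1),(1,0),(13,1)]⟩⟩,⟨true,
  0,⟨0,[(39,0)]⟩,⟨0,[]⟩⟩,⟨false,0,⟨1,[(3,1),(11,1),(0,0),(2,0),(0,0)]⟩,⟨1,[(1,1),(0,0),(6,0),(0,0),
  (2,1),(0,0),(2,0),(5,0)]⟩⟩,⟨false,0,⟨0,[]⟩,⟨0,[]⟩⟩,⟨false,0,⟨0,[]⟩,⟨0,[]⟩⟩,[.o ⟨false,0,⟨0,[(34,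
  0)]⟩,⟨1,[(30,0),(4,1),(1,0)]⟩⟩,.o ⟨false,1,⟨3,[(17,0),(0,0),(15,3),(2,1)]⟩,⟨0,[(10,0),(2,0),(9,
  0)]⟩⟩,.o ⟨false,1,⟨1,[(20,1),(9,0),(5,0)]⟩,⟨4,[(8,1),(1,1),(8,4),(2,0),(0,1),(1,2),(7,0)]⟩⟩,.a
  ⟨true,0,⟨0,[(20,0)]⟩,⟨0,[(19,0)]⟩⟩ ⟨false,1,⟨1,[(17,0),(18,0)]⟩,⟨0,[(3,0),(16,0)]⟩⟩ ⟨true,0,⟨0,
  [(19,0),(14,0)]⟩,⟨1,[(1,1),(7,0),(0,1),(3,0),(1,0)]⟩⟩]⟩)))))) (.Q [0,1,1,0,-1,0,0,0,1,0,0,-1] (.p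
  false [0,0,0,1] [] (⟨0,[(15,0)]⟩,⟨0,[(14,0)]⟩) .k 0 (⟨0,[]⟩,⟨0,[]⟩) .k .k) (.K ⟨0,[0,0,0,1],0,
  (-1),(⟨0,[(16,0)]⟩,⟨0,[(15,0)]⟩),.k,(.x 0 ⟨5,[(5,3),(1,1),(13,6),(0,2)]⟩ ⟨0,[(28,0),(3,0)]⟩),(.x
  0 ⟨0,[(28,0)]⟩ ⟨7,[(5,3),(4,3),(2,2),(0,2),(11,1)]⟩),.k,.k,[⟨0,[(16,0)]⟩,⟨0,[(15,0)]⟩,⟨1,[(13,0),
  (2,1),(15,0),(2,1)]⟩,⟨0,[(0,0)]⟩]⟩) (.Q [0,-1,1,0,0,0,0,0,1,0,0,-1] (.p false [0,0,0,1] [] (⟨0,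
  [(16,0)]⟩,⟨0,[(15,0)]⟩) .k 0 (⟨0,[]⟩,⟨0,[]⟩) .k .k) (.I [0,0,-2,0,1,2,-1] (.Q [0,0,2,0,-1,0,1,0,0,
  1,-1] (.p false [0,0,1] [1] (⟨0,[(27,0)]⟩,⟨0,[(26,0)]⟩) .k 1 (⟨0,[]⟩,⟨0,[]⟩) .k .k) (.K ⟨0,[1,1,
  -1],1,0,(⟨1,[(0,0),(0,0),(25,0)]⟩,⟨0,[(8,0)]⟩),.k,.k,(.x (-1) ⟨0,[(1,0)]⟩ ⟨2,[(8,4),(1,0),(13,
  4)]⟩),.k,.k,[⟨0,[(0,0)]⟩,⟨0,[(5,0)]⟩,⟨2,[(0,0),(0,0),(20,2),(5,0),(1,1),(3,2)]⟩,⟨1,[(7,0),(12,0),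
  (12,0)]⟩]⟩) (.Q [0,0,0,0,0,-1,0,0,0,1,0,-1] (.ed true [0,1,0,1] .k) (.I [0,0,2,1,-1,0,0,-1,1] (.R
  ⟨1,false,false,false,[1,0,0,-1],[1,0,-1],[0,0,0,-1,0,0,0,0,-1],(⟨0,[(20,0)]⟩,⟨0,[(21,0)]⟩),(⟨0,
  [(29,0)]⟩,⟨0,[(30,0)]⟩),⟨0,[(1,0)]⟩,.k,.k,(.x (-1) ⟨7,[(10,3),(4,3),(2,2),(0,2),(11,1)]⟩ ⟨0,[(33,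
  0)]⟩),.k,(.r (-1) ⟨0,[(5,0),(5,0),(8,0),(3,0)]⟩ ⟨1,[(6,0),(12,0),(8,0)]⟩),.k,⟨false,1,⟨0,[(5,0),
  (5,0),(8,0),(3,0)]⟩,⟨0,[(0,0),(36,0)]⟩⟩,⟨true,0,⟨0,[(20,0),(2,0)]⟩,⟨0,[(14,0),(6,0),(2,0)]⟩⟩,
  ⟨true,0,⟨0,[(36,0)]⟩,⟨0,[(35,0)]⟩⟩,⟨false,0,⟨3,[(0,0),(3,1),(3,0),(2,0),(1,0),(0,1),(5,1),(4,0)]⟩,
  ⟨0,[(5,0),(18,0)]⟩⟩,⟨false,1,⟨3,[(18,0),(0,0),(18,1)]⟩,⟨0,[]⟩⟩,⟨false,0,⟨10,[(0,5),(3,4),(2,3),(1,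
  4),(3,0),(6,5),(13,0),(3,1)]⟩,⟨0,[(5,0),(18,0),(11,0)]⟩⟩,[.o ⟨false,0,⟨2,[(9,0),(1,0),(2,0),(7,
  0)]⟩,⟨3,[(18,0),(0,0),(4,3),(13,1)]⟩⟩,.o ⟨false,1,⟨0,[(22,0),(15,0)]⟩,⟨0,[(24,0)]⟩⟩,.o ⟨false,1,
  ⟨1,[(21,1),(9,0),(5,0)]⟩,⟨7,[(4,1),(1,1),(4,3),(6,0),(1,5),(3,1),(1,1),(4,0)]⟩⟩,.a ⟨true,0,⟨0,
  [(21,0)]⟩,⟨0,[(20,0)]⟩⟩ ⟨false,1,⟨0,[(5,0),(5,0),(2,0),(5,0),(3,0)]⟩,⟨8,[(0,2),(5,0),(1,1),(7,3),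
  (2,1),(4,3),(9,2)]⟩⟩ ⟨true,0,⟨2,[(9,0),(1,0),(2,0),(5,2),(1,0)]⟩,⟨0,[(21,0),(2,0)]⟩⟩]⟩) (.R ⟨1,
  false,false,true,[1,0,0,-1],[0,1],[1,0,0,0,0,0,0,0,-1],(⟨0,[(20,0)]⟩,⟨0,[(21,0)]⟩),(⟨0,[(33,0)]⟩,
  ⟨0,[(32,0)]⟩),⟨0,[(1,0)]⟩,.k,.k,(.x (-1) ⟨7,[(10,3),(4,3),(2,2),(0,2),(11,1)]⟩ ⟨0,[(33,0)]⟩),(.x
  (-1) ⟨7,[(10,3),(4,3),(2,2),(0,2),(11,1)]⟩ ⟨0,[(33,0)]⟩),(.r (-1) ⟨0,[(0,0),(27,0),(7,0)]⟩ ⟨13,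
  [(6,9),(9,7),(2,6),(4,9),(2,1),(6,5),(3,2)]⟩),.k,⟨false,1,⟨0,[(0,0),(13,0)]⟩,⟨1,[(6,0),(9,0),(2,
  0),(4,0),(11,0)]⟩⟩,⟨true,0,⟨0,[(20,0)]⟩,⟨8,[(6,1),(4,3),(9,8),(1,0),(0,1),(1,2),(4,1),(2,0)]⟩⟩,
  ⟨true,0,⟨0,[]⟩,⟨0,[(40,0)]⟩⟩,⟨false,0,⟨5,[(4,2),(1,1),(1,0),(7,1),(2,0),(0,5),(0,2),(2,1)]⟩,⟨0,
  [(5,0),(5,0),(2,0),(9,0)]⟩⟩,⟨false,1,⟨0,[(35,0),(2,0)]⟩,⟨0,[(36,0)]⟩⟩,⟨false,0,⟨1,[(3,0),(0,1),(1,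
  1),(0,0),(16,1),(5,0),(1,1)]⟩,⟨0,[(5,0),(5,1),(5,0)]⟩⟩,[.o ⟨false,0,⟨0,[(35,0)]⟩,⟨1,[(31,0),(4,1),
  (1,0)]⟩⟩,.o ⟨false,1,⟨3,[(18,0),(0,0),(15,3),(2,1)]⟩,⟨0,[(11,0),(2,0),(9,0)]⟩⟩,.o ⟨false,1,⟨1,
  [(21,1),(9,0),(5,0)]⟩,⟨7,[(4,1),(1,1),(4,3),(6,0),(1,5),(3,1),(1,1),(4,0)]⟩⟩,.a ⟨true,0,⟨0,[(21,
  0)]⟩,⟨0,[(20,0)]⟩⟩ ⟨false,1,⟨5,[(0,3),(5,1),(7,1),(3,0),(18,0),(0,1)]⟩,⟨3,[(4,1),(1,0),(9,0),(2,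
  0),(1,1),(2,0),(11,2)]⟩⟩ ⟨true,0,⟨0,[(20,0),(14,0)]⟩,⟨0,[(11,0),(2,0),(6,0),(2,0)]⟩⟩]⟩)) (.I [1,0,
  0,0,0,0,0,0,-1] (.R ⟨0,false,false,true,[1,0,0,-1],[0,1],[0,1,0,0,0,0,0,0,-1],(⟨0,[(20,0)]⟩,⟨0,
  [(21,0)]⟩),(⟨0,[(33,0)]⟩,⟨0,[(32,0)]⟩),⟨0,[(1,0)]⟩,.k,.k,(.x (-1) ⟨7,[(10,3),(4,3),(2,2),(0,2),
  (11,1)]⟩ ⟨0,[(33,0)]⟩),(.x (-1) ⟨7,[(10,3),(4,3),(2,2),(0,2),(11,1)]⟩ ⟨0,[(33,0)]⟩),.k,.k,⟨false,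
  1,⟨0,[(0,0),(35,0),(0,0)]⟩,⟨5,[(4,2),(1,1),(1,0),(7,1),(2,0),(1,2),(2,1)]⟩⟩,⟨true,0,⟨0,[(20,0)]⟩,
  ⟨2,[(1,2),(8,1),(1,0),(13,1)]⟩⟩,⟨true,0,⟨0,[(40,0)]⟩,⟨0,[]⟩⟩,⟨false,0,⟨5,[(4,2),(1,1),(1,0),(7,1),
  (2,0),(0,5),(0,2),(2,1)]⟩,⟨10,[(0,3),(0,3),(0,2),(2,6),(4,1),(0,10),(3,1),(1,6),(13,0),(2,1)]⟩⟩,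
  ⟨false,0,⟨0,[]⟩,⟨0,[]⟩⟩,⟨false,0,⟨0,[]⟩,⟨0,[]⟩⟩,[.o ⟨false,0,⟨0,[(35,0)]⟩,⟨1,[(31,0),(4,1),(1,
  0)]⟩⟩,.o ⟨false,1,⟨3,[(18,0),(0,0),(15,3),(2,1)]⟩,⟨0,[(11,0),(2,0),(9,0)]⟩⟩,.o ⟨false,1,⟨1,[(21,
  1),(9,0),(5,0)]⟩,⟨5,[(0,0),(3,0),(1,0),(4,1),(8,4),(2,0),(0,0),(1,1),(4,0)]⟩⟩,.a ⟨true,0,⟨0,[(21,
  0)]⟩,⟨0,[(20,0)]⟩⟩ ⟨false,1,⟨1,[(18,0),(18,0)]⟩,⟨0,[(4,0),(16,0)]⟩⟩ ⟨true,0,⟨0,[(20,0),(14,0)]⟩,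
  ⟨1,[(1,1),(8,0),(0,1),(3,0),(1,0)]⟩⟩]⟩) (.R ⟨0,false,false,false,[1,0,0,-1],[1,-1],[1,0,0,-1,0,0,
  0,0,-1],(⟨0,[(20,0)]⟩,⟨0,[(21,0)]⟩),(⟨0,[(32,0)]⟩,⟨0,[(33,0)]⟩),⟨0,[(1,0)]⟩,.k,.k,(.x (-1) ⟨7,
  [(10,3),(4,3),(2,2),(0,2),(11,1)]⟩ ⟨0,[(33,0)]⟩),(.r 0 ⟨0,[(5,0),(0,0),(4,0),(8,0),(3,0)]⟩ ⟨1,
  [(19,0),(16,1),(0,0)]⟩),.k,.k,⟨true,0,⟨0,[(5,0),(0,0),(4,0),(8,0),(3,0),(11,0)]⟩,⟨0,[(0,0)]⟩⟩,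
  ⟨false,0,⟨7,[(4,1),(1,1),(4,3),(6,0),(1,5),(3,1),(1,1),(4,0)]⟩,⟨0,[(21,0),(15,0)]⟩⟩,⟨true,0,⟨0,
  [(36,0)]⟩,⟨0,[(35,0)]⟩⟩,⟨false,0,⟨0,[(4,0),(31,0)]⟩,⟨0,[(5,0),(29,0)]⟩⟩,⟨false,0,⟨0,[]⟩,⟨0,[]⟩⟩,
  ⟨false,0,⟨0,[]⟩,⟨0,[]⟩⟩,[.o ⟨false,0,⟨0,[(11,0),(2,0),(9,0)]⟩,⟨3,[(18,0),(0,0),(15,3),(2,1)]⟩⟩,.o
  ⟨false,1,⟨1,[(31,0),(4,1),(1,0)]⟩,⟨0,[(35,0)]⟩⟩,.o ⟨false,1,⟨1,[(21,1),(9,0),(5,0)]⟩,⟨7,[(4,1),(1,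
  1),(4,3),(6,0),(1,5),(3,1),(1,1),(4,0)]⟩⟩,.a ⟨true,0,⟨0,[(21,0)]⟩,⟨0,[(20,0)]⟩⟩ ⟨false,1,⟨0,[(5,
  0),(5,0),(2,0),(5,0),(3,0)]⟩,⟨2,[(0,0),(5,0),(9,0),(2,0),(4,0),(9,0)]⟩⟩ ⟨true,0,⟨0,[(11,0),(2,0),
  (5,0),(3,0)]⟩,⟨0,[(21,0),(13,0)]⟩⟩]⟩)))) (.I [0,0,2,0,-1,-2,1] (.K ⟨0,[1,1,-1],1,0,(⟨0,[(27,0),(3,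
  0)]⟩,⟨0,[(8,0)]⟩),.k,.k,(.x (-2) ⟨3,[(5,3),(10,0),(0,0),(9,3),(1,1),(1,7)]⟩ ⟨0,[(0,0)]⟩),.k,.k,
  [⟨0,[(1,0),(25,0),(3,1)]⟩,⟨0,[(5,0)]⟩,⟨0,[(18,0),(0,0),(2,0),(11,0)]⟩,⟨1,[(7,0),(12,0),(12,
  0)]⟩]⟩) (.I [0,0,2,2,-1,0,0,-1] (.K ⟨0,[1,1,-1],1,0,(⟨0,[(28,0),(3,0)]⟩,⟨0,[(9,0)]⟩),.k,.k,(.r 1
  ⟨0,[(0,0)]⟩ ⟨3,[(6,3),(10,0),(0,0),(4,3),(11,7),(1,1)]⟩),.k,.k,[⟨0,[(2,0),(25,0),(3,1)]⟩,⟨0,[(6,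
  0)]⟩,⟨0,[(19,0),(0,0),(2,0),(11,0)]⟩,⟨1,[(8,0),(12,0),(12,0)]⟩]⟩) (.Q [0,1,1,-1,-1,0,0,0,1,0,0,
  -1] (.p false [0,0,0,1] [] (⟨0,[(20,0)]⟩,⟨0,[(19,0)]⟩) .k 0 (⟨0,[]⟩,⟨0,[]⟩) .k .k) (.R ⟨2,true,
  false,true,[0,1],[0,0,0,1],[0,1,1],(⟨0,[]⟩,⟨0,[]⟩),(⟨0,[(21,0)]⟩,⟨0,[(20,0)]⟩),⟨0,[]⟩,.k,.k,.k,
  (.r 0 ⟨0,[(5,0),(0,0),(4,0),(8,0),(3,0)]⟩ ⟨1,[(1,0),(17,0),(8,0)]⟩),.k,.k,⟨true,0,⟨2,[(3,0),(1,0),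
  (0,0),(4,1),(6,0),(1,0),(3,0),(4,0),(3,1)]⟩,⟨2,[(0,1),(5,0),(0,0),(0,0),(12,1),(2,0),(9,0),(2,
  0)]⟩⟩,⟨false,0,⟨13,[(0,3),(3,1),(1,1),(11,2),(1,7),(2,1),(0,1),(6,2),(2,1)]⟩,⟨0,[(21,0),(15,0)]⟩⟩,
  ⟨false,0,⟨0,[(36,0)]⟩,⟨0,[(35,0),(2,0)]⟩⟩,⟨true,(-1),⟨0,[(0,0)]⟩,⟨0,[(5,0),(29,0)]⟩⟩,⟨true,0,⟨0,
  [(40,0)]⟩,⟨0,[]⟩⟩,⟨false,0,⟨5,[(0,1),(3,3),(13,0),(0,0),(15,1)]⟩,⟨0,[(5,0)]⟩⟩,[]⟩) (.Q [0,1,-1,-1,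
  0,0,0,0,-1,-1,0,1] (.p true [0,0,0,1] [1] (⟨0,[(21,0)]⟩,⟨0,[(20,0)]⟩) .k 1 (⟨0,[]⟩,⟨0,[]⟩) .k .k)
  (.R ⟨2,true,false,true,[0,1],[1,0,0,-1],[0,1,1],(⟨0,[]⟩,⟨0,[]⟩),(⟨0,[(21,0)]⟩,⟨0,[(22,0)]⟩),⟨0,
  []⟩,.k,.k,.k,(.x 0 ⟨0,[(34,0)]⟩ ⟨7,[(11,3),(4,3),(2,2),(0,2),(11,1)]⟩),.k,.k,⟨true,0,⟨9,[(4,2),(0,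
  1),(1,0),(4,2),(4,0),(2,3),(1,1),(2,0),(4,2),(3,5)]⟩,⟨8,[(0,6),(0,1),(5,1),(2,0),(3,0),(6,8),(3,
  2),(9,3)]⟩⟩,⟨false,1,⟨9,[(0,3),(0,1),(7,3),(10,0),(1,3),(9,2),(3,1)]⟩,⟨0,[(21,0)]⟩⟩,⟨false,0,⟨0,
  [(37,0)]⟩,⟨0,[(36,0),(2,0)]⟩⟩,⟨true,0,⟨0,[(0,0)]⟩,⟨5,[(5,2),(1,1),(1,0),(7,1),(2,0),(0,5),(0,2),
  (2,1)]⟩⟩,⟨true,0,⟨0,[(41,0)]⟩,⟨0,[]⟩⟩,⟨false,1,⟨7,[(0,3),(0,3),(17,0),(0,0),(11,1)]⟩,⟨0,[(5,0),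
  (15,0),(0,0)]⟩⟩,[]⟩) (.Q [0,0,0,0,0,-1,0,0,0,1,0,-1] (.ed true [0,1,0,1] .k) (.I [0,-1,-2,-2,1,0,
  0,0,-1] (.R ⟨1,false,false,true,[1,0,0,-1],[0,1],[0,0,0,-1,0,0,0,0,-1],(⟨0,[(23,0)]⟩,⟨0,[(24,
  0)]⟩),(⟨0,[(36,0)]⟩,⟨0,[(35,0)]⟩),⟨0,[(1,0)]⟩,.k,.k,(.x (-1) ⟨7,[(13,3),(4,3),(2,2),(0,2),(11,
  1)]⟩ ⟨0,[(36,0)]⟩),(.x (-1) ⟨7,[(13,3),(4,3),(2,2),(0,2),(11,1)]⟩ ⟨0,[(36,0)]⟩),(.r (-1) ⟨0,[(0,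
  0),(42,0)]⟩ ⟨35,[(2,10),(0,8),(5,25),(6,10),(5,16),(1,1),(2,25),(2,3),(6,2)]⟩),.k,⟨false,1,⟨0,[(0,
  0)]⟩,⟨2,[(9,1),(1,0),(7,1),(2,0),(4,1)]⟩⟩,⟨true,0,⟨0,[(23,0)]⟩,⟨8,[(9,1),(4,3),(9,8),(1,0),(0,1),
  (1,2),(4,1),(2,0)]⟩⟩,⟨true,0,⟨0,[(39,0)]⟩,⟨0,[(38,0)]⟩⟩,⟨false,0,⟨0,[(2,0),(40,0)]⟩,⟨9,[(0,7),(2,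
  1),(5,2),(2,0),(1,2),(9,7),(2,3),(6,2),(2,1)]⟩⟩,⟨false,1,⟨3,[(21,0),(0,0),(18,1)]⟩,⟨0,[]⟩⟩,⟨false,
  0,⟨0,[(2,0),(35,0)]⟩,⟨9,[(0,8),(7,0),(0,1),(4,5),(9,8),(2,1),(1,3),(4,1),(2,0)]⟩⟩,[.o ⟨false,0,⟨0,
  [(38,0)]⟩,⟨1,[(34,0),(4,1),(1,0)]⟩⟩,.o ⟨false,1,⟨15,[(2,3),(0,3),(17,4),(0,4),(11,1),(3,7)]⟩,⟨0,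
  [(14,0),(2,0),(9,0)]⟩⟩,.o ⟨false,1,⟨1,[(24,1),(9,0),(5,0)]⟩,⟨7,[(7,1),(1,1),(4,3),(6,0),(1,5),(3,
  1),(1,1),(4,0)]⟩⟩,.a ⟨true,0,⟨0,[(24,0)]⟩,⟨0,[(23,0)]⟩⟩ ⟨false,1,⟨3,[(0,1),(20,0),(19,0)]⟩,⟨5,[(7,
  2),(1,1),(1,0),(7,1),(2,0),(1,2),(2,1)]⟩⟩ ⟨true,0,⟨0,[(23,0),(14,0)]⟩,⟨0,[(14,0),(2,0),(6,0),(2,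
  0)]⟩⟩]⟩) (.R ⟨1,false,false,false,[1,0,0,-1],[1,-1],[1,0,0,0,0,0,0,0,-1],(⟨0,[(23,0)]⟩,⟨0,[(24,
  0)]⟩),(⟨0,[(35,0)]⟩,⟨0,[(36,0)]⟩),⟨0,[(1,0)]⟩,.k,.k,(.x (-1) ⟨7,[(13,3),(4,3),(2,2),(0,2),(11,
  1)]⟩ ⟨0,[(36,0)]⟩),(.r 0 ⟨4,[(3,2),(2,0),(2,2),(4,3),(6,0),(1,2),(3,2),(4,0),(3,1)]⟩ ⟨1,[(4,0),
  (17,0),(8,0)]⟩),.k,.k,⟨true,0,⟨4,[(3,2),(2,0),(2,2),(4,3),(6,0),(1,2),(3,2),(4,0),(3,1)]⟩,⟨0,[(0,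
  0),(3,0),(12,0),(21,0)]⟩⟩,⟨false,0,⟨7,[(7,1),(1,1),(4,3),(6,0),(1,5),(3,1),(1,1),(4,0)]⟩,⟨0,[(24,
  0),(15,0)]⟩⟩,⟨true,0,⟨0,[]⟩,⟨0,[(43,0)]⟩⟩,⟨false,0,⟨0,[(7,0),(31,0)]⟩,⟨0,[(3,0),(39,0)]⟩⟩,⟨false,
  1,⟨7,[(2,3),(0,3),(17,0),(0,0),(11,1)]⟩,⟨0,[(39,0)]⟩⟩,⟨false,0,⟨0,[(7,0)]⟩,⟨0,[(8,0),(34,0)]⟩⟩,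
  [.o ⟨false,0,⟨0,[(14,0),(2,0),(9,0)]⟩,⟨15,[(2,3),(0,3),(17,4),(0,4),(11,1),(3,7)]⟩⟩,.o ⟨false,1,
  ⟨1,[(34,0),(4,1),(1,0)]⟩,⟨0,[(38,0)]⟩⟩,.o ⟨false,1,⟨1,[(24,1),(9,0),(5,0)]⟩,⟨7,[(7,1),(1,1),(4,3),
  (6,0),(1,5),(3,1),(1,1),(4,0)]⟩⟩,.a ⟨true,0,⟨0,[(24,0)]⟩,⟨0,[(23,0)]⟩⟩ ⟨false,1,⟨0,[(3,0),(10,0),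
  (2,0),(5,0),(3,0)]⟩,⟨11,[(0,3),(21,3),(6,0),(0,0),(6,1),(1,7)]⟩⟩ ⟨true,0,⟨0,[(14,0),(2,0),(5,0),
  (3,0)]⟩,⟨0,[(24,0),(13,0)]⟩⟩]⟩)) (.I [0,0,-2,-2,1,0,0,0,-1] (.R ⟨0,false,false,true,[1,0,0,-1],[0,
  0,1],[0,1,0,0,0,0,0,0,-1],(⟨0,[(23,0)]⟩,⟨0,[(24,0)]⟩),(⟨0,[(33,0)]⟩,⟨0,[(32,0)]⟩),⟨0,[(1,0)]⟩,.k,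
  .k,(.x (-1) ⟨7,[(13,3),(4,3),(2,2),(0,2),(11,1)]⟩ ⟨0,[(36,0)]⟩),.k,.k,.k,⟨true,0,⟨0,[(0,0),(8,
  0)]⟩,⟨0,[(2,0),(11,0),(9,0),(2,0)]⟩⟩,⟨false,0,⟨0,[(17,0),(5,0),(3,0)]⟩,⟨4,[(10,2),(5,0),(7,4),(9,
  1)]⟩⟩,⟨true,0,⟨0,[(43,0)]⟩,⟨0,[]⟩⟩,⟨false,0,⟨0,[(2,0),(24,0),(11,0)]⟩,⟨2,[(8,2),(3,0),(1,0),(2,0),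
  (7,0)]⟩⟩,⟨false,0,⟨0,[]⟩,⟨0,[]⟩⟩,⟨false,0,⟨0,[]⟩,⟨0,[]⟩⟩,[.o ⟨false,0,⟨0,[(27,0)]⟩,⟨0,[(25,0),(15,
  0)]⟩⟩,.o ⟨false,1,⟨3,[(21,0),(0,0),(4,3),(13,1)]⟩,⟨2,[(12,0),(1,0),(2,0),(7,0)]⟩⟩,.o ⟨false,1,⟨1,
  [(24,1),(9,0),(5,0)]⟩,⟨7,[(7,1),(1,1),(4,3),(6,0),(1,5),(3,1),(1,1),(4,0)]⟩⟩,.a ⟨true,0,⟨0,[(24,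
  0)]⟩,⟨0,[(23,0)]⟩⟩ ⟨false,1,⟨1,[(21,0),(18,0)]⟩,⟨0,[(7,0),(16,0)]⟩⟩ ⟨true,0,⟨0,[(23,0),(3,0)]⟩,⟨2,
  [(12,0),(1,0),(2,0),(6,2),(0,0)]⟩⟩]⟩) (.R ⟨0,false,false,false,[1,0,0,-1],[1,0,-1],[1,0,0,0,0,0,0,
  0,-1],(⟨0,[(23,0)]⟩,⟨0,[(24,0)]⟩),(⟨0,[(32,0)]⟩,⟨0,[(33,0)]⟩),⟨0,[(1,0)]⟩,.k,.k,(.x (-1) ⟨7,[(13,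
  3),(4,3),(2,2),(0,2),(11,1)]⟩ ⟨0,[(36,0)]⟩),.k,.k,.k,⟨false,1,⟨0,[(3,0),(10,0),(8,0),(3,0)]⟩,⟨0,
  [(0,0),(3,0),(26,1)]⟩⟩,⟨true,0,⟨0,[(23,0),(2,0)]⟩,⟨4,[(1,2),(4,0),(11,0),(1,1),(3,1),(15,0)]⟩⟩,
  ⟨true,0,⟨0,[]⟩,⟨0,[(43,0)]⟩⟩,⟨false,0,⟨1,[(2,0),(4,0),(6,0),(2,0),(10,0)]⟩,⟨0,[(8,0),(18,0)]⟩⟩,
  ⟨false,0,⟨0,[]⟩,⟨0,[]⟩⟩,⟨false,0,⟨0,[]⟩,⟨0,[]⟩⟩,[.o ⟨false,0,⟨2,[(12,0),(1,0),(2,0),(7,0)]⟩,⟨3,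
  [(21,0),(0,0),(4,3),(13,1)]⟩⟩,.o ⟨false,1,⟨0,[(25,0),(15,0)]⟩,⟨0,[(27,0)]⟩⟩,.o ⟨false,1,⟨1,[(24,
  1),(9,0),(5,0)]⟩,⟨7,[(7,1),(1,1),(4,3),(6,0),(1,5),(3,1),(1,1),(4,0)]⟩⟩,.a ⟨true,0,⟨0,[(24,0)]⟩,
  ⟨0,[(23,0)]⟩⟩ ⟨false,1,⟨0,[(3,0),(10,0),(2,0),(5,0),(3,0)]⟩,⟨5,[(0,1),(21,1),(6,0),(0,0),(8,3)]⟩⟩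
  ⟨true,0,⟨2,[(12,0),(1,0),(2,0),(5,2),(1,0)]⟩,⟨0,[(24,0),(2,0)]⟩⟩]⟩)))))))) (.K ⟨0,[0,0,0,1],0,0,
  (⟨0,[(17,0)]⟩,⟨0,[(16,0)]⟩),.k,(.r (-1) ⟨1,[(15,0),(16,1),(0,0)]⟩ ⟨16,[(0,4),(1,5),(2,2),(3,1),(2,
  1),(1,5),(1,4),(3,8),(9,7)]⟩),(.x 0 ⟨0,[(29,0)]⟩ ⟨7,[(6,3),(4,3),(2,2),(0,2),(11,1)]⟩),.k,.k,[⟨0,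
  [(17,0)]⟩,⟨0,[(16,0)]⟩,⟨0,[(0,0)]⟩,⟨3,[(2,1),(4,3),(5,0),(1,1),(0,3),(1,0),(1,2)]⟩]⟩)))) (.I [0,0,
  -2,-2,1,0,0,1] (.R ⟨1,true,false,false,[0,0,1],[0,1],[1,1,0,0,0,0,0,1],(⟨0,[(24,0)]⟩,⟨0,[(23,
  0)]⟩),(⟨0,[(27,0)]⟩,⟨0,[(26,0)]⟩),⟨0,[(4,0)]⟩,.k,.k,.k,.k,(.r (-1) ⟨0,[(0,0)]⟩ ⟨2,[(1,1),(17,1),
  (2,0),(5,1),(0,5),(2,1)]⟩),.k,⟨false,1,⟨0,[(0,0),(28,0)]⟩,⟨0,[(22,0),(5,0),(0,0)]⟩⟩,⟨true,1,⟨5,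
  [(0,1),(9,3),(8,1),(11,0),(0,2)]⟩,⟨0,[(1,0)]⟩⟩,⟨false,0,⟨0,[]⟩,⟨3,[(12,0),(0,0),(18,1)]⟩⟩,⟨true,0,
  ⟨0,[(8,0),(1,0)]⟩,⟨1,[(0,0),(0,0),(16,0),(15,0)]⟩⟩,⟨true,0,⟨0,[(29,0)]⟩,⟨0,[(30,0)]⟩⟩,⟨false,1,⟨0,
  [(8,0),(1,0),(18,0),(2,0)]⟩,⟨0,[(0,0),(0,0)]⟩⟩,[]⟩) (.I [1,1,-1,-2] (.I [0,0,2,0,-1,-2,1] (.R ⟨1,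
  true,false,false,[0,0,1],[0,1],[1,1,0,0,0,0,0,1],(⟨0,[(26,0)]⟩,⟨0,[(25,0)]⟩),(⟨0,[(29,0)]⟩,⟨0,
  [(28,0)]⟩),⟨0,[(6,0)]⟩,.k,.k,.k,.k,(.x 1 ⟨0,[(0,0)]⟩ ⟨7,[(8,3),(5,2),(0,2),(13,19),(3,9)]⟩),.k,
  ⟨false,1,⟨0,[(7,0),(8,0),(0,0),(2,0),(12,0)]⟩,⟨1,[(2,0),(21,0),(9,0)]⟩⟩,⟨true,1,⟨0,[(23,0),(9,
  0)]⟩,⟨0,[(3,0)]⟩⟩,⟨false,0,⟨0,[]⟩,⟨3,[(14,0),(0,0),(18,1)]⟩⟩,⟨true,0,⟨0,[(10,0),(1,0)]⟩,⟨7,[(1,3),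
  (1,0),(16,7),(2,0),(6,0),(3,0)]⟩⟩,⟨true,0,⟨0,[(31,0)]⟩,⟨0,[(32,0)]⟩⟩,⟨false,1,⟨2,[(2,1),(9,1),(8,
  0),(11,1),(0,2)]⟩,⟨0,[(1,0),(18,0),(9,0)]⟩⟩,[]⟩) (.Q [0,1,1,0,-1,0,0,0,1,0,0,-1] (.p false [0,0,0,
  1] [] (⟨0,[(17,0)]⟩,⟨0,[(16,0)]⟩) .k 0 (⟨0,[]⟩,⟨0,[]⟩) .k .k) (.K ⟨0,[0,0,0,1],0,(-1),(⟨0,[(18,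
  0)]⟩,⟨0,[(17,0)]⟩),.k,(.x 0 ⟨5,[(7,3),(1,1),(13,6),(0,2)]⟩ ⟨0,[(30,0),(3,0)]⟩),(.x 0 ⟨0,[(30,0)]⟩
  ⟨7,[(7,3),(4,3),(2,2),(0,2),(11,1)]⟩),.k,.k,[⟨0,[(18,0)]⟩,⟨0,[(17,0)]⟩,⟨11,[(2,3),(12,6),(0,0),(1,
  11),(13,7),(1,3)]⟩,⟨0,[(0,0)]⟩]⟩) (.Q [0,0,2,0,-1,0,0,0,0,1,0,-1] (.p false [0,0,0,1] [1] (⟨0,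
  [(18,0)]⟩,⟨0,[(17,0)]⟩) .k 1 (⟨0,[]⟩,⟨0,[]⟩) .k .k) (.I [0,0,1,1,0,0,0,1,-1] (.Q [0,0,1,1,0,0,1,1,
  1,1,-1,-1] (.p false [0,0,1] [1,0,0,-1] (⟨0,[(29,0)]⟩,⟨0,[(28,0)]⟩) .k 2 (⟨0,[(19,0)]⟩,⟨0,[(20,
  0)]⟩) .k (.r (-1) ⟨30,[(0,15),(0,4),(1,0),(0,7),(2,22),(4,6),(5,11),(1,4),(2,14),(5,0),(1,1)]⟩ ⟨5,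
  [(0,3),(3,5),(0,3),(7,5),(3,0),(18,2)]⟩)) (.Q [0,0,0,0,0,1,0,0,0,0,0,-1] (.ed true [1,-1,0,1] .k)
  (.R ⟨0,false,false,false,[0,0,0,1],[1,-1],[1,0,0,0,0,0,0,0,1],(⟨0,[(22,0)]⟩,⟨0,[(21,0)]⟩),(⟨0,
  [(33,0)]⟩,⟨0,[(34,0)]⟩),⟨0,[(0,0)]⟩,.k,.k,(.r (-1) ⟨7,[(6,3),(2,3),(9,0),(0,2)]⟩ ⟨2,[(2,0),(4,0),
  (11,0)]⟩),(.x 0 ⟨0,[(34,0)]⟩ ⟨7,[(11,3),(4,3),(2,2),(0,2),(11,1)]⟩),.k,.k,⟨true,0,⟨3,[(1,1),(5,0),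
  (2,0),(1,0),(7,0),(1,1)]⟩,⟨0,[(2,0),(3,0),(8,0)]⟩⟩,⟨false,1,⟨1,[(22,1),(9,0),(5,0)]⟩,⟨0,[(21,
  0)]⟩⟩,⟨true,0,⟨0,[]⟩,⟨0,[(41,0)]⟩⟩,⟨false,1,⟨0,[(4,0),(7,0),(2,0),(9,0)]⟩,⟨3,[(1,0),(1,0),(3,0),
  (1,0),(7,0),(2,0),(0,1)]⟩⟩,⟨false,0,⟨0,[]⟩,⟨0,[]⟩⟩,⟨false,0,⟨0,[]⟩,⟨0,[]⟩⟩,[.o ⟨false,0,⟨0,[(12,
  0),(2,0),(9,0)]⟩,⟨3,[(19,0),(0,0),(15,3),(2,1)]⟩⟩,.o ⟨false,1,⟨11,[(6,5),(17,1),(2,1),(4,4),(2,1),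
  (3,6)]⟩,⟨0,[(36,0)]⟩⟩,.o ⟨false,0,⟨1,[(3,0),(17,0),(10,0)]⟩,⟨1,[(22,1),(9,0),(5,0)]⟩⟩,.a ⟨true,
  (-1),⟨0,[(3,0)]⟩,⟨0,[(22,0),(15,0)]⟩⟩ ⟨false,1,⟨0,[(9,0)]⟩,⟨14,[(2,0),(0,2),(3,0),(0,2),(3,2),(6,
  6),(2,2)]⟩⟩ ⟨true,1,⟨0,[(12,0),(2,0),(6,0),(2,0),(12,0)]⟩,⟨0,[(3,0),(32,0)]⟩⟩]⟩) (.R ⟨1,false,
  false,true,[0,0,0,1],[0,1],[0,1,0,-1,0,0,0,0,1],(⟨0,[(22,0)]⟩,⟨0,[(21,0)]⟩),(⟨0,[(34,0)]⟩,⟨0,[(33,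
  0)]⟩),⟨0,[(0,0)]⟩,.k,.k,(.r (-1) ⟨7,[(6,3),(2,3),(9,0),(0,2)]⟩ ⟨2,[(2,0),(4,0),(11,0)]⟩),(.r (-1)
  ⟨7,[(6,3),(2,3),(9,0),(0,2)]⟩ ⟨2,[(2,0),(4,0),(11,0)]⟩),(.r (-1) ⟨0,[(6,0),(2,0)]⟩ ⟨11,[(2,7),(4,
  7),(11,4),(0,2)]⟩),.k,⟨false,1,⟨0,[(6,0),(2,0)]⟩,⟨5,[(2,3),(4,3),(11,0),(18,2)]⟩⟩,⟨true,1,⟨0,[(22,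
  0),(15,0)]⟩,⟨2,[(3,2),(4,0),(15,0),(7,0)]⟩⟩,⟨false,0,⟨0,[(37,0)]⟩,⟨0,[(36,0),(2,0)]⟩⟩,⟨false,1,⟨0,
  [(4,0),(31,0)]⟩,⟨11,[(1,9),(1,1),(2,5),(5,9),(2,9),(4,0),(11,0),(2,3)]⟩⟩,⟨true,0,⟨0,[(41,0)]⟩,⟨0,
  []⟩⟩,⟨false,1,⟨1,[(2,0),(1,0),(2,0),(14,0),(13,0),(1,1)]⟩,⟨5,[(1,3),(1,1),(2,5),(5,3),(2,3),(4,0),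
  (11,0),(2,3)]⟩⟩,[.o ⟨false,0,⟨0,[(36,0)]⟩,⟨11,[(6,5),(17,1),(2,1),(4,4),(2,1),(3,6)]⟩⟩,.o ⟨false,
  1,⟨3,[(19,0),(0,0),(15,3),(2,1)]⟩,⟨0,[(12,0),(2,0),(9,0)]⟩⟩,.o ⟨false,0,⟨1,[(3,0),(17,0),(10,0)]⟩,
  ⟨1,[(22,1),(9,0),(5,0)]⟩⟩,.a ⟨true,(-1),⟨0,[(3,0)]⟩,⟨0,[(22,0),(15,0)]⟩⟩ ⟨false,1,⟨7,[(6,3),(2,3),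
  (9,0),(0,2)]⟩,⟨0,[(2,0),(12,0)]⟩⟩ ⟨true,1,⟨0,[(22,0),(13,0),(1,0)]⟩,⟨0,[(8,0),(3,0),(8,0)]⟩⟩]⟩))
  (.R ⟨2,true,false,true,[0,1],[1,0,0,-1],[0,1,1],(⟨0,[]⟩,⟨0,[]⟩),(⟨0,[(20,0)]⟩,⟨0,[(21,0)]⟩),⟨0,
  []⟩,.k,.k,.k,(.x 0 ⟨0,[(33,0)]⟩ ⟨7,[(10,3),(4,3),(2,2),(0,2),(11,1)]⟩),.k,.k,⟨true,0,⟨4,[(2,0),(4,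
  1),(0,0),(2,0),(4,0),(2,1),(1,0)]⟩,⟨1,[(0,0),(0,0),(12,0),(5,0),(3,0)]⟩⟩,⟨false,1,⟨1,[(21,1),(9,
  0),(5,0)]⟩,⟨0,[(20,0)]⟩⟩,⟨false,0,⟨0,[(36,0)]⟩,⟨0,[(35,0),(2,0)]⟩⟩,⟨true,0,⟨0,[(0,0),(23,0)]⟩,⟨5,
  [(2,2),(3,1),(1,3),(7,1),(2,0),(0,2),(3,1)]⟩⟩,⟨true,0,⟨0,[(40,0)]⟩,⟨0,[]⟩⟩,⟨false,1,⟨2,[(0,0),(2,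
  1),(20,0),(6,0),(3,0)]⟩,⟨0,[(2,0),(5,0)]⟩⟩,[]⟩)) (.Q [0,1,1,-1,-1,0,0,0,1,0,0,-1] (.p false [0,0,
  0,1] [] (⟨0,[(20,0)]⟩,⟨0,[(19,0)]⟩) .k 0 (⟨0,[]⟩,⟨0,[]⟩) .k .k) (.R ⟨2,true,false,true,[0,1],[0,0,
  0,1],[0,1,1],(⟨0,[]⟩,⟨0,[]⟩),(⟨0,[(21,0)]⟩,⟨0,[(20,0)]⟩),⟨0,[]⟩,.k,.k,.k,(.r 0 ⟨0,[(2,0),(0,0),(5,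
  0),(14,0)]⟩ ⟨7,[(5,3),(2,3),(9,0),(0,2)]⟩),.k,.k,⟨true,0,⟨4,[(2,0),(0,0),(3,1),(3,0),(4,0),(1,
  1)]⟩,⟨3,[(0,2),(5,0),(1,0),(7,0),(4,2),(2,0),(9,1),(2,2)]⟩⟩,⟨false,0,⟨1,[(2,0),(17,0),(10,0)]⟩,⟨0,
  [(21,0),(15,0)]⟩⟩,⟨false,0,⟨0,[(36,0)]⟩,⟨0,[(35,0),(2,0)]⟩⟩,⟨true,(-1),⟨0,[(0,0)]⟩,⟨0,[(3,0),(31,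
  0)]⟩⟩,⟨true,0,⟨0,[(40,0)]⟩,⟨0,[]⟩⟩,⟨false,0,⟨23,[(0,7),(1,8),(3,3),(1,11),(4,1),(5,1),(0,6),(3,3),
  (6,6)]⟩,⟨0,[(3,0)]⟩⟩,[]⟩) (.R ⟨1,true,false,false,[1,-1],[1,0,0,-1],[1,0,-1,-1],(⟨0,[(32,0)]⟩,⟨0,
  [(33,0)]⟩),(⟨0,[(20,0)]⟩,⟨0,[(21,0)]⟩),⟨0,[(10,0),(4,0)]⟩,.k,.k,(.r (-1) ⟨1,[(5,1),(31,0),(0,0)]⟩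
  ⟨9,[(6,7),(9,3),(1,0),(0,0),(4,7),(2,3),(10,5)]⟩),(.r (-1) ⟨7,[(5,3),(2,3),(9,0),(0,2)]⟩ ⟨3,[(0,
  1),(1,1),(3,0),(2,0),(1,0),(6,0),(5,1)]⟩),(.r (-1) ⟨0,[(5,0),(2,0)]⟩ ⟨7,[(0,1),(1,1),(3,5),(6,1),
  (2,1),(1,2),(5,5),(13,2)]⟩),.k,⟨false,1,⟨7,[(1,2),(2,1),(0,1),(2,4),(1,2),(0,0),(3,0),(8,2),(12,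
  0)]⟩,⟨3,[(0,1),(1,1),(3,0),(2,0),(1,0),(6,0),(5,1)]⟩⟩,⟨true,1,⟨0,[(21,0),(15,0)]⟩,⟨2,[(2,2),(4,0),
  (15,0),(7,0)]⟩⟩,⟨true,0,⟨0,[]⟩,⟨0,[(40,0)]⟩⟩,⟨false,1,⟨0,[(0,0)]⟩,⟨7,[(1,1),(0,7),(2,1),(2,3),(2,
  1),(7,0),(4,1),(6,2)]⟩⟩,⟨false,1,⟨0,[(35,0),(2,0)]⟩,⟨0,[(36,0)]⟩⟩,⟨true,1,⟨0,[(0,0),(34,0)]⟩,⟨0,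
  [(1,0),(0,0),(8,0),(12,0)]⟩⟩,[]⟩))) (.I [1,0,0,1,0,0,0,-1,1] (.Q [0,0,0,0,0,1,0,0,0,-1,0,1] (.ed
  false [0,1,0,1] .k) (.R ⟨0,false,false,false,[1,0,0,-1],[1,0,-1],[0,0,0,-1,0,0,0,0,-1],(⟨0,[(20,
  0)]⟩,⟨0,[(21,0)]⟩),(⟨0,[(29,0)]⟩,⟨0,[(30,0)]⟩),⟨0,[(0,0)]⟩,.k,.k,(.x (-1) ⟨7,[(10,3),(4,3),(2,2),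
  (0,2),(11,1)]⟩ ⟨0,[(33,0)]⟩),.k,.k,.k,⟨false,1,⟨0,[(3,0),(7,0),(8,0),(3,0)]⟩,⟨0,[(1,0)]⟩⟩,⟨true,0,
  ⟨0,[(20,0),(2,0)]⟩,⟨2,[(2,0),(4,0),(9,0),(3,1)]⟩⟩,⟨true,0,⟨0,[(36,0)]⟩,⟨0,[(35,0)]⟩⟩,⟨false,0,⟨5,
  [(1,3),(5,0),(3,3),(1,0),(0,1),(4,0),(0,5),(2,0),(10,1)]⟩,⟨0,[(3,0),(20,0)]⟩⟩,⟨false,0,⟨0,[]⟩,⟨0,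
  []⟩⟩,⟨false,0,⟨0,[]⟩,⟨0,[]⟩⟩,[.o ⟨false,0,⟨2,[(9,0),(1,0),(2,0),(7,0)]⟩,⟨3,[(18,0),(0,0),(4,3),
  (13,1)]⟩⟩,.o ⟨false,1,⟨0,[(22,0),(15,0)]⟩,⟨0,[(24,0)]⟩⟩,.o ⟨false,1,⟨7,[(2,3),(15,0),(0,0),(1,3),
  (9,1)]⟩,⟨2,[(7,0),(12,2),(2,0),(7,0)]⟩⟩,.a ⟨true,0,⟨0,[(21,0)]⟩,⟨0,[(20,0)]⟩⟩ ⟨false,1,⟨0,[(3,0),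
  (7,0),(2,0),(5,0),(3,0)]⟩,⟨0,[(7,0),(0,0),(7,0)]⟩⟩ ⟨true,0,⟨2,[(9,0),(1,0),(2,0),(5,2),(1,0)]⟩,⟨0,
  [(21,0),(2,0)]⟩⟩]⟩) (.R ⟨1,false,false,false,[1,0,0,-1],[1,0,-1],[0,0,0,-1,0,0,0,0,-1],(⟨0,[(20,
  0)]⟩,⟨0,[(21,0)]⟩),(⟨0,[(29,0)]⟩,⟨0,[(30,0)]⟩),⟨0,[(0,0)]⟩,.k,.k,(.x (-1) ⟨7,[(10,3),(4,3),(2,2),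
  (0,2),(11,1)]⟩ ⟨0,[(33,0)]⟩),.k,(.r (-1) ⟨0,[(3,0),(7,0),(8,0),(3,0)]⟩ ⟨1,[(6,0),(12,0),(8,0)]⟩),
  .k,⟨false,1,⟨0,[(3,0),(7,0),(8,0),(3,0)]⟩,⟨0,[(1,0)]⟩⟩,⟨true,0,⟨0,[(20,0),(2,0)]⟩,⟨2,[(2,0),(4,0),
  (9,0),(3,1)]⟩⟩,⟨true,0,⟨0,[(36,0)]⟩,⟨0,[(35,0)]⟩⟩,⟨false,0,⟨5,[(1,3),(5,0),(3,3),(1,0),(0,1),(4,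
  0),(0,5),(2,0),(10,1)]⟩,⟨0,[(3,0),(20,0)]⟩⟩,⟨false,1,⟨3,[(18,0),(0,0),(18,1)]⟩,⟨0,[]⟩⟩,⟨false,0,
  ⟨0,[(6,0),(1,0),(2,0),(8,0)]⟩,⟨7,[(3,5),(1,3),(12,0),(2,1),(2,7),(9,1),(3,0)]⟩⟩,[.o ⟨false,0,⟨2,
  [(9,0),(1,0),(2,0),(7,0)]⟩,⟨3,[(18,0),(0,0),(4,3),(13,1)]⟩⟩,.o ⟨false,1,⟨0,[(22,0),(15,0)]⟩,⟨0,
  [(24,0)]⟩⟩,.o ⟨false,1,⟨7,[(2,3),(15,0),(0,0),(1,3),(9,1)]⟩,⟨2,[(7,0),(12,2),(2,0),(7,0)]⟩⟩,.a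
  ⟨true,0,⟨0,[(21,0)]⟩,⟨0,[(20,0)]⟩⟩ ⟨false,1,⟨0,[(3,0),(7,0),(2,0),(5,0),(3,0)]⟩,⟨0,[(7,0),(0,0),
  (7,0)]⟩⟩ ⟨true,0,⟨2,[(9,0),(1,0),(2,0),(5,2),(1,0)]⟩,⟨0,[(21,0),(2,0)]⟩⟩]⟩)) (.Q [0,1,-1,0,0,0,0,
  0,-1,0,0,1] (.p true [0,0,0,1] [] (⟨0,[(20,0)]⟩,⟨0,[(19,0)]⟩) .k 0 (⟨0,[]⟩,⟨0,[]⟩) .k .k) (.K ⟨0,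
  [0,0,0,1],0,0,(⟨0,[(21,0)]⟩,⟨0,[(20,0)]⟩),.k,(.r (-1) ⟨7,[(5,3),(2,3),(9,0),(0,2)]⟩ ⟨3,[(1,1),(4,
  1),(11,0),(16,1),(2,0)]⟩),(.x 0 ⟨0,[(33,0)]⟩ ⟨7,[(10,3),(4,3),(2,2),(0,2),(11,1)]⟩),.k,.k,[⟨0,
  [(21,0)]⟩,⟨0,[(20,0)]⟩,⟨0,[(0,0)]⟩,⟨5,[(6,0),(0,1),(1,0),(1,2),(7,2),(0,5),(1,1),(1,3)]⟩]⟩) (.R
  ⟨2,true,false,true,[0,1],[1,0,0,-1],[0,1,1],(⟨0,[]⟩,⟨0,[]⟩),(⟨0,[(20,0)]⟩,⟨0,[(21,0)]⟩),⟨0,[]⟩,.k,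
  .k,.k,(.x 0 ⟨0,[(33,0)]⟩ ⟨7,[(10,3),(4,3),(2,2),(0,2),(11,1)]⟩),.k,.k,⟨true,0,⟨8,[(0,2),(4,0),(1,
  2),(8,1),(2,2),(1,2),(5,0)]⟩,⟨9,[(1,7),(3,1),(0,5),(7,1),(3,0),(18,4)]⟩⟩,⟨false,1,⟨7,[(2,3),(15,
  0),(0,0),(1,3),(9,1)]⟩,⟨0,[(20,0)]⟩⟩,⟨false,0,⟨0,[(36,0)]⟩,⟨0,[(35,0),(2,0)]⟩⟩,⟨true,0,⟨0,[(1,0),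
  (0,0),(2,0),(0,0)]⟩,⟨5,[(0,2),(5,1),(1,0),(7,1),(2,0),(0,5),(0,2),(2,1)]⟩⟩,⟨true,0,⟨0,[(40,0)]⟩,
  ⟨0,[]⟩⟩,⟨false,1,⟨15,[(1,1),(0,11),(3,1),(0,1),(3,1),(6,6),(2,3),(9,0)]⟩,⟨0,[(0,0),(19,0),(0,
  0)]⟩⟩,[]⟩)))))) (.I [0,-1,0,-1,0,0,0,0,1] (.Q [0,1,1,0,-1,0,0,0,1,0,0,-1] (.p false [0,0,0,1] []
  (⟨0,[(17,0)]⟩,⟨0,[(16,0)]⟩) .k 0 (⟨0,[]⟩,⟨0,[]⟩) .k .k) (.K ⟨0,[0,0,0,1],0,(-1),(⟨0,[(18,0)]⟩,⟨0,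
  [(17,0)]⟩),.k,(.x 0 ⟨5,[(7,3),(1,1),(13,6),(0,2)]⟩ ⟨0,[(30,0),(3,0)]⟩),(.x 0 ⟨0,[(30,0)]⟩ ⟨7,[(7,
  3),(4,3),(2,2),(0,2),(11,1)]⟩),.k,.k,[⟨0,[(18,0)]⟩,⟨0,[(17,0)]⟩,⟨1,[(15,0),(2,1),(15,0),(2,1)]⟩,
  ⟨0,[(0,0)]⟩]⟩) (.Q [0,0,0,0,0,-1,0,0,0,1,0,-1] (.ed true [0,1,0,1] .k) (.R ⟨1,false,false,false,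
  [1,0,0,-1],[1,-1],[1,1,0,0,0,0,0,0,-1],(⟨0,[(18,0)]⟩,⟨0,[(19,0)]⟩),(⟨0,[(30,0)]⟩,⟨0,[(31,0)]⟩),⟨0,
  [(0,0)]⟩,.k,.k,(.x (-1) ⟨7,[(8,3),(4,3),(2,2),(0,2),(11,1)]⟩ ⟨0,[(31,0)]⟩),(.r 0 ⟨0,[(1,0),(2,0),
  (4,0),(8,0),(3,0)]⟩ ⟨1,[(17,0),(16,1),(0,0)]⟩),.k,.k,⟨true,0,⟨1,[(5,0),(8,0),(1,0),(16,0)]⟩,⟨0,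
  [(2,0)]⟩⟩,⟨false,0,⟨2,[(5,0),(12,2),(2,0),(7,0)]⟩,⟨0,[(19,0),(15,0)]⟩⟩,⟨false,0,⟨0,[]⟩,⟨3,[(16,0),
  (0,0),(18,1)]⟩⟩,⟨false,0,⟨2,[(2,2),(2,0),(12,2),(2,0),(7,0)]⟩,⟨0,[(1,0),(31,0)]⟩⟩,⟨true,0,⟨0,[(33,
  0)]⟩,⟨0,[(34,0)]⟩⟩,⟨false,0,⟨2,[(2,2),(0,0),(0,0),(4,0),(8,2),(3,0),(6,0)]⟩,⟨0,[(1,0),(36,0)]⟩⟩,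
  [.o ⟨false,0,⟨0,[(9,0),(2,0),(9,0)]⟩,⟨11,[(3,3),(12,4),(0,4),(15,3),(1,1)]⟩⟩,.o ⟨false,1,⟨1,[(29,
  0),(4,1),(1,0)]⟩,⟨0,[(33,0)]⟩⟩,.o ⟨false,1,⟨1,[(19,1),(9,0),(5,0)]⟩,⟨2,[(5,0),(12,2),(2,0),(7,
  0)]⟩⟩,.a ⟨true,0,⟨0,[(19,0)]⟩,⟨0,[(18,0)]⟩⟩ ⟨false,1,⟨1,[(16,0),(18,0)]⟩,⟨13,[(2,7),(0,3),(1,2),
  (11,2),(7,2),(6,0)]⟩⟩ ⟨true,0,⟨0,[(9,0),(2,0),(5,0),(3,0)]⟩,⟨0,[(19,0),(13,0)]⟩⟩]⟩) (.R ⟨0,false,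
  false,false,[1,0,0,-1],[1,0,-1],[0,1,0,0,0,0,0,0,-1],(⟨0,[(18,0)]⟩,⟨0,[(19,0)]⟩),(⟨0,[(27,0)]⟩,⟨0,
  [(28,0)]⟩),⟨0,[(0,0)]⟩,.k,.k,(.x (-1) ⟨7,[(8,3),(4,3),(2,2),(0,2),(11,1)]⟩ ⟨0,[(31,0)]⟩),.k,.k,.k,
  ⟨false,1,⟨3,[(1,1),(7,1),(4,1),(1,0),(1,1),(3,3),(12,0)]⟩,⟨1,[(2,1),(1,0),(21,0),(8,0)]⟩⟩,⟨true,0,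
  ⟨0,[(18,0),(2,0)]⟩,⟨1,[(0,1),(7,0),(4,0),(1,0)]⟩⟩,⟨true,0,⟨0,[(38,0)]⟩,⟨0,[]⟩⟩,⟨false,0,⟨37,[(2,
  27),(1,11),(2,3),(3,13),(0,15),(4,4),(0,37),(1,5),(8,6)]⟩,⟨0,[(1,0),(20,0)]⟩⟩,⟨false,0,⟨0,[]⟩,⟨0,
  []⟩⟩,⟨false,0,⟨0,[]⟩,⟨0,[]⟩⟩,[.o ⟨false,0,⟨2,[(7,0),(1,0),(2,0),(7,0)]⟩,⟨3,[(16,0),(0,0),(4,3),
  (13,1)]⟩⟩,.o ⟨false,1,⟨0,[(20,0),(15,0)]⟩,⟨0,[(22,0)]⟩⟩,.o ⟨false,1,⟨1,[(19,1),(9,0),(5,0)]⟩,⟨2,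
  [(5,0),(12,2),(2,0),(7,0)]⟩⟩,.a ⟨true,0,⟨0,[(19,0)]⟩,⟨0,[(18,0)]⟩⟩ ⟨false,1,⟨1,[(16,0),(18,0)]⟩,
  ⟨13,[(2,7),(0,3),(1,2),(11,2),(7,2),(6,0)]⟩⟩ ⟨true,0,⟨2,[(7,0),(1,0),(2,0),(5,2),(1,0)]⟩,⟨0,[(19,
  0),(2,0)]⟩⟩]⟩))) (.Q [0,1,-1,0,0,0,0,0,-1,0,0,1] (.p true [0,0,0,1] [] (⟨0,[(17,0)]⟩,⟨0,[(16,
  0)]⟩) .k 0 (⟨0,[]⟩,⟨0,[]⟩) .k .k) (.K ⟨0,[0,0,0,1],0,0,(⟨0,[(18,0)]⟩,⟨0,[(17,0)]⟩),.k,(.r (-1) ⟨1,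
  [(16,0),(16,1),(0,0)]⟩ ⟨12,[(0,1),(0,2),(0,4),(1,3),(5,1),(4,3),(1,1)]⟩),(.x 0 ⟨0,[(30,0)]⟩ ⟨7,
  [(7,3),(4,3),(2,2),(0,2),(11,1)]⟩),.k,.k,[⟨0,[(18,0)]⟩,⟨0,[(17,0)]⟩,⟨0,[(0,0)]⟩,⟨5,[(3,0),(0,1),
  (1,0),(1,2),(7,2),(0,5),(1,1),(1,3)]⟩]⟩) (.Q [0,0,0,0,0,-1,0,0,0,1,0,-1] (.ed true [0,1,0,1] .k)
  (.R ⟨1,false,false,true,[1,0,0,-1],[0,-1,1],[1,1,0,0,0,0,0,0,-1],(⟨0,[(18,0)]⟩,⟨0,[(19,0)]⟩),(⟨0,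
  [(8,0)]⟩,⟨0,[(27,0),(3,0)]⟩),⟨0,[(0,0)]⟩,.k,.k,(.x (-1) ⟨7,[(8,3),(4,3),(2,2),(0,2),(11,1)]⟩ ⟨0,
  [(31,0)]⟩),(.r 0 ⟨1,[(4,0),(11,0),(9,0)]⟩ ⟨0,[(6,0),(2,0),(8,0),(0,0),(2,0)]⟩),.k,.k,⟨false,0,⟨0,
  [(2,0),(9,0)]⟩,⟨0,[(6,0),(2,0),(8,0),(0,0),(2,0)]⟩⟩,⟨true,(-1),⟨0,[(5,0),(12,0)]⟩,⟨3,[(11,1),(7,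
  3),(9,0),(5,2)]⟩⟩,⟨false,0,⟨0,[]⟩,⟨3,[(16,0),(0,0),(18,1)]⟩⟩,⟨false,0,⟨0,[(1,0),(16,0),(0,0),(2,
  0),(11,0)]⟩,⟨5,[(2,3),(4,3),(1,1),(2,1),(3,0),(2,5),(12,3),(2,4)]⟩⟩,⟨true,0,⟨0,[(33,0)]⟩,⟨0,[(34,
  0)]⟩⟩,⟨false,0,⟨0,[(1,0),(16,0),(0,0),(2,0)]⟩,⟨2,[(2,0),(4,0),(1,1),(2,1),(3,0),(2,2),(12,0),(2,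
  1)]⟩⟩,[.o ⟨false,0,⟨0,[(22,0),(11,0)]⟩,⟨3,[(7,3),(8,0),(0,0),(18,1)]⟩⟩,.o ⟨false,1,⟨3,[(16,0),(0,
  0),(4,3),(11,3),(1,1)]⟩,⟨0,[(7,0)]⟩⟩,.o ⟨false,1,⟨1,[(19,1),(9,0),(5,0)]⟩,⟨2,[(5,0),(12,2),(2,0),
  (7,0)]⟩⟩,.a ⟨true,0,⟨0,[(19,0)]⟩,⟨0,[(18,0)]⟩⟩ ⟨false,1,⟨1,[(16,0),(18,0)]⟩,⟨0,[(1,0),(17,0)]⟩⟩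
  ⟨true,0,⟨0,[(18,0),(3,0),(11,0)]⟩,⟨0,[(7,0),(11,0)]⟩⟩]⟩) (.Q [0,0,1,1,0,0,1,1,1,1,-1,-1] (.p
  false [0,0,1] [1,0,0,-1] (⟨0,[(28,0)]⟩,⟨0,[(27,0)]⟩) .k 2 (⟨0,[(18,0)]⟩,⟨0,[(19,0)]⟩) .k (.r (-1)
  ⟨0,[(6,0),(15,0),(2,0)]⟩ ⟨0,[(2,0),(9,0),(21,0)]⟩)) (.R ⟨0,false,false,true,[1,0,0,-1],[0,0,1],[0,
  1,0,0,0,0,0,0,-1],(⟨0,[(19,0)]⟩,⟨0,[(20,0)]⟩),(⟨0,[(29,0)]⟩,⟨0,[(28,0)]⟩),⟨0,[(1,0)]⟩,.k,.k,(.x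
  (-1) ⟨7,[(9,3),(4,3),(2,2),(0,2),(11,1)]⟩ ⟨0,[(32,0)]⟩),.k,.k,.k,⟨true,0,⟨0,[(3,0),(9,0),(21,0)]⟩,
  ⟨0,[(0,0),(9,0),(9,0)]⟩⟩,⟨false,0,⟨0,[(13,0),(5,0),(3,0)]⟩,⟨3,[(12,1),(7,3),(9,0),(5,2)]⟩⟩,⟨true,
  0,⟨0,[(39,0)]⟩,⟨0,[]⟩⟩,⟨false,0,⟨0,[(0,0),(34,0)]⟩,⟨2,[(3,0),(4,0),(1,1),(2,1),(3,0),(2,2),(12,0),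
  (2,1)]⟩⟩,⟨false,0,⟨0,[]⟩,⟨0,[]⟩⟩,⟨false,0,⟨0,[]⟩,⟨0,[]⟩⟩,[.o ⟨false,0,⟨0,[(23,0)]⟩,⟨0,[(21,0),(15,
  0)]⟩⟩,.o ⟨false,1,⟨3,[(17,0),(0,0),(4,3),(13,1)]⟩,⟨2,[(8,0),(1,0),(2,0),(7,0)]⟩⟩,.o ⟨false,1,⟨1,
  [(20,1),(9,0),(5,0)]⟩,⟨2,[(6,0),(12,2),(2,0),(7,0)]⟩⟩,.a ⟨true,0,⟨0,[(20,0)]⟩,⟨0,[(19,0)]⟩⟩
  ⟨false,1,⟨1,[(17,0),(18,0)]⟩,⟨0,[(2,0),(17,0)]⟩⟩ ⟨true,0,⟨0,[(19,0),(3,0)]⟩,⟨2,[(8,0),(1,0),(2,0),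
  (6,2),(0,0)]⟩⟩]⟩) (.R ⟨2,true,false,true,[0,1],[1,0,0,-1],[1,1,1,1],(⟨0,[]⟩,⟨0,[]⟩),(⟨0,[(19,0)]⟩,
  ⟨0,[(20,0)]⟩),⟨0,[]⟩,.k,.k,.k,(.x 0 ⟨0,[(32,0)]⟩ ⟨7,[(9,3),(4,3),(2,2),(0,2),(11,1)]⟩),.k,.k,
  ⟨true,0,⟨5,[(2,2),(2,1),(1,0),(7,1),(2,0),(1,2),(2,1)]⟩,⟨7,[(0,5),(5,0),(10,0),(1,5),(3,5),(2,0),
  (6,2),(1,1)]⟩⟩,⟨false,1,⟨1,[(20,1),(9,0),(5,0)]⟩,⟨0,[(19,0)]⟩⟩,⟨false,0,⟨0,[]⟩,⟨3,[(17,0),(0,0),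
  (18,1)]⟩⟩,⟨true,0,⟨0,[(0,0),(22,0)]⟩,⟨5,[(2,2),(2,1),(1,0),(7,1),(2,0),(0,5),(0,2),(2,1)]⟩⟩,⟨true,
  0,⟨0,[(34,0)]⟩,⟨0,[(35,0)]⟩⟩,⟨false,1,⟨7,[(0,3),(3,1),(12,1),(2,3),(2,3),(6,1),(5,2),(0,0)]⟩,⟨0,
  [(2,0),(16,0),(0,0)]⟩⟩,[]⟩))))))))))

theorem ok147 : chk (cU (-1) true 10) t147 r76 = true := by decide +kernel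

noncomputable def t152 : Tre :=
  (.R ⟨1,false,false,false,[1,-1,-1],[1,-1],[0,1,-1,-2,0,0,0,-1],(⟨0,[(6,0)]⟩,⟨0,[(21,0),(2,0)]⟩),
  (⟨0,[(23,0)]⟩,⟨0,[(24,0)]⟩),⟨0,[(1,0)]⟩,.k,.k,(.r (-1) ⟨1,[(0,1),(26,1),(0,0),(0,0)]⟩ ⟨0,[(2,0),
  (15,0),(6,0),(0,0)]⟩),.k,.k,.k,⟨false,0,⟨0,[(0,0)]⟩,⟨1,[(2,1),(1,0),(6,0),(0,0),(12,0),(2,0),(0,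
  0)]⟩⟩,⟨true,0,⟨0,[(5,0),(9,0)]⟩,⟨0,[(18,0)]⟩⟩,⟨false,0,⟨0,[(27,0)]⟩,⟨0,[(26,0),(2,0)]⟩⟩,⟨false,1,
  ⟨0,[(15,0),(13,0)]⟩,⟨2,[(0,0),(3,0),(0,1),(1,0),(3,0),(0,0)]⟩⟩,⟨true,0,⟨0,[(31,0)]⟩,⟨0,[]⟩⟩,
  ⟨false,1,⟨0,[(2,0),(26,0)]⟩,⟨1,[(0,0),(3,0),(0,0),(5,0),(0,0),(14,0)]⟩⟩,[.a ⟨true,0,⟨0,[(27,0)]⟩,
  ⟨1,[(3,0),(2,0),(0,1),(12,0),(4,0)]⟩⟩ ⟨true,0,⟨0,[(0,0),(26,0)]⟩,⟨1,[(2,1),(4,0),(10,0),(6,2),(0,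
  0)]⟩⟩ ⟨false,1,⟨0,[(5,0),(9,0),(11,0),(0,0)]⟩,⟨1,[(7,0),(10,0),(6,0),(0,0)]⟩⟩,.o ⟨false,1,⟨1,[(22,
  0),(4,1),(1,0)]⟩,⟨0,[(26,0)]⟩⟩,.o ⟨false,0,⟨0,[(14,0)]⟩,⟨7,[(8,3),(0,0),(0,0),(11,1),(5,3)]⟩⟩,.o
  ⟨false,0,⟨0,[(4,0),(12,0)]⟩,⟨0,[(5,0),(9,0),(12,0)]⟩⟩]⟩)

theorem ok152 : chk (cU (-1) true 10) t152 l79 = true := by decide +kernel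

noncomputable def t158 : Tre :=
  (.R ⟨1,false,false,true,[0,-1,1],[1,-1],[1],(⟨1,[(2,0),(27,0)]⟩,⟨0,[(29,0),(3,0)]⟩),(⟨0,[(32,0)]⟩,
  ⟨0,[(33,0)]⟩),⟨0,[(2,0)]⟩,.k,.k,(.r (-1) ⟨2,[(0,0),(5,0),(1,2),(14,0)]⟩ ⟨1,[(7,1),(18,2),(0,0)]⟩),
  .k,.k,.k,⟨true,0,⟨2,[(7,0),(1,0),(16,0),(7,0)]⟩,⟨1,[(6,0),(17,0),(2,0)]⟩⟩,⟨false,1,⟨39,[(3,17),(0,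
  5),(3,5),(4,1),(4,2),(0,2),(11,9)]⟩,⟨1,[(17,0),(2,0),(0,0)]⟩⟩,⟨false,0,⟨1,[(7,0),(18,0),(1,0),(5,
  0)]⟩,⟨115,[(0,31),(5,7),(1,67),(4,27),(4,22),(0,22),(4,23),(6,1)]⟩⟩,⟨true,0,⟨0,[(22,0)]⟩,⟨3,[(0,
  2),(10,0),(4,1),(0,0)]⟩⟩,⟨false,0,⟨6,[(7,5),(3,1),(2,2),(11,3),(7,2)]⟩,⟨57,[(0,37),(5,23),(1,29),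
  (4,25),(4,10),(0,10),(4,13),(6,5)]⟩⟩,⟨false,1,⟨7,[(7,3),(10,0),(0,0),(5,3),(5,3),(6,1)]⟩,⟨0,[(0,
  0)]⟩⟩,[.a ⟨true,0,⟨1,[(6,0),(17,0),(2,0)]⟩,⟨0,[(0,0),(6,0)]⟩⟩ ⟨true,0,⟨0,[]⟩,⟨1,[(26,0),(0,0)]⟩⟩
  ⟨false,1,⟨0,[(1,0),(38,0)]⟩,⟨6,[(0,0),(6,2),(1,1),(7,5),(9,2),(6,1)]⟩⟩,.e ⟨false,1,⟨1,[(37,0),(0,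
  0)]⟩,⟨0,[(40,0)]⟩⟩ ⟨false,1,⟨0,[(1,0)]⟩,⟨9,[(4,1),(2,3),(9,9),(8,0),(0,6)]⟩⟩,.o ⟨false,0,⟨0,[(26,
  0)]⟩,⟨39,[(3,17),(0,5),(3,5),(4,1),(4,2),(0,2),(11,9)]⟩⟩,.e ⟨false,1,⟨1,[(37,0),(0,0)]⟩,⟨1,[(26,
  0),(0,0)]⟩⟩ ⟨false,1,⟨0,[(1,0)]⟩,⟨2,[(7,0),(1,0),(7,2),(8,0),(0,2),(6,0)]⟩⟩]⟩)

theorem ok158 : chk (cU (-1) true 10) t158 l88 = true := by decide +kernel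

noncomputable def t176 : Tre :=
  (.Q [0,-1,1,0,0,0,-1,-1,1,0,1,-1] (.p true [0,0,1] [0,0,0,1] (⟨0,[(35,0)]⟩,⟨0,[(34,0)]⟩) .k 2 (⟨0,
  [(26,0)]⟩,⟨0,[(25,0)]⟩) .k (.x (-1) ⟨39,[(9,7),(7,15),(4,3),(0,12),(0,12),(11,1),(5,11)]⟩ ⟨0,[(28,
  0),(5,0)]⟩)) (.Q [0,-1,1,-1,0,0,0,0,1,0,0,-1] (.p false [0,0,0,1] [] (⟨0,[(27,0)]⟩,⟨0,[(26,0)]⟩)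
  .k 0 (⟨0,[]⟩,⟨0,[]⟩) .k .k) (.Q [0,0,0,0,0,0,1,1,0,0,-1,1] (.p false [0,0,1] [0,0,0,1] (⟨0,[(37,
  0)]⟩,⟨0,[(36,0)]⟩) .k 2 (⟨0,[(28,0)]⟩,⟨0,[(27,0)]⟩) .k (.x (-1) ⟨39,[(11,7),(7,15),(4,3),(0,12),
  (0,12),(11,1),(5,11)]⟩ ⟨0,[(30,0),(5,0)]⟩)) (.I [0,-1,1,0,0,0,0,0,-1] (.I [1,1,0,0,0,0,0,0,1] (.R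
  ⟨1,false,false,false,[0,0,0,1],[0,-1,1],[1,1,0,0,0,0,0,0,1],(⟨0,[(31,0)]⟩,⟨0,[(30,0)]⟩),(⟨1,[(14,
  0),(25,0)]⟩,⟨0,[(39,0),(3,0)]⟩),⟨3,[(2,1),(8,0),(2,0),(5,0),(10,1)]⟩,.k,.k,(.r (-1) ⟨1,[(18,0),
  (10,0),(8,0),(7,0)]⟩ ⟨0,[(1,0),(43,0)]⟩),(.r 0 ⟨11,[(0,7),(3,3),(0,1),(1,2),(16,1),(2,0),(3,3),(4,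
  7)]⟩ ⟨1,[(9,0),(18,0)]⟩),.k,.k,⟨false,0,⟨1,[(0,1),(6,0),(19,0)]⟩,⟨0,[(1,0),(16,0)]⟩⟩,⟨true,0,⟨0,
  [(2,0),(35,0)]⟩,⟨0,[(30,0),(2,0)]⟩⟩,⟨false,0,⟨0,[]⟩,⟨3,[(28,0),(0,0),(18,1)]⟩⟩,⟨false,1,⟨1,[(2,1),
  (6,0),(14,1),(3,0)]⟩,⟨0,[(4,0),(40,0)]⟩⟩,⟨true,0,⟨0,[(45,0)]⟩,⟨0,[(46,0)]⟩⟩,⟨false,1,⟨0,[(1,0),(0,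
  0),(44,0)]⟩,⟨1,[(3,0),(0,0),(30,0),(9,0)]⟩⟩,[.a ⟨true,0,⟨0,[(2,0),(27,0),(15,0)]⟩,⟨2,[(5,0),(5,0),
  (23,0)]⟩⟩ ⟨true,0,⟨0,[(0,0)]⟩,⟨0,[(1,0)]⟩⟩ ⟨false,1,⟨1,[(2,0),(12,0),(2,0),(8,0),(3,0)]⟩,⟨21,[(1,
  5),(2,5),(2,1),(5,13),(2,1),(13,15),(5,4),(0,2)]⟩⟩,.o ⟨false,1,⟨1,[(9,0),(26,1),(11,0)]⟩,⟨0,[(13,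
  0)]⟩⟩,.o ⟨false,0,⟨1,[(1,0),(1,0),(9,0),(16,0),(3,0)]⟩,⟨1,[(31,1),(9,0),(5,0)]⟩⟩,.o ⟨false,0,⟨0,
  [(30,0),(2,0),(2,0)]⟩,⟨1,[(2,1),(7,0),(1,0),(2,0),(11,0)]⟩⟩]⟩) (.Q [0,0,0,0,0,-1,0,0,0,1,0,-1]
  (.ed true [0,1,0,1] .k) (.R ⟨1,false,false,true,[1,0,0,-1],[0,0,1],[1,0,0,0,0,0,0,0,-1],(⟨0,[(31,
  0)]⟩,⟨0,[(32,0)]⟩),(⟨0,[(41,0)]⟩,⟨0,[(40,0)]⟩),⟨0,[(0,0)]⟩,.k,.k,(.x (-1) ⟨15,[(15,3),(5,3),(7,6),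
  (0,6),(11,1)]⟩ ⟨0,[(44,0)]⟩),.k,(.x (-1) ⟨9,[(13,1),(10,3),(1,9),(2,2),(0,2),(11,1)]⟩ ⟨3,[(23,1),
  (13,0),(0,0),(5,1)]⟩),.k,⟨true,0,⟨0,[(1,0),(37,0)]⟩,⟨0,[(3,0),(0,0),(22,0),(23,0)]⟩⟩,⟨false,0,⟨0,
  [(25,0),(5,0),(3,0)]⟩,⟨19,[(13,11),(10,3),(4,2),(0,2),(1,19),(9,1)]⟩⟩,⟨true,0,⟨0,[]⟩,⟨0,[(51,
  0)]⟩⟩,⟨false,0,⟨1,[(3,0),(0,1),(4,0),(21,0),(19,1)]⟩,⟨11,[(1,5),(9,3),(4,3),(8,3),(3,2),(2,11),(9,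
  1),(5,1),(0,0)]⟩⟩,⟨false,1,⟨11,[(6,3),(22,2),(0,2),(11,1),(6,3)]⟩,⟨0,[(47,0)]⟩⟩,⟨false,0,⟨0,[(4,
  0),(4,0),(41,0)]⟩,⟨9,[(1,1),(0,1),(9,1),(3,5),(8,5),(3,2),(2,9),(9,0),(4,3)]⟩⟩,[.o ⟨false,0,⟨0,
  [(35,0)]⟩,⟨7,[(12,3),(16,0),(0,0),(11,1),(6,3)]⟩⟩,.e ⟨true,0,⟨0,[(1,0)]⟩,⟨0,[(4,0),(27,0),(13,0),
  (4,0)]⟩⟩ ⟨true,0,⟨9,[(2,1),(0,1),(0,1),(15,1),(10,9),(3,5),(1,2),(0,0)]⟩,⟨0,[(3,0),(8,0)]⟩⟩,.o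
  ⟨false,1,⟨1,[(32,1),(9,0),(5,0)]⟩,⟨1,[(2,0),(1,0),(9,0),(16,0),(3,0)]⟩⟩,.a ⟨true,0,⟨0,[(32,0)]⟩,
  ⟨0,[(31,0)]⟩⟩ ⟨false,1,⟨3,[(1,1),(27,0),(18,1),(0,0)]⟩,⟨0,[(4,0),(27,0),(13,0)]⟩⟩ ⟨true,0,⟨0,[(31,
  0),(3,0)]⟩,⟨0,[(3,0),(8,0)]⟩⟩]⟩) (.R ⟨0,false,false,true,[1,0,0,-1],[0,0,1],[1,0,0,0,0,0,0,0,-1],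
  (⟨0,[(31,0)]⟩,⟨0,[(32,0)]⟩),(⟨0,[(41,0)]⟩,⟨0,[(40,0)]⟩),⟨0,[(0,0)]⟩,.k,.k,(.x (-1) ⟨15,[(15,3),(5,
  3),(7,6),(0,6),(11,1)]⟩ ⟨0,[(44,0)]⟩),.k,.k,.k,⟨true,0,⟨0,[(1,0),(37,0)]⟩,⟨0,[(3,0),(0,0),(22,0),
  (23,0)]⟩⟩,⟨false,0,⟨0,[(25,0),(5,0),(3,0)]⟩,⟨19,[(13,11),(10,3),(4,2),(0,2),(1,19),(9,1)]⟩⟩,⟨true,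
  0,⟨0,[]⟩,⟨0,[(51,0)]⟩⟩,⟨false,0,⟨1,[(3,0),(0,1),(4,0),(21,0),(19,1)]⟩,⟨11,[(1,5),(9,3),(4,3),(8,
  3),(3,2),(2,11),(9,1),(5,1),(0,0)]⟩⟩,⟨false,0,⟨0,[]⟩,⟨0,[]⟩⟩,⟨false,0,⟨0,[]⟩,⟨0,[]⟩⟩,[.o ⟨false,0,
  ⟨0,[(35,0)]⟩,⟨7,[(12,3),(16,0),(0,0),(11,1),(6,3)]⟩⟩,.e ⟨true,0,⟨0,[(1,0)]⟩,⟨0,[(4,0),(27,0),(13,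
  0),(4,0)]⟩⟩ ⟨true,0,⟨9,[(2,1),(0,1),(0,1),(15,1),(10,9),(3,5),(1,2),(0,0)]⟩,⟨5,[(0,3),(11,2),(2,
  0),(5,0),(10,1)]⟩⟩,.o ⟨false,1,⟨1,[(32,1),(9,0),(5,0)]⟩,⟨1,[(2,0),(1,0),(9,0),(16,0),(3,0)]⟩⟩,.a
  ⟨true,0,⟨0,[(32,0)]⟩,⟨0,[(31,0)]⟩⟩ ⟨false,1,⟨3,[(1,1),(27,0),(18,1),(0,0)]⟩,⟨0,[(4,0),(27,0),(13,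
  0)]⟩⟩ ⟨true,0,⟨0,[(31,0),(3,0)]⟩,⟨5,[(0,3),(11,2),(2,0),(5,0),(10,1)]⟩⟩]⟩))) (.Q [0,0,0,0,0,-1,0,
  0,0,1,0,-1] (.ed true [0,1,0,1] .k) (.R ⟨1,false,false,false,[1,0,0,-1],[1,0,-1],[0,0,0,-1,0,0,0,
  0,-1],(⟨0,[(30,0)]⟩,⟨0,[(31,0)]⟩),(⟨0,[(39,0)]⟩,⟨0,[(40,0)]⟩),⟨0,[(0,0)]⟩,.k,.k,(.x (-1) ⟨15,[(14,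
  3),(5,3),(7,6),(0,6),(11,1)]⟩ ⟨0,[(43,0)]⟩),.k,(.r (-1) ⟨1,[(9,0),(18,0)]⟩ ⟨15,[(1,7),(2,7),(0,2),
  (1,2),(23,7),(3,1),(0,15),(8,0)]⟩),.k,⟨false,1,⟨1,[(9,0),(18,0)]⟩,⟨4,[(1,3),(2,0),(0,0),(1,0),(16,
  1),(6,0),(4,2)]⟩⟩,⟨true,0,⟨0,[(30,0),(2,0)]⟩,⟨0,[(2,0),(35,0)]⟩⟩,⟨true,0,⟨0,[(46,0)]⟩,⟨0,[(45,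
  0)]⟩⟩,⟨false,0,⟨0,[(4,0)]⟩,⟨1,[(2,1),(25,0),(18,0)]⟩⟩,⟨false,1,⟨3,[(28,0),(0,0),(18,1)]⟩,⟨0,[]⟩⟩,
  ⟨false,0,⟨2,[(3,0),(0,1),(0,0),(7,0)]⟩,⟨5,[(2,3),(6,0),(5,1),(11,1),(0,2),(2,1),(14,1)]⟩⟩,[.a
  ⟨true,0,⟨1,[(11,0),(18,0),(0,0)]⟩,⟨0,[(2,0),(27,0)]⟩⟩ ⟨false,1,⟨1,[(18,0),(9,0),(9,0),(7,0)]⟩,⟨5,
  [(1,3),(0,1),(0,0),(0,0),(0,0),(1,0),(8,0),(19,0)]⟩⟩ ⟨true,0,⟨1,[(11,0),(18,1),(2,0),(2,0)]⟩,⟨0,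
  [(2,0)]⟩⟩,.o ⟨false,1,⟨7,[(11,3),(16,0),(0,0),(11,1),(6,3)]⟩,⟨0,[(34,0)]⟩⟩,.o ⟨false,1,⟨1,[(31,1),
  (9,0),(5,0)]⟩,⟨0,[(24,0),(5,0),(2,0),(0,0)]⟩⟩,.e ⟨false,1,⟨1,[(9,0),(14,1),(3,0)]⟩,⟨4,[(1,2),(2,
  1),(11,1),(14,1),(4,2),(0,0),(7,0)]⟩⟩ ⟨false,1,⟨1,[(4,1),(23,0),(18,0)]⟩,⟨0,[(2,0)]⟩⟩]⟩) (.R ⟨0,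
  false,false,false,[1,0,0,-1],[1,0,-1],[0,1,0,0,0,0,0,0,-1],(⟨0,[(30,0)]⟩,⟨0,[(31,0)]⟩),(⟨0,[(39,
  0)]⟩,⟨0,[(40,0)]⟩),⟨0,[(0,0)]⟩,.k,.k,(.x (-1) ⟨15,[(14,3),(5,3),(7,6),(0,6),(11,1)]⟩ ⟨0,[(43,
  0)]⟩),.k,.k,.k,⟨false,1,⟨1,[(9,0),(18,0),(16,1)]⟩,⟨1,[(1,0),(0,0),(1,0),(19,1)]⟩⟩,⟨true,0,⟨0,[(30,
  0),(2,0)]⟩,⟨5,[(0,3),(13,0),(5,0),(6,2),(3,1)]⟩⟩,⟨true,0,⟨0,[(50,0)]⟩,⟨0,[]⟩⟩,⟨false,0,⟨0,[(4,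
  0)]⟩,⟨1,[(2,1),(25,0),(18,0)]⟩⟩,⟨false,0,⟨0,[]⟩,⟨0,[]⟩⟩,⟨false,0,⟨0,[]⟩,⟨0,[]⟩⟩,[.a ⟨true,0,⟨1,
  [(11,0),(18,0),(0,0)]⟩,⟨0,[(2,0),(27,0)]⟩⟩ ⟨false,1,⟨1,[(28,0),(18,0),(2,1)]⟩,⟨0,[(1,0),(42,0)]⟩⟩
  ⟨true,0,⟨1,[(11,0),(18,1),(2,0),(2,0)]⟩,⟨0,[(2,0)]⟩⟩,.o ⟨false,1,⟨7,[(11,3),(16,0),(0,0),(11,1),
  (6,3)]⟩,⟨0,[(34,0)]⟩⟩,.o ⟨false,1,⟨1,[(31,1),(9,0),(5,0)]⟩,⟨0,[(24,0),(5,0),(2,0),(0,0)]⟩⟩,.e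
  ⟨false,1,⟨1,[(28,0),(18,0)]⟩,⟨0,[(2,0),(1,0)]⟩⟩ ⟨false,1,⟨1,[(4,1),(23,0),(18,0)]⟩,⟨0,[(2,
  0)]⟩⟩]⟩))) (.I [1,-1,0,1,0,0,0,-1,1] (.I [0,0,0,0,0,0,0,0,1] (.Q [0,0,0,0,0,-1,0,0,0,1,0,-1] (.ed
  true [0,1,0,1] .k) (.I [1,0,0,1,0,0,0,0,1] (.R ⟨1,false,false,false,[1,0,0,-1],[1,0,-1],[0,0,0,-1,
  0,0,0,0,-1],(⟨0,[(32,0)]⟩,⟨0,[(33,0)]⟩),(⟨0,[(41,0)]⟩,⟨0,[(42,0)]⟩),⟨0,[(1,0)]⟩,.k,.k,(.x (-1)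
  ⟨15,[(16,3),(5,3),(7,6),(0,6),(11,1)]⟩ ⟨0,[(45,0)]⟩),.k,(.r (-1) ⟨1,[(11,0),(18,0)]⟩ ⟨3,[(0,1),(2,
  1),(33,1),(0,2),(0,0)]⟩),.k,⟨false,1,⟨1,[(11,0),(18,0)]⟩,⟨3,[(0,0),(1,0),(0,1),(11,0),(13,0),(7,
  0)]⟩⟩,⟨true,0,⟨0,[(32,0),(2,0)]⟩,⟨0,[(26,0),(6,0),(2,0)]⟩⟩,⟨true,0,⟨0,[(48,0)]⟩,⟨0,[(47,0)]⟩⟩,
  ⟨false,0,⟨0,[(6,0)]⟩,⟨1,[(11,0),(11,1),(2,1),(3,0),(2,1)]⟩⟩,⟨false,1,⟨3,[(30,0),(0,0),(18,1)]⟩,⟨0,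
  []⟩⟩,⟨false,0,⟨2,[(5,0),(0,1),(0,0),(7,0)]⟩,⟨1,[(11,0),(14,1),(3,0),(2,1),(2,1)]⟩⟩,[.e ⟨false,1,
  ⟨1,[(20,0),(9,0),(9,0),(7,0)]⟩,⟨0,[(0,0)]⟩⟩ ⟨false,0,⟨0,[(4,0)]⟩,⟨11,[(10,3),(0,1),(8,3),(8,3),(0,
  0),(0,0),(1,11),(9,3)]⟩⟩,.o ⟨false,1,⟨7,[(13,3),(16,0),(0,0),(11,1),(6,3)]⟩,⟨0,[(36,0)]⟩⟩,.o
  ⟨false,1,⟨1,[(33,1),(9,0),(5,0)]⟩,⟨2,[(4,1),(27,0),(2,0),(0,1),(1,0),(7,0)]⟩⟩,.a ⟨true,0,⟨0,[(33,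
  0)]⟩,⟨0,[(32,0)]⟩⟩ ⟨false,1,⟨1,[(11,0),(14,1),(3,0)]⟩,⟨1,[(0,1),(37,0),(0,0)]⟩⟩ ⟨true,0,⟨0,[(4,
  0)]⟩,⟨0,[(33,0),(2,0)]⟩⟩]⟩) (.R ⟨1,false,false,false,[1,0,0,-1],[1,0,-1],[1,0,0,0,0,0,0,0,-1],(⟨0,
  [(32,0)]⟩,⟨0,[(33,0)]⟩),(⟨0,[(41,0)]⟩,⟨0,[(42,0)]⟩),⟨0,[(1,0)]⟩,.k,.k,(.x (-1) ⟨15,[(16,3),(5,3),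
  (7,6),(0,6),(11,1)]⟩ ⟨0,[(45,0)]⟩),.k,(.r (-1) ⟨1,[(11,0),(18,0)]⟩ ⟨2,[(2,0),(0,1),(33,0),(0,1),
  (0,0),(7,0)]⟩),.k,⟨false,1,⟨31,[(0,1),(6,4),(3,11),(2,4),(3,1),(4,5),(4,0),(1,14)]⟩,⟨0,[(2,0),(37,
  0)]⟩⟩,⟨true,0,⟨0,[(32,0),(2,0)]⟩,⟨0,[(26,0),(6,0),(2,0)]⟩⟩,⟨true,0,⟨0,[]⟩,⟨0,[(52,0)]⟩⟩,⟨false,0,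
  ⟨0,[(6,0)]⟩,⟨23,[(0,17),(9,13),(3,1),(5,9),(8,5),(0,2),(2,23),(9,8)]⟩⟩,⟨false,1,⟨11,[(7,3),(22,2),
  (0,2),(11,1),(6,3)]⟩,⟨0,[(48,0)]⟩⟩,⟨false,0,⟨2,[(5,0),(0,1),(0,0),(7,0)]⟩,⟨9,[(0,5),(9,1),(0,2),
  (8,1),(8,3),(0,1),(2,9),(9,2)]⟩⟩,[.e ⟨false,1,⟨1,[(30,0),(18,0)]⟩,⟨0,[(2,0)]⟩⟩ ⟨false,0,⟨0,[(4,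
  0)]⟩,⟨11,[(10,3),(0,1),(8,3),(8,3),(0,0),(0,0),(1,11),(9,3)]⟩⟩,.o ⟨false,1,⟨7,[(13,3),(16,0),(0,
  0),(11,1),(6,3)]⟩,⟨0,[(36,0)]⟩⟩,.o ⟨false,1,⟨1,[(33,1),(9,0),(5,0)]⟩,⟨10,[(0,2),(3,4),(0,2),(12,
  0),(4,3),(8,2),(2,2),(2,3)]⟩⟩,.a ⟨true,0,⟨0,[(33,0)]⟩,⟨0,[(32,0)]⟩⟩ ⟨false,1,⟨10,[(0,2),(6,1),(6,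
  3),(5,2),(5,2),(2,1),(0,3),(15,2)]⟩,⟨1,[(2,1),(35,0),(0,0)]⟩⟩ ⟨true,0,⟨0,[(4,0)]⟩,⟨0,[(33,0),(2,
  0)]⟩⟩]⟩)) (.R ⟨0,false,false,false,[1,0,0,-1],[0,1,1],[1,0,0,0,0,0,0,0,-1],(⟨0,[(31,0)]⟩,⟨0,[(32,
  0)]⟩),(⟨0,[(41,0),(2,0)]⟩,⟨0,[(26,0)]⟩),⟨0,[(0,0)]⟩,.k,.k,(.x (-1) ⟨15,[(15,3),(5,3),(7,6),(0,6),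
  (11,1)]⟩ ⟨0,[(44,0)]⟩),(.r (-1) ⟨1,[(19,0),(9,0),(9,2),(7,0)]⟩ ⟨1,[(1,1),(15,0),(17,0),(2,0)]⟩),
  .k,.k,⟨false,1,⟨1,[(0,3),(2,3),(6,0),(10,1),(1,1),(2,1),(2,0)]⟩,⟨1,[(1,1),(15,0),(17,0),(2,0)]⟩⟩,
  ⟨true,0,⟨0,[(25,0),(5,0),(3,0)]⟩,⟨0,[(32,0),(1,0)]⟩⟩,⟨true,0,⟨0,[]⟩,⟨0,[(51,0)]⟩⟩,⟨false,0,⟨0,[(4,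
  0),(4,0)]⟩,⟨11,[(0,3),(11,2),(2,0),(0,5),(4,0),(7,5),(2,7),(6,5),(7,5)]⟩⟩,⟨false,0,⟨0,[]⟩,⟨0,[]⟩⟩,
  ⟨false,0,⟨0,[]⟩,⟨0,[]⟩⟩,[.a ⟨true,0,⟨0,[(9,0),(37,0)]⟩,⟨1,[(12,0),(18,0),(0,0),(14,1)]⟩⟩ ⟨false,1,
  ⟨1,[(29,0),(18,0)]⟩,⟨0,[(1,0)]⟩⟩ ⟨true,0,⟨1,[(17,0),(13,1),(3,0),(1,0)]⟩,⟨5,[(0,3),(11,2),(2,0),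
  (5,0),(10,1),(14,5)]⟩⟩,.o ⟨false,1,⟨5,[(9,3),(0,0),(26,1),(4,1),(6,2)]⟩,⟨0,[(33,0),(13,0)]⟩⟩,.o
  ⟨false,1,⟨1,[(32,1),(9,0),(5,0)]⟩,⟨2,[(3,1),(27,0),(2,0),(0,1),(1,0),(7,0)]⟩⟩,.e ⟨false,1,⟨5,[(0,
  2),(2,2),(2,0),(3,2),(6,0),(3,1),(0,0),(0,0),(1,4),(3,2)]⟩,⟨1,[(1,1),(35,0),(0,0)]⟩⟩ ⟨false,1,⟨31,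
  [(4,7),(4,23),(0,3),(17,3),(0,4),(0,0),(0,23),(10,9),(6,11)]⟩,⟨5,[(0,3),(11,2),(2,0),(5,0),(10,1),
  (14,5)]⟩⟩]⟩)) (.Q [0,0,0,0,0,-1,0,0,0,1,0,-1] (.ed true [0,1,0,1] .k) (.R ⟨1,false,false,true,[1,
  0,0,-1],[0,1],[1,1,0,0,0,0,0,0,-1],(⟨0,[(31,0)]⟩,⟨0,[(32,0)]⟩),(⟨0,[(44,0)]⟩,⟨0,[(43,0)]⟩),⟨0,[(0,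
  0)]⟩,.k,.k,(.r (-1) ⟨1,[(19,0),(9,0),(9,0),(7,0)]⟩ ⟨1,[(2,0),(1,0),(17,0),(9,0),(5,0),(7,0)]⟩),
  (.r (-1) ⟨1,[(19,0),(9,0),(9,0),(7,0)]⟩ ⟨1,[(2,0),(1,0),(17,0),(9,0),(5,0),(7,0)]⟩),(.r (-1) ⟨0,
  [(1,0),(17,0),(19,0),(7,0)]⟩ ⟨1,[(2,1),(19,1),(14,0),(0,2)]⟩),.k,⟨false,1,⟨0,[(1,0),(17,0),(19,
  0)]⟩,⟨1,[(2,0),(1,0),(17,0),(9,0),(5,0),(7,0)]⟩⟩,⟨true,0,⟨0,[(31,0)]⟩,⟨0,[(25,0),(6,0),(1,0),(0,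
  0)]⟩⟩,⟨false,0,⟨0,[]⟩,⟨3,[(29,0),(0,0),(18,1)]⟩⟩,⟨false,0,⟨0,[(4,0),(4,0),(26,0)]⟩,⟨1,[(1,1),(8,
  0),(14,1),(6,1),(9,0)]⟩⟩,⟨true,0,⟨0,[(46,0)]⟩,⟨0,[(47,0)]⟩⟩,⟨false,0,⟨1,[(4,0),(0,0),(3,1),(26,0),
  (9,0)]⟩,⟨1,[(1,1),(8,0),(14,1),(6,1),(9,0),(4,1)]⟩⟩,[.o ⟨false,0,⟨0,[(46,0)]⟩,⟨1,[(42,0),(4,1),(1,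
  0)]⟩⟩,.a ⟨true,0,⟨3,[(7,0),(1,0),(21,1),(0,1),(3,0)]⟩,⟨0,[(47,0)]⟩⟩ ⟨true,0,⟨0,[(1,0)]⟩,⟨0,[(4,0),
  (27,0),(13,0)]⟩⟩ ⟨false,0,⟨3,[(3,0),(2,0),(15,0),(8,2)]⟩,⟨15,[(16,7),(11,3),(0,0),(0,0),(1,15),(9,
  5),(4,7)]⟩⟩,.o ⟨false,1,⟨1,[(32,1),(9,0),(5,0)]⟩,⟨2,[(1,0),(1,0),(0,0),(17,0),(8,0),(2,0),(2,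
  0)]⟩⟩,.e ⟨false,1,⟨1,[(29,0),(18,0)]⟩,⟨6,[(2,1),(1,4),(12,0),(4,0),(9,4),(5,0)]⟩⟩ ⟨false,0,⟨3,[(3,
  0),(2,0),(15,0),(8,2)]⟩,⟨1,[(32,1),(9,0),(4,1),(1,0)]⟩⟩]⟩) (.R ⟨0,false,false,false,[1,0,0,-1],[0,
  1],[1,0,0,0,0,0,0,0,-1],(⟨0,[(31,0)]⟩,⟨0,[(32,0)]⟩),(⟨0,[(44,0)]⟩,⟨0,[(43,0)]⟩),⟨0,[(0,0)]⟩,.k,.k,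
  (.r (-1) ⟨1,[(19,0),(9,0),(9,0),(7,0)]⟩ ⟨1,[(2,0),(1,0),(17,0),(9,0),(5,0),(7,0)]⟩),(.r (-1) ⟨1,
  [(19,0),(9,0),(9,0),(7,0)]⟩ ⟨1,[(2,0),(1,0),(17,0),(9,0),(5,0),(7,0)]⟩),.k,.k,⟨false,1,⟨0,[(1,0),
  (17,0),(19,0)]⟩,⟨1,[(2,0),(1,0),(17,0),(9,0),(5,0),(7,0)]⟩⟩,⟨true,0,⟨0,[(31,0)]⟩,⟨5,[(0,3),(14,0),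
  (5,0),(10,1),(1,2),(2,2)]⟩⟩,⟨true,0,⟨0,[]⟩,⟨0,[(51,0)]⟩⟩,⟨false,0,⟨2,[(4,0),(0,1),(3,1),(21,0),(0,
  0)]⟩,⟨3,[(0,3),(14,0),(0,1),(4,0),(6,0),(0,1),(17,1)]⟩⟩,⟨false,0,⟨0,[]⟩,⟨0,[]⟩⟩,⟨false,0,⟨0,[]⟩,
  ⟨0,[]⟩⟩,[.a ⟨true,0,⟨3,[(7,0),(1,0),(21,1),(0,1),(3,0)]⟩,⟨0,[(47,0)]⟩⟩ ⟨true,0,⟨0,[(1,0)]⟩,⟨0,[(4,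
  0),(27,0),(13,0)]⟩⟩ ⟨false,0,⟨3,[(3,0),(2,0),(15,0),(8,2)]⟩,⟨15,[(16,7),(11,3),(0,0),(0,0),(1,15),
  (9,5),(4,7)]⟩⟩,.a ⟨true,0,⟨0,[(7,0),(39,0)]⟩,⟨0,[(47,0),(3,0)]⟩⟩ ⟨false,1,⟨1,[(1,1),(46,0),(0,
  0)]⟩,⟨0,[(2,0),(24,0),(7,0),(11,1)]⟩⟩ ⟨true,0,⟨9,[(1,1),(3,1),(0,1),(10,1),(13,7),(5,2),(0,0),(6,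
  1)]⟩,⟨5,[(0,3),(14,0),(5,0),(10,1),(0,2),(1,2),(11,5)]⟩⟩,.o ⟨false,1,⟨1,[(32,1),(9,0),(5,0)]⟩,⟨2,
  [(1,0),(1,0),(0,0),(17,0),(8,0),(2,0),(2,0)]⟩⟩,.a ⟨true,0,⟨0,[(32,0)]⟩,⟨0,[(31,0)]⟩⟩ ⟨false,1,⟨1,
  [(1,1),(46,0),(0,0)]⟩,⟨0,[(4,0),(27,0),(13,0)]⟩⟩ ⟨true,0,⟨3,[(3,0),(2,0),(15,0),(8,2)]⟩,⟨5,[(0,3),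
  (14,0),(5,0),(10,1),(0,2),(1,2),(11,5)]⟩⟩]⟩))) (.I [0,1,0,0,0,0,0,0,1] (.Q [0,0,0,0,0,-1,0,0,0,1,
  0,-1] (.ed true [0,1,0,1] .k) (.R ⟨1,false,false,true,[1,0,0,-1],[0,1],[0,1,0,-1,0,0,0,0,-1],(⟨0,
  [(31,0)]⟩,⟨0,[(32,0)]⟩),(⟨0,[(44,0)]⟩,⟨0,[(43,0)]⟩),⟨0,[(0,0)]⟩,.k,.k,(.x (-1) ⟨15,[(15,3),(5,3),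
  (7,6),(0,6),(11,1)]⟩ ⟨0,[(44,0)]⟩),(.x (-1) ⟨15,[(15,3),(5,3),(7,6),(0,6),(11,1)]⟩ ⟨0,[(44,0)]⟩),
  (.r (-1) ⟨4,[(2,2),(13,3),(6,1),(1,2),(0,1),(2,0),(10,1),(6,2)]⟩ ⟨41,[(1,35),(3,5),(0,7),(1,7),(8,
  21),(14,5),(4,38),(0,16)]⟩),.k,⟨false,1,⟨4,[(2,2),(13,3),(6,1),(1,2),(0,1),(2,0),(10,1),(6,2)]⟩,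
  ⟨9,[(1,9),(4,1),(1,1),(8,4),(7,0),(11,3),(7,0)]⟩⟩,⟨true,0,⟨0,[(31,0)]⟩,⟨0,[(25,0),(6,0),(1,0),(0,
  0)]⟩⟩,⟨false,0,⟨0,[(47,0)]⟩,⟨11,[(6,3),(22,2),(0,2),(11,1),(6,3)]⟩⟩,⟨false,0,⟨3,[(1,1),(3,1),(3,
  1),(21,1),(5,0),(0,0)]⟩,⟨9,[(2,9),(7,0),(2,5),(8,1),(2,13),(2,1),(3,9),(9,2),(2,3)]⟩⟩,⟨true,0,⟨0,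
  [(51,0)]⟩,⟨0,[]⟩⟩,⟨false,0,⟨7,[(1,1),(3,5),(3,5),(21,1),(5,0),(0,0),(7,3)]⟩,⟨1,[(2,1),(7,0),(14,
  3),(6,1),(9,0)]⟩⟩,[.o ⟨false,0,⟨0,[(46,0)]⟩,⟨1,[(42,0),(4,1),(1,0)]⟩⟩,.a ⟨true,0,⟨3,[(7,0),(1,0),
  (21,1),(0,1),(3,0)]⟩,⟨0,[(47,0)]⟩⟩ ⟨true,0,⟨0,[(2,0),(22,0)]⟩,⟨16,[(1,12),(3,3),(0,0),(1,0),(8,5),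
  (14,3),(4,5),(7,0)]⟩⟩ ⟨false,0,⟨3,[(3,0),(2,0),(15,0),(8,2)]⟩,⟨15,[(16,7),(11,3),(0,0),(0,0),(1,
  15),(9,5),(4,7)]⟩⟩,.o ⟨false,1,⟨1,[(32,1),(9,0),(5,0)]⟩,⟨9,[(2,2),(0,6),(0,2),(12,1),(4,1),(14,
  4)]⟩⟩,.e ⟨false,1,⟨1,[(19,0),(9,0),(9,0),(7,0)]⟩,⟨1,[(1,1),(15,0),(7,0),(19,0)]⟩⟩ ⟨false,0,⟨3,[(3,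
  0),(2,0),(15,0),(8,2)]⟩,⟨1,[(32,1),(9,0),(4,1),(1,0)]⟩⟩]⟩) (.R ⟨0,false,false,true,[1,0,0,-1],[0,
  1],[0,1,0,0,0,0,0,0,-1],(⟨0,[(31,0)]⟩,⟨0,[(32,0)]⟩),(⟨0,[(44,0)]⟩,⟨0,[(43,0)]⟩),⟨0,[(0,0)]⟩,.k,.k,
  (.x (-1) ⟨15,[(15,3),(5,3),(7,6),(0,6),(11,1)]⟩ ⟨0,[(44,0)]⟩),(.x (-1) ⟨15,[(15,3),(5,3),(7,6),(0,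
  6),(11,1)]⟩ ⟨0,[(44,0)]⟩),.k,.k,⟨false,1,⟨0,[(2,0),(22,0),(22,0)]⟩,⟨16,[(1,12),(3,3),(0,0),(1,0),
  (8,5),(14,3),(4,5),(7,0)]⟩⟩,⟨true,0,⟨0,[(31,0)]⟩,⟨5,[(0,3),(14,0),(5,0),(10,1),(1,2),(2,2)]⟩⟩,
  ⟨true,0,⟨0,[(51,0)]⟩,⟨0,[]⟩⟩,⟨false,0,⟨3,[(1,1),(3,1),(3,1),(21,1),(5,0),(0,0)]⟩,⟨33,[(0,33),(1,
  7),(7,6),(4,3),(0,11),(4,15),(1,5),(1,21),(3,12),(12,1),(2,9)]⟩⟩,⟨false,0,⟨0,[]⟩,⟨0,[]⟩⟩,⟨false,0,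
  ⟨0,[]⟩,⟨0,[]⟩⟩,[.o ⟨false,0,⟨0,[(46,0)]⟩,⟨1,[(42,0),(4,1),(1,0)]⟩⟩,.a ⟨true,0,⟨3,[(7,0),(1,0),(21,
  1),(0,1),(3,0)]⟩,⟨0,[(47,0)]⟩⟩ ⟨true,0,⟨5,[(0,2),(1,5),(0,2),(2,0),(10,0),(3,1),(0,0),(0,0),(1,
  4)]⟩,⟨6,[(1,3),(2,1),(0,0),(11,0),(14,2),(4,1),(0,0)]⟩⟩ ⟨false,0,⟨3,[(3,0),(2,0),(15,0),(8,2)]⟩,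
  ⟨15,[(16,7),(11,3),(0,0),(0,0),(1,15),(9,5),(4,7)]⟩⟩,.o ⟨false,1,⟨1,[(32,1),(9,0),(5,0)]⟩,⟨9,[(2,
  2),(0,6),(0,2),(12,1),(4,1),(14,4)]⟩⟩,.e ⟨false,1,⟨1,[(29,0),(18,0)]⟩,⟨0,[(1,0),(43,0)]⟩⟩ ⟨false,
  0,⟨3,[(3,0),(2,0),(15,0),(8,2)]⟩,⟨1,[(32,1),(9,0),(4,1),(1,0)]⟩⟩]⟩)) (.Q [0,0,0,0,0,-1,0,0,0,1,0,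
  -1] (.ed true [0,1,0,1] .k) (.R ⟨1,false,false,true,[1,0,0,-1],[0,1],[1,0,0,0,0,0,0,0,-1],(⟨0,
  [(31,0)]⟩,⟨0,[(32,0)]⟩),(⟨0,[(44,0)]⟩,⟨0,[(43,0)]⟩),⟨0,[(0,0)]⟩,.k,.k,(.x (-1) ⟨15,[(15,3),(5,3),
  (7,6),(0,6),(11,1)]⟩ ⟨0,[(44,0)]⟩),(.x (-1) ⟨15,[(15,3),(5,3),(7,6),(0,6),(11,1)]⟩ ⟨0,[(44,0)]⟩),
  (.r (-1) ⟨4,[(1,3),(0,0),(13,2),(2,1),(8,2),(7,2),(10,3)]⟩ ⟨5,[(5,5),(11,1),(4,3),(9,5),(4,2),(0,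
  0),(7,3)]⟩),.k,⟨false,1,⟨0,[(1,0),(17,0),(19,0)]⟩,⟨0,[(4,0),(27,0),(13,1)]⟩⟩,⟨true,0,⟨0,[(31,0)]⟩,
  ⟨0,[(25,0),(6,0),(1,0),(0,0)]⟩⟩,⟨true,0,⟨0,[]⟩,⟨0,[(51,0)]⟩⟩,⟨false,0,⟨0,[(4,0),(4,0),(26,0)]⟩,
  ⟨15,[(1,13),(14,7),(11,3),(0,0),(2,15),(9,5),(4,7),(1,0)]⟩⟩,⟨false,1,⟨11,[(6,3),(22,2),(0,2),(11,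
  1),(6,3)]⟩,⟨0,[(47,0)]⟩⟩,⟨false,0,⟨1,[(4,0),(0,0),(3,1),(26,0),(9,0)]⟩,⟨15,[(1,13),(14,7),(11,3),
  (0,0),(2,15),(9,5),(4,23),(1,0)]⟩⟩,[.o ⟨false,0,⟨0,[(46,0)]⟩,⟨1,[(42,0),(4,1),(1,0)]⟩⟩,.a ⟨true,0,
  ⟨3,[(7,0),(1,0),(21,1),(0,1),(3,0)]⟩,⟨0,[(47,0)]⟩⟩ ⟨true,0,⟨0,[(1,0)]⟩,⟨0,[(4,0),(27,0),(13,0),(4,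
  0)]⟩⟩ ⟨false,0,⟨3,[(3,0),(2,0),(15,0),(8,2)]⟩,⟨15,[(16,7),(11,3),(0,0),(0,0),(1,15),(9,5),(4,
  7)]⟩⟩,.o ⟨false,1,⟨1,[(32,1),(9,0),(5,0)]⟩,⟨9,[(2,2),(0,6),(0,2),(12,1),(4,1),(14,4)]⟩⟩,.e ⟨false,
  1,⟨3,[(1,1),(27,0),(18,1),(0,0)]⟩,⟨0,[(4,0),(27,0),(13,0)]⟩⟩ ⟨false,0,⟨3,[(3,0),(2,0),(15,0),(8,
  2)]⟩,⟨1,[(32,1),(9,0),(4,1),(1,0)]⟩⟩]⟩) (.R ⟨0,false,false,true,[1,0,0,-1],[0,1],[1,0,0,0,0,0,0,0,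
  -1],(⟨0,[(31,0)]⟩,⟨0,[(32,0)]⟩),(⟨0,[(44,0)]⟩,⟨0,[(43,0)]⟩),⟨0,[(0,0)]⟩,.k,.k,(.x (-1) ⟨15,[(15,
  3),(5,3),(7,6),(0,6),(11,1)]⟩ ⟨0,[(44,0)]⟩),(.x (-1) ⟨15,[(15,3),(5,3),(7,6),(0,6),(11,1)]⟩ ⟨0,
  [(44,0)]⟩),.k,.k,⟨false,1,⟨0,[(1,0),(17,0),(19,0)]⟩,⟨0,[(4,0),(27,0),(13,1)]⟩⟩,⟨true,0,⟨0,[(31,
  0)]⟩,⟨5,[(0,3),(14,0),(5,0),(10,1),(1,2),(2,2)]⟩⟩,⟨true,0,⟨0,[]⟩,⟨0,[(51,0)]⟩⟩,⟨false,0,⟨0,[(4,0),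
  (4,0),(26,0)]⟩,⟨15,[(1,13),(14,7),(11,3),(0,0),(2,15),(9,5),(4,7),(1,0)]⟩⟩,⟨false,0,⟨0,[]⟩,⟨0,
  []⟩⟩,⟨false,0,⟨0,[]⟩,⟨0,[]⟩⟩,[.o ⟨false,0,⟨0,[(46,0)]⟩,⟨1,[(42,0),(4,1),(1,0)]⟩⟩,.a ⟨true,0,⟨3,
  [(7,0),(1,0),(21,1),(0,1),(3,0)]⟩,⟨0,[(47,0)]⟩⟩ ⟨true,0,⟨0,[(1,0)]⟩,⟨0,[(4,0),(27,0),(13,0),(4,
  0)]⟩⟩ ⟨false,0,⟨3,[(3,0),(2,0),(15,0),(8,2)]⟩,⟨15,[(16,7),(11,3),(0,0),(0,0),(1,15),(9,5),(4,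
  7)]⟩⟩,.o ⟨false,1,⟨1,[(32,1),(9,0),(5,0)]⟩,⟨9,[(2,2),(0,6),(0,2),(12,1),(4,1),(14,4)]⟩⟩,.e ⟨false,
  1,⟨3,[(1,1),(27,0),(18,1),(0,0)]⟩,⟨0,[(4,0),(27,0),(13,0)]⟩⟩ ⟨false,0,⟨3,[(3,0),(2,0),(15,0),(8,
  2)]⟩,⟨1,[(32,1),(9,0),(4,1),(1,0)]⟩⟩]⟩))))) (.K ⟨0,[0,0,0,1],0,0,(⟨0,[(28,0)]⟩,⟨0,[(27,0)]⟩),.k,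
  (.r (-1) ⟨1,[(15,0),(10,0),(8,0),(7,0)]⟩ ⟨1,[(0,1),(20,0),(5,1),(2,1),(0,0),(1,0),(7,0)]⟩),(.x 0
  ⟨0,[(40,0)]⟩ ⟨15,[(11,3),(5,3),(7,6),(0,6),(11,1)]⟩),.k,.k,[⟨0,[(28,0)]⟩,⟨0,[(27,0)]⟩,⟨0,[(0,0),
  (42,0)]⟩,⟨0,[(1,0),(29,0),(15,0)]⟩]⟩)) (.Q [0,1,1,0,0,0,0,0,1,0,0,-1] (.p false [0,0,0,1] [] (⟨0,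
  [(27,0)]⟩,⟨0,[(26,0)]⟩) .k 0 (⟨0,[]⟩,⟨0,[]⟩) .k .k) (.K ⟨0,[0,0,0,1],0,0,(⟨0,[(28,0)]⟩,⟨0,[(27,
  0)]⟩),.k,(.r (-1) ⟨1,[(15,0),(10,0),(8,0),(7,0)]⟩ ⟨4,[(1,4),(5,2),(5,0),(6,1),(6,4),(5,4),(7,
  1)]⟩),(.x 0 ⟨0,[(40,0)]⟩ ⟨15,[(11,3),(5,3),(7,6),(0,6),(11,1)]⟩),.k,.k,[⟨0,[(28,0)]⟩,⟨0,[(27,0)]⟩,
  ⟨1,[(1,1),(6,0),(18,0),(0,0)]⟩,⟨0,[(0,0)]⟩]⟩) (.Q [0,0,0,0,0,0,1,1,0,0,-1,1] (.p false [0,0,1] [0,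
  0,0,1] (⟨0,[(37,0)]⟩,⟨0,[(36,0)]⟩) .k 2 (⟨0,[(28,0)]⟩,⟨0,[(27,0)]⟩) .k (.r 0 ⟨0,[(0,0),(26,0),(2,
  0),(0,0)]⟩ ⟨3,[(25,0),(0,2),(8,3)]⟩)) (.Q [0,0,0,0,0,1,0,0,0,-1,0,1] (.ed false [0,1,0,1] .k) (.Q
  [0,1,1,-1,0,0,-1,-1,1,0,1,-1] (.p true [0,0,1] [0,0,0,1] (⟨0,[(39,0)]⟩,⟨0,[(38,0)]⟩) .k 2 (⟨0,
  [(30,0)]⟩,⟨0,[(29,0)]⟩) .k (.r 0 ⟨0,[(2,0),(26,0),(2,0),(0,0)]⟩ ⟨3,[(27,0),(0,2),(8,3)]⟩)) (.Q [0,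
  0,0,1,0,0,1,1,0,0,-1,1] (.p false [0,0,1] [0,0,0,1] (⟨0,[(40,0)]⟩,⟨0,[(39,0)]⟩) .k 2 (⟨0,[(31,
  0)]⟩,⟨0,[(30,0)]⟩) .k (.r 0 ⟨0,[(3,0),(26,0),(2,0),(0,0)]⟩ ⟨3,[(28,0),(0,2),(8,3)]⟩)) (.R ⟨0,
  false,false,true,[1,0,0,-1],[1,-1,-1],[1,1],(⟨0,[(31,0)]⟩,⟨0,[(32,0)]⟩),(⟨0,[(26,0)]⟩,⟨0,[(41,0),
  (2,0)]⟩),⟨0,[(2,0)]⟩,.k,.k,(.x (-1) ⟨15,[(15,3),(5,3),(7,6),(0,6),(11,1)]⟩ ⟨0,[(44,0)]⟩),(.r 0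
  ⟨13,[(4,3),(0,9),(2,0),(8,5),(6,3),(6,13),(2,8),(2,8)]⟩ ⟨1,[(1,0),(2,0),(11,0),(11,0),(1,0),(8,
  0)]⟩),.k,.k,⟨true,0,⟨1,[(20,0),(1,0),(15,0)]⟩,⟨0,[(39,0),(7,0)]⟩⟩,⟨false,0,⟨0,[(31,0),(2,0)]⟩,⟨11,
  [(2,5),(18,3),(1,1),(4,3),(3,5),(9,0),(5,10)]⟩⟩,⟨false,1,⟨3,[(29,0),(0,2)]⟩,⟨0,[(4,0),(20,0),(5,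
  0),(2,0),(0,0)]⟩⟩,⟨true,0,⟨0,[(1,0)]⟩,⟨0,[(4,0),(17,0)]⟩⟩,⟨false,0,⟨0,[]⟩,⟨0,[]⟩⟩,⟨false,0,⟨0,[]⟩,
  ⟨0,[]⟩⟩,[.o ⟨false,0,⟨0,[(33,0),(13,0)]⟩,⟨5,[(9,3),(0,0),(26,1),(4,1),(6,2)]⟩⟩,.e ⟨true,0,⟨0,[]⟩,
  ⟨1,[(37,0),(0,0)]⟩⟩ ⟨true,0,⟨1,[(12,0),(18,1),(2,0),(2,0),(9,1)]⟩,⟨0,[(0,0)]⟩⟩,.o ⟨false,1,⟨1,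
  [(32,1),(9,0),(5,0)]⟩,⟨0,[(25,0),(5,0),(2,0),(0,0)]⟩⟩,.a ⟨true,0,⟨0,[(32,0)]⟩,⟨0,[(31,0)]⟩⟩
  ⟨false,1,⟨3,[(29,0),(0,0),(17,1)]⟩,⟨3,[(37,0),(0,0),(6,1)]⟩⟩ ⟨true,0,⟨0,[(31,0),(1,0),(13,0)]⟩,⟨0,
  [(0,0)]⟩⟩]⟩) (.R ⟨0,false,false,true,[1,0,0,-1],[1,-1,-1],[1,1],(⟨0,[(31,0)]⟩,⟨0,[(32,0)]⟩),(⟨0,
  [(26,0)]⟩,⟨0,[(41,0),(2,0)]⟩),⟨0,[(2,0)]⟩,.k,.k,(.x (-1) ⟨15,[(15,3),(5,3),(7,6),(0,6),(11,1)]⟩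
  ⟨0,[(44,0)]⟩),(.r 0 ⟨13,[(4,3),(0,9),(2,0),(8,5),(6,3),(6,13),(2,8),(2,8)]⟩ ⟨1,[(1,0),(2,0),(11,
  0),(11,0),(1,0),(8,0)]⟩),.k,.k,⟨true,0,⟨1,[(20,0),(1,0),(15,0)]⟩,⟨0,[(39,0),(7,0)]⟩⟩,⟨false,0,⟨0,
  [(31,0),(2,0)]⟩,⟨11,[(2,5),(18,3),(1,1),(4,3),(3,5),(9,0),(5,10)]⟩⟩,⟨false,1,⟨3,[(29,0),(0,2)]⟩,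
  ⟨2,[(0,2),(3,1),(0,0),(11,0),(4,0),(14,0),(7,0)]⟩⟩,⟨true,0,⟨0,[(1,0)]⟩,⟨0,[(4,0),(17,0)]⟩⟩,⟨false,
  0,⟨0,[]⟩,⟨0,[]⟩⟩,⟨false,0,⟨0,[]⟩,⟨0,[]⟩⟩,[.o ⟨false,0,⟨0,[(33,0),(13,0)]⟩,⟨5,[(9,3),(0,0),(26,1),
  (4,1),(6,2)]⟩⟩,.a ⟨true,0,⟨0,[(1,0),(2,0)]⟩,⟨1,[(3,0),(5,0),(21,0)]⟩⟩ ⟨true,0,⟨0,[]⟩,⟨1,[(37,0),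
  (0,0)]⟩⟩ ⟨false,0,⟨0,[(0,0)]⟩,⟨5,[(5,5),(0,1),(23,2),(11,0),(6,1)]⟩⟩,.o ⟨false,1,⟨1,[(32,1),(9,0),
  (5,0)]⟩,⟨1,[(0,1),(16,0),(17,0),(1,0)]⟩⟩,.e ⟨false,1,⟨3,[(29,0),(0,0),(17,1)]⟩,⟨3,[(37,0),(0,0),
  (6,1)]⟩⟩ ⟨false,0,⟨0,[(0,0)]⟩,⟨11,[(3,11),(2,3),(22,2),(0,2),(11,1),(6,3)]⟩⟩]⟩)) (.I [0,1,-1,0,0,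
  0,0,1,-1] (.R ⟨0,false,false,false,[1,0,0,-1],[1,0,-1],[0,1,0,0,0,0,0,0,-1],(⟨0,[(31,0)]⟩,⟨0,[(32,
  0)]⟩),(⟨0,[(40,0)]⟩,⟨0,[(41,0)]⟩),⟨0,[(2,0)]⟩,.k,.k,(.x (-1) ⟨15,[(15,3),(5,3),(7,6),(0,6),(11,
  1)]⟩ ⟨0,[(44,0)]⟩),.k,.k,.k,⟨false,0,⟨0,[(0,0)]⟩,⟨1,[(30,0),(8,1),(9,0)]⟩⟩,⟨true,0,⟨0,[(31,0),(2,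
  0)]⟩,⟨5,[(2,3),(12,0),(5,0),(6,2),(3,1)]⟩⟩,⟨true,0,⟨0,[(51,0)]⟩,⟨0,[]⟩⟩,⟨false,1,⟨1,[(12,0),(17,
  0),(0,1),(2,0),(2,0),(11,0)]⟩,⟨1,[(1,0),(3,0),(41,0)]⟩⟩,⟨false,0,⟨0,[]⟩,⟨0,[]⟩⟩,⟨false,0,⟨0,[]⟩,
  ⟨0,[]⟩⟩,[.a ⟨true,0,⟨1,[(12,0),(18,0),(0,0)]⟩,⟨0,[(3,0),(27,0)]⟩⟩ ⟨false,0,⟨0,[(0,0),(38,0)]⟩,⟨1,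
  [(30,0),(18,0)]⟩⟩ ⟨true,0,⟨1,[(12,0),(18,1),(2,0),(2,0)]⟩,⟨0,[(3,0)]⟩⟩,.o ⟨false,1,⟨7,[(12,3),(16,
  0),(0,0),(11,1),(6,3)]⟩,⟨0,[(35,0)]⟩⟩,.o ⟨false,1,⟨1,[(32,1),(9,0),(5,0)]⟩,⟨0,[(25,0),(5,0),(2,0),
  (0,0)]⟩⟩,.e ⟨false,0,⟨0,[(0,0),(24,0)]⟩,⟨1,[(30,0),(6,0),(0,0),(10,0)]⟩⟩ ⟨false,1,⟨7,[(12,3),(16,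
  0),(0,0),(0,7),(10,1),(6,3)]⟩,⟨0,[(3,0)]⟩⟩]⟩) (.Q [0,0,0,-1,0,0,0,0,0,-1,0,1] (.p true [0,0,0,1]
  [1] (⟨0,[(32,0)]⟩,⟨0,[(31,0)]⟩) .k 1 (⟨0,[]⟩,⟨0,[]⟩) .k .k) (.R ⟨0,false,false,true,[1,0,0,-1],[0,
  1],[1,1],(⟨0,[(32,0)]⟩,⟨0,[(33,0)]⟩),(⟨0,[(45,0)]⟩,⟨0,[(44,0)]⟩),⟨0,[(3,0)]⟩,.k,.k,(.x (-1) ⟨15,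
  [(16,3),(5,3),(7,6),(0,6),(11,1)]⟩ ⟨0,[(45,0)]⟩),(.x (-1) ⟨15,[(16,3),(5,3),(7,6),(0,6),(11,1)]⟩
  ⟨0,[(45,0)]⟩),.k,.k,⟨false,1,⟨0,[(20,0),(19,0)]⟩,⟨11,[(7,0),(1,0),(8,1),(19,5),(0,3),(7,2)]⟩⟩,
  ⟨true,0,⟨0,[(32,0)]⟩,⟨5,[(0,2),(14,0),(2,0),(14,2),(1,1),(2,2)]⟩⟩,⟨false,1,⟨3,[(30,0),(0,2)]⟩,⟨2,
  [(2,1),(2,0),(20,0),(5,2),(1,0),(0,1),(2,0),(9,1)]⟩⟩,⟨true,0,⟨0,[(1,0),(26,0),(3,0),(3,0)]⟩,⟨0,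
  [(2,0),(31,0),(13,1)]⟩⟩,⟨false,0,⟨0,[]⟩,⟨0,[]⟩⟩,⟨false,0,⟨0,[]⟩,⟨0,[]⟩⟩,[.o ⟨false,0,⟨0,[(47,0)]⟩,
  ⟨1,[(43,0),(4,1),(1,0)]⟩⟩,.e ⟨true,0,⟨0,[]⟩,⟨1,[(38,0),(0,0)]⟩⟩ ⟨true,0,⟨11,[(7,0),(1,0),(8,1),
  (13,11),(5,5),(0,3),(7,2)]⟩,⟨0,[(0,0)]⟩⟩,.o ⟨false,1,⟨1,[(33,1),(9,0),(5,0)]⟩,⟨0,[(26,0),(5,0),(2,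
  0),(0,0)]⟩⟩,.a ⟨true,0,⟨0,[(33,0)]⟩,⟨0,[(32,0)]⟩⟩ ⟨false,1,⟨3,[(30,0),(0,0),(17,1)]⟩,⟨3,[(38,0),
  (0,0),(6,1)]⟩⟩ ⟨true,0,⟨0,[(32,0),(14,0)]⟩,⟨0,[(0,0)]⟩⟩]⟩) (.R ⟨0,false,false,true,[1,0,0,-1],[0,
  1],[1,1],(⟨0,[(32,0)]⟩,⟨0,[(33,0)]⟩),(⟨0,[(45,0)]⟩,⟨0,[(44,0)]⟩),⟨0,[(3,0)]⟩,.k,.k,(.x (-1) ⟨15,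
  [(16,3),(5,3),(7,6),(0,6),(11,1)]⟩ ⟨0,[(45,0)]⟩),(.x (-1) ⟨15,[(16,3),(5,3),(7,6),(0,6),(11,1)]⟩
  ⟨0,[(45,0)]⟩),.k,.k,⟨false,1,⟨0,[(20,0),(19,0)]⟩,⟨11,[(7,0),(1,0),(8,1),(19,5),(0,3),(7,2)]⟩⟩,
  ⟨true,0,⟨0,[(32,0)]⟩,⟨5,[(3,3),(12,0),(5,0),(10,1),(1,2),(2,2)]⟩⟩,⟨false,1,⟨3,[(30,0),(0,2)]⟩,⟨2,
  [(2,1),(2,0),(20,0),(5,2),(1,0),(0,1),(2,0),(9,1)]⟩⟩,⟨true,0,⟨0,[(1,0),(26,0),(3,0),(3,0)]⟩,⟨0,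
  [(2,0),(31,0),(13,1)]⟩⟩,⟨false,0,⟨0,[]⟩,⟨0,[]⟩⟩,⟨false,0,⟨0,[]⟩,⟨0,[]⟩⟩,[.o ⟨false,0,⟨0,[(47,0)]⟩,
  ⟨1,[(43,0),(4,1),(1,0)]⟩⟩,.a ⟨true,0,⟨3,[(8,0),(1,0),(21,1),(0,1),(3,0)]⟩,⟨0,[(48,0)]⟩⟩ ⟨true,0,
  ⟨0,[]⟩,⟨1,[(38,0),(0,0)]⟩⟩ ⟨false,0,⟨0,[(0,0)]⟩,⟨15,[(17,7),(11,3),(0,0),(0,0),(1,15),(9,5),(4,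
  7)]⟩⟩,.o ⟨false,1,⟨1,[(33,1),(9,0),(5,0)]⟩,⟨0,[(26,0),(5,0),(2,0),(0,0)]⟩⟩,.e ⟨false,1,⟨3,[(30,0),
  (0,0),(17,1)]⟩,⟨3,[(38,0),(0,0),(6,1)]⟩⟩ ⟨false,0,⟨0,[(0,0)]⟩,⟨1,[(33,1),(9,0),(4,1),(1,
  0)]⟩⟩]⟩)))) (.I [1,1,-1,0,0,0,0,1,-1] (.R ⟨1,false,false,false,[1,0,0,-1],[1,0,-1],[1,1,0,0,0,0,0,
  0,-1],(⟨0,[(30,0)]⟩,⟨0,[(31,0)]⟩),(⟨0,[(39,0)]⟩,⟨0,[(40,0)]⟩),⟨0,[(1,0)]⟩,.k,.k,(.x (-1) ⟨15,[(14,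
  3),(5,3),(7,6),(0,6),(11,1)]⟩ ⟨0,[(43,0)]⟩),.k,(.x 0 ⟨4,[(14,2),(7,0),(1,1),(9,1),(1,0)]⟩ ⟨9,[(12,
  1),(10,3),(4,2),(0,2),(9,9),(1,1),(1,9)]⟩),.k,⟨false,0,⟨0,[(0,0)]⟩,⟨1,[(29,0),(8,1),(9,0)]⟩⟩,
  ⟨true,0,⟨0,[(30,0),(2,0)]⟩,⟨0,[(2,0),(35,0)]⟩⟩,⟨false,0,⟨0,[]⟩,⟨3,[(28,0),(0,0),(18,1)]⟩⟩,⟨false,
  1,⟨1,[(11,0),(17,0),(0,1),(2,0),(2,0),(11,0)]⟩,⟨0,[(3,0),(30,0)]⟩⟩,⟨true,0,⟨0,[(45,0)]⟩,⟨0,[(46,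
  0)]⟩⟩,⟨false,1,⟨39,[(10,23),(5,7),(11,0),(0,20),(0,39),(2,11),(2,19),(4,1),(6,15)]⟩,⟨0,[(3,0),(30,
  0),(11,0)]⟩⟩,[.a ⟨true,0,⟨1,[(11,0),(18,0),(0,0)]⟩,⟨0,[(2,0),(27,0)]⟩⟩ ⟨false,0,⟨0,[(0,0),(37,
  0)]⟩,⟨1,[(29,0),(18,0)]⟩⟩ ⟨true,0,⟨1,[(11,0),(18,1),(2,0),(2,0)]⟩,⟨0,[(2,0)]⟩⟩,.o ⟨false,1,⟨7,
  [(11,3),(16,0),(0,0),(11,1),(6,3)]⟩,⟨0,[(34,0)]⟩⟩,.o ⟨false,1,⟨1,[(31,1),(9,0),(5,0)]⟩,⟨0,[(24,0),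
  (5,0),(2,0),(0,0)]⟩⟩,.e ⟨false,0,⟨0,[(0,0),(23,0)]⟩,⟨1,[(29,0),(6,0),(0,0),(10,0)]⟩⟩ ⟨false,1,⟨7,
  [(11,3),(16,0),(0,0),(0,7),(10,1),(6,3)]⟩,⟨0,[(2,0)]⟩⟩]⟩) (.K ⟨1,[1,-1,0,-1],0,0,(⟨0,[(1,0)]⟩,⟨0,
  [(31,0),(11,0)]⟩),(.x (-1) ⟨15,[(14,3),(5,3),(7,6),(0,6),(11,1)]⟩ ⟨0,[(43,0)]⟩),(.r (-1) ⟨3,[(3,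
  0),(0,0),(10,2),(11,0),(0,0),(1,1),(7,0),(7,4)]⟩ ⟨2,[(0,2),(15,0),(4,1),(15,1),(7,1)]⟩),.k,.k,.k,
  [⟨1,[(30,1),(5,0),(0,0)]⟩,⟨1,[(2,1),(8,0),(21,0),(2,0)]⟩,⟨0,[(0,0),(25,0),(3,0),(3,0)]⟩,⟨0,[(3,0),
  (42,0)]⟩]⟩))) (.I [1,1,-1,0,0,0,0,1,-1] (.Q [0,0,0,0,0,-1,0,0,0,1,0,-1] (.ed true [0,1,0,1] .k)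
  (.R ⟨1,false,false,false,[1,0,0,-1],[1,0,-1],[1,1,0,0,0,0,0,0,-1],(⟨0,[(30,0)]⟩,⟨0,[(31,0)]⟩),(⟨0,
  [(39,0)]⟩,⟨0,[(40,0)]⟩),⟨0,[(0,0)]⟩,.k,.k,(.x (-1) ⟨15,[(14,3),(5,3),(7,6),(0,6),(11,1)]⟩ ⟨0,[(43,
  0)]⟩),.k,(.x 0 ⟨4,[(14,2),(7,0),(1,1),(9,1),(1,0)]⟩ ⟨9,[(12,1),(10,3),(4,2),(0,2),(9,9),(1,1),(1,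
  9)]⟩),.k,⟨false,0,⟨0,[(1,0)]⟩,⟨1,[(29,0),(8,1),(9,0)]⟩⟩,⟨true,0,⟨0,[(30,0),(2,0)]⟩,⟨0,[(24,0),(6,
  0),(2,0)]⟩⟩,⟨false,0,⟨0,[]⟩,⟨3,[(28,0),(0,0),(18,1)]⟩⟩,⟨false,1,⟨1,[(2,1),(26,0),(6,0),(0,0),(10,
  0)]⟩,⟨0,[(3,0),(30,0)]⟩⟩,⟨true,0,⟨0,[(45,0)]⟩,⟨0,[(46,0)]⟩⟩,⟨false,1,⟨11,[(2,7),(7,3),(5,3),(11,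
  0),(0,6),(0,3),(5,5),(0,1),(10,3)]⟩,⟨0,[(3,0),(30,0),(11,0)]⟩⟩,[.e ⟨false,0,⟨0,[(1,0),(36,0)]⟩,⟨1,
  [(29,0),(18,0)]⟩⟩ ⟨false,0,⟨0,[(2,0)]⟩,⟨1,[(4,1),(24,0),(18,0)]⟩⟩,.o ⟨false,1,⟨7,[(11,3),(16,0),
  (0,0),(11,1),(6,3)]⟩,⟨0,[(34,0)]⟩⟩,.o ⟨false,1,⟨1,[(31,1),(9,0),(5,0)]⟩,⟨2,[(2,1),(27,0),(2,0),(0,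
  1),(1,0),(7,0)]⟩⟩,.a ⟨true,0,⟨0,[(31,0)]⟩,⟨0,[(30,0)]⟩⟩ ⟨false,0,⟨0,[(1,0),(22,0)]⟩,⟨1,[(29,0),(6,
  0),(0,0),(10,0)]⟩⟩ ⟨true,0,⟨0,[(2,0)]⟩,⟨0,[(31,0),(2,0)]⟩⟩]⟩) (.R ⟨0,false,false,false,[1,0,0,-1],
  [0,1,1],[0,1,0,0,0,0,0,0,-1],(⟨0,[(30,0)]⟩,⟨0,[(31,0)]⟩),(⟨0,[(40,0),(2,0)]⟩,⟨0,[(25,0)]⟩),⟨0,[(0,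
  0)]⟩,.k,.k,(.x (-1) ⟨15,[(14,3),(5,3),(7,6),(0,6),(11,1)]⟩ ⟨0,[(43,0)]⟩),(.r 0 ⟨0,[(1,0),(22,0),
  (13,0),(7,0)]⟩ ⟨3,[(16,1),(11,0),(0,2),(4,1),(2,1)]⟩),.k,.k,⟨false,0,⟨0,[(0,1),(0,0),(0,1),(17,0),
  (1,0),(2,0),(20,0)]⟩,⟨3,[(19,3),(8,0),(0,2)]⟩⟩,⟨true,0,⟨0,[(24,0),(5,0),(3,0)]⟩,⟨0,[(31,0),(1,
  0)]⟩⟩,⟨true,0,⟨0,[(50,0)]⟩,⟨0,[]⟩⟩,⟨false,1,⟨11,[(8,1),(0,1),(6,5),(12,5),(0,11),(5,9),(4,0),(6,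
  2)]⟩,⟨0,[(3,0),(28,0),(13,0)]⟩⟩,⟨false,0,⟨0,[]⟩,⟨0,[]⟩⟩,⟨false,0,⟨0,[]⟩,⟨0,[]⟩⟩,[.a ⟨true,0,⟨0,
  [(8,0),(37,0)]⟩,⟨1,[(11,0),(18,0),(0,0),(14,1)]⟩⟩ ⟨false,0,⟨0,[(1,0),(36,0)]⟩,⟨1,[(29,0),(18,
  0)]⟩⟩ ⟨true,0,⟨1,[(16,0),(13,1),(3,0),(1,0)]⟩,⟨5,[(0,3),(10,2),(2,0),(5,0),(10,1),(14,5)]⟩⟩,.o
  ⟨false,1,⟨5,[(8,3),(0,0),(26,1),(4,1),(6,2)]⟩,⟨0,[(32,0),(13,0)]⟩⟩,.o ⟨false,1,⟨1,[(31,1),(9,0),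
  (5,0)]⟩,⟨2,[(2,1),(27,0),(2,0),(0,1),(1,0),(7,0)]⟩⟩,.e ⟨false,0,⟨0,[(0,2),(0,0),(0,2),(2,0),(10,
  0),(3,1),(0,0),(0,0),(23,5)]⟩,⟨1,[(29,0),(6,0),(0,0),(10,0)]⟩⟩ ⟨false,1,⟨5,[(8,3),(0,0),(20,5),(5,
  1),(4,1),(6,2)]⟩,⟨5,[(0,3),(10,2),(2,0),(5,0),(10,1),(14,5)]⟩⟩]⟩)) (.I [1,1,-2,-1,0,0,0,-1,-1]
  (.Q [0,0,1,-2,0,0,-1,-1,1,0,1,-1] (.p true [0,0,1] [0,0,0,1] (⟨0,[(40,0)]⟩,⟨0,[(39,0)]⟩) .k 2 (⟨0,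
  [(31,0)]⟩,⟨0,[(30,0)]⟩) .k (.r 0 ⟨1,[(0,0),(3,0),(14,1),(10,0),(2,0),(12,0)]⟩ ⟨3,[(28,0),(0,2),(8,
  3)]⟩)) (.R ⟨2,false,false,true,[0,1],[0,0,0,1],[1],(⟨0,[]⟩,⟨0,[]⟩),(⟨0,[(32,0)]⟩,⟨0,[(31,0)]⟩),⟨0,
  []⟩,.k,.k,.k,(.r 0 ⟨0,[(1,0),(15,0),(19,0),(0,0)]⟩ ⟨41,[(0,3),(0,13),(0,1),(7,9),(17,1),(1,24),(1,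
  3),(9,0),(6,5)]⟩),.k,.k,⟨true,0,⟨2,[(1,1),(2,0),(15,1),(10,0),(2,0),(2,0),(7,0)]⟩,⟨2,[(0,1),(1,0),
  (19,2),(4,0),(4,1)]⟩⟩,⟨false,0,⟨2,[(3,1),(27,0),(2,0),(0,1),(1,0),(7,0)]⟩,⟨0,[(32,0),(15,0)]⟩⟩,
  ⟨false,1,⟨41,[(0,3),(0,13),(0,1),(7,9),(17,1),(1,3),(1,3),(9,0),(6,26)]⟩,⟨11,[(6,0),(1,0),(8,1),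
  (19,5),(0,3),(7,2)]⟩⟩,⟨true,0,⟨0,[(0,0),(21,0)]⟩,⟨14,[(4,6),(0,7),(0,2),(1,2),(27,1)]⟩⟩,⟨false,1,
  ⟨1,[(48,0),(0,0)]⟩,⟨1,[(37,0),(0,0)]⟩⟩,⟨false,1,⟨13,[(0,5),(16,3),(4,1),(6,2),(0,6),(0,7),(5,3),
  (4,3),(3,1)]⟩,⟨0,[(4,0)]⟩⟩,[.e ⟨true,0,⟨0,[]⟩,⟨1,[(37,0),(0,0)]⟩⟩ ⟨true,0,⟨5,[(0,5),(16,1),(4,3),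
  (14,2),(0,0),(7,3)]⟩,⟨0,[(4,0)]⟩⟩,.a ⟨true,0,⟨0,[(0,0),(8,0)]⟩,⟨2,[(4,1),(0,0),(30,0)]⟩⟩ ⟨false,1,
  ⟨1,[(48,0),(0,0)]⟩,⟨0,[(51,0)]⟩⟩ ⟨true,0,⟨8,[(0,7),(1,0),(11,0),(2,4),(4,4),(8,0),(5,3)]⟩,⟨2,[(4,
  1),(0,0),(30,0)]⟩⟩,.o ⟨false,1,⟨3,[(29,0),(0,0),(17,1)]⟩,⟨0,[(25,0),(8,0),(0,0)]⟩⟩,.e ⟨false,1,⟨1,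
  [(48,0),(0,0)]⟩,⟨1,[(37,0),(0,0)]⟩⟩ ⟨false,1,⟨13,[(0,5),(16,3),(4,1),(6,2),(0,6),(0,7),(5,3),(4,
  3),(3,1)]⟩,⟨0,[(4,0)]⟩⟩]⟩) (.Q [0,0,0,-1,0,0,-1,-1,0,-1,1,1] (.p true [0,0,1] [1,0,0,-1] (⟨0,[(41,
  0)]⟩,⟨0,[(40,0)]⟩) .k 2 (⟨0,[(31,0)]⟩,⟨0,[(32,0)]⟩) .k (.r (-1) ⟨7,[(10,1),(9,1),(1,1),(6,0),(0,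
  4),(7,1)]⟩ ⟨6,[(1,3),(1,1),(0,2),(3,0),(8,0),(13,0),(5,6),(0,2)]⟩)) (.Q [0,0,0,0,0,-1,0,0,0,1,0,
  -1] (.ed true [0,1,0,1] .k) (.R ⟨1,false,false,false,[1,0,0,-1],[0,1,1],[1,1,0,0,0,0,0,0,-1],(⟨0,
  [(33,0)]⟩,⟨0,[(34,0)]⟩),(⟨0,[(43,0),(2,0)]⟩,⟨0,[(28,0)]⟩),⟨0,[(0,0)]⟩,.k,.k,(.x (-1) ⟨15,[(17,3),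
  (5,3),(7,6),(0,6),(11,1)]⟩ ⟨0,[(46,0)]⟩),(.r 0 ⟨3,[(3,3),(35,0),(0,0),(6,1)]⟩ ⟨3,[(19,1),(11,0),
  (0,2),(4,1),(2,1)]⟩),(.r (-1) ⟨3,[(3,3),(27,0),(0,0),(16,3),(1,1)]⟩ ⟨0,[(4,0),(6,0),(14,0),(10,
  0)]⟩),.k,⟨false,0,⟨0,[(3,0)]⟩,⟨3,[(22,3),(8,0),(0,2)]⟩⟩,⟨true,0,⟨0,[(27,0),(5,0),(3,0)]⟩,⟨0,[(34,
  0),(1,0)]⟩⟩,⟨false,0,⟨0,[]⟩,⟨3,[(31,0),(0,0),(18,1)]⟩⟩,⟨false,1,⟨11,[(11,1),(0,1),(6,5),(12,5),(0,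
  11),(5,9),(4,0),(6,2)]⟩,⟨1,[(1,0),(1,0),(2,0),(29,0)]⟩⟩,⟨true,0,⟨0,[(48,0)]⟩,⟨0,[(49,0)]⟩⟩,⟨false,
  1,⟨3,[(11,1),(7,1),(12,1),(0,3),(5,1),(4,0),(6,0)]⟩,⟨1,[(1,0),(1,0),(2,0),(29,0),(12,1)]⟩⟩,[.a
  ⟨true,0,⟨0,[(11,0),(37,0)]⟩,⟨0,[(1,0),(31,0)]⟩⟩ ⟨false,0,⟨6,[(2,0),(0,2),(3,2),(8,0),(16,3),(2,
  2)]⟩,⟨1,[(32,0),(18,0)]⟩⟩ ⟨true,0,⟨1,[(19,0),(13,1),(3,0),(1,0)]⟩,⟨0,[(1,0)]⟩⟩,.o ⟨false,1,⟨5,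
  [(11,3),(0,0),(26,1),(4,1),(6,2)]⟩,⟨0,[(35,0),(13,0)]⟩⟩,.o ⟨false,1,⟨9,[(1,3),(0,1),(3,1),(0,1),
  (23,0),(0,3),(11,2),(5,1)]⟩,⟨2,[(5,1),(27,0),(2,0),(0,1),(1,0),(7,0)]⟩⟩,.e ⟨false,0,⟨0,[(3,0),(18,
  0)]⟩,⟨1,[(32,0),(6,0),(0,0),(10,0)]⟩⟩ ⟨false,1,⟨5,[(11,3),(0,0),(20,5),(5,1),(4,1),(6,2)]⟩,⟨0,[(1,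
  0)]⟩⟩]⟩) (.R ⟨0,false,false,true,[1,0,0,-1],[1,0,-1],[1,1],(⟨0,[(33,0)]⟩,⟨0,[(34,0)]⟩),(⟨0,[(42,
  0)]⟩,⟨0,[(43,0)]⟩),⟨0,[(0,0)]⟩,.k,.k,(.x (-1) ⟨15,[(17,3),(5,3),(7,6),(0,6),(11,1)]⟩ ⟨0,[(46,
  0)]⟩),.k,.k,.k,⟨false,1,⟨31,[(11,7),(0,10),(2,5),(3,1),(9,1),(1,6),(0,6),(11,0)]⟩,⟨0,[(41,0)]⟩⟩,
  ⟨true,0,⟨0,[(33,0),(2,0)]⟩,⟨5,[(0,3),(16,0),(5,0),(6,2),(3,1)]⟩⟩,⟨false,1,⟨3,[(31,0),(0,2)]⟩,⟨2,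
  [(3,1),(2,0),(15,1),(10,0),(2,0),(2,0),(7,0)]⟩⟩,⟨true,0,⟨0,[(4,0),(0,0),(23,0),(7,0),(11,0)]⟩,⟨0,
  [(6,0),(30,0)]⟩⟩,⟨false,0,⟨0,[]⟩,⟨0,[]⟩⟩,⟨false,0,⟨0,[]⟩,⟨0,[]⟩⟩,[.o ⟨false,0,⟨0,[(35,0)]⟩,⟨5,
  [(11,1),(0,1),(26,3),(4,0),(6,2)]⟩⟩,.a ⟨true,0,⟨4,[(1,1),(7,0),(4,0),(18,1),(4,0)]⟩,⟨0,[(11,0),
  (37,1)]⟩⟩ ⟨true,0,⟨0,[]⟩,⟨1,[(39,0),(0,0)]⟩⟩ ⟨false,0,⟨0,[(5,0)]⟩,⟨1,[(7,1),(24,0),(18,0)]⟩⟩,.o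
  ⟨false,1,⟨9,[(1,3),(0,1),(3,1),(0,1),(23,0),(0,3),(11,2),(5,1)]⟩,⟨2,[(5,1),(27,0),(2,0),(0,1),(1,
  0),(7,0)]⟩⟩,.e ⟨false,1,⟨3,[(31,0),(0,0),(17,1)]⟩,⟨3,[(39,0),(0,0),(6,1)]⟩⟩ ⟨false,0,⟨0,[(5,0)]⟩,
  ⟨7,[(7,3),(4,0),(9,1),(9,1),(1,3),(4,3),(11,4)]⟩⟩]⟩)) (.R ⟨1,false,false,false,[1,0,0,-1],[0,1,1],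
  [1,1,0,0,0,0,0,0,-1],(⟨0,[(32,0)]⟩,⟨0,[(33,0)]⟩),(⟨0,[(42,0),(2,0)]⟩,⟨0,[(27,0)]⟩),⟨3,[(0,0),(3,
  0),(11,0),(5,0),(9,1),(15,0)]⟩,.k,.k,(.x (-1) ⟨15,[(16,3),(5,3),(7,6),(0,6),(11,1)]⟩ ⟨0,[(45,
  0)]⟩),(.r 0 ⟨3,[(2,3),(35,0),(0,0),(6,1)]⟩ ⟨3,[(18,1),(11,0),(0,2),(4,1),(2,1)]⟩),(.r (-1) ⟨3,[(2,
  3),(27,0),(0,0),(16,3),(1,1)]⟩ ⟨0,[(3,0),(6,0),(14,0),(10,0)]⟩),.k,⟨false,0,⟨0,[(2,0)]⟩,⟨3,[(21,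
  3),(8,0),(0,2)]⟩⟩,⟨true,0,⟨1,[(0,0),(3,0),(24,0),(18,0)]⟩,⟨0,[(33,0),(1,0)]⟩⟩,⟨false,0,⟨0,[]⟩,⟨3,
  [(30,0),(0,0),(18,1)]⟩⟩,⟨false,1,⟨7,[(0,3),(20,3),(8,0),(0,4),(0,3),(5,3),(11,1)]⟩,⟨0,[(5,0),(28,
  0),(13,0)]⟩⟩,⟨true,0,⟨0,[(47,0)]⟩,⟨0,[(48,0)]⟩⟩,⟨false,1,⟨7,[(0,7),(2,3),(14,3),(11,2),(0,4)]⟩,⟨0,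
  [(5,0),(28,0),(13,1)]⟩⟩,[.e ⟨false,0,⟨16,[(0,2),(0,1),(0,8),(3,5),(8,1),(9,5),(6,4),(5,2)]⟩,⟨1,
  [(31,0),(18,0)]⟩⟩ ⟨false,0,⟨0,[(0,0)]⟩,⟨39,[(2,7),(0,7),(9,11),(3,15),(12,8),(0,8),(1,39),(9,5),
  (4,15)]⟩⟩,.o ⟨false,1,⟨5,[(10,3),(0,0),(26,1),(4,1),(6,2)]⟩,⟨0,[(34,0),(13,0)]⟩⟩,.o ⟨false,1,⟨1,
  [(33,1),(9,0),(5,0)]⟩,⟨1,[(0,0),(3,0),(30,0),(2,0),(9,0)]⟩⟩,.a ⟨true,0,⟨0,[(33,0)]⟩,⟨0,[(32,0)]⟩⟩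
  ⟨false,0,⟨1,[(0,0),(1,0),(2,0),(29,0)]⟩,⟨1,[(31,0),(6,0),(0,0),(10,0)]⟩⟩ ⟨true,0,⟨0,[(0,0)]⟩,⟨0,
  [(33,0),(0,0),(13,0)]⟩⟩]⟩))) (.Q [0,1,1,-1,0,0,0,0,1,0,0,-1] (.p false [0,0,0,1] [] (⟨0,[(31,0)]⟩,
  ⟨0,[(30,0)]⟩) .k 0 (⟨0,[]⟩,⟨0,[]⟩) .k .k) (.R ⟨2,false,false,true,[0,1],[0,0,0,1],[1],(⟨0,[]⟩,⟨0,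
  []⟩),(⟨0,[(32,0)]⟩,⟨0,[(31,0)]⟩),⟨0,[]⟩,.k,.k,.k,(.r 0 ⟨21,[(3,2),(0,8),(0,12),(2,6),(8,3),(6,11),
  (6,18),(5,27)]⟩ ⟨4,[(2,0),(13,0),(2,1),(8,0),(1,1),(5,0),(10,1)]⟩),.k,.k,⟨true,0,⟨0,[(3,0),(1,0),
  (39,0)]⟩,⟨2,[(0,1),(1,0),(19,0),(4,0),(4,1)]⟩⟩,⟨false,0,⟨2,[(3,1),(27,0),(2,0),(0,1),(1,0),(7,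
  0)]⟩,⟨0,[(32,0),(15,0)]⟩⟩,⟨false,1,⟨1,[(19,0),(19,0),(7,0),(1,0)]⟩,⟨11,[(6,0),(1,0),(8,1),(19,5),
  (0,3),(7,2)]⟩⟩,⟨true,0,⟨0,[(0,0)]⟩,⟨14,[(4,6),(0,7),(0,2),(1,2),(27,1)]⟩⟩,⟨false,1,⟨1,[(48,0),(0,
  0)]⟩,⟨1,[(37,0),(0,0)]⟩⟩,⟨false,1,⟨11,[(0,11),(5,3),(22,2),(0,2),(11,1),(6,3)]⟩,⟨0,[(4,0)]⟩⟩,[.e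
  ⟨true,0,⟨0,[]⟩,⟨1,[(37,0),(0,0)]⟩⟩ ⟨true,0,⟨3,[(0,2),(0,0),(12,0),(16,0),(5,1),(0,0),(7,0)]⟩,⟨0,
  [(4,0)]⟩⟩,.a ⟨true,0,⟨0,[(0,0),(6,0),(39,0)]⟩,⟨2,[(4,1),(0,0),(30,0)]⟩⟩ ⟨false,1,⟨1,[(48,0),(0,
  0)]⟩,⟨0,[(51,0)]⟩⟩ ⟨true,0,⟨1,[(0,0),(0,0),(1,0),(33,0)]⟩,⟨2,[(4,1),(0,0),(30,0)]⟩⟩,.o ⟨false,1,
  ⟨3,[(29,0),(0,0),(17,1)]⟩,⟨0,[(25,0),(8,0),(0,0)]⟩⟩,.e ⟨false,1,⟨1,[(48,0),(0,0)]⟩,⟨1,[(37,0),(0,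
  0)]⟩⟩ ⟨false,1,⟨11,[(0,11),(5,3),(22,2),(0,2),(11,1),(6,3)]⟩,⟨0,[(4,0)]⟩⟩]⟩) (.I [0,1,-1,-2,0,0,0,
  1,-1] (.Q [0,0,0,-1,0,0,1,1,0,0,-1,1] (.p false [0,0,1] [0,0,0,1] (⟨0,[(42,0)]⟩,⟨0,[(41,0)]⟩) .k
  2 (⟨0,[(33,0)]⟩,⟨0,[(32,0)]⟩) .k (.r 0 ⟨16,[(0,12),(0,3),(2,0),(4,1),(8,8),(6,0),(6,2),(5,6)]⟩ ⟨3,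
  [(30,0),(0,2),(8,3)]⟩)) (.R ⟨1,false,false,false,[1,0,0,-1],[1,1,-1],[0,1,0,-1,0,0,0,0,-1],(⟨0,
  [(33,0)]⟩,⟨0,[(34,0)]⟩),(⟨0,[(42,0),(3,0)]⟩,⟨1,[(17,0),(25,0)]⟩),⟨11,[(1,3),(1,3),(1,8),(2,0),(14,
  7),(0,0),(0,3),(7,2)]⟩,.k,.k,(.x (-1) ⟨15,[(17,3),(5,3),(7,6),(0,6),(11,1)]⟩ ⟨0,[(46,0)]⟩),(.r
  (-1) ⟨1,[(12,0),(18,0)]⟩ ⟨0,[(4,0),(43,0)]⟩),(.r (-1) ⟨5,[(1,3),(19,3),(5,1),(3,0),(19,0)]⟩ ⟨5,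
  [(3,1),(0,3),(3,0),(1,0),(27,1),(0,3),(8,4)]⟩),.k,⟨true,0,⟨0,[(1,0)]⟩,⟨23,[(3,7),(0,15),(3,6),(1,
  6),(27,1),(0,15),(8,4)]⟩⟩,⟨false,1,⟨19,[(15,11),(10,3),(4,2),(0,2),(0,19),(10,1)]⟩,⟨0,[(4,0),(2,
  0)]⟩⟩,⟨false,0,⟨0,[(49,0)]⟩,⟨11,[(8,3),(22,2),(0,2),(11,1),(6,3)]⟩⟩,⟨false,1,⟨17,[(3,5),(0,5),(0,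
  17),(2,3),(22,5),(0,8),(11,1),(6,0)]⟩,⟨2,[(0,0),(0,0),(4,1),(20,0),(9,1)]⟩⟩,⟨true,0,⟨0,[(53,0)]⟩,
  ⟨0,[]⟩⟩,⟨false,1,⟨11,[(3,3),(0,3),(0,3),(2,3),(1,3),(20,2),(0,4),(0,7),(10,3)]⟩,⟨2,[(0,1),(0,1),
  (4,0),(20,1),(9,0)]⟩⟩,[.a ⟨true,0,⟨2,[(8,0),(5,0),(23,0)]⟩,⟨0,[(0,0),(32,0)]⟩⟩ ⟨false,0,⟨2,[(1,1),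
  (3,0),(1,0),(5,0),(16,0)]⟩,⟨5,[(8,1),(23,2),(11,0),(6,1)]⟩⟩ ⟨true,0,⟨1,[(10,0),(22,1),(2,0),(2,
  0)]⟩,⟨0,[(0,0)]⟩⟩,.o ⟨false,1,⟨7,[(10,3),(20,0),(0,0),(11,1),(6,3)]⟩,⟨1,[(1,0),(2,0),(32,1)]⟩⟩,.o
  ⟨false,1,⟨1,[(34,1),(9,0),(5,0)]⟩,⟨2,[(5,1),(27,0),(2,0),(0,1),(1,0),(7,0)]⟩⟩,.e ⟨false,0,⟨3,[(1,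
  2),(0,0),(2,0),(18,0),(2,2)]⟩,⟨17,[(3,5),(0,5),(3,3),(22,5),(0,8),(11,1),(6,0)]⟩⟩ ⟨false,1,⟨11,
  [(5,11),(2,3),(22,2),(0,2),(11,1),(6,3)]⟩,⟨0,[(0,0)]⟩⟩]⟩) (.R ⟨1,false,false,false,[1,0,0,-1],[1,
  1,-1],[0,1,0,-1,0,0,0,0,-1],(⟨0,[(33,0)]⟩,⟨0,[(34,0)]⟩),(⟨0,[(42,0),(3,0)]⟩,⟨1,[(17,0),(25,0)]⟩),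
  ⟨2,[(0,0),(0,0),(1,0),(1,0),(17,1),(1,0),(7,0)]⟩,.k,.k,(.x (-1) ⟨15,[(17,3),(5,3),(7,6),(0,6),(11,
  1)]⟩ ⟨0,[(46,0)]⟩),(.r (-1) ⟨1,[(12,0),(18,0)]⟩ ⟨0,[(4,0),(43,0)]⟩),(.r (-1) ⟨5,[(1,3),(19,3),(5,
  1),(3,0),(19,0)]⟩ ⟨5,[(3,1),(0,3),(3,0),(1,0),(27,1),(0,3),(8,4)]⟩),.k,⟨true,0,⟨0,[(1,0)]⟩,⟨23,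
  [(3,7),(0,15),(3,6),(1,6),(27,1),(0,15),(8,4)]⟩⟩,⟨false,1,⟨19,[(15,11),(10,3),(4,2),(0,2),(0,19),
  (10,1)]⟩,⟨0,[(4,0),(2,0)]⟩⟩,⟨false,0,⟨0,[(49,0)]⟩,⟨11,[(8,3),(22,2),(0,2),(11,1),(6,3)]⟩⟩,⟨false,
  1,⟨5,[(0,3),(2,1),(0,1),(0,1),(25,1),(0,2),(18,0)]⟩,⟨1,[(1,0),(2,0),(1,1),(30,1)]⟩⟩,⟨true,0,⟨0,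
  [(53,0)]⟩,⟨0,[]⟩⟩,⟨false,1,⟨17,[(0,17),(2,5),(0,5),(3,3),(22,5),(0,8),(11,1),(6,0)]⟩,⟨0,[(1,0),(2,
  0),(1,0),(30,0)]⟩⟩,[.e ⟨false,0,⟨4,[(0,0),(0,3),(5,0),(5,1),(16,1)]⟩,⟨5,[(8,1),(23,2),(11,0),(6,
  1)]⟩⟩ ⟨false,0,⟨0,[(0,0)]⟩,⟨7,[(12,3),(17,3),(0,0),(0,0),(1,7),(9,1)]⟩⟩,.o ⟨false,1,⟨7,[(10,3),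
  (20,0),(0,0),(11,1),(6,3)]⟩,⟨1,[(1,0),(2,0),(32,1)]⟩⟩,.o ⟨false,1,⟨1,[(34,1),(9,0),(5,0)]⟩,⟨2,[(5,
  1),(27,0),(2,0),(0,1),(1,0),(7,0)]⟩⟩,.a ⟨true,0,⟨0,[(34,0)]⟩,⟨0,[(33,0)]⟩⟩ ⟨false,0,⟨4,[(0,0),(0,
  3),(0,0),(21,0),(2,3)]⟩,⟨17,[(3,5),(0,5),(3,3),(22,5),(0,8),(11,1),(6,0)]⟩⟩ ⟨true,0,⟨0,[(0,0)]⟩,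
  ⟨1,[(1,0),(2,0),(29,1),(2,1)]⟩⟩]⟩)) (.Q [0,0,0,0,0,-1,0,0,0,1,0,-1] (.ed true [0,1,0,1] .k) (.K
  ⟨1,[1,-1,0,-1],0,0,(⟨0,[(0,0)]⟩,⟨0,[(34,0),(11,0)]⟩),(.x (-1) ⟨15,[(17,3),(5,3),(7,6),(0,6),(11,
  1)]⟩ ⟨0,[(46,0)]⟩),(.r (-1) ⟨23,[(5,2),(0,6),(0,4),(10,17),(11,8),(0,5),(1,8),(4,1),(10,29)]⟩ ⟨2,
  [(1,0),(1,1),(34,0),(0,0),(8,1)]⟩),.k,.k,.k,[⟨1,[(33,1),(5,0),(0,0)]⟩,⟨0,[(4,0),(2,0),(28,0)]⟩,⟨0,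
  [(4,0),(24,0),(3,0),(3,0)]⟩,⟨0,[(6,0),(42,0)]⟩]⟩) (.K ⟨2,[-1,1,0,1],0,0,(⟨0,[(0,0)]⟩,⟨0,[(33,0),
  (11,0)]⟩),(.x 0 ⟨0,[(46,0)]⟩ ⟨15,[(17,3),(5,3),(7,6),(0,6),(11,1)]⟩),.k,(.r 0 ⟨2,[(1,0),(1,1),(34,
  0),(0,0),(8,1)]⟩ ⟨23,[(5,2),(0,6),(0,4),(10,17),(11,8),(0,5),(1,8),(4,1),(10,29)]⟩),(.r 0 ⟨1,[(1,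
  0),(2,0),(48,1)]⟩ ⟨1,[(12,0),(18,0)]⟩),(.r (-1) ⟨13,[(3,7),(8,0),(11,3),(4,3),(1,4),(0,7)]⟩ ⟨0,
  [(5,0),(1,0),(19,0),(21,0)]⟩),[⟨0,[(0,2),(4,1),(16,0),(0,1),(1,0),(11,0),(11,0)]⟩,⟨1,[(30,0),(2,
  2),(0,0)]⟩,⟨5,[(0,3),(16,0),(5,0),(10,1),(1,2),(2,2)]⟩,⟨1,[(33,1),(5,0),(0,0)]⟩,⟨0,[(6,0),(28,0),
  (1,0),(11,0)]⟩,⟨0,[(4,0),(24,0),(3,0),(3,0)]⟩]⟩)))))))))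

theorem ok176 : chk (cU (-1) true 10) t176 r101 = true := by decide +kernel

noncomputable def t200 : Tre :=
  (.Q [0,-1,0,-1,0,0,1,1,0,1,-1] (.p false [0,0,1] [1] (⟨0,[(25,0)]⟩,⟨0,[(24,0)]⟩) .k 1 (⟨0,[]⟩,⟨0,
  []⟩) .k .k) (.R ⟨2,false,false,true,[0,1],[1,1,-1],[0,1,2,1,0,0,0,-1],(⟨0,[]⟩,⟨0,[]⟩),(⟨0,[(25,0),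
  (3,0)]⟩,⟨0,[(6,0),(1,0),(0,0)]⟩),⟨0,[]⟩,.k,.k,.k,.k,.k,.k,⟨true,0,⟨1,[(22,0),(0,0)]⟩,⟨0,[]⟩⟩,
  ⟨false,1,⟨3,[(9,1),(17,0),(5,2)]⟩,⟨21,[(0,1),(0,1),(6,3),(4,5),(0,0),(0,0),(5,1),(3,7),(2,3)]⟩⟩,
  ⟨false,0,⟨2,[(21,1),(0,1),(1,0),(5,0)]⟩,⟨2,[(2,0),(1,1),(29,0)]⟩⟩,⟨true,0,⟨0,[(18,0)]⟩,⟨3,[(0,2),
  (6,0),(4,1),(0,0)]⟩⟩,⟨false,0,⟨15,[(1,7),(1,3),(10,0),(0,0),(5,3),(2,7),(2,3),(6,1)]⟩,⟨9,[(0,3),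
  (3,5),(4,1),(17,0),(6,2)]⟩⟩,⟨false,1,⟨7,[(3,3),(10,0),(0,0),(5,3),(5,3),(6,1)]⟩,⟨0,[(0,0)]⟩⟩,[.e
  ⟨true,(-1),⟨0,[(1,0),(16,0)]⟩,⟨9,[(0,3),(3,5),(4,1),(17,0),(6,2)]⟩⟩ ⟨true,0,⟨4,[(1,1),(1,0),(5,0),
  (8,1),(2,1),(5,1),(3,0)]⟩,⟨0,[(0,0)]⟩⟩,.a ⟨true,0,⟨0,[(10,0),(1,0)]⟩,⟨0,[(0,0),(35,0)]⟩⟩ ⟨false,0,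
  ⟨15,[(1,7),(1,3),(10,0),(0,0),(5,3),(2,7),(2,3),(6,1)]⟩,⟨0,[(4,0)]⟩⟩ ⟨true,0,⟨4,[(1,0),(1,1),(6,
  0),(7,0),(0,2),(4,0),(2,0)]⟩,⟨0,[(0,0),(35,0)]⟩⟩,.o ⟨false,1,⟨3,[(14,0),(0,0),(17,1)]⟩,⟨0,[(10,0),
  (8,0),(0,0)]⟩⟩,.e ⟨false,0,⟨15,[(1,7),(1,3),(10,0),(0,0),(5,3),(2,7),(2,3),(6,1)]⟩,⟨9,[(0,3),(3,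
  5),(4,1),(17,0),(6,2)]⟩⟩ ⟨false,1,⟨7,[(3,3),(10,0),(0,0),(5,3),(5,3),(6,1)]⟩,⟨0,[(0,0)]⟩⟩]⟩) (.K
  ⟨0,[1,1,-1],1,0,(⟨0,[(25,0),(3,0)]⟩,⟨0,[(6,0),(1,0),(0,0)]⟩),.k,.k,(.r 0 ⟨7,[(1,7),(1,3),(10,0),
  (0,0),(5,3),(5,3),(6,1)]⟩ ⟨0,[(4,0),(27,0)]⟩),.k,.k,[⟨0,[(1,0),(30,0)]⟩,⟨0,[(4,0),(5,0),(1,0)]⟩,
  ⟨0,[(1,0),(2,0),(27,0),(3,0)]⟩,⟨0,[(0,0)]⟩]⟩))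

theorem ok200 : chk (cU (-1) true 10) t200 r91 = true := by decide +kernel

end Helper11.CT.Tm1_34_m1_m1_u
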