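import Pool.Agent.Helper11.CT.T.Tm1_34_m1_m1_u_q

set_option autoImplicit false
set_option linter.all false

namespace Helper11.CT.Tm1_34_m1_m1_u

open Helper11.CT

noncomputable def t9 : Tre :=
  (.R ⟨0,false,false,true,[1,0,-1],[0,1],[0,1,1],(⟨0,[(21,0)]⟩,⟨0,[(22,0)]⟩),(⟨0,[(25,0)]⟩,⟨0,[(24,
  0)]⟩),⟨0,[(7,0)]⟩,.k,.k,.k,.k,.k,.k,⟨true,0,⟨0,[(28,0)]⟩,⟨3,[(18,0),(0,0),(6,1),(0,3)]⟩⟩,⟨false,1,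
  ⟨1,[(9,0),(2,0),(0,0),(15,1)]⟩,⟨0,[(15,0)]⟩⟩,⟨false,0,⟨1,[(1,0),(3,0),(10,0),(2,0),(6,0)]⟩,⟨1,
  [(20,1),(8,0),(0,0)]⟩⟩,⟨true,0,⟨0,[(1,0)]⟩,⟨0,[(5,0),(14,0)]⟩⟩,⟨false,0,⟨0,[]⟩,⟨0,[]⟩⟩,⟨false,0,
  ⟨0,[]⟩,⟨0,[]⟩⟩,[.o ⟨false,0,⟨0,[(27,0)]⟩,⟨1,[(23,0),(4,1),(1,0)]⟩⟩,.o ⟨false,1,⟨3,[(10,0),(0,0),
  (15,3),(2,1)]⟩,⟨0,[(4,0)]⟩⟩,.a ⟨true,0,⟨0,[(0,0)]⟩,⟨1,[(9,0),(2,0),(0,0)]⟩⟩ ⟨false,0,⟨1,[(18,0),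
  (0,0)]⟩,⟨1,[(29,0),(0,0)]⟩⟩ ⟨true,0,⟨0,[(1,0),(18,0)]⟩,⟨0,[(5,0)]⟩⟩,.o ⟨false,0,⟨0,[(15,0)]⟩,⟨7,
  [(9,3),(0,0),(0,0),(11,1),(5,3)]⟩⟩]⟩)

theorem ok9 : chk (cU (-1) true 10) t9 l9 = true := by decide +kernel

noncomputable def t66 : Tre :=
  (.Q [0,0,0,1,0,0,0,0,0,1] (.pp false [-1,1]) (.R ⟨0,false,false,true,[0,1,-1],[0,1],[1,1],(⟨0,[(1,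
  0)]⟩,⟨0,[(25,0),(1,0)]⟩),(⟨0,[(28,0)]⟩,⟨0,[(27,0)]⟩),⟨0,[(25,0)]⟩,.k,.k,.k,.k,.k,.k,⟨false,1,⟨0,
  [(31,0),(0,0)]⟩,⟨2,[(0,1),(4,0),(12,1),(2,0)]⟩⟩,⟨true,0,⟨0,[(5,0),(25,0)]⟩,⟨0,[(22,0)]⟩⟩,⟨false,1,
  ⟨1,[(2,0),(16,0),(2,0),(8,2),(0,1)]⟩,⟨0,[(5,0),(14,0),(8,0)]⟩⟩,⟨true,0,⟨0,[(19,0)]⟩,⟨0,[(9,0),(1,
  0),(19,0)]⟩⟩,⟨false,0,⟨0,[]⟩,⟨0,[]⟩⟩,⟨false,0,⟨0,[]⟩,⟨0,[]⟩⟩,[.o ⟨false,0,⟨0,[(30,0)]⟩,⟨1,[(26,0),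
  (4,1),(1,0)]⟩⟩,.a ⟨true,0,⟨0,[(0,0)]⟩,⟨0,[(31,0)]⟩⟩ ⟨true,0,⟨0,[]⟩,⟨1,[(21,0),(0,0)]⟩⟩ ⟨false,0,
  ⟨0,[(5,0)]⟩,⟨0,[(22,0),(8,0),(0,0)]⟩⟩,.o ⟨false,1,⟨0,[(22,0),(9,0)]⟩,⟨0,[(5,1),(12,0),(12,1)]⟩⟩,
  .e ⟨false,1,⟨3,[(13,0),(0,0),(17,1)]⟩,⟨3,[(21,0),(0,0),(6,1)]⟩⟩ ⟨false,0,⟨0,[(5,0)]⟩,⟨1,[(22,1),
  (8,1),(0,0),(0,0)]⟩⟩]⟩) (.I [1,0,-1,0,1,0,0,1,1] (.I [1,-1,-2,-1,1,0,0,0,-1] (.Q [0,0,0,0,0,1,0,0,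
  0,-1,0,1] (.ed false [0,1,0,1] .k) (.I [0,0,1,0,0,0,0,0,1] (.Q [0,1,-1,0,0,0,0,0,-1,0,0,1] (.p
  true [0,0,0,1] [] (⟨0,[(20,0)]⟩,⟨0,[(19,0)]⟩) .k 0 (⟨0,[]⟩,⟨0,[]⟩) .k .k) (.K ⟨0,[0,0,0,1],0,0,
  (⟨0,[(21,0)]⟩,⟨0,[(20,0)]⟩),.k,(.r (-1) ⟨1,[(19,0),(16,1),(0,0)]⟩ ⟨1,[(0,1),(9,1),(2,0),(6,1),(2,
  0),(2,0),(7,0)]⟩),(.x 0 ⟨0,[(33,0)]⟩ ⟨7,[(8,3),(9,2),(0,2),(10,3),(0,1)]⟩),.k,.k,[⟨0,[(21,0)]⟩,⟨0,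
  [(20,0)]⟩,⟨0,[(0,0)]⟩,⟨1,[(1,1),(3,0),(3,0),(10,1),(1,0)]⟩]⟩) (.R ⟨0,false,false,true,[1,0,0,-1],
  [0,1],[1,0,0,0,0,0,0,0,-1],(⟨0,[(20,0)]⟩,⟨0,[(21,0)]⟩),(⟨0,[(33,0)]⟩,⟨0,[(32,0)]⟩),⟨0,[(2,0)]⟩,.k,
  .k,(.x (-1) ⟨7,[(8,3),(9,2),(0,2),(10,3),(0,1)]⟩ ⟨0,[(33,0)]⟩),(.x (-1) ⟨7,[(8,3),(9,2),(0,2),(10,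
  3),(0,1)]⟩ ⟨0,[(33,0)]⟩),.k,.k,⟨false,1,⟨0,[(3,0)]⟩,⟨0,[(1,0),(33,0)]⟩⟩,⟨true,0,⟨0,[(20,0)]⟩,⟨2,
  [(5,0),(4,0),(10,2),(1,1),(2,0)]⟩⟩,⟨true,0,⟨0,[]⟩,⟨0,[(40,0)]⟩⟩,⟨false,0,⟨1,[(0,0),(0,0),(9,0),(4,
  0),(3,0)]⟩,⟨10,[(3,6),(1,5),(4,1),(2,0),(4,1),(2,10),(9,1),(2,1)]⟩⟩,⟨false,0,⟨0,[]⟩,⟨0,[]⟩⟩,
  ⟨false,0,⟨0,[]⟩,⟨0,[]⟩⟩,[.o ⟨false,0,⟨0,[(35,0)]⟩,⟨3,[(5,3),(12,0),(0,0),(18,1)]⟩⟩,.o ⟨false,1,⟨3,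
  [(18,0),(0,0),(15,3),(2,1)]⟩,⟨0,[(5,0)]⟩⟩,.o ⟨false,1,⟨1,[(21,1),(9,0),(5,0)]⟩,⟨2,[(5,0),(4,0),(9,
  2),(2,1),(2,0)]⟩⟩,.a ⟨true,0,⟨0,[(21,0)]⟩,⟨0,[(20,0)]⟩⟩ ⟨false,1,⟨8,[(3,4),(3,0),(2,1),(3,0),(1,
  1),(1,1),(19,1)]⟩,⟨0,[(1,0)]⟩⟩ ⟨true,0,⟨0,[(20,0),(14,0)]⟩,⟨0,[(5,0),(15,0)]⟩⟩]⟩)) (.Q [0,0,-1,0,
  0,0,1,1,-1,0,-1,1] (.p false [0,0,1] [0,0,0,1] (⟨0,[(29,0)]⟩,⟨0,[(28,0)]⟩) .k 2 (⟨0,[(20,0)]⟩,⟨0,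
  [(19,0)]⟩) .k (.r 0 ⟨1,[(0,1),(5,0),(16,0),(2,0),(8,0)]⟩ ⟨3,[(17,0),(0,2),(8,3)]⟩)) (.R ⟨0,false,
  false,false,[1,0,0,-1],[1,0,-1],[0,1,0,0,0,0,0,0,-1],(⟨0,[(20,0)]⟩,⟨0,[(21,0)]⟩),(⟨0,[(29,0)]⟩,⟨0,
  [(30,0)]⟩),⟨0,[(2,0)]⟩,.k,.k,(.x (-1) ⟨7,[(8,3),(9,2),(0,2),(10,3),(0,1)]⟩ ⟨0,[(33,0)]⟩),.k,.k,.k,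
  ⟨false,0,⟨0,[(0,0),(4,0),(10,0),(3,0)]⟩,⟨1,[(19,0),(8,1),(9,0)]⟩⟩,⟨true,0,⟨0,[(20,0),(2,0)]⟩,⟨2,
  [(5,0),(4,0),(6,0),(3,2)]⟩⟩,⟨true,0,⟨0,[(40,0)]⟩,⟨0,[]⟩⟩,⟨false,1,⟨1,[(19,0),(0,1),(2,1),(4,1),(9,
  0)]⟩,⟨0,[(0,0)]⟩⟩,⟨false,0,⟨0,[]⟩,⟨0,[]⟩⟩,⟨false,0,⟨0,[]⟩,⟨0,[]⟩⟩,[.o ⟨false,0,⟨0,[(5,0),(8,0),(1,
  0)]⟩,⟨3,[(18,0),(0,0),(4,3),(13,1)]⟩⟩,.o ⟨false,1,⟨0,[(22,0),(15,0)]⟩,⟨0,[(24,0)]⟩⟩,.o ⟨false,1,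
  ⟨1,[(21,1),(9,0),(5,0)]⟩,⟨2,[(5,0),(4,0),(9,2),(2,1),(2,0)]⟩⟩,.a ⟨true,0,⟨0,[(21,0)]⟩,⟨0,[(20,
  0)]⟩⟩ ⟨false,0,⟨0,[(0,0),(4,0),(8,0),(1,0),(3,0)]⟩,⟨1,[(19,0),(6,0),(0,0),(10,0)]⟩⟩ ⟨true,0,⟨0,
  [(5,0),(8,0),(1,0),(3,0)]⟩,⟨0,[(21,0),(2,0)]⟩⟩]⟩) (.K ⟨0,[0,0,0,1],0,0,(⟨0,[(21,0)]⟩,⟨0,[(20,
  0)]⟩),.k,(.r (-1) ⟨1,[(19,0),(16,1),(0,0)]⟩ ⟨0,[(1,0),(9,0),(1,0),(12,0)]⟩),(.x 0 ⟨0,[(33,0)]⟩ ⟨7,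
  [(8,3),(9,2),(0,2),(10,3),(0,1)]⟩),.k,.k,[⟨0,[(21,0)]⟩,⟨0,[(20,0)]⟩,⟨0,[(1,0),(19,0),(18,0)]⟩,⟨0,
  [(0,0),(23,0)]⟩]⟩))) (.Q [0,0,1,2,0,0,0,0,1,1,0,-1] (.p false [0,0,0,1] [1] (⟨0,[(19,0)]⟩,⟨0,[(18,
  0)]⟩) .k 1 (⟨0,[]⟩,⟨0,[]⟩) .k .k) (.R ⟨1,false,false,true,[1,0,0,-1],[0,1],[1,0,0,0,0,0,0,0,-1],
  (⟨0,[(19,0)]⟩,⟨0,[(20,0)]⟩),(⟨0,[(32,0)]⟩,⟨0,[(31,0)]⟩),⟨0,[(1,0)]⟩,.k,.k,(.x (-1) ⟨7,[(7,3),(9,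
  2),(0,2),(10,3),(0,1)]⟩ ⟨0,[(32,0)]⟩),(.x (-1) ⟨7,[(7,3),(9,2),(0,2),(10,3),(0,1)]⟩ ⟨0,[(32,0)]⟩),
  (.r (-1) ⟨0,[(2,0),(32,0),(3,0)]⟩ ⟨2,[(0,2),(3,0),(4,0),(10,2),(1,1),(2,0)]⟩),.k,⟨false,1,⟨0,[(2,
  0)]⟩,⟨0,[(0,0),(3,0),(15,0),(18,0)]⟩⟩,⟨true,0,⟨0,[(19,0)]⟩,⟨2,[(4,0),(4,0),(10,2),(1,1),(2,0)]⟩⟩,
  ⟨true,0,⟨0,[]⟩,⟨0,[(39,0)]⟩⟩,⟨false,0,⟨0,[(0,0),(34,0)]⟩,⟨10,[(2,6),(1,5),(4,1),(2,0),(4,1),(2,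
  10),(9,1),(2,1)]⟩⟩,⟨false,1,⟨0,[(34,0),(2,0)]⟩,⟨0,[(35,0)]⟩⟩,⟨false,0,⟨0,[(0,0)]⟩,⟨3,[(2,1),(1,3),
  (12,0),(2,3),(14,1),(1,0)]⟩⟩,[.o ⟨false,0,⟨0,[(34,0)]⟩,⟨3,[(4,3),(12,0),(0,0),(18,1)]⟩⟩,.o ⟨false,
  1,⟨3,[(17,0),(0,0),(15,3),(2,1)]⟩,⟨0,[(4,0)]⟩⟩,.o ⟨false,1,⟨1,[(20,1),(9,0),(5,0)]⟩,⟨2,[(4,0),(4,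
  0),(9,2),(2,1),(2,0)]⟩⟩,.a ⟨true,0,⟨0,[(20,0)]⟩,⟨0,[(19,0)]⟩⟩ ⟨false,1,⟨8,[(2,4),(3,0),(2,1),(3,
  0),(1,1),(1,1),(19,1)]⟩,⟨0,[(0,0),(3,0),(15,0),(14,0)]⟩⟩ ⟨true,0,⟨0,[(19,0),(14,0)]⟩,⟨0,[(4,0),
  (15,0)]⟩⟩]⟩) (.I [0,0,-1,-1,0,0,0,1,-1] (.R ⟨1,false,false,false,[1,0,0,-1],[1,0,-1],[0,0,0,-1,0,
  0,0,0,-1],(⟨0,[(20,0)]⟩,⟨0,[(21,0)]⟩),(⟨0,[(29,0)]⟩,⟨0,[(30,0)]⟩),⟨0,[(2,0)]⟩,.k,.k,(.x (-1) ⟨7,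
  [(8,3),(9,2),(0,2),(10,3),(0,1)]⟩ ⟨0,[(33,0)]⟩),.k,(.r 0 ⟨0,[(0,0)]⟩ ⟨5,[(10,3),(0,1),(1,1),(5,2),
  (5,5),(0,3),(11,2)]⟩),.k,⟨false,0,⟨0,[(0,0)]⟩,⟨1,[(10,1),(8,0),(5,1),(12,0)]⟩⟩,⟨true,0,⟨0,[(20,0),
  (2,0)]⟩,⟨2,[(5,0),(4,0),(6,0),(3,2)]⟩⟩,⟨true,0,⟨0,[(36,0)]⟩,⟨0,[(35,0)]⟩⟩,⟨false,1,⟨1,[(19,0),(0,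
  1),(2,1),(4,1),(9,0)]⟩,⟨0,[(0,0),(9,0),(10,0)]⟩⟩,⟨false,1,⟨3,[(18,0),(0,0),(18,1)]⟩,⟨0,[]⟩⟩,
  ⟨false,1,⟨1,[(10,1),(2,1),(5,0),(0,1),(7,1),(9,0)]⟩,⟨2,[(0,2),(4,0),(4,0),(6,0),(3,2)]⟩⟩,[.o
  ⟨false,0,⟨0,[(5,0),(8,0),(1,0)]⟩,⟨3,[(18,0),(0,0),(4,3),(13,1)]⟩⟩,.o ⟨false,1,⟨0,[(22,0),(15,0)]⟩,
  ⟨0,[(24,0)]⟩⟩,.o ⟨false,1,⟨1,[(21,1),(9,0),(5,0)]⟩,⟨2,[(5,0),(4,0),(9,2),(2,1),(2,0)]⟩⟩,.a ⟨true,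
  0,⟨0,[(21,0)]⟩,⟨0,[(20,0)]⟩⟩ ⟨false,0,⟨0,[(0,0),(13,0)]⟩,⟨7,[(11,3),(1,3),(4,0),(0,4),(6,3),(8,3),
  (2,1)]⟩⟩ ⟨true,0,⟨0,[(5,0),(8,0),(1,0),(3,0)]⟩,⟨0,[(21,0),(2,0)]⟩⟩]⟩) (.Q [0,1,1,0,0,0,0,0,1,0,0,
  -1] (.p false [0,0,0,1] [] (⟨0,[(21,0)]⟩,⟨0,[(20,0)]⟩) .k 0 (⟨0,[]⟩,⟨0,[]⟩) .k .k) (.K ⟨0,[0,0,0,
  1],0,0,(⟨0,[(22,0)]⟩,⟨0,[(21,0)]⟩),.k,(.r (-1) ⟨3,[(2,1),(17,2),(0,1),(16,0)]⟩ ⟨2,[(2,2),(8,3),(0,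
  4),(1,4),(6,2),(5,0)]⟩),(.x 0 ⟨0,[(34,0)]⟩ ⟨7,[(9,3),(9,2),(0,2),(10,3),(0,1)]⟩),.k,.k,[⟨0,[(22,
  0)]⟩,⟨0,[(21,0)]⟩,⟨0,[(2,0),(9,0),(4,0)]⟩,⟨0,[(0,0)]⟩]⟩) (.R ⟨1,false,false,false,[1,0,0,-1],[1,0,
  -1],[1,1,0,0,0,0,0,0,-1],(⟨0,[(21,0)]⟩,⟨0,[(22,0)]⟩),(⟨0,[(30,0)]⟩,⟨0,[(31,0)]⟩),⟨0,[(3,0)]⟩,.k,
  .k,(.x (-1) ⟨7,[(9,3),(9,2),(0,2),(10,3),(0,1)]⟩ ⟨0,[(34,0)]⟩),.k,(.x 0 ⟨5,[(6,3),(2,2),(1,3),(6,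
  0),(12,8)]⟩ ⟨5,[(5,1),(1,3),(6,1),(4,1),(0,0),(5,1),(3,1),(3,1),(4,0)]⟩),.k,⟨false,0,⟨0,[(0,0),(5,
  0),(10,0),(3,0),(3,0)]⟩,⟨1,[(20,0),(8,1),(9,0)]⟩⟩,⟨true,0,⟨0,[(21,0),(2,0)]⟩,⟨2,[(6,0),(4,0),(6,
  0),(3,2)]⟩⟩,⟨false,0,⟨0,[]⟩,⟨3,[(19,0),(0,0),(18,1)]⟩⟩,⟨false,1,⟨11,[(1,7),(4,7),(7,3),(4,0),(0,
  2),(0,11),(4,3),(12,7)]⟩,⟨0,[(0,0),(24,0)]⟩⟩,⟨true,0,⟨0,[(36,0)]⟩,⟨0,[(37,0)]⟩⟩,⟨false,1,⟨3,[(1,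
  3),(12,1),(6,3),(10,0),(5,0),(0,1)]⟩,⟨0,[(0,0),(24,0),(11,0)]⟩⟩,[.o ⟨false,0,⟨0,[(6,0),(8,0),(1,
  0)]⟩,⟨3,[(19,0),(0,0),(4,3),(13,1)]⟩⟩,.o ⟨false,1,⟨0,[(23,0),(15,0)]⟩,⟨0,[(25,0)]⟩⟩,.o ⟨false,1,
  ⟨1,[(22,1),(9,0),(5,0)]⟩,⟨2,[(6,0),(4,0),(9,2),(2,1),(2,0)]⟩⟩,.a ⟨true,0,⟨0,[(22,0)]⟩,⟨0,[(21,
  0)]⟩⟩ ⟨false,0,⟨1,[(0,1),(5,0),(3,0),(10,1),(1,0)]⟩,⟨1,[(20,0),(6,0),(0,0),(10,0)]⟩⟩ ⟨true,0,⟨0,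
  [(6,0),(8,0),(1,0),(3,0)]⟩,⟨0,[(22,0),(2,0)]⟩⟩]⟩))))) (.Q [0,-1,-1,-1,1,0,0,0,-1,-1,0,1] (.p true
  [0,0,0,1] [1] (⟨0,[(18,0)]⟩,⟨0,[(17,0)]⟩) .k 1 (⟨0,[]⟩,⟨0,[]⟩) .k .k) (.Q [0,0,0,0,0,-1,0,0,0,1,0,
  -1] (.ed true [0,1,0,1] .k) (.I [0,0,-2,-2,1,0,0,-1,-1] (.R ⟨1,false,false,true,[1,0,0,-1],[0,1,
  1],[0,1,0,-1,0,0,0,0,-1],(⟨0,[(20,0)]⟩,⟨0,[(21,0)]⟩),(⟨0,[(30,0),(2,0)]⟩,⟨0,[(15,0)]⟩),⟨0,[(1,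
  0)]⟩,.k,.k,(.x (-1) ⟨7,[(8,3),(9,2),(0,2),(10,3),(0,1)]⟩ ⟨0,[(33,0)]⟩),(.r (-1) ⟨7,[(0,3),(17,2),
  (0,0),(8,3)]⟩ ⟨1,[(3,0),(0,0),(2,0)]⟩),(.r (-1) ⟨0,[(0,0)]⟩ ⟨7,[(3,3),(3,7),(10,0),(0,2),(15,
  3)]⟩),.k,⟨false,1,⟨0,[(0,0)]⟩,⟨0,[(3,0),(3,0),(29,0)]⟩⟩,⟨true,0,⟨2,[(5,0),(4,0),(6,0),(2,2)]⟩,⟨0,
  [(21,0),(1,0)]⟩⟩,⟨false,0,⟨0,[(36,0)]⟩,⟨0,[(35,0),(2,0)]⟩⟩,⟨false,0,⟨1,[(3,0),(0,0),(5,0),(9,1),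
  (3,0),(9,0)]⟩,⟨2,[(0,0),(1,1),(10,0),(0,1),(1,0),(4,0)]⟩⟩,⟨true,0,⟨0,[(40,0)]⟩,⟨0,[]⟩⟩,⟨false,0,
  ⟨1,[(3,0),(0,0),(2,0),(2,1),(9,1)]⟩,⟨3,[(0,2),(1,0),(2,0),(7,1),(0,0),(6,2),(12,0)]⟩⟩,[.o ⟨false,
  0,⟨0,[(9,0)]⟩,⟨3,[(0,1),(13,1),(4,0),(3,3),(14,0)]⟩⟩,.o ⟨false,1,⟨3,[(9,3),(8,0),(0,0),(18,1)]⟩,
  ⟨0,[(5,0),(8,0),(1,0),(19,0)]⟩⟩,.o ⟨false,1,⟨1,[(21,1),(9,0),(5,0)]⟩,⟨2,[(5,0),(4,0),(9,2),(2,1),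
  (2,0)]⟩⟩,.a ⟨true,0,⟨0,[(21,0)]⟩,⟨0,[(20,0)]⟩⟩ ⟨false,1,⟨7,[(0,2),(1,1),(1,0),(8,0),(4,1),(1,2),
  (0,0),(2,1)]⟩,⟨1,[(3,0),(0,0),(2,0),(6,1)]⟩⟩ ⟨true,0,⟨0,[(9,0),(10,0)]⟩,⟨0,[(5,0),(8,0),(1,0),(4,
  0),(14,0)]⟩⟩]⟩) (.I [1,1,1,1,0,0,0,1,-1] (.R ⟨1,false,false,false,[1,0,0,-1],[1,-1],[1,1,0,0,0,0,
  0,0,-1],(⟨0,[(21,0)]⟩,⟨0,[(22,0)]⟩),(⟨0,[(33,0)]⟩,⟨0,[(34,0)]⟩),⟨0,[(2,0)]⟩,.k,.k,(.x (-1) ⟨7,[(9,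
  3),(9,2),(0,2),(10,3),(0,1)]⟩ ⟨0,[(34,0)]⟩),(.x (-1) ⟨0,[(34,0),(3,0)]⟩ ⟨3,[(9,1),(4,1),(12,4),(0,
  0),(2,1)]⟩),.k,.k,⟨true,0,⟨0,[(0,0),(28,0)]⟩,⟨0,[(1,0),(13,0),(21,2),(0,0)]⟩⟩,⟨false,0,⟨2,[(6,0),
  (4,0),(9,2),(2,1),(2,0)]⟩,⟨0,[(22,0),(15,0)]⟩⟩,⟨false,0,⟨0,[]⟩,⟨3,[(19,0),(0,0),(18,1)]⟩⟩,⟨false,
  0,⟨2,[(1,0),(4,2),(8,0),(4,0),(0,2),(13,0),(1,1)]⟩,⟨0,[(3,0),(8,0),(4,0)]⟩⟩,⟨true,0,⟨0,[(36,0)]⟩,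
  ⟨0,[(37,0)]⟩⟩,⟨false,0,⟨11,[(1,4),(3,0),(0,9),(8,5),(4,2),(0,11),(10,0),(2,2)]⟩,⟨1,[(19,0),(2,1),
  (15,0)]⟩⟩,[.o ⟨false,0,⟨0,[(6,0)]⟩,⟨3,[(19,0),(0,0),(15,3),(2,1)]⟩⟩,.o ⟨false,1,⟨3,[(6,3),(12,0),
  (0,0),(18,1)]⟩,⟨0,[(36,0)]⟩⟩,.o ⟨false,1,⟨1,[(22,1),(9,0),(5,0)]⟩,⟨2,[(6,0),(4,0),(9,2),(2,1),(2,
  0)]⟩⟩,.a ⟨true,0,⟨0,[(22,0)]⟩,⟨0,[(21,0)]⟩⟩ ⟨false,1,⟨1,[(19,0),(18,0)]⟩,⟨2,[(1,0),(13,0),(4,0),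
  (14,0),(1,1)]⟩⟩ ⟨true,0,⟨0,[(6,0),(14,0)]⟩,⟨0,[(22,0),(13,0)]⟩⟩]⟩) (.I [1,-1,-1,0,1,0,0,0,-1] (.R
  ⟨1,false,false,false,[1,0,0,-1],[1,0,-1],[1,1,0,0,0,0,0,0,-1],(⟨0,[(22,0)]⟩,⟨0,[(23,0)]⟩),(⟨0,
  [(31,0)]⟩,⟨0,[(32,0)]⟩),⟨0,[(3,0)]⟩,.k,.k,(.x (-1) ⟨7,[(10,3),(9,2),(0,2),(10,3),(0,1)]⟩ ⟨0,[(35,
  0)]⟩),.k,(.x 0 ⟨5,[(7,3),(2,2),(1,3),(6,0),(12,8)]⟩ ⟨5,[(6,1),(1,3),(6,1),(4,1),(0,0),(5,1),(3,1),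
  (3,1),(4,0)]⟩),.k,⟨false,1,⟨0,[(0,0),(17,0),(7,0),(11,0)]⟩,⟨4,[(1,1),(0,0),(13,2),(4,0),(8,0)]⟩⟩,
  ⟨true,0,⟨0,[(22,0),(2,0)]⟩,⟨2,[(7,0),(4,0),(6,0),(3,2)]⟩⟩,⟨false,0,⟨0,[]⟩,⟨3,[(20,0),(0,0),(18,
  1)]⟩⟩,⟨false,0,⟨75,[(1,29),(0,1),(2,25),(9,37),(0,47),(4,8),(0,75),(10,18),(2,11)]⟩,⟨0,[(0,0),(22,
  0),(2,0)]⟩⟩,⟨true,0,⟨0,[(37,0)]⟩,⟨0,[(38,0)]⟩⟩,⟨false,0,⟨12,[(1,2),(0,5),(12,3),(0,14),(1,3),(2,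
  1),(0,12),(1,0),(8,3)]⟩,⟨0,[(0,0),(22,0),(2,0),(11,0)]⟩⟩,[.o ⟨false,0,⟨0,[(7,0),(8,0),(1,0)]⟩,⟨3,
  [(20,0),(0,0),(4,3),(13,1)]⟩⟩,.o ⟨false,1,⟨0,[(24,0),(15,0)]⟩,⟨0,[(26,0)]⟩⟩,.o ⟨false,1,⟨1,[(23,
  1),(9,0),(5,0)]⟩,⟨2,[(7,0),(4,0),(9,2),(2,1),(2,0)]⟩⟩,.a ⟨true,0,⟨0,[(23,0)]⟩,⟨0,[(22,0)]⟩⟩
  ⟨false,1,⟨1,[(20,0),(18,0)]⟩,⟨16,[(1,1),(0,1),(2,2),(15,4),(14,8),(1,4)]⟩⟩ ⟨true,0,⟨0,[(7,0),(8,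
  0),(1,0),(3,0)]⟩,⟨0,[(23,0),(2,0)]⟩⟩]⟩) (.R ⟨1,false,false,false,[1,0,0,-1],[0,0,0,1],[1,0,0,0,0,
  0,0,0,-1],(⟨0,[(22,0)]⟩,⟨0,[(23,0)]⟩),(⟨0,[(23,0)]⟩,⟨0,[(22,0)]⟩),⟨0,[(3,0)]⟩,.k,.k,(.x (-1) ⟨7,
  [(10,3),(9,2),(0,2),(10,3),(0,1)]⟩ ⟨0,[(35,0)]⟩),.k,(.r (-2) ⟨3,[(20,4),(0,0),(16,3),(0,1)]⟩ ⟨13,
  [(0,5),(0,9),(0,9),(18,0),(15,3),(1,0)]⟩),.k,⟨true,1,⟨0,[(20,0)]⟩,⟨3,[(0,3),(0,1),(0,0),(3,0),(29,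
  0)]⟩⟩,⟨false,0,⟨2,[(7,0),(4,0),(9,5),(2,1),(2,0)]⟩,⟨0,[(1,0),(2,0),(6,0),(6,0),(4,0)]⟩⟩,⟨true,0,
  ⟨0,[]⟩,⟨0,[(42,0)]⟩⟩,⟨false,(-1),⟨14,[(0,1),(0,8),(0,8),(2,5),(1,14),(13,1),(0,29),(13,6)]⟩,⟨1,
  [(4,1),(15,0),(2,1),(13,1),(1,0)]⟩⟩,⟨false,1,⟨0,[(37,0),(2,0)]⟩,⟨0,[(38,0)]⟩⟩,⟨false,(-1),⟨14,[(1,
  10),(0,13),(2,4),(1,6),(8,2),(5,29),(10,3),(2,2)]⟩,⟨1,[(4,1),(15,0),(2,1),(15,0),(2,1)]⟩⟩,[.o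
  ⟨false,0,⟨41,[(1,3),(0,3),(2,15),(1,19),(13,8),(0,41),(10,10),(2,5)]⟩,⟨0,[(4,0),(32,0)]⟩⟩,.o
  ⟨false,0,⟨6,[(1,1),(0,1),(2,0),(1,2),(13,0),(0,6),(10,1),(2,2)]⟩,⟨0,[(4,0),(32,0),(4,0)]⟩⟩,.o
  ⟨false,1,⟨1,[(23,1),(9,0),(5,0)]⟩,⟨2,[(7,0),(4,0),(9,2),(2,1),(2,0)]⟩⟩,.a ⟨true,0,⟨0,[(23,0)]⟩,⟨0,
  [(22,0)]⟩⟩ ⟨true,1,⟨1,[(20,0),(18,0)]⟩,⟨0,[(0,0)]⟩⟩ ⟨false,0,⟨6,[(1,1),(0,1),(2,0),(1,2),(13,0),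
  (0,13),(10,1),(2,2)]⟩,⟨0,[(4,0),(18,0),(13,0)]⟩⟩]⟩)))) (.I [0,0,-2,-1,1,0,0,0,-1] (.R ⟨0,false,
  false,true,[1,0,0,-1],[0,1],[1,1,2,1],(⟨0,[(20,0)]⟩,⟨0,[(21,0)]⟩),(⟨0,[(33,0)]⟩,⟨0,[(32,0)]⟩),⟨0,
  [(1,0)]⟩,.k,.k,(.x (-1) ⟨7,[(8,3),(9,2),(0,2),(10,3),(0,1)]⟩ ⟨0,[(33,0)]⟩),(.x (-1) ⟨7,[(8,3),(9,
  2),(0,2),(10,3),(0,1)]⟩ ⟨0,[(33,0)]⟩),.k,.k,⟨false,0,⟨0,[]⟩,⟨3,[(18,0),(0,0),(17,1)]⟩⟩,⟨true,0,⟨0,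
  [(20,0)]⟩,⟨0,[(2,0),(0,0)]⟩⟩,⟨true,(-1),⟨0,[(3,0)]⟩,⟨0,[(0,0)]⟩⟩,⟨false,0,⟨9,[(3,3),(3,1),(2,1),
  (3,1),(1,1),(2,2),(0,9),(17,0)]⟩,⟨0,[(2,0)]⟩⟩,⟨false,0,⟨0,[]⟩,⟨0,[]⟩⟩,⟨false,0,⟨0,[]⟩,⟨0,[]⟩⟩,[.o
  ⟨false,0,⟨0,[(35,0)]⟩,⟨3,[(5,3),(12,0),(0,0),(18,1)]⟩⟩,.o ⟨false,1,⟨3,[(18,0),(0,0),(15,3),(2,
  1)]⟩,⟨0,[(5,0)]⟩⟩,.o ⟨false,1,⟨1,[(21,1),(9,0),(5,0)]⟩,⟨2,[(5,0),(4,0),(9,2),(2,1),(2,0)]⟩⟩,.a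
  ⟨true,0,⟨0,[(21,0)]⟩,⟨0,[(20,0)]⟩⟩ ⟨false,0,⟨13,[(3,5),(6,3),(5,3),(1,2),(15,1),(3,2)]⟩,⟨2,[(0,0),
  (3,0),(9,0),(21,1),(1,0)]⟩⟩ ⟨true,0,⟨0,[(20,0),(14,0)]⟩,⟨0,[(5,0),(15,0)]⟩⟩]⟩) (.R ⟨0,false,false,
  false,[1,0,0,-1],[1,0,-1],[0,1,0,0,0,0,0,0,-1],(⟨0,[(20,0)]⟩,⟨0,[(21,0)]⟩),(⟨0,[(29,0)]⟩,⟨0,[(30,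
  0)]⟩),⟨0,[(1,0)]⟩,.k,.k,(.x (-1) ⟨7,[(8,3),(9,2),(0,2),(10,3),(0,1)]⟩ ⟨0,[(33,0)]⟩),.k,.k,.k,
  ⟨false,1,⟨0,[(2,0),(13,0),(3,0),(3,0)]⟩,⟨0,[(0,0),(13,0),(21,0),(0,0)]⟩⟩,⟨true,0,⟨0,[(20,0),(2,
  0)]⟩,⟨2,[(5,0),(4,0),(6,0),(3,2)]⟩⟩,⟨true,0,⟨0,[(40,0)]⟩,⟨0,[]⟩⟩,⟨false,0,⟨3,[(0,1),(4,1),(7,1),
  (0,3),(4,0),(0,3),(16,0)]⟩,⟨0,[(2,0),(6,0),(10,0),(0,0)]⟩⟩,⟨false,0,⟨0,[]⟩,⟨0,[]⟩⟩,⟨false,0,⟨0,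
  []⟩,⟨0,[]⟩⟩,[.o ⟨false,0,⟨0,[(5,0),(8,0),(1,0)]⟩,⟨3,[(18,0),(0,0),(4,3),(13,1)]⟩⟩,.o ⟨false,1,⟨0,
  [(22,0),(15,0)]⟩,⟨0,[(24,0)]⟩⟩,.o ⟨false,1,⟨1,[(21,1),(9,0),(5,0)]⟩,⟨3,[(0,1),(4,1),(12,0),(1,3),
  (10,0)]⟩⟩,.a ⟨true,0,⟨0,[(21,0)]⟩,⟨0,[(20,0)]⟩⟩ ⟨false,1,⟨1,[(18,0),(18,0)]⟩,⟨4,[(0,1),(3,0),(9,
  0),(4,0),(14,1),(1,1)]⟩⟩ ⟨true,0,⟨0,[(5,0),(8,0),(1,0),(3,0)]⟩,⟨0,[(21,0),(2,0)]⟩⟩]⟩))) (.K ⟨0,[0,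
  0,0,1],0,(-1),(⟨0,[(19,0)]⟩,⟨0,[(18,0)]⟩),.k,(.x 0 ⟨3,[(6,1),(4,1),(12,4),(0,0),(2,1)]⟩ ⟨0,[(31,
  0),(3,0)]⟩),(.x 0 ⟨0,[(31,0)]⟩ ⟨7,[(6,3),(9,2),(0,2),(10,3),(0,1)]⟩),.k,.k,[⟨0,[(19,0)]⟩,⟨0,[(18,
  0)]⟩,⟨1,[(16,0),(2,1),(15,0),(2,1)]⟩,⟨0,[(0,0),(2,0)]⟩]⟩))) (.Q [0,1,1,0,0,0,0,0,1,0,0,-1] (.p
  false [0,0,0,1] [] (⟨0,[(17,0)]⟩,⟨0,[(16,0)]⟩) .k 0 (⟨0,[]⟩,⟨0,[]⟩) .k .k) (.Q [0,1,-1,0,0,0,0,0,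
  -1,0,0,1] (.p true [0,0,0,1] [] (⟨0,[(18,0)]⟩,⟨0,[(17,0)]⟩) .k 0 (⟨0,[]⟩,⟨0,[]⟩) .k .k) (.K ⟨0,[0,
  0,0,1],0,0,(⟨0,[(19,0)]⟩,⟨0,[(18,0)]⟩),.k,(.r (-1) ⟨1,[(17,0),(16,1),(0,0)]⟩ ⟨8,[(2,2),(2,2),(2,
  0),(0,1),(1,1),(4,2),(7,0),(8,2)]⟩),(.x 0 ⟨0,[(31,0)]⟩ ⟨7,[(6,3),(9,2),(0,2),(10,3),(0,1)]⟩),.k,
  .k,[⟨0,[(19,0)]⟩,⟨0,[(18,0)]⟩,⟨0,[(0,0)]⟩,⟨0,[(1,0)]⟩]⟩) (.Q [0,0,0,0,0,-1,0,0,0,1,0,-1] (.ed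
  true [0,1,0,1] .k) (.R ⟨1,false,false,true,[1,0,0,-1],[0,1],[1,0,0,0,0,0,0,0,-1],(⟨0,[(19,0)]⟩,⟨0,
  [(20,0)]⟩),(⟨0,[(32,0)]⟩,⟨0,[(31,0)]⟩),⟨0,[(0,0)]⟩,.k,.k,(.x (-1) ⟨7,[(7,3),(9,2),(0,2),(10,3),(0,
  1)]⟩ ⟨0,[(32,0)]⟩),(.x (-1) ⟨7,[(7,3),(9,2),(0,2),(10,3),(0,1)]⟩ ⟨0,[(32,0)]⟩),(.r (-1) ⟨7,[(3,5),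
  (2,3),(8,1),(1,0),(5,1),(11,21),(0,12)]⟩ ⟨0,[(3,0),(2,0),(11,0),(15,0)]⟩),.k,⟨false,1,⟨0,[(3,0),
  (2,0),(28,1),(0,1)]⟩,⟨3,[(1,0),(0,2),(6,1),(5,1),(4,3)]⟩⟩,⟨true,0,⟨0,[(19,0)]⟩,⟨2,[(4,0),(4,0),
  (10,2),(1,1),(2,0)]⟩⟩,⟨true,0,⟨0,[]⟩,⟨0,[(39,0)]⟩⟩,⟨false,0,⟨3,[(1,2),(0,0),(7,1),(4,1),(3,1),(0,
  1)]⟩,⟨2,[(3,0),(0,2),(1,0),(10,0),(2,2),(12,0),(1,0),(0,2)]⟩⟩,⟨false,1,⟨0,[(34,0),(2,0)]⟩,⟨0,[(35,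
  0)]⟩⟩,⟨false,0,⟨0,[(1,0),(8,0),(4,0)]⟩,⟨2,[(3,0),(0,2),(1,0),(10,0),(2,2),(12,0),(1,3),(0,2)]⟩⟩,
  [.o ⟨false,0,⟨0,[(34,0)]⟩,⟨3,[(4,3),(12,0),(0,0),(18,1)]⟩⟩,.o ⟨false,1,⟨3,[(17,0),(0,0),(15,3),(2,
  1)]⟩,⟨0,[(4,0)]⟩⟩,.o ⟨false,1,⟨1,[(20,1),(9,0),(5,0)]⟩,⟨7,[(1,0),(0,2),(0,1),(0,1),(1,1),(10,0),
  (1,3),(10,0)]⟩⟩,.a ⟨true,0,⟨0,[(20,0)]⟩,⟨0,[(19,0)]⟩⟩ ⟨false,1,⟨2,[(3,0),(2,0),(10,0),(15,0),(1,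
  0),(0,2)]⟩,⟨1,[(1,0),(0,0),(17,1)]⟩⟩ ⟨true,0,⟨0,[(19,0),(14,0)]⟩,⟨0,[(4,0),(15,0)]⟩⟩]⟩) (.R ⟨0,
  false,false,true,[1,0,0,-1],[0,1],[1,0,0,0,0,0,0,0,-1],(⟨0,[(19,0)]⟩,⟨0,[(20,0)]⟩),(⟨0,[(32,0)]⟩,
  ⟨0,[(31,0)]⟩),⟨0,[(0,0)]⟩,.k,.k,(.x (-1) ⟨7,[(7,3),(9,2),(0,2),(10,3),(0,1)]⟩ ⟨0,[(32,0)]⟩),(.x
  (-1) ⟨7,[(7,3),(9,2),(0,2),(10,3),(0,1)]⟩ ⟨0,[(32,0)]⟩),.k,.k,⟨false,1,⟨0,[(3,0),(2,0),(28,1),(0,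
  1)]⟩,⟨3,[(1,0),(0,2),(6,1),(5,1),(4,3)]⟩⟩,⟨true,0,⟨0,[(19,0)]⟩,⟨2,[(4,0),(4,0),(10,2),(1,1),(2,
  0)]⟩⟩,⟨true,0,⟨0,[]⟩,⟨0,[(39,0)]⟩⟩,⟨false,0,⟨3,[(1,2),(0,0),(7,1),(4,1),(3,1),(0,1)]⟩,⟨2,[(3,0),
  (0,2),(1,0),(10,0),(2,2),(12,0),(1,0),(0,2)]⟩⟩,⟨false,0,⟨0,[]⟩,⟨0,[]⟩⟩,⟨false,0,⟨0,[]⟩,⟨0,[]⟩⟩,
  [.o ⟨false,0,⟨0,[(34,0)]⟩,⟨3,[(4,3),(12,0),(0,0),(18,1)]⟩⟩,.o ⟨false,1,⟨3,[(17,0),(0,0),(15,3),(2,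
  1)]⟩,⟨0,[(4,0)]⟩⟩,.o ⟨false,1,⟨1,[(20,1),(9,0),(5,0)]⟩,⟨7,[(1,0),(0,2),(0,1),(0,1),(1,1),(10,0),
  (1,3),(10,0)]⟩⟩,.a ⟨true,0,⟨0,[(20,0)]⟩,⟨0,[(19,0)]⟩⟩ ⟨false,1,⟨2,[(3,0),(2,0),(10,0),(15,0),(1,
  0),(0,2)]⟩,⟨1,[(1,0),(0,0),(17,1)]⟩⟩ ⟨true,0,⟨0,[(19,0),(14,0)]⟩,⟨0,[(4,0),(15,0)]⟩⟩]⟩))) (.Q [0,
  1,1,0,0,0,0,0,1,1,0,-1] (.p false [0,0,0,1] [1] (⟨0,[(18,0)]⟩,⟨0,[(17,0)]⟩) .k 1 (⟨0,[]⟩,⟨0,[]⟩)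
  .k .k) (.R ⟨0,false,false,true,[0,0,1],[0,0,0,1],[0,1],(⟨0,[(28,0)]⟩,⟨0,[(27,0)]⟩),(⟨0,[(19,0)]⟩,
  ⟨0,[(18,0)]⟩),⟨0,[(4,0)]⟩,.k,.k,.k,.k,.k,.k,⟨false,0,⟨2,[(1,1),(0,0),(0,1),(3,0),(6,0),(3,1),(16,
  0)]⟩,⟨3,[(16,0),(0,2)]⟩⟩,⟨true,0,⟨0,[(18,0),(2,0)]⟩,⟨2,[(3,0),(4,0),(6,0),(3,2)]⟩⟩,⟨false,0,⟨0,
  [(26,0)]⟩,⟨1,[(5,0),(16,0),(2,0),(8,0),(0,0),(0,0)]⟩⟩,⟨true,0,⟨0,[(0,0),(2,0),(8,0),(1,0)]⟩,⟨0,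
  [(1,0),(20,0)]⟩⟩,⟨false,0,⟨0,[]⟩,⟨0,[]⟩⟩,⟨false,0,⟨0,[]⟩,⟨0,[]⟩⟩,[.a ⟨true,0,⟨0,[(0,0)]⟩,⟨0,[(1,
  0)]⟩⟩ ⟨true,0,⟨0,[(38,0)]⟩,⟨3,[(24,0),(0,0),(6,1)]⟩⟩ ⟨false,1,⟨3,[(0,3),(10,1),(17,0),(5,2)]⟩,⟨2,
  [(1,2),(1,0),(4,0),(6,0)]⟩⟩,.o ⟨false,1,⟨1,[(0,1),(28,0),(6,0)]⟩,⟨1,[(1,1),(1,0),(3,0),(12,0)]⟩⟩,
  .o ⟨false,0,⟨2,[(3,0),(4,0),(6,0)]⟩,⟨3,[(11,1),(4,0),(0,0),(11,0),(5,0)]⟩⟩,.o ⟨false,0,⟨0,[(24,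
  0)]⟩,⟨3,[(11,1),(17,0),(5,2)]⟩⟩]⟩) (.Q [0,0,0,0,0,1,0,0,0,-1,0,1] (.ed false [0,1,0,1] .k) (.R ⟨0,
  false,false,false,[1,0,0,-1],[1,0,-1],[1,0,1,0,0,0,0,-1],(⟨0,[(19,0)]⟩,⟨0,[(20,0)]⟩),(⟨0,[(28,
  0)]⟩,⟨0,[(29,0)]⟩),⟨0,[(0,0)]⟩,.k,.k,(.x (-1) ⟨7,[(7,3),(9,2),(0,2),(10,3),(0,1)]⟩ ⟨0,[(32,0)]⟩),
  .k,.k,.k,⟨false,0,⟨0,[]⟩,⟨3,[(17,0),(0,0),(17,1)]⟩⟩,⟨true,0,⟨0,[(19,0),(2,0)]⟩,⟨2,[(4,0),(4,0),(6,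
  0),(3,2)]⟩⟩,⟨true,0,⟨0,[(3,0),(14,0)]⟩,⟨0,[(2,0),(1,0),(10,0),(3,0),(3,0)]⟩⟩,⟨false,1,⟨1,[(18,0),
  (0,1),(2,1),(4,1),(9,0)]⟩,⟨0,[(2,0),(20,0)]⟩⟩,⟨false,0,⟨0,[]⟩,⟨0,[]⟩⟩,⟨false,0,⟨0,[]⟩,⟨0,[]⟩⟩,[.o
  ⟨false,0,⟨0,[(4,0),(8,0),(1,0)]⟩,⟨3,[(17,0),(0,0),(4,3),(13,1)]⟩⟩,.o ⟨false,1,⟨0,[(21,0),(15,0)]⟩,
  ⟨0,[(23,0)]⟩⟩,.o ⟨false,1,⟨1,[(20,1),(9,0),(5,0)]⟩,⟨2,[(4,0),(4,0),(9,2),(2,1),(2,0)]⟩⟩,.a ⟨true,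
  0,⟨0,[(20,0)]⟩,⟨0,[(19,0)]⟩⟩ ⟨false,0,⟨0,[(13,0)]⟩,⟨1,[(23,1),(2,1),(9,0),(0,0)]⟩⟩ ⟨true,0,⟨0,[(4,
  0),(8,0),(1,0),(3,0)]⟩,⟨0,[(20,0),(2,0)]⟩⟩]⟩) (.R ⟨1,false,false,false,[1,0,0,-1],[1,0,-1],[1,1,0,
  0,0,0,0,0,-1],(⟨0,[(19,0)]⟩,⟨0,[(20,0)]⟩),(⟨0,[(28,0)]⟩,⟨0,[(29,0)]⟩),⟨0,[(0,0)]⟩,.k,.k,(.x (-1)
  ⟨7,[(7,3),(9,2),(0,2),(10,3),(0,1)]⟩ ⟨0,[(32,0)]⟩),.k,(.x 0 ⟨5,[(4,3),(2,2),(1,3),(6,0),(12,8)]⟩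
  ⟨7,[(5,3),(6,3),(4,2),(0,2),(9,3),(3,3),(3,1)]⟩),.k,⟨false,0,⟨0,[(2,0),(1,0),(10,0),(3,0),(3,0)]⟩,
  ⟨1,[(18,0),(8,1),(9,0)]⟩⟩,⟨true,0,⟨0,[(19,0),(2,0)]⟩,⟨2,[(4,0),(4,0),(6,0),(3,2)]⟩⟩,⟨false,0,⟨0,
  []⟩,⟨3,[(17,0),(0,0),(18,1)]⟩⟩,⟨false,1,⟨1,[(18,0),(0,1),(2,1),(4,1),(9,0)]⟩,⟨0,[(2,0),(20,0)]⟩⟩,
  ⟨true,0,⟨0,[(34,0)]⟩,⟨0,[(35,0)]⟩⟩,⟨false,1,⟨1,[(9,1),(2,1),(5,0),(0,1),(7,1),(9,0)]⟩,⟨0,[(2,0),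
  (20,0),(11,0)]⟩⟩,[.o ⟨false,0,⟨0,[(4,0),(8,0),(1,0)]⟩,⟨3,[(17,0),(0,0),(4,3),(13,1)]⟩⟩,.o ⟨false,
  1,⟨0,[(21,0),(15,0)]⟩,⟨0,[(23,0)]⟩⟩,.o ⟨false,1,⟨1,[(20,1),(9,0),(5,0)]⟩,⟨2,[(4,0),(4,0),(9,2),(2,
  1),(2,0)]⟩⟩,.a ⟨true,0,⟨0,[(20,0)]⟩,⟨0,[(19,0)]⟩⟩ ⟨false,0,⟨0,[(1,0),(17,0),(19,0)]⟩,⟨1,[(18,0),
  (6,0),(0,0),(10,0)]⟩⟩ ⟨true,0,⟨0,[(4,0),(8,0),(1,0),(3,0)]⟩,⟨0,[(20,0),(2,0)]⟩⟩]⟩))))))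

theorem ok66 : chk (cU (-1) true 10) t66 l39 = true := by decide +kernel

noncomputable def t71 : Tre :=
  (.K ⟨0,[0,0,0,1],0,(-1),(⟨0,[(22,0)]⟩,⟨0,[(21,0)]⟩),.k,(.x 0 ⟨5,[(7,1),(1,1),(4,1),(12,6),(0,2)]⟩
  ⟨0,[(34,0),(3,0)]⟩),(.x 0 ⟨0,[(34,0)]⟩ ⟨11,[(7,3),(1,3),(9,4),(0,4),(11,1)]⟩),.k,.k,[⟨0,[(22,0)]⟩,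
  ⟨0,[(21,0)]⟩,⟨1,[(19,0),(2,1),(15,0),(2,1)]⟩,⟨0,[(0,0)]⟩]⟩)

theorem ok71 : chk (cU (-1) true 10) t71 l46 = true := by decide +kernel

noncomputable def t80 : Tre :=
  (.Q [0,-1,-1,1,1,0,0,0,-1,0,0,1] (.p true [0,0,0,1] [] (⟨0,[(25,0)]⟩,⟨0,[(24,0)]⟩) .k 0 (⟨0,[]⟩,
  ⟨0,[]⟩) .k .k) (.Q [0,0,0,0,0,2,0,0,0,0,-1] (.p false [0,0,1] [] (⟨0,[(35,0)]⟩,⟨0,[(34,0)]⟩) .k 0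
  (⟨0,[]⟩,⟨0,[]⟩) .k .k) (.Q [0,0,0,1,0,0,0,0,0,1] (.pp false [-1,1]) (.R ⟨0,false,false,false,[0,
  -1,1],[1,-1],[1],(⟨0,[(13,0)]⟩,⟨1,[(1,0),(25,0),(0,0),(7,0)]⟩),(⟨0,[(39,0)]⟩,⟨0,[(40,0)]⟩),⟨0,[(1,
  0)]⟩,.k,.k,(.x 0 ⟨23,[(7,19),(5,31),(1,7),(4,7),(4,4),(0,4),(11,9)]⟩ ⟨0,[(5,0)]⟩),.k,.k,.k,⟨true,
  0,⟨47,[(6,5),(0,13),(0,11),(11,7),(4,6),(0,6),(15,11)]⟩,⟨0,[(43,0)]⟩⟩,⟨false,1,⟨19,[(4,11),(15,3),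
  (4,2),(0,2),(11,1)]⟩,⟨3,[(0,1),(6,0),(4,0),(11,0),(22,0)]⟩⟩,⟨false,0,⟨1,[(6,0),(0,0),(37,0)]⟩,⟨10,
  [(12,8),(1,2),(8,3),(1,0),(0,0),(4,7),(2,3)]⟩⟩,⟨true,0,⟨0,[(3,0),(39,0)]⟩,⟨0,[(27,0),(0,0),(2,
  0)]⟩⟩,⟨false,0,⟨0,[]⟩,⟨0,[]⟩⟩,⟨false,0,⟨0,[]⟩,⟨0,[]⟩⟩,[.a ⟨true,0,⟨0,[(43,0)]⟩,⟨0,[(0,0)]⟩⟩ ⟨true,
  0,⟨0,[]⟩,⟨5,[(7,1),(12,1),(4,0),(0,0)]⟩⟩ ⟨false,1,⟨0,[(4,0),(38,0)]⟩,⟨39,[(0,15),(5,1),(0,17),(0,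
  3),(9,7),(6,8),(0,8),(15,3)]⟩⟩,.o ⟨false,1,⟨23,[(7,7),(4,11),(7,7),(4,0),(0,0),(11,11),(6,5)]⟩,⟨0,
  [(42,0)]⟩⟩,.o ⟨false,0,⟨0,[(33,0)]⟩,⟨19,[(4,11),(15,3),(4,2),(0,2),(11,1)]⟩⟩,.o ⟨false,0,⟨23,[(7,
  19),(12,7),(4,6),(0,6),(11,5)]⟩,⟨0,[(4,0)]⟩⟩]⟩) (.I [0,-1,1,0,0,0,0,0,1] (.Q [0,0,0,-2,0,0,1,1,0,
  0,-1] (.p false [0,0,1] [] (⟨0,[(38,0)]⟩,⟨0,[(37,0)]⟩) .k 0 (⟨0,[]⟩,⟨0,[]⟩) .k .k) (.R ⟨1,true,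
  false,true,[0,0,1],[0,1],[1,0,0,0,0,0,0,1],(⟨0,[(39,0)]⟩,⟨0,[(38,0)]⟩),(⟨0,[(42,0)]⟩,⟨0,[(41,
  0)]⟩),⟨0,[(15,0)]⟩,.k,.k,.k,.k,(.x 0 ⟨23,[(9,19),(5,31),(1,7),(4,7),(4,4),(0,4),(11,9)]⟩ ⟨0,[(7,
  0)]⟩),.k,⟨true,1,⟨11,[(0,1),(13,9),(1,7),(8,3),(1,0),(0,0),(4,1)]⟩,⟨2,[(2,0),(2,0),(3,2),(2,0),
  (12,2)]⟩⟩,⟨false,1,⟨1,[(6,0),(0,0),(7,0),(25,0)]⟩,⟨0,[(35,0)]⟩⟩,⟨true,0,⟨0,[]⟩,⟨0,[(49,0)]⟩⟩,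
  ⟨false,0,⟨1,[(8,0),(20,0),(0,0)]⟩,⟨5,[(0,3),(17,1),(8,0),(0,0),(18,3)]⟩⟩,⟨false,1,⟨7,[(8,0),(1,1),
  (8,0),(0,0),(6,1),(0,1),(17,0),(0,2)]⟩,⟨0,[(45,0)]⟩⟩,⟨true,0,⟨4,[(8,1),(11,1),(4,1),(8,0),(9,1)]⟩,
  ⟨0,[(0,0)]⟩⟩,[]⟩) (.I [0,0,0,-1,0,0,0,-1,1] (.Q [0,0,0,0,0,-1,0,0,0,1,0,-1] (.ed true [0,1,0,1]
  .k) (.I [0,0,-2,-2,1,0,0,0,-1] (.R ⟨1,false,false,true,[1,0,0,-1],[0,1],[0,1,0,-1,0,0,0,0,-1],(⟨0,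
  [(32,0)]⟩,⟨0,[(33,0)]⟩),(⟨0,[(45,0)]⟩,⟨0,[(44,0)]⟩),⟨0,[(1,0)]⟩,.k,.k,(.x (-1) ⟨11,[(18,3),(1,3),
  (9,4),(0,4),(11,1)]⟩ ⟨0,[(45,0)]⟩),(.x (-1) ⟨11,[(18,3),(1,3),(9,4),(0,4),(11,1)]⟩ ⟨0,[(45,0)]⟩),
  (.r (-1) ⟨0,[(0,0)]⟩ ⟨23,[(11,5),(0,13),(0,11),(11,7),(4,0),(0,12),(15,11)]⟩),.k,⟨false,1,⟨0,[(0,
  0)]⟩,⟨11,[(3,5),(0,9),(6,0),(0,0),(8,7),(6,1),(2,0)]⟩⟩,⟨true,0,⟨0,[(32,0)]⟩,⟨23,[(5,4),(2,1),(3,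
  5),(0,0),(7,0),(11,23),(1,10),(7,5)]⟩⟩,⟨false,0,⟨0,[(48,0)]⟩,⟨19,[(3,3),(9,3),(8,3),(7,4),(0,4),
  (17,1),(0,7)]⟩⟩,⟨false,0,⟨5,[(4,3),(6,0),(0,0),(8,1),(6,1),(2,0),(0,5)]⟩,⟨6,[(0,0),(4,6),(1,3),(9,
  0),(12,0),(2,2),(12,0)]⟩⟩,⟨true,0,⟨0,[(52,0)]⟩,⟨0,[]⟩⟩,⟨false,0,⟨11,[(3,5),(0,9),(6,0),(0,0),(8,
  7),(6,1),(2,0),(0,11)]⟩,⟨6,[(0,1),(4,6),(1,0),(9,1),(12,1),(2,5),(12,1)]⟩⟩,[.o ⟨false,0,⟨0,[(47,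
  0)]⟩,⟨23,[(12,7),(4,11),(7,7),(4,0),(0,0),(11,11),(6,5)]⟩⟩,.o ⟨false,1,⟨31,[(3,7),(9,3),(7,3),(0,
  3),(7,14),(0,14),(17,1)]⟩,⟨0,[(5,0)]⟩⟩,.o ⟨false,1,⟨1,[(33,1),(9,0),(5,0)]⟩,⟨23,[(5,4),(2,1),(3,
  5),(0,0),(7,0),(10,23),(2,10),(7,5)]⟩⟩,.a ⟨true,0,⟨0,[(33,0)]⟩,⟨0,[(32,0)]⟩⟩ ⟨false,1,⟨7,[(0,3),
  (29,2),(0,0)]⟩,⟨0,[(2,0),(10,0)]⟩⟩ ⟨true,0,⟨0,[(32,0),(14,0)]⟩,⟨0,[(5,0),(27,0)]⟩⟩]⟩) (.I [0,0,-1,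
  -1,1,0,0,1,-1] (.R ⟨1,false,false,false,[1,0,0,-1],[1,0,-1],[1,1,0,0,0,0,0,0,-1],(⟨0,[(33,0)]⟩,⟨0,
  [(34,0)]⟩),(⟨0,[(42,0)]⟩,⟨0,[(43,0)]⟩),⟨0,[(2,0)]⟩,.k,.k,(.x (-1) ⟨11,[(19,3),(1,3),(9,4),(0,4),
  (11,1)]⟩ ⟨0,[(46,0)]⟩),.k,(.r (-1) ⟨0,[(0,0)]⟩ ⟨1,[(12,0),(0,0),(18,0)]⟩),.k,⟨false,1,⟨0,[(0,0),
  (47,0)]⟩,⟨4,[(1,2),(1,1),(14,1),(8,2),(22,0)]⟩⟩,⟨true,0,⟨0,[(33,0),(2,0)]⟩,⟨2,[(6,0),(16,0),(6,0),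
  (3,2)]⟩⟩,⟨false,0,⟨0,[]⟩,⟨3,[(31,0),(0,0),(18,1)]⟩⟩,⟨false,0,⟨2,[(5,2),(0,0),(2,0),(6,0),(16,2)]⟩,
  ⟨10,[(0,1),(5,0),(1,6),(4,0),(4,1),(12,0),(2,3),(2,8)]⟩⟩,⟨true,0,⟨0,[(48,0)]⟩,⟨0,[(49,0)]⟩⟩,
  ⟨false,0,⟨0,[(5,0),(3,0),(23,0)]⟩,⟨10,[(0,3),(5,1),(1,2),(4,1),(4,3),(12,1),(2,7),(2,6)]⟩⟩,[.o
  ⟨false,0,⟨2,[(6,0),(2,0),(6,0)]⟩,⟨3,[(31,0),(0,0),(4,3),(13,1)]⟩⟩,.o ⟨false,1,⟨7,[(16,3),(14,0),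
  (0,0),(11,1),(6,3)]⟩,⟨0,[(37,0)]⟩⟩,.o ⟨false,1,⟨1,[(34,1),(9,0),(5,0)]⟩,⟨11,[(1,1),(4,3),(6,1),
  (17,0),(1,11),(2,3),(7,2)]⟩⟩,.a ⟨true,0,⟨0,[(34,0)]⟩,⟨0,[(33,0)]⟩⟩ ⟨false,1,⟨1,[(31,0),(18,0)]⟩,
  ⟨0,[(5,0)]⟩⟩ ⟨true,0,⟨2,[(6,0),(2,0),(6,0),(16,2)]⟩,⟨0,[(34,0),(2,0)]⟩⟩]⟩) (.R ⟨1,false,false,
  false,[1,0,0,-1],[1,0,-1],[1,1,0,0,0,0,0,0,-1],(⟨0,[(33,0)]⟩,⟨0,[(34,0)]⟩),(⟨0,[(42,0)]⟩,⟨0,[(43,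
  0)]⟩),⟨0,[(2,0)]⟩,.k,.k,(.x (-1) ⟨11,[(19,3),(1,3),(9,4),(0,4),(11,1)]⟩ ⟨0,[(46,0)]⟩),.k,(.x 0 ⟨2,
  [(6,0),(12,2),(3,0),(6,0)]⟩ ⟨29,[(7,9),(3,7),(13,5),(5,10),(0,10),(7,9)]⟩),.k,⟨false,1,⟨0,[(6,0),
  (1,0),(20,0),(3,0),(3,0),(11,0)]⟩,⟨5,[(0,3),(17,1),(8,1),(4,0),(18,0)]⟩⟩,⟨true,0,⟨0,[(33,0),(2,
  0)]⟩,⟨2,[(6,0),(16,0),(6,0),(3,2)]⟩⟩,⟨false,0,⟨0,[]⟩,⟨3,[(31,0),(0,0),(18,1)]⟩⟩,⟨false,0,⟨47,[(0,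
  9),(4,37),(0,9),(3,3),(5,18),(9,2),(6,47),(10,5),(2,4)]⟩,⟨0,[(8,0),(28,0),(11,0)]⟩⟩,⟨true,0,⟨0,
  [(48,0)]⟩,⟨0,[(49,0)]⟩⟩,⟨false,0,⟨0,[(5,0),(3,0),(23,0)]⟩,⟨0,[(8,0),(28,0),(11,1)]⟩⟩,[.o ⟨false,0,
  ⟨2,[(6,0),(2,0),(6,0)]⟩,⟨3,[(31,0),(0,0),(4,3),(13,1)]⟩⟩,.o ⟨false,1,⟨7,[(16,3),(14,0),(0,0),(11,
  1),(6,3)]⟩,⟨0,[(37,0)]⟩⟩,.o ⟨false,1,⟨1,[(34,1),(9,0),(5,0)]⟩,⟨11,[(1,1),(4,3),(6,1),(17,0),(1,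
  11),(2,3),(7,2)]⟩⟩,.a ⟨true,0,⟨0,[(34,0)]⟩,⟨0,[(33,0)]⟩⟩ ⟨false,1,⟨1,[(31,0),(18,0)]⟩,⟨0,[(5,
  0)]⟩⟩ ⟨true,0,⟨2,[(6,0),(2,0),(6,0),(16,2)]⟩,⟨0,[(34,0),(2,0)]⟩⟩]⟩))) (.I [1,1,0,0,0,0,0,1,1] (.R
  ⟨0,false,false,false,[1,0,0,-1],[1,0,-1],[0,1,0,0,0,0,0,0,-1],(⟨0,[(32,0)]⟩,⟨0,[(33,0)]⟩),(⟨0,
  [(41,0)]⟩,⟨0,[(42,0)]⟩),⟨0,[(1,0)]⟩,.k,.k,(.x (-1) ⟨11,[(18,3),(1,3),(9,4),(0,4),(11,1)]⟩ ⟨0,[(45,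
  0)]⟩),.k,.k,.k,⟨false,1,⟨0,[(5,0),(1,0),(20,0),(3,0),(3,0),(11,0)]⟩,⟨0,[(0,0),(25,1)]⟩⟩,⟨true,0,
  ⟨0,[(32,0),(2,0)]⟩,⟨2,[(5,0),(16,0),(6,0),(3,2)]⟩⟩,⟨true,0,⟨0,[(52,0)]⟩,⟨0,[]⟩⟩,⟨false,0,⟨2,[(4,
  2),(0,0),(2,0),(6,0),(16,2)]⟩,⟨0,[(7,0),(28,0),(11,0)]⟩⟩,⟨false,0,⟨0,[]⟩,⟨0,[]⟩⟩,⟨false,0,⟨0,[]⟩,
  ⟨0,[]⟩⟩,[.o ⟨false,0,⟨2,[(5,0),(2,0),(6,0)]⟩,⟨3,[(30,0),(0,0),(4,3),(13,1)]⟩⟩,.o ⟨false,1,⟨7,[(15,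
  3),(14,0),(0,0),(11,1),(6,3)]⟩,⟨0,[(36,0)]⟩⟩,.o ⟨false,1,⟨1,[(33,1),(9,0),(5,0)]⟩,⟨23,[(5,4),(2,
  1),(3,5),(0,0),(7,0),(10,23),(2,10),(7,5)]⟩⟩,.a ⟨true,0,⟨0,[(33,0)]⟩,⟨0,[(32,0)]⟩⟩ ⟨false,1,⟨1,
  [(30,0),(18,0)]⟩,⟨0,[(4,0)]⟩⟩ ⟨true,0,⟨2,[(5,0),(2,0),(6,0),(16,2)]⟩,⟨0,[(33,0),(2,0)]⟩⟩]⟩) (.R
  ⟨0,false,false,true,[1,0,0,-1],[0,1],[0,1,0,0,0,0,0,0,-1],(⟨0,[(32,0)]⟩,⟨0,[(33,0)]⟩),(⟨0,[(45,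
  0)]⟩,⟨0,[(44,0)]⟩),⟨0,[(1,0)]⟩,.k,.k,(.x (-1) ⟨11,[(18,3),(1,3),(9,4),(0,4),(11,1)]⟩ ⟨0,[(45,
  0)]⟩),(.x (-1) ⟨11,[(18,3),(1,3),(9,4),(0,4),(11,1)]⟩ ⟨0,[(45,0)]⟩),.k,.k,⟨false,1,⟨0,[(0,0),(16,
  0),(10,0),(7,0)]⟩,⟨5,[(4,3),(6,0),(0,0),(8,1),(6,1),(2,0)]⟩⟩,⟨true,0,⟨0,[(32,0)]⟩,⟨7,[(1,2),(10,
  1),(5,0),(1,0),(12,4),(1,3),(7,1)]⟩⟩,⟨true,0,⟨0,[(52,0)]⟩,⟨0,[]⟩⟩,⟨false,0,⟨5,[(4,3),(6,0),(0,0),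
  (8,1),(6,1),(2,0),(0,5)]⟩,⟨9,[(0,0),(4,9),(1,4),(9,2),(1,0),(10,1),(2,4)]⟩⟩,⟨false,0,⟨0,[]⟩,⟨0,
  []⟩⟩,⟨false,0,⟨0,[]⟩,⟨0,[]⟩⟩,[.o ⟨false,0,⟨0,[(47,0)]⟩,⟨23,[(12,7),(4,11),(7,7),(4,0),(0,0),(11,
  11),(6,5)]⟩⟩,.o ⟨false,1,⟨31,[(3,7),(9,3),(7,3),(0,3),(7,14),(0,14),(17,1)]⟩,⟨0,[(5,0)]⟩⟩,.o
  ⟨false,1,⟨1,[(33,1),(9,0),(5,0)]⟩,⟨23,[(5,4),(2,1),(3,5),(0,0),(7,0),(10,23),(2,10),(7,5)]⟩⟩,.a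
  ⟨true,0,⟨0,[(33,0)]⟩,⟨0,[(32,0)]⟩⟩ ⟨false,1,⟨1,[(30,0),(18,0)]⟩,⟨0,[(4,0)]⟩⟩ ⟨true,0,⟨0,[(32,0),
  (14,0)]⟩,⟨0,[(5,0),(27,0)]⟩⟩]⟩))) (.Q [0,1,-1,0,0,0,0,0,-1,0,0,1] (.p true [0,0,0,1] [] (⟨0,[(31,
  0)]⟩,⟨0,[(30,0)]⟩) .k 0 (⟨0,[]⟩,⟨0,[]⟩) .k .k) (.K ⟨0,[0,0,0,1],0,0,(⟨0,[(32,0)]⟩,⟨0,[(31,0)]⟩),
  .k,(.r (-1) ⟨1,[(16,0),(13,0),(20,0)]⟩ ⟨35,[(1,9),(8,6),(0,12),(0,3),(11,5),(4,12),(16,3)]⟩),(.x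
  0 ⟨0,[(44,0)]⟩ ⟨11,[(17,3),(1,3),(9,4),(0,4),(11,1)]⟩),.k,.k,[⟨0,[(32,0)]⟩,⟨0,[(31,0)]⟩,⟨0,[(0,
  0)]⟩,⟨0,[(3,0),(27,0),(1,0),(1,0)]⟩]⟩) (.Q [0,0,0,0,0,-1,0,0,0,1,0,-1] (.ed true [0,1,0,1] .k)
  (.R ⟨1,false,false,true,[1,0,0,-1],[0,1],[1,1,0,0,0,0,0,0,-1],(⟨0,[(32,0)]⟩,⟨0,[(33,0)]⟩),(⟨0,
  [(45,0)]⟩,⟨0,[(44,0)]⟩),⟨0,[(0,0)]⟩,.k,.k,(.x (-1) ⟨11,[(18,3),(1,3),(9,4),(0,4),(11,1)]⟩ ⟨0,[(45,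
  0)]⟩),(.x (-1) ⟨11,[(18,3),(1,3),(9,4),(0,4),(11,1)]⟩ ⟨0,[(45,0)]⟩),(.r (-1) ⟨3,[(2,3),(2,1),(6,
  0),(4,4),(11,0),(7,3),(14,0)]⟩ ⟨23,[(11,5),(0,13),(0,11),(11,7),(4,0),(0,12),(15,11)]⟩),.k,⟨false,
  1,⟨1,[(2,1),(14,1),(11,0),(4,0),(2,0)]⟩,⟨5,[(4,3),(6,0),(0,0),(8,1),(6,1),(2,0)]⟩⟩,⟨true,0,⟨0,
  [(32,0)]⟩,⟨23,[(5,4),(2,1),(3,5),(0,0),(7,0),(11,23),(1,10),(7,5)]⟩⟩,⟨false,0,⟨0,[]⟩,⟨3,[(30,0),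
  (0,0),(18,1)]⟩⟩,⟨false,0,⟨5,[(1,2),(2,0),(7,0),(10,1),(4,3),(2,0),(0,2)]⟩,⟨26,[(2,1),(2,26),(1,
  14),(4,0),(3,0),(0,7),(12,4),(2,11),(12,1)]⟩⟩,⟨true,0,⟨0,[(47,0)]⟩,⟨0,[(48,0)]⟩⟩,⟨false,0,⟨0,[(1,
  0),(21,0),(4,0)]⟩,⟨26,[(2,3),(2,26),(1,2),(4,1),(3,1),(0,15),(12,9),(2,23),(12,3)]⟩⟩,[.o ⟨false,0,
  ⟨0,[(47,0)]⟩,⟨23,[(12,7),(4,11),(7,7),(4,0),(0,0),(11,11),(6,5)]⟩⟩,.o ⟨false,1,⟨31,[(3,7),(9,3),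
  (7,3),(0,3),(7,14),(0,14),(17,1)]⟩,⟨0,[(5,0)]⟩⟩,.o ⟨false,1,⟨1,[(33,1),(9,0),(5,0)]⟩,⟨7,[(1,0),(0,
  0),(2,0),(6,1),(19,6),(1,0),(0,2),(7,1)]⟩⟩,.a ⟨true,0,⟨0,[(33,0)]⟩,⟨0,[(32,0)]⟩⟩ ⟨false,1,⟨1,[(30,
  0),(18,0)]⟩,⟨0,[(4,0)]⟩⟩ ⟨true,0,⟨0,[(32,0),(14,0)]⟩,⟨0,[(5,0),(27,0)]⟩⟩]⟩) (.R ⟨0,false,false,
  true,[1,0,0,-1],[0,1],[1,0,0,0,0,0,0,0,-1],(⟨0,[(32,0)]⟩,⟨0,[(33,0)]⟩),(⟨0,[(45,0)]⟩,⟨0,[(44,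
  0)]⟩),⟨0,[(0,0)]⟩,.k,.k,(.x (-1) ⟨11,[(18,3),(1,3),(9,4),(0,4),(11,1)]⟩ ⟨0,[(45,0)]⟩),(.x (-1)
  ⟨11,[(18,3),(1,3),(9,4),(0,4),(11,1)]⟩ ⟨0,[(45,0)]⟩),.k,.k,⟨false,1,⟨0,[(2,0),(14,0),(22,0)]⟩,⟨2,
  [(4,0),(7,0),(8,0),(6,1),(2,0),(2,0)]⟩⟩,⟨true,0,⟨0,[(32,0)]⟩,⟨7,[(0,2),(11,1),(5,0),(1,0),(12,4),
  (1,3),(7,1)]⟩⟩,⟨true,0,⟨0,[]⟩,⟨0,[(52,0)]⟩⟩,⟨false,0,⟨5,[(1,2),(2,0),(7,0),(10,1),(4,3),(2,0),(0,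
  2)]⟩,⟨26,[(2,1),(2,26),(1,14),(4,0),(3,0),(0,7),(12,4),(2,11),(12,1)]⟩⟩,⟨false,0,⟨0,[]⟩,⟨0,[]⟩⟩,
  ⟨false,0,⟨0,[]⟩,⟨0,[]⟩⟩,[.o ⟨false,0,⟨0,[(47,0)]⟩,⟨23,[(12,7),(4,11),(7,7),(4,0),(0,0),(11,11),(6,
  5)]⟩⟩,.o ⟨false,1,⟨31,[(3,7),(9,3),(7,3),(0,3),(7,14),(0,14),(17,1)]⟩,⟨0,[(5,0)]⟩⟩,.o ⟨false,1,⟨1,
  [(33,1),(9,0),(5,0)]⟩,⟨7,[(1,0),(0,0),(2,0),(6,1),(19,6),(1,0),(0,2),(7,1)]⟩⟩,.a ⟨true,0,⟨0,[(33,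
  0)]⟩,⟨0,[(32,0)]⟩⟩ ⟨false,1,⟨17,[(2,5),(4,1),(3,1),(5,7),(4,3),(3,1),(3,4),(1,1),(17,2)]⟩,⟨0,[(4,
  0),(47,0)]⟩⟩ ⟨true,0,⟨0,[(32,0),(14,0)]⟩,⟨0,[(5,0),(27,0)]⟩⟩]⟩))))) (.Q [0,1,1,0,0,0,0,0,1,0,0,
  -1] (.p false [0,0,0,1] [] (⟨0,[(29,0)]⟩,⟨0,[(28,0)]⟩) .k 0 (⟨0,[]⟩,⟨0,[]⟩) .k .k) (.K ⟨0,[0,0,0,
  1],0,0,(⟨0,[(30,0)]⟩,⟨0,[(29,0)]⟩),.k,(.r (-1) ⟨1,[(14,0),(13,0),(20,0)]⟩ ⟨77,[(1,19),(6,12),(0,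
  28),(0,23),(7,1),(3,15),(2,1),(1,28)]⟩),(.x 0 ⟨0,[(42,0)]⟩ ⟨11,[(15,3),(1,3),(9,4),(0,4),(11,
  1)]⟩),.k,.k,[⟨0,[(30,0)]⟩,⟨0,[(29,0)]⟩,⟨0,[(1,0),(28,0)]⟩,⟨0,[(0,0)]⟩]⟩) (.R ⟨2,false,false,true,
  [0,1],[0,0,0,1],[],(⟨0,[]⟩,⟨0,[]⟩),(⟨0,[(30,0)]⟩,⟨0,[(29,0)]⟩),⟨0,[]⟩,.k,.k,.k,(.r 0 ⟨77,[(1,19),
  (6,12),(0,28),(0,23),(7,1),(3,15),(2,1),(1,28)]⟩ ⟨1,[(14,0),(13,0),(20,0)]⟩),.k,.k,⟨true,0,⟨1,[(0,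
  3),(1,13),(2,5),(3,0),(0,1),(4,14),(1,14),(0,3),(9,0),(0,3),(12,44)]⟩,⟨1,[(2,0),(6,0),(15,1),(2,
  0),(16,0)]⟩⟩,⟨false,0,⟨23,[(2,4),(2,1),(3,5),(0,0),(7,0),(10,23),(2,10),(7,5)]⟩,⟨0,[(30,0),(15,
  0)]⟩⟩,⟨false,1,⟨7,[(14,3),(12,0),(0,0),(18,1)]⟩,⟨47,[(8,5),(0,13),(0,11),(11,7),(4,6),(0,6),(15,
  11)]⟩⟩,⟨true,0,⟨1,[(2,2),(6,0),(15,1),(2,0),(0,1),(15,0)]⟩,⟨0,[(0,0),(43,0)]⟩⟩,⟨false,1,⟨1,[(46,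
  0),(0,0)]⟩,⟨5,[(9,1),(12,1),(4,0),(0,0)]⟩⟩,⟨false,1,⟨5,[(9,1),(12,1),(4,0),(0,3),(0,5),(10,2)]⟩,
  ⟨0,[(0,0)]⟩⟩,[.a ⟨true,0,⟨1,[(2,0),(6,0),(15,1),(2,0),(0,1),(15,0)]⟩,⟨0,[(0,0)]⟩⟩ ⟨false,1,⟨3,
  [(27,0),(0,0),(17,1)]⟩,⟨0,[]⟩⟩ ⟨true,0,⟨1,[(9,0),(18,0),(0,1),(1,0),(0,1),(0,0)]⟩,⟨0,[(0,0)]⟩⟩,.o
  ⟨false,1,⟨5,[(9,1),(12,1),(4,0),(0,3),(0,5),(10,2)]⟩,⟨1,[(0,1),(1,0),(15,0),(12,0)]⟩⟩,.o ⟨false,1,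
  ⟨3,[(27,0),(0,0),(17,1)]⟩,⟨23,[(2,4),(2,1),(3,5),(0,0),(7,0),(13,10),(7,5)]⟩⟩,.e ⟨false,1,⟨1,[(46,
  0),(0,0)]⟩,⟨5,[(9,1),(12,1),(4,0),(0,0)]⟩⟩ ⟨false,1,⟨5,[(9,1),(12,1),(4,0),(0,3),(0,5),(10,2)]⟩,
  ⟨0,[(0,0)]⟩⟩]⟩)))) (.I [0,0,1,1,0,0,0,0,-1] (.Q [0,1,-1,0,0,0,0,0,-1,0,0,1] (.p true [0,0,0,1] []
  (⟨0,[(28,0)]⟩,⟨0,[(27,0)]⟩) .k 0 (⟨0,[]⟩,⟨0,[]⟩) .k .k) (.Q [0,1,1,0,0,0,0,0,1,0,0,-1] (.p false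
  [0,0,0,1] [] (⟨0,[(29,0)]⟩,⟨0,[(28,0)]⟩) .k 0 (⟨0,[]⟩,⟨0,[]⟩) .k .k) (.K ⟨0,[0,0,0,1],0,0,(⟨0,
  [(30,0)]⟩,⟨0,[(29,0)]⟩),.k,(.r (-1) ⟨1,[(14,0),(13,0),(20,0)]⟩ ⟨0,[(2,0)]⟩),(.x 0 ⟨0,[(42,0)]⟩
  ⟨15,[(3,3),(13,3),(9,6),(0,6),(11,1)]⟩),.k,.k,[⟨0,[(30,0)]⟩,⟨0,[(29,0)]⟩,⟨0,[(1,0)]⟩,⟨0,[(0,
  0)]⟩]⟩) (.Q [0,1,1,-1,0,0,0,0,1,0,0,-1] (.p false [0,0,0,1] [] (⟨0,[(30,0)]⟩,⟨0,[(29,0)]⟩) .k 0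
  (⟨0,[]⟩,⟨0,[]⟩) .k .k) (.R ⟨2,false,false,true,[0,1],[0,0,0,1],[1,1,0,0,0,0,0,0,1],(⟨0,[]⟩,⟨0,
  []⟩),(⟨0,[(31,0)]⟩,⟨0,[(30,0)]⟩),⟨0,[]⟩,.k,.k,.k,(.r 0 ⟨0,[(3,0)]⟩ ⟨9,[(0,1),(1,1),(12,3),(13,4),
  (17,0)]⟩),.k,.k,⟨true,0,⟨0,[]⟩,⟨5,[(10,1),(12,1),(4,0),(0,0)]⟩⟩,⟨false,0,⟨4,[(6,1),(3,0),(19,4),
  (2,1),(0,1),(6,0),(2,0),(1,1)]⟩,⟨0,[(31,0),(15,0)]⟩⟩,⟨false,1,⟨9,[(0,1),(1,1),(12,3),(13,4),(17,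
  0)]⟩,⟨7,[(1,2),(1,4),(2,0),(3,0),(0,0),(18,2),(2,0),(7,0),(2,1)]⟩⟩,⟨true,0,⟨0,[(0,0)]⟩,⟨11,[(1,8),
  (0,2),(6,1),(9,3),(1,1),(4,1)]⟩⟩,⟨false,1,⟨1,[(29,0),(17,0)]⟩,⟨8,[(1,4),(8,2),(17,1),(1,4),(2,5),
  (7,0),(2,1)]⟩⟩,⟨false,1,⟨39,[(0,31),(8,3),(1,7),(8,7),(7,10),(0,14),(0,7),(10,1),(6,11)]⟩,⟨0,[(1,
  0)]⟩⟩,[.a ⟨true,0,⟨3,[(0,1),(9,0),(15,1),(2,0),(0,2),(0,0)]⟩,⟨0,[(1,0)]⟩⟩ ⟨false,1,⟨1,[(29,0),(17,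
  0),(2,1)]⟩,⟨4,[(1,4),(4,1),(3,0),(19,4),(2,1),(0,1),(6,0),(2,0),(1,1)]⟩⟩ ⟨true,0,⟨37,[(0,37),(2,
  13),(5,2),(0,6),(0,5),(11,3),(5,6),(15,5)]⟩,⟨0,[(1,0)]⟩⟩,.o ⟨false,1,⟨39,[(0,31),(8,3),(1,7),(8,
  7),(7,10),(0,14),(0,7),(10,1),(6,11)]⟩,⟨0,[(1,0),(4,0),(27,0),(11,0)]⟩⟩,.o ⟨false,1,⟨3,[(28,0),(0,
  0),(17,1)]⟩,⟨4,[(6,1),(3,0),(22,1),(0,1),(6,0),(2,0),(1,1)]⟩⟩,.e ⟨false,1,⟨1,[(29,0),(17,0)]⟩,⟨8,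
  [(1,4),(8,2),(17,1),(1,4),(2,5),(7,0),(2,1)]⟩⟩ ⟨false,1,⟨39,[(0,31),(8,3),(1,7),(8,7),(7,10),(0,
  14),(0,7),(10,1),(6,11)]⟩,⟨0,[(1,0)]⟩⟩]⟩) (.I [0,1,1,0,-1,0,0,0,-1] (.R ⟨1,false,false,false,[0,
  -1,1],[1,0,0,-1],[1,0,-1,-1,0,0,0,1],(⟨0,[(17,0)]⟩,⟨0,[(40,0),(3,0)]⟩),(⟨0,[(31,0)]⟩,⟨0,[(32,
  0)]⟩),⟨0,[(5,0)]⟩,.k,.k,(.x 0 ⟨23,[(5,23),(5,19),(12,7),(4,6),(0,6),(11,5)]⟩ ⟨0,[(9,0)]⟩),(.r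
  (-2) ⟨43,[(16,35),(1,11),(8,15),(1,14),(0,36),(4,31),(2,15)]⟩ ⟨2,[(0,1),(0,0),(5,1),(3,0),(13,0),
  (5,0)]⟩),(.r (-2) ⟨43,[(16,55),(1,3),(8,19),(1,4),(0,26),(4,39),(2,19)]⟩ ⟨60,[(0,32),(0,5),(2,21),
  (5,33),(0,27),(0,6),(8,11),(9,5),(13,9)]⟩),.k,⟨false,2,⟨27,[(12,7),(3,31),(10,19),(1,4),(0,18),(4,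
  19)]⟩,⟨2,[(0,1),(0,0),(5,1),(3,0),(13,0),(5,0)]⟩⟩,⟨true,1,⟨0,[(8,0),(23,0)]⟩,⟨0,[(11,0),(19,0),(2,
  0)]⟩⟩,⟨true,0,⟨0,[]⟩,⟨0,[(51,0)]⟩⟩,⟨false,0,⟨0,[(2,0),(4,0)]⟩,⟨23,[(11,15),(4,11),(7,15),(4,4),(0,
  16),(0,23),(3,23),(13,5)]⟩⟩,⟨false,1,⟨7,[(10,0),(1,1),(8,0),(0,0),(6,1),(0,1),(17,0),(0,2)]⟩,⟨0,
  [(47,0)]⟩⟩,⟨false,0,⟨0,[(1,0),(5,0)]⟩,⟨3,[(11,3),(4,3),(7,3),(4,0),(0,2),(0,3),(3,3)]⟩⟩,[.o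
  ⟨false,0,⟨0,[(2,0),(4,0),(27,0),(11,0)]⟩,⟨5,[(11,1),(12,1),(4,0),(0,3),(0,5),(10,2)]⟩⟩,.a ⟨true,0,
  ⟨0,[(2,0)]⟩,⟨0,[(0,0),(29,0),(0,0)]⟩⟩ ⟨true,1,⟨21,[(16,19),(1,13),(8,3),(1,0),(0,0),(4,7),(2,3)]⟩,
  ⟨1,[(0,1),(9,0),(0,0),(18,0)]⟩⟩ ⟨false,1,⟨0,[(2,0),(5,0)]⟩,⟨23,[(11,19),(12,7),(4,0),(0,12),(0,
  23),(10,5),(8,23)]⟩⟩,.o ⟨false,0,⟨0,[(37,0)]⟩,⟨19,[(8,11),(15,3),(4,2),(0,2),(11,1)]⟩⟩,.o ⟨false,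
  0,⟨23,[(11,19),(12,7),(4,6),(0,6),(11,5)]⟩,⟨0,[(8,0)]⟩⟩]⟩) (.I [1,0,-1,-2,1,0,0,1,1] (.Q [0,0,0,0,
  0,1,0,0,0,-1,0,1] (.ed false [0,1,0,1] .k) (.R ⟨0,false,false,false,[1,0,0,-1],[0,-1,1],[0,1,1],
  (⟨0,[(33,0)]⟩,⟨0,[(34,0)]⟩),(⟨0,[(19,0)]⟩,⟨0,[(42,0),(3,0)]⟩),⟨0,[(0,0)]⟩,.k,.k,(.x (-1) ⟨15,[(7,
  3),(13,3),(9,6),(0,6),(11,1)]⟩ ⟨0,[(46,0)]⟩),(.x (-1) ⟨3,[(10,0),(0,2),(9,0)]⟩ ⟨23,[(7,11),(5,19),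
  (12,7),(4,6),(0,6),(10,11),(0,5)]⟩),.k,.k,⟨true,(-1),⟨0,[(9,0),(3,0),(15,0),(19,0)]⟩,⟨8,[(1,2),(2,
  0),(5,0),(7,3),(1,4),(10,0),(1,0),(3,0)]⟩⟩,⟨false,0,⟨7,[(13,3),(17,0),(0,0),(0,7),(10,1)]⟩,⟨0,
  [(10,0),(23,0)]⟩⟩,⟨true,0,⟨0,[(1,0),(7,0),(3,0),(15,0)]⟩,⟨0,[(4,0),(4,0),(23,0),(3,0),(11,0)]⟩⟩,
  ⟨false,1,⟨71,[(1,47),(11,43),(6,23),(5,7),(4,6),(0,18),(0,71),(10,17),(6,23)]⟩,⟨0,[(3,0),(31,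
  0)]⟩⟩,⟨false,0,⟨0,[]⟩,⟨0,[]⟩⟩,⟨false,0,⟨0,[]⟩,⟨0,[]⟩⟩,[.o ⟨false,1,⟨5,[(1,3),(11,1),(8,1),(8,1),
  (12,0),(6,0)]⟩,⟨0,[(9,0)]⟩⟩,.o ⟨false,1,⟨5,[(1,1),(11,1),(4,1),(1,1),(10,0),(5,1),(6,0),(6,1)]⟩,
  ⟨2,[(12,0),(9,0),(12,1)]⟩⟩,.o ⟨false,1,⟨13,[(3,3),(1,5),(12,1),(13,4),(1,3),(9,6)]⟩,⟨4,[(9,1),(3,
  0),(19,4),(2,1),(0,1),(6,0),(2,0),(1,1)]⟩⟩,.a ⟨true,0,⟨0,[(34,0)]⟩,⟨0,[(33,0)]⟩⟩ ⟨true,0,⟨0,[(53,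
  0)]⟩,⟨0,[]⟩⟩ ⟨false,1,⟨5,[(1,1),(11,1),(4,1),(1,1),(10,0),(1,5),(3,1),(6,0),(6,1)]⟩,⟨5,[(0,3),(6,
  0),(4,2),(8,0),(12,1)]⟩⟩]⟩) (.I [1,0,1,1,-1,0,0,-1,-1] (.R ⟨1,false,false,false,[1,0,0,-1],[0,-1,
  1],[1,0,0,0,0,0,0,0,-1],(⟨0,[(34,0)]⟩,⟨0,[(35,0)]⟩),(⟨0,[(20,0)]⟩,⟨0,[(43,0),(3,0)]⟩),⟨0,[(1,0)]⟩,
  .k,.k,(.x (-1) ⟨15,[(8,3),(13,3),(9,6),(0,6),(11,1)]⟩ ⟨0,[(47,0)]⟩),(.x (-1) ⟨3,[(11,0),(0,2),(9,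
  0)]⟩ ⟨23,[(8,11),(5,19),(12,7),(4,6),(0,6),(10,11),(0,5)]⟩),.k,.k,⟨true,(-1),⟨0,[(0,0)]⟩,⟨35,[(2,
  23),(11,3),(0,5),(11,3),(4,4),(0,10),(4,5),(2,5)]⟩⟩,⟨false,0,⟨7,[(14,3),(17,0),(0,0),(0,7),(10,
  1)]⟩,⟨0,[(11,0),(23,0)]⟩⟩,⟨true,0,⟨0,[]⟩,⟨0,[(54,0)]⟩⟩,⟨false,1,⟨71,[(2,47),(11,43),(6,23),(5,7),
  (4,6),(0,18),(0,71),(10,17),(6,23)]⟩,⟨0,[(4,0),(31,0)]⟩⟩,⟨false,1,⟨7,[(13,0),(1,1),(8,0),(0,0),(6,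
  1),(0,1),(17,0),(0,2)]⟩,⟨0,[(50,0)]⟩⟩,⟨false,1,⟨7,[(2,3),(11,3),(0,3),(16,0),(0,2),(0,7),(10,1),
  (6,1)]⟩,⟨0,[(5,0),(30,0)]⟩⟩,[.o ⟨false,1,⟨5,[(2,3),(11,1),(8,1),(8,1),(12,0),(6,0)]⟩,⟨0,[(10,
  0)]⟩⟩,.o ⟨false,1,⟨5,[(2,1),(11,1),(4,1),(1,1),(10,0),(5,1),(6,0),(6,1)]⟩,⟨2,[(13,0),(9,0),(12,
  1)]⟩⟩,.o ⟨false,1,⟨13,[(4,3),(1,5),(12,1),(13,4),(1,3),(9,6)]⟩,⟨4,[(10,1),(3,0),(19,4),(2,1),(0,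
  1),(6,0),(2,0),(1,1)]⟩⟩,.a ⟨true,0,⟨0,[(35,0)]⟩,⟨0,[(34,0)]⟩⟩ ⟨true,0,⟨1,[(0,0),(4,0),(5,0),(22,
  0),(3,0),(11,0)]⟩,⟨0,[(2,0),(7,0),(3,0),(15,0)]⟩⟩ ⟨false,1,⟨5,[(2,1),(11,1),(4,1),(1,1),(10,0),(1,
  5),(3,1),(6,0),(6,1)]⟩,⟨0,[(10,0),(24,0)]⟩⟩]⟩) (.I [0,1,-1,-2,0,0,0,1,-1] (.R ⟨1,false,false,
  false,[1,0,0,-1],[1,1,-1],[0,1,0,-1,0,0,0,0,-1],(⟨0,[(35,0)]⟩,⟨0,[(36,0)]⟩),(⟨0,[(44,0),(3,0)]⟩,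
  ⟨0,[(21,0)]⟩),⟨0,[(2,0)]⟩,.k,.k,(.x (-1) ⟨15,[(9,3),(13,3),(9,6),(0,6),(11,1)]⟩ ⟨0,[(48,0)]⟩),(.r
  (-1) ⟨22,[(0,9),(0,6),(14,5),(3,3),(12,9),(18,1)]⟩ ⟨1,[(14,0),(0,0),(18,0)]⟩),(.r (-1) ⟨45,[(0,
  31),(0,3),(14,9),(3,21),(12,8),(18,10)]⟩ ⟨18,[(8,6),(5,10),(0,12),(0,2),(11,1),(5,12),(15,2)]⟩),
  .k,⟨true,0,⟨0,[(0,0)]⟩,⟨11,[(14,7),(0,8),(0,3),(11,0),(5,5),(14,0),(3,2)]⟩⟩,⟨false,1,⟨19,[(12,11),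
  (15,3),(4,2),(0,2),(0,19),(10,1)]⟩,⟨2,[(11,0),(3,0),(4,0),(4,0),(10,2),(2,0)]⟩⟩,⟨false,0,⟨0,[(51,
  0)]⟩,⟨7,[(14,0),(1,1),(8,0),(0,0),(6,1),(0,1),(17,0),(0,2)]⟩⟩,⟨false,1,⟨19,[(8,1),(5,8),(0,5),(2,
  0),(9,5),(5,10),(0,19),(10,4),(6,9)]⟩,⟨2,[(0,0),(2,0),(2,2),(4,0),(3,0),(23,1)]⟩⟩,⟨true,0,⟨0,[(55,
  0)]⟩,⟨0,[]⟩⟩,⟨false,1,⟨45,[(8,9),(5,28),(0,8),(0,11),(17,27),(0,45),(2,5),(7,9),(6,16)]⟩,⟨2,[(0,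
  1),(2,1),(2,2),(4,1),(3,1),(23,0)]⟩⟩,[.o ⟨false,0,⟨0,[(11,0)]⟩,⟨5,[(3,3),(11,1),(8,1),(8,1),(12,
  0),(6,0)]⟩⟩,.o ⟨false,1,⟨7,[(14,3),(18,0),(0,0),(11,1),(6,3)]⟩,⟨2,[(0,0),(2,0),(7,0),(3,0),(23,
  1)]⟩⟩,.o ⟨false,1,⟨13,[(5,3),(1,5),(12,1),(13,4),(1,3),(9,6)]⟩,⟨14,[(0,1),(2,1),(7,7),(3,4),(19,
  14),(2,5),(0,3),(6,2),(2,2)]⟩⟩,.a ⟨true,0,⟨0,[(36,0)]⟩,⟨0,[(35,0)]⟩⟩ ⟨false,0,⟨4,[(0,3),(4,0),(5,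
  0),(13,0),(3,2),(5,0)]⟩,⟨33,[(8,15),(5,2),(0,4),(0,5),(11,1),(5,24),(18,13)]⟩⟩ ⟨true,0,⟨0,[(11,0),
  (23,0)]⟩,⟨2,[(0,0),(2,0),(7,0),(3,0),(20,2),(2,1)]⟩⟩]⟩) (.K ⟨1,[1,-1,0,-1],0,0,(⟨0,[(2,0)]⟩,⟨0,
  [(36,0),(11,0)]⟩),(.x (-1) ⟨15,[(9,3),(13,3),(9,6),(0,6),(11,1)]⟩ ⟨0,[(48,0)]⟩),(.r (-1) ⟨7,[(6,
  2),(0,0),(11,3),(0,5),(12,1),(1,3),(3,7)]⟩ ⟨28,[(0,8),(7,3),(6,11),(0,8),(11,11),(5,11),(15,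
  17)]⟩),.k,.k,.k,[⟨5,[(15,1),(12,1),(4,0),(0,0),(0,5)]⟩,⟨4,[(3,0),(2,0),(4,1),(3,1),(20,3),(1,2),
  (0,0),(6,0)]⟩,⟨2,[(0,0),(2,1),(7,1),(3,1),(15,2),(3,2),(3,0)]⟩,⟨0,[(6,0),(44,0)]⟩]⟩)))) (.Q [0,1,
  1,0,0,0,0,0,1,1,0,-1] (.p false [0,0,0,1] [1] (⟨0,[(33,0)]⟩,⟨0,[(32,0)]⟩) .k 1 (⟨0,[]⟩,⟨0,[]⟩) .k
  .k) (.R ⟨1,false,false,false,[0,-1,1],[1,0,0,-1],[1,0,-1,-1,0,0,0,1],(⟨0,[(19,0)]⟩,⟨0,[(42,0),(3,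
  0)]⟩),(⟨0,[(33,0)]⟩,⟨0,[(34,0)]⟩),⟨0,[(7,0)]⟩,.k,.k,(.x 0 ⟨23,[(7,23),(5,19),(12,7),(4,6),(0,6),
  (11,5)]⟩ ⟨0,[(11,0)]⟩),(.r (-2) ⟨43,[(18,35),(1,11),(8,15),(1,14),(0,36),(4,31),(2,15)]⟩ ⟨0,[(1,
  0),(47,0)]⟩),(.r (-2) ⟨43,[(18,55),(1,3),(8,19),(1,4),(0,26),(4,39),(2,19)]⟩ ⟨4,[(1,2),(4,1),(5,
  0),(0,1),(12,0)]⟩),.k,⟨false,2,⟨27,[(14,7),(3,31),(10,19),(1,4),(0,18),(4,19)]⟩,⟨0,[(1,0),(47,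
  0)]⟩⟩,⟨true,1,⟨0,[(10,0),(23,0)]⟩,⟨0,[(13,0),(19,0),(2,0)]⟩⟩,⟨true,0,⟨0,[]⟩,⟨0,[(53,0)]⟩⟩,⟨false,
  0,⟨0,[(4,0),(4,0)]⟩,⟨23,[(0,23),(12,7),(4,11),(7,7),(4,0),(0,0),(4,23),(13,17)]⟩⟩,⟨false,1,⟨7,
  [(12,0),(1,1),(8,0),(0,0),(6,1),(0,1),(17,0),(0,2)]⟩,⟨0,[(49,0)]⟩⟩,⟨false,0,⟨0,[(3,0),(5,0)]⟩,⟨11,
  [(0,11),(12,7),(4,11),(7,7),(4,0),(0,0),(4,11),(13,5)]⟩⟩,[.o ⟨false,0,⟨0,[(4,0),(4,0),(27,0),(11,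
  0)]⟩,⟨1,[(0,1),(43,0),(6,0)]⟩⟩,.a ⟨true,0,⟨0,[(4,0)]⟩,⟨0,[(0,0)]⟩⟩ ⟨true,1,⟨21,[(18,19),(1,13),(8,
  3),(1,0),(0,0),(4,7),(2,3)]⟩,⟨0,[(9,0),(3,0),(15,0),(19,0)]⟩⟩ ⟨false,1,⟨0,[(4,0),(5,0)]⟩,⟨7,[(0,
  7),(12,3),(17,0),(0,0),(11,1)]⟩⟩,.o ⟨false,0,⟨0,[(39,0)]⟩,⟨19,[(10,11),(15,3),(4,2),(0,2),(11,
  1)]⟩⟩,.o ⟨false,0,⟨23,[(13,19),(12,7),(4,6),(0,6),(11,5)]⟩,⟨0,[(10,0)]⟩⟩]⟩) (.Q [0,0,0,0,0,-1,0,0,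
  0,1,0,-1] (.ed true [0,1,0,1] .k) (.R ⟨1,false,false,false,[1,0,0,-1],[1,0,-1],[1,1,0,0,0,0,0,0,
  -1],(⟨0,[(34,0)]⟩,⟨0,[(35,0)]⟩),(⟨0,[(43,0)]⟩,⟨0,[(44,0)]⟩),⟨0,[(0,0)]⟩,.k,.k,(.x (-1) ⟨15,[(8,3),
  (13,3),(9,6),(0,6),(11,1)]⟩ ⟨0,[(47,0)]⟩),.k,(.r (-1) ⟨2,[(6,0),(12,1),(1,0),(5,0),(4,0),(1,0),(3,
  1)]⟩ ⟨1,[(13,0),(0,0),(18,0)]⟩),.k,⟨false,0,⟨0,[(1,0),(28,0),(3,0),(3,0),(11,0)]⟩,⟨1,[(33,0),(8,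
  1),(9,0)]⟩⟩,⟨true,0,⟨0,[(34,0),(2,0)]⟩,⟨1,[(1,0),(4,0),(7,0),(18,0)]⟩⟩,⟨false,0,⟨0,[]⟩,⟨3,[(32,0),
  (0,0),(18,1)]⟩⟩,⟨false,1,⟨23,[(14,7),(2,11),(9,7),(4,0),(0,12),(0,23),(10,5),(6,11)]⟩,⟨0,[(5,0),
  (32,0)]⟩⟩,⟨true,0,⟨0,[(49,0)]⟩,⟨0,[(50,0)]⟩⟩,⟨false,1,⟨19,[(7,1),(5,8),(0,5),(2,0),(9,5),(5,10),
  (0,19),(10,4),(6,9)]⟩,⟨0,[(5,0),(32,0),(11,0)]⟩⟩,[.o ⟨false,0,⟨0,[(10,0),(39,0)]⟩,⟨3,[(32,0),(0,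
  0),(4,3),(13,1)]⟩⟩,.o ⟨false,1,⟨7,[(17,3),(14,0),(0,0),(11,1),(6,3)]⟩,⟨0,[(38,0)]⟩⟩,.o ⟨false,1,
  ⟨29,[(1,7),(4,13),(2,3),(9,1),(13,12),(1,3),(9,10)]⟩,⟨4,[(10,1),(3,0),(19,4),(2,1),(0,1),(6,0),(2,
  0),(1,1)]⟩⟩,.a ⟨true,0,⟨0,[(35,0)]⟩,⟨0,[(34,0)]⟩⟩ ⟨false,0,⟨3,[(1,2),(4,0),(27,3),(1,0),(1,0)]⟩,
  ⟨5,[(14,1),(12,1),(4,0),(0,3),(18,2)]⟩⟩ ⟨true,0,⟨0,[(10,0),(23,0),(15,0)]⟩,⟨0,[(35,0),(2,0)]⟩⟩]⟩)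
  (.R ⟨0,false,false,false,[1,0,0,-1],[1,0,-1],[1,0,1,0,0,0,0,-1],(⟨0,[(34,0)]⟩,⟨0,[(35,0)]⟩),(⟨0,
  [(43,0)]⟩,⟨0,[(44,0)]⟩),⟨0,[(0,0)]⟩,.k,.k,(.x (-1) ⟨15,[(8,3),(13,3),(9,6),(0,6),(11,1)]⟩ ⟨0,[(47,
  0)]⟩),.k,.k,.k,⟨false,0,⟨0,[]⟩,⟨3,[(32,0),(0,0),(17,1)]⟩⟩,⟨true,0,⟨0,[(34,0),(2,0)]⟩,⟨5,[(0,3),(7,
  0),(13,0),(8,2),(3,1)]⟩⟩,⟨true,0,⟨1,[(14,0),(2,0),(15,0)]⟩,⟨0,[(1,0),(28,0),(3,0),(3,0),(11,0)]⟩⟩,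
  ⟨false,1,⟨23,[(14,7),(2,11),(9,7),(4,0),(0,12),(0,23),(10,5),(6,11)]⟩,⟨0,[(5,0),(32,0)]⟩⟩,⟨false,
  0,⟨0,[]⟩,⟨0,[]⟩⟩,⟨false,0,⟨0,[]⟩,⟨0,[]⟩⟩,[.o ⟨false,0,⟨0,[(10,0),(39,0)]⟩,⟨3,[(32,0),(0,0),(4,3),
  (13,1)]⟩⟩,.o ⟨false,1,⟨7,[(17,3),(14,0),(0,0),(11,1),(6,3)]⟩,⟨0,[(38,0)]⟩⟩,.o ⟨false,1,⟨29,[(1,7),
  (4,13),(2,3),(9,1),(13,12),(1,3),(9,10)]⟩,⟨4,[(10,1),(3,0),(19,4),(2,1),(0,1),(6,0),(2,0),(1,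
  1)]⟩⟩,.a ⟨true,0,⟨0,[(35,0)]⟩,⟨0,[(34,0)]⟩⟩ ⟨false,0,⟨0,[(28,0)]⟩,⟨21,[(19,7),(1,9),(8,5),(1,6),
  (0,6),(4,11),(2,5)]⟩⟩ ⟨true,0,⟨0,[(10,0),(23,0),(15,0)]⟩,⟨0,[(35,0),(2,0)]⟩⟩]⟩))))))) (.I [0,0,0,
  0,0,0,0,0,1] (.Q [0,0,0,1,0,0,0,0,0,0,0,1] (.p true [0,0,0,1] [] (⟨0,[(30,0)]⟩,⟨0,[(29,0)]⟩) .k 0
  (⟨0,[]⟩,⟨0,[]⟩) .k .k) (.Q [0,0,3,0,-1,0,0,0,0,0,0,-1] (.p false [0,0,0,1] [] (⟨0,[(31,0)]⟩,⟨0,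
  [(30,0)]⟩) .k 0 (⟨0,[]⟩,⟨0,[]⟩) .k .k) (.Q [0,0,0,0,0,-1,0,0,0,0,0,1] (.ed false [1,-1,0,1] .k)
  (.R ⟨1,false,false,true,[0,0,0,1],[0,1],[1,1,0,0,0,0,0,0,1],(⟨0,[(33,0)]⟩,⟨0,[(32,0)]⟩),(⟨0,[(45,
  0)]⟩,⟨0,[(44,0)]⟩),⟨0,[(0,0)]⟩,.k,.k,(.r (-1) ⟨1,[(17,0),(13,0),(20,0)]⟩ ⟨0,[(5,0)]⟩),(.r (-1) ⟨1,
  [(17,0),(13,0),(20,0)]⟩ ⟨0,[(5,0)]⟩),(.r (-1) ⟨0,[(3,0),(13,0),(34,0)]⟩ ⟨15,[(1,1),(0,1),(2,21),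
  (5,0),(0,0),(0,1),(17,2),(15,1)]⟩),.k,⟨false,1,⟨1,[(3,1),(13,0),(31,0),(2,0)]⟩,⟨0,[(5,0)]⟩⟩,⟨true,
  1,⟨0,[(33,0),(15,0)]⟩,⟨0,[(1,0)]⟩⟩,⟨false,0,⟨0,[]⟩,⟨3,[(30,0),(0,0),(18,1)]⟩⟩,⟨false,1,⟨0,[(7,0),
  (44,0)]⟩,⟨1,[(1,0),(1,0),(0,0),(12,0)]⟩⟩,⟨true,0,⟨0,[(47,0)]⟩,⟨0,[(48,0)]⟩⟩,⟨false,1,⟨0,[(7,0),
  (39,0)]⟩,⟨0,[(1,0),(1,0),(13,0)]⟩⟩,[.o ⟨false,0,⟨0,[(47,0)]⟩,⟨23,[(12,7),(4,11),(7,7),(4,0),(0,0),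
  (11,11),(6,5)]⟩⟩,.a ⟨true,0,⟨0,[(2,0),(29,0)]⟩,⟨0,[(48,0)]⟩⟩ ⟨true,0,⟨0,[(3,0)]⟩,⟨0,[(5,0),(42,
  0)]⟩⟩ ⟨false,1,⟨0,[(2,0),(46,0)]⟩,⟨5,[(1,3),(15,2),(14,1),(10,0),(8,2)]⟩⟩,.o ⟨false,0,⟨2,[(1,0),
  (30,1),(10,0)]⟩,⟨1,[(33,1),(9,0),(5,0)]⟩⟩,.o ⟨false,0,⟨11,[(1,7),(28,2),(0,2),(0,3),(10,1)]⟩,⟨1,
  [(8,0),(0,0),(7,0),(4,0),(10,1),(2,0)]⟩⟩]⟩) (.R ⟨0,false,false,false,[0,0,0,1],[0,1],[1,0,0,0,0,0,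
  0,0,1],(⟨0,[(33,0)]⟩,⟨0,[(32,0)]⟩),(⟨0,[(45,0)]⟩,⟨0,[(44,0)]⟩),⟨0,[(0,0)]⟩,.k,.k,(.r (-1) ⟨1,[(17,
  0),(13,0),(20,0)]⟩ ⟨0,[(5,0)]⟩),(.r (-1) ⟨1,[(17,0),(13,0),(20,0)]⟩ ⟨0,[(5,0)]⟩),.k,.k,⟨false,1,
  ⟨1,[(3,1),(13,0),(31,0),(2,0)]⟩,⟨0,[(5,0)]⟩⟩,⟨true,1,⟨0,[(33,0),(15,0)]⟩,⟨0,[(1,0)]⟩⟩,⟨true,0,⟨0,
  []⟩,⟨0,[(52,0)]⟩⟩,⟨false,1,⟨0,[(7,0)]⟩,⟨13,[(1,8),(1,8),(0,0),(12,6),(13,1),(0,3),(1,3),(1,3)]⟩⟩,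
  ⟨false,0,⟨0,[]⟩,⟨0,[]⟩⟩,⟨false,0,⟨0,[]⟩,⟨0,[]⟩⟩,[.a ⟨true,0,⟨0,[(2,0),(29,0)]⟩,⟨0,[(48,0)]⟩⟩
  ⟨true,0,⟨0,[(3,0)]⟩,⟨0,[(5,0),(42,0)]⟩⟩ ⟨false,1,⟨0,[(2,0),(46,0)]⟩,⟨5,[(1,3),(15,2),(14,1),(10,
  0),(8,2)]⟩⟩,.o ⟨false,1,⟨7,[(11,0),(1,1),(8,0),(0,0),(6,1),(0,1),(17,0),(0,2)]⟩,⟨0,[(8,0),(27,0),
  (11,1)]⟩⟩,.o ⟨false,0,⟨2,[(1,0),(30,1),(10,0)]⟩,⟨1,[(33,1),(9,0),(5,0)]⟩⟩,.o ⟨false,0,⟨11,[(1,7),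
  (28,2),(0,2),(0,3),(10,1)]⟩,⟨1,[(8,0),(0,0),(7,0),(4,0),(10,1),(2,0)]⟩⟩]⟩)) (.Q [0,0,0,0,0,1,0,0,
  0,-1,0,1] (.ed false [0,1,0,1] .k) (.R ⟨0,false,false,false,[1,0,0,-1],[1,-1],[1,0,0,0,0,0,0,0,
  -1],(⟨0,[(32,0)]⟩,⟨0,[(33,0)]⟩),(⟨0,[(44,0)]⟩,⟨0,[(45,0)]⟩),⟨0,[(0,0)]⟩,.k,.k,(.x (-1) ⟨15,[(6,3),
  (13,3),(9,6),(0,6),(11,1)]⟩ ⟨0,[(45,0)]⟩),(.r 0 ⟨0,[(5,0)]⟩ ⟨1,[(17,0),(13,0),(20,0)]⟩),.k,.k,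
  ⟨true,0,⟨0,[(5,0)]⟩,⟨0,[(3,0),(44,0)]⟩⟩,⟨false,0,⟨4,[(8,1),(3,0),(19,4),(2,1),(0,1),(6,0),(2,0),
  (1,1)]⟩,⟨5,[(1,3),(28,0),(0,0),(1,1)]⟩⟩,⟨true,0,⟨0,[]⟩,⟨0,[(52,0)]⟩⟩,⟨false,0,⟨0,[(4,0),(43,0)]⟩,
  ⟨15,[(1,3),(0,7),(4,3),(22,6),(0,0),(15,3)]⟩⟩,⟨false,0,⟨0,[]⟩,⟨0,[]⟩⟩,⟨false,0,⟨0,[]⟩,⟨0,[]⟩⟩,[.a
  ⟨true,0,⟨0,[(48,0)]⟩,⟨0,[(2,0),(29,0)]⟩⟩ ⟨false,1,⟨1,[(30,0),(18,0)]⟩,⟨0,[(3,0)]⟩⟩ ⟨true,0,⟨4,[(8,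
  1),(3,0),(19,4),(2,1),(0,1),(6,0),(2,0),(1,6)]⟩,⟨0,[(2,0)]⟩⟩,.o ⟨false,1,⟨23,[(12,7),(4,11),(7,7),
  (4,0),(0,0),(11,11),(6,5)]⟩,⟨0,[(47,0)]⟩⟩,.o ⟨false,1,⟨11,[(1,3),(28,0),(0,0),(1,7),(9,5)]⟩,⟨4,
  [(8,1),(3,0),(19,4),(2,1),(0,1),(6,0),(2,0),(1,1)]⟩⟩,.e ⟨false,1,⟨6,[(1,0),(3,6),(3,0),(3,0),(3,
  4),(4,0),(3,0),(5,0)]⟩,⟨2,[(3,0),(8,0),(12,0),(5,0)]⟩⟩ ⟨false,1,⟨11,[(4,7),(12,3),(12,4),(0,0),(0,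
  3),(10,1),(4,3)]⟩,⟨0,[(2,0)]⟩⟩]⟩) (.R ⟨1,false,false,false,[1,0,0,-1],[1,-1],[1,0,0,0,0,0,0,0,-1],
  (⟨0,[(32,0)]⟩,⟨0,[(33,0)]⟩),(⟨0,[(44,0)]⟩,⟨0,[(45,0)]⟩),⟨0,[(0,0)]⟩,.k,.k,(.x (-1) ⟨15,[(6,3),(13,
  3),(9,6),(0,6),(11,1)]⟩ ⟨0,[(45,0)]⟩),(.r 0 ⟨0,[(5,0)]⟩ ⟨1,[(17,0),(13,0),(20,0)]⟩),.k,.k,⟨true,0,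
  ⟨0,[(5,0)]⟩,⟨0,[(3,0),(44,0)]⟩⟩,⟨false,0,⟨4,[(8,1),(3,0),(19,4),(2,1),(0,1),(6,0),(2,0),(1,1)]⟩,
  ⟨5,[(1,3),(28,0),(0,0),(1,1)]⟩⟩,⟨true,0,⟨0,[]⟩,⟨0,[(52,0)]⟩⟩,⟨false,0,⟨0,[(4,0),(43,0)]⟩,⟨15,[(1,
  3),(0,7),(4,3),(22,6),(0,0),(15,3)]⟩⟩,⟨false,1,⟨7,[(11,0),(1,1),(8,0),(0,0),(6,1),(0,1),(17,0),(0,
  2)]⟩,⟨0,[(48,0)]⟩⟩,⟨false,0,⟨0,[(4,0)]⟩,⟨11,[(1,3),(28,6),(0,0),(1,7)]⟩⟩,[.a ⟨true,0,⟨0,[(48,0)]⟩,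
  ⟨0,[(2,0),(29,0)]⟩⟩ ⟨false,1,⟨1,[(30,0),(18,0)]⟩,⟨0,[(3,0)]⟩⟩ ⟨true,0,⟨4,[(8,1),(3,0),(19,4),(2,
  1),(0,1),(6,0),(2,0),(1,6)]⟩,⟨0,[(2,0)]⟩⟩,.o ⟨false,1,⟨23,[(12,7),(4,11),(7,7),(4,0),(0,0),(11,
  11),(6,5)]⟩,⟨0,[(47,0)]⟩⟩,.o ⟨false,1,⟨11,[(1,3),(28,0),(0,0),(1,7),(9,5)]⟩,⟨4,[(8,1),(3,0),(19,
  4),(2,1),(0,1),(6,0),(2,0),(1,1)]⟩⟩,.e ⟨false,1,⟨6,[(1,0),(3,6),(3,0),(3,0),(3,4),(4,0),(3,0),(5,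
  0)]⟩,⟨2,[(3,0),(8,0),(12,0),(5,0)]⟩⟩ ⟨false,1,⟨11,[(4,7),(12,3),(12,4),(0,0),(0,3),(10,1),(4,3)]⟩,
  ⟨0,[(2,0)]⟩⟩]⟩))) (.Q [0,0,0,0,0,-1,0,0,0,1,0,-1] (.ed true [0,1,0,1] .k) (.R ⟨1,false,false,
  false,[1,0,0,-1],[1,-1],[1,0,0,0,0,0,0,0,-1],(⟨0,[(31,0)]⟩,⟨0,[(32,0)]⟩),(⟨0,[(43,0)]⟩,⟨0,[(44,
  0)]⟩),⟨0,[(0,0)]⟩,.k,.k,(.x (-1) ⟨15,[(5,3),(13,3),(9,6),(0,6),(11,1)]⟩ ⟨0,[(44,0)]⟩),(.r 0 ⟨0,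
  [(4,0)]⟩ ⟨1,[(16,0),(13,0),(20,0)]⟩),.k,.k,⟨true,0,⟨0,[(4,0)]⟩,⟨0,[(2,0),(44,0)]⟩⟩,⟨false,0,⟨5,
  [(1,1),(1,0),(0,0),(6,0),(19,2),(2,1),(7,0),(3,0)]⟩,⟨0,[(32,0),(15,0)]⟩⟩,⟨true,0,⟨0,[]⟩,⟨0,[(51,
  0)]⟩⟩,⟨false,0,⟨0,[(3,0),(43,0)]⟩,⟨0,[(6,0),(44,0)]⟩⟩,⟨false,1,⟨7,[(10,0),(1,1),(8,0),(0,0),(6,1),
  (0,1),(17,0),(0,2)]⟩,⟨0,[(47,0)]⟩⟩,⟨false,0,⟨0,[(3,0)]⟩,⟨1,[(29,0),(2,1),(15,0)]⟩⟩,[.e ⟨false,1,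
  ⟨1,[(29,0),(18,0)]⟩,⟨0,[(2,0)]⟩⟩ ⟨false,0,⟨0,[(1,0)]⟩,⟨3,[(6,1),(23,0),(1,1),(13,1),(1,0)]⟩⟩,.o
  ⟨false,1,⟨23,[(11,7),(4,11),(7,7),(4,0),(0,0),(11,11),(6,5)]⟩,⟨0,[(46,0)]⟩⟩,.o ⟨false,1,⟨1,[(32,
  1),(9,0),(5,0)]⟩,⟨5,[(1,1),(1,0),(0,0),(6,0),(19,2),(2,1),(7,0),(3,0)]⟩⟩,.a ⟨true,0,⟨0,[(32,0)]⟩,
  ⟨0,[(31,0)]⟩⟩ ⟨false,1,⟨0,[(1,0),(4,0)]⟩,⟨2,[(2,0),(8,0),(12,0),(5,0)]⟩⟩ ⟨true,0,⟨0,[(1,0)]⟩,⟨0,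
  [(32,0),(13,0)]⟩⟩]⟩) (.R ⟨0,false,false,false,[1,0,0,-1],[1,-1],[1,0,0,0,0,0,0,0,-1],(⟨0,[(31,
  0)]⟩,⟨0,[(32,0)]⟩),(⟨0,[(43,0)]⟩,⟨0,[(44,0)]⟩),⟨0,[(0,0)]⟩,.k,.k,(.x (-1) ⟨15,[(5,3),(13,3),(9,6),
  (0,6),(11,1)]⟩ ⟨0,[(44,0)]⟩),(.r 0 ⟨0,[(4,0)]⟩ ⟨1,[(16,0),(13,0),(20,0)]⟩),.k,.k,⟨true,0,⟨0,[(4,
  0)]⟩,⟨0,[(2,0),(44,0)]⟩⟩,⟨false,0,⟨5,[(1,1),(1,0),(0,0),(6,0),(19,2),(2,1),(7,0),(3,0)]⟩,⟨0,[(32,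
  0),(15,0)]⟩⟩,⟨true,0,⟨0,[]⟩,⟨0,[(51,0)]⟩⟩,⟨false,0,⟨0,[(3,0),(43,0)]⟩,⟨0,[(6,0),(44,0)]⟩⟩,⟨false,
  0,⟨0,[]⟩,⟨0,[]⟩⟩,⟨false,0,⟨0,[]⟩,⟨0,[]⟩⟩,[.e ⟨false,1,⟨1,[(29,0),(18,0)]⟩,⟨0,[(2,0)]⟩⟩ ⟨false,0,
  ⟨0,[(1,0)]⟩,⟨3,[(6,1),(23,0),(1,1),(13,1),(1,0)]⟩⟩,.o ⟨false,1,⟨23,[(11,7),(4,11),(7,7),(4,0),(0,
  0),(11,11),(6,5)]⟩,⟨0,[(46,0)]⟩⟩,.o ⟨false,1,⟨1,[(32,1),(9,0),(5,0)]⟩,⟨5,[(1,1),(1,0),(0,0),(6,0),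
  (19,2),(2,1),(7,0),(3,0)]⟩⟩,.a ⟨true,0,⟨0,[(32,0)]⟩,⟨0,[(31,0)]⟩⟩ ⟨false,1,⟨0,[(1,0),(4,0)]⟩,⟨2,
  [(2,0),(8,0),(12,0),(5,0)]⟩⟩ ⟨true,0,⟨0,[(1,0)]⟩,⟨0,[(32,0),(13,0)]⟩⟩]⟩))) (.Q [0,0,0,0,0,-1,0,0,
  0,1,0,-1] (.ed true [0,1,0,1] .k) (.R ⟨1,false,false,true,[1,0,0,-1],[0,0,1],[1,0,0,0,0,0,0,0,-1],
  (⟨0,[(30,0)]⟩,⟨0,[(31,0)]⟩),(⟨0,[(40,0)]⟩,⟨0,[(39,0)]⟩),⟨0,[(0,0)]⟩,.k,.k,(.x (-1) ⟨15,[(4,3),(13,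
  3),(9,6),(0,6),(11,1)]⟩ ⟨0,[(43,0)]⟩),.k,(.x (-1) ⟨79,[(4,3),(2,15),(10,19),(3,31),(5,30),(0,30),
  (11,1)]⟩ ⟨2,[(6,0),(3,0),(4,0),(4,0),(13,0),(5,2),(2,2)]⟩),.k,⟨true,0,⟨0,[(1,0),(22,0)]⟩,⟨0,[(2,
  0),(23,0),(4,0),(2,0),(11,0)]⟩⟩,⟨false,0,⟨2,[(6,0),(3,0),(4,0),(4,0),(9,2),(3,0)]⟩,⟨19,[(7,11),
  (15,3),(4,2),(0,2),(1,19),(9,1)]⟩⟩,⟨true,0,⟨0,[]⟩,⟨0,[(50,0)]⟩⟩,⟨false,0,⟨0,[(2,0),(27,0),(0,0),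
  (2,0)]⟩,⟨22,[(1,9),(3,12),(0,6),(7,7),(0,5),(15,9),(9,3),(2,1)]⟩⟩,⟨false,1,⟨7,[(9,0),(1,1),(8,0),
  (0,0),(6,1),(0,1),(17,0),(0,2)]⟩,⟨0,[(46,0)]⟩⟩,⟨false,0,⟨0,[(2,0),(16,0),(10,0),(0,0)]⟩,⟨43,[(1,
  27),(3,13),(8,21),(0,17),(12,0),(2,29),(9,10),(2,5)]⟩⟩,[.o ⟨false,0,⟨0,[(34,0)]⟩,⟨7,[(13,3),(14,
  0),(0,0),(11,1),(6,3)]⟩⟩,.o ⟨false,1,⟨3,[(28,0),(0,0),(4,3),(13,1)]⟩,⟨0,[(6,0),(39,0)]⟩⟩,.o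
  ⟨false,1,⟨1,[(31,1),(9,0),(5,0)]⟩,⟨5,[(1,1),(0,1),(7,0),(19,3),(1,0),(0,1),(0,0),(6,0)]⟩⟩,.a
  ⟨true,0,⟨0,[(31,0)]⟩,⟨0,[(30,0)]⟩⟩ ⟨false,1,⟨9,[(1,5),(3,1),(1,1),(7,1),(4,1),(7,0),(1,1),(17,
  2)]⟩,⟨5,[(2,3),(7,0),(3,0),(11,1),(2,0),(1,3),(2,1),(11,0)]⟩⟩ ⟨true,0,⟨0,[(30,0),(3,0)]⟩,⟨0,[(6,
  0),(24,0),(14,0)]⟩⟩]⟩) (.R ⟨0,false,false,true,[1,0,0,-1],[0,0,1],[1,0,0,0,0,0,0,0,-1],(⟨0,[(30,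
  0)]⟩,⟨0,[(31,0)]⟩),(⟨0,[(40,0)]⟩,⟨0,[(39,0)]⟩),⟨0,[(0,0)]⟩,.k,.k,(.x (-1) ⟨15,[(4,3),(13,3),(9,6),
  (0,6),(11,1)]⟩ ⟨0,[(43,0)]⟩),.k,.k,.k,⟨true,0,⟨0,[(1,0),(22,0)]⟩,⟨0,[(2,0),(23,0),(4,0),(2,0),(11,
  0)]⟩⟩,⟨false,0,⟨2,[(6,0),(3,0),(4,0),(4,0),(9,2),(3,0)]⟩,⟨19,[(7,11),(15,3),(4,2),(0,2),(1,19),(9,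
  1)]⟩⟩,⟨true,0,⟨0,[]⟩,⟨0,[(50,0)]⟩⟩,⟨false,0,⟨0,[(2,0),(27,0),(0,0),(2,0)]⟩,⟨136,[(0,39),(0,39),(2,
  9),(0,96),(0,12),(7,61),(0,23),(2,9),(22,15),(2,7)]⟩⟩,⟨false,0,⟨0,[]⟩,⟨0,[]⟩⟩,⟨false,0,⟨0,[]⟩,⟨0,
  []⟩⟩,[.o ⟨false,0,⟨0,[(34,0)]⟩,⟨7,[(13,3),(14,0),(0,0),(11,1),(6,3)]⟩⟩,.o ⟨false,1,⟨3,[(28,0),(0,
  0),(4,3),(13,1)]⟩,⟨0,[(6,0),(39,0)]⟩⟩,.o ⟨false,1,⟨1,[(31,1),(9,0),(5,0)]⟩,⟨5,[(1,1),(0,1),(7,0),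
  (19,3),(1,0),(0,1),(0,0),(6,0)]⟩⟩,.a ⟨true,0,⟨0,[(31,0)]⟩,⟨0,[(30,0)]⟩⟩ ⟨false,1,⟨9,[(1,5),(3,1),
  (1,1),(7,1),(4,1),(7,0),(1,1),(17,2)]⟩,⟨11,[(0,3),(1,5),(1,0),(5,2),(7,0),(7,5),(2,2),(1,1),(14,
  5)]⟩⟩ ⟨true,0,⟨0,[(30,0),(3,0)]⟩,⟨5,[(0,3),(3,0),(8,2),(4,0),(12,1)]⟩⟩]⟩)))) (.Q [0,0,0,0,0,1,0,0,
  0,-1,0,1] (.ed false [0,1,0,1] .k) (.R ⟨0,false,false,true,[1,0,0,-1],[0,-1,1],[0,1,0,0,0,0,0,0,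
  -1],(⟨0,[(28,0)]⟩,⟨0,[(29,0)]⟩),(⟨0,[(14,0)]⟩,⟨0,[(37,0),(3,0)]⟩),⟨0,[(0,0)]⟩,.k,.k,(.x (-1) ⟨15,
  [(2,3),(13,3),(9,6),(0,6),(11,1)]⟩ ⟨0,[(41,0)]⟩),(.r 0 ⟨1,[(7,0),(0,0),(17,0)]⟩ ⟨46,[(1,12),(4,6),
  (6,22),(1,11),(5,13),(5,16),(4,34),(5,6),(1,13)]⟩),.k,.k,⟨true,0,⟨1,[(7,0),(0,0),(17,0)]⟩,⟨1,[(1,
  1),(13,0),(16,0),(2,0),(8,0)]⟩⟩,⟨false,0,⟨7,[(8,3),(17,0),(0,0),(0,7),(10,1)]⟩,⟨0,[(5,0),(23,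
  0)]⟩⟩,⟨true,0,⟨0,[(48,0)]⟩,⟨0,[]⟩⟩,⟨false,0,⟨26,[(1,12),(6,17),(4,10),(1,7),(5,9),(5,6),(0,26),(2,
  7),(0,18)]⟩,⟨0,[(3,0),(0,0),(39,0)]⟩⟩,⟨false,0,⟨0,[]⟩,⟨0,[]⟩⟩,⟨false,0,⟨0,[]⟩,⟨0,[]⟩⟩,[.o ⟨false,
  0,⟨0,[(32,0),(11,0)]⟩,⟨7,[(7,3),(18,0),(0,0),(11,1),(6,3)]⟩⟩,.o ⟨false,1,⟨23,[(8,7),(4,11),(7,7),
  (4,6),(0,6),(4,23),(13,5)]⟩,⟨0,[(4,0)]⟩⟩,.o ⟨false,1,⟨1,[(29,1),(9,0),(5,0)]⟩,⟨4,[(4,1),(3,0),(19,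
  4),(2,1),(0,1),(6,0),(2,0),(1,1)]⟩⟩,.a ⟨true,0,⟨0,[(29,0)]⟩,⟨0,[(28,0)]⟩⟩ ⟨false,1,⟨1,[(26,0),(18,
  0)]⟩,⟨29,[(1,11),(5,1),(0,8),(0,3),(11,6),(5,8),(14,12)]⟩⟩ ⟨true,0,⟨0,[(28,0),(3,0),(11,0)]⟩,⟨5,
  [(0,3),(1,0),(4,2),(8,0),(12,1)]⟩⟩]⟩) (.R ⟨1,false,false,true,[1,0,0,-1],[0,-1,1],[1,1,0,0,0,0,0,
  0,-1],(⟨0,[(28,0)]⟩,⟨0,[(29,0)]⟩),(⟨0,[(14,0)]⟩,⟨0,[(37,0),(3,0)]⟩),⟨0,[(0,0)]⟩,.k,.k,(.x (-1)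
  ⟨15,[(2,3),(13,3),(9,6),(0,6),(11,1)]⟩ ⟨0,[(41,0)]⟩),(.r 0 ⟨1,[(7,0),(0,0),(17,0)]⟩ ⟨46,[(1,12),
  (4,6),(6,22),(1,11),(5,13),(5,16),(4,34),(5,6),(1,13)]⟩),.k,.k,⟨true,0,⟨1,[(7,0),(0,0),(17,0)]⟩,
  ⟨1,[(1,1),(13,0),(16,0),(2,0),(8,0)]⟩⟩,⟨false,0,⟨7,[(8,3),(17,0),(0,0),(0,7),(10,1)]⟩,⟨0,[(5,0),
  (23,0)]⟩⟩,⟨false,0,⟨0,[]⟩,⟨3,[(26,0),(0,0),(18,1)]⟩⟩,⟨false,0,⟨26,[(1,12),(6,17),(4,10),(1,7),(5,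
  9),(5,6),(0,26),(2,7),(0,18)]⟩,⟨0,[(3,0),(0,0),(39,0)]⟩⟩,⟨true,0,⟨0,[(43,0)]⟩,⟨0,[(44,0)]⟩⟩,
  ⟨false,0,⟨23,[(1,9),(6,7),(6,9),(11,6),(0,23),(2,5),(0,13),(6,0),(2,1)]⟩,⟨0,[(3,0),(0,0),(39,
  1)]⟩⟩,[.o ⟨false,0,⟨0,[(32,0),(11,0)]⟩,⟨7,[(7,3),(18,0),(0,0),(11,1),(6,3)]⟩⟩,.o ⟨false,1,⟨23,[(8,
  7),(4,11),(7,7),(4,6),(0,6),(4,23),(13,5)]⟩,⟨0,[(4,0)]⟩⟩,.o ⟨false,1,⟨1,[(29,1),(9,0),(5,0)]⟩,⟨4,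
  [(4,1),(3,0),(19,4),(2,1),(0,1),(6,0),(2,0),(1,1)]⟩⟩,.a ⟨true,0,⟨0,[(29,0)]⟩,⟨0,[(28,0)]⟩⟩ ⟨false,
  1,⟨1,[(26,0),(18,0)]⟩,⟨29,[(1,11),(5,1),(0,8),(0,3),(11,6),(5,8),(14,12)]⟩⟩ ⟨true,0,⟨0,[(28,0),(3,
  0),(11,0)]⟩,⟨0,[(4,0),(24,0)]⟩⟩]⟩)))) (.Q [0,1,1,0,-1,0,0,0,1,0,0,-1] (.p false [0,0,0,1] [] (⟨0,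
  [(26,0)]⟩,⟨0,[(25,0)]⟩) .k 0 (⟨0,[]⟩,⟨0,[]⟩) .k .k) (.K ⟨0,[0,0,0,1],0,(-1),(⟨0,[(27,0)]⟩,⟨0,[(26,
  0)]⟩),.k,(.x 0 ⟨11,[(6,7),(5,3),(1,3),(4,7),(4,2),(0,2),(11,1)]⟩ ⟨11,[(4,5),(6,1),(4,3),(6,0),(4,
  0),(1,0),(5,5),(6,3)]⟩),(.x 0 ⟨0,[(39,0)]⟩ ⟨11,[(12,3),(1,3),(9,4),(0,4),(11,1)]⟩),.k,.k,[⟨0,[(27,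
  0)]⟩,⟨0,[(26,0)]⟩,⟨1,[(24,0),(2,1),(15,0),(2,1)]⟩,⟨0,[(0,0)]⟩]⟩) (.I [1,1,1,0,-1,0,0,0,1] (.R ⟨2,
  false,false,true,[0,1],[0,0,0,1],[],(⟨0,[]⟩,⟨0,[]⟩),(⟨0,[(28,0)]⟩,⟨0,[(27,0)]⟩),⟨0,[]⟩,.k,.k,.k,
  (.x (-1) ⟨11,[(5,5),(6,1),(4,3),(6,0),(4,0),(1,0),(5,5),(6,3)]⟩ ⟨11,[(7,7),(5,3),(1,3),(4,7),(4,
  2),(0,2),(11,1)]⟩),.k,.k,⟨true,1,⟨1,[(25,0),(19,0)]⟩,⟨0,[(0,0)]⟩⟩,⟨false,0,⟨19,[(2,5),(3,0),(0,2),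
  (0,1),(16,2),(1,13),(2,3),(7,5),(2,1)]⟩,⟨0,[(28,0),(15,0)]⟩⟩,⟨false,1,⟨7,[(12,3),(12,0),(0,0),(18,
  1)]⟩,⟨47,[(6,5),(0,13),(0,11),(11,7),(4,6),(0,6),(15,11)]⟩⟩,⟨true,(-1),⟨0,[(2,0)]⟩,⟨0,[(1,0),(40,
  0)]⟩⟩,⟨false,1,⟨1,[(44,0),(0,0)]⟩,⟨5,[(7,1),(12,1),(4,0),(0,0)]⟩⟩,⟨false,0,⟨57,[(2,29),(3,4),(0,
  6),(0,9),(17,13),(0,27),(2,3),(7,12),(6,9)]⟩,⟨0,[(1,0)]⟩⟩,[.a ⟨true,(-1),⟨0,[(0,0),(26,0)]⟩,⟨0,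
  [(1,0)]⟩⟩ ⟨false,1,⟨3,[(25,0),(0,0),(17,1)]⟩,⟨0,[]⟩⟩ ⟨true,(-1),⟨47,[(2,47),(3,5),(0,13),(0,11),
  (11,7),(4,6),(0,6),(15,11)]⟩,⟨0,[(1,0)]⟩⟩,.o ⟨false,0,⟨57,[(2,29),(3,4),(0,6),(0,9),(17,13),(0,
  27),(2,3),(7,12),(6,9)]⟩,⟨0,[(1,0),(1,0),(27,0),(11,0)]⟩⟩,.o ⟨false,1,⟨3,[(25,0),(0,0),(17,1)]⟩,
  ⟨4,[(3,1),(3,0),(22,1),(0,1),(6,0),(2,0),(1,1)]⟩⟩,.e ⟨false,1,⟨1,[(44,0),(0,0)]⟩,⟨5,[(7,1),(12,1),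
  (4,0),(0,0)]⟩⟩ ⟨false,0,⟨57,[(2,29),(3,4),(0,6),(0,9),(17,13),(0,27),(2,3),(7,12),(6,9)]⟩,⟨0,[(1,
  0)]⟩⟩]⟩) (.Q [0,0,0,0,0,-1,0,0,0,1,0,-1] (.ed true [0,1,0,1] .k) (.R ⟨1,false,false,false,[1,0,0,
  -1],[1,0,-1],[1,1,0,0,0,0,0,0,-1],(⟨0,[(28,0)]⟩,⟨0,[(29,0)]⟩),(⟨0,[(37,0)]⟩,⟨0,[(38,0)]⟩),⟨0,[(0,
  0)]⟩,.k,.k,(.x (-1) ⟨11,[(14,3),(1,3),(9,4),(0,4),(11,1)]⟩ ⟨0,[(41,0)]⟩),.k,(.x 0 ⟨2,[(4,0),(3,0),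
  (4,0),(0,2),(3,0),(13,0)]⟩ ⟨29,[(6,17),(1,9),(11,5),(0,9),(4,10),(0,10)]⟩),.k,⟨false,1,⟨0,[(1,0),
  (22,0),(7,0),(11,0)]⟩,⟨5,[(3,3),(5,1),(12,7),(4,0),(1,3),(15,2)]⟩⟩,⟨true,0,⟨0,[(28,0),(2,0)]⟩,⟨2,
  [(4,0),(3,0),(4,0),(4,0),(10,2),(2,0)]⟩⟩,⟨false,0,⟨0,[]⟩,⟨3,[(26,0),(0,0),(18,1)]⟩⟩,⟨false,0,⟨3,
  [(3,1),(3,0),(3,0),(15,0),(0,1),(13,1),(3,0)]⟩,⟨0,[(2,0),(29,0)]⟩⟩,⟨true,0,⟨0,[(43,0)]⟩,⟨0,[(44,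
  0)]⟩⟩,⟨false,0,⟨3,[(3,1),(3,1),(1,0),(12,0),(4,0),(0,1),(13,0),(3,0)]⟩,⟨0,[(2,0),(29,0),(11,0)]⟩⟩,
  [.o ⟨false,0,⟨0,[(4,0),(39,0)]⟩,⟨3,[(26,0),(0,0),(4,3),(13,1)]⟩⟩,.o ⟨false,1,⟨7,[(11,3),(14,0),(0,
  0),(11,1),(6,3)]⟩,⟨0,[(32,0)]⟩⟩,.o ⟨false,1,⟨1,[(29,1),(9,0),(5,0)]⟩,⟨19,[(3,5),(3,0),(0,2),(0,1),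
  (16,2),(1,13),(2,3),(7,5),(2,1)]⟩⟩,.a ⟨true,0,⟨0,[(29,0)]⟩,⟨0,[(28,0)]⟩⟩ ⟨false,1,⟨1,[(26,0),(18,
  0)]⟩,⟨5,[(3,1),(5,0),(12,0),(4,1),(1,1),(12,2)]⟩⟩ ⟨true,0,⟨2,[(1,0),(1,0),(0,0),(6,0),(16,1)]⟩,⟨0,
  [(29,0),(2,0)]⟩⟩]⟩) (.R ⟨0,false,false,false,[1,0,0,-1],[1,0,-1],[0,1,0,0,0,0,0,0,-1],(⟨0,[(28,
  0)]⟩,⟨0,[(29,0)]⟩),(⟨0,[(37,0)]⟩,⟨0,[(38,0)]⟩),⟨0,[(0,0)]⟩,.k,.k,(.x (-1) ⟨11,[(14,3),(1,3),(9,4),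
  (0,4),(11,1)]⟩ ⟨0,[(41,0)]⟩),.k,.k,.k,⟨false,1,⟨0,[(1,0),(22,0),(7,0),(11,0)]⟩,⟨5,[(3,3),(5,1),
  (12,7),(4,0),(1,3),(15,2)]⟩⟩,⟨true,0,⟨0,[(28,0),(2,0)]⟩,⟨3,[(0,2),(13,0),(1,0),(8,1),(3,0)]⟩⟩,
  ⟨true,0,⟨0,[(48,0)]⟩,⟨0,[]⟩⟩,⟨false,0,⟨3,[(3,1),(3,0),(3,0),(15,0),(0,1),(13,1),(3,0)]⟩,⟨0,[(2,0),
  (29,0)]⟩⟩,⟨false,0,⟨0,[]⟩,⟨0,[]⟩⟩,⟨false,0,⟨0,[]⟩,⟨0,[]⟩⟩,[.o ⟨false,0,⟨8,[(0,2),(0,2),(1,2),(0,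
  4),(7,1),(1,0),(1,0)]⟩,⟨3,[(26,0),(0,0),(4,3),(13,1)]⟩⟩,.o ⟨false,1,⟨7,[(11,3),(14,0),(0,0),(11,
  1),(6,3)]⟩,⟨0,[(32,0)]⟩⟩,.o ⟨false,1,⟨1,[(29,1),(9,0),(5,0)]⟩,⟨19,[(3,5),(3,0),(0,2),(0,1),(16,2),
  (1,13),(2,3),(7,5),(2,1)]⟩⟩,.a ⟨true,0,⟨0,[(29,0)]⟩,⟨0,[(28,0)]⟩⟩ ⟨false,1,⟨1,[(26,0),(18,0)]⟩,⟨5,
  [(3,1),(5,0),(12,0),(4,1),(1,1),(12,2)]⟩⟩ ⟨true,0,⟨2,[(1,0),(1,0),(0,0),(6,0),(16,1)]⟩,⟨0,[(29,0),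
  (2,0)]⟩⟩]⟩)))))

theorem ok80 : chk (cU (-1) true 10) t80 r52 = true := by decide +kernel

noncomputable def t83 : Tre :=
  (.I [1,0,0,1,0,0,0,0,1] (.Q [0,0,-1,1,1,0,1,1,-1,0,-1,1] (.p false [0,0,1] [0,0,0,1] (⟨0,[(35,
  0)]⟩,⟨0,[(34,0)]⟩) .k 2 (⟨0,[(26,0)]⟩,⟨0,[(25,0)]⟩) .k (.r (-1) ⟨43,[(10,15),(1,19),(8,11),(1,24),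
  (0,2),(4,23),(2,11)]⟩ ⟨5,[(0,5),(4,1),(3,1),(0,1),(11,0),(4,0),(2,0)]⟩)) (.I [0,0,-1,-1,0,0,0,0,
  1] (.Q [0,0,0,0,0,-1,0,0,0,1,0,-1] (.ed true [0,1,0,1] .k) (.Q [0,0,0,1,0,0,0,0,0,0,0,1] (.p true
  [0,0,0,1] [] (⟨0,[(29,0)]⟩,⟨0,[(28,0)]⟩) .k 0 (⟨0,[]⟩,⟨0,[]⟩) .k .k) (.I [0,1,1,0,0,0,0,0,-1] (.R
  ⟨1,false,false,false,[1,0,0,-1],[1,-1],[0,1,0,-1,0,0,0,0,-1],(⟨0,[(30,0)]⟩,⟨0,[(31,0)]⟩),(⟨0,[(42,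
  0)]⟩,⟨0,[(43,0)]⟩),⟨0,[(2,0)]⟩,.k,.k,(.x (-1) ⟨11,[(16,3),(1,3),(9,4),(0,4),(11,1)]⟩ ⟨0,[(43,
  0)]⟩),(.r (-1) ⟨11,[(0,3),(8,1),(0,1),(0,3),(16,8),(0,4)]⟩ ⟨0,[(3,0)]⟩),.k,.k,⟨true,0,⟨0,[(0,0)]⟩,
  ⟨1,[(3,0),(1,0),(38,0)]⟩⟩,⟨false,0,⟨0,[(20,0),(9,0),(2,0),(12,0)]⟩,⟨0,[(31,0),(15,0)]⟩⟩,⟨false,0,
  ⟨0,[(46,0)]⟩,⟨19,[(7,3),(3,3),(8,3),(7,4),(0,4),(17,1),(0,7)]⟩⟩,⟨false,0,⟨28,[(3,26),(6,10),(4,0),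
  (13,0),(0,28),(2,21),(7,8),(2,13)]⟩,⟨3,[(1,1),(2,1),(2,0),(7,0),(12,0),(6,0)]⟩⟩,⟨true,0,⟨0,[(50,
  0)]⟩,⟨0,[]⟩⟩,⟨false,0,⟨49,[(3,45),(2,3),(2,6),(0,18),(0,13),(18,49),(2,23),(7,18),(2,15)]⟩,⟨2,[(1,
  0),(2,0),(10,0),(12,0),(2,0),(3,0)]⟩⟩,[.a ⟨true,0,⟨0,[(46,0)]⟩,⟨0,[(1,0),(28,0)]⟩⟩ ⟨false,1,⟨1,
  [(15,0),(12,0),(21,2)]⟩,⟨1,[(3,0),(1,0),(5,0),(12,0)]⟩⟩ ⟨true,0,⟨0,[(20,0),(9,0),(2,0),(12,1)]⟩,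
  ⟨0,[(1,0)]⟩⟩,.o ⟨false,1,⟨43,[(0,3),(9,9),(4,21),(13,1),(3,19),(7,16),(6,12)]⟩,⟨0,[(45,0)]⟩⟩,.o
  ⟨false,1,⟨1,[(31,1),(9,0),(5,0)]⟩,⟨0,[(20,0),(9,0),(2,0),(12,0)]⟩⟩,.e ⟨false,1,⟨1,[(15,0),(12,0),
  (21,0)]⟩,⟨0,[(6,0)]⟩⟩ ⟨false,1,⟨43,[(0,3),(9,9),(4,21),(13,1),(0,43),(2,19),(7,16),(6,12)]⟩,⟨0,
  [(1,0)]⟩⟩]⟩) (.K ⟨0,[1,1,-1],1,0,(⟨0,[(39,0),(3,0)]⟩,⟨0,[(16,0)]⟩),.k,.k,(.r 0 ⟨47,[(9,29),(0,37),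
  (0,11),(11,7),(4,18),(0,18),(15,11)]⟩ ⟨0,[(0,1),(25,0),(1,0),(5,0),(11,2)]⟩),.k,.k,[⟨0,[(8,0),(30,
  0),(3,1)]⟩,⟨3,[(0,1),(14,1),(10,3),(1,0),(18,0)]⟩,⟨0,[(30,0),(0,0),(2,0),(11,0)]⟩,⟨2,[(9,0),(9,0),
  (12,1)]⟩]⟩)) (.R ⟨1,false,false,false,[1,0,0,-1],[1,0,-1],[0,1,0,-1,0,0,0,0,-1],(⟨0,[(29,0)]⟩,⟨0,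
  [(30,0)]⟩),(⟨0,[(38,0)]⟩,⟨0,[(39,0)]⟩),⟨0,[(1,0)]⟩,.k,.k,(.x (-1) ⟨11,[(15,3),(1,3),(9,4),(0,4),
  (11,1)]⟩ ⟨0,[(42,0)]⟩),.k,(.x 0 ⟨11,[(7,5),(6,1),(4,3),(6,0),(4,0),(1,0),(5,5),(6,3)]⟩ ⟨7,[(21,3),
  (5,2),(0,2),(13,11),(3,1)]⟩),.k,⟨false,1,⟨0,[(0,0),(2,0),(21,0),(19,1)]⟩,⟨0,[(4,0),(18,0)]⟩⟩,
  ⟨true,0,⟨0,[(29,0),(2,0)]⟩,⟨0,[(19,0),(10,0),(14,0)]⟩⟩,⟨false,0,⟨0,[(45,0)]⟩,⟨19,[(6,3),(3,3),(8,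
  3),(7,4),(0,4),(17,1),(0,7)]⟩⟩,⟨false,0,⟨1,[(0,0),(4,1),(7,0),(15,0)]⟩,⟨0,[(3,0),(41,0)]⟩⟩,⟨true,
  0,⟨0,[(49,0)]⟩,⟨0,[]⟩⟩,⟨false,0,⟨3,[(0,1),(4,3),(2,0),(3,0),(16,1)]⟩,⟨0,[(3,0),(41,1)]⟩⟩,[.e
  ⟨false,1,⟨1,[(14,0),(12,0),(21,2)]⟩,⟨1,[(2,0),(1,0),(5,0),(12,0)]⟩⟩ ⟨false,0,⟨3,[(0,1),(7,0),(3,
  0),(16,1)]⟩,⟨41,[(2,4),(0,22),(5,1),(4,10),(1,3),(11,8),(1,18),(2,14),(6,0)]⟩⟩,.o ⟨false,1,⟨7,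
  [(12,3),(14,0),(0,0),(11,1),(6,3)]⟩,⟨0,[(33,0)]⟩⟩,.o ⟨false,1,⟨1,[(30,1),(9,0),(5,0)]⟩,⟨19,[(0,4),
  (7,0),(0,4),(0,0),(7,0),(10,14),(2,8),(7,4)]⟩⟩,.a ⟨true,0,⟨0,[(30,0)]⟩,⟨0,[(29,0)]⟩⟩ ⟨false,1,⟨1,
  [(14,0),(12,0),(21,0)]⟩,⟨0,[(5,0)]⟩⟩ ⟨true,0,⟨3,[(0,1),(7,0),(3,0),(16,1)]⟩,⟨0,[(30,0),(2,
  0)]⟩⟩]⟩)) (.Q [0,0,0,1,0,0,0,0,0,0,0,1] (.p true [0,0,0,1] [] (⟨0,[(29,0)]⟩,⟨0,[(28,0)]⟩) .k 0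
  (⟨0,[]⟩,⟨0,[]⟩) .k .k) (.I [0,1,1,1,0,0,0,0,-1] (.R ⟨0,false,false,false,[1,0,0,-1],[1,-1],[0,1,0,
  0,0,0,0,0,-1],(⟨0,[(30,0)]⟩,⟨0,[(31,0)]⟩),(⟨0,[(42,0)]⟩,⟨0,[(43,0)]⟩),⟨0,[(2,0)]⟩,.k,.k,(.x (-1)
  ⟨11,[(16,3),(1,3),(9,4),(0,4),(11,1)]⟩ ⟨0,[(43,0)]⟩),(.r (-1) ⟨3,[(0,3),(27,0),(0,0),(18,1)]⟩ ⟨0,
  [(3,0)]⟩),.k,.k,⟨true,0,⟨0,[(0,0)]⟩,⟨10,[(3,8),(6,1),(4,0),(7,1),(5,0),(14,4)]⟩⟩,⟨false,0,⟨0,[(20,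
  0),(9,0),(2,0),(12,0)]⟩,⟨0,[(31,0),(15,0)]⟩⟩,⟨true,0,⟨0,[(50,0)]⟩,⟨0,[]⟩⟩,⟨false,0,⟨28,[(3,26),(6,
  10),(4,0),(13,0),(0,28),(2,21),(7,8),(2,13)]⟩,⟨3,[(1,1),(2,1),(2,0),(7,0),(12,0),(6,0)]⟩⟩,⟨false,
  0,⟨0,[]⟩,⟨0,[]⟩⟩,⟨false,0,⟨0,[]⟩,⟨0,[]⟩⟩,[.a ⟨true,0,⟨0,[(46,0)]⟩,⟨0,[(1,0),(28,0)]⟩⟩ ⟨false,1,⟨1,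
  [(28,0),(18,0),(2,1)]⟩,⟨1,[(3,0),(1,0),(38,0)]⟩⟩ ⟨true,0,⟨0,[(20,0),(9,0),(2,0),(12,1)]⟩,⟨0,[(1,
  0)]⟩⟩,.o ⟨false,1,⟨23,[(10,7),(4,11),(7,7),(4,0),(0,0),(11,11),(6,5)]⟩,⟨0,[(45,0)]⟩⟩,.o ⟨false,1,
  ⟨1,[(31,1),(9,0),(5,0)]⟩,⟨0,[(20,0),(9,0),(2,0),(12,0)]⟩⟩,.e ⟨false,1,⟨1,[(28,0),(18,0)]⟩,⟨13,[(3,
  3),(2,3),(3,2),(12,2),(5,2),(14,4)]⟩⟩ ⟨false,1,⟨23,[(10,7),(4,11),(7,7),(4,0),(0,0),(0,23),(10,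
  11),(6,5)]⟩,⟨0,[(1,0)]⟩⟩]⟩) (.K ⟨0,[1,1,-1],1,0,(⟨0,[(39,0),(3,0)]⟩,⟨0,[(16,0)]⟩),.k,.k,(.r 0 ⟨47,
  [(9,29),(0,37),(0,11),(11,7),(4,18),(0,18),(15,11)]⟩ ⟨0,[(0,1),(25,0),(1,0),(5,0),(11,0)]⟩),.k,.k,
  [⟨0,[(8,0),(30,0),(3,1)]⟩,⟨1,[(0,1),(25,1),(1,0),(18,0)]⟩,⟨0,[(30,0),(0,0),(2,0),(11,0)]⟩,⟨2,[(9,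
  0),(9,0),(12,1)]⟩]⟩)) (.R ⟨0,false,false,false,[1,0,0,-1],[1,-1],[0,1,0,0,0,0,0,0,-1],(⟨0,[(29,
  0)]⟩,⟨0,[(30,0)]⟩),(⟨0,[(41,0)]⟩,⟨0,[(42,0)]⟩),⟨0,[(1,0)]⟩,.k,.k,(.x (-1) ⟨11,[(15,3),(1,3),(9,4),
  (0,4),(11,1)]⟩ ⟨0,[(42,0)]⟩),(.r (-1) ⟨47,[(8,5),(0,13),(0,11),(11,7),(4,42),(0,18),(15,11)]⟩ ⟨0,
  [(2,0)]⟩),.k,.k,⟨true,0,⟨5,[(0,1),(0,1),(5,1),(0,0),(0,0),(8,1),(6,3),(1,2),(10,1),(3,1)]⟩,⟨10,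
  [(2,8),(6,1),(4,0),(7,1),(5,0),(14,4)]⟩⟩,⟨false,0,⟨19,[(0,4),(7,0),(0,4),(0,0),(7,0),(10,14),(2,
  8),(7,4)]⟩,⟨0,[(30,0),(15,0)]⟩⟩,⟨true,0,⟨0,[(49,0)]⟩,⟨0,[]⟩⟩,⟨false,0,⟨13,[(0,13),(1,3),(2,3),(3,
  2),(12,2),(5,2),(14,4)]⟩,⟨4,[(3,2),(2,1),(7,0),(12,0),(2,1),(3,0)]⟩⟩,⟨false,0,⟨0,[]⟩,⟨0,[]⟩⟩,
  ⟨false,0,⟨0,[]⟩,⟨0,[]⟩⟩,[.e ⟨false,1,⟨1,[(27,0),(18,0),(2,1)]⟩,⟨1,[(2,0),(1,0),(38,0)]⟩⟩ ⟨false,0,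
  ⟨0,[(0,0)]⟩,⟨7,[(3,3),(2,2),(7,0),(13,1),(1,3),(3,0),(11,0)]⟩⟩,.o ⟨false,1,⟨23,[(9,7),(4,11),(7,
  7),(4,0),(0,0),(11,11),(6,5)]⟩,⟨0,[(44,0)]⟩⟩,.o ⟨false,1,⟨1,[(30,1),(9,0),(5,0)]⟩,⟨19,[(0,4),(7,
  0),(0,4),(0,0),(7,0),(10,14),(2,8),(7,4)]⟩⟩,.a ⟨true,0,⟨0,[(30,0)]⟩,⟨0,[(29,0)]⟩⟩ ⟨false,1,⟨1,
  [(27,0),(18,0)]⟩,⟨13,[(2,3),(2,3),(3,2),(12,2),(5,2),(14,4)]⟩⟩ ⟨true,0,⟨0,[(0,0)]⟩,⟨0,[(30,0),(13,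
  0)]⟩⟩]⟩))) (.Q [0,0,0,0,0,0,-1,-1,0,0,1,-1] (.p true [0,0,1] [0,0,0,1] (⟨0,[(37,0)]⟩,⟨0,[(36,
  0)]⟩) .k 2 (⟨0,[(28,0)]⟩,⟨0,[(27,0)]⟩) .k (.r (-1) ⟨15,[(1,3),(10,3),(1,3),(5,3),(4,6),(0,0),(0,
  3),(3,7),(2,3)]⟩ ⟨5,[(2,5),(4,1),(3,1),(0,1),(11,0),(4,0),(2,0)]⟩)) (.I [1,0,-1,-1,1,0,0,1,-1]
  (.Q [0,0,0,1,0,0,0,0,0,0,0,1] (.p true [0,0,0,1] [] (⟨0,[(30,0)]⟩,⟨0,[(29,0)]⟩) .k 0 (⟨0,[]⟩,⟨0,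
  []⟩) .k .k) (.I [0,0,1,0,0,0,0,1,-1] (.Q [0,0,0,0,0,-1,0,0,0,0,0,1] (.ed false [1,-1,0,1] .k) (.R
  ⟨1,false,false,true,[0,0,0,1],[0,1],[1,1,0,0,0,0,0,0,1],(⟨0,[(33,0)]⟩,⟨0,[(32,0)]⟩),(⟨0,[(45,0)]⟩,
  ⟨0,[(44,0)]⟩),⟨0,[(0,0)]⟩,.k,.k,(.r (-1) ⟨1,[(17,0),(13,0),(20,0)]⟩ ⟨0,[(1,0),(8,0),(0,0),(5,0),
  (2,0),(0,0),(23,3)]⟩),(.r (-1) ⟨1,[(17,0),(13,0),(20,0)]⟩ ⟨0,[(1,0),(8,0),(0,0),(5,0),(2,0),(0,0),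
  (23,3)]⟩),(.r (-1) ⟨0,[(7,0),(9,0),(30,0),(3,0)]⟩ ⟨37,[(5,51),(5,2),(0,6),(0,5),(11,3),(5,6),(15,
  5)]⟩),.k,⟨false,1,⟨0,[(7,0),(9,0),(34,0)]⟩,⟨0,[(1,0),(8,0),(0,0),(5,0),(2,0),(0,0),(23,3)]⟩⟩,
  ⟨true,1,⟨0,[(33,0),(15,0)]⟩,⟨1,[(4,1),(5,1),(13,0),(11,1),(8,4),(0,0)]⟩⟩,⟨false,0,⟨0,[]⟩,⟨3,[(30,
  0),(0,0),(18,1)]⟩⟩,⟨false,1,⟨1,[(2,1),(27,0),(18,0)]⟩,⟨0,[(4,0),(2,0),(28,0),(9,0),(1,1)]⟩⟩,⟨true,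
  0,⟨0,[(47,0)]⟩,⟨0,[(48,0)]⟩⟩,⟨false,1,⟨3,[(2,1),(3,1),(2,1),(20,0),(18,0)]⟩,⟨0,[(4,0),(2,0),(28,
  0),(9,0),(1,2)]⟩⟩,[.o ⟨false,0,⟨0,[(47,0)]⟩,⟨23,[(12,7),(4,11),(7,7),(4,0),(0,0),(11,11),(6,5)]⟩⟩,
  .a ⟨true,0,⟨0,[(2,0),(29,0)]⟩,⟨0,[(48,0)]⟩⟩ ⟨true,0,⟨0,[(7,0),(40,0)]⟩,⟨4,[(1,1),(3,0),(6,0),(3,
  0),(13,0)]⟩⟩ ⟨false,1,⟨0,[(2,0),(46,0)]⟩,⟨1,[(4,0),(7,0),(4,0),(14,0),(2,1),(0,0)]⟩⟩,.o ⟨false,0,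
  ⟨4,[(4,1),(7,0),(19,2),(2,1),(0,1),(6,0),(2,0)]⟩,⟨1,[(33,1),(9,0),(5,0)]⟩⟩,.e ⟨false,1,⟨1,[(31,0),
  (17,0)]⟩,⟨0,[(1,0),(24,0)]⟩⟩ ⟨false,1,⟨0,[(2,0),(46,0)]⟩,⟨19,[(12,13),(4,9),(14,19),(2,27),(7,2),
  (2,3),(3,0)]⟩⟩]⟩) (.R ⟨0,false,false,true,[0,0,0,1],[0,1],[0,1,0,0,0,0,0,0,1],(⟨0,[(33,0)]⟩,⟨0,
  [(32,0)]⟩),(⟨0,[(45,0)]⟩,⟨0,[(44,0)]⟩),⟨0,[(0,0)]⟩,.k,.k,(.r (-1) ⟨1,[(17,0),(13,0),(20,0)]⟩ ⟨0,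
  [(0,3),(0,0),(0,3),(7,0),(0,0),(5,0),(2,0),(0,0),(26,3)]⟩),(.r (-1) ⟨1,[(17,0),(13,0),(20,0)]⟩ ⟨0,
  [(0,3),(0,0),(0,3),(7,0),(0,0),(5,0),(2,0),(0,0),(26,3)]⟩),.k,.k,⟨false,1,⟨0,[(7,0),(9,0),(34,
  0)]⟩,⟨0,[(5,0)]⟩⟩,⟨true,1,⟨0,[(33,0),(15,0)]⟩,⟨5,[(0,4),(9,1),(1,3),(11,0),(0,2),(6,0),(2,1)]⟩⟩,
  ⟨true,0,⟨0,[(52,0)]⟩,⟨0,[]⟩⟩,⟨false,1,⟨1,[(2,1),(27,0),(18,0)]⟩,⟨14,[(0,14),(6,2),(0,9),(1,5),(6,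
  4),(6,2),(6,0),(16,17)]⟩⟩,⟨false,0,⟨0,[]⟩,⟨0,[]⟩⟩,⟨false,0,⟨0,[]⟩,⟨0,[]⟩⟩,[.o ⟨false,0,⟨0,[(47,
  0)]⟩,⟨23,[(12,7),(4,11),(7,7),(4,0),(0,0),(11,11),(6,5)]⟩⟩,.a ⟨true,0,⟨0,[(2,0),(29,0)]⟩,⟨0,[(48,
  0)]⟩⟩ ⟨true,0,⟨0,[(7,0),(40,0)]⟩,⟨4,[(1,1),(3,0),(6,0),(3,0),(13,0)]⟩⟩ ⟨false,1,⟨0,[(2,0),(46,
  0)]⟩,⟨20,[(0,4),(9,1),(1,3),(11,0),(7,15),(2,7),(7,5),(4,20)]⟩⟩,.o ⟨false,0,⟨20,[(0,4),(9,1),(1,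
  3),(11,0),(7,15),(2,7),(7,5)]⟩,⟨1,[(33,1),(9,0),(5,0)]⟩⟩,.e ⟨false,1,⟨1,[(31,0),(17,0)]⟩,⟨0,[(1,
  0),(24,0)]⟩⟩ ⟨false,1,⟨0,[(2,0),(46,0)]⟩,⟨83,[(0,19),(9,7),(1,57),(4,41),(6,3),(7,63),(2,115),(7,
  2),(6,20)]⟩⟩]⟩)) (.Q [0,0,-2,0,1,0,0,0,0,-1,0,1] (.p true [0,0,0,1] [1] (⟨0,[(32,0)]⟩,⟨0,[(31,
  0)]⟩) .k 1 (⟨0,[]⟩,⟨0,[]⟩) .k .k) (.Q [0,0,0,0,0,-1,0,0,0,0,0,1] (.ed false [1,-1,0,1] .k) (.R ⟨1,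
  false,false,true,[0,0,0,1],[0,1],[1,0,0,0,0,0,0,0,1],(⟨0,[(34,0)]⟩,⟨0,[(33,0)]⟩),(⟨0,[(46,0)]⟩,⟨0,
  [(45,0)]⟩),⟨0,[(0,0)]⟩,.k,.k,(.x 0 ⟨29,[(11,11),(1,9),(11,5),(0,9),(4,10),(0,10)]⟩ ⟨0,[(46,0),(3,
  0)]⟩),(.x 0 ⟨29,[(11,11),(1,9),(11,5),(0,9),(4,10),(0,10)]⟩ ⟨0,[(46,0),(3,0)]⟩),(.r (-1) ⟨4,[(2,
  1),(5,0),(9,3),(10,1),(2,0),(4,1),(11,4)]⟩ ⟨37,[(6,51),(5,2),(0,6),(0,5),(11,3),(5,6),(15,5)]⟩),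
  .k,⟨false,1,⟨0,[(8,0),(9,0)]⟩,⟨0,[(6,0),(46,0)]⟩⟩,⟨true,1,⟨0,[(34,0),(15,0)]⟩,⟨1,[(5,1),(5,1),(13,
  0),(11,1),(8,4),(0,0)]⟩⟩,⟨true,0,⟨0,[]⟩,⟨0,[(53,0)]⟩⟩,⟨false,1,⟨1,[(3,1),(27,0),(18,0)]⟩,⟨0,[(2,
  0),(30,0),(2,0),(0,0),(9,0),(1,0)]⟩⟩,⟨false,1,⟨19,[(10,3),(3,3),(8,3),(7,4),(0,4),(17,1),(0,7)]⟩,
  ⟨0,[(49,0)]⟩⟩,⟨false,1,⟨3,[(3,1),(3,1),(2,1),(20,0),(18,0)]⟩,⟨0,[(2,0),(30,0),(2,0),(0,0),(9,0),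
  (1,1)]⟩⟩,[.o ⟨false,0,⟨0,[(48,0)]⟩,⟨23,[(13,7),(4,11),(7,7),(4,0),(0,0),(11,11),(6,5)]⟩⟩,.a ⟨true,
  0,⟨0,[(3,0),(29,0)]⟩,⟨0,[(49,0)]⟩⟩ ⟨true,0,⟨0,[(2,0),(17,0),(28,0)]⟩,⟨0,[(6,0),(42,0),(3,0)]⟩⟩
  ⟨false,1,⟨0,[(3,0),(46,0)]⟩,⟨1,[(5,0),(7,0),(4,0),(14,0),(2,1),(0,0)]⟩⟩,.o ⟨false,0,⟨4,[(5,1),(7,
  0),(19,2),(2,1),(0,1),(6,0),(2,0)]⟩,⟨7,[(1,3),(29,0),(0,0),(1,3),(9,1)]⟩⟩,.o ⟨false,0,⟨11,[(13,7),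
  (12,7),(4,0),(0,0),(0,11),(10,5)]⟩,⟨0,[(1,0)]⟩⟩]⟩) (.R ⟨0,false,false,true,[0,0,0,1],[0,1],[1,0,0,
  0,0,0,0,0,1],(⟨0,[(34,0)]⟩,⟨0,[(33,0)]⟩),(⟨0,[(46,0)]⟩,⟨0,[(45,0)]⟩),⟨0,[(0,0)]⟩,.k,.k,(.x 0 ⟨29,
  [(11,11),(1,9),(11,5),(0,9),(4,10),(0,10)]⟩ ⟨0,[(46,0),(3,0)]⟩),(.x 0 ⟨29,[(11,11),(1,9),(11,5),
  (0,9),(4,10),(0,10)]⟩ ⟨0,[(46,0),(3,0)]⟩),.k,.k,⟨false,1,⟨0,[(8,0),(9,0)]⟩,⟨0,[(6,0),(46,0)]⟩⟩,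
  ⟨true,1,⟨0,[(34,0),(15,0)]⟩,⟨5,[(0,4),(10,1),(1,3),(11,0),(0,2),(6,0),(2,1)]⟩⟩,⟨true,0,⟨0,[]⟩,⟨0,
  [(53,0)]⟩⟩,⟨false,1,⟨1,[(3,1),(27,0),(18,0)]⟩,⟨14,[(0,14),(7,2),(0,9),(1,5),(6,4),(6,2),(6,0),(16,
  17)]⟩⟩,⟨false,0,⟨0,[]⟩,⟨0,[]⟩⟩,⟨false,0,⟨0,[]⟩,⟨0,[]⟩⟩,[.o ⟨false,0,⟨0,[(48,0)]⟩,⟨23,[(13,7),(4,
  11),(7,7),(4,0),(0,0),(11,11),(6,5)]⟩⟩,.a ⟨true,0,⟨0,[(3,0),(29,0)]⟩,⟨0,[(49,0)]⟩⟩ ⟨true,0,⟨0,[(2,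
  0),(17,0),(28,0)]⟩,⟨0,[(6,0),(42,0),(3,0)]⟩⟩ ⟨false,1,⟨0,[(3,0),(46,0)]⟩,⟨20,[(0,4),(10,1),(1,3),
  (11,0),(7,15),(2,7),(7,5),(4,20)]⟩⟩,.o ⟨false,0,⟨20,[(0,4),(10,1),(1,3),(11,0),(7,15),(2,7),(7,
  5)]⟩,⟨7,[(1,3),(29,0),(0,0),(1,3),(9,1)]⟩⟩,.o ⟨false,0,⟨11,[(13,7),(12,7),(4,0),(0,0),(0,11),(10,
  5)]⟩,⟨0,[(1,0)]⟩⟩]⟩)) (.R ⟨1,false,false,false,[1,0,0,-1],[1,-1],[0,1,0,-1,0,0,0,0,-1],(⟨0,[(32,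
  0)]⟩,⟨0,[(33,0)]⟩),(⟨0,[(44,0)]⟩,⟨0,[(45,0)]⟩),⟨2,[(0,1),(10,0),(5,1),(0,0),(1,0),(0,1),(10,0)]⟩,
  .k,.k,(.x (-1) ⟨11,[(18,3),(1,3),(9,4),(0,4),(11,1)]⟩ ⟨0,[(45,0)]⟩),(.x (-1) ⟨0,[(45,0),(3,0)]⟩
  ⟨29,[(10,11),(1,9),(11,5),(0,9),(4,10),(0,10)]⟩),.k,.k,⟨true,0,⟨1,[(0,0),(29,0),(2,0),(0,0),(1,
  0)]⟩,⟨0,[(1,0),(17,0),(28,0)]⟩⟩,⟨false,0,⟨1,[(0,0),(31,0),(10,0)]⟩,⟨0,[(33,0),(15,0)]⟩⟩,⟨false,0,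
  ⟨0,[(48,0)]⟩,⟨19,[(9,3),(3,3),(8,3),(7,4),(0,4),(17,1),(0,7)]⟩⟩,⟨false,0,⟨3,[(0,3),(0,1),(5,0),(0,
  0),(8,2),(17,1),(0,1),(6,0),(2,0)]⟩,⟨1,[(2,1),(27,0),(18,0)]⟩⟩,⟨true,0,⟨0,[(52,0)]⟩,⟨0,[]⟩⟩,
  ⟨false,0,⟨1,[(0,1),(0,0),(5,0),(9,0),(1,0),(23,0)]⟩,⟨2,[(2,0),(3,0),(10,0),(12,0),(2,0),(3,0)]⟩⟩,
  [.a ⟨true,0,⟨0,[(48,0)]⟩,⟨0,[(2,0),(29,0)]⟩⟩ ⟨false,1,⟨1,[(17,0),(12,0),(21,2)]⟩,⟨0,[(1,0),(17,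
  0)]⟩⟩ ⟨true,0,⟨1,[(0,1),(16,0),(25,0),(8,0)]⟩,⟨0,[(2,0)]⟩⟩,.o ⟨false,1,⟨23,[(12,7),(4,11),(7,7),
  (4,0),(0,0),(11,11),(6,5)]⟩,⟨0,[(47,0)]⟩⟩,.o ⟨false,1,⟨1,[(33,1),(9,0),(5,0)]⟩,⟨1,[(0,0),(31,0),
  (10,0)]⟩⟩,.e ⟨false,1,⟨1,[(17,0),(12,0),(21,0)]⟩,⟨0,[(8,0)]⟩⟩ ⟨false,1,⟨7,[(0,3),(16,3),(12,0),(0,
  0),(0,3),(10,3),(6,1)]⟩,⟨0,[(2,0)]⟩⟩]⟩))) (.I [0,0,1,1,0,0,0,0,-1] (.Q [0,0,0,0,0,-1,0,0,0,1,0,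
  -1] (.ed true [0,1,0,1] .k) (.R ⟨1,false,false,false,[1,0,0,-1],[1,-1],[0,0,0,-1,0,0,0,0,-1],(⟨0,
  [(32,0)]⟩,⟨0,[(33,0)]⟩),(⟨0,[(44,0)]⟩,⟨0,[(45,0)]⟩),⟨0,[(0,0)]⟩,.k,.k,(.x (-1) ⟨11,[(18,3),(1,3),
  (9,4),(0,4),(11,1)]⟩ ⟨0,[(45,0)]⟩),(.r 0 ⟨0,[(1,0)]⟩ ⟨1,[(17,0),(13,0),(20,0)]⟩),.k,.k,⟨true,0,⟨0,
  [(5,0),(42,0)]⟩,⟨0,[(7,0),(40,0)]⟩⟩,⟨false,0,⟨15,[(2,2),(1,1),(7,3),(0,0),(7,0),(10,10),(2,6),(7,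
  3)]⟩,⟨0,[(33,0),(15,0)]⟩⟩,⟨true,0,⟨0,[(48,0)]⟩,⟨0,[(47,0)]⟩⟩,⟨false,0,⟨0,[(2,0),(5,0),(39,0)]⟩,⟨4,
  [(6,2),(2,1),(7,0),(12,0),(2,1),(3,0)]⟩⟩,⟨false,1,⟨3,[(30,0),(0,0),(18,1)]⟩,⟨0,[]⟩⟩,⟨false,0,⟨0,
  [(2,0),(5,0)]⟩,⟨9,[(6,3),(2,0),(7,2),(12,2),(2,5),(3,2)]⟩⟩,[.e ⟨false,1,⟨1,[(17,0),(12,0),(21,
  0)]⟩,⟨0,[(7,0)]⟩⟩ ⟨false,0,⟨0,[(2,0)]⟩,⟨7,[(6,3),(2,2),(7,0),(13,1),(1,3),(3,0),(11,0)]⟩⟩,.o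
  ⟨false,1,⟨23,[(12,7),(4,11),(7,7),(4,0),(0,0),(11,11),(6,5)]⟩,⟨0,[(47,0)]⟩⟩,.o ⟨false,1,⟨1,[(33,
  1),(9,0),(5,0)]⟩,⟨15,[(2,2),(1,1),(7,3),(0,0),(7,0),(10,10),(2,6),(7,3)]⟩⟩,.a ⟨true,0,⟨0,[(33,
  0)]⟩,⟨0,[(32,0)]⟩⟩ ⟨false,1,⟨0,[(1,0),(15,0)]⟩,⟨4,[(7,0),(0,1),(3,0),(12,0),(5,0),(15,1)]⟩⟩ ⟨true,
  0,⟨0,[(2,0)]⟩,⟨0,[(33,0),(13,0)]⟩⟩]⟩) (.R ⟨0,false,false,false,[1,0,0,-1],[1,-1],[0,0,0,-1,0,0,0,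
  0,-1],(⟨0,[(32,0)]⟩,⟨0,[(33,0)]⟩),(⟨0,[(44,0)]⟩,⟨0,[(45,0)]⟩),⟨0,[(0,0)]⟩,.k,.k,(.x (-1) ⟨11,[(18,
  3),(1,3),(9,4),(0,4),(11,1)]⟩ ⟨0,[(45,0)]⟩),(.r 0 ⟨0,[(1,0)]⟩ ⟨1,[(17,0),(13,0),(20,0)]⟩),.k,.k,
  ⟨true,0,⟨0,[(5,0),(42,0)]⟩,⟨0,[(7,0),(40,0)]⟩⟩,⟨false,0,⟨15,[(2,2),(1,1),(7,3),(0,0),(7,0),(10,
  10),(2,6),(7,3)]⟩,⟨0,[(33,0),(15,0)]⟩⟩,⟨true,0,⟨0,[(48,0)]⟩,⟨0,[(47,0)]⟩⟩,⟨false,0,⟨0,[(2,0),(5,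
  0),(39,0)]⟩,⟨4,[(6,2),(2,1),(7,0),(12,0),(2,1),(3,0)]⟩⟩,⟨false,0,⟨0,[]⟩,⟨0,[]⟩⟩,⟨false,0,⟨0,[]⟩,
  ⟨0,[]⟩⟩,[.e ⟨false,1,⟨1,[(17,0),(12,0),(21,0)]⟩,⟨0,[(7,0)]⟩⟩ ⟨false,0,⟨0,[(2,0)]⟩,⟨7,[(6,3),(2,2),
  (7,0),(13,1),(1,3),(3,0),(11,0)]⟩⟩,.o ⟨false,1,⟨23,[(12,7),(4,11),(7,7),(4,0),(0,0),(11,11),(6,
  5)]⟩,⟨0,[(47,0)]⟩⟩,.o ⟨false,1,⟨1,[(33,1),(9,0),(5,0)]⟩,⟨15,[(2,2),(1,1),(7,3),(0,0),(7,0),(10,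
  10),(2,6),(7,3)]⟩⟩,.a ⟨true,0,⟨0,[(33,0)]⟩,⟨0,[(32,0)]⟩⟩ ⟨false,1,⟨0,[(1,0),(15,0)]⟩,⟨4,[(7,0),(0,
  1),(3,0),(12,0),(5,0),(15,1)]⟩⟩ ⟨true,0,⟨0,[(2,0)]⟩,⟨0,[(33,0),(13,0)]⟩⟩]⟩)) (.Q [0,0,0,0,0,-1,0,
  0,0,1,0,-1] (.ed true [0,1,0,1] .k) (.R ⟨1,false,false,false,[1,0,0,-1],[1,-1],[0,1,0,-1,0,0,0,0,
  -1],(⟨0,[(32,0)]⟩,⟨0,[(33,0)]⟩),(⟨0,[(44,0)]⟩,⟨0,[(45,0)]⟩),⟨0,[(0,0)]⟩,.k,.k,(.x (-1) ⟨11,[(18,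
  3),(1,3),(9,4),(0,4),(11,1)]⟩ ⟨0,[(45,0)]⟩),(.x (-1) ⟨0,[(45,0),(3,0)]⟩ ⟨29,[(10,11),(1,9),(11,5),
  (0,9),(4,10),(0,10)]⟩),.k,.k,⟨true,0,⟨0,[(5,0),(42,0),(3,0)]⟩,⟨1,[(1,0),(5,0),(38,0)]⟩⟩,⟨false,0,
  ⟨15,[(2,2),(1,1),(7,3),(0,0),(7,0),(10,10),(2,6),(7,3)]⟩,⟨0,[(33,0),(15,0)]⟩⟩,⟨false,0,⟨0,[(48,
  0)]⟩,⟨19,[(9,3),(3,3),(8,3),(7,4),(0,4),(17,1),(0,7)]⟩⟩,⟨false,0,⟨13,[(1,3),(0,13),(5,3),(3,2),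
  (12,2),(5,2),(14,4)]⟩,⟨4,[(6,2),(2,1),(7,0),(12,0),(2,1),(3,0)]⟩⟩,⟨true,0,⟨0,[(52,0)]⟩,⟨0,[]⟩⟩,
  ⟨false,0,⟨0,[(2,0),(5,0)]⟩,⟨9,[(6,3),(2,0),(7,2),(12,2),(2,5),(3,2)]⟩⟩,[.e ⟨false,1,⟨1,[(17,0),
  (12,0),(21,2)]⟩,⟨1,[(1,0),(5,0),(5,0),(12,0)]⟩⟩ ⟨false,0,⟨0,[(2,0)]⟩,⟨7,[(6,3),(2,2),(7,0),(13,1),
  (1,3),(3,0),(11,0)]⟩⟩,.o ⟨false,1,⟨23,[(12,7),(4,11),(7,7),(4,0),(0,0),(11,11),(6,5)]⟩,⟨0,[(47,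
  0)]⟩⟩,.o ⟨false,1,⟨1,[(33,1),(9,0),(5,0)]⟩,⟨15,[(2,2),(1,1),(7,3),(0,0),(7,0),(10,10),(2,6),(7,
  3)]⟩⟩,.a ⟨true,0,⟨0,[(33,0)]⟩,⟨0,[(32,0)]⟩⟩ ⟨false,1,⟨1,[(17,0),(12,0),(21,0)]⟩,⟨0,[(8,0)]⟩⟩
  ⟨true,0,⟨0,[(2,0)]⟩,⟨0,[(33,0),(13,0)]⟩⟩]⟩) (.R ⟨0,false,false,false,[1,0,0,-1],[1,-1],[0,1,0,0,0,
  0,0,0,-1],(⟨0,[(32,0)]⟩,⟨0,[(33,0)]⟩),(⟨0,[(44,0)]⟩,⟨0,[(45,0)]⟩),⟨0,[(0,0)]⟩,.k,.k,(.x (-1) ⟨11,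
  [(18,3),(1,3),(9,4),(0,4),(11,1)]⟩ ⟨0,[(45,0)]⟩),(.x (-1) ⟨0,[(45,0),(3,0)]⟩ ⟨29,[(10,11),(1,9),
  (11,5),(0,9),(4,10),(0,10)]⟩),.k,.k,⟨true,0,⟨0,[(5,0),(46,0)]⟩,⟨10,[(1,8),(10,1),(4,0),(7,1),(5,
  0),(14,4)]⟩⟩,⟨false,0,⟨15,[(2,2),(1,1),(7,3),(0,0),(7,0),(10,10),(2,6),(7,3)]⟩,⟨0,[(33,0),(15,
  0)]⟩⟩,⟨true,0,⟨0,[(52,0)]⟩,⟨0,[]⟩⟩,⟨false,0,⟨13,[(1,3),(0,13),(5,3),(3,2),(12,2),(5,2),(14,4)]⟩,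
  ⟨4,[(6,2),(2,1),(7,0),(12,0),(2,1),(3,0)]⟩⟩,⟨false,0,⟨0,[]⟩,⟨0,[]⟩⟩,⟨false,0,⟨0,[]⟩,⟨0,[]⟩⟩,[.e
  ⟨false,1,⟨1,[(30,0),(18,0),(2,1)]⟩,⟨1,[(1,0),(5,0),(38,0)]⟩⟩ ⟨false,0,⟨0,[(2,0)]⟩,⟨7,[(6,3),(2,2),
  (7,0),(13,1),(1,3),(3,0),(11,0)]⟩⟩,.o ⟨false,1,⟨23,[(12,7),(4,11),(7,7),(4,0),(0,0),(11,11),(6,
  5)]⟩,⟨0,[(47,0)]⟩⟩,.o ⟨false,1,⟨1,[(33,1),(9,0),(5,0)]⟩,⟨15,[(2,2),(1,1),(7,3),(0,0),(7,0),(10,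
  10),(2,6),(7,3)]⟩⟩,.a ⟨true,0,⟨0,[(33,0)]⟩,⟨0,[(32,0)]⟩⟩ ⟨false,1,⟨1,[(30,0),(18,0)]⟩,⟨13,[(1,3),
  (6,3),(3,2),(12,2),(5,2),(14,4)]⟩⟩ ⟨true,0,⟨0,[(2,0)]⟩,⟨0,[(33,0),(13,0)]⟩⟩]⟩)))) (.Q [0,0,0,0,0,
  -1,0,0,0,1,0,-1] (.ed true [0,1,0,1] .k) (.R ⟨1,false,false,false,[1,0,0,-1],[1,0,-1],[0,1,0,-1,0,
  0,0,0,-1],(⟨0,[(30,0)]⟩,⟨0,[(31,0)]⟩),(⟨0,[(39,0)]⟩,⟨0,[(40,0)]⟩),⟨0,[(0,0)]⟩,.k,.k,(.x (-1) ⟨11,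
  [(16,3),(1,3),(9,4),(0,4),(11,1)]⟩ ⟨0,[(43,0)]⟩),.k,(.r (-2) ⟨2,[(4,0),(10,1),(7,0),(4,1),(0,0),
  (0,0),(3,1),(2,0)]⟩ ⟨0,[(1,0)]⟩),.k,⟨false,1,⟨0,[(3,0),(11,0),(10,0),(7,0),(11,0)]⟩,⟨0,[(5,0),(18,
  0)]⟩⟩,⟨true,0,⟨0,[(30,0),(2,0)]⟩,⟨0,[(20,0),(10,0),(14,0)]⟩⟩,⟨false,0,⟨0,[(46,0)]⟩,⟨19,[(7,3),(3,
  3),(8,3),(7,4),(0,4),(17,1),(0,7)]⟩⟩,⟨false,0,⟨6,[(1,2),(0,3),(12,0),(13,1),(0,2),(2,2),(10,2),(1,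
  0)]⟩,⟨0,[(4,0),(41,0)]⟩⟩,⟨true,0,⟨0,[(50,0)]⟩,⟨0,[]⟩⟩,⟨false,0,⟨0,[(2,0),(3,0)]⟩,⟨0,[(4,0),(41,
  1)]⟩⟩,[.e ⟨false,1,⟨1,[(15,0),(12,0),(21,2)]⟩,⟨1,[(1,0),(3,0),(5,0),(3,0)]⟩⟩ ⟨false,0,⟨0,[(2,0)]⟩,
  ⟨5,[(4,2),(1,0),(8,1),(13,0),(1,2),(2,2)]⟩⟩,.o ⟨false,1,⟨7,[(13,3),(14,0),(0,0),(11,1),(6,3)]⟩,⟨0,
  [(34,0)]⟩⟩,.o ⟨false,1,⟨1,[(31,1),(9,0),(5,0)]⟩,⟨4,[(2,1),(7,0),(19,2),(2,1),(0,1),(6,0),(2,0)]⟩⟩,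
  .a ⟨true,0,⟨0,[(31,0)]⟩,⟨0,[(30,0)]⟩⟩ ⟨false,1,⟨1,[(15,0),(12,0),(21,0)]⟩,⟨0,[(6,0)]⟩⟩ ⟨true,0,⟨0,
  [(2,0)]⟩,⟨0,[(31,0),(2,0)]⟩⟩]⟩) (.R ⟨0,false,false,false,[1,0,0,-1],[1,0,-1],[1,0,1,0,0,0,0,-1],
  (⟨0,[(30,0)]⟩,⟨0,[(31,0)]⟩),(⟨0,[(39,0)]⟩,⟨0,[(40,0)]⟩),⟨0,[(0,0)]⟩,.k,.k,(.x (-1) ⟨11,[(16,3),(1,
  3),(9,4),(0,4),(11,1)]⟩ ⟨0,[(43,0)]⟩),.k,.k,.k,⟨false,0,⟨0,[]⟩,⟨3,[(28,0),(0,0),(17,1)]⟩⟩,⟨true,0,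
  ⟨0,[(30,0),(2,0)]⟩,⟨6,[(0,3),(7,0),(9,0),(8,2),(3,2),(15,0)]⟩⟩,⟨true,(-1),⟨0,[(1,0),(44,0)]⟩,⟨0,
  [(3,0),(11,0),(10,0),(7,0)]⟩⟩,⟨false,0,⟨6,[(1,2),(0,3),(12,0),(13,1),(0,2),(2,2),(10,2),(1,0)]⟩,
  ⟨0,[(4,0),(41,0)]⟩⟩,⟨false,0,⟨0,[]⟩,⟨0,[]⟩⟩,⟨false,0,⟨0,[]⟩,⟨0,[]⟩⟩,[.e ⟨false,0,⟨0,[(38,0)]⟩,⟨7,
  [(4,1),(6,1),(3,3),(7,1),(2,1),(2,0),(0,1),(3,3),(12,0)]⟩⟩ ⟨false,0,⟨0,[(2,0)]⟩,⟨5,[(4,2),(1,0),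
  (8,1),(13,0),(1,2),(2,2)]⟩⟩,.o ⟨false,1,⟨7,[(13,3),(14,0),(0,0),(11,1),(6,3)]⟩,⟨0,[(34,0)]⟩⟩,.o
  ⟨false,1,⟨1,[(31,1),(9,0),(5,0)]⟩,⟨4,[(2,1),(7,0),(19,2),(2,1),(0,1),(6,0),(2,0)]⟩⟩,.a ⟨true,0,⟨0,
  [(31,0)]⟩,⟨0,[(30,0)]⟩⟩ ⟨false,0,⟨0,[(24,0)]⟩,⟨15,[(4,3),(10,3),(1,3),(5,3),(4,2),(0,4),(0,3),(3,
  7),(2,3)]⟩⟩ ⟨true,0,⟨0,[(2,0)]⟩,⟨0,[(31,0),(2,0)]⟩⟩]⟩))) (.I [0,-1,1,1,0,0,0,0,-1] (.R ⟨1,false,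
  false,false,[0,0,0,1],[0,-1,1],[1,0,0,0,0,0,0,0,1],(⟨0,[(30,0)]⟩,⟨0,[(29,0)]⟩),(⟨0,[(15,0)]⟩,⟨0,
  [(38,0),(3,0)]⟩),⟨2,[(1,1),(10,0),(2,0),(1,0),(12,0)]⟩,.k,.k,(.r (-1) ⟨1,[(14,0),(13,0),(20,0)]⟩
  ⟨1,[(0,1),(7,0),(6,0),(1,0),(0,1),(23,2),(2,3)]⟩),(.r 0 ⟨1,[(8,0),(0,0),(18,0)]⟩ ⟨0,[(0,0),(13,0),
  (10,0),(7,0),(11,0)]⟩),.k,.k,⟨false,0,⟨0,[(4,0),(32,0)]⟩,⟨0,[(0,0),(13,0),(10,0),(7,0),(11,0)]⟩⟩,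
  ⟨true,0,⟨0,[(1,0),(35,0)]⟩,⟨0,[(29,0),(2,0)]⟩⟩,⟨true,0,⟨0,[]⟩,⟨0,[(49,0)]⟩⟩,⟨false,1,⟨2,[(0,0),(0,
  2),(12,1),(12,0)]⟩,⟨7,[(4,5),(3,0),(0,1),(2,2),(15,0),(0,7),(2,3),(7,0)]⟩⟩,⟨false,1,⟨19,[(6,3),(3,
  3),(8,3),(7,4),(0,4),(17,1),(0,7)]⟩,⟨0,[(45,0)]⟩⟩,⟨false,1,⟨1,[(0,0),(0,0),(1,0),(10,0)]⟩,⟨7,[(4,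
  5),(4,1),(3,3),(14,0),(0,7),(2,3),(7,0),(4,1)]⟩⟩,[.a ⟨true,0,⟨0,[(1,0),(27,0),(15,0)]⟩,⟨4,[(6,2),
  (6,0),(15,0),(0,0)]⟩⟩ ⟨true,0,⟨0,[(4,0),(40,0)]⟩,⟨0,[(2,0),(42,0)]⟩⟩ ⟨false,1,⟨1,[(1,1),(12,0),
  (31,0),(2,0)]⟩,⟨19,[(2,1),(5,8),(0,5),(2,0),(9,5),(5,0),(0,19),(10,4)]⟩⟩,.o ⟨false,1,⟨23,[(9,7),
  (4,11),(7,7),(4,0),(0,0),(4,23),(13,17)]⟩,⟨2,[(8,0),(9,0),(12,1)]⟩⟩,.o ⟨false,0,⟨0,[(19,0),(9,0),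
  (2,0),(12,0)]⟩,⟨1,[(30,1),(9,0),(5,0)]⟩⟩,.o ⟨false,0,⟨11,[(9,7),(12,7),(4,0),(0,0),(0,11),(10,
  5)]⟩,⟨2,[(1,2),(6,1),(5,2),(3,1),(12,0)]⟩⟩]⟩) (.R ⟨1,false,false,true,[0,0,0,1],[0,-1,1],[1,0,0,0,
  0,0,0,0,1],(⟨0,[(30,0)]⟩,⟨0,[(29,0)]⟩),(⟨0,[(15,0)]⟩,⟨0,[(38,0),(3,0)]⟩),⟨2,[(1,1),(10,0),(2,0),
  (1,0),(12,0)]⟩,.k,.k,(.x 0 ⟨29,[(7,11),(1,9),(11,5),(0,9),(4,10),(0,10)]⟩ ⟨0,[(42,0),(3,0)]⟩),(.x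
  (-1) ⟨7,[(21,3),(5,2),(0,2),(13,11),(3,1)]⟩ ⟨11,[(7,5),(6,1),(4,3),(6,0),(4,0),(1,0),(5,5),(6,
  3)]⟩),.k,.k,⟨false,0,⟨0,[(4,0),(18,0)]⟩,⟨0,[(2,0),(11,0),(10,0),(7,0),(11,0)]⟩⟩,⟨true,0,⟨0,[(1,0),
  (35,0)]⟩,⟨0,[(29,0),(2,0)]⟩⟩,⟨true,0,⟨0,[]⟩,⟨0,[(49,0)]⟩⟩,⟨false,1,⟨2,[(0,0),(0,2),(12,0),(12,
  1)]⟩,⟨5,[(0,1),(3,3),(3,1),(0,0),(2,0),(16,5),(2,1),(7,0),(2,3)]⟩⟩,⟨false,1,⟨19,[(6,3),(3,3),(8,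
  3),(7,4),(0,4),(17,1),(0,7)]⟩,⟨0,[(45,0)]⟩⟩,⟨false,1,⟨5,[(0,0),(0,2),(1,2),(10,0),(12,1)]⟩,⟨5,[(0,
  2),(3,1),(0,0),(3,0),(2,2),(16,5),(2,1),(7,0),(2,3)]⟩⟩,[.o ⟨false,0,⟨0,[(33,0),(11,0)]⟩,⟨7,[(8,3),
  (18,0),(0,0),(11,1),(6,3)]⟩⟩,.a ⟨true,0,⟨0,[(1,0),(27,0),(15,0)]⟩,⟨4,[(6,2),(6,0),(15,0),(0,0)]⟩⟩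
  ⟨true,0,⟨1,[(0,1),(9,0),(12,0),(19,0)]⟩,⟨0,[(2,0),(42,0),(3,0)]⟩⟩ ⟨false,1,⟨1,[(0,0),(0,0),(1,0),
  (10,0)]⟩,⟨19,[(2,1),(5,8),(0,5),(2,0),(9,5),(5,0),(0,19),(10,4)]⟩⟩,.o ⟨false,0,⟨0,[(19,0),(9,0),
  (2,0),(12,0)]⟩,⟨1,[(30,1),(9,0),(5,0)]⟩⟩,.o ⟨false,0,⟨11,[(9,7),(12,7),(4,0),(0,0),(0,11),(10,
  5)]⟩,⟨2,[(1,2),(6,1),(5,2),(3,1),(12,0)]⟩⟩]⟩)))) (.K ⟨0,[0,0,0,1],0,(-1),(⟨0,[(27,0)]⟩,⟨0,[(26,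
  0)]⟩),.k,(.x 0 ⟨29,[(4,11),(1,9),(11,5),(0,9),(4,10),(0,10)]⟩ ⟨0,[(39,0),(3,0)]⟩),(.x 0 ⟨0,[(39,
  0)]⟩ ⟨11,[(12,3),(1,3),(9,4),(0,4),(11,1)]⟩),.k,.k,[⟨0,[(27,0)]⟩,⟨0,[(26,0)]⟩,⟨1,[(24,0),(2,1),
  (15,0),(2,1)]⟩,⟨0,[(0,0),(14,0)]⟩]⟩)) (.Q [0,1,-1,0,0,0,0,0,-1,0,0,1] (.p true [0,0,0,1] [] (⟨0,
  [(26,0)]⟩,⟨0,[(25,0)]⟩) .k 0 (⟨0,[]⟩,⟨0,[]⟩) .k .k) (.K ⟨0,[0,0,0,1],0,0,(⟨0,[(27,0)]⟩,⟨0,[(26,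
  0)]⟩),.k,(.r (-1) ⟨1,[(11,0),(13,0),(20,0)]⟩ ⟨12,[(1,4),(3,2),(0,3),(0,3),(7,1),(3,0),(2,1),(1,
  3)]⟩),(.x 0 ⟨0,[(39,0)]⟩ ⟨11,[(12,3),(1,3),(9,4),(0,4),(11,1)]⟩),.k,.k,[⟨0,[(27,0)]⟩,⟨0,[(26,0)]⟩,
  ⟨0,[(0,0)]⟩,⟨0,[(2,0),(7,0),(15,0),(3,1)]⟩]⟩) (.Q [0,0,0,1,0,0,0,0,0,1,0,-1] (.p false [0,0,0,1]
  [1] (⟨0,[(27,0)]⟩,⟨0,[(26,0)]⟩) .k 1 (⟨0,[]⟩,⟨0,[]⟩) .k .k) (.Q [0,0,0,0,0,-1,0,0,0,1,0,-1] (.ed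
  true [0,1,0,1] .k) (.R ⟨1,false,false,true,[1,0,0,-1],[0,1],[0,1,0,-1,0,0,0,0,-1],(⟨0,[(28,0)]⟩,
  ⟨0,[(29,0)]⟩),(⟨0,[(41,0)]⟩,⟨0,[(40,0)]⟩),⟨0,[(0,0)]⟩,.k,.k,(.x (-1) ⟨11,[(14,3),(1,3),(9,4),(0,
  4),(11,1)]⟩ ⟨0,[(41,0)]⟩),(.x (-1) ⟨11,[(14,3),(1,3),(9,4),(0,4),(11,1)]⟩ ⟨0,[(41,0)]⟩),(.r (-1)
  ⟨1,[(3,1),(9,0),(31,0),(2,0)]⟩ ⟨23,[(7,5),(0,13),(0,11),(11,7),(4,0),(0,12),(15,11)]⟩),.k,⟨false,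
  1,⟨1,[(3,1),(9,0),(31,0),(2,0)]⟩,⟨0,[(4,0),(38,0)]⟩⟩,⟨true,0,⟨0,[(28,0)]⟩,⟨0,[(18,0),(10,0),(1,0),
  (12,0)]⟩⟩,⟨false,0,⟨0,[(44,0)]⟩,⟨19,[(5,3),(3,3),(8,3),(7,4),(0,4),(17,1),(0,7)]⟩⟩,⟨false,0,⟨3,
  [(1,0),(0,0),(1,0),(3,0),(15,1),(2,0),(0,1)]⟩,⟨4,[(3,4),(3,0),(1,0),(3,4),(3,0),(0,4),(10,4),(1,
  3)]⟩⟩,⟨true,0,⟨0,[(48,0)]⟩,⟨0,[]⟩⟩,⟨false,0,⟨5,[(1,4),(0,0),(1,2),(3,0),(15,1),(2,0),(15,1)]⟩,⟨0,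
  [(3,0),(9,0),(4,0),(10,0),(1,0)]⟩⟩,[.o ⟨false,0,⟨0,[(43,0)]⟩,⟨23,[(8,7),(4,11),(7,7),(4,0),(0,0),
  (11,11),(6,5)]⟩⟩,.a ⟨true,0,⟨0,[(1,0),(27,0)]⟩,⟨0,[(44,0)]⟩⟩ ⟨true,0,⟨0,[(3,0)]⟩,⟨5,[(4,3),(3,0),
  (15,1),(2,0),(2,0),(1,0)]⟩⟩ ⟨false,0,⟨0,[(1,0)]⟩,⟨1,[(13,0),(15,1),(9,0),(8,0)]⟩⟩,.o ⟨false,1,⟨1,
  [(29,1),(9,0),(5,0)]⟩,⟨5,[(1,0),(0,1),(0,1),(4,0),(8,0),(10,2),(1,0),(0,1),(7,0)]⟩⟩,.e ⟨false,1,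
  ⟨1,[(13,0),(12,0),(21,0)]⟩,⟨0,[(4,0)]⟩⟩ ⟨false,0,⟨0,[(1,0)]⟩,⟨23,[(8,7),(4,11),(7,7),(4,0),(0,0),
  (1,23),(9,11),(6,5)]⟩⟩]⟩) (.I [0,0,0,0,0,0,0,0,-1] (.R ⟨0,false,false,true,[1,0,0,-1],[0,1],[0,1,
  0,0,0,0,0,0,-1],(⟨0,[(29,0)]⟩,⟨0,[(30,0)]⟩),(⟨0,[(42,0)]⟩,⟨0,[(41,0)]⟩),⟨0,[(1,0)]⟩,.k,.k,(.x
  (-1) ⟨11,[(15,3),(1,3),(9,4),(0,4),(11,1)]⟩ ⟨0,[(42,0)]⟩),(.x (-1) ⟨11,[(15,3),(1,3),(9,4),(0,4),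
  (11,1)]⟩ ⟨0,[(42,0)]⟩),.k,.k,⟨false,1,⟨0,[(4,0),(41,0)]⟩,⟨5,[(5,3),(3,0),(15,1),(2,0),(2,0),(1,
  0)]⟩⟩,⟨true,0,⟨0,[(29,0)]⟩,⟨20,[(1,4),(5,1),(1,3),(11,0),(8,15),(1,7),(7,5)]⟩⟩,⟨true,0,⟨0,[(49,
  0)]⟩,⟨0,[]⟩⟩,⟨false,0,⟨3,[(2,0),(0,0),(1,0),(3,0),(15,1),(2,0),(0,1)]⟩,⟨19,[(0,9),(0,15),(5,3),(0,
  1),(1,3),(3,15),(2,3),(9,4),(2,3),(9,2)]⟩⟩,⟨false,0,⟨0,[]⟩,⟨0,[]⟩⟩,⟨false,0,⟨0,[]⟩,⟨0,[]⟩⟩,[.o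
  ⟨false,0,⟨0,[(44,0)]⟩,⟨23,[(9,7),(4,11),(7,7),(4,0),(0,0),(11,11),(6,5)]⟩⟩,.a ⟨true,0,⟨0,[(2,0),
  (27,0)]⟩,⟨0,[(45,0)]⟩⟩ ⟨true,0,⟨0,[(0,0)]⟩,⟨6,[(1,1),(1,1),(1,0),(1,0),(1,0),(15,2),(2,1),(9,0),
  (6,3)]⟩⟩ ⟨false,0,⟨0,[(2,0)]⟩,⟨1,[(14,0),(15,1),(9,0),(8,0)]⟩⟩,.o ⟨false,1,⟨1,[(30,1),(9,0),(5,
  0)]⟩,⟨5,[(2,0),(0,1),(0,1),(4,0),(8,0),(10,2),(1,0),(0,1),(7,0)]⟩⟩,.e ⟨false,1,⟨1,[(27,0),(18,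
  0)]⟩,⟨0,[(5,0),(39,0)]⟩⟩ ⟨false,0,⟨0,[(2,0)]⟩,⟨23,[(9,7),(4,11),(7,7),(4,0),(0,0),(1,23),(9,11),
  (6,5)]⟩⟩]⟩) (.R ⟨1,false,false,false,[0,0,0,1],[1,-1],[1,0,0,0,0,0,0,0,1],(⟨0,[(30,0)]⟩,⟨0,[(29,
  0)]⟩),(⟨0,[(41,0)]⟩,⟨0,[(42,0)]⟩),⟨1,[(1,0),(13,0),(1,0),(12,0)]⟩,.k,.k,(.r (-1) ⟨1,[(14,0),(13,
  0),(20,0)]⟩ ⟨12,[(4,4),(3,2),(0,3),(0,3),(7,1),(3,0),(2,1),(1,3)]⟩),(.x 0 ⟨0,[(42,0)]⟩ ⟨11,[(15,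
  3),(1,3),(9,4),(0,4),(11,1)]⟩),.k,.k,⟨true,0,⟨5,[(0,0),(4,2),(3,0),(12,0),(5,0),(15,2)]⟩,⟨0,[(4,
  0)]⟩⟩,⟨false,1,⟨1,[(30,1),(9,0),(5,0)]⟩,⟨0,[(29,0)]⟩⟩,⟨true,0,⟨0,[]⟩,⟨0,[(49,0)]⟩⟩,⟨false,1,⟨87,
  [(1,87),(2,33),(2,21),(0,11),(1,23),(3,63),(2,21),(1,1),(7,26),(12,4),(5,13)]⟩,⟨3,[(2,0),(0,0),(1,
  0),(3,0),(15,1),(2,0),(0,1)]⟩⟩,⟨false,1,⟨19,[(6,3),(3,3),(8,3),(7,4),(0,4),(17,1),(0,7)]⟩,⟨0,[(45,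
  0)]⟩⟩,⟨false,1,⟨87,[(1,87),(2,41),(2,21),(0,19),(1,39),(3,47),(2,21),(1,17),(7,22),(12,0),(5,
  37)]⟩,⟨2,[(0,0),(8,0),(12,0),(5,0),(0,2)]⟩⟩,[.a ⟨true,0,⟨0,[(45,0)]⟩,⟨0,[(2,0),(27,0)]⟩⟩ ⟨true,0,
  ⟨0,[(0,0)]⟩,⟨51,[(4,17),(3,2),(0,16),(0,3),(7,1),(3,13),(2,1),(1,16)]⟩⟩ ⟨false,1,⟨2,[(1,2),(12,1),
  (0,0),(1,0),(0,0),(12,0),(14,0)]⟩,⟨5,[(2,5),(6,1),(12,1),(4,0),(0,0)]⟩⟩,.o ⟨false,1,⟨23,[(9,7),(4,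
  11),(7,7),(4,0),(0,0),(11,11),(6,5)]⟩,⟨0,[(44,0)]⟩⟩,.o ⟨false,0,⟨5,[(2,0),(0,1),(0,1),(4,0),(8,0),
  (10,2),(1,0),(0,1),(7,0)]⟩,⟨1,[(30,1),(9,0),(5,0)]⟩⟩,.o ⟨false,0,⟨11,[(9,7),(12,7),(4,0),(0,0),(0,
  11),(10,5)]⟩,⟨2,[(1,2),(6,0),(5,1),(0,0),(1,0),(0,1),(27,0)]⟩⟩]⟩))) (.Q [0,0,0,0,0,1,0,0,0,-1,0,
  1] (.ed false [0,1,0,1] .k) (.I [1,0,0,1,0,0,0,0,-1] (.R ⟨0,false,false,true,[1,0,0,-1],[0,1],[0,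
  1,0,0,0,0,0,0,-1],(⟨0,[(29,0)]⟩,⟨0,[(30,0)]⟩),(⟨0,[(42,0)]⟩,⟨0,[(41,0)]⟩),⟨0,[(1,0)]⟩,.k,.k,(.x
  (-1) ⟨11,[(15,3),(1,3),(9,4),(0,4),(11,1)]⟩ ⟨0,[(42,0)]⟩),(.x (-1) ⟨11,[(15,3),(1,3),(9,4),(0,4),
  (11,1)]⟩ ⟨0,[(42,0)]⟩),.k,.k,⟨false,1,⟨0,[(4,0),(41,0)]⟩,⟨5,[(5,3),(3,0),(15,1),(2,0),(2,0),(1,
  0)]⟩⟩,⟨true,0,⟨0,[(29,0)]⟩,⟨20,[(1,4),(5,1),(1,3),(11,0),(8,15),(1,7),(7,5)]⟩⟩,⟨true,0,⟨0,[(49,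
  0)]⟩,⟨0,[]⟩⟩,⟨false,0,⟨4,[(3,0),(1,1),(3,0),(15,1),(2,0),(0,3),(14,0)]⟩,⟨5,[(0,3),(1,5),(11,1),
  (12,0),(18,0),(0,1)]⟩⟩,⟨false,0,⟨0,[]⟩,⟨0,[]⟩⟩,⟨false,0,⟨0,[]⟩,⟨0,[]⟩⟩,[.o ⟨false,0,⟨0,[(44,0)]⟩,
  ⟨23,[(9,7),(4,11),(7,7),(4,0),(0,0),(11,11),(6,5)]⟩⟩,.e ⟨true,0,⟨1,[(0,0),(3,0)]⟩,⟨3,[(2,0),(0,0),
  (1,0),(3,0),(15,1),(2,0),(16,1)]⟩⟩ ⟨true,0,⟨9,[(3,1),(4,0),(0,2),(0,1),(14,3),(1,1),(0,0),(0,7)]⟩,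
  ⟨0,[(2,0)]⟩⟩,.o ⟨false,1,⟨1,[(30,1),(9,0),(5,0)]⟩,⟨11,[(0,0),(2,3),(0,2),(4,1),(8,1),(10,7),(1,1),
  (0,3),(7,1)]⟩⟩,.a ⟨true,0,⟨0,[(30,0)]⟩,⟨0,[(29,0)]⟩⟩ ⟨false,1,⟨1,[(27,0),(18,0)]⟩,⟨0,[(5,0),(39,
  0)]⟩⟩ ⟨true,0,⟨0,[(29,0),(14,0)]⟩,⟨0,[(2,0)]⟩⟩]⟩) (.Q [0,0,0,1,0,0,0,0,0,1] (.pp false [-1,1])
  (.Q [0,0,3,0,-1,0,0,0,0,0,0,-1] (.p false [0,0,0,1] [] (⟨0,[(31,0)]⟩,⟨0,[(30,0)]⟩) .k 0 (⟨0,[]⟩,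
  ⟨0,[]⟩) .k .k) (.R ⟨1,false,false,true,[0,0,0,1],[0,1],[0,1,0,-1,0,0,0,0,1],(⟨0,[(32,0)]⟩,⟨0,[(31,
  0)]⟩),(⟨0,[(44,0)]⟩,⟨0,[(43,0)]⟩),⟨1,[(3,0),(13,0),(1,0),(12,0)]⟩,.k,.k,(.r (-1) ⟨1,[(16,0),(13,
  0),(20,0)]⟩ ⟨229,[(0,9),(2,9),(2,83),(2,3),(0,48),(0,58),(0,71),(7,25),(2,1),(3,45),(1,72)]⟩),(.r
  (-1) ⟨1,[(16,0),(13,0),(20,0)]⟩ ⟨229,[(0,9),(2,9),(2,83),(2,3),(0,48),(0,58),(0,71),(7,25),(2,1),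
  (3,45),(1,72)]⟩),(.r (-1) ⟨1,[(2,1),(13,0),(31,0),(2,0)]⟩ ⟨23,[(10,5),(0,13),(0,11),(11,7),(4,12),
  (0,0),(15,11)]⟩),.k,⟨false,1,⟨1,[(2,1),(13,0),(31,0),(2,0)]⟩,⟨10,[(6,4),(1,2),(1,2),(0,2),(0,4),
  (7,3),(6,0),(1,2)]⟩⟩,⟨true,1,⟨0,[(32,0),(15,0)]⟩,⟨0,[(0,0)]⟩⟩,⟨false,0,⟨0,[(47,0)]⟩,⟨19,[(8,3),(3,
  3),(8,3),(7,4),(0,4),(17,1),(0,7)]⟩⟩,⟨false,1,⟨6,[(6,0),(1,1),(3,0),(7,0),(0,0),(7,2),(2,6),(15,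
  3)]⟩,⟨2,[(0,0),(1,0),(2,1),(10,0)]⟩⟩,⟨true,0,⟨0,[(51,0)]⟩,⟨0,[]⟩⟩,⟨false,1,⟨13,[(6,3),(1,7),(3,3),
  (7,3),(0,3),(7,4),(2,13),(15,8)]⟩,⟨2,[(0,1),(1,1),(2,0),(10,1)]⟩⟩,[.o ⟨false,0,⟨0,[(46,0)]⟩,⟨31,
  [(0,7),(3,7),(11,11),(12,2),(0,2),(11,11),(6,9)]⟩⟩,.a ⟨true,0,⟨0,[(1,0)]⟩,⟨0,[(47,0)]⟩⟩ ⟨true,0,
  ⟨0,[(2,0)]⟩,⟨229,[(0,9),(2,9),(2,83),(2,3),(0,48),(0,58),(0,71),(7,25),(2,1),(3,45),(1,72)]⟩⟩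
  ⟨false,1,⟨0,[(8,0),(7,0),(3,0),(11,0)]⟩,⟨5,[(0,3),(15,2),(14,1),(10,0),(8,2)]⟩⟩,.o ⟨false,0,⟨2,
  [(0,0),(30,1),(10,0)]⟩,⟨1,[(32,1),(9,0),(5,0)]⟩⟩,.o ⟨false,0,⟨11,[(0,7),(28,2),(0,2),(0,3),(10,
  1)]⟩,⟨2,[(3,2),(6,0),(5,1),(0,0),(1,0),(0,1),(27,0)]⟩⟩]⟩) (.R ⟨0,false,false,true,[1,0,0,-1],[1,
  -1],[0,0,0,-1,0,0,0,0,-1],(⟨0,[(31,0)]⟩,⟨0,[(32,0)]⟩),(⟨0,[(43,0)]⟩,⟨0,[(44,0)]⟩),⟨0,[(3,0)]⟩,.k,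
  .k,(.x (-1) ⟨11,[(17,3),(1,3),(9,4),(0,4),(11,1)]⟩ ⟨0,[(44,0)]⟩),(.r 0 ⟨12,[(6,4),(3,2),(0,3),(0,
  3),(7,1),(3,0),(2,1),(1,3)]⟩ ⟨1,[(16,0),(13,0),(20,0)]⟩),.k,.k,⟨true,0,⟨17,[(6,11),(3,1),(0,2),(0,
  3),(11,0),(4,2),(15,6)]⟩,⟨0,[(2,0),(43,0)]⟩⟩,⟨false,0,⟨17,[(5,5),(0,5),(3,0),(0,2),(8,3),(10,11),
  (1,1),(0,5),(7,2)]⟩,⟨5,[(0,3),(28,0),(0,0),(1,1)]⟩⟩,⟨true,0,⟨0,[(47,0)]⟩,⟨0,[(46,0)]⟩⟩,⟨false,0,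
  ⟨1,[(2,0),(2,1),(0,0),(44,1)]⟩,⟨5,[(0,3),(9,0),(0,0),(0,1),(16,2),(2,1),(12,1)]⟩⟩,⟨false,0,⟨0,[]⟩,
  ⟨0,[]⟩⟩,⟨false,0,⟨0,[]⟩,⟨0,[]⟩⟩,[.e ⟨true,0,⟨0,[(6,0)]⟩,⟨26,[(2,0),(4,15),(3,4),(8,3),(3,0),(2,7),
  (2,4),(2,3)]⟩⟩ ⟨true,0,⟨0,[(5,0),(0,0),(44,1)]⟩,⟨1,[(0,1),(8,1),(2,0),(10,0),(1,0),(18,4)]⟩⟩,.a
  ⟨true,0,⟨0,[(47,0)]⟩,⟨0,[(1,0)]⟩⟩ ⟨false,1,⟨4,[(6,0),(5,0),(3,2),(8,0),(3,1)]⟩,⟨1,[(2,1),(5,0),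
  (11,0),(25,0)]⟩⟩ ⟨true,0,⟨0,[(5,0),(0,0),(44,0)]⟩,⟨21,[(0,3),(2,3),(4,4),(0,0),(1,2),(0,3),(6,0),
  (0,0),(6,2),(4,13)]⟩⟩,.o ⟨false,1,⟨11,[(0,3),(28,0),(0,0),(1,7),(9,5)]⟩,⟨17,[(5,5),(0,5),(3,0),(0,
  2),(8,3),(10,11),(1,1),(0,5),(7,2)]⟩⟩,.e ⟨false,1,⟨4,[(6,0),(5,0),(3,2),(8,0),(3,1)]⟩,⟨26,[(2,0),
  (4,15),(3,4),(8,3),(3,0),(2,7),(2,4),(2,3)]⟩⟩ ⟨false,1,⟨1,[(6,1),(23,0),(0,1),(10,0)]⟩,⟨1,[(0,1),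
  (8,1),(2,0),(10,0),(1,0),(18,4)]⟩⟩]⟩)) (.R ⟨0,false,false,false,[1,0,0,-1],[1,-1],[1,0,0,0,0,0,0,
  0,-1],(⟨0,[(30,0)]⟩,⟨0,[(31,0)]⟩),(⟨0,[(42,0)]⟩,⟨0,[(43,0)]⟩),⟨0,[(2,0)]⟩,.k,.k,(.x (-1) ⟨11,[(16,
  3),(1,3),(9,4),(0,4),(11,1)]⟩ ⟨0,[(43,0)]⟩),(.r 0 ⟨12,[(5,4),(3,2),(0,3),(0,3),(7,1),(3,0),(2,1),
  (1,3)]⟩ ⟨1,[(15,0),(13,0),(20,0)]⟩),.k,.k,⟨true,0,⟨12,[(5,4),(3,2),(0,3),(0,3),(7,1),(3,0),(2,1),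
  (1,3)]⟩,⟨0,[(1,0)]⟩⟩,⟨false,0,⟨19,[(0,4),(8,0),(0,4),(0,0),(7,0),(10,19),(2,8),(7,4)]⟩,⟨0,[(31,0),
  (15,0)]⟩⟩,⟨true,0,⟨0,[]⟩,⟨0,[(50,0)]⟩⟩,⟨false,0,⟨1,[(1,0),(2,1),(0,0)]⟩,⟨6,[(5,0),(1,1),(3,0),(7,
  0),(0,0),(7,2),(2,6),(15,3)]⟩⟩,⟨false,0,⟨0,[]⟩,⟨0,[]⟩⟩,⟨false,0,⟨0,[]⟩,⟨0,[]⟩⟩,[.o ⟨false,0,⟨0,
  [(0,0)]⟩,⟨31,[(7,7),(3,3),(7,3),(0,3),(7,14),(0,14),(17,1)]⟩⟩,.o ⟨false,1,⟨3,[(0,3),(27,0),(0,0),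
  (18,1)]⟩,⟨0,[(45,0)]⟩⟩,.o ⟨false,1,⟨1,[(31,1),(9,0),(5,0)]⟩,⟨19,[(0,4),(8,0),(0,4),(0,0),(7,0),
  (10,19),(2,8),(7,4)]⟩⟩,.a ⟨true,0,⟨0,[(31,0)]⟩,⟨0,[(30,0)]⟩⟩ ⟨false,1,⟨9,[(5,3),(5,3),(3,1),(8,3),
  (3,2),(18,4)]⟩,⟨26,[(1,6),(4,3),(3,7),(8,0),(3,6),(2,1),(2,7),(2,0)]⟩⟩ ⟨true,0,⟨0,[(0,0),(29,0)]⟩,
  ⟨0,[(31,0),(13,0)]⟩⟩]⟩))) (.R ⟨1,false,false,true,[1,0,0,-1],[0,1],[0,1,0,-1,0,0,0,0,-1],(⟨0,[(28,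
  0)]⟩,⟨0,[(29,0)]⟩),(⟨0,[(41,0)]⟩,⟨0,[(40,0)]⟩),⟨0,[(0,0)]⟩,.k,.k,(.x (-1) ⟨11,[(14,3),(1,3),(9,4),
  (0,4),(11,1)]⟩ ⟨0,[(41,0)]⟩),(.x (-1) ⟨11,[(14,3),(1,3),(9,4),(0,4),(11,1)]⟩ ⟨0,[(41,0)]⟩),(.r
  (-1) ⟨1,[(3,1),(9,0),(31,0),(2,0)]⟩ ⟨23,[(7,5),(0,13),(0,11),(11,7),(4,0),(0,12),(15,11)]⟩),.k,
  ⟨false,1,⟨1,[(3,1),(9,0),(31,0),(2,0)]⟩,⟨0,[(4,0),(38,0)]⟩⟩,⟨true,0,⟨0,[(28,0)]⟩,⟨27,[(1,7),(5,0),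
  (0,6),(0,1),(19,19),(1,11),(7,6),(3,1)]⟩⟩,⟨false,0,⟨0,[(44,0)]⟩,⟨19,[(5,3),(3,3),(8,3),(7,4),(0,
  4),(17,1),(0,7)]⟩⟩,⟨false,0,⟨4,[(2,0),(1,1),(3,0),(15,1),(2,0),(0,3),(14,0)]⟩,⟨21,[(1,17),(1,7),
  (3,3),(1,7),(3,13),(4,7),(7,6),(2,3),(15,0)]⟩⟩,⟨true,0,⟨0,[(48,0)]⟩,⟨0,[]⟩⟩,⟨false,0,⟨0,[(4,0),
  (23,0),(14,0)]⟩,⟨4,[(1,4),(1,0),(5,0),(3,2),(8,0),(3,1)]⟩⟩,[.o ⟨false,0,⟨0,[(43,0)]⟩,⟨23,[(8,7),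
  (4,11),(7,7),(4,0),(0,0),(11,11),(6,5)]⟩⟩,.e ⟨true,0,⟨0,[(3,0)]⟩,⟨5,[(4,3),(3,0),(15,1),(2,0),(2,
  0),(1,0)]⟩⟩ ⟨true,0,⟨9,[(2,1),(4,0),(0,2),(0,1),(14,3),(1,1),(0,0),(0,7)]⟩,⟨0,[(1,0)]⟩⟩,.o ⟨false,
  1,⟨1,[(29,1),(9,0),(5,0)]⟩,⟨17,[(2,5),(0,5),(3,0),(0,2),(8,3),(10,11),(1,1),(0,5),(7,2)]⟩⟩,.a
  ⟨true,0,⟨0,[(29,0)]⟩,⟨0,[(28,0)]⟩⟩ ⟨false,1,⟨1,[(13,0),(12,0),(21,0)]⟩,⟨0,[(4,0)]⟩⟩ ⟨true,0,⟨0,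
  [(28,0),(14,0)]⟩,⟨0,[(1,0)]⟩⟩]⟩)))))

theorem ok83 : chk (cU (-1) true 10) t83 l54 = true := by decide +kernel

noncomputable def t92 : Tre :=
  (.Q [0,0,0,0,0,-1,0,0,0,1,0,-1] (.ed true [0,1,0,1] .k) (.I [0,-1,0,0,0,0,0,0,1] (.Q [0,0,0,0,0,0,
  -1,-1,0,0,1,-1] (.p true [0,0,1] [0,0,0,1] (⟨0,[(35,0)]⟩,⟨0,[(34,0)]⟩) .k 2 (⟨0,[(26,0)]⟩,⟨0,[(25,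
  0)]⟩) .k (.r (-1) ⟨43,[(10,15),(1,19),(8,11),(1,24),(0,2),(4,23),(2,11)]⟩ ⟨0,[(2,0),(30,0)]⟩))
  (.Q [0,0,-1,1,1,0,1,1,-1,0,-1,1] (.p false [0,0,1] [0,0,0,1] (⟨0,[(36,0)]⟩,⟨0,[(35,0)]⟩) .k 2 (⟨0,
  [(27,0)]⟩,⟨0,[(26,0)]⟩) .k (.r (-1) ⟨43,[(11,15),(1,19),(8,11),(1,24),(0,2),(4,23),(2,11)]⟩ ⟨0,
  [(3,0),(30,0)]⟩)) (.R ⟨1,false,false,false,[1,0,0,-1],[1,0,-1],[1,1,0,0,0,0,0,0,-1],(⟨0,[(27,0)]⟩,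
  ⟨0,[(28,0)]⟩),(⟨0,[(36,0)]⟩,⟨0,[(37,0)]⟩),⟨0,[(3,0)]⟩,.k,.k,(.x (-1) ⟨15,[(6,3),(8,3),(9,6),(0,6),
  (11,1)]⟩ ⟨0,[(40,0)]⟩),.k,(.x 0 ⟨1,[(6,0),(10,1),(19,0),(5,1)]⟩ ⟨23,[(7,3),(11,7),(5,8),(0,8),(9,
  7),(1,1),(1,31)]⟩),.k,⟨false,1,⟨1,[(7,0),(17,0),(1,0),(0,0),(2,1)]⟩,⟨0,[(2,0),(32,0)]⟩⟩,⟨true,0,
  ⟨0,[(27,0),(2,0)]⟩,⟨0,[(17,0),(10,0),(14,0)]⟩⟩,⟨false,0,⟨0,[]⟩,⟨3,[(25,0),(0,0),(18,1)]⟩⟩,⟨false,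
  0,⟨1,[(1,1),(0,1),(30,0),(0,0)]⟩,⟨0,[(0,0),(42,0)]⟩⟩,⟨true,0,⟨0,[(42,0)]⟩,⟨0,[(43,0)]⟩⟩,⟨false,0,
  ⟨7,[(1,2),(0,6),(1,0),(0,2),(2,0),(11,1),(6,4),(5,4)]⟩,⟨0,[(0,0),(42,1)]⟩⟩,[.e ⟨false,1,⟨1,[(25,
  0),(18,0),(2,1)]⟩,⟨0,[(2,0)]⟩⟩ ⟨false,0,⟨0,[(1,0)]⟩,⟨18,[(0,9),(1,1),(9,4),(13,3),(1,8),(2,8),(9,
  0)]⟩⟩,.o ⟨false,1,⟨7,[(10,3),(14,0),(0,0),(11,1),(6,3)]⟩,⟨0,[(31,0)]⟩⟩,.o ⟨false,1,⟨1,[(28,1),(9,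
  0),(5,0)]⟩,⟨2,[(1,1),(25,0),(2,0),(0,1),(1,0),(7,0)]⟩⟩,.a ⟨true,0,⟨0,[(28,0)]⟩,⟨0,[(27,0)]⟩⟩
  ⟨false,1,⟨1,[(25,0),(18,0)]⟩,⟨1,[(2,1),(30,0),(0,0)]⟩⟩ ⟨true,0,⟨0,[(1,0)]⟩,⟨0,[(28,0),(2,0)]⟩⟩]⟩)
  (.K ⟨0,[0,0,0,1],0,(-1),(⟨0,[(28,0)]⟩,⟨0,[(27,0)]⟩),.k,(.x 0 ⟨9,[(6,3),(12,1),(13,10),(0,6)]⟩ ⟨0,
  [(40,0),(3,0)]⟩),(.x 0 ⟨0,[(40,0)]⟩ ⟨15,[(6,3),(8,3),(9,6),(0,6),(11,1)]⟩),.k,.k,[⟨0,[(28,0)]⟩,⟨0,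
  [(27,0)]⟩,⟨1,[(25,0),(2,1),(15,0),(2,1)]⟩,⟨0,[(0,0),(15,0)]⟩]⟩)) (.I [0,0,-1,-1,1,0,0,1,-1] (.R
  ⟨1,false,false,false,[1,0,0,-1],[1,0,-1],[1,1,0,0,0,0,0,0,-1],(⟨0,[(27,0)]⟩,⟨0,[(28,0)]⟩),(⟨0,
  [(36,0)]⟩,⟨0,[(37,0)]⟩),⟨0,[(3,0)]⟩,.k,.k,(.x (-1) ⟨15,[(6,3),(8,3),(9,6),(0,6),(11,1)]⟩ ⟨0,[(40,
  0)]⟩),.k,(.r (-1) ⟨0,[(0,0)]⟩ ⟨5,[(2,1),(1,3),(0,1),(12,1),(13,1),(0,4),(0,0)]⟩),.k,⟨false,1,⟨0,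
  [(0,0),(41,0)]⟩,⟨0,[(2,0),(32,0)]⟩⟩,⟨true,0,⟨0,[(27,0),(2,0)]⟩,⟨0,[(1,0),(33,0)]⟩⟩,⟨false,0,⟨0,
  []⟩,⟨3,[(25,0),(0,0),(18,1)]⟩⟩,⟨false,0,⟨1,[(2,1),(7,0),(16,1),(2,0),(2,0)]⟩,⟨1,[(1,1),(23,0),(18,
  0)]⟩⟩,⟨true,0,⟨0,[(42,0)]⟩,⟨0,[(43,0)]⟩⟩,⟨false,0,⟨1,[(2,1),(2,0),(21,1),(2,0),(2,0)]⟩,⟨1,[(1,1),
  (10,0),(12,0),(21,0)]⟩⟩,[.a ⟨true,0,⟨1,[(10,0),(16,0),(0,0)]⟩,⟨0,[(1,0),(25,0)]⟩⟩ ⟨false,1,⟨1,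
  [(25,0),(18,0),(2,1)]⟩,⟨0,[(2,0)]⟩⟩ ⟨true,0,⟨1,[(10,0),(16,1),(2,0),(2,0)]⟩,⟨0,[(1,0)]⟩⟩,.o
  ⟨false,1,⟨7,[(10,3),(14,0),(0,0),(11,1),(6,3)]⟩,⟨0,[(31,0)]⟩⟩,.o ⟨false,1,⟨1,[(28,1),(9,0),(5,
  0)]⟩,⟨0,[(17,0),(9,0),(2,0),(12,0)]⟩⟩,.e ⟨false,1,⟨1,[(25,0),(18,0)]⟩,⟨1,[(2,1),(30,0),(0,0)]⟩⟩
  ⟨false,1,⟨7,[(10,3),(14,0),(0,0),(0,7),(10,1),(6,3)]⟩,⟨0,[(1,0)]⟩⟩]⟩) (.R ⟨1,false,false,false,[1,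
  0,0,-1],[1,0,-1],[1,1,0,0,0,0,0,0,-1],(⟨0,[(27,0)]⟩,⟨0,[(28,0)]⟩),(⟨0,[(36,0)]⟩,⟨0,[(37,0)]⟩),⟨0,
  [(3,0)]⟩,.k,.k,(.x (-1) ⟨15,[(6,3),(8,3),(9,6),(0,6),(11,1)]⟩ ⟨0,[(40,0)]⟩),.k,(.x 0 ⟨1,[(6,0),
  (10,1),(19,0),(5,1)]⟩ ⟨23,[(7,3),(11,7),(5,8),(0,8),(9,7),(1,1),(1,31)]⟩),.k,⟨false,1,⟨3,[(1,0),
  (5,0),(4,0),(10,1),(1,1),(1,0),(3,2)]⟩,⟨4,[(0,1),(1,0),(9,0),(8,2),(4,0)]⟩⟩,⟨true,0,⟨0,[(27,0),(2,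
  0)]⟩,⟨0,[(1,0),(33,0)]⟩⟩,⟨false,0,⟨0,[]⟩,⟨3,[(25,0),(0,0),(18,1)]⟩⟩,⟨false,0,⟨5,[(0,1),(1,1),(8,
  1),(14,0),(0,5),(2,1),(7,0),(2,1)]⟩,⟨1,[(1,1),(23,0),(18,0)]⟩⟩,⟨true,0,⟨0,[(42,0)]⟩,⟨0,[(43,0)]⟩⟩,
  ⟨false,0,⟨23,[(0,9),(1,5),(2,6),(14,4),(5,3),(0,23),(10,5),(2,8)]⟩,⟨1,[(1,1),(10,0),(12,0),(21,
  0)]⟩⟩,[.a ⟨true,0,⟨1,[(10,0),(16,0),(0,0)]⟩,⟨0,[(1,0),(25,0)]⟩⟩ ⟨false,1,⟨1,[(25,0),(18,0),(2,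
  1)]⟩,⟨0,[(2,0)]⟩⟩ ⟨true,0,⟨1,[(10,0),(16,1),(2,0),(2,0)]⟩,⟨0,[(1,0)]⟩⟩,.o ⟨false,1,⟨7,[(10,3),(14,
  0),(0,0),(11,1),(6,3)]⟩,⟨0,[(31,0)]⟩⟩,.o ⟨false,1,⟨1,[(28,1),(9,0),(5,0)]⟩,⟨0,[(17,0),(9,0),(2,0),
  (12,0)]⟩⟩,.e ⟨false,1,⟨1,[(25,0),(18,0)]⟩,⟨1,[(2,1),(30,0),(0,0)]⟩⟩ ⟨false,1,⟨7,[(10,3),(14,0),(0,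
  0),(0,7),(10,1),(6,3)]⟩,⟨0,[(1,0)]⟩⟩]⟩))) (.Q [0,0,0,1,0,0,0,0,0,0,0,1] (.p true [0,0,0,1] [] (⟨0,
  [(26,0)]⟩,⟨0,[(25,0)]⟩) .k 0 (⟨0,[]⟩,⟨0,[]⟩) .k .k) (.Q [0,-1,1,-1,0,0,0,0,1,0,0,-1] (.p false [0,
  0,0,1] [] (⟨0,[(27,0)]⟩,⟨0,[(26,0)]⟩) .k 0 (⟨0,[]⟩,⟨0,[]⟩) .k .k) (.Q [0,-1,1,0,0,0,0,0,1,0,0,-1]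
  (.p false [0,0,0,1] [] (⟨0,[(28,0)]⟩,⟨0,[(27,0)]⟩) .k 0 (⟨0,[]⟩,⟨0,[]⟩) .k .k) (.R ⟨1,false,false,
  false,[1,0,0,-1],[1,-1],[1,0,0,0,0,0,0,0,-1],(⟨0,[(28,0)]⟩,⟨0,[(29,0)]⟩),(⟨0,[(40,0)]⟩,⟨0,[(41,
  0)]⟩),⟨0,[(4,0)]⟩,.k,.k,(.x (-1) ⟨15,[(7,3),(8,3),(9,6),(0,6),(11,1)]⟩ ⟨0,[(41,0)]⟩),(.r 0 ⟨27,
  [(3,27),(2,3),(2,7),(9,3),(14,6),(0,2),(6,9)]⟩ ⟨1,[(13,0),(13,0),(20,0)]⟩),.k,.k,⟨true,0,⟨27,[(3,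
  27),(2,3),(2,7),(9,3),(14,6),(0,2),(6,9)]⟩,⟨0,[(5,0),(38,0)]⟩⟩,⟨false,0,⟨0,[(0,0),(2,0)]⟩,⟨0,[(29,
  0),(15,0)]⟩⟩,⟨true,0,⟨0,[]⟩,⟨0,[(48,0)]⟩⟩,⟨false,0,⟨0,[(1,0)]⟩,⟨1,[(2,1),(23,0),(18,0)]⟩⟩,⟨false,
  1,⟨7,[(6,0),(2,1),(8,0),(0,0),(6,1),(0,1),(17,0),(0,2)]⟩,⟨0,[(44,0)]⟩⟩,⟨false,0,⟨0,[(0,0)]⟩,⟨1,
  [(26,0),(2,1),(15,0)]⟩⟩,[.a ⟨true,0,⟨0,[(44,0)]⟩,⟨0,[(2,0),(25,0)]⟩⟩ ⟨false,1,⟨1,[(26,0),(18,0)]⟩,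
  ⟨0,[(5,0)]⟩⟩ ⟨true,0,⟨0,[(1,0),(1,0)]⟩,⟨0,[(2,0)]⟩⟩,.o ⟨false,1,⟨3,[(13,1),(17,1),(2,1),(4,0),(6,
  0)]⟩,⟨0,[(43,0)]⟩⟩,.o ⟨false,1,⟨1,[(29,1),(9,0),(5,0)]⟩,⟨0,[(0,0),(2,0)]⟩⟩,.e ⟨false,1,⟨3,[(3,1),
  (5,1),(3,1),(8,1),(3,0),(18,0)]⟩,⟨1,[(5,1),(28,0),(0,0)]⟩⟩ ⟨false,1,⟨15,[(1,7),(11,3),(12,4),(0,
  0),(0,7),(10,3),(6,1)]⟩,⟨0,[(2,0)]⟩⟩]⟩) (.R ⟨2,true,false,false,[0,1],[0,0,0,1],[1,0,1,1],(⟨0,[]⟩,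
  ⟨0,[]⟩),(⟨0,[(29,0)]⟩,⟨0,[(28,0)]⟩),⟨0,[]⟩,.k,.k,.k,(.r 0 ⟨27,[(3,27),(2,3),(2,7),(9,3),(14,6),(0,
  2),(6,9)]⟩ ⟨1,[(13,0),(13,0),(20,0)]⟩),.k,.k,⟨true,0,⟨27,[(3,27),(2,3),(2,7),(9,3),(14,6),(0,2),
  (6,9)]⟩,⟨0,[(5,0),(38,0)]⟩⟩,⟨false,0,⟨6,[(1,5),(1,5),(2,0),(2,0),(7,0),(0,0),(9,0)]⟩,⟨5,[(0,1),(1,
  3),(10,1),(13,0),(17,2)]⟩⟩,⟨true,0,⟨0,[]⟩,⟨0,[(48,0)]⟩⟩,⟨false,0,⟨0,[(1,0)]⟩,⟨1,[(2,1),(23,0),(18,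
  0)]⟩⟩,⟨false,1,⟨7,[(6,0),(2,1),(8,0),(0,0),(6,1),(0,1),(17,0),(0,2)]⟩,⟨0,[(44,0)]⟩⟩,⟨true,0,⟨0,
  [(1,0),(41,0)]⟩,⟨0,[(0,0)]⟩⟩,[]⟩)) (.K ⟨0,[0,0,0,1],0,0,(⟨0,[(28,0)]⟩,⟨0,[(27,0)]⟩),.k,(.r (-1)
  ⟨1,[(12,0),(13,0),(20,0)]⟩ ⟨27,[(2,27),(2,3),(2,7),(9,3),(14,6),(0,2),(6,9)]⟩),(.x 0 ⟨0,[(40,0)]⟩
  ⟨15,[(6,3),(8,3),(9,6),(0,6),(11,1)]⟩),.k,.k,[⟨0,[(28,0)]⟩,⟨0,[(27,0)]⟩,⟨0,[(0,0),(42,0)]⟩,⟨1,[(4,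
  1),(22,1),(1,0),(0,0),(0,0),(1,0)]⟩]⟩)) (.R ⟨1,false,false,false,[1,0,0,-1],[1,-1],[1,0,0,0,0,0,0,
  0,-1],(⟨0,[(26,0)]⟩,⟨0,[(27,0)]⟩),(⟨0,[(38,0)]⟩,⟨0,[(39,0)]⟩),⟨0,[(2,0)]⟩,.k,.k,(.x (-1) ⟨15,[(5,
  3),(8,3),(9,6),(0,6),(11,1)]⟩ ⟨0,[(39,0)]⟩),(.r 0 ⟨27,[(1,27),(2,3),(2,7),(9,3),(14,6),(0,2),(6,
  9)]⟩ ⟨1,[(11,0),(13,0),(20,0)]⟩),.k,.k,⟨true,0,⟨27,[(1,27),(2,3),(2,7),(9,3),(14,6),(0,2),(6,9)]⟩,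
  ⟨0,[(3,0),(38,0)]⟩⟩,⟨false,0,⟨9,[(0,4),(3,0),(2,0),(7,0),(10,4),(2,3),(2,4)]⟩,⟨0,[(27,0),(15,
  0)]⟩⟩,⟨true,0,⟨0,[]⟩,⟨0,[(46,0)]⟩⟩,⟨false,0,⟨3,[(0,3),(2,3),(28,0),(0,0),(6,1)]⟩,⟨1,[(6,0),(9,0),
  (0,0),(6,0),(2,1)]⟩⟩,⟨false,1,⟨7,[(4,0),(2,1),(8,0),(0,0),(6,1),(0,1),(17,0),(0,2)]⟩,⟨0,[(42,
  0)]⟩⟩,⟨false,0,⟨21,[(0,17),(2,21),(0,2),(2,5),(18,3),(2,0),(2,6),(7,7)]⟩,⟨1,[(24,0),(2,1),(15,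
  0)]⟩⟩,[.e ⟨false,1,⟨1,[(24,0),(18,0)]⟩,⟨0,[(3,0)]⟩⟩ ⟨false,0,⟨0,[(0,0)]⟩,⟨23,[(4,3),(2,3),(7,3),
  (1,3),(6,4),(0,4),(1,23),(15,13)]⟩⟩,.o ⟨false,1,⟨3,[(11,1),(17,1),(2,1),(4,0),(6,0)]⟩,⟨0,[(41,
  0)]⟩⟩,.o ⟨false,1,⟨1,[(27,1),(9,0),(5,0)]⟩,⟨9,[(0,4),(3,0),(2,0),(7,0),(10,4),(2,3),(2,4)]⟩⟩,.a
  ⟨true,0,⟨0,[(27,0)]⟩,⟨0,[(26,0)]⟩⟩ ⟨false,1,⟨3,[(1,1),(5,1),(3,1),(8,1),(3,0),(18,0)]⟩,⟨1,[(3,1),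
  (28,0),(0,0)]⟩⟩ ⟨true,0,⟨0,[(0,0)]⟩,⟨0,[(27,0),(13,0)]⟩⟩]⟩))) (.Q [0,0,0,0,0,0,-1,-1,0,0,1,-1]
  (.p true [0,0,1] [0,0,0,1] (⟨0,[(34,0)]⟩,⟨0,[(33,0)]⟩) .k 2 (⟨0,[(25,0)]⟩,⟨0,[(24,0)]⟩) .k (.r
  (-1) ⟨43,[(9,15),(1,19),(8,11),(1,24),(0,2),(4,23),(2,11)]⟩ ⟨0,[(1,0),(30,0)]⟩)) (.I [1,0,-1,0,1,
  0,0,1,-1] (.R ⟨0,false,false,false,[1,0,0,-1],[1,0,-1],[1,0,0,0,0,0,0,0,-1],(⟨0,[(26,0)]⟩,⟨0,[(27,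
  0)]⟩),(⟨0,[(35,0)]⟩,⟨0,[(36,0)]⟩),⟨0,[(2,0)]⟩,.k,.k,(.x (-1) ⟨15,[(5,3),(8,3),(9,6),(0,6),(11,
  1)]⟩ ⟨0,[(39,0)]⟩),.k,.k,.k,⟨false,1,⟨0,[(0,0)]⟩,⟨0,[(3,0),(30,0)]⟩⟩,⟨true,0,⟨0,[(26,0),(2,0)]⟩,
  ⟨5,[(2,3),(2,0),(8,0),(8,2),(3,1)]⟩⟩,⟨true,0,⟨0,[]⟩,⟨0,[(46,0)]⟩⟩,⟨false,0,⟨3,[(1,3),(1,3),(28,0),
  (0,0),(6,1)]⟩,⟨5,[(0,5),(1,3),(2,0),(8,0),(8,2),(3,1)]⟩⟩,⟨false,0,⟨0,[]⟩,⟨0,[]⟩⟩,⟨false,0,⟨0,[]⟩,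
  ⟨0,[]⟩⟩,[.e ⟨false,1,⟨1,[(24,0),(18,0)]⟩,⟨0,[(3,0)]⟩⟩ ⟨false,0,⟨0,[(1,0)]⟩,⟨15,[(0,3),(10,5),(3,
  11),(7,1),(1,1),(1,15),(9,0),(6,2)]⟩⟩,.o ⟨false,1,⟨7,[(9,3),(14,0),(0,0),(11,1),(6,3)]⟩,⟨0,[(30,
  0)]⟩⟩,.o ⟨false,1,⟨1,[(27,1),(9,0),(5,0)]⟩,⟨2,[(1,1),(24,0),(2,0),(0,1),(1,0),(7,0)]⟩⟩,.a ⟨true,0,
  ⟨0,[(27,0)]⟩,⟨0,[(26,0)]⟩⟩ ⟨false,1,⟨0,[(0,0),(19,0)]⟩,⟨1,[(3,1),(28,0),(0,0)]⟩⟩ ⟨true,0,⟨0,[(1,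
  0)]⟩,⟨0,[(27,0),(2,0)]⟩⟩]⟩) (.Q [0,0,0,1,0,0,-1,-1,0,-1,1] (.p true [0,0,1] [1] (⟨0,[(36,0)]⟩,⟨0,
  [(35,0)]⟩) .k 1 (⟨0,[]⟩,⟨0,[]⟩) .k .k) (.I [1,1,1,1,-1,0,0,0,1] (.R ⟨0,false,false,false,[1,0,0,
  -1],[0,0,0,1],[0,0,0,-1,0,0,0,0,-1],(⟨0,[(28,0)]⟩,⟨0,[(29,0)]⟩),(⟨0,[(29,0)]⟩,⟨0,[(28,0)]⟩),⟨0,
  [(4,0)]⟩,.k,.k,(.x (-1) ⟨15,[(7,3),(8,3),(9,6),(0,6),(11,1)]⟩ ⟨0,[(41,0)]⟩),.k,.k,.k,⟨true,1,⟨0,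
  [(26,0),(17,0)]⟩,⟨1,[(0,1),(1,0),(2,0),(3,0),(3,0)]⟩⟩,⟨false,0,⟨2,[(3,1),(24,3),(2,0),(0,1),(1,0),
  (7,0)]⟩,⟨2,[(4,3),(2,0),(8,0),(12,1),(15,2)]⟩⟩,⟨true,0,⟨0,[(44,0)]⟩,⟨0,[(43,0)]⟩⟩,⟨false,(-1),⟨4,
  [(0,1),(1,7),(0,0),(9,3),(1,5),(12,8),(2,1),(0,2),(6,0)]⟩,⟨2,[(4,3),(2,0),(8,0),(9,2),(2,1),(15,
  2)]⟩⟩,⟨false,0,⟨0,[]⟩,⟨0,[]⟩⟩,⟨false,0,⟨0,[]⟩,⟨0,[]⟩⟩,[.o ⟨false,0,⟨9,[(2,3),(2,3),(21,0),(0,9),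
  (2,3),(0,3),(6,2),(2,1)]⟩,⟨11,[(4,11),(2,2),(0,1),(4,1),(2,2),(1,3),(7,5),(3,0),(1,0),(12,1)]⟩⟩,
  .o ⟨false,0,⟨6,[(2,4),(2,1),(7,1),(1,3),(12,6),(2,0),(0,0),(6,2),(2,0)]⟩,⟨5,[(4,3),(2,0),(8,0),(9,
  2),(2,1),(0,2),(1,2),(12,2)]⟩⟩,.o ⟨false,1,⟨1,[(29,1),(9,0),(5,0)]⟩,⟨2,[(3,1),(24,0),(2,0),(0,1),
  (1,0),(7,0)]⟩⟩,.a ⟨true,0,⟨0,[(29,0)]⟩,⟨0,[(28,0)]⟩⟩ ⟨true,1,⟨1,[(13,0),(12,0),(21,0)]⟩,⟨0,[(0,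
  0)]⟩⟩ ⟨false,0,⟨6,[(2,4),(2,1),(7,1),(1,3),(12,13),(2,0),(0,0),(6,2),(2,0)]⟩,⟨5,[(4,7),(2,1),(8,
  1),(9,2),(2,3),(15,2)]⟩⟩]⟩) (.R ⟨0,false,false,false,[1,0,0,-1],[1,0,-1],[1,0,1,0,0,0,0,-1],(⟨0,
  [(28,0)]⟩,⟨0,[(29,0)]⟩),(⟨0,[(37,0)]⟩,⟨0,[(38,0)]⟩),⟨0,[(4,0)]⟩,.k,.k,(.x (-1) ⟨15,[(7,3),(8,3),
  (9,6),(0,6),(11,1)]⟩ ⟨0,[(41,0)]⟩),.k,.k,.k,⟨false,0,⟨0,[]⟩,⟨3,[(26,0),(0,0),(17,1)]⟩⟩,⟨true,0,⟨0,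
  [(28,0),(2,0)]⟩,⟨5,[(4,3),(2,0),(8,0),(8,2),(3,1)]⟩⟩,⟨true,(-1),⟨0,[(2,0)]⟩,⟨1,[(8,0),(17,0),(1,
  0),(0,0),(2,1)]⟩⟩,⟨false,0,⟨11,[(2,3),(0,7),(1,1),(15,1),(5,2),(0,3),(10,0),(2,5)]⟩,⟨0,[(0,0),(16,
  0),(11,0)]⟩⟩,⟨false,0,⟨0,[]⟩,⟨0,[]⟩⟩,⟨false,0,⟨0,[]⟩,⟨0,[]⟩⟩,[.o ⟨false,0,⟨0,[(1,0),(42,0)]⟩,⟨3,
  [(26,0),(0,0),(4,3),(13,1)]⟩⟩,.o ⟨false,1,⟨7,[(11,3),(14,0),(0,0),(11,1),(6,3)]⟩,⟨0,[(32,0)]⟩⟩,.o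
  ⟨false,1,⟨1,[(29,1),(9,0),(5,0)]⟩,⟨2,[(3,1),(24,0),(2,0),(0,1),(1,0),(7,0)]⟩⟩,.a ⟨true,0,⟨0,[(29,
  0)]⟩,⟨0,[(28,0)]⟩⟩ ⟨false,0,⟨0,[(22,0)]⟩,⟨21,[(13,7),(1,9),(8,5),(1,6),(0,6),(4,11),(2,5)]⟩⟩
  ⟨true,0,⟨0,[(3,0)]⟩,⟨0,[(29,0),(2,0)]⟩⟩]⟩)) (.R ⟨0,false,false,false,[1,0,0,-1],[1,0,-1],[1,0,1,0,
  0,0,0,-1],(⟨0,[(27,0)]⟩,⟨0,[(28,0)]⟩),(⟨0,[(36,0)]⟩,⟨0,[(37,0)]⟩),⟨0,[(3,0)]⟩,.k,.k,(.x (-1) ⟨15,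
  [(6,3),(8,3),(9,6),(0,6),(11,1)]⟩ ⟨0,[(40,0)]⟩),.k,.k,.k,⟨false,0,⟨0,[]⟩,⟨3,[(25,0),(0,0),(17,
  1)]⟩⟩,⟨true,0,⟨0,[(27,0),(2,0)]⟩,⟨5,[(3,3),(2,0),(8,0),(8,2),(3,1)]⟩⟩,⟨true,(-1),⟨0,[(1,0)]⟩,⟨5,
  [(0,1),(6,1),(15,1),(1,2),(5,3),(12,0)]⟩⟩,⟨false,0,⟨11,[(1,3),(0,7),(1,1),(15,1),(5,2),(0,3),(10,
  0),(2,5)]⟩,⟨5,[(0,5),(2,3),(2,0),(0,2),(7,0),(1,5),(7,2),(2,1)]⟩⟩,⟨false,0,⟨0,[]⟩,⟨0,[]⟩⟩,⟨false,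
  0,⟨0,[]⟩,⟨0,[]⟩⟩,[.e ⟨false,0,⟨0,[(35,0)]⟩,⟨7,[(0,3),(6,3),(8,3),(8,0),(0,0),(18,1)]⟩⟩ ⟨false,0,
  ⟨0,[(2,0)]⟩,⟨7,[(12,3),(3,7),(8,0),(0,0),(1,7),(16,1)]⟩⟩,.o ⟨false,1,⟨7,[(10,3),(14,0),(0,0),(11,
  1),(6,3)]⟩,⟨0,[(31,0)]⟩⟩,.o ⟨false,1,⟨1,[(28,1),(9,0),(5,0)]⟩,⟨2,[(2,1),(24,0),(2,0),(0,1),(1,0),
  (7,0)]⟩⟩,.a ⟨true,0,⟨0,[(28,0)]⟩,⟨0,[(27,0)]⟩⟩ ⟨false,0,⟨0,[(21,0)]⟩,⟨17,[(0,5),(6,3),(6,5),(5,1),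
  (4,6),(0,6),(4,5)]⟩⟩ ⟨true,0,⟨0,[(2,0)]⟩,⟨0,[(28,0),(2,0)]⟩⟩]⟩))) (.I [1,0,1,0,0,0,0,0,-1] (.R ⟨0,
  false,false,false,[1,0,0,-1],[1,0,-1],[1,0,0,0,0,0,0,0,-1],(⟨0,[(26,0)]⟩,⟨0,[(27,0)]⟩),(⟨0,[(35,
  0)]⟩,⟨0,[(36,0)]⟩),⟨0,[(2,0)]⟩,.k,.k,(.x (-1) ⟨15,[(5,3),(8,3),(9,6),(0,6),(11,1)]⟩ ⟨0,[(39,0)]⟩),
  .k,.k,.k,⟨false,1,⟨2,[(0,2),(0,1),(4,1),(4,0),(3,0),(0,0),(9,1)]⟩,⟨0,[(3,0),(30,0)]⟩⟩,⟨true,0,⟨0,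
  [(26,0),(2,0)]⟩,⟨0,[(1,0),(32,0)]⟩⟩,⟨true,0,⟨0,[]⟩,⟨0,[(46,0)]⟩⟩,⟨false,0,⟨1,[(3,1),(6,0),(5,0),
  (9,1),(2,0),(10,0)]⟩,⟨1,[(1,1),(22,0),(18,0)]⟩⟩,⟨false,0,⟨0,[]⟩,⟨0,[]⟩⟩,⟨false,0,⟨0,[]⟩,⟨0,[]⟩⟩,
  [.a ⟨true,0,⟨1,[(9,0),(16,0),(0,0)]⟩,⟨0,[(1,0),(24,0)]⟩⟩ ⟨false,1,⟨1,[(24,0),(18,0)]⟩,⟨0,[(3,
  0)]⟩⟩ ⟨true,0,⟨1,[(9,0),(16,1),(2,0),(2,0)]⟩,⟨0,[(1,0)]⟩⟩,.o ⟨false,1,⟨7,[(9,3),(14,0),(0,0),(11,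
  1),(6,3)]⟩,⟨0,[(30,0)]⟩⟩,.o ⟨false,1,⟨1,[(27,1),(9,0),(5,0)]⟩,⟨0,[(16,0),(9,0),(2,0),(12,0)]⟩⟩,.e
  ⟨false,1,⟨2,[(0,2),(0,1),(4,1),(4,0),(4,1),(3,1),(5,1)]⟩,⟨1,[(3,1),(28,0),(0,0)]⟩⟩ ⟨false,1,⟨7,
  [(9,3),(14,0),(0,0),(0,7),(10,1),(6,3)]⟩,⟨0,[(1,0)]⟩⟩]⟩) (.R ⟨0,false,false,false,[1,0,0,-1],[1,0,
  -1],[0,1,0,0,0,0,0,0,-1],(⟨0,[(26,0)]⟩,⟨0,[(27,0)]⟩),(⟨0,[(35,0)]⟩,⟨0,[(36,0)]⟩),⟨0,[(2,0)]⟩,.k,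
  .k,(.x (-1) ⟨15,[(5,3),(8,3),(9,6),(0,6),(11,1)]⟩ ⟨0,[(39,0)]⟩),.k,.k,.k,⟨false,1,⟨3,[(1,0),(4,0),
  (4,0),(10,1),(1,1),(1,0),(3,2)]⟩,⟨0,[(3,0),(16,0)]⟩⟩,⟨true,0,⟨0,[(26,0),(2,0)]⟩,⟨0,[(1,0),(32,
  0)]⟩⟩,⟨true,0,⟨0,[(46,0)]⟩,⟨0,[]⟩⟩,⟨false,0,⟨1,[(0,0),(2,0),(5,0),(16,1),(2,0),(2,0),(7,0)]⟩,⟨1,
  [(1,1),(22,0),(18,0)]⟩⟩,⟨false,0,⟨0,[]⟩,⟨0,[]⟩⟩,⟨false,0,⟨0,[]⟩,⟨0,[]⟩⟩,[.a ⟨true,0,⟨1,[(9,0),(16,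
  0),(0,0)]⟩,⟨0,[(1,0),(24,0)]⟩⟩ ⟨false,1,⟨1,[(24,0),(18,0),(2,1)]⟩,⟨1,[(0,0),(2,0),(36,0)]⟩⟩ ⟨true,
  0,⟨1,[(9,0),(16,1),(2,0),(2,0)]⟩,⟨0,[(1,0)]⟩⟩,.o ⟨false,1,⟨7,[(9,3),(14,0),(0,0),(11,1),(6,3)]⟩,
  ⟨0,[(30,0)]⟩⟩,.o ⟨false,1,⟨1,[(27,1),(9,0),(5,0)]⟩,⟨0,[(16,0),(9,0),(2,0),(12,0)]⟩⟩,.e ⟨false,1,
  ⟨1,[(24,0),(18,0)]⟩,⟨3,[(3,3),(28,0),(0,0),(6,1)]⟩⟩ ⟨false,1,⟨7,[(9,3),(14,0),(0,0),(0,7),(10,1),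
  (6,3)]⟩,⟨0,[(1,0)]⟩⟩]⟩))))

theorem ok92 : chk (cU (-1) true 10) t92 l57 = true := by decide +kernel

noncomputable def t110 : Tre :=
  (.Q [0,0,0,1,0,0,-1,-1,0,0,1,-1] (.p true [0,0,1] [0,0,0,1] (⟨0,[(34,0)]⟩,⟨0,[(33,0)]⟩) .k 2 (⟨0,
  [(25,0)]⟩,⟨0,[(24,0)]⟩) .k (.r 0 ⟨0,[(0,0),(27,0),(2,0)]⟩ ⟨3,[(22,0),(0,2),(8,3)]⟩)) (.Q [0,0,0,0,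
  0,-1,0,0,0,1,0,-1] (.ed true [0,1,0,1] .k) (.R ⟨1,false,false,false,[1,0,0,-1],[1,0,-1],[1,1,0,0,
  0,0,0,0,-1],(⟨0,[(26,0)]⟩,⟨0,[(27,0)]⟩),(⟨0,[(35,0)]⟩,⟨0,[(36,0)]⟩),⟨0,[(0,0)]⟩,.k,.k,(.x (-1)
  ⟨15,[(5,3),(8,3),(9,6),(0,6),(11,1)]⟩ ⟨0,[(39,0)]⟩),.k,(.x 0 ⟨1,[(5,0),(10,1),(19,0),(5,1)]⟩ ⟨23,
  [(6,3),(11,7),(5,8),(0,8),(9,7),(1,1),(1,31)]⟩),.k,⟨false,0,⟨0,[(2,0),(19,0),(7,0),(11,0)]⟩,⟨1,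
  [(25,0),(8,1),(9,0)]⟩⟩,⟨true,0,⟨0,[(26,0),(2,0)]⟩,⟨0,[(16,0),(10,0),(14,0)]⟩⟩,⟨false,0,⟨0,[]⟩,⟨3,
  [(24,0),(0,0),(18,1)]⟩⟩,⟨false,1,⟨5,[(1,1),(8,1),(8,1),(5,2),(0,3),(5,3),(11,2)]⟩,⟨0,[(2,0),(24,
  0),(2,0)]⟩⟩,⟨true,0,⟨0,[(41,0)]⟩,⟨0,[(42,0)]⟩⟩,⟨false,1,⟨1,[(1,1),(23,0),(6,0),(0,0),(10,0)]⟩,⟨0,
  [(2,0),(24,0),(2,0),(11,0)]⟩⟩,[.e ⟨false,0,⟨0,[(2,0),(43,1)]⟩,⟨1,[(25,0),(18,0)]⟩⟩ ⟨false,0,⟨0,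
  [(1,0),(40,0)]⟩,⟨7,[(11,3),(3,7),(8,0),(0,0),(1,7),(16,1)]⟩⟩,.o ⟨false,1,⟨7,[(9,3),(14,0),(0,0),
  (11,1),(6,3)]⟩,⟨0,[(30,0)]⟩⟩,.o ⟨false,1,⟨1,[(27,1),(9,0),(5,0)]⟩,⟨2,[(1,1),(24,0),(2,0),(0,1),(1,
  0),(7,0),(1,1)]⟩⟩,.a ⟨true,0,⟨0,[(27,0)]⟩,⟨0,[(26,0)]⟩⟩ ⟨false,0,⟨0,[(2,0),(43,0)]⟩,⟨1,[(25,0),(6,
  0),(0,0),(10,0)]⟩⟩ ⟨true,0,⟨0,[(1,0),(40,0)]⟩,⟨0,[(27,0),(2,0)]⟩⟩]⟩) (.R ⟨0,false,false,false,[1,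
  0,0,-1],[1,0,-1],[0,1,0,0,0,0,0,0,-1],(⟨0,[(26,0)]⟩,⟨0,[(27,0)]⟩),(⟨0,[(35,0)]⟩,⟨0,[(36,0)]⟩),⟨0,
  [(0,0)]⟩,.k,.k,(.x (-1) ⟨15,[(5,3),(8,3),(9,6),(0,6),(11,1)]⟩ ⟨0,[(39,0)]⟩),.k,.k,.k,⟨false,0,⟨0,
  [(2,0),(19,0),(7,0),(11,0)]⟩,⟨1,[(25,0),(8,1),(9,0)]⟩⟩,⟨true,0,⟨0,[(26,0),(2,0)]⟩,⟨5,[(0,3),(4,0),
  (8,0),(8,2),(3,1)]⟩⟩,⟨true,0,⟨0,[(46,0)]⟩,⟨0,[]⟩⟩,⟨false,1,⟨5,[(1,1),(8,1),(8,1),(5,2),(0,3),(5,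
  3),(11,2)]⟩,⟨0,[(2,0),(24,0),(2,0)]⟩⟩,⟨false,0,⟨0,[]⟩,⟨0,[]⟩⟩,⟨false,0,⟨0,[]⟩,⟨0,[]⟩⟩,[.e ⟨false,
  0,⟨0,[(2,0),(43,1)]⟩,⟨1,[(25,0),(18,0)]⟩⟩ ⟨false,0,⟨0,[(1,0),(40,0)]⟩,⟨7,[(11,3),(3,7),(8,0),(0,
  0),(1,7),(16,1)]⟩⟩,.o ⟨false,1,⟨7,[(9,3),(14,0),(0,0),(11,1),(6,3)]⟩,⟨0,[(30,0)]⟩⟩,.o ⟨false,1,⟨1,
  [(27,1),(9,0),(5,0)]⟩,⟨2,[(1,1),(24,0),(2,0),(0,1),(1,0),(7,0),(1,1)]⟩⟩,.a ⟨true,0,⟨0,[(27,0)]⟩,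
  ⟨0,[(26,0)]⟩⟩ ⟨false,0,⟨0,[(2,0),(43,0)]⟩,⟨1,[(25,0),(6,0),(0,0),(10,0)]⟩⟩ ⟨true,0,⟨0,[(1,0),(40,
  0)]⟩,⟨0,[(27,0),(2,0)]⟩⟩]⟩)) (.Q [0,0,0,0,0,-1,0,0,0,1,0,-1] (.ed true [0,1,0,1] .k) (.Q [0,0,0,0,
  0,0,-1,-1,0,0,1,-1] (.p true [0,0,1] [0,0,0,1] (⟨0,[(36,0)]⟩,⟨0,[(35,0)]⟩) .k 2 (⟨0,[(27,0)]⟩,⟨0,
  [(26,0)]⟩) .k (.r 0 ⟨5,[(1,1),(0,2),(0,2),(9,0),(5,1),(2,0),(3,1),(3,2)]⟩ ⟨3,[(24,0),(0,2),(8,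
  3)]⟩)) (.R ⟨1,false,false,false,[1,0,0,-1],[1,0,-1],[1,1,0,0,0,0,0,0,-1],(⟨0,[(27,0)]⟩,⟨0,[(28,
  0)]⟩),(⟨0,[(36,0)]⟩,⟨0,[(37,0)]⟩),⟨0,[(1,0)]⟩,.k,.k,(.x (-1) ⟨15,[(6,3),(8,3),(9,6),(0,6),(11,
  1)]⟩ ⟨0,[(40,0)]⟩),.k,(.x 0 ⟨1,[(6,0),(10,1),(19,0),(5,1)]⟩ ⟨23,[(7,3),(11,7),(5,8),(0,8),(9,7),
  (1,1),(1,31)]⟩),.k,⟨false,0,⟨0,[(3,0),(19,0),(7,0),(11,0)]⟩,⟨1,[(26,0),(8,1),(9,0)]⟩⟩,⟨true,0,⟨0,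
  [(27,0),(2,0)]⟩,⟨1,[(2,0),(14,0),(10,0),(6,0)]⟩⟩,⟨false,0,⟨0,[]⟩,⟨3,[(25,0),(0,0),(18,1)]⟩⟩,
  ⟨false,1,⟨1,[(0,1),(25,0),(6,0),(0,0),(10,0)]⟩,⟨0,[(2,0),(0,0),(38,0)]⟩⟩,⟨true,0,⟨0,[(42,0)]⟩,⟨0,
  [(43,0)]⟩⟩,⟨false,1,⟨15,[(0,11),(4,3),(2,3),(16,0),(0,8),(0,3),(5,7),(0,3),(10,5)]⟩,⟨0,[(2,0),(0,
  0),(43,0)]⟩⟩,[.e ⟨false,0,⟨0,[(3,0),(43,1)]⟩,⟨1,[(26,0),(18,0)]⟩⟩ ⟨false,0,⟨0,[(0,0)]⟩,⟨23,[(2,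
  15),(5,3),(7,3),(0,3),(7,4),(0,4),(1,7),(15,13)]⟩⟩,.o ⟨false,1,⟨7,[(10,3),(14,0),(0,0),(11,1),(6,
  3)]⟩,⟨0,[(31,0)]⟩⟩,.o ⟨false,1,⟨1,[(28,1),(9,0),(5,0)]⟩,⟨2,[(0,1),(26,0),(2,0),(0,1),(1,0),(7,
  0)]⟩⟩,.a ⟨true,0,⟨0,[(28,0)]⟩,⟨0,[(27,0)]⟩⟩ ⟨false,0,⟨0,[(3,0),(43,0)]⟩,⟨1,[(26,0),(6,0),(0,0),
  (10,0)]⟩⟩ ⟨true,0,⟨0,[(0,0)]⟩,⟨0,[(2,0),(39,0)]⟩⟩]⟩) (.R ⟨1,false,false,false,[1,0,0,-1],[1,0,-1],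
  [1,1,0,0,0,0,0,0,-1],(⟨0,[(27,0)]⟩,⟨0,[(28,0)]⟩),(⟨0,[(36,0)]⟩,⟨0,[(37,0)]⟩),⟨0,[(1,0)]⟩,.k,.k,
  (.x (-1) ⟨15,[(6,3),(8,3),(9,6),(0,6),(11,1)]⟩ ⟨0,[(40,0)]⟩),.k,(.x 0 ⟨1,[(6,0),(10,1),(19,0),(5,
  1)]⟩ ⟨23,[(7,3),(11,7),(5,8),(0,8),(9,7),(1,1),(1,31)]⟩),.k,⟨false,0,⟨0,[(3,0),(19,0),(7,0),(11,
  0)]⟩,⟨1,[(26,0),(8,1),(9,0)]⟩⟩,⟨true,0,⟨0,[(27,0),(2,0)]⟩,⟨1,[(2,0),(14,0),(10,0),(6,0)]⟩⟩,⟨false,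
  0,⟨0,[]⟩,⟨3,[(25,0),(0,0),(18,1)]⟩⟩,⟨false,1,⟨1,[(10,0),(15,0),(0,1),(2,0),(2,0),(11,0)]⟩,⟨0,[(2,
  0),(0,0),(38,0)]⟩⟩,⟨true,0,⟨0,[(42,0)]⟩,⟨0,[(43,0)]⟩⟩,⟨false,1,⟨1,[(5,0),(20,0),(0,1),(2,0),(2,0),
  (11,0)]⟩,⟨0,[(2,0),(0,0),(43,0)]⟩⟩,[.a ⟨true,0,⟨1,[(10,0),(16,0),(0,0)]⟩,⟨0,[(0,0),(26,0)]⟩⟩
  ⟨false,0,⟨0,[(3,0),(43,1)]⟩,⟨1,[(26,0),(18,0)]⟩⟩ ⟨true,0,⟨1,[(10,0),(16,1),(2,0),(2,0)]⟩,⟨0,[(0,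
  0)]⟩⟩,.o ⟨false,1,⟨7,[(10,3),(14,0),(0,0),(11,1),(6,3)]⟩,⟨0,[(31,0)]⟩⟩,.o ⟨false,1,⟨1,[(28,1),(9,
  0),(5,0)]⟩,⟨0,[(17,0),(9,0),(2,0),(12,0)]⟩⟩,.e ⟨false,0,⟨0,[(3,0),(43,0)]⟩,⟨1,[(26,0),(6,0),(0,0),
  (10,0)]⟩⟩ ⟨false,1,⟨7,[(10,3),(14,0),(0,0),(0,7),(10,1),(6,3)]⟩,⟨0,[(0,0)]⟩⟩]⟩)) (.I [1,-1,2,1,0,
  0,0,-1,1] (.R ⟨0,false,false,false,[1,0,0,-1],[1,1,-1],[0,1,0,0,0,0,0,0,-1],(⟨0,[(27,0)]⟩,⟨0,[(28,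
  0)]⟩),(⟨0,[(36,0),(3,0)]⟩,⟨0,[(13,0)]⟩),⟨0,[(1,0)]⟩,.k,.k,(.x (-1) ⟨15,[(6,3),(8,3),(9,6),(0,6),
  (11,1)]⟩ ⟨0,[(40,0)]⟩),(.x 0 ⟨1,[(6,0),(10,1),(19,0),(5,1)]⟩ ⟨23,[(7,3),(11,7),(5,8),(0,8),(9,7),
  (1,1),(1,31)]⟩),.k,.k,⟨true,0,⟨0,[(3,0),(19,0),(7,0),(11,1)]⟩,⟨0,[(0,0)]⟩⟩,⟨false,1,⟨7,[(7,3),(17,
  0),(0,0),(0,7),(10,1)]⟩,⟨1,[(2,0),(14,0),(10,0),(6,0)]⟩⟩,⟨true,0,⟨0,[(47,0)]⟩,⟨0,[]⟩⟩,⟨false,1,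
  ⟨39,[(0,15),(4,11),(14,7),(4,2),(0,14),(0,39),(10,9),(6,11)]⟩,⟨0,[(2,0),(0,0),(43,0)]⟩⟩,⟨false,0,
  ⟨0,[]⟩,⟨0,[]⟩⟩,⟨false,0,⟨0,[]⟩,⟨0,[]⟩⟩,[.a ⟨true,0,⟨1,[(5,0),(21,0),(0,0)]⟩,⟨0,[(2,0),(24,0)]⟩⟩
  ⟨false,0,⟨0,[(3,0),(43,1)]⟩,⟨1,[(26,0),(18,0)]⟩⟩ ⟨true,0,⟨1,[(5,0),(21,1),(2,0),(2,0)]⟩,⟨0,[(2,
  0)]⟩⟩,.o ⟨false,1,⟨7,[(5,3),(19,0),(0,0),(11,1),(6,3)]⟩,⟨0,[(31,0),(11,0)]⟩⟩,.o ⟨false,1,⟨1,[(28,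
  1),(9,0),(5,0)]⟩,⟨0,[(17,0),(9,0),(2,0),(12,0)]⟩⟩,.e ⟨false,0,⟨0,[(3,0),(43,0)]⟩,⟨1,[(26,0),(6,0),
  (0,0),(10,0)]⟩⟩ ⟨false,1,⟨7,[(5,3),(19,0),(0,0),(0,7),(10,1),(6,3)]⟩,⟨0,[(2,0)]⟩⟩]⟩) (.Q [0,0,0,
  -2,0,0,-1,-1,0,-1,1] (.p true [0,0,1] [1] (⟨0,[(37,0)]⟩,⟨0,[(36,0)]⟩) .k 1 (⟨0,[]⟩,⟨0,[]⟩) .k .k)
  (.Q [0,0,0,0,0,0,1,1,0,0,-1,1] (.p false [0,0,1] [0,0,0,1] (⟨0,[(38,0)]⟩,⟨0,[(37,0)]⟩) .k 2 (⟨0,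
  [(29,0)]⟩,⟨0,[(28,0)]⟩) .k (.r 0 ⟨6,[(1,1),(1,0),(1,4),(9,2),(5,0),(6,0),(3,0)]⟩ ⟨3,[(26,0),(0,2),
  (8,3)]⟩)) (.R ⟨0,false,false,false,[1,0,0,-1],[1,0,-1],[1,0,0,0,0,0,0,0,-1],(⟨0,[(29,0)]⟩,⟨0,[(30,
  0)]⟩),(⟨0,[(38,0)]⟩,⟨0,[(39,0)]⟩),⟨0,[(3,0)]⟩,.k,.k,(.x (-1) ⟨15,[(8,3),(8,3),(9,6),(0,6),(11,
  1)]⟩ ⟨0,[(42,0)]⟩),.k,.k,.k,⟨false,0,⟨4,[(2,2),(2,0),(0,0),(3,0),(5,0)]⟩,⟨3,[(27,0),(0,2),(8,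
  3)]⟩⟩,⟨true,0,⟨0,[(29,0),(2,0)]⟩,⟨1,[(4,0),(14,0),(10,0),(6,0)]⟩⟩,⟨true,0,⟨0,[]⟩,⟨0,[(49,0)]⟩⟩,
  ⟨false,1,⟨1,[(12,0),(15,0),(0,1),(2,0),(2,0),(11,0)]⟩,⟨2,[(0,1),(1,0),(2,0),(0,0),(12,0),(10,
  0)]⟩⟩,⟨false,0,⟨0,[]⟩,⟨0,[]⟩⟩,⟨false,0,⟨0,[]⟩,⟨0,[]⟩⟩,[.a ⟨true,0,⟨1,[(12,0),(16,0),(0,0)]⟩,⟨0,
  [(0,0),(28,0)]⟩⟩ ⟨false,0,⟨5,[(2,1),(2,1),(0,1),(0,0),(18,0)]⟩,⟨3,[(27,0),(0,2)]⟩⟩ ⟨true,0,⟨1,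
  [(12,0),(16,1),(2,0),(2,0)]⟩,⟨0,[(0,0)]⟩⟩,.o ⟨false,1,⟨7,[(12,3),(14,0),(0,0),(11,1),(6,3)]⟩,⟨0,
  [(33,0)]⟩⟩,.o ⟨false,1,⟨1,[(30,1),(9,0),(5,0)]⟩,⟨6,[(1,1),(17,3),(9,6),(2,4),(0,1),(1,0),(7,0)]⟩⟩,
  .e ⟨false,0,⟨0,[(5,0)]⟩,⟨3,[(27,0),(0,2),(6,1),(0,1)]⟩⟩ ⟨false,1,⟨7,[(12,3),(14,0),(0,0),(0,7),
  (10,1),(6,3)]⟩,⟨0,[(0,0)]⟩⟩]⟩) (.R ⟨0,false,false,false,[1,0,0,-1],[1,0,-1],[1,0,0,0,0,0,0,0,-1],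
  (⟨0,[(29,0)]⟩,⟨0,[(30,0)]⟩),(⟨0,[(38,0)]⟩,⟨0,[(39,0)]⟩),⟨0,[(3,0)]⟩,.k,.k,(.x (-1) ⟨15,[(8,3),(8,
  3),(9,6),(0,6),(11,1)]⟩ ⟨0,[(42,0)]⟩),.k,.k,.k,⟨false,0,⟨4,[(2,2),(2,0),(0,0),(3,0),(5,0)]⟩,⟨3,
  [(27,0),(0,2),(8,3)]⟩⟩,⟨true,0,⟨0,[(29,0),(2,0)]⟩,⟨1,[(4,0),(14,0),(10,0),(6,0)]⟩⟩,⟨true,0,⟨0,[]⟩,
  ⟨0,[(49,0)]⟩⟩,⟨false,1,⟨1,[(0,1),(27,0),(6,0),(0,0),(10,0)]⟩,⟨4,[(2,0),(1,1),(0,2),(0,0),(11,1),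
  (0,0),(10,2)]⟩⟩,⟨false,0,⟨0,[]⟩,⟨0,[]⟩⟩,⟨false,0,⟨0,[]⟩,⟨0,[]⟩⟩,[.e ⟨false,0,⟨5,[(2,1),(2,1),(0,
  1),(0,0),(18,0)]⟩,⟨3,[(27,0),(0,2)]⟩⟩ ⟨false,0,⟨0,[(0,0)]⟩,⟨23,[(4,15),(5,3),(7,3),(0,3),(7,4),(0,
  4),(1,7),(15,13)]⟩⟩,.o ⟨false,1,⟨7,[(12,3),(14,0),(0,0),(11,1),(6,3)]⟩,⟨0,[(33,0)]⟩⟩,.o ⟨false,1,
  ⟨1,[(30,1),(9,0),(5,0)]⟩,⟨2,[(0,1),(28,0),(2,0),(0,1),(1,0),(7,0)]⟩⟩,.a ⟨true,0,⟨0,[(30,0)]⟩,⟨0,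
  [(29,0)]⟩⟩ ⟨false,0,⟨0,[(5,0)]⟩,⟨3,[(27,0),(0,2),(6,1),(0,1)]⟩⟩ ⟨true,0,⟨0,[(0,0)]⟩,⟨0,[(4,0),(39,
  0)]⟩⟩]⟩)) (.R ⟨0,false,false,false,[1,0,0,-1],[0,1,1],[1,0,0,0,0,0,0,0,-1],(⟨0,[(28,0)]⟩,⟨0,[(29,
  0)]⟩),(⟨0,[(38,0),(2,0)]⟩,⟨0,[(23,0)]⟩),⟨0,[(2,0)]⟩,.k,.k,(.x (-1) ⟨15,[(7,3),(8,3),(9,6),(0,6),
  (11,1)]⟩ ⟨0,[(41,0)]⟩),(.r 0 ⟨2,[(1,0),(2,0),(0,0),(6,1),(12,1)]⟩ ⟨3,[(9,1),(16,0),(0,2),(4,1),(2,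
  1)]⟩),.k,.k,⟨false,0,⟨0,[(1,0),(20,0),(13,0)]⟩,⟨3,[(9,1),(16,0),(0,2),(4,1),(2,1)]⟩⟩,⟨true,0,⟨0,
  [(18,0),(9,0),(15,0)]⟩,⟨0,[(29,0),(1,0)]⟩⟩,⟨true,0,⟨0,[]⟩,⟨0,[(48,0)]⟩⟩,⟨false,1,⟨1,[(9,0),(17,0),
  (0,1),(3,0),(1,0),(11,0)]⟩,⟨3,[(1,0),(1,2),(0,1),(0,0),(5,2),(17,0),(0,0),(5,0)]⟩⟩,⟨false,0,⟨0,
  []⟩,⟨0,[]⟩⟩,⟨false,0,⟨0,[]⟩,⟨0,[]⟩⟩,[.a ⟨true,0,⟨2,[(0,1),(2,0),(24,0)]⟩,⟨2,[(3,0),(8,1),(15,1),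
  (0,0)]⟩⟩ ⟨false,0,⟨5,[(1,1),(2,1),(0,1),(0,0),(18,0)]⟩,⟨3,[(26,0),(0,2)]⟩⟩ ⟨true,0,⟨1,[(9,0),(18,
  1),(3,0),(1,0)]⟩,⟨0,[(3,0),(7,0)]⟩⟩,.o ⟨false,1,⟨0,[(17,0),(28,0)]⟩,⟨0,[(12,0),(19,0)]⟩⟩,.o
  ⟨false,1,⟨1,[(29,1),(9,0),(5,0)]⟩,⟨0,[(18,0),(9,0),(2,0),(12,0)]⟩⟩,.e ⟨false,0,⟨0,[(4,0)]⟩,⟨3,
  [(26,0),(0,2),(6,1),(0,1)]⟩⟩ ⟨false,1,⟨0,[(17,0),(10,0),(17,0)]⟩,⟨0,[(3,0),(7,0)]⟩⟩]⟩)))))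

theorem ok110 : chk (cU (-1) true 10) t110 r58 = true := by decide +kernel

noncomputable def t124 : Tre :=
  (.K ⟨0,[1,1,-1],1,0,(⟨0,[(32,0),(3,0)]⟩,⟨0,[(9,0)]⟩),.k,.k,(.x (-2) ⟨3,[(2,3),(18,0),(0,0),(9,3),
  (1,1),(1,7)]⟩ ⟨0,[(0,0)]⟩),.k,.k,[⟨0,[(5,0),(33,0)]⟩,⟨0,[(2,0)]⟩,⟨1,[(7,0),(15,0),(0,0),(14,2),(3,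
  1)]⟩,⟨0,[(4,0)]⟩]⟩)

theorem ok124 : chk (cU (-1) true 10) t124 l73 = true := by decide +kernel

noncomputable def t153 : Tre :=
  (.R ⟨1,false,false,true,[0,0,1],[0,1],[0,1,1],(⟨0,[(23,0)]⟩,⟨0,[(22,0)]⟩),(⟨0,[(26,0)]⟩,⟨0,[(25,
  0)]⟩),⟨0,[(3,0),(1,0),(0,0)]⟩,.k,.k,.k,.k,(.r (-1) ⟨0,[(1,0),(27,0)]⟩ ⟨2,[(18,1),(0,1),(1,0),(5,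
  3),(0,5)]⟩),.k,⟨true,0,⟨0,[(29,0)]⟩,⟨2,[(2,0),(15,0),(0,0),(7,0),(0,1)]⟩⟩,⟨false,1,⟨0,[(1,0),(5,
  0),(1,0)]⟩,⟨0,[(19,0)]⟩⟩,⟨false,0,⟨2,[(18,1),(0,1),(1,0),(5,0)]⟩,⟨3,[(1,1),(0,1),(27,0),(0,0)]⟩⟩,
  ⟨false,0,⟨0,[(7,0),(1,0)]⟩,⟨5,[(0,3),(3,1),(6,0),(0,0),(18,3)]⟩⟩,⟨false,0,⟨2,[(18,0),(0,0),(1,1),
  (5,1),(0,2)]⟩,⟨10,[(0,1),(0,7),(0,0),(17,1),(6,1),(3,2)]⟩⟩,⟨true,0,⟨0,[(7,0),(1,0),(18,0)]⟩,⟨0,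
  [(0,0)]⟩⟩,[.o ⟨false,0,⟨0,[(28,0)]⟩,⟨1,[(24,0),(4,1),(1,0)]⟩⟩,.a ⟨true,0,⟨2,[(2,0),(2,0),(1,0),(1,
  1),(12,1),(2,0)]⟩,⟨0,[(29,0)]⟩⟩ ⟨true,0,⟨1,[(19,0),(0,0)]⟩,⟨0,[]⟩⟩ ⟨false,1,⟨1,[(9,1),(20,0),(0,
  0)]⟩,⟨6,[(0,3),(3,0),(2,2),(2,1),(4,1)]⟩⟩,.o ⟨false,0,⟨6,[(0,1),(3,3),(2,4),(2,0),(4,0)]⟩,⟨3,[(6,
  1),(4,0),(0,0),(11,0),(5,0)]⟩⟩,.o ⟨false,0,⟨0,[(19,0)]⟩,⟨3,[(6,1),(17,0),(5,2)]⟩⟩]⟩)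

theorem ok153 : chk (cU (-1) true 10) t153 l81 = true := by decide +kernel

noncomputable def t154 : Tre :=
  (.Q [0,0,0,-1,0,0,-2,-2,0,-1,2] (.p true [0,0,1] [1,0,-1] (⟨0,[(25,0)]⟩,⟨0,[(24,0)]⟩) .k 2 (⟨0,
  [(24,0)]⟩,⟨0,[(25,0)]⟩) .k (.r (-1) ⟨5,[(3,3),(0,3),(8,0),(0,0),(4,3),(2,3)]⟩ ⟨0,[(23,1)]⟩)) (.Q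
  [0,0,0,1,0,0,1,1,0,1,-1] (.p false [0,0,1] [1] (⟨0,[(26,0)]⟩,⟨0,[(25,0)]⟩) .k 1 (⟨0,[]⟩,⟨0,[]⟩)
  .k .k) (.R ⟨1,false,false,false,[1,-1,-1],[0,0,1],[1],(⟨0,[(12,0)]⟩,⟨0,[(27,0),(2,0)]⟩),(⟨0,[(27,
  0)]⟩,⟨0,[(26,0)]⟩),⟨0,[(7,0)]⟩,.k,.k,(.r (-1) ⟨1,[(3,1),(30,0),(0,0)]⟩ ⟨1,[(6,1),(16,0),(0,0),(7,
  1)]⟩),(.x (-1) ⟨3,[(10,3),(1,3),(2,0),(0,0),(9,3),(1,1)]⟩ ⟨0,[(2,0)]⟩),(.r (-1) ⟨1,[(3,1),(21,1),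
  (8,0),(0,0)]⟩ ⟨0,[(6,0),(1,0),(15,0)]⟩),.k,⟨true,0,⟨0,[(25,0)]⟩,⟨1,[(6,0),(14,0),(2,0),(8,0)]⟩⟩,
  ⟨false,1,⟨0,[(14,0),(19,0)]⟩,⟨0,[(10,0)]⟩⟩,⟨false,0,⟨0,[(6,0)]⟩,⟨3,[(3,1),(11,0),(0,0),(8,1),(8,
  0),(0,0)]⟩⟩,⟨false,1,⟨0,[(0,0),(20,0),(13,0)]⟩,⟨0,[(1,0)]⟩⟩,⟨true,0,⟨0,[(6,0),(25,0)]⟩,⟨0,[(3,
  0)]⟩⟩,⟨false,1,⟨1,[(0,3),(27,0),(6,0)]⟩,⟨2,[(1,1),(1,1),(6,0),(20,0)]⟩⟩,[.a ⟨true,0,⟨0,[(0,0),(32,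
  0)]⟩,⟨4,[(1,1),(2,0),(12,1),(0,1)]⟩⟩ ⟨true,0,⟨0,[]⟩,⟨1,[(23,0),(0,0)]⟩⟩ ⟨false,1,⟨2,[(0,0),(4,1),
  (2,0),(2,0),(2,1),(19,0)]⟩,⟨9,[(1,3),(2,1),(5,5),(12,2),(0,0)]⟩⟩,.o ⟨false,1,⟨0,[(21,0),(13,0)]⟩,
  ⟨0,[(19,0)]⟩⟩,.o ⟨false,0,⟨0,[(20,0)]⟩,⟨7,[(14,3),(0,0),(0,0),(11,1),(5,3)]⟩⟩,.o ⟨false,0,⟨0,[(10,
  0),(12,0)]⟩,⟨11,[(3,1),(1,3),(2,7),(2,9),(2,1),(13,0),(5,6)]⟩⟩]⟩) (.Q [0,0,0,-1,0,0,1,1,0,1,-1]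
  (.p false [0,0,1] [1] (⟨0,[(27,0)]⟩,⟨0,[(26,0)]⟩) .k 1 (⟨0,[]⟩,⟨0,[]⟩) .k .k) (.R ⟨1,false,false,
  false,[1,-1,-1],[0,-1,1],[1],(⟨0,[(13,0)]⟩,⟨0,[(28,0),(2,0)]⟩),(⟨0,[(3,0),(4,0),(2,0)]⟩,⟨0,[(27,
  0),(3,0)]⟩),⟨0,[(8,0)]⟩,.k,.k,(.r (-1) ⟨1,[(4,1),(30,0),(0,0)]⟩ ⟨1,[(7,1),(16,0),(0,0),(7,1)]⟩),
  .k,(.x (-1) ⟨3,[(11,3),(1,3),(2,0),(0,0),(9,3),(1,1)]⟩ ⟨0,[(3,0)]⟩),.k,⟨false,0,⟨2,[(5,0),(3,0),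
  (2,0),(13,1)]⟩,⟨19,[(0,7),(5,11),(4,3),(4,2),(0,2),(11,1)]⟩⟩,⟨true,0,⟨0,[(15,0)]⟩,⟨0,[(11,0)]⟩⟩,
  ⟨false,0,⟨0,[(7,0)]⟩,⟨3,[(4,1),(11,0),(0,0),(8,1),(8,0),(0,0)]⟩⟩,⟨false,1,⟨0,[(0,0),(8,0),(26,
  0)]⟩,⟨1,[(1,0),(0,0),(2,0)]⟩⟩,⟨true,0,⟨0,[(7,0),(25,0)]⟩,⟨0,[(4,0)]⟩⟩,⟨false,1,⟨7,[(0,3),(6,7),(1,
  3),(5,3),(0,0),(0,0),(17,3),(0,1)]⟩,⟨0,[(2,0)]⟩⟩,[.a ⟨true,0,⟨0,[(0,0)]⟩,⟨4,[(2,0),(2,2),(12,0),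
  (0,0)]⟩⟩ ⟨true,0,⟨0,[]⟩,⟨1,[(24,0),(0,0)]⟩⟩ ⟨false,1,⟨0,[(6,0),(8,0)]⟩,⟨4,[(2,0),(2,2),(5,1),(9,
  1),(2,0)]⟩⟩,.o ⟨false,1,⟨1,[(0,1),(28,0),(6,0)]⟩,⟨1,[(1,0),(3,0),(3,0),(10,0)]⟩⟩,.o ⟨false,0,⟨0,
  [(21,0)]⟩,⟨7,[(15,3),(0,0),(0,0),(11,1),(5,3)]⟩⟩,.o ⟨false,0,⟨0,[(11,0),(12,0)]⟩,⟨11,[(4,1),(1,3),
  (2,7),(2,9),(2,1),(13,0),(5,6)]⟩⟩]⟩) (.I [1,0,-1,0,0,0,0,0,-1] (.Q [0,-1,-1,0,0,0,0,0,-1,0,0,1]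
  (.p true [0,0,0,1] [] (⟨0,[(20,0)]⟩,⟨0,[(19,0)]⟩) .k 0 (⟨0,[]⟩,⟨0,[]⟩) .k .k) (.Q [0,-1,-1,1,0,0,
  0,0,-1,0,0,1] (.p true [0,0,0,1] [] (⟨0,[(21,0)]⟩,⟨0,[(20,0)]⟩) .k 0 (⟨0,[]⟩,⟨0,[]⟩) .k .k) (.Q
  [0,0,3,0,-1,0,0,0,0,0,0,-1] (.p false [0,0,0,1] [] (⟨0,[(22,0)]⟩,⟨0,[(21,0)]⟩) .k 0 (⟨0,[]⟩,⟨0,
  []⟩) .k .k) (.Q [0,0,0,0,0,-1,0,0,0,1,0,-1] (.ed true [0,1,0,1] .k) (.I [1,0,1,1,-1,0,0,-1,-1]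
  (.R ⟨1,false,false,true,[1,0,0,-1],[0,-1,1],[1,1,0,0,0,0,0,0,-1],(⟨0,[(24,0)]⟩,⟨0,[(25,0)]⟩),(⟨0,
  [(9,0),(4,0),(2,0)]⟩,⟨0,[(33,0),(3,0)]⟩),⟨0,[(1,0)]⟩,.k,.k,(.x (-1) ⟨7,[(14,3),(7,2),(0,2),(10,3),
  (0,1)]⟩ ⟨0,[(37,0)]⟩),(.x (-1) ⟨0,[(6,0),(5,0),(20,0),(3,0)]⟩ ⟨1,[(14,0),(12,0),(2,2),(3,2)]⟩),.k,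
  .k,⟨true,(-1),⟨0,[(0,0)]⟩,⟨11,[(2,7),(9,11),(9,0),(0,6),(1,7)]⟩⟩,⟨false,0,⟨23,[(2,7),(18,11),(0,
  2),(0,2),(0,15),(10,1)]⟩,⟨0,[(6,0),(5,0),(12,0)]⟩⟩,⟨false,0,⟨0,[]⟩,⟨3,[(22,0),(0,0),(18,1)]⟩⟩,
  ⟨false,1,⟨19,[(2,15),(9,19),(8,15),(0,2),(0,12),(0,3),(6,11)]⟩,⟨0,[(4,0),(1,0)]⟩⟩,⟨true,0,⟨0,[(39,
  0)]⟩,⟨0,[(40,0)]⟩⟩,⟨false,1,⟨59,[(2,23),(9,19),(0,19),(7,23),(0,16),(0,46),(0,35),(3,19),(2,7)]⟩,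
  ⟨1,[(4,1),(1,0),(0,0)]⟩⟩,[.o ⟨false,0,⟨0,[(28,0),(11,0)]⟩,⟨19,[(8,3),(2,11),(10,0),(0,0),(11,7),
  (6,9)]⟩⟩,.o ⟨false,1,⟨5,[(2,1),(9,5),(9,0),(0,0),(1,1),(4,5)]⟩,⟨0,[(6,0)]⟩⟩,.o ⟨false,1,⟨1,[(25,
  1),(9,0),(5,0)]⟩,⟨2,[(2,0),(21,1),(10,0)]⟩⟩,.a ⟨true,0,⟨0,[(25,0)]⟩,⟨0,[(24,0)]⟩⟩ ⟨false,0,⟨0,[(5,
  0)]⟩,⟨5,[(2,1),(19,0),(0,3),(1,1),(16,2)]⟩⟩ ⟨true,0,⟨0,[(24,0),(3,0),(11,0)]⟩,⟨0,[(6,0),(18,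
  0)]⟩⟩]⟩) (.I [1,1,1,0,0,0,0,0,1] (.Q [0,1,1,-2,0,0,0,0,1,0,0,-1] (.p false [0,0,0,1] [] (⟨0,[(26,
  0)]⟩,⟨0,[(25,0)]⟩) .k 0 (⟨0,[]⟩,⟨0,[]⟩) .k .k) (.R ⟨1,false,false,false,[1,-1],[1,0,0,-1],[1,1],
  (⟨0,[(38,0)]⟩,⟨0,[(39,0)]⟩),(⟨0,[(26,0)]⟩,⟨0,[(27,0)]⟩),⟨0,[(16,0),(19,0)]⟩,.k,.k,(.r (-1) ⟨2,
  [(12,1),(1,1),(29,0)]⟩ ⟨20,[(1,7),(2,3),(8,13),(1,10),(1,2),(6,3),(2,3),(4,10)]⟩),(.r (-1) ⟨5,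
  [(12,1),(1,1),(10,2),(18,0)]⟩ ⟨45,[(4,17),(0,9),(7,11),(1,0),(1,10),(6,17),(2,7),(4,0)]⟩),(.r
  (-2) ⟨11,[(12,7),(1,7),(9,2),(0,8),(18,3)]⟩ ⟨0,[(4,0),(0,0),(35,0)]⟩),.k,⟨false,1,⟨15,[(12,3),(1,
  3),(9,0),(0,8),(15,11),(1,1)]⟩,⟨8,[(4,0),(1,0),(0,5),(16,0),(15,3)]⟩⟩,⟨true,1,⟨0,[(27,0),(15,0)]⟩,
  ⟨0,[(4,0)]⟩⟩,⟨false,0,⟨41,[(1,7),(2,3),(8,13),(1,10),(1,2),(6,3),(2,3),(4,10)]⟩,⟨2,[(12,0),(1,0),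
  (29,1)]⟩⟩,⟨false,0,⟨0,[(5,0)]⟩,⟨11,[(0,5),(3,1),(19,2),(0,5),(0,3),(10,1),(6,2)]⟩⟩,⟨false,0,⟨20,
  [(1,1),(2,0),(8,13),(1,7),(1,5),(6,0),(2,0),(4,7)]⟩,⟨5,[(0,2),(5,2),(5,1),(1,1),(29,3)]⟩⟩,⟨true,0,
  ⟨0,[(5,0),(35,0)]⟩,⟨0,[(0,0)]⟩⟩,[.o ⟨false,0,⟨0,[(6,0),(2,0),(7,0)]⟩,⟨11,[(4,3),(19,2),(0,8),(0,
  7),(10,3)]⟩⟩,.a ⟨true,0,⟨0,[(6,0)]⟩,⟨0,[(1,0),(24,0)]⟩⟩ ⟨true,0,⟨0,[]⟩,⟨7,[(1,1),(2,1),(19,0),(2,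
  1),(16,0)]⟩⟩ ⟨false,1,⟨0,[(6,0),(36,0)]⟩,⟨2,[(1,2),(2,0),(21,1),(10,0)]⟩⟩,.o ⟨false,0,⟨3,[(4,0),
  (4,1),(7,1),(9,0),(9,0),(2,0)]⟩,⟨3,[(24,0),(0,0),(17,1)]⟩⟩,.o ⟨false,0,⟨0,[(29,0),(2,0)]⟩,⟨0,[(43,
  0)]⟩⟩]⟩) (.R ⟨1,false,false,true,[1,0,0,-1],[0,-1,1],[0,1,0,-1,0,0,0,0,-1],(⟨0,[(26,0)]⟩,⟨0,[(27,
  0)]⟩),(⟨0,[(11,0),(4,0),(2,0)]⟩,⟨0,[(35,0),(3,0)]⟩),⟨0,[(3,0)]⟩,.k,.k,(.x (-1) ⟨7,[(16,3),(7,2),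
  (0,2),(10,3),(0,1)]⟩ ⟨0,[(39,0)]⟩),(.x (-1) ⟨0,[(8,0),(5,0),(20,0),(3,0)]⟩ ⟨1,[(16,0),(12,0),(2,
  2),(3,2)]⟩),.k,.k,⟨true,(-1),⟨0,[(0,0),(3,0),(7,0)]⟩,⟨43,[(1,7),(0,23),(12,15),(1,3),(4,3),(1,6),
  (0,12)]⟩⟩,⟨false,0,⟨23,[(4,7),(18,11),(0,2),(0,2),(0,15),(10,1)]⟩,⟨0,[(8,0),(5,0),(12,0)]⟩⟩,
  ⟨false,0,⟨0,[(42,0)]⟩,⟨5,[(13,1),(3,1),(6,0),(0,0),(18,3)]⟩⟩,⟨false,1,⟨3,[(1,1),(0,3),(1,1),(18,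
  1),(0,0),(1,1),(17,0)]⟩,⟨0,[(0,0),(8,0)]⟩⟩,⟨true,0,⟨0,[(46,0)]⟩,⟨0,[]⟩⟩,⟨false,1,⟨17,[(1,0),(0,8),
  (1,6),(10,4),(1,3),(5,6),(0,5),(0,9),(0,10)]⟩,⟨1,[(6,1),(1,0),(0,0)]⟩⟩,[.o ⟨false,0,⟨0,[(30,0),
  (11,0)]⟩,⟨19,[(10,3),(2,11),(10,0),(0,0),(11,7),(6,9)]⟩⟩,.o ⟨false,1,⟨6,[(2,3),(11,0),(9,1),(5,1),
  (1,4),(7,0),(1,1)]⟩,⟨0,[(8,0)]⟩⟩,.o ⟨false,1,⟨1,[(27,1),(9,0),(5,0)]⟩,⟨2,[(4,0),(21,1),(10,0)]⟩⟩,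
  .a ⟨true,0,⟨0,[(27,0)]⟩,⟨0,[(26,0)]⟩⟩ ⟨false,0,⟨2,[(4,0),(1,0),(0,1),(4,0),(1,0)]⟩,⟨11,[(1,3),(11,
  3),(1,3),(8,0),(0,4),(6,3),(11,5)]⟩⟩ ⟨true,0,⟨0,[(26,0),(3,0),(11,0)]⟩,⟨0,[(8,0),(18,0)]⟩⟩]⟩))
  (.R ⟨1,false,false,false,[1,0,0,-1],[1,1,-1],[1,1,0,0,0,0,0,0,-1],(⟨0,[(25,0)]⟩,⟨0,[(26,0)]⟩),(⟨0,
  [(34,0),(3,0)]⟩,⟨0,[(10,0),(4,0),(2,0)]⟩),⟨0,[(2,0)]⟩,.k,.k,(.x (-1) ⟨7,[(15,3),(7,2),(0,2),(10,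
  3),(0,1)]⟩ ⟨0,[(38,0)]⟩),(.r (-1) ⟨4,[(3,0),(1,0),(7,3),(9,1),(5,0),(2,0),(8,0)]⟩ ⟨1,[(3,0),(3,1),
  (2,0),(9,0),(3,0),(1,0),(7,0)]⟩),(.r (-1) ⟨29,[(3,13),(1,13),(0,3),(4,10),(1,37),(9,5),(5,2),(2,
  2)]⟩ ⟨19,[(3,9),(3,5),(4,15),(1,0),(1,0),(5,5),(1,9),(1,9),(4,8)]⟩),.k,⟨true,0,⟨0,[(0,0),(20,0),
  (7,0),(11,1)]⟩,⟨9,[(3,4),(3,1),(4,3),(6,3),(2,1),(1,4),(1,4),(4,1),(7,2)]⟩⟩,⟨false,1,⟨3,[(18,1),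
  (6,3),(10,0),(5,2)]⟩,⟨0,[(19,0),(6,0),(2,0)]⟩⟩,⟨false,0,⟨0,[]⟩,⟨3,[(23,0),(0,0),(18,1)]⟩⟩,⟨false,
  1,⟨59,[(3,19),(5,11),(2,35),(10,2),(0,32),(0,39),(10,13),(6,29)]⟩,⟨0,[(5,0),(23,0),(11,0)]⟩⟩,
  ⟨true,0,⟨0,[(40,0)]⟩,⟨0,[(41,0)]⟩⟩,⟨false,1,⟨5,[(3,1),(8,5),(11,2),(0,3),(10,1),(6,2)]⟩,⟨0,[(5,0),
  (23,0),(11,1)]⟩⟩,[.o ⟨false,0,⟨0,[(7,0)]⟩,⟨6,[(1,3),(11,0),(9,1),(5,1),(1,4),(7,0),(1,1)]⟩⟩,.o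
  ⟨false,1,⟨19,[(9,3),(2,11),(10,0),(0,0),(11,7),(6,9)]⟩,⟨0,[(29,0),(11,0)]⟩⟩,.o ⟨false,1,⟨1,[(26,
  1),(9,0),(5,0)]⟩,⟨2,[(3,0),(21,1),(10,0)]⟩⟩,.a ⟨true,0,⟨0,[(26,0)]⟩,⟨0,[(25,0)]⟩⟩ ⟨false,0,⟨0,[(6,
  0)]⟩,⟨5,[(3,1),(19,0),(0,3),(1,1),(16,2)]⟩⟩ ⟨true,0,⟨0,[(7,0),(17,0)]⟩,⟨0,[(26,0),(2,0),(11,
  0)]⟩⟩]⟩))) (.Q [0,1,1,-2,0,0,0,0,1,0,0,-1] (.p false [0,0,0,1] [] (⟨0,[(24,0)]⟩,⟨0,[(23,0)]⟩) .k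
  0 (⟨0,[]⟩,⟨0,[]⟩) .k .k) (.R ⟨0,false,false,false,[1,0,0,-1],[0,-1,1],[0,1,1],(⟨0,[(24,0)]⟩,⟨0,
  [(25,0)]⟩),(⟨0,[(9,0),(4,0),(2,0)]⟩,⟨0,[(33,0),(3,0)]⟩),⟨0,[(1,0)]⟩,.k,.k,(.x (-1) ⟨7,[(14,3),(7,
  2),(0,2),(10,3),(0,1)]⟩ ⟨0,[(37,0)]⟩),(.x (-1) ⟨0,[(6,0),(5,0),(20,0),(3,0)]⟩ ⟨1,[(14,0),(12,0),
  (2,2),(3,2)]⟩),.k,.k,⟨true,(-1),⟨2,[(1,2),(0,2),(3,0),(2,1),(0,0),(0,0),(2,0),(4,2),(0,1)]⟩,⟨13,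
  [(0,1),(11,11),(0,1),(8,0),(2,1),(12,5),(3,0)]⟩⟩,⟨false,0,⟨23,[(2,7),(18,11),(0,2),(0,2),(0,15),
  (10,1)]⟩,⟨0,[(6,0),(5,0),(12,0)]⟩⟩,⟨true,0,⟨2,[(0,0),(0,1),(0,0),(6,0),(4,0),(4,0),(0,1),(2,0)]⟩,
  ⟨0,[(5,0)]⟩⟩,⟨false,1,⟨5,[(0,3),(11,1),(0,3),(7,3),(1,0),(0,1),(6,1),(10,2)]⟩,⟨0,[(3,0),(22,0)]⟩⟩,
  ⟨false,0,⟨0,[]⟩,⟨0,[]⟩⟩,⟨false,0,⟨0,[]⟩,⟨0,[]⟩⟩,[.o ⟨false,1,⟨5,[(0,1),(11,1),(9,0),(2,1),(2,3),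
  (1,1),(11,2)]⟩,⟨0,[(6,0)]⟩⟩,.o ⟨false,1,⟨11,[(0,1),(11,7),(9,0),(2,1),(2,3),(1,7),(7,5),(3,2)]⟩,
  ⟨1,[(6,0),(19,0),(12,0)]⟩⟩,.o ⟨false,1,⟨1,[(25,1),(9,0),(5,0)]⟩,⟨2,[(2,0),(21,1),(10,0)]⟩⟩,.a
  ⟨true,0,⟨0,[(25,0)]⟩,⟨0,[(24,0)]⟩⟩ ⟨true,0,⟨0,[(44,0)]⟩,⟨0,[]⟩⟩ ⟨false,1,⟨5,[(0,1),(1,0),(9,3),(0,
  1),(7,2),(0,0),(1,2),(13,0),(3,1)]⟩,⟨0,[(6,0),(18,0)]⟩⟩]⟩) (.I [0,0,1,1,-1,0,0,-1,-1] (.R ⟨0,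
  false,false,true,[1,0,0,-1],[0,-1,1],[1,1,-1,-1,0,0,0,1],(⟨0,[(25,0)]⟩,⟨0,[(26,0)]⟩),(⟨0,[(10,0),
  (4,0),(2,0)]⟩,⟨0,[(34,0),(3,0)]⟩),⟨0,[(2,0)]⟩,.k,.k,(.x (-1) ⟨7,[(15,3),(7,2),(0,2),(10,3),(0,
  1)]⟩ ⟨0,[(38,0)]⟩),(.r 1 ⟨0,[(0,0)]⟩ ⟨11,[(3,3),(9,11),(9,4),(0,10),(1,3)]⟩),.k,.k,⟨true,0,⟨0,[]⟩,
  ⟨5,[(3,1),(19,0),(0,0),(1,1)]⟩⟩,⟨false,0,⟨23,[(3,7),(18,11),(0,2),(0,2),(0,15),(10,1)]⟩,⟨0,[(7,0),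
  (5,0),(12,0)]⟩⟩,⟨true,1,⟨1,[(13,0),(7,0),(2,0),(4,0),(11,1)]⟩,⟨0,[(0,0)]⟩⟩,⟨false,1,⟨19,[(3,15),
  (9,19),(8,15),(0,2),(0,12),(0,3),(6,11)]⟩,⟨0,[(1,0),(6,0)]⟩⟩,⟨false,0,⟨0,[]⟩,⟨0,[]⟩⟩,⟨false,0,⟨0,
  []⟩,⟨0,[]⟩⟩,[.o ⟨false,0,⟨0,[(29,0),(11,0)]⟩,⟨19,[(9,3),(2,11),(10,0),(0,0),(11,7),(6,9)]⟩⟩,.o
  ⟨false,1,⟨5,[(3,1),(9,5),(9,0),(0,0),(1,1),(4,5)]⟩,⟨0,[(7,0)]⟩⟩,.o ⟨false,1,⟨1,[(26,1),(9,0),(5,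
  0)]⟩,⟨2,[(3,0),(21,1),(10,0)]⟩⟩,.a ⟨true,0,⟨0,[(26,0)]⟩,⟨0,[(25,0)]⟩⟩ ⟨false,1,⟨0,[(13,0)]⟩,⟨5,
  [(0,5),(2,1),(19,0),(0,3),(1,1),(16,2)]⟩⟩ ⟨true,0,⟨0,[(25,0),(3,0),(11,0)]⟩,⟨0,[(7,0),(18,
  0)]⟩⟩]⟩) (.R ⟨0,false,false,false,[1,0,0,-1],[0,-1,1],[1,0,-1,-1,0,0,0,1],(⟨0,[(25,0)]⟩,⟨0,[(26,
  0)]⟩),(⟨0,[(10,0),(4,0),(2,0)]⟩,⟨0,[(34,0),(3,0)]⟩),⟨0,[(2,0)]⟩,.k,.k,(.x (-1) ⟨7,[(15,3),(7,2),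
  (0,2),(10,3),(0,1)]⟩ ⟨0,[(38,0)]⟩),(.x (-1) ⟨0,[(7,0),(5,0),(20,0),(3,0)]⟩ ⟨1,[(15,0),(12,0),(2,
  2),(3,2)]⟩),.k,.k,⟨true,0,⟨0,[]⟩,⟨5,[(3,1),(19,0),(0,0),(1,1)]⟩⟩,⟨false,0,⟨23,[(3,7),(18,11),(0,
  2),(0,2),(0,15),(10,1)]⟩,⟨1,[(0,1),(0,0),(3,0),(21,1)]⟩⟩,⟨true,1,⟨0,[(0,0)]⟩,⟨0,[(1,0),(1,0),(7,
  0),(28,0)]⟩⟩,⟨false,1,⟨19,[(0,19),(2,11),(18,11),(0,0),(0,0),(0,7),(6,3),(10,9)]⟩,⟨1,[(1,0),(3,0),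
  (21,1)]⟩⟩,⟨false,0,⟨0,[]⟩,⟨0,[]⟩⟩,⟨false,0,⟨0,[]⟩,⟨0,[]⟩⟩,[.o ⟨false,1,⟨6,[(0,3),(12,0),(9,1),(5,
  1),(1,4),(7,0),(1,1)]⟩,⟨0,[(7,0)]⟩⟩,.o ⟨false,1,⟨6,[(0,1),(12,3),(9,0),(5,0),(1,5),(7,3),(1,0)]⟩,
  ⟨1,[(7,0),(19,0),(12,0)]⟩⟩,.o ⟨false,1,⟨1,[(26,1),(9,0),(5,0)]⟩,⟨2,[(3,0),(21,1),(10,0)]⟩⟩,.a
  ⟨true,0,⟨0,[(26,0)]⟩,⟨0,[(25,0)]⟩⟩ ⟨true,1,⟨0,[(13,0)]⟩,⟨2,[(2,2),(0,2),(3,0),(2,1),(0,0),(0,0),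
  (2,0),(4,2),(0,1)]⟩⟩ ⟨false,1,⟨5,[(0,1),(2,2),(9,3),(8,2),(0,0),(1,2),(13,0),(3,1)]⟩,⟨0,[(7,0),
  (18,0)]⟩⟩]⟩)))) (.Q [0,1,0,0,0,0,2,2,0,1,-2] (.p false [0,0,1] [1,0,-1] (⟨0,[(32,0)]⟩,⟨0,[(31,
  0)]⟩) .k 2 (⟨0,[(31,0)]⟩,⟨0,[(32,0)]⟩) .k (.r (-1) ⟨5,[(10,3),(0,3),(8,0),(0,0),(4,3),(2,3)]⟩ ⟨0,
  [(30,1)]⟩)) (.Q [0,-1,0,-1,0,0,-2,-2,0,-1,2] (.p true [0,0,1] [1,0,-1] (⟨0,[(33,0)]⟩,⟨0,[(32,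
  0)]⟩) .k 2 (⟨0,[(32,0)]⟩,⟨0,[(33,0)]⟩) .k (.r (-1) ⟨3,[(0,1),(10,1),(0,1),(3,1),(4,0),(0,0)]⟩ ⟨0,
  [(31,1)]⟩)) (.R ⟨1,true,false,true,[1,0,-1],[0,0,1],[1,1,0,0,0,0,0,-1],(⟨0,[(33,0)]⟩,⟨0,[(34,
  0)]⟩),(⟨0,[(34,0)]⟩,⟨0,[(33,0)]⟩),⟨0,[(19,0)]⟩,.k,.k,.k,.k,(.x (-1) ⟨3,[(17,3),(1,3),(2,0),(0,0),
  (9,3),(1,1)]⟩ ⟨0,[(9,0)]⟩),.k,⟨false,0,⟨1,[(6,1),(2,0),(0,0),(7,0),(0,0),(13,0)]⟩,⟨3,[(1,1),(10,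
  1),(0,1),(3,1),(4,0),(0,0)]⟩⟩,⟨true,0,⟨0,[(21,0)]⟩,⟨0,[(17,0)]⟩⟩,⟨false,0,⟨0,[]⟩,⟨3,[(22,0),(0,0),
  (18,1)]⟩⟩,⟨true,0,⟨0,[(1,0)]⟩,⟨3,[(6,0),(1,2),(2,0)]⟩⟩,⟨true,0,⟨0,[(39,0)]⟩,⟨0,[(40,0)]⟩⟩,⟨false,
  1,⟨5,[(1,5),(9,1),(3,1),(6,0),(0,0),(18,3)]⟩,⟨0,[(0,0)]⟩⟩,[]⟩) (.Q [0,-1,0,-2,0,0,-2,-2,0,-1,2]
  (.p true [0,0,1] [1,0,-1] (⟨0,[(34,0)]⟩,⟨0,[(33,0)]⟩) .k 2 (⟨0,[(33,0)]⟩,⟨0,[(34,0)]⟩) .k (.r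
  (-1) ⟨3,[(1,1),(10,1),(0,1),(3,1),(4,0),(0,0)]⟩ ⟨0,[(32,1)]⟩)) (.R ⟨1,true,false,true,[1,0,-1],[0,
  1,1],[1,1,0,0,0,0,0,-1],(⟨0,[(34,0)]⟩,⟨0,[(35,0)]⟩),(⟨0,[(35,0),(2,0)]⟩,⟨0,[(20,0)]⟩),⟨0,[(20,
  0)]⟩,.k,.k,.k,(.x (-1) ⟨3,[(18,3),(1,3),(2,0),(0,0),(9,3),(1,1)]⟩ ⟨0,[(10,0)]⟩),(.r (-1) ⟨1,[(11,
  1),(21,1),(8,0),(0,0)]⟩ ⟨3,[(1,1),(12,3),(3,1),(12,0),(0,0),(7,1)]⟩),.k,⟨true,0,⟨3,[(7,1),(2,0),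
  (0,2),(7,2),(0,0),(13,0)]⟩,⟨2,[(1,0),(0,0),(11,1),(3,1),(12,0),(0,0)]⟩⟩,⟨false,1,⟨0,[(22,0),(19,
  0)]⟩,⟨0,[(18,0)]⟩⟩,⟨false,0,⟨0,[]⟩,⟨3,[(23,0),(0,0),(18,1)]⟩⟩,⟨true,0,⟨0,[(1,0)]⟩,⟨0,[(9,0)]⟩⟩,
  ⟨true,0,⟨0,[(40,0)]⟩,⟨0,[(41,0)]⟩⟩,⟨false,1,⟨19,[(1,23),(10,7),(10,2),(0,2),(11,1),(6,11)]⟩,⟨0,
  [(0,0)]⟩⟩,[]⟩) (.I [0,1,1,0,0,0,0,0,1] (.Q [0,0,0,-1,0,0,0,0,0,-1,0,1] (.p true [0,0,0,1] [1] (⟨0,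
  [(27,0)]⟩,⟨0,[(26,0)]⟩) .k 1 (⟨0,[]⟩,⟨0,[]⟩) .k .k) (.Q [0,0,0,0,0,1,0,0,0,-1,0,1] (.ed false [0,
  1,0,1] .k) (.Q [0,1,1,1,0,0,0,0,1,1,0,-1] (.p false [0,0,0,1] [1] (⟨0,[(29,0)]⟩,⟨0,[(28,0)]⟩) .k
  1 (⟨0,[]⟩,⟨0,[]⟩) .k .k) (.R ⟨0,false,false,true,[1,0,0,-1],[0,1],[1,1],(⟨0,[(29,0)]⟩,⟨0,[(30,
  0)]⟩),(⟨0,[(42,0)]⟩,⟨0,[(41,0)]⟩),⟨0,[(1,0)]⟩,.k,.k,(.x (-1) ⟨7,[(19,3),(7,2),(0,2),(10,3),(0,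
  1)]⟩ ⟨0,[(42,0)]⟩),(.x (-1) ⟨7,[(19,3),(7,2),(0,2),(10,3),(0,1)]⟩ ⟨0,[(42,0)]⟩),.k,.k,⟨false,1,⟨5,
  [(15,1),(1,1),(28,2),(0,0)]⟩,⟨8,[(4,0),(11,2),(1,0),(3,0),(12,4),(0,1)]⟩⟩,⟨true,0,⟨0,[(29,0)]⟩,
  ⟨13,[(2,8),(1,0),(11,2),(1,0),(11,4),(1,5),(2,6)]⟩⟩,⟨false,1,⟨3,[(27,0),(0,2)]⟩,⟨3,[(10,3),(24,0),
  (0,0),(6,1)]⟩⟩,⟨true,0,⟨0,[(0,0)]⟩,⟨0,[(2,0),(7,0)]⟩⟩,⟨false,0,⟨0,[]⟩,⟨0,[]⟩⟩,⟨false,0,⟨0,[]⟩,⟨0,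
  []⟩⟩,[.o ⟨false,0,⟨0,[(44,0)]⟩,⟨1,[(40,0),(4,1),(1,0)]⟩⟩,.e ⟨true,0,⟨0,[]⟩,⟨1,[(35,0),(0,0)]⟩⟩
  ⟨true,0,⟨8,[(4,0),(11,2),(1,0),(3,0),(6,8),(5,4),(0,1)]⟩,⟨0,[(2,0)]⟩⟩,.o ⟨false,1,⟨11,[(7,3),(19,
  0),(0,0),(1,7),(9,5)]⟩,⟨2,[(12,1),(7,1),(8,2),(2,0),(2,0),(7,0)]⟩⟩,.a ⟨true,0,⟨0,[(30,0)]⟩,⟨0,
  [(29,0)]⟩⟩ ⟨false,1,⟨3,[(27,0),(0,0),(17,1)]⟩,⟨3,[(35,0),(0,0),(6,1)]⟩⟩ ⟨true,0,⟨0,[(29,0),(14,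
  0)]⟩,⟨0,[(2,0)]⟩⟩]⟩) (.R ⟨1,false,false,false,[0,0,0,1],[1,-1],[0,0,0,-1],(⟨0,[(30,0)]⟩,⟨0,[(29,
  0)]⟩),(⟨0,[(41,0)]⟩,⟨0,[(42,0)]⟩),⟨6,[(2,3),(11,0),(1,0),(1,0),(0,3),(5,0),(4,2),(8,1)]⟩,.k,.k,
  (.r (-1) ⟨5,[(15,1),(1,1),(10,2),(18,0)]⟩ ⟨17,[(4,1),(5,17),(5,5),(1,1),(3,1),(12,18),(0,12)]⟩),
  (.x 0 ⟨0,[(42,0)]⟩ ⟨7,[(19,3),(7,2),(0,2),(10,3),(0,1)]⟩),.k,.k,⟨true,0,⟨1,[(35,0),(0,0)]⟩,⟨0,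
  []⟩⟩,⟨false,1,⟨11,[(7,3),(19,0),(0,0),(1,7),(9,5)]⟩,⟨0,[(29,0)]⟩⟩,⟨false,0,⟨1,[(0,1),(28,1),(5,0),
  (0,0)]⟩,⟨11,[(4,1),(11,3),(10,1),(0,7),(11,0),(6,0)]⟩⟩,⟨false,0,⟨0,[(0,0)]⟩,⟨2,[(3,0),(12,0),(1,
  0),(8,0),(0,1),(0,2),(5,0)]⟩⟩,⟨false,0,⟨3,[(10,3),(24,0),(0,0),(6,1)]⟩,⟨3,[(27,0),(0,2)]⟩⟩,⟨true,
  0,⟨0,[(0,0),(43,0)]⟩,⟨0,[(3,0),(25,0)]⟩⟩,[.a ⟨true,0,⟨0,[(45,0)]⟩,⟨3,[(14,0),(1,0),(1,0),(6,0),(3,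
  0),(0,0),(7,1),(2,0)]⟩⟩ ⟨true,0,⟨0,[(45,0)]⟩,⟨8,[(4,0),(11,2),(1,0),(3,0),(12,4),(0,1)]⟩⟩ ⟨false,
  1,⟨11,[(2,5),(4,5),(7,1),(1,1),(22,2),(6,0)]⟩,⟨8,[(4,0),(11,2),(1,0),(3,0),(6,8),(5,4),(0,1)]⟩⟩,
  .o ⟨false,1,⟨1,[(40,0),(4,1),(1,0)]⟩,⟨0,[(44,0)]⟩⟩,.o ⟨false,0,⟨2,[(12,1),(7,1),(8,2),(2,0),(2,0),
  (7,0)]⟩,⟨11,[(7,3),(19,0),(0,0),(1,7),(9,5)]⟩⟩,.o ⟨false,0,⟨0,[(29,0),(2,0),(2,0)]⟩,⟨33,[(2,9),(1,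
  1),(2,21),(0,1),(2,3),(16,0),(11,10)]⟩⟩]⟩)) (.I [1,1,-1,0,0,0,0,1,-1] (.R ⟨1,false,false,false,[1,
  0,0,-1],[1,0,-1],[1,1,0,0,0,0,0,0,-1],(⟨0,[(29,0)]⟩,⟨0,[(30,0)]⟩),(⟨0,[(38,0)]⟩,⟨0,[(39,0)]⟩),⟨0,
  [(1,0)]⟩,.k,.k,(.x (-1) ⟨7,[(19,3),(7,2),(0,2),(10,3),(0,1)]⟩ ⟨0,[(42,0)]⟩),.k,(.r (-1) ⟨6,[(0,0),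
  (5,0),(10,3),(4,0),(4,2),(15,0),(1,2)]⟩ ⟨2,[(3,2),(7,1),(2,0),(3,0),(4,1),(0,0),(13,0)]⟩),.k,
  ⟨false,0,⟨0,[(0,0)]⟩,⟨1,[(28,0),(8,1),(9,0)]⟩⟩,⟨true,0,⟨0,[(29,0),(2,0)]⟩,⟨6,[(2,3),(1,0),(11,0),
  (6,0),(2,2),(3,2)]⟩⟩,⟨false,0,⟨0,[]⟩,⟨3,[(27,0),(0,0),(18,1)]⟩⟩,⟨false,1,⟨29,[(13,11),(2,5),(11,
  14),(0,29),(2,13),(2,13),(4,1),(2,1),(3,12)]⟩,⟨3,[(2,1),(1,0),(1,0),(2,1),(0,1)]⟩⟩,⟨true,0,⟨0,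
  [(44,0)]⟩,⟨0,[(45,0)]⟩⟩,⟨false,1,⟨9,[(13,1),(2,5),(11,4),(0,9),(2,3),(2,3),(4,1),(2,1),(3,2)]⟩,⟨1,
  [(2,0),(3,0),(2,0),(0,0),(34,0)]⟩⟩,[.o ⟨false,0,⟨1,[(11,0),(0,0)]⟩,⟨3,[(6,1),(20,0),(0,0),(11,0),
  (6,0)]⟩⟩,.o ⟨false,1,⟨9,[(13,3),(2,1),(10,0),(0,0),(11,2),(6,4)]⟩,⟨0,[(33,0)]⟩⟩,.o ⟨false,1,⟨11,
  [(7,3),(19,0),(0,0),(1,7),(9,5)]⟩,⟨2,[(12,1),(7,1),(8,2),(2,0),(2,0),(7,0)]⟩⟩,.a ⟨true,0,⟨0,[(30,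
  0)]⟩,⟨0,[(29,0)]⟩⟩ ⟨false,0,⟨0,[(10,0)]⟩,⟨0,[(3,0),(43,0)]⟩⟩ ⟨true,0,⟨1,[(11,0),(0,0),(16,1)]⟩,⟨3,
  [(2,1),(1,0),(1,0),(23,1),(18,1)]⟩⟩]⟩) (.I [0,0,-2,-2,1,0,0,0,1] (.Q [0,1,1,-2,0,0,0,0,1,0,0,-1]
  (.p false [0,0,0,1] [] (⟨0,[(31,0)]⟩,⟨0,[(30,0)]⟩) .k 0 (⟨0,[]⟩,⟨0,[]⟩) .k .k) (.R ⟨1,false,false,
  false,[0,0,0,1],[0,1],[0,0,1],(⟨0,[(32,0)]⟩,⟨0,[(31,0)]⟩),(⟨0,[(44,0)]⟩,⟨0,[(43,0)]⟩),⟨9,[(2,0),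
  (1,5),(1,0),(3,0),(7,0),(2,4),(5,0),(4,2),(8,4)]⟩,.k,.k,(.r (-1) ⟨7,[(1,3),(27,0),(0,2)]⟩ ⟨17,[(6,
  1),(5,17),(5,5),(1,1),(3,1),(12,18),(0,12)]⟩),(.r (-1) ⟨7,[(1,3),(27,0),(0,2)]⟩ ⟨17,[(6,1),(5,17),
  (5,5),(1,1),(3,1),(12,18),(0,12)]⟩),(.r (-1) ⟨0,[(1,0)]⟩ ⟨17,[(6,3),(5,17),(5,11),(1,3),(3,3),(12,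
  28),(0,16)]⟩),.k,⟨true,0,⟨0,[(47,0)]⟩,⟨8,[(6,0),(11,2),(1,0),(3,0),(12,4),(0,1)]⟩⟩,⟨false,1,⟨0,
  [(9,0)]⟩,⟨0,[(31,0),(2,0),(2,0)]⟩⟩,⟨false,0,⟨3,[(12,3),(24,2),(0,2),(6,1)]⟩,⟨1,[(30,0),(17,0)]⟩⟩,
  ⟨false,0,⟨0,[(10,0)]⟩,⟨9,[(0,5),(1,1),(17,1),(8,2),(0,3),(0,3),(10,1),(6,0)]⟩⟩,⟨false,0,⟨5,[(12,
  5),(5,1),(1,1),(16,4),(0,2),(6,1)]⟩,⟨7,[(1,3),(27,0),(0,2)]⟩⟩,⟨true,0,⟨0,[(10,0),(35,0)]⟩,⟨0,[(0,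
  0)]⟩⟩,[.a ⟨true,0,⟨5,[(2,0),(3,0),(3,0),(7,0),(8,0),(3,4),(0,3)]⟩,⟨0,[(47,0)]⟩⟩ ⟨true,0,⟨1,[(37,
  0),(0,0)]⟩,⟨0,[]⟩⟩ ⟨false,1,⟨41,[(6,5),(2,25),(0,5),(7,11),(10,4),(0,7),(1,9),(9,2)]⟩,⟨11,[(0,6),
  (11,6),(0,0),(8,0),(8,4),(2,3),(2,3),(7,3)]⟩⟩,.o ⟨false,1,⟨11,[(6,1),(11,3),(10,1),(0,1),(11,0),
  (6,6)]⟩,⟨0,[(14,0),(20,0)]⟩⟩,.o ⟨false,0,⟨2,[(0,0),(11,0),(0,0),(8,0),(8,1),(2,0),(2,0),(7,0)]⟩,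
  ⟨11,[(9,3),(19,0),(0,0),(1,7),(9,5)]⟩⟩,.o ⟨false,0,⟨0,[(31,0),(2,0),(2,0)]⟩,⟨33,[(4,9),(1,1),(2,
  21),(0,1),(2,3),(16,0),(11,10)]⟩⟩]⟩) (.K ⟨1,[1,-1,0,-1],0,0,(⟨0,[(3,0)]⟩,⟨0,[(32,0),(11,0)]⟩),(.x
  (-1) ⟨7,[(21,3),(7,2),(0,2),(10,3),(0,1)]⟩ ⟨0,[(44,0)]⟩),(.r (-1) ⟨2,[(12,0),(4,1),(1,1),(9,0),
  (15,0)]⟩ ⟨12,[(2,4),(2,7),(0,2),(11,6),(1,5),(13,2),(2,3)]⟩),.k,.k,.k,[⟨1,[(31,1),(5,0),(0,0)]⟩,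
  ⟨3,[(0,0),(3,1),(0,0),(26,0),(1,1),(2,1)]⟩,⟨3,[(2,0),(2,2),(0,0),(6,0),(13,0),(3,3)]⟩,⟨0,[(11,0),
  (35,0)]⟩]⟩)) (.I [0,0,1,1,-1,0,0,-1,-1] (.R ⟨1,false,false,false,[0,-1,1],[1,0,0,-1],[1,0,-1,-1,0,
  0,0,1],(⟨0,[(16,0),(4,0),(2,0)]⟩,⟨0,[(40,0),(3,0)]⟩),(⟨0,[(31,0)]⟩,⟨0,[(32,0)]⟩),⟨2,[(3,2),(0,2),
  (8,0),(2,2),(3,0),(0,2),(2,1),(2,0)]⟩,.k,.k,(.r (-1) ⟨0,[(19,0),(27,0)]⟩ ⟨11,[(1,3),(0,3),(2,3),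
  (12,7),(10,2),(0,0),(6,7)]⟩),(.r (-2) ⟨9,[(8,1),(10,5),(4,1),(4,3),(0,8),(16,3),(1,0)]⟩ ⟨0,[(0,
  0)]⟩),(.r (-2) ⟨3,[(19,3),(9,0),(0,2),(16,3)]⟩ ⟨0,[(1,0),(37,0)]⟩),.k,⟨false,2,⟨3,[(19,3),(9,0),
  (0,2)]⟩,⟨0,[(0,0)]⟩⟩,⟨true,1,⟨67,[(4,9),(1,1),(2,55),(0,1),(2,3),(10,33),(5,0),(11,10)]⟩,⟨0,[(1,
  0),(0,0),(5,0),(5,0),(16,0),(15,0)]⟩⟩,⟨true,0,⟨0,[]⟩,⟨0,[(51,0)]⟩⟩,⟨false,0,⟨0,[(11,0),(1,0)]⟩,⟨7,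
  [(8,3),(20,0),(0,4),(0,7),(2,3),(2,3),(9,7),(1,1)]⟩⟩,⟨false,1,⟨11,[(6,1),(11,3),(10,1),(0,1),(11,
  0),(6,6)]⟩,⟨0,[(47,0)]⟩⟩,⟨false,0,⟨0,[(10,0),(2,0)]⟩,⟨7,[(8,3),(20,0),(0,4),(0,7),(2,3),(2,3),(9,
  15),(1,1)]⟩⟩,[.o ⟨false,0,⟨3,[(4,2),(5,0),(1,2),(0,0),(8,0)]⟩,⟨7,[(29,0),(0,4),(0,7),(2,3),(2,3),
  (4,1)]⟩⟩,.a ⟨true,0,⟨0,[(11,0)]⟩,⟨0,[(5,0),(25,0)]⟩⟩ ⟨true,1,⟨6,[(8,0),(10,4),(4,0),(20,1),(1,1),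
  (1,1)]⟩,⟨0,[(0,0),(4,0)]⟩⟩ ⟨false,1,⟨0,[(11,0),(1,0),(5,0)]⟩,⟨0,[(5,0),(25,0),(5,0)]⟩⟩,.o ⟨false,
  0,⟨0,[(37,0)]⟩,⟨3,[(24,1),(17,0),(5,2)]⟩⟩,.o ⟨false,0,⟨1,[(37,2),(0,0)]⟩,⟨0,[(13,0),(5,0)]⟩⟩]⟩)
  (.K ⟨1,[1,-1,0,-1],0,0,(⟨0,[(3,0)]⟩,⟨0,[(32,0),(11,0)]⟩),(.x (-1) ⟨7,[(21,3),(7,2),(0,2),(10,3),
  (0,1)]⟩ ⟨0,[(44,0)]⟩),(.r (-1) ⟨2,[(12,0),(4,1),(1,1),(9,0),(15,0)]⟩ ⟨0,[(1,0),(28,0)]⟩),.k,.k,.k,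
  [⟨1,[(31,1),(5,0),(0,0)]⟩,⟨7,[(1,3),(2,7),(24,0),(0,2)]⟩,⟨3,[(2,0),(2,2),(0,0),(6,0),(13,0),(3,
  3)]⟩,⟨0,[(11,0),(35,0)]⟩]⟩))))) (.Q [0,1,1,-2,0,0,0,0,1,0,0,-1] (.p false [0,0,0,1] [] (⟨0,[(28,
  0)]⟩,⟨0,[(27,0)]⟩) .k 0 (⟨0,[]⟩,⟨0,[]⟩) .k .k) (.I [0,0,2,2,-1,0,0,0,-1] (.R ⟨1,true,false,false,
  [1,-1],[1,0,0,-1],[1,0,-1,-1],(⟨0,[(41,0)]⟩,⟨0,[(42,0)]⟩),(⟨0,[(29,0)]⟩,⟨0,[(30,0)]⟩),⟨0,[(19,0),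
  (19,0)]⟩,.k,.k,(.r (-1) ⟨2,[(15,1),(1,1),(29,0)]⟩ ⟨3,[(0,3),(26,0),(0,2)]⟩),(.r (-1) ⟨5,[(15,1),
  (1,1),(10,2),(18,0)]⟩ ⟨7,[(0,3),(26,2),(0,0)]⟩),(.r (-2) ⟨11,[(15,7),(1,7),(9,2),(0,8),(18,3)]⟩
  ⟨0,[(0,0)]⟩),.k,⟨true,1,⟨5,[(15,1),(1,1),(10,2),(18,0)]⟩,⟨1,[(0,1),(0,0),(7,0)]⟩⟩,⟨false,1,⟨0,[(7,
  0)]⟩,⟨31,[(0,19),(0,23),(0,7),(24,2),(0,0),(11,3),(6,11)]⟩⟩,⟨true,0,⟨0,[]⟩,⟨0,[(49,0)]⟩⟩,⟨false,0,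
  ⟨0,[(8,0)]⟩,⟨31,[(0,3),(0,23),(0,7),(24,6),(0,12),(11,3),(6,11)]⟩⟩,⟨false,1,⟨11,[(4,1),(11,3),(10,
  1),(0,1),(11,0),(6,6)]⟩,⟨0,[(45,0)]⟩⟩,⟨true,0,⟨0,[(8,0),(35,0)]⟩,⟨0,[(1,0)]⟩⟩,[]⟩) (.R ⟨1,false,
  false,false,[1,-1],[1,0,0,-1],[0,1,1],(⟨0,[(41,0)]⟩,⟨0,[(42,0)]⟩),(⟨0,[(29,0)]⟩,⟨0,[(30,0)]⟩),⟨0,
  [(19,0),(19,0)]⟩,.k,.k,(.r (-1) ⟨2,[(15,1),(1,1),(29,0)]⟩ ⟨8,[(4,1),(11,5),(1,1),(3,1),(12,9),(0,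
  3)]⟩),(.r (-1) ⟨7,[(0,3),(26,0),(0,2)]⟩ ⟨17,[(4,1),(5,17),(5,5),(1,1),(3,1),(12,18),(0,12)]⟩),(.x
  0 ⟨0,[(19,0),(2,0),(12,1),(3,0)]⟩ ⟨2,[(0,2),(1,0),(1,0),(3,0),(1,1),(0,1),(30,5)]⟩),.k,⟨true,0,⟨0,
  [(3,0)]⟩,⟨3,[(10,3),(24,0),(0,0),(6,1)]⟩⟩,⟨false,1,⟨0,[(7,0)]⟩,⟨0,[(29,0),(2,0),(2,0)]⟩⟩,⟨false,0,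
  ⟨17,[(4,1),(11,5),(1,1),(3,1),(12,18),(0,12)]⟩,⟨0,[(17,0),(5,0)]⟩⟩,⟨false,0,⟨0,[(8,0)]⟩,⟨23,[(1,
  15),(0,7),(24,4),(0,8),(3,3),(2,3),(4,1),(6,7)]⟩⟩,⟨false,0,⟨8,[(4,1),(11,5),(1,1),(3,1),(12,9),(0,
  3)]⟩,⟨5,[(0,2),(9,2),(4,1),(1,1),(25,2),(3,0)]⟩⟩,⟨true,0,⟨0,[(8,0),(35,0)]⟩,⟨0,[(1,0)]⟩⟩,[.o
  ⟨false,0,⟨0,[(9,0),(2,0),(7,0)]⟩,⟨5,[(1,1),(0,3),(24,0),(0,2),(3,1),(2,1),(4,0),(6,0)]⟩⟩,.a ⟨true,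
  0,⟨0,[(9,0)]⟩,⟨0,[(3,0),(25,0)]⟩⟩ ⟨true,0,⟨1,[(35,0),(0,0)]⟩,⟨0,[]⟩⟩ ⟨false,1,⟨2,[(7,1),(1,0),(0,
  1),(36,0)]⟩,⟨17,[(1,7),(0,9),(0,9),(0,0),(6,2),(6,0),(13,7),(2,8)]⟩⟩,.o ⟨false,0,⟨2,[(12,1),(7,1),
  (11,0),(2,0),(7,0)]⟩,⟨3,[(27,0),(0,0),(17,1)]⟩⟩,.o ⟨false,0,⟨0,[(32,0),(2,0)]⟩,⟨0,[(46,0)]⟩⟩]⟩))
  (.I [1,1,-1,-1,0,0,0,1,-1] (.Q [0,0,0,0,0,-1,0,0,0,1,0,-1] (.ed true [0,1,0,1] .k) (.R ⟨1,false,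
  false,false,[1,0,0,-1],[1,1,-1],[1,1,0,0,0,0,0,0,-1],(⟨0,[(30,0)]⟩,⟨0,[(31,0)]⟩),(⟨0,[(39,0),(3,
  0)]⟩,⟨0,[(15,0),(4,0),(2,0)]⟩),⟨0,[(0,0)]⟩,.k,.k,(.x (-1) ⟨7,[(20,3),(7,2),(0,2),(10,3),(0,1)]⟩
  ⟨0,[(43,0)]⟩),(.r (-1) ⟨13,[(1,3),(5,1),(10,5),(4,1),(4,4),(17,3),(1,2)]⟩ ⟨2,[(4,2),(7,1),(2,0),
  (3,0),(4,1),(0,0),(13,0)]⟩),(.r (-1) ⟨2,[(1,2),(14,0),(1,0),(29,1)]⟩ ⟨12,[(4,12),(0,1),(6,1),(4,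
  9),(6,4),(11,7),(7,4)]⟩),.k,⟨true,0,⟨0,[(1,0)]⟩,⟨12,[(4,12),(0,0),(6,0),(4,4),(6,8),(11,3),(7,
  8)]⟩⟩,⟨false,1,⟨39,[(3,35),(10,11),(3,23),(4,7),(4,2),(0,2),(0,3),(10,9)]⟩,⟨0,[(24,0),(6,0),(2,
  0)]⟩⟩,⟨false,0,⟨0,[]⟩,⟨3,[(28,0),(0,0),(18,1)]⟩⟩,⟨false,1,⟨29,[(3,29),(10,11),(2,5),(11,14),(3,
  13),(2,13),(4,1),(2,1),(3,12)]⟩,⟨0,[(7,0),(2,0),(2,0)]⟩⟩,⟨true,0,⟨0,[(45,0)]⟩,⟨0,[(46,0)]⟩⟩,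
  ⟨false,1,⟨9,[(3,9),(10,1),(2,5),(11,4),(3,3),(2,3),(4,1),(2,1),(3,2)]⟩,⟨0,[(7,0),(2,0),(2,0),(32,
  0)]⟩⟩,[.o ⟨false,0,⟨0,[(12,0)]⟩,⟨3,[(7,1),(20,0),(0,0),(11,0),(4,3),(1,0)]⟩⟩,.o ⟨false,1,⟨19,[(14,
  3),(2,11),(10,0),(0,0),(11,7),(6,9)]⟩,⟨0,[(7,0),(5,0)]⟩⟩,.o ⟨false,1,⟨11,[(8,3),(19,0),(0,0),(1,
  7),(9,5)]⟩,⟨2,[(13,1),(7,1),(8,2),(2,0),(2,0),(7,0)]⟩⟩,.a ⟨true,0,⟨0,[(31,0)]⟩,⟨0,[(30,0)]⟩⟩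
  ⟨false,0,⟨0,[(11,0)]⟩,⟨0,[(4,0),(43,0)]⟩⟩ ⟨true,0,⟨1,[(3,1),(8,0),(0,0)]⟩,⟨0,[(7,0),(5,0),(17,
  0)]⟩⟩]⟩) (.R ⟨0,false,false,true,[1,0,0,-1],[0,1],[0,0,1],(⟨0,[(30,0)]⟩,⟨0,[(31,0)]⟩),(⟨0,[(43,
  0)]⟩,⟨0,[(42,0)]⟩),⟨0,[(0,0)]⟩,.k,.k,(.x (-1) ⟨7,[(20,3),(7,2),(0,2),(10,3),(0,1)]⟩ ⟨0,[(43,0)]⟩),
  (.x (-1) ⟨7,[(20,3),(7,2),(0,2),(10,3),(0,1)]⟩ ⟨0,[(43,0)]⟩),.k,.k,⟨false,1,⟨2,[(16,0),(1,0),(29,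
  1)]⟩,⟨0,[(45,0)]⟩⟩,⟨true,0,⟨0,[(30,0)]⟩,⟨4,[(0,2),(14,0),(4,1),(10,1),(1,3),(2,1)]⟩⟩,⟨false,1,⟨0,
  [(4,0),(43,0)]⟩,⟨0,[(11,0)]⟩⟩,⟨true,0,⟨0,[(3,0),(0,0)]⟩,⟨0,[(10,0),(2,0),(20,0)]⟩⟩,⟨false,0,⟨0,
  []⟩,⟨0,[]⟩⟩,⟨false,0,⟨0,[]⟩,⟨0,[]⟩⟩,[.o ⟨false,0,⟨0,[(45,0)]⟩,⟨1,[(41,0),(4,1),(1,0)]⟩⟩,.a ⟨true,
  0,⟨0,[(3,0),(27,0)]⟩,⟨0,[(46,0)]⟩⟩ ⟨true,0,⟨3,[(36,0),(0,0),(6,1)]⟩,⟨0,[(50,0)]⟩⟩ ⟨false,0,⟨0,[(3,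
  0)]⟩,⟨5,[(16,1),(1,1),(12,5),(9,2),(6,0)]⟩⟩,.o ⟨false,1,⟨11,[(8,3),(19,0),(0,0),(1,7),(9,5)]⟩,⟨2,
  [(13,1),(7,1),(8,2),(2,0),(2,0),(7,0)]⟩⟩,.e ⟨false,1,⟨3,[(28,0),(0,0),(18,1)]⟩,⟨0,[]⟩⟩ ⟨false,0,
  ⟨0,[(3,0)]⟩,⟨1,[(31,1),(9,0),(4,1),(1,0)]⟩⟩]⟩)) (.Q [0,0,0,0,0,-1,0,0,0,1,0,-1] (.ed true [0,1,0,
  1] .k) (.K ⟨1,[1,-1,0,-1],0,0,(⟨0,[(0,0)]⟩,⟨0,[(31,0),(11,0)]⟩),(.x (-1) ⟨7,[(20,3),(7,2),(0,2),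
  (10,3),(0,1)]⟩ ⟨0,[(43,0)]⟩),(.r (-1) ⟨2,[(11,0),(4,1),(1,1),(9,0),(15,0)]⟩ ⟨10,[(1,7),(2,2),(0,
  4),(11,1),(5,4),(12,3),(0,1)]⟩),.k,.k,.k,[⟨1,[(30,1),(5,0),(0,0)]⟩,⟨2,[(1,0),(8,0),(2,0),(17,1),
  (1,1),(0,1),(1,0)]⟩,⟨0,[(3,0),(0,0)]⟩,⟨0,[(10,0),(35,0)]⟩]⟩) (.K ⟨2,[-1,1,0,1],0,0,(⟨0,[(0,0)]⟩,
  ⟨0,[(30,0),(11,0)]⟩),(.x 0 ⟨0,[(43,0)]⟩ ⟨7,[(20,3),(7,2),(0,2),(10,3),(0,1)]⟩),.k,(.r 0 ⟨10,[(1,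
  7),(2,2),(0,4),(11,1),(5,4),(12,3),(0,1)]⟩ ⟨2,[(11,0),(4,1),(1,1),(9,0),(15,0)]⟩),(.r 0 ⟨7,[(1,5),
  (2,1),(22,0),(4,0),(2,0),(9,1)]⟩ ⟨18,[(7,3),(3,2),(6,10),(4,3),(4,7),(15,1),(1,7)]⟩),(.r (-1) ⟨15,
  [(4,3),(0,3),(13,7),(3,3),(4,4),(0,10)]⟩ ⟨8,[(10,0),(0,7),(2,2),(1,2),(10,1),(2,0),(5,1),(7,0)]⟩),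
  [⟨2,[(0,2),(12,1),(1,0),(4,1),(0,1),(2,0),(9,0),(9,0)]⟩,⟨4,[(15,0),(11,1),(2,4),(6,0),(1,1),(2,
  0)]⟩,⟨4,[(0,2),(14,0),(4,1),(10,1),(1,3),(2,1)]⟩,⟨1,[(30,1),(5,0),(0,0)]⟩,⟨1,[(10,1),(5,0),(15,0),
  (0,0),(0,1)]⟩,⟨0,[(3,0),(0,0)]⟩]⟩))))) (.Q [0,0,0,0,0,1,0,0,0,-1,0,1] (.ed false [0,1,0,1] .k)
  (.R ⟨0,false,false,false,[1,0,0,-1],[1,0,-1],[0,1,0,0,0,0,0,0,-1],(⟨0,[(27,0)]⟩,⟨0,[(28,0)]⟩),(⟨0,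
  [(36,0)]⟩,⟨0,[(37,0)]⟩),⟨0,[(0,0)]⟩,.k,.k,(.x (-1) ⟨7,[(17,3),(7,2),(0,2),(10,3),(0,1)]⟩ ⟨0,[(40,
  0)]⟩),.k,.k,.k,⟨false,0,⟨2,[(1,2),(2,0),(8,0),(6,0),(2,1),(7,1)]⟩,⟨1,[(26,0),(8,1),(9,0)]⟩⟩,⟨true,
  0,⟨0,[(27,0),(2,0)]⟩,⟨4,[(0,2),(11,0),(4,1),(6,0),(3,1),(4,0)]⟩⟩,⟨true,0,⟨0,[(47,0)]⟩,⟨0,[]⟩⟩,
  ⟨false,1,⟨29,[(11,11),(2,5),(11,14),(0,29),(2,13),(2,13),(4,1),(2,1),(3,12)]⟩,⟨0,[(7,0),(23,0)]⟩⟩,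
  ⟨false,0,⟨0,[]⟩,⟨0,[]⟩⟩,⟨false,0,⟨0,[]⟩,⟨0,[]⟩⟩,[.o ⟨false,0,⟨1,[(9,0),(0,0)]⟩,⟨3,[(4,1),(20,0),
  (0,0),(11,0),(6,0)]⟩⟩,.o ⟨false,1,⟨9,[(11,3),(2,1),(10,0),(0,0),(11,2),(6,4)]⟩,⟨0,[(31,0)]⟩⟩,.o
  ⟨false,1,⟨11,[(5,3),(19,0),(0,0),(1,7),(9,5)]⟩,⟨2,[(10,1),(7,1),(8,2),(2,0),(2,0),(7,0)]⟩⟩,.a
  ⟨true,0,⟨0,[(28,0)]⟩,⟨0,[(27,0)]⟩⟩ ⟨false,0,⟨0,[(1,0),(0,0),(6,2),(2,0),(3,0),(0,1),(5,0),(16,2),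
  (2,6)]⟩,⟨1,[(26,0),(6,0),(0,0),(10,0)]⟩⟩ ⟨true,0,⟨1,[(9,0),(0,0),(16,1)]⟩,⟨0,[(28,0),(2,0)]⟩⟩]⟩)
  (.R ⟨1,false,false,true,[1,0,0,-1],[0,1,1],[0,1,0,-1,0,0,0,0,-1],(⟨0,[(27,0)]⟩,⟨0,[(28,0)]⟩),(⟨0,
  [(37,0),(2,0)]⟩,⟨0,[(22,0)]⟩),⟨0,[(0,0)]⟩,.k,.k,(.x (-1) ⟨7,[(17,3),(7,2),(0,2),(10,3),(0,1)]⟩ ⟨0,
  [(40,0)]⟩),(.r 0 ⟨5,[(1,0),(5,0),(0,3),(2,1),(1,1),(10,0),(2,0),(5,1)]⟩ ⟨11,[(2,3),(13,3),(3,3),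
  (4,2),(0,8),(6,1),(0,1)]⟩),(.r 0 ⟨0,[(1,0),(11,0)]⟩ ⟨35,[(2,15),(11,11),(1,15),(3,15),(4,8),(0,
  26),(6,25),(0,13)]⟩),.k,⟨false,0,⟨0,[(1,0),(11,0)]⟩,⟨35,[(2,15),(11,11),(1,15),(3,7),(4,8),(0,26),
  (3,7),(2,3)]⟩⟩,⟨true,0,⟨0,[(21,0),(5,0),(3,0)]⟩,⟨0,[(28,0),(1,0)]⟩⟩,⟨false,0,⟨0,[(43,0)]⟩,⟨11,[(2,
  1),(11,3),(10,1),(0,1),(11,0),(6,6)]⟩⟩,⟨false,1,⟨23,[(2,7),(13,7),(8,4),(0,16),(0,23),(2,3),(2,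
  11),(4,1)]⟩,⟨0,[(7,0),(2,0)]⟩⟩,⟨true,0,⟨0,[(47,0)]⟩,⟨0,[]⟩⟩,⟨false,1,⟨71,[(2,31),(11,23),(1,31),
  (8,10),(0,46),(0,71),(2,3),(2,35),(4,13)]⟩,⟨0,[(7,0),(2,0),(32,0)]⟩⟩,[.o ⟨false,0,⟨0,[(18,0)]⟩,⟨3,
  [(10,3),(14,0),(0,0),(18,1)]⟩⟩,.o ⟨false,1,⟨3,[(2,1),(22,0),(0,0),(11,0),(6,0)]⟩,⟨0,[(10,0)]⟩⟩,.o
  ⟨false,1,⟨11,[(5,3),(19,0),(0,0),(1,7),(9,5)]⟩,⟨2,[(10,1),(7,1),(8,2),(2,0),(2,0),(7,0)]⟩⟩,.a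
  ⟨true,0,⟨0,[(28,0)]⟩,⟨0,[(27,0)]⟩⟩ ⟨false,0,⟨0,[(8,0),(34,0)]⟩,⟨11,[(14,3),(1,3),(8,0),(0,6),(6,
  5),(0,1),(10,3)]⟩⟩ ⟨true,0,⟨0,[(18,0),(8,0)]⟩,⟨0,[(10,0),(17,0)]⟩⟩]⟩))))) (.I [0,1,-1,0,0,0,0,1,
  -1] (.Q [0,0,0,0,0,1,0,0,0,-1,0,1] (.ed false [0,1,0,1] .k) (.R ⟨0,false,false,false,[1,0,0,-1],
  [1,0,-1],[0,1,0,0,0,0,0,0,-1],(⟨0,[(25,0)]⟩,⟨0,[(26,0)]⟩),(⟨0,[(34,0)]⟩,⟨0,[(35,0)]⟩),⟨0,[(0,0)]⟩,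
  .k,.k,(.x (-1) ⟨7,[(15,3),(7,2),(0,2),(10,3),(0,1)]⟩ ⟨0,[(38,0)]⟩),.k,.k,.k,⟨false,0,⟨0,[(1,0)]⟩,
  ⟨1,[(24,0),(8,1),(9,0)]⟩⟩,⟨true,0,⟨0,[(25,0),(2,0)]⟩,⟨4,[(0,2),(9,0),(4,1),(6,0),(3,1),(4,0)]⟩⟩,
  ⟨true,0,⟨0,[(45,0)]⟩,⟨0,[]⟩⟩,⟨false,1,⟨7,[(2,3),(20,0),(0,4),(0,7),(2,3),(2,3),(11,1)]⟩,⟨0,[(5,0),
  (23,0)]⟩⟩,⟨false,0,⟨0,[]⟩,⟨0,[]⟩⟩,⟨false,0,⟨0,[]⟩,⟨0,[]⟩⟩,[.o ⟨false,0,⟨1,[(7,0),(0,0)]⟩,⟨3,[(23,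
  0),(0,0),(4,3),(13,1)]⟩⟩,.o ⟨false,1,⟨3,[(2,1),(20,0),(0,0),(11,0),(6,0)]⟩,⟨0,[(29,0)]⟩⟩,.o
  ⟨false,1,⟨11,[(3,3),(19,0),(0,0),(1,7),(9,5)]⟩,⟨2,[(8,1),(7,1),(8,2),(2,0),(2,0),(7,0)]⟩⟩,.a
  ⟨true,0,⟨0,[(26,0)]⟩,⟨0,[(25,0)]⟩⟩ ⟨false,0,⟨0,[(1,0),(0,1),(7,0),(3,0),(0,1),(0,1),(21,2),(2,
  2)]⟩,⟨1,[(24,0),(6,0),(0,0),(10,0)]⟩⟩ ⟨true,0,⟨1,[(7,0),(0,0),(16,1)]⟩,⟨0,[(26,0),(2,0)]⟩⟩]⟩) (.R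
  ⟨1,false,false,false,[1,0,0,-1],[1,0,-1],[1,1,0,0,0,0,0,0,-1],(⟨0,[(25,0)]⟩,⟨0,[(26,0)]⟩),(⟨0,
  [(34,0)]⟩,⟨0,[(35,0)]⟩),⟨0,[(0,0)]⟩,.k,.k,(.x (-1) ⟨7,[(15,3),(7,2),(0,2),(10,3),(0,1)]⟩ ⟨0,[(38,
  0)]⟩),.k,(.x 0 ⟨0,[(10,0),(4,0),(12,0)]⟩ ⟨3,[(18,1),(4,0),(0,0),(9,3),(1,0),(1,3),(3,0)]⟩),.k,
  ⟨false,0,⟨0,[(1,0)]⟩,⟨1,[(24,0),(8,1),(9,0)]⟩⟩,⟨true,0,⟨0,[(25,0),(2,0)]⟩,⟨0,[(19,0),(6,0),(2,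
  0)]⟩⟩,⟨false,0,⟨0,[]⟩,⟨3,[(23,0),(0,0),(18,1)]⟩⟩,⟨false,1,⟨7,[(2,3),(20,0),(0,4),(0,7),(2,3),(2,
  3),(11,1)]⟩,⟨0,[(5,0),(23,0)]⟩⟩,⟨true,0,⟨0,[(40,0)]⟩,⟨0,[(41,0)]⟩⟩,⟨false,1,⟨7,[(2,1),(9,3),(11,
  3),(0,7),(2,3),(2,3),(4,0),(6,2)]⟩,⟨0,[(5,0),(23,0),(11,0)]⟩⟩,[.o ⟨false,0,⟨1,[(7,0),(0,0)]⟩,⟨3,
  [(23,0),(0,0),(4,3),(13,1)]⟩⟩,.o ⟨false,1,⟨3,[(2,1),(20,0),(0,0),(11,0),(6,0)]⟩,⟨0,[(29,0)]⟩⟩,.o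
  ⟨false,1,⟨11,[(3,3),(19,0),(0,0),(1,7),(9,5)]⟩,⟨2,[(8,1),(7,1),(8,2),(2,0),(2,0),(7,0)]⟩⟩,.a
  ⟨true,0,⟨0,[(26,0)]⟩,⟨0,[(25,0)]⟩⟩ ⟨false,0,⟨0,[(6,0)]⟩,⟨1,[(24,0),(6,0),(0,0),(10,0)]⟩⟩ ⟨true,0,
  ⟨1,[(7,0),(0,0),(16,1)]⟩,⟨0,[(26,0),(2,0)]⟩⟩]⟩)) (.Q [0,0,0,-1,0,0,0,0,0,-1,0,1] (.p true [0,0,0,
  1] [1] (⟨0,[(25,0)]⟩,⟨0,[(24,0)]⟩) .k 1 (⟨0,[]⟩,⟨0,[]⟩) .k .k) (.Q [0,0,0,0,0,1,0,0,0,-1,0,1]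
  (.ed false [0,1,0,1] .k) (.R ⟨0,false,false,true,[1,0,0,-1],[0,1],[0,0,1],(⟨0,[(26,0)]⟩,⟨0,[(27,
  0)]⟩),(⟨0,[(39,0)]⟩,⟨0,[(38,0)]⟩),⟨0,[(0,0)]⟩,.k,.k,(.x (-1) ⟨7,[(16,3),(7,2),(0,2),(10,3),(0,
  1)]⟩ ⟨0,[(39,0)]⟩),(.x (-1) ⟨7,[(16,3),(7,2),(0,2),(10,3),(0,1)]⟩ ⟨0,[(39,0)]⟩),.k,.k,⟨false,1,⟨2,
  [(12,0),(1,0),(29,1)]⟩,⟨0,[(41,0)]⟩⟩,⟨true,0,⟨0,[(26,0)]⟩,⟨9,[(1,5),(11,1),(1,0),(1,0),(9,3),(1,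
  3),(2,4)]⟩⟩,⟨false,1,⟨1,[(25,0),(6,0),(0,0),(10,0)]⟩,⟨0,[(7,0)]⟩⟩,⟨true,0,⟨0,[(2,0),(19,0),(3,0),
  (3,0)]⟩,⟨0,[(1,0),(5,0)]⟩⟩,⟨false,0,⟨0,[]⟩,⟨0,[]⟩⟩,⟨false,0,⟨0,[]⟩,⟨0,[]⟩⟩,[.o ⟨false,0,⟨0,[(41,
  0)]⟩,⟨1,[(37,0),(4,1),(1,0)]⟩⟩,.e ⟨true,0,⟨3,[(32,0),(0,0),(6,1)]⟩,⟨0,[(46,0)]⟩⟩ ⟨true,0,⟨3,[(13,
  0),(1,0),(10,3),(5,1),(0,0),(7,0)]⟩,⟨0,[(1,0)]⟩⟩,.o ⟨false,1,⟨11,[(4,3),(19,0),(0,0),(1,7),(9,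
  5)]⟩,⟨2,[(9,1),(7,1),(8,2),(2,0),(2,0),(7,0)]⟩⟩,.a ⟨true,0,⟨0,[(27,0)]⟩,⟨0,[(26,0)]⟩⟩ ⟨false,1,⟨3,
  [(24,0),(0,0),(18,1)]⟩,⟨0,[]⟩⟩ ⟨true,0,⟨0,[(26,0),(14,0)]⟩,⟨0,[(1,0)]⟩⟩]⟩) (.K ⟨1,[1,-1,0,-1],0,0,
  (⟨0,[(0,0)]⟩,⟨0,[(27,0),(11,0)]⟩),(.x (-1) ⟨7,[(16,3),(7,2),(0,2),(10,3),(0,1)]⟩ ⟨0,[(39,0)]⟩),
  (.r (-1) ⟨2,[(7,0),(4,1),(1,1),(9,0),(15,0)]⟩ ⟨1,[(2,1),(12,0),(1,0),(15,0),(7,1)]⟩),.k,.k,.k,[⟨1,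
  [(26,1),(5,0),(0,0)]⟩,⟨9,[(1,5),(11,1),(1,0),(1,0),(9,3),(1,3),(2,4)]⟩,⟨0,[(2,0),(19,0),(3,0),(3,
  0)]⟩,⟨0,[(6,0),(35,0)]⟩]⟩)) (.Q [0,0,0,0,0,-1,0,0,0,1,0,-1] (.ed true [0,1,0,1] .k) (.K ⟨1,[1,-1,
  0,-1],0,0,(⟨0,[(0,0)]⟩,⟨0,[(27,0),(11,0)]⟩),(.x (-1) ⟨7,[(16,3),(7,2),(0,2),(10,3),(0,1)]⟩ ⟨0,
  [(39,0)]⟩),(.r (-1) ⟨2,[(7,0),(4,1),(1,1),(9,0),(15,0)]⟩ ⟨1,[(2,1),(12,0),(1,0),(15,0),(7,1)]⟩),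
  .k,.k,.k,[⟨1,[(26,1),(5,0),(0,0)]⟩,⟨2,[(2,0),(3,0),(2,0),(7,0),(9,1),(1,1),(0,0),(1,0)]⟩,⟨0,[(2,
  0),(19,0),(3,0),(3,0)]⟩,⟨0,[(6,0),(35,0)]⟩]⟩) (.K ⟨2,[-1,1,0,1],0,0,(⟨0,[(0,0)]⟩,⟨0,[(26,0),(11,
  0)]⟩),(.x 0 ⟨0,[(39,0)]⟩ ⟨7,[(16,3),(7,2),(0,2),(10,3),(0,1)]⟩),.k,(.r 0 ⟨1,[(2,1),(12,0),(1,0),
  (15,0),(7,1)]⟩ ⟨2,[(7,0),(4,1),(1,1),(9,0),(15,0)]⟩),(.r 0 ⟨0,[(2,0),(38,0)]⟩ ⟨6,[(6,0),(7,3),(0,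
  0),(3,0),(4,2),(1,0),(3,1),(11,3)]⟩),(.r (-1) ⟨3,[(15,1),(1,1),(6,0),(0,2),(7,1)]⟩ ⟨8,[(6,0),(0,
  7),(2,2),(1,2),(10,1),(2,0),(5,1),(7,0)]⟩),[⟨2,[(0,2),(8,1),(1,0),(4,1),(0,1),(2,0),(9,0),(9,0)]⟩,
  ⟨4,[(11,0),(11,1),(2,4),(6,0),(1,1),(2,0)]⟩,⟨4,[(0,2),(10,0),(4,1),(10,1),(1,3),(2,1)]⟩,⟨1,[(26,
  1),(5,0),(0,0)]⟩,⟨1,[(6,1),(5,0),(15,0),(0,0),(0,1)]⟩,⟨0,[(2,0),(19,0),(3,0),(3,0)]⟩]⟩)))))) (.R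
  ⟨2,false,false,true,[0,1],[0,0,0,1],[1,1,0,0,0,0,0,0,1],(⟨0,[]⟩,⟨0,[]⟩),(⟨0,[(22,0)]⟩,⟨0,[(21,
  0)]⟩),⟨0,[]⟩,.k,.k,.k,(.r 0 ⟨3,[(2,3),(5,0),(1,0),(16,3),(0,2),(7,0)]⟩ ⟨5,[(7,1),(1,1),(10,2),(18,
  0)]⟩),.k,.k,⟨true,0,⟨0,[]⟩,⟨1,[(27,0),(0,0)]⟩⟩,⟨false,0,⟨8,[(0,3),(1,3),(0,1),(8,1),(8,4),(2,2),
  (2,2),(7,2)]⟩,⟨0,[(22,0),(15,0)]⟩⟩,⟨false,1,⟨5,[(7,1),(1,1),(10,2),(18,0)]⟩,⟨5,[(2,5),(5,1),(1,1),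
  (16,4),(0,2),(6,1)]⟩⟩,⟨true,0,⟨0,[(0,0)]⟩,⟨0,[(1,0),(34,0)]⟩⟩,⟨false,1,⟨1,[(20,0),(17,0)]⟩,⟨3,[(2,
  3),(24,2),(0,2),(6,1)]⟩⟩,⟨false,1,⟨4,[(0,2),(7,0),(1,0),(8,0),(0,1),(0,1),(5,0),(4,0),(6,0)]⟩,⟨0,
  [(1,0)]⟩⟩,[.a ⟨true,0,⟨3,[(0,3),(5,0),(1,0),(1,0),(6,0),(3,0),(0,0),(7,1),(2,0)]⟩,⟨0,[(1,0)]⟩⟩
  ⟨false,1,⟨15,[(7,3),(1,3),(9,0),(0,8),(15,11),(1,1)]⟩,⟨3,[(2,3),(24,0),(0,0),(6,1)]⟩⟩ ⟨true,0,⟨3,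
  [(0,3),(7,0),(1,0),(16,1),(0,0),(7,0)]⟩,⟨0,[(1,0)]⟩⟩,.o ⟨false,1,⟨4,[(0,2),(7,0),(1,0),(8,0),(0,
  1),(0,1),(5,0),(4,0),(6,0)]⟩,⟨0,[(1,0),(2,0),(7,0)]⟩⟩,.o ⟨false,1,⟨3,[(19,0),(0,0),(17,1)]⟩,⟨2,
  [(4,1),(7,1),(11,0),(2,0),(7,0)]⟩⟩,.e ⟨false,1,⟨1,[(20,0),(17,0)]⟩,⟨3,[(2,3),(24,2),(0,2),(6,
  1)]⟩⟩ ⟨false,1,⟨4,[(0,2),(7,0),(1,0),(8,0),(0,1),(0,1),(5,0),(4,0),(6,0)]⟩,⟨0,[(1,0)]⟩⟩]⟩)) (.K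
  ⟨0,[0,0,0,1],0,0,(⟨0,[(21,0)]⟩,⟨0,[(20,0)]⟩),.k,(.r (-1) ⟨5,[(6,1),(1,1),(10,2),(18,0)]⟩ ⟨3,[(1,
  3),(5,0),(1,0),(16,3),(0,2),(7,0)]⟩),(.x 0 ⟨0,[(33,0)]⟩ ⟨7,[(10,3),(7,2),(0,2),(10,3),(0,1)]⟩),.k,
  .k,[⟨0,[(21,0)]⟩,⟨0,[(20,0)]⟩,⟨0,[(1,0),(19,0),(18,0)]⟩,⟨0,[(0,0)]⟩]⟩)) (.Q [0,-1,1,0,0,0,0,0,1,0,
  0,-1] (.p false [0,0,0,1] [] (⟨0,[(20,0)]⟩,⟨0,[(19,0)]⟩) .k 0 (⟨0,[]⟩,⟨0,[]⟩) .k .k) (.I [0,-1,-2,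
  -2,1,0,0,0,1] (.Q [0,0,0,0,0,-1,0,0,0,1,0,-1] (.ed true [0,1,0,1] .k) (.I [1,0,0,0,0,0,0,0,1] (.Q
  [0,0,-1,-1,1,0,1,1,-1,0,-1,1] (.p false [0,0,1] [0,0,0,1] (⟨0,[(33,0)]⟩,⟨0,[(32,0)]⟩) .k 2 (⟨0,
  [(24,0)]⟩,⟨0,[(23,0)]⟩) .k (.r (-1) ⟨11,[(11,3),(0,3),(8,6),(0,0),(4,3),(2,3)]⟩ ⟨0,[(0,0),(30,
  0)]⟩)) (.Q [0,0,-1,0,1,0,1,1,-1,0,-1,1] (.p false [0,0,1] [0,0,0,1] (⟨0,[(34,0)]⟩,⟨0,[(33,0)]⟩)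
  .k 2 (⟨0,[(25,0)]⟩,⟨0,[(24,0)]⟩) .k (.r (-1) ⟨11,[(12,3),(0,3),(8,6),(0,0),(4,3),(2,3)]⟩ ⟨0,[(1,
  0),(30,0)]⟩)) (.R ⟨1,false,false,false,[1,0,0,-1],[1,0,-1],[1,1,0,0,0,0,0,0,-1],(⟨0,[(25,0)]⟩,⟨0,
  [(26,0)]⟩),(⟨0,[(34,0)]⟩,⟨0,[(35,0)]⟩),⟨0,[(3,0)]⟩,.k,.k,(.x (-1) ⟨7,[(15,3),(7,2),(0,2),(10,3),
  (0,1)]⟩ ⟨0,[(38,0)]⟩),.k,(.x 0 ⟨0,[(10,0),(4,0),(12,0)]⟩ ⟨3,[(18,1),(4,0),(0,0),(9,3),(1,0),(1,3),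
  (3,0)]⟩),.k,⟨false,1,⟨1,[(13,0),(7,0),(1,0),(5,0)]⟩,⟨0,[(2,0),(4,1),(2,0),(3,0),(0,1),(22,2),(2,
  2)]⟩⟩,⟨true,0,⟨0,[(25,0),(2,0)]⟩,⟨0,[(19,0),(6,0),(2,0)]⟩⟩,⟨false,0,⟨0,[]⟩,⟨3,[(23,0),(0,0),(18,
  1)]⟩⟩,⟨false,0,⟨4,[(2,0),(2,2),(0,0),(2,1),(2,0),(12,1),(13,0)]⟩,⟨0,[(0,0)]⟩⟩,⟨true,0,⟨0,[(40,
  0)]⟩,⟨0,[(41,0)]⟩⟩,⟨false,0,⟨9,[(2,0),(2,7),(0,0),(2,1),(2,5),(12,1),(13,0)]⟩,⟨0,[(1,0)]⟩⟩,[.o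
  ⟨false,0,⟨1,[(7,0),(0,0)]⟩,⟨3,[(0,1),(4,1),(17,0),(0,0),(4,1)]⟩⟩,.o ⟨false,1,⟨9,[(9,3),(2,1),(10,
  0),(0,0),(11,2),(6,4)]⟩,⟨0,[(29,0)]⟩⟩,.o ⟨false,1,⟨1,[(26,1),(9,0),(5,0)]⟩,⟨2,[(8,1),(7,1),(8,2),
  (2,0),(2,0),(7,0)]⟩⟩,.a ⟨true,0,⟨0,[(26,0)]⟩,⟨0,[(25,0)]⟩⟩ ⟨false,1,⟨1,[(23,0),(18,0)]⟩,⟨1,[(2,0),
  (3,0),(32,0)]⟩⟩ ⟨true,0,⟨1,[(7,0),(0,0),(16,1)]⟩,⟨0,[(26,0),(2,0)]⟩⟩]⟩) (.R ⟨1,true,false,false,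
  [1,0,0,-1],[1,0,-1],[1,1,0,0,0,0,0,0,-1],(⟨0,[(25,0)]⟩,⟨0,[(26,0)]⟩),(⟨0,[(34,0)]⟩,⟨0,[(35,0)]⟩),
  ⟨0,[(3,0)]⟩,.k,.k,(.x (-1) ⟨7,[(15,3),(7,2),(0,2),(10,3),(0,1)]⟩ ⟨0,[(38,0)]⟩),.k,(.x 0 ⟨0,[(10,
  0),(4,0),(12,0)]⟩ ⟨3,[(18,1),(4,0),(0,0),(9,3),(1,0),(1,3),(3,0)]⟩),.k,⟨false,1,⟨1,[(13,0),(7,0),
  (1,0),(5,0)]⟩,⟨0,[(0,4),(6,9),(2,4),(2,2),(0,5),(0,9),(0,4),(6,1),(2,4),(11,14),(2,17)]⟩⟩,⟨true,0,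
  ⟨0,[(25,0),(2,0)]⟩,⟨0,[(19,0),(6,0),(2,0)]⟩⟩,⟨false,0,⟨0,[]⟩,⟨3,[(23,0),(0,0),(18,1)]⟩⟩,⟨true,
  (-1),⟨0,[(0,0)]⟩,⟨0,[(1,0),(38,0)]⟩⟩,⟨true,0,⟨0,[(40,0)]⟩,⟨0,[(41,0)]⟩⟩,⟨false,0,⟨3,[(0,0),(4,2),
  (6,1),(17,0),(12,0)]⟩,⟨0,[(1,0)]⟩⟩,[]⟩)) (.R ⟨1,false,false,false,[1,0,0,-1],[1,0,-1],[1,1,0,0,0,
  0,0,0,-1],(⟨0,[(24,0)]⟩,⟨0,[(25,0)]⟩),(⟨0,[(33,0)]⟩,⟨0,[(34,0)]⟩),⟨0,[(2,0)]⟩,.k,.k,(.x (-1) ⟨7,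
  [(14,3),(7,2),(0,2),(10,3),(0,1)]⟩ ⟨0,[(37,0)]⟩),.k,(.x 0 ⟨0,[(9,0),(4,0),(12,0)]⟩ ⟨3,[(17,1),(4,
  0),(0,0),(9,3),(1,0),(1,3),(3,0)]⟩),.k,⟨false,1,⟨1,[(12,0),(7,0),(1,0),(5,0)]⟩,⟨0,[(0,4),(5,9),(2,
  4),(2,2),(0,5),(0,9),(0,4),(6,1),(2,4),(11,14),(2,22)]⟩⟩,⟨true,0,⟨0,[(24,0),(2,0)]⟩,⟨0,[(18,0),(6,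
  0),(2,0)]⟩⟩,⟨false,0,⟨0,[]⟩,⟨3,[(22,0),(0,0),(18,1)]⟩⟩,⟨true,(-1),⟨0,[(0,0),(39,0)]⟩,⟨39,[(10,7),
  (1,15),(2,31),(5,3),(0,20),(0,0),(1,39),(9,1)]⟩⟩,⟨true,0,⟨0,[(39,0)]⟩,⟨0,[(40,0)]⟩⟩,⟨true,(-1),⟨0,
  [(0,0)]⟩,⟨4,[(3,0),(6,0),(1,0),(9,2),(2,4),(2,4)]⟩⟩,[.o ⟨false,0,⟨1,[(6,0),(0,0)]⟩,⟨3,[(22,0),(0,
  0),(4,3),(13,1)]⟩⟩,.o ⟨false,1,⟨9,[(8,3),(2,1),(10,0),(0,0),(11,2),(6,4)]⟩,⟨0,[(28,0)]⟩⟩,.o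
  ⟨false,1,⟨1,[(25,1),(9,0),(5,0)]⟩,⟨1,[(0,0),(3,0),(17,0),(5,0),(11,0)]⟩⟩,.a ⟨true,0,⟨0,[(25,0)]⟩,
  ⟨0,[(24,0)]⟩⟩ ⟨false,1,⟨1,[(22,0),(18,0)]⟩,⟨1,[(1,0),(3,0),(32,0)]⟩⟩ ⟨true,0,⟨1,[(6,0),(0,0),(16,
  1)]⟩,⟨0,[(25,0),(2,0)]⟩⟩]⟩)) (.R ⟨1,false,false,true,[1,0,0,-1],[0,0,1],[1,0,0,0,0,0,0,0,-1],(⟨0,
  [(23,0)]⟩,⟨0,[(24,0)]⟩),(⟨0,[(33,0)]⟩,⟨0,[(32,0)]⟩),⟨0,[(1,0)]⟩,.k,.k,(.x (-1) ⟨7,[(13,3),(7,2),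
  (0,2),(10,3),(0,1)]⟩ ⟨0,[(36,0)]⟩),.k,(.x (-1) ⟨3,[(16,1),(1,3),(2,0),(0,0),(11,0),(5,0)]⟩ ⟨3,[(8,
  1),(20,0),(0,0),(5,1)]⟩),.k,⟨true,0,⟨0,[(0,0),(16,0)]⟩,⟨0,[(3,0),(15,0),(4,0),(2,0),(11,0)]⟩⟩,
  ⟨false,0,⟨0,[(17,0),(5,0),(3,0)]⟩,⟨3,[(16,1),(7,3),(9,0),(5,2)]⟩⟩,⟨true,0,⟨0,[]⟩,⟨0,[(43,0)]⟩⟩,
  ⟨false,0,⟨0,[(3,0),(19,0),(0,0),(2,0)]⟩,⟨4,[(0,0),(4,3),(0,0),(4,2),(5,2),(3,1),(2,4),(12,0)]⟩⟩,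
  ⟨false,1,⟨5,[(10,1),(3,1),(6,0),(0,0),(18,3)]⟩,⟨0,[(39,0)]⟩⟩,⟨false,0,⟨3,[(3,2),(0,0),(3,0),(3,0),
  (1,1),(4,0),(3,0),(3,0),(4,1),(2,0)]⟩,⟨9,[(0,1),(4,2),(0,6),(4,5),(5,5),(3,3),(2,9),(12,1)]⟩⟩,[.o
  ⟨false,0,⟨0,[(27,0)]⟩,⟨9,[(7,3),(2,1),(10,0),(0,0),(11,2),(6,4)]⟩⟩,.o ⟨false,1,⟨3,[(21,0),(0,0),
  (4,3),(13,1)]⟩,⟨1,[(5,0),(0,0)]⟩⟩,.o ⟨false,1,⟨1,[(24,1),(9,0),(5,0)]⟩,⟨3,[(0,1),(2,1),(19,1),(1,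
  0),(0,0),(0,0),(1,0)]⟩⟩,.a ⟨true,0,⟨0,[(24,0)]⟩,⟨0,[(23,0)]⟩⟩ ⟨false,1,⟨1,[(0,1),(39,0),(0,0)]⟩,
  ⟨0,[(4,0)]⟩⟩ ⟨true,0,⟨0,[(23,0),(3,0)]⟩,⟨1,[(5,0),(0,0),(17,1)]⟩⟩]⟩)) (.I [1,-1,0,0,0,0,0,0,1]
  (.R ⟨0,false,false,false,[1,0,0,-1],[1,0,-1],[0,1,0,0,0,0,0,0,-1],(⟨0,[(23,0)]⟩,⟨0,[(24,0)]⟩),(⟨0,
  [(32,0)]⟩,⟨0,[(33,0)]⟩),⟨0,[(1,0)]⟩,.k,.k,(.x (-1) ⟨7,[(13,3),(7,2),(0,2),(10,3),(0,1)]⟩ ⟨0,[(36,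
  0)]⟩),.k,.k,.k,⟨false,1,⟨1,[(11,0),(7,0),(1,0),(5,0)]⟩,⟨0,[(0,0),(30,0)]⟩⟩,⟨true,0,⟨0,[(23,0),(2,
  0)]⟩,⟨4,[(1,2),(6,0),(4,1),(6,0),(3,1),(4,0)]⟩⟩,⟨true,0,⟨0,[(43,0)]⟩,⟨0,[]⟩⟩,⟨false,0,⟨14,[(0,1),
  (2,8),(0,3),(2,5),(2,2),(12,5),(13,1)]⟩,⟨7,[(1,4),(6,1),(2,3),(0,1),(0,2),(0,1),(3,0),(1,0),(0,3),
  (2,2)]⟩⟩,⟨false,0,⟨0,[]⟩,⟨0,[]⟩⟩,⟨false,0,⟨0,[]⟩,⟨0,[]⟩⟩,[.o ⟨false,0,⟨1,[(5,0),(0,0)]⟩,⟨3,[(21,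
  0),(0,0),(4,3),(13,1)]⟩⟩,.o ⟨false,1,⟨9,[(7,3),(2,1),(10,0),(0,0),(11,2),(6,4)]⟩,⟨0,[(27,0)]⟩⟩,.o
  ⟨false,1,⟨1,[(24,1),(9,0),(5,0)]⟩,⟨2,[(6,1),(7,1),(8,2),(2,0),(2,0),(7,0)]⟩⟩,.a ⟨true,0,⟨0,[(24,
  0)]⟩,⟨0,[(23,0)]⟩⟩ ⟨false,1,⟨1,[(21,0),(18,0)]⟩,⟨2,[(0,0),(3,1),(32,0)]⟩⟩ ⟨true,0,⟨1,[(5,0),(0,0),
  (16,1)]⟩,⟨0,[(24,0),(2,0)]⟩⟩]⟩) (.R ⟨0,false,false,false,[1,0,0,-1],[1,0,-1],[1,0,0,0,0,0,0,0,-1],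
  (⟨0,[(23,0)]⟩,⟨0,[(24,0)]⟩),(⟨0,[(32,0)]⟩,⟨0,[(33,0)]⟩),⟨0,[(1,0)]⟩,.k,.k,(.x (-1) ⟨7,[(13,3),(7,
  2),(0,2),(10,3),(0,1)]⟩ ⟨0,[(36,0)]⟩),.k,.k,.k,⟨false,1,⟨3,[(0,1),(10,1),(0,1),(8,0),(18,0)]⟩,⟨4,
  [(1,3),(1,4),(4,1),(0,2),(0,1),(2,1),(4,1),(0,1),(4,0)]⟩⟩,⟨true,0,⟨0,[(23,0),(2,0)]⟩,⟨4,[(1,2),(6,
  0),(4,1),(6,0),(3,1),(4,0)]⟩⟩,⟨true,0,⟨0,[]⟩,⟨0,[(43,0)]⟩⟩,⟨false,0,⟨4,[(3,4),(3,1),(2,0),(12,1),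
  (0,1)]⟩,⟨7,[(1,4),(6,1),(2,3),(0,1),(0,2),(0,1),(3,0),(1,0),(0,3),(2,2)]⟩⟩,⟨false,0,⟨0,[]⟩,⟨0,
  []⟩⟩,⟨false,0,⟨0,[]⟩,⟨0,[]⟩⟩,[.o ⟨false,0,⟨1,[(5,0),(0,0)]⟩,⟨3,[(21,0),(0,0),(4,3),(13,1)]⟩⟩,.o
  ⟨false,1,⟨9,[(7,3),(2,1),(10,0),(0,0),(11,2),(6,4)]⟩,⟨0,[(27,0)]⟩⟩,.o ⟨false,1,⟨1,[(24,1),(9,0),
  (5,0)]⟩,⟨0,[(0,0),(2,0)]⟩⟩,.a ⟨true,0,⟨0,[(24,0)]⟩,⟨0,[(23,0)]⟩⟩ ⟨false,1,⟨3,[(0,1),(10,1),(0,1),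
  (4,3),(3,0),(18,0)]⟩,⟨0,[(4,0)]⟩⟩ ⟨true,0,⟨1,[(5,0),(0,0),(16,1)]⟩,⟨0,[(24,0),(2,0)]⟩⟩]⟩))) (.Q
  [0,0,0,0,0,-1,0,0,0,1,0,-1] (.ed true [0,1,0,1] .k) (.R ⟨1,false,false,true,[1,0,0,-1],[0,0,1],[1,
  0,0,0,0,0,0,0,-1],(⟨0,[(22,0)]⟩,⟨0,[(23,0)]⟩),(⟨0,[(32,0)]⟩,⟨0,[(31,0)]⟩),⟨0,[(0,0)]⟩,.k,.k,(.x
  (-1) ⟨7,[(12,3),(7,2),(0,2),(10,3),(0,1)]⟩ ⟨0,[(35,0)]⟩),.k,(.x (-1) ⟨3,[(15,1),(1,3),(2,0),(0,0),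
  (11,0),(5,0)]⟩ ⟨3,[(7,1),(20,0),(0,0),(5,1)]⟩),.k,⟨true,0,⟨1,[(1,1),(6,0),(1,1),(5,2),(19,0)]⟩,⟨0,
  [(2,0),(15,0),(4,0),(2,0),(11,0)]⟩⟩,⟨false,0,⟨0,[(16,0),(5,0),(3,0)]⟩,⟨3,[(15,1),(7,3),(9,0),(5,
  2)]⟩⟩,⟨true,0,⟨0,[]⟩,⟨0,[(42,0)]⟩⟩,⟨false,0,⟨0,[(2,0),(19,0),(0,0),(2,0)]⟩,⟨9,[(1,1),(2,6),(0,2),
  (4,7),(5,7),(3,3),(2,9),(12,1)]⟩⟩,⟨false,1,⟨5,[(9,1),(3,1),(6,0),(0,0),(18,3)]⟩,⟨0,[(38,0)]⟩⟩,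
  ⟨false,0,⟨3,[(2,2),(0,0),(3,0),(3,0),(1,1),(4,0),(3,0),(3,0),(4,1),(2,0)]⟩,⟨4,[(1,0),(2,0),(0,3),
  (4,3),(5,3),(3,1),(2,4),(12,0)]⟩⟩,[.o ⟨false,0,⟨0,[(26,0)]⟩,⟨9,[(6,3),(2,1),(10,0),(0,0),(11,2),
  (6,4)]⟩⟩,.o ⟨false,1,⟨3,[(20,0),(0,0),(4,3),(13,1)]⟩,⟨1,[(4,0),(0,0)]⟩⟩,.o ⟨false,1,⟨1,[(23,1),(9,
  0),(5,0)]⟩,⟨4,[(1,0),(0,2),(2,1),(14,0),(1,1),(3,1)]⟩⟩,.a ⟨true,0,⟨0,[(23,0)]⟩,⟨0,[(22,0)]⟩⟩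
  ⟨false,1,⟨2,[(1,0),(8,1),(5,1),(3,0),(15,0),(2,0)]⟩,⟨0,[(3,0)]⟩⟩ ⟨true,0,⟨0,[(22,0),(3,0)]⟩,⟨1,
  [(4,0),(0,0),(17,1)]⟩⟩]⟩) (.R ⟨0,false,false,true,[1,0,0,-1],[0,0,1],[1,0,0,0,0,0,0,0,-1],(⟨0,
  [(22,0)]⟩,⟨0,[(23,0)]⟩),(⟨0,[(32,0)]⟩,⟨0,[(31,0)]⟩),⟨0,[(0,0)]⟩,.k,.k,(.x (-1) ⟨7,[(12,3),(7,2),
  (0,2),(10,3),(0,1)]⟩ ⟨0,[(35,0)]⟩),.k,.k,.k,⟨true,0,⟨1,[(1,1),(6,0),(1,1),(5,2),(19,0)]⟩,⟨0,[(2,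
  0),(15,0),(4,0),(2,0),(11,0)]⟩⟩,⟨false,0,⟨0,[(16,0),(5,0),(3,0)]⟩,⟨3,[(15,1),(7,3),(9,0),(5,2)]⟩⟩,
  ⟨true,0,⟨0,[]⟩,⟨0,[(42,0)]⟩⟩,⟨false,0,⟨0,[(2,0),(19,0),(0,0),(2,0)]⟩,⟨9,[(1,1),(2,6),(0,2),(4,7),
  (5,7),(3,3),(2,9),(12,1)]⟩⟩,⟨false,0,⟨0,[]⟩,⟨0,[]⟩⟩,⟨false,0,⟨0,[]⟩,⟨0,[]⟩⟩,[.o ⟨false,0,⟨0,[(26,
  0)]⟩,⟨9,[(6,3),(2,1),(10,0),(0,0),(11,2),(6,4)]⟩⟩,.o ⟨false,1,⟨3,[(20,0),(0,0),(4,3),(13,1)]⟩,⟨1,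
  [(4,0),(0,0)]⟩⟩,.o ⟨false,1,⟨1,[(23,1),(9,0),(5,0)]⟩,⟨4,[(1,0),(0,2),(2,1),(14,0),(1,1),(3,1)]⟩⟩,
  .a ⟨true,0,⟨0,[(23,0)]⟩,⟨0,[(22,0)]⟩⟩ ⟨false,1,⟨2,[(1,0),(8,1),(5,1),(3,0),(15,0),(2,0)]⟩,⟨0,[(3,
  0)]⟩⟩ ⟨true,0,⟨0,[(22,0),(3,0)]⟩,⟨1,[(4,0),(0,0),(17,1)]⟩⟩]⟩))) (.K ⟨0,[0,0,0,1],0,0,(⟨0,[(21,
  0)]⟩,⟨0,[(20,0)]⟩),.k,(.r (-1) ⟨5,[(6,1),(1,1),(10,2),(18,0)]⟩ ⟨3,[(0,3),(1,1),(6,0),(1,0),(8,3),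
  (2,1),(2,2),(7,1)]⟩),(.x 0 ⟨0,[(33,0)]⟩ ⟨7,[(10,3),(7,2),(0,2),(10,3),(0,1)]⟩),.k,.k,[⟨0,[(21,
  0)]⟩,⟨0,[(20,0)]⟩,⟨0,[(0,0)]⟩,⟨0,[(1,0),(1,0),(7,0),(8,0)]⟩]⟩))))) (.R ⟨1,true,false,false,[1,0,
  -1],[0,1,1],[1,1,0,0,0,0,0,-1],(⟨0,[(25,0)]⟩,⟨0,[(26,0)]⟩),(⟨0,[(26,0),(2,0)]⟩,⟨0,[(11,0)]⟩),⟨0,
  [(11,0)]⟩,.k,.k,.k,(.x (-1) ⟨3,[(9,3),(1,3),(2,0),(0,0),(9,3),(1,1)]⟩ ⟨0,[(1,0)]⟩),(.r (-1) ⟨1,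
  [(2,1),(21,1),(8,0),(0,0)]⟩ ⟨0,[(5,0),(1,0),(15,0)]⟩),.k,⟨true,0,⟨2,[(2,2),(0,0),(3,0),(2,0),(13,
  1)]⟩,⟨3,[(0,3),(8,3),(12,0),(0,0),(6,1)]⟩⟩,⟨false,1,⟨0,[(13,0),(19,0)]⟩,⟨0,[(9,0)]⟩⟩,⟨false,0,⟨0,
  []⟩,⟨3,[(14,0),(0,0),(18,1)]⟩⟩,⟨true,0,⟨0,[(0,0)]⟩,⟨1,[(2,0),(6,0),(0,0),(7,0),(2,0)]⟩⟩,⟨true,0,
  ⟨0,[(31,0)]⟩,⟨0,[(32,0)]⟩⟩,⟨false,1,⟨9,[(0,11),(2,3),(10,1),(0,1),(11,0),(6,4)]⟩,⟨0,[(2,0),(6,0),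
  (0,0)]⟩⟩,[]⟩))

theorem ok154 : chk (cU (-1) true 10) t154 l83 = true := by decide +kernel

noncomputable def t160 : Tre :=
  (.Q [0,-1,0,1,0,0,0,0,0,1] (.pp false [-1,1]) (.Q [0,1,0,-2,0,0,0,0,0,-1] (.pp true [-1,1]) (.R
  ⟨2,false,false,true,[0,1],[1,-1],[0,1],(⟨0,[]⟩,⟨0,[]⟩),(⟨0,[(36,0)]⟩,⟨0,[(37,0)]⟩),⟨0,[]⟩,.k,.k,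
  .k,(.r 0 ⟨4,[(8,1),(2,3),(18,5),(0,1)]⟩ ⟨2,[(10,1),(1,1),(29,0)]⟩),.k,.k,⟨true,0,⟨4,[(8,0),(2,1),
  (18,2),(0,0)]⟩,⟨0,[(40,0)]⟩⟩,⟨false,0,⟨4,[(0,1),(3,1),(10,1),(11,0),(2,0),(7,2)]⟩,⟨19,[(1,7),(10,
  7),(3,3),(5,0),(0,0),(5,7),(3,7),(2,3),(4,9)]⟩⟩,⟨false,1,⟨11,[(10,3),(1,3),(9,2),(0,2),(18,1)]⟩,
  ⟨2,[(11,0),(1,0),(16,0),(7,0)]⟩⟩,⟨true,0,⟨0,[(0,0)]⟩,⟨0,[(1,0),(37,0)]⟩⟩,⟨false,1,⟨3,[(22,0),(0,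
  0),(17,1)]⟩,⟨3,[(30,0),(0,0),(6,1)]⟩⟩,⟨false,1,⟨3,[(0,1),(21,0),(0,0),(11,0),(6,0)]⟩,⟨0,[(1,0)]⟩⟩,
  [.e ⟨true,0,⟨0,[(44,0)]⟩,⟨3,[(30,0),(0,0),(6,1)]⟩⟩ ⟨true,0,⟨1,[(0,0),(26,0),(2,0),(13,0)]⟩,⟨0,[(1,
  0)]⟩⟩,.a ⟨true,0,⟨0,[(40,0)]⟩,⟨5,[(1,3),(0,0),(17,1),(0,0),(7,1)]⟩⟩ ⟨false,1,⟨3,[(22,0),(0,0),(17,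
  1)]⟩,⟨0,[]⟩⟩ ⟨true,0,⟨9,[(0,5),(3,0),(10,0),(11,2),(2,2),(7,3)]⟩,⟨5,[(1,3),(0,0),(17,1),(0,0),(7,
  1)]⟩⟩,.o ⟨false,1,⟨3,[(22,0),(0,0),(17,1)]⟩,⟨4,[(0,1),(3,1),(10,1),(11,0),(2,0),(7,2)]⟩⟩,.e
  ⟨false,1,⟨3,[(22,0),(0,0),(17,1)]⟩,⟨3,[(30,0),(0,0),(6,1)]⟩⟩ ⟨false,1,⟨3,[(0,1),(21,0),(0,0),(11,
  0),(6,0)]⟩,⟨0,[(1,0)]⟩⟩]⟩) (.Q [0,1,0,-3,0,0,0,0,0,-1] (.pp true [-1,1]) (.I [0,0,-3,-3,1] (.R ⟨1,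
  false,false,false,[1,-1],[0,1],[1,0,1],(⟨0,[(38,0)]⟩,⟨0,[(39,0)]⟩),(⟨0,[(39,0)]⟩,⟨0,[(38,0)]⟩),⟨2,
  [(8,0),(7,0),(21,1)]⟩,.k,.k,(.r (-1) ⟨5,[(0,3),(23,0),(0,0)]⟩ ⟨4,[(10,1),(2,3),(18,5),(0,1)]⟩),
  (.r (-1) ⟨5,[(0,3),(23,0),(0,0)]⟩ ⟨4,[(10,1),(2,3),(18,5),(0,1)]⟩),(.r (-1) ⟨0,[(0,0)]⟩ ⟨4,[(10,
  2),(2,5),(18,8),(0,2)]⟩),.k,⟨true,0,⟨1,[(1,0),(1,0)]⟩,⟨4,[(10,0),(2,1),(18,2),(0,0)]⟩⟩,⟨false,1,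
  ⟨0,[(0,0),(1,0),(38,0)]⟩,⟨0,[(29,0),(2,0)]⟩⟩,⟨false,0,⟨5,[(13,1),(1,1),(16,4),(0,2),(6,1)]⟩,⟨11,
  [(0,3),(23,0),(0,0),(17,5)]⟩⟩,⟨false,0,⟨0,[(2,0)]⟩,⟨11,[(1,7),(22,2),(0,2),(11,1),(6,3)]⟩⟩,⟨false,
  0,⟨11,[(13,7),(1,7),(16,10),(0,2),(6,1)]⟩,⟨5,[(0,3),(23,0),(0,0)]⟩⟩,⟨true,0,⟨0,[(2,0),(38,0)]⟩,⟨0,
  [(1,0)]⟩⟩,[.e ⟨false,0,⟨0,[]⟩,⟨3,[(24,0),(0,0),(17,1)]⟩⟩ ⟨false,1,⟨5,[(2,3),(1,0),(9,1),(8,0),(7,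
  3),(11,3)]⟩,⟨3,[(1,1),(4,0),(10,0),(11,0),(2,0),(7,1)]⟩⟩,.a ⟨true,0,⟨0,[(3,0)]⟩,⟨2,[(1,0),(2,0),
  (26,1)]⟩⟩ ⟨true,0,⟨3,[(32,0),(0,0),(6,1)]⟩,⟨0,[(46,0)]⟩⟩ ⟨false,1,⟨11,[(0,3),(1,11),(21,0),(0,0),
  (17,5)]⟩,⟨1,[(1,0),(27,0),(2,0),(8,0)]⟩⟩,.o ⟨false,0,⟨5,[(1,1),(4,2),(10,2),(11,0),(2,0),(7,3)]⟩,
  ⟨3,[(24,0),(0,0),(17,1)]⟩⟩,.o ⟨false,0,⟨0,[(29,0),(2,0)]⟩,⟨0,[(43,0)]⟩⟩]⟩) (.I [0,0,3,3,-1] (.R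
  ⟨1,true,false,false,[1,-1],[0,1],[0,0,-1,-2],(⟨0,[(39,0)]⟩,⟨0,[(40,0)]⟩),(⟨0,[(40,0)]⟩,⟨0,[(39,
  0)]⟩),⟨2,[(9,0),(7,0),(21,1)]⟩,.k,.k,(.r (-1) ⟨2,[(13,1),(1,1),(29,0)]⟩ ⟨2,[(0,1),(24,0),(0,0)]⟩),
  (.r (-1) ⟨2,[(13,1),(1,1),(29,0)]⟩ ⟨2,[(0,1),(24,0),(0,0)]⟩),(.r (-2) ⟨3,[(13,3),(1,3),(9,0),(0,
  0),(18,1)]⟩ ⟨0,[(0,0)]⟩),.k,⟨true,1,⟨5,[(2,2),(1,2),(8,3),(1,3),(29,1)]⟩,⟨0,[(1,0)]⟩⟩,⟨false,1,⟨3,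
  [(3,4),(2,0),(6,3),(1,2),(2,0)]⟩,⟨11,[(0,7),(1,7),(22,0),(0,0),(11,1),(6,3)]⟩⟩,⟨true,0,⟨0,[(43,
  0)]⟩,⟨0,[(42,0)]⟩⟩,⟨false,0,⟨0,[(3,0)]⟩,⟨11,[(2,7),(22,2),(0,2),(11,1),(6,3)]⟩⟩,⟨false,1,⟨3,[(25,
  0),(0,0),(18,1)]⟩,⟨0,[]⟩⟩,⟨true,0,⟨0,[(3,0),(38,0)]⟩,⟨0,[(2,0)]⟩⟩,[]⟩) (.I [0,0,-3,0,1,3] (.R ⟨1,
  true,false,false,[1,-1],[0,1],[0,0,-1,-2],(⟨0,[(40,0)]⟩,⟨0,[(41,0)]⟩),(⟨0,[(41,0)]⟩,⟨0,[(40,0)]⟩),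
  ⟨2,[(10,0),(7,0),(21,1)]⟩,.k,.k,(.r (-1) ⟨5,[(1,3),(24,0),(0,0)]⟩ ⟨2,[(2,1),(23,0),(0,0)]⟩),(.r
  (-1) ⟨5,[(1,3),(24,0),(0,0)]⟩ ⟨2,[(2,1),(23,0),(0,0)]⟩),(.x 0 ⟨4,[(10,5),(2,2),(20,8),(0,2)]⟩ ⟨0,
  [(0,0)]⟩),.k,⟨true,1,⟨19,[(1,15),(1,3),(21,3),(0,0),(0,0),(7,7),(10,1)]⟩,⟨0,[(2,0)]⟩⟩,⟨false,1,⟨3,
  [(0,0),(0,1),(2,1),(13,1),(1,0),(3,1),(20,0)]⟩,⟨0,[(31,0),(2,0)]⟩⟩,⟨true,0,⟨0,[(44,0)]⟩,⟨0,[(43,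
  0)]⟩⟩,⟨false,0,⟨0,[(4,0)]⟩,⟨11,[(3,7),(22,2),(0,2),(11,1),(6,3)]⟩⟩,⟨false,1,⟨3,[(26,0),(0,0),(18,
  1)]⟩,⟨0,[]⟩⟩,⟨true,0,⟨0,[(4,0),(38,0)]⟩,⟨0,[(3,0)]⟩⟩,[]⟩) (.I [0,0,3,0,-1,-3] (.R ⟨1,true,false,
  false,[1,-1],[0,1],[0,0,-1,-2],(⟨0,[(41,0)]⟩,⟨0,[(42,0)]⟩),(⟨0,[(42,0)]⟩,⟨0,[(41,0)]⟩),⟨2,[(11,0),
  (7,0),(21,1)]⟩,.k,.k,(.r (-1) ⟨5,[(2,3),(24,0),(0,0)]⟩ ⟨2,[(3,1),(23,0),(0,0)]⟩),(.r (-1) ⟨5,[(2,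
  3),(24,0),(0,0)]⟩ ⟨2,[(3,1),(23,0),(0,0)]⟩),(.x 1 ⟨0,[(0,0)]⟩ ⟨3,[(27,0),(0,0),(13,11),(3,5)]⟩),
  .k,⟨true,1,⟨19,[(2,15),(1,3),(21,3),(0,0),(0,0),(7,7),(10,1)]⟩,⟨0,[(3,0)]⟩⟩,⟨false,1,⟨0,[(2,0),(2,
  0),(38,0)]⟩,⟨0,[(32,0),(2,0)]⟩⟩,⟨true,0,⟨0,[(45,0)]⟩,⟨0,[(44,0)]⟩⟩,⟨false,0,⟨0,[(5,0)]⟩,⟨11,[(4,
  7),(22,2),(0,2),(11,1),(6,3)]⟩⟩,⟨false,1,⟨3,[(27,0),(0,0),(18,1)]⟩,⟨0,[]⟩⟩,⟨true,0,⟨0,[(5,0),(38,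
  0)]⟩,⟨0,[(4,0)]⟩⟩,[]⟩) (.I [1,0,0,0,0,0,0,0,-1] (.Q [0,1,1,0,0,0,0,0,1,0,0,-1] (.p false [0,0,0,
  1] [] (⟨0,[(31,0)]⟩,⟨0,[(30,0)]⟩) .k 0 (⟨0,[]⟩,⟨0,[]⟩) .k .k) (.Q [0,1,-1,0,0,0,0,0,-1,0,0,1] (.p
  true [0,0,0,1] [] (⟨0,[(32,0)]⟩,⟨0,[(31,0)]⟩) .k 0 (⟨0,[]⟩,⟨0,[]⟩) .k .k) (.K ⟨0,[0,0,0,1],0,0,
  (⟨0,[(33,0)]⟩,⟨0,[(32,0)]⟩),.k,(.r (-1) ⟨11,[(5,3),(24,0),(0,6)]⟩ ⟨2,[(2,0),(3,0),(23,0)]⟩),(.x 0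
  ⟨0,[(45,0)]⟩ ⟨15,[(14,3),(7,3),(7,6),(0,6),(11,1)]⟩),.k,.k,[⟨0,[(33,0)]⟩,⟨0,[(32,0)]⟩,⟨0,[(0,0)]⟩,
  ⟨0,[(1,0)]⟩]⟩) (.I [0,0,0,0,0,0,0,0,-1] (.Q [0,0,0,0,0,-1,0,0,0,1,0,-1] (.ed true [0,1,0,1] .k)
  (.R ⟨1,false,false,true,[1,0,0,-1],[0,1],[1,1,0,0,0,0,0,0,-1],(⟨0,[(34,0)]⟩,⟨0,[(35,0)]⟩),(⟨0,
  [(47,0)]⟩,⟨0,[(46,0)]⟩),⟨0,[(0,0)]⟩,.k,.k,(.x (-1) ⟨15,[(16,3),(7,3),(7,6),(0,6),(11,1)]⟩ ⟨0,[(47,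
  0)]⟩),(.x (-1) ⟨15,[(16,3),(7,3),(7,6),(0,6),(11,1)]⟩ ⟨0,[(47,0)]⟩),(.r (-1) ⟨2,[(4,0),(2,1),(24,
  0)]⟩ ⟨11,[(8,7),(23,0),(0,6)]⟩),.k,⟨false,1,⟨5,[(4,3),(2,1),(24,0),(18,2)]⟩,⟨5,[(2,3),(5,0),(11,
  0),(0,0),(3,1),(4,0),(2,0),(1,3)]⟩⟩,⟨true,0,⟨0,[(34,0)]⟩,⟨18,[(8,6),(0,7),(3,2),(11,2),(2,2),(6,
  18),(9,3),(2,3)]⟩⟩,⟨false,0,⟨0,[]⟩,⟨3,[(32,0),(0,0),(18,1)]⟩⟩,⟨false,0,⟨0,[(3,0),(7,0)]⟩,⟨41,[(4,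
  41),(2,13),(4,3),(0,7),(14,7),(6,41),(9,18),(2,15),(3,0)]⟩⟩,⟨true,0,⟨0,[(49,0)]⟩,⟨0,[(50,0)]⟩⟩,
  ⟨false,0,⟨0,[(3,0),(6,0)]⟩,⟨20,[(4,18),(2,10),(1,2),(22,0),(2,20),(9,8),(2,11)]⟩⟩,[.o ⟨false,0,⟨0,
  [(49,0)]⟩,⟨2,[(9,0),(35,0),(6,1)]⟩⟩,.a ⟨true,0,⟨2,[(10,0),(0,0),(0,0),(26,1)]⟩,⟨0,[(50,0)]⟩⟩
  ⟨true,0,⟨0,[(4,0)]⟩,⟨1,[(2,0),(0,0),(31,1)]⟩⟩ ⟨false,0,⟨2,[(0,2),(4,0),(2,0)]⟩,⟨11,[(7,3),(24,0),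
  (0,0),(1,11),(9,5)]⟩⟩,.o ⟨false,1,⟨1,[(35,1),(9,0),(5,0)]⟩,⟨3,[(2,0),(1,0),(3,0),(0,0),(24,2),(10,
  0)]⟩⟩,.e ⟨false,1,⟨1,[(32,0),(18,0)]⟩,⟨0,[(2,0),(32,0)]⟩⟩ ⟨false,0,⟨2,[(0,2),(4,0),(2,0)]⟩,⟨2,[(9,
  0),(25,2),(9,0),(6,1)]⟩⟩]⟩) (.R ⟨0,false,false,true,[1,0,0,-1],[0,1],[1,1],(⟨0,[(34,0)]⟩,⟨0,[(35,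
  0)]⟩),(⟨0,[(47,0)]⟩,⟨0,[(46,0)]⟩),⟨0,[(0,0)]⟩,.k,.k,(.x (-1) ⟨15,[(16,3),(7,3),(7,6),(0,6),(11,
  1)]⟩ ⟨0,[(47,0)]⟩),(.x (-1) ⟨15,[(16,3),(7,3),(7,6),(0,6),(11,1)]⟩ ⟨0,[(47,0)]⟩),.k,.k,⟨false,1,
  ⟨11,[(7,3),(24,0),(0,0),(17,5)]⟩,⟨5,[(8,1),(23,0),(0,0)]⟩⟩,⟨true,0,⟨0,[(34,0)]⟩,⟨5,[(0,5),(5,1),
  (25,0),(0,0)]⟩⟩,⟨true,0,⟨2,[(0,2),(1,2),(9,0),(7,1),(3,1),(1,0),(3,3)]⟩,⟨0,[(1,0)]⟩⟩,⟨false,0,⟨0,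
  [(3,0),(7,0)]⟩,⟨23,[(0,23),(3,21),(2,7),(8,5),(7,5),(7,0),(12,2),(6,11)]⟩⟩,⟨false,0,⟨0,[]⟩,⟨0,
  []⟩⟩,⟨false,0,⟨0,[]⟩,⟨0,[]⟩⟩,[.o ⟨false,0,⟨0,[(49,0)]⟩,⟨2,[(9,0),(35,0),(6,1)]⟩⟩,.e ⟨true,0,⟨0,
  []⟩,⟨1,[(40,0),(0,0)]⟩⟩ ⟨true,0,⟨5,[(8,1),(23,0),(0,0),(0,5)]⟩,⟨2,[(0,2),(5,0),(0,0)]⟩⟩,.o ⟨false,
  1,⟨1,[(35,1),(9,0),(5,0)]⟩,⟨3,[(2,0),(1,0),(3,0),(0,0),(24,2),(10,0)]⟩⟩,.a ⟨true,0,⟨0,[(35,0)]⟩,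
  ⟨0,[(34,0)]⟩⟩ ⟨false,1,⟨3,[(32,0),(0,0),(17,1)]⟩,⟨3,[(40,0),(0,0),(6,1)]⟩⟩ ⟨true,0,⟨0,[(34,0),(14,
  0)]⟩,⟨2,[(0,2),(5,0),(0,0)]⟩⟩]⟩)) (.N [0,0,0,1] 0 ⟨0,[(0,0)]⟩ ⟨0,[(3,0)]⟩ .k))) (.Q [0,0,0,1,0,0,
  -1,-1,0,-1,1,1] (.p true [0,0,1] [1,0,0,-1] (⟨0,[(41,0)]⟩,⟨0,[(40,0)]⟩) .k 2 (⟨0,[(31,0)]⟩,⟨0,
  [(32,0)]⟩) .k (.r (-1) ⟨5,[(4,0),(10,2),(13,0),(0,3)]⟩ ⟨0,[(1,0),(37,0)]⟩)) (.Q [0,-1,0,1,0,0,0,0,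
  0,0,0,1] (.p true [0,0,0,1] [] (⟨0,[(33,0)]⟩,⟨0,[(32,0)]⟩) .k 0 (⟨0,[]⟩,⟨0,[]⟩) .k .k) (.Q [0,1,1,
  -1,0,0,0,0,1,0,0,-1] (.p false [0,0,0,1] [] (⟨0,[(34,0)]⟩,⟨0,[(33,0)]⟩) .k 0 (⟨0,[]⟩,⟨0,[]⟩) .k
  .k) (.R ⟨2,false,false,true,[0,1],[0,0,0,1],[0,1],(⟨0,[]⟩,⟨0,[]⟩),(⟨0,[(35,0)]⟩,⟨0,[(34,0)]⟩),⟨0,
  []⟩,.k,.k,.k,(.r 0 ⟨2,[(4,0),(3,0),(23,0)]⟩ ⟨11,[(7,3),(24,0),(0,6)]⟩),.k,.k,⟨true,0,⟨0,[(3,0),(4,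
  3),(1,0),(1,1),(0,3),(6,2),(7,0),(5,0),(15,7)]⟩,⟨0,[(0,0),(0,0)]⟩⟩,⟨false,0,⟨18,[(8,6),(0,7),(3,
  2),(11,2),(2,2),(5,18),(10,3),(2,3)]⟩,⟨0,[(35,0),(15,0)]⟩⟩,⟨false,1,⟨2,[(7,0),(24,0),(0,0)]⟩,⟨15,
  [(8,3),(1,1),(34,0),(2,3),(3,2)]⟩⟩,⟨true,0,⟨0,[(0,0)]⟩,⟨0,[(3,0),(45,0)]⟩⟩,⟨false,1,⟨3,[(32,0),(0,
  0),(17,1)]⟩,⟨3,[(40,0),(0,0),(6,1)]⟩⟩,⟨false,1,⟨23,[(0,11),(7,3),(23,4),(0,10),(0,11),(10,5),(6,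
  5)]⟩,⟨0,[(3,0)]⟩⟩,[.e ⟨true,0,⟨0,[(54,0)]⟩,⟨3,[(40,0),(0,0),(6,1)]⟩⟩ ⟨true,0,⟨5,[(0,5),(7,1),(23,
  0),(0,0)]⟩,⟨0,[(3,0)]⟩⟩,.a ⟨true,0,⟨0,[(0,0),(10,0)]⟩,⟨0,[(3,0),(50,0)]⟩⟩ ⟨false,1,⟨3,[(32,0),(0,
  0),(17,1)]⟩,⟨0,[]⟩⟩ ⟨true,0,⟨13,[(0,11),(7,3),(24,0),(0,1),(10,0),(2,3),(3,1)]⟩,⟨0,[(3,0),(50,
  0)]⟩⟩,.o ⟨false,1,⟨3,[(32,0),(0,0),(17,1)]⟩,⟨18,[(8,6),(0,7),(3,2),(11,2),(2,2),(16,3),(2,3)]⟩⟩,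
  .e ⟨false,1,⟨3,[(32,0),(0,0),(17,1)]⟩,⟨3,[(40,0),(0,0),(6,1)]⟩⟩ ⟨false,1,⟨23,[(0,11),(7,3),(23,4),
  (0,10),(0,11),(10,5),(6,5)]⟩,⟨0,[(3,0)]⟩⟩]⟩) (.Q [0,0,0,0,0,-1,0,0,0,1,0,-1] (.ed true [0,1,0,1]
  .k) (.R ⟨1,false,false,false,[1,0,0,-1],[0,-1,1],[0,1,0,-1,0,0,0,0,-1],(⟨0,[(35,0)]⟩,⟨0,[(36,
  0)]⟩),(⟨1,[(17,0),(27,0)]⟩,⟨0,[(44,0),(3,0)]⟩),⟨0,[(0,0)]⟩,.k,.k,(.x (-1) ⟨15,[(17,3),(7,3),(7,6),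
  (0,6),(11,1)]⟩ ⟨0,[(48,0)]⟩),(.r 0 ⟨2,[(5,0),(3,0),(23,0),(9,2)]⟩ ⟨1,[(8,0),(10,0),(14,0)]⟩),.k,
  .k,⟨true,(-1),⟨2,[(0,2),(0,2),(4,0),(2,3),(0,2),(10,2)]⟩,⟨5,[(19,1),(3,1),(10,2),(14,1),(3,0)]⟩⟩,
  ⟨false,0,⟨0,[(35,0),(5,0)]⟩,⟨0,[(3,0),(19,0)]⟩⟩,⟨false,0,⟨0,[(51,0)]⟩,⟨3,[(11,1),(21,0),(0,0),(11,
  0),(6,0)]⟩⟩,⟨false,1,⟨31,[(10,11),(2,11),(5,3),(14,15),(0,31),(5,14),(0,6),(6,5),(3,15)]⟩,⟨0,[(4,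
  0),(10,0)]⟩⟩,⟨true,0,⟨0,[(55,0)]⟩,⟨0,[]⟩⟩,⟨false,1,⟨19,[(10,1),(2,3),(5,5),(14,9),(0,19),(5,11),
  (4,0),(2,1),(3,8)]⟩,⟨0,[(4,0),(32,0)]⟩⟩,[.a ⟨true,0,⟨2,[(10,0),(1,1),(0,1),(7,0),(20,0)]⟩,⟨6,[(12,
  0),(8,0),(0,3),(5,0),(0,0),(10,0)]⟩⟩ ⟨false,0,⟨12,[(1,8),(3,3),(4,7),(4,0),(5,3),(4,4),(4,3),(3,
  8)]⟩,⟨3,[(11,1),(22,1),(11,0),(6,0)]⟩⟩ ⟨true,0,⟨31,[(10,11),(2,11),(5,3),(15,31),(5,14),(0,6),(6,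
  5)]⟩,⟨0,[(3,0)]⟩⟩,.o ⟨false,1,⟨23,[(10,7),(2,11),(19,2),(0,2),(11,1),(6,15)]⟩,⟨0,[(15,0)]⟩⟩,.o
  ⟨false,1,⟨1,[(36,1),(9,0),(5,0)]⟩,⟨18,[(9,6),(0,7),(3,2),(11,2),(2,2),(5,18),(10,3),(2,3)]⟩⟩,.e
  ⟨false,0,⟨2,[(0,2),(0,2),(4,0),(2,0),(0,2)]⟩,⟨5,[(9,1),(23,0),(0,3),(18,2)]⟩⟩ ⟨false,1,⟨23,[(10,
  7),(2,11),(19,2),(0,2),(0,23),(10,1),(6,15)]⟩,⟨0,[(3,0)]⟩⟩]⟩) (.I [1,-1,-1,0,0,0,0,-1,-1] (.Q [0,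
  0,-1,-1,0,0,0,0,-1,-1,0,1] (.p true [0,0,0,1] [1] (⟨0,[(37,0)]⟩,⟨0,[(36,0)]⟩) .k 1 (⟨0,[]⟩,⟨0,
  []⟩) .k .k) (.Q [0,1,1,1,0,0,0,0,1,1,0,-1] (.p false [0,0,0,1] [1] (⟨0,[(38,0)]⟩,⟨0,[(37,0)]⟩) .k
  1 (⟨0,[]⟩,⟨0,[]⟩) .k .k) (.R ⟨0,false,false,true,[1,0,0,-1],[0,1],[1,1],(⟨0,[(38,0)]⟩,⟨0,[(39,
  0)]⟩),(⟨0,[(51,0)]⟩,⟨0,[(50,0)]⟩),⟨0,[(3,0)]⟩,.k,.k,(.x (-1) ⟨15,[(20,3),(7,3),(7,6),(0,6),(11,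
  1)]⟩ ⟨0,[(51,0)]⟩),(.x (-1) ⟨15,[(20,3),(7,3),(7,6),(0,6),(11,1)]⟩ ⟨0,[(51,0)]⟩),.k,.k,⟨false,1,
  ⟨11,[(11,3),(24,0),(0,0),(17,5)]⟩,⟨5,[(12,1),(23,0),(0,0)]⟩⟩,⟨true,0,⟨0,[(38,0)]⟩,⟨5,[(3,5),(6,1),
  (25,0),(0,0)]⟩⟩,⟨false,1,⟨3,[(36,0),(0,2)]⟩,⟨13,[(2,5),(4,0),(0,6),(4,0),(8,2),(15,0),(13,3)]⟩⟩,
  ⟨true,0,⟨0,[(0,0)]⟩,⟨0,[(1,0)]⟩⟩,⟨false,0,⟨0,[]⟩,⟨0,[]⟩⟩,⟨false,0,⟨0,[]⟩,⟨0,[]⟩⟩,[.o ⟨false,0,⟨0,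
  [(53,0)]⟩,⟨2,[(13,0),(35,0),(6,1)]⟩⟩,.e ⟨true,0,⟨0,[]⟩,⟨1,[(44,0),(0,0)]⟩⟩ ⟨true,0,⟨7,[(0,1),(11,
  1),(23,0),(1,5),(17,0)]⟩,⟨2,[(3,2),(6,0),(0,0)]⟩⟩,.o ⟨false,1,⟨1,[(39,1),(9,0),(5,0)]⟩,⟨18,[(12,
  6),(0,7),(3,2),(11,2),(2,2),(5,18),(10,3),(2,3)]⟩⟩,.a ⟨true,0,⟨0,[(39,0)]⟩,⟨0,[(38,0)]⟩⟩ ⟨false,1,
  ⟨3,[(36,0),(0,0),(17,1)]⟩,⟨3,[(44,0),(0,0),(6,1)]⟩⟩ ⟨true,0,⟨0,[(38,0),(14,0)]⟩,⟨2,[(3,2),(6,0),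
  (0,0)]⟩⟩]⟩) (.R ⟨1,false,false,false,[0,0,0,1],[1,-1],[0,0,0,-1],(⟨0,[(39,0)]⟩,⟨0,[(38,0)]⟩),(⟨0,
  [(50,0)]⟩,⟨0,[(51,0)]⟩),⟨2,[(3,0),(16,0),(7,0),(10,1)]⟩,.k,.k,(.r (-1) ⟨11,[(11,3),(24,0),(0,6)]⟩
  ⟨2,[(8,0),(3,0),(23,0)]⟩),(.x 0 ⟨0,[(51,0)]⟩ ⟨15,[(20,3),(7,3),(7,6),(0,6),(11,1)]⟩),.k,.k,⟨true,
  0,⟨1,[(44,0),(0,0)]⟩,⟨0,[]⟩⟩,⟨false,1,⟨1,[(39,1),(9,0),(5,0)]⟩,⟨0,[(38,0)]⟩⟩,⟨false,0,⟨6,[(0,0),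
  (6,1),(0,3),(4,1),(24,2),(13,2)]⟩,⟨9,[(14,1),(10,1),(3,1),(6,1),(0,6),(11,0)]⟩⟩,⟨false,0,⟨0,[(0,
  0)]⟩,⟨11,[(12,3),(23,4),(0,10),(0,11)]⟩⟩,⟨false,0,⟨6,[(0,0),(1,1),(5,3),(13,0),(15,0),(13,1)]⟩,⟨3,
  [(36,0),(0,2)]⟩⟩,⟨true,0,⟨3,[(0,0),(0,1),(2,0),(13,0),(10,0)]⟩,⟨1,[(12,0),(9,0),(1,1),(12,0),(0,
  1)]⟩⟩,[.a ⟨true,0,⟨0,[(54,0)]⟩,⟨2,[(14,0),(0,0),(0,0),(26,1)]⟩⟩ ⟨true,0,⟨0,[(54,0)]⟩,⟨5,[(12,1),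
  (23,0),(0,0)]⟩⟩ ⟨false,1,⟨1,[(1,1),(35,0),(17,0)]⟩,⟨5,[(12,1),(23,0),(0,0),(0,5)]⟩⟩,.o ⟨false,1,
  ⟨2,[(13,0),(35,0),(6,1)]⟩,⟨0,[(53,0)]⟩⟩,.o ⟨false,0,⟨18,[(12,6),(0,7),(3,2),(11,2),(2,2),(5,18),
  (10,3),(2,3)]⟩,⟨1,[(39,1),(9,0),(5,0)]⟩⟩,.o ⟨false,0,⟨0,[(38,0),(2,0),(2,0)]⟩,⟨2,[(0,0),(0,0),(4,
  0),(22,0),(7,0),(17,1)]⟩⟩]⟩)) (.R ⟨0,false,false,true,[1,0,0,-1],[0,1],[0,0,1],(⟨0,[(37,0)]⟩,⟨0,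
  [(38,0)]⟩),(⟨0,[(50,0)]⟩,⟨0,[(49,0)]⟩),⟨0,[(2,0)]⟩,.k,.k,(.x (-1) ⟨15,[(19,3),(7,3),(7,6),(0,6),
  (11,1)]⟩ ⟨0,[(50,0)]⟩),(.x (-1) ⟨15,[(19,3),(7,3),(7,6),(0,6),(11,1)]⟩ ⟨0,[(50,0)]⟩),.k,.k,⟨false,
  1,⟨11,[(10,3),(24,0),(0,0),(18,5)]⟩,⟨0,[(52,0)]⟩⟩,⟨true,0,⟨0,[(37,0)]⟩,⟨5,[(2,5),(6,1),(25,0),(0,
  0)]⟩⟩,⟨true,0,⟨2,[(0,2),(1,2),(6,0),(0,0)]⟩,⟨4,[(1,1),(1,1),(3,0),(4,1),(10,0),(4,2),(4,2),(3,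
  1)]⟩⟩,⟨false,0,⟨0,[(0,0)]⟩,⟨47,[(6,29),(3,5),(1,9),(22,8),(2,17),(9,18),(6,13)]⟩⟩,⟨false,0,⟨0,[]⟩,
  ⟨0,[]⟩⟩,⟨false,0,⟨0,[]⟩,⟨0,[]⟩⟩,[.o ⟨false,0,⟨0,[(52,0)]⟩,⟨2,[(12,0),(35,0),(6,1)]⟩⟩,.e ⟨true,0,
  ⟨3,[(43,0),(0,0),(6,1)]⟩,⟨0,[(57,0)]⟩⟩ ⟨true,0,⟨4,[(0,1),(10,0),(23,0),(1,2)]⟩,⟨2,[(2,2),(6,0),(0,
  0)]⟩⟩,.o ⟨false,1,⟨1,[(38,1),(9,0),(5,0)]⟩,⟨22,[(0,2),(0,2),(9,7),(0,9),(3,2),(11,2),(8,19),(10,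
  4),(2,4)]⟩⟩,.a ⟨true,0,⟨0,[(38,0)]⟩,⟨0,[(37,0)]⟩⟩ ⟨false,1,⟨3,[(35,0),(0,0),(18,1)]⟩,⟨0,[]⟩⟩
  ⟨true,0,⟨0,[(37,0),(14,0)]⟩,⟨2,[(2,2),(6,0),(0,0)]⟩⟩]⟩)) (.R ⟨0,false,false,true,[1,0,0,-1],[1,0,
  -1],[1,1],(⟨0,[(36,0)]⟩,⟨0,[(37,0)]⟩),(⟨0,[(45,0)]⟩,⟨0,[(46,0)]⟩),⟨0,[(1,0)]⟩,.k,.k,(.x (-1) ⟨15,
  [(18,3),(7,3),(7,6),(0,6),(11,1)]⟩ ⟨0,[(49,0)]⟩),.k,.k,.k,⟨false,1,⟨5,[(20,1),(3,1),(9,0),(0,0),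
  (17,1)]⟩,⟨0,[(44,0)]⟩⟩,⟨true,0,⟨0,[(36,0),(2,0)]⟩,⟨5,[(1,3),(16,0),(7,0),(6,2),(3,1)]⟩⟩,⟨false,1,
  ⟨3,[(34,0),(0,2)]⟩,⟨9,[(2,8),(3,0),(3,1),(0,4),(24,8),(10,1),(2,2)]⟩⟩,⟨true,0,⟨12,[(0,10),(9,0),
  (0,1),(4,8),(5,2),(6,1),(0,11),(4,0),(0,12)]⟩,⟨0,[(5,0),(34,0)]⟩⟩,⟨false,0,⟨0,[]⟩,⟨0,[]⟩⟩,⟨false,
  0,⟨0,[]⟩,⟨0,[]⟩⟩,[.o ⟨false,0,⟨0,[(38,0)]⟩,⟨7,[(14,3),(19,0),(0,0),(11,1),(6,3)]⟩⟩,.e ⟨true,0,⟨0,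
  []⟩,⟨1,[(42,0),(0,0)]⟩⟩ ⟨true,0,⟨0,[(36,0),(2,0),(4,0)]⟩,⟨5,[(1,3),(12,2),(3,0),(7,0),(10,1)]⟩⟩,
  .o ⟨false,1,⟨1,[(37,1),(9,0),(5,0)]⟩,⟨18,[(10,6),(0,7),(3,2),(11,2),(2,2),(5,18),(10,3),(2,3)]⟩⟩,
  .a ⟨true,0,⟨0,[(37,0)]⟩,⟨0,[(36,0)]⟩⟩ ⟨false,1,⟨3,[(34,0),(0,0),(17,1)]⟩,⟨3,[(42,0),(0,0),(6,
  1)]⟩⟩ ⟨true,0,⟨0,[(36,0),(1,0)]⟩,⟨5,[(1,3),(12,2),(3,0),(7,0),(10,1)]⟩⟩]⟩)))) (.R ⟨1,false,false,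
  false,[1,0,0,-1],[0,-1,1],[0,1,0,-1,0,0,0,0,-1],(⟨0,[(33,0)]⟩,⟨0,[(34,0)]⟩),(⟨1,[(15,0),(27,0)]⟩,
  ⟨0,[(42,0),(3,0)]⟩),⟨2,[(0,2),(4,0),(0,0),(2,2)]⟩,.k,.k,(.x (-1) ⟨15,[(15,3),(7,3),(7,6),(0,6),
  (11,1)]⟩ ⟨0,[(46,0)]⟩),(.r 0 ⟨2,[(3,0),(3,0),(23,0),(9,2)]⟩ ⟨1,[(6,0),(10,0),(14,0)]⟩),.k,.k,
  ⟨true,(-1),⟨0,[(0,0),(1,0),(4,0),(11,0)]⟩,⟨5,[(17,1),(3,1),(10,2),(14,1),(3,0)]⟩⟩,⟨false,0,⟨0,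
  [(33,0),(5,0)]⟩,⟨0,[(1,0),(19,0)]⟩⟩,⟨false,0,⟨0,[(49,0)]⟩,⟨3,[(9,1),(21,0),(0,0),(11,0),(6,0)]⟩⟩,
  ⟨false,1,⟨31,[(8,11),(2,11),(5,3),(14,15),(0,31),(5,14),(0,6),(6,5),(3,15)]⟩,⟨0,[(2,0),(10,0)]⟩⟩,
  ⟨true,0,⟨0,[(53,0)]⟩,⟨0,[]⟩⟩,⟨false,1,⟨19,[(0,2),(7,0),(2,3),(5,5),(14,9),(0,16),(5,11),(7,1),(3,
  9)]⟩,⟨0,[(2,0),(32,0)]⟩⟩,[.a ⟨true,0,⟨2,[(8,0),(1,1),(0,1),(7,0),(20,0)]⟩,⟨6,[(10,0),(8,0),(0,3),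
  (5,0),(0,0),(10,0)]⟩⟩ ⟨false,0,⟨2,[(0,1),(1,1),(0,0),(15,0),(9,0),(7,0)]⟩,⟨3,[(9,1),(22,1),(11,0),
  (6,0)]⟩⟩ ⟨true,0,⟨31,[(8,11),(2,11),(5,3),(15,31),(5,14),(0,6),(6,5)]⟩,⟨0,[(1,0)]⟩⟩,.o ⟨false,1,
  ⟨23,[(8,7),(2,11),(19,2),(0,2),(11,1),(6,15)]⟩,⟨0,[(13,0)]⟩⟩,.o ⟨false,1,⟨1,[(34,1),(9,0),(5,0)]⟩,
  ⟨7,[(0,5),(6,1),(25,1),(10,0),(2,1),(3,0)]⟩⟩,.e ⟨false,0,⟨0,[(0,0),(1,0)]⟩,⟨5,[(7,1),(23,0),(0,3),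
  (18,2)]⟩⟩ ⟨false,1,⟨7,[(0,1),(7,1),(2,3),(19,0),(0,0),(0,5),(17,5)]⟩,⟨0,[(1,0)]⟩⟩]⟩)) (.R ⟨1,
  false,false,false,[1,0,0,-1],[0,-1,1],[1,1,0,0,0,0,0,0,-1],(⟨0,[(32,0)]⟩,⟨0,[(33,0)]⟩),(⟨1,[(14,
  0),(27,0)]⟩,⟨0,[(41,0),(3,0)]⟩),⟨5,[(0,2),(3,1),(0,1),(2,2),(3,2),(19,2)]⟩,.k,.k,(.x (-1) ⟨15,
  [(14,3),(7,3),(7,6),(0,6),(11,1)]⟩ ⟨0,[(45,0)]⟩),(.r 0 ⟨2,[(2,0),(3,0),(23,0),(9,2)]⟩ ⟨1,[(5,0),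
  (10,0),(14,0)]⟩),.k,.k,⟨true,(-1),⟨0,[(0,0),(0,0),(4,0),(5,0),(5,0)]⟩,⟨49,[(5,16),(1,5),(2,5),(5,
  18),(14,24),(7,11),(6,19),(3,7)]⟩⟩,⟨false,0,⟨0,[(32,0),(5,0)]⟩,⟨0,[(11,0),(21,0)]⟩⟩,⟨false,0,⟨0,
  []⟩,⟨3,[(30,0),(0,0),(18,1)]⟩⟩,⟨false,1,⟨1,[(0,1),(30,0),(6,0),(0,0),(10,0)]⟩,⟨0,[(1,0),(10,0)]⟩⟩,
  ⟨true,0,⟨0,[(47,0)]⟩,⟨0,[(48,0)]⟩⟩,⟨false,1,⟨5,[(0,5),(5,1),(23,0),(0,3),(18,2)]⟩,⟨0,[(1,0),(32,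
  0)]⟩⟩,[.e ⟨false,0,⟨2,[(0,1),(0,1),(0,0),(9,1),(5,0),(4,0),(4,0)]⟩,⟨1,[(31,0),(18,0)]⟩⟩ ⟨false,0,
  ⟨0,[(0,0)]⟩,⟨15,[(15,7),(3,7),(9,3),(0,0),(0,0),(1,15),(9,5)]⟩⟩,.o ⟨false,1,⟨23,[(7,7),(2,11),(19,
  2),(0,2),(11,1),(6,15)]⟩,⟨0,[(12,0)]⟩⟩,.o ⟨false,1,⟨1,[(33,1),(9,0),(5,0)]⟩,⟨3,[(0,0),(5,0),(0,0),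
  (4,0),(19,2),(10,0),(2,0)]⟩⟩,.a ⟨true,0,⟨0,[(33,0)]⟩,⟨0,[(32,0)]⟩⟩ ⟨false,0,⟨0,[(0,0),(0,0),(10,
  0)]⟩,⟨1,[(31,0),(6,0),(0,0),(10,0)]⟩⟩ ⟨true,0,⟨0,[(0,0)]⟩,⟨0,[(12,0),(20,0)]⟩⟩]⟩))) (.I [0,0,1,0,
  0,0,0,0,-1] (.Q [0,1,0,-1,0,0,0,0,0,-1,0,1] (.p true [0,0,0,1] [1] (⟨0,[(32,0)]⟩,⟨0,[(31,0)]⟩) .k
  1 (⟨0,[]⟩,⟨0,[]⟩) .k .k) (.R ⟨1,false,false,false,[0,0,0,1],[0,-1,1],[1,0,0,0,0,0,0,0,1],(⟨0,[(33,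
  0)]⟩,⟨0,[(32,0)]⟩),(⟨1,[(14,0),(27,0)]⟩,⟨0,[(41,0),(3,0)]⟩),⟨2,[(0,2),(3,0),(0,0),(2,2)]⟩,.k,.k,
  (.x 0 ⟨5,[(4,1),(25,0),(0,0),(6,2),(0,2)]⟩ ⟨11,[(3,3),(26,0),(0,0),(17,5)]⟩),(.r 0 ⟨2,[(2,0),(3,
  0),(24,0),(8,2)]⟩ ⟨1,[(5,0),(10,0),(13,0)]⟩),.k,.k,⟨false,0,⟨2,[(2,2),(9,0),(6,0),(6,0),(2,0)]⟩,
  ⟨1,[(5,0),(10,0),(13,0)]⟩⟩,⟨true,0,⟨5,[(0,1),(9,0),(12,1),(2,3),(2,0),(3,3)]⟩,⟨0,[(32,0),(2,0)]⟩⟩,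
  ⟨true,0,⟨0,[]⟩,⟨0,[(52,0)]⟩⟩,⟨false,1,⟨10,[(0,1),(0,8),(3,2),(4,8),(0,6),(14,6),(3,0),(2,8),(12,
  2)]⟩,⟨5,[(2,3),(3,0),(5,2),(13,2),(4,0),(0,5),(2,2)]⟩⟩,⟨false,1,⟨3,[(8,1),(21,0),(0,0),(11,0),(6,
  0)]⟩,⟨0,[(48,0)]⟩⟩,⟨false,1,⟨0,[(1,0),(8,0),(0,0),(14,0),(6,0)]⟩,⟨8,[(2,4),(3,1),(0,2),(4,2),(12,
  2),(0,5),(4,1),(0,8)]⟩⟩,[.a ⟨true,0,⟨2,[(7,0),(1,1),(0,1),(7,0),(20,0)]⟩,⟨6,[(9,0),(8,0),(0,3),(5,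
  0),(0,0),(10,0)]⟩⟩ ⟨true,0,⟨0,[(2,0)]⟩,⟨0,[(1,0)]⟩⟩ ⟨false,1,⟨5,[(5,1),(4,2),(0,1),(17,0),(3,5),
  (9,0),(5,0)]⟩,⟨3,[(6,0),(5,0),(12,0),(0,1),(5,3),(4,0),(5,0)]⟩⟩,.o ⟨false,1,⟨23,[(7,7),(2,11),(19,
  2),(0,2),(11,1),(6,15)]⟩,⟨0,[(12,0)]⟩⟩,.o ⟨false,0,⟨18,[(6,6),(0,7),(3,2),(11,2),(2,2),(5,18),(10,
  3),(2,3)]⟩,⟨1,[(33,1),(9,0),(5,0)]⟩⟩,.o ⟨false,0,⟨0,[(32,0),(2,0),(2,0)]⟩,⟨5,[(0,1),(9,0),(0,5),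
  (11,1),(2,3),(2,0),(3,3)]⟩⟩]⟩) (.R ⟨1,false,false,false,[1,0,0,-1],[1,0,-1],[1,0,0,0,0,0,0,0,-1],
  (⟨0,[(32,0)]⟩,⟨0,[(33,0)]⟩),(⟨0,[(41,0)]⟩,⟨0,[(42,0)]⟩),⟨11,[(0,3),(6,1),(4,0),(1,2),(7,2),(0,0),
  (8,7)]⟩,.k,.k,(.x (-1) ⟨15,[(14,3),(7,3),(7,6),(0,6),(11,1)]⟩ ⟨0,[(45,0)]⟩),.k,(.r (-1) ⟨1,[(5,0),
  (10,0),(13,0)]⟩ ⟨2,[(2,0),(3,0),(24,0),(8,2)]⟩),.k,⟨false,1,⟨13,[(1,3),(3,2),(2,1),(1,3),(0,5),(4,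
  2),(11,1),(1,4)]⟩,⟨0,[(2,0),(37,0)]⟩⟩,⟨true,0,⟨0,[(32,0),(2,0)]⟩,⟨9,[(7,1),(2,0),(12,5),(2,7),(2,
  0),(3,9)]⟩⟩,⟨true,0,⟨0,[]⟩,⟨0,[(52,0)]⟩⟩,⟨false,0,⟨26,[(0,17),(1,16),(3,4),(0,11),(4,2),(12,11),
  (0,23),(4,4),(0,8)]⟩,⟨33,[(5,1),(1,1),(2,17),(0,13),(11,11),(2,13),(3,16),(2,33),(9,0)]⟩⟩,⟨false,
  1,⟨3,[(8,1),(21,0),(0,0),(11,0),(6,0)]⟩,⟨0,[(48,0)]⟩⟩,⟨false,0,⟨8,[(0,8),(1,4),(3,1),(0,2),(4,2),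
  (12,2),(0,5),(4,1)]⟩,⟨33,[(5,5),(1,5),(2,19),(0,7),(11,1),(2,7),(3,16),(2,33),(9,2)]⟩⟩,[.e ⟨false,
  1,⟨1,[(30,0),(18,0)]⟩,⟨0,[(2,0)]⟩⟩ ⟨false,0,⟨5,[(0,4),(6,0),(10,0),(6,0),(0,0),(5,0),(1,3)]⟩,⟨7,
  [(10,3),(19,0),(0,0),(1,7),(9,1),(5,3)]⟩⟩,.o ⟨false,1,⟨23,[(15,1),(9,3),(0,9),(10,11),(5,8),(6,
  12)]⟩,⟨0,[(36,0)]⟩⟩,.o ⟨false,1,⟨1,[(33,1),(9,0),(5,0)]⟩,⟨12,[(0,2),(5,3),(0,4),(24,9),(10,3),(2,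
  0)]⟩⟩,.a ⟨true,0,⟨0,[(33,0)]⟩,⟨0,[(32,0)]⟩⟩ ⟨false,1,⟨12,[(1,2),(3,1),(2,2),(1,2),(0,5),(14,5),(3,
  4),(15,1)]⟩,⟨10,[(2,6),(3,1),(0,1),(21,1),(1,1),(7,3),(6,0)]⟩⟩ ⟨true,0,⟨5,[(0,4),(6,0),(10,0),(6,
  0),(0,0),(5,0),(1,3)]⟩,⟨0,[(33,0),(2,0)]⟩⟩]⟩)) (.Q [0,0,0,0,0,0,1,1,0,0,-1,1] (.p false [0,0,1]
  [0,0,0,1] (⟨0,[(41,0)]⟩,⟨0,[(40,0)]⟩) .k 2 (⟨0,[(32,0)]⟩,⟨0,[(31,0)]⟩) .k (.r (-1) ⟨5,[(4,0),(10,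
  2),(13,3),(0,0)]⟩ ⟨0,[(1,0),(37,0)]⟩)) (.R ⟨1,false,false,false,[0,0,0,1],[0,1],[1,0,0,0,0,0,0,0,
  1],(⟨0,[(33,0)]⟩,⟨0,[(32,0)]⟩),(⟨0,[(45,0)]⟩,⟨0,[(44,0)]⟩),⟨5,[(0,2),(3,1),(0,1),(13,2),(13,2)]⟩,
  .k,.k,(.r 0 ⟨1,[(1,1),(5,0),(1,0)]⟩ ⟨11,[(6,3),(23,10),(0,4)]⟩),(.r 0 ⟨1,[(1,1),(5,0),(1,0)]⟩ ⟨11,
  [(6,3),(23,10),(0,4)]⟩),(.r (-1) ⟨2,[(2,0),(2,1),(25,0)]⟩ ⟨11,[(6,7),(23,6),(0,0)]⟩),.k,⟨true,0,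
  ⟨1,[(1,1),(5,0),(1,0)]⟩,⟨23,[(6,11),(0,3),(21,3),(0,11),(7,0),(0,8),(6,1)]⟩⟩,⟨false,1,⟨0,[(0,0),
  (4,0),(2,0),(3,0)]⟩,⟨0,[(32,0),(2,0),(2,0)]⟩⟩,⟨true,0,⟨0,[]⟩,⟨0,[(52,0)]⟩⟩,⟨false,1,⟨1,[(0,1),(7,
  0),(6,0),(10,0),(3,0)]⟩,⟨41,[(2,39),(3,9),(0,23),(23,0),(0,41),(10,8),(2,11)]⟩⟩,⟨false,1,⟨3,[(8,
  1),(21,0),(0,0),(11,0),(6,0)]⟩,⟨0,[(48,0)]⟩⟩,⟨false,1,⟨1,[(0,1),(7,0),(2,0),(7,0),(6,0),(3,0)]⟩,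
  ⟨41,[(2,31),(3,7),(0,35),(23,4),(0,41),(10,2),(2,17)]⟩⟩,[.e ⟨false,0,⟨0,[(1,0)]⟩,⟨3,[(30,2),(0,
  0)]⟩⟩ ⟨false,1,⟨1,[(0,0),(18,0),(13,0),(15,1)]⟩,⟨23,[(6,5),(0,13),(24,23),(10,4),(2,5),(3,0)]⟩⟩,
  .a ⟨true,0,⟨0,[(9,0)]⟩,⟨2,[(7,0),(2,0),(26,1)]⟩⟩ ⟨true,0,⟨1,[(1,0),(0,0),(43,0)]⟩,⟨1,[(6,0),(9,0),
  (1,1),(11,0)]⟩⟩ ⟨false,1,⟨1,[(0,1),(7,0),(6,0),(10,0),(22,0)]⟩,⟨47,[(6,15),(0,35),(22,4),(0,4),(0,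
  47),(10,5),(3,11)]⟩⟩,.o ⟨false,0,⟨18,[(6,6),(0,7),(3,2),(11,2),(2,2),(5,18),(10,3),(2,3)]⟩,⟨1,
  [(33,1),(9,0),(5,0)]⟩⟩,.o ⟨false,0,⟨0,[(32,0),(2,0),(2,0)]⟩,⟨13,[(0,13),(4,1),(5,3),(0,5),(2,1),
  (10,5),(16,0),(5,4)]⟩⟩]⟩) (.R ⟨1,false,false,false,[1,0,0,-1],[1,0,-1],[0,0,0,-1,0,0,0,0,-1],(⟨0,
  [(32,0)]⟩,⟨0,[(33,0)]⟩),(⟨0,[(41,0)]⟩,⟨0,[(42,0)]⟩),⟨3,[(0,1),(9,0),(3,0),(7,0),(9,1)]⟩,.k,.k,(.x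
  (-1) ⟨15,[(14,3),(7,3),(7,6),(0,6),(11,1)]⟩ ⟨0,[(45,0)]⟩),.k,(.r (-1) ⟨1,[(5,0),(10,0),(13,0)]⟩
  ⟨2,[(2,0),(3,0),(24,0),(8,2)]⟩),.k,⟨false,1,⟨1,[(5,0),(10,0),(13,0)]⟩,⟨14,[(1,8),(4,2),(5,1),(6,
  1),(6,1),(2,1),(1,2),(8,8)]⟩⟩,⟨true,0,⟨0,[(32,0),(2,0)]⟩,⟨9,[(7,1),(2,0),(12,5),(2,7),(2,0),(3,
  9)]⟩⟩,⟨true,0,⟨0,[(48,0)]⟩,⟨0,[(47,0)]⟩⟩,⟨false,0,⟨35,[(0,32),(1,25),(3,4),(0,2),(10,2),(12,4),(0,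
  2),(6,2),(6,20)]⟩,⟨33,[(5,1),(1,1),(2,17),(0,13),(11,11),(2,13),(3,16),(2,33),(9,0)]⟩⟩,⟨false,1,
  ⟨3,[(30,0),(0,0),(18,1)]⟩,⟨0,[]⟩⟩,⟨false,0,⟨57,[(0,57),(0,23),(4,17),(1,1),(22,16),(11,0),(2,
  27)]⟩,⟨33,[(5,5),(1,5),(2,19),(0,7),(11,1),(2,7),(3,16),(2,33),(9,2)]⟩⟩,[.e ⟨false,1,⟨11,[(5,3),
  (24,6),(0,0)]⟩,⟨27,[(1,17),(4,5),(1,1),(10,1),(3,1),(7,4),(11,0)]⟩⟩ ⟨false,0,⟨0,[(0,0)]⟩,⟨7,[(10,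
  3),(19,0),(0,0),(1,7),(9,1),(5,3)]⟩⟩,.o ⟨false,1,⟨23,[(15,1),(9,3),(0,9),(10,11),(5,8),(6,12)]⟩,
  ⟨0,[(36,0)]⟩⟩,.o ⟨false,1,⟨1,[(33,1),(9,0),(5,0)]⟩,⟨6,[(0,1),(5,1),(0,1),(2,0),(21,4),(10,1),(2,
  0)]⟩⟩,.a ⟨true,0,⟨0,[(33,0)]⟩,⟨0,[(32,0)]⟩⟩ ⟨false,1,⟨1,[(5,0),(15,0),(4,0),(3,0)]⟩,⟨2,[(2,0),(3,
  0),(24,0)]⟩⟩ ⟨true,0,⟨0,[(0,0)]⟩,⟨0,[(33,0),(2,0)]⟩⟩]⟩)))))))) (.I [0,0,2,2,-1,0,0,-2] (.R ⟨1,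
  false,false,false,[0,0,1],[1,1,-1],[1],(⟨0,[(36,0)]⟩,⟨0,[(35,0)]⟩),(⟨0,[(35,0),(3,0)]⟩,⟨1,[(8,0),
  (27,0)]⟩),⟨1,[(8,0),(27,0)]⟩,.k,.k,.k,(.r (-1) ⟨9,[(4,5),(9,7),(4,5),(4,0),(0,0),(16,1)]⟩ ⟨3,[(0,
  1),(23,0),(0,0),(8,3)]⟩),(.r (-2) ⟨4,[(4,1),(9,5),(4,1),(4,1),(0,1),(16,3)]⟩ ⟨0,[(0,0)]⟩),.k,
  ⟨false,1,⟨0,[(14,0)]⟩,⟨3,[(0,1),(23,0),(0,0)]⟩⟩,⟨true,1,⟨9,[(9,5),(0,1),(3,1),(4,3),(4,0),(0,0)]⟩,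
  ⟨0,[(0,0),(3,0),(37,1)]⟩⟩,⟨false,0,⟨0,[(20,0)]⟩,⟨4,[(4,0),(5,0),(3,0),(4,0),(4,1),(0,1)]⟩⟩,⟨false,
  1,⟨19,[(0,9),(8,11),(9,3),(4,0),(0,0),(5,7),(5,1),(6,13)]⟩,⟨0,[(4,0),(37,0)]⟩⟩,⟨true,0,⟨1,[(0,0),
  (42,0)]⟩,⟨0,[(10,0),(1,0)]⟩⟩,⟨false,1,⟨21,[(0,9),(8,11),(3,11),(5,3),(4,2),(0,2),(11,2),(6,10)]⟩,
  ⟨0,[(4,0),(37,1)]⟩⟩,[.a ⟨true,0,⟨7,[(0,0),(2,1),(5,0),(2,0),(0,2),(5,0),(11,0)]⟩,⟨2,[(3,0),(0,1),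
  (7,0),(20,0),(8,1)]⟩⟩ ⟨true,0,⟨0,[]⟩,⟨1,[(32,0),(0,0)]⟩⟩ ⟨false,1,⟨19,[(1,1),(4,1),(2,11),(3,5),
  (5,3),(4,2),(0,2),(11,1)]⟩,⟨7,[(4,5),(7,3),(10,1),(8,0),(0,0),(6,1)]⟩⟩,.o ⟨false,1,⟨43,[(0,9),(8,
  11),(3,11),(5,3),(4,2),(0,2),(11,13),(6,21)]⟩,⟨1,[(4,0),(7,0),(16,0),(0,0)]⟩⟩,.o ⟨false,0,⟨0,[(20,
  0),(9,0)]⟩,⟨39,[(9,5),(0,1),(3,1),(4,13),(4,10),(0,10),(11,9)]⟩⟩,.o ⟨false,0,⟨0,[(32,0)]⟩,⟨39,[(9,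
  17),(0,5),(3,5),(4,1),(4,2),(0,2),(11,9)]⟩⟩]⟩) (.I [0,0,-1,-1,0,0,0,-1,-1] (.Q [0,1,1,0,0,0,0,0,1,
  0,0,-1] (.p false [0,0,0,1] [] (⟨0,[(28,0)]⟩,⟨0,[(27,0)]⟩) .k 0 (⟨0,[]⟩,⟨0,[]⟩) .k .k) (.Q [0,0,
  -1,0,0,0,0,0,-1,0,0,1] (.p true [0,0,0,1] [] (⟨0,[(29,0)]⟩,⟨0,[(28,0)]⟩) .k 0 (⟨0,[]⟩,⟨0,[]⟩) .k
  .k) (.K ⟨0,[0,0,0,1],0,0,(⟨0,[(30,0)]⟩,⟨0,[(29,0)]⟩),.k,(.r (-1) ⟨5,[(15,1),(1,1),(10,2),(18,0)]⟩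
  ⟨5,[(2,5),(1,1),(4,1),(3,3),(21,4),(0,2)]⟩),(.x 0 ⟨0,[(42,0)]⟩ ⟨15,[(11,3),(7,3),(7,6),(0,6),(11,
  1)]⟩),.k,.k,[⟨0,[(30,0)]⟩,⟨0,[(29,0)]⟩,⟨0,[(0,0),(48,0)]⟩,⟨0,[(1,0)]⟩]⟩) (.Q [0,0,0,0,0,-1,0,0,0,
  1,0,-1] (.ed true [0,1,0,1] .k) (.R ⟨1,false,false,true,[1,0,0,-1],[0,1],[1,0,0,0,0,0,0,0,-1],(⟨0,
  [(30,0)]⟩,⟨0,[(31,0)]⟩),(⟨0,[(43,0)]⟩,⟨0,[(42,0)]⟩),⟨0,[(0,0)]⟩,.k,.k,(.x (-1) ⟨15,[(12,3),(7,3),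
  (7,6),(0,6),(11,1)]⟩ ⟨0,[(43,0)]⟩),(.x (-1) ⟨15,[(12,3),(7,3),(7,6),(0,6),(11,1)]⟩ ⟨0,[(43,0)]⟩),
  (.r (-1) ⟨11,[(3,5),(0,2),(11,3),(1,3),(9,2),(19,1)]⟩ ⟨8,[(1,5),(0,2),(2,4),(4,1),(3,0),(16,8),(1,
  2),(2,4)]⟩),.k,⟨false,1,⟨51,[(3,45),(0,14),(0,7),(2,7),(0,15),(18,2),(15,3),(3,17)]⟩,⟨4,[(1,0),(0,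
  3),(2,0),(4,0),(10,0),(9,4)]⟩⟩,⟨true,0,⟨0,[(30,0)]⟩,⟨0,[(24,0),(6,0),(1,0),(0,0)]⟩⟩,⟨true,0,⟨0,
  []⟩,⟨0,[(50,0)]⟩⟩,⟨false,0,⟨0,[(2,0),(4,0)]⟩,⟨35,[(3,25),(0,6),(3,3),(0,7),(9,3),(8,4),(2,35),(9,
  15),(2,15)]⟩⟩,⟨false,1,⟨11,[(5,3),(22,2),(0,2),(11,1),(6,3)]⟩,⟨0,[(46,0)]⟩⟩,⟨false,0,⟨1,[(2,1),(2,
  0),(1,0)]⟩,⟨7,[(3,5),(0,2),(23,0),(2,7),(9,3),(2,3),(1,3)]⟩⟩,[.o ⟨false,0,⟨0,[(45,0)]⟩,⟨1,[(41,0),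
  (4,1),(1,0)]⟩⟩,.a ⟨true,0,⟨5,[(5,0),(1,2),(0,1),(26,3)]⟩,⟨0,[(46,0)]⟩⟩ ⟨true,0,⟨0,[(3,0),(15,0)]⟩,
  ⟨0,[(2,0),(28,0)]⟩⟩ ⟨false,0,⟨0,[(1,0),(1,0),(1,0),(8,0),(1,0)]⟩,⟨5,[(16,1),(1,1),(12,5),(9,2),(6,
  0)]⟩⟩,.o ⟨false,1,⟨1,[(31,1),(9,0),(5,0)]⟩,⟨3,[(1,1),(1,1),(15,0),(1,0),(8,1),(2,1),(2,0)]⟩⟩,.e
  ⟨false,1,⟨25,[(3,9),(0,0),(0,3),(2,3),(0,7),(18,7),(15,1),(3,8)]⟩,⟨0,[(1,0),(29,0)]⟩⟩ ⟨false,0,⟨0,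
  [(1,0),(1,0),(1,0),(8,0),(1,0)]⟩,⟨1,[(31,1),(9,0),(4,1),(1,0)]⟩⟩]⟩) (.R ⟨0,false,false,true,[1,0,
  0,-1],[0,1],[1,0,0,0,0,0,0,0,-1],(⟨0,[(30,0)]⟩,⟨0,[(31,0)]⟩),(⟨0,[(43,0)]⟩,⟨0,[(42,0)]⟩),⟨0,[(0,
  0)]⟩,.k,.k,(.x (-1) ⟨15,[(12,3),(7,3),(7,6),(0,6),(11,1)]⟩ ⟨0,[(43,0)]⟩),(.x (-1) ⟨15,[(12,3),(7,
  3),(7,6),(0,6),(11,1)]⟩ ⟨0,[(43,0)]⟩),.k,.k,⟨false,1,⟨51,[(3,45),(0,14),(0,7),(2,7),(0,15),(18,2),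
  (15,3),(3,17)]⟩,⟨23,[(0,3),(1,23),(2,5),(4,2),(1,0),(7,0),(0,2),(9,19)]⟩⟩,⟨true,0,⟨0,[(30,0)]⟩,⟨6,
  [(0,4),(11,1),(2,0),(15,1),(1,1),(2,3)]⟩⟩,⟨true,0,⟨0,[]⟩,⟨0,[(50,0)]⟩⟩,⟨false,0,⟨0,[(2,0),(4,0)]⟩,
  ⟨55,[(0,55),(2,29),(0,12),(3,1),(0,3),(2,13),(7,13),(7,12),(12,5),(2,7),(3,19)]⟩⟩,⟨false,0,⟨0,[]⟩,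
  ⟨0,[]⟩⟩,⟨false,0,⟨0,[]⟩,⟨0,[]⟩⟩,[.o ⟨false,0,⟨0,[(45,0)]⟩,⟨1,[(41,0),(4,1),(1,0)]⟩⟩,.a ⟨true,0,⟨5,
  [(5,0),(1,2),(0,1),(26,3)]⟩,⟨0,[(46,0)]⟩⟩ ⟨true,0,⟨0,[(3,0),(15,0)]⟩,⟨0,[(2,0),(28,0)]⟩⟩ ⟨false,0,
  ⟨0,[(1,0),(1,0),(1,0),(8,0),(1,0)]⟩,⟨5,[(16,1),(1,1),(12,5),(9,2),(6,0)]⟩⟩,.o ⟨false,1,⟨1,[(31,1),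
  (9,0),(5,0)]⟩,⟨3,[(1,1),(1,1),(15,0),(1,0),(8,1),(2,1),(2,0)]⟩⟩,.e ⟨false,1,⟨25,[(3,9),(0,0),(0,
  3),(2,3),(0,7),(18,7),(15,1),(3,8)]⟩,⟨0,[(1,0),(29,0)]⟩⟩ ⟨false,0,⟨0,[(1,0),(1,0),(1,0),(8,0),(1,
  0)]⟩,⟨1,[(31,1),(9,0),(4,1),(1,0)]⟩⟩]⟩))) (.Q [0,0,0,0,0,0,-1,-1,0,0,1,-1] (.p true [0,0,1] [0,0,
  0,1] (⟨0,[(38,0)]⟩,⟨0,[(37,0)]⟩) .k 2 (⟨0,[(29,0)]⟩,⟨0,[(28,0)]⟩) .k (.r 0 ⟨0,[(1,0),(10,0)]⟩ ⟨3,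
  [(26,0),(0,2),(8,3)]⟩)) (.R ⟨1,false,false,false,[1,0,0,-1],[1,0,-1],[1,1,0,0,0,0,0,0,-1],(⟨0,
  [(29,0)]⟩,⟨0,[(30,0)]⟩),(⟨0,[(38,0)]⟩,⟨0,[(39,0)]⟩),⟨3,[(0,1),(6,0),(3,0),(7,0),(9,1)]⟩,.k,.k,(.x
  (-1) ⟨15,[(11,3),(7,3),(7,6),(0,6),(11,1)]⟩ ⟨0,[(42,0)]⟩),.k,(.x 0 ⟨4,[(11,2),(9,0),(1,1),(9,1),
  (1,0)]⟩ ⟨7,[(14,3),(12,2),(0,2),(13,11),(3,1)]⟩),.k,⟨false,0,⟨0,[(0,0),(0,0),(11,0),(1,0),(4,0)]⟩,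
  ⟨1,[(28,0),(8,1),(9,0)]⟩⟩,⟨true,0,⟨0,[(29,0),(2,0)]⟩,⟨0,[(23,0),(6,0),(2,0)]⟩⟩,⟨false,0,⟨0,[]⟩,⟨3,
  [(27,0),(0,0),(18,1)]⟩⟩,⟨false,1,⟨1,[(0,1),(27,0),(6,0),(0,0),(10,0)]⟩,⟨0,[(1,0),(31,0)]⟩⟩,⟨true,
  0,⟨0,[(44,0)]⟩,⟨0,[(45,0)]⟩⟩,⟨false,1,⟨11,[(0,11),(3,3),(17,3),(4,0),(0,6),(6,7),(11,3)]⟩,⟨1,[(1,
  1),(5,0),(7,0),(16,0),(0,0)]⟩⟩,[.e ⟨false,0,⟨2,[(0,0),(0,0),(0,1),(10,0),(1,0),(4,1),(4,0)]⟩,⟨1,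
  [(28,0),(18,0)]⟩⟩ ⟨false,0,⟨0,[(0,0)]⟩,⟨7,[(7,3),(19,0),(0,0),(1,7),(9,1),(5,3)]⟩⟩,.o ⟨false,1,
  ⟨23,[(12,1),(9,3),(0,9),(10,11),(5,8),(6,12)]⟩,⟨0,[(33,0)]⟩⟩,.o ⟨false,1,⟨1,[(30,1),(9,0),(5,0)]⟩,
  ⟨1,[(0,1),(6,0),(24,0),(2,0)]⟩⟩,.a ⟨true,0,⟨0,[(30,0)]⟩,⟨0,[(29,0)]⟩⟩ ⟨false,0,⟨0,[(0,0),(0,0),
  (31,0)]⟩,⟨1,[(28,0),(6,0),(0,0),(10,0)]⟩⟩ ⟨true,0,⟨0,[(0,0)]⟩,⟨0,[(30,0),(2,0)]⟩⟩]⟩) (.Q [0,0,0,0,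
  0,-1,0,0,0,1,0,-1] (.ed true [0,1,0,1] .k) (.I [0,0,-1,-1,0,0,0,1,-1] (.R ⟨1,false,false,false,[1,
  0,0,-1],[1,0,-1],[0,0,0,-1,0,0,0,0,-1],(⟨0,[(31,0)]⟩,⟨0,[(32,0)]⟩),(⟨0,[(40,0)]⟩,⟨0,[(41,0)]⟩),⟨0,
  [(1,0)]⟩,.k,.k,(.x (-1) ⟨15,[(13,3),(7,3),(7,6),(0,6),(11,1)]⟩ ⟨0,[(44,0)]⟩),.k,(.r 0 ⟨0,[(0,0)]⟩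
  ⟨7,[(18,3),(10,0),(0,4),(5,3),(0,7),(11,1)]⟩),.k,⟨false,0,⟨0,[(0,0)]⟩,⟨31,[(6,7),(4,7),(16,3),(0,
  6),(0,22),(8,23),(2,1)]⟩⟩,⟨true,0,⟨0,[(31,0),(2,0)]⟩,⟨0,[(2,0),(36,0)]⟩⟩,⟨true,0,⟨0,[(47,0)]⟩,⟨0,
  [(46,0)]⟩⟩,⟨false,1,⟨1,[(30,0),(0,1),(2,1),(4,1),(9,0)]⟩,⟨3,[(0,0),(1,1),(0,1),(0,0),(17,1)]⟩⟩,
  ⟨false,1,⟨3,[(29,0),(0,0),(18,1)]⟩,⟨0,[]⟩⟩,⟨false,1,⟨21,[(11,17),(6,1),(5,3),(5,10),(0,21),(4,1),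
  (0,7),(7,9),(3,10)]⟩,⟨1,[(0,0),(1,1),(1,0)]⟩⟩,[.a ⟨true,0,⟨6,[(8,1),(8,1),(0,0),(5,1),(0,1),(10,
  1)]⟩,⟨1,[(9,0),(21,0),(0,0)]⟩⟩ ⟨false,0,⟨1,[(0,0),(3,0)]⟩,⟨15,[(6,3),(22,2),(0,10),(11,1),(3,
  3)]⟩⟩ ⟨true,0,⟨0,[(31,0),(2,0),(4,0)]⟩,⟨0,[(2,0)]⟩⟩,.o ⟨false,1,⟨23,[(14,1),(9,3),(0,9),(10,11),
  (5,8),(6,12)]⟩,⟨0,[(35,0)]⟩⟩,.o ⟨false,1,⟨1,[(32,1),(9,0),(5,0)]⟩,⟨0,[(25,0),(5,0),(2,0),(0,0)]⟩⟩,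
  .e ⟨false,0,⟨0,[(0,0),(24,0)]⟩,⟨35,[(6,7),(4,7),(3,3),(13,8),(0,26),(6,19),(0,11)]⟩⟩ ⟨false,1,⟨23,
  [(14,1),(9,3),(0,9),(5,23),(4,11),(5,8),(6,12)]⟩,⟨0,[(2,0)]⟩⟩]⟩) (.I [1,0,-1,0,0,0,0,0,-1] (.R ⟨1,
  false,false,false,[1,0,0,-1],[1,0,-1],[0,1,0,-1,0,0,0,0,-1],(⟨0,[(32,0)]⟩,⟨0,[(33,0)]⟩),(⟨0,[(41,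
  0)]⟩,⟨0,[(42,0)]⟩),⟨0,[(2,0)]⟩,.k,.k,(.x (-1) ⟨15,[(14,3),(7,3),(7,6),(0,6),(11,1)]⟩ ⟨0,[(45,
  0)]⟩),.k,(.x 0 ⟨4,[(14,2),(9,0),(1,1),(9,1),(1,0)]⟩ ⟨7,[(17,3),(12,2),(0,2),(13,11),(3,1)]⟩),.k,
  ⟨false,0,⟨0,[(0,0),(15,0),(1,0)]⟩,⟨1,[(1,1),(47,0),(0,0)]⟩⟩,⟨true,0,⟨0,[(32,0),(2,0)]⟩,⟨0,[(3,0),
  (36,0)]⟩⟩,⟨false,0,⟨0,[(48,0)]⟩,⟨11,[(7,3),(22,2),(0,2),(11,1),(6,3)]⟩⟩,⟨false,1,⟨5,[(1,3),(16,1),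
  (6,1),(5,0),(0,5),(2,1),(7,0),(6,3)]⟩,⟨0,[(0,0),(2,0)]⟩⟩,⟨true,0,⟨0,[(52,0)]⟩,⟨0,[]⟩⟩,⟨false,1,
  ⟨43,[(1,35),(13,3),(3,3),(5,15),(4,0),(0,4),(0,43),(10,11),(6,21)]⟩,⟨0,[(0,0),(2,0),(44,0)]⟩⟩,[.a
  ⟨true,0,⟨6,[(9,1),(8,1),(0,0),(5,1),(0,1),(10,1)]⟩,⟨1,[(10,0),(21,0),(0,0)]⟩⟩ ⟨false,0,⟨1,[(0,0),
  (4,0),(10,0),(1,0),(33,0)]⟩,⟨5,[(7,1),(23,2),(11,0),(6,1)]⟩⟩ ⟨true,0,⟨0,[(32,0),(2,0),(4,0)]⟩,⟨0,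
  [(3,0)]⟩⟩,.o ⟨false,1,⟨23,[(15,1),(9,3),(0,9),(10,11),(5,8),(6,12)]⟩,⟨0,[(36,0)]⟩⟩,.o ⟨false,1,⟨1,
  [(33,1),(9,0),(5,0)]⟩,⟨0,[(26,0),(5,0),(2,0),(0,0)]⟩⟩,.e ⟨false,0,⟨0,[(0,0),(47,0)]⟩,⟨5,[(1,3),
  (14,1),(13,0),(0,1),(18,2)]⟩⟩ ⟨false,1,⟨23,[(15,1),(9,3),(0,9),(5,23),(4,11),(5,8),(6,12)]⟩,⟨0,
  [(3,0)]⟩⟩]⟩) (.I [0,1,0,-1,0,0,0,-1,1] (.R ⟨1,false,false,true,[1,0,0,-1],[0,0,1],[1,0,0,0,0,0,0,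
  0,-1],(⟨0,[(33,0)]⟩,⟨0,[(34,0)]⟩),(⟨0,[(43,0)]⟩,⟨0,[(42,0)]⟩),⟨0,[(3,0)]⟩,.k,.k,(.x (-1) ⟨15,[(15,
  3),(7,3),(7,6),(0,6),(11,1)]⟩ ⟨0,[(46,0)]⟩),.k,(.r 0 ⟨0,[(6,0)]⟩ ⟨2,[(2,0),(14,1),(13,0),(0,1)]⟩),
  .k,⟨true,0,⟨2,[(6,2),(1,0),(27,0),(2,0),(7,0)]⟩,⟨0,[(0,0),(16,0)]⟩⟩,⟨false,0,⟨0,[(27,0),(5,0),(3,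
  0)]⟩,⟨11,[(7,0),(8,5),(0,1),(13,0),(0,0),(1,11),(9,2)]⟩⟩,⟨true,0,⟨0,[]⟩,⟨0,[(53,0)]⟩⟩,⟨true,0,⟨0,
  [(1,0),(31,0),(3,0)]⟩,⟨0,[(5,0),(29,0)]⟩⟩,⟨false,1,⟨11,[(8,3),(22,2),(0,2),(11,1),(6,3)]⟩,⟨0,[(49,
  0)]⟩⟩,⟨true,0,⟨0,[(1,0),(22,0),(8,0)]⟩,⟨1,[(5,1),(13,0),(15,0),(0,0)]⟩⟩,[.o ⟨false,0,⟨0,[(37,0)]⟩,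
  ⟨23,[(16,1),(9,3),(0,9),(10,11),(5,8),(6,12)]⟩⟩,.e ⟨true,0,⟨0,[(6,0),(15,0)]⟩,⟨0,[(1,0),(51,0)]⟩⟩
  ⟨true,0,⟨1,[(11,0),(21,1),(2,0),(2,0)]⟩,⟨1,[(0,0),(0,0),(3,1),(7,0),(22,0)]⟩⟩,.o ⟨false,1,⟨1,[(34,
  1),(9,0),(5,0)]⟩,⟨0,[(27,0),(5,0),(2,0),(0,0)]⟩⟩,.a ⟨true,0,⟨0,[(34,0)]⟩,⟨0,[(33,0)]⟩⟩ ⟨false,1,
  ⟨25,[(6,9),(0,0),(0,3),(2,3),(0,7),(18,7),(15,1),(3,8)]⟩,⟨0,[(1,0)]⟩⟩ ⟨true,0,⟨0,[(33,0),(3,0)]⟩,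
  ⟨1,[(0,0),(0,0),(3,1),(7,0),(22,0)]⟩⟩]⟩) (.R ⟨1,false,false,false,[1,0,0,-1],[1,1,-1],[0,1,0,-1,0,
  0,0,0,-1],(⟨0,[(33,0)]⟩,⟨0,[(34,0)]⟩),(⟨0,[(42,0),(3,0)]⟩,⟨1,[(15,0),(27,0)]⟩),⟨0,[(3,0)]⟩,.k,.k,
  (.x (-1) ⟨15,[(15,3),(7,3),(7,6),(0,6),(11,1)]⟩ ⟨0,[(46,0)]⟩),(.r (-1) ⟨1,[(7,0),(23,0)]⟩ ⟨0,[(0,
  3),(0,4),(6,0),(2,0),(1,1),(5,3),(7,0)]⟩),(.r (-1) ⟨3,[(6,1),(0,2),(23,0)]⟩ ⟨8,[(2,8),(5,1),(4,1),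
  (3,0),(21,4),(0,2)]⟩),.k,⟨true,0,⟨0,[(0,0),(16,0),(1,1)]⟩,⟨2,[(2,2),(5,0),(27,0),(2,0),(7,0)]⟩⟩,
  ⟨false,1,⟨11,[(7,0),(8,5),(0,1),(13,0),(0,0),(0,11),(10,2)]⟩,⟨0,[(4,0),(36,0)]⟩⟩,⟨false,0,⟨0,[(49,
  0)]⟩,⟨11,[(8,3),(22,2),(0,2),(11,1),(6,3)]⟩⟩,⟨false,1,⟨43,[(2,35),(13,3),(3,3),(5,15),(4,0),(0,4),
  (0,43),(10,11),(6,21)]⟩,⟨1,[(5,1),(5,0),(7,0),(16,0),(0,0)]⟩⟩,⟨true,0,⟨0,[(53,0)]⟩,⟨0,[]⟩⟩,⟨false,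
  1,⟨17,[(2,11),(5,3),(11,5),(5,5),(5,2),(0,17),(10,7),(6,6)]⟩,⟨0,[(5,0),(5,0),(7,0),(16,0)]⟩⟩,[.a
  ⟨true,0,⟨6,[(10,0),(8,0),(0,3),(5,0),(0,0),(10,0)]⟩,⟨2,[(10,0),(0,1),(7,0),(20,0),(8,1)]⟩⟩ ⟨false,
  0,⟨2,[(0,0),(5,1),(10,0),(1,1),(9,0),(7,0)]⟩,⟨5,[(8,1),(23,2),(11,0),(6,1)]⟩⟩ ⟨true,0,⟨10,[(13,8),
  (6,0),(5,1),(6,10),(4,0),(0,3),(7,4)]⟩,⟨0,[(4,0),(44,0)]⟩⟩,.o ⟨false,1,⟨0,[(13,0),(37,0)]⟩,⟨1,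
  [(11,0),(7,0),(16,0),(0,0)]⟩⟩,.o ⟨false,1,⟨1,[(34,1),(9,0),(5,0)]⟩,⟨0,[(27,0),(5,0),(2,0),(0,
  0)]⟩⟩,.e ⟨false,0,⟨0,[(0,0),(18,0)]⟩,⟨5,[(2,3),(14,1),(13,0),(0,1),(18,2)]⟩⟩ ⟨false,1,⟨0,[(13,0),
  (19,0),(17,0)]⟩,⟨0,[(4,0),(44,0)]⟩⟩]⟩)))) (.Q [0,1,1,-1,0,0,-1,-1,1,0,1,-1] (.p true [0,0,1] [0,0,
  0,1] (⟨0,[(40,0)]⟩,⟨0,[(39,0)]⟩) .k 2 (⟨0,[(31,0)]⟩,⟨0,[(30,0)]⟩) .k (.r 0 ⟨0,[(3,0),(10,0)]⟩ ⟨3,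
  [(28,0),(0,2),(8,3)]⟩)) (.R ⟨0,false,false,true,[1,0,0,-1],[1,-1,-1],[1,1],(⟨0,[(31,0)]⟩,⟨0,[(32,
  0)]⟩),(⟨0,[(26,0)]⟩,⟨0,[(41,0),(2,0)]⟩),⟨0,[(1,0)]⟩,.k,.k,(.x (-1) ⟨15,[(13,3),(7,3),(7,6),(0,6),
  (11,1)]⟩ ⟨0,[(44,0)]⟩),(.r 0 ⟨8,[(4,8),(1,1),(4,1),(3,9),(21,4),(0,2)]⟩ ⟨0,[(4,0),(25,0)]⟩),.k,.k,
  ⟨true,0,⟨17,[(6,1),(4,1),(3,9),(21,4),(0,2)]⟩,⟨5,[(17,2),(18,0),(0,0),(1,1),(5,1)]⟩⟩,⟨false,0,⟨0,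
  [(31,0),(2,0)]⟩,⟨11,[(1,5),(19,3),(1,1),(4,3),(3,5),(9,0),(5,10)]⟩⟩,⟨false,1,⟨3,[(29,0),(0,2)]⟩,
  ⟨0,[(4,0),(15,0)]⟩⟩,⟨true,0,⟨0,[(0,0)]⟩,⟨0,[(3,0),(18,0)]⟩⟩,⟨false,0,⟨0,[]⟩,⟨0,[]⟩⟩,⟨false,0,⟨0,
  []⟩,⟨0,[]⟩⟩,[.o ⟨false,0,⟨1,[(17,0),(15,0),(0,0)]⟩,⟨23,[(6,7),(2,11),(19,2),(0,2),(11,9),(6,7)]⟩⟩,
  .e ⟨true,0,⟨0,[]⟩,⟨1,[(37,0),(0,0)]⟩⟩ ⟨true,0,⟨3,[(0,1),(3,1),(19,0),(6,1),(2,0),(2,0),(7,0)]⟩,⟨7,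
  [(1,3),(0,3),(3,1),(2,0),(3,0),(7,0),(0,1)]⟩⟩,.o ⟨false,1,⟨1,[(32,1),(9,0),(5,0)]⟩,⟨0,[(25,0),(5,
  0),(2,0),(0,0)]⟩⟩,.a ⟨true,0,⟨0,[(32,0)]⟩,⟨0,[(31,0)]⟩⟩ ⟨false,1,⟨3,[(29,0),(0,0),(17,1)]⟩,⟨3,
  [(37,0),(0,0),(6,1)]⟩⟩ ⟨true,0,⟨1,[(17,0),(13,1),(1,0),(0,0)]⟩,⟨7,[(1,3),(0,3),(3,1),(2,0),(3,0),
  (7,0),(0,1)]⟩⟩]⟩) (.R ⟨0,false,false,false,[1,0,0,-1],[1,0,-1],[0,1,0,0,0,0,0,0,-1],(⟨0,[(31,0)]⟩,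
  ⟨0,[(32,0)]⟩),(⟨0,[(40,0)]⟩,⟨0,[(41,0)]⟩),⟨0,[(1,0)]⟩,.k,.k,(.x (-1) ⟨15,[(13,3),(7,3),(7,6),(0,
  6),(11,1)]⟩ ⟨0,[(44,0)]⟩),.k,.k,.k,⟨false,0,⟨0,[(0,0),(16,0),(4,0),(1,0),(6,0)]⟩,⟨1,[(30,0),(8,1),
  (9,0)]⟩⟩,⟨true,0,⟨0,[(31,0),(2,0)]⟩,⟨5,[(1,3),(11,0),(7,0),(6,2),(3,1)]⟩⟩,⟨true,0,⟨0,[(51,0)]⟩,⟨0,
  []⟩⟩,⟨false,1,⟨1,[(30,0),(0,1),(2,1),(4,1),(9,0)]⟩,⟨0,[(3,0),(31,0)]⟩⟩,⟨false,0,⟨0,[]⟩,⟨0,[]⟩⟩,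
  ⟨false,0,⟨0,[]⟩,⟨0,[]⟩⟩,[.a ⟨true,0,⟨6,[(8,1),(8,1),(0,0),(5,1),(0,1),(10,1)]⟩,⟨1,[(9,0),(21,0),
  (0,0)]⟩⟩ ⟨false,0,⟨2,[(0,0),(3,1),(12,0),(4,1),(1,0),(2,0),(3,0)]⟩,⟨1,[(30,0),(18,0)]⟩⟩ ⟨true,0,
  ⟨0,[(31,0),(2,0),(4,0)]⟩,⟨0,[(2,0)]⟩⟩,.o ⟨false,1,⟨23,[(14,1),(9,3),(0,9),(10,11),(5,8),(6,12)]⟩,
  ⟨0,[(35,0)]⟩⟩,.o ⟨false,1,⟨1,[(32,1),(9,0),(5,0)]⟩,⟨0,[(25,0),(5,0),(2,0),(0,0)]⟩⟩,.e ⟨false,0,⟨1,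
  [(0,1),(16,0),(13,1),(1,0),(0,0)]⟩,⟨1,[(30,0),(6,0),(0,0),(10,0)]⟩⟩ ⟨false,1,⟨23,[(14,1),(9,3),(0,
  9),(5,23),(4,11),(5,8),(6,12)]⟩,⟨0,[(2,0)]⟩⟩]⟩))))) (.Q [0,0,0,0,0,0,1,1,0,0,-1,1] (.p false [0,0,
  1] [0,0,0,1] (⟨0,[(37,0)]⟩,⟨0,[(36,0)]⟩) .k 2 (⟨0,[(28,0)]⟩,⟨0,[(27,0)]⟩) .k (.x (-1) ⟨39,[(9,7),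
  (9,15),(4,3),(0,12),(0,12),(11,1),(5,11)]⟩ ⟨3,[(12,1),(20,0),(0,0),(5,1)]⟩)) (.I [0,-1,0,0,0,0,0,
  0,1] (.Q [0,0,0,0,0,-1,0,0,0,1,0,-1] (.ed true [0,1,0,1] .k) (.R ⟨1,false,false,false,[1,0,0,-1],
  [1,0,-1],[1,1,0,0,0,0,0,0,-1],(⟨0,[(30,0)]⟩,⟨0,[(31,0)]⟩),(⟨0,[(39,0)]⟩,⟨0,[(40,0)]⟩),⟨0,[(0,0)]⟩,
  .k,.k,(.x (-1) ⟨15,[(12,3),(7,3),(7,6),(0,6),(11,1)]⟩ ⟨0,[(43,0)]⟩),.k,(.r (-1) ⟨1,[(4,0),(23,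
  0)]⟩ ⟨0,[(3,0),(34,1)]⟩),.k,⟨false,1,⟨1,[(4,0),(23,0),(16,1)]⟩,⟨0,[(1,0),(36,0)]⟩⟩,⟨true,0,⟨0,
  [(30,0),(2,0)]⟩,⟨0,[(2,0),(35,0)]⟩⟩,⟨false,0,⟨0,[]⟩,⟨3,[(28,0),(0,0),(18,1)]⟩⟩,⟨false,0,⟨0,[(1,0),
  (28,0),(2,0),(4,0)]⟩,⟨1,[(2,1),(25,0),(18,0)]⟩⟩,⟨true,0,⟨0,[(45,0)]⟩,⟨0,[(46,0)]⟩⟩,⟨false,0,⟨3,
  [(1,2),(1,0),(6,2),(19,3),(2,0),(4,1),(5,1)]⟩,⟨5,[(2,5),(13,1),(1,1),(9,2),(19,0)]⟩⟩,[.a ⟨true,0,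
  ⟨6,[(7,1),(8,1),(0,0),(5,1),(0,1),(10,1)]⟩,⟨1,[(8,0),(21,0),(0,0)]⟩⟩ ⟨false,1,⟨15,[(16,3),(1,3),
  (9,8),(0,0),(15,11),(1,1)]⟩,⟨0,[(1,0)]⟩⟩ ⟨true,0,⟨0,[(30,0),(2,0),(4,0)]⟩,⟨0,[(2,0)]⟩⟩,.o ⟨false,
  1,⟨23,[(13,1),(9,3),(0,9),(10,11),(5,8),(6,12)]⟩,⟨0,[(34,0)]⟩⟩,.o ⟨false,1,⟨1,[(31,1),(9,0),(5,
  0)]⟩,⟨0,[(24,0),(5,0),(2,0),(0,0)]⟩⟩,.e ⟨false,1,⟨1,[(28,0),(18,0)]⟩,⟨1,[(1,1),(34,0),(0,0)]⟩⟩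
  ⟨false,1,⟨23,[(13,1),(9,3),(0,9),(5,23),(4,11),(5,8),(6,12)]⟩,⟨0,[(2,0)]⟩⟩]⟩) (.R ⟨0,false,false,
  false,[1,0,0,-1],[1,0,-1],[0,1,0,0,0,0,0,0,-1],(⟨0,[(30,0)]⟩,⟨0,[(31,0)]⟩),(⟨0,[(39,0)]⟩,⟨0,[(40,
  0)]⟩),⟨0,[(0,0)]⟩,.k,.k,(.x (-1) ⟨15,[(12,3),(7,3),(7,6),(0,6),(11,1)]⟩ ⟨0,[(43,0)]⟩),.k,.k,.k,
  ⟨false,1,⟨1,[(4,0),(23,0),(16,1)]⟩,⟨0,[(1,0),(36,0)]⟩⟩,⟨true,0,⟨0,[(30,0),(2,0)]⟩,⟨5,[(0,3),(11,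
  0),(7,0),(6,2),(3,1)]⟩⟩,⟨true,0,⟨0,[(50,0)]⟩,⟨0,[]⟩⟩,⟨false,0,⟨0,[(1,0),(28,0),(2,0),(4,0)]⟩,⟨1,
  [(2,1),(25,0),(18,0)]⟩⟩,⟨false,0,⟨0,[]⟩,⟨0,[]⟩⟩,⟨false,0,⟨0,[]⟩,⟨0,[]⟩⟩,[.a ⟨true,0,⟨6,[(7,1),(8,
  1),(0,0),(5,1),(0,1),(10,1)]⟩,⟨1,[(8,0),(21,0),(0,0)]⟩⟩ ⟨false,1,⟨15,[(16,3),(1,3),(9,8),(0,0),
  (15,11),(1,1)]⟩,⟨0,[(1,0)]⟩⟩ ⟨true,0,⟨0,[(30,0),(2,0),(4,0)]⟩,⟨0,[(2,0)]⟩⟩,.o ⟨false,1,⟨23,[(13,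
  1),(9,3),(0,9),(10,11),(5,8),(6,12)]⟩,⟨0,[(34,0)]⟩⟩,.o ⟨false,1,⟨1,[(31,1),(9,0),(5,0)]⟩,⟨0,[(24,
  0),(5,0),(2,0),(0,0)]⟩⟩,.e ⟨false,1,⟨1,[(28,0),(18,0)]⟩,⟨1,[(1,1),(34,0),(0,0)]⟩⟩ ⟨false,1,⟨23,
  [(13,1),(9,3),(0,9),(5,23),(4,11),(5,8),(6,12)]⟩,⟨0,[(2,0)]⟩⟩]⟩)) (.R ⟨1,false,false,false,[0,0,0,
  1],[0,-1,1],[0,1,0,-1,0,0,0,0,1],(⟨0,[(30,0)]⟩,⟨0,[(29,0)]⟩),(⟨1,[(11,0),(27,0)]⟩,⟨0,[(38,0),(3,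
  0)]⟩),⟨9,[(1,4),(2,0),(4,0),(1,3),(2,1),(0,1),(7,1),(6,4)]⟩,.k,.k,(.r (-1) ⟨5,[(15,1),(1,1),(10,
  2),(18,0)]⟩ ⟨2,[(0,2),(3,0),(27,0),(2,0),(7,0)]⟩),(.r 0 ⟨0,[(2,0),(34,1)]⟩ ⟨1,[(3,0),(23,0)]⟩),.k,
  .k,⟨false,0,⟨4,[(2,4),(1,0),(4,1),(5,4),(7,0),(2,0),(10,1)]⟩,⟨25,[(0,15),(2,8),(0,5),(2,5),(0,11),
  (14,3),(3,4),(15,15)]⟩⟩,⟨true,0,⟨0,[(1,0),(35,0)]⟩,⟨0,[(29,0),(2,0)]⟩⟩,⟨false,0,⟨0,[(45,0)]⟩,⟨11,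
  [(4,3),(22,2),(0,2),(11,1),(6,3)]⟩⟩,⟨false,1,⟨1,[(1,1),(1,0),(19,1),(3,0)]⟩,⟨0,[(2,0),(20,0),(5,
  0),(1,0)]⟩⟩,⟨true,0,⟨0,[(49,0)]⟩,⟨0,[]⟩⟩,⟨false,1,⟨12,[(0,0),(0,12),(1,2),(0,1),(2,1),(0,3),(14,
  9),(3,5),(15,0)]⟩,⟨1,[(2,1),(12,0),(7,1),(5,1),(1,0),(0,0)]⟩⟩,[.a ⟨true,0,⟨2,[(6,0),(0,1),(7,0),
  (20,0),(8,1)]⟩,⟨6,[(6,0),(8,0),(0,3),(5,0),(0,0),(10,0)]⟩⟩ ⟨true,0,⟨0,[(2,0),(12,0)]⟩,⟨0,[(0,0),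
  (17,0),(4,0)]⟩⟩ ⟨false,1,⟨5,[(1,5),(13,1),(1,1),(28,2),(0,0)]⟩,⟨10,[(9,8),(6,0),(5,1),(6,10),(4,
  0),(0,3),(7,4)]⟩⟩,.o ⟨false,1,⟨1,[(3,0),(31,1),(11,0)]⟩,⟨0,[(9,0)]⟩⟩,.o ⟨false,0,⟨0,[(23,0),(5,0),
  (2,0),(0,0)]⟩,⟨1,[(30,1),(9,0),(5,0)]⟩⟩,.o ⟨false,0,⟨0,[(29,0),(2,0),(2,0)]⟩,⟨13,[(1,11),(6,7),(0,
  3),(5,1),(7,5),(6,1),(9,0),(5,4)]⟩⟩]⟩)) (.I [0,0,0,-1,0,0,0,0,-1] (.R ⟨1,false,false,true,[1,0,0,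
  -1],[0,1],[0,1,0,-1,0,0,0,0,-1],(⟨0,[(29,0)]⟩,⟨0,[(30,0)]⟩),(⟨0,[(42,0)]⟩,⟨0,[(41,0)]⟩),⟨3,[(1,1),
  (5,0),(3,0),(7,0),(9,1)]⟩,.k,.k,(.x (-1) ⟨15,[(11,3),(7,3),(7,6),(0,6),(11,1)]⟩ ⟨0,[(42,0)]⟩),(.x
  (-1) ⟨15,[(11,3),(7,3),(7,6),(0,6),(11,1)]⟩ ⟨0,[(42,0)]⟩),(.r (-1) ⟨5,[(0,3),(14,1),(1,3),(5,1),
  (3,0),(18,0)]⟩ ⟨5,[(2,5),(13,2),(17,1),(0,4),(1,0),(5,0)]⟩),.k,⟨false,1,⟨5,[(0,3),(14,1),(1,3),(5,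
  1),(3,0),(18,0)]⟩,⟨4,[(2,4),(1,0),(4,1),(13,0),(2,0),(10,1)]⟩⟩,⟨true,0,⟨0,[(29,0)]⟩,⟨0,[(23,0),(6,
  0),(1,0),(0,0)]⟩⟩,⟨false,0,⟨0,[(45,0)]⟩,⟨11,[(4,3),(22,2),(0,2),(11,1),(6,3)]⟩⟩,⟨false,0,⟨0,[(2,
  0),(26,0),(7,0)]⟩,⟨13,[(0,13),(6,3),(0,7),(14,7),(6,13),(9,4),(2,1),(3,0)]⟩⟩,⟨true,0,⟨0,[(49,0)]⟩,
  ⟨0,[]⟩⟩,⟨false,0,⟨1,[(1,0),(0,1),(13,0),(9,0),(2,0)]⟩,⟨1,[(0,1),(2,0),(19,1),(6,1),(9,0)]⟩⟩,[.o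
  ⟨false,0,⟨0,[(44,0)]⟩,⟨1,[(40,0),(4,1),(1,0)]⟩⟩,.a ⟨true,0,⟨5,[(4,0),(1,2),(0,1),(26,3)]⟩,⟨0,[(45,
  0)]⟩⟩ ⟨true,0,⟨0,[(0,0)]⟩,⟨0,[(2,0),(34,0)]⟩⟩ ⟨false,0,⟨3,[(1,0),(2,0),(15,0),(8,2)]⟩,⟨5,[(15,1),
  (1,1),(12,5),(9,2),(6,0)]⟩⟩,.o ⟨false,1,⟨1,[(30,1),(9,0),(5,0)]⟩,⟨1,[(1,1),(5,0),(24,0),(2,0)]⟩⟩,
  .e ⟨false,1,⟨5,[(15,1),(1,1),(9,2),(19,0)]⟩,⟨0,[(2,0),(20,0)]⟩⟩ ⟨false,0,⟨3,[(1,0),(2,0),(15,0),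
  (8,2)]⟩,⟨1,[(30,1),(9,0),(4,1),(1,0)]⟩⟩]⟩) (.R ⟨1,false,false,false,[1,0,0,-1],[1,0,-1],[0,0,0,-1,
  0,0,0,0,-1],(⟨0,[(29,0)]⟩,⟨0,[(30,0)]⟩),(⟨0,[(38,0)]⟩,⟨0,[(39,0)]⟩),⟨3,[(1,1),(5,0),(3,0),(7,0),
  (9,1)]⟩,.k,.k,(.x (-1) ⟨15,[(11,3),(7,3),(7,6),(0,6),(11,1)]⟩ ⟨0,[(42,0)]⟩),.k,(.r (-1) ⟨1,[(3,0),
  (23,0)]⟩ ⟨0,[(2,0),(34,1)]⟩),.k,⟨false,1,⟨1,[(3,0),(23,0)]⟩,⟨0,[(0,0),(36,0)]⟩⟩,⟨true,0,⟨0,[(29,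
  0),(2,0)]⟩,⟨0,[(23,0),(6,0),(2,0)]⟩⟩,⟨true,0,⟨0,[(45,0)]⟩,⟨0,[(44,0)]⟩⟩,⟨false,0,⟨3,[(0,0),(0,3),
  (0,2),(12,1),(21,0),(5,2)]⟩,⟨1,[(7,0),(2,0),(9,0),(2,0),(3,0),(2,1)]⟩⟩,⟨false,1,⟨3,[(27,0),(0,0),
  (18,1)]⟩,⟨0,[]⟩⟩,⟨false,0,⟨1,[(0,0),(0,1),(0,0),(34,0),(5,0)]⟩,⟨3,[(7,1),(2,1),(4,0),(7,0),(3,1),
  (2,3),(2,1),(9,0)]⟩⟩,[.e ⟨false,1,⟨5,[(15,1),(1,1),(9,2),(19,0)]⟩,⟨0,[(0,0)]⟩⟩ ⟨false,0,⟨0,[(1,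
  0)]⟩,⟨7,[(7,3),(19,0),(0,0),(1,7),(9,1),(5,3)]⟩⟩,.o ⟨false,1,⟨23,[(12,1),(9,3),(0,9),(10,11),(5,
  8),(6,12)]⟩,⟨0,[(33,0)]⟩⟩,.o ⟨false,1,⟨1,[(30,1),(9,0),(5,0)]⟩,⟨1,[(1,1),(5,0),(24,0),(2,0)]⟩⟩,.a
  ⟨true,0,⟨0,[(30,0)]⟩,⟨0,[(29,0)]⟩⟩ ⟨false,1,⟨1,[(3,0),(19,1),(3,0)]⟩,⟨0,[(2,0),(34,0)]⟩⟩ ⟨true,0,
  ⟨0,[(1,0)]⟩,⟨0,[(30,0),(2,0)]⟩⟩]⟩))))))) (.I [0,0,2,2,-1,0,0,-2] (.R ⟨1,false,false,false,[0,0,1],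
  [1,1,-1],[1],(⟨0,[(34,0)]⟩,⟨0,[(33,0)]⟩),(⟨0,[(33,0),(3,0)]⟩,⟨1,[(6,0),(27,0)]⟩),⟨1,[(6,0),(27,
  0)]⟩,.k,.k,.k,(.r (-1) ⟨9,[(2,5),(9,7),(4,5),(4,0),(0,0),(16,1)]⟩ ⟨3,[(0,1),(21,0),(0,0),(8,3)]⟩),
  (.r (-2) ⟨4,[(2,1),(9,5),(4,1),(4,1),(0,1),(16,3)]⟩ ⟨0,[(0,0)]⟩),.k,⟨false,1,⟨0,[(12,0)]⟩,⟨3,[(0,
  1),(21,0),(0,0)]⟩⟩,⟨true,1,⟨9,[(7,5),(0,1),(3,1),(4,3),(4,0),(0,0)]⟩,⟨0,[(0,0),(1,0),(37,1)]⟩⟩,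
  ⟨false,0,⟨0,[(18,0)]⟩,⟨4,[(2,0),(5,0),(3,0),(4,0),(4,1),(0,1)]⟩⟩,⟨false,1,⟨19,[(0,9),(6,11),(9,3),
  (4,0),(0,0),(5,7),(5,1),(6,13)]⟩,⟨0,[(2,0),(37,0)]⟩⟩,⟨true,0,⟨1,[(0,0),(40,0)]⟩,⟨0,[(8,0),(1,
  0)]⟩⟩,⟨false,1,⟨21,[(0,9),(6,11),(3,11),(5,3),(4,2),(0,2),(11,2),(6,10)]⟩,⟨0,[(2,0),(37,1)]⟩⟩,[.a
  ⟨true,0,⟨5,[(10,0),(0,3),(5,0),(0,0),(5,0),(0,0)]⟩,⟨1,[(2,0),(21,0),(0,0),(14,1)]⟩⟩ ⟨true,0,⟨0,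
  []⟩,⟨1,[(30,0),(0,0)]⟩⟩ ⟨false,1,⟨49,[(7,29),(0,1),(2,23),(5,7),(4,6),(0,6),(11,5)]⟩,⟨7,[(2,5),(7,
  3),(10,1),(8,0),(0,0),(6,1)]⟩⟩,.o ⟨false,1,⟨43,[(0,9),(6,11),(3,11),(5,3),(4,2),(0,2),(11,13),(6,
  21)]⟩,⟨3,[(1,1),(0,1),(7,0),(17,0),(2,0)]⟩⟩,.o ⟨false,0,⟨5,[(1,1),(0,0),(12,1),(2,3),(2,0)]⟩,⟨39,
  [(7,5),(0,1),(3,1),(4,13),(4,10),(0,10),(11,9)]⟩⟩,.o ⟨false,0,⟨0,[(30,0)]⟩,⟨39,[(7,17),(0,5),(3,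
  5),(4,1),(4,2),(0,2),(11,9)]⟩⟩]⟩) (.Q [0,1,-1,0,0,0,0,0,-1,0,0,1] (.p true [0,0,0,1] [] (⟨0,[(25,
  0)]⟩,⟨0,[(24,0)]⟩) .k 0 (⟨0,[]⟩,⟨0,[]⟩) .k .k) (.Q [0,1,1,0,0,0,0,0,1,0,0,-1] (.p false [0,0,0,1]
  [] (⟨0,[(26,0)]⟩,⟨0,[(25,0)]⟩) .k 0 (⟨0,[]⟩,⟨0,[]⟩) .k .k) (.K ⟨0,[0,0,0,1],0,0,(⟨0,[(27,0)]⟩,⟨0,
  [(26,0)]⟩),.k,(.r (-1) ⟨5,[(12,1),(1,1),(10,2),(18,0)]⟩ ⟨1,[(1,1),(4,0),(10,0),(8,1),(2,0),(2,0),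
  (7,1)]⟩),(.x 0 ⟨0,[(39,0)]⟩ ⟨15,[(8,3),(7,3),(7,6),(0,6),(11,1)]⟩),.k,.k,[⟨0,[(27,0)]⟩,⟨0,[(26,
  0)]⟩,⟨0,[(1,0)]⟩,⟨0,[(0,0)]⟩]⟩) (.Q [0,0,0,-1,0,0,-1,-1,0,-1,1,1] (.p true [0,0,1] [1,0,0,-1] (⟨0,
  [(36,0)]⟩,⟨0,[(35,0)]⟩) .k 2 (⟨0,[(26,0)]⟩,⟨0,[(27,0)]⟩) .k (.r (-1) ⟨5,[(2,0),(7,1),(13,0),(0,
  3)]⟩ ⟨0,[(0,0),(25,0),(1,0),(3,0)]⟩)) (.Q [0,0,0,0,0,-1,0,0,0,1,0,-1] (.ed true [0,1,0,1] .k) (.I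
  [0,-1,-1,-1,0,0,0,0,-1] (.I [1,0,-1,0,0,0,0,1,-1] (.R ⟨1,false,false,false,[1,0,0,-1],[0,1,1],[0,
  0,0,-1,0,0,0,0,-1],(⟨0,[(30,0)]⟩,⟨0,[(31,0)]⟩),(⟨0,[(40,0),(2,0)]⟩,⟨0,[(25,0)]⟩),⟨0,[(2,0)]⟩,.k,
  .k,(.x (-1) ⟨15,[(12,3),(7,3),(7,6),(0,6),(11,1)]⟩ ⟨0,[(43,0)]⟩),(.r 0 ⟨3,[(1,2),(3,0),(4,0),(5,
  0),(13,0),(5,0),(1,1)]⟩ ⟨19,[(14,11),(2,3),(10,4),(0,14),(6,5),(0,1)]⟩),(.r 0 ⟨0,[(0,0),(15,0),(7,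
  0)]⟩ ⟨19,[(14,15),(2,11),(10,4),(0,14),(6,17),(0,5)]⟩),.k,⟨false,0,⟨0,[(0,0),(15,0),(7,0)]⟩,⟨3,
  [(14,1),(2,1),(1,0),(1,0),(6,0),(0,2),(6,0)]⟩⟩,⟨true,0,⟨5,[(7,1),(0,0),(12,1),(2,3),(2,0),(2,5)]⟩,
  ⟨0,[(31,0),(1,0)]⟩⟩,⟨true,0,⟨0,[(46,0)]⟩,⟨0,[(45,0)]⟩⟩,⟨false,1,⟨1,[(19,0),(1,0),(7,0),(0,1),(5,
  0),(11,0)]⟩,⟨2,[(1,1),(1,1),(1,0),(4,0)]⟩⟩,⟨false,1,⟨3,[(28,0),(0,0),(18,1)]⟩,⟨0,[]⟩⟩,⟨false,1,⟨5,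
  [(17,1),(1,4),(1,2),(5,1),(1,2),(0,5),(5,0),(4,0),(6,1)]⟩,⟨2,[(1,1),(1,1),(1,0),(10,0),(16,0)]⟩⟩,
  [.a ⟨true,0,⟨3,[(8,2),(8,1),(12,0),(0,0)]⟩,⟨0,[(3,0),(26,0)]⟩⟩ ⟨false,0,⟨2,[(1,1),(3,0),(1,0),(22,
  0)]⟩,⟨5,[(17,1),(3,1),(6,0),(0,3),(18,0)]⟩⟩ ⟨true,0,⟨1,[(19,0),(1,0),(8,1),(5,0)]⟩,⟨0,[(3,0)]⟩⟩,
  .o ⟨false,1,⟨0,[(21,0),(26,0)]⟩,⟨1,[(16,0),(15,0),(0,0)]⟩⟩,.o ⟨false,1,⟨1,[(4,0),(0,0),(23,0),(11,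
  0)]⟩,⟨3,[(7,1),(2,0),(10,0),(8,3),(2,0),(2,0),(7,1)]⟩⟩,.e ⟨false,0,⟨0,[(1,0)]⟩,⟨19,[(14,3),(2,7),
  (10,4),(0,14),(6,11),(0,3)]⟩⟩ ⟨false,1,⟨0,[(21,0),(8,0),(17,0)]⟩,⟨0,[(3,0)]⟩⟩]⟩) (.R ⟨1,false,
  false,false,[1,0,0,-1],[0,1,1],[1,1,0,0,0,0,0,0,-1],(⟨0,[(30,0)]⟩,⟨0,[(31,0)]⟩),(⟨0,[(40,0),(2,
  0)]⟩,⟨0,[(25,0)]⟩),⟨0,[(2,0)]⟩,.k,.k,(.x (-1) ⟨15,[(12,3),(7,3),(7,6),(0,6),(11,1)]⟩ ⟨0,[(43,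
  0)]⟩),(.r 0 ⟨3,[(1,2),(3,0),(4,0),(5,0),(13,0),(5,0),(1,1)]⟩ ⟨23,[(0,3),(13,15),(2,3),(10,6),(0,
  16),(6,3)]⟩),(.x 0 ⟨0,[(20,0),(12,0)]⟩ ⟨7,[(22,3),(5,2),(0,2),(13,11),(3,1)]⟩),.k,⟨false,0,⟨8,[(1,
  7),(3,0),(4,0),(5,8),(0,4),(3,5),(8,0)]⟩,⟨3,[(19,3),(8,0),(0,2)]⟩⟩,⟨true,0,⟨5,[(7,1),(0,0),(12,1),
  (2,3),(2,0),(2,5)]⟩,⟨0,[(31,0),(1,0)]⟩⟩,⟨false,0,⟨0,[]⟩,⟨3,[(28,0),(0,0),(18,1)]⟩⟩,⟨false,1,⟨1,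
  [(19,0),(1,0),(7,0),(0,1),(5,0),(11,0)]⟩,⟨2,[(1,1),(1,1),(1,0),(4,0)]⟩⟩,⟨true,0,⟨0,[(45,0)]⟩,⟨0,
  [(46,0)]⟩⟩,⟨false,1,⟨5,[(17,1),(1,4),(1,2),(5,1),(1,2),(0,5),(5,0),(4,0),(6,1)]⟩,⟨2,[(1,1),(1,1),
  (1,0),(10,0),(16,0)]⟩⟩,[.a ⟨true,0,⟨3,[(8,2),(8,1),(12,0),(0,0)]⟩,⟨0,[(3,0),(26,0)]⟩⟩ ⟨false,0,⟨8,
  [(1,3),(3,4),(1,1),(2,2),(10,2),(8,4)]⟩,⟨1,[(29,0),(18,0)]⟩⟩ ⟨true,0,⟨1,[(19,0),(1,0),(8,1),(5,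
  0)]⟩,⟨0,[(3,0)]⟩⟩,.o ⟨false,1,⟨0,[(21,0),(26,0)]⟩,⟨1,[(16,0),(15,0),(0,0)]⟩⟩,.o ⟨false,1,⟨1,[(4,
  0),(0,0),(23,0),(11,0)]⟩,⟨3,[(7,1),(2,0),(10,0),(8,3),(2,0),(2,0),(7,1)]⟩⟩,.e ⟨false,0,⟨8,[(1,6),
  (3,1),(4,1),(6,0),(3,2),(8,1)]⟩,⟨1,[(29,0),(6,0),(0,0),(10,0)]⟩⟩ ⟨false,1,⟨0,[(21,0),(8,0),(17,
  0)]⟩,⟨0,[(3,0)]⟩⟩]⟩)) (.R ⟨1,false,false,false,[1,0,0,-1],[1,1,-1],[0,1,0,-1,0,0,0,0,-1],(⟨0,[(29,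
  0)]⟩,⟨0,[(30,0)]⟩),(⟨0,[(38,0),(3,0)]⟩,⟨1,[(11,0),(27,0)]⟩),⟨0,[(1,0)]⟩,.k,.k,(.x (-1) ⟨15,[(11,
  3),(7,3),(7,6),(0,6),(11,1)]⟩ ⟨0,[(42,0)]⟩),(.x 0 ⟨24,[(6,3),(4,14),(8,3),(0,4),(1,3),(2,3),(8,2),
  (7,1)]⟩ ⟨7,[(14,3),(12,2),(0,2),(13,11),(3,1)]⟩),(.r (-1) ⟨7,[(3,3),(1,4),(0,1),(8,1),(11,1),(1,
  3),(10,0)]⟩ ⟨1,[(0,1),(15,0),(18,0),(1,0),(5,0)]⟩),.k,⟨true,0,⟨0,[(3,0),(2,0),(6,0),(1,0),(13,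
  0)]⟩,⟨6,[(0,6),(15,2),(3,0),(2,4),(11,1),(7,4)]⟩⟩,⟨false,1,⟨11,[(5,0),(6,5),(0,1),(13,0),(0,0),(0,
  11),(10,2)]⟩,⟨3,[(2,1),(4,0),(12,1),(2,1),(2,0),(3,1)]⟩⟩,⟨false,0,⟨0,[(45,0)]⟩,⟨5,[(16,1),(3,1),
  (6,0),(0,0),(18,3)]⟩⟩,⟨false,1,⟨2,[(0,0),(8,1),(18,0),(0,2),(2,0),(4,0),(5,0),(3,1)]⟩,⟨3,[(3,2),
  (0,0),(1,1),(0,1),(37,1)]⟩⟩,⟨true,0,⟨0,[(49,0)]⟩,⟨0,[]⟩⟩,⟨false,1,⟨3,[(0,1),(8,1),(6,1),(11,0),(0,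
  3),(10,0),(2,1),(3,1)]⟩,⟨3,[(3,2),(0,0),(1,1),(0,1),(37,5)]⟩⟩,[.a ⟨true,0,⟨2,[(2,0),(13,1),(12,
  0)]⟩,⟨1,[(7,0),(21,0),(0,0),(14,1)]⟩⟩ ⟨false,0,⟨1,[(3,0),(0,0),(1,1),(22,1)]⟩,⟨21,[(7,1),(0,1),(7,
  7),(3,5),(2,1),(4,10),(14,3),(3,8)]⟩⟩ ⟨true,0,⟨10,[(9,8),(6,0),(5,1),(6,10),(4,0),(0,3),(7,4)]⟩,
  ⟨0,[(2,0),(4,0)]⟩⟩,.o ⟨false,1,⟨0,[(9,0),(37,0)]⟩,⟨3,[(6,1),(0,1),(7,0),(17,0),(2,0)]⟩⟩,.o ⟨false,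
  1,⟨1,[(3,0),(0,0),(23,0),(11,0)]⟩,⟨3,[(6,1),(2,0),(10,0),(8,3),(2,0),(2,0),(7,1)]⟩⟩,.e ⟨false,0,
  ⟨0,[(3,0),(2,0),(22,0)]⟩,⟨0,[(0,0),(46,0)]⟩⟩ ⟨false,1,⟨0,[(9,0),(19,0),(17,0)]⟩,⟨0,[(2,0),(4,
  0)]⟩⟩]⟩)) (.I [1,0,-1,-2,0,0,0,1,-1] (.R ⟨0,false,false,false,[1,0,0,-1],[1,0,-1],[0,1,0,0,0,0,0,
  0,-1],(⟨0,[(29,0)]⟩,⟨0,[(30,0)]⟩),(⟨0,[(38,0)]⟩,⟨0,[(39,0)]⟩),⟨0,[(1,0)]⟩,.k,.k,(.x (-1) ⟨15,[(11,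
  3),(7,3),(7,6),(0,6),(11,1)]⟩ ⟨0,[(42,0)]⟩),.k,.k,.k,⟨false,0,⟨8,[(0,7),(3,0),(4,0),(6,3),(3,5),
  (4,0),(3,0)]⟩,⟨1,[(28,0),(8,1),(9,0)]⟩⟩,⟨true,0,⟨0,[(29,0),(2,0)]⟩,⟨5,[(1,3),(9,0),(7,0),(6,2),(3,
  1)]⟩⟩,⟨true,0,⟨0,[(49,0)]⟩,⟨0,[]⟩⟩,⟨false,1,⟨1,[(28,0),(0,1),(2,1),(4,1),(9,0)]⟩,⟨5,[(3,4),(0,0),
  (1,1),(0,1),(12,1)]⟩⟩,⟨false,0,⟨0,[]⟩,⟨0,[]⟩⟩,⟨false,0,⟨0,[]⟩,⟨0,[]⟩⟩,[.a ⟨true,0,⟨2,[(2,1),(13,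
  0),(12,1)]⟩,⟨1,[(7,0),(21,0),(0,0)]⟩⟩ ⟨false,0,⟨3,[(0,1),(2,0),(0,0),(4,2),(10,0),(5,0),(2,1)]⟩,
  ⟨1,[(28,0),(18,0)]⟩⟩ ⟨true,0,⟨0,[(29,0),(2,0),(4,0)]⟩,⟨5,[(1,3),(5,2),(3,0),(7,0),(10,1)]⟩⟩,.o
  ⟨false,1,⟨23,[(12,1),(9,3),(0,9),(10,11),(5,8),(6,12)]⟩,⟨0,[(33,0)]⟩⟩,.o ⟨false,1,⟨1,[(3,0),(0,0),
  (23,0),(11,0)]⟩,⟨3,[(6,1),(2,0),(10,0),(8,3),(2,0),(2,0),(7,1)]⟩⟩,.e ⟨false,0,⟨1,[(0,0),(2,0),(5,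
  0),(10,0),(2,0),(5,0)]⟩,⟨1,[(28,0),(6,0),(0,0),(10,0)]⟩⟩ ⟨false,1,⟨23,[(12,1),(9,3),(0,9),(5,23),
  (4,11),(5,8),(6,12)]⟩,⟨5,[(1,3),(5,2),(3,0),(7,0),(10,1)]⟩⟩]⟩) (.Q [0,0,1,0,0,0,0,0,1,1,0,-1] (.p
  false [0,0,0,1] [1] (⟨0,[(30,0)]⟩,⟨0,[(29,0)]⟩) .k 1 (⟨0,[]⟩,⟨0,[]⟩) .k .k) (.R ⟨2,true,false,
  false,[0,1],[1,0,0,-1],[0,1,1],(⟨0,[]⟩,⟨0,[]⟩),(⟨0,[(30,0)]⟩,⟨0,[(31,0)]⟩),⟨0,[]⟩,.k,.k,.k,(.x 0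
  ⟨0,[(43,0)]⟩ ⟨15,[(12,3),(7,3),(7,6),(0,6),(11,1)]⟩),.k,.k,⟨true,0,⟨0,[(0,0),(2,0),(17,0)]⟩,⟨3,
  [(4,3),(2,1),(2,0),(10,0),(8,3),(2,0),(2,0),(7,1)]⟩⟩,⟨false,1,⟨1,[(4,0),(0,0),(23,0),(11,0)]⟩,⟨0,
  [(30,0)]⟩⟩,⟨false,0,⟨0,[(46,0)]⟩,⟨9,[(1,3),(12,1),(13,1),(18,2),(0,4)]⟩⟩,⟨true,0,⟨0,[(4,0),(2,
  0)]⟩,⟨0,[(0,0),(44,0)]⟩⟩,⟨true,0,⟨0,[(50,0)]⟩,⟨0,[]⟩⟩,⟨false,1,⟨1,[(4,0),(0,0),(35,0),(6,0)]⟩,⟨0,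
  [(0,0)]⟩⟩,[]⟩) (.R ⟨0,false,false,false,[1,0,0,-1],[1,1,-1],[1,1,1],(⟨0,[(30,0)]⟩,⟨0,[(31,0)]⟩),
  (⟨0,[(39,0),(3,0)]⟩,⟨1,[(12,0),(27,0)]⟩),⟨0,[(2,0)]⟩,.k,.k,(.x (-1) ⟨15,[(12,3),(7,3),(7,6),(0,6),
  (11,1)]⟩ ⟨0,[(43,0)]⟩),(.r (-1) ⟨1,[(6,0),(21,0)]⟩ ⟨0,[(1,0),(44,0)]⟩),.k,.k,⟨true,0,⟨0,[(14,0),
  (1,0)]⟩,⟨1,[(17,0),(18,0),(1,0),(5,0)]⟩⟩,⟨false,1,⟨11,[(6,0),(6,5),(0,1),(13,0),(0,0),(0,11),(10,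
  2)]⟩,⟨5,[(2,3),(9,0),(7,0),(6,2),(3,1)]⟩⟩,⟨true,0,⟨0,[(1,0),(6,0),(7,0),(6,0)]⟩,⟨0,[(0,0),(29,
  0)]⟩⟩,⟨false,1,⟨3,[(1,1),(21,1),(5,0),(0,3),(7,1),(2,0),(6,1)]⟩,⟨3,[(0,1),(3,0),(0,0),(2,1),(37,
  3)]⟩⟩,⟨false,0,⟨0,[]⟩,⟨0,[]⟩⟩,⟨false,0,⟨0,[]⟩,⟨0,[]⟩⟩,[.a ⟨true,0,⟨2,[(3,0),(13,1),(12,0)]⟩,⟨1,
  [(8,0),(21,0),(0,0),(14,1)]⟩⟩ ⟨false,0,⟨0,[(50,0)]⟩,⟨1,[(47,0),(0,0)]⟩⟩ ⟨true,0,⟨10,[(10,8),(6,0),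
  (5,1),(6,10),(4,0),(0,3),(7,4)]⟩,⟨0,[(3,0),(4,0)]⟩⟩,.o ⟨false,1,⟨0,[(10,0),(37,0)]⟩,⟨3,[(7,1),(0,
  1),(7,0),(17,0),(2,0)]⟩⟩,.o ⟨false,1,⟨3,[(0,1),(4,1),(23,1),(11,0),(6,0)]⟩,⟨3,[(7,1),(2,0),(10,0),
  (8,3),(2,0),(2,0),(7,1)]⟩⟩,.e ⟨false,0,⟨0,[]⟩,⟨3,[(28,0),(0,0),(18,1)]⟩⟩ ⟨false,1,⟨0,[(10,0),(19,
  0),(17,0)]⟩,⟨0,[(3,0),(4,0)]⟩⟩]⟩)))) (.R ⟨1,false,false,false,[1,0,0,-1],[0,1,1],[1,1,0,0,0,0,0,0,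
  -1],(⟨0,[(27,0)]⟩,⟨0,[(28,0)]⟩),(⟨0,[(37,0),(2,0)]⟩,⟨0,[(22,0)]⟩),⟨4,[(0,1),(8,1),(2,0),(0,0),(7,
  0),(5,2)]⟩,.k,.k,(.x (-1) ⟨15,[(9,3),(7,3),(7,6),(0,6),(11,1)]⟩ ⟨0,[(40,0)]⟩),(.r 0 ⟨2,[(1,2),(2,
  1),(2,0),(5,0),(7,0),(5,2),(5,0)]⟩ ⟨19,[(11,11),(2,3),(10,4),(0,14),(6,5),(0,1)]⟩),(.x 0 ⟨0,[(17,
  0),(12,0)]⟩ ⟨7,[(19,3),(5,2),(0,2),(13,11),(3,1)]⟩),.k,⟨false,0,⟨2,[(0,1),(0,2),(2,0),(2,1),(5,2),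
  (13,0)]⟩,⟨3,[(16,3),(8,0),(0,2)]⟩⟩,⟨true,0,⟨2,[(0,1),(12,0),(7,0),(5,0),(5,0)]⟩,⟨0,[(28,0),(1,
  0)]⟩⟩,⟨false,0,⟨0,[]⟩,⟨3,[(25,0),(0,0),(18,1)]⟩⟩,⟨false,1,⟨7,[(0,3),(15,3),(8,0),(0,4),(0,3),(5,
  3),(11,1)]⟩,⟨1,[(1,1),(11,0),(15,0),(0,0)]⟩⟩,⟨true,0,⟨0,[(42,0)]⟩,⟨0,[(43,0)]⟩⟩,⟨false,1,⟨23,[(0,
  19),(13,7),(1,11),(8,2),(0,14),(0,3),(5,11),(11,5)]⟩,⟨0,[(1,0),(11,0),(16,0)]⟩⟩,[.e ⟨false,0,⟨5,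
  [(0,1),(0,2),(0,2),(1,3),(2,1),(19,3)]⟩,⟨1,[(26,0),(18,0)]⟩⟩ ⟨false,0,⟨0,[(0,0)]⟩,⟨39,[(10,11),(2,
  19),(6,3),(4,0),(0,0),(1,39),(3,7),(5,11),(6,13)]⟩⟩,.o ⟨false,1,⟨0,[(18,0),(26,0)]⟩,⟨1,[(13,0),
  (15,0),(0,0)]⟩⟩,.o ⟨false,1,⟨1,[(1,0),(0,0),(23,0),(11,0)]⟩,⟨8,[(0,1),(3,3),(2,1),(19,6),(2,2),(2,
  2),(7,2)]⟩⟩,.a ⟨true,0,⟨0,[(28,0)]⟩,⟨0,[(27,0)]⟩⟩ ⟨false,0,⟨2,[(0,0),(0,2),(2,1),(2,0),(19,1)]⟩,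
  ⟨1,[(26,0),(6,0),(0,0),(10,0)]⟩⟩ ⟨true,0,⟨0,[(0,0)]⟩,⟨1,[(13,0),(14,1),(0,0),(0,0)]⟩⟩]⟩))) (.I [0,
  -1,0,0,0,0,0,-1,1] (.Q [0,0,0,0,0,-1,0,0,0,1,0,-1] (.ed true [0,1,0,1] .k) (.Q [0,0,0,0,0,0,-1,-1,
  0,0,1,-1] (.p true [0,0,1] [0,0,0,1] (⟨0,[(37,0)]⟩,⟨0,[(36,0)]⟩) .k 2 (⟨0,[(28,0)]⟩,⟨0,[(27,0)]⟩)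
  .k (.r (-1) ⟨5,[(3,0),(7,1),(13,3),(0,0)]⟩ ⟨0,[(1,0),(45,0)]⟩)) (.I [1,-1,0,1,0,0,0,-1,1] (.I [1,
  0,0,1,0,0,0,0,1] (.R ⟨1,false,false,false,[1,0,0,-1],[1,0,-1],[0,0,0,-1,0,0,0,0,-1],(⟨0,[(30,0)]⟩,
  ⟨0,[(31,0)]⟩),(⟨0,[(39,0)]⟩,⟨0,[(40,0)]⟩),⟨0,[(3,0)]⟩,.k,.k,(.x (-1) ⟨15,[(12,3),(7,3),(7,6),(0,
  6),(11,1)]⟩ ⟨0,[(43,0)]⟩),.k,(.r (-1) ⟨1,[(6,0),(21,0)]⟩ ⟨3,[(0,1),(0,1),(33,1),(0,2),(0,0)]⟩),.k,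
  ⟨false,1,⟨1,[(6,0),(21,0)]⟩,⟨11,[(0,5),(0,5),(8,1),(5,0),(10,1),(7,2),(0,0)]⟩⟩,⟨true,0,⟨0,[(30,0),
  (2,0)]⟩,⟨5,[(7,1),(0,0),(12,1),(2,3),(2,0),(3,5)]⟩⟩,⟨true,0,⟨0,[(46,0)]⟩,⟨0,[(45,0)]⟩⟩,⟨false,0,
  ⟨1,[(2,0),(1,0),(0,0),(31,0)]⟩,⟨11,[(7,1),(0,6),(0,5),(11,1),(2,3),(2,0),(0,5),(2,11)]⟩⟩,⟨false,1,
  ⟨3,[(28,0),(0,0),(18,1)]⟩,⟨0,[]⟩⟩,⟨false,0,⟨2,[(1,0),(0,0),(2,1),(11,0),(19,0)]⟩,⟨11,[(6,0),(0,1),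
  (0,7),(2,3),(4,1),(7,3),(3,5),(2,11),(9,0)]⟩⟩,[.e ⟨false,1,⟨5,[(16,1),(1,1),(9,2),(19,0)]⟩,⟨0,[(0,
  0)]⟩⟩ ⟨false,0,⟨0,[(2,0)]⟩,⟨7,[(8,3),(19,0),(0,0),(1,7),(9,1),(5,3)]⟩⟩,.o ⟨false,1,⟨23,[(13,1),(9,
  3),(0,9),(10,11),(5,8),(6,12)]⟩,⟨0,[(34,0)]⟩⟩,.o ⟨false,1,⟨1,[(31,1),(9,0),(5,0)]⟩,⟨1,[(2,1),(5,
  0),(24,0),(2,0)]⟩⟩,.a ⟨true,0,⟨0,[(31,0)]⟩,⟨0,[(30,0)]⟩⟩ ⟨false,1,⟨1,[(6,0),(17,1),(3,0)]⟩,⟨1,[(0,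
  1),(35,0),(0,0)]⟩⟩ ⟨true,0,⟨0,[(2,0)]⟩,⟨0,[(31,0),(2,0)]⟩⟩]⟩) (.R ⟨1,false,false,false,[1,0,0,-1],
  [1,0,-1],[1,0,0,0,0,0,0,0,-1],(⟨0,[(30,0)]⟩,⟨0,[(31,0)]⟩),(⟨0,[(39,0)]⟩,⟨0,[(40,0)]⟩),⟨0,[(3,0)]⟩,
  .k,.k,(.x (-1) ⟨15,[(12,3),(7,3),(7,6),(0,6),(11,1)]⟩ ⟨0,[(43,0)]⟩),.k,(.r (-1) ⟨1,[(6,0),(21,
  0)]⟩ ⟨1,[(1,0),(3,0),(25,0),(3,0),(0,0),(8,0)]⟩),.k,⟨false,1,⟨10,[(0,0),(5,2),(1,2),(0,2),(4,0),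
  (2,2),(10,4)]⟩,⟨0,[(4,0),(45,0)]⟩⟩,⟨true,0,⟨0,[(30,0),(2,0)]⟩,⟨5,[(7,1),(0,0),(12,1),(2,3),(2,0),
  (3,5)]⟩⟩,⟨true,0,⟨0,[]⟩,⟨0,[(50,0)]⟩⟩,⟨false,0,⟨1,[(2,0),(1,0),(0,0),(31,0)]⟩,⟨11,[(0,1),(7,5),(0,
  5),(11,1),(2,1),(2,1),(0,4),(2,11),(9,0)]⟩⟩,⟨false,1,⟨5,[(17,1),(3,1),(6,0),(0,0),(18,3)]⟩,⟨0,
  [(46,0)]⟩⟩,⟨false,0,⟨2,[(1,0),(0,0),(2,1),(11,0),(19,0)]⟩,⟨3,[(0,1),(7,0),(9,1),(8,0),(0,0),(2,3),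
  (9,0)]⟩⟩,[.e ⟨false,1,⟨1,[(28,0),(18,0)]⟩,⟨0,[(1,0),(12,0),(1,0)]⟩⟩ ⟨false,0,⟨0,[(2,0)]⟩,⟨7,[(8,
  3),(19,0),(0,0),(1,7),(9,1),(5,3)]⟩⟩,.o ⟨false,1,⟨23,[(13,1),(9,3),(0,9),(10,11),(5,8),(6,12)]⟩,
  ⟨0,[(34,0)]⟩⟩,.o ⟨false,1,⟨1,[(31,1),(9,0),(5,0)]⟩,⟨2,[(0,0),(1,0),(2,0),(15,0),(8,0),(2,0),(2,
  0)]⟩⟩,.a ⟨true,0,⟨0,[(31,0)]⟩,⟨0,[(30,0)]⟩⟩ ⟨false,1,⟨9,[(0,3),(7,1),(0,1),(7,1),(6,1),(3,2),(15,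
  3),(2,4)]⟩,⟨0,[(5,0),(25,0),(18,0)]⟩⟩ ⟨true,0,⟨0,[(2,0)]⟩,⟨0,[(31,0),(2,0)]⟩⟩]⟩)) (.R ⟨1,false,
  false,true,[1,0,0,-1],[0,1],[0,1,0,-1,0,0,0,0,-1],(⟨0,[(29,0)]⟩,⟨0,[(30,0)]⟩),(⟨0,[(42,0)]⟩,⟨0,
  [(41,0)]⟩),⟨0,[(2,0)]⟩,.k,.k,(.x (-1) ⟨15,[(11,3),(7,3),(7,6),(0,6),(11,1)]⟩ ⟨0,[(42,0)]⟩),(.x
  (-1) ⟨15,[(11,3),(7,3),(7,6),(0,6),(11,1)]⟩ ⟨0,[(42,0)]⟩),(.r (-1) ⟨5,[(0,3),(14,1),(1,3),(5,5),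
  (3,0),(18,0)]⟩ ⟨4,[(4,4),(8,0),(2,1),(13,4),(4,2),(0,0),(7,4)]⟩),.k,⟨false,1,⟨5,[(0,3),(14,1),(1,
  3),(5,5),(3,0),(18,0)]⟩,⟨3,[(3,2),(0,0),(8,1),(2,0),(13,0),(4,0),(8,3)]⟩⟩,⟨true,0,⟨0,[(29,0)]⟩,⟨3,
  [(6,1),(2,0),(10,0),(9,3),(1,0),(2,0),(7,1)]⟩⟩,⟨false,0,⟨0,[(45,0)]⟩,⟨5,[(16,1),(3,1),(6,0),(0,0),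
  (18,3)]⟩⟩,⟨false,0,⟨5,[(3,1),(0,3),(2,0),(17,5),(0,2),(2,1),(6,1)]⟩,⟨19,[(0,17),(6,5),(0,9),(1,1),
  (12,29),(3,0),(2,19),(9,6),(2,3)]⟩⟩,⟨true,0,⟨0,[(49,0)]⟩,⟨0,[]⟩⟩,⟨false,0,⟨5,[(3,0),(0,4),(2,1),
  (8,2),(8,5),(0,2),(2,0),(6,0)]⟩,⟨1,[(0,1),(4,0),(17,3),(6,1),(9,0)]⟩⟩,[.o ⟨false,0,⟨0,[(44,0)]⟩,
  ⟨17,[(5,2),(9,5),(16,3),(2,3),(4,6),(2,3),(3,7)]⟩⟩,.a ⟨true,0,⟨3,[(7,0),(8,1),(12,2),(0,2)]⟩,⟨0,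
  [(45,0)]⟩⟩ ⟨true,0,⟨0,[(0,0),(22,0)]⟩,⟨0,[(4,0),(25,0),(13,0)]⟩⟩ ⟨false,0,⟨1,[(1,0),(5,0),(8,0),
  (12,0)]⟩,⟨5,[(15,1),(1,1),(12,5),(9,2),(6,0)]⟩⟩,.o ⟨false,1,⟨1,[(30,1),(9,0),(5,0)]⟩,⟨5,[(0,1),(0,
  3),(2,1),(13,0),(1,0),(14,2)]⟩⟩,.e ⟨false,1,⟨5,[(15,1),(1,1),(9,2),(19,0)]⟩,⟨3,[(3,2),(0,0),(8,1),
  (2,0),(13,0),(4,0)]⟩⟩ ⟨false,0,⟨1,[(1,0),(5,0),(8,0),(12,0)]⟩,⟨17,[(5,2),(9,5),(14,17),(1,3),(2,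
  3),(4,6),(2,3),(3,7)]⟩⟩]⟩)) (.I [1,-1,1,1,0,0,0,0,-1] (.R ⟨1,false,false,false,[0,0,0,1],[0,-1,1],
  [0,1,0,-1,0,0,0,0,1],(⟨0,[(30,0)]⟩,⟨0,[(29,0)]⟩),(⟨1,[(11,0),(27,0)]⟩,⟨0,[(38,0),(3,0)]⟩),⟨4,[(1,
  2),(9,1),(2,0),(0,0),(0,0),(6,0),(6,1)]⟩,.k,.k,(.r (-1) ⟨5,[(15,1),(1,1),(10,2),(18,0)]⟩ ⟨0,[(0,
  0),(48,0)]⟩),(.r 0 ⟨1,[(3,1),(31,0),(0,0),(7,1)]⟩ ⟨1,[(5,0),(21,0)]⟩),.k,.k,⟨false,0,⟨0,[(3,0),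
  (45,1)]⟩,⟨0,[(0,0),(16,0)]⟩⟩,⟨true,0,⟨0,[(1,0),(35,0)]⟩,⟨0,[(29,0),(2,0)]⟩⟩,⟨false,0,⟨0,[(45,0)]⟩,
  ⟨5,[(16,1),(3,1),(6,0),(0,0),(18,3)]⟩⟩,⟨false,1,⟨1,[(1,1),(3,0),(17,1),(3,0)]⟩,⟨2,[(4,2),(11,0),
  (17,1),(9,0)]⟩⟩,⟨true,0,⟨0,[(49,0)]⟩,⟨0,[]⟩⟩,⟨false,1,⟨3,[(0,1),(0,3),(15,1),(5,1),(3,0),(18,0)]⟩,
  ⟨0,[(4,0),(29,0)]⟩⟩,[.a ⟨true,0,⟨1,[(7,0),(21,0),(0,0),(14,1)]⟩,⟨5,[(15,0),(0,3),(5,0),(0,0),(5,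
  0),(0,0)]⟩⟩ ⟨true,0,⟨0,[(1,0),(2,0),(10,0),(9,0)]⟩,⟨0,[(0,0)]⟩⟩ ⟨false,1,⟨5,[(1,5),(13,1),(1,1),
  (28,2),(0,0)]⟩,⟨1,[(0,0),(3,0),(4,0),(19,0),(4,0)]⟩⟩,.o ⟨false,1,⟨1,[(5,0),(29,1),(11,0)]⟩,⟨0,[(9,
  0)]⟩⟩,.o ⟨false,0,⟨13,[(0,3),(3,3),(1,5),(2,0),(10,0),(8,9),(2,2),(2,2)]⟩,⟨1,[(30,1),(9,0),(5,
  0)]⟩⟩,.o ⟨false,0,⟨0,[(29,0),(2,0),(2,0)]⟩,⟨13,[(1,11),(6,7),(0,3),(5,1),(7,5),(6,1),(9,0),(5,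
  4)]⟩⟩]⟩) (.R ⟨1,false,false,false,[1,0,0,-1],[1,0,-1],[1,1,0,0,0,0,0,0,-1],(⟨0,[(29,0)]⟩,⟨0,[(30,
  0)]⟩),(⟨0,[(38,0)]⟩,⟨0,[(39,0)]⟩),⟨0,[(2,0)]⟩,.k,.k,(.x (-1) ⟨15,[(11,3),(7,3),(7,6),(0,6),(11,
  1)]⟩ ⟨0,[(42,0)]⟩),.k,(.r (-1) ⟨1,[(5,0),(21,0)]⟩ ⟨1,[(3,1),(31,0),(0,0),(7,1)]⟩),.k,⟨false,1,⟨1,
  [(5,0),(21,0),(16,1)]⟩,⟨0,[(3,0)]⟩⟩,⟨true,0,⟨0,[(29,0),(2,0)]⟩,⟨0,[(1,0),(35,0)]⟩⟩,⟨false,0,⟨0,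
  []⟩,⟨3,[(27,0),(0,0),(18,1)]⟩⟩,⟨false,0,⟨2,[(3,0),(0,1),(17,0),(0,0),(5,0),(4,0)]⟩,⟨1,[(1,1),(25,
  0),(18,0)]⟩⟩,⟨true,0,⟨0,[(44,0)]⟩,⟨0,[(45,0)]⟩⟩,⟨false,0,⟨5,[(3,0),(0,4),(11,2),(5,0),(0,0),(5,0),
  (4,0)]⟩,⟨5,[(1,5),(13,1),(1,1),(9,2),(19,0)]⟩⟩,[.a ⟨true,0,⟨2,[(15,0),(0,0),(5,0),(0,0),(5,0),(0,
  0)]⟩,⟨1,[(7,0),(21,0),(0,0)]⟩⟩ ⟨false,1,⟨15,[(15,3),(1,3),(9,8),(0,0),(15,11),(1,1)]⟩,⟨0,[(0,0),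
  (17,0),(4,0)]⟩⟩ ⟨true,0,⟨0,[(29,0),(2,0),(4,0)]⟩,⟨0,[(1,0)]⟩⟩,.o ⟨false,1,⟨23,[(12,1),(9,3),(0,9),
  (10,11),(5,8),(6,12)]⟩,⟨0,[(33,0)]⟩⟩,.o ⟨false,1,⟨1,[(30,1),(9,0),(5,0)]⟩,⟨3,[(6,1),(2,0),(10,0),
  (8,3),(2,0),(2,0),(7,1)]⟩⟩,.e ⟨false,1,⟨1,[(27,0),(18,0)]⟩,⟨0,[(4,0),(25,0)]⟩⟩ ⟨false,1,⟨2,[(4,1),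
  (7,0),(14,0),(1,0),(4,0),(2,0),(9,0)]⟩,⟨0,[(1,0)]⟩⟩]⟩))) (.I [0,0,0,0,0,0,0,1,1] (.R ⟨0,false,
  false,false,[1,0,0,-1],[1,0,-1],[0,1,0,0,0,0,0,0,-1],(⟨0,[(28,0)]⟩,⟨0,[(29,0)]⟩),(⟨0,[(37,0)]⟩,⟨0,
  [(38,0)]⟩),⟨0,[(1,0)]⟩,.k,.k,(.x (-1) ⟨15,[(10,3),(7,3),(7,6),(0,6),(11,1)]⟩ ⟨0,[(41,0)]⟩),.k,.k,
  .k,⟨false,1,⟨1,[(4,0),(21,0),(16,1)]⟩,⟨0,[(2,0)]⟩⟩,⟨true,0,⟨0,[(28,0),(2,0)]⟩,⟨5,[(1,3),(8,0),(7,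
  0),(6,2),(3,1)]⟩⟩,⟨true,0,⟨0,[(48,0)]⟩,⟨0,[]⟩⟩,⟨false,0,⟨2,[(2,0),(0,1),(17,0),(0,0),(5,0),(4,
  0)]⟩,⟨5,[(1,3),(4,2),(3,0),(7,0),(7,2),(2,1),(15,2)]⟩⟩,⟨false,0,⟨0,[]⟩,⟨0,[]⟩⟩,⟨false,0,⟨0,[]⟩,⟨0,
  []⟩⟩,[.a ⟨true,0,⟨2,[(14,0),(0,0),(5,0),(0,0),(5,0),(0,0)]⟩,⟨1,[(6,0),(21,0),(0,0)]⟩⟩ ⟨false,1,
  ⟨15,[(14,3),(1,3),(9,8),(0,0),(15,11),(1,1)]⟩,⟨0,[(0,0),(21,0)]⟩⟩ ⟨true,0,⟨0,[(28,0),(2,0),(4,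
  0)]⟩,⟨5,[(1,3),(4,2),(3,0),(7,0),(10,1)]⟩⟩,.o ⟨false,1,⟨23,[(11,1),(9,3),(0,9),(10,11),(5,8),(6,
  12)]⟩,⟨0,[(32,0)]⟩⟩,.o ⟨false,1,⟨1,[(29,1),(9,0),(5,0)]⟩,⟨3,[(5,1),(2,0),(10,0),(8,3),(2,0),(2,0),
  (7,1)]⟩⟩,.e ⟨false,1,⟨1,[(26,0),(18,0)]⟩,⟨0,[(3,0),(25,0)]⟩⟩ ⟨false,1,⟨2,[(3,1),(7,0),(14,0),(1,
  0),(4,0),(2,0),(9,0)]⟩,⟨5,[(1,3),(4,2),(3,0),(7,0),(10,1)]⟩⟩]⟩) (.R ⟨1,false,false,false,[0,0,0,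
  1],[1,-1,-1],[0,0,0,-1,0,0,0,0,1],(⟨0,[(29,0)]⟩,⟨0,[(28,0)]⟩),(⟨0,[(23,0)]⟩,⟨0,[(38,0),(2,0)]⟩),
  ⟨2,[(1,0),(8,0),(7,0),(10,1)]⟩,.k,.k,(.r (-1) ⟨5,[(14,1),(1,1),(10,2),(18,0)]⟩ ⟨9,[(0,9),(11,5),
  (2,1),(18,2),(0,0)]⟩),(.r 0 ⟨1,[(2,0),(0,0),(8,0),(11,0),(4,0),(2,0)]⟩ ⟨3,[(11,0),(2,1),(10,0),(0,
  1),(9,0),(9,0)]⟩),.k,.k,⟨true,0,⟨3,[(2,0),(0,2),(8,2),(1,1),(9,0),(4,2),(2,0)]⟩,⟨0,[(0,0)]⟩⟩,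
  ⟨false,1,⟨11,[(4,0),(6,5),(0,1),(13,0),(0,0),(1,11),(9,2)]⟩,⟨5,[(5,1),(0,0),(12,1),(2,3),(2,0),(2,
  5)]⟩⟩,⟨true,0,⟨0,[(44,0)]⟩,⟨0,[(43,0)]⟩⟩,⟨false,1,⟨8,[(0,2),(0,3),(7,2),(0,0),(0,2),(2,2),(3,0),
  (7,2),(2,4),(12,5)]⟩,⟨1,[(3,1),(2,0),(17,1),(0,0)]⟩⟩,⟨false,1,⟨3,[(26,0),(0,0),(18,1)]⟩,⟨0,[]⟩⟩,
  ⟨false,1,⟨8,[(0,2),(0,3),(5,2),(2,0),(0,2),(6,0),(3,2),(3,2),(2,4),(12,2)]⟩,⟨0,[(3,0),(2,0),(26,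
  0)]⟩⟩,[.a ⟨true,0,⟨1,[(14,0),(6,0),(0,0),(5,0),(0,0)]⟩,⟨3,[(6,2),(8,1),(12,0),(0,0)]⟩⟩ ⟨true,0,⟨0,
  [(2,0),(9,0),(1,0)]⟩,⟨9,[(0,9),(11,5),(2,1),(18,2),(0,0)]⟩⟩ ⟨false,1,⟨5,[(9,1),(1,1),(2,1),(7,1),
  (6,5),(9,0),(5,0)]⟩,⟨1,[(17,0),(1,0),(8,1),(5,0)]⟩⟩,.o ⟨false,1,⟨3,[(14,1),(6,1),(14,1),(2,0),(6,
  2)]⟩,⟨0,[(19,0)]⟩⟩,.o ⟨false,0,⟨6,[(0,2),(2,2),(1,1),(6,0),(6,0),(8,3),(2,1),(2,0)]⟩,⟨1,[(29,1),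
  (9,0),(5,0)]⟩⟩,.o ⟨false,0,⟨0,[(28,0),(2,0),(2,0)]⟩,⟨13,[(1,13),(5,3),(2,1),(7,5),(1,1),(18,0),(5,
  8)]⟩⟩]⟩))) (.Q [0,0,0,0,0,-1,0,0,0,1,0,-1] (.ed true [0,1,0,1] .k) (.Q [0,0,0,1,0,0,0,0,0,1,0,-1]
  (.p false [0,0,0,1] [1] (⟨0,[(28,0)]⟩,⟨0,[(27,0)]⟩) .k 1 (⟨0,[]⟩,⟨0,[]⟩) .k .k) (.R ⟨1,false,
  false,true,[1,0,0,-1],[0,1],[1,1,0,0,0,0,0,0,-1],(⟨0,[(28,0)]⟩,⟨0,[(29,0)]⟩),(⟨0,[(41,0)]⟩,⟨0,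
  [(40,0)]⟩),⟨0,[(1,0)]⟩,.k,.k,(.x (-1) ⟨15,[(10,3),(7,3),(7,6),(0,6),(11,1)]⟩ ⟨0,[(41,0)]⟩),(.x
  (-1) ⟨15,[(10,3),(7,3),(7,6),(0,6),(11,1)]⟩ ⟨0,[(41,0)]⟩),(.r (-1) ⟨3,[(2,1),(1,0),(9,1),(1,1),(5,
  3),(3,0)]⟩ ⟨4,[(3,4),(8,0),(2,1),(13,4),(4,2),(0,0),(7,4)]⟩),.k,⟨false,1,⟨7,[(2,5),(11,1),(1,3),
  (5,7),(3,0),(18,2)]⟩,⟨0,[(3,0),(25,0),(13,0)]⟩⟩,⟨true,0,⟨0,[(28,0)]⟩,⟨3,[(5,1),(2,0),(10,0),(9,3),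
  (1,0),(2,0),(7,1)]⟩⟩,⟨false,0,⟨0,[]⟩,⟨3,[(26,0),(0,0),(18,1)]⟩⟩,⟨false,0,⟨1,[(3,1),(20,1),(0,0),
  (2,0),(0,0)]⟩,⟨5,[(2,3),(2,1),(0,1),(2,3),(12,7),(3,0),(2,5),(9,0),(2,1)]⟩⟩,⟨true,0,⟨0,[(43,0)]⟩,
  ⟨0,[(44,0)]⟩⟩,⟨false,0,⟨5,[(0,1),(2,5),(2,0),(8,1),(8,5),(0,2),(3,1)]⟩,⟨15,[(2,5),(1,6),(0,13),(0,
  1),(2,3),(12,23),(3,4),(2,15),(12,5)]⟩⟩,[.o ⟨false,0,⟨0,[(43,0)]⟩,⟨17,[(4,2),(9,5),(16,3),(2,3),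
  (4,6),(2,3),(3,7)]⟩⟩,.a ⟨true,0,⟨0,[(0,0),(28,0)]⟩,⟨0,[(44,0)]⟩⟩ ⟨true,0,⟨0,[(2,0),(19,0)]⟩,⟨0,
  [(3,0),(25,0),(18,0)]⟩⟩ ⟨false,0,⟨0,[(0,0)]⟩,⟨5,[(14,1),(1,1),(12,5),(9,2),(6,0)]⟩⟩,.o ⟨false,1,
  ⟨1,[(29,1),(9,0),(5,0)]⟩,⟨2,[(2,0),(0,0),(1,0),(2,0),(19,1),(5,0),(7,0)]⟩⟩,.e ⟨false,1,⟨1,[(26,0),
  (18,0)]⟩,⟨0,[(3,0),(25,0)]⟩⟩ ⟨false,0,⟨0,[(0,0)]⟩,⟨17,[(4,2),(9,5),(14,17),(1,3),(2,3),(4,6),(2,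
  3),(3,7)]⟩⟩]⟩) (.R ⟨1,false,false,true,[1,0,0,-1],[0,1],[1,1,0,0,0,0,0,0,-1],(⟨0,[(28,0)]⟩,⟨0,
  [(29,0)]⟩),(⟨0,[(41,0)]⟩,⟨0,[(40,0)]⟩),⟨0,[(1,0)]⟩,.k,.k,(.x (-1) ⟨15,[(10,3),(7,3),(7,6),(0,6),
  (11,1)]⟩ ⟨0,[(41,0)]⟩),(.x (-1) ⟨15,[(10,3),(7,3),(7,6),(0,6),(11,1)]⟩ ⟨0,[(41,0)]⟩),(.r (-1) ⟨3,
  [(2,1),(1,0),(9,1),(1,1),(5,3),(3,0)]⟩ ⟨4,[(3,4),(8,0),(2,1),(13,4),(4,2),(0,0),(7,4)]⟩),.k,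
  ⟨false,1,⟨7,[(2,5),(11,1),(1,3),(5,7),(3,0),(18,2)]⟩,⟨0,[(3,0),(25,0),(13,0)]⟩⟩,⟨true,0,⟨0,[(28,
  0)]⟩,⟨3,[(0,1),(7,0),(8,0),(11,1),(1,0),(2,1)]⟩⟩,⟨false,0,⟨0,[]⟩,⟨3,[(26,0),(0,0),(18,1)]⟩⟩,
  ⟨false,0,⟨1,[(3,1),(20,1),(0,0),(2,0),(0,0)]⟩,⟨25,[(0,19),(1,3),(1,2),(1,5),(0,11),(14,21),(3,10),
  (2,5),(12,3)]⟩⟩,⟨true,0,⟨0,[(43,0)]⟩,⟨0,[(44,0)]⟩⟩,⟨false,0,⟨3,[(3,3),(2,0),(8,1),(8,3),(0,1),(2,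
  0),(0,0)]⟩,⟨1,[(0,1),(3,0),(17,1),(3,0)]⟩⟩,[.o ⟨false,0,⟨0,[(43,0)]⟩,⟨9,[(0,3),(2,3),(0,0),(9,1),
  (11,1),(12,2),(6,3)]⟩⟩,.e ⟨true,0,⟨0,[(2,0),(19,0)]⟩,⟨0,[(3,0),(25,0),(18,0)]⟩⟩ ⟨true,0,⟨4,[(12,
  0),(2,1),(12,4),(5,2),(0,0)]⟩,⟨0,[(0,0)]⟩⟩,.o ⟨false,1,⟨1,[(29,1),(9,0),(5,0)]⟩,⟨2,[(2,0),(0,0),
  (1,0),(2,0),(19,1),(5,0),(7,0)]⟩⟩,.a ⟨true,0,⟨0,[(29,0)]⟩,⟨0,[(28,0)]⟩⟩ ⟨false,1,⟨1,[(26,0),(18,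
  0)]⟩,⟨0,[(3,0),(25,0)]⟩⟩ ⟨true,0,⟨0,[(28,0),(14,0)]⟩,⟨0,[(0,0)]⟩⟩]⟩)) (.R ⟨1,false,false,false,[0,
  0,0,1],[0,0,1],[1,1,0,0,0,0,0,0,1],(⟨0,[(28,0)]⟩,⟨0,[(27,0)]⟩),(⟨0,[(37,0)]⟩,⟨0,[(36,0)]⟩),⟨2,[(0,
  0),(8,0),(7,0),(10,1)]⟩,.k,.k,(.r (-1) ⟨5,[(13,1),(1,1),(10,2),(18,0)]⟩ ⟨1,[(1,1),(12,0),(18,0),
  (1,0),(5,0)]⟩),.k,(.r (-1) ⟨3,[(10,0),(2,1),(10,0),(1,1),(8,0),(9,0)]⟩ ⟨2,[(1,2),(12,0),(1,0),(16,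
  0),(7,0)]⟩),.k,⟨true,0,⟨1,[(2,1),(10,1),(0,0),(3,0),(9,1),(13,0)]⟩,⟨0,[(1,0),(14,0),(4,0),(21,
  0)]⟩⟩,⟨false,1,⟨11,[(0,5),(16,3),(1,1),(4,3),(3,5),(9,0),(5,10)]⟩,⟨0,[(27,0),(2,0)]⟩⟩,⟨false,0,⟨0,
  []⟩,⟨3,[(25,0),(0,0),(18,1)]⟩⟩,⟨false,1,⟨9,[(0,2),(0,1),(3,6),(0,5),(10,1),(1,0),(1,5),(3,3),(2,
  6),(12,2)]⟩,⟨0,[(2,0),(29,0)]⟩⟩,⟨true,0,⟨0,[(42,0)]⟩,⟨0,[(43,0)]⟩⟩,⟨false,1,⟨39,[(0,26),(0,7),(3,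
  32),(0,23),(7,19),(2,17),(1,8),(1,13),(3,15),(2,12),(12,16)]⟩,⟨1,[(2,1),(10,0),(18,0),(1,0)]⟩⟩,
  [.a ⟨true,0,⟨1,[(5,0),(21,0),(0,0)]⟩,⟨2,[(13,0),(0,0),(5,0),(0,0),(5,0),(0,0)]⟩⟩ ⟨true,0,⟨2,[(0,
  2),(1,2),(2,0),(7,1),(3,1),(1,0),(3,3)]⟩,⟨0,[(1,0),(33,0),(5,0)]⟩⟩ ⟨false,1,⟨5,[(0,3),(4,2),(3,0),
  (7,0),(10,1),(15,5)]⟩,⟨0,[(27,0),(2,0),(4,0)]⟩⟩,.o ⟨false,1,⟨7,[(5,3),(19,0),(0,0),(11,1),(6,3)]⟩,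
  ⟨0,[(29,0)]⟩⟩,.o ⟨false,0,⟨2,[(1,0),(0,0),(1,0),(2,0),(19,1),(5,0),(7,0)]⟩,⟨1,[(28,1),(9,0),(5,
  0)]⟩⟩,.o ⟨false,0,⟨0,[(27,0),(2,0),(2,0)]⟩,⟨13,[(0,13),(5,3),(2,1),(7,5),(1,1),(18,0),(5,
  8)]⟩⟩]⟩))))))

theorem ok160 : chk (cU (-1) true 10) t160 r90 = true := by decide +kernel

noncomputable def t207 : Tre :=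
  (.Q [0,0,0,-1,0,0,2,2,0,1,-2] (.p false [0,0,1] [1,0,-1] (⟨0,[(28,0)]⟩,⟨0,[(27,0)]⟩) .k 2 (⟨0,
  [(27,0)]⟩,⟨0,[(28,0)]⟩) .k (.r (-1) ⟨21,[(2,15),(4,19),(6,11),(1,2),(0,2),(4,23),(2,11)]⟩ ⟨0,[(26,
  1)]⟩)) (.Q [0,0,0,-1,0,0,-2,-2,0,-1,2] (.p true [0,0,1] [1,0,-1] (⟨0,[(29,0)]⟩,⟨0,[(28,0)]⟩) .k 2
  (⟨0,[(28,0)]⟩,⟨0,[(29,0)]⟩) .k (.r (-1) ⟨21,[(0,15),(7,7),(1,3),(1,15),(2,3),(1,4),(0,4),(17,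
  11)]⟩ ⟨0,[(27,1)]⟩)) (.R ⟨1,false,false,false,[1,-1,-1],[0,0,1],[1],(⟨0,[(15,0)]⟩,⟨0,[(30,0),(2,
  0)]⟩),(⟨0,[(30,0)]⟩,⟨0,[(29,0)]⟩),⟨0,[(10,0)]⟩,.k,.k,(.r (-1) ⟨1,[(3,1),(33,0),(0,0)]⟩ ⟨21,[(5,1),
  (2,7),(0,14),(1,14),(1,1),(4,3),(0,3),(7,10)]⟩),(.x (-1) ⟨3,[(13,3),(1,3),(2,0),(0,0),(9,3),(1,
  1)]⟩ ⟨0,[(2,0)]⟩),(.r (-1) ⟨1,[(3,1),(24,1),(8,0),(0,0)]⟩ ⟨0,[(9,0),(1,0),(15,0)]⟩),.k,⟨true,0,⟨0,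
  [(28,0)]⟩,⟨5,[(1,1),(7,0),(1,0),(1,1),(12,0),(0,1)]⟩⟩,⟨false,1,⟨0,[(17,0),(19,0)]⟩,⟨0,[(13,0)]⟩⟩,
  ⟨false,0,⟨0,[(9,0)]⟩,⟨3,[(3,1),(14,0),(0,0),(8,1),(8,0),(0,0)]⟩⟩,⟨false,1,⟨11,[(1,11),(3,7),(12,
  0),(0,0),(11,3),(6,5)]⟩,⟨0,[(0,0)]⟩⟩,⟨true,0,⟨21,[(5,5),(2,1),(0,11),(1,11),(1,5),(4,0),(0,0)]⟩,
  ⟨0,[(3,0)]⟩⟩,⟨false,1,⟨1,[(1,1),(3,1),(25,0),(6,0)]⟩,⟨1,[(0,2),(0,0)]⟩⟩,[.a ⟨true,0,⟨5,[(1,2),(3,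
  0),(14,1),(0,1)]⟩,⟨5,[(0,2),(4,0),(14,1),(0,1)]⟩⟩ ⟨true,0,⟨0,[]⟩,⟨1,[(26,0),(0,0)]⟩⟩ ⟨false,1,⟨9,
  [(1,4),(3,0),(5,1),(2,1),(2,3),(19,9)]⟩,⟨59,[(0,23),(4,3),(2,11),(4,35),(4,4),(0,4),(11,1)]⟩⟩,.o
  ⟨false,1,⟨11,[(1,5),(3,1),(12,0),(0,0),(11,3),(6,5)]⟩,⟨0,[(22,0)]⟩⟩,.o ⟨false,0,⟨0,[(23,0)]⟩,⟨7,
  [(17,3),(0,0),(0,0),(11,1),(5,3)]⟩⟩,.o ⟨false,0,⟨0,[(13,0),(12,0)]⟩,⟨15,[(3,1),(0,3),(6,11),(2,9),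
  (2,1),(13,0),(5,10)]⟩⟩]⟩) (.R ⟨1,true,false,false,[1,-1,-1],[0,0,1],[1],(⟨0,[(15,0)]⟩,⟨0,[(30,0),
  (2,0)]⟩),(⟨0,[(30,0)]⟩,⟨0,[(29,0)]⟩),⟨0,[(10,0)]⟩,.k,.k,(.r (-1) ⟨1,[(3,1),(33,0),(0,0)]⟩ ⟨21,[(0,
  10),(4,2),(2,11),(0,5),(1,5),(1,13),(4,5),(0,5)]⟩),(.x (-1) ⟨3,[(13,3),(1,3),(2,0),(0,0),(9,3),(1,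
  1)]⟩ ⟨0,[(2,0)]⟩),(.r (-1) ⟨1,[(3,1),(24,1),(8,0),(0,0)]⟩ ⟨10,[(0,10),(4,0),(2,3),(0,1),(1,1),(1,
  11),(4,1),(0,1)]⟩),.k,⟨true,0,⟨0,[(28,0)]⟩,⟨3,[(0,0),(0,0),(11,1),(12,0),(0,0)]⟩⟩,⟨false,1,⟨0,
  [(17,0),(19,0)]⟩,⟨0,[(13,0)]⟩⟩,⟨false,0,⟨0,[(9,0)]⟩,⟨3,[(3,1),(14,0),(0,0),(8,1),(8,0),(0,0)]⟩⟩,
  ⟨true,0,⟨0,[(0,0)]⟩,⟨1,[(3,0),(9,0),(0,0),(7,0),(2,0)]⟩⟩,⟨true,0,⟨21,[(5,5),(2,1),(0,11),(1,11),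
  (1,5),(4,0),(0,0)]⟩,⟨0,[(3,0)]⟩⟩,⟨false,1,⟨5,[(0,5),(4,1),(12,0),(0,0),(11,0),(6,2)]⟩,⟨0,[(3,0),
  (9,0),(0,0)]⟩⟩,[]⟩)) (.Q [0,0,0,-1,0,0,1,1,0,1,-1] (.p false [0,0,1] [1] (⟨0,[(29,0)]⟩,⟨0,[(28,
  0)]⟩) .k 1 (⟨0,[]⟩,⟨0,[]⟩) .k .k) (.R ⟨1,false,false,false,[1,-1,-1],[0,-1,1],[1],(⟨0,[(15,0)]⟩,
  ⟨0,[(30,0),(2,0)]⟩),(⟨4,[(4,2),(0,0),(0,2),(5,0),(0,0),(2,2)]⟩,⟨0,[(29,0),(3,0)]⟩),⟨0,[(10,0)]⟩,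
  .k,.k,(.r (-1) ⟨1,[(3,1),(33,0),(0,0)]⟩ ⟨21,[(5,1),(2,7),(0,14),(1,14),(1,1),(4,3),(0,3),(7,
  10)]⟩),.k,(.x (-1) ⟨3,[(13,3),(1,3),(2,0),(0,0),(9,3),(1,1)]⟩ ⟨0,[(2,0)]⟩),.k,⟨false,0,⟨5,[(1,0),
  (3,0),(1,1),(6,1),(2,1)]⟩,⟨3,[(0,3),(12,1),(17,0),(5,2)]⟩⟩,⟨true,0,⟨0,[(17,0)]⟩,⟨0,[(13,0)]⟩⟩,
  ⟨false,0,⟨0,[(9,0)]⟩,⟨3,[(3,1),(14,0),(0,0),(8,1),(8,0),(0,0)]⟩⟩,⟨false,1,⟨0,[(0,0),(10,0),(26,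
  0)]⟩,⟨4,[(1,3),(1,1),(9,0),(20,0)]⟩⟩,⟨true,0,⟨21,[(5,5),(2,1),(0,11),(1,11),(1,5),(4,0),(0,0)]⟩,
  ⟨0,[(3,0)]⟩⟩,⟨false,1,⟨9,[(0,6),(3,0),(0,1),(3,1),(1,10),(5,0),(20,8)]⟩,⟨4,[(1,2),(1,3),(9,1),(20,
  1)]⟩⟩,[.a ⟨true,0,⟨0,[(0,0)]⟩,⟨5,[(1,2),(3,0),(14,1),(0,1)]⟩⟩ ⟨true,0,⟨0,[]⟩,⟨1,[(26,0),(0,0)]⟩⟩
  ⟨false,1,⟨1,[(0,0),(3,0),(6,0),(5,0),(19,0)]⟩,⟨14,[(1,5),(3,1),(2,2),(4,8),(4,0),(0,0),(11,0)]⟩⟩,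
  .o ⟨false,1,⟨1,[(0,1),(30,0),(6,0)]⟩,⟨0,[(7,0)]⟩⟩,.o ⟨false,0,⟨0,[(23,0)]⟩,⟨7,[(17,3),(0,0),(0,0),
  (11,1),(5,3)]⟩⟩,.o ⟨false,0,⟨0,[(13,0),(12,0)]⟩,⟨15,[(3,1),(0,3),(6,11),(2,9),(2,1),(13,0),(5,
  10)]⟩⟩]⟩) (.Q [0,0,-2,0,1,0,-1,0,0,0,1] (.p true [0,0,1] [] (⟨0,[(30,0)]⟩,⟨0,[(29,0)]⟩) .k 0 (⟨0,
  []⟩,⟨0,[]⟩) .k .k) (.I [0,0,2,2,-1,0,0,-1] (.K ⟨0,[1,1,-1],1,0,(⟨0,[(31,0),(3,0)]⟩,⟨1,[(1,0),(6,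
  0),(23,0)]⟩),.k,.k,(.r 1 ⟨0,[(0,0)]⟩ ⟨2,[(1,0),(4,2),(13,0),(0,0),(4,2),(2,1)]⟩),.k,.k,[⟨0,[(8,0),
  (22,0),(3,1)]⟩,⟨0,[(1,0)]⟩,⟨0,[(22,0),(0,0),(2,0),(11,0)]⟩,⟨0,[(9,0)]⟩]⟩) (.I [0,0,-2,-2,1,0,0,1]
  (.K ⟨0,[1,1,-1],1,0,(⟨0,[(32,0),(3,0)]⟩,⟨1,[(2,0),(6,0),(23,0)]⟩),.k,.k,(.r 0 ⟨11,[(8,3),(2,11),
  (9,4),(0,4),(11,1)]⟩ ⟨0,[(0,0)]⟩),.k,.k,[⟨0,[(9,0),(22,0),(3,1)]⟩,⟨0,[(2,0)]⟩,⟨0,[(23,0),(0,0),(2,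
  0),(11,0)]⟩,⟨0,[(10,0)]⟩]⟩) (.I [0,0,2,0,-1,-2,1] (.K ⟨0,[1,1,-1],1,0,(⟨0,[(33,0),(3,0)]⟩,⟨1,[(3,
  0),(6,0),(23,0)]⟩),.k,.k,(.x (-2) ⟨3,[(3,3),(18,0),(0,0),(9,3),(1,1),(1,7)]⟩ ⟨0,[(0,0)]⟩),.k,.k,
  [⟨0,[(10,0),(22,0),(3,1)]⟩,⟨0,[(3,0)]⟩,⟨0,[(24,0),(0,0),(2,0),(11,0)]⟩,⟨0,[(11,0)]⟩]⟩) (.I [0,0,1,
  1,0,0,0,0,-1] (.Q [0,1,-1,0,0,0,0,0,-1,0,0,1] (.p true [0,0,0,1] [] (⟨0,[(26,0)]⟩,⟨0,[(25,0)]⟩)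
  .k 0 (⟨0,[]⟩,⟨0,[]⟩) .k .k) (.Q [0,1,1,-1,0,0,1,1,1,1,-1,-1] (.p false [0,0,1] [1,0,0,-1] (⟨0,
  [(36,0)]⟩,⟨0,[(35,0)]⟩) .k 2 (⟨0,[(26,0)]⟩,⟨0,[(27,0)]⟩) .k (.r (-1) ⟨11,[(4,3),(10,3),(1,3),(6,
  0),(0,6),(7,3)]⟩ ⟨1,[(0,0),(0,0),(4,0),(2,0),(10,0),(5,0),(3,0),(9,0)]⟩)) (.K ⟨0,[0,0,0,1],0,0,
  (⟨0,[(28,0)]⟩,⟨0,[(27,0)]⟩),.k,(.r (-1) ⟨23,[(5,3),(4,3),(0,3),(13,0),(0,12),(17,1)]⟩ ⟨0,[(2,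
  0)]⟩),(.x 0 ⟨0,[(40,0)]⟩ ⟨15,[(6,3),(6,3),(3,3),(7,6),(0,6),(11,1)]⟩),.k,.k,[⟨0,[(28,0)]⟩,⟨0,[(27,
  0)]⟩,⟨0,[(1,0)]⟩,⟨0,[(0,0),(6,0)]⟩]⟩) (.Q [0,0,0,0,0,-1,0,0,0,1,0,-1] (.ed true [0,1,0,1] .k) (.R
  ⟨1,false,false,false,[1,0,0,-1],[0,-1,1],[1,0,0,0,0,0,0,0,-1],(⟨0,[(28,0)]⟩,⟨0,[(29,0)]⟩),(⟨1,[(7,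
  0),(6,0),(23,0)]⟩,⟨0,[(37,0),(3,0)]⟩),⟨0,[(0,0)]⟩,.k,.k,(.x (-1) ⟨15,[(7,3),(6,3),(3,3),(7,6),(0,
  6),(11,1)]⟩ ⟨0,[(41,0)]⟩),(.r 1 ⟨0,[(1,0),(14,0),(11,0),(3,0),(11,0)]⟩ ⟨11,[(6,7),(10,1),(1,1),(6,
  4),(0,10),(7,1)]⟩),.k,.k,⟨true,(-1),⟨0,[(1,0),(14,0),(11,0),(3,0),(11,0)]⟩,⟨3,[(6,1),(10,0),(9,1),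
  (4,0),(1,0),(0,1),(8,0)]⟩⟩,⟨false,0,⟨0,[(28,0),(5,0)]⟩,⟨3,[(1,1),(4,2),(1,1),(10,0),(4,0),(2,0),
  (1,1)]⟩⟩,⟨true,0,⟨0,[]⟩,⟨0,[(48,0)]⟩⟩,⟨false,1,⟨7,[(6,3),(10,3),(9,3),(0,7),(5,8),(0,0),(6,1),(1,
  3)]⟩,⟨2,[(1,1),(0,0),(12,0)]⟩⟩,⟨false,1,⟨5,[(13,1),(12,0),(0,0),(11,0),(6,2)]⟩,⟨0,[(44,0)]⟩⟩,
  ⟨false,1,⟨5,[(6,1),(10,3),(9,2),(0,5),(5,5),(11,0)]⟩,⟨2,[(1,1),(0,0),(8,0),(19,0)]⟩⟩,[.o ⟨false,1,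
  ⟨9,[(6,5),(10,1),(8,1),(0,1),(4,1),(1,8),(0,0)]⟩,⟨0,[(8,0)]⟩⟩,.o ⟨false,1,⟨2,[(6,1),(10,0),(16,2),
  (11,0)]⟩,⟨0,[(15,0)]⟩⟩,.o ⟨false,1,⟨1,[(29,1),(9,0),(5,0)]⟩,⟨4,[(8,0),(2,0),(4,0),(11,4),(2,1),(0,
  2),(6,0),(2,1)]⟩⟩,.a ⟨true,0,⟨0,[(29,0)]⟩,⟨0,[(28,0)]⟩⟩ ⟨true,0,⟨0,[(1,0),(26,0),(3,0),(11,0)]⟩,
  ⟨3,[(11,0),(2,0),(1,0),(4,0),(2,0),(2,1),(4,1),(4,0),(3,1)]⟩⟩ ⟨false,1,⟨2,[(6,1),(10,0),(10,2),(5,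
  2),(11,0)]⟩,⟨0,[(8,0),(20,0)]⟩⟩]⟩) (.R ⟨0,false,false,true,[1,0,0,-1],[0,1],[1,1],(⟨0,[(28,0)]⟩,
  ⟨0,[(29,0)]⟩),(⟨0,[(41,0)]⟩,⟨0,[(40,0)]⟩),⟨0,[(0,0)]⟩,.k,.k,(.x (-1) ⟨15,[(7,3),(6,3),(3,3),(7,6),
  (0,6),(11,1)]⟩ ⟨0,[(41,0)]⟩),(.x (-1) ⟨15,[(7,3),(6,3),(3,3),(7,6),(0,6),(11,1)]⟩ ⟨0,[(41,0)]⟩),
  .k,.k,⟨false,1,⟨23,[(6,3),(4,3),(0,3),(13,0),(0,0),(17,13)]⟩,⟨9,[(3,3),(1,1),(11,0),(1,0),(7,1),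
  (7,0)]⟩⟩,⟨true,0,⟨0,[(28,0)]⟩,⟨8,[(0,3),(13,0),(3,0),(10,4),(1,3),(2,2),(4,0)]⟩⟩,⟨false,1,⟨3,[(26,
  0),(0,2)]⟩,⟨3,[(1,2),(1,0),(24,2),(3,2),(9,1),(1,3)]⟩⟩,⟨true,0,⟨1,[(16,0),(7,0),(2,0),(0,1),(3,
  0)]⟩,⟨0,[(1,0),(30,0),(11,1)]⟩⟩,⟨false,0,⟨0,[]⟩,⟨0,[]⟩⟩,⟨false,0,⟨0,[]⟩,⟨0,[]⟩⟩,[.o ⟨false,0,⟨0,
  [(43,0)]⟩,⟨7,[(6,1),(4,1),(19,1),(2,1),(4,2),(2,1),(3,2)]⟩⟩,.e ⟨true,0,⟨0,[]⟩,⟨1,[(34,0),(0,0)]⟩⟩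
  ⟨true,0,⟨9,[(3,3),(1,1),(11,0),(1,0),(7,1),(0,9),(6,0)]⟩,⟨3,[(0,3),(5,0),(1,0),(5,0),(3,0),(25,
  2)]⟩⟩,.o ⟨false,1,⟨1,[(29,1),(9,0),(5,0)]⟩,⟨4,[(8,0),(2,0),(4,0),(11,4),(2,1),(0,2),(6,0),(2,
  1)]⟩⟩,.a ⟨true,0,⟨0,[(29,0)]⟩,⟨0,[(28,0)]⟩⟩ ⟨false,1,⟨3,[(26,0),(0,0),(17,1)]⟩,⟨3,[(34,0),(0,0),
  (6,1)]⟩⟩ ⟨true,0,⟨0,[(28,0),(14,0)]⟩,⟨3,[(0,3),(5,0),(1,0),(5,0),(3,0),(25,2)]⟩⟩]⟩))) (.I [1,1,0,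
  0,0,0,0,0,1] (.Q [0,0,0,0,0,-1,0,0,0,1,0,-1] (.ed true [0,1,0,1] .k) (.R ⟨1,false,false,false,[1,
  0,0,-1],[1,0,-1],[0,0,0,-1,0,0,0,0,-1],(⟨0,[(28,0)]⟩,⟨0,[(29,0)]⟩),(⟨0,[(37,0)]⟩,⟨0,[(38,0)]⟩),⟨0,
  [(0,0)]⟩,.k,.k,(.x (-1) ⟨15,[(7,3),(6,3),(3,3),(7,6),(0,6),(11,1)]⟩ ⟨0,[(41,0)]⟩),.k,(.r (-1) ⟨0,
  [(3,0),(2,0)]⟩ ⟨1,[(5,0),(21,0),(8,0)]⟩),.k,⟨false,1,⟨0,[(3,0),(2,0)]⟩,⟨14,[(1,14),(2,2),(0,2),(2,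
  4),(8,3),(0,4),(1,3),(1,10)]⟩⟩,⟨true,0,⟨0,[(28,0),(2,0)]⟩,⟨0,[(22,0),(6,0),(2,0)]⟩⟩,⟨true,0,⟨0,
  [(44,0)]⟩,⟨0,[(43,0)]⟩⟩,⟨false,0,⟨9,[(1,4),(0,4),(6,3),(1,1),(9,0),(6,4),(13,5)]⟩,⟨0,[(3,0),(8,0),
  (6,0),(9,0)]⟩⟩,⟨false,1,⟨3,[(26,0),(0,0),(18,1)]⟩,⟨0,[]⟩⟩,⟨false,0,⟨5,[(1,1),(0,3),(6,2),(3,0),
  (14,1),(13,1)]⟩,⟨0,[(3,0),(8,0),(16,0),(2,0)]⟩⟩,[.o ⟨false,0,⟨0,[(8,0),(35,0)]⟩,⟨3,[(26,0),(0,0),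
  (4,3),(13,1)]⟩⟩,.o ⟨false,1,⟨95,[(9,35),(1,19),(4,3),(4,11),(4,8),(0,8),(11,23),(6,57)]⟩,⟨0,[(32,
  0)]⟩⟩,.o ⟨false,1,⟨1,[(29,1),(9,0),(5,0)]⟩,⟨4,[(8,0),(2,0),(4,0),(11,4),(2,1),(0,2),(6,0),(2,
  1)]⟩⟩,.a ⟨true,0,⟨0,[(29,0)]⟩,⟨0,[(28,0)]⟩⟩ ⟨false,1,⟨0,[(3,0),(8,0)]⟩,⟨2,[(1,0),(3,0),(11,0),(9,
  0)]⟩⟩ ⟨true,0,⟨0,[(8,0),(19,0),(15,0)]⟩,⟨0,[(29,0),(2,0)]⟩⟩]⟩) (.R ⟨0,false,false,false,[1,0,0,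
  -1],[1,0,-1],[0,0,0,-1,0,0,0,0,-1],(⟨0,[(28,0)]⟩,⟨0,[(29,0)]⟩),(⟨0,[(37,0)]⟩,⟨0,[(38,0)]⟩),⟨0,[(0,
  0)]⟩,.k,.k,(.x (-1) ⟨15,[(7,3),(6,3),(3,3),(7,6),(0,6),(11,1)]⟩ ⟨0,[(41,0)]⟩),.k,.k,.k,⟨false,1,
  ⟨0,[(3,0),(2,0)]⟩,⟨10,[(0,1),(0,8),(0,1),(1,0),(0,0),(2,2),(4,1),(4,2),(1,1),(1,6)]⟩⟩,⟨true,0,⟨0,
  [(28,0),(2,0)]⟩,⟨18,[(0,9),(13,0),(3,4),(1,1),(4,6),(3,8),(9,0)]⟩⟩,⟨true,0,⟨0,[(44,0)]⟩,⟨0,[(43,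
  0)]⟩⟩,⟨false,0,⟨9,[(1,4),(0,4),(6,3),(1,1),(9,0),(6,4),(13,5)]⟩,⟨19,[(0,14),(5,8),(5,0),(0,2),(3,
  4),(0,9),(0,5),(0,4),(4,1),(0,9),(2,4)]⟩⟩,⟨false,0,⟨0,[]⟩,⟨0,[]⟩⟩,⟨false,0,⟨0,[]⟩,⟨0,[]⟩⟩,[.o
  ⟨false,0,⟨0,[(8,0),(35,0)]⟩,⟨3,[(26,0),(0,0),(4,3),(13,1)]⟩⟩,.o ⟨false,1,⟨95,[(9,35),(1,19),(4,3),
  (4,11),(4,8),(0,8),(11,23),(6,57)]⟩,⟨0,[(32,0)]⟩⟩,.o ⟨false,1,⟨1,[(29,1),(9,0),(5,0)]⟩,⟨4,[(8,0),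
  (2,0),(4,0),(11,4),(2,1),(0,2),(6,0),(2,1)]⟩⟩,.a ⟨true,0,⟨0,[(29,0)]⟩,⟨0,[(28,0)]⟩⟩ ⟨false,1,⟨0,
  [(3,0),(8,0)]⟩,⟨2,[(1,0),(3,0),(11,0),(9,0)]⟩⟩ ⟨true,0,⟨0,[(8,0),(19,0),(15,0)]⟩,⟨0,[(29,0),(2,
  0)]⟩⟩]⟩)) (.Q [0,0,0,0,0,-1,0,0,0,1,0,-1] (.ed true [0,1,0,1] .k) (.R ⟨1,false,false,true,[1,0,0,
  -1],[0,0,1],[1,0,0,0,0,0,0,0,-1],(⟨0,[(28,0)]⟩,⟨0,[(29,0)]⟩),(⟨0,[(38,0)]⟩,⟨0,[(37,0)]⟩),⟨0,[(0,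
  0)]⟩,.k,.k,(.x (-1) ⟨15,[(7,3),(6,3),(3,3),(7,6),(0,6),(11,1)]⟩ ⟨0,[(41,0)]⟩),.k,(.x (-1) ⟨9,[(4,
  1),(13,5),(2,3),(1,1),(2,2),(0,2),(11,1)]⟩ ⟨3,[(20,1),(13,0),(0,0),(5,1)]⟩),.k,⟨true,0,⟨10,[(1,8),
  (3,0),(3,1),(1,1),(10,3),(2,1),(0,0)]⟩,⟨0,[(2,0),(21,0),(4,0),(2,0),(11,0)]⟩⟩,⟨false,0,⟨3,[(1,0),
  (0,0),(8,0),(7,1),(2,0),(2,0),(2,2)]⟩,⟨4,[(7,2),(13,0),(7,4),(9,1)]⟩⟩,⟨true,0,⟨0,[]⟩,⟨0,[(48,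
  0)]⟩⟩,⟨false,0,⟨0,[(2,0),(25,0),(0,0),(2,0)]⟩,⟨15,[(1,9),(7,7),(2,3),(13,2),(2,15),(9,3),(5,3),(0,
  0)]⟩⟩,⟨false,1,⟨5,[(13,1),(12,0),(0,0),(11,0),(6,2)]⟩,⟨0,[(44,0)]⟩⟩,⟨false,0,⟨2,[(2,2),(10,0),(14,
  1),(0,1),(2,2)]⟩,⟨19,[(1,9),(7,7),(1,3),(0,9),(8,1),(4,4),(2,19),(9,4),(2,1)]⟩⟩,[.o ⟨false,0,⟨0,
  [(32,0)]⟩,⟨95,[(9,35),(1,19),(4,3),(4,11),(4,8),(0,8),(11,23),(6,57)]⟩⟩,.o ⟨false,1,⟨3,[(26,0),(0,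
  0),(4,3),(13,1)]⟩,⟨0,[(8,0),(35,0)]⟩⟩,.o ⟨false,1,⟨1,[(29,1),(9,0),(5,0)]⟩,⟨16,[(1,2),(0,4),(8,1),
  (4,3),(9,0),(1,11),(2,5),(0,5),(6,2)]⟩⟩,.a ⟨true,0,⟨0,[(29,0)]⟩,⟨0,[(28,0)]⟩⟩ ⟨false,1,⟨3,[(1,1),
  (24,0),(18,1),(0,0)]⟩,⟨7,[(2,3),(8,0),(2,0),(1,0),(4,0),(2,0),(2,1),(1,3),(2,1),(4,0),(3,1)]⟩⟩
  ⟨true,0,⟨0,[(28,0),(3,0)]⟩,⟨0,[(8,0),(20,0),(14,0)]⟩⟩]⟩) (.R ⟨0,false,false,true,[1,0,0,-1],[0,0,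
  1],[1,0,0,0,0,0,0,0,-1],(⟨0,[(28,0)]⟩,⟨0,[(29,0)]⟩),(⟨0,[(38,0)]⟩,⟨0,[(37,0)]⟩),⟨0,[(0,0)]⟩,.k,.k,
  (.x (-1) ⟨15,[(7,3),(6,3),(3,3),(7,6),(0,6),(11,1)]⟩ ⟨0,[(41,0)]⟩),.k,.k,.k,⟨true,0,⟨10,[(1,8),(3,
  0),(3,1),(1,1),(10,3),(2,1),(0,0)]⟩,⟨0,[(2,0),(21,0),(4,0),(2,0),(11,0)]⟩⟩,⟨false,0,⟨3,[(1,0),(0,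
  0),(8,0),(7,1),(2,0),(2,0),(2,2)]⟩,⟨4,[(7,2),(13,0),(7,4),(9,1)]⟩⟩,⟨true,0,⟨0,[]⟩,⟨0,[(48,0)]⟩⟩,
  ⟨false,0,⟨0,[(2,0),(25,0),(0,0),(2,0)]⟩,⟨15,[(1,9),(7,7),(2,3),(13,2),(2,15),(9,3),(5,3),(0,0)]⟩⟩,
  ⟨false,0,⟨0,[]⟩,⟨0,[]⟩⟩,⟨false,0,⟨0,[]⟩,⟨0,[]⟩⟩,[.o ⟨false,0,⟨0,[(32,0)]⟩,⟨95,[(9,35),(1,19),(4,
  3),(4,11),(4,8),(0,8),(11,23),(6,57)]⟩⟩,.o ⟨false,1,⟨3,[(26,0),(0,0),(4,3),(13,1)]⟩,⟨24,[(0,3),(0,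
  3),(0,3),(3,0),(1,17),(2,7),(2,0),(3,0),(2,3)]⟩⟩,.o ⟨false,1,⟨1,[(29,1),(9,0),(5,0)]⟩,⟨16,[(1,2),
  (0,4),(8,1),(4,3),(9,0),(1,11),(2,5),(0,5),(6,2)]⟩⟩,.a ⟨true,0,⟨0,[(29,0)]⟩,⟨0,[(28,0)]⟩⟩ ⟨false,
  1,⟨3,[(1,1),(24,0),(18,1),(0,0)]⟩,⟨7,[(2,3),(8,0),(2,0),(1,0),(4,0),(2,0),(2,1),(1,3),(2,1),(4,0),
  (3,1)]⟩⟩ ⟨true,0,⟨0,[(28,0),(3,0)]⟩,⟨20,[(0,11),(5,0),(2,9),(1,1),(0,1),(1,2),(3,2),(2,1),(7,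
  8)]⟩⟩]⟩)))) (.Q [0,0,0,1,0,0,0,0,0,0,0,1] (.p true [0,0,0,1] [] (⟨0,[(26,0)]⟩,⟨0,[(25,0)]⟩) .k 0
  (⟨0,[]⟩,⟨0,[]⟩) .k .k) (.R ⟨1,false,false,true,[0,0,0,1],[0,1],[1,0,0,0,0,0,0,0,1],(⟨0,[(27,0)]⟩,
  ⟨0,[(26,0)]⟩),(⟨0,[(39,0)]⟩,⟨0,[(38,0)]⟩),⟨3,[(0,0),(3,0),(1,0),(5,0),(3,0),(10,2)]⟩,.k,.k,(.x 0
  ⟨7,[(12,1),(3,1),(2,1),(4,0),(0,0),(6,5),(0,3)]⟩ ⟨19,[(2,7),(15,3),(5,0),(0,0),(17,9)]⟩),(.x 0 ⟨7,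
  [(12,1),(3,1),(2,1),(4,0),(0,0),(6,5),(0,3)]⟩ ⟨19,[(2,7),(15,3),(5,0),(0,0),(17,9)]⟩),(.r (-1)
  ⟨21,[(1,7),(2,5),(4,5),(0,5),(14,6),(17,2)]⟩ ⟨11,[(3,7),(11,3),(1,3),(6,6),(0,0),(7,3)]⟩),.k,
  ⟨false,1,⟨1,[(1,1),(41,0),(0,0)]⟩,⟨1,[(14,0),(7,0),(1,0),(5,0)]⟩⟩,⟨true,1,⟨0,[(27,0),(15,0)]⟩,⟨0,
  [(6,0),(7,0),(0,0),(10,0),(3,0),(11,2)]⟩⟩,⟨true,0,⟨0,[]⟩,⟨0,[(46,0)]⟩⟩,⟨false,1,⟨1,[(0,1),(23,0),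
  (18,0)]⟩,⟨4,[(1,4),(12,0),(11,4),(2,2),(0,0),(1,1),(4,0),(2,2),(1,0)]⟩⟩,⟨false,1,⟨5,[(11,1),(12,
  0),(0,0),(11,0),(6,2)]⟩,⟨0,[(42,0)]⟩⟩,⟨false,1,⟨5,[(0,5),(5,1),(3,1),(0,1),(5,1),(6,2),(18,0)]⟩,
  ⟨4,[(1,4),(12,0),(11,4),(2,2),(0,0),(1,1),(4,0),(2,2),(1,5)]⟩⟩,[.o ⟨false,0,⟨0,[(41,0)]⟩,⟨7,[(4,
  1),(4,1),(19,1),(2,1),(4,2),(2,1),(3,2)]⟩⟩,.a ⟨true,0,⟨2,[(11,0),(14,1),(0,1)]⟩,⟨0,[(42,0)]⟩⟩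
  ⟨true,0,⟨13,[(1,11),(1,1),(7,1),(3,1),(9,0),(11,0),(2,5)]⟩,⟨3,[(9,0),(2,0),(1,0),(4,0),(2,0),(1,
  1),(5,1),(4,0),(3,1)]⟩⟩ ⟨false,1,⟨0,[(0,0),(42,0)]⟩,⟨9,[(6,0),(2,5),(4,0),(11,9),(2,6),(0,7),(6,
  0),(2,6)]⟩⟩,.o ⟨false,0,⟨4,[(6,0),(2,0),(4,0),(11,4),(2,1),(0,2),(6,0),(2,1)]⟩,⟨1,[(27,1),(9,0),
  (5,0)]⟩⟩,.o ⟨false,0,⟨0,[(26,0),(2,0),(2,0)]⟩,⟨0,[(6,0),(3,0),(6,0),(9,0)]⟩⟩]⟩) (.R ⟨1,false,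
  false,false,[1,0,0,-1],[1,-1],[0,1,0,-1,0,0,0,0,-1],(⟨0,[(26,0)]⟩,⟨0,[(27,0)]⟩),(⟨0,[(38,0)]⟩,⟨0,
  [(39,0)]⟩),⟨7,[(0,2),(4,1),(5,0),(0,1),(3,1),(9,4)]⟩,.k,.k,(.x (-1) ⟨15,[(5,3),(6,3),(3,3),(7,6),
  (0,6),(11,1)]⟩ ⟨0,[(39,0)]⟩),(.x (-1) ⟨19,[(2,7),(15,3),(5,0),(0,0),(17,9)]⟩ ⟨7,[(12,1),(3,1),(2,
  1),(4,0),(0,0),(6,5),(0,3)]⟩),.k,.k,⟨true,0,⟨3,[(9,0),(2,0),(1,0),(4,0),(2,0),(1,1),(5,1),(4,0),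
  (3,1)]⟩,⟨13,[(1,11),(1,1),(7,1),(3,1),(9,0),(11,0),(2,5)]⟩⟩,⟨false,0,⟨11,[(0,3),(13,1),(0,0),(1,
  0),(8,7),(2,3),(2,2),(4,1)]⟩,⟨0,[(27,0),(15,0)]⟩⟩,⟨false,0,⟨0,[(42,0)]⟩,⟨5,[(11,1),(12,0),(0,0),
  (11,0),(6,2)]⟩⟩,⟨false,0,⟨15,[(0,15),(0,7),(12,3),(0,3),(9,3),(6,2),(0,2),(6,5)]⟩,⟨5,[(6,1),(3,1),
  (0,1),(5,1),(6,2),(2,5),(15,0)]⟩⟩,⟨true,0,⟨0,[(46,0)]⟩,⟨0,[]⟩⟩,⟨false,0,⟨55,[(0,55),(0,21),(1,19),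
  (7,5),(3,19),(9,16),(11,2),(2,17)]⟩,⟨1,[(24,0),(2,1),(15,0)]⟩⟩,[.e ⟨false,1,⟨11,[(4,3),(4,3),(14,
  6),(0,0),(15,3),(4,3)]⟩,⟨15,[(1,15),(1,2),(2,0),(4,6),(3,2),(1,0),(19,2),(2,6)]⟩⟩ ⟨false,0,⟨0,[(0,
  0)]⟩,⟨5,[(11,1),(12,0),(0,0),(1,5),(9,0),(5,2)]⟩⟩,.o ⟨false,1,⟨7,[(4,1),(4,1),(19,1),(2,1),(4,2),
  (2,1),(3,2)]⟩,⟨0,[(41,0)]⟩⟩,.o ⟨false,1,⟨1,[(27,1),(9,0),(5,0)]⟩,⟨11,[(0,3),(13,1),(0,0),(1,0),(8,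
  7),(2,3),(2,2),(4,1)]⟩⟩,.a ⟨true,0,⟨0,[(27,0)]⟩,⟨0,[(26,0)]⟩⟩ ⟨false,1,⟨23,[(4,3),(4,3),(0,3),(13,
  12),(0,0),(17,1)]⟩,⟨55,[(1,21),(1,19),(7,5),(3,19),(9,16),(11,2),(2,17)]⟩⟩ ⟨true,0,⟨0,[(0,0)]⟩,⟨0,
  [(27,0),(13,0)]⟩⟩]⟩)))))) (.Q [0,-1,-1,1,1,0,0,0,-1,0,0,1] (.p true [0,0,0,1] [] (⟨0,[(22,0)]⟩,⟨0,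
  [(21,0)]⟩) .k 0 (⟨0,[]⟩,⟨0,[]⟩) .k .k) (.Q [0,1,-1,0,0,0,0,0,-1,0,0,1] (.p true [0,0,0,1] [] (⟨0,
  [(23,0)]⟩,⟨0,[(22,0)]⟩) .k 0 (⟨0,[]⟩,⟨0,[]⟩) .k .k) (.Q [0,1,1,0,0,0,0,0,1,0,0,-1] (.p false [0,0,
  0,1] [] (⟨0,[(24,0)]⟩,⟨0,[(23,0)]⟩) .k 0 (⟨0,[]⟩,⟨0,[]⟩) .k .k) (.K ⟨0,[0,0,0,1],0,0,(⟨0,[(25,
  0)]⟩,⟨0,[(24,0)]⟩),.k,(.r (-1) ⟨27,[(7,3),(0,11),(11,3),(1,0),(0,14),(4,3)]⟩ ⟨31,[(1,5),(1,1),(0,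
  4),(7,10),(0,10),(1,4),(1,0),(4,12),(1,5)]⟩),(.x 0 ⟨0,[(37,0)]⟩ ⟨15,[(10,3),(3,3),(2,1),(4,6),(0,
  6),(11,0),(5,4)]⟩),.k,.k,[⟨0,[(25,0)]⟩,⟨0,[(24,0)]⟩,⟨0,[(1,0)]⟩,⟨0,[(0,0)]⟩]⟩) (.R ⟨1,false,false,
  true,[0,0,0,1],[0,1],[1,0,0,0,0,0,0,0,1],(⟨0,[(25,0)]⟩,⟨0,[(24,0)]⟩),(⟨0,[(37,0)]⟩,⟨0,[(36,0)]⟩),
  ⟨15,[(0,7),(3,0),(2,2),(2,3),(3,3),(0,3),(1,2),(2,0),(2,3),(1,7)]⟩,.k,.k,(.r (-1) ⟨27,[(7,3),(0,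
  11),(11,3),(1,0),(0,14),(4,3)]⟩ ⟨81,[(0,11),(3,2),(4,1),(2,34),(0,12),(1,24),(1,10),(4,34),(1,
  11)]⟩),(.r (-1) ⟨27,[(7,3),(0,11),(11,3),(1,0),(0,14),(4,3)]⟩ ⟨81,[(0,11),(3,2),(4,1),(2,34),(0,
  12),(1,24),(1,10),(4,34),(1,11)]⟩),(.r (-2) ⟨27,[(7,7),(0,23),(11,7),(1,8),(0,22),(4,7)]⟩ ⟨9,[(0,
  7),(2,3),(0,2),(7,6),(0,0),(1,8),(1,4),(4,0),(1,7)]⟩),.k,⟨false,2,⟨7,[(8,3),(13,0),(0,4),(17,3),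
  (0,1)]⟩,⟨1,[(0,1),(2,1),(0,0),(2,0),(7,1),(1,0),(2,0),(3,1)]⟩⟩,⟨true,1,⟨0,[(25,0),(15,0)]⟩,⟨0,[(3,
  0),(20,0),(2,0)]⟩⟩,⟨true,0,⟨0,[]⟩,⟨0,[(44,0)]⟩⟩,⟨false,0,⟨4,[(0,2),(0,1),(2,0),(4,0),(5,0)]⟩,⟨11,
  [(3,3),(4,5),(14,5),(0,11),(2,9),(2,5),(4,0),(6,2)]⟩⟩,⟨false,1,⟨5,[(9,1),(12,0),(0,0),(11,0),(6,
  2)]⟩,⟨0,[(40,0)]⟩⟩,⟨false,0,⟨9,[(0,6),(0,2),(2,3),(4,3),(5,3)]⟩,⟨5,[(3,1),(4,3),(14,2),(0,5),(2,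
  5),(2,3),(9,3),(1,0)]⟩⟩,[.o ⟨false,0,⟨0,[(39,0)]⟩,⟨3,[(8,1),(18,1),(2,1),(4,0),(6,0)]⟩⟩,.a ⟨true,
  0,⟨2,[(9,0),(14,1),(0,1)]⟩,⟨0,[(40,0)]⟩⟩ ⟨true,1,⟨1,[(23,0),(18,0)]⟩,⟨3,[(0,3),(2,3),(0,0),(2,2),
  (7,3),(1,2),(2,0),(3,3)]⟩⟩ ⟨false,1,⟨9,[(0,1),(3,1),(4,1),(5,1),(7,0),(1,7),(15,8)]⟩,⟨2,[(3,0),
  (20,2),(2,0),(7,0),(4,2)]⟩⟩,.o ⟨false,0,⟨2,[(3,0),(20,2),(2,0),(7,0)]⟩,⟨1,[(25,1),(9,0),(5,0)]⟩⟩,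
  .o ⟨false,0,⟨0,[(24,0),(2,0),(2,0)]⟩,⟨0,[(4,0),(3,0),(6,0),(9,0)]⟩⟩]⟩)) (.I [0,0,1,0,0,0,0,0,-1]
  (.Q [0,0,0,0,0,-1,0,0,0,1,0,-1] (.ed true [0,1,0,1] .k) (.I [0,-1,1,1,0,0,0,0,-1] (.Q [0,0,0,0,0,
  -1,0,0,0,0,0,1] (.ed false [1,-1,0,1] .k) (.I [1,-1,0,0,0,0,0,-1,-1] (.R ⟨1,false,false,true,[1,0,
  0,-1],[0,-1,1],[1,1,0,0,0,0,0,0,-1],(⟨0,[(28,0)]⟩,⟨0,[(29,0)]⟩),(⟨10,[(8,0),(3,5),(0,0),(0,5),(2,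
  0),(2,0),(3,6),(13,2)]⟩,⟨0,[(37,0),(3,0)]⟩),⟨0,[(3,0)]⟩,.k,.k,(.x (-1) ⟨15,[(14,3),(3,3),(2,1),(4,
  6),(0,6),(11,0),(5,4)]⟩ ⟨0,[(41,0)]⟩),(.r 0 ⟨15,[(8,1),(0,2),(3,0),(2,7),(8,3),(0,7)]⟩ ⟨0,[(5,0),
  (6,0),(11,0),(4,0),(2,0)]⟩),.k,.k,⟨false,0,⟨0,[(0,0),(42,0)]⟩,⟨0,[(5,0),(6,0),(11,0),(4,0),(2,
  0)]⟩⟩,⟨true,(-1),⟨0,[(7,0),(20,0)]⟩,⟨3,[(21,1),(7,3),(9,0),(5,2)]⟩⟩,⟨false,0,⟨0,[]⟩,⟨3,[(26,0),(0,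
  0),(18,1)]⟩⟩,⟨false,0,⟨0,[(5,0),(22,0),(0,0),(2,0),(11,0)]⟩,⟨24,[(0,4),(5,19),(1,16),(2,2),(0,2),
  (8,3),(7,4),(9,1)]⟩⟩,⟨true,0,⟨0,[(43,0)]⟩,⟨0,[(44,0)]⟩⟩,⟨false,0,⟨0,[(5,0),(22,0),(0,0),(2,0)]⟩,
  ⟨24,[(0,9),(5,14),(1,8),(2,5),(0,5),(8,7),(7,9),(9,3)]⟩⟩,[.o ⟨false,0,⟨0,[(32,0),(11,0)]⟩,⟨11,[(9,
  5),(3,1),(12,0),(0,0),(11,3),(6,5)]⟩⟩,.o ⟨false,1,⟨3,[(26,0),(0,0),(4,3),(11,3),(1,1)]⟩,⟨0,[(8,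
  0)]⟩⟩,.o ⟨false,1,⟨1,[(29,1),(9,0),(5,0)]⟩,⟨2,[(7,0),(20,2),(2,0),(7,0)]⟩⟩,.a ⟨true,0,⟨0,[(29,
  0)]⟩,⟨0,[(28,0)]⟩⟩ ⟨false,1,⟨1,[(26,0),(18,0)]⟩,⟨0,[(5,0),(23,0)]⟩⟩ ⟨true,0,⟨0,[(28,0),(3,0),(11,
  0)]⟩,⟨0,[(8,0),(20,0)]⟩⟩]⟩) (.R ⟨1,false,false,false,[1,0,0,-1],[1,-1,-1],[0,1,0,-1,0,0,0,0,-1],
  (⟨0,[(28,0)]⟩,⟨0,[(29,0)]⟩),(⟨0,[(23,0)]⟩,⟨0,[(38,0),(2,0)]⟩),⟨0,[(3,0)]⟩,.k,.k,(.x (-1) ⟨15,[(14,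
  3),(3,3),(2,1),(4,6),(0,6),(11,0),(5,4)]⟩ ⟨0,[(41,0)]⟩),(.x (-1) ⟨7,[(20,3),(5,0),(0,0),(13,3),(3,
  5)]⟩ ⟨0,[(21,0),(1,0),(10,0)]⟩),.k,.k,⟨true,0,⟨0,[(2,0),(21,0),(7,0),(11,1)]⟩,⟨0,[(0,0),(21,1)]⟩⟩,
  ⟨false,0,⟨0,[(28,0),(2,0)]⟩,⟨1,[(8,0),(3,0),(6,0),(5,0),(3,1),(15,0)]⟩⟩,⟨false,0,⟨0,[(44,0)]⟩,⟨5,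
  [(13,1),(12,0),(0,0),(11,0),(6,2)]⟩⟩,⟨false,0,⟨9,[(5,9),(3,1),(1,5),(9,2),(6,4),(0,4),(12,2)]⟩,⟨0,
  [(6,0),(25,0)]⟩⟩,⟨true,0,⟨0,[(48,0)]⟩,⟨0,[]⟩⟩,⟨false,0,⟨9,[(5,9),(3,3),(1,1),(9,0),(6,4),(0,4),
  (12,0)]⟩,⟨2,[(4,0),(1,1),(5,0),(16,0),(2,2)]⟩⟩,[.o ⟨false,0,⟨4,[(7,1),(0,2),(2,1),(0,1),(8,1)]⟩,
  ⟨3,[(19,3),(6,0),(0,0),(18,1)]⟩⟩,.o ⟨false,1,⟨31,[(9,3),(1,19),(4,3),(4,11),(4,0),(0,0),(11,7),(6,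
  25)]⟩,⟨0,[(19,0)]⟩⟩,.o ⟨false,1,⟨1,[(29,1),(9,0),(5,0)]⟩,⟨2,[(7,0),(20,2),(2,0),(7,0)]⟩⟩,.a ⟨true,
  0,⟨0,[(29,0)]⟩,⟨0,[(28,0)]⟩⟩ ⟨false,1,⟨11,[(0,1),(10,1),(0,3),(13,6),(18,0)]⟩,⟨20,[(0,12),(6,3),
  (0,4),(4,4),(5,0),(2,8),(4,3),(14,12)]⟩⟩ ⟨true,0,⟨4,[(7,1),(0,2),(2,1),(0,1),(8,1),(6,4)]⟩,⟨0,
  [(19,0),(9,0)]⟩⟩]⟩)) (.I [0,-1,0,0,0,0,0,-1,1] (.R ⟨0,false,false,false,[0,0,0,1],[0,1],[0,1,0,0,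
  0,0,0,0,1],(⟨0,[(29,0)]⟩,⟨0,[(28,0)]⟩),(⟨0,[(41,0)]⟩,⟨0,[(40,0)]⟩),⟨0,[(1,0)]⟩,.k,.k,(.r (-1) ⟨27,
  [(11,3),(0,11),(11,3),(1,0),(0,14),(4,3)]⟩ ⟨4,[(2,1),(1,0),(11,0),(2,0),(4,0),(1,0)]⟩),(.r (-1)
  ⟨27,[(11,3),(0,11),(11,3),(1,0),(0,14),(4,3)]⟩ ⟨4,[(2,1),(1,0),(11,0),(2,0),(4,0),(1,0)]⟩),.k,.k,
  ⟨false,1,⟨4,[(0,2),(10,1),(0,3),(6,1),(4,4),(2,0),(4,2)]⟩,⟨0,[(2,0)]⟩⟩,⟨true,1,⟨0,[(29,0),(15,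
  0)]⟩,⟨0,[(7,0),(20,0),(2,0)]⟩⟩,⟨true,0,⟨0,[(48,0)]⟩,⟨0,[]⟩⟩,⟨false,1,⟨0,[(6,0)]⟩,⟨1,[(5,1),(5,0),
  (20,0),(2,0)]⟩⟩,⟨false,0,⟨0,[]⟩,⟨0,[]⟩⟩,⟨false,0,⟨0,[]⟩,⟨0,[]⟩⟩,[.a ⟨true,0,⟨2,[(13,0),(14,1),(0,
  1)]⟩,⟨0,[(44,0)]⟩⟩ ⟨true,0,⟨0,[(0,0),(23,0),(7,0),(11,0)]⟩,⟨0,[(2,0),(41,0)]⟩⟩ ⟨false,1,⟨2,[(8,0),
  (3,0),(0,0),(5,0),(9,2),(15,1)]⟩,⟨3,[(1,0),(1,0),(1,1),(1,0),(3,0),(9,0),(4,0),(5,0),(11,1)]⟩⟩,.o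
  ⟨false,1,⟨5,[(13,1),(12,0),(0,0),(11,0),(6,2)]⟩,⟨4,[(7,1),(0,2),(2,1),(0,1),(8,1),(10,4)]⟩⟩,.o
  ⟨false,0,⟨2,[(7,0),(20,2),(2,0),(7,0)]⟩,⟨1,[(29,1),(9,0),(5,0)]⟩⟩,.o ⟨false,0,⟨0,[(28,0),(2,0),(2,
  0)]⟩,⟨0,[(8,0),(3,0),(6,0),(9,0)]⟩⟩]⟩) (.R ⟨1,false,false,true,[1,0,0,-1],[0,-1,1],[1,0,0,0,0,0,0,
  0,-1],(⟨0,[(28,0)]⟩,⟨0,[(29,0)]⟩),(⟨10,[(8,0),(3,5),(0,0),(0,5),(2,0),(2,0),(3,6),(13,2)]⟩,⟨0,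
  [(37,0),(3,0)]⟩),⟨0,[(3,0)]⟩,.k,.k,(.x (-1) ⟨15,[(14,3),(3,3),(2,1),(4,6),(0,6),(11,0),(5,4)]⟩ ⟨0,
  [(41,0)]⟩),(.r 0 ⟨15,[(8,1),(0,2),(3,0),(2,7),(8,3),(0,7)]⟩ ⟨0,[(5,0),(6,0),(11,0),(4,0),(2,0)]⟩),
  .k,.k,⟨false,0,⟨1,[(0,1),(6,0),(0,0),(3,0),(0,0),(8,2)]⟩,⟨2,[(5,0),(6,1),(11,2),(2,0),(1,0),(2,2),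
  (11,1)]⟩⟩,⟨true,(-1),⟨0,[(7,0),(20,0)]⟩,⟨3,[(21,1),(7,3),(9,0),(5,2)]⟩⟩,⟨true,0,⟨0,[]⟩,⟨0,[(48,
  0)]⟩⟩,⟨false,0,⟨0,[(5,0),(22,0),(0,0),(2,0),(11,0)]⟩,⟨4,[(6,4),(0,0),(0,3),(2,0),(0,0),(8,0)]⟩⟩,
  ⟨false,1,⟨5,[(13,1),(12,0),(0,0),(11,0),(6,2)]⟩,⟨0,[(44,0)]⟩⟩,⟨false,0,⟨0,[(5,0),(22,0),(0,0),(2,
  0)]⟩,⟨4,[(6,4),(0,1),(0,2),(2,1),(0,1),(8,1)]⟩⟩,[.o ⟨false,0,⟨0,[(32,0),(11,0)]⟩,⟨11,[(9,5),(3,1),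
  (12,0),(0,0),(11,3),(6,5)]⟩⟩,.o ⟨false,1,⟨3,[(26,0),(0,0),(4,3),(11,3),(1,1)]⟩,⟨0,[(8,0)]⟩⟩,.o
  ⟨false,1,⟨1,[(29,1),(9,0),(5,0)]⟩,⟨2,[(7,0),(20,2),(2,0),(7,0)]⟩⟩,.a ⟨true,0,⟨0,[(29,0)]⟩,⟨0,[(28,
  0)]⟩⟩ ⟨false,1,⟨5,[(2,3),(9,1),(13,0),(18,2)]⟩,⟨2,[(5,0),(1,0),(16,0),(2,0),(1,0),(14,0)]⟩⟩ ⟨true,
  0,⟨0,[(28,0),(3,0),(11,0)]⟩,⟨0,[(8,0),(20,0)]⟩⟩]⟩))) (.R ⟨1,false,false,false,[1,0,0,-1],[1,0,-1],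
  [0,1,0,-1,0,0,0,0,-1],(⟨0,[(26,0)]⟩,⟨0,[(27,0)]⟩),(⟨0,[(35,0)]⟩,⟨0,[(36,0)]⟩),⟨0,[(1,0)]⟩,.k,.k,
  (.x (-1) ⟨15,[(12,3),(3,3),(2,1),(4,6),(0,6),(11,0),(5,4)]⟩ ⟨0,[(39,0)]⟩),.k,(.x 0 ⟨19,[(12,11),
  (5,3),(5,0),(0,0),(17,9)]⟩ ⟨3,[(19,1),(4,0),(0,0),(9,3),(1,0),(1,3),(3,0)]⟩),.k,⟨false,1,⟨0,[(2,
  0),(7,0),(11,0),(7,0)]⟩,⟨28,[(0,22),(4,2),(0,10),(4,10),(5,7),(2,25),(4,2),(14,16)]⟩⟩,⟨true,0,⟨0,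
  [(26,0),(2,0)]⟩,⟨2,[(5,0),(0,0),(3,0),(6,0),(5,0),(3,2)]⟩⟩,⟨false,0,⟨0,[(42,0)]⟩,⟨5,[(11,1),(12,
  0),(0,0),(11,0),(6,2)]⟩⟩,⟨false,0,⟨3,[(0,0),(2,2),(3,0),(18,0),(4,1),(8,1)]⟩,⟨2,[(2,0),(1,1),(5,
  0),(16,0),(2,2)]⟩⟩,⟨true,0,⟨0,[(46,0)]⟩,⟨0,[]⟩⟩,⟨false,0,⟨14,[(0,1),(2,10),(3,6),(3,2),(2,0),(10,
  0),(0,3),(6,0),(6,2)]⟩,⟨2,[(2,1),(1,0),(5,1),(16,1),(2,2)]⟩⟩,[.o ⟨false,0,⟨4,[(5,0),(0,3),(2,0),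
  (0,0),(8,0)]⟩,⟨3,[(24,0),(0,0),(4,3),(13,1)]⟩⟩,.o ⟨false,1,⟨95,[(7,35),(1,19),(4,3),(4,11),(4,8),
  (0,8),(11,23),(6,57)]⟩,⟨0,[(30,0)]⟩⟩,.o ⟨false,1,⟨1,[(0,0),(3,0),(22,0),(9,0)]⟩,⟨2,[(5,0),(20,2),
  (2,0),(7,0)]⟩⟩,.a ⟨true,0,⟨0,[(27,0)]⟩,⟨0,[(26,0)]⟩⟩ ⟨false,1,⟨2,[(0,0),(9,0),(13,1)]⟩,⟨6,[(0,2),
  (4,1),(0,1),(4,1),(3,1),(9,1),(14,3)]⟩⟩ ⟨true,0,⟨4,[(5,0),(0,3),(2,0),(0,0),(8,0),(6,4)]⟩,⟨0,[(27,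
  0),(2,0)]⟩⟩]⟩)) (.I [0,1,-2,-1,1,0,0,0,-1] (.R ⟨0,false,false,false,[1,0,0,-1],[1,0,-1],[1,0,0,0,
  0,0,0,0,-1],(⟨0,[(26,0)]⟩,⟨0,[(27,0)]⟩),(⟨0,[(35,0)]⟩,⟨0,[(36,0)]⟩),⟨0,[(1,0)]⟩,.k,.k,(.x (-1)
  ⟨15,[(12,3),(3,3),(2,1),(4,6),(0,6),(11,0),(5,4)]⟩ ⟨0,[(39,0)]⟩),.k,.k,.k,⟨false,1,⟨0,[(0,0),(14,
  0)]⟩,⟨4,[(1,2),(1,4),(2,0),(2,3),(1,1),(4,1),(1,0),(3,0),(4,1)]⟩⟩,⟨true,0,⟨0,[(26,0),(2,0)]⟩,⟨18,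
  [(1,9),(10,0),(3,4),(1,1),(4,6),(3,8),(9,0)]⟩⟩,⟨true,0,⟨0,[]⟩,⟨0,[(46,0)]⟩⟩,⟨false,0,⟨9,[(3,9),(3,
  3),(1,1),(9,0),(6,4),(0,4),(12,0)]⟩,⟨2,[(2,0),(1,1),(5,0),(16,0),(2,2)]⟩⟩,⟨false,0,⟨0,[]⟩,⟨0,[]⟩⟩,
  ⟨false,0,⟨0,[]⟩,⟨0,[]⟩⟩,[.o ⟨false,0,⟨4,[(5,0),(0,3),(2,0),(0,0),(8,0)]⟩,⟨3,[(24,0),(0,0),(4,3),
  (13,1)]⟩⟩,.o ⟨false,1,⟨95,[(7,35),(1,19),(4,3),(4,11),(4,8),(0,8),(11,23),(6,57)]⟩,⟨0,[(30,0)]⟩⟩,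
  .o ⟨false,1,⟨1,[(27,1),(9,0),(5,0)]⟩,⟨2,[(5,0),(20,2),(2,0),(7,0)]⟩⟩,.a ⟨true,0,⟨0,[(27,0)]⟩,⟨0,
  [(26,0)]⟩⟩ ⟨false,1,⟨0,[(0,0),(14,0),(4,0)]⟩,⟨2,[(3,0),(1,0),(16,0),(2,0),(1,0),(14,0)]⟩⟩ ⟨true,0,
  ⟨4,[(5,0),(0,3),(2,0),(0,0),(8,0),(6,4)]⟩,⟨0,[(27,0),(2,0)]⟩⟩]⟩) (.R ⟨0,false,false,false,[1,0,0,
  -1],[1,0,-1],[0,1,0,0,0,0,0,0,-1],(⟨0,[(26,0)]⟩,⟨0,[(27,0)]⟩),(⟨0,[(35,0)]⟩,⟨0,[(36,0)]⟩),⟨0,[(1,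
  0)]⟩,.k,.k,(.x (-1) ⟨15,[(12,3),(3,3),(2,1),(4,6),(0,6),(11,0),(5,4)]⟩ ⟨0,[(39,0)]⟩),.k,.k,.k,
  ⟨false,1,⟨0,[(2,0),(7,0),(6,0),(4,0)]⟩,⟨5,[(0,3),(8,1),(10,3),(4,0),(17,2)]⟩⟩,⟨true,0,⟨0,[(26,0),
  (2,0)]⟩,⟨18,[(1,9),(10,0),(3,4),(1,1),(4,6),(3,8),(9,0)]⟩⟩,⟨true,0,⟨0,[(46,0)]⟩,⟨0,[]⟩⟩,⟨false,0,
  ⟨29,[(0,4),(2,14),(3,10),(1,7),(9,3),(5,4),(0,14),(13,8)]⟩,⟨2,[(2,0),(1,1),(5,0),(16,0),(2,2)]⟩⟩,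
  ⟨false,0,⟨0,[]⟩,⟨0,[]⟩⟩,⟨false,0,⟨0,[]⟩,⟨0,[]⟩⟩,[.o ⟨false,0,⟨4,[(5,0),(0,3),(2,0),(0,0),(8,0)]⟩,
  ⟨3,[(24,0),(0,0),(4,3),(13,1)]⟩⟩,.o ⟨false,1,⟨95,[(7,35),(1,19),(4,3),(4,11),(4,8),(0,8),(11,23),
  (6,57)]⟩,⟨0,[(30,0)]⟩⟩,.o ⟨false,1,⟨1,[(27,1),(9,0),(5,0)]⟩,⟨2,[(5,0),(20,2),(2,0),(7,0)]⟩⟩,.a
  ⟨true,0,⟨0,[(27,0)]⟩,⟨0,[(26,0)]⟩⟩ ⟨false,1,⟨1,[(24,0),(18,0)]⟩,⟨2,[(0,0),(24,0),(14,0),(1,0)]⟩⟩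
  ⟨true,0,⟨4,[(5,0),(0,3),(2,0),(0,0),(8,0),(6,4)]⟩,⟨0,[(27,0),(2,0)]⟩⟩]⟩))) (.Q [0,0,0,0,0,-1,0,0,
  0,0,0,1] (.ed false [1,-1,0,1] .k) (.R ⟨1,false,false,true,[0,0,0,1],[0,1],[1,0,0,0,0,0,0,0,1],
  (⟨0,[(26,0)]⟩,⟨0,[(25,0)]⟩),(⟨0,[(38,0)]⟩,⟨0,[(37,0)]⟩),⟨0,[(0,0)]⟩,.k,.k,(.r 0 ⟨0,[(1,0),(39,
  0)]⟩ ⟨43,[(10,3),(2,15),(0,7),(1,7),(1,3),(4,40),(0,18)]⟩),(.r 0 ⟨0,[(1,0),(39,0)]⟩ ⟨43,[(10,3),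
  (2,15),(0,7),(1,7),(1,3),(4,40),(0,18)]⟩),(.r (-1) ⟨21,[(1,9),(6,6),(0,15),(11,1),(2,5),(4,6),(2,
  4)]⟩ ⟨43,[(10,7),(2,31),(0,15),(1,15),(1,7),(4,26),(0,4)]⟩),.k,⟨false,1,⟨7,[(1,5),(7,3),(14,0),
  (17,0),(0,1)]⟩,⟨3,[(4,0),(8,0),(2,0),(4,1),(1,1),(21,0)]⟩⟩,⟨true,1,⟨0,[(26,0),(15,0)]⟩,⟨0,[(4,0),
  (20,0),(2,0)]⟩⟩,⟨true,0,⟨0,[]⟩,⟨0,[(45,0)]⟩⟩,⟨false,1,⟨0,[(3,0),(41,0)]⟩,⟨0,[(2,0),(38,0)]⟩⟩,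
  ⟨false,1,⟨5,[(10,1),(12,0),(0,0),(11,0),(6,2)]⟩,⟨0,[(41,0)]⟩⟩,⟨false,1,⟨0,[(3,0),(36,0)]⟩,⟨0,[(2,
  0),(38,1)]⟩⟩,[.o ⟨false,0,⟨0,[(40,0)]⟩,⟨3,[(9,1),(18,1),(2,1),(4,0),(6,0)]⟩⟩,.a ⟨true,0,⟨2,[(10,
  0),(14,1),(0,1)]⟩,⟨0,[(41,0)]⟩⟩ ⟨true,0,⟨9,[(1,7),(2,0),(19,0),(7,0),(6,4)]⟩,⟨3,[(4,1),(3,0),(12,
  1),(1,1),(5,0),(2,0)]⟩⟩ ⟨false,1,⟨1,[(1,0),(1,0),(22,0),(13,0),(1,0)]⟩,⟨2,[(4,0),(20,2),(2,0),(7,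
  0),(4,2)]⟩⟩,.o ⟨false,0,⟨2,[(4,0),(20,2),(2,0),(7,0)]⟩,⟨1,[(26,1),(9,0),(5,0)]⟩⟩,.o ⟨false,0,⟨0,
  [(25,0),(2,0),(2,0)]⟩,⟨0,[(5,0),(3,0),(6,0),(9,0)]⟩⟩]⟩) (.R ⟨0,false,false,true,[0,0,0,1],[0,1],
  [1,0,0,0,0,0,0,0,1],(⟨0,[(26,0)]⟩,⟨0,[(25,0)]⟩),(⟨0,[(38,0)]⟩,⟨0,[(37,0)]⟩),⟨0,[(0,0)]⟩,.k,.k,(.r
  0 ⟨0,[(1,0),(39,0)]⟩ ⟨43,[(10,3),(2,15),(0,7),(1,7),(1,3),(4,40),(0,18)]⟩),(.r 0 ⟨0,[(1,0),(39,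
  0)]⟩ ⟨43,[(10,3),(2,15),(0,7),(1,7),(1,3),(4,40),(0,18)]⟩),.k,.k,⟨false,1,⟨7,[(1,5),(7,3),(14,0),
  (17,0),(0,1)]⟩,⟨3,[(4,0),(8,0),(2,0),(4,1),(1,1),(21,0)]⟩⟩,⟨true,1,⟨0,[(26,0),(15,0)]⟩,⟨0,[(4,0),
  (20,0),(2,0)]⟩⟩,⟨true,0,⟨0,[]⟩,⟨0,[(45,0)]⟩⟩,⟨false,1,⟨0,[(3,0),(41,0)]⟩,⟨0,[(2,0),(38,0)]⟩⟩,
  ⟨false,0,⟨0,[]⟩,⟨0,[]⟩⟩,⟨false,0,⟨0,[]⟩,⟨0,[]⟩⟩,[.o ⟨false,0,⟨0,[(40,0)]⟩,⟨3,[(9,1),(18,1),(2,1),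
  (4,0),(6,0)]⟩⟩,.a ⟨true,0,⟨2,[(10,0),(14,1),(0,1)]⟩,⟨0,[(41,0)]⟩⟩ ⟨true,0,⟨9,[(1,7),(2,0),(19,0),
  (7,0),(6,4)]⟩,⟨3,[(4,1),(3,0),(12,1),(1,1),(5,0),(2,0)]⟩⟩ ⟨false,1,⟨1,[(1,0),(1,0),(22,0),(13,0),
  (1,0)]⟩,⟨11,[(0,3),(1,5),(1,1),(3,2),(2,0),(3,0),(2,2),(4,2),(1,1),(3,2),(11,5)]⟩⟩,.o ⟨false,0,⟨2,
  [(4,0),(20,2),(2,0),(7,0)]⟩,⟨1,[(26,1),(9,0),(5,0)]⟩⟩,.o ⟨false,0,⟨0,[(25,0),(2,0),(2,0)]⟩,⟨0,[(5,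
  0),(3,0),(6,0),(9,0)]⟩⟩]⟩)))) (.Q [0,1,1,0,-1,0,0,0,1,0,0,-1] (.p false [0,0,0,1] [] (⟨0,[(23,
  0)]⟩,⟨0,[(22,0)]⟩) .k 0 (⟨0,[]⟩,⟨0,[]⟩) .k .k) (.K ⟨0,[0,0,0,1],0,(-1),(⟨0,[(24,0)]⟩,⟨0,[(23,
  0)]⟩),.k,(.x 0 ⟨7,[(9,1),(3,1),(2,1),(4,0),(0,0),(6,5),(0,3)]⟩ ⟨0,[(36,0),(3,0)]⟩),(.x 0 ⟨0,[(36,
  0)]⟩ ⟨15,[(9,3),(3,3),(2,1),(4,6),(0,6),(11,0),(5,4)]⟩),.k,.k,[⟨0,[(24,0)]⟩,⟨0,[(23,0)]⟩,⟨1,[(21,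
  0),(2,1),(15,0),(2,1)]⟩,⟨0,[(0,0)]⟩]⟩) (.I [1,1,1,0,-1,0,0,0,1] (.R ⟨2,false,false,true,[0,1],[0,
  0,0,1],[],(⟨0,[]⟩,⟨0,[]⟩),(⟨0,[(25,0)]⟩,⟨0,[(24,0)]⟩),⟨0,[]⟩,.k,.k,.k,(.x (-1) ⟨0,[(37,0),(3,0)]⟩
  ⟨7,[(10,1),(3,1),(2,1),(4,0),(0,0),(6,5),(0,3)]⟩),.k,.k,⟨true,1,⟨1,[(22,0),(19,0)]⟩,⟨0,[(0,0)]⟩⟩,
  ⟨false,0,⟨2,[(3,0),(20,2),(2,0),(7,0)]⟩,⟨0,[(25,0),(15,0)]⟩⟩,⟨false,1,⟨7,[(8,3),(13,0),(0,0),(18,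
  1)]⟩,⟨10,[(9,0),(2,3),(0,1),(1,1),(1,0),(4,1),(0,1)]⟩⟩,⟨true,(-1),⟨0,[(2,0)]⟩,⟨0,[(1,0),(37,0)]⟩⟩,
  ⟨false,1,⟨1,[(41,0),(0,0)]⟩,⟨1,[(30,0),(0,0)]⟩⟩,⟨false,0,⟨25,[(2,13),(6,1),(2,3),(0,3),(9,5),(0,
  11),(10,6),(6,4)]⟩,⟨0,[(1,0)]⟩⟩,[.a ⟨true,(-1),⟨0,[(0,0),(23,0)]⟩,⟨0,[(1,0)]⟩⟩ ⟨false,1,⟨3,[(22,
  0),(0,0),(17,1)]⟩,⟨0,[]⟩⟩ ⟨true,(-1),⟨10,[(2,10),(6,0),(2,3),(0,1),(1,1),(1,0),(4,1),(0,1)]⟩,⟨0,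
  [(1,0)]⟩⟩,.o ⟨false,0,⟨25,[(2,13),(6,1),(2,3),(0,3),(9,5),(0,11),(10,6),(6,4)]⟩,⟨4,[(1,4),(1,0),
  (0,3),(2,0),(0,0),(8,0),(10,4)]⟩⟩,.o ⟨false,1,⟨3,[(22,0),(0,0),(17,1)]⟩,⟨2,[(3,0),(23,0),(7,0)]⟩⟩,
  .e ⟨false,1,⟨1,[(41,0),(0,0)]⟩,⟨1,[(30,0),(0,0)]⟩⟩ ⟨false,0,⟨25,[(2,13),(6,1),(2,3),(0,3),(9,5),
  (0,11),(10,6),(6,4)]⟩,⟨0,[(1,0)]⟩⟩]⟩) (.R ⟨2,true,false,true,[0,1],[0,0,0,1],[0,1,1],(⟨0,[]⟩,⟨0,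
  []⟩),(⟨0,[(25,0)]⟩,⟨0,[(24,0)]⟩),⟨0,[]⟩,.k,.k,.k,(.x (-1) ⟨0,[(37,0),(3,0)]⟩ ⟨7,[(10,1),(3,1),(2,
  1),(4,0),(0,0),(6,5),(0,3)]⟩),.k,.k,⟨true,0,⟨0,[(0,0),(2,0),(16,0),(19,0)]⟩,⟨36,[(2,22),(1,10),(3,
  15),(0,10),(5,10),(7,6),(1,22),(12,8)]⟩⟩,⟨false,0,⟨2,[(3,0),(20,2),(2,0),(7,0)]⟩,⟨0,[(25,0),(15,
  0)]⟩⟩,⟨false,0,⟨0,[(40,0)]⟩,⟨5,[(9,1),(12,0),(0,0),(11,0),(6,2)]⟩⟩,⟨true,(-1),⟨0,[(2,0)]⟩,⟨0,[(1,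
  0),(37,0)]⟩⟩,⟨true,0,⟨0,[(44,0)]⟩,⟨0,[]⟩⟩,⟨false,0,⟨25,[(2,13),(6,1),(2,3),(0,3),(9,5),(0,11),(10,
  6),(6,4)]⟩,⟨0,[(1,0)]⟩⟩,[]⟩)))))))

theorem ok207 : chk (cU (-1) true 10) t207 l111 = true := by decide +kernel

noncomputable def t227 : Tre :=
  (.I [1,1,0,0,0,0,0,1] (.I [1,1,2,2,-1] (.Q [0,0,0,-2,0,0,1,1,0,0,-1] (.p false [0,0,1] [] (⟨0,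
  [(27,0)]⟩,⟨0,[(26,0)]⟩) .k 0 (⟨0,[]⟩,⟨0,[]⟩) .k .k) (.R ⟨1,true,false,false,[0,0,1],[0,1],[1,1,0,
  0,0,0,0,1],(⟨0,[(28,0)]⟩,⟨0,[(27,0)]⟩),(⟨0,[(31,0)]⟩,⟨0,[(30,0)]⟩),⟨0,[(8,0),(1,0),(0,0)]⟩,.k,.k,
  .k,.k,(.x 1 ⟨2,[(1,2),(1,4),(3,3),(0,4),(1,3),(1,3),(1,4)]⟩ ⟨3,[(11,1),(4,0),(0,0),(9,3),(1,0),(1,
  7),(3,4)]⟩),.k,⟨false,1,⟨2,[(2,2),(0,0),(14,0),(0,0),(15,2)]⟩,⟨1,[(6,0),(5,0),(20,0),(2,0)]⟩⟩,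
  ⟨true,1,⟨0,[(25,0),(9,0)]⟩,⟨0,[(0,0),(0,0),(10,0)]⟩⟩,⟨false,0,⟨0,[]⟩,⟨3,[(16,0),(0,0),(18,1)]⟩⟩,
  ⟨true,0,⟨0,[(12,0),(1,0)]⟩,⟨1,[(0,0),(21,0),(15,0)]⟩⟩,⟨true,0,⟨0,[(33,0)]⟩,⟨0,[(34,0)]⟩⟩,⟨false,1,
  ⟨0,[(12,0),(1,0),(18,0),(2,0)]⟩,⟨0,[(0,0)]⟩⟩,[]⟩) (.R ⟨1,false,false,false,[0,0,1],[1,-1],[0,0,1],
  (⟨0,[(28,0)]⟩,⟨0,[(27,0)]⟩),(⟨0,[(30,0)]⟩,⟨0,[(31,0)]⟩),⟨0,[(8,0),(1,0),(0,0)]⟩,.k,.k,.k,.k,.k,.k,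
  ⟨false,0,⟨7,[(1,3),(14,0),(0,0),(18,1)]⟩,⟨2,[(3,0),(14,0),(0,0),(15,2)]⟩⟩,⟨true,0,⟨0,[(21,0)]⟩,⟨1,
  [(15,0),(2,0),(0,0)]⟩⟩,⟨false,0,⟨12,[(3,1),(2,5),(5,2),(2,1),(7,3),(8,0),(3,5)]⟩,⟨1,[(2,1),(32,0),
  (0,0)]⟩⟩,⟨true,0,⟨0,[(0,0),(2,0)]⟩,⟨8,[(2,3),(4,1),(1,2),(0,1),(3,3),(0,2),(11,3),(2,1)]⟩⟩,⟨false,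
  0,⟨15,[(0,3),(5,7),(5,1),(2,1),(10,1),(2,0),(6,6)]⟩,⟨5,[(2,5),(0,1),(14,1),(0,1),(15,2),(0,2)]⟩⟩,
  ⟨false,1,⟨0,[(20,0),(15,0)]⟩,⟨5,[(2,2),(0,0),(3,2),(2,2),(2,1),(13,3),(2,0)]⟩⟩,[.a ⟨true,0,⟨0,
  [(34,0)]⟩,⟨3,[(0,0),(6,0),(2,0),(3,0),(3,0),(0,0),(7,1),(2,0)]⟩⟩ ⟨true,0,⟨1,[(24,0),(0,0)]⟩,⟨0,
  []⟩⟩ ⟨false,1,⟨11,[(3,3),(7,5),(4,0),(0,0),(11,0),(5,8)]⟩,⟨15,[(0,4),(6,2),(1,1),(0,2),(3,0),(0,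
  6),(11,5),(2,2)]⟩⟩,.o ⟨false,1,⟨11,[(3,3),(12,0),(0,0),(11,3),(6,5)]⟩,⟨0,[(33,0)]⟩⟩,.o ⟨false,0,
  ⟨4,[(3,0),(5,2),(2,2),(2,0)]⟩,⟨3,[(11,1),(4,0),(0,0),(11,0),(5,0)]⟩⟩,.o ⟨false,0,⟨0,[(24,0)]⟩,⟨3,
  [(11,1),(17,0),(5,2)]⟩⟩]⟩)) (.Q [0,0,0,-1,0,0,2,2,0,1,-2] (.p false [0,0,1] [1,0,-1] (⟨0,[(27,
  0)]⟩,⟨0,[(26,0)]⟩) .k 2 (⟨0,[(26,0)]⟩,⟨0,[(27,0)]⟩) .k (.r (-1) ⟨0,[(1,1),(33,0)]⟩ ⟨0,[(25,1)]⟩))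
  (.R ⟨1,false,false,false,[0,0,1],[1,1,-1],[0,1,0,-1,0,0,0,1],(⟨0,[(28,0)]⟩,⟨0,[(27,0)]⟩),(⟨0,[(27,
  0),(3,0)]⟩,⟨4,[(1,2),(2,2),(2,0),(2,0),(1,0),(1,4)]⟩),⟨4,[(1,2),(2,2),(2,0),(2,0),(1,0),(1,4)]⟩,
  .k,.k,.k,(.r (-1) ⟨2,[(1,1),(0,4),(4,0),(28,0)]⟩ ⟨7,[(6,3),(9,0),(0,0),(8,11),(6,3),(2,1)]⟩),(.r
  (-2) ⟨3,[(1,3),(0,7),(13,0),(0,0),(18,1)]⟩ ⟨0,[(6,0),(5,0),(20,0)]⟩),.k,⟨false,1,⟨0,[(1,0),(0,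
  1)]⟩,⟨1,[(6,0),(5,2),(20,2),(2,0)]⟩⟩,⟨true,1,⟨0,[(11,0),(23,0)]⟩,⟨5,[(0,2),(2,0),(2,5),(8,2),(2,
  0),(0,0)]⟩⟩,⟨false,0,⟨0,[(34,0)]⟩,⟨0,[(33,0),(2,0)]⟩⟩,⟨false,1,⟨7,[(5,5),(5,1),(0,5),(1,1),(8,3),
  (11,0),(0,6)]⟩,⟨0,[(0,0)]⟩⟩,⟨true,0,⟨0,[(38,0)]⟩,⟨0,[]⟩⟩,⟨false,1,⟨0,[(5,0),(6,0),(1,0),(21,0)]⟩,
  ⟨2,[(0,2),(2,0),(14,0),(0,0)]⟩⟩,[.a ⟨true,0,⟨0,[(12,0),(1,0)]⟩,⟨5,[(0,2),(2,0),(14,3),(0,3)]⟩⟩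
  ⟨true,0,⟨1,[(0,0),(2,0),(10,1)]⟩,⟨1,[(6,0),(5,0),(20,0),(2,0)]⟩⟩ ⟨false,1,⟨3,[(5,1),(5,1),(0,1),
  (1,1),(20,2),(0,0)]⟩,⟨5,[(0,2),(2,0),(11,2),(2,0),(0,0)]⟩⟩,.o ⟨false,1,⟨0,[(5,0),(30,0)]⟩,⟨3,[(0,
  0),(2,0),(18,1),(15,1)]⟩⟩,.o ⟨false,0,⟨4,[(3,0),(5,2),(2,2),(2,0)]⟩,⟨3,[(11,1),(4,0),(0,0),(11,0),
  (5,0)]⟩⟩,.o ⟨false,0,⟨0,[(24,0)]⟩,⟨3,[(11,1),(17,0),(5,2)]⟩⟩]⟩) (.R ⟨1,true,false,false,[0,0,1],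
  [1,1,-1],[0,1,0,-1,0,0,0,1],(⟨0,[(28,0)]⟩,⟨0,[(27,0)]⟩),(⟨0,[(27,0),(3,0)]⟩,⟨9,[(0,0),(0,4),(2,4),
  (2,1),(0,0),(1,1),(3,6),(13,1)]⟩),⟨9,[(0,0),(0,4),(2,4),(2,1),(0,0),(1,1),(3,6),(13,1)]⟩,.k,.k,.k,
  (.r (-1) ⟨2,[(1,1),(0,4),(4,0),(28,0)]⟩ ⟨3,[(0,1),(5,1),(8,1),(0,0),(0,0),(8,1)]⟩),(.r (-2) ⟨3,
  [(1,3),(0,7),(13,0),(0,0),(18,1)]⟩ ⟨0,[(6,0),(5,0),(20,0)]⟩),.k,⟨false,1,⟨0,[(1,0),(0,1)]⟩,⟨4,[(0,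
  5),(5,0),(0,2),(7,5),(20,0)]⟩⟩,⟨true,1,⟨0,[(11,0),(23,0)]⟩,⟨2,[(3,0),(0,0),(1,1),(0,0),(2,0),(4,
  0),(6,0),(4,2),(3,0)]⟩⟩,⟨false,0,⟨0,[(34,0)]⟩,⟨0,[(33,0),(2,0)]⟩⟩,⟨true,0,⟨0,[(0,0)]⟩,⟨1,[(2,2),
  (0,0),(3,0),(2,0),(2,0),(1,0),(11,0)]⟩⟩,⟨true,0,⟨0,[(38,0)]⟩,⟨0,[]⟩⟩,⟨false,1,⟨0,[(0,0),(32,0),(2,
  0)]⟩,⟨0,[(2,0),(0,0),(3,0),(2,0),(2,0),(13,0)]⟩⟩,[]⟩))) (.Q [0,0,0,2,0,0,0,0,0,1] (.pp false [-1,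
  1]) (.R ⟨1,false,false,true,[1,-1],[0,1],[1,0,1],(⟨0,[(29,0)]⟩,⟨0,[(30,0)]⟩),(⟨0,[(30,0)]⟩,⟨0,
  [(29,0)]⟩),⟨0,[(7,0),(19,0)]⟩,.k,.k,(.r (-1) ⟨2,[(2,1),(14,1),(0,1),(15,2)]⟩ ⟨43,[(0,11),(4,31),
  (0,15),(1,15),(1,7),(4,14),(0,14),(11,1)]⟩),(.r (-1) ⟨2,[(2,1),(14,1),(0,1),(15,2)]⟩ ⟨43,[(0,11),
  (4,31),(0,15),(1,15),(1,7),(4,14),(0,14),(11,1)]⟩),(.r (-2) ⟨3,[(2,3),(12,0),(0,0),(0,3),(0,3),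
  (15,5)]⟩ ⟨87,[(0,35),(4,95),(0,47),(1,47),(1,23),(4,0),(0,0),(11,5)]⟩),.k,⟨false,1,⟨5,[(2,1),(14,
  1),(0,1),(15,2),(0,2)]⟩,⟨0,[(32,0)]⟩⟩,⟨true,1,⟨0,[(17,0),(0,0),(15,0)]⟩,⟨1,[(2,0),(2,1),(0,0),(13,
  0),(0,0)]⟩⟩,⟨false,0,⟨7,[(5,3),(0,3),(8,0),(0,0),(6,1),(0,1),(10,1)]⟩,⟨2,[(2,0),(14,0),(0,0),(15,
  2)]⟩⟩,⟨false,0,⟨0,[(0,0)]⟩,⟨5,[(2,3),(12,0),(0,0),(11,0),(6,2)]⟩⟩,⟨false,0,⟨5,[(0,1),(4,3),(0,3),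
  (8,0),(0,0),(11,0),(6,0)]⟩,⟨2,[(2,1),(14,1),(0,1),(15,2)]⟩⟩,⟨true,0,⟨0,[(0,0),(31,0)]⟩,⟨0,[(2,
  0)]⟩⟩,[.o ⟨false,0,⟨0,[(32,0)]⟩,⟨11,[(2,3),(12,0),(0,0),(11,3),(6,5)]⟩⟩,.a ⟨true,0,⟨1,[(0,0),(16,
  0),(0,0)]⟩,⟨0,[(33,0)]⟩⟩ ⟨true,0,⟨3,[(23,0),(0,0),(6,1)]⟩,⟨0,[(37,0)]⟩⟩ ⟨false,1,⟨1,[(0,0),(16,0),
  (0,0),(15,1)]⟩,⟨17,[(2,6),(2,1),(0,0),(13,6),(0,0),(1,5),(4,1)]⟩⟩,.o ⟨false,0,⟨5,[(2,0),(2,1),(0,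
  0),(13,0),(0,0),(6,1)]⟩,⟨3,[(15,0),(0,0),(17,1)]⟩⟩,.o ⟨false,0,⟨0,[(20,0),(2,0)]⟩,⟨0,[(34,
  0)]⟩⟩]⟩) (.R ⟨2,false,false,false,[0,1],[1,-1],[],(⟨0,[]⟩,⟨0,[]⟩),(⟨0,[(29,0)]⟩,⟨0,[(30,0)]⟩),⟨0,
  []⟩,.k,.k,.k,(.r 0 ⟨2,[(5,1),(0,1),(8,0),(0,0),(15,1)]⟩ ⟨2,[(2,1),(14,1),(0,1),(15,2)]⟩),.k,.k,
  ⟨true,0,⟨5,[(5,1),(0,1),(8,0),(0,0),(15,1)]⟩,⟨2,[(2,0),(14,0),(0,0)]⟩⟩,⟨false,0,⟨5,[(2,0),(2,1),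
  (0,0),(13,0),(0,0),(6,1)]⟩,⟨0,[(17,0),(0,0),(15,0)]⟩⟩,⟨false,1,⟨5,[(2,1),(14,1),(0,1),(15,2),(0,
  2)]⟩,⟨5,[(5,1),(0,1),(8,0),(0,0),(15,1)]⟩⟩,⟨true,0,⟨0,[(0,0)]⟩,⟨2,[(6,0),(2,0),(1,0),(1,1),(12,1),
  (2,0),(2,2)]⟩⟩,⟨false,1,⟨1,[(34,0),(0,0)]⟩,⟨1,[(23,0),(0,0)]⟩⟩,⟨false,1,⟨11,[(2,3),(12,0),(0,0),
  (11,3),(6,5)]⟩,⟨2,[(6,0),(2,0),(1,0),(1,1),(12,1),(2,0)]⟩⟩,[.a ⟨true,0,⟨0,[(33,0)]⟩,⟨2,[(6,0),(2,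
  0),(1,0),(1,1),(12,1),(2,0)]⟩⟩ ⟨false,1,⟨3,[(15,0),(0,0),(17,1)]⟩,⟨0,[]⟩⟩ ⟨true,0,⟨17,[(2,6),(2,
  1),(0,0),(13,6),(0,0),(1,5),(4,1)]⟩,⟨2,[(6,0),(2,0),(1,0),(1,1),(12,1),(2,0)]⟩⟩,.o ⟨false,1,⟨11,
  [(2,3),(12,0),(0,0),(11,3),(6,5)]⟩,⟨0,[(32,0)]⟩⟩,.o ⟨false,1,⟨3,[(15,0),(0,0),(17,1)]⟩,⟨5,[(2,0),
  (2,1),(0,0),(13,0),(0,0),(6,1)]⟩⟩,.e ⟨false,1,⟨1,[(34,0),(0,0)]⟩,⟨1,[(23,0),(0,0)]⟩⟩ ⟨false,1,⟨11,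
  [(2,3),(12,0),(0,0),(11,3),(6,5)]⟩,⟨2,[(6,0),(2,0),(1,0),(1,1),(12,1),(2,0)]⟩⟩]⟩)))

theorem ok227 : chk (cU (-1) true 10) t227 r108 = true := by decide +kernel

end Helper11.CT.Tm1_34_m1_m1_u
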