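import Pool.Agent.Helper11.CT.T.Tm1_34_m1_m1_u_q

set_option autoImplicit false
set_option linter.all false

namespace Helper11.CT.Tm1_34_m1_m1_u

open Helper11.CT

noncomputable def t1 : Tre :=
  (.K ⟨2,[2,-1,-1],0,0,(⟨0,[(17,0),(2,0)]⟩,⟨0,[(3,0)]⟩),.k,(.r (-1) ⟨19,[(0,11),(1,7),(2,3),(0,0),
  (0,0),(16,31),(0,13),(0,3)]⟩ ⟨0,[(1,0),(2,0),(6,0),(0,0),(9,0)]⟩),.k,(.r 0 ⟨0,[(0,1),(1,0),(9,0),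
  (9,0)]⟩ ⟨1,[(4,1),(7,3),(2,1),(6,1),(2,0),(0,0)]⟩),.k,[⟨0,[(0,1),(11,1),(9,0)]⟩,⟨4,[(2,1),(8,0),
  (0,1),(1,0),(7,2),(0,1)]⟩,⟨1,[(5,0),(2,2),(0,2)]⟩,⟨4,[(2,1),(8,5),(0,1),(1,0),(7,2),(0,1)]⟩,⟨0,
  [(0,0),(3,0),(3,0),(0,0),(2,1),(9,0)]⟩,⟨0,[(2,0)]⟩]⟩)

theorem ok1 : chk (cU (-1) true 10) t1 l3 = true := by decide +kernel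

noncomputable def t29 : Tre :=
  (.Q [0,0,0,-1,0,0,1,1,0,1,-1] (.p false [0,0,1] [1] (⟨0,[(21,0)]⟩,⟨0,[(20,0)]⟩) .k 1 (⟨0,[]⟩,⟨0,
  []⟩) .k .k) (.R ⟨2,true,false,false,[0,1],[1,1,-1],[0,1,1],(⟨0,[]⟩,⟨0,[]⟩),(⟨0,[(21,0),(3,0)]⟩,⟨0,
  [(1,0)]⟩),⟨0,[]⟩,.k,.k,.k,.k,.k,.k,⟨true,0,⟨0,[(6,0),(21,0)]⟩,⟨0,[(20,0),(5,0),(0,0)]⟩⟩,⟨false,1,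
  ⟨0,[(15,0),(13,0)]⟩,⟨1,[(9,0),(2,0),(0,0)]⟩⟩,⟨false,0,⟨0,[(28,0)]⟩,⟨0,[(27,0),(2,0)]⟩⟩,⟨true,0,⟨1,
  [(2,0),(0,0)]⟩,⟨0,[(0,0),(26,0)]⟩⟩,⟨true,0,⟨0,[(32,0)]⟩,⟨0,[]⟩⟩,⟨false,1,⟨1,[(2,0),(0,0),(23,1),
  (2,1)]⟩,⟨0,[(0,0)]⟩⟩,[]⟩) (.Q [0,0,0,0,0,0,-1,0,0,0,1] (.p true [0,0,1] [] (⟨0,[(22,0)]⟩,⟨0,[(21,
  0)]⟩) .k 0 (⟨0,[]⟩,⟨0,[]⟩) .k .k) (.R ⟨1,false,false,false,[1,0,-1],[1,-1],[1,1,0,0,0,0,0,-1],(⟨0,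
  [(22,0)]⟩,⟨0,[(23,0)]⟩),(⟨0,[(25,0)]⟩,⟨0,[(26,0)]⟩),⟨0,[(8,0)]⟩,.k,.k,.k,.k,.k,.k,⟨false,0,⟨0,
  [(21,0),(6,0)]⟩,⟨0,[(7,0),(19,0),(1,0),(0,0)]⟩⟩,⟨true,0,⟨0,[(19,0)]⟩,⟨0,[(0,0)]⟩⟩,⟨false,0,⟨0,[]⟩,
  ⟨3,[(11,0),(0,0),(18,1)]⟩⟩,⟨false,1,⟨0,[(6,0),(0,0),(23,0)]⟩,⟨0,[(1,0),(11,0),(0,0)]⟩⟩,⟨true,0,⟨0,
  [(28,0)]⟩,⟨0,[(29,0)]⟩⟩,⟨false,1,⟨0,[(17,0),(13,0)]⟩,⟨1,[(4,0),(8,0),(0,0),(6,0)]⟩⟩,[.e ⟨true,0,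
  ⟨1,[(10,0),(4,0),(2,0)]⟩,⟨0,[(7,0),(19,0)]⟩⟩ ⟨true,0,⟨0,[(6,0)]⟩,⟨1,[(9,0),(10,0),(6,0),(0,0)]⟩⟩,
  .o ⟨false,1,⟨1,[(24,0),(4,1),(1,0)]⟩,⟨0,[(28,0)]⟩⟩,.a ⟨true,0,⟨0,[(0,0)]⟩,⟨1,[(10,0),(2,0),(0,
  0)]⟩⟩ ⟨false,0,⟨0,[(21,0)]⟩,⟨0,[(7,0),(23,0)]⟩⟩ ⟨true,0,⟨0,[(6,0)]⟩,⟨0,[(9,0)]⟩⟩,.o ⟨false,0,⟨0,
  [(16,0)]⟩,⟨7,[(10,3),(0,0),(0,0),(11,1),(5,3)]⟩⟩]⟩) (.Q [0,0,0,1,0,0,0,0,0,1] (.pp false [-1,1])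
  (.R ⟨1,false,false,true,[1,0,-1],[1,-1],[1,0,0,0,0,0,0,-1],(⟨0,[(23,0)]⟩,⟨0,[(24,0)]⟩),(⟨0,[(26,
  0)]⟩,⟨0,[(27,0)]⟩),⟨0,[(9,0)]⟩,.k,.k,.k,.k,.k,.k,⟨true,0,⟨1,[(0,0),(1,0),(17,0),(1,0),(5,0)]⟩,⟨0,
  [(8,0),(21,0)]⟩⟩,⟨false,0,⟨0,[(1,0)]⟩,⟨7,[(6,3),(3,3),(1,0),(0,0),(17,3),(0,1)]⟩⟩,⟨true,0,⟨0,[]⟩,
  ⟨0,[(34,0)]⟩⟩,⟨true,0,⟨0,[(7,0),(0,0)]⟩,⟨2,[(0,1),(1,0),(2,0),(16,0)]⟩⟩,⟨false,1,⟨0,[(29,0),(2,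
  0)]⟩,⟨0,[(30,0)]⟩⟩,⟨true,0,⟨0,[(18,0)]⟩,⟨2,[(0,0),(4,0),(0,0),(15,1)]⟩⟩,[.o ⟨false,0,⟨1,[(4,0),(0,
  0),(1,1),(0,1)]⟩,⟨0,[(29,0),(2,0)]⟩⟩,.a ⟨true,0,⟨0,[(30,0)]⟩,⟨0,[(0,0)]⟩⟩ ⟨false,1,⟨1,[(22,1),(8,
  0),(0,0)]⟩,⟨0,[(8,0)]⟩⟩ ⟨true,0,⟨0,[(7,0)]⟩,⟨0,[(0,0),(16,0)]⟩⟩,.o ⟨false,1,⟨3,[(12,0),(0,0),(3,
  3),(13,1)]⟩,⟨0,[(1,0)]⟩⟩,.o ⟨false,0,⟨0,[(17,0)]⟩,⟨7,[(11,3),(0,0),(0,0),(11,1),(5,3)]⟩⟩]⟩) (.I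
  [0,1,1,0,-1,0,0,0,-1] (.Q [0,1,1,0,0,0,0,0,1,0,0,-1] (.p false [0,0,0,1] [] (⟨0,[(16,0)]⟩,⟨0,[(15,
  0)]⟩) .k 0 (⟨0,[]⟩,⟨0,[]⟩) .k .k) (.K ⟨0,[0,0,0,1],0,0,(⟨0,[(17,0)]⟩,⟨0,[(16,0)]⟩),.k,(.r (-1) ⟨1,
  [(15,0),(16,1),(0,0)]⟩ ⟨2,[(1,0),(12,0),(15,1),(0,2)]⟩),(.x 0 ⟨0,[(29,0)]⟩ ⟨7,[(5,3),(5,3),(2,2),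
  (0,2),(11,1)]⟩),.k,.k,[⟨0,[(17,0)]⟩,⟨0,[(16,0)]⟩,⟨0,[(1,0),(15,0),(15,0)]⟩,⟨0,[(0,0)]⟩]⟩) (.R ⟨2,
  false,false,true,[0,1],[0,0,0,1],[],(⟨0,[]⟩,⟨0,[]⟩),(⟨0,[(17,0)]⟩,⟨0,[(16,0)]⟩),⟨0,[]⟩,.k,.k,.k,
  (.r 0 ⟨2,[(1,0),(12,0),(15,1),(0,2)]⟩ ⟨1,[(15,0),(16,1),(0,0)]⟩),.k,.k,⟨true,0,⟨2,[(0,1),(0,0),
  (14,1),(10,0),(2,0)]⟩,⟨0,[(1,0),(13,0)]⟩⟩,⟨false,0,⟨4,[(6,1),(9,4),(2,2),(0,1),(1,0),(7,0)]⟩,⟨0,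
  [(17,0),(15,0)]⟩⟩,⟨false,1,⟨1,[(32,1),(0,0),(0,0)]⟩,⟨3,[(22,0),(0,0),(6,1),(0,3)]⟩⟩,⟨true,0,⟨0,
  [(1,0),(0,0),(12,0),(0,0)]⟩,⟨0,[(0,0),(30,0)]⟩⟩,⟨false,1,⟨1,[(33,0),(0,0)]⟩,⟨1,[(22,0),(0,0)]⟩⟩,
  ⟨false,1,⟨7,[(14,0),(0,4),(0,7),(2,3),(2,3),(4,1)]⟩,⟨0,[(0,0)]⟩⟩,[.a ⟨true,0,⟨0,[(1,0),(13,0),(0,
  0)]⟩,⟨0,[(0,0)]⟩⟩ ⟨false,1,⟨3,[(14,0),(0,0),(17,1)]⟩,⟨0,[]⟩⟩ ⟨true,0,⟨4,[(1,4),(4,1),(8,4),(0,4),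
  (2,2),(0,1),(1,0),(7,0)]⟩,⟨0,[(0,0)]⟩⟩,.o ⟨false,1,⟨7,[(14,0),(0,4),(0,7),(2,3),(2,3),(4,1)]⟩,⟨2,
  [(0,2),(1,0),(1,0),(13,0),(1,1)]⟩⟩,.o ⟨false,1,⟨3,[(14,0),(0,0),(17,1)]⟩,⟨4,[(6,1),(12,2),(0,1),
  (1,0),(7,0)]⟩⟩,.e ⟨false,1,⟨1,[(33,0),(0,0)]⟩,⟨1,[(22,0),(0,0)]⟩⟩ ⟨false,1,⟨7,[(14,0),(0,4),(0,7),
  (2,3),(2,3),(4,1)]⟩,⟨0,[(0,0)]⟩⟩]⟩)) (.Q [0,1,0,1,0,0,1,1,0,1,-1] (.p false [0,0,1] [1] (⟨0,[(25,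
  0)]⟩,⟨0,[(24,0)]⟩) .k 1 (⟨0,[]⟩,⟨0,[]⟩) .k .k) (.Q [0,-1,0,-1,0,0,-1,-1,0,0,1] (.p true [0,0,1]
  [] (⟨0,[(26,0)]⟩,⟨0,[(25,0)]⟩) .k 0 (⟨0,[]⟩,⟨0,[]⟩) .k .k) (.K ⟨1,[1,-1,-1],0,0,(⟨0,[(12,0)]⟩,⟨0,
  [(27,0),(2,0)]⟩),.k,(.r (-1) ⟨1,[(0,0),(9,1),(11,0),(10,0),(0,1)]⟩ ⟨0,[(1,0),(18,0),(10,0),(0,
  0)]⟩),.k,.k,.k,[⟨1,[(14,0),(2,0),(0,0)]⟩,⟨1,[(20,1),(2,0),(0,0)]⟩,⟨0,[(1,0)]⟩,⟨0,[(0,0)]⟩]⟩) (.Q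
  [0,-1,1,0,0,0,0,0,1,0,0,-1] (.p false [0,0,0,1] [] (⟨0,[(18,0)]⟩,⟨0,[(17,0)]⟩) .k 0 (⟨0,[]⟩,⟨0,
  []⟩) .k .k) (.Q [0,1,1,0,-1,0,0,0,1,0,0,-1] (.p false [0,0,0,1] [] (⟨0,[(19,0)]⟩,⟨0,[(18,0)]⟩) .k
  0 (⟨0,[]⟩,⟨0,[]⟩) .k .k) (.I [0,0,-1,-1,0,0,0,0,1] (.K ⟨0,[0,0,0,1],0,(-1),(⟨0,[(21,0)]⟩,⟨0,[(20,
  0)]⟩),.k,(.r 0 ⟨0,[(0,0)]⟩ ⟨1,[(18,0),(7,0),(0,0),(7,1),(2,0)]⟩),(.x 0 ⟨0,[(33,0)]⟩ ⟨7,[(9,3),(5,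
  3),(2,2),(0,2),(11,1)]⟩),.k,.k,[⟨0,[(21,0)]⟩,⟨0,[(20,0)]⟩,⟨1,[(18,0),(2,1),(15,0),(2,1)]⟩,⟨0,[(1,
  0)]⟩]⟩) (.K ⟨0,[0,0,0,1],0,(-1),(⟨0,[(21,0)]⟩,⟨0,[(20,0)]⟩),.k,(.x 0 ⟨1,[(9,0),(5,0),(7,0),(2,1),
  (0,0)]⟩ ⟨0,[(33,0),(3,0)]⟩),(.x 0 ⟨0,[(33,0)]⟩ ⟨7,[(9,3),(5,3),(2,2),(0,2),(11,1)]⟩),.k,.k,[⟨0,
  [(21,0)]⟩,⟨0,[(20,0)]⟩,⟨1,[(18,0),(2,1),(15,0),(2,1)]⟩,⟨0,[(1,0)]⟩]⟩)) (.Q [0,0,0,0,0,-1,0,0,0,1,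
  0,-1] (.ed true [0,1,0,1] .k) (.I [0,-1,0,-1,0,0,0,-1,1] (.R ⟨1,false,false,false,[1,0,0,-1],[1,0,
  -1],[0,0,0,-1,0,0,0,0,-1],(⟨0,[(21,0)]⟩,⟨0,[(22,0)]⟩),(⟨0,[(30,0)]⟩,⟨0,[(31,0)]⟩),⟨0,[(1,0)]⟩,.k,
  .k,(.x (-1) ⟨7,[(10,3),(5,3),(2,2),(0,2),(11,1)]⟩ ⟨0,[(34,0)]⟩),.k,(.r (-1) ⟨0,[(2,0),(4,0),(7,0),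
  (5,0)]⟩ ⟨3,[(0,2),(2,0),(18,0),(3,0),(0,0),(7,1),(0,6)]⟩),.k,⟨false,1,⟨0,[(2,0),(4,0),(7,0),(5,
  0)]⟩,⟨0,[(0,0),(4,0),(3,0)]⟩⟩,⟨true,0,⟨0,[(21,0),(2,0)]⟩,⟨0,[(8,0),(13,0)]⟩⟩,⟨true,0,⟨0,[(37,0)]⟩,
  ⟨0,[(36,0)]⟩⟩,⟨false,0,⟨6,[(0,1),(2,4),(5,0),(2,0),(4,0),(3,1),(4,2),(8,1)]⟩,⟨0,[(2,0),(22,0)]⟩⟩,
  ⟨false,1,⟨3,[(19,0),(0,0),(18,1)]⟩,⟨0,[]⟩⟩,⟨false,0,⟨4,[(0,1),(2,2),(1,0),(3,2),(7,2),(3,1),(7,0),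
  (5,1)]⟩,⟨0,[(2,0),(11,0),(0,0)]⟩⟩,[.o ⟨false,0,⟨1,[(11,0),(0,0)]⟩,⟨3,[(19,0),(0,0),(4,3),(13,
  1)]⟩⟩,.o ⟨false,1,⟨3,[(11,0),(0,0),(13,1),(5,0),(6,2)]⟩,⟨0,[(25,0)]⟩⟩,.o ⟨false,1,⟨1,[(22,1),(9,
  0),(5,0)]⟩,⟨8,[(4,1),(2,1),(3,1),(9,8),(2,4),(2,2),(7,0)]⟩⟩,.a ⟨true,0,⟨0,[(22,0)]⟩,⟨0,[(21,0)]⟩⟩
  ⟨false,1,⟨0,[(2,0),(4,0),(13,0)]⟩,⟨0,[(3,0),(18,0),(13,0)]⟩⟩ ⟨true,0,⟨1,[(11,0),(0,0),(8,1)]⟩,⟨0,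
  [(22,0),(2,0)]⟩⟩]⟩) (.I [0,0,0,0,0,0,0,0,-1] (.R ⟨1,false,false,true,[1,0,0,-1],[0,1],[1,1,0,0,0,
  0,0,0,-1],(⟨0,[(22,0)]⟩,⟨0,[(23,0)]⟩),(⟨0,[(35,0)]⟩,⟨0,[(34,0)]⟩),⟨0,[(2,0)]⟩,.k,.k,(.x (-1) ⟨7,
  [(11,3),(5,3),(2,2),(0,2),(11,1)]⟩ ⟨0,[(35,0)]⟩),(.x (-1) ⟨7,[(11,3),(5,3),(2,2),(0,2),(11,1)]⟩
  ⟨0,[(35,0)]⟩),(.r (-1) ⟨0,[(0,0),(37,1),(0,0)]⟩ ⟨3,[(4,3),(18,3),(4,0),(0,0),(6,1),(0,7)]⟩),.k,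
  ⟨false,1,⟨0,[(0,0),(37,0),(0,0)]⟩,⟨0,[(4,0),(18,0),(13,0)]⟩⟩,⟨true,0,⟨0,[(22,0)]⟩,⟨8,[(5,1),(2,1),
  (3,1),(10,8),(1,4),(2,2),(7,0)]⟩⟩,⟨false,0,⟨0,[]⟩,⟨3,[(20,0),(0,0),(18,1)]⟩⟩,⟨false,0,⟨1,[(4,1),
  (1,0),(11,0),(3,0),(0,0),(6,0)]⟩,⟨0,[(3,0),(4,0)]⟩⟩,⟨true,0,⟨0,[(37,0)]⟩,⟨0,[(38,0)]⟩⟩,⟨false,0,
  ⟨0,[(4,0),(1,0),(3,0),(11,0),(0,0)]⟩,⟨0,[(3,0),(4,0),(29,0)]⟩⟩,[.o ⟨false,0,⟨0,[(37,0)]⟩,⟨3,[(8,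
  3),(11,0),(0,0),(18,1)]⟩⟩,.o ⟨false,1,⟨3,[(20,0),(0,0),(15,3),(2,1)]⟩,⟨0,[(8,0)]⟩⟩,.o ⟨false,1,⟨1,
  [(23,1),(9,0),(5,0)]⟩,⟨4,[(1,0),(2,0),(3,0),(3,0),(9,3),(2,1),(2,1)]⟩⟩,.a ⟨true,0,⟨0,[(23,0)]⟩,⟨0,
  [(22,0)]⟩⟩ ⟨false,1,⟨1,[(20,0),(18,0)]⟩,⟨0,[(4,0),(18,0)]⟩⟩ ⟨true,0,⟨0,[(22,0),(14,0)]⟩,⟨0,[(8,0),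
  (14,0)]⟩⟩]⟩) (.R ⟨1,false,false,false,[1,0,0,-1],[1,-1],[0,0,0,-1,0,0,0,0,-1],(⟨0,[(22,0)]⟩,⟨0,
  [(23,0)]⟩),(⟨0,[(34,0)]⟩,⟨0,[(35,0)]⟩),⟨0,[(2,0)]⟩,.k,.k,(.x (-1) ⟨7,[(11,3),(5,3),(2,2),(0,2),
  (11,1)]⟩ ⟨0,[(35,0)]⟩),(.r 0 ⟨2,[(1,2),(25,0),(0,0),(1,1),(5,1)]⟩ ⟨1,[(21,0),(16,1),(0,0)]⟩),.k,
  .k,⟨true,0,⟨0,[(1,0),(13,0),(11,0),(8,0)]⟩,⟨0,[(0,0)]⟩⟩,⟨false,0,⟨4,[(1,0),(2,0),(3,0),(3,0),(9,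
  3),(2,1),(2,1)]⟩,⟨0,[(23,0),(15,0)]⟩⟩,⟨true,0,⟨0,[(38,0)]⟩,⟨0,[(37,0)]⟩⟩,⟨false,0,⟨0,[(4,0),(33,
  0)]⟩,⟨0,[(3,0),(33,0)]⟩⟩,⟨false,1,⟨3,[(20,0),(0,0),(18,1)]⟩,⟨0,[]⟩⟩,⟨false,0,⟨0,[(4,0)]⟩,⟨0,[(3,
  0),(38,0)]⟩⟩,[.o ⟨false,0,⟨0,[(8,0)]⟩,⟨3,[(20,0),(0,0),(15,3),(2,1)]⟩⟩,.o ⟨false,1,⟨3,[(8,3),(11,
  0),(0,0),(18,1)]⟩,⟨0,[(37,0)]⟩⟩,.o ⟨false,1,⟨1,[(23,1),(9,0),(5,0)]⟩,⟨4,[(1,0),(2,0),(3,0),(3,0),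
  (9,3),(2,1),(2,1)]⟩⟩,.a ⟨true,0,⟨0,[(23,0)]⟩,⟨0,[(22,0)]⟩⟩ ⟨false,1,⟨0,[(3,0),(4,0),(13,0)]⟩,⟨3,
  [(0,3),(27,0),(0,0),(6,1),(0,3)]⟩⟩ ⟨true,0,⟨0,[(8,0),(13,0)]⟩,⟨0,[(23,0),(13,0)]⟩⟩]⟩))) (.I [1,-1,
  -2,-1,1,0,0,-1,-1] (.R ⟨0,false,false,true,[1,0,0,-1],[0,1],[0,1,0,0,0,0,0,0,-1],(⟨0,[(21,0)]⟩,⟨0,
  [(22,0)]⟩),(⟨0,[(34,0)]⟩,⟨0,[(33,0)]⟩),⟨0,[(1,0)]⟩,.k,.k,(.x (-1) ⟨7,[(10,3),(5,3),(2,2),(0,2),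
  (11,1)]⟩ ⟨0,[(34,0)]⟩),(.x (-1) ⟨7,[(10,3),(5,3),(2,2),(0,2),(11,1)]⟩ ⟨0,[(34,0)]⟩),.k,.k,⟨false,
  1,⟨0,[(0,0),(14,0)]⟩,⟨0,[(3,0),(18,0),(13,0)]⟩⟩,⟨true,0,⟨0,[(21,0)]⟩,⟨8,[(4,1),(2,1),(3,1),(10,8),
  (1,4),(2,2),(7,0)]⟩⟩,⟨true,0,⟨0,[(41,0)]⟩,⟨0,[]⟩⟩,⟨false,0,⟨1,[(3,1),(1,0),(11,0),(3,0),(0,0),(6,
  0)]⟩,⟨0,[(2,0),(4,0)]⟩⟩,⟨false,0,⟨0,[]⟩,⟨0,[]⟩⟩,⟨false,0,⟨0,[]⟩,⟨0,[]⟩⟩,[.o ⟨false,0,⟨0,[(36,0)]⟩,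
  ⟨3,[(7,3),(11,0),(0,0),(18,1)]⟩⟩,.o ⟨false,1,⟨3,[(19,0),(0,0),(15,3),(2,1)]⟩,⟨0,[(7,0)]⟩⟩,.o
  ⟨false,1,⟨1,[(22,1),(9,0),(5,0)]⟩,⟨8,[(4,1),(2,1),(3,1),(9,8),(2,4),(2,2),(7,0)]⟩⟩,.a ⟨true,0,⟨0,
  [(22,0)]⟩,⟨0,[(21,0)]⟩⟩ ⟨false,1,⟨1,[(19,0),(18,0)]⟩,⟨0,[(3,0),(18,0)]⟩⟩ ⟨true,0,⟨0,[(21,0),(14,
  0)]⟩,⟨0,[(7,0),(14,0)]⟩⟩]⟩) (.I [0,0,1,0,0,0,0,1,-1] (.I [0,0,-2,-1,1,0,0,0,-1] (.R ⟨0,false,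
  false,true,[1,0,0,-1],[0,1],[1,1,2,1],(⟨0,[(23,0)]⟩,⟨0,[(24,0)]⟩),(⟨0,[(36,0)]⟩,⟨0,[(35,0)]⟩),⟨0,
  [(3,0)]⟩,.k,.k,(.x (-1) ⟨7,[(12,3),(5,3),(2,2),(0,2),(11,1)]⟩ ⟨0,[(36,0)]⟩),(.x (-1) ⟨7,[(12,3),
  (5,3),(2,2),(0,2),(11,1)]⟩ ⟨0,[(36,0)]⟩),.k,.k,⟨false,0,⟨0,[]⟩,⟨3,[(21,0),(0,0),(17,1)]⟩⟩,⟨true,0,
  ⟨0,[(23,0)]⟩,⟨12,[(1,1),(0,1),(6,1),(3,3),(10,12),(1,2),(2,2),(4,1),(2,0)]⟩⟩,⟨true,(-1),⟨0,[(2,0),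
  (28,0)]⟩,⟨0,[(0,0)]⟩⟩,⟨false,0,⟨2,[(2,0),(4,0),(3,0),(10,0),(0,2),(7,0),(5,0)]⟩,⟨0,[(4,0),(4,
  0)]⟩⟩,⟨false,0,⟨0,[]⟩,⟨0,[]⟩⟩,⟨false,0,⟨0,[]⟩,⟨0,[]⟩⟩,[.o ⟨false,0,⟨0,[(38,0)]⟩,⟨3,[(9,3),(11,0),
  (0,0),(18,1)]⟩⟩,.o ⟨false,1,⟨3,[(21,0),(0,0),(15,3),(2,1)]⟩,⟨0,[(9,0)]⟩⟩,.o ⟨false,1,⟨1,[(24,1),
  (9,0),(5,0)]⟩,⟨8,[(1,1),(0,0),(2,0),(3,0),(3,2),(9,7),(2,1),(2,1),(4,0)]⟩⟩,.a ⟨true,0,⟨0,[(24,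
  0)]⟩,⟨0,[(23,0)]⟩⟩ ⟨false,0,⟨11,[(2,1),(18,0),(6,1),(0,1),(7,5),(0,9),(2,0)]⟩,⟨2,[(0,0),(7,0),(30,
  1),(1,0)]⟩⟩ ⟨true,0,⟨0,[(23,0),(14,0)]⟩,⟨0,[(9,0),(14,0)]⟩⟩]⟩) (.R ⟨0,false,false,false,[1,0,0,
  -1],[1,-1],[0,0,0,-1,0,0,0,0,-1],(⟨0,[(23,0)]⟩,⟨0,[(24,0)]⟩),(⟨0,[(35,0)]⟩,⟨0,[(36,0)]⟩),⟨0,[(3,
  0)]⟩,.k,.k,(.x (-1) ⟨7,[(12,3),(5,3),(2,2),(0,2),(11,1)]⟩ ⟨0,[(36,0)]⟩),(.r 0 ⟨1,[(1,1),(9,1),(8,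
  0),(2,0),(0,0)]⟩ ⟨1,[(22,0),(16,1),(0,0)]⟩),.k,.k,⟨true,0,⟨0,[(1,0),(29,0)]⟩,⟨0,[(0,0),(38,0),(0,
  0)]⟩⟩,⟨false,0,⟨8,[(1,1),(0,0),(2,0),(3,0),(3,2),(9,7),(2,1),(2,1),(4,0)]⟩,⟨0,[(24,0),(15,0)]⟩⟩,
  ⟨true,0,⟨0,[(39,0)]⟩,⟨0,[(38,0)]⟩⟩,⟨false,0,⟨0,[(5,0),(33,0)]⟩,⟨0,[(4,0),(33,0)]⟩⟩,⟨false,0,⟨0,
  []⟩,⟨0,[]⟩⟩,⟨false,0,⟨0,[]⟩,⟨0,[]⟩⟩,[.o ⟨false,0,⟨0,[(9,0)]⟩,⟨3,[(21,0),(0,0),(15,3),(2,1)]⟩⟩,.o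
  ⟨false,1,⟨3,[(9,3),(11,0),(0,0),(18,1)]⟩,⟨0,[(38,0)]⟩⟩,.o ⟨false,1,⟨1,[(24,1),(9,0),(5,0)]⟩,⟨8,
  [(1,1),(0,0),(2,0),(3,0),(3,2),(9,7),(2,1),(2,1),(4,0)]⟩⟩,.a ⟨true,0,⟨0,[(24,0)]⟩,⟨0,[(23,0)]⟩⟩
  ⟨false,1,⟨0,[(4,0),(4,0),(13,0)]⟩,⟨3,[(0,1),(21,0),(15,1),(2,0)]⟩⟩ ⟨true,0,⟨0,[(9,0),(13,0)]⟩,⟨0,
  [(24,0),(13,0)]⟩⟩]⟩)) (.R ⟨0,false,false,false,[1,0,0,-1],[1,0,-1],[0,1,0,0,0,0,0,0,-1],(⟨0,[(22,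
  0)]⟩,⟨0,[(23,0)]⟩),(⟨0,[(31,0)]⟩,⟨0,[(32,0)]⟩),⟨0,[(2,0)]⟩,.k,.k,(.x (-1) ⟨7,[(11,3),(5,3),(2,2),
  (0,2),(11,1)]⟩ ⟨0,[(35,0)]⟩),.k,.k,.k,⟨false,1,⟨1,[(16,1),(3,0),(18,0)]⟩,⟨11,[(0,8),(0,0),(13,0),
  (5,0),(5,0),(2,2),(5,6)]⟩⟩,⟨true,0,⟨0,[(22,0),(2,0)]⟩,⟨0,[(9,0),(13,0)]⟩⟩,⟨true,0,⟨0,[(42,0)]⟩,⟨0,
  []⟩⟩,⟨false,0,⟨4,[(0,0),(3,3),(8,0),(8,0),(4,2),(8,1)]⟩,⟨0,[(3,0),(22,0)]⟩⟩,⟨false,0,⟨0,[]⟩,⟨0,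
  []⟩⟩,⟨false,0,⟨0,[]⟩,⟨0,[]⟩⟩,[.o ⟨false,0,⟨1,[(12,0),(0,0)]⟩,⟨3,[(20,0),(0,0),(4,3),(13,1)]⟩⟩,.o
  ⟨false,1,⟨3,[(12,0),(0,0),(13,1),(5,0),(6,2)]⟩,⟨0,[(26,0)]⟩⟩,.o ⟨false,1,⟨1,[(23,1),(9,0),(5,0)]⟩,
  ⟨2,[(1,0),(2,0),(3,0),(3,0),(7,0),(1,1)]⟩⟩,.a ⟨true,0,⟨0,[(23,0)]⟩,⟨0,[(22,0)]⟩⟩ ⟨false,1,⟨1,[(20,
  0),(18,0)]⟩,⟨14,[(0,2),(0,3),(13,0),(5,3),(5,0),(8,9),(1,2)]⟩⟩ ⟨true,0,⟨1,[(12,0),(0,0),(8,1)]⟩,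
  ⟨0,[(23,0),(2,0)]⟩⟩]⟩))))) (.Q [0,1,1,0,0,0,0,0,1,0,0,-1] (.p false [0,0,0,1] [] (⟨0,[(19,0)]⟩,⟨0,
  [(18,0)]⟩) .k 0 (⟨0,[]⟩,⟨0,[]⟩) .k .k) (.K ⟨0,[0,0,0,1],0,0,(⟨0,[(20,0)]⟩,⟨0,[(19,0)]⟩),.k,(.r
  (-1) ⟨1,[(18,0),(16,1),(0,0)]⟩ ⟨4,[(1,4),(0,1),(4,1),(11,4),(2,2),(2,2),(7,3),(0,0)]⟩),(.x 0 ⟨0,
  [(32,0)]⟩ ⟨7,[(8,3),(5,3),(2,2),(0,2),(11,1)]⟩),.k,.k,[⟨0,[(20,0)]⟩,⟨0,[(19,0)]⟩,⟨0,[(1,0)]⟩,⟨0,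
  [(0,0)]⟩]⟩) (.Q [0,0,0,0,0,-1,0,0,0,1,0,-1] (.ed true [0,1,0,1] .k) (.R ⟨1,false,false,false,[1,0,
  0,-1],[1,0,-1],[0,0,0,-1,0,0,0,0,-1],(⟨0,[(20,0)]⟩,⟨0,[(21,0)]⟩),(⟨0,[(29,0)]⟩,⟨0,[(30,0)]⟩),⟨0,
  [(0,0)]⟩,.k,.k,(.x (-1) ⟨7,[(9,3),(5,3),(2,2),(0,2),(11,1)]⟩ ⟨0,[(33,0)]⟩),.k,(.r 0 ⟨0,[(1,0),(4,
  0),(7,0),(5,0)]⟩ ⟨5,[(19,2),(5,3),(0,3),(1,1),(5,1),(0,5),(2,2)]⟩),.k,⟨false,0,⟨0,[(1,0),(4,0),(7,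
  0),(5,0)]⟩,⟨1,[(19,0),(8,1),(6,1),(2,0)]⟩⟩,⟨true,0,⟨0,[(20,0),(2,0)]⟩,⟨0,[(7,0),(13,0)]⟩⟩,⟨true,0,
  ⟨0,[(36,0)]⟩,⟨0,[(35,0)]⟩⟩,⟨false,1,⟨13,[(10,5),(8,6),(0,13),(2,7),(1,7),(0,1),(7,3),(3,6)]⟩,⟨0,
  [(1,0),(22,0)]⟩⟩,⟨false,1,⟨3,[(18,0),(0,0),(18,1)]⟩,⟨0,[]⟩⟩,⟨false,1,⟨1,[(8,1),(10,0),(0,1),(5,0),
  (0,0),(10,0)]⟩,⟨0,[(1,0),(11,0),(0,0)]⟩⟩,[.o ⟨false,0,⟨1,[(10,0),(0,0)]⟩,⟨3,[(18,0),(0,0),(4,3),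
  (13,1)]⟩⟩,.o ⟨false,1,⟨3,[(10,0),(0,0),(13,1),(5,0),(6,2)]⟩,⟨0,[(24,0)]⟩⟩,.o ⟨false,1,⟨1,[(2,0),
  (2,0),(15,0),(9,0)]⟩,⟨8,[(3,1),(2,1),(3,1),(9,8),(2,4),(2,2),(7,0)]⟩⟩,.a ⟨true,0,⟨0,[(21,0)]⟩,⟨0,
  [(20,0)]⟩⟩ ⟨false,0,⟨0,[(1,0),(4,0),(13,0)]⟩,⟨1,[(19,0),(6,0),(0,0),(7,1),(2,0)]⟩⟩ ⟨true,0,⟨1,
  [(10,0),(0,0),(8,1)]⟩,⟨0,[(21,0),(2,0)]⟩⟩]⟩) (.R ⟨0,false,false,false,[1,0,0,-1],[1,0,-1],[0,1,0,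
  0,0,0,0,0,-1],(⟨0,[(20,0)]⟩,⟨0,[(21,0)]⟩),(⟨0,[(29,0)]⟩,⟨0,[(30,0)]⟩),⟨0,[(0,0)]⟩,.k,.k,(.x (-1)
  ⟨7,[(9,3),(5,3),(2,2),(0,2),(11,1)]⟩ ⟨0,[(33,0)]⟩),.k,.k,.k,⟨false,0,⟨2,[(1,1),(0,0),(0,1),(2,1),
  (4,0),(2,1),(5,2)]⟩,⟨1,[(19,0),(8,1),(9,0)]⟩⟩,⟨true,0,⟨0,[(20,0),(2,0)]⟩,⟨0,[(7,0),(13,0)]⟩⟩,
  ⟨true,0,⟨0,[(40,0)]⟩,⟨0,[]⟩⟩,⟨false,1,⟨13,[(10,5),(8,6),(0,13),(2,7),(1,7),(0,1),(7,3),(3,6)]⟩,⟨0,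
  [(1,0),(22,0)]⟩⟩,⟨false,0,⟨0,[]⟩,⟨0,[]⟩⟩,⟨false,0,⟨0,[]⟩,⟨0,[]⟩⟩,[.o ⟨false,0,⟨1,[(10,0),(0,0)]⟩,
  ⟨3,[(18,0),(0,0),(4,3),(13,1)]⟩⟩,.o ⟨false,1,⟨3,[(10,0),(0,0),(13,1),(5,0),(6,2)]⟩,⟨0,[(24,0)]⟩⟩,
  .o ⟨false,1,⟨1,[(2,0),(2,0),(15,0),(9,0)]⟩,⟨8,[(3,1),(2,1),(3,1),(9,8),(2,4),(2,2),(7,0)]⟩⟩,.a
  ⟨true,0,⟨0,[(21,0)]⟩,⟨0,[(20,0)]⟩⟩ ⟨false,0,⟨2,[(1,1),(0,0),(0,0),(2,1),(1,0),(11,2)]⟩,⟨1,[(19,0),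
  (6,0),(0,0),(10,0)]⟩⟩ ⟨true,0,⟨1,[(10,0),(0,0),(8,1)]⟩,⟨0,[(21,0),(2,0)]⟩⟩]⟩))))) (.Q [0,0,-2,0,1,
  0,-1,0,0,0,1] (.p true [0,0,1] [] (⟨0,[(26,0)]⟩,⟨0,[(25,0)]⟩) .k 0 (⟨0,[]⟩,⟨0,[]⟩) .k .k) (.I [1,
  1,-2,-2,1,0,0,2] (.Q [0,1,1,0,-1,0,0,0,1,0,0,-1] (.p false [0,0,0,1] [] (⟨0,[(19,0)]⟩,⟨0,[(18,
  0)]⟩) .k 0 (⟨0,[]⟩,⟨0,[]⟩) .k .k) (.K ⟨0,[0,0,0,1],0,(-1),(⟨0,[(20,0)]⟩,⟨0,[(19,0)]⟩),.k,(.x 0 ⟨1,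
  [(8,0),(5,0),(7,0),(2,1),(0,0)]⟩ ⟨0,[(32,0),(3,0)]⟩),(.x 0 ⟨0,[(32,0)]⟩ ⟨7,[(8,3),(5,3),(2,2),(0,
  2),(11,1)]⟩),.k,.k,[⟨0,[(20,0)]⟩,⟨0,[(19,0)]⟩,⟨1,[(17,0),(2,1),(15,0),(2,1)]⟩,⟨0,[(0,0)]⟩]⟩) (.I
  [0,0,1,0,0,0,0,0,1] (.Q [0,-1,1,0,0,0,0,0,1,0,0,-1] (.p false [0,0,0,1] [] (⟨0,[(21,0)]⟩,⟨0,[(20,
  0)]⟩) .k 0 (⟨0,[]⟩,⟨0,[]⟩) .k .k) (.Q [0,1,1,0,-1,0,0,0,1,1,0,-1] (.p false [0,0,0,1] [1] (⟨0,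
  [(22,0)]⟩,⟨0,[(21,0)]⟩) .k 1 (⟨0,[]⟩,⟨0,[]⟩) .k .k) (.R ⟨1,false,false,true,[0,0,1],[0,0,0,1],[0,
  1,0,-1,0,0,0,1],(⟨0,[(32,0)]⟩,⟨0,[(31,0)]⟩),(⟨0,[(23,0)]⟩,⟨0,[(22,0)]⟩),⟨0,[(11,0)]⟩,.k,.k,.k,.k,
  (.r (-1) ⟨0,[(3,0),(4,0),(7,0),(5,0)]⟩ ⟨7,[(0,0),(1,4),(7,4),(7,2),(0,3),(1,0),(1,0),(6,2),(5,
  1)]⟩),.k,⟨false,1,⟨0,[(3,0),(4,0),(7,0),(5,0)]⟩,⟨1,[(0,0),(6,0),(2,1),(8,0),(3,0)]⟩⟩,⟨true,0,⟨0,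
  [(22,0),(2,0)]⟩,⟨0,[(9,0),(13,0)]⟩⟩,⟨false,0,⟨0,[(38,0)]⟩,⟨0,[(37,0),(2,0)]⟩⟩,⟨true,(-1),⟨1,[(0,
  1),(11,0),(0,0)]⟩,⟨0,[(3,0),(22,0)]⟩⟩,⟨true,0,⟨0,[(42,0)]⟩,⟨0,[]⟩⟩,⟨true,(-1),⟨0,[(0,0),(9,0)]⟩,
  ⟨0,[(3,0),(11,0),(0,0)]⟩⟩,[.a ⟨true,(-1),⟨0,[(0,0)]⟩,⟨0,[(3,0)]⟩⟩ ⟨true,0,⟨0,[(16,0),(21,0)]⟩,⟨0,
  [(30,0),(5,0),(0,0)]⟩⟩ ⟨false,0,⟨57,[(0,47),(0,7),(2,5),(0,21),(7,11),(4,11),(2,0),(0,1),(10,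
  18)]⟩,⟨0,[(3,0),(5,0)]⟩⟩,.o ⟨false,0,⟨7,[(0,3),(0,3),(18,0),(0,0),(11,1)]⟩,⟨2,[(3,2),(4,0),(1,0),
  (13,0),(1,1)]⟩⟩,.o ⟨false,0,⟨0,[(9,0)]⟩,⟨11,[(5,3),(14,2),(0,2),(3,7),(7,1)]⟩⟩,.o ⟨false,0,⟨0,
  [(28,0)]⟩,⟨2,[(5,1),(19,0),(7,0)]⟩⟩]⟩) (.Q [0,0,0,0,0,1,0,0,0,-1,0,1] (.ed false [0,1,0,1] .k)
  (.I [1,0,0,0,0,0,0,0,-1] (.R ⟨0,false,false,true,[1,0,0,-1],[0,1],[0,1,0,0,0,0,0,0,-1],(⟨0,[(24,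
  0)]⟩,⟨0,[(25,0)]⟩),(⟨0,[(37,0)]⟩,⟨0,[(36,0)]⟩),⟨0,[(1,0)]⟩,.k,.k,(.x (-1) ⟨7,[(13,3),(5,3),(2,2),
  (0,2),(11,1)]⟩ ⟨0,[(37,0)]⟩),(.x (-1) ⟨7,[(13,3),(5,3),(2,2),(0,2),(11,1)]⟩ ⟨0,[(37,0)]⟩),.k,.k,
  ⟨false,1,⟨0,[(0,0),(6,0),(9,0)]⟩,⟨0,[(3,0),(21,0),(13,0)]⟩⟩,⟨true,0,⟨0,[(24,0)]⟩,⟨4,[(14,1),(10,
  4),(1,2),(0,1),(1,0),(7,0)]⟩⟩,⟨true,0,⟨0,[(44,0)]⟩,⟨0,[]⟩⟩,⟨false,0,⟨1,[(3,1),(16,1),(0,0),(2,0),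
  (0,0)]⟩,⟨0,[(2,0),(37,0)]⟩⟩,⟨false,0,⟨0,[]⟩,⟨0,[]⟩⟩,⟨false,0,⟨0,[]⟩,⟨0,[]⟩⟩,[.o ⟨false,0,⟨0,[(39,
  0)]⟩,⟨25,[(4,5),(1,3),(1,7),(8,9),(4,2),(4,1),(7,7),(6,10)]⟩⟩,.o ⟨false,1,⟨3,[(22,0),(0,0),(15,3),
  (2,1)]⟩,⟨0,[(10,0)]⟩⟩,.o ⟨false,1,⟨1,[(25,1),(9,0),(5,0)]⟩,⟨3,[(0,0),(2,0),(10,0),(9,2),(2,1),(0,
  0),(1,0)]⟩⟩,.a ⟨true,0,⟨0,[(25,0)]⟩,⟨0,[(24,0)]⟩⟩ ⟨false,1,⟨1,[(22,0),(18,0)]⟩,⟨0,[(3,0),(21,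
  0)]⟩⟩ ⟨true,0,⟨0,[(24,0),(14,0)]⟩,⟨0,[(10,0),(14,0)]⟩⟩]⟩) (.R ⟨0,false,false,false,[1,0,0,-1],[1,
  0,-1],[1,0,0,0,0,0,0,0,-1],(⟨0,[(24,0)]⟩,⟨0,[(25,0)]⟩),(⟨0,[(33,0)]⟩,⟨0,[(34,0)]⟩),⟨0,[(1,0)]⟩,.k,
  .k,(.x (-1) ⟨7,[(13,3),(5,3),(2,2),(0,2),(11,1)]⟩ ⟨0,[(37,0)]⟩),.k,.k,.k,⟨false,1,⟨0,[(2,0),(15,
  0),(5,0)]⟩,⟨0,[(0,0),(31,0)]⟩⟩,⟨true,0,⟨0,[(24,0),(2,0)]⟩,⟨0,[(11,0),(13,0)]⟩⟩,⟨true,0,⟨0,[]⟩,⟨0,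
  [(44,0)]⟩⟩,⟨false,0,⟨2,[(0,0),(2,1),(11,0),(8,0),(4,0),(2,0),(5,0)]⟩,⟨0,[(5,0),(22,0)]⟩⟩,⟨false,0,
  ⟨0,[]⟩,⟨0,[]⟩⟩,⟨false,0,⟨0,[]⟩,⟨0,[]⟩⟩,[.o ⟨false,0,⟨1,[(14,0),(0,0)]⟩,⟨3,[(22,0),(0,0),(4,3),(13,
  1)]⟩⟩,.o ⟨false,1,⟨3,[(14,0),(0,0),(13,1),(5,0),(6,2)]⟩,⟨0,[(28,0)]⟩⟩,.o ⟨false,1,⟨1,[(25,1),(9,
  0),(5,0)]⟩,⟨4,[(14,1),(9,4),(2,2),(0,1),(1,0),(7,0)]⟩⟩,.a ⟨true,0,⟨0,[(25,0)]⟩,⟨0,[(24,0)]⟩⟩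
  ⟨false,1,⟨0,[(2,0),(21,0)]⟩,⟨0,[(4,0)]⟩⟩ ⟨true,0,⟨1,[(14,0),(0,0),(8,1)]⟩,⟨0,[(25,0),(2,0)]⟩⟩]⟩))
  (.I [0,0,0,0,0,0,0,-1,1] (.R ⟨1,false,false,false,[1,0,0,-1],[1,0,-1],[1,0,0,0,0,0,0,0,-1],(⟨0,
  [(24,0)]⟩,⟨0,[(25,0)]⟩),(⟨0,[(33,0)]⟩,⟨0,[(34,0)]⟩),⟨0,[(1,0)]⟩,.k,.k,(.x (-1) ⟨7,[(13,3),(5,3),
  (2,2),(0,2),(11,1)]⟩ ⟨0,[(37,0)]⟩),.k,(.r (-1) ⟨0,[(2,0),(15,0),(5,0),(15,0)]⟩ ⟨1,[(0,0),(3,0),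
  (27,0),(5,0),(0,1)]⟩),.k,⟨false,1,⟨0,[(2,0),(15,0),(5,0)]⟩,⟨0,[(0,0)]⟩⟩,⟨true,0,⟨0,[(24,0),(2,
  0)]⟩,⟨0,[(11,0),(13,0)]⟩⟩,⟨true,0,⟨0,[]⟩,⟨0,[(44,0)]⟩⟩,⟨false,0,⟨2,[(0,0),(2,1),(11,0),(8,0),(4,
  0),(8,0)]⟩,⟨0,[(5,0),(22,0)]⟩⟩,⟨false,1,⟨0,[(39,0),(2,0)]⟩,⟨0,[(40,0)]⟩⟩,⟨false,0,⟨1,[(0,0),(2,0),
  (8,0),(7,0),(3,0),(13,0)]⟩,⟨0,[(5,0),(11,0),(0,0)]⟩⟩,[.o ⟨false,0,⟨1,[(14,0),(0,0)]⟩,⟨3,[(22,0),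
  (0,0),(4,3),(13,1)]⟩⟩,.o ⟨false,1,⟨3,[(14,0),(0,0),(13,1),(5,0),(6,2)]⟩,⟨0,[(28,0)]⟩⟩,.o ⟨false,1,
  ⟨1,[(25,1),(9,0),(5,0)]⟩,⟨4,[(14,1),(9,4),(2,2),(0,1),(1,0),(7,0)]⟩⟩,.a ⟨true,0,⟨0,[(25,0)]⟩,⟨0,
  [(24,0)]⟩⟩ ⟨false,1,⟨0,[(2,0),(21,0)]⟩,⟨0,[(4,0)]⟩⟩ ⟨true,0,⟨1,[(14,0),(0,0),(8,1)]⟩,⟨0,[(25,0),
  (2,0)]⟩⟩]⟩) (.Q [0,0,1,2,0,0,0,0,1,1,0,-1] (.p false [0,0,0,1] [1] (⟨0,[(25,0)]⟩,⟨0,[(24,0)]⟩) .k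
  1 (⟨0,[]⟩,⟨0,[]⟩) .k .k) (.R ⟨1,false,false,true,[1,0,0,-1],[0,1],[1,0,0,0,0,0,0,0,-1],(⟨0,[(25,
  0)]⟩,⟨0,[(26,0)]⟩),(⟨0,[(38,0)]⟩,⟨0,[(37,0)]⟩),⟨0,[(2,0)]⟩,.k,.k,(.x (-1) ⟨7,[(14,3),(5,3),(2,2),
  (0,2),(11,1)]⟩ ⟨0,[(38,0)]⟩),(.x (-1) ⟨7,[(14,3),(5,3),(2,2),(0,2),(11,1)]⟩ ⟨0,[(38,0)]⟩),(.r
  (-1) ⟨0,[(1,0),(6,0),(9,0),(14,0),(7,0)]⟩ ⟨4,[(0,3),(4,0),(7,1),(12,3),(1,1),(0,1),(1,1),(7,0)]⟩),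
  .k,⟨false,1,⟨0,[(1,0),(6,0),(0,0),(12,0)]⟩,⟨0,[(5,0),(34,0)]⟩⟩,⟨true,0,⟨0,[(25,0)]⟩,⟨4,[(15,1),
  (10,4),(1,2),(0,1),(1,0),(7,0)]⟩⟩,⟨true,0,⟨0,[]⟩,⟨0,[(45,0)]⟩⟩,⟨false,0,⟨1,[(0,0),(4,0),(19,0)]⟩,
  ⟨0,[(3,0),(37,0)]⟩⟩,⟨false,1,⟨7,[(0,3),(2,3),(19,0),(0,0),(18,1)]⟩,⟨0,[(41,0)]⟩⟩,⟨false,0,⟨0,[(0,
  0)]⟩,⟨0,[(3,0),(37,1)]⟩⟩,[.o ⟨false,0,⟨0,[(40,0)]⟩,⟨25,[(5,5),(1,3),(1,7),(8,9),(4,2),(4,1),(7,7),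
  (6,10)]⟩⟩,.o ⟨false,1,⟨2,[(0,0),(2,0),(19,0),(0,0),(15,0)]⟩,⟨0,[(11,0)]⟩⟩,.o ⟨false,1,⟨1,[(26,1),
  (9,0),(5,0)]⟩,⟨5,[(1,0),(2,0),(10,1),(9,4),(2,2),(0,0),(1,1)]⟩⟩,.a ⟨true,0,⟨0,[(26,0)]⟩,⟨0,[(25,
  0)]⟩⟩ ⟨false,1,⟨0,[(3,0),(21,0)]⟩,⟨0,[(5,0)]⟩⟩ ⟨true,0,⟨0,[(25,0),(14,0)]⟩,⟨0,[(11,0),(14,
  0)]⟩⟩]⟩) (.R ⟨2,true,false,true,[0,1],[1,0,0,-1],[0,1,1],(⟨0,[]⟩,⟨0,[]⟩),(⟨0,[(25,0)]⟩,⟨0,[(26,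
  0)]⟩),⟨0,[]⟩,.k,.k,.k,(.x 0 ⟨0,[(38,0)]⟩ ⟨7,[(14,3),(5,3),(2,2),(0,2),(11,1)]⟩),.k,.k,⟨true,0,⟨0,
  [(5,0)]⟩,⟨0,[(1,0),(31,0)]⟩⟩,⟨false,1,⟨1,[(26,1),(9,0),(5,0)]⟩,⟨0,[(25,0)]⟩⟩,⟨false,0,⟨0,[(41,
  0)]⟩,⟨0,[(40,0),(2,0)]⟩⟩,⟨true,0,⟨0,[(0,0),(39,0)]⟩,⟨1,[(4,1),(16,1),(0,0),(2,0),(0,0)]⟩⟩,⟨true,0,
  ⟨0,[(45,0)]⟩,⟨0,[]⟩⟩,⟨false,1,⟨0,[(3,0),(41,0)]⟩,⟨0,[(4,0),(20,0),(0,0)]⟩⟩,[]⟩))))) (.K ⟨0,[0,0,0,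
  1],0,0,(⟨0,[(22,0)]⟩,⟨0,[(21,0)]⟩),.k,(.r (-1) ⟨4,[(3,0),(2,2),(7,1),(5,0),(5,1),(10,0)]⟩ ⟨1,[(0,
  1),(8,0),(11,1),(2,0),(0,0),(1,0),(7,1),(0,0)]⟩),(.x 0 ⟨0,[(34,0)]⟩ ⟨7,[(10,3),(5,3),(2,2),(0,2),
  (11,1)]⟩),.k,.k,[⟨0,[(22,0)]⟩,⟨0,[(21,0)]⟩,⟨0,[(0,0)]⟩,⟨2,[(1,2),(5,0),(1,0),(11,2),(1,0),(1,
  1)]⟩]⟩)) (.Q [0,1,1,0,0,0,0,0,1,0,0,-1] (.p false [0,0,0,1] [] (⟨0,[(21,0)]⟩,⟨0,[(20,0)]⟩) .k 0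
  (⟨0,[]⟩,⟨0,[]⟩) .k .k) (.K ⟨0,[0,0,0,1],0,0,(⟨0,[(22,0)]⟩,⟨0,[(21,0)]⟩),.k,(.r (-1) ⟨4,[(3,0),(2,
  2),(7,1),(5,0),(5,1),(10,0)]⟩ ⟨3,[(1,3),(25,2),(0,2),(6,1),(0,3)]⟩),(.x 0 ⟨0,[(34,0)]⟩ ⟨7,[(10,3),
  (5,3),(2,2),(0,2),(11,1)]⟩),.k,.k,[⟨0,[(22,0)]⟩,⟨0,[(21,0)]⟩,⟨0,[(1,0),(20,0),(18,0)]⟩,⟨0,[(0,
  0)]⟩]⟩) (.Q [0,0,0,0,0,-1,0,0,0,1,0,-1] (.ed true [0,1,0,1] .k) (.R ⟨1,false,false,false,[1,0,0,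
  -1],[1,0,-1],[1,1,0,0,0,0,0,0,-1],(⟨0,[(22,0)]⟩,⟨0,[(23,0)]⟩),(⟨0,[(31,0)]⟩,⟨0,[(32,0)]⟩),⟨0,[(0,
  0)]⟩,.k,.k,(.x (-1) ⟨7,[(11,3),(5,3),(2,2),(0,2),(11,1)]⟩ ⟨0,[(35,0)]⟩),.k,(.r 0 ⟨0,[(1,0),(6,0),
  (7,0),(5,0)]⟩ ⟨5,[(21,2),(5,3),(0,3),(1,1),(5,1),(0,5),(2,2)]⟩),.k,⟨false,0,⟨0,[(2,0),(13,0)]⟩,⟨1,
  [(21,0),(8,1),(9,0)]⟩⟩,⟨true,0,⟨0,[(22,0),(2,0)]⟩,⟨0,[(9,0),(13,0)]⟩⟩,⟨false,0,⟨0,[]⟩,⟨3,[(20,0),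
  (0,0),(18,1)]⟩⟩,⟨false,1,⟨13,[(12,5),(8,6),(0,13),(2,7),(1,7),(0,1),(7,3),(3,6)]⟩,⟨0,[(1,0),(24,
  0)]⟩⟩,⟨true,0,⟨0,[(37,0)]⟩,⟨0,[(38,0)]⟩⟩,⟨false,1,⟨1,[(10,1),(10,0),(0,1),(5,0),(0,0),(10,0)]⟩,⟨0,
  [(1,0),(13,0),(0,0)]⟩⟩,[.o ⟨false,0,⟨1,[(12,0),(0,0)]⟩,⟨3,[(20,0),(0,0),(4,3),(13,1)]⟩⟩,.o ⟨false,
  1,⟨3,[(12,0),(0,0),(13,1),(5,0),(6,2)]⟩,⟨0,[(26,0)]⟩⟩,.o ⟨false,1,⟨1,[(23,1),(9,0),(5,0)]⟩,⟨4,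
  [(12,1),(9,4),(2,2),(0,1),(1,0),(7,0)]⟩⟩,.a ⟨true,0,⟨0,[(23,0)]⟩,⟨0,[(22,0)]⟩⟩ ⟨false,0,⟨0,[(2,
  0)]⟩,⟨1,[(21,0),(6,0),(0,0),(10,0)]⟩⟩ ⟨true,0,⟨1,[(12,0),(0,0),(8,1)]⟩,⟨0,[(23,0),(2,0)]⟩⟩]⟩) (.R
  ⟨0,false,false,false,[1,0,0,-1],[1,0,-1],[0,1,0,0,0,0,0,0,-1],(⟨0,[(22,0)]⟩,⟨0,[(23,0)]⟩),(⟨0,
  [(31,0)]⟩,⟨0,[(32,0)]⟩),⟨0,[(0,0)]⟩,.k,.k,(.x (-1) ⟨7,[(11,3),(5,3),(2,2),(0,2),(11,1)]⟩ ⟨0,[(35,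
  0)]⟩),.k,.k,.k,⟨false,0,⟨0,[(2,0),(13,0)]⟩,⟨1,[(21,0),(8,1),(9,0)]⟩⟩,⟨true,0,⟨0,[(22,0),(2,0)]⟩,
  ⟨0,[(9,0),(13,0)]⟩⟩,⟨true,0,⟨0,[(42,0)]⟩,⟨0,[]⟩⟩,⟨false,1,⟨13,[(12,5),(8,6),(0,13),(2,7),(1,7),(0,
  1),(7,3),(3,6)]⟩,⟨0,[(1,0),(24,0)]⟩⟩,⟨false,0,⟨0,[]⟩,⟨0,[]⟩⟩,⟨false,0,⟨0,[]⟩,⟨0,[]⟩⟩,[.o ⟨false,0,
  ⟨1,[(12,0),(0,0)]⟩,⟨3,[(20,0),(0,0),(4,3),(13,1)]⟩⟩,.o ⟨false,1,⟨3,[(12,0),(0,0),(13,1),(5,0),(6,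
  2)]⟩,⟨0,[(26,0)]⟩⟩,.o ⟨false,1,⟨1,[(23,1),(9,0),(5,0)]⟩,⟨4,[(12,1),(9,4),(2,2),(0,1),(1,0),(7,
  0)]⟩⟩,.a ⟨true,0,⟨0,[(23,0)]⟩,⟨0,[(22,0)]⟩⟩ ⟨false,0,⟨0,[(1,0),(4,0),(2,1),(0,0),(0,0),(4,1),(0,
  0),(4,0),(12,1)]⟩,⟨1,[(21,0),(6,0),(0,0),(10,0)]⟩⟩ ⟨true,0,⟨1,[(12,0),(0,0),(8,1)]⟩,⟨0,[(23,0),(2,
  0)]⟩⟩]⟩))))) (.Q [0,0,2,0,-1,0,1,0,0,1,-1] (.p false [0,0,1] [1] (⟨0,[(28,0)]⟩,⟨0,[(27,0)]⟩) .k 1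
  (⟨0,[]⟩,⟨0,[]⟩) .k .k) (.K ⟨0,[1,1,-1],1,0,(⟨0,[(28,0),(3,0)]⟩,⟨0,[(8,0)]⟩),.k,.k,(.r 1 ⟨0,[(1,0),
  (11,0)]⟩ ⟨1,[(2,0),(1,1),(7,0),(0,1),(3,0),(17,2)]⟩),.k,.k,[⟨0,[(0,0)]⟩,⟨0,[(2,0)]⟩,⟨0,[(11,0),(1,
  0),(2,0)]⟩,⟨1,[(7,0),(13,0),(12,0)]⟩]⟩) (.I [0,0,1,1,0,0,0,0,-1] (.Q [0,1,-1,0,0,0,0,0,-1,0,0,1]
  (.p true [0,0,0,1] [] (⟨0,[(21,0)]⟩,⟨0,[(20,0)]⟩) .k 0 (⟨0,[]⟩,⟨0,[]⟩) .k .k) (.K ⟨0,[0,0,0,1],0,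
  0,(⟨0,[(22,0)]⟩,⟨0,[(21,0)]⟩),.k,(.r (-1) ⟨1,[(4,0),(9,0),(5,0),(16,0)]⟩ ⟨0,[(1,0)]⟩),(.x 0 ⟨0,
  [(34,0)]⟩ ⟨7,[(10,3),(5,3),(2,2),(0,2),(11,1)]⟩),.k,.k,[⟨0,[(22,0)]⟩,⟨0,[(21,0)]⟩,⟨0,[(0,0)]⟩,⟨1,
  [(3,0),(3,1),(7,1),(4,0),(0,1),(19,0)]⟩]⟩) (.I [1,-1,-1,0,1,0,0,0,-1] (.Q [0,-1,1,1,0,0,0,0,1,1,0,
  -1] (.p false [0,0,0,1] [1] (⟨0,[(23,0)]⟩,⟨0,[(22,0)]⟩) .k 1 (⟨0,[]⟩,⟨0,[]⟩) .k .k) (.Q [0,0,0,0,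
  0,-1,0,0,0,1,0,-1] (.ed true [0,1,0,1] .k) (.I [0,0,-2,-2,1,0,0,0,1] (.R ⟨1,false,false,false,[1,
  0,0,-1],[1,0,-1],[1,0,0,0,0,0,0,0,-1],(⟨0,[(25,0)]⟩,⟨0,[(26,0)]⟩),(⟨0,[(34,0)]⟩,⟨0,[(35,0)]⟩),⟨0,
  [(1,0)]⟩,.k,.k,(.x (-1) ⟨7,[(14,3),(5,3),(2,2),(0,2),(11,1)]⟩ ⟨0,[(38,0)]⟩),.k,(.r (-1) ⟨0,[(3,0),
  (15,0),(21,0)]⟩ ⟨1,[(7,0),(16,0),(20,0)]⟩),.k,⟨false,1,⟨0,[(3,0),(15,0)]⟩,⟨0,[(0,0),(6,0),(11,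
  0)]⟩⟩,⟨true,0,⟨0,[(25,0),(2,0)]⟩,⟨0,[(12,0),(13,0)]⟩⟩,⟨true,0,⟨0,[]⟩,⟨0,[(45,0)]⟩⟩,⟨false,0,⟨1,
  [(2,0),(1,0),(4,0),(20,0)]⟩,⟨0,[(3,0),(22,0),(2,0)]⟩⟩,⟨false,1,⟨0,[(5,0),(4,0)]⟩,⟨0,[(41,0)]⟩⟩,
  ⟨false,0,⟨6,[(2,2),(1,2),(2,0),(2,0),(2,1),(2,1),(8,0),(4,0)]⟩,⟨0,[(3,0),(14,0),(0,0),(6,0)]⟩⟩,
  [.o ⟨false,0,⟨1,[(15,0),(0,0)]⟩,⟨3,[(23,0),(0,0),(4,3),(13,1)]⟩⟩,.o ⟨false,1,⟨3,[(15,0),(0,0),(13,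
  1),(5,0),(6,2)]⟩,⟨0,[(29,0)]⟩⟩,.o ⟨false,1,⟨1,[(26,1),(9,0),(5,0)]⟩,⟨5,[(4,1),(0,1),(5,1),(13,3),
  (1,0),(0,0),(0,0),(1,0)]⟩⟩,.a ⟨true,0,⟨0,[(26,0)]⟩,⟨0,[(25,0)]⟩⟩ ⟨false,1,⟨0,[(3,0)]⟩,⟨2,[(4,0),
  (2,0),(11,1),(4,0),(1,0),(14,1)]⟩⟩ ⟨true,0,⟨1,[(15,0),(0,0),(8,1)]⟩,⟨0,[(26,0),(2,0)]⟩⟩]⟩) (.R ⟨1,
  false,false,true,[1,0,0,-1],[0,1],[1,1,0,0,0,0,0,0,-1],(⟨0,[(25,0)]⟩,⟨0,[(26,0)]⟩),(⟨0,[(38,0)]⟩,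
  ⟨0,[(37,0)]⟩),⟨0,[(1,0)]⟩,.k,.k,(.x (-1) ⟨7,[(14,3),(5,3),(2,2),(0,2),(11,1)]⟩ ⟨0,[(38,0)]⟩),(.x
  (-1) ⟨7,[(14,3),(5,3),(2,2),(0,2),(11,1)]⟩ ⟨0,[(38,0)]⟩),(.r (-1) ⟨0,[(0,0),(7,1),(9,1),(22,1)]⟩
  ⟨0,[(0,0),(23,0)]⟩),.k,⟨false,1,⟨0,[(0,0),(7,1),(9,1),(22,0)]⟩,⟨3,[(2,0),(1,0),(2,0),(5,0),(5,1),
  (4,0),(1,1),(2,0)]⟩⟩,⟨true,0,⟨0,[(25,0)]⟩,⟨7,[(0,1),(10,3),(12,0),(1,7),(1,1),(2,1),(4,0)]⟩⟩,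
  ⟨false,0,⟨0,[]⟩,⟨3,[(23,0),(0,0),(18,1)]⟩⟩,⟨false,0,⟨0,[(2,0),(42,0)]⟩,⟨0,[(3,0),(7,0),(14,0)]⟩⟩,
  ⟨true,0,⟨0,[(40,0)]⟩,⟨0,[(41,0)]⟩⟩,⟨false,0,⟨0,[(2,0),(37,0)]⟩,⟨0,[(3,0),(7,0),(14,0),(14,0)]⟩⟩,
  [.o ⟨false,0,⟨0,[(40,0)]⟩,⟨3,[(11,3),(11,0),(0,0),(18,1)]⟩⟩,.o ⟨false,1,⟨3,[(5,1),(4,1),(12,0),(0,
  0),(15,1)]⟩,⟨0,[(11,0)]⟩⟩,.o ⟨false,1,⟨1,[(26,1),(9,0),(5,0)]⟩,⟨15,[(0,1),(3,1),(6,3),(13,13),(1,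
  0),(0,4),(0,0),(1,4),(4,1)]⟩⟩,.a ⟨true,0,⟨0,[(26,0)]⟩,⟨0,[(25,0)]⟩⟩ ⟨false,1,⟨1,[(23,0),(18,0)]⟩,
  ⟨0,[(4,0),(21,0)]⟩⟩ ⟨true,0,⟨0,[(25,0),(14,0)]⟩,⟨0,[(11,0),(14,0)]⟩⟩]⟩)) (.Q [0,1,1,-1,-1,0,-1,-1,
  1,0,1,-1] (.p true [0,0,1] [0,0,0,1] (⟨0,[(34,0)]⟩,⟨0,[(33,0)]⟩) .k 2 (⟨0,[(25,0)]⟩,⟨0,[(24,0)]⟩)
  .k (.x (-1) ⟨7,[(21,3),(0,0),(0,0),(10,7),(0,1),(5,3)]⟩ ⟨0,[(27,0),(5,0)]⟩)) (.R ⟨0,false,false,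
  false,[1,0,0,-1],[1,-1],[1,0,0,0,0,0,0,0,-1],(⟨0,[(25,0)]⟩,⟨0,[(26,0)]⟩),(⟨0,[(37,0)]⟩,⟨0,[(38,
  0)]⟩),⟨0,[(1,0)]⟩,.k,.k,(.x (-1) ⟨7,[(14,3),(5,3),(2,2),(0,2),(11,1)]⟩ ⟨0,[(38,0)]⟩),(.r 0 ⟨0,[(5,
  0)]⟩ ⟨1,[(8,0),(9,0),(5,0),(16,0)]⟩),.k,.k,⟨true,0,⟨0,[(5,0)]⟩,⟨0,[(0,0),(25,0),(2,0),(9,0),(2,
  0)]⟩⟩,⟨false,0,⟨9,[(0,1),(3,3),(0,3),(5,1),(11,0),(1,3),(3,1),(6,0)]⟩,⟨0,[(26,0),(15,0)]⟩⟩,⟨true,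
  0,⟨0,[]⟩,⟨0,[(45,0)]⟩⟩,⟨false,0,⟨0,[(4,0),(36,0)]⟩,⟨0,[(3,0),(22,0),(13,0)]⟩⟩,⟨false,0,⟨0,[]⟩,⟨0,
  []⟩⟩,⟨false,0,⟨0,[]⟩,⟨0,[]⟩⟩,[.o ⟨false,0,⟨0,[(11,0)]⟩,⟨3,[(5,1),(4,1),(12,0),(0,0),(15,1)]⟩⟩,.o
  ⟨false,1,⟨3,[(11,3),(11,0),(0,0),(18,1)]⟩,⟨0,[(40,0)]⟩⟩,.o ⟨false,1,⟨1,[(26,1),(9,0),(5,0)]⟩,⟨9,
  [(0,1),(3,3),(0,3),(5,1),(11,0),(1,3),(3,1),(6,0)]⟩⟩,.a ⟨true,0,⟨0,[(26,0)]⟩,⟨0,[(25,0)]⟩⟩ ⟨false,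
  1,⟨0,[(3,0)]⟩,⟨4,[(0,0),(1,0),(1,0),(19,0),(1,2),(1,0),(0,0),(1,0)]⟩⟩ ⟨true,0,⟨0,[(11,0),(13,0)]⟩,
  ⟨0,[(26,0),(13,0)]⟩⟩]⟩) (.I [0,0,-2,-1,1,0,0,0,-1] (.R ⟨0,false,false,true,[1,0,0,-1],[0,1],[0,1,
  0,0,0,0,0,0,-1],(⟨0,[(26,0)]⟩,⟨0,[(27,0)]⟩),(⟨0,[(39,0)]⟩,⟨0,[(38,0)]⟩),⟨0,[(2,0)]⟩,.k,.k,(.x
  (-1) ⟨7,[(15,3),(5,3),(2,2),(0,2),(11,1)]⟩ ⟨0,[(39,0)]⟩),(.x (-1) ⟨7,[(15,3),(5,3),(2,2),(0,2),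
  (11,1)]⟩ ⟨0,[(39,0)]⟩),.k,.k,⟨false,1,⟨0,[(0,0)]⟩,⟨3,[(3,0),(1,0),(2,0),(5,0),(5,1),(4,0),(1,1),
  (2,0)]⟩⟩,⟨true,0,⟨0,[(26,0)]⟩,⟨14,[(8,1),(3,3),(14,14),(1,6),(0,3),(1,2),(4,1),(2,0)]⟩⟩,⟨true,0,
  ⟨0,[(46,0)]⟩,⟨0,[]⟩⟩,⟨false,0,⟨0,[(3,0),(42,0)]⟩,⟨5,[(0,1),(0,1),(8,1),(1,3),(11,0),(2,3),(16,
  0)]⟩⟩,⟨false,0,⟨0,[]⟩,⟨0,[]⟩⟩,⟨false,0,⟨0,[]⟩,⟨0,[]⟩⟩,[.o ⟨false,0,⟨0,[(41,0)]⟩,⟨3,[(12,3),(11,0),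
  (0,0),(18,1)]⟩⟩,.o ⟨false,1,⟨4,[(1,0),(1,0),(10,0),(9,1),(0,1),(15,1)]⟩,⟨0,[(12,0)]⟩⟩,.o ⟨false,1,
  ⟨1,[(27,1),(9,0),(5,0)]⟩,⟨5,[(5,1),(0,1),(5,1),(13,3),(1,0),(0,0),(0,0),(1,0)]⟩⟩,.a ⟨true,0,⟨0,
  [(27,0)]⟩,⟨0,[(26,0)]⟩⟩ ⟨false,1,⟨1,[(24,0),(18,0)]⟩,⟨0,[(5,0),(21,0)]⟩⟩ ⟨true,0,⟨0,[(26,0),(14,
  0)]⟩,⟨0,[(12,0),(14,0)]⟩⟩]⟩) (.R ⟨0,false,false,false,[1,0,0,-1],[1,-1],[1,0,0,0,0,0,0,0,-1],(⟨0,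
  [(26,0)]⟩,⟨0,[(27,0)]⟩),(⟨0,[(38,0)]⟩,⟨0,[(39,0)]⟩),⟨0,[(2,0)]⟩,.k,.k,(.x (-1) ⟨7,[(15,3),(5,3),
  (2,2),(0,2),(11,1)]⟩ ⟨0,[(39,0)]⟩),(.r 0 ⟨0,[(6,0)]⟩ ⟨1,[(9,0),(9,0),(5,0),(16,0)]⟩),.k,.k,⟨true,
  0,⟨0,[(6,0)]⟩,⟨0,[(0,0),(8,0),(9,0),(22,0)]⟩⟩,⟨false,0,⟨5,[(5,1),(0,1),(5,1),(13,3),(1,0),(0,0),
  (0,0),(1,0)]⟩,⟨0,[(27,0),(15,0)]⟩⟩,⟨true,0,⟨0,[]⟩,⟨0,[(46,0)]⟩⟩,⟨false,0,⟨0,[(5,0),(36,0)]⟩,⟨0,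
  [(1,0),(29,0)]⟩⟩,⟨false,0,⟨0,[]⟩,⟨0,[]⟩⟩,⟨false,0,⟨0,[]⟩,⟨0,[]⟩⟩,[.o ⟨false,0,⟨0,[(12,0)]⟩,⟨4,[(1,
  0),(1,0),(10,0),(9,1),(0,1),(15,1)]⟩⟩,.o ⟨false,1,⟨3,[(12,3),(11,0),(0,0),(18,1)]⟩,⟨0,[(41,0)]⟩⟩,
  .o ⟨false,1,⟨1,[(27,1),(9,0),(5,0)]⟩,⟨5,[(5,1),(0,1),(5,1),(13,3),(1,0),(0,0),(0,0),(1,0)]⟩⟩,.a
  ⟨true,0,⟨0,[(27,0)]⟩,⟨0,[(26,0)]⟩⟩ ⟨false,1,⟨0,[(4,0)]⟩,⟨2,[(0,0),(18,0),(5,0),(7,0)]⟩⟩ ⟨true,0,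
  ⟨0,[(12,0),(13,0)]⟩,⟨0,[(27,0),(13,0)]⟩⟩]⟩)))) (.R ⟨2,true,false,true,[0,1],[1,0,0,-1],[0,1,1],
  (⟨0,[]⟩,⟨0,[]⟩),(⟨0,[(23,0)]⟩,⟨0,[(24,0)]⟩),⟨0,[]⟩,.k,.k,.k,(.x 0 ⟨0,[(36,0)]⟩ ⟨7,[(12,3),(5,3),
  (2,2),(0,2),(11,1)]⟩),.k,.k,⟨true,0,⟨2,[(2,0),(2,0),(11,1),(4,0),(1,0),(14,1)]⟩,⟨2,[(0,1),(0,0),
  (3,0),(11,1),(5,1),(13,0)]⟩⟩,⟨false,1,⟨1,[(24,1),(9,0),(5,0)]⟩,⟨0,[(23,0)]⟩⟩,⟨false,0,⟨0,[(39,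
  0)]⟩,⟨0,[(3,0),(4,0)]⟩⟩,⟨true,0,⟨0,[(0,0)]⟩,⟨3,[(2,0),(2,1),(2,0),(8,3),(4,0),(0,3),(0,0)]⟩⟩,
  ⟨true,0,⟨0,[(43,0)]⟩,⟨0,[]⟩⟩,⟨false,1,⟨2,[(0,0),(0,1),(22,1),(9,0),(3,0)]⟩,⟨0,[(2,0),(20,0),(0,
  0)]⟩⟩,[]⟩)) (.Q [0,1,1,0,-1,0,0,0,1,0,0,-1] (.p false [0,0,0,1] [] (⟨0,[(23,0)]⟩,⟨0,[(22,0)]⟩) .k
  0 (⟨0,[]⟩,⟨0,[]⟩) .k .k) (.K ⟨0,[0,0,0,1],0,(-1),(⟨0,[(24,0)]⟩,⟨0,[(23,0)]⟩),.k,(.r (-1) ⟨1,[(6,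
  0),(9,0),(5,0),(16,0)]⟩ ⟨0,[(3,0)]⟩),(.x 0 ⟨0,[(36,0)]⟩ ⟨7,[(12,3),(5,3),(2,2),(0,2),(11,1)]⟩),.k,
  .k,[⟨0,[(24,0)]⟩,⟨0,[(23,0)]⟩,⟨1,[(21,0),(2,1),(15,0),(2,1)]⟩,⟨0,[(0,0)]⟩]⟩) (.R ⟨2,true,false,
  true,[0,1],[0,0,0,1],[0,1,1],(⟨0,[]⟩,⟨0,[]⟩),(⟨0,[(24,0)]⟩,⟨0,[(23,0)]⟩),⟨0,[]⟩,.k,.k,.k,(.r 0 ⟨0,
  [(3,0)]⟩ ⟨1,[(6,0),(9,0),(5,0),(16,0)]⟩),.k,.k,⟨true,0,⟨0,[(3,0),(35,0)]⟩,⟨1,[(1,0),(6,0)]⟩⟩,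
  ⟨false,0,⟨5,[(1,0),(0,0),(0,1),(5,1),(13,4),(2,0),(2,0),(4,0)]⟩,⟨0,[(24,0),(15,0)]⟩⟩,⟨false,0,⟨0,
  [(39,0)]⟩,⟨0,[(3,0),(4,0)]⟩⟩,⟨true,(-1),⟨0,[(1,0),(7,0),(13,0)]⟩,⟨0,[(0,0),(37,0)]⟩⟩,⟨true,0,⟨0,
  [(43,0)]⟩,⟨0,[]⟩⟩,⟨false,0,⟨7,[(1,2),(0,2),(19,0),(0,4),(2,0),(2,0),(4,1)]⟩,⟨0,[(0,0)]⟩⟩,[]⟩))))
  (.K ⟨0,[0,0,0,1],0,(-1),(⟨0,[(21,0)]⟩,⟨0,[(20,0)]⟩),.k,(.x 0 ⟨1,[(9,0),(5,0),(7,0),(2,1),(0,0)]⟩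
  ⟨0,[(33,0),(3,0)]⟩),(.x 0 ⟨0,[(33,0)]⟩ ⟨7,[(9,3),(5,3),(2,2),(0,2),(11,1)]⟩),.k,.k,[⟨0,[(21,0)]⟩,
  ⟨0,[(20,0)]⟩,⟨1,[(18,0),(2,1),(15,0),(2,1)]⟩,⟨0,[(0,0),(1,0),(3,0),(7,1),(5,0)]⟩]⟩)))) (.I [0,0,
  -2,-2,1,0,0,1] (.R ⟨1,true,false,false,[0,0,1],[0,1],[1,1,0,0,0,0,0,1],(⟨0,[(28,0)]⟩,⟨0,[(27,
  0)]⟩),(⟨0,[(31,0)]⟩,⟨0,[(30,0)]⟩),⟨0,[(7,0)]⟩,.k,.k,.k,.k,(.r (-1) ⟨0,[(0,0)]⟩ ⟨2,[(1,1),(21,1),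
  (2,0),(5,1),(0,5),(2,1)]⟩),.k,⟨false,1,⟨0,[(0,0),(32,0)]⟩,⟨0,[(26,0),(5,0),(0,0)]⟩⟩,⟨true,1,⟨5,
  [(0,1),(13,3),(8,1),(11,0),(0,2)]⟩,⟨0,[(1,0)]⟩⟩,⟨false,0,⟨0,[]⟩,⟨3,[(16,0),(0,0),(18,1)]⟩⟩,⟨true,
  0,⟨0,[(6,0),(11,0),(0,0)]⟩,⟨1,[(0,0),(0,0),(20,0),(15,0)]⟩⟩,⟨true,0,⟨0,[(33,0)]⟩,⟨0,[(34,0)]⟩⟩,
  ⟨false,1,⟨1,[(6,1),(7,1),(0,0),(2,0),(0,0),(16,1)]⟩,⟨0,[(0,0),(0,0)]⟩⟩,[]⟩) (.Q [0,1,-1,0,0,0,0,0,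
  -1,0,0,1] (.p true [0,0,0,1] [] (⟨0,[(19,0)]⟩,⟨0,[(18,0)]⟩) .k 0 (⟨0,[]⟩,⟨0,[]⟩) .k .k) (.K ⟨0,[0,
  0,0,1],0,0,(⟨0,[(20,0)]⟩,⟨0,[(19,0)]⟩),.k,(.r (-1) ⟨1,[(18,0),(16,1),(0,0)]⟩ ⟨4,[(0,0),(0,1),(5,
  0),(5,1),(3,1),(1,0),(3,0),(9,1)]⟩),(.x 0 ⟨0,[(32,0)]⟩ ⟨7,[(8,3),(5,3),(2,2),(0,2),(11,1)]⟩),.k,
  .k,[⟨0,[(20,0)]⟩,⟨0,[(19,0)]⟩,⟨0,[(0,0)]⟩,⟨5,[(2,2),(2,1),(1,1),(5,2),(4,2),(0,5),(1,1),(1,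
  0)]⟩]⟩) (.I [0,0,1,1,0,0,0,0,-1] (.I [1,0,0,1,0,0,0,-1,-1] (.Q [0,0,0,0,0,-1,0,0,0,1,0,-1] (.ed
  true [0,1,0,1] .k) (.R ⟨1,false,false,true,[1,0,0,-1],[0,-1,1],[1,1,0,0,0,0,0,0,-1],(⟨0,[(22,0)]⟩,
  ⟨0,[(23,0)]⟩),(⟨0,[(11,0)]⟩,⟨0,[(31,0),(3,0)]⟩),⟨0,[(0,0)]⟩,.k,.k,(.x (-1) ⟨7,[(11,3),(5,3),(2,2),
  (0,2),(11,1)]⟩ ⟨0,[(35,0)]⟩),(.r 0 ⟨1,[(4,0),(15,0),(9,0)]⟩ ⟨0,[(7,0),(8,0),(21,0)]⟩),.k,.k,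
  ⟨false,0,⟨0,[(1,0)]⟩,⟨0,[(7,0),(8,0),(21,0)]⟩⟩,⟨true,(-1),⟨0,[(5,0),(16,0)]⟩,⟨0,[(23,0),(1,0),(13,
  0)]⟩⟩,⟨false,0,⟨0,[]⟩,⟨3,[(20,0),(0,0),(18,1)]⟩⟩,⟨false,0,⟨0,[(3,0),(10,0),(1,0),(2,0)]⟩,⟨1,[(1,
  0),(0,0),(3,0),(3,0),(5,0),(6,1),(12,0),(2,1)]⟩⟩,⟨true,0,⟨0,[(37,0)]⟩,⟨0,[(38,0)]⟩⟩,⟨false,0,⟨1,
  [(3,1),(12,1),(2,0),(2,0),(0,0)]⟩,⟨0,[(2,0),(3,0),(16,0),(15,0)]⟩⟩,[.o ⟨false,0,⟨0,[(15,0),(0,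
  0)]⟩,⟨3,[(10,3),(9,0),(0,0),(18,1)]⟩⟩,.o ⟨false,1,⟨3,[(15,3),(0,3),(3,0),(0,0),(18,1)]⟩,⟨0,[(10,
  0)]⟩⟩,.o ⟨false,1,⟨1,[(23,1),(9,0),(5,0)]⟩,⟨2,[(5,0),(16,2),(2,0),(7,0)]⟩⟩,.a ⟨true,0,⟨0,[(23,
  0)]⟩,⟨0,[(22,0)]⟩⟩ ⟨false,1,⟨1,[(20,0),(18,0)]⟩,⟨0,[(3,0),(19,0)]⟩⟩ ⟨true,0,⟨0,[(15,0),(0,0),(5,
  0)]⟩,⟨0,[(10,0),(12,0)]⟩⟩]⟩) (.R ⟨0,false,false,true,[1,0,0,-1],[0,0,1],[0,1,0,0,0,0,0,0,-1],(⟨0,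
  [(22,0)]⟩,⟨0,[(23,0)]⟩),(⟨0,[(32,0)]⟩,⟨0,[(31,0)]⟩),⟨0,[(0,0)]⟩,.k,.k,(.x (-1) ⟨7,[(11,3),(5,3),
  (2,2),(0,2),(11,1)]⟩ ⟨0,[(35,0)]⟩),.k,.k,.k,⟨true,0,⟨0,[(1,0),(36,0)]⟩,⟨0,[(3,0),(12,0),(6,0)]⟩⟩,
  ⟨false,0,⟨0,[(9,0),(12,0)]⟩,⟨0,[(23,0),(1,0),(13,0)]⟩⟩,⟨true,0,⟨0,[(42,0)]⟩,⟨0,[]⟩⟩,⟨false,0,⟨1,
  [(3,1),(12,1),(2,0),(2,0),(0,0)]⟩,⟨2,[(0,1),(0,0),(4,0),(4,0),(1,0),(3,0),(2,0),(2,0),(12,0),(2,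
  1)]⟩⟩,⟨false,0,⟨0,[]⟩,⟨0,[]⟩⟩,⟨false,0,⟨0,[]⟩,⟨0,[]⟩⟩,[.o ⟨false,0,⟨0,[(26,0)]⟩,⟨3,[(12,0),(0,0),
  (13,1),(5,0),(6,2)]⟩⟩,.o ⟨false,1,⟨3,[(20,0),(0,0),(4,3),(13,1)]⟩,⟨1,[(12,0),(0,0)]⟩⟩,.o ⟨false,1,
  ⟨1,[(23,1),(9,0),(5,0)]⟩,⟨2,[(5,0),(16,2),(2,0),(7,0)]⟩⟩,.a ⟨true,0,⟨0,[(23,0)]⟩,⟨0,[(22,0)]⟩⟩
  ⟨false,1,⟨1,[(20,0),(18,0)]⟩,⟨0,[(3,0),(19,0)]⟩⟩ ⟨true,0,⟨0,[(22,0),(3,0)]⟩,⟨1,[(12,0),(0,0),(9,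
  1)]⟩⟩]⟩)) (.I [1,0,-1,0,1,0,0,1,-1] (.Q [0,0,0,0,0,-1,0,0,0,1,0,-1] (.ed true [0,1,0,1] .k) (.R
  ⟨1,false,false,false,[1,0,0,-1],[1,-1],[0,0,0,-1,0,0,0,0,-1],(⟨0,[(23,0)]⟩,⟨0,[(24,0)]⟩),(⟨0,[(35,
  0)]⟩,⟨0,[(36,0)]⟩),⟨0,[(0,0)]⟩,.k,.k,(.x (-1) ⟨7,[(12,3),(5,3),(2,2),(0,2),(11,1)]⟩ ⟨0,[(36,0)]⟩),
  (.r 0 ⟨0,[(3,0)]⟩ ⟨1,[(22,0),(16,1),(0,0)]⟩),.k,.k,⟨true,0,⟨2,[(3,0),(2,0),(8,0),(5,0)]⟩,⟨1,[(2,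
  1),(2,0),(25,0),(8,0)]⟩⟩,⟨false,0,⟨2,[(6,0),(16,2),(2,0),(7,0)]⟩,⟨0,[(24,0),(15,0)]⟩⟩,⟨true,0,⟨0,
  [(39,0)]⟩,⟨0,[(38,0)]⟩⟩,⟨false,0,⟨0,[(4,0),(34,0)]⟩,⟨0,[(3,0),(20,0),(15,0)]⟩⟩,⟨false,1,⟨3,[(21,
  0),(0,0),(18,1)]⟩,⟨0,[]⟩⟩,⟨false,0,⟨0,[(4,0)]⟩,⟨1,[(21,0),(2,1),(15,0)]⟩⟩,[.o ⟨false,0,⟨0,[(9,
  0)]⟩,⟨3,[(3,1),(4,1),(12,0),(0,0),(15,1)]⟩⟩,.o ⟨false,1,⟨3,[(9,3),(11,0),(0,0),(18,1)]⟩,⟨0,[(38,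
  0)]⟩⟩,.o ⟨false,1,⟨1,[(24,1),(9,0),(5,0)]⟩,⟨2,[(6,0),(16,2),(2,0),(7,0)]⟩⟩,.a ⟨true,0,⟨0,[(24,
  0)]⟩,⟨0,[(23,0)]⟩⟩ ⟨false,1,⟨1,[(1,1),(5,1),(12,0),(2,0),(0,0)]⟩,⟨8,[(2,0),(2,4),(2,1),(8,3),(4,
  2),(14,0)]⟩⟩ ⟨true,0,⟨0,[(9,0),(13,0)]⟩,⟨0,[(24,0),(13,0)]⟩⟩]⟩) (.R ⟨0,false,false,false,[1,0,0,
  -1],[1,-1],[0,0,0,-1,0,0,0,0,-1],(⟨0,[(23,0)]⟩,⟨0,[(24,0)]⟩),(⟨0,[(35,0)]⟩,⟨0,[(36,0)]⟩),⟨0,[(0,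
  0)]⟩,.k,.k,(.x (-1) ⟨7,[(12,3),(5,3),(2,2),(0,2),(11,1)]⟩ ⟨0,[(36,0)]⟩),(.r 0 ⟨0,[(3,0)]⟩ ⟨1,[(22,
  0),(16,1),(0,0)]⟩),.k,.k,⟨true,0,⟨2,[(3,0),(2,0),(8,0),(5,0)]⟩,⟨1,[(2,1),(2,0),(25,0),(8,0)]⟩⟩,
  ⟨false,0,⟨2,[(6,0),(16,2),(2,0),(7,0)]⟩,⟨0,[(24,0),(15,0)]⟩⟩,⟨true,0,⟨0,[(39,0)]⟩,⟨0,[(38,0)]⟩⟩,
  ⟨false,0,⟨0,[(4,0),(34,0)]⟩,⟨0,[(3,0),(20,0),(15,0)]⟩⟩,⟨false,0,⟨0,[]⟩,⟨0,[]⟩⟩,⟨false,0,⟨0,[]⟩,⟨0,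
  []⟩⟩,[.o ⟨false,0,⟨0,[(9,0)]⟩,⟨3,[(3,1),(4,1),(12,0),(0,0),(15,1)]⟩⟩,.o ⟨false,1,⟨3,[(9,3),(11,0),
  (0,0),(18,1)]⟩,⟨0,[(38,0)]⟩⟩,.o ⟨false,1,⟨1,[(24,1),(9,0),(5,0)]⟩,⟨2,[(6,0),(16,2),(2,0),(7,0)]⟩⟩,
  .a ⟨true,0,⟨0,[(24,0)]⟩,⟨0,[(23,0)]⟩⟩ ⟨false,1,⟨1,[(1,1),(5,1),(12,0),(2,0),(0,0)]⟩,⟨8,[(2,0),(2,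
  4),(2,1),(8,3),(4,2),(14,0)]⟩⟩ ⟨true,0,⟨0,[(9,0),(13,0)]⟩,⟨0,[(24,0),(13,0)]⟩⟩]⟩)) (.Q [0,1,1,0,
  -1,0,0,0,1,0,0,-1] (.p false [0,0,0,1] [] (⟨0,[(23,0)]⟩,⟨0,[(22,0)]⟩) .k 0 (⟨0,[]⟩,⟨0,[]⟩) .k .k)
  (.K ⟨0,[0,0,0,1],0,(-1),(⟨0,[(24,0)]⟩,⟨0,[(23,0)]⟩),.k,(.r (-1) ⟨1,[(22,0),(16,1),(0,0)]⟩ ⟨0,[(3,
  0)]⟩),(.x 0 ⟨0,[(36,0)]⟩ ⟨7,[(12,3),(5,3),(2,2),(0,2),(11,1)]⟩),.k,.k,[⟨0,[(24,0)]⟩,⟨0,[(23,0)]⟩,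
  ⟨1,[(21,0),(2,1),(15,0),(2,1)]⟩,⟨0,[(0,0)]⟩]⟩) (.R ⟨2,true,false,true,[0,1],[0,0,0,1],[0,1,1],(⟨0,
  []⟩,⟨0,[]⟩),(⟨0,[(24,0)]⟩,⟨0,[(23,0)]⟩),⟨0,[]⟩,.k,.k,.k,(.r 0 ⟨0,[(3,0)]⟩ ⟨1,[(22,0),(16,1),(0,
  0)]⟩),.k,.k,⟨true,0,⟨2,[(3,0),(2,0),(8,0),(5,0)]⟩,⟨2,[(1,0),(0,0),(5,0),(29,0)]⟩⟩,⟨false,0,⟨2,[(6,
  0),(16,2),(2,0),(7,0)]⟩,⟨0,[(24,0),(15,0)]⟩⟩,⟨false,0,⟨0,[(39,0)]⟩,⟨0,[(3,0),(4,0)]⟩⟩,⟨true,(-1),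
  ⟨0,[(1,0),(7,0),(7,0),(5,0)]⟩,⟨0,[(0,0),(37,0)]⟩⟩,⟨true,0,⟨0,[(43,0)]⟩,⟨0,[]⟩⟩,⟨false,0,⟨0,[(4,0),
  (38,0)]⟩,⟨0,[(0,0)]⟩⟩,[]⟩)))) (.K ⟨0,[0,0,0,1],0,(-1),(⟨0,[(21,0)]⟩,⟨0,[(20,0)]⟩),.k,(.x 0 ⟨5,[(3,
  3),(5,2),(5,2),(2,1),(0,1),(3,2),(3,0)]⟩ ⟨0,[(33,0),(3,0)]⟩),(.x 0 ⟨0,[(33,0)]⟩ ⟨7,[(9,3),(5,3),
  (2,2),(0,2),(11,1)]⟩),.k,.k,[⟨0,[(21,0)]⟩,⟨0,[(20,0)]⟩,⟨1,[(18,0),(2,1),(15,0),(2,1)]⟩,⟨0,[(0,0),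
  (2,0),(4,0),(5,0),(5,0)]⟩]⟩))))))))))

theorem ok29 : chk (cU (-1) true 10) t29 l19 = true := by decide +kernel

noncomputable def t36 : Tre :=
  (.K ⟨0,[1,-1,-1],0,0,(⟨0,[(2,0)]⟩,⟨0,[(17,0),(2,0)]⟩),.k,(.r (-1) ⟨0,[(15,0),(7,1),(0,0)]⟩ ⟨1,[(0,
  3),(0,0),(9,0),(1,2),(7,0)]⟩),.k,.k,.k,[⟨1,[(4,0),(2,0),(0,0)]⟩,⟨0,[(0,0),(22,0)]⟩,⟨0,[(0,0),(0,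
  0),(2,0)]⟩,⟨0,[(9,0),(13,0)]⟩]⟩)

theorem ok36 : chk (cU (-1) true 10) t36 r15 = true := by decide +kernel

noncomputable def t40 : Tre :=
  (.K ⟨2,[0,1,1],0,0,(⟨0,[(21,0),(2,0)]⟩,⟨0,[(6,0)]⟩),.k,.k,(.r 0 ⟨7,[(3,3),(13,2),(0,2),(6,5),(0,
  11)]⟩ ⟨0,[(19,0),(7,1),(0,0)]⟩),.k,(.x 0 ⟨0,[(0,0)]⟩ ⟨3,[(6,3),(2,0),(0,0),(3,7),(5,3),(7,1)]⟩),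
  [⟨1,[(17,0),(0,0)]⟩,⟨0,[(4,0)]⟩,⟨1,[(17,0),(0,2)]⟩,⟨0,[(4,0),(9,0)]⟩,⟨0,[(16,0),(10,0)]⟩,⟨0,[(3,
  0),(0,0),(8,0)]⟩]⟩)

theorem ok40 : chk (cU (-1) true 10) t40 l24 = true := by decide +kernel

noncomputable def t64 : Tre :=
  (.Q [0,1,0,1,0,0,1,1,0,1,-1] (.p false [0,0,1] [1] (⟨0,[(21,0)]⟩,⟨0,[(20,0)]⟩) .k 1 (⟨0,[]⟩,⟨0,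
  []⟩) .k .k) (.K ⟨1,[1,-1,-1],0,0,(⟨0,[(7,0)]⟩,⟨0,[(22,0),(2,0)]⟩),.k,(.r (-1) ⟨0,[(20,0),(7,1),(0,
  0)]⟩ ⟨5,[(0,5),(1,4),(0,0),(1,6),(12,1),(7,2)]⟩),.k,.k,.k,[⟨1,[(9,0),(2,0),(0,0)]⟩,⟨0,[(5,0),(12,
  0)]⟩,⟨0,[(0,0)]⟩,⟨0,[(1,0)]⟩]⟩) (.I [0,0,0,-1,0,0,0,0,1] (.Q [0,0,-1,0,1,0,1,1,-1,0,-1,1] (.p
  false [0,0,1] [0,0,0,1] (⟨0,[(23,0)]⟩,⟨0,[(22,0)]⟩) .k 2 (⟨0,[(14,0)]⟩,⟨0,[(13,0)]⟩) .k (.r (-1)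
  ⟨1,[(6,0),(4,0),(1,0),(0,0),(2,1),(9,0),(2,0)]⟩ ⟨2,[(0,2),(2,1),(3,1),(1,0),(8,0)]⟩)) (.Q [0,0,0,
  0,0,-1,0,0,0,1,0,-1] (.ed true [0,1,0,1] .k) (.I [0,0,-1,-1,1,0,0,1,-1] (.R ⟨1,false,false,false,
  [1,0,0,-1],[1,0,-1],[0,0,0,-1,0,0,0,0,-1],(⟨0,[(16,0)]⟩,⟨0,[(17,0)]⟩),(⟨0,[(25,0)]⟩,⟨0,[(26,0)]⟩),
  ⟨0,[(1,0)]⟩,.k,.k,(.x (-1) ⟨3,[(14,0),(0,0),(11,1),(0,3)]⟩ ⟨0,[(29,0)]⟩),.k,(.r (-1) ⟨0,[(0,0)]⟩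
  ⟨1,[(3,1),(2,2),(0,0),(1,0),(11,1),(8,0)]⟩),.k,⟨false,1,⟨0,[(0,0)]⟩,⟨0,[(3,0),(2,0),(3,0),(1,
  0)]⟩⟩,⟨true,0,⟨0,[(16,0),(2,0)]⟩,⟨2,[(4,0),(1,0),(6,0),(3,2),(2,0)]⟩⟩,⟨true,0,⟨0,[(32,0)]⟩,⟨0,
  [(31,0)]⟩⟩,⟨false,0,⟨0,[(3,0),(2,0),(2,0),(0,0),(5,0)]⟩,⟨0,[(2,0)]⟩⟩,⟨false,1,⟨3,[(14,0),(0,0),
  (18,1)]⟩,⟨0,[]⟩⟩,⟨false,0,⟨1,[(3,1),(0,0),(1,2),(2,0),(0,0),(1,1),(3,1),(13,0)]⟩,⟨0,[(2,0),(29,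
  0)]⟩⟩,[.o ⟨false,0,⟨2,[(4,1),(1,0),(5,0),(5,0)]⟩,⟨3,[(14,0),(0,0),(4,3),(13,1)]⟩⟩,.o ⟨false,1,⟨0,
  [(18,0),(15,0)]⟩,⟨0,[(20,0)]⟩⟩,.o ⟨false,1,⟨1,[(17,1),(9,0),(5,0)]⟩,⟨2,[(4,0),(1,0),(9,2),(2,1),
  (0,0),(1,0)]⟩⟩,.a ⟨true,0,⟨0,[(17,0)]⟩,⟨0,[(16,0)]⟩⟩ ⟨false,1,⟨0,[(0,0),(9,0)]⟩,⟨0,[(3,0),(2,0),
  (0,0),(1,0)]⟩⟩ ⟨true,0,⟨2,[(4,1),(1,0),(5,0),(3,2),(1,0)]⟩,⟨0,[(17,0),(2,0)]⟩⟩]⟩) (.R ⟨1,false,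
  false,false,[1,0,0,-1],[1,0,-1],[1,1,0,0,0,0,0,0,-1],(⟨0,[(16,0)]⟩,⟨0,[(17,0)]⟩),(⟨0,[(25,0)]⟩,⟨0,
  [(26,0)]⟩),⟨0,[(1,0)]⟩,.k,.k,(.x (-1) ⟨3,[(14,0),(0,0),(11,1),(0,3)]⟩ ⟨0,[(29,0)]⟩),.k,(.x 0 ⟨0,
  [(4,0),(1,0),(13,0),(5,0),(1,0)]⟩ ⟨7,[(8,3),(5,2),(0,2),(13,11),(3,1)]⟩),.k,⟨false,1,⟨0,[(2,0),(1,
  0),(7,0),(3,0),(3,0)]⟩,⟨3,[(0,1),(2,1),(6,1),(22,0),(0,0)]⟩⟩,⟨true,0,⟨0,[(16,0),(2,0)]⟩,⟨2,[(4,0),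
  (1,0),(6,0),(3,2),(2,0)]⟩⟩,⟨false,0,⟨0,[]⟩,⟨3,[(14,0),(0,0),(18,1)]⟩⟩,⟨false,0,⟨3,[(0,1),(3,1),
  (10,0),(0,3),(2,1),(14,0)]⟩,⟨0,[(2,0)]⟩⟩,⟨true,0,⟨0,[(31,0)]⟩,⟨0,[(32,0)]⟩⟩,⟨false,0,⟨3,[(0,3),(8,
  1),(6,3),(10,0),(5,0),(0,1)]⟩,⟨0,[(2,0),(29,0)]⟩⟩,[.o ⟨false,0,⟨2,[(4,1),(1,0),(5,0),(5,0)]⟩,⟨3,
  [(14,0),(0,0),(4,3),(13,1)]⟩⟩,.o ⟨false,1,⟨0,[(18,0),(15,0)]⟩,⟨0,[(20,0)]⟩⟩,.o ⟨false,1,⟨1,[(17,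
  1),(9,0),(5,0)]⟩,⟨2,[(4,0),(1,0),(9,2),(2,1),(0,0),(1,0)]⟩⟩,.a ⟨true,0,⟨0,[(17,0)]⟩,⟨0,[(16,0)]⟩⟩
  ⟨false,1,⟨1,[(14,0),(18,0)]⟩,⟨8,[(0,1),(2,2),(8,0),(2,1),(4,1),(2,0),(6,5)]⟩⟩ ⟨true,0,⟨2,[(4,1),
  (1,0),(5,0),(3,2),(1,0)]⟩,⟨0,[(17,0),(2,0)]⟩⟩]⟩)) (.I [0,0,-2,-1,1,0,0,0,-1] (.R ⟨0,false,false,
  true,[1,0,0,-1],[0,1],[0,1,0,0,0,0,0,0,-1],(⟨0,[(16,0)]⟩,⟨0,[(17,0)]⟩),(⟨0,[(29,0)]⟩,⟨0,[(28,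
  0)]⟩),⟨0,[(1,0)]⟩,.k,.k,(.x (-1) ⟨3,[(14,0),(0,0),(11,1),(0,3)]⟩ ⟨0,[(29,0)]⟩),(.x (-1) ⟨3,[(14,
  0),(0,0),(11,1),(0,3)]⟩ ⟨0,[(29,0)]⟩),.k,.k,⟨false,1,⟨0,[(0,0)]⟩,⟨0,[(3,0),(2,0),(0,0),(1,0)]⟩⟩,
  ⟨true,0,⟨0,[(16,0)]⟩,⟨2,[(4,0),(1,0),(10,2),(1,1),(0,0),(1,0)]⟩⟩,⟨true,0,⟨0,[(36,0)]⟩,⟨0,[]⟩⟩,
  ⟨false,0,⟨0,[(3,0),(2,0),(0,0),(1,0),(6,0)]⟩,⟨0,[(2,0),(1,0)]⟩⟩,⟨false,0,⟨0,[]⟩,⟨0,[]⟩⟩,⟨false,0,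
  ⟨0,[]⟩,⟨0,[]⟩⟩,[.o ⟨false,0,⟨0,[(31,0)]⟩,⟨1,[(27,0),(4,1),(1,0)]⟩⟩,.o ⟨false,1,⟨3,[(14,0),(0,0),
  (15,3),(2,1)]⟩,⟨0,[(4,0),(15,0)]⟩⟩,.o ⟨false,1,⟨1,[(17,1),(9,0),(5,0)]⟩,⟨2,[(4,0),(1,0),(9,2),(2,
  1),(0,0),(1,0)]⟩⟩,.a ⟨true,0,⟨0,[(17,0)]⟩,⟨0,[(16,0)]⟩⟩ ⟨false,1,⟨1,[(14,0),(18,0)]⟩,⟨1,[(3,1),(2,
  0),(0,0),(1,0),(20,0)]⟩⟩ ⟨true,0,⟨0,[(16,0),(14,0)]⟩,⟨0,[(4,0),(12,0),(2,0)]⟩⟩]⟩) (.R ⟨0,false,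
  false,false,[1,0,0,-1],[1,0,-1],[0,1,0,0,0,0,0,0,-1],(⟨0,[(16,0)]⟩,⟨0,[(17,0)]⟩),(⟨0,[(25,0)]⟩,⟨0,
  [(26,0)]⟩),⟨0,[(1,0)]⟩,.k,.k,(.x (-1) ⟨3,[(14,0),(0,0),(11,1),(0,3)]⟩ ⟨0,[(29,0)]⟩),.k,.k,.k,
  ⟨false,1,⟨0,[(2,0),(1,0),(7,0),(3,0),(3,0)]⟩,⟨1,[(0,0),(2,0),(6,1),(22,0)]⟩⟩,⟨true,0,⟨0,[(16,0),
  (2,0)]⟩,⟨2,[(4,0),(1,0),(6,0),(3,2),(2,0)]⟩⟩,⟨true,0,⟨0,[(36,0)]⟩,⟨0,[]⟩⟩,⟨false,0,⟨7,[(0,3),(3,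
  5),(5,1),(1,1),(2,1),(0,7),(10,0),(6,0)]⟩,⟨0,[(2,0)]⟩⟩,⟨false,0,⟨0,[]⟩,⟨0,[]⟩⟩,⟨false,0,⟨0,[]⟩,⟨0,
  []⟩⟩,[.o ⟨false,0,⟨2,[(4,1),(1,0),(5,0),(5,0)]⟩,⟨3,[(14,0),(0,0),(4,3),(13,1)]⟩⟩,.o ⟨false,1,⟨0,
  [(18,0),(15,0)]⟩,⟨0,[(20,0)]⟩⟩,.o ⟨false,1,⟨1,[(17,1),(9,0),(5,0)]⟩,⟨2,[(4,0),(1,0),(9,2),(2,1),
  (0,0),(1,0)]⟩⟩,.a ⟨true,0,⟨0,[(17,0)]⟩,⟨0,[(16,0)]⟩⟩ ⟨false,1,⟨1,[(14,0),(18,0)]⟩,⟨3,[(0,0),(2,0),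
  (11,0),(14,1)]⟩⟩ ⟨true,0,⟨2,[(4,1),(1,0),(5,0),(3,2),(1,0)]⟩,⟨0,[(17,0),(2,0)]⟩⟩]⟩))) (.I [0,0,-1,
  -1,0,0,0,0,1] (.K ⟨0,[0,0,0,1],0,(-1),(⟨0,[(16,0)]⟩,⟨0,[(15,0)]⟩),.k,(.r 0 ⟨0,[(0,0)]⟩ ⟨7,[(6,3),
  (1,3),(4,4),(0,0),(6,3),(8,3),(2,1)]⟩),(.x 0 ⟨0,[(28,0)]⟩ ⟨3,[(13,0),(0,0),(11,1),(0,3)]⟩),.k,.k,
  [⟨0,[(16,0)]⟩,⟨0,[(15,0)]⟩,⟨1,[(13,0),(2,1),(15,0),(2,1)]⟩,⟨0,[(1,0),(17,0)]⟩]⟩) (.K ⟨0,[0,0,0,1],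
  0,(-1),(⟨0,[(16,0)]⟩,⟨0,[(15,0)]⟩),.k,(.x 0 ⟨0,[(18,0),(2,0),(5,0)]⟩ ⟨0,[(28,0),(3,0)]⟩),(.x 0 ⟨0,
  [(28,0)]⟩ ⟨3,[(13,0),(0,0),(11,1),(0,3)]⟩),.k,.k,[⟨0,[(16,0)]⟩,⟨0,[(15,0)]⟩,⟨1,[(13,0),(2,1),(15,
  0),(2,1)]⟩,⟨0,[(1,0),(17,0)]⟩]⟩))) (.I [1,1,1,0,-1,0,0,0,-1] (.Q [0,1,1,0,0,0,0,0,1,0,0,-1] (.p
  false [0,0,0,1] [] (⟨0,[(15,0)]⟩,⟨0,[(14,0)]⟩) .k 0 (⟨0,[]⟩,⟨0,[]⟩) .k .k) (.K ⟨0,[0,0,0,1],0,0,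
  (⟨0,[(16,0)]⟩,⟨0,[(15,0)]⟩),.k,(.r (-1) ⟨1,[(14,0),(16,1),(0,0)]⟩ ⟨1,[(2,1),(18,0),(0,0)]⟩),(.x 0
  ⟨0,[(28,0)]⟩ ⟨3,[(13,0),(0,0),(11,1),(0,3)]⟩),.k,.k,[⟨0,[(16,0)]⟩,⟨0,[(15,0)]⟩,⟨0,[(1,0),(14,0),
  (15,0)]⟩,⟨0,[(0,0)]⟩]⟩) (.R ⟨2,false,false,true,[0,1],[0,0,0,1],[],(⟨0,[]⟩,⟨0,[]⟩),(⟨0,[(16,0)]⟩,
  ⟨0,[(15,0)]⟩),⟨0,[]⟩,.k,.k,.k,(.r 0 ⟨1,[(2,1),(18,0),(0,0)]⟩ ⟨1,[(14,0),(16,1),(0,0)]⟩),.k,.k,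
  ⟨true,0,⟨2,[(0,1),(0,0),(13,1),(10,0),(2,0)]⟩,⟨0,[(1,0),(12,0)]⟩⟩,⟨false,0,⟨2,[(3,0),(1,0),(9,2),
  (2,1),(0,0),(1,0)]⟩,⟨0,[(16,0),(15,0)]⟩⟩,⟨false,1,⟨1,[(31,1),(0,0),(0,0)]⟩,⟨2,[(5,0),(0,1),(1,1),
  (12,0)]⟩⟩,⟨true,0,⟨0,[(1,0),(1,0),(10,0),(0,0),(3,0)]⟩,⟨0,[(0,0),(29,0)]⟩⟩,⟨false,1,⟨1,[(32,0),(0,
  0)]⟩,⟨1,[(21,0),(0,0)]⟩⟩,⟨false,1,⟨7,[(13,0),(0,4),(0,7),(2,3),(2,3),(4,1)]⟩,⟨0,[(0,0)]⟩⟩,[.a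
  ⟨true,0,⟨0,[(1,0),(12,0),(0,0)]⟩,⟨0,[(0,0)]⟩⟩ ⟨false,1,⟨3,[(13,0),(0,0),(17,1)]⟩,⟨0,[]⟩⟩ ⟨true,0,
  ⟨2,[(1,2),(1,0),(1,0),(8,2),(0,2),(2,1),(0,0),(1,0)]⟩,⟨0,[(0,0)]⟩⟩,.o ⟨false,1,⟨7,[(13,0),(0,4),
  (0,7),(2,3),(2,3),(4,1)]⟩,⟨2,[(0,2),(2,1),(1,0),(5,0),(5,0),(1,2)]⟩⟩,.o ⟨false,1,⟨3,[(13,0),(0,0),
  (17,1)]⟩,⟨2,[(3,0),(1,0),(12,1),(0,0),(1,0)]⟩⟩,.e ⟨false,1,⟨1,[(32,0),(0,0)]⟩,⟨1,[(21,0),(0,0)]⟩⟩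
  ⟨false,1,⟨7,[(13,0),(0,4),(0,7),(2,3),(2,3),(4,1)]⟩,⟨0,[(0,0)]⟩⟩]⟩)) (.Q [0,0,0,0,0,-1,0,0,0,1,0,
  -1] (.ed true [0,1,0,1] .k) (.I [0,0,0,0,0,0,0,-1,1] (.Q [0,-1,1,1,0,0,0,0,1,1,0,-1] (.p false [0,
  0,0,1] [1] (⟨0,[(17,0)]⟩,⟨0,[(16,0)]⟩) .k 1 (⟨0,[]⟩,⟨0,[]⟩) .k .k) (.R ⟨1,false,false,true,[1,0,0,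
  -1],[0,1],[1,1,0,0,0,0,0,0,-1],(⟨0,[(17,0)]⟩,⟨0,[(18,0)]⟩),(⟨0,[(30,0)]⟩,⟨0,[(29,0)]⟩),⟨0,[(2,
  0)]⟩,.k,.k,(.x (-1) ⟨3,[(15,0),(0,0),(11,1),(0,3)]⟩ ⟨0,[(30,0)]⟩),(.x (-1) ⟨3,[(15,0),(0,0),(11,
  1),(0,3)]⟩ ⟨0,[(30,0)]⟩),(.r (-1) ⟨0,[(4,0),(28,2),(0,0)]⟩ ⟨6,[(0,5),(0,0),(5,2),(10,5),(1,5),(0,
  0),(1,1),(8,4)]⟩),.k,⟨false,1,⟨0,[(4,0),(28,1),(0,0)]⟩,⟨1,[(0,0),(0,0),(5,0),(2,0),(7,0),(2,0)]⟩⟩,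
  ⟨true,0,⟨0,[(17,0)]⟩,⟨2,[(5,0),(1,0),(10,2),(1,1),(0,0),(1,0)]⟩⟩,⟨false,0,⟨0,[]⟩,⟨3,[(15,0),(0,0),
  (18,1)]⟩⟩,⟨false,0,⟨0,[(0,0),(36,0)]⟩,⟨3,[(4,1),(0,3),(9,0),(2,3),(2,3),(9,1),(1,1),(0,2)]⟩⟩,
  ⟨true,0,⟨0,[(32,0)]⟩,⟨0,[(33,0)]⟩⟩,⟨false,0,⟨0,[(0,0),(31,0)]⟩,⟨3,[(4,1),(0,3),(9,0),(2,3),(2,3),
  (9,1),(1,5),(0,2)]⟩⟩,[.o ⟨false,0,⟨0,[(32,0)]⟩,⟨1,[(28,0),(4,1),(1,0)]⟩⟩,.o ⟨false,1,⟨3,[(15,0),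
  (0,0),(15,3),(2,1)]⟩,⟨0,[(5,0),(15,0)]⟩⟩,.o ⟨false,1,⟨1,[(18,1),(9,0),(5,0)]⟩,⟨2,[(5,0),(1,0),(9,
  2),(2,1),(0,0),(1,0)]⟩⟩,.a ⟨true,0,⟨0,[(18,0)]⟩,⟨0,[(17,0)]⟩⟩ ⟨false,1,⟨1,[(15,0),(18,0)]⟩,⟨0,[(0,
  0),(4,0),(12,0),(2,0)]⟩⟩ ⟨true,0,⟨0,[(17,0),(14,0)]⟩,⟨0,[(5,0),(12,0),(2,0)]⟩⟩]⟩) (.R ⟨1,false,
  false,true,[1,0,0,-1],[1,-1,-1],[0,1,0,-1,0,0,0,0,-1],(⟨0,[(17,0)]⟩,⟨0,[(18,0)]⟩),(⟨0,[(12,0)]⟩,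
  ⟨0,[(27,0),(2,0)]⟩),⟨0,[(2,0)]⟩,.k,.k,(.x (-1) ⟨3,[(15,0),(0,0),(11,1),(0,3)]⟩ ⟨0,[(30,0)]⟩),(.r
  0 ⟨1,[(4,1),(5,0),(6,0),(0,0),(2,1),(9,0)]⟩ ⟨1,[(16,0),(8,1),(7,1),(0,0)]⟩),.k,.k,⟨true,0,⟨3,[(0,
  1),(3,1),(5,0),(6,2),(0,0),(2,3),(2,1),(6,2)]⟩,⟨0,[(1,0)]⟩⟩,⟨false,0,⟨0,[(17,0),(2,0)]⟩,⟨2,[(0,0),
  (2,0),(3,0),(6,0),(3,1),(15,1)]⟩⟩,⟨false,0,⟨0,[(33,0)]⟩,⟨0,[(32,0),(2,0)]⟩⟩,⟨false,0,⟨0,[(1,0),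
  (15,0),(2,0),(12,0)]⟩,⟨0,[(4,0),(13,0),(2,0),(9,0),(2,0)]⟩⟩,⟨true,0,⟨0,[(37,0)]⟩,⟨0,[]⟩⟩,⟨false,0,
  ⟨0,[(1,0),(15,0),(2,0)]⟩,⟨9,[(0,3),(3,3),(10,0),(1,3),(0,9),(2,9),(9,11),(2,8)]⟩⟩,[.o ⟨false,0,⟨0,
  [(19,0),(13,0)]⟩,⟨2,[(3,0),(0,0),(2,0),(5,0),(7,2),(9,0),(3,1)]⟩⟩,.o ⟨false,0,⟨1,[(5,0),(13,0),
  (13,0)]⟩,⟨0,[(21,0),(10,0),(2,0)]⟩⟩,.o ⟨false,1,⟨1,[(18,1),(9,0),(5,0)]⟩,⟨2,[(5,0),(1,0),(9,2),(2,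
  1),(0,0),(1,0)]⟩⟩,.a ⟨true,0,⟨0,[(18,0)]⟩,⟨0,[(17,0)]⟩⟩ ⟨true,0,⟨0,[(0,0),(16,0)]⟩,⟨0,[(1,0),(11,
  0),(7,0),(9,0)]⟩⟩ ⟨false,0,⟨1,[(5,0),(11,1),(1,0),(13,0)]⟩,⟨2,[(3,0),(0,0),(2,0),(5,0),(4,2),(2,
  2),(9,0),(3,1)]⟩⟩]⟩)) (.Q [0,-1,-1,0,0,0,0,0,-1,0,0,1] (.p true [0,0,0,1] [] (⟨0,[(17,0)]⟩,⟨0,
  [(16,0)]⟩) .k 0 (⟨0,[]⟩,⟨0,[]⟩) .k .k) (.R ⟨1,false,false,false,[1,0,0,-1],[1,0,-1],[1,1,0,0,0,0,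
  0,0,-1],(⟨0,[(17,0)]⟩,⟨0,[(18,0)]⟩),(⟨0,[(26,0)]⟩,⟨0,[(27,0)]⟩),⟨0,[(2,0)]⟩,.k,.k,(.x (-1) ⟨3,
  [(15,0),(0,0),(11,1),(0,3)]⟩ ⟨0,[(30,0)]⟩),.k,(.x 0 ⟨0,[(5,0),(1,0),(13,0),(5,0),(1,0)]⟩ ⟨7,[(9,
  3),(5,2),(0,2),(13,11),(3,1)]⟩),.k,⟨false,0,⟨0,[(0,0),(4,0),(7,0),(3,0),(3,1)]⟩,⟨1,[(16,0),(8,1),
  (9,0)]⟩⟩,⟨true,0,⟨0,[(17,0),(2,0)]⟩,⟨2,[(5,0),(1,0),(6,0),(3,2),(2,0)]⟩⟩,⟨false,0,⟨0,[]⟩,⟨3,[(15,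
  0),(0,0),(18,1)]⟩⟩,⟨false,1,⟨1,[(16,0),(0,1),(2,1),(4,1),(9,0)]⟩,⟨0,[(0,0),(20,0)]⟩⟩,⟨true,0,⟨0,
  [(32,0)]⟩,⟨0,[(33,0)]⟩⟩,⟨false,1,⟨1,[(7,1),(2,1),(5,0),(0,1),(7,1),(9,0)]⟩,⟨0,[(0,0),(20,0),(11,
  0)]⟩⟩,[.o ⟨false,0,⟨2,[(5,1),(1,0),(5,0),(5,0)]⟩,⟨3,[(15,0),(0,0),(4,3),(13,1)]⟩⟩,.o ⟨false,1,⟨0,
  [(19,0),(15,0)]⟩,⟨0,[(21,0)]⟩⟩,.o ⟨false,1,⟨1,[(18,1),(9,0),(5,0)]⟩,⟨2,[(5,0),(1,0),(9,2),(2,1),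
  (0,0),(1,0)]⟩⟩,.a ⟨true,0,⟨0,[(18,0)]⟩,⟨0,[(17,0)]⟩⟩ ⟨false,0,⟨2,[(0,2),(4,1),(1,0),(5,0),(3,2),
  (1,0),(1,2)]⟩,⟨1,[(16,0),(6,0),(0,0),(10,0)]⟩⟩ ⟨true,0,⟨2,[(5,1),(1,0),(5,0),(3,2),(1,0)]⟩,⟨0,
  [(18,0),(2,0)]⟩⟩]⟩) (.Q [0,1,-1,0,0,0,0,0,-1,0,0,1] (.p true [0,0,0,1] [] (⟨0,[(18,0)]⟩,⟨0,[(17,
  0)]⟩) .k 0 (⟨0,[]⟩,⟨0,[]⟩) .k .k) (.K ⟨0,[0,0,0,1],0,0,(⟨0,[(19,0)]⟩,⟨0,[(18,0)]⟩),.k,(.r (-1) ⟨1,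
  [(17,0),(16,1),(0,0)]⟩ ⟨1,[(5,1),(18,0),(0,0)]⟩),(.x 0 ⟨0,[(31,0)]⟩ ⟨3,[(16,0),(0,0),(11,1),(0,
  3)]⟩),.k,.k,[⟨0,[(19,0)]⟩,⟨0,[(18,0)]⟩,⟨0,[(0,0)]⟩,⟨0,[(1,0)]⟩]⟩) (.R ⟨1,false,false,true,[1,0,0,
  -1],[0,1],[1,0,0,0,0,0,0,0,-1],(⟨0,[(18,0)]⟩,⟨0,[(19,0)]⟩),(⟨0,[(31,0)]⟩,⟨0,[(30,0)]⟩),⟨0,[(3,
  0)]⟩,.k,.k,(.x (-1) ⟨3,[(16,0),(0,0),(11,1),(0,3)]⟩ ⟨0,[(31,0)]⟩),(.x (-1) ⟨3,[(16,0),(0,0),(11,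
  1),(0,3)]⟩ ⟨0,[(31,0)]⟩),(.r (-1) ⟨1,[(2,1),(3,0),(8,0),(7,0),(10,2),(0,1)]⟩ ⟨1,[(0,0),(0,0),(6,
  1),(0,1),(1,1),(7,1)]⟩),.k,⟨false,1,⟨1,[(2,1),(3,0),(0,0),(7,0),(19,1)]⟩,⟨3,[(0,0),(0,2),(6,1),(5,
  1),(4,3)]⟩⟩,⟨true,0,⟨0,[(18,0)]⟩,⟨2,[(6,0),(1,0),(10,2),(1,1),(0,0),(1,0)]⟩⟩,⟨true,0,⟨0,[]⟩,⟨0,
  [(38,0)]⟩⟩,⟨false,0,⟨3,[(0,2),(0,0),(7,1),(4,1),(3,1),(0,1)]⟩,⟨9,[(2,7),(3,7),(8,3),(0,0),(2,9),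
  (9,2),(4,1),(0,4),(0,0)]⟩⟩,⟨false,1,⟨0,[(33,0),(2,0)]⟩,⟨0,[(34,0)]⟩⟩,⟨false,0,⟨0,[(0,0),(8,0),(4,
  0)]⟩,⟨9,[(2,7),(3,7),(8,3),(0,0),(2,9),(9,2),(4,11),(0,4),(0,0)]⟩⟩,[.o ⟨false,0,⟨0,[(33,0)]⟩,⟨1,
  [(29,0),(4,1),(1,0)]⟩⟩,.o ⟨false,1,⟨3,[(16,0),(0,0),(15,3),(2,1)]⟩,⟨0,[(6,0),(15,0)]⟩⟩,.o ⟨false,
  1,⟨1,[(19,1),(9,0),(5,0)]⟩,⟨5,[(0,0),(0,2),(0,1),(2,1),(0,1),(11,1),(5,1)]⟩⟩,.a ⟨true,0,⟨0,[(19,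
  0)]⟩,⟨0,[(18,0)]⟩⟩ ⟨false,1,⟨3,[(2,1),(9,1),(3,0),(18,1),(0,0)]⟩,⟨1,[(0,0),(0,0),(17,1)]⟩⟩ ⟨true,
  0,⟨0,[(18,0),(14,0)]⟩,⟨0,[(6,0),(12,0),(2,0)]⟩⟩]⟩)))) (.Q [0,0,1,2,0,0,0,0,1,1,0,-1] (.p false [0,
  0,0,1] [1] (⟨0,[(16,0)]⟩,⟨0,[(15,0)]⟩) .k 1 (⟨0,[]⟩,⟨0,[]⟩) .k .k) (.I [0,1,0,0,0,0,0,0,1] (.R ⟨0,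
  false,false,true,[1,0,0,-1],[0,1],[0,1],(⟨0,[(17,0)]⟩,⟨0,[(18,0)]⟩),(⟨0,[(30,0)]⟩,⟨0,[(29,0)]⟩),
  ⟨0,[(2,0)]⟩,.k,.k,(.x (-1) ⟨3,[(15,0),(0,0),(11,1),(0,3)]⟩ ⟨0,[(30,0)]⟩),(.x (-1) ⟨3,[(15,0),(0,
  0),(11,1),(0,3)]⟩ ⟨0,[(30,0)]⟩),.k,.k,⟨false,1,⟨0,[(33,0),(0,0)]⟩,⟨2,[(1,0),(2,0),(13,0),(1,0),(2,
  0)]⟩⟩,⟨true,0,⟨0,[(17,0)]⟩,⟨2,[(5,0),(1,0),(10,2),(1,1),(0,0),(1,0)]⟩⟩,⟨true,0,⟨0,[(0,0)]⟩,⟨0,[(4,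
  0),(28,0)]⟩⟩,⟨false,0,⟨7,[(0,3),(0,3),(15,3),(5,0),(0,0),(6,1)]⟩,⟨3,[(4,1),(0,3),(9,0),(2,3),(2,
  3),(9,1),(1,1),(0,2)]⟩⟩,⟨false,0,⟨0,[]⟩,⟨0,[]⟩⟩,⟨false,0,⟨0,[]⟩,⟨0,[]⟩⟩,[.o ⟨false,0,⟨0,[(32,0)]⟩,
  ⟨1,[(28,0),(4,1),(1,0)]⟩⟩,.o ⟨false,1,⟨3,[(15,0),(0,0),(15,3),(2,1)]⟩,⟨0,[(5,0),(15,0)]⟩⟩,.o
  ⟨false,1,⟨1,[(18,1),(9,0),(5,0)]⟩,⟨2,[(5,0),(1,0),(9,2),(2,1),(0,0),(1,0)]⟩⟩,.a ⟨true,0,⟨0,[(18,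
  0)]⟩,⟨0,[(17,0)]⟩⟩ ⟨false,1,⟨3,[(15,0),(0,0),(17,1)]⟩,⟨3,[(23,0),(0,0),(6,1)]⟩⟩ ⟨true,0,⟨0,[(17,
  0),(14,0)]⟩,⟨0,[(5,0),(12,0),(2,0)]⟩⟩]⟩) (.R ⟨0,false,false,true,[1,0,0,-1],[0,1],[1,0,0,0,0,0,0,
  0,-1],(⟨0,[(17,0)]⟩,⟨0,[(18,0)]⟩),(⟨0,[(30,0)]⟩,⟨0,[(29,0)]⟩),⟨0,[(2,0)]⟩,.k,.k,(.x (-1) ⟨3,[(15,
  0),(0,0),(11,1),(0,3)]⟩ ⟨0,[(30,0)]⟩),(.x (-1) ⟨3,[(15,0),(0,0),(11,1),(0,3)]⟩ ⟨0,[(30,0)]⟩),.k,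
  .k,⟨false,1,⟨0,[(0,0),(32,0),(0,0)]⟩,⟨1,[(1,1),(3,0),(12,1),(0,0),(1,1),(11,0)]⟩⟩,⟨true,0,⟨0,[(17,
  0)]⟩,⟨2,[(5,0),(1,0),(10,2),(1,1),(0,0),(1,0)]⟩⟩,⟨true,0,⟨0,[]⟩,⟨0,[(37,0)]⟩⟩,⟨false,0,⟨0,[(1,0),
  (31,0)]⟩,⟨1,[(0,1),(17,1),(9,0),(4,1),(0,0)]⟩⟩,⟨false,0,⟨0,[]⟩,⟨0,[]⟩⟩,⟨false,0,⟨0,[]⟩,⟨0,[]⟩⟩,
  [.o ⟨false,0,⟨0,[(32,0)]⟩,⟨1,[(28,0),(4,1),(1,0)]⟩⟩,.o ⟨false,1,⟨3,[(15,0),(0,0),(15,3),(2,1)]⟩,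
  ⟨0,[(5,0),(15,0)]⟩⟩,.o ⟨false,1,⟨1,[(18,1),(9,0),(5,0)]⟩,⟨2,[(5,0),(1,0),(9,2),(2,1),(0,0),(1,
  0)]⟩⟩,.a ⟨true,0,⟨0,[(18,0)]⟩,⟨0,[(17,0)]⟩⟩ ⟨false,1,⟨3,[(0,1),(14,0),(18,1),(0,0)]⟩,⟨0,[(1,0),(3,
  0),(12,0),(2,0),(11,0)]⟩⟩ ⟨true,0,⟨0,[(17,0),(14,0)]⟩,⟨0,[(5,0),(12,0),(2,0)]⟩⟩]⟩)) (.I [0,0,-1,0,
  0,0,0,0,-1] (.Q [0,0,-1,0,0,0,1,1,-1,0,-1,1] (.p false [0,0,1] [0,0,0,1] (⟨0,[(27,0)]⟩,⟨0,[(26,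
  0)]⟩) .k 2 (⟨0,[(18,0)]⟩,⟨0,[(17,0)]⟩) .k (.r 0 ⟨1,[(0,1),(9,0),(6,0),(0,0),(2,1),(9,0)]⟩ ⟨3,[(15,
  0),(0,2),(8,3)]⟩)) (.R ⟨0,false,false,false,[1,0,0,-1],[1,0,-1],[0,1,0,0,0,0,0,0,-1],(⟨0,[(18,
  0)]⟩,⟨0,[(19,0)]⟩),(⟨0,[(27,0)]⟩,⟨0,[(28,0)]⟩),⟨0,[(3,0)]⟩,.k,.k,(.x (-1) ⟨3,[(16,0),(0,0),(11,1),
  (0,3)]⟩ ⟨0,[(31,0)]⟩),.k,.k,.k,⟨false,0,⟨0,[(0,0),(5,0),(7,0),(3,0),(3,0)]⟩,⟨1,[(17,0),(8,1),(9,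
  0)]⟩⟩,⟨true,0,⟨0,[(18,0),(2,0)]⟩,⟨2,[(6,0),(1,0),(6,0),(3,2),(2,0)]⟩⟩,⟨true,0,⟨0,[(38,0)]⟩,⟨0,
  []⟩⟩,⟨false,1,⟨1,[(17,0),(0,1),(2,1),(4,1),(9,0)]⟩,⟨0,[(0,0)]⟩⟩,⟨false,0,⟨0,[]⟩,⟨0,[]⟩⟩,⟨false,0,
  ⟨0,[]⟩,⟨0,[]⟩⟩,[.o ⟨false,0,⟨2,[(6,1),(1,0),(5,0),(5,0)]⟩,⟨3,[(16,0),(0,0),(4,3),(13,1)]⟩⟩,.o
  ⟨false,1,⟨0,[(20,0),(15,0)]⟩,⟨0,[(22,0)]⟩⟩,.o ⟨false,1,⟨1,[(19,1),(9,0),(5,0)]⟩,⟨2,[(6,0),(1,0),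
  (9,2),(2,1),(0,0),(1,0)]⟩⟩,.a ⟨true,0,⟨0,[(19,0)]⟩,⟨0,[(18,0)]⟩⟩ ⟨false,0,⟨0,[(1,0)]⟩,⟨1,[(17,0),
  (6,0),(0,0),(10,0)]⟩⟩ ⟨true,0,⟨2,[(6,1),(1,0),(5,0),(3,2),(1,0)]⟩,⟨0,[(19,0),(2,0)]⟩⟩]⟩) (.K ⟨0,
  [0,0,0,1],0,0,(⟨0,[(19,0)]⟩,⟨0,[(18,0)]⟩),.k,(.r (-1) ⟨3,[(2,1),(14,2),(0,1),(16,0)]⟩ ⟨1,[(5,1),
  (18,0),(0,0)]⟩),(.x 0 ⟨0,[(31,0)]⟩ ⟨3,[(16,0),(0,0),(11,1),(0,3)]⟩),.k,.k,[⟨0,[(19,0)]⟩,⟨0,[(18,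
  0)]⟩,⟨0,[(1,0),(17,0),(18,0)]⟩,⟨0,[(0,0),(21,0)]⟩]⟩)) (.K ⟨0,[0,0,0,1],0,0,(⟨0,[(18,0)]⟩,⟨0,[(17,
  0)]⟩),.k,(.r (-1) ⟨3,[(1,1),(14,2),(0,1),(16,0)]⟩ ⟨1,[(4,1),(18,0),(0,0)]⟩),(.x 0 ⟨0,[(30,0)]⟩ ⟨3,
  [(15,0),(0,0),(11,1),(0,3)]⟩),.k,.k,[⟨0,[(18,0)]⟩,⟨0,[(17,0)]⟩,⟨0,[(1,0),(6,0),(4,0)]⟩,⟨2,[(0,2),
  (4,1),(1,0),(5,0),(3,2),(1,0),(1,2)]⟩]⟩)))))))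

theorem ok64 : chk (cU (-1) true 10) t64 l36 = true := by decide +kernel

noncomputable def t65 : Tre :=
  (.Q [0,0,0,1,0,0,0,0,0,1] (.pp false [-1,1]) (.R ⟨0,false,false,true,[1,-1,-1],[1,-1],[1,0,1],(⟨0,
  [(8,0)]⟩,⟨0,[(23,0),(2,0)]⟩),(⟨0,[(25,0)]⟩,⟨0,[(26,0)]⟩),⟨0,[(1,0)]⟩,.k,.k,(.r (-1) ⟨0,[(21,0),(7,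
  1),(0,0)]⟩ ⟨3,[(2,3),(1,3),(1,3),(12,0),(0,0),(6,1)]⟩),.k,.k,.k,⟨false,0,⟨1,[(3,0),(0,0),(1,0),
  (20,0)]⟩,⟨0,[(29,0),(0,0),(2,0)]⟩⟩,⟨true,0,⟨0,[(3,0),(25,0)]⟩,⟨0,[(20,0)]⟩⟩,⟨false,0,⟨0,[(2,0),
  (17,0),(6,0)]⟩,⟨0,[(21,0),(7,0),(0,0)]⟩⟩,⟨true,0,⟨0,[(17,0)]⟩,⟨0,[(7,0),(1,0),(19,0)]⟩⟩,⟨false,0,
  ⟨0,[]⟩,⟨0,[]⟩⟩,⟨false,0,⟨0,[]⟩,⟨0,[]⟩⟩,[.e ⟨false,0,⟨0,[]⟩,⟨3,[(11,0),(0,0),(17,1)]⟩⟩ ⟨false,1,⟨1,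
  [(10,0),(4,0),(1,0),(11,1),(0,1)]⟩,⟨0,[(9,0),(17,0)]⟩⟩,.a ⟨true,0,⟨0,[(29,0)]⟩,⟨0,[(0,0)]⟩⟩ ⟨true,
  0,⟨3,[(19,0),(0,0),(6,1)]⟩,⟨0,[(33,0)]⟩⟩ ⟨false,1,⟨0,[(3,0),(25,1),(0,0)]⟩,⟨0,[(4,0),(1,0)]⟩⟩,.o
  ⟨false,0,⟨0,[(16,0)]⟩,⟨7,[(10,3),(0,0),(0,0),(11,1),(5,3)]⟩⟩,.o ⟨false,0,⟨0,[(6,0),(12,0)]⟩,⟨0,
  [(3,0),(25,0),(0,0)]⟩⟩]⟩) (.I [0,0,1,1,-1,0,0,-1,-1] (.I [1,1,1,1,-1,0,0,0,-1] (.K ⟨0,[0,0,0,1],0,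
  0,(⟨0,[(16,0)]⟩,⟨0,[(15,0)]⟩),.k,(.r (-1) ⟨1,[(14,0),(16,1),(0,0)]⟩ ⟨4,[(0,2),(5,0),(1,0),(4,0),
  (7,0),(8,0),(2,1)]⟩),(.x 0 ⟨0,[(28,0)]⟩ ⟨3,[(13,0),(0,0),(11,1),(0,3)]⟩),.k,.k,[⟨0,[(16,0)]⟩,⟨0,
  [(15,0)]⟩,⟨0,[(0,0),(15,0),(14,0),(0,0)]⟩,⟨0,[(0,0),(1,0),(11,0),(0,0)]⟩]⟩) (.I [1,-1,0,1,0,0,0,
  -1] (.I [0,1,-1,-1,0,0,0,-1] (.Q [0,1,1,0,0,0,0,0,1,0,0,-1] (.p false [0,0,0,1] [] (⟨0,[(18,0)]⟩,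
  ⟨0,[(17,0)]⟩) .k 0 (⟨0,[]⟩,⟨0,[]⟩) .k .k) (.Q [0,1,-1,0,0,0,0,0,-1,0,0,1] (.p true [0,0,0,1] []
  (⟨0,[(19,0)]⟩,⟨0,[(18,0)]⟩) .k 0 (⟨0,[]⟩,⟨0,[]⟩) .k .k) (.K ⟨0,[0,0,0,1],0,0,(⟨0,[(20,0)]⟩,⟨0,
  [(19,0)]⟩),.k,(.r (-1) ⟨0,[(4,0),(34,0)]⟩ ⟨11,[(5,3),(2,3),(1,3),(1,3),(4,3),(7,0),(0,0),(6,1)]⟩),
  (.x 0 ⟨0,[(32,0)]⟩ ⟨3,[(17,0),(0,0),(11,1),(0,3)]⟩),.k,.k,[⟨0,[(20,0)]⟩,⟨0,[(19,0)]⟩,⟨0,[(0,0)]⟩,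
  ⟨0,[(1,0)]⟩]⟩) (.Q [0,0,0,0,0,1,0,0,0,-1,0,1] (.ed false [0,1,0,1] .k) (.R ⟨0,false,false,true,[1,
  0,0,-1],[0,1],[0,1,0,0,0,0,0,0,-1],(⟨0,[(20,0)]⟩,⟨0,[(21,0)]⟩),(⟨0,[(33,0)]⟩,⟨0,[(32,0)]⟩),⟨0,[(0,
  0)]⟩,.k,.k,(.x (-1) ⟨3,[(18,0),(0,0),(11,1),(0,3)]⟩ ⟨0,[(33,0)]⟩),(.x (-1) ⟨3,[(18,0),(0,0),(11,
  1),(0,3)]⟩ ⟨0,[(33,0)]⟩),.k,.k,⟨false,1,⟨1,[(6,1),(6,0),(6,0),(0,0),(2,1),(9,0),(1,3),(0,3)]⟩,⟨2,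
  [(1,1),(4,0),(2,0),(6,0),(2,0),(1,1)]⟩⟩,⟨true,0,⟨0,[(20,0)]⟩,⟨2,[(7,0),(2,0),(10,2),(1,1),(2,
  0)]⟩⟩,⟨true,0,⟨0,[(40,0)]⟩,⟨0,[]⟩⟩,⟨false,0,⟨3,[(1,2),(0,0),(8,1),(4,1),(3,1),(0,1)]⟩,⟨3,[(6,1),
  (0,2),(5,0),(4,0),(2,3),(2,1),(9,2),(1,2),(0,4)]⟩⟩,⟨false,0,⟨0,[]⟩,⟨0,[]⟩⟩,⟨false,0,⟨0,[]⟩,⟨0,
  []⟩⟩,[.o ⟨false,0,⟨0,[(35,0)]⟩,⟨1,[(31,0),(4,1),(1,0)]⟩⟩,.o ⟨false,1,⟨3,[(18,0),(0,0),(15,3),(2,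
  1)]⟩,⟨0,[(7,0)]⟩⟩,.o ⟨false,1,⟨1,[(21,1),(9,0),(5,0)]⟩,⟨4,[(1,1),(0,0),(3,0),(0,0),(10,0),(1,1),
  (2,0),(0,0)]⟩⟩,.a ⟨true,0,⟨0,[(21,0)]⟩,⟨0,[(20,0)]⟩⟩ ⟨false,1,⟨1,[(18,0),(18,0)]⟩,⟨0,[(1,0),(19,
  0)]⟩⟩ ⟨true,0,⟨0,[(20,0),(14,0)]⟩,⟨0,[(7,0),(13,0)]⟩⟩]⟩) (.R ⟨1,false,false,true,[1,0,0,-1],[0,1],
  [1,1,0,0,0,0,0,0,-1],(⟨0,[(20,0)]⟩,⟨0,[(21,0)]⟩),(⟨0,[(33,0)]⟩,⟨0,[(32,0)]⟩),⟨0,[(0,0)]⟩,.k,.k,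
  (.x (-1) ⟨3,[(18,0),(0,0),(11,1),(0,3)]⟩ ⟨0,[(33,0)]⟩),(.x (-1) ⟨3,[(18,0),(0,0),(11,1),(0,3)]⟩
  ⟨0,[(33,0)]⟩),(.r (-1) ⟨1,[(6,1),(6,0),(6,0),(0,0),(2,1),(9,0),(1,5),(0,3)]⟩ ⟨3,[(1,0),(4,2),(2,
  2),(1,1),(1,1),(5,2),(1,0),(5,0),(6,0)]⟩),.k,⟨false,1,⟨1,[(6,1),(6,0),(6,0),(0,0),(2,1),(9,0),(1,
  3),(0,3)]⟩,⟨2,[(1,1),(4,0),(2,0),(6,0),(2,0),(1,1)]⟩⟩,⟨true,0,⟨0,[(20,0)]⟩,⟨2,[(7,0),(2,0),(10,2),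
  (1,1),(2,0)]⟩⟩,⟨false,0,⟨0,[]⟩,⟨3,[(18,0),(0,0),(18,1)]⟩⟩,⟨false,0,⟨3,[(1,2),(0,0),(8,1),(4,1),(3,
  1),(0,1)]⟩,⟨3,[(6,1),(0,2),(5,0),(4,0),(2,3),(2,1),(9,2),(1,2),(0,4)]⟩⟩,⟨true,0,⟨0,[(35,0)]⟩,⟨0,
  [(36,0)]⟩⟩,⟨false,0,⟨0,[(1,0),(9,0),(4,0)]⟩,⟨3,[(6,1),(0,2),(5,0),(4,0),(2,3),(2,1),(9,2),(1,6),
  (0,4)]⟩⟩,[.o ⟨false,0,⟨0,[(35,0)]⟩,⟨1,[(31,0),(4,1),(1,0)]⟩⟩,.o ⟨false,1,⟨3,[(18,0),(0,0),(15,3),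
  (2,1)]⟩,⟨0,[(7,0)]⟩⟩,.o ⟨false,1,⟨1,[(21,1),(9,0),(5,0)]⟩,⟨4,[(1,1),(0,0),(3,0),(0,0),(10,0),(1,
  1),(2,0),(0,0)]⟩⟩,.a ⟨true,0,⟨0,[(21,0)]⟩,⟨0,[(20,0)]⟩⟩ ⟨false,1,⟨1,[(18,0),(18,0)]⟩,⟨0,[(1,0),
  (19,0)]⟩⟩ ⟨true,0,⟨0,[(20,0),(14,0)]⟩,⟨0,[(7,0),(13,0)]⟩⟩]⟩))) (.Q [0,0,0,0,0,1,0,0,0,-1,0,1]
  (.ed false [0,1,0,1] .k) (.R ⟨0,false,false,false,[1,0,0,-1],[1,0,-1],[1,0,1,0,0,0,0,-1],(⟨0,[(19,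
  0)]⟩,⟨0,[(20,0)]⟩),(⟨0,[(28,0)]⟩,⟨0,[(29,0)]⟩),⟨0,[(0,0)]⟩,.k,.k,(.x (-1) ⟨3,[(17,0),(0,0),(11,1),
  (0,3)]⟩ ⟨0,[(32,0)]⟩),.k,.k,.k,⟨false,0,⟨0,[]⟩,⟨3,[(17,0),(0,0),(17,1)]⟩⟩,⟨true,0,⟨0,[(19,0),(2,
  0)]⟩,⟨2,[(6,0),(2,0),(6,0),(3,2)]⟩⟩,⟨true,0,⟨0,[(5,0),(12,0),(16,0)]⟩,⟨0,[(1,0),(4,0),(8,0),(3,0),
  (3,0)]⟩⟩,⟨false,1,⟨1,[(18,0),(0,1),(2,1),(4,1),(9,0)]⟩,⟨0,[(1,0),(21,0)]⟩⟩,⟨false,0,⟨0,[]⟩,⟨0,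
  []⟩⟩,⟨false,0,⟨0,[]⟩,⟨0,[]⟩⟩,[.o ⟨false,0,⟨2,[(2,0),(0,1),(2,1),(5,0),(2,0)]⟩,⟨3,[(17,0),(0,0),(4,
  3),(13,1)]⟩⟩,.o ⟨false,1,⟨0,[(21,0),(15,0)]⟩,⟨0,[(23,0)]⟩⟩,.o ⟨false,1,⟨1,[(20,1),(9,0),(5,0)]⟩,
  ⟨2,[(6,0),(2,0),(9,2),(2,1),(2,0)]⟩⟩,.a ⟨true,0,⟨0,[(20,0)]⟩,⟨0,[(19,0)]⟩⟩ ⟨false,0,⟨0,[(13,0)]⟩,
  ⟨19,[(1,1),(2,7),(7,1),(2,7),(1,2),(1,1),(3,19),(2,7),(10,8)]⟩⟩ ⟨true,0,⟨2,[(2,0),(0,1),(2,1),(5,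
  0),(2,0),(3,2)]⟩,⟨0,[(20,0),(2,0)]⟩⟩]⟩) (.R ⟨1,false,false,false,[1,0,0,-1],[1,0,-1],[1,1,0,0,0,0,
  0,0,-1],(⟨0,[(19,0)]⟩,⟨0,[(20,0)]⟩),(⟨0,[(28,0)]⟩,⟨0,[(29,0)]⟩),⟨0,[(0,0)]⟩,.k,.k,(.x (-1) ⟨3,
  [(17,0),(0,0),(11,1),(0,3)]⟩ ⟨0,[(32,0)]⟩),.k,(.r (-1) ⟨7,[(1,4),(2,2),(1,0),(5,3),(4,2),(1,4),(3,
  7),(11,3),(0,1)]⟩ ⟨0,[(5,0),(12,0)]⟩),.k,⟨false,0,⟨0,[(1,0),(4,0),(8,0),(3,0),(3,0)]⟩,⟨1,[(18,0),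
  (8,1),(9,0)]⟩⟩,⟨true,0,⟨0,[(19,0),(2,0)]⟩,⟨2,[(6,0),(2,0),(6,0),(3,2)]⟩⟩,⟨false,0,⟨0,[]⟩,⟨3,[(17,
  0),(0,0),(18,1)]⟩⟩,⟨false,1,⟨1,[(18,0),(0,1),(2,1),(4,1),(9,0)]⟩,⟨0,[(1,0),(21,0)]⟩⟩,⟨true,0,⟨0,
  [(34,0)]⟩,⟨0,[(35,0)]⟩⟩,⟨false,1,⟨3,[(3,3),(13,0),(0,2),(0,3),(2,3)]⟩,⟨0,[(1,0),(21,0),(11,0)]⟩⟩,
  [.o ⟨false,0,⟨2,[(2,0),(0,1),(2,1),(5,0),(2,0)]⟩,⟨3,[(17,0),(0,0),(4,3),(13,1)]⟩⟩,.o ⟨false,1,⟨0,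
  [(21,0),(15,0)]⟩,⟨0,[(23,0)]⟩⟩,.o ⟨false,1,⟨1,[(20,1),(9,0),(5,0)]⟩,⟨2,[(6,0),(2,0),(9,2),(2,1),
  (2,0)]⟩⟩,.a ⟨true,0,⟨0,[(20,0)]⟩,⟨0,[(19,0)]⟩⟩ ⟨false,0,⟨2,[(1,1),(3,0),(0,1),(8,0),(3,1),(3,0),
  (12,0)]⟩,⟨1,[(18,0),(6,0),(0,0),(10,0)]⟩⟩ ⟨true,0,⟨2,[(2,0),(0,1),(2,1),(5,0),(2,0),(3,2)]⟩,⟨0,
  [(20,0),(2,0)]⟩⟩]⟩))) (.I [1,1,1,0,-1,0,0,0,-1] (.Q [0,1,1,0,0,0,0,0,1,0,0,-1] (.p false [0,0,0,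
  1] [] (⟨0,[(19,0)]⟩,⟨0,[(18,0)]⟩) .k 0 (⟨0,[]⟩,⟨0,[]⟩) .k .k) (.K ⟨0,[0,0,0,1],0,0,(⟨0,[(20,0)]⟩,
  ⟨0,[(19,0)]⟩),.k,(.r (-1) ⟨0,[(4,0),(34,0)]⟩ ⟨5,[(2,1),(2,1),(11,1),(7,0),(0,0),(7,1)]⟩),(.x 0 ⟨0,
  [(32,0)]⟩ ⟨3,[(17,0),(0,0),(11,1),(0,3)]⟩),.k,.k,[⟨0,[(20,0)]⟩,⟨0,[(19,0)]⟩,⟨0,[(1,0),(18,0),(15,
  0)]⟩,⟨0,[(0,0)]⟩]⟩) (.R ⟨2,false,false,true,[0,1],[0,0,0,1],[],(⟨0,[]⟩,⟨0,[]⟩),(⟨0,[(20,0)]⟩,⟨0,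
  [(19,0)]⟩),⟨0,[]⟩,.k,.k,.k,(.r 0 ⟨5,[(2,1),(2,1),(11,1),(7,0),(0,0),(7,1)]⟩ ⟨0,[(4,0),(34,0)]⟩),
  .k,.k,⟨true,0,⟨14,[(0,7),(1,2),(2,2),(0,5),(10,1),(1,7),(10,0),(2,1)]⟩,⟨0,[(1,0),(16,0)]⟩⟩,⟨false,
  0,⟨2,[(6,0),(2,0),(9,2),(2,1),(2,0)]⟩,⟨0,[(20,0),(15,0)]⟩⟩,⟨false,1,⟨3,[(0,0),(3,2),(1,0),(10,0),
  (1,0)]⟩,⟨11,[(2,3),(2,3),(11,0),(0,2),(6,1),(0,1),(7,3)]⟩⟩,⟨true,0,⟨0,[(1,0),(4,0),(11,0),(0,0)]⟩,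
  ⟨0,[(0,0),(33,0)]⟩⟩,⟨false,1,⟨1,[(36,0),(0,0)]⟩,⟨1,[(25,0),(0,0)]⟩⟩,⟨false,1,⟨7,[(17,0),(0,4),(0,
  7),(2,3),(2,3),(4,1)]⟩,⟨0,[(0,0)]⟩⟩,[.a ⟨true,0,⟨0,[(1,0),(16,0),(0,0)]⟩,⟨0,[(0,0)]⟩⟩ ⟨false,1,⟨3,
  [(17,0),(0,0),(17,1)]⟩,⟨0,[]⟩⟩ ⟨true,0,⟨4,[(1,3),(3,0),(0,1),(1,0),(9,4),(0,4),(2,2),(2,1)]⟩,⟨0,
  [(0,0)]⟩⟩,.o ⟨false,1,⟨7,[(17,0),(0,4),(0,7),(2,3),(2,3),(4,1)]⟩,⟨1,[(0,1),(5,0),(1,0),(12,0)]⟩⟩,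
  .o ⟨false,1,⟨3,[(17,0),(0,0),(17,1)]⟩,⟨2,[(6,0),(2,0),(12,1),(2,0)]⟩⟩,.e ⟨false,1,⟨1,[(36,0),(0,
  0)]⟩,⟨1,[(25,0),(0,0)]⟩⟩ ⟨false,1,⟨7,[(17,0),(0,4),(0,7),(2,3),(2,3),(4,1)]⟩,⟨0,[(0,0)]⟩⟩]⟩)) (.Q
  [0,1,1,0,0,0,0,0,1,0,0,-1] (.p false [0,0,0,1] [] (⟨0,[(19,0)]⟩,⟨0,[(18,0)]⟩) .k 0 (⟨0,[]⟩,⟨0,
  []⟩) .k .k) (.Q [0,1,-1,0,0,0,0,0,-1,0,0,1] (.p true [0,0,0,1] [] (⟨0,[(20,0)]⟩,⟨0,[(19,0)]⟩) .k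
  0 (⟨0,[]⟩,⟨0,[]⟩) .k .k) (.K ⟨0,[0,0,0,1],0,0,(⟨0,[(21,0)]⟩,⟨0,[(20,0)]⟩),.k,(.r (-1) ⟨0,[(5,0),
  (34,0)]⟩ ⟨5,[(3,1),(2,1),(11,1),(7,0),(0,0),(7,1)]⟩),(.x 0 ⟨0,[(33,0)]⟩ ⟨3,[(18,0),(0,0),(11,1),
  (0,3)]⟩),.k,.k,[⟨0,[(21,0)]⟩,⟨0,[(20,0)]⟩,⟨0,[(0,0)]⟩,⟨0,[(1,0)]⟩]⟩) (.Q [0,0,0,0,0,1,0,0,0,-1,0,
  1] (.ed false [0,1,0,1] .k) (.R ⟨0,false,false,true,[1,0,0,-1],[0,1],[1,0,0,0,0,0,0,0,-1],(⟨0,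
  [(21,0)]⟩,⟨0,[(22,0)]⟩),(⟨0,[(34,0)]⟩,⟨0,[(33,0)]⟩),⟨0,[(0,0)]⟩,.k,.k,(.x (-1) ⟨3,[(19,0),(0,0),
  (11,1),(0,3)]⟩ ⟨0,[(34,0)]⟩),(.x (-1) ⟨3,[(19,0),(0,0),(11,1),(0,3)]⟩ ⟨0,[(34,0)]⟩),.k,.k,⟨false,
  1,⟨0,[(4,0),(2,0),(29,2),(0,1)]⟩,⟨5,[(1,0),(0,2),(4,1),(2,1),(6,1),(2,1),(1,3)]⟩⟩,⟨true,0,⟨0,[(21,
  0)]⟩,⟨2,[(8,0),(2,0),(10,2),(1,1),(2,0)]⟩⟩,⟨true,0,⟨0,[]⟩,⟨0,[(41,0)]⟩⟩,⟨false,0,⟨3,[(1,2),(0,0),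
  (9,1),(4,1),(3,1),(0,1)]⟩,⟨2,[(4,0),(2,0),(0,2),(10,0),(2,2),(12,0),(1,1),(0,2)]⟩⟩,⟨false,0,⟨0,
  []⟩,⟨0,[]⟩⟩,⟨false,0,⟨0,[]⟩,⟨0,[]⟩⟩,[.o ⟨false,0,⟨0,[(36,0)]⟩,⟨1,[(32,0),(4,1),(1,0)]⟩⟩,.o ⟨false,
  1,⟨3,[(19,0),(0,0),(15,3),(2,1)]⟩,⟨0,[(8,0)]⟩⟩,.o ⟨false,1,⟨1,[(22,1),(9,0),(5,0)]⟩,⟨4,[(1,1),(0,
  0),(4,0),(0,0),(10,0),(1,1),(2,0),(0,0)]⟩⟩,.a ⟨true,0,⟨0,[(22,0)]⟩,⟨0,[(21,0)]⟩⟩ ⟨false,1,⟨2,[(4,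
  0),(2,0),(11,0),(15,0),(1,1),(0,2)]⟩,⟨1,[(1,0),(0,0),(19,1)]⟩⟩ ⟨true,0,⟨0,[(21,0),(14,0)]⟩,⟨0,[(8,
  0),(13,0)]⟩⟩]⟩) (.R ⟨1,false,false,true,[1,0,0,-1],[0,1],[1,0,0,0,0,0,0,0,-1],(⟨0,[(21,0)]⟩,⟨0,
  [(22,0)]⟩),(⟨0,[(34,0)]⟩,⟨0,[(33,0)]⟩),⟨0,[(0,0)]⟩,.k,.k,(.x (-1) ⟨3,[(19,0),(0,0),(11,1),(0,3)]⟩
  ⟨0,[(34,0)]⟩),(.x (-1) ⟨3,[(19,0),(0,0),(11,1),(0,3)]⟩ ⟨0,[(34,0)]⟩),(.r (-1) ⟨7,[(4,3),(2,5),(9,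
  1),(1,0),(5,1),(11,27),(0,12)]⟩ ⟨7,[(2,1),(1,5),(2,5),(12,5),(1,1),(4,0),(0,0),(7,3)]⟩),.k,⟨false,
  1,⟨0,[(4,0),(2,0),(29,2),(0,1)]⟩,⟨5,[(1,0),(0,2),(4,1),(2,1),(6,1),(2,1),(1,3)]⟩⟩,⟨true,0,⟨0,[(21,
  0)]⟩,⟨2,[(8,0),(2,0),(10,2),(1,1),(2,0)]⟩⟩,⟨true,0,⟨0,[]⟩,⟨0,[(41,0)]⟩⟩,⟨false,0,⟨3,[(1,2),(0,0),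
  (9,1),(4,1),(3,1),(0,1)]⟩,⟨2,[(4,0),(2,0),(0,2),(10,0),(2,2),(12,0),(1,1),(0,2)]⟩⟩,⟨false,1,⟨0,
  [(36,0),(2,0)]⟩,⟨0,[(37,0)]⟩⟩,⟨false,0,⟨0,[(1,0),(10,0),(4,0)]⟩,⟨2,[(4,0),(2,0),(0,2),(10,0),(2,
  2),(12,0),(1,4),(0,2)]⟩⟩,[.o ⟨false,0,⟨0,[(36,0)]⟩,⟨1,[(32,0),(4,1),(1,0)]⟩⟩,.o ⟨false,1,⟨3,[(19,
  0),(0,0),(15,3),(2,1)]⟩,⟨0,[(8,0)]⟩⟩,.o ⟨false,1,⟨1,[(22,1),(9,0),(5,0)]⟩,⟨4,[(1,1),(0,0),(4,0),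
  (0,0),(10,0),(1,1),(2,0),(0,0)]⟩⟩,.a ⟨true,0,⟨0,[(22,0)]⟩,⟨0,[(21,0)]⟩⟩ ⟨false,1,⟨2,[(4,0),(2,0),
  (11,0),(15,0),(1,1),(0,2)]⟩,⟨1,[(1,0),(0,0),(19,1)]⟩⟩ ⟨true,0,⟨0,[(21,0),(14,0)]⟩,⟨0,[(8,0),(13,
  0)]⟩⟩]⟩))) (.Q [0,0,0,0,0,1,0,0,0,-1,0,1] (.ed false [0,1,0,1] .k) (.R ⟨0,false,false,false,[1,0,
  0,-1],[1,0,-1],[1,0,1,0,0,0,0,-1],(⟨0,[(20,0)]⟩,⟨0,[(21,0)]⟩),(⟨0,[(29,0)]⟩,⟨0,[(30,0)]⟩),⟨0,[(0,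
  0)]⟩,.k,.k,(.x (-1) ⟨3,[(18,0),(0,0),(11,1),(0,3)]⟩ ⟨0,[(33,0)]⟩),.k,.k,.k,⟨false,0,⟨0,[]⟩,⟨3,
  [(18,0),(0,0),(17,1)]⟩⟩,⟨true,0,⟨0,[(20,0),(2,0)]⟩,⟨2,[(7,0),(2,0),(6,0),(3,2)]⟩⟩,⟨true,0,⟨0,[(6,
  0),(12,0),(16,0)]⟩,⟨0,[(1,0),(5,0),(8,0),(3,0),(3,0)]⟩⟩,⟨false,1,⟨1,[(19,0),(0,1),(2,1),(4,1),(9,
  0)]⟩,⟨0,[(1,0),(22,0)]⟩⟩,⟨false,0,⟨0,[]⟩,⟨0,[]⟩⟩,⟨false,0,⟨0,[]⟩,⟨0,[]⟩⟩,[.o ⟨false,0,⟨0,[(7,0),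
  (6,0),(1,0)]⟩,⟨3,[(18,0),(0,0),(4,3),(13,1)]⟩⟩,.o ⟨false,1,⟨0,[(22,0),(15,0)]⟩,⟨0,[(24,0)]⟩⟩,.o
  ⟨false,1,⟨1,[(21,1),(9,0),(5,0)]⟩,⟨2,[(7,0),(2,0),(9,2),(2,1),(2,0)]⟩⟩,.a ⟨true,0,⟨0,[(21,0)]⟩,⟨0,
  [(20,0)]⟩⟩ ⟨false,0,⟨0,[(14,0)]⟩,⟨2,[(3,0),(1,1),(10,0),(1,0),(5,1),(2,0)]⟩⟩ ⟨true,0,⟨0,[(7,0),(6,
  0),(1,0),(3,0)]⟩,⟨0,[(21,0),(2,0)]⟩⟩]⟩) (.R ⟨1,false,false,false,[1,0,0,-1],[1,0,-1],[1,1,0,0,0,0,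
  0,0,-1],(⟨0,[(20,0)]⟩,⟨0,[(21,0)]⟩),(⟨0,[(29,0)]⟩,⟨0,[(30,0)]⟩),⟨0,[(0,0)]⟩,.k,.k,(.x (-1) ⟨3,
  [(18,0),(0,0),(11,1),(0,3)]⟩ ⟨0,[(33,0)]⟩),.k,(.r (-1) ⟨7,[(1,4),(3,2),(1,0),(5,3),(4,2),(1,4),(3,
  7),(11,3),(0,1)]⟩ ⟨0,[(6,0),(12,0)]⟩),.k,⟨false,0,⟨0,[(1,0),(5,0),(8,0),(3,0),(3,0)]⟩,⟨1,[(19,0),
  (8,1),(9,0)]⟩⟩,⟨true,0,⟨0,[(20,0),(2,0)]⟩,⟨2,[(7,0),(2,0),(6,0),(3,2)]⟩⟩,⟨false,0,⟨0,[]⟩,⟨3,[(18,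
  0),(0,0),(18,1)]⟩⟩,⟨false,1,⟨1,[(19,0),(0,1),(2,1),(4,1),(9,0)]⟩,⟨0,[(1,0),(22,0)]⟩⟩,⟨true,0,⟨0,
  [(35,0)]⟩,⟨0,[(36,0)]⟩⟩,⟨false,1,⟨3,[(4,3),(13,0),(0,2),(0,3),(2,3)]⟩,⟨0,[(1,0),(22,0),(11,0)]⟩⟩,
  [.o ⟨false,0,⟨0,[(7,0),(6,0),(1,0)]⟩,⟨3,[(18,0),(0,0),(4,3),(13,1)]⟩⟩,.o ⟨false,1,⟨0,[(22,0),(15,
  0)]⟩,⟨0,[(24,0)]⟩⟩,.o ⟨false,1,⟨1,[(21,1),(9,0),(5,0)]⟩,⟨2,[(7,0),(2,0),(9,2),(2,1),(2,0)]⟩⟩,.a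
  ⟨true,0,⟨0,[(21,0)]⟩,⟨0,[(20,0)]⟩⟩ ⟨false,0,⟨2,[(1,1),(4,0),(0,1),(8,0),(3,1),(3,0),(12,0)]⟩,⟨1,
  [(19,0),(6,0),(0,0),(10,0)]⟩⟩ ⟨true,0,⟨0,[(7,0),(6,0),(1,0),(3,0)]⟩,⟨0,[(21,0),(2,0)]⟩⟩]⟩)))))
  (.Q [0,1,1,0,0,0,0,0,1,0,0,-1] (.p false [0,0,0,1] [] (⟨0,[(17,0)]⟩,⟨0,[(16,0)]⟩) .k 0 (⟨0,[]⟩,⟨0,
  []⟩) .k .k) (.K ⟨0,[0,0,0,1],0,0,(⟨0,[(18,0)]⟩,⟨0,[(17,0)]⟩),.k,(.r (-1) ⟨0,[(2,0),(34,0)]⟩ ⟨11,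
  [(3,3),(2,3),(1,3),(1,3),(4,3),(7,0),(0,0),(6,1)]⟩),(.x 0 ⟨0,[(30,0)]⟩ ⟨3,[(15,0),(0,0),(11,1),(0,
  3)]⟩),.k,.k,[⟨0,[(18,0)]⟩,⟨0,[(17,0)]⟩,⟨0,[(1,0),(1,0),(14,0),(15,0)]⟩,⟨0,[(0,0)]⟩]⟩) (.R ⟨2,
  false,false,true,[0,1],[0,0,0,1],[],(⟨0,[]⟩,⟨0,[]⟩),(⟨0,[(18,0)]⟩,⟨0,[(17,0)]⟩),⟨0,[]⟩,.k,.k,.k,
  (.r 0 ⟨11,[(3,3),(2,3),(1,3),(1,3),(4,3),(7,0),(0,0),(6,1)]⟩ ⟨0,[(2,0),(34,0)]⟩),.k,.k,⟨true,0,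
  ⟨32,[(0,18),(2,5),(0,11),(1,5),(3,2),(4,3),(1,18),(10,1),(2,9)]⟩,⟨0,[(1,0),(1,0),(12,0)]⟩⟩,⟨false,
  0,⟨2,[(4,0),(2,0),(9,2),(2,1),(2,0)]⟩,⟨0,[(18,0),(15,0)]⟩⟩,⟨false,1,⟨3,[(0,0),(1,2),(1,0),(10,0),
  (1,0)]⟩,⟨2,[(7,0),(0,1),(1,1),(12,0)]⟩⟩,⟨true,0,⟨0,[(1,0),(1,0),(0,0),(11,0),(0,0)]⟩,⟨0,[(0,0),
  (31,0)]⟩⟩,⟨false,1,⟨1,[(34,0),(0,0)]⟩,⟨1,[(23,0),(0,0)]⟩⟩,⟨false,1,⟨7,[(15,0),(0,4),(0,7),(2,3),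
  (2,3),(4,1)]⟩,⟨0,[(0,0)]⟩⟩,[.a ⟨true,0,⟨0,[(1,0),(1,0),(12,0),(0,0)]⟩,⟨0,[(0,0)]⟩⟩ ⟨false,1,⟨3,
  [(15,0),(0,0),(17,1)]⟩,⟨0,[]⟩⟩ ⟨true,0,⟨2,[(1,1),(1,2),(0,0),(11,2),(0,2),(2,1),(0,0),(1,0)]⟩,⟨0,
  [(0,0)]⟩⟩,.o ⟨false,1,⟨7,[(15,0),(0,4),(0,7),(2,3),(2,3),(4,1)]⟩,⟨1,[(0,1),(3,0),(1,0),(12,0)]⟩⟩,
  .o ⟨false,1,⟨3,[(15,0),(0,0),(17,1)]⟩,⟨2,[(4,0),(2,0),(12,1),(2,0)]⟩⟩,.e ⟨false,1,⟨1,[(34,0),(0,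
  0)]⟩,⟨1,[(23,0),(0,0)]⟩⟩ ⟨false,1,⟨7,[(15,0),(0,4),(0,7),(2,3),(2,3),(4,1)]⟩,⟨0,[(0,0)]⟩⟩]⟩))))
  (.Q [0,0,0,0,0,-1,0,0,0,1,0,-1] (.ed true [0,1,0,1] .k) (.I [0,-1,1,0,0,0,0,0,1] (.I [1,0,-2,-1,1,
  0,0,0,-1] (.R ⟨1,false,false,true,[1,0,0,-1],[0,1],[1,1,0,0,0,0,0,0,-1],(⟨0,[(17,0)]⟩,⟨0,[(18,
  0)]⟩),(⟨0,[(30,0)]⟩,⟨0,[(29,0)]⟩),⟨0,[(2,0)]⟩,.k,.k,(.x (-1) ⟨3,[(15,0),(0,0),(11,1),(0,3)]⟩ ⟨0,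
  [(30,0)]⟩),(.x (-1) ⟨3,[(15,0),(0,0),(11,1),(0,3)]⟩ ⟨0,[(30,0)]⟩),(.r (-1) ⟨0,[(0,0),(32,0)]⟩ ⟨2,
  [(1,2),(5,0),(0,1),(1,1),(12,0),(8,2)]⟩),.k,⟨false,1,⟨0,[(0,0)]⟩,⟨0,[(1,0),(30,0)]⟩⟩,⟨true,0,⟨0,
  [(17,0)]⟩,⟨2,[(4,0),(2,0),(10,2),(1,1),(2,0)]⟩⟩,⟨false,0,⟨0,[]⟩,⟨3,[(15,0),(0,0),(18,1)]⟩⟩,⟨false,
  0,⟨0,[(1,0),(15,0),(14,0)]⟩,⟨15,[(0,13),(3,9),(2,7),(2,3),(4,0),(2,15),(9,0),(2,7)]⟩⟩,⟨true,0,⟨0,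
  [(32,0)]⟩,⟨0,[(33,0)]⟩⟩,⟨false,0,⟨0,[(1,0),(5,0),(5,0),(3,0)]⟩,⟨5,[(0,3),(3,5),(10,0),(2,5),(12,
  1),(1,1),(1,0)]⟩⟩,[.o ⟨false,0,⟨0,[(32,0)]⟩,⟨1,[(28,0),(4,1),(1,0)]⟩⟩,.o ⟨false,1,⟨3,[(15,0),(0,
  0),(15,3),(2,1)]⟩,⟨0,[(4,0)]⟩⟩,.o ⟨false,1,⟨1,[(18,1),(9,0),(5,0)]⟩,⟨2,[(4,0),(2,0),(9,2),(2,1),
  (2,0)]⟩⟩,.a ⟨true,0,⟨0,[(18,0)]⟩,⟨0,[(17,0)]⟩⟩ ⟨false,1,⟨1,[(15,0),(18,0)]⟩,⟨0,[(1,0)]⟩⟩ ⟨true,0,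
  ⟨0,[(17,0),(14,0)]⟩,⟨0,[(4,0),(13,0)]⟩⟩]⟩) (.Q [0,0,-1,0,1,0,1,1,-1,0,-1,1] (.p false [0,0,1] [0,
  0,0,1] (⟨0,[(27,0)]⟩,⟨0,[(26,0)]⟩) .k 2 (⟨0,[(18,0)]⟩,⟨0,[(17,0)]⟩) .k (.r (-1) ⟨1,[(10,0),(4,0),
  (1,0),(0,0),(2,1),(9,0),(2,0)]⟩ ⟨0,[(0,0),(24,0),(7,0),(0,0)]⟩)) (.R ⟨1,false,false,false,[1,0,0,
  -1],[1,0,-1],[1,1,0,0,0,0,0,0,-1],(⟨0,[(18,0)]⟩,⟨0,[(19,0)]⟩),(⟨0,[(27,0)]⟩,⟨0,[(28,0)]⟩),⟨0,[(3,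
  0)]⟩,.k,.k,(.x (-1) ⟨3,[(16,0),(0,0),(11,1),(0,3)]⟩ ⟨0,[(31,0)]⟩),.k,(.x 0 ⟨0,[(5,0),(2,0),(19,0),
  (1,0)]⟩ ⟨7,[(10,3),(5,2),(0,2),(13,11),(3,1)]⟩),.k,⟨false,1,⟨0,[(0,0),(4,0),(8,0),(3,0)]⟩,⟨0,[(1,
  0),(10,0),(21,0),(0,0)]⟩⟩,⟨true,0,⟨0,[(18,0),(2,0)]⟩,⟨2,[(5,0),(2,0),(6,0),(3,2)]⟩⟩,⟨false,0,⟨0,
  []⟩,⟨3,[(16,0),(0,0),(18,1)]⟩⟩,⟨false,0,⟨3,[(1,1),(3,1),(5,1),(0,3),(4,0),(0,3),(16,0)]⟩,⟨0,[(0,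
  0)]⟩⟩,⟨true,0,⟨0,[(33,0)]⟩,⟨0,[(34,0)]⟩⟩,⟨false,0,⟨3,[(1,3),(9,1),(0,3),(5,3),(10,0),(5,2)]⟩,⟨0,
  [(0,0),(33,0)]⟩⟩,[.o ⟨false,0,⟨0,[(5,0),(6,0),(1,0)]⟩,⟨3,[(4,1),(2,1),(8,0),(7,1),(11,0)]⟩⟩,.o
  ⟨false,1,⟨0,[(20,0),(15,0)]⟩,⟨0,[(22,0)]⟩⟩,.o ⟨false,1,⟨1,[(19,1),(9,0),(5,0)]⟩,⟨3,[(1,1),(3,1),
  (10,0),(1,3),(10,0)]⟩⟩,.a ⟨true,0,⟨0,[(19,0)]⟩,⟨0,[(18,0)]⟩⟩ ⟨false,1,⟨1,[(16,0),(18,0)]⟩,⟨0,[(2,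
  0)]⟩⟩ ⟨true,0,⟨0,[(5,0),(6,0),(1,0),(3,0)]⟩,⟨0,[(19,0),(2,0)]⟩⟩]⟩) (.I [0,0,-1,-1,0,0,0,0,1] (.K
  ⟨0,[0,0,0,1],0,(-1),(⟨0,[(20,0)]⟩,⟨0,[(19,0)]⟩),.k,(.r 0 ⟨0,[(0,0)]⟩ ⟨3,[(2,1),(14,3),(0,0),(15,
  1),(2,0)]⟩),(.x 0 ⟨0,[(32,0)]⟩ ⟨3,[(17,0),(0,0),(11,1),(0,3)]⟩),.k,.k,[⟨0,[(20,0)]⟩,⟨0,[(19,0)]⟩,
  ⟨1,[(17,0),(2,1),(15,0),(2,1)]⟩,⟨0,[(1,0),(21,0)]⟩]⟩) (.K ⟨0,[0,0,0,1],0,(-1),(⟨0,[(20,0)]⟩,⟨0,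
  [(19,0)]⟩),.k,(.x 0 ⟨0,[(22,0),(2,0),(5,0)]⟩ ⟨0,[(32,0),(3,0)]⟩),(.x 0 ⟨0,[(32,0)]⟩ ⟨3,[(17,0),(0,
  0),(11,1),(0,3)]⟩),.k,.k,[⟨0,[(20,0)]⟩,⟨0,[(19,0)]⟩,⟨1,[(17,0),(2,1),(15,0),(2,1)]⟩,⟨0,[(1,0),(21,
  0)]⟩]⟩)))) (.Q [0,1,1,0,0,0,0,0,1,0,0,-1] (.p false [0,0,0,1] [] (⟨0,[(17,0)]⟩,⟨0,[(16,0)]⟩) .k 0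
  (⟨0,[]⟩,⟨0,[]⟩) .k .k) (.K ⟨0,[0,0,0,1],0,0,(⟨0,[(18,0)]⟩,⟨0,[(17,0)]⟩),.k,(.r (-1) ⟨0,[(3,0),(21,
  0)]⟩ ⟨5,[(1,5),(5,0),(0,4),(1,4),(12,3),(7,2)]⟩),(.x 0 ⟨0,[(30,0)]⟩ ⟨3,[(15,0),(0,0),(11,1),(0,
  3)]⟩),.k,.k,[⟨0,[(18,0)]⟩,⟨0,[(17,0)]⟩,⟨0,[(1,0),(16,0)]⟩,⟨0,[(0,0)]⟩]⟩) (.R ⟨1,false,false,false,
  [1,0,0,-1],[1,0,-1],[1,1,0,0,0,0,0,0,-1],(⟨0,[(17,0)]⟩,⟨0,[(18,0)]⟩),(⟨0,[(26,0)]⟩,⟨0,[(27,0)]⟩),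
  ⟨0,[(2,0)]⟩,.k,.k,(.x (-1) ⟨3,[(15,0),(0,0),(11,1),(0,3)]⟩ ⟨0,[(30,0)]⟩),.k,(.x 0 ⟨0,[(4,0),(2,0),
  (19,0),(1,0)]⟩ ⟨7,[(9,3),(5,2),(0,2),(13,11),(3,1)]⟩),.k,⟨false,0,⟨0,[(0,0),(3,0),(8,0),(3,0),(3,
  0)]⟩,⟨1,[(16,0),(8,1),(9,0)]⟩⟩,⟨true,0,⟨0,[(17,0),(2,0)]⟩,⟨2,[(4,0),(2,0),(6,0),(3,2)]⟩⟩,⟨false,0,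
  ⟨0,[]⟩,⟨3,[(15,0),(0,0),(18,1)]⟩⟩,⟨false,1,⟨1,[(16,0),(0,1),(2,1),(4,1),(9,0)]⟩,⟨0,[(0,0),(20,
  0)]⟩⟩,⟨true,0,⟨0,[(32,0)]⟩,⟨0,[(33,0)]⟩⟩,⟨false,1,⟨1,[(7,1),(2,1),(5,0),(0,1),(7,1),(9,0)]⟩,⟨0,
  [(0,0),(20,0),(11,0)]⟩⟩,[.o ⟨false,0,⟨0,[(4,0),(6,0),(1,0)]⟩,⟨3,[(3,1),(2,1),(8,0),(7,1),(11,
  0)]⟩⟩,.o ⟨false,1,⟨0,[(19,0),(15,0)]⟩,⟨0,[(21,0)]⟩⟩,.o ⟨false,1,⟨1,[(18,1),(9,0),(5,0)]⟩,⟨2,[(4,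
  0),(2,0),(9,2),(2,1),(2,0)]⟩⟩,.a ⟨true,0,⟨0,[(18,0)]⟩,⟨0,[(17,0)]⟩⟩ ⟨false,0,⟨2,[(0,1),(0,0),(2,
  1),(2,0),(5,0),(3,1)]⟩,⟨1,[(16,0),(6,0),(0,0),(10,0)]⟩⟩ ⟨true,0,⟨0,[(4,0),(6,0),(1,0),(3,0)]⟩,⟨0,
  [(18,0),(2,0)]⟩⟩]⟩))) (.Q [0,-1,-1,-1,1,0,0,0,-1,-1,0,1] (.p true [0,0,0,1] [1] (⟨0,[(16,0)]⟩,⟨0,
  [(15,0)]⟩) .k 1 (⟨0,[]⟩,⟨0,[]⟩) .k .k) (.I [1,-1,0,0,0,0,0,-1,1] (.R ⟨0,false,false,false,[1,0,0,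
  -1],[1,0,-1],[0,1,0,0,0,0,0,0,-1],(⟨0,[(17,0)]⟩,⟨0,[(18,0)]⟩),(⟨0,[(26,0)]⟩,⟨0,[(27,0)]⟩),⟨0,[(2,
  0)]⟩,.k,.k,(.x (-1) ⟨3,[(15,0),(0,0),(11,1),(0,3)]⟩ ⟨0,[(30,0)]⟩),.k,.k,.k,⟨false,1,⟨0,[(1,0),(11,
  0),(3,0),(3,0)]⟩,⟨0,[(0,0)]⟩⟩,⟨true,0,⟨0,[(17,0),(2,0)]⟩,⟨2,[(4,0),(2,0),(6,0),(3,2)]⟩⟩,⟨true,0,
  ⟨0,[(37,0)]⟩,⟨0,[]⟩⟩,⟨false,0,⟨0,[(0,0),(16,0),(2,0)]⟩,⟨0,[(1,0),(4,0),(10,0),(0,0)]⟩⟩,⟨false,0,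
  ⟨0,[]⟩,⟨0,[]⟩⟩,⟨false,0,⟨0,[]⟩,⟨0,[]⟩⟩,[.o ⟨false,0,⟨0,[(4,0),(6,0),(1,0)]⟩,⟨3,[(3,1),(2,1),(8,0),
  (7,1),(11,0)]⟩⟩,.o ⟨false,1,⟨0,[(19,0),(15,0)]⟩,⟨0,[(21,0)]⟩⟩,.o ⟨false,1,⟨1,[(18,1),(9,0),(5,
  0)]⟩,⟨2,[(4,0),(2,0),(9,2),(2,1),(2,0)]⟩⟩,.a ⟨true,0,⟨0,[(18,0)]⟩,⟨0,[(17,0)]⟩⟩ ⟨false,1,⟨1,[(15,
  0),(18,0)]⟩,⟨1,[(0,1),(9,0),(6,0),(0,0),(2,1),(9,0)]⟩⟩ ⟨true,0,⟨0,[(4,0),(6,0),(1,0),(3,0)]⟩,⟨0,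
  [(18,0),(2,0)]⟩⟩]⟩) (.Q [0,0,1,0,0,0,1,1,1,1,-1,-1] (.p false [0,0,1] [1,0,0,-1] (⟨0,[(27,0)]⟩,⟨0,
  [(26,0)]⟩) .k 2 (⟨0,[(17,0)]⟩,⟨0,[(18,0)]⟩) .k (.r (-1) ⟨3,[(3,1),(2,1),(9,0),(7,1),(10,0)]⟩ ⟨0,
  [(0,0),(10,0),(13,0)]⟩)) (.R ⟨0,false,false,true,[1,0,0,-1],[0,0,1],[1,0,0,0,0,0,0,0,-1],(⟨0,[(18,
  0)]⟩,⟨0,[(19,0)]⟩),(⟨0,[(28,0)]⟩,⟨0,[(27,0)]⟩),⟨0,[(3,0)]⟩,.k,.k,(.x (-1) ⟨3,[(16,0),(0,0),(11,1),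
  (0,3)]⟩ ⟨0,[(31,0)]⟩),.k,.k,.k,⟨true,0,⟨0,[(1,0),(10,1)]⟩,⟨0,[(0,0),(4,0),(8,0),(4,0)]⟩⟩,⟨false,0,
  ⟨2,[(5,0),(2,0),(6,0),(2,2)]⟩,⟨3,[(11,1),(7,3),(9,0),(5,2)]⟩⟩,⟨true,0,⟨0,[]⟩,⟨0,[(38,0)]⟩⟩,⟨false,
  0,⟨0,[(0,0)]⟩,⟨0,[(2,0),(9,0),(1,0)]⟩⟩,⟨false,0,⟨0,[]⟩,⟨0,[]⟩⟩,⟨false,0,⟨0,[]⟩,⟨0,[]⟩⟩,[.o ⟨false,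
  0,⟨0,[(22,0)]⟩,⟨0,[(20,0),(15,0)]⟩⟩,.o ⟨false,1,⟨3,[(4,1),(2,1),(8,0),(7,1),(11,0)]⟩,⟨0,[(5,0),(6,
  0),(1,0)]⟩⟩,.o ⟨false,1,⟨1,[(19,1),(9,0),(5,0)]⟩,⟨2,[(5,0),(2,0),(9,2),(2,1),(2,0)]⟩⟩,.a ⟨true,0,
  ⟨0,[(19,0)]⟩,⟨0,[(18,0)]⟩⟩ ⟨false,1,⟨3,[(1,1),(10,1),(3,0),(15,1),(2,2)]⟩,⟨0,[(0,0),(4,0),(6,0),
  (1,0),(4,0)]⟩⟩ ⟨true,0,⟨0,[(18,0),(3,0)]⟩,⟨0,[(5,0),(6,0),(1,0),(4,0)]⟩⟩]⟩) (.Q [0,0,-1,0,0,0,1,1,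
  -1,0,-1,1] (.p false [0,0,1] [0,0,0,1] (⟨0,[(28,0)]⟩,⟨0,[(27,0)]⟩) .k 2 (⟨0,[(19,0)]⟩,⟨0,[(18,
  0)]⟩) .k (.x (-1) ⟨7,[(15,3),(0,0),(0,0),(10,7),(0,1),(5,3)]⟩ ⟨3,[(10,1),(13,0),(0,0),(5,1)]⟩))
  (.R ⟨0,false,false,false,[1,0,0,-1],[1,0,-1],[0,1,0,0,0,0,0,0,-1],(⟨0,[(19,0)]⟩,⟨0,[(20,0)]⟩),(⟨0,
  [(28,0)]⟩,⟨0,[(29,0)]⟩),⟨0,[(4,0)]⟩,.k,.k,(.x (-1) ⟨3,[(17,0),(0,0),(11,1),(0,3)]⟩ ⟨0,[(32,0)]⟩),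
  .k,.k,.k,⟨false,0,⟨0,[(0,0),(5,0),(8,0),(3,0)]⟩,⟨1,[(18,0),(8,1),(9,0)]⟩⟩,⟨true,0,⟨0,[(19,0),(2,
  0)]⟩,⟨2,[(6,0),(2,0),(6,0),(3,2)]⟩⟩,⟨true,0,⟨0,[(39,0)]⟩,⟨0,[]⟩⟩,⟨false,1,⟨1,[(18,0),(0,1),(2,1),
  (4,1),(9,0)]⟩,⟨0,[(0,0)]⟩⟩,⟨false,0,⟨0,[]⟩,⟨0,[]⟩⟩,⟨false,0,⟨0,[]⟩,⟨0,[]⟩⟩,[.o ⟨false,0,⟨0,[(6,0),
  (6,0),(1,0)]⟩,⟨3,[(5,1),(2,1),(8,0),(7,1),(11,0)]⟩⟩,.o ⟨false,1,⟨0,[(21,0),(15,0)]⟩,⟨0,[(23,0)]⟩⟩,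
  .o ⟨false,1,⟨5,[(0,1),(0,1),(1,1),(14,2),(11,0),(3,1)]⟩,⟨2,[(6,0),(2,0),(9,2),(2,1),(2,0)]⟩⟩,.a
  ⟨true,0,⟨0,[(20,0)]⟩,⟨0,[(19,0)]⟩⟩ ⟨false,0,⟨0,[(0,0),(5,0),(6,0),(1,0),(3,0)]⟩,⟨1,[(18,0),(6,0),
  (0,0),(10,0)]⟩⟩ ⟨true,0,⟨0,[(6,0),(6,0),(1,0),(3,0)]⟩,⟨0,[(20,0),(2,0)]⟩⟩]⟩) (.K ⟨0,[0,0,0,1],0,0,
  (⟨0,[(20,0)]⟩,⟨0,[(19,0)]⟩),.k,(.r (-1) ⟨0,[(5,0),(21,0)]⟩ ⟨0,[(2,0),(6,0),(14,0),(8,0)]⟩),(.x 0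
  ⟨0,[(32,0)]⟩ ⟨3,[(17,0),(0,0),(11,1),(0,3)]⟩),.k,.k,[⟨0,[(20,0)]⟩,⟨0,[(19,0)]⟩,⟨0,[(1,0),(17,0),
  (0,0),(2,0)]⟩,⟨0,[(0,0),(22,0)]⟩]⟩)))) (.K ⟨0,[0,0,0,1],0,(-1),(⟨0,[(17,0)]⟩,⟨0,[(16,0)]⟩),.k,(.x
  0 ⟨0,[(19,0),(2,0),(5,0)]⟩ ⟨0,[(29,0),(3,0)]⟩),(.x 0 ⟨0,[(29,0)]⟩ ⟨3,[(14,0),(0,0),(11,1),(0,
  3)]⟩),.k,.k,[⟨0,[(17,0)]⟩,⟨0,[(16,0)]⟩,⟨1,[(14,0),(2,1),(15,0),(2,1)]⟩,⟨0,[(0,0),(2,0)]⟩]⟩)))))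

theorem ok65 : chk (cU (-1) true 10) t65 l37 = true := by decide +kernel

noncomputable def t68 : Tre :=
  (.R ⟨1,false,false,false,[1,0,-1],[0,0,1],[1,0,1],(⟨0,[(26,0)]⟩,⟨0,[(27,0)]⟩),(⟨0,[(27,0)]⟩,⟨0,
  [(26,0)]⟩),⟨0,[(12,0)]⟩,.k,.k,.k,.k,(.x 0 ⟨0,[(9,0)]⟩ ⟨1,[(14,1),(12,3),(0,0),(1,1),(3,0)]⟩),.k,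
  ⟨false,0,⟨0,[(25,0)]⟩,⟨7,[(0,3),(9,3),(4,0),(0,0),(17,5)]⟩⟩,⟨true,0,⟨0,[(14,0)]⟩,⟨0,[(10,0)]⟩⟩,
  ⟨false,0,⟨1,[(0,0),(9,0),(20,0)]⟩,⟨3,[(15,0),(0,0),(8,3),(8,1)]⟩⟩,⟨true,0,⟨0,[(0,0)]⟩,⟨0,[(1,0),
  (30,0)]⟩⟩,⟨false,0,⟨0,[(4,0)]⟩,⟨15,[(2,7),(11,3),(0,2),(0,2),(5,7),(2,7),(2,1)]⟩⟩,⟨false,1,⟨5,[(0,
  3),(3,1),(1,1),(1,1),(6,0),(0,0),(17,0),(0,2)]⟩,⟨0,[(1,0)]⟩⟩,[.a ⟨true,0,⟨1,[(0,0),(16,0),(0,0)]⟩,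
  ⟨2,[(1,0),(9,0),(1,0),(3,0),(0,0)]⟩⟩ ⟨false,0,⟨0,[]⟩,⟨3,[(15,0),(0,0),(17,1)]⟩⟩ ⟨true,0,⟨1,[(0,0),
  (13,0)]⟩,⟨3,[(1,0),(5,0),(2,1),(9,0),(1,1),(8,0)]⟩⟩,.o ⟨false,1,⟨7,[(0,3),(14,0),(0,0),(11,1),(6,
  3)]⟩,⟨0,[(19,0)]⟩⟩,.o ⟨false,1,⟨3,[(10,1),(4,0),(0,0),(11,0),(5,0)]⟩,⟨0,[(7,0),(25,0)]⟩⟩,.o
  ⟨false,0,⟨0,[(20,0)]⟩,⟨7,[(14,3),(0,0),(0,0),(11,1),(5,3)]⟩⟩]⟩)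

theorem ok68 : chk (cU (-1) true 10) t68 l42 = true := by decide +kernel

noncomputable def t84 : Tre :=
  (.Q [0,1,1,0,0,0,0,0,1,0,0,-1] (.p false [0,0,0,1] [] (⟨0,[(25,0)]⟩,⟨0,[(24,0)]⟩) .k 0 (⟨0,[]⟩,⟨0,
  []⟩) .k .k) (.Q [0,1,-1,0,0,0,0,0,-1,0,0,1] (.p true [0,0,0,1] [] (⟨0,[(26,0)]⟩,⟨0,[(25,0)]⟩) .k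
  0 (⟨0,[]⟩,⟨0,[]⟩) .k .k) (.K ⟨0,[0,0,0,1],0,0,(⟨0,[(27,0)]⟩,⟨0,[(26,0)]⟩),.k,(.r (-1) ⟨2,[(2,0),
  (8,0),(13,1)]⟩ ⟨18,[(2,4),(2,3),(0,6),(0,6),(7,0),(3,2),(2,0),(1,6)]⟩),(.x 0 ⟨0,[(39,0)]⟩ ⟨11,
  [(12,3),(1,3),(9,4),(0,4),(11,1)]⟩),.k,.k,[⟨0,[(27,0)]⟩,⟨0,[(26,0)]⟩,⟨0,[(0,0)]⟩,⟨0,[(1,0)]⟩]⟩)
  (.Q [0,0,0,0,0,-1,0,0,0,1,0,-1] (.ed true [0,1,0,1] .k) (.Q [0,0,0,1,0,0,0,0,0,1,0,-1] (.p false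
  [0,0,0,1] [1] (⟨0,[(28,0)]⟩,⟨0,[(27,0)]⟩) .k 1 (⟨0,[]⟩,⟨0,[]⟩) .k .k) (.R ⟨1,false,false,true,[1,
  0,0,-1],[0,1],[1,0,0,0,0,0,0,0,-1],(⟨0,[(28,0)]⟩,⟨0,[(29,0)]⟩),(⟨0,[(41,0)]⟩,⟨0,[(40,0)]⟩),⟨0,[(1,
  0)]⟩,.k,.k,(.x (-1) ⟨11,[(14,3),(1,3),(9,4),(0,4),(11,1)]⟩ ⟨0,[(41,0)]⟩),(.x (-1) ⟨11,[(14,3),(1,
  3),(9,4),(0,4),(11,1)]⟩ ⟨0,[(41,0)]⟩),(.r (-1) ⟨11,[(4,7),(8,7),(12,2),(0,0)]⟩ ⟨23,[(7,5),(0,13),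
  (0,11),(11,7),(4,0),(0,12),(15,11)]⟩),.k,⟨false,1,⟨8,[(4,6),(4,4),(3,5),(8,4),(3,0),(18,1)]⟩,⟨5,
  [(2,0),(0,2),(3,0),(0,0),(8,1),(6,1),(2,0),(1,3)]⟩⟩,⟨true,0,⟨0,[(28,0)]⟩,⟨0,[(18,0),(10,0),(1,0),
  (12,0)]⟩⟩,⟨true,0,⟨0,[]⟩,⟨0,[(48,0)]⟩⟩,⟨false,0,⟨3,[(0,1),(1,1),(5,0),(15,1),(2,0),(0,0),(0,0)]⟩,
  ⟨50,[(4,42),(2,4),(1,9),(3,23),(4,9),(7,3),(2,50),(9,22),(2,29)]⟩⟩,⟨false,1,⟨19,[(5,3),(3,3),(8,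
  3),(7,4),(0,4),(17,1),(0,7)]⟩,⟨0,[(44,0)]⟩⟩,⟨false,0,⟨0,[(2,0),(16,0),(4,0)]⟩,⟨45,[(4,39),(3,3),
  (4,25),(12,2),(2,45),(1,7),(7,20),(2,29)]⟩⟩,[.o ⟨false,0,⟨0,[(43,0)]⟩,⟨23,[(8,7),(4,11),(7,7),(4,
  0),(0,0),(11,11),(6,5)]⟩⟩,.a ⟨true,0,⟨0,[(0,0),(28,0)]⟩,⟨0,[(44,0)]⟩⟩ ⟨true,0,⟨1,[(4,1),(4,0),(12,
  0),(19,0)]⟩,⟨0,[(3,0),(25,0)]⟩⟩ ⟨false,0,⟨0,[(0,0)]⟩,⟨5,[(4,1),(8,1),(13,0),(1,5),(9,2)]⟩⟩,.o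
  ⟨false,1,⟨1,[(29,1),(9,0),(5,0)]⟩,⟨3,[(0,0),(1,0),(1,0),(3,0),(19,1),(2,1),(7,0)]⟩⟩,.e ⟨false,1,
  ⟨17,[(4,3),(4,7),(3,5),(8,7),(3,6),(18,4)]⟩,⟨1,[(2,0),(0,0),(25,1)]⟩⟩ ⟨false,0,⟨0,[(0,0)]⟩,⟨23,
  [(8,7),(4,11),(7,7),(4,0),(0,0),(1,23),(9,11),(6,5)]⟩⟩]⟩) (.R ⟨1,false,false,true,[1,0,0,-1],[0,
  1],[1,0,0,0,0,0,0,0,-1],(⟨0,[(28,0)]⟩,⟨0,[(29,0)]⟩),(⟨0,[(41,0)]⟩,⟨0,[(40,0)]⟩),⟨0,[(1,0)]⟩,.k,.k,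
  (.x (-1) ⟨11,[(14,3),(1,3),(9,4),(0,4),(11,1)]⟩ ⟨0,[(41,0)]⟩),(.x (-1) ⟨11,[(14,3),(1,3),(9,4),(0,
  4),(11,1)]⟩ ⟨0,[(41,0)]⟩),(.r (-1) ⟨11,[(4,7),(8,7),(12,2),(0,0)]⟩ ⟨23,[(7,5),(0,13),(0,11),(11,
  7),(4,0),(0,12),(15,11)]⟩),.k,⟨false,1,⟨8,[(4,6),(4,4),(3,5),(8,4),(3,0),(18,1)]⟩,⟨7,[(0,1),(1,0),
  (0,0),(3,0),(0,2),(8,1),(6,5),(2,2)]⟩⟩,⟨true,0,⟨0,[(28,0)]⟩,⟨19,[(0,4),(6,0),(0,4),(0,0),(7,0),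
  (11,14),(1,8),(7,4)]⟩⟩,⟨true,0,⟨0,[]⟩,⟨0,[(48,0)]⟩⟩,⟨false,0,⟨5,[(2,3),(5,0),(10,1),(4,3),(2,0),
  (0,2),(0,0)]⟩,⟨42,[(0,37),(3,8),(2,4),(1,17),(3,25),(4,9),(3,7),(3,16),(2,4)]⟩⟩,⟨false,1,⟨19,[(5,
  3),(3,3),(8,3),(7,4),(0,4),(17,1),(0,7)]⟩,⟨0,[(44,0)]⟩⟩,⟨false,0,⟨0,[(2,0),(16,0),(4,0)]⟩,⟨6,[(0,
  6),(3,0),(4,0),(3,3),(8,0),(3,2),(15,0)]⟩⟩,[.o ⟨false,0,⟨0,[(43,0)]⟩,⟨23,[(8,7),(4,11),(7,7),(4,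
  0),(0,0),(11,11),(6,5)]⟩⟩,.e ⟨true,0,⟨1,[(4,1),(4,0),(12,0),(19,0)]⟩,⟨0,[(3,0),(25,0)]⟩⟩ ⟨true,0,
  ⟨33,[(3,7),(1,7),(2,5),(0,7),(9,1),(6,4),(0,0),(0,25),(6,5)]⟩,⟨0,[(0,0)]⟩⟩,.o ⟨false,1,⟨1,[(29,1),
  (9,0),(5,0)]⟩,⟨19,[(2,4),(1,4),(2,0),(0,4),(0,0),(7,0),(10,14),(2,8),(7,4)]⟩⟩,.a ⟨true,0,⟨0,[(29,
  0)]⟩,⟨0,[(28,0)]⟩⟩ ⟨false,1,⟨17,[(4,3),(4,7),(3,5),(8,7),(3,6),(18,4)]⟩,⟨1,[(2,0),(0,0),(25,1)]⟩⟩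
  ⟨true,0,⟨0,[(28,0),(14,0)]⟩,⟨0,[(0,0)]⟩⟩]⟩)) (.R ⟨0,false,false,true,[1,0,0,-1],[0,1],[1,0,0,0,0,
  0,0,0,-1],(⟨0,[(27,0)]⟩,⟨0,[(28,0)]⟩),(⟨0,[(40,0)]⟩,⟨0,[(39,0)]⟩),⟨0,[(0,0)]⟩,.k,.k,(.x (-1) ⟨11,
  [(13,3),(1,3),(9,4),(0,4),(11,1)]⟩ ⟨0,[(40,0)]⟩),(.x (-1) ⟨11,[(13,3),(1,3),(9,4),(0,4),(11,1)]⟩
  ⟨0,[(40,0)]⟩),.k,.k,⟨false,1,⟨8,[(3,6),(4,4),(3,5),(8,4),(3,0),(18,1)]⟩,⟨57,[(0,15),(0,2),(0,12),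
  (2,3),(0,4),(0,16),(7,3),(0,9),(6,37),(2,20)]⟩⟩,⟨true,0,⟨0,[(27,0)]⟩,⟨20,[(0,4),(4,1),(1,3),(11,
  0),(8,15),(1,7),(7,5)]⟩⟩,⟨true,0,⟨0,[]⟩,⟨0,[(47,0)]⟩⟩,⟨false,0,⟨5,[(1,3),(5,0),(10,1),(4,3),(2,0),
  (0,2),(0,0)]⟩,⟨111,[(0,111),(2,25),(1,27),(0,13),(1,32),(3,89),(2,27),(5,4),(3,42),(12,6),(2,
  4)]⟩⟩,⟨false,0,⟨0,[]⟩,⟨0,[]⟩⟩,⟨false,0,⟨0,[]⟩,⟨0,[]⟩⟩,[.o ⟨false,0,⟨0,[(42,0)]⟩,⟨23,[(7,7),(4,11),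
  (7,7),(4,0),(0,0),(11,11),(6,5)]⟩⟩,.e ⟨true,0,⟨1,[(3,1),(4,0),(12,0),(19,0)]⟩,⟨0,[(2,0),(25,0)]⟩⟩
  ⟨true,0,⟨33,[(2,7),(1,7),(2,5),(0,7),(9,1),(6,4),(0,0),(0,25),(6,5)]⟩,⟨2,[(0,3),(0,0),(1,0),(1,0),
  (6,0),(2,0),(7,0),(19,0)]⟩⟩,.o ⟨false,1,⟨1,[(28,1),(9,0),(5,0)]⟩,⟨19,[(1,4),(1,4),(2,0),(0,4),(0,
  0),(7,0),(10,14),(2,8),(7,4)]⟩⟩,.a ⟨true,0,⟨0,[(28,0)]⟩,⟨0,[(27,0)]⟩⟩ ⟨false,1,⟨17,[(3,3),(4,7),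
  (3,5),(8,7),(3,6),(18,4)]⟩,⟨1,[(1,0),(0,0),(25,1)]⟩⟩ ⟨true,0,⟨0,[(27,0),(14,0)]⟩,⟨2,[(0,3),(0,0),
  (1,0),(1,0),(6,0),(2,0),(7,0),(19,0)]⟩⟩]⟩))) (.Q [0,0,0,0,0,-1,0,0,0,1,0,-1] (.ed true [0,1,0,1]
  .k) (.I [0,1,1,1,-1,0,0,0,-1] (.R ⟨1,false,false,false,[1,0,0,-1],[1,-1],[0,1,0,-1,0,0,0,0,-1],
  (⟨0,[(27,0)]⟩,⟨0,[(28,0)]⟩),(⟨0,[(39,0)]⟩,⟨0,[(40,0)]⟩),⟨0,[(1,0)]⟩,.k,.k,(.x (-1) ⟨11,[(13,3),(1,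
  3),(9,4),(0,4),(11,1)]⟩ ⟨0,[(40,0)]⟩),(.r 0 ⟨55,[(0,9),(5,6),(0,12),(0,13),(11,5),(4,22),(16,3)]⟩
  ⟨2,[(3,0),(8,0),(13,1)]⟩),.k,.k,⟨true,(-1),⟨0,[(0,0),(42,0)]⟩,⟨1,[(26,0),(18,0)]⟩⟩,⟨false,0,⟨0,
  [(17,0),(9,0),(2,0),(12,0)]⟩,⟨0,[(28,0),(15,0)]⟩⟩,⟨false,0,⟨0,[(43,0)]⟩,⟨19,[(4,3),(3,3),(8,3),(7,
  4),(0,4),(17,1),(0,7)]⟩⟩,⟨false,1,⟨3,[(7,1),(4,1),(13,1),(0,3),(2,3),(7,0),(6,0)]⟩,⟨0,[(2,0),(39,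
  0)]⟩⟩,⟨true,0,⟨0,[(47,0)]⟩,⟨0,[]⟩⟩,⟨false,1,⟨9,[(7,1),(18,4),(0,9),(2,3),(7,3),(2,1),(3,2)]⟩,⟨2,
  [(2,1),(0,0),(24,0),(13,0)]⟩⟩,[.a ⟨true,0,⟨0,[(43,0)]⟩,⟨5,[(2,3),(1,0),(0,0),(1,0),(8,0),(6,2),(2,
  1),(0,3),(8,0),(3,1)]⟩⟩ ⟨false,0,⟨0,[(3,0)]⟩,⟨9,[(4,1),(3,1),(8,1),(8,4),(17,0),(0,3)]⟩⟩ ⟨true,0,
  ⟨0,[(17,0),(9,0),(2,0),(12,1)]⟩,⟨0,[(0,0),(1,0),(23,0)]⟩⟩,.o ⟨false,1,⟨23,[(7,7),(4,11),(7,7),(4,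
  0),(0,0),(11,11),(6,5)]⟩,⟨0,[(42,0)]⟩⟩,.o ⟨false,1,⟨1,[(28,1),(9,0),(5,0)]⟩,⟨0,[(17,0),(9,0),(2,
  0),(12,0)]⟩⟩,.e ⟨false,0,⟨0,[(0,0),(11,0)]⟩,⟨17,[(6,2),(0,4),(0,5),(11,1),(4,3),(0,12),(18,5)]⟩⟩
  ⟨false,1,⟨23,[(7,7),(4,11),(7,7),(4,0),(0,0),(0,23),(10,11),(6,5)]⟩,⟨0,[(0,0),(1,0),(23,0)]⟩⟩]⟩)
  (.I [1,1,2,2,-1] (.Q [0,0,1,2,0,0,0,0,1,1,0,-1] (.p false [0,0,0,1] [1] (⟨0,[(29,0)]⟩,⟨0,[(28,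
  0)]⟩) .k 1 (⟨0,[]⟩,⟨0,[]⟩) .k .k) (.R ⟨1,false,false,true,[1,-1],[0,0,0,1],[0,0,-1,-2],(⟨0,[(41,
  0)]⟩,⟨0,[(42,0)]⟩),(⟨0,[(30,0)]⟩,⟨0,[(29,0)]⟩),⟨1,[(15,0),(1,0),(23,0)]⟩,.k,.k,(.r (-1) ⟨2,[(5,1),
  (8,1),(13,0)]⟩ ⟨3,[(1,3),(25,0),(0,0),(18,1)]⟩),(.x (-1) ⟨11,[(15,3),(1,3),(9,4),(0,4),(11,1)]⟩
  ⟨0,[(42,0)]⟩),(.r (-1) ⟨11,[(5,7),(8,7),(12,2),(0,0)]⟩ ⟨1,[(1,1),(26,0),(18,0)]⟩),.k,⟨false,1,⟨7,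
  [(4,1),(0,3),(8,5),(12,0),(1,1),(10,0),(2,1)]⟩,⟨3,[(1,1),(4,0),(11,0),(9,1),(15,0)]⟩⟩,⟨true,0,⟨0,
  [(29,0)]⟩,⟨2,[(2,0),(1,0),(4,0),(9,0),(10,1),(0,0),(0,2),(0,0)]⟩⟩,⟨true,0,⟨0,[(45,0)]⟩,⟨0,[(44,
  0)]⟩⟩,⟨false,0,⟨0,[(0,0),(44,0)]⟩,⟨8,[(4,4),(4,0),(4,3),(12,1),(2,3),(1,1),(7,3),(4,0)]⟩⟩,⟨false,
  1,⟨3,[(27,0),(0,0),(18,1)]⟩,⟨0,[]⟩⟩,⟨false,0,⟨0,[(0,0)]⟩,⟨8,[(4,4),(4,0),(4,3),(12,1),(2,3),(1,1),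
  (7,3),(4,9)]⟩⟩,[.e ⟨false,1,⟨2,[(5,1),(8,1),(13,0)]⟩,⟨5,[(1,1),(6,0),(1,1),(8,0),(0,0),(6,0),(0,
  0)]⟩⟩ ⟨false,1,⟨1,[(28,0),(0,1),(16,0),(2,1)]⟩,⟨0,[(4,0),(14,0),(12,0),(12,0)]⟩⟩,.a ⟨true,0,⟨0,
  [(0,0),(44,1)]⟩,⟨2,[(4,1),(0,0),(24,0),(13,0)]⟩⟩ ⟨true,1,⟨5,[(9,1),(4,5),(7,1),(4,0),(0,0)]⟩,⟨0,
  [(1,0)]⟩⟩ ⟨false,1,⟨1,[(28,0),(0,1),(16,0)]⟩,⟨15,[(1,1),(2,11),(0,3),(3,2),(20,3),(0,2),(0,5),(0,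
  2),(6,4)]⟩⟩,.o ⟨false,0,⟨0,[(19,0),(12,0),(12,0)]⟩,⟨3,[(27,0),(0,0),(17,1)]⟩⟩,.o ⟨false,0,⟨11,[(9,
  7),(12,7),(4,0),(0,0),(11,5)]⟩,⟨0,[(46,0)]⟩⟩]⟩) (.R ⟨1,true,false,true,[1,0,0,-1],[0,1],[1,0,0,0,
  0,0,0,0,-1],(⟨0,[(29,0)]⟩,⟨0,[(30,0)]⟩),(⟨0,[(42,0)]⟩,⟨0,[(41,0)]⟩),⟨0,[(3,0)]⟩,.k,.k,(.x (-1)
  ⟨11,[(15,3),(1,3),(9,4),(0,4),(11,1)]⟩ ⟨0,[(42,0)]⟩),(.x (-1) ⟨11,[(15,3),(1,3),(9,4),(0,4),(11,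
  1)]⟩ ⟨0,[(42,0)]⟩),(.r (-1) ⟨11,[(5,7),(8,7),(12,2),(0,0)]⟩ ⟨1,[(1,1),(26,0),(18,0)]⟩),.k,⟨false,
  1,⟨13,[(4,9),(0,1),(8,5),(12,0),(1,9),(10,4),(5,1)]⟩,⟨1,[(1,0),(26,0),(20,0)]⟩⟩,⟨true,0,⟨0,[(29,
  0)]⟩,⟨6,[(0,1),(0,1),(7,0),(18,0),(1,4),(1,1),(7,1),(2,0)]⟩⟩,⟨true,0,⟨0,[]⟩,⟨0,[(49,0)]⟩⟩,⟨false,
  0,⟨0,[(1,0),(0,0),(26,0)]⟩,⟨19,[(0,5),(3,5),(9,3),(12,3),(2,7),(9,6),(6,4)]⟩⟩,⟨false,1,⟨19,[(6,3),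
  (3,3),(8,3),(7,4),(0,4),(17,1),(0,7)]⟩,⟨0,[(45,0)]⟩⟩,⟨true,0,⟨3,[(1,1),(4,0),(11,0),(9,1),(0,3),
  (14,0)]⟩,⟨0,[(0,0)]⟩⟩,[]⟩)) (.I [1,1,1,1,-1,0,0,0,-1] (.R ⟨1,false,false,false,[1,0,0,-1],[1,-1],
  [0,1,0,-1,0,0,0,0,-1],(⟨0,[(29,0)]⟩,⟨0,[(30,0)]⟩),(⟨0,[(41,0)]⟩,⟨0,[(42,0)]⟩),⟨0,[(3,0)]⟩,.k,.k,
  (.x (-1) ⟨11,[(15,3),(1,3),(9,4),(0,4),(11,1)]⟩ ⟨0,[(42,0)]⟩),(.r 0 ⟨55,[(0,9),(7,6),(0,12),(0,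
  13),(11,5),(4,22),(16,3)]⟩ ⟨2,[(5,0),(8,0),(13,1)]⟩),.k,.k,⟨true,(-1),⟨0,[(0,0),(44,0)]⟩,⟨1,[(28,
  0),(18,0)]⟩⟩,⟨false,0,⟨0,[(19,0),(9,0),(2,0),(12,0)]⟩,⟨0,[(30,0),(15,0)]⟩⟩,⟨false,0,⟨0,[(45,0)]⟩,
  ⟨19,[(6,3),(3,3),(8,3),(7,4),(0,4),(17,1),(0,7)]⟩⟩,⟨false,1,⟨11,[(2,11),(6,7),(12,7),(4,0),(0,0),
  (0,11),(10,5)]⟩,⟨0,[(4,0),(39,0)]⟩⟩,⟨true,0,⟨0,[(49,0)]⟩,⟨0,[]⟩⟩,⟨false,1,⟨9,[(9,1),(18,4),(0,9),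
  (2,3),(7,3),(2,1),(3,2)]⟩,⟨2,[(4,1),(0,0),(24,0),(13,0)]⟩⟩,[.a ⟨true,0,⟨0,[(45,0)]⟩,⟨5,[(4,3),(1,
  0),(0,0),(1,0),(8,0),(6,2),(2,1),(0,3),(8,0),(3,1)]⟩⟩ ⟨false,0,⟨0,[(5,0)]⟩,⟨9,[(6,1),(3,1),(8,1),
  (8,4),(17,0),(0,3)]⟩⟩ ⟨true,0,⟨0,[(19,0),(9,0),(2,0),(12,1)]⟩,⟨0,[(0,0),(3,0),(23,0)]⟩⟩,.o ⟨false,
  1,⟨17,[(2,1),(6,5),(4,7),(7,5),(4,0),(12,8),(6,3)]⟩,⟨0,[(44,0)]⟩⟩,.o ⟨false,1,⟨1,[(30,1),(9,0),(5,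
  0)]⟩,⟨0,[(19,0),(9,0),(2,0),(12,0)]⟩⟩,.e ⟨false,0,⟨0,[(0,0),(0,0)]⟩,⟨17,[(8,2),(0,4),(0,5),(11,1),
  (4,3),(0,12),(18,5)]⟩⟩ ⟨false,1,⟨17,[(2,1),(6,5),(4,7),(7,5),(4,0),(1,17),(10,8),(6,3)]⟩,⟨0,[(0,
  0),(3,0),(23,0)]⟩⟩]⟩) (.I [0,0,2,2,-1,0,0,-1] (.Q [0,0,-2,0,1,0,-1,0,0,0,1] (.p true [0,0,1] []
  (⟨0,[(40,0)]⟩,⟨0,[(39,0)]⟩) .k 0 (⟨0,[]⟩,⟨0,[]⟩) .k .k) (.K ⟨0,[1,1,-1],1,0,(⟨0,[(40,0),(3,0)]⟩,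
  ⟨0,[(17,0)]⟩),.k,.k,(.r 1 ⟨0,[(1,0)]⟩ ⟨2,[(0,0),(15,2),(12,0),(0,0),(4,2),(2,1)]⟩),.k,.k,[⟨0,[(9,
  0),(30,0),(3,1)]⟩,⟨0,[(0,0)]⟩,⟨0,[(31,0),(0,0),(2,0),(11,0)]⟩,⟨2,[(10,0),(9,0),(12,1)]⟩]⟩) (.R ⟨1,
  false,false,true,[1,0,0,-1],[0,-1,1],[1,0,0,0,0,0,0,0,-1],(⟨0,[(31,0)]⟩,⟨0,[(32,0)]⟩),(⟨0,[(17,
  0)]⟩,⟨0,[(40,0),(3,0)]⟩),⟨0,[(5,0)]⟩,.k,.k,(.x (-1) ⟨11,[(17,3),(1,3),(9,4),(0,4),(11,1)]⟩ ⟨0,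
  [(44,0)]⟩),(.r 1 ⟨4,[(0,4),(5,2),(0,1),(2,2),(9,0),(10,2)]⟩ ⟨43,[(16,35),(1,11),(8,15),(1,14),(0,
  36),(4,31),(2,15)]⟩),.k,.k,⟨false,0,⟨6,[(1,0),(4,1),(0,2),(2,1),(10,3),(3,1),(3,0),(1,1),(13,2)]⟩,
  ⟨0,[(4,0),(22,0),(7,0),(11,0)]⟩⟩,⟨true,(-1),⟨0,[(0,0),(30,0)]⟩,⟨3,[(24,1),(7,3),(9,0),(5,2)]⟩⟩,
  ⟨true,0,⟨0,[]⟩,⟨0,[(51,0)]⟩⟩,⟨true,0,⟨0,[(0,0),(3,0),(22,0),(3,0),(3,0),(11,0)]⟩,⟨2,[(6,2),(3,0),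
  (9,0),(12,1)]⟩⟩,⟨false,1,⟨19,[(8,3),(3,3),(8,3),(7,4),(0,4),(17,1),(0,7)]⟩,⟨0,[(47,0)]⟩⟩,⟨true,0,
  ⟨0,[(0,0),(3,0),(22,0),(3,0),(3,0)]⟩,⟨0,[(6,0),(26,0)]⟩⟩,[.o ⟨false,0,⟨0,[(35,0),(11,0)]⟩,⟨7,[(10,
  3),(18,0),(0,0),(11,1),(6,3)]⟩⟩,.e ⟨true,0,⟨8,[(6,0),(0,7),(2,0),(1,1),(8,1),(9,0),(13,6)]⟩,⟨1,
  [(0,0),(26,0),(2,0),(16,0),(3,0)]⟩⟩ ⟨true,0,⟨8,[(11,5),(4,4),(1,0),(5,4),(6,8),(2,0),(0,7),(13,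
  0)]⟩,⟨2,[(0,2),(3,2),(1,2),(3,0),(9,0),(6,2),(5,1)]⟩⟩,.o ⟨false,1,⟨1,[(32,1),(9,0),(5,0)]⟩,⟨2,[(0,
  0),(30,2),(2,0),(7,0)]⟩⟩,.a ⟨true,0,⟨0,[(32,0)]⟩,⟨0,[(31,0)]⟩⟩ ⟨false,1,⟨6,[(6,0),(3,0),(1,1),(3,
  3),(4,1),(7,2),(1,0)]⟩,⟨0,[(0,0),(3,0),(22,0)]⟩⟩ ⟨true,0,⟨0,[(31,0),(3,0),(11,0)]⟩,⟨2,[(0,2),(3,
  2),(1,2),(3,0),(9,0),(6,2),(5,1)]⟩⟩]⟩)) (.I [0,0,-2,-2,1,0,0,1] (.K ⟨0,[1,1,-1],1,0,(⟨0,[(40,0),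
  (3,0)]⟩,⟨0,[(17,0)]⟩),.k,.k,(.r 0 ⟨47,[(10,29),(0,37),(0,11),(11,7),(4,18),(0,18),(15,11)]⟩ ⟨0,
  [(0,0)]⟩),.k,.k,[⟨0,[(9,0),(30,0),(3,1)]⟩,⟨0,[(1,0),(6,0)]⟩,⟨0,[(1,0),(9,0),(15,0)]⟩,⟨2,[(10,0),
  (9,0),(12,1)]⟩]⟩) (.Q [0,0,1,1,0,0,0,0,1,1,0,-1] (.p false [0,0,0,1] [1] (⟨0,[(32,0)]⟩,⟨0,[(31,
  0)]⟩) .k 1 (⟨0,[]⟩,⟨0,[]⟩) .k .k) (.Q [0,1,1,-1,0,0,0,0,1,0,0,-1] (.p false [0,0,0,1] [] (⟨0,[(33,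
  0)]⟩,⟨0,[(32,0)]⟩) .k 0 (⟨0,[]⟩,⟨0,[]⟩) .k .k) (.R ⟨2,false,false,true,[0,1],[0,0,0,1],[1],(⟨0,
  []⟩,⟨0,[]⟩),(⟨0,[(34,0)]⟩,⟨0,[(33,0)]⟩),⟨0,[]⟩,.k,.k,.k,(.r 0 ⟨26,[(2,7),(6,4),(3,2),(0,6),(7,0),
  (3,2),(2,0),(1,10)]⟩ ⟨2,[(9,0),(8,0),(13,1)]⟩),.k,.k,⟨true,0,⟨8,[(8,0),(0,7),(2,0),(1,1),(8,1),(9,
  0),(13,6)]⟩,⟨4,[(0,2),(1,0),(26,0),(2,0),(1,2),(2,0)]⟩⟩,⟨false,0,⟨2,[(0,0),(8,0),(13,1),(9,1),(2,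
  1),(10,0)]⟩,⟨0,[(34,0),(15,0)]⟩⟩,⟨false,1,⟨5,[(6,1),(11,1),(12,0),(19,0)]⟩,⟨71,[(2,17),(10,7),(0,
  11),(7,5),(3,7),(2,5),(1,12),(0,12)]⟩⟩,⟨true,0,⟨0,[(0,0)]⟩,⟨0,[(8,0),(39,0)]⟩⟩,⟨false,1,⟨1,[(50,
  0),(0,0)]⟩,⟨5,[(13,1),(12,1),(4,0),(0,0)]⟩⟩,⟨false,1,⟨3,[(0,1),(0,1),(29,0),(0,0),(11,0),(6,0)]⟩,
  ⟨0,[(8,0)]⟩⟩,[.e ⟨true,0,⟨0,[]⟩,⟨5,[(13,1),(12,1),(4,0),(0,0)]⟩⟩ ⟨true,0,⟨71,[(0,65),(0,5),(0,17),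
  (10,7),(0,5),(7,11),(3,13),(4,12),(0,12)]⟩,⟨0,[(8,0)]⟩⟩,.a ⟨true,0,⟨0,[(1,0),(47,0)]⟩,⟨2,[(8,1),
  (0,0),(24,0),(13,0)]⟩⟩ ⟨false,1,⟨1,[(50,0),(0,0)]⟩,⟨0,[(53,0)]⟩⟩ ⟨true,0,⟨19,[(0,9),(0,9),(11,3),
  (22,7),(7,2),(2,3),(3,0)]⟩,⟨2,[(8,1),(0,0),(24,0),(13,0)]⟩⟩,.o ⟨false,1,⟨3,[(31,0),(0,0),(17,1)]⟩,
  ⟨0,[(23,0),(12,0),(12,0)]⟩⟩,.e ⟨false,1,⟨1,[(50,0),(0,0)]⟩,⟨5,[(13,1),(12,1),(4,0),(0,0)]⟩⟩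
  ⟨false,1,⟨3,[(0,1),(0,1),(29,0),(0,0),(11,0),(6,0)]⟩,⟨0,[(8,0)]⟩⟩]⟩) (.I [0,1,1,0,0,0,0,1,1] (.R
  ⟨1,false,false,true,[1,0,0,-1],[0,0,1],[1,0,0,0,0,0,0,0,-1],(⟨0,[(34,0)]⟩,⟨0,[(35,0)]⟩),(⟨0,[(44,
  0)]⟩,⟨0,[(43,0)]⟩),⟨0,[(8,0)]⟩,.k,.k,(.x (-1) ⟨11,[(20,3),(1,3),(9,4),(0,4),(11,1)]⟩ ⟨0,[(47,
  0)]⟩),.k,(.r 0 ⟨0,[(10,0),(17,0)]⟩ ⟨7,[(0,3),(14,3),(16,2),(0,4)]⟩),.k,⟨true,0,⟨13,[(1,0),(1,1),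
  (6,8),(2,0),(10,1),(3,9),(3,1),(1,0),(13,5)]⟩,⟨0,[(0,0)]⟩⟩,⟨false,0,⟨0,[(24,0),(9,0),(15,0)]⟩,⟨3,
  [(27,1),(7,3),(9,0),(5,2)]⟩⟩,⟨true,0,⟨0,[]⟩,⟨0,[(54,0)]⟩⟩,⟨true,0,⟨0,[(2,0),(35,0),(11,0)]⟩,⟨0,
  [(9,0),(26,0)]⟩⟩,⟨false,1,⟨19,[(11,3),(3,3),(8,3),(7,4),(0,4),(17,1),(0,7)]⟩,⟨0,[(50,0)]⟩⟩,⟨true,
  0,⟨0,[(2,0),(35,0)]⟩,⟨0,[(9,0),(8,0),(19,0)]⟩⟩,[.o ⟨false,0,⟨0,[(38,0)]⟩,⟨7,[(17,3),(14,0),(0,0),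
  (11,1),(6,3)]⟩⟩,.e ⟨true,0,⟨9,[(1,0),(8,8),(2,0),(1,1),(8,1),(9,0),(13,7)]⟩,⟨3,[(0,1),(13,0),(18,
  0),(2,0),(2,0)]⟩⟩ ⟨true,0,⟨19,[(0,1),(3,3),(9,7),(6,7),(10,0),(1,19),(2,1),(0,5),(6,2)]⟩,⟨0,[(0,
  0),(8,0),(8,0),(5,0)]⟩⟩,.o ⟨false,1,⟨1,[(35,1),(9,0),(5,0)]⟩,⟨0,[(24,0),(9,0),(2,0),(12,0)]⟩⟩,.a
  ⟨true,0,⟨0,[(35,0)]⟩,⟨0,[(34,0)]⟩⟩ ⟨false,1,⟨9,[(1,3),(17,1),(12,2),(1,3),(10,1),(5,0),(0,1)]⟩,⟨1,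
  [(0,0),(2,0),(3,0),(42,0)]⟩⟩ ⟨true,0,⟨0,[(34,0),(3,0)]⟩,⟨0,[(0,0),(8,0),(8,0),(5,0)]⟩⟩]⟩) (.Q [0,
  1,1,-2,0,0,0,0,1,0,0,-1] (.p false [0,0,0,1] [] (⟨0,[(35,0)]⟩,⟨0,[(34,0)]⟩) .k 0 (⟨0,[]⟩,⟨0,[]⟩)
  .k .k) (.Q [0,0,3,0,-1,0,0,0,0,0,0,-1] (.p false [0,0,0,1] [] (⟨0,[(36,0)]⟩,⟨0,[(35,0)]⟩) .k 0
  (⟨0,[]⟩,⟨0,[]⟩) .k .k) (.R ⟨1,false,false,false,[1,-1],[1,0,0,-1],[1],(⟨0,[(48,0)]⟩,⟨0,[(49,0)]⟩),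
  (⟨0,[(36,0)]⟩,⟨0,[(37,0)]⟩),⟨1,[(22,0),(1,0),(23,0)]⟩,.k,.k,(.r (-1) ⟨2,[(12,1),(8,1),(13,0)]⟩
  ⟨35,[(5,17),(10,7),(0,11),(7,5),(3,7),(2,5),(1,12),(0,12)]⟩),(.r (-1) ⟨2,[(12,0),(8,0),(13,1)]⟩
  ⟨67,[(0,9),(4,16),(5,9),(4,1),(0,7),(7,8),(3,1),(2,8),(1,28)]⟩),(.r (-2) ⟨15,[(6,7),(14,7),(11,3),
  (0,2),(0,10),(5,7),(5,1)]⟩ ⟨17,[(0,11),(2,11),(1,6),(6,3),(4,1),(7,4),(6,4),(1,0)]⟩),.k,⟨false,1,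
  ⟨1,[(35,0),(17,0)]⟩,⟨10,[(0,1),(1,0),(0,1),(8,3),(4,0),(16,1)]⟩⟩,⟨true,1,⟨0,[(37,0),(15,0)]⟩,⟨0,
  [(0,0)]⟩⟩,⟨false,0,⟨15,[(5,3),(10,0),(0,3),(11,0),(20,0),(3,4)]⟩,⟨31,[(6,7),(14,7),(11,3),(0,6),
  (0,6),(5,7),(5,1)]⟩⟩,⟨false,0,⟨0,[(3,0)]⟩,⟨11,[(1,7),(2,3),(29,2),(0,2),(11,1),(6,3)]⟩⟩,⟨false,0,
  ⟨10,[(5,2),(7,1),(3,4),(8,1),(27,2)]⟩,⟨47,[(1,15),(4,7),(14,23),(11,3),(0,10),(0,2),(1,15),(3,7),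
  (5,1)]⟩⟩,⟨true,0,⟨0,[(3,0),(47,0)]⟩,⟨0,[(1,0)]⟩⟩,[.a ⟨true,0,⟨1,[(3,0),(8,0),(24,0)]⟩,⟨1,[(1,0),
  (2,1),(6,0)]⟩⟩ ⟨true,0,⟨0,[]⟩,⟨5,[(16,1),(12,1),(4,0),(0,0)]⟩⟩ ⟨false,1,⟨1,[(3,0),(8,0),(24,0),
  (15,1)]⟩,⟨11,[(0,5),(0,1),(2,3),(30,2),(11,1),(6,0)]⟩⟩,.e ⟨false,1,⟨1,[(53,0),(0,0)]⟩,⟨0,[(56,
  0)]⟩⟩ ⟨false,1,⟨0,[(11,0),(41,0)]⟩,⟨31,[(0,15),(0,11),(2,3),(29,2),(0,10),(11,1),(3,19)]⟩⟩,.o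
  ⟨false,0,⟨1,[(1,0),(9,0),(14,1),(12,1)]⟩,⟨3,[(34,0),(0,0),(17,1)]⟩⟩,.o ⟨false,0,⟨11,[(16,7),(12,
  7),(4,0),(0,0),(11,5)]⟩,⟨0,[(53,0)]⟩⟩]⟩) (.R ⟨1,true,false,false,[1,-1],[1,0,0,-1],[1,0,-1,-1],
  (⟨0,[(48,0)]⟩,⟨0,[(49,0)]⟩),(⟨0,[(36,0)]⟩,⟨0,[(37,0)]⟩),⟨1,[(22,0),(1,0),(23,0)]⟩,.k,.k,(.r (-1)
  ⟨10,[(0,3),(0,3),(10,1),(8,5),(12,0)]⟩ ⟨35,[(5,17),(10,7),(0,11),(7,5),(3,7),(2,5),(1,12),(0,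
  12)]⟩),(.r (-1) ⟨15,[(0,3),(0,3),(19,3),(12,0),(0,6)]⟩ ⟨26,[(5,7),(6,4),(3,2),(0,6),(7,0),(3,2),
  (2,0),(1,10)]⟩),(.r (-2) ⟨7,[(0,3),(0,3),(19,3),(12,2),(0,4)]⟩ ⟨0,[(5,0),(6,0),(10,0)]⟩),.k,⟨true,
  1,⟨15,[(0,3),(0,3),(19,3),(12,0),(0,6)]⟩,⟨6,[(2,0),(2,3),(6,5),(1,1),(1,0),(6,4),(4,0),(0,0),(19,
  4)]⟩⟩,⟨false,1,⟨0,[(0,0)]⟩,⟨16,[(1,7),(3,3),(10,2),(0,3),(16,3),(1,8),(2,5),(7,2),(2,1)]⟩⟩,⟨true,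
  0,⟨0,[]⟩,⟨0,[(56,0)]⟩⟩,⟨false,0,⟨0,[(3,0)]⟩,⟨11,[(1,7),(2,3),(29,2),(0,2),(11,1),(6,3)]⟩⟩,⟨false,
  1,⟨19,[(13,3),(3,3),(8,3),(7,4),(0,4),(17,1),(0,7)]⟩,⟨0,[(52,0)]⟩⟩,⟨true,0,⟨0,[(3,0),(47,0)]⟩,⟨0,
  [(1,0)]⟩⟩,[]⟩)) (.I [0,1,0,-1,-1,0,0,0,-2] (.Q [0,0,-1,0,0,0,0,0,-1,-1,0,2] (.p true [0,0,0,1] [1,
  0,0,-1] (⟨0,[(37,0)]⟩,⟨0,[(36,0)]⟩) .k 2 (⟨0,[(36,0)]⟩,⟨0,[(37,0)]⟩) .k (.r (-1) ⟨0,[(35,0)]⟩ ⟨8,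
  [(0,3),(1,1),(14,1),(16,3)]⟩)) (.R ⟨1,false,false,false,[1,0,0,-1],[0,0,0,1],[0,1,0,-1,0,0,0,0,
  -1],(⟨0,[(37,0)]⟩,⟨0,[(38,0)]⟩),(⟨0,[(38,0)]⟩,⟨0,[(37,0)]⟩),⟨0,[(11,0)]⟩,.k,.k,(.x (-1) ⟨11,[(23,
  3),(1,3),(9,4),(0,4),(11,1)]⟩ ⟨0,[(50,0)]⟩),.k,(.r 0 ⟨8,[(1,4),(1,3),(3,2),(10,0),(16,1)]⟩ ⟨71,
  [(6,17),(10,7),(0,11),(7,5),(3,7),(2,5),(1,12),(0,84)]⟩),.k,⟨true,(-1),⟨0,[(1,0)]⟩,⟨15,[(6,3),(10,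
  0),(0,3),(11,0),(5,15),(14,0),(3,4)]⟩⟩,⟨false,0,⟨0,[(27,0),(9,1),(2,0),(12,0)]⟩,⟨1,[(0,1),(35,0),
  (17,0)]⟩⟩,⟨false,0,⟨0,[(53,0)]⟩,⟨11,[(2,3),(2,3),(29,2),(0,2),(11,1),(6,3)]⟩⟩,⟨false,1,⟨11,[(5,
  23),(11,7),(4,11),(7,7),(4,0),(0,0),(11,5)]⟩,⟨17,[(0,14),(0,4),(0,5),(0,4),(3,4),(18,2),(12,2)]⟩⟩,
  ⟨true,0,⟨0,[(57,0)]⟩,⟨0,[]⟩⟩,⟨false,1,⟨17,[(5,35),(4,1),(6,5),(4,7),(7,5),(4,0),(12,8),(6,3)]⟩,⟨2,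
  [(0,2),(0,0),(1,0),(3,0)]⟩⟩,[.a ⟨true,0,⟨0,[(5,0),(47,0)]⟩,⟨5,[(0,0),(11,2),(0,1),(14,0),(4,0),(4,
  0)]⟩⟩ ⟨false,0,⟨0,[(13,0)]⟩,⟨5,[(2,1),(2,1),(30,2),(11,0),(6,1)]⟩⟩ ⟨true,0,⟨0,[(5,0),(21,0),(9,0),
  (2,0),(12,1)]⟩,⟨0,[(0,0)]⟩⟩,.o ⟨false,1,⟨17,[(5,17),(4,1),(6,5),(4,7),(7,5),(4,0),(12,8),(6,3)]⟩,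
  ⟨5,[(0,2),(0,0),(1,0),(3,0),(18,2),(12,2)]⟩⟩,.o ⟨false,1,⟨7,[(0,3),(34,0),(0,2),(11,1),(5,1)]⟩,⟨0,
  [(27,0),(9,0),(2,0),(12,0)]⟩⟩,.e ⟨false,0,⟨2,[(1,0),(1,0),(3,0)]⟩,⟨47,[(6,11),(10,3),(0,11),(11,
  3),(4,10),(0,34),(18,17)]⟩⟩ ⟨false,1,⟨17,[(5,19),(11,5),(4,9),(7,5),(4,0),(1,15),(10,8),(6,3)]⟩,
  ⟨0,[(0,0)]⟩⟩]⟩) (.R ⟨1,false,false,false,[1,0,0,-1],[0,0,0,1],[0,1,0,-1,0,0,0,0,-1],(⟨0,[(37,0)]⟩,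
  ⟨0,[(38,0)]⟩),(⟨0,[(38,0)]⟩,⟨0,[(37,0)]⟩),⟨0,[(11,0)]⟩,.k,.k,(.x (-1) ⟨11,[(23,3),(1,3),(9,4),(0,
  4),(11,1)]⟩ ⟨0,[(50,0)]⟩),.k,(.r 0 ⟨8,[(1,4),(1,3),(3,2),(10,0),(16,1)]⟩ ⟨71,[(6,17),(10,7),(0,
  11),(7,5),(3,7),(2,5),(1,12),(0,84)]⟩),.k,⟨true,(-1),⟨0,[(1,0)]⟩,⟨15,[(6,3),(10,0),(0,3),(11,0),
  (5,15),(14,0),(3,4)]⟩⟩,⟨false,0,⟨8,[(0,8),(0,1),(1,0),(14,0),(16,1)]⟩,⟨0,[(12,1),(23,0),(2,0),(1,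
  0)]⟩⟩,⟨false,0,⟨0,[(53,0)]⟩,⟨11,[(2,3),(2,3),(29,2),(0,2),(11,1),(6,3)]⟩⟩,⟨false,1,⟨5,[(0,5),(16,
  1),(12,1),(4,0),(0,3),(18,2)]⟩,⟨0,[(12,1),(26,0),(1,0)]⟩⟩,⟨true,0,⟨0,[(57,0)]⟩,⟨0,[]⟩⟩,⟨false,1,
  ⟨11,[(0,5),(4,11),(11,1),(12,1),(4,0),(0,3),(11,2),(6,5)]⟩,⟨0,[(12,1),(8,0),(19,1)]⟩⟩,[.e ⟨false,
  0,⟨0,[(13,0)]⟩,⟨5,[(2,1),(2,1),(30,2),(11,0),(6,1)]⟩⟩ ⟨false,0,⟨0,[(0,0)]⟩,⟨3,[(2,0),(9,0),(0,1),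
  (24,5),(9,1),(5,1)]⟩⟩,.o ⟨false,1,⟨11,[(0,5),(16,1),(12,1),(4,0),(0,3),(11,2),(6,5)]⟩,⟨0,[(12,0),
  (26,0),(1,0)]⟩⟩,.o ⟨false,1,⟨1,[(38,1),(9,0),(5,0)]⟩,⟨87,[(0,43),(0,14),(4,4),(10,5),(6,4),(10,6),
  (4,11),(7,18),(2,4)]⟩⟩,.a ⟨true,0,⟨0,[(38,0)]⟩,⟨0,[(37,0)]⟩⟩ ⟨false,0,⟨2,[(1,0),(1,0),(3,0)]⟩,⟨47,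
  [(6,11),(10,3),(0,11),(11,3),(4,10),(0,34),(18,17)]⟩⟩ ⟨true,0,⟨0,[(0,0)]⟩,⟨0,[(12,0),(25,0),(0,0),
  (1,0)]⟩⟩]⟩)) (.I [0,0,2,0,-1,-2,1] (.K ⟨0,[1,1,-1],1,0,(⟨0,[(46,0),(3,0)]⟩,⟨0,[(23,0)]⟩),.k,.k,
  (.x (-2) ⟨7,[(29,3),(5,2),(0,2),(13,19),(3,9)]⟩ ⟨0,[(0,0)]⟩),.k,.k,[⟨0,[(15,0),(30,0),(3,1)]⟩,⟨0,
  [(7,0),(6,0)]⟩,⟨0,[(7,0),(9,0),(15,0)]⟩,⟨2,[(16,0),(9,0),(12,1)]⟩]⟩) (.I [0,0,1,0,0,0,0,0,1] (.Q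
  [0,0,0,1,0,0,0,0,0,1,0,-1] (.p false [0,0,0,1] [1] (⟨0,[(39,0)]⟩,⟨0,[(38,0)]⟩) .k 1 (⟨0,[]⟩,⟨0,
  []⟩) .k .k) (.Q [0,0,1,2,0,0,0,0,1,1,0,-1] (.p false [0,0,0,1] [1] (⟨0,[(40,0)]⟩,⟨0,[(39,0)]⟩) .k
  1 (⟨0,[]⟩,⟨0,[]⟩) .k .k) (.R ⟨1,false,false,true,[1,0,0,-1],[0,1],[1,0,0,0,0,0,0,0,-1],(⟨0,[(40,
  0)]⟩,⟨0,[(41,0)]⟩),(⟨0,[(53,0)]⟩,⟨0,[(52,0)]⟩),⟨0,[(14,0)]⟩,.k,.k,(.x (-1) ⟨11,[(26,3),(1,3),(9,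
  4),(0,4),(11,1)]⟩ ⟨0,[(53,0)]⟩),(.x (-1) ⟨11,[(26,3),(1,3),(9,4),(0,4),(11,1)]⟩ ⟨0,[(53,0)]⟩),(.r
  (-1) ⟨37,[(10,3),(5,19),(8,23),(11,1),(0,8),(6,3),(5,0)]⟩ ⟨17,[(9,8),(10,3),(0,5),(7,2),(3,3),(2,
  2),(1,1),(0,10)]⟩),.k,⟨false,1,⟨53,[(1,5),(3,5),(0,25),(3,21),(10,3),(3,17),(12,10),(12,2)]⟩,⟨0,
  [(2,0),(52,0)]⟩⟩,⟨true,0,⟨0,[(40,0)]⟩,⟨3,[(2,1),(12,1),(4,0),(20,1),(0,0),(0,1),(0,0),(6,0)]⟩⟩,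
  ⟨true,0,⟨0,[]⟩,⟨0,[(60,0)]⟩⟩,⟨false,0,⟨0,[(8,0)]⟩,⟨40,[(10,1),(4,22),(4,5),(3,0),(0,17),(12,8),(2,
  17),(1,9),(7,17)]⟩⟩,⟨false,1,⟨11,[(0,1),(3,3),(0,1),(32,3),(12,0),(6,2)]⟩,⟨0,[(56,0)]⟩⟩,⟨false,0,
  ⟨0,[(0,0)]⟩,⟨40,[(10,19),(4,24),(4,18),(3,9),(0,15),(12,7),(2,15),(1,17),(7,15)]⟩⟩,[.o ⟨false,0,
  ⟨0,[(55,0)]⟩,⟨17,[(13,1),(6,5),(4,7),(7,5),(4,0),(12,8),(6,3)]⟩⟩,.a ⟨true,0,⟨3,[(0,0),(14,0),(15,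
  0),(4,0),(3,1),(0,1)]⟩,⟨0,[(56,0)]⟩⟩ ⟨true,0,⟨17,[(6,7),(9,7),(3,0),(6,7),(5,0),(4,0),(15,4)]⟩,⟨0,
  [(2,0),(57,0)]⟩⟩ ⟨false,0,⟨0,[(1,0)]⟩,⟨5,[(16,1),(8,1),(13,0),(1,5),(9,2)]⟩⟩,.o ⟨false,1,⟨1,[(41,
  1),(9,0),(5,0)]⟩,⟨0,[(30,0),(9,0),(2,0),(12,0)]⟩⟩,.e ⟨false,1,⟨35,[(1,7),(3,7),(0,1),(14,1),(3,
  13),(12,12),(12,3),(6,4)]⟩,⟨0,[(2,0)]⟩⟩ ⟨false,0,⟨0,[(1,0)]⟩,⟨17,[(13,1),(6,5),(4,7),(7,5),(4,0),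
  (2,17),(9,8),(6,3)]⟩⟩]⟩) (.R ⟨1,true,false,true,[1,0,0,-1],[0,1],[1,0,0,0,0,0,0,0,-1],(⟨0,[(40,
  0)]⟩,⟨0,[(41,0)]⟩),(⟨0,[(53,0)]⟩,⟨0,[(52,0)]⟩),⟨0,[(14,0)]⟩,.k,.k,(.x (-1) ⟨11,[(26,3),(1,3),(9,
  4),(0,4),(11,1)]⟩ ⟨0,[(53,0)]⟩),(.x (-1) ⟨11,[(26,3),(1,3),(9,4),(0,4),(11,1)]⟩ ⟨0,[(53,0)]⟩),(.r
  (-1) ⟨37,[(10,3),(5,19),(8,23),(11,1),(0,8),(6,3),(5,0)]⟩ ⟨17,[(9,8),(10,3),(0,5),(7,2),(3,3),(2,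
  2),(1,1),(0,10)]⟩),.k,⟨false,1,⟨53,[(1,5),(3,5),(0,25),(3,21),(10,3),(3,17),(12,10),(12,2)]⟩,⟨0,
  [(2,0),(52,0)]⟩⟩,⟨true,0,⟨0,[(40,0)]⟩,⟨31,[(0,6),(1,6),(6,3),(10,4),(0,1),(7,1),(11,24),(1,11),(7,
  8)]⟩⟩,⟨true,0,⟨0,[]⟩,⟨0,[(60,0)]⟩⟩,⟨false,0,⟨0,[(8,0)]⟩,⟨7,[(0,5),(4,1),(32,1),(0,1),(11,0),(6,
  2)]⟩⟩,⟨false,1,⟨46,[(1,3),(2,18),(0,3),(13,1),(1,3),(8,3),(7,16),(12,0),(6,9)]⟩,⟨0,[(56,0)]⟩⟩,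
  ⟨true,0,⟨0,[(8,0),(46,0)]⟩,⟨0,[(0,0)]⟩⟩,[]⟩)) (.Q [0,0,-1,-2,0,0,0,0,-1,-1,0,1] (.p true [0,0,0,
  1] [1] (⟨0,[(40,0)]⟩,⟨0,[(39,0)]⟩) .k 1 (⟨0,[]⟩,⟨0,[]⟩) .k .k) (.R ⟨1,true,false,true,[1,0,0,-1],
  [0,1],[1,0,0,0,0,0,0,0,-1],(⟨0,[(40,0)]⟩,⟨0,[(41,0)]⟩),(⟨0,[(53,0)]⟩,⟨0,[(52,0)]⟩),⟨0,[(14,0)]⟩,
  .k,.k,(.x (-1) ⟨11,[(26,3),(1,3),(9,4),(0,4),(11,1)]⟩ ⟨0,[(53,0)]⟩),(.x (-1) ⟨11,[(26,3),(1,3),(9,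
  4),(0,4),(11,1)]⟩ ⟨0,[(53,0)]⟩),(.r (-1) ⟨37,[(10,3),(5,19),(8,23),(11,1),(0,8),(6,3),(5,0)]⟩ ⟨17,
  [(9,8),(10,3),(0,5),(7,2),(3,3),(2,2),(1,1),(0,10)]⟩),.k,⟨false,1,⟨23,[(6,13),(3,9),(10,3),(3,5),
  (12,4),(18,2)]⟩,⟨0,[(2,0),(52,0)]⟩⟩,⟨true,0,⟨0,[(40,0)]⟩,⟨29,[(1,6),(7,1),(10,5),(0,0),(7,0),(11,
  22),(1,12),(7,7)]⟩⟩,⟨true,0,⟨0,[]⟩,⟨0,[(60,0)]⟩⟩,⟨false,0,⟨0,[(8,0)]⟩,⟨7,[(0,5),(4,1),(32,1),(0,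
  1),(11,0),(6,2)]⟩⟩,⟨false,1,⟨16,[(4,5),(0,0),(2,0),(10,0),(1,1),(8,1),(7,5),(18,0),(0,3)]⟩,⟨0,
  [(56,0)]⟩⟩,⟨true,0,⟨0,[(8,0),(46,0)]⟩,⟨0,[(0,0)]⟩⟩,[]⟩) (.R ⟨1,false,false,true,[1,0,0,-1],[0,1],
  [1,0,0,0,0,0,0,0,-1],(⟨0,[(40,0)]⟩,⟨0,[(41,0)]⟩),(⟨0,[(53,0)]⟩,⟨0,[(52,0)]⟩),⟨0,[(14,0)]⟩,.k,.k,
  (.x (-1) ⟨11,[(26,3),(1,3),(9,4),(0,4),(11,1)]⟩ ⟨0,[(53,0)]⟩),(.x (-1) ⟨11,[(26,3),(1,3),(9,4),(0,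
  4),(11,1)]⟩ ⟨0,[(53,0)]⟩),(.r (-1) ⟨37,[(10,3),(5,19),(8,23),(11,1),(0,8),(6,3),(5,0)]⟩ ⟨17,[(9,
  8),(10,3),(0,5),(7,2),(3,3),(2,2),(1,1),(0,10)]⟩),.k,⟨false,1,⟨23,[(6,13),(3,9),(10,3),(3,5),(12,
  4),(18,2)]⟩,⟨0,[(2,0),(52,0)]⟩⟩,⟨true,0,⟨0,[(40,0)]⟩,⟨29,[(1,6),(7,1),(10,5),(0,0),(7,0),(11,22),
  (1,12),(7,7)]⟩⟩,⟨true,0,⟨0,[]⟩,⟨0,[(60,0)]⟩⟩,⟨false,0,⟨0,[(8,0)]⟩,⟨11,[(1,5),(11,1),(1,5),(9,1),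
  (12,3),(12,2),(6,0)]⟩⟩,⟨false,1,⟨11,[(0,1),(3,3),(0,1),(32,3),(12,0),(6,2)]⟩,⟨0,[(56,0)]⟩⟩,⟨false,
  0,⟨0,[(0,0)]⟩,⟨18,[(1,16),(13,1),(0,0),(8,9),(12,7),(12,0),(2,3)]⟩⟩,[.o ⟨false,0,⟨0,[(55,0)]⟩,⟨17,
  [(13,1),(6,5),(4,7),(7,5),(4,0),(12,8),(6,3)]⟩⟩,.e ⟨true,0,⟨17,[(6,7),(9,7),(3,0),(6,7),(5,0),(4,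
  0),(15,4)]⟩,⟨0,[(2,0),(57,0)]⟩⟩ ⟨true,0,⟨63,[(0,25),(8,2),(10,9),(0,1),(7,0),(3,9),(2,0),(1,12),
  (1,37)]⟩,⟨0,[(1,0)]⟩⟩,.o ⟨false,1,⟨1,[(41,1),(9,0),(5,0)]⟩,⟨0,[(30,0),(9,0),(2,0),(12,0)]⟩⟩,.a
  ⟨true,0,⟨0,[(41,0)]⟩,⟨0,[(40,0)]⟩⟩ ⟨false,1,⟨7,[(6,1),(14,1),(3,1),(12,2),(18,1),(0,0)]⟩,⟨0,[(2,
  0)]⟩⟩ ⟨true,0,⟨0,[(40,0),(14,0)]⟩,⟨0,[(1,0)]⟩⟩]⟩))) (.Q [0,0,-2,0,1,0,-1,0,0,-1,1,1] (.p true [0,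
  0,1] [1,0,0,-1] (⟨0,[(48,0)]⟩,⟨0,[(47,0)]⟩) .k 2 (⟨0,[(38,0)]⟩,⟨0,[(39,0)]⟩) .k (.r (-1) ⟨11,[(8,
  3),(10,3),(16,0),(0,6),(4,3),(2,3)]⟩ ⟨7,[(4,1),(9,1),(2,0),(0,1),(2,0),(14,1),(9,1)]⟩)) (.R ⟨1,
  false,false,false,[1,0,0,-1],[0,-1,1],[1,1,0,0,0,0,0,0,-1],(⟨0,[(39,0)]⟩,⟨0,[(40,0)]⟩),(⟨0,[(25,
  0)]⟩,⟨0,[(48,0),(3,0)]⟩),⟨0,[(13,0)]⟩,.k,.k,(.x (-1) ⟨11,[(25,3),(1,3),(9,4),(0,4),(11,1)]⟩ ⟨0,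
  [(52,0)]⟩),(.r 1 ⟨0,[(1,0),(6,0),(46,0)]⟩ ⟨11,[(9,7),(10,1),(16,4),(0,10),(4,1),(2,1)]⟩),.k,.k,
  ⟨true,(-1),⟨0,[(8,0),(6,0)]⟩,⟨11,[(9,7),(9,2),(6,3),(5,2),(5,5),(14,2),(3,0)]⟩⟩,⟨false,0,⟨7,[(19,
  3),(17,0),(0,0),(0,7),(10,1)]⟩,⟨0,[(0,0)]⟩⟩,⟨false,0,⟨0,[]⟩,⟨3,[(37,0),(0,0),(18,1)]⟩⟩,⟨false,1,
  ⟨23,[(7,23),(1,23),(9,19),(12,7),(4,0),(0,0),(11,5),(6,11)]⟩,⟨1,[(4,0),(9,0),(26,1)]⟩⟩,⟨true,0,⟨0,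
  [(54,0)]⟩,⟨0,[(55,0)]⟩⟩,⟨false,1,⟨23,[(7,23),(1,15),(9,11),(6,7),(10,2),(0,2),(11,5),(6,7)]⟩,⟨0,
  [(14,0),(26,0)]⟩⟩,[.a ⟨true,0,⟨2,[(7,0),(1,1),(4,0),(2,1),(25,0),(4,1),(3,3)]⟩,⟨4,[(7,0),(6,0),(1,
  1),(5,0),(21,0)]⟩⟩ ⟨false,0,⟨1,[(1,0),(13,0),(38,0)]⟩,⟨1,[(38,0),(18,0)]⟩⟩ ⟨true,0,⟨36,[(7,1),(1,
  22),(9,25),(6,6),(10,0),(1,34),(2,21),(0,6),(6,1)]⟩,⟨0,[(0,0),(7,0),(46,0)]⟩⟩,.o ⟨false,1,⟨23,[(9,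
  15),(9,11),(6,7),(10,2),(0,2),(11,5),(6,7)]⟩,⟨2,[(18,0),(9,0),(12,1)]⟩⟩,.o ⟨false,1,⟨15,[(0,7),
  (35,3),(0,0),(0,0),(1,7),(9,5)]⟩,⟨0,[(29,0),(9,0),(2,0),(12,0)]⟩⟩,.e ⟨false,0,⟨0,[(1,0)]⟩,⟨5,[(19,
  1),(12,1),(4,0),(0,3),(18,2)]⟩⟩ ⟨false,1,⟨7,[(7,1),(1,5),(9,3),(6,1),(10,0),(1,5),(10,1),(6,2)]⟩,
  ⟨0,[(0,0),(7,0),(46,0)]⟩⟩]⟩) (.K ⟨1,[1,-1,0,-1],0,0,(⟨0,[(13,0)]⟩,⟨0,[(40,0),(11,0)]⟩),(.x (-1)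
  ⟨11,[(25,3),(1,3),(9,4),(0,4),(11,1)]⟩ ⟨0,[(52,0)]⟩),(.r (-1) ⟨37,[(9,3),(5,19),(8,23),(11,1),(0,
  8),(6,3),(5,0)]⟩ ⟨17,[(8,8),(10,3),(0,5),(7,2),(3,3),(2,2),(1,1),(0,10)]⟩),.k,.k,.k,[⟨5,[(0,1),
  (36,0),(0,0),(0,3),(6,1)]⟩,⟨11,[(3,1),(8,1),(1,5),(4,4),(20,5),(0,4),(0,9),(0,4),(6,0)]⟩,⟨0,[(7,
  0),(51,0)]⟩,⟨0,[(14,0),(40,0)]⟩]⟩)))))))) (.Q [0,0,-2,0,1,0,-1,0,0,-1,1,1] (.p true [0,0,1] [1,0,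
  0,-1] (⟨0,[(42,0)]⟩,⟨0,[(41,0)]⟩) .k 2 (⟨0,[(32,0)]⟩,⟨0,[(33,0)]⟩) .k (.r (-1) ⟨11,[(2,3),(10,3),
  (16,0),(0,6),(4,3),(2,3)]⟩ ⟨3,[(8,1),(2,0),(0,0),(13,1),(3,0)]⟩)) (.Q [0,0,0,-1,0,0,1,1,0,1,-1]
  (.p false [0,0,1] [1] (⟨0,[(43,0)]⟩,⟨0,[(42,0)]⟩) .k 1 (⟨0,[]⟩,⟨0,[]⟩) .k .k) (.R ⟨1,false,false,
  false,[1,0,0,-1],[0,-1,1],[0,1,0,-1,0,0,0,0,-1],(⟨0,[(34,0)]⟩,⟨0,[(35,0)]⟩),(⟨0,[(20,0)]⟩,⟨0,[(43,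
  0),(3,0)]⟩),⟨0,[(8,0)]⟩,.k,.k,(.x (-1) ⟨11,[(20,3),(1,3),(9,4),(0,4),(11,1)]⟩ ⟨0,[(47,0)]⟩),(.r 1
  ⟨0,[(2,0),(0,0),(30,0)]⟩ ⟨15,[(0,1),(3,9),(10,1),(7,1),(3,1),(4,6),(0,14)]⟩),.k,.k,⟨true,(-1),⟨0,
  [(3,0),(6,0),(39,0)]⟩,⟨5,[(4,1),(16,3),(11,2),(18,0)]⟩⟩,⟨false,0,⟨7,[(14,3),(17,0),(0,0),(0,7),
  (10,1)]⟩,⟨0,[(1,0)]⟩⟩,⟨false,0,⟨0,[(50,0)]⟩,⟨19,[(11,3),(3,3),(8,3),(7,4),(0,4),(17,1),(0,7)]⟩⟩,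
  ⟨false,1,⟨9,[(0,9),(13,1),(18,4),(0,9),(2,3),(7,3),(2,1),(3,2)]⟩,⟨1,[(2,0),(6,0),(3,0),(35,0)]⟩⟩,
  ⟨true,0,⟨0,[(54,0)]⟩,⟨0,[]⟩⟩,⟨false,1,⟨15,[(0,7),(13,3),(6,7),(10,0),(0,8),(0,15),(10,5),(6,3)]⟩,
  ⟨2,[(2,1),(6,0),(3,0),(25,0)]⟩⟩,[.a ⟨true,0,⟨0,[(0,0)]⟩,⟨4,[(11,2),(6,0),(15,0),(0,0)]⟩⟩ ⟨false,0,
  ⟨0,[(10,0)]⟩,⟨9,[(11,1),(3,1),(8,1),(8,4),(17,0),(0,3)]⟩⟩ ⟨true,0,⟨6,[(0,1),(3,2),(9,3),(6,0),(12,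
  6),(2,3),(0,0),(6,0)]⟩,⟨0,[(1,0),(1,0),(46,0)]⟩⟩,.o ⟨false,1,⟨1,[(0,1),(44,0),(6,0)]⟩,⟨2,[(13,0),
  (9,0),(12,1)]⟩⟩,.o ⟨false,1,⟨15,[(1,7),(29,3),(0,0),(0,0),(1,7),(9,5)]⟩,⟨0,[(24,0),(9,0),(2,0),
  (12,0)]⟩⟩,.e ⟨false,0,⟨0,[(2,0),(31,0)]⟩,⟨47,[(3,11),(10,3),(0,11),(11,3),(4,10),(0,34),(18,
  17)]⟩⟩ ⟨false,1,⟨1,[(0,1),(33,1),(10,0),(6,0)]⟩,⟨0,[(1,0),(1,0),(46,0)]⟩⟩]⟩) (.R ⟨1,false,false,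
  false,[1,0,0,-1],[0,-1,1],[1,0,0,0,0,0,0,0,-1],(⟨0,[(34,0)]⟩,⟨0,[(35,0)]⟩),(⟨0,[(20,0)]⟩,⟨0,[(43,
  0),(3,0)]⟩),⟨0,[(8,0)]⟩,.k,.k,(.x (-1) ⟨11,[(20,3),(1,3),(9,4),(0,4),(11,1)]⟩ ⟨0,[(47,0)]⟩),(.r 1
  ⟨0,[(2,0),(0,0),(30,0)]⟩ ⟨11,[(4,7),(10,1),(16,4),(0,10),(4,1),(2,1)]⟩),.k,.k,⟨true,(-1),⟨0,[(2,
  0),(0,0),(30,0)]⟩,⟨59,[(4,35),(9,15),(6,11),(5,15),(4,4),(0,34),(4,11),(2,11)]⟩⟩,⟨false,0,⟨7,[(14,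
  3),(17,0),(0,0),(0,7),(10,1)]⟩,⟨0,[(1,0)]⟩⟩,⟨true,0,⟨0,[]⟩,⟨0,[(54,0)]⟩⟩,⟨false,1,⟨23,[(4,15),(9,
  19),(6,7),(5,7),(4,0),(0,12),(0,23),(10,5),(6,7)]⟩,⟨1,[(2,0),(6,0),(3,0),(35,0)]⟩⟩,⟨false,1,⟨19,
  [(11,3),(3,3),(8,3),(7,4),(0,4),(17,1),(0,7)]⟩,⟨0,[(50,0)]⟩⟩,⟨false,1,⟨23,[(4,7),(9,11),(6,15),
  (10,2),(0,14),(0,23),(10,5),(6,3)]⟩,⟨2,[(2,1),(6,0),(3,0),(25,0)]⟩⟩,[.o ⟨false,1,⟨14,[(4,8),(9,6),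
  (6,2),(5,0),(4,4),(0,4),(4,2),(6,2)]⟩,⟨0,[(0,0)]⟩⟩,.o ⟨false,1,⟨23,[(4,15),(9,11),(6,7),(10,2),(0,
  2),(11,5),(6,7)]⟩,⟨2,[(13,0),(9,0),(12,1)]⟩⟩,.o ⟨false,1,⟨15,[(1,7),(29,3),(0,0),(0,0),(1,7),(9,
  5)]⟩,⟨4,[(0,1),(13,0),(19,4),(2,1),(0,1),(6,0),(2,0),(1,1)]⟩⟩,.a ⟨true,0,⟨0,[(35,0)]⟩,⟨0,[(34,
  0)]⟩⟩ ⟨true,0,⟨2,[(0,0),(1,1),(6,0),(13,0),(10,2)]⟩,⟨1,[(3,0),(26,0),(2,0),(4,0),(11,2)]⟩⟩ ⟨false,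
  1,⟨23,[(4,15),(9,11),(6,7),(10,2),(0,2),(0,23),(10,5),(6,7)]⟩,⟨0,[(0,0),(34,0)]⟩⟩]⟩)) (.R ⟨2,true,
  false,false,[0,1],[1,0,0,-1],[0,1,1],(⟨0,[]⟩,⟨0,[]⟩),(⟨0,[(33,0)]⟩,⟨0,[(34,0)]⟩),⟨0,[]⟩,.k,.k,.k,
  (.x 0 ⟨0,[(46,0)]⟩ ⟨11,[(19,3),(1,3),(9,4),(0,4),(11,1)]⟩),.k,.k,⟨true,0,⟨1,[(2,0),(26,0),(2,0),
  (4,0),(11,2)]⟩,⟨10,[(0,1),(0,5),(6,2),(3,0),(1,1),(16,0),(1,6),(10,0),(2,2)]⟩⟩,⟨false,1,⟨1,[(34,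
  1),(9,0),(5,0)]⟩,⟨0,[(33,0)]⟩⟩,⟨false,0,⟨0,[(49,0)]⟩,⟨19,[(10,3),(3,3),(8,3),(7,4),(0,4),(17,1),
  (0,7)]⟩⟩,⟨true,0,⟨0,[(1,0)]⟩,⟨1,[(0,0),(28,0),(2,0),(0,0),(14,0)]⟩⟩,⟨true,0,⟨0,[(53,0)]⟩,⟨0,[]⟩⟩,
  ⟨false,1,⟨3,[(8,3),(22,0),(0,0),(11,1)]⟩,⟨0,[(0,0),(5,0),(22,0)]⟩⟩,[]⟩)))))))) (.Q [0,0,0,1,0,0,1,
  1,0,0,-1,1] (.p false [0,0,1] [0,0,0,1] (⟨0,[(36,0)]⟩,⟨0,[(35,0)]⟩) .k 2 (⟨0,[(27,0)]⟩,⟨0,[(26,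
  0)]⟩) .k (.r 0 ⟨0,[(2,0),(10,0)]⟩ ⟨3,[(24,0),(0,2),(8,3)]⟩)) (.I [0,0,2,1,-1,0,0,-1] (.Q [0,1,1,
  -1,0,0,-1,-1,1,0,1,-1] (.p true [0,0,1] [0,0,0,1] (⟨0,[(38,0)]⟩,⟨0,[(37,0)]⟩) .k 2 (⟨0,[(29,0)]⟩,
  ⟨0,[(28,0)]⟩) .k (.r 0 ⟨0,[(4,0),(10,0)]⟩ ⟨3,[(26,0),(0,2),(8,3)]⟩)) (.R ⟨0,false,false,true,[1,0,
  0,-1],[1,-1,-1],[1,1],(⟨0,[(29,0)]⟩,⟨0,[(30,0)]⟩),(⟨0,[(24,0)]⟩,⟨0,[(39,0),(2,0)]⟩),⟨0,[(3,0)]⟩,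
  .k,.k,(.x (-1) ⟨11,[(15,3),(1,3),(9,4),(0,4),(11,1)]⟩ ⟨0,[(42,0)]⟩),(.r 0 ⟨12,[(5,6),(3,2),(0,6),
  (5,3),(5,2),(2,1),(1,2),(5,1)]⟩ ⟨3,[(14,1),(11,0),(1,1),(2,0),(2,0),(2,1)]⟩),.k,.k,⟨true,0,⟨1,
  [(10,0),(22,0),(2,0)]⟩,⟨11,[(5,1),(3,2),(3,5),(0,1),(11,2),(1,0)]⟩⟩,⟨false,0,⟨0,[(29,0),(2,0)]⟩,
  ⟨6,[(3,3),(3,0),(9,0),(8,2),(3,2),(15,7)]⟩⟩,⟨false,1,⟨3,[(27,0),(0,2)]⟩,⟨8,[(4,0),(0,7),(2,0),(1,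
  1),(8,1),(9,0),(13,6)]⟩⟩,⟨true,0,⟨0,[(0,0)]⟩,⟨0,[(4,0),(13,0)]⟩⟩,⟨false,0,⟨0,[]⟩,⟨0,[]⟩⟩,⟨false,0,
  ⟨0,[]⟩,⟨0,[]⟩⟩,[.o ⟨false,0,⟨0,[(13,0),(19,0)]⟩,⟨0,[(18,0),(28,0)]⟩⟩,.e ⟨true,0,⟨0,[]⟩,⟨5,[(9,1),
  (12,1),(4,0),(0,0)]⟩⟩ ⟨true,0,⟨36,[(0,14),(4,10),(3,4),(3,10),(13,1),(1,21),(2,9),(7,2),(2,12)]⟩,
  ⟨0,[(2,0)]⟩⟩,.o ⟨false,1,⟨1,[(30,1),(9,0),(5,0)]⟩,⟨0,[(19,0),(9,0),(2,0),(12,0)]⟩⟩,.a ⟨true,0,⟨0,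
  [(30,0)]⟩,⟨0,[(29,0)]⟩⟩ ⟨false,1,⟨3,[(27,0),(0,0),(17,1)]⟩,⟨3,[(9,0),(12,0),(20,0),(3,0)]⟩⟩ ⟨true,
  0,⟨0,[(13,0),(15,0),(3,0)]⟩,⟨0,[(2,0)]⟩⟩]⟩) (.Q [0,0,-2,0,1,0,-1,0,0,0,1] (.p true [0,0,1] [] (⟨0,
  [(39,0)]⟩,⟨0,[(38,0)]⟩) .k 0 (⟨0,[]⟩,⟨0,[]⟩) .k .k) (.Q [0,0,-2,0,1,0,-1,0,0,-1,1,1] (.p true [0,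
  0,1] [1,0,0,-1] (⟨0,[(40,0)]⟩,⟨0,[(39,0)]⟩) .k 2 (⟨0,[(30,0)]⟩,⟨0,[(31,0)]⟩) .k (.r (-1) ⟨19,[(0,
  3),(14,3),(1,7),(10,0),(0,10),(4,11),(2,7)]⟩ ⟨3,[(6,1),(2,0),(0,0),(13,1),(3,0)]⟩)) (.R ⟨0,false,
  false,false,[1,0,0,-1],[0,-1,1],[1,1,1],(⟨0,[(31,0)]⟩,⟨0,[(32,0)]⟩),(⟨0,[(17,0)]⟩,⟨0,[(40,0),(3,
  0)]⟩),⟨0,[(5,0)]⟩,.k,.k,(.x (-1) ⟨11,[(17,3),(1,3),(9,4),(0,4),(11,1)]⟩ ⟨0,[(44,0)]⟩),(.r 1 ⟨0,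
  [(2,0),(0,0),(11,0),(15,0),(3,0)]⟩ ⟨59,[(1,15),(14,35),(1,11),(10,18),(0,48),(4,47),(2,31)]⟩),.k,
  .k,⟨true,(-1),⟨0,[(3,0),(47,0)]⟩,⟨29,[(1,3),(14,23),(1,17),(10,0),(0,0),(4,11),(2,7)]⟩⟩,⟨false,0,
  ⟨7,[(11,3),(17,0),(0,0),(0,7),(10,1)]⟩,⟨0,[(0,0)]⟩⟩,⟨true,0,⟨1,[(3,0),(23,0),(2,0),(4,0),(11,1)]⟩,
  ⟨0,[(2,0),(12,0),(15,0),(3,0)]⟩⟩,⟨false,1,⟨17,[(11,11),(4,9),(1,1),(5,9),(5,8),(0,17),(2,1),(0,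
  15),(13,10)]⟩,⟨4,[(2,0),(1,0),(1,2),(0,0),(2,1),(22,2)]⟩⟩,⟨false,0,⟨0,[]⟩,⟨0,[]⟩⟩,⟨false,0,⟨0,[]⟩,
  ⟨0,[]⟩⟩,[.a ⟨true,0,⟨0,[(4,0),(26,0),(15,1)]⟩,⟨4,[(8,2),(6,0),(15,0),(0,0)]⟩⟩ ⟨false,0,⟨0,[(51,
  0)]⟩,⟨1,[(48,0),(0,0)]⟩⟩ ⟨true,0,⟨8,[(11,5),(4,4),(1,0),(5,4),(6,8),(2,0),(0,7),(13,0)]⟩,⟨7,[(0,
  0),(4,3),(3,0),(0,3),(8,0),(12,2)]⟩⟩,.o ⟨false,1,⟨23,[(11,7),(4,11),(7,7),(4,0),(0,0),(4,23),(13,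
  17)]⟩,⟨2,[(10,0),(9,0),(12,1)]⟩⟩,.o ⟨false,1,⟨15,[(0,7),(27,3),(0,0),(0,0),(1,7),(9,5)]⟩,⟨0,[(21,
  0),(9,0),(2,0),(12,0)]⟩⟩,.e ⟨false,0,⟨0,[]⟩,⟨3,[(29,0),(0,0),(18,1)]⟩⟩ ⟨false,1,⟨23,[(11,7),(4,
  11),(7,7),(4,0),(0,0),(0,23),(3,23),(13,17)]⟩,⟨7,[(0,0),(4,3),(3,0),(0,3),(8,0),(12,2)]⟩⟩]⟩) (.K
  ⟨0,[1,1,-1],1,0,(⟨0,[(40,0),(3,0)]⟩,⟨0,[(17,0)]⟩),.k,.k,(.r 1 ⟨1,[(0,0),(2,0),(0,0),(5,0)]⟩ ⟨2,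
  [(1,0),(14,2),(12,0),(0,0),(4,2),(2,1)]⟩),.k,.k,[⟨0,[(0,0),(31,0)]⟩,⟨0,[(1,0)]⟩,⟨0,[(31,0),(0,0),
  (2,0),(11,0)]⟩,⟨2,[(10,0),(9,0),(12,1)]⟩]⟩)) (.R ⟨0,false,false,false,[1,0,0,-1],[0,0,0,1],[1,0,0,
  0,0,0,0,0,1],(⟨0,[(30,0)]⟩,⟨0,[(31,0)]⟩),(⟨0,[(31,0)]⟩,⟨0,[(30,0)]⟩),⟨0,[(4,0)]⟩,.k,.k,(.x (-1)
  ⟨11,[(16,3),(1,3),(9,4),(0,4),(11,1)]⟩ ⟨0,[(43,0)]⟩),.k,.k,.k,⟨true,0,⟨0,[]⟩,⟨5,[(10,1),(12,1),(4,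
  0),(0,0)]⟩⟩,⟨false,0,⟨4,[(0,1),(22,0),(6,9),(10,1)]⟩,⟨2,[(3,3),(9,0),(1,1),(15,1),(0,1),(14,0)]⟩⟩,
  ⟨true,1,⟨0,[(29,0)]⟩,⟨0,[(0,0),(0,1),(12,1),(11,0),(3,1),(3,1),(11,0)]⟩⟩,⟨false,1,⟨9,[(0,7),(22,
  3),(5,9),(0,19),(10,2),(6,4)]⟩,⟨5,[(1,2),(1,0),(0,2),(0,4),(0,3),(9,0),(1,0),(13,3)]⟩⟩,⟨false,0,
  ⟨0,[]⟩,⟨0,[]⟩⟩,⟨false,0,⟨0,[]⟩,⟨0,[]⟩⟩,[.o ⟨false,1,⟨5,[(10,1),(12,1),(4,0),(0,3),(0,5),(10,2)]⟩,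
  ⟨0,[(1,0),(12,0),(19,0)]⟩⟩,.o ⟨false,1,⟨9,[(0,3),(22,1),(5,4),(0,9),(10,3),(6,4)]⟩,⟨6,[(1,2),(1,
  0),(0,2),(1,3),(9,0),(1,0),(13,4),(1,0)]⟩⟩,.o ⟨false,1,⟨1,[(31,1),(9,0),(5,0)]⟩,⟨4,[(0,1),(22,0),
  (6,4),(10,1)]⟩⟩,.a ⟨true,0,⟨0,[(31,0)]⟩,⟨0,[(30,0)]⟩⟩ ⟨true,1,⟨1,[(29,0),(17,0)]⟩,⟨0,[(0,0),(0,0),
  (12,0),(11,0),(3,0),(3,0),(11,0)]⟩⟩ ⟨false,1,⟨9,[(0,3),(22,1),(5,4),(0,19),(10,3),(6,4)]⟩,⟨2,[(3,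
  0),(0,2),(0,1),(0,0),(9,0),(1,0),(13,0)]⟩⟩]⟩))) (.K ⟨0,[1,1,-1],1,0,(⟨0,[(37,0),(3,0)]⟩,⟨0,[(14,
  0)]⟩),.k,.k,(.r 0 ⟨47,[(7,29),(0,37),(0,11),(11,7),(4,18),(0,18),(15,11)]⟩ ⟨0,[(0,0),(43,0)]⟩),.k,
  .k,[⟨0,[(6,0),(30,0),(3,1)]⟩,⟨1,[(0,0),(4,0),(7,0),(10,0)]⟩,⟨0,[(28,0),(0,0),(2,0),(11,0)]⟩,⟨2,
  [(7,0),(9,0),(12,1)]⟩]⟩)) (.Q [0,0,0,-1,0,0,-1,-1,0,-1,1] (.p true [0,0,1] [1] (⟨0,[(37,0)]⟩,⟨0,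
  [(36,0)]⟩) .k 1 (⟨0,[]⟩,⟨0,[]⟩) .k .k) (.Q [0,0,0,-1,0,0,0,0,0,-1,0,1] (.p true [0,0,0,1] [1] (⟨0,
  [(29,0)]⟩,⟨0,[(28,0)]⟩) .k 1 (⟨0,[]⟩,⟨0,[]⟩) .k .k) (.Q [0,1,1,1,0,0,0,0,1,1,0,-1] (.p false [0,0,
  0,1] [1] (⟨0,[(30,0)]⟩,⟨0,[(29,0)]⟩) .k 1 (⟨0,[]⟩,⟨0,[]⟩) .k .k) (.R ⟨0,false,false,true,[1,0,0,
  -1],[0,1],[1,1],(⟨0,[(30,0)]⟩,⟨0,[(31,0)]⟩),(⟨0,[(43,0)]⟩,⟨0,[(42,0)]⟩),⟨0,[(4,0)]⟩,.k,.k,(.x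
  (-1) ⟨11,[(16,3),(1,3),(9,4),(0,4),(11,1)]⟩ ⟨0,[(43,0)]⟩),(.x (-1) ⟨11,[(16,3),(1,3),(9,4),(0,4),
  (11,1)]⟩ ⟨0,[(43,0)]⟩),.k,.k,⟨false,1,⟨5,[(6,1),(8,1),(13,0),(17,2)]⟩,⟨63,[(0,13),(8,7),(0,13),(0,
  15),(11,5),(4,6),(2,13),(9,6),(3,1)]⟩⟩,⟨true,0,⟨0,[(30,0)]⟩,⟨20,[(4,4),(3,1),(1,3),(11,0),(8,15),
  (1,7),(7,5)]⟩⟩,⟨false,1,⟨3,[(28,0),(0,2)]⟩,⟨27,[(3,9),(1,9),(0,15),(3,1),(0,9),(8,5),(7,0),(12,0),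
  (2,11)]⟩⟩,⟨true,0,⟨0,[(0,0)]⟩,⟨0,[(2,0),(2,0),(28,0)]⟩⟩,⟨false,0,⟨0,[]⟩,⟨0,[]⟩⟩,⟨false,0,⟨0,[]⟩,
  ⟨0,[]⟩⟩,[.o ⟨false,0,⟨0,[(45,0)]⟩,⟨23,[(10,7),(4,11),(7,7),(4,0),(0,0),(11,11),(6,5)]⟩⟩,.e ⟨true,
  0,⟨0,[]⟩,⟨5,[(10,1),(12,1),(4,0),(0,0)]⟩⟩ ⟨true,0,⟨17,[(0,5),(8,1),(0,2),(0,3),(11,0),(4,2),(1,
  11),(13,0)]⟩,⟨0,[(1,0)]⟩⟩,.o ⟨false,1,⟨1,[(31,1),(9,0),(5,0)]⟩,⟨3,[(3,1),(6,0),(0,0),(18,1),(2,0),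
  (0,0),(6,0)]⟩⟩,.a ⟨true,0,⟨0,[(31,0)]⟩,⟨0,[(30,0)]⟩⟩ ⟨false,1,⟨3,[(28,0),(0,0),(17,1)]⟩,⟨3,[(10,
  0),(12,0),(20,0),(3,0)]⟩⟩ ⟨true,0,⟨0,[(30,0),(14,0)]⟩,⟨0,[(1,0)]⟩⟩]⟩) (.K ⟨0,[1,1,-1],1,0,(⟨0,
  [(39,0),(3,0)]⟩,⟨0,[(16,0)]⟩),.k,.k,(.r 0 ⟨47,[(9,29),(0,37),(0,11),(11,7),(4,18),(0,18),(15,
  11)]⟩ ⟨0,[(0,1),(25,0),(2,0),(0,1),(3,0),(11,0)]⟩),.k,.k,[⟨0,[(8,0),(30,0),(3,1)]⟩,⟨2,[(0,1),(6,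
  0),(7,1),(3,0),(6,2),(2,0),(0,1)]⟩,⟨0,[(30,0),(0,0),(2,0),(11,0)]⟩,⟨2,[(9,0),(9,0),(12,1)]⟩]⟩))
  (.R ⟨0,false,false,true,[1,0,0,-1],[0,1],[1,1],(⟨0,[(29,0)]⟩,⟨0,[(30,0)]⟩),(⟨0,[(42,0)]⟩,⟨0,[(41,
  0)]⟩),⟨0,[(3,0)]⟩,.k,.k,(.x (-1) ⟨11,[(15,3),(1,3),(9,4),(0,4),(11,1)]⟩ ⟨0,[(42,0)]⟩),(.x (-1)
  ⟨11,[(15,3),(1,3),(9,4),(0,4),(11,1)]⟩ ⟨0,[(42,0)]⟩),.k,.k,⟨false,1,⟨5,[(5,1),(8,1),(13,0),(17,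
  2)]⟩,⟨47,[(8,5),(0,13),(0,11),(11,7),(4,6),(0,6),(15,11)]⟩⟩,⟨true,0,⟨0,[(29,0)]⟩,⟨20,[(3,4),(3,1),
  (1,3),(11,0),(8,15),(1,7),(7,5)]⟩⟩,⟨false,1,⟨3,[(27,0),(0,2)]⟩,⟨27,[(2,9),(1,9),(0,15),(3,1),(0,
  9),(8,5),(7,0),(12,0),(2,11)]⟩⟩,⟨true,0,⟨1,[(0,0),(1,0),(4,0),(10,0),(6,0),(2,0),(9,0),(3,1)]⟩,⟨0,
  [(1,0),(2,0),(28,0)]⟩⟩,⟨false,0,⟨0,[]⟩,⟨0,[]⟩⟩,⟨false,0,⟨0,[]⟩,⟨0,[]⟩⟩,[.o ⟨false,0,⟨0,[(44,0)]⟩,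
  ⟨23,[(9,7),(4,11),(7,7),(4,0),(0,0),(11,11),(6,5)]⟩⟩,.a ⟨true,0,⟨0,[(0,0),(29,0)]⟩,⟨0,[(45,0)]⟩⟩
  ⟨true,0,⟨0,[]⟩,⟨5,[(9,1),(12,1),(4,0),(0,0)]⟩⟩ ⟨false,0,⟨0,[(0,0)]⟩,⟨5,[(5,1),(8,1),(13,0),(1,5),
  (9,2)]⟩⟩,.o ⟨false,1,⟨1,[(30,1),(9,0),(5,0)]⟩,⟨3,[(2,1),(6,0),(0,0),(18,1),(2,0),(0,0),(6,0)]⟩⟩,
  .e ⟨false,1,⟨3,[(27,0),(0,0),(17,1)]⟩,⟨3,[(9,0),(12,0),(20,0),(3,0)]⟩⟩ ⟨false,0,⟨0,[(0,0)]⟩,⟨23,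
  [(9,7),(4,11),(7,7),(4,0),(0,0),(1,23),(9,11),(6,5)]⟩⟩]⟩)) (.R ⟨0,false,false,true,[1,0,0,-1],[1,
  -1,-1],[0,1,0,-1,0,0,0,-1],(⟨0,[(28,0)]⟩,⟨0,[(29,0)]⟩),(⟨0,[(23,0)]⟩,⟨0,[(38,0),(2,0)]⟩),⟨0,[(2,
  0)]⟩,.k,.k,(.x (-1) ⟨11,[(14,3),(1,3),(9,4),(0,4),(11,1)]⟩ ⟨0,[(41,0)]⟩),(.r 0 ⟨12,[(0,1),(3,6),
  (3,2),(0,8),(11,4),(4,2),(5,1)]⟩ ⟨3,[(13,1),(11,0),(1,1),(2,0),(2,0),(2,1)]⟩),.k,.k,⟨true,0,⟨5,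
  [(8,1),(12,1),(4,0),(0,0)]⟩,⟨0,[]⟩⟩,⟨false,0,⟨0,[(28,0),(2,0)]⟩,⟨6,[(2,3),(3,0),(9,0),(8,2),(3,2),
  (15,7)]⟩⟩,⟨false,1,⟨23,[(8,7),(3,7),(0,7),(11,3),(0,4),(0,16),(5,7),(5,1)]⟩,⟨0,[(1,0),(1,0),(5,0),
  (22,0)]⟩⟩,⟨true,0,⟨1,[(1,2),(0,0),(3,0),(17,0),(2,0),(4,0),(4,0),(3,0)]⟩,⟨0,[(3,0),(13,0)]⟩⟩,
  ⟨false,0,⟨0,[]⟩,⟨0,[]⟩⟩,⟨false,0,⟨0,[]⟩,⟨0,[]⟩⟩,[.o ⟨false,0,⟨0,[(12,0),(19,0)]⟩,⟨0,[(17,0),(28,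
  0)]⟩⟩,.a ⟨true,0,⟨0,[(1,0),(27,0)]⟩,⟨0,[(0,0)]⟩⟩ ⟨true,0,⟨11,[(4,1),(3,2),(3,5),(0,1),(11,2),(1,
  0)]⟩,⟨1,[(9,0),(22,0),(2,0)]⟩⟩ ⟨false,0,⟨0,[(1,0)]⟩,⟨3,[(3,3),(13,3),(8,0),(0,2)]⟩⟩,.o ⟨false,1,
  ⟨1,[(29,1),(9,0),(5,0)]⟩,⟨3,[(1,1),(6,0),(0,0),(18,1),(2,0),(0,0),(6,0)]⟩⟩,.e ⟨false,1,⟨15,[(13,
  7),(11,3),(0,2),(0,2),(5,7),(2,7),(2,1)]⟩,⟨0,[(15,0)]⟩⟩ ⟨false,0,⟨0,[(1,0)]⟩,⟨0,[(17,0),(11,0),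
  (16,0)]⟩⟩]⟩)))))

theorem ok84 : chk (cU (-1) true 10) t84 r54 = true := by decide +kernel

noncomputable def t108 : Tre :=
  (.Q [0,0,0,1,0,0,0,0,0,1,0,-1] (.p false [0,0,0,1] [1] (⟨0,[(26,0)]⟩,⟨0,[(25,0)]⟩) .k 1 (⟨0,[]⟩,
  ⟨0,[]⟩) .k .k) (.Q [0,0,0,0,0,-1,0,0,0,1,0,-1] (.ed true [0,1,0,1] .k) (.R ⟨1,false,false,true,[1,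
  0,0,-1],[0,1],[1,1,0,0,0,0,0,0,-1],(⟨0,[(27,0)]⟩,⟨0,[(28,0)]⟩),(⟨0,[(40,0)]⟩,⟨0,[(39,0)]⟩),⟨0,[(0,
  0)]⟩,.k,.k,(.x (-1) ⟨15,[(6,3),(8,3),(9,6),(0,6),(11,1)]⟩ ⟨0,[(40,0)]⟩),(.x (-1) ⟨15,[(6,3),(8,3),
  (9,6),(0,6),(11,1)]⟩ ⟨0,[(40,0)]⟩),(.r (-1) ⟨0,[(4,0),(7,0),(34,0)]⟩ ⟨17,[(3,17),(1,4),(2,9),(8,
  0),(0,4),(14,3),(7,3)]⟩),.k,⟨false,1,⟨1,[(4,1),(7,0),(31,0),(2,0)]⟩,⟨11,[(2,8),(0,2),(1,1),(10,3),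
  (1,1),(4,1),(4,8)]⟩⟩,⟨true,0,⟨0,[(27,0)]⟩,⟨0,[(17,0),(10,0),(1,0),(12,0)]⟩⟩,⟨false,0,⟨0,[]⟩,⟨3,
  [(25,0),(0,0),(18,1)]⟩⟩,⟨false,0,⟨1,[(1,1),(0,0),(0,0),(24,0)]⟩,⟨0,[(4,0),(7,0),(4,0),(10,0),(1,
  0)]⟩⟩,⟨true,0,⟨0,[(42,0)]⟩,⟨0,[(43,0)]⟩⟩,⟨false,0,⟨0,[(2,0),(15,0),(4,0)]⟩,⟨0,[(4,0),(7,0),(4,0),
  (10,0),(1,0),(12,0)]⟩⟩,[.o ⟨false,0,⟨0,[(42,0)]⟩,⟨3,[(12,1),(17,1),(2,1),(4,0),(6,0)]⟩⟩,.a ⟨true,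
  0,⟨0,[(1,0),(26,0)]⟩,⟨0,[(43,0)]⟩⟩ ⟨true,0,⟨0,[(4,0)]⟩,⟨1,[(2,0),(0,0),(24,0)]⟩⟩ ⟨false,0,⟨0,[(1,
  0)]⟩,⟨1,[(12,0),(15,1),(9,0),(8,0)]⟩⟩,.o ⟨false,1,⟨1,[(28,1),(9,0),(5,0)]⟩,⟨3,[(2,1),(1,1),(22,1),
  (1,0),(0,0),(0,0),(1,0)]⟩⟩,.e ⟨false,1,⟨1,[(25,0),(18,0)]⟩,⟨0,[(2,0),(25,0)]⟩⟩ ⟨false,0,⟨0,[(1,
  0)]⟩,⟨3,[(12,1),(15,3),(1,1),(2,1),(4,0),(6,0)]⟩⟩]⟩) (.I [0,0,0,0,0,0,0,0,-1] (.R ⟨0,false,false,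
  true,[1,0,0,-1],[0,1],[0,1,0,0,0,0,0,0,-1],(⟨0,[(28,0)]⟩,⟨0,[(29,0)]⟩),(⟨0,[(41,0)]⟩,⟨0,[(40,
  0)]⟩),⟨0,[(1,0)]⟩,.k,.k,(.x (-1) ⟨15,[(7,3),(8,3),(9,6),(0,6),(11,1)]⟩ ⟨0,[(41,0)]⟩),(.x (-1) ⟨15,
  [(7,3),(8,3),(9,6),(0,6),(11,1)]⟩ ⟨0,[(41,0)]⟩),.k,.k,⟨false,1,⟨1,[(5,1),(7,0),(31,0),(2,0)]⟩,⟨11,
  [(3,8),(0,2),(1,1),(10,3),(1,1),(4,1),(4,8)]⟩⟩,⟨true,0,⟨0,[(28,0)]⟩,⟨6,[(1,4),(5,1),(12,0),(8,1),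
  (1,1),(2,3)]⟩⟩,⟨true,0,⟨0,[(48,0)]⟩,⟨0,[]⟩⟩,⟨false,0,⟨1,[(2,1),(0,0),(0,0),(24,0)]⟩,⟨71,[(1,71),
  (3,29),(1,17),(0,3),(4,39),(2,17),(1,7),(7,20),(12,6),(2,15)]⟩⟩,⟨false,0,⟨0,[]⟩,⟨0,[]⟩⟩,⟨false,0,
  ⟨0,[]⟩,⟨0,[]⟩⟩,[.o ⟨false,0,⟨0,[(43,0)]⟩,⟨3,[(13,1),(17,1),(2,1),(4,0),(6,0)]⟩⟩,.a ⟨true,0,⟨0,[(2,
  0),(26,0)]⟩,⟨0,[(44,0)]⟩⟩ ⟨true,0,⟨0,[(0,0)]⟩,⟨1,[(3,0),(0,0),(24,0)]⟩⟩ ⟨false,0,⟨0,[(2,0)]⟩,⟨1,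
  [(13,0),(15,1),(9,0),(8,0)]⟩⟩,.o ⟨false,1,⟨1,[(29,1),(9,0),(5,0)]⟩,⟨3,[(3,1),(1,1),(22,1),(1,0),
  (0,0),(0,0),(1,0)]⟩⟩,.e ⟨false,1,⟨1,[(26,0),(18,0)]⟩,⟨0,[(3,0),(25,0)]⟩⟩ ⟨false,0,⟨0,[(2,0)]⟩,⟨3,
  [(13,1),(15,3),(1,1),(2,1),(4,0),(6,0)]⟩⟩]⟩) (.N [0,0,0,1] 0 ⟨0,[(0,0)]⟩ ⟨0,[(5,0)]⟩ .k))) (.Q [0,
  0,0,0,0,-1,0,0,0,1,0,-1] (.ed true [0,1,0,1] .k) (.R ⟨1,false,false,true,[1,0,0,-1],[0,1],[1,1,0,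
  0,0,0,0,0,-1],(⟨0,[(27,0)]⟩,⟨0,[(28,0)]⟩),(⟨0,[(40,0)]⟩,⟨0,[(39,0)]⟩),⟨0,[(0,0)]⟩,.k,.k,(.x (-1)
  ⟨15,[(6,3),(8,3),(9,6),(0,6),(11,1)]⟩ ⟨0,[(40,0)]⟩),(.x (-1) ⟨15,[(6,3),(8,3),(9,6),(0,6),(11,
  1)]⟩ ⟨0,[(40,0)]⟩),(.r (-1) ⟨0,[(4,0),(7,0),(34,0)]⟩ ⟨17,[(3,17),(1,4),(2,9),(8,0),(0,4),(14,3),
  (7,3)]⟩),.k,⟨false,1,⟨1,[(4,1),(7,0),(31,0),(2,0)]⟩,⟨11,[(2,8),(0,2),(1,1),(10,3),(1,1),(4,1),(4,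
  8)]⟩⟩,⟨true,0,⟨0,[(27,0)]⟩,⟨9,[(1,4),(3,0),(2,0),(7,0),(11,4),(1,3),(2,4)]⟩⟩,⟨false,0,⟨0,[]⟩,⟨3,
  [(25,0),(0,0),(18,1)]⟩⟩,⟨false,0,⟨3,[(2,2),(0,0),(14,1),(4,1),(3,1),(0,0)]⟩,⟨28,[(1,24),(2,8),(0,
  3),(2,8),(3,18),(4,7),(3,0),(3,9),(2,3)]⟩⟩,⟨true,0,⟨0,[(42,0)]⟩,⟨0,[(43,0)]⟩⟩,⟨false,0,⟨0,[(2,0),
  (15,0),(4,0)]⟩,⟨9,[(1,9),(2,1),(3,0),(3,5),(8,0),(3,3),(15,0)]⟩⟩,[.o ⟨false,0,⟨0,[(42,0)]⟩,⟨3,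
  [(12,1),(17,1),(2,1),(4,0),(6,0)]⟩⟩,.e ⟨true,0,⟨0,[(4,0)]⟩,⟨1,[(2,0),(0,0),(24,0)]⟩⟩ ⟨true,0,⟨1,
  [(8,0),(18,1),(4,0),(0,0)]⟩,⟨0,[(1,0)]⟩⟩,.o ⟨false,1,⟨1,[(28,1),(9,0),(5,0)]⟩,⟨3,[(2,1),(1,1),(22,
  1),(1,0),(0,0),(0,0),(1,0)]⟩⟩,.a ⟨true,0,⟨0,[(28,0)]⟩,⟨0,[(27,0)]⟩⟩ ⟨false,1,⟨1,[(25,0),(18,0)]⟩,
  ⟨0,[(2,0),(25,0)]⟩⟩ ⟨true,0,⟨0,[(27,0),(14,0)]⟩,⟨0,[(1,0)]⟩⟩]⟩) (.I [0,0,0,0,0,0,0,0,-1] (.R ⟨0,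
  false,false,true,[1,0,0,-1],[0,1],[0,1,0,0,0,0,0,0,-1],(⟨0,[(28,0)]⟩,⟨0,[(29,0)]⟩),(⟨0,[(41,0)]⟩,
  ⟨0,[(40,0)]⟩),⟨0,[(1,0)]⟩,.k,.k,(.x (-1) ⟨15,[(7,3),(8,3),(9,6),(0,6),(11,1)]⟩ ⟨0,[(41,0)]⟩),(.x
  (-1) ⟨15,[(7,3),(8,3),(9,6),(0,6),(11,1)]⟩ ⟨0,[(41,0)]⟩),.k,.k,⟨false,1,⟨1,[(5,1),(7,0),(31,0),(2,
  0)]⟩,⟨11,[(3,8),(0,2),(1,1),(10,3),(1,1),(4,1),(4,8)]⟩⟩,⟨true,0,⟨0,[(28,0)]⟩,⟨9,[(2,4),(3,0),(2,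
  0),(7,0),(11,4),(1,3),(2,4)]⟩⟩,⟨true,0,⟨0,[(48,0)]⟩,⟨0,[]⟩⟩,⟨false,0,⟨3,[(3,2),(0,0),(14,1),(4,1),
  (3,1),(0,0)]⟩,⟨28,[(2,24),(2,8),(0,3),(2,8),(3,18),(4,7),(3,0),(3,9),(2,3)]⟩⟩,⟨false,0,⟨0,[]⟩,⟨0,
  []⟩⟩,⟨false,0,⟨0,[]⟩,⟨0,[]⟩⟩,[.o ⟨false,0,⟨0,[(43,0)]⟩,⟨3,[(13,1),(17,1),(2,1),(4,0),(6,0)]⟩⟩,.e
  ⟨true,0,⟨0,[(0,0)]⟩,⟨1,[(3,0),(0,0),(24,0)]⟩⟩ ⟨true,0,⟨1,[(9,0),(18,1),(4,0),(0,0)]⟩,⟨0,[(2,0)]⟩⟩,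
  .o ⟨false,1,⟨1,[(29,1),(9,0),(5,0)]⟩,⟨3,[(3,1),(1,1),(22,1),(1,0),(0,0),(0,0),(1,0)]⟩⟩,.a ⟨true,0,
  ⟨0,[(29,0)]⟩,⟨0,[(28,0)]⟩⟩ ⟨false,1,⟨1,[(26,0),(18,0)]⟩,⟨0,[(3,0),(25,0)]⟩⟩ ⟨true,0,⟨0,[(28,0),
  (14,0)]⟩,⟨0,[(2,0)]⟩⟩]⟩) (.N [0,0,0,1] 0 ⟨0,[(0,0)]⟩ ⟨0,[(5,0)]⟩ .k))))

theorem ok108 : chk (cU (-1) true 10) t108 r59 = true := by decide +kernel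

noncomputable def t172 : Tre :=
  (.R ⟨1,false,false,false,[1,0,-1],[0,-1,1],[1,0,-1,-1,0,0,0,1],(⟨0,[(29,0)]⟩,⟨0,[(30,0)]⟩),(⟨1,
  [(4,0),(25,0)]⟩,⟨0,[(29,0),(3,0)]⟩),⟨0,[(15,0)]⟩,.k,.k,.k,(.r 0 ⟨5,[(7,2),(17,1),(0,4),(1,6),(5,
  0)]⟩ ⟨73,[(0,37),(5,7),(1,59),(2,3),(1,37),(2,3),(1,6),(0,6)]⟩),.k,.k,⟨true,0,⟨0,[]⟩,⟨1,[(26,0),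
  (0,0)]⟩⟩,⟨false,0,⟨0,[(17,0)]⟩,⟨2,[(5,1),(7,0),(2,1),(21,0)]⟩⟩,⟨false,1,⟨2,[(0,0),(7,2),(0,0),(3,
  0),(20,0)]⟩,⟨5,[(7,2),(17,1),(0,4),(1,6),(5,0)]⟩⟩,⟨true,0,⟨0,[(0,0)]⟩,⟨4,[(1,1),(1,2),(3,0),(17,
  1)]⟩⟩,⟨false,1,⟨0,[(8,0),(0,0)]⟩,⟨2,[(25,1),(0,1),(1,3),(5,0)]⟩⟩,⟨false,1,⟨19,[(0,15),(5,7),(10,
  3),(0,4),(0,4),(17,3),(0,5)]⟩,⟨0,[(1,0)]⟩⟩,[.a ⟨true,0,⟨1,[(0,0),(19,0),(0,0),(14,0)]⟩,⟨3,[(1,0),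
  (5,1),(12,0),(0,0)]⟩⟩ ⟨false,1,⟨0,[(8,0)]⟩,⟨5,[(7,2),(17,1),(0,4),(1,0),(5,0)]⟩⟩ ⟨true,0,⟨1,[(0,
  0),(16,0),(18,0)]⟩,⟨3,[(1,0),(5,1),(5,1),(9,0),(2,0)]⟩⟩,.o ⟨false,1,⟨7,[(0,3),(17,0),(0,0),(11,1),
  (4,3),(1,3)]⟩,⟨0,[(3,0)]⟩⟩,.o ⟨false,1,⟨9,[(2,1),(10,3),(4,2),(0,2),(11,1)]⟩,⟨0,[(14,0),(9,0)]⟩⟩,
  .o ⟨false,0,⟨0,[(23,0)]⟩,⟨7,[(17,3),(0,0),(0,0),(11,1),(5,3)]⟩⟩]⟩)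

theorem ok172 : chk (cU (-1) true 10) t172 l96 = true := by decide +kernel

noncomputable def t178 : Tre :=
  (.Q [0,-1,0,1,0,0,0,0,0,1] (.pp false [-1,1]) (.R ⟨2,false,false,true,[0,1],[1,-1],[0,1],(⟨0,[]⟩,
  ⟨0,[]⟩),(⟨0,[(37,0)]⟩,⟨0,[(38,0)]⟩),⟨0,[]⟩,.k,.k,.k,(.r 0 ⟨4,[(11,1),(0,1),(18,4),(0,2),(7,1)]⟩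
  ⟨0,[(13,0),(19,0),(7,0)]⟩),.k,.k,⟨true,0,⟨9,[(11,1),(0,1),(18,4),(0,2),(7,1)]⟩,⟨0,[(41,0)]⟩⟩,
  ⟨false,0,⟨6,[(1,3),(6,2),(2,1),(4,0),(14,1),(7,2)]⟩,⟨2,[(0,1),(12,1),(8,0),(7,1),(11,0)]⟩⟩,⟨false,
  1,⟨15,[(1,3),(11,7),(8,3),(0,0),(0,0),(5,7),(12,5)]⟩,⟨15,[(11,3),(0,3),(18,4),(0,0),(6,5)]⟩⟩,
  ⟨true,0,⟨0,[(1,0)]⟩,⟨4,[(0,1),(2,2),(8,0),(17,1)]⟩⟩,⟨false,1,⟨3,[(23,0),(0,0),(17,1)]⟩,⟨3,[(31,0),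
  (0,0),(6,1)]⟩⟩,⟨false,1,⟨3,[(1,1),(21,0),(0,0),(11,0),(6,0)]⟩,⟨0,[(0,0)]⟩⟩,[.e ⟨true,0,⟨0,[(45,
  0)]⟩,⟨3,[(31,0),(0,0),(6,1)]⟩⟩ ⟨true,0,⟨1,[(1,0),(26,0),(2,0),(13,0)]⟩,⟨0,[(0,0)]⟩⟩,.a ⟨true,0,⟨0,
  [(41,0)]⟩,⟨2,[(0,0),(2,0),(21,0),(0,0),(3,0)]⟩⟩ ⟨false,1,⟨3,[(23,0),(0,0),(17,1)]⟩,⟨0,[]⟩⟩ ⟨true,
  0,⟨8,[(1,5),(6,0),(2,0),(16,1),(2,2),(7,2)]⟩,⟨2,[(0,0),(2,0),(21,0),(0,0),(3,0)]⟩⟩,.o ⟨false,1,⟨3,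
  [(23,0),(0,0),(17,1)]⟩,⟨6,[(1,3),(6,2),(2,1),(4,0),(14,1),(7,2)]⟩⟩,.e ⟨false,1,⟨3,[(23,0),(0,0),
  (17,1)]⟩,⟨3,[(31,0),(0,0),(6,1)]⟩⟩ ⟨false,1,⟨3,[(1,1),(21,0),(0,0),(11,0),(6,0)]⟩,⟨0,[(0,0)]⟩⟩]⟩)
  (.Q [0,1,-1,0,0,0,0,0,-1,0,0,1] (.p true [0,0,0,1] [] (⟨0,[(26,0)]⟩,⟨0,[(25,0)]⟩) .k 0 (⟨0,[]⟩,⟨0,
  []⟩) .k .k) (.Q [0,1,1,0,0,0,0,0,1,0,0,-1] (.p false [0,0,0,1] [] (⟨0,[(27,0)]⟩,⟨0,[(26,0)]⟩) .k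
  0 (⟨0,[]⟩,⟨0,[]⟩) .k .k) (.K ⟨0,[0,0,0,1],0,0,(⟨0,[(28,0)]⟩,⟨0,[(27,0)]⟩),.k,(.r (-1) ⟨1,[(15,0),
  (10,0),(8,0),(7,0)]⟩ ⟨3,[(1,3),(0,1),(1,0),(8,1),(13,3),(2,0),(2,2),(7,1)]⟩),(.x 0 ⟨0,[(40,0)]⟩
  ⟨15,[(11,3),(5,3),(7,6),(0,6),(11,1)]⟩),.k,.k,[⟨0,[(28,0)]⟩,⟨0,[(27,0)]⟩,⟨0,[(1,0)]⟩,⟨0,[(0,
  0)]⟩]⟩) (.Q [0,0,0,0,0,0,-1,-1,0,0,1,-1] (.p true [0,0,1] [0,0,0,1] (⟨0,[(37,0)]⟩,⟨0,[(36,0)]⟩)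
  .k 2 (⟨0,[(28,0)]⟩,⟨0,[(27,0)]⟩) .k (.r 0 ⟨0,[(0,0),(26,0),(2,0),(0,0)]⟩ ⟨3,[(25,0),(0,2),(8,
  3)]⟩)) (.Q [0,0,0,-1,0,0,1,1,0,0,-1,1] (.p false [0,0,1] [0,0,0,1] (⟨0,[(38,0)]⟩,⟨0,[(37,0)]⟩) .k
  2 (⟨0,[(29,0)]⟩,⟨0,[(28,0)]⟩) .k (.r 0 ⟨0,[(1,0),(26,0),(2,0),(0,0)]⟩ ⟨3,[(26,0),(0,2),(8,3)]⟩))
  (.Q [0,0,0,0,0,-1,0,0,0,1,0,-1] (.ed true [0,1,0,1] .k) (.I [1,1,-2,-1,0,0,0,-1,-1] (.R ⟨1,false,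
  false,false,[1,0,0,-1],[0,1,1],[1,1,0,0,0,0,0,0,-1],(⟨0,[(31,0)]⟩,⟨0,[(32,0)]⟩),(⟨0,[(41,0),(2,
  0)]⟩,⟨0,[(26,0)]⟩),⟨0,[(1,0)]⟩,.k,.k,(.x (-1) ⟨15,[(15,3),(5,3),(7,6),(0,6),(11,1)]⟩ ⟨0,[(44,
  0)]⟩),(.r 0 ⟨3,[(0,3),(36,0),(0,0),(6,1)]⟩ ⟨3,[(17,1),(11,0),(0,2),(4,1),(2,1)]⟩),(.x 0 ⟨0,[(21,
  0),(12,0)]⟩ ⟨7,[(23,3),(5,2),(0,2),(13,11),(3,1)]⟩),.k,⟨false,0,⟨0,[(0,0)]⟩,⟨3,[(20,3),(8,0),(0,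
  2)]⟩⟩,⟨true,0,⟨0,[(25,0),(5,0),(3,0)]⟩,⟨0,[(32,0),(1,0)]⟩⟩,⟨false,0,⟨0,[]⟩,⟨3,[(29,0),(0,0),(18,
  1)]⟩⟩,⟨false,1,⟨11,[(9,1),(0,1),(6,5),(12,5),(0,11),(5,9),(4,0),(6,2)]⟩,⟨3,[(4,2),(0,0),(1,1),(4,
  1)]⟩⟩,⟨true,0,⟨0,[(46,0)]⟩,⟨0,[(47,0)]⟩⟩,⟨false,1,⟨3,[(9,1),(7,1),(12,1),(0,3),(5,1),(4,0),(6,
  0)]⟩,⟨2,[(4,2),(2,1),(4,0),(23,0),(10,1)]⟩⟩,[.a ⟨true,0,⟨2,[(2,0),(6,1),(21,0)]⟩,⟨1,[(12,0),(18,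
  0),(0,0),(14,1)]⟩⟩ ⟨false,0,⟨2,[(0,1),(4,0),(11,0),(13,0),(2,0),(0,0)]⟩,⟨1,[(30,0),(18,0)]⟩⟩
  ⟨true,0,⟨1,[(17,0),(13,1),(3,0),(1,0)]⟩,⟨0,[(2,0),(9,0)]⟩⟩,.o ⟨false,1,⟨5,[(9,3),(0,0),(26,1),(4,
  1),(6,2)]⟩,⟨6,[(7,3),(4,1),(1,0),(21,1)]⟩⟩,.o ⟨false,1,⟨1,[(4,0),(0,0),(24,0),(11,0)]⟩,⟨6,[(3,1),
  (2,3),(10,1),(13,4),(2,0),(2,2),(7,0)]⟩⟩,.e ⟨false,0,⟨0,[(0,0),(19,0)]⟩,⟨1,[(30,0),(6,0),(0,0),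
  (10,0)]⟩⟩ ⟨false,1,⟨5,[(9,3),(0,0),(20,5),(5,1),(4,1),(6,2)]⟩,⟨0,[(2,0),(9,0)]⟩⟩]⟩) (.Q [0,1,1,-1,
  0,0,0,0,1,0,0,-1] (.p false [0,0,0,1] [] (⟨0,[(32,0)]⟩,⟨0,[(31,0)]⟩) .k 0 (⟨0,[]⟩,⟨0,[]⟩) .k .k)
  (.R ⟨1,false,false,true,[1,0,0,-1],[1,-1],[1,1],(⟨0,[(32,0)]⟩,⟨0,[(33,0)]⟩),(⟨0,[(44,0)]⟩,⟨0,[(45,
  0)]⟩),⟨0,[(2,0)]⟩,.k,.k,(.x (-1) ⟨15,[(16,3),(5,3),(7,6),(0,6),(11,1)]⟩ ⟨0,[(45,0)]⟩),(.r 0 ⟨3,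
  [(4,1),(0,0),(0,2),(11,1),(13,1),(2,1),(2,3)]⟩ ⟨1,[(20,0),(10,0),(8,0),(7,0)]⟩),.k,.k,⟨true,0,⟨9,
  [(18,1),(0,1),(18,4),(0,2),(7,1)]⟩,⟨0,[(48,0)]⟩⟩,⟨false,0,⟨6,[(4,1),(2,3),(10,1),(13,4),(2,0),(2,
  2),(7,0)]⟩,⟨1,[(5,0),(0,0),(24,0),(17,0)]⟩⟩,⟨false,1,⟨3,[(30,0),(0,2)]⟩,⟨6,[(4,1),(0,6),(1,3),(10,
  1),(13,4),(2,0),(2,2),(7,0)]⟩⟩,⟨true,0,⟨0,[(0,0)]⟩,⟨4,[(5,2),(0,1),(2,0),(0,0),(12,0)]⟩⟩,⟨false,1,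
  ⟨23,[(9,3),(0,7),(19,4),(0,16),(11,1)]⟩,⟨2,[(5,2),(1,0),(0,0),(23,2),(2,0),(2,0),(7,0)]⟩⟩,⟨false,
  1,⟨23,[(0,23),(8,3),(0,7),(19,4),(0,4),(11,1),(6,11)]⟩,⟨0,[(5,0)]⟩⟩,[.o ⟨false,0,⟨0,[(7,0)]⟩,⟨23,
  [(9,3),(0,7),(19,4),(0,4),(11,1),(6,11)]⟩⟩,.e ⟨true,0,⟨0,[]⟩,⟨1,[(38,0),(0,0)]⟩⟩ ⟨true,0,⟨2,[(7,
  0),(0,0),(23,2),(2,0),(2,0),(7,0)]⟩,⟨2,[(3,0),(5,0),(0,0),(22,1)]⟩⟩,.o ⟨false,1,⟨1,[(5,0),(0,0),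
  (24,0),(11,0)]⟩,⟨6,[(4,1),(2,3),(10,1),(13,4),(2,0),(2,2),(7,0)]⟩⟩,.a ⟨true,0,⟨0,[(33,0)]⟩,⟨0,
  [(32,0)]⟩⟩ ⟨false,1,⟨3,[(30,0),(0,0),(17,1)]⟩,⟨3,[(38,0),(0,0),(6,1)]⟩⟩ ⟨true,0,⟨0,[(7,0),(24,
  0)]⟩,⟨2,[(3,0),(5,0),(0,0),(22,1)]⟩⟩]⟩) (.I [1,1,-1,-1,0,0,0,1,-1] (.R ⟨1,false,false,false,[1,0,
  0,-1],[1,1,-1],[1,1,0,0,0,0,0,0,-1],(⟨0,[(33,0)]⟩,⟨0,[(34,0)]⟩),(⟨0,[(42,0),(3,0)]⟩,⟨1,[(17,0),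
  (25,0)]⟩),⟨0,[(3,0)]⟩,.k,.k,(.x (-1) ⟨15,[(17,3),(5,3),(7,6),(0,6),(11,1)]⟩ ⟨0,[(46,0)]⟩),(.r
  (-1) ⟨1,[(12,0),(18,0)]⟩ ⟨0,[(2,0),(5,0),(4,0),(11,0),(2,0),(13,0)]⟩),(.r (-1) ⟨3,[(6,1),(2,1),(2,
  0),(8,1),(9,0),(1,1)]⟩ ⟨1,[(2,1),(10,0),(2,0),(13,1),(7,0)]⟩),.k,⟨true,0,⟨0,[(0,0)]⟩,⟨0,[(2,0),
  (38,1)]⟩⟩,⟨false,1,⟨19,[(15,11),(10,3),(4,2),(0,2),(0,19),(10,1)]⟩,⟨1,[(4,1),(5,0),(19,0)]⟩⟩,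
  ⟨false,0,⟨0,[]⟩,⟨3,[(31,0),(0,0),(18,1)]⟩⟩,⟨false,1,⟨5,[(2,1),(2,3),(4,1),(20,0),(0,2),(0,1),(5,
  1),(11,1)]⟩,⟨7,[(0,1),(3,1),(1,5),(2,1),(15,0),(2,0),(8,3),(4,0),(4,0)]⟩⟩,⟨true,0,⟨0,[(48,0)]⟩,⟨0,
  [(49,0)]⟩⟩,⟨false,1,⟨71,[(2,23),(7,51),(0,7),(19,4),(0,28),(0,71),(5,23),(4,13),(6,23)]⟩,⟨3,[(0,
  1),(3,1),(1,1),(2,1),(15,0),(2,0),(13,0),(4,0)]⟩⟩,[.a ⟨true,0,⟨3,[(14,0),(5,1),(12,0),(0,0)]⟩,⟨0,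
  [(4,0),(28,0)]⟩⟩ ⟨false,0,⟨8,[(0,5),(0,1),(3,1),(1,0),(8,3),(13,2),(2,0)]⟩,⟨1,[(32,0),(18,0)]⟩⟩
  ⟨true,0,⟨1,[(10,0),(22,1),(2,0),(2,0)]⟩,⟨0,[(4,0)]⟩⟩,.o ⟨false,1,⟨7,[(10,3),(20,0),(0,0),(11,1),
  (6,3)]⟩,⟨2,[(4,0),(4,0),(23,0),(3,1)]⟩⟩,.o ⟨false,1,⟨1,[(6,0),(0,0),(24,0),(11,0)]⟩,⟨6,[(5,1),(2,
  3),(10,1),(13,4),(2,0),(2,2),(7,0)]⟩⟩,.e ⟨false,0,⟨2,[(0,1),(0,0),(3,0),(18,0),(2,1)]⟩,⟨1,[(32,0),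
  (6,0),(0,0),(10,0)]⟩⟩ ⟨false,1,⟨7,[(10,3),(20,0),(0,0),(0,7),(10,1),(6,3)]⟩,⟨0,[(4,0)]⟩⟩]⟩) (.K
  ⟨1,[1,-1,0,-1],0,0,(⟨0,[(3,0)]⟩,⟨0,[(34,0),(11,0)]⟩),(.x (-1) ⟨15,[(17,3),(5,3),(7,6),(0,6),(11,
  1)]⟩ ⟨0,[(46,0)]⟩),(.r (-1) ⟨3,[(6,1),(2,1),(11,2),(9,0),(1,1),(7,2),(7,0)]⟩ ⟨8,[(0,2),(1,5),(17,
  0),(17,1),(0,2),(8,6)]⟩),.k,.k,.k,[⟨1,[(33,1),(5,0),(0,0)]⟩,⟨6,[(0,0),(0,0),(2,4),(8,0),(2,1),(17,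
  0),(1,3),(2,2)]⟩,⟨2,[(0,2),(3,0),(4,0),(19,2),(3,3),(3,1)]⟩,⟨0,[(6,0),(42,0)]⟩]⟩)))) (.I [0,1,-1,
  0,0,0,0,1,-1] (.R ⟨0,false,false,false,[1,0,0,-1],[0,1,1],[0,1,0,0,0,0,0,0,-1],(⟨0,[(31,0)]⟩,⟨0,
  [(32,0)]⟩),(⟨0,[(41,0),(2,0)]⟩,⟨0,[(26,0)]⟩),⟨0,[(1,0)]⟩,.k,.k,(.x (-1) ⟨15,[(15,3),(5,3),(7,6),
  (0,6),(11,1)]⟩ ⟨0,[(44,0)]⟩),(.r 0 ⟨3,[(3,3),(0,2),(0,0),(1,1),(20,1)]⟩ ⟨3,[(17,1),(11,0),(0,2),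
  (4,1),(2,1)]⟩),.k,.k,⟨false,0,⟨0,[(0,0),(0,1),(1,1),(17,0),(1,0),(2,0),(20,0)]⟩,⟨3,[(20,3),(8,0),
  (0,2)]⟩⟩,⟨true,0,⟨0,[(25,0),(5,0),(3,0)]⟩,⟨0,[(32,0),(1,0)]⟩⟩,⟨true,0,⟨0,[(51,0)]⟩,⟨0,[]⟩⟩,⟨false,
  1,⟨11,[(9,1),(0,1),(6,5),(12,5),(0,11),(5,9),(4,0),(6,2)]⟩,⟨3,[(4,2),(0,0),(1,1),(4,1)]⟩⟩,⟨false,
  0,⟨0,[]⟩,⟨0,[]⟩⟩,⟨false,0,⟨0,[]⟩,⟨0,[]⟩⟩,[.a ⟨true,0,⟨2,[(2,0),(6,1),(21,0)]⟩,⟨1,[(12,0),(18,0),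
  (0,0),(14,1)]⟩⟩ ⟨false,0,⟨0,[(0,0),(38,0)]⟩,⟨1,[(30,0),(18,0)]⟩⟩ ⟨true,0,⟨1,[(17,0),(13,1),(3,0),
  (1,0)]⟩,⟨0,[(2,0),(9,0)]⟩⟩,.o ⟨false,1,⟨5,[(9,3),(0,0),(26,1),(4,1),(6,2)]⟩,⟨6,[(7,3),(4,1),(1,0),
  (21,1)]⟩⟩,.o ⟨false,1,⟨1,[(4,0),(0,0),(24,0),(11,0)]⟩,⟨6,[(3,1),(2,3),(10,1),(13,4),(2,0),(2,2),
  (7,0)]⟩⟩,.e ⟨false,0,⟨0,[(0,0),(24,0)]⟩,⟨1,[(30,0),(6,0),(0,0),(10,0)]⟩⟩ ⟨false,1,⟨5,[(9,3),(0,0),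
  (20,5),(5,1),(4,1),(6,2)]⟩,⟨0,[(2,0),(9,0)]⟩⟩]⟩) (.R ⟨0,false,false,true,[1,0,0,-1],[0,1],[0,0,1],
  (⟨0,[(31,0)]⟩,⟨0,[(32,0)]⟩),(⟨0,[(44,0)]⟩,⟨0,[(43,0)]⟩),⟨0,[(1,0)]⟩,.k,.k,(.x (-1) ⟨15,[(15,3),(5,
  3),(7,6),(0,6),(11,1)]⟩ ⟨0,[(44,0)]⟩),(.x (-1) ⟨15,[(15,3),(5,3),(7,6),(0,6),(11,1)]⟩ ⟨0,[(44,
  0)]⟩),.k,.k,⟨false,1,⟨1,[(19,0),(19,0),(7,0),(1,0)]⟩,⟨0,[(46,0)]⟩⟩,⟨true,0,⟨0,[(31,0)]⟩,⟨5,[(1,3),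
  (13,0),(5,0),(10,1),(1,2),(2,2)]⟩⟩,⟨false,1,⟨1,[(30,0),(6,0),(0,0),(10,0)]⟩,⟨1,[(3,0),(0,1),(1,0),
  (15,0),(8,0)]⟩⟩,⟨true,0,⟨0,[(0,0),(26,0),(3,0),(3,0)]⟩,⟨0,[(4,0),(1,0)]⟩⟩,⟨false,0,⟨0,[]⟩,⟨0,[]⟩⟩,
  ⟨false,0,⟨0,[]⟩,⟨0,[]⟩⟩,[.o ⟨false,0,⟨0,[(46,0)]⟩,⟨3,[(7,1),(34,0),(6,2)]⟩⟩,.a ⟨true,0,⟨3,[(9,0),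
  (8,0),(12,2),(0,2)]⟩,⟨0,[(47,0)]⟩⟩ ⟨true,0,⟨3,[(37,0),(0,0),(6,1)]⟩,⟨0,[(51,0)]⟩⟩ ⟨false,0,⟨1,[(3,
  0),(5,0),(21,0)]⟩,⟨7,[(2,3),(13,3),(12,0),(0,0),(1,3),(6,3),(2,1)]⟩⟩,.o ⟨false,1,⟨1,[(4,0),(0,0),
  (24,0),(11,0)]⟩,⟨6,[(3,1),(2,3),(10,1),(13,4),(2,0),(2,2),(7,0)]⟩⟩,.e ⟨false,1,⟨3,[(29,0),(0,0),
  (18,1)]⟩,⟨0,[]⟩⟩ ⟨false,0,⟨1,[(3,0),(5,0),(21,0)]⟩,⟨3,[(7,1),(24,3),(9,0),(6,2)]⟩⟩]⟩))) (.Q [0,0,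
  0,0,0,-1,0,0,0,1,0,-1] (.ed true [0,1,0,1] .k) (.I [1,1,-1,0,0,0,0,1,-1] (.R ⟨1,false,false,false,
  [1,0,0,-1],[1,0,-1],[1,1,0,0,0,0,0,0,-1],(⟨0,[(31,0)]⟩,⟨0,[(32,0)]⟩),(⟨0,[(40,0)]⟩,⟨0,[(41,0)]⟩),
  ⟨0,[(1,0)]⟩,.k,.k,(.x (-1) ⟨15,[(15,3),(5,3),(7,6),(0,6),(11,1)]⟩ ⟨0,[(44,0)]⟩),.k,(.x 0 ⟨24,[(6,
  3),(8,14),(6,3),(0,4),(1,3),(2,3),(8,2),(7,1)]⟩ ⟨9,[(13,1),(10,3),(4,2),(0,2),(9,9),(1,1),(1,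
  9)]⟩),.k,⟨false,0,⟨0,[(0,0)]⟩,⟨1,[(30,0),(8,1),(9,0)]⟩⟩,⟨true,0,⟨0,[(31,0),(2,0)]⟩,⟨0,[(25,0),(6,
  0),(2,0)]⟩⟩,⟨false,0,⟨0,[]⟩,⟨3,[(29,0),(0,0),(18,1)]⟩⟩,⟨false,1,⟨1,[(3,1),(26,0),(6,0),(0,0),(10,
  0)]⟩,⟨0,[(4,0),(30,0)]⟩⟩,⟨true,0,⟨0,[(46,0)]⟩,⟨0,[(47,0)]⟩⟩,⟨false,1,⟨1,[(2,1),(27,0),(6,0),(0,0),
  (10,0)]⟩,⟨0,[(4,0),(30,0),(11,0)]⟩⟩,[.e ⟨false,0,⟨0,[(0,0),(38,0)]⟩,⟨1,[(30,0),(18,0)]⟩⟩ ⟨false,0,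
  ⟨0,[(3,0)]⟩,⟨11,[(9,3),(0,1),(8,3),(8,3),(0,0),(0,0),(1,11),(9,3)]⟩⟩,.o ⟨false,1,⟨7,[(12,3),(16,
  0),(0,0),(11,1),(6,3)]⟩,⟨0,[(35,0)]⟩⟩,.o ⟨false,1,⟨1,[(4,0),(0,0),(24,0),(11,0)]⟩,⟨4,[(2,0),(3,2),
  (10,0),(13,3),(2,0),(2,1),(7,0)]⟩⟩,.a ⟨true,0,⟨0,[(32,0)]⟩,⟨0,[(31,0)]⟩⟩ ⟨false,0,⟨0,[(0,0),(24,
  0)]⟩,⟨1,[(30,0),(6,0),(0,0),(10,0)]⟩⟩ ⟨true,0,⟨0,[(3,0)]⟩,⟨0,[(32,0),(2,0)]⟩⟩]⟩) (.Q [0,0,-1,0,0,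
  0,0,0,-1,-1,0,1] (.p true [0,0,0,1] [1] (⟨0,[(32,0)]⟩,⟨0,[(31,0)]⟩) .k 1 (⟨0,[]⟩,⟨0,[]⟩) .k .k)
  (.I [1,1,-2,-1,0,0,0,-1,-1] (.R ⟨1,false,false,false,[1,0,0,-1],[0,1,1],[1,1,0,0,0,0,0,0,-1],(⟨0,
  [(33,0)]⟩,⟨0,[(34,0)]⟩),(⟨0,[(43,0),(2,0)]⟩,⟨0,[(28,0)]⟩),⟨0,[(3,0)]⟩,.k,.k,(.x (-1) ⟨15,[(17,3),
  (5,3),(7,6),(0,6),(11,1)]⟩ ⟨0,[(46,0)]⟩),(.r 0 ⟨3,[(0,3),(38,0),(0,0),(6,1)]⟩ ⟨3,[(19,1),(11,0),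
  (0,2),(4,1),(2,1)]⟩),(.r (-1) ⟨3,[(0,3),(30,0),(0,0),(16,3),(1,1)]⟩ ⟨0,[(2,0),(8,0),(14,0),(10,
  0)]⟩),.k,⟨false,0,⟨0,[(0,0)]⟩,⟨3,[(22,3),(8,0),(0,2)]⟩⟩,⟨true,0,⟨0,[(27,0),(5,0),(3,0)]⟩,⟨0,[(34,
  0),(1,0)]⟩⟩,⟨false,0,⟨0,[]⟩,⟨3,[(31,0),(0,0),(18,1)]⟩⟩,⟨false,1,⟨11,[(11,1),(0,1),(6,5),(12,5),(0,
  11),(5,9),(4,0),(6,2)]⟩,⟨3,[(6,2),(0,0),(1,1),(4,1)]⟩⟩,⟨true,0,⟨0,[(48,0)]⟩,⟨0,[(49,0)]⟩⟩,⟨false,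
  1,⟨3,[(11,1),(7,1),(12,1),(0,3),(5,1),(4,0),(6,0)]⟩,⟨2,[(6,2),(2,1),(4,0),(23,0),(10,1)]⟩⟩,[.a
  ⟨true,0,⟨0,[(11,0),(37,0)]⟩,⟨1,[(14,0),(18,0),(0,0),(14,1)]⟩⟩ ⟨false,0,⟨2,[(0,0),(0,0),(5,0),(16,
  0),(8,1),(2,0)]⟩,⟨1,[(32,0),(18,0)]⟩⟩ ⟨true,0,⟨1,[(19,0),(13,1),(3,0),(1,0)]⟩,⟨0,[(2,0),(3,0),(2,
  0),(19,0)]⟩⟩,.o ⟨false,1,⟨5,[(11,3),(0,0),(26,1),(4,1),(6,2)]⟩,⟨6,[(9,3),(4,1),(1,0),(21,1)]⟩⟩,.o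
  ⟨false,1,⟨3,[(1,3),(29,0),(0,2)]⟩,⟨4,[(4,0),(3,2),(10,0),(13,3),(2,0),(2,1),(7,0)]⟩⟩,.e ⟨false,0,
  ⟨0,[(1,0),(31,0)]⟩,⟨1,[(32,0),(6,0),(0,0),(10,0)]⟩⟩ ⟨false,1,⟨5,[(11,3),(0,0),(20,5),(5,1),(4,1),
  (6,2)]⟩,⟨0,[(2,0),(3,0),(2,0),(19,0)]⟩⟩]⟩) (.I [0,1,-1,-2,0,0,0,1,-1] (.R ⟨1,false,false,false,[1,
  0,0,-1],[1,1,-1],[0,1,0,-1,0,0,0,0,-1],(⟨0,[(34,0)]⟩,⟨0,[(35,0)]⟩),(⟨0,[(43,0),(3,0)]⟩,⟨1,[(18,0),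
  (25,0)]⟩),⟨0,[(4,0)]⟩,.k,.k,(.x (-1) ⟨15,[(18,3),(5,3),(7,6),(0,6),(11,1)]⟩ ⟨0,[(47,0)]⟩),(.x 0
  ⟨24,[(9,3),(8,14),(6,3),(0,4),(1,3),(2,3),(8,2),(7,1)]⟩ ⟨9,[(16,1),(10,3),(4,2),(0,2),(9,9),(1,1),
  (1,9)]⟩),(.r (-1) ⟨5,[(0,3),(21,3),(5,1),(3,0),(19,0)]⟩ ⟨8,[(1,2),(1,5),(17,3),(17,1),(0,5),(8,
  6)]⟩),.k,⟨true,0,⟨0,[(0,0)]⟩,⟨5,[(1,1),(1,3),(7,0),(0,0),(8,2),(18,3)]⟩⟩,⟨false,1,⟨3,[(5,3),(7,1),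
  (18,0),(0,0)]⟩,⟨2,[(2,0),(0,0),(27,0),(3,1),(2,0)]⟩⟩,⟨false,0,⟨0,[(50,0)]⟩,⟨23,[(11,3),(0,7),(19,
  4),(0,4),(11,1),(6,11)]⟩⟩,⟨false,1,⟨5,[(1,1),(1,1),(1,3),(0,1),(25,1),(0,2),(18,0)]⟩,⟨0,[(7,0),
  (30,0),(11,0)]⟩⟩,⟨true,0,⟨0,[(54,0)]⟩,⟨0,[]⟩⟩,⟨false,1,⟨7,[(3,3),(1,7),(14,3),(11,2),(0,4)]⟩,⟨0,
  [(7,0),(30,0),(11,1)]⟩⟩,[.e ⟨false,0,⟨9,[(0,6),(1,0),(2,2),(2,1),(8,0),(13,1),(10,2)]⟩,⟨47,[(3,5),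
  (7,5),(0,15),(3,3),(3,1),(12,20),(11,2),(6,19)]⟩⟩ ⟨false,0,⟨0,[(5,0)]⟩,⟨7,[(13,3),(17,3),(0,0),(0,
  0),(1,7),(9,1)]⟩⟩,.o ⟨false,1,⟨7,[(11,3),(20,0),(0,0),(11,1),(6,3)]⟩,⟨0,[(38,0),(11,0)]⟩⟩,.o
  ⟨false,1,⟨3,[(2,3),(29,0),(0,2)]⟩,⟨4,[(5,0),(3,2),(10,0),(13,3),(2,0),(2,1),(7,0)]⟩⟩,.a ⟨true,0,
  ⟨0,[(35,0)]⟩,⟨0,[(34,0)]⟩⟩ ⟨false,0,⟨1,[(0,0),(1,0),(25,0),(5,0)]⟩,⟨7,[(3,3),(16,3),(11,2),(0,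
  4)]⟩⟩ ⟨true,0,⟨0,[(5,0)]⟩,⟨0,[(35,0),(2,0),(11,0)]⟩⟩]⟩) (.Q [0,1,1,-1,0,0,0,0,1,0,0,-1] (.p false
  [0,0,0,1] [] (⟨0,[(35,0)]⟩,⟨0,[(34,0)]⟩) .k 0 (⟨0,[]⟩,⟨0,[]⟩) .k .k) (.R ⟨2,false,false,true,[0,
  1],[0,0,0,1],[],(⟨0,[]⟩,⟨0,[]⟩),(⟨0,[(36,0)]⟩,⟨0,[(35,0)]⟩),⟨0,[]⟩,.k,.k,.k,(.r 0 ⟨8,[(3,1),(2,2),
  (1,1),(0,4),(11,2),(6,3),(6,5),(5,10)]⟩ ⟨1,[(23,0),(10,0),(8,0),(7,0)]⟩),.k,.k,⟨true,0,⟨2,[(3,1),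
  (4,0),(26,2),(2,0),(2,0),(7,0)]⟩,⟨4,[(0,3),(0,0),(24,0),(4,0),(4,3)]⟩⟩,⟨false,0,⟨4,[(6,0),(3,2),
  (10,0),(13,3),(2,0),(2,1),(7,0)]⟩,⟨1,[(8,0),(0,0),(24,0),(17,0)]⟩⟩,⟨false,1,⟨1,[(23,0),(19,0),(7,
  0),(1,0)]⟩,⟨9,[(21,1),(0,1),(18,4),(0,2),(7,1)]⟩⟩,⟨true,0,⟨0,[(0,0)]⟩,⟨11,[(3,1),(4,4),(0,4),(2,
  1),(0,3)]⟩⟩,⟨false,1,⟨1,[(52,0),(0,0)]⟩,⟨1,[(41,0),(0,0)]⟩⟩,⟨false,1,⟨47,[(0,39),(0,3),(4,7),(6,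
  7),(7,3),(11,12),(0,14),(11,3),(6,15)]⟩,⟨0,[(8,0)]⟩⟩,[.a ⟨true,0,⟨5,[(0,4),(3,0),(8,1),(17,0),(3,
  3),(0,2),(3,0)]⟩,⟨0,[(8,0)]⟩⟩ ⟨false,1,⟨3,[(33,0),(0,0),(17,1)]⟩,⟨0,[]⟩⟩ ⟨true,0,⟨9,[(0,9),(20,1),
  (0,1),(18,4),(0,2),(7,1)]⟩,⟨0,[(8,0)]⟩⟩,.o ⟨false,1,⟨47,[(0,39),(0,3),(4,7),(6,7),(7,3),(11,12),
  (0,14),(11,3),(6,15)]⟩,⟨0,[(3,0)]⟩⟩,.o ⟨false,1,⟨3,[(33,0),(0,0),(17,1)]⟩,⟨7,[(10,5),(1,0),(8,1),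
  (16,0),(2,2),(7,1)]⟩⟩,.e ⟨false,1,⟨1,[(52,0),(0,0)]⟩,⟨1,[(41,0),(0,0)]⟩⟩ ⟨false,1,⟨47,[(0,39),(0,
  3),(4,7),(6,7),(7,3),(11,12),(0,14),(11,3),(6,15)]⟩,⟨0,[(8,0)]⟩⟩]⟩) (.I [0,0,-3,0,1,2] (.Q [0,1,1,
  -2,0,0,0,0,1,0,0,-1] (.p false [0,0,0,1] [] (⟨0,[(37,0)]⟩,⟨0,[(36,0)]⟩) .k 0 (⟨0,[]⟩,⟨0,[]⟩) .k
  .k) (.R ⟨1,false,false,false,[0,0,0,1],[0,1],[1,0,1,1],(⟨0,[(38,0)]⟩,⟨0,[(37,0)]⟩),(⟨0,[(50,0)]⟩,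
  ⟨0,[(49,0)]⟩),⟨5,[(4,1),(0,0),(0,1),(3,2),(2,2),(13,3),(1,1),(3,3),(4,1)]⟩,.k,.k,(.r (-1) ⟨3,[(0,
  0),(9,0),(14,1),(10,1),(8,1)]⟩ ⟨4,[(2,1),(5,0),(2,2),(11,0),(13,3),(2,3),(2,4)]⟩),(.r (-1) ⟨3,[(0,
  0),(9,0),(14,1),(10,1),(8,1)]⟩ ⟨4,[(2,1),(5,0),(2,2),(11,0),(13,3),(2,3),(2,4)]⟩),(.x 0 ⟨3,[(21,
  1),(5,1),(2,1),(12,6),(0,2)]⟩ ⟨0,[(1,0)]⟩),.k,⟨true,0,⟨0,[]⟩,⟨1,[(43,0),(0,0)]⟩⟩,⟨false,1,⟨4,[(1,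
  2),(3,3),(0,3),(9,1),(10,3),(1,1),(3,3),(4,0)]⟩,⟨0,[(37,0),(2,0),(2,0)]⟩⟩,⟨false,0,⟨0,[(2,0),(34,
  0),(2,0),(2,0)]⟩,⟨3,[(0,0),(9,0),(14,1),(10,1),(8,1)]⟩⟩,⟨false,0,⟨0,[(2,0)]⟩,⟨17,[(0,11),(2,1),(0,
  1),(30,4),(0,5),(0,5),(10,2),(6,3)]⟩⟩,⟨false,0,⟨4,[(2,3),(5,1),(2,0),(11,1),(13,2),(2,2),(2,4)]⟩,
  ⟨3,[(0,2),(9,2),(14,1),(10,1),(8,1)]⟩⟩,⟨true,0,⟨6,[(2,4),(8,1),(3,2),(4,2)]⟩,⟨0,[(0,0)]⟩⟩,[.a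
  ⟨true,0,⟨3,[(15,0),(8,0),(12,2),(0,2)]⟩,⟨0,[(53,0)]⟩⟩ ⟨true,0,⟨9,[(23,1),(0,1),(18,4),(0,2),(7,
  1)]⟩,⟨0,[(53,0)]⟩⟩ ⟨false,1,⟨13,[(2,7),(8,5),(3,1),(4,1),(15,6),(17,6)]⟩,⟨2,[(12,0),(0,0),(23,2),
  (2,0),(2,0),(7,0)]⟩⟩,.o ⟨false,1,⟨23,[(14,3),(0,7),(19,4),(0,4),(11,1),(6,11)]⟩,⟨0,[(12,0)]⟩⟩,.o
  ⟨false,0,⟨4,[(8,0),(3,2),(10,0),(13,3),(2,0),(2,1),(7,0)]⟩,⟨3,[(5,3),(29,0),(0,2)]⟩⟩,.o ⟨false,0,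
  ⟨0,[(37,0),(2,0),(2,0)]⟩,⟨1,[(5,1),(30,0),(17,0)]⟩⟩]⟩) (.Q [0,-1,-1,0,0,0,-1,-1,-1,-1,1,1] (.p
  true [0,0,1] [1,0,0,-1] (⟨0,[(47,0)]⟩,⟨0,[(46,0)]⟩) .k 2 (⟨0,[(37,0)]⟩,⟨0,[(38,0)]⟩) .k (.r (-1)
  ⟨27,[(4,7),(11,7),(11,3),(4,3),(1,4),(0,14)]⟩ ⟨1,[(9,1),(0,0),(0,0),(31,1)]⟩)) (.Q [0,1,1,-1,0,0,
  1,1,1,1,-1,-1] (.p false [0,0,1] [1,0,0,-1] (⟨0,[(48,0)]⟩,⟨0,[(47,0)]⟩) .k 2 (⟨0,[(38,0)]⟩,⟨0,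
  [(39,0)]⟩) .k (.r (-1) ⟨27,[(5,7),(11,7),(11,3),(4,3),(1,4),(0,14)]⟩ ⟨1,[(0,0),(9,0),(1,0),(25,0),
  (5,1)]⟩)) (.R ⟨1,false,false,false,[0,0,1],[1,0,0,-1],[0,1,1],(⟨0,[(49,0)]⟩,⟨0,[(48,0)]⟩),(⟨0,
  [(39,0)]⟩,⟨0,[(40,0)]⟩),⟨1,[(23,0),(25,0)]⟩,.k,.k,.k,.k,(.r (-1) ⟨1,[(18,0),(19,0)]⟩ ⟨3,[(1,0),(2,
  0),(5,2),(2,1),(25,0),(5,5),(0,1)]⟩),.k,⟨true,0,⟨3,[(0,1),(4,0),(2,0),(5,1),(20,1),(4,1)]⟩,⟨2,[(7,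
  1),(4,0),(26,2),(2,0),(2,0),(7,0)]⟩⟩,⟨false,1,⟨0,[(21,0),(18,0)]⟩,⟨0,[(39,0),(5,0)]⟩⟩,⟨false,0,⟨2,
  [(44,1),(0,1),(1,0),(5,0)]⟩,⟨2,[(25,0),(1,1),(29,0)]⟩⟩,⟨false,0,⟨0,[(1,0)]⟩,⟨63,[(0,55),(4,3),(4,
  7),(6,15),(7,3),(11,16),(0,18),(11,3),(6,23)]⟩⟩,⟨false,0,⟨10,[(19,0),(6,4),(9,0),(7,3),(0,8),(7,
  1)]⟩,⟨1,[(18,0),(38,0)]⟩⟩,⟨true,0,⟨3,[(2,0),(4,1),(5,0),(5,1)]⟩,⟨0,[(0,0)]⟩⟩,[.o ⟨false,0,⟨0,[(7,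
  0)]⟩,⟨39,[(0,21),(5,3),(1,7),(1,17),(21,1),(4,10),(0,13),(11,9),(6,4)]⟩⟩,.a ⟨true,0,⟨0,[(12,0)]⟩,
  ⟨5,[(0,3),(4,0),(2,0),(26,1),(3,1),(4,1)]⟩⟩ ⟨true,0,⟨1,[(45,0),(0,0)]⟩,⟨0,[]⟩⟩ ⟨false,1,⟨25,[(4,
  17),(2,1),(16,17),(7,3),(4,2),(2,5),(9,0),(6,3)]⟩,⟨4,[(0,3),(4,0),(4,0),(11,0),(13,1),(7,0)]⟩⟩,.o
  ⟨false,0,⟨0,[(33,0),(9,0)]⟩,⟨9,[(21,1),(10,3),(4,2),(0,2),(11,1)]⟩⟩,.o ⟨false,0,⟨0,[(45,0)]⟩,⟨19,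
  [(21,11),(10,3),(4,2),(0,2),(11,1)]⟩⟩]⟩) (.I [0,0,2,2,-1,0,0,-1,-1] (.Q [0,0,3,0,-1,0,1,0,0,1,-1,
  -1] (.p false [0,0,1] [1,0,0,-1] (⟨0,[(50,0)]⟩,⟨0,[(49,0)]⟩) .k 2 (⟨0,[(40,0)]⟩,⟨0,[(41,0)]⟩) .k
  (.r (-1) ⟨27,[(7,7),(11,7),(11,3),(4,3),(1,4),(0,14)]⟩ ⟨9,[(0,1),(1,2),(9,0),(1,0),(1,1),(20,1),
  (0,1),(1,2),(7,3)]⟩)) (.Q [0,1,1,-2,0,0,1,1,1,1,-1,-1] (.p false [0,0,1] [1,0,0,-1] (⟨0,[(51,0)]⟩,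
  ⟨0,[(50,0)]⟩) .k 2 (⟨0,[(41,0)]⟩,⟨0,[(42,0)]⟩) .k (.r (-1) ⟨27,[(8,7),(11,7),(11,3),(4,3),(1,4),
  (0,14)]⟩ ⟨9,[(1,1),(1,2),(9,0),(1,0),(1,1),(20,1),(0,1),(1,2),(7,3)]⟩)) (.R ⟨1,false,false,false,
  [0,-1,1],[1,0,0,-1],[1,1],(⟨1,[(26,0),(25,0)]⟩,⟨0,[(51,0),(3,0)]⟩),(⟨0,[(42,0)]⟩,⟨0,[(43,0)]⟩),⟨0,
  [(26,0)]⟩,.k,.k,(.r (-1) ⟨1,[(0,0),(14,0),(11,0),(2,0)]⟩ ⟨3,[(2,3),(37,0),(0,2)]⟩),(.r (-1) ⟨1,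
  [(21,0),(19,0)]⟩ ⟨7,[(2,2),(5,0),(31,2),(6,0),(0,0),(1,2)]⟩),(.r (-2) ⟨39,[(0,15),(26,19),(2,27),
  (8,3),(0,4),(0,16),(1,15),(3,3),(12,9)]⟩ ⟨0,[(2,0)]⟩),.k,⟨false,1,⟨1,[(41,0),(17,0),(2,1)]⟩,⟨10,
  [(1,0),(0,0),(1,0),(5,6),(10,0),(18,0),(1,6),(13,4)]⟩⟩,⟨true,1,⟨0,[(24,0),(18,0)]⟩,⟨0,[(1,0)]⟩⟩,
  ⟨false,0,⟨7,[(2,0),(5,2),(31,0),(6,2),(0,2),(1,0)]⟩,⟨1,[(21,0),(38,0)]⟩⟩,⟨false,0,⟨0,[(3,0)]⟩,⟨31,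
  [(0,23),(0,1),(18,5),(7,1),(11,7),(0,11),(0,5),(10,2),(6,10)]⟩⟩,⟨false,0,⟨35,[(2,7),(5,19),(16,3),
  (13,3),(0,6),(0,0),(5,3),(9,11)]⟩,⟨1,[(21,0),(36,1),(1,0)]⟩⟩,⟨true,0,⟨5,[(3,1),(1,2),(10,0),(8,
  3)]⟩,⟨0,[(0,0)]⟩⟩,[.o ⟨false,0,⟨0,[(10,0)]⟩,⟨27,[(0,7),(0,3),(7,3),(3,11),(26,6),(0,14),(0,3),(10,
  7),(6,1)]⟩⟩,.a ⟨true,0,⟨0,[(15,0)]⟩,⟨8,[(0,5),(7,2),(4,0),(6,0),(17,2),(3,1),(4,2)]⟩⟩ ⟨true,0,⟨0,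
  []⟩,⟨9,[(1,1),(33,1),(4,0),(0,0),(1,1),(4,1)]⟩⟩ ⟨false,1,⟨0,[(7,0),(19,0)]⟩,⟨8,[(0,2),(0,4),(11,
  0),(11,0),(13,1),(0,0),(0,3),(5,0),(9,3)]⟩⟩,.o ⟨false,0,⟨0,[(48,0)]⟩,⟨19,[(24,11),(10,3),(4,2),(0,
  2),(11,1)]⟩⟩,.o ⟨false,0,⟨9,[(1,1),(33,1),(4,0),(0,0),(1,1),(4,11)]⟩,⟨0,[(24,0)]⟩⟩]⟩) (.K ⟨1,[1,
  -1,0,-1],0,0,(⟨0,[(12,0)]⟩,⟨0,[(43,0),(11,0)]⟩),(.x (-1) ⟨15,[(26,3),(5,3),(7,6),(0,6),(11,1)]⟩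
  ⟨0,[(55,0)]⟩),(.r (-1) ⟨9,[(6,1),(5,3),(2,3),(2,3),(11,4),(9,2),(9,4),(7,6)]⟩ ⟨1,[(2,0),(6,0),(31,
  0),(15,0)]⟩),.k,.k,.k,[⟨7,[(1,1),(38,0),(0,0),(0,5),(6,1)]⟩,⟨12,[(2,2),(6,3),(0,1),(0,0),(6,4),
  (24,10),(9,2)]⟩,⟨0,[(11,0),(26,0),(3,0),(3,0)]⟩,⟨0,[(15,0),(42,0)]⟩]⟩)) (.K ⟨1,[1,-1,0,-1],0,0,
  (⟨0,[(11,0)]⟩,⟨0,[(42,0),(11,0)]⟩),(.x (-1) ⟨15,[(25,3),(5,3),(7,6),(0,6),(11,1)]⟩ ⟨0,[(54,0)]⟩),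
  (.r (-1) ⟨9,[(5,1),(5,3),(2,3),(2,3),(11,4),(9,2),(9,4),(7,6)]⟩ ⟨1,[(1,0),(6,0),(31,0),(15,0)]⟩),
  .k,.k,.k,[⟨1,[(41,1),(5,0),(0,0)]⟩,⟨12,[(1,2),(6,3),(0,1),(0,0),(6,4),(24,10),(9,2)]⟩,⟨0,[(10,0),
  (26,0),(3,0),(3,0)]⟩,⟨0,[(14,0),(42,0)]⟩]⟩)) (.K ⟨1,[1,-1,0,-1],0,0,(⟨0,[(10,0)]⟩,⟨0,[(41,0),(11,
  0)]⟩),(.x (-1) ⟨15,[(24,3),(5,3),(7,6),(0,6),(11,1)]⟩ ⟨0,[(53,0)]⟩),(.r (-1) ⟨4,[(0,1),(3,0),(5,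
  1),(2,2),(2,2),(21,1),(1,0),(7,1)]⟩ ⟨2,[(6,0),(0,1),(37,0),(0,0),(8,1)]⟩),.k,.k,.k,[⟨1,[(40,1),(5,
  0),(0,0)]⟩,⟨13,[(6,0),(0,1),(0,3),(0,0),(5,3),(25,9),(1,5),(2,5)]⟩,⟨0,[(9,0),(26,0),(3,0),(3,0)]⟩,
  ⟨0,[(13,0),(42,0)]⟩]⟩))) (.Q [0,-1,-1,-1,0,0,-1,-1,-1,-1,1,1] (.p true [0,0,1] [1,0,0,-1] (⟨0,
  [(48,0)]⟩,⟨0,[(47,0)]⟩) .k 2 (⟨0,[(38,0)]⟩,⟨0,[(39,0)]⟩) .k (.r (-1) ⟨27,[(5,7),(11,7),(11,3),(4,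
  3),(1,4),(0,14)]⟩ ⟨1,[(10,1),(0,0),(0,0),(31,1)]⟩)) (.R ⟨1,false,false,true,[1,0,0,-1],[0,0,1],[0,
  1,1,0,0,0,0,1],(⟨0,[(39,0)]⟩,⟨0,[(40,0)]⟩),(⟨0,[(49,0)]⟩,⟨0,[(48,0)]⟩),⟨0,[(9,0)]⟩,.k,.k,(.x (-1)
  ⟨15,[(23,3),(5,3),(7,6),(0,6),(11,1)]⟩ ⟨0,[(52,0)]⟩),.k,(.r 0 ⟨3,[(0,1),(6,0),(3,1),(1,0),(1,0),
  (20,1),(2,1)]⟩ ⟨13,[(6,7),(11,0),(11,3),(4,3),(1,4),(0,7)]⟩),.k,⟨true,0,⟨1,[(45,0),(0,0)]⟩,⟨0,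
  []⟩⟩,⟨false,0,⟨0,[(33,0),(5,0),(3,0)]⟩,⟨27,[(2,5),(10,5),(10,11),(7,7),(4,2),(0,8),(1,15),(9,
  3)]⟩⟩,⟨false,1,⟨47,[(1,11),(4,19),(8,3),(2,5),(13,7),(4,16),(0,24),(1,11),(2,3)]⟩,⟨0,[(7,0),(25,
  0),(5,0)]⟩⟩,⟨true,0,⟨0,[(1,0)]⟩,⟨2,[(0,0),(6,0),(5,0),(5,0)]⟩⟩,⟨false,1,⟨13,[(6,7),(11,0),(11,3),
  (4,3),(1,4),(0,7)]⟩,⟨1,[(7,0),(4,0),(2,0),(17,1),(5,1)]⟩⟩,⟨false,1,⟨55,[(1,47),(3,3),(4,7),(6,15),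
  (7,3),(11,14),(0,16),(11,3),(6,19)]⟩,⟨0,[(0,0)]⟩⟩,[.o ⟨false,0,⟨0,[(43,0)]⟩,⟨7,[(20,3),(16,0),(0,
  0),(11,1),(6,3)]⟩⟩,.e ⟨true,0,⟨3,[(1,0),(10,0),(2,0),(12,1),(14,0),(2,1)]⟩,⟨0,[(47,0)]⟩⟩ ⟨true,0,
  ⟨3,[(1,0),(10,0),(2,0),(12,1),(10,3),(3,0),(1,1)]⟩,⟨3,[(0,1),(4,0),(2,0),(5,1),(20,1),(4,1)]⟩⟩,.o
  ⟨false,1,⟨3,[(7,3),(29,0),(0,2)]⟩,⟨4,[(10,0),(3,2),(10,0),(13,3),(2,0),(2,1),(7,0)]⟩⟩,.a ⟨true,0,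
  ⟨0,[(40,0)]⟩,⟨0,[(39,0)]⟩⟩ ⟨false,1,⟨6,[(6,1),(11,1),(11,0),(4,0),(1,2),(0,1)]⟩,⟨0,[(33,0)]⟩⟩
  ⟨true,0,⟨0,[(39,0),(3,0)]⟩,⟨3,[(0,1),(4,0),(2,0),(5,1),(20,1),(4,1)]⟩⟩]⟩) (.Q [0,-1,-1,-2,0,0,-1,
  -1,-1,-1,1,1] (.p true [0,0,1] [1,0,0,-1] (⟨0,[(49,0)]⟩,⟨0,[(48,0)]⟩) .k 2 (⟨0,[(39,0)]⟩,⟨0,[(40,
  0)]⟩) .k (.r (-1) ⟨27,[(6,7),(11,7),(11,3),(4,3),(1,4),(0,14)]⟩ ⟨1,[(11,1),(0,0),(0,0),(31,1)]⟩))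
  (.R ⟨1,false,false,true,[1,0,0,-1],[0,1,1],[0,1,1,1,0,0,0,1],(⟨0,[(40,0)]⟩,⟨0,[(41,0)]⟩),(⟨0,[(50,
  0),(2,0)]⟩,⟨0,[(35,0)]⟩),⟨0,[(10,0)]⟩,.k,.k,(.x (-1) ⟨15,[(24,3),(5,3),(7,6),(0,6),(11,1)]⟩ ⟨0,
  [(53,0)]⟩),(.r 0 ⟨7,[(0,2),(7,2),(3,4),(1,1),(1,0),(20,3),(2,2)]⟩ ⟨13,[(7,7),(11,0),(11,3),(4,3),
  (1,4),(0,7)]⟩),(.r (-1) ⟨75,[(0,39),(15,7),(8,55),(11,63),(0,18),(0,0),(0,39),(4,31),(2,3)]⟩ ⟨0,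
  [(7,0),(47,0)]⟩),.k,⟨false,1,⟨3,[(38,0),(0,0),(17,1)]⟩,⟨0,[]⟩⟩,⟨true,0,⟨0,[(34,0),(5,0),(3,0)]⟩,
  ⟨0,[(41,0),(1,0)]⟩⟩,⟨false,1,⟨13,[(7,7),(11,0),(11,3),(4,3),(1,4),(0,7)]⟩,⟨7,[(0,1),(7,5),(7,1),
  (15,0),(1,5),(0,0),(4,7),(8,0),(4,0)]⟩⟩,⟨true,0,⟨0,[(1,0)]⟩,⟨2,[(0,1),(13,0),(8,0)]⟩⟩,⟨false,1,
  ⟨15,[(7,3),(18,7),(4,3),(4,3),(1,4),(0,10),(15,3)]⟩,⟨3,[(0,1),(7,1),(7,1),(15,0),(1,1),(0,0),(4,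
  3),(8,0),(4,0)]⟩⟩,⟨false,1,⟨47,[(1,39),(4,3),(4,7),(6,15),(7,3),(11,12),(0,14),(11,3),(6,15)]⟩,⟨0,
  [(0,0)]⟩⟩,[.o ⟨false,0,⟨0,[(31,0)]⟩,⟨7,[(16,3),(4,3),(16,0),(0,0),(18,5)]⟩⟩,.e ⟨true,0,⟨1,[(29,0),
  (1,0),(15,0)]⟩,⟨3,[(0,0),(8,0),(6,0),(20,0),(2,0),(4,0),(2,0)]⟩⟩ ⟨true,0,⟨1,[(26,0),(13,1),(3,0),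
  (1,0)]⟩,⟨1,[(0,0),(8,0),(5,0),(20,0),(4,0)]⟩⟩,.o ⟨false,1,⟨3,[(8,3),(29,0),(0,2)]⟩,⟨4,[(11,0),(3,
  2),(10,0),(13,3),(2,0),(2,1),(7,0)]⟩⟩,.a ⟨true,0,⟨0,[(41,0)]⟩,⟨0,[(40,0)]⟩⟩ ⟨false,1,⟨15,[(18,1),
  (0,2),(6,5),(4,1),(4,3),(1,5),(0,5),(11,0)]⟩,⟨7,[(0,1),(8,1),(6,1),(15,0),(1,3),(0,0),(4,1),(8,0),
  (4,0)]⟩⟩ ⟨true,0,⟨0,[(31,0),(8,0)]⟩,⟨1,[(0,0),(8,0),(5,0),(20,0),(4,0)]⟩⟩]⟩) (.K ⟨1,[1,-1,0,-1],0,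
  0,(⟨0,[(10,0)]⟩,⟨0,[(41,0),(11,0)]⟩),(.x (-1) ⟨15,[(24,3),(5,3),(7,6),(0,6),(11,1)]⟩ ⟨0,[(53,
  0)]⟩),(.r (-1) ⟨9,[(4,1),(5,3),(2,3),(2,3),(11,4),(9,2),(9,4),(7,6)]⟩ ⟨2,[(6,0),(0,1),(37,0),(0,
  0),(8,1)]⟩),.k,.k,.k,[⟨1,[(40,1),(5,0),(0,0)]⟩,⟨13,[(6,0),(0,1),(0,3),(0,0),(5,3),(25,9),(1,5),(2,
  5)]⟩,⟨2,[(0,0),(1,0),(6,0),(26,0),(3,0),(4,0)]⟩,⟨0,[(13,0),(42,0)]⟩]⟩))))) (.Q [0,1,1,-2,0,0,0,0,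
  1,0,0,-1] (.p false [0,0,0,1] [] (⟨0,[(37,0)]⟩,⟨0,[(36,0)]⟩) .k 0 (⟨0,[]⟩,⟨0,[]⟩) .k .k) (.Q [0,0,
  -3,0,1,0,0,0,0,0,0,1] (.p true [0,0,0,1] [] (⟨0,[(38,0)]⟩,⟨0,[(37,0)]⟩) .k 0 (⟨0,[]⟩,⟨0,[]⟩) .k
  .k) (.R ⟨1,true,false,false,[0,0,0,1],[0,1],[0,0,0,-1,0,0,0,0,1],(⟨0,[(39,0)]⟩,⟨0,[(38,0)]⟩),(⟨0,
  [(51,0)]⟩,⟨0,[(50,0)]⟩),⟨1,[(0,0),(1,0),(36,0)]⟩,.k,.k,(.r (-1) ⟨3,[(0,1),(0,1),(35,0),(18,0)]⟩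
  ⟨66,[(2,25),(0,14),(5,14),(5,3),(0,3),(7,1),(4,16),(6,25),(7,1),(6,51)]⟩),(.r (-1) ⟨3,[(0,1),(0,
  1),(35,0),(18,0)]⟩ ⟨66,[(2,25),(0,14),(5,14),(5,3),(0,3),(7,1),(4,16),(6,25),(7,1),(6,51)]⟩),(.r
  (-2) ⟨3,[(0,3),(0,3),(34,0),(0,0),(18,1)]⟩ ⟨2,[(2,2),(3,2),(2,1),(6,1),(21,0),(12,5)]⟩),.k,⟨true,
  1,⟨9,[(0,5),(0,8),(5,1),(3,0),(5,0),(21,1),(16,2)]⟩,⟨2,[(2,2),(3,2),(2,1),(6,1),(21,0),(12,5)]⟩⟩,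
  ⟨false,1,⟨0,[(0,0)]⟩,⟨0,[(38,0),(2,0),(2,0)]⟩⟩,⟨true,0,⟨0,[(54,0)]⟩,⟨0,[(53,0)]⟩⟩,⟨false,0,⟨0,[(3,
  0)]⟩,⟨17,[(1,11),(2,1),(0,1),(30,4),(0,5),(0,5),(10,2),(6,3)]⟩⟩,⟨false,1,⟨3,[(36,0),(0,0),(18,
  1)]⟩,⟨0,[]⟩⟩,⟨true,0,⟨6,[(3,4),(8,1),(3,2),(4,2)]⟩,⟨0,[(1,0)]⟩⟩,[]⟩) (.R ⟨1,false,false,false,[0,
  0,0,1],[0,1],[1],(⟨0,[(39,0)]⟩,⟨0,[(38,0)]⟩),(⟨0,[(51,0)]⟩,⟨0,[(50,0)]⟩),⟨4,[(2,0),(3,1),(0,1),(9,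
  0),(10,1),(1,0),(3,1),(4,2)]⟩,.k,.k,(.r (-1) ⟨3,[(1,0),(9,0),(14,1),(10,1),(8,1)]⟩ ⟨7,[(0,2),(2,
  0),(0,0),(7,1),(3,0),(4,0),(2,0),(11,2)]⟩),(.r (-1) ⟨3,[(1,0),(9,0),(14,1),(10,1),(8,1)]⟩ ⟨7,[(0,
  2),(2,0),(0,0),(7,1),(3,0),(4,0),(2,0),(11,2)]⟩),(.r (-2) ⟨9,[(1,3),(21,5),(2,5),(8,5),(1,2),(1,
  3),(3,5),(12,4)]⟩ ⟨6,[(0,6),(2,4),(8,1),(3,2),(4,2)]⟩),.k,⟨false,1,⟨0,[(26,0),(19,0)]⟩,⟨36,[(0,5),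
  (3,6),(0,4),(18,1),(11,5),(2,5),(13,13)]⟩⟩,⟨true,1,⟨1,[(11,0),(0,0),(24,0),(17,0)]⟩,⟨0,[(0,0)]⟩⟩,
  ⟨false,0,⟨8,[(0,0),(5,5),(4,0),(24,0),(1,5),(13,3)]⟩,⟨3,[(36,0),(0,2)]⟩⟩,⟨false,0,⟨0,[(3,0)]⟩,⟨11,
  [(0,1),(0,5),(34,2),(0,5),(0,3),(10,1),(6,2)]⟩⟩,⟨false,0,⟨2,[(0,0),(2,2),(34,1),(10,0)]⟩,⟨39,[(1,
  15),(21,3),(2,3),(8,3),(0,4),(0,16),(1,15),(3,3),(12,9)]⟩⟩,⟨true,0,⟨6,[(3,4),(8,1),(3,2),(4,2)]⟩,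
  ⟨0,[(1,0)]⟩⟩,[.a ⟨true,0,⟨3,[(16,0),(8,0),(12,2),(0,2)]⟩,⟨0,[(54,0)]⟩⟩ ⟨true,0,⟨0,[]⟩,⟨5,[(0,1),
  (35,0),(0,0),(1,1)]⟩⟩ ⟨false,1,⟨13,[(3,7),(8,5),(3,1),(4,1),(15,6),(17,6)]⟩,⟨11,[(0,3),(13,5),(23,
  7),(10,0),(6,2)]⟩⟩,.o ⟨false,1,⟨23,[(15,3),(0,7),(19,4),(0,4),(11,1),(6,11)]⟩,⟨0,[(13,0)]⟩⟩,.o
  ⟨false,0,⟨2,[(0,0),(37,1),(10,0)]⟩,⟨3,[(6,3),(29,0),(0,2)]⟩⟩,.o ⟨false,0,⟨11,[(0,7),(35,2),(0,2),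
  (0,3),(10,1)]⟩,⟨1,[(6,1),(30,0),(17,0)]⟩⟩]⟩)) (.Q [0,-1,-1,0,0,0,-1,-1,-1,-1,1,1] (.p true [0,0,
  1] [1,0,0,-1] (⟨0,[(47,0)]⟩,⟨0,[(46,0)]⟩) .k 2 (⟨0,[(37,0)]⟩,⟨0,[(38,0)]⟩) .k (.r (-1) ⟨27,[(4,7),
  (11,7),(11,3),(4,3),(1,4),(0,14)]⟩ ⟨19,[(1,3),(3,5),(3,11),(0,2),(0,2),(22,5),(0,3),(9,7),(4,
  7)]⟩)) (.Q [0,1,1,-1,0,0,1,1,1,1,-1,-1] (.p false [0,0,1] [1,0,0,-1] (⟨0,[(48,0)]⟩,⟨0,[(47,0)]⟩)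
  .k 2 (⟨0,[(38,0)]⟩,⟨0,[(39,0)]⟩) .k (.r (-1) ⟨27,[(5,7),(11,7),(11,3),(4,3),(1,4),(0,14)]⟩ ⟨4,[(0,
  0),(1,0),(3,0),(3,2),(1,0),(22,1),(0,0),(9,0),(4,1)]⟩)) (.R ⟨1,false,false,false,[0,0,1],[1,0,0,
  -1],[0,1,1],(⟨0,[(49,0)]⟩,⟨0,[(48,0)]⟩),(⟨0,[(39,0)]⟩,⟨0,[(40,0)]⟩),⟨1,[(23,0),(25,0)]⟩,.k,.k,.k,
  .k,(.r (-1) ⟨1,[(18,0),(19,0)]⟩ ⟨19,[(2,0),(0,7),(3,1),(2,3),(2,0),(2,5),(2,1),(16,9),(0,7),(14,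
  15)]⟩),.k,⟨true,0,⟨3,[(0,1),(4,0),(2,0),(5,1),(20,1),(4,1)]⟩,⟨9,[(3,0),(3,7),(29,0),(1,7),(12,1),
  (0,4)]⟩⟩,⟨false,1,⟨0,[(21,0),(18,0)]⟩,⟨0,[(39,0),(5,0)]⟩⟩,⟨false,0,⟨6,[(3,0),(4,1),(28,0),(6,1),
  (0,1),(1,2),(4,1)]⟩,⟨2,[(25,0),(1,1),(29,0)]⟩⟩,⟨false,0,⟨0,[(1,0)]⟩,⟨63,[(0,55),(4,3),(4,7),(6,
  15),(7,3),(11,16),(0,18),(11,3),(6,23)]⟩⟩,⟨false,0,⟨13,[(3,1),(1,3),(10,2),(19,2),(0,1),(6,3),(0,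
  3),(6,3)]⟩,⟨1,[(18,0),(38,0)]⟩⟩,⟨true,0,⟨3,[(2,0),(4,1),(5,0),(5,1)]⟩,⟨0,[(0,0)]⟩⟩,[.o ⟨false,0,
  ⟨0,[(7,0)]⟩,⟨39,[(0,21),(5,3),(1,7),(1,17),(21,1),(4,10),(0,13),(11,9),(6,4)]⟩⟩,.a ⟨true,0,⟨0,
  [(12,0)]⟩,⟨5,[(0,3),(4,0),(2,0),(26,1),(3,1),(4,1)]⟩⟩ ⟨true,0,⟨1,[(45,0),(0,0)]⟩,⟨0,[]⟩⟩ ⟨false,1,
  ⟨25,[(4,17),(2,1),(16,17),(7,3),(4,2),(2,5),(9,0),(6,3)]⟩,⟨4,[(0,3),(4,0),(4,0),(11,0),(13,1),(7,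
  0)]⟩⟩,.o ⟨false,0,⟨0,[(33,0),(9,0)]⟩,⟨9,[(21,1),(10,3),(4,2),(0,2),(11,1)]⟩⟩,.o ⟨false,0,⟨0,[(45,
  0)]⟩,⟨19,[(21,11),(10,3),(4,2),(0,2),(11,1)]⟩⟩]⟩) (.Q [0,1,1,-2,0,0,1,1,1,1,-1,-1] (.p false [0,0,
  1] [1,0,0,-1] (⟨0,[(49,0)]⟩,⟨0,[(48,0)]⟩) .k 2 (⟨0,[(39,0)]⟩,⟨0,[(40,0)]⟩) .k (.r (-1) ⟨27,[(6,7),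
  (11,7),(11,3),(4,3),(1,4),(0,14)]⟩ ⟨4,[(1,0),(1,0),(3,0),(3,2),(1,0),(22,1),(0,0),(9,0),(4,1)]⟩))
  (.R ⟨1,false,false,false,[0,-1,1],[1,0,0,-1],[1,1],(⟨1,[(24,0),(25,0)]⟩,⟨0,[(49,0),(3,0)]⟩),(⟨0,
  [(40,0)]⟩,⟨0,[(41,0)]⟩),⟨0,[(24,0)]⟩,.k,.k,(.r (-1) ⟨1,[(0,0),(12,0),(11,0),(2,0)]⟩ ⟨8,[(4,2),(1,
  5),(20,0),(10,2),(6,1),(0,2),(6,5),(1,3)]⟩),(.r (-1) ⟨1,[(19,0),(19,0)]⟩ ⟨29,[(1,3),(2,11),(6,5),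
  (2,1),(2,8),(5,1),(13,14),(0,11),(14,23)]⟩),(.r (-2) ⟨3,[(0,1),(12,1),(11,1),(2,1),(9,0),(0,2)]⟩
  ⟨9,[(3,3),(0,9),(3,3),(2,9),(2,1),(8,0),(7,0),(5,4),(15,19)]⟩),.k,⟨false,1,⟨1,[(39,0),(17,0),(2,
  1)]⟩,⟨9,[(4,0),(3,7),(29,0),(1,7),(12,1),(0,4)]⟩⟩,⟨true,1,⟨0,[(22,0),(18,0)]⟩,⟨0,[(4,0),(29,0),(5,
  0),(3,0),(8,1)]⟩⟩,⟨false,0,⟨13,[(4,1),(1,3),(10,2),(19,2),(0,1),(6,3),(0,3),(6,3)]⟩,⟨1,[(19,0),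
  (38,0)]⟩⟩,⟨false,0,⟨0,[(1,0)]⟩,⟨47,[(0,39),(5,3),(11,7),(7,3),(11,12),(0,14),(0,7),(10,3),(6,
  15)]⟩⟩,⟨false,0,⟨0,[(27,0),(18,0)]⟩,⟨1,[(0,0),(1,0),(16,0),(38,0)]⟩⟩,⟨true,0,⟨5,[(1,1),(1,2),(10,
  0),(8,3)]⟩,⟨0,[(0,0)]⟩⟩,[.o ⟨false,0,⟨0,[(8,0)]⟩,⟨23,[(0,11),(5,3),(0,3),(3,11),(26,6),(0,8),(11,
  5),(6,1)]⟩⟩,.a ⟨true,0,⟨0,[(13,0)]⟩,⟨8,[(0,5),(5,2),(4,0),(6,0),(17,2),(3,1),(4,2)]⟩⟩ ⟨true,0,⟨0,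
  []⟩,⟨1,[(46,0),(0,0)]⟩⟩ ⟨false,1,⟨0,[(5,0),(19,0)]⟩,⟨40,[(0,31),(3,2),(1,14),(4,8),(6,8),(19,2),
  (6,16),(0,25),(6,5),(1,6)]⟩⟩,.o ⟨false,0,⟨0,[(46,0)]⟩,⟨19,[(22,11),(10,3),(4,2),(0,2),(11,1)]⟩⟩,
  .o ⟨false,0,⟨1,[(46,2),(0,0)]⟩,⟨0,[(22,0)]⟩⟩]⟩) (.K ⟨1,[1,1,0,-1],1,0,(⟨0,[(40,0),(12,0)]⟩,⟨4,[(0,
  0),(3,0),(4,0),(5,0),(3,0),(10,1),(1,0),(3,0),(4,3)]⟩),(.r 0 ⟨9,[(0,0),(2,0),(0,3),(6,1),(6,0),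
  (12,1),(6,3),(14,7)]⟩ ⟨1,[(28,0),(10,0),(8,0),(7,0)]⟩),.k,(.r 1 ⟨1,[(3,0),(0,1),(3,0),(2,0),(19,
  0),(8,0),(12,3)]⟩ ⟨5,[(16,1),(11,5),(8,1),(1,2),(5,3),(2,1),(7,1),(1,2)]⟩),.k,.k,[⟨0,[(4,0),(35,
  0),(12,1)]⟩,⟨3,[(8,3),(29,0),(0,2)]⟩,⟨8,[(4,1),(2,1),(1,6),(6,7),(2,1),(12,3),(3,8),(3,8),(3,0),
  (4,7)]⟩,⟨0,[(5,0)]⟩]⟩))) (.Q [0,-1,-1,-1,0,0,-1,-1,-1,-1,1,1] (.p true [0,0,1] [1,0,0,-1] (⟨0,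
  [(48,0)]⟩,⟨0,[(47,0)]⟩) .k 2 (⟨0,[(38,0)]⟩,⟨0,[(39,0)]⟩) .k (.r (-1) ⟨27,[(5,7),(11,7),(11,3),(4,
  3),(1,4),(0,14)]⟩ ⟨19,[(2,3),(3,5),(3,11),(0,2),(0,2),(22,5),(0,3),(9,7),(4,7)]⟩)) (.R ⟨1,false,
  false,true,[1,0,0,-1],[0,0,1],[0,1,1,0,0,0,0,1],(⟨0,[(39,0)]⟩,⟨0,[(40,0)]⟩),(⟨0,[(49,0)]⟩,⟨0,[(48,
  0)]⟩),⟨0,[(9,0)]⟩,.k,.k,(.x (-1) ⟨15,[(23,3),(5,3),(7,6),(0,6),(11,1)]⟩ ⟨0,[(52,0)]⟩),.k,(.r 0 ⟨3,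
  [(0,1),(6,0),(3,1),(1,0),(1,0),(20,1),(2,1)]⟩ ⟨13,[(6,7),(11,0),(11,3),(4,3),(1,4),(0,7)]⟩),.k,
  ⟨true,0,⟨1,[(45,0),(0,0)]⟩,⟨0,[]⟩⟩,⟨false,0,⟨0,[(33,0),(5,0),(3,0)]⟩,⟨27,[(2,5),(10,5),(10,11),(7,
  7),(4,2),(0,8),(1,15),(9,3)]⟩⟩,⟨false,1,⟨47,[(1,11),(4,19),(8,3),(2,5),(13,7),(4,16),(0,24),(1,
  11),(2,3)]⟩,⟨0,[(7,0),(25,0),(5,0)]⟩⟩,⟨true,0,⟨0,[(1,0)]⟩,⟨2,[(0,0),(6,0),(5,0),(5,0)]⟩⟩,⟨false,1,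
  ⟨13,[(6,7),(11,0),(11,3),(4,3),(1,4),(0,7)]⟩,⟨1,[(7,0),(4,0),(2,0),(17,1),(5,1)]⟩⟩,⟨false,1,⟨55,
  [(1,47),(3,3),(4,7),(6,15),(7,3),(11,14),(0,16),(11,3),(6,19)]⟩,⟨0,[(0,0)]⟩⟩,[.o ⟨false,0,⟨0,[(43,
  0)]⟩,⟨7,[(20,3),(16,0),(0,0),(11,1),(6,3)]⟩⟩,.e ⟨true,0,⟨29,[(3,5),(2,1),(11,4),(9,7),(8,0),(5,9),
  (2,9),(5,11)]⟩,⟨0,[(47,0)]⟩⟩ ⟨true,0,⟨9,[(1,1),(1,0),(33,0),(1,7),(3,7),(8,1),(0,4)]⟩,⟨3,[(0,1),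
  (4,0),(2,0),(5,1),(20,1),(4,1)]⟩⟩,.o ⟨false,1,⟨3,[(7,3),(29,0),(0,2)]⟩,⟨4,[(10,0),(3,2),(10,0),
  (13,3),(2,0),(2,1),(7,0)]⟩⟩,.a ⟨true,0,⟨0,[(40,0)]⟩,⟨0,[(39,0)]⟩⟩ ⟨false,1,⟨6,[(6,1),(11,1),(11,
  0),(4,0),(1,2),(0,1)]⟩,⟨0,[(33,0)]⟩⟩ ⟨true,0,⟨0,[(39,0),(3,0)]⟩,⟨3,[(0,1),(4,0),(2,0),(5,1),(20,
  1),(4,1)]⟩⟩]⟩) (.K ⟨1,[1,-1,0,-1],0,0,(⟨0,[(9,0)]⟩,⟨0,[(40,0),(11,0)]⟩),(.x (-1) ⟨15,[(23,3),(5,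
  3),(7,6),(0,6),(11,1)]⟩ ⟨0,[(52,0)]⟩),(.r (-1) ⟨3,[(12,1),(2,1),(11,2),(9,0),(1,1),(7,2),(7,0)]⟩
  ⟨2,[(5,0),(0,1),(37,0),(0,0),(8,1)]⟩),.k,.k,.k,[⟨1,[(39,1),(5,0),(0,0)]⟩,⟨13,[(5,0),(0,1),(0,3),
  (0,0),(5,3),(25,9),(1,5),(2,5)]⟩,⟨2,[(0,1),(7,0),(26,0),(3,0),(4,0)]⟩,⟨0,[(12,0),(42,
  0)]⟩]⟩)))))))) (.R ⟨2,true,false,false,[0,1],[1,0,0,-1],[1,1,1,1],(⟨0,[]⟩,⟨0,[]⟩),(⟨0,[(32,0)]⟩,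
  ⟨0,[(33,0)]⟩),⟨0,[]⟩,.k,.k,.k,(.x 0 ⟨0,[(45,0)]⟩ ⟨15,[(16,3),(5,3),(7,6),(0,6),(11,1)]⟩),.k,.k,
  ⟨true,0,⟨2,[(0,0),(0,1),(5,0),(15,1),(4,1),(4,0)]⟩,⟨2,[(5,2),(1,0),(0,0),(23,2),(2,0),(2,0),(7,
  0)]⟩⟩,⟨false,1,⟨1,[(5,0),(0,0),(24,0),(11,0)]⟩,⟨0,[(32,0)]⟩⟩,⟨false,0,⟨0,[]⟩,⟨3,[(30,0),(0,0),(18,
  1)]⟩⟩,⟨true,0,⟨0,[(5,0),(1,0)]⟩,⟨0,[(0,0),(46,0)]⟩⟩,⟨true,0,⟨0,[(47,0)]⟩,⟨0,[(48,0)]⟩⟩,⟨false,1,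
  ⟨3,[(5,3),(24,0),(0,0),(11,1)]⟩,⟨0,[(0,0)]⟩⟩,[]⟩))) (.Q [0,1,1,1,0,0,0,0,1,1,0,-1] (.p false [0,0,
  0,1] [1] (⟨0,[(31,0)]⟩,⟨0,[(30,0)]⟩) .k 1 (⟨0,[]⟩,⟨0,[]⟩) .k .k) (.R ⟨0,false,false,true,[1,0,0,
  -1],[0,1],[0,0,1],(⟨0,[(31,0)]⟩,⟨0,[(32,0)]⟩),(⟨0,[(44,0)]⟩,⟨0,[(43,0)]⟩),⟨0,[(1,0)]⟩,.k,.k,(.x
  (-1) ⟨15,[(15,3),(5,3),(7,6),(0,6),(11,1)]⟩ ⟨0,[(44,0)]⟩),(.x (-1) ⟨15,[(15,3),(5,3),(7,6),(0,6),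
  (11,1)]⟩ ⟨0,[(44,0)]⟩),.k,.k,⟨false,1,⟨1,[(19,0),(19,0),(7,0),(1,0)]⟩,⟨0,[(46,0)]⟩⟩,⟨true,0,⟨0,
  [(31,0)]⟩,⟨5,[(1,3),(13,0),(5,0),(10,1),(1,2),(2,2)]⟩⟩,⟨false,1,⟨1,[(30,0),(6,0),(0,0),(10,0)]⟩,
  ⟨2,[(2,0),(1,2),(1,1),(15,0),(8,1)]⟩⟩,⟨true,0,⟨0,[(0,0)]⟩,⟨0,[(4,0),(1,0)]⟩⟩,⟨false,0,⟨0,[]⟩,⟨0,
  []⟩⟩,⟨false,0,⟨0,[]⟩,⟨0,[]⟩⟩,[.o ⟨false,0,⟨0,[(46,0)]⟩,⟨3,[(7,1),(34,0),(6,2)]⟩⟩,.a ⟨true,0,⟨3,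
  [(9,0),(8,0),(12,2),(0,2)]⟩,⟨0,[(47,0)]⟩⟩ ⟨true,0,⟨3,[(37,0),(0,0),(6,1)]⟩,⟨0,[(51,0)]⟩⟩ ⟨false,0,
  ⟨2,[(2,0),(6,0),(21,1)]⟩,⟨15,[(7,3),(8,7),(11,3),(0,0),(0,0),(1,15),(9,3),(6,1)]⟩⟩,.o ⟨false,1,⟨1,
  [(4,0),(0,0),(24,0),(11,0)]⟩,⟨4,[(2,0),(3,2),(10,0),(13,3),(2,0),(2,1),(7,0)]⟩⟩,.e ⟨false,1,⟨3,
  [(29,0),(0,0),(18,1)]⟩,⟨0,[]⟩⟩ ⟨false,0,⟨2,[(2,0),(6,0),(21,1)]⟩,⟨3,[(7,1),(24,3),(9,0),(6,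
  2)]⟩⟩]⟩) (.R ⟨0,false,false,false,[1,0,0,-1],[1,0,-1],[0,1,0,0,0,0,0,0,-1],(⟨0,[(31,0)]⟩,⟨0,[(32,
  0)]⟩),(⟨0,[(40,0)]⟩,⟨0,[(41,0)]⟩),⟨0,[(1,0)]⟩,.k,.k,(.x (-1) ⟨15,[(15,3),(5,3),(7,6),(0,6),(11,
  1)]⟩ ⟨0,[(44,0)]⟩),.k,.k,.k,⟨false,0,⟨0,[(0,0),(26,0),(3,0),(3,0)]⟩,⟨1,[(30,0),(8,1),(9,0)]⟩⟩,
  ⟨true,0,⟨0,[(31,0),(2,0)]⟩,⟨5,[(1,3),(13,0),(5,0),(6,2),(3,1)]⟩⟩,⟨true,0,⟨0,[(51,0)]⟩,⟨0,[]⟩⟩,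
  ⟨false,1,⟨1,[(3,1),(26,0),(6,0),(0,0),(10,0)]⟩,⟨0,[(4,0),(30,0)]⟩⟩,⟨false,0,⟨0,[]⟩,⟨0,[]⟩⟩,⟨false,
  0,⟨0,[]⟩,⟨0,[]⟩⟩,[.e ⟨false,0,⟨2,[(0,0),(1,0),(2,1),(0,0),(15,0),(8,1)]⟩,⟨1,[(30,0),(18,0)]⟩⟩
  ⟨false,0,⟨0,[(3,0)]⟩,⟨11,[(9,3),(0,1),(8,3),(8,3),(0,0),(0,0),(1,11),(9,3)]⟩⟩,.o ⟨false,1,⟨7,[(12,
  3),(16,0),(0,0),(11,1),(6,3)]⟩,⟨0,[(35,0)]⟩⟩,.o ⟨false,1,⟨1,[(4,0),(0,0),(24,0),(11,0)]⟩,⟨4,[(2,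
  0),(3,2),(10,0),(13,3),(2,0),(2,1),(7,0)]⟩⟩,.a ⟨true,0,⟨0,[(32,0)]⟩,⟨0,[(31,0)]⟩⟩ ⟨false,0,⟨2,[(0,
  1),(1,0),(2,0),(16,0),(8,1)]⟩,⟨1,[(30,0),(6,0),(0,0),(10,0)]⟩⟩ ⟨true,0,⟨0,[(3,0)]⟩,⟨0,[(32,0),(2,
  0)]⟩⟩]⟩)))) (.Q [0,0,0,0,0,-1,0,0,0,1,0,-1] (.ed true [0,1,0,1] .k) (.I [1,1,-1,0,0,0,0,1,-1] (.R
  ⟨1,false,false,false,[1,0,0,-1],[1,0,-1],[1,1,0,0,0,0,0,0,-1],(⟨0,[(30,0)]⟩,⟨0,[(31,0)]⟩),(⟨0,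
  [(39,0)]⟩,⟨0,[(40,0)]⟩),⟨0,[(1,0)]⟩,.k,.k,(.x (-1) ⟨15,[(14,3),(5,3),(7,6),(0,6),(11,1)]⟩ ⟨0,[(43,
  0)]⟩),.k,(.x 0 ⟨24,[(5,3),(8,14),(6,3),(0,4),(1,3),(2,3),(8,2),(7,1)]⟩ ⟨9,[(12,1),(10,3),(4,2),(0,
  2),(9,9),(1,1),(1,9)]⟩),.k,⟨false,0,⟨0,[(0,0)]⟩,⟨1,[(29,0),(8,1),(9,0)]⟩⟩,⟨true,0,⟨0,[(30,0),(2,
  0)]⟩,⟨0,[(2,0),(35,0)]⟩⟩,⟨false,0,⟨0,[]⟩,⟨3,[(28,0),(0,0),(18,1)]⟩⟩,⟨false,1,⟨1,[(11,0),(17,0),(0,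
  1),(2,0),(2,0),(11,0)]⟩,⟨0,[(3,0),(30,0)]⟩⟩,⟨true,0,⟨0,[(45,0)]⟩,⟨0,[(46,0)]⟩⟩,⟨false,1,⟨39,[(10,
  23),(5,7),(11,0),(0,20),(0,39),(2,11),(2,19),(4,1),(6,15)]⟩,⟨1,[(2,0),(0,1),(2,0),(23,0),(3,0)]⟩⟩,
  [.a ⟨true,0,⟨1,[(11,0),(18,0),(0,0)]⟩,⟨0,[(2,0),(27,0)]⟩⟩ ⟨false,0,⟨0,[(0,0),(37,0)]⟩,⟨1,[(29,0),
  (18,0)]⟩⟩ ⟨true,0,⟨1,[(11,0),(18,1),(2,0),(2,0)]⟩,⟨0,[(2,0)]⟩⟩,.o ⟨false,1,⟨7,[(11,3),(16,0),(0,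
  0),(11,1),(6,3)]⟩,⟨0,[(34,0)]⟩⟩,.o ⟨false,1,⟨1,[(3,0),(0,0),(24,0),(11,0)]⟩,⟨7,[(5,5),(1,0),(8,1),
  (13,7),(2,0),(2,2),(7,1)]⟩⟩,.e ⟨false,0,⟨0,[(0,0),(23,0)]⟩,⟨1,[(29,0),(6,0),(0,0),(10,0)]⟩⟩
  ⟨false,1,⟨7,[(11,3),(16,0),(0,0),(0,7),(10,1),(6,3)]⟩,⟨0,[(2,0)]⟩⟩]⟩) (.I [0,1,-2,-2,0,0,0,-1,-1]
  (.R ⟨1,false,false,false,[1,0,0,-1],[0,1,1],[0,1,0,-1,0,0,0,0,-1],(⟨0,[(31,0)]⟩,⟨0,[(32,0)]⟩),(⟨0,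
  [(41,0),(2,0)]⟩,⟨0,[(26,0)]⟩),⟨0,[(2,0)]⟩,.k,.k,(.x (-1) ⟨15,[(15,3),(5,3),(7,6),(0,6),(11,1)]⟩
  ⟨0,[(44,0)]⟩),(.r 0 ⟨17,[(0,13),(3,3),(3,2),(8,1),(13,3),(2,0),(2,6),(7,3)]⟩ ⟨3,[(17,1),(11,0),(0,
  2),(4,1),(2,1)]⟩),(.r (-1) ⟨3,[(0,3),(28,0),(0,0),(18,1)]⟩ ⟨0,[(1,0),(7,0),(14,0),(10,0)]⟩),.k,
  ⟨false,0,⟨0,[(0,0)]⟩,⟨3,[(17,3),(11,0),(0,2)]⟩⟩,⟨true,0,⟨0,[(25,0),(5,0),(3,0)]⟩,⟨0,[(32,0),(1,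
  0)]⟩⟩,⟨false,0,⟨0,[(47,0)]⟩,⟨23,[(8,3),(0,7),(19,4),(0,4),(11,1),(6,11)]⟩⟩,⟨false,1,⟨11,[(9,1),(0,
  1),(6,5),(12,5),(0,11),(5,9),(4,0),(6,2)]⟩,⟨3,[(4,2),(0,0),(1,1),(4,1)]⟩⟩,⟨true,0,⟨0,[(51,0)]⟩,⟨0,
  []⟩⟩,⟨false,1,⟨3,[(9,1),(7,1),(12,1),(0,3),(5,1),(4,0),(6,0)]⟩,⟨3,[(0,1),(3,1),(2,1),(4,0),(11,0),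
  (7,1),(12,0)]⟩⟩,[.a ⟨true,0,⟨1,[(3,0),(5,0),(21,0)]⟩,⟨1,[(0,0),(0,0),(22,0),(6,0),(0,0)]⟩⟩ ⟨false,
  0,⟨2,[(0,1),(4,0),(14,0),(10,0),(2,0),(0,0)]⟩,⟨47,[(1,5),(6,5),(0,15),(3,3),(3,1),(12,20),(11,2),
  (6,19)]⟩⟩ ⟨true,0,⟨1,[(17,0),(13,1),(3,0),(1,0)]⟩,⟨1,[(0,0),(0,0),(1,1),(8,0),(11,0)]⟩⟩,.o ⟨false,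
  1,⟨5,[(9,3),(0,0),(26,1),(4,1),(6,2)]⟩,⟨6,[(7,3),(4,1),(1,0),(21,1)]⟩⟩,.o ⟨false,1,⟨1,[(4,0),(0,
  0),(24,0),(11,0)]⟩,⟨7,[(6,5),(1,0),(8,1),(13,7),(2,0),(2,2),(7,1)]⟩⟩,.e ⟨false,0,⟨0,[(0,0),(19,
  0)]⟩,⟨7,[(1,3),(15,3),(11,2),(0,4)]⟩⟩ ⟨false,1,⟨5,[(9,3),(0,0),(20,5),(5,1),(4,1),(6,2)]⟩,⟨1,[(0,
  0),(0,0),(1,1),(8,0),(11,0)]⟩⟩]⟩) (.Q [0,1,1,-1,0,0,0,0,1,0,0,-1] (.p false [0,0,0,1] [] (⟨0,[(32,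
  0)]⟩,⟨0,[(31,0)]⟩) .k 0 (⟨0,[]⟩,⟨0,[]⟩) .k .k) (.R ⟨1,false,false,true,[1,0,0,-1],[1,-1],[1,1],
  (⟨0,[(32,0)]⟩,⟨0,[(33,0)]⟩),(⟨0,[(44,0)]⟩,⟨0,[(45,0)]⟩),⟨0,[(3,0)]⟩,.k,.k,(.x (-1) ⟨15,[(16,3),(5,
  3),(7,6),(0,6),(11,1)]⟩ ⟨0,[(45,0)]⟩),(.r 0 ⟨5,[(5,2),(0,2),(8,1),(2,1),(13,5),(2,3),(2,5)]⟩ ⟨6,
  [(2,2),(5,0),(11,4),(8,0),(1,1),(5,1)]⟩),.k,.k,⟨true,0,⟨9,[(18,1),(0,1),(18,4),(0,2),(7,1)]⟩,⟨0,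
  [(48,0)]⟩⟩,⟨false,0,⟨7,[(7,5),(1,0),(8,1),(13,7),(2,0),(2,2),(7,1)]⟩,⟨1,[(5,0),(0,0),(24,0),(17,
  0)]⟩⟩,⟨false,1,⟨3,[(30,0),(0,2)]⟩,⟨7,[(5,7),(1,5),(1,0),(8,1),(13,7),(2,0),(2,2),(7,1)]⟩⟩,⟨true,0,
  ⟨0,[(0,0)]⟩,⟨4,[(5,2),(0,1),(2,0),(0,0),(12,0)]⟩⟩,⟨false,1,⟨23,[(9,3),(0,7),(19,4),(0,16),(11,
  1)]⟩,⟨2,[(5,2),(1,0),(0,0),(23,2),(2,0),(2,0),(7,0)]⟩⟩,⟨false,1,⟨9,[(0,3),(0,1),(0,1),(27,2),(0,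
  3),(0,5),(10,2)]⟩,⟨0,[(5,0)]⟩⟩,[.o ⟨false,0,⟨0,[(7,0)]⟩,⟨23,[(9,3),(0,7),(19,4),(0,4),(11,1),(6,
  11)]⟩⟩,.e ⟨true,0,⟨0,[]⟩,⟨1,[(38,0),(0,0)]⟩⟩ ⟨true,0,⟨2,[(7,0),(0,0),(23,2),(2,0),(2,0),(7,0)]⟩,
  ⟨3,[(4,0),(4,0),(0,0),(22,2)]⟩⟩,.o ⟨false,1,⟨1,[(5,0),(0,0),(24,0),(11,0)]⟩,⟨7,[(7,5),(1,0),(8,1),
  (13,7),(2,0),(2,2),(7,1)]⟩⟩,.a ⟨true,0,⟨0,[(33,0)]⟩,⟨0,[(32,0)]⟩⟩ ⟨false,1,⟨3,[(30,0),(0,0),(17,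
  1)]⟩,⟨3,[(38,0),(0,0),(6,1)]⟩⟩ ⟨true,0,⟨0,[(7,0),(24,0)]⟩,⟨3,[(4,0),(4,0),(0,0),(22,2)]⟩⟩]⟩) (.I
  [0,1,-1,-2,0,0,0,1,-1] (.R ⟨1,false,false,false,[1,0,0,-1],[1,1,-1],[0,1,0,-1,0,0,0,0,-1],(⟨0,
  [(33,0)]⟩,⟨0,[(34,0)]⟩),(⟨0,[(42,0),(3,0)]⟩,⟨1,[(17,0),(25,0)]⟩),⟨0,[(4,0)]⟩,.k,.k,(.x (-1) ⟨15,
  [(17,3),(5,3),(7,6),(0,6),(11,1)]⟩ ⟨0,[(46,0)]⟩),(.r (-1) ⟨1,[(12,0),(18,0)]⟩ ⟨0,[(3,0),(44,0)]⟩),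
  (.r (-1) ⟨5,[(0,3),(20,3),(5,1),(3,0),(19,0)]⟩ ⟨2,[(2,0),(0,1),(16,0),(17,0),(0,1),(8,1)]⟩),.k,
  ⟨true,0,⟨0,[(0,0)]⟩,⟨2,[(2,0),(0,1),(16,1),(18,1)]⟩⟩,⟨false,1,⟨19,[(15,11),(10,3),(4,2),(0,2),(0,
  19),(10,1)]⟩,⟨9,[(1,1),(1,1),(1,2),(2,2),(7,0),(13,3),(3,4)]⟩⟩,⟨false,0,⟨0,[(49,0)]⟩,⟨23,[(10,3),
  (0,7),(19,4),(0,4),(11,1),(6,11)]⟩⟩,⟨false,1,⟨71,[(2,19),(0,27),(9,31),(12,3),(4,14),(0,26),(0,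
  71),(10,17),(6,11)]⟩,⟨7,[(0,1),(4,1),(0,5),(2,1),(15,0),(2,0),(8,3),(4,0),(4,0)]⟩⟩,⟨true,0,⟨0,
  [(53,0)]⟩,⟨0,[]⟩⟩,⟨false,1,⟨35,[(2,11),(0,11),(6,19),(0,3),(19,6),(0,12),(0,35),(10,9),(6,5)]⟩,⟨3,
  [(0,1),(4,1),(0,1),(2,1),(15,0),(2,0),(13,0),(4,0)]⟩⟩,[.a ⟨true,0,⟨3,[(14,0),(5,1),(12,0),(0,0)]⟩,
  ⟨1,[(0,0),(2,0),(1,1),(27,1)]⟩⟩ ⟨false,0,⟨6,[(0,5),(0,0),(11,1),(2,1),(13,2),(2,0)]⟩,⟨47,[(3,5),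
  (6,5),(0,15),(3,3),(3,1),(12,20),(11,2),(6,19)]⟩⟩ ⟨true,0,⟨1,[(10,0),(22,1),(2,0),(2,0)]⟩,⟨1,[(0,
  0),(2,0),(1,1)]⟩⟩,.o ⟨false,1,⟨7,[(10,3),(20,0),(0,0),(11,1),(6,3)]⟩,⟨1,[(5,0),(3,0),(23,0),(3,
  0)]⟩⟩,.o ⟨false,1,⟨1,[(6,0),(0,0),(24,0),(11,0)]⟩,⟨7,[(8,5),(1,0),(8,1),(13,7),(2,0),(2,2),(7,
  1)]⟩⟩,.e ⟨false,0,⟨1,[(0,0),(0,0),(6,0),(18,0),(5,0)]⟩,⟨71,[(2,23),(0,23),(6,3),(0,7),(19,22),(0,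
  34),(11,1),(6,11)]⟩⟩ ⟨false,1,⟨7,[(10,3),(20,0),(0,0),(0,7),(10,1),(6,3)]⟩,⟨1,[(0,0),(2,0),(1,
  1)]⟩⟩]⟩) (.I [0,0,-3,0,1,2] (.Q [0,1,1,-2,0,0,0,0,1,0,0,-1] (.p false [0,0,0,1] [] (⟨0,[(35,0)]⟩,
  ⟨0,[(34,0)]⟩) .k 0 (⟨0,[]⟩,⟨0,[]⟩) .k .k) (.R ⟨1,false,false,false,[0,0,0,1],[0,1],[1,0,1,1],(⟨0,
  [(36,0)]⟩,⟨0,[(35,0)]⟩),(⟨0,[(48,0)]⟩,⟨0,[(47,0)]⟩),⟨3,[(7,1),(8,0),(2,0),(5,0),(10,1)]⟩,.k,.k,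
  (.r (-1) ⟨14,[(0,1),(4,4),(14,2),(2,7),(8,2),(1,3),(1,1),(3,2)]⟩ ⟨5,[(3,2),(5,2),(8,0),(2,0),(13,
  5),(2,4),(2,5)]⟩),(.r (-1) ⟨14,[(0,1),(4,4),(14,2),(2,7),(8,2),(1,3),(1,1),(3,2)]⟩ ⟨5,[(3,2),(5,
  2),(8,0),(2,0),(13,5),(2,4),(2,5)]⟩),(.x 0 ⟨3,[(19,1),(5,1),(2,1),(12,6),(0,2)]⟩ ⟨0,[(1,0)]⟩),.k,
  ⟨true,0,⟨0,[]⟩,⟨1,[(41,0),(0,0)]⟩⟩,⟨false,1,⟨1,[(1,1),(5,1),(8,0),(2,0),(5,0)]⟩,⟨0,[(35,0),(2,0),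
  (2,0)]⟩⟩,⟨false,0,⟨0,[(3,0),(31,0),(2,0),(2,0)]⟩,⟨14,[(0,1),(4,4),(14,2),(2,7),(8,2),(1,3),(1,1),
  (3,2)]⟩⟩,⟨false,0,⟨0,[(3,0)]⟩,⟨39,[(0,27),(1,3),(1,3),(28,10),(0,12),(0,11),(10,5),(6,9)]⟩⟩,
  ⟨false,0,⟨2,[(3,2),(14,0),(2,0),(13,2),(2,1),(2,2)]⟩,⟨9,[(0,4),(4,5),(2,0),(11,1),(2,7),(8,1),(3,
  3),(3,1)]⟩⟩,⟨true,0,⟨6,[(3,4),(5,1),(3,2),(4,2)]⟩,⟨0,[(0,0)]⟩⟩,[.a ⟨true,0,⟨3,[(13,0),(8,0),(12,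
  2),(0,2)]⟩,⟨0,[(51,0)]⟩⟩ ⟨true,0,⟨9,[(21,1),(0,1),(18,4),(0,2),(7,1)]⟩,⟨0,[(51,0)]⟩⟩ ⟨false,1,⟨13,
  [(3,7),(5,5),(3,1),(4,1),(15,6),(17,6)]⟩,⟨2,[(10,0),(0,0),(23,2),(2,0),(2,0),(7,0)]⟩⟩,.o ⟨false,1,
  ⟨23,[(12,3),(0,7),(19,4),(0,4),(11,1),(6,11)]⟩,⟨0,[(10,0)]⟩⟩,.o ⟨false,0,⟨7,[(10,5),(1,0),(8,1),
  (13,7),(2,0),(2,2),(7,1)]⟩,⟨1,[(8,0),(0,0),(24,0),(11,0)]⟩⟩,.o ⟨false,0,⟨0,[(35,0),(2,0),(2,0)]⟩,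
  ⟨2,[(3,1),(3,0),(2,0),(7,0),(1,1),(11,0),(1,0)]⟩⟩]⟩) (.K ⟨1,[1,-1,0,-1],0,0,(⟨0,[(6,0)]⟩,⟨0,[(36,
  0),(11,0)]⟩),(.x (-1) ⟨15,[(19,3),(5,3),(7,6),(0,6),(11,1)]⟩ ⟨0,[(48,0)]⟩),(.r (-1) ⟨9,[(1,1),(4,
  3),(1,3),(2,3),(11,4),(9,2),(9,4),(7,6)]⟩ ⟨2,[(4,1),(0,0),(34,0),(0,0),(8,1)]⟩),.k,.k,.k,[⟨1,[(35,
  1),(5,0),(0,0)]⟩,⟨4,[(0,0),(4,0),(1,0),(2,1),(25,2),(1,2),(2,1)]⟩,⟨0,[(5,0),(25,0),(3,0),(3,0)]⟩,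
  ⟨0,[(8,0),(42,0)]⟩]⟩)) (.Q [0,-1,-1,-1,0,0,-1,-1,-1,-1,1,1] (.p true [0,0,1] [1,0,0,-1] (⟨0,[(44,
  0)]⟩,⟨0,[(43,0)]⟩) .k 2 (⟨0,[(34,0)]⟩,⟨0,[(35,0)]⟩) .k (.r (-1) ⟨23,[(3,5),(9,6),(16,1),(1,3),(0,
  12),(4,3),(2,1)]⟩ ⟨4,[(0,0),(1,2),(6,2),(22,0),(1,2),(7,4),(4,1)]⟩)) (.K ⟨1,[1,-1,0,-1],0,0,(⟨0,
  [(6,0)]⟩,⟨0,[(36,0),(11,0)]⟩),(.x (-1) ⟨15,[(19,3),(5,3),(7,6),(0,6),(11,1)]⟩ ⟨0,[(48,0)]⟩),(.r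
  (-1) ⟨35,[(0,18),(4,0),(5,12),(11,26),(8,12),(0,8),(1,18),(4,6)]⟩ ⟨2,[(4,1),(0,0),(34,0),(0,0),(8,
  1)]⟩),.k,.k,.k,[⟨1,[(35,1),(5,0),(0,0)]⟩,⟨13,[(0,1),(4,1),(1,6),(2,0),(7,2),(17,4),(1,7),(2,5)]⟩,
  ⟨0,[(5,0),(25,0),(3,0),(3,0)]⟩,⟨0,[(8,0),(42,0)]⟩]⟩) (.Q [0,-1,-1,-2,0,0,-1,-1,-1,-1,1,1] (.p
  true [0,0,1] [1,0,0,-1] (⟨0,[(45,0)]⟩,⟨0,[(44,0)]⟩) .k 2 (⟨0,[(35,0)]⟩,⟨0,[(36,0)]⟩) .k (.r (-1)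
  ⟨83,[(0,7),(3,15),(2,7),(6,23),(11,3),(1,7),(2,3),(1,14),(0,44)]⟩ ⟨4,[(1,0),(1,2),(6,2),(22,0),(1,
  2),(7,4),(4,1)]⟩)) (.R ⟨1,false,false,true,[1,0,0,-1],[0,1,1],[0,1,1,1,0,0,0,1],(⟨0,[(36,0)]⟩,⟨0,
  [(37,0)]⟩),(⟨0,[(46,0),(2,0)]⟩,⟨0,[(31,0)]⟩),⟨0,[(7,0)]⟩,.k,.k,(.x (-1) ⟨15,[(20,3),(5,3),(7,6),
  (0,6),(11,1)]⟩ ⟨0,[(49,0)]⟩),(.r 0 ⟨17,[(0,10),(3,5),(5,0),(0,8),(7,6),(13,8),(2,17)]⟩ ⟨41,[(1,7),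
  (3,15),(2,7),(6,2),(11,3),(1,7),(2,3),(1,14),(0,23)]⟩),(.r (-1) ⟨75,[(0,39),(11,7),(8,55),(11,63),
  (0,18),(0,0),(0,39),(4,31),(2,3)]⟩ ⟨2,[(1,0),(3,1),(31,0),(1,0),(11,0)]⟩),.k,⟨false,1,⟨3,[(34,0),
  (0,0),(17,1)]⟩,⟨0,[]⟩⟩,⟨true,0,⟨0,[(30,0),(5,0),(3,0)]⟩,⟨0,[(37,0),(1,0)]⟩⟩,⟨false,1,⟨41,[(1,7),
  (3,15),(2,7),(6,2),(11,3),(1,7),(2,3),(1,14),(0,23)]⟩,⟨0,[(9,0),(1,0),(18,0),(5,0)]⟩⟩,⟨true,0,⟨0,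
  [(1,0)]⟩,⟨2,[(0,1),(9,0),(8,0)]⟩⟩,⟨false,1,⟨25,[(5,13),(8,5),(0,0),(11,3),(4,9),(1,7),(0,13),(11,
  2)]⟩,⟨0,[(9,0),(2,0),(17,0),(5,0)]⟩⟩,⟨false,1,⟨23,[(1,23),(11,3),(0,7),(19,4),(0,4),(11,1),(6,
  11)]⟩,⟨0,[(0,0)]⟩⟩,[.o ⟨false,0,⟨0,[(27,0)]⟩,⟨7,[(12,3),(4,3),(16,0),(0,0),(18,5)]⟩⟩,.e ⟨true,0,
  ⟨20,[(1,4),(0,0),(5,1),(1,2),(11,4),(2,5),(3,4),(4,0),(5,2),(8,1)]⟩,⟨3,[(0,0),(5,0),(5,0),(20,0),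
  (2,0),(4,0),(2,0)]⟩⟩ ⟨true,0,⟨1,[(22,0),(13,1),(3,0),(1,0)]⟩,⟨2,[(0,0),(5,0),(1,0),(3,0),(4,0),
  (14,0),(4,0)]⟩⟩,.o ⟨false,1,⟨1,[(9,0),(0,0),(24,0),(11,0)]⟩,⟨7,[(11,5),(1,0),(8,1),(13,7),(2,0),
  (2,2),(7,1)]⟩⟩,.a ⟨true,0,⟨0,[(37,0)]⟩,⟨0,[(36,0)]⟩⟩ ⟨false,1,⟨37,[(5,9),(8,11),(0,7),(2,1),(13,
  9),(1,13),(0,8),(11,4)]⟩,⟨7,[(0,1),(5,1),(5,1),(15,0),(1,3),(0,0),(4,1),(8,0),(4,0)]⟩⟩ ⟨true,0,⟨0,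
  [(27,0),(8,0)]⟩,⟨2,[(0,0),(5,0),(1,0),(3,0),(4,0),(14,0),(4,0)]⟩⟩]⟩) (.K ⟨1,[1,-1,0,-1],0,0,(⟨0,
  [(7,0)]⟩,⟨0,[(37,0),(11,0)]⟩),(.x (-1) ⟨15,[(20,3),(5,3),(7,6),(0,6),(11,1)]⟩ ⟨0,[(49,0)]⟩),(.r
  (-1) ⟨3,[(9,1),(2,1),(11,2),(9,0),(1,1),(7,2),(7,0)]⟩ ⟨4,[(1,0),(1,0),(1,2),(13,0),(17,0),(3,1),
  (0,1)]⟩),.k,.k,.k,[⟨1,[(36,1),(5,0),(0,0)]⟩,⟨6,[(4,0),(1,0),(1,2),(2,1),(4,0),(20,2),(1,3),(2,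
  2)]⟩,⟨2,[(1,1),(4,0),(25,0),(3,0),(4,0)]⟩,⟨0,[(9,0),(42,0)]⟩]⟩)))))))) (.I [0,1,-1,0,0,0,0,1,-1]
  (.R ⟨0,false,false,false,[1,0,0,-1],[1,0,-1],[0,1,0,0,0,0,0,0,-1],(⟨0,[(30,0)]⟩,⟨0,[(31,0)]⟩),(⟨0,
  [(39,0)]⟩,⟨0,[(40,0)]⟩),⟨0,[(1,0)]⟩,.k,.k,(.x (-1) ⟨15,[(14,3),(5,3),(7,6),(0,6),(11,1)]⟩ ⟨0,[(43,
  0)]⟩),.k,.k,.k,⟨false,0,⟨0,[(0,0)]⟩,⟨1,[(29,0),(8,1),(9,0)]⟩⟩,⟨true,0,⟨0,[(30,0),(2,0)]⟩,⟨5,[(1,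
  3),(12,0),(5,0),(6,2),(3,1)]⟩⟩,⟨true,0,⟨0,[(50,0)]⟩,⟨0,[]⟩⟩,⟨false,1,⟨1,[(11,0),(17,0),(0,1),(2,
  0),(2,0),(11,0)]⟩,⟨0,[(3,0),(30,0)]⟩⟩,⟨false,0,⟨0,[]⟩,⟨0,[]⟩⟩,⟨false,0,⟨0,[]⟩,⟨0,[]⟩⟩,[.a ⟨true,0,
  ⟨1,[(11,0),(18,0),(0,0)]⟩,⟨0,[(2,0),(27,0)]⟩⟩ ⟨false,0,⟨0,[(0,0),(37,0)]⟩,⟨1,[(29,0),(18,0)]⟩⟩
  ⟨true,0,⟨1,[(11,0),(18,1),(2,0),(2,0)]⟩,⟨0,[(2,0)]⟩⟩,.o ⟨false,1,⟨7,[(11,3),(16,0),(0,0),(11,1),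
  (6,3)]⟩,⟨0,[(34,0)]⟩⟩,.o ⟨false,1,⟨1,[(3,0),(0,0),(24,0),(11,0)]⟩,⟨7,[(5,5),(1,0),(8,1),(13,7),(2,
  0),(2,2),(7,1)]⟩⟩,.e ⟨false,0,⟨0,[(0,0),(23,0)]⟩,⟨1,[(29,0),(6,0),(0,0),(10,0)]⟩⟩ ⟨false,1,⟨7,
  [(11,3),(16,0),(0,0),(0,7),(10,1),(6,3)]⟩,⟨0,[(2,0)]⟩⟩]⟩) (.R ⟨0,false,false,true,[1,0,0,-1],[1,0,
  -1],[1,1],(⟨0,[(30,0)]⟩,⟨0,[(31,0)]⟩),(⟨0,[(39,0)]⟩,⟨0,[(40,0)]⟩),⟨0,[(1,0)]⟩,.k,.k,(.x (-1) ⟨15,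
  [(14,3),(5,3),(7,6),(0,6),(11,1)]⟩ ⟨0,[(43,0)]⟩),.k,.k,.k,⟨false,1,⟨31,[(8,7),(0,10),(2,5),(3,1),
  (9,1),(1,6),(0,6),(11,0)]⟩,⟨0,[(38,0)]⟩⟩,⟨true,0,⟨0,[(30,0),(2,0)]⟩,⟨5,[(1,3),(12,0),(5,0),(6,2),
  (3,1)]⟩⟩,⟨false,1,⟨3,[(28,0),(0,2)]⟩,⟨7,[(3,7),(1,5),(1,0),(8,1),(13,7),(2,0),(2,2),(7,1)]⟩⟩,
  ⟨true,0,⟨0,[(0,0),(4,0),(20,0),(3,0)]⟩,⟨0,[(3,0),(30,0)]⟩⟩,⟨false,0,⟨0,[]⟩,⟨0,[]⟩⟩,⟨false,0,⟨0,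
  []⟩,⟨0,[]⟩⟩,[.o ⟨false,0,⟨0,[(32,0)]⟩,⟨5,[(8,1),(0,1),(26,3),(4,0),(6,2)]⟩⟩,.e ⟨true,0,⟨0,[]⟩,⟨1,
  [(36,0),(0,0)]⟩⟩ ⟨true,0,⟨1,[(11,0),(18,1),(2,0),(2,0)]⟩,⟨0,[(2,0)]⟩⟩,.o ⟨false,1,⟨1,[(3,0),(0,0),
  (24,0),(11,0)]⟩,⟨7,[(5,5),(1,0),(8,1),(13,7),(2,0),(2,2),(7,1)]⟩⟩,.a ⟨true,0,⟨0,[(31,0)]⟩,⟨0,[(30,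
  0)]⟩⟩ ⟨false,1,⟨3,[(28,0),(0,0),(17,1)]⟩,⟨3,[(36,0),(0,0),(6,1)]⟩⟩ ⟨true,0,⟨6,[(6,1),(4,0),(1,3),
  (16,6),(4,0)]⟩,⟨0,[(2,0)]⟩⟩]⟩))))) (.I [0,0,0,0,0,0,0,0,1] (.Q [0,0,0,0,0,0,-1,-1,0,0,1,-1] (.p
  true [0,0,1] [0,0,0,1] (⟨0,[(37,0)]⟩,⟨0,[(36,0)]⟩) .k 2 (⟨0,[(28,0)]⟩,⟨0,[(27,0)]⟩) .k (.r (-1)
  ⟨7,[(6,1),(9,1),(1,1),(6,4),(0,0),(7,1)]⟩ ⟨0,[(0,0),(34,0)]⟩)) (.I [0,0,-1,-1,0,0,0,0,1] (.Q [0,0,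
  0,0,0,-1,0,0,0,1,0,-1] (.ed true [0,1,0,1] .k) (.R ⟨1,false,false,false,[1,0,0,-1],[1,0,-1],[0,0,
  0,-1,0,0,0,0,-1],(⟨0,[(30,0)]⟩,⟨0,[(31,0)]⟩),(⟨0,[(39,0)]⟩,⟨0,[(40,0)]⟩),⟨0,[(0,0)]⟩,.k,.k,(.x
  (-1) ⟨15,[(14,3),(5,3),(7,6),(0,6),(11,1)]⟩ ⟨0,[(43,0)]⟩),.k,(.r (-1) ⟨1,[(9,0),(18,0)]⟩ ⟨10,[(3,
  10),(6,0),(6,4),(9,0),(7,3),(0,8),(7,1)]⟩),.k,⟨false,1,⟨1,[(9,0),(18,0)]⟩,⟨1,[(3,1),(3,0),(19,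
  0)]⟩⟩,⟨true,0,⟨0,[(30,0),(2,0)]⟩,⟨0,[(24,0),(6,0),(2,0)]⟩⟩,⟨true,0,⟨0,[(46,0)]⟩,⟨0,[(45,0)]⟩⟩,
  ⟨false,0,⟨2,[(3,0),(0,1),(6,0),(18,0),(4,0),(8,0)]⟩,⟨1,[(9,0),(11,1),(2,1),(3,0),(2,1)]⟩⟩,⟨false,
  1,⟨3,[(28,0),(0,0),(18,1)]⟩,⟨0,[]⟩⟩,⟨false,0,⟨4,[(3,0),(0,3),(5,0),(6,1),(12,0),(4,0),(8,0)]⟩,⟨1,
  [(9,0),(14,1),(3,0),(2,1),(2,1)]⟩⟩,[.e ⟨false,1,⟨1,[(18,0),(9,0),(9,0),(7,0)]⟩,⟨13,[(1,1),(1,11),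
  (3,2),(0,1),(7,1),(4,1),(5,0)]⟩⟩ ⟨false,0,⟨0,[(2,0)]⟩,⟨11,[(8,3),(0,1),(8,3),(8,3),(0,0),(0,0),(1,
  11),(9,3)]⟩⟩,.o ⟨false,1,⟨7,[(11,3),(16,0),(0,0),(11,1),(6,3)]⟩,⟨0,[(34,0)]⟩⟩,.o ⟨false,1,⟨1,[(31,
  1),(9,0),(5,0)]⟩,⟨6,[(2,1),(2,3),(10,1),(13,4),(2,0),(2,2),(7,0)]⟩⟩,.a ⟨true,0,⟨0,[(31,0)]⟩,⟨0,
  [(30,0)]⟩⟩ ⟨false,1,⟨1,[(9,0),(14,1),(3,0)]⟩,⟨9,[(3,9),(12,1),(0,1),(18,4),(0,2),(7,1)]⟩⟩ ⟨true,0,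
  ⟨0,[(2,0)]⟩,⟨0,[(31,0),(2,0)]⟩⟩]⟩) (.R ⟨0,false,false,false,[1,0,0,-1],[1,0,-1],[0,0,0,-1,0,0,0,0,
  -1],(⟨0,[(30,0)]⟩,⟨0,[(31,0)]⟩),(⟨0,[(39,0)]⟩,⟨0,[(40,0)]⟩),⟨0,[(0,0)]⟩,.k,.k,(.x (-1) ⟨15,[(14,
  3),(5,3),(7,6),(0,6),(11,1)]⟩ ⟨0,[(43,0)]⟩),.k,.k,.k,⟨false,1,⟨1,[(9,0),(18,0)]⟩,⟨1,[(3,1),(3,0),
  (19,0)]⟩⟩,⟨true,0,⟨0,[(30,0),(2,0)]⟩,⟨5,[(0,3),(13,0),(5,0),(6,2),(3,1)]⟩⟩,⟨true,0,⟨0,[(46,0)]⟩,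
  ⟨0,[(45,0)]⟩⟩,⟨false,0,⟨2,[(3,0),(0,1),(6,0),(18,0),(4,0),(8,0)]⟩,⟨17,[(0,15),(7,5),(0,2),(4,3),
  (3,5),(1,3),(6,5),(0,8),(2,1)]⟩⟩,⟨false,0,⟨0,[]⟩,⟨0,[]⟩⟩,⟨false,0,⟨0,[]⟩,⟨0,[]⟩⟩,[.e ⟨false,1,⟨1,
  [(18,0),(9,0),(9,0),(7,0)]⟩,⟨13,[(1,1),(1,11),(3,2),(0,1),(7,1),(4,1),(5,0)]⟩⟩ ⟨false,0,⟨0,[(2,
  0)]⟩,⟨11,[(8,3),(0,1),(8,3),(8,3),(0,0),(0,0),(1,11),(9,3)]⟩⟩,.o ⟨false,1,⟨7,[(11,3),(16,0),(0,0),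
  (11,1),(6,3)]⟩,⟨0,[(34,0)]⟩⟩,.o ⟨false,1,⟨1,[(31,1),(9,0),(5,0)]⟩,⟨6,[(2,1),(2,3),(10,1),(13,4),
  (2,0),(2,2),(7,0)]⟩⟩,.a ⟨true,0,⟨0,[(31,0)]⟩,⟨0,[(30,0)]⟩⟩ ⟨false,1,⟨1,[(9,0),(14,1),(3,0)]⟩,⟨9,
  [(3,9),(12,1),(0,1),(18,4),(0,2),(7,1)]⟩⟩ ⟨true,0,⟨0,[(2,0)]⟩,⟨0,[(31,0),(2,0)]⟩⟩]⟩)) (.Q [0,0,0,
  0,0,-1,0,0,0,1,0,-1] (.ed true [0,1,0,1] .k) (.R ⟨1,false,false,false,[1,0,0,-1],[1,0,-1],[1,0,0,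
  0,0,0,0,0,-1],(⟨0,[(30,0)]⟩,⟨0,[(31,0)]⟩),(⟨0,[(39,0)]⟩,⟨0,[(40,0)]⟩),⟨0,[(0,0)]⟩,.k,.k,(.x (-1)
  ⟨15,[(14,3),(5,3),(7,6),(0,6),(11,1)]⟩ ⟨0,[(43,0)]⟩),.k,(.r (-1) ⟨1,[(9,0),(18,0)]⟩ ⟨10,[(3,10),
  (6,0),(6,4),(9,0),(7,3),(0,8),(7,1)]⟩),.k,⟨false,1,⟨7,[(1,1),(6,1),(0,2),(2,1),(15,2)]⟩,⟨0,[(3,0),
  (34,0)]⟩⟩,⟨true,0,⟨0,[(30,0),(2,0)]⟩,⟨0,[(24,0),(6,0),(2,0)]⟩⟩,⟨true,0,⟨0,[]⟩,⟨0,[(50,0)]⟩⟩,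
  ⟨false,0,⟨2,[(3,0),(0,1),(6,0),(18,0),(4,0),(8,0)]⟩,⟨1,[(9,0),(11,1),(2,1),(3,0),(2,1)]⟩⟩,⟨false,
  1,⟨23,[(7,3),(0,7),(19,4),(0,4),(11,1),(6,11)]⟩,⟨0,[(46,0)]⟩⟩,⟨false,0,⟨4,[(3,0),(0,3),(5,0),(6,
  1),(12,0),(4,0),(8,0)]⟩,⟨2,[(1,0),(3,0),(3,1),(11,0),(2,1),(2,0),(0,0),(2,2)]⟩⟩,[.e ⟨false,1,⟨1,
  [(28,0),(18,0)]⟩,⟨0,[(3,0)]⟩⟩ ⟨false,0,⟨0,[(2,0)]⟩,⟨11,[(8,3),(0,1),(8,3),(8,3),(0,0),(0,0),(1,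
  11),(9,3)]⟩⟩,.o ⟨false,1,⟨7,[(11,3),(16,0),(0,0),(11,1),(6,3)]⟩,⟨0,[(34,0)]⟩⟩,.o ⟨false,1,⟨1,[(31,
  1),(9,0),(5,0)]⟩,⟨1,[(1,0),(2,0),(0,0),(24,0)]⟩⟩,.a ⟨true,0,⟨0,[(31,0)]⟩,⟨0,[(30,0)]⟩⟩ ⟨false,1,
  ⟨7,[(1,1),(6,1),(0,2),(2,1),(11,7),(3,2)]⟩,⟨1,[(3,1),(32,0),(0,0)]⟩⟩ ⟨true,0,⟨0,[(2,0)]⟩,⟨0,[(31,
  0),(2,0)]⟩⟩]⟩) (.R ⟨0,false,false,false,[1,0,0,-1],[1,0,-1],[1,0,0,0,0,0,0,0,-1],(⟨0,[(30,0)]⟩,⟨0,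
  [(31,0)]⟩),(⟨0,[(39,0)]⟩,⟨0,[(40,0)]⟩),⟨0,[(0,0)]⟩,.k,.k,(.x (-1) ⟨15,[(14,3),(5,3),(7,6),(0,6),
  (11,1)]⟩ ⟨0,[(43,0)]⟩),.k,.k,.k,⟨false,1,⟨7,[(1,1),(6,1),(0,2),(2,1),(15,2)]⟩,⟨0,[(3,0),(34,0)]⟩⟩,
  ⟨true,0,⟨0,[(30,0),(2,0)]⟩,⟨5,[(0,3),(13,0),(5,0),(6,2),(3,1)]⟩⟩,⟨true,0,⟨0,[]⟩,⟨0,[(50,0)]⟩⟩,
  ⟨false,0,⟨2,[(3,0),(0,1),(6,0),(18,0),(4,0),(8,0)]⟩,⟨17,[(0,15),(7,5),(0,2),(4,3),(3,5),(1,3),(6,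
  5),(0,8),(2,1)]⟩⟩,⟨false,0,⟨0,[]⟩,⟨0,[]⟩⟩,⟨false,0,⟨0,[]⟩,⟨0,[]⟩⟩,[.e ⟨false,1,⟨1,[(28,0),(18,
  0)]⟩,⟨0,[(3,0)]⟩⟩ ⟨false,0,⟨0,[(2,0)]⟩,⟨11,[(8,3),(0,1),(8,3),(8,3),(0,0),(0,0),(1,11),(9,3)]⟩⟩,
  .o ⟨false,1,⟨7,[(11,3),(16,0),(0,0),(11,1),(6,3)]⟩,⟨0,[(34,0)]⟩⟩,.o ⟨false,1,⟨1,[(31,1),(9,0),(5,
  0)]⟩,⟨1,[(1,0),(2,0),(0,0),(24,0)]⟩⟩,.a ⟨true,0,⟨0,[(31,0)]⟩,⟨0,[(30,0)]⟩⟩ ⟨false,1,⟨7,[(1,1),(6,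
  1),(0,2),(2,1),(11,7),(3,2)]⟩,⟨1,[(3,1),(32,0),(0,0)]⟩⟩ ⟨true,0,⟨0,[(2,0)]⟩,⟨0,[(31,0),(2,
  0)]⟩⟩]⟩))) (.Q [0,0,0,0,0,1,0,0,0,-1,0,1] (.ed false [0,1,0,1] .k) (.I [1,-1,-1,0,1,0,0,0,-1] (.I
  [1,0,-1,0,1,0,0,1,-1] (.R ⟨0,false,false,false,[1,0,0,-1],[1,0,-1],[1,0,0,0,0,0,0,0,-1],(⟨0,[(31,
  0)]⟩,⟨0,[(32,0)]⟩),(⟨0,[(40,0)]⟩,⟨0,[(41,0)]⟩),⟨0,[(2,0)]⟩,.k,.k,(.x (-1) ⟨15,[(15,3),(5,3),(7,6),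
  (0,6),(11,1)]⟩ ⟨0,[(44,0)]⟩),.k,.k,.k,⟨false,1,⟨0,[(0,0)]⟩,⟨0,[(4,0),(34,0)]⟩⟩,⟨true,0,⟨0,[(31,0),
  (2,0)]⟩,⟨5,[(2,3),(12,0),(5,0),(6,2),(3,1)]⟩⟩,⟨true,0,⟨0,[]⟩,⟨0,[(51,0)]⟩⟩,⟨false,0,⟨2,[(4,0),(0,
  1),(6,0),(18,0),(4,0),(8,0)]⟩,⟨1,[(3,1),(25,0),(18,0)]⟩⟩,⟨false,0,⟨0,[]⟩,⟨0,[]⟩⟩,⟨false,0,⟨0,[]⟩,
  ⟨0,[]⟩⟩,[.a ⟨true,0,⟨1,[(12,0),(18,0),(0,0)]⟩,⟨0,[(3,0),(27,0)]⟩⟩ ⟨false,1,⟨1,[(29,0),(18,0)]⟩,⟨0,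
  [(4,0)]⟩⟩ ⟨true,0,⟨1,[(12,0),(18,1),(2,0),(2,0)]⟩,⟨0,[(3,0)]⟩⟩,.o ⟨false,1,⟨7,[(12,3),(16,0),(0,
  0),(11,1),(6,3)]⟩,⟨0,[(35,0)]⟩⟩,.o ⟨false,1,⟨1,[(32,1),(9,0),(5,0)]⟩,⟨7,[(6,5),(1,0),(8,1),(13,7),
  (2,0),(2,2),(7,1)]⟩⟩,.e ⟨false,1,⟨0,[(1,0)]⟩,⟨1,[(4,1),(32,0),(0,0)]⟩⟩ ⟨false,1,⟨7,[(12,3),(16,0),
  (0,0),(0,7),(10,1),(6,3)]⟩,⟨0,[(3,0)]⟩⟩]⟩) (.R ⟨0,false,false,false,[1,0,0,-1],[1,0,-1],[1,0,1,0,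
  0,0,0,-1],(⟨0,[(31,0)]⟩,⟨0,[(32,0)]⟩),(⟨0,[(40,0)]⟩,⟨0,[(41,0)]⟩),⟨0,[(2,0)]⟩,.k,.k,(.x (-1) ⟨15,
  [(15,3),(5,3),(7,6),(0,6),(11,1)]⟩ ⟨0,[(44,0)]⟩),.k,.k,.k,⟨false,0,⟨0,[]⟩,⟨3,[(29,0),(0,0),(17,
  1)]⟩⟩,⟨true,0,⟨0,[(31,0),(2,0)]⟩,⟨5,[(2,3),(12,0),(5,0),(6,2),(3,1)]⟩⟩,⟨true,(-1),⟨0,[(0,0)]⟩,⟨1,
  [(10,0),(18,0),(16,1)]⟩⟩,⟨false,0,⟨11,[(0,1),(4,5),(6,4),(11,0),(5,1),(0,5),(13,2)]⟩,⟨1,[(3,1),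
  (25,0),(18,0)]⟩⟩,⟨false,0,⟨0,[]⟩,⟨0,[]⟩⟩,⟨false,0,⟨0,[]⟩,⟨0,[]⟩⟩,[.a ⟨true,0,⟨1,[(12,0),(18,0),(0,
  0)]⟩,⟨0,[(3,0),(27,0)]⟩⟩ ⟨false,0,⟨0,[(39,0)]⟩,⟨31,[(9,7),(0,10),(2,5),(3,1),(9,1),(1,6),(0,6),
  (11,0)]⟩⟩ ⟨true,0,⟨1,[(12,0),(18,1),(2,0),(2,0)]⟩,⟨0,[(3,0)]⟩⟩,.o ⟨false,1,⟨7,[(12,3),(16,0),(0,
  0),(11,1),(6,3)]⟩,⟨0,[(35,0)]⟩⟩,.o ⟨false,1,⟨1,[(32,1),(9,0),(5,0)]⟩,⟨2,[(0,0),(4,0),(0,1),(10,0),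
  (11,0),(1,1)]⟩⟩,.e ⟨false,0,⟨0,[(25,0)]⟩,⟨7,[(10,1),(9,1),(1,1),(6,2),(0,2),(7,1)]⟩⟩ ⟨false,1,⟨7,
  [(12,3),(16,0),(0,0),(0,7),(10,1),(6,3)]⟩,⟨0,[(3,0)]⟩⟩]⟩)) (.R ⟨0,false,false,false,[1,0,0,-1],[1,
  0,-1],[1,0,1,0,0,0,0,-1],(⟨0,[(30,0)]⟩,⟨0,[(31,0)]⟩),(⟨0,[(39,0)]⟩,⟨0,[(40,0)]⟩),⟨0,[(1,0)]⟩,.k,
  .k,(.x (-1) ⟨15,[(14,3),(5,3),(7,6),(0,6),(11,1)]⟩ ⟨0,[(43,0)]⟩),.k,.k,.k,⟨false,0,⟨0,[]⟩,⟨3,[(28,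
  0),(0,0),(17,1)]⟩⟩,⟨true,0,⟨0,[(30,0),(2,0)]⟩,⟨5,[(1,3),(12,0),(5,0),(6,2),(3,1)]⟩⟩,⟨true,(-1),⟨0,
  [(0,0),(23,0)]⟩,⟨1,[(9,0),(18,0),(16,1)]⟩⟩,⟨false,0,⟨5,[(0,0),(3,2),(6,2),(17,0),(0,2),(13,1)]⟩,
  ⟨1,[(2,1),(25,0),(18,0)]⟩⟩,⟨false,0,⟨0,[]⟩,⟨0,[]⟩⟩,⟨false,0,⟨0,[]⟩,⟨0,[]⟩⟩,[.a ⟨true,0,⟨1,[(11,0),
  (18,0),(0,0)]⟩,⟨0,[(2,0),(27,0)]⟩⟩ ⟨false,0,⟨0,[(38,0)]⟩,⟨31,[(8,7),(0,10),(2,5),(3,1),(9,1),(1,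
  6),(0,6),(11,0)]⟩⟩ ⟨true,0,⟨1,[(11,0),(18,1),(2,0),(2,0)]⟩,⟨0,[(2,0)]⟩⟩,.o ⟨false,1,⟨7,[(11,3),
  (16,0),(0,0),(11,1),(6,3)]⟩,⟨0,[(34,0)]⟩⟩,.o ⟨false,1,⟨1,[(31,1),(9,0),(5,0)]⟩,⟨7,[(5,5),(1,0),(8,
  1),(13,7),(2,0),(2,2),(7,1)]⟩⟩,.e ⟨false,0,⟨0,[(24,0)]⟩,⟨7,[(9,1),(9,1),(1,1),(6,2),(0,2),(7,
  1)]⟩⟩ ⟨false,1,⟨7,[(11,3),(16,0),(0,0),(0,7),(10,1),(6,3)]⟩,⟨0,[(2,0)]⟩⟩]⟩)) (.I [0,0,-2,-2,1,0,0,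
  0,-1] (.R ⟨1,false,false,false,[1,0,0,-1],[1,0,-1],[1,0,0,0,0,0,0,0,-1],(⟨0,[(30,0)]⟩,⟨0,[(31,
  0)]⟩),(⟨0,[(39,0)]⟩,⟨0,[(40,0)]⟩),⟨0,[(1,0)]⟩,.k,.k,(.x (-1) ⟨15,[(14,3),(5,3),(7,6),(0,6),(11,
  1)]⟩ ⟨0,[(43,0)]⟩),.k,(.r (-1) ⟨1,[(9,0),(18,0)]⟩ ⟨10,[(3,10),(6,0),(6,4),(9,0),(7,3),(0,8),(7,
  1)]⟩),.k,⟨false,1,⟨7,[(0,1),(7,0),(0,1),(2,0),(3,1),(4,0),(4,0),(1,2)]⟩,⟨0,[(3,0),(34,0)]⟩⟩,⟨true,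
  0,⟨0,[(30,0),(2,0)]⟩,⟨0,[(2,0),(35,0)]⟩⟩,⟨true,0,⟨0,[]⟩,⟨0,[(50,0)]⟩⟩,⟨false,0,⟨2,[(3,0),(0,1),(6,
  0),(18,0),(4,0),(8,0)]⟩,⟨1,[(2,1),(25,0),(18,0)]⟩⟩,⟨false,1,⟨23,[(7,3),(0,7),(19,4),(0,4),(11,1),
  (6,11)]⟩,⟨0,[(46,0)]⟩⟩,⟨false,0,⟨4,[(3,0),(0,3),(5,0),(6,1),(12,0),(4,0),(8,0)]⟩,⟨7,[(0,3),(1,7),
  (25,2),(0,0)]⟩⟩,[.a ⟨true,0,⟨1,[(11,0),(18,0),(0,0)]⟩,⟨0,[(2,0),(27,0)]⟩⟩ ⟨false,1,⟨1,[(28,0),(18,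
  0)]⟩,⟨0,[(3,0)]⟩⟩ ⟨true,0,⟨1,[(11,0),(18,1),(2,0),(2,0)]⟩,⟨0,[(2,0)]⟩⟩,.o ⟨false,1,⟨7,[(11,3),(16,
  0),(0,0),(11,1),(6,3)]⟩,⟨0,[(34,0)]⟩⟩,.o ⟨false,1,⟨1,[(31,1),(9,0),(5,0)]⟩,⟨7,[(5,5),(1,0),(8,1),
  (13,7),(2,0),(2,2),(7,1)]⟩⟩,.e ⟨false,1,⟨11,[(0,5),(7,1),(3,1),(3,3),(7,5),(3,2),(19,0)]⟩,⟨1,[(3,
  1),(32,0),(0,0)]⟩⟩ ⟨false,1,⟨7,[(11,3),(16,0),(0,0),(0,7),(10,1),(6,3)]⟩,⟨0,[(2,0)]⟩⟩]⟩) (.R ⟨1,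
  false,false,false,[1,0,0,-1],[1,0,-1],[0,0,0,-1,0,0,0,0,-1],(⟨0,[(30,0)]⟩,⟨0,[(31,0)]⟩),(⟨0,[(39,
  0)]⟩,⟨0,[(40,0)]⟩),⟨0,[(1,0)]⟩,.k,.k,(.x (-1) ⟨15,[(14,3),(5,3),(7,6),(0,6),(11,1)]⟩ ⟨0,[(43,
  0)]⟩),.k,(.r (-1) ⟨1,[(9,0),(18,0)]⟩ ⟨7,[(0,3),(27,0),(0,2),(8,7)]⟩),.k,⟨false,1,⟨1,[(9,0),(18,
  0)]⟩,⟨1,[(3,1),(3,0),(19,0)]⟩⟩,⟨true,0,⟨0,[(30,0),(2,0)]⟩,⟨0,[(2,0),(35,0)]⟩⟩,⟨true,0,⟨0,[(46,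
  0)]⟩,⟨0,[(45,0)]⟩⟩,⟨false,0,⟨2,[(3,0),(0,1),(6,0),(18,0),(4,0),(8,0)]⟩,⟨1,[(2,1),(25,0),(18,0)]⟩⟩,
  ⟨false,1,⟨3,[(28,0),(0,0),(18,1)]⟩,⟨0,[]⟩⟩,⟨false,0,⟨9,[(0,0),(2,0),(0,5),(5,3),(6,1),(11,0),(0,
  3),(13,1)]⟩,⟨17,[(2,9),(3,1),(2,4),(5,3),(8,1),(2,5),(0,8),(2,7)]⟩⟩,[.a ⟨true,0,⟨1,[(11,0),(18,0),
  (0,0)]⟩,⟨0,[(2,0),(27,0)]⟩⟩ ⟨false,1,⟨1,[(18,0),(9,0),(9,0),(7,0)]⟩,⟨1,[(0,0),(2,0),(43,0)]⟩⟩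
  ⟨true,0,⟨1,[(11,0),(18,1),(2,0),(2,0)]⟩,⟨0,[(2,0)]⟩⟩,.o ⟨false,1,⟨7,[(11,3),(16,0),(0,0),(11,1),
  (6,3)]⟩,⟨0,[(34,0)]⟩⟩,.o ⟨false,1,⟨1,[(31,1),(9,0),(5,0)]⟩,⟨7,[(0,1),(3,1),(0,5),(10,0),(7,0),(3,
  1),(1,5),(13,0)]⟩⟩,.e ⟨false,1,⟨1,[(9,0),(14,1),(3,0)]⟩,⟨7,[(0,3),(27,0),(0,2)]⟩⟩ ⟨false,1,⟨7,
  [(11,3),(16,0),(0,0),(0,7),(10,1),(6,3)]⟩,⟨0,[(2,0)]⟩⟩]⟩)))) (.Q [0,0,0,1,0,0,0,0,0,1,0,-1] (.p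
  false [0,0,0,1] [1] (⟨0,[(28,0)]⟩,⟨0,[(27,0)]⟩) .k 1 (⟨0,[]⟩,⟨0,[]⟩) .k .k) (.Q [0,0,0,0,0,-1,0,0,
  0,1,0,-1] (.ed true [0,1,0,1] .k) (.R ⟨1,false,false,true,[1,0,0,-1],[0,1],[1,1,0,0,0,0,0,0,-1],
  (⟨0,[(29,0)]⟩,⟨0,[(30,0)]⟩),(⟨0,[(42,0)]⟩,⟨0,[(41,0)]⟩),⟨0,[(0,0)]⟩,.k,.k,(.x (-1) ⟨15,[(13,3),(5,
  3),(7,6),(0,6),(11,1)]⟩ ⟨0,[(42,0)]⟩),(.x (-1) ⟨15,[(13,3),(5,3),(7,6),(0,6),(11,1)]⟩ ⟨0,[(42,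
  0)]⟩),(.r (-1) ⟨0,[(2,0),(14,0),(19,0),(7,0)]⟩ ⟨9,[(3,9),(11,1),(0,1),(13,9),(4,4),(0,2),(7,
  11)]⟩),.k,⟨false,1,⟨0,[(2,0),(14,0),(19,0)]⟩,⟨0,[(3,0),(26,0),(13,0)]⟩⟩,⟨true,0,⟨0,[(29,0)]⟩,⟨7,
  [(4,5),(1,0),(8,1),(14,7),(1,0),(2,2),(7,1)]⟩⟩,⟨false,0,⟨0,[]⟩,⟨3,[(27,0),(0,0),(18,1)]⟩⟩,⟨false,
  0,⟨1,[(3,1),(3,0),(21,0),(0,0),(3,0),(14,0)]⟩,⟨1,[(2,1),(5,0),(14,1),(6,1),(9,0)]⟩⟩,⟨true,0,⟨0,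
  [(44,0)]⟩,⟨0,[(45,0)]⟩⟩,⟨false,0,⟨0,[(3,0),(3,0),(26,0)]⟩,⟨8,[(2,6),(2,4),(8,7),(11,3),(0,0),(2,
  8),(12,6)]⟩⟩,[.o ⟨false,0,⟨0,[(44,0)]⟩,⟨3,[(5,1),(34,0),(6,2)]⟩⟩,.a ⟨true,0,⟨3,[(7,0),(8,0),(12,
  2),(0,2)]⟩,⟨0,[(45,0)]⟩⟩ ⟨true,0,⟨0,[(2,0)]⟩,⟨0,[(3,0),(26,0),(18,0)]⟩⟩ ⟨false,0,⟨0,[(1,0)]⟩,⟨15,
  [(5,3),(8,7),(11,3),(0,0),(0,0),(1,15),(9,3),(6,1)]⟩⟩,.o ⟨false,1,⟨1,[(30,1),(9,0),(5,0)]⟩,⟨2,[(1,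
  0),(0,0),(0,0),(0,0),(24,0),(2,0),(2,0)]⟩⟩,.e ⟨false,1,⟨1,[(27,0),(18,0)]⟩,⟨0,[(3,0),(26,0)]⟩⟩
  ⟨false,0,⟨0,[(1,0)]⟩,⟨3,[(5,1),(24,3),(9,0),(6,2)]⟩⟩]⟩) (.I [0,0,0,0,0,0,0,0,-1] (.R ⟨0,false,
  false,true,[1,0,0,-1],[0,1],[0,1,0,0,0,0,0,0,-1],(⟨0,[(30,0)]⟩,⟨0,[(31,0)]⟩),(⟨0,[(43,0)]⟩,⟨0,
  [(42,0)]⟩),⟨0,[(1,0)]⟩,.k,.k,(.x (-1) ⟨15,[(14,3),(5,3),(7,6),(0,6),(11,1)]⟩ ⟨0,[(43,0)]⟩),(.x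
  (-1) ⟨15,[(14,3),(5,3),(7,6),(0,6),(11,1)]⟩ ⟨0,[(43,0)]⟩),.k,.k,⟨false,1,⟨0,[(0,0),(17,0),(19,
  0)]⟩,⟨0,[(4,0),(26,0),(13,0)]⟩⟩,⟨true,0,⟨0,[(30,0)]⟩,⟨5,[(1,3),(12,0),(5,0),(10,1),(1,2),(2,2)]⟩⟩,
  ⟨true,0,⟨0,[(50,0)]⟩,⟨0,[]⟩⟩,⟨false,0,⟨1,[(4,1),(3,0),(21,0),(0,0),(3,0),(14,0)]⟩,⟨73,[(0,11),(0,
  73),(4,7),(2,14),(4,7),(0,27),(4,35),(1,13),(1,29),(3,30),(15,25)]⟩⟩,⟨false,0,⟨0,[]⟩,⟨0,[]⟩⟩,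
  ⟨false,0,⟨0,[]⟩,⟨0,[]⟩⟩,[.o ⟨false,0,⟨0,[(45,0)]⟩,⟨3,[(6,1),(34,0),(6,2)]⟩⟩,.a ⟨true,0,⟨3,[(8,0),
  (8,0),(12,2),(0,2)]⟩,⟨0,[(46,0)]⟩⟩ ⟨true,0,⟨0,[(0,0)]⟩,⟨0,[(4,0),(26,0),(18,0)]⟩⟩ ⟨false,0,⟨0,[(2,
  0)]⟩,⟨15,[(6,3),(8,7),(11,3),(0,0),(0,0),(1,15),(9,3),(6,1)]⟩⟩,.o ⟨false,1,⟨1,[(31,1),(9,0),(5,
  0)]⟩,⟨2,[(0,0),(1,0),(1,0),(0,0),(24,0),(2,0),(2,0)]⟩⟩,.e ⟨false,1,⟨1,[(28,0),(18,0)]⟩,⟨0,[(4,0),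
  (26,0)]⟩⟩ ⟨false,0,⟨0,[(2,0)]⟩,⟨3,[(6,1),(24,3),(9,0),(6,2)]⟩⟩]⟩) (.N [0,0,0,1] 0 ⟨0,[(0,0)]⟩ ⟨0,
  [(3,0)]⟩ .k))) (.I [1,1,0,0,0,0,0,0,1] (.R ⟨1,false,false,false,[0,0,0,1],[0,0,1],[1,1,0,0,0,0,0,
  0,1],(⟨0,[(30,0)]⟩,⟨0,[(29,0)]⟩),(⟨0,[(39,0)]⟩,⟨0,[(38,0)]⟩),⟨19,[(1,5),(4,0),(0,1),(5,4),(5,4),
  (10,13)]⟩,.k,.k,(.r (-1) ⟨1,[(17,0),(10,0),(8,0),(7,0)]⟩ ⟨9,[(2,9),(12,1),(0,1),(18,4),(0,2),(7,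
  1)]⟩),.k,(.r (-1) ⟨1,[(17,0),(10,0),(8,2),(7,0)]⟩ ⟨1,[(2,1),(12,0),(17,0),(2,0)]⟩),.k,⟨true,0,⟨0,
  [(0,0),(36,0)]⟩,⟨0,[(2,0),(15,0),(26,0)]⟩⟩,⟨false,1,⟨9,[(1,5),(4,0),(0,1),(18,4),(3,3),(15,9)]⟩,
  ⟨0,[(29,0),(2,0)]⟩⟩,⟨false,0,⟨0,[]⟩,⟨3,[(27,0),(0,0),(18,1)]⟩⟩,⟨false,1,⟨9,[(1,7),(0,9),(4,5),(9,
  3),(8,1),(3,1),(15,0),(0,4)]⟩,⟨0,[(3,0),(30,0)]⟩⟩,⟨true,0,⟨0,[(44,0)]⟩,⟨0,[(45,0)]⟩⟩,⟨false,1,⟨1,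
  [(1,1),(0,1),(4,1),(38,0),(0,0)]⟩,⟨0,[(3,0),(30,0),(10,0)]⟩⟩,[.a ⟨true,0,⟨0,[(7,0),(37,1)]⟩,⟨1,
  [(10,0),(18,0),(0,0)]⟩⟩ ⟨true,0,⟨0,[(0,0)]⟩,⟨3,[(2,3),(32,0),(0,0),(6,1)]⟩⟩ ⟨false,1,⟨4,[(1,3),(5,
  2),(9,1),(8,0),(3,0),(15,2)]⟩,⟨1,[(10,0),(18,1),(2,0),(2,0)]⟩⟩,.o ⟨false,1,⟨5,[(7,1),(0,1),(26,3),
  (4,0),(6,2)]⟩,⟨0,[(31,0)]⟩⟩,.o ⟨false,0,⟨9,[(2,3),(0,3),(0,1),(7,0),(7,0),(8,5),(2,2),(2,2)]⟩,⟨1,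
  [(30,1),(9,0),(5,0)]⟩⟩,.o ⟨false,0,⟨0,[(29,0),(2,0),(2,0)]⟩,⟨5,[(1,5),(4,0),(0,1),(3,1),(14,0),
  (19,3)]⟩⟩]⟩) (.Q [0,0,0,0,0,1,0,0,0,-1,0,1] (.ed false [0,1,0,1] .k) (.R ⟨0,false,false,true,[1,0,
  0,-1],[0,1],[0,1,0,0,0,0,0,0,-1],(⟨0,[(30,0)]⟩,⟨0,[(31,0)]⟩),(⟨0,[(43,0)]⟩,⟨0,[(42,0)]⟩),⟨0,[(0,
  0)]⟩,.k,.k,(.x (-1) ⟨15,[(14,3),(5,3),(7,6),(0,6),(11,1)]⟩ ⟨0,[(43,0)]⟩),(.x (-1) ⟨15,[(14,3),(5,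
  3),(7,6),(0,6),(11,1)]⟩ ⟨0,[(43,0)]⟩),.k,.k,⟨false,1,⟨0,[(3,0),(14,0),(19,0)]⟩,⟨0,[(4,0),(26,0),
  (13,0)]⟩⟩,⟨true,0,⟨0,[(30,0)]⟩,⟨5,[(2,2),(10,0),(2,0),(14,2),(1,1),(2,2)]⟩⟩,⟨true,0,⟨0,[(50,0)]⟩,
  ⟨0,[]⟩⟩,⟨false,0,⟨1,[(4,1),(3,0),(21,0),(0,0),(3,0),(14,0)]⟩,⟨3,[(1,1),(0,3),(25,0),(18,1),(0,
  0)]⟩⟩,⟨false,0,⟨0,[]⟩,⟨0,[]⟩⟩,⟨false,0,⟨0,[]⟩,⟨0,[]⟩⟩,[.o ⟨false,0,⟨0,[(45,0)]⟩,⟨3,[(6,1),(34,0),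
  (6,2)]⟩⟩,.e ⟨true,0,⟨0,[(1,0),(3,0),(1,0),(0,1),(37,4)]⟩,⟨0,[(4,0),(26,0),(18,0)]⟩⟩ ⟨true,0,⟨9,
  [(16,1),(0,1),(12,9),(5,4),(0,2),(7,1)]⟩,⟨0,[(2,0)]⟩⟩,.o ⟨false,1,⟨1,[(31,1),(9,0),(5,0)]⟩,⟨9,[(3,
  3),(0,3),(0,1),(7,0),(7,0),(8,5),(2,2),(2,2)]⟩⟩,.a ⟨true,0,⟨0,[(31,0)]⟩,⟨0,[(30,0)]⟩⟩ ⟨false,1,⟨1,
  [(28,0),(18,0)]⟩,⟨0,[(4,0),(26,0)]⟩⟩ ⟨true,0,⟨0,[(30,0),(14,0)]⟩,⟨0,[(2,0)]⟩⟩]⟩) (.R ⟨1,false,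
  false,true,[1,0,0,-1],[0,1],[1,1,0,0,0,0,0,0,-1],(⟨0,[(30,0)]⟩,⟨0,[(31,0)]⟩),(⟨0,[(43,0)]⟩,⟨0,
  [(42,0)]⟩),⟨0,[(0,0)]⟩,.k,.k,(.x (-1) ⟨15,[(14,3),(5,3),(7,6),(0,6),(11,1)]⟩ ⟨0,[(43,0)]⟩),(.x
  (-1) ⟨15,[(14,3),(5,3),(7,6),(0,6),(11,1)]⟩ ⟨0,[(43,0)]⟩),(.r (-1) ⟨0,[(3,0),(14,0),(19,0),(7,
  0)]⟩ ⟨9,[(4,9),(11,1),(0,1),(13,9),(4,4),(0,2),(7,11)]⟩),.k,⟨false,1,⟨0,[(3,0),(14,0),(19,0)]⟩,⟨0,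
  [(4,0),(26,0),(13,0)]⟩⟩,⟨true,0,⟨0,[(30,0)]⟩,⟨5,[(2,2),(10,0),(2,0),(14,2),(1,1),(2,2)]⟩⟩,⟨false,
  0,⟨0,[]⟩,⟨3,[(28,0),(0,0),(18,1)]⟩⟩,⟨false,0,⟨1,[(4,1),(3,0),(21,0),(0,0),(3,0),(14,0)]⟩,⟨3,[(1,
  1),(0,3),(25,0),(18,1),(0,0)]⟩⟩,⟨true,0,⟨0,[(45,0)]⟩,⟨0,[(46,0)]⟩⟩,⟨false,0,⟨0,[(4,0),(3,0),(26,
  0)]⟩,⟨1,[(2,1),(6,0),(14,1),(3,0)]⟩⟩,[.o ⟨false,0,⟨0,[(45,0)]⟩,⟨3,[(6,1),(34,0),(6,2)]⟩⟩,.e ⟨true,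
  0,⟨0,[(3,0)]⟩,⟨0,[(4,0),(26,0),(18,0)]⟩⟩ ⟨true,0,⟨9,[(16,1),(0,1),(12,9),(5,4),(0,2),(7,1)]⟩,⟨0,
  [(2,0)]⟩⟩,.o ⟨false,1,⟨1,[(31,1),(9,0),(5,0)]⟩,⟨9,[(3,3),(0,3),(0,1),(7,0),(7,0),(8,5),(2,2),(2,
  2)]⟩⟩,.a ⟨true,0,⟨0,[(31,0)]⟩,⟨0,[(30,0)]⟩⟩ ⟨false,1,⟨1,[(28,0),(18,0)]⟩,⟨0,[(4,0),(26,0)]⟩⟩
  ⟨true,0,⟨0,[(30,0),(14,0)]⟩,⟨0,[(2,0)]⟩⟩]⟩)))))))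

theorem ok178 : chk (cU (-1) true 10) t178 r100 = true := by decide +kernel

noncomputable def t183 : Tre :=
  (.Q [0,1,-1,0,0,0,0,0,-1,0,0,1] (.p true [0,0,0,1] [] (⟨0,[(24,0)]⟩,⟨0,[(23,0)]⟩) .k 0 (⟨0,[]⟩,⟨0,
  []⟩) .k .k) (.K ⟨0,[0,0,0,1],0,0,(⟨0,[(25,0)]⟩,⟨0,[(24,0)]⟩),.k,(.r (-1) ⟨1,[(12,0),(10,0),(8,0),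
  (7,0)]⟩ ⟨1,[(2,1),(27,0),(0,0)]⟩),(.x 0 ⟨0,[(37,0)]⟩ ⟨15,[(8,3),(5,3),(7,6),(0,6),(11,1)]⟩),.k,.k,
  [⟨0,[(25,0)]⟩,⟨0,[(24,0)]⟩,⟨0,[(0,0)]⟩,⟨0,[(1,0)]⟩]⟩) (.Q [0,0,0,0,0,-1,0,0,0,1,0,-1] (.ed true
  [0,1,0,1] .k) (.Q [0,0,0,1,0,0,0,0,0,1,0,-1] (.p false [0,0,0,1] [1] (⟨0,[(26,0)]⟩,⟨0,[(25,0)]⟩)
  .k 1 (⟨0,[]⟩,⟨0,[]⟩) .k .k) (.R ⟨1,false,false,true,[1,0,0,-1],[0,1],[1,1,0,0,0,0,0,0,-1],(⟨0,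
  [(26,0)]⟩,⟨0,[(27,0)]⟩),(⟨0,[(39,0)]⟩,⟨0,[(38,0)]⟩),⟨0,[(1,0)]⟩,.k,.k,(.x (-1) ⟨15,[(10,3),(5,3),
  (7,6),(0,6),(11,1)]⟩ ⟨0,[(39,0)]⟩),(.x (-1) ⟨15,[(10,3),(5,3),(7,6),(0,6),(11,1)]⟩ ⟨0,[(39,0)]⟩),
  (.r (-1) ⟨4,[(4,2),(6,3),(6,1),(2,1),(2,0),(10,1),(6,8)]⟩ ⟨7,[(3,1),(1,2),(6,3),(4,1),(7,2),(1,1),
  (4,0),(0,2)]⟩),.k,⟨false,1,⟨4,[(4,2),(6,3),(6,1),(2,1),(2,0),(10,1),(6,3)]⟩,⟨5,[(2,3),(2,0),(11,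
  1),(4,1),(2,0),(1,3)]⟩⟩,⟨true,0,⟨0,[(26,0)]⟩,⟨0,[(20,0),(6,0),(1,0),(0,0)]⟩⟩,⟨false,0,⟨0,[]⟩,⟨3,
  [(24,0),(0,0),(18,1)]⟩⟩,⟨false,0,⟨9,[(2,4),(0,2),(1,0),(6,1),(5,1),(3,3),(2,0),(0,3),(0,1),(7,3),
  (2,1)]⟩,⟨3,[(4,3),(6,2),(8,0),(2,0),(3,3),(2,0),(6,0),(2,1),(1,4)]⟩⟩,⟨true,0,⟨0,[(41,0)]⟩,⟨0,[(42,
  0)]⟩⟩,⟨false,0,⟨4,[(0,1),(1,2),(2,0),(6,0),(4,0),(0,0),(3,2),(2,0),(9,1),(2,0)]⟩,⟨3,[(4,3),(6,2),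
  (8,0),(2,0),(3,3),(2,0),(6,0),(2,1),(1,8)]⟩⟩,[.o ⟨false,0,⟨0,[(41,0)]⟩,⟨1,[(37,0),(4,1),(1,0)]⟩⟩,
  .a ⟨true,0,⟨0,[(0,0),(26,0)]⟩,⟨0,[(42,0)]⟩⟩ ⟨true,0,⟨0,[(4,0),(37,0)]⟩,⟨1,[(2,0),(0,0),(23,1)]⟩⟩
  ⟨false,0,⟨0,[(0,0)]⟩,⟨15,[(11,7),(11,3),(0,0),(0,0),(1,15),(9,5),(4,7)]⟩⟩,.o ⟨false,1,⟨1,[(27,1),
  (9,0),(5,0)]⟩,⟨5,[(2,1),(1,1),(0,0),(20,3),(2,1),(0,1),(6,0),(4,3)]⟩⟩,.e ⟨false,1,⟨1,[(24,0),(18,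
  0)]⟩,⟨0,[(2,0),(24,0)]⟩⟩ ⟨false,0,⟨0,[(0,0)]⟩,⟨1,[(27,1),(9,0),(4,1),(1,0)]⟩⟩]⟩) (.R ⟨1,false,
  false,true,[1,0,0,-1],[0,1],[0,1,0,-1,0,0,0,0,-1],(⟨0,[(26,0)]⟩,⟨0,[(27,0)]⟩),(⟨0,[(39,0)]⟩,⟨0,
  [(38,0)]⟩),⟨0,[(1,0)]⟩,.k,.k,(.x (-1) ⟨15,[(10,3),(5,3),(7,6),(0,6),(11,1)]⟩ ⟨0,[(39,0)]⟩),(.x
  (-1) ⟨15,[(10,3),(5,3),(7,6),(0,6),(11,1)]⟩ ⟨0,[(39,0)]⟩),(.r (-1) ⟨4,[(4,2),(6,3),(6,1),(2,1),(2,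
  0),(10,1),(6,8)]⟩ ⟨7,[(3,1),(1,2),(6,3),(4,1),(7,2),(1,1),(4,0),(0,2)]⟩),.k,⟨false,1,⟨4,[(4,2),(6,
  3),(6,1),(2,1),(2,0),(10,1),(6,8)]⟩,⟨11,[(2,9),(2,0),(7,5),(3,7),(4,1),(2,0),(1,9)]⟩⟩,⟨true,0,⟨0,
  [(26,0)]⟩,⟨11,[(0,4),(4,0),(6,0),(4,0),(9,6),(1,4),(2,3),(4,0)]⟩⟩,⟨false,0,⟨0,[(42,0)]⟩,⟨31,[(12,
  7),(0,7),(9,3),(0,6),(0,6),(11,1),(5,3),(0,11)]⟩⟩,⟨false,0,⟨9,[(2,4),(0,2),(1,0),(6,1),(5,1),(3,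
  3),(2,0),(0,3),(0,1),(7,3),(2,1)]⟩,⟨3,[(0,3),(3,1),(9,1),(5,1),(3,0),(19,0)]⟩⟩,⟨true,0,⟨0,[(46,
  0)]⟩,⟨0,[]⟩⟩,⟨false,0,⟨33,[(2,19),(2,6),(6,9),(0,1),(3,5),(0,9),(2,9),(0,23),(2,6),(0,13),(8,9)]⟩,
  ⟨4,[(0,4),(3,0),(9,2),(5,2),(3,1),(15,0),(1,2)]⟩⟩,[.o ⟨false,0,⟨0,[(41,0)]⟩,⟨1,[(37,0),(4,1),(1,
  0)]⟩⟩,.e ⟨true,0,⟨0,[(4,0),(37,1)]⟩,⟨5,[(2,3),(2,0),(11,1),(4,1),(2,0),(1,3)]⟩⟩ ⟨true,0,⟨33,[(3,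
  5),(1,4),(6,9),(9,3),(0,5),(0,3),(0,0),(0,27),(6,7)]⟩,⟨0,[(0,0)]⟩⟩,.o ⟨false,1,⟨1,[(27,1),(9,0),
  (5,0)]⟩,⟨5,[(2,1),(1,1),(0,0),(20,3),(2,1),(0,1),(6,0),(4,3)]⟩⟩,.a ⟨true,0,⟨0,[(27,0)]⟩,⟨0,[(26,
  0)]⟩⟩ ⟨false,1,⟨1,[(14,0),(9,0),(9,0),(7,0)]⟩,⟨2,[(0,1),(1,2),(9,0),(0,0),(4,0),(2,0),(0,0),(4,0),
  (7,0)]⟩⟩ ⟨true,0,⟨0,[(26,0),(14,0)]⟩,⟨0,[(0,0)]⟩⟩]⟩)) (.Q [0,1,0,-1,0,0,0,0,0,-1] (.pp true [-1,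
  1]) (.Q [0,0,0,-1,0,0,1,1,0,1,-1] (.p false [0,0,1] [1] (⟨0,[(36,0)]⟩,⟨0,[(35,0)]⟩) .k 1 (⟨0,[]⟩,
  ⟨0,[]⟩) .k .k) (.I [1,0,1,0,0,0,0,1,1] (.R ⟨0,false,false,true,[1,0,0,-1],[0,0,1],[0,1,0,0,0,0,0,
  0,-1],(⟨0,[(28,0)]⟩,⟨0,[(29,0)]⟩),(⟨0,[(38,0)]⟩,⟨0,[(37,0)]⟩),⟨0,[(3,0)]⟩,.k,.k,(.x (-1) ⟨15,[(12,
  3),(5,3),(7,6),(0,6),(11,1)]⟩ ⟨0,[(41,0)]⟩),.k,.k,.k,⟨true,0,⟨0,[(6,0),(29,0),(7,0)]⟩,⟨0,[(0,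
  0)]⟩⟩,⟨false,0,⟨0,[(22,0),(5,0),(3,0)]⟩,⟨19,[(10,11),(10,3),(4,2),(0,2),(1,19),(9,1)]⟩⟩,⟨true,0,
  ⟨0,[(48,0)]⟩,⟨0,[]⟩⟩,⟨false,0,⟨7,[(0,3),(0,1),(2,2),(0,0),(13,1),(5,1),(2,3)]⟩,⟨26,[(3,7),(2,8),
  (1,5),(3,1),(0,14),(4,1),(3,14),(3,8),(2,18),(12,2),(3,2)]⟩⟩,⟨false,0,⟨0,[]⟩,⟨0,[]⟩⟩,⟨false,0,⟨0,
  []⟩,⟨0,[]⟩⟩,[.o ⟨false,0,⟨0,[(32,0)]⟩,⟨7,[(9,3),(16,0),(0,0),(11,1),(6,3)]⟩⟩,.e ⟨true,0,⟨0,[(6,0),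
  (37,0)]⟩,⟨3,[(0,1),(6,0),(19,0),(16,1)]⟩⟩ ⟨true,0,⟨3,[(1,0),(0,0),(14,1),(10,3),(3,0),(1,1)]⟩,⟨5,
  [(3,3),(5,2),(2,0),(5,0),(10,1)]⟩⟩,.o ⟨false,1,⟨1,[(29,1),(9,0),(5,0)]⟩,⟨2,[(2,0),(1,0),(1,0),(21,
  1),(2,0),(2,0)]⟩⟩,.a ⟨true,0,⟨0,[(29,0)]⟩,⟨0,[(28,0)]⟩⟩ ⟨false,1,⟨1,[(26,0),(18,0)]⟩,⟨0,[(4,0),
  (24,0)]⟩⟩ ⟨true,0,⟨0,[(28,0),(3,0)]⟩,⟨5,[(3,3),(5,2),(2,0),(5,0),(10,1)]⟩⟩]⟩) (.R ⟨0,false,false,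
  true,[1,0,0,-1],[0,0,1],[0,1,1,0,0,0,0,1],(⟨0,[(28,0)]⟩,⟨0,[(29,0)]⟩),(⟨0,[(38,0)]⟩,⟨0,[(37,0)]⟩),
  ⟨0,[(3,0)]⟩,.k,.k,(.x (-1) ⟨15,[(12,3),(5,3),(7,6),(0,6),(11,1)]⟩ ⟨0,[(41,0)]⟩),.k,.k,.k,⟨true,0,
  ⟨1,[(34,0),(0,0)]⟩,⟨0,[]⟩⟩,⟨false,0,⟨2,[(0,0),(3,0),(20,0),(2,1),(3,0)]⟩,⟨19,[(10,11),(10,3),(4,
  2),(0,2),(1,19),(9,1)]⟩⟩,⟨true,0,⟨7,[(1,6),(0,0),(0,7),(0,4),(0,2),(6,1),(5,1),(5,7),(7,0)]⟩,⟨0,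
  [(0,0)]⟩⟩,⟨false,0,⟨9,[(1,7),(2,6),(0,0),(1,0),(11,3),(4,1),(2,0),(0,1)]⟩,⟨77,[(0,29),(2,31),(2,
  5),(1,23),(3,7),(0,29),(4,7),(7,20),(2,45),(12,11),(3,26)]⟩⟩,⟨false,0,⟨0,[]⟩,⟨0,[]⟩⟩,⟨false,0,⟨0,
  []⟩,⟨0,[]⟩⟩,[.o ⟨false,0,⟨0,[(32,0)]⟩,⟨7,[(9,3),(16,0),(0,0),(11,1),(6,3)]⟩⟩,.e ⟨true,0,⟨5,[(1,1),
  (15,1),(3,1),(10,1),(1,0),(0,0)]⟩,⟨0,[(36,0)]⟩⟩ ⟨true,0,⟨3,[(1,0),(0,0),(14,1),(10,3),(3,0),(1,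
  1)]⟩,⟨5,[(3,3),(5,2),(2,0),(5,0),(10,1)]⟩⟩,.o ⟨false,1,⟨1,[(29,1),(9,0),(5,0)]⟩,⟨2,[(2,0),(1,0),
  (1,0),(21,1),(2,0),(2,0)]⟩⟩,.a ⟨true,0,⟨0,[(29,0)]⟩,⟨0,[(28,0)]⟩⟩ ⟨false,1,⟨7,[(1,1),(12,1),(1,1),
  (4,1),(4,2),(0,2),(4,1)]⟩,⟨0,[(22,0)]⟩⟩ ⟨true,0,⟨0,[(28,0),(3,0)]⟩,⟨5,[(3,3),(5,2),(2,0),(5,0),
  (10,1)]⟩⟩]⟩)) (.R ⟨0,false,false,true,[1,0,0,-1],[0,0,1],[1,0,0,0,0,0,0,0,-1],(⟨0,[(27,0)]⟩,⟨0,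
  [(28,0)]⟩),(⟨0,[(37,0)]⟩,⟨0,[(36,0)]⟩),⟨0,[(2,0)]⟩,.k,.k,(.x (-1) ⟨15,[(11,3),(5,3),(7,6),(0,6),
  (11,1)]⟩ ⟨0,[(40,0)]⟩),.k,.k,.k,⟨true,0,⟨0,[(5,0),(15,0),(21,0)]⟩,⟨0,[(3,0),(19,0),(4,0),(2,0),
  (11,0)]⟩⟩,⟨false,0,⟨0,[(21,0),(5,0),(3,0)]⟩,⟨19,[(9,11),(10,3),(4,2),(0,2),(1,19),(9,1)]⟩⟩,⟨true,
  0,⟨0,[]⟩,⟨0,[(47,0)]⟩⟩,⟨false,0,⟨0,[(3,0),(23,0),(0,0),(2,0)]⟩,⟨26,[(2,7),(2,8),(1,5),(3,1),(0,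
  14),(4,1),(3,14),(3,8),(2,18),(12,2),(3,2)]⟩⟩,⟨false,0,⟨0,[]⟩,⟨0,[]⟩⟩,⟨false,0,⟨0,[]⟩,⟨0,[]⟩⟩,[.o
  ⟨false,0,⟨0,[(31,0)]⟩,⟨7,[(8,3),(16,0),(0,0),(11,1),(6,3)]⟩⟩,.o ⟨false,1,⟨3,[(25,0),(0,0),(4,3),
  (13,1)]⟩,⟨0,[(0,0),(42,0)]⟩⟩,.o ⟨false,1,⟨1,[(28,1),(9,0),(5,0)]⟩,⟨2,[(1,0),(1,0),(1,0),(21,1),(2,
  0),(2,0)]⟩⟩,.a ⟨true,0,⟨0,[(28,0)]⟩,⟨0,[(27,0)]⟩⟩ ⟨false,1,⟨3,[(5,1),(9,1),(5,1),(3,0),(19,0)]⟩,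
  ⟨1,[(3,0),(0,0),(23,1)]⟩⟩ ⟨true,0,⟨0,[(27,0),(3,0)]⟩,⟨5,[(2,3),(5,2),(2,0),(5,0),(10,1)]⟩⟩]⟩))
  (.I [1,0,1,0,0,0,0,1,1] (.R ⟨0,false,false,true,[1,0,0,-1],[0,0,1],[0,1,0,0,0,0,0,0,-1],(⟨0,[(27,
  0)]⟩,⟨0,[(28,0)]⟩),(⟨0,[(37,0)]⟩,⟨0,[(36,0)]⟩),⟨0,[(2,0)]⟩,.k,.k,(.x (-1) ⟨15,[(11,3),(5,3),(7,6),
  (0,6),(11,1)]⟩ ⟨0,[(40,0)]⟩),.k,.k,.k,⟨true,0,⟨0,[(5,0),(29,0),(7,0)]⟩,⟨0,[(0,0)]⟩⟩,⟨false,0,⟨0,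
  [(21,0),(5,0),(3,0)]⟩,⟨19,[(9,11),(10,3),(4,2),(0,2),(1,19),(9,1)]⟩⟩,⟨true,0,⟨0,[(47,0)]⟩,⟨0,[]⟩⟩,
  ⟨false,0,⟨2,[(0,1),(2,0),(20,0),(2,1),(3,0)]⟩,⟨26,[(2,7),(2,8),(1,5),(3,1),(0,14),(4,1),(3,14),(3,
  8),(2,18),(12,2),(3,2)]⟩⟩,⟨false,0,⟨0,[]⟩,⟨0,[]⟩⟩,⟨false,0,⟨0,[]⟩,⟨0,[]⟩⟩,[.o ⟨false,0,⟨0,[(31,
  0)]⟩,⟨7,[(8,3),(16,0),(0,0),(11,1),(6,3)]⟩⟩,.e ⟨true,0,⟨0,[(5,0),(37,0)]⟩,⟨3,[(0,1),(5,0),(19,0),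
  (16,1)]⟩⟩ ⟨true,0,⟨1,[(16,0),(10,1),(3,0),(1,0),(9,0)]⟩,⟨5,[(2,3),(5,2),(2,0),(5,0),(10,1)]⟩⟩,.o
  ⟨false,1,⟨1,[(28,1),(9,0),(5,0)]⟩,⟨5,[(3,1),(1,1),(0,0),(20,3),(2,1),(0,1),(6,0),(4,3)]⟩⟩,.a
  ⟨true,0,⟨0,[(28,0)]⟩,⟨0,[(27,0)]⟩⟩ ⟨false,1,⟨1,[(25,0),(18,0)]⟩,⟨0,[(3,0),(24,0)]⟩⟩ ⟨true,0,⟨0,
  [(27,0),(3,0)]⟩,⟨5,[(2,3),(5,2),(2,0),(5,0),(10,1)]⟩⟩]⟩) (.R ⟨0,false,false,true,[1,0,0,-1],[0,0,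
  1],[0,1,1,0,0,0,0,1],(⟨0,[(27,0)]⟩,⟨0,[(28,0)]⟩),(⟨0,[(37,0)]⟩,⟨0,[(36,0)]⟩),⟨0,[(2,0)]⟩,.k,.k,
  (.x (-1) ⟨15,[(11,3),(5,3),(7,6),(0,6),(11,1)]⟩ ⟨0,[(40,0)]⟩),.k,.k,.k,⟨true,0,⟨1,[(33,0),(0,0)]⟩,
  ⟨0,[]⟩⟩,⟨false,0,⟨2,[(0,0),(2,0),(20,0),(2,1),(3,0)]⟩,⟨19,[(9,11),(10,3),(4,2),(0,2),(1,19),(9,
  1)]⟩⟩,⟨true,0,⟨0,[(3,0),(19,0),(4,0),(2,0),(11,0)]⟩,⟨0,[(0,0)]⟩⟩,⟨false,0,⟨0,[(3,0),(23,0),(0,0),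
  (2,0)]⟩,⟨77,[(0,29),(1,31),(2,5),(1,23),(3,7),(0,29),(4,7),(7,20),(2,45),(12,11),(3,26)]⟩⟩,⟨false,
  0,⟨0,[]⟩,⟨0,[]⟩⟩,⟨false,0,⟨0,[]⟩,⟨0,[]⟩⟩,[.o ⟨false,0,⟨0,[(31,0)]⟩,⟨7,[(8,3),(16,0),(0,0),(11,1),
  (6,3)]⟩⟩,.e ⟨true,0,⟨1,[(16,0),(14,0),(2,0),(8,0)]⟩,⟨0,[(35,0)]⟩⟩ ⟨true,0,⟨1,[(16,0),(10,1),(3,0),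
  (1,0),(9,0)]⟩,⟨5,[(2,3),(5,2),(2,0),(5,0),(10,1)]⟩⟩,.o ⟨false,1,⟨1,[(28,1),(9,0),(5,0)]⟩,⟨2,[(0,
  0),(2,0),(23,1),(2,1),(0,0),(1,0)]⟩⟩,.a ⟨true,0,⟨0,[(28,0)]⟩,⟨0,[(27,0)]⟩⟩ ⟨false,1,⟨2,[(15,0),(0,
  0),(8,0),(0,0),(4,0),(2,0)]⟩,⟨0,[(21,0)]⟩⟩ ⟨true,0,⟨0,[(27,0),(3,0)]⟩,⟨5,[(2,3),(5,2),(2,0),(5,0),
  (10,1)]⟩⟩]⟩)))))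

theorem ok183 : chk (cU (-1) true 10) t183 l103 = true := by decide +kernel

noncomputable def t210 : Tre :=
  (.Q [0,0,0,-1,0,0,2,2,0,1,-2] (.p false [0,0,1] [1,0,-1] (⟨0,[(31,0)]⟩,⟨0,[(30,0)]⟩) .k 2 (⟨0,
  [(30,0)]⟩,⟨0,[(31,0)]⟩) .k (.r (-1) ⟨6,[(1,7),(2,1),(0,1),(13,1),(0,1),(17,0)]⟩ ⟨0,[(29,1)]⟩))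
  (.R ⟨1,false,false,false,[0,0,1],[1,0,-1],[1,0,0,0,0,0,0,-1],(⟨0,[(32,0)]⟩,⟨0,[(31,0)]⟩),(⟨0,[(31,
  0)]⟩,⟨0,[(32,0)]⟩),⟨4,[(6,2),(0,0),(0,2),(5,0),(0,0),(2,2)]⟩,.k,.k,.k,.k,(.r (-1) ⟨13,[(2,17),(2,
  7),(0,7),(13,0),(0,0),(17,3)]⟩ ⟨23,[(7,3),(2,11),(9,4),(0,4),(8,35),(2,1)]⟩),.k,⟨true,0,⟨0,[]⟩,⟨1,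
  [(28,0),(0,0)]⟩⟩,⟨false,1,⟨0,[(15,0),(23,0)]⟩,⟨0,[(19,0)]⟩⟩,⟨false,0,⟨0,[(16,0),(13,0)]⟩,⟨6,[(2,
  7),(2,1),(0,1),(13,1),(0,1),(17,0)]⟩⟩,⟨true,0,⟨0,[(1,0)]⟩,⟨0,[(0,0),(36,0)]⟩⟩,⟨false,0,⟨4,[(7,0),
  (1,1),(6,6),(2,0),(10,0)]⟩,⟨9,[(0,2),(1,8),(2,3),(0,3),(8,2),(4,2),(0,2)]⟩⟩,⟨false,1,⟨5,[(1,5),(5,
  1),(12,0),(0,0),(11,0),(6,2)]⟩,⟨0,[(0,0)]⟩⟩,[.a ⟨true,0,⟨1,[(1,0),(20,0),(0,0)]⟩,⟨5,[(0,2),(6,0),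
  (14,1),(0,1)]⟩⟩ ⟨true,0,⟨0,[(30,0)]⟩,⟨3,[(0,0),(1,0),(12,0),(12,0),(0,0)]⟩⟩ ⟨false,1,⟨7,[(1,3),
  (13,3),(4,0),(0,0),(17,5)]⟩,⟨6,[(0,2),(2,0),(9,0),(2,0),(2,2)]⟩⟩,.o ⟨false,1,⟨7,[(1,3),(18,0),(0,
  0),(11,1),(6,3)]⟩,⟨0,[(26,0)]⟩⟩,.o ⟨false,0,⟨0,[(16,0),(9,0)]⟩,⟨3,[(15,1),(4,0),(0,0),(11,0),(5,
  0)]⟩⟩,.o ⟨false,0,⟨0,[(28,0)]⟩,⟨3,[(15,1),(17,0),(5,2)]⟩⟩]⟩) (.Q [0,0,0,-2,0,0,2,2,0,1,-2] (.p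
  false [0,0,1] [1,0,-1] (⟨0,[(32,0)]⟩,⟨0,[(31,0)]⟩) .k 2 (⟨0,[(31,0)]⟩,⟨0,[(32,0)]⟩) .k (.r (-1)
  ⟨6,[(2,7),(2,1),(0,1),(13,1),(0,1),(17,0)]⟩ ⟨0,[(30,1)]⟩)) (.R ⟨1,false,false,true,[0,0,1],[1,1,
  -1],[0,1,1],(⟨0,[(33,0)]⟩,⟨0,[(32,0)]⟩),(⟨0,[(32,0),(3,0)]⟩,⟨8,[(1,0),(1,0),(3,4),(0,0),(0,4),(5,
  0),(3,4),(13,1)]⟩),⟨8,[(1,0),(1,0),(3,4),(0,0),(0,4),(5,0),(3,4),(13,1)]⟩,.k,.k,.k,(.r (-1) ⟨2,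
  [(0,1),(2,0),(12,1),(23,2)]⟩ ⟨3,[(1,1),(9,1),(8,1),(0,0),(0,0),(8,1)]⟩),(.r (-2) ⟨13,[(3,19),(2,
  11),(0,11),(13,4),(0,4),(17,5)]⟩ ⟨5,[(1,0),(6,0),(1,1),(0,5),(5,1),(2,1)]⟩),.k,⟨false,1,⟨27,[(3,
  19),(2,11),(0,11),(13,4),(0,4),(17,5)]⟩,⟨5,[(1,0),(6,0),(1,1),(6,1),(2,1)]⟩⟩,⟨true,1,⟨0,[(16,0),
  (23,0)]⟩,⟨1,[(0,0),(10,1),(8,0)]⟩⟩,⟨false,0,⟨11,[(6,3),(4,7),(9,2),(0,2),(18,1)]⟩,⟨5,[(3,1),(3,1),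
  (4,1),(27,2),(0,0)]⟩⟩,⟨false,0,⟨0,[(1,0)]⟩,⟨23,[(0,19),(3,7),(16,4),(0,4),(11,1),(6,11)]⟩⟩,⟨false,
  0,⟨47,[(1,11),(6,3),(2,23),(8,11),(0,10),(0,10),(11,1)]⟩,⟨15,[(3,7),(3,11),(13,0),(0,0),(18,1)]⟩⟩,
  ⟨true,0,⟨3,[(1,1),(6,0),(1,2),(17,0)]⟩,⟨0,[(0,0)]⟩⟩,[.o ⟨false,0,⟨0,[(10,0)]⟩,⟨7,[(0,3),(20,0),(0,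
  0),(11,1),(6,3)]⟩⟩,.a ⟨true,0,⟨5,[(2,2),(5,1),(14,0),(0,0)]⟩,⟨1,[(0,0),(22,0),(0,0)]⟩⟩ ⟨true,0,⟨1,
  [(29,0),(0,0)]⟩,⟨0,[]⟩⟩ ⟨false,1,⟨11,[(1,5),(6,1),(7,5),(4,0),(0,0),(11,0),(5,8)]⟩,⟨1,[(0,0),(19,
  0)]⟩⟩,.o ⟨false,0,⟨0,[(17,0),(9,0)]⟩,⟨3,[(16,1),(4,0),(0,0),(11,0),(5,0)]⟩⟩,.o ⟨false,0,⟨0,[(29,
  0)]⟩,⟨3,[(16,1),(17,0),(5,2)]⟩⟩]⟩) (.I [0,0,2,0,-1,-2,1] (.K ⟨0,[1,1,-1],1,0,(⟨0,[(33,0),(3,0)]⟩,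
  ⟨6,[(1,0),(2,0),(3,2),(1,2),(3,0),(1,0),(3,2),(13,2)]⟩),.k,.k,(.x (-2) ⟨7,[(6,3),(15,2),(0,2),(13,
  19),(3,9)]⟩ ⟨0,[(0,0)]⟩),.k,.k,[⟨0,[(10,0),(22,0),(3,1)]⟩,⟨1,[(1,0),(2,0),(0,0),(1,0),(0,1),(11,
  0)]⟩,⟨1,[(4,1),(2,1),(13,0),(2,0),(0,0)]⟩,⟨0,[(11,0)]⟩]⟩) (.Q [0,0,-3,0,1,0,0,0,0,1] (.pp false
  [-1,1]) (.I [0,1,2,1,-1] (.R ⟨1,false,false,true,[1,-1],[0,1],[0,1,1],(⟨0,[(38,0)]⟩,⟨0,[(39,0)]⟩),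
  (⟨0,[(39,0)]⟩,⟨0,[(38,0)]⟩),⟨0,[(16,0),(19,0)]⟩,.k,.k,(.r (-1) ⟨41,[(1,7),(4,11),(2,23),(0,23),
  (13,2),(0,2),(11,3)]⟩ ⟨14,[(6,5),(4,3),(2,11),(9,4),(0,4),(11,1)]⟩),(.r (-1) ⟨41,[(1,7),(4,11),(2,
  23),(0,23),(13,2),(0,2),(11,3)]⟩ ⟨14,[(6,5),(4,3),(2,11),(9,4),(0,4),(11,1)]⟩),(.r (-2) ⟨13,[(1,
  3),(4,5),(2,11),(0,11),(13,4),(0,4),(11,1)]⟩ ⟨4,[(6,2),(4,1),(2,5),(22,0)]⟩),.k,⟨true,0,⟨0,[(42,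
  0)]⟩,⟨29,[(6,5),(4,3),(2,11),(9,4),(0,4),(11,1)]⟩⟩,⟨false,1,⟨0,[(1,0)]⟩,⟨0,[(29,0),(2,0)]⟩⟩,⟨true,
  (-1),⟨0,[(0,0)]⟩,⟨27,[(1,11),(4,3),(2,7),(0,7),(13,0),(0,0),(11,5)]⟩⟩,⟨false,0,⟨2,[(11,1),(14,0),
  (0,0)]⟩,⟨0,[(10,0),(18,0),(2,0)]⟩⟩,⟨false,0,⟨14,[(6,5),(4,3),(2,11),(9,4),(0,4),(11,1)]⟩,⟨0,[(10,
  0)]⟩⟩,⟨false,0,⟨0,[(11,0)]⟩,⟨0,[(10,0),(18,0),(2,0),(9,0)]⟩⟩,[.o ⟨false,0,⟨0,[(41,0)]⟩,⟨3,[(10,1),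
  (18,1),(2,1),(4,0),(6,0)]⟩⟩,.a ⟨true,0,⟨2,[(11,0),(14,1),(0,1)]⟩,⟨0,[(42,0)]⟩⟩ ⟨true,0,⟨1,[(32,0),
  (0,0)]⟩,⟨0,[]⟩⟩ ⟨false,1,⟨5,[(1,3),(9,1),(12,0),(0,0)]⟩,⟨1,[(9,0),(10,0),(8,1),(0,1),(9,0)]⟩⟩,.o
  ⟨false,0,⟨0,[(20,0),(8,0),(0,0)]⟩,⟨11,[(1,3),(22,2),(0,2),(11,1)]⟩⟩,.o ⟨false,0,⟨0,[(29,0),(2,
  0)]⟩,⟨0,[(43,0)]⟩⟩]⟩) (.K ⟨0,[1,1,-1],1,0,(⟨0,[(35,0),(3,0)]⟩,⟨11,[(1,4),(10,5),(6,2),(16,5),(0,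
  0)]⟩),.k,.k,(.r 0 ⟨11,[(11,3),(2,11),(9,4),(0,4),(11,1)]⟩ ⟨0,[(0,0),(5,0),(2,0)]⟩),.k,.k,[⟨0,[(12,
  0),(22,0),(3,1)]⟩,⟨5,[(1,4),(17,2),(17,0)]⟩,⟨1,[(6,1),(2,1),(13,0),(2,0),(0,0)]⟩,⟨0,[(13,0)]⟩]⟩))
  (.Q [0,-1,1,-1,0,0,0,0,1,0,0,-1] (.p false [0,0,0,1] [] (⟨0,[(26,0)]⟩,⟨0,[(25,0)]⟩) .k 0 (⟨0,[]⟩,
  ⟨0,[]⟩) .k .k) (.Q [0,-1,0,1,0,0,0,0,0,1] (.pp false [-1,1]) (.Q [0,1,0,-2,0,0,0,0,0,-1] (.pp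
  true [-1,1]) (.R ⟨2,false,false,true,[0,1],[1,-1],[0,1],(⟨0,[]⟩,⟨0,[]⟩),(⟨0,[(40,0)]⟩,⟨0,[(41,
  0)]⟩),⟨0,[]⟩,.k,.k,.k,(.r 0 ⟨2,[(3,1),(9,1),(12,0),(0,0)]⟩ ⟨13,[(8,3),(2,7),(0,7),(13,0),(0,0),
  (17,3)]⟩),.k,.k,⟨true,0,⟨5,[(3,1),(9,1),(12,0),(0,0)]⟩,⟨0,[(44,0)]⟩⟩,⟨false,0,⟨2,[(3,0),(35,0)]⟩,
  ⟨19,[(4,7),(15,3),(5,0),(0,0),(12,19),(4,9)]⟩⟩,⟨false,1,⟨6,[(8,0),(2,1),(0,1),(13,1),(0,1),(17,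
  0)]⟩,⟨17,[(3,3),(9,5),(25,0),(2,5),(3,2)]⟩⟩,⟨true,0,⟨0,[(0,0)]⟩,⟨2,[(13,1),(14,0),(0,0)]⟩⟩,⟨false,
  1,⟨3,[(26,0),(0,0),(17,1)]⟩,⟨7,[(3,0),(21,0),(9,1),(6,2),(3,0)]⟩⟩,⟨false,1,⟨3,[(0,1),(25,0),(0,0),
  (11,0),(6,0)]⟩,⟨0,[(1,0)]⟩⟩,[.e ⟨true,0,⟨0,[(48,0)]⟩,⟨7,[(3,0),(21,0),(9,1),(6,2),(3,0)]⟩⟩ ⟨true,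
  0,⟨23,[(0,11),(2,7),(22,2),(0,2),(11,1),(8,11)]⟩,⟨0,[(1,0)]⟩⟩,.a ⟨true,0,⟨0,[(44,0)]⟩,⟨2,[(13,0),
  (14,1),(0,1)]⟩⟩ ⟨false,1,⟨3,[(26,0),(0,0),(17,1)]⟩,⟨0,[]⟩⟩ ⟨true,0,⟨11,[(0,5),(2,3),(35,0),(6,
  2)]⟩,⟨2,[(13,0),(14,1),(0,1)]⟩⟩,.o ⟨false,1,⟨3,[(26,0),(0,0),(17,1)]⟩,⟨2,[(3,0),(35,0)]⟩⟩,.e
  ⟨false,1,⟨3,[(26,0),(0,0),(17,1)]⟩,⟨7,[(3,0),(21,0),(9,1),(6,2),(3,0)]⟩⟩ ⟨false,1,⟨3,[(0,1),(25,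
  0),(0,0),(11,0),(6,0)]⟩,⟨0,[(1,0)]⟩⟩]⟩) (.Q [0,1,0,-3,0,0,0,0,0,-1] (.pp true [-1,1]) (.R ⟨1,
  false,false,false,[1,-1],[0,1],[0,1],(⟨0,[(41,0)]⟩,⟨0,[(42,0)]⟩),(⟨0,[(42,0)]⟩,⟨0,[(41,0)]⟩),⟨0,
  [(19,0),(19,0)]⟩,.k,.k,(.r (-1) ⟨13,[(9,3),(2,7),(0,7),(13,0),(0,0),(17,3)]⟩ ⟨2,[(4,1),(9,1),(12,
  0),(0,0)]⟩),(.r (-1) ⟨13,[(9,3),(2,7),(0,7),(13,0),(0,0),(17,3)]⟩ ⟨2,[(4,1),(9,1),(12,0),(0,0)]⟩),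
  (.r (-2) ⟨13,[(9,5),(2,11),(0,11),(13,4),(0,4),(17,5)]⟩ ⟨0,[(4,0),(9,0)]⟩),.k,⟨false,1,⟨27,[(9,7),
  (2,19),(12,3),(1,2),(0,2),(4,3),(12,21)]⟩,⟨17,[(4,3),(9,5),(25,0),(2,5),(3,2)]⟩⟩,⟨true,1,⟨19,[(5,
  7),(15,3),(5,0),(0,0),(12,19),(4,9)]⟩,⟨0,[(4,0)]⟩⟩,⟨false,0,⟨5,[(4,1),(9,1),(12,0),(0,0)]⟩,⟨7,
  [(13,3),(13,0),(0,0),(18,1)]⟩⟩,⟨false,0,⟨0,[(1,0)]⟩,⟨11,[(0,7),(26,2),(0,2),(11,1),(6,3)]⟩⟩,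
  ⟨false,0,⟨11,[(4,3),(9,7),(12,0),(0,0),(11,1)]⟩,⟨39,[(0,7),(12,27),(12,7),(0,0),(0,0),(7,15),(10,
  9)]⟩⟩,⟨true,0,⟨0,[(14,0)]⟩,⟨0,[(0,0)]⟩⟩,[.a ⟨true,0,⟨2,[(14,0),(14,1),(0,1)]⟩,⟨0,[(45,0)]⟩⟩ ⟨true,
  0,⟨0,[(49,0)]⟩,⟨7,[(4,0),(21,0),(9,1),(6,2),(3,0)]⟩⟩ ⟨false,1,⟨29,[(5,7),(8,9),(6,3),(5,0),(0,0),
  (12,19),(4,19)]⟩,⟨5,[(0,1),(3,1),(35,0),(6,0)]⟩⟩,.e ⟨false,1,⟨3,[(27,0),(0,0),(17,1)]⟩,⟨0,[]⟩⟩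
  ⟨false,1,⟨0,[(13,0),(0,0)]⟩,⟨11,[(0,3),(3,3),(22,0),(0,0),(11,1),(8,7)]⟩⟩,.o ⟨false,0,⟨2,[(4,0),
  (35,0)]⟩,⟨3,[(27,0),(0,0),(17,1)]⟩⟩,.o ⟨false,0,⟨11,[(4,7),(22,2),(0,2),(11,1)]⟩,⟨0,[(46,0)]⟩⟩]⟩)
  (.I [1,0,-2,-1,1,0,0,0,1] (.I [1,0,0,1,0,0,0,0,1] (.Q [0,0,-1,0,1,0,0,0,-1,-1,0,1] (.p true [0,0,
  0,1] [1] (⟨0,[(32,0)]⟩,⟨0,[(31,0)]⟩) .k 1 (⟨0,[]⟩,⟨0,[]⟩) .k .k) (.Q [0,0,-2,0,1,0,0,0,0,-1,0,1]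
  (.p true [0,0,0,1] [1] (⟨0,[(33,0)]⟩,⟨0,[(32,0)]⟩) .k 1 (⟨0,[]⟩,⟨0,[]⟩) .k .k) (.I [0,0,1,1,0,0,0,
  0,-1] (.R ⟨1,false,false,true,[0,0,0,1],[0,1],[1,1,0,0,0,0,0,0,1],(⟨0,[(35,0)]⟩,⟨0,[(34,0)]⟩),(⟨0,
  [(47,0)]⟩,⟨0,[(46,0)]⟩),⟨9,[(1,3),(3,0),(1,2),(6,1),(1,1),(0,3),(2,3),(14,5)]⟩,.k,.k,(.r (-1) ⟨35,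
  [(4,7),(9,3),(2,7),(0,7),(13,2),(0,16)]⟩ ⟨0,[(0,0)]⟩),(.r (-1) ⟨35,[(4,7),(9,3),(2,7),(0,7),(13,
  2),(0,16)]⟩ ⟨0,[(0,0)]⟩),(.r (-1) ⟨4,[(4,3),(3,0),(5,0),(2,1),(0,0),(16,0)]⟩ ⟨11,[(9,7),(9,7),(12,
  6),(0,0)]⟩),.k,⟨false,1,⟨0,[(4,0)]⟩,⟨0,[(0,0)]⟩⟩,⟨true,1,⟨0,[(35,0),(15,0)]⟩,⟨0,[(9,0),(24,0)]⟩⟩,
  ⟨false,0,⟨0,[]⟩,⟨3,[(32,0),(0,0),(18,1)]⟩⟩,⟨false,1,⟨2,[(2,0),(16,0),(12,0),(2,1),(15,0)]⟩,⟨0,[(8,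
  0)]⟩⟩,⟨true,0,⟨0,[(49,0)]⟩,⟨0,[(50,0)]⟩⟩,⟨false,1,⟨5,[(2,3),(16,3),(12,0),(2,1),(15,0)]⟩,⟨0,[(8,
  0),(41,0)]⟩⟩,[.o ⟨false,0,⟨0,[(49,0)]⟩,⟨23,[(9,7),(8,11),(13,2),(0,2),(11,7),(6,5)]⟩⟩,.a ⟨true,0,
  ⟨2,[(19,0),(14,1),(0,1)]⟩,⟨0,[(50,0)]⟩⟩ ⟨true,0,⟨0,[(3,0),(46,0)]⟩,⟨0,[(0,0),(49,0)]⟩⟩ ⟨false,1,
  ⟨2,[(1,0),(17,0),(15,1),(15,1)]⟩,⟨35,[(8,5),(0,15),(4,5),(2,11),(0,5),(13,2),(1,29),(10,6)]⟩⟩,.o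
  ⟨false,0,⟨2,[(9,0),(24,2),(10,0)]⟩,⟨8,[(1,3),(0,3),(6,0),(23,1),(1,0)]⟩⟩,.o ⟨false,0,⟨11,[(9,7),
  (22,2),(0,2),(0,11),(10,1)]⟩,⟨0,[(1,0)]⟩⟩]⟩) (.R ⟨1,false,false,true,[0,0,0,1],[0,1],[1,0,0,0,0,0,
  0,0,1],(⟨0,[(35,0)]⟩,⟨0,[(34,0)]⟩),(⟨0,[(47,0)]⟩,⟨0,[(46,0)]⟩),⟨9,[(1,3),(3,0),(1,2),(6,1),(1,1),
  (0,3),(2,3),(14,5)]⟩,.k,.k,(.x 0 ⟨2,[(9,0),(10,0),(8,0),(2,0),(0,0),(7,0)]⟩ ⟨19,[(10,7),(15,3),(5,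
  0),(0,0),(17,9)]⟩),(.x 0 ⟨2,[(9,0),(10,0),(8,0),(2,0),(0,0),(7,0)]⟩ ⟨19,[(10,7),(15,3),(5,0),(0,
  0),(17,9)]⟩),(.r (-1) ⟨4,[(0,0),(3,1),(9,0),(2,1),(0,1),(14,0)]⟩ ⟨11,[(9,7),(9,7),(12,6),(0,0)]⟩),
  .k,⟨false,1,⟨8,[(0,5),(3,2),(0,1),(12,2),(26,0),(6,1)]⟩,⟨1,[(22,0),(7,0),(1,0),(5,0)]⟩⟩,⟨true,1,
  ⟨0,[(35,0),(15,0)]⟩,⟨0,[(9,0),(24,0)]⟩⟩,⟨true,0,⟨0,[]⟩,⟨0,[(54,0)]⟩⟩,⟨false,1,⟨2,[(2,0),(16,0),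
  (12,0),(2,1),(15,0)]⟩,⟨0,[(8,0)]⟩⟩,⟨false,1,⟨5,[(19,1),(12,0),(0,0),(11,0),(6,2)]⟩,⟨0,[(50,0)]⟩⟩,
  ⟨false,1,⟨5,[(2,3),(16,3),(12,0),(2,1),(15,0)]⟩,⟨0,[(8,0),(41,0)]⟩⟩,[.o ⟨false,0,⟨0,[(49,0)]⟩,⟨23,
  [(9,7),(8,11),(13,2),(0,2),(11,7),(6,5)]⟩⟩,.a ⟨true,0,⟨2,[(19,0),(14,1),(0,1)]⟩,⟨0,[(50,0)]⟩⟩
  ⟨true,0,⟨1,[(0,0),(2,0),(44,0)]⟩,⟨1,[(14,0),(2,0),(4,0),(9,0),(21,0)]⟩⟩ ⟨false,1,⟨2,[(1,0),(17,0),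
  (15,1),(15,1)]⟩,⟨35,[(8,5),(0,15),(4,5),(2,11),(0,5),(13,2),(1,29),(10,6)]⟩⟩,.o ⟨false,0,⟨2,[(9,
  0),(24,2),(10,0)]⟩,⟨8,[(1,3),(0,3),(6,0),(23,1),(1,0)]⟩⟩,.o ⟨false,0,⟨11,[(9,7),(22,2),(0,2),(0,
  11),(10,1)]⟩,⟨0,[(1,0)]⟩⟩]⟩)) (.I [0,0,1,1,0,0,0,0,-1] (.I [0,0,-1,-1,1,0,0,1,-1] (.R ⟨1,false,
  false,false,[1,0,0,-1],[1,0,-1],[0,0,0,-1,0,0,0,0,-1],(⟨0,[(35,0)]⟩,⟨0,[(36,0)]⟩),(⟨0,[(44,0)]⟩,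
  ⟨0,[(45,0)]⟩),⟨17,[(2,6),(9,6),(2,4),(2,2),(0,9),(1,2),(3,6),(0,6),(0,1),(7,10)]⟩,.k,.k,(.x (-1)
  ⟨31,[(0,7),(11,3),(8,7),(3,7),(7,10),(0,14),(11,1),(5,3)]⟩ ⟨0,[(48,0)]⟩),.k,(.r (-1) ⟨0,[(0,0)]⟩
  ⟨3,[(12,0),(10,1),(8,0),(1,1)]⟩),.k,⟨false,1,⟨0,[(0,0)]⟩,⟨14,[(4,12),(8,4),(4,1),(4,0),(5,1),(2,
  4),(1,0)]⟩⟩,⟨true,0,⟨3,[(2,0),(25,1),(6,2),(10,0)]⟩,⟨0,[(29,0),(6,0),(2,0)]⟩⟩,⟨true,0,⟨0,[(51,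
  0)]⟩,⟨0,[(50,0)]⟩⟩,⟨false,0,⟨7,[(2,0),(5,1),(0,5),(3,3),(20,0),(0,0)]⟩,⟨4,[(0,1),(2,2),(12,0),(10,
  0),(2,0),(5,1),(2,1),(4,0),(4,0)]⟩⟩,⟨false,1,⟨3,[(33,0),(0,0),(18,1)]⟩,⟨0,[]⟩⟩,⟨false,0,⟨1,[(9,1),
  (3,0),(6,0)]⟩,⟨8,[(0,4),(2,3),(6,0),(8,1),(1,0),(5,1),(8,4),(2,3),(4,4),(4,0)]⟩⟩,[.e ⟨false,1,⟨5,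
  [(0,0),(4,0),(12,0),(0,0),(13,2)]⟩,⟨0,[(4,0)]⟩⟩ ⟨false,0,⟨1,[(2,1),(9,0),(6,1),(2,0),(3,0)]⟩,⟨1,
  [(3,0),(1,0),(9,0),(16,0),(3,0)]⟩⟩,.o ⟨false,1,⟨7,[(14,3),(18,0),(0,0),(11,1),(6,3)]⟩,⟨0,[(39,
  0)]⟩⟩,.o ⟨false,1,⟨3,[(3,1),(0,0),(0,0),(30,1),(9,0)]⟩,⟨1,[(2,0),(32,0),(10,0)]⟩⟩,.a ⟨true,0,⟨0,
  [(36,0)]⟩,⟨0,[(35,0)]⟩⟩ ⟨false,1,⟨0,[(0,0),(28,0)]⟩,⟨7,[(4,1),(5,0),(4,0),(4,0),(2,1),(10,2)]⟩⟩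
  ⟨true,0,⟨1,[(2,1),(9,0),(6,1),(2,0),(3,0)]⟩,⟨0,[(36,0),(2,0)]⟩⟩]⟩) (.K ⟨0,[1,0,0,-1],1,1,(⟨0,[(35,
  0)]⟩,⟨0,[(36,0)]⟩),.k,(.x (-1) ⟨15,[(21,3),(3,3),(2,1),(4,6),(0,6),(11,0),(5,4)]⟩ ⟨0,[(48,0)]⟩),
  (.r 0 ⟨0,[(1,0)]⟩ ⟨35,[(5,7),(9,3),(2,7),(0,7),(13,2),(0,16)]⟩),.k,.k,[⟨0,[(2,0)]⟩,⟨0,[(36,0),(15,
  0)]⟩,⟨0,[(0,0),(14,0),(2,0),(16,0)]⟩,⟨0,[(3,0),(51,0)]⟩]⟩)) (.K ⟨0,[1,0,0,-1],1,1,(⟨0,[(34,0)]⟩,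
  ⟨0,[(35,0)]⟩),.k,(.x (-1) ⟨15,[(20,3),(3,3),(2,1),(4,6),(0,6),(11,0),(5,4)]⟩ ⟨0,[(47,0)]⟩),(.x
  (-1) ⟨19,[(10,7),(15,3),(5,0),(0,0),(17,9)]⟩ ⟨2,[(9,0),(10,0),(8,0),(2,0),(0,0),(7,0)]⟩),.k,.k,
  [⟨0,[(1,0)]⟩,⟨0,[(35,0),(15,0)]⟩,⟨0,[(0,0),(0,0),(47,0)]⟩,⟨0,[(2,0),(51,0)]⟩]⟩))) (.Q [0,1,-1,0,1,
  0,0,0,-1,-1,0,1] (.p true [0,0,0,1] [1] (⟨0,[(33,0)]⟩,⟨0,[(32,0)]⟩) .k 1 (⟨0,[]⟩,⟨0,[]⟩) .k .k)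
  (.Q [0,0,-1,-2,1,0,-1,-1,-1,-1,1,1] (.p true [0,0,1] [1,0,0,-1] (⟨0,[(43,0)]⟩,⟨0,[(42,0)]⟩) .k 2
  (⟨0,[(33,0)]⟩,⟨0,[(34,0)]⟩) .k (.r 0 ⟨7,[(1,5),(0,1),(5,1),(1,0),(2,3),(3,7),(2,2),(3,4),(9,5)]⟩
  ⟨3,[(31,2),(0,0),(8,3)]⟩)) (.Q [0,0,-1,-1,1,0,-1,-1,-1,-1,1,1] (.p true [0,0,1] [1,0,0,-1] (⟨0,
  [(44,0)]⟩,⟨0,[(43,0)]⟩) .k 2 (⟨0,[(34,0)]⟩,⟨0,[(35,0)]⟩) .k (.r 0 ⟨7,[(2,5),(0,1),(5,1),(1,0),(2,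
  3),(3,7),(2,2),(3,4),(9,5)]⟩ ⟨3,[(32,2),(0,0),(8,3)]⟩)) (.R ⟨1,false,false,false,[1,-1,-1],[0,0,0,
  1],[1],(⟨0,[(30,0)]⟩,⟨0,[(45,0),(2,0)]⟩),(⟨0,[(36,0)]⟩,⟨0,[(35,0)]⟩),⟨0,[(25,0)]⟩,.k,.k,(.r (-1)
  ⟨4,[(5,1),(12,1),(0,1),(13,0),(9,2)]⟩ ⟨3,[(10,1),(4,1),(4,1),(12,0),(0,0)]⟩),(.r (-1) ⟨4,[(5,0),
  (12,0),(0,0),(13,2),(9,3)]⟩ ⟨37,[(3,3),(0,15),(5,4),(4,18),(4,0),(13,8),(1,3)]⟩),(.x 0 ⟨59,[(17,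
  15),(3,11),(3,39),(2,19),(4,0),(0,0),(11,9)]⟩ ⟨4,[(11,0),(15,2),(5,1),(0,1),(13,4)]⟩),.k,⟨false,1,
  ⟨1,[(33,0),(18,0)]⟩,⟨4,[(3,0),(0,1),(0,1),(4,0),(25,0)]⟩⟩,⟨true,0,⟨0,[(29,0),(5,0),(3,0)]⟩,⟨5,
  [(10,0),(17,2),(7,5),(9,0)]⟩⟩,⟨false,0,⟨0,[(24,0)]⟩,⟨5,[(5,1),(12,1),(14,1),(0,0),(8,3),(9,0)]⟩⟩,
  ⟨false,0,⟨0,[(9,0),(6,0)]⟩,⟨0,[(0,0)]⟩⟩,⟨true,0,⟨5,[(10,0),(4,2),(4,2),(25,0)]⟩,⟨0,[(18,0)]⟩⟩,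
  ⟨false,0,⟨3,[(3,0),(2,0),(2,2),(6,3),(29,0)]⟩,⟨0,[(1,0)]⟩⟩,[.a ⟨true,(-1),⟨0,[(3,0)]⟩,⟨0,[(1,0),
  (14,0)]⟩⟩ ⟨true,0,⟨0,[]⟩,⟨9,[(10,1),(21,1),(0,0),(0,0),(7,3)]⟩⟩ ⟨false,0,⟨15,[(3,15),(14,1),(0,3),
  (6,11),(2,9),(2,1),(13,0),(5,10)]⟩,⟨11,[(0,11),(9,1),(4,5),(4,1),(12,0),(0,0)]⟩⟩,.o ⟨false,0,⟨3,
  [(3,0),(2,0),(2,2),(36,0)]⟩,⟨0,[(2,0)]⟩⟩,.o ⟨false,0,⟨0,[(38,0)]⟩,⟨7,[(32,3),(0,0),(0,0),(11,1),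
  (5,3)]⟩⟩,.o ⟨false,0,⟨3,[(10,1),(17,1),(4,0),(0,0)]⟩,⟨15,[(18,1),(0,3),(6,11),(2,9),(2,1),(13,0),
  (5,10)]⟩⟩]⟩) (.R ⟨1,true,false,false,[1,-1,-1],[0,0,0,1],[1],(⟨0,[(30,0)]⟩,⟨0,[(45,0),(2,0)]⟩),
  (⟨0,[(36,0)]⟩,⟨0,[(35,0)]⟩),⟨0,[(25,0)]⟩,.k,.k,(.r (-1) ⟨4,[(5,1),(12,1),(0,1),(13,0),(9,2)]⟩ ⟨3,
  [(10,1),(4,1),(4,1),(12,0),(0,0)]⟩),(.r (-1) ⟨4,[(5,0),(12,0),(0,0),(13,2),(9,3)]⟩ ⟨25,[(0,3),(3,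
  7),(5,2),(4,10),(4,0),(7,1),(5,6),(1,3)]⟩),(.x 0 ⟨59,[(17,15),(3,11),(3,39),(2,19),(4,0),(0,0),
  (11,9)]⟩ ⟨4,[(11,0),(15,2),(5,1),(0,1),(13,4)]⟩),.k,⟨false,1,⟨1,[(33,0),(18,0)]⟩,⟨4,[(3,0),(0,1),
  (0,1),(4,0),(25,0)]⟩⟩,⟨true,0,⟨7,[(0,3),(17,1),(10,1),(2,1),(0,1),(1,3),(10,0),(5,0)]⟩,⟨5,[(10,0),
  (17,2),(7,5),(9,0)]⟩⟩,⟨false,0,⟨0,[(24,0)]⟩,⟨5,[(5,1),(12,1),(14,1),(0,0),(8,3),(9,0)]⟩⟩,⟨true,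
  (-1),⟨0,[(0,0)]⟩,⟨1,[(1,0),(0,0),(37,0)]⟩⟩,⟨true,0,⟨5,[(10,0),(4,2),(4,2),(25,0)]⟩,⟨0,[(18,0)]⟩⟩,
  ⟨false,0,⟨5,[(0,5),(19,1),(12,0),(0,0),(11,0),(6,2)]⟩,⟨0,[(1,0)]⟩⟩,[]⟩)) (.R ⟨1,false,false,false,
  [1,-1,-1],[0,0,0,1],[1],(⟨0,[(29,0)]⟩,⟨0,[(44,0),(2,0)]⟩),(⟨0,[(35,0)]⟩,⟨0,[(34,0)]⟩),⟨0,[(24,
  0)]⟩,.k,.k,(.r (-1) ⟨4,[(4,1),(12,1),(0,1),(13,0),(9,2)]⟩ ⟨3,[(9,1),(4,1),(4,1),(12,0),(0,0)]⟩),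
  (.r (-1) ⟨4,[(4,0),(12,0),(0,0),(13,2),(9,3)]⟩ ⟨9,[(0,1),(2,1),(5,0),(4,3),(12,0),(5,2),(1,1)]⟩),
  (.x 0 ⟨59,[(16,15),(3,11),(3,39),(2,19),(4,0),(0,0),(11,9)]⟩ ⟨4,[(10,0),(15,2),(5,1),(0,1),(13,
  4)]⟩),.k,⟨false,1,⟨1,[(32,0),(18,0)]⟩,⟨4,[(2,0),(0,1),(0,1),(4,0),(25,0)]⟩⟩,⟨true,0,⟨53,[(0,25),
  (7,3),(8,17),(0,5),(9,7),(2,13),(0,14),(1,23),(10,4)]⟩,⟨5,[(9,0),(17,2),(7,5),(9,0)]⟩⟩,⟨false,0,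
  ⟨0,[(23,0)]⟩,⟨5,[(4,1),(12,1),(14,1),(0,0),(8,3),(9,0)]⟩⟩,⟨true,(-1),⟨0,[(0,0),(49,0)]⟩,⟨103,[(1,
  59),(11,23),(3,39),(0,11),(8,19),(4,26),(0,4),(1,43),(3,15)]⟩⟩,⟨true,0,⟨5,[(9,0),(4,2),(4,2),(25,
  0)]⟩,⟨0,[(17,0)]⟩⟩,⟨true,(-1),⟨0,[(0,0)]⟩,⟨3,[(1,1),(15,3),(9,1),(4,0),(2,1),(16,0)]⟩⟩,[.a ⟨true,
  (-1),⟨0,[(2,0)]⟩,⟨1,[(32,0),(2,1),(15,0)]⟩⟩ ⟨true,0,⟨0,[]⟩,⟨9,[(9,1),(21,1),(0,0),(0,0),(7,3)]⟩⟩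
  ⟨false,0,⟨13,[(0,9),(3,3),(12,5),(0,1),(9,3),(2,1),(2,3),(10,0),(5,2)]⟩,⟨3,[(1,1),(25,1),(4,0),(2,
  1),(16,0)]⟩⟩,.o ⟨false,0,⟨16,[(0,1),(4,1),(2,14),(2,0),(7,0),(25,1)]⟩,⟨0,[(1,0)]⟩⟩,.o ⟨false,0,⟨0,
  [(37,0)]⟩,⟨7,[(31,3),(0,0),(0,0),(11,1),(5,3)]⟩⟩,.o ⟨false,0,⟨3,[(9,1),(17,1),(4,0),(0,0)]⟩,⟨15,
  [(17,1),(0,3),(6,11),(2,9),(2,1),(13,0),(5,10)]⟩⟩]⟩)) (.K ⟨1,[0,0,0,1],0,(-1),(⟨0,[(34,0)]⟩,⟨0,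
  [(33,0)]⟩),.k,(.r 0 ⟨0,[(0,0),(16,0),(6,0),(9,0),(0,0)]⟩ ⟨11,[(8,3),(9,3),(12,10),(0,4)]⟩),(.x 0
  ⟨0,[(46,0)]⟩ ⟨15,[(19,3),(3,3),(2,1),(4,6),(0,6),(11,0),(5,4)]⟩),.k,.k,[⟨0,[(34,0)]⟩,⟨11,[(8,7),
  (22,2),(0,2),(0,11),(10,1)]⟩,⟨7,[(3,1),(12,1),(7,1),(4,1),(1,4),(2,7),(13,1),(1,0)]⟩,⟨0,[(0,
  0)]⟩]⟩))) (.Q [0,0,2,0,-1,0,1,0,0,1,-1,-1] (.p false [0,0,1] [1,0,0,-1] (⟨0,[(41,0)]⟩,⟨0,[(40,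
  0)]⟩) .k 2 (⟨0,[(31,0)]⟩,⟨0,[(32,0)]⟩) .k (.r (-1) ⟨17,[(1,1),(9,9),(2,1),(0,1),(13,2),(0,10)]⟩
  ⟨1,[(0,1),(7,0),(19,0)]⟩)) (.R ⟨1,false,false,true,[1,0,0,-1],[0,1],[0,1,0,-1,0,0,0,0,-1],(⟨0,
  [(32,0)]⟩,⟨0,[(33,0)]⟩),(⟨0,[(45,0)]⟩,⟨0,[(44,0)]⟩),⟨11,[(0,6),(2,3),(5,6),(2,9),(2,9),(0,9),(1,
  2),(3,2),(0,3),(8,4)]⟩,.k,.k,(.x (-1) ⟨15,[(18,3),(3,3),(2,1),(4,6),(0,6),(11,0),(5,4)]⟩ ⟨0,[(45,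
  0)]⟩),(.x (-1) ⟨15,[(18,3),(3,3),(2,1),(4,6),(0,6),(11,0),(5,4)]⟩ ⟨0,[(45,0)]⟩),(.r (-1) ⟨11,[(1,
  9),(10,1),(2,3),(0,3),(13,0),(18,6)]⟩ ⟨11,[(7,7),(9,7),(12,0),(0,6)]⟩),.k,⟨false,1,⟨11,[(1,9),(10,
  1),(2,3),(0,3),(13,0),(18,6)]⟩,⟨24,[(2,10),(0,7),(3,3),(1,3),(2,6),(7,13),(2,7),(7,6)]⟩⟩,⟨true,0,
  ⟨0,[(32,0)]⟩,⟨2,[(7,0),(25,2),(9,0)]⟩⟩,⟨false,0,⟨0,[(48,0)]⟩,⟨5,[(17,1),(12,0),(0,0),(11,0),(6,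
  2)]⟩⟩,⟨false,0,⟨2,[(0,0),(5,0),(10,0),(10,0),(2,0),(0,0)]⟩,⟨5,[(1,5),(5,0),(1,2),(6,5),(6,5),(9,
  5),(9,0),(2,2)]⟩⟩,⟨true,0,⟨0,[(52,0)]⟩,⟨0,[]⟩⟩,⟨false,0,⟨20,[(0,4),(5,10),(10,13),(1,2),(3,2),(4,
  4),(2,4),(0,4)]⟩,⟨3,[(1,3),(5,0),(1,0),(6,3),(6,1),(9,3),(9,0),(2,0)]⟩⟩,[.o ⟨false,0,⟨0,[(47,0)]⟩,
  ⟨23,[(7,7),(8,11),(13,2),(0,2),(11,7),(6,5)]⟩⟩,.a ⟨true,0,⟨2,[(17,0),(14,1),(0,1)]⟩,⟨0,[(48,0)]⟩⟩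
  ⟨true,0,⟨0,[(1,0)]⟩,⟨24,[(2,8),(0,1),(3,0),(1,0),(2,7),(7,15),(2,1),(7,7)]⟩⟩ ⟨false,0,⟨2,[(0,0),
  (2,0),(5,0),(2,0),(2,0),(0,0),(6,0),(8,1)]⟩,⟨27,[(2,3),(12,3),(0,7),(8,1),(4,1),(2,27),(2,3),(6,
  12),(5,0)]⟩⟩,.o ⟨false,1,⟨1,[(33,1),(9,0),(5,0)]⟩,⟨4,[(0,1),(24,0),(6,2),(10,1)]⟩⟩,.e ⟨false,1,
  ⟨15,[(2,1),(9,1),(2,3),(0,3),(13,8),(18,0)]⟩,⟨2,[(2,1),(0,1),(2,0),(0,1),(25,0)]⟩⟩ ⟨false,0,⟨2,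
  [(0,0),(2,0),(5,0),(2,0),(2,0),(0,0),(6,0),(8,1)]⟩,⟨23,[(7,7),(8,11),(13,2),(0,2),(1,23),(9,7),(6,
  5)]⟩⟩]⟩) (.R ⟨1,false,false,false,[0,0,0,1],[0,0,1],[1,1,0,0,0,0,0,0,1],(⟨0,[(33,0)]⟩,⟨0,[(32,
  0)]⟩),(⟨0,[(42,0)]⟩,⟨0,[(41,0)]⟩),⟨3,[(0,0),(17,0),(3,0),(10,2)]⟩,.k,.k,(.r (-1) ⟨35,[(2,7),(9,3),
  (2,7),(0,7),(13,2),(0,16)]⟩ ⟨20,[(1,6),(1,1),(3,6),(1,0),(7,5),(5,1),(6,6)]⟩),.k,(.r (-1) ⟨11,[(2,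
  3),(12,3),(14,0),(0,4),(8,7),(9,1)]⟩ ⟨41,[(1,27),(1,7),(3,6),(1,3),(2,20),(4,2),(5,7),(6,6)]⟩),.k,
  ⟨true,0,⟨4,[(2,2),(12,1),(4,3),(2,0),(4,0),(2,0),(15,0)]⟩,⟨0,[(1,0),(19,0)]⟩⟩,⟨false,1,⟨0,[(0,0),
  (28,0)]⟩,⟨5,[(7,0),(17,2),(6,5),(10,0)]⟩⟩,⟨false,0,⟨0,[]⟩,⟨3,[(30,0),(0,0),(18,1)]⟩⟩,⟨false,1,⟨20,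
  [(0,19),(0,18),(10,5),(0,3),(9,4),(5,15),(0,0),(2,0),(12,12)]⟩,⟨6,[(6,4),(2,0),(9,0),(0,0),(7,0),
  (2,0),(0,1),(4,2)]⟩⟩,⟨true,0,⟨0,[(47,0)]⟩,⟨0,[(48,0)]⟩⟩,⟨false,1,⟨17,[(0,15),(0,13),(1,2),(9,4),
  (9,12),(5,7),(0,1),(2,1),(12,13)]⟩,⟨0,[(6,0),(30,0)]⟩⟩,[.a ⟨true,0,⟨6,[(12,3),(2,0),(0,0),(1,0),
  (5,2),(2,0),(13,5)]⟩,⟨5,[(5,1),(5,1),(3,0),(21,0),(1,0)]⟩⟩ ⟨true,0,⟨1,[(0,0),(1,0),(0,0),(2,0),(5,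
  1),(2,2),(4,1),(2,0)]⟩,⟨4,[(1,2),(1,0),(3,0),(22,0),(15,1)]⟩⟩ ⟨false,1,⟨3,[(0,0),(12,0),(2,2),(6,
  3),(2,0),(6,2)]⟩,⟨17,[(6,5),(0,3),(2,5),(19,2),(1,11),(4,5),(5,0)]⟩⟩,.o ⟨false,1,⟨15,[(12,7),(3,
  3),(12,7),(0,0),(0,0),(11,3),(6,5)]⟩,⟨0,[(34,0)]⟩⟩,.o ⟨false,0,⟨2,[(7,0),(24,2),(10,0)]⟩,⟨15,[(0,
  7),(28,3),(0,0),(0,0),(1,7),(9,5)]⟩⟩,.o ⟨false,0,⟨11,[(7,7),(22,2),(0,2),(0,11),(10,1)]⟩,⟨0,[(0,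
  0),(25,0),(9,0)]⟩⟩]⟩))) (.R ⟨1,false,false,true,[1,0,0,-1],[0,1],[0,0,0,-1,0,0,0,0,-1],(⟨0,[(30,
  0)]⟩,⟨0,[(31,0)]⟩),(⟨0,[(43,0)]⟩,⟨0,[(42,0)]⟩),⟨19,[(0,6),(0,8),(2,6),(2,6),(2,11),(2,18),(0,11),
  (1,4),(3,4),(0,8),(8,12)]⟩,.k,.k,(.x (-1) ⟨15,[(16,3),(3,3),(2,1),(4,6),(0,6),(11,0),(5,4)]⟩ ⟨0,
  [(43,0)]⟩),(.x (-1) ⟨15,[(16,3),(3,3),(2,1),(4,6),(0,6),(11,0),(5,4)]⟩ ⟨0,[(43,0)]⟩),(.r (-1) ⟨15,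
  [(0,9),(9,5),(2,11),(0,11),(13,2),(18,10)]⟩ ⟨11,[(5,7),(9,7),(12,0),(0,6)]⟩),.k,⟨false,1,⟨15,[(0,
  13),(9,1),(2,3),(0,19),(13,0),(18,8)]⟩,⟨22,[(1,1),(2,0),(2,1),(10,10),(2,14),(4,10),(2,10),(1,
  0)]⟩⟩,⟨true,0,⟨0,[(30,0)]⟩,⟨2,[(5,0),(25,2),(9,0)]⟩⟩,⟨true,0,⟨0,[(46,0)]⟩,⟨0,[(45,0)]⟩⟩,⟨false,0,
  ⟨2,[(4,0),(6,0),(6,0),(7,0),(2,0),(0,1)]⟩,⟨1,[(0,1),(13,1),(16,1),(9,0),(5,0)]⟩⟩,⟨false,1,⟨3,[(28,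
  0),(0,0),(18,1)]⟩,⟨0,[]⟩⟩,⟨false,0,⟨4,[(4,2),(10,2),(2,0),(2,0),(4,0),(2,0),(0,1),(14,0)]⟩,⟨37,
  [(0,31),(12,3),(0,49),(8,1),(4,2),(2,37),(0,1),(1,5),(6,16)]⟩⟩,[.o ⟨false,0,⟨0,[(45,0)]⟩,⟨23,[(5,
  7),(8,11),(13,2),(0,2),(11,7),(6,5)]⟩⟩,.a ⟨true,0,⟨2,[(15,0),(14,1),(0,1)]⟩,⟨0,[(46,0)]⟩⟩ ⟨true,0,
  ⟨0,[(0,0),(13,0)]⟩,⟨1,[(18,0),(7,0),(2,0),(4,0)]⟩⟩ ⟨false,0,⟨4,[(0,0),(0,1),(2,0),(2,0),(2,0),(2,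
  1),(0,0),(6,1),(8,3)]⟩,⟨27,[(10,3),(2,7),(0,7),(13,0),(0,0),(1,27),(9,13),(5,3)]⟩⟩,.o ⟨false,1,⟨1,
  [(31,1),(9,0),(5,0)]⟩,⟨2,[(5,0),(24,2),(10,0)]⟩⟩,.e ⟨false,1,⟨21,[(0,3),(0,1),(12,15),(13,8),(12,
  0),(2,1)]⟩,⟨22,[(1,2),(2,12),(2,2),(10,4),(2,10),(4,4),(2,4),(1,12)]⟩⟩ ⟨false,0,⟨4,[(0,0),(0,1),
  (2,0),(2,0),(2,0),(2,1),(0,0),(6,1),(8,3)]⟩,⟨23,[(5,7),(8,11),(13,2),(0,2),(1,23),(9,7),(6,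
  5)]⟩⟩]⟩)))) (.I [0,0,0,0,0,0,0,0,1] (.I [0,0,-1,-1,0,0,0,0,1] (.Q [0,0,-1,0,1,0,0,0,-1,-1,0,1]
  (.p true [0,0,0,1] [1] (⟨0,[(30,0)]⟩,⟨0,[(29,0)]⟩) .k 1 (⟨0,[]⟩,⟨0,[]⟩) .k .k) (.Q [0,0,0,0,0,0,
  -1,-1,0,0,1,-1] (.p true [0,0,1] [0,0,0,1] (⟨0,[(40,0)]⟩,⟨0,[(39,0)]⟩) .k 2 (⟨0,[(31,0)]⟩,⟨0,[(30,
  0)]⟩) .k (.r (-1) ⟨13,[(10,7),(2,1),(0,1),(13,8),(0,1),(17,0)]⟩ ⟨3,[(1,1),(6,0),(9,0),(8,0),(1,0),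
  (8,0)]⟩)) (.R ⟨1,false,false,false,[1,0,0,-1],[1,0,-1],[1,1,0,0,0,0,0,0,-1],(⟨0,[(31,0)]⟩,⟨0,[(32,
  0)]⟩),(⟨0,[(40,0)]⟩,⟨0,[(41,0)]⟩),⟨12,[(0,6),(10,3),(2,0),(0,0),(1,0),(3,6),(1,2),(7,5)]⟩,.k,.k,
  (.x (-1) ⟨15,[(17,3),(3,3),(2,1),(4,6),(0,6),(11,0),(5,4)]⟩ ⟨0,[(44,0)]⟩),.k,(.x 0 ⟨19,[(17,11),
  (5,3),(5,0),(0,0),(17,9)]⟩ ⟨19,[(6,4),(0,10),(5,1),(15,6),(0,6),(7,4),(1,4)]⟩),.k,⟨false,1,⟨20,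
  [(0,4),(0,4),(5,2),(3,13),(2,9),(0,4),(5,4),(0,7),(0,3),(3,7),(1,7)]⟩,⟨15,[(2,9),(13,1),(2,3),(5,
  11),(4,2),(11,0),(2,1)]⟩⟩,⟨true,0,⟨5,[(6,0),(17,2),(6,5),(10,0)]⟩,⟨0,[(25,0),(6,0),(2,0)]⟩⟩,
  ⟨false,0,⟨0,[]⟩,⟨3,[(29,0),(0,0),(18,1)]⟩⟩,⟨false,0,⟨50,[(2,3),(2,40),(4,23),(5,13),(2,2),(10,2),
  (0,9),(6,2),(6,4)]⟩,⟨6,[(1,6),(9,3),(2,0),(0,0),(1,0),(5,2),(2,0),(13,5)]⟩⟩,⟨true,0,⟨0,[(46,0)]⟩,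
  ⟨0,[(47,0)]⟩⟩,⟨false,0,⟨1,[(5,1),(3,0),(6,0)]⟩,⟨4,[(1,4),(9,2),(2,0),(0,0),(1,0),(5,1),(16,4),(6,
  3)]⟩⟩,[.e ⟨false,1,⟨1,[(29,0),(18,0),(2,1)]⟩,⟨11,[(2,8),(0,2),(2,0),(9,2),(25,0),(2,5)]⟩⟩ ⟨false,
  0,⟨0,[(0,0)]⟩,⟨14,[(1,6),(0,0),(8,2),(0,3),(2,4),(12,2),(1,2),(1,7),(2,4)]⟩⟩,.o ⟨false,1,⟨7,[(10,
  3),(18,0),(0,0),(11,1),(6,3)]⟩,⟨0,[(35,0)]⟩⟩,.o ⟨false,1,⟨7,[(1,4),(0,2),(13,0),(13,0),(1,2),(9,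
  1)]⟩,⟨2,[(6,0),(24,2),(10,0)]⟩⟩,.a ⟨true,0,⟨0,[(32,0)]⟩,⟨0,[(31,0)]⟩⟩ ⟨false,1,⟨1,[(29,0),(18,
  0)]⟩,⟨6,[(2,1),(2,0),(5,0),(7,1),(10,1),(1,0),(12,2)]⟩⟩ ⟨true,0,⟨0,[(0,0)]⟩,⟨0,[(32,0),(2,
  0)]⟩⟩]⟩) (.R ⟨1,false,false,true,[0,0,0,1],[0,1],[1,0,0,0,0,0,0,0,1],(⟨0,[(32,0)]⟩,⟨0,[(31,0)]⟩),
  (⟨0,[(44,0)]⟩,⟨0,[(43,0)]⟩),⟨3,[(0,1),(8,0),(5,0),(1,0),(3,0),(5,0),(4,1)]⟩,.k,.k,(.r 0 ⟨0,[(2,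
  0)]⟩ ⟨11,[(6,3),(9,3),(12,10),(0,4)]⟩),(.r 0 ⟨0,[(2,0)]⟩ ⟨11,[(6,3),(9,3),(12,10),(0,4)]⟩),(.r
  (-1) ⟨12,[(2,4),(8,2),(2,5),(0,5),(14,3),(17,2)]⟩ ⟨11,[(6,7),(9,7),(12,6),(0,0)]⟩),.k,⟨false,1,⟨1,
  [(2,1),(45,0),(0,0)]⟩,⟨1,[(19,0),(7,0),(1,0),(5,0)]⟩⟩,⟨true,1,⟨0,[(32,0),(15,0)]⟩,⟨0,[(6,0),(24,
  0)]⟩⟩,⟨true,0,⟨0,[]⟩,⟨0,[(51,0)]⟩⟩,⟨false,1,⟨2,[(1,0),(14,0),(12,0),(2,1),(15,0)]⟩,⟨0,[(5,0)]⟩⟩,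
  ⟨false,1,⟨5,[(16,1),(12,0),(0,0),(11,0),(6,2)]⟩,⟨0,[(47,0)]⟩⟩,⟨false,1,⟨5,[(1,3),(14,3),(12,0),(2,
  1),(15,0)]⟩,⟨0,[(5,0),(41,0)]⟩⟩,[.o ⟨false,0,⟨0,[(46,0)]⟩,⟨23,[(6,7),(8,11),(13,2),(0,2),(11,7),
  (6,5)]⟩⟩,.a ⟨true,0,⟨2,[(16,0),(14,1),(0,1)]⟩,⟨0,[(47,0)]⟩⟩ ⟨true,0,⟨11,[(2,8),(0,2),(2,0),(9,2),
  (25,0),(2,5)]⟩,⟨1,[(11,0),(2,0),(4,0),(9,0),(21,0)]⟩⟩ ⟨false,1,⟨1,[(1,0),(0,0),(13,0),(15,0),(15,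
  0)]⟩,⟨19,[(4,6),(0,7),(0,4),(4,0),(2,1),(0,0),(13,3),(1,11)]⟩⟩,.o ⟨false,0,⟨2,[(6,0),(24,2),(10,
  0)]⟩,⟨13,[(0,3),(0,9),(0,3),(5,1),(21,2),(11,0)]⟩⟩,.o ⟨false,0,⟨11,[(6,7),(22,2),(0,2),(0,11),(10,
  1)]⟩,⟨1,[(0,0),(0,0),(0,0),(5,0),(6,0),(6,0)]⟩⟩]⟩)) (.Q [0,0,2,0,-1,0,0,0,0,1,0,-1] (.p false [0,
  0,0,1] [1] (⟨0,[(31,0)]⟩,⟨0,[(30,0)]⟩) .k 1 (⟨0,[]⟩,⟨0,[]⟩) .k .k) (.K ⟨0,[1,0,0,-1],1,1,(⟨0,[(31,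
  0)]⟩,⟨0,[(32,0)]⟩),.k,(.x (-1) ⟨15,[(17,3),(3,3),(2,1),(4,6),(0,6),(11,0),(5,4)]⟩ ⟨0,[(44,0)]⟩),
  (.r (-1) ⟨11,[(6,3),(9,3),(12,10),(0,4)]⟩ ⟨0,[(2,0)]⟩),.k,.k,[⟨0,[(0,0)]⟩,⟨0,[(32,0),(15,0)]⟩,⟨0,
  [(1,0),(49,0)]⟩,⟨5,[(4,3),(3,1),(6,1),(6,3),(6,2),(2,5),(15,0)]⟩]⟩) (.R ⟨1,false,false,false,[1,
  -1,-1],[0,0,0,1],[1],(⟨0,[(26,0)]⟩,⟨0,[(41,0),(2,0)]⟩),(⟨0,[(32,0)]⟩,⟨0,[(31,0)]⟩),⟨0,[(21,0)]⟩,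
  .k,.k,(.r (-1) ⟨1,[(14,1),(33,0),(0,0)]⟩ ⟨3,[(6,1),(4,1),(4,1),(12,0),(0,0)]⟩),(.r (-1) ⟨3,[(14,
  1),(14,1),(9,1),(8,0),(0,0)]⟩ ⟨5,[(3,3),(2,0),(4,2),(4,0),(13,0)]⟩),(.r (-2) ⟨3,[(14,3),(14,2),(0,
  0),(17,1),(0,1)]⟩ ⟨0,[(0,0),(0,0),(9,0),(7,0)]⟩),.k,⟨false,1,⟨1,[(29,0),(18,0)]⟩,⟨0,[(3,0)]⟩⟩,
  ⟨true,0,⟨4,[(1,1),(2,0),(10,0),(6,2),(2,2),(2,0),(0,0),(1,2)]⟩,⟨5,[(6,0),(17,2),(7,5),(9,0)]⟩⟩,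
  ⟨false,0,⟨0,[(20,0)]⟩,⟨3,[(14,1),(14,0),(0,0),(8,1),(8,0),(0,0)]⟩⟩,⟨false,0,⟨0,[(5,0),(6,0)]⟩,⟨7,
  [(0,2),(5,0),(3,2),(3,1),(0,1),(8,0),(4,3),(2,4)]⟩⟩,⟨true,0,⟨5,[(6,0),(4,2),(4,2),(25,0)]⟩,⟨0,
  [(14,0)]⟩⟩,⟨false,0,⟨15,[(1,3),(3,11),(2,1),(3,19),(29,2),(2,1),(2,0)]⟩,⟨3,[(0,0),(5,0),(3,0),(3,
  1),(0,1),(8,0),(4,1),(2,2)]⟩⟩,[.a ⟨true,(-1),⟨0,[(1,0)]⟩,⟨1,[(29,0),(2,1),(15,0)]⟩⟩ ⟨true,0,⟨0,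
  []⟩,⟨9,[(6,1),(21,1),(0,0),(0,0),(7,3)]⟩⟩ ⟨false,0,⟨4,[(1,4),(2,0),(10,0),(6,2),(2,2),(2,0),(19,
  3)]⟩,⟨15,[(0,3),(23,7),(4,8),(0,0),(1,11),(9,1)]⟩⟩,.o ⟨false,0,⟨15,[(1,3),(3,11),(2,1),(3,3),(29,
  2),(2,1),(2,0)]⟩,⟨1,[(0,0),(3,0),(24,0),(2,0),(13,0)]⟩⟩,.o ⟨false,0,⟨0,[(34,0)]⟩,⟨7,[(28,3),(0,0),
  (0,0),(11,1),(5,3)]⟩⟩,.o ⟨false,0,⟨3,[(6,1),(17,1),(4,0),(0,0)]⟩,⟨4,[(4,0),(10,0),(6,2),(2,2),(2,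
  0),(19,3)]⟩⟩]⟩))) (.Q [0,0,-2,0,1,0,-1,0,0,-1,1,1] (.p true [0,0,1] [1,0,0,-1] (⟨0,[(39,0)]⟩,⟨0,
  [(38,0)]⟩) .k 2 (⟨0,[(29,0)]⟩,⟨0,[(30,0)]⟩) .k (.x 0 ⟨14,[(4,4),(10,0),(5,1),(4,4),(0,2),(0,2),
  (10,9)]⟩ ⟨19,[(5,3),(5,7),(15,2),(0,2),(17,9)]⟩)) (.I [0,0,-2,-2,1,0,0,1,1] (.R ⟨1,false,false,
  true,[0,0,0,1],[1,1,-1],[0,1,0,-1,0,0,0,0,1],(⟨0,[(32,0)]⟩,⟨0,[(31,0)]⟩),(⟨0,[(40,0),(3,0)]⟩,⟨1,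
  [(1,0),(15,0),(13,0),(9,0)]⟩),⟨3,[(1,0),(15,0),(3,0),(10,2)]⟩,.k,.k,(.x 0 ⟨2,[(6,0),(10,0),(8,0),
  (2,0),(0,0),(7,0)]⟩ ⟨19,[(7,7),(15,3),(5,0),(0,0),(17,9)]⟩),(.r (-1) ⟨9,[(0,5),(10,1),(17,0),(0,
  2)]⟩ ⟨3,[(8,0),(10,1),(8,0),(0,1)]⟩),(.r (-1) ⟨0,[(0,0)]⟩ ⟨5,[(16,1),(2,5),(9,3),(0,0),(11,0)]⟩),
  .k,⟨false,1,⟨0,[(0,0)]⟩,⟨1,[(2,1),(5,0),(19,0)]⟩⟩,⟨true,1,⟨0,[(1,0)]⟩,⟨1,[(6,1),(21,0),(2,2),(0,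
  0)]⟩⟩,⟨false,0,⟨0,[(47,0)]⟩,⟨5,[(16,1),(12,0),(0,0),(11,0),(6,2)]⟩⟩,⟨false,1,⟨3,[(1,3),(6,0),(10,
  1),(8,0),(0,1)]⟩,⟨15,[(0,0),(4,14),(5,6),(3,1),(1,2),(5,5),(7,0),(3,0),(4,14),(6,1)]⟩⟩,⟨true,0,⟨0,
  [(51,0)]⟩,⟨0,[]⟩⟩,⟨false,1,⟨1,[(1,1),(0,1),(5,0),(19,0)]⟩,⟨15,[(0,0),(4,14),(5,6),(3,1),(1,2),(5,
  5),(7,0),(3,0),(4,14),(6,17)]⟩⟩,[.o ⟨false,0,⟨0,[(18,0)]⟩,⟨13,[(0,1),(10,5),(3,7),(13,0),(7,13),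
  (11,2)]⟩⟩,.a ⟨true,0,⟨5,[(10,2),(5,1),(14,0),(0,0)]⟩,⟨4,[(11,2),(2,0),(0,0),(1,0),(5,1),(16,4),(6,
  3)]⟩⟩ ⟨true,0,⟨0,[(0,0),(18,0)]⟩,⟨0,[(2,0)]⟩⟩ ⟨false,1,⟨1,[(1,1),(6,0),(19,0)]⟩,⟨7,[(5,1),(0,0),
  (4,2),(16,2),(0,0),(1,5),(3,1),(11,8)]⟩⟩,.o ⟨false,0,⟨2,[(6,0),(24,2),(10,0)]⟩,⟨15,[(1,7),(26,3),
  (0,0),(0,0),(1,7),(9,5)]⟩⟩,.o ⟨false,0,⟨11,[(6,7),(22,2),(0,2),(0,11),(10,1)]⟩,⟨3,[(1,2),(2,0),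
  (10,0),(6,2),(2,2),(6,0)]⟩⟩]⟩) (.K ⟨0,[1,1,-1],1,0,(⟨0,[(40,0),(3,0)]⟩,⟨1,[(1,0),(15,0),(13,0),(9,
  0)]⟩),.k,.k,(.r 1 ⟨0,[(0,0),(2,0)]⟩ ⟨27,[(11,23),(2,19),(0,19),(13,12),(0,12),(17,9)]⟩),.k,.k,[⟨0,
  [(17,0),(22,0),(3,1)]⟩,⟨0,[(1,0),(29,0)]⟩,⟨1,[(11,1),(2,1),(13,0),(2,0),(0,0)]⟩,⟨0,[(18,0)]⟩]⟩))
  (.I [1,0,-1,0,1,0,0,1,-1] (.Q [0,0,0,0,0,0,-1,-1,0,0,1,-1] (.p true [0,0,1] [0,0,0,1] (⟨0,[(41,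
  0)]⟩,⟨0,[(40,0)]⟩) .k 2 (⟨0,[(32,0)]⟩,⟨0,[(31,0)]⟩) .k (.r (-1) ⟨31,[(0,3),(10,15),(2,3),(0,3),
  (13,18),(0,4)]⟩ ⟨15,[(3,11),(4,2),(5,3),(4,1),(5,3),(2,2),(1,1)]⟩)) (.R ⟨1,false,false,false,[1,0,
  0,-1],[1,0,-1],[1,0,0,0,0,0,0,0,-1],(⟨0,[(32,0)]⟩,⟨0,[(33,0)]⟩),(⟨0,[(41,0)]⟩,⟨0,[(42,0)]⟩),⟨12,
  [(0,6),(11,3),(2,0),(0,0),(1,0),(3,6),(1,2),(7,5)]⟩,.k,.k,(.x (-1) ⟨15,[(18,3),(3,3),(2,1),(4,6),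
  (0,6),(11,0),(5,4)]⟩ ⟨0,[(45,0)]⟩),.k,(.r (-1) ⟨0,[(1,0),(46,0)]⟩ ⟨3,[(9,0),(10,1),(8,0),(1,1)]⟩),
  .k,⟨false,1,⟨0,[(1,0)]⟩,⟨15,[(4,11),(4,2),(5,3),(4,1),(5,3),(2,2),(1,1)]⟩⟩,⟨true,0,⟨4,[(2,0),(22,
  2),(6,3),(10,0)]⟩,⟨0,[(26,0),(6,0),(2,0)]⟩⟩,⟨true,0,⟨0,[]⟩,⟨0,[(52,0)]⟩⟩,⟨false,0,⟨24,[(4,3),(1,
  18),(4,11),(5,5),(2,0),(10,0),(0,5),(6,0),(6,2)]⟩,⟨0,[(3,0),(12,0),(6,0),(9,0)]⟩⟩,⟨false,1,⟨5,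
  [(17,1),(12,0),(0,0),(11,0),(6,2)]⟩,⟨0,[(48,0)]⟩⟩,⟨false,0,⟨1,[(6,1),(3,0),(6,0)]⟩,⟨0,[(3,0),(12,
  0),(16,0),(2,0)]⟩⟩,[.e ⟨false,1,⟨1,[(30,0),(18,0)]⟩,⟨0,[(4,0)]⟩⟩ ⟨false,0,⟨0,[(0,0)]⟩,⟨15,[(1,3),
  (14,5),(6,11),(5,1),(1,1),(1,15),(9,0),(6,2)]⟩⟩,.o ⟨false,1,⟨7,[(11,3),(18,0),(0,0),(11,1),(6,
  3)]⟩,⟨0,[(36,0)]⟩⟩,.o ⟨false,1,⟨1,[(33,1),(9,0),(5,0)]⟩,⟨4,[(2,1),(22,0),(6,2),(10,1)]⟩⟩,.a ⟨true,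
  0,⟨0,[(33,0)]⟩,⟨0,[(32,0)]⟩⟩ ⟨false,1,⟨0,[(1,0),(24,0)]⟩,⟨5,[(2,0),(1,1),(2,0),(23,1),(1,0),(5,
  0)]⟩⟩ ⟨true,0,⟨0,[(0,0)]⟩,⟨0,[(33,0),(2,0)]⟩⟩]⟩) (.R ⟨1,false,false,false,[1,0,0,-1],[1,0,-1],[1,
  0,0,0,0,0,0,0,-1],(⟨0,[(32,0)]⟩,⟨0,[(33,0)]⟩),(⟨0,[(41,0)]⟩,⟨0,[(42,0)]⟩),⟨7,[(2,6),(5,0),(0,6),
  (2,9),(2,5),(0,5),(5,6),(1,3),(7,0)]⟩,.k,.k,(.x (-1) ⟨15,[(18,3),(3,3),(2,1),(4,6),(0,6),(11,0),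
  (5,4)]⟩ ⟨0,[(45,0)]⟩),.k,(.r (-1) ⟨0,[(1,0),(46,0)]⟩ ⟨3,[(9,0),(10,1),(8,0),(1,1)]⟩),.k,⟨false,1,
  ⟨0,[(1,0)]⟩,⟨15,[(4,11),(4,2),(5,3),(4,1),(5,3),(2,2),(1,1)]⟩⟩,⟨true,0,⟨4,[(2,0),(22,2),(6,3),(10,
  0)]⟩,⟨0,[(0,0),(39,0)]⟩⟩,⟨true,0,⟨0,[]⟩,⟨0,[(52,0)]⟩⟩,⟨false,0,⟨24,[(4,3),(1,18),(4,11),(5,5),(2,
  0),(10,0),(0,5),(6,0),(6,2)]⟩,⟨1,[(0,1),(29,0),(18,0)]⟩⟩,⟨false,1,⟨5,[(17,1),(12,0),(0,0),(11,0),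
  (6,2)]⟩,⟨0,[(48,0)]⟩⟩,⟨false,0,⟨1,[(6,1),(3,0),(6,0)]⟩,⟨15,[(0,15),(0,3),(13,3),(0,3),(13,6),(0,
  0)]⟩⟩,[.a ⟨true,0,⟨1,[(11,0),(20,0),(0,0)]⟩,⟨0,[(0,0),(31,0)]⟩⟩ ⟨false,1,⟨1,[(30,0),(18,0)]⟩,⟨0,
  [(4,0)]⟩⟩ ⟨true,0,⟨29,[(2,7),(3,9),(3,9),(14,3),(4,4),(1,11),(4,9),(5,2)]⟩,⟨0,[(0,0)]⟩⟩,.o ⟨false,
  1,⟨7,[(11,3),(18,0),(0,0),(11,1),(6,3)]⟩,⟨0,[(36,0)]⟩⟩,.o ⟨false,1,⟨1,[(33,1),(9,0),(5,0)]⟩,⟨4,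
  [(2,1),(22,0),(6,2),(10,1)]⟩⟩,.e ⟨false,1,⟨0,[(1,0),(24,0)]⟩,⟨5,[(2,0),(1,1),(2,0),(23,1),(1,0),
  (5,0)]⟩⟩ ⟨false,1,⟨31,[(6,7),(3,15),(5,3),(13,8),(0,4),(0,23),(10,3),(6,9)]⟩,⟨0,[(0,0)]⟩⟩]⟩)) (.Q
  [0,0,0,0,0,0,-1,-1,0,0,1,-1] (.p true [0,0,1] [0,0,0,1] (⟨0,[(41,0)]⟩,⟨0,[(40,0)]⟩) .k 2 (⟨0,[(32,
  0)]⟩,⟨0,[(31,0)]⟩) .k (.r (-1) ⟨13,[(11,7),(2,1),(0,1),(13,8),(0,1),(17,0)]⟩ ⟨6,[(0,2),(7,0),(5,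
  0),(10,0),(2,0),(1,1),(17,0)]⟩)) (.R ⟨1,false,false,false,[1,0,0,-1],[1,0,-1],[1,1,0,0,0,0,0,0,
  -1],(⟨0,[(32,0)]⟩,⟨0,[(33,0)]⟩),(⟨0,[(41,0)]⟩,⟨0,[(42,0)]⟩),⟨12,[(0,6),(11,3),(2,0),(0,0),(1,0),
  (3,6),(1,2),(7,5)]⟩,.k,.k,(.x (-1) ⟨15,[(18,3),(3,3),(2,1),(4,6),(0,6),(11,0),(5,4)]⟩ ⟨0,[(45,
  0)]⟩),.k,(.x 0 ⟨19,[(18,11),(5,3),(5,0),(0,0),(17,9)]⟩ ⟨19,[(7,4),(0,10),(5,1),(15,6),(0,6),(7,4),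
  (1,4)]⟩),.k,⟨false,1,⟨2,[(3,0),(8,0),(2,0),(0,1),(6,1),(4,1),(1,0)]⟩,⟨1,[(1,1),(47,0),(0,0)]⟩⟩,
  ⟨true,0,⟨4,[(2,0),(22,2),(6,3),(10,0)]⟩,⟨0,[(26,0),(6,0),(2,0)]⟩⟩,⟨false,0,⟨0,[]⟩,⟨3,[(30,0),(0,
  0),(18,1)]⟩⟩,⟨false,0,⟨25,[(1,3),(4,13),(3,10),(6,0),(7,1),(5,3),(0,11),(13,5)]⟩,⟨0,[(3,0),(12,0),
  (6,0),(9,0)]⟩⟩,⟨true,0,⟨0,[(47,0)]⟩,⟨0,[(48,0)]⟩⟩,⟨false,0,⟨1,[(6,1),(3,0),(6,0)]⟩,⟨0,[(3,0),(12,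
  0),(16,0),(2,0)]⟩⟩,[.e ⟨false,1,⟨1,[(30,0),(18,0),(2,1)]⟩,⟨2,[(1,1),(2,0),(11,0),(4,1),(27,0)]⟩⟩
  ⟨false,0,⟨0,[(0,0)]⟩,⟨7,[(16,3),(6,7),(6,0),(0,0),(1,7),(16,1)]⟩⟩,.o ⟨false,1,⟨7,[(11,3),(18,0),
  (0,0),(11,1),(6,3)]⟩,⟨0,[(36,0)]⟩⟩,.o ⟨false,1,⟨1,[(33,1),(9,0),(5,0)]⟩,⟨4,[(2,1),(22,0),(6,2),
  (10,1)]⟩⟩,.a ⟨true,0,⟨0,[(33,0)]⟩,⟨0,[(32,0)]⟩⟩ ⟨false,1,⟨1,[(30,0),(18,0)]⟩,⟨6,[(1,1),(4,0),(5,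
  0),(18,1),(1,0),(12,2)]⟩⟩ ⟨true,0,⟨0,[(0,0)]⟩,⟨0,[(33,0),(2,0)]⟩⟩]⟩) (.R ⟨1,false,false,false,[1,
  0,0,-1],[1,0,-1],[1,1,0,0,0,0,0,0,-1],(⟨0,[(32,0)]⟩,⟨0,[(33,0)]⟩),(⟨0,[(41,0)]⟩,⟨0,[(42,0)]⟩),⟨7,
  [(2,6),(5,0),(0,6),(2,9),(2,5),(0,5),(5,6),(1,3),(7,0)]⟩,.k,.k,(.x (-1) ⟨15,[(18,3),(3,3),(2,1),
  (4,6),(0,6),(11,0),(5,4)]⟩ ⟨0,[(45,0)]⟩),.k,(.x 0 ⟨19,[(18,11),(5,3),(5,0),(0,0),(17,9)]⟩ ⟨19,[(7,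
  4),(0,10),(5,1),(15,6),(0,6),(7,4),(1,4)]⟩),.k,⟨false,1,⟨2,[(3,0),(8,0),(2,0),(0,1),(6,1),(4,1),
  (1,0)]⟩,⟨1,[(1,1),(47,0),(0,0)]⟩⟩,⟨true,0,⟨4,[(2,0),(22,2),(6,3),(10,0)]⟩,⟨0,[(0,0),(39,0)]⟩⟩,
  ⟨false,0,⟨0,[]⟩,⟨3,[(30,0),(0,0),(18,1)]⟩⟩,⟨false,0,⟨25,[(1,3),(4,13),(3,10),(6,0),(7,1),(5,3),(0,
  11),(13,5)]⟩,⟨1,[(0,1),(29,0),(18,0)]⟩⟩,⟨true,0,⟨0,[(47,0)]⟩,⟨0,[(48,0)]⟩⟩,⟨false,0,⟨1,[(6,1),(3,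
  0),(6,0)]⟩,⟨27,[(0,27),(11,3),(2,7),(0,7),(13,14),(0,0),(17,3)]⟩⟩,[.a ⟨true,0,⟨1,[(11,0),(20,0),
  (0,0)]⟩,⟨0,[(0,0),(31,0)]⟩⟩ ⟨false,1,⟨1,[(30,0),(18,0),(2,1)]⟩,⟨2,[(1,1),(2,0),(11,0),(4,1),(27,
  0)]⟩⟩ ⟨true,0,⟨29,[(2,7),(3,9),(3,9),(14,3),(4,4),(1,11),(4,9),(5,2)]⟩,⟨0,[(0,0)]⟩⟩,.o ⟨false,1,
  ⟨7,[(11,3),(18,0),(0,0),(11,1),(6,3)]⟩,⟨0,[(36,0)]⟩⟩,.o ⟨false,1,⟨1,[(33,1),(9,0),(5,0)]⟩,⟨4,[(2,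
  1),(22,0),(6,2),(10,1)]⟩⟩,.e ⟨false,1,⟨1,[(30,0),(18,0)]⟩,⟨6,[(1,1),(4,0),(5,0),(18,1),(1,0),(12,
  2)]⟩⟩ ⟨false,1,⟨31,[(6,7),(3,15),(5,3),(13,8),(0,4),(0,23),(10,3),(6,9)]⟩,⟨0,[(0,0)]⟩⟩]⟩))))) (.Q
  [0,1,-1,0,0,0,0,0,-1,0,0,1] (.p true [0,0,0,1] [] (⟨0,[(29,0)]⟩,⟨0,[(28,0)]⟩) .k 0 (⟨0,[]⟩,⟨0,
  []⟩) .k .k) (.K ⟨0,[0,0,0,1],0,0,(⟨0,[(30,0)]⟩,⟨0,[(29,0)]⟩),.k,(.r (-1) ⟨27,[(9,3),(2,7),(0,7),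
  (13,0),(0,14),(17,3)]⟩ ⟨2,[(1,0),(2,0),(9,0),(12,0)]⟩),(.x 0 ⟨0,[(42,0)]⟩ ⟨15,[(15,3),(3,3),(2,1),
  (4,6),(0,6),(11,0),(5,4)]⟩),.k,.k,[⟨0,[(30,0)]⟩,⟨0,[(29,0)]⟩,⟨0,[(0,0)]⟩,⟨0,[(3,0),(40,0),(4,
  0)]⟩]⟩) (.Q [0,0,2,0,-1,0,1,0,0,1,-1,-1] (.p false [0,0,1] [1,0,0,-1] (⟨0,[(39,0)]⟩,⟨0,[(38,0)]⟩)
  .k 2 (⟨0,[(29,0)]⟩,⟨0,[(30,0)]⟩) .k (.r (-1) ⟨13,[(9,7),(2,1),(0,1),(13,1),(0,8),(17,0)]⟩ ⟨15,[(1,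
  11),(4,2),(5,3),(4,1),(5,3),(2,2),(0,1)]⟩)) (.R ⟨1,false,false,true,[1,0,0,-1],[0,1],[1,1,0,0,0,0,
  0,0,-1],(⟨0,[(30,0)]⟩,⟨0,[(31,0)]⟩),(⟨0,[(43,0)]⟩,⟨0,[(42,0)]⟩),⟨7,[(0,6),(5,0),(0,6),(2,9),(2,5),
  (0,5),(5,6),(1,3),(7,0)]⟩,.k,.k,(.x (-1) ⟨15,[(16,3),(3,3),(2,1),(4,6),(0,6),(11,0),(5,4)]⟩ ⟨0,
  [(43,0)]⟩),(.x (-1) ⟨15,[(16,3),(3,3),(2,1),(4,6),(0,6),(11,0),(5,4)]⟩ ⟨0,[(43,0)]⟩),(.r (-1) ⟨6,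
  [(2,4),(7,1),(2,3),(0,3),(13,0),(18,1)]⟩ ⟨11,[(5,7),(9,7),(12,0),(0,6)]⟩),.k,⟨false,1,⟨13,[(2,11),
  (7,1),(2,3),(0,3),(13,0),(18,8)]⟩,⟨21,[(1,11),(5,0),(7,0),(2,4),(2,6),(4,4),(2,4),(1,11)]⟩⟩,⟨true,
  0,⟨0,[(30,0)]⟩,⟨2,[(5,0),(25,2),(9,0)]⟩⟩,⟨false,0,⟨0,[]⟩,⟨3,[(28,0),(0,0),(18,1)]⟩⟩,⟨false,0,⟨2,
  [(0,0),(3,0),(10,0),(10,0),(2,0),(0,0)]⟩,⟨10,[(2,10),(0,2),(3,1),(6,7),(6,3),(9,10),(9,2),(2,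
  4)]⟩⟩,⟨true,0,⟨0,[(45,0)]⟩,⟨0,[(46,0)]⟩⟩,⟨false,0,⟨3,[(0,0),(0,1),(13,1),(10,0),(2,0),(0,0),(14,
  0)]⟩,⟨2,[(2,2),(2,0),(8,2),(16,2),(9,0)]⟩⟩,[.o ⟨false,0,⟨0,[(45,0)]⟩,⟨23,[(5,7),(8,11),(13,2),(0,
  2),(11,7),(6,5)]⟩⟩,.a ⟨true,0,⟨2,[(15,0),(14,1),(0,1)]⟩,⟨0,[(46,0)]⟩⟩ ⟨true,0,⟨0,[(2,0)]⟩,⟨2,[(1,
  0),(8,0),(2,0),(4,0),(10,0),(1,0)]⟩⟩ ⟨false,0,⟨7,[(0,4),(5,2),(0,4),(2,5),(2,1),(0,1),(5,4),(1,3),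
  (7,2)]⟩,⟨11,[(3,3),(10,3),(13,0),(0,0),(1,11),(9,3),(5,1)]⟩⟩,.o ⟨false,1,⟨1,[(31,1),(9,0),(5,0)]⟩,
  ⟨4,[(0,1),(22,0),(6,2),(10,1)]⟩⟩,.e ⟨false,1,⟨1,[(28,0),(18,0)]⟩,⟨0,[(1,0),(29,0)]⟩⟩ ⟨false,0,⟨7,
  [(0,4),(5,2),(0,4),(2,5),(2,1),(0,1),(5,4),(1,3),(7,2)]⟩,⟨23,[(5,7),(8,11),(13,2),(0,2),(1,23),(9,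
  7),(6,5)]⟩⟩]⟩) (.R ⟨1,false,false,false,[0,0,0,1],[0,1],[1,1,0,0,0,0,0,0,1],(⟨0,[(31,0)]⟩,⟨0,[(30,
  0)]⟩),(⟨0,[(43,0)]⟩,⟨0,[(42,0)]⟩),⟨3,[(0,0),(15,0),(3,0),(10,2)]⟩,.k,.k,(.r (-1) ⟨27,[(10,3),(2,
  7),(0,7),(13,0),(0,14),(17,3)]⟩ ⟨2,[(2,0),(2,0),(9,0),(12,0)]⟩),(.r (-1) ⟨27,[(10,3),(2,7),(0,7),
  (13,0),(0,14),(17,3)]⟩ ⟨2,[(2,0),(2,0),(9,0),(12,0)]⟩),(.r (-1) ⟨4,[(0,3),(3,4),(5,0),(0,3),(1,5),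
  (0,0),(16,0)]⟩ ⟨11,[(5,7),(9,7),(12,6),(0,0)]⟩),.k,⟨false,1,⟨3,[(0,2),(0,1),(8,0),(0,1),(1,4),(7,
  0),(7,0),(0,0)]⟩,⟨11,[(2,9),(2,1),(9,3),(12,0),(12,0),(2,5)]⟩⟩,⟨true,1,⟨49,[(0,39),(5,7),(15,3),
  (4,19),(0,0),(0,0),(1,9),(10,19)]⟩,⟨0,[(5,0),(24,0)]⟩⟩,⟨false,0,⟨0,[]⟩,⟨3,[(28,0),(0,0),(18,1)]⟩⟩,
  ⟨false,1,⟨19,[(0,10),(1,3),(8,10),(2,0),(9,10),(3,7),(2,8),(12,3)]⟩,⟨0,[(4,0),(45,0)]⟩⟩,⟨true,0,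
  ⟨0,[(45,0)]⟩,⟨0,[(46,0)]⟩⟩,⟨false,1,⟨14,[(0,12),(1,2),(8,12),(6,3),(5,8),(3,5),(2,1),(12,2)]⟩,⟨19,
  [(4,15),(0,3),(4,7),(2,15),(14,0),(0,2),(0,3)]⟩⟩,[.a ⟨true,0,⟨2,[(15,0),(14,1),(0,1)]⟩,⟨0,[(46,
  0)]⟩⟩ ⟨true,0,⟨0,[(0,0),(0,0),(8,0),(0,0),(1,1),(4,0)]⟩,⟨5,[(2,3),(2,0),(22,0),(1,0),(0,0),(12,
  2)]⟩⟩ ⟨false,1,⟨149,[(0,139),(5,7),(8,49),(6,3),(4,69),(0,0),(0,0),(1,9),(10,19)]⟩,⟨19,[(3,6),(0,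
  7),(0,4),(4,0),(2,1),(0,0),(13,3),(1,11)]⟩⟩,.o ⟨false,1,⟨5,[(15,1),(12,0),(0,0),(11,0),(6,2)]⟩,⟨0,
  [(3,0)]⟩⟩,.o ⟨false,0,⟨2,[(5,0),(24,2),(10,0)]⟩,⟨15,[(0,7),(26,3),(0,0),(0,0),(1,7),(9,5)]⟩⟩,.o
  ⟨false,0,⟨11,[(5,7),(22,2),(0,2),(0,11),(10,1)]⟩,⟨3,[(0,2),(2,0),(10,0),(6,2),(2,2),(6,
  0)]⟩⟩]⟩))))) (.Q [0,1,1,0,0,0,0,0,1,0,0,-1] (.p false [0,0,0,1] [] (⟨0,[(27,0)]⟩,⟨0,[(26,0)]⟩) .k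
  0 (⟨0,[]⟩,⟨0,[]⟩) .k .k) (.K ⟨0,[0,0,0,1],0,0,(⟨0,[(28,0)]⟩,⟨0,[(27,0)]⟩),.k,(.r (-1) ⟨27,[(7,3),
  (2,7),(0,7),(13,0),(0,14),(17,3)]⟩ ⟨7,[(1,1),(0,2),(1,0),(3,1),(16,2),(1,1),(13,0)]⟩),(.x 0 ⟨0,
  [(40,0)]⟩ ⟨15,[(13,3),(3,3),(2,1),(4,6),(0,6),(11,0),(5,4)]⟩),.k,.k,[⟨0,[(28,0)]⟩,⟨0,[(27,0)]⟩,⟨0,
  [(1,0),(41,0)]⟩,⟨0,[(0,0)]⟩]⟩) (.I [1,0,-1,0,0,0,0,0,-1] (.Q [0,0,-2,0,1,0,0,0,0,-1,0,1] (.p true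
  [0,0,0,1] [1] (⟨0,[(29,0)]⟩,⟨0,[(28,0)]⟩) .k 1 (⟨0,[]⟩,⟨0,[]⟩) .k .k) (.R ⟨1,false,false,true,[0,
  0,0,1],[0,-1,1],[1,0,0,0,0,0,0,0,1],(⟨0,[(30,0)]⟩,⟨0,[(29,0)]⟩),(⟨6,[(6,0),(2,0),(3,2),(1,2),(3,
  0),(1,0),(3,2),(13,2)]⟩,⟨0,[(38,0),(3,0)]⟩),⟨21,[(0,2),(1,7),(6,0),(1,1),(0,2),(2,6),(3,2),(0,0),
  (4,3),(2,3),(1,10)]⟩,.k,.k,(.r (-1) ⟨27,[(9,3),(2,7),(0,7),(13,0),(0,14),(17,3)]⟩ ⟨11,[(1,1),(2,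
  2),(4,0),(4,2),(2,1),(9,4)]⟩),(.r 0 ⟨3,[(6,0),(10,1),(8,0),(1,1)]⟩ ⟨6,[(1,0),(7,4),(2,2),(0,2),
  (13,2),(18,0)]⟩),.k,.k,⟨false,1,⟨1,[(6,0),(19,0),(1,0),(18,0)]⟩,⟨0,[(1,0),(7,0),(2,0)]⟩⟩,⟨true,0,
  ⟨6,[(0,0),(1,3),(1,0),(7,0),(4,1),(8,1),(1,1),(1,1),(2,2)]⟩,⟨5,[(4,0),(17,2),(6,5),(10,0)]⟩⟩,
  ⟨true,0,⟨0,[]⟩,⟨0,[(49,0)]⟩⟩,⟨false,0,⟨0,[(2,0),(30,0),(11,0)]⟩,⟨23,[(4,7),(1,11),(20,2),(0,14),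
  (0,23),(10,1),(6,11)]⟩⟩,⟨false,1,⟨5,[(14,1),(12,0),(0,0),(11,0),(6,2)]⟩,⟨0,[(45,0)]⟩⟩,⟨false,0,⟨0,
  [(2,0),(30,0)]⟩,⟨23,[(4,7),(3,11),(18,2),(0,14),(0,23),(10,1),(6,11)]⟩⟩,[.o ⟨false,0,⟨0,[(33,0),
  (11,0)]⟩,⟨7,[(6,3),(20,0),(0,0),(11,1),(6,3)]⟩⟩,.a ⟨true,0,⟨4,[(9,2),(2,0),(0,0),(1,0),(5,1),(16,
  4),(6,3)]⟩,⟨5,[(8,2),(5,1),(14,0),(0,0)]⟩⟩ ⟨true,1,⟨1,[(28,0),(18,0)]⟩,⟨0,[(1,0),(7,0),(2,0),(4,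
  0)]⟩⟩ ⟨false,1,⟨3,[(0,0),(9,0),(2,2),(16,2),(2,2)]⟩,⟨23,[(4,7),(1,11),(20,2),(0,2),(0,23),(10,
  1)]⟩⟩,.o ⟨false,0,⟨2,[(4,0),(24,2),(10,0)]⟩,⟨7,[(0,3),(26,0),(0,0),(1,3),(9,1)]⟩⟩,.o ⟨false,0,⟨11,
  [(4,7),(22,2),(0,2),(0,11),(10,1)]⟩,⟨0,[(0,0)]⟩⟩]⟩) (.K ⟨1,[1,0,0,-1],1,0,(⟨0,[(29,0)]⟩,⟨0,[(30,
  0)]⟩),.k,(.x (-1) ⟨15,[(15,3),(3,3),(2,1),(4,6),(0,6),(11,0),(5,4)]⟩ ⟨0,[(42,0)]⟩),(.r 0 ⟨48,[(0,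
  1),(0,6),(0,0),(0,0),(0,17),(9,15),(12,19)]⟩ ⟨27,[(9,3),(2,7),(0,7),(13,0),(0,14),(17,3)]⟩),.k,.k,
  [⟨0,[(0,0)]⟩,⟨3,[(27,0),(0,0),(1,3),(9,1)]⟩,⟨1,[(0,0),(27,0),(0,0),(19,1)]⟩,⟨0,[(2,0)]⟩]⟩)) (.Q
  [0,1,1,-1,0,0,0,0,1,0,0,-1] (.p false [0,0,0,1] [] (⟨0,[(29,0)]⟩,⟨0,[(28,0)]⟩) .k 0 (⟨0,[]⟩,⟨0,
  []⟩) .k .k) (.R ⟨2,false,false,true,[0,1],[0,0,0,1],[0,1],(⟨0,[]⟩,⟨0,[]⟩),(⟨0,[(30,0)]⟩,⟨0,[(29,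
  0)]⟩),⟨0,[]⟩,.k,.k,.k,(.r 0 ⟨19,[(2,2),(0,0),(0,7),(1,0),(7,4),(5,1),(6,7),(1,3)]⟩ ⟨27,[(9,3),(2,
  7),(0,7),(13,0),(0,14),(17,3)]⟩),.k,.k,⟨true,0,⟨17,[(2,11),(1,3),(22,2),(1,11),(1,5),(1,5),(6,
  0)]⟩,⟨0,[(1,0)]⟩⟩,⟨false,0,⟨2,[(4,0),(24,2),(10,0)]⟩,⟨5,[(2,1),(0,3),(9,1),(14,2),(17,0)]⟩⟩,
  ⟨false,1,⟨6,[(9,0),(2,1),(0,1),(13,1),(0,1),(17,0)]⟩,⟨17,[(4,3),(9,5),(25,0),(2,5),(3,2)]⟩⟩,⟨true,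
  0,⟨0,[(0,0)]⟩,⟨11,[(2,6),(0,4),(2,0),(7,0),(5,1)]⟩⟩,⟨false,1,⟨3,[(27,0),(0,0),(17,1)]⟩,⟨7,[(4,0),
  (21,0),(9,1),(6,2),(3,0)]⟩⟩,⟨false,1,⟨5,[(0,5),(13,1),(12,0),(0,0),(11,0),(6,2)]⟩,⟨0,[(2,0)]⟩⟩,
  [.e ⟨true,0,⟨0,[(49,0)]⟩,⟨7,[(4,0),(21,0),(9,1),(6,2),(3,0)]⟩⟩ ⟨true,0,⟨5,[(0,5),(3,1),(9,1),(12,
  0),(0,0)]⟩,⟨0,[(2,0)]⟩⟩,.a ⟨true,0,⟨0,[(1,0),(27,0)]⟩,⟨41,[(2,24),(0,14),(0,0),(4,4),(2,9),(14,0),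
  (1,0),(0,2)]⟩⟩ ⟨false,1,⟨3,[(27,0),(0,0),(17,1)]⟩,⟨0,[]⟩⟩ ⟨true,0,⟨17,[(0,17),(3,3),(9,5),(25,0),
  (2,5),(3,2)]⟩,⟨41,[(2,24),(0,14),(0,0),(4,4),(2,9),(14,0),(1,0),(0,2)]⟩⟩,.o ⟨false,1,⟨3,[(27,0),
  (0,0),(17,1)]⟩,⟨2,[(4,0),(35,0)]⟩⟩,.e ⟨false,1,⟨3,[(27,0),(0,0),(17,1)]⟩,⟨7,[(4,0),(21,0),(9,1),
  (6,2),(3,0)]⟩⟩ ⟨false,1,⟨5,[(0,5),(13,1),(12,0),(0,0),(11,0),(6,2)]⟩,⟨0,[(2,0)]⟩⟩]⟩) (.Q [0,0,0,0,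
  0,1,0,0,0,-1,0,1] (.ed false [0,1,0,1] .k) (.R ⟨0,false,false,true,[1,0,0,-1],[1,0,-1],[1,1],(⟨0,
  [(30,0)]⟩,⟨0,[(31,0)]⟩),(⟨0,[(39,0)]⟩,⟨0,[(40,0)]⟩),⟨0,[(0,0)]⟩,.k,.k,(.x (-1) ⟨15,[(16,3),(3,3),
  (2,1),(4,6),(0,6),(11,0),(5,4)]⟩ ⟨0,[(43,0)]⟩),.k,.k,.k,⟨false,1,⟨6,[(10,3),(2,0),(0,0),(13,0),(0,
  0),(17,3)]⟩,⟨0,[(38,0)]⟩⟩,⟨true,0,⟨5,[(5,0),(17,2),(6,5),(10,0)]⟩,⟨18,[(0,9),(15,0),(3,4),(1,1),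
  (4,6),(3,8),(9,0)]⟩⟩,⟨false,1,⟨3,[(28,0),(0,2)]⟩,⟨2,[(3,2),(1,0),(24,2),(10,0)]⟩⟩,⟨true,0,⟨0,[(2,
  0),(27,0),(1,0)]⟩,⟨0,[(3,0),(30,0)]⟩⟩,⟨false,0,⟨0,[]⟩,⟨0,[]⟩⟩,⟨false,0,⟨0,[]⟩,⟨0,[]⟩⟩,[.o ⟨false,
  0,⟨0,[(32,0)]⟩,⟨15,[(10,7),(3,3),(12,7),(0,0),(0,0),(11,3),(6,5)]⟩⟩,.e ⟨true,0,⟨0,[]⟩,⟨9,[(5,1),
  (21,1),(0,0),(0,0),(7,3)]⟩⟩ ⟨true,0,⟨23,[(5,7),(3,11),(18,2),(0,2),(0,23),(10,1)]⟩,⟨0,[(2,0),(0,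
  0),(30,0)]⟩⟩,.o ⟨false,1,⟨9,[(3,1),(0,3),(9,1),(14,2),(1,3),(9,4)]⟩,⟨2,[(5,0),(24,2),(10,0)]⟩⟩,.a
  ⟨true,0,⟨0,[(31,0)]⟩,⟨0,[(30,0)]⟩⟩ ⟨false,1,⟨3,[(28,0),(0,0),(17,1)]⟩,⟨7,[(5,0),(21,0),(9,1),(6,
  2),(3,0)]⟩⟩ ⟨true,0,⟨0,[(30,0),(1,0)]⟩,⟨0,[(2,0),(0,0),(30,0)]⟩⟩]⟩) (.I [0,1,1,0,-1,0,0,0,-1] (.R
  ⟨1,false,false,true,[0,0,0,1],[1,0,-1],[1,0,0,0,0,0,0,0,1],(⟨0,[(32,0)]⟩,⟨0,[(31,0)]⟩),(⟨0,[(40,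
  0)]⟩,⟨0,[(41,0)]⟩),⟨3,[(2,0),(1,0),(9,0),(2,0),(3,0),(0,0),(1,0),(5,0),(1,1)]⟩,.k,.k,(.r (-1) ⟨27,
  [(11,3),(2,7),(0,7),(13,0),(0,14),(17,3)]⟩ ⟨29,[(0,2),(1,2),(3,9),(9,8),(12,11),(1,2),(10,0)]⟩),
  .k,(.x 1 ⟨4,[(0,1),(2,1),(13,2),(5,0),(21,0)]⟩ ⟨19,[(7,11),(5,3),(15,8),(0,8),(17,9)]⟩),.k,⟨true,
  1,⟨5,[(11,1),(3,1),(4,1),(9,2),(18,0)]⟩,⟨18,[(0,16),(8,4),(4,3),(4,2),(5,1),(2,4),(0,0)]⟩⟩,⟨false,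
  1,⟨1,[(2,1),(0,1),(4,0),(2,1),(2,1),(0,1),(2,0),(3,0)]⟩,⟨0,[(31,0),(5,0)]⟩⟩,⟨true,0,⟨0,[]⟩,⟨0,
  [(51,0)]⟩⟩,⟨false,0,⟨0,[(4,0),(28,0)]⟩,⟨23,[(6,3),(4,11),(3,5),(12,5),(1,11),(0,23),(5,11),(4,0),
  (6,8)]⟩⟩,⟨false,1,⟨5,[(16,1),(12,0),(0,0),(11,0),(6,2)]⟩,⟨0,[(47,0)]⟩⟩,⟨false,0,⟨0,[(4,0),(13,
  0)]⟩,⟨5,[(6,0),(4,2),(3,1),(12,0),(1,2),(0,5),(5,3),(9,4),(1,1)]⟩⟩,[.o ⟨false,0,⟨0,[(33,0)]⟩,⟨15,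
  [(11,7),(3,3),(12,7),(0,0),(0,0),(11,3),(6,5)]⟩⟩,.a ⟨true,0,⟨1,[(10,0),(20,0),(0,0)]⟩,⟨6,[(11,3),
  (2,0),(0,0),(1,0),(5,2),(2,0),(13,5)]⟩⟩ ⟨true,1,⟨1,[(30,0),(18,0)]⟩,⟨0,[(0,0)]⟩⟩ ⟨false,1,⟨3,[(4,
  2),(0,0),(9,1),(2,2),(11,1),(2,0)]⟩,⟨4,[(6,0),(4,1),(3,0),(12,0),(2,4),(3,0),(1,1)]⟩⟩,.o ⟨false,0,
  ⟨2,[(6,0),(24,2),(10,0)]⟩,⟨9,[(4,1),(0,3),(9,1),(14,2),(1,3),(9,4)]⟩⟩,.o ⟨false,0,⟨11,[(6,7),(22,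
  2),(0,2),(0,11),(10,1)]⟩,⟨0,[(3,0),(0,0),(10,0),(2,0),(3,0)]⟩⟩]⟩) (.Q [0,1,1,-2,0,0,0,0,1,0,0,-1]
  (.p false [0,0,0,1] [] (⟨0,[(32,0)]⟩,⟨0,[(31,0)]⟩) .k 0 (⟨0,[]⟩,⟨0,[]⟩) .k .k) (.R ⟨1,false,false,
  false,[1,-1],[1,0,0,-1],[1],(⟨0,[(44,0)]⟩,⟨0,[(45,0)]⟩),(⟨0,[(32,0)]⟩,⟨0,[(33,0)]⟩),⟨0,[(22,0),
  (19,0)]⟩,.k,.k,(.r (-1) ⟨4,[(0,1),(5,1),(9,3),(32,0)]⟩ ⟨2,[(7,1),(9,1),(12,0),(0,0)]⟩),(.r (-1)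
  ⟨9,[(0,1),(5,1),(9,3),(14,4),(17,0)]⟩ ⟨69,[(3,8),(2,4),(0,27),(1,1),(7,15),(5,3),(6,27),(1,13)]⟩),
  (.r (-2) ⟨19,[(0,7),(5,7),(9,15),(13,4),(0,14),(17,3)]⟩ ⟨13,[(3,8),(2,4),(0,13),(1,1),(7,1),(5,3),
  (8,13)]⟩),.k,⟨false,1,⟨1,[(31,0),(17,0)]⟩,⟨17,[(5,11),(1,3),(22,2),(1,11),(1,5),(1,5),(6,0)]⟩⟩,
  ⟨true,1,⟨5,[(5,1),(0,3),(9,1),(14,2),(17,0)]⟩,⟨0,[(7,0),(24,0)]⟩⟩,⟨false,0,⟨17,[(7,3),(9,5),(25,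
  0),(2,5),(3,2)]⟩,⟨19,[(0,3),(5,3),(9,7),(13,4),(0,4),(17,1)]⟩⟩,⟨false,0,⟨0,[(3,0)]⟩,⟨5,[(0,5),(16,
  1),(12,0),(0,0),(11,0),(6,2)]⟩⟩,⟨false,0,⟨5,[(7,0),(1,0),(3,1),(3,1),(25,0),(2,2)]⟩,⟨51,[(0,11),
  (11,7),(2,15),(0,27),(13,14),(0,8),(1,11)]⟩⟩,⟨true,0,⟨13,[(3,8),(2,4),(2,1),(7,1),(5,3)]⟩,⟨0,[(0,
  0)]⟩⟩,[.a ⟨true,0,⟨41,[(5,24),(0,14),(0,0),(4,4),(2,9),(14,0),(1,0),(0,2)]⟩,⟨0,[(4,0),(27,0)]⟩⟩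
  ⟨true,0,⟨0,[]⟩,⟨9,[(7,1),(21,1),(0,0),(0,0),(7,3)]⟩⟩ ⟨false,1,⟨2,[(5,0),(0,1),(9,0),(32,1)]⟩,⟨5,
  [(7,3),(23,2),(0,5),(10,0)]⟩⟩,.e ⟨false,1,⟨1,[(49,0),(0,0)]⟩,⟨0,[(52,0)]⟩⟩ ⟨false,1,⟨0,[(5,0),(43,
  0)]⟩,⟨11,[(0,11),(6,3),(9,7),(12,0),(0,0),(11,1)]⟩⟩,.o ⟨false,0,⟨2,[(7,0),(35,0)]⟩,⟨3,[(30,0),(0,
  0),(17,1)]⟩⟩,.o ⟨false,0,⟨11,[(7,7),(22,2),(0,2),(11,1)]⟩,⟨0,[(49,0)]⟩⟩]⟩) (.K ⟨0,[1,1,-1],1,0,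
  (⟨0,[(41,0),(3,0)]⟩,⟨17,[(0,0),(0,0),(0,0),(6,0),(2,0),(3,6),(1,8),(5,0),(3,8),(13,6),(6,0)]⟩),.k,
  .k,(.r 0 ⟨11,[(17,3),(2,11),(9,4),(0,4),(11,1)]⟩ ⟨1,[(0,4),(0,4),(0,4),(4,4),(0,1),(3,5),(2,9),(8,
  0)]⟩),.k,.k,[⟨0,[(18,0),(22,0),(3,1)]⟩,⟨31,[(0,4),(0,4),(0,4),(5,1),(0,4),(2,3),(2,2),(0,24),(6,
  4),(0,0),(3,26)]⟩,⟨1,[(12,1),(2,1),(13,0),(2,0),(0,0)]⟩,⟨0,[(19,0)]⟩]⟩))))))))))))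

theorem ok210 : chk (cU (-1) true 10) t210 l114 = true := by decide +kernel

noncomputable def t211 : Tre :=
  (.Q [0,1,-1,0,0,0,0,0,-1,0,0,1] (.p true [0,0,0,1] [] (⟨0,[(22,0)]⟩,⟨0,[(21,0)]⟩) .k 0 (⟨0,[]⟩,⟨0,
  []⟩) .k .k) (.Q [0,1,1,0,0,0,0,0,1,0,0,-1] (.p false [0,0,0,1] [] (⟨0,[(23,0)]⟩,⟨0,[(22,0)]⟩) .k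
  0 (⟨0,[]⟩,⟨0,[]⟩) .k .k) (.K ⟨0,[0,0,0,1],0,0,(⟨0,[(24,0)]⟩,⟨0,[(23,0)]⟩),.k,(.r (-1) ⟨27,[(3,3),
  (2,7),(0,7),(13,0),(0,14),(17,3)]⟩ ⟨3,[(1,1),(9,1),(0,1),(8,0),(1,1),(10,0)]⟩),(.x 0 ⟨0,[(36,0)]⟩
  ⟨15,[(9,3),(3,3),(2,1),(4,6),(0,6),(11,0),(5,4)]⟩),.k,.k,[⟨0,[(24,0)]⟩,⟨0,[(23,0)]⟩,⟨0,[(1,0)]⟩,
  ⟨0,[(0,0)]⟩]⟩) (.Q [0,0,1,-2,0,0,-1,-1,1,0,1,-1] (.p true [0,0,1] [0,0,0,1] (⟨0,[(33,0)]⟩,⟨0,[(32,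
  0)]⟩) .k 2 (⟨0,[(24,0)]⟩,⟨0,[(23,0)]⟩) .k (.r 0 ⟨0,[(0,0),(22,0),(2,0),(0,0)]⟩ ⟨3,[(21,0),(0,2),
  (8,3)]⟩)) (.R ⟨2,false,false,true,[0,1],[0,0,0,1],[1],(⟨0,[]⟩,⟨0,[]⟩),(⟨0,[(25,0)]⟩,⟨0,[(24,0)]⟩),
  ⟨0,[]⟩,.k,.k,.k,(.r 0 ⟨6,[(1,0),(2,0),(6,0),(0,2),(0,0),(1,0),(6,2),(1,0)]⟩ ⟨27,[(4,3),(2,7),(0,
  7),(13,0),(0,14),(17,3)]⟩),.k,.k,⟨true,0,⟨0,[(1,0),(16,0),(5,0),(2,0),(0,0)]⟩,⟨2,[(0,0),(11,0),(7,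
  0),(2,0),(1,0),(2,1)]⟩⟩,⟨false,0,⟨0,[(18,0),(5,0),(2,0),(0,0)]⟩,⟨0,[(25,0),(15,0)]⟩⟩,⟨false,1,⟨7,
  [(8,3),(13,0),(0,0),(18,1)]⟩,⟨29,[(4,5),(4,3),(2,11),(9,4),(0,4),(11,1)]⟩⟩,⟨true,0,⟨0,[(0,0),(14,
  0)]⟩,⟨9,[(1,6),(0,2),(6,1),(1,1),(3,1)]⟩⟩,⟨false,1,⟨1,[(41,0),(0,0)]⟩,⟨1,[(30,0),(0,0)]⟩⟩,⟨false,
  1,⟨19,[(0,7),(3,3),(4,3),(12,2),(0,8),(0,11),(5,7),(4,7)]⟩,⟨0,[(1,0)]⟩⟩,[.e ⟨true,0,⟨0,[]⟩,⟨1,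
  [(30,0),(0,0)]⟩⟩ ⟨true,0,⟨29,[(0,29),(3,5),(4,3),(2,11),(2,29),(6,4),(0,4),(11,1)]⟩,⟨0,[(1,0)]⟩⟩,
  .a ⟨true,0,⟨0,[(0,0),(4,0)]⟩,⟨1,[(1,0),(0,0)]⟩⟩ ⟨false,1,⟨1,[(41,0),(0,0)]⟩,⟨0,[(44,0)]⟩⟩ ⟨true,0,
  ⟨21,[(0,11),(2,3),(0,3),(7,11),(0,3),(1,3),(7,4),(0,9),(10,6)]⟩,⟨1,[(1,0),(0,0)]⟩⟩,.o ⟨false,1,⟨3,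
  [(22,0),(0,0),(17,1)]⟩,⟨0,[(18,0),(8,0),(0,0)]⟩⟩,.e ⟨false,1,⟨1,[(41,0),(0,0)]⟩,⟨1,[(30,0),(0,
  0)]⟩⟩ ⟨false,1,⟨19,[(0,7),(3,3),(4,3),(12,2),(0,8),(0,11),(5,7),(4,7)]⟩,⟨0,[(1,0)]⟩⟩]⟩) (.Q [0,0,
  -1,0,0,0,0,0,-1,-1,0,1] (.p true [0,0,0,1] [1] (⟨0,[(25,0)]⟩,⟨0,[(24,0)]⟩) .k 1 (⟨0,[]⟩,⟨0,[]⟩)
  .k .k) (.R ⟨1,false,false,true,[0,0,0,1],[0,-1,1],[1,0,0,0,0,0,0,0,1],(⟨0,[(26,0)]⟩,⟨0,[(25,0)]⟩),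
  (⟨4,[(9,2),(0,0),(0,2),(5,0),(0,0),(2,2)]⟩,⟨0,[(34,0),(3,0)]⟩),⟨27,[(0,5),(1,5),(2,0),(2,1),(0,0),
  (1,6),(3,6),(2,0),(2,4),(2,5),(1,15)]⟩,.k,.k,(.r (-1) ⟨27,[(5,3),(2,7),(0,7),(13,0),(0,14),(17,
  3)]⟩ ⟨39,[(1,5),(3,5),(6,1),(0,17),(0,1),(3,1),(4,16),(1,5),(10,0)]⟩),(.r 0 ⟨9,[(10,0),(1,1),(0,
  4),(5,1),(2,0),(1,4),(8,0)]⟩ ⟨6,[(0,0),(4,4),(2,2),(0,2),(13,2),(1,0),(16,0)]⟩),.k,.k,⟨false,1,⟨5,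
  [(10,1),(8,1),(4,2),(8,3),(2,0),(6,1)]⟩,⟨0,[(0,0),(4,0),(2,0),(16,0)]⟩⟩,⟨true,0,⟨16,[(0,7),(3,2),
  (3,1),(4,3),(8,4),(1,3),(1,8),(4,0),(7,0)]⟩,⟨0,[(25,0),(2,0)]⟩⟩,⟨true,0,⟨0,[]⟩,⟨0,[(45,0)]⟩⟩,
  ⟨false,0,⟨3,[(0,1),(1,0),(0,0),(0,1),(36,3)]⟩,⟨9,[(12,5),(0,3),(4,1),(5,4),(0,9),(10,0),(6,7)]⟩⟩,
  ⟨false,1,⟨5,[(10,1),(12,0),(0,0),(11,0),(6,2)]⟩,⟨0,[(41,0)]⟩⟩,⟨false,0,⟨3,[(0,1),(1,0),(0,0),(0,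
  1)]⟩,⟨9,[(8,1),(4,3),(4,3),(0,1),(4,4),(0,9),(4,1),(5,2),(6,5)]⟩⟩,[.o ⟨false,0,⟨1,[(4,0),(3,0),
  (19,0),(0,0)]⟩,⟨0,[(12,0),(30,0)]⟩⟩,.a ⟨true,0,⟨1,[(4,0),(20,0),(0,0),(14,1)]⟩,⟨0,[(19,0),(1,
  0)]⟩⟩ ⟨true,1,⟨1,[(24,0),(18,0)]⟩,⟨0,[(0,0),(4,0),(2,0),(4,0),(11,0)]⟩⟩ ⟨false,1,⟨1,[(0,0),(2,0),
  (0,0),(4,0),(14,0)]⟩,⟨9,[(12,5),(0,3),(4,1),(6,9),(10,0),(6,2)]⟩⟩,.o ⟨false,0,⟨0,[(19,0),(5,0),(2,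
  0),(0,0)]⟩,⟨3,[(0,3),(22,0),(0,2)]⟩⟩,.o ⟨false,0,⟨0,[(25,0),(2,0),(2,0)]⟩,⟨1,[(0,1),(23,0),(17,
  0)]⟩⟩]⟩) (.I [0,1,-1,-1,0,0,0,1,-1] (.R ⟨1,false,false,false,[0,0,1],[0,0,0,1],[0,1,0,-1,0,0,0,1],
  (⟨0,[(36,0)]⟩,⟨0,[(35,0)]⟩),(⟨0,[(27,0)]⟩,⟨0,[(26,0)]⟩),⟨4,[(10,2),(0,0),(0,2),(5,0),(0,0),(2,
  2)]⟩,.k,.k,.k,.k,(.r (-1) ⟨6,[(0,2),(5,1),(3,2),(13,2),(0,0)]⟩ ⟨9,[(11,0),(1,1),(0,4),(5,1),(2,0),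
  (1,4),(8,0)]⟩),.k,⟨false,0,⟨0,[(0,0)]⟩,⟨5,[(11,1),(8,1),(4,2),(8,3),(2,0),(6,1)]⟩⟩,⟨true,0,⟨0,
  [(26,0),(2,0)]⟩,⟨4,[(2,0),(0,0),(1,1),(3,1),(4,1),(5,0),(4,0),(1,2),(9,0)]⟩⟩,⟨false,0,⟨0,[(42,
  0)]⟩,⟨5,[(11,1),(12,0),(0,0),(11,0),(6,2)]⟩⟩,⟨false,1,⟨0,[(1,0),(26,0),(15,0)]⟩,⟨0,[(3,0),(26,
  0)]⟩⟩,⟨true,0,⟨0,[(46,0)]⟩,⟨0,[]⟩⟩,⟨false,1,⟨0,[(1,0),(11,0),(30,0)]⟩,⟨1,[(3,1),(1,0),(3,0),(19,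
  0),(0,0)]⟩⟩,[.a ⟨true,0,⟨0,[(1,0)]⟩,⟨1,[(3,0),(0,0)]⟩⟩ ⟨true,0,⟨0,[(6,0),(2,0)]⟩,⟨11,[(11,1),(2,
  5),(5,1),(13,3),(2,0),(6,4)]⟩⟩ ⟨false,1,⟨3,[(19,1),(5,1),(0,3),(10,0),(5,0)]⟩,⟨1,[(2,0),(0,0),(5,
  0),(22,0)]⟩⟩,.o ⟨false,1,⟨1,[(1,1),(35,0),(6,0)]⟩,⟨0,[(2,0),(6,0),(19,0)]⟩⟩,.o ⟨false,0,⟨0,[(20,
  0),(9,0)]⟩,⟨3,[(19,1),(4,0),(0,0),(11,0),(5,0)]⟩⟩,.o ⟨false,0,⟨0,[(32,0)]⟩,⟨3,[(19,1),(17,0),(5,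
  2)]⟩⟩]⟩) (.Q [0,0,0,0,0,1,0,0,0,-1,0,1] (.ed false [0,1,0,1] .k) (.R ⟨0,false,false,true,[1,0,0,
  -1],[1,0,-1],[1,1],(⟨0,[(27,0)]⟩,⟨0,[(28,0)]⟩),(⟨0,[(36,0)]⟩,⟨0,[(37,0)]⟩),⟨0,[(0,0)]⟩,.k,.k,(.x
  (-1) ⟨15,[(13,3),(3,3),(2,1),(4,6),(0,6),(11,0),(5,4)]⟩ ⟨0,[(40,0)]⟩),.k,.k,.k,⟨false,1,⟨6,[(7,3),
  (2,0),(0,0),(13,0),(0,0),(17,3)]⟩,⟨0,[(35,0)]⟩⟩,⟨true,0,⟨0,[(27,0),(2,0)]⟩,⟨26,[(0,11),(2,1),(0,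
  1),(5,1),(2,2),(3,2),(6,10),(1,1),(1,10),(9,0)]⟩⟩,⟨false,1,⟨3,[(25,0),(0,2)]⟩,⟨0,[(3,0),(6,0),(16,
  0),(2,0),(10,0)]⟩⟩,⟨true,0,⟨0,[(2,0),(26,0)]⟩,⟨0,[(4,0),(26,0)]⟩⟩,⟨false,0,⟨0,[]⟩,⟨0,[]⟩⟩,⟨false,
  0,⟨0,[]⟩,⟨0,[]⟩⟩,[.o ⟨false,0,⟨0,[(29,0)]⟩,⟨7,[(6,3),(18,0),(0,0),(11,1),(6,3)]⟩⟩,.e ⟨true,0,⟨0,
  []⟩,⟨1,[(33,0),(0,0)]⟩⟩ ⟨true,0,⟨55,[(2,9),(7,7),(4,15),(4,21),(0,19),(3,4),(1,45),(1,11),(8,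
  10)]⟩,⟨30,[(0,15),(2,2),(0,2),(1,11),(0,3),(2,3),(0,0),(1,3),(3,3),(8,2),(1,8)]⟩⟩,.o ⟨false,1,⟨1,
  [(28,1),(9,0),(5,0)]⟩,⟨0,[(21,0),(5,0),(2,0),(0,0)]⟩⟩,.a ⟨true,0,⟨0,[(28,0)]⟩,⟨0,[(27,0)]⟩⟩
  ⟨false,1,⟨3,[(25,0),(0,0),(17,1)]⟩,⟨3,[(33,0),(0,0),(6,1)]⟩⟩ ⟨true,0,⟨0,[(27,0),(1,0)]⟩,⟨30,[(0,
  15),(2,2),(0,2),(1,11),(0,3),(2,3),(0,0),(1,3),(3,3),(8,2),(1,8)]⟩⟩]⟩) (.I [0,0,-1,-1,0,0,0,0,-1]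
  (.R ⟨1,false,false,false,[1,0,0,-1],[1,1,-1],[0,1,0,-1,0,0,0,0,-1],(⟨0,[(28,0)]⟩,⟨0,[(29,0)]⟩),
  (⟨0,[(37,0),(3,0)]⟩,⟨4,[(12,2),(0,0),(0,2),(5,0),(0,0),(2,2)]⟩),⟨0,[(1,0)]⟩,.k,.k,(.r 0 ⟨0,[(0,
  0)]⟩ ⟨59,[(8,11),(4,7),(2,23),(9,24),(0,54),(11,3)]⟩),(.r (-1) ⟨25,[(0,3),(7,17),(2,9),(0,9),(13,
  10),(18,4)]⟩ ⟨23,[(2,7),(10,0),(1,4),(0,7),(8,3),(1,7),(5,2)]⟩),(.r (-1) ⟨25,[(0,15),(7,19),(2,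
  13),(0,13),(13,4),(18,6)]⟩ ⟨5,[(13,1),(2,5),(9,0),(0,3),(11,0)]⟩),.k,⟨true,0,⟨0,[(0,0),(7,0),(2,
  0)]⟩,⟨29,[(2,29),(5,5),(4,3),(2,11),(9,4),(0,4),(11,1)]⟩⟩,⟨false,1,⟨3,[(21,1),(6,3),(10,0),(5,
  2)]⟩,⟨23,[(2,6),(1,3),(0,2),(1,8),(3,9),(4,4),(8,0),(3,16),(9,4)]⟩⟩,⟨false,0,⟨0,[(44,0)]⟩,⟨5,[(13,
  1),(12,0),(0,0),(11,0),(6,2)]⟩⟩,⟨false,1,⟨0,[(3,0),(11,0),(30,0)]⟩,⟨1,[(5,1),(1,0),(3,0),(19,0),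
  (0,0)]⟩⟩,⟨true,0,⟨0,[(48,0)]⟩,⟨0,[]⟩⟩,⟨false,1,⟨11,[(2,3),(0,5),(9,3),(1,7),(5,1),(5,0),(0,5),(10,
  2),(6,7)]⟩,⟨0,[(5,0),(1,0),(3,0),(19,0)]⟩⟩,[.a ⟨true,0,⟨0,[(22,0),(1,0)]⟩,⟨2,[(3,0),(1,0),(1,1),
  (3,0),(23,0),(8,0)]⟩⟩ ⟨false,0,⟨0,[(0,0),(47,0)]⟩,⟨9,[(2,1),(10,1),(3,1),(9,3),(11,0),(5,1),(0,
  2)]⟩⟩ ⟨true,0,⟨9,[(15,5),(0,3),(4,1),(6,9),(10,0),(6,2)]⟩,⟨1,[(2,1),(2,1),(1,0),(0,1),(2,2),(19,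
  0),(0,0)]⟩⟩,.o ⟨false,1,⟨0,[(15,0),(30,0)]⟩,⟨1,[(7,0),(3,0),(19,0),(0,0)]⟩⟩,.o ⟨false,1,⟨1,[(29,
  1),(9,0),(5,0)]⟩,⟨0,[(22,0),(5,0),(2,0),(0,0)]⟩⟩,.e ⟨false,0,⟨0,[(0,0)]⟩,⟨5,[(2,3),(5,1),(17,1),
  (0,2),(18,0)]⟩⟩ ⟨false,1,⟨0,[(15,0),(12,0),(17,0)]⟩,⟨1,[(2,1),(2,1),(1,0),(0,1),(2,2),(19,0),(0,
  0)]⟩⟩]⟩) (.R ⟨1,false,false,true,[1,0,0,-1],[0,0,1],[1,0,0,0,0,0,0,0,-1],(⟨0,[(28,0)]⟩,⟨0,[(29,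
  0)]⟩),(⟨0,[(38,0)]⟩,⟨0,[(37,0)]⟩),⟨0,[(1,0)]⟩,.k,.k,(.x (-1) ⟨15,[(14,3),(3,3),(2,1),(4,6),(0,6),
  (11,0),(5,4)]⟩ ⟨0,[(41,0)]⟩),.k,(.r 0 ⟨1,[(4,1),(6,2),(10,0),(5,1),(2,1),(10,0)]⟩ ⟨29,[(8,17),(4,
  1),(2,5),(9,9),(0,24),(11,0)]⟩),.k,⟨true,0,⟨11,[(5,9),(5,2),(4,5),(5,2),(3,0),(1,9),(10,4),(2,
  0)]⟩,⟨0,[(0,0),(7,0),(2,0)]⟩⟩,⟨false,0,⟨0,[(22,0),(5,0),(3,0)]⟩,⟨3,[(21,1),(7,3),(9,0),(5,2)]⟩⟩,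
  ⟨true,0,⟨0,[]⟩,⟨0,[(48,0)]⟩⟩,⟨true,0,⟨0,[(3,0),(28,0)]⟩,⟨0,[(5,0),(24,0)]⟩⟩,⟨false,1,⟨5,[(13,1),
  (12,0),(0,0),(11,0),(6,2)]⟩,⟨0,[(44,0)]⟩⟩,⟨true,0,⟨0,[(3,0),(15,0)]⟩,⟨1,[(5,1),(5,0),(18,0),(0,
  0)]⟩⟩,[.o ⟨false,0,⟨0,[(32,0)]⟩,⟨0,[(30,0),(15,0)]⟩⟩,.e ⟨true,0,⟨0,[(4,0),(6,0),(16,0),(2,0),(10,
  0)]⟩,⟨1,[(8,0),(2,0),(4,0),(10,0),(20,0)]⟩⟩ ⟨true,0,⟨1,[(7,0),(20,1),(2,0),(2,0)]⟩,⟨1,[(0,1),(4,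
  1),(5,0),(18,0),(0,0)]⟩⟩,.o ⟨false,1,⟨1,[(29,1),(9,0),(5,0)]⟩,⟨0,[(22,0),(5,0),(2,0),(0,0)]⟩⟩,.a
  ⟨true,0,⟨0,[(29,0)]⟩,⟨0,[(28,0)]⟩⟩ ⟨false,1,⟨3,[(5,1),(20,0),(1,1),(10,0),(5,0),(0,0)]⟩,⟨0,[(0,0),
  (43,0)]⟩⟩ ⟨true,0,⟨0,[(28,0),(3,0)]⟩,⟨1,[(0,1),(4,1),(5,0),(18,0),(0,0)]⟩⟩]⟩))))))) (.I [0,0,0,-1,
  0,0,0,0,1] (.I [1,-1,1,1,0,0,0,0,-1] (.Q [0,0,0,0,0,-1,0,0,0,0,0,1] (.ed false [1,-1,0,1] .k) (.R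
  ⟨1,false,false,true,[0,0,0,1],[0,-1,1],[0,1,0,-1,0,0,0,0,1],(⟨0,[(26,0)]⟩,⟨0,[(25,0)]⟩),(⟨4,[(9,
  2),(0,0),(0,2),(5,0),(0,0),(2,2)]⟩,⟨0,[(34,0),(3,0)]⟩),⟨0,[(0,0)]⟩,.k,.k,(.r (-1) ⟨27,[(5,3),(2,
  7),(0,7),(13,0),(0,14),(17,3)]⟩ ⟨3,[(1,1),(11,0),(7,0),(1,0),(5,0)]⟩),(.r 0 ⟨9,[(10,0),(1,1),(0,
  4),(5,1),(2,0),(1,4),(8,0)]⟩ ⟨8,[(1,4),(3,5),(2,5),(0,6),(6,2),(4,2),(1,1)]⟩),.k,.k,⟨false,0,⟨28,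
  [(2,26),(5,1),(1,5),(1,11),(0,0),(5,13),(2,5),(1,0)]⟩,⟨8,[(1,6),(3,2),(2,2),(0,7),(6,5),(4,5),(1,
  0)]⟩⟩,⟨true,0,⟨0,[(19,0),(6,0),(2,0)]⟩,⟨0,[(25,0),(2,0)]⟩⟩,⟨false,0,⟨0,[(41,0)]⟩,⟨5,[(10,1),(12,
  0),(0,0),(11,0),(6,2)]⟩⟩,⟨false,1,⟨2,[(1,0),(7,1),(13,0),(2,2),(2,2)]⟩,⟨2,[(2,0),(0,1),(6,0),(1,
  0),(5,0),(0,1),(5,0)]⟩⟩,⟨true,0,⟨0,[(45,0)]⟩,⟨0,[]⟩⟩,⟨false,1,⟨2,[(1,0),(7,1),(6,2),(6,0),(2,2)]⟩,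
  ⟨11,[(2,3),(0,7),(6,0),(1,0),(5,3),(0,7),(5,3),(4,2)]⟩⟩,[.o ⟨false,0,⟨1,[(4,0),(3,0),(19,0),(0,
  0)]⟩,⟨0,[(12,0),(30,0)]⟩⟩,.a ⟨true,0,⟨1,[(4,0),(20,0),(0,0),(14,1)]⟩,⟨0,[(19,0),(1,0)]⟩⟩ ⟨true,0,
  ⟨0,[(2,0)]⟩,⟨3,[(1,1),(11,0),(7,0),(1,0),(5,0)]⟩⟩ ⟨false,1,⟨0,[(9,0),(6,0),(9,0)]⟩,⟨1,[(1,0),(1,
  0),(8,0),(12,0),(4,0)]⟩⟩,.o ⟨false,0,⟨3,[(1,1),(1,1),(4,0),(16,1),(1,0),(0,0),(0,1)]⟩,⟨1,[(26,1),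
  (9,0),(5,0)]⟩⟩,.e ⟨false,1,⟨27,[(5,3),(2,7),(0,7),(13,0),(0,14),(17,3)]⟩,⟨0,[(1,0)]⟩⟩ ⟨false,1,⟨0,
  [(9,0),(6,0),(9,0)]⟩,⟨0,[(1,0),(1,0),(26,0)]⟩⟩]⟩) (.I [0,0,0,-1,0,0,0,0,-1] (.R ⟨1,false,false,
  true,[1,0,0,-1],[0,1],[0,1,0,-1,0,0,0,0,-1],(⟨0,[(26,0)]⟩,⟨0,[(27,0)]⟩),(⟨0,[(39,0)]⟩,⟨0,[(38,
  0)]⟩),⟨7,[(1,3),(8,2),(0,0),(0,2),(3,2),(5,2),(3,3)]⟩,.k,.k,(.x (-1) ⟨15,[(12,3),(3,3),(2,1),(4,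
  6),(0,6),(11,0),(5,4)]⟩ ⟨0,[(39,0)]⟩),(.x (-1) ⟨15,[(12,3),(3,3),(2,1),(4,6),(0,6),(11,0),(5,4)]⟩
  ⟨0,[(39,0)]⟩),(.r (-1) ⟨11,[(0,9),(5,1),(2,3),(0,3),(13,0),(18,6)]⟩ ⟨59,[(6,23),(4,15),(2,47),(9,
  4),(0,34),(11,7)]⟩),.k,⟨false,1,⟨11,[(0,9),(5,1),(2,3),(0,3),(13,0),(18,6)]⟩,⟨23,[(3,17),(7,13),
  (1,3),(0,7),(0,7),(1,3),(7,2),(11,4)]⟩⟩,⟨true,0,⟨0,[(26,0)]⟩,⟨0,[(20,0),(6,0),(1,0),(0,0)]⟩⟩,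
  ⟨false,0,⟨0,[(42,0)]⟩,⟨5,[(11,1),(12,0),(0,0),(11,0),(6,2)]⟩⟩,⟨false,0,⟨36,[(3,4),(0,5),(1,4),(4,
  5),(2,12),(2,2),(4,2),(2,12),(0,30)]⟩,⟨0,[(0,0),(9,0),(2,0),(3,0),(9,0),(12,0)]⟩⟩,⟨true,0,⟨0,[(46,
  0)]⟩,⟨0,[]⟩⟩,⟨false,0,⟨36,[(3,0),(0,15),(1,0),(4,15),(2,9),(2,7),(4,7),(2,9),(0,20)]⟩,⟨0,[(0,0),
  (9,0),(6,0),(2,0),(6,0),(1,0)]⟩⟩,[.o ⟨false,0,⟨0,[(41,0)]⟩,⟨3,[(10,1),(18,1),(2,1),(4,0),(6,0)]⟩⟩,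
  .a ⟨true,0,⟨2,[(11,0),(14,1),(0,1)]⟩,⟨0,[(42,0)]⟩⟩ ⟨true,0,⟨0,[(0,0)]⟩,⟨22,[(3,6),(2,0),(4,2),(1,
  2),(0,7),(0,5),(1,2),(7,7)]⟩⟩ ⟨false,0,⟨7,[(1,3),(8,0),(0,2),(0,0),(3,0),(5,0),(3,3)]⟩,⟨27,[(6,3),
  (2,7),(0,7),(13,0),(0,0),(1,27),(9,13),(5,3)]⟩⟩,.o ⟨false,1,⟨1,[(27,1),(9,0),(5,0)]⟩,⟨8,[(1,4),(2,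
  3),(3,0),(3,1),(11,1),(21,3)]⟩⟩,.e ⟨false,1,⟨27,[(6,3),(2,7),(0,7),(13,14),(0,0),(17,3)]⟩,⟨4,[(3,
  4),(7,1),(2,0),(0,2),(4,1),(16,0)]⟩⟩ ⟨false,0,⟨7,[(1,3),(8,0),(0,2),(0,0),(3,0),(5,0),(3,3)]⟩,⟨3,
  [(10,1),(16,3),(1,1),(2,1),(4,0),(6,0)]⟩⟩]⟩) (.R ⟨0,false,false,true,[0,0,0,1],[0,1],[0,1,0,0,0,0,
  0,0,1],(⟨0,[(27,0)]⟩,⟨0,[(26,0)]⟩),(⟨0,[(39,0)]⟩,⟨0,[(38,0)]⟩),⟨0,[(1,0)]⟩,.k,.k,(.r (-1) ⟨27,[(6,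
  3),(2,7),(0,7),(13,0),(0,14),(17,3)]⟩ ⟨3,[(2,1),(11,0),(7,0),(1,0),(5,0)]⟩),(.r (-1) ⟨27,[(6,3),
  (2,7),(0,7),(13,0),(0,14),(17,3)]⟩ ⟨3,[(2,1),(11,0),(7,0),(1,0),(5,0)]⟩),.k,.k,⟨false,1,⟨0,[(3,0),
  (39,0)]⟩,⟨3,[(2,1),(11,0),(7,0),(1,0),(5,0)]⟩⟩,⟨true,1,⟨0,[(27,0),(15,0)]⟩,⟨19,[(1,19),(4,5),(1,
  3),(3,7),(1,11),(17,4),(0,4),(8,17)]⟩⟩,⟨true,0,⟨0,[(46,0)]⟩,⟨0,[]⟩⟩,⟨false,1,⟨13,[(2,3),(8,1),(1,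
  1),(3,1),(6,4),(2,13),(15,8)]⟩,⟨0,[(4,0),(37,0)]⟩⟩,⟨false,0,⟨0,[]⟩,⟨0,[]⟩⟩,⟨false,0,⟨0,[]⟩,⟨0,
  []⟩⟩,[.o ⟨false,0,⟨0,[(41,0)]⟩,⟨3,[(10,1),(18,1),(2,1),(4,0),(6,0)]⟩⟩,.a ⟨true,0,⟨2,[(11,0),(14,
  1),(0,1)]⟩,⟨0,[(42,0)]⟩⟩ ⟨true,0,⟨1,[(0,0),(2,0)]⟩,⟨2,[(2,0),(3,0),(2,0),(4,0),(9,0),(17,0)]⟩⟩
  ⟨false,1,⟨0,[(7,0),(2,0),(2,0),(13,0)]⟩,⟨8,[(1,4),(2,3),(1,1),(1,0),(0,3),(2,1),(11,1),(7,0),(0,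
  0),(8,2)]⟩⟩,.o ⟨false,0,⟨8,[(1,4),(2,3),(3,0),(3,1),(11,1),(21,3)]⟩,⟨1,[(27,1),(9,0),(5,0)]⟩⟩,.e
  ⟨false,1,⟨1,[(25,0),(17,0)]⟩,⟨0,[(2,0),(39,0)]⟩⟩ ⟨false,1,⟨0,[(7,0),(2,0),(2,0),(13,0)]⟩,⟨35,[(1,
  19),(2,15),(3,3),(3,7),(11,7),(7,12),(0,12),(6,9),(1,35)]⟩⟩]⟩))) (.Q [0,0,0,0,0,-1,0,0,0,1,0,-1]
  (.ed true [0,1,0,1] .k) (.Q [0,0,0,1,0,0,0,0,0,0,0,1] (.p true [0,0,0,1] [] (⟨0,[(26,0)]⟩,⟨0,[(25,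
  0)]⟩) .k 0 (⟨0,[]⟩,⟨0,[]⟩) .k .k) (.R ⟨1,false,false,false,[1,0,0,-1],[1,-1],[1,1,0,0,0,0,0,0,-1],
  (⟨0,[(26,0)]⟩,⟨0,[(27,0)]⟩),(⟨0,[(38,0)]⟩,⟨0,[(39,0)]⟩),⟨0,[(1,0)]⟩,.k,.k,(.x (-1) ⟨15,[(12,3),(3,
  3),(2,1),(4,6),(0,6),(11,0),(5,4)]⟩ ⟨0,[(39,0)]⟩),(.x (-1) ⟨0,[(39,0),(3,0)]⟩ ⟨9,[(8,1),(3,3),(11,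
  1),(0,1),(6,4),(0,4)]⟩),.k,.k,⟨true,0,⟨1,[(14,0),(7,0),(1,0),(5,0)]⟩,⟨0,[(2,0),(37,0)]⟩⟩,⟨false,0,
  ⟨0,[(20,0),(5,0),(2,0),(0,0)]⟩,⟨0,[(27,0),(15,0)]⟩⟩,⟨false,0,⟨0,[]⟩,⟨3,[(24,0),(0,0),(18,1)]⟩⟩,
  ⟨false,0,⟨0,[(4,0),(37,0)]⟩,⟨1,[(0,1),(23,0),(18,0)]⟩⟩,⟨true,0,⟨0,[(41,0)]⟩,⟨0,[(42,0)]⟩⟩,⟨false,
  0,⟨0,[(4,0)]⟩,⟨1,[(24,0),(2,1),(15,0)]⟩⟩,[.a ⟨true,0,⟨0,[(42,0)]⟩,⟨2,[(11,0),(14,1),(0,1)]⟩⟩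
  ⟨false,1,⟨1,[(24,0),(18,0),(2,1)]⟩,⟨0,[(2,0),(12,0),(4,0)]⟩⟩ ⟨true,0,⟨1,[(9,0),(10,0),(5,1),(2,1),
  (0,1),(9,0)]⟩,⟨0,[(0,0)]⟩⟩,.o ⟨false,1,⟨3,[(10,1),(18,1),(2,1),(4,0),(6,0)]⟩,⟨0,[(41,0)]⟩⟩,.o
  ⟨false,1,⟨1,[(27,1),(9,0),(5,0)]⟩,⟨0,[(20,0),(5,0),(2,0),(0,0)]⟩⟩,.e ⟨false,1,⟨1,[(24,0),(18,0)]⟩,
  ⟨5,[(0,0),(2,2),(0,0),(9,0),(0,0),(9,0),(14,1)]⟩⟩ ⟨false,1,⟨43,[(4,35),(1,3),(2,7),(0,15),(13,20),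
  (0,2),(0,7),(10,3)]⟩,⟨0,[(0,0)]⟩⟩]⟩) (.I [0,0,1,1,0,0,0,0,-1] (.R ⟨1,false,false,false,[1,0,0,-1],
  [1,-1],[1,1,0,0,0,0,0,0,-1],(⟨0,[(27,0)]⟩,⟨0,[(28,0)]⟩),(⟨0,[(39,0)]⟩,⟨0,[(40,0)]⟩),⟨0,[(2,0)]⟩,
  .k,.k,(.x (-1) ⟨15,[(13,3),(3,3),(2,1),(4,6),(0,6),(11,0),(5,4)]⟩ ⟨0,[(40,0)]⟩),(.r 0 ⟨0,[(0,0)]⟩
  ⟨5,[(3,1),(7,1),(13,0),(0,2)]⟩),.k,.k,⟨true,0,⟨0,[(0,0),(46,0)]⟩,⟨0,[(3,0),(37,0)]⟩⟩,⟨false,0,⟨8,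
  [(1,2),(5,0),(7,1),(11,5),(2,1),(2,1),(4,1)]⟩,⟨0,[(28,0),(15,0)]⟩⟩,⟨false,0,⟨0,[]⟩,⟨3,[(25,0),(0,
  0),(18,1)]⟩⟩,⟨false,0,⟨0,[(5,0),(37,0)]⟩,⟨0,[(0,0),(27,0),(15,0)]⟩⟩,⟨true,0,⟨0,[(42,0)]⟩,⟨0,[(43,
  0)]⟩⟩,⟨false,0,⟨0,[(5,0)]⟩,⟨1,[(25,0),(2,1),(15,0)]⟩⟩,[.e ⟨false,1,⟨1,[(25,0),(18,0),(2,1)]⟩,⟨0,
  [(3,0),(12,0),(4,0)]⟩⟩ ⟨false,0,⟨0,[(1,0)]⟩,⟨5,[(12,1),(12,0),(0,0),(1,5),(9,0),(5,2)]⟩⟩,.o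
  ⟨false,1,⟨3,[(11,1),(18,1),(2,1),(4,0),(6,0)]⟩,⟨0,[(42,0)]⟩⟩,.o ⟨false,1,⟨1,[(28,1),(9,0),(5,0)]⟩,
  ⟨8,[(1,2),(5,0),(7,1),(11,5),(2,1),(2,1),(4,1)]⟩⟩,.a ⟨true,0,⟨0,[(28,0)]⟩,⟨0,[(27,0)]⟩⟩ ⟨false,1,
  ⟨1,[(25,0),(18,0)]⟩,⟨3,[(3,0),(0,0),(10,0),(0,0),(9,0),(14,1)]⟩⟩ ⟨true,0,⟨0,[(1,0)]⟩,⟨0,[(28,0),
  (13,0)]⟩⟩]⟩) (.I [1,0,-1,0,0,0,0,0,1] (.Q [0,0,1,2,-1,0,0,0,1,1,0,-1] (.p false [0,0,0,1] [1] (⟨0,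
  [(29,0)]⟩,⟨0,[(28,0)]⟩) .k 1 (⟨0,[]⟩,⟨0,[]⟩) .k .k) (.Q [0,1,1,0,-1,0,0,0,1,0,0,-1] (.p false [0,
  0,0,1] [] (⟨0,[(30,0)]⟩,⟨0,[(29,0)]⟩) .k 0 (⟨0,[]⟩,⟨0,[]⟩) .k .k) (.K ⟨0,[0,0,0,1],0,(-1),(⟨0,
  [(31,0)]⟩,⟨0,[(30,0)]⟩),.k,(.r 0 ⟨0,[(2,0),(43,0)]⟩ ⟨59,[(10,11),(4,7),(2,23),(9,54),(0,24),(11,
  3)]⟩),(.x 0 ⟨0,[(43,0)]⟩ ⟨15,[(16,3),(3,3),(2,1),(4,6),(0,6),(11,0),(5,4)]⟩),.k,.k,[⟨0,[(31,0)]⟩,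
  ⟨0,[(30,0)]⟩,⟨1,[(28,0),(2,1),(15,0),(2,1)]⟩,⟨0,[(0,0)]⟩]⟩) (.K ⟨1,[1,0,0,-1],1,1,(⟨0,[(30,0)]⟩,
  ⟨0,[(31,0)]⟩),.k,(.x (-1) ⟨15,[(16,3),(3,3),(2,1),(4,6),(0,6),(11,0),(5,4)]⟩ ⟨0,[(43,0)]⟩),(.r
  (-1) ⟨59,[(10,11),(4,7),(2,23),(9,54),(0,24),(11,3)]⟩ ⟨0,[(0,0),(1,1),(1,0),(5,0),(2,0),(4,0)]⟩),
  .k,.k,[⟨0,[(0,0),(0,0),(2,0),(5,0),(2,0),(4,0),(27,0)]⟩,⟨3,[(28,0),(0,0),(1,3),(9,1)]⟩,⟨2,[(1,1),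
  (5,0),(2,1),(2,2),(4,0),(11,0)]⟩,⟨0,[(0,0)]⟩]⟩)) (.R ⟨1,false,false,false,[1,0,0,-1],[1,-1],[1,1,
  0,0,0,0,0,0,-1],(⟨0,[(29,0)]⟩,⟨0,[(30,0)]⟩),(⟨0,[(41,0)]⟩,⟨0,[(42,0)]⟩),⟨0,[(4,0)]⟩,.k,.k,(.x
  (-1) ⟨15,[(15,3),(3,3),(2,1),(4,6),(0,6),(11,0),(5,4)]⟩ ⟨0,[(42,0)]⟩),(.r (-1) ⟨59,[(9,11),(4,7),
  (2,23),(9,54),(0,24),(11,3)]⟩ ⟨0,[(1,0),(43,0)]⟩),.k,.k,⟨true,0,⟨1,[(17,0),(7,0),(1,0),(5,0)]⟩,⟨1,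
  [(2,0),(3,0),(36,0)]⟩⟩,⟨false,0,⟨8,[(3,2),(5,0),(7,1),(11,5),(2,1),(2,1),(4,1)]⟩,⟨0,[(30,0),(15,
  0)]⟩⟩,⟨false,0,⟨0,[]⟩,⟨3,[(27,0),(0,0),(18,1)]⟩⟩,⟨false,0,⟨0,[(7,0),(37,0)]⟩,⟨0,[(0,0),(13,0)]⟩⟩,
  ⟨true,0,⟨0,[(44,0)]⟩,⟨0,[(45,0)]⟩⟩,⟨false,0,⟨0,[(7,0)]⟩,⟨1,[(27,0),(2,1),(15,0)]⟩⟩,[.e ⟨false,1,
  ⟨1,[(27,0),(18,0),(2,1)]⟩,⟨17,[(1,10),(0,2),(6,0),(7,1),(10,1),(14,8)]⟩⟩ ⟨false,0,⟨0,[(3,0)]⟩,⟨9,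
  [(0,3),(13,5),(13,1),(1,5),(9,0),(5,2)]⟩⟩,.o ⟨false,1,⟨3,[(0,1),(6,1),(32,0),(6,0)]⟩,⟨0,[(44,
  0)]⟩⟩,.o ⟨false,1,⟨1,[(30,1),(9,0),(5,0)]⟩,⟨8,[(3,2),(5,0),(7,1),(11,5),(2,1),(2,1),(4,1)]⟩⟩,.a
  ⟨true,0,⟨0,[(30,0)]⟩,⟨0,[(29,0)]⟩⟩ ⟨false,1,⟨1,[(27,0),(18,0)]⟩,⟨13,[(2,2),(3,2),(2,1),(7,3),(10,
  3),(14,6)]⟩⟩ ⟨true,0,⟨0,[(3,0)]⟩,⟨0,[(30,0),(13,0)]⟩⟩]⟩)) (.R ⟨1,false,false,false,[1,0,0,-1],[1,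
  -1],[1,1,0,0,0,0,0,0,-1],(⟨0,[(28,0)]⟩,⟨0,[(29,0)]⟩),(⟨0,[(40,0)]⟩,⟨0,[(41,0)]⟩),⟨0,[(3,0)]⟩,.k,
  .k,(.x (-1) ⟨15,[(14,3),(3,3),(2,1),(4,6),(0,6),(11,0),(5,4)]⟩ ⟨0,[(41,0)]⟩),(.x (-1) ⟨0,[(41,0),
  (3,0)]⟩ ⟨9,[(10,1),(3,3),(11,1),(0,1),(6,4),(0,4)]⟩),.k,.k,⟨true,0,⟨2,[(0,0),(15,0),(2,0),(4,0),
  (1,0),(21,0)]⟩,⟨1,[(1,0),(3,0),(36,0)]⟩⟩,⟨false,0,⟨8,[(2,2),(5,0),(7,1),(11,5),(2,1),(2,1),(4,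
  1)]⟩,⟨0,[(29,0),(15,0)]⟩⟩,⟨false,0,⟨0,[]⟩,⟨3,[(26,0),(0,0),(18,1)]⟩⟩,⟨false,0,⟨0,[(6,0),(37,0)]⟩,
  ⟨0,[(0,0),(8,0),(2,0),(2,0),(13,0)]⟩⟩,⟨true,0,⟨0,[(43,0)]⟩,⟨0,[(44,0)]⟩⟩,⟨false,0,⟨0,[(6,0)]⟩,⟨1,
  [(26,0),(2,1),(15,0)]⟩⟩,[.e ⟨false,1,⟨1,[(26,0),(18,0),(2,1)]⟩,⟨51,[(1,45),(11,9),(2,7),(0,7),(9,
  2),(11,4),(2,21)]⟩⟩ ⟨false,0,⟨0,[(2,0)]⟩,⟨5,[(13,1),(12,0),(0,0),(1,5),(9,0),(5,2)]⟩⟩,.o ⟨false,1,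
  ⟨3,[(12,1),(18,1),(2,1),(4,0),(6,0)]⟩,⟨0,[(43,0)]⟩⟩,.o ⟨false,1,⟨1,[(29,1),(9,0),(5,0)]⟩,⟨8,[(2,
  2),(5,0),(7,1),(11,5),(2,1),(2,1),(4,1)]⟩⟩,.a ⟨true,0,⟨0,[(29,0)]⟩,⟨0,[(28,0)]⟩⟩ ⟨false,1,⟨1,[(26,
  0),(18,0)]⟩,⟨13,[(1,2),(3,2),(2,1),(7,3),(10,3),(14,6)]⟩⟩ ⟨true,0,⟨0,[(2,0)]⟩,⟨0,[(29,0),(13,
  0)]⟩⟩]⟩)))) (.R ⟨0,false,false,false,[1,0,0,-1],[1,-1],[0,1,0,0,0,0,0,0,-1],(⟨0,[(25,0)]⟩,⟨0,[(26,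
  0)]⟩),(⟨0,[(37,0)]⟩,⟨0,[(38,0)]⟩),⟨0,[(0,0)]⟩,.k,.k,(.x (-1) ⟨15,[(11,3),(3,3),(2,1),(4,6),(0,6),
  (11,0),(5,4)]⟩ ⟨0,[(38,0)]⟩),(.x (-1) ⟨0,[(38,0),(3,0)]⟩ ⟨9,[(7,1),(3,3),(11,1),(0,1),(6,4),(0,
  4)]⟩),.k,.k,⟨true,0,⟨1,[(13,0),(7,0),(1,0),(5,0)]⟩,⟨0,[(1,0),(37,0)]⟩⟩,⟨false,0,⟨0,[(19,0),(5,0),
  (2,0),(0,0)]⟩,⟨0,[(26,0),(15,0)]⟩⟩,⟨true,0,⟨0,[(45,0)]⟩,⟨0,[]⟩⟩,⟨false,0,⟨0,[(3,0),(37,0)]⟩,⟨7,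
  [(0,3),(8,0),(0,2),(0,0),(3,0),(5,0),(1,3),(2,3),(15,3)]⟩⟩,⟨false,0,⟨0,[]⟩,⟨0,[]⟩⟩,⟨false,0,⟨0,
  []⟩,⟨0,[]⟩⟩,[.a ⟨true,0,⟨0,[(41,0)]⟩,⟨2,[(10,0),(14,1),(0,1)]⟩⟩ ⟨false,1,⟨1,[(23,0),(18,0),(2,
  1)]⟩,⟨0,[(1,0),(12,0),(4,0)]⟩⟩ ⟨true,0,⟨1,[(8,0),(10,0),(5,1),(2,1),(0,1),(9,0)]⟩,⟨7,[(0,3),(8,0),
  (0,2),(0,0),(3,0),(5,0),(4,3)]⟩⟩,.o ⟨false,1,⟨3,[(9,1),(18,1),(2,1),(4,0),(6,0)]⟩,⟨0,[(40,0)]⟩⟩,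
  .o ⟨false,1,⟨1,[(26,1),(9,0),(5,0)]⟩,⟨0,[(19,0),(5,0),(2,0),(0,0)]⟩⟩,.e ⟨false,1,⟨1,[(23,0),(18,
  0)]⟩,⟨59,[(0,4),(1,32),(0,4),(3,0),(2,4),(0,1),(1,8),(0,8),(9,10),(14,22)]⟩⟩ ⟨false,1,⟨43,[(3,35),
  (1,3),(2,7),(0,15),(13,20),(0,2),(0,7),(10,3)]⟩,⟨7,[(0,3),(8,0),(0,2),(0,0),(3,0),(5,0),(4,
  3)]⟩⟩]⟩))) (.Q [0,1,2,-1,-1,0,0,0,0,0,0,-1] (.p false [0,0,0,1] [] (⟨0,[(24,0)]⟩,⟨0,[(23,0)]⟩) .k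
  0 (⟨0,[]⟩,⟨0,[]⟩) .k .k) (.Q [0,1,2,1,-1,0,-1,-1,0,0,1,-1] (.p true [0,0,1] [0,0,0,1] (⟨0,[(34,
  0)]⟩,⟨0,[(33,0)]⟩) .k 2 (⟨0,[(25,0)]⟩,⟨0,[(24,0)]⟩) .k (.x (-1) ⟨19,[(10,3),(5,7),(5,6),(0,6),(17,
  9)]⟩ ⟨3,[(6,1),(23,0),(0,0),(5,1)]⟩)) (.R ⟨1,false,false,true,[1,0,0,-1],[0,1],[1,1,0,0,0,0,0,0,
  -1],(⟨0,[(25,0)]⟩,⟨0,[(26,0)]⟩),(⟨0,[(38,0)]⟩,⟨0,[(37,0)]⟩),⟨2,[(0,2),(4,0),(0,0),(2,2),(5,1),(1,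
  0)]⟩,.k,.k,(.x (-1) ⟨15,[(11,3),(3,3),(2,1),(4,6),(0,6),(11,0),(5,4)]⟩ ⟨0,[(38,0)]⟩),(.x (-1) ⟨15,
  [(11,3),(3,3),(2,1),(4,6),(0,6),(11,0),(5,4)]⟩ ⟨0,[(38,0)]⟩),(.r (-1) ⟨15,[(2,9),(2,5),(2,11),(0,
  11),(13,2),(18,0)]⟩ ⟨59,[(5,23),(4,15),(2,47),(9,4),(0,34),(11,7)]⟩),.k,⟨false,1,⟨7,[(2,5),(2,1),
  (2,3),(0,3),(13,0),(18,2)]⟩,⟨13,[(3,7),(6,0),(1,0),(0,2),(2,3),(4,2),(2,2),(1,7)]⟩⟩,⟨true,0,⟨0,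
  [(25,0)]⟩,⟨0,[(19,0),(6,0),(1,0),(0,0)]⟩⟩,⟨false,0,⟨0,[]⟩,⟨3,[(23,0),(0,0),(18,1)]⟩⟩,⟨false,0,⟨8,
  [(1,2),(1,2),(6,3),(13,2),(0,4),(0,1)]⟩,⟨0,[(2,0),(6,0),(9,0),(6,0),(1,0),(0,0)]⟩⟩,⟨true,0,⟨0,
  [(40,0)]⟩,⟨0,[(41,0)]⟩⟩,⟨false,0,⟨2,[(0,0),(2,0),(2,0),(3,0),(13,0),(0,0)]⟩,⟨1,[(2,1),(5,0),(0,1),
  (9,0),(6,1),(1,1),(0,1),(9,0)]⟩⟩,[.o ⟨false,0,⟨0,[(40,0)]⟩,⟨3,[(9,1),(18,1),(2,1),(4,0),(6,0)]⟩⟩,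
  .a ⟨true,0,⟨2,[(10,0),(14,1),(0,1)]⟩,⟨0,[(41,0)]⟩⟩ ⟨true,0,⟨0,[(2,0),(38,0)]⟩,⟨12,[(1,2),(1,4),(9,
  0),(2,0),(4,0),(2,3),(1,7)]⟩⟩ ⟨false,0,⟨0,[(0,0),(5,0),(2,0)]⟩,⟨27,[(5,3),(2,7),(0,7),(13,0),(0,
  0),(1,27),(9,13),(5,3)]⟩⟩,.o ⟨false,1,⟨1,[(26,1),(9,0),(5,0)]⟩,⟨12,[(0,0),(0,2),(0,0),(0,4),(12,
  0),(6,1),(1,3),(10,1)]⟩⟩,.e ⟨false,1,⟨1,[(23,0),(18,0)]⟩,⟨0,[(3,0),(22,0)]⟩⟩ ⟨false,0,⟨0,[(0,0),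
  (5,0),(2,0)]⟩,⟨3,[(9,1),(16,3),(1,1),(2,1),(4,0),(6,0)]⟩⟩]⟩) (.I [0,1,0,-1,0,0,0,0,1] (.R ⟨1,
  false,false,false,[0,0,0,1],[0,1],[0,1,0,-1,0,0,0,0,1],(⟨0,[(27,0)]⟩,⟨0,[(26,0)]⟩),(⟨0,[(39,0)]⟩,
  ⟨0,[(38,0)]⟩),⟨4,[(1,3),(6,0),(0,0),(2,1),(1,1),(5,0),(1,3),(4,0)]⟩,.k,.k,(.r (-1) ⟨11,[(0,3),(9,
  3),(13,0),(0,4),(17,1)]⟩ ⟨39,[(3,9),(2,7),(4,1),(2,15),(9,14),(12,0)]⟩),(.r (-1) ⟨11,[(0,3),(9,3),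
  (13,0),(0,4),(17,1)]⟩ ⟨39,[(3,9),(2,7),(4,1),(2,15),(9,14),(12,0)]⟩),(.r (-1) ⟨0,[(1,0),(2,0),(4,
  0),(12,0)]⟩ ⟨59,[(6,23),(4,15),(2,47),(9,34),(0,4),(11,7)]⟩),.k,⟨false,1,⟨19,[(0,21),(5,1),(2,3),
  (0,5),(13,0),(18,12)]⟩,⟨39,[(3,33),(7,9),(2,7),(0,7),(8,2),(12,4),(2,15)]⟩⟩,⟨true,1,⟨3,[(1,3),(9,
  0),(1,0),(17,2)]⟩,⟨6,[(2,4),(1,1),(1,0),(7,2),(0,0),(8,0),(15,0)]⟩⟩,⟨false,0,⟨0,[(42,0)]⟩,⟨5,[(11,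
  1),(12,0),(0,0),(11,0),(6,2)]⟩⟩,⟨false,1,⟨25,[(1,15),(1,7),(7,9),(1,3),(5,5),(0,11),(3,8),(2,9),
  (16,0)]⟩,⟨19,[(0,1),(1,9),(1,7),(5,3),(14,4),(0,1),(10,0)]⟩⟩,⟨true,0,⟨0,[(46,0)]⟩,⟨0,[]⟩⟩,⟨false,
  1,⟨25,[(1,13),(1,19),(7,11),(1,9),(5,1),(0,3),(3,2),(2,11),(16,8)]⟩,⟨5,[(0,0),(1,4),(1,0),(5,2),
  (14,1),(14,0)]⟩⟩,[.a ⟨true,0,⟨2,[(11,0),(14,1),(0,1)]⟩,⟨0,[(42,0)]⟩⟩ ⟨true,0,⟨0,[(0,0)]⟩,⟨4,[(3,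
  2),(10,0),(0,0),(8,0),(15,1)]⟩⟩ ⟨false,1,⟨1,[(1,1),(9,0),(1,0),(17,0)]⟩,⟨17,[(2,9),(1,5),(5,3),
  (13,3),(0,0),(0,1),(10,0)]⟩⟩,.o ⟨false,1,⟨5,[(11,1),(12,0),(0,0),(11,0),(6,2)]⟩,⟨0,[(1,0),(0,0),
  (10,0)]⟩⟩,.o ⟨false,0,⟨23,[(2,7),(0,1),(0,7),(6,1),(12,2),(1,7),(10,4)]⟩,⟨7,[(1,3),(11,3),(10,0),
  (0,0),(1,3),(9,1)]⟩⟩,.o ⟨false,0,⟨119,[(2,59),(1,59),(1,11),(4,7),(2,23),(9,54),(0,24),(11,3)]⟩,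
  ⟨0,[(1,0),(11,0)]⟩⟩]⟩) (.K ⟨0,[1,1,-1],1,0,(⟨0,[(35,0),(3,0)]⟩,⟨4,[(10,2),(0,0),(0,2),(5,0),(0,0),
  (2,2)]⟩),.k,.k,(.r 0 ⟨11,[(11,3),(2,11),(9,4),(0,4),(11,1)]⟩ ⟨0,[(0,0),(0,0),(2,0),(1,0),(2,1),
  (12,0)]⟩),.k,.k,[⟨3,[(2,1),(2,0),(8,1),(3,0),(8,1),(7,1),(2,0),(1,0)]⟩,⟨0,[(0,0),(0,0),(2,0),(4,
  0),(12,1)]⟩,⟨1,[(5,1),(3,0),(21,0),(1,0)]⟩,⟨0,[(13,0)]⟩]⟩))) (.I [0,1,0,-1,0,0,0,0,1] (.R ⟨1,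
  false,false,false,[0,0,0,1],[0,1],[0,1,0,-1,0,0,0,0,1],(⟨0,[(26,0)]⟩,⟨0,[(25,0)]⟩),(⟨0,[(38,0)]⟩,
  ⟨0,[(37,0)]⟩),⟨4,[(1,2),(3,1),(1,0),(0,2),(2,1),(1,0),(12,1)]⟩,.k,.k,(.r (-1) ⟨11,[(0,3),(8,3),
  (13,0),(0,4),(17,1)]⟩ ⟨39,[(2,9),(2,7),(4,1),(2,15),(9,14),(12,0)]⟩),(.r (-1) ⟨11,[(0,3),(8,3),
  (13,0),(0,4),(17,1)]⟩ ⟨39,[(2,9),(2,7),(4,1),(2,15),(9,14),(12,0)]⟩),(.r (-1) ⟨0,[(1,0),(1,0),(1,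
  0),(2,1)]⟩ ⟨59,[(5,23),(4,15),(2,47),(9,34),(0,4),(11,7)]⟩),.k,⟨false,1,⟨19,[(0,21),(4,1),(2,3),
  (0,5),(13,0),(18,12)]⟩,⟨39,[(2,33),(7,9),(2,7),(0,7),(8,2),(12,4),(2,15)]⟩⟩,⟨true,1,⟨22,[(0,5),(0,
  19),(3,3),(2,9),(12,1),(1,2),(2,2),(2,1)]⟩,⟨0,[(2,0),(0,0),(1,0),(2,0),(4,0),(27,0)]⟩⟩,⟨false,0,
  ⟨0,[(41,0)]⟩,⟨5,[(10,1),(12,0),(0,0),(11,0),(6,2)]⟩⟩,⟨false,1,⟨14,[(1,9),(0,2),(10,0),(0,0),(8,5),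
  (2,4),(12,1)]⟩,⟨3,[(0,0),(2,2),(1,0),(2,1),(16,0),(2,0),(2,0)]⟩⟩,⟨true,0,⟨0,[(45,0)]⟩,⟨0,[]⟩⟩,
  ⟨false,1,⟨39,[(1,39),(0,9),(2,7),(4,1),(2,15),(9,14),(12,0)]⟩,⟨3,[(0,0),(2,2),(1,0),(2,1),(16,0),
  (2,0),(2,0),(9,3)]⟩⟩,[.a ⟨true,0,⟨2,[(10,0),(14,1),(0,1)]⟩,⟨0,[(41,0)]⟩⟩ ⟨true,0,⟨0,[(0,0)]⟩,⟨4,
  [(2,2),(10,0),(0,0),(8,0),(15,1)]⟩⟩ ⟨false,1,⟨0,[(1,0),(43,0)]⟩,⟨7,[(2,2),(0,4),(0,2),(3,4),(4,0),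
  (9,0),(1,2),(2,5),(12,1)]⟩⟩,.e ⟨false,1,⟨11,[(0,3),(8,3),(13,0),(0,4),(17,1)]⟩,⟨0,[(2,0)]⟩⟩
  ⟨false,1,⟨0,[(1,0)]⟩,⟨1,[(8,0),(16,1),(2,1),(0,0),(1,0)]⟩⟩,.o ⟨false,0,⟨7,[(2,2),(0,4),(4,1),(4,
  0),(9,0),(1,2),(2,2),(0,2)]⟩,⟨12,[(0,1),(0,5),(6,1),(9,0),(4,0),(2,6),(2,1),(6,5)]⟩⟩,.e ⟨false,1,
  ⟨11,[(0,3),(8,3),(13,0),(0,4),(17,1)]⟩,⟨4,[(2,2),(10,0),(0,0),(8,0),(15,1)]⟩⟩ ⟨false,1,⟨0,[(1,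
  0)]⟩,⟨0,[(25,0),(2,0),(2,0),(9,0)]⟩⟩]⟩) (.K ⟨0,[1,1,-1],1,0,(⟨0,[(34,0),(3,0)]⟩,⟨10,[(0,0),(0,0),
  (1,0),(5,4),(1,5),(5,0),(3,7),(13,2)]⟩),.k,.k,(.r 0 ⟨11,[(10,3),(2,11),(9,4),(0,4),(11,1)]⟩ ⟨0,
  [(0,0),(0,0),(1,0),(1,1),(2,2)]⟩),.k,.k,[⟨1,[(4,0),(8,1),(11,0),(0,0),(14,1)]⟩,⟨0,[(0,0),(0,0),(1,
  0),(1,0),(2,1),(12,0)]⟩,⟨1,[(4,1),(3,0),(21,0),(1,0)]⟩,⟨0,[(12,0)]⟩]⟩)))))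

theorem ok211 : chk (cU (-1) true 10) t211 r114 = true := by decide +kernel

end Helper11.CT.Tm1_34_m1_m1_u
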