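import Pool.Agent.Helper11.CT.T.Tm1_34_m1_m1_u_q

set_option autoImplicit false
set_option linter.all false

namespace Helper11.CT.Tm1_34_m1_m1_u

open Helper11.CT

noncomputable def t8 : Tre :=
  (.Q [0,1,0,1,0,0,1,1,0,2,-1] (.p false [-1,1,1] [1] (⟨0,[(6,0)]⟩,⟨0,[(20,0),(2,0)]⟩) .k 1 (⟨0,[]⟩,
  ⟨0,[]⟩) .k .k) (.K ⟨1,[2,-1,-1],0,0,(⟨0,[(21,0),(2,0)]⟩,⟨0,[(7,0)]⟩),.k,(.r (-1) ⟨0,[(20,0),(7,1),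
  (0,0)]⟩ ⟨2,[(0,0),(7,0),(6,1),(0,1),(9,3),(0,3)]⟩),.k,.k,.k,[⟨1,[(9,0),(2,2),(0,2)]⟩,⟨4,[(6,1),(8,
  5),(0,1),(1,0),(7,2),(0,1)]⟩,⟨0,[(0,0)]⟩,⟨0,[(1,0)]⟩]⟩) (.Q [0,1,1,0,-1,0,0,0,1,0,0,-1] (.p false
  [0,0,0,1] [] (⟨0,[(13,0)]⟩,⟨0,[(12,0)]⟩) .k 0 (⟨0,[]⟩,⟨0,[]⟩) .k .k) (.I [0,0,-1,-1,0,0,0,0,1]
  (.K ⟨0,[0,0,0,1],0,(-1),(⟨0,[(15,0)]⟩,⟨0,[(14,0)]⟩),.k,(.r 0 ⟨0,[(0,0)]⟩ ⟨1,[(12,0),(7,0),(0,0),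
  (7,1),(2,0)]⟩),(.x 0 ⟨0,[(27,0)]⟩ ⟨3,[(12,0),(0,0),(11,1),(0,3)]⟩),.k,.k,[⟨0,[(15,0)]⟩,⟨0,[(14,
  0)]⟩,⟨1,[(12,0),(2,1),(15,0),(2,1)]⟩,⟨0,[(1,0)]⟩]⟩) (.K ⟨0,[0,0,0,1],0,(-1),(⟨0,[(15,0)]⟩,⟨0,[(14,
  0)]⟩),.k,(.x 0 ⟨0,[(17,0),(2,0),(5,0)]⟩ ⟨0,[(27,0),(3,0)]⟩),(.x 0 ⟨0,[(27,0)]⟩ ⟨3,[(12,0),(0,0),
  (11,1),(0,3)]⟩),.k,.k,[⟨0,[(15,0)]⟩,⟨0,[(14,0)]⟩,⟨1,[(12,0),(2,1),(15,0),(2,1)]⟩,⟨0,[(1,0)]⟩]⟩))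
  (.Q [0,1,-1,0,0,0,0,0,-1,0,0,1] (.p true [0,0,0,1] [] (⟨0,[(14,0)]⟩,⟨0,[(13,0)]⟩) .k 0 (⟨0,[]⟩,⟨0,
  []⟩) .k .k) (.Q [0,1,1,0,0,0,0,0,1,0,0,-1] (.p false [0,0,0,1] [] (⟨0,[(15,0)]⟩,⟨0,[(14,0)]⟩) .k
  0 (⟨0,[]⟩,⟨0,[]⟩) .k .k) (.K ⟨0,[0,0,0,1],0,0,(⟨0,[(16,0)]⟩,⟨0,[(15,0)]⟩),.k,(.r (-1) ⟨1,[(14,0),
  (16,1),(0,0)]⟩ ⟨6,[(1,6),(1,1),(11,6),(2,2),(0,1),(1,2),(7,7),(0,8)]⟩),(.x 0 ⟨0,[(28,0)]⟩ ⟨3,[(13,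
  0),(0,0),(11,1),(0,3)]⟩),.k,.k,[⟨0,[(16,0)]⟩,⟨0,[(15,0)]⟩,⟨0,[(1,0)]⟩,⟨0,[(0,0)]⟩]⟩) (.Q [0,1,1,0,
  0,0,0,0,1,1,0,-1] (.p false [0,0,0,1] [1] (⟨0,[(16,0)]⟩,⟨0,[(15,0)]⟩) .k 1 (⟨0,[]⟩,⟨0,[]⟩) .k .k)
  (.R ⟨2,false,false,true,[0,1],[0,0,0,1],[1,1,0,0,0,0,0,0,1],(⟨0,[]⟩,⟨0,[]⟩),(⟨0,[(17,0)]⟩,⟨0,[(16,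
  0)]⟩),⟨0,[]⟩,.k,.k,.k,(.r 0 ⟨0,[(1,0),(14,0),(2,0),(2,0),(8,0)]⟩ ⟨1,[(15,0),(16,1),(0,0)]⟩),.k,.k,
  ⟨true,0,⟨0,[]⟩,⟨1,[(22,0),(0,0)]⟩⟩,⟨false,0,⟨6,[(4,1),(11,6),(2,2),(0,1),(1,2),(7,0),(0,1)]⟩,⟨0,
  [(2,0),(3,0)]⟩⟩,⟨false,1,⟨1,[(15,0),(16,1),(0,0)]⟩,⟨6,[(1,6),(2,0),(11,6),(2,4),(0,0),(1,4),(7,3),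
  (0,7)]⟩⟩,⟨true,0,⟨0,[(0,0),(7,0)]⟩,⟨0,[(1,0),(29,0)]⟩⟩,⟨false,1,⟨1,[(15,0),(17,0)]⟩,⟨0,[(1,0),(14,
  0),(2,0),(2,0)]⟩⟩,⟨false,1,⟨1,[(0,1),(26,0),(6,0)]⟩,⟨0,[(1,0)]⟩⟩,[.a ⟨true,0,⟨0,[(0,0)]⟩,⟨0,[(1,
  0)]⟩⟩ ⟨false,1,⟨1,[(15,0),(17,0),(2,1)]⟩,⟨6,[(1,6),(2,1),(11,6),(2,2),(0,1),(1,2),(7,0),(0,1)]⟩⟩
  ⟨true,0,⟨6,[(0,6),(3,1),(14,2),(0,1),(1,2),(7,0),(0,1)]⟩,⟨0,[(1,0)]⟩⟩,.o ⟨false,1,⟨1,[(0,1),(26,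
  0),(6,0)]⟩,⟨3,[(1,2),(0,0),(1,1),(15,1),(10,1)]⟩⟩,.o ⟨false,1,⟨3,[(14,0),(0,0),(17,1)]⟩,⟨6,[(4,1),
  (14,2),(0,1),(1,2),(7,0),(0,1)]⟩⟩,.e ⟨false,1,⟨1,[(15,0),(17,0)]⟩,⟨0,[(1,0),(14,0),(2,0),(2,0)]⟩⟩
  ⟨false,1,⟨1,[(0,1),(26,0),(6,0)]⟩,⟨0,[(1,0)]⟩⟩]⟩) (.Q [0,0,0,0,0,1,0,0,0,-1,0,1] (.ed false [0,1,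
  0,1] .k) (.Q [0,0,0,0,0,0,1,0,0,0,-1,1] (.p false [0,0,1] [0,0,0,1] (⟨0,[(27,0)]⟩,⟨0,[(26,0)]⟩)
  .k 2 (⟨0,[(18,0)]⟩,⟨0,[(17,0)]⟩) .k (.r 0 ⟨0,[(2,0),(14,0),(2,0),(0,0)]⟩ ⟨3,[(15,0),(0,2),(8,
  3)]⟩)) (.R ⟨0,false,false,false,[1,0,0,-1],[1,0,-1],[0,1,0,0,0,0,0,0,-1],(⟨0,[(18,0)]⟩,⟨0,[(19,
  0)]⟩),(⟨0,[(27,0)]⟩,⟨0,[(28,0)]⟩),⟨0,[(1,0)]⟩,.k,.k,(.x (-1) ⟨3,[(16,0),(0,0),(11,1),(0,3)]⟩ ⟨0,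
  [(31,0)]⟩),.k,.k,.k,⟨false,0,⟨3,[(2,1),(0,0),(0,0),(6,1),(2,1),(3,3),(3,3)]⟩,⟨1,[(17,0),(8,1),(9,
  0)]⟩⟩,⟨true,0,⟨0,[(18,0),(2,0)]⟩,⟨0,[(0,0)]⟩⟩,⟨true,0,⟨0,[(38,0)]⟩,⟨0,[]⟩⟩,⟨false,1,⟨1,[(17,0),(0,
  1),(2,1),(4,1),(9,0)]⟩,⟨0,[(3,0),(18,0)]⟩⟩,⟨false,0,⟨0,[]⟩,⟨0,[]⟩⟩,⟨false,0,⟨0,[]⟩,⟨0,[]⟩⟩,[.o
  ⟨false,0,⟨0,[(9,0)]⟩,⟨3,[(16,0),(0,0),(4,3),(13,1)]⟩⟩,.o ⟨false,1,⟨3,[(9,1),(13,1),(5,0),(6,2)]⟩,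
  ⟨0,[(22,0)]⟩⟩,.o ⟨false,1,⟨5,[(2,1),(1,2),(0,0),(11,2),(11,1)]⟩,⟨6,[(6,1),(11,6),(2,2),(0,1),(1,
  2),(7,0),(0,1)]⟩⟩,.a ⟨true,0,⟨0,[(19,0)]⟩,⟨0,[(18,0)]⟩⟩ ⟨false,0,⟨6,[(2,4),(1,1),(7,0),(5,6),(3,
  0),(10,0)]⟩,⟨1,[(17,0),(6,0),(0,0),(10,0)]⟩⟩ ⟨true,0,⟨0,[(9,0),(8,0)]⟩,⟨0,[(19,0),(2,0)]⟩⟩]⟩) (.Q
  [0,0,0,-1,0,0,1,1,0,0,-1] (.p false [0,0,1] [] (⟨0,[(28,0)]⟩,⟨0,[(27,0)]⟩) .k 0 (⟨0,[]⟩,⟨0,[]⟩)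
  .k .k) (.R ⟨2,true,false,false,[0,1],[0,0,1],[0,1,1],(⟨0,[]⟩,⟨0,[]⟩),(⟨0,[(29,0)]⟩,⟨0,[(28,0)]⟩),
  ⟨0,[]⟩,.k,.k,.k,.k,.k,.k,⟨false,0,⟨1,[(16,0),(4,0),(2,0)]⟩,⟨1,[(0,0),(0,0),(2,0),(4,0),(5,0),(7,
  0),(13,0)]⟩⟩,⟨true,0,⟨0,[(25,0)]⟩,⟨0,[(1,0),(18,0)]⟩⟩,⟨false,0,⟨0,[(35,0)]⟩,⟨0,[(34,0),(2,0)]⟩⟩,
  ⟨true,0,⟨0,[(0,0)]⟩,⟨0,[(15,0),(11,0)]⟩⟩,⟨true,0,⟨0,[(39,0)]⟩,⟨0,[]⟩⟩,⟨false,1,⟨0,[(23,0),(13,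
  0)]⟩,⟨1,[(8,0),(6,0),(3,0),(0,0),(6,0)]⟩⟩,[]⟩) (.R ⟨0,false,false,false,[1,0,-1],[1,-1],[1,1],(⟨0,
  [(28,0)]⟩,⟨0,[(29,0)]⟩),(⟨0,[(31,0)]⟩,⟨0,[(32,0)]⟩),⟨0,[(14,0)]⟩,.k,.k,.k,.k,.k,.k,⟨false,0,⟨0,
  [(34,0)]⟩,⟨1,[(35,1),(0,0),(0,0)]⟩⟩,⟨true,0,⟨0,[(25,0)]⟩,⟨0,[(1,0),(18,0)]⟩⟩,⟨true,0,⟨0,[(1,0),
  (18,0),(2,0)]⟩,⟨0,[(27,0)]⟩⟩,⟨false,1,⟨0,[(23,0),(11,0),(1,0)]⟩,⟨0,[(0,0)]⟩⟩,⟨false,0,⟨0,[]⟩,⟨0,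
  []⟩⟩,⟨false,0,⟨0,[]⟩,⟨0,[]⟩⟩,[.o ⟨false,0,⟨0,[(11,0)]⟩,⟨3,[(17,0),(0,0),(15,3),(2,1)]⟩⟩,.o ⟨false,
  1,⟨1,[(30,0),(4,1),(1,0)]⟩,⟨0,[(34,0)]⟩⟩,.a ⟨true,0,⟨0,[(1,0),(18,0)]⟩,⟨1,[(16,0),(2,0),(0,0)]⟩⟩
  ⟨false,0,⟨0,[]⟩,⟨3,[(17,0),(0,0),(18,1)]⟩⟩ ⟨true,0,⟨1,[(11,0),(4,0),(18,0)]⟩,⟨0,[(15,0)]⟩⟩,.o
  ⟨false,0,⟨0,[(22,0)]⟩,⟨7,[(16,3),(0,0),(0,0),(11,1),(5,3)]⟩⟩]⟩))) (.I [0,0,-2,-2,0,0,0,0,-1] (.R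
  ⟨1,false,false,true,[1,0,0,-1],[0,1],[0,1,0,-1,0,0,0,0,-1],(⟨0,[(18,0)]⟩,⟨0,[(19,0)]⟩),(⟨0,[(31,
  0)]⟩,⟨0,[(30,0)]⟩),⟨0,[(1,0)]⟩,.k,.k,(.x (-1) ⟨3,[(16,0),(0,0),(11,1),(0,3)]⟩ ⟨0,[(31,0)]⟩),(.x
  (-1) ⟨3,[(16,0),(0,0),(11,1),(0,3)]⟩ ⟨0,[(31,0)]⟩),(.r 0 ⟨0,[(0,0)]⟩ ⟨3,[(17,1),(6,2),(0,2),(6,1),
  (0,7),(2,1)]⟩),.k,⟨false,0,⟨0,[(0,0)]⟩,⟨3,[(17,1),(6,0),(0,0),(6,1),(0,7),(2,1)]⟩⟩,⟨true,0,⟨0,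
  [(18,0)]⟩,⟨6,[(6,1),(12,6),(1,2),(0,1),(1,2),(7,0),(0,1)]⟩⟩,⟨false,0,⟨0,[(34,0)]⟩,⟨0,[(33,0),(2,
  0)]⟩⟩,⟨false,1,⟨1,[(17,0),(0,1),(5,0),(0,0),(7,1),(2,0)]⟩,⟨0,[(3,0),(6,0)]⟩⟩,⟨true,0,⟨0,[(38,0)]⟩,
  ⟨0,[]⟩⟩,⟨false,1,⟨3,[(17,1),(0,3),(5,0),(0,0),(6,1),(0,7),(2,1)]⟩,⟨0,[(3,0),(6,0),(23,0)]⟩⟩,[.o
  ⟨false,0,⟨0,[(33,0)]⟩,⟨1,[(29,0),(4,1),(1,0)]⟩⟩,.o ⟨false,1,⟨3,[(16,0),(0,0),(15,3),(2,1)]⟩,⟨0,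
  [(10,0)]⟩⟩,.o ⟨false,1,⟨5,[(2,1),(1,2),(0,0),(11,2),(11,1)]⟩,⟨6,[(6,1),(11,6),(2,2),(0,1),(1,2),
  (7,0),(0,1)]⟩⟩,.a ⟨true,0,⟨0,[(19,0)]⟩,⟨0,[(18,0)]⟩⟩ ⟨false,0,⟨3,[(0,1),(1,0),(1,0),(13,1),(2,0),
  (2,0)]⟩,⟨3,[(17,1),(6,0),(0,0),(6,1),(0,3),(2,1)]⟩⟩ ⟨true,0,⟨0,[(18,0),(14,0)]⟩,⟨0,[(10,0),(8,
  0)]⟩⟩]⟩) (.Q [0,0,0,0,0,0,1,0,0,0,-1,1] (.p false [0,0,1] [0,0,0,1] (⟨0,[(28,0)]⟩,⟨0,[(27,0)]⟩)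
  .k 2 (⟨0,[(19,0)]⟩,⟨0,[(18,0)]⟩) .k (.r 0 ⟨0,[(3,0),(14,0),(2,0),(0,0)]⟩ ⟨3,[(16,0),(0,2),(8,
  3)]⟩)) (.R ⟨1,false,false,false,[1,0,0,-1],[1,0,-1],[0,0,0,-1,0,0,0,0,-1],(⟨0,[(19,0)]⟩,⟨0,[(20,
  0)]⟩),(⟨0,[(28,0)]⟩,⟨0,[(29,0)]⟩),⟨0,[(2,0)]⟩,.k,.k,(.x (-1) ⟨3,[(17,0),(0,0),(11,1),(0,3)]⟩ ⟨0,
  [(32,0)]⟩),.k,(.r 0 ⟨0,[(4,0),(7,0),(6,0),(3,0)]⟩ ⟨7,[(1,3),(15,2),(0,4),(8,7)]⟩),.k,⟨false,0,⟨0,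
  [(4,0),(7,0),(6,0),(3,0)]⟩,⟨7,[(1,3),(15,0),(0,2),(8,7),(8,3)]⟩⟩,⟨true,0,⟨0,[(19,0),(2,0)]⟩,⟨0,
  [(0,0)]⟩⟩,⟨true,0,⟨0,[(35,0)]⟩,⟨0,[(34,0)]⟩⟩,⟨false,1,⟨7,[(1,3),(6,7),(8,2),(0,4),(0,7)]⟩,⟨0,[(4,
  0),(18,0)]⟩⟩,⟨false,1,⟨3,[(17,0),(0,0),(18,1)]⟩,⟨0,[]⟩⟩,⟨false,1,⟨7,[(1,3),(8,5),(7,1),(0,7),(4,
  1),(5,0),(6,4)]⟩,⟨0,[(4,0),(18,0),(11,0)]⟩⟩,[.o ⟨false,0,⟨0,[(10,0)]⟩,⟨3,[(17,0),(0,0),(4,3),(13,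
  1)]⟩⟩,.o ⟨false,1,⟨3,[(10,1),(13,1),(5,0),(6,2)]⟩,⟨0,[(23,0)]⟩⟩,.o ⟨false,1,⟨5,[(3,1),(1,2),(0,0),
  (11,2),(11,1)]⟩,⟨10,[(1,0),(1,0),(3,2),(11,11),(2,4),(0,2),(1,4),(8,0)]⟩⟩,.a ⟨true,0,⟨0,[(20,0)]⟩,
  ⟨0,[(19,0)]⟩⟩ ⟨false,0,⟨0,[(4,0),(6,0),(7,0)]⟩,⟨7,[(1,3),(15,2),(0,4)]⟩⟩ ⟨true,0,⟨0,[(10,0),(8,
  0)]⟩,⟨0,[(20,0),(2,0)]⟩⟩]⟩) (.Q [0,0,0,1,0,0,-1,-1,0,0,1] (.p true [0,0,1] [] (⟨0,[(29,0)]⟩,⟨0,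
  [(28,0)]⟩) .k 0 (⟨0,[]⟩,⟨0,[]⟩) .k .k) (.R ⟨0,false,false,false,[1,0,-1],[1,-1],[1,1],(⟨0,[(29,
  0)]⟩,⟨0,[(30,0)]⟩),(⟨0,[(32,0)]⟩,⟨0,[(33,0)]⟩),⟨0,[(15,0)]⟩,.k,.k,.k,.k,.k,.k,⟨false,0,⟨0,[(35,
  0)]⟩,⟨1,[(36,1),(0,0),(0,0)]⟩⟩,⟨true,0,⟨0,[(26,0)]⟩,⟨0,[(1,0),(19,0)]⟩⟩,⟨true,0,⟨0,[(1,0),(19,0),
  (2,0)]⟩,⟨0,[(28,0)]⟩⟩,⟨false,1,⟨0,[(24,0),(11,0),(1,0)]⟩,⟨0,[(0,0)]⟩⟩,⟨false,0,⟨0,[]⟩,⟨0,[]⟩⟩,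
  ⟨false,0,⟨0,[]⟩,⟨0,[]⟩⟩,[.o ⟨false,0,⟨0,[(12,0)]⟩,⟨7,[(2,3),(15,2),(0,0),(17,3)]⟩⟩,.o ⟨false,1,⟨1,
  [(31,0),(4,1),(1,0)]⟩,⟨0,[(35,0)]⟩⟩,.a ⟨true,0,⟨0,[(1,0),(19,0)]⟩,⟨1,[(17,0),(2,0),(0,0)]⟩⟩
  ⟨false,0,⟨0,[]⟩,⟨3,[(18,0),(0,0),(18,1)]⟩⟩ ⟨true,0,⟨1,[(12,0),(4,0),(18,0)]⟩,⟨0,[(16,0)]⟩⟩,.o
  ⟨false,0,⟨0,[(23,0)]⟩,⟨7,[(17,3),(0,0),(0,0),(11,1),(5,3)]⟩⟩]⟩) (.R ⟨2,true,false,false,[0,1],[0,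
  0,1],[0,1,1],(⟨0,[]⟩,⟨0,[]⟩),(⟨0,[(30,0)]⟩,⟨0,[(29,0)]⟩),⟨0,[]⟩,.k,.k,.k,.k,.k,.k,⟨false,0,⟨1,
  [(17,0),(4,0),(2,0)]⟩,⟨1,[(0,0),(0,0),(3,0),(4,0),(5,0),(7,0),(13,0)]⟩⟩,⟨true,0,⟨0,[(26,0)]⟩,⟨0,
  [(1,0),(19,0)]⟩⟩,⟨false,0,⟨0,[(36,0)]⟩,⟨0,[(35,0),(2,0)]⟩⟩,⟨true,0,⟨0,[(0,0)]⟩,⟨0,[(16,0),(11,
  0)]⟩⟩,⟨true,0,⟨0,[(40,0)]⟩,⟨0,[]⟩⟩,⟨false,1,⟨0,[(24,0),(13,0)]⟩,⟨1,[(9,0),(6,0),(3,0),(0,0),(6,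
  0)]⟩⟩,[]⟩))))))) (.Q [0,1,-1,-1,0,0,0,0,-1,-1,0,1] (.p true [0,0,0,1] [1] (⟨0,[(15,0)]⟩,⟨0,[(14,
  0)]⟩) .k 1 (⟨0,[]⟩,⟨0,[]⟩) .k .k) (.R ⟨2,true,false,true,[0,1],[1,0,0,-1],[0,1,1],(⟨0,[]⟩,⟨0,[]⟩),
  (⟨0,[(15,0)]⟩,⟨0,[(16,0)]⟩),⟨0,[]⟩,.k,.k,.k,(.x 0 ⟨0,[(28,0)]⟩ ⟨3,[(13,0),(0,0),(11,1),(0,3)]⟩),
  .k,.k,⟨true,0,⟨0,[(1,0),(14,0),(18,0)]⟩,⟨0,[(0,0),(14,0),(13,0),(0,0)]⟩⟩,⟨false,1,⟨1,[(16,1),(9,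
  0),(5,0)]⟩,⟨0,[(15,0)]⟩⟩,⟨false,0,⟨0,[(31,0)]⟩,⟨0,[(30,0),(2,0)]⟩⟩,⟨true,0,⟨0,[(0,0)]⟩,⟨1,[(1,1),
  (9,1),(0,0),(2,0),(0,0)]⟩⟩,⟨true,0,⟨0,[(35,0)]⟩,⟨0,[]⟩⟩,⟨false,1,⟨2,[(0,0),(1,1),(23,0),(3,0)]⟩,
  ⟨0,[(1,0),(13,0),(0,0)]⟩⟩,[]⟩) (.I [0,0,-2,-1,1,0,0,0,-1] (.Q [0,0,0,0,0,1,0,0,0,-1,0,1] (.ed
  false [0,1,0,1] .k) (.R ⟨0,false,false,true,[1,0,0,-1],[0,1],[0,1,0,0,0,0,0,0,-1],(⟨0,[(17,0)]⟩,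
  ⟨0,[(18,0)]⟩),(⟨0,[(30,0)]⟩,⟨0,[(29,0)]⟩),⟨0,[(0,0)]⟩,.k,.k,(.x (-1) ⟨3,[(15,0),(0,0),(11,1),(0,
  3)]⟩ ⟨0,[(30,0)]⟩),(.x (-1) ⟨3,[(15,0),(0,0),(11,1),(0,3)]⟩ ⟨0,[(30,0)]⟩),.k,.k,⟨false,1,⟨0,[(1,
  0)]⟩,⟨0,[(3,0),(14,0),(13,0)]⟩⟩,⟨true,0,⟨0,[(17,0)]⟩,⟨6,[(5,1),(12,6),(1,2),(0,1),(1,2),(7,0),(0,
  1)]⟩⟩,⟨true,0,⟨0,[(37,0)]⟩,⟨0,[]⟩⟩,⟨false,0,⟨0,[(2,0),(34,0)]⟩,⟨0,[(4,0),(4,0)]⟩⟩,⟨false,0,⟨0,[]⟩,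
  ⟨0,[]⟩⟩,⟨false,0,⟨0,[]⟩,⟨0,[]⟩⟩,[.o ⟨false,0,⟨0,[(32,0)]⟩,⟨1,[(28,0),(4,1),(1,0)]⟩⟩,.o ⟨false,1,
  ⟨3,[(15,0),(0,0),(15,3),(2,1)]⟩,⟨0,[(9,0)]⟩⟩,.o ⟨false,1,⟨1,[(18,1),(9,0),(5,0)]⟩,⟨6,[(5,1),(11,
  6),(2,2),(0,1),(1,2),(7,0),(0,1)]⟩⟩,.a ⟨true,0,⟨0,[(18,0)]⟩,⟨0,[(17,0)]⟩⟩ ⟨false,1,⟨1,[(15,0),(18,
  0)]⟩,⟨0,[(3,0),(14,0)]⟩⟩ ⟨true,0,⟨0,[(17,0),(14,0)]⟩,⟨0,[(9,0),(8,0)]⟩⟩]⟩) (.R ⟨1,false,false,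
  true,[1,0,0,-1],[0,1],[1,1,0,0,0,0,0,0,-1],(⟨0,[(17,0)]⟩,⟨0,[(18,0)]⟩),(⟨0,[(30,0)]⟩,⟨0,[(29,
  0)]⟩),⟨0,[(0,0)]⟩,.k,.k,(.x (-1) ⟨3,[(15,0),(0,0),(11,1),(0,3)]⟩ ⟨0,[(30,0)]⟩),(.x (-1) ⟨3,[(15,
  0),(0,0),(11,1),(0,3)]⟩ ⟨0,[(30,0)]⟩),(.r (-1) ⟨0,[(1,0),(31,0)]⟩ ⟨2,[(2,0),(0,1),(14,2),(1,0),(2,
  0),(7,0),(0,4)]⟩),.k,⟨false,1,⟨0,[(1,0)]⟩,⟨0,[(3,0),(14,0),(13,0)]⟩⟩,⟨true,0,⟨0,[(17,0)]⟩,⟨6,[(5,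
  1),(12,6),(1,2),(0,1),(1,2),(7,0),(0,1)]⟩⟩,⟨false,0,⟨0,[]⟩,⟨3,[(15,0),(0,0),(18,1)]⟩⟩,⟨false,0,⟨0,
  [(2,0),(34,0)]⟩,⟨0,[(4,0),(4,0)]⟩⟩,⟨true,0,⟨0,[(32,0)]⟩,⟨0,[(33,0)]⟩⟩,⟨false,0,⟨0,[(2,0),(29,0)]⟩,
  ⟨0,[(4,0),(4,0),(23,0)]⟩⟩,[.o ⟨false,0,⟨0,[(32,0)]⟩,⟨1,[(28,0),(4,1),(1,0)]⟩⟩,.o ⟨false,1,⟨3,[(15,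
  0),(0,0),(15,3),(2,1)]⟩,⟨0,[(9,0)]⟩⟩,.o ⟨false,1,⟨1,[(18,1),(9,0),(5,0)]⟩,⟨6,[(5,1),(11,6),(2,2),
  (0,1),(1,2),(7,0),(0,1)]⟩⟩,.a ⟨true,0,⟨0,[(18,0)]⟩,⟨0,[(17,0)]⟩⟩ ⟨false,1,⟨1,[(15,0),(18,0)]⟩,⟨0,
  [(3,0),(14,0)]⟩⟩ ⟨true,0,⟨0,[(17,0),(14,0)]⟩,⟨0,[(9,0),(8,0)]⟩⟩]⟩)) (.Q [0,0,0,0,0,1,0,0,0,-1,0,
  1] (.ed false [0,1,0,1] .k) (.Q [0,0,0,0,0,0,1,0,0,0,-1,1] (.p false [0,0,1] [0,0,0,1] (⟨0,[(27,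
  0)]⟩,⟨0,[(26,0)]⟩) .k 2 (⟨0,[(18,0)]⟩,⟨0,[(17,0)]⟩) .k (.r (-1) ⟨9,[(4,3),(5,3),(2,3),(1,2),(1,3),
  (3,9),(2,1),(6,1),(3,2)]⟩ ⟨0,[(1,0),(23,0),(7,0),(0,0)]⟩)) (.R ⟨0,false,false,false,[1,0,0,-1],[1,
  0,-1],[0,1,0,0,0,0,0,0,-1],(⟨0,[(18,0)]⟩,⟨0,[(19,0)]⟩),(⟨0,[(27,0)]⟩,⟨0,[(28,0)]⟩),⟨0,[(1,0)]⟩,.k,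
  .k,(.x (-1) ⟨3,[(16,0),(0,0),(11,1),(0,3)]⟩ ⟨0,[(31,0)]⟩),.k,.k,.k,⟨false,1,⟨3,[(5,1),(5,1),(2,1),
  (1,0),(1,1),(3,3),(12,0)]⟩,⟨1,[(2,1),(4,1),(7,0),(2,0),(0,0),(15,1)]⟩⟩,⟨true,0,⟨0,[(18,0),(2,0)]⟩,
  ⟨0,[(0,0)]⟩⟩,⟨true,0,⟨0,[(38,0)]⟩,⟨0,[]⟩⟩,⟨false,0,⟨1,[(3,0),(0,0),(2,0),(15,0)]⟩,⟨0,[(5,0),(16,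
  0)]⟩⟩,⟨false,0,⟨0,[]⟩,⟨0,[]⟩⟩,⟨false,0,⟨0,[]⟩,⟨0,[]⟩⟩,[.o ⟨false,0,⟨0,[(9,0)]⟩,⟨3,[(16,0),(0,0),
  (4,3),(13,1)]⟩⟩,.o ⟨false,1,⟨3,[(9,1),(13,1),(5,0),(6,2)]⟩,⟨0,[(22,0)]⟩⟩,.o ⟨false,1,⟨1,[(19,1),
  (9,0),(5,0)]⟩,⟨5,[(2,1),(1,1),(1,0),(5,0),(3,1),(1,3),(3,1)]⟩⟩,.a ⟨true,0,⟨0,[(19,0)]⟩,⟨0,[(18,
  0)]⟩⟩ ⟨false,1,⟨1,[(16,0),(18,0)]⟩,⟨4,[(2,1),(5,0),(8,0),(14,1),(1,1)]⟩⟩ ⟨true,0,⟨0,[(9,0),(8,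
  0)]⟩,⟨0,[(19,0),(2,0)]⟩⟩]⟩) (.Q [0,0,0,1,0,0,-1,-1,0,0,1] (.p true [0,0,1] [] (⟨0,[(28,0)]⟩,⟨0,
  [(27,0)]⟩) .k 0 (⟨0,[]⟩,⟨0,[]⟩) .k .k) (.R ⟨0,false,false,false,[1,0,-1],[1,-1],[1,1],(⟨0,[(28,
  0)]⟩,⟨0,[(29,0)]⟩),(⟨0,[(31,0)]⟩,⟨0,[(32,0)]⟩),⟨0,[(14,0)]⟩,.k,.k,.k,.k,.k,.k,⟨false,0,⟨0,[(34,
  0)]⟩,⟨1,[(35,1),(0,0),(0,0)]⟩⟩,⟨true,0,⟨0,[(25,0)]⟩,⟨0,[(1,0),(18,0)]⟩⟩,⟨true,0,⟨0,[(1,0),(18,0),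
  (2,0)]⟩,⟨0,[(27,0)]⟩⟩,⟨false,1,⟨0,[(23,0),(11,0),(1,0)]⟩,⟨0,[(0,0)]⟩⟩,⟨false,0,⟨0,[]⟩,⟨0,[]⟩⟩,
  ⟨false,0,⟨0,[]⟩,⟨0,[]⟩⟩,[.o ⟨false,0,⟨0,[(11,0)]⟩,⟨3,[(17,0),(0,0),(15,3),(2,1)]⟩⟩,.o ⟨false,1,⟨1,
  [(30,0),(4,1),(1,0)]⟩,⟨0,[(34,0)]⟩⟩,.a ⟨true,0,⟨0,[(1,0),(18,0)]⟩,⟨1,[(16,0),(2,0),(0,0)]⟩⟩
  ⟨false,0,⟨0,[]⟩,⟨3,[(17,0),(0,0),(18,1)]⟩⟩ ⟨true,0,⟨1,[(11,0),(4,0),(18,0)]⟩,⟨0,[(15,0)]⟩⟩,.o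
  ⟨false,0,⟨0,[(22,0)]⟩,⟨7,[(16,3),(0,0),(0,0),(11,1),(5,3)]⟩⟩]⟩) (.R ⟨2,true,false,false,[0,1],[0,
  0,1],[0,1,1],(⟨0,[]⟩,⟨0,[]⟩),(⟨0,[(29,0)]⟩,⟨0,[(28,0)]⟩),⟨0,[]⟩,.k,.k,.k,.k,.k,.k,⟨false,0,⟨1,
  [(16,0),(4,0),(2,0)]⟩,⟨0,[(0,0),(14,0),(17,0),(2,0)]⟩⟩,⟨true,0,⟨0,[(25,0)]⟩,⟨0,[(1,0),(18,0)]⟩⟩,
  ⟨false,0,⟨0,[(35,0)]⟩,⟨0,[(34,0),(2,0)]⟩⟩,⟨true,0,⟨0,[(0,0)]⟩,⟨0,[(15,0),(11,0)]⟩⟩,⟨true,0,⟨0,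
  [(39,0)]⟩,⟨0,[]⟩⟩,⟨false,1,⟨0,[(23,0),(13,0)]⟩,⟨1,[(8,0),(6,0),(3,0),(0,0),(6,0)]⟩⟩,[]⟩))) (.I [0,
  0,-2,-2,1,0,0,0,-1] (.R ⟨1,false,false,true,[1,0,0,-1],[0,1],[1,1,2,1],(⟨0,[(18,0)]⟩,⟨0,[(19,
  0)]⟩),(⟨0,[(31,0)]⟩,⟨0,[(30,0)]⟩),⟨0,[(1,0)]⟩,.k,.k,(.x (-1) ⟨3,[(16,0),(0,0),(11,1),(0,3)]⟩ ⟨0,
  [(31,0)]⟩),(.x (-1) ⟨3,[(16,0),(0,0),(11,1),(0,3)]⟩ ⟨0,[(31,0)]⟩),(.r (-1) ⟨0,[(0,0)]⟩ ⟨3,[(2,3),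
  (13,0),(0,0),(15,3),(2,1)]⟩),.k,⟨false,0,⟨0,[]⟩,⟨3,[(16,0),(0,0),(17,1)]⟩⟩,⟨true,0,⟨0,[(18,0)]⟩,
  ⟨7,[(2,1),(3,1),(9,0),(2,7),(1,1),(0,1),(1,1),(4,0)]⟩⟩,⟨false,(-1),⟨0,[(2,0)]⟩,⟨3,[(0,1),(7,1),(7,
  1),(18,0),(0,0)]⟩⟩,⟨false,0,⟨0,[(3,0),(34,0)]⟩,⟨0,[(5,0),(4,0)]⟩⟩,⟨true,(-1),⟨0,[(2,0),(30,0)]⟩,
  ⟨0,[(0,0)]⟩⟩,⟨false,0,⟨0,[(3,0),(29,0)]⟩,⟨3,[(0,1),(4,1),(4,2),(0,0),(7,1),(4,0),(7,0)]⟩⟩,[.o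
  ⟨false,0,⟨0,[(33,0)]⟩,⟨1,[(29,0),(4,1),(1,0)]⟩⟩,.o ⟨false,1,⟨3,[(16,0),(0,0),(15,3),(2,1)]⟩,⟨0,
  [(10,0)]⟩⟩,.o ⟨false,1,⟨1,[(19,1),(9,0),(5,0)]⟩,⟨5,[(2,1),(1,1),(1,0),(5,0),(3,1),(1,3),(3,1)]⟩⟩,
  .a ⟨true,0,⟨0,[(19,0)]⟩,⟨0,[(18,0)]⟩⟩ ⟨false,0,⟨3,[(2,1),(13,0),(16,1),(2,0)]⟩,⟨7,[(0,3),(7,1),(8,
  0),(14,1),(3,0)]⟩⟩ ⟨true,0,⟨0,[(18,0),(14,0)]⟩,⟨0,[(10,0),(8,0)]⟩⟩]⟩) (.Q [0,0,0,0,0,0,1,0,0,0,-1,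
  1] (.p false [0,0,1] [0,0,0,1] (⟨0,[(28,0)]⟩,⟨0,[(27,0)]⟩) .k 2 (⟨0,[(19,0)]⟩,⟨0,[(18,0)]⟩) .k
  (.r (-1) ⟨9,[(5,3),(5,3),(2,3),(1,2),(1,3),(3,9),(2,1),(6,1),(3,2)]⟩ ⟨0,[(2,0),(23,0),(7,0),(0,
  0)]⟩)) (.R ⟨1,false,false,false,[1,0,0,-1],[1,0,-1],[0,0,0,-1,0,0,0,0,-1],(⟨0,[(19,0)]⟩,⟨0,[(20,
  0)]⟩),(⟨0,[(28,0)]⟩,⟨0,[(29,0)]⟩),⟨0,[(2,0)]⟩,.k,.k,(.x (-1) ⟨3,[(17,0),(0,0),(11,1),(0,3)]⟩ ⟨0,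
  [(32,0)]⟩),.k,(.r (-1) ⟨0,[(6,0),(5,0),(6,0),(3,0)]⟩ ⟨7,[(1,3),(15,0),(0,2),(8,7)]⟩),.k,⟨false,1,
  ⟨0,[(6,0),(5,0),(6,0),(3,0)]⟩,⟨0,[(3,0),(23,0),(8,0)]⟩⟩,⟨true,0,⟨0,[(19,0),(2,0)]⟩,⟨0,[(0,0)]⟩⟩,
  ⟨true,0,⟨0,[(35,0)]⟩,⟨0,[(34,0)]⟩⟩,⟨false,0,⟨1,[(4,0),(0,0),(2,0),(15,0)]⟩,⟨0,[(6,0),(16,0)]⟩⟩,
  ⟨false,1,⟨3,[(17,0),(0,0),(18,1)]⟩,⟨0,[]⟩⟩,⟨false,0,⟨0,[(4,0),(5,0)]⟩,⟨0,[(6,0),(16,0),(11,0)]⟩⟩,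
  [.o ⟨false,0,⟨0,[(10,0)]⟩,⟨3,[(17,0),(0,0),(4,3),(13,1)]⟩⟩,.o ⟨false,1,⟨3,[(10,1),(13,1),(5,0),(6,
  2)]⟩,⟨0,[(23,0)]⟩⟩,.o ⟨false,1,⟨1,[(20,1),(9,0),(5,0)]⟩,⟨5,[(3,1),(1,1),(1,0),(5,0),(3,1),(1,3),
  (3,1)]⟩⟩,.a ⟨true,0,⟨0,[(20,0)]⟩,⟨0,[(19,0)]⟩⟩ ⟨false,1,⟨0,[(6,0),(4,0),(7,0)]⟩,⟨7,[(1,3),(15,0),
  (0,2)]⟩⟩ ⟨true,0,⟨0,[(10,0),(8,0)]⟩,⟨0,[(20,0),(2,0)]⟩⟩]⟩) (.Q [0,0,0,1,0,0,-1,-1,0,0,1] (.p true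
  [0,0,1] [] (⟨0,[(29,0)]⟩,⟨0,[(28,0)]⟩) .k 0 (⟨0,[]⟩,⟨0,[]⟩) .k .k) (.R ⟨0,false,false,false,[1,0,
  -1],[1,-1],[1,1],(⟨0,[(29,0)]⟩,⟨0,[(30,0)]⟩),(⟨0,[(32,0)]⟩,⟨0,[(33,0)]⟩),⟨0,[(15,0)]⟩,.k,.k,.k,.k,
  .k,.k,⟨false,0,⟨0,[(35,0)]⟩,⟨1,[(36,1),(0,0),(0,0)]⟩⟩,⟨true,0,⟨0,[(26,0)]⟩,⟨0,[(1,0),(19,0)]⟩⟩,
  ⟨true,0,⟨0,[(1,0),(19,0),(2,0)]⟩,⟨0,[(28,0)]⟩⟩,⟨false,1,⟨0,[(24,0),(11,0),(1,0)]⟩,⟨0,[(0,0)]⟩⟩,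
  ⟨false,0,⟨0,[]⟩,⟨0,[]⟩⟩,⟨false,0,⟨0,[]⟩,⟨0,[]⟩⟩,[.o ⟨false,0,⟨0,[(12,0)]⟩,⟨3,[(18,0),(0,0),(15,3),
  (2,1)]⟩⟩,.o ⟨false,1,⟨1,[(31,0),(4,1),(1,0)]⟩,⟨0,[(35,0)]⟩⟩,.a ⟨true,0,⟨0,[(1,0),(19,0)]⟩,⟨1,[(17,
  0),(2,0),(0,0)]⟩⟩ ⟨false,0,⟨0,[]⟩,⟨3,[(18,0),(0,0),(18,1)]⟩⟩ ⟨true,0,⟨1,[(12,0),(4,0),(18,0)]⟩,⟨0,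
  [(16,0)]⟩⟩,.o ⟨false,0,⟨0,[(23,0)]⟩,⟨7,[(17,3),(0,0),(0,0),(11,1),(5,3)]⟩⟩]⟩) (.R ⟨2,true,false,
  false,[0,1],[0,0,1],[0,1,1],(⟨0,[]⟩,⟨0,[]⟩),(⟨0,[(30,0)]⟩,⟨0,[(29,0)]⟩),⟨0,[]⟩,.k,.k,.k,.k,.k,.k,
  ⟨false,0,⟨1,[(17,0),(4,0),(2,0)]⟩,⟨0,[(0,0),(15,0),(17,0),(2,0)]⟩⟩,⟨true,0,⟨0,[(26,0)]⟩,⟨0,[(1,0),
  (19,0)]⟩⟩,⟨false,0,⟨0,[(36,0)]⟩,⟨0,[(35,0),(2,0)]⟩⟩,⟨true,0,⟨0,[(0,0)]⟩,⟨0,[(16,0),(11,0)]⟩⟩,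
  ⟨true,0,⟨0,[(40,0)]⟩,⟨0,[]⟩⟩,⟨false,1,⟨0,[(24,0),(13,0)]⟩,⟨1,[(9,0),(6,0),(3,0),(0,0),(6,0)]⟩⟩,
  []⟩))))))))))

theorem ok8 : chk (cU (-1) true 10) t8 l8 = true := by decide +kernel

noncomputable def t14 : Tre :=
  (.I [1,-1,1,1,0,0,0,0,1] (.Q [0,0,0,0,0,-1,0,0,0,1,0,-1] (.ed true [0,1,0,1] .k) (.I [1,-1,-1,0,1,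
  0,0,0,-1] (.I [0,-1,0,-1,0,0,0,0,1] (.R ⟨1,false,false,false,[1,0,0,-1],[1,0,-1],[1,0,0,0,0,0,0,0,
  -1],(⟨0,[(20,0)]⟩,⟨0,[(21,0)]⟩),(⟨0,[(29,0)]⟩,⟨0,[(30,0)]⟩),⟨0,[(2,0)]⟩,.k,.k,(.x (-1) ⟨3,[(18,0),
  (0,0),(11,1),(0,3)]⟩ ⟨0,[(33,0)]⟩),.k,(.r (-1) ⟨0,[(1,0),(7,0),(3,0),(22,0)]⟩ ⟨1,[(3,1),(13,0),(4,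
  0),(2,0)]⟩),.k,⟨false,1,⟨0,[(1,0),(7,0),(3,0)]⟩,⟨0,[(0,0),(27,0),(6,0)]⟩⟩,⟨true,0,⟨0,[(20,0),(2,
  0)]⟩,⟨0,[(8,0),(12,0)]⟩⟩,⟨true,0,⟨0,[]⟩,⟨0,[(40,0)]⟩⟩,⟨false,0,⟨2,[(0,0),(2,1),(7,0),(2,0),(5,2),
  (4,0),(8,0)]⟩,⟨0,[(1,0),(19,0),(2,0)]⟩⟩,⟨false,1,⟨0,[(35,0),(2,0)]⟩,⟨0,[(36,0)]⟩⟩,⟨false,0,⟨0,[(3,
  0),(7,0),(8,0)]⟩,⟨0,[(1,0),(19,0),(2,0),(11,0)]⟩⟩,[.o ⟨false,0,⟨0,[(11,0)]⟩,⟨3,[(18,0),(0,0),(4,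
  3),(13,1)]⟩⟩,.o ⟨false,1,⟨7,[(5,1),(8,1),(10,3),(5,0),(6,6)]⟩,⟨0,[(24,0)]⟩⟩,.o ⟨false,1,⟨1,[(21,
  1),(9,0),(5,0)]⟩,⟨6,[(5,1),(6,1),(7,6),(2,2),(0,1),(1,2),(7,0)]⟩⟩,.a ⟨true,0,⟨0,[(21,0)]⟩,⟨0,[(20,
  0)]⟩⟩ ⟨false,1,⟨0,[(1,0)]⟩,⟨3,[(0,1),(2,1),(22,0),(0,0),(12,3)]⟩⟩ ⟨true,0,⟨0,[(11,0),(8,0)]⟩,⟨0,
  [(21,0),(2,0)]⟩⟩]⟩) (.I [0,0,-2,-2,1,0,0,0,-1] (.R ⟨1,false,false,true,[1,0,0,-1],[0,1],[0,1,0,-1,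
  0,0,0,0,-1],(⟨0,[(21,0)]⟩,⟨0,[(22,0)]⟩),(⟨0,[(34,0)]⟩,⟨0,[(33,0)]⟩),⟨0,[(3,0)]⟩,.k,.k,(.x (-1) ⟨3,
  [(19,0),(0,0),(11,1),(0,3)]⟩ ⟨0,[(34,0)]⟩),(.x (-1) ⟨3,[(19,0),(0,0),(11,1),(0,3)]⟩ ⟨0,[(34,0)]⟩),
  (.r (-1) ⟨0,[(0,0)]⟩ ⟨1,[(4,1),(22,0),(0,0),(7,1)]⟩),.k,⟨false,1,⟨0,[(0,0)]⟩,⟨0,[(4,0),(31,0)]⟩⟩,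
  ⟨true,0,⟨0,[(21,0)]⟩,⟨6,[(6,1),(6,1),(8,6),(1,2),(0,1),(1,2),(7,0)]⟩⟩,⟨false,0,⟨0,[(37,0)]⟩,⟨0,
  [(36,0),(2,0)]⟩⟩,⟨false,0,⟨0,[(4,0),(16,0),(19,0)]⟩,⟨0,[(2,0),(10,0),(8,0)]⟩⟩,⟨true,0,⟨0,[(41,
  0)]⟩,⟨0,[]⟩⟩,⟨false,0,⟨0,[(4,0),(16,0),(14,0)]⟩,⟨9,[(0,5),(1,1),(10,7),(5,0),(2,9),(9,0),(2,3)]⟩⟩,
  [.o ⟨false,0,⟨0,[(36,0)]⟩,⟨1,[(32,0),(4,1),(1,0)]⟩⟩,.o ⟨false,1,⟨5,[(4,1),(6,1),(7,2),(0,0),(15,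
  3)]⟩,⟨0,[(13,0)]⟩⟩,.o ⟨false,1,⟨1,[(22,1),(9,0),(5,0)]⟩,⟨6,[(6,1),(6,1),(7,6),(2,2),(0,1),(1,2),
  (7,0)]⟩⟩,.a ⟨true,0,⟨0,[(22,0)]⟩,⟨0,[(21,0)]⟩⟩ ⟨false,1,⟨7,[(0,3),(18,2),(0,0)]⟩,⟨0,[(4,0)]⟩⟩
  ⟨true,0,⟨0,[(21,0),(14,0)]⟩,⟨0,[(13,0),(8,0)]⟩⟩]⟩) (.R ⟨1,false,false,false,[1,0,0,-1],[1,-1],[1,
  0,0,0,0,0,0,0,-1],(⟨0,[(21,0)]⟩,⟨0,[(22,0)]⟩),(⟨0,[(33,0)]⟩,⟨0,[(34,0)]⟩),⟨0,[(3,0)]⟩,.k,.k,(.x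
  (-1) ⟨3,[(19,0),(0,0),(11,1),(0,3)]⟩ ⟨0,[(34,0)]⟩),(.r 0 ⟨3,[(1,3),(25,0),(0,0),(6,1)]⟩ ⟨1,[(20,
  0),(16,1),(0,0)]⟩),.k,.k,⟨true,0,⟨3,[(1,3),(25,0),(0,0),(6,1)]⟩,⟨0,[(0,0),(36,2),(0,0)]⟩⟩,⟨false,
  0,⟨7,[(0,1),(12,3),(5,0),(1,7),(2,1),(2,1),(4,0)]⟩,⟨0,[(22,0),(15,0)]⟩⟩,⟨true,0,⟨0,[]⟩,⟨0,[(41,
  0)]⟩⟩,⟨false,0,⟨0,[(4,0),(8,0),(7,0),(15,0)]⟩,⟨1,[(1,1),(0,0),(8,0),(10,1)]⟩⟩,⟨false,1,⟨0,[(36,0),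
  (2,0)]⟩,⟨0,[(37,0)]⟩⟩,⟨false,0,⟨0,[(4,0),(8,0),(7,0)]⟩,⟨1,[(19,0),(2,1),(15,0)]⟩⟩,[.o ⟨false,0,⟨0,
  [(13,0)]⟩,⟨5,[(4,1),(6,1),(7,2),(0,0),(15,3)]⟩⟩,.o ⟨false,1,⟨1,[(32,0),(4,1),(1,0)]⟩,⟨0,[(36,
  0)]⟩⟩,.o ⟨false,1,⟨1,[(22,1),(9,0),(5,0)]⟩,⟨7,[(0,1),(12,3),(5,0),(1,7),(2,1),(2,1),(4,0)]⟩⟩,.a
  ⟨true,0,⟨0,[(22,0)]⟩,⟨0,[(21,0)]⟩⟩ ⟨false,1,⟨0,[(2,0)]⟩,⟨5,[(0,1),(19,1),(6,0),(0,0),(8,3)]⟩⟩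
  ⟨true,0,⟨0,[(13,0),(7,0)]⟩,⟨0,[(22,0),(13,0)]⟩⟩]⟩))) (.I [0,0,1,1,0,0,0,0,-1] (.R ⟨1,false,false,
  false,[1,0,0,-1],[1,-1],[0,1,0,-1,0,0,0,0,-1],(⟨0,[(20,0)]⟩,⟨0,[(21,0)]⟩),(⟨0,[(32,0)]⟩,⟨0,[(33,
  0)]⟩),⟨0,[(2,0)]⟩,.k,.k,(.x (-1) ⟨3,[(18,0),(0,0),(11,1),(0,3)]⟩ ⟨0,[(33,0)]⟩),(.r 0 ⟨0,[(0,0)]⟩
  ⟨1,[(19,0),(16,1),(0,0)]⟩),.k,.k,⟨true,0,⟨0,[(1,0),(16,0)]⟩,⟨0,[(1,0),(32,0),(2,0)]⟩⟩,⟨false,0,⟨6,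
  [(0,1),(0,1),(10,1),(7,6),(2,0),(2,0),(4,1),(2,0)]⟩,⟨0,[(21,0),(15,0)]⟩⟩,⟨false,0,⟨0,[(36,0)]⟩,⟨0,
  [(0,0),(9,0)]⟩⟩,⟨false,0,⟨2,[(1,0),(10,2),(6,0),(0,2),(13,1)]⟩,⟨0,[(0,0),(20,0),(15,0)]⟩⟩,⟨true,0,
  ⟨0,[(40,0)]⟩,⟨0,[]⟩⟩,⟨false,0,⟨0,[(3,0),(8,0),(7,0)]⟩,⟨1,[(18,0),(2,1),(15,0)]⟩⟩,[.o ⟨false,0,⟨0,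
  [(12,0)]⟩,⟨3,[(0,1),(9,1),(7,0),(0,0),(15,1)]⟩⟩,.o ⟨false,1,⟨1,[(31,0),(4,1),(1,0)]⟩,⟨0,[(35,
  0)]⟩⟩,.o ⟨false,1,⟨1,[(21,1),(9,0),(5,0)]⟩,⟨6,[(0,1),(0,1),(10,1),(7,6),(2,0),(2,0),(4,1),(2,
  0)]⟩⟩,.a ⟨true,0,⟨0,[(21,0)]⟩,⟨0,[(20,0)]⟩⟩ ⟨false,1,⟨1,[(18,0),(17,1),(0,0)]⟩,⟨0,[(3,0)]⟩⟩ ⟨true,
  0,⟨0,[(12,0),(7,0)]⟩,⟨0,[(21,0),(13,0)]⟩⟩]⟩) (.Q [0,1,1,-1,-1,0,1,1,1,1,-1,-1] (.p false [0,0,1]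
  [1,0,0,-1] (⟨0,[(30,0)]⟩,⟨0,[(29,0)]⟩) .k 2 (⟨0,[(20,0)]⟩,⟨0,[(21,0)]⟩) .k (.r 0 ⟨3,[(0,1),(0,0),
  (1,0),(0,0),(4,3),(3,2),(20,1)]⟩ ⟨3,[(18,2),(0,0),(8,3)]⟩)) (.K ⟨0,[0,0,0,1],0,(-1),(⟨0,[(22,0)]⟩,
  ⟨0,[(21,0)]⟩),.k,(.x 0 ⟨0,[(24,0),(2,0),(5,0)]⟩ ⟨0,[(34,0),(3,0)]⟩),(.x 0 ⟨0,[(34,0)]⟩ ⟨3,[(19,0),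
  (0,0),(11,1),(0,3)]⟩),.k,.k,[⟨0,[(22,0)]⟩,⟨0,[(21,0)]⟩,⟨1,[(19,0),(2,1),(15,0),(2,1)]⟩,⟨0,[(0,0),
  (5,0)]⟩]⟩) (.R ⟨1,false,false,false,[1,0,0,-1],[1,-1],[0,1,0,-1,0,0,0,0,-1],(⟨0,[(21,0)]⟩,⟨0,[(22,
  0)]⟩),(⟨0,[(33,0)]⟩,⟨0,[(34,0)]⟩),⟨0,[(3,0)]⟩,.k,.k,(.x (-1) ⟨3,[(19,0),(0,0),(11,1),(0,3)]⟩ ⟨0,
  [(34,0)]⟩),(.x (-1) ⟨0,[(34,0),(3,0)]⟩ ⟨0,[(24,0),(2,0),(5,0)]⟩),.k,.k,⟨true,0,⟨0,[(2,0),(16,0)]⟩,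
  ⟨3,[(1,2),(2,0),(1,0),(3,0),(24,1)]⟩⟩,⟨false,0,⟨6,[(6,1),(6,1),(7,6),(2,2),(0,1),(1,2),(7,0)]⟩,⟨0,
  [(22,0),(15,0)]⟩⟩,⟨false,0,⟨0,[(37,0)]⟩,⟨0,[(36,0),(2,0)]⟩⟩,⟨false,0,⟨2,[(2,0),(10,2),(6,0),(0,2),
  (13,1)]⟩,⟨3,[(0,1),(9,1),(8,0),(2,1),(15,0)]⟩⟩,⟨true,0,⟨0,[(41,0)]⟩,⟨0,[]⟩⟩,⟨false,0,⟨0,[(4,0),(8,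
  0),(7,0)]⟩,⟨1,[(19,0),(2,1),(15,0)]⟩⟩,[.o ⟨false,0,⟨0,[(13,0)]⟩,⟨5,[(4,1),(6,1),(7,2),(0,0),(15,
  3)]⟩⟩,.o ⟨false,1,⟨1,[(32,0),(4,1),(1,0)]⟩,⟨0,[(36,0)]⟩⟩,.o ⟨false,1,⟨1,[(22,1),(9,0),(5,0)]⟩,⟨6,
  [(6,1),(6,1),(7,6),(2,2),(0,1),(1,2),(7,0)]⟩⟩,.a ⟨true,0,⟨0,[(22,0)]⟩,⟨0,[(21,0)]⟩⟩ ⟨false,1,⟨0,
  [(1,0),(17,0)]⟩,⟨0,[(4,0)]⟩⟩ ⟨true,0,⟨0,[(13,0),(7,0)]⟩,⟨0,[(22,0),(13,0)]⟩⟩]⟩)))) (.I [0,0,-2,-1,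
  1,0,0,-1,-1] (.R ⟨0,false,false,true,[1,0,0,-1],[-1,1,1],[0,1,0,0,0,0,0,0,-1],(⟨0,[(19,0)]⟩,⟨0,
  [(20,0)]⟩),(⟨0,[(14,0)]⟩,⟨0,[(28,0),(2,0)]⟩),⟨0,[(1,0)]⟩,.k,.k,(.x (-1) ⟨3,[(17,0),(0,0),(11,1),
  (0,3)]⟩ ⟨0,[(32,0)]⟩),(.r (-1) ⟨5,[(0,3),(16,0),(6,1),(0,1),(9,1),(1,0)]⟩ ⟨0,[(2,0),(5,0),(3,
  0)]⟩),.k,.k,⟨false,1,⟨0,[(0,0)]⟩,⟨0,[(2,0),(5,0),(3,0)]⟩⟩,⟨true,0,⟨1,[(16,0),(2,2),(0,0)]⟩,⟨2,[(4,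
  1),(6,0),(0,0),(7,2),(1,1),(0,1),(9,0)]⟩⟩,⟨true,0,⟨0,[(39,0)]⟩,⟨0,[]⟩⟩,⟨false,0,⟨0,[(2,0),(5,0),
  (10,0),(15,0)]⟩,⟨0,[(0,0),(3,0),(7,0),(7,0),(2,0),(9,0)]⟩⟩,⟨false,0,⟨0,[]⟩,⟨0,[]⟩⟩,⟨false,0,⟨0,
  []⟩,⟨0,[]⟩⟩,[.o ⟨false,0,⟨0,[(8,0)]⟩,⟨0,[(13,0),(23,0)]⟩⟩,.o ⟨false,1,⟨3,[(8,3),(8,0),(0,0),(18,
  1)]⟩,⟨0,[(10,0),(0,0)]⟩⟩,.o ⟨false,1,⟨1,[(20,1),(9,0),(5,0)]⟩,⟨6,[(4,1),(6,1),(7,6),(2,2),(0,1),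
  (1,2),(7,0)]⟩⟩,.a ⟨true,0,⟨0,[(20,0)]⟩,⟨0,[(19,0)]⟩⟩ ⟨false,1,⟨1,[(17,0),(18,0)]⟩,⟨0,[(2,0),(32,
  0)]⟩⟩ ⟨true,0,⟨0,[(8,0),(10,0)]⟩,⟨0,[(10,0),(0,0),(8,0)]⟩⟩]⟩) (.I [0,1,1,0,-1,0,0,0,1] (.Q [0,0,
  -1,0,1,0,0,0,-1,-1,0,1] (.p true [0,0,0,1] [1] (⟨0,[(21,0)]⟩,⟨0,[(20,0)]⟩) .k 1 (⟨0,[]⟩,⟨0,[]⟩)
  .k .k) (.R ⟨0,false,false,false,[1,0,0,-1],[0,0,0,1],[0,1,1],(⟨0,[(21,0)]⟩,⟨0,[(22,0)]⟩),(⟨0,[(22,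
  0)]⟩,⟨0,[(21,0)]⟩),⟨0,[(3,0)]⟩,.k,.k,(.x (-1) ⟨3,[(19,0),(0,0),(11,1),(0,3)]⟩ ⟨0,[(34,0)]⟩),.k,.k,
  .k,⟨true,0,⟨0,[(1,0),(17,0)]⟩,⟨0,[(1,0),(33,0),(2,0)]⟩⟩,⟨false,0,⟨5,[(2,1),(6,0),(5,1),(3,0),(1,
  11),(5,0),(4,0),(2,0)]⟩,⟨0,[(5,0),(3,0),(12,1)]⟩⟩,⟨true,(-1),⟨0,[(1,0)]⟩,⟨1,[(19,0),(18,0)]⟩⟩,
  ⟨false,(-1),⟨7,[(1,10),(0,1),(2,1),(0,1),(2,3),(1,2),(1,3),(7,15),(13,7)]⟩,⟨1,[(0,1),(18,0),(2,1),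
  (15,0)]⟩⟩,⟨false,0,⟨0,[]⟩,⟨0,[]⟩⟩,⟨false,0,⟨0,[]⟩,⟨0,[]⟩⟩,[.o ⟨false,0,⟨5,[(1,3),(18,0),(0,5),(10,
  2),(2,1)]⟩,⟨0,[(0,0)]⟩⟩,.o ⟨false,0,⟨0,[(4,0),(8,0),(7,0)]⟩,⟨0,[(0,0),(40,0)]⟩⟩,.o ⟨false,1,⟨1,
  [(0,1),(0,0),(9,0)]⟩,⟨5,[(2,1),(6,0),(5,1),(3,0),(1,5),(5,0),(4,0),(2,0)]⟩⟩,.a ⟨true,0,⟨0,[(22,
  0)]⟩,⟨0,[(21,0)]⟩⟩ ⟨true,0,⟨0,[(41,0)]⟩,⟨0,[]⟩⟩ ⟨false,0,⟨0,[(4,0),(8,0),(7,1)]⟩,⟨0,[(0,0),(21,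
  0)]⟩⟩]⟩) (.K ⟨0,[0,0,0,1],0,(-1),(⟨0,[(22,0)]⟩,⟨0,[(21,0)]⟩),.k,(.r 0 ⟨0,[(0,0),(12,0),(8,0),(15,
  0)]⟩ ⟨5,[(2,0),(1,2),(14,5),(0,0),(5,0),(0,0),(8,1)]⟩),(.x 0 ⟨0,[(34,0)]⟩ ⟨3,[(19,0),(0,0),(11,1),
  (0,3)]⟩),.k,.k,[⟨0,[(22,0)]⟩,⟨0,[(21,0)]⟩,⟨1,[(19,0),(2,1),(15,0),(2,1)]⟩,⟨2,[(0,2),(5,0),(8,0),
  (9,1)]⟩]⟩)) (.R ⟨0,false,false,false,[1,0,0,-1],[1,0,-1],[1,0,0,0,0,0,0,0,-1],(⟨0,[(20,0)]⟩,⟨0,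
  [(21,0)]⟩),(⟨0,[(29,0)]⟩,⟨0,[(30,0)]⟩),⟨0,[(2,0)]⟩,.k,.k,(.x (-1) ⟨3,[(18,0),(0,0),(11,1),(0,3)]⟩
  ⟨0,[(33,0)]⟩),.k,.k,.k,⟨false,1,⟨0,[(0,0),(8,0),(3,0)]⟩,⟨0,[(1,0),(26,1),(7,0),(0,0)]⟩⟩,⟨true,0,
  ⟨0,[(20,0),(2,0)]⟩,⟨0,[(8,0),(12,0)]⟩⟩,⟨true,0,⟨0,[]⟩,⟨0,[(40,0)]⟩⟩,⟨false,0,⟨0,[(3,0),(9,0),(6,
  0),(7,0)]⟩,⟨0,[(0,0),(20,0),(2,0)]⟩⟩,⟨false,0,⟨0,[]⟩,⟨0,[]⟩⟩,⟨false,0,⟨0,[]⟩,⟨0,[]⟩⟩,[.o ⟨false,0,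
  ⟨0,[(11,0)]⟩,⟨3,[(18,0),(0,0),(4,3),(13,1)]⟩⟩,.o ⟨false,1,⟨7,[(5,1),(8,1),(10,3),(5,0),(6,6)]⟩,⟨0,
  [(24,0)]⟩⟩,.o ⟨false,1,⟨1,[(21,1),(9,0),(5,0)]⟩,⟨5,[(1,1),(6,0),(5,1),(3,0),(1,5),(5,0),(4,0),(2,
  0)]⟩⟩,.a ⟨true,0,⟨0,[(21,0)]⟩,⟨0,[(20,0)]⟩⟩ ⟨false,1,⟨0,[(0,0)]⟩,⟨8,[(1,2),(17,2),(5,1),(0,1),(1,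
  0),(5,0),(1,2)]⟩⟩ ⟨true,0,⟨0,[(11,0),(8,0)]⟩,⟨0,[(21,0),(2,0)]⟩⟩]⟩)))) (.I [0,0,-2,-1,0,0,0,-1,
  -1] (.Q [0,0,0,0,0,1,0,0,0,-1,0,1] (.ed false [0,1,0,1] .k) (.R ⟨0,false,false,true,[1,0,0,-1],
  [-1,1,1],[0,1,0,0,0,0,0,0,-1],(⟨0,[(19,0)]⟩,⟨0,[(20,0)]⟩),(⟨0,[(14,0)]⟩,⟨0,[(28,0),(2,0)]⟩),⟨0,
  [(0,0)]⟩,.k,.k,(.x (-1) ⟨3,[(17,0),(0,0),(11,1),(0,3)]⟩ ⟨0,[(32,0)]⟩),(.r 0 ⟨2,[(1,0),(0,1),(24,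
  1),(5,0)]⟩ ⟨1,[(8,1),(9,0),(3,1),(14,0)]⟩),.k,.k,⟨false,0,⟨0,[(1,0)]⟩,⟨1,[(8,1),(9,0),(3,1),(14,
  0)]⟩⟩,⟨true,0,⟨1,[(16,0),(2,2),(0,0)]⟩,⟨2,[(4,1),(6,0),(0,0),(7,2),(1,1),(0,1),(9,0)]⟩⟩,⟨true,0,
  ⟨0,[(39,0)]⟩,⟨0,[]⟩⟩,⟨false,1,⟨1,[(8,1),(9,0),(0,1),(5,0),(0,0),(10,0)]⟩,⟨0,[(1,0),(2,0),(7,0),(7,
  0),(2,0),(9,0)]⟩⟩,⟨false,0,⟨0,[]⟩,⟨0,[]⟩⟩,⟨false,0,⟨0,[]⟩,⟨0,[]⟩⟩,[.o ⟨false,0,⟨0,[(8,0)]⟩,⟨0,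
  [(13,0),(23,0)]⟩⟩,.o ⟨false,1,⟨3,[(8,3),(8,0),(0,0),(18,1)]⟩,⟨0,[(10,0),(0,0)]⟩⟩,.o ⟨false,1,⟨1,
  [(20,1),(9,0),(5,0)]⟩,⟨6,[(4,1),(6,1),(7,6),(2,2),(0,1),(1,2),(7,0)]⟩⟩,.a ⟨true,0,⟨0,[(20,0)]⟩,⟨0,
  [(19,0)]⟩⟩ ⟨false,0,⟨0,[(1,0),(13,0),(7,0),(9,0)]⟩,⟨1,[(18,0),(6,0),(0,0),(10,0)]⟩⟩ ⟨true,0,⟨0,
  [(8,0),(10,0)]⟩,⟨0,[(10,0),(0,0),(8,0)]⟩⟩]⟩) (.R ⟨1,false,false,true,[1,0,0,-1],[-1,1,1],[1,1,0,0,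
  0,0,0,0,-1],(⟨0,[(19,0)]⟩,⟨0,[(20,0)]⟩),(⟨0,[(14,0)]⟩,⟨0,[(28,0),(2,0)]⟩),⟨0,[(0,0)]⟩,.k,.k,(.x
  (-1) ⟨3,[(17,0),(0,0),(11,1),(0,3)]⟩ ⟨0,[(32,0)]⟩),(.r 0 ⟨2,[(1,0),(0,1),(24,1),(5,0)]⟩ ⟨1,[(8,1),
  (9,0),(3,1),(14,0)]⟩),(.r 0 ⟨0,[(1,0),(33,0)]⟩ ⟨3,[(8,3),(9,1),(3,3),(2,0),(0,0),(6,1),(0,3),(2,
  1)]⟩),.k,⟨false,0,⟨0,[(1,0)]⟩,⟨1,[(8,1),(9,0),(3,1),(14,0)]⟩⟩,⟨true,0,⟨1,[(16,0),(2,2),(0,0)]⟩,⟨2,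
  [(4,1),(6,0),(0,0),(7,2),(1,1),(0,1),(9,0)]⟩⟩,⟨false,0,⟨0,[]⟩,⟨3,[(17,0),(0,0),(18,1)]⟩⟩,⟨false,1,
  ⟨1,[(8,1),(9,0),(0,1),(5,0),(0,0),(10,0)]⟩,⟨0,[(1,0),(2,0),(7,0),(7,0),(2,0),(9,0)]⟩⟩,⟨true,0,⟨0,
  [(34,0)]⟩,⟨0,[(35,0)]⟩⟩,⟨false,1,⟨3,[(8,3),(9,1),(0,3),(5,0),(0,0),(6,1),(0,3),(2,1)]⟩,⟨3,[(1,2),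
  (0,0),(1,1),(6,2),(0,2),(7,3),(2,0),(9,2)]⟩⟩,[.o ⟨false,0,⟨0,[(8,0)]⟩,⟨0,[(13,0),(23,0)]⟩⟩,.o
  ⟨false,1,⟨3,[(8,3),(8,0),(0,0),(18,1)]⟩,⟨0,[(10,0),(0,0)]⟩⟩,.o ⟨false,1,⟨1,[(20,1),(9,0),(5,0)]⟩,
  ⟨6,[(4,1),(6,1),(7,6),(2,2),(0,1),(1,2),(7,0)]⟩⟩,.a ⟨true,0,⟨0,[(20,0)]⟩,⟨0,[(19,0)]⟩⟩ ⟨false,0,
  ⟨0,[(1,0),(13,0),(7,0),(9,0)]⟩,⟨1,[(18,0),(6,0),(0,0),(10,0)]⟩⟩ ⟨true,0,⟨0,[(8,0),(10,0)]⟩,⟨0,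
  [(10,0),(0,0),(8,0)]⟩⟩]⟩)) (.I [0,0,-1,-1,0,0,0,-1,-1] (.Q [0,0,0,0,0,-2,0,0,0,0,1] (.p true [0,0,
  1] [] (⟨0,[(29,0)]⟩,⟨0,[(28,0)]⟩) .k 0 (⟨0,[]⟩,⟨0,[]⟩) .k .k) (.Q [0,0,-1,-2,0,0,-1,-1,-1,-2,1,1]
  (.p true [-1,1,1] [1,0,0,-1] (⟨0,[(15,0)]⟩,⟨0,[(29,0),(2,0)]⟩) .k 2 (⟨0,[(20,0)]⟩,⟨0,[(21,0)]⟩)
  .k (.r (-1) ⟨5,[(2,1),(6,3),(0,3),(2,3),(4,0),(0,0),(16,1)]⟩ ⟨3,[(1,3),(24,0),(0,0),(6,1),(0,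
  3)]⟩)) (.Q [0,0,-1,-1,0,0,-1,-1,-1,-2,1,1] (.p true [-1,1,1] [1,0,0,-1] (⟨0,[(16,0)]⟩,⟨0,[(30,0),
  (2,0)]⟩) .k 2 (⟨0,[(21,0)]⟩,⟨0,[(22,0)]⟩) .k (.r (-1) ⟨5,[(3,1),(6,3),(0,3),(2,3),(4,0),(0,0),(16,
  1)]⟩ ⟨3,[(2,3),(24,0),(0,0),(6,1),(0,3)]⟩)) (.Q [0,1,1,0,0,0,0,0,1,0,0,-1] (.p false [0,0,0,1] []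
  (⟨0,[(23,0)]⟩,⟨0,[(22,0)]⟩) .k 0 (⟨0,[]⟩,⟨0,[]⟩) .k .k) (.K ⟨0,[0,0,0,1],0,0,(⟨0,[(24,0)]⟩,⟨0,
  [(23,0)]⟩),.k,(.r (-1) ⟨1,[(6,0),(6,0),(8,0),(16,0)]⟩ ⟨3,[(6,3),(22,0),(0,0),(6,5),(0,7)]⟩),(.x 0
  ⟨0,[(36,0)]⟩ ⟨7,[(3,3),(17,2),(0,2),(9,3),(1,1)]⟩),.k,.k,[⟨0,[(24,0)]⟩,⟨0,[(23,0)]⟩,⟨0,[(1,0),(10,
  0),(10,0),(0,0)]⟩,⟨0,[(0,0)]⟩]⟩) (.Q [0,1,1,-1,0,0,0,0,1,0,0,-1] (.p false [0,0,0,1] [] (⟨0,[(24,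
  0)]⟩,⟨0,[(23,0)]⟩) .k 0 (⟨0,[]⟩,⟨0,[]⟩) .k .k) (.I [1,1,1,0,0,0,0,0,1] (.R ⟨0,false,false,false,
  [1,0,-1],[1,0,0,-1],[1,1,1],(⟨0,[(34,0)]⟩,⟨0,[(35,0)]⟩),(⟨0,[(25,0)]⟩,⟨0,[(26,0)]⟩),⟨0,[(20,0)]⟩,
  .k,.k,.k,.k,.k,.k,⟨true,0,⟨0,[(0,0)]⟩,⟨3,[(2,0),(5,2),(1,1),(3,0),(10,0),(3,0),(9,3)]⟩⟩,⟨false,1,
  ⟨1,[(3,0),(10,0),(0,0),(6,0),(3,0),(15,0)]⟩,⟨0,[(25,0),(2,0)]⟩⟩,⟨false,0,⟨1,[(7,0),(0,0),(5,0),(3,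
  0),(20,0)]⟩,⟨1,[(33,1),(8,0),(0,0)]⟩⟩,⟨true,0,⟨0,[(2,0),(26,0)]⟩,⟨0,[(1,0),(10,0)]⟩⟩,⟨false,0,⟨0,
  []⟩,⟨0,[]⟩⟩,⟨false,0,⟨0,[]⟩,⟨0,[]⟩⟩,[.o ⟨false,0,⟨2,[(2,1),(0,0),(6,0),(18,1)]⟩,⟨4,[(1,1),(5,0),
  (2,0),(12,0),(0,1),(0,2),(5,0),(4,0),(6,0)]⟩⟩,.a ⟨true,0,⟨0,[(2,0)]⟩,⟨0,[(0,0),(24,0)]⟩⟩ ⟨false,0,
  ⟨0,[]⟩,⟨3,[(23,0),(0,0),(17,1)]⟩⟩ ⟨true,0,⟨0,[(2,0),(10,0)]⟩,⟨1,[(1,0),(5,0),(17,0),(2,0),(1,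
  0)]⟩⟩,.o ⟨false,1,⟨2,[(9,0),(13,0),(0,0),(3,1)]⟩,⟨0,[(13,0)]⟩⟩,.o ⟨false,0,⟨0,[(28,0)]⟩,⟨7,[(22,
  3),(0,0),(0,0),(11,1),(5,3)]⟩⟩]⟩) (.Q [0,1,1,1,0,0,-1,-1,1,0,1,-1] (.p true [0,0,1] [0,0,0,1] (⟨0,
  [(35,0)]⟩,⟨0,[(34,0)]⟩) .k 2 (⟨0,[(26,0)]⟩,⟨0,[(25,0)]⟩) .k (.r 0 ⟨0,[(0,0),(6,0),(0,0)]⟩ ⟨3,[(23,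
  0),(0,2),(8,3)]⟩)) (.Q [0,1,1,0,0,0,0,0,1,1,0,-1] (.p false [0,0,0,1] [1] (⟨0,[(27,0)]⟩,⟨0,[(26,
  0)]⟩) .k 1 (⟨0,[]⟩,⟨0,[]⟩) .k .k) (.R ⟨0,false,false,false,[1,0,-1],[1,0,0,-1],[1,0,0,0,0,0,0,0,
  -1],(⟨0,[(36,0)]⟩,⟨0,[(37,0)]⟩),(⟨0,[(27,0)]⟩,⟨0,[(28,0)]⟩),⟨0,[(22,0)]⟩,.k,.k,.k,.k,.k,.k,⟨true,
  0,⟨0,[]⟩,⟨1,[(33,0),(0,0)]⟩⟩,⟨false,1,⟨1,[(5,0),(10,0),(0,0),(6,0),(3,0),(15,0)]⟩,⟨0,[(27,0),(2,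
  0)]⟩⟩,⟨false,0,⟨1,[(2,2),(6,1),(0,0),(32,0)]⟩,⟨3,[(25,0),(0,2),(8,3)]⟩⟩,⟨true,0,⟨0,[(4,0),(26,
  0)]⟩,⟨0,[(0,0),(17,0)]⟩⟩,⟨false,0,⟨0,[]⟩,⟨0,[]⟩⟩,⟨false,0,⟨0,[]⟩,⟨0,[]⟩⟩,[.o ⟨false,0,⟨2,[(4,1),
  (0,0),(6,0),(18,1)]⟩,⟨1,[(0,1),(37,0),(6,0)]⟩⟩,.a ⟨true,0,⟨0,[(4,0)]⟩,⟨0,[(0,0)]⟩⟩ ⟨false,0,⟨0,
  [(2,0)]⟩,⟨3,[(25,0),(0,2),(20,3)]⟩⟩ ⟨true,0,⟨0,[(4,0),(10,0)]⟩,⟨0,[(0,0),(29,0)]⟩⟩,.o ⟨false,1,⟨2,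
  [(11,0),(13,0),(0,0),(3,1)]⟩,⟨0,[(15,0)]⟩⟩,.o ⟨false,0,⟨0,[(30,0)]⟩,⟨7,[(24,3),(0,0),(0,0),(11,1),
  (5,3)]⟩⟩]⟩) (.Q [0,-1,-1,-2,0,0,1,1,-1,0,-1,1] (.p false [0,0,1] [0,0,0,1] (⟨0,[(37,0)]⟩,⟨0,[(36,
  0)]⟩) .k 2 (⟨0,[(28,0)]⟩,⟨0,[(27,0)]⟩) .k (.r 0 ⟨0,[(2,0),(6,0),(0,0)]⟩ ⟨3,[(25,0),(0,2),(8,
  3)]⟩)) (.R ⟨1,true,false,true,[0,-1,1],[0,0,0,1],[1,1,-1,-1,0,0,0,1],(⟨0,[(14,0)]⟩,⟨0,[(37,0),(3,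
  0)]⟩),(⟨0,[(29,0)]⟩,⟨0,[(28,0)]⟩),⟨0,[(8,0)]⟩,.k,.k,(.r (-1) ⟨18,[(0,17),(3,6),(6,2),(0,11),(4,0),
  (6,6),(2,6),(0,10)]⟩ ⟨3,[(15,3),(18,4),(0,0),(6,1),(0,3)]⟩),(.r 0 ⟨6,[(0,1),(2,3),(7,0),(5,4),(3,
  6),(6,1)]⟩ ⟨3,[(15,3),(10,0),(0,2),(6,3)]⟩),(.r (-1) ⟨49,[(0,39),(3,13),(6,15),(0,35),(4,9),(8,8),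
  (0,4),(0,25),(6,13)]⟩ ⟨1,[(10,1),(2,0),(1,0),(9,0),(10,1)]⟩),.k,⟨true,0,⟨6,[(0,1),(2,3),(7,0),(5,
  4),(3,6),(6,1)]⟩,⟨0,[(10,0),(25,1)]⟩⟩,⟨false,1,⟨28,[(2,1),(1,3),(5,1),(1,21),(13,3),(1,22),(2,0),
  (3,3),(10,2)]⟩,⟨0,[(16,0),(12,0)]⟩⟩,⟨false,0,⟨0,[]⟩,⟨3,[(26,0),(0,0),(18,1)]⟩⟩,⟨true,0,⟨0,[(2,
  0)]⟩,⟨2,[(0,1),(5,0),(10,1)]⟩⟩,⟨true,0,⟨0,[(43,0)]⟩,⟨0,[(44,0)]⟩⟩,⟨false,1,⟨0,[(2,0),(40,0),(2,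
  0)]⟩,⟨0,[(0,0)]⟩⟩,[]⟩) (.Q [0,0,0,0,0,1,0,0,0,-1,0,1] (.ed false [0,1,0,1] .k) (.R ⟨0,false,false,
  false,[1,0,0,-1],[1,0,-1],[1,0,0,0,0,0,0,0,-1],(⟨0,[(29,0)]⟩,⟨0,[(30,0)]⟩),(⟨0,[(38,0)]⟩,⟨0,[(39,
  0)]⟩),⟨0,[(0,0)]⟩,.k,.k,(.x (-1) ⟨7,[(9,3),(17,2),(0,2),(9,3),(1,1)]⟩ ⟨0,[(42,0)]⟩),.k,.k,.k,
  ⟨false,0,⟨0,[(4,0),(13,0),(3,0)]⟩,⟨3,[(27,0),(0,2),(8,3)]⟩⟩,⟨true,0,⟨0,[(29,0),(2,0)]⟩,⟨0,[(17,0),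
  (12,0)]⟩⟩,⟨true,0,⟨0,[]⟩,⟨0,[(49,0)]⟩⟩,⟨false,1,⟨16,[(3,8),(1,6),(2,0),(10,1),(9,1),(4,6),(8,3),
  (3,14)]⟩,⟨0,[(6,0),(26,0)]⟩⟩,⟨false,0,⟨0,[]⟩,⟨0,[]⟩⟩,⟨false,0,⟨0,[]⟩,⟨0,[]⟩⟩,[.o ⟨false,0,⟨0,[(20,
  0)]⟩,⟨3,[(27,0),(0,0),(4,3),(13,1)]⟩⟩,.o ⟨false,1,⟨7,[(14,1),(8,1),(10,3),(5,0),(6,6)]⟩,⟨0,[(33,
  0)]⟩⟩,.o ⟨false,1,⟨1,[(30,1),(9,0),(5,0)]⟩,⟨10,[(1,1),(2,5),(0,3),(23,4),(2,4),(0,1),(1,4),(7,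
  0)]⟩⟩,.a ⟨true,0,⟨0,[(30,0)]⟩,⟨0,[(29,0)]⟩⟩ ⟨false,0,⟨0,[(4,0)]⟩,⟨3,[(27,0),(0,2),(6,1),(0,1)]⟩⟩
  ⟨true,0,⟨0,[(20,0),(8,0)]⟩,⟨0,[(30,0),(2,0)]⟩⟩]⟩) (.R ⟨1,false,false,false,[1,0,0,-1],[1,0,-1],[0,
  0,0,-1,0,0,0,0,-1],(⟨0,[(29,0)]⟩,⟨0,[(30,0)]⟩),(⟨0,[(38,0)]⟩,⟨0,[(39,0)]⟩),⟨0,[(0,0)]⟩,.k,.k,(.x
  (-1) ⟨7,[(9,3),(17,2),(0,2),(9,3),(1,1)]⟩ ⟨0,[(42,0)]⟩),.k,(.r 0 ⟨0,[(4,0),(13,0),(3,0),(22,0)]⟩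
  ⟨3,[(1,1),(25,0),(0,1),(1,1),(4,1),(1,1),(9,0)]⟩),.k,⟨false,0,⟨0,[(4,0),(13,0),(3,0),(22,0)]⟩,⟨3,
  [(14,1),(1,1),(9,1),(0,0),(0,2)]⟩⟩,⟨true,0,⟨0,[(29,0),(2,0)]⟩,⟨0,[(17,0),(12,0)]⟩⟩,⟨true,0,⟨0,
  [(45,0)]⟩,⟨0,[(44,0)]⟩⟩,⟨false,1,⟨16,[(3,8),(1,6),(2,0),(10,1),(9,1),(4,6),(8,3),(3,14)]⟩,⟨0,[(6,
  0),(26,0)]⟩⟩,⟨false,1,⟨3,[(27,0),(0,0),(18,1)]⟩,⟨0,[]⟩⟩,⟨false,1,⟨0,[(3,0),(43,0)]⟩,⟨0,[(6,0),(26,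
  0),(11,0)]⟩⟩,[.o ⟨false,0,⟨0,[(20,0)]⟩,⟨3,[(27,0),(0,0),(4,3),(13,1)]⟩⟩,.o ⟨false,1,⟨7,[(14,1),(8,
  1),(10,3),(5,0),(6,6)]⟩,⟨0,[(33,0)]⟩⟩,.o ⟨false,1,⟨1,[(30,1),(9,0),(5,0)]⟩,⟨10,[(1,1),(2,5),(0,3),
  (23,4),(2,4),(0,1),(1,4),(7,0)]⟩⟩,.a ⟨true,0,⟨0,[(30,0)]⟩,⟨0,[(29,0)]⟩⟩ ⟨false,0,⟨0,[(4,0),(40,
  0)]⟩,⟨23,[(1,7),(9,7),(14,3),(0,6),(0,10),(1,7),(9,1),(6,3)]⟩⟩ ⟨true,0,⟨0,[(20,0),(8,0)]⟩,⟨0,[(30,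
  0),(2,0)]⟩⟩]⟩)))) (.R ⟨1,true,false,true,[0,0,1],[0,0,0,1],[0,1,0,-1,0,0,0,1],(⟨0,[(36,0)]⟩,⟨0,
  [(35,0)]⟩),(⟨0,[(27,0)]⟩,⟨0,[(26,0)]⟩),⟨0,[(12,0)]⟩,.k,.k,.k,.k,(.r 0 ⟨4,[(0,1),(0,1),(7,0),(5,2),
  (3,4),(6,1)]⟩ ⟨3,[(13,3),(10,0),(0,2),(6,3)]⟩),.k,⟨false,0,⟨4,[(0,1),(0,1),(7,0),(5,2),(3,4),(6,
  1)]⟩,⟨3,[(11,1),(1,1),(9,1),(0,0),(0,2)]⟩⟩,⟨true,0,⟨0,[(26,0),(2,0)]⟩,⟨0,[(14,0),(12,0)]⟩⟩,⟨false,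
  0,⟨0,[(42,0)]⟩,⟨0,[(41,0),(2,0)]⟩⟩,⟨true,0,⟨0,[(2,0),(10,0)]⟩,⟨0,[(0,0),(40,0)]⟩⟩,⟨true,0,⟨0,[(46,
  0)]⟩,⟨0,[]⟩⟩,⟨false,1,⟨9,[(2,3),(5,1),(2,5),(1,5),(10,2),(0,4),(0,5),(5,1),(11,1)]⟩,⟨0,[(0,0)]⟩⟩,
  []⟩))) (.Q [0,0,0,0,0,-1,0,0,0,1,0,-1] (.ed true [0,1,0,1] .k) (.R ⟨1,false,false,false,[1,0,0,
  -1],[1,0,-1],[0,0,0,-1,0,0,0,0,-1],(⟨0,[(25,0)]⟩,⟨0,[(26,0)]⟩),(⟨0,[(34,0)]⟩,⟨0,[(35,0)]⟩),⟨0,[(0,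
  0)]⟩,.k,.k,(.x (-1) ⟨7,[(5,3),(17,2),(0,2),(9,3),(1,1)]⟩ ⟨0,[(38,0)]⟩),.k,(.r 0 ⟨0,[(2,0),(15,0),
  (6,0),(3,0)]⟩ ⟨3,[(12,3),(10,0),(0,2),(6,3)]⟩),.k,⟨false,0,⟨0,[(2,0),(15,0),(6,0),(3,0)]⟩,⟨3,[(10,
  1),(1,1),(9,1),(0,0),(0,2)]⟩⟩,⟨true,0,⟨0,[(25,0),(2,0)]⟩,⟨0,[(13,0),(12,0)]⟩⟩,⟨true,0,⟨0,[(41,
  0)]⟩,⟨0,[(40,0)]⟩⟩,⟨false,1,⟨1,[(24,0),(0,1),(2,1),(4,1),(9,0)]⟩,⟨0,[(2,0),(26,0)]⟩⟩,⟨false,1,⟨3,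
  [(23,0),(0,0),(18,1)]⟩,⟨0,[]⟩⟩,⟨false,1,⟨21,[(7,3),(2,17),(13,8),(0,21),(2,3),(1,7),(0,7),(7,1),
  (3,12)]⟩,⟨0,[(2,0),(26,0),(11,0)]⟩⟩,[.o ⟨false,0,⟨0,[(16,0)]⟩,⟨3,[(23,0),(0,0),(4,3),(13,1)]⟩⟩,.o
  ⟨false,1,⟨7,[(10,1),(8,1),(10,3),(5,0),(6,6)]⟩,⟨0,[(29,0)]⟩⟩,.o ⟨false,1,⟨1,[(26,1),(9,0),(5,0)]⟩,
  ⟨6,[(10,1),(6,1),(7,6),(2,2),(0,1),(1,2),(7,0)]⟩⟩,.a ⟨true,0,⟨0,[(26,0)]⟩,⟨0,[(25,0)]⟩⟩ ⟨false,0,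
  ⟨0,[(2,0),(14,0),(7,0)]⟩,⟨7,[(7,3),(2,1),(1,1),(9,1),(0,2),(0,4)]⟩⟩ ⟨true,0,⟨0,[(16,0),(8,0)]⟩,⟨0,
  [(26,0),(2,0)]⟩⟩]⟩) (.R ⟨0,false,false,false,[1,0,0,-1],[1,0,-1],[1,0,0,0,0,0,0,0,-1],(⟨0,[(25,
  0)]⟩,⟨0,[(26,0)]⟩),(⟨0,[(34,0)]⟩,⟨0,[(35,0)]⟩),⟨0,[(0,0)]⟩,.k,.k,(.x (-1) ⟨7,[(5,3),(17,2),(0,2),
  (9,3),(1,1)]⟩ ⟨0,[(38,0)]⟩),.k,.k,.k,⟨false,0,⟨0,[(1,0),(16,0),(6,0),(3,0)]⟩,⟨3,[(23,0),(0,2),(8,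
  3)]⟩⟩,⟨true,0,⟨0,[(25,0),(2,0)]⟩,⟨0,[(13,0),(12,0)]⟩⟩,⟨true,0,⟨0,[]⟩,⟨0,[(45,0)]⟩⟩,⟨false,1,⟨1,
  [(24,0),(0,1),(2,1),(4,1),(9,0)]⟩,⟨0,[(2,0),(26,0)]⟩⟩,⟨false,0,⟨0,[]⟩,⟨0,[]⟩⟩,⟨false,0,⟨0,[]⟩,⟨0,
  []⟩⟩,[.o ⟨false,0,⟨0,[(16,0)]⟩,⟨3,[(23,0),(0,0),(4,3),(13,1)]⟩⟩,.o ⟨false,1,⟨7,[(10,1),(8,1),(10,
  3),(5,0),(6,6)]⟩,⟨0,[(29,0)]⟩⟩,.o ⟨false,1,⟨1,[(26,1),(9,0),(5,0)]⟩,⟨6,[(10,1),(6,1),(7,6),(2,2),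
  (0,1),(1,2),(7,0)]⟩⟩,.a ⟨true,0,⟨0,[(26,0)]⟩,⟨0,[(25,0)]⟩⟩ ⟨false,0,⟨0,[(1,0),(15,0),(7,0)]⟩,⟨3,
  [(23,0),(0,2),(6,1),(0,1)]⟩⟩ ⟨true,0,⟨0,[(16,0),(8,0)]⟩,⟨0,[(26,0),(2,0)]⟩⟩]⟩)))) (.R ⟨1,true,
  false,true,[2,-1,-1],[0,0,0,1],[1,0,-1,-1,0,0,0,-1],(⟨0,[(31,0),(2,0)]⟩,⟨0,[(17,0)]⟩),(⟨0,[(23,
  0)]⟩,⟨0,[(22,0)]⟩),⟨0,[(2,0),(28,1)]⟩,.k,.k,(.r (-1) ⟨1,[(3,1),(1,0),(6,0),(8,0),(16,0)]⟩ ⟨0,[(11,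
  0),(13,0),(10,0),(0,0)]⟩),(.r 0 ⟨0,[(3,0)]⟩ ⟨9,[(4,7),(1,1),(4,1),(0,1),(7,2),(0,2)]⟩),(.r (-1)
  ⟨3,[(3,3),(1,1),(6,1),(7,0),(0,0),(16,1)]⟩ ⟨1,[(0,0),(3,0),(2,1),(3,0),(3,0),(7,0),(2,0),(9,0)]⟩),
  .k,⟨false,1,⟨1,[(3,1),(35,0),(0,0)]⟩,⟨0,[(0,0),(6,0),(7,0),(7,0),(2,0)]⟩⟩,⟨true,0,⟨0,[(0,0),(2,
  0)]⟩,⟨2,[(1,0),(2,0),(2,1),(7,0),(7,1),(1,0),(0,1),(9,0)]⟩⟩,⟨true,0,⟨0,[]⟩,⟨0,[(42,0)]⟩⟩,⟨false,0,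
  ⟨0,[(0,0)]⟩,⟨5,[(1,3),(5,1),(12,0),(2,1),(9,0),(5,0),(0,2)]⟩⟩,⟨false,1,⟨0,[(37,0),(2,0)]⟩,⟨0,[(38,
  0)]⟩⟩,⟨true,0,⟨0,[(0,0),(36,0)]⟩,⟨0,[(1,0)]⟩⟩,[]⟩)) (.Q [0,0,0,0,0,-1,0,0,0,1,0,-1] (.ed true [0,
  1,0,1] .k) (.R ⟨1,false,false,true,[1,0,0,-1],[0,1],[1,0,0,0,0,0,0,0,-1],(⟨0,[(22,0)]⟩,⟨0,[(23,
  0)]⟩),(⟨0,[(35,0)]⟩,⟨0,[(34,0)]⟩),⟨0,[(0,0)]⟩,.k,.k,(.x (-1) ⟨7,[(2,3),(17,2),(0,2),(9,3),(1,1)]⟩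
  ⟨0,[(35,0)]⟩),(.x (-1) ⟨7,[(2,3),(17,2),(0,2),(9,3),(1,1)]⟩ ⟨0,[(35,0)]⟩),(.r (-1) ⟨1,[(5,2),(6,
  0),(25,0),(1,0)]⟩ ⟨1,[(4,1),(2,0),(1,0),(9,0)]⟩),.k,⟨false,1,⟨0,[(5,0),(30,0),(2,0)]⟩,⟨0,[(1,0),
  (14,0),(6,0)]⟩⟩,⟨true,0,⟨0,[(22,0)]⟩,⟨6,[(7,1),(6,1),(8,6),(1,2),(0,1),(1,2),(7,0)]⟩⟩,⟨true,0,⟨0,
  []⟩,⟨0,[(42,0)]⟩⟩,⟨false,0,⟨0,[(1,0),(13,0),(14,0)]⟩,⟨2,[(5,2),(0,0),(3,0),(12,2),(9,0),(2,1),(3,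
  0)]⟩⟩,⟨false,1,⟨0,[(37,0),(2,0)]⟩,⟨0,[(38,0)]⟩⟩,⟨false,0,⟨0,[(1,0),(11,0)]⟩,⟨0,[(5,0),(8,0),(8,0),
  (16,0)]⟩⟩,[.o ⟨false,0,⟨0,[(37,0)]⟩,⟨1,[(33,0),(4,1),(1,0)]⟩⟩,.o ⟨false,1,⟨3,[(20,0),(0,0),(15,3),
  (2,1)]⟩,⟨0,[(14,0)]⟩⟩,.o ⟨false,1,⟨1,[(23,1),(9,0),(5,0)]⟩,⟨6,[(7,1),(6,1),(7,6),(2,2),(0,1),(1,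
  2),(7,0)]⟩⟩,.a ⟨true,0,⟨0,[(23,0)]⟩,⟨0,[(22,0)]⟩⟩ ⟨false,1,⟨2,[(3,0),(2,0),(4,0),(8,0),(15,1),(2,
  0)]⟩,⟨0,[(1,0),(12,0),(0,0),(7,0),(6,0)]⟩⟩ ⟨true,0,⟨0,[(22,0),(14,0)]⟩,⟨0,[(14,0),(8,0)]⟩⟩]⟩) (.R
  ⟨0,false,false,true,[1,0,0,-1],[0,1],[1,0,0,0,0,0,0,0,-1],(⟨0,[(22,0)]⟩,⟨0,[(23,0)]⟩),(⟨0,[(35,
  0)]⟩,⟨0,[(34,0)]⟩),⟨0,[(0,0)]⟩,.k,.k,(.x (-1) ⟨7,[(2,3),(17,2),(0,2),(9,3),(1,1)]⟩ ⟨0,[(35,0)]⟩),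
  (.x (-1) ⟨7,[(2,3),(17,2),(0,2),(9,3),(1,1)]⟩ ⟨0,[(35,0)]⟩),.k,.k,⟨false,1,⟨0,[(5,0),(30,0),(2,
  0)]⟩,⟨0,[(1,0),(14,0),(6,0)]⟩⟩,⟨true,0,⟨0,[(22,0)]⟩,⟨6,[(7,1),(6,1),(8,6),(1,2),(0,1),(1,2),(7,
  0)]⟩⟩,⟨true,0,⟨0,[]⟩,⟨0,[(42,0)]⟩⟩,⟨false,0,⟨0,[(1,0),(13,0),(14,0)]⟩,⟨2,[(5,2),(0,0),(3,0),(12,
  2),(9,0),(2,1),(3,0)]⟩⟩,⟨false,0,⟨0,[]⟩,⟨0,[]⟩⟩,⟨false,0,⟨0,[]⟩,⟨0,[]⟩⟩,[.o ⟨false,0,⟨0,[(37,0)]⟩,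
  ⟨1,[(33,0),(4,1),(1,0)]⟩⟩,.o ⟨false,1,⟨3,[(20,0),(0,0),(15,3),(2,1)]⟩,⟨0,[(14,0)]⟩⟩,.o ⟨false,1,
  ⟨1,[(23,1),(9,0),(5,0)]⟩,⟨6,[(7,1),(6,1),(7,6),(2,2),(0,1),(1,2),(7,0)]⟩⟩,.a ⟨true,0,⟨0,[(23,0)]⟩,
  ⟨0,[(22,0)]⟩⟩ ⟨false,1,⟨2,[(3,0),(2,0),(4,0),(8,0),(15,1),(2,0)]⟩,⟨0,[(1,0),(12,0),(0,0),(7,0),(6,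
  0)]⟩⟩ ⟨true,0,⟨0,[(22,0),(14,0)]⟩,⟨0,[(14,0),(8,0)]⟩⟩]⟩))) (.Q [0,1,1,0,0,0,0,0,1,0,0,-1] (.p
  false [0,0,0,1] [] (⟨0,[(21,0)]⟩,⟨0,[(20,0)]⟩) .k 0 (⟨0,[]⟩,⟨0,[]⟩) .k .k) (.Q [0,1,-1,0,0,0,0,0,
  -1,0,0,1] (.p true [0,0,0,1] [] (⟨0,[(22,0)]⟩,⟨0,[(21,0)]⟩) .k 0 (⟨0,[]⟩,⟨0,[]⟩) .k .k) (.K ⟨0,[0,
  0,0,1],0,0,(⟨0,[(23,0)]⟩,⟨0,[(22,0)]⟩),.k,(.r (-1) ⟨1,[(5,0),(6,0),(8,0),(16,0)]⟩ ⟨2,[(0,0),(4,1),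
  (16,0),(2,0),(2,0),(7,3),(0,4)]⟩),(.x 0 ⟨0,[(35,0)]⟩ ⟨3,[(20,0),(0,0),(11,1),(0,3)]⟩),.k,.k,[⟨0,
  [(23,0)]⟩,⟨0,[(22,0)]⟩,⟨0,[(0,0)]⟩,⟨0,[(1,0)]⟩]⟩) (.Q [0,1,-1,-1,0,0,0,0,-1,-1,0,1] (.p true [0,0,
  0,1] [1] (⟨0,[(23,0)]⟩,⟨0,[(22,0)]⟩) .k 1 (⟨0,[]⟩,⟨0,[]⟩) .k .k) (.R ⟨2,true,false,true,[0,1],[1,
  0,0,-1],[0,1,1],(⟨0,[]⟩,⟨0,[]⟩),(⟨0,[(23,0)]⟩,⟨0,[(24,0)]⟩),⟨0,[]⟩,.k,.k,.k,(.x 0 ⟨0,[(36,0)]⟩ ⟨3,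
  [(21,0),(0,0),(11,1),(0,3)]⟩),.k,.k,⟨true,0,⟨1,[(1,0),(0,0),(21,1)]⟩,⟨0,[(6,0),(30,0),(0,0)]⟩⟩,
  ⟨false,1,⟨1,[(24,1),(9,0),(5,0)]⟩,⟨0,[(23,0)]⟩⟩,⟨false,0,⟨0,[(39,0)]⟩,⟨0,[(38,0),(2,0)]⟩⟩,⟨true,0,
  ⟨0,[(0,0)]⟩,⟨2,[(1,2),(8,0),(1,1),(10,0),(0,0),(3,0)]⟩⟩,⟨true,0,⟨0,[(43,0)]⟩,⟨0,[]⟩⟩,⟨false,1,⟨5,
  [(0,3),(7,1),(3,1),(8,0),(2,1),(9,0),(5,0),(0,2)]⟩,⟨0,[(1,0),(21,0),(0,0)]⟩⟩,[]⟩) (.Q [0,0,0,0,0,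
  -1,0,0,0,1,0,-1] (.ed true [0,1,0,1] .k) (.R ⟨1,true,false,false,[1,0,0,-1],[0,1],[0,0,0,-1,0,0,0,
  0,-1],(⟨0,[(24,0)]⟩,⟨0,[(25,0)]⟩),(⟨0,[(37,0)]⟩,⟨0,[(36,0)]⟩),⟨0,[(0,0)]⟩,.k,.k,(.x (-1) ⟨3,[(22,
  0),(0,0),(11,1),(0,3)]⟩ ⟨0,[(37,0)]⟩),(.x (-1) ⟨3,[(22,0),(0,0),(11,1),(0,3)]⟩ ⟨0,[(37,0)]⟩),(.r
  (-1) ⟨1,[(7,2),(6,0),(25,0),(1,0)]⟩ ⟨1,[(6,1),(2,0),(1,0),(9,0)]⟩),.k,⟨false,1,⟨1,[(7,2),(6,0),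
  (25,0),(1,0)]⟩,⟨0,[(2,0),(6,0),(3,0),(11,0)]⟩⟩,⟨true,0,⟨0,[(24,0)]⟩,⟨6,[(9,1),(6,1),(8,6),(1,2),
  (0,1),(1,2),(7,0)]⟩⟩,⟨true,0,⟨0,[(40,0)]⟩,⟨0,[(39,0)]⟩⟩,⟨false,0,⟨0,[(1,0)]⟩,⟨1,[(7,1),(17,1),(9,
  0),(6,0)]⟩⟩,⟨false,1,⟨3,[(22,0),(0,0),(18,1)]⟩,⟨0,[]⟩⟩,⟨true,0,⟨0,[(1,0),(37,0)]⟩,⟨0,[(7,0),(8,0),
  (8,0)]⟩⟩,[]⟩) (.R ⟨0,false,false,true,[1,0,0,-1],[0,1],[1,0,0,0,0,0,0,0,-1],(⟨0,[(24,0)]⟩,⟨0,[(25,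
  0)]⟩),(⟨0,[(37,0)]⟩,⟨0,[(36,0)]⟩),⟨0,[(0,0)]⟩,.k,.k,(.x (-1) ⟨3,[(22,0),(0,0),(11,1),(0,3)]⟩ ⟨0,
  [(37,0)]⟩),(.x (-1) ⟨3,[(22,0),(0,0),(11,1),(0,3)]⟩ ⟨0,[(37,0)]⟩),.k,.k,⟨false,1,⟨0,[(7,0),(30,0),
  (2,0)]⟩,⟨1,[(2,0),(0,0),(21,1),(13,1)]⟩⟩,⟨true,0,⟨0,[(24,0)]⟩,⟨6,[(9,1),(6,1),(8,6),(1,2),(0,1),
  (1,2),(7,0)]⟩⟩,⟨true,0,⟨0,[]⟩,⟨0,[(44,0)]⟩⟩,⟨false,0,⟨3,[(1,2),(1,0),(9,0),(15,0)]⟩,⟨2,[(7,2),(0,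
  0),(3,0),(12,2),(9,0),(2,1),(3,0)]⟩⟩,⟨false,0,⟨0,[]⟩,⟨0,[]⟩⟩,⟨false,0,⟨0,[]⟩,⟨0,[]⟩⟩,[.o ⟨false,0,
  ⟨0,[(39,0)]⟩,⟨1,[(35,0),(4,1),(1,0)]⟩⟩,.o ⟨false,1,⟨3,[(22,0),(0,0),(15,3),(2,1)]⟩,⟨0,[(16,0)]⟩⟩,
  .o ⟨false,1,⟨1,[(25,1),(9,0),(5,0)]⟩,⟨6,[(2,1),(4,1),(1,1),(14,4),(2,2),(0,1),(1,2),(7,0)]⟩⟩,.a
  ⟨true,0,⟨0,[(25,0)]⟩,⟨0,[(24,0)]⟩⟩ ⟨false,1,⟨2,[(5,0),(2,0),(4,0),(8,0),(15,1),(2,0)]⟩,⟨1,[(2,0),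
  (0,0),(21,1)]⟩⟩ ⟨true,0,⟨0,[(24,0),(14,0)]⟩,⟨0,[(16,0),(8,0)]⟩⟩]⟩)))) (.Q [0,0,0,0,0,-1,0,0,0,1,0,
  -1] (.ed true [0,1,0,1] .k) (.R ⟨1,false,false,false,[1,0,0,-1],[1,0,-1],[0,0,0,-1,0,0,0,0,-1],
  (⟨0,[(22,0)]⟩,⟨0,[(23,0)]⟩),(⟨0,[(31,0)]⟩,⟨0,[(32,0)]⟩),⟨0,[(0,0)]⟩,.k,.k,(.x (-1) ⟨3,[(20,0),(0,
  0),(11,1),(0,3)]⟩ ⟨0,[(35,0)]⟩),.k,(.r 0 ⟨0,[(1,0),(13,0),(6,0),(3,0)]⟩ ⟨3,[(9,3),(10,0),(0,2),(6,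
  3)]⟩),.k,⟨false,0,⟨0,[(1,0),(13,0),(6,0),(3,0)]⟩,⟨3,[(7,1),(1,1),(9,1),(0,0),(0,2)]⟩⟩,⟨true,0,⟨0,
  [(22,0),(2,0)]⟩,⟨0,[(10,0),(12,0)]⟩⟩,⟨true,0,⟨0,[(38,0)]⟩,⟨0,[(37,0)]⟩⟩,⟨false,1,⟨1,[(21,0),(0,1),
  (2,1),(4,1),(9,0)]⟩,⟨0,[(1,0),(24,0)]⟩⟩,⟨false,1,⟨3,[(20,0),(0,0),(18,1)]⟩,⟨0,[]⟩⟩,⟨false,1,⟨21,
  [(4,3),(2,17),(13,8),(0,21),(2,3),(1,7),(0,7),(7,1),(3,12)]⟩,⟨0,[(1,0),(24,0),(11,0)]⟩⟩,[.o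
  ⟨false,0,⟨0,[(13,0)]⟩,⟨3,[(20,0),(0,0),(4,3),(13,1)]⟩⟩,.o ⟨false,1,⟨7,[(7,1),(8,1),(10,3),(5,0),
  (6,6)]⟩,⟨0,[(26,0)]⟩⟩,.o ⟨false,1,⟨1,[(23,1),(9,0),(5,0)]⟩,⟨6,[(7,1),(6,1),(7,6),(2,2),(0,1),(1,
  2),(7,0)]⟩⟩,.a ⟨true,0,⟨0,[(23,0)]⟩,⟨0,[(22,0)]⟩⟩ ⟨false,0,⟨0,[(1,0),(12,0),(7,0)]⟩,⟨7,[(4,3),(2,
  1),(1,1),(9,1),(0,2),(0,4)]⟩⟩ ⟨true,0,⟨0,[(13,0),(8,0)]⟩,⟨0,[(23,0),(2,0)]⟩⟩]⟩) (.R ⟨0,false,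
  false,false,[1,0,0,-1],[1,0,-1],[0,1,0,0,0,0,0,0,-1],(⟨0,[(22,0)]⟩,⟨0,[(23,0)]⟩),(⟨0,[(31,0)]⟩,⟨0,
  [(32,0)]⟩),⟨0,[(0,0)]⟩,.k,.k,(.x (-1) ⟨3,[(20,0),(0,0),(11,1),(0,3)]⟩ ⟨0,[(35,0)]⟩),.k,.k,.k,
  ⟨false,0,⟨6,[(1,5),(3,0),(1,1),(7,3),(2,2),(3,5),(3,8)]⟩,⟨1,[(21,0),(8,1),(9,0)]⟩⟩,⟨true,0,⟨0,
  [(22,0),(2,0)]⟩,⟨0,[(10,0),(12,0)]⟩⟩,⟨true,0,⟨0,[(42,0)]⟩,⟨0,[]⟩⟩,⟨false,1,⟨1,[(21,0),(0,1),(2,1),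
  (4,1),(9,0)]⟩,⟨0,[(1,0),(24,0)]⟩⟩,⟨false,0,⟨0,[]⟩,⟨0,[]⟩⟩,⟨false,0,⟨0,[]⟩,⟨0,[]⟩⟩,[.o ⟨false,0,⟨0,
  [(13,0)]⟩,⟨3,[(20,0),(0,0),(4,3),(13,1)]⟩⟩,.o ⟨false,1,⟨7,[(7,1),(8,1),(10,3),(5,0),(6,6)]⟩,⟨0,
  [(26,0)]⟩⟩,.o ⟨false,1,⟨1,[(23,1),(9,0),(5,0)]⟩,⟨6,[(7,1),(6,1),(7,6),(2,2),(0,1),(1,2),(7,0)]⟩⟩,
  .a ⟨true,0,⟨0,[(23,0)]⟩,⟨0,[(22,0)]⟩⟩ ⟨false,0,⟨3,[(1,2),(3,0),(1,1),(6,0),(7,2),(3,1)]⟩,⟨1,[(21,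
  0),(6,0),(0,0),(10,0)]⟩⟩ ⟨true,0,⟨0,[(13,0),(8,0)]⟩,⟨0,[(23,0),(2,0)]⟩⟩]⟩)))) (.Q [0,0,0,0,0,-1,0,
  0,0,1,0,-1] (.ed true [0,1,0,1] .k) (.R ⟨1,false,false,true,[1,0,0,-1],[0,1],[1,0,0,0,0,0,0,0,-1],
  (⟨0,[(20,0)]⟩,⟨0,[(21,0)]⟩),(⟨0,[(33,0)]⟩,⟨0,[(32,0)]⟩),⟨0,[(0,0)]⟩,.k,.k,(.x (-1) ⟨3,[(18,0),(0,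
  0),(11,1),(0,3)]⟩ ⟨0,[(33,0)]⟩),(.x (-1) ⟨3,[(18,0),(0,0),(11,1),(0,3)]⟩ ⟨0,[(33,0)]⟩),(.r (-1)
  ⟨1,[(3,2),(6,0),(25,0),(1,0)]⟩ ⟨1,[(2,1),(2,0),(1,0),(9,0)]⟩),.k,⟨false,1,⟨0,[(3,0),(30,0),(2,
  0)]⟩,⟨1,[(1,1),(15,0),(4,0),(2,0)]⟩⟩,⟨true,0,⟨0,[(20,0)]⟩,⟨6,[(5,1),(6,1),(8,6),(1,2),(0,1),(1,2),
  (7,0)]⟩⟩,⟨true,0,⟨0,[]⟩,⟨0,[(40,0)]⟩⟩,⟨false,0,⟨0,[(1,0),(18,0),(7,0)]⟩,⟨2,[(3,2),(0,0),(3,0),(12,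
  2),(9,0),(2,1),(3,0)]⟩⟩,⟨false,1,⟨0,[(35,0),(2,0)]⟩,⟨0,[(36,0)]⟩⟩,⟨false,0,⟨1,[(1,1),(3,0),(1,0),
  (9,0),(2,1)]⟩,⟨0,[(3,0),(8,0),(8,0),(16,0)]⟩⟩,[.o ⟨false,0,⟨0,[(35,0)]⟩,⟨1,[(31,0),(4,1),(1,0)]⟩⟩,
  .o ⟨false,1,⟨3,[(18,0),(0,0),(15,3),(2,1)]⟩,⟨0,[(12,0)]⟩⟩,.o ⟨false,1,⟨1,[(21,1),(9,0),(5,0)]⟩,⟨6,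
  [(5,1),(6,1),(7,6),(2,2),(0,1),(1,2),(7,0)]⟩⟩,.a ⟨true,0,⟨0,[(21,0)]⟩,⟨0,[(20,0)]⟩⟩ ⟨false,1,⟨9,
  [(3,3),(1,1),(3,1),(8,2),(15,7),(2,6)]⟩,⟨0,[(1,0),(26,0),(7,0)]⟩⟩ ⟨true,0,⟨0,[(20,0),(14,0)]⟩,⟨0,
  [(12,0),(8,0)]⟩⟩]⟩) (.R ⟨0,false,false,true,[1,0,0,-1],[0,1],[1,0,0,0,0,0,0,0,-1],(⟨0,[(20,0)]⟩,
  ⟨0,[(21,0)]⟩),(⟨0,[(33,0)]⟩,⟨0,[(32,0)]⟩),⟨0,[(0,0)]⟩,.k,.k,(.x (-1) ⟨3,[(18,0),(0,0),(11,1),(0,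
  3)]⟩ ⟨0,[(33,0)]⟩),(.x (-1) ⟨3,[(18,0),(0,0),(11,1),(0,3)]⟩ ⟨0,[(33,0)]⟩),.k,.k,⟨false,1,⟨0,[(3,
  0),(30,0),(2,0)]⟩,⟨1,[(1,1),(15,0),(4,0),(2,0)]⟩⟩,⟨true,0,⟨0,[(20,0)]⟩,⟨6,[(5,1),(6,1),(8,6),(1,
  2),(0,1),(1,2),(7,0)]⟩⟩,⟨true,0,⟨0,[]⟩,⟨0,[(40,0)]⟩⟩,⟨false,0,⟨0,[(1,0),(18,0),(7,0)]⟩,⟨2,[(3,2),
  (0,0),(3,0),(12,2),(9,0),(2,1),(3,0)]⟩⟩,⟨false,0,⟨0,[]⟩,⟨0,[]⟩⟩,⟨false,0,⟨0,[]⟩,⟨0,[]⟩⟩,[.o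
  ⟨false,0,⟨0,[(35,0)]⟩,⟨1,[(31,0),(4,1),(1,0)]⟩⟩,.o ⟨false,1,⟨3,[(18,0),(0,0),(15,3),(2,1)]⟩,⟨0,
  [(12,0)]⟩⟩,.o ⟨false,1,⟨1,[(21,1),(9,0),(5,0)]⟩,⟨6,[(5,1),(6,1),(7,6),(2,2),(0,1),(1,2),(7,0)]⟩⟩,
  .a ⟨true,0,⟨0,[(21,0)]⟩,⟨0,[(20,0)]⟩⟩ ⟨false,1,⟨9,[(3,3),(1,1),(3,1),(8,2),(15,7),(2,6)]⟩,⟨0,[(1,
  0),(26,0),(7,0)]⟩⟩ ⟨true,0,⟨0,[(20,0),(14,0)]⟩,⟨0,[(12,0),(8,0)]⟩⟩]⟩)))))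

theorem ok14 : chk (cU (-1) true 10) t14 r13 = true := by decide +kernel

noncomputable def t28 : Tre :=
  (.Q [0,1,0,1,0,0,1,1,0,1,-1] (.p false [0,0,1] [1] (⟨0,[(20,0)]⟩,⟨0,[(19,0)]⟩) .k 1 (⟨0,[]⟩,⟨0,
  []⟩) .k .k) (.K ⟨0,[1,-1,-1],0,0,(⟨0,[(6,0)]⟩,⟨0,[(21,0),(2,0)]⟩),.k,(.r (-1) ⟨0,[(19,0),(7,1),(0,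
  0)]⟩ ⟨0,[(0,0),(13,0),(10,0),(0,0)]⟩),.k,.k,.k,[⟨1,[(1,0),(6,0),(10,0)]⟩,⟨1,[(1,0),(0,0)]⟩,⟨0,[(0,
  0)]⟩,⟨0,[(13,0),(13,0)]⟩]⟩) (.R ⟨2,true,false,true,[0,1],[0,1,1],[0,1,1],(⟨0,[]⟩,⟨0,[]⟩),(⟨0,[(21,
  0),(2,0)]⟩,⟨0,[(6,0)]⟩),⟨0,[]⟩,.k,.k,.k,.k,.k,.k,⟨true,0,⟨0,[(19,0),(7,0)]⟩,⟨0,[(5,0),(19,0),(0,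
  0)]⟩⟩,⟨false,1,⟨7,[(8,3),(0,0),(0,0),(11,1),(5,3)]⟩,⟨1,[(1,0),(0,0)]⟩⟩,⟨false,0,⟨0,[(27,0)]⟩,⟨0,
  [(26,0),(2,0)]⟩⟩,⟨true,0,⟨0,[(15,0)]⟩,⟨1,[(1,0),(0,0),(16,1)]⟩⟩,⟨true,0,⟨0,[(31,0)]⟩,⟨0,[]⟩⟩,
  ⟨false,1,⟨0,[(15,0),(10,0),(2,0)]⟩,⟨0,[(0,0),(0,0),(17,0)]⟩⟩,[]⟩))

theorem ok28 : chk (cU (-1) true 10) t28 l18 = true := by decide +kernel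

noncomputable def t38 : Tre :=
  (.K ⟨2,[1,-1,-1],0,0,(⟨0,[(3,0)]⟩,⟨0,[(18,0),(2,0)]⟩),.k,(.r (-1) ⟨7,[(0,3),(5,0),(0,0),(16,11),
  (0,5)]⟩ ⟨1,[(4,0),(7,1),(2,0),(6,2),(0,2)]⟩),.k,(.r 0 ⟨0,[(0,0)]⟩ ⟨1,[(4,1),(7,3),(2,1),(6,1),(2,
  0),(0,0)]⟩),.k,[⟨0,[(1,0)]⟩,⟨1,[(14,0),(0,0)]⟩,⟨1,[(5,0),(2,0),(0,0)]⟩,⟨1,[(11,1),(2,0),(0,0)]⟩,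
  ⟨1,[(1,0),(2,1),(3,0),(0,0),(2,1),(9,0)]⟩,⟨0,[(10,0),(13,0)]⟩]⟩)

theorem ok38 : chk (cU (-1) true 10) t38 l21 = true := by decide +kernel

noncomputable def t51 : Tre :=
  (.Q [0,0,0,0,0,-1,0,0,0,0,1] (.ed false [1,-1,1] .k) (.R ⟨0,false,false,true,[0,-1,1],[1,-1,-1],
  [1,1],(⟨0,[(0,0)]⟩,⟨1,[(1,0),(14,0),(0,0),(7,0)]⟩),(⟨0,[(11,0)]⟩,⟨1,[(1,0),(24,2)]⟩),⟨0,[(1,0)]⟩,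
  .k,.k,(.r (-1) ⟨1,[(3,0),(0,0),(3,0),(0,0),(2,0),(19,2)]⟩ ⟨1,[(2,1),(19,2),(0,0)]⟩),.k,.k,.k,
  ⟨true,0,⟨9,[(2,1),(5,5),(13,2),(0,0)]⟩,⟨0,[(24,0),(7,0)]⟩⟩,⟨false,1,⟨7,[(2,1),(0,6),(4,0),(3,1),
  (6,0),(3,3),(10,0)]⟩,⟨0,[(13,0)]⟩⟩,⟨false,0,⟨5,[(2,2),(18,1),(0,4),(1,0),(5,0)]⟩,⟨15,[(4,11),(3,
  7),(5,0),(0,0),(18,1)]⟩⟩,⟨true,0,⟨0,[(2,0),(15,0),(13,1)]⟩,⟨0,[(8,0),(0,0),(22,0)]⟩⟩,⟨false,0,⟨0,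
  []⟩,⟨0,[]⟩⟩,⟨false,0,⟨0,[]⟩,⟨0,[]⟩⟩,[.o ⟨false,0,⟨0,[(18,0),(13,0)]⟩,⟨9,[(2,1),(5,5),(0,5),(4,0),
  (0,0),(11,2),(6,4)]⟩⟩,.a ⟨true,0,⟨0,[(2,0),(29,2)]⟩,⟨4,[(2,0),(3,0),(1,2),(0,1),(15,1),(2,0)]⟩⟩
  ⟨true,0,⟨0,[]⟩,⟨1,[(22,0),(0,0)]⟩⟩ ⟨false,1,⟨0,[(2,0),(0,0),(28,1)]⟩,⟨9,[(2,1),(5,5),(4,9),(8,2),
  (0,0)]⟩⟩,.o ⟨false,0,⟨0,[(22,0)]⟩,⟨3,[(3,1),(8,1),(14,0),(6,0)]⟩⟩,.e ⟨false,1,⟨3,[(14,0),(0,0),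
  (17,1)]⟩,⟨3,[(22,0),(0,0),(6,1)]⟩⟩ ⟨false,1,⟨0,[(2,0),(0,0),(28,1)]⟩,⟨19,[(2,3),(5,11),(4,19),(8,
  10),(0,6),(6,9)]⟩⟩]⟩) (.R ⟨0,false,false,true,[0,0,1],[1,0,-1],[0,1,1],(⟨0,[(26,0)]⟩,⟨0,[(25,
  0)]⟩),(⟨0,[(25,0)]⟩,⟨0,[(26,0)]⟩),⟨0,[(0,0)]⟩,.k,.k,.k,.k,.k,.k,⟨true,0,⟨3,[(8,1),(13,0),(0,0),(8,
  1)]⟩,⟨0,[(24,0)]⟩⟩,⟨false,1,⟨7,[(2,1),(0,6),(4,0),(3,1),(6,0),(3,3),(10,0)]⟩,⟨0,[(13,0)]⟩⟩,⟨false,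
  0,⟨2,[(21,1),(0,1),(1,0),(5,0)]⟩,⟨7,[(4,1),(3,3),(21,1),(2,4),(0,0)]⟩⟩,⟨true,0,⟨0,[(2,0),(15,0),
  (13,1)]⟩,⟨0,[(8,0),(0,0),(22,0)]⟩⟩,⟨false,0,⟨0,[]⟩,⟨0,[]⟩⟩,⟨false,0,⟨0,[]⟩,⟨0,[]⟩⟩,[.o ⟨false,0,
  ⟨0,[(18,0)]⟩,⟨0,[(20,0),(13,0)]⟩⟩,.a ⟨true,0,⟨0,[(2,0),(29,1)]⟩,⟨3,[(6,0),(1,1),(0,0),(15,1),(2,
  0),(3,1)]⟩⟩ ⟨true,0,⟨1,[(22,0),(0,0)]⟩,⟨0,[]⟩⟩ ⟨false,1,⟨2,[(2,0),(0,1),(15,0),(1,1),(12,0)]⟩,⟨1,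
  [(8,0),(0,0),(3,0),(18,0)]⟩⟩,.o ⟨false,0,⟨0,[(9,0),(9,0)]⟩,⟨7,[(3,1),(8,1),(1,1),(0,1),(3,3),(7,
  0),(6,0)]⟩⟩,.o ⟨false,0,⟨0,[(22,0)]⟩,⟨3,[(3,1),(8,1),(14,0),(6,0)]⟩⟩]⟩))

theorem ok51 : chk (cU (-1) true 10) t51 r28 = true := by decide +kernel

noncomputable def t67 : Tre :=
  (.Q [0,1,0,1,0,0,-1,-1,0,-1,1] (.p true [0,0,1] [1] (⟨0,[(25,0)]⟩,⟨0,[(24,0)]⟩) .k 1 (⟨0,[]⟩,⟨0,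
  []⟩) .k .k) (.Q [0,0,0,2,0,0,-1,-1,0,0,1] (.p true [0,0,1] [] (⟨0,[(26,0)]⟩,⟨0,[(25,0)]⟩) .k 0
  (⟨0,[]⟩,⟨0,[]⟩) .k .k) (.Q [0,0,-2,0,1,0,-1,0,0,0,1] (.p true [0,0,1] [] (⟨0,[(27,0)]⟩,⟨0,[(26,
  0)]⟩) .k 0 (⟨0,[]⟩,⟨0,[]⟩) .k .k) (.Q [0,0,2,0,-1,0,1,0,0,1,-1] (.p false [0,0,1] [1] (⟨0,[(28,
  0)]⟩,⟨0,[(27,0)]⟩) .k 1 (⟨0,[]⟩,⟨0,[]⟩) .k .k) (.K ⟨0,[1,1,-1],1,0,(⟨0,[(28,0),(3,0)]⟩,⟨0,[(5,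
  0)]⟩),.k,.k,(.r 1 ⟨0,[(4,0),(8,0)]⟩ ⟨3,[(1,3),(15,0),(0,0),(4,3),(11,7),(1,1)]⟩),.k,.k,[⟨0,[(0,
  0)]⟩,⟨0,[(1,0)]⟩,⟨0,[(19,0),(0,0),(2,0),(11,0)]⟩,⟨0,[(3,0)]⟩]⟩) (.Q [0,0,0,3,0,0,0,0,0,1] (.pp
  false [-1,1]) (.R ⟨1,false,false,true,[1,-1],[0,1],[1,0,-1,-1],(⟨0,[(32,0)]⟩,⟨0,[(33,0)]⟩),(⟨0,
  [(33,0)]⟩,⟨0,[(32,0)]⟩),⟨1,[(6,0),(1,0),(23,0)]⟩,.k,.k,(.r (-1) ⟨0,[(36,1),(0,0)]⟩ ⟨3,[(5,3),(12,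
  0),(0,0),(18,1)]⟩),(.r (-1) ⟨0,[(36,1),(0,0)]⟩ ⟨3,[(5,3),(12,0),(0,0),(18,1)]⟩),(.r (-2) ⟨3,[(18,
  0),(0,0),(16,11),(0,5)]⟩ ⟨13,[(0,1),(4,17),(25,0),(2,5),(3,2)]⟩),.k,⟨false,2,⟨1,[(36,3),(0,2),(0,
  0)]⟩,⟨0,[(5,0)]⟩⟩,⟨true,1,⟨1,[(2,1),(14,0),(2,0),(0,0)]⟩,⟨0,[(1,0),(3,1),(4,0),(23,0),(1,4)]⟩⟩,
  ⟨true,0,⟨0,[]⟩,⟨0,[(40,0)]⟩⟩,⟨false,0,⟨2,[(0,1),(19,0),(0,0)]⟩,⟨1,[(31,0),(4,3),(1,0)]⟩⟩,⟨false,1,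
  ⟨5,[(0,1),(17,0),(0,0),(11,0),(6,2)]⟩,⟨0,[(36,0)]⟩⟩,⟨false,0,⟨0,[(0,0)]⟩,⟨1,[(31,0),(4,5),(1,
  0)]⟩⟩,[.o ⟨false,0,⟨0,[(35,0)]⟩,⟨1,[(31,0),(4,1),(1,0)]⟩⟩,.a ⟨true,0,⟨2,[(0,0),(19,1),(0,1)]⟩,⟨0,
  [(36,0)]⟩⟩ ⟨true,1,⟨1,[(36,1),(0,0),(0,0)]⟩,⟨0,[(5,0),(30,0)]⟩⟩ ⟨false,1,⟨0,[(2,0),(8,0)]⟩,⟨0,
  [(10,0),(12,0),(12,1)]⟩⟩,.o ⟨false,0,⟨0,[(10,0),(12,0),(12,0)]⟩,⟨3,[(18,0),(0,0),(17,1)]⟩⟩,.o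
  ⟨false,0,⟨0,[(23,0),(2,0)]⟩,⟨0,[(37,0)]⟩⟩]⟩) (.I [1,0,-2,-1,1,0,0,0,1] (.Q [0,-1,-1,1,1,0,0,0,-1,
  0,0,1] (.p true [0,0,0,1] [] (⟨0,[(22,0)]⟩,⟨0,[(21,0)]⟩) .k 0 (⟨0,[]⟩,⟨0,[]⟩) .k .k) (.Q [0,0,0,0,
  0,-1,0,0,0,1,0,-1] (.ed true [0,1,0,1] .k) (.Q [0,0,0,2,0,0,0,0,0,1] (.pp false [-1,1]) (.R ⟨1,
  true,false,true,[1,-1],[0,1],[1,0,-1,-1],(⟨0,[(36,0)]⟩,⟨0,[(37,0)]⟩),(⟨0,[(37,0)]⟩,⟨0,[(36,0)]⟩),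
  ⟨1,[(10,0),(1,0),(23,0)]⟩,.k,.k,(.r (-1) ⟨5,[(4,3),(1,5),(14,2),(2,0),(0,0)]⟩ ⟨3,[(9,3),(12,0),(0,
  0),(18,1)]⟩),(.r (-1) ⟨5,[(4,3),(1,5),(14,2),(2,0),(0,0)]⟩ ⟨3,[(9,3),(12,0),(0,0),(18,1)]⟩),(.r
  (-2) ⟨11,[(3,11),(0,7),(1,5),(14,2),(0,5),(1,4),(0,4)]⟩ ⟨9,[(7,0),(1,12),(1,0),(2,0),(23,2),(3,
  2)]⟩),.k,⟨false,2,⟨5,[(2,3),(0,3),(0,3),(19,3),(16,2),(0,0)]⟩,⟨0,[(9,0)]⟩⟩,⟨true,1,⟨1,[(6,1),(14,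
  0),(2,0),(0,0)]⟩,⟨16,[(4,11),(4,17),(17,2),(2,2),(4,0),(2,8)]⟩⟩,⟨true,0,⟨0,[]⟩,⟨0,[(44,0)]⟩⟩,
  ⟨false,0,⟨0,[(0,0)]⟩,⟨5,[(4,3),(17,0),(0,0),(11,0),(6,2)]⟩⟩,⟨false,1,⟨7,[(0,3),(21,0),(0,0),(11,
  1),(6,3)]⟩,⟨0,[(40,0)]⟩⟩,⟨true,0,⟨0,[(0,0),(38,0)]⟩,⟨0,[(4,0)]⟩⟩,[]⟩) (.I [0,0,-1,-1,1,0,0,1,-1]
  (.R ⟨1,false,false,false,[1,0,0,-1],[1,0,-1],[0,0,0,-1,0,0,0,0,-1],(⟨0,[(25,0)]⟩,⟨0,[(26,0)]⟩),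
  (⟨0,[(34,0)]⟩,⟨0,[(35,0)]⟩),⟨0,[(2,0)]⟩,.k,.k,(.x (-1) ⟨11,[(11,3),(1,3),(9,4),(0,4),(11,1)]⟩ ⟨0,
  [(38,0)]⟩),.k,(.r (-1) ⟨0,[(0,0)]⟩ ⟨1,[(10,0),(8,0),(4,0),(8,0)]⟩),.k,⟨false,1,⟨0,[(0,0)]⟩,⟨0,[(4,
  0),(5,0),(8,0)]⟩⟩,⟨true,0,⟨0,[(25,0),(2,0)]⟩,⟨4,[(5,0),(9,2),(6,0),(3,4)]⟩⟩,⟨true,0,⟨0,[(41,0)]⟩,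
  ⟨0,[(40,0)]⟩⟩,⟨false,0,⟨1,[(1,0),(2,1),(5,1),(7,0),(0,1),(5,1),(13,0)]⟩,⟨6,[(0,1),(2,4),(1,0),(16,
  0),(3,1),(2,4)]⟩⟩,⟨false,1,⟨3,[(23,0),(0,0),(18,1)]⟩,⟨0,[]⟩⟩,⟨false,0,⟨0,[(1,0),(2,0),(3,0),(1,0),
  (14,0),(13,0)]⟩,⟨6,[(0,3),(2,2),(1,1),(16,1),(3,3),(2,2)]⟩⟩,[.o ⟨false,0,⟨0,[(1,0),(6,0)]⟩,⟨3,[(0,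
  1),(13,1),(9,0),(6,1),(11,0)]⟩⟩,.o ⟨false,1,⟨0,[(27,0),(15,0)]⟩,⟨0,[(29,0)]⟩⟩,.o ⟨false,1,⟨1,[(26,
  1),(9,0),(5,0)]⟩,⟨16,[(5,3),(4,5),(14,16),(2,0),(2,0),(4,5),(2,2)]⟩⟩,.a ⟨true,0,⟨0,[(26,0)]⟩,⟨0,
  [(25,0)]⟩⟩ ⟨false,1,⟨0,[(0,0),(18,0)]⟩,⟨2,[(4,0),(5,1),(13,0),(14,0)]⟩⟩ ⟨true,0,⟨0,[(1,0),(6,0),
  (16,0)]⟩,⟨0,[(26,0),(2,0)]⟩⟩]⟩) (.R ⟨1,false,false,false,[1,0,0,-1],[1,0,-1],[1,1,0,0,0,0,0,0,-1],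
  (⟨0,[(25,0)]⟩,⟨0,[(26,0)]⟩),(⟨0,[(34,0)]⟩,⟨0,[(35,0)]⟩),⟨0,[(2,0)]⟩,.k,.k,(.x (-1) ⟨11,[(11,3),(1,
  3),(9,4),(0,4),(11,1)]⟩ ⟨0,[(38,0)]⟩),.k,(.x 0 ⟨4,[(5,0),(5,4),(3,2),(6,0)]⟩ ⟨4,[(6,0),(10,1),(5,
  1),(0,1),(9,0),(3,6)]⟩),.k,⟨false,1,⟨0,[(3,0),(1,0),(8,0),(6,0),(3,0)]⟩,⟨26,[(0,11),(3,8),(0,0),
  (13,14),(4,2),(0,0),(0,0),(12,5)]⟩⟩,⟨true,0,⟨0,[(25,0),(2,0)]⟩,⟨4,[(5,0),(9,2),(6,0),(3,4)]⟩⟩,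
  ⟨false,0,⟨0,[]⟩,⟨3,[(23,0),(0,0),(18,1)]⟩⟩,⟨false,0,⟨25,[(0,17),(4,5),(0,1),(11,11),(0,7),(4,3),
  (0,25),(10,2),(6,8)]⟩,⟨2,[(3,2),(1,0),(19,0),(0,0),(2,2)]⟩⟩,⟨true,0,⟨0,[(40,0)]⟩,⟨0,[(41,0)]⟩⟩,
  ⟨false,0,⟨39,[(0,35),(5,5),(1,1),(9,15),(0,1),(4,1),(0,39),(10,8),(6,18)]⟩,⟨2,[(3,2),(1,1),(19,1),
  (0,1),(2,2)]⟩⟩,[.o ⟨false,0,⟨0,[(1,0),(6,0)]⟩,⟨3,[(23,0),(0,0),(4,3),(13,1)]⟩⟩,.o ⟨false,1,⟨0,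
  [(27,0),(15,0)]⟩,⟨0,[(29,0)]⟩⟩,.o ⟨false,1,⟨1,[(26,1),(9,0),(5,0)]⟩,⟨16,[(5,3),(4,5),(14,16),(2,
  0),(2,0),(4,5),(2,2)]⟩⟩,.a ⟨true,0,⟨0,[(26,0)]⟩,⟨0,[(25,0)]⟩⟩ ⟨false,1,⟨1,[(23,0),(18,0)]⟩,⟨8,[(0,
  2),(4,1),(6,2),(11,2),(0,1),(0,1),(12,2)]⟩⟩ ⟨true,0,⟨0,[(1,0),(6,0),(16,0)]⟩,⟨0,[(26,0),(2,
  0)]⟩⟩]⟩))) (.Q [0,0,0,2,0,0,0,0,0,1] (.pp false [-1,1]) (.R ⟨1,true,false,true,[1,-1],[0,1],[1,0,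
  -1,-1],(⟨0,[(36,0)]⟩,⟨0,[(37,0)]⟩),(⟨0,[(37,0)]⟩,⟨0,[(36,0)]⟩),⟨1,[(10,0),(1,0),(23,0)]⟩,.k,.k,
  (.r (-1) ⟨5,[(4,3),(1,5),(14,2),(2,0),(0,0)]⟩ ⟨3,[(9,3),(12,0),(0,0),(18,1)]⟩),(.r (-1) ⟨5,[(4,3),
  (1,5),(14,2),(2,0),(0,0)]⟩ ⟨3,[(9,3),(12,0),(0,0),(18,1)]⟩),(.r (-2) ⟨11,[(3,11),(0,7),(1,5),(14,
  2),(0,5),(1,4),(0,4)]⟩ ⟨9,[(7,0),(1,12),(1,0),(2,0),(23,2),(3,2)]⟩),.k,⟨false,2,⟨5,[(2,3),(0,3),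
  (0,3),(19,3),(16,2),(0,0)]⟩,⟨0,[(9,0)]⟩⟩,⟨true,1,⟨1,[(6,1),(14,0),(2,0),(0,0)]⟩,⟨16,[(4,11),(4,
  17),(17,2),(2,2),(4,0),(2,8)]⟩⟩,⟨true,0,⟨0,[]⟩,⟨0,[(44,0)]⟩⟩,⟨false,0,⟨0,[(0,0)]⟩,⟨5,[(4,3),(17,
  0),(0,0),(11,0),(6,2)]⟩⟩,⟨false,1,⟨7,[(0,3),(21,0),(0,0),(11,1),(6,3)]⟩,⟨0,[(40,0)]⟩⟩,⟨true,0,⟨0,
  [(0,0),(38,0)]⟩,⟨0,[(4,0)]⟩⟩,[]⟩) (.I [0,0,-1,-1,1,0,0,1,-1] (.R ⟨0,false,false,false,[1,0,0,-1],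
  [1,0,-1],[0,0,0,-1,0,0,0,0,-1],(⟨0,[(25,0)]⟩,⟨0,[(26,0)]⟩),(⟨0,[(34,0)]⟩,⟨0,[(35,0)]⟩),⟨0,[(2,
  0)]⟩,.k,.k,(.x (-1) ⟨11,[(11,3),(1,3),(9,4),(0,4),(11,1)]⟩ ⟨0,[(38,0)]⟩),.k,.k,.k,⟨false,1,⟨0,[(0,
  0)]⟩,⟨0,[(4,0),(5,0),(8,0)]⟩⟩,⟨true,0,⟨0,[(25,0),(2,0)]⟩,⟨4,[(5,0),(9,2),(6,0),(3,4)]⟩⟩,⟨true,0,
  ⟨0,[(41,0)]⟩,⟨0,[(40,0)]⟩⟩,⟨false,0,⟨1,[(1,0),(2,1),(5,1),(7,0),(0,1),(5,1),(13,0)]⟩,⟨6,[(0,1),(2,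
  4),(1,0),(16,0),(3,1),(2,4)]⟩⟩,⟨false,0,⟨0,[]⟩,⟨0,[]⟩⟩,⟨false,0,⟨0,[]⟩,⟨0,[]⟩⟩,[.o ⟨false,0,⟨0,
  [(1,0),(6,0)]⟩,⟨3,[(0,1),(13,1),(9,0),(6,1),(11,0)]⟩⟩,.o ⟨false,1,⟨0,[(27,0),(15,0)]⟩,⟨0,[(29,
  0)]⟩⟩,.o ⟨false,1,⟨1,[(26,1),(9,0),(5,0)]⟩,⟨16,[(5,3),(4,5),(14,16),(2,0),(2,0),(4,5),(2,2)]⟩⟩,.a
  ⟨true,0,⟨0,[(26,0)]⟩,⟨0,[(25,0)]⟩⟩ ⟨false,1,⟨0,[(0,0),(18,0)]⟩,⟨2,[(4,0),(5,1),(13,0),(14,0)]⟩⟩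
  ⟨true,0,⟨0,[(1,0),(6,0),(16,0)]⟩,⟨0,[(26,0),(2,0)]⟩⟩]⟩) (.R ⟨0,false,false,false,[1,0,0,-1],[1,0,
  -1],[1,0,1,0,0,0,0,-1],(⟨0,[(25,0)]⟩,⟨0,[(26,0)]⟩),(⟨0,[(34,0)]⟩,⟨0,[(35,0)]⟩),⟨0,[(2,0)]⟩,.k,.k,
  (.x (-1) ⟨11,[(11,3),(1,3),(9,4),(0,4),(11,1)]⟩ ⟨0,[(38,0)]⟩),.k,.k,.k,⟨false,0,⟨0,[]⟩,⟨3,[(23,0),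
  (0,0),(17,1)]⟩⟩,⟨true,0,⟨0,[(25,0),(2,0)]⟩,⟨4,[(5,0),(9,2),(6,0),(3,4)]⟩⟩,⟨true,(-1),⟨2,[(0,2),(4,
  0),(19,0),(0,0)]⟩,⟨0,[(3,0),(1,0),(8,0),(6,0),(3,0)]⟩⟩,⟨false,0,⟨25,[(0,17),(4,5),(0,1),(11,11),
  (0,7),(4,3),(0,25),(10,2),(6,8)]⟩,⟨2,[(3,2),(1,0),(19,0),(0,0),(2,2)]⟩⟩,⟨false,0,⟨0,[]⟩,⟨0,[]⟩⟩,
  ⟨false,0,⟨0,[]⟩,⟨0,[]⟩⟩,[.o ⟨false,0,⟨0,[(1,0),(6,0)]⟩,⟨3,[(23,0),(0,0),(4,3),(13,1)]⟩⟩,.o ⟨false,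
  1,⟨0,[(27,0),(15,0)]⟩,⟨0,[(29,0)]⟩⟩,.o ⟨false,1,⟨1,[(26,1),(9,0),(5,0)]⟩,⟨16,[(5,3),(4,5),(14,16),
  (2,0),(2,0),(4,5),(2,2)]⟩⟩,.a ⟨true,0,⟨0,[(26,0)]⟩,⟨0,[(25,0)]⟩⟩ ⟨false,0,⟨0,[(19,0)]⟩,⟨7,[(4,3),
  (7,3),(10,2),(0,0),(4,3),(2,3)]⟩⟩ ⟨true,0,⟨0,[(1,0),(6,0),(16,0)]⟩,⟨0,[(26,0),(2,0)]⟩⟩]⟩)))) (.Q
  [0,1,1,0,-1,0,0,0,1,0,0,-1] (.p false [0,0,0,1] [] (⟨0,[(23,0)]⟩,⟨0,[(22,0)]⟩) .k 0 (⟨0,[]⟩,⟨0,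
  []⟩) .k .k) (.K ⟨0,[0,0,0,1],0,(-1),(⟨0,[(24,0)]⟩,⟨0,[(23,0)]⟩),.k,(.x 0 ⟨5,[(9,1),(1,1),(4,1),
  (12,6),(0,2)]⟩ ⟨0,[(36,0),(3,0)]⟩),(.x 0 ⟨0,[(36,0)]⟩ ⟨11,[(9,3),(1,3),(9,4),(0,4),(11,1)]⟩),.k,
  .k,[⟨0,[(24,0)]⟩,⟨0,[(23,0)]⟩,⟨1,[(21,0),(2,1),(15,0),(2,1)]⟩,⟨0,[(0,0)]⟩]⟩) (.I [0,0,1,0,0,0,0,0,
  -1] (.R ⟨2,true,false,true,[0,1],[0,0,0,1],[0,1,1],(⟨0,[]⟩,⟨0,[]⟩),(⟨0,[(25,0)]⟩,⟨0,[(24,0)]⟩),⟨0,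
  []⟩,.k,.k,.k,(.x (-1) ⟨0,[(37,0),(3,0)]⟩ ⟨5,[(10,1),(1,1),(4,1),(12,6),(0,2)]⟩),.k,.k,⟨true,0,⟨0,
  [(0,0)]⟩,⟨31,[(2,14),(0,12),(3,6),(3,6),(2,6),(8,1),(1,14),(12,3)]⟩⟩,⟨false,0,⟨9,[(2,3),(6,1),(12,
  1),(1,5),(10,2),(2,1),(3,0)]⟩,⟨0,[(25,0),(15,0)]⟩⟩,⟨false,0,⟨0,[(40,0)]⟩,⟨5,[(7,1),(5,1),(8,0),(0,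
  0),(18,3)]⟩⟩,⟨true,(-1),⟨0,[(2,0)]⟩,⟨0,[(1,0),(37,0)]⟩⟩,⟨true,0,⟨0,[(44,0)]⟩,⟨0,[]⟩⟩,⟨false,0,⟨33,
  [(2,19),(4,1),(1,5),(1,1),(2,1),(8,6),(0,13),(10,6),(6,11)]⟩,⟨0,[(1,0)]⟩⟩,[]⟩) (.R ⟨2,false,false,
  true,[0,1],[0,0,0,1],[],(⟨0,[]⟩,⟨0,[]⟩),(⟨0,[(25,0)]⟩,⟨0,[(24,0)]⟩),⟨0,[]⟩,.k,.k,.k,(.x (-1) ⟨0,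
  [(37,0),(3,0)]⟩ ⟨5,[(10,1),(1,1),(4,1),(12,6),(0,2)]⟩),.k,.k,⟨true,1,⟨1,[(22,0),(19,0)]⟩,⟨2,[(0,
  0),(1,1),(6,0),(15,1)]⟩⟩,⟨false,0,⟨9,[(2,3),(6,1),(12,1),(1,5),(10,2),(2,1),(3,0)]⟩,⟨0,[(25,0),
  (15,0)]⟩⟩,⟨false,1,⟨7,[(1,1),(1,1),(0,1),(19,1),(16,0),(0,2)]⟩,⟨7,[(9,3),(12,0),(0,0),(18,1)]⟩⟩,
  ⟨true,(-1),⟨0,[(2,0)]⟩,⟨0,[(1,0),(37,0)]⟩⟩,⟨false,1,⟨1,[(41,0),(0,0)]⟩,⟨1,[(30,0),(0,0)]⟩⟩,⟨false,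
  0,⟨33,[(2,19),(4,1),(1,5),(1,1),(2,1),(8,6),(0,13),(10,6),(6,11)]⟩,⟨0,[(1,0)]⟩⟩,[.a ⟨true,(-1),⟨2,
  [(0,0),(1,1),(6,0),(14,2),(0,1)]⟩,⟨0,[(1,0)]⟩⟩ ⟨false,1,⟨3,[(22,0),(0,0),(17,1)]⟩,⟨0,[]⟩⟩ ⟨true,
  (-1),⟨9,[(2,7),(6,3),(13,0),(0,1),(2,1),(2,1),(11,0)]⟩,⟨0,[(1,0)]⟩⟩,.o ⟨false,0,⟨33,[(2,19),(4,1),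
  (1,5),(1,1),(2,1),(8,6),(0,13),(10,6),(6,11)]⟩,⟨6,[(1,6),(2,2),(0,0),(2,2),(0,0),(3,2),(0,0)]⟩⟩,
  .o ⟨false,1,⟨3,[(22,0),(0,0),(17,1)]⟩,⟨16,[(4,3),(4,5),(17,0),(2,0),(4,5),(2,2)]⟩⟩,.e ⟨false,1,⟨1,
  [(41,0),(0,0)]⟩,⟨1,[(30,0),(0,0)]⟩⟩ ⟨false,0,⟨33,[(2,19),(4,1),(1,5),(1,1),(2,1),(8,6),(0,13),(10,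
  6),(6,11)]⟩,⟨0,[(1,0)]⟩⟩]⟩)))) (.Q [0,1,-1,0,0,0,0,0,-1,0,0,1] (.p true [0,0,0,1] [] (⟨0,[(22,
  0)]⟩,⟨0,[(21,0)]⟩) .k 0 (⟨0,[]⟩,⟨0,[]⟩) .k .k) (.K ⟨0,[0,0,0,1],0,0,(⟨0,[(23,0)]⟩,⟨0,[(22,0)]⟩),
  .k,(.r (-1) ⟨11,[(2,3),(1,5),(14,2),(1,5),(0,0),(0,0)]⟩ ⟨12,[(1,2),(3,0),(1,2),(1,0),(2,0),(7,4),
  (19,0)]⟩),(.x 0 ⟨0,[(35,0)]⟩ ⟨11,[(8,3),(1,3),(9,4),(0,4),(11,1)]⟩),.k,.k,[⟨0,[(23,0)]⟩,⟨0,[(22,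
  0)]⟩,⟨0,[(0,0)]⟩,⟨13,[(2,8),(0,2),(2,1),(0,9),(3,1),(0,2),(8,6),(0,13)]⟩]⟩) (.Q [0,0,0,2,0,0,0,0,
  0,1] (.pp false [-1,1]) (.R ⟨1,true,false,true,[1,-1],[0,1],[1,0,-1,-1],(⟨0,[(35,0)]⟩,⟨0,[(36,
  0)]⟩),(⟨0,[(36,0)]⟩,⟨0,[(35,0)]⟩),⟨1,[(9,0),(1,0),(23,0)]⟩,.k,.k,(.r (-1) ⟨5,[(3,3),(1,5),(14,2),
  (2,0),(0,0)]⟩ ⟨3,[(8,3),(12,0),(0,0),(18,1)]⟩),(.r (-1) ⟨5,[(3,3),(1,5),(14,2),(2,0),(0,0)]⟩ ⟨3,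
  [(8,3),(12,0),(0,0),(18,1)]⟩),(.r (-2) ⟨3,[(3,3),(1,5),(14,2),(0,0),(0,0),(0,0),(0,0)]⟩ ⟨9,[(6,0),
  (1,12),(1,0),(2,0),(23,2),(3,2)]⟩),.k,⟨false,2,⟨5,[(3,3),(1,7),(14,3),(19,0),(0,2)]⟩,⟨0,[(8,0)]⟩⟩,
  ⟨true,1,⟨1,[(5,1),(14,0),(2,0),(0,0)]⟩,⟨16,[(3,11),(4,17),(17,2),(2,2),(4,0),(2,8)]⟩⟩,⟨true,0,⟨0,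
  []⟩,⟨0,[(43,0)]⟩⟩,⟨false,0,⟨0,[(0,0)]⟩,⟨5,[(3,3),(17,0),(0,0),(11,0),(6,2)]⟩⟩,⟨false,1,⟨7,[(0,3),
  (20,0),(0,0),(11,1),(6,3)]⟩,⟨0,[(39,0)]⟩⟩,⟨true,0,⟨0,[(0,0),(37,0)]⟩,⟨0,[(3,0)]⟩⟩,[]⟩) (.Q [0,0,0,
  -1,0,0,0,0,0,-1] (.pp true [-1,1]) (.Q [0,0,0,0,0,-1,0,0,0,1,0,-1] (.ed true [0,1,0,1] .k) (.R ⟨1,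
  false,false,true,[1,0,0,-1],[0,1],[1,1,0,0,0,0,0,0,-1],(⟨0,[(25,0)]⟩,⟨0,[(26,0)]⟩),(⟨0,[(38,0)]⟩,
  ⟨0,[(37,0)]⟩),⟨0,[(0,0)]⟩,.k,.k,(.x (-1) ⟨11,[(11,3),(1,3),(9,4),(0,4),(11,1)]⟩ ⟨0,[(38,0)]⟩),(.x
  (-1) ⟨11,[(11,3),(1,3),(9,4),(0,4),(11,1)]⟩ ⟨0,[(38,0)]⟩),(.r (-1) ⟨0,[(4,0),(0,0),(1,1),(14,0)]⟩
  ⟨1,[(10,1),(13,0),(18,0)]⟩),.k,⟨false,1,⟨2,[(4,2),(0,1),(1,3),(14,1),(19,1)]⟩,⟨6,[(3,2),(4,0),(1,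
  1),(3,0),(9,1),(1,2)]⟩⟩,⟨true,0,⟨0,[(25,0)]⟩,⟨16,[(5,3),(4,5),(15,16),(1,0),(2,0),(4,5),(2,2)]⟩⟩,
  ⟨false,0,⟨0,[]⟩,⟨3,[(23,0),(0,0),(18,1)]⟩⟩,⟨false,0,⟨3,[(3,1),(6,0),(5,0),(4,0),(2,0),(0,2),(0,
  0)]⟩,⟨7,[(4,3),(0,4),(0,2),(8,2),(7,1),(2,7),(12,3),(2,6)]⟩⟩,⟨true,0,⟨0,[(40,0)]⟩,⟨0,[(41,0)]⟩⟩,
  ⟨false,0,⟨0,[(3,0),(12,0),(4,0)]⟩,⟨7,[(4,3),(0,6),(0,0),(8,0),(7,1),(2,7),(12,3),(2,8)]⟩⟩,[.o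
  ⟨false,0,⟨0,[(40,0)]⟩,⟨11,[(5,3),(17,0),(0,0),(11,3),(6,5)]⟩⟩,.o ⟨false,1,⟨11,[(8,3),(5,3),(8,4),
  (0,4),(18,1)]⟩,⟨0,[(1,0)]⟩⟩,.o ⟨false,1,⟨1,[(26,1),(9,0),(5,0)]⟩,⟨27,[(3,7),(0,1),(0,5),(4,7),(12,
  2),(1,19),(10,6)]⟩⟩,.a ⟨true,0,⟨0,[(26,0)]⟩,⟨0,[(25,0)]⟩⟩ ⟨false,1,⟨1,[(23,0),(18,0)]⟩,⟨0,[(3,0),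
  (22,0)]⟩⟩ ⟨true,0,⟨0,[(25,0),(14,0)]⟩,⟨0,[(1,0),(24,0)]⟩⟩]⟩) (.R ⟨0,false,false,true,[1,0,0,-1],
  [0,1],[0,1,0,0,0,0,0,0,-1],(⟨0,[(25,0)]⟩,⟨0,[(26,0)]⟩),(⟨0,[(38,0)]⟩,⟨0,[(37,0)]⟩),⟨0,[(0,0)]⟩,.k,
  .k,(.x (-1) ⟨11,[(11,3),(1,3),(9,4),(0,4),(11,1)]⟩ ⟨0,[(38,0)]⟩),(.x (-1) ⟨11,[(11,3),(1,3),(9,4),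
  (0,4),(11,1)]⟩ ⟨0,[(38,0)]⟩),.k,.k,⟨false,1,⟨2,[(4,2),(0,1),(1,3),(14,1),(19,1)]⟩,⟨6,[(3,2),(4,0),
  (1,1),(3,0),(9,1),(1,2)]⟩⟩,⟨true,0,⟨0,[(25,0)]⟩,⟨16,[(5,3),(4,5),(15,16),(1,0),(2,0),(4,5),(2,
  2)]⟩⟩,⟨true,0,⟨0,[(45,0)]⟩,⟨0,[]⟩⟩,⟨false,0,⟨3,[(3,1),(6,0),(5,0),(4,0),(2,0),(0,2),(0,0)]⟩,⟨7,
  [(4,3),(0,4),(0,2),(8,2),(7,1),(2,7),(12,3),(2,6)]⟩⟩,⟨false,0,⟨0,[]⟩,⟨0,[]⟩⟩,⟨false,0,⟨0,[]⟩,⟨0,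
  []⟩⟩,[.o ⟨false,0,⟨0,[(40,0)]⟩,⟨11,[(5,3),(17,0),(0,0),(11,3),(6,5)]⟩⟩,.o ⟨false,1,⟨11,[(8,3),(5,
  3),(8,4),(0,4),(18,1)]⟩,⟨0,[(1,0)]⟩⟩,.o ⟨false,1,⟨1,[(26,1),(9,0),(5,0)]⟩,⟨27,[(3,7),(0,1),(0,5),
  (4,7),(12,2),(1,19),(10,6)]⟩⟩,.a ⟨true,0,⟨0,[(26,0)]⟩,⟨0,[(25,0)]⟩⟩ ⟨false,1,⟨1,[(23,0),(18,0)]⟩,
  ⟨0,[(3,0),(22,0)]⟩⟩ ⟨true,0,⟨0,[(25,0),(14,0)]⟩,⟨2,[(0,2),(4,0),(5,0),(1,0)]⟩⟩]⟩)) (.R ⟨2,true,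
  false,false,[0,1],[1,-1],[0,1,1],(⟨0,[]⟩,⟨0,[]⟩),(⟨0,[(36,0)]⟩,⟨0,[(37,0)]⟩),⟨0,[]⟩,.k,.k,.k,(.r
  0 ⟨3,[(9,3),(12,0),(0,0),(18,1)]⟩ ⟨5,[(4,3),(1,5),(14,2),(2,0),(0,0)]⟩),.k,.k,⟨true,(-1),⟨2,[(4,
  0),(4,2),(14,0),(0,0)]⟩,⟨11,[(4,3),(1,5),(14,2),(2,0),(0,0),(16,5)]⟩⟩,⟨false,0,⟨16,[(4,3),(4,5),
  (17,0),(2,0),(4,5),(2,2)]⟩,⟨1,[(6,1),(14,0),(2,0),(0,0)]⟩⟩,⟨false,0,⟨0,[(40,0)]⟩,⟨5,[(7,1),(5,1),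
  (8,0),(0,0),(18,3)]⟩⟩,⟨true,0,⟨0,[(1,0)]⟩,⟨0,[(0,0),(38,0)]⟩⟩,⟨true,0,⟨0,[(44,0)]⟩,⟨0,[]⟩⟩,⟨false,
  1,⟨11,[(4,3),(17,0),(0,0),(11,3),(6,5)]⟩,⟨0,[(0,0)]⟩⟩,[]⟩))))))) (.I [0,1,0,-1,0,0,0,1] (.Q [0,0,
  0,1,0,0,0,0,0,1] (.pp false [-1,1]) (.R ⟨1,false,false,false,[0,0,1],[0,1],[1],(⟨0,[(30,0)]⟩,⟨0,
  [(29,0)]⟩),(⟨0,[(33,0)]⟩,⟨0,[(32,0)]⟩),⟨0,[(6,0)]⟩,.k,.k,.k,.k,(.r (-2) ⟨3,[(1,3),(16,0),(0,0),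
  (16,3),(0,3),(0,1)]⟩ ⟨0,[(5,0),(8,0)]⟩),.k,⟨false,1,⟨0,[(36,0),(0,0)]⟩,⟨7,[(5,3),(12,0),(0,0),(18,
  1)]⟩⟩,⟨true,1,⟨0,[(27,0),(9,0)]⟩,⟨0,[(2,0)]⟩⟩,⟨false,0,⟨0,[(14,0)]⟩,⟨7,[(1,3),(5,3),(10,2),(0,2),
  (17,1)]⟩⟩,⟨true,0,⟨0,[(3,0),(32,0)]⟩,⟨0,[(24,0),(11,0)]⟩⟩,⟨true,0,⟨2,[(3,0),(6,0),(17,1)]⟩,⟨0,[(1,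
  0)]⟩⟩,⟨true,0,⟨0,[(3,0)]⟩,⟨0,[(24,0),(11,1)]⟩⟩,[.a ⟨true,0,⟨0,[(0,0)]⟩,⟨0,[(36,0)]⟩⟩ ⟨true,0,⟨0,
  []⟩,⟨1,[(26,0),(0,0)]⟩⟩ ⟨false,1,⟨1,[(16,1),(20,0),(0,0)]⟩,⟨0,[(10,0),(25,1)]⟩⟩,.e ⟨false,1,⟨1,
  [(37,0),(0,0)]⟩,⟨0,[(40,0)]⟩⟩ ⟨false,1,⟨4,[(0,1),(2,0),(3,0),(5,1),(20,1),(2,4)]⟩,⟨1,[(17,0),(4,
  0),(1,0),(11,1)]⟩⟩,.o ⟨false,0,⟨0,[(10,0),(25,0)]⟩,⟨3,[(13,1),(4,0),(0,0),(11,0),(5,0)]⟩⟩,.o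
  ⟨false,0,⟨0,[(26,0)]⟩,⟨3,[(13,1),(17,0),(5,2)]⟩⟩]⟩) (.Q [0,1,-1,0,0,0,0,0,-1,0,0,1] (.p true [0,0,
  0,1] [] (⟨0,[(21,0)]⟩,⟨0,[(20,0)]⟩) .k 0 (⟨0,[]⟩,⟨0,[]⟩) .k .k) (.K ⟨0,[0,0,0,1],0,0,(⟨0,[(22,
  0)]⟩,⟨0,[(21,0)]⟩),.k,(.r (-1) ⟨1,[(20,0),(16,1),(0,0)]⟩ ⟨11,[(0,1),(0,1),(2,0),(1,4),(1,0),(2,0),
  (7,4),(1,1),(13,2)]⟩),(.x 0 ⟨0,[(34,0)]⟩ ⟨11,[(7,3),(1,3),(9,4),(0,4),(11,1)]⟩),.k,.k,[⟨0,[(22,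
  0)]⟩,⟨0,[(21,0)]⟩,⟨0,[(0,0)]⟩,⟨9,[(1,6),(0,0),(0,0),(2,3),(13,4),(0,9),(1,2),(1,1)]⟩]⟩) (.I [0,0,
  1,1,0,0,0,0,-1] (.I [1,0,0,1,0,0,0,-1,-1] (.Q [0,0,0,0,0,-1,0,0,0,1,0,-1] (.ed true [0,1,0,1] .k)
  (.R ⟨1,false,false,true,[1,0,0,-1],[0,-1,1],[1,1,0,0,0,0,0,0,-1],(⟨0,[(24,0)]⟩,⟨0,[(25,0)]⟩),(⟨0,
  [(10,0)]⟩,⟨0,[(33,0),(3,0)]⟩),⟨0,[(0,0)]⟩,.k,.k,(.x (-1) ⟨11,[(10,3),(1,3),(9,4),(0,4),(11,1)]⟩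
  ⟨0,[(37,0)]⟩),(.r 0 ⟨0,[(2,0),(29,0)]⟩ ⟨0,[(3,0),(1,0),(19,0),(15,0)]⟩),.k,.k,⟨false,0,⟨0,[(1,
  0)]⟩,⟨0,[(3,0),(1,0),(19,0),(15,0)]⟩⟩,⟨true,(-1),⟨0,[(6,0),(17,0)]⟩,⟨3,[(17,1),(7,3),(9,0),(5,
  2)]⟩⟩,⟨false,0,⟨0,[]⟩,⟨3,[(22,0),(0,0),(18,1)]⟩⟩,⟨false,0,⟨1,[(3,1),(1,1),(15,0),(2,0),(0,0)]⟩,⟨4,
  [(1,4),(2,2),(2,0),(3,0),(5,1),(7,4),(12,1),(2,4)]⟩⟩,⟨true,0,⟨0,[(39,0)]⟩,⟨0,[(40,0)]⟩⟩,⟨false,0,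
  ⟨0,[(3,0),(1,0),(9,0)]⟩,⟨1,[(1,1),(2,0),(12,0),(7,1),(12,0),(1,0),(0,1)]⟩⟩,[.o ⟨false,0,⟨2,[(4,0),
  (0,1),(15,0),(6,0)]⟩,⟨3,[(7,1),(18,1),(8,0),(6,2)]⟩⟩,.o ⟨false,1,⟨7,[(5,7),(15,3),(0,0),(0,0),(11,
  1),(6,3)]⟩,⟨0,[(4,0),(2,0)]⟩⟩,.o ⟨false,1,⟨1,[(25,1),(9,0),(5,0)]⟩,⟨2,[(6,0),(17,2),(2,0),(7,
  0)]⟩⟩,.a ⟨true,0,⟨0,[(25,0)]⟩,⟨0,[(24,0)]⟩⟩ ⟨false,1,⟨1,[(22,0),(18,0)]⟩,⟨0,[(3,0),(21,0)]⟩⟩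
  ⟨true,0,⟨2,[(4,0),(0,1),(15,0),(2,2),(3,0)]⟩,⟨0,[(4,0),(2,0),(17,0)]⟩⟩]⟩) (.I [1,-1,0,0,0,0,0,-1,
  -1] (.R ⟨0,false,false,true,[1,0,0,-1],[0,1],[0,1,0,0,0,0,0,0,-1],(⟨0,[(25,0)]⟩,⟨0,[(26,0)]⟩),(⟨0,
  [(38,0)]⟩,⟨0,[(37,0)]⟩),⟨0,[(1,0)]⟩,.k,.k,(.x (-1) ⟨11,[(11,3),(1,3),(9,4),(0,4),(11,1)]⟩ ⟨0,[(38,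
  0)]⟩),(.x (-1) ⟨11,[(11,3),(1,3),(9,4),(0,4),(11,1)]⟩ ⟨0,[(38,0)]⟩),.k,.k,⟨false,1,⟨0,[(0,0),(5,
  0),(35,0)]⟩,⟨6,[(4,2),(3,0),(1,1),(3,0),(9,1),(1,2)]⟩⟩,⟨true,0,⟨0,[(25,0)]⟩,⟨2,[(7,0),(18,2),(1,
  0),(7,0)]⟩⟩,⟨true,0,⟨0,[(45,0)]⟩,⟨0,[]⟩⟩,⟨false,0,⟨3,[(4,1),(5,0),(5,0),(4,0),(2,0),(0,2),(0,0)]⟩,
  ⟨3,[(0,1),(4,3),(0,0),(5,0),(10,0),(2,3),(12,0),(2,2)]⟩⟩,⟨false,0,⟨0,[]⟩,⟨0,[]⟩⟩,⟨false,0,⟨0,[]⟩,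
  ⟨0,[]⟩⟩,[.o ⟨false,0,⟨0,[(40,0)]⟩,⟨3,[(5,3),(17,0),(0,0),(18,1)]⟩⟩,.o ⟨false,1,⟨11,[(8,3),(5,3),
  (8,4),(0,4),(18,1)]⟩,⟨0,[(5,0)]⟩⟩,.o ⟨false,1,⟨1,[(26,1),(9,0),(5,0)]⟩,⟨2,[(7,0),(17,2),(2,0),(7,
  0)]⟩⟩,.a ⟨true,0,⟨0,[(26,0)]⟩,⟨0,[(25,0)]⟩⟩ ⟨false,1,⟨1,[(23,0),(18,0)]⟩,⟨0,[(4,0),(21,0)]⟩⟩
  ⟨true,0,⟨0,[(25,0),(14,0)]⟩,⟨0,[(5,0),(20,0)]⟩⟩]⟩) (.R ⟨0,false,false,false,[1,0,0,-1],[1,-1],[1],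
  (⟨0,[(25,0)]⟩,⟨0,[(26,0)]⟩),(⟨0,[(37,0)]⟩,⟨0,[(38,0)]⟩),⟨0,[(1,0)]⟩,.k,.k,(.x (-1) ⟨11,[(11,3),(1,
  3),(9,4),(0,4),(11,1)]⟩ ⟨0,[(38,0)]⟩),(.r 0 ⟨0,[(3,0)]⟩ ⟨1,[(24,0),(16,1),(0,0)]⟩),.k,.k,⟨true,0,
  ⟨7,[(10,3),(12,0),(0,0),(18,1)]⟩,⟨0,[(41,0)]⟩⟩,⟨false,0,⟨2,[(7,0),(17,2),(2,0),(7,0)]⟩,⟨0,[(26,0),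
  (15,0)]⟩⟩,⟨true,0,⟨0,[(0,0),(18,0)]⟩,⟨0,[(2,0),(3,0)]⟩⟩,⟨false,0,⟨0,[(4,0),(36,0)]⟩,⟨4,[(2,0),(5,
  0),(3,0),(1,0),(8,1),(2,4),(15,2)]⟩⟩,⟨false,0,⟨0,[]⟩,⟨0,[]⟩⟩,⟨false,0,⟨0,[]⟩,⟨0,[]⟩⟩,[.o ⟨false,0,
  ⟨0,[(5,0)]⟩,⟨11,[(8,3),(5,3),(8,4),(0,4),(18,1)]⟩⟩,.o ⟨false,1,⟨3,[(5,3),(17,0),(0,0),(18,1)]⟩,⟨0,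
  [(40,0)]⟩⟩,.o ⟨false,1,⟨1,[(26,1),(9,0),(5,0)]⟩,⟨2,[(7,0),(17,2),(2,0),(7,0)]⟩⟩,.a ⟨true,0,⟨0,
  [(26,0)]⟩,⟨0,[(25,0)]⟩⟩ ⟨false,1,⟨1,[(42,0),(0,0)]⟩,⟨1,[(31,0),(0,0)]⟩⟩ ⟨true,0,⟨0,[(5,0),(19,
  0)]⟩,⟨0,[(26,0),(13,0)]⟩⟩]⟩))) (.Q [0,0,0,0,0,-1,0,0,0,1,0,-1] (.ed true [0,1,0,1] .k) (.R ⟨1,
  false,false,false,[1,0,0,-1],[1,-1],[1,1,0,0,0,0,0,0,-1],(⟨0,[(24,0)]⟩,⟨0,[(25,0)]⟩),(⟨0,[(36,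
  0)]⟩,⟨0,[(37,0)]⟩),⟨0,[(0,0)]⟩,.k,.k,(.x (-1) ⟨11,[(10,3),(1,3),(9,4),(0,4),(11,1)]⟩ ⟨0,[(37,
  0)]⟩),(.r 0 ⟨0,[(2,0)]⟩ ⟨1,[(23,0),(16,1),(0,0)]⟩),.k,.k,⟨true,0,⟨1,[(9,0),(12,0),(21,0)]⟩,⟨0,[(1,
  0),(16,0)]⟩⟩,⟨false,0,⟨2,[(6,0),(17,2),(2,0),(7,0)]⟩,⟨0,[(25,0),(15,0)]⟩⟩,⟨false,0,⟨0,[]⟩,⟨3,[(22,
  0),(0,0),(18,1)]⟩⟩,⟨false,0,⟨0,[(3,0),(36,0)]⟩,⟨0,[(2,0),(22,0),(15,0)]⟩⟩,⟨true,0,⟨0,[(39,0)]⟩,⟨0,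
  [(40,0)]⟩⟩,⟨false,0,⟨0,[(3,0)]⟩,⟨1,[(22,0),(2,1),(15,0)]⟩⟩,[.o ⟨false,0,⟨0,[(4,0)]⟩,⟨11,[(7,3),(5,
  3),(8,4),(0,4),(18,1)]⟩⟩,.o ⟨false,1,⟨3,[(4,3),(17,0),(0,0),(18,1)]⟩,⟨0,[(39,0)]⟩⟩,.o ⟨false,1,⟨1,
  [(25,1),(9,0),(5,0)]⟩,⟨2,[(6,0),(17,2),(2,0),(7,0)]⟩⟩,.a ⟨true,0,⟨0,[(25,0)]⟩,⟨0,[(24,0)]⟩⟩
  ⟨false,1,⟨1,[(22,0),(18,0)]⟩,⟨17,[(1,7),(4,0),(2,3),(8,6),(4,4),(5,0),(8,7)]⟩⟩ ⟨true,0,⟨0,[(4,0),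
  (19,0)]⟩,⟨0,[(25,0),(13,0)]⟩⟩]⟩) (.R ⟨0,false,false,false,[1,0,0,-1],[1,-1],[0,1,0,0,0,0,0,0,-1],
  (⟨0,[(24,0)]⟩,⟨0,[(25,0)]⟩),(⟨0,[(36,0)]⟩,⟨0,[(37,0)]⟩),⟨0,[(0,0)]⟩,.k,.k,(.x (-1) ⟨11,[(10,3),(1,
  3),(9,4),(0,4),(11,1)]⟩ ⟨0,[(37,0)]⟩),(.r 0 ⟨0,[(2,0)]⟩ ⟨1,[(23,0),(16,1),(0,0)]⟩),.k,.k,⟨true,0,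
  ⟨1,[(9,0),(12,0),(21,0)]⟩,⟨0,[(1,0),(16,0)]⟩⟩,⟨false,0,⟨2,[(6,0),(17,2),(2,0),(7,0)]⟩,⟨0,[(25,0),
  (15,0)]⟩⟩,⟨true,0,⟨0,[(44,0)]⟩,⟨0,[]⟩⟩,⟨false,0,⟨0,[(3,0),(36,0)]⟩,⟨0,[(2,0),(22,0),(15,0)]⟩⟩,
  ⟨false,0,⟨0,[]⟩,⟨0,[]⟩⟩,⟨false,0,⟨0,[]⟩,⟨0,[]⟩⟩,[.o ⟨false,0,⟨0,[(4,0)]⟩,⟨11,[(7,3),(5,3),(8,4),
  (0,4),(18,1)]⟩⟩,.o ⟨false,1,⟨3,[(4,3),(17,0),(0,0),(18,1)]⟩,⟨0,[(39,0)]⟩⟩,.o ⟨false,1,⟨1,[(25,1),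
  (9,0),(5,0)]⟩,⟨2,[(6,0),(17,2),(2,0),(7,0)]⟩⟩,.a ⟨true,0,⟨0,[(25,0)]⟩,⟨0,[(24,0)]⟩⟩ ⟨false,1,⟨1,
  [(22,0),(18,0)]⟩,⟨17,[(1,7),(4,0),(2,3),(8,6),(4,4),(5,0),(8,7)]⟩⟩ ⟨true,0,⟨0,[(4,0),(19,0)]⟩,⟨0,
  [(25,0),(13,0)]⟩⟩]⟩))) (.K ⟨0,[0,0,0,1],0,(-1),(⟨0,[(23,0)]⟩,⟨0,[(22,0)]⟩),.k,(.x 0 ⟨5,[(8,1),(1,
  1),(4,1),(12,6),(0,2)]⟩ ⟨0,[(35,0),(3,0)]⟩),(.x 0 ⟨0,[(35,0)]⟩ ⟨11,[(8,3),(1,3),(9,4),(0,4),(11,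
  1)]⟩),.k,.k,[⟨0,[(23,0)]⟩,⟨0,[(22,0)]⟩,⟨1,[(20,0),(2,1),(15,0),(2,1)]⟩,⟨0,[(0,0),(1,0),(4,0),(14,
  0)]⟩]⟩)))) (.Q [0,0,0,3,0,0,0,0,0,1] (.pp false [-1,1]) (.R ⟨1,false,false,true,[1,-1],[0,1],[1,0,
  -1,-1],(⟨0,[(32,0)]⟩,⟨0,[(33,0)]⟩),(⟨0,[(33,0)]⟩,⟨0,[(32,0)]⟩),⟨1,[(6,0),(1,0),(23,0)]⟩,.k,.k,(.r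
  (-1) ⟨0,[(36,1),(0,0)]⟩ ⟨3,[(5,3),(12,0),(0,0),(18,1)]⟩),(.r (-1) ⟨0,[(36,1),(0,0)]⟩ ⟨3,[(5,3),
  (12,0),(0,0),(18,1)]⟩),(.r (-2) ⟨3,[(18,0),(0,0),(16,11),(0,5)]⟩ ⟨13,[(0,1),(4,17),(25,0),(2,5),
  (3,2)]⟩),.k,⟨false,2,⟨1,[(36,3),(0,2),(0,0)]⟩,⟨0,[(5,0)]⟩⟩,⟨true,1,⟨0,[(20,0),(0,0),(15,0)]⟩,⟨0,
  [(2,0),(20,0)]⟩⟩,⟨true,0,⟨0,[]⟩,⟨0,[(40,0)]⟩⟩,⟨false,0,⟨2,[(0,1),(19,0),(0,0)]⟩,⟨1,[(31,0),(4,3),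
  (1,0)]⟩⟩,⟨false,1,⟨5,[(0,1),(17,0),(0,0),(11,0),(6,2)]⟩,⟨0,[(36,0)]⟩⟩,⟨false,0,⟨0,[(0,0)]⟩,⟨1,
  [(31,0),(4,5),(1,0)]⟩⟩,[.o ⟨false,0,⟨0,[(35,0)]⟩,⟨1,[(31,0),(4,1),(1,0)]⟩⟩,.a ⟨true,0,⟨2,[(0,0),
  (19,1),(0,1)]⟩,⟨0,[(36,0)]⟩⟩ ⟨true,1,⟨1,[(36,1),(0,0),(0,0)]⟩,⟨0,[(5,0),(30,0)]⟩⟩ ⟨false,1,⟨2,[(0,
  0),(19,1),(0,1),(15,2)]⟩,⟨2,[(2,0),(20,0),(7,0),(4,2)]⟩⟩,.o ⟨false,0,⟨2,[(2,0),(20,0),(7,0)]⟩,⟨3,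
  [(18,0),(0,0),(17,1)]⟩⟩,.o ⟨false,0,⟨0,[(23,0),(2,0)]⟩,⟨0,[(37,0)]⟩⟩]⟩) (.Q [0,0,0,2,0,0,0,0,0,1]
  (.pp false [-1,1]) (.R ⟨1,true,false,true,[1,-1],[0,1],[1,0,-1,-1],(⟨0,[(33,0)]⟩,⟨0,[(34,0)]⟩),
  (⟨0,[(34,0)]⟩,⟨0,[(33,0)]⟩),⟨1,[(7,0),(1,0),(23,0)]⟩,.k,.k,(.r (-1) ⟨2,[(1,1),(19,1),(0,1),(15,
  2)]⟩ ⟨3,[(6,3),(12,0),(0,0),(18,1)]⟩),(.r (-1) ⟨2,[(1,1),(19,1),(0,1),(15,2)]⟩ ⟨3,[(6,3),(12,0),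
  (0,0),(18,1)]⟩),(.r (-2) ⟨3,[(1,3),(17,0),(0,0),(0,3),(0,3),(15,5)]⟩ ⟨5,[(2,0),(3,7),(1,0),(26,0),
  (3,1)]⟩),.k,⟨false,2,⟨5,[(1,3),(19,3),(0,3),(15,8),(0,2)]⟩,⟨0,[(6,0)]⟩⟩,⟨true,1,⟨0,[(21,0),(0,0),
  (15,0)]⟩,⟨0,[(3,0),(20,0)]⟩⟩,⟨true,0,⟨0,[]⟩,⟨0,[(41,0)]⟩⟩,⟨false,0,⟨0,[(0,0)]⟩,⟨5,[(1,3),(17,0),
  (0,0),(11,0),(6,2)]⟩⟩,⟨false,1,⟨7,[(0,3),(18,0),(0,0),(11,1),(6,3)]⟩,⟨0,[(37,0)]⟩⟩,⟨true,0,⟨0,[(0,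
  0),(35,0)]⟩,⟨0,[(1,0)]⟩⟩,[]⟩) (.Q [0,0,0,1,0,0,0,0,0,1] (.pp false [-1,1]) (.R ⟨2,true,false,
  false,[0,1],[1,-1],[0,1,1],(⟨0,[]⟩,⟨0,[]⟩),(⟨0,[(34,0)]⟩,⟨0,[(35,0)]⟩),⟨0,[]⟩,.k,.k,.k,(.r 0 ⟨3,
  [(7,3),(12,0),(0,0),(18,1)]⟩ ⟨0,[(0,0),(1,0),(36,0)]⟩),.k,.k,⟨true,(-1),⟨1,[(0,0),(1,0),(4,1)]⟩,
  ⟨1,[(0,0),(1,0),(36,0),(0,0)]⟩⟩,⟨false,0,⟨2,[(4,0),(20,0),(7,0)]⟩,⟨1,[(0,2),(1,0),(36,1)]⟩⟩,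
  ⟨false,0,⟨0,[(38,0)]⟩,⟨5,[(5,1),(5,1),(8,0),(0,0),(18,3)]⟩⟩,⟨true,0,⟨0,[(1,0)]⟩,⟨0,[(0,0),(36,
  0)]⟩⟩,⟨true,0,⟨0,[(42,0)]⟩,⟨0,[]⟩⟩,⟨false,1,⟨11,[(2,3),(17,0),(0,0),(11,3),(6,5)]⟩,⟨0,[(0,0)]⟩⟩,
  []⟩) (.Q [0,-1,1,2,0,0,-1,-1,1,0,1,-1] (.p true [0,0,1] [0,0,0,1] (⟨0,[(32,0)]⟩,⟨0,[(31,0)]⟩) .k
  2 (⟨0,[(23,0)]⟩,⟨0,[(22,0)]⟩) .k (.x (-1) ⟨7,[(19,3),(0,0),(0,0),(10,7),(0,1),(5,3)]⟩ ⟨3,[(14,1),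
  (13,0),(0,0),(5,1)]⟩)) (.I [0,0,-1,-1,0,0,0,0,1] (.K ⟨0,[0,0,0,1],0,(-1),(⟨0,[(25,0)]⟩,⟨0,[(24,
  0)]⟩),.k,(.r 0 ⟨0,[(0,0)]⟩ ⟨7,[(9,3),(12,6),(0,2),(18,1)]⟩),(.x 0 ⟨0,[(37,0)]⟩ ⟨11,[(10,3),(1,3),
  (9,4),(0,4),(11,1)]⟩),.k,.k,[⟨0,[(25,0)]⟩,⟨0,[(24,0)]⟩,⟨1,[(22,0),(2,1),(15,0),(2,1)]⟩,⟨0,[(0,0),
  (1,0),(6,0),(14,0)]⟩]⟩) (.I [1,0,0,1,0,0,0,-1,1] (.Q [0,-1,-1,-1,1,0,0,0,-1,-1,0,1] (.p true [0,0,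
  0,1] [1] (⟨0,[(26,0)]⟩,⟨0,[(25,0)]⟩) .k 1 (⟨0,[]⟩,⟨0,[]⟩) .k .k) (.Q [0,0,0,0,0,-1,0,0,0,1,0,-1]
  (.ed true [0,1,0,1] .k) (.I [0,0,0,0,0,0,0,-1,-1] (.I [0,0,-1,-1,1,0,0,1,-1] (.R ⟨1,false,false,
  false,[1,0,0,-1],[1,0,-1],[0,0,0,-1,0,0,0,0,-1],(⟨0,[(29,0)]⟩,⟨0,[(30,0)]⟩),(⟨0,[(38,0)]⟩,⟨0,[(39,
  0)]⟩),⟨0,[(2,0)]⟩,.k,.k,(.x (-1) ⟨11,[(15,3),(1,3),(9,4),(0,4),(11,1)]⟩ ⟨0,[(42,0)]⟩),.k,(.r (-1)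
  ⟨0,[(0,0)]⟩ ⟨10,[(4,6),(6,2),(2,1),(13,1),(5,3),(0,0),(11,2)]⟩),.k,⟨false,1,⟨0,[(0,0)]⟩,⟨0,[(4,
  0)]⟩⟩,⟨true,0,⟨0,[(29,0),(2,0)]⟩,⟨4,[(9,0),(9,2),(6,0),(3,4)]⟩⟩,⟨true,0,⟨0,[(45,0)]⟩,⟨0,[(44,
  0)]⟩⟩,⟨false,0,⟨4,[(4,3),(1,0),(2,1),(12,1),(6,3),(13,1)]⟩,⟨1,[(0,0),(2,0),(14,0),(1,0),(9,0)]⟩⟩,
  ⟨false,1,⟨3,[(27,0),(0,0),(18,1)]⟩,⟨0,[]⟩⟩,⟨false,0,⟨4,[(4,1),(1,2),(2,0),(12,0),(6,1),(13,0)]⟩,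
  ⟨2,[(0,1),(2,0),(22,0),(3,1),(2,0)]⟩⟩,[.o ⟨false,0,⟨1,[(7,0),(1,0),(2,1)]⟩,⟨3,[(27,0),(0,0),(4,3),
  (13,1)]⟩⟩,.o ⟨false,1,⟨0,[(31,0),(15,0)]⟩,⟨0,[(33,0)]⟩⟩,.o ⟨false,1,⟨1,[(30,1),(9,0),(5,0)]⟩,⟨2,
  [(11,0),(17,2),(2,0),(7,0)]⟩⟩,.a ⟨true,0,⟨0,[(30,0)]⟩,⟨0,[(29,0)]⟩⟩ ⟨false,1,⟨0,[(3,0),(25,0)]⟩,
  ⟨8,[(4,2),(4,0),(4,2),(1,2),(11,2),(0,0),(0,0)]⟩⟩ ⟨true,0,⟨1,[(7,0),(1,0),(2,1),(16,1)]⟩,⟨0,[(30,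
  0),(2,0)]⟩⟩]⟩) (.R ⟨1,false,false,false,[1,0,0,-1],[1,0,-1],[1,1,0,0,0,0,0,0,-1],(⟨0,[(29,0)]⟩,⟨0,
  [(30,0)]⟩),(⟨0,[(38,0)]⟩,⟨0,[(39,0)]⟩),⟨0,[(2,0)]⟩,.k,.k,(.x (-1) ⟨11,[(15,3),(1,3),(9,4),(0,4),
  (11,1)]⟩ ⟨0,[(42,0)]⟩),.k,(.x 0 ⟨4,[(9,0),(5,4),(3,2),(6,0)]⟩ ⟨7,[(21,3),(5,2),(0,2),(13,11),(3,
  1)]⟩),.k,⟨false,1,⟨0,[(3,0),(21,0),(3,0),(3,0)]⟩,⟨17,[(0,11),(8,3),(13,5),(4,2),(0,3),(0,3),(12,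
  5),(2,8)]⟩⟩,⟨true,0,⟨0,[(29,0),(2,0)]⟩,⟨4,[(9,0),(9,2),(6,0),(3,4)]⟩⟩,⟨false,0,⟨0,[]⟩,⟨3,[(27,0),
  (0,0),(18,1)]⟩⟩,⟨false,0,⟨18,[(0,3),(5,6),(2,5),(12,5),(0,7),(4,3),(0,11),(13,1)]⟩,⟨0,[(3,0),(14,
  0),(10,0),(0,0)]⟩⟩,⟨true,0,⟨0,[(44,0)]⟩,⟨0,[(45,0)]⟩⟩,⟨false,0,⟨18,[(0,1),(5,12),(2,2),(12,2),(0,
  3),(4,1),(0,5),(13,0)]⟩,⟨0,[(3,0),(25,0),(0,0),(2,0)]⟩⟩,[.o ⟨false,0,⟨1,[(7,0),(1,0),(2,1)]⟩,⟨3,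
  [(27,0),(0,0),(4,3),(13,1)]⟩⟩,.o ⟨false,1,⟨0,[(31,0),(15,0)]⟩,⟨0,[(33,0)]⟩⟩,.o ⟨false,1,⟨1,[(30,
  1),(9,0),(5,0)]⟩,⟨2,[(11,0),(17,2),(2,0),(7,0)]⟩⟩,.a ⟨true,0,⟨0,[(30,0)]⟩,⟨0,[(29,0)]⟩⟩ ⟨false,1,
  ⟨1,[(27,0),(18,0)]⟩,⟨8,[(0,2),(8,1),(6,2),(11,2),(0,1),(0,1),(12,2)]⟩⟩ ⟨true,0,⟨1,[(7,0),(1,0),(2,
  1),(16,1)]⟩,⟨0,[(30,0),(2,0)]⟩⟩]⟩)) (.R ⟨1,false,false,false,[1,0,0,-1],[1,-1],[0,1,0,-1,0,0,0,0,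
  -1],(⟨0,[(28,0)]⟩,⟨0,[(29,0)]⟩),(⟨0,[(40,0)]⟩,⟨0,[(41,0)]⟩),⟨0,[(1,0)]⟩,.k,.k,(.x (-1) ⟨11,[(14,
  3),(1,3),(9,4),(0,4),(11,1)]⟩ ⟨0,[(41,0)]⟩),(.r 0 ⟨0,[(1,0),(0,0),(10,0),(27,0)]⟩ ⟨5,[(8,1),(18,
  2),(0,1),(0,1),(15,2)]⟩),.k,.k,⟨true,0,⟨5,[(8,1),(4,2),(12,2),(1,1),(0,1),(18,2)]⟩,⟨0,[(0,0),(21,
  0)]⟩⟩,⟨false,0,⟨2,[(10,0),(17,2),(2,0),(7,0)]⟩,⟨0,[(29,0),(15,0)]⟩⟩,⟨false,0,⟨0,[(44,0)]⟩,⟨5,[(11,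
  1),(5,1),(8,0),(0,0),(18,3)]⟩⟩,⟨false,0,⟨121,[(0,49),(4,49),(2,73),(1,17),(14,15),(1,10),(0,71),
  (10,6),(2,35)]⟩,⟨0,[(2,0),(16,0),(4,0)]⟩⟩,⟨true,0,⟨0,[(48,0)]⟩,⟨0,[]⟩⟩,⟨false,0,⟨7,[(0,3),(4,3),
  (2,2),(1,0),(7,0),(6,0),(2,3),(10,0),(2,1)]⟩,⟨1,[(26,0),(2,1),(15,0)]⟩⟩,[.o ⟨false,0,⟨0,[(6,0)]⟩,
  ⟨11,[(11,3),(5,3),(8,4),(0,4),(18,1)]⟩⟩,.o ⟨false,1,⟨11,[(8,3),(17,0),(0,0),(11,3),(6,5)]⟩,⟨0,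
  [(43,0)]⟩⟩,.o ⟨false,1,⟨1,[(29,1),(9,0),(5,0)]⟩,⟨2,[(10,0),(17,2),(2,0),(7,0)]⟩⟩,.a ⟨true,0,⟨0,
  [(29,0)]⟩,⟨0,[(28,0)]⟩⟩ ⟨false,1,⟨5,[(8,1),(17,2),(1,1),(0,1),(15,2)]⟩,⟨12,[(0,2),(2,5),(9,1),(1,
  2),(11,1),(14,5)]⟩⟩ ⟨true,0,⟨0,[(6,0),(21,0)]⟩,⟨0,[(29,0),(13,0)]⟩⟩]⟩)) (.I [0,0,0,0,0,0,0,-1,-1]
  (.I [0,0,-1,-1,1,0,0,1,-1] (.R ⟨0,false,false,false,[1,0,0,-1],[1,0,-1],[0,0,0,-1,0,0,0,0,-1],(⟨0,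
  [(29,0)]⟩,⟨0,[(30,0)]⟩),(⟨0,[(38,0)]⟩,⟨0,[(39,0)]⟩),⟨0,[(2,0)]⟩,.k,.k,(.x (-1) ⟨11,[(15,3),(1,3),
  (9,4),(0,4),(11,1)]⟩ ⟨0,[(42,0)]⟩),.k,.k,.k,⟨false,1,⟨0,[(0,0)]⟩,⟨0,[(4,0)]⟩⟩,⟨true,0,⟨0,[(29,0),
  (2,0)]⟩,⟨4,[(9,0),(9,2),(6,0),(3,4)]⟩⟩,⟨true,0,⟨0,[(45,0)]⟩,⟨0,[(44,0)]⟩⟩,⟨false,0,⟨4,[(4,3),(1,
  0),(2,1),(12,1),(6,3),(13,1)]⟩,⟨1,[(0,0),(2,0),(14,0),(1,0),(9,0)]⟩⟩,⟨false,0,⟨0,[]⟩,⟨0,[]⟩⟩,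
  ⟨false,0,⟨0,[]⟩,⟨0,[]⟩⟩,[.o ⟨false,0,⟨1,[(7,0),(1,0),(2,1)]⟩,⟨3,[(27,0),(0,0),(4,3),(13,1)]⟩⟩,.o
  ⟨false,1,⟨0,[(31,0),(15,0)]⟩,⟨0,[(33,0)]⟩⟩,.o ⟨false,1,⟨1,[(30,1),(9,0),(5,0)]⟩,⟨2,[(11,0),(17,2),
  (2,0),(7,0)]⟩⟩,.a ⟨true,0,⟨0,[(30,0)]⟩,⟨0,[(29,0)]⟩⟩ ⟨false,1,⟨0,[(3,0),(25,0)]⟩,⟨8,[(4,2),(4,0),
  (4,2),(1,2),(11,2),(0,0),(0,0)]⟩⟩ ⟨true,0,⟨1,[(7,0),(1,0),(2,1),(16,1)]⟩,⟨0,[(30,0),(2,0)]⟩⟩]⟩)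
  (.R ⟨0,false,false,false,[1,0,0,-1],[1,0,-1],[1,0,1,0,0,0,0,-1],(⟨0,[(29,0)]⟩,⟨0,[(30,0)]⟩),(⟨0,
  [(38,0)]⟩,⟨0,[(39,0)]⟩),⟨0,[(2,0)]⟩,.k,.k,(.x (-1) ⟨11,[(15,3),(1,3),(9,4),(0,4),(11,1)]⟩ ⟨0,[(42,
  0)]⟩),.k,.k,.k,⟨false,0,⟨0,[]⟩,⟨3,[(27,0),(0,0),(17,1)]⟩⟩,⟨true,0,⟨0,[(29,0),(2,0)]⟩,⟨4,[(9,0),(9,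
  2),(6,0),(3,4)]⟩⟩,⟨true,(-1),⟨2,[(0,2),(8,0),(19,0),(0,0)]⟩,⟨0,[(3,0),(21,0),(3,0),(3,0)]⟩⟩,
  ⟨false,0,⟨18,[(0,3),(5,6),(2,5),(12,5),(0,7),(4,3),(0,11),(13,1)]⟩,⟨0,[(3,0),(14,0),(10,0),(0,
  0)]⟩⟩,⟨false,0,⟨0,[]⟩,⟨0,[]⟩⟩,⟨false,0,⟨0,[]⟩,⟨0,[]⟩⟩,[.o ⟨false,0,⟨1,[(7,0),(1,0),(2,1)]⟩,⟨3,
  [(27,0),(0,0),(4,3),(13,1)]⟩⟩,.o ⟨false,1,⟨0,[(31,0),(15,0)]⟩,⟨0,[(33,0)]⟩⟩,.o ⟨false,1,⟨1,[(30,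
  1),(9,0),(5,0)]⟩,⟨2,[(11,0),(17,2),(2,0),(7,0)]⟩⟩,.a ⟨true,0,⟨0,[(30,0)]⟩,⟨0,[(29,0)]⟩⟩ ⟨false,0,
  ⟨0,[(23,0)]⟩,⟨11,[(9,1),(6,5),(10,2),(0,2),(0,1),(0,1),(2,5),(2,5),(9,5)]⟩⟩ ⟨true,0,⟨1,[(7,0),(1,
  0),(2,1),(16,1)]⟩,⟨0,[(30,0),(2,0)]⟩⟩]⟩)) (.R ⟨0,false,false,false,[1,0,0,-1],[1,-1],[0,1,0,0,0,0,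
  0,0,-1],(⟨0,[(28,0)]⟩,⟨0,[(29,0)]⟩),(⟨0,[(40,0)]⟩,⟨0,[(41,0)]⟩),⟨0,[(1,0)]⟩,.k,.k,(.x (-1) ⟨11,
  [(14,3),(1,3),(9,4),(0,4),(11,1)]⟩ ⟨0,[(41,0)]⟩),(.r 0 ⟨0,[(2,0),(10,0),(14,0)]⟩ ⟨5,[(8,1),(18,2),
  (0,1),(0,1),(15,2)]⟩),.k,.k,⟨true,0,⟨1,[(13,0),(12,0),(21,0)]⟩,⟨2,[(0,2),(7,0),(13,2),(5,0),(0,
  0)]⟩⟩,⟨false,0,⟨2,[(10,0),(17,2),(2,0),(7,0)]⟩,⟨0,[(29,0),(15,0)]⟩⟩,⟨true,0,⟨0,[(48,0)]⟩,⟨0,[]⟩⟩,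
  ⟨false,0,⟨121,[(0,49),(4,49),(2,73),(1,17),(14,15),(1,10),(0,71),(10,6),(2,35)]⟩,⟨0,[(2,0),(16,0),
  (4,0)]⟩⟩,⟨false,0,⟨0,[]⟩,⟨0,[]⟩⟩,⟨false,0,⟨0,[]⟩,⟨0,[]⟩⟩,[.o ⟨false,0,⟨0,[(6,0)]⟩,⟨11,[(11,3),(5,
  3),(8,4),(0,4),(18,1)]⟩⟩,.o ⟨false,1,⟨11,[(8,3),(17,0),(0,0),(11,3),(6,5)]⟩,⟨0,[(43,0)]⟩⟩,.o
  ⟨false,1,⟨1,[(29,1),(9,0),(5,0)]⟩,⟨2,[(10,0),(17,2),(2,0),(7,0)]⟩⟩,.a ⟨true,0,⟨0,[(29,0)]⟩,⟨0,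
  [(28,0)]⟩⟩ ⟨false,1,⟨1,[(26,0),(18,0)]⟩,⟨17,[(0,5),(2,5),(4,1),(1,2),(16,2),(0,1),(0,1),(5,2),(6,
  8)]⟩⟩ ⟨true,0,⟨0,[(6,0),(21,0)]⟩,⟨0,[(29,0),(13,0)]⟩⟩]⟩))) (.K ⟨0,[0,0,0,1],0,(-1),(⟨0,[(27,0)]⟩,
  ⟨0,[(26,0)]⟩),.k,(.x 0 ⟨5,[(12,1),(1,1),(4,1),(12,6),(0,2)]⟩ ⟨0,[(39,0),(3,0)]⟩),(.x 0 ⟨0,[(39,
  0)]⟩ ⟨11,[(12,3),(1,3),(9,4),(0,4),(11,1)]⟩),.k,.k,[⟨0,[(27,0)]⟩,⟨0,[(26,0)]⟩,⟨1,[(24,0),(2,1),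
  (15,0),(2,1)]⟩,⟨0,[(0,0),(3,0)]⟩]⟩)) (.Q [0,0,0,0,0,-1,0,0,0,1,0,-1] (.ed true [0,1,0,1] .k) (.R
  ⟨1,false,false,true,[1,0,0,-1],[0,1],[1,0,0,0,0,0,0,0,-1],(⟨0,[(26,0)]⟩,⟨0,[(27,0)]⟩),(⟨0,[(39,
  0)]⟩,⟨0,[(38,0)]⟩),⟨0,[(0,0)]⟩,.k,.k,(.x (-1) ⟨11,[(12,3),(1,3),(9,4),(0,4),(11,1)]⟩ ⟨0,[(39,
  0)]⟩),(.x (-1) ⟨11,[(12,3),(1,3),(9,4),(0,4),(11,1)]⟩ ⟨0,[(39,0)]⟩),(.r (-1) ⟨11,[(1,11),(4,3),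
  (13,5),(2,2),(2,0),(0,0),(3,5),(11,11)]⟩ ⟨1,[(11,1),(13,0),(18,0)]⟩),.k,⟨false,1,⟨0,[(1,0),(18,0),
  (22,0)]⟩,⟨1,[(11,0),(13,0),(20,0)]⟩⟩,⟨true,0,⟨0,[(26,0)]⟩,⟨2,[(8,0),(18,2),(1,0),(7,0)]⟩⟩,⟨true,0,
  ⟨0,[]⟩,⟨0,[(46,0)]⟩⟩,⟨false,0,⟨2,[(3,2),(2,0),(19,3),(0,3),(2,2)]⟩,⟨3,[(1,1),(2,3),(2,1),(16,0),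
  (2,3),(15,1),(0,0)]⟩⟩,⟨false,1,⟨5,[(9,1),(5,1),(8,0),(0,0),(18,3)]⟩,⟨0,[(42,0)]⟩⟩,⟨false,0,⟨0,[(3,
  0),(22,0),(0,0),(2,0)]⟩,⟨3,[(1,1),(2,1),(1,1),(0,1),(16,0),(2,3),(15,1),(0,0)]⟩⟩,[.o ⟨false,0,⟨0,
  [(41,0)]⟩,⟨11,[(6,3),(17,0),(0,0),(11,3),(6,5)]⟩⟩,.o ⟨false,1,⟨11,[(9,3),(5,3),(8,4),(0,4),(18,
  1)]⟩,⟨0,[(4,0)]⟩⟩,.o ⟨false,1,⟨1,[(27,1),(9,0),(5,0)]⟩,⟨2,[(8,0),(17,2),(2,0),(7,0)]⟩⟩,.a ⟨true,0,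
  ⟨0,[(27,0)]⟩,⟨0,[(26,0)]⟩⟩ ⟨false,1,⟨3,[(1,1),(5,1),(16,0),(18,1),(0,0)]⟩,⟨2,[(3,2),(2,1),(19,1),
  (0,4),(2,2)]⟩⟩ ⟨true,0,⟨0,[(26,0),(14,0)]⟩,⟨0,[(4,0),(22,0)]⟩⟩]⟩) (.R ⟨0,false,false,true,[1,0,0,
  -1],[0,1],[1,0,0,0,0,0,0,0,-1],(⟨0,[(26,0)]⟩,⟨0,[(27,0)]⟩),(⟨0,[(39,0)]⟩,⟨0,[(38,0)]⟩),⟨0,[(0,
  0)]⟩,.k,.k,(.x (-1) ⟨11,[(12,3),(1,3),(9,4),(0,4),(11,1)]⟩ ⟨0,[(39,0)]⟩),(.x (-1) ⟨11,[(12,3),(1,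
  3),(9,4),(0,4),(11,1)]⟩ ⟨0,[(39,0)]⟩),.k,.k,⟨false,1,⟨0,[(1,0),(18,0),(22,0)]⟩,⟨1,[(11,0),(13,0),
  (20,0)]⟩⟩,⟨true,0,⟨0,[(26,0)]⟩,⟨2,[(8,0),(18,2),(1,0),(7,0)]⟩⟩,⟨true,0,⟨0,[]⟩,⟨0,[(46,0)]⟩⟩,
  ⟨false,0,⟨2,[(3,2),(2,0),(19,3),(0,3),(2,2)]⟩,⟨3,[(1,1),(2,3),(2,1),(16,0),(2,3),(15,1),(0,0)]⟩⟩,
  ⟨false,0,⟨0,[]⟩,⟨0,[]⟩⟩,⟨false,0,⟨0,[]⟩,⟨0,[]⟩⟩,[.o ⟨false,0,⟨0,[(41,0)]⟩,⟨11,[(6,3),(17,0),(0,0),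
  (11,3),(6,5)]⟩⟩,.o ⟨false,1,⟨11,[(9,3),(5,3),(8,4),(0,4),(18,1)]⟩,⟨0,[(4,0)]⟩⟩,.o ⟨false,1,⟨1,
  [(27,1),(9,0),(5,0)]⟩,⟨2,[(8,0),(17,2),(2,0),(7,0)]⟩⟩,.a ⟨true,0,⟨0,[(27,0)]⟩,⟨0,[(26,0)]⟩⟩
  ⟨false,1,⟨3,[(1,1),(5,1),(16,0),(18,1),(0,0)]⟩,⟨2,[(3,2),(2,1),(19,1),(0,4),(2,2)]⟩⟩ ⟨true,0,⟨0,
  [(26,0),(14,0)]⟩,⟨0,[(4,0),(22,0)]⟩⟩]⟩)))) (.K ⟨0,[0,0,0,1],0,0,(⟨0,[(24,0)]⟩,⟨0,[(23,0)]⟩),.k,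
  (.r (-1) ⟨5,[(3,1),(18,2),(0,1),(0,1),(15,2)]⟩ ⟨27,[(0,3),(0,1),(2,8),(3,11),(1,4),(5,1),(4,11),
  (1,3),(13,0)]⟩),(.x 0 ⟨0,[(36,0)]⟩ ⟨11,[(9,3),(1,3),(9,4),(0,4),(11,1)]⟩),.k,.k,[⟨0,[(24,0)]⟩,⟨0,
  [(23,0)]⟩,⟨0,[(0,0),(5,0)]⟩,⟨7,[(1,2),(1,2),(3,1),(0,3),(3,1),(9,3),(0,7)]⟩]⟩))))))) (.R ⟨1,true,
  false,false,[0,0,1],[0,1],[1,1,0,0,0,0,0,1],(⟨0,[(27,0)]⟩,⟨0,[(26,0)]⟩),(⟨0,[(30,0)]⟩,⟨0,[(29,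
  0)]⟩),⟨0,[(3,0)]⟩,.k,.k,.k,.k,(.r (-2) ⟨3,[(0,3),(14,0),(0,0),(7,3),(9,5)]⟩ ⟨0,[(2,0),(8,0)]⟩),.k,
  ⟨false,1,⟨0,[(0,0),(12,0),(20,0)]⟩,⟨1,[(2,0),(8,0),(13,0),(9,0)]⟩⟩,⟨true,1,⟨0,[(24,0),(9,0)]⟩,⟨0,
  [(0,0),(1,0),(8,0)]⟩⟩,⟨false,0,⟨0,[]⟩,⟨3,[(15,0),(0,0),(18,1)]⟩⟩,⟨true,0,⟨0,[(11,0),(1,0)]⟩,⟨1,
  [(0,0),(20,0),(15,0)]⟩⟩,⟨true,0,⟨0,[(32,0)]⟩,⟨0,[(33,0)]⟩⟩,⟨false,1,⟨1,[(1,0),(6,0),(2,0),(1,1),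
  (21,1)]⟩,⟨0,[(0,0)]⟩⟩,[]⟩)) (.R ⟨2,false,false,true,[0,1],[1,1,-1],[0,1],(⟨0,[]⟩,⟨0,[]⟩),(⟨0,[(25,
  0),(3,0)]⟩,⟨0,[(2,0)]⟩),⟨0,[]⟩,.k,.k,.k,.k,.k,.k,⟨true,1,⟨7,[(0,3),(8,3),(4,0),(0,0),(4,3),(11,3),
  (0,5)]⟩,⟨0,[(1,0),(8,0),(21,0)]⟩⟩,⟨false,1,⟨3,[(9,1),(17,0),(5,2)]⟩,⟨2,[(0,0),(6,0),(5,0),(7,
  0)]⟩⟩,⟨false,1,⟨3,[(14,0),(0,0),(16,3),(0,1)]⟩,⟨2,[(1,0),(1,0),(6,0),(23,0)]⟩⟩,⟨true,0,⟨0,[(18,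
  0)]⟩,⟨2,[(0,1),(6,0),(4,0),(7,0)]⟩⟩,⟨false,1,⟨3,[(14,0),(0,0),(17,1)]⟩,⟨3,[(22,0),(0,0),(6,1)]⟩⟩,
  ⟨false,1,⟨5,[(6,1),(3,1),(1,3),(8,3),(5,2),(6,2)]⟩,⟨0,[(0,0)]⟩⟩,[.e ⟨true,0,⟨0,[(36,0)]⟩,⟨3,[(22,
  0),(0,0),(6,1)]⟩⟩ ⟨true,0,⟨3,[(1,1),(16,1),(2,1),(5,0),(6,0)]⟩,⟨0,[(0,0)]⟩⟩,.a ⟨true,0,⟨0,[(10,0),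
  (1,0)]⟩,⟨0,[(0,0),(35,0)]⟩⟩ ⟨false,1,⟨3,[(14,0),(0,0),(17,1)]⟩,⟨0,[]⟩⟩ ⟨true,0,⟨4,[(1,1),(7,0),(0,
  2),(1,0),(5,1),(8,0),(6,0)]⟩,⟨0,[(0,0),(35,0)]⟩⟩,.o ⟨false,1,⟨3,[(14,0),(0,0),(17,1)]⟩,⟨0,[(6,0),
  (12,0),(12,0)]⟩⟩,.e ⟨false,1,⟨3,[(14,0),(0,0),(17,1)]⟩,⟨3,[(22,0),(0,0),(6,1)]⟩⟩ ⟨false,1,⟨5,[(6,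
  1),(3,1),(1,3),(8,3),(5,2),(6,2)]⟩,⟨0,[(0,0)]⟩⟩]⟩))

theorem ok67 : chk (cU (-1) true 10) t67 l40 = true := by decide +kernel

noncomputable def t69 : Tre :=
  (.R ⟨1,false,false,false,[0,0,1],[1,0,-1],[0,0,1],(⟨0,[(28,0)]⟩,⟨0,[(27,0)]⟩),(⟨0,[(27,0)]⟩,⟨0,
  [(28,0)]⟩),⟨0,[(4,0)]⟩,.k,.k,.k,.k,(.r (-1) ⟨0,[(0,0),(10,0),(23,0)]⟩ ⟨0,[(1,0),(7,0),(14,0)]⟩),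
  .k,⟨true,0,⟨5,[(0,1),(4,0),(1,0),(3,1),(12,0),(0,1)]⟩,⟨0,[(26,0)]⟩⟩,⟨false,1,⟨0,[(11,0),(23,0)]⟩,
  ⟨0,[(15,0)]⟩⟩,⟨false,0,⟨2,[(23,0),(0,0),(1,1),(5,1)]⟩,⟨43,[(0,15),(4,7),(1,3),(3,15),(2,3),(1,4),
  (0,4),(17,33)]⟩⟩,⟨true,0,⟨0,[(1,0)]⟩,⟨0,[(0,0),(32,0)]⟩⟩,⟨false,0,⟨4,[(1,2),(3,0),(2,0),(0,2),(14,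
  1),(7,1)]⟩,⟨19,[(0,7),(2,7),(7,7),(2,3),(1,2),(0,2),(4,3),(12,5)]⟩⟩,⟨false,1,⟨0,[(1,0),(31,0),(2,
  0)]⟩,⟨0,[(0,0)]⟩⟩,[.a ⟨true,0,⟨1,[(1,0),(16,0),(0,0)]⟩,⟨0,[(0,0),(11,0),(1,0)]⟩⟩ ⟨true,0,⟨1,[(24,
  0),(0,0)]⟩,⟨0,[]⟩⟩ ⟨false,1,⟨7,[(1,3),(9,3),(4,0),(0,0),(17,5)]⟩,⟨3,[(0,1),(7,0),(0,0),(5,0)]⟩⟩,
  .o ⟨false,1,⟨7,[(1,3),(14,0),(0,0),(11,1),(6,3)]⟩,⟨0,[(22,0)]⟩⟩,.o ⟨false,0,⟨0,[(8,0),(25,0)]⟩,⟨3,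
  [(11,1),(4,0),(0,0),(11,0),(5,0)]⟩⟩,.o ⟨false,0,⟨0,[(24,0)]⟩,⟨3,[(11,1),(17,0),(5,2)]⟩⟩]⟩)

theorem ok69 : chk (cU (-1) true 10) t69 l43 = true := by decide +kernel

noncomputable def t77 : Tre :=
  (.I [0,0,2,2,-1,0,0,-2] (.R ⟨1,false,false,false,[0,0,1],[1,1,-1],[0,1],(⟨0,[(32,0)]⟩,⟨0,[(31,
  0)]⟩),(⟨0,[(31,0),(3,0)]⟩,⟨0,[(8,0)]⟩),⟨0,[(8,0)]⟩,.k,.k,.k,(.r (-1) ⟨3,[(1,2),(1,0),(3,0),(3,0),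
  (3,2),(2,0),(20,2)]⟩ ⟨3,[(0,1),(19,0),(0,0),(8,3)]⟩),(.r (-2) ⟨3,[(1,3),(13,3),(4,0),(0,0),(17,
  5)]⟩ ⟨0,[(0,0)]⟩),.k,⟨false,1,⟨0,[(7,0),(10,0),(7,0)]⟩,⟨1,[(0,0),(39,0)]⟩⟩,⟨true,1,⟨0,[(15,0),(23,
  0)]⟩,⟨0,[(2,0)]⟩⟩,⟨false,0,⟨0,[(30,0)]⟩,⟨9,[(1,1),(1,5),(3,3),(7,1),(4,2),(0,2)]⟩⟩,⟨true,0,⟨0,[(4,
  0)]⟩,⟨0,[(1,0),(35,0)]⟩⟩,⟨false,0,⟨1,[(0,0),(38,0)]⟩,⟨39,[(1,15),(1,7),(3,11),(7,15),(4,8),(0,8),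
  (18,9)]⟩⟩,⟨false,1,⟨11,[(0,1),(2,3),(0,11),(15,2),(0,2),(17,3),(0,3)]⟩,⟨0,[(1,0)]⟩⟩,[.a ⟨true,0,
  ⟨0,[(16,0),(1,0)]⟩,⟨1,[(1,0),(20,0),(0,0)]⟩⟩ ⟨true,0,⟨0,[(42,0)]⟩,⟨3,[(2,0),(12,0),(20,0),(3,
  0)]⟩⟩ ⟨false,1,⟨27,[(3,3),(0,15),(10,9),(2,3),(1,2),(0,2),(11,0),(5,20)]⟩,⟨1,[(1,0),(17,0)]⟩⟩,.o
  ⟨false,1,⟨23,[(0,1),(2,3),(0,11),(15,2),(0,2),(11,5),(5,3),(0,9)]⟩,⟨1,[(1,0),(22,0),(1,0)]⟩⟩,.o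
  ⟨false,0,⟨2,[(1,0),(4,0),(5,2)]⟩,⟨3,[(15,1),(4,0),(0,0),(11,0),(5,0)]⟩⟩,.o ⟨false,0,⟨0,[(28,0)]⟩,
  ⟨3,[(15,1),(17,0),(5,2)]⟩⟩]⟩) (.I [0,0,-2,0,1,2,-2] (.R ⟨1,true,false,false,[0,0,1],[1,1,-1],[1,1,
  0,0,0,0,0,1],(⟨0,[(33,0)]⟩,⟨0,[(32,0)]⟩),(⟨1,[(0,0),(2,0),(19,0),(0,0)]⟩,⟨0,[(9,0)]⟩),⟨0,[(9,0)]⟩,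
  .k,.k,.k,(.r (-1) ⟨107,[(1,73),(0,15),(1,23),(7,11),(3,15),(2,11),(1,16),(0,16)]⟩ ⟨3,[(3,1),(1,3),
  (14,1),(0,0),(0,0)]⟩),(.x 0 ⟨3,[(3,3),(5,7),(11,0),(0,0),(11,1)]⟩ ⟨0,[(0,0)]⟩),.k,⟨false,1,⟨0,[(1,
  0),(36,0)]⟩,⟨1,[(3,0),(1,1),(14,0),(20,0)]⟩⟩,⟨true,1,⟨0,[(16,0),(23,0)]⟩,⟨0,[(3,0)]⟩⟩,⟨false,0,⟨0,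
  []⟩,⟨3,[(21,0),(0,0),(18,1)]⟩⟩,⟨true,0,⟨0,[(5,0)]⟩,⟨0,[(2,0),(35,0)]⟩⟩,⟨true,0,⟨0,[(38,0)]⟩,⟨0,
  [(39,0)]⟩⟩,⟨false,1,⟨27,[(4,7),(0,31),(7,3),(0,3),(6,6),(0,6),(17,3),(0,9)]⟩,⟨0,[(2,0)]⟩⟩,[]⟩)
  (.I [0,0,2,0,-1,-2,2] (.R ⟨1,true,false,false,[0,0,1],[1,1,-1],[1,1,0,0,0,0,0,1],(⟨0,[(34,0)]⟩,⟨0,
  [(33,0)]⟩),(⟨0,[(33,0),(3,0)]⟩,⟨0,[(10,0)]⟩),⟨0,[(10,0)]⟩,.k,.k,.k,(.r (-1) ⟨107,[(2,73),(0,15),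
  (1,23),(7,11),(3,15),(2,11),(1,16),(0,16)]⟩ ⟨3,[(4,1),(1,3),(14,1),(0,0),(0,0)]⟩),(.x 1 ⟨0,[(0,
  0)]⟩ ⟨3,[(16,3),(5,0),(0,0),(13,11),(3,5)]⟩),.k,⟨false,1,⟨0,[(2,0),(36,0)]⟩,⟨1,[(4,0),(1,1),(14,
  0),(20,0)]⟩⟩,⟨true,1,⟨0,[(17,0),(23,0)]⟩,⟨0,[(4,0)]⟩⟩,⟨false,0,⟨0,[]⟩,⟨3,[(22,0),(0,0),(18,1)]⟩⟩,
  ⟨true,0,⟨0,[(6,0)]⟩,⟨0,[(3,0),(35,0)]⟩⟩,⟨true,0,⟨0,[(39,0)]⟩,⟨0,[(40,0)]⟩⟩,⟨false,1,⟨27,[(5,7),(0,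
  31),(7,3),(0,3),(6,6),(0,6),(17,3),(0,9)]⟩,⟨0,[(3,0)]⟩⟩,[]⟩) (.Q [0,0,0,-2,0,0,1,1,0,0,-1] (.p
  false [0,0,1] [] (⟨0,[(34,0)]⟩,⟨0,[(33,0)]⟩) .k 0 (⟨0,[]⟩,⟨0,[]⟩) .k .k) (.I [0,1,2,1,-1,0,0,-1]
  (.R ⟨1,true,false,true,[1,-1],[1,0,-1],[0,1,1,0,0,0,0,-1],(⟨0,[(38,0)]⟩,⟨0,[(39,0)]⟩),(⟨0,[(35,
  0)]⟩,⟨0,[(36,0)]⟩),⟨1,[(12,0),(1,0),(23,0)]⟩,.k,.k,(.r (-1) ⟨0,[(11,0),(34,0)]⟩ ⟨2,[(0,1),(6,1),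
  (16,0),(0,0)]⟩),.k,(.r (-1) ⟨1,[(4,0),(6,0),(34,0)]⟩ ⟨59,[(0,51),(6,15),(0,11),(7,11),(0,11),(6,
  16),(0,16),(18,17)]⟩),.k,⟨true,0,⟨5,[(6,1),(12,1),(4,0),(0,0)]⟩,⟨0,[]⟩⟩,⟨false,1,⟨1,[(2,0),(9,1),
  (30,0)]⟩,⟨0,[(32,0)]⟩⟩,⟨true,(-1),⟨0,[(0,0)]⟩,⟨1,[(4,0),(38,0)]⟩⟩,⟨false,0,⟨0,[(20,0),(1,0)]⟩,⟨7,
  [(5,3),(18,0),(0,0),(11,1),(6,3)]⟩⟩,⟨false,0,⟨59,[(0,51),(6,15),(0,11),(7,11),(0,11),(6,16),(0,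
  16),(18,17)]⟩,⟨0,[(4,0),(15,0)]⟩⟩,⟨true,0,⟨1,[(8,0),(8,0),(4,0),(18,0)]⟩,⟨0,[(1,0)]⟩⟩,[]⟩) (.R ⟨1,
  true,false,false,[0,0,1],[1,1,-1],[0,1,0,-1,0,0,0,1],(⟨0,[(36,0)]⟩,⟨0,[(35,0)]⟩),(⟨1,[(2,0),(3,0),
  (19,0),(0,0)]⟩,⟨0,[(12,0)]⟩),⟨0,[(12,0)]⟩,.k,.k,.k,(.r (-1) ⟨107,[(4,73),(0,15),(1,23),(7,11),(3,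
  15),(2,11),(1,16),(0,16)]⟩ ⟨3,[(6,1),(1,3),(14,1),(0,0),(0,0)]⟩),(.r (-1) ⟨0,[(0,0),(0,0),(20,
  0)]⟩ ⟨10,[(6,9),(0,1),(0,11),(7,1),(0,1),(6,4),(0,4),(15,1)]⟩),.k,⟨false,1,⟨0,[(4,0),(41,0)]⟩,⟨1,
  [(6,0),(1,1),(7,0),(0,0),(26,0)]⟩⟩,⟨true,1,⟨0,[(19,0),(23,0)]⟩,⟨0,[(6,0)]⟩⟩,⟨false,0,⟨0,[(42,0)]⟩,
  ⟨27,[(7,7),(0,3),(7,3),(0,3),(6,6),(0,6),(17,3),(0,9)]⟩⟩,⟨true,0,⟨0,[(8,0)]⟩,⟨0,[(5,0),(35,0)]⟩⟩,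
  ⟨true,0,⟨0,[(46,0)]⟩,⟨0,[]⟩⟩,⟨false,1,⟨27,[(7,7),(0,31),(7,3),(0,3),(6,6),(0,6),(17,3),(0,9)]⟩,⟨0,
  [(5,0)]⟩⟩,[]⟩)) (.I [1,-1,0,0,0,0,0,0,1] (.Q [0,0,0,0,0,0,-1,-1,0,0,1,-1] (.p true [0,0,1] [0,0,0,
  1] (⟨0,[(36,0)]⟩,⟨0,[(35,0)]⟩) .k 2 (⟨0,[(27,0)]⟩,⟨0,[(26,0)]⟩) .k (.r (-1) ⟨107,[(4,19),(0,15),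
  (1,23),(7,11),(3,15),(2,11),(1,70),(0,16)]⟩ ⟨1,[(0,1),(22,0),(4,0),(2,0)]⟩)) (.Q [0,0,0,0,0,-1,0,
  0,0,1,0,-1] (.ed true [0,1,0,1] .k) (.R ⟨1,false,false,false,[1,0,0,-1],[1,0,-1],[0,0,0,-1,0,0,0,
  0,-1],(⟨0,[(28,0)]⟩,⟨0,[(29,0)]⟩),(⟨0,[(37,0)]⟩,⟨0,[(38,0)]⟩),⟨0,[(0,0)]⟩,.k,.k,(.x (-1) ⟨11,[(14,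
  3),(1,3),(9,4),(0,4),(11,1)]⟩ ⟨0,[(41,0)]⟩),.k,(.r (-1) ⟨1,[(6,0),(19,0)]⟩ ⟨26,[(2,0),(0,3),(4,
  12),(0,0),(0,12),(6,1),(0,1),(8,12)]⟩),.k,⟨false,1,⟨1,[(6,0),(19,0)]⟩,⟨0,[(2,0),(15,0),(14,0)]⟩⟩,
  ⟨true,0,⟨0,[(28,0),(2,0)]⟩,⟨2,[(7,0),(4,0),(5,2),(10,2)]⟩⟩,⟨true,0,⟨0,[(44,0)]⟩,⟨0,[(43,0)]⟩⟩,
  ⟨false,0,⟨3,[(1,3),(0,1),(5,0),(12,0),(5,0),(14,0)]⟩,⟨1,[(6,0),(11,1),(7,0),(2,1)]⟩⟩,⟨false,1,⟨3,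
  [(26,0),(0,0),(18,1)]⟩,⟨0,[]⟩⟩,⟨false,0,⟨19,[(1,19),(0,9),(5,4),(0,7),(0,3),(10,0),(5,4),(14,0)]⟩,
  ⟨5,[(6,2),(0,1),(4,1),(5,5),(7,2),(2,5)]⟩⟩,[.e ⟨false,1,⟨1,[(13,0),(12,0),(21,0)]⟩,⟨0,[(2,0),(40,
  0)]⟩⟩ ⟨false,0,⟨0,[(1,0)]⟩,⟨15,[(6,3),(10,7),(7,3),(0,0),(0,0),(1,15),(9,1),(5,3),(0,3)]⟩⟩,.o
  ⟨false,1,⟨7,[(11,3),(14,0),(0,0),(11,1),(6,3)]⟩,⟨0,[(32,0)]⟩⟩,.o ⟨false,1,⟨1,[(29,1),(9,0),(5,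
  0)]⟩,⟨19,[(1,9),(5,2),(0,4),(0,1),(7,1),(10,9),(2,7),(7,4)]⟩⟩,.a ⟨true,0,⟨0,[(29,0)]⟩,⟨0,[(28,
  0)]⟩⟩ ⟨false,1,⟨1,[(6,0),(15,1),(3,0)]⟩,⟨2,[(2,0),(0,0),(4,0),(8,0),(3,0),(5,0)]⟩⟩ ⟨true,0,⟨0,[(1,
  0)]⟩,⟨0,[(29,0),(2,0)]⟩⟩]⟩) (.R ⟨0,false,false,false,[1,0,0,-1],[1,0,-1],[0,0,0,-1,0,0,0,0,-1],
  (⟨0,[(28,0)]⟩,⟨0,[(29,0)]⟩),(⟨0,[(37,0)]⟩,⟨0,[(38,0)]⟩),⟨0,[(0,0)]⟩,.k,.k,(.x (-1) ⟨11,[(14,3),(1,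
  3),(9,4),(0,4),(11,1)]⟩ ⟨0,[(41,0)]⟩),.k,.k,.k,⟨false,1,⟨1,[(6,0),(19,0)]⟩,⟨0,[(2,0),(15,0),(14,
  0)]⟩⟩,⟨true,0,⟨0,[(28,0),(2,0)]⟩,⟨9,[(0,5),(4,0),(10,1),(8,3),(3,3),(15,0)]⟩⟩,⟨true,0,⟨0,[(44,
  0)]⟩,⟨0,[(43,0)]⟩⟩,⟨false,0,⟨3,[(1,3),(0,1),(5,0),(12,0),(5,0),(14,0)]⟩,⟨1,[(6,0),(11,1),(7,0),(2,
  1)]⟩⟩,⟨false,0,⟨0,[]⟩,⟨0,[]⟩⟩,⟨false,0,⟨0,[]⟩,⟨0,[]⟩⟩,[.e ⟨false,1,⟨1,[(13,0),(12,0),(21,0)]⟩,⟨0,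
  [(2,0),(40,0)]⟩⟩ ⟨false,0,⟨0,[(1,0)]⟩,⟨15,[(6,3),(10,7),(7,3),(0,0),(0,0),(1,15),(9,1),(5,3),(0,
  3)]⟩⟩,.o ⟨false,1,⟨7,[(11,3),(14,0),(0,0),(11,1),(6,3)]⟩,⟨0,[(32,0)]⟩⟩,.o ⟨false,1,⟨1,[(29,1),(9,
  0),(5,0)]⟩,⟨19,[(1,9),(5,2),(0,4),(0,1),(7,1),(10,9),(2,7),(7,4)]⟩⟩,.a ⟨true,0,⟨0,[(29,0)]⟩,⟨0,
  [(28,0)]⟩⟩ ⟨false,1,⟨1,[(6,0),(15,1),(3,0)]⟩,⟨2,[(2,0),(0,0),(4,0),(8,0),(3,0),(5,0)]⟩⟩ ⟨true,0,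
  ⟨0,[(1,0)]⟩,⟨0,[(29,0),(2,0)]⟩⟩]⟩)) (.Q [0,0,0,0,0,1,0,0,0,-1,0,1] (.ed false [0,1,0,1] .k) (.R
  ⟨0,false,false,false,[1,0,0,-1],[1,0,-1],[0,1,0,0,0,0,0,0,-1],(⟨0,[(28,0)]⟩,⟨0,[(29,0)]⟩),(⟨0,
  [(37,0)]⟩,⟨0,[(38,0)]⟩),⟨0,[(0,0)]⟩,.k,.k,(.x (-1) ⟨11,[(14,3),(1,3),(9,4),(0,4),(11,1)]⟩ ⟨0,[(41,
  0)]⟩),.k,.k,.k,⟨false,1,⟨1,[(6,0),(19,0),(16,1)]⟩,⟨0,[(2,0),(33,0)]⟩⟩,⟨true,0,⟨0,[(28,0),(2,0)]⟩,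
  ⟨0,[(1,0),(34,0)]⟩⟩,⟨true,0,⟨0,[(48,0)]⟩,⟨0,[]⟩⟩,⟨false,0,⟨21,[(2,17),(5,4),(2,10),(15,1),(0,21),
  (2,9),(7,2),(2,1)]⟩,⟨1,[(1,1),(24,0),(18,0)]⟩⟩,⟨false,0,⟨0,[]⟩,⟨0,[]⟩⟩,⟨false,0,⟨0,[]⟩,⟨0,[]⟩⟩,
  [.a ⟨true,0,⟨4,[(3,0),(8,1),(15,1),(0,1)]⟩,⟨0,[(1,0),(26,0)]⟩⟩ ⟨false,1,⟨1,[(26,0),(18,0),(2,1)]⟩,
  ⟨0,[(2,0)]⟩⟩ ⟨true,0,⟨23,[(8,7),(2,11),(9,7),(4,0),(0,0),(0,23),(10,5)]⟩,⟨0,[(1,0)]⟩⟩,.o ⟨false,1,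
  ⟨7,[(11,3),(14,0),(0,0),(11,1),(6,3)]⟩,⟨0,[(32,0)]⟩⟩,.o ⟨false,1,⟨1,[(29,1),(9,0),(5,0)]⟩,⟨2,[(7,
  0),(4,0),(5,2),(9,2),(2,2)]⟩⟩,.e ⟨false,1,⟨1,[(26,0),(18,0)]⟩,⟨3,[(2,1),(5,0),(12,0),(5,0),(14,
  0)]⟩⟩ ⟨false,1,⟨7,[(11,3),(14,0),(0,0),(0,7),(10,1),(6,3)]⟩,⟨0,[(1,0)]⟩⟩]⟩) (.R ⟨1,false,false,
  false,[1,0,0,-1],[1,0,-1],[0,0,0,-1,0,0,0,0,-1],(⟨0,[(28,0)]⟩,⟨0,[(29,0)]⟩),(⟨0,[(37,0)]⟩,⟨0,[(38,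
  0)]⟩),⟨0,[(0,0)]⟩,.k,.k,(.x (-1) ⟨11,[(14,3),(1,3),(9,4),(0,4),(11,1)]⟩ ⟨0,[(41,0)]⟩),.k,(.r (-1)
  ⟨1,[(6,0),(19,0)]⟩ ⟨26,[(2,0),(0,3),(4,12),(0,0),(0,12),(6,1),(0,1),(8,12)]⟩),.k,⟨false,1,⟨1,[(6,
  0),(19,0)]⟩,⟨0,[(2,0),(15,0),(14,0)]⟩⟩,⟨true,0,⟨0,[(28,0),(2,0)]⟩,⟨0,[(1,0),(34,0)]⟩⟩,⟨true,0,⟨0,
  [(44,0)]⟩,⟨0,[(43,0)]⟩⟩,⟨false,0,⟨21,[(2,17),(5,4),(2,10),(15,1),(0,21),(2,9),(7,2),(2,1)]⟩,⟨1,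
  [(1,1),(24,0),(18,0)]⟩⟩,⟨false,1,⟨3,[(26,0),(0,0),(18,1)]⟩,⟨0,[]⟩⟩,⟨false,0,⟨47,[(2,39),(5,11),(0,
  8),(0,28),(6,0),(9,3),(0,47),(2,14),(7,7)]⟩,⟨1,[(1,1),(11,0),(12,0),(21,0)]⟩⟩,[.a ⟨true,0,⟨4,[(3,
  0),(8,1),(15,1),(0,1)]⟩,⟨0,[(1,0),(26,0)]⟩⟩ ⟨false,1,⟨1,[(13,0),(12,0),(21,0)]⟩,⟨0,[(2,0),(40,
  0)]⟩⟩ ⟨true,0,⟨23,[(8,7),(2,11),(9,7),(4,0),(0,0),(0,23),(10,5)]⟩,⟨0,[(1,0)]⟩⟩,.o ⟨false,1,⟨7,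
  [(11,3),(14,0),(0,0),(11,1),(6,3)]⟩,⟨0,[(32,0)]⟩⟩,.o ⟨false,1,⟨1,[(29,1),(9,0),(5,0)]⟩,⟨2,[(7,0),
  (4,0),(5,2),(9,2),(2,2)]⟩⟩,.e ⟨false,1,⟨1,[(6,0),(15,1),(3,0)]⟩,⟨2,[(2,0),(0,0),(4,0),(8,0),(3,0),
  (5,0)]⟩⟩ ⟨false,1,⟨7,[(11,3),(14,0),(0,0),(0,7),(10,1),(6,3)]⟩,⟨0,[(1,0)]⟩⟩]⟩))) (.Q [0,1,-1,0,0,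
  0,0,0,-1,0,0,1] (.p true [0,0,0,1] [] (⟨0,[(27,0)]⟩,⟨0,[(26,0)]⟩) .k 0 (⟨0,[]⟩,⟨0,[]⟩) .k .k) (.Q
  [0,1,1,0,0,0,0,0,1,0,0,-1] (.p false [0,0,0,1] [] (⟨0,[(28,0)]⟩,⟨0,[(27,0)]⟩) .k 0 (⟨0,[]⟩,⟨0,
  []⟩) .k .k) (.K ⟨0,[0,0,0,1],0,0,(⟨0,[(29,0)]⟩,⟨0,[(28,0)]⟩),.k,(.r (-1) ⟨1,[(13,0),(13,0),(20,
  0)]⟩ ⟨19,[(2,9),(5,4),(0,7),(0,3),(10,0),(4,4),(15,0)]⟩),(.x 0 ⟨0,[(41,0)]⟩ ⟨11,[(14,3),(1,3),(9,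
  4),(0,4),(11,1)]⟩),.k,.k,[⟨0,[(29,0)]⟩,⟨0,[(28,0)]⟩,⟨0,[(1,0)]⟩,⟨0,[(0,0)]⟩]⟩) (.Q [0,0,0,0,0,0,1,
  1,0,0,-1,1] (.p false [0,0,1] [0,0,0,1] (⟨0,[(38,0)]⟩,⟨0,[(37,0)]⟩) .k 2 (⟨0,[(29,0)]⟩,⟨0,[(28,
  0)]⟩) .k (.r 0 ⟨0,[(0,0),(27,0),(2,0),(0,0)]⟩ ⟨3,[(26,0),(0,2),(8,3)]⟩)) (.Q [0,0,0,0,0,1,0,0,0,
  -1,0,1] (.ed false [0,1,0,1] .k) (.Q [0,1,1,0,0,0,-1,-1,1,0,1,-1] (.p true [0,0,1] [0,0,0,1] (⟨0,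
  [(40,0)]⟩,⟨0,[(39,0)]⟩) .k 2 (⟨0,[(31,0)]⟩,⟨0,[(30,0)]⟩) .k (.r 0 ⟨0,[(2,0),(27,0),(2,0),(0,0)]⟩
  ⟨3,[(28,0),(0,2),(8,3)]⟩)) (.R ⟨0,false,false,true,[1,0,0,-1],[1,0,-1],[1,1],(⟨0,[(31,0)]⟩,⟨0,
  [(32,0)]⟩),(⟨0,[(40,0)]⟩,⟨0,[(41,0)]⟩),⟨0,[(1,0)]⟩,.k,.k,(.x (-1) ⟨11,[(17,3),(1,3),(9,4),(0,4),
  (11,1)]⟩ ⟨0,[(44,0)]⟩),.k,.k,.k,⟨false,1,⟨35,[(9,11),(2,7),(7,3),(6,3),(1,6),(0,6),(17,9)]⟩,⟨0,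
  [(39,0)]⟩⟩,⟨true,0,⟨0,[(31,0),(2,0)]⟩,⟨33,[(1,17),(2,1),(3,2),(7,1),(2,5),(1,3),(6,11),(1,0),(1,
  13)]⟩⟩,⟨false,1,⟨3,[(29,0),(0,2)]⟩,⟨2,[(3,2),(6,0),(4,0),(5,2),(9,2),(2,2)]⟩⟩,⟨true,0,⟨0,[(0,0)]⟩,
  ⟨0,[(3,0),(31,0)]⟩⟩,⟨false,0,⟨0,[]⟩,⟨0,[]⟩⟩,⟨false,0,⟨0,[]⟩,⟨0,[]⟩⟩,[.o ⟨false,0,⟨0,[(33,0)]⟩,⟨15,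
  [(10,3),(9,7),(8,0),(0,0),(11,1),(6,11)]⟩⟩,.e ⟨true,0,⟨0,[]⟩,⟨5,[(11,1),(12,1),(4,0),(0,0)]⟩⟩
  ⟨true,0,⟨25,[(0,3),(10,4),(2,10),(14,1),(1,21),(2,9),(7,2),(2,1)]⟩,⟨0,[(2,0)]⟩⟩,.o ⟨false,1,⟨1,
  [(32,1),(9,0),(5,0)]⟩,⟨2,[(10,0),(4,0),(5,2),(9,2),(2,2)]⟩⟩,.a ⟨true,0,⟨0,[(32,0)]⟩,⟨0,[(31,0)]⟩⟩
  ⟨false,1,⟨3,[(29,0),(0,0),(17,1)]⟩,⟨3,[(11,0),(12,0),(20,0),(3,0)]⟩⟩ ⟨true,0,⟨0,[(31,0),(1,0)]⟩,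
  ⟨0,[(2,0)]⟩⟩]⟩) (.I [0,1,-1,0,0,0,0,1,-1] (.R ⟨0,false,false,false,[1,0,0,-1],[1,0,-1],[1,0,1,0,0,
  0,0,-1],(⟨0,[(32,0)]⟩,⟨0,[(33,0)]⟩),(⟨0,[(41,0)]⟩,⟨0,[(42,0)]⟩),⟨0,[(2,0)]⟩,.k,.k,(.x (-1) ⟨11,
  [(18,3),(1,3),(9,4),(0,4),(11,1)]⟩ ⟨0,[(45,0)]⟩),.k,.k,.k,⟨false,0,⟨0,[]⟩,⟨3,[(30,0),(0,0),(17,
  1)]⟩⟩,⟨true,0,⟨0,[(32,0),(2,0)]⟩,⟨33,[(2,17),(2,1),(3,2),(7,1),(2,5),(1,3),(6,11),(1,0),(1,13)]⟩⟩,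
  ⟨true,0,⟨1,[(12,0),(2,0),(15,0)]⟩,⟨0,[(0,0)]⟩⟩,⟨false,1,⟨23,[(12,7),(2,11),(9,7),(4,0),(0,12),(0,
  23),(10,5),(6,11)]⟩,⟨2,[(1,1),(3,0),(30,0)]⟩⟩,⟨false,0,⟨0,[]⟩,⟨0,[]⟩⟩,⟨false,0,⟨0,[]⟩,⟨0,[]⟩⟩,[.a
  ⟨true,0,⟨4,[(7,0),(8,1),(15,1),(0,1)]⟩,⟨0,[(3,0),(28,0)]⟩⟩ ⟨false,0,⟨0,[(40,0)]⟩,⟨35,[(10,11),(2,
  7),(7,3),(6,3),(1,6),(0,6),(17,9)]⟩⟩ ⟨true,0,⟨23,[(12,7),(2,11),(9,7),(4,0),(0,0),(0,23),(10,5)]⟩,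
  ⟨0,[(3,0)]⟩⟩,.o ⟨false,1,⟨7,[(15,3),(14,0),(0,0),(11,1),(6,3)]⟩,⟨0,[(36,0)]⟩⟩,.o ⟨false,1,⟨1,[(33,
  1),(9,0),(5,0)]⟩,⟨2,[(11,0),(4,0),(5,2),(9,2),(2,2)]⟩⟩,.e ⟨false,0,⟨0,[(26,0)]⟩,⟨26,[(10,4),(0,3),
  (1,5),(7,2),(3,3),(2,2),(1,10),(0,10)]⟩⟩ ⟨false,1,⟨7,[(15,3),(14,0),(0,0),(0,7),(10,1),(6,3)]⟩,⟨0,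
  [(3,0)]⟩⟩]⟩) (.Q [0,0,0,-1,0,0,0,0,0,-1,0,1] (.p true [0,0,0,1] [1] (⟨0,[(33,0)]⟩,⟨0,[(32,0)]⟩)
  .k 1 (⟨0,[]⟩,⟨0,[]⟩) .k .k) (.R ⟨0,false,false,true,[1,0,0,-1],[0,1],[1,1],(⟨0,[(33,0)]⟩,⟨0,[(34,
  0)]⟩),(⟨0,[(46,0)]⟩,⟨0,[(45,0)]⟩),⟨0,[(3,0)]⟩,.k,.k,(.x (-1) ⟨11,[(19,3),(1,3),(9,4),(0,4),(11,
  1)]⟩ ⟨0,[(46,0)]⟩),(.x (-1) ⟨11,[(19,3),(1,3),(9,4),(0,4),(11,1)]⟩ ⟨0,[(46,0)]⟩),.k,.k,⟨false,1,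
  ⟨1,[(18,0),(31,0),(2,0)]⟩,⟨39,[(8,7),(4,11),(0,7),(11,7),(4,4),(0,4),(11,1),(3,7)]⟩⟩,⟨true,0,⟨0,
  [(33,0)]⟩,⟨10,[(3,2),(6,0),(2,1),(11,0),(8,7),(1,3),(7,2)]⟩⟩,⟨false,1,⟨3,[(31,0),(0,2)]⟩,⟨7,[(2,
  5),(4,1),(5,0),(2,2),(16,5),(2,1),(7,0),(2,1)]⟩⟩,⟨true,0,⟨0,[(1,0),(27,0),(3,0),(3,0)]⟩,⟨2,[(2,2),
  (9,0),(4,0),(17,2)]⟩⟩,⟨false,0,⟨0,[]⟩,⟨0,[]⟩⟩,⟨false,0,⟨0,[]⟩,⟨0,[]⟩⟩,[.o ⟨false,0,⟨0,[(48,0)]⟩,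
  ⟨5,[(12,1),(4,1),(26,2),(6,2)]⟩⟩,.e ⟨true,0,⟨0,[]⟩,⟨5,[(13,1),(12,1),(4,0),(0,0)]⟩⟩ ⟨true,0,⟨39,
  [(8,7),(4,11),(0,7),(11,7),(4,4),(0,4),(0,39),(10,1),(3,7)]⟩,⟨0,[(0,0)]⟩⟩,.o ⟨false,1,⟨1,[(34,1),
  (9,0),(5,0)]⟩,⟨2,[(12,0),(4,0),(5,2),(9,2),(2,2)]⟩⟩,.a ⟨true,0,⟨0,[(34,0)]⟩,⟨0,[(33,0)]⟩⟩ ⟨false,
  1,⟨3,[(31,0),(0,0),(17,1)]⟩,⟨3,[(13,0),(12,0),(20,0),(3,0)]⟩⟩ ⟨true,0,⟨0,[(33,0),(14,0)]⟩,⟨0,[(0,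
  0)]⟩⟩]⟩) (.R ⟨0,false,false,true,[1,0,0,-1],[0,1],[1,1],(⟨0,[(33,0)]⟩,⟨0,[(34,0)]⟩),(⟨0,[(46,0)]⟩,
  ⟨0,[(45,0)]⟩),⟨0,[(3,0)]⟩,.k,.k,(.x (-1) ⟨11,[(19,3),(1,3),(9,4),(0,4),(11,1)]⟩ ⟨0,[(46,0)]⟩),(.x
  (-1) ⟨11,[(19,3),(1,3),(9,4),(0,4),(11,1)]⟩ ⟨0,[(46,0)]⟩),.k,.k,⟨false,1,⟨1,[(18,0),(31,0),(2,
  0)]⟩,⟨39,[(8,7),(4,11),(0,7),(11,7),(4,4),(0,4),(11,1),(3,7)]⟩⟩,⟨true,0,⟨0,[(33,0)]⟩,⟨10,[(3,2),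
  (6,0),(2,1),(11,0),(8,7),(1,3),(7,2)]⟩⟩,⟨false,1,⟨3,[(31,0),(0,2)]⟩,⟨7,[(2,5),(4,1),(5,0),(2,2),
  (16,5),(2,1),(7,0),(2,1)]⟩⟩,⟨true,0,⟨0,[(1,0),(27,0),(3,0),(3,0)]⟩,⟨2,[(2,2),(9,0),(4,0),(17,
  2)]⟩⟩,⟨false,0,⟨0,[]⟩,⟨0,[]⟩⟩,⟨false,0,⟨0,[]⟩,⟨0,[]⟩⟩,[.o ⟨false,0,⟨0,[(48,0)]⟩,⟨5,[(12,1),(4,1),
  (26,2),(6,2)]⟩⟩,.a ⟨true,0,⟨0,[(0,0),(33,0)]⟩,⟨0,[(49,0)]⟩⟩ ⟨true,0,⟨0,[]⟩,⟨5,[(13,1),(12,1),(4,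
  0),(0,0)]⟩⟩ ⟨false,0,⟨0,[(0,0)]⟩,⟨17,[(6,5),(5,1),(4,1),(0,5),(13,2),(1,11),(9,8)]⟩⟩,.o ⟨false,1,
  ⟨1,[(34,1),(9,0),(5,0)]⟩,⟨2,[(12,0),(4,0),(5,2),(9,2),(2,2)]⟩⟩,.e ⟨false,1,⟨3,[(31,0),(0,0),(17,
  1)]⟩,⟨3,[(13,0),(12,0),(20,0),(3,0)]⟩⟩ ⟨false,0,⟨0,[(0,0)]⟩,⟨5,[(12,1),(4,1),(16,5),(9,2),(6,
  2)]⟩⟩]⟩)))) (.I [0,1,-1,-1,0,0,0,1,-1] (.R ⟨1,false,false,false,[1,0,0,-1],[1,0,-1],[0,1,0,-1,0,0,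
  0,0,-1],(⟨0,[(31,0)]⟩,⟨0,[(32,0)]⟩),(⟨0,[(40,0)]⟩,⟨0,[(41,0)]⟩),⟨0,[(1,0)]⟩,.k,.k,(.x (-1) ⟨11,
  [(17,3),(1,3),(9,4),(0,4),(11,1)]⟩ ⟨0,[(44,0)]⟩),.k,(.x 0 ⟨1,[(8,0),(39,0)]⟩ ⟨11,[(7,5),(3,3),(12,
  3),(4,4),(0,4)]⟩),.k,⟨false,0,⟨0,[(0,0)]⟩,⟨7,[(6,3),(18,1),(2,1),(1,3),(8,1),(2,0),(6,2)]⟩⟩,⟨true,
  0,⟨0,[(31,0),(2,0)]⟩,⟨0,[(2,0),(36,0)]⟩⟩,⟨false,0,⟨0,[(47,0)]⟩,⟨19,[(6,3),(5,3),(8,3),(7,4),(0,4),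
  (17,1),(0,7)]⟩⟩,⟨false,1,⟨23,[(11,7),(2,11),(9,7),(4,0),(0,12),(0,23),(10,5),(6,11)]⟩,⟨1,[(0,0),
  (1,0),(0,0),(17,0)]⟩⟩,⟨true,0,⟨0,[(51,0)]⟩,⟨0,[]⟩⟩,⟨false,1,⟨5,[(6,1),(4,1),(1,1),(10,1),(5,2),(0,
  5),(10,1),(6,2)]⟩,⟨3,[(0,0),(1,0),(0,2),(6,1),(10,0),(11,1)]⟩⟩,[.a ⟨true,0,⟨4,[(6,0),(8,1),(15,1),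
  (0,1)]⟩,⟨0,[(2,0),(28,0)]⟩⟩ ⟨false,0,⟨0,[(0,0),(38,0)]⟩,⟨9,[(6,1),(5,1),(8,1),(8,4),(17,0),(0,
  3)]⟩⟩ ⟨true,0,⟨23,[(11,7),(2,11),(9,7),(4,0),(0,0),(0,23),(10,5)]⟩,⟨0,[(2,0)]⟩⟩,.o ⟨false,1,⟨7,
  [(14,3),(14,0),(0,0),(11,1),(6,3)]⟩,⟨0,[(35,0)]⟩⟩,.o ⟨false,1,⟨1,[(32,1),(9,0),(5,0)]⟩,⟨2,[(10,0),
  (4,0),(5,2),(9,2),(2,2)]⟩⟩,.e ⟨false,0,⟨0,[(0,0),(24,0)]⟩,⟨95,[(6,23),(4,27),(0,23),(11,15),(4,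
  16),(0,64),(11,5),(6,35)]⟩⟩ ⟨false,1,⟨7,[(14,3),(14,0),(0,0),(0,7),(10,1),(6,3)]⟩,⟨0,[(2,0)]⟩⟩]⟩)
  (.Q [0,1,1,-1,0,0,0,0,1,0,0,-1] (.p false [0,0,0,1] [] (⟨0,[(32,0)]⟩,⟨0,[(31,0)]⟩) .k 0 (⟨0,[]⟩,
  ⟨0,[]⟩) .k .k) (.Q [0,0,1,0,0,0,0,0,1,1,0,-1] (.p false [0,0,0,1] [1] (⟨0,[(33,0)]⟩,⟨0,[(32,0)]⟩)
  .k 1 (⟨0,[]⟩,⟨0,[]⟩) .k .k) (.R ⟨2,false,false,true,[0,1],[0,0,0,1],[1],(⟨0,[]⟩,⟨0,[]⟩),(⟨0,[(34,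
  0)]⟩,⟨0,[(33,0)]⟩),⟨0,[]⟩,.k,.k,.k,(.r 0 ⟨19,[(7,9),(5,4),(0,7),(0,3),(10,0),(4,4),(15,0)]⟩ ⟨9,
  [(1,1),(4,1),(11,3),(13,4),(17,0)]⟩),.k,.k,⟨true,0,⟨2,[(5,2),(6,0),(4,0),(5,2),(9,2),(2,2)]⟩,⟨6,
  [(1,3),(0,0),(1,1),(8,0),(15,2),(2,0),(1,1),(0,0)]⟩⟩,⟨false,0,⟨2,[(12,0),(4,0),(5,2),(9,2),(2,
  2)]⟩,⟨0,[(34,0),(15,0)]⟩⟩,⟨false,1,⟨7,[(18,3),(12,0),(0,0),(18,1)]⟩,⟨39,[(8,7),(4,11),(0,7),(11,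
  7),(4,4),(0,4),(11,1),(3,7)]⟩⟩,⟨true,0,⟨0,[(1,0)]⟩,⟨2,[(5,1),(0,0),(1,0),(13,0)]⟩⟩,⟨false,1,⟨1,
  [(50,0),(0,0)]⟩,⟨5,[(13,1),(12,1),(4,0),(0,0)]⟩⟩,⟨false,1,⟨3,[(0,3),(30,0),(0,0),(11,1)]⟩,⟨0,[(5,
  0)]⟩⟩,[.e ⟨true,0,⟨0,[]⟩,⟨5,[(13,1),(12,1),(4,0),(0,0)]⟩⟩ ⟨true,0,⟨39,[(1,39),(6,7),(4,11),(0,7),
  (11,7),(4,4),(0,4),(11,1),(3,7)]⟩,⟨0,[(5,0)]⟩⟩,.a ⟨true,0,⟨0,[(0,0)]⟩,⟨1,[(5,0),(0,0)]⟩⟩ ⟨false,1,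
  ⟨1,[(50,0),(0,0)]⟩,⟨0,[(53,0)]⟩⟩ ⟨true,0,⟨50,[(0,0),(0,49),(0,9),(10,4),(0,17),(0,3),(15,4),(4,1),
  (10,10)]⟩,⟨1,[(5,0),(0,0)]⟩⟩,.o ⟨false,1,⟨3,[(31,0),(0,0),(17,1)]⟩,⟨2,[(12,0),(4,0),(5,2),(12,
  2)]⟩⟩,.e ⟨false,1,⟨1,[(50,0),(0,0)]⟩,⟨5,[(13,1),(12,1),(4,0),(0,0)]⟩⟩ ⟨false,1,⟨3,[(0,3),(30,0),
  (0,0),(11,1)]⟩,⟨0,[(5,0)]⟩⟩]⟩) (.R ⟨2,false,false,true,[0,1],[0,0,0,1],[],(⟨0,[]⟩,⟨0,[]⟩),(⟨0,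
  [(34,0)]⟩,⟨0,[(33,0)]⟩),⟨0,[]⟩,.k,.k,.k,(.r 0 ⟨19,[(7,9),(5,4),(0,7),(0,3),(10,0),(4,4),(15,0)]⟩
  ⟨9,[(1,1),(4,1),(11,3),(13,4),(17,0)]⟩),.k,.k,⟨true,0,⟨2,[(0,1),(6,0),(25,1),(13,1)]⟩,⟨6,[(1,3),
  (0,0),(1,1),(8,0),(15,2),(2,0),(1,1),(0,0)]⟩⟩,⟨false,0,⟨6,[(0,1),(0,1),(11,0),(9,1),(9,6),(2,3),
  (7,0),(2,0)]⟩,⟨0,[(34,0),(15,0)]⟩⟩,⟨false,1,⟨7,[(18,3),(12,0),(0,0),(18,1)]⟩,⟨39,[(8,7),(4,11),(0,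
  7),(11,7),(4,4),(0,4),(11,1),(3,7)]⟩⟩,⟨true,0,⟨0,[(1,0)]⟩,⟨2,[(5,1),(0,0),(1,0),(13,0)]⟩⟩,⟨false,
  1,⟨1,[(50,0),(0,0)]⟩,⟨5,[(13,1),(12,1),(4,0),(0,0)]⟩⟩,⟨false,1,⟨9,[(1,5),(0,1),(11,1),(16,2),(0,
  3),(0,3),(10,1),(6,0)]⟩,⟨0,[(5,0)]⟩⟩,[.a ⟨true,0,⟨3,[(1,1),(11,0),(15,1),(2,0),(0,2),(0,0)]⟩,⟨0,
  [(5,0)]⟩⟩ ⟨false,1,⟨3,[(31,0),(0,0),(17,1)]⟩,⟨0,[]⟩⟩ ⟨true,0,⟨39,[(1,39),(6,7),(4,11),(0,7),(11,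
  7),(4,4),(0,4),(11,1),(3,7)]⟩,⟨0,[(5,0)]⟩⟩,.o ⟨false,1,⟨9,[(1,5),(0,1),(11,1),(16,2),(0,3),(0,3),
  (10,1),(6,0)]⟩,⟨0,[(0,0)]⟩⟩,.o ⟨false,1,⟨3,[(31,0),(0,0),(17,1)]⟩,⟨6,[(0,1),(0,1),(11,0),(9,1),
  (12,3),(7,0),(2,0)]⟩⟩,.e ⟨false,1,⟨1,[(50,0),(0,0)]⟩,⟨5,[(13,1),(12,1),(4,0),(0,0)]⟩⟩ ⟨false,1,⟨9,
  [(1,5),(0,1),(11,1),(16,2),(0,3),(0,3),(10,1),(6,0)]⟩,⟨0,[(5,0)]⟩⟩]⟩)) (.I [0,1,1,0,0,0,0,1,1]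
  (.R ⟨1,false,false,true,[1,0,0,-1],[0,0,1],[1,0,0,0,0,0,0,0,-1],(⟨0,[(33,0)]⟩,⟨0,[(34,0)]⟩),(⟨0,
  [(43,0)]⟩,⟨0,[(42,0)]⟩),⟨0,[(3,0)]⟩,.k,.k,(.x (-1) ⟨11,[(19,3),(1,3),(9,4),(0,4),(11,1)]⟩ ⟨0,[(46,
  0)]⟩),.k,(.r 0 ⟨2,[(5,2),(6,1),(4,1),(5,2),(9,2),(1,2)]⟩ ⟨7,[(0,3),(13,3),(16,2),(0,4)]⟩),.k,
  ⟨true,0,⟨1,[(1,0),(3,0),(7,0),(3,0),(15,1),(10,0)]⟩,⟨0,[(0,0)]⟩⟩,⟨false,0,⟨2,[(12,0),(4,0),(5,2),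
  (9,2)]⟩,⟨55,[(1,23),(4,31),(4,3),(4,3),(1,7),(7,23),(4,0),(0,28),(11,13)]⟩⟩,⟨true,0,⟨0,[]⟩,⟨0,
  [(53,0)]⟩⟩,⟨true,0,⟨3,[(0,1),(1,1),(9,0),(20,3),(1,0),(1,2)]⟩,⟨0,[(5,0),(29,0)]⟩⟩,⟨false,1,⟨19,
  [(8,3),(5,3),(8,3),(7,4),(0,4),(17,1),(0,7)]⟩,⟨0,[(49,0)]⟩⟩,⟨true,0,⟨0,[(0,0),(22,0),(9,0)]⟩,⟨2,
  [(5,2),(6,0),(4,0),(17,2)]⟩⟩,[.o ⟨false,0,⟨0,[(37,0)]⟩,⟨7,[(16,3),(14,0),(0,0),(11,1),(6,3)]⟩⟩,.e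
  ⟨true,0,⟨2,[(5,2),(6,0),(4,0),(5,2),(9,2),(2,2)]⟩,⟨3,[(0,1),(12,0),(18,0),(2,0),(2,0)]⟩⟩ ⟨true,0,
  ⟨79,[(0,9),(11,21),(0,19),(0,17),(7,7),(8,4),(1,79),(2,11),(7,14)]⟩,⟨0,[(4,0),(11,0)]⟩⟩,.o ⟨false,
  1,⟨13,[(1,3),(4,5),(11,1),(13,4),(1,3),(9,6)]⟩,⟨2,[(12,0),(4,0),(5,2),(9,2),(2,2)]⟩⟩,.a ⟨true,0,
  ⟨0,[(34,0)]⟩,⟨0,[(33,0)]⟩⟩ ⟨false,1,⟨9,[(1,3),(16,1),(12,2),(1,3),(10,1),(5,0),(0,1)]⟩,⟨5,[(0,2),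
  (1,2),(9,0),(4,0)]⟩⟩ ⟨true,0,⟨0,[(33,0),(3,0)]⟩,⟨0,[(4,0),(11,0)]⟩⟩]⟩) (.I [0,1,1,0,-1,0,0,-1,-1]
  (.R ⟨1,false,false,false,[1,0,0,-1],[0,-1,1],[0,1,0,-1,0,0,0,0,-1],(⟨0,[(34,0)]⟩,⟨0,[(35,0)]⟩),
  (⟨0,[(20,0)]⟩,⟨1,[(10,0),(3,0),(19,0),(0,0)]⟩),⟨0,[(4,0)]⟩,.k,.k,(.x (-1) ⟨11,[(20,3),(1,3),(9,4),
  (0,4),(11,1)]⟩ ⟨0,[(47,0)]⟩),(.r 0 ⟨63,[(0,3),(0,1),(7,19),(4,29),(0,1),(0,19),(15,28),(12,4)]⟩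
  ⟨1,[(12,0),(20,0)]⟩),.k,.k,⟨true,(-1),⟨0,[(0,0)]⟩,⟨3,[(12,0),(8,1),(11,1),(18,0)]⟩⟩,⟨false,0,⟨7,
  [(14,3),(17,0),(0,0),(0,7),(10,1)]⟩,⟨1,[(2,1),(9,0),(20,0),(2,1)]⟩⟩,⟨false,0,⟨0,[(50,0)]⟩,⟨19,[(9,
  3),(5,3),(8,3),(7,4),(0,4),(17,1),(0,7)]⟩⟩,⟨false,1,⟨23,[(13,11),(0,7),(12,7),(4,0),(0,12),(0,23),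
  (10,5),(6,11)]⟩,⟨0,[(2,0),(33,0)]⟩⟩,⟨true,0,⟨0,[(54,0)]⟩,⟨0,[]⟩⟩,⟨false,1,⟨7,[(13,1),(0,1),(6,3),
  (10,0),(0,4),(0,7),(10,1),(6,1)]⟩,⟨0,[(6,0),(29,0)]⟩⟩,[.a ⟨true,0,⟨1,[(13,0),(20,0),(0,0)]⟩,⟨4,
  [(9,2),(8,0),(15,0),(0,0)]⟩⟩ ⟨false,0,⟨1,[(0,1),(11,0),(38,0)]⟩,⟨9,[(9,1),(5,1),(8,1),(8,4),(17,
  0),(0,3)]⟩⟩ ⟨true,0,⟨23,[(13,11),(0,7),(12,7),(4,0),(0,0),(0,23),(10,5)]⟩,⟨0,[(5,0),(10,0)]⟩⟩,.o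
  ⟨false,1,⟨7,[(13,3),(18,0),(0,0),(11,1),(6,3)]⟩,⟨1,[(16,0),(6,0),(12,0)]⟩⟩,.o ⟨false,1,⟨13,[(2,3),
  (4,5),(11,1),(13,4),(1,3),(9,6)]⟩,⟨2,[(13,0),(4,0),(5,2),(9,2),(2,2)]⟩⟩,.e ⟨false,0,⟨1,[(0,0),(0,
  0),(10,0)]⟩,⟨35,[(3,11),(10,3),(0,11),(11,3),(4,10),(0,22),(18,5)]⟩⟩ ⟨false,1,⟨7,[(13,3),(18,0),
  (0,0),(0,7),(10,1),(6,3)]⟩,⟨0,[(5,0),(10,0)]⟩⟩]⟩) (.K ⟨1,[1,-1,0,-1],0,0,(⟨0,[(4,0)]⟩,⟨0,[(35,0),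
  (11,0)]⟩),(.x (-1) ⟨11,[(20,3),(1,3),(9,4),(0,4),(11,1)]⟩ ⟨0,[(47,0)]⟩),(.r (-1) ⟨0,[(8,0),(10,
  0)]⟩ ⟨9,[(9,3),(4,5),(0,3),(11,3),(5,4),(11,0),(3,3)]⟩),.k,.k,.k,[⟨5,[(14,1),(12,1),(4,0),(0,0),
  (0,5)]⟩,⟨3,[(5,1),(8,0),(2,0),(17,1),(1,1),(7,0)]⟩,⟨1,[(3,1),(9,0),(16,1),(3,1),(1,0),(1,0)]⟩,⟨2,
  [(6,2),(6,0),(4,0)]⟩]⟩)))))) (.Q [0,0,0,1,0,0,-1,-1,0,0,1,-1] (.p true [0,0,1] [0,0,0,1] (⟨0,[(39,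
  0)]⟩,⟨0,[(38,0)]⟩) .k 2 (⟨0,[(30,0)]⟩,⟨0,[(29,0)]⟩) .k (.r 0 ⟨14,[(0,9),(0,9),(1,4),(4,6),(1,2),
  (7,7),(3,4),(9,1)]⟩ ⟨3,[(27,0),(0,2),(8,3)]⟩)) (.I [1,1,-1,0,0,0,0,1,-1] (.R ⟨1,false,false,false,
  [1,0,0,-1],[0,-1,1],[1,1,0,0,0,0,0,0,-1],(⟨0,[(31,0)]⟩,⟨0,[(32,0)]⟩),(⟨0,[(17,0)]⟩,⟨1,[(7,0),(3,
  0),(19,0),(0,0)]⟩),⟨5,[(1,1),(6,0),(0,0),(9,1),(11,3)]⟩,.k,.k,(.x (-1) ⟨11,[(17,3),(1,3),(9,4),(0,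
  4),(11,1)]⟩ ⟨0,[(44,0)]⟩),(.r 0 ⟨14,[(5,0),(0,1),(4,6),(0,0),(0,6),(7,1),(7,6)]⟩ ⟨1,[(9,0),(20,
  0)]⟩),.k,.k,⟨true,(-1),⟨0,[(0,0),(10,0),(1,0)]⟩,⟨3,[(9,0),(0,0),(13,0),(5,1),(14,0),(3,0)]⟩⟩,
  ⟨false,0,⟨7,[(11,3),(17,0),(0,0),(0,7),(10,1)]⟩,⟨1,[(3,1),(5,0),(3,0),(6,0),(9,0),(2,0)]⟩⟩,⟨false,
  0,⟨0,[]⟩,⟨3,[(29,0),(0,0),(18,1)]⟩⟩,⟨false,1,⟨23,[(10,11),(0,7),(12,7),(4,0),(0,12),(0,23),(10,5),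
  (6,11)]⟩,⟨1,[(3,1),(9,0),(6,0),(12,0)]⟩⟩,⟨true,0,⟨0,[(46,0)]⟩,⟨0,[(47,0)]⟩⟩,⟨false,1,⟨7,[(10,1),
  (0,1),(6,3),(10,0),(0,4),(0,7),(10,1),(6,1)]⟩,⟨0,[(3,0),(29,0)]⟩⟩,[.e ⟨false,0,⟨0,[(0,0),(38,0)]⟩,
  ⟨1,[(30,0),(18,0)]⟩⟩ ⟨false,0,⟨0,[(1,0),(8,0)]⟩,⟨5,[(4,1),(1,1),(6,1),(16,0),(1,3),(9,1),(5,1),(0,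
  0)]⟩⟩,.o ⟨false,1,⟨7,[(10,3),(18,0),(0,0),(11,1),(6,3)]⟩,⟨1,[(13,0),(6,0),(12,0)]⟩⟩,.o ⟨false,1,
  ⟨1,[(32,1),(9,0),(5,0)]⟩,⟨3,[(1,1),(8,0),(0,0),(19,1),(2,1),(7,0)]⟩⟩,.a ⟨true,0,⟨0,[(32,0)]⟩,⟨0,
  [(31,0)]⟩⟩ ⟨false,0,⟨0,[(0,0),(24,0)]⟩,⟨5,[(11,1),(12,1),(4,0),(0,3),(18,2)]⟩⟩ ⟨true,0,⟨0,[(1,0),
  (8,0)]⟩,⟨1,[(13,0),(6,0),(11,1),(0,0)]⟩⟩]⟩) (.Q [0,1,1,-1,0,0,0,0,1,0,0,-1] (.p false [0,0,0,1]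
  [] (⟨0,[(32,0)]⟩,⟨0,[(31,0)]⟩) .k 0 (⟨0,[]⟩,⟨0,[]⟩) .k .k) (.R ⟨2,false,false,true,[0,1],[0,0,0,
  1],[1],(⟨0,[]⟩,⟨0,[]⟩),(⟨0,[(33,0)]⟩,⟨0,[(32,0)]⟩),⟨0,[]⟩,.k,.k,.k,(.r 0 ⟨32,[(2,0),(1,0),(1,13),
  (5,8),(0,12),(0,5),(10,1),(4,8),(4,0)]⟩ ⟨9,[(0,1),(4,1),(11,3),(13,4),(17,0)]⟩),.k,.k,⟨true,0,⟨7,
  [(2,5),(1,5),(1,1),(4,2),(0,0),(22,1),(7,0),(2,1)]⟩,⟨2,[(0,1),(0,0),(19,0),(6,0),(4,1)]⟩⟩,⟨false,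
  0,⟨3,[(2,1),(8,0),(0,0),(19,1),(2,1),(7,0)]⟩,⟨0,[(33,0),(15,0)]⟩⟩,⟨false,1,⟨7,[(17,3),(12,0),(0,
  0),(18,1)]⟩,⟨39,[(7,7),(4,11),(0,7),(11,7),(4,4),(0,4),(11,1),(3,7)]⟩⟩,⟨true,0,⟨0,[(0,0)]⟩,⟨2,[(4,
  1),(0,0),(1,0),(13,0)]⟩⟩,⟨false,1,⟨1,[(49,0),(0,0)]⟩,⟨5,[(12,1),(12,1),(4,0),(0,0)]⟩⟩,⟨false,1,⟨9,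
  [(0,7),(1,1),(10,1),(8,1),(7,2),(0,3),(18,2)]⟩,⟨0,[(4,0)]⟩⟩,[.e ⟨true,0,⟨0,[]⟩,⟨5,[(12,1),(12,1),
  (4,0),(0,0)]⟩⟩ ⟨true,0,⟨39,[(0,39),(6,7),(4,11),(0,7),(11,7),(4,4),(0,4),(11,1),(3,7)]⟩,⟨0,[(4,
  0)]⟩⟩,.a ⟨true,0,⟨0,[(1,0),(0,0),(8,0),(16,0)]⟩,⟨1,[(4,0),(0,0)]⟩⟩ ⟨false,1,⟨1,[(49,0),(0,0)]⟩,⟨0,
  [(52,0)]⟩⟩ ⟨true,0,⟨9,[(0,8),(0,2),(0,0),(9,0),(0,3),(16,0),(4,0),(10,0)]⟩,⟨1,[(4,0),(0,0)]⟩⟩,.o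
  ⟨false,1,⟨3,[(30,0),(0,0),(17,1)]⟩,⟨2,[(11,0),(4,0),(5,2),(12,2)]⟩⟩,.e ⟨false,1,⟨1,[(49,0),(0,
  0)]⟩,⟨5,[(12,1),(12,1),(4,0),(0,0)]⟩⟩ ⟨false,1,⟨9,[(0,7),(1,1),(10,1),(8,1),(7,2),(0,3),(18,2)]⟩,
  ⟨0,[(4,0)]⟩⟩]⟩) (.I [0,1,1,0,-1,0,0,-1,-1] (.R ⟨1,false,false,false,[1,0,0,-1],[0,-1,1],[0,1,0,-1,
  0,0,0,0,-1],(⟨0,[(33,0)]⟩,⟨0,[(34,0)]⟩),(⟨0,[(19,0)]⟩,⟨1,[(9,0),(3,0),(19,0),(0,0)]⟩),⟨5,[(3,1),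
  (6,0),(0,0),(9,1),(11,3)]⟩,.k,.k,(.x (-1) ⟨11,[(19,3),(1,3),(9,4),(0,4),(11,1)]⟩ ⟨0,[(46,0)]⟩),
  (.r 0 ⟨39,[(0,1),(7,7),(4,17),(0,1),(0,15),(7,3),(7,18),(12,0)]⟩ ⟨1,[(11,0),(20,0)]⟩),.k,.k,⟨true,
  (-1),⟨0,[(0,0)]⟩,⟨3,[(11,0),(8,1),(11,1),(18,0)]⟩⟩,⟨false,0,⟨7,[(13,3),(17,0),(0,0),(0,7),(10,
  1)]⟩,⟨1,[(1,1),(9,0),(20,0),(2,1)]⟩⟩,⟨false,0,⟨0,[(49,0)]⟩,⟨19,[(8,3),(5,3),(8,3),(7,4),(0,4),(17,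
  1),(0,7)]⟩⟩,⟨false,1,⟨23,[(12,11),(0,7),(12,7),(4,0),(0,12),(0,23),(10,5),(6,11)]⟩,⟨0,[(1,0),(33,
  0)]⟩⟩,⟨true,0,⟨0,[(53,0)]⟩,⟨0,[]⟩⟩,⟨false,1,⟨7,[(12,1),(0,1),(6,3),(10,0),(0,4),(0,7),(10,1),(6,
  1)]⟩,⟨0,[(5,0),(29,0)]⟩⟩,[.e ⟨false,0,⟨1,[(0,1),(10,0),(38,0)]⟩,⟨9,[(8,1),(5,1),(8,1),(8,4),(17,
  0),(0,3)]⟩⟩ ⟨false,0,⟨0,[(3,0),(8,0)]⟩,⟨7,[(1,3),(4,3),(8,3),(15,0),(0,4),(11,1)]⟩⟩,.o ⟨false,1,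
  ⟨7,[(12,3),(18,0),(0,0),(11,1),(6,3)]⟩,⟨1,[(15,0),(6,0),(12,0)]⟩⟩,.o ⟨false,1,⟨13,[(1,3),(4,5),
  (11,1),(13,4),(1,3),(9,6)]⟩,⟨3,[(3,1),(8,0),(0,0),(19,1),(2,1),(7,0)]⟩⟩,.a ⟨true,0,⟨0,[(34,0)]⟩,
  ⟨0,[(33,0)]⟩⟩ ⟨false,0,⟨2,[(0,1),(3,0),(0,0),(5,1),(11,0),(3,0)]⟩,⟨7,[(2,3),(11,3),(16,2),(0,
  4)]⟩⟩ ⟨true,0,⟨0,[(3,0),(8,0)]⟩,⟨1,[(15,0),(6,0),(11,1),(0,0)]⟩⟩]⟩) (.K ⟨1,[1,-1,0,-1],0,0,(⟨5,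
  [(3,1),(6,0),(0,0),(9,1),(11,3)]⟩,⟨0,[(34,0),(11,0)]⟩),(.x (-1) ⟨11,[(19,3),(1,3),(9,4),(0,4),(11,
  1)]⟩ ⟨0,[(46,0)]⟩),(.r (-1) ⟨0,[(7,0),(10,0)]⟩ ⟨9,[(8,3),(4,5),(0,3),(11,3),(5,4),(11,0),(3,3)]⟩),
  .k,.k,.k,[⟨5,[(13,1),(12,1),(4,0),(0,0),(0,5)]⟩,⟨5,[(2,1),(2,1),(7,0),(20,3),(0,0),(0,3),(0,2),(6,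
  0)]⟩,⟨1,[(3,1),(8,0),(0,0),(15,1),(2,0)]⟩,⟨2,[(5,2),(6,0),(4,0)]⟩]⟩)))) (.I [1,1,1,1,-1,0,0,-1,
  -1] (.Q [0,0,0,0,0,-1,0,0,0,1,0,-1] (.ed true [0,1,0,1] .k) (.R ⟨1,false,false,false,[1,0,0,-1],
  [1,1,-1],[1,1,0,0,0,0,0,0,-1],(⟨0,[(32,0)]⟩,⟨0,[(33,0)]⟩),(⟨1,[(8,0),(3,0),(19,0),(0,0)]⟩,⟨0,[(18,
  0)]⟩),⟨0,[(0,0)]⟩,.k,.k,(.x (-1) ⟨11,[(18,3),(1,3),(9,4),(0,4),(11,1)]⟩ ⟨0,[(45,0)]⟩),(.x 0 ⟨1,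
  [(9,0),(39,0)]⟩ ⟨11,[(8,5),(3,3),(12,3),(4,4),(0,4)]⟩),(.r (-1) ⟨3,[(1,1),(8,2),(6,1),(12,0)]⟩
  ⟨23,[(7,23),(4,19),(12,7),(4,0),(0,12),(11,5)]⟩),.k,⟨true,0,⟨0,[(1,0),(8,0)]⟩,⟨19,[(12,14),(0,3),
  (0,11),(10,2),(5,9),(14,2),(3,4)]⟩⟩,⟨false,1,⟨7,[(3,3),(3,3),(2,3),(19,0),(0,0),(0,3),(10,1)]⟩,⟨1,
  [(2,0),(19,0),(10,0),(6,0)]⟩⟩,⟨false,0,⟨0,[]⟩,⟨3,[(30,0),(0,0),(18,1)]⟩⟩,⟨false,1,⟨95,[(3,95),(3,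
  23),(4,27),(0,23),(11,15),(4,16),(0,64),(11,5),(6,35)]⟩,⟨1,[(4,1),(6,0),(22,0),(1,0)]⟩⟩,⟨true,0,
  ⟨0,[(47,0)]⟩,⟨0,[(48,0)]⟩⟩,⟨false,1,⟨15,[(3,15),(3,7),(4,3),(0,7),(16,2),(0,10),(11,1),(6,3)]⟩,⟨0,
  [(4,0),(6,0),(22,0)]⟩⟩,[.a ⟨true,0,⟨4,[(7,2),(8,0),(15,0),(0,0)]⟩,⟨1,[(11,0),(20,0),(0,0)]⟩⟩
  ⟨false,0,⟨1,[(1,1),(8,0),(38,0)]⟩,⟨1,[(31,0),(18,0)]⟩⟩ ⟨true,0,⟨39,[(3,39),(3,7),(4,11),(0,7),(11,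
  7),(4,4),(0,4),(11,1),(3,7)]⟩,⟨0,[(2,0)]⟩⟩,.o ⟨false,1,⟨11,[(7,3),(6,3),(15,0),(0,0),(11,3),(6,
  5)]⟩,⟨1,[(11,0),(22,0),(1,0)]⟩⟩,.o ⟨false,1,⟨1,[(33,1),(9,0),(5,0)]⟩,⟨19,[(3,9),(7,2),(0,4),(0,1),
  (7,1),(10,9),(2,7),(7,4)]⟩⟩,.e ⟨false,0,⟨1,[(1,0),(1,0),(0,0),(5,0),(11,0)]⟩,⟨5,[(12,1),(12,1),(4,
  0),(0,3),(18,2)]⟩⟩ ⟨false,1,⟨7,[(3,3),(3,3),(22,0),(0,0),(0,3),(10,1),(6,3)]⟩,⟨0,[(2,0)]⟩⟩]⟩) (.R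
  ⟨0,false,false,false,[1,0,0,-1],[1,1,-1],[0,1,0,0,0,0,0,0,-1],(⟨0,[(32,0)]⟩,⟨0,[(33,0)]⟩),(⟨1,[(8,
  0),(3,0),(19,0),(0,0)]⟩,⟨0,[(18,0)]⟩),⟨0,[(0,0)]⟩,.k,.k,(.x (-1) ⟨11,[(18,3),(1,3),(9,4),(0,4),
  (11,1)]⟩ ⟨0,[(45,0)]⟩),(.x 0 ⟨1,[(9,0),(39,0)]⟩ ⟨11,[(8,5),(3,3),(12,3),(4,4),(0,4)]⟩),.k,.k,
  ⟨true,0,⟨1,[(0,3),(2,5),(0,1),(4,0),(0,0),(0,1),(8,1),(0,1),(6,1),(16,1)]⟩,⟨19,[(12,14),(0,3),(0,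
  11),(10,2),(5,9),(14,2),(3,4)]⟩⟩,⟨false,1,⟨7,[(3,3),(3,3),(2,3),(19,0),(0,0),(0,3),(10,1)]⟩,⟨33,
  [(0,17),(4,1),(3,2),(7,1),(2,5),(1,3),(6,11),(1,0),(1,13)]⟩⟩,⟨true,0,⟨0,[(52,0)]⟩,⟨0,[]⟩⟩,⟨false,
  1,⟨95,[(3,95),(3,23),(4,27),(0,23),(11,15),(4,16),(0,64),(11,5),(6,35)]⟩,⟨19,[(0,5),(0,7),(0,1),
  (1,11),(4,0),(0,4),(0,3),(5,3),(2,1),(15,7)]⟩⟩,⟨false,0,⟨0,[]⟩,⟨0,[]⟩⟩,⟨false,0,⟨0,[]⟩,⟨0,[]⟩⟩,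
  [.a ⟨true,0,⟨4,[(7,2),(8,0),(15,0),(0,0)]⟩,⟨1,[(11,0),(20,0),(0,0)]⟩⟩ ⟨false,0,⟨1,[(1,1),(8,0),
  (38,0)]⟩,⟨1,[(31,0),(18,0)]⟩⟩ ⟨true,0,⟨39,[(3,39),(3,7),(4,11),(0,7),(11,7),(4,4),(0,4),(11,1),(3,
  7)]⟩,⟨0,[(2,0)]⟩⟩,.o ⟨false,1,⟨11,[(7,3),(6,3),(15,0),(0,0),(11,3),(6,5)]⟩,⟨1,[(11,0),(22,0),(1,
  0)]⟩⟩,.o ⟨false,1,⟨1,[(33,1),(9,0),(5,0)]⟩,⟨19,[(3,9),(7,2),(0,4),(0,1),(7,1),(10,9),(2,7),(7,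
  4)]⟩⟩,.e ⟨false,0,⟨1,[(1,0),(1,0),(0,0),(5,0),(11,0)]⟩,⟨5,[(12,1),(12,1),(4,0),(0,3),(18,2)]⟩⟩
  ⟨false,1,⟨7,[(3,3),(3,3),(22,0),(0,0),(0,3),(10,1),(6,3)]⟩,⟨0,[(2,0)]⟩⟩]⟩)) (.Q [0,1,1,-1,0,0,0,0,
  1,0,0,-1] (.p false [0,0,0,1] [] (⟨0,[(32,0)]⟩,⟨0,[(31,0)]⟩) .k 0 (⟨0,[]⟩,⟨0,[]⟩) .k .k) (.R ⟨2,
  false,false,true,[0,1],[0,0,0,1],[1],(⟨0,[]⟩,⟨0,[]⟩),(⟨0,[(33,0)]⟩,⟨0,[(32,0)]⟩),⟨0,[]⟩,.k,.k,.k,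
  (.r 0 ⟨36,[(3,0),(0,0),(1,15),(5,9),(0,14),(0,6),(10,1),(4,9),(4,0)]⟩ ⟨9,[(0,1),(4,1),(11,3),(13,
  4),(17,0)]⟩),.k,.k,⟨true,0,⟨22,[(3,17),(0,17),(1,4),(4,5),(0,3),(0,5),(21,1),(7,3),(2,1)]⟩,⟨8,[(0,
  3),(0,0),(0,3),(9,2),(1,2),(6,0),(6,4),(2,1)]⟩⟩,⟨false,0,⟨19,[(3,9),(7,2),(0,4),(0,1),(7,1),(10,
  9),(2,7),(7,4)]⟩,⟨0,[(33,0),(15,0)]⟩⟩,⟨false,1,⟨7,[(17,3),(12,0),(0,0),(18,1)]⟩,⟨39,[(7,7),(4,11),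
  (0,7),(11,7),(4,4),(0,4),(11,1),(3,7)]⟩⟩,⟨true,0,⟨0,[(0,0)]⟩,⟨2,[(4,1),(0,0),(1,0),(13,0)]⟩⟩,
  ⟨false,1,⟨1,[(49,0),(0,0)]⟩,⟨5,[(12,1),(12,1),(4,0),(0,0)]⟩⟩,⟨false,1,⟨11,[(0,9),(6,1),(5,1),(8,
  1),(7,2),(0,3),(0,1),(10,0),(6,3)]⟩,⟨0,[(4,0)]⟩⟩,[.e ⟨true,0,⟨0,[]⟩,⟨5,[(12,1),(12,1),(4,0),(0,
  0)]⟩⟩ ⟨true,0,⟨39,[(0,39),(6,7),(4,11),(0,7),(11,7),(4,4),(0,4),(11,1),(3,7)]⟩,⟨0,[(4,0)]⟩⟩,.a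
  ⟨true,0,⟨0,[(1,0),(1,0),(8,0),(15,0)]⟩,⟨1,[(4,0),(0,0)]⟩⟩ ⟨false,1,⟨1,[(49,0),(0,0)]⟩,⟨0,[(52,
  0)]⟩⟩ ⟨true,0,⟨19,[(0,19),(11,4),(0,7),(0,3),(10,0),(20,0),(3,4)]⟩,⟨1,[(4,0),(0,0)]⟩⟩,.o ⟨false,1,
  ⟨3,[(30,0),(0,0),(17,1)]⟩,⟨2,[(11,0),(4,0),(5,2),(12,2)]⟩⟩,.e ⟨false,1,⟨1,[(49,0),(0,0)]⟩,⟨5,[(12,
  1),(12,1),(4,0),(0,0)]⟩⟩ ⟨false,1,⟨11,[(0,9),(6,1),(5,1),(8,1),(7,2),(0,3),(0,1),(10,0),(6,3)]⟩,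
  ⟨0,[(4,0)]⟩⟩]⟩) (.Q [0,0,-3,0,1,0,0,0,0,0,0,1] (.p true [0,0,0,1] [] (⟨0,[(33,0)]⟩,⟨0,[(32,0)]⟩)
  .k 0 (⟨0,[]⟩,⟨0,[]⟩) .k .k) (.Q [0,-1,-2,-1,0,0,0,0,-2,-1,0,2] (.p true [0,0,0,1] [1,0,0,-1] (⟨0,
  [(34,0)]⟩,⟨0,[(33,0)]⟩) .k 2 (⟨0,[(33,0)]⟩,⟨0,[(34,0)]⟩) .k (.r (-1) ⟨0,[(32,0)]⟩ ⟨7,[(1,5),(2,5),
  (2,9),(4,2),(0,0),(22,1),(7,0),(2,1)]⟩)) (.K ⟨0,[1,1,0,-1],1,0,(⟨0,[(34,0),(12,0)]⟩,⟨2,[(1,0),(9,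
  0),(14,0),(8,1)]⟩),(.r 0 ⟨72,[(0,0),(4,1),(2,30),(5,19),(0,29),(0,13),(10,4),(4,19)]⟩ ⟨1,[(19,0),
  (13,0),(20,0)]⟩),.k,(.r 1 ⟨0,[(2,0),(2,0),(8,0),(8,0),(3,0)]⟩ ⟨3,[(19,3),(12,0),(0,2),(20,3)]⟩),
  .k,.k,[⟨0,[(14,0),(12,0),(6,0)]⟩,⟨0,[(1,0)]⟩,⟨5,[(5,5),(7,4),(0,2),(3,1),(11,5),(2,2)]⟩,⟨3,[(0,1),
  (8,0),(13,2),(12,1),(12,0)]⟩]⟩) (.K ⟨0,[1,1,0,-1],1,0,(⟨0,[(34,0),(12,0)]⟩,⟨2,[(1,0),(9,0),(14,0),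
  (8,1)]⟩),(.r 0 ⟨32,[(2,0),(2,0),(2,13),(5,8),(0,12),(0,5),(10,1),(4,8),(4,0)]⟩ ⟨1,[(19,0),(13,0),
  (20,0)]⟩),.k,(.r 1 ⟨0,[(2,0),(2,0),(8,0),(8,0),(3,0)]⟩ ⟨3,[(19,3),(12,0),(0,2),(20,3)]⟩),.k,.k,
  [⟨0,[(14,0),(12,0),(6,0)]⟩,⟨0,[(1,0)]⟩,⟨11,[(0,5),(12,6),(4,3),(15,2),(0,2),(3,5)]⟩,⟨0,[(2,0),(33,
  0),(1,0)]⟩]⟩)) (.K ⟨1,[1,1,0,-1],1,0,(⟨0,[(33,0),(12,0)]⟩,⟨11,[(1,1),(1,7),(6,0),(4,3),(3,1),(1,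
  3),(7,1),(2,0),(1,1)]⟩),(.r 0 ⟨139,[(0,41),(0,9),(4,31),(1,33),(4,13),(0,27),(7,5),(8,48),(12,
  6)]⟩ ⟨1,[(18,0),(13,0),(20,0)]⟩),.k,(.r 1 ⟨6,[(0,6),(0,4),(4,1),(1,2),(13,2)]⟩ ⟨3,[(18,3),(12,0),
  (0,2),(20,3)]⟩),.k,.k,[⟨0,[(13,0),(12,0),(6,0)]⟩,⟨13,[(1,3),(4,5),(11,1),(13,4),(1,3),(9,6)]⟩,⟨5,
  [(4,5),(7,4),(0,2),(3,1),(11,5),(2,2)]⟩,⟨0,[(1,0)]⟩]⟩))))))) (.I [0,1,0,-1,0,0,0,0,1] (.Q [0,0,0,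
  0,0,-1,0,0,0,0,0,1] (.ed false [1,-1,0,1] .k) (.R ⟨1,false,false,false,[0,0,0,1],[0,-1,1],[0,1,0,
  -1,0,0,0,0,1],(⟨0,[(30,0)]⟩,⟨0,[(29,0)]⟩),(⟨0,[(15,0)]⟩,⟨1,[(5,0),(3,0),(19,0),(0,0)]⟩),⟨0,[(0,
  0)]⟩,.k,.k,(.r (-1) ⟨11,[(1,3),(12,3),(12,0),(0,4),(17,1)]⟩ ⟨19,[(3,9),(5,4),(0,7),(0,3),(10,0),
  (4,4),(15,0)]⟩),(.r 0 ⟨12,[(1,0),(2,1),(4,5),(0,0),(0,5),(7,1),(8,5)]⟩ ⟨1,[(7,0),(19,0)]⟩),.k,.k,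
  ⟨false,0,⟨2,[(1,2),(2,0),(14,0),(17,1)]⟩,⟨0,[(3,0),(6,0),(3,0)]⟩⟩,⟨true,0,⟨2,[(8,0),(4,0),(5,2),
  (10,2)]⟩,⟨0,[(29,0),(2,0)]⟩⟩,⟨false,0,⟨0,[(45,0)]⟩,⟨19,[(4,3),(5,3),(8,3),(7,4),(0,4),(17,1),(0,
  7)]⟩⟩,⟨false,1,⟨23,[(3,17),(3,9),(0,1),(5,9),(4,19),(7,2),(2,23),(9,0),(2,15)]⟩,⟨2,[(2,2),(1,0),
  (29,1),(9,0)]⟩⟩,⟨true,0,⟨0,[(49,0)]⟩,⟨0,[]⟩⟩,⟨false,1,⟨9,[(3,7),(3,2),(2,3),(3,5),(4,9),(7,0),(2,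
  9),(12,3)]⟩,⟨0,[(2,0),(31,0)]⟩⟩,[.a ⟨true,0,⟨1,[(8,0),(20,0),(0,0)]⟩,⟨4,[(4,2),(8,0),(15,0),(0,
  0)]⟩⟩ ⟨true,0,⟨0,[(1,0)]⟩,⟨1,[(3,1),(6,0),(12,0),(19,0)]⟩⟩ ⟨false,1,⟨3,[(7,0),(6,1),(4,1),(10,3),
  (2,1),(12,0)]⟩,⟨9,[(2,1),(1,3),(4,1),(1,1),(15,0),(1,7),(1,1),(0,3),(7,0)]⟩⟩,.o ⟨false,1,⟨7,[(8,
  3),(18,0),(0,0),(11,1),(6,3)]⟩,⟨1,[(11,0),(6,0),(12,0)]⟩⟩,.o ⟨false,0,⟨0,[(2,0),(0,0)]⟩,⟨1,[(30,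
  1),(9,0),(5,0)]⟩⟩,.o ⟨false,0,⟨3,[(2,1),(6,1),(12,1),(4,0),(1,1),(10,0),(8,1)]⟩,⟨0,[(7,0),(4,0),
  (6,1),(10,0)]⟩⟩]⟩) (.I [0,0,0,0,0,0,0,0,1] (.R ⟨0,false,false,true,[0,0,0,1],[0,1],[0,1,0,0,0,0,0,
  0,1],(⟨0,[(31,0)]⟩,⟨0,[(30,0)]⟩),(⟨0,[(43,0)]⟩,⟨0,[(42,0)]⟩),⟨0,[(1,0)]⟩,.k,.k,(.r (-1) ⟨11,[(2,
  3),(12,3),(12,0),(0,4),(17,1)]⟩ ⟨19,[(4,9),(5,4),(0,7),(0,3),(10,0),(4,4),(15,0)]⟩),(.r (-1) ⟨11,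
  [(2,3),(12,3),(12,0),(0,4),(17,1)]⟩ ⟨19,[(4,9),(5,4),(0,7),(0,3),(10,0),(4,4),(15,0)]⟩),.k,.k,
  ⟨false,1,⟨2,[(0,1),(1,0),(12,0),(31,1)]⟩,⟨19,[(4,9),(5,4),(0,7),(0,3),(10,0),(4,4),(15,0)]⟩⟩,
  ⟨true,1,⟨0,[(31,0),(15,0)]⟩,⟨2,[(1,2),(5,0),(2,1),(11,0),(0,1)]⟩⟩,⟨true,0,⟨0,[(50,0)]⟩,⟨0,[]⟩⟩,
  ⟨false,1,⟨4,[(4,0),(0,0),(5,0),(8,0),(7,1),(2,4),(15,2)]⟩,⟨2,[(3,2),(5,0),(4,0)]⟩⟩,⟨false,0,⟨0,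
  []⟩,⟨0,[]⟩⟩,⟨false,0,⟨0,[]⟩,⟨0,[]⟩⟩,[.o ⟨false,0,⟨0,[(45,0)]⟩,⟨5,[(9,1),(4,1),(26,2),(6,2)]⟩⟩,.a
  ⟨true,0,⟨1,[(5,1),(3,0),(20,0),(0,0)]⟩,⟨0,[(46,0)]⟩⟩ ⟨true,0,⟨0,[(0,0)]⟩,⟨3,[(4,1),(5,0),(12,0),
  (4,0),(15,0)]⟩⟩ ⟨false,1,⟨3,[(5,1),(2,0),(11,1),(10,3),(15,2)]⟩,⟨3,[(1,2),(0,0),(0,0),(3,0),(1,0),
  (4,0),(7,0),(5,0)]⟩⟩,.o ⟨false,0,⟨10,[(1,2),(5,0),(2,1),(11,0),(7,7),(2,3),(7,2)]⟩,⟨1,[(31,1),(9,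
  0),(5,0)]⟩⟩,.o ⟨false,0,⟨3,[(3,1),(6,1),(12,1),(4,0),(1,1),(10,0),(8,1)]⟩,⟨0,[(8,0),(4,0),(6,1),
  (10,0)]⟩⟩]⟩) (.R ⟨1,false,false,true,[1,0,0,-1],[0,1],[1,1,0,0,0,0,0,0,-1],(⟨0,[(30,0)]⟩,⟨0,[(31,
  0)]⟩),(⟨0,[(43,0)]⟩,⟨0,[(42,0)]⟩),⟨1,[(1,0),(14,0),(1,0),(11,0)]⟩,.k,.k,(.x (-1) ⟨11,[(16,3),(1,
  3),(9,4),(0,4),(11,1)]⟩ ⟨0,[(43,0)]⟩),(.x (-1) ⟨11,[(16,3),(1,3),(9,4),(0,4),(11,1)]⟩ ⟨0,[(43,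
  0)]⟩),(.r (-1) ⟨0,[(4,0),(10,0)]⟩ ⟨9,[(5,3),(4,5),(0,3),(11,3),(5,4),(11,0),(3,3)]⟩),.k,⟨false,1,
  ⟨1,[(0,0),(3,0),(10,0),(31,0)]⟩,⟨12,[(2,6),(2,0),(4,2),(0,6),(0,2),(7,0),(8,2)]⟩⟩,⟨true,0,⟨0,[(30,
  0)]⟩,⟨2,[(9,0),(4,0),(5,2),(10,2),(1,2)]⟩⟩,⟨false,0,⟨0,[]⟩,⟨3,[(28,0),(0,0),(18,1)]⟩⟩,⟨false,0,⟨3,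
  [(2,0),(0,0),(1,0),(4,0),(0,0),(14,0),(2,0),(0,2)]⟩,⟨1,[(0,1),(7,0),(15,1),(6,1),(9,0)]⟩⟩,⟨true,0,
  ⟨0,[(45,0)]⟩,⟨0,[(46,0)]⟩⟩,⟨false,0,⟨0,[(3,0),(17,0),(4,0)]⟩,⟨5,[(0,5),(7,2),(0,1),(4,1),(9,5),(6,
  5),(9,2)]⟩⟩,[.o ⟨false,0,⟨0,[(45,0)]⟩,⟨5,[(9,1),(4,1),(26,2),(6,2)]⟩⟩,.a ⟨true,0,⟨1,[(5,1),(3,0),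
  (20,0),(0,0)]⟩,⟨0,[(46,0)]⟩⟩ ⟨true,0,⟨0,[(0,0)]⟩,⟨15,[(2,4),(0,2),(6,3),(0,1),(0,0),(10,2),(5,3),
  (1,2)]⟩⟩ ⟨false,0,⟨9,[(1,5),(3,9),(1,0),(0,0),(0,3),(8,1),(11,3)]⟩,⟨1,[(15,0),(15,1),(9,0),(8,
  0)]⟩⟩,.o ⟨false,1,⟨1,[(31,1),(9,0),(5,0)]⟩,⟨10,[(1,2),(5,0),(2,1),(11,0),(7,7),(2,3),(7,2)]⟩⟩,.e
  ⟨false,1,⟨1,[(28,0),(18,0)]⟩,⟨0,[(3,0),(27,0)]⟩⟩ ⟨false,0,⟨9,[(1,5),(3,9),(1,0),(0,0),(0,3),(8,1),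
  (11,3)]⟩,⟨5,[(9,1),(4,1),(16,5),(9,2),(6,2)]⟩⟩]⟩))) (.Q [0,0,0,1,0,0,0,0,0,1,0,-1] (.p false [0,0,
  0,1] [1] (⟨0,[(29,0)]⟩,⟨0,[(28,0)]⟩) .k 1 (⟨0,[]⟩,⟨0,[]⟩) .k .k) (.Q [0,0,0,0,0,-1,0,0,0,1,0,-1]
  (.ed true [0,1,0,1] .k) (.R ⟨1,false,false,true,[1,0,0,-1],[0,1],[1,0,0,0,0,0,0,0,-1],(⟨0,[(30,
  0)]⟩,⟨0,[(31,0)]⟩),(⟨0,[(43,0)]⟩,⟨0,[(42,0)]⟩),⟨0,[(0,0)]⟩,.k,.k,(.x (-1) ⟨11,[(16,3),(1,3),(9,4),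
  (0,4),(11,1)]⟩ ⟨0,[(43,0)]⟩),(.x (-1) ⟨11,[(16,3),(1,3),(9,4),(0,4),(11,1)]⟩ ⟨0,[(43,0)]⟩),(.r
  (-1) ⟨0,[(4,0),(10,0)]⟩ ⟨9,[(5,3),(4,5),(0,3),(11,3),(5,4),(11,0),(3,3)]⟩),.k,⟨false,1,⟨4,[(2,2),
  (1,1),(10,3),(31,0)]⟩,⟨2,[(3,0),(6,0),(8,0),(6,1),(2,0),(1,0),(0,0)]⟩⟩,⟨true,0,⟨0,[(30,0)]⟩,⟨2,
  [(9,0),(4,0),(5,2),(10,2),(1,2)]⟩⟩,⟨true,0,⟨0,[]⟩,⟨0,[(50,0)]⟩⟩,⟨false,0,⟨3,[(1,1),(1,1),(6,0),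
  (15,1),(2,0),(0,0),(0,0)]⟩,⟨3,[(2,2),(1,0),(4,0),(4,0),(0,1),(15,3),(9,1)]⟩⟩,⟨false,1,⟨19,[(5,3),
  (5,3),(8,3),(7,4),(0,4),(17,1),(0,7)]⟩,⟨0,[(46,0)]⟩⟩,⟨false,0,⟨0,[(3,0),(17,0),(4,0)]⟩,⟨11,[(2,8),
  (1,2),(4,6),(4,6),(0,5),(15,11),(9,5)]⟩⟩,[.o ⟨false,0,⟨0,[(45,0)]⟩,⟨5,[(9,1),(4,1),(26,2),(6,
  2)]⟩⟩,.a ⟨true,0,⟨0,[(1,0),(29,0)]⟩,⟨0,[(46,0)]⟩⟩ ⟨true,0,⟨2,[(2,2),(6,0),(4,0)]⟩,⟨2,[(3,0),(5,0),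
  (0,0),(15,1),(2,0),(1,0),(0,1)]⟩⟩ ⟨false,0,⟨0,[(1,0)]⟩,⟨1,[(15,0),(15,1),(9,0),(8,0)]⟩⟩,.o ⟨false,
  1,⟨1,[(31,1),(9,0),(5,0)]⟩,⟨0,[(3,0),(0,0)]⟩⟩,.e ⟨false,1,⟨9,[(2,3),(12,1),(12,2),(18,2),(0,1)]⟩,
  ⟨5,[(3,3),(5,0),(0,0),(15,1),(2,0),(1,3),(0,1)]⟩⟩ ⟨false,0,⟨0,[(1,0)]⟩,⟨5,[(9,1),(4,1),(16,5),(9,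
  2),(6,2)]⟩⟩]⟩) (.R ⟨0,false,false,true,[1,0,0,-1],[0,1],[1,0,0,0,0,0,0,0,-1],(⟨0,[(30,0)]⟩,⟨0,
  [(31,0)]⟩),(⟨0,[(43,0)]⟩,⟨0,[(42,0)]⟩),⟨0,[(0,0)]⟩,.k,.k,(.x (-1) ⟨11,[(16,3),(1,3),(9,4),(0,4),
  (11,1)]⟩ ⟨0,[(43,0)]⟩),(.x (-1) ⟨11,[(16,3),(1,3),(9,4),(0,4),(11,1)]⟩ ⟨0,[(43,0)]⟩),.k,.k,⟨false,
  1,⟨4,[(2,2),(1,1),(10,3),(31,0)]⟩,⟨27,[(0,5),(2,5),(3,0),(2,9),(7,1),(0,5),(6,21),(2,10),(2,5)]⟩⟩,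
  ⟨true,0,⟨0,[(30,0)]⟩,⟨10,[(0,2),(6,0),(2,1),(11,0),(8,7),(1,3),(7,2)]⟩⟩,⟨true,0,⟨0,[]⟩,⟨0,[(50,
  0)]⟩⟩,⟨false,0,⟨3,[(1,1),(1,1),(6,0),(15,1),(2,0),(0,0),(0,0)]⟩,⟨8,[(0,8),(1,2),(4,0),(7,5),(0,0),
  (1,2),(4,0),(4,2),(12,0)]⟩⟩,⟨false,0,⟨0,[]⟩,⟨0,[]⟩⟩,⟨false,0,⟨0,[]⟩,⟨0,[]⟩⟩,[.o ⟨false,0,⟨0,[(45,
  0)]⟩,⟨5,[(9,1),(4,1),(26,2),(6,2)]⟩⟩,.a ⟨true,0,⟨0,[(1,0),(29,0)]⟩,⟨0,[(46,0)]⟩⟩ ⟨true,0,⟨2,[(2,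
  2),(6,0),(4,0)]⟩,⟨83,[(0,17),(2,17),(3,2),(1,27),(0,29),(3,9),(3,5),(7,65),(2,32),(2,35)]⟩⟩
  ⟨false,0,⟨0,[(1,0)]⟩,⟨1,[(15,0),(15,1),(9,0),(8,0)]⟩⟩,.o ⟨false,1,⟨1,[(31,1),(9,0),(5,0)]⟩,⟨0,[(3,
  0),(0,0)]⟩⟩,.e ⟨false,1,⟨9,[(2,3),(12,1),(12,2),(18,2),(0,1)]⟩,⟨59,[(0,17),(2,29),(3,2),(1,9),(0,
  11),(3,9),(3,5),(7,29),(2,14),(1,11)]⟩⟩ ⟨false,0,⟨0,[(1,0)]⟩,⟨5,[(9,1),(4,1),(16,5),(9,2),(6,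
  2)]⟩⟩]⟩)) (.Q [0,0,0,0,0,-1,0,0,0,1,0,-1] (.ed true [0,1,0,1] .k) (.R ⟨1,false,false,true,[1,0,0,
  -1],[0,1],[0,1,0,-1,0,0,0,0,-1],(⟨0,[(30,0)]⟩,⟨0,[(31,0)]⟩),(⟨0,[(43,0)]⟩,⟨0,[(42,0)]⟩),⟨0,[(0,
  0)]⟩,.k,.k,(.x (-1) ⟨11,[(16,3),(1,3),(9,4),(0,4),(11,1)]⟩ ⟨0,[(43,0)]⟩),(.x (-1) ⟨11,[(16,3),(1,
  3),(9,4),(0,4),(11,1)]⟩ ⟨0,[(43,0)]⟩),(.r (-1) ⟨0,[(4,0),(10,0)]⟩ ⟨9,[(5,3),(4,5),(0,3),(11,3),(5,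
  4),(11,0),(3,3)]⟩),.k,⟨false,1,⟨0,[(4,0),(10,0)]⟩,⟨10,[(1,0),(1,8),(1,6),(4,0),(8,6),(6,1),(2,0),
  (1,7)]⟩⟩,⟨true,0,⟨0,[(30,0)]⟩,⟨15,[(1,4),(3,0),(4,3),(0,0),(19,10),(1,6),(7,3),(3,0)]⟩⟩,⟨false,0,
  ⟨0,[(46,0)]⟩,⟨19,[(5,3),(5,3),(8,3),(7,4),(0,4),(17,1),(0,7)]⟩⟩,⟨false,0,⟨5,[(3,3),(6,0),(10,1),
  (4,3),(2,0),(0,2),(0,0)]⟩,⟨9,[(1,9),(0,3),(12,1),(12,2),(18,2),(0,1)]⟩⟩,⟨true,0,⟨0,[(50,0)]⟩,⟨0,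
  []⟩⟩,⟨false,0,⟨0,[(3,0),(17,0),(4,0)]⟩,⟨6,[(1,6),(0,0),(12,3),(12,2),(15,0)]⟩⟩,[.o ⟨false,0,⟨0,
  [(45,0)]⟩,⟨5,[(9,1),(4,1),(26,2),(6,2)]⟩⟩,.e ⟨true,0,⟨1,[(2,0),(1,0),(4,0),(4,0)]⟩,⟨10,[(1,1),(1,
  6),(1,2),(4,1),(8,2),(6,3),(2,1),(1,4)]⟩⟩ ⟨true,0,⟨13,[(3,3),(1,1),(4,3),(0,1),(14,5),(1,2),(0,0),
  (0,9)]⟩,⟨0,[(1,0)]⟩⟩,.o ⟨false,1,⟨1,[(31,1),(9,0),(5,0)]⟩,⟨0,[(3,0),(0,0)]⟩⟩,.a ⟨true,0,⟨0,[(31,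
  0)]⟩,⟨0,[(30,0)]⟩⟩ ⟨false,1,⟨1,[(15,0),(12,0),(21,0)]⟩,⟨0,[(1,0),(1,0),(1,1),(3,0)]⟩⟩ ⟨true,0,⟨0,
  [(30,0),(14,0)]⟩,⟨0,[(1,0)]⟩⟩]⟩) (.R ⟨0,false,false,true,[1,0,0,-1],[0,1],[1,0,0,0,0,0,0,0,-1],
  (⟨0,[(30,0)]⟩,⟨0,[(31,0)]⟩),(⟨0,[(43,0)]⟩,⟨0,[(42,0)]⟩),⟨0,[(0,0)]⟩,.k,.k,(.x (-1) ⟨11,[(16,3),(1,
  3),(9,4),(0,4),(11,1)]⟩ ⟨0,[(43,0)]⟩),(.x (-1) ⟨11,[(16,3),(1,3),(9,4),(0,4),(11,1)]⟩ ⟨0,[(43,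
  0)]⟩),.k,.k,⟨false,1,⟨4,[(2,2),(1,1),(10,3),(31,0)]⟩,⟨27,[(0,5),(2,5),(3,0),(2,9),(7,1),(0,5),(6,
  21),(2,10),(2,5)]⟩⟩,⟨true,0,⟨0,[(30,0)]⟩,⟨10,[(0,2),(6,0),(2,1),(11,0),(8,7),(1,3),(7,2)]⟩⟩,⟨true,
  0,⟨0,[]⟩,⟨0,[(50,0)]⟩⟩,⟨false,0,⟨5,[(3,3),(6,0),(10,1),(4,3),(2,0),(0,2),(0,0)]⟩,⟨9,[(1,9),(0,3),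
  (12,1),(12,2),(18,2),(0,1)]⟩⟩,⟨false,0,⟨0,[]⟩,⟨0,[]⟩⟩,⟨false,0,⟨0,[]⟩,⟨0,[]⟩⟩,[.o ⟨false,0,⟨0,
  [(45,0)]⟩,⟨5,[(9,1),(4,1),(26,2),(6,2)]⟩⟩,.e ⟨true,0,⟨2,[(2,2),(6,0),(4,0)]⟩,⟨7,[(1,1),(1,1),(5,
  1),(0,2),(15,5),(2,2),(2,2),(2,0)]⟩⟩ ⟨true,0,⟨13,[(3,3),(1,1),(4,3),(0,1),(14,5),(1,2),(0,0),(0,
  9)]⟩,⟨0,[(1,0)]⟩⟩,.o ⟨false,1,⟨1,[(31,1),(9,0),(5,0)]⟩,⟨0,[(3,0),(0,0)]⟩⟩,.a ⟨true,0,⟨0,[(31,0)]⟩,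
  ⟨0,[(30,0)]⟩⟩ ⟨false,1,⟨9,[(2,3),(12,1),(12,2),(18,2),(0,1)]⟩,⟨11,[(1,2),(1,5),(5,0),(0,2),(3,0),
  (11,5),(2,2),(1,2)]⟩⟩ ⟨true,0,⟨0,[(30,0),(14,0)]⟩,⟨0,[(1,0)]⟩⟩]⟩))))))))))

theorem ok77 : chk (cU (-1) true 10) t77 l49 = true := by decide +kernel

noncomputable def t96 : Tre :=
  (.Q [0,1,1,-1,0,0,0,0,1,0,0,-1] (.p false [0,0,0,1] [] (⟨0,[(31,0)]⟩,⟨0,[(30,0)]⟩) .k 0 (⟨0,[]⟩,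
  ⟨0,[]⟩) .k .k) (.R ⟨2,false,false,true,[0,1],[0,0,0,1],[1],(⟨0,[]⟩,⟨0,[]⟩),(⟨0,[(32,0)]⟩,⟨0,[(31,
  0)]⟩),⟨0,[]⟩,.k,.k,.k,(.r 0 ⟨1,[(8,1),(3,0),(23,0),(0,0)]⟩ ⟨9,[(0,1),(5,1),(9,3),(13,4),(17,0)]⟩),
  .k,.k,⟨true,0,⟨1,[(3,0),(1,0),(2,0),(26,0),(9,0)]⟩,⟨0,[(7,0)]⟩⟩,⟨false,0,⟨5,[(0,2),(2,2),(4,2),(3,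
  0),(8,0),(13,1),(9,1)]⟩,⟨1,[(5,0),(0,0),(23,0),(17,0)]⟩⟩,⟨false,1,⟨7,[(16,3),(12,0),(0,0),(18,
  1)]⟩,⟨1,[(12,0),(23,0),(0,0)]⟩⟩,⟨true,0,⟨0,[(0,0)]⟩,⟨11,[(5,8),(0,2),(2,1),(10,3),(1,1),(4,1)]⟩⟩,
  ⟨false,1,⟨1,[(48,0),(0,0)]⟩,⟨1,[(37,0),(0,0)]⟩⟩,⟨false,1,⟨3,[(1,3),(27,0),(0,0),(11,1)]⟩,⟨0,[(5,
  0)]⟩⟩,[.e ⟨true,0,⟨0,[]⟩,⟨1,[(37,0),(0,0)]⟩⟩ ⟨true,0,⟨1,[(0,0),(0,0),(32,0),(2,0),(8,0)]⟩,⟨0,[(5,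
  0)]⟩⟩,.a ⟨true,0,⟨0,[(1,0)]⟩,⟨1,[(5,0),(0,0)]⟩⟩ ⟨false,1,⟨1,[(48,0),(0,0)]⟩,⟨0,[(51,0)]⟩⟩ ⟨true,0,
  ⟨7,[(0,5),(0,1),(7,0),(2,1),(21,0),(2,2),(7,1)]⟩,⟨1,[(5,0),(0,0)]⟩⟩,.o ⟨false,1,⟨3,[(29,0),(0,0),
  (17,1)]⟩,⟨0,[(21,0),(12,0),(12,0)]⟩⟩,.e ⟨false,1,⟨1,[(48,0),(0,0)]⟩,⟨1,[(37,0),(0,0)]⟩⟩ ⟨false,1,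
  ⟨3,[(1,3),(27,0),(0,0),(11,1)]⟩,⟨0,[(5,0)]⟩⟩]⟩) (.I [0,1,1,0,-1,0,0,-1,-1] (.Q [0,0,0,1,0,0,-1,-1,
  0,-1,1,1] (.p true [0,0,1] [1,0,0,-1] (⟨0,[(42,0)]⟩,⟨0,[(41,0)]⟩) .k 2 (⟨0,[(32,0)]⟩,⟨0,[(33,
  0)]⟩) .k (.r (-1) ⟨43,[(2,5),(4,5),(4,5),(4,9),(1,19),(10,2),(0,24),(4,23),(2,11)]⟩ ⟨19,[(0,8),(0,
  0),(2,0),(5,2),(6,3),(4,0),(3,3),(2,2),(0,4)]⟩)) (.R ⟨1,false,false,false,[1,0,0,-1],[0,-1,1],[0,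
  1,0,-1,0,0,0,0,-1],(⟨0,[(33,0)]⟩,⟨0,[(34,0)]⟩),(⟨0,[(19,0)]⟩,⟨0,[(42,0),(3,0)]⟩),⟨0,[(6,0)]⟩,.k,
  .k,(.x (-1) ⟨15,[(12,3),(8,3),(9,6),(0,6),(11,1)]⟩ ⟨0,[(46,0)]⟩),(.r 0 ⟨21,[(1,9),(2,7),(6,2),(2,
  1),(8,0),(0,2),(6,9),(7,1)]⟩ ⟨0,[(3,0),(0,0),(2,0),(5,0),(23,1),(11,1)]⟩),.k,.k,⟨true,(-1),⟨0,[(1,
  0)]⟩,⟨43,[(3,1),(4,1),(4,1),(4,17),(1,35),(10,0),(0,22),(4,7),(2,3)]⟩⟩,⟨false,0,⟨0,[(33,0),(5,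
  0)]⟩,⟨1,[(0,0),(12,0),(4,0),(3,0),(11,0)]⟩⟩,⟨false,0,⟨0,[(49,0)]⟩,⟨7,[(11,0),(2,1),(8,0),(0,0),(6,
  1),(0,1),(17,0),(0,2)]⟩⟩,⟨false,1,⟨6,[(3,6),(5,1),(8,5),(1,4),(10,0),(5,1),(1,4)]⟩,⟨0,[(2,0),(32,
  0)]⟩⟩,⟨true,0,⟨0,[(53,0)]⟩,⟨0,[]⟩⟩,⟨false,1,⟨0,[(3,0),(33,0),(13,0)]⟩,⟨0,[(7,0),(27,0)]⟩⟩,[.a
  ⟨true,0,⟨0,[(3,0),(3,0),(29,0),(11,0)]⟩,⟨2,[(2,0),(0,0),(7,0),(26,0)]⟩⟩ ⟨false,0,⟨5,[(1,3),(5,0),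
  (0,0),(4,1),(4,1),(14,1),(3,3),(11,1)]⟩,⟨7,[(11,0),(2,1),(8,0),(0,0),(7,3),(17,0),(0,2)]⟩⟩ ⟨true,
  0,⟨9,[(1,0),(1,2),(16,0),(10,0),(1,6),(3,9),(9,4),(1,10)]⟩,⟨0,[(0,0)]⟩⟩,.o ⟨false,1,⟨6,[(9,1),(8,
  5),(1,4),(10,0),(5,1),(1,4)]⟩,⟨2,[(11,0),(10,0),(12,1)]⟩⟩,.o ⟨false,1,⟨13,[(2,3),(5,5),(9,1),(13,
  4),(1,3),(9,6)]⟩,⟨4,[(1,0),(1,0),(1,1),(27,1),(2,0),(0,2),(6,0),(2,1)]⟩⟩,.e ⟨false,0,⟨0,[(5,0),(1,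
  0),(29,0),(11,0)]⟩,⟨11,[(4,3),(4,3),(4,3),(16,2),(0,4),(18,3)]⟩⟩ ⟨false,1,⟨3,[(3,1),(14,1),(12,0),
  (1,1),(3,3),(9,1),(3,0)]⟩,⟨0,[(0,0)]⟩⟩]⟩) (.R ⟨1,false,false,false,[1,0,0,-1],[0,-1,1],[0,1,0,-1,
  0,0,0,0,-1],(⟨0,[(33,0)]⟩,⟨0,[(34,0)]⟩),(⟨0,[(19,0)]⟩,⟨0,[(42,0),(3,0)]⟩),⟨0,[(6,0)]⟩,.k,.k,(.x
  (-1) ⟨15,[(12,3),(8,3),(9,6),(0,6),(11,1)]⟩ ⟨0,[(46,0)]⟩),(.r 0 ⟨21,[(1,9),(2,7),(6,2),(2,1),(8,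
  0),(0,2),(6,9),(7,1)]⟩ ⟨0,[(0,0),(3,0),(8,0),(20,0),(2,0),(11,0)]⟩),.k,.k,⟨true,(-1),⟨0,[(1,0)]⟩,
  ⟨32,[(0,2),(7,2),(4,0),(4,11),(1,26),(5,1),(4,0),(0,18),(4,2)]⟩⟩,⟨false,0,⟨0,[(33,0),(5,0)]⟩,⟨1,
  [(7,1),(5,0),(18,0),(2,0),(1,0)]⟩⟩,⟨false,0,⟨0,[(49,0)]⟩,⟨7,[(11,0),(2,1),(8,0),(0,0),(6,1),(0,1),
  (17,0),(0,2)]⟩⟩,⟨false,1,⟨0,[(0,0),(8,0),(41,0)]⟩,⟨0,[(2,0),(32,0)]⟩⟩,⟨true,0,⟨0,[(53,0)]⟩,⟨0,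
  []⟩⟩,⟨false,1,⟨5,[(0,3),(2,1),(10,1),(16,0),(0,2),(6,1),(11,1)]⟩,⟨0,[(7,0),(27,0)]⟩⟩,[.e ⟨false,0,
  ⟨2,[(0,0),(0,1),(6,0),(4,0),(4,0),(18,0)]⟩,⟨7,[(11,0),(2,1),(8,0),(0,0),(7,3),(17,0),(0,2)]⟩⟩
  ⟨false,0,⟨0,[(0,0)]⟩,⟨27,[(2,3),(5,19),(2,13),(6,1),(13,11),(1,3),(9,6),(6,6)]⟩⟩,.o ⟨false,1,⟨2,
  [(0,0),(17,0),(15,0),(1,0),(0,1),(1,0),(11,1)]⟩,⟨2,[(11,0),(10,0),(12,1)]⟩⟩,.o ⟨false,1,⟨13,[(2,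
  3),(5,5),(9,1),(13,4),(1,3),(9,6)]⟩,⟨141,[(0,55),(0,43),(1,45),(1,39),(8,27),(16,0),(4,15),(7,42),
  (2,7)]⟩⟩,.a ⟨true,0,⟨0,[(34,0)]⟩,⟨0,[(33,0)]⟩⟩ ⟨false,0,⟨0,[(0,0),(6,0),(27,0)]⟩,⟨11,[(4,3),(4,3),
  (4,3),(16,2),(0,4),(18,3)]⟩⟩ ⟨true,0,⟨0,[(0,0)]⟩,⟨2,[(11,0),(10,0),(11,2),(0,1)]⟩⟩]⟩)) (.Q [0,0,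
  -1,-1,0,0,0,0,-1,-1,0,1] (.p true [0,0,0,1] [1] (⟨0,[(33,0)]⟩,⟨0,[(32,0)]⟩) .k 1 (⟨0,[]⟩,⟨0,[]⟩)
  .k .k) (.R ⟨2,true,false,false,[0,1],[1,0,0,-1],[0,1,1],(⟨0,[]⟩,⟨0,[]⟩),(⟨0,[(33,0)]⟩,⟨0,[(34,
  0)]⟩),⟨0,[]⟩,.k,.k,.k,(.x 0 ⟨0,[(46,0)]⟩ ⟨15,[(12,3),(8,3),(9,6),(0,6),(11,1)]⟩),.k,.k,⟨true,0,⟨0,
  [(9,0)]⟩,⟨9,[(0,3),(1,0),(2,0),(4,4),(3,0),(8,0),(9,3),(13,3)]⟩⟩,⟨false,1,⟨13,[(2,3),(5,5),(9,1),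
  (13,4),(1,3),(9,6)]⟩,⟨0,[(33,0)]⟩⟩,⟨false,0,⟨0,[(49,0)]⟩,⟨7,[(11,0),(2,1),(8,0),(0,0),(6,1),(0,1),
  (17,0),(0,2)]⟩⟩,⟨true,0,⟨0,[(0,0)]⟩,⟨0,[(3,0),(44,0)]⟩⟩,⟨true,0,⟨0,[(53,0)]⟩,⟨0,[]⟩⟩,⟨false,1,⟨1,
  [(7,0),(0,0),(35,0),(6,0)]⟩,⟨0,[(3,0)]⟩⟩,[]⟩) (.Q [0,0,-1,-2,0,0,0,0,-1,-1,0,1] (.p true [0,0,0,
  1] [1] (⟨0,[(34,0)]⟩,⟨0,[(33,0)]⟩) .k 1 (⟨0,[]⟩,⟨0,[]⟩) .k .k) (.R ⟨1,true,false,true,[1,0,0,-1],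
  [0,1],[1,0,0,0,0,0,0,0,-1],(⟨0,[(34,0)]⟩,⟨0,[(35,0)]⟩),(⟨0,[(47,0)]⟩,⟨0,[(46,0)]⟩),⟨0,[(7,0)]⟩,.k,
  .k,(.x (-1) ⟨15,[(13,3),(8,3),(9,6),(0,6),(11,1)]⟩ ⟨0,[(47,0)]⟩),(.x (-1) ⟨15,[(13,3),(8,3),(9,6),
  (0,6),(11,1)]⟩ ⟨0,[(47,0)]⟩),(.r (-1) ⟨3,[(0,1),(18,1),(12,0),(1,1),(16,0),(2,1)]⟩ ⟨9,[(5,1),(4,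
  7),(1,1),(2,5),(9,1),(14,2),(0,0)]⟩),.k,⟨false,1,⟨15,[(3,3),(7,9),(2,1),(4,11),(4,3),(7,0),(1,3),
  (10,0)]⟩,⟨2,[(5,0),(4,1),(12,0),(6,0)]⟩⟩,⟨true,0,⟨0,[(34,0)]⟩,⟨2,[(0,0),(4,0),(17,0),(11,1),(1,1),
  (2,0)]⟩⟩,⟨true,0,⟨0,[]⟩,⟨0,[(54,0)]⟩⟩,⟨false,0,⟨0,[(1,0)]⟩,⟨3,[(0,1),(8,1),(35,0),(6,2)]⟩⟩,⟨false,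
  1,⟨7,[(12,0),(2,1),(8,0),(0,0),(6,1),(0,1),(17,0),(0,2)]⟩,⟨0,[(50,0)]⟩⟩,⟨true,0,⟨0,[(1,0),(47,
  0)]⟩,⟨0,[(0,0)]⟩⟩,[]⟩) (.I [1,1,-2,-1,0,0,0,-1,-1] (.Q [0,0,0,-1,0,0,-1,-1,0,-1,1,1] (.p true [0,
  0,1] [1,0,0,-1] (⟨0,[(45,0)]⟩,⟨0,[(44,0)]⟩) .k 2 (⟨0,[(35,0)]⟩,⟨0,[(36,0)]⟩) .k (.r (-1) ⟨4,[(3,
  3),(7,2),(21,0),(5,0),(2,0)]⟩ ⟨0,[(12,0),(30,0)]⟩)) (.R ⟨1,false,false,false,[1,0,0,-1],[0,1,1],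
  [1,1,0,0,0,0,0,0,-1],(⟨0,[(36,0)]⟩,⟨0,[(37,0)]⟩),(⟨0,[(46,0),(2,0)]⟩,⟨0,[(31,0)]⟩),⟨0,[(9,0)]⟩,.k,
  .k,(.x (-1) ⟨15,[(15,3),(8,3),(9,6),(0,6),(11,1)]⟩ ⟨0,[(49,0)]⟩),(.r 0 ⟨5,[(1,3),(11,1),(6,0),(12,
  0),(16,1),(1,0)]⟩ ⟨7,[(4,3),(7,7),(4,3),(16,2),(0,0)]⟩),(.r (-1) ⟨10,[(1,4),(10,1),(7,2),(0,6),
  (11,2),(0,3)]⟩ ⟨0,[(12,0),(4,0)]⟩),.k,⟨false,0,⟨0,[(1,0)]⟩,⟨3,[(23,3),(10,0),(0,2)]⟩⟩,⟨true,0,⟨0,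
  [(26,0),(9,0),(15,0)]⟩,⟨0,[(37,0),(1,0)]⟩⟩,⟨false,0,⟨0,[]⟩,⟨3,[(34,0),(0,0),(18,1)]⟩⟩,⟨false,1,⟨0,
  [(6,0),(18,0),(28,0)]⟩,⟨1,[(0,0),(0,0),(8,0),(28,0)]⟩⟩,⟨true,0,⟨0,[(51,0)]⟩,⟨0,[(52,0)]⟩⟩,⟨false,
  1,⟨1,[(2,0),(3,0),(18,1),(28,1)]⟩,⟨1,[(0,0),(0,0),(8,0),(28,0),(12,1)]⟩⟩,[.a ⟨true,0,⟨0,[(5,0),(0,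
  0),(33,0)]⟩,⟨0,[(0,0),(35,0)]⟩⟩ ⟨false,0,⟨4,[(1,2),(9,0),(1,0),(3,0),(7,0),(3,0),(6,0),(3,0)]⟩,⟨1,
  [(35,0),(18,0)]⟩⟩ ⟨true,0,⟨1,[(17,0),(18,1),(3,0),(1,0)]⟩,⟨0,[(0,0)]⟩⟩,.o ⟨false,1,⟨0,[(25,0),(28,
  0)]⟩,⟨0,[(20,0),(19,0)]⟩⟩,.o ⟨false,1,⟨13,[(5,3),(5,5),(9,1),(13,4),(1,3),(9,6)]⟩,⟨2,[(8,1),(27,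
  0),(2,0),(0,1),(1,0),(7,0)]⟩⟩,.e ⟨false,0,⟨0,[(1,0),(21,0)]⟩,⟨0,[(12,0),(41,0)]⟩⟩ ⟨false,1,⟨0,
  [(25,0),(10,0),(17,0)]⟩,⟨0,[(0,0)]⟩⟩]⟩) (.R ⟨1,false,false,false,[1,0,0,-1],[0,1,1],[1,1,0,0,0,0,
  0,0,-1],(⟨0,[(36,0)]⟩,⟨0,[(37,0)]⟩),(⟨0,[(46,0),(2,0)]⟩,⟨0,[(31,0)]⟩),⟨0,[(9,0)]⟩,.k,.k,(.x (-1)
  ⟨15,[(15,3),(8,3),(9,6),(0,6),(11,1)]⟩ ⟨0,[(49,0)]⟩),(.r 0 ⟨5,[(1,3),(11,1),(6,0),(12,0),(16,1),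
  (1,0)]⟩ ⟨7,[(4,3),(7,7),(4,3),(16,2),(0,0)]⟩),(.r (-1) ⟨10,[(1,4),(10,1),(7,2),(0,6),(11,2),(0,
  3)]⟩ ⟨0,[(12,0),(4,0)]⟩),.k,⟨false,0,⟨0,[(1,0)]⟩,⟨3,[(23,3),(10,0),(0,2)]⟩⟩,⟨true,0,⟨1,[(0,0),(7,
  0),(24,0),(18,0)]⟩,⟨0,[(37,0),(1,0)]⟩⟩,⟨false,0,⟨0,[]⟩,⟨3,[(34,0),(0,0),(18,1)]⟩⟩,⟨false,1,⟨15,
  [(0,7),(3,3),(1,7),(10,3),(16,2),(0,4),(6,7),(11,3)]⟩,⟨0,[(10,0),(9,0),(19,0)]⟩⟩,⟨true,0,⟨0,[(51,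
  0)]⟩,⟨0,[(52,0)]⟩⟩,⟨false,1,⟨5,[(0,3),(1,1),(14,1),(16,0),(0,2),(6,1),(11,1)]⟩,⟨0,[(10,0),(9,0),
  (19,0),(11,0)]⟩⟩,[.e ⟨false,0,⟨3,[(0,0),(0,1),(9,0),(1,0),(11,0),(3,0)]⟩,⟨1,[(35,0),(18,0)]⟩⟩
  ⟨false,0,⟨0,[(0,0)]⟩,⟨23,[(11,7),(7,3),(0,7),(0,7),(12,2),(0,6),(1,15),(9,5)]⟩⟩,.o ⟨false,1,⟨0,
  [(25,0),(28,0)]⟩,⟨0,[(20,0),(19,0)]⟩⟩,.o ⟨false,1,⟨13,[(5,3),(5,5),(9,1),(13,4),(1,3),(9,6)]⟩,⟨1,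
  [(0,0),(7,0),(30,0),(2,0),(9,0)]⟩⟩,.a ⟨true,0,⟨0,[(37,0)]⟩,⟨0,[(36,0)]⟩⟩ ⟨false,0,⟨1,[(0,0),(0,0),
  (8,0),(28,0)]⟩,⟨0,[(12,0),(41,0)]⟩⟩ ⟨true,0,⟨0,[(0,0)]⟩,⟨0,[(20,0),(16,0),(2,0)]⟩⟩]⟩)) (.K ⟨1,[1,
  -1,0,-1],0,0,(⟨0,[(8,0)]⟩,⟨0,[(36,0),(11,0)]⟩),(.x (-1) ⟨15,[(14,3),(8,3),(9,6),(0,6),(11,1)]⟩ ⟨0,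
  [(48,0)]⟩),(.r (-1) ⟨4,[(7,1),(2,1),(1,0),(7,3),(12,0),(5,1),(11,1)]⟩ ⟨2,[(0,1),(10,0),(1,0),(12,
  0),(14,0),(8,0)]⟩),.k,.k,.k,[⟨1,[(35,1),(5,0),(0,0)]⟩,⟨0,[(25,0),(10,0),(1,0),(12,0)]⟩,⟨0,[(5,0),
  (44,0)]⟩,⟨0,[(9,0),(41,0)]⟩]⟩))))))

theorem ok96 : chk (cU (-1) true 10) t96 l64 = true := by decide +kernel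

noncomputable def t122 : Tre :=
  (.K ⟨0,[1,1,-1],1,0,(⟨0,[(29,0),(3,0)]⟩,⟨0,[(6,0)]⟩),.k,.k,(.r 0 ⟨3,[(1,3),(0,3),(15,0),(0,0),(18,
  1)]⟩ ⟨0,[(0,0),(35,0)]⟩),.k,.k,[⟨0,[(2,0),(33,0)]⟩,⟨0,[(0,0),(13,0),(1,0)]⟩,⟨1,[(4,0),(15,0),(0,
  0),(14,2),(3,1)]⟩,⟨0,[(1,0)]⟩]⟩)

theorem ok122 : chk (cU (-1) true 10) t122 l70 = true := by decide +kernel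

noncomputable def t159 : Tre :=
  (.Q [0,0,0,-1,0,0,2,2,0,1,-2] (.p false [0,0,1] [1,0,-1] (⟨0,[(32,0)]⟩,⟨0,[(31,0)]⟩) .k 2 (⟨0,
  [(31,0)]⟩,⟨0,[(32,0)]⟩) .k (.r (-1) ⟨9,[(6,7),(3,3),(9,2),(0,2),(16,3)]⟩ ⟨0,[(30,1)]⟩)) (.R ⟨1,
  false,false,false,[1,0,-1],[0,-1,1],[1,0,-1,-1,0,0,0,1],(⟨0,[(32,0)]⟩,⟨0,[(33,0)]⟩),(⟨1,[(5,0),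
  (27,0)]⟩,⟨0,[(32,0),(3,0)]⟩),⟨0,[(18,0)]⟩,.k,.k,.k,(.r 0 ⟨5,[(10,2),(17,1),(0,4),(1,6),(5,0)]⟩ ⟨9,
  [(0,3),(6,1),(3,7),(4,3),(4,0),(0,0)]⟩),.k,.k,⟨true,0,⟨0,[]⟩,⟨1,[(29,0),(0,0)]⟩⟩,⟨false,0,⟨0,[(20,
  0)]⟩,⟨9,[(6,5),(0,1),(3,1),(4,3),(4,0),(0,0)]⟩⟩,⟨false,1,⟨3,[(0,0),(6,0),(3,3),(4,0),(20,1)]⟩,⟨5,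
  [(10,2),(17,1),(0,4),(1,6),(5,0)]⟩⟩,⟨true,0,⟨0,[(0,0)]⟩,⟨4,[(1,1),(1,2),(6,0),(17,1)]⟩⟩,⟨false,1,
  ⟨0,[(11,0),(0,0)]⟩,⟨2,[(28,1),(0,1),(1,3),(5,0)]⟩⟩,⟨false,1,⟨7,[(0,3),(6,3),(12,3),(0,0),(0,0),
  (17,1),(0,3)]⟩,⟨0,[(1,0)]⟩⟩,[.a ⟨true,0,⟨1,[(0,0),(22,0),(0,0),(14,0)]⟩,⟨3,[(1,0),(8,1),(12,0),(0,
  0)]⟩⟩ ⟨false,1,⟨0,[(11,0)]⟩,⟨5,[(10,2),(17,1),(0,4),(1,0),(5,0)]⟩⟩ ⟨true,0,⟨19,[(0,11),(8,3),(10,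
  7),(8,0),(0,0),(6,1)]⟩,⟨3,[(1,0),(8,1),(5,1),(9,0),(2,0)]⟩⟩,.o ⟨false,1,⟨9,[(0,5),(8,1),(11,0),(0,
  0),(3,1),(7,1),(6,5)]⟩,⟨0,[(3,0)]⟩⟩,.o ⟨false,1,⟨39,[(6,5),(0,1),(3,1),(4,13),(4,10),(0,10),(11,
  9)]⟩,⟨0,[(17,0),(9,0)]⟩⟩,.o ⟨false,0,⟨0,[(26,0)]⟩,⟨7,[(20,3),(0,0),(0,0),(11,1),(5,3)]⟩⟩]⟩) (.Q
  [0,0,0,-2,0,0,2,2,0,1,-2] (.p false [0,0,1] [1,0,-1] (⟨0,[(33,0)]⟩,⟨0,[(32,0)]⟩) .k 2 (⟨0,[(32,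
  0)]⟩,⟨0,[(33,0)]⟩) .k (.r (-1) ⟨9,[(7,7),(3,3),(9,2),(0,2),(16,3)]⟩ ⟨0,[(31,1)]⟩)) (.Q [0,0,2,0,
  -1,0,2,0,0,1,-2] (.p false [0,0,1] [1,0,-1] (⟨0,[(34,0)]⟩,⟨0,[(33,0)]⟩) .k 2 (⟨0,[(33,0)]⟩,⟨0,
  [(34,0)]⟩) .k (.r (-1) ⟨29,[(0,3),(7,19),(3,11),(4,3),(4,8),(0,8)]⟩ ⟨0,[(32,1)]⟩)) (.I [0,0,2,0,
  -1,-2,2] (.R ⟨1,true,false,false,[0,0,1],[1,1,-1],[1,1,0,0,0,0,0,1],(⟨0,[(36,0)]⟩,⟨0,[(35,0)]⟩),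
  (⟨0,[(35,0),(3,0)]⟩,⟨1,[(8,0),(27,0)]⟩),⟨1,[(8,0),(27,0)]⟩,.k,.k,.k,(.r (-1) ⟨29,[(2,7),(7,9),(3,
  23),(4,7),(4,2),(0,2)]⟩ ⟨3,[(1,1),(1,3),(19,1),(0,0),(0,0)]⟩),(.x 1 ⟨0,[(0,0)]⟩ ⟨3,[(11,3),(12,0),
  (0,0),(13,11),(3,5)]⟩),.k,⟨false,1,⟨0,[(2,0),(2,0),(16,0)]⟩,⟨1,[(1,0),(1,1),(19,0),(20,0)]⟩⟩,
  ⟨true,1,⟨9,[(9,5),(0,1),(3,1),(4,3),(4,0),(0,0)]⟩,⟨0,[(1,0)]⟩⟩,⟨false,0,⟨0,[]⟩,⟨3,[(24,0),(0,0),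
  (18,1)]⟩⟩,⟨true,0,⟨0,[(3,0)]⟩,⟨0,[(2,0),(38,0)]⟩⟩,⟨true,0,⟨0,[(41,0)]⟩,⟨0,[(42,0)]⟩⟩,⟨false,1,⟨5,
  [(3,3),(9,3),(10,0),(0,0),(11,0),(6,2)]⟩,⟨0,[(2,0)]⟩⟩,[]⟩) (.I [0,0,-2,0,1,2,-2] (.R ⟨1,true,
  false,false,[0,0,1],[1,1,-1],[1,1,0,0,0,0,0,1],(⟨0,[(37,0)]⟩,⟨0,[(36,0)]⟩),(⟨1,[(0,0),(1,0),(24,
  0),(0,0)]⟩,⟨1,[(9,0),(27,0)]⟩),⟨1,[(9,0),(27,0)]⟩,.k,.k,.k,(.r (-1) ⟨29,[(3,7),(7,9),(3,23),(4,7),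
  (4,2),(0,2)]⟩ ⟨3,[(2,1),(1,3),(19,1),(0,0),(0,0)]⟩),(.x 0 ⟨3,[(2,3),(6,3),(15,0),(0,0),(10,3),(0,
  1)]⟩ ⟨0,[(0,0)]⟩),.k,⟨false,1,⟨0,[(3,0),(2,0),(16,0)]⟩,⟨1,[(2,0),(1,1),(19,0),(20,0)]⟩⟩,⟨true,1,
  ⟨9,[(10,5),(0,1),(3,1),(4,3),(4,0),(0,0)]⟩,⟨0,[(2,0)]⟩⟩,⟨false,0,⟨0,[]⟩,⟨3,[(25,0),(0,0),(18,
  1)]⟩⟩,⟨true,0,⟨0,[(4,0)]⟩,⟨0,[(3,0),(38,0)]⟩⟩,⟨true,0,⟨0,[(42,0)]⟩,⟨0,[(43,0)]⟩⟩,⟨false,1,⟨5,[(4,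
  3),(9,3),(10,0),(0,0),(11,0),(6,2)]⟩,⟨0,[(3,0)]⟩⟩,[]⟩) (.I [0,0,2,2,-1,0,0,-2] (.R ⟨1,true,false,
  false,[0,0,1],[1,1,-1],[1,1,0,0,0,0,0,1],(⟨0,[(38,0)]⟩,⟨0,[(37,0)]⟩),(⟨1,[(2,0),(0,0),(24,0),(0,
  0)]⟩,⟨1,[(10,0),(27,0)]⟩),⟨1,[(10,0),(27,0)]⟩,.k,.k,.k,(.r (-1) ⟨29,[(4,7),(7,9),(3,23),(4,7),(4,
  2),(0,2)]⟩ ⟨3,[(0,1),(25,0),(0,0),(8,3)]⟩),(.r (-2) ⟨4,[(4,1),(11,5),(4,1),(4,1),(0,1)]⟩ ⟨0,[(0,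
  0)]⟩),.k,⟨false,1,⟨0,[(4,0),(2,0),(16,0)]⟩,⟨1,[(0,0),(35,1),(9,0)]⟩⟩,⟨true,1,⟨9,[(11,5),(0,1),(3,
  1),(4,3),(4,0),(0,0)]⟩,⟨0,[(3,0)]⟩⟩,⟨false,0,⟨0,[]⟩,⟨3,[(26,0),(0,0),(18,1)]⟩⟩,⟨true,0,⟨0,[(5,
  0)]⟩,⟨0,[(4,0),(38,0)]⟩⟩,⟨true,0,⟨0,[(43,0)]⟩,⟨0,[(44,0)]⟩⟩,⟨false,1,⟨5,[(5,3),(9,3),(10,0),(0,0),
  (11,0),(6,2)]⟩,⟨0,[(4,0)]⟩⟩,[]⟩) (.Q [0,1,-1,0,0,0,0,0,-1,0,0,1] (.p true [0,0,0,1] [] (⟨0,[(29,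
  0)]⟩,⟨0,[(28,0)]⟩) .k 0 (⟨0,[]⟩,⟨0,[]⟩) .k .k) (.Q [0,1,1,0,0,0,0,0,1,0,0,-1] (.p false [0,0,0,1]
  [] (⟨0,[(30,0)]⟩,⟨0,[(29,0)]⟩) .k 0 (⟨0,[]⟩,⟨0,[]⟩) .k .k) (.K ⟨0,[0,0,0,1],0,0,(⟨0,[(31,0)]⟩,⟨0,
  [(30,0)]⟩),.k,(.r (-1) ⟨5,[(16,1),(1,1),(10,2),(18,0)]⟩ ⟨3,[(1,1),(3,0),(4,1),(8,0),(1,0),(6,0),
  (1,1),(2,0),(10,1)]⟩),(.x 0 ⟨0,[(43,0)]⟩ ⟨15,[(12,3),(7,3),(7,6),(0,6),(11,1)]⟩),.k,.k,[⟨0,[(31,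
  0)]⟩,⟨0,[(30,0)]⟩,⟨0,[(1,0)]⟩,⟨0,[(0,0)]⟩]⟩) (.Q [0,0,0,0,0,-1,0,0,0,1,0,-1] (.ed true [0,1,0,1]
  .k) (.Q [0,0,0,-1,0,0,1,1,0,1,-1,-1] (.p false [0,0,1] [1,0,0,-1] (⟨0,[(41,0)]⟩,⟨0,[(40,0)]⟩) .k
  2 (⟨0,[(31,0)]⟩,⟨0,[(32,0)]⟩) .k (.r (-1) ⟨5,[(3,0),(11,1),(13,0),(0,3)]⟩ ⟨4,[(1,2),(4,1),(2,0),
  (1,1),(5,0),(11,0),(1,2),(10,0)]⟩)) (.R ⟨1,false,false,false,[1,0,0,-1],[1,0,-1],[1,1,0,0,0,0,0,0,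
  -1],(⟨0,[(32,0)]⟩,⟨0,[(33,0)]⟩),(⟨0,[(41,0)]⟩,⟨0,[(42,0)]⟩),⟨0,[(1,0)]⟩,.k,.k,(.x (-1) ⟨15,[(14,
  3),(7,3),(7,6),(0,6),(11,1)]⟩ ⟨0,[(45,0)]⟩),.k,(.x 0 ⟨1,[(5,0),(43,0)]⟩ ⟨11,[(6,5),(0,3),(17,3),
  (4,4),(0,4)]⟩),.k,⟨false,0,⟨0,[(0,0),(1,0),(6,0),(6,0),(1,0),(4,0)]⟩,⟨1,[(31,0),(8,1),(9,0)]⟩⟩,
  ⟨true,0,⟨0,[(32,0),(2,0)]⟩,⟨3,[(2,1),(4,2),(4,0),(0,1),(9,0),(7,0),(1,1)]⟩⟩,⟨false,0,⟨0,[]⟩,⟨3,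
  [(30,0),(0,0),(18,1)]⟩⟩,⟨false,1,⟨23,[(7,7),(2,11),(14,7),(4,0),(0,12),(0,23),(10,5),(6,11)]⟩,⟨0,
  [(2,0),(33,0)]⟩⟩,⟨true,0,⟨0,[(47,0)]⟩,⟨0,[(48,0)]⟩⟩,⟨false,1,⟨5,[(7,1),(1,1),(9,1),(5,1),(5,2),(0,
  5),(10,1),(6,2)]⟩,⟨3,[(2,3),(5,0),(9,0),(16,0),(0,2)]⟩⟩,[.e ⟨false,0,⟨1,[(0,1),(1,0),(0,0),(8,
  1)]⟩,⟨1,[(31,0),(18,0)]⟩⟩ ⟨false,0,⟨0,[(0,0),(8,0)]⟩,⟨15,[(2,11),(0,3),(4,3),(14,7),(6,2),(0,10),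
  (11,1)]⟩⟩,.o ⟨false,1,⟨7,[(10,3),(19,0),(0,0),(11,1),(6,3)]⟩,⟨0,[(36,0)]⟩⟩,.o ⟨false,1,⟨1,[(2,0),
  (0,0),(27,0),(11,0)]⟩,⟨4,[(0,1),(6,0),(4,1),(19,2),(2,1),(7,0),(2,0)]⟩⟩,.a ⟨true,0,⟨0,[(33,0)]⟩,
  ⟨0,[(32,0)]⟩⟩ ⟨false,0,⟨0,[(0,0),(1,0),(9,0)]⟩,⟨5,[(7,1),(17,1),(4,0),(0,3),(18,2)]⟩⟩ ⟨true,0,⟨0,
  [(0,0),(8,0)]⟩,⟨0,[(33,0),(2,0)]⟩⟩]⟩) (.I [0,1,-1,-1,0,0,0,1,-1] (.R ⟨1,false,false,false,[1,0,0,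
  -1],[0,-1,1],[0,1,0,-1,0,0,0,0,-1],(⟨0,[(33,0)]⟩,⟨0,[(34,0)]⟩),(⟨1,[(15,0),(27,0)]⟩,⟨1,[(7,0),(0,
  0),(24,0),(0,0)]⟩),⟨0,[(2,0)]⟩,.k,.k,(.x (-1) ⟨15,[(15,3),(7,3),(7,6),(0,6),(11,1)]⟩ ⟨0,[(46,
  0)]⟩),(.r 0 ⟨16,[(3,0),(4,7),(1,2),(2,5),(6,3),(6,0),(3,7),(1,0),(13,1)]⟩ ⟨1,[(5,0),(26,0)]⟩),.k,
  .k,⟨true,(-1),⟨0,[(0,0),(7,0),(1,0)]⟩,⟨3,[(5,0),(16,1),(9,1),(18,0)]⟩⟩,⟨false,0,⟨7,[(8,3),(22,0),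
  (0,0),(0,7),(10,1)]⟩,⟨0,[(1,0),(19,0)]⟩⟩,⟨false,0,⟨0,[(49,0)]⟩,⟨5,[(20,1),(3,1),(6,0),(0,0),(18,
  3)]⟩⟩,⟨false,1,⟨23,[(8,7),(0,11),(16,7),(4,0),(0,12),(0,23),(10,5),(6,11)]⟩,⟨0,[(3,0),(9,0)]⟩⟩,
  ⟨true,0,⟨0,[(53,0)]⟩,⟨0,[]⟩⟩,⟨false,1,⟨23,[(8,7),(0,3),(7,7),(13,0),(0,12),(0,23),(10,5),(6,11)]⟩,
  ⟨0,[(3,0),(31,0)]⟩⟩,[.a ⟨true,0,⟨1,[(9,0),(23,0),(0,0)]⟩,⟨3,[(11,0),(8,1),(12,0),(0,0)]⟩⟩ ⟨false,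
  0,⟨13,[(0,9),(2,1),(4,0),(4,3),(5,3),(7,1),(2,0),(0,0),(1,1)]⟩,⟨7,[(20,1),(1,1),(1,1),(2,1),(4,3),
  (17,0),(0,2)]⟩⟩ ⟨true,0,⟨23,[(8,7),(0,11),(16,7),(4,0),(0,0),(0,23),(10,5)]⟩,⟨0,[(1,0)]⟩⟩,.o
  ⟨false,1,⟨7,[(9,3),(21,0),(0,0),(11,1),(6,3)]⟩,⟨0,[(13,0)]⟩⟩,.o ⟨false,1,⟨1,[(3,0),(0,0),(27,0),
  (11,0)]⟩,⟨2,[(8,1),(4,0),(0,1),(9,0),(8,2),(2,1),(10,0)]⟩⟩,.e ⟨false,0,⟨0,[(0,0),(26,0)]⟩,⟨71,[(8,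
  19),(11,23),(1,23),(3,7),(4,12),(0,48),(11,5),(6,23)]⟩⟩ ⟨false,1,⟨7,[(9,3),(21,0),(0,0),(0,7),(10,
  1),(6,3)]⟩,⟨0,[(1,0)]⟩⟩]⟩) (.Q [0,0,1,2,0,0,0,0,1,1,0,-1] (.p false [0,0,0,1] [1] (⟨0,[(34,0)]⟩,
  ⟨0,[(33,0)]⟩) .k 1 (⟨0,[]⟩,⟨0,[]⟩) .k .k) (.Q [0,0,0,1,0,0,0,0,0,1,0,-1] (.p false [0,0,0,1] [1]
  (⟨0,[(35,0)]⟩,⟨0,[(34,0)]⟩) .k 1 (⟨0,[]⟩,⟨0,[]⟩) .k .k) (.R ⟨1,false,false,true,[1,0,0,-1],[0,1],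
  [1,0,0,0,0,0,0,0,-1],(⟨0,[(35,0)]⟩,⟨0,[(36,0)]⟩),(⟨0,[(48,0)]⟩,⟨0,[(47,0)]⟩),⟨0,[(4,0)]⟩,.k,.k,
  (.x (-1) ⟨15,[(17,3),(7,3),(7,6),(0,6),(11,1)]⟩ ⟨0,[(48,0)]⟩),(.x (-1) ⟨15,[(17,3),(7,3),(7,6),(0,
  6),(11,1)]⟩ ⟨0,[(48,0)]⟩),(.r (-1) ⟨27,[(5,7),(5,6),(4,15),(4,11),(1,1),(5,3),(2,0),(0,9),(1,7)]⟩
  ⟨83,[(1,47),(1,47),(6,39),(8,23),(8,15),(4,4),(0,22),(11,11)]⟩),.k,⟨false,1,⟨5,[(5,3),(5,0),(4,3),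
  (12,1),(2,0),(0,0),(1,3),(10,0)]⟩,⟨10,[(1,4),(1,4),(6,2),(8,2),(1,5),(4,4),(1,2),(5,2)]⟩⟩,⟨true,0,
  ⟨0,[(35,0)]⟩,⟨3,[(3,1),(6,0),(0,0),(24,1),(1,1),(7,0)]⟩⟩,⟨true,0,⟨0,[]⟩,⟨0,[(55,0)]⟩⟩,⟨false,0,⟨4,
  [(1,3),(0,0),(8,0),(9,0),(6,0),(6,0)]⟩,⟨47,[(5,33),(1,1),(3,5),(9,15),(6,5),(4,6),(2,13),(9,23),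
  (6,14)]⟩⟩,⟨false,1,⟨5,[(22,1),(3,1),(6,0),(0,0),(18,3)]⟩,⟨0,[(51,0)]⟩⟩,⟨false,0,⟨0,[(1,0)]⟩,⟨23,
  [(5,17),(5,7),(9,15),(6,7),(4,2),(2,5),(9,11),(2,1),(3,8)]⟩⟩,[.o ⟨false,0,⟨0,[(50,0)]⟩,⟨5,[(11,0),
  (9,1),(6,0),(17,2),(2,0),(3,2)]⟩⟩,.a ⟨true,0,⟨0,[(0,0),(35,0)]⟩,⟨0,[(51,0)]⟩⟩ ⟨true,0,⟨0,[(0,0),
  (4,0),(4,0),(5,0),(21,0)]⟩,⟨10,[(1,2),(1,2),(6,3),(8,3),(1,7),(4,2),(1,3),(5,3)]⟩⟩ ⟨false,0,⟨0,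
  [(0,0)]⟩,⟨5,[(21,1),(1,1),(12,5),(9,2),(6,0)]⟩⟩,.o ⟨false,1,⟨1,[(5,0),(0,0),(27,0),(11,0)]⟩,⟨0,
  [(0,0),(9,0),(5,0),(21,0)]⟩⟩,.e ⟨false,1,⟨6,[(0,1),(4,2),(10,1),(15,0),(0,1),(1,0),(10,0),(6,1)]⟩,
  ⟨0,[(2,0),(16,0),(1,0)]⟩⟩ ⟨false,0,⟨0,[(0,0)]⟩,⟨5,[(11,0),(9,1),(6,0),(7,5),(9,2),(2,0),(3,
  2)]⟩⟩]⟩) (.R ⟨1,false,false,true,[1,0,0,-1],[0,1],[1,0,0,0,0,0,0,0,-1],(⟨0,[(35,0)]⟩,⟨0,[(36,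
  0)]⟩),(⟨0,[(48,0)]⟩,⟨0,[(47,0)]⟩),⟨0,[(4,0)]⟩,.k,.k,(.x (-1) ⟨15,[(17,3),(7,3),(7,6),(0,6),(11,
  1)]⟩ ⟨0,[(48,0)]⟩),(.x (-1) ⟨15,[(17,3),(7,3),(7,6),(0,6),(11,1)]⟩ ⟨0,[(48,0)]⟩),(.r (-1) ⟨27,[(5,
  7),(5,6),(4,15),(4,11),(1,1),(5,3),(2,0),(0,9),(1,7)]⟩ ⟨83,[(1,47),(1,47),(6,39),(8,23),(8,15),(4,
  4),(0,22),(11,11)]⟩),.k,⟨false,1,⟨5,[(5,3),(5,0),(4,3),(12,1),(2,0),(0,0),(1,3),(10,0)]⟩,⟨14,[(0,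
  6),(0,6),(8,3),(4,2),(5,0),(6,0),(2,6),(2,3),(4,3)]⟩⟩,⟨true,0,⟨0,[(35,0)]⟩,⟨59,[(0,35),(2,23),(6,
  19),(8,11),(8,7),(4,6),(0,6),(11,5)]⟩⟩,⟨true,0,⟨0,[]⟩,⟨0,[(55,0)]⟩⟩,⟨false,0,⟨4,[(1,3),(0,0),(8,
  0),(9,0),(6,0),(6,0)]⟩,⟨11,[(0,5),(4,5),(15,1),(1,1),(9,2),(12,2),(6,3)]⟩⟩,⟨false,1,⟨5,[(22,1),(3,
  1),(6,0),(0,0),(18,3)]⟩,⟨0,[(51,0)]⟩⟩,⟨false,0,⟨0,[(1,0)]⟩,⟨30,[(0,21),(4,8),(5,4),(4,9),(4,9),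
  (11,10),(12,1),(2,7),(3,7)]⟩⟩,[.o ⟨false,0,⟨0,[(50,0)]⟩,⟨5,[(11,0),(9,1),(6,0),(17,2),(2,0),(3,
  2)]⟩⟩,.e ⟨true,0,⟨2,[(5,2),(4,1),(4,0),(0,1),(9,0),(8,2),(2,1),(10,0)]⟩,⟨2,[(0,0),(0,0),(8,0),(10,
  0),(6,0),(2,0),(2,0),(4,0)]⟩⟩ ⟨true,0,⟨40,[(1,15),(8,7),(4,1),(3,0),(2,1),(1,1),(3,5),(4,7),(1,
  24)]⟩,⟨0,[(0,0)]⟩⟩,.o ⟨false,1,⟨1,[(5,0),(0,0),(27,0),(11,0)]⟩,⟨2,[(10,1),(4,0),(0,1),(9,0),(8,2),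
  (2,1),(10,0)]⟩⟩,.a ⟨true,0,⟨0,[(36,0)]⟩,⟨0,[(35,0)]⟩⟩ ⟨false,1,⟨3,[(5,1),(27,0),(1,1),(10,0),(5,
  0),(0,0)]⟩,⟨3,[(0,2),(0,2),(0,0),(8,0),(9,0),(6,0)]⟩⟩ ⟨true,0,⟨0,[(35,0),(14,0)]⟩,⟨0,[(0,
  0)]⟩⟩]⟩)) (.Q [0,0,1,1,0,0,0,0,1,1,0,-1] (.p false [0,0,0,1] [1] (⟨0,[(35,0)]⟩,⟨0,[(34,0)]⟩) .k 1
  (⟨0,[]⟩,⟨0,[]⟩) .k .k) (.R ⟨1,true,false,true,[1,0,0,-1],[0,1],[1,0,0,0,0,0,0,0,-1],(⟨0,[(35,0)]⟩,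
  ⟨0,[(36,0)]⟩),(⟨0,[(48,0)]⟩,⟨0,[(47,0)]⟩),⟨0,[(4,0)]⟩,.k,.k,(.x (-1) ⟨15,[(17,3),(7,3),(7,6),(0,
  6),(11,1)]⟩ ⟨0,[(48,0)]⟩),(.x (-1) ⟨15,[(17,3),(7,3),(7,6),(0,6),(11,1)]⟩ ⟨0,[(48,0)]⟩),(.r (-1)
  ⟨11,[(1,5),(19,3),(1,3),(9,2),(1,5),(16,2),(0,1)]⟩ ⟨19,[(0,15),(2,15),(6,7),(8,7),(13,0),(0,2),
  (11,3)]⟩),.k,⟨false,1,⟨27,[(1,5),(3,17),(10,15),(15,7),(0,1),(1,23),(10,4),(6,4)]⟩,⟨8,[(0,4),(2,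
  4),(6,1),(8,1),(1,3),(4,4),(1,1),(5,1)]⟩⟩,⟨true,0,⟨0,[(35,0)]⟩,⟨29,[(1,5),(1,7),(6,9),(8,3),(14,
  2),(1,15),(1,11),(7,6)]⟩⟩,⟨true,0,⟨0,[]⟩,⟨0,[(55,0)]⟩⟩,⟨false,0,⟨0,[(0,0)]⟩,⟨3,[(1,1),(3,1),(27,
  0),(0,0),(11,0),(6,0)]⟩⟩,⟨false,1,⟨5,[(22,1),(3,1),(6,0),(0,0),(18,3)]⟩,⟨0,[(51,0)]⟩⟩,⟨true,0,⟨0,
  [(0,0),(49,0)]⟩,⟨0,[(1,0)]⟩⟩,[]⟩) (.R ⟨2,true,false,false,[0,1],[1,0,0,-1],[0,1,1],(⟨0,[]⟩,⟨0,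
  []⟩),(⟨0,[(35,0)]⟩,⟨0,[(36,0)]⟩),⟨0,[]⟩,.k,.k,.k,(.x 0 ⟨0,[(48,0)]⟩ ⟨15,[(17,3),(7,3),(7,6),(0,6),
  (11,1)]⟩),.k,.k,⟨true,0,⟨10,[(2,2),(7,3),(4,2),(3,6),(1,7),(6,0),(2,2),(2,3)]⟩,⟨20,[(0,11),(4,6),
  (4,2),(4,5),(8,5),(8,0),(1,18),(10,1),(2,6)]⟩⟩,⟨false,1,⟨1,[(5,0),(0,0),(27,0),(11,0)]⟩,⟨0,[(35,
  0)]⟩⟩,⟨false,0,⟨0,[(51,0)]⟩,⟨5,[(22,1),(3,1),(6,0),(0,0),(18,3)]⟩⟩,⟨true,0,⟨0,[(0,0)]⟩,⟨3,[(2,1),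
  (7,0),(4,0),(3,1),(1,1),(4,0),(4,1),(2,0),(0,3)]⟩⟩,⟨true,0,⟨0,[(55,0)]⟩,⟨0,[]⟩⟩,⟨false,1,⟨3,[(5,
  3),(27,0),(0,0),(11,1)]⟩,⟨0,[(2,0),(16,0),(1,0),(13,0)]⟩⟩,[]⟩))))) (.Q [0,1,1,-2,0,0,1,1,1,1,-1,
  -1] (.p false [0,0,1] [1,0,0,-1] (⟨0,[(41,0)]⟩,⟨0,[(40,0)]⟩) .k 2 (⟨0,[(31,0)]⟩,⟨0,[(32,0)]⟩) .k
  (.r (-1) ⟨5,[(3,0),(11,1),(13,0),(0,3)]⟩ ⟨4,[(1,2),(4,1),(2,0),(1,1),(5,0),(11,0),(1,2),(10,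
  0)]⟩)) (.Q [0,0,0,1,0,0,1,1,0,0,-1,1] (.p false [0,0,1] [0,0,0,1] (⟨0,[(42,0)]⟩,⟨0,[(41,0)]⟩) .k
  2 (⟨0,[(33,0)]⟩,⟨0,[(32,0)]⟩) .k (.r 0 ⟨0,[(2,0),(29,0),(2,0),(0,0)]⟩ ⟨3,[(30,0),(0,2),(8,3)]⟩))
  (.R ⟨0,false,false,true,[1,0,0,-1],[1,-1,-1],[1,1],(⟨0,[(33,0)]⟩,⟨0,[(34,0)]⟩),(⟨0,[(28,0)]⟩,⟨0,
  [(43,0),(2,0)]⟩),⟨0,[(2,0)]⟩,.k,.k,(.x (-1) ⟨15,[(15,3),(7,3),(7,6),(0,6),(11,1)]⟩ ⟨0,[(46,0)]⟩),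
  (.r 0 ⟨3,[(3,1),(4,0),(4,0),(3,1),(6,0),(6,0),(1,1),(2,1)]⟩ ⟨3,[(16,0),(2,1),(10,0),(1,1),(8,0),
  (9,0)]⟩),.k,.k,⟨true,0,⟨119,[(8,19),(8,71),(2,23),(5,7),(4,6),(0,6),(11,5)]⟩,⟨3,[(8,0),(2,0),(7,
  1),(31,0)]⟩⟩,⟨false,0,⟨0,[(33,0),(2,0)]⟩,⟨15,[(0,5),(2,7),(0,1),(8,1),(5,3),(10,5),(1,4),(11,1),
  (5,8)]⟩⟩,⟨false,1,⟨3,[(31,0),(0,2)]⟩,⟨2,[(3,2),(4,1),(4,0),(0,1),(9,0),(8,2),(2,1),(10,0)]⟩⟩,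
  ⟨true,0,⟨0,[(1,0),(8,0)]⟩,⟨0,[(3,0),(20,0)]⟩⟩,⟨false,0,⟨0,[]⟩,⟨0,[]⟩⟩,⟨false,0,⟨0,[]⟩,⟨0,[]⟩⟩,[.o
  ⟨false,0,⟨1,[(19,0),(15,0),(0,0)]⟩,⟨0,[(24,0),(26,0)]⟩⟩,.e ⟨true,0,⟨0,[]⟩,⟨5,[(8,1),(17,1),(4,0),
  (0,0)]⟩⟩ ⟨true,0,⟨55,[(1,9),(6,7),(2,23),(7,17),(11,4),(1,45),(2,33),(7,2),(2,13)]⟩,⟨0,[(0,0)]⟩⟩,
  .o ⟨false,1,⟨1,[(3,0),(0,0),(27,0),(11,0)]⟩,⟨2,[(8,1),(4,0),(0,1),(9,0),(8,2),(2,1),(10,0)]⟩⟩,.a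
  ⟨true,0,⟨0,[(34,0)]⟩,⟨0,[(33,0)]⟩⟩ ⟨false,1,⟨3,[(31,0),(0,0),(17,1)]⟩,⟨3,[(8,0),(17,0),(20,0),(3,
  0)]⟩⟩ ⟨true,0,⟨1,[(19,0),(13,1),(1,0),(0,0)]⟩,⟨0,[(0,0)]⟩⟩]⟩) (.R ⟨0,false,false,true,[1,0,0,-1],
  [1,-1,-1],[1,1],(⟨0,[(33,0)]⟩,⟨0,[(34,0)]⟩),(⟨0,[(28,0)]⟩,⟨0,[(43,0),(2,0)]⟩),⟨0,[(2,0)]⟩,.k,.k,
  (.x (-1) ⟨15,[(15,3),(7,3),(7,6),(0,6),(11,1)]⟩ ⟨0,[(46,0)]⟩),(.r 0 ⟨23,[(0,7),(2,9),(4,6),(4,8),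
  (3,17),(4,1),(1,2),(6,6),(1,1)]⟩ ⟨3,[(16,0),(2,1),(10,0),(1,1),(8,0),(9,0)]⟩),.k,.k,⟨true,0,⟨119,
  [(8,19),(8,71),(2,23),(5,7),(4,6),(0,6),(11,5)]⟩,⟨3,[(8,0),(2,0),(7,1),(31,0)]⟩⟩,⟨false,0,⟨0,[(33,
  0),(2,0)]⟩,⟨11,[(2,5),(0,2),(0,2),(18,3),(1,1),(4,3),(1,2),(11,0),(5,7)]⟩⟩,⟨false,1,⟨3,[(31,0),(0,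
  2)]⟩,⟨17,[(0,13),(2,15),(4,3),(13,7),(1,5),(6,0),(1,1),(10,2)]⟩⟩,⟨true,0,⟨0,[(1,0),(8,0)]⟩,⟨0,[(3,
  0),(20,0)]⟩⟩,⟨false,0,⟨0,[]⟩,⟨0,[]⟩⟩,⟨false,0,⟨0,[]⟩,⟨0,[]⟩⟩,[.o ⟨false,0,⟨1,[(19,0),(15,0),(0,
  0)]⟩,⟨0,[(24,0),(26,0)]⟩⟩,.a ⟨true,0,⟨3,[(1,1),(1,1),(7,2),(21,0),(0,0)]⟩,⟨4,[(7,0),(0,0),(8,2),
  (2,0),(2,0),(1,2),(2,2)]⟩⟩ ⟨true,0,⟨0,[]⟩,⟨5,[(8,1),(17,1),(4,0),(0,0)]⟩⟩ ⟨false,0,⟨0,[(0,0)]⟩,⟨3,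
  [(3,3),(20,3),(6,0),(0,2)]⟩⟩,.o ⟨false,1,⟨1,[(3,0),(0,0),(27,0),(11,0)]⟩,⟨9,[(0,5),(7,2),(4,0),(3,
  1),(4,1),(1,0),(8,3),(10,2)]⟩⟩,.e ⟨false,1,⟨3,[(31,0),(0,0),(17,1)]⟩,⟨3,[(8,0),(17,0),(20,0),(3,
  0)]⟩⟩ ⟨false,0,⟨0,[(0,0)]⟩,⟨0,[(24,0),(9,0),(16,0)]⟩⟩]⟩)) (.R ⟨0,false,false,false,[1,0,0,-1],[1,
  0,-1],[1,0,1,0,0,0,0,-1],(⟨0,[(32,0)]⟩,⟨0,[(33,0)]⟩),(⟨0,[(41,0)]⟩,⟨0,[(42,0)]⟩),⟨0,[(1,0)]⟩,.k,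
  .k,(.x (-1) ⟨15,[(14,3),(7,3),(7,6),(0,6),(11,1)]⟩ ⟨0,[(45,0)]⟩),.k,.k,.k,⟨false,0,⟨0,[]⟩,⟨3,[(30,
  0),(0,0),(17,1)]⟩⟩,⟨true,0,⟨0,[(32,0),(2,0)]⟩,⟨9,[(1,5),(0,0),(0,0),(1,0),(16,1),(6,3),(1,0),(1,
  1)]⟩⟩,⟨true,0,⟨1,[(7,0),(2,0),(20,0)]⟩,⟨2,[(0,2),(7,0),(7,1),(1,2),(6,0),(6,2),(3,2)]⟩⟩,⟨false,1,
  ⟨23,[(7,7),(2,11),(14,7),(4,0),(0,12),(0,23),(10,5),(6,11)]⟩,⟨0,[(2,0),(33,0)]⟩⟩,⟨false,0,⟨0,[]⟩,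
  ⟨0,[]⟩⟩,⟨false,0,⟨0,[]⟩,⟨0,[]⟩⟩,[.a ⟨true,0,⟨1,[(10,0),(21,0),(0,0)]⟩,⟨5,[(8,0),(7,1),(7,1),(2,0),
  (13,2),(2,0)]⟩⟩ ⟨false,0,⟨0,[(40,0)]⟩,⟨5,[(16,1),(3,1),(9,0),(0,0),(17,1)]⟩⟩ ⟨true,0,⟨23,[(7,7),
  (2,11),(14,7),(4,0),(0,0),(0,23),(10,5)]⟩,⟨5,[(1,4),(6,0),(7,1),(5,2),(1,1),(2,0),(5,0)]⟩⟩,.o
  ⟨false,1,⟨7,[(10,3),(19,0),(0,0),(11,1),(6,3)]⟩,⟨0,[(36,0)]⟩⟩,.o ⟨false,1,⟨1,[(2,0),(0,0),(27,0),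
  (11,0)]⟩,⟨2,[(7,1),(4,0),(0,1),(9,0),(8,2),(2,1),(10,0)]⟩⟩,.e ⟨false,0,⟨0,[(26,0)]⟩,⟨11,[(4,1),
  (11,3),(13,4),(0,4)]⟩⟩ ⟨false,1,⟨7,[(10,3),(19,0),(0,0),(0,7),(10,1),(6,3)]⟩,⟨5,[(1,4),(6,0),(7,
  1),(5,2),(1,1),(2,0),(5,0)]⟩⟩]⟩)))) (.I [0,0,0,0,0,0,0,0,1] (.I [0,0,-1,-1,0,0,0,0,1] (.Q [0,0,-3,
  0,1,0,0,0,0,0,0,1] (.p true [0,0,0,1] [] (⟨0,[(32,0)]⟩,⟨0,[(31,0)]⟩) .k 0 (⟨0,[]⟩,⟨0,[]⟩) .k .k)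
  (.I [0,1,1,0,0,0,0,0,-1] (.R ⟨1,false,false,true,[0,0,0,1],[0,-1,1],[1,0,0,0,0,0,0,0,1],(⟨0,[(34,
  0)]⟩,⟨0,[(33,0)]⟩),(⟨1,[(15,0),(27,0)]⟩,⟨1,[(7,0),(0,0),(24,0),(0,0)]⟩),⟨2,[(1,0),(4,0),(11,0),
  (15,1)]⟩,.k,.k,(.r 0 ⟨0,[(2,0)]⟩ ⟨29,[(8,9),(8,5),(2,11),(5,3),(4,25),(0,10),(11,2)]⟩),(.r 0 ⟨11,
  [(3,1),(4,5),(1,3),(9,3),(11,4),(11,0)]⟩ ⟨1,[(5,0),(25,0)]⟩),.k,.k,⟨false,0,⟨5,[(2,0),(0,4),(16,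
  1),(1,0),(1,1),(2,6)]⟩,⟨1,[(5,0),(25,0),(21,1)]⟩⟩,⟨true,0,⟨0,[(1,0),(6,0),(27,0)]⟩,⟨0,[(33,0),(2,
  0)]⟩⟩,⟨true,0,⟨0,[]⟩,⟨0,[(53,0)]⟩⟩,⟨false,1,⟨3,[(1,0),(6,0),(0,0),(4,1),(16,1),(2,2),(2,1),(9,
  0)]⟩,⟨35,[(3,5),(0,27),(3,0),(2,8),(8,17),(11,0),(0,7),(6,1),(6,3)]⟩⟩,⟨false,1,⟨5,[(20,1),(3,1),
  (6,0),(0,0),(18,3)]⟩,⟨0,[(49,0)]⟩⟩,⟨false,1,⟨1,[(1,0),(29,0),(2,0),(2,1),(9,0)]⟩,⟨17,[(3,5),(0,9),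
  (3,0),(2,8),(20,0),(0,7),(6,1),(6,3)]⟩⟩,[.o ⟨false,0,⟨3,[(9,0),(9,0),(16,0),(0,2)]⟩,⟨11,[(10,3),
  (9,3),(10,0),(0,0),(11,3),(6,5)]⟩⟩,.a ⟨true,0,⟨1,[(9,0),(23,0),(0,0)]⟩,⟨3,[(11,0),(8,1),(12,0),(0,
  0)]⟩⟩ ⟨true,0,⟨1,[(2,0),(0,0),(18,0),(4,0)]⟩,⟨0,[(0,0)]⟩⟩ ⟨false,1,⟨23,[(1,15),(7,11),(21,0),(0,
  0),(1,7),(9,5)]⟩,⟨4,[(4,1),(3,0),(1,0),(2,1),(6,0),(5,0),(4,0),(1,2)]⟩⟩,.o ⟨false,0,⟨2,[(8,1),(4,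
  0),(0,1),(9,0),(8,2),(2,1),(10,0)]⟩,⟨11,[(1,3),(29,0),(0,0),(1,7),(9,5)]⟩⟩,.o ⟨false,0,⟨0,[(0,0),
  (3,0)]⟩,⟨2,[(1,2),(6,1),(4,0),(0,1),(9,0),(11,1),(10,0)]⟩⟩]⟩) (.R ⟨1,true,false,false,[0,0,1],[1,
  1,-1],[0,1,0,-1,0,0,0,1],(⟨0,[(43,0)]⟩,⟨0,[(42,0)]⟩),(⟨1,[(7,0),(0,0),(24,0),(0,0)]⟩,⟨1,[(15,0),
  (27,0)]⟩),⟨1,[(15,0),(27,0)]⟩,.k,.k,.k,(.r (-1) ⟨5,[(5,3),(11,1),(13,0),(0,0)]⟩ ⟨3,[(8,1),(1,3),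
  (19,1),(0,0),(0,0)]⟩),(.r (-1) ⟨0,[(0,1),(16,1),(1,1),(11,0)]⟩ ⟨11,[(8,11),(1,7),(9,7),(10,4),(0,
  4),(11,1)]⟩),.k,⟨false,1,⟨0,[(5,0),(47,0)]⟩,⟨9,[(8,4),(1,3),(9,7),(6,3),(2,2),(13,1),(6,2)]⟩⟩,
  ⟨true,1,⟨8,[(5,0),(10,5),(0,1),(8,2),(4,0),(0,0)]⟩,⟨0,[(8,0)]⟩⟩,⟨false,0,⟨0,[(49,0)]⟩,⟨5,[(20,1),
  (3,1),(6,0),(0,0),(18,3)]⟩⟩,⟨true,0,⟨0,[(10,0)]⟩,⟨0,[(9,0),(38,0)]⟩⟩,⟨true,0,⟨0,[(53,0)]⟩,⟨0,[]⟩⟩,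
  ⟨false,1,⟨5,[(10,3),(9,3),(10,0),(0,0),(11,0),(6,2)]⟩,⟨0,[(9,0)]⟩⟩,[]⟩)) (.R ⟨1,false,false,false,
  [1,0,0,-1],[1,0,-1],[0,0,0,-1,0,0,0,0,-1],(⟨0,[(32,0)]⟩,⟨0,[(33,0)]⟩),(⟨0,[(41,0)]⟩,⟨0,[(42,0)]⟩),
  ⟨5,[(0,2),(3,1),(1,0),(2,2),(6,0),(5,5),(1,3),(7,2)]⟩,.k,.k,(.x (-1) ⟨15,[(14,3),(7,3),(7,6),(0,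
  6),(11,1)]⟩ ⟨0,[(45,0)]⟩),.k,(.r (-1) ⟨1,[(4,0),(25,0)]⟩ ⟨11,[(2,1),(4,5),(1,3),(9,3),(11,4),(11,
  0)]⟩),.k,⟨false,1,⟨1,[(4,0),(25,0)]⟩,⟨2,[(2,2),(9,0),(6,0),(6,0),(2,0)]⟩⟩,⟨true,0,⟨5,[(0,0),(24,
  2),(6,4),(10,0)]⟩,⟨0,[(7,0),(3,0),(21,0)]⟩⟩,⟨true,0,⟨0,[(48,0)]⟩,⟨0,[(47,0)]⟩⟩,⟨false,0,⟨17,[(2,
  5),(0,9),(3,0),(2,8),(20,0),(0,7),(6,1),(6,3)]⟩,⟨1,[(4,0),(18,1),(2,1),(3,0),(2,1)]⟩⟩,⟨false,1,⟨3,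
  [(30,0),(0,0),(18,1)]⟩,⟨0,[]⟩⟩,⟨false,0,⟨35,[(2,5),(0,27),(3,0),(2,8),(8,17),(11,0),(0,7),(6,1),
  (6,3)]⟩,⟨1,[(7,0),(0,0),(2,1),(18,0),(2,1)]⟩⟩,[.e ⟨false,1,⟨5,[(18,1),(1,1),(9,2),(19,0)]⟩,⟨5,[(1,
  0),(0,4),(16,1),(1,0),(1,1),(2,0)]⟩⟩ ⟨false,0,⟨1,[(0,1),(3,0),(1,0),(2,1),(12,1),(1,1)]⟩,⟨15,[(20,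
  7),(2,7),(5,3),(0,0),(0,0),(1,15),(9,1),(6,3)]⟩⟩,.o ⟨false,1,⟨7,[(10,3),(19,0),(0,0),(11,1),(6,
  3)]⟩,⟨0,[(36,0)]⟩⟩,.o ⟨false,1,⟨1,[(33,1),(9,0),(5,0)]⟩,⟨2,[(0,0),(31,1),(10,0)]⟩⟩,.a ⟨true,0,⟨0,
  [(33,0)]⟩,⟨0,[(32,0)]⟩⟩ ⟨false,1,⟨1,[(4,0),(21,1),(3,0)]⟩,⟨26,[(2,10),(4,7),(4,5),(3,2),(2,5),(1,
  5),(3,1),(5,7)]⟩⟩ ⟨true,0,⟨1,[(0,1),(3,0),(1,0),(2,1),(12,1),(1,1)]⟩,⟨0,[(33,0),(2,0)]⟩⟩]⟩)) (.Q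
  [0,0,0,0,0,0,-1,-1,0,0,1,-1] (.p true [0,0,1] [0,0,0,1] (⟨0,[(41,0)]⟩,⟨0,[(40,0)]⟩) .k 2 (⟨0,[(32,
  0)]⟩,⟨0,[(31,0)]⟩) .k (.r (-1) ⟨5,[(3,0),(11,1),(13,3),(0,0)]⟩ ⟨0,[(1,0),(37,0)]⟩)) (.R ⟨1,false,
  false,false,[1,0,0,-1],[1,0,-1],[1,0,0,0,0,0,0,0,-1],(⟨0,[(32,0)]⟩,⟨0,[(33,0)]⟩),(⟨0,[(41,0)]⟩,⟨0,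
  [(42,0)]⟩),⟨11,[(0,5),(3,0),(0,0),(10,1),(5,5),(1,1),(7,5)]⟩,.k,.k,(.x (-1) ⟨15,[(14,3),(7,3),(7,
  6),(0,6),(11,1)]⟩ ⟨0,[(45,0)]⟩),.k,(.r (-1) ⟨1,[(4,0),(25,0)]⟩ ⟨11,[(2,1),(4,5),(1,3),(9,3),(11,
  4),(11,0)]⟩),.k,⟨false,1,⟨0,[(1,0),(18,0)]⟩,⟨0,[(2,0),(37,0)]⟩⟩,⟨true,0,⟨0,[(32,0),(2,0)]⟩,⟨0,[(7,
  0),(3,0),(21,0)]⟩⟩,⟨true,0,⟨0,[]⟩,⟨0,[(52,0)]⟩⟩,⟨false,0,⟨17,[(2,5),(0,9),(3,0),(2,8),(20,0),(0,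
  7),(6,1),(6,3)]⟩,⟨15,[(1,1),(4,0),(1,5),(2,7),(10,1),(0,9),(0,1),(1,5),(3,6),(2,15),(12,1)]⟩⟩,
  ⟨false,1,⟨5,[(19,1),(3,1),(6,0),(0,0),(18,3)]⟩,⟨0,[(48,0)]⟩⟩,⟨false,0,⟨35,[(2,5),(0,27),(3,0),(2,
  8),(8,17),(11,0),(0,7),(6,1),(6,3)]⟩,⟨1,[(7,0),(0,0),(2,1),(18,0),(2,1)]⟩⟩,[.e ⟨false,1,⟨1,[(30,
  0),(18,0)]⟩,⟨0,[(2,0)]⟩⟩ ⟨false,0,⟨0,[(0,0)]⟩,⟨15,[(20,7),(2,7),(5,3),(0,0),(0,0),(1,15),(9,1),(6,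
  3)]⟩⟩,.o ⟨false,1,⟨7,[(10,3),(19,0),(0,0),(11,1),(6,3)]⟩,⟨0,[(36,0)]⟩⟩,.o ⟨false,1,⟨1,[(33,1),(9,
  0),(5,0)]⟩,⟨9,[(0,5),(6,2),(0,0),(7,1),(15,3),(2,1),(7,2)]⟩⟩,.a ⟨true,0,⟨0,[(33,0)]⟩,⟨0,[(32,
  0)]⟩⟩ ⟨false,1,⟨5,[(1,1),(2,0),(1,0),(4,1),(10,1),(1,1),(1,1),(3,1),(15,1)]⟩,⟨2,[(2,0),(4,0),(17,
  0),(5,0)]⟩⟩ ⟨true,0,⟨0,[(0,0)]⟩,⟨0,[(33,0),(2,0)]⟩⟩]⟩) (.R ⟨1,false,false,false,[0,0,0,1],[0,-1,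
  1],[1,0,0,0,0,0,0,0,1],(⟨0,[(33,0)]⟩,⟨0,[(32,0)]⟩),(⟨1,[(14,0),(27,0)]⟩,⟨1,[(6,0),(0,0),(24,0),(0,
  0)]⟩),⟨3,[(0,1),(9,0),(3,0),(7,0),(10,1)]⟩,.k,.k,(.x 0 ⟨2,[(5,0),(1,0),(9,0),(7,0),(4,0),(0,0)]⟩
  ⟨11,[(6,3),(17,3),(5,0),(0,0),(17,5)]⟩),(.r 0 ⟨11,[(2,1),(4,5),(1,3),(9,3),(11,4),(11,0)]⟩ ⟨1,[(4,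
  0),(25,0)]⟩),.k,.k,⟨false,0,⟨2,[(2,2),(9,0),(6,0),(6,0),(2,0)]⟩,⟨1,[(4,0),(25,0)]⟩⟩,⟨true,0,⟨0,
  [(0,0),(39,0)]⟩,⟨0,[(32,0),(2,0)]⟩⟩,⟨true,0,⟨0,[]⟩,⟨0,[(52,0)]⟩⟩,⟨false,1,⟨1,[(0,1),(3,0),(21,1),
  (3,0)]⟩,⟨12,[(3,10),(3,0),(4,2),(6,3),(8,1),(2,0),(0,1),(4,5)]⟩⟩,⟨false,1,⟨5,[(19,1),(3,1),(6,0),
  (0,0),(18,3)]⟩,⟨0,[(48,0)]⟩⟩,⟨false,1,⟨5,[(0,5),(0,1),(2,0),(1,0),(4,1),(10,1),(1,1),(1,1),(3,1),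
  (15,1)]⟩,⟨0,[(3,0),(33,0)]⟩⟩,[.a ⟨true,0,⟨1,[(8,0),(23,0),(0,0)]⟩,⟨3,[(10,0),(8,1),(12,0),(0,
  0)]⟩⟩ ⟨true,0,⟨0,[(2,0)]⟩,⟨5,[(1,5),(6,0),(9,1),(6,0),(20,0)]⟩⟩ ⟨false,1,⟨5,[(0,5),(17,1),(1,1),
  (28,2),(0,0)]⟩,⟨3,[(1,1),(1,1),(5,0),(2,0),(19,1),(4,0)]⟩⟩,.o ⟨false,1,⟨7,[(8,3),(21,0),(0,0),(11,
  1),(6,3)]⟩,⟨0,[(12,0)]⟩⟩,.o ⟨false,0,⟨2,[(7,1),(4,0),(0,1),(9,0),(8,2),(2,1),(10,0)]⟩,⟨1,[(33,1),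
  (9,0),(5,0)]⟩⟩,.o ⟨false,0,⟨11,[(7,7),(17,7),(4,0),(0,0),(0,11),(10,5)]⟩,⟨13,[(0,13),(10,5),(0,3),
  (2,1),(2,1),(7,5),(16,0),(5,4)]⟩⟩]⟩))) (.Q [0,0,0,0,0,-1,0,0,0,0,0,1] (.ed false [1,-1,0,1] .k)
  (.I [0,1,0,-1,0,0,0,0,1] (.R ⟨1,false,false,false,[0,0,0,1],[0,0,1],[0,1,0,-1,0,0,0,0,1],(⟨0,[(33,
  0)]⟩,⟨0,[(32,0)]⟩),(⟨0,[(42,0)]⟩,⟨0,[(41,0)]⟩),⟨0,[(1,0)]⟩,.k,.k,(.r (-1) ⟨5,[(18,1),(1,1),(10,2),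
  (18,0)]⟩ ⟨26,[(2,10),(4,7),(4,5),(3,2),(2,5),(1,5),(3,1),(4,7)]⟩),.k,(.r (-1) ⟨3,[(15,0),(2,1),
  (10,0),(1,1),(8,0),(9,0)]⟩ ⟨26,[(2,18),(4,3),(4,2),(3,14),(2,2),(1,2),(3,0),(4,3)]⟩),.k,⟨true,0,
  ⟨5,[(0,3),(6,0),(1,1),(8,1),(10,0),(1,0)]⟩,⟨0,[(2,0),(18,0)]⟩⟩,⟨false,1,⟨0,[(11,0),(17,0),(3,0)]⟩,
  ⟨0,[(32,0),(2,0)]⟩⟩,⟨false,0,⟨0,[(48,0)]⟩,⟨5,[(19,1),(3,1),(6,0),(0,0),(18,3)]⟩⟩,⟨false,1,⟨19,[(2,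
  19),(8,5),(8,9),(2,9),(5,7),(3,19),(9,0),(2,11),(3,2)]⟩,⟨0,[(3,0),(33,0)]⟩⟩,⟨true,0,⟨0,[(52,0)]⟩,
  ⟨0,[]⟩⟩,⟨false,1,⟨0,[(2,0),(20,0),(9,0),(12,0),(2,0)]⟩,⟨1,[(3,1),(14,0),(18,0),(1,0)]⟩⟩,[.a ⟨true,
  0,⟨5,[(8,0),(7,1),(7,1),(2,0),(13,2),(2,0)]⟩,⟨1,[(10,0),(21,0),(0,0)]⟩⟩ ⟨true,0,⟨0,[(0,0)]⟩,⟨11,
  [(2,9),(4,1),(11,3),(1,3),(8,0),(12,0),(2,3)]⟩⟩ ⟨false,1,⟨7,[(1,5),(4,1),(1,0),(2,3),(8,1),(2,3),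
  (0,1),(4,2),(3,1),(12,1)]⟩,⟨9,[(3,3),(3,1),(2,2),(14,1),(4,1),(1,5),(1,2),(2,0)]⟩⟩,.o ⟨false,1,
  ⟨15,[(8,3),(14,7),(6,0),(0,0),(11,1),(6,11)]⟩,⟨0,[(34,0)]⟩⟩,.o ⟨false,0,⟨5,[(2,1),(0,1),(3,0),(24,
  3),(1,0),(0,1),(0,0),(6,0)]⟩,⟨1,[(33,1),(9,0),(5,0)]⟩⟩,.o ⟨false,0,⟨11,[(7,7),(17,7),(4,0),(0,0),
  (0,11),(10,5)]⟩,⟨0,[(7,0),(3,1),(21,0)]⟩⟩]⟩) (.R ⟨1,false,false,true,[1,0,0,-1],[1,0,-1],[1,0,0,0,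
  0,0,0,0,-1],(⟨0,[(32,0)]⟩,⟨0,[(33,0)]⟩),(⟨0,[(41,0)]⟩,⟨0,[(42,0)]⟩),⟨11,[(0,5),(2,5),(0,0),(0,0),
  (10,1),(1,5),(3,5),(1,1),(3,5),(3,5)]⟩,.k,.k,(.x (-1) ⟨15,[(14,3),(7,3),(7,6),(0,6),(11,1)]⟩ ⟨0,
  [(45,0)]⟩),.k,(.r (-1) ⟨1,[(4,0),(25,0)]⟩ ⟨6,[(3,0),(3,2),(1,0),(2,1),(6,1),(6,0),(4,2),(1,0)]⟩),
  .k,⟨false,1,⟨13,[(0,7),(3,1),(11,1),(3,5),(9,2),(19,2)]⟩,⟨13,[(3,11),(3,0),(4,0),(5,13),(0,7),(3,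
  8),(4,1),(2,0),(1,11)]⟩⟩,⟨true,0,⟨0,[(32,0),(2,0)]⟩,⟨0,[(7,0),(3,0),(21,0)]⟩⟩,⟨true,0,⟨0,[]⟩,⟨0,
  [(52,0)]⟩⟩,⟨false,0,⟨0,[(3,0),(33,0)]⟩,⟨35,[(0,27),(7,6),(11,17),(2,3),(5,8),(0,3),(2,35),(9,7),
  (6,5)]⟩⟩,⟨false,1,⟨5,[(19,1),(3,1),(6,0),(0,0),(18,3)]⟩,⟨0,[(48,0)]⟩⟩,⟨false,0,⟨12,[(3,10),(3,0),
  (4,2),(6,3),(8,1),(2,0),(0,1),(4,5)]⟩,⟨37,[(0,23),(7,19),(4,17),(4,1),(10,7),(0,6),(2,37),(9,4),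
  (6,7)]⟩⟩,[.o ⟨false,0,⟨0,[(34,0)]⟩,⟨15,[(8,3),(14,7),(6,0),(0,0),(11,1),(6,11)]⟩⟩,.a ⟨true,0,⟨1,
  [(10,0),(21,0),(0,0)]⟩,⟨5,[(8,0),(7,1),(7,1),(2,0),(13,2),(2,0)]⟩⟩ ⟨true,0,⟨5,[(0,5),(7,0),(9,1),
  (6,0),(20,0)]⟩,⟨20,[(3,4),(3,7),(4,1),(5,5),(6,5),(2,9),(2,7),(1,4),(2,7)]⟩⟩ ⟨false,0,⟨0,[(0,0),
  (2,0),(14,0),(9,0)]⟩,⟨15,[(20,7),(2,7),(5,3),(0,0),(0,0),(1,15),(9,1),(6,3)]⟩⟩,.o ⟨false,1,⟨1,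
  [(33,1),(9,0),(5,0)]⟩,⟨5,[(2,1),(0,1),(3,0),(24,3),(1,0),(0,1),(0,0),(6,0)]⟩⟩,.e ⟨false,1,⟨11,[(0,
  5),(17,1),(1,1),(9,2),(18,2),(0,3)]⟩,⟨20,[(3,12),(3,3),(4,0),(5,2),(6,2),(2,4),(2,3),(1,12),(2,
  3)]⟩⟩ ⟨false,0,⟨0,[(0,0),(2,0),(14,0),(9,0)]⟩,⟨15,[(8,3),(14,7),(6,0),(0,0),(1,15),(9,1),(6,
  11)]⟩⟩]⟩)) (.R ⟨1,false,false,true,[1,0,0,-1],[0,1],[1,1,0,0,0,0,0,0,-1],(⟨0,[(31,0)]⟩,⟨0,[(32,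
  0)]⟩),(⟨0,[(44,0)]⟩,⟨0,[(43,0)]⟩),⟨2,[(0,0),(12,0),(7,0),(9,1)]⟩,.k,.k,(.x (-1) ⟨15,[(13,3),(7,3),
  (7,6),(0,6),(11,1)]⟩ ⟨0,[(44,0)]⟩),(.x (-1) ⟨15,[(13,3),(7,3),(7,6),(0,6),(11,1)]⟩ ⟨0,[(44,0)]⟩),
  (.r (-1) ⟨3,[(1,1),(1,0),(13,1),(1,1),(5,1),(3,0)]⟩ ⟨9,[(6,5),(8,3),(2,7),(11,4),(3,3),(7,0)]⟩),
  .k,⟨false,1,⟨7,[(1,5),(15,1),(1,3),(5,1),(3,0),(18,2)]⟩,⟨6,[(2,4),(3,0),(4,0),(6,0),(3,1),(4,1),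
  (2,0),(1,4)]⟩⟩,⟨true,0,⟨0,[(31,0)]⟩,⟨2,[(6,1),(4,0),(0,1),(9,0),(9,2),(1,1),(10,0)]⟩⟩,⟨false,0,⟨0,
  []⟩,⟨3,[(29,0),(0,0),(18,1)]⟩⟩,⟨false,0,⟨19,[(2,9),(3,4),(8,1),(2,3),(4,1),(2,0),(0,9),(2,4),(0,
  9),(8,2),(2,0)]⟩,⟨4,[(1,4),(5,0),(4,1),(6,0),(5,2),(6,4),(9,1),(2,0)]⟩⟩,⟨true,0,⟨0,[(46,0)]⟩,⟨0,
  [(47,0)]⟩⟩,⟨false,0,⟨4,[(2,2),(3,0),(8,0),(2,2),(3,0),(0,0),(2,0),(0,1),(2,0),(0,1),(8,0)]⟩,⟨19,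
  [(1,17),(5,5),(4,11),(4,7),(7,3),(3,0),(2,19),(9,6),(2,11)]⟩⟩,[.o ⟨false,0,⟨0,[(46,0)]⟩,⟨5,[(7,0),
  (9,1),(6,0),(17,2),(2,0),(3,2)]⟩⟩,.a ⟨true,0,⟨4,[(15,0),(2,1),(4,0),(7,1),(0,1),(7,1),(2,0)]⟩,⟨0,
  [(47,0)]⟩⟩ ⟨true,0,⟨0,[(1,0)]⟩,⟨20,[(2,12),(3,3),(4,0),(5,2),(6,2),(2,4),(2,3),(1,12),(2,3)]⟩⟩
  ⟨false,0,⟨4,[(0,1),(14,0),(2,1),(2,0),(1,0),(2,0),(4,2)]⟩,⟨5,[(17,1),(1,1),(12,5),(9,2),(6,0)]⟩⟩,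
  .o ⟨false,1,⟨1,[(32,1),(9,0),(5,0)]⟩,⟨10,[(0,2),(3,0),(1,1),(9,0),(14,7),(2,3),(7,2)]⟩⟩,.e ⟨false,
  1,⟨1,[(29,0),(18,0)]⟩,⟨0,[(2,0),(29,0)]⟩⟩ ⟨false,0,⟨4,[(0,1),(14,0),(2,1),(2,0),(1,0),(2,0),(4,
  2)]⟩,⟨5,[(7,0),(9,1),(6,0),(7,5),(9,2),(2,0),(3,2)]⟩⟩]⟩))))))) (.R ⟨1,false,false,false,[0,-1,1],
  [1,0,-1],[0,0,1],(⟨1,[(7,0),(27,0)]⟩,⟨0,[(34,0),(3,0)]⟩),(⟨0,[(34,0)]⟩,⟨0,[(35,0)]⟩),⟨0,[(7,0)]⟩,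
  .k,.k,(.r (-1) ⟨5,[(0,2),(0,2),(9,1),(1,1),(29,0)]⟩ ⟨1,[(12,1),(18,2),(0,0)]⟩),(.r (-1) ⟨29,[(1,
  7),(7,9),(3,23),(4,7),(4,2),(0,2)]⟩ ⟨5,[(12,2),(17,1),(0,4),(1,6),(5,0)]⟩),(.r (-1) ⟨0,[(0,0),(0,
  0)]⟩ ⟨2,[(12,2),(17,1),(0,4),(1,0),(5,0)]⟩),.k,⟨true,0,⟨11,[(1,1),(7,3),(8,1),(12,2),(0,2)]⟩,⟨0,
  [(33,0)]⟩⟩,⟨false,1,⟨0,[(0,0)]⟩,⟨1,[(22,1),(8,0),(0,0)]⟩⟩,⟨false,0,⟨7,[(12,3),(17,3),(0,8),(0,0),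
  (6,5)]⟩,⟨0,[(13,0)]⟩⟩,⟨true,0,⟨0,[(2,0)]⟩,⟨0,[(1,0),(38,0)]⟩⟩,⟨false,0,⟨3,[(12,3),(18,4),(0,0),(6,
  1)]⟩,⟨5,[(0,2),(0,2),(9,1),(1,1),(29,0)]⟩⟩,⟨false,1,⟨5,[(2,3),(9,3),(10,0),(0,0),(11,0),(6,2)]⟩,
  ⟨0,[(1,0)]⟩⟩,[.a ⟨true,0,⟨1,[(3,0),(21,0),(0,0)]⟩,⟨5,[(1,0),(7,1),(7,1),(2,0),(13,2),(2,0)]⟩⟩
  ⟨true,0,⟨1,[(31,0),(0,0)]⟩,⟨0,[]⟩⟩ ⟨false,1,⟨0,[(8,0)]⟩,⟨5,[(1,0),(7,1),(12,4),(8,1),(0,1)]⟩⟩,.o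
  ⟨false,1,⟨7,[(3,3),(19,0),(0,0),(11,1),(6,3)]⟩,⟨0,[(29,0)]⟩⟩,.o ⟨false,0,⟨0,[(31,0)]⟩,⟨7,[(0,3),
  (22,0),(0,0),(11,1)]⟩⟩,.o ⟨false,0,⟨1,[(31,2),(0,0)]⟩,⟨0,[(4,0)]⟩⟩]⟩)) (.Q [0,0,2,0,-1,0,2,0,0,1,
  -2] (.p false [0,0,1] [1,0,-1] (⟨0,[(34,0)]⟩,⟨0,[(33,0)]⟩) .k 2 (⟨0,[(33,0)]⟩,⟨0,[(34,0)]⟩) .k
  (.r (-1) ⟨9,[(8,7),(3,3),(9,2),(0,2),(16,3)]⟩ ⟨0,[(32,1)]⟩)) (.R ⟨1,false,false,false,[0,0,1],[1,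
  1,-1],[1],(⟨0,[(35,0)]⟩,⟨0,[(34,0)]⟩),(⟨0,[(34,0),(3,0)]⟩,⟨1,[(7,0),(27,0)]⟩),⟨1,[(7,0),(27,0)]⟩,
  .k,.k,.k,(.r (-1) ⟨9,[(9,5),(3,7),(9,0),(0,0),(16,7)]⟩ ⟨3,[(0,1),(0,1),(21,0),(0,0),(8,3)]⟩),(.r
  (-2) ⟨4,[(9,1),(3,5),(9,1),(0,1),(16,5)]⟩ ⟨0,[(0,0),(0,0)]⟩),.k,⟨false,1,⟨0,[(13,0)]⟩,⟨3,[(0,1),
  (0,1),(21,0),(0,0)]⟩⟩,⟨true,1,⟨9,[(8,5),(0,1),(3,1),(4,3),(4,0),(0,0)]⟩,⟨0,[(0,0)]⟩⟩,⟨false,0,⟨0,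
  [(19,0)]⟩,⟨4,[(9,1),(3,0),(9,1),(0,1),(16,0)]⟩⟩,⟨true,0,⟨0,[(2,0)]⟩,⟨4,[(0,2),(8,3),(1,2),(1,2),
  (3,0),(2,0),(8,1),(4,0)]⟩⟩,⟨true,0,⟨1,[(1,0),(20,0)]⟩,⟨0,[(9,0),(1,0)]⟩⟩,⟨true,0,⟨0,[(1,0)]⟩,⟨0,
  [(0,0),(8,0),(1,0),(1,0)]⟩⟩,[.a ⟨true,0,⟨3,[(3,0),(8,1),(12,0),(0,0)]⟩,⟨1,[(9,0),(7,0),(2,0),(13,
  0),(6,2)]⟩⟩ ⟨true,0,⟨0,[]⟩,⟨5,[(0,1),(17,1),(4,0),(0,0)]⟩⟩ ⟨false,1,⟨4,[(1,1),(6,2),(0,0),(13,0),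
  (0,0)]⟩,⟨0,[(0,0),(12,0)]⟩⟩,.o ⟨false,1,⟨7,[(1,3),(21,0),(0,0),(11,1),(6,3)]⟩,⟨0,[(29,0),(11,
  0)]⟩⟩,.o ⟨false,0,⟨0,[(0,0),(3,0)]⟩,⟨39,[(8,5),(0,1),(3,1),(4,13),(4,10),(0,10),(11,9)]⟩⟩,.o
  ⟨false,0,⟨0,[(31,0)]⟩,⟨39,[(8,17),(0,5),(3,5),(4,1),(4,2),(0,2),(11,9)]⟩⟩]⟩) (.I [0,0,2,2,-1,0,0,
  -2] (.R ⟨1,false,false,true,[0,-1,1],[1,0,-1],[1,0,-1,-1,0,0,0,1],(⟨1,[(8,0),(27,0)]⟩,⟨0,[(35,0),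
  (3,0)]⟩),(⟨0,[(35,0)]⟩,⟨0,[(36,0)]⟩),⟨0,[(8,0)]⟩,.k,.k,(.r (-1) ⟨0,[(14,0),(27,0)]⟩ ⟨11,[(0,9),(9,
  3),(13,4),(0,4)]⟩),(.r (-1) ⟨9,[(10,5),(3,7),(9,0),(0,0),(16,7)]⟩ ⟨3,[(0,1),(23,0),(0,0),(8,3)]⟩),
  (.r (-2) ⟨4,[(10,1),(3,5),(9,1),(0,1),(16,5)]⟩ ⟨0,[(0,0)]⟩),.k,⟨true,1,⟨1,[(10,0),(3,1),(25,0),(1,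
  0)]⟩,⟨1,[(0,1),(11,0),(17,0),(2,0)]⟩⟩,⟨false,1,⟨0,[(1,0)]⟩,⟨1,[(23,1),(8,0),(0,0)]⟩⟩,⟨true,0,⟨0,
  []⟩,⟨0,[(46,0)]⟩⟩,⟨false,0,⟨0,[(3,0)]⟩,⟨19,[(10,15),(3,7),(8,19),(0,0),(0,0),(16,27),(1,9)]⟩⟩,
  ⟨false,1,⟨5,[(13,1),(3,1),(6,0),(0,0),(18,3)]⟩,⟨0,[(42,0)]⟩⟩,⟨false,0,⟨0,[(2,0)]⟩,⟨19,[(10,15),(3,
  7),(8,19),(0,0),(0,0),(16,47),(1,9)]⟩⟩,[.o ⟨false,0,⟨0,[(28,0)]⟩,⟨0,[(30,0),(13,0)]⟩⟩,.a ⟨true,0,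
  ⟨1,[(4,0),(21,0),(0,0)]⟩,⟨1,[(10,0),(7,0),(2,0),(13,0),(6,0)]⟩⟩ ⟨true,1,⟨5,[(10,0),(3,3),(25,0),
  (1,2),(1,1)]⟩,⟨0,[(0,0),(9,0),(1,0)]⟩⟩ ⟨false,1,⟨0,[(9,0)]⟩,⟨3,[(10,1),(12,3),(8,0),(0,0),(8,
  1)]⟩⟩,.o ⟨false,0,⟨0,[(32,0)]⟩,⟨7,[(1,3),(22,0),(0,0),(11,1)]⟩⟩,.o ⟨false,0,⟨1,[(32,2),(0,0)]⟩,⟨0,
  [(5,0)]⟩⟩]⟩) (.I [0,0,0,0,0,0,0,0,1] (.Q [0,0,0,0,0,-1,0,0,0,1,0,-1] (.ed true [0,1,0,1] .k) (.Q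
  [0,0,0,0,0,0,-1,-1,0,0,1,-1] (.p true [0,0,1] [0,0,0,1] (⟨0,[(38,0)]⟩,⟨0,[(37,0)]⟩) .k 2 (⟨0,[(29,
  0)]⟩,⟨0,[(28,0)]⟩) .k (.r (-1) ⟨5,[(2,0),(9,1),(13,3),(0,0)]⟩ ⟨0,[(1,0),(34,0)]⟩)) (.I [1,-1,-1,0,
  1,0,0,0,-1] (.I [1,0,-1,0,1,0,0,1,-1] (.R ⟨1,false,false,false,[1,0,0,-1],[1,0,-1],[1,0,0,0,0,0,0,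
  0,-1],(⟨0,[(31,0)]⟩,⟨0,[(32,0)]⟩),(⟨0,[(40,0)]⟩,⟨0,[(41,0)]⟩),⟨0,[(3,0)]⟩,.k,.k,(.x (-1) ⟨15,[(13,
  3),(7,3),(7,6),(0,6),(11,1)]⟩ ⟨0,[(44,0)]⟩),.k,(.r (-1) ⟨1,[(5,0),(23,0)]⟩ ⟨5,[(4,5),(13,2),(17,
  1),(0,4),(1,0),(5,0)]⟩),.k,⟨false,1,⟨0,[(0,0)]⟩,⟨0,[(4,0),(34,0)]⟩⟩,⟨true,0,⟨0,[(31,0),(2,0)]⟩,⟨0,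
  [(25,0),(6,0),(2,0)]⟩⟩,⟨true,0,⟨0,[]⟩,⟨0,[(51,0)]⟩⟩,⟨false,0,⟨3,[(2,3),(1,3),(32,0),(0,0),(6,1)]⟩,
  ⟨0,[(1,0),(30,0),(2,0)]⟩⟩,⟨false,1,⟨5,[(18,1),(3,1),(6,0),(0,0),(18,3)]⟩,⟨0,[(47,0)]⟩⟩,⟨false,0,
  ⟨2,[(2,1),(1,2),(2,0),(12,0),(10,0),(5,0),(7,0)]⟩,⟨5,[(1,3),(3,0),(11,1),(11,0),(2,5),(2,5),(9,
  1)]⟩⟩,[.e ⟨false,1,⟨1,[(29,0),(18,0)]⟩,⟨0,[(4,0)]⟩⟩ ⟨false,0,⟨0,[(2,0)]⟩,⟨13,[(0,1),(18,5),(2,5),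
  (5,3),(1,0),(1,13),(9,1),(6,2)]⟩⟩,.o ⟨false,1,⟨7,[(9,3),(19,0),(0,0),(11,1),(6,3)]⟩,⟨0,[(35,0)]⟩⟩,
  .o ⟨false,1,⟨1,[(32,1),(9,0),(5,0)]⟩,⟨2,[(2,1),(28,0),(2,0),(0,1),(1,0),(7,0)]⟩⟩,.a ⟨true,0,⟨0,
  [(32,0)]⟩,⟨0,[(31,0)]⟩⟩ ⟨false,1,⟨0,[(1,0)]⟩,⟨1,[(4,1),(32,0),(0,0)]⟩⟩ ⟨true,0,⟨0,[(2,0)]⟩,⟨0,
  [(32,0),(2,0)]⟩⟩]⟩) (.R ⟨1,false,false,false,[1,0,0,-1],[1,0,-1],[0,1,0,-1,0,0,0,0,-1],(⟨0,[(31,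
  0)]⟩,⟨0,[(32,0)]⟩),(⟨0,[(40,0)]⟩,⟨0,[(41,0)]⟩),⟨0,[(3,0)]⟩,.k,.k,(.x (-1) ⟨15,[(13,3),(7,3),(7,6),
  (0,6),(11,1)]⟩ ⟨0,[(44,0)]⟩),.k,(.r (-1) ⟨1,[(5,0),(23,0)]⟩ ⟨15,[(0,5),(17,7),(11,4),(5,1),(0,9),
  (11,0)]⟩),.k,⟨false,1,⟨1,[(5,0),(23,0),(21,1)]⟩,⟨3,[(0,0),(3,2),(13,0),(1,0),(1,0),(2,3),(22,
  0)]⟩⟩,⟨true,0,⟨0,[(31,0),(2,0)]⟩,⟨0,[(25,0),(6,0),(2,0)]⟩⟩,⟨false,0,⟨0,[(47,0)]⟩,⟨5,[(18,1),(3,1),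
  (6,0),(0,0),(18,3)]⟩⟩,⟨false,0,⟨27,[(0,9),(1,23),(2,0),(9,1),(14,8),(0,3),(2,3),(10,13)]⟩,⟨0,[(1,
  0),(30,0),(2,0)]⟩⟩,⟨true,0,⟨0,[(51,0)]⟩,⟨0,[]⟩⟩,⟨false,0,⟨5,[(0,1),(1,1),(1,1),(2,1),(12,1),(9,0),
  (0,3),(10,0),(2,1)]⟩,⟨5,[(1,3),(3,0),(11,1),(11,0),(2,5),(2,5),(9,1)]⟩⟩,[.e ⟨false,1,⟨11,[(17,3),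
  (1,3),(9,6),(0,0),(20,7)]⟩,⟨0,[(0,0),(19,0),(27,0)]⟩⟩ ⟨false,0,⟨0,[(2,0)]⟩,⟨15,[(19,7),(2,7),(5,
  3),(0,0),(0,0),(1,15),(9,1),(6,3)]⟩⟩,.o ⟨false,1,⟨7,[(9,3),(19,0),(0,0),(11,1),(6,3)]⟩,⟨0,[(35,
  0)]⟩⟩,.o ⟨false,1,⟨1,[(32,1),(9,0),(5,0)]⟩,⟨2,[(2,1),(28,0),(2,0),(0,1),(1,0),(7,0)]⟩⟩,.a ⟨true,0,
  ⟨0,[(32,0)]⟩,⟨0,[(31,0)]⟩⟩ ⟨false,1,⟨5,[(17,1),(1,1),(9,2),(19,0)]⟩,⟨5,[(0,2),(3,0),(13,0),(1,2),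
  (1,0),(7,0),(18,1)]⟩⟩ ⟨true,0,⟨0,[(2,0)]⟩,⟨0,[(32,0),(2,0)]⟩⟩]⟩)) (.R ⟨1,false,false,false,[1,0,0,
  -1],[1,0,-1],[1,0,1,0,0,0,0,-1],(⟨0,[(30,0)]⟩,⟨0,[(31,0)]⟩),(⟨0,[(39,0)]⟩,⟨0,[(40,0)]⟩),⟨0,[(2,
  0)]⟩,.k,.k,(.x (-1) ⟨15,[(12,3),(7,3),(7,6),(0,6),(11,1)]⟩ ⟨0,[(43,0)]⟩),.k,(.r (-1) ⟨1,[(4,0),
  (23,0)]⟩ ⟨5,[(0,1),(16,2),(11,1),(6,2),(1,2),(5,0)]⟩),.k,⟨false,0,⟨0,[]⟩,⟨3,[(28,0),(0,0),(17,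
  1)]⟩⟩,⟨true,0,⟨0,[(30,0),(2,0)]⟩,⟨0,[(24,0),(6,0),(2,0)]⟩⟩,⟨true,(-1),⟨0,[(0,0),(23,0)]⟩,⟨1,[(4,
  0),(23,0),(16,1)]⟩⟩,⟨false,0,⟨2,[(0,0),(0,2),(27,0),(14,1)]⟩,⟨1,[(4,0),(16,1),(2,1),(3,0),(2,
  1)]⟩⟩,⟨false,0,⟨5,[(0,1),(5,2),(20,2),(1,1),(14,3)]⟩,⟨1,[(4,0),(23,0)]⟩⟩,⟨false,0,⟨8,[(0,1),(0,5),
  (1,2),(2,2),(14,2),(7,1),(0,2),(13,6)]⟩,⟨1,[(4,0),(19,1),(3,0),(2,1),(2,1)]⟩⟩,[.e ⟨false,0,⟨0,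
  [(38,0)]⟩,⟨5,[(14,1),(3,1),(9,0),(0,0),(17,1)]⟩⟩ ⟨false,0,⟨0,[(1,0)]⟩,⟨15,[(18,7),(2,7),(5,3),(0,
  0),(0,0),(1,15),(9,1),(6,3)]⟩⟩,.o ⟨false,1,⟨7,[(8,3),(19,0),(0,0),(11,1),(6,3)]⟩,⟨0,[(34,0)]⟩⟩,.o
  ⟨false,1,⟨1,[(31,1),(9,0),(5,0)]⟩,⟨2,[(1,1),(28,0),(2,0),(0,1),(1,0),(7,0)]⟩⟩,.a ⟨true,0,⟨0,[(31,
  0)]⟩,⟨0,[(30,0)]⟩⟩ ⟨false,0,⟨0,[(24,0)]⟩,⟨11,[(4,1),(9,3),(13,4),(0,4)]⟩⟩ ⟨true,0,⟨0,[(1,0)]⟩,⟨0,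
  [(31,0),(2,0)]⟩⟩]⟩)) (.I [1,-1,-1,0,1,0,0,0,-1] (.I [1,0,-1,0,1,0,0,1,-1] (.R ⟨1,false,false,
  false,[1,0,0,-1],[1,0,-1],[1,0,0,0,0,0,0,0,-1],(⟨0,[(31,0)]⟩,⟨0,[(32,0)]⟩),(⟨0,[(40,0)]⟩,⟨0,[(41,
  0)]⟩),⟨0,[(3,0)]⟩,.k,.k,(.x (-1) ⟨15,[(13,3),(7,3),(7,6),(0,6),(11,1)]⟩ ⟨0,[(44,0)]⟩),.k,(.r (-1)
  ⟨1,[(5,0),(23,0)]⟩ ⟨5,[(4,5),(13,2),(17,1),(0,4),(1,0),(5,0)]⟩),.k,⟨false,1,⟨0,[(0,0)]⟩,⟨0,[(4,0),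
  (34,0)]⟩⟩,⟨true,0,⟨0,[(31,0),(2,0)]⟩,⟨0,[(2,0),(36,0)]⟩⟩,⟨true,0,⟨0,[]⟩,⟨0,[(51,0)]⟩⟩,⟨false,0,⟨0,
  [(4,0),(20,0),(5,0),(2,0)]⟩,⟨1,[(2,1),(26,0),(18,0)]⟩⟩,⟨false,1,⟨5,[(18,1),(3,1),(6,0),(0,0),(18,
  3)]⟩,⟨0,[(47,0)]⟩⟩,⟨false,0,⟨0,[(4,0),(6,0),(19,0),(13,0)]⟩,⟨5,[(2,5),(14,1),(1,1),(9,2),(19,
  0)]⟩⟩,[.a ⟨true,0,⟨1,[(9,0),(21,0),(0,0)]⟩,⟨0,[(2,0),(28,0)]⟩⟩ ⟨false,1,⟨1,[(29,0),(18,0)]⟩,⟨0,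
  [(4,0)]⟩⟩ ⟨true,0,⟨1,[(9,0),(21,1),(2,0),(2,0)]⟩,⟨0,[(2,0)]⟩⟩,.o ⟨false,1,⟨7,[(9,3),(19,0),(0,0),
  (11,1),(6,3)]⟩,⟨0,[(35,0)]⟩⟩,.o ⟨false,1,⟨1,[(32,1),(9,0),(5,0)]⟩,⟨0,[(25,0),(5,0),(2,0),(0,0)]⟩⟩,
  .e ⟨false,1,⟨0,[(1,0)]⟩,⟨1,[(4,1),(32,0),(0,0)]⟩⟩ ⟨false,1,⟨7,[(9,3),(19,0),(0,0),(0,7),(10,1),(6,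
  3)]⟩,⟨0,[(2,0)]⟩⟩]⟩) (.R ⟨1,false,false,false,[1,0,0,-1],[1,0,-1],[0,1,0,-1,0,0,0,0,-1],(⟨0,[(31,
  0)]⟩,⟨0,[(32,0)]⟩),(⟨0,[(40,0)]⟩,⟨0,[(41,0)]⟩),⟨0,[(3,0)]⟩,.k,.k,(.x (-1) ⟨15,[(13,3),(7,3),(7,6),
  (0,6),(11,1)]⟩ ⟨0,[(44,0)]⟩),.k,(.r (-1) ⟨1,[(5,0),(23,0)]⟩ ⟨15,[(0,5),(17,7),(11,4),(5,1),(0,9),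
  (11,0)]⟩),.k,⟨false,1,⟨1,[(5,0),(23,0),(21,1)]⟩,⟨3,[(0,0),(3,2),(13,0),(1,0),(1,0),(2,3),(22,
  0)]⟩⟩,⟨true,0,⟨0,[(31,0),(2,0)]⟩,⟨0,[(2,0),(36,0)]⟩⟩,⟨false,0,⟨0,[(47,0)]⟩,⟨5,[(18,1),(3,1),(6,0),
  (0,0),(18,3)]⟩⟩,⟨false,0,⟨23,[(0,13),(5,2),(2,4),(14,3),(5,4),(0,23),(10,5),(2,11)]⟩,⟨1,[(2,1),
  (26,0),(18,0)]⟩⟩,⟨true,0,⟨0,[(51,0)]⟩,⟨0,[]⟩⟩,⟨false,0,⟨47,[(0,27),(5,5),(0,16),(12,13),(3,0),(5,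
  9),(0,47),(10,11),(2,16)]⟩,⟨5,[(2,5),(14,1),(1,1),(9,2),(19,0)]⟩⟩,[.a ⟨true,0,⟨1,[(9,0),(21,0),(0,
  0)]⟩,⟨0,[(2,0),(28,0)]⟩⟩ ⟨false,1,⟨11,[(17,3),(1,3),(9,6),(0,0),(20,7)]⟩,⟨0,[(0,0),(19,0),(27,
  0)]⟩⟩ ⟨true,0,⟨1,[(9,0),(21,1),(2,0),(2,0)]⟩,⟨0,[(2,0)]⟩⟩,.o ⟨false,1,⟨7,[(9,3),(19,0),(0,0),(11,
  1),(6,3)]⟩,⟨0,[(35,0)]⟩⟩,.o ⟨false,1,⟨1,[(32,1),(9,0),(5,0)]⟩,⟨0,[(25,0),(5,0),(2,0),(0,0)]⟩⟩,.e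
  ⟨false,1,⟨5,[(17,1),(1,1),(9,2),(19,0)]⟩,⟨5,[(0,2),(3,0),(13,0),(1,2),(1,0),(7,0),(18,1)]⟩⟩
  ⟨false,1,⟨7,[(9,3),(19,0),(0,0),(0,7),(10,1),(6,3)]⟩,⟨0,[(2,0)]⟩⟩]⟩)) (.R ⟨1,false,false,false,[1,
  0,0,-1],[0,0,0,1],[1,0,0,0,0,0,0,0,-1],(⟨0,[(30,0)]⟩,⟨0,[(31,0)]⟩),(⟨0,[(31,0)]⟩,⟨0,[(30,0)]⟩),⟨0,
  [(2,0)]⟩,.k,.k,(.x (-1) ⟨15,[(12,3),(7,3),(7,6),(0,6),(11,1)]⟩ ⟨0,[(43,0)]⟩),.k,(.r (-2) ⟨11,[(16,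
  3),(1,3),(9,14),(0,2),(18,1)]⟩ ⟨14,[(0,22),(2,6),(5,7),(7,0),(1,11),(1,0),(0,3),(1,11),(0,3),(13,
  3)]⟩),.k,⟨true,1,⟨0,[(28,0)]⟩,⟨1,[(0,2),(2,0),(14,0),(0,0),(4,1)]⟩⟩,⟨false,0,⟨0,[(24,0),(5,1),(2,
  0),(0,0)]⟩,⟨7,[(1,11),(4,1),(6,3),(2,1),(7,1),(6,3),(9,0),(5,2)]⟩⟩,⟨true,0,⟨0,[]⟩,⟨0,[(50,0)]⟩⟩,
  ⟨false,(-1),⟨9,[(0,19),(3,0),(4,5),(11,1),(2,3),(2,1),(2,19),(10,2),(2,13)]⟩,⟨7,[(1,11),(4,1),(6,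
  3),(2,1),(7,1),(3,7),(2,3),(9,0),(5,2)]⟩⟩,⟨false,1,⟨5,[(17,1),(3,1),(6,0),(0,0),(18,3)]⟩,⟨0,[(46,
  0)]⟩⟩,⟨false,(-1),⟨20,[(0,36),(2,4),(2,1),(2,12),(11,16),(2,12),(5,41),(10,2),(2,30)]⟩,⟨5,[(1,5),
  (9,1),(1,1),(2,1),(7,1),(3,5),(2,5),(9,0),(5,0)]⟩⟩,[.o ⟨false,0,⟨5,[(0,3),(28,0),(0,5),(10,2),(2,
  1)]⟩,⟨1,[(1,1),(8,0),(0,0),(12,0),(3,0)]⟩⟩,.o ⟨false,0,⟨6,[(0,4),(2,1),(5,1),(17,0),(2,6),(10,2),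
  (2,5)]⟩,⟨5,[(1,5),(8,1),(2,1),(2,1),(11,2),(12,0),(3,1)]⟩⟩,.o ⟨false,1,⟨1,[(31,1),(9,0),(5,0)]⟩,
  ⟨0,[(24,0),(5,0),(2,0),(0,0)]⟩⟩,.a ⟨true,0,⟨0,[(31,0)]⟩,⟨0,[(30,0)]⟩⟩ ⟨true,1,⟨1,[(28,0),(18,0)]⟩,
  ⟨0,[(0,0)]⟩⟩ ⟨false,0,⟨6,[(0,4),(2,1),(5,1),(17,0),(2,13),(10,2),(2,5)]⟩,⟨9,[(1,15),(4,1),(1,1),
  (4,3),(2,1),(7,1),(3,4),(2,3),(9,0)]⟩⟩]⟩))) (.I [1,-1,0,1,0,0,0,-1,1] (.I [1,0,0,1,0,0,0,0,1] (.R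
  ⟨0,false,false,false,[1,0,0,-1],[1,0,-1],[0,0,0,-1,0,0,0,0,-1],(⟨0,[(30,0)]⟩,⟨0,[(31,0)]⟩),(⟨0,
  [(39,0)]⟩,⟨0,[(40,0)]⟩),⟨0,[(2,0)]⟩,.k,.k,(.x (-1) ⟨15,[(12,3),(7,3),(7,6),(0,6),(11,1)]⟩ ⟨0,[(43,
  0)]⟩),.k,.k,.k,⟨false,1,⟨1,[(4,0),(23,0)]⟩,⟨11,[(0,5),(0,5),(8,1),(5,0),(10,1),(7,2),(0,0)]⟩⟩,
  ⟨true,0,⟨0,[(30,0),(2,0)]⟩,⟨5,[(2,3),(9,0),(7,0),(6,2),(3,1)]⟩⟩,⟨true,0,⟨0,[(46,0)]⟩,⟨0,[(45,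
  0)]⟩⟩,⟨false,0,⟨2,[(1,1),(1,0),(12,0),(13,2),(2,2),(10,0)]⟩,⟨7,[(2,4),(15,3),(0,1),(0,2),(0,1),(0,
  1),(2,0),(1,0),(0,3),(2,2)]⟩⟩,⟨false,0,⟨0,[]⟩,⟨0,[]⟩⟩,⟨false,0,⟨0,[]⟩,⟨0,[]⟩⟩,[.a ⟨true,0,⟨1,[(8,
  0),(21,0),(0,0)]⟩,⟨1,[(14,0),(7,0),(2,0),(13,0),(6,0)]⟩⟩ ⟨false,1,⟨5,[(16,1),(1,1),(9,2),(19,0)]⟩,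
  ⟨0,[(0,0)]⟩⟩ ⟨true,0,⟨1,[(8,0),(21,1),(2,0),(2,0)]⟩,⟨1,[(2,1),(11,0),(5,0),(1,0),(2,0),(20,0)]⟩⟩,
  .o ⟨false,1,⟨7,[(8,3),(19,0),(0,0),(11,1),(6,3)]⟩,⟨0,[(34,0)]⟩⟩,.o ⟨false,1,⟨1,[(31,1),(9,0),(5,
  0)]⟩,⟨0,[(24,0),(5,0),(2,0),(0,0)]⟩⟩,.e ⟨false,1,⟨1,[(4,0),(19,1),(3,0)]⟩,⟨1,[(0,1),(35,0),(0,
  0)]⟩⟩ ⟨false,1,⟨7,[(8,3),(19,0),(0,0),(0,7),(10,1),(6,3)]⟩,⟨1,[(2,1),(11,0),(5,0),(1,0),(2,0),(20,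
  0)]⟩⟩]⟩) (.R ⟨0,false,false,false,[1,0,0,-1],[1,0,-1],[1,0,0,0,0,0,0,0,-1],(⟨0,[(30,0)]⟩,⟨0,[(31,
  0)]⟩),(⟨0,[(39,0)]⟩,⟨0,[(40,0)]⟩),⟨0,[(2,0)]⟩,.k,.k,(.x (-1) ⟨15,[(12,3),(7,3),(7,6),(0,6),(11,
  1)]⟩ ⟨0,[(43,0)]⟩),.k,.k,.k,⟨false,1,⟨13,[(0,3),(13,0),(2,2),(0,8),(0,2),(1,2),(6,4)]⟩,⟨3,[(1,1),
  (1,1),(12,0),(18,0),(0,0)]⟩⟩,⟨true,0,⟨0,[(30,0),(2,0)]⟩,⟨5,[(2,3),(9,0),(7,0),(6,2),(3,1)]⟩⟩,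
  ⟨true,0,⟨0,[]⟩,⟨0,[(50,0)]⟩⟩,⟨false,0,⟨2,[(1,1),(1,0),(12,0),(13,2),(2,2),(10,0)]⟩,⟨7,[(2,4),(15,
  3),(0,1),(0,2),(0,1),(0,1),(2,0),(1,0),(0,3),(2,2)]⟩⟩,⟨false,0,⟨0,[]⟩,⟨0,[]⟩⟩,⟨false,0,⟨0,[]⟩,⟨0,
  []⟩⟩,[.a ⟨true,0,⟨1,[(8,0),(21,0),(0,0)]⟩,⟨1,[(14,0),(7,0),(2,0),(13,0),(6,0)]⟩⟩ ⟨false,1,⟨1,[(28,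
  0),(18,0)]⟩,⟨0,[(3,0)]⟩⟩ ⟨true,0,⟨1,[(8,0),(21,1),(2,0),(2,0)]⟩,⟨1,[(2,1),(11,0),(5,0),(1,0),(2,
  0),(20,0)]⟩⟩,.o ⟨false,1,⟨7,[(8,3),(19,0),(0,0),(11,1),(6,3)]⟩,⟨0,[(34,0)]⟩⟩,.o ⟨false,1,⟨1,[(31,
  1),(9,0),(5,0)]⟩,⟨0,[(24,0),(5,0),(2,0),(0,0)]⟩⟩,.e ⟨false,1,⟨3,[(0,1),(18,1),(4,1),(3,0),(18,
  2)]⟩,⟨1,[(3,1),(32,0),(0,0)]⟩⟩ ⟨false,1,⟨7,[(8,3),(19,0),(0,0),(0,7),(10,1),(6,3)]⟩,⟨1,[(2,1),(11,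
  0),(5,0),(1,0),(2,0),(20,0)]⟩⟩]⟩)) (.R ⟨0,false,false,false,[1,0,0,-1],[0,0,1],[],(⟨0,[(29,0)]⟩,
  ⟨0,[(30,0)]⟩),(⟨0,[(39,0)]⟩,⟨0,[(38,0)]⟩),⟨0,[(1,0)]⟩,.k,.k,(.x (-1) ⟨15,[(11,3),(7,3),(7,6),(0,
  6),(11,1)]⟩ ⟨0,[(42,0)]⟩),.k,.k,.k,⟨true,0,⟨0,[(37,0)]⟩,⟨3,[(13,1),(21,0),(0,0),(8,1)]⟩⟩,⟨false,0,
  ⟨0,[(23,0),(5,0),(3,0)]⟩,⟨7,[(4,3),(22,0),(0,0),(1,7),(9,1)]⟩⟩,⟨true,0,⟨0,[(2,0)]⟩,⟨1,[(0,1),(4,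
  0),(20,0)]⟩⟩,⟨false,0,⟨0,[(2,0),(26,0),(3,0),(9,0)]⟩,⟨59,[(1,24),(3,8),(5,3),(0,23),(2,8),(3,9),
  (1,2),(1,8),(3,29),(2,34),(9,5)]⟩⟩,⟨false,0,⟨0,[]⟩,⟨0,[]⟩⟩,⟨false,0,⟨0,[]⟩,⟨0,[]⟩⟩,[.a ⟨true,0,⟨1,
  [(13,0),(7,0),(2,0),(13,0),(6,0)]⟩,⟨1,[(7,0),(21,0),(0,0)]⟩⟩ ⟨false,1,⟨3,[(27,0),(0,0),(17,1)]⟩,
  ⟨0,[]⟩⟩ ⟨true,0,⟨3,[(13,0),(15,3),(3,1),(1,1),(7,0),(1,0)]⟩,⟨5,[(1,3),(5,2),(3,0),(7,0),(10,1)]⟩⟩,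
  .o ⟨false,1,⟨23,[(3,3),(9,7),(12,11),(0,0),(0,0),(11,5),(6,11)]⟩,⟨0,[(31,0)]⟩⟩,.o ⟨false,1,⟨1,
  [(30,1),(9,0),(5,0)]⟩,⟨0,[(23,0),(5,0),(2,0),(0,0)]⟩⟩,.e ⟨false,1,⟨1,[(46,0),(0,0)]⟩,⟨1,[(35,0),
  (0,0)]⟩⟩ ⟨false,1,⟨23,[(3,3),(9,7),(12,11),(0,0),(0,0),(0,23),(10,5),(6,11)]⟩,⟨5,[(1,3),(5,2),(3,
  0),(7,0),(10,1)]⟩⟩]⟩))) (.Q [0,1,1,0,0,0,0,0,1,0,0,-1] (.p false [0,0,0,1] [] (⟨0,[(28,0)]⟩,⟨0,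
  [(27,0)]⟩) .k 0 (⟨0,[]⟩,⟨0,[]⟩) .k .k) (.Q [0,1,-1,0,0,0,0,0,-1,0,0,1] (.p true [0,0,0,1] [] (⟨0,
  [(29,0)]⟩,⟨0,[(28,0)]⟩) .k 0 (⟨0,[]⟩,⟨0,[]⟩) .k .k) (.K ⟨0,[0,0,0,1],0,0,(⟨0,[(30,0)]⟩,⟨0,[(29,
  0)]⟩),.k,(.r (-1) ⟨5,[(15,1),(1,1),(10,2),(18,0)]⟩ ⟨4,[(2,4),(10,0),(2,1),(18,2),(0,0)]⟩),(.x 0
  ⟨0,[(42,0)]⟩ ⟨15,[(11,3),(7,3),(7,6),(0,6),(11,1)]⟩),.k,.k,[⟨0,[(30,0)]⟩,⟨0,[(29,0)]⟩,⟨0,[(0,0)]⟩,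
  ⟨0,[(1,0)]⟩]⟩) (.Q [0,0,0,0,0,-1,0,0,0,0,0,1] (.ed false [1,-1,0,1] .k) (.I [0,1,0,0,0,0,0,0,1]
  (.R ⟨1,false,false,false,[0,0,0,1],[0,0,1],[1,1,0,0,0,0,0,0,1],(⟨0,[(32,0)]⟩,⟨0,[(31,0)]⟩),(⟨0,
  [(41,0)]⟩,⟨0,[(40,0)]⟩),⟨0,[(1,0)]⟩,.k,.k,(.r (-1) ⟨5,[(17,1),(1,1),(10,2),(18,0)]⟩ ⟨4,[(4,4),(10,
  0),(2,1),(18,2),(0,0)]⟩),.k,(.r (-1) ⟨3,[(14,0),(2,1),(10,0),(1,1),(8,0),(9,0)]⟩ ⟨9,[(4,9),(10,5),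
  (2,1),(18,2),(0,0)]⟩),.k,⟨true,0,⟨0,[(0,0),(38,0)]⟩,⟨1,[(4,1),(10,0),(29,0),(1,0)]⟩⟩,⟨false,1,⟨0,
  [(10,0),(17,0),(3,0)]⟩,⟨0,[(31,0),(2,0)]⟩⟩,⟨false,0,⟨0,[]⟩,⟨3,[(29,0),(0,0),(18,1)]⟩⟩,⟨false,1,
  ⟨19,[(4,19),(5,5),(8,9),(2,9),(5,7),(3,19),(9,0),(2,11),(3,2)]⟩,⟨0,[(2,0),(33,0)]⟩⟩,⟨true,0,⟨0,
  [(46,0)]⟩,⟨0,[(47,0)]⟩⟩,⟨false,1,⟨0,[(4,0),(17,0),(9,0),(12,0),(2,0)]⟩,⟨1,[(2,1),(14,0),(18,0),(1,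
  0)]⟩⟩,[.a ⟨true,0,⟨1,[(15,0),(7,0),(2,0),(13,0),(6,0)]⟩,⟨1,[(9,0),(21,0),(0,0)]⟩⟩ ⟨true,0,⟨0,[(0,
  0)]⟩,⟨3,[(4,3),(32,0),(0,0),(6,1)]⟩⟩ ⟨false,1,⟨0,[(19,0),(2,0),(2,0),(6,0)]⟩,⟨1,[(9,0),(21,1),(2,
  0),(2,0)]⟩⟩,.o ⟨false,1,⟨23,[(5,3),(9,7),(12,11),(0,0),(0,0),(11,5),(6,11)]⟩,⟨0,[(33,0)]⟩⟩,.o
  ⟨false,0,⟨1,[(2,0),(0,0),(0,1)]⟩,⟨1,[(32,1),(9,0),(5,0)]⟩⟩,.o ⟨false,0,⟨0,[(31,0),(2,0),(2,0)]⟩,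
  ⟨0,[(12,0),(9,0),(2,0),(6,0)]⟩⟩]⟩) (.Q [0,0,0,1,0,0,0,0,0,1,0,-1] (.p false [0,0,0,1] [1] (⟨0,
  [(32,0)]⟩,⟨0,[(31,0)]⟩) .k 1 (⟨0,[]⟩,⟨0,[]⟩) .k .k) (.R ⟨1,false,false,true,[1,0,0,-1],[0,1],[1,0,
  0,0,0,0,0,0,-1],(⟨0,[(32,0)]⟩,⟨0,[(33,0)]⟩),(⟨0,[(45,0)]⟩,⟨0,[(44,0)]⟩),⟨3,[(0,2),(0,0),(1,0),(10,
  0),(1,0),(1,1),(3,0)]⟩,.k,.k,(.x (-1) ⟨15,[(14,3),(7,3),(7,6),(0,6),(11,1)]⟩ ⟨0,[(45,0)]⟩),(.x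
  (-1) ⟨15,[(14,3),(7,3),(7,6),(0,6),(11,1)]⟩ ⟨0,[(45,0)]⟩),(.r (-1) ⟨11,[(1,5),(16,7),(1,7),(9,2),
  (19,0)]⟩ ⟨5,[(3,1),(0,3),(14,3),(1,2),(1,0),(9,5),(4,2)]⟩),.k,⟨false,1,⟨5,[(1,5),(16,1),(1,1),(28,
  2),(0,0)]⟩,⟨5,[(3,0),(0,4),(14,1),(3,1),(9,5)]⟩⟩,⟨true,0,⟨0,[(32,0)]⟩,⟨0,[(26,0),(6,0),(1,0),(0,
  0)]⟩⟩,⟨true,0,⟨0,[]⟩,⟨0,[(52,0)]⟩⟩,⟨false,0,⟨1,[(0,1),(2,0),(0,0),(28,1)]⟩,⟨5,[(1,5),(16,1),(1,1),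
  (12,5),(9,2),(6,0)]⟩⟩,⟨false,1,⟨5,[(19,1),(3,1),(6,0),(0,0),(18,3)]⟩,⟨0,[(48,0)]⟩⟩,⟨false,0,⟨2,
  [(0,2),(2,1),(0,0),(14,0),(3,0),(9,2)]⟩,⟨11,[(1,9),(4,3),(11,7),(11,0),(2,11),(9,5),(2,3),(3,
  0)]⟩⟩,[.o ⟨false,0,⟨0,[(47,0)]⟩,⟨1,[(43,0),(4,1),(1,0)]⟩⟩,.a ⟨true,0,⟨0,[(0,0),(32,0)]⟩,⟨0,[(48,
  0)]⟩⟩ ⟨true,0,⟨0,[(1,0)]⟩,⟨0,[(4,0),(28,0)]⟩⟩ ⟨false,0,⟨0,[(0,0)]⟩,⟨5,[(18,1),(1,1),(12,5),(9,2),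
  (6,0)]⟩⟩,.o ⟨false,1,⟨1,[(33,1),(9,0),(5,0)]⟩,⟨1,[(3,0),(0,0),(0,1)]⟩⟩,.e ⟨false,1,⟨3,[(1,1),(28,
  0),(18,1),(0,0)]⟩,⟨1,[(3,0),(0,0),(28,1)]⟩⟩ ⟨false,0,⟨0,[(0,0)]⟩,⟨1,[(33,1),(9,0),(4,1),(1,
  0)]⟩⟩]⟩) (.R ⟨1,false,false,true,[1,0,0,-1],[0,1],[1,0,0,0,0,0,0,0,-1],(⟨0,[(32,0)]⟩,⟨0,[(33,
  0)]⟩),(⟨0,[(45,0)]⟩,⟨0,[(44,0)]⟩),⟨2,[(1,0),(1,0),(4,0),(7,1),(1,1),(3,1),(1,0),(7,1)]⟩,.k,.k,(.x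
  (-1) ⟨15,[(14,3),(7,3),(7,6),(0,6),(11,1)]⟩ ⟨0,[(45,0)]⟩),(.x (-1) ⟨15,[(14,3),(7,3),(7,6),(0,6),
  (11,1)]⟩ ⟨0,[(45,0)]⟩),(.r (-1) ⟨11,[(1,5),(16,7),(1,7),(9,2),(19,0)]⟩ ⟨5,[(3,1),(0,3),(14,3),(1,
  2),(1,0),(9,5),(4,2)]⟩),.k,⟨false,1,⟨5,[(1,5),(16,1),(1,1),(28,2),(0,0)]⟩,⟨5,[(3,0),(0,4),(14,1),
  (3,1),(9,5)]⟩⟩,⟨true,0,⟨0,[(32,0)]⟩,⟨4,[(0,2),(7,0),(7,0),(16,1),(1,0),(2,2)]⟩⟩,⟨true,0,⟨0,[]⟩,⟨0,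
  [(52,0)]⟩⟩,⟨false,0,⟨9,[(3,4),(0,4),(11,1),(2,3),(4,1),(7,3),(0,3),(7,3),(2,1)]⟩,⟨3,[(0,3),(0,1),
  (28,0),(18,1),(0,0)]⟩⟩,⟨false,1,⟨5,[(19,1),(3,1),(6,0),(0,0),(18,3)]⟩,⟨0,[(48,0)]⟩⟩,⟨false,0,⟨8,
  [(3,4),(0,3),(11,2),(2,6),(3,0),(0,2),(16,5),(2,2)]⟩,⟨11,[(0,11),(0,5),(16,3),(1,3),(9,2),(19,
  4)]⟩⟩,[.o ⟨false,0,⟨0,[(47,0)]⟩,⟨9,[(0,3),(2,3),(2,0),(11,1),(11,1),(12,2),(6,3)]⟩⟩,.e ⟨true,0,⟨0,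
  [(1,0)]⟩,⟨0,[(4,0),(28,0)]⟩⟩ ⟨true,0,⟨4,[(16,0),(2,1),(12,4),(5,2),(0,0)]⟩,⟨0,[(0,0)]⟩⟩,.o ⟨false,
  1,⟨1,[(33,1),(9,0),(5,0)]⟩,⟨1,[(3,0),(0,0),(0,1)]⟩⟩,.a ⟨true,0,⟨0,[(33,0)]⟩,⟨0,[(32,0)]⟩⟩ ⟨false,
  1,⟨3,[(1,1),(28,0),(18,1),(0,0)]⟩,⟨1,[(3,0),(0,0),(28,1)]⟩⟩ ⟨true,0,⟨0,[(32,0),(14,0)]⟩,⟨0,[(0,
  0)]⟩⟩]⟩))) (.R ⟨1,false,false,true,[1,0,0,-1],[0,1],[1,1,0,0,0,0,0,0,-1],(⟨0,[(30,0)]⟩,⟨0,[(31,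
  0)]⟩),(⟨0,[(43,0)]⟩,⟨0,[(42,0)]⟩),⟨2,[(0,0),(11,0),(7,0),(9,1)]⟩,.k,.k,(.x (-1) ⟨15,[(12,3),(7,3),
  (7,6),(0,6),(11,1)]⟩ ⟨0,[(43,0)]⟩),(.x (-1) ⟨15,[(12,3),(7,3),(7,6),(0,6),(11,1)]⟩ ⟨0,[(43,0)]⟩),
  (.r (-1) ⟨3,[(3,1),(0,0),(11,1),(1,1),(5,1),(3,0)]⟩ ⟨5,[(1,1),(0,3),(14,3),(1,2),(1,0),(9,5),(4,
  2)]⟩),.k,⟨false,1,⟨7,[(3,5),(12,1),(1,3),(5,1),(3,0),(18,2)]⟩,⟨2,[(1,1),(0,0),(14,0),(3,0),(9,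
  2)]⟩⟩,⟨true,0,⟨0,[(30,0)]⟩,⟨0,[(24,0),(6,0),(1,0),(0,0)]⟩⟩,⟨false,0,⟨0,[]⟩,⟨3,[(28,0),(0,0),(18,
  1)]⟩⟩,⟨false,0,⟨9,[(1,4),(0,4),(11,1),(2,3),(4,1),(7,3),(0,3),(7,3),(2,1)]⟩,⟨1,[(3,1),(0,0),(19,
  1),(6,1),(9,0)]⟩⟩,⟨true,0,⟨0,[(45,0)]⟩,⟨0,[(46,0)]⟩⟩,⟨false,0,⟨8,[(1,4),(0,3),(11,2),(2,6),(3,0),
  (0,2),(16,5),(2,2)]⟩,⟨1,[(3,1),(0,0),(11,0),(7,0),(6,1),(9,0),(2,0)]⟩⟩,[.o ⟨false,0,⟨0,[(45,0)]⟩,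
  ⟨1,[(41,0),(4,1),(1,0)]⟩⟩,.a ⟨true,0,⟨4,[(14,0),(2,1),(4,0),(7,1),(0,1),(7,1),(2,0)]⟩,⟨0,[(46,
  0)]⟩⟩ ⟨true,0,⟨0,[(3,0)]⟩,⟨1,[(1,0),(0,0),(28,1)]⟩⟩ ⟨false,0,⟨4,[(0,1),(13,0),(2,1),(2,0),(1,0),
  (2,0),(4,2)]⟩,⟨5,[(16,1),(1,1),(12,5),(9,2),(6,0)]⟩⟩,.o ⟨false,1,⟨1,[(31,1),(9,0),(5,0)]⟩,⟨1,[(1,
  0),(0,0),(0,1)]⟩⟩,.e ⟨false,1,⟨1,[(28,0),(18,0)]⟩,⟨0,[(1,0),(29,0)]⟩⟩ ⟨false,0,⟨4,[(0,1),(13,0),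
  (2,1),(2,0),(1,0),(2,0),(4,2)]⟩,⟨1,[(31,1),(9,0),(4,1),(1,0)]⟩⟩]⟩))) (.Q [0,0,0,0,0,0,-1,-1,0,0,1,
  -1] (.p true [0,0,1] [0,0,0,1] (⟨0,[(38,0)]⟩,⟨0,[(37,0)]⟩) .k 2 (⟨0,[(29,0)]⟩,⟨0,[(28,0)]⟩) .k
  (.r 0 ⟨0,[(0,0),(27,0),(2,0),(0,0)]⟩ ⟨3,[(26,0),(0,2),(8,3)]⟩)) (.R ⟨1,false,false,false,[1,0,0,
  -1],[1,0,-1],[1,1,0,0,0,0,0,0,-1],(⟨0,[(29,0)]⟩,⟨0,[(30,0)]⟩),(⟨0,[(38,0)]⟩,⟨0,[(39,0)]⟩),⟨2,[(0,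
  1),(12,0),(5,1),(1,0),(7,0),(15,0)]⟩,.k,.k,(.x (-1) ⟨15,[(11,3),(7,3),(7,6),(0,6),(11,1)]⟩ ⟨0,
  [(42,0)]⟩),.k,(.x 0 ⟨4,[(11,2),(9,0),(1,1),(9,1),(1,0)]⟩ ⟨23,[(4,3),(9,7),(12,8),(0,8),(9,7),(1,
  1),(1,31)]⟩),.k,⟨false,0,⟨0,[(0,0),(0,0),(11,0),(1,0),(4,0)]⟩,⟨1,[(28,0),(8,1),(9,0)]⟩⟩,⟨true,0,
  ⟨0,[(29,0),(2,0)]⟩,⟨0,[(23,0),(6,0),(2,0)]⟩⟩,⟨false,0,⟨0,[]⟩,⟨3,[(27,0),(0,0),(18,1)]⟩⟩,⟨false,1,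
  ⟨1,[(0,1),(27,0),(6,0),(0,0),(10,0)]⟩,⟨0,[(1,0),(31,0)]⟩⟩,⟨true,0,⟨0,[(44,0)]⟩,⟨0,[(45,0)]⟩⟩,
  ⟨false,1,⟨19,[(0,7),(4,7),(12,3),(3,3),(4,0),(0,10),(0,11),(5,11),(11,7)]⟩,⟨0,[(1,0),(31,0),(11,
  0)]⟩⟩,[.e ⟨false,0,⟨2,[(0,1),(0,1),(0,0),(12,0),(4,0),(4,0),(7,1)]⟩,⟨1,[(28,0),(18,0)]⟩⟩ ⟨false,0,
  ⟨0,[(0,0)]⟩,⟨15,[(17,7),(2,7),(5,3),(0,0),(0,0),(1,15),(9,1),(6,3)]⟩⟩,.o ⟨false,1,⟨7,[(7,3),(19,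
  0),(0,0),(11,1),(6,3)]⟩,⟨0,[(33,0)]⟩⟩,.o ⟨false,1,⟨1,[(30,1),(9,0),(5,0)]⟩,⟨2,[(0,1),(28,0),(2,0),
  (0,1),(1,0),(7,0)]⟩⟩,.a ⟨true,0,⟨0,[(30,0)]⟩,⟨0,[(29,0)]⟩⟩ ⟨false,0,⟨0,[(0,0),(0,0),(31,0)]⟩,⟨1,
  [(28,0),(6,0),(0,0),(10,0)]⟩⟩ ⟨true,0,⟨0,[(0,0)]⟩,⟨0,[(30,0),(2,0)]⟩⟩]⟩) (.Q [0,0,0,0,0,1,0,0,0,
  -1,0,1] (.ed false [0,1,0,1] .k) (.I [0,0,-1,0,0,0,0,0,-1] (.I [0,1,-1,0,0,0,0,1,-1] (.R ⟨0,false,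
  false,false,[1,0,0,-1],[1,0,-1],[0,1,0,0,0,0,0,0,-1],(⟨0,[(32,0)]⟩,⟨0,[(33,0)]⟩),(⟨0,[(41,0)]⟩,⟨0,
  [(42,0)]⟩),⟨0,[(2,0)]⟩,.k,.k,(.x (-1) ⟨15,[(14,3),(7,3),(7,6),(0,6),(11,1)]⟩ ⟨0,[(45,0)]⟩),.k,.k,
  .k,⟨false,0,⟨0,[(0,0)]⟩,⟨1,[(31,0),(8,1),(9,0)]⟩⟩,⟨true,0,⟨0,[(32,0),(2,0)]⟩,⟨5,[(2,3),(11,0),(7,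
  0),(6,2),(3,1)]⟩⟩,⟨true,0,⟨0,[(52,0)]⟩,⟨0,[]⟩⟩,⟨false,1,⟨1,[(10,0),(20,0),(0,1),(2,0),(2,0),(11,
  0)]⟩,⟨0,[(1,0),(1,0)]⟩⟩,⟨false,0,⟨0,[]⟩,⟨0,[]⟩⟩,⟨false,0,⟨0,[]⟩,⟨0,[]⟩⟩,[.a ⟨true,0,⟨1,[(10,0),
  (21,0),(0,0)]⟩,⟨0,[(3,0),(28,0)]⟩⟩ ⟨false,0,⟨9,[(0,4),(0,3),(3,0),(6,1),(5,0),(10,1),(7,1)]⟩,⟨1,
  [(31,0),(18,0)]⟩⟩ ⟨true,0,⟨1,[(10,0),(21,1),(2,0),(2,0)]⟩,⟨0,[(3,0)]⟩⟩,.o ⟨false,1,⟨7,[(10,3),(19,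
  0),(0,0),(11,1),(6,3)]⟩,⟨0,[(36,0)]⟩⟩,.o ⟨false,1,⟨1,[(33,1),(9,0),(5,0)]⟩,⟨0,[(26,0),(5,0),(2,0),
  (0,0)]⟩⟩,.e ⟨false,0,⟨0,[(1,0)]⟩,⟨1,[(31,0),(6,0),(0,0),(10,0)]⟩⟩ ⟨false,1,⟨7,[(10,3),(19,0),(0,
  0),(0,7),(10,1),(6,3)]⟩,⟨0,[(3,0)]⟩⟩]⟩) (.R ⟨0,false,false,true,[1,0,0,-1],[1,0,-1],[1,1],(⟨0,
  [(32,0)]⟩,⟨0,[(33,0)]⟩),(⟨0,[(41,0)]⟩,⟨0,[(42,0)]⟩),⟨0,[(2,0)]⟩,.k,.k,(.x (-1) ⟨15,[(14,3),(7,3),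
  (7,6),(0,6),(11,1)]⟩ ⟨0,[(45,0)]⟩),.k,.k,.k,⟨false,1,⟨5,[(16,1),(3,1),(9,0),(0,0),(17,1)]⟩,⟨0,
  [(40,0)]⟩⟩,⟨true,0,⟨0,[(32,0),(2,0)]⟩,⟨5,[(2,3),(11,0),(7,0),(6,2),(3,1)]⟩⟩,⟨false,1,⟨3,[(30,0),
  (0,2)]⟩,⟨1,[(1,0),(3,0),(40,0)]⟩⟩,⟨true,0,⟨0,[(0,0),(11,0),(3,0),(1,0),(13,0)]⟩,⟨0,[(1,0),(1,
  0)]⟩⟩,⟨false,0,⟨0,[]⟩,⟨0,[]⟩⟩,⟨false,0,⟨0,[]⟩,⟨0,[]⟩⟩,[.o ⟨false,0,⟨0,[(34,0)]⟩,⟨23,[(6,3),(9,7),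
  (12,11),(0,0),(0,0),(11,5),(6,11)]⟩⟩,.e ⟨true,0,⟨0,[]⟩,⟨1,[(38,0),(0,0)]⟩⟩ ⟨true,0,⟨1,[(10,0),(21,
  1),(2,0),(2,0)]⟩,⟨0,[(3,0)]⟩⟩,.o ⟨false,1,⟨1,[(33,1),(9,0),(5,0)]⟩,⟨0,[(26,0),(5,0),(2,0),(0,
  0)]⟩⟩,.a ⟨true,0,⟨0,[(33,0)]⟩,⟨0,[(32,0)]⟩⟩ ⟨false,1,⟨3,[(30,0),(0,0),(17,1)]⟩,⟨3,[(38,0),(0,0),
  (6,1)]⟩⟩ ⟨true,0,⟨0,[(32,0),(1,0)]⟩,⟨0,[(3,0)]⟩⟩]⟩)) (.R ⟨0,false,false,true,[1,0,0,-1],[1,0,-1],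
  [1,1],(⟨0,[(31,0)]⟩,⟨0,[(32,0)]⟩),(⟨0,[(40,0)]⟩,⟨0,[(41,0)]⟩),⟨0,[(1,0)]⟩,.k,.k,(.x (-1) ⟨15,[(13,
  3),(7,3),(7,6),(0,6),(11,1)]⟩ ⟨0,[(44,0)]⟩),.k,.k,.k,⟨false,1,⟨5,[(15,1),(3,1),(9,0),(0,0),(17,
  1)]⟩,⟨0,[(39,0)]⟩⟩,⟨true,0,⟨0,[(31,0),(2,0)]⟩,⟨5,[(1,3),(11,0),(7,0),(6,2),(3,1)]⟩⟩,⟨false,1,⟨3,
  [(29,0),(0,2)]⟩,⟨0,[(3,0),(21,0),(5,0),(2,0),(0,0)]⟩⟩,⟨true,0,⟨0,[(0,0),(30,0),(1,0)]⟩,⟨0,[(3,0),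
  (31,0)]⟩⟩,⟨false,0,⟨0,[]⟩,⟨0,[]⟩⟩,⟨false,0,⟨0,[]⟩,⟨0,[]⟩⟩,[.o ⟨false,0,⟨0,[(33,0)]⟩,⟨23,[(5,3),(9,
  7),(12,11),(0,0),(0,0),(11,5),(6,11)]⟩⟩,.e ⟨true,0,⟨0,[]⟩,⟨1,[(37,0),(0,0)]⟩⟩ ⟨true,0,⟨1,[(9,0),
  (21,1),(2,0),(2,0)]⟩,⟨0,[(2,0)]⟩⟩,.o ⟨false,1,⟨1,[(32,1),(9,0),(5,0)]⟩,⟨0,[(25,0),(5,0),(2,0),(0,
  0)]⟩⟩,.a ⟨true,0,⟨0,[(32,0)]⟩,⟨0,[(31,0)]⟩⟩ ⟨false,1,⟨3,[(29,0),(0,0),(17,1)]⟩,⟨3,[(37,0),(0,0),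
  (6,1)]⟩⟩ ⟨true,0,⟨0,[(31,0),(1,0)]⟩,⟨0,[(2,0)]⟩⟩]⟩)) (.I [0,0,-1,-1,0,0,0,1,-1] (.R ⟨1,false,
  false,false,[1,0,0,-1],[1,0,-1],[0,0,0,-1,0,0,0,0,-1],(⟨0,[(31,0)]⟩,⟨0,[(32,0)]⟩),(⟨0,[(40,0)]⟩,
  ⟨0,[(41,0)]⟩),⟨0,[(1,0)]⟩,.k,.k,(.x (-1) ⟨15,[(13,3),(7,3),(7,6),(0,6),(11,1)]⟩ ⟨0,[(44,0)]⟩),.k,
  (.r 0 ⟨0,[(0,0)]⟩ ⟨7,[(18,3),(10,0),(0,4),(5,3),(0,7),(11,1)]⟩),.k,⟨false,0,⟨0,[(0,0)]⟩,⟨3,[(7,1),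
  (20,1),(0,0),(0,2)]⟩⟩,⟨true,0,⟨0,[(31,0),(2,0)]⟩,⟨0,[(2,0),(36,0)]⟩⟩,⟨true,0,⟨0,[(47,0)]⟩,⟨0,[(46,
  0)]⟩⟩,⟨false,1,⟨1,[(9,0),(20,0),(0,1),(2,0),(2,0),(11,0)]⟩,⟨0,[(3,0),(31,0)]⟩⟩,⟨false,1,⟨3,[(29,
  0),(0,0),(18,1)]⟩,⟨0,[]⟩⟩,⟨false,1,⟨1,[(7,0),(22,0),(0,1),(2,0),(2,0),(11,0)]⟩,⟨3,[(0,1),(1,1),(0,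
  1),(13,0),(17,0),(1,0)]⟩⟩,[.a ⟨true,0,⟨1,[(9,0),(21,0),(0,0)]⟩,⟨0,[(2,0),(28,0)]⟩⟩ ⟨false,0,⟨7,
  [(0,5),(3,1),(2,0),(9,1),(7,1),(2,0)]⟩,⟨5,[(18,1),(3,1),(6,0),(0,3),(18,0)]⟩⟩ ⟨true,0,⟨1,[(9,0),
  (21,1),(2,0),(2,0)]⟩,⟨0,[(2,0)]⟩⟩,.o ⟨false,1,⟨7,[(9,3),(19,0),(0,0),(11,1),(6,3)]⟩,⟨0,[(35,0)]⟩⟩,
  .o ⟨false,1,⟨1,[(32,1),(9,0),(5,0)]⟩,⟨0,[(25,0),(5,0),(2,0),(0,0)]⟩⟩,.e ⟨false,0,⟨0,[(0,0),(24,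
  0)]⟩,⟨19,[(15,3),(2,7),(10,4),(0,14),(6,11),(0,3)]⟩⟩ ⟨false,1,⟨7,[(9,3),(19,0),(0,0),(0,7),(10,1),
  (6,3)]⟩,⟨0,[(2,0)]⟩⟩]⟩) (.I [0,1,-1,-1,0,0,0,1,-1] (.R ⟨1,false,false,false,[1,0,0,-1],[1,0,-1],
  [0,1,0,-1,0,0,0,0,-1],(⟨0,[(32,0)]⟩,⟨0,[(33,0)]⟩),(⟨0,[(41,0)]⟩,⟨0,[(42,0)]⟩),⟨0,[(2,0)]⟩,.k,.k,
  (.x (-1) ⟨15,[(14,3),(7,3),(7,6),(0,6),(11,1)]⟩ ⟨0,[(45,0)]⟩),.k,(.x 0 ⟨4,[(14,2),(9,0),(1,1),(9,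
  1),(1,0)]⟩ ⟨23,[(7,3),(9,7),(12,8),(0,8),(9,7),(1,1),(1,31)]⟩),.k,⟨false,0,⟨0,[(0,0)]⟩,⟨1,[(8,0),
  (20,0),(1,0),(18,0)]⟩⟩,⟨true,0,⟨0,[(32,0),(2,0)]⟩,⟨0,[(3,0),(36,0)]⟩⟩,⟨false,0,⟨0,[(48,0)]⟩,⟨5,
  [(19,1),(3,1),(6,0),(0,0),(18,3)]⟩⟩,⟨false,1,⟨1,[(10,0),(20,0),(0,1),(2,0),(2,0),(11,0)]⟩,⟨0,[(4,
  0),(31,0)]⟩⟩,⟨true,0,⟨0,[(52,0)]⟩,⟨0,[]⟩⟩,⟨false,1,⟨23,[(1,15),(6,3),(16,7),(4,0),(0,4),(0,23),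
  (10,5),(6,11)]⟩,⟨2,[(0,0),(2,0),(0,1),(13,0),(17,1),(9,0)]⟩⟩,[.a ⟨true,0,⟨1,[(10,0),(21,0),(0,
  0)]⟩,⟨0,[(3,0),(28,0)]⟩⟩ ⟨false,0,⟨5,[(0,3),(4,1),(2,0),(9,1),(10,0)]⟩,⟨7,[(19,1),(1,1),(1,1),(2,
  1),(4,3),(17,0),(0,2)]⟩⟩ ⟨true,0,⟨1,[(10,0),(21,1),(2,0),(2,0)]⟩,⟨0,[(3,0)]⟩⟩,.o ⟨false,1,⟨7,[(10,
  3),(19,0),(0,0),(11,1),(6,3)]⟩,⟨0,[(36,0)]⟩⟩,.o ⟨false,1,⟨1,[(33,1),(9,0),(5,0)]⟩,⟨0,[(26,0),(5,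
  0),(2,0),(0,0)]⟩⟩,.e ⟨false,0,⟨0,[(0,0),(25,0)]⟩,⟨5,[(1,3),(14,1),(13,0),(0,1),(18,2)]⟩⟩ ⟨false,1,
  ⟨7,[(10,3),(19,0),(0,0),(0,7),(10,1),(6,3)]⟩,⟨0,[(3,0)]⟩⟩]⟩) (.I [1,1,0,0,0,0,0,1] (.R ⟨1,false,
  false,true,[1,0,0,-1],[0,0,1],[1,0,0,0,0,0,0,0,-1],(⟨0,[(33,0)]⟩,⟨0,[(34,0)]⟩),(⟨0,[(43,0)]⟩,⟨0,
  [(42,0)]⟩),⟨0,[(3,0)]⟩,.k,.k,(.x (-1) ⟨15,[(15,3),(7,3),(7,6),(0,6),(11,1)]⟩ ⟨0,[(46,0)]⟩),.k,(.r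
  0 ⟨1,[(5,1),(13,0),(7,1),(5,1),(1,0),(0,0),(0,1)]⟩ ⟨2,[(2,0),(14,1),(13,0),(0,1)]⟩),.k,⟨true,0,⟨0,
  [(6,0),(20,0)]⟩,⟨0,[(0,0),(0,0),(15,0),(1,0)]⟩⟩,⟨false,0,⟨0,[(27,0),(5,0),(3,0)]⟩,⟨7,[(8,3),(22,
  0),(0,0),(1,7),(9,1)]⟩⟩,⟨true,0,⟨0,[]⟩,⟨0,[(53,0)]⟩⟩,⟨true,0,⟨0,[(1,0),(15,0),(1,0),(13,0),(3,
  0)]⟩,⟨0,[(5,0),(29,0)]⟩⟩,⟨false,1,⟨5,[(20,1),(3,1),(6,0),(0,0),(18,3)]⟩,⟨0,[(49,0)]⟩⟩,⟨true,0,⟨0,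
  [(0,0),(0,0),(31,0),(3,0)]⟩,⟨1,[(5,1),(13,0),(15,0),(0,0)]⟩⟩,[.o ⟨false,0,⟨0,[(37,0)]⟩,⟨7,[(11,3),
  (19,0),(0,0),(11,1),(6,3)]⟩⟩,.e ⟨true,0,⟨0,[(5,0),(21,0),(5,0),(2,0),(0,0)]⟩,⟨0,[(2,0),(14,0),(1,
  0)]⟩⟩ ⟨true,0,⟨3,[(17,0),(15,3),(3,1),(1,1),(7,0),(1,0)]⟩,⟨0,[(4,0),(6,0)]⟩⟩,.o ⟨false,1,⟨1,[(34,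
  1),(9,0),(5,0)]⟩,⟨0,[(27,0),(5,0),(2,0),(0,0)]⟩⟩,.a ⟨true,0,⟨0,[(34,0)]⟩,⟨0,[(33,0)]⟩⟩ ⟨false,1,
  ⟨4,[(5,0),(0,1),(5,1),(17,0),(0,0),(1,0),(17,1)]⟩,⟨0,[(1,0),(15,0),(1,0)]⟩⟩ ⟨true,0,⟨0,[(33,0),(3,
  0)]⟩,⟨0,[(4,0),(6,0)]⟩⟩]⟩) (.Q [0,1,1,-1,0,0,0,0,1,0,0,-1] (.p false [0,0,0,1] [] (⟨0,[(34,0)]⟩,
  ⟨0,[(33,0)]⟩) .k 0 (⟨0,[]⟩,⟨0,[]⟩) .k .k) (.R ⟨2,false,false,true,[0,1],[0,0,0,1],[0,1],(⟨0,[]⟩,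
  ⟨0,[]⟩),(⟨0,[(35,0)]⟩,⟨0,[(34,0)]⟩),⟨0,[]⟩,.k,.k,.k,(.r 0 ⟨4,[(7,4),(10,0),(2,1),(18,2),(0,0)]⟩
  ⟨5,[(20,1),(1,1),(10,2),(18,0)]⟩),.k,.k,⟨true,0,⟨0,[(1,10),(0,0),(1,1),(1,1),(3,1),(7,10),(1,9),
  (4,3),(21,1)]⟩,⟨0,[(2,0),(15,0),(1,0)]⟩⟩,⟨false,0,⟨0,[(28,0),(5,0),(2,0),(0,0)]⟩,⟨0,[(35,0),(15,
  0)]⟩⟩,⟨false,1,⟨11,[(20,3),(1,3),(9,2),(0,2),(18,1)]⟩,⟨2,[(21,0),(1,0),(16,0),(7,0)]⟩⟩,⟨true,0,⟨0,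
  [(0,0)]⟩,⟨0,[(6,0),(42,0)]⟩⟩,⟨false,1,⟨3,[(32,0),(0,0),(17,1)]⟩,⟨3,[(40,0),(0,0),(6,1)]⟩⟩,⟨false,
  1,⟨23,[(0,11),(1,7),(15,3),(13,6),(0,8),(0,11),(10,5),(6,1)]⟩,⟨0,[(6,0)]⟩⟩,[.e ⟨true,0,⟨0,[(54,
  0)]⟩,⟨3,[(40,0),(0,0),(6,1)]⟩⟩ ⟨true,0,⟨4,[(0,4),(17,0),(2,1),(18,2),(0,0)]⟩,⟨0,[(6,0)]⟩⟩,.a
  ⟨true,0,⟨0,[(2,0),(15,0),(1,0),(13,0)]⟩,⟨0,[(6,0),(47,0)]⟩⟩ ⟨false,1,⟨3,[(32,0),(0,0),(17,1)]⟩,⟨0,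
  []⟩⟩ ⟨true,0,⟨2,[(0,1),(1,0),(20,0),(10,0),(2,0),(2,0)]⟩,⟨0,[(6,0),(47,0)]⟩⟩,.o ⟨false,1,⟨3,[(32,
  0),(0,0),(17,1)]⟩,⟨0,[(28,0),(8,0),(0,0)]⟩⟩,.e ⟨false,1,⟨3,[(32,0),(0,0),(17,1)]⟩,⟨3,[(40,0),(0,
  0),(6,1)]⟩⟩ ⟨false,1,⟨23,[(0,11),(1,7),(15,3),(13,6),(0,8),(0,11),(10,5),(6,1)]⟩,⟨0,[(6,0)]⟩⟩]⟩)
  (.Q [0,0,1,2,0,0,0,0,1,1,0,-1] (.p false [0,0,0,1] [1] (⟨0,[(35,0)]⟩,⟨0,[(34,0)]⟩) .k 1 (⟨0,[]⟩,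
  ⟨0,[]⟩) .k .k) (.Q [0,0,0,1,0,0,0,0,0,1,0,-1] (.p false [0,0,0,1] [1] (⟨0,[(36,0)]⟩,⟨0,[(35,0)]⟩)
  .k 1 (⟨0,[]⟩,⟨0,[]⟩) .k .k) (.R ⟨1,false,false,true,[1,0,0,-1],[0,1],[1,0,0,0,0,0,0,0,-1],(⟨0,
  [(36,0)]⟩,⟨0,[(37,0)]⟩),(⟨0,[(49,0)]⟩,⟨0,[(48,0)]⟩),⟨0,[(6,0)]⟩,.k,.k,(.x (-1) ⟨15,[(18,3),(7,3),
  (7,6),(0,6),(11,1)]⟩ ⟨0,[(49,0)]⟩),(.x (-1) ⟨15,[(18,3),(7,3),(7,6),(0,6),(11,1)]⟩ ⟨0,[(49,0)]⟩),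
  (.r (-1) ⟨12,[(8,1),(0,2),(0,4),(6,3),(4,5),(7,3),(2,1),(0,3),(1,1)]⟩ ⟨9,[(5,9),(14,5),(2,1),(18,
  2),(0,0)]⟩),.k,⟨false,1,⟨0,[(9,0),(14,0),(5,0)]⟩,⟨4,[(1,2),(3,1),(1,2),(8,0),(5,1),(6,1),(10,
  1)]⟩⟩,⟨true,0,⟨0,[(36,0)]⟩,⟨1,[(7,1),(6,0),(24,0),(2,0)]⟩⟩,⟨true,0,⟨0,[]⟩,⟨0,[(56,0)]⟩⟩,⟨false,0,
  ⟨0,[(1,0),(50,0)]⟩,⟨23,[(8,13),(1,3),(11,7),(11,4),(2,9),(9,11),(2,5),(3,2)]⟩⟩,⟨false,1,⟨11,[(1,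
  3),(0,3),(31,2),(0,2),(11,1),(6,3)]⟩,⟨0,[(52,0)]⟩⟩,⟨false,0,⟨0,[(1,0)]⟩,⟨10,[(7,1),(0,4),(1,2),
  (11,7),(6,0),(4,2),(2,3),(9,4),(2,6)]⟩⟩,[.o ⟨false,0,⟨0,[(51,0)]⟩,⟨1,[(47,0),(4,1),(1,0)]⟩⟩,.a
  ⟨true,0,⟨7,[(1,1),(0,1),(29,1),(0,0),(2,4),(0,4)]⟩,⟨0,[(52,0)]⟩⟩ ⟨true,0,⟨0,[(8,0),(21,0),(5,0),
  (2,0),(0,0)]⟩,⟨0,[(5,0),(14,0),(1,0)]⟩⟩ ⟨false,0,⟨0,[(0,0)]⟩,⟨5,[(22,1),(1,1),(12,5),(9,2),(6,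
  0)]⟩⟩,.o ⟨false,1,⟨1,[(37,1),(9,0),(5,0)]⟩,⟨0,[(30,0),(5,0),(2,0),(0,0)]⟩⟩,.e ⟨false,1,⟨11,[(2,3),
  (6,1),(7,3),(15,1),(0,2),(1,3),(10,0),(6,3)]⟩,⟨0,[(4,0),(15,0),(1,0)]⟩⟩ ⟨false,0,⟨0,[(0,0)]⟩,⟨3,
  [(7,1),(14,1),(14,1),(1,1),(7,0),(6,2)]⟩⟩]⟩) (.R ⟨1,false,false,true,[1,0,0,-1],[0,1],[1,0,0,0,0,
  0,0,0,-1],(⟨0,[(36,0)]⟩,⟨0,[(37,0)]⟩),(⟨0,[(49,0)]⟩,⟨0,[(48,0)]⟩),⟨0,[(6,0)]⟩,.k,.k,(.x (-1) ⟨15,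
  [(18,3),(7,3),(7,6),(0,6),(11,1)]⟩ ⟨0,[(49,0)]⟩),(.x (-1) ⟨15,[(18,3),(7,3),(7,6),(0,6),(11,1)]⟩
  ⟨0,[(49,0)]⟩),(.r (-1) ⟨12,[(8,1),(0,2),(0,4),(6,3),(4,5),(7,3),(2,1),(0,3),(1,1)]⟩ ⟨9,[(5,9),(14,
  5),(2,1),(18,2),(0,0)]⟩),.k,⟨false,1,⟨0,[(9,0),(14,0),(5,0)]⟩,⟨2,[(0,0),(0,0),(3,1),(14,0),(1,0),
  (9,0),(7,0)]⟩⟩,⟨true,0,⟨0,[(36,0)]⟩,⟨5,[(0,1),(6,1),(4,0),(24,1),(1,2),(2,2)]⟩⟩,⟨true,0,⟨0,[]⟩,⟨0,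
  [(56,0)]⟩⟩,⟨false,0,⟨0,[(1,0),(50,0)]⟩,⟨11,[(0,5),(7,5),(13,1),(1,1),(9,2),(12,2),(6,3)]⟩⟩,⟨false,
  1,⟨11,[(1,3),(0,3),(31,2),(0,2),(11,1),(6,3)]⟩,⟨0,[(52,0)]⟩⟩,⟨false,0,⟨0,[(1,0)]⟩,⟨21,[(0,13),(7,
  7),(1,4),(11,9),(11,6),(12,3),(2,5),(3,5)]⟩⟩,[.o ⟨false,0,⟨0,[(51,0)]⟩,⟨1,[(47,0),(4,1),(1,0)]⟩⟩,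
  .e ⟨true,0,⟨0,[(8,0),(21,0),(5,0),(2,0),(0,0)]⟩,⟨0,[(5,0),(14,0),(1,0)]⟩⟩ ⟨true,0,⟨3,[(1,1),(7,1),
  (26,1),(5,0),(0,0)]⟩,⟨0,[(0,0)]⟩⟩,.o ⟨false,1,⟨1,[(37,1),(9,0),(5,0)]⟩,⟨0,[(30,0),(5,0),(2,0),(0,
  0)]⟩⟩,.a ⟨true,0,⟨0,[(37,0)]⟩,⟨0,[(36,0)]⟩⟩ ⟨false,1,⟨11,[(2,3),(6,1),(7,3),(15,1),(0,2),(1,3),
  (10,0),(6,3)]⟩,⟨0,[(0,0),(0,0),(50,0)]⟩⟩ ⟨true,0,⟨0,[(36,0),(14,0)]⟩,⟨0,[(0,0)]⟩⟩]⟩)) (.I [0,0,-1,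
  -1,0,0,0,0,-1] (.R ⟨1,false,false,false,[1,0,0,-1],[1,1,-1],[1,1,1],(⟨0,[(36,0)]⟩,⟨0,[(37,0)]⟩),
  (⟨0,[(45,0),(3,0)]⟩,⟨1,[(18,0),(27,0)]⟩),⟨0,[(6,0)]⟩,.k,.k,(.x (-1) ⟨15,[(18,3),(7,3),(7,6),(0,6),
  (11,1)]⟩ ⟨0,[(49,0)]⟩),(.r (-1) ⟨1,[(10,0),(23,0)]⟩ ⟨0,[(2,0),(0,4),(0,1),(1,0),(5,0),(7,5),(1,5),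
  (4,1),(21,0)]⟩),(.r (-1) ⟨11,[(0,5),(9,5),(11,1),(1,1),(9,2),(19,0)]⟩ ⟨4,[(5,4),(14,0),(2,1),(18,
  2),(0,0)]⟩),.k,⟨true,0,⟨0,[(20,0),(1,0)]⟩,⟨5,[(13,1),(9,1),(9,1),(8,1),(7,2),(4,0)]⟩⟩,⟨false,1,⟨7,
  [(11,3),(22,0),(0,0),(0,7),(10,1)]⟩,⟨11,[(1,2),(0,0),(2,3),(1,4),(8,0),(16,3),(3,2)]⟩⟩,⟨false,0,
  ⟨0,[(4,0),(15,0),(1,0)]⟩,⟨7,[(0,1),(1,1),(31,1),(1,1),(10,0),(5,1),(0,2)]⟩⟩,⟨false,1,⟨23,[(4,15),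
  (7,3),(16,7),(4,4),(0,8),(0,23),(10,5),(6,3)]⟩,⟨0,[(0,0),(6,0)]⟩⟩,⟨true,0,⟨1,[(4,0),(0,0),(14,0),
  (1,0),(9,0),(7,0)]⟩,⟨0,[(0,0)]⟩⟩,⟨false,1,⟨23,[(4,15),(7,11),(7,7),(13,4),(0,8),(0,23),(10,5),(6,
  3)]⟩,⟨0,[(1,0),(5,0),(28,0)]⟩⟩,[.a ⟨true,0,⟨3,[(14,0),(8,1),(12,0),(0,0)]⟩,⟨0,[(7,0),(28,0),(15,
  0)]⟩⟩ ⟨false,0,⟨0,[(56,0)]⟩,⟨1,[(53,0),(0,0)]⟩⟩ ⟨true,0,⟨1,[(12,0),(23,1),(2,0),(2,0)]⟩,⟨0,[(7,0),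
  (44,0)]⟩⟩,.o ⟨false,1,⟨7,[(12,3),(21,0),(0,0),(11,1),(6,3)]⟩,⟨0,[(40,0),(11,0)]⟩⟩,.o ⟨false,1,⟨1,
  [(37,1),(9,0),(5,0)]⟩,⟨0,[(30,0),(5,0),(2,0),(0,0)]⟩⟩,.e ⟨false,0,⟨0,[]⟩,⟨3,[(34,0),(0,0),(18,
  1)]⟩⟩ ⟨false,1,⟨7,[(12,3),(21,0),(0,0),(0,7),(10,1),(6,3)]⟩,⟨0,[(7,0),(44,0)]⟩⟩]⟩) (.R ⟨1,true,
  false,true,[1,0,0,-1],[0,1],[1,0,0,0,0,0,0,0,-1],(⟨0,[(36,0)]⟩,⟨0,[(37,0)]⟩),(⟨0,[(49,0)]⟩,⟨0,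
  [(48,0)]⟩),⟨0,[(6,0)]⟩,.k,.k,(.x (-1) ⟨15,[(18,3),(7,3),(7,6),(0,6),(11,1)]⟩ ⟨0,[(49,0)]⟩),(.x
  (-1) ⟨15,[(18,3),(7,3),(7,6),(0,6),(11,1)]⟩ ⟨0,[(49,0)]⟩),(.r (-1) ⟨11,[(1,5),(20,3),(1,3),(9,2),
  (1,5),(16,2),(0,1)]⟩ ⟨9,[(5,9),(14,5),(2,1),(18,2),(0,0)]⟩),.k,⟨false,1,⟨5,[(1,3),(0,1),(33,5),
  (10,0),(5,2),(0,1)]⟩,⟨0,[(0,0),(55,0)]⟩⟩,⟨true,0,⟨0,[(36,0)]⟩,⟨4,[(1,0),(2,0),(2,1),(8,0),(20,1),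
  (1,2),(2,1)]⟩⟩,⟨true,0,⟨0,[]⟩,⟨0,[(56,0)]⟩⟩,⟨false,0,⟨0,[(0,0),(35,0)]⟩,⟨11,[(1,7),(0,3),(31,2),
  (0,2),(11,1),(6,3)]⟩⟩,⟨false,1,⟨5,[(23,1),(3,1),(6,0),(0,0),(18,3)]⟩,⟨0,[(52,0)]⟩⟩,⟨true,0,⟨0,[(0,
  0),(35,0),(14,0)]⟩,⟨0,[(1,0)]⟩⟩,[]⟩)))))))))))))))

theorem ok159 : chk (cU (-1) true 10) t159 l90 = true := by decide +kernel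

noncomputable def t171 : Tre :=
  (.R ⟨1,false,false,true,[0,-1,1],[1,-1],[1],(⟨1,[(1,0),(25,0)]⟩,⟨0,[(26,0),(3,0)]⟩),(⟨0,[(29,0)]⟩,
  ⟨0,[(30,0)]⟩),⟨0,[(1,0)]⟩,.k,.k,(.r (-1) ⟨0,[(5,0),(27,0)]⟩ ⟨1,[(4,1),(18,2),(0,0)]⟩),.k,.k,.k,
  ⟨true,0,⟨15,[(3,3),(0,3),(18,4),(0,0),(6,5)]⟩,⟨0,[(33,0),(3,0)]⟩⟩,⟨false,1,⟨24,[(2,14),(0,2),(0,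
  2),(5,1),(2,2),(1,2),(0,2),(11,3)]⟩,⟨1,[(14,0),(2,0),(0,0)]⟩⟩,⟨false,0,⟨1,[(4,0),(18,0),(1,0),(5,
  0)]⟩,⟨4,[(0,0),(4,2),(4,0),(4,0),(0,0),(4,0),(11,0)]⟩⟩,⟨true,0,⟨0,[(19,0)]⟩,⟨3,[(0,2),(7,0),(4,1),
  (0,0)]⟩⟩,⟨false,0,⟨2,[(3,0),(0,1),(6,1),(11,1)]⟩,⟨4,[(0,0),(4,2),(4,0),(4,0),(0,0),(4,0),(11,
  5)]⟩⟩,⟨false,1,⟨7,[(4,3),(10,0),(0,0),(5,3),(5,3),(6,1)]⟩,⟨0,[(0,0)]⟩⟩,[.a ⟨true,0,⟨0,[(33,0),(3,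
  0)]⟩,⟨0,[(0,0),(3,0)]⟩⟩ ⟨true,0,⟨0,[]⟩,⟨1,[(23,0),(0,0)]⟩⟩ ⟨false,1,⟨0,[(2,0),(34,0)]⟩,⟨18,[(0,2),
  (2,3),(0,6),(9,15),(9,8),(6,5)]⟩⟩,.e ⟨false,1,⟨1,[(34,0),(0,0)]⟩,⟨0,[(37,0)]⟩⟩ ⟨false,1,⟨0,[(2,
  0)]⟩,⟨4,[(3,0),(0,0),(9,4),(9,3),(7,0)]⟩⟩,.o ⟨false,0,⟨0,[(23,0)]⟩,⟨24,[(2,14),(0,2),(0,2),(5,1),
  (2,2),(1,2),(0,2),(11,3)]⟩⟩,.e ⟨false,1,⟨1,[(34,0),(0,0)]⟩,⟨1,[(23,0),(0,0)]⟩⟩ ⟨false,1,⟨0,[(2,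
  0)]⟩,⟨15,[(3,3),(0,3),(9,15),(8,4),(0,16),(6,5)]⟩⟩]⟩)

theorem ok171 : chk (cU (-1) true 10) t171 l93 = true := by decide +kernel

noncomputable def t182 : Tre :=
  (.I [0,0,1,0,0,0,0,0,-1] (.Q [0,0,0,1,0,0,-1,-1,0,0,1,-1] (.p true [0,0,1] [0,0,0,1] (⟨0,[(33,
  0)]⟩,⟨0,[(32,0)]⟩) .k 2 (⟨0,[(24,0)]⟩,⟨0,[(23,0)]⟩) .k (.r (-1) ⟨11,[(11,3),(0,3),(8,6),(0,0),(4,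
  3),(2,3)]⟩ ⟨1,[(1,1),(0,0),(37,0)]⟩)) (.I [1,0,0,1,0,0,0,0,1] (.Q [0,0,0,0,0,-1,0,0,0,1,0,-1]
  (.ed true [0,1,0,1] .k) (.R ⟨1,false,false,false,[1,0,0,-1],[1,0,-1],[0,0,0,-1,0,0,0,0,-1],(⟨0,
  [(26,0)]⟩,⟨0,[(27,0)]⟩),(⟨0,[(35,0)]⟩,⟨0,[(36,0)]⟩),⟨0,[(0,0)]⟩,.k,.k,(.x (-1) ⟨15,[(10,3),(5,3),
  (7,6),(0,6),(11,1)]⟩ ⟨0,[(39,0)]⟩),.k,(.r (-1) ⟨0,[(3,0),(10,0)]⟩ ⟨1,[(5,0),(19,0)]⟩),.k,⟨false,1,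
  ⟨0,[(3,0),(10,0)]⟩,⟨0,[(1,0),(32,0)]⟩⟩,⟨true,0,⟨0,[(26,0),(2,0)]⟩,⟨0,[(20,0),(6,0),(2,0)]⟩⟩,⟨true,
  0,⟨0,[(42,0)]⟩,⟨0,[(41,0)]⟩⟩,⟨false,0,⟨23,[(2,13),(1,19),(0,2),(1,1),(17,1),(0,9),(2,5),(7,0),(2,
  11)]⟩,⟨0,[(3,0),(10,0),(2,0),(2,0),(6,0)]⟩⟩,⟨false,1,⟨3,[(24,0),(0,0),(18,1)]⟩,⟨0,[]⟩⟩,⟨false,0,
  ⟨12,[(2,11),(1,8),(0,1),(6,2),(12,1),(0,0),(2,0),(10,4)]⟩,⟨0,[(3,0),(10,0),(5,0),(6,0),(2,0)]⟩⟩,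
  [.e ⟨false,1,⟨1,[(14,0),(9,0),(9,0),(7,0)]⟩,⟨0,[(1,0)]⟩⟩ ⟨false,0,⟨0,[(2,0),(39,0)]⟩,⟨15,[(14,7),
  (2,7),(5,3),(0,0),(0,0),(1,15),(9,1),(6,3)]⟩⟩,.o ⟨false,1,⟨7,[(7,3),(16,0),(0,0),(11,1),(6,3)]⟩,
  ⟨0,[(30,0)]⟩⟩,.o ⟨false,1,⟨1,[(27,1),(9,0),(5,0)]⟩,⟨5,[(2,1),(2,0),(20,3),(2,1),(0,3),(6,0),(2,1),
  (1,3)]⟩⟩,.a ⟨true,0,⟨0,[(27,0)]⟩,⟨0,[(26,0)]⟩⟩ ⟨false,1,⟨0,[(3,0),(10,0),(5,0)]⟩,⟨7,[(1,0),(2,2),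
  (0,1),(6,1),(4,1),(7,1),(7,1)]⟩⟩ ⟨true,0,⟨0,[(2,0),(39,0)]⟩,⟨0,[(27,0),(2,0)]⟩⟩]⟩) (.R ⟨0,false,
  false,false,[1,0,0,-1],[1,0,-1],[0,0,0,-1,0,0,0,0,-1],(⟨0,[(26,0)]⟩,⟨0,[(27,0)]⟩),(⟨0,[(35,0)]⟩,
  ⟨0,[(36,0)]⟩),⟨0,[(0,0)]⟩,.k,.k,(.x (-1) ⟨15,[(10,3),(5,3),(7,6),(0,6),(11,1)]⟩ ⟨0,[(39,0)]⟩),.k,
  .k,.k,⟨false,1,⟨0,[(3,0),(10,0)]⟩,⟨0,[(1,0),(32,0)]⟩⟩,⟨true,0,⟨0,[(26,0),(2,0)]⟩,⟨5,[(0,3),(9,0),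
  (5,0),(6,2),(3,1)]⟩⟩,⟨true,0,⟨0,[(42,0)]⟩,⟨0,[(41,0)]⟩⟩,⟨false,0,⟨23,[(2,13),(1,19),(0,2),(1,1),
  (17,1),(0,9),(2,5),(7,0),(2,11)]⟩,⟨7,[(0,4),(11,1),(1,3),(1,2),(1,1),(2,0),(1,0),(0,3),(2,2),(2,
  1)]⟩⟩,⟨false,0,⟨0,[]⟩,⟨0,[]⟩⟩,⟨false,0,⟨0,[]⟩,⟨0,[]⟩⟩,[.e ⟨false,1,⟨1,[(14,0),(9,0),(9,0),(7,0)]⟩,
  ⟨0,[(1,0)]⟩⟩ ⟨false,0,⟨0,[(2,0),(39,0)]⟩,⟨15,[(14,7),(2,7),(5,3),(0,0),(0,0),(1,15),(9,1),(6,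
  3)]⟩⟩,.o ⟨false,1,⟨7,[(7,3),(16,0),(0,0),(11,1),(6,3)]⟩,⟨0,[(30,0)]⟩⟩,.o ⟨false,1,⟨1,[(27,1),(9,
  0),(5,0)]⟩,⟨5,[(2,1),(2,0),(20,3),(2,1),(0,3),(6,0),(2,1),(1,3)]⟩⟩,.a ⟨true,0,⟨0,[(27,0)]⟩,⟨0,
  [(26,0)]⟩⟩ ⟨false,1,⟨0,[(3,0),(10,0),(5,0)]⟩,⟨7,[(1,0),(2,2),(0,1),(6,1),(4,1),(7,1),(7,1)]⟩⟩
  ⟨true,0,⟨0,[(2,0),(39,0)]⟩,⟨0,[(27,0),(2,0)]⟩⟩]⟩)) (.Q [0,0,0,0,0,-1,0,0,0,1,0,-1] (.ed true [0,1,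
  0,1] .k) (.Q [0,0,0,1,0,0,0,0,0,1,0,-1] (.p false [0,0,0,1] [1] (⟨0,[(27,0)]⟩,⟨0,[(26,0)]⟩) .k 1
  (⟨0,[]⟩,⟨0,[]⟩) .k .k) (.R ⟨1,false,false,true,[1,0,0,-1],[0,1],[0,1,0,-1,0,0,0,0,-1],(⟨0,[(27,
  0)]⟩,⟨0,[(28,0)]⟩),(⟨0,[(40,0)]⟩,⟨0,[(39,0)]⟩),⟨0,[(1,0)]⟩,.k,.k,(.x (-1) ⟨15,[(11,3),(5,3),(7,6),
  (0,6),(11,1)]⟩ ⟨0,[(40,0)]⟩),(.x (-1) ⟨15,[(11,3),(5,3),(7,6),(0,6),(11,1)]⟩ ⟨0,[(40,0)]⟩),(.r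
  (-1) ⟨0,[(2,0),(12,0),(19,0)]⟩ ⟨1,[(6,0),(9,0),(1,0),(7,0),(7,0)]⟩),.k,⟨false,1,⟨0,[(2,0),(12,0),
  (19,0)]⟩,⟨10,[(5,4),(0,2),(6,4),(0,2),(3,3),(4,0),(2,2)]⟩⟩,⟨true,0,⟨0,[(27,0)]⟩,⟨0,[(21,0),(6,0),
  (1,0),(0,0)]⟩⟩,⟨false,0,⟨0,[(43,0)]⟩,⟨31,[(13,7),(0,7),(9,3),(0,6),(0,6),(11,1),(5,3),(0,11)]⟩⟩,
  ⟨false,0,⟨3,[(0,0),(4,1),(0,0),(6,0),(4,0),(7,0),(0,2),(6,0)]⟩,⟨3,[(2,3),(6,1),(2,0),(5,0),(2,0),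
  (2,0),(3,3),(9,0),(2,1)]⟩⟩,⟨true,0,⟨0,[(47,0)]⟩,⟨0,[]⟩⟩,⟨false,0,⟨25,[(0,25),(4,11),(0,6),(6,7),
  (4,5),(4,1),(2,6),(7,3)]⟩,⟨7,[(2,8),(2,0),(6,5),(8,1),(2,1),(3,7),(2,1),(6,1),(2,3)]⟩⟩,[.o ⟨false,
  0,⟨0,[(42,0)]⟩,⟨1,[(2,0),(2,0),(32,0),(6,0)]⟩⟩,.a ⟨true,0,⟨0,[(0,0),(27,0)]⟩,⟨0,[(43,0)]⟩⟩ ⟨true,
  0,⟨0,[(2,0)]⟩,⟨25,[(5,11),(0,6),(6,7),(4,5),(4,1),(2,6),(7,3)]⟩⟩ ⟨false,0,⟨0,[(0,0)]⟩,⟨7,[(2,0),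
  (2,2),(6,3),(11,1),(0,0),(2,7),(9,2)]⟩⟩,.o ⟨false,1,⟨1,[(28,1),(9,0),(5,0)]⟩,⟨5,[(2,1),(0,1),(1,
  1),(0,0),(20,3),(2,1),(0,3),(6,0),(2,1)]⟩⟩,.e ⟨false,1,⟨15,[(2,7),(9,3),(2,3),(8,3),(0,4),(0,0),
  (5,3),(12,1)]⟩,⟨5,[(5,3),(0,0),(6,3),(7,1),(4,0)]⟩⟩ ⟨false,0,⟨0,[(0,0)]⟩,⟨1,[(2,0),(2,0),(22,1),
  (9,0),(6,0)]⟩⟩]⟩) (.R ⟨1,false,false,true,[1,0,0,-1],[0,1],[0,1,0,-1,0,0,0,0,-1],(⟨0,[(27,0)]⟩,⟨0,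
  [(28,0)]⟩),(⟨0,[(40,0)]⟩,⟨0,[(39,0)]⟩),⟨0,[(1,0)]⟩,.k,.k,(.x (-1) ⟨15,[(11,3),(5,3),(7,6),(0,6),
  (11,1)]⟩ ⟨0,[(40,0)]⟩),(.x (-1) ⟨15,[(11,3),(5,3),(7,6),(0,6),(11,1)]⟩ ⟨0,[(40,0)]⟩),(.r (-1) ⟨0,
  [(2,0),(12,0),(19,0)]⟩ ⟨1,[(6,0),(9,0),(1,0),(7,0),(7,0)]⟩),.k,⟨false,1,⟨0,[(2,0),(12,0),(19,0)]⟩,
  ⟨10,[(5,4),(0,2),(6,4),(0,2),(3,3),(4,0),(2,2)]⟩⟩,⟨true,0,⟨0,[(27,0)]⟩,⟨11,[(0,4),(5,0),(6,0),(4,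
  0),(9,6),(1,4),(2,3),(4,0)]⟩⟩,⟨false,0,⟨0,[(43,0)]⟩,⟨31,[(13,7),(0,7),(9,3),(0,6),(0,6),(11,1),(5,
  3),(0,11)]⟩⟩,⟨false,0,⟨25,[(5,11),(0,6),(6,7),(4,5),(4,1),(2,6),(0,25),(6,3)]⟩,⟨3,[(0,3),(1,1),
  (10,0),(7,0),(3,0),(15,0),(2,2)]⟩⟩,⟨true,0,⟨0,[(47,0)]⟩,⟨0,[]⟩⟩,⟨false,0,⟨10,[(5,4),(0,2),(6,4),
  (0,2),(3,3),(4,0),(2,2),(0,10)]⟩,⟨1,[(0,1),(1,1),(41,0),(0,0)]⟩⟩,[.o ⟨false,0,⟨0,[(42,0)]⟩,⟨1,[(2,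
  0),(2,0),(32,0),(6,0)]⟩⟩,.e ⟨true,0,⟨0,[(2,0)]⟩,⟨25,[(5,11),(0,6),(6,7),(4,5),(4,1),(2,6),(7,
  3)]⟩⟩ ⟨true,0,⟨9,[(6,1),(6,1),(4,1),(6,0),(0,0),(0,9),(5,0),(0,2)]⟩,⟨0,[(0,0)]⟩⟩,.o ⟨false,1,⟨1,
  [(28,1),(9,0),(5,0)]⟩,⟨5,[(2,1),(0,1),(1,1),(0,0),(20,3),(2,1),(0,3),(6,0),(2,1)]⟩⟩,.a ⟨true,0,⟨0,
  [(28,0)]⟩,⟨0,[(27,0)]⟩⟩ ⟨false,1,⟨15,[(2,7),(9,3),(2,3),(8,3),(0,4),(0,0),(5,3),(12,1)]⟩,⟨5,[(5,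
  3),(0,0),(6,3),(7,1),(4,0)]⟩⟩ ⟨true,0,⟨0,[(27,0),(14,0)]⟩,⟨0,[(0,0)]⟩⟩]⟩)) (.I [1,0,0,0,0,0,0,0,
  1] (.R ⟨1,false,false,false,[0,0,0,1],[1,-1],[1,0,0,0,0,0,0,0,1],(⟨0,[(28,0)]⟩,⟨0,[(27,0)]⟩),(⟨0,
  [(39,0)]⟩,⟨0,[(40,0)]⟩),⟨2,[(1,0),(9,0),(5,0),(10,1)]⟩,.k,.k,(.r (-1) ⟨15,[(5,7),(6,3),(2,3),(8,
  3),(0,0),(0,4),(5,3),(12,1)]⟩ ⟨13,[(2,3),(1,3),(1,2),(6,3),(4,1),(4,1),(1,2)]⟩),(.x 0 ⟨0,[(40,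
  0)]⟩ ⟨15,[(11,3),(5,3),(7,6),(0,6),(11,1)]⟩),.k,.k,⟨true,0,⟨3,[(0,0),(4,0),(0,0),(6,0),(4,0),(7,
  0),(7,0)]⟩,⟨0,[(2,0)]⟩⟩,⟨false,1,⟨1,[(28,1),(9,0),(5,0)]⟩,⟨0,[(27,0)]⟩⟩,⟨true,0,⟨0,[]⟩,⟨0,[(47,
  0)]⟩⟩,⟨false,1,⟨37,[(1,37),(0,17),(8,1),(0,19),(4,21),(1,9),(5,9),(12,0),(2,11),(3,6)]⟩,⟨3,[(0,0),
  (4,0),(0,0),(6,0),(4,0),(7,0),(0,3),(6,0)]⟩⟩,⟨false,1,⟨31,[(13,7),(0,7),(9,3),(0,6),(0,6),(11,1),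
  (5,3),(0,11)]⟩,⟨0,[(43,0)]⟩⟩,⟨false,1,⟨79,[(1,79),(0,17),(6,47),(1,1),(1,8),(3,49),(1,23),(1,8),
  (3,30),(12,0),(2,30)]⟩,⟨9,[(5,5),(0,1),(9,1),(9,1),(0,9),(3,1),(1,0),(0,2)]⟩⟩,[.a ⟨true,0,⟨0,[(43,
  0)]⟩,⟨4,[(13,0),(0,0),(4,0),(3,0),(3,1),(0,1),(7,1),(2,0)]⟩⟩ ⟨true,0,⟨0,[(0,0)]⟩,⟨0,[(4,0)]⟩⟩
  ⟨false,1,⟨5,[(1,3),(9,0),(0,5),(4,0),(6,2),(3,1)]⟩,⟨9,[(6,1),(6,1),(4,1),(6,0),(0,0),(0,9),(5,0),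
  (0,2)]⟩⟩,.o ⟨false,1,⟨1,[(2,0),(2,0),(32,0),(6,0)]⟩,⟨0,[(42,0)]⟩⟩,.o ⟨false,0,⟨5,[(2,1),(0,1),(1,
  1),(0,0),(20,3),(2,1),(0,3),(6,0),(2,1)]⟩,⟨1,[(28,1),(9,0),(5,0)]⟩⟩,.o ⟨false,0,⟨0,[(27,0),(2,0),
  (2,0)]⟩,⟨13,[(1,13),(7,3),(1,1),(5,5),(1,1),(18,0),(5,8)]⟩⟩]⟩) (.Q [0,0,0,-1,0,0,0,0,0,-1,0,1]
  (.p true [0,0,0,1] [1] (⟨0,[(28,0)]⟩,⟨0,[(27,0)]⟩) .k 1 (⟨0,[]⟩,⟨0,[]⟩) .k .k) (.R ⟨0,false,false,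
  true,[1,0,0,-1],[0,1],[0,1,0,0,0,0,0,0,-1],(⟨0,[(28,0)]⟩,⟨0,[(29,0)]⟩),(⟨0,[(41,0)]⟩,⟨0,[(40,
  0)]⟩),⟨0,[(2,0)]⟩,.k,.k,(.x (-1) ⟨15,[(12,3),(5,3),(7,6),(0,6),(11,1)]⟩ ⟨0,[(41,0)]⟩),(.x (-1)
  ⟨15,[(12,3),(5,3),(7,6),(0,6),(11,1)]⟩ ⟨0,[(41,0)]⟩),.k,.k,⟨false,1,⟨0,[(3,0),(41,0)]⟩,⟨25,[(6,
  11),(0,6),(6,7),(4,5),(4,1),(2,6),(7,3)]⟩⟩,⟨true,0,⟨0,[(28,0)]⟩,⟨11,[(0,4),(6,0),(6,0),(4,0),(9,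
  6),(1,4),(2,3),(4,0)]⟩⟩,⟨true,0,⟨0,[(48,0)]⟩,⟨0,[]⟩⟩,⟨false,0,⟨25,[(6,11),(0,6),(6,7),(4,5),(4,1),
  (2,6),(0,25),(6,3)]⟩,⟨1,[(0,1),(0,1),(43,0),(0,0)]⟩⟩,⟨false,0,⟨0,[]⟩,⟨0,[]⟩⟩,⟨false,0,⟨0,[]⟩,⟨0,
  []⟩⟩,[.o ⟨false,0,⟨0,[(43,0)]⟩,⟨1,[(3,0),(2,0),(32,0),(6,0)]⟩⟩,.e ⟨true,0,⟨0,[(1,0)]⟩,⟨9,[(6,5),
  (0,1),(9,1),(9,1),(4,1),(1,0),(0,2)]⟩⟩ ⟨true,0,⟨9,[(7,1),(6,1),(4,1),(6,0),(0,0),(0,9),(5,0),(0,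
  2)]⟩,⟨0,[(0,0)]⟩⟩,.o ⟨false,1,⟨1,[(29,1),(9,0),(5,0)]⟩,⟨5,[(3,1),(0,1),(1,1),(0,0),(20,3),(2,1),
  (0,3),(6,0),(2,1)]⟩⟩,.a ⟨true,0,⟨0,[(29,0)]⟩,⟨0,[(28,0)]⟩⟩ ⟨false,1,⟨1,[(26,0),(18,0)]⟩,⟨5,[(6,3),
  (0,0),(9,1),(9,0),(14,1)]⟩⟩ ⟨true,0,⟨0,[(28,0),(14,0)]⟩,⟨0,[(0,0)]⟩⟩]⟩) (.R ⟨0,false,false,true,
  [1,0,0,-1],[0,1],[0,1,0,0,0,0,0,0,-1],(⟨0,[(28,0)]⟩,⟨0,[(29,0)]⟩),(⟨0,[(41,0)]⟩,⟨0,[(40,0)]⟩),⟨0,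
  [(2,0)]⟩,.k,.k,(.x (-1) ⟨15,[(12,3),(5,3),(7,6),(0,6),(11,1)]⟩ ⟨0,[(41,0)]⟩),(.x (-1) ⟨15,[(12,3),
  (5,3),(7,6),(0,6),(11,1)]⟩ ⟨0,[(41,0)]⟩),.k,.k,⟨false,1,⟨0,[(3,0),(41,0)]⟩,⟨25,[(6,11),(0,6),(6,
  7),(4,5),(4,1),(2,6),(7,3)]⟩⟩,⟨true,0,⟨0,[(28,0)]⟩,⟨5,[(2,3),(9,0),(5,0),(10,1),(1,2),(2,2)]⟩⟩,
  ⟨true,0,⟨0,[(48,0)]⟩,⟨0,[]⟩⟩,⟨false,0,⟨25,[(6,11),(0,6),(6,7),(4,5),(4,1),(2,6),(0,25),(6,3)]⟩,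
  ⟨19,[(1,5),(0,19),(0,11),(8,1),(0,7),(4,9),(1,3),(5,0),(12,0),(6,9)]⟩⟩,⟨false,0,⟨0,[]⟩,⟨0,[]⟩⟩,
  ⟨false,0,⟨0,[]⟩,⟨0,[]⟩⟩,[.o ⟨false,0,⟨0,[(43,0)]⟩,⟨1,[(3,0),(2,0),(32,0),(6,0)]⟩⟩,.a ⟨true,0,⟨0,
  [(0,0),(28,0)]⟩,⟨0,[(44,0)]⟩⟩ ⟨true,0,⟨0,[(1,0)]⟩,⟨9,[(6,5),(0,1),(9,1),(9,1),(4,1),(1,0),(0,
  2)]⟩⟩ ⟨false,0,⟨0,[(0,0)]⟩,⟨7,[(3,0),(2,2),(6,3),(11,1),(0,0),(2,7),(9,2)]⟩⟩,.o ⟨false,1,⟨1,[(29,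
  1),(9,0),(5,0)]⟩,⟨5,[(3,1),(0,1),(1,1),(0,0),(20,3),(2,1),(0,3),(6,0),(2,1)]⟩⟩,.e ⟨false,1,⟨1,
  [(26,0),(18,0)]⟩,⟨5,[(6,3),(0,0),(9,1),(9,0),(14,1)]⟩⟩ ⟨false,0,⟨0,[(0,0)]⟩,⟨1,[(3,0),(2,0),(22,
  1),(9,0),(6,0)]⟩⟩]⟩))))) (.I [1,0,0,0,0,0,0,0,1] (.R ⟨1,false,false,false,[0,0,0,1],[0,-1,1],[1,0,
  0,0,0,0,0,0,1],(⟨0,[(26,0)]⟩,⟨0,[(25,0)]⟩),(⟨1,[(9,0),(25,0)]⟩,⟨0,[(34,0),(3,0)]⟩),⟨3,[(1,2),(3,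
  0),(3,0),(2,0),(2,0),(10,0)]⟩,.k,.k,(.x 0 ⟨7,[(9,1),(5,1),(2,1),(12,8),(0,4)]⟩ ⟨0,[(38,0),(3,
  0)]⟩),(.r 0 ⟨1,[(4,0),(19,0)]⟩ ⟨0,[(2,0),(10,0)]⟩),.k,.k,⟨false,0,⟨1,[(0,1),(3,0),(37,0)]⟩,⟨0,[(2,
  0),(10,0)]⟩⟩,⟨true,0,⟨2,[(1,1),(2,0),(2,0),(14,0),(3,0)]⟩,⟨0,[(25,0),(2,0)]⟩⟩,⟨true,0,⟨0,[]⟩,⟨0,
  [(45,0)]⟩⟩,⟨false,1,⟨3,[(1,3),(0,3),(4,1),(3,0),(1,1),(3,0),(1,2),(0,0),(13,0)]⟩,⟨33,[(0,27),(3,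
  10),(0,5),(2,1),(2,1),(6,9),(5,2),(0,33),(10,7)]⟩⟩,⟨false,1,⟨31,[(11,7),(0,7),(9,3),(0,6),(0,6),
  (11,1),(5,3),(0,11)]⟩,⟨0,[(41,0)]⟩⟩,⟨false,1,⟨1,[(1,1),(0,1),(4,1),(3,0),(5,0),(1,0),(0,0),(13,
  0)]⟩,⟨7,[(3,5),(0,1),(0,1),(18,0),(0,7),(2,3),(7,0)]⟩⟩,[.a ⟨true,0,⟨0,[(1,0),(23,0)]⟩,⟨3,[(6,0),
  (5,1),(12,0),(0,0)]⟩⟩ ⟨true,0,⟨0,[(0,0)]⟩,⟨0,[(2,0)]⟩⟩ ⟨false,1,⟨0,[(1,0),(40,0)]⟩,⟨67,[(4,21),(0,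
  11),(2,3),(2,3),(6,19),(4,2),(0,2),(0,67),(10,15)]⟩⟩,.o ⟨false,1,⟨1,[(1,1),(23,1),(10,0),(6,0)]⟩,
  ⟨0,[(8,0)]⟩⟩,.o ⟨false,0,⟨0,[(19,0),(5,0),(2,0),(0,0)]⟩,⟨1,[(26,1),(9,0),(5,0)]⟩⟩,.o ⟨false,0,⟨0,
  [(25,0),(2,0),(2,0)]⟩,⟨2,[(1,1),(2,0),(2,3),(14,0),(3,0)]⟩⟩]⟩) (.R ⟨1,false,false,false,[0,0,0,1],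
  [1,-1],[0,0,0,-1,0,0,0,0,1],(⟨0,[(26,0)]⟩,⟨0,[(25,0)]⟩),(⟨0,[(37,0)]⟩,⟨0,[(38,0)]⟩),⟨3,[(1,2),(3,
  0),(3,0),(2,0),(2,0),(10,0)]⟩,.k,.k,(.r (-1) ⟨15,[(3,7),(6,3),(2,3),(8,3),(0,0),(0,4),(5,3),(12,
  1)]⟩ ⟨17,[(0,3),(1,7),(1,2),(6,3),(4,1),(4,1),(1,2)]⟩),(.x 0 ⟨0,[(38,0)]⟩ ⟨15,[(9,3),(5,3),(7,6),
  (0,6),(11,1)]⟩),.k,.k,⟨true,0,⟨9,[(3,5),(0,1),(9,1),(9,1),(4,1),(1,0),(0,2)]⟩,⟨0,[(0,0)]⟩⟩,⟨false,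
  1,⟨1,[(26,1),(9,0),(5,0)]⟩,⟨0,[(25,0)]⟩⟩,⟨true,0,⟨0,[(41,0)]⟩,⟨0,[(40,0)]⟩⟩,⟨false,1,⟨4,[(0,2),(0,
  2),(5,0),(2,1),(8,2),(3,0),(2,1),(9,0),(2,0)]⟩,⟨25,[(3,11),(0,6),(6,7),(4,5),(4,1),(2,6),(0,25),
  (6,3)]⟩⟩,⟨false,1,⟨3,[(23,0),(0,0),(18,1)]⟩,⟨0,[]⟩⟩,⟨false,1,⟨7,[(0,5),(0,3),(5,3),(3,1),(7,5),(3,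
  0),(2,3),(9,1),(5,0)]⟩,⟨9,[(3,5),(0,1),(9,1),(9,1),(0,9),(3,1),(1,0),(0,2)]⟩⟩,[.a ⟨true,0,⟨0,[(41,
  0)]⟩,⟨4,[(11,0),(0,0),(4,0),(3,0),(3,1),(0,1),(7,1),(2,0)]⟩⟩ ⟨true,0,⟨0,[(3,0)]⟩,⟨17,[(0,3),(1,7),
  (1,2),(6,3),(4,1),(4,1),(1,2)]⟩⟩ ⟨false,1,⟨2,[(1,1),(2,0),(2,0),(2,2),(11,0),(3,0)]⟩,⟨9,[(4,1),(6,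
  1),(4,1),(6,0),(0,0),(0,9),(5,0),(0,2)]⟩⟩,.o ⟨false,1,⟨1,[(36,0),(4,1),(1,0)]⟩,⟨0,[(40,0)]⟩⟩,.o
  ⟨false,0,⟨0,[(19,0),(5,0),(2,0),(0,0)]⟩,⟨1,[(26,1),(9,0),(5,0)]⟩⟩,.o ⟨false,0,⟨0,[(25,0),(2,0),(2,
  0)]⟩,⟨2,[(1,1),(2,0),(2,3),(14,0),(3,0)]⟩⟩]⟩))) (.Q [0,0,0,1,0,0,-1,-1,0,-1,1,1] (.p true [0,0,1]
  [1,0,0,-1] (⟨0,[(33,0)]⟩,⟨0,[(32,0)]⟩) .k 2 (⟨0,[(23,0)]⟩,⟨0,[(24,0)]⟩) .k (.r 0 ⟨3,[(0,2),(0,0),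
  (10,1),(3,0),(6,0),(0,0),(2,1),(11,0)]⟩ ⟨3,[(21,2),(0,0),(8,3)]⟩)) (.Q [0,0,0,0,0,-1,0,0,0,1,0,
  -1] (.ed true [0,1,0,1] .k) (.Q [0,0,0,-1,0,0,1,1,0,1,-1] (.p false [0,0,1] [1] (⟨0,[(35,0)]⟩,⟨0,
  [(34,0)]⟩) .k 1 (⟨0,[]⟩,⟨0,[]⟩) .k .k) (.R ⟨1,false,false,false,[1,0,0,-1],[0,-1,1],[1,1,0,0,0,0,
  0,0,-1],(⟨0,[(26,0)]⟩,⟨0,[(27,0)]⟩),(⟨1,[(10,0),(25,0)]⟩,⟨0,[(35,0),(3,0)]⟩),⟨0,[(1,0)]⟩,.k,.k,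
  (.x (-1) ⟨15,[(10,3),(5,3),(7,6),(0,6),(11,1)]⟩ ⟨0,[(39,0)]⟩),(.r 0 ⟨1,[(5,0),(18,0)]⟩ ⟨41,[(0,7),
  (3,11),(9,25),(0,3),(3,5),(5,14),(4,3),(6,0)]⟩),.k,.k,⟨true,0,⟨1,[(5,0),(18,0),(21,1)]⟩,⟨0,[(3,0),
  (11,0),(26,1)]⟩⟩,⟨false,0,⟨0,[(26,0),(5,0)]⟩,⟨0,[(2,0),(11,0)]⟩⟩,⟨false,0,⟨0,[]⟩,⟨3,[(24,0),(0,0),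
  (18,1)]⟩⟩,⟨false,0,⟨0,[(4,0),(21,0),(3,0),(9,0)]⟩,⟨1,[(2,1),(21,0),(18,0)]⟩⟩,⟨true,0,⟨0,[(41,0)]⟩,
  ⟨0,[(42,0)]⟩⟩,⟨false,0,⟨0,[(4,0),(12,0),(8,0),(13,0)]⟩,⟨1,[(2,0),(8,0),(12,0),(2,0),(6,0)]⟩⟩,[.a
  ⟨true,0,⟨0,[(0,0)]⟩,⟨3,[(7,0),(5,1),(12,0),(0,0)]⟩⟩ ⟨false,1,⟨1,[(24,0),(18,0),(2,1)]⟩,⟨21,[(3,
  13),(0,5),(0,0),(6,1),(12,0),(14,9)]⟩⟩ ⟨true,0,⟨2,[(0,0),(25,2),(2,0),(0,1),(1,0),(7,0),(1,1)]⟩,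
  ⟨0,[(2,0)]⟩⟩,.o ⟨false,1,⟨1,[(0,1),(36,0),(6,0)]⟩,⟨0,[(9,0)]⟩⟩,.o ⟨false,1,⟨1,[(27,1),(9,0),(5,
  0)]⟩,⟨0,[(20,0),(5,0),(2,0),(0,0)]⟩⟩,.e ⟨false,1,⟨1,[(24,0),(18,0)]⟩,⟨5,[(4,3),(0,0),(9,1),(9,0),
  (14,1)]⟩⟩ ⟨false,1,⟨1,[(0,1),(25,1),(10,0),(6,0)]⟩,⟨0,[(2,0)]⟩⟩]⟩) (.Q [0,0,-1,-1,1,0,1,1,-1,0,-1,
  1] (.p false [0,0,1] [0,0,0,1] (⟨0,[(36,0)]⟩,⟨0,[(35,0)]⟩) .k 2 (⟨0,[(27,0)]⟩,⟨0,[(26,0)]⟩) .k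
  (.r (-1) ⟨11,[(14,3),(0,3),(8,6),(0,0),(4,3),(2,3)]⟩ ⟨5,[(3,1),(0,1),(0,0),(19,0),(8,3)]⟩)) (.R
  ⟨1,false,false,false,[1,0,0,-1],[1,1,-1],[1,1,0,0,0,0,0,0,-1],(⟨0,[(27,0)]⟩,⟨0,[(28,0)]⟩),(⟨0,
  [(36,0),(3,0)]⟩,⟨1,[(11,0),(25,0)]⟩),⟨0,[(2,0)]⟩,.k,.k,(.x (-1) ⟨15,[(11,3),(5,3),(7,6),(0,6),(11,
  1)]⟩ ⟨0,[(40,0)]⟩),(.x 0 ⟨4,[(11,2),(7,0),(1,1),(9,1),(1,0)]⟩ ⟨9,[(9,1),(10,3),(4,2),(0,2),(9,9),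
  (1,1),(1,9)]⟩),(.r (-2) ⟨0,[(5,0),(9,0),(9,0)]⟩ ⟨3,[(4,2),(0,0),(0,3),(9,1),(3,0),(6,0),(0,0),(2,
  1),(11,0)]⟩),.k,⟨true,1,⟨1,[(15,0),(7,0),(1,0),(5,0),(11,1)]⟩,⟨0,[(4,0),(1,0),(9,0),(26,1)]⟩⟩,
  ⟨false,1,⟨19,[(9,11),(10,3),(4,2),(0,2),(0,19),(10,1)]⟩,⟨0,[(21,0),(6,0),(2,0)]⟩⟩,⟨false,0,⟨0,[]⟩,
  ⟨3,[(25,0),(0,0),(18,1)]⟩⟩,⟨false,0,⟨3,[(1,1),(2,1),(1,0),(19,0),(0,3),(2,1),(10,1)]⟩,⟨0,[(0,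
  0)]⟩⟩,⟨true,0,⟨0,[(42,0)]⟩,⟨0,[(43,0)]⟩⟩,⟨false,0,⟨17,[(1,13),(2,7),(1,4),(6,5),(12,4),(0,17),(2,
  3),(10,5)]⟩,⟨0,[(0,0),(42,0)]⟩⟩,[.o ⟨false,0,⟨0,[(1,0)]⟩,⟨11,[(0,7),(4,5),(10,1),(9,0),(0,7),(2,
  1),(0,1),(1,3),(4,2)]⟩⟩,.o ⟨false,1,⟨11,[(7,3),(6,3),(10,0),(0,0),(11,3),(6,5)]⟩,⟨0,[(31,0),(11,
  0)]⟩⟩,.o ⟨false,1,⟨7,[(0,3),(2,3),(0,1),(21,0),(11,1),(5,0)]⟩,⟨5,[(1,1),(4,0),(20,5),(2,1),(0,3),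
  (6,0),(2,1),(1,3)]⟩⟩,.a ⟨true,0,⟨0,[(28,0)]⟩,⟨0,[(27,0)]⟩⟩ ⟨false,1,⟨1,[(25,0),(18,0)]⟩,⟨5,[(5,3),
  (0,0),(9,1),(9,0),(14,1)]⟩⟩ ⟨true,0,⟨0,[(1,0),(25,0)]⟩,⟨0,[(28,0),(2,0),(11,0)]⟩⟩]⟩) (.R ⟨1,false,
  false,false,[1,0,0,-1],[1,0,-1],[1,1,0,0,0,0,0,0,-1],(⟨0,[(27,0)]⟩,⟨0,[(28,0)]⟩),(⟨0,[(36,0)]⟩,⟨0,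
  [(37,0)]⟩),⟨0,[(2,0)]⟩,.k,.k,(.x (-1) ⟨15,[(11,3),(5,3),(7,6),(0,6),(11,1)]⟩ ⟨0,[(40,0)]⟩),.k,(.x
  0 ⟨4,[(11,2),(7,0),(1,1),(9,1),(1,0)]⟩ ⟨9,[(9,1),(10,3),(4,2),(0,2),(9,9),(1,1),(1,9)]⟩),.k,
  ⟨false,1,⟨1,[(15,0),(7,0),(1,0),(5,0)]⟩,⟨6,[(4,2),(0,1),(0,0),(14,4),(4,0),(14,0)]⟩⟩,⟨true,0,⟨0,
  [(27,0),(2,0)]⟩,⟨0,[(21,0),(6,0),(2,0)]⟩⟩,⟨false,0,⟨0,[]⟩,⟨3,[(25,0),(0,0),(18,1)]⟩⟩,⟨true,(-1),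
  ⟨0,[(0,0),(42,0)]⟩,⟨1,[(25,0),(2,1),(2,1),(12,0)]⟩⟩,⟨true,0,⟨0,[(42,0)]⟩,⟨0,[(43,0)]⟩⟩,⟨true,(-1),
  ⟨0,[(0,0)]⟩,⟨3,[(12,0),(2,0),(8,0),(0,1),(2,3),(2,2),(11,1),(3,0)]⟩⟩,[.o ⟨false,0,⟨0,[(1,0),(41,
  0)]⟩,⟨3,[(25,0),(0,0),(4,3),(13,1)]⟩⟩,.o ⟨false,1,⟨7,[(8,3),(16,0),(0,0),(11,1),(6,3)]⟩,⟨0,[(31,
  0)]⟩⟩,.o ⟨false,1,⟨1,[(28,1),(9,0),(5,0)]⟩,⟨4,[(0,1),(24,0),(1,2),(2,0),(0,1),(1,0),(4,0),(2,0),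
  (1,1)]⟩⟩,.a ⟨true,0,⟨0,[(28,0)]⟩,⟨0,[(27,0)]⟩⟩ ⟨false,1,⟨1,[(25,0),(18,0)]⟩,⟨5,[(5,3),(0,0),(9,1),
  (9,0),(14,1)]⟩⟩ ⟨true,0,⟨3,[(0,1),(11,0),(8,0),(3,0),(1,1),(1,0),(13,0)]⟩,⟨0,[(28,0),(2,
  0)]⟩⟩]⟩))) (.Q [0,0,0,-1,0,0,1,1,0,1,-1] (.p false [0,0,1] [1] (⟨0,[(35,0)]⟩,⟨0,[(34,0)]⟩) .k 1
  (⟨0,[]⟩,⟨0,[]⟩) .k .k) (.R ⟨0,false,false,false,[1,0,0,-1],[0,-1,1],[0,1,0,0,0,0,0,0,-1],(⟨0,[(26,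
  0)]⟩,⟨0,[(27,0)]⟩),(⟨1,[(10,0),(25,0)]⟩,⟨0,[(35,0),(3,0)]⟩),⟨0,[(1,0)]⟩,.k,.k,(.x (-1) ⟨15,[(10,
  3),(5,3),(7,6),(0,6),(11,1)]⟩ ⟨0,[(39,0)]⟩),(.r 0 ⟨1,[(5,0),(18,0)]⟩ ⟨41,[(0,7),(3,11),(9,25),(0,
  3),(3,5),(5,14),(4,3),(6,0)]⟩),.k,.k,⟨true,0,⟨1,[(5,0),(18,0),(21,1)]⟩,⟨0,[(3,0),(11,0),(26,1)]⟩⟩,
  ⟨false,0,⟨0,[(26,0),(5,0)]⟩,⟨0,[(2,0),(11,0)]⟩⟩,⟨true,0,⟨0,[(46,0)]⟩,⟨0,[]⟩⟩,⟨false,0,⟨0,[(4,0),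
  (21,0),(3,0),(9,0)]⟩,⟨1,[(2,1),(21,0),(18,0)]⟩⟩,⟨false,0,⟨0,[]⟩,⟨0,[]⟩⟩,⟨false,0,⟨0,[]⟩,⟨0,[]⟩⟩,
  [.a ⟨true,0,⟨0,[(0,0)]⟩,⟨3,[(7,0),(5,1),(12,0),(0,0)]⟩⟩ ⟨false,1,⟨1,[(24,0),(18,0),(2,1)]⟩,⟨21,
  [(3,13),(0,5),(0,0),(6,1),(12,0),(14,9)]⟩⟩ ⟨true,0,⟨2,[(0,0),(25,2),(2,0),(0,1),(1,0),(7,0),(1,
  1)]⟩,⟨0,[(2,0)]⟩⟩,.o ⟨false,1,⟨1,[(0,1),(36,0),(6,0)]⟩,⟨0,[(9,0)]⟩⟩,.o ⟨false,1,⟨1,[(27,1),(9,0),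
  (5,0)]⟩,⟨0,[(20,0),(5,0),(2,0),(0,0)]⟩⟩,.e ⟨false,1,⟨1,[(24,0),(18,0)]⟩,⟨5,[(4,3),(0,0),(9,1),(9,
  0),(14,1)]⟩⟩ ⟨false,1,⟨1,[(0,1),(25,1),(10,0),(6,0)]⟩,⟨0,[(2,0)]⟩⟩]⟩) (.R ⟨0,false,false,false,[1,
  0,0,-1],[1,0,-1],[0,1,0,0,0,0,0,0,-1],(⟨0,[(26,0)]⟩,⟨0,[(27,0)]⟩),(⟨0,[(35,0)]⟩,⟨0,[(36,0)]⟩),⟨0,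
  [(1,0)]⟩,.k,.k,(.x (-1) ⟨15,[(10,3),(5,3),(7,6),(0,6),(11,1)]⟩ ⟨0,[(39,0)]⟩),.k,.k,.k,⟨false,1,⟨1,
  [(14,0),(7,0),(1,0),(5,0)]⟩,⟨6,[(3,2),(0,1),(0,0),(14,4),(4,0),(14,0)]⟩⟩,⟨true,0,⟨0,[(26,0),(2,
  0)]⟩,⟨5,[(1,3),(8,0),(5,0),(6,2),(3,1)]⟩⟩,⟨true,0,⟨0,[(46,0)]⟩,⟨0,[]⟩⟩,⟨false,0,⟨31,[(3,7),(0,21),
  (0,5),(0,9),(18,0),(0,31),(2,11),(7,4),(2,15)]⟩,⟨7,[(1,4),(10,1),(1,3),(1,2),(1,1),(2,0),(1,0),(0,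
  3),(2,2),(2,1)]⟩⟩,⟨false,0,⟨0,[]⟩,⟨0,[]⟩⟩,⟨false,0,⟨0,[]⟩,⟨0,[]⟩⟩,[.o ⟨false,0,⟨0,[(0,0),(41,0)]⟩,
  ⟨3,[(24,0),(0,0),(4,3),(13,1)]⟩⟩,.o ⟨false,1,⟨7,[(7,3),(16,0),(0,0),(11,1),(6,3)]⟩,⟨0,[(30,0)]⟩⟩,
  .o ⟨false,1,⟨1,[(27,1),(9,0),(5,0)]⟩,⟨5,[(0,1),(4,0),(20,5),(2,1),(0,3),(6,0),(2,1),(1,3)]⟩⟩,.a
  ⟨true,0,⟨0,[(27,0)]⟩,⟨0,[(26,0)]⟩⟩ ⟨false,1,⟨1,[(24,0),(18,0)]⟩,⟨5,[(4,3),(0,0),(9,1),(9,0),(14,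
  1)]⟩⟩ ⟨true,0,⟨0,[(0,0),(25,0),(15,0)]⟩,⟨0,[(27,0),(2,0)]⟩⟩]⟩))) (.R ⟨1,false,false,false,[1,0,0,
  -1],[0,-1,1],[1,1,0,0,0,0,0,0,-1],(⟨0,[(24,0)]⟩,⟨0,[(25,0)]⟩),(⟨1,[(8,0),(25,0)]⟩,⟨0,[(33,0),(3,
  0)]⟩),⟨3,[(0,2),(3,0),(3,0),(2,0),(2,0),(9,0)]⟩,.k,.k,(.x (-1) ⟨15,[(8,3),(5,3),(7,6),(0,6),(11,
  1)]⟩ ⟨0,[(37,0)]⟩),(.r 0 ⟨1,[(3,0),(18,0)]⟩ ⟨10,[(0,1),(1,2),(9,6),(0,0),(3,0),(5,3),(1,1),(1,0),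
  (0,0)]⟩),.k,.k,⟨true,0,⟨1,[(3,0),(18,0),(21,1)]⟩,⟨0,[(1,0),(11,0),(26,1)]⟩⟩,⟨false,0,⟨0,[(24,0),
  (5,0)]⟩,⟨0,[(6,0),(18,0)]⟩⟩,⟨false,0,⟨0,[]⟩,⟨3,[(22,0),(0,0),(18,1)]⟩⟩,⟨false,0,⟨5,[(0,5),(1,3),
  (0,0),(9,1),(9,0),(14,1)]⟩,⟨1,[(3,0),(2,1),(15,0),(2,1)]⟩⟩,⟨true,0,⟨0,[(39,0)]⟩,⟨0,[(40,0)]⟩⟩,
  ⟨false,0,⟨21,[(0,21),(0,3),(0,7),(0,4),(6,9),(12,4),(14,5)]⟩,⟨1,[(3,0),(5,1),(12,0),(2,1)]⟩⟩,[.e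
  ⟨false,1,⟨1,[(22,0),(18,0),(2,1)]⟩,⟨21,[(1,13),(0,5),(0,0),(6,1),(12,0),(14,9)]⟩⟩ ⟨false,0,⟨0,[(0,
  0)]⟩,⟨11,[(4,3),(6,3),(10,0),(0,0),(1,11),(9,3),(5,5)]⟩⟩,.o ⟨false,1,⟨3,[(0,0),(11,2),(12,0),(1,
  0),(2,3),(7,0),(3,0)]⟩,⟨0,[(7,0)]⟩⟩,.o ⟨false,1,⟨1,[(25,1),(9,0),(5,0)]⟩,⟨3,[(0,1),(2,0),(20,1),
  (2,1),(7,0)]⟩⟩,.a ⟨true,0,⟨0,[(25,0)]⟩,⟨0,[(24,0)]⟩⟩ ⟨false,1,⟨1,[(22,0),(18,0)]⟩,⟨5,[(2,3),(0,0),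
  (9,1),(9,0),(14,1)]⟩⟩ ⟨true,0,⟨0,[(0,0)]⟩,⟨0,[(7,0),(17,0)]⟩⟩]⟩)))

theorem ok182 : chk (cU (-1) true 10) t182 l102 = true := by decide +kernel

noncomputable def t209 : Tre :=
  (.R ⟨1,false,false,false,[1,-1,-1],[0,0,1],[1],(⟨0,[(15,0)]⟩,⟨0,[(30,0),(2,0)]⟩),(⟨0,[(30,0)]⟩,⟨0,
  [(29,0)]⟩),⟨0,[(10,0)]⟩,.k,.k,(.r (-1) ⟨27,[(0,7),(2,11),(0,11),(13,4),(0,4),(17,5)]⟩ ⟨21,[(5,1),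
  (2,7),(0,14),(1,14),(1,1),(4,3),(0,3),(7,10)]⟩),(.r 0 ⟨0,[(0,0)]⟩ ⟨10,[(1,4),(2,2),(4,6),(3,4),(4,
  3),(0,3),(4,9),(2,4)]⟩),(.r (-1) ⟨6,[(0,5),(2,1),(0,1),(13,1),(0,1),(17,0)]⟩ ⟨0,[(9,0),(1,0),(15,
  0)]⟩),.k,⟨true,0,⟨59,[(0,23),(4,3),(2,11),(9,4),(0,4),(11,1)]⟩,⟨1,[(9,0),(14,0),(2,0),(8,0)]⟩⟩,
  ⟨false,1,⟨0,[(17,0),(19,0)]⟩,⟨0,[(13,0)]⟩⟩,⟨false,0,⟨0,[(9,0)]⟩,⟨27,[(0,11),(2,3),(0,3),(13,10),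
  (0,10),(17,1)]⟩⟩,⟨false,1,⟨3,[(1,1),(2,1),(4,3),(7,1),(0,0),(0,0),(4,1)]⟩,⟨0,[(0,0),(12,0)]⟩⟩,
  ⟨true,0,⟨21,[(5,5),(2,1),(0,11),(1,11),(1,5),(4,0),(0,0)]⟩,⟨0,[(3,0)]⟩⟩,⟨false,1,⟨0,[(1,0),(22,0),
  (13,0)]⟩,⟨2,[(0,1),(2,1),(9,2),(20,0)]⟩⟩,[.a ⟨true,0,⟨0,[(1,0),(34,1)]⟩,⟨5,[(0,2),(4,0),(7,2),(6,
  1),(0,1)]⟩⟩ ⟨true,0,⟨0,[]⟩,⟨1,[(26,0),(0,0)]⟩⟩ ⟨false,1,⟨1,[(1,0),(2,0),(12,0),(6,0),(12,0)]⟩,⟨19,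
  [(0,4),(6,0),(0,3),(4,16),(11,4),(5,0),(6,2)]⟩⟩,.o ⟨false,1,⟨0,[(24,0),(13,0)]⟩,⟨0,[(22,0)]⟩⟩,.o
  ⟨false,0,⟨0,[(23,0)]⟩,⟨7,[(17,3),(0,0),(0,0),(11,1),(5,3)]⟩⟩,.o ⟨false,0,⟨0,[(13,0),(12,0)]⟩,⟨3,
  [(0,1),(0,1),(2,1),(6,1),(19,0),(5,0)]⟩⟩]⟩)

theorem ok209 : chk (cU (-1) true 10) t209 l113 = true := by decide +kernel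

noncomputable def t219 : Tre :=
  (.I [0,-1,-2,-2,1,0,0,0,1] (.Q [0,-1,0,1,0,0,0,0,0,1] (.pp false [-1,1]) (.Q [0,1,0,-2,0,0,0,0,0,
  -1] (.pp true [-1,1]) (.R ⟨2,false,false,true,[0,1],[1,-1],[0,1],(⟨0,[]⟩,⟨0,[]⟩),(⟨0,[(36,0)]⟩,⟨0,
  [(37,0)]⟩),⟨0,[]⟩,.k,.k,.k,(.r 0 ⟨22,[(7,7),(1,1),(2,15),(2,7),(1,1),(4,7),(0,7),(7,3)]⟩ ⟨0,[(8,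
  0),(35,0)]⟩),.k,.k,⟨true,0,⟨22,[(7,3),(1,0),(2,7),(2,3),(1,0),(4,3),(0,3),(7,1)]⟩,⟨0,[(40,0)]⟩⟩,
  ⟨false,0,⟨2,[(5,0),(21,0),(7,0)]⟩,⟨21,[(2,5),(5,5),(0,3),(6,5),(3,11),(1,2),(10,11),(2,5),(4,
  6)]⟩⟩,⟨false,1,⟨7,[(2,3),(19,2),(0,0),(20,3)]⟩,⟨2,[(7,0),(4,0),(29,0)]⟩⟩,⟨true,0,⟨0,[(0,0)]⟩,⟨2,
  [(9,1),(14,0),(0,0)]⟩⟩,⟨false,1,⟨3,[(22,0),(0,0),(17,1)]⟩,⟨3,[(5,0),(25,0),(6,0),(3,0)]⟩⟩,⟨false,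
  1,⟨3,[(0,1),(21,0),(0,0),(11,0),(6,0)]⟩,⟨0,[(1,0)]⟩⟩,[.e ⟨true,0,⟨0,[(44,0)]⟩,⟨3,[(5,0),(25,0),(6,
  0),(3,0)]⟩⟩ ⟨true,0,⟨1,[(0,0),(26,0),(2,0),(13,0)]⟩,⟨0,[(1,0)]⟩⟩,.a ⟨true,0,⟨0,[(40,0)]⟩,⟨2,[(9,
  0),(14,1),(0,1)]⟩⟩ ⟨false,1,⟨3,[(22,0),(0,0),(17,1)]⟩,⟨0,[]⟩⟩ ⟨true,0,⟨11,[(0,5),(4,3),(21,3),(7,
  0),(6,2)]⟩,⟨2,[(9,0),(14,1),(0,1)]⟩⟩,.o ⟨false,1,⟨3,[(22,0),(0,0),(17,1)]⟩,⟨2,[(5,0),(21,0),(7,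
  0)]⟩⟩,.e ⟨false,1,⟨3,[(22,0),(0,0),(17,1)]⟩,⟨3,[(5,0),(25,0),(6,0),(3,0)]⟩⟩ ⟨false,1,⟨3,[(0,1),
  (21,0),(0,0),(11,0),(6,0)]⟩,⟨0,[(1,0)]⟩⟩]⟩) (.Q [0,1,0,-3,0,0,0,0,0,-1] (.pp true [-1,1]) (.R ⟨1,
  false,false,false,[1,-1],[0,1],[0,1],(⟨0,[(37,0)]⟩,⟨0,[(38,0)]⟩),(⟨0,[(38,0)]⟩,⟨0,[(37,0)]⟩),⟨0,
  [(15,0),(19,0)]⟩,.k,.k,(.r (-1) ⟨0,[(9,0),(35,0)]⟩ ⟨22,[(8,7),(1,1),(2,15),(2,7),(1,1),(4,7),(0,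
  7),(7,3)]⟩),(.r (-1) ⟨0,[(9,0),(35,0)]⟩ ⟨22,[(8,7),(1,1),(2,15),(2,7),(1,1),(4,7),(0,7),(7,3)]⟩),
  (.r (-2) ⟨1,[(3,1),(5,0),(13,0),(21,2)]⟩ ⟨45,[(8,23),(1,5),(2,47),(2,23),(1,5),(4,0),(0,0),(7,
  11)]⟩),.k,⟨false,1,⟨1,[(9,0),(32,0),(2,2)]⟩,⟨2,[(8,0),(4,0),(29,0)]⟩⟩,⟨true,1,⟨21,[(3,5),(5,5),(0,
  3),(6,5),(3,11),(1,2),(10,11),(2,5),(4,6)]⟩,⟨0,[(6,0),(21,0)]⟩⟩,⟨false,0,⟨22,[(8,3),(1,0),(2,7),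
  (2,3),(1,0),(4,3),(0,3),(7,1)]⟩,⟨3,[(3,1),(19,0),(19,0)]⟩⟩,⟨false,0,⟨0,[(1,0)]⟩,⟨11,[(0,7),(22,2),
  (0,2),(11,1),(6,3)]⟩⟩,⟨false,0,⟨8,[(8,2),(1,1),(2,2),(9,0),(0,0),(11,0),(3,2)]⟩,⟨19,[(0,3),(2,1),
  (5,11),(12,3),(0,0),(8,7),(10,4)]⟩⟩,⟨true,0,⟨0,[(10,0)]⟩,⟨0,[(0,0)]⟩⟩,[.a ⟨true,0,⟨2,[(10,0),(14,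
  1),(0,1)]⟩,⟨0,[(41,0)]⟩⟩ ⟨true,0,⟨0,[(45,0)]⟩,⟨3,[(6,0),(25,0),(6,0),(3,0)]⟩⟩ ⟨false,1,⟨10,[(3,1),
  (5,1),(0,4),(6,1),(3,3),(1,0),(10,3),(2,1),(4,5)]⟩,⟨5,[(0,1),(5,1),(21,1),(7,0),(6,0)]⟩⟩,.e
  ⟨false,1,⟨3,[(23,0),(0,0),(17,1)]⟩,⟨0,[]⟩⟩ ⟨false,1,⟨0,[(9,0),(0,0)]⟩,⟨1,[(0,0),(27,0),(2,0),(8,
  0)]⟩⟩,.o ⟨false,0,⟨2,[(6,0),(21,0),(7,0)]⟩,⟨3,[(23,0),(0,0),(17,1)]⟩⟩,.o ⟨false,0,⟨0,[(28,0),(2,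
  0)]⟩,⟨0,[(42,0)]⟩⟩]⟩) (.I [0,-1,1,0,0,0,0,0,-1] (.Q [0,0,0,0,0,-1,0,0,0,0,0,1] (.ed false [1,-1,0,
  1] .k) (.I [1,0,0,0,0,0,0,0,1] (.R ⟨1,false,false,true,[0,0,0,1],[0,1],[1,1,0,0,0,0,0,0,1],(⟨0,
  [(29,0)]⟩,⟨0,[(28,0)]⟩),(⟨0,[(41,0)]⟩,⟨0,[(40,0)]⟩),⟨0,[(1,0)]⟩,.k,.k,(.r (-1) ⟨7,[(6,3),(19,0),
  (0,2),(20,3)]⟩ ⟨16,[(2,8),(0,0),(11,0),(0,3),(2,4),(4,3),(1,3)]⟩),(.r (-1) ⟨7,[(6,3),(19,0),(0,2),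
  (20,3)]⟩ ⟨16,[(2,8),(0,0),(11,0),(0,3),(2,4),(4,3),(1,3)]⟩),(.r (-1) ⟨0,[(6,0),(41,0)]⟩ ⟨91,[(11,
  31),(1,7),(2,63),(2,31),(1,7),(4,54),(0,8),(7,15)]⟩),.k,⟨false,1,⟨0,[(6,0),(36,0)]⟩,⟨16,[(2,8),(0,
  0),(11,0),(0,3),(2,4),(4,3),(1,3)]⟩⟩,⟨true,1,⟨0,[(29,0),(15,0)]⟩,⟨0,[(9,0),(18,0),(2,0)]⟩⟩,⟨false,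
  0,⟨0,[]⟩,⟨3,[(26,0),(0,0),(18,1)]⟩⟩,⟨false,1,⟨4,[(2,0),(0,0),(11,0),(3,0),(6,1),(2,4),(15,2)]⟩,⟨0,
  [(8,0),(35,0)]⟩⟩,⟨true,0,⟨0,[(43,0)]⟩,⟨0,[(44,0)]⟩⟩,⟨false,1,⟨9,[(2,3),(0,3),(11,3),(3,3),(6,2),
  (2,9),(15,6)]⟩,⟨0,[(8,0),(35,1)]⟩⟩,[.o ⟨false,0,⟨0,[(43,0)]⟩,⟨11,[(6,5),(2,3),(16,2),(4,3),(7,3),
  (6,2)]⟩⟩,.a ⟨true,0,⟨2,[(13,0),(14,1),(0,1)]⟩,⟨0,[(44,0)]⟩⟩ ⟨true,0,⟨0,[(0,0)]⟩,⟨2,[(2,0),(6,0),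
  (14,0),(1,0),(17,0)]⟩⟩ ⟨false,1,⟨2,[(3,0),(8,0),(2,0),(3,0),(9,2),(15,1)]⟩,⟨2,[(9,0),(18,2),(2,0),
  (7,0),(4,2)]⟩⟩,.o ⟨false,0,⟨2,[(9,0),(18,2),(2,0),(7,0)]⟩,⟨1,[(29,1),(9,0),(5,0)]⟩⟩,.e ⟨false,1,
  ⟨1,[(27,0),(17,0)]⟩,⟨0,[(2,0)]⟩⟩ ⟨false,1,⟨2,[(3,0),(8,0),(2,0),(3,0),(9,2),(15,1)]⟩,⟨7,[(2,0),(5,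
  6),(0,2),(11,0),(4,2),(1,0),(6,0),(8,7)]⟩⟩]⟩) (.R ⟨1,false,false,true,[0,0,0,1],[0,1],[0,1,0,-1,0,
  0,0,0,1],(⟨0,[(29,0)]⟩,⟨0,[(28,0)]⟩),(⟨0,[(41,0)]⟩,⟨0,[(40,0)]⟩),⟨0,[(1,0)]⟩,.k,.k,(.r (-1) ⟨7,
  [(6,3),(19,0),(0,2),(20,3)]⟩ ⟨12,[(0,2),(8,0),(1,2),(4,3),(2,0),(4,1),(1,4)]⟩),(.r (-1) ⟨7,[(6,3),
  (19,0),(0,2),(20,3)]⟩ ⟨12,[(0,2),(8,0),(1,2),(4,3),(2,0),(4,1),(1,4)]⟩),(.r (-1) ⟨0,[(6,0),(41,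
  0)]⟩ ⟨91,[(11,31),(1,7),(2,63),(2,31),(1,7),(4,54),(0,8),(7,15)]⟩),.k,⟨false,1,⟨0,[(6,0),(41,0)]⟩,
  ⟨14,[(0,4),(2,0),(7,4),(1,1),(1,2),(0,4),(2,2),(6,4)]⟩⟩,⟨true,1,⟨0,[(29,0),(15,0)]⟩,⟨0,[(9,0),(18,
  0),(2,0)]⟩⟩,⟨false,0,⟨0,[(44,0)]⟩,⟨5,[(13,1),(12,0),(0,0),(11,0),(6,2)]⟩⟩,⟨false,1,⟨15,[(0,1),(2,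
  3),(11,1),(3,1),(6,6),(2,15),(9,0),(5,7)]⟩,⟨0,[(8,0),(35,0)]⟩⟩,⟨true,0,⟨0,[(48,0)]⟩,⟨0,[]⟩⟩,
  ⟨false,1,⟨7,[(0,1),(2,3),(11,1),(3,1),(6,2),(2,7),(9,0),(5,3)]⟩,⟨0,[(8,0),(35,1)]⟩⟩,[.o ⟨false,0,
  ⟨0,[(43,0)]⟩,⟨11,[(6,5),(2,3),(16,2),(4,3),(7,3),(6,2)]⟩⟩,.a ⟨true,0,⟨2,[(13,0),(14,1),(0,1)]⟩,⟨0,
  [(44,0)]⟩⟩ ⟨true,0,⟨0,[(6,0),(2,0),(14,0)]⟩,⟨12,[(0,2),(8,0),(1,2),(4,3),(2,0),(4,1),(1,4)]⟩⟩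
  ⟨false,1,⟨2,[(3,0),(8,0),(2,0),(3,0),(9,2),(15,1)]⟩,⟨2,[(9,0),(18,2),(2,0),(7,0),(4,2)]⟩⟩,.o
  ⟨false,0,⟨2,[(9,0),(18,2),(2,0),(7,0)]⟩,⟨1,[(29,1),(9,0),(5,0)]⟩⟩,.e ⟨false,1,⟨7,[(6,3),(19,0),(0,
  2),(20,3)]⟩,⟨8,[(0,2),(1,5),(0,1),(7,0),(4,0),(22,0)]⟩⟩ ⟨false,1,⟨2,[(3,0),(8,0),(2,0),(3,0),(9,
  2),(15,1)]⟩,⟨7,[(2,0),(5,6),(0,2),(11,0),(4,2),(1,0),(6,0),(8,7)]⟩⟩]⟩)) (.I [0,0,0,0,0,0,0,0,1]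
  (.R ⟨0,false,false,true,[0,0,0,1],[0,1],[0,1,0,0,0,0,0,0,1],(⟨0,[(29,0)]⟩,⟨0,[(28,0)]⟩),(⟨0,[(41,
  0)]⟩,⟨0,[(40,0)]⟩),⟨0,[(1,0)]⟩,.k,.k,(.r (-1) ⟨7,[(6,3),(19,0),(0,2),(20,3)]⟩ ⟨16,[(2,8),(0,0),
  (11,0),(0,3),(2,4),(4,3),(1,3)]⟩),(.r (-1) ⟨7,[(6,3),(19,0),(0,2),(20,3)]⟩ ⟨16,[(2,8),(0,0),(11,
  0),(0,3),(2,4),(4,3),(1,3)]⟩),.k,.k,⟨false,1,⟨0,[(6,0),(36,0)]⟩,⟨16,[(2,8),(0,0),(11,0),(0,3),(2,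
  4),(4,3),(1,3)]⟩⟩,⟨true,1,⟨0,[(29,0),(15,0)]⟩,⟨0,[(9,0),(18,0),(2,0)]⟩⟩,⟨true,0,⟨0,[(48,0)]⟩,⟨0,
  []⟩⟩,⟨false,1,⟨4,[(2,0),(0,0),(11,0),(3,0),(6,1),(2,4),(15,2)]⟩,⟨0,[(8,0),(35,0)]⟩⟩,⟨false,0,⟨0,
  []⟩,⟨0,[]⟩⟩,⟨false,0,⟨0,[]⟩,⟨0,[]⟩⟩,[.o ⟨false,0,⟨0,[(43,0)]⟩,⟨11,[(6,5),(2,3),(16,2),(4,3),(7,3),
  (6,2)]⟩⟩,.a ⟨true,0,⟨2,[(13,0),(14,1),(0,1)]⟩,⟨0,[(44,0)]⟩⟩ ⟨true,0,⟨0,[(0,0)]⟩,⟨2,[(2,0),(6,0),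
  (14,0),(1,0),(17,0)]⟩⟩ ⟨false,1,⟨2,[(3,0),(8,0),(2,0),(3,0),(9,2),(15,1)]⟩,⟨2,[(9,0),(18,2),(2,0),
  (7,0),(4,2)]⟩⟩,.o ⟨false,0,⟨2,[(9,0),(18,2),(2,0),(7,0)]⟩,⟨1,[(29,1),(9,0),(5,0)]⟩⟩,.e ⟨false,1,
  ⟨1,[(27,0),(17,0)]⟩,⟨0,[(2,0)]⟩⟩ ⟨false,1,⟨2,[(3,0),(8,0),(2,0),(3,0),(9,2),(15,1)]⟩,⟨7,[(2,0),(5,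
  6),(0,2),(11,0),(4,2),(1,0),(6,0),(8,7)]⟩⟩]⟩) (.R ⟨1,false,false,true,[1,0,0,-1],[0,1],[0,1,0,-1,
  0,0,0,0,-1],(⟨0,[(28,0)]⟩,⟨0,[(29,0)]⟩),(⟨0,[(41,0)]⟩,⟨0,[(40,0)]⟩),⟨13,[(1,5),(1,0),(8,3),(1,4),
  (3,4),(5,4),(3,7),(16,0)]⟩,.k,.k,(.x (-1) ⟨15,[(14,3),(3,3),(2,1),(4,6),(0,6),(11,0),(5,4)]⟩ ⟨0,
  [(41,0)]⟩),(.x (-1) ⟨15,[(14,3),(3,3),(2,1),(4,6),(0,6),(11,0),(5,4)]⟩ ⟨0,[(41,0)]⟩),(.r (-1) ⟨0,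
  [(0,0),(11,0),(35,0)]⟩ ⟨91,[(11,31),(1,7),(2,63),(2,31),(1,7),(4,8),(0,54),(7,15)]⟩),.k,⟨false,1,
  ⟨0,[(0,0),(11,0),(35,0)]⟩,⟨7,[(3,2),(2,1),(2,4),(1,1),(3,2),(3,0),(4,2),(2,2)]⟩⟩,⟨true,0,⟨0,[(28,
  0)]⟩,⟨2,[(9,0),(19,2),(1,0),(7,0)]⟩⟩,⟨false,0,⟨0,[(44,0)]⟩,⟨5,[(13,1),(12,0),(0,0),(11,0),(6,
  2)]⟩⟩,⟨false,0,⟨6,[(6,0),(2,1),(0,3),(13,0),(2,0),(0,2),(6,0)]⟩,⟨2,[(0,2),(8,0),(1,0),(0,2),(2,0),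
  (13,2),(9,0)]⟩⟩,⟨true,0,⟨0,[(48,0)]⟩,⟨0,[]⟩⟩,⟨false,0,⟨0,[(10,0)]⟩,⟨2,[(0,2),(8,0),(2,2),(16,2),
  (1,0),(7,0)]⟩⟩,[.o ⟨false,0,⟨0,[(43,0)]⟩,⟨11,[(6,5),(2,3),(16,2),(4,3),(7,3),(6,2)]⟩⟩,.a ⟨true,0,
  ⟨2,[(13,0),(14,1),(0,1)]⟩,⟨0,[(44,0)]⟩⟩ ⟨true,0,⟨0,[(0,0),(43,0)]⟩,⟨14,[(3,1),(2,2),(2,7),(1,2),
  (3,1),(0,0),(7,5),(2,5)]⟩⟩ ⟨false,0,⟨19,[(1,3),(1,4),(10,0),(0,1),(2,0),(0,1),(4,0),(3,15),(16,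
  0)]⟩,⟨1,[(12,0),(16,1),(9,0),(8,0)]⟩⟩,.o ⟨false,1,⟨1,[(29,1),(9,0),(5,0)]⟩,⟨2,[(9,0),(18,2),(2,0),
  (7,0)]⟩⟩,.e ⟨false,1,⟨1,[(12,0),(13,0),(21,0)]⟩,⟨14,[(3,0),(2,8),(2,3),(1,8),(3,0),(0,7),(7,2),(2,
  2)]⟩⟩ ⟨false,0,⟨19,[(1,3),(1,4),(10,0),(0,1),(2,0),(0,1),(4,0),(3,15),(16,0)]⟩,⟨11,[(6,5),(2,3),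
  (16,2),(2,11),(1,3),(7,3),(6,2)]⟩⟩]⟩))) (.Q [0,0,-2,0,1,0,0,0,0,-1,0,1] (.p true [0,0,0,1] [1]
  (⟨0,[(27,0)]⟩,⟨0,[(26,0)]⟩) .k 1 (⟨0,[]⟩,⟨0,[]⟩) .k .k) (.Q [0,0,0,0,0,-1,0,0,0,0,0,1] (.ed false
  [1,-1,0,1] .k) (.R ⟨1,false,false,true,[0,0,0,1],[0,1],[0,0,0,-1,0,0,0,0,1],(⟨0,[(29,0)]⟩,⟨0,[(28,
  0)]⟩),(⟨0,[(41,0)]⟩,⟨0,[(40,0)]⟩),⟨0,[(0,0)]⟩,.k,.k,(.x 0 ⟨7,[(9,3),(4,1),(3,1),(2,1),(4,2),(0,2),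
  (7,1)]⟩ ⟨0,[(41,0),(3,0)]⟩),(.x 0 ⟨7,[(9,3),(4,1),(3,1),(2,1),(4,2),(0,2),(7,1)]⟩ ⟨0,[(41,0),(3,
  0)]⟩),(.r (-1) ⟨0,[(6,0),(41,0)]⟩ ⟨91,[(11,31),(1,7),(2,63),(2,31),(1,7),(4,54),(0,8),(7,15)]⟩),
  .k,⟨false,1,⟨0,[(6,0)]⟩,⟨5,[(3,0),(5,0),(5,0),(0,1),(2,2),(4,2),(1,2)]⟩⟩,⟨true,1,⟨0,[(29,0),(15,
  0)]⟩,⟨0,[(9,0),(18,0),(2,0)]⟩⟩,⟨true,0,⟨0,[(44,0)]⟩,⟨0,[(43,0)]⟩⟩,⟨false,1,⟨5,[(1,1),(11,1),(12,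
  2),(2,3),(15,0)]⟩,⟨0,[(8,0),(35,0)]⟩⟩,⟨false,1,⟨3,[(26,0),(0,0),(18,1)]⟩,⟨0,[]⟩⟩,⟨false,1,⟨9,[(1,
  4),(1,1),(9,3),(1,0),(3,0),(6,4),(2,4)]⟩,⟨0,[(8,0),(35,1)]⟩⟩,[.o ⟨false,0,⟨0,[(43,0)]⟩,⟨11,[(6,5),
  (2,3),(16,2),(4,3),(7,3),(6,2)]⟩⟩,.a ⟨true,0,⟨2,[(13,0),(14,1),(0,1)]⟩,⟨0,[(44,0)]⟩⟩ ⟨true,0,⟨2,
  [(2,1),(2,0),(0,0),(2,1),(2,0),(8,0),(20,0)]⟩,⟨1,[(9,0),(14,0),(1,0),(16,0)]⟩⟩ ⟨false,1,⟨2,[(1,0),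
  (11,0),(15,1),(15,1)]⟩,⟨2,[(9,0),(18,2),(2,0),(7,0),(4,2)]⟩⟩,.o ⟨false,0,⟨2,[(9,0),(18,2),(2,0),
  (7,0)]⟩,⟨7,[(1,3),(24,0),(0,0),(1,3),(9,1)]⟩⟩,.o ⟨false,0,⟨15,[(8,11),(0,7),(11,3),(4,6),(0,0),(0,
  3),(19,11)]⟩,⟨0,[(1,0)]⟩⟩]⟩) (.R ⟨0,false,false,true,[0,0,0,1],[0,1],[0,0,0,-1,0,0,0,0,1],(⟨0,
  [(29,0)]⟩,⟨0,[(28,0)]⟩),(⟨0,[(41,0)]⟩,⟨0,[(40,0)]⟩),⟨0,[(0,0)]⟩,.k,.k,(.x 0 ⟨7,[(9,3),(4,1),(3,1),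
  (2,1),(4,2),(0,2),(7,1)]⟩ ⟨0,[(41,0),(3,0)]⟩),(.x 0 ⟨7,[(9,3),(4,1),(3,1),(2,1),(4,2),(0,2),(7,
  1)]⟩ ⟨0,[(41,0),(3,0)]⟩),.k,.k,⟨false,1,⟨0,[(6,0)]⟩,⟨5,[(3,0),(5,0),(5,0),(0,1),(2,2),(4,2),(1,
  2)]⟩⟩,⟨true,1,⟨0,[(29,0),(15,0)]⟩,⟨0,[(9,0),(18,0),(2,0)]⟩⟩,⟨true,0,⟨0,[(44,0)]⟩,⟨0,[(43,0)]⟩⟩,
  ⟨false,1,⟨5,[(1,1),(11,1),(12,2),(2,3),(15,0)]⟩,⟨0,[(8,0),(35,0)]⟩⟩,⟨false,0,⟨0,[]⟩,⟨0,[]⟩⟩,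
  ⟨false,0,⟨0,[]⟩,⟨0,[]⟩⟩,[.o ⟨false,0,⟨0,[(43,0)]⟩,⟨11,[(6,5),(2,3),(16,2),(4,3),(7,3),(6,2)]⟩⟩,.a
  ⟨true,0,⟨2,[(13,0),(14,1),(0,1)]⟩,⟨0,[(44,0)]⟩⟩ ⟨true,0,⟨2,[(2,1),(2,0),(0,0),(2,1),(2,0),(8,0),
  (20,0)]⟩,⟨1,[(9,0),(14,0),(1,0),(16,0)]⟩⟩ ⟨false,1,⟨2,[(1,0),(11,0),(15,1),(15,1)]⟩,⟨2,[(9,0),(18,
  2),(2,0),(7,0),(4,2)]⟩⟩,.o ⟨false,0,⟨2,[(9,0),(18,2),(2,0),(7,0)]⟩,⟨7,[(1,3),(24,0),(0,0),(1,3),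
  (9,1)]⟩⟩,.o ⟨false,0,⟨15,[(8,11),(0,7),(11,3),(4,6),(0,0),(0,3),(19,11)]⟩,⟨0,[(1,0)]⟩⟩]⟩)) (.I [0,
  0,-1,-1,0,0,0,0,1] (.Q [0,0,-1,2,1,0,0,0,-1,0,0,1] (.p true [0,0,0,1] [] (⟨0,[(29,0)]⟩,⟨0,[(28,
  0)]⟩) .k 0 (⟨0,[]⟩,⟨0,[]⟩) .k .k) (.Q [0,0,1,0,-1,0,0,0,1,1,0,-1] (.p false [0,0,0,1] [1] (⟨0,
  [(30,0)]⟩,⟨0,[(29,0)]⟩) .k 1 (⟨0,[]⟩,⟨0,[]⟩) .k .k) (.R ⟨1,false,false,true,[1,-1],[1,0,0,-1],[0,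
  1,1],(⟨0,[(42,0)]⟩,⟨0,[(43,0)]⟩),(⟨0,[(30,0)]⟩,⟨0,[(31,0)]⟩),⟨0,[(20,0),(19,0)]⟩,.k,.k,(.r (-1)
  ⟨0,[(14,0),(35,0)]⟩ ⟨28,[(1,1),(10,1),(0,9),(4,19),(2,9),(1,1),(4,8),(0,8),(7,5)]⟩),(.r 0 ⟨0,[(2,
  0)]⟩ ⟨115,[(1,3),(10,3),(0,19),(4,39),(2,19),(1,3),(4,104),(0,46),(7,11)]⟩),(.r (-1) ⟨0,[(8,0),
  (41,0)]⟩ ⟨115,[(1,7),(10,7),(0,39),(4,79),(2,39),(1,7),(4,64),(0,6),(7,23)]⟩),.k,⟨false,0,⟨42,[(0,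
  0),(1,17),(1,5),(6,1),(1,5),(4,5),(4,0),(5,8),(1,0)]⟩,⟨1,[(28,0),(18,0)]⟩⟩,⟨true,1,⟨1,[(1,0),(2,
  0),(9,0),(16,0)]⟩,⟨2,[(3,2),(7,0),(21,0),(7,0)]⟩⟩,⟨true,(-1),⟨0,[(11,0),(14,0)]⟩,⟨1,[(14,0),(32,
  0),(2,0)]⟩⟩,⟨false,1,⟨5,[(1,3),(12,0),(13,0),(2,1),(18,0)]⟩,⟨5,[(3,2),(4,2),(1,2),(0,0),(21,0),(7,
  0)]⟩⟩,⟨false,0,⟨28,[(1,1),(10,1),(0,9),(4,19),(2,9),(1,1),(4,8),(0,8),(7,5)]⟩,⟨0,[(14,0)]⟩⟩,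
  ⟨false,1,⟨0,[(1,0)]⟩,⟨2,[(3,2),(4,2),(2,0),(21,0),(7,0)]⟩⟩,[.e ⟨false,0,⟨0,[(50,0)]⟩,⟨1,[(47,0),
  (0,0)]⟩⟩ ⟨false,2,⟨0,[(1,0),(12,0),(35,1)]⟩,⟨2,[(0,2),(10,2),(1,1),(0,2),(2,1),(15,0)]⟩⟩,.a ⟨true,
  1,⟨2,[(1,0),(12,0),(13,0),(2,1),(18,0)]⟩,⟨0,[(0,0)]⟩⟩ ⟨true,0,⟨5,[(11,1),(16,0),(0,0),(7,1)]⟩,⟨0,
  []⟩⟩ ⟨false,2,⟨0,[(1,0),(12,0),(35,0)]⟩,⟨2,[(0,2),(10,0),(21,0),(7,0)]⟩⟩,.o ⟨false,0,⟨2,[(11,0),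
  (21,0),(7,0)]⟩,⟨3,[(28,0),(0,0),(17,1)]⟩⟩,.o ⟨false,0,⟨0,[(33,0),(2,0)]⟩,⟨0,[(47,0)]⟩⟩]⟩) (.K ⟨0,
  [1,0,0,-1],1,1,(⟨0,[(30,0)]⟩,⟨0,[(31,0)]⟩),.k,(.x (-1) ⟨15,[(16,3),(3,3),(2,1),(4,6),(0,6),(11,0),
  (5,4)]⟩ ⟨0,[(43,0)]⟩),(.r (-1) ⟨115,[(1,3),(10,3),(0,19),(4,39),(2,19),(1,3),(4,104),(0,46),(7,
  11)]⟩ ⟨0,[(2,0)]⟩),.k,.k,[⟨0,[(3,0)]⟩,⟨1,[(1,0),(2,0),(9,0),(16,0)]⟩,⟨0,[(3,0),(0,0)]⟩,⟨0,[(0,0),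
  (49,0)]⟩]⟩)) (.R ⟨1,true,false,true,[1,-1],[1,0,0,-1],[0,1,1],(⟨0,[(41,0)]⟩,⟨0,[(42,0)]⟩),(⟨0,
  [(29,0)]⟩,⟨0,[(30,0)]⟩),⟨0,[(19,0),(19,0)]⟩,.k,.k,(.r (-1) ⟨0,[(13,0),(35,0)]⟩ ⟨22,[(12,7),(1,1),
  (2,15),(2,7),(1,1),(4,7),(0,7),(7,3)]⟩),(.r 0 ⟨0,[(1,0)]⟩ ⟨91,[(12,15),(1,3),(2,31),(2,15),(1,3),
  (4,84),(0,38),(7,7)]⟩),(.r (-1) ⟨0,[(7,0),(41,0)]⟩ ⟨91,[(12,31),(1,7),(2,63),(2,31),(1,7),(4,54),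
  (0,8),(7,15)]⟩),.k,⟨false,0,⟨18,[(0,0),(0,6),(1,2),(8,2),(4,2),(10,3),(1,0)]⟩,⟨1,[(27,0),(18,
  0)]⟩⟩,⟨true,1,⟨0,[(30,0),(15,0)]⟩,⟨2,[(2,2),(7,0),(21,0),(7,0)]⟩⟩,⟨true,(-1),⟨0,[(10,0),(14,0)]⟩,
  ⟨1,[(13,0),(32,0),(2,0)]⟩⟩,⟨false,1,⟨5,[(4,1),(8,1),(2,1),(3,1),(6,2),(2,5),(15,0)]⟩,⟨7,[(0,3),(8,
  3),(17,0),(0,0),(18,1)]⟩⟩,⟨false,0,⟨22,[(12,7),(1,1),(2,15),(2,7),(1,1),(4,7),(0,7),(7,3)]⟩,⟨0,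
  [(13,0)]⟩⟩,⟨true,1,⟨5,[(14,1),(1,1),(3,1),(6,2),(2,5),(13,1),(1,2)]⟩,⟨0,[(0,0)]⟩⟩,[]⟩)) (.K ⟨0,[1,
  0,0,-1],1,1,(⟨0,[(28,0)]⟩,⟨0,[(29,0)]⟩),.k,(.x (-1) ⟨15,[(14,3),(3,3),(2,1),(4,6),(0,6),(11,0),(5,
  4)]⟩ ⟨0,[(41,0)]⟩),(.x (-1) ⟨0,[(41,0),(3,0)]⟩ ⟨7,[(9,3),(4,1),(3,1),(2,1),(4,2),(0,2),(7,1)]⟩),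
  .k,.k,[⟨0,[(1,0)]⟩,⟨0,[(29,0),(15,0)]⟩,⟨0,[(1,0),(0,0)]⟩,⟨0,[(0,0),(11,0),(6,0),(9,0),(0,
  0)]⟩]⟩)))))) (.Q [0,0,0,0,0,0,-1,-1,0,0,1,-1] (.p true [0,0,1] [0,0,0,1] (⟨0,[(33,0)]⟩,⟨0,[(32,
  0)]⟩) .k 2 (⟨0,[(24,0)]⟩,⟨0,[(23,0)]⟩) .k (.r (-1) ⟨10,[(1,2),(5,0),(4,4),(6,2),(1,6),(5,5),(2,
  2)]⟩ ⟨0,[(1,0),(9,0),(26,0)]⟩)) (.I [0,-1,0,0,0,0,0,0,1] (.I [0,0,1,0,0,0,0,0,-1] (.Q [0,0,-1,2,1,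
  0,1,1,-1,0,-1,1] (.p false [0,0,1] [0,0,0,1] (⟨0,[(36,0)]⟩,⟨0,[(35,0)]⟩) .k 2 (⟨0,[(27,0)]⟩,⟨0,
  [(26,0)]⟩) .k (.r (-1) ⟨10,[(4,2),(5,0),(4,4),(6,2),(1,6),(5,5),(2,2)]⟩ ⟨1,[(1,1),(21,0),(4,0),(2,
  0)]⟩)) (.Q [0,0,0,0,0,-1,0,0,0,1,0,-1] (.ed true [0,1,0,1] .k) (.R ⟨1,false,false,false,[1,0,0,
  -1],[1,0,-1],[1,1,0,0,0,0,0,0,-1],(⟨0,[(28,0)]⟩,⟨0,[(29,0)]⟩),(⟨0,[(37,0)]⟩,⟨0,[(38,0)]⟩),⟨0,[(0,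
  0)]⟩,.k,.k,(.x (-1) ⟨15,[(14,3),(3,3),(2,1),(4,6),(0,6),(11,0),(5,4)]⟩ ⟨0,[(41,0)]⟩),.k,(.x 0 ⟨19,
  [(14,11),(5,3),(5,0),(0,0),(17,9)]⟩ ⟨3,[(21,1),(4,0),(0,0),(9,3),(1,0),(1,3),(3,0)]⟩),.k,⟨false,1,
  ⟨0,[(2,0),(9,0),(6,0),(4,0)]⟩,⟨0,[(3,0),(32,0)]⟩⟩,⟨true,0,⟨0,[(28,0),(2,0)]⟩,⟨8,[(5,1),(1,2),(1,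
  1),(2,1),(6,2),(5,1),(3,8)]⟩⟩,⟨false,0,⟨0,[]⟩,⟨3,[(26,0),(0,0),(18,1)]⟩⟩,⟨false,0,⟨2,[(3,0),(0,0),
  (3,1),(24,1),(8,0)]⟩,⟨1,[(1,0),(0,0),(9,0),(16,0),(2,0)]⟩⟩,⟨true,0,⟨0,[(43,0)]⟩,⟨0,[(44,0)]⟩⟩,
  ⟨false,0,⟨31,[(3,9),(0,15),(2,11),(0,7),(1,7),(5,3),(4,7),(5,2),(18,0)]⟩,⟨3,[(1,0),(0,2),(9,2),
  (16,2),(2,2)]⟩⟩,[.e ⟨false,1,⟨1,[(26,0),(18,0),(2,1)]⟩,⟨0,[(3,0)]⟩⟩ ⟨false,0,⟨0,[(4,0)]⟩,⟨11,[(1,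
  3),(4,3),(19,0),(0,0),(1,7),(2,7),(13,1)]⟩⟩,.o ⟨false,1,⟨0,[(30,0),(15,0)]⟩,⟨0,[(32,0)]⟩⟩,.o
  ⟨false,1,⟨2,[(1,0),(4,0),(22,1),(0,0),(8,0)]⟩,⟨2,[(9,0),(18,2),(2,0),(7,0)]⟩⟩,.a ⟨true,0,⟨0,[(29,
  0)]⟩,⟨0,[(28,0)]⟩⟩ ⟨false,1,⟨1,[(26,0),(18,0)]⟩,⟨3,[(3,1),(5,0),(17,0),(7,0),(6,0)]⟩⟩ ⟨true,0,⟨0,
  [(4,0)]⟩,⟨0,[(29,0),(2,0)]⟩⟩]⟩) (.R ⟨0,false,false,false,[1,0,0,-1],[1,0,-1],[0,1,0,0,0,0,0,0,-1],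
  (⟨0,[(28,0)]⟩,⟨0,[(29,0)]⟩),(⟨0,[(37,0)]⟩,⟨0,[(38,0)]⟩),⟨0,[(0,0)]⟩,.k,.k,(.x (-1) ⟨15,[(14,3),(3,
  3),(2,1),(4,6),(0,6),(11,0),(5,4)]⟩ ⟨0,[(41,0)]⟩),.k,.k,.k,⟨false,1,⟨0,[(2,0),(9,0),(6,0),(4,0)]⟩,
  ⟨0,[(3,0),(32,0)]⟩⟩,⟨true,0,⟨0,[(28,0),(2,0)]⟩,⟨18,[(0,9),(13,0),(3,4),(1,1),(4,6),(3,8),(9,0)]⟩⟩,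
  ⟨true,0,⟨0,[(48,0)]⟩,⟨0,[]⟩⟩,⟨false,0,⟨2,[(3,0),(0,0),(3,1),(24,1),(8,0)]⟩,⟨1,[(1,0),(0,0),(9,0),
  (16,0),(2,0)]⟩⟩,⟨false,0,⟨0,[]⟩,⟨0,[]⟩⟩,⟨false,0,⟨0,[]⟩,⟨0,[]⟩⟩,[.e ⟨false,1,⟨1,[(26,0),(18,0),(2,
  1)]⟩,⟨0,[(3,0)]⟩⟩ ⟨false,0,⟨0,[(4,0)]⟩,⟨11,[(1,3),(4,3),(19,0),(0,0),(1,7),(2,7),(13,1)]⟩⟩,.o
  ⟨false,1,⟨0,[(30,0),(15,0)]⟩,⟨0,[(32,0)]⟩⟩,.o ⟨false,1,⟨2,[(1,0),(4,0),(22,1),(0,0),(8,0)]⟩,⟨2,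
  [(9,0),(18,2),(2,0),(7,0)]⟩⟩,.a ⟨true,0,⟨0,[(29,0)]⟩,⟨0,[(28,0)]⟩⟩ ⟨false,1,⟨1,[(26,0),(18,0)]⟩,
  ⟨3,[(3,1),(5,0),(17,0),(7,0),(6,0)]⟩⟩ ⟨true,0,⟨0,[(4,0)]⟩,⟨0,[(29,0),(2,0)]⟩⟩]⟩)) (.Q [0,0,2,0,-1,
  0,0,0,0,1,0,-1] (.p false [0,0,0,1] [1] (⟨0,[(28,0)]⟩,⟨0,[(27,0)]⟩) .k 1 (⟨0,[]⟩,⟨0,[]⟩) .k .k)
  (.K ⟨0,[1,0,0,-1],1,1,(⟨0,[(28,0)]⟩,⟨0,[(29,0)]⟩),.k,(.x (-1) ⟨15,[(14,3),(3,3),(2,1),(4,6),(0,6),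
  (11,0),(5,4)]⟩ ⟨0,[(41,0)]⟩),(.x (-1) ⟨0,[(41,0),(3,0)]⟩ ⟨7,[(9,3),(4,1),(3,1),(2,1),(4,2),(0,2),
  (7,1)]⟩),.k,.k,[⟨0,[(0,0)]⟩,⟨0,[(29,0),(15,0)]⟩,⟨12,[(0,1),(0,11),(4,0),(6,7),(6,0),(3,1),(4,0),
  (2,11),(4,1),(2,0)]⟩,⟨0,[(2,0),(9,0),(2,0),(3,0),(9,0)]⟩]⟩) (.Q [0,0,-1,0,1,0,1,1,-1,0,-1,1] (.p
  false [0,0,1] [0,0,0,1] (⟨0,[(38,0)]⟩,⟨0,[(37,0)]⟩) .k 2 (⟨0,[(29,0)]⟩,⟨0,[(28,0)]⟩) .k (.r (-1)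
  ⟨10,[(6,2),(5,0),(4,4),(6,2),(1,6),(5,5),(2,2)]⟩ ⟨3,[(0,1),(0,1),(11,0),(2,0),(8,0),(1,0),(8,
  0)]⟩)) (.R ⟨1,false,false,false,[1,0,0,-1],[1,0,-1],[1,1,0,0,0,0,0,0,-1],(⟨0,[(29,0)]⟩,⟨0,[(30,
  0)]⟩),(⟨0,[(38,0)]⟩,⟨0,[(39,0)]⟩),⟨2,[(2,0),(0,0),(1,0),(6,0),(0,0),(5,1),(0,0),(0,0),(3,0),(3,
  0)]⟩,.k,.k,(.x (-1) ⟨15,[(15,3),(3,3),(2,1),(4,6),(0,6),(11,0),(5,4)]⟩ ⟨0,[(42,0)]⟩),.k,(.r (-2)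
  ⟨3,[(0,1),(6,1),(14,1),(4,2),(0,0),(0,1),(3,1)]⟩ ⟨0,[(1,0),(0,0),(7,0),(3,0)]⟩),.k,⟨false,1,⟨0,
  [(3,0),(9,0),(6,0),(4,0)]⟩,⟨0,[(4,0),(32,0)]⟩⟩,⟨true,0,⟨0,[(29,0),(2,0)]⟩,⟨2,[(1,0),(8,0),(15,0),
  (3,1)]⟩⟩,⟨false,0,⟨0,[]⟩,⟨3,[(27,0),(0,0),(18,1)]⟩⟩,⟨false,0,⟨33,[(2,11),(2,9),(2,9),(0,5),(1,5),
  (5,1),(4,5),(5,4),(18,8)]⟩,⟨0,[(0,0)]⟩⟩,⟨true,0,⟨0,[(44,0)]⟩,⟨0,[(45,0)]⟩⟩,⟨false,0,⟨9,[(2,0),(1,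
  0),(0,2),(2,5),(0,2),(1,2),(10,2),(5,0)]⟩,⟨1,[(0,2),(1,0)]⟩⟩,[.e ⟨false,1,⟨1,[(27,0),(18,0),(2,
  1)]⟩,⟨0,[(4,0)]⟩⟩ ⟨false,0,⟨0,[(5,0)]⟩,⟨5,[(0,3),(3,0),(2,0),(12,1),(7,0),(1,1)]⟩⟩,.o ⟨false,1,⟨0,
  [(31,0),(15,0)]⟩,⟨0,[(33,0)]⟩⟩,.o ⟨false,1,⟨7,[(1,3),(25,0),(0,0),(1,3),(9,1)]⟩,⟨2,[(10,0),(18,2),
  (2,0),(7,0)]⟩⟩,.a ⟨true,0,⟨0,[(30,0)]⟩,⟨0,[(29,0)]⟩⟩ ⟨false,1,⟨1,[(27,0),(18,0)]⟩,⟨30,[(2,3),(1,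
  6),(5,3),(6,1),(0,5),(9,9),(1,3),(12,8)]⟩⟩ ⟨true,0,⟨0,[(5,0)]⟩,⟨0,[(30,0),(2,0)]⟩⟩]⟩) (.R ⟨1,true,
  false,false,[1,0,0,-1],[1,0,-1],[1,1,0,0,0,0,0,0,-1],(⟨0,[(29,0)]⟩,⟨0,[(30,0)]⟩),(⟨0,[(38,0)]⟩,⟨0,
  [(39,0)]⟩),⟨6,[(0,2),(2,0),(8,0),(0,2),(1,0),(3,2),(0,1),(0,0),(3,1),(1,0),(1,3)]⟩,.k,.k,(.x (-1)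
  ⟨15,[(15,3),(3,3),(2,1),(4,6),(0,6),(11,0),(5,4)]⟩ ⟨0,[(42,0)]⟩),.k,(.r (-2) ⟨21,[(7,17),(10,5),
  (6,7),(1,22),(0,2),(4,15),(2,7)]⟩ ⟨8,[(0,8),(0,4),(8,4),(3,2),(11,1),(3,3)]⟩),.k,⟨false,1,⟨0,[(3,
  0),(9,0),(6,0),(4,0)]⟩,⟨0,[(4,0),(32,0)]⟩⟩,⟨true,0,⟨0,[(29,0),(2,0)]⟩,⟨2,[(1,0),(8,0),(15,0),(3,
  1)]⟩⟩,⟨false,0,⟨0,[]⟩,⟨3,[(27,0),(0,0),(18,1)]⟩⟩,⟨true,(-1),⟨0,[(0,0)]⟩,⟨1,[(27,0),(2,1),(2,1),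
  (12,0)]⟩⟩,⟨true,0,⟨0,[(44,0)]⟩,⟨0,[(45,0)]⟩⟩,⟨false,0,⟨7,[(0,1),(4,1),(2,3),(0,1),(1,1),(10,1),(5,
  0),(18,0)]⟩,⟨0,[(3,0),(9,0),(6,0),(9,0)]⟩⟩,[]⟩)))) (.Q [0,1,1,0,-1,0,0,0,1,0,0,-1] (.p false [0,0,
  0,1] [] (⟨0,[(27,0)]⟩,⟨0,[(26,0)]⟩) .k 0 (⟨0,[]⟩,⟨0,[]⟩) .k .k) (.K ⟨0,[0,0,0,1],0,(-1),(⟨0,[(28,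
  0)]⟩,⟨0,[(27,0)]⟩),.k,(.r 0 ⟨1,[(0,0),(0,0),(9,0),(16,0)]⟩ ⟨91,[(10,15),(1,3),(2,31),(2,15),(1,3),
  (4,84),(0,38),(7,7)]⟩),(.x 0 ⟨0,[(40,0)]⟩ ⟨15,[(13,3),(3,3),(2,1),(4,6),(0,6),(11,0),(5,4)]⟩),.k,
  .k,[⟨0,[(28,0)]⟩,⟨0,[(27,0)]⟩,⟨1,[(25,0),(2,1),(15,0),(2,1)]⟩,⟨0,[(0,0)]⟩]⟩) (.Q [0,0,-1,0,1,0,0,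
  0,-1,-1,0,1] (.p true [0,0,0,1] [1] (⟨0,[(28,0)]⟩,⟨0,[(27,0)]⟩) .k 1 (⟨0,[]⟩,⟨0,[]⟩) .k .k) (.Q
  [0,1,1,1,-1,0,1,1,1,1,-1,-1] (.p false [0,0,1] [1,0,0,-1] (⟨0,[(38,0)]⟩,⟨0,[(37,0)]⟩) .k 2 (⟨0,
  [(28,0)]⟩,⟨0,[(29,0)]⟩) .k (.r 0 ⟨1,[(2,1),(14,0),(14,0),(2,0),(8,0)]⟩ ⟨3,[(26,2),(0,0),(8,3)]⟩))
  (.Q [0,0,0,0,0,-1,0,0,0,1,0,-1] (.ed true [0,1,0,1] .k) (.R ⟨1,false,false,false,[1,0,0,-1],[1,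
  -1],[1,1,0,0,0,0,0,0,-1],(⟨0,[(30,0)]⟩,⟨0,[(31,0)]⟩),(⟨0,[(42,0)]⟩,⟨0,[(43,0)]⟩),⟨0,[(0,0)]⟩,.k,
  .k,(.x (-1) ⟨15,[(16,3),(3,3),(2,1),(4,6),(0,6),(11,0),(5,4)]⟩ ⟨0,[(43,0)]⟩),(.r (-1) ⟨91,[(13,
  15),(1,3),(2,31),(2,15),(1,3),(4,84),(0,38),(7,7)]⟩ ⟨0,[(4,0),(41,0)]⟩),.k,.k,⟨true,0,⟨1,[(11,0),
  (14,0),(1,0),(16,0)]⟩,⟨0,[(5,0),(40,0)]⟩⟩,⟨false,0,⟨16,[(1,3),(4,3),(0,3),(2,7),(0,1),(11,0),(4,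
  5),(1,0)]⟩,⟨0,[(31,0),(15,0)]⟩⟩,⟨false,0,⟨0,[]⟩,⟨3,[(28,0),(0,0),(18,1)]⟩⟩,⟨false,0,⟨0,[(10,0),
  (35,0)]⟩,⟨0,[(3,0),(41,0)]⟩⟩,⟨true,0,⟨0,[(45,0)]⟩,⟨0,[(46,0)]⟩⟩,⟨false,0,⟨0,[(10,0)]⟩,⟨0,[(3,0),
  (46,0)]⟩⟩,[.a ⟨true,0,⟨0,[(46,0)]⟩,⟨2,[(15,0),(14,1),(0,1)]⟩⟩ ⟨false,1,⟨1,[(28,0),(18,0),(2,1)]⟩,
  ⟨0,[(5,0)]⟩⟩ ⟨true,0,⟨8,[(7,3),(2,3),(0,1),(11,0),(4,1),(1,4),(15,4)]⟩,⟨0,[(3,0),(0,0),(6,0),(14,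
  0)]⟩⟩,.o ⟨false,1,⟨11,[(8,5),(2,3),(16,2),(4,3),(7,3),(6,2)]⟩,⟨0,[(45,0)]⟩⟩,.o ⟨false,1,⟨5,[(2,3),
  (1,1),(24,0),(1,1),(9,0)]⟩,⟨16,[(1,3),(4,3),(0,3),(2,7),(0,1),(11,0),(4,5),(1,0)]⟩⟩,.e ⟨false,1,
  ⟨1,[(28,0),(18,0)]⟩,⟨3,[(5,1),(5,0),(17,0),(7,0),(6,0)]⟩⟩ ⟨false,1,⟨4,[(7,0),(0,1),(1,3),(17,2),
  (1,0)]⟩,⟨0,[(3,0),(0,0),(6,0),(14,0)]⟩⟩]⟩) (.R ⟨0,false,false,false,[1,0,0,-1],[0,0,0,1],[0,0,0,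
  -1,0,0,0,0,-1],(⟨0,[(30,0)]⟩,⟨0,[(31,0)]⟩),(⟨0,[(31,0)]⟩,⟨0,[(30,0)]⟩),⟨0,[(0,0)]⟩,.k,.k,(.x (-1)
  ⟨15,[(16,3),(3,3),(2,1),(4,6),(0,6),(11,0),(5,4)]⟩ ⟨0,[(43,0)]⟩),.k,.k,.k,⟨true,1,⟨0,[(28,0),(17,
  0)]⟩,⟨194,[(0,55),(0,95),(2,175),(0,95),(9,0),(0,13),(1,95),(1,13),(2,54),(5,10),(1,39)]⟩⟩,⟨false,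
  0,⟨16,[(1,3),(4,3),(0,3),(2,7),(0,1),(11,0),(4,5),(1,17)]⟩,⟨0,[(2,0),(1,0),(26,0)]⟩⟩,⟨true,0,⟨0,
  [(46,0)]⟩,⟨0,[(45,0)]⟩⟩,⟨false,(-1),⟨7,[(1,3),(3,8),(0,3),(1,1),(1,0),(0,5),(11,2),(6,6)]⟩,⟨0,[(2,
  0),(0,0),(46,0)]⟩⟩,⟨false,0,⟨0,[]⟩,⟨0,[]⟩⟩,⟨false,0,⟨0,[]⟩,⟨0,[]⟩⟩,[.o ⟨false,0,⟨7,[(1,1),(5,1),
  (2,5),(17,0),(0,0),(5,1)]⟩,⟨0,[(2,0)]⟩⟩,.o ⟨false,0,⟨0,[(10,0)]⟩,⟨0,[(2,0),(47,0)]⟩⟩,.o ⟨false,1,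
  ⟨5,[(2,3),(1,1),(24,0),(1,1),(9,0)]⟩,⟨16,[(1,3),(4,3),(0,3),(2,7),(0,1),(11,0),(4,5),(1,0)]⟩⟩,.a
  ⟨true,0,⟨0,[(31,0)]⟩,⟨0,[(30,0)]⟩⟩ ⟨true,1,⟨1,[(14,0),(13,0),(21,0)]⟩,⟨0,[(4,0),(6,0),(14,0)]⟩⟩
  ⟨false,0,⟨0,[(10,0),(19,0)]⟩,⟨0,[(2,0),(28,0)]⟩⟩]⟩)) (.Q [0,0,0,0,0,-1,0,0,0,0,0,1] (.ed false [1,
  -1,0,1] .k) (.R ⟨1,false,false,true,[0,0,0,1],[0,1],[0,0,0,-1,0,0,0,0,1],(⟨0,[(31,0)]⟩,⟨0,[(30,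
  0)]⟩),(⟨0,[(43,0)]⟩,⟨0,[(42,0)]⟩),⟨0,[(0,0)]⟩,.k,.k,(.r 0 ⟨0,[(4,0),(41,0)]⟩ ⟨91,[(13,15),(1,3),
  (2,31),(2,15),(1,3),(4,84),(0,38),(7,7)]⟩),(.r 0 ⟨0,[(4,0),(41,0)]⟩ ⟨91,[(13,15),(1,3),(2,31),(2,
  15),(1,3),(4,84),(0,38),(7,7)]⟩),(.r (-1) ⟨0,[(8,0),(41,0)]⟩ ⟨91,[(13,31),(1,7),(2,63),(2,31),(1,
  7),(4,54),(0,8),(7,15)]⟩),.k,⟨false,1,⟨0,[(8,0)]⟩,⟨2,[(2,0),(3,0),(4,1),(3,0),(5,0),(4,1),(1,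
  0)]⟩⟩,⟨true,1,⟨0,[(31,0),(15,0)]⟩,⟨0,[(11,0),(18,0),(2,0)]⟩⟩,⟨true,0,⟨0,[(46,0)]⟩,⟨0,[(45,0)]⟩⟩,
  ⟨false,1,⟨0,[(3,0),(41,0)]⟩,⟨0,[(10,0),(35,0)]⟩⟩,⟨false,1,⟨3,[(28,0),(0,0),(18,1)]⟩,⟨0,[]⟩⟩,
  ⟨false,1,⟨1,[(2,0),(0,0),(11,0),(29,0)]⟩,⟨0,[(10,0),(35,1)]⟩⟩,[.o ⟨false,0,⟨0,[(45,0)]⟩,⟨11,[(8,
  5),(2,3),(16,2),(4,3),(7,3),(6,2)]⟩⟩,.a ⟨true,0,⟨2,[(15,0),(14,1),(0,1)]⟩,⟨0,[(46,0)]⟩⟩ ⟨true,0,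
  ⟨0,[(5,0),(40,0)]⟩,⟨1,[(11,0),(14,0),(1,0),(16,0)]⟩⟩ ⟨false,1,⟨2,[(2,0),(1,0),(10,0),(15,1),(15,
  1)]⟩,⟨8,[(7,3),(2,3),(0,1),(11,0),(4,1),(1,4),(15,4)]⟩⟩,.o ⟨false,0,⟨2,[(11,0),(18,2),(2,0),(7,
  0)]⟩,⟨5,[(2,3),(1,1),(24,0),(1,1),(9,0)]⟩⟩,.o ⟨false,0,⟨67,[(7,23),(2,23),(0,39),(0,11),(10,19),
  (4,28),(0,10),(0,31)]⟩,⟨0,[(2,0),(1,0)]⟩⟩]⟩) (.R ⟨0,false,false,true,[0,0,0,1],[0,1],[0,0,0,-1,0,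
  0,0,0,1],(⟨0,[(31,0)]⟩,⟨0,[(30,0)]⟩),(⟨0,[(43,0)]⟩,⟨0,[(42,0)]⟩),⟨0,[(0,0)]⟩,.k,.k,(.r 0 ⟨0,[(4,
  0),(41,0)]⟩ ⟨91,[(13,15),(1,3),(2,31),(2,15),(1,3),(4,84),(0,38),(7,7)]⟩),(.r 0 ⟨0,[(4,0),(41,
  0)]⟩ ⟨91,[(13,15),(1,3),(2,31),(2,15),(1,3),(4,84),(0,38),(7,7)]⟩),.k,.k,⟨false,1,⟨0,[(8,0)]⟩,⟨23,
  [(0,3),(1,3),(8,12),(3,7),(0,0),(0,4),(2,0),(0,4),(4,13),(1,9)]⟩⟩,⟨true,1,⟨0,[(31,0),(15,0)]⟩,⟨0,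
  [(11,0),(18,0),(2,0)]⟩⟩,⟨true,0,⟨0,[(46,0)]⟩,⟨0,[(45,0)]⟩⟩,⟨false,1,⟨0,[(3,0),(41,0)]⟩,⟨0,[(10,0),
  (35,0)]⟩⟩,⟨false,0,⟨0,[]⟩,⟨0,[]⟩⟩,⟨false,0,⟨0,[]⟩,⟨0,[]⟩⟩,[.o ⟨false,0,⟨0,[(45,0)]⟩,⟨11,[(8,5),(2,
  3),(16,2),(4,3),(7,3),(6,2)]⟩⟩,.a ⟨true,0,⟨2,[(15,0),(14,1),(0,1)]⟩,⟨0,[(46,0)]⟩⟩ ⟨true,0,⟨0,[(5,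
  0),(40,0)]⟩,⟨1,[(11,0),(14,0),(1,0),(16,0)]⟩⟩ ⟨false,1,⟨2,[(2,0),(1,0),(10,0),(15,1),(15,1)]⟩,⟨8,
  [(7,3),(2,3),(0,1),(11,0),(4,1),(1,4),(15,4)]⟩⟩,.o ⟨false,0,⟨2,[(11,0),(18,2),(2,0),(7,0)]⟩,⟨5,
  [(2,3),(1,1),(24,0),(1,1),(9,0)]⟩⟩,.o ⟨false,0,⟨67,[(7,23),(2,23),(0,39),(0,11),(10,19),(4,28),(0,
  10),(0,31)]⟩,⟨0,[(2,0),(1,0)]⟩⟩]⟩))) (.R ⟨2,true,false,false,[0,1],[1,0,0,-1],[0,1,1],(⟨0,[]⟩,⟨0,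
  []⟩),(⟨0,[(28,0)]⟩,⟨0,[(29,0)]⟩),⟨0,[]⟩,.k,.k,.k,(.x 0 ⟨0,[(41,0)]⟩ ⟨15,[(14,3),(3,3),(2,1),(4,6),
  (0,6),(11,0),(5,4)]⟩),.k,.k,⟨true,(-1),⟨1,[(0,0),(1,0),(2,0),(3,0),(14,0),(4,0)]⟩,⟨1,[(26,0),(19,
  0)]⟩⟩,⟨false,1,⟨1,[(29,1),(9,0),(5,0)]⟩,⟨0,[(28,0)]⟩⟩,⟨false,0,⟨0,[(44,0)]⟩,⟨5,[(13,1),(12,0),(0,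
  0),(11,0),(6,2)]⟩⟩,⟨true,1,⟨0,[(1,0),(3,0)]⟩,⟨0,[(0,0),(42,0)]⟩⟩,⟨true,0,⟨0,[(48,0)]⟩,⟨0,[]⟩⟩,
  ⟨false,2,⟨3,[(1,3),(24,0),(0,0),(11,1)]⟩,⟨0,[(0,0)]⟩⟩,[]⟩)))) (.I [0,0,0,0,0,0,0,0,1] (.Q [0,0,0,
  0,0,-1,0,0,0,1,0,-1] (.ed true [0,1,0,1] .k) (.R ⟨1,false,false,false,[1,0,0,-1],[1,0,-1],[1,0,0,
  0,0,0,0,0,-1],(⟨0,[(27,0)]⟩,⟨0,[(28,0)]⟩),(⟨0,[(36,0)]⟩,⟨0,[(37,0)]⟩),⟨0,[(0,0)]⟩,.k,.k,(.x (-1)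
  ⟨15,[(13,3),(3,3),(2,1),(4,6),(0,6),(11,0),(5,4)]⟩ ⟨0,[(40,0)]⟩),.k,(.r (-1) ⟨8,[(2,6),(8,7),(4,
  4),(6,1),(1,0),(5,3),(2,1)]⟩ ⟨13,[(6,1),(5,0),(1,1),(0,6),(8,0),(1,6),(8,2)]⟩),.k,⟨false,1,⟨4,[(2,
  2),(7,2),(0,3),(11,1),(1,0),(5,1)]⟩,⟨0,[(1,0),(33,0)]⟩⟩,⟨true,0,⟨1,[(2,0),(4,0),(12,0),(6,0)]⟩,⟨8,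
  [(4,1),(1,2),(1,1),(2,1),(6,2),(5,1),(3,8)]⟩⟩,⟨true,0,⟨0,[]⟩,⟨0,[(47,0)]⟩⟩,⟨false,0,⟨4,[(3,1),(1,
  1),(1,1),(1,0),(5,1),(4,0),(11,0),(8,0)]⟩,⟨7,[(2,1),(3,0),(1,0),(1,1),(0,5),(6,6),(6,2),(2,7)]⟩⟩,
  ⟨false,1,⟨5,[(12,1),(12,0),(0,0),(11,0),(6,2)]⟩,⟨0,[(43,0)]⟩⟩,⟨false,0,⟨5,[(1,0),(1,1),(1,0),(0,
  2),(0,1),(1,1),(5,0),(4,1)]⟩,⟨4,[(2,0),(5,0),(1,0),(0,3),(6,0),(6,1),(2,4),(2,2)]⟩⟩,[.e ⟨false,1,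
  ⟨1,[(25,0),(18,0)]⟩,⟨0,[(1,0)]⟩⟩ ⟨false,0,⟨0,[(3,0)]⟩,⟨3,[(5,1),(12,3),(6,0),(2,3),(16,0)]⟩⟩,.o
  ⟨false,1,⟨0,[(29,0),(15,0)]⟩,⟨0,[(31,0)]⟩⟩,.o ⟨false,1,⟨1,[(28,1),(9,0),(5,0)]⟩,⟨0,[(2,0),(4,
  0)]⟩⟩,.a ⟨true,0,⟨0,[(28,0)]⟩,⟨0,[(27,0)]⟩⟩ ⟨false,1,⟨9,[(2,3),(3,3),(3,3),(0,5),(13,2),(18,0)]⟩,
  ⟨2,[(1,0),(6,0),(17,0),(7,0)]⟩⟩ ⟨true,0,⟨0,[(3,0)]⟩,⟨0,[(28,0),(2,0)]⟩⟩]⟩) (.R ⟨0,false,false,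
  false,[1,0,0,-1],[1,0,-1],[1,0,0,0,0,0,0,0,-1],(⟨0,[(27,0)]⟩,⟨0,[(28,0)]⟩),(⟨0,[(36,0)]⟩,⟨0,[(37,
  0)]⟩),⟨0,[(0,0)]⟩,.k,.k,(.x (-1) ⟨15,[(13,3),(3,3),(2,1),(4,6),(0,6),(11,0),(5,4)]⟩ ⟨0,[(40,0)]⟩),
  .k,.k,.k,⟨false,1,⟨4,[(2,2),(7,2),(0,3),(11,1),(1,0),(5,1)]⟩,⟨0,[(1,0),(33,0)]⟩⟩,⟨true,0,⟨1,[(2,
  0),(4,0),(12,0),(6,0)]⟩,⟨18,[(0,9),(12,0),(3,4),(1,1),(4,6),(3,8),(9,0)]⟩⟩,⟨true,0,⟨0,[]⟩,⟨0,[(47,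
  0)]⟩⟩,⟨false,0,⟨4,[(3,1),(1,1),(1,1),(1,0),(5,1),(4,0),(11,0),(8,0)]⟩,⟨12,[(0,2),(1,2),(7,3),(0,
  7),(5,1),(0,7),(0,0),(4,0),(0,4),(2,9),(2,0)]⟩⟩,⟨false,0,⟨0,[]⟩,⟨0,[]⟩⟩,⟨false,0,⟨0,[]⟩,⟨0,[]⟩⟩,
  [.e ⟨false,1,⟨1,[(25,0),(18,0)]⟩,⟨0,[(1,0)]⟩⟩ ⟨false,0,⟨0,[(3,0)]⟩,⟨3,[(5,1),(12,3),(6,0),(2,3),
  (16,0)]⟩⟩,.o ⟨false,1,⟨0,[(29,0),(15,0)]⟩,⟨0,[(31,0)]⟩⟩,.o ⟨false,1,⟨1,[(28,1),(9,0),(5,0)]⟩,⟨0,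
  [(2,0),(4,0)]⟩⟩,.a ⟨true,0,⟨0,[(28,0)]⟩,⟨0,[(27,0)]⟩⟩ ⟨false,1,⟨9,[(2,3),(3,3),(3,3),(0,5),(13,2),
  (18,0)]⟩,⟨2,[(1,0),(6,0),(17,0),(7,0)]⟩⟩ ⟨true,0,⟨0,[(3,0)]⟩,⟨0,[(28,0),(2,0)]⟩⟩]⟩)) (.Q [0,0,0,0,
  0,-1,0,0,0,1,0,-1] (.ed true [0,1,0,1] .k) (.Q [0,0,0,1,0,0,0,0,0,1,0,-1] (.p false [0,0,0,1] [1]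
  (⟨0,[(28,0)]⟩,⟨0,[(27,0)]⟩) .k 1 (⟨0,[]⟩,⟨0,[]⟩) .k .k) (.R ⟨1,false,false,true,[1,0,0,-1],[0,1],
  [1,1,0,0,0,0,0,0,-1],(⟨0,[(28,0)]⟩,⟨0,[(29,0)]⟩),(⟨0,[(41,0)]⟩,⟨0,[(40,0)]⟩),⟨0,[(1,0)]⟩,.k,.k,
  (.r (-1) ⟨1,[(3,0),(2,0),(19,0)]⟩ ⟨10,[(6,2),(2,1),(1,2),(4,4),(2,1),(4,3),(2,3)]⟩),(.r (-1) ⟨1,
  [(3,0),(2,0),(19,0)]⟩ ⟨10,[(6,2),(2,1),(1,2),(4,4),(2,1),(4,3),(2,3)]⟩),(.r (-1) ⟨0,[(2,4),(3,3),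
  (0,0),(1,2),(9,0),(4,3)]⟩ ⟨91,[(11,31),(1,7),(2,63),(2,31),(1,7),(4,8),(0,54),(7,15)]⟩),.k,⟨false,
  1,⟨1,[(2,0),(0,0),(8,0),(32,0)]⟩,⟨10,[(6,2),(2,1),(1,2),(4,4),(2,1),(4,3),(2,3)]⟩⟩,⟨true,0,⟨0,
  [(28,0)]⟩,⟨2,[(9,0),(19,2),(1,0),(7,0)]⟩⟩,⟨false,0,⟨0,[]⟩,⟨3,[(26,0),(0,0),(18,1)]⟩⟩,⟨false,0,⟨6,
  [(6,0),(2,1),(0,3),(13,0),(2,0),(0,2),(6,0)]⟩,⟨8,[(2,8),(2,2),(1,1),(3,1),(0,5),(16,8),(9,2),(2,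
  0)]⟩⟩,⟨true,0,⟨0,[(43,0)]⟩,⟨0,[(44,0)]⟩⟩,⟨false,0,⟨0,[(10,0)]⟩,⟨13,[(2,11),(2,7),(6,9),(13,0),(2,
  13),(9,2),(2,5)]⟩⟩,[.o ⟨false,0,⟨0,[(43,0)]⟩,⟨11,[(6,5),(2,3),(16,2),(4,3),(7,3),(6,2)]⟩⟩,.a
  ⟨true,0,⟨2,[(13,0),(14,1),(0,1)]⟩,⟨0,[(44,0)]⟩⟩ ⟨true,0,⟨0,[(2,0)]⟩,⟨8,[(6,1),(2,4),(0,0),(10,0),
  (2,1),(2,2),(1,0),(5,0)]⟩⟩ ⟨false,0,⟨0,[(0,0)]⟩,⟨5,[(5,1),(0,1),(19,0),(2,5),(9,1),(5,0)]⟩⟩,.o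
  ⟨false,1,⟨1,[(29,1),(9,0),(5,0)]⟩,⟨0,[(3,0),(4,0)]⟩⟩,.e ⟨false,1,⟨1,[(26,0),(18,0)]⟩,⟨0,[(8,0),
  (20,0)]⟩⟩ ⟨false,0,⟨0,[(0,0)]⟩,⟨11,[(6,5),(2,3),(16,2),(2,11),(1,3),(7,3),(6,2)]⟩⟩]⟩) (.R ⟨1,
  false,false,true,[1,0,0,-1],[0,1],[1,1,0,0,0,0,0,0,-1],(⟨0,[(28,0)]⟩,⟨0,[(29,0)]⟩),(⟨0,[(41,0)]⟩,
  ⟨0,[(40,0)]⟩),⟨0,[(1,0)]⟩,.k,.k,(.r (-1) ⟨1,[(3,0),(2,0),(19,0)]⟩ ⟨2,[(0,0),(7,0),(0,0),(3,0),(10,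
  0),(2,0)]⟩),(.r (-1) ⟨1,[(3,0),(2,0),(19,0)]⟩ ⟨2,[(0,0),(7,0),(0,0),(3,0),(10,0),(2,0)]⟩),(.r
  (-1) ⟨0,[(0,3),(0,1),(0,1),(1,1),(1,0),(4,0),(6,1),(0,0),(0,0),(3,0),(16,4)]⟩ ⟨91,[(11,31),(1,7),
  (2,63),(2,31),(1,7),(4,8),(0,54),(7,15)]⟩),.k,⟨false,1,⟨1,[(2,0),(0,0),(8,0),(32,0)]⟩,⟨2,[(0,0),
  (7,0),(0,0),(3,0),(10,0),(2,0)]⟩⟩,⟨true,0,⟨0,[(28,0)]⟩,⟨2,[(9,0),(19,2),(1,0),(7,0)]⟩⟩,⟨false,0,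
  ⟨0,[]⟩,⟨3,[(26,0),(0,0),(18,1)]⟩⟩,⟨false,0,⟨6,[(6,0),(2,1),(0,3),(13,0),(2,0),(0,2),(6,0)]⟩,⟨13,
  [(0,13),(1,3),(4,3),(3,3),(0,5),(13,4),(18,2)]⟩⟩,⟨true,0,⟨0,[(43,0)]⟩,⟨0,[(44,0)]⟩⟩,⟨false,0,⟨0,
  [(10,0)]⟩,⟨14,[(0,14),(1,2),(4,0),(3,0),(0,8),(13,5),(15,1)]⟩⟩,[.o ⟨false,0,⟨0,[(43,0)]⟩,⟨11,[(6,
  5),(2,3),(16,2),(4,3),(7,3),(6,2)]⟩⟩,.e ⟨true,0,⟨0,[(2,0)]⟩,⟨8,[(6,1),(2,4),(0,0),(10,0),(2,1),(2,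
  2),(1,0),(5,0)]⟩⟩ ⟨true,0,⟨20,[(3,0),(5,2),(0,8),(0,0),(4,0),(9,3),(1,11),(6,2)]⟩,⟨0,[(0,0)]⟩⟩,.o
  ⟨false,1,⟨1,[(29,1),(9,0),(5,0)]⟩,⟨0,[(3,0),(4,0)]⟩⟩,.a ⟨true,0,⟨0,[(29,0)]⟩,⟨0,[(28,0)]⟩⟩ ⟨false,
  1,⟨1,[(26,0),(18,0)]⟩,⟨0,[(8,0),(20,0)]⟩⟩ ⟨true,0,⟨0,[(28,0),(14,0)]⟩,⟨0,[(0,0)]⟩⟩]⟩)) (.R ⟨1,
  false,false,false,[0,0,0,1],[1,-1],[0,0,0,-1,0,0,0,0,1],(⟨0,[(28,0)]⟩,⟨0,[(27,0)]⟩),(⟨0,[(39,0)]⟩,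
  ⟨0,[(40,0)]⟩),⟨7,[(0,3),(10,2),(0,0),(0,2),(3,2),(5,2),(4,3)]⟩,.k,.k,(.r (-1) ⟨7,[(5,3),(19,0),(0,
  2),(20,3)]⟩ ⟨2,[(2,0),(7,0),(4,0),(9,0)]⟩),(.r 0 ⟨26,[(0,7),(6,8),(0,6),(3,5),(0,1),(3,1),(5,8),
  (2,8),(1,0)]⟩ ⟨1,[(2,0),(2,0),(19,0)]⟩),.k,.k,⟨true,0,⟨8,[(5,1),(2,4),(0,0),(10,0),(2,1),(2,2),(1,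
  0),(5,0)]⟩,⟨0,[(1,0)]⟩⟩,⟨false,1,⟨1,[(28,1),(9,0),(5,0)]⟩,⟨0,[(27,0)]⟩⟩,⟨true,0,⟨0,[(43,0)]⟩,⟨0,
  [(42,0)]⟩⟩,⟨false,1,⟨69,[(0,31),(0,55),(4,9),(3,9),(0,49),(1,7),(3,7),(2,3),(4,6),(2,37),(9,20)]⟩,
  ⟨6,[(5,0),(2,1),(0,3),(13,0),(2,0),(0,2),(6,0)]⟩⟩,⟨false,1,⟨3,[(25,0),(0,0),(18,1)]⟩,⟨0,[]⟩⟩,
  ⟨false,1,⟨20,[(0,7),(0,20),(4,5),(3,5),(0,8),(1,1),(3,1),(2,0),(7,12),(9,6),(5,6)]⟩,⟨6,[(5,1),(2,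
  3),(0,0),(13,1),(2,1),(0,5),(6,1)]⟩⟩,[.a ⟨true,0,⟨0,[(43,0)]⟩,⟨2,[(12,0),(14,1),(0,1)]⟩⟩ ⟨true,0,
  ⟨0,[(5,0),(2,0),(14,0)]⟩,⟨2,[(2,0),(7,0),(4,0),(9,0)]⟩⟩ ⟨false,1,⟨3,[(0,3),(3,0),(6,1),(1,0),(3,
  0),(5,0),(20,2)]⟩,⟨20,[(2,0),(5,2),(0,8),(0,0),(4,0),(9,3),(1,11),(6,2)]⟩⟩,.o ⟨false,1,⟨11,[(5,5),
  (2,3),(16,2),(4,3),(7,3),(6,2)]⟩,⟨0,[(42,0)]⟩⟩,.o ⟨false,0,⟨0,[(2,0),(4,0)]⟩,⟨1,[(28,1),(9,0),(5,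
  0)]⟩⟩,.o ⟨false,0,⟨67,[(4,23),(2,23),(0,39),(0,11),(10,19),(4,28),(0,10),(0,31)]⟩,⟨2,[(0,2),(9,0),
  (0,2),(2,1),(2,1),(0,0),(0,0),(3,0)]⟩⟩]⟩)))) (.I [1,-1,1,1,0,0,0,0,-1] (.Q [0,0,0,0,0,-1,0,0,0,0,
  0,1] (.ed false [1,-1,0,1] .k) (.R ⟨1,false,false,true,[0,0,0,1],[0,1],[0,1,0,-1,0,0,0,0,1],(⟨0,
  [(27,0)]⟩,⟨0,[(26,0)]⟩),(⟨0,[(39,0)]⟩,⟨0,[(38,0)]⟩),⟨0,[(0,0)]⟩,.k,.k,(.r (-1) ⟨7,[(4,3),(19,0),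
  (0,2),(20,3)]⟩ ⟨6,[(1,2),(5,0),(6,0),(2,0),(4,1),(1,1)]⟩),(.r (-1) ⟨7,[(4,3),(19,0),(0,2),(20,
  3)]⟩ ⟨6,[(1,2),(5,0),(6,0),(2,0),(4,1),(1,1)]⟩),(.r (-1) ⟨0,[(4,0),(41,0)]⟩ ⟨91,[(9,31),(1,7),(2,
  63),(2,31),(1,7),(4,54),(0,8),(7,15)]⟩),.k,⟨false,1,⟨0,[(4,0),(41,0)]⟩,⟨5,[(1,3),(9,0),(1,0),(0,
  0),(2,1),(4,0),(1,0)]⟩⟩,⟨true,1,⟨0,[(27,0),(15,0)]⟩,⟨0,[(7,0),(18,0),(2,0)]⟩⟩,⟨false,0,⟨0,[(42,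
  0)]⟩,⟨5,[(11,1),(12,0),(0,0),(11,0),(6,2)]⟩⟩,⟨false,1,⟨4,[(1,0),(0,0),(8,0),(1,0),(10,1),(2,3),
  (15,2)]⟩,⟨0,[(6,0),(35,0)]⟩⟩,⟨true,0,⟨0,[(46,0)]⟩,⟨0,[]⟩⟩,⟨false,1,⟨9,[(1,3),(0,3),(8,3),(1,3),
  (10,2),(2,5),(15,6)]⟩,⟨0,[(6,0),(35,1)]⟩⟩,[.o ⟨false,0,⟨0,[(41,0)]⟩,⟨11,[(4,5),(2,3),(16,2),(4,3),
  (7,3),(6,2)]⟩⟩,.a ⟨true,0,⟨2,[(11,0),(14,1),(0,1)]⟩,⟨0,[(42,0)]⟩⟩ ⟨true,0,⟨0,[(4,0),(2,0),(14,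
  0)]⟩,⟨6,[(1,2),(5,0),(6,0),(2,0),(4,1),(1,1)]⟩⟩ ⟨false,1,⟨1,[(2,0),(7,0),(0,0),(1,0),(13,0),(15,
  0)]⟩,⟨8,[(3,3),(2,3),(0,1),(11,0),(4,1),(1,4),(15,4)]⟩⟩,.o ⟨false,0,⟨2,[(7,0),(18,2),(2,0),(7,
  0)]⟩,⟨1,[(27,1),(9,0),(5,0)]⟩⟩,.e ⟨false,1,⟨7,[(4,3),(19,0),(0,2),(20,3)]⟩,⟨0,[(1,0)]⟩⟩ ⟨false,1,
  ⟨1,[(2,0),(7,0),(0,0),(1,0),(13,0),(15,0)]⟩,⟨11,[(6,9),(0,4),(11,1),(4,4),(1,1),(6,0),(6,0),(1,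
  11)]⟩⟩]⟩) (.I [0,0,0,0,0,0,0,0,1] (.R ⟨0,false,false,true,[0,0,0,1],[0,1],[0,1,0,0,0,0,0,0,1],(⟨0,
  [(28,0)]⟩,⟨0,[(27,0)]⟩),(⟨0,[(40,0)]⟩,⟨0,[(39,0)]⟩),⟨0,[(1,0)]⟩,.k,.k,(.r (-1) ⟨7,[(5,3),(19,0),
  (0,2),(20,3)]⟩ ⟨6,[(2,2),(5,0),(6,0),(2,0),(4,1),(1,1)]⟩),(.r (-1) ⟨7,[(5,3),(19,0),(0,2),(20,
  3)]⟩ ⟨6,[(2,2),(5,0),(6,0),(2,0),(4,1),(1,1)]⟩),.k,.k,⟨false,1,⟨0,[(5,0),(36,0)]⟩,⟨6,[(2,2),(5,0),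
  (6,0),(2,0),(4,1),(1,1)]⟩⟩,⟨true,1,⟨0,[(28,0),(15,0)]⟩,⟨0,[(8,0),(18,0),(2,0)]⟩⟩,⟨true,0,⟨0,[(47,
  0)]⟩,⟨0,[]⟩⟩,⟨false,1,⟨4,[(2,0),(0,0),(8,0),(1,0),(10,1),(2,3),(15,2)]⟩,⟨0,[(7,0),(35,0)]⟩⟩,
  ⟨false,0,⟨0,[]⟩,⟨0,[]⟩⟩,⟨false,0,⟨0,[]⟩,⟨0,[]⟩⟩,[.o ⟨false,0,⟨0,[(42,0)]⟩,⟨11,[(5,5),(2,3),(16,2),
  (4,3),(7,3),(6,2)]⟩⟩,.a ⟨true,0,⟨2,[(12,0),(14,1),(0,1)]⟩,⟨0,[(43,0)]⟩⟩ ⟨true,0,⟨0,[(0,0)]⟩,⟨2,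
  [(2,0),(5,0),(14,0),(1,0),(17,1)]⟩⟩ ⟨false,1,⟨1,[(3,0),(7,0),(0,0),(1,0),(13,0),(15,0)]⟩,⟨8,[(4,
  3),(2,3),(0,1),(11,0),(4,1),(1,4),(15,4)]⟩⟩,.o ⟨false,0,⟨2,[(8,0),(18,2),(2,0),(7,0)]⟩,⟨1,[(28,1),
  (9,0),(5,0)]⟩⟩,.e ⟨false,1,⟨1,[(26,0),(17,0)]⟩,⟨0,[(2,0),(40,0)]⟩⟩ ⟨false,1,⟨1,[(3,0),(7,0),(0,0),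
  (1,0),(13,0),(15,0)]⟩,⟨11,[(7,9),(0,4),(11,1),(4,4),(1,1),(6,0),(6,0),(1,11)]⟩⟩]⟩) (.R ⟨1,false,
  false,true,[1,0,0,-1],[1,-1],[1,1,0,0,0,0,0,0,-1],(⟨0,[(27,0)]⟩,⟨0,[(28,0)]⟩),(⟨0,[(39,0)]⟩,⟨0,
  [(40,0)]⟩),⟨7,[(1,3),(9,2),(0,0),(0,2),(3,2),(5,2),(3,3)]⟩,.k,.k,(.x (-1) ⟨15,[(13,3),(3,3),(2,1),
  (4,6),(0,6),(11,0),(5,4)]⟩ ⟨0,[(40,0)]⟩),(.r 0 ⟨6,[(2,2),(5,0),(6,0),(2,0),(4,1),(1,1)]⟩ ⟨7,[(5,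
  3),(19,0),(0,2),(20,3)]⟩),.k,.k,⟨true,0,⟨6,[(2,2),(5,0),(6,0),(2,0),(4,1),(1,1)]⟩,⟨0,[(5,0),(2,0),
  (14,0)]⟩⟩,⟨false,0,⟨2,[(8,0),(18,2),(2,0),(7,0)]⟩,⟨0,[(28,0),(15,0)]⟩⟩,⟨false,0,⟨0,[]⟩,⟨3,[(25,0),
  (0,0),(18,1)]⟩⟩,⟨false,0,⟨3,[(4,1),(0,0),(1,0),(0,1),(11,0),(5,0),(0,2)]⟩,⟨0,[(2,0),(25,0),(15,
  0)]⟩⟩,⟨true,0,⟨0,[(42,0)]⟩,⟨0,[(43,0)]⟩⟩,⟨false,0,⟨0,[(7,0),(39,0)]⟩,⟨5,[(2,3),(8,1),(13,0),(2,5),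
  (15,2)]⟩⟩,[.o ⟨false,0,⟨0,[(4,0)]⟩,⟨5,[(12,1),(12,0),(0,0),(11,0),(6,2)]⟩⟩,.e ⟨true,0,⟨0,[(0,0)]⟩,
  ⟨8,[(5,1),(2,4),(0,0),(10,0),(2,1),(2,2),(1,0),(5,0)]⟩⟩ ⟨true,0,⟨8,[(4,3),(2,3),(0,1),(11,0),(4,
  1),(1,4),(15,4)]⟩,⟨1,[(3,0),(2,0),(16,0),(4,0)]⟩⟩,.o ⟨false,1,⟨1,[(28,1),(9,0),(5,0)]⟩,⟨2,[(8,0),
  (18,2),(2,0),(7,0)]⟩⟩,.a ⟨true,0,⟨0,[(28,0)]⟩,⟨0,[(27,0)]⟩⟩ ⟨false,1,⟨1,[(25,0),(18,0)]⟩,⟨0,[(7,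
  0),(20,0)]⟩⟩ ⟨true,0,⟨0,[(4,0),(22,0)]⟩,⟨1,[(3,0),(2,0),(16,0),(4,0)]⟩⟩]⟩))) (.Q [0,0,-2,0,1,0,0,
  0,0,-1,0,1] (.p true [0,0,0,1] [1] (⟨0,[(26,0)]⟩,⟨0,[(25,0)]⟩) .k 1 (⟨0,[]⟩,⟨0,[]⟩) .k .k) (.Q [0,
  0,0,0,0,-1,0,0,0,0,0,1] (.ed false [1,-1,0,1] .k) (.R ⟨1,false,false,true,[0,0,0,1],[0,1],[0,0,0,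
  -1,0,0,0,0,1],(⟨0,[(28,0)]⟩,⟨0,[(27,0)]⟩),(⟨0,[(40,0)]⟩,⟨0,[(39,0)]⟩),⟨0,[(0,0)]⟩,.k,.k,(.x 0 ⟨7,
  [(8,3),(4,1),(3,1),(2,1),(4,2),(0,2),(7,1)]⟩ ⟨0,[(40,0),(3,0)]⟩),(.x 0 ⟨7,[(8,3),(4,1),(3,1),(2,
  1),(4,2),(0,2),(7,1)]⟩ ⟨0,[(40,0),(3,0)]⟩),(.r (-1) ⟨11,[(2,7),(2,7),(19,2),(0,0)]⟩ ⟨91,[(10,31),
  (1,7),(2,63),(2,31),(1,7),(4,54),(0,8),(7,15)]⟩),.k,⟨false,1,⟨0,[(5,0)]⟩,⟨1,[(6,0),(1,0),(9,0),(4,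
  1),(1,0)]⟩⟩,⟨true,1,⟨0,[(28,0),(15,0)]⟩,⟨0,[(8,0),(18,0),(2,0)]⟩⟩,⟨true,0,⟨0,[(43,0)]⟩,⟨0,[(42,
  0)]⟩⟩,⟨false,1,⟨5,[(1,1),(10,1),(12,2),(2,3),(15,0)]⟩,⟨0,[(7,0),(35,0)]⟩⟩,⟨false,1,⟨3,[(25,0),(0,
  0),(18,1)]⟩,⟨0,[]⟩⟩,⟨false,1,⟨3,[(1,1),(1,0),(2,0),(5,1),(10,0),(1,1),(2,0)]⟩,⟨0,[(7,0),(35,1)]⟩⟩,
  [.o ⟨false,0,⟨0,[(42,0)]⟩,⟨11,[(5,5),(2,3),(16,2),(4,3),(7,3),(6,2)]⟩⟩,.a ⟨true,0,⟨2,[(12,0),(14,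
  1),(0,1)]⟩,⟨0,[(43,0)]⟩⟩ ⟨true,0,⟨0,[(2,0),(38,0)]⟩,⟨1,[(8,0),(14,0),(1,0),(16,0)]⟩⟩ ⟨false,1,⟨2,
  [(1,0),(10,0),(15,1),(15,1)]⟩,⟨8,[(4,3),(2,3),(0,1),(11,0),(4,1),(1,4),(15,4)]⟩⟩,.o ⟨false,0,⟨2,
  [(8,0),(18,2),(2,0),(7,0)]⟩,⟨7,[(1,3),(23,0),(0,0),(1,3),(9,1)]⟩⟩,.o ⟨false,0,⟨67,[(4,23),(2,23),
  (0,39),(0,11),(10,19),(4,28),(0,10),(0,31)]⟩,⟨0,[(1,0)]⟩⟩]⟩) (.R ⟨0,false,false,true,[0,0,0,1],[0,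
  1],[0,0,0,-1,0,0,0,0,1],(⟨0,[(28,0)]⟩,⟨0,[(27,0)]⟩),(⟨0,[(40,0)]⟩,⟨0,[(39,0)]⟩),⟨0,[(0,0)]⟩,.k,.k,
  (.x 0 ⟨7,[(8,3),(4,1),(3,1),(2,1),(4,2),(0,2),(7,1)]⟩ ⟨0,[(40,0),(3,0)]⟩),(.x 0 ⟨7,[(8,3),(4,1),
  (3,1),(2,1),(4,2),(0,2),(7,1)]⟩ ⟨0,[(40,0),(3,0)]⟩),.k,.k,⟨false,1,⟨0,[(5,0)]⟩,⟨1,[(6,0),(1,0),(9,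
  0),(4,1),(1,0)]⟩⟩,⟨true,1,⟨0,[(28,0),(15,0)]⟩,⟨0,[(8,0),(18,0),(2,0)]⟩⟩,⟨true,0,⟨0,[(43,0)]⟩,⟨0,
  [(42,0)]⟩⟩,⟨false,1,⟨5,[(1,1),(10,1),(12,2),(2,3),(15,0)]⟩,⟨0,[(7,0),(35,0)]⟩⟩,⟨false,0,⟨0,[]⟩,⟨0,
  []⟩⟩,⟨false,0,⟨0,[]⟩,⟨0,[]⟩⟩,[.o ⟨false,0,⟨0,[(42,0)]⟩,⟨11,[(5,5),(2,3),(16,2),(4,3),(7,3),(6,
  2)]⟩⟩,.a ⟨true,0,⟨2,[(12,0),(14,1),(0,1)]⟩,⟨0,[(43,0)]⟩⟩ ⟨true,0,⟨0,[(2,0),(38,0)]⟩,⟨1,[(8,0),(14,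
  0),(1,0),(16,0)]⟩⟩ ⟨false,1,⟨2,[(1,0),(10,0),(15,1),(15,1)]⟩,⟨8,[(4,3),(2,3),(0,1),(11,0),(4,1),
  (1,4),(15,4)]⟩⟩,.o ⟨false,0,⟨2,[(8,0),(18,2),(2,0),(7,0)]⟩,⟨7,[(1,3),(23,0),(0,0),(1,3),(9,1)]⟩⟩,
  .o ⟨false,0,⟨67,[(4,23),(2,23),(0,39),(0,11),(10,19),(4,28),(0,10),(0,31)]⟩,⟨0,[(1,0)]⟩⟩]⟩)) (.R
  ⟨1,false,false,false,[1,0,0,-1],[1,0,-1],[0,1,0,-1,0,0,0,0,-1],(⟨0,[(26,0)]⟩,⟨0,[(27,0)]⟩),(⟨0,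
  [(35,0)]⟩,⟨0,[(36,0)]⟩),⟨2,[(0,2),(8,0),(0,2),(2,1),(2,1),(0,0),(0,0),(3,0)]⟩,.k,.k,(.x (-1) ⟨15,
  [(12,3),(3,3),(2,1),(4,6),(0,6),(11,0),(5,4)]⟩ ⟨0,[(39,0)]⟩),.k,(.x 0 ⟨19,[(12,11),(5,3),(5,0),(0,
  0),(17,9)]⟩ ⟨3,[(19,1),(4,0),(0,0),(9,3),(1,0),(1,3),(3,0)]⟩),.k,⟨false,1,⟨1,[(0,0),(1,0),(0,0),
  (6,1),(6,0),(4,1),(1,0)]⟩,⟨20,[(1,14),(3,22),(3,4),(4,2),(10,2),(14,3)]⟩⟩,⟨true,0,⟨3,[(0,0),(18,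
  1),(6,2),(10,0)]⟩,⟨0,[(2,0),(31,0)]⟩⟩,⟨false,0,⟨0,[(42,0)]⟩,⟨5,[(11,1),(12,0),(0,0),(11,0),(6,
  2)]⟩⟩,⟨false,0,⟨3,[(0,0),(3,0),(0,1),(0,2),(12,0),(11,1)]⟩,⟨1,[(2,1),(21,0),(18,0)]⟩⟩,⟨true,0,⟨0,
  [(46,0)]⟩,⟨0,[]⟩⟩,⟨false,0,⟨5,[(1,0),(3,3),(0,4),(4,0),(7,1),(6,0),(4,1)]⟩,⟨2,[(1,0),(0,2),(7,0),
  (13,1)]⟩⟩,[.a ⟨true,0,⟨2,[(0,0),(9,0),(9,1),(1,1),(4,0),(0,0)]⟩,⟨0,[(2,0),(23,0)]⟩⟩ ⟨false,1,⟨0,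
  [(1,0),(22,0)]⟩,⟨2,[(1,2),(3,1),(3,1),(30,0)]⟩⟩ ⟨true,0,⟨13,[(0,2),(5,5),(12,1),(0,3),(3,2),(1,4),
  (1,5),(2,3)]⟩,⟨0,[(2,0)]⟩⟩,.o ⟨false,1,⟨0,[(28,0),(15,0)]⟩,⟨0,[(30,0)]⟩⟩,.o ⟨false,1,⟨1,[(27,1),
  (9,0),(5,0)]⟩,⟨1,[(0,0),(25,0),(10,0)]⟩⟩,.e ⟨false,1,⟨2,[(1,0),(8,0),(13,1)]⟩,⟨20,[(1,8),(3,3),(3,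
  9),(4,5),(10,5),(14,7)]⟩⟩ ⟨false,1,⟨27,[(5,3),(0,13),(3,7),(2,11),(5,1),(4,6),(1,13),(4,11),(12,
  12)]⟩,⟨0,[(2,0)]⟩⟩]⟩))))) (.Q [0,0,0,1,0,0,0,0,0,1,0,-1] (.p false [0,0,0,1] [1] (⟨0,[(23,0)]⟩,⟨0,
  [(22,0)]⟩) .k 1 (⟨0,[]⟩,⟨0,[]⟩) .k .k) (.Q [0,0,0,0,0,-1,0,0,0,1,0,-1] (.ed true [0,1,0,1] .k)
  (.R ⟨1,false,false,true,[1,0,0,-1],[0,1],[1,1,0,0,0,0,0,0,-1],(⟨0,[(24,0)]⟩,⟨0,[(25,0)]⟩),(⟨0,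
  [(37,0)]⟩,⟨0,[(36,0)]⟩),⟨0,[(0,0)]⟩,.k,.k,(.x (-1) ⟨15,[(10,3),(3,3),(2,1),(4,6),(0,6),(11,0),(5,
  4)]⟩ ⟨0,[(37,0)]⟩),(.x (-1) ⟨15,[(10,3),(3,3),(2,1),(4,6),(0,6),(11,0),(5,4)]⟩ ⟨0,[(37,0)]⟩),(.r
  (-1) ⟨0,[(2,0),(5,1),(35,0)]⟩ ⟨19,[(2,7),(4,7),(4,7),(9,0),(0,14)]⟩),.k,⟨false,1,⟨1,[(2,1),(5,2),
  (32,0),(2,0)]⟩,⟨13,[(4,7),(4,0),(1,0),(0,2),(2,3),(4,2),(2,2),(1,7)]⟩⟩,⟨true,0,⟨0,[(24,0)]⟩,⟨2,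
  [(5,0),(19,2),(1,0),(7,0)]⟩⟩,⟨false,0,⟨0,[]⟩,⟨3,[(22,0),(0,0),(18,1)]⟩⟩,⟨false,0,⟨4,[(4,0),(0,0),
  (0,1),(13,0),(2,0),(0,2),(0,0)]⟩,⟨2,[(2,2),(2,0),(1,0),(0,5),(2,0),(13,2),(9,0)]⟩⟩,⟨true,0,⟨0,
  [(39,0)]⟩,⟨0,[(40,0)]⟩⟩,⟨false,0,⟨0,[(6,0)]⟩,⟨2,[(2,2),(2,0),(2,5),(16,2),(1,0),(7,0)]⟩⟩,[.o
  ⟨false,0,⟨0,[(39,0)]⟩,⟨3,[(8,1),(18,1),(2,1),(4,0),(6,0)]⟩⟩,.a ⟨true,0,⟨2,[(9,0),(14,1),(0,1)]⟩,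
  ⟨0,[(40,0)]⟩⟩ ⟨true,0,⟨0,[(2,0),(5,0)]⟩,⟨2,[(4,0),(0,0),(14,0),(2,0),(1,0),(14,0)]⟩⟩ ⟨false,0,⟨0,
  [(1,0)]⟩,⟨1,[(8,0),(16,1),(9,0),(8,0)]⟩⟩,.o ⟨false,1,⟨1,[(25,1),(9,0),(5,0)]⟩,⟨2,[(5,0),(18,2),(2,
  0),(7,0)]⟩⟩,.e ⟨false,1,⟨1,[(22,0),(18,0)]⟩,⟨0,[(4,0),(20,0)]⟩⟩ ⟨false,0,⟨0,[(1,0)]⟩,⟨3,[(8,1),
  (16,3),(1,1),(2,1),(4,0),(6,0)]⟩⟩]⟩) (.I [0,0,0,0,0,0,0,0,-1] (.R ⟨0,false,false,true,[1,0,0,-1],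
  [0,1],[0,1,0,0,0,0,0,0,-1],(⟨0,[(25,0)]⟩,⟨0,[(26,0)]⟩),(⟨0,[(38,0)]⟩,⟨0,[(37,0)]⟩),⟨0,[(1,0)]⟩,.k,
  .k,(.x (-1) ⟨15,[(11,3),(3,3),(2,1),(4,6),(0,6),(11,0),(5,4)]⟩ ⟨0,[(38,0)]⟩),(.x (-1) ⟨15,[(11,3),
  (3,3),(2,1),(4,6),(0,6),(11,0),(5,4)]⟩ ⟨0,[(38,0)]⟩),.k,.k,⟨false,1,⟨1,[(0,1),(8,0),(32,0),(2,
  0)]⟩,⟨26,[(1,7),(3,8),(0,6),(3,5),(0,1),(3,1),(5,8),(2,8),(1,0)]⟩⟩,⟨true,0,⟨0,[(25,0)]⟩,⟨2,[(6,0),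
  (19,2),(1,0),(7,0)]⟩⟩,⟨true,0,⟨0,[(45,0)]⟩,⟨0,[]⟩⟩,⟨false,0,⟨4,[(5,0),(0,0),(0,1),(13,0),(2,0),(0,
  2),(0,0)]⟩,⟨104,[(0,104),(0,23),(2,10),(3,10),(0,68),(1,5),(3,5),(2,2),(7,80),(9,41),(2,6)]⟩⟩,
  ⟨false,0,⟨0,[]⟩,⟨0,[]⟩⟩,⟨false,0,⟨0,[]⟩,⟨0,[]⟩⟩,[.o ⟨false,0,⟨0,[(40,0)]⟩,⟨3,[(9,1),(18,1),(2,1),
  (4,0),(6,0)]⟩⟩,.a ⟨true,0,⟨2,[(10,0),(14,1),(0,1)]⟩,⟨0,[(41,0)]⟩⟩ ⟨true,0,⟨0,[(0,0)]⟩,⟨2,[(5,0),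
  (0,0),(14,0),(2,0),(1,0),(14,0)]⟩⟩ ⟨false,0,⟨0,[(2,0)]⟩,⟨1,[(9,0),(16,1),(9,0),(8,0)]⟩⟩,.o ⟨false,
  1,⟨1,[(26,1),(9,0),(5,0)]⟩,⟨2,[(6,0),(18,2),(2,0),(7,0)]⟩⟩,.e ⟨false,1,⟨1,[(23,0),(18,0)]⟩,⟨0,[(5,
  0),(20,0)]⟩⟩ ⟨false,0,⟨0,[(2,0)]⟩,⟨3,[(9,1),(16,3),(1,1),(2,1),(4,0),(6,0)]⟩⟩]⟩) (.N [0,0,0,1] 0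
  ⟨0,[(0,0)]⟩ ⟨0,[(3,0),(5,0)]⟩ .k))) (.I [1,-1,2,2,-1,0,0,-1,-1] (.Q [0,0,0,0,0,1,0,0,0,-1,0,1]
  (.ed false [0,1,0,1] .k) (.R ⟨0,false,false,true,[1,0,0,-1],[0,1],[0,1,0,0,0,0,0,0,-1],(⟨0,[(25,
  0)]⟩,⟨0,[(26,0)]⟩),(⟨0,[(38,0)]⟩,⟨0,[(37,0)]⟩),⟨0,[(0,0)]⟩,.k,.k,(.x (-1) ⟨15,[(11,3),(3,3),(2,1),
  (4,6),(0,6),(11,0),(5,4)]⟩ ⟨0,[(38,0)]⟩),(.x (-1) ⟨15,[(11,3),(3,3),(2,1),(4,6),(0,6),(11,0),(5,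
  4)]⟩ ⟨0,[(38,0)]⟩),.k,.k,⟨false,1,⟨1,[(3,1),(5,2),(32,0),(2,0)]⟩,⟨26,[(0,7),(4,8),(0,6),(3,5),(0,
  1),(3,1),(5,8),(2,8),(1,0)]⟩⟩,⟨true,0,⟨0,[(25,0)]⟩,⟨2,[(6,0),(19,2),(1,0),(7,0)]⟩⟩,⟨true,0,⟨0,
  [(45,0)]⟩,⟨0,[]⟩⟩,⟨false,0,⟨4,[(5,0),(0,0),(0,1),(13,0),(2,0),(0,2),(0,0)]⟩,⟨7,[(1,1),(0,7),(5,1),
  (0,3),(13,2),(18,2)]⟩⟩,⟨false,0,⟨0,[]⟩,⟨0,[]⟩⟩,⟨false,0,⟨0,[]⟩,⟨0,[]⟩⟩,[.o ⟨false,0,⟨0,[(40,0)]⟩,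
  ⟨3,[(9,1),(18,1),(2,1),(4,0),(6,0)]⟩⟩,.e ⟨true,0,⟨0,[(1,0),(7,0),(6,0),(4,0),(19,1)]⟩,⟨2,[(5,0),
  (0,0),(14,0),(2,0),(1,0),(14,0)]⟩⟩ ⟨true,0,⟨35,[(3,1),(2,4),(0,15),(15,6),(1,19),(6,4),(6,0)]⟩,⟨0,
  [(2,0)]⟩⟩,.o ⟨false,1,⟨1,[(26,1),(9,0),(5,0)]⟩,⟨2,[(6,0),(18,2),(2,0),(7,0)]⟩⟩,.a ⟨true,0,⟨0,[(26,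
  0)]⟩,⟨0,[(25,0)]⟩⟩ ⟨false,1,⟨1,[(23,0),(18,0)]⟩,⟨0,[(5,0),(20,0)]⟩⟩ ⟨true,0,⟨0,[(25,0),(14,0)]⟩,
  ⟨0,[(2,0)]⟩⟩]⟩) (.R ⟨1,false,false,true,[1,0,0,-1],[0,1],[0,1,0,-1,0,0,0,0,-1],(⟨0,[(25,0)]⟩,⟨0,
  [(26,0)]⟩),(⟨0,[(38,0)]⟩,⟨0,[(37,0)]⟩),⟨0,[(0,0)]⟩,.k,.k,(.x (-1) ⟨15,[(11,3),(3,3),(2,1),(4,6),
  (0,6),(11,0),(5,4)]⟩ ⟨0,[(38,0)]⟩),(.x (-1) ⟨15,[(11,3),(3,3),(2,1),(4,6),(0,6),(11,0),(5,4)]⟩ ⟨0,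
  [(38,0)]⟩),(.r (-1) ⟨0,[(3,0),(5,1),(35,0)]⟩ ⟨19,[(3,7),(4,7),(4,7),(9,0),(0,14)]⟩),.k,⟨false,1,
  ⟨0,[(3,0),(5,1),(35,0)]⟩,⟨21,[(2,11),(2,11),(4,12),(1,0),(0,4),(2,5),(4,4),(2,4)]⟩⟩,⟨true,0,⟨0,
  [(25,0)]⟩,⟨2,[(6,0),(19,2),(1,0),(7,0)]⟩⟩,⟨false,0,⟨0,[(41,0)]⟩,⟨5,[(10,1),(12,0),(0,0),(11,0),(6,
  2)]⟩⟩,⟨false,0,⟨4,[(5,0),(0,0),(0,1),(13,0),(2,0),(0,2),(0,0)]⟩,⟨7,[(1,1),(0,7),(5,1),(0,3),(13,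
  2),(18,2)]⟩⟩,⟨true,0,⟨0,[(45,0)]⟩,⟨0,[]⟩⟩,⟨false,0,⟨0,[(7,0)]⟩,⟨6,[(1,0),(0,6),(6,4),(4,0),(8,
  2)]⟩⟩,[.o ⟨false,0,⟨0,[(40,0)]⟩,⟨3,[(9,1),(18,1),(2,1),(4,0),(6,0)]⟩⟩,.e ⟨true,0,⟨0,[(3,0),(5,0),
  (31,0)]⟩,⟨2,[(2,0),(2,0),(0,0),(3,0),(10,0),(2,0)]⟩⟩ ⟨true,0,⟨35,[(3,1),(2,4),(0,15),(15,6),(1,
  19),(6,4),(6,0)]⟩,⟨0,[(2,0)]⟩⟩,.o ⟨false,1,⟨1,[(26,1),(9,0),(5,0)]⟩,⟨2,[(6,0),(18,2),(2,0),(7,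
  0)]⟩⟩,.a ⟨true,0,⟨0,[(26,0)]⟩,⟨0,[(25,0)]⟩⟩ ⟨false,1,⟨1,[(9,0),(13,0),(21,0)]⟩,⟨1,[(2,0),(2,1),(4,
  0),(15,0)]⟩⟩ ⟨true,0,⟨0,[(25,0),(14,0)]⟩,⟨0,[(2,0)]⟩⟩]⟩)) (.Q [0,0,0,0,0,0,1,1,0,1,-1] (.p false
  [0,0,1] [1] (⟨0,[(34,0)]⟩,⟨0,[(33,0)]⟩) .k 1 (⟨0,[]⟩,⟨0,[]⟩) .k .k) (.R ⟨1,false,false,false,[0,0,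
  0,1],[0,0,1],[1,1,0,0,0,0,0,0,1],(⟨0,[(26,0)]⟩,⟨0,[(25,0)]⟩),(⟨0,[(35,0)]⟩,⟨0,[(34,0)]⟩),⟨3,[(2,
  2),(7,0),(4,1),(10,0),(8,1)]⟩,.k,.k,(.r (-1) ⟨15,[(1,3),(7,3),(13,0),(0,6),(8,3)]⟩ ⟨4,[(3,0),(4,
  0),(4,0),(9,1)]⟩),.k,(.r (-1) ⟨15,[(1,3),(7,3),(13,0),(0,6),(8,19)]⟩ ⟨6,[(0,1),(2,4),(4,1),(0,3),
  (4,0),(3,1),(4,0),(5,1)]⟩),.k,⟨true,0,⟨6,[(1,6),(2,1),(5,0),(1,1),(0,6),(8,0),(10,2)]⟩,⟨2,[(0,0),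
  (2,2),(2,0),(2,3),(4,1),(3,0)]⟩⟩,⟨false,1,⟨3,[(2,2),(7,0),(11,1),(3,0),(15,3)]⟩,⟨0,[(25,0),(2,
  0)]⟩⟩,⟨false,0,⟨0,[]⟩,⟨3,[(23,0),(0,0),(18,1)]⟩⟩,⟨false,1,⟨33,[(0,10),(1,33),(0,15),(4,15),(0,40),
  (0,14),(5,6),(5,7),(0,8)]⟩,⟨0,[(5,0),(24,0)]⟩⟩,⟨true,0,⟨0,[(40,0)]⟩,⟨0,[(41,0)]⟩⟩,⟨false,1,⟨33,
  [(0,0),(1,33),(0,19),(4,19),(0,46),(0,22),(5,12),(5,9),(0,6)]⟩,⟨0,[(5,0),(24,0),(10,0)]⟩⟩,[.a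
  ⟨true,0,⟨0,[(0,0)]⟩,⟨0,[(9,0),(3,0),(7,0)]⟩⟩ ⟨true,0,⟨0,[(1,0),(2,0),(1,0),(14,0)]⟩,⟨4,[(3,2),(5,
  1),(13,0),(15,2),(1,1)]⟩⟩ ⟨false,1,⟨1,[(2,0),(6,1),(0,0),(5,1),(9,0)]⟩,⟨4,[(5,1),(3,0),(3,1),(4,
  0),(4,0),(1,2),(1,1),(2,0)]⟩⟩,.o ⟨false,1,⟨1,[(0,1),(35,0),(6,0)]⟩,⟨0,[(27,0)]⟩⟩,.o ⟨false,0,⟨2,
  [(6,0),(18,2),(2,0),(7,0)]⟩,⟨1,[(26,1),(9,0),(5,0)]⟩⟩,.o ⟨false,0,⟨15,[(5,11),(0,7),(11,3),(4,6),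
  (0,0),(0,3),(19,11)]⟩,⟨0,[(2,0),(1,0),(4,0),(6,0),(4,0)]⟩⟩]⟩) (.R ⟨1,false,false,false,[0,0,0,1],
  [0,1],[1,1,0,0,0,0,0,0,1],(⟨0,[(26,0)]⟩,⟨0,[(25,0)]⟩),(⟨0,[(38,0)]⟩,⟨0,[(37,0)]⟩),⟨3,[(2,2),(7,0),
  (4,1),(10,0),(8,1)]⟩,.k,.k,(.r (-1) ⟨15,[(1,3),(7,3),(13,0),(0,6),(8,3)]⟩ ⟨4,[(3,0),(4,0),(4,0),
  (9,1)]⟩),(.r (-1) ⟨15,[(1,3),(7,3),(13,0),(0,6),(8,3)]⟩ ⟨4,[(3,0),(4,0),(4,0),(9,1)]⟩),(.r (-1)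
  ⟨0,[(1,0),(17,0)]⟩ ⟨19,[(3,7),(4,7),(4,7),(9,10),(0,4)]⟩),.k,⟨false,1,⟨6,[(1,6),(2,1),(5,0),(1,1),
  (9,0),(10,2)]⟩,⟨4,[(3,2),(0,0),(3,0),(0,1),(13,0),(15,1)]⟩⟩,⟨true,1,⟨0,[(26,0),(15,0)]⟩,⟨0,[(6,0),
  (18,0),(2,0)]⟩⟩,⟨false,0,⟨0,[]⟩,⟨3,[(23,0),(0,0),(18,1)]⟩⟩,⟨false,1,⟨4,[(2,3),(0,0),(0,0),(3,0),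
  (0,3),(0,3),(12,1),(2,0)]⟩,⟨22,[(1,8),(3,17),(0,10),(11,0),(4,1),(1,4),(1,3),(2,4),(10,4)]⟩⟩,
  ⟨true,0,⟨0,[(40,0)]⟩,⟨0,[(41,0)]⟩⟩,⟨false,1,⟨13,[(2,13),(0,3),(0,3),(3,3),(0,9),(0,13),(12,4),(18,
  2)]⟩,⟨22,[(1,8),(3,17),(0,10),(11,0),(4,1),(1,4),(1,3),(2,4),(10,27)]⟩⟩,[.a ⟨true,0,⟨2,[(10,0),
  (14,1),(0,1)]⟩,⟨0,[(41,0)]⟩⟩ ⟨true,0,⟨1,[(0,0),(0,1),(4,0),(3,0),(2,0)]⟩,⟨4,[(3,2),(5,1),(13,0),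
  (15,2),(1,1)]⟩⟩ ⟨false,1,⟨1,[(2,0),(7,0),(15,0),(15,1)]⟩,⟨2,[(6,0),(18,2),(2,0),(7,0),(4,2)]⟩⟩,.o
  ⟨false,1,⟨5,[(10,1),(12,0),(0,0),(11,0),(6,2)]⟩,⟨0,[(0,0),(28,0),(11,0)]⟩⟩,.o ⟨false,0,⟨2,[(6,0),
  (18,2),(2,0),(7,0)]⟩,⟨1,[(26,1),(9,0),(5,0)]⟩⟩,.o ⟨false,0,⟨15,[(5,11),(0,7),(11,3),(4,6),(0,0),
  (0,3),(19,11)]⟩,⟨1,[(0,0),(1,1),(6,0),(0,0),(5,0),(25,0)]⟩⟩]⟩)))))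

theorem ok219 : chk (cU (-1) true 10) t219 r118 = true := by decide +kernel

end Helper11.CT.Tm1_34_m1_m1_u
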