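import Pool.Agent.Helper11.CT.T.Tm1_34_m1_m1_u_q

set_option autoImplicit false
set_option linter.all false

namespace Helper11.CT.Tm1_34_m1_m1_u

open Helper11.CT

noncomputable def t0 : Tre :=
  (.K ⟨1,[-1,1,1],0,0,(⟨0,[(1,0)]⟩,⟨0,[(15,0),(2,0)]⟩),.k,.k,(.r 0 ⟨4,[(0,2),(8,5),(0,1),(1,0),(7,
  2),(0,6)]⟩ ⟨0,[(14,0),(7,1),(0,0)]⟩),.k,.k,[⟨1,[(9,1),(2,0),(0,0)]⟩,⟨3,[(0,0),(2,1),(7,0),(10,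
  0)]⟩,⟨0,[(8,0),(13,0)]⟩,⟨0,[(0,0)]⟩]⟩)

theorem ok0 : chk (cU (-1) true 10) t0 l1 = true := by decide +kernel

noncomputable def t12 : Tre :=
  (.R ⟨2,true,false,false,[0,1],[1,1,-1],[0,1,1],(⟨0,[]⟩,⟨0,[]⟩),(⟨0,[(24,0),(3,0)]⟩,⟨0,[(1,0)]⟩),
  ⟨0,[]⟩,.k,.k,.k,.k,.k,.k,⟨true,0,⟨2,[(0,1),(7,1),(2,0),(7,0),(15,0)]⟩,⟨1,[(2,1),(0,0),(17,0),(7,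
  0)]⟩⟩,⟨false,1,⟨3,[(8,1),(2,1),(14,0),(5,1),(0,0)]⟩,⟨1,[(12,0),(2,0),(0,0)]⟩⟩,⟨false,0,⟨0,[(31,
  0)]⟩,⟨0,[(30,0),(2,0)]⟩⟩,⟨true,0,⟨0,[(6,0)]⟩,⟨1,[(0,0),(3,0),(30,0)]⟩⟩,⟨true,0,⟨0,[(35,0)]⟩,⟨0,
  []⟩⟩,⟨false,1,⟨1,[(2,1),(23,0),(6,0)]⟩,⟨0,[(0,0)]⟩⟩,[]⟩)

theorem ok12 : chk (cU (-1) true 10) t12 l12 = true := by decide +kernel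

noncomputable def t39 : Tre :=
  (.K ⟨2,[0,1,1],0,0,(⟨0,[(20,0),(2,0)]⟩,⟨0,[(5,0)]⟩),.k,.k,(.r 0 ⟨7,[(2,3),(13,2),(0,2),(6,5),(0,
  11)]⟩ ⟨0,[(18,0),(7,1),(0,0)]⟩),.k,(.x (-1) ⟨3,[(3,3),(4,0),(0,0),(10,7),(0,1),(1,3)]⟩ ⟨0,[(0,
  0)]⟩),[⟨1,[(16,0),(0,0)]⟩,⟨0,[(3,0)]⟩,⟨1,[(16,0),(0,2)]⟩,⟨0,[(3,0),(9,0)]⟩,⟨0,[(15,0),(10,0)]⟩,⟨0,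
  [(2,0),(0,0),(8,0)]⟩]⟩)

theorem ok39 : chk (cU (-1) true 10) t39 l23 = true := by decide +kernel

noncomputable def t54 : Tre :=
  (.Q [0,0,0,0,0,-1,0,0,0,0,1] (.ed false [1,-1,1] .k) (.Q [0,-1,0,-1,0,0,1,1,0,1,-1] (.p false [0,
  0,1] [1] (⟨0,[(24,0)]⟩,⟨0,[(23,0)]⟩) .k 1 (⟨0,[]⟩,⟨0,[]⟩) .k .k) (.R ⟨2,false,false,true,[0,1],[1,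
  1,-1],[1],(⟨0,[]⟩,⟨0,[]⟩),(⟨0,[(24,0),(3,0)]⟩,⟨0,[(1,0)]⟩),⟨0,[]⟩,.k,.k,.k,.k,.k,.k,⟨true,1,⟨15,
  [(3,11),(3,7),(5,0),(0,0),(18,1)]⟩,⟨0,[(2,0),(14,0)]⟩⟩,⟨false,1,⟨0,[(18,0),(13,0)]⟩,⟨21,[(0,1),(1,
  1),(2,3),(6,5),(0,0),(0,0),(5,1),(3,7),(2,3)]⟩⟩,⟨false,1,⟨7,[(3,3),(9,0),(0,0),(18,1)]⟩,⟨3,[(2,1),
  (8,1),(14,0),(6,0)]⟩⟩,⟨true,0,⟨0,[(17,0)]⟩,⟨7,[(0,4),(6,0),(0,0),(2,3),(0,1),(6,0)]⟩⟩,⟨false,1,⟨1,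
  [(32,0),(0,0)]⟩,⟨1,[(21,0),(0,0)]⟩⟩,⟨false,1,⟨1,[(9,0),(1,0),(8,0),(5,0),(3,0),(2,0)]⟩,⟨0,[(0,
  0)]⟩⟩,[.e ⟨true,0,⟨0,[]⟩,⟨1,[(21,0),(0,0)]⟩⟩ ⟨true,0,⟨6,[(2,2),(6,1),(1,3),(5,2),(0,0),(1,1),(5,
  2)]⟩,⟨0,[(0,0)]⟩⟩,.a ⟨true,0,⟨0,[(9,0),(1,0)]⟩,⟨0,[(0,0),(34,0)]⟩⟩ ⟨false,1,⟨1,[(32,0),(0,0)]⟩,⟨0,
  [(35,0)]⟩⟩ ⟨true,0,⟨0,[(9,0),(8,0),(11,0)]⟩,⟨0,[(0,0),(34,0)]⟩⟩,.o ⟨false,1,⟨3,[(13,0),(0,0),(17,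
  1)]⟩,⟨0,[(8,0),(9,1)]⟩⟩,.e ⟨false,1,⟨1,[(32,0),(0,0)]⟩,⟨1,[(21,0),(0,0)]⟩⟩ ⟨false,1,⟨1,[(9,0),(1,
  0),(8,0),(5,0),(3,0),(2,0)]⟩,⟨0,[(0,0)]⟩⟩]⟩) (.I [0,0,1,1,0,0,0,2] (.K ⟨2,[0,1,1],0,0,(⟨0,[(26,0),
  (2,0)]⟩,⟨0,[(11,0)]⟩),.k,.k,(.r 0 ⟨19,[(0,15),(0,11),(1,11),(10,2),(0,2),(18,5)]⟩ ⟨1,[(4,1),(8,0),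
  (4,0),(2,0)]⟩),.k,(.r 0 ⟨0,[(0,0)]⟩ ⟨15,[(4,7),(8,3),(0,2),(0,2),(5,7),(2,23),(2,1)]⟩),[⟨1,[(22,
  0),(0,0)]⟩,⟨0,[(9,0)]⟩,⟨1,[(22,0),(0,2)]⟩,⟨0,[(9,0),(9,0)]⟩,⟨0,[(21,0),(10,0)]⟩,⟨1,[(0,0),(0,0),
  (7,0),(10,0)]⟩]⟩) (.I [0,0,-2,0,1,2,-1] (.Q [0,0,-2,0,1,0,-1,0,0,0,1] (.p true [0,0,1] [] (⟨0,
  [(27,0)]⟩,⟨0,[(26,0)]⟩) .k 0 (⟨0,[]⟩,⟨0,[]⟩) .k .k) (.K ⟨0,[1,1,-1],1,0,(⟨0,[(27,0),(3,0)]⟩,⟨0,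
  [(4,0)]⟩),.k,.k,(.x (-1) ⟨0,[(1,0)]⟩ ⟨5,[(4,7),(4,1),(11,1),(2,8),(0,0)]⟩),.k,.k,[⟨0,[(5,0),(28,
  0)]⟩,⟨0,[(0,0)]⟩,⟨0,[(18,0),(0,0),(2,0),(11,0)]⟩,⟨0,[(3,0)]⟩]⟩) (.R ⟨0,false,false,true,[0,-1,1],
  [1,-1,-1],[0,1],(⟨0,[(4,0)]⟩,⟨0,[(27,0),(3,0)]⟩),(⟨0,[(13,0)]⟩,⟨0,[(28,0),(2,0)]⟩),⟨0,[(0,0),(0,
  0)]⟩,.k,.k,(.x 0 ⟨5,[(4,7),(4,1),(11,1),(2,8),(0,0)]⟩ ⟨0,[(1,0)]⟩),.k,.k,.k,⟨true,0,⟨19,[(3,3),(1,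
  3),(4,11),(5,0),(0,0),(18,1)]⟩,⟨3,[(2,1),(21,0),(0,0),(8,1)]⟩⟩,⟨false,1,⟨14,[(1,8),(1,7),(0,14),
  (1,5),(0,2),(2,3),(10,6),(10,0)]⟩,⟨0,[(15,0)]⟩⟩,⟨false,0,⟨7,[(3,3),(1,3),(10,0),(0,0),(8,3),(9,
  1)]⟩,⟨15,[(6,11),(3,7),(5,0),(0,0),(18,1)]⟩⟩,⟨true,0,⟨0,[(2,0),(11,0),(6,0)]⟩,⟨0,[(10,0),(0,0),
  (22,0)]⟩⟩,⟨false,0,⟨0,[]⟩,⟨0,[]⟩⟩,⟨false,0,⟨0,[]⟩,⟨0,[]⟩⟩,[.o ⟨false,0,⟨0,[(20,0),(13,0)]⟩,⟨3,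
  [(10,1),(0,1),(17,0),(3,1),(2,2)]⟩⟩,.a ⟨true,0,⟨1,[(2,0),(4,0),(20,1),(2,0),(2,0)]⟩,⟨19,[(1,1),(3,
  1),(2,0),(1,9),(0,12),(2,7),(15,4),(1,3)]⟩⟩ ⟨false,1,⟨3,[(16,0),(0,0),(17,1)]⟩,⟨0,[]⟩⟩ ⟨true,1,
  ⟨42,[(1,8),(1,14),(0,14),(1,28),(0,2),(13,27),(1,27),(8,1),(3,4)]⟩,⟨1,[(0,0),(4,0),(4,0),(0,0)]⟩⟩,
  .o ⟨false,0,⟨0,[(24,0)]⟩,⟨0,[(21,0),(13,0)]⟩⟩,.o ⟨false,(-1),⟨0,[(0,0)]⟩,⟨7,[(6,3),(7,7),(1,0),(0,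
  0),(11,3),(5,3),(0,1)]⟩⟩]⟩)) (.I [0,0,0,0,0,0,0,0,1] (.I [0,0,1,1,0,0,0,0,-1] (.Q [0,0,0,1,0,0,0,
  0,0,0,0,1] (.p true [0,0,0,1] [] (⟨0,[(20,0)]⟩,⟨0,[(19,0)]⟩) .k 0 (⟨0,[]⟩,⟨0,[]⟩) .k .k) (.I [0,
  -1,0,-1,0,0,0,0,1] (.Q [0,0,0,0,0,-1,0,0,0,1,0,-1] (.ed true [0,1,0,1] .k) (.R ⟨1,false,false,
  false,[1,0,0,-1],[1,-1],[0,0,0,-1,0,0,0,0,-1],(⟨0,[(22,0)]⟩,⟨0,[(23,0)]⟩),(⟨0,[(34,0)]⟩,⟨0,[(35,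
  0)]⟩),⟨0,[(0,0)]⟩,.k,.k,(.x (-1) ⟨11,[(8,3),(4,3),(6,4),(0,4),(11,1)]⟩ ⟨0,[(35,0)]⟩),(.r 0 ⟨0,[(3,
  0)]⟩ ⟨1,[(10,0),(10,0),(20,0)]⟩),.k,.k,⟨true,0,⟨0,[(3,0),(34,0)]⟩,⟨0,[(4,0)]⟩⟩,⟨false,0,⟨0,[(15,
  0),(6,0),(2,1)]⟩,⟨0,[(23,0),(15,0)]⟩⟩,⟨true,0,⟨0,[(38,0)]⟩,⟨0,[(37,0)]⟩⟩,⟨false,0,⟨0,[(1,0),(13,
  0),(6,0),(2,1)]⟩,⟨1,[(2,1),(17,0),(18,0)]⟩⟩,⟨false,1,⟨3,[(20,0),(0,0),(18,1)]⟩,⟨0,[]⟩⟩,⟨false,0,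
  ⟨0,[(1,0),(5,0),(14,0),(3,0),(9,0)]⟩,⟨1,[(20,0),(2,1),(15,0)]⟩⟩,[.a ⟨true,0,⟨0,[(38,0)]⟩,⟨0,[(2,
  0),(19,0)]⟩⟩ ⟨false,1,⟨1,[(10,0),(9,0),(21,0)]⟩,⟨1,[(1,0),(2,0),(2,0),(6,0),(0,0),(0,0),(1,0)]⟩⟩
  ⟨true,0,⟨1,[(6,0),(15,1),(2,1),(0,1),(9,0),(1,0)]⟩,⟨0,[(2,0)]⟩⟩,.o ⟨false,1,⟨3,[(10,1),(14,1),(2,
  1),(4,0),(6,0)]⟩,⟨0,[(37,0)]⟩⟩,.o ⟨false,1,⟨1,[(23,1),(9,0),(5,0)]⟩,⟨0,[(15,0),(6,0),(2,1)]⟩⟩,.e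
  ⟨false,1,⟨0,[(3,0),(6,0)]⟩,⟨18,[(2,0),(1,6),(2,7),(1,5),(4,3),(0,0),(5,5),(0,0),(13,3)]⟩⟩ ⟨false,
  1,⟨3,[(10,1),(11,3),(2,1),(2,1),(4,0),(6,0)]⟩,⟨0,[(2,0)]⟩⟩]⟩) (.R ⟨0,false,false,false,[1,0,0,-1],
  [1,-1],[1,0,0,-1,0,0,0,0,-1],(⟨0,[(22,0)]⟩,⟨0,[(23,0)]⟩),(⟨0,[(34,0)]⟩,⟨0,[(35,0)]⟩),⟨0,[(0,0)]⟩,
  .k,.k,(.x (-1) ⟨11,[(8,3),(4,3),(6,4),(0,4),(11,1)]⟩ ⟨0,[(35,0)]⟩),(.r 0 ⟨0,[(3,0)]⟩ ⟨1,[(10,0),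
  (10,0),(20,0)]⟩),.k,.k,⟨true,0,⟨0,[(3,0),(34,0)]⟩,⟨0,[(4,0)]⟩⟩,⟨false,0,⟨0,[(15,0),(6,0),(2,1)]⟩,
  ⟨0,[(23,0),(15,0)]⟩⟩,⟨true,0,⟨0,[(38,0)]⟩,⟨0,[(37,0)]⟩⟩,⟨false,0,⟨0,[(1,0),(13,0),(6,0),(2,1)]⟩,
  ⟨1,[(2,1),(17,0),(18,0)]⟩⟩,⟨false,0,⟨0,[]⟩,⟨0,[]⟩⟩,⟨false,0,⟨0,[]⟩,⟨0,[]⟩⟩,[.a ⟨true,0,⟨0,[(38,
  0)]⟩,⟨0,[(2,0),(19,0)]⟩⟩ ⟨false,1,⟨1,[(10,0),(9,0),(21,0)]⟩,⟨1,[(1,0),(2,0),(2,0),(6,0),(0,0),(0,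
  0),(1,0)]⟩⟩ ⟨true,0,⟨1,[(6,0),(15,1),(2,1),(0,1),(9,0),(1,0)]⟩,⟨0,[(2,0)]⟩⟩,.o ⟨false,1,⟨3,[(10,
  1),(14,1),(2,1),(4,0),(6,0)]⟩,⟨0,[(37,0)]⟩⟩,.o ⟨false,1,⟨1,[(23,1),(9,0),(5,0)]⟩,⟨0,[(15,0),(6,0),
  (2,1)]⟩⟩,.e ⟨false,1,⟨0,[(3,0),(6,0)]⟩,⟨18,[(2,0),(1,6),(2,7),(1,5),(4,3),(0,0),(5,5),(0,0),(13,
  3)]⟩⟩ ⟨false,1,⟨3,[(10,1),(11,3),(2,1),(2,1),(4,0),(6,0)]⟩,⟨0,[(2,0)]⟩⟩]⟩)) (.Q [0,0,0,0,0,-1,0,0,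
  0,1,0,-1] (.ed true [0,1,0,1] .k) (.Q [0,-1,1,-1,0,0,0,0,1,0,0,-1] (.p false [0,0,0,1] [] (⟨0,
  [(23,0)]⟩,⟨0,[(22,0)]⟩) .k 0 (⟨0,[]⟩,⟨0,[]⟩) .k .k) (.Q [0,-1,1,0,0,0,0,0,1,0,0,-1] (.p false [0,
  0,0,1] [] (⟨0,[(24,0)]⟩,⟨0,[(23,0)]⟩) .k 0 (⟨0,[]⟩,⟨0,[]⟩) .k .k) (.R ⟨1,false,false,false,[1,0,0,
  -1],[1,-1],[1,0,0,0,0,0,0,0,-1],(⟨0,[(24,0)]⟩,⟨0,[(25,0)]⟩),(⟨0,[(36,0)]⟩,⟨0,[(37,0)]⟩),⟨0,[(2,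
  0)]⟩,.k,.k,(.x (-1) ⟨11,[(10,3),(4,3),(6,4),(0,4),(11,1)]⟩ ⟨0,[(37,0)]⟩),(.r 0 ⟨0,[(5,0)]⟩ ⟨1,
  [(12,0),(10,0),(20,0)]⟩),.k,.k,⟨true,0,⟨0,[(5,0)]⟩,⟨0,[(6,0),(33,0)]⟩⟩,⟨false,0,⟨0,[(1,0),(1,0)]⟩,
  ⟨0,[(25,0),(15,0)]⟩⟩,⟨true,0,⟨0,[]⟩,⟨0,[(44,0)]⟩⟩,⟨false,0,⟨0,[(1,0)]⟩,⟨1,[(4,1),(17,0),(18,0)]⟩⟩,
  ⟨false,1,⟨0,[(39,0),(2,0)]⟩,⟨0,[(40,0)]⟩⟩,⟨false,0,⟨0,[(0,0)]⟩,⟨1,[(22,0),(2,1),(15,0)]⟩⟩,[.a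
  ⟨true,0,⟨0,[(40,0)]⟩,⟨0,[(4,0),(19,0)]⟩⟩ ⟨false,1,⟨1,[(22,0),(18,0)]⟩,⟨0,[(6,0)]⟩⟩ ⟨true,0,⟨0,[(1,
  0),(1,0),(36,0)]⟩,⟨0,[(4,0)]⟩⟩,.o ⟨false,1,⟨3,[(12,1),(14,1),(2,1),(4,0),(6,0)]⟩,⟨0,[(39,0)]⟩⟩,.o
  ⟨false,1,⟨1,[(25,1),(9,0),(5,0)]⟩,⟨0,[(1,0),(1,0)]⟩⟩,.e ⟨false,1,⟨5,[(3,3),(8,1),(9,0),(15,3),(2,
  2)]⟩,⟨2,[(6,0),(4,0),(11,0),(3,0),(12,0)]⟩⟩ ⟨false,1,⟨11,[(0,3),(0,3),(10,3),(9,4),(0,0),(0,3),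
  (10,1)]⟩,⟨0,[(4,0)]⟩⟩]⟩) (.R ⟨2,true,false,false,[0,1],[0,0,0,1],[1,0,1,1],(⟨0,[]⟩,⟨0,[]⟩),(⟨0,
  [(25,0)]⟩,⟨0,[(24,0)]⟩),⟨0,[]⟩,.k,.k,.k,(.r 0 ⟨0,[(5,0)]⟩ ⟨1,[(12,0),(10,0),(20,0)]⟩),.k,.k,⟨true,
  0,⟨0,[(5,0)]⟩,⟨0,[(6,0),(33,0)]⟩⟩,⟨false,0,⟨0,[(1,0),(1,0)]⟩,⟨5,[(0,1),(3,3),(7,1),(10,0),(17,
  2)]⟩⟩,⟨true,0,⟨0,[]⟩,⟨0,[(44,0)]⟩⟩,⟨false,0,⟨0,[(1,0)]⟩,⟨1,[(4,1),(17,0),(18,0)]⟩⟩,⟨false,1,⟨0,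
  [(39,0),(2,0)]⟩,⟨0,[(40,0)]⟩⟩,⟨true,0,⟨0,[(1,0),(37,0)]⟩,⟨0,[(0,0)]⟩⟩,[]⟩)) (.K ⟨0,[0,0,0,1],0,0,
  (⟨0,[(24,0)]⟩,⟨0,[(23,0)]⟩),.k,(.r (-1) ⟨1,[(11,0),(10,0),(20,0)]⟩ ⟨0,[(4,0)]⟩),(.x 0 ⟨0,[(36,
  0)]⟩ ⟨11,[(9,3),(4,3),(6,4),(0,4),(11,1)]⟩),.k,.k,[⟨0,[(24,0)]⟩,⟨0,[(23,0)]⟩,⟨0,[(0,0),(38,0)]⟩,
  ⟨1,[(5,1),(17,1),(1,0),(0,0),(0,0),(1,0)]⟩]⟩)) (.R ⟨0,false,false,false,[1,0,0,-1],[0,0,1],[],(⟨0,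
  [(22,0)]⟩,⟨0,[(23,0)]⟩),(⟨0,[(32,0)]⟩,⟨0,[(31,0)]⟩),⟨0,[(0,0)]⟩,.k,.k,(.x (-1) ⟨11,[(8,3),(4,3),
  (6,4),(0,4),(11,1)]⟩ ⟨0,[(35,0)]⟩),.k,.k,.k,⟨true,0,⟨0,[(30,0)]⟩,⟨3,[(14,1),(13,0),(0,0),(8,1)]⟩⟩,
  ⟨false,0,⟨0,[(15,0),(6,0),(2,0)]⟩,⟨2,[(2,1),(7,1),(7,1),(4,0),(1,0),(7,0)]⟩⟩,⟨true,0,⟨0,[(4,0)]⟩,
  ⟨0,[(1,0),(36,0)]⟩⟩,⟨false,0,⟨0,[(4,0),(17,0),(3,0),(9,0)]⟩,⟨18,[(0,7),(0,0),(0,10),(3,2),(0,10),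
  (0,3),(1,9),(0,3),(4,1),(3,8),(11,3)]⟩⟩,⟨false,0,⟨0,[]⟩,⟨0,[]⟩⟩,⟨false,0,⟨0,[]⟩,⟨0,[]⟩⟩,[.a ⟨true,
  0,⟨3,[(12,0),(1,1),(0,0),(15,1),(2,0),(3,1)]⟩,⟨3,[(6,1),(4,0),(6,1),(13,1),(2,0),(0,0)]⟩⟩ ⟨false,
  1,⟨3,[(20,0),(0,0),(17,1)]⟩,⟨0,[]⟩⟩ ⟨true,0,⟨3,[(14,0),(7,3),(3,1),(1,1),(7,0),(1,0)]⟩,⟨2,[(0,2),
  (5,0),(1,1),(2,0),(4,0),(1,0)]⟩⟩,.o ⟨false,1,⟨0,[(26,0),(13,0)]⟩,⟨0,[(24,0)]⟩⟩,.o ⟨false,1,⟨1,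
  [(23,1),(9,0),(5,0)]⟩,⟨0,[(15,0),(6,0),(2,1)]⟩⟩,.e ⟨false,1,⟨1,[(39,0),(0,0)]⟩,⟨1,[(28,0),(0,
  0)]⟩⟩ ⟨false,1,⟨0,[(22,0),(3,0),(13,0)]⟩,⟨2,[(0,2),(5,0),(1,1),(2,0),(4,0),(1,0)]⟩⟩]⟩))) (.I [0,
  -1,0,-1,0,0,0,0,1] (.R ⟨1,false,false,false,[1,0,0,-1],[1,-1],[0,0,0,-1,0,0,0,0,-1],(⟨0,[(21,0)]⟩,
  ⟨0,[(22,0)]⟩),(⟨0,[(33,0)]⟩,⟨0,[(34,0)]⟩),⟨5,[(1,2),(5,0),(3,0),(0,2),(0,0),(1,1),(1,1),(3,2)]⟩,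
  .k,.k,(.x (-1) ⟨11,[(7,3),(4,3),(6,4),(0,4),(11,1)]⟩ ⟨0,[(34,0)]⟩),(.r 0 ⟨0,[(2,0)]⟩ ⟨1,[(9,0),
  (10,0),(20,0)]⟩),.k,.k,⟨true,0,⟨0,[(2,0),(34,0)]⟩,⟨0,[(3,0)]⟩⟩,⟨false,0,⟨2,[(1,0),(6,0),(12,1),(2,
  0),(7,0)]⟩,⟨0,[(22,0),(15,0)]⟩⟩,⟨true,0,⟨0,[(37,0)]⟩,⟨0,[(36,0)]⟩⟩,⟨false,0,⟨4,[(0,0),(0,4),(1,1),
  (4,0),(11,0),(3,0),(10,1)]⟩,⟨0,[(2,0),(19,0),(15,0)]⟩⟩,⟨false,1,⟨3,[(19,0),(0,0),(18,1)]⟩,⟨0,[]⟩⟩,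
  ⟨false,0,⟨29,[(1,18),(1,29),(2,9),(1,3),(4,4),(0,2),(6,10),(10,3),(2,19)]⟩,⟨1,[(19,0),(2,1),(15,
  0)]⟩⟩,[.e ⟨false,1,⟨1,[(9,0),(9,0),(21,0)]⟩,⟨1,[(0,0),(2,0),(2,0),(6,0),(0,0),(0,0),(1,0)]⟩⟩
  ⟨false,0,⟨0,[(1,0)]⟩,⟨1,[(22,1),(13,1),(1,0),(0,0)]⟩⟩,.o ⟨false,1,⟨3,[(9,1),(14,1),(2,1),(4,0),(6,
  0)]⟩,⟨0,[(36,0)]⟩⟩,.o ⟨false,1,⟨1,[(22,1),(9,0),(5,0)]⟩,⟨2,[(1,0),(6,0),(12,1),(2,0),(7,0)]⟩⟩,.a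
  ⟨true,0,⟨0,[(22,0)]⟩,⟨0,[(21,0)]⟩⟩ ⟨false,1,⟨0,[(2,0),(6,0)]⟩,⟨6,[(3,2),(2,1),(1,1),(4,0),(6,1),
  (14,1),(0,1)]⟩⟩ ⟨true,0,⟨0,[(1,0)]⟩,⟨0,[(22,0),(13,0)]⟩⟩]⟩) (.R ⟨1,false,false,false,[1,0,0,-1],
  [1,-1],[1,0,0,0,0,0,0,0,-1],(⟨0,[(21,0)]⟩,⟨0,[(22,0)]⟩),(⟨0,[(33,0)]⟩,⟨0,[(34,0)]⟩),⟨5,[(1,2),(5,
  0),(3,0),(0,2),(0,0),(1,1),(1,1),(3,2)]⟩,.k,.k,(.x (-1) ⟨11,[(7,3),(4,3),(6,4),(0,4),(11,1)]⟩ ⟨0,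
  [(34,0)]⟩),(.r 0 ⟨0,[(2,0)]⟩ ⟨1,[(9,0),(10,0),(20,0)]⟩),.k,.k,⟨true,0,⟨0,[(2,0)]⟩,⟨0,[(3,0),(33,
  0)]⟩⟩,⟨false,0,⟨2,[(1,0),(6,0),(12,1),(2,0),(7,0)]⟩,⟨0,[(22,0),(15,0)]⟩⟩,⟨true,0,⟨0,[]⟩,⟨0,[(41,
  0)]⟩⟩,⟨false,0,⟨5,[(1,5),(1,3),(4,0),(11,0),(3,0),(10,2),(1,0)]⟩,⟨1,[(0,1),(21,1),(15,0),(0,0)]⟩⟩,
  ⟨false,1,⟨0,[(36,0),(2,0)]⟩,⟨0,[(37,0)]⟩⟩,⟨false,0,⟨29,[(1,18),(1,29),(2,9),(1,3),(4,4),(0,2),(6,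
  10),(10,3),(2,19)]⟩,⟨1,[(19,0),(2,1),(15,0)]⟩⟩,[.e ⟨false,1,⟨1,[(19,0),(18,0)]⟩,⟨0,[(3,0)]⟩⟩
  ⟨false,0,⟨0,[(1,0)]⟩,⟨1,[(22,1),(13,1),(1,0),(0,0)]⟩⟩,.o ⟨false,1,⟨3,[(9,1),(14,1),(2,1),(4,0),(6,
  0)]⟩,⟨0,[(36,0)]⟩⟩,.o ⟨false,1,⟨1,[(22,1),(9,0),(5,0)]⟩,⟨2,[(1,0),(6,0),(12,1),(2,0),(7,0)]⟩⟩,.a
  ⟨true,0,⟨0,[(22,0)]⟩,⟨0,[(21,0)]⟩⟩ ⟨false,1,⟨5,[(0,3),(8,1),(9,0),(15,3),(2,2)]⟩,⟨2,[(3,0),(4,0),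
  (11,0),(3,0),(12,0)]⟩⟩ ⟨true,0,⟨0,[(1,0)]⟩,⟨0,[(22,0),(13,0)]⟩⟩]⟩))) (.Q [0,0,2,0,-1,0,0,0,0,1,0,
  -1] (.p false [0,0,0,1] [1] (⟨0,[(20,0)]⟩,⟨0,[(19,0)]⟩) .k 1 (⟨0,[]⟩,⟨0,[]⟩) .k .k) (.Q [0,1,1,0,
  -1,0,0,0,1,0,0,-1] (.p false [0,0,0,1] [] (⟨0,[(21,0)]⟩,⟨0,[(20,0)]⟩) .k 0 (⟨0,[]⟩,⟨0,[]⟩) .k .k)
  (.K ⟨0,[0,0,0,1],0,(-1),(⟨0,[(22,0)]⟩,⟨0,[(21,0)]⟩),.k,(.x 0 ⟨9,[(4,3),(5,1),(8,1),(0,1),(6,4),(0,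
  4)]⟩ ⟨0,[(34,0),(3,0)]⟩),(.x 0 ⟨0,[(34,0)]⟩ ⟨11,[(7,3),(4,3),(6,4),(0,4),(11,1)]⟩),.k,.k,[⟨0,[(22,
  0)]⟩,⟨0,[(21,0)]⟩,⟨1,[(19,0),(2,1),(15,0),(2,1)]⟩,⟨0,[(0,0)]⟩]⟩) (.K ⟨1,[1,0,0,-1],1,1,(⟨0,[(21,
  0)]⟩,⟨0,[(22,0)]⟩),.k,(.x (-1) ⟨11,[(7,3),(4,3),(6,4),(0,4),(11,1)]⟩ ⟨0,[(34,0)]⟩),(.x (-1) ⟨0,
  [(34,0),(3,0)]⟩ ⟨9,[(4,3),(5,1),(8,1),(0,1),(6,4),(0,4)]⟩),.k,.k,[⟨0,[(1,0)]⟩,⟨3,[(19,0),(0,0),(1,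
  3),(9,1)]⟩,⟨0,[(1,0),(0,0),(33,0)]⟩,⟨0,[(0,0)]⟩]⟩)) (.Q [0,0,0,0,0,1,0,0,0,-1,0,1] (.ed false [0,
  1,0,1] .k) (.R ⟨0,false,false,false,[1,0,0,-1],[1,-1],[0,1,0,0,0,0,0,0,-1],(⟨0,[(21,0)]⟩,⟨0,[(22,
  0)]⟩),(⟨0,[(33,0)]⟩,⟨0,[(34,0)]⟩),⟨0,[(0,0)]⟩,.k,.k,(.x (-1) ⟨11,[(7,3),(4,3),(6,4),(0,4),(11,
  1)]⟩ ⟨0,[(34,0)]⟩),(.x (-1) ⟨0,[(34,0),(3,0)]⟩ ⟨9,[(4,3),(5,1),(8,1),(0,1),(6,4),(0,4)]⟩),.k,.k,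
  ⟨true,0,⟨7,[(4,3),(1,2),(3,1),(2,0),(0,2),(2,3),(1,3),(5,0),(8,9)]⟩,⟨9,[(2,7),(5,0),(11,0),(3,0),
  (10,4),(1,2)]⟩⟩,⟨false,0,⟨0,[(14,0),(6,0),(2,1)]⟩,⟨0,[(22,0),(15,0)]⟩⟩,⟨true,0,⟨0,[(41,0)]⟩,⟨0,
  []⟩⟩,⟨false,0,⟨1,[(2,1),(5,0),(12,1),(2,0),(7,0),(2,0),(1,0)]⟩,⟨1,[(1,0),(12,0),(2,1),(1,0),(2,0),
  (12,0)]⟩⟩,⟨false,0,⟨0,[]⟩,⟨0,[]⟩⟩,⟨false,0,⟨0,[]⟩,⟨0,[]⟩⟩,[.a ⟨true,0,⟨0,[(37,0)]⟩,⟨3,[(11,0),(2,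
  0),(2,3),(12,1),(2,0),(1,1)]⟩⟩ ⟨false,1,⟨1,[(19,0),(18,0),(2,1)]⟩,⟨1,[(2,0),(0,0),(9,0),(1,1)]⟩⟩
  ⟨true,0,⟨1,[(5,0),(15,1),(2,1),(0,1),(9,0),(1,0)]⟩,⟨5,[(0,2),(10,0),(0,1),(0,1),(0,0),(0,3),(1,3),
  (4,2)]⟩⟩,.o ⟨false,1,⟨3,[(9,1),(14,1),(2,1),(4,0),(6,0)]⟩,⟨0,[(36,0)]⟩⟩,.o ⟨false,1,⟨7,[(1,3),(17,
  0),(0,0),(1,3),(9,1)]⟩,⟨0,[(14,0),(6,0),(2,1)]⟩⟩,.e ⟨false,1,⟨1,[(19,0),(18,0)]⟩,⟨3,[(2,0),(0,0),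
  (4,0),(11,0),(3,0),(10,1)]⟩⟩ ⟨false,1,⟨3,[(9,1),(11,3),(2,1),(2,1),(4,0),(6,0)]⟩,⟨5,[(0,2),(10,0),
  (0,1),(0,1),(0,0),(0,3),(1,3),(4,2)]⟩⟩]⟩) (.Q [0,0,0,1,0,0,0,0,0,0,0,1] (.p true [0,0,0,1] [] (⟨0,
  [(22,0)]⟩,⟨0,[(21,0)]⟩) .k 0 (⟨0,[]⟩,⟨0,[]⟩) .k .k) (.R ⟨1,false,false,false,[1,0,0,-1],[1,-1],[1,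
  1,0,0,0,0,0,0,-1],(⟨0,[(22,0)]⟩,⟨0,[(23,0)]⟩),(⟨0,[(34,0)]⟩,⟨0,[(35,0)]⟩),⟨0,[(1,0)]⟩,.k,.k,(.x
  (-1) ⟨11,[(8,3),(4,3),(6,4),(0,4),(11,1)]⟩ ⟨0,[(35,0)]⟩),(.x (-1) ⟨0,[(35,0),(3,0)]⟩ ⟨9,[(5,3),(5,
  1),(8,1),(0,1),(6,4),(0,4)]⟩),.k,.k,⟨true,0,⟨7,[(5,3),(1,2),(3,1),(2,0),(0,2),(2,3),(1,3),(5,0),
  (8,9)]⟩,⟨9,[(3,7),(5,0),(11,0),(3,0),(10,4),(1,2)]⟩⟩,⟨false,0,⟨0,[(15,0),(6,0),(2,1)]⟩,⟨0,[(23,0),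
  (15,0)]⟩⟩,⟨false,0,⟨0,[]⟩,⟨3,[(20,0),(0,0),(18,1)]⟩⟩,⟨false,0,⟨1,[(3,1),(5,0),(12,1),(2,0),(7,0),
  (2,0),(1,0)]⟩,⟨1,[(0,1),(19,0),(18,0)]⟩⟩,⟨true,0,⟨0,[(37,0)]⟩,⟨0,[(38,0)]⟩⟩,⟨false,0,⟨5,[(3,5),(3,
  1),(1,2),(4,0),(7,5),(2,0),(7,2),(2,3)]⟩,⟨1,[(20,0),(2,1),(15,0)]⟩⟩,[.a ⟨true,0,⟨0,[(38,0)]⟩,⟨0,
  [(0,0),(21,0)]⟩⟩ ⟨false,1,⟨1,[(20,0),(18,0),(2,1)]⟩,⟨1,[(3,0),(0,0),(9,0),(1,1)]⟩⟩ ⟨true,0,⟨1,[(6,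
  0),(15,1),(2,1),(0,1),(9,0),(1,0)]⟩,⟨0,[(0,0)]⟩⟩,.o ⟨false,1,⟨3,[(10,1),(14,1),(2,1),(4,0),(6,
  0)]⟩,⟨0,[(37,0)]⟩⟩,.o ⟨false,1,⟨7,[(2,3),(17,0),(0,0),(1,3),(9,1)]⟩,⟨0,[(15,0),(6,0),(2,1)]⟩⟩,.e
  ⟨false,1,⟨1,[(20,0),(18,0)]⟩,⟨3,[(3,0),(0,0),(4,0),(11,0),(3,0),(10,1)]⟩⟩ ⟨false,1,⟨3,[(10,1),(11,
  3),(2,1),(2,1),(4,0),(6,0)]⟩,⟨0,[(0,0)]⟩⟩]⟩) (.R ⟨1,false,false,false,[1,0,0,-1],[1,-1],[1,1,0,0,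
  0,0,0,0,-1],(⟨0,[(22,0)]⟩,⟨0,[(23,0)]⟩),(⟨0,[(34,0)]⟩,⟨0,[(35,0)]⟩),⟨0,[(1,0)]⟩,.k,.k,(.x (-1)
  ⟨11,[(8,3),(4,3),(6,4),(0,4),(11,1)]⟩ ⟨0,[(35,0)]⟩),(.x (-1) ⟨0,[(35,0),(3,0)]⟩ ⟨9,[(5,3),(5,1),
  (8,1),(0,1),(6,4),(0,4)]⟩),.k,.k,⟨true,0,⟨7,[(5,3),(1,2),(3,1),(2,0),(0,2),(2,3),(1,3),(5,0),(8,
  9)]⟩,⟨9,[(3,7),(5,0),(11,0),(3,0),(10,4),(1,2)]⟩⟩,⟨false,0,⟨2,[(0,0),(8,0),(12,1),(2,0),(7,0)]⟩,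
  ⟨0,[(23,0),(15,0)]⟩⟩,⟨false,0,⟨0,[]⟩,⟨3,[(20,0),(0,0),(18,1)]⟩⟩,⟨false,0,⟨3,[(0,3),(2,0),(0,0),(4,
  0),(11,0),(3,0),(10,1)]⟩,⟨1,[(2,0),(12,0),(2,1),(1,0),(2,0),(12,0)]⟩⟩,⟨true,0,⟨0,[(37,0)]⟩,⟨0,
  [(38,0)]⟩⟩,⟨false,0,⟨29,[(0,18),(3,29),(2,9),(1,3),(4,4),(0,2),(6,10),(10,3),(2,19)]⟩,⟨1,[(20,0),
  (2,1),(15,0)]⟩⟩,[.e ⟨false,1,⟨1,[(20,0),(18,0),(2,1)]⟩,⟨1,[(3,0),(0,0),(9,0),(1,1)]⟩⟩ ⟨false,0,⟨0,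
  [(0,0)]⟩,⟨11,[(2,3),(12,3),(2,7),(1,0),(0,0),(1,7),(13,3),(2,5)]⟩⟩,.o ⟨false,1,⟨3,[(10,1),(14,1),
  (2,1),(4,0),(6,0)]⟩,⟨0,[(37,0)]⟩⟩,.o ⟨false,1,⟨7,[(2,3),(17,0),(0,0),(1,3),(9,1)]⟩,⟨2,[(0,0),(8,
  0),(12,1),(2,0),(7,0)]⟩⟩,.a ⟨true,0,⟨0,[(23,0)]⟩,⟨0,[(22,0)]⟩⟩ ⟨false,1,⟨1,[(20,0),(18,0)]⟩,⟨3,
  [(3,0),(0,0),(4,0),(11,0),(3,0),(10,1)]⟩⟩ ⟨true,0,⟨0,[(0,0)]⟩,⟨0,[(23,0),(13,0)]⟩⟩]⟩))))) (.Q [0,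
  0,0,0,0,0,0,0,-1,-1,0,1] (.p true [0,0,0,1] [1] (⟨0,[(19,0)]⟩,⟨0,[(18,0)]⟩) .k 1 (⟨0,[]⟩,⟨0,[]⟩)
  .k .k) (.Q [0,1,1,0,0,0,0,0,1,0,0,-1] (.p false [0,0,0,1] [] (⟨0,[(20,0)]⟩,⟨0,[(19,0)]⟩) .k 0 (⟨0,
  []⟩,⟨0,[]⟩) .k .k) (.Q [0,1,-1,0,0,0,0,0,-1,0,0,1] (.p true [0,0,0,1] [] (⟨0,[(21,0)]⟩,⟨0,[(20,
  0)]⟩) .k 0 (⟨0,[]⟩,⟨0,[]⟩) .k .k) (.K ⟨0,[0,0,0,1],0,0,(⟨0,[(22,0)]⟩,⟨0,[(21,0)]⟩),.k,(.r (-1) ⟨1,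
  [(9,0),(10,0),(20,0)]⟩ ⟨6,[(3,2),(2,1),(1,1),(4,0),(5,1),(15,1),(0,1)]⟩),(.x 0 ⟨0,[(34,0)]⟩ ⟨11,
  [(7,3),(4,3),(6,4),(0,4),(11,1)]⟩),.k,.k,[⟨0,[(22,0)]⟩,⟨0,[(21,0)]⟩,⟨0,[(0,0)]⟩,⟨0,[(1,0)]⟩]⟩)
  (.Q [0,0,0,0,0,0,1,1,0,1,-1,-1] (.p false [0,0,1] [1,0,0,-1] (⟨0,[(31,0)]⟩,⟨0,[(30,0)]⟩) .k 2 (⟨0,
  [(21,0)]⟩,⟨0,[(22,0)]⟩) .k (.r (-1) ⟨7,[(9,1),(3,3),(5,0),(0,4),(20,1)]⟩ ⟨5,[(3,3),(1,1),(0,0),(1,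
  0),(6,0),(3,0)]⟩)) (.R ⟨1,false,false,true,[1,0,0,-1],[0,1],[1,1,0,0,0,0,0,0,-1],(⟨0,[(22,0)]⟩,⟨0,
  [(23,0)]⟩),(⟨0,[(35,0)]⟩,⟨0,[(34,0)]⟩),⟨2,[(0,2),(5,0),(1,1),(2,0),(4,0),(1,0)]⟩,.k,.k,(.x (-1)
  ⟨11,[(8,3),(4,3),(6,4),(0,4),(11,1)]⟩ ⟨0,[(35,0)]⟩),(.x (-1) ⟨11,[(8,3),(4,3),(6,4),(0,4),(11,
  1)]⟩ ⟨0,[(35,0)]⟩),(.r (-1) ⟨0,[(4,0),(5,0),(31,0)]⟩ ⟨5,[(7,3),(1,3),(4,1),(6,2),(14,1),(0,1),(2,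
  0)]⟩),.k,⟨false,1,⟨1,[(4,1),(5,0),(28,0),(2,0)]⟩,⟨4,[(1,2),(5,1),(1,0),(4,0),(0,0),(2,0),(2,0),(1,
  2)]⟩⟩,⟨true,0,⟨0,[(22,0)]⟩,⟨1,[(1,0),(0,0),(0,1),(19,1)]⟩⟩,⟨false,0,⟨0,[]⟩,⟨3,[(20,0),(0,0),(18,
  1)]⟩⟩,⟨false,0,⟨11,[(1,5),(7,3),(5,1),(2,7),(2,2),(0,5),(17,0)]⟩,⟨7,[(3,5),(6,3),(9,0),(2,1),(9,
  0),(6,1)]⟩⟩,⟨true,0,⟨0,[(37,0)]⟩,⟨0,[(38,0)]⟩⟩,⟨false,0,⟨2,[(1,2),(7,0),(5,1),(2,4),(21,0)]⟩,⟨12,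
  [(3,8),(6,10),(9,1),(2,3),(1,3),(2,3),(7,0),(1,3)]⟩⟩,[.o ⟨false,0,⟨0,[(37,0)]⟩,⟨3,[(10,1),(14,1),
  (2,1),(4,0),(6,0)]⟩⟩,.a ⟨true,0,⟨3,[(12,0),(2,0),(2,3),(12,1),(2,0),(1,1)]⟩,⟨0,[(38,0)]⟩⟩ ⟨true,0,
  ⟨0,[(4,0)]⟩,⟨1,[(1,0),(0,0),(20,1)]⟩⟩ ⟨false,0,⟨0,[(0,0),(15,0),(1,0)]⟩,⟨1,[(10,0),(12,1),(9,0),
  (8,0)]⟩⟩,.o ⟨false,1,⟨1,[(23,1),(9,0),(5,0)]⟩,⟨1,[(1,0),(0,0),(1,1)]⟩⟩,.e ⟨false,1,⟨1,[(20,0),(18,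
  0)]⟩,⟨0,[(1,0),(21,0)]⟩⟩ ⟨false,0,⟨0,[(0,0),(15,0),(1,0)]⟩,⟨3,[(10,1),(12,3),(1,1),(2,1),(4,0),(6,
  0)]⟩⟩]⟩) (.I [0,0,-2,-2,1,0,0,0,1] (.I [1,1,0,0,0,0,0,0,1] (.R ⟨1,false,false,false,[0,0,0,1],[0,
  0,1],[1,1,0,0,0,0,0,0,1],(⟨0,[(25,0)]⟩,⟨0,[(24,0)]⟩),(⟨0,[(34,0)]⟩,⟨0,[(33,0)]⟩),⟨3,[(2,1),(4,0),
  (4,0),(2,0),(0,0),(0,0),(2,0),(4,1)]⟩,.k,.k,(.r (-1) ⟨7,[(1,3),(20,0),(0,2)]⟩ ⟨6,[(6,2),(2,1),(1,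
  1),(4,0),(5,1),(15,1),(0,1)]⟩),.k,(.r (-1) ⟨15,[(1,3),(6,7),(13,2),(0,8)]⟩ ⟨6,[(6,4),(2,0),(1,0),
  (4,3),(5,0),(15,0),(0,0)]⟩),.k,⟨true,0,⟨19,[(0,13),(7,6),(0,3),(1,2),(9,0),(1,2),(5,1),(0,0)]⟩,⟨1,
  [(6,1),(9,0),(21,0),(1,0)]⟩⟩,⟨false,1,⟨3,[(17,1),(7,3),(9,0),(5,2)]⟩,⟨0,[(24,0),(2,0)]⟩⟩,⟨false,0,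
  ⟨0,[]⟩,⟨3,[(22,0),(0,0),(18,1)]⟩⟩,⟨false,1,⟨7,[(5,3),(0,1),(5,1),(3,3),(0,3),(4,0),(2,3),(15,1),
  (0,2)]⟩,⟨0,[(3,0),(25,0)]⟩⟩,⟨true,0,⟨0,[(39,0)]⟩,⟨0,[(40,0)]⟩⟩,⟨false,1,⟨3,[(5,2),(0,0),(9,1),(0,
  2),(2,1),(4,0),(12,0),(2,1),(0,1)]⟩,⟨0,[(3,0),(25,0),(10,0)]⟩⟩,[.a ⟨true,0,⟨3,[(14,0),(1,1),(0,0),
  (15,1),(2,0),(3,1)]⟩,⟨0,[(2,0),(21,0)]⟩⟩ ⟨true,0,⟨0,[(0,0)]⟩,⟨5,[(6,3),(4,0),(10,0),(4,0),(10,2),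
  (1,0)]⟩⟩ ⟨false,1,⟨2,[(1,0),(0,0),(2,0),(10,1),(0,1),(7,0),(15,1)]⟩,⟨23,[(3,5),(4,6),(0,3),(1,2),
  (10,2),(1,17),(2,16),(1,5),(8,1)]⟩⟩,.o ⟨false,1,⟨0,[(28,0),(13,0)]⟩,⟨0,[(26,0)]⟩⟩,.o ⟨false,0,⟨1,
  [(3,0),(0,0),(1,1)]⟩,⟨1,[(25,1),(9,0),(5,0)]⟩⟩,.o ⟨false,0,⟨5,[(3,2),(0,2),(1,1),(4,1),(10,1),(4,
  1),(12,1)]⟩,⟨0,[(2,0),(6,0),(2,0),(3,0),(0,0)]⟩⟩]⟩) (.Q [0,0,0,0,0,-1,0,0,0,1,0,-1] (.ed true [0,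
  1,0,1] .k) (.R ⟨1,false,false,true,[1,0,0,-1],[0,0,1],[1,1,0,0,0,0,0,0,-1],(⟨0,[(25,0)]⟩,⟨0,[(26,
  0)]⟩),(⟨0,[(35,0)]⟩,⟨0,[(34,0)]⟩),⟨0,[(0,0)]⟩,.k,.k,(.x (-1) ⟨11,[(11,3),(4,3),(6,4),(0,4),(11,
  1)]⟩ ⟨0,[(38,0)]⟩),.k,(.r (-1) ⟨15,[(2,3),(6,7),(13,10),(0,0)]⟩ ⟨6,[(2,1),(0,4),(0,4),(3,1),(5,0),
  (2,5),(0,4),(2,4),(16,4)]⟩),.k,⟨true,0,⟨4,[(1,0),(5,1),(1,1),(0,0),(1,0),(10,0)]⟩,⟨6,[(2,3),(0,2),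
  (0,2),(3,3),(5,1),(2,4),(0,2),(2,2),(16,9)]⟩⟩,⟨false,0,⟨1,[(1,0),(3,0),(12,0),(6,0)]⟩,⟨15,[(2,3),
  (0,15),(13,7),(5,2),(0,0),(17,7)]⟩⟩,⟨false,0,⟨0,[]⟩,⟨3,[(23,0),(0,0),(18,1)]⟩⟩,⟨false,0,⟨4,[(2,1),
  (1,1),(0,0),(6,1),(4,1),(4,0),(2,1),(3,0)]⟩,⟨3,[(1,1),(1,3),(19,0),(18,1),(0,0)]⟩⟩,⟨true,0,⟨0,
  [(40,0)]⟩,⟨0,[(41,0)]⟩⟩,⟨false,0,⟨5,[(4,2),(0,0),(6,0),(4,2),(0,2),(2,0),(2,0),(0,1),(14,0)]⟩,⟨7,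
  [(1,1),(1,7),(9,3),(9,2),(19,0)]⟩⟩,[.o ⟨false,0,⟨0,[(29,0)]⟩,⟨0,[(27,0),(15,0)]⟩⟩,.e ⟨true,0,⟨0,
  [(7,0)]⟩,⟨1,[(4,0),(0,0),(20,1)]⟩⟩ ⟨true,0,⟨3,[(17,0),(7,3),(3,1),(1,1),(7,0),(1,0)]⟩,⟨0,[(3,
  0)]⟩⟩,.o ⟨false,1,⟨1,[(26,1),(9,0),(5,0)]⟩,⟨0,[(1,0),(3,0)]⟩⟩,.a ⟨true,0,⟨0,[(26,0)]⟩,⟨0,[(25,
  0)]⟩⟩ ⟨false,1,⟨1,[(23,0),(18,0)]⟩,⟨0,[(4,0),(21,0)]⟩⟩ ⟨true,0,⟨0,[(25,0),(3,0)]⟩,⟨0,[(3,0)]⟩⟩]⟩)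
  (.R ⟨0,false,false,true,[1,0,0,-1],[0,0,1],[1,0,0,0,0,0,0,0,-1],(⟨0,[(25,0)]⟩,⟨0,[(26,0)]⟩),(⟨0,
  [(35,0)]⟩,⟨0,[(34,0)]⟩),⟨0,[(0,0)]⟩,.k,.k,(.x (-1) ⟨11,[(11,3),(4,3),(6,4),(0,4),(11,1)]⟩ ⟨0,[(38,
  0)]⟩),.k,.k,.k,⟨true,0,⟨7,[(1,5),(7,1),(0,0),(1,0),(6,2),(3,0)]⟩,⟨12,[(0,4),(1,6),(2,5),(2,1),(3,
  4),(1,0),(2,5),(3,5),(4,0),(2,0),(11,2)]⟩⟩,⟨false,0,⟨1,[(1,0),(3,0),(12,0),(6,0)]⟩,⟨15,[(2,3),(0,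
  15),(13,7),(5,2),(0,0),(17,7)]⟩⟩,⟨true,0,⟨0,[]⟩,⟨0,[(45,0)]⟩⟩,⟨false,0,⟨4,[(2,1),(1,1),(0,0),(6,
  1),(4,1),(4,0),(2,1),(3,0)]⟩,⟨3,[(1,1),(1,3),(19,0),(18,1),(0,0)]⟩⟩,⟨false,0,⟨0,[]⟩,⟨0,[]⟩⟩,
  ⟨false,0,⟨0,[]⟩,⟨0,[]⟩⟩,[.o ⟨false,0,⟨0,[(29,0)]⟩,⟨0,[(27,0),(15,0)]⟩⟩,.e ⟨true,0,⟨0,[(1,0)]⟩,⟨0,
  [(5,0),(20,0)]⟩⟩ ⟨true,0,⟨3,[(17,0),(7,3),(3,1),(1,1),(7,0),(1,0)]⟩,⟨0,[(3,0)]⟩⟩,.o ⟨false,1,⟨1,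
  [(26,1),(9,0),(5,0)]⟩,⟨0,[(1,0),(3,0)]⟩⟩,.a ⟨true,0,⟨0,[(26,0)]⟩,⟨0,[(25,0)]⟩⟩ ⟨false,1,⟨3,[(1,1),
  (21,0),(18,1),(0,0)]⟩,⟨1,[(4,0),(0,0),(20,1)]⟩⟩ ⟨true,0,⟨0,[(25,0),(3,0)]⟩,⟨0,[(3,0)]⟩⟩]⟩))) (.I
  [0,1,0,-1,0,0,0,0,1] (.R ⟨1,false,false,false,[0,0,0,1],[1,-1],[1],(⟨0,[(25,0)]⟩,⟨0,[(24,0)]⟩),
  (⟨0,[(36,0)]⟩,⟨0,[(37,0)]⟩),⟨3,[(2,1),(4,0),(4,0),(2,0),(0,0),(0,0),(2,0),(4,1)]⟩,.k,.k,(.r (-1)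
  ⟨11,[(0,3),(11,3),(9,0),(0,4),(17,1)]⟩ ⟨7,[(1,3),(20,2),(0,0)]⟩),(.x 0 ⟨0,[(37,0)]⟩ ⟨11,[(10,3),
  (4,3),(6,4),(0,4),(11,1)]⟩),.k,.k,⟨true,0,⟨7,[(1,3),(20,0),(0,2)]⟩,⟨0,[(40,0)]⟩⟩,⟨false,1,⟨1,[(25,
  1),(9,0),(5,0)]⟩,⟨0,[(24,0)]⟩⟩,⟨false,0,⟨0,[(1,0),(10,0)]⟩,⟨3,[(22,0),(0,2)]⟩⟩,⟨false,1,⟨7,[(5,5),
  (6,3),(9,0),(2,1),(9,0),(6,1)]⟩,⟨11,[(3,5),(7,3),(5,1),(2,7),(2,2),(0,5),(17,0)]⟩⟩,⟨true,0,⟨1,[(1,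
  0),(4,0),(34,0)]⟩,⟨0,[(0,0)]⟩⟩,⟨false,1,⟨1,[(5,1),(35,0),(0,0)]⟩,⟨3,[(0,0),(2,0),(7,0),(11,0),(0,
  2),(6,0)]⟩⟩,[.a ⟨true,0,⟨0,[(40,0)]⟩,⟨3,[(14,0),(2,0),(2,3),(12,1),(2,0),(1,1)]⟩⟩ ⟨true,0,⟨0,[]⟩,
  ⟨1,[(30,0),(0,0)]⟩⟩ ⟨false,1,⟨1,[(2,1),(6,0),(2,1),(3,0),(0,0),(10,0)]⟩,⟨7,[(1,3),(20,0),(0,2),(0,
  7)]⟩⟩,.o ⟨false,1,⟨3,[(12,1),(14,1),(2,1),(4,0),(6,0)]⟩,⟨0,[(39,0)]⟩⟩,.o ⟨false,0,⟨1,[(3,0),(0,0),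
  (1,1)]⟩,⟨1,[(25,1),(9,0),(5,0)]⟩⟩,.o ⟨false,0,⟨9,[(1,1),(1,4),(0,4),(6,1),(10,3),(4,1),(12,5)]⟩,
  ⟨0,[(2,0),(6,0),(2,0),(3,0),(0,0)]⟩⟩]⟩) (.Q [0,0,0,0,0,-1,0,0,0,1,0,-1] (.ed true [0,1,0,1] .k)
  (.R ⟨1,false,false,true,[1,0,0,-1],[0,0,1],[1,1,0,0,0,0,0,0,-1],(⟨0,[(25,0)]⟩,⟨0,[(26,0)]⟩),(⟨0,
  [(35,0)]⟩,⟨0,[(34,0)]⟩),⟨0,[(0,0)]⟩,.k,.k,(.x (-1) ⟨11,[(11,3),(4,3),(6,4),(0,4),(11,1)]⟩ ⟨0,[(38,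
  0)]⟩),.k,(.r (-1) ⟨7,[(9,3),(3,1),(9,4),(0,0),(20,1)]⟩ ⟨0,[(3,0),(0,0),(12,0),(0,0),(2,0),(19,
  0)]⟩),.k,⟨true,0,⟨3,[(2,0),(4,0),(1,1),(13,0)]⟩,⟨0,[(3,0),(0,0),(12,0),(0,0),(2,0),(19,1)]⟩⟩,
  ⟨false,0,⟨3,[(4,0),(0,0),(1,1),(10,1),(6,1)]⟩,⟨11,[(3,7),(9,3),(3,3),(3,3),(1,0),(0,0),(1,3),(9,
  1),(5,3)]⟩⟩,⟨false,0,⟨0,[]⟩,⟨3,[(23,0),(0,0),(18,1)]⟩⟩,⟨false,0,⟨3,[(4,1),(0,1),(9,0),(1,1),(0,0),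
  (15,1),(2,0),(3,1)]⟩,⟨9,[(1,3),(1,9),(9,1),(9,2),(18,2),(0,1)]⟩⟩,⟨true,0,⟨0,[(40,0)]⟩,⟨0,[(41,
  0)]⟩⟩,⟨false,0,⟨5,[(4,2),(0,0),(6,0),(4,2),(0,2),(2,0),(2,0),(0,1),(14,0)]⟩,⟨6,[(1,0),(1,6),(9,3),
  (9,2),(15,0)]⟩⟩,[.o ⟨false,0,⟨0,[(29,0)]⟩,⟨0,[(27,0),(15,0)]⟩⟩,.e ⟨true,0,⟨0,[(7,0)]⟩,⟨1,[(4,0),
  (0,0),(20,1)]⟩⟩ ⟨true,0,⟨3,[(17,0),(7,3),(3,1),(1,1),(7,0),(1,0)]⟩,⟨0,[(3,0)]⟩⟩,.o ⟨false,1,⟨1,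
  [(26,1),(9,0),(5,0)]⟩,⟨1,[(4,0),(0,0),(1,1)]⟩⟩,.a ⟨true,0,⟨0,[(26,0)]⟩,⟨0,[(25,0)]⟩⟩ ⟨false,1,⟨1,
  [(23,0),(18,0)]⟩,⟨0,[(4,0),(21,0)]⟩⟩ ⟨true,0,⟨0,[(25,0),(3,0)]⟩,⟨0,[(3,0)]⟩⟩]⟩) (.R ⟨0,false,
  false,true,[1,0,0,-1],[0,0,1],[1,0,0,0,0,0,0,0,-1],(⟨0,[(25,0)]⟩,⟨0,[(26,0)]⟩),(⟨0,[(35,0)]⟩,⟨0,
  [(34,0)]⟩),⟨0,[(0,0)]⟩,.k,.k,(.x (-1) ⟨11,[(11,3),(4,3),(6,4),(0,4),(11,1)]⟩ ⟨0,[(38,0)]⟩),.k,.k,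
  .k,⟨true,0,⟨11,[(1,3),(0,0),(4,4),(1,5),(13,0),(15,3)]⟩,⟨0,[(4,0),(16,0),(4,0),(2,0),(11,0)]⟩⟩,
  ⟨false,0,⟨3,[(4,0),(0,0),(1,1),(10,1),(6,1)]⟩,⟨11,[(3,7),(9,3),(3,3),(3,3),(1,0),(0,0),(1,3),(9,
  1),(5,3)]⟩⟩,⟨true,0,⟨0,[]⟩,⟨0,[(45,0)]⟩⟩,⟨false,0,⟨3,[(4,1),(0,1),(9,0),(1,1),(0,0),(15,1),(2,0),
  (3,1)]⟩,⟨9,[(1,3),(1,9),(9,1),(9,2),(18,2),(0,1)]⟩⟩,⟨false,0,⟨0,[]⟩,⟨0,[]⟩⟩,⟨false,0,⟨0,[]⟩,⟨0,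
  []⟩⟩,[.o ⟨false,0,⟨0,[(29,0)]⟩,⟨0,[(27,0),(15,0)]⟩⟩,.e ⟨true,0,⟨0,[(1,0),(39,0)]⟩,⟨0,[(5,0),(20,
  0)]⟩⟩ ⟨true,0,⟨3,[(17,0),(7,3),(3,1),(1,1),(7,0),(1,0)]⟩,⟨0,[(3,0)]⟩⟩,.o ⟨false,1,⟨1,[(26,1),(9,
  0),(5,0)]⟩,⟨1,[(4,0),(0,0),(1,1)]⟩⟩,.a ⟨true,0,⟨0,[(26,0)]⟩,⟨0,[(25,0)]⟩⟩ ⟨false,1,⟨9,[(1,3),(11,
  1),(9,2),(18,2),(0,1)]⟩,⟨1,[(4,0),(0,0),(20,1)]⟩⟩ ⟨true,0,⟨0,[(25,0),(3,0)]⟩,⟨0,[(3,0)]⟩⟩]⟩))))))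
  (.Q [0,0,0,0,0,1,0,0,0,-1,0,1] (.ed false [0,1,0,1] .k) (.Q [0,0,1,0,0,0,0,0,1,1,0,-1] (.p false
  [0,0,0,1] [1] (⟨0,[(22,0)]⟩,⟨0,[(21,0)]⟩) .k 1 (⟨0,[]⟩,⟨0,[]⟩) .k .k) (.R ⟨0,false,false,true,[1,
  0,0,-1],[1,0,-1],[1,1],(⟨0,[(22,0)]⟩,⟨0,[(23,0)]⟩),(⟨0,[(31,0)]⟩,⟨0,[(32,0)]⟩),⟨0,[(1,0)]⟩,.k,.k,
  (.x (-1) ⟨11,[(8,3),(4,3),(6,4),(0,4),(11,1)]⟩ ⟨0,[(35,0)]⟩),.k,.k,.k,⟨false,1,⟨6,[(10,1),(3,2),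
  (3,0),(1,0),(0,0),(4,0),(12,2)]⟩,⟨0,[(30,0)]⟩⟩,⟨true,0,⟨0,[(22,0),(2,0)]⟩,⟨10,[(1,3),(3,0),(7,0),
  (1,1),(3,2),(3,6),(9,0)]⟩⟩,⟨false,1,⟨3,[(20,0),(0,2)]⟩,⟨0,[(2,0),(12,0),(6,0),(2,1)]⟩⟩,⟨true,0,⟨0,
  [(0,0),(23,0)]⟩,⟨0,[(2,0),(23,0)]⟩⟩,⟨false,0,⟨0,[]⟩,⟨0,[]⟩⟩,⟨false,0,⟨0,[]⟩,⟨0,[]⟩⟩,[.o ⟨false,0,
  ⟨0,[(24,0)]⟩,⟨0,[(26,0),(13,0)]⟩⟩,.e ⟨true,0,⟨0,[]⟩,⟨1,[(28,0),(0,0)]⟩⟩ ⟨true,0,⟨29,[(0,5),(5,10),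
  (0,7),(1,2),(10,2),(1,23),(2,24),(10,3)]⟩,⟨5,[(1,3),(3,0),(4,0),(2,0),(0,2),(0,2),(2,0),(4,1),(14,
  1)]⟩⟩,.o ⟨false,1,⟨1,[(23,1),(9,0),(5,0)]⟩,⟨0,[(15,0),(6,0),(2,1)]⟩⟩,.a ⟨true,0,⟨0,[(23,0)]⟩,⟨0,
  [(22,0)]⟩⟩ ⟨false,1,⟨3,[(20,0),(0,0),(17,1)]⟩,⟨3,[(28,0),(0,0),(6,1)]⟩⟩ ⟨true,0,⟨0,[(22,0),(1,
  0)]⟩,⟨5,[(1,3),(3,0),(4,0),(2,0),(0,2),(0,2),(2,0),(4,1),(14,1)]⟩⟩]⟩) (.I [0,1,1,0,-1,0,0,0,-1]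
  (.R ⟨0,false,false,false,[1,0,0,-1],[0,0,0,1],[0,1,1],(⟨0,[(23,0)]⟩,⟨0,[(24,0)]⟩),(⟨0,[(24,0)]⟩,
  ⟨0,[(23,0)]⟩),⟨0,[(2,0)]⟩,.k,.k,(.x (-1) ⟨11,[(9,3),(4,3),(6,4),(0,4),(11,1)]⟩ ⟨0,[(36,0)]⟩),.k,
  .k,.k,⟨true,(-1),⟨0,[(0,0)]⟩,⟨1,[(22,0),(18,0)]⟩⟩,⟨false,0,⟨0,[(16,0),(6,1),(2,1)]⟩,⟨1,[(1,1),(20,
  0),(1,1),(15,0)]⟩⟩,⟨true,0,⟨0,[(0,0),(21,0)]⟩,⟨0,[(1,0),(21,0)]⟩⟩,⟨false,1,⟨1,[(10,0),(11,1),(0,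
  3),(2,0),(7,0),(2,0),(1,0)]⟩,⟨0,[(1,0),(1,0),(39,0)]⟩⟩,⟨false,0,⟨0,[]⟩,⟨0,[]⟩⟩,⟨false,0,⟨0,[]⟩,⟨0,
  []⟩⟩,[.o ⟨false,1,⟨7,[(21,0),(0,4),(0,7),(2,3),(2,3),(4,1)]⟩,⟨0,[(1,0)]⟩⟩,.o ⟨false,1,⟨5,[(22,2),
  (0,5),(2,1),(2,1),(4,1),(2,1),(3,0)]⟩,⟨0,[(1,0),(41,0)]⟩⟩,.o ⟨false,1,⟨3,[(1,3),(19,0),(0,2)]⟩,⟨0,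
  [(16,0),(6,0),(2,1)]⟩⟩,.a ⟨true,0,⟨0,[(24,0)]⟩,⟨0,[(23,0)]⟩⟩ ⟨true,0,⟨0,[(43,0)]⟩,⟨0,[]⟩⟩ ⟨false,
  1,⟨5,[(22,2),(0,11),(2,1),(2,1),(4,1),(2,1),(3,0)]⟩,⟨0,[(1,0),(22,0)]⟩⟩]⟩) (.Q [0,0,0,-1,0,0,0,0,
  0,-1,0,1] (.p true [0,0,0,1] [1] (⟨0,[(24,0)]⟩,⟨0,[(23,0)]⟩) .k 1 (⟨0,[]⟩,⟨0,[]⟩) .k .k) (.R ⟨0,
  false,false,true,[1,0,0,-1],[0,1],[1,1],(⟨0,[(24,0)]⟩,⟨0,[(25,0)]⟩),(⟨0,[(37,0)]⟩,⟨0,[(36,0)]⟩),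
  ⟨0,[(3,0)]⟩,.k,.k,(.x (-1) ⟨11,[(10,3),(4,3),(6,4),(0,4),(11,1)]⟩ ⟨0,[(37,0)]⟩),(.x (-1) ⟨11,[(10,
  3),(4,3),(6,4),(0,4),(11,1)]⟩ ⟨0,[(37,0)]⟩),.k,.k,⟨false,1,⟨1,[(12,0),(28,0),(2,0)]⟩,⟨9,[(9,3),(1,
  3),(4,1),(5,0),(0,0),(18,1)]⟩⟩,⟨true,0,⟨0,[(24,0)]⟩,⟨12,[(3,4),(3,1),(5,0),(11,7),(1,3),(2,3),(4,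
  1)]⟩⟩,⟨false,1,⟨3,[(22,0),(0,2)]⟩,⟨1,[(2,0),(3,0),(17,0),(13,0)]⟩⟩,⟨true,0,⟨7,[(7,3),(1,2),(3,1),
  (2,0),(0,2),(2,3),(2,3),(0,7),(3,0),(8,9)]⟩,⟨0,[(2,0),(37,0)]⟩⟩,⟨false,0,⟨0,[]⟩,⟨0,[]⟩⟩,⟨false,0,
  ⟨0,[]⟩,⟨0,[]⟩⟩,[.o ⟨false,0,⟨0,[(39,0)]⟩,⟨3,[(12,1),(14,1),(2,1),(4,0),(6,0)]⟩⟩,.e ⟨true,0,⟨0,[]⟩,
  ⟨1,[(30,0),(0,0)]⟩⟩ ⟨true,0,⟨9,[(9,3),(1,3),(4,1),(5,0),(0,0),(0,9),(17,1)]⟩,⟨0,[(0,0)]⟩⟩,.o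
  ⟨false,1,⟨3,[(2,3),(19,0),(0,2)]⟩,⟨0,[(17,0),(6,0),(2,1)]⟩⟩,.a ⟨true,0,⟨0,[(25,0)]⟩,⟨0,[(24,0)]⟩⟩
  ⟨false,1,⟨3,[(22,0),(0,0),(17,1)]⟩,⟨3,[(30,0),(0,0),(6,1)]⟩⟩ ⟨true,0,⟨0,[(24,0),(14,0)]⟩,⟨0,[(0,
  0)]⟩⟩]⟩) (.R ⟨0,false,false,true,[1,0,0,-1],[0,1],[1,1],(⟨0,[(24,0)]⟩,⟨0,[(25,0)]⟩),(⟨0,[(37,0)]⟩,
  ⟨0,[(36,0)]⟩),⟨0,[(3,0)]⟩,.k,.k,(.x (-1) ⟨11,[(10,3),(4,3),(6,4),(0,4),(11,1)]⟩ ⟨0,[(37,0)]⟩),(.x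
  (-1) ⟨11,[(10,3),(4,3),(6,4),(0,4),(11,1)]⟩ ⟨0,[(37,0)]⟩),.k,.k,⟨false,1,⟨1,[(12,0),(28,0),(2,
  0)]⟩,⟨9,[(9,3),(1,3),(4,1),(5,0),(0,0),(18,1)]⟩⟩,⟨true,0,⟨0,[(24,0)]⟩,⟨12,[(3,4),(3,1),(5,0),(11,
  7),(1,3),(2,3),(4,1)]⟩⟩,⟨false,1,⟨3,[(22,0),(0,2)]⟩,⟨1,[(2,0),(3,0),(17,0),(13,0)]⟩⟩,⟨true,0,⟨3,
  [(0,0),(6,1),(1,0),(3,0),(3,0),(2,1),(2,1),(0,2),(3,0),(8,4)]⟩,⟨0,[(2,0),(37,0)]⟩⟩,⟨false,0,⟨0,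
  []⟩,⟨0,[]⟩⟩,⟨false,0,⟨0,[]⟩,⟨0,[]⟩⟩,[.o ⟨false,0,⟨0,[(39,0)]⟩,⟨3,[(12,1),(14,1),(2,1),(4,0),(6,
  0)]⟩⟩,.a ⟨true,0,⟨0,[(0,0),(24,0)]⟩,⟨0,[(40,0)]⟩⟩ ⟨true,0,⟨0,[]⟩,⟨1,[(30,0),(0,0)]⟩⟩ ⟨false,0,⟨0,
  [(0,0)]⟩,⟨1,[(12,0),(12,1),(9,0),(8,0)]⟩⟩,.o ⟨false,1,⟨3,[(2,3),(19,0),(0,2)]⟩,⟨0,[(17,0),(6,0),
  (2,1)]⟩⟩,.e ⟨false,1,⟨3,[(22,0),(0,0),(17,1)]⟩,⟨3,[(30,0),(0,0),(6,1)]⟩⟩ ⟨false,0,⟨0,[(0,0)]⟩,⟨3,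
  [(12,1),(12,3),(1,1),(2,1),(4,0),(6,0)]⟩⟩]⟩)))) (.I [1,1,0,1,-1,0,0,0,-2] (.I [0,1,1,0,-1,0,0,0,
  -1] (.R ⟨1,false,false,false,[1,0,0,-1],[1,-1],[0,1,0,-1,0,0,0,0,-1],(⟨0,[(23,0)]⟩,⟨0,[(24,0)]⟩),
  (⟨0,[(35,0)]⟩,⟨0,[(36,0)]⟩),⟨0,[(2,0)]⟩,.k,.k,(.x (-1) ⟨11,[(9,3),(4,3),(6,4),(0,4),(11,1)]⟩ ⟨0,
  [(36,0)]⟩),(.r 0 ⟨45,[(1,5),(6,15),(1,15),(4,7),(5,16),(15,5),(3,4)]⟩ ⟨1,[(11,0),(10,0),(20,0)]⟩),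
  .k,.k,⟨true,(-1),⟨0,[(0,0)]⟩,⟨1,[(22,0),(18,0)]⟩⟩,⟨false,0,⟨0,[(16,0),(6,0),(2,1)]⟩,⟨0,[(24,0),
  (15,0)]⟩⟩,⟨false,0,⟨0,[(39,0)]⟩,⟨0,[(38,0),(2,0)]⟩⟩,⟨false,1,⟨5,[(11,1),(10,2),(0,5),(2,3),(2,3),
  (4,0),(2,1),(1,1)]⟩,⟨0,[(3,0),(34,0)]⟩⟩,⟨true,0,⟨0,[(43,0)]⟩,⟨0,[]⟩⟩,⟨false,1,⟨5,[(22,2),(0,5),(2,
  1),(2,1),(4,1),(2,1),(3,0)]⟩,⟨4,[(1,1),(1,0),(7,0),(12,3),(15,0)]⟩⟩,[.a ⟨true,0,⟨0,[(39,0)]⟩,⟨11,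
  [(3,5),(6,3),(5,1),(2,7),(2,2),(0,5),(17,0)]⟩⟩ ⟨false,0,⟨2,[(0,0),(0,0),(9,1),(31,2)]⟩,⟨9,[(8,3),
  (6,1),(0,3),(2,3),(2,4),(14,5),(2,1),(0,2)]⟩⟩ ⟨true,0,⟨1,[(7,0),(15,1),(2,1),(0,1),(9,0),(1,0)]⟩,
  ⟨4,[(3,3),(2,1),(1,1),(3,0),(2,0),(0,1),(2,1),(2,1),(1,0),(11,4)]⟩⟩,.o ⟨false,1,⟨3,[(11,1),(14,1),
  (2,1),(4,0),(6,0)]⟩,⟨0,[(38,0)]⟩⟩,.o ⟨false,1,⟨1,[(24,1),(9,0),(5,0)]⟩,⟨0,[(16,0),(6,0),(2,1)]⟩⟩,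
  .e ⟨false,0,⟨2,[(0,0),(0,0),(9,1)]⟩,⟨9,[(8,3),(1,3),(4,1),(5,0),(0,5),(18,6)]⟩⟩ ⟨false,1,⟨3,[(11,
  1),(11,3),(2,1),(2,1),(4,0),(6,0)]⟩,⟨4,[(3,3),(2,1),(1,1),(3,0),(2,0),(0,1),(2,1),(2,1),(1,0),(11,
  4)]⟩⟩]⟩) (.Q [0,0,1,0,0,0,0,0,1,1,0,-1] (.p false [0,0,0,1] [1] (⟨0,[(24,0)]⟩,⟨0,[(23,0)]⟩) .k 1
  (⟨0,[]⟩,⟨0,[]⟩) .k .k) (.Q [0,0,-1,2,0,0,-1,-1,-1,-1,1,1] (.p true [0,0,1] [1,0,0,-1] (⟨0,[(34,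
  0)]⟩,⟨0,[(33,0)]⟩) .k 2 (⟨0,[(24,0)]⟩,⟨0,[(25,0)]⟩) .k (.r (-1) ⟨7,[(12,1),(3,3),(5,0),(0,4),(20,
  1)]⟩ ⟨65,[(2,11),(5,28),(0,7),(1,8),(10,20),(4,0),(10,9)]⟩)) (.Q [0,-1,-1,1,0,0,0,0,-1,0,0,1] (.p
  true [0,0,0,1] [] (⟨0,[(26,0)]⟩,⟨0,[(25,0)]⟩) .k 0 (⟨0,[]⟩,⟨0,[]⟩) .k .k) (.Q [0,0,-1,0,0,0,0,0,
  -1,-1,0,2] (.p true [0,0,0,1] [1,0,0,-1] (⟨0,[(27,0)]⟩,⟨0,[(26,0)]⟩) .k 2 (⟨0,[(26,0)]⟩,⟨0,[(27,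
  0)]⟩) .k (.r (-1) ⟨0,[(25,0)]⟩ ⟨8,[(4,4),(9,0),(9,3),(15,1),(1,2)]⟩)) (.R ⟨1,false,false,false,[1,
  0,0,-1],[0,0,0,1],[0,1,0,-1,0,0,0,0,-1],(⟨0,[(27,0)]⟩,⟨0,[(28,0)]⟩),(⟨0,[(28,0)]⟩,⟨0,[(27,0)]⟩),
  ⟨0,[(6,0)]⟩,.k,.k,(.x (-1) ⟨11,[(13,3),(4,3),(6,4),(0,4),(11,1)]⟩ ⟨0,[(40,0)]⟩),.k,(.r 0 ⟨8,[(5,
  6),(9,4),(9,1),(15,0),(1,5)]⟩ ⟨9,[(12,3),(1,3),(4,1),(5,0),(0,10),(18,1)]⟩),.k,⟨true,(-1),⟨0,[(5,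
  0),(37,1)]⟩,⟨27,[(2,7),(0,7),(0,1),(9,7),(4,3),(6,26),(11,3),(2,9),(3,2)]⟩⟩,⟨false,0,⟨0,[(20,0),
  (6,1),(2,1)]⟩,⟨1,[(0,1),(25,0),(17,0)]⟩⟩,⟨false,0,⟨0,[(43,0)]⟩,⟨0,[(42,0),(2,0)]⟩⟩,⟨false,1,⟨1,
  [(3,3),(34,0),(6,0)]⟩,⟨6,[(0,5),(0,0),(0,0),(2,2),(9,2),(15,0)]⟩⟩,⟨true,0,⟨0,[(47,0)]⟩,⟨0,[]⟩⟩,
  ⟨false,1,⟨14,[(2,5),(0,34),(0,0),(14,2),(0,2),(6,0),(10,8),(2,1),(3,4)]⟩,⟨1,[(0,1),(4,0),(9,0),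
  (27,0)]⟩⟩,[.a ⟨true,0,⟨0,[(3,0)]⟩,⟨42,[(0,11),(4,9),(1,8),(7,8),(1,3),(5,7),(1,0),(2,9),(7,7),(2,
  3)]⟩⟩ ⟨false,0,⟨1,[(5,0),(9,0),(27,0),(3,1)]⟩,⟨16,[(2,5),(0,5),(0,4),(9,1),(4,2),(0,1),(5,5),(11,
  1),(6,5)]⟩⟩ ⟨true,0,⟨0,[(3,0),(16,0),(6,0),(2,1)]⟩,⟨0,[(0,0)]⟩⟩,.o ⟨false,1,⟨1,[(3,1),(34,0),(6,
  0)]⟩,⟨3,[(0,1),(4,0),(6,0),(2,0),(13,0),(1,1)]⟩⟩,.o ⟨false,1,⟨7,[(0,3),(24,0),(0,2),(11,1),(5,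
  1)]⟩,⟨0,[(20,0),(6,0),(2,1)]⟩⟩,.e ⟨false,0,⟨1,[(5,0),(9,0),(27,0)]⟩,⟨9,[(12,3),(1,3),(4,1),(5,0),
  (0,5),(18,6)]⟩⟩ ⟨false,1,⟨1,[(3,1),(23,1),(10,0),(6,0)]⟩,⟨0,[(0,0)]⟩⟩]⟩) (.R ⟨1,false,false,false,
  [1,0,0,-1],[0,0,0,1],[0,1,0,-1,0,0,0,0,-1],(⟨0,[(27,0)]⟩,⟨0,[(28,0)]⟩),(⟨0,[(28,0)]⟩,⟨0,[(27,
  0)]⟩),⟨0,[(6,0)]⟩,.k,.k,(.x (-1) ⟨11,[(13,3),(4,3),(6,4),(0,4),(11,1)]⟩ ⟨0,[(40,0)]⟩),.k,(.r 0 ⟨8,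
  [(5,6),(9,4),(9,1),(15,0),(1,5)]⟩ ⟨9,[(12,3),(1,3),(4,1),(5,0),(0,10),(18,1)]⟩),.k,⟨true,(-1),⟨0,
  [(5,0),(37,1)]⟩,⟨51,[(0,5),(1,11),(9,3),(1,15),(4,7),(6,54),(11,2),(2,17),(3,9)]⟩⟩,⟨false,0,⟨17,
  [(0,17),(4,4),(9,0),(9,3),(15,1),(1,2)]⟩,⟨0,[(7,1),(18,0),(2,0),(1,0)]⟩⟩,⟨false,0,⟨0,[(43,0)]⟩,⟨0,
  [(42,0),(2,0)]⟩⟩,⟨false,1,⟨11,[(0,7),(2,7),(21,0),(0,4),(3,3),(2,3),(11,5)]⟩,⟨0,[(7,1),(21,0),(1,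
  0)]⟩⟩,⟨true,0,⟨0,[(47,0)]⟩,⟨0,[]⟩⟩,⟨false,1,⟨9,[(0,9),(11,3),(1,3),(4,1),(5,0),(0,5),(18,6)]⟩,⟨0,
  [(7,1),(21,0),(1,0),(11,0)]⟩⟩,[.e ⟨false,0,⟨1,[(5,0),(9,0),(27,0),(3,1)]⟩,⟨33,[(0,5),(1,11),(1,3),
  (9,3),(4,5),(0,3),(5,17),(11,0),(6,14)]⟩⟩ ⟨false,0,⟨0,[(0,0)]⟩,⟨0,[(8,0),(19,0),(15,0)]⟩⟩,.o
  ⟨false,1,⟨15,[(0,7),(24,0),(0,4),(3,3),(2,3),(4,1),(6,7)]⟩,⟨0,[(7,0),(21,0),(1,0)]⟩⟩,.o ⟨false,1,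
  ⟨1,[(28,1),(9,0),(5,0)]⟩,⟨19,[(0,9),(4,3),(19,0),(4,3),(2,3),(4,2),(2,1),(1,3)]⟩⟩,.a ⟨true,0,⟨0,
  [(28,0)]⟩,⟨0,[(27,0)]⟩⟩ ⟨false,0,⟨1,[(5,0),(9,0),(27,0)]⟩,⟨9,[(12,3),(1,3),(4,1),(5,0),(0,5),(18,
  6)]⟩⟩ ⟨true,0,⟨0,[(0,0)]⟩,⟨0,[(7,0),(20,0),(0,0),(1,0)]⟩⟩]⟩)) (.R ⟨2,false,false,true,[0,1],[0,0,
  0,1],[1],(⟨0,[]⟩,⟨0,[]⟩),(⟨0,[(27,0)]⟩,⟨0,[(26,0)]⟩),⟨0,[]⟩,.k,.k,.k,(.r 0 ⟨45,[(4,5),(6,15),(1,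
  15),(4,7),(5,16),(15,5),(3,4)]⟩ ⟨1,[(14,0),(10,0),(20,0)]⟩),.k,.k,⟨true,0,⟨17,[(4,7),(9,3),(9,0),
  (15,7),(3,2)]⟩,⟨6,[(0,2),(8,1),(1,0),(3,0),(3,0),(2,1),(2,1),(1,2),(2,0),(8,4)]⟩⟩,⟨false,0,⟨2,[(0,
  0),(1,0),(1,0),(21,0),(10,0),(2,0)]⟩,⟨0,[(27,0),(15,0)]⟩⟩,⟨false,1,⟨7,[(14,3),(9,0),(0,0),(18,
  1)]⟩,⟨9,[(11,3),(1,3),(4,1),(5,0),(0,0),(18,1)]⟩⟩,⟨true,0,⟨0,[(0,0)]⟩,⟨0,[(6,0),(34,0)]⟩⟩,⟨false,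
  1,⟨1,[(43,0),(0,0)]⟩,⟨1,[(32,0),(0,0)]⟩⟩,⟨false,1,⟨3,[(2,3),(21,0),(0,0),(11,1)]⟩,⟨0,[(6,0)]⟩⟩,
  [.e ⟨true,0,⟨0,[]⟩,⟨1,[(32,0),(0,0)]⟩⟩ ⟨true,0,⟨7,[(0,5),(1,1),(8,1),(1,2),(4,0),(5,0),(0,0),(3,
  0),(7,0)]⟩,⟨0,[(6,0)]⟩⟩,.a ⟨true,0,⟨0,[(2,0)]⟩,⟨4,[(4,1),(1,0),(7,0),(12,3),(15,0)]⟩⟩ ⟨false,1,⟨1,
  [(43,0),(0,0)]⟩,⟨0,[(46,0)]⟩⟩ ⟨true,0,⟨11,[(0,5),(1,5),(8,1),(1,2),(4,0),(10,0),(7,2),(2,3)]⟩,⟨4,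
  [(4,1),(1,0),(7,0),(12,3),(15,0)]⟩⟩,.o ⟨false,1,⟨3,[(24,0),(0,0),(17,1)]⟩,⟨0,[(19,0),(9,1)]⟩⟩,.e
  ⟨false,1,⟨1,[(43,0),(0,0)]⟩,⟨1,[(32,0),(0,0)]⟩⟩ ⟨false,1,⟨3,[(2,3),(21,0),(0,0),(11,1)]⟩,⟨0,[(6,
  0)]⟩⟩]⟩)) (.R ⟨2,false,false,true,[0,1],[0,0,0,1],[1],(⟨0,[]⟩,⟨0,[]⟩),(⟨0,[(26,0)]⟩,⟨0,[(25,0)]⟩),
  ⟨0,[]⟩,.k,.k,.k,(.r 0 ⟨45,[(3,5),(6,15),(1,15),(4,7),(5,16),(15,5),(3,4)]⟩ ⟨1,[(13,0),(10,0),(20,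
  0)]⟩),.k,.k,⟨true,0,⟨17,[(3,7),(9,3),(9,0),(15,7),(3,2)]⟩,⟨6,[(0,2),(7,1),(1,3),(3,0),(3,0),(2,1),
  (2,1),(1,2),(2,0),(8,4)]⟩⟩,⟨false,0,⟨2,[(0,0),(0,0),(1,0),(6,0),(14,0),(10,0),(2,0)]⟩,⟨0,[(26,0),
  (15,0)]⟩⟩,⟨false,1,⟨7,[(13,3),(9,0),(0,0),(18,1)]⟩,⟨9,[(10,3),(1,3),(4,1),(5,0),(0,0),(18,1)]⟩⟩,
  ⟨true,0,⟨0,[(0,0),(9,0)]⟩,⟨0,[(5,0),(34,0)]⟩⟩,⟨false,1,⟨1,[(42,0),(0,0)]⟩,⟨1,[(31,0),(0,0)]⟩⟩,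
  ⟨false,1,⟨3,[(1,3),(21,0),(0,0),(11,1)]⟩,⟨0,[(5,0)]⟩⟩,[.e ⟨true,0,⟨0,[]⟩,⟨1,[(31,0),(0,0)]⟩⟩
  ⟨true,0,⟨1,[(0,0),(0,0),(8,0),(17,0),(2,0),(8,0)]⟩,⟨0,[(5,0)]⟩⟩,.a ⟨true,0,⟨0,[(1,0)]⟩,⟨4,[(3,1),
  (1,0),(7,0),(12,3),(15,0)]⟩⟩ ⟨false,1,⟨1,[(42,0),(0,0)]⟩,⟨0,[(45,0)]⟩⟩ ⟨true,0,⟨11,[(0,5),(0,5),
  (8,7),(1,2),(4,0),(10,0),(7,2),(2,3)]⟩,⟨4,[(3,1),(1,0),(7,0),(12,3),(15,0)]⟩⟩,.o ⟨false,1,⟨3,[(23,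
  0),(0,0),(17,1)]⟩,⟨0,[(18,0),(9,1)]⟩⟩,.e ⟨false,1,⟨1,[(42,0),(0,0)]⟩,⟨1,[(31,0),(0,0)]⟩⟩ ⟨false,1,
  ⟨3,[(1,3),(21,0),(0,0),(11,1)]⟩,⟨0,[(5,0)]⟩⟩]⟩)) (.Q [0,0,0,1,0,0,-1,-1,0,-1,1,1] (.p true [0,0,
  1] [1,0,0,-1] (⟨0,[(34,0)]⟩,⟨0,[(33,0)]⟩) .k 2 (⟨0,[(24,0)]⟩,⟨0,[(25,0)]⟩) .k (.r (-1) ⟨7,[(12,1),
  (3,3),(5,0),(0,4),(20,1)]⟩ ⟨65,[(2,11),(5,28),(0,7),(1,8),(10,20),(4,0),(10,9)]⟩)) (.I [0,0,1,1,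
  -1,0,0,-1,-1] (.R ⟨1,false,false,false,[1,0,0,-1],[0,-1,1],[0,1,0,-1,0,0,0,0,-1],(⟨0,[(26,0)]⟩,⟨0,
  [(27,0)]⟩),(⟨0,[(12,0)]⟩,⟨0,[(35,0),(3,0)]⟩),⟨0,[(5,0)]⟩,.k,.k,(.x (-1) ⟨11,[(12,3),(4,3),(6,4),
  (0,4),(11,1)]⟩ ⟨0,[(39,0)]⟩),(.r 1 ⟨0,[(0,0)]⟩ ⟨7,[(14,5),(3,3),(5,2),(0,6),(20,5)]⟩),.k,.k,⟨true,
  (-1),⟨6,[(0,0),(3,2),(5,0),(2,2),(14,2),(2,0),(0,0),(9,5)]⟩,⟨15,[(3,1),(10,3),(3,7),(6,6),(14,1),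
  (3,2)]⟩⟩,⟨false,0,⟨0,[(26,0),(5,0)]⟩,⟨0,[(2,0),(0,0),(18,0),(19,0)]⟩⟩,⟨false,0,⟨0,[(42,0)]⟩,⟨0,
  [(41,0),(2,0)]⟩⟩,⟨false,1,⟨5,[(14,1),(3,2),(6,2),(0,5),(5,5),(7,0),(1,4),(1,0)]⟩,⟨0,[(6,0),(4,
  0)]⟩⟩,⟨true,0,⟨0,[(46,0)]⟩,⟨0,[]⟩⟩,⟨false,1,⟨23,[(14,5),(3,11),(4,1),(1,11),(0,23),(5,19),(4,0),
  (2,3),(3,4)]⟩,⟨0,[(6,0),(21,0)]⟩⟩,[.a ⟨true,0,⟨3,[(16,0),(1,1),(0,0),(15,1),(2,0),(3,5)]⟩,⟨0,[(1,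
  0),(24,0)]⟩⟩ ⟨false,0,⟨1,[(4,0),(9,0),(27,0),(3,1)]⟩,⟨6,[(3,4),(7,1),(1,1),(4,0),(6,0),(15,1),(2,
  2)]⟩⟩ ⟨true,0,⟨3,[(18,0),(7,3),(3,1),(1,1),(7,0),(1,4)]⟩,⟨0,[(1,0)]⟩⟩,.o ⟨false,1,⟨15,[(14,11),(3,
  7),(5,0),(0,0),(6,15),(11,1)]⟩,⟨0,[(11,0)]⟩⟩,.o ⟨false,1,⟨3,[(2,3),(21,0),(0,2)]⟩,⟨0,[(19,0),(6,
  0),(2,1)]⟩⟩,.e ⟨false,0,⟨1,[(4,0),(9,0),(27,0)]⟩,⟨9,[(11,3),(1,3),(4,1),(5,0),(0,5),(18,6)]⟩⟩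
  ⟨false,1,⟨15,[(14,11),(3,7),(5,0),(0,0),(0,15),(5,15),(11,1)]⟩,⟨0,[(1,0)]⟩⟩]⟩) (.R ⟨1,false,false,
  false,[1,0,0,-1],[0,-1,1],[0,1,0,-1,0,0,0,0,-1],(⟨0,[(26,0)]⟩,⟨0,[(27,0)]⟩),(⟨0,[(12,0)]⟩,⟨0,[(35,
  0),(3,0)]⟩),⟨0,[(5,0)]⟩,.k,.k,(.x (-1) ⟨11,[(12,3),(4,3),(6,4),(0,4),(11,1)]⟩ ⟨0,[(39,0)]⟩),(.x
  (-2) ⟨7,[(15,3),(8,2),(0,2),(13,11),(3,9)]⟩ ⟨0,[(9,0),(29,0)]⟩),.k,.k,⟨true,(-1),⟨7,[(4,3),(5,1),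
  (2,3),(14,2),(0,0),(1,0),(0,0),(9,5)]⟩,⟨11,[(0,3),(2,1),(14,3),(6,2),(14,1),(3,2)]⟩⟩,⟨false,0,⟨0,
  [(26,0),(5,0)]⟩,⟨2,[(0,0),(0,0),(0,1),(0,0),(10,0),(7,1)]⟩⟩,⟨false,0,⟨0,[(42,0)]⟩,⟨0,[(41,0),(2,
  0)]⟩⟩,⟨false,1,⟨3,[(0,3),(25,3),(5,4),(0,0),(6,1)]⟩,⟨0,[(6,0),(4,0)]⟩⟩,⟨true,0,⟨0,[(46,0)]⟩,⟨0,
  []⟩⟩,⟨false,1,⟨17,[(0,5),(17,5),(4,1),(1,5),(0,17),(5,13),(4,0),(2,3),(3,4)]⟩,⟨0,[(6,0),(21,0)]⟩⟩,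
  [.a ⟨true,0,⟨3,[(16,0),(1,1),(0,0),(15,1),(2,0),(3,5)]⟩,⟨0,[(1,0),(24,0)]⟩⟩ ⟨false,0,⟨1,[(4,0),(9,
  0),(27,0),(3,1)]⟩,⟨6,[(3,4),(7,1),(1,1),(4,0),(6,0),(15,1),(2,2)]⟩⟩ ⟨true,0,⟨3,[(18,0),(7,3),(3,
  1),(1,1),(7,0),(1,4)]⟩,⟨0,[(1,0)]⟩⟩,.o ⟨false,1,⟨17,[(0,1),(13,11),(3,7),(5,0),(7,17),(11,2)]⟩,⟨0,
  [(11,0)]⟩⟩,.o ⟨false,1,⟨3,[(2,3),(21,0),(0,2)]⟩,⟨0,[(19,0),(6,0),(2,1)]⟩⟩,.e ⟨false,0,⟨1,[(4,0),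
  (9,0),(27,0)]⟩,⟨9,[(11,3),(1,3),(4,1),(5,0),(0,5),(18,6)]⟩⟩ ⟨false,1,⟨17,[(0,1),(13,11),(3,7),(5,
  0),(1,17),(5,17),(11,2)]⟩,⟨0,[(1,0)]⟩⟩]⟩)) (.R ⟨1,false,false,false,[1,0,0,-1],[0,-1,1],[0,1,0,-1,
  0,0,0,0,-1],(⟨0,[(25,0)]⟩,⟨0,[(26,0)]⟩),(⟨0,[(11,0)]⟩,⟨0,[(34,0),(3,0)]⟩),⟨0,[(4,0)]⟩,.k,.k,(.x
  (-1) ⟨11,[(11,3),(4,3),(6,4),(0,4),(11,1)]⟩ ⟨0,[(38,0)]⟩),(.x (-2) ⟨7,[(14,3),(8,2),(0,2),(13,11),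
  (3,9)]⟩ ⟨0,[(8,0),(29,0)]⟩),.k,.k,⟨true,(-1),⟨7,[(3,3),(5,1),(2,3),(14,2),(0,0),(1,0),(0,0),(9,
  5)]⟩,⟨15,[(2,1),(10,3),(3,7),(6,6),(14,1),(3,2)]⟩⟩,⟨false,0,⟨0,[(25,0),(5,0)]⟩,⟨0,[(1,0),(0,0),
  (18,0),(19,0)]⟩⟩,⟨false,0,⟨0,[(41,0)]⟩,⟨0,[(40,0),(2,0)]⟩⟩,⟨false,1,⟨1,[(0,1),(23,0),(6,0),(0,0),
  (10,0)]⟩,⟨0,[(5,0),(4,0)]⟩⟩,⟨true,0,⟨0,[(45,0)]⟩,⟨0,[]⟩⟩,⟨false,1,⟨5,[(0,1),(16,1),(6,2),(0,3),(5,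
  3),(11,2)]⟩,⟨0,[(5,0),(21,0)]⟩⟩,[.e ⟨false,0,⟨1,[(3,0),(9,0),(27,0),(3,1)]⟩,⟨6,[(2,4),(7,1),(1,1),
  (4,0),(6,0),(15,1),(2,2)]⟩⟩ ⟨false,0,⟨0,[(0,0)]⟩,⟨3,[(5,3),(4,3),(12,0),(0,2)]⟩⟩,.o ⟨false,1,⟨15,
  [(13,11),(3,7),(5,0),(0,0),(6,15),(11,1)]⟩,⟨0,[(10,0)]⟩⟩,.o ⟨false,1,⟨3,[(1,3),(21,0),(0,2)]⟩,⟨11,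
  [(0,5),(8,0),(0,3),(1,2),(12,5),(2,4),(7,2),(2,1)]⟩⟩,.a ⟨true,0,⟨0,[(26,0)]⟩,⟨0,[(25,0)]⟩⟩ ⟨false,
  0,⟨1,[(3,0),(9,0),(27,0)]⟩,⟨9,[(10,3),(1,3),(4,1),(5,0),(0,5),(18,6)]⟩⟩ ⟨true,0,⟨0,[(0,0)]⟩,⟨0,
  [(10,0),(15,0)]⟩⟩]⟩)))) (.Q [0,1,1,-1,0,0,0,0,1,0,0,-1] (.p false [0,0,0,1] [] (⟨0,[(23,0)]⟩,⟨0,
  [(22,0)]⟩) .k 0 (⟨0,[]⟩,⟨0,[]⟩) .k .k) (.I [0,0,2,1,-1,0,0,-1] (.Q [0,0,1,0,0,0,0,0,1,1,0,-1] (.p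
  false [0,0,0,1] [1] (⟨0,[(25,0)]⟩,⟨0,[(24,0)]⟩) .k 1 (⟨0,[]⟩,⟨0,[]⟩) .k .k) (.R ⟨2,false,false,
  true,[0,1],[0,0,0,1],[1],(⟨0,[]⟩,⟨0,[]⟩),(⟨0,[(26,0)]⟩,⟨0,[(25,0)]⟩),⟨0,[]⟩,.k,.k,.k,(.r 0 ⟨32,
  [(1,13),(3,3),(1,0),(2,7),(6,10),(0,3),(4,13),(1,3),(13,1)]⟩ ⟨1,[(13,0),(10,0),(20,0)]⟩),.k,.k,
  ⟨true,0,⟨0,[(5,0),(12,0),(6,0),(2,1)]⟩,⟨3,[(1,0),(0,1),(18,0),(2,0),(1,1),(2,0)]⟩⟩,⟨false,0,⟨0,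
  [(18,0),(6,0),(2,1)]⟩,⟨0,[(26,0),(15,0)]⟩⟩,⟨false,1,⟨13,[(3,1),(9,5),(9,1),(18,0),(0,2)]⟩,⟨9,[(1,
  3),(15,1),(5,0),(0,0),(15,3),(2,1)]⟩⟩,⟨true,0,⟨0,[(2,0)]⟩,⟨0,[(5,0),(34,0)]⟩⟩,⟨false,1,⟨1,[(42,0),
  (0,0)]⟩,⟨1,[(31,0),(0,0)]⟩⟩,⟨false,1,⟨3,[(0,3),(22,0),(0,0),(11,1)]⟩,⟨0,[(5,0)]⟩⟩,[.e ⟨true,0,⟨0,
  []⟩,⟨1,[(31,0),(0,0)]⟩⟩ ⟨true,0,⟨19,[(0,3),(0,7),(0,15),(14,3),(5,2),(0,2),(11,1),(3,3)]⟩,⟨0,[(5,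
  0)]⟩⟩,.a ⟨true,0,⟨0,[(0,0)]⟩,⟨0,[(5,0),(39,0)]⟩⟩ ⟨false,1,⟨1,[(42,0),(0,0)]⟩,⟨0,[(45,0)]⟩⟩ ⟨true,
  0,⟨14,[(0,8),(0,3),(0,5),(14,1),(10,0),(2,0),(4,3),(2,2)]⟩,⟨0,[(5,0),(39,0)]⟩⟩,.o ⟨false,1,⟨3,
  [(23,0),(0,0),(17,1)]⟩,⟨0,[(18,0),(9,1)]⟩⟩,.e ⟨false,1,⟨1,[(42,0),(0,0)]⟩,⟨1,[(31,0),(0,0)]⟩⟩
  ⟨false,1,⟨3,[(0,3),(22,0),(0,0),(11,1)]⟩,⟨0,[(5,0)]⟩⟩]⟩) (.R ⟨2,false,false,true,[0,1],[0,0,0,1],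
  [],(⟨0,[]⟩,⟨0,[]⟩),(⟨0,[(26,0)]⟩,⟨0,[(25,0)]⟩),⟨0,[]⟩,.k,.k,.k,(.r 0 ⟨50,[(0,0),(0,21),(3,5),(4,
  11),(6,16),(0,5),(4,21),(1,6),(13,2)]⟩ ⟨1,[(13,0),(10,0),(20,0)]⟩),.k,.k,⟨true,0,⟨1,[(0,0),(6,0),
  (17,0),(13,0)]⟩,⟨3,[(1,0),(0,1),(18,0),(2,0),(1,1),(2,0)]⟩⟩,⟨false,0,⟨3,[(0,0),(0,0),(0,0),(22,3),
  (2,0),(0,0),(6,0),(2,0)]⟩,⟨0,[(26,0),(15,0)]⟩⟩,⟨false,1,⟨13,[(3,1),(9,5),(9,1),(18,0),(0,2)]⟩,⟨9,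
  [(1,3),(15,1),(5,0),(0,0),(15,3),(2,1)]⟩⟩,⟨true,0,⟨0,[(2,0)]⟩,⟨0,[(5,0),(34,0)]⟩⟩,⟨false,1,⟨1,
  [(42,0),(0,0)]⟩,⟨1,[(31,0),(0,0)]⟩⟩,⟨false,1,⟨31,[(1,7),(0,11),(14,3),(5,6),(0,16),(0,19),(10,9),
  (6,5)]⟩,⟨0,[(5,0)]⟩⟩,[.a ⟨true,0,⟨3,[(2,1),(9,0),(8,0),(2,0),(0,2),(0,0),(18,0)]⟩,⟨0,[(5,0)]⟩⟩
  ⟨false,1,⟨3,[(23,0),(0,0),(17,1)]⟩,⟨0,[]⟩⟩ ⟨true,0,⟨12,[(1,5),(0,10),(14,2),(5,1),(0,2),(0,1),(10,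
  0),(3,1)]⟩,⟨0,[(5,0)]⟩⟩,.o ⟨false,1,⟨31,[(1,7),(0,11),(14,3),(5,6),(0,16),(0,19),(10,9),(6,5)]⟩,
  ⟨0,[(0,0)]⟩⟩,.o ⟨false,1,⟨3,[(23,0),(0,0),(17,1)]⟩,⟨3,[(0,0),(0,0),(0,0),(25,0),(0,0),(6,0),(2,
  0)]⟩⟩,.e ⟨false,1,⟨1,[(42,0),(0,0)]⟩,⟨1,[(31,0),(0,0)]⟩⟩ ⟨false,1,⟨31,[(1,7),(0,11),(14,3),(5,6),
  (0,16),(0,19),(10,9),(6,5)]⟩,⟨0,[(5,0)]⟩⟩]⟩)) (.K ⟨0,[1,1,-1],1,0,(⟨0,[(33,0),(3,0)]⟩,⟨0,[(10,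
  0)]⟩),.k,.k,(.r 0 ⟨3,[(9,3),(1,3),(10,0),(0,0),(18,1)]⟩ ⟨0,[(0,0),(39,0)]⟩),.k,.k,[⟨0,[(11,0),(28,
  0)]⟩,⟨0,[(0,0),(17,0),(1,0)]⟩,⟨0,[(24,0),(0,0),(2,0),(11,0)]⟩,⟨0,[(9,0)]⟩]⟩)) (.I [0,1,1,0,0,0,0,
  1,1] (.R ⟨1,false,false,true,[1,0,0,-1],[0,0,1],[1,0,0,0,0,0,0,0,-1],(⟨0,[(24,0)]⟩,⟨0,[(25,0)]⟩),
  (⟨0,[(34,0)]⟩,⟨0,[(33,0)]⟩),⟨0,[(3,0)]⟩,.k,.k,(.x (-1) ⟨11,[(10,3),(4,3),(6,4),(0,4),(11,1)]⟩ ⟨0,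
  [(37,0)]⟩),.k,(.r 0 ⟨0,[(4,0),(3,0),(15,0),(2,0),(0,0)]⟩ ⟨9,[(9,1),(1,1),(4,5),(5,2),(0,7),(18,
  0)]⟩),.k,⟨true,0,⟨0,[(6,0),(11,0)]⟩,⟨0,[(0,0)]⟩⟩,⟨false,0,⟨0,[(17,0),(6,0),(2,0)]⟩,⟨10,[(2,1),(1,
  3),(7,3),(7,9),(4,6),(1,0),(7,4)]⟩⟩,⟨true,0,⟨0,[]⟩,⟨0,[(44,0)]⟩⟩,⟨true,0,⟨0,[(0,0),(16,0),(6,0),
  (2,0)]⟩,⟨0,[(4,0),(21,0)]⟩⟩,⟨false,1,⟨0,[(39,0),(2,0)]⟩,⟨0,[(40,0)]⟩⟩,⟨true,0,⟨3,[(0,3),(8,2),(6,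
  0),(0,2),(6,3),(3,0),(9,1)]⟩,⟨0,[(4,0),(21,0),(13,0)]⟩⟩,[.o ⟨false,0,⟨0,[(28,0)]⟩,⟨0,[(26,0),(15,
  0)]⟩⟩,.e ⟨true,0,⟨0,[(4,0),(12,0),(6,0),(2,1)]⟩,⟨5,[(0,3),(7,0),(2,0),(11,0),(2,0),(2,0),(0,0)]⟩⟩
  ⟨true,0,⟨3,[(16,0),(7,3),(3,1),(1,1),(7,0),(1,0)]⟩,⟨2,[(0,2),(3,2),(3,1),(0,1),(17,0),(10,0)]⟩⟩,
  .o ⟨false,1,⟨1,[(25,1),(9,0),(5,0)]⟩,⟨0,[(17,0),(6,0),(2,1)]⟩⟩,.a ⟨true,0,⟨0,[(25,0)]⟩,⟨0,[(24,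
  0)]⟩⟩ ⟨false,1,⟨9,[(1,3),(10,1),(9,2),(1,3),(10,1),(5,0),(0,1)]⟩,⟨0,[(0,0),(17,0)]⟩⟩ ⟨true,0,⟨0,
  [(24,0),(3,0)]⟩,⟨2,[(0,2),(3,2),(3,1),(0,1),(17,0),(10,0)]⟩⟩]⟩) (.Q [0,1,1,-2,0,0,0,0,1,0,0,-1]
  (.p false [0,0,0,1] [] (⟨0,[(25,0)]⟩,⟨0,[(24,0)]⟩) .k 0 (⟨0,[]⟩,⟨0,[]⟩) .k .k) (.Q [0,0,3,0,-1,0,
  0,0,0,0,0,-1] (.p false [0,0,0,1] [] (⟨0,[(26,0)]⟩,⟨0,[(25,0)]⟩) .k 0 (⟨0,[]⟩,⟨0,[]⟩) .k .k) (.R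
  ⟨1,false,false,false,[0,0,0,1],[0,1],[1],(⟨0,[(27,0)]⟩,⟨0,[(26,0)]⟩),(⟨0,[(39,0)]⟩,⟨0,[(38,0)]⟩),
  ⟨3,[(4,0),(1,1),(2,0),(7,0),(4,0),(4,1),(0,0),(1,0)]⟩,.k,.k,(.r (-1) ⟨1,[(14,0),(10,0),(20,0)]⟩
  ⟨17,[(0,1),(1,1),(0,1),(7,5),(1,5),(4,3),(5,6),(19,0)]⟩),(.r (-1) ⟨1,[(14,0),(10,0),(20,0)]⟩ ⟨17,
  [(0,1),(1,1),(0,1),(7,5),(1,5),(4,3),(5,6),(19,0)]⟩),(.r (-2) ⟨3,[(14,3),(9,0),(0,2),(20,3)]⟩ ⟨0,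
  [(0,0),(2,0),(37,0)]⟩),.k,⟨false,1,⟨1,[(14,0),(28,0),(2,0)]⟩,⟨9,[(11,3),(1,3),(4,1),(5,0),(0,0),
  (18,1)]⟩⟩,⟨true,1,⟨0,[(27,0),(15,0)]⟩,⟨0,[(0,0)]⟩⟩,⟨false,0,⟨44,[(0,10),(1,23),(3,10),(7,5),(3,
  11),(5,4),(15,1)]⟩,⟨3,[(24,0),(0,2)]⟩⟩,⟨false,0,⟨0,[(3,0)]⟩,⟨11,[(0,1),(0,5),(22,2),(0,5),(0,3),
  (10,1),(6,2)]⟩⟩,⟨false,0,⟨31,[(2,29),(8,5),(1,5),(4,17),(5,0),(16,1),(2,4)]⟩,⟨27,[(1,7),(2,3),(9,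
  3),(9,6),(0,12),(1,7)]⟩⟩,⟨true,0,⟨0,[(3,0),(37,0)]⟩,⟨0,[(1,0)]⟩⟩,[.a ⟨true,0,⟨17,[(3,5),(9,3),(2,
  1),(5,7),(2,2),(0,7),(0,1),(7,3),(2,1),(5,0)]⟩,⟨0,[(42,0)]⟩⟩ ⟨true,0,⟨0,[]⟩,⟨5,[(0,1),(23,0),(0,
  0),(1,1)]⟩⟩ ⟨false,1,⟨3,[(3,1),(21,0),(1,1),(13,1),(1,2)]⟩,⟨11,[(0,4),(0,2),(6,2),(5,2),(11,3),
  (10,1)]⟩⟩,.e ⟨false,1,⟨1,[(43,0),(0,0)]⟩,⟨0,[(46,0)]⟩⟩ ⟨false,1,⟨1,[(3,1),(21,0),(17,0)]⟩,⟨29,[(0,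
  3),(0,17),(6,11),(2,5),(12,2),(1,7),(3,5),(6,0)]⟩⟩,.o ⟨false,0,⟨2,[(0,0),(25,1),(10,0)]⟩,⟨1,[(27,
  1),(9,0),(5,0)]⟩⟩,.o ⟨false,0,⟨11,[(0,7),(23,2),(0,2),(0,3),(10,1)]⟩,⟨1,[(3,0),(0,0),(1,0),(4,1),
  (2,0),(15,1)]⟩⟩]⟩) (.K ⟨0,[1,1,-1],1,0,(⟨0,[(35,0),(3,0)]⟩,⟨0,[(12,0)]⟩),.k,.k,(.r 0 ⟨3,[(11,3),
  (1,3),(10,0),(0,0),(18,1)]⟩ ⟨1,[(0,1),(0,2),(0,1),(3,0),(11,1)]⟩),.k,.k,[⟨1,[(1,0),(4,0),(6,1)]⟩,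
  ⟨4,[(0,1),(10,1),(2,2),(3,0),(3,2),(3,1),(13,0)]⟩,⟨1,[(1,0),(4,0),(19,1),(0,1),(2,1)]⟩,⟨0,[(11,
  0)]⟩]⟩)) (.I [1,0,1,1,0,0,0,0,1] (.Q [0,0,1,2,0,0,0,0,1,1,0,-1] (.p false [0,0,0,1] [1] (⟨0,[(27,
  0)]⟩,⟨0,[(26,0)]⟩) .k 1 (⟨0,[]⟩,⟨0,[]⟩) .k .k) (.Q [0,0,0,1,0,0,0,0,0,1,0,-1] (.p false [0,0,0,1]
  [1] (⟨0,[(28,0)]⟩,⟨0,[(27,0)]⟩) .k 1 (⟨0,[]⟩,⟨0,[]⟩) .k .k) (.R ⟨1,false,false,true,[1,0,0,-1],[0,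
  1],[0,0,0,-1,0,0,0,0,-1],(⟨0,[(28,0)]⟩,⟨0,[(29,0)]⟩),(⟨0,[(41,0)]⟩,⟨0,[(40,0)]⟩),⟨0,[(7,0)]⟩,.k,
  .k,(.x (-1) ⟨11,[(14,3),(4,3),(6,4),(0,4),(11,1)]⟩ ⟨0,[(41,0)]⟩),(.x (-1) ⟨11,[(14,3),(4,3),(6,4),
  (0,4),(11,1)]⟩ ⟨0,[(41,0)]⟩),(.r (-1) ⟨0,[(10,0),(5,0),(31,0)]⟩ ⟨26,[(1,1),(0,36),(0,1),(9,1),(1,
  5),(4,0),(5,4),(4,3),(7,0)]⟩),.k,⟨false,1,⟨0,[(1,0),(1,1),(0,1),(1,0),(0,0),(5,3),(6,2),(0,1),(19,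
  0),(2,13)]⟩,⟨0,[(2,0),(40,0)]⟩⟩,⟨true,0,⟨0,[(28,0)]⟩,⟨8,[(2,2),(3,1),(2,6),(1,1),(0,0),(4,0),(11,
  1),(1,1),(0,1),(8,4)]⟩⟩,⟨true,0,⟨0,[(44,0)]⟩,⟨0,[(43,0)]⟩⟩,⟨false,0,⟨0,[(1,0),(42,0)]⟩,⟨9,[(6,1),
  (1,1),(0,7),(6,3),(9,1),(12,0),(6,0)]⟩⟩,⟨false,1,⟨3,[(26,0),(0,0),(18,1)]⟩,⟨0,[]⟩⟩,⟨false,0,⟨0,
  [(1,0)]⟩,⟨8,[(6,1),(2,8),(6,4),(9,1),(15,0),(1,5)]⟩⟩,[.o ⟨false,0,⟨0,[(43,0)]⟩,⟨5,[(6,0),(9,0),(9,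
  0),(12,2),(2,1),(1,2)]⟩⟩,.a ⟨true,0,⟨49,[(1,10),(1,8),(11,0),(2,3),(5,8),(1,0),(1,25),(0,27),(7,
  7),(2,3)]⟩,⟨0,[(44,0)]⟩⟩ ⟨true,0,⟨3,[(4,1),(5,1),(9,0),(21,0),(1,4)]⟩,⟨0,[(2,0),(45,0)]⟩⟩ ⟨false,
  0,⟨0,[(0,0)]⟩,⟨1,[(16,0),(12,1),(9,0),(8,0)]⟩⟩,.o ⟨false,1,⟨1,[(29,1),(9,0),(5,0)]⟩,⟨0,[(21,0),(6,
  0),(2,1)]⟩⟩,.e ⟨false,1,⟨29,[(4,3),(11,15),(3,1),(5,12),(15,3),(3,0)]⟩,⟨0,[(2,0)]⟩⟩ ⟨false,0,⟨0,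
  [(0,0)]⟩,⟨17,[(6,12),(2,17),(6,0),(9,3),(15,1),(1,2)]⟩⟩]⟩) (.R ⟨1,false,false,true,[1,0,0,-1],[0,
  1],[0,0,0,-1,0,0,0,0,-1],(⟨0,[(28,0)]⟩,⟨0,[(29,0)]⟩),(⟨0,[(41,0)]⟩,⟨0,[(40,0)]⟩),⟨0,[(7,0)]⟩,.k,
  .k,(.x (-1) ⟨11,[(14,3),(4,3),(6,4),(0,4),(11,1)]⟩ ⟨0,[(41,0)]⟩),(.x (-1) ⟨11,[(14,3),(4,3),(6,4),
  (0,4),(11,1)]⟩ ⟨0,[(41,0)]⟩),(.r (-1) ⟨0,[(10,0),(5,0),(31,0)]⟩ ⟨26,[(1,1),(0,36),(0,1),(9,1),(1,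
  5),(4,0),(5,4),(4,3),(7,0)]⟩),.k,⟨false,1,⟨0,[(0,16),(0,2),(1,1),(0,1),(2,15),(5,3),(2,0),(3,2),
  (0,1),(19,15)]⟩,⟨0,[(2,0),(40,0)]⟩⟩,⟨true,0,⟨0,[(28,0)]⟩,⟨2,[(0,0),(1,0),(6,0),(19,0),(1,0),(2,
  0)]⟩⟩,⟨true,0,⟨0,[(44,0)]⟩,⟨0,[(43,0)]⟩⟩,⟨false,0,⟨0,[(1,0),(42,0)]⟩,⟨9,[(6,1),(1,1),(0,7),(6,3),
  (9,1),(12,0),(6,0)]⟩⟩,⟨false,1,⟨3,[(26,0),(0,0),(18,1)]⟩,⟨0,[]⟩⟩,⟨false,0,⟨0,[(1,0)]⟩,⟨4,[(0,3),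
  (8,0),(6,2),(9,1),(15,0)]⟩⟩,[.o ⟨false,0,⟨0,[(43,0)]⟩,⟨5,[(6,0),(9,0),(9,0),(12,2),(2,1),(1,2)]⟩⟩,
  .e ⟨true,0,⟨3,[(4,1),(5,1),(9,0),(21,0),(1,4)]⟩,⟨0,[(2,0),(45,0)]⟩⟩ ⟨true,0,⟨4,[(1,1),(13,0),(10,
  0),(1,2),(2,0)]⟩,⟨0,[(0,0)]⟩⟩,.o ⟨false,1,⟨1,[(29,1),(9,0),(5,0)]⟩,⟨0,[(21,0),(6,0),(2,1)]⟩⟩,.a
  ⟨true,0,⟨0,[(29,0)]⟩,⟨0,[(28,0)]⟩⟩ ⟨false,1,⟨29,[(4,3),(11,15),(3,1),(5,12),(15,3),(3,0)]⟩,⟨0,[(2,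
  0)]⟩⟩ ⟨true,0,⟨0,[(28,0),(14,0)]⟩,⟨0,[(0,0)]⟩⟩]⟩)) (.R ⟨1,true,false,true,[1,0,0,-1],[0,1],[0,0,0,
  -1,0,0,0,0,-1],(⟨0,[(27,0)]⟩,⟨0,[(28,0)]⟩),(⟨0,[(40,0)]⟩,⟨0,[(39,0)]⟩),⟨0,[(6,0)]⟩,.k,.k,(.x (-1)
  ⟨11,[(13,3),(4,3),(6,4),(0,4),(11,1)]⟩ ⟨0,[(40,0)]⟩),(.x (-1) ⟨11,[(13,3),(4,3),(6,4),(0,4),(11,
  1)]⟩ ⟨0,[(40,0)]⟩),(.r (-1) ⟨3,[(0,1),(14,1),(9,0),(1,1),(16,0),(2,1)]⟩ ⟨6,[(1,8),(10,1),(1,1),(4,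
  0),(5,0),(19,0)]⟩),.k,⟨false,1,⟨31,[(0,9),(2,7),(11,23),(3,3),(5,6),(1,9),(16,0)]⟩,⟨0,[(1,0),(40,
  0)]⟩⟩,⟨true,0,⟨0,[(27,0)]⟩,⟨2,[(0,0),(0,1),(6,0),(19,0),(1,0),(2,0)]⟩⟩,⟨true,0,⟨0,[(43,0)]⟩,⟨0,
  [(42,0)]⟩⟩,⟨false,0,⟨0,[(1,0),(25,0)]⟩,⟨2,[(0,0),(4,0),(1,1),(17,0),(12,0)]⟩⟩,⟨false,1,⟨3,[(25,0),
  (0,0),(18,1)]⟩,⟨0,[]⟩⟩,⟨true,0,⟨0,[(1,0),(25,0),(14,0)]⟩,⟨0,[(0,0)]⟩⟩,[]⟩)) (.I [0,0,2,2,-1,0,0,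
  -1] (.Q [0,0,-2,0,1,0,-1,0,0,0,1] (.p true [0,0,1] [] (⟨0,[(37,0)]⟩,⟨0,[(36,0)]⟩) .k 0 (⟨0,[]⟩,⟨0,
  []⟩) .k .k) (.K ⟨0,[1,1,-1],1,0,(⟨0,[(37,0),(3,0)]⟩,⟨0,[(14,0)]⟩),.k,.k,(.r 1 ⟨0,[(1,0)]⟩ ⟨7,[(16,
  9),(3,3),(5,2),(0,2),(20,9)]⟩),.k,.k,[⟨0,[(15,0),(28,0)]⟩,⟨0,[(0,0)]⟩,⟨0,[(28,0),(0,0),(2,0),(11,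
  0)]⟩,⟨0,[(13,0)]⟩]⟩) (.R ⟨1,false,false,false,[1,0,0,-1],[1,-1],[0,1,0,-1,0,0,0,0,-1],(⟨0,[(28,
  0)]⟩,⟨0,[(29,0)]⟩),(⟨0,[(40,0)]⟩,⟨0,[(41,0)]⟩),⟨0,[(7,0)]⟩,.k,.k,(.r 0 ⟨0,[(2,0)]⟩ ⟨19,[(1,7),(18,
  3),(5,8),(0,18)]⟩),(.r 0 ⟨4,[(1,1),(8,0),(9,0),(5,1)]⟩ ⟨1,[(16,0),(10,0),(20,0)]⟩),.k,.k,⟨true,
  (-1),⟨0,[(0,0),(1,0),(21,0)]⟩,⟨1,[(27,0),(18,0)]⟩⟩,⟨false,0,⟨2,[(0,0),(27,2),(2,0),(7,0)]⟩,⟨0,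
  [(29,0),(15,0)]⟩⟩,⟨false,0,⟨0,[(44,0)]⟩,⟨0,[(43,0),(2,0)]⟩⟩,⟨false,1,⟨29,[(0,11),(5,21),(9,3),(9,
  6),(1,29),(2,11),(7,8),(2,1)]⟩,⟨0,[(8,0),(34,0)]⟩⟩,⟨true,0,⟨0,[(48,0)]⟩,⟨0,[]⟩⟩,⟨false,1,⟨17,[(1,
  3),(4,9),(13,1),(5,0),(1,17),(2,3),(2,3),(4,6),(6,3)]⟩,⟨0,[(8,0),(39,0)]⟩⟩,[.a ⟨true,0,⟨0,[(44,
  0)]⟩,⟨71,[(3,19),(11,11),(2,3),(5,19),(1,0),(0,10),(0,47),(0,27),(7,7),(2,3)]⟩⟩ ⟨false,0,⟨0,[(2,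
  0),(45,0)]⟩,⟨27,[(1,3),(1,9),(2,1),(13,1),(6,16),(0,9),(10,4),(6,7)]⟩⟩ ⟨true,0,⟨2,[(0,0),(27,2),
  (2,0),(7,0),(4,2)]⟩,⟨6,[(1,0),(1,1),(20,0),(2,0),(1,4),(2,0)]⟩⟩,.o ⟨false,1,⟨4,[(0,0),(5,0),(9,1),
  (9,0),(4,0),(7,1),(2,0)]⟩,⟨0,[(43,0)]⟩⟩,.o ⟨false,1,⟨1,[(29,1),(9,0),(5,0)]⟩,⟨2,[(0,0),(27,2),(2,
  0),(7,0)]⟩⟩,.e ⟨false,0,⟨0,[(2,0)]⟩,⟨9,[(1,3),(18,1),(5,1),(0,6),(18,4)]⟩⟩ ⟨false,1,⟨4,[(0,0),(5,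
  0),(9,1),(9,0),(1,4),(2,0),(7,1),(2,0)]⟩,⟨6,[(1,0),(1,1),(20,0),(2,0),(1,4),(2,0)]⟩⟩]⟩)) (.Q [0,0,
  -2,0,1,0,-1,0,0,-1,1,1] (.p true [0,0,1] [1,0,0,-1] (⟨0,[(37,0)]⟩,⟨0,[(36,0)]⟩) .k 2 (⟨0,[(27,
  0)]⟩,⟨0,[(28,0)]⟩) .k (.r (-1) ⟨19,[(0,3),(18,7),(5,2),(0,12)]⟩ ⟨9,[(1,0),(1,2),(7,1),(2,2),(10,
  2),(3,2)]⟩)) (.Q [0,0,0,1,0,0,-1,-1,0,-1,1,1] (.p true [0,0,1] [1,0,0,-1] (⟨0,[(38,0)]⟩,⟨0,[(37,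
  0)]⟩) .k 2 (⟨0,[(28,0)]⟩,⟨0,[(29,0)]⟩) .k (.r (-1) ⟨19,[(1,3),(18,7),(5,2),(0,12)]⟩ ⟨9,[(2,0),(1,
  2),(7,1),(2,2),(10,2),(3,2)]⟩)) (.R ⟨1,false,false,false,[1,0,0,-1],[0,-1,1],[0,1,0,-1,0,0,0,0,
  -1],(⟨0,[(29,0)]⟩,⟨0,[(30,0)]⟩),(⟨0,[(15,0)]⟩,⟨0,[(38,0),(3,0)]⟩),⟨0,[(8,0)]⟩,.k,.k,(.r 0 ⟨0,[(3,
  0)]⟩ ⟨19,[(14,7),(1,7),(4,3),(5,6),(0,16),(18,3)]⟩),(.x (-2) ⟨7,[(18,3),(8,2),(0,2),(13,11),(3,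
  9)]⟩ ⟨0,[(12,0),(29,0)]⟩),.k,.k,⟨true,(-1),⟨0,[(3,0),(12,0),(14,0)]⟩,⟨3,[(7,1),(13,1),(24,0),(0,
  0)]⟩⟩,⟨false,0,⟨0,[(29,0),(5,0)]⟩,⟨0,[(1,0)]⟩⟩,⟨false,0,⟨0,[(45,0)]⟩,⟨0,[(44,0),(2,0)]⟩⟩,⟨false,1,
  ⟨35,[(2,9),(4,21),(13,12),(5,3),(1,35),(5,35),(7,6),(1,6)]⟩,⟨0,[(9,0),(4,0)]⟩⟩,⟨true,0,⟨0,[(49,
  0)]⟩,⟨0,[]⟩⟩,⟨false,1,⟨15,[(7,7),(13,7),(4,3),(0,0),(0,0),(0,15),(5,7),(4,1),(6,3)]⟩,⟨0,[(9,0),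
  (21,0)]⟩⟩,[.a ⟨true,0,⟨0,[(2,0),(13,0)]⟩,⟨0,[(0,0),(28,0)]⟩⟩ ⟨false,0,⟨0,[(3,0),(45,0)]⟩,⟨41,[(4,
  15),(9,3),(1,3),(4,1),(6,28),(0,15),(10,7),(2,5),(3,8)]⟩⟩ ⟨true,0,⟨3,[(21,0),(7,3),(3,1),(1,1),(7,
  0),(1,4)]⟩,⟨0,[(0,0)]⟩⟩,.o ⟨false,1,⟨29,[(2,17),(18,5),(4,1),(8,25),(4,0),(2,3),(3,10)]⟩,⟨0,[(14,
  0)]⟩⟩,.o ⟨false,1,⟨15,[(1,7),(24,3),(0,0),(0,0),(1,7),(9,5)]⟩,⟨0,[(22,0),(6,0),(2,1)]⟩⟩,.e ⟨false,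
  0,⟨0,[(3,0)]⟩,⟨9,[(14,3),(1,3),(4,1),(5,0),(0,5),(18,6)]⟩⟩ ⟨false,1,⟨29,[(2,17),(18,5),(4,1),(2,
  29),(5,25),(4,0),(2,3),(3,10)]⟩,⟨0,[(0,0)]⟩⟩]⟩) (.R ⟨1,false,false,false,[1,0,0,-1],[0,-1,1],[0,1,
  0,-1,0,0,0,0,-1],(⟨0,[(29,0)]⟩,⟨0,[(30,0)]⟩),(⟨0,[(15,0)]⟩,⟨0,[(38,0),(3,0)]⟩),⟨0,[(8,0)]⟩,.k,.k,
  (.r 0 ⟨0,[(3,0)]⟩ ⟨19,[(14,7),(1,7),(4,3),(5,6),(0,16),(18,3)]⟩),(.x (-2) ⟨7,[(18,3),(8,2),(0,2),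
  (13,11),(3,9)]⟩ ⟨0,[(12,0),(29,0)]⟩),.k,.k,⟨true,(-1),⟨0,[(3,0),(12,0),(14,0)]⟩,⟨3,[(7,1),(13,1),
  (24,0),(0,0)]⟩⟩,⟨false,0,⟨0,[(29,0),(5,0)]⟩,⟨0,[(1,0)]⟩⟩,⟨false,0,⟨0,[(45,0)]⟩,⟨0,[(44,0),(2,
  0)]⟩⟩,⟨false,1,⟨23,[(0,13),(6,17),(8,2),(4,4),(5,5),(1,9),(2,2),(2,9),(11,2)]⟩,⟨0,[(9,0),(4,0)]⟩⟩,
  ⟨true,0,⟨0,[(49,0)]⟩,⟨0,[]⟩⟩,⟨false,1,⟨5,[(0,1),(20,1),(6,2),(0,3),(5,3),(11,2)]⟩,⟨0,[(9,0),(21,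
  0)]⟩⟩,[.e ⟨false,0,⟨0,[(3,0),(45,0)]⟩,⟨41,[(4,15),(9,3),(1,3),(4,1),(6,28),(0,15),(10,7),(2,5),(3,
  8)]⟩⟩ ⟨false,0,⟨0,[(0,0)]⟩,⟨51,[(1,15),(2,11),(8,7),(0,35),(12,8),(0,14),(1,23),(16,11)]⟩⟩,.o
  ⟨false,1,⟨29,[(2,17),(18,5),(4,1),(8,25),(4,0),(2,3),(3,10)]⟩,⟨0,[(14,0)]⟩⟩,.o ⟨false,1,⟨15,[(1,
  7),(24,3),(0,0),(0,0),(1,7),(9,5)]⟩,⟨11,[(0,5),(12,0),(0,3),(1,2),(12,5),(2,4),(7,2),(2,1)]⟩⟩,.a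
  ⟨true,0,⟨0,[(30,0)]⟩,⟨0,[(29,0)]⟩⟩ ⟨false,0,⟨0,[(3,0)]⟩,⟨9,[(14,3),(1,3),(4,1),(5,0),(0,5),(18,
  6)]⟩⟩ ⟨true,0,⟨0,[(0,0)]⟩,⟨0,[(14,0),(15,0)]⟩⟩]⟩)) (.K ⟨1,[1,-1,0,-1],0,0,(⟨0,[(7,0)]⟩,⟨0,[(29,0),
  (11,0)]⟩),(.r 0 ⟨0,[(2,0)]⟩ ⟨19,[(13,7),(1,7),(4,3),(5,6),(0,16),(18,3)]⟩),(.r (-1) ⟨2,[(1,1),(0,
  0),(9,0),(13,0)]⟩ ⟨35,[(0,1),(2,1),(9,27),(1,25),(4,13),(6,18),(14,3),(3,8)]⟩),.k,.k,.k,[⟨5,[(0,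
  1),(25,0),(0,0),(0,3),(6,1)]⟩,⟨16,[(3,0),(2,6),(2,12),(1,5),(1,3),(1,0),(1,2),(11,2),(1,0),(0,3),
  (8,14)]⟩,⟨1,[(0,0),(23,0),(2,0),(0,0),(14,0)]⟩,⟨0,[(8,0),(35,0)]⟩]⟩)))))))))) (.I [0,-1,0,-1,0,0,
  0,0,-1] (.R ⟨1,false,false,true,[1,0,0,-1],[0,1],[0,0,0,-1,0,0,0,0,-1],(⟨0,[(20,0)]⟩,⟨0,[(21,
  0)]⟩),(⟨0,[(33,0)]⟩,⟨0,[(32,0)]⟩),⟨5,[(0,3),(0,3),(3,2),(0,0),(3,0),(0,2),(0,0),(7,1),(3,0)]⟩,.k,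
  .k,(.x (-1) ⟨11,[(6,3),(4,3),(6,4),(0,4),(11,1)]⟩ ⟨0,[(33,0)]⟩),(.x (-1) ⟨11,[(6,3),(4,3),(6,4),
  (0,4),(11,1)]⟩ ⟨0,[(33,0)]⟩),(.r (-1) ⟨0,[(2,0),(5,0),(31,0)]⟩ ⟨5,[(5,3),(1,3),(4,1),(6,2),(14,1),
  (0,1),(2,0)]⟩),.k,⟨false,1,⟨0,[(0,1),(0,0),(3,1),(2,0),(3,0),(0,0),(7,0),(14,0)]⟩,⟨16,[(1,2),(3,
  15),(1,6),(4,7),(0,5),(2,2),(2,6),(1,2),(12,0)]⟩⟩,⟨true,0,⟨0,[(20,0)]⟩,⟨0,[(13,0),(7,0),(1,1)]⟩⟩,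
  ⟨true,0,⟨0,[(36,0)]⟩,⟨0,[(35,0)]⟩⟩,⟨false,0,⟨4,[(1,2),(3,1),(1,1),(4,0),(6,0),(0,1),(17,0)]⟩,⟨1,
  [(0,1),(20,1),(9,0),(5,0)]⟩⟩,⟨false,1,⟨3,[(18,0),(0,0),(18,1)]⟩,⟨0,[]⟩⟩,⟨false,0,⟨0,[(1,0),(32,0),
  (0,1)]⟩,⟨11,[(0,9),(7,5),(9,0),(2,11),(0,1),(1,1),(6,4),(4,1)]⟩⟩,[.o ⟨false,0,⟨0,[(35,0)]⟩,⟨1,[(0,
  1),(18,0),(11,0)]⟩⟩,.a ⟨true,0,⟨3,[(10,0),(2,0),(2,3),(12,1),(2,0),(1,1)]⟩,⟨0,[(36,0)]⟩⟩ ⟨true,0,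
  ⟨0,[(0,0)]⟩,⟨6,[(1,0),(3,1),(1,2),(4,0),(3,0),(2,2),(1,0),(0,1),(1,1)]⟩⟩ ⟨false,0,⟨1,[(0,0),(0,0),
  (3,0),(6,0),(0,0),(0,0),(1,0),(3,0)]⟩,⟨1,[(8,0),(12,1),(9,0),(8,0)]⟩⟩,.o ⟨false,1,⟨1,[(21,1),(9,
  0),(5,0)]⟩,⟨2,[(0,1),(0,1),(3,0),(1,0),(12,0),(2,0),(0,0),(6,0)]⟩⟩,.e ⟨false,1,⟨5,[(0,1),(7,1),(9,
  1),(18,0),(0,0)]⟩,⟨0,[(1,0),(3,0),(15,0),(2,0),(9,0)]⟩⟩ ⟨false,0,⟨1,[(0,0),(0,0),(3,0),(6,0),(0,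
  0),(0,0),(1,0),(3,0)]⟩,⟨1,[(0,1),(18,0),(1,1),(9,0)]⟩⟩]⟩) (.Q [0,0,-2,0,1,0,0,0,0,-1,0,1] (.p
  true [0,0,0,1] [1] (⟨0,[(21,0)]⟩,⟨0,[(20,0)]⟩) .k 1 (⟨0,[]⟩,⟨0,[]⟩) .k .k) (.Q [0,0,0,0,0,0,1,1,0,
  1,-1,-1] (.p false [0,0,1] [1,0,0,-1] (⟨0,[(31,0)]⟩,⟨0,[(30,0)]⟩) .k 2 (⟨0,[(21,0)]⟩,⟨0,[(22,
  0)]⟩) .k (.r (-1) ⟨7,[(9,1),(3,3),(5,0),(0,4),(20,1)]⟩ ⟨5,[(3,3),(1,1),(0,0),(1,0),(6,0),(3,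
  0)]⟩)) (.R ⟨1,false,false,true,[1,0,0,-1],[0,1],[1,1,0,0,0,0,0,0,-1],(⟨0,[(22,0)]⟩,⟨0,[(23,0)]⟩),
  (⟨0,[(35,0)]⟩,⟨0,[(34,0)]⟩),⟨2,[(0,2),(5,0),(1,1),(2,0),(4,0),(1,0)]⟩,.k,.k,(.x (-1) ⟨11,[(8,3),
  (4,3),(6,4),(0,4),(11,1)]⟩ ⟨0,[(35,0)]⟩),(.x (-1) ⟨11,[(8,3),(4,3),(6,4),(0,4),(11,1)]⟩ ⟨0,[(35,
  0)]⟩),(.r (-1) ⟨0,[(4,0),(5,0),(31,0)]⟩ ⟨15,[(2,1),(4,11),(1,11),(4,5),(6,6),(14,1),(3,4)]⟩),.k,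
  ⟨false,1,⟨1,[(4,1),(5,0),(28,0),(2,0)]⟩,⟨11,[(2,5),(4,1),(1,2),(4,0),(6,2),(3,0),(10,3)]⟩⟩,⟨true,
  0,⟨0,[(22,0)]⟩,⟨2,[(1,0),(4,0),(2,0),(13,1),(1,2),(0,1),(9,0)]⟩⟩,⟨false,0,⟨0,[]⟩,⟨3,[(20,0),(0,0),
  (18,1)]⟩⟩,⟨false,0,⟨4,[(3,2),(3,1),(1,1),(4,0),(6,0),(0,1),(17,0)]⟩,⟨2,[(1,0),(2,2),(5,0),(12,1),
  (9,0),(2,0),(1,0)]⟩⟩,⟨true,0,⟨0,[(37,0)]⟩,⟨0,[(38,0)]⟩⟩,⟨false,0,⟨0,[(2,0),(19,0),(13,0),(0,0)]⟩,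
  ⟨2,[(1,0),(2,2),(5,0),(12,1),(9,0),(2,0),(1,3)]⟩⟩,[.o ⟨false,0,⟨0,[(37,0)]⟩,⟨3,[(10,1),(14,1),(2,
  1),(4,0),(6,0)]⟩⟩,.a ⟨true,0,⟨3,[(12,0),(2,0),(2,3),(12,1),(2,0),(1,1)]⟩,⟨0,[(38,0)]⟩⟩ ⟨true,0,⟨0,
  [(4,0)]⟩,⟨3,[(2,1),(6,0),(11,0),(3,0),(10,0),(1,2)]⟩⟩ ⟨false,0,⟨0,[(0,0),(15,0),(1,0)]⟩,⟨1,[(10,
  0),(12,1),(9,0),(8,0)]⟩⟩,.o ⟨false,1,⟨7,[(1,3),(18,0),(0,0),(1,3),(9,1)]⟩,⟨3,[(0,1),(5,0),(2,0),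
  (12,1),(2,2),(7,0)]⟩⟩,.e ⟨false,1,⟨1,[(20,0),(18,0)]⟩,⟨0,[(2,0),(33,0),(1,0)]⟩⟩ ⟨false,0,⟨0,[(0,
  0),(15,0),(1,0)]⟩,⟨3,[(10,1),(12,3),(1,1),(2,1),(4,0),(6,0)]⟩⟩]⟩) (.R ⟨1,false,false,false,[0,0,0,
  1],[0,0,1],[1,1,0,0,0,0,0,0,1],(⟨0,[(23,0)]⟩,⟨0,[(22,0)]⟩),(⟨0,[(32,0)]⟩,⟨0,[(31,0)]⟩),⟨3,[(0,1),
  (4,0),(4,0),(2,0),(0,0),(0,0),(2,0),(4,1)]⟩,.k,.k,(.r (-1) ⟨1,[(10,0),(10,0),(20,0)]⟩ ⟨6,[(4,2),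
  (2,1),(1,1),(4,0),(5,1),(15,1),(0,1)]⟩),.k,(.r (-1) ⟨7,[(6,3),(3,1),(9,0),(0,4),(20,1)]⟩ ⟨6,[(4,
  4),(2,0),(1,0),(4,3),(5,0),(15,0),(0,0)]⟩),.k,⟨true,0,⟨4,[(2,2),(3,1),(2,0),(11,0),(2,0),(13,1),
  (3,0)]⟩,⟨1,[(4,1),(9,0),(21,0),(1,0)]⟩⟩,⟨false,1,⟨7,[(1,3),(13,3),(4,0),(0,0),(1,3),(15,1)]⟩,⟨0,
  [(22,0),(2,0)]⟩⟩,⟨false,0,⟨0,[]⟩,⟨3,[(20,0),(0,0),(18,1)]⟩⟩,⟨false,1,⟨16,[(1,7),(2,6),(5,3),(3,7),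
  (0,7),(4,4),(2,8),(2,0),(9,6)]⟩,⟨0,[(3,0),(21,0),(4,0)]⟩⟩,⟨true,0,⟨0,[(37,0)]⟩,⟨0,[(38,0)]⟩⟩,
  ⟨false,1,⟨3,[(1,2),(2,1),(9,1),(0,2),(2,1),(1,0),(2,0),(12,2)]⟩,⟨3,[(3,3),(2,1),(18,3),(2,0),(0,
  0),(8,1)]⟩⟩,[.a ⟨true,0,⟨3,[(12,0),(1,1),(0,0),(15,1),(2,0),(3,1)]⟩,⟨0,[(0,0),(21,0)]⟩⟩ ⟨true,0,
  ⟨0,[(2,0),(35,0)]⟩,⟨5,[(4,3),(4,0),(10,0),(4,0),(10,2),(1,0)]⟩⟩ ⟨false,1,⟨4,[(1,1),(8,0),(3,1),(0,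
  1),(7,2),(2,0),(12,1)]⟩,⟨0,[(22,0),(2,0),(4,0)]⟩⟩,.o ⟨false,1,⟨0,[(26,0),(13,0)]⟩,⟨0,[(24,0)]⟩⟩,
  .o ⟨false,0,⟨0,[(15,0),(6,0),(2,1)]⟩,⟨7,[(1,3),(18,0),(0,0),(1,3),(9,1)]⟩⟩,.o ⟨false,0,⟨0,[(22,0),
  (2,0),(2,0)]⟩,⟨0,[(1,0)]⟩⟩]⟩)) (.R ⟨1,false,false,true,[1,0,0,-1],[0,1],[1,1,0,0,0,0,0,0,-1],(⟨0,
  [(21,0)]⟩,⟨0,[(22,0)]⟩),(⟨0,[(34,0)]⟩,⟨0,[(33,0)]⟩),⟨2,[(0,2),(5,2),(2,2),(1,0),(0,1),(0,1),(0,0),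
  (0,0),(1,0)]⟩,.k,.k,(.x (-1) ⟨11,[(7,3),(4,3),(6,4),(0,4),(11,1)]⟩ ⟨0,[(34,0)]⟩),(.x (-1) ⟨11,[(7,
  3),(4,3),(6,4),(0,4),(11,1)]⟩ ⟨0,[(34,0)]⟩),(.r (-1) ⟨0,[(3,0),(5,0),(31,0)]⟩ ⟨15,[(1,1),(4,11),
  (1,11),(4,5),(6,6),(14,1),(3,4)]⟩),.k,⟨false,1,⟨1,[(3,1),(5,0),(28,0),(2,0)]⟩,⟨11,[(1,5),(4,1),(1,
  2),(4,0),(6,2),(3,0),(10,3)]⟩⟩,⟨true,0,⟨0,[(21,0)]⟩,⟨0,[(14,0),(7,0),(1,1)]⟩⟩,⟨false,0,⟨0,[]⟩,⟨3,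
  [(19,0),(0,0),(18,1)]⟩⟩,⟨false,0,⟨1,[(0,0),(0,1),(19,0),(17,0)]⟩,⟨0,[(3,0),(2,0),(2,0),(12,0),(2,
  0),(9,0)]⟩⟩,⟨true,0,⟨0,[(36,0)]⟩,⟨0,[(37,0)]⟩⟩,⟨false,0,⟨0,[(1,0),(19,0),(13,0),(0,0)]⟩,⟨0,[(3,0),
  (5,0),(4,0),(7,0),(1,1)]⟩⟩,[.o ⟨false,0,⟨0,[(36,0)]⟩,⟨3,[(9,1),(14,1),(2,1),(4,0),(6,0)]⟩⟩,.a
  ⟨true,0,⟨3,[(11,0),(2,0),(2,3),(12,1),(2,0),(1,1)]⟩,⟨0,[(37,0)]⟩⟩ ⟨true,0,⟨0,[(3,0)]⟩,⟨3,[(1,1),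
  (6,0),(11,0),(3,0),(10,0),(1,2)]⟩⟩ ⟨false,0,⟨0,[(0,0),(5,0),(2,0),(3,0),(0,0),(0,0),(1,0)]⟩,⟨1,
  [(9,0),(12,1),(9,0),(8,0)]⟩⟩,.o ⟨false,1,⟨1,[(22,1),(9,0),(5,0)]⟩,⟨1,[(0,0),(20,0),(10,0)]⟩⟩,.e
  ⟨false,1,⟨1,[(19,0),(18,0)]⟩,⟨0,[(1,0),(33,0),(1,0)]⟩⟩ ⟨false,0,⟨0,[(0,0),(5,0),(2,0),(3,0),(0,0),
  (0,0),(1,0)]⟩,⟨3,[(9,1),(12,3),(1,1),(2,1),(4,0),(6,0)]⟩⟩]⟩)))))))) (.R ⟨0,false,false,true,[0,0,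
  1],[1,0,-1],[0,1,1],(⟨0,[(24,0)]⟩,⟨0,[(23,0)]⟩),(⟨0,[(23,0)]⟩,⟨0,[(24,0)]⟩),⟨0,[(0,0)]⟩,.k,.k,.k,
  .k,.k,.k,⟨true,0,⟨3,[(6,1),(13,0),(0,0),(8,1)]⟩,⟨0,[(22,0)]⟩⟩,⟨false,1,⟨0,[(2,0),(3,0),(1,0),(1,
  0),(5,0)]⟩,⟨0,[(11,0)]⟩⟩,⟨false,0,⟨2,[(19,1),(0,1),(1,0),(5,0)]⟩,⟨7,[(2,1),(3,3),(21,1),(2,4),(0,
  0)]⟩⟩,⟨true,0,⟨0,[(8,0),(1,0),(5,0),(13,0)]⟩,⟨0,[(6,0),(0,0),(22,0)]⟩⟩,⟨false,0,⟨0,[]⟩,⟨0,[]⟩⟩,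
  ⟨false,0,⟨0,[]⟩,⟨0,[]⟩⟩,[.o ⟨false,0,⟨0,[(16,0)]⟩,⟨0,[(18,0),(13,0)]⟩⟩,.a ⟨true,0,⟨0,[(8,0),(1,0),
  (19,0)]⟩,⟨3,[(4,0),(1,1),(0,0),(15,1),(2,0),(3,1)]⟩⟩ ⟨true,0,⟨1,[(20,0),(0,0)]⟩,⟨0,[]⟩⟩ ⟨false,1,
  ⟨3,[(2,1),(5,1),(1,3),(5,1),(0,1),(13,0),(0,0)]⟩,⟨1,[(6,0),(0,0),(3,0),(18,0)]⟩⟩,.o ⟨false,0,⟨0,
  [(7,0),(9,0)]⟩,⟨15,[(2,3),(7,7),(1,2),(0,2),(3,7),(7,3),(6,1)]⟩⟩,.o ⟨false,0,⟨0,[(20,0)]⟩,⟨0,[(17,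
  0),(13,0)]⟩⟩]⟩))

theorem ok54 : chk (cU (-1) true 10) t54 r26 = true := by decide +kernel

noncomputable def t72 : Tre :=
  (.Q [0,0,0,0,0,2,0,0,0,0,-1] (.p false [0,0,1] [] (⟨0,[(32,0)]⟩,⟨0,[(31,0)]⟩) .k 0 (⟨0,[]⟩,⟨0,
  []⟩) .k .k) (.Q [0,0,0,1,0,0,0,0,0,1] (.pp false [-1,1]) (.R ⟨0,false,false,false,[0,-1,1],[1,-1],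
  [1],(⟨0,[(10,0)]⟩,⟨0,[(33,0),(3,0)]⟩),(⟨0,[(36,0)]⟩,⟨0,[(37,0)]⟩),⟨0,[(1,0)]⟩,.k,.k,(.x 0 ⟨2,[(10,
  3),(1,0),(4,0),(12,4)]⟩ ⟨1,[(0,0),(0,1),(0,0),(6,0),(10,0)]⟩),.k,.k,.k,⟨true,0,⟨5,[(0,0),(5,0),(4,
  1),(18,2),(0,0),(7,1)]⟩,⟨0,[(40,0)]⟩⟩,⟨false,1,⟨19,[(2,11),(14,3),(4,2),(0,2),(11,1)]⟩,⟨1,[(21,0),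
  (2,0),(0,0)]⟩⟩,⟨false,0,⟨1,[(6,0),(8,0),(14,0),(7,0)]⟩,⟨10,[(9,8),(1,2),(8,3),(1,0),(0,0),(4,7),
  (2,3)]⟩⟩,⟨true,0,⟨0,[(4,0),(35,0)]⟩,⟨0,[(24,0),(0,0),(2,0)]⟩⟩,⟨false,0,⟨0,[]⟩,⟨0,[]⟩⟩,⟨false,0,⟨0,
  []⟩,⟨0,[]⟩⟩,[.a ⟨true,0,⟨0,[(40,0)]⟩,⟨0,[(0,0)]⟩⟩ ⟨true,0,⟨0,[]⟩,⟨1,[(30,0),(0,0)]⟩⟩ ⟨false,1,⟨0,
  [(2,0),(37,0)]⟩,⟨0,[(0,0),(29,0)]⟩⟩,.o ⟨false,1,⟨3,[(9,1),(17,1),(2,1),(4,0),(6,0)]⟩,⟨0,[(39,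
  0)]⟩⟩,.o ⟨false,0,⟨0,[(30,0)]⟩,⟨19,[(2,11),(14,3),(4,2),(0,2),(11,1)]⟩⟩,.o ⟨false,0,⟨1,[(30,2),(0,
  0)]⟩,⟨0,[(2,0)]⟩⟩]⟩) (.Q [0,1,-1,0,0,0,0,0,-1,0,0,1] (.p true [0,0,0,1] [] (⟨0,[(25,0)]⟩,⟨0,[(24,
  0)]⟩) .k 0 (⟨0,[]⟩,⟨0,[]⟩) .k .k) (.Q [0,1,1,0,0,0,0,0,1,0,0,-1] (.p false [0,0,0,1] [] (⟨0,[(26,
  0)]⟩,⟨0,[(25,0)]⟩) .k 0 (⟨0,[]⟩,⟨0,[]⟩) .k .k) (.K ⟨0,[0,0,0,1],0,0,(⟨0,[(27,0)]⟩,⟨0,[(26,0)]⟩),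
  .k,(.r (-1) ⟨27,[(7,3),(3,11),(10,3),(1,0),(0,14),(4,3)]⟩ ⟨2,[(1,2),(4,0),(6,0),(2,0),(9,2),(2,1),
  (2,1),(7,0)]⟩),(.x 0 ⟨0,[(39,0)]⟩ ⟨11,[(12,3),(1,3),(9,4),(0,4),(11,1)]⟩),.k,.k,[⟨0,[(27,0)]⟩,⟨0,
  [(26,0)]⟩,⟨0,[(1,0)]⟩,⟨0,[(0,0)]⟩]⟩) (.Q [0,0,0,0,0,1,0,0,0,-1,0,1] (.ed false [0,1,0,1] .k) (.R
  ⟨0,false,false,false,[1,0,0,-1],[1,0,-1],[0,1,0,0,0,0,0,0,-1],(⟨0,[(27,0)]⟩,⟨0,[(28,0)]⟩),(⟨0,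
  [(36,0)]⟩,⟨0,[(37,0)]⟩),⟨0,[(0,0)]⟩,.k,.k,(.x (-1) ⟨11,[(13,3),(1,3),(9,4),(0,4),(11,1)]⟩ ⟨0,[(40,
  0)]⟩),.k,.k,.k,⟨false,0,⟨0,[(1,0),(1,0),(19,0),(3,0),(3,0)]⟩,⟨1,[(26,0),(8,1),(9,0)]⟩⟩,⟨true,0,⟨0,
  [(27,0),(2,0)]⟩,⟨2,[(3,0),(13,0),(6,0),(3,2)]⟩⟩,⟨true,0,⟨0,[(47,0)]⟩,⟨0,[]⟩⟩,⟨false,1,⟨1,[(10,0),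
  (15,0),(0,1),(2,0),(2,0),(11,0)]⟩,⟨0,[(1,0),(29,0)]⟩⟩,⟨false,0,⟨0,[]⟩,⟨0,[]⟩⟩,⟨false,0,⟨0,[]⟩,⟨0,
  []⟩⟩,[.o ⟨false,0,⟨2,[(3,0),(3,0),(2,0)]⟩,⟨3,[(25,0),(0,0),(4,3),(13,1)]⟩⟩,.o ⟨false,1,⟨7,[(10,3),
  (14,0),(0,0),(11,1),(6,3)]⟩,⟨0,[(31,0)]⟩⟩,.o ⟨false,1,⟨1,[(1,0),(0,0),(23,0),(11,0)]⟩,⟨2,[(3,0),
  (13,0),(9,2),(2,1),(2,0)]⟩⟩,.a ⟨true,0,⟨0,[(28,0)]⟩,⟨0,[(27,0)]⟩⟩ ⟨false,0,⟨2,[(1,1),(0,0),(0,1),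
  (3,0),(8,0),(10,2)]⟩,⟨1,[(26,0),(6,0),(0,0),(10,0)]⟩⟩ ⟨true,0,⟨2,[(3,0),(3,0),(2,0),(16,2)]⟩,⟨0,
  [(28,0),(2,0)]⟩⟩]⟩) (.R ⟨1,false,false,false,[1,0,0,-1],[1,0,-1],[1,1,0,0,0,0,0,0,-1],(⟨0,[(27,
  0)]⟩,⟨0,[(28,0)]⟩),(⟨0,[(36,0)]⟩,⟨0,[(37,0)]⟩),⟨0,[(0,0)]⟩,.k,.k,(.x (-1) ⟨11,[(13,3),(1,3),(9,4),
  (0,4),(11,1)]⟩ ⟨0,[(40,0)]⟩),.k,(.x 0 ⟨2,[(3,0),(9,2),(3,0),(6,0)]⟩ ⟨14,[(4,8),(1,1),(5,1),(6,2),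
  (0,1),(2,3),(1,4),(0,5),(0,1),(6,0)]⟩),.k,⟨false,0,⟨0,[(1,0),(1,0),(19,0),(3,0),(3,0)]⟩,⟨1,[(26,
  0),(8,1),(9,0)]⟩⟩,⟨true,0,⟨0,[(27,0),(2,0)]⟩,⟨2,[(3,0),(13,0),(6,0),(3,2)]⟩⟩,⟨false,0,⟨0,[]⟩,⟨3,
  [(25,0),(0,0),(18,1)]⟩⟩,⟨false,1,⟨1,[(10,0),(15,0),(0,1),(2,0),(2,0),(11,0)]⟩,⟨0,[(1,0),(29,0)]⟩⟩,
  ⟨true,0,⟨0,[(42,0)]⟩,⟨0,[(43,0)]⟩⟩,⟨false,1,⟨23,[(9,15),(4,7),(10,0),(0,12),(0,23),(2,3),(2,11),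
  (4,1),(6,7)]⟩,⟨0,[(1,0),(29,0),(11,0)]⟩⟩,[.o ⟨false,0,⟨2,[(3,0),(3,0),(2,0)]⟩,⟨3,[(25,0),(0,0),(4,
  3),(13,1)]⟩⟩,.o ⟨false,1,⟨7,[(10,3),(14,0),(0,0),(11,1),(6,3)]⟩,⟨0,[(31,0)]⟩⟩,.o ⟨false,1,⟨1,[(1,
  0),(0,0),(23,0),(11,0)]⟩,⟨2,[(3,0),(13,0),(9,2),(2,1),(2,0)]⟩⟩,.a ⟨true,0,⟨0,[(28,0)]⟩,⟨0,[(27,
  0)]⟩⟩ ⟨false,0,⟨2,[(1,1),(0,0),(0,1),(3,0),(8,0),(10,2)]⟩,⟨1,[(26,0),(6,0),(0,0),(10,0)]⟩⟩ ⟨true,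
  0,⟨2,[(3,0),(3,0),(2,0),(16,2)]⟩,⟨0,[(28,0),(2,0)]⟩⟩]⟩))) (.Q [0,0,0,0,0,-1,0,0,0,1,0,-1] (.ed
  true [0,1,0,1] .k) (.I [1,-1,-2,-1,1,0,0,0,-1] (.R ⟨1,false,false,true,[1,0,0,-1],[0,1],[1,0,0,0,
  0,0,0,0,-1],(⟨0,[(27,0)]⟩,⟨0,[(28,0)]⟩),(⟨0,[(40,0)]⟩,⟨0,[(39,0)]⟩),⟨0,[(1,0)]⟩,.k,.k,(.x (-1)
  ⟨11,[(13,3),(1,3),(9,4),(0,4),(11,1)]⟩ ⟨0,[(40,0)]⟩),(.x (-1) ⟨11,[(13,3),(1,3),(9,4),(0,4),(11,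
  1)]⟩ ⟨0,[(40,0)]⟩),(.r (-1) ⟨1,[(0,1),(7,0),(22,0),(2,0)]⟩ ⟨11,[(2,11),(6,1),(4,3),(3,1),(9,11),
  (4,4),(0,2),(7,15)]⟩),.k,⟨false,1,⟨0,[(0,0)]⟩,⟨0,[(2,0),(25,0),(13,0),(4,0)]⟩⟩,⟨true,0,⟨0,[(27,
  0)]⟩,⟨2,[(3,0),(13,0),(10,2),(1,1),(2,0)]⟩⟩,⟨true,0,⟨0,[]⟩,⟨0,[(47,0)]⟩⟩,⟨false,0,⟨1,[(2,1),(15,
  0),(4,0),(3,0),(0,0),(18,0)]⟩,⟨0,[(3,0),(2,0)]⟩⟩,⟨false,1,⟨0,[(42,0),(2,0)]⟩,⟨0,[(43,0)]⟩⟩,⟨false,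
  0,⟨0,[(2,0),(15,0),(4,0)]⟩,⟨0,[(3,0),(2,0),(36,0)]⟩⟩,[.o ⟨false,0,⟨0,[(42,0)]⟩,⟨3,[(12,1),(17,1),
  (2,1),(4,0),(6,0)]⟩⟩,.o ⟨false,1,⟨3,[(25,0),(0,0),(15,3),(2,1)]⟩,⟨0,[(3,0)]⟩⟩,.o ⟨false,1,⟨1,[(28,
  1),(9,0),(5,0)]⟩,⟨2,[(3,0),(13,0),(9,2),(2,1),(2,0)]⟩⟩,.a ⟨true,0,⟨0,[(28,0)]⟩,⟨0,[(27,0)]⟩⟩
  ⟨false,1,⟨27,[(0,13),(4,1),(1,3),(6,3),(3,5),(6,6),(19,4)]⟩,⟨0,[(2,0),(25,0),(18,0)]⟩⟩ ⟨true,0,⟨0,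
  [(27,0),(14,0)]⟩,⟨0,[(3,0),(24,0)]⟩⟩]⟩) (.I [0,0,-2,-2,1,0,0,-1,-1] (.R ⟨1,false,false,true,[1,0,
  0,-1],[0,1,1],[0,1,0,-1,0,0,0,0,-1],(⟨0,[(28,0)]⟩,⟨0,[(29,0)]⟩),(⟨0,[(38,0),(2,0)]⟩,⟨0,[(23,0)]⟩),
  ⟨0,[(2,0)]⟩,.k,.k,(.x (-1) ⟨11,[(14,3),(1,3),(9,4),(0,4),(11,1)]⟩ ⟨0,[(41,0)]⟩),(.r (-1) ⟨7,[(0,
  3),(25,2),(0,0),(8,3)]⟩ ⟨7,[(1,5),(11,3),(1,5),(1,1),(6,1),(2,0),(17,0)]⟩),(.r (-1) ⟨0,[(0,0)]⟩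
  ⟨7,[(1,3),(13,7),(10,0),(0,2),(15,3)]⟩),.k,⟨false,1,⟨0,[(0,0)]⟩,⟨0,[(1,0),(13,0),(29,0)]⟩⟩,⟨true,
  0,⟨2,[(4,0),(13,0),(6,0),(2,2)]⟩,⟨0,[(29,0),(1,0)]⟩⟩,⟨false,0,⟨0,[(44,0)]⟩,⟨0,[(43,0),(2,0)]⟩⟩,
  ⟨false,0,⟨7,[(1,2),(1,2),(9,1),(1,2),(1,2),(1,2),(7,0),(0,4),(3,1)]⟩,⟨1,[(4,0),(2,1),(4,0)]⟩⟩,
  ⟨true,0,⟨0,[(48,0)]⟩,⟨0,[]⟩⟩,⟨false,0,⟨1,[(1,0),(1,0),(11,0),(1,0),(1,0),(8,0),(16,0)]⟩,⟨5,[(4,2),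
  (2,5),(1,3),(2,0),(8,1),(20,1)]⟩⟩,[.o ⟨false,0,⟨0,[(17,0)]⟩,⟨7,[(12,3),(0,1),(12,0),(0,0),(3,1),
  (2,1),(4,0),(6,2)]⟩⟩,.o ⟨false,1,⟨3,[(17,3),(8,0),(0,0),(18,1)]⟩,⟨1,[(4,0),(7,0)]⟩⟩,.o ⟨false,1,
  ⟨1,[(29,1),(9,0),(5,0)]⟩,⟨3,[(1,0),(1,0),(0,1),(13,0),(7,0),(1,2),(2,0)]⟩⟩,.a ⟨true,0,⟨0,[(29,
  0)]⟩,⟨0,[(28,0)]⟩⟩ ⟨false,1,⟨27,[(9,3),(3,11),(10,3),(1,14),(0,0),(4,3)]⟩,⟨1,[(1,0),(1,0),(2,0),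
  (12,0),(9,0),(12,0)]⟩⟩ ⟨true,0,⟨0,[(17,0),(10,0)]⟩,⟨1,[(4,0),(7,0),(16,1)]⟩⟩]⟩) (.R ⟨1,false,
  false,true,[1,0,0,-1],[0,-1,1],[0,1,0,-1,0,0,0,0,-1],(⟨0,[(28,0)]⟩,⟨0,[(29,0)]⟩),(⟨0,[(14,0)]⟩,⟨0,
  [(37,0),(3,0)]⟩),⟨0,[(2,0)]⟩,.k,.k,(.x (-1) ⟨11,[(14,3),(1,3),(9,4),(0,4),(11,1)]⟩ ⟨0,[(41,0)]⟩),
  (.x (-1) ⟨0,[(6,0),(30,0),(3,0)]⟩ ⟨1,[(14,1),(19,2),(0,0)]⟩),.k,.k,⟨true,0,⟨0,[(0,0),(8,0),(12,0),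
  (3,0)]⟩,⟨2,[(0,1),(0,0),(11,2),(10,0),(7,0)]⟩⟩,⟨false,0,⟨0,[(28,0),(5,0)]⟩,⟨0,[(6,0),(22,0)]⟩⟩,
  ⟨false,0,⟨0,[(44,0)]⟩,⟨0,[(43,0),(2,0)]⟩⟩,⟨false,0,⟨3,[(0,0),(2,0),(11,0),(9,0),(1,0),(0,2),(3,1),
  (11,6)]⟩,⟨0,[(7,0),(0,0)]⟩⟩,⟨true,0,⟨0,[(48,0)]⟩,⟨0,[]⟩⟩,⟨false,0,⟨3,[(0,0),(2,0),(11,0),(9,0),(1,
  0),(0,2),(3,1),(11,2)]⟩,⟨2,[(4,0),(2,2),(0,0),(2,0)]⟩⟩,[.o ⟨false,0,⟨0,[(32,0),(11,0)]⟩,⟨3,[(8,3),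
  (17,0),(0,0),(18,1)]⟩⟩,.o ⟨false,1,⟨7,[(13,3),(12,0),(0,0),(4,7),(1,3),(0,3),(10,1)]⟩,⟨0,[(8,
  0)]⟩⟩,.o ⟨false,1,⟨1,[(29,1),(9,0),(5,0)]⟩,⟨20,[(0,0),(0,5),(1,6),(0,11),(3,1),(8,0),(0,0),(7,6),
  (1,13)]⟩⟩,.a ⟨true,0,⟨0,[(29,0)]⟩,⟨0,[(28,0)]⟩⟩ ⟨false,1,⟨27,[(9,3),(3,11),(10,3),(1,14),(0,0),(4,
  3)]⟩,⟨3,[(0,1),(21,1),(4,0),(18,0)]⟩⟩ ⟨true,0,⟨0,[(28,0),(3,0),(11,0)]⟩,⟨0,[(8,0),(20,0)]⟩⟩]⟩)))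
  (.I [0,0,0,0,0,0,0,0,1] (.R ⟨0,false,false,false,[1,0,0,-1],[1,0,-1],[0,1,0,0,0,0,0,0,-1],(⟨0,
  [(27,0)]⟩,⟨0,[(28,0)]⟩),(⟨0,[(36,0)]⟩,⟨0,[(37,0)]⟩),⟨0,[(1,0)]⟩,.k,.k,(.x (-1) ⟨11,[(13,3),(1,3),
  (9,4),(0,4),(11,1)]⟩ ⟨0,[(40,0)]⟩),.k,.k,.k,⟨false,1,⟨0,[(3,0),(2,0),(16,0),(3,0),(3,0)]⟩,⟨0,[(0,
  0),(20,0)]⟩⟩,⟨true,0,⟨0,[(27,0),(2,0)]⟩,⟨2,[(3,0),(13,0),(6,0),(3,2)]⟩⟩,⟨true,0,⟨0,[(47,0)]⟩,⟨0,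
  []⟩⟩,⟨false,0,⟨2,[(0,0),(1,1),(7,0),(16,0),(4,0),(8,0)]⟩,⟨0,[(6,0),(24,0)]⟩⟩,⟨false,0,⟨0,[]⟩,⟨0,
  []⟩⟩,⟨false,0,⟨0,[]⟩,⟨0,[]⟩⟩,[.o ⟨false,0,⟨2,[(3,0),(3,0),(2,0)]⟩,⟨3,[(25,0),(0,0),(4,3),(13,
  1)]⟩⟩,.o ⟨false,1,⟨7,[(10,3),(14,0),(0,0),(11,1),(6,3)]⟩,⟨0,[(31,0)]⟩⟩,.o ⟨false,1,⟨1,[(28,1),(9,
  0),(5,0)]⟩,⟨2,[(3,0),(13,0),(9,2),(2,1),(2,0)]⟩⟩,.a ⟨true,0,⟨0,[(28,0)]⟩,⟨0,[(27,0)]⟩⟩ ⟨false,1,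
  ⟨1,[(25,0),(18,0)]⟩,⟨0,[(2,0),(25,0)]⟩⟩ ⟨true,0,⟨2,[(3,0),(3,0),(2,0),(16,2)]⟩,⟨0,[(28,0),(2,
  0)]⟩⟩]⟩) (.R ⟨0,false,false,true,[1,0,0,-1],[0,1],[0,1,0,0,0,0,0,0,-1],(⟨0,[(27,0)]⟩,⟨0,[(28,
  0)]⟩),(⟨0,[(40,0)]⟩,⟨0,[(39,0)]⟩),⟨0,[(1,0)]⟩,.k,.k,(.x (-1) ⟨11,[(13,3),(1,3),(9,4),(0,4),(11,
  1)]⟩ ⟨0,[(40,0)]⟩),(.x (-1) ⟨11,[(13,3),(1,3),(9,4),(0,4),(11,1)]⟩ ⟨0,[(40,0)]⟩),.k,.k,⟨false,1,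
  ⟨13,[(0,11),(7,1),(3,5),(10,1),(1,0),(5,1),(12,6)]⟩,⟨0,[(2,0),(25,0),(13,0)]⟩⟩,⟨true,0,⟨0,[(27,
  0)]⟩,⟨3,[(1,2),(11,0),(1,0),(12,0),(1,1),(2,1)]⟩⟩,⟨true,0,⟨0,[(47,0)]⟩,⟨0,[]⟩⟩,⟨false,0,⟨1,[(2,1),
  (15,0),(4,0),(3,0),(0,0),(18,0)]⟩,⟨0,[(3,0),(2,0)]⟩⟩,⟨false,0,⟨0,[]⟩,⟨0,[]⟩⟩,⟨false,0,⟨0,[]⟩,⟨0,
  []⟩⟩,[.o ⟨false,0,⟨0,[(42,0)]⟩,⟨3,[(12,1),(17,1),(2,1),(4,0),(6,0)]⟩⟩,.o ⟨false,1,⟨3,[(25,0),(0,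
  0),(15,3),(2,1)]⟩,⟨0,[(3,0)]⟩⟩,.o ⟨false,1,⟨1,[(28,1),(9,0),(5,0)]⟩,⟨5,[(0,1),(1,1),(0,0),(12,0),
  (10,3),(1,0),(0,1),(2,1)]⟩⟩,.a ⟨true,0,⟨0,[(28,0)]⟩,⟨0,[(27,0)]⟩⟩ ⟨false,1,⟨1,[(25,0),(18,0)]⟩,⟨0,
  [(2,0),(25,0)]⟩⟩ ⟨true,0,⟨0,[(27,0),(14,0)]⟩,⟨0,[(3,0),(24,0)]⟩⟩]⟩))))) (.Q [0,1,-1,0,0,0,0,0,-1,
  0,0,1] (.p true [0,0,0,1] [] (⟨0,[(24,0)]⟩,⟨0,[(23,0)]⟩) .k 0 (⟨0,[]⟩,⟨0,[]⟩) .k .k) (.Q [0,1,1,0,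
  0,0,0,0,1,0,0,-1] (.p false [0,0,0,1] [] (⟨0,[(25,0)]⟩,⟨0,[(24,0)]⟩) .k 0 (⟨0,[]⟩,⟨0,[]⟩) .k .k)
  (.K ⟨0,[0,0,0,1],0,0,(⟨0,[(26,0)]⟩,⟨0,[(25,0)]⟩),.k,(.r (-1) ⟨27,[(6,3),(3,11),(10,3),(1,0),(0,
  14),(4,3)]⟩ ⟨2,[(1,2),(3,0),(6,0),(2,0),(9,2),(2,1),(2,1),(7,0)]⟩),(.x 0 ⟨0,[(38,0)]⟩ ⟨15,[(2,3),
  (10,3),(9,6),(0,6),(11,1)]⟩),.k,.k,[⟨0,[(26,0)]⟩,⟨0,[(25,0)]⟩,⟨0,[(1,0)]⟩,⟨0,[(0,0)]⟩]⟩) (.Q [0,1,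
  1,-1,0,0,0,0,1,0,0,-1] (.p false [0,0,0,1] [] (⟨0,[(26,0)]⟩,⟨0,[(25,0)]⟩) .k 0 (⟨0,[]⟩,⟨0,[]⟩) .k
  .k) (.Q [0,1,1,0,0,0,0,0,1,1,0,-1] (.p false [0,0,0,1] [1] (⟨0,[(27,0)]⟩,⟨0,[(26,0)]⟩) .k 1 (⟨0,
  []⟩,⟨0,[]⟩) .k .k) (.R ⟨2,false,false,true,[0,1],[0,0,0,1],[1,1,0,0,0,0,0,0,1],(⟨0,[]⟩,⟨0,[]⟩),
  (⟨0,[(28,0)]⟩,⟨0,[(27,0)]⟩),⟨0,[]⟩,.k,.k,.k,(.r 0 ⟨3,[(2,0),(0,2),(3,1),(6,1),(12,3),(2,1),(2,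
  3)]⟩ ⟨59,[(0,3),(0,3),(1,7),(1,3),(2,3),(3,23),(12,0),(0,30),(4,3)]⟩),.k,.k,⟨true,0,⟨0,[]⟩,⟨1,
  [(33,0),(0,0)]⟩⟩,⟨false,0,⟨2,[(8,0),(8,1),(9,2),(2,2),(0,0),(9,0)]⟩,⟨1,[(2,0),(0,0),(22,0),(17,
  0)]⟩⟩,⟨false,1,⟨59,[(0,3),(0,3),(1,7),(1,3),(2,3),(3,23),(12,0),(0,30),(4,3)]⟩,⟨3,[(2,2),(0,0),(3,
  1),(6,1),(12,3),(2,1),(2,3)]⟩⟩,⟨true,0,⟨0,[(1,0)]⟩,⟨0,[(2,0),(39,0)]⟩⟩,⟨false,1,⟨1,[(26,0),(17,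
  0)]⟩,⟨0,[(2,0),(24,0),(2,0),(2,0)]⟩⟩,⟨false,1,⟨1,[(0,1),(37,0),(6,0)]⟩,⟨0,[(2,0)]⟩⟩,[.a ⟨true,0,
  ⟨0,[(0,0)]⟩,⟨0,[(2,0)]⟩⟩ ⟨false,1,⟨1,[(26,0),(17,0),(2,1)]⟩,⟨2,[(2,2),(5,0),(8,1),(9,2),(2,2),(0,
  0),(9,0)]⟩⟩ ⟨true,0,⟨2,[(0,1),(0,0),(15,0),(12,1),(2,0)]⟩,⟨0,[(2,0)]⟩⟩,.o ⟨false,1,⟨1,[(0,1),(37,
  0),(6,0)]⟩,⟨0,[(2,0),(4,0),(23,0),(11,0)]⟩⟩,.o ⟨false,1,⟨3,[(25,0),(0,0),(17,1)]⟩,⟨2,[(8,0),(8,1),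
  (12,2),(0,0),(9,0)]⟩⟩,.e ⟨false,1,⟨1,[(26,0),(17,0)]⟩,⟨0,[(2,0),(24,0),(2,0),(2,0)]⟩⟩ ⟨false,1,⟨1,
  [(0,1),(37,0),(6,0)]⟩,⟨0,[(2,0)]⟩⟩]⟩) (.Q [0,-1,-1,-2,0,0,1,1,-1,0,-1,1] (.p false [0,0,1] [0,0,0,
  1] (⟨0,[(37,0)]⟩,⟨0,[(36,0)]⟩) .k 2 (⟨0,[(28,0)]⟩,⟨0,[(27,0)]⟩) .k (.r 0 ⟨0,[(2,0),(24,0),(2,0),
  (0,0)]⟩ ⟨3,[(25,0),(0,2),(8,3)]⟩)) (.I [0,0,-1,-1,0,0,0,1,-1] (.Q [0,1,1,1,0,0,-1,-1,1,0,1,-1]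
  (.p true [0,0,1] [0,0,0,1] (⟨0,[(39,0)]⟩,⟨0,[(38,0)]⟩) .k 2 (⟨0,[(30,0)]⟩,⟨0,[(29,0)]⟩) .k (.r 0
  ⟨8,[(0,5),(4,2),(3,0),(6,3),(12,2),(2,1),(2,2),(8,0)]⟩ ⟨3,[(27,0),(0,2),(8,3)]⟩)) (.R ⟨1,true,
  false,true,[0,-1,1],[0,0,0,1],[1,1,-1,-1,0,0,0,1],(⟨0,[(16,0)]⟩,⟨0,[(39,0),(3,0)]⟩),(⟨0,[(31,0)]⟩,
  ⟨0,[(30,0)]⟩),⟨0,[(7,0)]⟩,.k,.k,(.r (-1) ⟨6,[(1,5),(2,0),(1,0),(8,3),(10,0),(2,2),(4,0)]⟩ ⟨5,[(12,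
  3),(4,1),(3,3),(14,6),(0,2),(7,1)]⟩),(.r 0 ⟨0,[(1,0)]⟩ ⟨11,[(0,7),(8,5),(2,1),(8,1),(7,4),(1,1),
  (4,9),(11,0)]⟩),(.r (-1) ⟨27,[(1,23),(2,3),(1,3),(8,15),(10,3),(1,6),(0,4),(4,3)]⟩ ⟨11,[(0,11),
  (11,0),(4,1),(2,7),(0,0),(9,11),(4,4),(7,4)]⟩),.k,⟨true,0,⟨0,[(1,0)]⟩,⟨6,[(0,5),(3,0),(15,1),(3,
  0),(6,6),(4,3),(7,2)]⟩⟩,⟨false,1,⟨19,[(8,11),(14,3),(4,2),(0,2),(0,19),(10,1)]⟩,⟨10,[(2,1),(1,1),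
  (6,0),(8,7),(3,0),(6,10),(4,0)]⟩⟩,⟨false,0,⟨0,[]⟩,⟨3,[(28,0),(0,0),(18,1)]⟩⟩,⟨true,0,⟨0,[(0,0)]⟩,
  ⟨2,[(2,1),(3,0),(12,0)]⟩⟩,⟨true,0,⟨0,[(45,0)]⟩,⟨0,[(46,0)]⟩⟩,⟨false,1,⟨0,[(0,0),(44,0),(2,0)]⟩,⟨0,
  [(2,0)]⟩⟩,[]⟩) (.R ⟨1,true,false,true,[0,0,1],[0,0,0,1],[0,1,0,-1,0,0,0,1],(⟨0,[(40,0)]⟩,⟨0,[(39,
  0)]⟩),(⟨0,[(31,0)]⟩,⟨0,[(30,0)]⟩),⟨0,[(16,0)]⟩,.k,.k,.k,.k,(.r 0 ⟨0,[(1,0)]⟩ ⟨3,[(12,1),(8,1),(6,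
  0),(0,2),(6,2),(0,0)]⟩),.k,⟨false,0,⟨0,[(1,0)]⟩,⟨3,[(12,1),(7,0),(0,0),(5,0),(0,0),(0,2)]⟩⟩,⟨true,
  0,⟨0,[(30,0),(2,0)]⟩,⟨10,[(2,1),(1,1),(6,0),(8,7),(3,0),(6,10),(4,0)]⟩⟩,⟨false,0,⟨0,[(46,0)]⟩,⟨0,
  [(45,0),(2,0)]⟩⟩,⟨true,0,⟨0,[(4,0),(19,0),(1,0)]⟩,⟨3,[(0,1),(4,0),(0,0),(12,1)]⟩⟩,⟨true,0,⟨0,[(50,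
  0)]⟩,⟨0,[]⟩⟩,⟨false,1,⟨13,[(4,5),(7,9),(4,5),(2,1),(0,1),(6,4),(0,8),(0,7),(5,1)]⟩,⟨0,[(0,0)]⟩⟩,
  []⟩)) (.R ⟨1,true,false,true,[0,-1,1],[0,0,0,1],[0,1,-1,-2,0,0,0,1],(⟨0,[(15,0)]⟩,⟨0,[(38,0),(3,
  0)]⟩),(⟨0,[(30,0)]⟩,⟨0,[(29,0)]⟩),⟨0,[(6,0)]⟩,.k,.k,(.r (-1) ⟨8,[(1,6),(1,2),(3,3),(6,2),(10,4),
  (2,1),(0,3),(3,1)]⟩ ⟨5,[(11,3),(4,1),(3,3),(14,6),(0,2),(7,1)]⟩),(.x 0 ⟨21,[(1,3),(1,3),(2,10),(3,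
  1),(8,15),(3,1),(11,1),(3,10)]⟩ ⟨4,[(7,0),(13,1),(5,1),(0,1),(9,0),(3,6)]⟩),(.r (-1) ⟨41,[(1,16),
  (3,10),(1,11),(2,1),(3,22),(7,15),(4,6),(1,27),(3,26)]⟩ ⟨11,[(0,11),(10,1),(4,3),(3,1),(14,4),(0,
  2),(7,3)]⟩),.k,⟨true,0,⟨0,[(1,0),(0,0),(0,0),(21,0),(3,0)]⟩,⟨11,[(0,11),(10,1),(4,3),(3,1),(14,4),
  (0,2),(7,3)]⟩⟩,⟨false,1,⟨19,[(7,11),(14,3),(4,2),(0,2),(0,19),(10,1)]⟩,⟨7,[(0,1),(0,1),(8,0),(8,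
  3),(10,5),(2,0),(1,0)]⟩⟩,⟨false,0,⟨0,[(45,0)]⟩,⟨0,[(44,0),(2,0)]⟩⟩,⟨true,0,⟨1,[(0,0),(2,0),(5,0),
  (15,0),(3,0)]⟩,⟨2,[(1,1),(3,0),(12,0)]⟩⟩,⟨true,0,⟨0,[(49,0)]⟩,⟨0,[]⟩⟩,⟨false,1,⟨1,[(0,1),(24,1),
  (3,1),(10,0),(6,0)]⟩,⟨0,[(1,0)]⟩⟩,[]⟩)) (.Q [0,0,0,0,0,1,0,0,0,-1,0,1] (.ed false [0,1,0,1] .k)
  (.R ⟨0,false,false,false,[1,0,0,-1],[1,0,-1],[0,1,0,0,0,0,0,0,-1],(⟨0,[(29,0)]⟩,⟨0,[(30,0)]⟩),(⟨0,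
  [(38,0)]⟩,⟨0,[(39,0)]⟩),⟨0,[(0,0)]⟩,.k,.k,(.x (-1) ⟨15,[(6,3),(10,3),(9,6),(0,6),(11,1)]⟩ ⟨0,[(42,
  0)]⟩),.k,.k,.k,⟨false,0,⟨0,[(2,0),(22,0),(3,0),(3,0),(11,0)]⟩,⟨1,[(28,0),(8,1),(9,0)]⟩⟩,⟨true,0,
  ⟨0,[(29,0),(2,0)]⟩,⟨5,[(0,3),(5,0),(10,0),(8,2),(3,1)]⟩⟩,⟨true,0,⟨0,[(49,0)]⟩,⟨0,[]⟩⟩,⟨false,1,
  ⟨11,[(1,3),(1,5),(9,1),(14,0),(0,1),(4,3),(8,1),(3,10)]⟩,⟨0,[(4,0),(28,0)]⟩⟩,⟨false,0,⟨0,[]⟩,⟨0,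
  []⟩⟩,⟨false,0,⟨0,[]⟩,⟨0,[]⟩⟩,[.o ⟨false,0,⟨3,[(2,0),(0,0),(5,1),(3,0)]⟩,⟨3,[(27,0),(0,0),(4,3),
  (13,1)]⟩⟩,.o ⟨false,1,⟨7,[(12,3),(14,0),(0,0),(11,1),(6,3)]⟩,⟨0,[(33,0)]⟩⟩,.o ⟨false,1,⟨5,[(2,1),
  (2,2),(2,0),(19,2),(11,1)]⟩,⟨2,[(2,0),(0,0),(15,0),(9,2),(2,1),(2,0)]⟩⟩,.a ⟨true,0,⟨0,[(30,0)]⟩,
  ⟨0,[(29,0)]⟩⟩ ⟨false,0,⟨3,[(2,2),(2,0),(23,3),(1,0),(1,0)]⟩,⟨1,[(28,0),(6,0),(0,0),(10,0)]⟩⟩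
  ⟨true,0,⟨3,[(2,0),(0,0),(5,1),(3,0),(15,3)]⟩,⟨0,[(30,0),(2,0)]⟩⟩]⟩) (.R ⟨1,false,false,false,[1,0,
  0,-1],[1,1,-1],[1,1,0,0,0,0,0,0,-1],(⟨0,[(29,0)]⟩,⟨0,[(30,0)]⟩),(⟨0,[(38,0),(3,0)]⟩,⟨0,[(15,0)]⟩),
  ⟨0,[(0,0)]⟩,.k,.k,(.x (-1) ⟨15,[(6,3),(10,3),(9,6),(0,6),(11,1)]⟩ ⟨0,[(42,0)]⟩),(.x 0 ⟨5,[(2,1),
  (0,1),(2,2),(12,1),(6,1),(12,2)]⟩ ⟨4,[(7,0),(13,1),(5,1),(0,1),(9,0),(3,6)]⟩),(.r (-1) ⟨15,[(2,3),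
  (1,2),(0,4),(8,13),(7,7),(4,1),(1,11),(3,15),(11,3)]⟩ ⟨8,[(1,7),(1,0),(15,2),(3,0),(6,8),(4,4),(7,
  3)]⟩),.k,⟨true,0,⟨0,[(2,0),(22,0),(3,0),(3,0),(11,1)]⟩,⟨8,[(1,4),(1,3),(15,2),(3,3),(6,8),(4,1),
  (7,6)]⟩⟩,⟨false,1,⟨19,[(7,11),(14,3),(4,2),(0,2),(0,19),(10,1)]⟩,⟨2,[(2,0),(0,0),(15,0),(6,0),(3,
  2)]⟩⟩,⟨false,0,⟨0,[]⟩,⟨3,[(27,0),(0,0),(18,1)]⟩⟩,⟨false,1,⟨23,[(1,15),(1,5),(9,1),(14,0),(0,1),(4,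
  3),(8,1),(3,22)]⟩,⟨0,[(4,0),(28,0),(11,0)]⟩⟩,⟨true,0,⟨0,[(44,0)]⟩,⟨0,[(45,0)]⟩⟩,⟨false,1,⟨0,[(1,
  0),(45,0)]⟩,⟨0,[(4,0),(28,0),(11,1)]⟩⟩,[.o ⟨false,0,⟨0,[(9,0)]⟩,⟨8,[(3,3),(10,2),(1,0),(10,1),(2,
  3),(2,7),(1,0),(11,3)]⟩⟩,.o ⟨false,1,⟨3,[(1,0),(6,0),(0,0),(1,0),(28,0),(6,1)]⟩,⟨0,[(33,0),(11,
  0)]⟩⟩,.o ⟨false,1,⟨5,[(2,1),(2,2),(2,0),(19,2),(11,1)]⟩,⟨2,[(2,0),(0,0),(15,0),(9,2),(2,1),(2,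
  0)]⟩⟩,.a ⟨true,0,⟨0,[(30,0)]⟩,⟨0,[(29,0)]⟩⟩ ⟨false,0,⟨3,[(2,2),(2,0),(23,3),(1,0),(1,0)]⟩,⟨1,[(28,
  0),(6,0),(0,0),(10,0)]⟩⟩ ⟨true,0,⟨0,[(9,0),(19,0)]⟩,⟨0,[(30,0),(2,0),(11,0)]⟩⟩]⟩)))) (.Q [0,0,0,0,
  0,-1,0,0,0,1,0,-1] (.ed true [0,1,0,1] .k) (.I [1,1,-1,0,0,0,0,1,-1] (.R ⟨1,false,false,false,[1,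
  0,0,-1],[1,0,-1],[1,1,0,0,0,0,0,0,-1],(⟨0,[(28,0)]⟩,⟨0,[(29,0)]⟩),(⟨0,[(37,0)]⟩,⟨0,[(38,0)]⟩),⟨0,
  [(1,0)]⟩,.k,.k,(.x (-1) ⟨15,[(5,3),(10,3),(9,6),(0,6),(11,1)]⟩ ⟨0,[(41,0)]⟩),.k,(.x 0 ⟨5,[(5,2),
  (3,1),(8,3),(13,1),(5,2),(3,1)]⟩ ⟨4,[(6,0),(13,1),(5,1),(0,1),(9,0),(3,6)]⟩),.k,⟨false,0,⟨0,[(0,
  0)]⟩,⟨1,[(27,0),(8,1),(9,0)]⟩⟩,⟨true,0,⟨0,[(28,0),(2,0)]⟩,⟨2,[(9,0),(8,1),(10,2),(2,0),(9,0)]⟩⟩,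
  ⟨false,0,⟨0,[]⟩,⟨3,[(26,0),(0,0),(18,1)]⟩⟩,⟨false,1,⟨1,[(11,0),(15,0),(0,1),(2,0),(2,0),(11,0)]⟩,
  ⟨0,[(3,0),(28,0)]⟩⟩,⟨true,0,⟨0,[(43,0)]⟩,⟨0,[(44,0)]⟩⟩,⟨false,1,⟨23,[(10,15),(4,7),(10,0),(0,12),
  (0,23),(2,3),(2,11),(4,1),(6,7)]⟩,⟨0,[(3,0),(28,0),(11,0)]⟩⟩,[.o ⟨false,0,⟨0,[(8,0),(35,0)]⟩,⟨3,
  [(26,0),(0,0),(4,3),(13,1)]⟩⟩,.o ⟨false,1,⟨7,[(11,3),(14,0),(0,0),(11,1),(6,3)]⟩,⟨0,[(32,0)]⟩⟩,.o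
  ⟨false,1,⟨1,[(3,0),(0,0),(22,0),(11,0)]⟩,⟨2,[(9,0),(8,1),(9,2),(2,2),(0,0),(9,0)]⟩⟩,.a ⟨true,0,⟨0,
  [(29,0)]⟩,⟨0,[(28,0)]⟩⟩ ⟨false,0,⟨0,[(0,0),(21,0)]⟩,⟨1,[(27,0),(6,0),(0,0),(10,0)]⟩⟩ ⟨true,0,⟨0,
  [(8,0),(19,0),(15,0)]⟩,⟨0,[(29,0),(2,0)]⟩⟩]⟩) (.I [0,0,1,1,-1,0,0,-1,-1] (.R ⟨1,false,false,false,
  [1,0,0,-1],[0,-1,1],[1,0,0,0,0,0,0,0,-1],(⟨0,[(29,0)]⟩,⟨0,[(30,0)]⟩),(⟨0,[(15,0)]⟩,⟨0,[(38,0),(3,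
  0)]⟩),⟨0,[(2,0)]⟩,.k,.k,(.x (-1) ⟨15,[(6,3),(10,3),(9,6),(0,6),(11,1)]⟩ ⟨0,[(42,0)]⟩),(.r 1 ⟨0,
  [(0,0)]⟩ ⟨43,[(14,35),(1,11),(8,15),(1,14),(0,36),(4,31),(2,15)]⟩),.k,.k,⟨true,(-1),⟨0,[(0,0)]⟩,
  ⟨3,[(14,1),(1,0),(11,1),(4,2),(2,2),(8,0)]⟩⟩,⟨false,0,⟨0,[(29,0),(5,0)]⟩,⟨0,[(7,0),(22,0)]⟩⟩,
  ⟨true,0,⟨0,[]⟩,⟨0,[(49,0)]⟩⟩,⟨false,1,⟨1,[(16,0),(11,0),(0,1),(3,0),(1,0),(9,2),(1,0)]⟩,⟨1,[(4,0),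
  (0,0),(3,1)]⟩⟩,⟨false,1,⟨0,[(44,0),(2,0)]⟩,⟨0,[(45,0)]⟩⟩,⟨false,1,⟨1,[(16,0),(11,0),(0,1),(3,0),
  (1,0),(9,0),(1,0)]⟩,⟨0,[(4,0),(26,0)]⟩⟩,[.o ⟨false,1,⟨7,[(14,3),(12,0),(0,0),(4,7),(1,3),(0,3),
  (10,1)]⟩,⟨0,[(9,0)]⟩⟩,.o ⟨false,1,⟨0,[(33,0),(11,0),(1,0)]⟩,⟨1,[(9,0),(21,0),(12,0)]⟩⟩,.o ⟨false,
  1,⟨1,[(4,0),(0,0),(22,0),(11,0)]⟩,⟨5,[(0,0),(0,0),(7,0),(0,0),(18,5),(2,2),(0,3),(6,0),(2,1)]⟩⟩,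
  .a ⟨true,0,⟨0,[(30,0)]⟩,⟨0,[(29,0)]⟩⟩ ⟨true,0,⟨1,[(0,0),(3,0),(2,0),(21,0),(3,0),(11,0)]⟩,⟨0,[(1,
  0),(23,0),(7,0),(11,0)]⟩⟩ ⟨false,1,⟨0,[(29,0),(3,0),(11,0),(1,0)]⟩,⟨0,[(9,0),(20,0)]⟩⟩]⟩) (.I [0,
  1,-1,-2,0,0,0,1,-1] (.R ⟨1,false,false,false,[1,0,0,-1],[1,1,-1],[0,1,0,-1,0,0,0,0,-1],(⟨0,[(30,
  0)]⟩,⟨0,[(31,0)]⟩),(⟨0,[(39,0),(3,0)]⟩,⟨0,[(16,0)]⟩),⟨0,[(3,0)]⟩,.k,.k,(.x (-1) ⟨15,[(7,3),(10,3),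
  (9,6),(0,6),(11,1)]⟩ ⟨0,[(43,0)]⟩),(.r (-1) ⟨18,[(0,7),(0,4),(13,1),(1,5),(10,7),(18,3)]⟩ ⟨0,[(2,
  0),(42,0)]⟩),(.r (-1) ⟨37,[(0,25),(0,1),(13,15),(1,9),(10,6),(18,12)]⟩ ⟨11,[(2,11),(9,1),(4,3),(3,
  1),(14,4),(0,2),(7,15)]⟩),.k,⟨true,0,⟨0,[(0,0)]⟩,⟨2,[(2,2),(9,0),(4,1),(3,0),(14,0),(8,1)]⟩⟩,
  ⟨false,1,⟨19,[(8,11),(14,3),(4,2),(0,2),(0,19),(10,1)]⟩,⟨5,[(2,1),(2,1),(5,0),(8,1),(10,3),(2,2),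
  (1,0)]⟩⟩,⟨false,0,⟨0,[(46,0)]⟩,⟨0,[(45,0),(2,0)]⟩⟩,⟨false,1,⟨3,[(2,1),(9,1),(4,1),(10,0),(0,1),(0,
  3),(10,0)]⟩,⟨1,[(0,0),(1,0),(2,1),(28,1)]⟩⟩,⟨true,0,⟨0,[(50,0)]⟩,⟨0,[]⟩⟩,⟨false,1,⟨2,[(2,0),(7,1),
  (1,0),(4,1),(2,0),(7,0),(0,1),(0,2)]⟩,⟨0,[(0,0),(1,0),(2,0),(28,0)]⟩⟩,[.o ⟨false,0,⟨0,[(10,0)]⟩,
  ⟨4,[(0,0),(0,2),(26,0),(5,0),(1,3),(11,0)]⟩⟩,.o ⟨false,1,⟨3,[(10,3),(17,0),(0,0),(18,1)]⟩,⟨1,[(0,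
  0),(1,0),(31,1)]⟩⟩,.o ⟨false,1,⟨1,[(5,0),(0,0),(22,0),(11,0)]⟩,⟨2,[(11,0),(8,1),(9,2),(2,2),(0,0),
  (9,0)]⟩⟩,.a ⟨true,0,⟨0,[(31,0)]⟩,⟨0,[(30,0)]⟩⟩ ⟨false,0,⟨3,[(0,2),(4,0),(4,0),(9,0),(3,1),(5,0)]⟩,
  ⟨31,[(2,11),(9,3),(4,19),(2,3),(0,3),(6,10),(0,20)]⟩⟩ ⟨true,0,⟨0,[(10,0),(19,0)]⟩,⟨1,[(0,0),(1,0),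
  (28,1),(2,1)]⟩⟩]⟩) (.K ⟨1,[1,-1,0,-1],0,0,(⟨0,[(3,0)]⟩,⟨0,[(31,0),(11,0)]⟩),(.x (-1) ⟨15,[(7,3),
  (10,3),(9,6),(0,6),(11,1)]⟩ ⟨0,[(43,0)]⟩),(.r (-1) ⟨12,[(5,4),(2,1),(2,5),(3,6),(7,0),(4,3),(1,4),
  (2,1),(0,5)]⟩ ⟨0,[(0,0),(33,0),(2,0)]⟩),.k,.k,.k,[⟨1,[(30,1),(5,0),(0,0)]⟩,⟨5,[(2,1),(2,1),(5,0),
  (8,1),(10,3),(1,5),(0,2),(1,0)]⟩,⟨0,[(2,0),(23,0),(3,0),(3,0)]⟩,⟨0,[(5,0),(40,0)]⟩]⟩)))) (.I [0,1,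
  -1,0,0,0,0,1,-1] (.R ⟨0,false,false,false,[1,0,0,-1],[1,0,-1],[0,1,0,0,0,0,0,0,-1],(⟨0,[(28,0)]⟩,
  ⟨0,[(29,0)]⟩),(⟨0,[(37,0)]⟩,⟨0,[(38,0)]⟩),⟨0,[(1,0)]⟩,.k,.k,(.x (-1) ⟨15,[(5,3),(10,3),(9,6),(0,
  6),(11,1)]⟩ ⟨0,[(41,0)]⟩),.k,.k,.k,⟨false,0,⟨0,[(0,0)]⟩,⟨1,[(27,0),(8,1),(9,0)]⟩⟩,⟨true,0,⟨0,[(28,
  0),(2,0)]⟩,⟨5,[(1,3),(3,0),(10,0),(8,2),(3,1)]⟩⟩,⟨true,0,⟨0,[(48,0)]⟩,⟨0,[]⟩⟩,⟨false,1,⟨1,[(11,0),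
  (15,0),(0,1),(2,0),(2,0),(11,0)]⟩,⟨0,[(3,0),(28,0)]⟩⟩,⟨false,0,⟨0,[]⟩,⟨0,[]⟩⟩,⟨false,0,⟨0,[]⟩,⟨0,
  []⟩⟩,[.o ⟨false,0,⟨0,[(8,0),(35,0)]⟩,⟨3,[(26,0),(0,0),(4,3),(13,1)]⟩⟩,.o ⟨false,1,⟨7,[(11,3),(14,
  0),(0,0),(11,1),(6,3)]⟩,⟨0,[(32,0)]⟩⟩,.o ⟨false,1,⟨1,[(3,0),(0,0),(22,0),(11,0)]⟩,⟨2,[(9,0),(8,1),
  (9,2),(2,2),(0,0),(9,0)]⟩⟩,.a ⟨true,0,⟨0,[(29,0)]⟩,⟨0,[(28,0)]⟩⟩ ⟨false,0,⟨0,[(0,0),(21,0)]⟩,⟨1,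
  [(27,0),(6,0),(0,0),(10,0)]⟩⟩ ⟨true,0,⟨0,[(8,0),(19,0),(15,0)]⟩,⟨0,[(29,0),(2,0)]⟩⟩]⟩) (.Q [0,0,0,
  -1,0,0,0,0,0,-1,0,1] (.p true [0,0,0,1] [1] (⟨0,[(29,0)]⟩,⟨0,[(28,0)]⟩) .k 1 (⟨0,[]⟩,⟨0,[]⟩) .k
  .k) (.R ⟨0,false,false,true,[1,0,0,-1],[0,1],[1,1],(⟨0,[(29,0)]⟩,⟨0,[(30,0)]⟩),(⟨0,[(42,0)]⟩,⟨0,
  [(41,0)]⟩),⟨0,[(2,0)]⟩,.k,.k,(.x (-1) ⟨15,[(6,3),(10,3),(9,6),(0,6),(11,1)]⟩ ⟨0,[(42,0)]⟩),(.x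
  (-1) ⟨15,[(6,3),(10,3),(9,6),(0,6),(11,1)]⟩ ⟨0,[(42,0)]⟩),.k,.k,⟨false,1,⟨27,[(10,3),(3,11),(10,
  3),(1,0),(0,0),(4,3),(12,13)]⟩,⟨11,[(11,1),(4,3),(3,1),(14,4),(0,2),(7,3)]⟩⟩,⟨true,0,⟨0,[(29,0)]⟩,
  ⟨2,[(0,0),(18,0),(10,1),(1,1),(2,0)]⟩⟩,⟨false,1,⟨3,[(27,0),(0,2)]⟩,⟨2,[(4,2),(5,0),(8,1),(9,2),(2,
  2),(0,0),(9,0)]⟩⟩,⟨true,0,⟨0,[(1,0),(23,0),(3,0),(3,0)]⟩,⟨0,[(4,0),(4,0),(23,0),(11,1)]⟩⟩,⟨false,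
  0,⟨0,[]⟩,⟨0,[]⟩⟩,⟨false,0,⟨0,[]⟩,⟨0,[]⟩⟩,[.o ⟨false,0,⟨0,[(44,0)]⟩,⟨3,[(14,1),(17,1),(2,1),(4,0),
  (6,0)]⟩⟩,.e ⟨true,0,⟨0,[]⟩,⟨1,[(35,0),(0,0)]⟩⟩ ⟨true,0,⟨11,[(11,1),(4,3),(3,1),(8,11),(5,4),(0,2),
  (7,3)]⟩,⟨0,[(0,0)]⟩⟩,.o ⟨false,1,⟨7,[(0,1),(2,1),(1,2),(2,0),(19,2),(11,2),(5,0)]⟩,⟨2,[(10,0),(8,
  1),(9,2),(2,2),(0,0),(9,0)]⟩⟩,.a ⟨true,0,⟨0,[(30,0)]⟩,⟨0,[(29,0)]⟩⟩ ⟨false,1,⟨3,[(27,0),(0,0),(17,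
  1)]⟩,⟨3,[(35,0),(0,0),(6,1)]⟩⟩ ⟨true,0,⟨0,[(29,0),(14,0)]⟩,⟨0,[(0,0)]⟩⟩]⟩) (.R ⟨0,false,false,
  true,[1,0,0,-1],[0,1],[1,1],(⟨0,[(29,0)]⟩,⟨0,[(30,0)]⟩),(⟨0,[(42,0)]⟩,⟨0,[(41,0)]⟩),⟨0,[(2,0)]⟩,
  .k,.k,(.x (-1) ⟨15,[(6,3),(10,3),(9,6),(0,6),(11,1)]⟩ ⟨0,[(42,0)]⟩),(.x (-1) ⟨15,[(6,3),(10,3),(9,
  6),(0,6),(11,1)]⟩ ⟨0,[(42,0)]⟩),.k,.k,⟨false,1,⟨27,[(10,3),(3,11),(10,3),(1,0),(0,0),(4,3),(12,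
  13)]⟩,⟨11,[(11,1),(4,3),(3,1),(14,4),(0,2),(7,3)]⟩⟩,⟨true,0,⟨0,[(29,0)]⟩,⟨5,[(2,3),(3,0),(10,0),
  (12,1),(1,2),(2,2)]⟩⟩,⟨false,1,⟨3,[(27,0),(0,2)]⟩,⟨2,[(4,2),(5,0),(8,1),(9,2),(2,2),(0,0),(9,
  0)]⟩⟩,⟨true,0,⟨0,[(1,0),(23,0),(3,0),(3,0)]⟩,⟨0,[(4,0),(4,0),(23,0),(11,1)]⟩⟩,⟨false,0,⟨0,[]⟩,⟨0,
  []⟩⟩,⟨false,0,⟨0,[]⟩,⟨0,[]⟩⟩,[.o ⟨false,0,⟨0,[(44,0)]⟩,⟨3,[(14,1),(17,1),(2,1),(4,0),(6,0)]⟩⟩,.a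
  ⟨true,0,⟨0,[(0,0),(29,0)]⟩,⟨0,[(45,0)]⟩⟩ ⟨true,0,⟨0,[]⟩,⟨1,[(35,0),(0,0)]⟩⟩ ⟨false,0,⟨0,[(0,0)]⟩,
  ⟨35,[(5,5),(4,3),(3,13),(7,1),(4,0),(0,3),(1,29),(2,3),(6,16)]⟩⟩,.o ⟨false,1,⟨1,[(4,0),(0,0),(22,
  0),(11,0)]⟩,⟨2,[(10,0),(8,1),(9,2),(2,2),(0,0),(9,0)]⟩⟩,.e ⟨false,1,⟨3,[(27,0),(0,0),(17,1)]⟩,⟨3,
  [(35,0),(0,0),(6,1)]⟩⟩ ⟨false,0,⟨0,[(0,0)]⟩,⟨3,[(14,1),(15,3),(1,1),(2,1),(4,0),(6,0)]⟩⟩]⟩))))))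
  (.I [1,-1,-1,0,1,0,0,0,-1] (.Q [0,0,0,0,0,-1,0,0,0,1,0,-1] (.ed true [0,1,0,1] .k) (.I [1,0,1,2,0,
  0,0,1,1] (.R ⟨1,false,false,true,[1,0,0,-1],[0,1,1],[0,1,0,-1,0,0,0,0,-1],(⟨0,[(27,0)]⟩,⟨0,[(28,
  0)]⟩),(⟨0,[(37,0),(2,0)]⟩,⟨0,[(22,0)]⟩),⟨0,[(1,0)]⟩,.k,.k,(.x (-1) ⟨15,[(4,3),(10,3),(9,6),(0,6),
  (11,1)]⟩ ⟨0,[(40,0)]⟩),(.r (-1) ⟨7,[(2,3),(5,3),(16,2),(0,0),(8,3)]⟩ ⟨0,[(0,0),(42,0)]⟩),(.r (-1)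
  ⟨0,[(2,0),(5,0)]⟩ ⟨1,[(0,1),(32,0),(0,0)]⟩),.k,⟨false,1,⟨0,[(2,0),(5,0)]⟩,⟨0,[(0,0)]⟩⟩,⟨true,0,⟨2,
  [(8,0),(8,1),(9,2),(3,0),(9,0)]⟩,⟨0,[(28,0),(1,0)]⟩⟩,⟨false,0,⟨0,[(43,0)]⟩,⟨27,[(0,7),(1,7),(6,3),
  (7,3),(0,3),(6,4),(0,4),(18,9)]⟩⟩,⟨false,0,⟨2,[(0,1),(2,0),(20,0),(2,1),(3,0),(11,0)]⟩,⟨0,[(6,0),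
  (0,0),(35,1)]⟩⟩,⟨true,0,⟨0,[(47,0)]⟩,⟨0,[]⟩⟩,⟨false,0,⟨3,[(0,2),(2,0),(12,0),(0,0),(6,0),(2,2)]⟩,
  ⟨0,[(6,0),(0,0),(35,2)]⟩⟩,[.o ⟨false,0,⟨0,[(16,0)]⟩,⟨7,[(11,3),(0,1),(12,0),(0,0),(3,1),(2,1),(4,
  0),(6,2)]⟩⟩,.o ⟨false,1,⟨3,[(16,3),(8,0),(0,0),(18,1)]⟩,⟨0,[(7,0),(35,1)]⟩⟩,.o ⟨false,1,⟨1,[(28,
  1),(9,0),(5,0)]⟩,⟨2,[(8,0),(8,1),(9,2),(2,2),(0,0),(9,0)]⟩⟩,.a ⟨true,0,⟨0,[(28,0)]⟩,⟨0,[(27,0)]⟩⟩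
  ⟨false,1,⟨27,[(8,3),(3,11),(10,3),(1,14),(0,0),(4,3)]⟩,⟨1,[(0,0),(2,0),(17,0),(6,0)]⟩⟩ ⟨true,0,⟨0,
  [(16,0),(10,0)]⟩,⟨0,[(7,0),(20,0),(14,1)]⟩⟩]⟩) (.R ⟨1,false,false,true,[1,0,0,-1],[0,0,1],[1,0,0,
  0,0,0,0,0,-1],(⟨0,[(27,0)]⟩,⟨0,[(28,0)]⟩),(⟨0,[(37,0)]⟩,⟨0,[(36,0)]⟩),⟨0,[(1,0)]⟩,.k,.k,(.x (-1)
  ⟨15,[(4,3),(10,3),(9,6),(0,6),(11,1)]⟩ ⟨0,[(40,0)]⟩),.k,(.x (-1) ⟨79,[(4,3),(0,15),(9,19),(3,31),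
  (5,30),(0,30),(11,1)]⟩ ⟨2,[(8,0),(8,1),(13,0),(5,2),(2,2),(0,0)]⟩),.k,⟨true,0,⟨11,[(0,11),(8,4),
  (4,9),(2,3),(0,4),(14,0),(7,0)]⟩,⟨0,[(3,0),(19,0),(4,0),(2,0),(11,0)]⟩⟩,⟨false,0,⟨4,[(0,0),(2,0),
  (13,1),(6,0),(2,3),(3,0)]⟩,⟨19,[(5,11),(14,3),(4,2),(0,2),(1,19),(9,1)]⟩⟩,⟨true,0,⟨0,[]⟩,⟨0,[(47,
  0)]⟩⟩,⟨false,0,⟨0,[(3,0),(23,0),(0,0),(2,0)]⟩,⟨56,[(0,9),(4,3),(0,46),(0,28),(3,8),(8,2),(7,9),(9,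
  5),(2,4)]⟩⟩,⟨false,1,⟨0,[(42,0),(2,0)]⟩,⟨0,[(43,0)]⟩⟩,⟨false,0,⟨0,[(3,0),(12,0),(10,0),(0,0)]⟩,
  ⟨56,[(0,19),(4,7),(0,36),(0,0),(3,17),(8,5),(7,19),(9,11),(2,9)]⟩⟩,[.o ⟨false,0,⟨0,[(31,0)]⟩,⟨7,
  [(10,3),(14,0),(0,0),(11,1),(6,3)]⟩⟩,.o ⟨false,1,⟨3,[(25,0),(0,0),(4,3),(13,1)]⟩,⟨0,[(7,0),(35,
  0)]⟩⟩,.o ⟨false,1,⟨1,[(28,1),(9,0),(5,0)]⟩,⟨3,[(0,0),(2,0),(12,0),(0,0),(9,2),(2,2),(2,0)]⟩⟩,.a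
  ⟨true,0,⟨0,[(28,0)]⟩,⟨0,[(27,0)]⟩⟩ ⟨false,1,⟨0,[(2,0)]⟩,⟨0,[(3,0),(24,0),(18,0)]⟩⟩ ⟨true,0,⟨0,
  [(27,0),(3,0)]⟩,⟨0,[(7,0),(20,0),(14,0)]⟩⟩]⟩)) (.I [1,-1,0,0,0,0,0,-1,1] (.R ⟨0,false,false,false,
  [1,0,0,-1],[1,0,-1],[0,1,0,0,0,0,0,0,-1],(⟨0,[(27,0)]⟩,⟨0,[(28,0)]⟩),(⟨0,[(36,0)]⟩,⟨0,[(37,0)]⟩),
  ⟨0,[(1,0)]⟩,.k,.k,(.x (-1) ⟨15,[(4,3),(10,3),(9,6),(0,6),(11,1)]⟩ ⟨0,[(40,0)]⟩),.k,.k,.k,⟨false,1,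
  ⟨0,[(2,0),(20,0),(7,0),(11,0)]⟩,⟨0,[(0,0)]⟩⟩,⟨true,0,⟨0,[(27,0),(2,0)]⟩,⟨5,[(1,3),(2,0),(10,0),(8,
  2),(3,1)]⟩⟩,⟨true,0,⟨0,[(47,0)]⟩,⟨0,[]⟩⟩,⟨false,0,⟨2,[(0,0),(2,1),(6,0),(16,0),(6,0)]⟩,⟨0,[(6,0),
  (24,0)]⟩⟩,⟨false,0,⟨0,[]⟩,⟨0,[]⟩⟩,⟨false,0,⟨0,[]⟩,⟨0,[]⟩⟩,[.o ⟨false,0,⟨0,[(7,0),(35,0)]⟩,⟨3,[(25,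
  0),(0,0),(4,3),(13,1)]⟩⟩,.o ⟨false,1,⟨7,[(10,3),(14,0),(0,0),(11,1),(6,3)]⟩,⟨0,[(31,0)]⟩⟩,.o
  ⟨false,1,⟨1,[(28,1),(9,0),(5,0)]⟩,⟨2,[(8,0),(8,1),(9,2),(2,2),(0,0),(9,0)]⟩⟩,.a ⟨true,0,⟨0,[(28,
  0)]⟩,⟨0,[(27,0)]⟩⟩ ⟨false,1,⟨1,[(25,0),(18,0)]⟩,⟨0,[(3,0),(24,0)]⟩⟩ ⟨true,0,⟨0,[(7,0),(19,0),(15,
  0)]⟩,⟨0,[(28,0),(2,0)]⟩⟩]⟩) (.R ⟨0,false,false,true,[1,0,0,-1],[0,0,1],[1,0,0,0,0,0,0,0,-1],(⟨0,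
  [(27,0)]⟩,⟨0,[(28,0)]⟩),(⟨0,[(37,0)]⟩,⟨0,[(36,0)]⟩),⟨0,[(1,0)]⟩,.k,.k,(.x (-1) ⟨15,[(4,3),(10,3),
  (9,6),(0,6),(11,1)]⟩ ⟨0,[(40,0)]⟩),.k,.k,.k,⟨true,0,⟨0,[(0,0),(20,1)]⟩,⟨0,[(3,0),(19,0),(4,0),(2,
  0),(11,0)]⟩⟩,⟨false,0,⟨2,[(8,0),(8,1),(9,2),(3,0),(9,0)]⟩,⟨19,[(5,11),(14,3),(4,2),(0,2),(1,19),
  (9,1)]⟩⟩,⟨true,0,⟨0,[]⟩,⟨0,[(47,0)]⟩⟩,⟨false,0,⟨0,[(3,0),(23,0),(0,0),(2,0)]⟩,⟨8,[(1,3),(0,3),(1,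
  0),(1,4),(0,2),(3,2),(3,0)]⟩⟩,⟨false,0,⟨0,[]⟩,⟨0,[]⟩⟩,⟨false,0,⟨0,[]⟩,⟨0,[]⟩⟩,[.o ⟨false,0,⟨0,
  [(31,0)]⟩,⟨7,[(10,3),(14,0),(0,0),(11,1),(6,3)]⟩⟩,.o ⟨false,1,⟨3,[(25,0),(0,0),(4,3),(13,1)]⟩,⟨0,
  [(7,0),(35,0)]⟩⟩,.o ⟨false,1,⟨1,[(28,1),(9,0),(5,0)]⟩,⟨10,[(0,6),(2,6),(3,2),(0,0),(2,0),(9,0),(5,
  3),(5,4)]⟩⟩,.a ⟨true,0,⟨0,[(28,0)]⟩,⟨0,[(27,0)]⟩⟩ ⟨false,1,⟨0,[(2,0)]⟩,⟨0,[(3,0),(24,0),(18,0)]⟩⟩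
  ⟨true,0,⟨0,[(27,0),(3,0)]⟩,⟨5,[(1,3),(2,0),(5,2),(4,0),(12,1)]⟩⟩]⟩))) (.Q [0,0,3,0,-1,0,0,0,0,0,0,
  -1] (.p false [0,0,0,1] [] (⟨0,[(26,0)]⟩,⟨0,[(25,0)]⟩) .k 0 (⟨0,[]⟩,⟨0,[]⟩) .k .k) (.Q [0,-1,-1,2,
  1,0,-1,-1,-1,-1,1,1] (.p true [0,0,1] [1,0,0,-1] (⟨0,[(36,0)]⟩,⟨0,[(35,0)]⟩) .k 2 (⟨0,[(26,0)]⟩,
  ⟨0,[(27,0)]⟩) .k (.r 0 ⟨15,[(1,13),(9,9),(1,11),(1,3),(6,3),(2,0),(17,2)]⟩ ⟨3,[(24,2),(0,0),(8,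
  3)]⟩)) (.I [0,0,1,1,-1,0,0,-1,1] (.R ⟨1,false,false,false,[0,-1,1],[1,0,0,-1],[1,0,-1,-1,0,0,0,1],
  (⟨0,[(14,0)]⟩,⟨0,[(37,0),(3,0)]⟩),(⟨0,[(28,0)]⟩,⟨0,[(29,0)]⟩),⟨0,[(5,0)]⟩,.k,.k,(.x 0 ⟨5,[(2,1),
  (2,5),(20,0),(0,0),(1,1),(4,5)]⟩ ⟨0,[(6,0),(30,0),(3,1)]⟩),(.r (-1) ⟨24,[(3,6),(9,22),(1,9),(8,
  10),(2,8),(4,14),(2,3)]⟩ ⟨0,[(0,0),(25,0)]⟩),(.r (-1) ⟨12,[(3,8),(9,19),(1,4),(1,0),(6,7),(2,1),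
  (4,6)]⟩ ⟨12,[(0,1),(0,6),(0,8),(16,6),(6,3),(2,1),(3,3),(0,3),(8,2)]⟩),.k,⟨false,1,⟨7,[(3,5),(9,
  9),(1,3),(1,3),(6,3),(2,0),(17,2)]⟩,⟨0,[(0,0),(25,0)]⟩⟩,⟨true,1,⟨0,[(6,0),(22,0)]⟩,⟨1,[(2,1),(22,
  0),(2,0),(0,0)]⟩⟩,⟨true,0,⟨0,[]⟩,⟨0,[(48,0)]⟩⟩,⟨false,1,⟨0,[(7,0),(0,0)]⟩,⟨22,[(2,5),(0,8),(9,7),
  (1,11),(9,5),(1,6),(0,16),(3,10),(11,18)]⟩⟩,⟨false,1,⟨27,[(1,7),(2,3),(10,3),(1,3),(1,3),(6,4),(0,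
  6),(0,3),(17,7)]⟩,⟨0,[(44,0)]⟩⟩,⟨false,1,⟨0,[(1,0)]⟩,⟨22,[(2,5),(0,8),(9,7),(1,11),(9,5),(1,6),(0,
  16),(3,10),(11,41)]⟩⟩,[.o ⟨false,1,⟨0,[(7,0),(0,0),(23,0),(11,0)]⟩,⟨17,[(2,1),(0,5),(0,5),(22,2),
  (0,9),(10,4)]⟩⟩,.a ⟨true,1,⟨0,[(7,0)]⟩,⟨0,[(3,0),(24,0)]⟩⟩ ⟨true,1,⟨21,[(13,19),(1,13),(8,3),(1,
  0),(0,0),(4,7),(2,3)]⟩,⟨0,[(0,0),(2,0),(22,0)]⟩⟩ ⟨false,2,⟨0,[(6,0),(0,0)]⟩,⟨12,[(2,5),(0,8),(5,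
  0),(15,5),(1,1),(0,6),(3,0),(10,1)]⟩⟩,.o ⟨false,0,⟨0,[(34,0)]⟩,⟨19,[(6,11),(14,3),(4,2),(0,2),(11,
  1)]⟩⟩,.o ⟨false,0,⟨5,[(2,1),(23,0),(0,0),(1,1),(4,5)]⟩,⟨0,[(6,0)]⟩⟩]⟩) (.I [0,0,1,1,0,0,0,-1,-1]
  (.R ⟨1,false,false,false,[0,-1,1],[1,0,0,-1],[1,0,-1,-1,0,0,0,1],(⟨0,[(15,0)]⟩,⟨0,[(38,0),(3,
  0)]⟩),(⟨0,[(29,0)]⟩,⟨0,[(30,0)]⟩),⟨0,[(6,0)]⟩,.k,.k,(.x 0 ⟨5,[(3,1),(2,5),(20,0),(0,0),(1,1),(4,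
  5)]⟩ ⟨0,[(7,0),(30,0),(3,1)]⟩),(.r (-1) ⟨4,[(1,0),(2,1),(9,3),(1,1),(8,1),(2,1),(4,1)]⟩ ⟨0,[(0,
  0)]⟩),(.r (-1) ⟨12,[(4,8),(9,19),(1,4),(1,0),(6,7),(2,1),(4,6)]⟩ ⟨13,[(0,18),(2,0),(0,0),(11,4),
  (11,1),(1,0),(13,3)]⟩),.k,⟨false,1,⟨7,[(4,5),(9,9),(1,3),(1,3),(6,3),(2,0),(17,2)]⟩,⟨0,[(0,0)]⟩⟩,
  ⟨true,1,⟨0,[(7,0),(22,0)]⟩,⟨1,[(3,1),(22,0),(2,0),(0,0)]⟩⟩,⟨true,0,⟨0,[]⟩,⟨0,[(49,0)]⟩⟩,⟨false,1,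
  ⟨0,[(8,0),(0,0)]⟩,⟨51,[(1,18),(1,20),(0,40),(9,27),(1,22),(9,20),(1,14),(0,30),(3,9)]⟩⟩,⟨false,1,
  ⟨27,[(2,7),(2,3),(10,3),(1,3),(1,3),(6,4),(0,6),(0,3),(17,7)]⟩,⟨0,[(45,0)]⟩⟩,⟨false,1,⟨0,[(2,0)]⟩,
  ⟨17,[(1,14),(1,8),(0,22),(9,11),(1,2),(9,8),(1,4),(0,8),(13,3)]⟩⟩,[.o ⟨false,1,⟨0,[(8,0),(0,0),
  (23,0),(11,0)]⟩,⟨17,[(3,1),(0,5),(0,5),(22,2),(0,9),(10,4)]⟩⟩,.a ⟨true,1,⟨0,[(8,0)]⟩,⟨0,[(4,0),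
  (24,0)]⟩⟩ ⟨true,1,⟨9,[(1,2),(2,0),(9,6),(1,5),(8,0),(2,0),(4,0)]⟩,⟨0,[(0,0),(3,0)]⟩⟩ ⟨false,2,⟨0,
  [(7,0),(0,0)]⟩,⟨12,[(3,5),(0,8),(5,0),(15,5),(1,1),(0,6),(3,0),(10,1)]⟩⟩,.o ⟨false,0,⟨0,[(35,0)]⟩,
  ⟨19,[(7,11),(14,3),(4,2),(0,2),(11,1)]⟩⟩,.o ⟨false,0,⟨5,[(3,1),(23,0),(0,0),(1,1),(4,5)]⟩,⟨0,[(7,
  0)]⟩⟩]⟩) (.R ⟨1,false,false,true,[0,0,1],[0,0,0,1],[0,1,0,-1,0,0,0,1],(⟨0,[(39,0)]⟩,⟨0,[(38,0)]⟩),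
  (⟨0,[(30,0)]⟩,⟨0,[(29,0)]⟩),⟨0,[(15,0)]⟩,.k,.k,.k,.k,(.r (-1) ⟨0,[(0,0),(26,0)]⟩ ⟨5,[(4,1),(6,2),
  (8,2),(7,1),(6,2),(7,0)]⟩),.k,⟨false,1,⟨0,[(0,0),(26,0)]⟩,⟨7,[(0,0),(3,2),(6,2),(7,2),(0,2),(2,2),
  (4,1),(17,0)]⟩⟩,⟨true,0,⟨5,[(3,0),(18,2),(6,4),(10,0)]⟩,⟨2,[(10,0),(8,1),(10,2),(2,0),(9,0)]⟩⟩,
  ⟨false,0,⟨0,[(45,0)]⟩,⟨27,[(2,7),(2,3),(10,3),(1,3),(1,3),(6,4),(0,6),(0,3),(17,7)]⟩⟩,⟨true,(-1),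
  ⟨4,[(0,0),(2,0),(0,3),(4,2),(0,0),(1,0),(16,3)]⟩,⟨0,[(8,0),(24,0)]⟩⟩,⟨true,0,⟨0,[(49,0)]⟩,⟨0,[]⟩⟩,
  ⟨true,(-1),⟨0,[(4,0),(4,0),(19,0)]⟩,⟨0,[(8,0),(24,0),(11,0)]⟩⟩,[.a ⟨true,(-1),⟨0,[(4,0),(24,0)]⟩,
  ⟨0,[(8,0)]⟩⟩ ⟨true,0,⟨0,[(1,0),(2,0)]⟩,⟨1,[(11,0),(8,0),(14,0),(7,0)]⟩⟩ ⟨false,0,⟨7,[(4,5),(2,3),
  (14,1),(5,0),(0,7),(10,0),(8,1)]⟩,⟨2,[(8,2),(1,0),(8,1),(13,0),(9,0)]⟩⟩,.o ⟨false,0,⟨17,[(3,1),(0,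
  5),(0,5),(22,2),(0,9),(10,4)]⟩,⟨0,[(8,0),(0,0),(23,0),(11,0)]⟩⟩,.o ⟨false,0,⟨2,[(10,0),(8,1),(13,
  0),(9,0)]⟩,⟨9,[(7,1),(14,3),(4,2),(0,2),(11,1)]⟩⟩,.o ⟨false,0,⟨0,[(35,0)]⟩,⟨19,[(7,11),(14,3),(4,
  2),(0,2),(11,1)]⟩⟩]⟩))) (.R ⟨2,false,false,true,[0,1],[0,0,0,1],[],(⟨0,[]⟩,⟨0,[]⟩),(⟨0,[(28,0)]⟩,
  ⟨0,[(27,0)]⟩),⟨0,[]⟩,.k,.k,.k,(.x (-1) ⟨0,[(40,0),(3,0)]⟩ ⟨29,[(1,13),(2,11),(14,5),(5,6),(0,6),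
  (1,13),(4,11)]⟩),.k,.k,⟨true,1,⟨1,[(25,0),(19,0)]⟩,⟨0,[(2,0)]⟩⟩,⟨false,0,⟨2,[(1,0),(25,1),(10,
  0)]⟩,⟨0,[(28,0),(15,0)]⟩⟩,⟨false,1,⟨7,[(12,3),(12,0),(0,0),(18,1)]⟩,⟨11,[(1,1),(7,1),(4,3),(3,1),
  (6,0),(0,0),(1,1),(4,1),(8,3)]⟩⟩,⟨true,(-1),⟨0,[(0,0),(6,0)]⟩,⟨0,[(6,0),(35,0)]⟩⟩,⟨false,1,⟨1,
  [(44,0),(0,0)]⟩,⟨5,[(1,1),(23,0),(0,0),(1,1)]⟩⟩,⟨false,0,⟨20,[(0,2),(0,1),(1,11),(22,2),(0,3),(1,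
  2),(8,1),(3,5)]⟩,⟨0,[(6,0)]⟩⟩,[.a ⟨true,(-1),⟨0,[(2,0),(24,0)]⟩,⟨0,[(6,0)]⟩⟩ ⟨false,1,⟨3,[(25,0),
  (0,0),(17,1)]⟩,⟨0,[]⟩⟩ ⟨true,(-1),⟨5,[(0,1),(0,1),(0,1),(0,1),(3,0),(21,0),(12,2)]⟩,⟨0,[(6,0)]⟩⟩,
  .o ⟨false,0,⟨20,[(0,2),(0,1),(1,11),(22,2),(0,3),(1,2),(8,1),(3,5)]⟩,⟨0,[(6,0),(0,0),(23,0),(11,
  0)]⟩⟩,.o ⟨false,1,⟨3,[(25,0),(0,0),(17,1)]⟩,⟨4,[(1,0),(5,1),(0,0),(19,0),(1,0),(0,2),(6,0),(2,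
  1)]⟩⟩,.e ⟨false,1,⟨1,[(44,0),(0,0)]⟩,⟨5,[(1,1),(23,0),(0,0),(1,1)]⟩⟩ ⟨false,0,⟨20,[(0,2),(0,1),(1,
  11),(22,2),(0,3),(1,2),(8,1),(3,5)]⟩,⟨0,[(6,0)]⟩⟩]⟩)) (.I [0,0,-1,-1,1,0,0,1,-1] (.R ⟨1,false,
  false,true,[0,0,1],[0,0,0,1],[0,1,0,-1,0,0,0,1],(⟨0,[(37,0)]⟩,⟨0,[(36,0)]⟩),(⟨0,[(28,0)]⟩,⟨0,[(27,
  0)]⟩),⟨0,[(13,0)]⟩,.k,.k,.k,.k,(.r (-1) ⟨0,[(0,0)]⟩ ⟨5,[(2,1),(6,2),(8,2),(7,1),(6,2),(7,0)]⟩),.k,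
  ⟨false,1,⟨0,[(0,0)]⟩,⟨9,[(1,1),(0,3),(0,1),(5,3),(7,2),(0,2),(2,1),(2,0),(1,1)]⟩⟩,⟨true,0,⟨0,[(27,
  0),(2,0)]⟩,⟨2,[(8,0),(8,1),(10,2),(2,0),(9,0)]⟩⟩,⟨false,0,⟨0,[(43,0)]⟩,⟨0,[(42,0),(2,0)]⟩⟩,⟨true,
  (-1),⟨0,[(2,0),(4,0),(19,0),(15,0)]⟩,⟨0,[(6,0),(24,0)]⟩⟩,⟨true,0,⟨0,[(47,0)]⟩,⟨0,[]⟩⟩,⟨true,(-1),
  ⟨0,[(2,0),(4,0),(19,0)]⟩,⟨2,[(0,0),(5,1),(1,0),(19,0),(2,2),(9,0)]⟩⟩,[.a ⟨true,(-1),⟨0,[(2,0),(24,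
  0)]⟩,⟨0,[(6,0)]⟩⟩ ⟨true,0,⟨0,[(0,0),(1,0)]⟩,⟨1,[(9,0),(8,0),(14,0),(7,0)]⟩⟩ ⟨false,0,⟨7,[(2,5),(2,
  3),(14,1),(5,0),(0,7),(10,0),(8,1)]⟩,⟨2,[(6,2),(1,0),(8,1),(13,0),(9,0)]⟩⟩,.o ⟨false,0,⟨7,[(2,2),
  (0,2),(22,0),(0,4),(2,0),(2,0),(4,1)]⟩,⟨2,[(0,0),(5,1),(0,2),(0,0),(19,0),(2,2),(9,0)]⟩⟩,.o
  ⟨false,0,⟨2,[(8,0),(8,1),(13,0),(9,0)]⟩,⟨9,[(5,1),(14,3),(4,2),(0,2),(11,1)]⟩⟩,.o ⟨false,0,⟨0,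
  [(33,0)]⟩,⟨19,[(5,11),(14,3),(4,2),(0,2),(11,1)]⟩⟩]⟩) (.R ⟨1,false,false,false,[0,-1,1],[1,0,0,
  -1],[1,0,-1,-1,0,0,0,1],(⟨0,[(13,0)]⟩,⟨0,[(36,0),(3,0)]⟩),(⟨0,[(27,0)]⟩,⟨0,[(28,0)]⟩),⟨0,[(4,0)]⟩,
  .k,.k,(.r (-1) ⟨1,[(1,0),(3,0),(8,0),(12,0),(3,0),(11,4)]⟩ ⟨5,[(0,7),(13,1),(10,5),(0,1),(6,0),(0,
  0),(7,1)]⟩),(.r (-1) ⟨24,[(2,6),(9,22),(1,9),(8,10),(2,8),(4,14),(2,3)]⟩ ⟨0,[(0,0),(24,0)]⟩),(.r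
  (-1) ⟨50,[(1,0),(0,34),(2,0),(6,75),(1,19),(8,29),(2,7),(0,0),(3,30)]⟩ ⟨11,[(0,15),(13,3),(10,14),
  (0,0),(6,1),(0,1),(7,3)]⟩),.k,⟨false,1,⟨50,[(1,13),(0,30),(2,13),(6,43),(1,24),(8,11),(2,9),(0,
  13),(3,25)]⟩,⟨0,[(0,0),(24,0)]⟩⟩,⟨true,1,⟨0,[(5,0),(22,0)]⟩,⟨2,[(2,5),(5,0),(8,1),(7,2),(1,2),(3,
  0),(9,3)]⟩⟩,⟨true,0,⟨0,[]⟩,⟨0,[(47,0)]⟩⟩,⟨false,1,⟨0,[(6,0),(0,0)]⟩,⟨3,[(2,0),(0,0),(10,1),(9,0),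
  (1,0),(0,2),(3,1),(11,5)]⟩⟩,⟨false,1,⟨0,[(42,0),(2,0)]⟩,⟨0,[(43,0)]⟩⟩,⟨false,1,⟨1,[(0,0),(0,0),(4,
  0),(0,1),(6,0),(10,0)]⟩,⟨3,[(2,0),(0,0),(10,1),(9,0),(1,0),(0,2),(3,1),(11,9)]⟩⟩,[.o ⟨false,1,⟨0,
  [(6,0),(0,0),(23,0),(11,0)]⟩,⟨7,[(2,2),(0,2),(22,0),(0,4),(2,0),(2,0),(4,1)]⟩⟩,.a ⟨true,1,⟨0,[(6,
  0)]⟩,⟨0,[(2,0),(24,0)]⟩⟩ ⟨true,1,⟨21,[(12,19),(1,13),(8,3),(1,0),(0,0),(4,7),(2,3)]⟩,⟨0,[(0,0),(1,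
  0),(22,0)]⟩⟩ ⟨false,2,⟨0,[(5,0),(0,0)]⟩,⟨0,[(2,0),(24,0),(5,0)]⟩⟩,.o ⟨false,0,⟨0,[(33,0)]⟩,⟨19,
  [(5,11),(14,3),(4,2),(0,2),(11,1)]⟩⟩,.o ⟨false,0,⟨1,[(33,2),(0,0)]⟩,⟨0,[(5,0)]⟩⟩]⟩))))))

theorem ok72 : chk (cU (-1) true 10) t72 l47 = true := by decide +kernel

noncomputable def t73 : Tre :=
  (.Q [0,0,-2,0,1,0,-1,0,0,0,1] (.p true [0,0,1] [] (⟨0,[(32,0)]⟩,⟨0,[(31,0)]⟩) .k 0 (⟨0,[]⟩,⟨0,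
  []⟩) .k .k) (.I [0,0,2,2,-1,0,0,-1] (.K ⟨0,[1,1,-1],1,0,(⟨0,[(33,0),(3,0)]⟩,⟨0,[(10,0)]⟩),.k,.k,
  (.r 1 ⟨0,[(0,0)]⟩ ⟨2,[(1,0),(7,2),(12,0),(0,0),(4,2),(2,1)]⟩),.k,.k,[⟨0,[(2,0)]⟩,⟨0,[(1,0)]⟩,⟨0,
  [(2,0),(6,0),(10,0),(7,0)]⟩,⟨1,[(4,0),(21,0),(12,0)]⟩]⟩) (.I [0,0,-2,0,1,2,-1] (.K ⟨0,[1,1,-1],1,
  0,(⟨1,[(0,0),(2,0),(30,0)]⟩,⟨0,[(11,0)]⟩),.k,.k,(.x (-1) ⟨0,[(0,0)]⟩ ⟨5,[(3,5),(7,7),(1,1),(9,0),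
  (0,0),(11,3)]⟩),.k,.k,[⟨0,[(3,0)]⟩,⟨0,[(2,0)]⟩,⟨3,[(1,2),(1,2),(12,0),(4,0),(7,0),(15,1)]⟩,⟨1,[(5,
  0),(21,0),(12,0)]⟩]⟩) (.Q [0,0,0,1,0,0,0,0,0,1] (.pp false [-1,1]) (.Q [0,0,0,-2,0,0,0,0,0,-1]
  (.pp true [-1,1]) (.R ⟨2,false,false,false,[0,1],[1,-1],[],(⟨0,[]⟩,⟨0,[]⟩),(⟨0,[(39,0)]⟩,⟨0,[(40,
  0)]⟩),⟨0,[]⟩,.k,.k,.k,(.r 0 ⟨4,[(5,1),(3,1),(4,3),(10,0),(0,0),(6,1),(8,3)]⟩ ⟨11,[(3,3),(4,3),(3,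
  3),(12,0),(0,0),(17,1)]⟩),.k,.k,⟨true,0,⟨9,[(5,1),(3,1),(4,3),(10,0),(0,0),(6,1),(8,3)]⟩,⟨7,[(0,
  0),(2,0),(1,1),(2,0),(3,0),(7,0)]⟩⟩,⟨false,0,⟨4,[(0,0),(4,0),(11,1),(12,2),(7,0)]⟩,⟨23,[(1,9),(1,
  3),(0,13),(3,3),(3,3),(5,13),(6,0),(0,0)]⟩⟩,⟨false,1,⟨7,[(12,3),(12,0),(0,0),(18,1)]⟩,⟨9,[(5,1),
  (3,1),(4,3),(10,0),(0,0),(6,1),(8,3)]⟩⟩,⟨true,0,⟨0,[(0,0)]⟩,⟨0,[(1,0),(40,0)]⟩⟩,⟨false,1,⟨1,[(44,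
  0),(0,0)]⟩,⟨5,[(5,1),(19,0),(0,0),(3,1)]⟩⟩,⟨false,1,⟨7,[(0,3),(24,0),(0,0),(11,1),(6,3)]⟩,⟨0,[(1,
  0)]⟩⟩,[.a ⟨true,0,⟨0,[(43,0)]⟩,⟨0,[(1,0)]⟩⟩ ⟨false,1,⟨3,[(25,0),(0,0),(17,1)]⟩,⟨0,[]⟩⟩ ⟨true,0,
  ⟨23,[(0,11),(4,7),(19,0),(0,0),(3,7),(7,5)]⟩,⟨0,[(1,0)]⟩⟩,.o ⟨false,1,⟨7,[(0,3),(24,0),(0,0),(11,
  1),(6,3)]⟩,⟨0,[(42,0)]⟩⟩,.o ⟨false,1,⟨3,[(25,0),(0,0),(17,1)]⟩,⟨4,[(0,0),(4,0),(11,1),(12,2),(7,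
  0)]⟩⟩,.e ⟨false,1,⟨1,[(44,0),(0,0)]⟩,⟨5,[(5,1),(19,0),(0,0),(3,1)]⟩⟩ ⟨false,1,⟨7,[(0,3),(24,0),(0,
  0),(11,1),(6,3)]⟩,⟨0,[(1,0)]⟩⟩]⟩) (.Q [0,0,0,-3,0,0,0,0,0,-1] (.pp true [-1,1]) (.R ⟨1,false,
  false,true,[1,-1],[0,1],[0,1,1,1],(⟨0,[(40,0)]⟩,⟨0,[(41,0)]⟩),(⟨0,[(41,0)]⟩,⟨0,[(40,0)]⟩),⟨1,[(14,
  0),(1,0),(23,0)]⟩,.k,.k,(.r (-1) ⟨11,[(4,3),(4,3),(3,3),(12,0),(0,0),(17,1)]⟩ ⟨11,[(1,11),(4,7),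
  (19,0),(0,0),(3,7),(7,5)]⟩),(.r (-1) ⟨11,[(4,3),(4,3),(3,3),(12,0),(0,0),(17,1)]⟩ ⟨11,[(1,11),(4,
  7),(19,0),(0,0),(3,7),(7,5)]⟩),(.r (-2) ⟨7,[(4,3),(4,3),(3,3),(12,2),(0,2),(17,1)]⟩ ⟨1,[(1,0),(4,
  1),(1,1),(6,0),(1,0),(13,0)]⟩),.k,⟨false,1,⟨3,[(26,0),(0,0),(17,1)]⟩,⟨0,[]⟩⟩,⟨true,1,⟨23,[(2,9),
  (1,3),(0,13),(3,3),(3,3),(5,13),(6,0),(0,0)]⟩,⟨6,[(0,3),(5,6),(1,5),(6,2),(1,2),(13,3)]⟩⟩,⟨false,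
  0,⟨11,[(1,11),(4,7),(19,0),(0,0),(3,7),(7,5)]⟩,⟨0,[(13,0)]⟩⟩,⟨false,0,⟨0,[(1,0)]⟩,⟨5,[(0,3),(25,
  0),(0,0),(11,0),(6,2)]⟩⟩,⟨false,0,⟨17,[(1,24),(4,11),(1,1),(6,0),(1,0),(13,10),(7,11)]⟩,⟨7,[(0,0),
  (3,1),(1,1),(5,0),(0,7)]⟩⟩,⟨true,0,⟨0,[(1,0),(41,0)]⟩,⟨0,[(0,0)]⟩⟩,[.o ⟨false,0,⟨0,[(43,0)]⟩,⟨11,
  [(0,3),(25,0),(0,0),(11,3),(6,5)]⟩⟩,.a ⟨true,0,⟨0,[(2,0)]⟩,⟨0,[(44,0)]⟩⟩ ⟨true,0,⟨23,[(1,11),(4,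
  7),(19,0),(0,0),(3,7),(7,5)]⟩,⟨7,[(0,0),(3,1),(1,1),(5,0)]⟩⟩ ⟨false,1,⟨0,[(5,0),(13,0)]⟩,⟨2,[(0,
  0),(5,0),(24,0),(7,0)]⟩⟩,.o ⟨false,0,⟨5,[(0,0),(5,0),(11,2),(12,3),(7,0)]⟩,⟨3,[(26,0),(0,0),(17,
  1)]⟩⟩,.o ⟨false,0,⟨11,[(6,7),(19,0),(0,0),(3,7),(7,5)]⟩,⟨0,[(45,0)]⟩⟩]⟩) (.I [0,0,2,0,-1,-2,1]
  (.K ⟨0,[1,1,-1],1,0,(⟨0,[(38,0),(3,0)]⟩,⟨0,[(15,0)]⟩),.k,.k,(.x (-2) ⟨3,[(6,3),(20,0),(0,0),(9,3),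
  (1,1),(1,7)]⟩ ⟨0,[(0,0)]⟩),.k,.k,[⟨0,[(7,0)]⟩,⟨0,[(6,0)]⟩,⟨2,[(3,0),(1,1),(1,1),(25,0),(15,1)]⟩,
  ⟨1,[(9,0),(21,0),(12,0)]⟩]⟩) (.I [0,0,-2,-2,1,0,0,0,1] (.I [1,-1,-1,0,1,0,0,0,-1] (.I [0,0,-1,-1,
  1,0,0,1,-1] (.Q [0,0,0,0,0,-1,0,0,0,1,0,-1] (.ed true [0,1,0,1] .k) (.I [1,0,0,1,0,0,0,-1,1] (.R
  ⟨1,false,false,false,[1,0,0,-1],[1,0,-1],[0,0,0,-1,0,0,0,0,-1],(⟨0,[(34,0)]⟩,⟨0,[(35,0)]⟩),(⟨0,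
  [(43,0)]⟩,⟨0,[(44,0)]⟩),⟨0,[(1,0)]⟩,.k,.k,(.x (-1) ⟨11,[(20,3),(1,3),(9,4),(0,4),(11,1)]⟩ ⟨0,[(47,
  0)]⟩),.k,(.r (-1) ⟨0,[(2,0)]⟩ ⟨9,[(0,3),(5,0),(5,3),(3,2),(16,2),(6,1),(4,0)]⟩),.k,⟨false,1,⟨0,
  [(2,0)]⟩,⟨0,[(0,0)]⟩⟩,⟨true,0,⟨0,[(34,0),(2,0)]⟩,⟨2,[(15,0),(8,1),(10,2),(2,0),(9,0)]⟩⟩,⟨true,0,
  ⟨0,[(50,0)]⟩,⟨0,[(49,0)]⟩⟩,⟨false,0,⟨7,[(0,1),(3,5),(4,5),(4,7),(6,1),(4,2),(7,7),(12,14),(0,2)]⟩,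
  ⟨0,[(13,0),(24,0)]⟩⟩,⟨false,1,⟨3,[(32,0),(0,0),(18,1)]⟩,⟨0,[]⟩⟩,⟨false,0,⟨3,[(0,1),(3,1),(4,1),(4,
  3),(6,1),(4,0),(7,3),(12,4),(0,0)]⟩,⟨2,[(2,0),(10,1),(1,0),(19,0),(2,2),(9,0)]⟩⟩,[.o ⟨false,0,⟨0,
  [(14,0),(35,0)]⟩,⟨3,[(2,1),(20,1),(9,0),(6,1),(11,0)]⟩⟩,.o ⟨false,1,⟨7,[(17,3),(14,0),(0,0),(11,
  1),(6,3)]⟩,⟨0,[(38,0)]⟩⟩,.o ⟨false,1,⟨1,[(35,1),(9,0),(5,0)]⟩,⟨4,[(12,0),(1,1),(0,0),(18,4),(2,1),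
  (0,2),(6,0),(2,1)]⟩⟩,.a ⟨true,0,⟨0,[(35,0)]⟩,⟨0,[(34,0)]⟩⟩ ⟨false,1,⟨2,[(2,0),(0,1),(11,0),(32,
  0)]⟩,⟨3,[(0,1),(11,0),(8,0),(1,0),(3,0),(5,0)]⟩⟩ ⟨true,0,⟨0,[(14,0),(19,0),(15,0)]⟩,⟨0,[(35,0),(2,
  0)]⟩⟩]⟩) (.R ⟨1,false,false,false,[1,0,0,-1],[1,-1,-1],[1,0,0,0,0,0,0,0,-1],(⟨0,[(34,0)]⟩,⟨0,[(35,
  0)]⟩),(⟨0,[(29,0)]⟩,⟨0,[(44,0),(2,0)]⟩),⟨0,[(1,0)]⟩,.k,.k,(.x (-1) ⟨11,[(20,3),(1,3),(9,4),(0,4),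
  (11,1)]⟩ ⟨0,[(47,0)]⟩),(.r 0 ⟨63,[(0,33),(5,11),(5,14),(1,15),(6,22),(1,22),(3,10),(4,14)]⟩ ⟨7,
  [(4,3),(27,0),(0,2),(8,7)]⟩),.k,.k,⟨true,0,⟨63,[(0,33),(5,11),(5,14),(1,15),(6,22),(1,22),(3,10),
  (4,14)]⟩,⟨0,[(4,0),(7,0),(1,0)]⟩⟩,⟨false,0,⟨0,[(34,0),(2,0)]⟩,⟨5,[(4,0),(5,0),(2,0),(1,0),(8,5),
  (10,4),(15,2)]⟩⟩,⟨true,0,⟨0,[]⟩,⟨0,[(54,0)]⟩⟩,⟨false,0,⟨1,[(4,1),(4,1),(4,1),(11,0),(7,1),(12,4),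
  (0,0)]⟩,⟨0,[(13,0),(9,0)]⟩⟩,⟨false,1,⟨5,[(6,1),(25,0),(0,0),(11,0),(6,2)]⟩,⟨0,[(50,0)]⟩⟩,⟨false,0,
  ⟨3,[(4,3),(4,1),(2,1),(1,5),(6,1),(4,0),(7,3),(12,4),(0,0)]⟩,⟨0,[(13,0),(24,0)]⟩⟩,[.o ⟨false,0,⟨0,
  [(14,0),(35,1)]⟩,⟨3,[(23,3),(8,0),(0,0),(18,1)]⟩⟩,.o ⟨false,1,⟨47,[(4,11),(7,7),(5,23),(13,6),(0,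
  0),(3,7),(7,11),(6,23)]⟩,⟨0,[(23,0)]⟩⟩,.o ⟨false,1,⟨1,[(35,1),(9,0),(5,0)]⟩,⟨4,[(12,0),(1,1),(0,
  0),(18,4),(2,1),(0,2),(6,0),(2,1)]⟩⟩,.a ⟨true,0,⟨0,[(35,0)]⟩,⟨0,[(34,0)]⟩⟩ ⟨false,1,⟨0,[(3,0)]⟩,
  ⟨3,[(4,1),(7,2),(1,1),(6,0),(1,0),(3,0),(5,0)]⟩⟩ ⟨true,0,⟨0,[(14,0),(19,0),(15,1)]⟩,⟨0,[(23,0),
  (11,0)]⟩⟩]⟩)) (.I [1,0,-2,-1,1,0,0,0,1] (.I [1,0,0,1,0,0,0,-1,1] (.R ⟨0,false,false,false,[1,0,0,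
  -1],[1,0,-1],[0,0,0,-1,0,0,0,0,-1],(⟨0,[(35,0)]⟩,⟨0,[(36,0)]⟩),(⟨0,[(44,0)]⟩,⟨0,[(45,0)]⟩),⟨0,[(2,
  0)]⟩,.k,.k,(.x (-1) ⟨11,[(21,3),(1,3),(9,4),(0,4),(11,1)]⟩ ⟨0,[(48,0)]⟩),.k,.k,.k,⟨false,1,⟨0,[(3,
  0)]⟩,⟨0,[(0,0)]⟩⟩,⟨true,0,⟨0,[(35,0),(2,0)]⟩,⟨26,[(2,11),(2,0),(4,2),(0,0),(2,0),(1,0),(6,2),(1,
  5),(6,8),(3,13)]⟩⟩,⟨true,0,⟨0,[(51,0)]⟩,⟨0,[(50,0)]⟩⟩,⟨false,0,⟨7,[(0,1),(4,5),(4,5),(4,7),(6,1),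
  (4,2),(7,7),(12,14),(0,2)]⟩,⟨0,[(14,0),(24,0)]⟩⟩,⟨false,0,⟨0,[]⟩,⟨0,[]⟩⟩,⟨false,0,⟨0,[]⟩,⟨0,[]⟩⟩,
  [.o ⟨false,0,⟨0,[(15,0),(35,0)]⟩,⟨3,[(3,1),(20,1),(9,0),(6,1),(11,0)]⟩⟩,.o ⟨false,1,⟨7,[(18,3),
  (14,0),(0,0),(11,1),(6,3)]⟩,⟨0,[(39,0)]⟩⟩,.o ⟨false,1,⟨1,[(36,1),(9,0),(5,0)]⟩,⟨4,[(13,0),(1,1),
  (0,0),(18,4),(2,1),(0,2),(6,0),(2,1)]⟩⟩,.a ⟨true,0,⟨0,[(36,0)]⟩,⟨0,[(35,0)]⟩⟩ ⟨false,1,⟨2,[(3,0),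
  (0,1),(11,0),(32,0)]⟩,⟨3,[(0,1),(12,0),(8,0),(1,0),(3,0),(5,0)]⟩⟩ ⟨true,0,⟨0,[(15,0),(19,0),(15,
  0)]⟩,⟨0,[(36,0),(2,0)]⟩⟩]⟩) (.R ⟨0,false,false,false,[1,0,0,-1],[1,0,-1],[1,0,0,0,0,0,0,0,-1],(⟨0,
  [(35,0)]⟩,⟨0,[(36,0)]⟩),(⟨0,[(44,0)]⟩,⟨0,[(45,0)]⟩),⟨0,[(2,0)]⟩,.k,.k,(.x (-1) ⟨11,[(21,3),(1,3),
  (9,4),(0,4),(11,1)]⟩ ⟨0,[(48,0)]⟩),.k,.k,.k,⟨false,1,⟨7,[(0,1),(2,4),(0,0),(2,1),(4,0),(11,0),(21,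
  0)]⟩,⟨0,[(1,0),(11,0),(1,0)]⟩⟩,⟨true,0,⟨0,[(35,0),(2,0)]⟩,⟨26,[(2,11),(2,0),(4,2),(0,0),(2,0),(1,
  0),(6,2),(1,5),(6,8),(3,13)]⟩⟩,⟨true,0,⟨0,[]⟩,⟨0,[(55,0)]⟩⟩,⟨false,0,⟨3,[(5,3),(4,1),(2,1),(1,5),
  (6,1),(4,0),(7,3),(12,4),(0,0)]⟩,⟨0,[(14,0),(24,0)]⟩⟩,⟨false,0,⟨0,[]⟩,⟨0,[]⟩⟩,⟨false,0,⟨0,[]⟩,⟨0,
  []⟩⟩,[.o ⟨false,0,⟨0,[(15,0),(35,0)]⟩,⟨3,[(3,1),(20,1),(9,0),(6,1),(11,0)]⟩⟩,.o ⟨false,1,⟨7,[(18,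
  3),(14,0),(0,0),(11,1),(6,3)]⟩,⟨0,[(39,0)]⟩⟩,.o ⟨false,1,⟨1,[(36,1),(9,0),(5,0)]⟩,⟨4,[(13,0),(1,
  1),(0,0),(18,4),(2,1),(0,2),(6,0),(2,1)]⟩⟩,.a ⟨true,0,⟨0,[(36,0)]⟩,⟨0,[(35,0)]⟩⟩ ⟨false,1,⟨0,[(4,
  0)]⟩,⟨3,[(5,1),(7,2),(1,1),(6,0),(1,0),(3,0),(5,0)]⟩⟩ ⟨true,0,⟨0,[(15,0),(19,0),(15,0)]⟩,⟨0,[(36,
  0),(2,0)]⟩⟩]⟩)) (.R ⟨0,false,false,true,[1,0,0,-1],[0,0,1],[1,0,0,0,0,0,0,0,-1],(⟨0,[(34,0)]⟩,⟨0,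
  [(35,0)]⟩),(⟨0,[(44,0)]⟩,⟨0,[(43,0)]⟩),⟨0,[(1,0)]⟩,.k,.k,(.x (-1) ⟨11,[(20,3),(1,3),(9,4),(0,4),
  (11,1)]⟩ ⟨0,[(47,0)]⟩),.k,.k,.k,⟨true,0,⟨4,[(0,3),(2,0),(11,0),(3,0),(8,3),(22,1)]⟩,⟨2,[(4,2),(7,
  2),(1,0),(6,0),(1,2),(3,1),(2,0)]⟩⟩,⟨false,0,⟨2,[(15,0),(8,1),(9,2),(3,0),(9,0)]⟩,⟨4,[(11,2),(15,
  0),(7,4),(9,1)]⟩⟩,⟨true,0,⟨0,[]⟩,⟨0,[(54,0)]⟩⟩,⟨false,0,⟨0,[(4,0),(7,0),(1,0),(6,0),(12,0),(3,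
  0)]⟩,⟨125,[(0,9),(0,14),(0,4),(6,5),(3,110),(0,71),(0,4),(2,26),(0,19),(6,2),(18,5)]⟩⟩,⟨false,0,
  ⟨0,[]⟩,⟨0,[]⟩⟩,⟨false,0,⟨0,[]⟩,⟨0,[]⟩⟩,[.o ⟨false,0,⟨0,[(38,0)]⟩,⟨7,[(17,3),(14,0),(0,0),(11,1),
  (6,3)]⟩⟩,.o ⟨false,1,⟨3,[(2,1),(20,1),(9,0),(6,1),(11,0)]⟩,⟨0,[(14,0),(35,0)]⟩⟩,.o ⟨false,1,⟨1,
  [(35,1),(9,0),(5,0)]⟩,⟨4,[(12,0),(1,1),(0,0),(18,4),(2,1),(0,2),(6,0),(2,1)]⟩⟩,.a ⟨true,0,⟨0,[(35,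
  0)]⟩,⟨0,[(34,0)]⟩⟩ ⟨false,1,⟨0,[(3,0)]⟩,⟨3,[(4,1),(7,2),(1,1),(6,0),(1,0),(3,0),(5,0)]⟩⟩ ⟨true,0,
  ⟨0,[(34,0),(3,0)]⟩,⟨8,[(1,3),(7,0),(0,0),(3,1),(2,3),(4,0),(12,4)]⟩⟩]⟩))) (.Q [0,1,1,0,-1,0,0,0,1,
  1,0,-1] (.p false [0,0,0,1] [1] (⟨0,[(33,0)]⟩,⟨0,[(32,0)]⟩) .k 1 (⟨0,[]⟩,⟨0,[]⟩) .k .k) (.R ⟨1,
  false,false,true,[1,-1,-1],[0,0,0,1],[0,1,-1,-2,0,0,0,-1],(⟨0,[(28,0)]⟩,⟨0,[(43,0),(2,0)]⟩),(⟨0,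
  [(34,0)]⟩,⟨0,[(33,0)]⟩),⟨0,[(21,0)]⟩,.k,.k,(.r (-1) ⟨5,[(3,1),(10,1),(3,1),(12,0),(9,3),(8,0)]⟩
  ⟨35,[(5,11),(5,13),(8,17),(1,17),(3,5),(4,6),(0,6),(3,19)]⟩),(.r (-1) ⟨11,[(3,1),(10,1),(3,1),(12,
  6),(9,9),(8,0)]⟩ ⟨13,[(0,2),(0,2),(7,1),(10,8),(1,5),(3,2),(5,3),(1,2)]⟩),(.r (-1) ⟨0,[(2,0),(11,
  0)]⟩ ⟨10,[(1,0),(3,2),(5,3),(8,5),(1,5),(3,2),(5,4),(3,3)]⟩),.k,⟨false,1,⟨0,[(2,0),(11,0)]⟩,⟨31,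
  [(1,13),(7,2),(0,1),(9,27),(1,14),(6,12),(2,8)]⟩⟩,⟨true,0,⟨2,[(14,0),(8,1),(9,2),(3,0),(9,0)]⟩,⟨0,
  [(34,0),(1,0)]⟩⟩,⟨false,0,⟨0,[(49,0)]⟩,⟨5,[(5,1),(25,0),(0,0),(11,0),(6,2)]⟩⟩,⟨false,0,⟨39,[(0,
  15),(2,1),(16,27),(2,15),(6,5),(1,10),(0,23),(3,11),(6,2)]⟩,⟨0,[(12,0),(0,0),(35,1)]⟩⟩,⟨true,0,⟨0,
  [(53,0)]⟩,⟨0,[]⟩⟩,⟨false,0,⟨19,[(0,7),(4,1),(14,13),(1,5),(0,13),(8,5),(0,11),(10,0),(5,0)]⟩,⟨0,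
  [(12,0),(0,0),(35,2)]⟩⟩,[.a ⟨true,(-1),⟨0,[(0,0)]⟩,⟨0,[(12,0)]⟩⟩ ⟨true,0,⟨0,[(14,0)]⟩,⟨11,[(5,3),
  (5,3),(8,11),(10,0),(0,0),(3,3),(7,1)]⟩⟩ ⟨false,0,⟨5,[(0,4),(2,0),(5,0),(4,0),(8,5),(9,0),(16,
  2)]⟩,⟨0,[(12,0),(23,0)]⟩⟩,.o ⟨false,0,⟨5,[(0,3),(31,0),(0,1),(10,2),(2,1)]⟩,⟨0,[(12,0),(0,0),(23,
  0),(11,0)]⟩⟩,.o ⟨false,0,⟨0,[(36,0)]⟩,⟨7,[(30,3),(0,0),(0,0),(11,1),(5,3)]⟩⟩,.o ⟨false,0,⟨5,[(11,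
  1),(19,0),(0,0),(3,7)]⟩,⟨15,[(9,1),(4,1),(3,1),(4,11),(6,1),(13,0),(5,10)]⟩⟩]⟩) (.R ⟨1,false,
  false,true,[0,0,0,1],[0,1],[1,0,0,0,0,0,0,0,1],(⟨0,[(34,0)]⟩,⟨0,[(33,0)]⟩),(⟨0,[(46,0)]⟩,⟨0,[(45,
  0)]⟩),⟨3,[(0,0),(0,0),(6,0),(0,0),(11,0),(7,0),(4,2)]⟩,.k,.k,(.x 0 ⟨29,[(8,11),(2,9),(13,5),(5,
  10),(0,10),(3,9)]⟩ ⟨31,[(4,15),(4,1),(4,1),(3,1),(4,11),(6,1),(12,15),(0,0),(5,10)]⟩),(.x 0 ⟨29,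
  [(8,11),(2,9),(13,5),(5,10),(0,10),(3,9)]⟩ ⟨31,[(4,15),(4,1),(4,1),(3,1),(4,11),(6,1),(12,15),(0,
  0),(5,10)]⟩),(.r (-1) ⟨0,[(3,0)]⟩ ⟨41,[(5,19),(5,27),(1,11),(6,5),(1,5),(8,20),(4,21),(7,6)]⟩),.k,
  ⟨false,1,⟨1,[(1,0),(1,0),(14,0),(1,0),(29,0)]⟩,⟨1,[(11,0),(1,0),(15,0),(1,0),(5,0)]⟩⟩,⟨true,1,⟨0,
  [(34,0),(15,0)]⟩,⟨1,[(8,1),(4,1),(11,0),(7,1),(3,1),(8,4),(0,0),(1,1)]⟩⟩,⟨true,0,⟨0,[]⟩,⟨0,[(53,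
  0)]⟩⟩,⟨false,1,⟨0,[(12,0),(35,0)]⟩,⟨1,[(1,1),(7,1),(1,0),(21,1),(2,0),(7,0),(2,0)]⟩⟩,⟨false,1,⟨5,
  [(5,1),(25,0),(0,0),(11,0),(6,2)]⟩,⟨0,[(49,0)]⟩⟩,⟨false,1,⟨2,[(0,0),(4,0),(6,1),(35,2)]⟩,⟨1,[(1,
  1),(7,1),(1,0),(21,1),(2,0),(7,0),(2,0),(1,1)]⟩⟩,[.o ⟨false,0,⟨0,[(48,0)]⟩,⟨23,[(3,1),(7,7),(6,9),
  (12,0),(4,7),(7,11),(6,6)]⟩⟩,.a ⟨true,0,⟨0,[(7,0)]⟩,⟨0,[(49,0)]⟩⟩ ⟨true,0,⟨2,[(1,1),(1,0),(14,0),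
  (1,1)]⟩,⟨3,[(11,1),(1,0),(0,0),(11,0),(2,0),(1,1),(5,1)]⟩⟩ ⟨false,1,⟨4,[(0,0),(0,0),(3,0),(4,0),
  (11,0),(11,3),(15,3)]⟩,⟨9,[(11,0),(1,1),(0,5),(18,9),(2,6),(0,7),(6,0),(2,6)]⟩⟩,.o ⟨false,0,⟨4,
  [(11,0),(1,1),(0,0),(18,4),(2,1),(0,2),(6,0),(2,1)]⟩,⟨1,[(34,1),(9,0),(5,0)]⟩⟩,.o ⟨false,0,⟨11,
  [(11,7),(19,0),(0,0),(0,11),(2,7),(7,5)]⟩,⟨12,[(0,6),(0,5),(1,0),(5,6),(3,5),(0,0),(7,5),(11,5),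
  (15,3)]⟩⟩]⟩))) (.I [0,0,-2,-2,1,0,0,1] (.K ⟨0,[1,1,-1],1,0,(⟨1,[(3,0),(6,0),(30,0)]⟩,⟨0,[(18,
  0)]⟩),.k,.k,(.r 0 ⟨3,[(4,1),(5,3),(3,1),(15,0),(0,0),(11,1)]⟩ ⟨0,[(0,0)]⟩),.k,.k,[⟨0,[(10,0)]⟩,⟨0,
  [(9,0)]⟩,⟨2,[(0,1),(5,0),(3,1),(25,0),(15,1)]⟩,⟨1,[(12,0),(21,0),(12,0)]⟩]⟩) (.I [0,0,1,1,0,0,0,0,
  -1] (.R ⟨1,false,false,true,[0,0,1],[0,0,0,1],[0,1,0,-1,0,0,0,1],(⟨0,[(43,0)]⟩,⟨0,[(42,0)]⟩),(⟨0,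
  [(34,0)]⟩,⟨0,[(33,0)]⟩),⟨0,[(19,0)]⟩,.k,.k,.k,.k,(.r (-1) ⟨0,[(0,0),(8,0)]⟩ ⟨1,[(1,0),(30,0),(8,
  0)]⟩),.k,⟨false,1,⟨0,[(0,0),(8,0)]⟩,⟨13,[(1,3),(0,3),(0,5),(1,2),(9,2),(7,5),(3,3),(4,1)]⟩⟩,⟨true,
  0,⟨0,[(33,0),(2,0)]⟩,⟨2,[(14,0),(8,1),(10,2),(2,0),(9,0)]⟩⟩,⟨false,0,⟨0,[(49,0)]⟩,⟨5,[(5,1),(25,
  0),(0,0),(11,0),(6,2)]⟩⟩,⟨true,(-1),⟨0,[(2,0),(10,0),(19,0),(15,0)]⟩,⟨0,[(12,0),(24,0)]⟩⟩,⟨true,0,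
  ⟨0,[(53,0)]⟩,⟨0,[]⟩⟩,⟨true,(-1),⟨0,[(2,0),(10,0),(19,0)]⟩,⟨0,[(12,0),(24,0),(11,0)]⟩⟩,[.a ⟨true,
  (-1),⟨0,[(2,0),(30,0)]⟩,⟨0,[(12,0)]⟩⟩ ⟨true,0,⟨0,[(0,0),(1,0),(6,0)]⟩,⟨1,[(1,0),(39,0),(9,0)]⟩⟩
  ⟨false,0,⟨4,[(2,4),(7,2),(15,0),(6,4),(10,1)]⟩,⟨2,[(12,2),(1,0),(8,1),(13,0),(9,0)]⟩⟩,.o ⟨false,0,
  ⟨5,[(2,3),(29,0),(0,5),(10,2),(2,1)]⟩,⟨0,[(12,0),(0,0),(23,0),(11,0)]⟩⟩,.o ⟨false,0,⟨2,[(14,0),(8,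
  1),(13,0),(9,0)]⟩,⟨19,[(10,3),(15,7),(4,4),(0,4),(11,5)]⟩⟩,.o ⟨false,0,⟨0,[(39,0)]⟩,⟨4,[(10,2),
  (15,0),(17,1)]⟩⟩]⟩) (.I [0,0,-1,-1,0,0,0,0,1] (.Q [0,0,0,0,0,-1,0,0,0,0,0,1] (.ed false [1,-1,0,
  1] .k) (.R ⟨1,false,false,true,[0,0,0,1],[0,1],[1,0,0,0,0,0,0,0,1],(⟨0,[(36,0)]⟩,⟨0,[(35,0)]⟩),
  (⟨0,[(48,0)]⟩,⟨0,[(47,0)]⟩),⟨0,[(0,0)]⟩,.k,.k,(.r 0 ⟨0,[(1,0)]⟩ ⟨107,[(3,31),(3,3),(5,7),(8,15),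
  (1,15),(3,11),(4,100),(0,46)]⟩),(.r 0 ⟨0,[(1,0)]⟩ ⟨107,[(3,31),(3,3),(5,7),(8,15),(1,15),(3,11),
  (4,100),(0,46)]⟩),(.r (-1) ⟨0,[(5,0)]⟩ ⟨107,[(3,63),(3,7),(5,15),(8,31),(1,31),(3,23),(4,66),(0,
  12)]⟩),.k,⟨false,1,⟨1,[(1,1),(50,0),(0,0)]⟩,⟨2,[(3,0),(0,0),(26,0),(1,1),(5,0)]⟩⟩,⟨true,1,⟨0,[(36,
  0),(15,0)]⟩,⟨1,[(10,1),(4,1),(11,0),(7,1),(3,1),(8,4),(0,0),(1,1)]⟩⟩,⟨true,0,⟨0,[]⟩,⟨0,[(55,0)]⟩⟩,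
  ⟨false,1,⟨0,[(14,0),(35,0)]⟩,⟨5,[(4,4),(0,0),(14,0),(14,5),(10,2),(2,4),(1,1)]⟩⟩,⟨false,1,⟨5,[(7,
  1),(25,0),(0,0),(11,0),(6,2)]⟩,⟨0,[(51,0)]⟩⟩,⟨false,1,⟨3,[(7,0),(6,3),(0,0),(8,0),(25,2)]⟩,⟨5,[(4,
  4),(0,0),(14,0),(14,5),(10,2),(2,4),(1,7)]⟩⟩,[.o ⟨false,0,⟨0,[(50,0)]⟩,⟨23,[(5,1),(7,7),(6,9),(12,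
  0),(4,7),(7,11),(6,6)]⟩⟩,.a ⟨true,0,⟨0,[(9,0)]⟩,⟨0,[(51,0)]⟩⟩ ⟨true,0,⟨48,[(1,38),(1,4),(3,3),(7,
  3),(6,8),(2,3),(8,4),(14,19)]⟩,⟨0,[(4,0),(28,0)]⟩⟩ ⟨false,1,⟨3,[(1,0),(5,0),(6,0),(0,0),(8,0),(11,
  2),(15,2)]⟩,⟨10,[(3,0),(11,0),(0,6),(18,10),(2,7),(0,8),(6,0),(2,7)]⟩⟩,.o ⟨false,0,⟨10,[(3,1),(11,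
  1),(0,2),(18,10),(2,4),(0,6),(6,1),(2,4)]⟩,⟨1,[(36,1),(9,0),(5,0)]⟩⟩,.o ⟨false,0,⟨11,[(13,7),(19,
  0),(0,0),(0,11),(2,7),(7,5)]⟩,⟨0,[(11,0),(3,0),(9,0),(10,0)]⟩⟩]⟩) (.R ⟨0,false,false,true,[0,0,0,
  1],[0,1],[0,1,1,1],(⟨0,[(36,0)]⟩,⟨0,[(35,0)]⟩),(⟨0,[(48,0)]⟩,⟨0,[(47,0)]⟩),⟨0,[(0,0)]⟩,.k,.k,(.r
  0 ⟨0,[(1,0)]⟩ ⟨107,[(3,31),(3,3),(5,7),(8,15),(1,15),(3,11),(4,100),(0,46)]⟩),(.r 0 ⟨0,[(1,0)]⟩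
  ⟨107,[(3,31),(3,3),(5,7),(8,15),(1,15),(3,11),(4,100),(0,46)]⟩),.k,.k,⟨false,1,⟨3,[(33,0),(0,0),
  (17,1)]⟩,⟨0,[]⟩⟩,⟨true,1,⟨0,[(36,0),(15,0)]⟩,⟨16,[(0,14),(9,5),(2,11),(13,2),(7,1),(2,11),(7,
  0)]⟩⟩,⟨true,0,⟨2,[(3,0),(0,0),(26,0),(1,1),(5,0)]⟩,⟨0,[(2,0)]⟩⟩,⟨false,1,⟨0,[(14,0),(35,0)]⟩,⟨119,
  [(0,119),(3,21),(0,59),(4,47),(2,8),(13,23),(6,18),(3,8),(10,70)]⟩⟩,⟨false,0,⟨0,[]⟩,⟨0,[]⟩⟩,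
  ⟨false,0,⟨0,[]⟩,⟨0,[]⟩⟩,[.o ⟨false,0,⟨0,[(50,0)]⟩,⟨23,[(5,1),(7,7),(6,9),(12,0),(4,7),(7,11),(6,
  6)]⟩⟩,.a ⟨true,0,⟨0,[(9,0)]⟩,⟨0,[(51,0)]⟩⟩ ⟨true,0,⟨26,[(3,7),(3,0),(5,1),(8,3),(1,3),(3,2),(4,4),
  (0,4)]⟩,⟨0,[(51,0)]⟩⟩ ⟨false,1,⟨3,[(1,0),(5,0),(6,0),(0,0),(8,0),(11,2),(15,2)]⟩,⟨129,[(0,129),(4,
  61),(4,51),(0,0),(1,42),(2,0),(3,0),(6,25),(5,30),(4,42)]⟩⟩,.o ⟨false,0,⟨16,[(0,4),(9,1),(2,3),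
  (13,0),(7,11),(2,3),(7,5)]⟩,⟨1,[(36,1),(9,0),(5,0)]⟩⟩,.o ⟨false,0,⟨11,[(13,7),(19,0),(0,0),(0,11),
  (2,7),(7,5)]⟩,⟨0,[(11,0),(3,0),(9,0),(10,0)]⟩⟩]⟩)) (.Q [0,1,1,-1,-1,0,0,0,1,0,0,-1] (.p false [0,
  0,0,1] [] (⟨0,[(35,0)]⟩,⟨0,[(34,0)]⟩) .k 0 (⟨0,[]⟩,⟨0,[]⟩) .k .k) (.R ⟨2,true,false,true,[0,1],[0,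
  0,0,1],[0,1,1],(⟨0,[]⟩,⟨0,[]⟩),(⟨0,[(36,0)]⟩,⟨0,[(35,0)]⟩),⟨0,[]⟩,.k,.k,.k,(.x (-1) ⟨31,[(6,15),
  (4,1),(4,1),(3,1),(4,11),(6,1),(12,15),(0,0),(5,10)]⟩ ⟨29,[(10,11),(2,9),(13,5),(5,10),(0,10),(3,
  9)]⟩),.k,.k,⟨true,0,⟨0,[(1,0),(49,0)]⟩,⟨40,[(2,17),(0,3),(0,4),(2,0),(7,0),(6,4),(2,0),(8,8)]⟩⟩,
  ⟨false,0,⟨19,[(0,5),(2,1),(9,1),(8,1),(10,2),(1,13),(2,1),(7,6),(2,1)]⟩,⟨0,[(36,0),(15,0)]⟩⟩,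
  ⟨false,0,⟨0,[(51,0)]⟩,⟨5,[(7,1),(25,0),(0,0),(11,0),(6,2)]⟩⟩,⟨true,(-1),⟨0,[(0,0)]⟩,⟨0,[(14,0),
  (35,0)]⟩⟩,⟨true,0,⟨0,[(55,0)]⟩,⟨0,[]⟩⟩,⟨false,0,⟨11,[(0,5),(2,1),(18,1),(11,2),(0,5),(10,2),(6,
  1)]⟩,⟨0,[(14,0)]⟩⟩,[]⟩) (.R ⟨1,false,false,true,[0,0,0,1],[0,1],[1,0,0,0,0,0,0,0,1],(⟨0,[(36,0)]⟩,
  ⟨0,[(35,0)]⟩),(⟨0,[(48,0)]⟩,⟨0,[(47,0)]⟩),⟨3,[(0,0),(3,0),(5,0),(0,0),(3,0),(7,0),(12,2)]⟩,.k,.k,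
  (.x 0 ⟨29,[(10,11),(2,9),(13,5),(5,10),(0,10),(3,9)]⟩ ⟨31,[(6,15),(4,1),(4,1),(3,1),(4,11),(6,1),
  (12,15),(0,0),(5,10)]⟩),(.x 0 ⟨29,[(10,11),(2,9),(13,5),(5,10),(0,10),(3,9)]⟩ ⟨31,[(6,15),(4,1),
  (4,1),(3,1),(4,11),(6,1),(12,15),(0,0),(5,10)]⟩),(.r (-1) ⟨0,[(5,0)]⟩ ⟨46,[(1,66),(1,7),(3,0),(5,
  1),(8,3),(1,3),(3,2),(5,9)]⟩),.k,⟨false,1,⟨1,[(2,1),(49,0),(0,0)]⟩,⟨0,[(1,0),(53,0)]⟩⟩,⟨true,1,⟨0,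
  [(36,0),(15,0)]⟩,⟨0,[(1,0),(2,0),(10,0),(19,0),(3,0),(9,0),(1,1)]⟩⟩,⟨true,0,⟨0,[]⟩,⟨0,[(55,0)]⟩⟩,
  ⟨false,1,⟨0,[(0,0),(54,0)]⟩,⟨5,[(4,4),(0,0),(14,0),(14,5),(10,2),(2,4),(1,1)]⟩⟩,⟨false,1,⟨5,[(7,
  1),(25,0),(0,0),(11,0),(6,2)]⟩,⟨0,[(51,0)]⟩⟩,⟨false,1,⟨0,[(0,0),(49,0)]⟩,⟨5,[(4,4),(0,0),(14,0),
  (14,5),(10,2),(2,4),(1,7)]⟩⟩,[.o ⟨false,0,⟨0,[(50,0)]⟩,⟨23,[(5,1),(7,7),(6,9),(12,0),(4,7),(7,11),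
  (6,6)]⟩⟩,.a ⟨true,0,⟨0,[(9,0)]⟩,⟨0,[(51,0)]⟩⟩ ⟨true,0,⟨48,[(2,38),(0,4),(3,3),(7,3),(6,8),(2,3),
  (8,4),(14,19)]⟩,⟨0,[(4,0),(28,0)]⟩⟩ ⟨false,1,⟨4,[(0,0),(1,0),(4,0),(7,0),(8,0),(11,3),(15,3)]⟩,
  ⟨10,[(3,0),(11,0),(0,6),(18,10),(2,7),(0,8),(6,0),(2,7)]⟩⟩,.o ⟨false,0,⟨10,[(3,1),(11,1),(0,2),
  (18,10),(2,4),(0,6),(6,1),(2,4)]⟩,⟨1,[(36,1),(9,0),(5,0)]⟩⟩,.o ⟨false,0,⟨11,[(13,7),(19,0),(0,0),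
  (0,11),(2,7),(7,5)]⟩,⟨0,[(11,0),(3,0),(9,0),(10,0)]⟩⟩]⟩)))))) (.Q [0,1,1,0,0,0,0,0,1,0,0,-1] (.p
  false [0,0,0,1] [] (⟨0,[(31,0)]⟩,⟨0,[(30,0)]⟩) .k 0 (⟨0,[]⟩,⟨0,[]⟩) .k .k) (.Q [0,1,-1,0,0,0,0,0,
  -1,0,0,1] (.p true [0,0,0,1] [] (⟨0,[(32,0)]⟩,⟨0,[(31,0)]⟩) .k 0 (⟨0,[]⟩,⟨0,[]⟩) .k .k) (.K ⟨0,[0,
  0,0,1],0,0,(⟨0,[(33,0)]⟩,⟨0,[(32,0)]⟩),.k,(.r (-1) ⟨23,[(8,3),(4,3),(3,3),(12,0),(0,12),(17,1)]⟩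
  ⟨7,[(2,3),(27,2),(0,0)]⟩),(.x 0 ⟨0,[(45,0)]⟩ ⟨11,[(18,3),(1,3),(9,4),(0,4),(11,1)]⟩),.k,.k,[⟨0,
  [(33,0)]⟩,⟨0,[(32,0)]⟩,⟨0,[(0,0)]⟩,⟨0,[(1,0)]⟩]⟩) (.R ⟨1,false,false,true,[1,0,0,-1],[0,1],[1,0,0,
  0,0,0,0,0,-1],(⟨0,[(32,0)]⟩,⟨0,[(33,0)]⟩),(⟨0,[(45,0)]⟩,⟨0,[(44,0)]⟩),⟨3,[(0,0),(1,0),(1,0),(2,0),
  (0,1),(3,0),(0,0),(6,0),(11,2)]⟩,.k,.k,(.x (-1) ⟨11,[(18,3),(1,3),(9,4),(0,4),(11,1)]⟩ ⟨0,[(45,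
  0)]⟩),(.x (-1) ⟨11,[(18,3),(1,3),(9,4),(0,4),(11,1)]⟩ ⟨0,[(45,0)]⟩),(.r (-1) ⟨3,[(2,1),(5,1),(4,
  1),(3,1),(12,0),(18,0)]⟩ ⟨0,[(2,0),(28,0)]⟩),.k,⟨false,1,⟨15,[(2,13),(5,1),(4,1),(3,17),(12,0),
  (18,8)]⟩,⟨2,[(1,0),(8,0),(1,0),(8,0),(6,0),(2,0),(1,0)]⟩⟩,⟨true,0,⟨0,[(32,0)]⟩,⟨4,[(10,0),(1,1),
  (0,0),(19,4),(1,1),(0,2),(6,0),(2,1)]⟩⟩,⟨true,0,⟨0,[]⟩,⟨0,[(52,0)]⟩⟩,⟨false,0,⟨4,[(0,1),(0,0),(3,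
  1),(4,0),(17,0),(2,0),(0,1)]⟩,⟨5,[(2,4),(5,0),(2,0),(1,0),(3,5),(15,4),(9,2)]⟩⟩,⟨false,1,⟨5,[(4,
  1),(25,0),(0,0),(11,0),(6,2)]⟩,⟨0,[(48,0)]⟩⟩,⟨false,0,⟨1,[(0,0),(0,0),(3,1)]⟩,⟨5,[(2,4),(5,0),(2,
  0),(1,0),(3,5),(15,4),(9,2),(4,5)]⟩⟩,[.o ⟨false,0,⟨0,[(47,0)]⟩,⟨23,[(10,7),(6,11),(12,0),(0,0),(3,
  7),(7,11),(6,5)]⟩⟩,.a ⟨true,0,⟨0,[(6,0)]⟩,⟨0,[(48,0)]⟩⟩ ⟨true,0,⟨0,[(2,0),(14,0)]⟩,⟨0,[(1,0),(31,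
  0)]⟩⟩ ⟨false,0,⟨0,[(0,0),(1,0),(1,0),(3,0),(4,0)]⟩,⟨19,[(8,3),(2,1),(1,3),(3,1),(13,0),(1,17),(9,
  9),(5,0)]⟩⟩,.o ⟨false,1,⟨1,[(33,1),(9,0),(5,0)]⟩,⟨7,[(0,3),(1,1),(10,1),(16,0),(1,3),(2,1),(0,1),
  (6,0)]⟩⟩,.e ⟨false,1,⟨3,[(2,1),(14,1),(12,0),(18,1),(0,0)]⟩,⟨1,[(0,0),(0,0),(31,1)]⟩⟩ ⟨false,0,⟨0,
  [(0,0),(1,0),(1,0),(3,0),(4,0)]⟩,⟨23,[(10,7),(6,11),(12,0),(0,0),(1,23),(1,7),(7,11),(6,5)]⟩⟩]⟩))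
  (.Q [0,0,0,0,0,-1,0,0,0,1,0,-1] (.ed true [0,1,0,1] .k) (.R ⟨1,false,false,true,[1,0,0,-1],[0,-1,
  1],[1,1,0,0,0,0,0,0,-1],(⟨0,[(32,0)]⟩,⟨0,[(33,0)]⟩),(⟨0,[(18,0)]⟩,⟨1,[(3,0),(6,0),(30,0)]⟩),⟨0,
  [(0,0)]⟩,.k,.k,(.x (-1) ⟨11,[(18,3),(1,3),(9,4),(0,4),(11,1)]⟩ ⟨0,[(45,0)]⟩),(.r 1 ⟨0,[(1,0),(8,
  0),(1,1),(19,0),(3,0),(11,0)]⟩ ⟨13,[(8,8),(10,2),(8,0),(1,5),(0,12),(4,1),(2,0)]⟩),.k,.k,⟨true,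
  (-1),⟨0,[(1,0),(8,0),(1,1),(19,0),(3,0),(11,0)]⟩,⟨59,[(8,35),(1,19),(8,11),(5,11),(4,6),(0,36),(3,
  7),(0,11)]⟩⟩,⟨false,0,⟨0,[(32,0),(5,0)]⟩,⟨3,[(1,1),(6,2),(3,3),(8,0),(6,0),(2,0),(1,1)]⟩⟩,⟨false,
  0,⟨0,[]⟩,⟨3,[(30,0),(0,0),(18,1)]⟩⟩,⟨false,1,⟨59,[(8,35),(1,55),(8,11),(10,12),(0,42),(0,59),(2,
  7),(0,11),(6,23)]⟩,⟨0,[(1,0),(10,0)]⟩⟩,⟨true,0,⟨0,[(47,0)]⟩,⟨0,[(48,0)]⟩⟩,⟨false,1,⟨19,[(8,3),(1,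
  7),(8,7),(10,4),(0,14),(0,19),(3,7),(1,3),(4,3)]⟩,⟨0,[(1,0),(10,0),(35,0)]⟩⟩,[.o ⟨false,0,⟨0,[(36,
  0),(11,0)]⟩,⟨11,[(4,1),(9,5),(15,0),(0,0),(11,3),(6,5)]⟩⟩,.o ⟨false,1,⟨19,[(8,11),(1,3),(8,3),(10,
  4),(0,4),(4,3),(1,11),(4,1)]⟩,⟨0,[(12,0)]⟩⟩,.o ⟨false,1,⟨1,[(33,1),(9,0),(5,0)]⟩,⟨4,[(10,0),(1,1),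
  (0,0),(18,4),(2,1),(0,2),(6,0),(2,1)]⟩⟩,.a ⟨true,0,⟨0,[(33,0)]⟩,⟨0,[(32,0)]⟩⟩ ⟨false,0,⟨0,[(1,0),
  (10,0),(19,0),(3,0),(11,0)]⟩,⟨5,[(10,1),(19,0),(0,3),(3,1),(14,2)]⟩⟩ ⟨true,0,⟨0,[(32,0),(3,0),(11,
  0)]⟩,⟨0,[(12,0),(20,0)]⟩⟩]⟩) (.R ⟨0,false,false,true,[1,0,0,-1],[0,1],[0,0,1],(⟨0,[(32,0)]⟩,⟨0,
  [(33,0)]⟩),(⟨0,[(45,0)]⟩,⟨0,[(44,0)]⟩),⟨0,[(0,0)]⟩,.k,.k,(.x (-1) ⟨11,[(18,3),(1,3),(9,4),(0,4),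
  (11,1)]⟩ ⟨0,[(45,0)]⟩),(.x (-1) ⟨11,[(18,3),(1,3),(9,4),(0,4),(11,1)]⟩ ⟨0,[(45,0)]⟩),.k,.k,⟨false,
  1,⟨7,[(17,3),(12,0),(0,0),(18,1)]⟩,⟨0,[(47,0)]⟩⟩,⟨true,0,⟨0,[(32,0)]⟩,⟨4,[(0,4),(6,1),(16,0),(5,
  0),(0,0)]⟩⟩,⟨false,1,⟨5,[(10,1),(19,0),(0,3),(3,1),(14,2)]⟩,⟨0,[(1,0),(10,0),(19,0),(3,0),(11,
  0)]⟩⟩,⟨true,0,⟨1,[(10,0),(1,0),(15,0),(2,0),(0,1),(3,0)]⟩,⟨0,[(1,0),(10,0),(23,0),(11,1)]⟩⟩,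
  ⟨false,0,⟨0,[]⟩,⟨0,[]⟩⟩,⟨false,0,⟨0,[]⟩,⟨0,[]⟩⟩,[.o ⟨false,0,⟨0,[(47,0)]⟩,⟨23,[(10,7),(6,11),(12,
  0),(0,0),(3,7),(7,11),(6,5)]⟩⟩,.e ⟨true,0,⟨3,[(10,0),(24,0),(10,0),(3,0)]⟩,⟨0,[(52,0)]⟩⟩ ⟨true,0,
  ⟨7,[(2,3),(27,0),(0,2),(0,7)]⟩,⟨18,[(0,18),(6,6),(0,3),(3,0),(0,2),(3,2),(2,0),(3,2)]⟩⟩,.o ⟨false,
  1,⟨1,[(33,1),(9,0),(5,0)]⟩,⟨4,[(10,0),(1,1),(0,0),(18,4),(2,1),(0,2),(6,0),(2,1)]⟩⟩,.a ⟨true,0,⟨0,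
  [(33,0)]⟩,⟨0,[(32,0)]⟩⟩ ⟨false,1,⟨3,[(30,0),(0,0),(18,1)]⟩,⟨0,[]⟩⟩ ⟨true,0,⟨0,[(32,0),(14,0)]⟩,
  ⟨18,[(0,18),(6,6),(0,3),(3,0),(0,2),(3,2),(2,0),(3,2)]⟩⟩]⟩))))))) (.Q [0,1,-1,0,0,0,0,0,-1,0,0,1]
  (.p true [0,0,0,1] [] (⟨0,[(27,0)]⟩,⟨0,[(26,0)]⟩) .k 0 (⟨0,[]⟩,⟨0,[]⟩) .k .k) (.K ⟨0,[0,0,0,1],0,
  0,(⟨0,[(28,0)]⟩,⟨0,[(27,0)]⟩),.k,(.r (-1) ⟨23,[(3,3),(4,3),(3,3),(12,0),(0,12),(17,1)]⟩ ⟨41,[(0,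
  7),(0,1),(3,16),(1,21),(6,14),(1,6),(3,0),(4,16),(1,7)]⟩),(.x 0 ⟨0,[(40,0)]⟩ ⟨11,[(13,3),(1,3),(9,
  4),(0,4),(11,1)]⟩),.k,.k,[⟨0,[(28,0)]⟩,⟨0,[(27,0)]⟩,⟨0,[(0,0)]⟩,⟨7,[(1,8),(3,3),(1,1),(8,2),(6,3),
  (2,3),(0,7),(1,0)]⟩]⟩) (.Q [0,0,0,0,0,-1,0,0,0,1,0,-1] (.ed true [0,1,0,1] .k) (.I [0,0,2,2,-1,0,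
  0,-1,1] (.I [0,0,-1,-1,1,0,0,1,-1] (.R ⟨1,false,false,false,[1,0,0,-1],[1,0,-1],[0,0,0,-1,0,0,0,0,
  -1],(⟨0,[(30,0)]⟩,⟨0,[(31,0)]⟩),(⟨0,[(39,0)]⟩,⟨0,[(40,0)]⟩),⟨0,[(2,0)]⟩,.k,.k,(.x (-1) ⟨11,[(16,
  3),(1,3),(9,4),(0,4),(11,1)]⟩ ⟨0,[(43,0)]⟩),.k,(.r (-1) ⟨0,[(0,0)]⟩ ⟨7,[(1,3),(26,0),(0,2),(8,
  3)]⟩),.k,⟨false,1,⟨0,[(0,0)]⟩,⟨11,[(1,9),(9,1),(3,1),(13,0),(17,6)]⟩⟩,⟨true,0,⟨0,[(30,0),(2,0)]⟩,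
  ⟨2,[(4,0),(15,0),(6,0),(3,2)]⟩⟩,⟨true,0,⟨0,[(46,0)]⟩,⟨0,[(45,0)]⟩⟩,⟨false,0,⟨10,[(1,2),(1,5),(3,
  0),(6,3),(0,0),(7,0),(5,0),(0,4),(13,1)]⟩,⟨0,[(9,0),(24,0)]⟩⟩,⟨false,1,⟨3,[(28,0),(0,0),(18,1)]⟩,
  ⟨0,[]⟩⟩,⟨false,0,⟨35,[(1,11),(1,21),(3,7),(4,11),(10,1),(5,0),(0,13),(13,3),(3,2)]⟩,⟨2,[(0,1),(3,
  0),(4,0),(17,0),(3,1),(2,0)]⟩⟩,[.o ⟨false,0,⟨2,[(4,0),(5,0),(2,0)]⟩,⟨3,[(0,1),(18,1),(9,0),(6,1),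
  (11,0)]⟩⟩,.o ⟨false,1,⟨7,[(13,3),(14,0),(0,0),(11,1),(6,3)]⟩,⟨0,[(34,0)]⟩⟩,.o ⟨false,1,⟨1,[(31,1),
  (9,0),(5,0)]⟩,⟨13,[(3,1),(0,3),(3,3),(1,1),(8,1),(8,0),(1,11),(2,3),(7,2)]⟩⟩,.a ⟨true,0,⟨0,[(31,
  0)]⟩,⟨0,[(30,0)]⟩⟩ ⟨false,1,⟨0,[(0,0),(23,0)]⟩,⟨63,[(1,19),(6,3),(8,11),(1,7),(3,3),(2,3),(1,0),
  (0,22)]⟩⟩ ⟨true,0,⟨2,[(4,0),(5,0),(2,0),(16,2)]⟩,⟨0,[(31,0),(2,0)]⟩⟩]⟩) (.R ⟨1,false,false,false,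
  [1,0,0,-1],[1,-1],[1,1,0,0,0,0,0,0,-1],(⟨0,[(30,0)]⟩,⟨0,[(31,0)]⟩),(⟨0,[(42,0)]⟩,⟨0,[(43,0)]⟩),⟨0,
  [(2,0)]⟩,.k,.k,(.x (-1) ⟨11,[(16,3),(1,3),(9,4),(0,4),(11,1)]⟩ ⟨0,[(43,0)]⟩),(.x (-1) ⟨0,[(43,0),
  (3,0)]⟩ ⟨29,[(5,11),(2,9),(13,5),(5,10),(0,10),(3,9)]⟩),.k,.k,⟨true,0,⟨7,[(4,0),(3,3),(1,1),(8,2),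
  (6,3),(1,3),(3,0)]⟩,⟨44,[(0,34),(3,3),(1,34),(1,7),(6,2),(7,3),(5,4),(14,20)]⟩⟩,⟨false,0,⟨13,[(3,
  1),(0,3),(3,3),(1,1),(8,1),(8,0),(1,11),(2,3),(7,2)]⟩,⟨0,[(31,0),(15,0)]⟩⟩,⟨false,0,⟨0,[]⟩,⟨3,
  [(28,0),(0,0),(18,1)]⟩⟩,⟨false,0,⟨6,[(3,6),(0,0),(1,0),(1,1),(2,0),(3,0),(7,0)]⟩,⟨0,[(9,0),(35,
  0)]⟩⟩,⟨true,0,⟨0,[(45,0)]⟩,⟨0,[(46,0)]⟩⟩,⟨false,0,⟨0,[(3,0)]⟩,⟨0,[(9,0),(40,0)]⟩⟩,[.o ⟨false,0,⟨0,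
  [(4,0)]⟩,⟨3,[(28,0),(0,0),(15,3),(2,1)]⟩⟩,.o ⟨false,1,⟨23,[(8,7),(6,11),(12,0),(0,0),(3,7),(7,11),
  (6,5)]⟩,⟨0,[(45,0)]⟩⟩,.o ⟨false,1,⟨1,[(31,1),(9,0),(5,0)]⟩,⟨13,[(3,1),(0,3),(3,3),(1,1),(8,1),(8,
  0),(1,11),(2,3),(7,2)]⟩⟩,.a ⟨true,0,⟨0,[(31,0)]⟩,⟨0,[(30,0)]⟩⟩ ⟨false,1,⟨1,[(28,0),(18,0)]⟩,⟨20,
  [(0,6),(3,1),(1,3),(1,3),(8,2),(5,1),(5,6),(14,8)]⟩⟩ ⟨true,0,⟨0,[(4,0),(25,0)]⟩,⟨0,[(31,0),(13,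
  0)]⟩⟩]⟩)) (.R ⟨1,false,false,true,[1,0,0,-1],[0,1],[1,1,0,0,0,0,0,0,-1],(⟨0,[(29,0)]⟩,⟨0,[(30,
  0)]⟩),(⟨0,[(42,0)]⟩,⟨0,[(41,0)]⟩),⟨0,[(1,0)]⟩,.k,.k,(.x (-1) ⟨11,[(15,3),(1,3),(9,4),(0,4),(11,
  1)]⟩ ⟨0,[(42,0)]⟩),(.x (-1) ⟨11,[(15,3),(1,3),(9,4),(0,4),(11,1)]⟩ ⟨0,[(42,0)]⟩),(.r (-1) ⟨5,[(0,
  3),(9,1),(12,1),(3,0),(18,0)]⟩ ⟨3,[(7,1),(1,0),(1,0),(4,2),(11,1),(6,0),(8,2)]⟩),.k,⟨false,1,⟨17,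
  [(0,15),(9,1),(0,5),(7,5),(0,5),(2,1),(3,0),(18,0)]⟩,⟨4,[(2,2),(4,0),(1,0),(8,0),(0,0),(5,1),(2,
  0),(1,2)]⟩⟩,⟨true,0,⟨0,[(29,0)]⟩,⟨3,[(3,0),(3,0),(11,0),(10,3),(1,1),(7,0)]⟩⟩,⟨false,0,⟨0,[]⟩,⟨3,
  [(27,0),(0,0),(18,1)]⟩⟩,⟨false,0,⟨4,[(2,2),(4,0),(12,1),(4,2),(2,0),(0,1)]⟩,⟨0,[(3,0),(4,0)]⟩⟩,
  ⟨true,0,⟨0,[(44,0)]⟩,⟨0,[(45,0)]⟩⟩,⟨false,0,⟨0,[(2,0),(17,0),(4,0)]⟩,⟨27,[(0,1),(2,30),(3,5),(0,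
  17),(4,0),(0,9),(7,1),(4,3),(2,9)]⟩⟩,[.o ⟨false,0,⟨0,[(44,0)]⟩,⟨23,[(7,7),(6,11),(12,0),(0,0),(3,
  7),(7,11),(6,5)]⟩⟩,.o ⟨false,1,⟨3,[(27,0),(0,0),(15,3),(2,1)]⟩,⟨0,[(3,0)]⟩⟩,.o ⟨false,1,⟨1,[(30,
  1),(9,0),(5,0)]⟩,⟨13,[(2,1),(0,3),(3,3),(1,1),(8,1),(8,0),(1,11),(2,3),(7,2)]⟩⟩,.a ⟨true,0,⟨0,
  [(30,0)]⟩,⟨0,[(29,0)]⟩⟩ ⟨false,1,⟨1,[(27,0),(18,0)]⟩,⟨0,[(2,0),(27,0)]⟩⟩ ⟨true,0,⟨0,[(29,0),(14,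
  0)]⟩,⟨0,[(3,0),(26,0)]⟩⟩]⟩)) (.I [0,0,-2,-1,1,0,0,0,-1] (.R ⟨0,false,false,true,[1,0,0,-1],[0,1],
  [0,1,0,0,0,0,0,0,-1],(⟨0,[(29,0)]⟩,⟨0,[(30,0)]⟩),(⟨0,[(42,0)]⟩,⟨0,[(41,0)]⟩),⟨0,[(1,0)]⟩,.k,.k,
  (.x (-1) ⟨11,[(15,3),(1,3),(9,4),(0,4),(11,1)]⟩ ⟨0,[(42,0)]⟩),(.x (-1) ⟨11,[(15,3),(1,3),(9,4),(0,
  4),(11,1)]⟩ ⟨0,[(42,0)]⟩),.k,.k,⟨false,1,⟨0,[(0,0)]⟩,⟨4,[(2,2),(4,0),(1,0),(8,0),(0,0),(5,1),(2,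
  0),(1,2)]⟩⟩,⟨true,0,⟨0,[(29,0)]⟩,⟨16,[(1,4),(2,1),(2,3),(13,0),(8,11),(1,3),(7,5)]⟩⟩,⟨true,0,⟨0,
  [(49,0)]⟩,⟨0,[]⟩⟩,⟨false,0,⟨4,[(2,2),(4,0),(12,1),(4,2),(2,0),(0,1)]⟩,⟨0,[(3,0),(4,0)]⟩⟩,⟨false,0,
  ⟨0,[]⟩,⟨0,[]⟩⟩,⟨false,0,⟨0,[]⟩,⟨0,[]⟩⟩,[.o ⟨false,0,⟨0,[(44,0)]⟩,⟨23,[(7,7),(6,11),(12,0),(0,0),
  (3,7),(7,11),(6,5)]⟩⟩,.o ⟨false,1,⟨3,[(27,0),(0,0),(15,3),(2,1)]⟩,⟨0,[(3,0)]⟩⟩,.o ⟨false,1,⟨1,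
  [(30,1),(9,0),(5,0)]⟩,⟨13,[(2,1),(0,3),(3,3),(1,1),(8,1),(8,0),(1,11),(2,3),(7,2)]⟩⟩,.a ⟨true,0,
  ⟨0,[(30,0)]⟩,⟨0,[(29,0)]⟩⟩ ⟨false,1,⟨1,[(27,0),(18,0)]⟩,⟨0,[(2,0),(27,0)]⟩⟩ ⟨true,0,⟨0,[(29,0),
  (14,0)]⟩,⟨0,[(3,0),(26,0)]⟩⟩]⟩) (.R ⟨0,false,false,false,[1,0,0,-1],[1,0,-1],[0,1,0,0,0,0,0,0,-1],
  (⟨0,[(29,0)]⟩,⟨0,[(30,0)]⟩),(⟨0,[(38,0)]⟩,⟨0,[(39,0)]⟩),⟨0,[(1,0)]⟩,.k,.k,(.x (-1) ⟨11,[(15,3),(1,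
  3),(9,4),(0,4),(11,1)]⟩ ⟨0,[(42,0)]⟩),.k,.k,.k,⟨false,1,⟨1,[(5,0),(12,0),(6,0),(1,0)]⟩,⟨13,[(0,
  11),(9,1),(3,3),(8,11),(4,0),(17,6)]⟩⟩,⟨true,0,⟨0,[(29,0),(2,0)]⟩,⟨50,[(1,19),(2,4),(0,1),(4,1),
  (3,1),(2,4),(1,11),(6,16),(3,30),(9,0)]⟩⟩,⟨true,0,⟨0,[(49,0)]⟩,⟨0,[]⟩⟩,⟨false,0,⟨13,[(0,2),(1,6),
  (9,5),(0,0),(0,0),(13,1),(0,6),(13,2)]⟩,⟨0,[(8,0),(24,0)]⟩⟩,⟨false,0,⟨0,[]⟩,⟨0,[]⟩⟩,⟨false,0,⟨0,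
  []⟩,⟨0,[]⟩⟩,[.o ⟨false,0,⟨2,[(3,0),(5,0),(2,0)]⟩,⟨3,[(27,0),(0,0),(4,3),(13,1)]⟩⟩,.o ⟨false,1,⟨7,
  [(12,3),(14,0),(0,0),(11,1),(6,3)]⟩,⟨0,[(33,0)]⟩⟩,.o ⟨false,1,⟨1,[(30,1),(9,0),(5,0)]⟩,⟨13,[(2,1),
  (0,3),(3,3),(1,1),(8,1),(8,0),(1,11),(2,3),(7,2)]⟩⟩,.a ⟨true,0,⟨0,[(30,0)]⟩,⟨0,[(29,0)]⟩⟩ ⟨false,
  1,⟨1,[(27,0),(18,0)]⟩,⟨34,[(0,14),(2,0),(3,1),(6,6),(7,0),(5,9),(14,13)]⟩⟩ ⟨true,0,⟨2,[(3,0),(5,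
  0),(2,0),(16,2)]⟩,⟨0,[(30,0),(2,0)]⟩⟩]⟩))))))) (.Q [0,1,-1,0,0,0,0,0,-1,0,0,1] (.p true [0,0,0,1]
  [] (⟨0,[(24,0)]⟩,⟨0,[(23,0)]⟩) .k 0 (⟨0,[]⟩,⟨0,[]⟩) .k .k) (.Q [0,1,1,0,0,0,0,0,1,0,0,-1] (.p
  false [0,0,0,1] [] (⟨0,[(25,0)]⟩,⟨0,[(24,0)]⟩) .k 0 (⟨0,[]⟩,⟨0,[]⟩) .k .k) (.K ⟨0,[0,0,0,1],0,0,
  (⟨0,[(26,0)]⟩,⟨0,[(25,0)]⟩),.k,(.r (-1) ⟨27,[(6,3),(3,11),(10,3),(1,0),(0,14),(4,3)]⟩ ⟨16,[(1,2),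
  (0,1),(0,4),(1,7),(6,5),(1,1),(6,0),(1,6),(1,2)]⟩),(.x 0 ⟨0,[(38,0)]⟩ ⟨11,[(11,3),(1,3),(9,4),(0,
  4),(11,1)]⟩),.k,.k,[⟨0,[(26,0)]⟩,⟨0,[(25,0)]⟩,⟨0,[(1,0)]⟩,⟨0,[(0,0)]⟩]⟩) (.R ⟨1,false,false,true,
  [0,0,0,1],[0,1],[1,0,0,0,0,0,0,0,1],(⟨0,[(26,0)]⟩,⟨0,[(25,0)]⟩),(⟨0,[(38,0)]⟩,⟨0,[(37,0)]⟩),⟨5,
  [(0,3),(1,1),(2,0),(0,0),(4,1),(1,1),(4,0),(2,0),(2,1),(1,1),(2,1)]⟩,.k,.k,(.r (-1) ⟨27,[(6,3),(3,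
  11),(10,3),(1,0),(0,14),(4,3)]⟩ ⟨24,[(0,2),(1,3),(0,6),(1,9),(6,5),(1,3),(6,4),(1,10),(1,2)]⟩),
  (.r (-1) ⟨27,[(6,3),(3,11),(10,3),(1,0),(0,14),(4,3)]⟩ ⟨24,[(0,2),(1,3),(0,6),(1,9),(6,5),(1,3),
  (6,4),(1,10),(1,2)]⟩),(.r (-2) ⟨27,[(6,7),(3,23),(10,7),(1,8),(0,22),(4,7)]⟩ ⟨38,[(0,26),(1,44),
  (2,24),(6,12),(1,11),(3,1),(2,27),(1,5),(1,26)]⟩),.k,⟨false,2,⟨7,[(10,3),(12,0),(0,4),(17,3),(0,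
  1)]⟩,⟨3,[(0,3),(1,3),(2,2),(0,0),(11,0),(2,2),(3,3),(3,3)]⟩⟩,⟨true,1,⟨1,[(0,0),(0,0),(22,0),(17,
  0)]⟩,⟨0,[(2,0),(22,0),(2,0)]⟩⟩,⟨true,0,⟨0,[]⟩,⟨0,[(45,0)]⟩⟩,⟨false,0,⟨0,[(0,0),(39,0)]⟩,⟨7,[(3,4),
  (6,3),(13,3),(0,7),(2,4),(7,3),(2,0),(3,0)]⟩⟩,⟨false,1,⟨0,[(40,0),(2,0)]⟩,⟨0,[(41,0)]⟩⟩,⟨false,0,
  ⟨0,[(0,0),(14,0),(5,0)]⟩,⟨1,[(3,1),(6,1),(13,0),(0,1),(2,1),(7,0)]⟩⟩,[.o ⟨false,0,⟨0,[(40,0)]⟩,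
  ⟨23,[(3,7),(6,11),(12,0),(0,0),(3,7),(7,11),(6,5)]⟩⟩,.a ⟨true,0,⟨2,[(0,1),(2,0),(11,0),(5,1),(2,
  0),(0,1)]⟩,⟨0,[(41,0)]⟩⟩ ⟨true,1,⟨1,[(24,0),(18,0)]⟩,⟨1,[(0,1),(1,1),(2,0),(0,0),(11,0),(2,0),(3,
  1),(3,1)]⟩⟩ ⟨false,1,⟨1,[(0,1),(23,0),(15,1),(1,0)]⟩,⟨2,[(2,0),(22,2),(2,0),(7,0),(4,2)]⟩⟩,.o
  ⟨false,0,⟨2,[(2,0),(22,2),(2,0),(7,0)]⟩,⟨1,[(0,0),(0,0),(22,0),(11,0)]⟩⟩,.o ⟨false,0,⟨11,[(3,7),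
  (19,0),(0,0),(0,11),(2,7),(7,5)]⟩,⟨3,[(0,2),(0,0),(3,3),(4,1),(13,1),(4,3)]⟩⟩]⟩)) (.I [1,-1,-1,0,
  1,0,0,0,-1] (.I [0,0,-1,-1,0,0,0,-1,-1] (.Q [0,0,0,0,0,-1,0,0,0,1,0,-1] (.ed true [0,1,0,1] .k)
  (.R ⟨1,false,false,true,[1,0,0,-1],[0,0,1],[1,0,0,0,0,0,0,0,-1],(⟨0,[(27,0)]⟩,⟨0,[(28,0)]⟩),(⟨0,
  [(37,0)]⟩,⟨0,[(36,0)]⟩),⟨0,[(0,0)]⟩,.k,.k,(.x (-1) ⟨11,[(13,3),(1,3),(9,4),(0,4),(11,1)]⟩ ⟨0,[(40,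
  0)]⟩),.k,(.r 0 ⟨0,[(1,0)]⟩ ⟨3,[(14,1),(1,1),(8,0),(0,2),(7,1)]⟩),.k,⟨true,0,⟨18,[(1,14),(3,1),(1,
  6),(6,2),(3,4),(6,1),(15,7)]⟩,⟨0,[(3,0),(19,0),(4,0),(2,0),(11,0)]⟩⟩,⟨false,0,⟨3,[(1,0),(1,0),(13,
  0),(6,0),(2,2),(3,0)]⟩,⟨3,[(20,1),(7,3),(9,0),(5,2)]⟩⟩,⟨true,0,⟨0,[]⟩,⟨0,[(47,0)]⟩⟩,⟨false,0,⟨0,
  [(3,0),(23,0),(0,0),(2,0)]⟩,⟨48,[(1,9),(4,38),(0,24),(3,6),(0,3),(7,4),(7,9),(9,5),(2,2)]⟩⟩,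
  ⟨false,1,⟨0,[(42,0),(2,0)]⟩,⟨0,[(43,0)]⟩⟩,⟨false,0,⟨0,[(3,0),(12,0),(10,0),(0,0)]⟩,⟨48,[(1,19),(4,
  28),(0,0),(3,13),(0,7),(7,9),(7,19),(9,11),(2,5)]⟩⟩,[.o ⟨false,0,⟨0,[(31,0)]⟩,⟨7,[(10,3),(14,0),
  (0,0),(11,1),(6,3)]⟩⟩,.o ⟨false,1,⟨3,[(25,0),(0,0),(4,3),(13,1)]⟩,⟨4,[(4,0),(2,3),(0,0),(3,0),(7,
  0)]⟩⟩,.o ⟨false,1,⟨1,[(28,1),(9,0),(5,0)]⟩,⟨2,[(4,0),(22,2),(2,0),(7,0)]⟩⟩,.a ⟨true,0,⟨0,[(28,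
  0)]⟩,⟨0,[(27,0)]⟩⟩ ⟨false,1,⟨0,[(2,0)]⟩,⟨9,[(3,3),(0,1),(0,0),(2,0),(11,0),(2,1),(2,2),(1,3),(2,
  0)]⟩⟩ ⟨true,0,⟨0,[(27,0),(3,0)]⟩,⟨4,[(4,0),(2,3),(0,0),(3,0),(7,0),(7,4)]⟩⟩]⟩) (.R ⟨0,false,false,
  true,[1,0,0,-1],[0,0,1],[1,0,0,0,0,0,0,0,-1],(⟨0,[(27,0)]⟩,⟨0,[(28,0)]⟩),(⟨0,[(37,0)]⟩,⟨0,[(36,
  0)]⟩),⟨0,[(0,0)]⟩,.k,.k,(.x (-1) ⟨11,[(13,3),(1,3),(9,4),(0,4),(11,1)]⟩ ⟨0,[(40,0)]⟩),.k,.k,.k,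
  ⟨true,0,⟨18,[(1,14),(3,1),(1,6),(6,2),(3,4),(6,1),(15,7)]⟩,⟨0,[(3,0),(19,0),(4,0),(2,0),(11,0)]⟩⟩,
  ⟨false,0,⟨3,[(1,0),(1,0),(13,0),(6,0),(2,2),(3,0)]⟩,⟨3,[(20,1),(7,3),(9,0),(5,2)]⟩⟩,⟨true,0,⟨0,
  []⟩,⟨0,[(47,0)]⟩⟩,⟨false,0,⟨0,[(3,0),(23,0),(0,0),(2,0)]⟩,⟨206,[(0,29),(0,29),(4,176),(0,94),(3,
  40),(0,11),(0,9),(1,9),(4,14),(17,17),(2,8)]⟩⟩,⟨false,0,⟨0,[]⟩,⟨0,[]⟩⟩,⟨false,0,⟨0,[]⟩,⟨0,[]⟩⟩,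
  [.o ⟨false,0,⟨0,[(31,0)]⟩,⟨7,[(10,3),(14,0),(0,0),(11,1),(6,3)]⟩⟩,.o ⟨false,1,⟨3,[(25,0),(0,0),(4,
  3),(13,1)]⟩,⟨4,[(4,0),(2,3),(0,0),(3,0),(7,0)]⟩⟩,.o ⟨false,1,⟨1,[(28,1),(9,0),(5,0)]⟩,⟨2,[(4,0),
  (22,2),(2,0),(7,0)]⟩⟩,.a ⟨true,0,⟨0,[(28,0)]⟩,⟨0,[(27,0)]⟩⟩ ⟨false,1,⟨0,[(2,0)]⟩,⟨9,[(3,3),(0,1),
  (0,0),(2,0),(11,0),(2,1),(2,2),(1,3),(2,0)]⟩⟩ ⟨true,0,⟨0,[(27,0),(3,0)]⟩,⟨3,[(0,2),(9,1),(2,0),(1,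
  0),(12,0)]⟩⟩]⟩)) (.Q [0,0,0,0,0,-1,0,0,0,1,0,-1] (.ed true [0,1,0,1] .k) (.I [0,-1,0,0,0,0,0,0,1]
  (.R ⟨1,false,false,false,[1,0,0,-1],[1,0,-1],[1,1,0,0,0,0,0,0,-1],(⟨0,[(28,0)]⟩,⟨0,[(29,0)]⟩),(⟨0,
  [(37,0)]⟩,⟨0,[(38,0)]⟩),⟨0,[(1,0)]⟩,.k,.k,(.x (-1) ⟨11,[(14,3),(1,3),(9,4),(0,4),(11,1)]⟩ ⟨0,[(41,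
  0)]⟩),.k,(.x 0 ⟨22,[(5,4),(3,1),(3,3),(0,22),(3,11),(6,1),(6,1),(6,0)]⟩ ⟨7,[(20,3),(5,2),(0,2),
  (13,11),(3,1)]⟩),.k,⟨false,1,⟨0,[(3,0),(20,0),(7,0),(11,0)]⟩,⟨0,[(0,0),(35,0)]⟩⟩,⟨true,0,⟨0,[(28,
  0),(2,0)]⟩,⟨22,[(5,4),(3,1),(3,3),(4,11),(6,1),(3,22),(2,1),(6,0)]⟩⟩,⟨false,0,⟨0,[]⟩,⟨3,[(26,0),
  (0,0),(18,1)]⟩⟩,⟨false,0,⟨9,[(0,1),(3,5),(1,0),(4,4),(15,0),(0,3),(6,0),(6,0)]⟩,⟨0,[(7,0),(24,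
  0)]⟩⟩,⟨true,0,⟨0,[(43,0)]⟩,⟨0,[(44,0)]⟩⟩,⟨false,0,⟨37,[(0,4),(1,7),(1,22),(1,0),(3,22),(8,6),(7,
  0),(0,14),(13,4)]⟩,⟨0,[(7,0),(24,0),(11,0)]⟩⟩,[.o ⟨false,0,⟨4,[(5,0),(2,3),(0,0),(3,0),(7,0)]⟩,⟨3,
  [(26,0),(0,0),(4,3),(13,1)]⟩⟩,.o ⟨false,1,⟨7,[(11,3),(14,0),(0,0),(11,1),(6,3)]⟩,⟨0,[(32,0)]⟩⟩,.o
  ⟨false,1,⟨1,[(29,1),(9,0),(5,0)]⟩,⟨2,[(5,0),(22,2),(2,0),(7,0)]⟩⟩,.a ⟨true,0,⟨0,[(29,0)]⟩,⟨0,[(28,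
  0)]⟩⟩ ⟨false,1,⟨1,[(26,0),(18,0)]⟩,⟨6,[(0,2),(4,0),(0,0),(14,0),(5,1),(14,1)]⟩⟩ ⟨true,0,⟨4,[(5,0),
  (2,3),(0,0),(3,0),(7,0),(6,4)]⟩,⟨0,[(29,0),(2,0)]⟩⟩]⟩) (.R ⟨1,false,false,true,[1,0,0,-1],[0,0,1],
  [0,1,0,-1,0,0,0,0,-1],(⟨0,[(28,0)]⟩,⟨0,[(29,0)]⟩),(⟨0,[(38,0)]⟩,⟨0,[(37,0)]⟩),⟨0,[(1,0)]⟩,.k,.k,
  (.x (-1) ⟨11,[(14,3),(1,3),(9,4),(0,4),(11,1)]⟩ ⟨0,[(41,0)]⟩),.k,(.x (-1) ⟨11,[(16,3),(3,3),(0,1),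
  (4,3),(0,3),(11,0),(5,2)]⟩ ⟨22,[(5,4),(3,1),(3,3),(4,11),(6,1),(6,1),(5,22),(0,0),(1,22)]⟩),.k,
  ⟨true,0,⟨1,[(0,1),(8,0),(12,0),(19,0)]⟩,⟨0,[(2,0)]⟩⟩,⟨false,0,⟨22,[(5,4),(3,1),(3,3),(4,11),(6,1),
  (2,22),(3,1),(6,0)]⟩,⟨3,[(21,1),(7,3),(9,0),(5,2)]⟩⟩,⟨false,0,⟨0,[(44,0)]⟩,⟨0,[(43,0),(2,0)]⟩⟩,
  ⟨false,0,⟨18,[(2,7),(1,6),(1,5),(6,3),(11,0),(1,1),(0,11),(3,10)]⟩,⟨6,[(0,0),(4,0),(1,5),(0,4),(3,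
  0),(0,1),(15,0),(1,0)]⟩⟩,⟨true,0,⟨0,[(48,0)]⟩,⟨0,[]⟩⟩,⟨false,0,⟨2,[(2,1),(1,0),(12,0),(7,0),(2,
  1)]⟩,⟨6,[(0,1),(4,1),(1,4),(0,2),(3,1),(0,3),(15,1),(1,1)]⟩⟩,[.o ⟨false,0,⟨0,[(32,0)]⟩,⟨7,[(11,3),
  (14,0),(0,0),(11,1),(6,3)]⟩⟩,.o ⟨false,1,⟨3,[(26,0),(0,0),(4,3),(13,1)]⟩,⟨4,[(5,0),(2,3),(0,0),(3,
  0),(7,0)]⟩⟩,.o ⟨false,1,⟨1,[(29,1),(9,0),(5,0)]⟩,⟨2,[(5,0),(22,2),(2,0),(7,0)]⟩⟩,.a ⟨true,0,⟨0,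
  [(29,0)]⟩,⟨0,[(28,0)]⟩⟩ ⟨false,1,⟨27,[(9,3),(3,11),(10,3),(1,14),(0,0),(4,3)]⟩,⟨0,[(2,0),(19,
  0)]⟩⟩ ⟨true,0,⟨0,[(28,0),(3,0)]⟩,⟨4,[(5,0),(2,3),(0,0),(3,0),(7,0),(7,4)]⟩⟩]⟩)) (.I [0,0,0,0,0,0,
  0,0,-1] (.R ⟨0,false,false,true,[1,0,0,-1],[0,0,1],[1,0,0,0,0,0,0,0,-1],(⟨0,[(28,0)]⟩,⟨0,[(29,
  0)]⟩),(⟨0,[(38,0)]⟩,⟨0,[(37,0)]⟩),⟨0,[(1,0)]⟩,.k,.k,(.x (-1) ⟨11,[(14,3),(1,3),(9,4),(0,4),(11,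
  1)]⟩ ⟨0,[(41,0)]⟩),.k,.k,.k,⟨true,0,⟨0,[(0,0),(21,0)]⟩,⟨1,[(2,1),(6,0),(22,0),(2,0)]⟩⟩,⟨false,0,
  ⟨22,[(5,4),(3,1),(3,3),(4,11),(6,1),(2,22),(3,1),(6,0)]⟩,⟨3,[(21,1),(7,3),(9,0),(5,2)]⟩⟩,⟨true,0,
  ⟨0,[]⟩,⟨0,[(48,0)]⟩⟩,⟨false,0,⟨18,[(2,7),(1,6),(1,5),(6,3),(11,0),(1,1),(0,11),(3,10)]⟩,⟨83,[(0,
  14),(0,14),(5,68),(0,39),(3,21),(0,8),(0,4),(1,4),(22,5),(2,2)]⟩⟩,⟨false,0,⟨0,[]⟩,⟨0,[]⟩⟩,⟨false,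
  0,⟨0,[]⟩,⟨0,[]⟩⟩,[.o ⟨false,0,⟨0,[(32,0)]⟩,⟨7,[(11,3),(14,0),(0,0),(11,1),(6,3)]⟩⟩,.o ⟨false,1,⟨3,
  [(26,0),(0,0),(4,3),(13,1)]⟩,⟨4,[(5,0),(2,3),(0,0),(3,0),(7,0)]⟩⟩,.o ⟨false,1,⟨1,[(29,1),(9,0),(5,
  0)]⟩,⟨2,[(5,0),(22,2),(2,0),(7,0)]⟩⟩,.a ⟨true,0,⟨0,[(29,0)]⟩,⟨0,[(28,0)]⟩⟩ ⟨false,1,⟨0,[(3,0)]⟩,
  ⟨11,[(2,2),(1,0),(0,1),(0,1),(2,0),(2,0),(8,0),(5,3),(1,0)]⟩⟩ ⟨true,0,⟨0,[(28,0),(3,0)]⟩,⟨3,[(1,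
  2),(9,1),(2,0),(1,0),(12,0)]⟩⟩]⟩) (.R ⟨0,false,false,false,[1,0,0,-1],[1,0,-1],[0,1,0,0,0,0,0,0,
  -1],(⟨0,[(28,0)]⟩,⟨0,[(29,0)]⟩),(⟨0,[(37,0)]⟩,⟨0,[(38,0)]⟩),⟨0,[(1,0)]⟩,.k,.k,(.x (-1) ⟨11,[(14,
  3),(1,3),(9,4),(0,4),(11,1)]⟩ ⟨0,[(41,0)]⟩),.k,.k,.k,⟨false,1,⟨0,[(3,0),(20,0),(7,0),(11,0)]⟩,⟨0,
  [(0,0),(21,0)]⟩⟩,⟨true,0,⟨0,[(28,0),(2,0)]⟩,⟨3,[(1,2),(12,0),(1,0),(8,1),(3,0)]⟩⟩,⟨true,0,⟨0,[(48,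
  0)]⟩,⟨0,[]⟩⟩,⟨false,0,⟨21,[(0,5),(3,11),(1,1),(4,10),(9,0),(5,1),(0,9),(13,4)]⟩,⟨0,[(7,0),(24,
  0)]⟩⟩,⟨false,0,⟨0,[]⟩,⟨0,[]⟩⟩,⟨false,0,⟨0,[]⟩,⟨0,[]⟩⟩,[.o ⟨false,0,⟨4,[(5,0),(2,3),(0,0),(3,0),(7,
  0)]⟩,⟨3,[(26,0),(0,0),(4,3),(13,1)]⟩⟩,.o ⟨false,1,⟨7,[(11,3),(14,0),(0,0),(11,1),(6,3)]⟩,⟨0,[(32,
  0)]⟩⟩,.o ⟨false,1,⟨1,[(29,1),(9,0),(5,0)]⟩,⟨2,[(5,0),(22,2),(2,0),(7,0)]⟩⟩,.a ⟨true,0,⟨0,[(29,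
  0)]⟩,⟨0,[(28,0)]⟩⟩ ⟨false,1,⟨1,[(26,0),(18,0)]⟩,⟨9,[(0,5),(4,0),(0,0),(14,0),(5,1),(14,4)]⟩⟩
  ⟨true,0,⟨4,[(5,0),(2,3),(0,0),(3,0),(7,0),(6,4)]⟩,⟨0,[(29,0),(2,0)]⟩⟩]⟩)))) (.Q [0,0,0,0,0,-1,0,0,
  0,0,0,1] (.ed false [1,-1,0,1] .k) (.R ⟨1,false,false,false,[0,0,0,1],[1,0,0,-1],[1,0,0,0,0,0,0,0,
  1],(⟨0,[(27,0)]⟩,⟨0,[(26,0)]⟩),(⟨0,[(26,0)]⟩,⟨0,[(27,0)]⟩),⟨0,[(0,0)]⟩,.k,.k,(.x 0 ⟨11,[(4,7),(7,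
  3),(1,3),(9,2),(0,2),(3,7),(7,1)]⟩ ⟨0,[(39,0),(3,0)]⟩),.k,(.r 0 ⟨11,[(1,21),(9,5),(13,0),(14,7),
  (2,14)]⟩ ⟨9,[(4,1),(3,1),(4,3),(10,10),(0,0),(6,1),(8,3)]⟩),.k,⟨false,0,⟨0,[(1,1),(38,0),(2,1)]⟩,
  ⟨0,[(24,0)]⟩⟩,⟨true,1,⟨0,[(6,0),(4,0),(3,0),(11,1)]⟩,⟨0,[(3,0),(22,1),(2,0)]⟩⟩,⟨true,0,⟨0,[]⟩,⟨0,
  [(46,0)]⟩⟩,⟨false,2,⟨4,[(3,0),(1,9),(0,3),(0,0),(3,0),(7,0),(10,4)]⟩,⟨0,[(1,0),(0,0),(23,0)]⟩⟩,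
  ⟨false,1,⟨0,[(41,0),(2,0)]⟩,⟨0,[(42,0)]⟩⟩,⟨false,2,⟨0,[(5,1),(0,0),(23,0)]⟩,⟨0,[(1,0),(0,0),(23,
  0),(15,0)]⟩⟩,[.o ⟨false,1,⟨4,[(3,0),(1,4),(0,3),(0,0),(3,0),(7,0),(10,4)]⟩,⟨21,[(1,7),(0,7),(1,1),
  (20,2),(0,13),(2,1),(7,6)]⟩⟩,.a ⟨true,1,⟨0,[(5,0)]⟩,⟨0,[(1,0),(24,0)]⟩⟩ ⟨true,0,⟨0,[(1,0),(38,0),
  (2,0)]⟩,⟨0,[(1,0),(22,0)]⟩⟩ ⟨false,2,⟨0,[(5,0),(0,0),(4,0),(3,0),(11,0)]⟩,⟨2,[(1,2),(1,0),(22,5),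
  (2,0),(7,0)]⟩⟩,.o ⟨false,0,⟨2,[(3,0),(22,2),(2,0),(7,0)]⟩,⟨1,[(27,1),(9,0),(5,0)]⟩⟩,.o ⟨false,0,
  ⟨11,[(4,7),(19,0),(0,0),(0,11),(2,7),(7,5)]⟩,⟨0,[(6,0),(4,0),(3,0),(11,0)]⟩⟩]⟩) (.R ⟨0,false,
  false,false,[0,0,0,1],[1,0,0,-1],[1,0,0,0,0,0,0,0,1],(⟨0,[(27,0)]⟩,⟨0,[(26,0)]⟩),(⟨0,[(26,0)]⟩,⟨0,
  [(27,0)]⟩),⟨0,[(0,0)]⟩,.k,.k,(.x 0 ⟨11,[(4,7),(7,3),(1,3),(9,2),(0,2),(3,7),(7,1)]⟩ ⟨0,[(39,0),(3,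
  0)]⟩),.k,.k,.k,⟨false,0,⟨0,[(1,1),(38,0),(2,1)]⟩,⟨0,[(24,0)]⟩⟩,⟨true,1,⟨0,[(6,0),(4,0),(3,0),(11,
  1)]⟩,⟨0,[(3,0),(22,1),(2,0)]⟩⟩,⟨true,0,⟨0,[]⟩,⟨0,[(46,0)]⟩⟩,⟨false,2,⟨4,[(3,0),(1,9),(0,3),(0,0),
  (3,0),(7,0),(10,4)]⟩,⟨0,[(1,0),(0,0),(23,0)]⟩⟩,⟨false,0,⟨0,[]⟩,⟨0,[]⟩⟩,⟨false,0,⟨0,[]⟩,⟨0,[]⟩⟩,
  [.o ⟨false,1,⟨4,[(3,0),(1,4),(0,3),(0,0),(3,0),(7,0),(10,4)]⟩,⟨21,[(1,7),(0,7),(1,1),(20,2),(0,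
  13),(2,1),(7,6)]⟩⟩,.a ⟨true,1,⟨0,[(5,0)]⟩,⟨0,[(1,0),(24,0)]⟩⟩ ⟨true,0,⟨0,[(1,0),(38,0),(2,0)]⟩,⟨0,
  [(1,0),(22,0)]⟩⟩ ⟨false,2,⟨0,[(5,0),(0,0),(4,0),(3,0),(11,0)]⟩,⟨2,[(1,2),(1,0),(22,5),(2,0),(7,
  0)]⟩⟩,.o ⟨false,0,⟨2,[(3,0),(22,2),(2,0),(7,0)]⟩,⟨1,[(27,1),(9,0),(5,0)]⟩⟩,.o ⟨false,0,⟨11,[(4,7),
  (19,0),(0,0),(0,11),(2,7),(7,5)]⟩,⟨0,[(6,0),(4,0),(3,0),(11,0)]⟩⟩]⟩)))))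

theorem ok73 : chk (cU (-1) true 10) t73 r47 = true := by decide +kernel

noncomputable def t97 : Tre :=
  (.R ⟨2,false,false,true,[0,1],[0,0,0,1],[],(⟨0,[]⟩,⟨0,[]⟩),(⟨0,[(32,0)]⟩,⟨0,[(31,0)]⟩),⟨0,[]⟩,.k,
  .k,.k,(.r 0 ⟨1,[(8,1),(3,0),(23,0),(0,0)]⟩ ⟨9,[(0,1),(5,1),(9,3),(13,4),(17,0)]⟩),.k,.k,⟨true,0,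
  ⟨1,[(1,0),(6,0),(22,0),(13,0)]⟩,⟨0,[(7,0)]⟩⟩,⟨false,0,⟨5,[(0,2),(2,2),(4,2),(3,0),(8,0),(13,1),(9,
  1)]⟩,⟨1,[(5,0),(0,0),(23,0),(17,0)]⟩⟩,⟨false,1,⟨7,[(16,3),(12,0),(0,0),(18,1)]⟩,⟨1,[(12,0),(23,0),
  (0,0)]⟩⟩,⟨true,0,⟨0,[(0,0)]⟩,⟨11,[(5,8),(0,2),(2,1),(10,3),(1,1),(4,1)]⟩⟩,⟨false,1,⟨1,[(48,0),(0,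
  0)]⟩,⟨1,[(37,0),(0,0)]⟩⟩,⟨false,1,⟨9,[(0,5),(1,1),(9,1),(16,2),(0,3),(0,3),(10,1),(6,0)]⟩,⟨0,[(5,
  0)]⟩⟩,[.a ⟨true,0,⟨0,[(7,0),(23,0)]⟩,⟨0,[(5,0)]⟩⟩ ⟨false,1,⟨3,[(29,0),(0,0),(17,1)]⟩,⟨0,[]⟩⟩
  ⟨true,0,⟨17,[(0,15),(6,1),(1,1),(2,3),(18,1),(5,8),(0,4),(7,3)]⟩,⟨0,[(5,0)]⟩⟩,.o ⟨false,1,⟨9,[(0,
  5),(1,1),(9,1),(16,2),(0,3),(0,3),(10,1),(6,0)]⟩,⟨0,[(1,0)]⟩⟩,.o ⟨false,1,⟨3,[(29,0),(0,0),(17,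
  1)]⟩,⟨4,[(0,1),(0,1),(19,1),(12,2),(2,0),(7,0)]⟩⟩,.e ⟨false,1,⟨1,[(48,0),(0,0)]⟩,⟨1,[(37,0),(0,
  0)]⟩⟩ ⟨false,1,⟨9,[(0,5),(1,1),(9,1),(16,2),(0,3),(0,3),(10,1),(6,0)]⟩,⟨0,[(5,0)]⟩⟩]⟩)

theorem ok97 : chk (cU (-1) true 10) t97 l65 = true := by decide +kernel

noncomputable def t104 : Tre :=
  (.I [1,1,-1,-1,0,0,0,1,-1] (.I [1,0,-1,0,0,0,0,0,-1] (.R ⟨1,false,false,false,[1,0,0,-1],[1,1,-1],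
  [1,1,0,0,0,0,0,0,-1],(⟨0,[(30,0)]⟩,⟨0,[(31,0)]⟩),(⟨0,[(39,0),(3,0)]⟩,⟨0,[(16,0)]⟩),⟨0,[(3,0)]⟩,.k,
  .k,(.x (-1) ⟨15,[(9,3),(8,3),(9,6),(0,6),(11,1)]⟩ ⟨0,[(43,0)]⟩),(.x 0 ⟨1,[(9,0),(10,1),(19,0),(5,
  1)]⟩ ⟨23,[(10,3),(11,7),(5,8),(0,8),(9,7),(1,1),(1,31)]⟩),(.r (-1) ⟨7,[(1,7),(13,3),(12,0),(0,0),
  (18,1)]⟩ ⟨8,[(6,8),(1,4),(2,0),(8,0),(0,4),(14,3),(7,3)]⟩),.k,⟨true,0,⟨0,[(1,0)]⟩,⟨1,[(6,1),(1,0),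
  (18,0),(16,1)]⟩⟩,⟨false,1,⟨7,[(10,3),(17,0),(0,0),(0,7),(10,1)]⟩,⟨0,[(2,0),(35,0)]⟩⟩,⟨false,0,⟨0,
  []⟩,⟨3,[(28,0),(0,0),(18,1)]⟩⟩,⟨false,1,⟨1,[(8,0),(20,0),(0,1),(2,0),(2,0),(11,0)]⟩,⟨0,[(0,0),(1,
  0),(43,0)]⟩⟩,⟨true,0,⟨0,[(45,0)]⟩,⟨0,[(46,0)]⟩⟩,⟨false,1,⟨5,[(6,1),(1,3),(2,1),(17,1),(0,5),(5,1),
  (4,0),(6,2)]⟩,⟨0,[(0,0),(1,0),(43,1)]⟩⟩,[.a ⟨true,0,⟨1,[(8,0),(21,0),(0,0)]⟩,⟨0,[(2,0),(27,0),(15,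
  0)]⟩⟩ ⟨false,0,⟨5,[(0,3),(0,1),(25,0),(4,0),(2,0),(9,1)]⟩,⟨1,[(29,0),(18,0)]⟩⟩ ⟨true,0,⟨1,[(8,0),
  (21,1),(2,0),(2,0)]⟩,⟨0,[(2,0),(43,0)]⟩⟩,.o ⟨false,1,⟨7,[(8,3),(19,0),(0,0),(11,1),(6,3)]⟩,⟨0,
  [(34,0),(11,0)]⟩⟩,.o ⟨false,1,⟨1,[(4,0),(0,0),(23,0),(11,0)]⟩,⟨0,[(20,0),(9,0),(2,0),(12,0)]⟩⟩,.e
  ⟨false,0,⟨0,[(0,0)]⟩,⟨0,[(6,0),(41,0)]⟩⟩ ⟨false,1,⟨7,[(8,3),(19,0),(0,0),(0,7),(10,1),(6,3)]⟩,⟨0,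
  [(2,0),(43,0)]⟩⟩]⟩) (.Q [0,1,1,-1,0,0,0,0,1,0,0,-1] (.p false [0,0,0,1] [] (⟨0,[(31,0)]⟩,⟨0,[(30,
  0)]⟩) .k 0 (⟨0,[]⟩,⟨0,[]⟩) .k .k) (.R ⟨2,false,false,true,[0,1],[0,0,0,1],[1],(⟨0,[]⟩,⟨0,[]⟩),(⟨0,
  [(32,0)]⟩,⟨0,[(31,0)]⟩),⟨0,[]⟩,.k,.k,.k,(.r 0 ⟨1,[(8,1),(3,0),(23,0),(0,0)]⟩ ⟨9,[(0,1),(5,1),(9,
  3),(13,4),(17,0)]⟩),.k,.k,⟨true,0,⟨8,[(2,3),(2,0),(2,3),(0,0),(11,1),(3,1),(5,0),(13,4)]⟩,⟨0,[(7,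
  0)]⟩⟩,⟨false,0,⟨9,[(0,3),(1,1),(5,1),(6,0),(5,6),(9,5),(2,4),(10,2)]⟩,⟨1,[(5,0),(0,0),(23,0),(17,
  0)]⟩⟩,⟨false,1,⟨7,[(16,3),(12,0),(0,0),(18,1)]⟩,⟨1,[(12,0),(23,0),(0,0)]⟩⟩,⟨true,0,⟨0,[(0,0)]⟩,
  ⟨11,[(5,8),(0,2),(2,1),(10,3),(1,1),(4,1)]⟩⟩,⟨false,1,⟨1,[(48,0),(0,0)]⟩,⟨1,[(37,0),(0,0)]⟩⟩,
  ⟨false,1,⟨39,[(0,23),(8,3),(2,7),(16,8),(0,16),(0,15),(5,7),(4,5),(6,7)]⟩,⟨0,[(5,0)]⟩⟩,[.e ⟨true,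
  0,⟨0,[]⟩,⟨1,[(37,0),(0,0)]⟩⟩ ⟨true,0,⟨17,[(0,15),(6,1),(1,1),(2,3),(18,1),(5,8),(0,4),(7,3)]⟩,⟨0,
  [(5,0)]⟩⟩,.a ⟨true,0,⟨0,[(1,0),(29,0)]⟩,⟨1,[(5,0),(0,0)]⟩⟩ ⟨false,1,⟨1,[(48,0),(0,0)]⟩,⟨0,[(51,
  0)]⟩⟩ ⟨true,0,⟨13,[(0,11),(0,1),(7,1),(2,3),(18,1),(5,4),(0,0),(6,3)]⟩,⟨1,[(5,0),(0,0)]⟩⟩,.o
  ⟨false,1,⟨3,[(29,0),(0,0),(17,1)]⟩,⟨0,[(21,0),(12,0),(12,0)]⟩⟩,.e ⟨false,1,⟨1,[(48,0),(0,0)]⟩,⟨1,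
  [(37,0),(0,0)]⟩⟩ ⟨false,1,⟨39,[(0,23),(8,3),(2,7),(16,8),(0,16),(0,15),(5,7),(4,5),(6,7)]⟩,⟨0,[(5,
  0)]⟩⟩]⟩) (.I [1,0,1,1,0,0,0,0,1] (.R ⟨1,false,false,true,[1,0,0,-1],[0,0,1],[1,0,0,0,0,0,0,0,-1],
  (⟨0,[(32,0)]⟩,⟨0,[(33,0)]⟩),(⟨0,[(42,0)]⟩,⟨0,[(41,0)]⟩),⟨0,[(5,0)]⟩,.k,.k,(.x (-1) ⟨15,[(11,3),(8,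
  3),(9,6),(0,6),(11,1)]⟩ ⟨0,[(45,0)]⟩),.k,(.r 0 ⟨0,[(3,0),(22,0),(13,0)]⟩ ⟨15,[(3,3),(4,7),(4,7),
  (5,3),(10,4),(0,10)]⟩),.k,⟨true,0,⟨0,[(9,0),(16,0)]⟩,⟨0,[(0,0),(1,0),(0,0)]⟩⟩,⟨false,0,⟨0,[(22,0),
  (9,0),(15,0)]⟩,⟨7,[(12,3),(17,0),(0,0),(1,7),(9,1)]⟩⟩,⟨true,0,⟨0,[]⟩,⟨0,[(52,0)]⟩⟩,⟨true,0,⟨0,[(2,
  0),(29,0),(3,0)]⟩,⟨0,[(6,0),(27,0)]⟩⟩,⟨false,1,⟨7,[(10,0),(2,1),(8,0),(0,0),(6,1),(0,1),(17,0),(0,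
  2)]⟩,⟨0,[(48,0)]⟩⟩,⟨true,0,⟨0,[(2,0),(18,0),(10,0)]⟩,⟨1,[(3,0),(0,0),(1,0),(9,1),(5,0)]⟩⟩,[.o
  ⟨false,0,⟨0,[(36,0)]⟩,⟨7,[(15,3),(14,0),(0,0),(11,1),(6,3)]⟩⟩,.e ⟨true,0,⟨10,[(1,0),(1,4),(5,4),
  (0,0),(11,1),(3,2),(5,0),(13,5)]⟩,⟨0,[(8,0)]⟩⟩ ⟨true,0,⟨3,[(2,0),(0,0),(15,0),(12,3),(3,1),(1,1),
  (7,0)]⟩,⟨0,[(4,0),(10,0)]⟩⟩,.o ⟨false,1,⟨13,[(1,3),(5,5),(9,1),(13,4),(1,3),(9,6)]⟩,⟨0,[(22,0),(9,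
  0),(2,0),(12,0)]⟩⟩,.a ⟨true,0,⟨0,[(33,0)]⟩,⟨0,[(32,0)]⟩⟩ ⟨false,1,⟨23,[(1,7),(10,1),(4,5),(4,3),
  (7,7),(1,7),(10,2),(6,4)]⟩,⟨0,[(2,0)]⟩⟩ ⟨true,0,⟨0,[(32,0),(3,0)]⟩,⟨0,[(4,0),(10,0)]⟩⟩]⟩) (.R ⟨1,
  false,false,false,[1,0,0,-1],[1,1,-1],[0,1,0,-1,0,0,0,0,-1],(⟨0,[(32,0)]⟩,⟨0,[(33,0)]⟩),(⟨0,[(41,
  0),(3,0)]⟩,⟨0,[(18,0)]⟩),⟨0,[(5,0)]⟩,.k,.k,(.r 0 ⟨0,[(0,0)]⟩ ⟨27,[(2,7),(5,7),(1,3),(2,7),(9,3),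
  (6,10),(0,16),(6,3)]⟩),(.r (-1) ⟨3,[(3,3),(26,0),(0,0),(18,1)]⟩ ⟨1,[(2,1),(7,0),(18,0)]⟩),(.r
  (-1) ⟨7,[(3,7),(13,3),(12,0),(0,0),(18,1)]⟩ ⟨6,[(2,5),(5,0),(1,3),(2,0),(9,3),(14,4),(0,0)]⟩),.k,
  ⟨true,0,⟨0,[(3,0),(44,0)]⟩,⟨8,[(2,8),(7,4),(2,0),(8,0),(0,4),(14,3),(7,3)]⟩⟩,⟨false,1,⟨7,[(12,3),
  (17,0),(0,0),(0,7),(10,1)]⟩,⟨0,[(4,0),(35,0)]⟩⟩,⟨false,0,⟨0,[(48,0)]⟩,⟨7,[(10,0),(2,1),(8,0),(0,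
  0),(6,1),(0,1),(17,0),(0,2)]⟩⟩,⟨false,1,⟨7,[(2,7),(7,3),(19,0),(0,0),(0,7),(10,1),(6,3)]⟩,⟨0,[(0,
  0),(3,0)]⟩⟩,⟨true,0,⟨0,[(52,0)]⟩,⟨0,[]⟩⟩,⟨false,1,⟨11,[(2,3),(7,7),(2,3),(16,0),(0,4),(0,11),(5,
  3),(4,1),(6,3)]⟩,⟨0,[(0,0),(3,0),(43,0)]⟩⟩,[.a ⟨true,0,⟨1,[(10,0),(21,0),(0,0)]⟩,⟨0,[(4,0),(27,0),
  (15,0)]⟩⟩ ⟨false,0,⟨3,[(0,1),(2,1),(25,0),(4,0),(2,0)]⟩,⟨7,[(10,0),(2,1),(8,0),(0,0),(7,3),(17,0),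
  (0,2)]⟩⟩ ⟨true,0,⟨1,[(10,0),(21,1),(2,0),(2,0)]⟩,⟨0,[(4,0),(43,0)]⟩⟩,.o ⟨false,1,⟨7,[(10,3),(19,
  0),(0,0),(11,1),(6,3)]⟩,⟨0,[(36,0),(11,0)]⟩⟩,.o ⟨false,1,⟨13,[(1,3),(5,5),(9,1),(13,4),(1,3),(9,
  6)]⟩,⟨0,[(22,0),(9,0),(2,0),(12,0)]⟩⟩,.e ⟨false,0,⟨0,[(0,0)]⟩,⟨13,[(2,7),(7,1),(2,3),(9,1),(6,2),
  (0,5),(6,1),(11,4)]⟩⟩ ⟨false,1,⟨7,[(10,3),(19,0),(0,0),(0,7),(10,1),(6,3)]⟩,⟨0,[(4,0),(43,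
  0)]⟩⟩]⟩)))) (.I [0,1,1,0,0,0,0,1,1] (.R ⟨1,false,false,true,[1,0,0,-1],[0,0,1],[1,0,0,0,0,0,0,0,
  -1],(⟨0,[(30,0)]⟩,⟨0,[(31,0)]⟩),(⟨0,[(40,0)]⟩,⟨0,[(39,0)]⟩),⟨0,[(3,0)]⟩,.k,.k,(.x (-1) ⟨15,[(9,3),
  (8,3),(9,6),(0,6),(11,1)]⟩ ⟨0,[(43,0)]⟩),.k,(.r 0 ⟨0,[(4,0),(9,0),(5,0),(9,0),(3,0),(11,0)]⟩ ⟨7,
  [(0,3),(10,3),(16,2),(0,4)]⟩),.k,⟨true,0,⟨0,[(7,0),(16,0)]⟩,⟨0,[(0,0)]⟩⟩,⟨false,0,⟨0,[(20,0),(9,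
  0),(15,0)]⟩,⟨7,[(10,3),(17,0),(0,0),(1,7),(9,1)]⟩⟩,⟨true,0,⟨0,[]⟩,⟨0,[(50,0)]⟩⟩,⟨true,0,⟨1,[(0,0),
  (0,0),(28,1),(3,1),(11,0)]⟩,⟨0,[(4,0),(27,0)]⟩⟩,⟨false,1,⟨7,[(8,0),(2,1),(8,0),(0,0),(6,1),(0,1),
  (17,0),(0,2)]⟩,⟨0,[(46,0)]⟩⟩,⟨true,0,⟨0,[(0,0),(19,0),(9,0)]⟩,⟨0,[(4,0),(9,0),(19,0)]⟩⟩,[.o
  ⟨false,0,⟨0,[(34,0)]⟩,⟨7,[(13,3),(14,0),(0,0),(11,1),(6,3)]⟩⟩,.e ⟨true,0,⟨0,[(4,0),(15,0),(9,0),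
  (2,0),(12,0)]⟩,⟨0,[(6,0)]⟩⟩ ⟨true,0,⟨3,[(0,0),(6,0),(22,3),(3,2),(1,0),(7,1)]⟩,⟨0,[(2,0),(10,
  0)]⟩⟩,.o ⟨false,1,⟨1,[(4,0),(0,0),(23,0),(11,0)]⟩,⟨0,[(20,0),(9,0),(2,0),(12,0)]⟩⟩,.a ⟨true,0,⟨0,
  [(31,0)]⟩,⟨0,[(30,0)]⟩⟩ ⟨false,1,⟨17,[(4,3),(5,3),(4,3),(4,7),(7,6),(1,3),(13,1),(3,2)]⟩,⟨1,[(0,
  0),(0,0),(44,0)]⟩⟩ ⟨true,0,⟨0,[(30,0),(3,0)]⟩,⟨0,[(2,0),(10,0)]⟩⟩]⟩) (.I [1,0,1,1,0,0,0,0,1] (.Q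
  [0,1,1,-1,0,0,0,0,1,0,0,-1] (.p false [0,0,0,1] [] (⟨0,[(32,0)]⟩,⟨0,[(31,0)]⟩) .k 0 (⟨0,[]⟩,⟨0,
  []⟩) .k .k) (.R ⟨2,false,false,true,[0,1],[0,0,0,1],[1],(⟨0,[]⟩,⟨0,[]⟩),(⟨0,[(33,0)]⟩,⟨0,[(32,
  0)]⟩),⟨0,[]⟩,.k,.k,.k,(.r 0 ⟨1,[(9,1),(3,0),(23,0),(0,0)]⟩ ⟨9,[(0,1),(6,1),(9,3),(13,4),(17,0)]⟩),
  .k,.k,⟨true,0,⟨1,[(2,0),(6,0),(9,0),(28,0)]⟩,⟨0,[(8,0)]⟩⟩,⟨false,0,⟨1,[(0,1),(1,0),(6,0),(3,0)]⟩,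
  ⟨1,[(6,0),(0,0),(23,0),(17,0)]⟩⟩,⟨false,1,⟨7,[(17,3),(12,0),(0,0),(18,1)]⟩,⟨1,[(13,0),(23,0),(0,
  0)]⟩⟩,⟨true,0,⟨0,[(0,0)]⟩,⟨11,[(6,8),(0,2),(2,1),(10,3),(1,1),(4,1)]⟩⟩,⟨false,1,⟨1,[(49,0),(0,
  0)]⟩,⟨1,[(38,0),(0,0)]⟩⟩,⟨false,1,⟨9,[(0,5),(2,1),(9,1),(16,2),(0,3),(0,3),(10,1),(6,0)]⟩,⟨0,[(6,
  0)]⟩⟩,[.e ⟨true,0,⟨0,[]⟩,⟨1,[(38,0),(0,0)]⟩⟩ ⟨true,0,⟨17,[(0,15),(7,1),(1,1),(2,3),(18,1),(5,8),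
  (0,4),(7,3)]⟩,⟨0,[(6,0)]⟩⟩,.a ⟨true,0,⟨0,[(1,0),(30,0),(15,0)]⟩,⟨1,[(6,0),(0,0)]⟩⟩ ⟨false,1,⟨1,
  [(49,0),(0,0)]⟩,⟨0,[(52,0)]⟩⟩ ⟨true,0,⟨39,[(0,35),(2,3),(6,3),(2,11),(18,3),(5,12),(0,4),(6,9)]⟩,
  ⟨1,[(6,0),(0,0)]⟩⟩,.o ⟨false,1,⟨3,[(30,0),(0,0),(17,1)]⟩,⟨0,[(22,0),(12,0),(12,0)]⟩⟩,.e ⟨false,1,
  ⟨1,[(49,0),(0,0)]⟩,⟨1,[(38,0),(0,0)]⟩⟩ ⟨false,1,⟨9,[(0,5),(2,1),(9,1),(16,2),(0,3),(0,3),(10,1),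
  (6,0)]⟩,⟨0,[(6,0)]⟩⟩]⟩) (.Q [0,0,0,1,0,0,0,0,0,1,0,-1] (.p false [0,0,0,1] [1] (⟨0,[(33,0)]⟩,⟨0,
  [(32,0)]⟩) .k 1 (⟨0,[]⟩,⟨0,[]⟩) .k .k) (.R ⟨1,false,false,true,[1,0,0,-1],[0,1],[1,0,0,0,0,0,0,0,
  -1],(⟨0,[(33,0)]⟩,⟨0,[(34,0)]⟩),(⟨0,[(46,0)]⟩,⟨0,[(45,0)]⟩),⟨0,[(6,0)]⟩,.k,.k,(.x (-1) ⟨15,[(12,
  3),(8,3),(9,6),(0,6),(11,1)]⟩ ⟨0,[(46,0)]⟩),(.x (-1) ⟨15,[(12,3),(8,3),(9,6),(0,6),(11,1)]⟩ ⟨0,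
  [(46,0)]⟩),(.r (-1) ⟨6,[(8,1),(1,2),(6,1),(0,5),(12,0),(1,1),(3,3)]⟩ ⟨9,[(4,1),(4,7),(1,1),(2,5),
  (9,1),(14,2),(0,0)]⟩),.k,⟨false,1,⟨29,[(1,3),(1,10),(6,2),(2,3),(0,2),(3,19),(12,5),(1,3),(3,7)]⟩,
  ⟨1,[(2,0),(6,0),(38,0)]⟩⟩,⟨true,0,⟨0,[(33,0)]⟩,⟨1,[(5,1),(10,0),(19,0),(2,0)]⟩⟩,⟨true,0,⟨0,[]⟩,⟨0,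
  [(53,0)]⟩⟩,⟨false,0,⟨0,[(2,0),(30,0)]⟩,⟨16,[(5,9),(1,6),(9,4),(0,5),(12,4),(12,5),(2,1)]⟩⟩,⟨false,
  1,⟨7,[(11,0),(2,1),(8,0),(0,0),(6,1),(0,1),(17,0),(0,2)]⟩,⟨0,[(49,0)]⟩⟩,⟨false,0,⟨0,[(0,0),(1,
  0)]⟩,⟨16,[(5,9),(1,6),(9,4),(0,5),(12,4),(12,5),(2,1),(1,16)]⟩⟩,[.o ⟨false,0,⟨0,[(48,0)]⟩,⟨3,[(18,
  1),(17,1),(2,1),(4,0),(6,0)]⟩⟩,.a ⟨true,0,⟨0,[(0,0),(33,0)]⟩,⟨0,[(49,0)]⟩⟩ ⟨true,0,⟨1,[(3,0),(6,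
  0),(9,0),(28,0)]⟩,⟨0,[(9,0)]⟩⟩ ⟨false,0,⟨0,[(0,0)]⟩,⟨3,[(8,0),(0,0),(8,1),(15,2),(9,1)]⟩⟩,.o
  ⟨false,1,⟨13,[(1,3),(6,5),(9,1),(13,4),(1,3),(9,6)]⟩,⟨0,[(23,0),(9,0),(2,0),(12,0)]⟩⟩,.e ⟨false,1,
  ⟨7,[(3,1),(10,1),(3,1),(12,2),(18,1),(0,0)]⟩,⟨0,[(2,0),(46,0)]⟩⟩ ⟨false,0,⟨0,[(0,0)]⟩,⟨3,[(18,1),
  (15,3),(1,1),(2,1),(4,0),(6,0)]⟩⟩]⟩) (.Q [0,1,0,-3,0,0,0,0,0,-1] (.pp true [-1,1]) (.R ⟨1,true,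
  false,true,[1,0,0,-1],[0,1],[0,0,0,-1,0,0,0,0,-1],(⟨0,[(34,0)]⟩,⟨0,[(35,0)]⟩),(⟨0,[(47,0)]⟩,⟨0,
  [(46,0)]⟩),⟨0,[(7,0)]⟩,.k,.k,(.x (-1) ⟨15,[(13,3),(8,3),(9,6),(0,6),(11,1)]⟩ ⟨0,[(47,0)]⟩),(.x
  (-1) ⟨15,[(13,3),(8,3),(9,6),(0,6),(11,1)]⟩ ⟨0,[(47,0)]⟩),(.r (-1) ⟨75,[(0,19),(3,11),(4,25),(4,
  5),(4,45),(12,18),(1,25),(3,11),(12,4)]⟩ ⟨9,[(5,1),(4,7),(1,1),(2,5),(9,1),(14,2),(0,0)]⟩),.k,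
  ⟨false,1,⟨0,[(0,21),(1,24),(0,26),(0,2),(2,24),(4,1),(1,0),(0,0),(7,5),(23,24)]⟩,⟨0,[(3,0),(45,
  0)]⟩⟩,⟨true,0,⟨0,[(34,0)]⟩,⟨5,[(1,1),(4,1),(5,0),(22,1),(1,2),(2,2)]⟩⟩,⟨true,0,⟨0,[(50,0)]⟩,⟨0,
  [(49,0)]⟩⟩,⟨false,0,⟨0,[(3,0),(30,0)]⟩,⟨5,[(1,3),(0,1),(16,1),(12,1),(12,0),(6,0)]⟩⟩,⟨false,1,⟨3,
  [(32,0),(0,0),(18,1)]⟩,⟨0,[]⟩⟩,⟨true,0,⟨0,[(3,0),(30,0),(14,0)]⟩,⟨0,[(0,0),(1,0)]⟩⟩,[]⟩) (.I [0,0,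
  -2,-2,1,0,0,0,1] (.Q [0,1,1,-2,0,0,0,0,1,0,0,-1] (.p false [0,0,0,1] [] (⟨0,[(36,0)]⟩,⟨0,[(35,
  0)]⟩) .k 0 (⟨0,[]⟩,⟨0,[]⟩) .k .k) (.R ⟨1,false,false,false,[1,-1],[1,0,0,-1],[0,1,1],(⟨0,[(48,
  0)]⟩,⟨0,[(49,0)]⟩),(⟨0,[(36,0)]⟩,⟨0,[(37,0)]⟩),⟨2,[(15,0),(8,0),(23,1)]⟩,.k,.k,(.r (-1) ⟨2,[(0,0),
  (10,0),(9,1),(31,0)]⟩ ⟨5,[(2,0),(11,0),(2,1),(24,5),(0,3),(7,2)]⟩),(.r (-1) ⟨7,[(1,3),(32,0),(0,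
  2)]⟩ ⟨11,[(2,0),(10,11),(0,0),(2,1),(24,5),(0,3),(7,2)]⟩),(.r (-1) ⟨0,[(1,0)]⟩ ⟨5,[(2,0),(10,5),
  (0,0),(2,1),(24,5),(0,3),(7,2)]⟩),.k,⟨true,0,⟨0,[(12,0)]⟩,⟨1,[(6,0),(6,0),(9,0),(28,0)]⟩⟩,⟨false,
  1,⟨4,[(1,4),(0,0),(1,2),(6,1),(2,0),(10,1)]⟩,⟨0,[(36,0),(2,0),(2,0)]⟩⟩,⟨false,0,⟨11,[(2,0),(11,0),
  (2,1),(24,11),(0,9),(7,2)]⟩,⟨6,[(2,0),(13,0),(4,5),(4,1)]⟩⟩,⟨false,0,⟨0,[(4,0)]⟩,⟨13,[(0,9),(6,1),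
  (9,1),(16,3),(0,4),(0,3),(10,1),(6,2)]⟩⟩,⟨false,0,⟨5,[(2,0),(11,0),(2,1),(24,5),(0,3),(7,2)]⟩,⟨0,
  [(21,0)]⟩⟩,⟨true,0,⟨4,[(2,0),(1,2),(6,1),(2,0),(10,1)]⟩,⟨0,[(0,0)]⟩⟩,[.e ⟨false,0,⟨0,[(56,0)]⟩,⟨1,
  [(53,0),(0,0)]⟩⟩ ⟨false,1,⟨4,[(4,1),(6,2),(9,0),(31,3)]⟩,⟨7,[(0,5),(6,1),(6,0),(2,3),(18,1),(2,0),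
  (2,2)]⟩⟩,.a ⟨true,0,⟨0,[(10,0)]⟩,⟨0,[(12,0),(23,0)]⟩⟩ ⟨true,0,⟨1,[(42,0),(0,0)]⟩,⟨0,[]⟩⟩ ⟨false,1,
  ⟨4,[(4,3),(6,0),(9,1),(31,2)]⟩,⟨10,[(0,7),(11,2),(1,1),(2,3),(11,0),(6,2),(5,5),(8,3)]⟩⟩,.o
  ⟨false,0,⟨10,[(0,1),(2,1),(2,1),(19,5),(12,8),(0,1),(1,0),(7,0)]⟩,⟨3,[(34,0),(0,0),(17,1)]⟩⟩,.o
  ⟨false,0,⟨0,[(39,0),(2,0)]⟩,⟨0,[(53,0)]⟩⟩]⟩) (.Q [0,0,-1,-2,0,0,0,0,-1,-1,0,1] (.p true [0,0,0,1]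
  [1] (⟨0,[(37,0)]⟩,⟨0,[(36,0)]⟩) .k 1 (⟨0,[]⟩,⟨0,[]⟩) .k .k) (.R ⟨1,true,false,true,[1,0,0,-1],[0,
  1],[1,0,0,0,0,0,0,0,-1],(⟨0,[(37,0)]⟩,⟨0,[(38,0)]⟩),(⟨0,[(50,0)]⟩,⟨0,[(49,0)]⟩),⟨0,[(10,0)]⟩,.k,
  .k,(.x (-1) ⟨15,[(16,3),(8,3),(9,6),(0,6),(11,1)]⟩ ⟨0,[(50,0)]⟩),(.x (-1) ⟨15,[(16,3),(8,3),(9,6),
  (0,6),(11,1)]⟩ ⟨0,[(50,0)]⟩),(.r (-1) ⟨2,[(0,1),(1,0),(32,0),(1,1),(16,0)]⟩ ⟨11,[(3,1),(4,1),(4,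
  9),(1,1),(2,5),(24,4),(0,0)]⟩),.k,⟨false,1,⟨8,[(0,0),(4,0),(1,2),(9,0),(0,0),(3,5),(3,1),(8,1),(1,
  1)]⟩,⟨1,[(6,0),(6,0),(38,0)]⟩⟩,⟨true,0,⟨0,[(37,0)]⟩,⟨5,[(4,1),(4,1),(5,0),(22,1),(1,2),(2,2)]⟩⟩,
  ⟨true,0,⟨0,[]⟩,⟨0,[(57,0)]⟩⟩,⟨false,0,⟨0,[(6,0),(30,0)]⟩,⟨3,[(0,1),(11,1),(35,0),(6,2)]⟩⟩,⟨false,
  1,⟨11,[(3,3),(31,2),(0,2),(11,1),(6,3)]⟩,⟨0,[(53,0)]⟩⟩,⟨true,0,⟨0,[(6,0),(30,0),(14,0)]⟩,⟨0,[(0,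
  0)]⟩⟩,[]⟩) (.R ⟨1,false,false,true,[1,0,0,-1],[0,1],[1,0,0,0,0,0,0,0,-1],(⟨0,[(37,0)]⟩,⟨0,[(38,
  0)]⟩),(⟨0,[(50,0)]⟩,⟨0,[(49,0)]⟩),⟨0,[(10,0)]⟩,.k,.k,(.x (-1) ⟨15,[(16,3),(8,3),(9,6),(0,6),(11,
  1)]⟩ ⟨0,[(50,0)]⟩),(.x (-1) ⟨15,[(16,3),(8,3),(9,6),(0,6),(11,1)]⟩ ⟨0,[(50,0)]⟩),(.r (-1) ⟨6,[(12,
  1),(1,2),(6,1),(0,5),(12,0),(1,1),(3,3)]⟩ ⟨11,[(3,1),(4,1),(4,9),(1,1),(2,5),(24,4),(0,0)]⟩),.k,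
  ⟨false,1,⟨29,[(5,3),(1,10),(6,2),(2,3),(0,2),(3,19),(12,5),(1,3),(3,7)]⟩,⟨1,[(6,0),(6,0),(38,
  0)]⟩⟩,⟨true,0,⟨0,[(37,0)]⟩,⟨5,[(4,1),(4,1),(5,0),(22,1),(1,2),(2,2)]⟩⟩,⟨true,0,⟨0,[]⟩,⟨0,[(57,
  0)]⟩⟩,⟨false,0,⟨0,[(0,0),(52,0)]⟩,⟨5,[(4,3),(0,1),(16,1),(12,1),(12,0),(6,0)]⟩⟩,⟨false,1,⟨11,[(3,
  3),(31,2),(0,2),(11,1),(6,3)]⟩,⟨0,[(53,0)]⟩⟩,⟨false,0,⟨0,[(0,0)]⟩,⟨21,[(4,19),(6,1),(2,1),(7,11),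
  (12,8),(12,0),(2,3)]⟩⟩,[.o ⟨false,0,⟨0,[(52,0)]⟩,⟨3,[(22,1),(17,1),(2,1),(4,0),(6,0)]⟩⟩,.e ⟨true,
  0,⟨1,[(7,0),(6,0),(9,0),(28,0)]⟩,⟨0,[(13,0)]⟩⟩ ⟨true,0,⟨3,[(0,1),(13,1),(22,1),(5,0),(0,0)]⟩,⟨0,
  [(4,0)]⟩⟩,.o ⟨false,1,⟨13,[(2,1),(2,3),(6,5),(23,3),(1,3),(9,6),(6,0)]⟩,⟨0,[(27,0),(9,0),(2,0),
  (12,0)]⟩⟩,.a ⟨true,0,⟨0,[(38,0)]⟩,⟨0,[(37,0)]⟩⟩ ⟨false,1,⟨7,[(7,1),(10,1),(3,1),(12,2),(18,1),(0,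
  0)]⟩,⟨0,[(6,0),(46,0)]⟩⟩ ⟨true,0,⟨0,[(37,0),(14,0)]⟩,⟨0,[(4,0)]⟩⟩]⟩))) (.Q [0,0,-1,-2,0,0,0,0,-1,
  -1,0,1] (.p true [0,0,0,1] [1] (⟨0,[(36,0)]⟩,⟨0,[(35,0)]⟩) .k 1 (⟨0,[]⟩,⟨0,[]⟩) .k .k) (.R ⟨1,
  true,false,true,[1,0,0,-1],[0,1],[1,0,0,0,0,0,0,0,-1],(⟨0,[(36,0)]⟩,⟨0,[(37,0)]⟩),(⟨0,[(49,0)]⟩,
  ⟨0,[(48,0)]⟩),⟨0,[(9,0)]⟩,.k,.k,(.x (-1) ⟨15,[(15,3),(8,3),(9,6),(0,6),(11,1)]⟩ ⟨0,[(49,0)]⟩),(.x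
  (-1) ⟨15,[(15,3),(8,3),(9,6),(0,6),(11,1)]⟩ ⟨0,[(49,0)]⟩),(.r (-1) ⟨3,[(0,0),(10,0),(9,2),(12,0),
  (1,1),(1,0),(1,0)]⟩ ⟨0,[(1,0),(33,0)]⟩),.k,⟨false,1,⟨80,[(0,2),(3,10),(1,30),(9,10),(0,8),(3,51),
  (12,17),(1,13),(3,21)]⟩,⟨1,[(5,0),(6,0),(38,0)]⟩⟩,⟨true,0,⟨0,[(36,0)]⟩,⟨12,[(1,1),(1,4),(3,0),(0,
  0),(3,0),(24,6),(1,3),(2,2),(4,1)]⟩⟩,⟨true,0,⟨0,[]⟩,⟨0,[(56,0)]⟩⟩,⟨false,0,⟨0,[(5,0),(30,0)]⟩,⟨3,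
  [(0,1),(10,1),(35,0),(6,2)]⟩⟩,⟨false,1,⟨11,[(2,3),(31,2),(0,2),(11,1),(6,3)]⟩,⟨0,[(52,0)]⟩⟩,⟨true,
  0,⟨0,[(5,0),(30,0),(14,0)]⟩,⟨0,[(0,0)]⟩⟩,[]⟩) (.R ⟨1,false,false,true,[1,0,0,-1],[0,1],[1,0,0,0,0,
  0,0,0,-1],(⟨0,[(36,0)]⟩,⟨0,[(37,0)]⟩),(⟨0,[(49,0)]⟩,⟨0,[(48,0)]⟩),⟨0,[(9,0)]⟩,.k,.k,(.x (-1) ⟨15,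
  [(15,3),(8,3),(9,6),(0,6),(11,1)]⟩ ⟨0,[(49,0)]⟩),(.x (-1) ⟨15,[(15,3),(8,3),(9,6),(0,6),(11,1)]⟩
  ⟨0,[(49,0)]⟩),(.r (-1) ⟨6,[(11,1),(1,2),(6,1),(0,5),(12,0),(1,1),(3,3)]⟩ ⟨0,[(1,0),(33,0)]⟩),.k,
  ⟨false,1,⟨29,[(4,3),(1,10),(6,2),(2,3),(0,2),(3,19),(12,5),(1,3),(3,7)]⟩,⟨1,[(5,0),(6,0),(38,
  0)]⟩⟩,⟨true,0,⟨0,[(36,0)]⟩,⟨12,[(1,1),(1,4),(3,0),(0,0),(3,0),(24,6),(1,3),(2,2),(4,1)]⟩⟩,⟨true,0,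
  ⟨0,[]⟩,⟨0,[(56,0)]⟩⟩,⟨false,0,⟨0,[(5,0),(30,0)]⟩,⟨5,[(3,3),(0,1),(16,1),(12,1),(12,0),(6,0)]⟩⟩,
  ⟨false,1,⟨11,[(2,3),(31,2),(0,2),(11,1),(6,3)]⟩,⟨0,[(52,0)]⟩⟩,⟨false,0,⟨0,[(0,0)]⟩,⟨21,[(3,19),(6,
  1),(2,1),(7,11),(12,8),(12,0),(2,3)]⟩⟩,[.o ⟨false,0,⟨0,[(51,0)]⟩,⟨3,[(21,1),(17,1),(2,1),(4,0),(6,
  0)]⟩⟩,.e ⟨true,0,⟨0,[(1,0),(19,0)]⟩,⟨0,[(12,0)]⟩⟩ ⟨true,0,⟨15,[(0,5),(0,1),(32,1),(1,9),(5,2),(0,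
  2)]⟩,⟨0,[(3,0)]⟩⟩,.o ⟨false,1,⟨13,[(4,3),(6,5),(9,1),(13,4),(1,3),(9,6)]⟩,⟨0,[(26,0),(9,0),(2,0),
  (12,0)]⟩⟩,.a ⟨true,0,⟨0,[(37,0)]⟩,⟨0,[(36,0)]⟩⟩ ⟨false,1,⟨7,[(6,1),(10,1),(3,1),(12,2),(18,1),(0,
  0)]⟩,⟨0,[(5,0),(46,0)]⟩⟩ ⟨true,0,⟨0,[(36,0),(14,0)]⟩,⟨0,[(3,0)]⟩⟩]⟩)))))) (.I [0,1,1,0,-1,0,0,-1,
  -1] (.R ⟨1,false,false,false,[1,0,0,-1],[0,-1,1],[0,1,0,-1,0,0,0,0,-1],(⟨0,[(32,0)]⟩,⟨0,[(33,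
  0)]⟩),(⟨0,[(18,0)]⟩,⟨0,[(41,0),(3,0)]⟩),⟨0,[(5,0)]⟩,.k,.k,(.r 0 ⟨0,[(1,0)]⟩ ⟨6,[(3,1),(4,2),(4,1),
  (16,2),(0,3),(15,0)]⟩),(.r 0 ⟨21,[(0,9),(2,7),(6,2),(2,1),(8,0),(0,2),(6,9),(7,1)]⟩ ⟨0,[(3,0),(0,
  0),(7,0),(19,0),(3,0),(11,1)]⟩),.k,.k,⟨true,(-1),⟨0,[(0,0)]⟩,⟨35,[(4,1),(7,1),(4,13),(1,27),(10,
  0),(0,18),(0,1),(3,5),(2,3)]⟩⟩,⟨false,0,⟨0,[(32,0),(5,0)]⟩,⟨11,[(4,9),(2,1),(2,3),(1,5),(4,3),(13,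
  0),(2,1),(14,0)]⟩⟩,⟨false,0,⟨0,[(48,0)]⟩,⟨7,[(10,0),(2,1),(8,0),(0,0),(6,1),(0,1),(17,0),(0,2)]⟩⟩,
  ⟨false,1,⟨0,[(8,0),(8,0),(1,0),(12,0),(5,0)]⟩,⟨2,[(6,2),(3,0),(10,0),(12,1)]⟩⟩,⟨true,0,⟨0,[(52,
  0)]⟩,⟨0,[]⟩⟩,⟨false,1,⟨3,[(8,1),(22,0),(0,3),(3,3),(9,1),(3,2)]⟩,⟨0,[(6,0),(27,0)]⟩⟩,[.a ⟨true,0,
  ⟨0,[(4,0),(27,0),(15,0)]⟩,⟨1,[(10,0),(21,0),(0,0)]⟩⟩ ⟨false,0,⟨0,[(1,0),(50,0)]⟩,⟨7,[(10,0),(2,1),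
  (8,0),(0,0),(7,3),(17,0),(0,2)]⟩⟩ ⟨true,0,⟨1,[(19,0),(12,1),(3,0),(1,0),(9,2)]⟩,⟨1,[(4,1),(5,0),
  (4,0)]⟩⟩,.o ⟨false,1,⟨6,[(8,1),(8,5),(1,4),(10,0),(5,1),(1,4)]⟩,⟨2,[(10,0),(10,0),(12,1)]⟩⟩,.o
  ⟨false,1,⟨1,[(6,0),(0,0),(23,0),(11,0)]⟩,⟨0,[(22,0),(9,0),(2,0),(12,0)]⟩⟩,.e ⟨false,0,⟨0,[(1,0)]⟩,
  ⟨11,[(3,3),(4,3),(4,3),(16,2),(0,4),(18,3)]⟩⟩ ⟨false,1,⟨6,[(8,1),(8,5),(1,4),(10,0),(1,6),(3,1),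
  (1,4)]⟩,⟨1,[(4,1),(5,0),(4,0)]⟩⟩]⟩) (.I [0,1,-1,-2,0,0,0,1,-1] (.R ⟨1,false,false,false,[1,0,0,
  -1],[1,1,-1],[0,1,0,-1,0,0,0,0,-1],(⟨0,[(33,0)]⟩,⟨0,[(34,0)]⟩),(⟨0,[(42,0),(3,0)]⟩,⟨0,[(19,0)]⟩),
  ⟨0,[(6,0)]⟩,.k,.k,(.r 0 ⟨0,[(2,0)]⟩ ⟨6,[(4,1),(4,2),(4,1),(16,2),(0,3),(15,0)]⟩),(.r (-1) ⟨1,[(0,
  0),(0,0),(29,0)]⟩ ⟨3,[(4,1),(4,1),(1,0),(18,0)]⟩),(.r (-1) ⟨13,[(0,9),(0,1),(12,1),(3,5),(12,2),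
  (18,2)]⟩ ⟨4,[(4,1),(4,2),(1,1),(2,0),(9,1),(14,2),(0,0)]⟩),.k,⟨true,0,⟨0,[(0,0)]⟩,⟨14,[(4,12),(4,
  1),(1,2),(2,3),(9,2),(14,6),(0,3)]⟩⟩,⟨false,1,⟨7,[(13,3),(17,0),(0,0),(0,7),(10,1)]⟩,⟨0,[(5,0),
  (35,0)]⟩⟩,⟨false,0,⟨0,[(49,0)]⟩,⟨7,[(11,0),(2,1),(8,0),(0,0),(6,1),(0,1),(17,0),(0,2)]⟩⟩,⟨false,1,
  ⟨23,[(4,15),(6,3),(14,7),(4,4),(0,8),(0,23),(10,5),(6,3)]⟩,⟨1,[(0,0),(2,0),(1,1)]⟩⟩,⟨true,0,⟨0,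
  [(53,0)]⟩,⟨0,[]⟩⟩,⟨false,1,⟨71,[(4,39),(6,27),(2,23),(11,7),(4,16),(0,32),(0,71),(10,17),(6,3)]⟩,
  ⟨1,[(0,0),(2,0),(1,1),(43,1)]⟩⟩,[.a ⟨true,0,⟨1,[(11,0),(21,0),(0,0)]⟩,⟨0,[(5,0),(27,0),(15,0)]⟩⟩
  ⟨false,0,⟨5,[(0,3),(2,1),(26,0),(4,0),(2,0),(9,1)]⟩,⟨7,[(11,0),(2,1),(8,0),(0,0),(7,3),(17,0),(0,
  2)]⟩⟩ ⟨true,0,⟨1,[(11,0),(21,1),(2,0),(2,0)]⟩,⟨0,[(5,0),(43,0)]⟩⟩,.o ⟨false,1,⟨7,[(11,3),(19,0),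
  (0,0),(11,1),(6,3)]⟩,⟨0,[(37,0),(11,0)]⟩⟩,.o ⟨false,1,⟨1,[(7,0),(0,0),(23,0),(11,0)]⟩,⟨0,[(23,0),
  (9,0),(2,0),(12,0)]⟩⟩,.e ⟨false,0,⟨0,[(2,0)]⟩,⟨11,[(4,3),(4,3),(4,3),(16,2),(0,4),(18,3)]⟩⟩
  ⟨false,1,⟨7,[(11,3),(19,0),(0,0),(0,7),(10,1),(6,3)]⟩,⟨0,[(5,0),(43,0)]⟩⟩]⟩) (.Q [0,1,1,-1,0,0,0,
  0,1,0,0,-1] (.p false [0,0,0,1] [] (⟨0,[(34,0)]⟩,⟨0,[(33,0)]⟩) .k 0 (⟨0,[]⟩,⟨0,[]⟩) .k .k) (.Q [0,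
  -1,0,1,0,0,0,0,0,1] (.pp false [-1,1]) (.R ⟨2,false,false,true,[0,1],[0,0,0,1],[1],(⟨0,[]⟩,⟨0,
  []⟩),(⟨0,[(36,0)]⟩,⟨0,[(35,0)]⟩),⟨0,[]⟩,.k,.k,.k,(.r 0 ⟨1,[(12,1),(3,0),(23,0),(0,0)]⟩ ⟨9,[(1,1),
  (8,1),(9,3),(13,4),(17,0)]⟩),.k,.k,⟨true,0,⟨5,[(4,1),(0,0),(6,2),(3,0),(32,1)]⟩,⟨0,[(11,0)]⟩⟩,
  ⟨false,0,⟨1,[(1,1),(3,0),(6,0),(3,0)]⟩,⟨1,[(9,0),(0,0),(23,0),(17,0)]⟩⟩,⟨false,1,⟨7,[(20,3),(12,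
  0),(0,0),(18,1)]⟩,⟨1,[(16,0),(23,0),(0,0)]⟩⟩,⟨true,0,⟨0,[(1,0)]⟩,⟨4,[(0,0),(8,2),(0,1),(2,0),(10,
  1)]⟩⟩,⟨false,1,⟨1,[(52,0),(0,0)]⟩,⟨1,[(41,0),(0,0)]⟩⟩,⟨false,1,⟨23,[(1,15),(0,3),(13,3),(16,6),(0,
  8),(0,7),(10,3),(6,3)]⟩,⟨0,[(9,0)]⟩⟩,[.e ⟨true,0,⟨0,[]⟩,⟨1,[(41,0),(0,0)]⟩⟩ ⟨true,0,⟨17,[(1,15),
  (9,1),(1,1),(2,3),(18,1),(5,8),(0,4),(7,3)]⟩,⟨0,[(9,0)]⟩⟩,.a ⟨true,0,⟨0,[(0,0),(0,0)]⟩,⟨1,[(9,0),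
  (0,0)]⟩⟩ ⟨false,1,⟨1,[(52,0),(0,0)]⟩,⟨0,[(55,0)]⟩⟩ ⟨true,0,⟨4,[(1,3),(0,0),(13,0),(11,0),(6,0),(5,
  1),(7,0)]⟩,⟨1,[(9,0),(0,0)]⟩⟩,.o ⟨false,1,⟨3,[(33,0),(0,0),(17,1)]⟩,⟨0,[(25,0),(12,0),(12,0)]⟩⟩,
  .e ⟨false,1,⟨1,[(52,0),(0,0)]⟩,⟨1,[(41,0),(0,0)]⟩⟩ ⟨false,1,⟨23,[(1,15),(0,3),(13,3),(16,6),(0,8),
  (0,7),(10,3),(6,3)]⟩,⟨0,[(9,0)]⟩⟩]⟩) (.R ⟨1,false,false,true,[1,0,0,-1],[1,-1],[1,1],(⟨0,[(35,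
  0)]⟩,⟨0,[(36,0)]⟩),(⟨0,[(47,0)]⟩,⟨0,[(48,0)]⟩),⟨0,[(8,0)]⟩,.k,.k,(.r 0 ⟨0,[(4,0)]⟩ ⟨15,[(2,3),(8,
  7),(4,3),(16,6),(0,8)]⟩),(.r 0 ⟨1,[(12,1),(3,0),(23,0),(0,0)]⟩ ⟨9,[(1,1),(8,1),(9,3),(13,4),(17,
  0)]⟩),.k,.k,⟨true,0,⟨1,[(16,0),(23,0),(0,0)]⟩,⟨0,[(51,0)]⟩⟩,⟨false,0,⟨2,[(0,0),(0,0),(3,0),(10,0),
  (18,1),(2,0),(2,0)]⟩,⟨1,[(9,0),(0,0),(23,0),(17,0)]⟩⟩,⟨false,1,⟨3,[(33,0),(0,2)]⟩,⟨5,[(4,1),(0,0),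
  (6,2),(3,0),(32,1)]⟩⟩,⟨true,0,⟨0,[(1,0)]⟩,⟨11,[(9,8),(0,2),(2,1),(10,3),(1,1),(4,1)]⟩⟩,⟨false,1,
  ⟨23,[(2,3),(13,3),(16,4),(0,14),(15,7),(1,3)]⟩,⟨3,[(4,3),(36,0),(0,0),(6,1)]⟩⟩,⟨false,1,⟨23,[(1,
  15),(0,3),(13,3),(16,6),(0,8),(0,7),(10,3),(6,3)]⟩,⟨0,[(9,0)]⟩⟩,[.o ⟨false,0,⟨0,[(0,0)]⟩,⟨1,[(2,
  0),(0,0),(29,0)]⟩⟩,.e ⟨true,0,⟨0,[]⟩,⟨1,[(41,0),(0,0)]⟩⟩ ⟨true,0,⟨1,[(0,0),(0,0),(10,0),(22,0),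
  (13,0)]⟩,⟨5,[(2,1),(4,1),(1,0),(0,0),(20,1),(4,1)]⟩⟩,.o ⟨false,1,⟨1,[(9,0),(0,0),(23,0),(11,0)]⟩,
  ⟨2,[(0,0),(0,0),(3,0),(10,0),(18,1),(2,0),(2,0)]⟩⟩,.a ⟨true,0,⟨0,[(36,0)]⟩,⟨0,[(35,0)]⟩⟩ ⟨false,1,
  ⟨3,[(33,0),(0,0),(17,1)]⟩,⟨3,[(41,0),(0,0),(6,1)]⟩⟩ ⟨true,0,⟨0,[(0,0),(34,0)]⟩,⟨5,[(2,1),(4,1),(1,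
  0),(0,0),(20,1),(4,1)]⟩⟩]⟩)) (.K ⟨1,[1,-1,0,-1],0,0,(⟨0,[(7,0)]⟩,⟨0,[(35,0),(11,0)]⟩),(.r 0 ⟨0,
  [(3,0)]⟩ ⟨15,[(1,3),(8,7),(4,3),(16,6),(0,8)]⟩),(.r (-1) ⟨3,[(3,1),(15,2),(12,0),(21,2)]⟩ ⟨6,[(1,
  2),(8,3),(4,2),(24,1),(0,1),(7,1)]⟩),.k,.k,.k,[⟨1,[(34,1),(5,0),(0,0)]⟩,⟨1,[(6,1),(10,0),(19,0),
  (2,0)]⟩,⟨3,[(1,0),(8,2),(12,0),(6,0),(3,3)]⟩,⟨0,[(8,0),(41,0)]⟩]⟩)))))))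

theorem ok104 : chk (cU (-1) true 10) t104 r62 = true := by decide +kernel

noncomputable def t121 : Tre :=
  (.R ⟨2,false,false,true,[0,1],[1,1,-1],[1],(⟨0,[]⟩,⟨0,[]⟩),(⟨0,[(28,0),(3,0)]⟩,⟨0,[(5,0)]⟩),⟨0,
  []⟩,.k,.k,.k,.k,.k,.k,⟨true,1,⟨15,[(3,7),(0,11),(7,7),(4,0),(0,0),(18,1)]⟩,⟨0,[(1,0),(19,0)]⟩⟩,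
  ⟨false,1,⟨3,[(12,1),(17,0),(5,2)]⟩,⟨2,[(0,0),(9,0),(5,0),(7,0)]⟩⟩,⟨false,1,⟨7,[(4,3),(12,0),(0,0),
  (18,1)]⟩,⟨3,[(1,1),(13,1),(14,0),(6,0)]⟩⟩,⟨true,0,⟨0,[(21,0)]⟩,⟨1,[(0,0),(2,0),(20,0)]⟩⟩,⟨false,1,
  ⟨1,[(36,0),(0,0)]⟩,⟨1,[(25,0),(0,0)]⟩⟩,⟨false,1,⟨5,[(9,1),(3,1),(1,3),(8,3),(5,2),(6,2)]⟩,⟨0,[(0,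
  0)]⟩⟩,[.e ⟨true,0,⟨0,[]⟩,⟨1,[(25,0),(0,0)]⟩⟩ ⟨true,0,⟨3,[(1,0),(7,2),(2,1),(8,0),(2,2),(5,0)]⟩,⟨0,
  [(0,0)]⟩⟩,.a ⟨true,0,⟨0,[(13,0),(1,0)]⟩,⟨0,[(0,0),(38,0)]⟩⟩ ⟨false,1,⟨1,[(36,0),(0,0)]⟩,⟨0,[(39,
  0)]⟩⟩ ⟨true,0,⟨7,[(1,0),(7,6),(2,5),(0,3),(7,0),(2,2),(5,0)]⟩,⟨0,[(0,0),(38,0)]⟩⟩,.o ⟨false,1,⟨3,
  [(17,0),(0,0),(17,1)]⟩,⟨0,[(9,0),(12,0),(12,0)]⟩⟩,.e ⟨false,1,⟨1,[(36,0),(0,0)]⟩,⟨1,[(25,0),(0,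
  0)]⟩⟩ ⟨false,1,⟨5,[(9,1),(3,1),(1,3),(8,3),(5,2),(6,2)]⟩,⟨0,[(0,0)]⟩⟩]⟩)

theorem ok121 : chk (cU (-1) true 10) t121 l69 = true := by decide +kernel

noncomputable def t157 : Tre :=
  (.R ⟨1,false,false,false,[0,-1,1],[1,-1],[0,1,-1,-2,0,0,0,1],(⟨1,[(1,0),(27,0)]⟩,⟨0,[(28,0),(3,
  0)]⟩),(⟨0,[(31,0)]⟩,⟨0,[(32,0)]⟩),⟨0,[(1,0)]⟩,.k,.k,(.r (-1) ⟨0,[(7,0),(27,0)]⟩ ⟨7,[(0,7),(5,3),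
  (10,0),(0,0),(5,3),(5,3),(6,1)]⟩),.k,.k,.k,⟨true,0,⟨0,[(3,0),(1,0)]⟩,⟨5,[(0,1),(5,1),(20,3),(2,0),
  (2,1),(3,0)]⟩⟩,⟨false,1,⟨39,[(2,17),(0,5),(3,5),(4,1),(4,2),(0,2),(11,9)]⟩,⟨1,[(16,0),(2,0),(0,
  0)]⟩⟩,⟨false,0,⟨0,[(35,0)]⟩,⟨5,[(6,1),(3,1),(6,0),(0,0),(18,3)]⟩⟩,⟨false,1,⟨23,[(2,1),(9,3),(0,9),
  (10,11),(5,8),(6,12)]⟩,⟨0,[(0,0),(6,0)]⟩⟩,⟨true,0,⟨0,[(39,0)]⟩,⟨0,[]⟩⟩,⟨false,1,⟨47,[(2,1),(3,23),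
  (5,3),(0,9),(10,11),(5,20),(6,24)]⟩,⟨0,[(0,0),(6,0),(27,0)]⟩⟩,[.a ⟨true,0,⟨0,[(35,0)]⟩,⟨4,[(3,0),
  (2,1),(4,0),(7,1),(0,1),(7,1),(2,0)]⟩⟩ ⟨false,1,⟨11,[(3,5),(1,9),(1,9),(9,0),(0,0),(20,1)]⟩,⟨6,
  [(0,1),(5,5),(6,0),(2,1),(13,1),(2,2)]⟩⟩ ⟨true,1,⟨95,[(2,11),(2,27),(1,39),(4,35),(4,2),(0,2),(11,
  23),(6,13)]⟩,⟨0,[(0,0)]⟩⟩,.o ⟨false,1,⟨1,[(30,0),(4,1),(1,0)]⟩,⟨0,[(34,0)]⟩⟩,.o ⟨false,0,⟨0,[(25,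
  0)]⟩,⟨39,[(2,17),(0,5),(3,5),(4,1),(4,2),(0,2),(11,9)]⟩⟩,.e ⟨false,1,⟨0,[(7,0),(27,0)]⟩,⟨8,[(0,7),
  (5,4),(15,1),(1,0),(2,2),(2,2),(6,4)]⟩⟩ ⟨false,2,⟨95,[(2,35),(2,19),(1,55),(4,11),(4,8),(0,8),(11,
  23),(6,57)]⟩,⟨0,[(0,0)]⟩⟩]⟩)

theorem ok157 : chk (cU (-1) true 10) t157 l87 = true := by decide +kernel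

noncomputable def t184 : Tre :=
  (.I [0,1,-1,-1,0,0,0,1,-1] (.Q [0,0,0,0,0,-1,0,0,0,1,0,-1] (.ed true [0,1,0,1] .k) (.R ⟨1,false,
  false,false,[1,0,0,-1],[1,0,-1],[0,1,0,-1,0,0,0,0,-1],(⟨0,[(26,0)]⟩,⟨0,[(27,0)]⟩),(⟨0,[(35,0)]⟩,
  ⟨0,[(36,0)]⟩),⟨0,[(0,0)]⟩,.k,.k,(.x (-1) ⟨15,[(10,3),(5,3),(7,6),(0,6),(11,1)]⟩ ⟨0,[(39,0)]⟩),.k,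
  (.r (-1) ⟨3,[(1,3),(22,0),(0,0),(18,1)]⟩ ⟨1,[(5,0),(19,0)]⟩),.k,⟨false,0,⟨0,[(1,0)]⟩,⟨1,[(5,0),
  (19,0),(17,0),(0,0)]⟩⟩,⟨true,0,⟨0,[(26,0),(2,0)]⟩,⟨0,[(20,0),(6,0),(2,0)]⟩⟩,⟨false,0,⟨0,[(42,0)]⟩,
  ⟨31,[(12,7),(0,7),(9,3),(0,6),(0,6),(11,1),(5,3),(0,11)]⟩⟩,⟨false,1,⟨1,[(2,1),(22,0),(6,0),(0,0),
  (10,0)]⟩,⟨0,[(3,0),(26,0)]⟩⟩,⟨true,0,⟨0,[(46,0)]⟩,⟨0,[]⟩⟩,⟨false,1,⟨19,[(2,11),(2,5),(6,3),(6,3),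
  (4,2),(0,12),(0,7),(10,1),(6,7)]⟩,⟨0,[(3,0),(26,0),(11,0)]⟩⟩,[.e ⟨false,0,⟨0,[(1,0),(32,0)]⟩,⟨5,
  [(5,0),(6,1),(12,2),(17,1),(0,1)]⟩⟩ ⟨false,0,⟨0,[(2,0)]⟩,⟨15,[(14,7),(2,7),(5,3),(0,0),(0,0),(1,
  15),(9,1),(6,3)]⟩⟩,.o ⟨false,1,⟨7,[(7,3),(16,0),(0,0),(11,1),(6,3)]⟩,⟨0,[(30,0)]⟩⟩,.o ⟨false,1,⟨1,
  [(27,1),(9,0),(5,0)]⟩,⟨2,[(2,1),(23,0),(2,0),(0,1),(1,0),(7,0)]⟩⟩,.a ⟨true,0,⟨0,[(27,0)]⟩,⟨0,[(26,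
  0)]⟩⟩ ⟨false,0,⟨0,[(1,0),(18,0)]⟩,⟨5,[(5,0),(6,1),(11,0),(0,3),(6,0),(0,0),(10,1)]⟩⟩ ⟨true,0,⟨0,
  [(2,0)]⟩,⟨0,[(27,0),(2,0)]⟩⟩]⟩) (.Q [0,0,0,-1,0,0,1,1,0,1,-1] (.p false [0,0,1] [1] (⟨0,[(36,0)]⟩,
  ⟨0,[(35,0)]⟩) .k 1 (⟨0,[]⟩,⟨0,[]⟩) .k .k) (.R ⟨0,false,false,false,[1,0,0,-1],[0,-1,1],[0,1,0,0,0,
  0,0,0,-1],(⟨0,[(27,0)]⟩,⟨0,[(28,0)]⟩),(⟨1,[(11,0),(25,0)]⟩,⟨0,[(36,0),(3,0)]⟩),⟨0,[(1,0)]⟩,.k,.k,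
  (.x (-1) ⟨15,[(11,3),(5,3),(7,6),(0,6),(11,1)]⟩ ⟨0,[(40,0)]⟩),(.x (-1) ⟨0,[(9,0),(26,0),(3,0)]⟩
  ⟨1,[(11,0),(21,2),(0,0),(2,0)]⟩),.k,.k,⟨true,(-1),⟨0,[(2,0),(3,0)]⟩,⟨1,[(0,0),(14,0),(10,0),(3,0),
  (10,0)]⟩⟩,⟨false,0,⟨0,[(27,0),(5,0)]⟩,⟨0,[(9,0),(18,0)]⟩⟩,⟨true,0,⟨0,[(47,0)]⟩,⟨0,[]⟩⟩,⟨false,1,
  ⟨5,[(0,5),(25,2),(0,5),(2,1),(2,1),(4,1),(2,1),(3,0)]⟩,⟨0,[(4,0),(5,0)]⟩⟩,⟨false,0,⟨0,[]⟩,⟨0,[]⟩⟩,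
  ⟨false,0,⟨0,[]⟩,⟨0,[]⟩⟩,[.a ⟨true,0,⟨0,[(0,0)]⟩,⟨3,[(8,0),(5,1),(12,0),(0,0)]⟩⟩ ⟨false,0,⟨1,[(2,
  1),(3,0),(37,0)]⟩,⟨1,[(26,0),(18,0)]⟩⟩ ⟨true,0,⟨2,[(0,0),(26,2),(2,0),(0,1),(1,0),(7,0),(1,1)]⟩,
  ⟨8,[(1,7),(5,2),(3,1),(2,2),(2,1),(10,0)]⟩⟩,.o ⟨false,1,⟨1,[(0,1),(37,0),(6,0)]⟩,⟨0,[(10,0)]⟩⟩,.o
  ⟨false,1,⟨1,[(28,1),(9,0),(5,0)]⟩,⟨2,[(3,1),(23,0),(2,0),(0,1),(1,0),(7,0)]⟩⟩,.e ⟨false,0,⟨1,[(2,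
  0),(0,0),(0,0),(13,0),(2,0)]⟩,⟨1,[(26,0),(6,0),(0,0),(10,0)]⟩⟩ ⟨false,1,⟨1,[(0,1),(26,1),(10,0),
  (6,0)]⟩,⟨8,[(1,7),(5,2),(3,1),(2,2),(2,1),(10,0)]⟩⟩]⟩) (.R ⟨0,false,false,false,[1,0,0,-1],[1,1,
  -1],[1,0,1,1,0,0,0,-1],(⟨0,[(27,0)]⟩,⟨0,[(28,0)]⟩),(⟨0,[(36,0),(3,0)]⟩,⟨1,[(11,0),(25,0)]⟩),⟨0,
  [(1,0)]⟩,.k,.k,(.x (-1) ⟨15,[(11,3),(5,3),(7,6),(0,6),(11,1)]⟩ ⟨0,[(40,0)]⟩),(.r (-1) ⟨3,[(2,3),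
  (22,0),(0,0),(18,1)]⟩ ⟨1,[(6,0),(19,0)]⟩),.k,.k,⟨true,0,⟨0,[]⟩,⟨1,[(33,0),(0,0)]⟩⟩,⟨false,1,⟨19,
  [(9,11),(10,3),(4,2),(0,2),(0,19),(10,1)]⟩,⟨5,[(1,3),(9,0),(5,0),(6,2),(3,1)]⟩⟩,⟨true,0,⟨1,[(6,0),
  (19,0)]⟩,⟨0,[(2,0)]⟩⟩,⟨false,1,⟨19,[(3,11),(2,5),(6,3),(6,3),(4,2),(0,12),(0,7),(10,1),(6,7)]⟩,⟨0,
  [(4,0),(26,0),(11,0)]⟩⟩,⟨false,0,⟨0,[]⟩,⟨0,[]⟩⟩,⟨false,0,⟨0,[]⟩,⟨0,[]⟩⟩,[.o ⟨false,0,⟨0,[(0,0)]⟩,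
  ⟨1,[(2,1),(23,0),(6,1),(11,0)]⟩⟩,.o ⟨false,1,⟨11,[(7,3),(6,3),(10,0),(0,0),(11,3),(6,5)]⟩,⟨0,[(31,
  0),(11,0)]⟩⟩,.o ⟨false,1,⟨1,[(28,1),(9,0),(5,0)]⟩,⟨2,[(3,1),(23,0),(2,0),(0,1),(1,0),(7,0)]⟩⟩,.a
  ⟨true,0,⟨0,[(28,0)]⟩,⟨0,[(27,0)]⟩⟩ ⟨false,0,⟨3,[(0,1),(12,0),(5,0),(1,2),(0,0),(13,0)]⟩,⟨1,[(2,1),
  (23,0),(6,0),(0,0),(10,0)]⟩⟩ ⟨true,0,⟨0,[(0,0),(26,0)]⟩,⟨0,[(28,0),(2,0),(11,0)]⟩⟩]⟩))) (.Q [0,0,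
  1,-2,0,0,-1,-1,1,0,1,-1] (.p true [0,0,1] [0,0,0,1] (⟨0,[(35,0)]⟩,⟨0,[(34,0)]⟩) .k 2 (⟨0,[(26,
  0)]⟩,⟨0,[(25,0)]⟩) .k (.r 0 ⟨0,[(2,0),(22,0),(2,0),(0,0)]⟩ ⟨3,[(23,0),(0,2),(8,3)]⟩)) (.Q [0,0,-1,
  0,0,0,0,0,-1,-1,0,1] (.p true [0,0,0,1] [1] (⟨0,[(27,0)]⟩,⟨0,[(26,0)]⟩) .k 1 (⟨0,[]⟩,⟨0,[]⟩) .k
  .k) (.R ⟨2,false,false,true,[0,1],[0,0,0,1],[],(⟨0,[]⟩,⟨0,[]⟩),(⟨0,[(28,0)]⟩,⟨0,[(27,0)]⟩),⟨0,[]⟩,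
  .k,.k,.k,(.r 0 ⟨1,[(5,1),(27,0),(0,0)]⟩ ⟨7,[(1,1),(10,1),(2,1),(8,1),(1,2),(1,1),(15,0)]⟩),.k,.k,
  ⟨true,0,⟨1,[(0,0),(4,0),(21,0),(13,0),(1,0)]⟩,⟨3,[(1,2),(0,0),(15,3),(4,0),(4,2)]⟩⟩,⟨false,0,⟨2,
  [(3,1),(23,0),(2,0),(0,1),(1,0),(7,0)]⟩,⟨0,[(28,0),(15,0)]⟩⟩,⟨false,1,⟨23,[(1,5),(2,3),(7,5),(2,
  5),(8,5),(0,0),(2,1),(15,0),(0,9)]⟩,⟨9,[(6,1),(6,1),(4,1),(6,0),(0,0),(6,0),(0,2)]⟩⟩,⟨true,0,⟨0,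
  [(1,0),(16,0)]⟩,⟨0,[(4,0),(37,0)]⟩⟩,⟨false,1,⟨1,[(44,0),(0,0)]⟩,⟨1,[(33,0),(0,0)]⟩⟩,⟨false,1,⟨43,
  [(1,19),(4,1),(6,11),(4,11),(6,10),(0,22),(0,23),(5,7),(4,11)]⟩,⟨0,[(4,0)]⟩⟩,[.a ⟨true,0,⟨11,[(1,
  9),(4,0),(6,1),(4,9),(0,1),(3,3),(2,0),(0,5),(0,3),(7,3),(2,1)]⟩,⟨0,[(4,0)]⟩⟩ ⟨false,1,⟨3,[(25,0),
  (0,0),(17,1)]⟩,⟨0,[]⟩⟩ ⟨true,0,⟨9,[(1,9),(4,1),(6,1),(4,11),(6,0),(0,0),(6,0),(0,2)]⟩,⟨0,[(4,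
  0)]⟩⟩,.o ⟨false,1,⟨43,[(1,19),(4,1),(6,11),(4,11),(6,10),(0,22),(0,23),(5,7),(4,11)]⟩,⟨0,[(0,
  0)]⟩⟩,.o ⟨false,1,⟨3,[(25,0),(0,0),(17,1)]⟩,⟨5,[(0,1),(0,1),(4,0),(11,1),(11,1),(0,1),(6,0),(2,
  1)]⟩⟩,.e ⟨false,1,⟨1,[(44,0),(0,0)]⟩,⟨1,[(33,0),(0,0)]⟩⟩ ⟨false,1,⟨43,[(1,19),(4,1),(6,11),(4,11),
  (6,10),(0,22),(0,23),(5,7),(4,11)]⟩,⟨0,[(4,0)]⟩⟩]⟩) (.R ⟨2,false,false,true,[0,1],[0,0,0,1],[1],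
  (⟨0,[]⟩,⟨0,[]⟩),(⟨0,[(28,0)]⟩,⟨0,[(27,0)]⟩),⟨0,[]⟩,.k,.k,.k,(.r 0 ⟨1,[(5,1),(27,0),(0,0)]⟩ ⟨7,[(1,
  1),(10,1),(2,1),(8,1),(1,2),(1,1),(15,0)]⟩),.k,.k,⟨true,0,⟨1,[(3,0),(0,0),(0,0),(25,0),(9,0),(1,
  0)]⟩,⟨3,[(1,2),(0,0),(15,3),(4,0),(4,2)]⟩⟩,⟨false,0,⟨2,[(3,1),(23,0),(2,0),(0,1),(1,0),(7,0)]⟩,⟨0,
  [(28,0),(15,0)]⟩⟩,⟨false,1,⟨23,[(1,5),(2,3),(7,5),(2,5),(8,5),(0,0),(2,1),(15,0),(0,9)]⟩,⟨9,[(6,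
  1),(6,1),(4,1),(6,0),(0,0),(6,0),(0,2)]⟩⟩,⟨true,0,⟨0,[(1,0),(16,0)]⟩,⟨0,[(4,0),(37,0)]⟩⟩,⟨false,1,
  ⟨1,[(44,0),(0,0)]⟩,⟨1,[(33,0),(0,0)]⟩⟩,⟨false,1,⟨3,[(0,3),(24,0),(0,0),(11,1)]⟩,⟨0,[(4,0)]⟩⟩,[.e
  ⟨true,0,⟨0,[]⟩,⟨1,[(33,0),(0,0)]⟩⟩ ⟨true,0,⟨11,[(0,7),(0,3),(4,0),(11,5),(11,5),(2,3),(4,0),(8,
  5)]⟩,⟨0,[(4,0)]⟩⟩,.a ⟨true,0,⟨0,[(0,0)]⟩,⟨0,[(4,0),(42,0)]⟩⟩ ⟨false,1,⟨1,[(44,0),(0,0)]⟩,⟨0,[(47,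
  0)]⟩⟩ ⟨true,0,⟨11,[(0,1),(0,9),(4,0),(6,5),(4,5),(14,3),(4,0)]⟩,⟨0,[(4,0),(42,0)]⟩⟩,.o ⟨false,1,
  ⟨3,[(25,0),(0,0),(17,1)]⟩,⟨0,[(21,0),(8,0),(0,0)]⟩⟩,.e ⟨false,1,⟨1,[(44,0),(0,0)]⟩,⟨1,[(33,0),(0,
  0)]⟩⟩ ⟨false,1,⟨3,[(0,3),(24,0),(0,0),(11,1)]⟩,⟨0,[(4,0)]⟩⟩]⟩)) (.Q [0,-1,-1,2,0,0,-1,-1,-1,-1,1,
  1] (.p true [0,0,1] [1,0,0,-1] (⟨0,[(36,0)]⟩,⟨0,[(35,0)]⟩) .k 2 (⟨0,[(26,0)]⟩,⟨0,[(27,0)]⟩) .k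
  (.r (-1) ⟨11,[(14,3),(0,3),(8,0),(0,6),(4,3),(2,3)]⟩ ⟨5,[(2,1),(0,1),(0,1),(0,0),(17,1),(0,0),(3,
  1),(13,3)]⟩)) (.I [0,0,1,1,-1,0,0,-1,-1] (.R ⟨1,false,false,false,[0,-1,1],[1,0,0,-1],[1,0,-1,-1,
  0,0,0,1],(⟨1,[(12,0),(25,0)]⟩,⟨0,[(37,0),(3,0)]⟩),(⟨0,[(28,0)]⟩,⟨0,[(29,0)]⟩),⟨0,[(12,0)]⟩,.k,.k,
  (.r (-1) ⟨0,[(16,0),(27,0)]⟩ ⟨19,[(7,13),(6,3),(4,3),(6,6),(0,6),(6,1),(0,5)]⟩),(.r (-2) ⟨3,[(16,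
  3),(9,0),(0,2),(6,1),(0,1)]⟩ ⟨0,[(0,0)]⟩),(.r (-2) ⟨3,[(16,3),(9,0),(0,2),(16,3)]⟩ ⟨9,[(0,7),(6,
  2),(6,1),(4,1),(6,0),(7,0),(0,2)]⟩),.k,⟨false,2,⟨3,[(16,3),(9,0),(0,2)]⟩,⟨0,[(0,0)]⟩⟩,⟨true,1,⟨5,
  [(1,0),(0,0),(10,4),(10,0),(2,0),(1,3)]⟩,⟨0,[(7,0),(9,0),(10,0),(3,0),(11,2)]⟩⟩,⟨true,0,⟨0,[]⟩,⟨0,
  [(48,0)]⟩⟩,⟨false,0,⟨0,[(1,0),(42,0)]⟩,⟨3,[(16,1),(0,0),(9,1),(0,3),(3,0),(1,4),(0,1),(8,2)]⟩⟩,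
  ⟨false,1,⟨5,[(3,1),(10,1),(11,1),(0,0),(17,1),(0,0)]⟩,⟨0,[(44,0)]⟩⟩,⟨false,0,⟨0,[(1,0)]⟩,⟨3,[(16,
  1),(0,0),(9,1),(0,3),(3,0),(1,4),(0,1),(8,6)]⟩⟩,[.o ⟨false,0,⟨0,[(1,0),(30,0),(11,1)]⟩,⟨7,[(26,0),
  (0,4),(0,7),(2,3),(2,3),(4,1)]⟩⟩,.a ⟨true,0,⟨0,[(5,0)]⟩,⟨0,[(3,0),(20,0),(3,0),(3,0),(11,1)]⟩⟩
  ⟨true,1,⟨2,[(16,1),(0,0),(26,1),(1,0)]⟩,⟨0,[(0,0),(2,0),(20,0),(7,0),(11,1)]⟩⟩ ⟨false,1,⟨1,[(1,0),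
  (3,0),(7,0),(2,0)]⟩,⟨1,[(7,0),(19,0),(0,1),(3,1),(1,0),(0,0),(8,1)]⟩⟩,.o ⟨false,0,⟨0,[(34,0)]⟩,
  ⟨19,[(10,11),(10,3),(4,2),(0,2),(11,1)]⟩⟩,.o ⟨false,0,⟨1,[(34,2),(0,0)]⟩,⟨0,[(10,0)]⟩⟩]⟩) (.Q [0,
  0,0,-1,0,0,0,0,0,-1,0,1] (.p true [0,0,0,1] [1] (⟨0,[(29,0)]⟩,⟨0,[(28,0)]⟩) .k 1 (⟨0,[]⟩,⟨0,[]⟩)
  .k .k) (.Q [0,0,0,0,0,1,0,0,0,-1,0,1] (.ed false [0,1,0,1] .k) (.R ⟨0,false,false,true,[1,0,0,-1],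
  [0,1],[1,1],(⟨0,[(30,0)]⟩,⟨0,[(31,0)]⟩),(⟨0,[(43,0)]⟩,⟨0,[(42,0)]⟩),⟨0,[(0,0)]⟩,.k,.k,(.x (-1)
  ⟨15,[(14,3),(5,3),(7,6),(0,6),(11,1)]⟩ ⟨0,[(43,0)]⟩),(.x (-1) ⟨15,[(14,3),(5,3),(7,6),(0,6),(11,
  1)]⟩ ⟨0,[(43,0)]⟩),.k,.k,⟨false,1,⟨0,[(18,0),(19,0)]⟩,⟨9,[(9,1),(6,1),(4,1),(6,0),(0,0),(6,0),(0,
  2)]⟩⟩,⟨true,0,⟨0,[(30,0)]⟩,⟨11,[(1,4),(7,0),(6,0),(4,0),(9,6),(1,4),(2,3),(4,0)]⟩⟩,⟨false,1,⟨3,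
  [(28,0),(0,2)]⟩,⟨1,[(6,0),(0,0),(0,0),(25,0),(9,0),(1,0)]⟩⟩,⟨true,0,⟨0,[(5,0),(20,0),(3,0),(3,0),
  (11,0)]⟩,⟨0,[(1,0),(4,0),(0,0),(26,0)]⟩⟩,⟨false,0,⟨0,[]⟩,⟨0,[]⟩⟩,⟨false,0,⟨0,[]⟩,⟨0,[]⟩⟩,[.o
  ⟨false,0,⟨0,[(45,0)]⟩,⟨1,[(41,0),(4,1),(1,0)]⟩⟩,.e ⟨true,0,⟨0,[]⟩,⟨1,[(36,0),(0,0)]⟩⟩ ⟨true,0,⟨9,
  [(9,1),(6,1),(4,1),(6,0),(0,0),(0,9),(5,0),(0,2)]⟩,⟨0,[(1,0)]⟩⟩,.o ⟨false,1,⟨1,[(31,1),(9,0),(5,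
  0)]⟩,⟨2,[(6,1),(23,0),(2,0),(0,1),(1,0),(7,0)]⟩⟩,.a ⟨true,0,⟨0,[(31,0)]⟩,⟨0,[(30,0)]⟩⟩ ⟨false,1,
  ⟨3,[(28,0),(0,0),(17,1)]⟩,⟨3,[(36,0),(0,0),(6,1)]⟩⟩ ⟨true,0,⟨0,[(30,0),(14,0)]⟩,⟨0,[(1,0)]⟩⟩]⟩)
  (.Q [0,0,0,-1,0,0,1,1,0,1,-1] (.p false [0,0,1] [1] (⟨0,[(40,0)]⟩,⟨0,[(39,0)]⟩) .k 1 (⟨0,[]⟩,⟨0,
  []⟩) .k .k) (.I [1,1,1,1,-1,0,0,-1,-1] (.R ⟨1,false,false,false,[1,0,0,-1],[0,-1,1],[1,1,0,0,0,0,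
  0,0,-1],(⟨0,[(32,0)]⟩,⟨0,[(33,0)]⟩),(⟨1,[(16,0),(25,0)]⟩,⟨0,[(41,0),(3,0)]⟩),⟨0,[(2,0)]⟩,.k,.k,
  (.x (-1) ⟨15,[(16,3),(5,3),(7,6),(0,6),(11,1)]⟩ ⟨0,[(45,0)]⟩),(.x (-1) ⟨0,[(14,0),(26,0),(3,0)]⟩
  ⟨1,[(16,0),(21,2),(0,0),(2,0)]⟩),.k,.k,⟨true,(-1),⟨0,[(0,0)]⟩,⟨5,[(1,1),(2,3),(26,0),(3,1),(10,1),
  (3,0)]⟩⟩,⟨false,0,⟨0,[(32,0),(5,0)]⟩,⟨5,[(5,0),(0,0),(10,4),(10,0),(2,0),(1,3)]⟩⟩,⟨false,0,⟨0,[]⟩,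
  ⟨3,[(30,0),(0,0),(18,1)]⟩⟩,⟨false,1,⟨5,[(1,5),(29,2),(0,5),(2,1),(2,1),(4,1),(2,1),(3,0)]⟩,⟨7,[(0,
  1),(2,1),(1,3),(0,0),(2,0),(7,1),(19,2)]⟩⟩,⟨true,0,⟨0,[(47,0)]⟩,⟨0,[(48,0)]⟩⟩,⟨false,1,⟨3,[(1,1),
  (19,1),(9,1),(0,3),(5,1),(4,0),(6,0)]⟩,⟨10,[(0,3),(2,3),(1,1),(3,4),(3,0),(3,3),(19,2)]⟩⟩,[.a
  ⟨true,0,⟨0,[(1,0)]⟩,⟨3,[(13,0),(5,1),(12,0),(0,0)]⟩⟩ ⟨false,0,⟨0,[(0,0),(19,0)]⟩,⟨1,[(31,0),(18,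
  0)]⟩⟩ ⟨true,0,⟨2,[(1,0),(30,2),(2,0),(0,1),(1,0),(7,0),(1,1)]⟩,⟨7,[(3,2),(1,1),(1,1),(4,0),(2,1),
  (12,1),(4,2)]⟩⟩,.o ⟨false,1,⟨1,[(1,1),(41,0),(6,0)]⟩,⟨0,[(15,0)]⟩⟩,.o ⟨false,1,⟨1,[(33,1),(9,0),
  (5,0)]⟩,⟨2,[(8,1),(23,0),(2,0),(0,1),(1,0),(7,0)]⟩⟩,.e ⟨false,0,⟨0,[(8,0),(0,0),(26,0)]⟩,⟨1,[(31,
  0),(6,0),(0,0),(10,0)]⟩⟩ ⟨false,1,⟨1,[(1,1),(30,1),(10,0),(6,0)]⟩,⟨7,[(3,2),(1,1),(1,1),(4,0),(2,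
  1),(12,1),(4,2)]⟩⟩]⟩) (.Q [0,0,0,0,0,0,1,1,0,1,-1] (.p false [0,0,1] [1] (⟨0,[(42,0)]⟩,⟨0,[(41,
  0)]⟩) .k 1 (⟨0,[]⟩,⟨0,[]⟩) .k .k) (.R ⟨2,false,false,false,[0,1],[1,0,-1],[1,0,1,0,0,0,0,-1],(⟨0,
  []⟩,⟨0,[]⟩),(⟨0,[(42,0)]⟩,⟨0,[(43,0)]⟩),⟨0,[]⟩,.k,.k,.k,.k,.k,.k,⟨false,0,⟨0,[]⟩,⟨3,[(31,0),(0,0),
  (17,1)]⟩⟩,⟨true,0,⟨0,[(36,0)]⟩,⟨1,[(30,0),(2,0),(0,0)]⟩⟩,⟨false,0,⟨0,[(27,0),(21,0)]⟩,⟨17,[(5,3),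
  (13,7),(1,1),(2,3),(4,3),(1,6),(0,4)]⟩⟩,⟨true,0,⟨0,[(4,0),(4,0)]⟩,⟨0,[(0,0),(47,0)]⟩⟩,⟨false,0,⟨0,
  [(27,0)]⟩,⟨4,[(2,0),(2,1),(13,0),(4,0),(1,0),(4,1),(0,0)]⟩⟩,⟨false,1,⟨7,[(14,3),(16,0),(0,0),(11,
  1),(6,3)]⟩,⟨0,[(0,0)]⟩⟩,[.a ⟨true,0,⟨1,[(14,0),(18,0),(0,0)]⟩,⟨0,[(0,0)]⟩⟩ ⟨false,0,⟨0,[(41,0)]⟩,
  ⟨35,[(5,3),(13,7),(1,19),(2,3),(4,3),(1,6),(0,4)]⟩⟩ ⟨true,0,⟨1,[(14,0),(21,0),(2,0)]⟩,⟨0,[(0,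
  0)]⟩⟩,.o ⟨false,1,⟨7,[(14,3),(16,0),(0,0),(11,1),(6,3)]⟩,⟨0,[(37,0)]⟩⟩,.o ⟨false,1,⟨3,[(31,0),(0,
  0),(17,1)]⟩,⟨5,[(4,1),(4,1),(2,0),(23,1),(0,3),(6,0),(2,1)]⟩⟩,.e ⟨false,0,⟨0,[(27,0)]⟩,⟨4,[(2,0),
  (2,1),(13,0),(4,0),(1,0),(4,1),(0,0)]⟩⟩ ⟨false,1,⟨7,[(14,3),(16,0),(0,0),(11,1),(6,3)]⟩,⟨0,[(0,
  0)]⟩⟩]⟩) (.R ⟨2,false,false,false,[0,1],[1,1,-1],[1,0,1,1,0,0,0,-1],(⟨0,[]⟩,⟨0,[]⟩),(⟨0,[(42,0),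
  (3,0)]⟩,⟨1,[(17,0),(25,0)]⟩),⟨0,[]⟩,.k,.k,.k,.k,.k,.k,⟨true,0,⟨0,[]⟩,⟨1,[(39,0),(0,0)]⟩⟩,⟨false,1,
  ⟨19,[(15,11),(10,3),(4,2),(0,2),(11,1)]⟩,⟨1,[(30,0),(2,0),(0,0)]⟩⟩,⟨false,0,⟨0,[(27,0)]⟩,⟨4,[(2,
  0),(2,1),(13,0),(4,0),(1,0),(4,1),(0,0)]⟩⟩,⟨true,0,⟨0,[(0,0)]⟩,⟨0,[(2,0),(45,0)]⟩⟩,⟨false,0,⟨2,
  [(7,0),(0,0),(0,0),(17,1)]⟩,⟨7,[(2,3),(2,3),(25,2),(0,0),(3,3)]⟩⟩,⟨false,1,⟨11,[(13,3),(6,3),(10,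
  0),(0,0),(11,3),(6,5)]⟩,⟨0,[(2,0)]⟩⟩,[.a ⟨true,0,⟨3,[(14,0),(5,1),(12,0),(0,0)]⟩,⟨0,[(2,0)]⟩⟩
  ⟨false,0,⟨1,[(12,0),(37,0)]⟩,⟨15,[(2,3),(2,5),(15,5),(4,1),(4,2),(12,0)]⟩⟩ ⟨true,0,⟨67,[(12,21),
  (0,11),(2,3),(2,3),(6,19),(4,2),(0,2),(11,15)]⟩,⟨0,[(2,0)]⟩⟩,.o ⟨false,1,⟨11,[(13,3),(6,3),(10,0),
  (0,0),(11,3),(6,5)]⟩,⟨0,[(37,0),(11,0)]⟩⟩,.o ⟨false,1,⟨3,[(31,0),(0,0),(17,1)]⟩,⟨5,[(4,1),(4,1),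
  (2,0),(23,1),(0,3),(6,0),(2,1)]⟩⟩,.e ⟨false,0,⟨2,[(7,0),(0,0),(0,0),(17,1)]⟩,⟨7,[(2,3),(2,3),(25,
  2),(0,0),(3,3)]⟩⟩ ⟨false,1,⟨11,[(13,3),(6,3),(10,0),(0,0),(11,3),(6,5)]⟩,⟨0,[(2,0)]⟩⟩]⟩))) (.I [0,
  1,-1,-2,0,0,0,1,-1] (.R ⟨1,false,false,false,[1,0,0,-1],[1,1,-1],[1,0,1,1,0,0,0,-1],(⟨0,[(32,0)]⟩,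
  ⟨0,[(33,0)]⟩),(⟨0,[(41,0),(3,0)]⟩,⟨1,[(16,0),(25,0)]⟩),⟨0,[(2,0)]⟩,.k,.k,(.x (-1) ⟨15,[(16,3),(5,
  3),(7,6),(0,6),(11,1)]⟩ ⟨0,[(45,0)]⟩),(.r (-1) ⟨11,[(0,3),(3,1),(15,3),(0,1),(8,4),(19,0)]⟩ ⟨1,
  [(11,0),(19,0)]⟩),(.r (-1) ⟨5,[(0,3),(19,3),(5,1),(3,0),(19,0)]⟩ ⟨9,[(11,6),(6,1),(4,1),(6,0),(0,
  5),(6,0),(0,2)]⟩),.k,⟨true,0,⟨0,[]⟩,⟨1,[(38,0),(0,0)]⟩⟩,⟨false,1,⟨19,[(14,11),(10,3),(4,2),(0,2),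
  (0,19),(10,1)]⟩,⟨13,[(3,5),(2,1),(4,0),(17,5),(1,0),(1,5)]⟩⟩,⟨false,0,⟨0,[(7,0)]⟩,⟨11,[(0,3),(3,
  1),(15,3),(0,1),(8,4),(19,0)]⟩⟩,⟨false,1,⟨9,[(7,5),(0,5),(9,1),(6,1),(4,2),(0,4),(0,3),(10,0),(6,
  0)]⟩,⟨5,[(0,1),(2,1),(5,3),(14,0),(2,0),(8,3),(4,0),(4,0)]⟩⟩,⟨true,0,⟨2,[(7,0),(3,0),(7,0),(3,0),
  (7,0)]⟩,⟨0,[(0,0)]⟩⟩,⟨false,1,⟨15,[(7,7),(0,11),(9,7),(0,3),(10,4),(0,8),(0,3),(10,1)]⟩,⟨2,[(0,1),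
  (2,1),(5,0),(14,0),(2,0),(8,0),(4,0),(4,0)]⟩⟩,[.o ⟨false,0,⟨0,[(1,0)]⟩,⟨4,[(0,0),(3,2),(25,0),(5,
  0),(1,3),(11,0)]⟩⟩,.o ⟨false,1,⟨11,[(12,3),(6,3),(10,0),(0,0),(11,3),(6,5)]⟩,⟨0,[(36,0),(11,0)]⟩⟩,
  .o ⟨false,1,⟨1,[(33,1),(9,0),(5,0)]⟩,⟨2,[(8,1),(23,0),(2,0),(0,1),(1,0),(7,0)]⟩⟩,.a ⟨true,0,⟨0,
  [(33,0)]⟩,⟨0,[(32,0)]⟩⟩ ⟨false,0,⟨2,[(6,0),(0,0),(0,0),(17,1)]⟩,⟨43,[(0,7),(3,31),(16,3),(8,11),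
  (7,16),(0,16),(6,1)]⟩⟩ ⟨true,0,⟨0,[(1,0),(30,0)]⟩,⟨0,[(33,0),(2,0),(11,0)]⟩⟩]⟩) (.I [0,0,1,0,-1,0,
  0,-1,-1] (.R ⟨1,false,false,true,[1,0,0,-1],[0,-1,1],[0,1,0,-1,0,0,0,0,-1],(⟨0,[(33,0)]⟩,⟨0,[(34,
  0)]⟩),(⟨1,[(17,0),(25,0)]⟩,⟨0,[(42,0),(3,0)]⟩),⟨0,[(3,0)]⟩,.k,.k,(.x (-1) ⟨15,[(17,3),(5,3),(7,6),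
  (0,6),(11,1)]⟩ ⟨0,[(46,0)]⟩),(.x (-1) ⟨0,[(15,0),(26,0),(3,0)]⟩ ⟨1,[(17,0),(21,2),(0,0),(2,0)]⟩),
  .k,.k,⟨true,(-1),⟨0,[(0,0)]⟩,⟨7,[(5,3),(13,1),(11,0),(0,2),(4,1),(2,1)]⟩⟩,⟨false,0,⟨0,[(33,0),(5,
  0)]⟩,⟨5,[(6,0),(0,0),(10,4),(10,0),(2,0),(1,3)]⟩⟩,⟨false,0,⟨0,[(49,0)]⟩,⟨15,[(1,3),(17,3),(11,4),
  (0,2),(17,3),(0,3)]⟩⟩,⟨false,1,⟨1,[(5,1),(27,1),(5,2),(0,0)]⟩,⟨2,[(4,0),(1,1),(2,0),(0,0)]⟩⟩,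
  ⟨true,0,⟨0,[(53,0)]⟩,⟨0,[]⟩⟩,⟨false,1,⟨5,[(5,1),(16,1),(8,0),(0,2),(0,5),(3,1),(1,4),(0,0)]⟩,⟨2,
  [(4,1),(1,0),(2,1),(0,1)]⟩⟩,[.o ⟨false,0,⟨0,[(37,0),(11,0)]⟩,⟨11,[(13,3),(6,3),(10,0),(0,0),(11,
  3),(6,5)]⟩⟩,.o ⟨false,1,⟨6,[(5,3),(15,0),(9,1),(5,1),(1,4),(7,0),(1,1)]⟩,⟨0,[(2,0)]⟩⟩,.o ⟨false,1,
  ⟨1,[(34,1),(9,0),(5,0)]⟩,⟨2,[(9,1),(23,0),(2,0),(0,1),(1,0),(7,0)]⟩⟩,.a ⟨true,0,⟨0,[(34,0)]⟩,⟨0,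
  [(33,0)]⟩⟩ ⟨false,0,⟨0,[(0,0),(20,0)]⟩,⟨11,[(8,3),(10,3),(11,2),(0,6),(6,1),(0,1),(10,1)]⟩⟩ ⟨true,
  0,⟨0,[(33,0),(3,0),(11,0)]⟩,⟨4,[(1,0),(2,1),(1,0),(6,0),(2,0),(12,0),(4,1)]⟩⟩]⟩) (.Q [0,-1,-1,1,0,
  0,0,0,-1,0,0,1] (.p true [0,0,0,1] [] (⟨0,[(34,0)]⟩,⟨0,[(33,0)]⟩) .k 0 (⟨0,[]⟩,⟨0,[]⟩) .k .k) (.Q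
  [0,-1,0,1,0,0,-2,-2,0,-1,2] (.p true [0,0,1] [1,0,-1] (⟨0,[(44,0)]⟩,⟨0,[(43,0)]⟩) .k 2 (⟨0,[(43,
  0)]⟩,⟨0,[(44,0)]⟩) .k (.r (-1) ⟨8,[(6,3),(15,2),(0,5),(6,0),(1,1),(5,4),(2,3)]⟩ ⟨0,[(42,1)]⟩))
  (.Q [0,0,-2,0,1,0,-2,0,0,-1,2] (.p true [0,0,1] [1,0,-1] (⟨0,[(45,0)]⟩,⟨0,[(44,0)]⟩) .k 2 (⟨0,
  [(44,0)]⟩,⟨0,[(45,0)]⟩) .k (.r (-1) ⟨8,[(7,3),(15,2),(0,5),(6,0),(1,1),(5,4),(2,3)]⟩ ⟨0,[(43,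
  1)]⟩)) (.I [0,0,2,2,-1,0,0,-2] (.Q [0,1,0,-2,0,0,2,2,0,1,-2] (.p false [0,0,1] [1,0,-1] (⟨0,[(47,
  0)]⟩,⟨0,[(46,0)]⟩) .k 2 (⟨0,[(46,0)]⟩,⟨0,[(47,0)]⟩) .k (.r (-1) ⟨8,[(9,3),(15,2),(0,5),(6,0),(1,
  1),(5,4),(2,3)]⟩ ⟨0,[(45,1)]⟩)) (.R ⟨1,true,false,false,[0,0,1],[1,1,-1],[0,0,0,-1,0,0,0,1],(⟨0,
  [(48,0)]⟩,⟨0,[(47,0)]⟩),(⟨0,[(47,0),(3,0)]⟩,⟨1,[(22,0),(25,0)]⟩),⟨1,[(22,0),(25,0)]⟩,.k,.k,.k,(.r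
  (-1) ⟨13,[(0,4),(9,1),(13,3),(1,10),(0,0),(3,4),(4,0)]⟩ ⟨3,[(1,1),(34,0),(0,0),(8,3)]⟩),(.r (-2)
  ⟨7,[(0,1),(9,5),(15,5),(4,1),(4,2),(19,0)]⟩ ⟨0,[(1,0)]⟩),.k,⟨true,1,⟨6,[(0,3),(25,5),(4,3),(20,0),
  (3,0)]⟩,⟨0,[(17,0)]⟩⟩,⟨false,1,⟨0,[(2,0)]⟩,⟨3,[(0,1),(0,0),(11,1),(21,1),(0,0)]⟩⟩,⟨true,0,⟨0,[(54,
  0)]⟩,⟨0,[(53,0)]⟩⟩,⟨false,0,⟨0,[(3,0)]⟩,⟨15,[(0,11),(4,3),(18,3),(10,3),(0,4),(0,2),(18,3)]⟩⟩,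
  ⟨false,1,⟨3,[(36,0),(0,0),(18,1)]⟩,⟨0,[]⟩⟩,⟨true,0,⟨1,[(3,0),(17,0),(3,0)]⟩,⟨0,[(0,0)]⟩⟩,[]⟩) (.K
  ⟨1,[1,-1,0,-1],0,0,(⟨0,[(8,0)]⟩,⟨0,[(39,0),(11,0)]⟩),(.x (-1) ⟨15,[(22,3),(5,3),(7,6),(0,6),(11,
  1)]⟩ ⟨0,[(51,0)]⟩),(.r (-1) ⟨7,[(14,0),(0,3),(7,5),(11,2),(0,1),(1,2),(3,0),(11,9),(3,2)]⟩ ⟨1,[(1,
  0),(25,0),(1,0),(7,0),(7,0)]⟩),.k,.k,.k,[⟨1,[(38,1),(5,0),(0,0)]⟩,⟨11,[(1,0),(7,4),(14,0),(4,0),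
  (9,6),(1,4),(2,3),(4,0)]⟩,⟨0,[(13,0),(20,0),(3,0),(3,0),(11,0)]⟩,⟨0,[(15,0),(38,0)]⟩]⟩)) (.Q [0,1,
  0,-2,0,0,2,2,0,1,-2] (.p false [0,0,1] [1,0,-1] (⟨0,[(47,0)]⟩,⟨0,[(46,0)]⟩) .k 2 (⟨0,[(46,0)]⟩,⟨0,
  [(47,0)]⟩) .k (.r (-1) ⟨3,[(0,1),(25,1),(1,1),(6,0),(0,0),(7,1)]⟩ ⟨0,[(45,1)]⟩)) (.R ⟨1,true,
  false,false,[0,0,1],[1,1,-1],[0,0,2,1,0,0,0,-1],(⟨0,[(48,0)]⟩,⟨0,[(47,0)]⟩),(⟨0,[(47,0),(3,0)]⟩,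
  ⟨1,[(22,0),(25,0)]⟩),⟨1,[(22,0),(25,0)]⟩,.k,.k,.k,(.r (-1) ⟨59,[(0,10),(0,32),(3,17),(18,12),(4,
  0),(1,10),(2,0),(1,8)]⟩ ⟨3,[(17,1),(18,0),(0,0),(8,3)]⟩),(.x 0 ⟨0,[(22,0),(21,1),(3,0)]⟩ ⟨0,[(1,
  0),(5,1),(39,1),(3,1)]⟩),.k,⟨true,0,⟨1,[(44,0),(0,0)]⟩,⟨0,[]⟩⟩,⟨false,1,⟨0,[(2,0)]⟩,⟨3,[(0,1),(12,
  1),(3,0),(17,1),(0,0)]⟩⟩,⟨true,(-1),⟨0,[(17,0),(36,0)]⟩,⟨0,[(1,0),(51,0)]⟩⟩,⟨false,0,⟨0,[(3,0)]⟩,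
  ⟨15,[(0,11),(4,3),(18,3),(10,3),(0,4),(0,2),(18,3)]⟩⟩,⟨false,0,⟨1,[(13,1),(3,0),(18,0)]⟩,⟨0,[(1,
  0)]⟩⟩,⟨true,0,⟨1,[(3,0),(17,0),(3,0)]⟩,⟨0,[(0,0)]⟩⟩,[]⟩) (.K ⟨1,[1,-1,0,-1],0,0,(⟨0,[(8,0)]⟩,⟨0,
  [(39,0),(11,0)]⟩),(.x (-1) ⟨15,[(22,3),(5,3),(7,6),(0,6),(11,1)]⟩ ⟨0,[(51,0)]⟩),(.r (-1) ⟨7,[(1,
  3),(12,3),(0,3),(7,1),(11,4),(0,1),(3,2),(2,0),(10,5)]⟩ ⟨1,[(17,0),(9,0),(1,0),(7,0),(7,0)]⟩),.k,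
  .k,.k,[⟨1,[(38,1),(5,0),(0,0)]⟩,⟨11,[(9,4),(7,0),(6,0),(4,0),(9,6),(1,4),(2,3),(4,0)]⟩,⟨0,[(13,0),
  (20,0),(3,0),(3,0),(11,0)]⟩,⟨0,[(15,0),(38,0)]⟩]⟩))) (.K ⟨1,[1,-1,0,-1],0,0,(⟨0,[(6,0)]⟩,⟨0,[(37,
  0),(11,0)]⟩),(.x (-1) ⟨15,[(20,3),(5,3),(7,6),(0,6),(11,1)]⟩ ⟨0,[(49,0)]⟩),(.r (-1) ⟨7,[(12,0),(0,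
  3),(7,5),(11,2),(0,1),(1,2),(3,0),(11,9),(3,2)]⟩ ⟨107,[(0,31),(14,35),(6,47),(4,23),(1,31),(2,23),
  (1,6),(0,60)]⟩),.k,.k,.k,[⟨5,[(0,1),(28,1),(4,0),(0,0),(0,5)]⟩,⟨19,[(0,3),(6,4),(7,0),(6,0),(4,0),
  (9,14),(1,8),(7,4)]⟩,⟨1,[(0,0),(7,0),(2,0),(0,0),(19,1),(3,0),(3,0)]⟩,⟨0,[(13,0),(38,0)]⟩]⟩)) (.I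
  [0,0,-2,-2,1,0,0,0,1] (.Q [0,1,1,-2,0,0,0,0,1,0,0,-1] (.p false [0,0,0,1] [] (⟨0,[(37,0)]⟩,⟨0,
  [(36,0)]⟩) .k 0 (⟨0,[]⟩,⟨0,[]⟩) .k .k) (.R ⟨1,false,false,false,[0,0,0,1],[0,1],[0,0,1],(⟨0,[(38,
  0)]⟩,⟨0,[(37,0)]⟩),(⟨0,[(50,0)]⟩,⟨0,[(49,0)]⟩),⟨19,[(5,0),(2,4),(2,0),(9,4),(5,4),(5,0),(4,13)]⟩,
  .k,.k,(.r (-1) ⟨7,[(1,3),(33,0),(0,2)]⟩ ⟨9,[(2,1),(12,3),(0,2),(9,1),(3,1),(4,2)]⟩),(.r (-1) ⟨7,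
  [(1,3),(33,0),(0,2)]⟩ ⟨9,[(2,1),(12,3),(0,2),(9,1),(3,1),(4,2)]⟩),(.r (-1) ⟨0,[(1,0)]⟩ ⟨99,[(2,
  31),(13,59),(6,47),(4,7),(1,31),(2,7),(1,54),(0,4)]⟩),.k,⟨true,0,⟨0,[(53,0)]⟩,⟨99,[(2,15),(13,29),
  (6,23),(4,3),(1,15),(2,3),(1,14),(0,14)]⟩⟩,⟨false,1,⟨4,[(1,4),(1,1),(7,2),(12,0),(17,1)]⟩,⟨23,[(0,
  21),(14,13),(0,4),(6,9),(11,3),(1,1),(10,0),(2,5)]⟩⟩,⟨false,0,⟨6,[(2,0),(12,4),(0,0),(13,0),(4,0),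
  (15,3),(1,5)]⟩,⟨1,[(36,0),(17,0)]⟩⟩,⟨false,0,⟨0,[(3,0)]⟩,⟨31,[(0,23),(4,3),(17,3),(11,8),(0,10),
  (0,7),(10,3),(6,7)]⟩⟩,⟨false,0,⟨19,[(2,1),(12,13),(0,2),(9,1),(3,1),(4,2),(15,9)]⟩,⟨7,[(1,3),(33,
  0),(0,2)]⟩⟩,⟨true,0,⟨4,[(3,1),(7,2),(12,0),(17,1)]⟩,⟨0,[(0,0)]⟩⟩,[.a ⟨true,0,⟨4,[(23,0),(0,0),(4,
  0),(3,0),(3,1),(0,1),(7,1),(2,0)]⟩,⟨0,[(53,0)]⟩⟩ ⟨true,0,⟨1,[(43,0),(0,0)]⟩,⟨0,[]⟩⟩ ⟨false,1,⟨7,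
  [(11,1),(12,1),(11,0),(1,5),(15,6)]⟩,⟨3,[(0,1),(1,0),(5,0),(4,2),(1,1),(25,0),(9,1)]⟩⟩,.o ⟨false,
  1,⟨19,[(4,5),(0,7),(17,1),(11,6),(18,1),(0,4)]⟩,⟨0,[(8,0),(4,0),(27,0)]⟩⟩,.o ⟨false,0,⟨1,[(0,0),
  (12,0),(1,0),(12,0),(22,0)]⟩,⟨1,[(38,1),(9,0),(5,0)]⟩⟩,.o ⟨false,0,⟨23,[(0,21),(14,13),(0,4),(6,
  9),(11,3),(1,1),(10,0),(2,5)]⟩,⟨15,[(1,1),(6,9),(1,1),(0,3),(8,1),(15,1),(11,0),(5,10)]⟩⟩]⟩) (.K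
  ⟨1,[1,-1,0,-1],0,0,(⟨0,[(7,0)]⟩,⟨0,[(38,0),(11,0)]⟩),(.x (-1) ⟨15,[(21,3),(5,3),(7,6),(0,6),(11,
  1)]⟩ ⟨0,[(50,0)]⟩),(.r (-1) ⟨22,[(1,0),(0,7),(10,11),(0,11),(7,15),(11,7),(0,5),(6,3),(10,19)]⟩
  ⟨99,[(2,31),(13,59),(6,47),(4,7),(1,31),(2,7),(1,4),(0,54)]⟩),.k,.k,.k,[⟨1,[(37,1),(5,0),(0,0)]⟩,
  ⟨11,[(8,4),(7,0),(6,0),(4,0),(9,6),(1,4),(2,3),(4,0)]⟩,⟨0,[(2,0),(9,0),(0,0),(19,0)]⟩,⟨0,[(14,0),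
  (38,0)]⟩]⟩)) (.Q [0,1,1,-2,0,0,0,0,1,0,0,-1] (.p false [0,0,0,1] [] (⟨0,[(37,0)]⟩,⟨0,[(36,0)]⟩)
  .k 0 (⟨0,[]⟩,⟨0,[]⟩) .k .k) (.Q [0,0,-3,0,1,0,0,0,0,0,0,1] (.p true [0,0,0,1] [] (⟨0,[(38,0)]⟩,⟨0,
  [(37,0)]⟩) .k 0 (⟨0,[]⟩,⟨0,[]⟩) .k .k) (.I [0,0,2,2,-1,0,0,0,-1] (.R ⟨1,true,false,false,[0,0,0,
  1],[0,1],[0,0,0,-1,0,0,0,0,1],(⟨0,[(40,0)]⟩,⟨0,[(39,0)]⟩),(⟨0,[(52,0)]⟩,⟨0,[(51,0)]⟩),⟨19,[(7,0),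
  (2,4),(2,0),(9,4),(5,4),(5,0),(4,13)]⟩,.k,.k,(.r (-1) ⟨3,[(1,1),(0,1),(35,0),(18,0)]⟩ ⟨7,[(0,3),
  (36,2),(0,0)]⟩),(.r (-1) ⟨3,[(1,1),(0,1),(35,0),(18,0)]⟩ ⟨7,[(0,3),(36,2),(0,0)]⟩),(.r (-2) ⟨3,
  [(1,3),(0,3),(34,0),(0,0),(18,1)]⟩ ⟨0,[(0,0)]⟩),.k,⟨true,1,⟨3,[(1,2),(0,3),(37,0),(12,0),(3,0)]⟩,
  ⟨0,[(3,0)]⟩⟩,⟨false,1,⟨0,[(1,0)]⟩,⟨21,[(0,11),(1,15),(4,1),(17,1),(11,2),(1,5),(10,2),(6,5)]⟩⟩,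
  ⟨true,0,⟨0,[(55,0)]⟩,⟨0,[(54,0)]⟩⟩,⟨false,0,⟨0,[(5,0)]⟩,⟨31,[(2,23),(4,3),(17,3),(11,8),(0,10),(0,
  7),(10,3),(6,7)]⟩⟩,⟨false,1,⟨3,[(37,0),(0,0),(18,1)]⟩,⟨0,[]⟩⟩,⟨true,0,⟨4,[(5,1),(7,2),(12,0),(17,
  1)]⟩,⟨0,[(2,0)]⟩⟩,[]⟩) (.R ⟨1,true,false,false,[0,0,0,1],[0,1],[0,0,0,-1,0,0,0,0,1],(⟨0,[(40,0)]⟩,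
  ⟨0,[(39,0)]⟩),(⟨0,[(52,0)]⟩,⟨0,[(51,0)]⟩),⟨19,[(7,0),(2,4),(2,0),(9,4),(5,4),(5,0),(4,13)]⟩,.k,.k,
  (.r (-1) ⟨7,[(0,3),(36,0),(0,2)]⟩ ⟨7,[(3,3),(33,2),(0,0)]⟩),(.r (-1) ⟨7,[(0,3),(36,0),(0,2)]⟩ ⟨7,
  [(3,3),(33,2),(0,0)]⟩),(.x 0 ⟨3,[(23,1),(5,1),(2,1),(12,6),(0,2)]⟩ ⟨0,[(0,0),(12,0),(1,0),(36,
  1)]⟩),.k,⟨true,1,⟨11,[(0,7),(1,3),(34,0),(0,0),(1,3),(16,1)]⟩,⟨0,[(3,0)]⟩⟩,⟨false,1,⟨0,[(1,0)]⟩,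
  ⟨21,[(2,15),(0,11),(3,1),(17,1),(11,2),(1,5),(10,2),(6,5)]⟩⟩,⟨true,0,⟨0,[(55,0)]⟩,⟨0,[(54,0)]⟩⟩,
  ⟨false,0,⟨0,[(5,0)]⟩,⟨31,[(2,23),(4,3),(17,3),(11,8),(0,10),(0,7),(10,3),(6,7)]⟩⟩,⟨false,1,⟨3,
  [(37,0),(0,0),(18,1)]⟩,⟨0,[]⟩⟩,⟨true,0,⟨4,[(5,1),(7,2),(12,0),(17,1)]⟩,⟨0,[(2,0)]⟩⟩,[]⟩)) (.R ⟨1,
  false,false,false,[0,0,0,1],[0,1],[1],(⟨0,[(39,0)]⟩,⟨0,[(38,0)]⟩),(⟨0,[(51,0)]⟩,⟨0,[(50,0)]⟩),⟨19,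
  [(6,0),(2,4),(2,0),(9,4),(5,4),(5,0),(4,13)]⟩,.k,.k,(.r (-1) ⟨4,[(1,0),(24,2),(5,0),(4,1),(1,0),
  (6,1)]⟩ ⟨7,[(2,3),(33,2),(0,0)]⟩),(.r (-1) ⟨4,[(1,0),(24,2),(5,0),(4,1),(1,0),(6,1)]⟩ ⟨7,[(2,3),
  (33,2),(0,0)]⟩),(.r (-2) ⟨9,[(1,3),(21,5),(2,5),(8,5),(1,2),(1,3),(3,5),(12,4)]⟩ ⟨0,[(0,0),(3,0),
  (2,1),(0,4),(0,4),(14,0),(3,1),(0,0),(0,0),(3,0),(16,7)]⟩),.k,⟨false,1,⟨0,[(26,0),(19,0)]⟩,⟨7,[(2,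
  3),(33,0),(0,2)]⟩⟩,⟨true,1,⟨0,[(39,0),(15,0)]⟩,⟨0,[(0,0)]⟩⟩,⟨false,0,⟨2,[(0,0),(14,2),(22,1),(10,
  0)]⟩,⟨3,[(36,0),(0,2)]⟩⟩,⟨false,0,⟨0,[(4,0)]⟩,⟨11,[(0,1),(0,5),(34,2),(0,5),(0,3),(10,1),(6,2)]⟩⟩,
  ⟨false,0,⟨8,[(0,0),(11,2),(1,2),(0,2),(0,2),(21,1),(10,0),(2,2)]⟩,⟨39,[(1,15),(21,3),(2,3),(8,3),
  (0,4),(0,16),(1,15),(3,3),(12,9)]⟩⟩,⟨true,0,⟨4,[(4,1),(7,2),(12,0),(17,1)]⟩,⟨0,[(1,0)]⟩⟩,[.a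
  ⟨true,0,⟨4,[(24,0),(0,0),(4,0),(3,0),(3,1),(0,1),(7,1),(2,0)]⟩,⟨0,[(54,0)]⟩⟩ ⟨true,0,⟨0,[]⟩,⟨5,
  [(0,1),(35,0),(0,0),(1,1)]⟩⟩ ⟨false,1,⟨7,[(12,1),(12,1),(11,0),(1,5),(15,6)]⟩,⟨29,[(0,16),(0,5),
  (1,3),(19,13),(8,7),(2,2),(0,2),(1,6),(13,0)]⟩⟩,.o ⟨false,1,⟨19,[(5,5),(0,7),(17,1),(11,6),(18,1),
  (0,4)]⟩,⟨0,[(9,0),(4,0),(27,0)]⟩⟩,.o ⟨false,0,⟨2,[(0,0),(37,1),(10,0)]⟩,⟨1,[(39,1),(9,0),(5,0)]⟩⟩,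
  .o ⟨false,0,⟨11,[(0,7),(35,2),(0,2),(0,3),(10,1)]⟩,⟨15,[(9,9),(1,1),(0,3),(8,1),(1,3),(11,1),(1,
  2),(17,8)]⟩⟩]⟩)) (.Q [0,-1,0,-1,0,0,-2,-2,0,-1,2] (.p true [0,0,1] [1,0,-1] (⟨0,[(47,0)]⟩,⟨0,[(46,
  0)]⟩) .k 2 (⟨0,[(46,0)]⟩,⟨0,[(47,0)]⟩) .k (.r (-1) ⟨6,[(2,2),(1,1),(4,1),(13,2),(1,0),(4,2),(4,
  1)]⟩ ⟨0,[(45,1)]⟩)) (.Q [0,1,0,0,0,0,2,2,0,1,-2] (.p false [0,0,1] [1,0,-1] (⟨0,[(48,0)]⟩,⟨0,[(47,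
  0)]⟩) .k 2 (⟨0,[(47,0)]⟩,⟨0,[(48,0)]⟩) .k (.r (-1) ⟨6,[(3,2),(1,1),(4,1),(13,2),(1,0),(4,2),(4,
  1)]⟩ ⟨0,[(46,1)]⟩)) (.R ⟨1,true,false,false,[0,0,1],[1,-1,-1],[1,0,0,0,0,0,0,1],(⟨0,[(49,0)]⟩,⟨0,
  [(48,0)]⟩),(⟨0,[(34,0)]⟩,⟨0,[(49,0),(2,0)]⟩),⟨1,[(23,0),(25,0)]⟩,.k,.k,.k,(.r (-1) ⟨19,[(0,7),(3,
  3),(1,3),(18,11),(6,11),(4,8),(0,6)]⟩ ⟨1,[(8,0),(1,2),(4,2),(15,1),(2,1),(13,1)]⟩),.k,.k,⟨false,1,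
  ⟨13,[(0,4),(5,7),(18,6),(1,1),(2,0),(1,4),(2,0),(1,3)]⟩,⟨1,[(8,0),(1,2),(4,2),(15,1),(2,1),(13,
  1)]⟩⟩,⟨true,0,⟨0,[(32,0)]⟩,⟨0,[(36,0)]⟩⟩,⟨true,0,⟨0,[]⟩,⟨0,[(59,0)]⟩⟩,⟨false,0,⟨0,[(1,0)]⟩,⟨19,
  [(0,19),(5,5),(0,7),(17,1),(11,6),(18,1),(0,4)]⟩⟩,⟨false,1,⟨19,[(6,5),(0,7),(17,1),(11,6),(18,1),
  (0,4)]⟩,⟨0,[(55,0)]⟩⟩,⟨true,0,⟨0,[(20,0)]⟩,⟨0,[(0,0)]⟩⟩,[]⟩) (.K ⟨1,[1,-1,0,-1],0,0,(⟨0,[(9,0)]⟩,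
  ⟨0,[(40,0),(11,0)]⟩),(.x (-1) ⟨15,[(23,3),(5,3),(7,6),(0,6),(11,1)]⟩ ⟨0,[(52,0)]⟩),(.r (-1) ⟨31,
  [(1,14),(2,24),(10,13),(0,15),(7,23),(11,11),(0,7),(1,1),(4,5)]⟩ ⟨0,[(3,0),(34,0)]⟩),.k,.k,.k,[⟨1,
  [(39,1),(5,0),(0,0)]⟩,⟨7,[(3,1),(6,3),(27,0),(1,3),(1,1),(2,1),(4,0)]⟩,⟨0,[(4,0),(9,0),(0,0),(19,
  0)]⟩,⟨1,[(1,0),(2,0),(11,1)]⟩]⟩)) (.Q [0,-1,0,-2,0,0,-2,-2,0,-1,2] (.p true [0,0,1] [1,0,-1] (⟨0,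
  [(48,0)]⟩,⟨0,[(47,0)]⟩) .k 2 (⟨0,[(47,0)]⟩,⟨0,[(48,0)]⟩) .k (.r (-1) ⟨6,[(3,2),(1,1),(4,1),(13,2),
  (1,0),(4,2),(4,1)]⟩ ⟨0,[(46,1)]⟩)) (.R ⟨1,true,false,true,[1,0,-1],[0,1,1],[0,1,0,-1,0,0,0,-1],
  (⟨0,[(48,0)]⟩,⟨0,[(49,0)]⟩),(⟨0,[(49,0),(2,0)]⟩,⟨0,[(34,0)]⟩),⟨0,[(34,0)]⟩,.k,.k,.k,(.r 0 ⟨0,[(0,
  0),(7,0),(22,0),(2,0),(8,0),(4,0)]⟩ ⟨19,[(1,3),(2,7),(1,3),(18,11),(6,11),(4,8),(0,6)]⟩),(.r (-1)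
  ⟨2,[(0,1),(23,1),(11,3),(7,1),(11,0)]⟩ ⟨11,[(1,3),(1,3),(0,3),(20,7),(6,7),(4,0),(0,2)]⟩),.k,
  ⟨true,0,⟨2,[(0,3),(7,1),(22,2),(2,2),(8,3),(4,2)]⟩,⟨11,[(1,3),(1,3),(0,3),(20,7),(6,7),(4,0),(0,
  2)]⟩⟩,⟨false,1,⟨0,[(36,0),(19,0)]⟩,⟨0,[(32,0)]⟩⟩,⟨false,0,⟨0,[(55,0)]⟩,⟨19,[(6,5),(0,7),(17,1),
  (11,6),(18,1),(0,4)]⟩⟩,⟨true,0,⟨0,[(1,0)]⟩,⟨3,[(0,1),(19,0),(20,0),(2,0)]⟩⟩,⟨true,0,⟨0,[(59,0)]⟩,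
  ⟨0,[]⟩⟩,⟨false,1,⟨19,[(1,19),(4,5),(0,7),(17,1),(11,6),(18,1),(0,4)]⟩,⟨0,[(0,0)]⟩⟩,[]⟩) (.K ⟨1,[1,
  -1,0,-1],0,0,(⟨0,[(9,0)]⟩,⟨0,[(40,0),(11,0)]⟩),(.x (-1) ⟨15,[(23,3),(5,3),(7,6),(0,6),(11,1)]⟩ ⟨0,
  [(52,0)]⟩),(.r (-1) ⟨15,[(4,4),(10,6),(0,7),(7,11),(11,5),(0,3),(1,0),(4,2),(10,14)]⟩ ⟨0,[(3,0),
  (34,0)]⟩),.k,.k,.k,[⟨1,[(39,1),(5,0),(0,0)]⟩,⟨7,[(3,1),(6,3),(27,0),(1,3),(1,1),(2,1),(4,0)]⟩,⟨0,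
  [(4,0),(9,0),(0,0),(19,0)]⟩,⟨0,[(16,0),(38,0)]⟩]⟩)))))) (.R ⟨1,false,false,true,[1,0,0,-1],[1,-1],
  [1,1],(⟨0,[(34,0)]⟩,⟨0,[(35,0)]⟩),(⟨0,[(46,0)]⟩,⟨0,[(47,0)]⟩),⟨0,[(4,0)]⟩,.k,.k,(.x (-1) ⟨15,[(18,
  3),(5,3),(7,6),(0,6),(11,1)]⟩ ⟨0,[(47,0)]⟩),(.r 0 ⟨1,[(12,1),(27,0),(0,0)]⟩ ⟨1,[(22,0),(10,0),(8,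
  0),(7,0)]⟩),.k,.k,⟨true,0,⟨9,[(13,1),(6,1),(4,1),(6,0),(0,0),(6,0),(0,2)]⟩,⟨0,[(50,0)]⟩⟩,⟨false,0,
  ⟨1,[(0,0),(9,0),(1,0),(25,0),(9,0)]⟩,⟨0,[(35,0),(15,0)]⟩⟩,⟨false,1,⟨3,[(32,0),(0,2)]⟩,⟨1,[(10,0),
  (0,0),(0,0),(25,0),(9,0),(1,0)]⟩⟩,⟨true,0,⟨0,[(0,0)]⟩,⟨1,[(8,0),(2,0),(27,0)]⟩⟩,⟨false,1,⟨19,[(1,
  3),(0,3),(18,3),(3,3),(6,4),(0,10)]⟩,⟨1,[(10,0),(0,0),(0,0),(25,0),(9,0),(1,2)]⟩⟩,⟨false,1,⟨23,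
  [(0,15),(1,3),(17,3),(11,6),(0,8),(0,7),(10,3),(6,3)]⟩,⟨0,[(11,0)]⟩⟩,[.o ⟨false,0,⟨0,[(5,0),(4,0),
  (27,0)]⟩,⟨19,[(1,5),(0,7),(17,1),(11,6),(18,1),(0,4)]⟩⟩,.e ⟨true,0,⟨0,[]⟩,⟨1,[(40,0),(0,0)]⟩⟩
  ⟨true,0,⟨1,[(0,0),(9,0),(1,0),(25,0),(9,0),(1,1)]⟩,⟨4,[(2,0),(5,0),(21,0),(4,3)]⟩⟩,.o ⟨false,1,⟨1,
  [(35,1),(9,0),(5,0)]⟩,⟨1,[(0,0),(9,0),(1,0),(25,0),(9,0)]⟩⟩,.a ⟨true,0,⟨0,[(35,0)]⟩,⟨0,[(34,0)]⟩⟩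
  ⟨false,1,⟨3,[(32,0),(0,0),(17,1)]⟩,⟨3,[(40,0),(0,0),(6,1)]⟩⟩ ⟨true,0,⟨0,[(10,0),(27,0),(11,0)]⟩,
  ⟨4,[(2,0),(5,0),(21,0),(4,3)]⟩⟩]⟩)))))) (.Q [0,0,0,0,0,1,0,0,0,-1,0,1] (.ed false [0,1,0,1] .k)
  (.R ⟨0,false,false,true,[1,0,0,-1],[0,1],[1,1],(⟨0,[(30,0)]⟩,⟨0,[(31,0)]⟩),(⟨0,[(43,0)]⟩,⟨0,[(42,
  0)]⟩),⟨0,[(0,0)]⟩,.k,.k,(.x (-1) ⟨15,[(14,3),(5,3),(7,6),(0,6),(11,1)]⟩ ⟨0,[(43,0)]⟩),(.x (-1)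
  ⟨15,[(14,3),(5,3),(7,6),(0,6),(11,1)]⟩ ⟨0,[(43,0)]⟩),.k,.k,⟨false,1,⟨0,[(18,0),(19,0)]⟩,⟨9,[(9,1),
  (6,1),(4,1),(6,0),(0,0),(6,0),(0,2)]⟩⟩,⟨true,0,⟨0,[(30,0)]⟩,⟨5,[(0,3),(13,0),(5,0),(10,1),(1,2),
  (2,2)]⟩⟩,⟨false,1,⟨3,[(28,0),(0,2)]⟩,⟨1,[(6,0),(0,0),(0,0),(25,0),(9,0),(1,0)]⟩⟩,⟨true,0,⟨0,[(5,
  0),(20,0),(3,0),(3,0),(11,0)]⟩,⟨0,[(3,0),(30,0),(11,2)]⟩⟩,⟨false,0,⟨0,[]⟩,⟨0,[]⟩⟩,⟨false,0,⟨0,[]⟩,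
  ⟨0,[]⟩⟩,[.o ⟨false,0,⟨0,[(45,0)]⟩,⟨1,[(41,0),(4,1),(1,0)]⟩⟩,.a ⟨true,0,⟨0,[(1,0),(29,0)]⟩,⟨0,[(46,
  0)]⟩⟩ ⟨true,0,⟨0,[]⟩,⟨1,[(36,0),(0,0)]⟩⟩ ⟨false,0,⟨0,[(1,0)]⟩,⟨15,[(15,7),(11,3),(0,0),(0,0),(1,
  15),(9,5),(4,7)]⟩⟩,.o ⟨false,1,⟨1,[(31,1),(9,0),(5,0)]⟩,⟨2,[(6,1),(23,0),(2,0),(0,1),(1,0),(7,
  0)]⟩⟩,.e ⟨false,1,⟨3,[(28,0),(0,0),(17,1)]⟩,⟨3,[(36,0),(0,0),(6,1)]⟩⟩ ⟨false,0,⟨0,[(1,0)]⟩,⟨1,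
  [(31,1),(9,0),(4,1),(1,0)]⟩⟩]⟩) (.I [0,1,-1,-2,0,0,0,1,-1] (.Q [0,0,0,-1,0,0,1,1,0,1,-1] (.p
  false [0,0,1] [1] (⟨0,[(41,0)]⟩,⟨0,[(40,0)]⟩) .k 1 (⟨0,[]⟩,⟨0,[]⟩) .k .k) (.R ⟨1,false,false,
  false,[1,0,0,-1],[0,-1,1],[0,1,0,-1,0,0,0,0,-1],(⟨0,[(32,0)]⟩,⟨0,[(33,0)]⟩),(⟨1,[(16,0),(25,0)]⟩,
  ⟨0,[(41,0),(3,0)]⟩),⟨0,[(2,0)]⟩,.k,.k,(.x (-1) ⟨15,[(16,3),(5,3),(7,6),(0,6),(11,1)]⟩ ⟨0,[(45,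
  0)]⟩),(.x (-1) ⟨0,[(14,0),(26,0),(3,0)]⟩ ⟨1,[(16,0),(21,2),(0,0),(2,0)]⟩),.k,.k,⟨true,(-1),⟨0,[(1,
  0),(9,0)]⟩,⟨3,[(4,1),(16,1),(9,0),(18,0)]⟩⟩,⟨false,0,⟨0,[(32,0),(5,0)]⟩,⟨5,[(5,0),(0,0),(10,4),
  (10,0),(2,0),(1,3)]⟩⟩,⟨false,0,⟨0,[(48,0)]⟩,⟨25,[(3,3),(2,3),(0,1),(10,1),(0,3),(10,5),(0,6),(11,
  1),(6,10)]⟩⟩,⟨false,1,⟨5,[(0,5),(30,2),(0,5),(2,1),(2,1),(4,1),(2,1),(3,0)]⟩,⟨7,[(1,1),(3,5),(23,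
  0),(3,1),(0,2),(2,0)]⟩⟩,⟨true,0,⟨0,[(52,0)]⟩,⟨0,[]⟩⟩,⟨false,1,⟨3,[(0,1),(20,1),(9,1),(0,3),(5,1),
  (4,0),(6,0)]⟩,⟨0,[(9,0),(24,0)]⟩⟩,[.a ⟨true,0,⟨0,[(0,0)]⟩,⟨3,[(13,0),(5,1),(12,0),(0,0)]⟩⟩ ⟨false,
  0,⟨4,[(1,3),(3,0),(2,0),(6,0),(13,1),(7,0)]⟩,⟨15,[(3,1),(2,1),(0,1),(10,1),(0,1),(11,7),(11,0),(5,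
  0),(0,5)]⟩⟩ ⟨true,0,⟨2,[(0,0),(31,2),(2,0),(0,1),(1,0),(7,0),(1,1)]⟩,⟨0,[(5,0),(1,0),(20,0),(7,0),
  (11,2)]⟩⟩,.o ⟨false,1,⟨1,[(0,1),(42,0),(6,0)]⟩,⟨0,[(15,0)]⟩⟩,.o ⟨false,1,⟨1,[(33,1),(9,0),(5,0)]⟩,
  ⟨2,[(8,1),(23,0),(2,0),(0,1),(1,0),(7,0)]⟩⟩,.e ⟨false,0,⟨3,[(1,2),(4,0),(1,0),(17,2)]⟩,⟨11,[(7,3),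
  (10,3),(11,2),(0,6),(6,1),(0,1),(10,1)]⟩⟩ ⟨false,1,⟨1,[(0,1),(31,1),(10,0),(6,0)]⟩,⟨0,[(5,0),(1,
  0),(20,0),(7,0),(11,2)]⟩⟩]⟩) (.R ⟨1,false,false,false,[1,0,0,-1],[1,1,-1],[0,1,0,-1,0,0,0,0,-1],
  (⟨0,[(32,0)]⟩,⟨0,[(33,0)]⟩),(⟨0,[(41,0),(3,0)]⟩,⟨1,[(16,0),(25,0)]⟩),⟨0,[(2,0)]⟩,.k,.k,(.x (-1)
  ⟨15,[(16,3),(5,3),(7,6),(0,6),(11,1)]⟩ ⟨0,[(45,0)]⟩),(.r (-1) ⟨11,[(1,3),(2,1),(15,3),(0,1),(8,4),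
  (19,0)]⟩ ⟨1,[(11,0),(19,0)]⟩),(.r (-1) ⟨5,[(1,3),(18,3),(5,1),(3,0),(19,0)]⟩ ⟨9,[(11,6),(6,1),(4,
  1),(6,0),(0,5),(6,0),(0,2)]⟩),.k,⟨true,0,⟨0,[(1,0)]⟩,⟨11,[(7,7),(3,3),(6,3),(11,0),(0,2),(6,1),(0,
  1)]⟩⟩,⟨false,1,⟨19,[(3,11),(13,11),(7,3),(4,2),(0,2),(0,7),(10,1)]⟩,⟨0,[(26,0),(6,0),(2,0)]⟩⟩,
  ⟨false,0,⟨0,[(48,0)]⟩,⟨25,[(3,3),(2,3),(0,1),(10,1),(0,3),(10,5),(0,6),(11,1),(6,10)]⟩⟩,⟨false,1,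
  ⟨11,[(3,3),(3,7),(0,3),(16,3),(4,2),(0,4),(0,3),(10,1),(6,1)]⟩,⟨0,[(9,0),(26,0),(11,0)]⟩⟩,⟨true,0,
  ⟨0,[(52,0)]⟩,⟨0,[]⟩⟩,⟨false,1,⟨27,[(3,27),(3,17),(4,5),(5,1),(6,7),(4,5),(0,10),(11,6),(6,3)]⟩,⟨0,
  [(9,0),(26,0),(11,1)]⟩⟩,[.o ⟨false,0,⟨0,[(0,0)]⟩,⟨4,[(1,0),(2,2),(25,0),(5,0),(1,3),(11,0)]⟩⟩,.o
  ⟨false,1,⟨11,[(12,3),(6,3),(10,0),(0,0),(11,3),(6,5)]⟩,⟨0,[(36,0),(11,0)]⟩⟩,.o ⟨false,1,⟨1,[(33,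
  1),(9,0),(5,0)]⟩,⟨2,[(8,1),(23,0),(2,0),(0,1),(1,0),(7,0)]⟩⟩,.a ⟨true,0,⟨0,[(33,0)]⟩,⟨0,[(32,
  0)]⟩⟩ ⟨false,0,⟨3,[(1,2),(4,0),(1,0),(17,2)]⟩,⟨11,[(7,3),(10,3),(11,2),(0,6),(6,1),(0,1),(10,
  1)]⟩⟩ ⟨true,0,⟨1,[(0,0),(2,0),(4,0)]⟩,⟨0,[(33,0),(2,0),(11,0)]⟩⟩]⟩)) (.Q [0,0,0,-1,0,0,1,1,0,1,
  -1] (.p false [0,0,1] [1] (⟨0,[(41,0)]⟩,⟨0,[(40,0)]⟩) .k 1 (⟨0,[]⟩,⟨0,[]⟩) .k .k) (.I [0,1,1,0,-1,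
  0,0,-1,-1] (.R ⟨1,false,false,false,[1,0,0,-1],[0,-1,1],[0,1,0,-1,0,0,0,0,-1],(⟨0,[(33,0)]⟩,⟨0,
  [(34,0)]⟩),(⟨1,[(17,0),(25,0)]⟩,⟨0,[(42,0),(3,0)]⟩),⟨0,[(3,0)]⟩,.k,.k,(.x (-1) ⟨15,[(17,3),(5,3),
  (7,6),(0,6),(11,1)]⟩ ⟨0,[(46,0)]⟩),(.x (-1) ⟨0,[(15,0),(26,0),(3,0)]⟩ ⟨1,[(17,0),(21,2),(0,0),(2,
  0)]⟩),.k,.k,⟨true,(-1),⟨0,[(0,0)]⟩,⟨3,[(5,1),(16,1),(9,0),(18,0)]⟩⟩,⟨false,0,⟨0,[(33,0),(5,0)]⟩,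
  ⟨5,[(6,0),(0,0),(10,4),(10,0),(2,0),(1,3)]⟩⟩,⟨false,0,⟨0,[(49,0)]⟩,⟨15,[(2,3),(16,3),(11,4),(0,2),
  (17,3),(0,3)]⟩⟩,⟨false,1,⟨5,[(1,5),(30,2),(0,5),(2,1),(2,1),(4,1),(2,1),(3,0)]⟩,⟨8,[(0,2),(5,4),
  (0,0),(10,2),(15,2),(0,0),(2,0)]⟩⟩,⟨true,0,⟨0,[(53,0)]⟩,⟨0,[]⟩⟩,⟨false,1,⟨3,[(1,1),(20,1),(9,1),
  (0,3),(5,1),(4,0),(6,0)]⟩,⟨0,[(10,0),(24,0)]⟩⟩,[.a ⟨true,0,⟨0,[(1,0)]⟩,⟨3,[(14,0),(5,1),(12,0),(0,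
  0)]⟩⟩ ⟨false,0,⟨0,[(0,0),(20,0)]⟩,⟨15,[(2,3),(16,3),(11,0),(0,6),(17,3),(0,3)]⟩⟩ ⟨true,0,⟨2,[(1,
  0),(31,2),(2,0),(0,1),(1,0),(7,0),(1,1)]⟩,⟨0,[(6,0),(1,0),(20,0),(7,0),(11,2)]⟩⟩,.o ⟨false,1,⟨1,
  [(1,1),(42,0),(6,0)]⟩,⟨0,[(16,0)]⟩⟩,.o ⟨false,1,⟨1,[(34,1),(9,0),(5,0)]⟩,⟨2,[(9,1),(23,0),(2,0),
  (0,1),(1,0),(7,0)]⟩⟩,.e ⟨false,0,⟨0,[(9,0),(0,0),(26,0),(11,0)]⟩,⟨11,[(8,3),(10,3),(11,2),(0,6),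
  (6,1),(0,1),(10,1)]⟩⟩ ⟨false,1,⟨1,[(1,1),(31,1),(10,0),(6,0)]⟩,⟨0,[(6,0),(1,0),(20,0),(7,0),(11,
  2)]⟩⟩]⟩) (.K ⟨1,[1,-1,0,-1],0,0,(⟨0,[(3,0)]⟩,⟨0,[(34,0),(11,0)]⟩),(.x (-1) ⟨15,[(17,3),(5,3),(7,
  6),(0,6),(11,1)]⟩ ⟨0,[(46,0)]⟩),(.r (-1) ⟨7,[(9,0),(0,3),(7,5),(11,2),(0,1),(1,2),(3,0),(11,9),(3,
  2)]⟩ ⟨1,[(12,0),(9,0),(1,0),(7,0),(7,0)]⟩),.k,.k,.k,[⟨1,[(33,1),(5,0),(0,0)]⟩,⟨5,[(6,0),(1,0),(3,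
  0),(21,4),(1,2),(0,3),(6,0),(2,0),(1,4)]⟩,⟨0,[(8,0),(20,0),(3,0),(3,0),(11,0)]⟩,⟨0,[(10,0),(38,
  0)]⟩]⟩)) (.K ⟨1,[1,-1,0,-1],0,0,(⟨0,[(2,0)]⟩,⟨0,[(33,0),(11,0)]⟩),(.x (-1) ⟨15,[(16,3),(5,3),(7,
  6),(0,6),(11,1)]⟩ ⟨0,[(45,0)]⟩),(.r (-1) ⟨7,[(8,0),(0,3),(7,5),(11,2),(0,1),(1,2),(3,0),(11,9),(3,
  2)]⟩ ⟨1,[(11,0),(9,0),(1,0),(7,0),(7,0)]⟩),.k,.k,.k,[⟨1,[(32,1),(5,0),(0,0)]⟩,⟨5,[(5,0),(1,0),(3,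
  0),(21,4),(1,2),(0,3),(6,0),(2,0),(1,4)]⟩,⟨0,[(7,0),(20,0),(3,0),(3,0),(11,0)]⟩,⟨0,[(9,0),(38,
  0)]⟩]⟩)))))) (.Q [0,0,0,-2,0,0,2,2,0,1,-2] (.p false [0,0,1] [1,0,-1] (⟨0,[(37,0)]⟩,⟨0,[(36,0)]⟩)
  .k 2 (⟨0,[(36,0)]⟩,⟨0,[(37,0)]⟩) .k (.r (-1) ⟨11,[(0,3),(12,7),(1,7),(4,3),(4,2),(0,0),(1,3),(2,
  3)]⟩ ⟨0,[(35,1)]⟩)) (.I [0,0,2,2,-1,0,0,-2] (.R ⟨1,true,false,false,[0,0,1],[1,1,-1],[1,1,0,0,0,0,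
  0,1],(⟨0,[(39,0)]⟩,⟨0,[(38,0)]⟩),(⟨0,[(38,0),(3,0)]⟩,⟨1,[(13,0),(25,0)]⟩),⟨1,[(13,0),(25,0)]⟩,.k,
  .k,.k,(.r (-1) ⟨44,[(1,18),(13,9),(1,36),(2,4),(1,18),(2,4),(1,3),(0,3)]⟩ ⟨3,[(0,1),(26,0),(0,0),
  (8,3)]⟩),(.r (-2) ⟨4,[(1,1),(15,5),(4,1),(4,1),(0,1)]⟩ ⟨0,[(0,0)]⟩),.k,⟨false,1,⟨0,[(1,0),(9,0),
  (13,0)]⟩,⟨1,[(0,0),(36,1),(9,0)]⟩⟩,⟨true,1,⟨2,[(14,1),(7,0),(2,1),(21,0)]⟩,⟨0,[(0,0),(0,0)]⟩⟩,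
  ⟨false,0,⟨0,[]⟩,⟨3,[(27,0),(0,0),(18,1)]⟩⟩,⟨true,0,⟨0,[(9,0)]⟩,⟨1,[(1,0),(0,0),(0,0),(45,0)]⟩⟩,
  ⟨true,0,⟨0,[(44,0)]⟩,⟨0,[(45,0)]⟩⟩,⟨false,1,⟨5,[(9,3),(6,3),(10,0),(0,0),(11,0),(6,2)]⟩,⟨0,[(1,
  0)]⟩⟩,[]⟩) (.I [0,0,2,0,-1,-2,2] (.R ⟨1,true,false,false,[0,0,1],[1,1,-1],[1,1,0,0,0,0,0,1],(⟨0,
  [(40,0)]⟩,⟨0,[(39,0)]⟩),(⟨0,[(39,0),(3,0)]⟩,⟨1,[(14,0),(25,0)]⟩),⟨1,[(14,0),(25,0)]⟩,.k,.k,.k,(.r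
  (-1) ⟨147,[(1,109),(1,15),(12,39),(4,19),(1,15),(2,3),(1,22),(0,14),(1,15)]⟩ ⟨3,[(9,1),(18,0),(0,
  0),(8,3)]⟩),(.x 1 ⟨0,[(0,0)]⟩ ⟨9,[(12,11),(10,3),(4,2),(0,2),(9,19),(1,1),(1,19)]⟩),.k,⟨false,1,
  ⟨0,[(1,0),(43,0)]⟩,⟨3,[(5,1),(3,0),(14,1),(3,0),(9,1)]⟩⟩,⟨true,1,⟨2,[(15,1),(7,0),(2,1),(21,0)]⟩,
  ⟨0,[(2,0),(6,0)]⟩⟩,⟨false,0,⟨0,[]⟩,⟨3,[(28,0),(0,0),(18,1)]⟩⟩,⟨true,0,⟨0,[(10,0)]⟩,⟨1,[(2,0),(0,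
  0),(0,0),(45,0)]⟩⟩,⟨true,0,⟨0,[(45,0)]⟩,⟨0,[(46,0)]⟩⟩,⟨false,1,⟨5,[(10,3),(6,3),(10,0),(0,0),(11,
  0),(6,2)]⟩,⟨0,[(2,0)]⟩⟩,[]⟩) (.I [0,0,-2,0,1,2,-2] (.R ⟨1,true,false,false,[0,0,1],[1,1,-1],[1,1,
  0,0,0,0,0,1],(⟨0,[(41,0)]⟩,⟨0,[(40,0)]⟩),(⟨0,[(40,0),(3,0)]⟩,⟨1,[(15,0),(25,0)]⟩),⟨1,[(15,0),(25,
  0)]⟩,.k,.k,.k,(.r (-1) ⟨147,[(2,109),(1,15),(12,39),(4,19),(1,15),(2,3),(1,22),(0,14),(1,15)]⟩ ⟨3,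
  [(10,1),(18,0),(0,0),(8,3)]⟩),(.x 0 ⟨0,[(15,0),(21,1),(3,0)]⟩ ⟨0,[(0,0)]⟩),.k,⟨false,1,⟨0,[(2,0),
  (43,0)]⟩,⟨3,[(6,1),(3,0),(14,1),(3,0),(9,1)]⟩⟩,⟨true,1,⟨2,[(16,1),(7,0),(2,1),(21,0)]⟩,⟨0,[(3,0),
  (6,0)]⟩⟩,⟨false,0,⟨0,[]⟩,⟨3,[(29,0),(0,0),(18,1)]⟩⟩,⟨true,0,⟨0,[(11,0)]⟩,⟨1,[(3,0),(0,0),(0,0),
  (45,0)]⟩⟩,⟨true,0,⟨0,[(46,0)]⟩,⟨0,[(47,0)]⟩⟩,⟨false,1,⟨5,[(11,3),(6,3),(10,0),(0,0),(11,0),(6,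
  2)]⟩,⟨0,[(3,0)]⟩⟩,[]⟩) (.Q [0,-1,-1,1,0,0,0,0,-1,0,0,1] (.p true [0,0,0,1] [] (⟨0,[(32,0)]⟩,⟨0,
  [(31,0)]⟩) .k 0 (⟨0,[]⟩,⟨0,[]⟩) .k .k) (.K ⟨1,[1,-1,0,-1],0,0,(⟨11,[(1,0),(1,0),(0,1),(3,7),(9,1),
  (3,5),(1,1),(3,1),(3,3)]⟩,⟨0,[(33,0),(11,0)]⟩),(.x (-1) ⟨15,[(16,3),(5,3),(7,6),(0,6),(11,1)]⟩ ⟨0,
  [(45,0)]⟩),(.r (-1) ⟨7,[(4,4),(3,3),(0,3),(7,5),(11,1),(0,1),(3,0),(2,2),(2,1)]⟩ ⟨10,[(5,0),(5,4),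
  (6,4),(4,3),(1,0),(5,4),(1,0),(4,0),(0,3)]⟩),.k,.k,.k,[⟨22,[(5,5),(5,3),(6,1),(11,2),(1,16),(6,5),
  (6,0),(3,0)]⟩,⟨5,[(4,1),(2,1),(1,1),(1,0),(21,3),(0,1),(0,3),(0,1),(6,0)]⟩,⟨5,[(5,1),(1,1),(3,0),
  (11,1),(4,3),(2,0),(0,3)]⟩,⟨0,[(9,0),(38,0)]⟩]⟩) (.R ⟨2,false,false,true,[0,1],[0,0,0,1],[1],(⟨0,
  []⟩,⟨0,[]⟩),(⟨0,[(33,0)]⟩,⟨0,[(32,0)]⟩),⟨0,[]⟩,.k,.k,.k,(.r 0 ⟨16,[(4,2),(5,6),(0,4),(6,1),(4,1),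
  (1,2),(4,4),(8,1)]⟩ ⟨4,[(5,0),(11,0),(2,1),(5,0),(4,1),(1,0),(6,1)]⟩),.k,.k,⟨true,0,⟨33,[(4,11),
  (1,1),(1,19),(0,17),(0,13),(0,2),(23,5),(7,2),(2,7)]⟩,⟨3,[(0,2),(6,0),(15,0),(4,0),(4,2)]⟩⟩,
  ⟨false,0,⟨5,[(0,1),(3,1),(3,3),(1,1),(0,0),(9,1),(21,0)]⟩,⟨0,[(33,0),(15,0)]⟩⟩,⟨false,1,⟨3,[(5,0),
  (3,0),(7,0),(2,0),(19,1),(9,1)]⟩,⟨9,[(11,1),(6,1),(4,1),(6,0),(0,0),(6,0),(0,2)]⟩⟩,⟨true,0,⟨0,[(0,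
  0)]⟩,⟨1,[(6,0),(2,0),(27,0)]⟩⟩,⟨false,1,⟨1,[(49,0),(0,0)]⟩,⟨1,[(38,0),(0,0)]⟩⟩,⟨false,1,⟨9,[(0,5),
  (6,1),(10,1),(11,2),(0,3),(0,3),(10,1),(6,0)]⟩,⟨0,[(9,0)]⟩⟩,[.e ⟨true,0,⟨0,[]⟩,⟨1,[(38,0),(0,
  0)]⟩⟩ ⟨true,0,⟨19,[(0,15),(4,3),(5,5),(6,3),(4,3),(1,3),(4,2),(0,2)]⟩,⟨0,[(9,0)]⟩⟩,.a ⟨true,0,⟨0,
  [(4,0),(2,0),(0,0),(19,0)]⟩,⟨0,[(9,0),(42,0)]⟩⟩ ⟨false,1,⟨1,[(49,0),(0,0)]⟩,⟨0,[(52,0)]⟩⟩ ⟨true,0,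
  ⟨20,[(0,19),(4,0),(1,3),(3,1),(6,6),(11,1),(4,0),(10,4)]⟩,⟨0,[(9,0),(42,0)]⟩⟩,.o ⟨false,1,⟨3,[(30,
  0),(0,0),(17,1)]⟩,⟨0,[(26,0),(8,0),(0,0)]⟩⟩,.e ⟨false,1,⟨1,[(49,0),(0,0)]⟩,⟨1,[(38,0),(0,0)]⟩⟩
  ⟨false,1,⟨9,[(0,5),(6,1),(10,1),(11,2),(0,3),(0,3),(10,1),(6,0)]⟩,⟨0,[(9,0)]⟩⟩]⟩))))) (.Q [0,0,0,
  0,0,-1,0,0,0,1,0,-1] (.ed true [0,1,0,1] .k) (.Q [0,0,0,-1,0,0,1,1,0,1,-1] (.p false [0,0,1] [1]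
  (⟨0,[(39,0)]⟩,⟨0,[(38,0)]⟩) .k 1 (⟨0,[]⟩,⟨0,[]⟩) .k .k) (.I [0,0,-1,-1,1,0,0,1,1] (.Q [0,0,0,1,0,
  0,-1,-1,0,-1,1,1] (.p true [0,0,1] [1,0,0,-1] (⟨0,[(41,0)]⟩,⟨0,[(40,0)]⟩) .k 2 (⟨0,[(31,0)]⟩,⟨0,
  [(32,0)]⟩) .k (.r (-1) ⟨147,[(0,71),(3,15),(12,39),(4,19),(1,15),(2,3),(1,22),(0,52),(1,15)]⟩ ⟨5,
  [(7,1),(0,1),(0,1),(0,0),(17,1),(0,0),(3,1),(13,3)]⟩)) (.I [1,1,1,1,-1,0,0,-1,-1] (.R ⟨1,false,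
  false,false,[1,0,0,-1],[0,-1,1],[1,1,0,0,0,0,0,0,-1],(⟨0,[(33,0)]⟩,⟨0,[(34,0)]⟩),(⟨1,[(17,0),(25,
  0)]⟩,⟨0,[(42,0),(3,0)]⟩),⟨0,[(4,0)]⟩,.k,.k,(.x (-1) ⟨15,[(17,3),(5,3),(7,6),(0,6),(11,1)]⟩ ⟨0,
  [(46,0)]⟩),(.r 0 ⟨1,[(12,0),(18,0)]⟩ ⟨0,[(2,0)]⟩),.k,.k,⟨true,(-1),⟨0,[(0,0)]⟩,⟨21,[(2,15),(3,3),
  (15,1),(3,1),(5,0),(1,3),(9,0),(2,7),(3,3)]⟩⟩,⟨false,0,⟨0,[(33,0),(5,0)]⟩,⟨0,[(1,0),(19,0)]⟩⟩,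
  ⟨false,0,⟨0,[]⟩,⟨3,[(31,0),(0,0),(18,1)]⟩⟩,⟨false,1,⟨31,[(6,23),(12,7),(10,3),(0,0),(0,4),(0,7),
  (10,1),(6,23)]⟩,⟨4,[(0,1),(0,1),(5,0),(2,1),(2,0),(4,1)]⟩⟩,⟨true,0,⟨0,[(48,0)]⟩,⟨0,[(49,0)]⟩⟩,
  ⟨false,1,⟨15,[(6,7),(12,7),(10,3),(0,0),(0,4),(0,7),(10,1),(6,7)]⟩,⟨0,[(10,0),(24,0)]⟩⟩,[.a ⟨true,
  0,⟨0,[(3,0)]⟩,⟨3,[(14,0),(5,1),(12,0),(0,0)]⟩⟩ ⟨false,0,⟨0,[(0,0),(20,0)]⟩,⟨1,[(32,0),(18,0)]⟩⟩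
  ⟨true,0,⟨4,[(0,0),(2,0),(2,2),(4,1),(6,0),(14,1),(3,1),(9,2)]⟩,⟨0,[(1,0)]⟩⟩,.o ⟨false,1,⟨1,[(3,1),
  (40,0),(6,0)]⟩,⟨0,[(16,0)]⟩⟩,.o ⟨false,1,⟨1,[(34,1),(9,0),(5,0)]⟩,⟨3,[(0,0),(5,0),(2,1),(12,0),
  (10,0),(3,0),(6,0),(2,0)]⟩⟩,.e ⟨false,0,⟨0,[(9,0),(0,0),(26,0)]⟩,⟨1,[(32,0),(6,0),(0,0),(10,0)]⟩⟩
  ⟨false,1,⟨1,[(3,1),(29,1),(10,0),(6,0)]⟩,⟨0,[(1,0)]⟩⟩]⟩) (.K ⟨1,[1,-1,0,-1],0,0,(⟨0,[(4,0)]⟩,⟨0,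
  [(34,0),(11,0)]⟩),(.x (-1) ⟨15,[(17,3),(5,3),(7,6),(0,6),(11,1)]⟩ ⟨0,[(46,0)]⟩),(.r (-1) ⟨7,[(3,
  2),(5,3),(0,3),(7,5),(11,2),(0,1),(5,0),(11,6),(3,2)]⟩ ⟨10,[(6,0),(5,4),(6,4),(4,3),(1,0),(5,4),
  (1,0),(4,0),(0,3)]⟩),.k,.k,.k,[⟨22,[(6,5),(5,3),(6,1),(11,2),(1,16),(6,5),(6,0),(3,0)]⟩,⟨2,[(1,1),
  (32,0),(1,0),(0,1),(1,0),(7,0),(1,1)]⟩,⟨5,[(6,1),(1,1),(3,0),(11,1),(4,3),(2,0),(0,3)]⟩,⟨0,[(10,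
  0),(38,0)]⟩]⟩)) (.K ⟨1,[1,-1,0,-1],0,0,(⟨0,[(3,0)]⟩,⟨0,[(33,0),(11,0)]⟩),(.x (-1) ⟨15,[(16,3),(5,
  3),(7,6),(0,6),(11,1)]⟩ ⟨0,[(45,0)]⟩),(.r (-1) ⟨7,[(0,3),(8,3),(7,5),(11,2),(0,1),(3,0),(2,2),(10,
  5)]⟩ ⟨10,[(5,0),(5,4),(6,4),(4,3),(1,0),(5,4),(1,0),(4,0),(0,3)]⟩),.k,.k,.k,[⟨22,[(5,5),(5,3),(6,
  1),(11,2),(1,16),(6,5),(6,0),(3,0)]⟩,⟨5,[(7,1),(1,1),(1,0),(21,3),(1,3),(0,3),(6,0),(4,3)]⟩,⟨5,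
  [(5,1),(1,1),(3,0),(11,1),(4,3),(2,0),(0,3)]⟩,⟨0,[(9,0),(38,0)]⟩]⟩)) (.Q [0,0,-1,0,0,0,0,0,-1,-1,
  0,1] (.p true [0,0,0,1] [1] (⟨0,[(32,0)]⟩,⟨0,[(31,0)]⟩) .k 1 (⟨0,[]⟩,⟨0,[]⟩) .k .k) (.R ⟨1,false,
  false,false,[1,0,0,-1],[0,-1,1],[1,1,0,0,0,0,0,0,-1],(⟨0,[(32,0)]⟩,⟨0,[(33,0)]⟩),(⟨1,[(16,0),(25,
  0)]⟩,⟨0,[(41,0),(3,0)]⟩),⟨0,[(3,0)]⟩,.k,.k,(.x (-1) ⟨15,[(16,3),(5,3),(7,6),(0,6),(11,1)]⟩ ⟨0,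
  [(45,0)]⟩),(.x (-1) ⟨0,[(14,0),(26,0),(3,0)]⟩ ⟨1,[(16,0),(21,2),(0,0),(2,0)]⟩),.k,.k,⟨true,(-1),
  ⟨0,[(1,0),(50,0)]⟩,⟨13,[(5,3),(14,7),(0,1),(3,1),(5,4),(1,3),(9,0),(2,7)]⟩⟩,⟨false,0,⟨0,[(32,0),
  (5,0)]⟩,⟨0,[(14,0),(18,0)]⟩⟩,⟨false,0,⟨0,[]⟩,⟨3,[(30,0),(0,0),(18,1)]⟩⟩,⟨false,1,⟨31,[(5,23),(12,
  7),(10,3),(0,0),(0,4),(0,7),(10,1),(6,23)]⟩,⟨3,[(0,1),(5,0),(2,0),(2,1),(24,0)]⟩⟩,⟨true,0,⟨0,[(47,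
  0)]⟩,⟨0,[(48,0)]⟩⟩,⟨false,1,⟨15,[(5,7),(12,7),(10,3),(0,0),(0,4),(0,7),(10,1),(6,7)]⟩,⟨2,[(0,1),
  (8,0),(3,0),(23,0)]⟩⟩,[.a ⟨true,0,⟨0,[(2,0)]⟩,⟨3,[(13,0),(5,1),(12,0),(0,0)]⟩⟩ ⟨false,0,⟨0,[(0,0),
  (31,0),(19,0)]⟩,⟨1,[(31,0),(18,0)]⟩⟩ ⟨true,0,⟨17,[(0,4),(0,1),(3,10),(15,1),(8,1),(1,11),(3,6),(9,
  7)]⟩,⟨0,[(0,0),(6,0),(20,0),(19,0)]⟩⟩,.o ⟨false,1,⟨1,[(2,1),(40,0),(6,0)]⟩,⟨0,[(15,0)]⟩⟩,.o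
  ⟨false,1,⟨3,[(0,3),(29,0),(0,2)]⟩,⟨2,[(1,0),(3,0),(2,0),(12,0),(10,0),(10,0)]⟩⟩,.e ⟨false,0,⟨0,
  [(0,0),(31,0)]⟩,⟨1,[(31,0),(6,0),(0,0),(10,0)]⟩⟩ ⟨false,1,⟨1,[(2,1),(29,1),(10,0),(6,0)]⟩,⟨0,[(0,
  0),(6,0),(20,0),(19,0)]⟩⟩]⟩) (.R ⟨1,false,false,true,[0,-1,1],[1,0,0,-1],[1,0,-1,-1,0,0,0,1],(⟨1,
  [(16,0),(25,0)]⟩,⟨0,[(41,0),(3,0)]⟩),(⟨0,[(32,0)]⟩,⟨0,[(33,0)]⟩),⟨0,[(16,0)]⟩,.k,.k,(.r (-1) ⟨0,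
  [(2,0),(14,0)]⟩ ⟨19,[(11,13),(6,3),(4,3),(6,6),(0,6),(6,1),(0,5)]⟩),(.x 0 ⟨1,[(16,0),(21,2),(0,0),
  (2,0)]⟩ ⟨0,[(14,0),(26,0),(3,0)]⟩),(.r (-2) ⟨3,[(2,3),(14,3),(12,0),(0,2)]⟩ ⟨9,[(1,7),(9,2),(6,1),
  (4,1),(6,0),(7,0),(0,2)]⟩),.k,⟨false,2,⟨1,[(20,1),(10,0),(18,0)]⟩,⟨0,[(1,0),(50,0)]⟩⟩,⟨true,1,⟨0,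
  [(14,0),(18,0)]⟩,⟨11,[(1,9),(3,11),(5,2),(6,3),(11,0),(15,3)]⟩⟩,⟨true,0,⟨0,[]⟩,⟨0,[(52,0)]⟩⟩,
  ⟨false,0,⟨0,[(9,0),(5,0)]⟩,⟨2,[(0,0),(4,1),(17,0),(26,2)]⟩⟩,⟨false,1,⟨5,[(7,1),(10,1),(11,1),(0,
  0),(17,1),(0,0)]⟩,⟨0,[(48,0)]⟩⟩,⟨false,0,⟨1,[(6,0),(2,0),(2,0),(2,0)]⟩,⟨0,[(5,0),(44,0)]⟩⟩,[.o
  ⟨false,0,⟨0,[(9,0),(24,0),(1,0)]⟩,⟨1,[(0,1),(42,0),(6,0)]⟩⟩,.a ⟨true,0,⟨0,[(9,0),(42,0)]⟩,⟨0,[(0,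
  0)]⟩⟩ ⟨true,1,⟨13,[(2,3),(17,9),(4,1),(17,0),(2,3),(3,2)]⟩,⟨0,[(1,0),(5,0),(20,0),(7,0),(11,1)]⟩⟩
  ⟨false,1,⟨1,[(6,0),(2,0),(7,1),(19,0)]⟩,⟨0,[(0,0),(37,0)]⟩⟩,.o ⟨false,0,⟨0,[(38,0)]⟩,⟨19,[(14,11),
  (10,3),(4,2),(0,2),(11,1)]⟩⟩,.o ⟨false,0,⟨1,[(38,2),(0,0)]⟩,⟨0,[(14,0)]⟩⟩]⟩))) (.R ⟨2,false,false,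
  true,[0,1],[0,0,0,1],[],(⟨0,[]⟩,⟨0,[]⟩),(⟨0,[(31,0)]⟩,⟨0,[(30,0)]⟩),⟨0,[]⟩,.k,.k,.k,(.r 0 ⟨9,[(3,
  1),(0,0),(2,0),(0,3),(0,2),(9,1),(3,1),(4,2),(5,0)]⟩ ⟨4,[(3,0),(11,0),(2,1),(5,0),(4,1),(1,0),(6,
  1)]⟩),.k,.k,⟨true,0,⟨1,[(6,0),(0,0),(0,0),(25,0),(9,0),(1,0)]⟩,⟨3,[(0,2),(2,2),(1,0),(15,0),(4,0),
  (4,2)]⟩⟩,⟨false,0,⟨10,[(3,2),(2,7),(1,2),(0,0),(9,0),(13,0),(0,5),(6,0),(2,3)]⟩,⟨0,[(31,0),(15,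
  0)]⟩⟩,⟨false,1,⟨3,[(3,0),(3,0),(7,0),(2,0),(19,1),(9,1)]⟩,⟨9,[(9,1),(6,1),(4,1),(6,0),(0,0),(6,0),
  (0,2)]⟩⟩,⟨true,0,⟨0,[(0,0),(2,0)]⟩,⟨1,[(4,0),(2,0),(27,0)]⟩⟩,⟨false,1,⟨1,[(47,0),(0,0)]⟩,⟨1,[(36,
  0),(0,0)]⟩⟩,⟨false,1,⟨13,[(3,5),(1,1),(0,5),(2,0),(6,3),(11,3),(0,6),(0,1),(10,3)]⟩,⟨0,[(7,0)]⟩⟩,
  [.a ⟨true,0,⟨3,[(3,1),(5,0),(16,1),(2,0),(0,1)]⟩,⟨0,[(7,0)]⟩⟩ ⟨false,1,⟨3,[(28,0),(0,0),(17,1)]⟩,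
  ⟨0,[]⟩⟩ ⟨true,0,⟨17,[(2,3),(0,17),(5,4),(3,5),(2,5),(6,1),(4,0),(0,0),(11,2)]⟩,⟨0,[(7,0)]⟩⟩,.o
  ⟨false,1,⟨13,[(3,5),(1,1),(0,5),(2,0),(6,3),(11,3),(0,6),(0,1),(10,3)]⟩,⟨0,[(0,0),(6,0),(26,0),
  (11,0)]⟩⟩,.o ⟨false,1,⟨3,[(28,0),(0,0),(17,1)]⟩,⟨5,[(0,1),(8,0),(23,1),(0,3),(6,0),(2,1),(1,3)]⟩⟩,
  .e ⟨false,1,⟨1,[(47,0),(0,0)]⟩,⟨1,[(36,0),(0,0)]⟩⟩ ⟨false,1,⟨13,[(3,5),(1,1),(0,5),(2,0),(6,3),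
  (11,3),(0,6),(0,1),(10,3)]⟩,⟨0,[(7,0)]⟩⟩]⟩)) (.Q [0,0,0,0,0,0,1,1,0,1,-1] (.p false [0,0,1] [1]
  (⟨0,[(39,0)]⟩,⟨0,[(38,0)]⟩) .k 1 (⟨0,[]⟩,⟨0,[]⟩) .k .k) (.R ⟨0,false,false,true,[1,0,0,-1],[1,0,
  -1],[1,1],(⟨0,[(30,0)]⟩,⟨0,[(31,0)]⟩),(⟨0,[(39,0)]⟩,⟨0,[(40,0)]⟩),⟨0,[(1,0)]⟩,.k,.k,(.x (-1) ⟨15,
  [(14,3),(5,3),(7,6),(0,6),(11,1)]⟩ ⟨0,[(43,0)]⟩),.k,.k,.k,⟨false,1,⟨47,[(0,1),(15,9),(1,29),(2,5),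
  (1,1),(2,3),(1,8),(0,8)]⟩,⟨0,[(38,0)]⟩⟩,⟨true,0,⟨0,[(30,0),(2,0)]⟩,⟨5,[(1,3),(12,0),(5,0),(6,2),
  (3,1)]⟩⟩,⟨false,1,⟨3,[(28,0),(0,2)]⟩,⟨1,[(6,0),(0,0),(0,0),(25,0),(9,0),(1,0)]⟩⟩,⟨true,0,⟨0,[(2,
  0),(0,0)]⟩,⟨0,[(7,0),(26,0)]⟩⟩,⟨false,0,⟨0,[]⟩,⟨0,[]⟩⟩,⟨false,0,⟨0,[]⟩,⟨0,[]⟩⟩,[.o ⟨false,0,⟨0,
  [(32,0)]⟩,⟨1,[(0,1),(40,0),(6,0)]⟩⟩,.a ⟨true,0,⟨1,[(11,0),(18,0),(0,0)]⟩,⟨0,[(0,0)]⟩⟩ ⟨true,0,⟨0,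
  []⟩,⟨1,[(36,0),(0,0)]⟩⟩ ⟨false,0,⟨0,[(6,0)]⟩,⟨9,[(0,3),(3,1),(13,3),(8,1),(0,0),(0,1),(1,7),(9,
  2)]⟩⟩,.o ⟨false,1,⟨1,[(31,1),(9,0),(5,0)]⟩,⟨10,[(3,2),(2,7),(1,2),(0,0),(9,0),(13,0),(0,5),(6,0),
  (2,3)]⟩⟩,.e ⟨false,1,⟨3,[(28,0),(0,0),(17,1)]⟩,⟨3,[(36,0),(0,0),(6,1)]⟩⟩ ⟨false,0,⟨0,[(6,0)]⟩,⟨1,
  [(0,1),(30,1),(9,0),(6,0)]⟩⟩]⟩) (.Q [0,1,1,-1,0,0,0,0,1,0,0,-1] (.p false [0,0,0,1] [] (⟨0,[(31,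
  0)]⟩,⟨0,[(30,0)]⟩) .k 0 (⟨0,[]⟩,⟨0,[]⟩) .k .k) (.R ⟨2,false,false,true,[0,1],[0,0,0,1],[],(⟨0,[]⟩,
  ⟨0,[]⟩),(⟨0,[(32,0)]⟩,⟨0,[(31,0)]⟩),⟨0,[]⟩,.k,.k,.k,(.r 0 ⟨9,[(4,1),(0,0),(2,0),(0,3),(0,2),(9,1),
  (3,1),(4,2),(5,0)]⟩ ⟨4,[(4,0),(11,0),(2,1),(5,0),(4,1),(1,0),(6,1)]⟩),.k,.k,⟨true,0,⟨1,[(7,0),(0,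
  0),(0,0),(25,0),(9,0),(1,0)]⟩,⟨3,[(0,2),(5,0),(15,0),(4,0),(4,2)]⟩⟩,⟨false,0,⟨1,[(0,0),(6,0),(1,
  0),(25,0),(9,0)]⟩,⟨0,[(32,0),(15,0)]⟩⟩,⟨false,1,⟨3,[(4,0),(3,0),(7,0),(2,0),(19,1),(9,1)]⟩,⟨9,
  [(10,1),(6,1),(4,1),(6,0),(0,0),(6,0),(0,2)]⟩⟩,⟨true,0,⟨0,[(0,0)]⟩,⟨1,[(5,0),(2,0),(27,0)]⟩⟩,
  ⟨false,1,⟨1,[(48,0),(0,0)]⟩,⟨1,[(37,0),(0,0)]⟩⟩,⟨false,1,⟨9,[(0,5),(5,1),(10,1),(11,2),(0,3),(0,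
  3),(10,1),(6,0)]⟩,⟨0,[(8,0)]⟩⟩,[.a ⟨true,0,⟨3,[(4,1),(5,0),(16,1),(2,0),(0,1)]⟩,⟨0,[(8,0)]⟩⟩
  ⟨false,1,⟨3,[(29,0),(0,0),(17,1)]⟩,⟨0,[]⟩⟩ ⟨true,0,⟨19,[(0,15),(3,3),(5,5),(6,3),(4,3),(1,3),(4,
  2),(0,2)]⟩,⟨0,[(8,0)]⟩⟩,.o ⟨false,1,⟨9,[(0,5),(5,1),(10,1),(11,2),(0,3),(0,3),(10,1),(6,0)]⟩,⟨0,
  [(1,0),(6,0),(26,0)]⟩⟩,.o ⟨false,1,⟨3,[(29,0),(0,0),(17,1)]⟩,⟨2,[(1,1),(32,0),(0,1),(1,0),(7,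
  0)]⟩⟩,.e ⟨false,1,⟨1,[(48,0),(0,0)]⟩,⟨1,[(37,0),(0,0)]⟩⟩ ⟨false,1,⟨9,[(0,5),(5,1),(10,1),(11,2),
  (0,3),(0,3),(10,1),(6,0)]⟩,⟨0,[(8,0)]⟩⟩]⟩) (.R ⟨2,false,false,false,[0,1],[1,1,-1],[1,0,1,1,0,0,0,
  -1],(⟨0,[]⟩,⟨0,[]⟩),(⟨0,[(40,0),(3,0)]⟩,⟨1,[(15,0),(25,0)]⟩),⟨0,[]⟩,.k,.k,.k,.k,.k,.k,⟨true,0,⟨0,
  []⟩,⟨1,[(37,0),(0,0)]⟩⟩,⟨false,1,⟨19,[(13,11),(10,3),(4,2),(0,2),(11,1)]⟩,⟨1,[(28,0),(2,0),(0,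
  0)]⟩⟩,⟨false,0,⟨0,[(25,0)]⟩,⟨23,[(4,3),(12,7),(1,7),(4,3),(4,8),(0,6),(1,3),(2,3)]⟩⟩,⟨true,0,⟨0,
  [(1,0)]⟩,⟨2,[(4,1),(0,1),(25,0),(0,0),(3,0)]⟩⟩,⟨false,0,⟨2,[(5,0),(0,0),(0,0),(17,1)]⟩,⟨9,[(4,3),
  (14,3),(0,1),(3,1),(4,2),(0,0),(1,3),(9,0),(6,0)]⟩⟩,⟨false,1,⟨7,[(3,3),(25,0),(0,0),(11,1),(6,
  3)]⟩,⟨0,[(0,0),(3,0)]⟩⟩,[.a ⟨true,0,⟨3,[(12,0),(5,1),(12,0),(0,0)]⟩,⟨0,[(0,0),(3,0)]⟩⟩ ⟨false,0,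
  ⟨1,[(10,0),(37,0)]⟩,⟨19,[(4,3),(14,13),(0,1),(3,1),(4,2),(0,0),(1,3),(9,0),(6,0)]⟩⟩ ⟨true,0,⟨23,
  [(3,3),(6,7),(13,7),(4,0),(0,0),(11,5)]⟩,⟨0,[(0,0),(3,0)]⟩⟩,.o ⟨false,1,⟨7,[(3,3),(25,0),(0,0),
  (11,1),(6,3)]⟩,⟨0,[(35,0),(11,0)]⟩⟩,.o ⟨false,1,⟨3,[(29,0),(0,0),(17,1)]⟩,⟨2,[(1,1),(32,0),(0,1),
  (1,0),(7,0)]⟩⟩,.e ⟨false,0,⟨2,[(5,0),(0,0),(0,0),(17,1)]⟩,⟨9,[(4,3),(14,3),(0,1),(3,1),(4,2),(0,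
  0),(1,3),(9,0),(6,0)]⟩⟩ ⟨false,1,⟨7,[(3,3),(25,0),(0,0),(11,1),(6,3)]⟩,⟨0,[(0,0),(3,
  0)]⟩⟩]⟩))))))))

theorem ok184 : chk (cU (-1) true 10) t184 l104 = true := by decide +kernel

noncomputable def t185 : Tre :=
  (.Q [0,0,0,0,0,-1,0,0,0,1,0,-1] (.ed true [0,1,0,1] .k) (.I [0,1,-1,-1,0,0,0,1,-1] (.R ⟨1,false,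
  false,false,[1,0,0,-1],[1,0,-1],[0,1,0,-1,0,0,0,0,-1],(⟨0,[(26,0)]⟩,⟨0,[(27,0)]⟩),(⟨0,[(35,0)]⟩,
  ⟨0,[(36,0)]⟩),⟨0,[(1,0)]⟩,.k,.k,(.x (-1) ⟨15,[(10,3),(5,3),(7,6),(0,6),(11,1)]⟩ ⟨0,[(39,0)]⟩),.k,
  (.r (-1) ⟨13,[(0,1),(13,7),(0,2),(8,5),(5,0),(2,0),(8,6)]⟩ ⟨1,[(5,0),(19,0)]⟩),.k,⟨false,0,⟨0,[(0,
  0)]⟩,⟨1,[(5,0),(19,0),(17,0),(0,0)]⟩⟩,⟨true,0,⟨0,[(26,0),(2,0)]⟩,⟨0,[(2,0),(31,0)]⟩⟩,⟨false,0,⟨0,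
  [(42,0)]⟩,⟨31,[(12,7),(0,7),(9,3),(0,6),(0,6),(11,1),(5,3),(0,11)]⟩⟩,⟨false,1,⟨1,[(7,0),(17,0),(0,
  1),(2,0),(2,0),(11,0)]⟩,⟨0,[(3,0),(26,0)]⟩⟩,⟨true,0,⟨0,[(46,0)]⟩,⟨0,[]⟩⟩,⟨false,1,⟨55,[(5,17),(0,
  11),(5,3),(6,15),(4,2),(0,30),(0,55),(10,13),(6,25)]⟩,⟨0,[(0,0),(1,0),(17,0)]⟩⟩,[.a ⟨true,0,⟨1,
  [(7,0),(18,0),(0,0)]⟩,⟨0,[(2,0),(23,0)]⟩⟩ ⟨false,0,⟨0,[(0,0),(33,0)]⟩,⟨5,[(5,0),(6,1),(12,2),(17,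
  1),(0,1)]⟩⟩ ⟨true,0,⟨1,[(7,0),(18,1),(2,0),(2,0)]⟩,⟨0,[(2,0)]⟩⟩,.o ⟨false,1,⟨7,[(7,3),(16,0),(0,
  0),(11,1),(6,3)]⟩,⟨0,[(30,0)]⟩⟩,.o ⟨false,1,⟨1,[(27,1),(9,0),(5,0)]⟩,⟨0,[(20,0),(5,0),(2,0),(0,
  0)]⟩⟩,.e ⟨false,0,⟨0,[(0,0),(19,0)]⟩,⟨5,[(5,0),(6,1),(11,0),(0,3),(6,0),(0,0),(10,1)]⟩⟩ ⟨false,1,
  ⟨7,[(7,3),(16,0),(0,0),(0,7),(10,1),(6,3)]⟩,⟨0,[(2,0)]⟩⟩]⟩) (.Q [0,0,1,-2,0,0,-1,-1,1,0,1,-1] (.p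
  true [0,0,1] [0,0,0,1] (⟨0,[(36,0)]⟩,⟨0,[(35,0)]⟩) .k 2 (⟨0,[(27,0)]⟩,⟨0,[(26,0)]⟩) .k (.r 0 ⟨0,
  [(3,0),(22,0),(2,0),(0,0)]⟩ ⟨3,[(24,0),(0,2),(8,3)]⟩)) (.Q [0,0,1,0,0,0,0,0,1,1,0,-1] (.p false
  [0,0,0,1] [1] (⟨0,[(28,0)]⟩,⟨0,[(27,0)]⟩) .k 1 (⟨0,[]⟩,⟨0,[]⟩) .k .k) (.R ⟨2,false,false,true,[0,
  1],[0,0,0,1],[1],(⟨0,[]⟩,⟨0,[]⟩),(⟨0,[(29,0)]⟩,⟨0,[(28,0)]⟩),⟨0,[]⟩,.k,.k,.k,(.r 0 ⟨1,[(6,1),(27,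
  0),(0,0)]⟩ ⟨7,[(1,1),(11,1),(2,1),(8,1),(1,2),(1,1),(15,0)]⟩),.k,.k,⟨true,0,⟨0,[(5,0),(16,0),(5,
  0),(2,0),(0,0)]⟩,⟨3,[(1,1),(2,1),(2,0),(16,1),(2,0),(4,1)]⟩⟩,⟨false,0,⟨0,[(22,0),(5,0),(2,0),(0,
  0)]⟩,⟨0,[(29,0),(15,0)]⟩⟩,⟨false,1,⟨23,[(1,5),(3,3),(7,5),(2,5),(8,5),(0,0),(2,1),(15,0),(0,9)]⟩,
  ⟨9,[(7,1),(6,1),(4,1),(6,0),(0,0),(6,0),(0,2)]⟩⟩,⟨true,0,⟨0,[(1,0),(17,0)]⟩,⟨0,[(5,0),(37,0)]⟩⟩,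
  ⟨false,1,⟨1,[(45,0),(0,0)]⟩,⟨1,[(34,0),(0,0)]⟩⟩,⟨false,1,⟨3,[(0,3),(25,0),(0,0),(11,1)]⟩,⟨0,[(5,
  0)]⟩⟩,[.e ⟨true,0,⟨0,[]⟩,⟨1,[(34,0),(0,0)]⟩⟩ ⟨true,0,⟨1,[(0,0),(0,0),(17,0),(11,0),(2,0),(8,0)]⟩,
  ⟨0,[(5,0)]⟩⟩,.a ⟨true,0,⟨0,[(0,0)]⟩,⟨0,[(5,0),(42,0)]⟩⟩ ⟨false,1,⟨1,[(45,0),(0,0)]⟩,⟨0,[(48,0)]⟩⟩
  ⟨true,0,⟨11,[(0,1),(0,9),(5,0),(6,5),(4,5),(14,3),(4,0)]⟩,⟨0,[(5,0),(42,0)]⟩⟩,.o ⟨false,1,⟨3,[(26,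
  0),(0,0),(17,1)]⟩,⟨0,[(22,0),(8,0),(0,0)]⟩⟩,.e ⟨false,1,⟨1,[(45,0),(0,0)]⟩,⟨1,[(34,0),(0,0)]⟩⟩
  ⟨false,1,⟨3,[(0,3),(25,0),(0,0),(11,1)]⟩,⟨0,[(5,0)]⟩⟩]⟩) (.R ⟨2,false,false,true,[0,1],[0,0,0,1],
  [],(⟨0,[]⟩,⟨0,[]⟩),(⟨0,[(29,0)]⟩,⟨0,[(28,0)]⟩),⟨0,[]⟩,.k,.k,.k,(.r 0 ⟨1,[(6,1),(27,0),(0,0)]⟩ ⟨7,
  [(1,1),(11,1),(2,1),(8,1),(1,2),(1,1),(15,0)]⟩),.k,.k,⟨true,0,⟨1,[(0,0),(5,0),(21,0),(13,0),(1,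
  0)]⟩,⟨3,[(1,1),(2,1),(2,0),(16,1),(2,0),(4,1)]⟩⟩,⟨false,0,⟨5,[(0,1),(0,1),(5,0),(11,1),(8,5),(2,
  1),(0,1),(6,0),(2,1)]⟩,⟨0,[(29,0),(15,0)]⟩⟩,⟨false,1,⟨23,[(1,5),(3,3),(7,5),(2,5),(8,5),(0,0),(2,
  1),(15,0),(0,9)]⟩,⟨9,[(7,1),(6,1),(4,1),(6,0),(0,0),(6,0),(0,2)]⟩⟩,⟨true,0,⟨0,[(1,0),(17,0)]⟩,⟨0,
  [(5,0),(37,0)]⟩⟩,⟨false,1,⟨1,[(45,0),(0,0)]⟩,⟨1,[(34,0),(0,0)]⟩⟩,⟨false,1,⟨43,[(1,19),(5,1),(6,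
  11),(4,11),(6,10),(0,22),(0,23),(5,7),(4,11)]⟩,⟨0,[(5,0)]⟩⟩,[.a ⟨true,0,⟨3,[(1,1),(2,1),(2,0),(16,
  1),(2,0),(0,3),(3,1)]⟩,⟨0,[(5,0)]⟩⟩ ⟨false,1,⟨3,[(26,0),(0,0),(17,1)]⟩,⟨0,[]⟩⟩ ⟨true,0,⟨9,[(1,9),
  (5,1),(6,1),(4,11),(6,0),(0,0),(6,0),(0,2)]⟩,⟨0,[(5,0)]⟩⟩,.o ⟨false,1,⟨43,[(1,19),(5,1),(6,11),(4,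
  11),(6,10),(0,22),(0,23),(5,7),(4,11)]⟩,⟨0,[(0,0)]⟩⟩,.o ⟨false,1,⟨3,[(26,0),(0,0),(17,1)]⟩,⟨5,[(0,
  1),(0,1),(5,0),(11,1),(11,1),(0,1),(6,0),(2,1)]⟩⟩,.e ⟨false,1,⟨1,[(45,0),(0,0)]⟩,⟨1,[(34,0),(0,
  0)]⟩⟩ ⟨false,1,⟨43,[(1,19),(5,1),(6,11),(4,11),(6,10),(0,22),(0,23),(5,7),(4,11)]⟩,⟨0,[(5,
  0)]⟩⟩]⟩)) (.I [0,0,-1,-1,0,0,0,0,-1] (.I [1,1,1,1,-1,0,0,-1,-1] (.R ⟨1,false,false,false,[1,0,0,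
  -1],[0,-1,1],[0,1,0,-1,0,0,0,0,-1],(⟨0,[(29,0)]⟩,⟨0,[(30,0)]⟩),(⟨1,[(13,0),(25,0)]⟩,⟨0,[(38,0),(3,
  0)]⟩),⟨0,[(4,0)]⟩,.k,.k,(.r 0 ⟨0,[(1,0)]⟩ ⟨19,[(8,3),(6,3),(4,3),(6,6),(0,16),(6,1),(0,5)]⟩),(.x
  (-1) ⟨0,[(11,0),(26,0),(3,0)]⟩ ⟨1,[(13,0),(21,2),(0,0),(2,0)]⟩),.k,.k,⟨true,(-1),⟨0,[(0,0),(44,
  0)]⟩,⟨5,[(17,1),(0,3),(9,2),(16,1),(1,0)]⟩⟩,⟨false,0,⟨0,[(29,0),(5,0)]⟩,⟨0,[(11,0),(18,0)]⟩⟩,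
  ⟨false,0,⟨0,[(45,0)]⟩,⟨31,[(15,7),(0,7),(9,3),(0,6),(0,6),(11,1),(5,3),(0,11)]⟩⟩,⟨false,1,⟨5,[(17,
  1),(0,3),(9,2),(0,5),(5,5),(9,7),(1,0)]⟩,⟨0,[(6,0),(5,0)]⟩⟩,⟨true,0,⟨0,[(49,0)]⟩,⟨0,[]⟩⟩,⟨false,1,
  ⟨5,[(17,1),(0,3),(9,2),(0,5),(5,5),(9,1),(1,0)]⟩,⟨0,[(6,0),(24,0)]⟩⟩,[.a ⟨true,0,⟨0,[(5,0),(23,0),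
  (15,0)]⟩,⟨3,[(10,0),(5,1),(12,0),(0,0)]⟩⟩ ⟨false,0,⟨0,[(1,0),(47,0)]⟩,⟨21,[(3,1),(11,5),(0,3),(9,
  1),(1,9),(11,0),(5,3),(0,6)]⟩⟩ ⟨true,0,⟨1,[(18,0),(10,1),(3,0),(1,0),(9,2)]⟩,⟨0,[(5,0),(3,0)]⟩⟩,
  .o ⟨false,1,⟨2,[(17,1),(0,0),(16,2),(9,1),(1,0)]⟩,⟨0,[(12,0)]⟩⟩,.o ⟨false,1,⟨1,[(30,1),(9,0),(5,
  0)]⟩,⟨0,[(23,0),(5,0),(2,0),(0,0)]⟩⟩,.e ⟨false,0,⟨0,[(1,0)]⟩,⟨5,[(8,0),(6,1),(11,0),(0,3),(6,0),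
  (0,0),(10,1)]⟩⟩ ⟨false,1,⟨2,[(17,1),(0,0),(10,2),(5,2),(9,1),(1,0)]⟩,⟨0,[(5,0),(3,0)]⟩⟩]⟩) (.I [0,
  1,-2,-2,0,0,0,-1,-1] (.Q [0,0,0,1,0,0,1,1,0,1,-1] (.p false [0,0,1] [1] (⟨0,[(40,0)]⟩,⟨0,[(39,
  0)]⟩) .k 1 (⟨0,[]⟩,⟨0,[]⟩) .k .k) (.R ⟨1,false,false,false,[1,0,0,-1],[0,1,1],[0,1,0,-1,0,0,0,0,
  -1],(⟨0,[(31,0)]⟩,⟨0,[(32,0)]⟩),(⟨0,[(41,0),(2,0)]⟩,⟨0,[(26,0)]⟩),⟨0,[(6,0)]⟩,.k,.k,(.r 0 ⟨0,[(3,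
  0)]⟩ ⟨19,[(10,3),(6,3),(4,3),(6,6),(0,16),(6,1),(0,5)]⟩),(.r 0 ⟨17,[(1,11),(7,3),(0,0),(14,3),(3,
  0),(15,3)]⟩ ⟨3,[(20,1),(1,1),(6,0),(0,2),(7,1)]⟩),(.r (-1) ⟨3,[(1,3),(27,0),(0,0),(18,1)]⟩ ⟨0,[(0,
  0),(4,0),(18,0),(10,0)]⟩),.k,⟨false,0,⟨0,[(1,0)]⟩,⟨3,[(17,3),(11,0),(0,2)]⟩⟩,⟨true,0,⟨0,[(25,0),
  (5,0),(3,0)]⟩,⟨0,[(32,0),(1,0)]⟩⟩,⟨false,0,⟨0,[(47,0)]⟩,⟨31,[(17,7),(0,7),(9,3),(0,6),(0,6),(11,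
  1),(5,3),(0,11)]⟩⟩,⟨false,1,⟨15,[(2,3),(14,7),(4,3),(6,0),(0,6),(0,15),(5,11),(11,3)]⟩,⟨1,[(1,0),
  (5,0),(0,0),(3,0),(21,0)]⟩⟩,⟨true,0,⟨0,[(51,0)]⟩,⟨0,[]⟩⟩,⟨false,1,⟨7,[(17,7),(10,3),(0,0),(0,4),
  (0,7),(10,1)]⟩,⟨1,[(1,1),(5,1),(4,0),(11,0),(20,0)]⟩⟩,[.a ⟨true,0,⟨0,[(0,0)]⟩,⟨1,[(12,0),(18,0),
  (0,0),(14,1)]⟩⟩ ⟨false,0,⟨6,[(1,2),(1,2),(5,0),(17,0),(7,2),(2,1)]⟩,⟨21,[(5,1),(11,5),(0,3),(9,1),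
  (1,9),(11,0),(5,3),(0,6)]⟩⟩ ⟨true,0,⟨1,[(20,0),(1,0),(8,1),(5,0)]⟩,⟨0,[(7,0),(4,0),(34,0)]⟩⟩,.o
  ⟨false,1,⟨0,[(22,0),(26,0)]⟩,⟨0,[(33,0),(13,0)]⟩⟩,.o ⟨false,1,⟨1,[(32,1),(9,0),(5,0)]⟩,⟨0,[(25,0),
  (5,0),(2,0),(0,0)]⟩⟩,.e ⟨false,0,⟨0,[(3,0)]⟩,⟨5,[(10,0),(6,1),(11,0),(0,3),(6,0),(0,0),(10,1)]⟩⟩
  ⟨false,1,⟨0,[(22,0),(8,0),(17,0)]⟩,⟨0,[(7,0),(4,0),(34,0)]⟩⟩]⟩) (.R ⟨2,false,false,false,[0,1],[1,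
  0,-1],[1,0,1,0,0,0,0,-1],(⟨0,[]⟩,⟨0,[]⟩),(⟨0,[(40,0)]⟩,⟨0,[(41,0)]⟩),⟨0,[]⟩,.k,.k,.k,.k,.k,.k,
  ⟨false,0,⟨0,[]⟩,⟨3,[(29,0),(0,0),(17,1)]⟩⟩,⟨true,0,⟨0,[(34,0)]⟩,⟨1,[(28,0),(2,0),(0,0)]⟩⟩,⟨false,
  0,⟨1,[(1,0),(3,0),(39,0),(1,0)]⟩,⟨11,[(2,3),(14,3),(4,3),(4,3),(1,4),(0,2)]⟩⟩,⟨true,0,⟨0,[(0,0)]⟩,
  ⟨2,[(7,1),(14,0),(4,1),(0,0),(2,1)]⟩⟩,⟨false,0,⟨0,[(25,0)]⟩,⟨7,[(2,3),(19,3),(6,2),(0,0),(7,3)]⟩⟩,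
  ⟨false,1,⟨7,[(12,3),(16,0),(0,0),(11,1),(6,3)]⟩,⟨0,[(7,0),(23,0)]⟩⟩,[.a ⟨true,0,⟨1,[(12,0),(18,0),
  (0,0)]⟩,⟨0,[(7,0),(23,0)]⟩⟩ ⟨false,0,⟨0,[(39,0)]⟩,⟨23,[(2,3),(14,3),(1,11),(2,3),(4,3),(1,4),(0,
  2)]⟩⟩ ⟨true,0,⟨1,[(12,0),(21,0),(2,0)]⟩,⟨0,[(7,0),(23,0)]⟩⟩,.o ⟨false,1,⟨7,[(12,3),(16,0),(0,0),
  (11,1),(6,3)]⟩,⟨0,[(35,0)]⟩⟩,.o ⟨false,1,⟨3,[(29,0),(0,0),(17,1)]⟩,⟨5,[(0,1),(9,0),(23,1),(0,3),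
  (6,0),(2,1)]⟩⟩,.e ⟨false,0,⟨0,[(25,0)]⟩,⟨7,[(2,3),(19,3),(6,2),(0,0),(7,3)]⟩⟩ ⟨false,1,⟨7,[(12,3),
  (16,0),(0,0),(11,1),(6,3)]⟩,⟨0,[(7,0),(23,0)]⟩⟩]⟩)) (.K ⟨1,[1,-1,0,-1],0,0,(⟨0,[(5,0)]⟩,⟨0,[(31,
  0),(11,0)]⟩),(.r 0 ⟨0,[(2,0)]⟩ ⟨23,[(0,7),(8,1),(18,8),(0,16),(5,3),(0,3),(8,3)]⟩),(.r (-1) ⟨3,
  [(2,1),(15,2),(9,0),(9,2),(7,2)]⟩ ⟨5,[(0,3),(8,0),(19,0),(5,1),(0,1),(8,1)]⟩),.k,.k,.k,[⟨1,[(30,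
  1),(5,0),(0,0)]⟩,⟨1,[(6,1),(4,0),(21,0),(2,0)]⟩,⟨0,[(4,0),(21,0),(3,0),(3,0),(11,0)]⟩,⟨0,[(7,0),
  (38,0)]⟩]⟩))) (.Q [0,0,0,1,0,0,0,0,0,1,0,-1] (.p false [0,0,0,1] [1] (⟨0,[(29,0)]⟩,⟨0,[(28,0)]⟩)
  .k 1 (⟨0,[]⟩,⟨0,[]⟩) .k .k) (.R ⟨1,false,false,true,[1,0,0,-1],[0,1],[0,0,0,-1,0,0,0,0,-1],(⟨0,
  [(29,0)]⟩,⟨0,[(30,0)]⟩),(⟨0,[(42,0)]⟩,⟨0,[(41,0)]⟩),⟨0,[(4,0)]⟩,.k,.k,(.x (-1) ⟨15,[(13,3),(5,3),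
  (7,6),(0,6),(11,1)]⟩ ⟨0,[(42,0)]⟩),(.x (-1) ⟨15,[(13,3),(5,3),(7,6),(0,6),(11,1)]⟩ ⟨0,[(42,0)]⟩),
  (.r (-1) ⟨7,[(6,3),(7,5),(11,2),(0,1),(1,3),(1,0),(1,0),(11,9),(3,1)]⟩ ⟨13,[(1,17),(6,1),(6,1),(4,
  1),(6,1),(7,0),(0,2)]⟩),.k,⟨false,1,⟨8,[(6,6),(7,5),(11,2),(0,0),(1,6),(10,1),(2,0),(1,11)]⟩,⟨0,
  [(1,0),(42,0)]⟩⟩,⟨true,0,⟨0,[(29,0)]⟩,⟨1,[(5,1),(4,0),(21,0),(2,0)]⟩⟩,⟨true,0,⟨0,[(45,0)]⟩,⟨0,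
  [(44,0)]⟩⟩,⟨false,0,⟨0,[(1,0),(27,0)]⟩,⟨10,[(6,6),(7,1),(11,0),(0,1),(2,3),(9,4),(4,8),(1,1)]⟩⟩,
  ⟨false,1,⟨3,[(27,0),(0,0),(18,1)]⟩,⟨0,[]⟩⟩,⟨false,0,⟨0,[(0,0),(0,0)]⟩,⟨10,[(6,6),(7,1),(11,0),(0,
  1),(2,3),(9,4),(4,19),(1,1)]⟩⟩,[.o ⟨false,0,⟨0,[(44,0)]⟩,⟨1,[(40,0),(4,1),(1,0)]⟩⟩,.a ⟨true,0,⟨0,
  [(0,0),(29,0)]⟩,⟨0,[(45,0)]⟩⟩ ⟨true,0,⟨0,[(6,0),(16,0),(5,0),(2,0),(0,0),(11,0)]⟩,⟨0,[(1,0),(47,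
  0)]⟩⟩ ⟨false,0,⟨0,[(0,0)]⟩,⟨15,[(14,7),(11,3),(0,0),(0,0),(1,15),(9,5),(4,7)]⟩⟩,.o ⟨false,1,⟨1,
  [(30,1),(9,0),(5,0)]⟩,⟨0,[(23,0),(5,0),(2,0),(0,0)]⟩⟩,.e ⟨false,1,⟨6,[(6,0),(7,1),(2,1),(5,1),(2,
  0),(0,2),(1,0),(13,1),(1,2)]⟩,⟨0,[(1,0)]⟩⟩ ⟨false,0,⟨0,[(0,0)]⟩,⟨1,[(30,1),(9,0),(4,1),(1,
  0)]⟩⟩]⟩) (.Q [0,0,-1,-2,0,0,0,0,-1,-1,0,1] (.p true [0,0,0,1] [1] (⟨0,[(30,0)]⟩,⟨0,[(29,0)]⟩) .k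
  1 (⟨0,[]⟩,⟨0,[]⟩) .k .k) (.R ⟨1,true,false,true,[1,0,0,-1],[0,1],[1,0,0,0,0,0,0,0,-1],(⟨0,[(30,
  0)]⟩,⟨0,[(31,0)]⟩),(⟨0,[(43,0)]⟩,⟨0,[(42,0)]⟩),⟨0,[(5,0)]⟩,.k,.k,(.x (-1) ⟨15,[(14,3),(5,3),(7,6),
  (0,6),(11,1)]⟩ ⟨0,[(43,0)]⟩),(.x (-1) ⟨15,[(14,3),(5,3),(7,6),(0,6),(11,1)]⟩ ⟨0,[(43,0)]⟩),(.r
  (-1) ⟨5,[(0,3),(14,1),(2,1),(8,1),(0,0),(1,3),(4,1),(12,0)]⟩ ⟨13,[(2,17),(6,1),(6,1),(4,1),(6,1),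
  (7,0),(0,2)]⟩),.k,⟨false,1,⟨9,[(0,3),(2,1),(3,1),(7,5),(8,1),(2,1),(0,0),(1,7),(17,2)]⟩,⟨0,[(2,0),
  (47,0)]⟩⟩,⟨true,0,⟨0,[(30,0)]⟩,⟨7,[(1,1),(4,1),(2,0),(21,3),(1,3),(2,1),(4,0)]⟩⟩,⟨true,0,⟨0,[]⟩,
  ⟨0,[(50,0)]⟩⟩,⟨false,0,⟨0,[(2,0),(27,0)]⟩,⟨49,[(0,29),(2,3),(6,1),(17,7),(2,15),(9,8),(5,7),(0,
  24)]⟩⟩,⟨false,1,⟨31,[(16,7),(0,7),(9,3),(0,6),(0,6),(11,1),(5,3),(0,11)]⟩,⟨0,[(46,0)]⟩⟩,⟨true,0,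
  ⟨0,[(2,0),(27,0),(14,0)]⟩,⟨0,[(0,0)]⟩⟩,[]⟩) (.R ⟨1,false,false,true,[1,0,0,-1],[0,1],[0,0,0,-1,0,
  0,0,0,-1],(⟨0,[(30,0)]⟩,⟨0,[(31,0)]⟩),(⟨0,[(43,0)]⟩,⟨0,[(42,0)]⟩),⟨0,[(5,0)]⟩,.k,.k,(.x (-1) ⟨15,
  [(14,3),(5,3),(7,6),(0,6),(11,1)]⟩ ⟨0,[(43,0)]⟩),(.x (-1) ⟨15,[(14,3),(5,3),(7,6),(0,6),(11,1)]⟩
  ⟨0,[(43,0)]⟩),(.r (-1) ⟨7,[(7,3),(7,5),(11,2),(0,1),(1,3),(1,0),(1,0),(11,9),(3,1)]⟩ ⟨13,[(2,17),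
  (6,1),(6,1),(4,1),(6,1),(7,0),(0,2)]⟩),.k,⟨false,1,⟨8,[(7,6),(7,5),(11,2),(0,0),(1,6),(10,1),(2,
  0),(1,11)]⟩,⟨0,[(2,0),(42,0)]⟩⟩,⟨true,0,⟨0,[(30,0)]⟩,⟨7,[(1,1),(4,1),(2,0),(21,3),(1,3),(2,1),(4,
  0)]⟩⟩,⟨true,0,⟨0,[(46,0)]⟩,⟨0,[(45,0)]⟩⟩,⟨false,0,⟨0,[(0,0),(45,0)]⟩,⟨21,[(1,13),(5,7),(7,7),(11,
  3),(0,6),(12,1),(2,1),(3,4)]⟩⟩,⟨false,1,⟨3,[(28,0),(0,0),(18,1)]⟩,⟨0,[]⟩⟩,⟨false,0,⟨0,[(0,0)]⟩,⟨7,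
  [(1,5),(5,1),(7,3),(11,1),(0,2),(15,1),(1,5),(1,0)]⟩⟩,[.o ⟨false,0,⟨0,[(45,0)]⟩,⟨1,[(41,0),(4,1),
  (1,0)]⟩⟩,.e ⟨true,0,⟨0,[(7,0),(16,0),(5,0),(2,0),(0,0),(11,0)]⟩,⟨0,[(2,0),(47,0)]⟩⟩ ⟨true,0,⟨13,
  [(0,3),(8,1),(9,1),(8,1),(1,9),(3,1),(1,0),(0,2)]⟩,⟨0,[(1,0)]⟩⟩,.o ⟨false,1,⟨1,[(31,1),(9,0),(5,
  0)]⟩,⟨0,[(24,0),(5,0),(2,0),(0,0)]⟩⟩,.a ⟨true,0,⟨0,[(31,0)]⟩,⟨0,[(30,0)]⟩⟩ ⟨false,1,⟨6,[(7,0),(7,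
  1),(2,1),(5,1),(2,0),(0,2),(1,0),(13,1),(1,2)]⟩,⟨0,[(2,0)]⟩⟩ ⟨true,0,⟨0,[(30,0),(14,0)]⟩,⟨0,[(1,
  0)]⟩⟩]⟩)))))) (.I [0,1,-1,0,0,0,0,1,-1] (.R ⟨0,false,false,false,[1,0,0,-1],[1,0,-1],[1,0,1,0,0,0,
  0,-1],(⟨0,[(26,0)]⟩,⟨0,[(27,0)]⟩),(⟨0,[(35,0)]⟩,⟨0,[(36,0)]⟩),⟨0,[(1,0)]⟩,.k,.k,(.x (-1) ⟨15,[(10,
  3),(5,3),(7,6),(0,6),(11,1)]⟩ ⟨0,[(39,0)]⟩),.k,.k,.k,⟨false,0,⟨0,[]⟩,⟨3,[(24,0),(0,0),(17,1)]⟩⟩,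
  ⟨true,0,⟨0,[(26,0),(2,0)]⟩,⟨5,[(1,3),(8,0),(5,0),(6,2),(3,1)]⟩⟩,⟨true,0,⟨1,[(5,0),(19,0),(16,1)]⟩,
  ⟨0,[(0,0)]⟩⟩,⟨false,1,⟨1,[(7,0),(17,0),(0,1),(2,0),(2,0),(11,0)]⟩,⟨0,[(3,0),(26,0)]⟩⟩,⟨false,0,⟨0,
  []⟩,⟨0,[]⟩⟩,⟨false,0,⟨0,[]⟩,⟨0,[]⟩⟩,[.a ⟨true,0,⟨1,[(7,0),(18,0),(0,0)]⟩,⟨0,[(2,0),(23,0)]⟩⟩
  ⟨false,0,⟨0,[(34,0)]⟩,⟨27,[(12,5),(1,17),(2,3),(4,1),(1,4),(0,4),(7,1)]⟩⟩ ⟨true,0,⟨1,[(7,0),(18,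
  1),(2,0),(2,0)]⟩,⟨0,[(2,0)]⟩⟩,.o ⟨false,1,⟨7,[(7,3),(16,0),(0,0),(11,1),(6,3)]⟩,⟨0,[(30,0)]⟩⟩,.o
  ⟨false,1,⟨1,[(27,1),(9,0),(5,0)]⟩,⟨0,[(20,0),(5,0),(2,0),(0,0)]⟩⟩,.e ⟨false,0,⟨0,[(20,0)]⟩,⟨2,
  [(14,0),(0,0),(8,0),(0,0),(4,0),(2,0)]⟩⟩ ⟨false,1,⟨7,[(7,3),(16,0),(0,0),(0,7),(10,1),(6,3)]⟩,⟨0,
  [(2,0)]⟩⟩]⟩) (.Q [0,1,1,0,0,0,-1,-1,1,0,1,-1] (.p true [0,0,1] [0,0,0,1] (⟨0,[(36,0)]⟩,⟨0,[(35,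
  0)]⟩) .k 2 (⟨0,[(27,0)]⟩,⟨0,[(26,0)]⟩) .k (.r 0 ⟨0,[(3,0),(22,0),(2,0),(0,0)]⟩ ⟨3,[(24,0),(0,2),
  (8,3)]⟩)) (.R ⟨0,false,false,true,[1,0,0,-1],[1,0,-1],[1,1],(⟨0,[(27,0)]⟩,⟨0,[(28,0)]⟩),(⟨0,[(36,
  0)]⟩,⟨0,[(37,0)]⟩),⟨0,[(2,0)]⟩,.k,.k,(.x (-1) ⟨15,[(11,3),(5,3),(7,6),(0,6),(11,1)]⟩ ⟨0,[(40,
  0)]⟩),.k,.k,.k,⟨false,1,⟨27,[(13,5),(1,17),(2,3),(4,1),(1,4),(0,4),(7,1)]⟩,⟨0,[(35,0)]⟩⟩,⟨true,0,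
  ⟨0,[(27,0),(2,0)]⟩,⟨5,[(2,3),(8,0),(5,0),(6,2),(3,1)]⟩⟩,⟨false,1,⟨3,[(25,0),(0,2)]⟩,⟨0,[(4,0),(16,
  0),(5,0),(2,0),(0,0)]⟩⟩,⟨true,0,⟨0,[(0,0)]⟩,⟨0,[(4,0),(26,0)]⟩⟩,⟨false,0,⟨0,[]⟩,⟨0,[]⟩⟩,⟨false,0,
  ⟨0,[]⟩,⟨0,[]⟩⟩,[.o ⟨false,0,⟨0,[(29,0)]⟩,⟨0,[(31,0),(13,0)]⟩⟩,.e ⟨true,0,⟨0,[]⟩,⟨1,[(33,0),(0,
  0)]⟩⟩ ⟨true,0,⟨25,[(0,3),(5,4),(1,5),(16,1),(1,21),(2,9),(7,2),(2,1),(1,9)]⟩,⟨0,[(3,0)]⟩⟩,.o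
  ⟨false,1,⟨1,[(28,1),(9,0),(5,0)]⟩,⟨0,[(21,0),(5,0),(2,0),(0,0)]⟩⟩,.a ⟨true,0,⟨0,[(28,0)]⟩,⟨0,[(27,
  0)]⟩⟩ ⟨false,1,⟨3,[(25,0),(0,0),(17,1)]⟩,⟨3,[(33,0),(0,0),(6,1)]⟩⟩ ⟨true,0,⟨0,[(27,0),(1,0)]⟩,⟨0,
  [(3,0)]⟩⟩]⟩) (.Q [0,0,0,-1,0,0,0,0,0,-1,0,1] (.p true [0,0,0,1] [1] (⟨0,[(28,0)]⟩,⟨0,[(27,0)]⟩)
  .k 1 (⟨0,[]⟩,⟨0,[]⟩) .k .k) (.R ⟨0,false,false,true,[1,0,0,-1],[0,1],[1,1],(⟨0,[(28,0)]⟩,⟨0,[(29,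
  0)]⟩),(⟨0,[(41,0)]⟩,⟨0,[(40,0)]⟩),⟨0,[(3,0)]⟩,.k,.k,(.x (-1) ⟨15,[(12,3),(5,3),(7,6),(0,6),(11,
  1)]⟩ ⟨0,[(41,0)]⟩),(.x (-1) ⟨15,[(12,3),(5,3),(7,6),(0,6),(11,1)]⟩ ⟨0,[(41,0)]⟩),.k,.k,⟨false,1,
  ⟨0,[(16,0),(19,0)]⟩,⟨9,[(7,1),(6,1),(4,1),(6,0),(0,0),(6,0),(0,2)]⟩⟩,⟨true,0,⟨0,[(28,0)]⟩,⟨7,[(0,
  1),(3,1),(2,0),(21,3),(1,3),(2,1),(4,0)]⟩⟩,⟨false,1,⟨3,[(26,0),(0,2)]⟩,⟨9,[(1,5),(4,3),(0,0),(1,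
  1),(18,5),(2,1),(7,0),(2,1),(1,5)]⟩⟩,⟨true,0,⟨0,[(2,0),(21,0),(3,0),(3,0)]⟩,⟨0,[(1,0),(28,0),(13,
  0)]⟩⟩,⟨false,0,⟨0,[]⟩,⟨0,[]⟩⟩,⟨false,0,⟨0,[]⟩,⟨0,[]⟩⟩,[.o ⟨false,0,⟨0,[(43,0)]⟩,⟨1,[(39,0),(4,1),
  (1,0)]⟩⟩,.e ⟨true,0,⟨0,[]⟩,⟨1,[(34,0),(0,0)]⟩⟩ ⟨true,0,⟨9,[(7,1),(6,1),(4,1),(6,0),(0,0),(0,9),(5,
  0),(0,2)]⟩,⟨0,[(0,0)]⟩⟩,.o ⟨false,1,⟨1,[(29,1),(9,0),(5,0)]⟩,⟨0,[(22,0),(5,0),(2,0),(0,0)]⟩⟩,.a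
  ⟨true,0,⟨0,[(29,0)]⟩,⟨0,[(28,0)]⟩⟩ ⟨false,1,⟨3,[(26,0),(0,0),(17,1)]⟩,⟨3,[(34,0),(0,0),(6,1)]⟩⟩
  ⟨true,0,⟨0,[(28,0),(14,0)]⟩,⟨0,[(0,0)]⟩⟩]⟩) (.R ⟨0,false,false,true,[1,0,0,-1],[0,1],[1,1],(⟨0,
  [(28,0)]⟩,⟨0,[(29,0)]⟩),(⟨0,[(41,0)]⟩,⟨0,[(40,0)]⟩),⟨0,[(3,0)]⟩,.k,.k,(.x (-1) ⟨15,[(12,3),(5,3),
  (7,6),(0,6),(11,1)]⟩ ⟨0,[(41,0)]⟩),(.x (-1) ⟨15,[(12,3),(5,3),(7,6),(0,6),(11,1)]⟩ ⟨0,[(41,0)]⟩),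
  .k,.k,⟨false,1,⟨0,[(16,0),(19,0)]⟩,⟨9,[(7,1),(6,1),(4,1),(6,0),(0,0),(6,0),(0,2)]⟩⟩,⟨true,0,⟨0,
  [(28,0)]⟩,⟨5,[(3,3),(8,0),(5,0),(10,1),(1,2),(2,2)]⟩⟩,⟨false,1,⟨3,[(26,0),(0,2)]⟩,⟨9,[(1,5),(4,3),
  (0,0),(1,1),(18,5),(2,1),(7,0),(2,1),(1,5)]⟩⟩,⟨true,0,⟨0,[(2,0),(21,0),(3,0),(3,0)]⟩,⟨0,[(1,0),
  (28,0),(13,0)]⟩⟩,⟨false,0,⟨0,[]⟩,⟨0,[]⟩⟩,⟨false,0,⟨0,[]⟩,⟨0,[]⟩⟩,[.o ⟨false,0,⟨0,[(43,0)]⟩,⟨1,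
  [(39,0),(4,1),(1,0)]⟩⟩,.a ⟨true,0,⟨0,[(0,0),(28,0)]⟩,⟨0,[(44,0)]⟩⟩ ⟨true,0,⟨0,[]⟩,⟨1,[(34,0),(0,
  0)]⟩⟩ ⟨false,0,⟨0,[(0,0)]⟩,⟨15,[(13,7),(11,3),(0,0),(0,0),(1,15),(9,5),(4,7)]⟩⟩,.o ⟨false,1,⟨1,
  [(29,1),(9,0),(5,0)]⟩,⟨0,[(22,0),(5,0),(2,0),(0,0)]⟩⟩,.e ⟨false,1,⟨3,[(26,0),(0,0),(17,1)]⟩,⟨3,
  [(34,0),(0,0),(6,1)]⟩⟩ ⟨false,0,⟨0,[(0,0)]⟩,⟨1,[(29,1),(9,0),(4,1),(1,0)]⟩⟩]⟩)))))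

theorem ok185 : chk (cU (-1) true 10) t185 r104 = true := by decide +kernel

noncomputable def t198 : Tre :=
  (.Q [0,-1,0,1,0,0,0,0,0,1] (.pp false [-1,1]) (.R ⟨0,false,false,true,[0,-1,1],[1,-1],[1],(⟨0,[(7,
  0),(1,0),(0,0)]⟩,⟨1,[(1,0),(15,0),(0,0),(7,0)]⟩),(⟨0,[(29,0)]⟩,⟨0,[(30,0)]⟩),⟨0,[(1,0)]⟩,.k,.k,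
  (.r (-1) ⟨0,[(5,0),(27,0)]⟩ ⟨1,[(4,1),(18,2),(0,0)]⟩),.k,.k,.k,⟨true,0,⟨15,[(3,3),(0,3),(18,4),(0,
  0),(6,5)]⟩,⟨0,[(33,0),(3,0)]⟩⟩,⟨false,1,⟨24,[(2,14),(0,2),(0,2),(5,1),(2,2),(1,2),(0,2),(11,3)]⟩,
  ⟨1,[(14,0),(2,0),(0,0)]⟩⟩,⟨false,0,⟨1,[(4,0),(18,0),(1,0),(5,0)]⟩,⟨1,[(5,1),(17,0),(0,0)]⟩⟩,⟨true,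
  0,⟨0,[(19,0)]⟩,⟨0,[(0,0),(20,0),(11,0)]⟩⟩,⟨false,0,⟨0,[]⟩,⟨0,[]⟩⟩,⟨false,0,⟨0,[]⟩,⟨0,[]⟩⟩,[.a
  ⟨true,0,⟨0,[(33,0),(3,0)]⟩,⟨0,[(0,0)]⟩⟩ ⟨true,0,⟨0,[]⟩,⟨1,[(23,0),(0,0)]⟩⟩ ⟨false,1,⟨0,[(2,0),(34,
  0)]⟩,⟨0,[(0,0),(22,0)]⟩⟩,.e ⟨false,1,⟨1,[(34,0),(0,0)]⟩,⟨0,[(37,0)]⟩⟩ ⟨false,1,⟨0,[(2,0)]⟩,⟨1,[(0,
  0),(13,0),(8,0),(0,0),(7,0)]⟩⟩,.o ⟨false,0,⟨0,[(23,0)]⟩,⟨24,[(2,14),(0,2),(0,2),(5,1),(2,2),(1,2),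
  (0,2),(11,3)]⟩⟩,.e ⟨false,1,⟨1,[(34,0),(0,0)]⟩,⟨1,[(23,0),(0,0)]⟩⟩ ⟨false,1,⟨0,[(2,0)]⟩,⟨1,[(0,1),
  (22,2),(0,0)]⟩⟩]⟩) (.Q [0,0,0,0,0,0,1,1,0,1,-1] (.p false [0,0,1] [1] (⟨0,[(27,0)]⟩,⟨0,[(26,0)]⟩)
  .k 1 (⟨0,[]⟩,⟨0,[]⟩) .k .k) (.R ⟨0,false,false,true,[0,-1,1],[1,-1],[1,1],(⟨0,[(8,0),(1,0),(0,
  0)]⟩,⟨1,[(2,0),(15,0),(0,0),(7,0)]⟩),(⟨0,[(30,0)]⟩,⟨0,[(31,0)]⟩),⟨0,[(2,0)]⟩,.k,.k,(.r (-1) ⟨0,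
  [(6,0),(27,0)]⟩ ⟨1,[(5,1),(18,2),(0,0)]⟩),.k,.k,.k,⟨true,0,⟨9,[(4,1),(0,1),(18,4),(0,2),(7,1)]⟩,
  ⟨0,[(34,0)]⟩⟩,⟨false,1,⟨24,[(3,14),(0,2),(0,2),(5,1),(2,2),(1,2),(0,2),(11,3)]⟩,⟨1,[(15,0),(2,0),
  (0,0)]⟩⟩,⟨false,0,⟨5,[(5,2),(17,1),(0,4),(1,0),(5,0)]⟩,⟨2,[(6,1),(0,0),(26,1),(1,0)]⟩⟩,⟨true,0,⟨0,
  [(20,0)]⟩,⟨0,[(0,0)]⟩⟩,⟨false,0,⟨0,[]⟩,⟨0,[]⟩⟩,⟨false,0,⟨0,[]⟩,⟨0,[]⟩⟩,[.o ⟨false,0,⟨0,[(1,0)]⟩,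
  ⟨31,[(4,7),(0,7),(9,3),(0,6),(0,6),(11,1),(5,3),(0,11)]⟩⟩,.a ⟨true,0,⟨0,[(34,0)]⟩,⟨1,[(0,0),(4,0),
  (12,0),(0,0)]⟩⟩ ⟨true,0,⟨0,[]⟩,⟨1,[(24,0),(0,0)]⟩⟩ ⟨false,1,⟨0,[(3,0)]⟩,⟨4,[(4,0),(0,0),(9,4),(9,
  3),(7,0)]⟩⟩,.o ⟨false,0,⟨0,[(24,0)]⟩,⟨24,[(3,14),(0,2),(0,2),(5,1),(2,2),(1,2),(0,2),(11,3)]⟩⟩,.e
  ⟨false,1,⟨3,[(16,0),(0,0),(17,1)]⟩,⟨3,[(24,0),(0,0),(6,1)]⟩⟩ ⟨false,1,⟨0,[(3,0)]⟩,⟨15,[(4,3),(0,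
  3),(9,15),(8,4),(0,16),(6,5)]⟩⟩]⟩) (.Q [0,0,-2,0,1,0,-1,0,0,-1,1] (.p true [0,0,1] [1] (⟨0,[(28,
  0)]⟩,⟨0,[(27,0)]⟩) .k 1 (⟨0,[]⟩,⟨0,[]⟩) .k .k) (.R ⟨0,false,false,false,[0,-1,1],[1,-1],[1],(⟨0,
  [(9,0),(1,0),(0,0)]⟩,⟨1,[(3,0),(15,0),(0,0),(7,0)]⟩),(⟨0,[(31,0)]⟩,⟨0,[(32,0)]⟩),⟨0,[(3,0)]⟩,.k,
  .k,(.r (-1) ⟨0,[(7,0),(27,0)]⟩ ⟨1,[(6,1),(18,2),(0,0)]⟩),.k,.k,.k,⟨true,0,⟨9,[(5,1),(0,1),(18,4),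
  (0,2),(7,1)]⟩,⟨0,[(35,0)]⟩⟩,⟨false,1,⟨19,[(0,11),(11,3),(4,2),(0,2),(11,1)]⟩,⟨1,[(16,0),(2,0),(0,
  0)]⟩⟩,⟨false,0,⟨1,[(6,0),(18,0),(1,0),(5,0)]⟩,⟨1,[(7,1),(17,0),(0,0)]⟩⟩,⟨true,0,⟨0,[(1,0)]⟩,⟨0,
  [(19,0),(0,0),(2,0)]⟩⟩,⟨false,0,⟨0,[]⟩,⟨0,[]⟩⟩,⟨false,0,⟨0,[]⟩,⟨0,[]⟩⟩,[.a ⟨true,0,⟨0,[(35,0)]⟩,
  ⟨4,[(5,0),(0,0),(4,0),(3,0),(3,1),(0,1),(7,1),(2,0)]⟩⟩ ⟨true,0,⟨0,[]⟩,⟨1,[(25,0),(0,0)]⟩⟩ ⟨false,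
  1,⟨0,[(4,0)]⟩,⟨4,[(5,0),(0,0),(9,4),(9,3),(7,0)]⟩⟩,.o ⟨false,1,⟨0,[(2,0),(34,0)]⟩,⟨0,[(34,0)]⟩⟩,
  .o ⟨false,0,⟨0,[(25,0)]⟩,⟨19,[(0,11),(11,3),(4,2),(0,2),(11,1)]⟩⟩,.o ⟨false,0,⟨1,[(25,2),(0,0)]⟩,
  ⟨0,[(0,0)]⟩⟩]⟩) (.K ⟨0,[1,1,-1],1,0,(⟨1,[(3,0),(15,0),(0,0),(7,0)]⟩,⟨0,[(9,0),(1,0),(0,0)]⟩),.k,
  .k,(.r 0 ⟨5,[(0,1),(5,5),(10,0),(0,0),(3,1),(2,5)]⟩ ⟨0,[(7,0),(27,0)]⟩),.k,.k,[⟨0,[(0,0)]⟩,⟨1,[(4,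
  0),(1,0),(0,0),(11,0),(0,0)]⟩,⟨0,[(0,0),(6,0),(31,0)]⟩,⟨2,[(1,0),(4,0),(3,0),(10,1)]⟩]⟩))))

theorem ok198 : chk (cU (-1) true 10) t198 r92 = true := by decide +kernel

noncomputable def t208 : Tre :=
  (.Q [0,0,0,1,0,0,1,1,0,1,-1] (.p false [0,0,1] [1] (⟨0,[(29,0)]⟩,⟨0,[(28,0)]⟩) .k 1 (⟨0,[]⟩,⟨0,
  []⟩) .k .k) (.R ⟨1,true,false,false,[1,0,-1],[0,1],[0,1,0,-1,0,0,0,-1],(⟨0,[(29,0)]⟩,⟨0,[(30,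
  0)]⟩),(⟨0,[(33,0)]⟩,⟨0,[(32,0)]⟩),⟨0,[(15,0)]⟩,.k,.k,.k,.k,(.r (-1) ⟨1,[(3,1),(33,0),(0,0)]⟩ ⟨21,
  [(5,1),(2,7),(0,14),(1,14),(1,1),(4,3),(0,3),(7,10)]⟩),.k,⟨true,0,⟨0,[(3,0)]⟩,⟨10,[(5,0),(2,3),(0,
  12),(1,1),(1,0),(4,1),(0,1)]⟩⟩,⟨false,1,⟨11,[(0,3),(2,3),(0,3),(0,3),(11,3),(0,0),(0,0),(17,5)]⟩,
  ⟨0,[(23,0)]⟩⟩,⟨false,0,⟨0,[(36,0)]⟩,⟨5,[(5,1),(12,0),(0,0),(11,0),(6,2)]⟩⟩,⟨true,0,⟨0,[(0,0)]⟩,⟨1,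
  [(1,0),(20,0),(17,0)]⟩⟩,⟨true,0,⟨0,[(40,0)]⟩,⟨0,[]⟩⟩,⟨false,1,⟨5,[(0,5),(4,1),(12,0),(0,0),(11,0),
  (6,2)]⟩,⟨0,[(1,0)]⟩⟩,[]⟩) (.Q [0,0,0,0,0,0,1,1,0,1,-1] (.p false [0,0,1] [1] (⟨0,[(30,0)]⟩,⟨0,
  [(29,0)]⟩) .k 1 (⟨0,[]⟩,⟨0,[]⟩) .k .k) (.R ⟨2,false,false,false,[0,1],[1,0,-1],[1,0,1,0,0,0,0,-1],
  (⟨0,[]⟩,⟨0,[]⟩),(⟨0,[(30,0)]⟩,⟨0,[(31,0)]⟩),⟨0,[]⟩,.k,.k,.k,.k,.k,.k,⟨false,0,⟨0,[]⟩,⟨3,[(19,0),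
  (0,0),(17,1)]⟩⟩,⟨true,0,⟨0,[(24,0)]⟩,⟨1,[(18,0),(2,0),(0,0)]⟩⟩,⟨false,0,⟨1,[(4,0),(10,0),(19,0)]⟩,
  ⟨5,[(0,0),(9,2),(1,1),(1,0),(2,0),(1,1),(0,1),(17,1)]⟩⟩,⟨true,0,⟨0,[(1,0)]⟩,⟨3,[(0,2),(5,0),(5,0),
  (28,2)]⟩⟩,⟨false,0,⟨0,[(15,0)]⟩,⟨31,[(0,11),(4,3),(4,7),(3,11),(4,10),(0,10),(4,11),(12,5)]⟩⟩,
  ⟨false,1,⟨5,[(1,1),(6,1),(17,1),(5,0),(6,4)]⟩,⟨0,[(0,0)]⟩⟩,[.a ⟨true,0,⟨5,[(4,2),(1,1),(7,2),(0,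
  2),(5,0),(0,0)]⟩,⟨0,[(0,0)]⟩⟩ ⟨false,0,⟨0,[(29,0)]⟩,⟨31,[(0,11),(4,3),(4,7),(3,11),(4,2),(0,2),(4,
  11),(12,21)]⟩⟩ ⟨true,0,⟨19,[(1,7),(7,7),(4,3),(4,0),(0,0),(5,3),(5,3),(6,1)]⟩,⟨0,[(0,0)]⟩⟩,.o
  ⟨false,1,⟨5,[(1,1),(6,1),(17,1),(5,0),(6,4)]⟩,⟨0,[(25,0)]⟩⟩,.o ⟨false,1,⟨3,[(19,0),(0,0),(17,1)]⟩,
  ⟨2,[(2,0),(6,0),(0,0),(14,0),(6,0)]⟩⟩,.e ⟨false,0,⟨0,[(15,0)]⟩,⟨31,[(0,11),(4,3),(4,7),(3,11),(4,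
  10),(0,10),(4,11),(12,5)]⟩⟩ ⟨false,1,⟨5,[(1,1),(6,1),(17,1),(5,0),(6,4)]⟩,⟨0,[(0,0)]⟩⟩]⟩) (.Q [0,
  0,0,-1,0,0,1,1,0,1,-1] (.p false [0,0,1] [1] (⟨0,[(31,0)]⟩,⟨0,[(30,0)]⟩) .k 1 (⟨0,[]⟩,⟨0,[]⟩) .k
  .k) (.R ⟨2,false,false,false,[0,1],[1,1,-1],[],(⟨0,[]⟩,⟨0,[]⟩),(⟨0,[(31,0),(3,0)]⟩,⟨4,[(6,2),(0,
  0),(0,2),(5,0),(0,0),(2,2)]⟩),⟨0,[]⟩,.k,.k,.k,.k,.k,.k,⟨true,1,⟨8,[(0,3),(5,2),(4,0),(3,3),(4,0),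
  (0,0),(4,3),(12,3)]⟩,⟨0,[(10,0)]⟩⟩,⟨false,1,⟨3,[(15,1),(17,0),(5,2)]⟩,⟨12,[(0,5),(6,1),(8,2),(2,
  4),(7,2)]⟩⟩,⟨false,1,⟨7,[(6,3),(13,0),(0,0),(18,1)]⟩,⟨10,[(7,0),(2,3),(0,1),(1,1),(1,0),(4,1),(0,
  1)]⟩⟩,⟨true,0,⟨0,[(1,0)]⟩,⟨0,[(0,0),(36,0)]⟩⟩,⟨false,1,⟨1,[(39,0),(0,0)]⟩,⟨1,[(28,0),(0,0)]⟩⟩,
  ⟨false,1,⟨0,[(9,0),(30,0)]⟩,⟨0,[(0,0)]⟩⟩,[.a ⟨true,0,⟨2,[(2,0),(2,0),(1,1),(7,0),(0,0)]⟩,⟨0,[(0,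
  0)]⟩⟩ ⟨false,1,⟨3,[(20,0),(0,0),(17,1)]⟩,⟨0,[]⟩⟩ ⟨true,0,⟨9,[(9,5),(0,3),(4,1),(17,0),(6,2)]⟩,⟨0,
  [(0,0)]⟩⟩,.o ⟨false,1,⟨0,[(9,0),(30,0)]⟩,⟨2,[(0,0),(2,0),(22,2)]⟩⟩,.o ⟨false,1,⟨3,[(20,0),(0,0),
  (17,1)]⟩,⟨2,[(3,0),(6,0),(0,0),(14,0),(6,0)]⟩⟩,.e ⟨false,1,⟨1,[(39,0),(0,0)]⟩,⟨1,[(28,0),(0,0)]⟩⟩
  ⟨false,1,⟨0,[(9,0),(30,0)]⟩,⟨0,[(0,0)]⟩⟩]⟩) (.Q [0,0,-2,0,1,0,-1,0,0,0,1] (.p true [0,0,1] [] (⟨0,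
  [(32,0)]⟩,⟨0,[(31,0)]⟩) .k 0 (⟨0,[]⟩,⟨0,[]⟩) .k .k) (.I [0,0,2,2,-1,0,0,-1] (.K ⟨0,[1,1,-1],1,0,
  (⟨0,[(33,0),(3,0)]⟩,⟨1,[(1,0),(8,0),(23,0)]⟩),.k,.k,(.r 1 ⟨0,[(0,0)]⟩ ⟨2,[(1,0),(6,2),(13,0),(0,
  0),(4,2),(2,1)]⟩),.k,.k,[⟨0,[(10,0),(22,0),(3,1)]⟩,⟨0,[(1,0)]⟩,⟨0,[(24,0),(0,0),(2,0),(11,0)]⟩,⟨0,
  [(11,0)]⟩]⟩) (.I [0,0,2,0,-1,-2,1] (.K ⟨0,[1,1,-1],1,0,(⟨0,[(34,0),(3,0)]⟩,⟨1,[(0,0),(1,0),(32,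
  0)]⟩),.k,.k,(.x (-2) ⟨3,[(2,3),(20,0),(0,0),(9,3),(1,1),(1,7)]⟩ ⟨0,[(0,0)]⟩),.k,.k,[⟨0,[(0,0),(33,
  0),(3,1)]⟩,⟨0,[(2,0)]⟩,⟨0,[(25,0),(0,0),(2,0),(11,0)]⟩,⟨0,[(12,0)]⟩]⟩) (.I [0,0,-2,-2,1,0,0,1]
  (.K ⟨0,[1,1,-1],1,0,(⟨0,[(35,0),(3,0)]⟩,⟨1,[(3,0),(8,0),(23,0)]⟩),.k,.k,(.r 0 ⟨11,[(11,3),(2,11),
  (9,4),(0,4),(11,1)]⟩ ⟨0,[(0,0)]⟩),.k,.k,[⟨0,[(12,0),(22,0),(3,1)]⟩,⟨0,[(3,0)]⟩,⟨0,[(26,0),(0,0),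
  (2,0),(11,0)]⟩,⟨0,[(13,0)]⟩]⟩) (.Q [0,0,-1,0,0,0,1,1,-1,0,-1,1] (.p false [0,0,1] [0,0,0,1] (⟨0,
  [(36,0)]⟩,⟨0,[(35,0)]⟩) .k 2 (⟨0,[(27,0)]⟩,⟨0,[(26,0)]⟩) .k (.x (-1) ⟨19,[(12,3),(5,7),(5,6),(0,
  6),(17,9)]⟩ ⟨3,[(8,1),(23,0),(0,0),(5,1)]⟩)) (.I [0,1,1,1,-1,0,0,0,-1] (.Q [0,0,0,0,0,-1,0,0,0,0,
  0,1] (.ed false [1,-1,0,1] .k) (.R ⟨1,false,false,true,[0,0,0,1],[0,1],[1,0,0,0,0,0,0,0,1],(⟨0,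
  [(30,0)]⟩,⟨0,[(29,0)]⟩),(⟨0,[(42,0)]⟩,⟨0,[(41,0)]⟩),⟨0,[(0,0)]⟩,.k,.k,(.r (-1) ⟨23,[(5,3),(6,3),
  (0,3),(13,0),(0,12),(17,1)]⟩ ⟨13,[(1,1),(1,3),(14,2),(1,0),(6,5),(8,0)]⟩),(.r (-1) ⟨23,[(5,3),(6,
  3),(0,3),(13,0),(0,12),(17,1)]⟩ ⟨13,[(1,1),(1,3),(14,2),(1,0),(6,5),(8,0)]⟩),(.r (-2) ⟨5,[(5,1),
  (6,1),(0,1),(13,1),(0,4),(17,0)]⟩ ⟨22,[(1,18),(1,6),(10,1),(3,6),(8,1),(12,0),(2,5)]⟩),.k,⟨false,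
  2,⟨7,[(13,3),(13,0),(0,4),(17,3),(0,1)]⟩,⟨0,[(1,0)]⟩⟩,⟨true,1,⟨0,[(30,0),(15,0)]⟩,⟨0,[(10,0),(6,
  0),(0,0),(10,0),(3,0)]⟩⟩,⟨true,0,⟨0,[]⟩,⟨0,[(49,0)]⟩⟩,⟨false,0,⟨6,[(1,2),(0,3),(3,2),(0,0),(6,0),
  (8,2),(6,2)]⟩,⟨11,[(5,2),(4,2),(17,5),(0,11),(2,4),(2,7),(4,1),(2,4),(3,0)]⟩⟩,⟨false,1,⟨5,[(14,1),
  (12,0),(0,0),(11,0),(6,2)]⟩,⟨0,[(45,0)]⟩⟩,⟨false,0,⟨6,[(1,1),(0,4),(3,1),(0,2),(6,2),(8,1),(6,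
  1)]⟩,⟨1,[(5,0),(4,0),(17,0),(0,1),(2,0),(2,1),(7,0)]⟩⟩,[.o ⟨false,0,⟨0,[(44,0)]⟩,⟨11,[(5,2),(4,2),
  (21,0),(2,3),(4,3),(2,0),(3,4)]⟩⟩,.a ⟨true,0,⟨2,[(14,0),(14,1),(0,1)]⟩,⟨0,[(45,0)]⟩⟩ ⟨true,1,⟨1,
  [(28,0),(18,0)]⟩,⟨0,[(1,0),(43,0)]⟩⟩ ⟨false,1,⟨7,[(2,1),(4,1),(6,1),(13,0),(1,5),(15,6)]⟩,⟨12,
  [(10,6),(6,0),(11,12),(2,3),(0,7),(1,2),(4,0),(2,3)]⟩⟩,.o ⟨false,0,⟨2,[(10,0),(6,0),(0,0),(10,2),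
  (3,0),(6,0)]⟩,⟨1,[(30,1),(9,0),(5,0)]⟩⟩,.o ⟨false,0,⟨0,[(29,0),(2,0),(2,0)]⟩,⟨1,[(2,1),(4,0),(1,
  0),(18,0),(17,0)]⟩⟩]⟩) (.R ⟨0,false,false,true,[0,0,0,1],[0,1],[1,0,0,0,0,0,0,0,1],(⟨0,[(30,0)]⟩,
  ⟨0,[(29,0)]⟩),(⟨0,[(42,0)]⟩,⟨0,[(41,0)]⟩),⟨0,[(0,0)]⟩,.k,.k,(.r (-1) ⟨23,[(5,3),(6,3),(0,3),(13,
  0),(0,12),(17,1)]⟩ ⟨13,[(1,1),(1,3),(14,2),(1,0),(6,5),(8,0)]⟩),(.r (-1) ⟨23,[(5,3),(6,3),(0,3),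
  (13,0),(0,12),(17,1)]⟩ ⟨13,[(1,1),(1,3),(14,2),(1,0),(6,5),(8,0)]⟩),.k,.k,⟨false,2,⟨7,[(13,3),(13,
  0),(0,4),(17,3),(0,1)]⟩,⟨0,[(1,0)]⟩⟩,⟨true,1,⟨0,[(30,0),(15,0)]⟩,⟨9,[(0,9),(10,1),(3,3),(1,5),(0,
  2),(14,2),(1,0),(0,3),(8,8)]⟩⟩,⟨true,0,⟨0,[]⟩,⟨0,[(49,0)]⟩⟩,⟨false,0,⟨6,[(1,2),(0,3),(3,2),(0,0),
  (6,0),(8,2),(6,2)]⟩,⟨11,[(5,2),(4,2),(17,5),(0,11),(2,4),(2,7),(4,1),(2,4),(3,0)]⟩⟩,⟨false,0,⟨0,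
  []⟩,⟨0,[]⟩⟩,⟨false,0,⟨0,[]⟩,⟨0,[]⟩⟩,[.o ⟨false,0,⟨0,[(44,0)]⟩,⟨11,[(5,2),(4,2),(21,0),(2,3),(4,3),
  (2,0),(3,4)]⟩⟩,.a ⟨true,0,⟨2,[(14,0),(14,1),(0,1)]⟩,⟨0,[(45,0)]⟩⟩ ⟨true,1,⟨1,[(28,0),(18,0)]⟩,⟨0,
  [(1,0),(43,0)]⟩⟩ ⟨false,1,⟨7,[(2,1),(4,1),(6,1),(13,0),(1,5),(15,6)]⟩,⟨7,[(0,4),(4,1),(4,1),(0,0),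
  (3,1),(6,0),(6,2),(5,4),(0,0)]⟩⟩,.o ⟨false,0,⟨12,[(0,4),(10,0),(3,1),(13,7),(2,3),(2,3),(4,1)]⟩,
  ⟨1,[(30,1),(9,0),(5,0)]⟩⟩,.o ⟨false,0,⟨0,[(29,0),(2,0),(2,0)]⟩,⟨1,[(2,1),(4,0),(1,0),(18,0),(17,
  0)]⟩⟩]⟩)) (.Q [0,0,0,0,0,-1,0,0,0,1,0,-1] (.ed true [0,1,0,1] .k) (.R ⟨1,false,false,false,[1,0,0,
  -1],[0,-1,1],[1,0,0,0,0,0,0,0,-1],(⟨0,[(29,0)]⟩,⟨0,[(30,0)]⟩),(⟨1,[(6,0),(8,0),(23,0)]⟩,⟨0,[(38,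
  0),(3,0)]⟩),⟨0,[(0,0)]⟩,.k,.k,(.x (-1) ⟨15,[(6,3),(8,3),(3,3),(7,6),(0,6),(11,1)]⟩ ⟨0,[(42,0)]⟩),
  (.r 1 ⟨1,[(2,1),(4,0),(1,0),(7,1),(11,1)]⟩ ⟨11,[(5,7),(12,1),(1,1),(6,4),(0,10),(7,1)]⟩),.k,.k,
  ⟨true,(-1),⟨1,[(2,1),(4,0),(1,0),(7,1),(11,1)]⟩,⟨3,[(5,1),(12,0),(9,1),(4,0),(1,0),(0,1),(8,0)]⟩⟩,
  ⟨false,0,⟨0,[(29,0),(5,0)]⟩,⟨1,[(1,0),(0,0),(2,0),(1,1),(17,0),(4,0)]⟩⟩,⟨true,0,⟨0,[]⟩,⟨0,[(49,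
  0)]⟩⟩,⟨false,1,⟨7,[(5,3),(12,3),(9,3),(0,7),(5,8),(0,0),(6,1),(1,3)]⟩,⟨0,[(2,0),(6,1),(4,0)]⟩⟩,
  ⟨false,1,⟨5,[(14,1),(12,0),(0,0),(11,0),(6,2)]⟩,⟨0,[(45,0)]⟩⟩,⟨false,1,⟨5,[(5,1),(12,3),(9,2),(0,
  5),(5,5),(11,0)]⟩,⟨2,[(2,2),(6,3),(2,0),(1,1),(7,0),(0,0)]⟩⟩,[.o ⟨false,1,⟨9,[(5,5),(12,1),(8,1),
  (0,1),(4,1),(1,8),(0,0)]⟩,⟨0,[(7,0)]⟩⟩,.o ⟨false,1,⟨2,[(5,1),(12,0),(16,2),(11,0)]⟩,⟨0,[(16,0)]⟩⟩,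
  .o ⟨false,1,⟨1,[(30,1),(9,0),(5,0)]⟩,⟨2,[(10,0),(6,0),(0,0),(10,2),(3,0),(6,0)]⟩⟩,.a ⟨true,0,⟨0,
  [(30,0)]⟩,⟨0,[(29,0)]⟩⟩ ⟨true,0,⟨1,[(2,1),(4,0),(1,0),(19,1)]⟩,⟨3,[(12,0),(2,0),(1,0),(4,0),(2,0),
  (2,1),(4,1),(4,0),(3,1)]⟩⟩ ⟨false,1,⟨2,[(5,1),(12,0),(10,2),(5,2),(11,0)]⟩,⟨0,[(7,0),(22,0)]⟩⟩]⟩)
  (.R ⟨0,false,false,true,[1,0,0,-1],[0,1],[1,1],(⟨0,[(29,0)]⟩,⟨0,[(30,0)]⟩),(⟨0,[(42,0)]⟩,⟨0,[(41,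
  0)]⟩),⟨0,[(0,0)]⟩,.k,.k,(.x (-1) ⟨15,[(6,3),(8,3),(3,3),(7,6),(0,6),(11,1)]⟩ ⟨0,[(42,0)]⟩),(.x
  (-1) ⟨15,[(6,3),(8,3),(3,3),(7,6),(0,6),(11,1)]⟩ ⟨0,[(42,0)]⟩),.k,.k,⟨false,1,⟨23,[(5,3),(6,3),(0,
  3),(13,0),(0,0),(17,13)]⟩,⟨5,[(3,1),(14,0),(1,0),(6,0),(0,0),(7,0)]⟩⟩,⟨true,0,⟨0,[(29,0)]⟩,⟨12,
  [(0,4),(10,0),(3,1),(14,7),(1,3),(2,3),(4,1)]⟩⟩,⟨false,1,⟨3,[(27,0),(0,2)]⟩,⟨9,[(2,7),(4,2),(1,3),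
  (7,0),(9,0),(1,7),(2,0),(10,4)]⟩⟩,⟨true,0,⟨1,[(17,0),(7,0),(2,0),(0,1),(3,0)]⟩,⟨0,[(2,0),(6,0)]⟩⟩,
  ⟨false,0,⟨0,[]⟩,⟨0,[]⟩⟩,⟨false,0,⟨0,[]⟩,⟨0,[]⟩⟩,[.o ⟨false,0,⟨0,[(44,0)]⟩,⟨11,[(5,2),(4,2),(21,0),
  (2,3),(4,3),(2,0),(3,4)]⟩⟩,.e ⟨true,0,⟨0,[]⟩,⟨1,[(35,0),(0,0)]⟩⟩ ⟨true,0,⟨5,[(3,1),(14,0),(1,0),
  (6,0),(0,0),(0,5),(6,0)]⟩,⟨3,[(0,3),(4,0),(4,0),(4,0),(3,0)]⟩⟩,.o ⟨false,1,⟨1,[(30,1),(9,0),(5,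
  0)]⟩,⟨2,[(10,0),(6,0),(0,0),(10,2),(3,0),(6,0)]⟩⟩,.a ⟨true,0,⟨0,[(30,0)]⟩,⟨0,[(29,0)]⟩⟩ ⟨false,1,
  ⟨3,[(27,0),(0,0),(17,1)]⟩,⟨3,[(35,0),(0,0),(6,1)]⟩⟩ ⟨true,0,⟨0,[(29,0),(14,0)]⟩,⟨3,[(0,3),(4,0),
  (4,0),(4,0),(3,0)]⟩⟩]⟩))) (.Q [0,1,-1,0,0,0,0,0,-1,0,0,1] (.p true [0,0,0,1] [] (⟨0,[(28,0)]⟩,⟨0,
  [(27,0)]⟩) .k 0 (⟨0,[]⟩,⟨0,[]⟩) .k .k) (.K ⟨0,[0,0,0,1],0,0,(⟨0,[(29,0)]⟩,⟨0,[(28,0)]⟩),.k,(.r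
  (-1) ⟨23,[(4,3),(6,3),(0,3),(13,0),(0,12),(17,1)]⟩ ⟨9,[(0,1),(5,0),(1,0),(7,3),(0,3),(1,1),(6,3),
  (1,1)]⟩),(.x 0 ⟨0,[(41,0)]⟩ ⟨15,[(5,3),(8,3),(3,3),(7,6),(0,6),(11,1)]⟩),.k,.k,[⟨0,[(29,0)]⟩,⟨0,
  [(28,0)]⟩,⟨0,[(0,0)]⟩,⟨0,[(1,0),(30,0)]⟩]⟩) (.I [0,0,1,0,0,0,0,0,-1] (.I [0,0,1,1,0,0,0,1,1] (.Q
  [0,0,0,0,0,-1,0,0,0,1,0,-1] (.ed true [0,1,0,1] .k) (.R ⟨1,false,false,true,[1,0,0,-1],[0,1,1],[1,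
  1,0,0,0,0,0,0,-1],(⟨0,[(31,0)]⟩,⟨0,[(32,0)]⟩),(⟨0,[(41,0),(2,0)]⟩,⟨0,[(26,0)]⟩),⟨0,[(0,0)]⟩,.k,.k,
  (.x (-1) ⟨15,[(8,3),(8,3),(3,3),(7,6),(0,6),(11,1)]⟩ ⟨0,[(44,0)]⟩),(.r (-1) ⟨3,[(14,1),(14,1),(9,
  1),(8,0),(0,0)]⟩ ⟨0,[(1,0)]⟩),(.r (-1) ⟨18,[(2,18),(3,5),(0,1),(1,9),(4,10),(0,10),(5,9),(1,7)]⟩
  ⟨11,[(1,15),(3,3),(23,2),(0,0)]⟩),.k,⟨false,1,⟨18,[(2,18),(3,8),(0,2),(1,14),(4,6),(0,6),(5,14),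
  (1,11)]⟩,⟨0,[(1,0)]⟩⟩,⟨true,0,⟨0,[(25,0),(5,0),(3,0)]⟩,⟨0,[(32,0),(1,0)]⟩⟩,⟨false,0,⟨0,[]⟩,⟨3,
  [(29,0),(0,0),(18,1)]⟩⟩,⟨false,0,⟨2,[(1,1),(1,0),(18,0),(5,0),(2,1)]⟩,⟨0,[(2,0),(6,0),(5,0),(16,
  0)]⟩⟩,⟨true,0,⟨0,[(46,0)]⟩,⟨0,[(47,0)]⟩⟩,⟨false,0,⟨8,[(1,3),(1,4),(12,2),(5,4),(5,1),(2,3)]⟩,⟨1,
  [(2,1),(6,0),(1,0),(3,1),(16,1)]⟩⟩,[.o ⟨false,0,⟨0,[(22,0)]⟩,⟨3,[(11,3),(17,0),(0,0),(18,1)]⟩⟩,.o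
  ⟨false,1,⟨3,[(22,3),(6,0),(0,0),(18,1)]⟩,⟨0,[(11,0)]⟩⟩,.o ⟨false,1,⟨1,[(32,1),(9,0),(5,0)]⟩,⟨1,
  [(2,0),(0,0),(7,0),(10,0),(8,0)]⟩⟩,.a ⟨true,0,⟨0,[(32,0)]⟩,⟨0,[(31,0)]⟩⟩ ⟨false,1,⟨1,[(29,0),(18,
  0)]⟩,⟨0,[(3,0),(28,0)]⟩⟩ ⟨true,0,⟨0,[(22,0),(8,0)]⟩,⟨0,[(11,0),(20,0)]⟩⟩]⟩) (.R ⟨0,false,false,
  true,[1,0,0,-1],[0,1,1],[0,1,0,0,0,0,0,0,-1],(⟨0,[(31,0)]⟩,⟨0,[(32,0)]⟩),(⟨0,[(41,0),(2,0)]⟩,⟨0,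
  [(26,0)]⟩),⟨0,[(0,0)]⟩,.k,.k,(.x (-1) ⟨15,[(8,3),(8,3),(3,3),(7,6),(0,6),(11,1)]⟩ ⟨0,[(44,0)]⟩),
  (.r (-1) ⟨3,[(14,1),(14,1),(9,1),(8,0),(0,0)]⟩ ⟨0,[(1,0)]⟩),.k,.k,⟨false,1,⟨18,[(2,18),(3,8),(0,
  2),(1,14),(4,6),(0,6),(5,14),(1,11)]⟩,⟨0,[(1,0)]⟩⟩,⟨true,0,⟨0,[(25,0),(5,0),(3,0)]⟩,⟨0,[(32,0),(1,
  0)]⟩⟩,⟨true,0,⟨0,[(51,0)]⟩,⟨0,[]⟩⟩,⟨false,0,⟨2,[(1,1),(1,0),(18,0),(5,0),(2,1)]⟩,⟨0,[(2,0),(6,0),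
  (5,0),(16,0)]⟩⟩,⟨false,0,⟨0,[]⟩,⟨0,[]⟩⟩,⟨false,0,⟨0,[]⟩,⟨0,[]⟩⟩,[.o ⟨false,0,⟨0,[(22,0)]⟩,⟨3,[(11,
  3),(17,0),(0,0),(18,1)]⟩⟩,.o ⟨false,1,⟨3,[(22,3),(6,0),(0,0),(18,1)]⟩,⟨0,[(11,0)]⟩⟩,.o ⟨false,1,
  ⟨1,[(32,1),(9,0),(5,0)]⟩,⟨1,[(2,0),(0,0),(7,0),(10,0),(8,0)]⟩⟩,.a ⟨true,0,⟨0,[(32,0)]⟩,⟨0,[(31,
  0)]⟩⟩ ⟨false,1,⟨1,[(29,0),(18,0)]⟩,⟨0,[(3,0),(28,0)]⟩⟩ ⟨true,0,⟨0,[(22,0),(8,0)]⟩,⟨0,[(11,0),(20,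
  0)]⟩⟩]⟩)) (.Q [0,0,0,0,0,-1,0,0,0,1,0,-1] (.ed true [0,1,0,1] .k) (.R ⟨1,false,false,true,[1,0,0,
  -1],[0,0,1],[1,0,0,0,0,0,0,0,-1],(⟨0,[(31,0)]⟩,⟨0,[(32,0)]⟩),(⟨0,[(41,0)]⟩,⟨0,[(40,0)]⟩),⟨0,[(0,
  0)]⟩,.k,.k,(.x (-1) ⟨15,[(8,3),(8,3),(3,3),(7,6),(0,6),(11,1)]⟩ ⟨0,[(44,0)]⟩),.k,(.x (-1) ⟨14,[(8,
  2),(4,4),(7,4),(2,0),(4,4),(0,4),(11,1)]⟩ ⟨3,[(23,1),(13,0),(0,0),(5,1)]⟩),.k,⟨true,0,⟨11,[(1,9),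
  (3,1),(10,1),(12,0),(12,0),(2,5)]⟩,⟨0,[(3,0),(23,0),(4,0),(2,0),(11,0)]⟩⟩,⟨false,0,⟨2,[(1,0),(1,
  0),(18,0),(5,0),(2,1)]⟩,⟨4,[(8,2),(15,0),(7,4),(9,1)]⟩⟩,⟨true,0,⟨0,[]⟩,⟨0,[(51,0)]⟩⟩,⟨false,0,⟨0,
  [(3,0),(27,0),(0,0),(2,0)]⟩,⟨7,[(1,1),(7,7),(5,3),(4,1),(8,2),(2,7),(16,0)]⟩⟩,⟨false,1,⟨5,[(16,1),
  (12,0),(0,0),(11,0),(6,2)]⟩,⟨0,[(47,0)]⟩⟩,⟨false,0,⟨2,[(3,2),(12,0),(14,1),(0,1),(2,2)]⟩,⟨5,[(1,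
  3),(7,1),(5,1),(8,1),(4,0),(2,5),(9,0),(6,1)]⟩⟩,[.o ⟨false,0,⟨0,[(35,0)]⟩,⟨3,[(9,0),(1,0),(24,1),
  (5,0),(6,2)]⟩⟩,.o ⟨false,1,⟨3,[(29,0),(0,0),(4,3),(13,1)]⟩,⟨0,[(10,0)]⟩⟩,.o ⟨false,1,⟨1,[(32,1),
  (9,0),(5,0)]⟩,⟨5,[(1,0),(0,0),(0,1),(15,0),(11,3),(2,1),(0,1),(6,0)]⟩⟩,.a ⟨true,0,⟨0,[(32,0)]⟩,⟨0,
  [(31,0)]⟩⟩ ⟨false,1,⟨3,[(1,1),(18,1),(8,0),(18,1),(0,0)]⟩,⟨1,[(3,0),(0,0),(27,1),(2,0)]⟩⟩ ⟨true,0,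
  ⟨0,[(31,0),(3,0)]⟩,⟨1,[(9,0),(1,0),(20,1)]⟩⟩]⟩) (.R ⟨0,false,false,false,[1,0,0,-1],[1,0,-1],[1,0,
  0,-1,0,0,0,0,-1],(⟨0,[(31,0)]⟩,⟨0,[(32,0)]⟩),(⟨0,[(40,0)]⟩,⟨0,[(41,0)]⟩),⟨0,[(0,0)]⟩,.k,.k,(.x
  (-1) ⟨15,[(8,3),(8,3),(3,3),(7,6),(0,6),(11,1)]⟩ ⟨0,[(44,0)]⟩),.k,.k,.k,⟨false,1,⟨6,[(1,0),(0,1),
  (4,4),(12,1),(1,0),(4,0),(1,1)]⟩,⟨9,[(0,8),(2,9),(5,2),(4,6),(1,5),(4,5),(1,2),(3,2),(4,0)]⟩⟩,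
  ⟨true,0,⟨0,[(31,0),(2,0)]⟩,⟨18,[(0,9),(16,0),(3,4),(1,1),(4,6),(3,8),(9,0)]⟩⟩,⟨true,0,⟨0,[(47,
  0)]⟩,⟨0,[(46,0)]⟩⟩,⟨false,0,⟨10,[(3,10),(2,0),(7,4),(1,2),(2,0),(4,4),(0,4),(15,0),(1,1)]⟩,⟨82,
  [(0,14),(0,8),(13,45),(0,2),(3,22),(0,9),(0,68),(0,4),(4,1),(0,36),(2,67)]⟩⟩,⟨false,0,⟨0,[]⟩,⟨0,
  []⟩⟩,⟨false,0,⟨0,[]⟩,⟨0,[]⟩⟩,[.o ⟨false,0,⟨0,[(10,0)]⟩,⟨3,[(29,0),(0,0),(4,3),(13,1)]⟩⟩,.o ⟨false,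
  1,⟨3,[(9,0),(1,0),(24,1),(5,0),(6,2)]⟩,⟨0,[(35,0)]⟩⟩,.o ⟨false,1,⟨1,[(32,1),(9,0),(5,0)]⟩,⟨5,[(1,
  0),(0,0),(0,1),(15,0),(11,3),(2,1),(0,1),(6,0)]⟩⟩,.a ⟨true,0,⟨0,[(32,0)]⟩,⟨0,[(31,0)]⟩⟩ ⟨false,1,
  ⟨7,[(1,1),(13,3),(4,1),(8,2),(19,0)]⟩,⟨3,[(3,1),(1,0),(16,0),(4,0),(2,0),(1,1)]⟩⟩ ⟨true,0,⟨1,[(9,
  0),(1,0),(19,1)]⟩,⟨0,[(32,0),(2,0)]⟩⟩]⟩))) (.Q [0,0,0,0,0,-1,0,0,0,0,0,1] (.ed false [1,-1,0,1]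
  .k) (.R ⟨1,false,false,true,[0,0,0,1],[0,1],[1,0,0,0,0,0,0,0,1],(⟨0,[(31,0)]⟩,⟨0,[(30,0)]⟩),(⟨0,
  [(43,0)]⟩,⟨0,[(42,0)]⟩),⟨0,[(0,0)]⟩,.k,.k,(.r 0 ⟨0,[(1,0),(44,0)]⟩ ⟨11,[(4,3),(14,1),(1,1),(6,10),
  (0,4),(7,1)]⟩),(.r 0 ⟨0,[(1,0),(44,0)]⟩ ⟨11,[(4,3),(14,1),(1,1),(6,10),(0,4),(7,1)]⟩),(.r (-1) ⟨2,
  [(1,0),(4,0),(6,0),(0,0),(14,0)]⟩ ⟨11,[(4,7),(14,3),(1,3),(6,6),(0,0),(7,3)]⟩),.k,⟨false,1,⟨7,[(1,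
  5),(12,3),(14,0),(17,0),(0,1)]⟩,⟨1,[(18,0),(7,0),(1,0),(5,0)]⟩⟩,⟨true,1,⟨0,[(31,0),(15,0)]⟩,⟨0,
  [(11,0),(6,0),(0,0),(10,0),(3,0)]⟩⟩,⟨true,0,⟨0,[]⟩,⟨0,[(50,0)]⟩⟩,⟨false,1,⟨69,[(0,69),(4,27),(2,
  7),(6,17),(5,7),(0,13),(5,34),(12,4),(2,3),(2,1)]⟩,⟨0,[(2,0),(43,0)]⟩⟩,⟨false,1,⟨5,[(15,1),(12,0),
  (0,0),(11,0),(6,2)]⟩,⟨0,[(46,0)]⟩⟩,⟨false,1,⟨9,[(0,9),(4,3),(2,3),(6,3),(5,3),(0,1),(5,4),(15,1),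
  (2,0)]⟩,⟨0,[(2,0),(43,1)]⟩⟩,[.o ⟨false,0,⟨0,[(45,0)]⟩,⟨11,[(6,2),(4,2),(21,0),(2,3),(4,3),(2,0),
  (3,4)]⟩⟩,.a ⟨true,0,⟨2,[(15,0),(14,1),(0,1)]⟩,⟨0,[(46,0)]⟩⟩ ⟨true,0,⟨2,[(1,1),(0,0),(28,0),(12,
  0)]⟩,⟨3,[(13,0),(2,0),(1,0),(4,0),(2,0),(1,1),(5,1),(4,0),(3,1)]⟩⟩ ⟨false,1,⟨69,[(0,69),(4,27),(2,
  7),(6,17),(5,7),(0,13),(18,4),(2,3),(2,36)]⟩,⟨8,[(2,1),(8,4),(6,0),(9,0),(1,6),(2,1),(0,5),(1,0),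
  (7,1)]⟩⟩,.o ⟨false,0,⟨2,[(11,0),(6,0),(0,0),(10,2),(3,0),(6,0)]⟩,⟨1,[(31,1),(9,0),(5,0)]⟩⟩,.o
  ⟨false,0,⟨0,[(30,0),(2,0),(2,0)]⟩,⟨0,[(8,0),(5,0),(6,0),(9,0)]⟩⟩]⟩) (.R ⟨0,false,false,true,[0,0,
  0,1],[0,1],[0,1,1,1],(⟨0,[(31,0)]⟩,⟨0,[(30,0)]⟩),(⟨0,[(43,0)]⟩,⟨0,[(42,0)]⟩),⟨0,[(0,0)]⟩,.k,.k,
  (.r 0 ⟨0,[(1,0),(44,0)]⟩ ⟨11,[(4,3),(14,1),(1,1),(6,10),(0,4),(7,1)]⟩),(.r 0 ⟨0,[(1,0),(44,0)]⟩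
  ⟨11,[(4,3),(14,1),(1,1),(6,10),(0,4),(7,1)]⟩),.k,.k,⟨false,1,⟨3,[(28,0),(0,0),(17,1)]⟩,⟨0,[]⟩⟩,
  ⟨true,1,⟨0,[(31,0),(15,0)]⟩,⟨9,[(0,9),(11,1),(3,3),(1,5),(0,2),(14,2),(1,0),(0,3),(8,8)]⟩⟩,⟨true,
  0,⟨1,[(18,0),(7,0),(1,0),(5,0)]⟩,⟨0,[(1,0),(44,0)]⟩⟩,⟨false,1,⟨5,[(8,1),(5,1),(0,1),(5,1),(6,2),
  (2,5),(15,0)]⟩,⟨0,[(2,0),(43,0)]⟩⟩,⟨false,0,⟨0,[]⟩,⟨0,[]⟩⟩,⟨false,0,⟨0,[]⟩,⟨0,[]⟩⟩,[.o ⟨false,0,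
  ⟨0,[(45,0)]⟩,⟨11,[(6,2),(4,2),(21,0),(2,3),(4,3),(2,0),(3,4)]⟩⟩,.a ⟨true,0,⟨2,[(15,0),(14,1),(0,
  1)]⟩,⟨0,[(46,0)]⟩⟩ ⟨true,0,⟨5,[(4,1),(14,0),(1,0),(6,0),(0,0),(7,0)]⟩,⟨0,[(46,0)]⟩⟩ ⟨false,1,⟨2,
  [(8,0),(5,0),(0,0),(5,0),(9,2),(15,1)]⟩,⟨23,[(0,14),(1,1),(3,4),(4,6),(0,2),(3,5),(11,0),(1,6),(3,
  1),(1,10),(0,5)]⟩⟩,.o ⟨false,0,⟨8,[(0,4),(1,1),(0,1),(8,0),(3,1),(11,1),(5,1)]⟩,⟨1,[(31,1),(9,0),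
  (5,0)]⟩⟩,.o ⟨false,0,⟨17,[(0,4),(1,1),(0,1),(8,0),(3,1),(6,8),(4,1),(1,8),(3,1),(1,17)]⟩,⟨0,[(8,
  0),(5,0),(6,0),(9,0)]⟩⟩]⟩)))))))) (.Q [0,1,1,0,-1,0,0,0,1,0,0,-1] (.p false [0,0,0,1] [] (⟨0,[(24,
  0)]⟩,⟨0,[(23,0)]⟩) .k 0 (⟨0,[]⟩,⟨0,[]⟩) .k .k) (.K ⟨0,[0,0,0,1],0,(-1),(⟨0,[(25,0)]⟩,⟨0,[(24,
  0)]⟩),.k,(.x 0 ⟨9,[(6,1),(3,3),(11,1),(0,1),(6,4),(0,4)]⟩ ⟨0,[(37,0),(3,0)]⟩),(.x 0 ⟨0,[(37,0)]⟩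
  ⟨15,[(10,3),(3,3),(2,1),(4,6),(0,6),(11,0),(5,4)]⟩),.k,.k,[⟨0,[(25,0)]⟩,⟨0,[(24,0)]⟩,⟨1,[(22,0),
  (2,1),(15,0),(2,1)]⟩,⟨0,[(0,0)]⟩]⟩) (.I [0,0,1,1,0,0,0,0,-1] (.Q [0,1,-1,0,0,0,0,0,-1,0,0,1] (.p
  true [0,0,0,1] [] (⟨0,[(26,0)]⟩,⟨0,[(25,0)]⟩) .k 0 (⟨0,[]⟩,⟨0,[]⟩) .k .k) (.Q [0,1,1,0,0,0,0,0,1,
  0,0,-1] (.p false [0,0,0,1] [] (⟨0,[(27,0)]⟩,⟨0,[(26,0)]⟩) .k 0 (⟨0,[]⟩,⟨0,[]⟩) .k .k) (.K ⟨0,[0,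
  0,0,1],0,0,(⟨0,[(28,0)]⟩,⟨0,[(27,0)]⟩),.k,(.r (-1) ⟨27,[(10,3),(0,11),(11,3),(1,0),(0,14),(4,3)]⟩
  ⟨0,[(2,0)]⟩),(.x 0 ⟨0,[(40,0)]⟩ ⟨15,[(13,3),(3,3),(2,1),(4,6),(0,6),(11,0),(5,4)]⟩),.k,.k,[⟨0,
  [(28,0)]⟩,⟨0,[(27,0)]⟩,⟨0,[(1,0)]⟩,⟨0,[(0,0)]⟩]⟩) (.R ⟨1,false,false,true,[0,0,0,1],[0,1],[1,0,0,
  0,0,0,0,0,1],(⟨0,[(28,0)]⟩,⟨0,[(27,0)]⟩),(⟨0,[(40,0)]⟩,⟨0,[(39,0)]⟩),⟨7,[(0,3),(6,0),(2,0),(2,1),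
  (3,1),(0,1),(1,0),(2,0),(2,1),(1,3)]⟩,.k,.k,(.r (-1) ⟨27,[(10,3),(0,11),(11,3),(1,0),(0,14),(4,
  3)]⟩ ⟨0,[(2,0)]⟩),(.r (-1) ⟨27,[(10,3),(0,11),(11,3),(1,0),(0,14),(4,3)]⟩ ⟨0,[(2,0)]⟩),(.r (-2)
  ⟨27,[(10,7),(0,23),(11,7),(1,8),(0,22),(4,7)]⟩ ⟨16,[(0,12),(1,3),(1,6),(0,4),(9,9),(0,0),(1,13),
  (1,7),(6,12)]⟩),.k,⟨false,2,⟨7,[(11,3),(13,0),(0,4),(17,3),(0,1)]⟩,⟨0,[(0,0),(3,0),(2,0),(10,0),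
  (4,0),(3,0)]⟩⟩,⟨true,1,⟨1,[(0,0),(0,0),(24,0),(17,0)]⟩,⟨0,[(4,0),(22,0),(2,0)]⟩⟩,⟨true,0,⟨0,[]⟩,
  ⟨0,[(47,0)]⟩⟩,⟨false,0,⟨4,[(0,2),(0,1),(3,0),(6,0),(5,0)]⟩,⟨11,[(4,3),(3,5),(17,5),(0,11),(2,3),
  (0,5),(6,0),(6,8)]⟩⟩,⟨false,1,⟨5,[(12,1),(12,0),(0,0),(11,0),(6,2)]⟩,⟨0,[(43,0)]⟩⟩,⟨false,0,⟨9,
  [(0,6),(0,2),(3,3),(6,3),(5,3)]⟩,⟨5,[(4,1),(3,3),(17,2),(0,5),(2,1),(0,3),(11,3),(1,4)]⟩⟩,[.o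
  ⟨false,0,⟨0,[(42,0)]⟩,⟨3,[(8,1),(22,1),(6,0),(6,2)]⟩⟩,.a ⟨true,0,⟨2,[(12,0),(14,1),(0,1)]⟩,⟨0,
  [(43,0)]⟩⟩ ⟨true,1,⟨1,[(26,0),(18,0)]⟩,⟨1,[(0,1),(3,1),(2,0),(2,0),(7,1),(1,0),(2,0),(3,1)]⟩⟩
  ⟨false,1,⟨9,[(0,5),(0,3),(3,1),(6,1),(5,1),(7,4),(17,4)]⟩,⟨11,[(4,3),(3,5),(18,11),(2,3),(0,5),(6,
  0),(6,2)]⟩⟩,.o ⟨false,0,⟨2,[(4,0),(22,2),(2,0),(7,0)]⟩,⟨1,[(0,0),(0,0),(24,0),(11,0)]⟩⟩,.o ⟨false,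
  0,⟨0,[(27,0),(2,0),(2,0)]⟩,⟨1,[(0,1),(6,1),(10,1),(7,0),(17,0)]⟩⟩]⟩)) (.I [1,0,0,0,0,0,0,0,1] (.Q
  [0,0,0,0,0,-1,0,0,0,1,0,-1] (.ed true [0,1,0,1] .k) (.I [0,0,-2,-2,1,0,0,-1,-1] (.R ⟨1,false,
  false,true,[1,0,0,-1],[0,1,1],[0,1,0,-1,0,0,0,0,-1],(⟨0,[(29,0)]⟩,⟨0,[(30,0)]⟩),(⟨0,[(39,0),(2,
  0)]⟩,⟨0,[(24,0)]⟩),⟨0,[(1,0)]⟩,.k,.k,(.x (-1) ⟨15,[(15,3),(3,3),(2,1),(4,6),(0,6),(11,0),(5,4)]⟩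
  ⟨0,[(42,0)]⟩),(.r (-1) ⟨7,[(0,3),(26,2),(0,0),(8,3)]⟩ ⟨8,[(2,6),(3,0),(11,5),(6,2),(2,0),(4,2),(2,
  0)]⟩),(.r (-1) ⟨0,[(0,0)]⟩ ⟨7,[(6,3),(7,1),(3,4),(1,2),(1,1),(2,1),(2,3),(7,0)]⟩),.k,⟨false,1,⟨0,
  [(0,0)]⟩,⟨10,[(2,8),(11,2),(2,0),(0,5),(1,5),(1,2),(5,0)]⟩⟩,⟨true,0,⟨2,[(6,0),(0,0),(5,0),(6,0),
  (5,0),(2,2)]⟩,⟨0,[(30,0),(1,0)]⟩⟩,⟨false,0,⟨0,[(45,0)]⟩,⟨5,[(14,1),(12,0),(0,0),(11,0),(6,2)]⟩⟩,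
  ⟨false,0,⟨8,[(2,3),(0,0),(2,1),(11,3),(1,4),(5,0),(1,1),(0,7)]⟩,⟨0,[(5,0),(3,0)]⟩⟩,⟨true,0,⟨0,
  [(49,0)]⟩,⟨0,[]⟩⟩,⟨false,0,⟨26,[(2,7),(0,10),(2,3),(7,8),(3,7),(1,18),(5,1),(1,3),(0,15)]⟩,⟨0,[(5,
  0),(4,0)]⟩⟩,[.o ⟨false,0,⟨0,[(20,0)]⟩,⟨3,[(9,3),(17,0),(0,0),(18,1)]⟩⟩,.o ⟨false,1,⟨3,[(20,3),(6,
  0),(0,0),(18,1)]⟩,⟨0,[(9,0)]⟩⟩,.o ⟨false,1,⟨1,[(30,1),(9,0),(5,0)]⟩,⟨2,[(6,0),(22,2),(2,0),(7,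
  0)]⟩⟩,.a ⟨true,0,⟨0,[(30,0)]⟩,⟨0,[(29,0)]⟩⟩ ⟨false,1,⟨27,[(12,3),(0,11),(11,3),(1,14),(0,0),(4,
  3)]⟩,⟨9,[(2,7),(11,1),(2,1),(0,1),(9,0),(11,0),(2,3)]⟩⟩ ⟨true,0,⟨0,[(20,0),(8,0)]⟩,⟨0,[(9,0),(20,
  0)]⟩⟩]⟩) (.R ⟨1,false,false,false,[1,0,0,-1],[1,0,-1],[0,1,0,-1,0,0,0,0,-1],(⟨0,[(29,0)]⟩,⟨0,[(30,
  0)]⟩),(⟨0,[(38,0)]⟩,⟨0,[(39,0)]⟩),⟨0,[(1,0)]⟩,.k,.k,(.x (-1) ⟨15,[(15,3),(3,3),(2,1),(4,6),(0,6),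
  (11,0),(5,4)]⟩ ⟨0,[(42,0)]⟩),.k,(.r (-2) ⟨43,[(13,35),(4,11),(6,15),(1,36),(0,14),(4,31),(2,15)]⟩
  ⟨3,[(0,3),(6,1),(4,2),(8,0),(1,2),(0,0),(13,0)]⟩),.k,⟨false,1,⟨0,[(4,0),(8,0),(11,0),(7,0),(11,
  0)]⟩,⟨8,[(0,1),(1,6),(4,1),(6,0),(8,8),(2,0),(19,1)]⟩⟩,⟨true,0,⟨0,[(29,0),(2,0)]⟩,⟨2,[(6,0),(0,0),
  (5,0),(6,0),(5,0),(3,2)]⟩⟩,⟨false,0,⟨0,[(45,0)]⟩,⟨5,[(14,1),(12,0),(0,0),(11,0),(6,2)]⟩⟩,⟨false,0,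
  ⟨2,[(2,0),(0,1),(18,0),(0,1),(5,0),(4,0)]⟩,⟨0,[(5,0),(27,0)]⟩⟩,⟨true,0,⟨0,[(49,0)]⟩,⟨0,[]⟩⟩,
  ⟨false,0,⟨3,[(2,0),(0,2),(3,0),(6,0),(7,0),(0,1),(5,0),(4,0)]⟩,⟨0,[(5,0),(27,0),(11,0)]⟩⟩,[.o
  ⟨false,0,⟨0,[(8,0)]⟩,⟨3,[(27,0),(0,0),(4,3),(13,1)]⟩⟩,.o ⟨false,1,⟨3,[(7,0),(1,0),(24,1),(5,0),(6,
  2)]⟩,⟨0,[(33,0)]⟩⟩,.o ⟨false,1,⟨1,[(30,1),(9,0),(5,0)]⟩,⟨2,[(6,0),(22,2),(2,0),(7,0)]⟩⟩,.a ⟨true,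
  0,⟨0,[(30,0)]⟩,⟨0,[(29,0)]⟩⟩ ⟨false,1,⟨27,[(12,3),(0,11),(11,3),(1,14),(0,0),(4,3)]⟩,⟨3,[(0,1),
  (22,1),(4,0),(18,0)]⟩⟩ ⟨true,0,⟨1,[(7,0),(1,0),(19,1)]⟩,⟨0,[(30,0),(2,0)]⟩⟩]⟩)) (.R ⟨0,false,
  false,false,[1,0,0,-1],[1,0,-1],[0,1,0,0,0,0,0,0,-1],(⟨0,[(28,0)]⟩,⟨0,[(29,0)]⟩),(⟨0,[(37,0)]⟩,⟨0,
  [(38,0)]⟩),⟨0,[(0,0)]⟩,.k,.k,(.x (-1) ⟨15,[(14,3),(3,3),(2,1),(4,6),(0,6),(11,0),(5,4)]⟩ ⟨0,[(41,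
  0)]⟩),.k,.k,.k,⟨false,1,⟨0,[(3,0),(8,0),(11,0),(7,0)]⟩,⟨0,[(1,0),(20,0)]⟩⟩,⟨true,0,⟨0,[(28,0),(2,
  0)]⟩,⟨18,[(0,9),(13,0),(3,4),(1,1),(4,6),(3,8),(9,0)]⟩⟩,⟨true,0,⟨0,[(48,0)]⟩,⟨0,[]⟩⟩,⟨false,0,⟨2,
  [(1,0),(0,1),(18,0),(0,1),(5,0),(4,0)]⟩,⟨0,[(4,0),(27,0)]⟩⟩,⟨false,0,⟨0,[]⟩,⟨0,[]⟩⟩,⟨false,0,⟨0,
  []⟩,⟨0,[]⟩⟩,[.o ⟨false,0,⟨0,[(7,0)]⟩,⟨3,[(26,0),(0,0),(4,3),(13,1)]⟩⟩,.o ⟨false,1,⟨3,[(6,0),(1,0),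
  (24,1),(5,0),(6,2)]⟩,⟨0,[(32,0)]⟩⟩,.o ⟨false,1,⟨1,[(29,1),(9,0),(5,0)]⟩,⟨2,[(5,0),(22,2),(2,0),(7,
  0)]⟩⟩,.a ⟨true,0,⟨0,[(29,0)]⟩,⟨0,[(28,0)]⟩⟩ ⟨false,1,⟨1,[(26,0),(18,0)]⟩,⟨5,[(1,3),(3,0),(21,0),
  (7,0),(6,2)]⟩⟩ ⟨true,0,⟨1,[(6,0),(1,0),(19,1)]⟩,⟨0,[(29,0),(2,0)]⟩⟩]⟩)) (.Q [0,0,0,0,0,-1,0,0,0,1,
  0,-1] (.ed true [0,1,0,1] .k) (.R ⟨1,false,false,true,[1,0,0,-1],[0,0,1],[1,0,0,0,0,0,0,0,-1],(⟨0,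
  [(28,0)]⟩,⟨0,[(29,0)]⟩),(⟨0,[(38,0)]⟩,⟨0,[(37,0)]⟩),⟨0,[(0,0)]⟩,.k,.k,(.x (-1) ⟨15,[(14,3),(3,3),
  (2,1),(4,6),(0,6),(11,0),(5,4)]⟩ ⟨0,[(41,0)]⟩),.k,(.x (-1) ⟨11,[(10,3),(7,3),(2,1),(4,3),(0,3),
  (11,0),(5,2)]⟩ ⟨3,[(20,1),(13,0),(0,0),(5,1)]⟩),.k,⟨true,0,⟨0,[(1,0),(20,0)]⟩,⟨0,[(2,0),(21,0),(4,
  0),(2,0),(11,0)]⟩⟩,⟨false,0,⟨2,[(5,0),(0,0),(5,0),(6,0),(5,0),(2,2)]⟩,⟨3,[(21,1),(7,3),(9,0),(5,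
  2)]⟩⟩,⟨true,0,⟨0,[]⟩,⟨0,[(48,0)]⟩⟩,⟨false,0,⟨0,[(2,0),(25,0),(0,0),(2,0)]⟩,⟨1,[(4,1),(1,0),(1,
  0)]⟩⟩,⟨false,1,⟨5,[(13,1),(12,0),(0,0),(11,0),(6,2)]⟩,⟨0,[(44,0)]⟩⟩,⟨false,0,⟨2,[(2,2),(10,0),(14,
  1),(0,1),(2,2)]⟩,⟨0,[(4,0),(3,0)]⟩⟩,[.o ⟨false,0,⟨0,[(32,0)]⟩,⟨3,[(6,0),(1,0),(24,1),(5,0),(6,
  2)]⟩⟩,.o ⟨false,1,⟨3,[(26,0),(0,0),(4,3),(13,1)]⟩,⟨0,[(7,0)]⟩⟩,.o ⟨false,1,⟨1,[(29,1),(9,0),(5,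
  0)]⟩,⟨2,[(5,0),(22,2),(2,0),(7,0)]⟩⟩,.a ⟨true,0,⟨0,[(29,0)]⟩,⟨0,[(28,0)]⟩⟩ ⟨false,1,⟨1,[(1,1),(43,
  0),(0,0)]⟩,⟨2,[(2,0),(2,0),(18,0),(2,0),(1,0),(14,0)]⟩⟩ ⟨true,0,⟨0,[(28,0),(3,0)]⟩,⟨1,[(6,0),(1,
  0),(20,1)]⟩⟩]⟩) (.R ⟨0,false,false,true,[1,0,0,-1],[0,0,1],[1,0,0,0,0,0,0,0,-1],(⟨0,[(28,0)]⟩,⟨0,
  [(29,0)]⟩),(⟨0,[(38,0)]⟩,⟨0,[(37,0)]⟩),⟨0,[(0,0)]⟩,.k,.k,(.x (-1) ⟨15,[(14,3),(3,3),(2,1),(4,6),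
  (0,6),(11,0),(5,4)]⟩ ⟨0,[(41,0)]⟩),.k,.k,.k,⟨true,0,⟨0,[(1,0),(20,0)]⟩,⟨0,[(2,0),(21,0),(4,0),(2,
  0),(11,0)]⟩⟩,⟨false,0,⟨2,[(5,0),(0,0),(5,0),(6,0),(5,0),(2,2)]⟩,⟨3,[(21,1),(7,3),(9,0),(5,2)]⟩⟩,
  ⟨true,0,⟨0,[]⟩,⟨0,[(48,0)]⟩⟩,⟨false,0,⟨0,[(2,0),(25,0),(0,0),(2,0)]⟩,⟨1,[(4,1),(1,0),(1,0)]⟩⟩,
  ⟨false,0,⟨0,[]⟩,⟨0,[]⟩⟩,⟨false,0,⟨0,[]⟩,⟨0,[]⟩⟩,[.o ⟨false,0,⟨0,[(32,0)]⟩,⟨3,[(6,0),(1,0),(24,1),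
  (5,0),(6,2)]⟩⟩,.o ⟨false,1,⟨3,[(26,0),(0,0),(4,3),(13,1)]⟩,⟨0,[(7,0)]⟩⟩,.o ⟨false,1,⟨1,[(29,1),(9,
  0),(5,0)]⟩,⟨2,[(5,0),(22,2),(2,0),(7,0)]⟩⟩,.a ⟨true,0,⟨0,[(29,0)]⟩,⟨0,[(28,0)]⟩⟩ ⟨false,1,⟨1,[(1,
  1),(43,0),(0,0)]⟩,⟨2,[(2,0),(2,0),(18,0),(2,0),(1,0),(14,0)]⟩⟩ ⟨true,0,⟨0,[(28,0),(3,0)]⟩,⟨1,[(6,
  0),(1,0),(20,1)]⟩⟩]⟩)))) (.Q [0,0,0,0,0,-1,0,0,0,0,0,1] (.ed false [1,-1,0,1] .k) (.R ⟨1,false,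
  false,true,[0,0,0,1],[0,1],[1,0,0,0,0,0,0,0,1],(⟨0,[(27,0)]⟩,⟨0,[(26,0)]⟩),(⟨0,[(39,0)]⟩,⟨0,[(38,
  0)]⟩),⟨0,[(0,0)]⟩,.k,.k,(.x 0 ⟨9,[(8,1),(3,3),(11,1),(0,1),(6,4),(0,4)]⟩ ⟨0,[(39,0),(3,0)]⟩),(.x
  0 ⟨9,[(8,1),(3,3),(11,1),(0,1),(6,4),(0,4)]⟩ ⟨0,[(39,0),(3,0)]⟩),(.r (-1) ⟨12,[(1,4),(7,2),(0,8),
  (11,2),(2,3),(4,2)]⟩ ⟨43,[(11,7),(2,31),(0,15),(1,15),(1,7),(4,26),(0,4)]⟩),.k,⟨false,1,⟨1,[(1,1),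
  (41,0),(0,0)]⟩,⟨3,[(3,0),(10,0),(2,0),(4,1),(1,1),(21,0)]⟩⟩,⟨true,1,⟨0,[(27,0),(15,0)]⟩,⟨0,[(3,0),
  (22,0),(2,0)]⟩⟩,⟨true,0,⟨0,[]⟩,⟨0,[(46,0)]⟩⟩,⟨false,1,⟨0,[(2,0),(38,0)]⟩,⟨17,[(1,11),(1,7),(3,5),
  (7,5),(9,2),(0,17),(2,1),(7,4),(2,5)]⟩⟩,⟨false,1,⟨5,[(11,1),(12,0),(0,0),(11,0),(6,2)]⟩,⟨0,[(42,
  0)]⟩⟩,⟨false,1,⟨2,[(2,2),(8,0),(1,0),(3,0),(23,0)]⟩,⟨63,[(1,29),(1,45),(3,49),(2,21),(4,45),(9,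
  16),(0,63),(3,3),(6,6)]⟩⟩,[.o ⟨false,0,⟨0,[(41,0)]⟩,⟨3,[(7,1),(22,1),(6,0),(6,2)]⟩⟩,.a ⟨true,0,⟨2,
  [(11,0),(14,1),(0,1)]⟩,⟨0,[(42,0)]⟩⟩ ⟨true,0,⟨31,[(1,25),(1,3),(0,3),(6,5),(3,3),(9,2),(11,0),(2,
  13)]⟩,⟨3,[(3,1),(5,0),(12,1),(1,1),(5,0),(2,0)]⟩⟩ ⟨false,1,⟨3,[(1,0),(0,0),(1,0),(6,0),(5,0),(9,
  2),(15,2)]⟩,⟨11,[(3,3),(3,5),(18,11),(2,3),(0,5),(6,0),(6,2)]⟩⟩,.o ⟨false,0,⟨2,[(3,0),(22,2),(2,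
  0),(7,0)]⟩,⟨1,[(27,1),(9,0),(5,0)]⟩⟩,.o ⟨false,0,⟨0,[(26,0),(2,0),(2,0)]⟩,⟨1,[(1,1),(0,1),(1,0),
  (1,0),(10,1)]⟩⟩]⟩) (.R ⟨0,false,false,true,[0,0,0,1],[0,1],[1,0,0,0,0,0,0,0,1],(⟨0,[(27,0)]⟩,⟨0,
  [(26,0)]⟩),(⟨0,[(39,0)]⟩,⟨0,[(38,0)]⟩),⟨0,[(0,0)]⟩,.k,.k,(.x 0 ⟨9,[(8,1),(3,3),(11,1),(0,1),(6,4),
  (0,4)]⟩ ⟨0,[(39,0),(3,0)]⟩),(.x 0 ⟨9,[(8,1),(3,3),(11,1),(0,1),(6,4),(0,4)]⟩ ⟨0,[(39,0),(3,0)]⟩),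
  .k,.k,⟨false,1,⟨1,[(1,1),(41,0),(0,0)]⟩,⟨3,[(3,0),(10,0),(2,0),(4,1),(1,1),(21,0)]⟩⟩,⟨true,1,⟨0,
  [(27,0),(15,0)]⟩,⟨0,[(3,0),(22,0),(2,0)]⟩⟩,⟨true,0,⟨0,[]⟩,⟨0,[(46,0)]⟩⟩,⟨false,1,⟨0,[(2,0),(38,
  0)]⟩,⟨32,[(0,24),(0,10),(1,7),(3,7),(0,4),(1,6),(1,9),(2,7),(9,10),(0,7),(13,8)]⟩⟩,⟨false,0,⟨0,
  []⟩,⟨0,[]⟩⟩,⟨false,0,⟨0,[]⟩,⟨0,[]⟩⟩,[.o ⟨false,0,⟨0,[(41,0)]⟩,⟨3,[(7,1),(22,1),(6,0),(6,2)]⟩⟩,.a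
  ⟨true,0,⟨2,[(11,0),(14,1),(0,1)]⟩,⟨0,[(42,0)]⟩⟩ ⟨true,0,⟨31,[(1,25),(1,3),(0,3),(6,5),(3,3),(9,2),
  (11,0),(2,13)]⟩,⟨3,[(3,1),(5,0),(12,1),(1,1),(5,0),(2,0)]⟩⟩ ⟨false,1,⟨3,[(1,0),(0,0),(1,0),(6,0),
  (5,0),(9,2),(15,2)]⟩,⟨11,[(3,3),(3,5),(18,11),(2,3),(0,5),(6,0),(6,2)]⟩⟩,.o ⟨false,0,⟨2,[(3,0),
  (22,2),(2,0),(7,0)]⟩,⟨1,[(27,1),(9,0),(5,0)]⟩⟩,.o ⟨false,0,⟨0,[(26,0),(2,0),(2,0)]⟩,⟨1,[(1,1),(0,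
  1),(1,0),(1,0),(10,1)]⟩⟩]⟩))))))))

theorem ok208 : chk (cU (-1) true 10) t208 l112 = true := by decide +kernel

noncomputable def t223 : Tre :=
  (.Q [0,0,1,1,0,0,0,0,1,1,0,-1] (.p false [0,0,0,1] [1] (⟨0,[(19,0)]⟩,⟨0,[(18,0)]⟩) .k 1 (⟨0,[]⟩,
  ⟨0,[]⟩) .k .k) (.R ⟨1,true,false,true,[1,-1],[0,0,0,1],[1,0,-1,-1],(⟨0,[(31,0)]⟩,⟨0,[(32,0)]⟩),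
  (⟨0,[(20,0)]⟩,⟨0,[(19,0)]⟩),⟨0,[(9,0),(19,0)]⟩,.k,.k,(.r (-1) ⟨0,[(3,0),(35,0)]⟩ ⟨22,[(2,7),(1,1),
  (2,15),(2,7),(1,1),(4,7),(0,7),(7,3)]⟩),(.x (-1) ⟨15,[(5,3),(3,3),(2,1),(4,6),(0,6),(11,0),(5,
  4)]⟩ ⟨0,[(32,0)]⟩),(.r (-1) ⟨3,[(1,1),(1,1),(13,0),(1,1),(16,0),(2,1)]⟩ ⟨91,[(2,31),(1,7),(2,63),
  (2,31),(1,7),(4,8),(0,54),(7,15)]⟩),.k,⟨false,1,⟨19,[(1,13),(0,7),(0,3),(9,7),(3,2),(1,13),(16,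
  12)]⟩,⟨1,[(7,0),(7,0),(2,0),(4,0)]⟩⟩,⟨true,0,⟨0,[(19,0)]⟩,⟨21,[(1,5),(5,7),(0,3),(9,2),(1,15),(1,
  5),(0,3),(1,1),(4,4)]⟩⟩,⟨true,0,⟨0,[]⟩,⟨0,[(39,0)]⟩⟩,⟨false,0,⟨0,[(0,0)]⟩,⟨13,[(1,9),(2,1),(12,1),
  (2,3),(9,2),(5,1),(0,6)]⟩⟩,⟨false,1,⟨5,[(4,1),(12,0),(0,0),(11,0),(6,2)]⟩,⟨0,[(35,0)]⟩⟩,⟨true,0,
  ⟨0,[(0,0),(33,0)]⟩,⟨0,[(1,0)]⟩⟩,[]⟩) (.Q [0,0,1,0,0,0,0,0,1,1,0,-1] (.p false [0,0,0,1] [1] (⟨0,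
  [(20,0)]⟩,⟨0,[(19,0)]⟩) .k 1 (⟨0,[]⟩,⟨0,[]⟩) .k .k) (.R ⟨2,true,false,false,[0,1],[1,0,0,-1],[0,1,
  1],(⟨0,[]⟩,⟨0,[]⟩),(⟨0,[(20,0)]⟩,⟨0,[(21,0)]⟩),⟨0,[]⟩,.k,.k,.k,(.x 0 ⟨0,[(33,0)]⟩ ⟨15,[(6,3),(3,
  3),(2,1),(4,6),(0,6),(11,0),(5,4)]⟩),.k,.k,⟨true,0,⟨1,[(0,0),(1,0),(5,0),(7,0),(2,0),(4,0)]⟩,⟨8,
  [(1,6),(1,2),(4,0),(5,1),(3,0),(1,6),(13,1)]⟩⟩,⟨false,1,⟨1,[(21,1),(9,0),(5,0)]⟩,⟨0,[(20,0)]⟩⟩,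
  ⟨false,0,⟨0,[(36,0)]⟩,⟨5,[(5,1),(12,0),(0,0),(11,0),(6,2)]⟩⟩,⟨true,0,⟨0,[(1,0)]⟩,⟨0,[(0,0),(34,
  0)]⟩⟩,⟨true,0,⟨0,[(40,0)]⟩,⟨0,[]⟩⟩,⟨false,1,⟨7,[(1,5),(3,1),(12,0),(2,1),(9,1),(5,0),(0,3)]⟩,⟨0,
  [(0,0)]⟩⟩,[]⟩) (.Q [0,0,-2,0,1,0,-1,0,0,-1,1,1] (.p true [0,0,1] [1,0,0,-1] (⟨0,[(30,0)]⟩,⟨0,[(29,
  0)]⟩) .k 2 (⟨0,[(20,0)]⟩,⟨0,[(21,0)]⟩) .k (.r (-1) ⟨43,[(4,15),(4,19),(6,11),(1,2),(0,24),(4,23),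
  (2,11)]⟩ ⟨7,[(0,2),(1,0),(5,1),(9,1),(1,3),(7,5)]⟩)) (.Q [0,0,0,0,0,-1,0,0,0,1,0,-1] (.ed true [0,
  1,0,1] .k) (.Q [0,0,0,-1,0,0,1,1,0,1,-1] (.p false [0,0,1] [1] (⟨0,[(32,0)]⟩,⟨0,[(31,0)]⟩) .k 1
  (⟨0,[]⟩,⟨0,[]⟩) .k .k) (.R ⟨1,false,false,false,[1,0,0,-1],[0,-1,1],[1,1,0,0,0,0,0,0,-1],(⟨0,[(23,
  0)]⟩,⟨0,[(24,0)]⟩),(⟨2,[(1,0),(0,0),(6,0),(23,1)]⟩,⟨0,[(32,0),(3,0)]⟩),⟨0,[(1,0)]⟩,.k,.k,(.x (-1)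
  ⟨19,[(1,3),(0,3),(6,3),(3,3),(7,8),(0,8),(11,1)]⟩ ⟨0,[(36,0)]⟩),(.r 1 ⟨0,[(3,0),(7,0),(11,0)]⟩
  ⟨21,[(0,9),(5,1),(0,7),(8,9),(4,7),(0,18),(4,9),(12,8)]⟩),.k,.k,⟨true,(-1),⟨0,[(3,0),(7,0),(11,0),
  (19,0)]⟩,⟨1,[(0,0),(6,0),(4,0),(9,0),(3,0)]⟩⟩,⟨false,0,⟨0,[(23,0),(5,0)]⟩,⟨0,[(2,0)]⟩⟩,⟨false,0,
  ⟨0,[]⟩,⟨3,[(21,0),(0,0),(18,1)]⟩⟩,⟨false,1,⟨5,[(0,5),(21,2),(0,5),(2,1),(2,1),(4,1),(2,1),(3,0)]⟩,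
  ⟨0,[(3,0),(13,0),(1,0)]⟩⟩,⟨true,0,⟨0,[(38,0)]⟩,⟨0,[(39,0)]⟩⟩,⟨false,1,⟨3,[(0,1),(11,1),(9,1),(0,
  3),(5,1),(4,0),(6,0)]⟩,⟨1,[(3,0),(1,0),(11,1),(1,1)]⟩⟩,[.a ⟨true,0,⟨0,[(0,0)]⟩,⟨0,[(17,0),(1,
  0)]⟩⟩ ⟨false,0,⟨0,[(3,0),(19,0),(19,0)]⟩,⟨1,[(22,0),(18,0)]⟩⟩ ⟨true,0,⟨2,[(0,0),(22,2),(2,0),(0,
  1),(1,0),(7,0),(1,1)]⟩,⟨0,[(2,0),(8,0)]⟩⟩,.o ⟨false,1,⟨1,[(0,1),(33,0),(6,0)]⟩,⟨0,[(10,0)]⟩⟩,.o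
  ⟨false,1,⟨15,[(2,7),(17,3),(0,0),(0,0),(1,7),(9,5)]⟩,⟨0,[(17,0),(5,0),(2,0),(0,0)]⟩⟩,.e ⟨false,0,
  ⟨0,[(3,0),(19,0)]⟩,⟨1,[(22,0),(6,0),(0,0),(10,0)]⟩⟩ ⟨false,1,⟨1,[(0,1),(22,1),(10,0),(6,0)]⟩,⟨0,
  [(2,0),(8,0)]⟩⟩]⟩) (.R ⟨1,false,false,false,[1,0,0,-1],[0,-1,1],[0,0,0,-1,0,0,0,0,-1],(⟨0,[(23,
  0)]⟩,⟨0,[(24,0)]⟩),(⟨2,[(1,0),(0,0),(6,0),(23,1)]⟩,⟨0,[(32,0),(3,0)]⟩),⟨0,[(1,0)]⟩,.k,.k,(.x (-1)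
  ⟨19,[(1,3),(0,3),(6,3),(3,3),(7,8),(0,8),(11,1)]⟩ ⟨0,[(36,0)]⟩),(.r 1 ⟨0,[(3,0),(7,0),(11,0)]⟩
  ⟨43,[(7,35),(4,11),(6,15),(1,14),(0,36),(4,31),(2,15)]⟩),.k,.k,⟨true,(-1),⟨1,[(3,0),(1,0),(5,1),
  (11,1)]⟩,⟨43,[(7,15),(4,19),(6,11),(1,2),(0,24),(4,23),(2,11)]⟩⟩,⟨false,0,⟨0,[(23,0),(5,0)]⟩,⟨0,
  [(2,0)]⟩⟩,⟨true,0,⟨0,[(39,0)]⟩,⟨0,[(38,0)]⟩⟩,⟨false,1,⟨1,[(12,0),(9,0),(0,1),(3,0),(1,0),(9,2),(1,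
  0)]⟩,⟨0,[(3,0),(13,0),(1,0)]⟩⟩,⟨false,1,⟨3,[(21,0),(0,0),(18,1)]⟩,⟨0,[]⟩⟩,⟨false,1,⟨1,[(12,0),(9,
  0),(0,1),(3,0),(1,0),(9,0),(1,0)]⟩,⟨1,[(3,0),(1,0),(11,1),(1,1)]⟩⟩,[.o ⟨false,1,⟨3,[(21,0),(0,0),
  (4,3),(11,3),(1,1)]⟩,⟨0,[(0,0)]⟩⟩,.o ⟨false,1,⟨0,[(27,0),(11,0),(1,0)]⟩,⟨0,[(10,0)]⟩⟩,.o ⟨false,1,
  ⟨15,[(2,7),(17,3),(0,0),(0,0),(1,7),(9,5)]⟩,⟨3,[(0,0),(10,0),(11,3),(2,0),(0,1),(6,0),(2,0),(1,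
  1)]⟩⟩,.a ⟨true,0,⟨0,[(24,0)]⟩,⟨0,[(23,0)]⟩⟩ ⟨true,0,⟨1,[(3,0),(1,0),(17,1)]⟩,⟨1,[(11,0),(7,0),(2,
  0),(4,0)]⟩⟩ ⟨false,1,⟨0,[(23,0),(3,0),(11,0),(1,0)]⟩,⟨0,[(2,0),(8,0)]⟩⟩]⟩)) (.Q [0,0,0,-1,0,0,1,1,
  0,1,-1] (.p false [0,0,1] [1] (⟨0,[(32,0)]⟩,⟨0,[(31,0)]⟩) .k 1 (⟨0,[]⟩,⟨0,[]⟩) .k .k) (.R ⟨0,
  false,false,false,[1,0,0,-1],[0,-1,1],[1,1,1],(⟨0,[(23,0)]⟩,⟨0,[(24,0)]⟩),(⟨1,[(2,0),(6,0),(13,0),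
  (9,0)]⟩,⟨0,[(32,0),(3,0)]⟩),⟨0,[(1,0)]⟩,.k,.k,(.x (-1) ⟨15,[(9,3),(3,3),(2,1),(4,6),(0,6),(11,0),
  (5,4)]⟩ ⟨0,[(36,0)]⟩),(.r 1 ⟨0,[(3,0),(7,0),(11,0)]⟩ ⟨21,[(0,9),(5,1),(0,7),(8,9),(4,7),(0,18),(4,
  9),(12,8)]⟩),.k,.k,⟨true,(-1),⟨0,[(11,0),(31,0)]⟩,⟨43,[(0,11),(5,19),(0,35),(8,11),(4,2),(0,2),(4,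
  11),(12,1)]⟩⟩,⟨false,0,⟨0,[(23,0),(5,0)]⟩,⟨0,[(2,0)]⟩⟩,⟨true,0,⟨1,[(11,0),(7,0),(2,0),(4,0),(11,
  1)]⟩,⟨0,[(3,0),(19,0)]⟩⟩,⟨false,1,⟨5,[(0,5),(21,2),(0,5),(2,1),(2,1),(4,1),(2,1),(3,0)]⟩,⟨0,[(3,
  0),(13,0),(1,0)]⟩⟩,⟨false,0,⟨0,[]⟩,⟨0,[]⟩⟩,⟨false,0,⟨0,[]⟩,⟨0,[]⟩⟩,[.a ⟨true,0,⟨0,[(0,0)]⟩,⟨0,
  [(17,0),(1,0)]⟩⟩ ⟨false,0,⟨0,[(43,0)]⟩,⟨1,[(40,0),(0,0)]⟩⟩ ⟨true,0,⟨2,[(0,0),(22,2),(2,0),(0,1),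
  (1,0),(7,0),(1,1)]⟩,⟨0,[(2,0),(8,0)]⟩⟩,.o ⟨false,1,⟨1,[(0,1),(33,0),(6,0)]⟩,⟨0,[(10,0)]⟩⟩,.o
  ⟨false,1,⟨15,[(2,7),(17,3),(0,0),(0,0),(1,7),(9,5)]⟩,⟨0,[(17,0),(5,0),(2,0),(0,0)]⟩⟩,.e ⟨false,0,
  ⟨0,[]⟩,⟨3,[(21,0),(0,0),(18,1)]⟩⟩ ⟨false,1,⟨1,[(0,1),(22,1),(10,0),(6,0)]⟩,⟨0,[(2,0),(8,0)]⟩⟩]⟩)
  (.R ⟨0,false,false,false,[1,0,0,-1],[0,-1,1],[0,1,1],(⟨0,[(23,0)]⟩,⟨0,[(24,0)]⟩),(⟨1,[(2,0),(6,0),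
  (13,0),(9,0)]⟩,⟨0,[(32,0),(3,0)]⟩),⟨0,[(1,0)]⟩,.k,.k,(.x (-1) ⟨15,[(9,3),(3,3),(2,1),(4,6),(0,6),
  (11,0),(5,4)]⟩ ⟨0,[(36,0)]⟩),(.r 1 ⟨0,[(3,0),(7,0),(11,0)]⟩ ⟨43,[(7,35),(4,11),(6,15),(1,14),(0,
  36),(4,31),(2,15)]⟩),.k,.k,⟨true,(-1),⟨0,[(11,0),(31,0)]⟩,⟨21,[(7,19),(4,13),(6,3),(1,0),(0,0),(4,
  7),(2,3)]⟩⟩,⟨false,0,⟨0,[(23,0),(5,0)]⟩,⟨0,[(2,0)]⟩⟩,⟨true,0,⟨1,[(11,0),(7,0),(2,0),(4,0),(11,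
  1)]⟩,⟨0,[(3,0),(19,0)]⟩⟩,⟨false,1,⟨1,[(12,0),(9,0),(0,1),(3,0),(1,0),(9,2),(1,0)]⟩,⟨0,[(3,0),(13,
  0),(1,0)]⟩⟩,⟨false,0,⟨0,[]⟩,⟨0,[]⟩⟩,⟨false,0,⟨0,[]⟩,⟨0,[]⟩⟩,[.o ⟨false,1,⟨3,[(21,0),(0,0),(4,3),
  (11,3),(1,1)]⟩,⟨0,[(0,0)]⟩⟩,.o ⟨false,1,⟨0,[(27,0),(11,0),(1,0)]⟩,⟨0,[(10,0)]⟩⟩,.o ⟨false,1,⟨15,
  [(2,7),(17,3),(0,0),(0,0),(1,7),(9,5)]⟩,⟨3,[(0,0),(10,0),(11,3),(2,0),(0,1),(6,0),(2,0),(1,1)]⟩⟩,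
  .a ⟨true,0,⟨0,[(24,0)]⟩,⟨0,[(23,0)]⟩⟩ ⟨true,0,⟨0,[(43,0)]⟩,⟨0,[]⟩⟩ ⟨false,1,⟨0,[(23,0),(3,0),(11,
  0),(1,0)]⟩,⟨0,[(2,0),(8,0)]⟩⟩]⟩))) (.Q [0,0,0,0,0,-1,0,0,0,0,0,1] (.ed false [1,-1,0,1] .k) (.R
  ⟨1,false,false,true,[0,0,0,1],[0,1],[1,0,0,0,0,0,0,0,1],(⟨0,[(23,0)]⟩,⟨0,[(22,0)]⟩),(⟨0,[(35,0)]⟩,
  ⟨0,[(34,0)]⟩),⟨0,[(0,0)]⟩,.k,.k,(.r (-1) ⟨1,[(6,0),(14,0),(20,0)]⟩ ⟨63,[(1,8),(0,7),(2,14),(4,18),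
  (2,3),(1,0),(2,10),(1,27),(2,0)]⟩),(.r (-1) ⟨1,[(6,0),(14,0),(20,0)]⟩ ⟨63,[(1,8),(0,7),(2,14),(4,
  18),(2,3),(1,0),(2,10),(1,27),(2,0)]⟩),(.r (-2) ⟨3,[(6,3),(13,0),(0,2),(20,3)]⟩ ⟨8,[(1,6),(0,6),
  (2,2),(1,1),(2,2),(4,1),(2,2),(1,0)]⟩),.k,⟨false,2,⟨7,[(6,3),(13,0),(0,4),(17,3),(0,1)]⟩,⟨0,[(1,
  0),(0,0),(15,0)]⟩⟩,⟨true,1,⟨0,[(23,0),(15,0)]⟩,⟨0,[(1,0),(23,0)]⟩⟩,⟨true,0,⟨0,[]⟩,⟨0,[(42,0)]⟩⟩,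
  ⟨false,0,⟨0,[(4,0),(2,0)]⟩,⟨39,[(1,31),(4,19),(8,15),(4,4),(0,24),(0,7),(10,11),(6,9)]⟩⟩,⟨false,1,
  ⟨5,[(7,1),(12,0),(0,0),(11,0),(6,2)]⟩,⟨0,[(38,0)]⟩⟩,⟨false,0,⟨1,[(2,0),(1,0),(2,1)]⟩,⟨3,[(1,3),(4,
  3),(13,0),(0,2),(3,3)]⟩⟩,[.o ⟨false,0,⟨0,[(37,0)]⟩,⟨3,[(6,1),(18,1),(2,1),(4,0),(6,0)]⟩⟩,.a ⟨true,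
  0,⟨2,[(7,0),(14,1),(0,1)]⟩,⟨0,[(38,0)]⟩⟩ ⟨true,1,⟨1,[(21,0),(18,0)]⟩,⟨1,[(1,1),(0,0),(1,0),(13,
  1)]⟩⟩ ⟨false,1,⟨5,[(2,1),(4,1),(13,0),(1,3),(15,4)]⟩,⟨4,[(1,1),(13,0),(6,2),(10,1),(4,4)]⟩⟩,.o
  ⟨false,0,⟨4,[(1,1),(13,0),(6,2),(10,1)]⟩,⟨3,[(2,3),(17,0),(0,2)]⟩⟩,.o ⟨false,0,⟨19,[(1,15),(13,7),
  (4,4),(0,4),(0,3),(10,5)]⟩,⟨1,[(2,1),(18,0),(17,0)]⟩⟩]⟩) (.R ⟨0,false,false,true,[0,0,0,1],[0,1],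
  [1,0,0,0,0,0,0,0,1],(⟨0,[(23,0)]⟩,⟨0,[(22,0)]⟩),(⟨0,[(35,0)]⟩,⟨0,[(34,0)]⟩),⟨0,[(0,0)]⟩,.k,.k,(.r
  (-1) ⟨1,[(6,0),(14,0),(20,0)]⟩ ⟨63,[(1,8),(0,7),(2,14),(4,18),(2,3),(1,0),(2,10),(1,27),(2,0)]⟩),
  (.r (-1) ⟨1,[(6,0),(14,0),(20,0)]⟩ ⟨63,[(1,8),(0,7),(2,14),(4,18),(2,3),(1,0),(2,10),(1,27),(2,
  0)]⟩),.k,.k,⟨false,2,⟨7,[(6,3),(13,0),(0,4),(17,3),(0,1)]⟩,⟨0,[(1,0),(0,0),(15,0)]⟩⟩,⟨true,1,⟨0,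
  [(23,0),(15,0)]⟩,⟨0,[(1,0),(23,0)]⟩⟩,⟨true,0,⟨0,[]⟩,⟨0,[(42,0)]⟩⟩,⟨false,0,⟨0,[(4,0),(2,0)]⟩,⟨39,
  [(1,31),(4,19),(8,15),(4,4),(0,24),(0,7),(10,11),(6,9)]⟩⟩,⟨false,0,⟨0,[]⟩,⟨0,[]⟩⟩,⟨false,0,⟨0,[]⟩,
  ⟨0,[]⟩⟩,[.o ⟨false,0,⟨0,[(37,0)]⟩,⟨3,[(6,1),(18,1),(2,1),(4,0),(6,0)]⟩⟩,.a ⟨true,0,⟨2,[(7,0),(14,
  1),(0,1)]⟩,⟨0,[(38,0)]⟩⟩ ⟨true,1,⟨1,[(21,0),(18,0)]⟩,⟨1,[(1,1),(0,0),(1,0),(13,1)]⟩⟩ ⟨false,1,⟨5,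
  [(2,1),(4,1),(13,0),(1,3),(15,4)]⟩,⟨4,[(1,1),(13,0),(6,2),(10,1),(4,4)]⟩⟩,.o ⟨false,0,⟨4,[(1,1),
  (13,0),(6,2),(10,1)]⟩,⟨3,[(2,3),(17,0),(0,2)]⟩⟩,.o ⟨false,0,⟨19,[(1,15),(13,7),(4,4),(0,4),(0,3),
  (10,5)]⟩,⟨1,[(2,1),(18,0),(17,0)]⟩⟩]⟩)))))

theorem ok223 : chk (cU (-1) true 10) t223 r115 = true := by decide +kernel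

end Helper11.CT.Tm1_34_m1_m1_u
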