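import Pool.Agent.Helper11.CT.T.Tm1_34_m1_m1_u_q

set_option autoImplicit false
set_option linter.all false

namespace Helper11.CT.Tm1_34_m1_m1_u

open Helper11.CT

noncomputable def t22 : Tre :=
  (.R ⟨2,true,false,false,[0,1],[1,0,-1],[0,1,1],(⟨0,[]⟩,⟨0,[]⟩),(⟨0,[(18,0)]⟩,⟨0,[(19,0)]⟩),⟨0,[]⟩,
  .k,.k,.k,.k,.k,.k,⟨false,0,⟨1,[(0,0),(1,0),(2,0),(7,0)]⟩,⟨1,[(17,1),(8,0),(0,0)]⟩⟩,⟨true,0,⟨0,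
  [(12,0)]⟩,⟨1,[(6,0),(2,0),(0,0)]⟩⟩,⟨false,0,⟨0,[(25,0)]⟩,⟨0,[(24,0),(2,0)]⟩⟩,⟨true,0,⟨0,[(2,0),
  (14,0)]⟩,⟨0,[(0,0),(23,0)]⟩⟩,⟨true,0,⟨0,[(29,0)]⟩,⟨0,[]⟩⟩,⟨false,1,⟨0,[(11,0),(15,0)]⟩,⟨0,[(0,
  0)]⟩⟩,[]⟩)

theorem ok22 : chk (cU (-1) true 10) t22 r6 = true := by decide +kernel

noncomputable def t60 : Tre :=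
  (.R ⟨0,false,false,true,[1,-1,-1],[1,-1],[1,0,1],(⟨0,[(4,0)]⟩,⟨0,[(19,0),(2,0)]⟩),(⟨0,[(21,0)]⟩,
  ⟨0,[(22,0)]⟩),⟨0,[(0,0)]⟩,.k,.k,(.r (-1) ⟨0,[(17,0),(7,1),(0,0)]⟩ ⟨7,[(1,3),(13,2),(0,2),(6,5),(0,
  11)]⟩),.k,.k,.k,⟨false,0,⟨0,[(23,0),(0,0)]⟩,⟨0,[(25,0),(0,0),(2,0)]⟩⟩,⟨true,0,⟨0,[(2,0),(9,0)]⟩,
  ⟨0,[(16,0)]⟩⟩,⟨false,0,⟨7,[(1,3),(13,2),(0,2),(6,5),(0,3)]⟩,⟨0,[(17,0),(7,0),(0,0)]⟩⟩,⟨true,0,⟨0,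
  [(13,0)]⟩,⟨0,[(3,0),(1,0),(19,0)]⟩⟩,⟨false,0,⟨0,[]⟩,⟨0,[]⟩⟩,⟨false,0,⟨0,[]⟩,⟨0,[]⟩⟩,[.e ⟨false,0,
  ⟨0,[]⟩,⟨3,[(7,0),(0,0),(17,1)]⟩⟩ ⟨false,1,⟨3,[(2,1),(17,0),(4,3),(0,2),(2,3)]⟩,⟨0,[(5,0),(17,
  0)]⟩⟩,.a ⟨true,0,⟨0,[(25,0)]⟩,⟨1,[(2,0),(2,1),(3,0),(0,0),(12,0)]⟩⟩ ⟨true,0,⟨3,[(15,0),(0,0),(6,
  1)]⟩,⟨0,[(29,0)]⟩⟩ ⟨false,1,⟨3,[(2,1),(17,0),(4,3),(0,2)]⟩,⟨1,[(5,0),(10,0),(6,0),(0,0)]⟩⟩,.o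
  ⟨false,0,⟨0,[(12,0)]⟩,⟨3,[(2,1),(4,0),(0,0),(11,0),(5,0)]⟩⟩,.o ⟨false,0,⟨1,[(12,1),(2,0),(0,0)]⟩,
  ⟨3,[(2,1),(17,0),(5,2)]⟩⟩]⟩)

theorem ok60 : chk (cU (-1) true 10) t60 r22 = true := by decide +kernel

noncomputable def t63 : Tre :=
  (.Q [0,1,0,1,0,0,1,1,0,1,-1] (.p false [0,0,1] [1] (⟨0,[(20,0)]⟩,⟨0,[(19,0)]⟩) .k 1 (⟨0,[]⟩,⟨0,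
  []⟩) .k .k) (.K ⟨1,[1,-1,-1],0,0,(⟨0,[(6,0)]⟩,⟨0,[(21,0),(2,0)]⟩),.k,(.r (-1) ⟨0,[(19,0),(7,1),(0,
  0)]⟩ ⟨0,[(0,0),(13,0),(10,0),(0,0)]⟩),.k,.k,.k,[⟨1,[(8,0),(2,0),(0,0)]⟩,⟨0,[(4,0),(12,0)]⟩,⟨0,[(0,
  0)]⟩,⟨0,[(1,0),(3,0)]⟩]⟩) (.I [1,1,1,0,-1,0,0,0,-1] (.Q [0,1,1,0,0,0,0,0,1,0,0,-1] (.p false [0,0,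
  0,1] [] (⟨0,[(13,0)]⟩,⟨0,[(12,0)]⟩) .k 0 (⟨0,[]⟩,⟨0,[]⟩) .k .k) (.K ⟨0,[0,0,0,1],0,0,(⟨0,[(14,
  0)]⟩,⟨0,[(13,0)]⟩),.k,(.r (-1) ⟨1,[(12,0),(16,1),(0,0)]⟩ ⟨2,[(1,0),(9,0),(15,1),(0,2)]⟩),(.x 0 ⟨0,
  [(26,0)]⟩ ⟨3,[(11,0),(0,0),(11,1),(0,3)]⟩),.k,.k,[⟨0,[(14,0)]⟩,⟨0,[(13,0)]⟩,⟨0,[(1,0),(12,0),(15,
  0)]⟩,⟨0,[(0,0)]⟩]⟩) (.R ⟨2,false,false,true,[0,1],[0,0,0,1],[],(⟨0,[]⟩,⟨0,[]⟩),(⟨0,[(14,0)]⟩,⟨0,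
  [(13,0)]⟩),⟨0,[]⟩,.k,.k,.k,(.r 0 ⟨2,[(1,0),(9,0),(15,1),(0,2)]⟩ ⟨1,[(12,0),(16,1),(0,0)]⟩),.k,.k,
  ⟨true,0,⟨2,[(0,1),(0,0),(11,1),(10,0),(2,0)]⟩,⟨0,[(1,0),(10,0)]⟩⟩,⟨false,0,⟨2,[(2,1),(10,2),(2,0),
  (0,1),(1,0),(7,0),(0,1)]⟩,⟨0,[(14,0),(15,0)]⟩⟩,⟨false,1,⟨1,[(29,1),(0,0),(0,0)]⟩,⟨2,[(4,0),(1,0),
  (12,0),(7,0),(0,1)]⟩⟩,⟨true,0,⟨0,[(1,0),(0,0),(9,0),(0,0),(3,0)]⟩,⟨0,[(0,0),(27,0)]⟩⟩,⟨false,1,⟨1,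
  [(30,0),(0,0)]⟩,⟨1,[(19,0),(0,0)]⟩⟩,⟨false,1,⟨7,[(11,0),(0,4),(0,7),(2,3),(2,3),(4,1)]⟩,⟨0,[(0,
  0)]⟩⟩,[.a ⟨true,0,⟨0,[(1,0),(10,0),(0,0)]⟩,⟨0,[(0,0)]⟩⟩ ⟨false,1,⟨3,[(11,0),(0,0),(17,1)]⟩,⟨0,
  []⟩⟩ ⟨true,0,⟨2,[(1,2),(0,1),(9,2),(0,2),(2,0),(0,1),(1,0),(7,0),(0,1)]⟩,⟨0,[(0,0)]⟩⟩,.o ⟨false,1,
  ⟨7,[(11,0),(0,4),(0,7),(2,3),(2,3),(4,1)]⟩,⟨0,[(0,0),(1,0),(14,0),(10,0)]⟩⟩,.o ⟨false,1,⟨3,[(11,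
  0),(0,0),(17,1)]⟩,⟨2,[(2,1),(13,0),(0,1),(1,0),(7,0),(0,1)]⟩⟩,.e ⟨false,1,⟨1,[(30,0),(0,0)]⟩,⟨1,
  [(19,0),(0,0)]⟩⟩ ⟨false,1,⟨7,[(11,0),(0,4),(0,7),(2,3),(2,3),(4,1)]⟩,⟨0,[(0,0)]⟩⟩]⟩)) (.Q [0,0,0,
  0,0,-1,0,0,0,0,1] (.ed false [1,-1,1] .k) (.Q [0,0,0,-1,0,0,1,1,0,1,-1] (.p false [0,0,1] [1] (⟨0,
  [(23,0)]⟩,⟨0,[(22,0)]⟩) .k 1 (⟨0,[]⟩,⟨0,[]⟩) .k .k) (.R ⟨2,true,false,false,[0,1],[1,1,-1],[0,1,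
  1],(⟨0,[]⟩,⟨0,[]⟩),(⟨0,[(23,0),(3,0)]⟩,⟨0,[(1,0)]⟩),⟨0,[]⟩,.k,.k,.k,.k,.k,.k,⟨true,0,⟨0,[(4,0),
  (13,0)]⟩,⟨0,[(22,0),(5,0),(0,0)]⟩⟩,⟨false,1,⟨3,[(7,1),(17,0),(5,2)]⟩,⟨4,[(0,1),(4,1),(2,0),(2,0),
  (7,0)]⟩⟩,⟨false,0,⟨0,[(30,0)]⟩,⟨0,[(29,0),(2,0)]⟩⟩,⟨true,0,⟨0,[(3,0),(25,0)]⟩,⟨0,[(0,0),(28,0)]⟩⟩,
  ⟨true,0,⟨0,[(34,0)]⟩,⟨0,[]⟩⟩,⟨false,1,⟨1,[(8,1),(1,1),(14,0),(6,0)]⟩,⟨0,[(0,0)]⟩⟩,[]⟩) (.Q [0,-1,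
  -1,-1,1,0,0,0,-1,-1,0,1] (.p true [0,0,0,1] [1] (⟨0,[(15,0)]⟩,⟨0,[(14,0)]⟩) .k 1 (⟨0,[]⟩,⟨0,[]⟩)
  .k .k) (.I [1,0,1,0,0,0,0,1,1] (.Q [0,0,0,0,0,1,0,0,0,-1,0,1] (.ed false [0,1,0,1] .k) (.I [0,0,
  -2,-1,1,0,0,0,-1] (.R ⟨0,false,false,true,[1,0,0,-1],[0,1],[0,1,0,0,0,0,0,0,-1],(⟨0,[(18,0)]⟩,⟨0,
  [(19,0)]⟩),(⟨0,[(31,0)]⟩,⟨0,[(30,0)]⟩),⟨0,[(1,0)]⟩,.k,.k,(.x (-1) ⟨7,[(5,3),(7,3),(2,2),(0,2),(11,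
  1)]⟩ ⟨0,[(31,0)]⟩),(.x (-1) ⟨7,[(5,3),(7,3),(2,2),(0,2),(11,1)]⟩ ⟨0,[(31,0)]⟩),.k,.k,⟨false,1,⟨0,
  [(0,0)]⟩,⟨1,[(2,1),(1,0),(4,0),(16,0)]⟩⟩,⟨true,0,⟨0,[(18,0)]⟩,⟨2,[(1,2),(3,1),(4,0),(13,1)]⟩⟩,
  ⟨true,0,⟨0,[(38,0)]⟩,⟨0,[]⟩⟩,⟨false,0,⟨1,[(2,1),(1,0),(4,0),(8,1),(7,0)]⟩,⟨0,[(3,0)]⟩⟩,⟨false,0,
  ⟨0,[]⟩,⟨0,[]⟩⟩,⟨false,0,⟨0,[]⟩,⟨0,[]⟩⟩,[.o ⟨false,0,⟨0,[(33,0)]⟩,⟨1,[(29,0),(4,1),(1,0)]⟩⟩,.o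
  ⟨false,1,⟨3,[(16,0),(0,0),(15,3),(2,1)]⟩,⟨0,[(7,0),(14,0)]⟩⟩,.o ⟨false,1,⟨1,[(19,1),(9,0),(5,0)]⟩,
  ⟨6,[(4,1),(2,1),(10,6),(2,2),(0,3),(1,2),(7,0)]⟩⟩,.a ⟨true,0,⟨0,[(19,0)]⟩,⟨0,[(18,0)]⟩⟩ ⟨false,1,
  ⟨1,[(16,0),(18,0)]⟩,⟨0,[(2,0),(9,0)]⟩⟩ ⟨true,0,⟨0,[(18,0),(14,0)]⟩,⟨0,[(7,0),(11,0),(2,0)]⟩⟩]⟩)
  (.I [1,-1,-1,0,1,0,0,0,-1] (.R ⟨0,false,false,false,[1,0,0,-1],[1,0,-1],[0,1,0,0,0,0,0,0,-1],(⟨0,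
  [(19,0)]⟩,⟨0,[(20,0)]⟩),(⟨0,[(28,0)]⟩,⟨0,[(29,0)]⟩),⟨0,[(2,0)]⟩,.k,.k,(.x (-1) ⟨7,[(6,3),(7,3),(2,
  2),(0,2),(11,1)]⟩ ⟨0,[(32,0)]⟩),.k,.k,.k,⟨false,1,⟨3,[(0,1),(8,1),(5,1),(1,0),(5,3),(12,0)]⟩,⟨1,
  [(1,1),(6,0),(0,0),(3,0),(2,0),(19,1)]⟩⟩,⟨true,0,⟨0,[(19,0),(2,0)]⟩,⟨1,[(2,1),(3,0),(7,0),(1,
  0)]⟩⟩,⟨true,0,⟨0,[(39,0)]⟩,⟨0,[]⟩⟩,⟨false,0,⟨17,[(1,7),(3,3),(2,11),(9,4),(0,17),(2,1),(4,1),(9,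
  2)]⟩,⟨0,[(0,0),(19,0),(2,0)]⟩⟩,⟨false,0,⟨0,[]⟩,⟨0,[]⟩⟩,⟨false,0,⟨0,[]⟩,⟨0,[]⟩⟩,[.o ⟨false,0,⟨2,
  [(5,0),(2,0),(12,0)]⟩,⟨3,[(17,0),(0,0),(4,3),(13,1)]⟩⟩,.o ⟨false,1,⟨9,[(5,1),(2,1),(15,5),(5,2),
  (6,6)]⟩,⟨0,[(23,0)]⟩⟩,.o ⟨false,1,⟨1,[(20,1),(9,0),(5,0)]⟩,⟨3,[(1,1),(6,1),(8,0),(1,3),(3,1),(6,
  0)]⟩⟩,.a ⟨true,0,⟨0,[(20,0)]⟩,⟨0,[(19,0)]⟩⟩ ⟨false,1,⟨1,[(17,0),(18,0)]⟩,⟨4,[(1,1),(5,0),(10,0),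
  (14,1),(1,1)]⟩⟩ ⟨true,0,⟨2,[(5,0),(2,0),(10,2),(1,0)]⟩,⟨0,[(20,0),(2,0)]⟩⟩]⟩) (.R ⟨0,false,false,
  false,[1,0,0,-1],[0,0,0,1],[0,1,1],(⟨0,[(19,0)]⟩,⟨0,[(20,0)]⟩),(⟨0,[(20,0)]⟩,⟨0,[(19,0)]⟩),⟨0,[(2,
  0)]⟩,.k,.k,(.x (-1) ⟨7,[(6,3),(7,3),(2,2),(0,2),(11,1)]⟩ ⟨0,[(32,0)]⟩),.k,.k,.k,⟨true,0,⟨0,[(0,0),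
  (16,0)]⟩,⟨0,[(0,0),(32,0),(2,0)]⟩⟩,⟨false,0,⟨3,[(1,1),(6,1),(8,0),(1,7),(3,1),(6,0)]⟩,⟨0,[(2,1),
  (3,0),(7,0),(21,0)]⟩⟩,⟨true,(-1),⟨0,[(0,0)]⟩,⟨1,[(17,0),(18,0)]⟩⟩,⟨false,(-1),⟨3,[(0,6),(4,1),(1,
  0),(0,1),(10,7),(3,3),(9,5),(2,1)]⟩,⟨1,[(4,1),(12,0),(2,1),(13,1),(1,0)]⟩⟩,⟨false,0,⟨0,[]⟩,⟨0,
  []⟩⟩,⟨false,0,⟨0,[]⟩,⟨0,[]⟩⟩,[.o ⟨false,0,⟨5,[(0,3),(17,0),(0,5),(10,2),(2,1)]⟩,⟨0,[(4,0),(29,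
  0)]⟩⟩,.o ⟨false,0,⟨7,[(0,4),(4,1),(1,2),(0,1),(10,7),(3,3),(6,1),(2,5)]⟩,⟨0,[(4,0),(29,0),(4,
  0)]⟩⟩,.o ⟨false,1,⟨1,[(20,1),(9,0),(5,0)]⟩,⟨3,[(1,1),(6,1),(8,0),(1,3),(3,1),(6,0)]⟩⟩,.a ⟨true,0,
  ⟨0,[(20,0)]⟩,⟨0,[(19,0)]⟩⟩ ⟨true,0,⟨0,[(39,0)]⟩,⟨0,[]⟩⟩ ⟨false,0,⟨7,[(0,4),(4,1),(1,2),(0,1),(10,
  15),(3,3),(6,1),(2,5)]⟩,⟨0,[(4,0),(15,0),(13,0)]⟩⟩]⟩))) (.I [1,0,-2,-1,1,0,0,0,-1] (.R ⟨1,false,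
  false,true,[1,0,0,-1],[0,1],[1,1,0,0,0,0,0,0,-1],(⟨0,[(18,0)]⟩,⟨0,[(19,0)]⟩),(⟨0,[(31,0)]⟩,⟨0,
  [(30,0)]⟩),⟨0,[(1,0)]⟩,.k,.k,(.x (-1) ⟨7,[(5,3),(7,3),(2,2),(0,2),(11,1)]⟩ ⟨0,[(31,0)]⟩),(.x (-1)
  ⟨7,[(5,3),(7,3),(2,2),(0,2),(11,1)]⟩ ⟨0,[(31,0)]⟩),(.r (-1) ⟨0,[(0,0),(33,0)]⟩ ⟨1,[(2,1),(1,1),(4,
  1),(14,0),(0,0)]⟩),.k,⟨false,1,⟨0,[(0,0)]⟩,⟨1,[(2,1),(1,0),(4,0),(16,0)]⟩⟩,⟨true,0,⟨0,[(18,0)]⟩,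
  ⟨6,[(4,1),(2,1),(11,6),(1,2),(0,3),(1,2),(7,0)]⟩⟩,⟨false,0,⟨0,[]⟩,⟨3,[(16,0),(0,0),(18,1)]⟩⟩,
  ⟨false,0,⟨1,[(2,1),(1,0),(4,0),(8,1),(7,0)]⟩,⟨0,[(3,0)]⟩⟩,⟨true,0,⟨0,[(33,0)]⟩,⟨0,[(34,0)]⟩⟩,
  ⟨false,0,⟨0,[(2,0),(1,0),(4,0),(8,0)]⟩,⟨0,[(3,0),(30,0)]⟩⟩,[.o ⟨false,0,⟨0,[(33,0)]⟩,⟨1,[(29,0),
  (4,1),(1,0)]⟩⟩,.o ⟨false,1,⟨3,[(16,0),(0,0),(15,3),(2,1)]⟩,⟨0,[(7,0),(14,0)]⟩⟩,.o ⟨false,1,⟨1,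
  [(19,1),(9,0),(5,0)]⟩,⟨6,[(4,1),(2,1),(10,6),(2,2),(0,3),(1,2),(7,0)]⟩⟩,.a ⟨true,0,⟨0,[(19,0)]⟩,
  ⟨0,[(18,0)]⟩⟩ ⟨false,1,⟨1,[(16,0),(18,0)]⟩,⟨0,[(2,0),(4,0),(1,0)]⟩⟩ ⟨true,0,⟨0,[(18,0),(14,0)]⟩,
  ⟨0,[(7,0),(11,0),(2,0)]⟩⟩]⟩) (.R ⟨1,false,false,false,[1,0,0,-1],[1,1,-1],[1,1,0,0,0,0,0,0,-1],
  (⟨0,[(18,0)]⟩,⟨0,[(19,0)]⟩),(⟨0,[(27,0),(3,0)]⟩,⟨0,[(5,0)]⟩),⟨0,[(1,0)]⟩,.k,.k,(.x (-1) ⟨7,[(5,3),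
  (7,3),(2,2),(0,2),(11,1)]⟩ ⟨0,[(31,0)]⟩),(.x 0 ⟨0,[(5,0),(6,0),(9,0)]⟩ ⟨7,[(10,3),(5,2),(0,2),(13,
  11),(3,1)]⟩),(.r (-2) ⟨3,[(3,3),(4,3),(7,0),(0,0),(0,3),(3,3),(12,1)]⟩ ⟨1,[(0,1),(3,0),(4,0),(16,
  0)]⟩),.k,⟨true,1,⟨1,[(8,1),(7,0),(5,1),(12,0)]⟩,⟨0,[(0,0),(11,0)]⟩⟩,⟨false,1,⟨3,[(11,1),(6,3),(10,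
  0),(5,2)]⟩,⟨0,[(12,0),(6,0),(2,0)]⟩⟩,⟨false,0,⟨0,[]⟩,⟨3,[(16,0),(0,0),(18,1)]⟩⟩,⟨false,0,⟨10,[(0,
  3),(3,8),(1,0),(0,1),(9,2),(0,10),(13,3)]⟩,⟨0,[(3,0),(14,0),(0,0),(2,0)]⟩⟩,⟨true,0,⟨0,[(33,0)]⟩,
  ⟨0,[(34,0)]⟩⟩,⟨false,0,⟨1,[(0,0),(3,1),(1,0),(11,1),(13,0),(0,0)]⟩,⟨1,[(3,1),(4,1),(6,0),(2,0),(0,
  0),(2,1)]⟩⟩,[.o ⟨false,0,⟨0,[(4,0)]⟩,⟨3,[(16,0),(0,0),(4,3),(11,3),(1,1)]⟩⟩,.o ⟨false,1,⟨3,[(4,3),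
  (11,0),(0,0),(18,1)]⟩,⟨0,[(22,0),(11,0)]⟩⟩,.o ⟨false,1,⟨1,[(19,1),(9,0),(5,0)]⟩,⟨3,[(0,1),(6,1),
  (8,0),(1,3),(3,1),(6,0)]⟩⟩,.a ⟨true,0,⟨0,[(19,0)]⟩,⟨0,[(18,0)]⟩⟩ ⟨false,1,⟨1,[(16,0),(18,0)]⟩,⟨4,
  [(0,1),(5,0),(10,0),(14,1),(1,1)]⟩⟩ ⟨true,0,⟨0,[(4,0),(13,0)]⟩,⟨0,[(19,0),(2,0),(11,0)]⟩⟩]⟩)))
  (.Q [0,1,1,0,0,0,0,0,1,0,0,-1] (.p false [0,0,0,1] [] (⟨0,[(17,0)]⟩,⟨0,[(16,0)]⟩) .k 0 (⟨0,[]⟩,⟨0,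
  []⟩) .k .k) (.Q [0,1,-1,0,0,0,0,0,-1,0,0,1] (.p true [0,0,0,1] [] (⟨0,[(18,0)]⟩,⟨0,[(17,0)]⟩) .k
  0 (⟨0,[]⟩,⟨0,[]⟩) .k .k) (.K ⟨0,[0,0,0,1],0,0,(⟨0,[(19,0)]⟩,⟨0,[(18,0)]⟩),.k,(.r (-1) ⟨1,[(17,0),
  (16,1),(0,0)]⟩ ⟨2,[(0,1),(1,0),(15,1),(2,1),(0,0),(1,0),(7,2),(0,2)]⟩),(.x 0 ⟨0,[(31,0)]⟩ ⟨7,[(5,
  3),(7,3),(2,2),(0,2),(11,1)]⟩),.k,.k,[⟨0,[(19,0)]⟩,⟨0,[(18,0)]⟩,⟨0,[(0,0)]⟩,⟨0,[(1,0)]⟩]⟩) (.Q [0,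
  -1,1,1,0,0,0,0,1,1,0,-1] (.p false [0,0,0,1] [1] (⟨0,[(19,0)]⟩,⟨0,[(18,0)]⟩) .k 1 (⟨0,[]⟩,⟨0,[]⟩)
  .k .k) (.R ⟨1,true,false,false,[1,-1],[0,0,0,1],[0,0,-1,-2],(⟨0,[(31,0)]⟩,⟨0,[(32,0)]⟩),(⟨0,[(20,
  0)]⟩,⟨0,[(19,0)]⟩),⟨0,[(6,0),(7,0)]⟩,.k,.k,(.r (-1) ⟨0,[(35,1),(0,0)]⟩ ⟨2,[(10,1),(1,1),(12,1),(7,
  1),(0,3)]⟩),(.x (-1) ⟨7,[(6,3),(7,3),(2,2),(0,2),(11,1)]⟩ ⟨0,[(32,0)]⟩),(.r (-1) ⟨1,[(3,0),(0,0),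
  (4,0),(9,0),(3,0),(11,1),(0,0)]⟩ ⟨1,[(0,1),(4,0),(14,1),(1,0),(0,0),(1,0),(8,0)]⟩),.k,⟨false,1,⟨1,
  [(3,0),(0,0),(4,0),(9,0),(3,0),(11,1),(0,0)]⟩,⟨0,[(0,0),(4,0),(14,0),(2,0)]⟩⟩,⟨true,0,⟨0,[(19,
  0)]⟩,⟨6,[(5,1),(2,1),(11,6),(1,2),(0,3),(1,2),(7,0)]⟩⟩,⟨true,0,⟨0,[(35,0)]⟩,⟨0,[(34,0)]⟩⟩,⟨false,
  0,⟨0,[(0,0)]⟩,⟨0,[(4,0),(34,0)]⟩⟩,⟨false,1,⟨3,[(17,0),(0,0),(18,1)]⟩,⟨0,[]⟩⟩,⟨true,0,⟨0,[(0,0),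
  (33,0)]⟩,⟨0,[(3,0),(4,0),(0,0),(10,0),(2,1)]⟩⟩,[]⟩) (.R ⟨2,true,false,true,[0,1],[1,0,0,-1],[0,1,
  1],(⟨0,[]⟩,⟨0,[]⟩),(⟨0,[(19,0)]⟩,⟨0,[(20,0)]⟩),⟨0,[]⟩,.k,.k,.k,(.x 0 ⟨0,[(32,0)]⟩ ⟨7,[(6,3),(7,3),
  (2,2),(0,2),(11,1)]⟩),.k,.k,⟨true,0,⟨1,[(1,0),(0,0),(17,1)]⟩,⟨2,[(0,0),(2,1),(11,0),(3,0),(3,1),
  (2,0),(6,1)]⟩⟩,⟨false,1,⟨1,[(20,1),(9,0),(5,0)]⟩,⟨0,[(19,0)]⟩⟩,⟨false,0,⟨0,[(35,0)]⟩,⟨0,[(34,0),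
  (2,0)]⟩⟩,⟨true,0,⟨0,[(0,0)]⟩,⟨3,[(1,2),(0,0),(7,1),(4,1),(3,1),(0,1)]⟩⟩,⟨true,0,⟨0,[(39,0)]⟩,⟨0,
  []⟩⟩,⟨false,1,⟨0,[(4,0),(29,0)]⟩,⟨0,[(1,0),(17,0),(0,0)]⟩⟩,[]⟩))) (.Q [0,0,0,0,0,-1,0,0,0,1,0,-1]
  (.ed true [0,1,0,1] .k) (.R ⟨1,false,false,false,[1,0,0,-1],[1,0,-1],[1,1,0,0,0,0,0,0,-1],(⟨0,
  [(18,0)]⟩,⟨0,[(19,0)]⟩),(⟨0,[(27,0)]⟩,⟨0,[(28,0)]⟩),⟨0,[(0,0)]⟩,.k,.k,(.x (-1) ⟨7,[(5,3),(7,3),(2,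
  2),(0,2),(11,1)]⟩ ⟨0,[(31,0)]⟩),.k,(.x 0 ⟨0,[(5,0),(6,0),(9,0)]⟩ ⟨7,[(10,3),(5,2),(0,2),(13,11),
  (3,1)]⟩),.k,⟨false,0,⟨0,[(1,0),(2,0),(3,0),(9,0),(3,1)]⟩,⟨1,[(17,0),(8,1),(9,0)]⟩⟩,⟨true,0,⟨0,
  [(18,0),(2,0)]⟩,⟨0,[(12,0),(6,0),(2,0)]⟩⟩,⟨false,0,⟨0,[]⟩,⟨3,[(16,0),(0,0),(18,1)]⟩⟩,⟨false,1,⟨1,
  [(17,0),(0,1),(2,1),(4,1),(9,0)]⟩,⟨0,[(1,0),(20,0)]⟩⟩,⟨true,0,⟨0,[(33,0)]⟩,⟨0,[(34,0)]⟩⟩,⟨false,1,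
  ⟨1,[(4,1),(12,0),(0,1),(5,0),(0,0),(10,0)]⟩,⟨0,[(1,0),(20,0),(11,0)]⟩⟩,[.o ⟨false,0,⟨2,[(4,0),(2,
  0),(12,0)]⟩,⟨3,[(16,0),(0,0),(4,3),(13,1)]⟩⟩,.o ⟨false,1,⟨9,[(4,1),(2,1),(15,5),(5,2),(6,6)]⟩,⟨0,
  [(22,0)]⟩⟩,.o ⟨false,1,⟨1,[(19,1),(9,0),(5,0)]⟩,⟨6,[(4,1),(2,1),(10,6),(2,2),(0,3),(1,2),(7,0)]⟩⟩,
  .a ⟨true,0,⟨0,[(19,0)]⟩,⟨0,[(18,0)]⟩⟩ ⟨false,0,⟨3,[(1,2),(0,0),(1,1),(2,0),(0,0),(9,2),(3,3)]⟩,⟨1,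
  [(17,0),(6,0),(0,0),(10,0)]⟩⟩ ⟨true,0,⟨2,[(4,0),(2,0),(10,2),(1,0)]⟩,⟨0,[(19,0),(2,0)]⟩⟩]⟩) (.R
  ⟨0,false,false,false,[1,0,0,-1],[1,0,-1],[0,1,0,0,0,0,0,0,-1],(⟨0,[(18,0)]⟩,⟨0,[(19,0)]⟩),(⟨0,
  [(27,0)]⟩,⟨0,[(28,0)]⟩),⟨0,[(0,0)]⟩,.k,.k,(.x (-1) ⟨7,[(5,3),(7,3),(2,2),(0,2),(11,1)]⟩ ⟨0,[(31,
  0)]⟩),.k,.k,.k,⟨false,0,⟨0,[(1,0),(2,0),(3,0),(9,0),(3,1)]⟩,⟨1,[(17,0),(8,1),(9,0)]⟩⟩,⟨true,0,⟨0,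
  [(18,0),(2,0)]⟩,⟨1,[(0,1),(4,0),(7,0),(1,0)]⟩⟩,⟨true,0,⟨0,[(38,0)]⟩,⟨0,[]⟩⟩,⟨false,1,⟨1,[(17,0),
  (0,1),(2,1),(4,1),(9,0)]⟩,⟨0,[(1,0),(20,0)]⟩⟩,⟨false,0,⟨0,[]⟩,⟨0,[]⟩⟩,⟨false,0,⟨0,[]⟩,⟨0,[]⟩⟩,[.o
  ⟨false,0,⟨2,[(4,0),(2,0),(12,0)]⟩,⟨3,[(16,0),(0,0),(4,3),(13,1)]⟩⟩,.o ⟨false,1,⟨9,[(4,1),(2,1),
  (15,5),(5,2),(6,6)]⟩,⟨0,[(22,0)]⟩⟩,.o ⟨false,1,⟨1,[(19,1),(9,0),(5,0)]⟩,⟨6,[(4,1),(2,1),(10,6),(2,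
  2),(0,3),(1,2),(7,0)]⟩⟩,.a ⟨true,0,⟨0,[(19,0)]⟩,⟨0,[(18,0)]⟩⟩ ⟨false,0,⟨3,[(1,2),(0,0),(1,1),(2,
  0),(0,0),(9,2),(3,3)]⟩,⟨1,[(17,0),(6,0),(0,0),(10,0)]⟩⟩ ⟨true,0,⟨2,[(4,0),(2,0),(10,2),(1,0)]⟩,⟨0,
  [(19,0),(2,0)]⟩⟩]⟩)))) (.I [0,-1,-1,-1,1,0,0,0,-1] (.K ⟨0,[0,0,0,1],0,(-1),(⟨0,[(17,0)]⟩,⟨0,[(16,
  0)]⟩),.k,(.x 0 ⟨5,[(3,3),(4,1),(13,6),(0,2)]⟩ ⟨0,[(29,0),(3,0)]⟩),(.x 0 ⟨0,[(29,0)]⟩ ⟨7,[(3,3),(7,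
  3),(2,2),(0,2),(11,1)]⟩),.k,.k,[⟨0,[(17,0)]⟩,⟨0,[(16,0)]⟩,⟨1,[(14,0),(2,1),(15,0),(2,1)]⟩,⟨0,[(1,
  0),(3,0),(14,0)]⟩]⟩) (.K ⟨0,[0,0,0,1],0,(-1),(⟨0,[(17,0)]⟩,⟨0,[(16,0)]⟩),.k,(.x 0 ⟨5,[(3,3),(4,1),
  (13,6),(0,2)]⟩ ⟨0,[(29,0),(3,0)]⟩),(.x 0 ⟨0,[(29,0)]⟩ ⟨7,[(3,3),(7,3),(2,2),(0,2),(11,1)]⟩),.k,.k,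
  [⟨0,[(17,0)]⟩,⟨0,[(16,0)]⟩,⟨1,[(14,0),(2,1),(15,0),(2,1)]⟩,⟨0,[(1,0),(3,0),(14,0)]⟩]⟩)))) (.Q [0,
  0,0,0,0,0,-1,0,0,1,1] (.p true [1,-1,1] [] (⟨0,[(23,0),(1,0)]⟩,⟨0,[(0,0)]⟩) .k 0 (⟨0,[]⟩,⟨0,[]⟩)
  .k .k) (.R ⟨0,false,false,true,[0,1,-1],[0,1],[0,0,1],(⟨0,[(1,0)]⟩,⟨0,[(24,0),(1,0)]⟩),(⟨0,[(27,
  0)]⟩,⟨0,[(26,0)]⟩),⟨0,[(24,0)]⟩,.k,.k,.k,.k,.k,.k,⟨false,1,⟨1,[(30,1),(0,0),(0,0)]⟩,⟨0,[(29,0)]⟩⟩,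
  ⟨true,0,⟨0,[(8,0),(9,0)]⟩,⟨0,[(21,0)]⟩⟩,⟨false,1,⟨0,[(4,0),(13,0),(13,0)]⟩,⟨0,[(8,0),(20,0)]⟩⟩,
  ⟨true,0,⟨0,[(18,0)]⟩,⟨4,[(0,0),(2,0),(4,1),(1,0),(8,1)]⟩⟩,⟨false,0,⟨0,[]⟩,⟨0,[]⟩⟩,⟨false,0,⟨0,[]⟩,
  ⟨0,[]⟩⟩,[.o ⟨false,0,⟨0,[(29,0)]⟩,⟨1,[(25,0),(4,1),(1,0)]⟩⟩,.o ⟨false,1,⟨3,[(12,0),(0,0),(15,3),
  (2,1)]⟩,⟨0,[(3,0),(14,0)]⟩⟩,.o ⟨false,1,⟨5,[(0,1),(6,1),(4,0),(0,0),(17,3)]⟩,⟨1,[(3,1),(4,0),(9,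
  2),(1,0),(7,0),(0,1)]⟩⟩,.a ⟨true,0,⟨0,[(0,0)]⟩,⟨0,[(8,0),(9,0)]⟩⟩ ⟨false,1,⟨3,[(12,0),(0,0),(18,
  1)]⟩,⟨0,[]⟩⟩ ⟨true,0,⟨0,[(8,0),(9,0),(10,0)]⟩,⟨0,[(4,0)]⟩⟩]⟩) (.I [1,-1,-1,0,1,0,0,0,-1] (.Q [0,
  -1,1,0,0,0,0,0,1,0,0,-1] (.p false [0,0,0,1] [] (⟨0,[(16,0)]⟩,⟨0,[(15,0)]⟩) .k 0 (⟨0,[]⟩,⟨0,[]⟩)
  .k .k) (.Q [0,0,0,0,0,-1,0,0,0,1,0,-1] (.ed true [0,1,0,1] .k) (.I [0,0,2,1,-1,0,0,-1,1] (.R ⟨1,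
  false,false,false,[1,0,0,-1],[1,0,-1],[0,0,0,-1,0,0,0,0,-1],(⟨0,[(18,0)]⟩,⟨0,[(19,0)]⟩),(⟨0,[(27,
  0)]⟩,⟨0,[(28,0)]⟩),⟨0,[(1,0)]⟩,.k,.k,(.x (-1) ⟨3,[(16,0),(0,0),(11,1),(0,3)]⟩ ⟨0,[(31,0)]⟩),.k,
  (.r (-1) ⟨0,[(3,0),(4,0),(13,0)]⟩ ⟨3,[(0,1),(16,0),(8,1),(6,1),(2,0)]⟩),.k,⟨false,1,⟨0,[(3,0),(4,
  0),(13,0)]⟩,⟨0,[(0,0),(34,0)]⟩⟩,⟨true,0,⟨0,[(18,0),(2,0)]⟩,⟨2,[(4,0),(10,0),(3,2)]⟩⟩,⟨true,0,⟨0,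
  [(34,0)]⟩,⟨0,[(33,0)]⟩⟩,⟨false,0,⟨3,[(0,0),(1,1),(3,0),(0,0),(3,0),(0,0),(5,1),(4,0)]⟩,⟨0,[(3,0),
  (15,0),(2,0)]⟩⟩,⟨false,1,⟨3,[(16,0),(0,0),(18,1)]⟩,⟨0,[]⟩⟩,⟨false,0,⟨0,[(2,0),(9,0),(1,0)]⟩,⟨0,
  [(3,0),(15,0),(2,0),(11,0)]⟩⟩,[.o ⟨false,0,⟨3,[(4,0),(2,1),(4,0),(1,1),(5,0)]⟩,⟨3,[(16,0),(0,0),
  (4,3),(13,1)]⟩⟩,.o ⟨false,1,⟨0,[(20,0),(15,0)]⟩,⟨0,[(22,0)]⟩⟩,.o ⟨false,1,⟨1,[(19,1),(9,0),(5,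
  0)]⟩,⟨2,[(4,0),(13,2),(2,1),(2,0)]⟩⟩,.a ⟨true,0,⟨0,[(19,0)]⟩,⟨0,[(18,0)]⟩⟩ ⟨false,1,⟨0,[(3,0),(30,
  0)]⟩,⟨4,[(0,1),(5,0),(7,1),(2,0),(4,1),(9,1),(0,0)]⟩⟩ ⟨true,0,⟨3,[(4,0),(2,1),(4,0),(1,1),(3,3),
  (1,0)]⟩,⟨0,[(19,0),(2,0)]⟩⟩]⟩) (.R ⟨1,false,false,true,[1,0,0,-1],[0,1],[1,0,0,0,0,0,0,0,-1],(⟨0,
  [(18,0)]⟩,⟨0,[(19,0)]⟩),(⟨0,[(31,0)]⟩,⟨0,[(30,0)]⟩),⟨0,[(1,0)]⟩,.k,.k,(.x (-1) ⟨3,[(16,0),(0,0),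
  (11,1),(0,3)]⟩ ⟨0,[(31,0)]⟩),(.x (-1) ⟨3,[(16,0),(0,0),(11,1),(0,3)]⟩ ⟨0,[(31,0)]⟩),(.r (-1) ⟨0,
  [(0,0),(25,0),(7,0)]⟩ ⟨2,[(2,2),(6,0),(1,0),(7,2),(4,0),(7,0),(0,4)]⟩),.k,⟨false,1,⟨0,[(0,0),(11,
  0)]⟩,⟨0,[(2,0),(16,0),(13,0),(4,0)]⟩⟩,⟨true,0,⟨0,[(18,0)]⟩,⟨2,[(4,0),(14,2),(1,1),(2,0)]⟩⟩,⟨true,
  0,⟨0,[]⟩,⟨0,[(38,0)]⟩⟩,⟨false,0,⟨1,[(2,1),(6,0),(4,0),(3,0),(0,0),(18,0)]⟩,⟨3,[(0,1),(3,1),(2,1),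
  (8,0),(2,3),(16,0)]⟩⟩,⟨false,1,⟨0,[(33,0),(2,0)]⟩,⟨0,[(34,0)]⟩⟩,⟨false,0,⟨0,[(2,0),(6,0),(4,0)]⟩,
  ⟨3,[(0,1),(3,1),(2,1),(8,0),(2,3),(14,3),(1,0)]⟩⟩,[.o ⟨false,0,⟨0,[(33,0)]⟩,⟨1,[(29,0),(4,1),(1,
  0)]⟩⟩,.o ⟨false,1,⟨3,[(16,0),(0,0),(15,3),(2,1)]⟩,⟨0,[(4,0),(3,0)]⟩⟩,.o ⟨false,1,⟨1,[(19,1),(9,0),
  (5,0)]⟩,⟨2,[(4,0),(13,2),(2,1),(2,0)]⟩⟩,.a ⟨true,0,⟨0,[(19,0)]⟩,⟨0,[(18,0)]⟩⟩ ⟨false,1,⟨0,[(3,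
  0)]⟩,⟨0,[(2,0),(16,0),(18,0)]⟩⟩ ⟨true,0,⟨0,[(18,0),(14,0)]⟩,⟨0,[(4,0),(3,0),(10,0)]⟩⟩]⟩)) (.I [1,
  -1,0,0,0,0,0,-1,1] (.R ⟨0,false,false,false,[1,0,0,-1],[1,0,-1],[0,1,0,0,0,0,0,0,-1],(⟨0,[(18,
  0)]⟩,⟨0,[(19,0)]⟩),(⟨0,[(27,0)]⟩,⟨0,[(28,0)]⟩),⟨0,[(1,0)]⟩,.k,.k,(.x (-1) ⟨3,[(16,0),(0,0),(11,1),
  (0,3)]⟩ ⟨0,[(31,0)]⟩),.k,.k,.k,⟨false,1,⟨3,[(3,1),(4,1),(5,1),(1,0),(5,3),(12,0)]⟩,⟨0,[(0,0)]⟩⟩,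
  ⟨true,0,⟨0,[(18,0),(2,0)]⟩,⟨2,[(4,0),(10,0),(3,2)]⟩⟩,⟨true,0,⟨0,[(38,0)]⟩,⟨0,[]⟩⟩,⟨false,0,⟨2,[(0,
  0),(1,1),(8,0),(0,0),(5,0),(4,0)]⟩,⟨0,[(3,0),(15,0),(2,0)]⟩⟩,⟨false,0,⟨0,[]⟩,⟨0,[]⟩⟩,⟨false,0,⟨0,
  []⟩,⟨0,[]⟩⟩,[.o ⟨false,0,⟨3,[(4,0),(2,1),(4,0),(1,1),(5,0)]⟩,⟨3,[(16,0),(0,0),(4,3),(13,1)]⟩⟩,.o
  ⟨false,1,⟨0,[(20,0),(15,0)]⟩,⟨0,[(22,0)]⟩⟩,.o ⟨false,1,⟨1,[(19,1),(9,0),(5,0)]⟩,⟨2,[(4,0),(13,2),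
  (2,1),(2,0)]⟩⟩,.a ⟨true,0,⟨0,[(19,0)]⟩,⟨0,[(18,0)]⟩⟩ ⟨false,1,⟨1,[(16,0),(18,0)]⟩,⟨0,[(2,0),(16,
  0)]⟩⟩ ⟨true,0,⟨3,[(4,0),(2,1),(4,0),(1,1),(3,3),(1,0)]⟩,⟨0,[(19,0),(2,0)]⟩⟩]⟩) (.R ⟨0,false,false,
  true,[1,0,0,-1],[0,1],[0,1,0,0,0,0,0,0,-1],(⟨0,[(18,0)]⟩,⟨0,[(19,0)]⟩),(⟨0,[(31,0)]⟩,⟨0,[(30,
  0)]⟩),⟨0,[(1,0)]⟩,.k,.k,(.x (-1) ⟨3,[(16,0),(0,0),(11,1),(0,3)]⟩ ⟨0,[(31,0)]⟩),(.x (-1) ⟨3,[(16,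
  0),(0,0),(11,1),(0,3)]⟩ ⟨0,[(31,0)]⟩),.k,.k,⟨false,1,⟨1,[(0,1),(6,0),(0,0),(3,0),(2,0),(19,1)]⟩,
  ⟨0,[(2,0),(16,0),(13,0)]⟩⟩,⟨true,0,⟨0,[(18,0)]⟩,⟨2,[(4,0),(14,2),(1,1),(2,0)]⟩⟩,⟨true,0,⟨0,[(38,
  0)]⟩,⟨0,[]⟩⟩,⟨false,0,⟨1,[(2,1),(6,0),(4,0),(3,0),(0,0),(18,0)]⟩,⟨0,[(3,0),(0,0),(3,0),(10,0)]⟩⟩,
  ⟨false,0,⟨0,[]⟩,⟨0,[]⟩⟩,⟨false,0,⟨0,[]⟩,⟨0,[]⟩⟩,[.o ⟨false,0,⟨0,[(33,0)]⟩,⟨1,[(29,0),(4,1),(1,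
  0)]⟩⟩,.o ⟨false,1,⟨3,[(16,0),(0,0),(15,3),(2,1)]⟩,⟨0,[(4,0),(3,0)]⟩⟩,.o ⟨false,1,⟨1,[(19,1),(9,0),
  (5,0)]⟩,⟨2,[(4,0),(13,2),(2,1),(2,0)]⟩⟩,.a ⟨true,0,⟨0,[(19,0)]⟩,⟨0,[(18,0)]⟩⟩ ⟨false,1,⟨1,[(16,0),
  (18,0)]⟩,⟨0,[(2,0),(16,0)]⟩⟩ ⟨true,0,⟨0,[(18,0),(14,0)]⟩,⟨0,[(4,0),(3,0),(10,0)]⟩⟩]⟩))) (.Q [0,1,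
  1,0,0,0,0,0,1,0,0,-1] (.p false [0,0,0,1] [] (⟨0,[(17,0)]⟩,⟨0,[(16,0)]⟩) .k 0 (⟨0,[]⟩,⟨0,[]⟩) .k
  .k) (.K ⟨0,[0,0,0,1],0,0,(⟨0,[(18,0)]⟩,⟨0,[(17,0)]⟩),.k,(.r (-1) ⟨1,[(16,0),(16,1),(0,0)]⟩ ⟨2,[(1,
  2),(1,0),(13,2),(2,1),(2,0),(7,2),(0,2)]⟩),(.x 0 ⟨0,[(30,0)]⟩ ⟨3,[(15,0),(0,0),(11,1),(0,3)]⟩),.k,
  .k,[⟨0,[(18,0)]⟩,⟨0,[(17,0)]⟩,⟨0,[(1,0)]⟩,⟨0,[(0,0)]⟩]⟩) (.Q [0,0,0,0,0,1,0,0,0,-1,0,1] (.ed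
  false [0,1,0,1] .k) (.R ⟨0,false,false,false,[1,0,0,-1],[1,0,-1],[0,1,0,0,0,0,0,0,-1],(⟨0,[(18,
  0)]⟩,⟨0,[(19,0)]⟩),(⟨0,[(27,0)]⟩,⟨0,[(28,0)]⟩),⟨0,[(0,0)]⟩,.k,.k,(.x (-1) ⟨3,[(16,0),(0,0),(11,1),
  (0,3)]⟩ ⟨0,[(31,0)]⟩),.k,.k,.k,⟨false,0,⟨0,[(1,0),(2,0),(3,0),(5,0),(3,0),(3,0)]⟩,⟨1,[(17,0),(8,
  1),(9,0)]⟩⟩,⟨true,0,⟨0,[(18,0),(2,0)]⟩,⟨2,[(4,0),(10,0),(3,2)]⟩⟩,⟨true,0,⟨0,[(38,0)]⟩,⟨0,[]⟩⟩,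
  ⟨false,1,⟨1,[(17,0),(0,1),(2,1),(4,1),(9,0)]⟩,⟨0,[(1,0),(20,0)]⟩⟩,⟨false,0,⟨0,[]⟩,⟨0,[]⟩⟩,⟨false,
  0,⟨0,[]⟩,⟨0,[]⟩⟩,[.o ⟨false,0,⟨3,[(4,0),(2,1),(4,0),(1,1),(5,0)]⟩,⟨3,[(16,0),(0,0),(4,3),(13,
  1)]⟩⟩,.o ⟨false,1,⟨0,[(20,0),(15,0)]⟩,⟨0,[(22,0)]⟩⟩,.o ⟨false,1,⟨1,[(2,0),(3,0),(12,0),(9,0)]⟩,⟨2,
  [(4,0),(13,2),(2,1),(2,0)]⟩⟩,.a ⟨true,0,⟨0,[(19,0)]⟩,⟨0,[(18,0)]⟩⟩ ⟨false,0,⟨3,[(1,2),(0,0),(1,3),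
  (3,1),(5,1),(3,3)]⟩,⟨1,[(17,0),(6,0),(0,0),(10,0)]⟩⟩ ⟨true,0,⟨3,[(4,0),(2,1),(4,0),(1,1),(3,3),(1,
  0)]⟩,⟨0,[(19,0),(2,0)]⟩⟩]⟩) (.R ⟨1,false,false,false,[1,0,0,-1],[1,0,-1],[1,1,0,0,0,0,0,0,-1],(⟨0,
  [(18,0)]⟩,⟨0,[(19,0)]⟩),(⟨0,[(27,0)]⟩,⟨0,[(28,0)]⟩),⟨0,[(0,0)]⟩,.k,.k,(.x (-1) ⟨3,[(16,0),(0,0),
  (11,1),(0,3)]⟩ ⟨0,[(31,0)]⟩),.k,(.x 0 ⟨0,[(4,0),(23,0),(1,0)]⟩ ⟨15,[(5,7),(0,3),(1,3),(1,3),(3,3),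
  (1,6),(0,4),(13,11)]⟩),.k,⟨false,0,⟨0,[(1,0),(2,0),(3,0),(5,0),(3,0),(3,0)]⟩,⟨1,[(17,0),(8,1),(9,
  0)]⟩⟩,⟨true,0,⟨0,[(18,0),(2,0)]⟩,⟨2,[(4,0),(10,0),(3,2)]⟩⟩,⟨false,0,⟨0,[]⟩,⟨3,[(16,0),(0,0),(18,
  1)]⟩⟩,⟨false,1,⟨1,[(17,0),(0,1),(2,1),(4,1),(9,0)]⟩,⟨0,[(1,0),(20,0)]⟩⟩,⟨true,0,⟨0,[(33,0)]⟩,⟨0,
  [(34,0)]⟩⟩,⟨false,1,⟨1,[(12,1),(4,0),(0,1),(2,1),(11,1),(2,0)]⟩,⟨0,[(1,0),(20,0),(11,0)]⟩⟩,[.o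
  ⟨false,0,⟨3,[(4,0),(2,1),(4,0),(1,1),(5,0)]⟩,⟨3,[(16,0),(0,0),(4,3),(13,1)]⟩⟩,.o ⟨false,1,⟨0,[(20,
  0),(15,0)]⟩,⟨0,[(22,0)]⟩⟩,.o ⟨false,1,⟨1,[(2,0),(3,0),(12,0),(9,0)]⟩,⟨2,[(4,0),(13,2),(2,1),(2,
  0)]⟩⟩,.a ⟨true,0,⟨0,[(19,0)]⟩,⟨0,[(18,0)]⟩⟩ ⟨false,0,⟨3,[(1,2),(0,0),(1,3),(3,1),(5,1),(3,3)]⟩,⟨1,
  [(17,0),(6,0),(0,0),(10,0)]⟩⟩ ⟨true,0,⟨3,[(4,0),(2,1),(4,0),(1,1),(3,3),(1,0)]⟩,⟨0,[(19,0),(2,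
  0)]⟩⟩]⟩)))) (.Q [0,1,1,0,-1,0,0,0,1,0,0,-1] (.p false [0,0,0,1] [] (⟨0,[(16,0)]⟩,⟨0,[(15,0)]⟩) .k
  0 (⟨0,[]⟩,⟨0,[]⟩) .k .k) (.K ⟨0,[0,0,0,1],0,(-1),(⟨0,[(17,0)]⟩,⟨0,[(16,0)]⟩),.k,(.x 0 ⟨0,[(19,0),
  (2,0),(5,0)]⟩ ⟨0,[(29,0),(3,0)]⟩),(.x 0 ⟨0,[(29,0)]⟩ ⟨3,[(14,0),(0,0),(11,1),(0,3)]⟩),.k,.k,[⟨0,
  [(17,0)]⟩,⟨0,[(16,0)]⟩,⟨1,[(14,0),(2,1),(15,0),(2,1)]⟩,⟨0,[(0,0)]⟩]⟩) (.R ⟨0,false,false,true,[0,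
  0,1],[0,0,0,1],[0,1],(⟨0,[(26,0)]⟩,⟨0,[(25,0)]⟩),(⟨0,[(17,0)]⟩,⟨0,[(16,0)]⟩),⟨0,[(3,0)]⟩,.k,.k,.k,
  .k,.k,.k,⟨false,1,⟨1,[(14,0),(18,0)]⟩,⟨1,[(1,0),(2,0)]⟩⟩,⟨true,0,⟨0,[(16,0),(2,0)]⟩,⟨2,[(2,0),(10,
  0),(3,2)]⟩⟩,⟨false,0,⟨0,[(24,0)]⟩,⟨1,[(0,0),(3,0),(4,0),(6,0),(3,1),(9,0)]⟩⟩,⟨true,(-1),⟨3,[(1,3),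
  (0,0),(2,1),(4,0),(1,1),(3,3),(1,0)]⟩,⟨0,[(0,0),(19,0)]⟩⟩,⟨false,0,⟨0,[]⟩,⟨0,[]⟩⟩,⟨false,0,⟨0,[]⟩,
  ⟨0,[]⟩⟩,[.a ⟨true,(-1),⟨0,[(1,0),(14,0)]⟩,⟨0,[(0,0)]⟩⟩ ⟨true,0,⟨0,[(36,0)]⟩,⟨3,[(22,0),(0,0),(6,
  1)]⟩⟩ ⟨false,0,⟨3,[(1,3),(7,1),(6,3),(10,0),(5,2)]⟩,⟨2,[(0,2),(1,0),(10,0)]⟩⟩,.o ⟨false,0,⟨5,[(1,
  3),(13,0),(0,5),(10,2),(2,1)]⟩,⟨2,[(0,2),(1,1),(3,0),(5,0),(5,0),(1,0)]⟩⟩,.o ⟨false,0,⟨2,[(2,0),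
  (10,0)]⟩,⟨3,[(9,1),(4,0),(0,0),(11,0),(5,0)]⟩⟩,.o ⟨false,0,⟨0,[(22,0)]⟩,⟨3,[(9,1),(17,0),(5,
  2)]⟩⟩]⟩)))))))

theorem ok63 : chk (cU (-1) true 10) t63 l35 = true := by decide +kernel

noncomputable def t70 : Tre :=
  (.R ⟨1,false,false,false,[1,-1,-1],[0,-1,1],[1],(⟨0,[(15,0)]⟩,⟨0,[(30,0),(2,0)]⟩),(⟨0,[(6,0)]⟩,⟨0,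
  [(29,0),(3,0)]⟩),⟨0,[(8,0)]⟩,.k,.k,(.r (-1) ⟨7,[(1,3),(3,3),(12,0),(0,0),(8,3),(8,1)]⟩ ⟨1,[(7,1),
  (18,0),(0,0),(7,1)]⟩),.k,(.x 0 ⟨0,[(12,0)]⟩ ⟨1,[(17,1),(12,3),(0,0),(1,1),(3,0)]⟩),.k,⟨false,0,⟨3,
  [(2,1),(7,0),(0,0),(5,0)]⟩,⟨7,[(0,3),(4,3),(3,3),(3,3),(4,0),(0,0),(17,1)]⟩⟩,⟨true,0,⟨0,[(17,0)]⟩,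
  ⟨0,[(13,0)]⟩⟩,⟨false,0,⟨0,[(7,0)]⟩,⟨15,[(1,3),(3,3),(12,4),(0,4),(8,11),(8,1)]⟩⟩,⟨false,1,⟨0,[(0,
  0),(8,0),(28,0)]⟩,⟨0,[(3,0)]⟩⟩,⟨true,0,⟨0,[(7,0),(27,0)]⟩,⟨0,[(1,0)]⟩⟩,⟨false,1,⟨5,[(0,3),(6,1),
  (1,5),(1,1),(25,0),(0,4)]⟩,⟨0,[(4,0)]⟩⟩,[.a ⟨true,0,⟨0,[(0,0)]⟩,⟨0,[(14,0),(1,0)]⟩⟩ ⟨true,0,⟨0,
  []⟩,⟨1,[(26,0),(0,0)]⟩⟩ ⟨false,1,⟨1,[(0,0),(4,0),(3,0),(7,0),(19,0)]⟩,⟨4,[(2,2),(4,0),(5,1),(12,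
  0),(0,0),(7,0)]⟩⟩,.o ⟨false,1,⟨1,[(0,1),(30,0),(6,0)]⟩,⟨1,[(2,0),(6,0),(12,0)]⟩⟩,.o ⟨false,0,⟨0,
  [(23,0)]⟩,⟨7,[(17,3),(0,0),(0,0),(11,1),(5,3)]⟩⟩,.o ⟨false,0,⟨0,[(13,0),(12,0)]⟩,⟨17,[(1,1),(3,3),
  (4,11),(6,1),(6,1),(6,0),(5,12)]⟩⟩]⟩)

theorem ok70 : chk (cU (-1) true 10) t70 l45 = true := by decide +kernel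

noncomputable def t90 : Tre :=
  (.Q [0,0,0,0,0,0,-1,-1,0,-1,1] (.p true [0,0,1] [1] (⟨0,[(31,0)]⟩,⟨0,[(30,0)]⟩) .k 1 (⟨0,[]⟩,⟨0,
  []⟩) .k .k) (.Q [0,0,0,1,0,0,0,0,0,1] (.pp false [-1,1]) (.R ⟨0,false,false,false,[0,-1,1],[1,-1],
  [1],(⟨0,[(9,0)]⟩,⟨1,[(2,0),(20,0),(0,0),(7,0)]⟩),(⟨0,[(35,0)]⟩,⟨0,[(36,0)]⟩),⟨0,[(2,0)]⟩,.k,.k,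
  (.x 0 ⟨2,[(9,3),(1,0),(4,0),(12,4)]⟩ ⟨2,[(0,0),(1,2),(0,0),(4,0),(10,0),(20,0)]⟩),.k,.k,.k,⟨true,
  0,⟨1,[(4,0),(23,0),(0,0)]⟩,⟨0,[(39,0)]⟩⟩,⟨false,1,⟨7,[(3,3),(17,0),(0,0),(11,1)]⟩,⟨1,[(20,0),(2,
  0),(0,0)]⟩⟩,⟨false,0,⟨1,[(5,0),(8,0),(14,0),(7,0)]⟩,⟨11,[(0,1),(2,1),(4,7),(1,1),(10,0),(0,0),(4,
  9),(2,5)]⟩⟩,⟨true,0,⟨0,[(1,0)]⟩,⟨0,[(23,0),(0,0),(2,0)]⟩⟩,⟨false,0,⟨0,[]⟩,⟨0,[]⟩⟩,⟨false,0,⟨0,[]⟩,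
  ⟨0,[]⟩⟩,[.a ⟨true,0,⟨0,[(39,0)]⟩,⟨0,[(0,0)]⟩⟩ ⟨true,0,⟨0,[]⟩,⟨1,[(29,0),(0,0)]⟩⟩ ⟨false,1,⟨1,[(1,
  0),(1,0),(4,0),(18,0)]⟩,⟨1,[(14,1),(14,0),(0,0)]⟩⟩,.o ⟨false,1,⟨3,[(8,1),(17,1),(2,1),(4,0),(6,
  0)]⟩,⟨0,[(38,0)]⟩⟩,.o ⟨false,0,⟨0,[(29,0)]⟩,⟨7,[(3,3),(17,0),(0,0),(11,1)]⟩⟩,.o ⟨false,0,⟨1,[(29,
  2),(0,0)]⟩,⟨3,[(1,0),(1,2),(4,0),(4,1),(13,0)]⟩⟩]⟩) (.Q [0,0,0,-1,0,0,1,1,0,1,-1] (.p false [0,0,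
  1] [1] (⟨0,[(33,0)]⟩,⟨0,[(32,0)]⟩) .k 1 (⟨0,[]⟩,⟨0,[]⟩) .k .k) (.R ⟨2,true,false,false,[0,1],[1,1,
  -1],[0,1,1],(⟨0,[]⟩,⟨0,[]⟩),(⟨1,[(3,0),(20,0),(0,0),(7,0)]⟩,⟨0,[(10,0)]⟩),⟨0,[]⟩,.k,.k,.k,.k,.k,
  .k,⟨true,0,⟨0,[(0,0),(0,0),(18,0)]⟩,⟨1,[(6,0),(8,0),(14,0),(7,0)]⟩⟩,⟨false,1,⟨7,[(4,3),(17,0),(0,
  0),(11,1)]⟩,⟨4,[(0,1),(14,1),(2,0),(2,0),(7,0)]⟩⟩,⟨false,0,⟨0,[(40,0)]⟩,⟨27,[(5,7),(0,3),(7,3),(0,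
  3),(6,6),(0,6),(17,3),(0,9)]⟩⟩,⟨true,0,⟨0,[(2,0)]⟩,⟨0,[(0,0),(38,0)]⟩⟩,⟨true,0,⟨0,[(44,0)]⟩,⟨0,
  []⟩⟩,⟨false,1,⟨13,[(5,1),(0,7),(7,1),(7,1),(0,1),(11,2),(5,0),(0,5)]⟩,⟨0,[(0,0)]⟩⟩,[]⟩) (.I [0,-1,
  1,0,0,0,0,0,1] (.Q [0,1,1,0,-1,0,0,0,1,0,0,-1] (.p false [0,0,0,1] [] (⟨0,[(26,0)]⟩,⟨0,[(25,0)]⟩)
  .k 0 (⟨0,[]⟩,⟨0,[]⟩) .k .k) (.I [0,0,-1,-1,0,0,0,0,1] (.K ⟨0,[0,0,0,1],0,(-1),(⟨0,[(28,0)]⟩,⟨0,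
  [(27,0)]⟩),.k,(.r 0 ⟨0,[(0,0)]⟩ ⟨3,[(8,1),(16,2),(0,0),(5,1),(0,1)]⟩),(.x 0 ⟨0,[(40,0)]⟩ ⟨11,[(13,
  3),(1,3),(9,4),(0,4),(11,1)]⟩),.k,.k,[⟨0,[(28,0)]⟩,⟨0,[(27,0)]⟩,⟨1,[(25,0),(2,1),(15,0),(2,1)]⟩,
  ⟨0,[(1,0)]⟩]⟩) (.K ⟨0,[0,0,0,1],0,(-1),(⟨0,[(28,0)]⟩,⟨0,[(27,0)]⟩),.k,(.x 0 ⟨5,[(13,1),(1,1),(4,
  1),(12,6),(0,2)]⟩ ⟨0,[(40,0),(3,0)]⟩),(.x 0 ⟨0,[(40,0)]⟩ ⟨11,[(13,3),(1,3),(9,4),(0,4),(11,1)]⟩),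
  .k,.k,[⟨0,[(28,0)]⟩,⟨0,[(27,0)]⟩,⟨1,[(25,0),(2,1),(15,0),(2,1)]⟩,⟨0,[(1,0)]⟩]⟩)) (.Q [0,0,0,0,0,1,
  0,0,0,-1,0,1] (.ed false [0,1,0,1] .k) (.I [1,1,0,0,0,0,0,0,-1] (.R ⟨0,false,false,true,[1,0,0,
  -1],[0,1,1],[1,0,0,-1,0,0,0,0,-1],(⟨0,[(28,0)]⟩,⟨0,[(29,0)]⟩),(⟨0,[(38,0),(2,0)]⟩,⟨0,[(23,0)]⟩),
  ⟨0,[(1,0)]⟩,.k,.k,(.x (-1) ⟨11,[(14,3),(1,3),(9,4),(0,4),(11,1)]⟩ ⟨0,[(41,0)]⟩),(.x (-1) ⟨23,[(8,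
  3),(7,7),(3,7),(5,8),(0,8),(11,1)]⟩ ⟨2,[(5,0),(12,0),(6,0),(12,2),(2,2)]⟩),.k,.k,⟨false,1,⟨0,[(0,
  0),(12,0),(8,0)]⟩,⟨0,[(3,0),(13,0),(6,0)]⟩⟩,⟨true,0,⟨2,[(5,0),(12,0),(6,0),(2,2)]⟩,⟨0,[(29,0),(1,
  0)]⟩⟩,⟨true,0,⟨0,[(44,0)]⟩,⟨0,[(43,0)]⟩⟩,⟨false,0,⟨0,[(3,0),(13,0),(10,0)]⟩,⟨1,[(2,1),(2,0),(6,
  0)]⟩⟩,⟨false,0,⟨0,[]⟩,⟨0,[]⟩⟩,⟨false,0,⟨0,[]⟩,⟨0,[]⟩⟩,[.o ⟨false,0,⟨0,[(17,0)]⟩,⟨15,[(3,7),(8,7),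
  (0,3),(12,4),(0,0),(11,3),(6,1)]⟩⟩,.o ⟨false,1,⟨3,[(17,3),(8,0),(0,0),(18,1)]⟩,⟨1,[(5,0),(6,0)]⟩⟩,
  .o ⟨false,1,⟨1,[(29,1),(9,0),(5,0)]⟩,⟨2,[(5,0),(12,0),(9,2),(2,1),(2,0)]⟩⟩,.a ⟨true,0,⟨0,[(29,
  0)]⟩,⟨0,[(28,0)]⟩⟩ ⟨false,1,⟨5,[(0,1),(8,0),(3,3),(8,0),(3,1),(15,0)]⟩,⟨0,[(3,0),(39,0)]⟩⟩ ⟨true,
  0,⟨0,[(17,0),(10,0)]⟩,⟨1,[(5,0),(6,0),(16,1)]⟩⟩]⟩) (.R ⟨0,false,false,false,[1,0,0,-1],[1,0,-1],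
  [0,1,0,0,0,0,0,0,-1],(⟨0,[(28,0)]⟩,⟨0,[(29,0)]⟩),(⟨0,[(37,0)]⟩,⟨0,[(38,0)]⟩),⟨0,[(1,0)]⟩,.k,.k,
  (.x (-1) ⟨11,[(14,3),(1,3),(9,4),(0,4),(11,1)]⟩ ⟨0,[(41,0)]⟩),.k,.k,.k,⟨false,1,⟨1,[(8,0),(17,0),
  (1,0),(0,0),(2,1)]⟩,⟨0,[(0,0),(35,0)]⟩⟩,⟨true,0,⟨0,[(28,0),(2,0)]⟩,⟨3,[(1,2),(12,0),(1,0),(8,1),
  (3,0)]⟩⟩,⟨true,0,⟨0,[(48,0)]⟩,⟨0,[]⟩⟩,⟨false,0,⟨0,[(3,0),(2,0),(21,0)]⟩,⟨0,[(2,0),(29,0)]⟩⟩,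
  ⟨false,0,⟨0,[]⟩,⟨0,[]⟩⟩,⟨false,0,⟨0,[]⟩,⟨0,[]⟩⟩,[.o ⟨false,0,⟨0,[(6,0)]⟩,⟨3,[(26,0),(0,0),(4,3),
  (13,1)]⟩⟩,.o ⟨false,1,⟨7,[(11,3),(14,0),(0,0),(11,1),(6,3)]⟩,⟨0,[(32,0)]⟩⟩,.o ⟨false,1,⟨1,[(29,1),
  (9,0),(5,0)]⟩,⟨2,[(5,0),(12,0),(9,2),(2,1),(2,0)]⟩⟩,.a ⟨true,0,⟨0,[(29,0)]⟩,⟨0,[(28,0)]⟩⟩ ⟨false,
  1,⟨1,[(26,0),(18,0)]⟩,⟨0,[(3,0)]⟩⟩ ⟨true,0,⟨0,[(6,0),(21,0)]⟩,⟨0,[(29,0),(2,0)]⟩⟩]⟩)) (.I [0,-1,0,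
  0,0,0,0,-1,1] (.I [0,0,-1,-1,1,0,0,1,-1] (.R ⟨1,false,false,false,[1,0,0,-1],[1,0,-1],[1,1,0,0,0,
  0,0,0,-1],(⟨0,[(29,0)]⟩,⟨0,[(30,0)]⟩),(⟨0,[(38,0)]⟩,⟨0,[(39,0)]⟩),⟨0,[(2,0)]⟩,.k,.k,(.x (-1) ⟨11,
  [(15,3),(1,3),(9,4),(0,4),(11,1)]⟩ ⟨0,[(42,0)]⟩),.k,(.r (-1) ⟨0,[(0,0)]⟩ ⟨6,[(1,2),(2,3),(6,0),(8,
  0),(13,1),(0,2),(8,4)]⟩),.k,⟨false,1,⟨0,[(0,0),(43,0)]⟩,⟨0,[(1,0)]⟩⟩,⟨true,0,⟨0,[(29,0),(2,0)]⟩,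
  ⟨2,[(6,0),(12,0),(6,0),(3,2)]⟩⟩,⟨false,0,⟨0,[]⟩,⟨3,[(27,0),(0,0),(18,1)]⟩⟩,⟨false,0,⟨0,[(4,0),(2,
  0),(21,0)]⟩,⟨0,[(3,0),(29,0)]⟩⟩,⟨true,0,⟨0,[(44,0)]⟩,⟨0,[(45,0)]⟩⟩,⟨false,0,⟨0,[(4,0),(0,0),(23,
  0)]⟩,⟨2,[(0,1),(2,0),(2,0),(19,0),(3,1),(2,0)]⟩⟩,[.o ⟨false,0,⟨0,[(7,0)]⟩,⟨3,[(27,0),(0,0),(4,3),
  (13,1)]⟩⟩,.o ⟨false,1,⟨7,[(12,3),(14,0),(0,0),(11,1),(6,3)]⟩,⟨0,[(33,0)]⟩⟩,.o ⟨false,1,⟨1,[(30,1),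
  (9,0),(5,0)]⟩,⟨2,[(6,0),(12,0),(9,2),(2,1),(2,0)]⟩⟩,.a ⟨true,0,⟨0,[(30,0)]⟩,⟨0,[(29,0)]⟩⟩ ⟨false,
  1,⟨1,[(27,0),(18,0)]⟩,⟨0,[(4,0)]⟩⟩ ⟨true,0,⟨0,[(7,0),(21,0)]⟩,⟨0,[(30,0),(2,0)]⟩⟩]⟩) (.R ⟨1,false,
  false,false,[1,0,0,-1],[1,0,-1],[1,1,0,0,0,0,0,0,-1],(⟨0,[(29,0)]⟩,⟨0,[(30,0)]⟩),(⟨0,[(38,0)]⟩,⟨0,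
  [(39,0)]⟩),⟨0,[(2,0)]⟩,.k,.k,(.x (-1) ⟨11,[(15,3),(1,3),(9,4),(0,4),(11,1)]⟩ ⟨0,[(42,0)]⟩),.k,(.x
  0 ⟨2,[(6,0),(8,2),(3,0),(6,0)]⟩ ⟨17,[(8,9),(0,3),(11,1),(5,6),(0,6),(7,5),(1,3)]⟩),.k,⟨false,1,⟨1,
  [(9,0),(17,0),(1,0),(0,0),(2,1)]⟩,⟨0,[(1,0)]⟩⟩,⟨true,0,⟨0,[(29,0),(2,0)]⟩,⟨2,[(6,0),(12,0),(6,0),
  (3,2)]⟩⟩,⟨false,0,⟨0,[]⟩,⟨3,[(27,0),(0,0),(18,1)]⟩⟩,⟨false,0,⟨0,[(4,0),(2,0),(21,0)]⟩,⟨0,[(3,0),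
  (29,0)]⟩⟩,⟨true,0,⟨0,[(44,0)]⟩,⟨0,[(45,0)]⟩⟩,⟨false,0,⟨0,[(4,0),(0,0),(23,0)]⟩,⟨0,[(3,0),(29,0),
  (11,0)]⟩⟩,[.o ⟨false,0,⟨0,[(7,0)]⟩,⟨3,[(27,0),(0,0),(4,3),(13,1)]⟩⟩,.o ⟨false,1,⟨7,[(12,3),(14,0),
  (0,0),(11,1),(6,3)]⟩,⟨0,[(33,0)]⟩⟩,.o ⟨false,1,⟨1,[(30,1),(9,0),(5,0)]⟩,⟨2,[(6,0),(12,0),(9,2),(2,
  1),(2,0)]⟩⟩,.a ⟨true,0,⟨0,[(30,0)]⟩,⟨0,[(29,0)]⟩⟩ ⟨false,1,⟨1,[(27,0),(18,0)]⟩,⟨0,[(4,0)]⟩⟩ ⟨true,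
  0,⟨0,[(7,0),(21,0)]⟩,⟨0,[(30,0),(2,0)]⟩⟩]⟩)) (.R ⟨1,false,false,true,[1,0,0,-1],[0,1],[1,1,0,0,0,
  0,0,0,-1],(⟨0,[(28,0)]⟩,⟨0,[(29,0)]⟩),(⟨0,[(41,0)]⟩,⟨0,[(40,0)]⟩),⟨0,[(1,0)]⟩,.k,.k,(.x (-1) ⟨11,
  [(14,3),(1,3),(9,4),(0,4),(11,1)]⟩ ⟨0,[(41,0)]⟩),(.x (-1) ⟨11,[(14,3),(1,3),(9,4),(0,4),(11,1)]⟩
  ⟨0,[(41,0)]⟩),(.r (-1) ⟨0,[(0,0),(12,0),(22,0)]⟩ ⟨1,[(3,1),(5,0),(23,0),(0,0),(8,1)]⟩),.k,⟨false,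
  1,⟨1,[(0,1),(12,0),(8,0),(13,0),(8,0)]⟩,⟨0,[(3,0),(39,0)]⟩⟩,⟨true,0,⟨0,[(28,0)]⟩,⟨2,[(5,0),(12,0),
  (10,2),(1,1),(2,0)]⟩⟩,⟨false,0,⟨0,[]⟩,⟨3,[(26,0),(0,0),(18,1)]⟩⟩,⟨false,0,⟨0,[(3,0),(24,0),(14,
  0)]⟩,⟨0,[(2,0),(2,0)]⟩⟩,⟨true,0,⟨0,[(43,0)]⟩,⟨0,[(44,0)]⟩⟩,⟨false,0,⟨0,[(3,0),(14,0),(5,0),(3,
  0)]⟩,⟨0,[(2,0),(2,0),(38,0)]⟩⟩,[.o ⟨false,0,⟨0,[(43,0)]⟩,⟨19,[(3,5),(9,9),(12,2),(4,5),(2,5),(4,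
  6),(2,1)]⟩⟩,.o ⟨false,1,⟨8,[(9,1),(0,0),(7,0),(0,0),(6,3),(0,3),(15,1),(1,0)]⟩,⟨0,[(5,0)]⟩⟩,.o
  ⟨false,1,⟨1,[(29,1),(9,0),(5,0)]⟩,⟨2,[(5,0),(12,0),(9,2),(2,1),(2,0)]⟩⟩,.a ⟨true,0,⟨0,[(29,0)]⟩,
  ⟨0,[(28,0)]⟩⟩ ⟨false,1,⟨1,[(26,0),(18,0)]⟩,⟨0,[(3,0)]⟩⟩ ⟨true,0,⟨0,[(28,0),(14,0)]⟩,⟨0,[(5,0),(23,
  0)]⟩⟩]⟩)))) (.Q [0,1,1,0,0,0,0,0,1,0,0,-1] (.p false [0,0,0,1] [] (⟨0,[(26,0)]⟩,⟨0,[(25,0)]⟩) .k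
  0 (⟨0,[]⟩,⟨0,[]⟩) .k .k) (.K ⟨0,[0,0,0,1],0,0,(⟨0,[(27,0)]⟩,⟨0,[(26,0)]⟩),.k,(.r (-1) ⟨1,[(11,0),
  (13,0),(20,0)]⟩ ⟨11,[(1,11),(5,3),(0,1),(8,1),(14,8),(0,6),(6,3)]⟩),(.x 0 ⟨0,[(39,0)]⟩ ⟨11,[(12,
  3),(1,3),(9,4),(0,4),(11,1)]⟩),.k,.k,[⟨0,[(27,0)]⟩,⟨0,[(26,0)]⟩,⟨0,[(1,0),(25,0)]⟩,⟨0,[(0,0)]⟩]⟩)
  (.Q [0,0,0,0,0,-1,0,0,0,1,0,-1] (.ed true [0,1,0,1] .k) (.I [0,0,-1,-1,0,0,0,1,-1] (.R ⟨1,false,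
  false,false,[1,0,0,-1],[1,0,-1],[0,0,0,-1,0,0,0,0,-1],(⟨0,[(28,0)]⟩,⟨0,[(29,0)]⟩),(⟨0,[(37,0)]⟩,
  ⟨0,[(38,0)]⟩),⟨0,[(1,0)]⟩,.k,.k,(.x (-1) ⟨11,[(14,3),(1,3),(9,4),(0,4),(11,1)]⟩ ⟨0,[(41,0)]⟩),.k,
  (.r 0 ⟨0,[(0,0)]⟩ ⟨3,[(10,1),(8,1),(6,0),(0,2),(6,2),(0,0)]⟩),.k,⟨false,0,⟨0,[(0,0)]⟩,⟨3,[(10,1),
  (7,0),(0,0),(5,0),(0,0),(0,2)]⟩⟩,⟨true,0,⟨0,[(28,0),(2,0)]⟩,⟨2,[(5,0),(12,0),(6,0),(3,2)]⟩⟩,⟨true,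
  0,⟨0,[(44,0)]⟩,⟨0,[(43,0)]⟩⟩,⟨false,1,⟨1,[(11,0),(15,0),(0,1),(2,0),(2,0),(11,0)]⟩,⟨0,[(2,0),(29,
  0)]⟩⟩,⟨false,1,⟨3,[(26,0),(0,0),(18,1)]⟩,⟨0,[]⟩⟩,⟨false,1,⟨39,[(9,7),(0,23),(15,0),(0,20),(0,39),
  (2,11),(2,19),(4,1),(6,15)]⟩,⟨2,[(0,1),(1,0),(2,0),(19,0),(3,1),(2,0)]⟩⟩,[.o ⟨false,0,⟨0,[(6,0)]⟩,
  ⟨3,[(26,0),(0,0),(4,3),(13,1)]⟩⟩,.o ⟨false,1,⟨7,[(11,3),(14,0),(0,0),(11,1),(6,3)]⟩,⟨0,[(32,0)]⟩⟩,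
  .o ⟨false,1,⟨1,[(29,1),(9,0),(5,0)]⟩,⟨2,[(5,0),(12,0),(9,2),(2,1),(2,0)]⟩⟩,.a ⟨true,0,⟨0,[(29,
  0)]⟩,⟨0,[(28,0)]⟩⟩ ⟨false,0,⟨0,[(0,0),(21,0)]⟩,⟨3,[(9,1),(16,0),(0,2),(5,1),(0,1)]⟩⟩ ⟨true,0,⟨0,
  [(6,0),(21,0)]⟩,⟨0,[(29,0),(2,0)]⟩⟩]⟩) (.R ⟨1,false,false,false,[1,0,0,-1],[1,0,-1],[1,1,0,0,0,0,
  0,0,-1],(⟨0,[(28,0)]⟩,⟨0,[(29,0)]⟩),(⟨0,[(37,0)]⟩,⟨0,[(38,0)]⟩),⟨0,[(1,0)]⟩,.k,.k,(.x (-1) ⟨11,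
  [(14,3),(1,3),(9,4),(0,4),(11,1)]⟩ ⟨0,[(41,0)]⟩),.k,(.x 0 ⟨2,[(5,0),(8,2),(3,0),(6,0)]⟩ ⟨17,[(7,
  9),(0,3),(11,1),(5,6),(0,6),(7,5),(1,3)]⟩),.k,⟨false,0,⟨0,[(2,0),(2,0),(18,0),(3,0),(3,0)]⟩,⟨1,
  [(27,0),(8,1),(9,0)]⟩⟩,⟨true,0,⟨0,[(28,0),(2,0)]⟩,⟨2,[(5,0),(12,0),(6,0),(3,2)]⟩⟩,⟨false,0,⟨0,[]⟩,
  ⟨3,[(26,0),(0,0),(18,1)]⟩⟩,⟨false,1,⟨23,[(0,7),(11,7),(13,0),(0,8),(0,23),(2,11),(2,3),(4,1),(6,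
  11)]⟩,⟨0,[(2,0),(29,0)]⟩⟩,⟨true,0,⟨0,[(43,0)]⟩,⟨0,[(44,0)]⟩⟩,⟨false,1,⟨55,[(0,35),(8,3),(0,11),
  (10,15),(4,2),(0,12),(0,55),(10,13),(6,25)]⟩,⟨0,[(2,0),(29,0),(11,0)]⟩⟩,[.o ⟨false,0,⟨0,[(6,0)]⟩,
  ⟨3,[(26,0),(0,0),(4,3),(13,1)]⟩⟩,.o ⟨false,1,⟨7,[(11,3),(14,0),(0,0),(11,1),(6,3)]⟩,⟨0,[(32,0)]⟩⟩,
  .o ⟨false,1,⟨1,[(29,1),(9,0),(5,0)]⟩,⟨2,[(5,0),(12,0),(9,2),(2,1),(2,0)]⟩⟩,.a ⟨true,0,⟨0,[(29,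
  0)]⟩,⟨0,[(28,0)]⟩⟩ ⟨false,0,⟨4,[(2,2),(0,1),(0,0),(0,1),(11,0),(10,2)]⟩,⟨1,[(27,0),(6,0),(0,0),
  (10,0)]⟩⟩ ⟨true,0,⟨0,[(6,0),(21,0)]⟩,⟨0,[(29,0),(2,0)]⟩⟩]⟩)) (.R ⟨0,false,false,false,[1,0,0,-1],
  [1,0,-1],[0,1,0,0,0,0,0,0,-1],(⟨0,[(27,0)]⟩,⟨0,[(28,0)]⟩),(⟨0,[(36,0)]⟩,⟨0,[(37,0)]⟩),⟨0,[(0,0)]⟩,
  .k,.k,(.x (-1) ⟨11,[(13,3),(1,3),(9,4),(0,4),(11,1)]⟩ ⟨0,[(40,0)]⟩),.k,.k,.k,⟨false,0,⟨0,[(1,0),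
  (2,0),(18,0),(3,0),(3,0)]⟩,⟨1,[(26,0),(8,1),(9,0)]⟩⟩,⟨true,0,⟨0,[(27,0),(2,0)]⟩,⟨3,[(0,2),(12,0),
  (1,0),(8,1),(3,0)]⟩⟩,⟨true,0,⟨0,[(47,0)]⟩,⟨0,[]⟩⟩,⟨false,1,⟨1,[(10,0),(15,0),(0,1),(2,0),(2,0),
  (11,0)]⟩,⟨0,[(1,0),(29,0)]⟩⟩,⟨false,0,⟨0,[]⟩,⟨0,[]⟩⟩,⟨false,0,⟨0,[]⟩,⟨0,[]⟩⟩,[.o ⟨false,0,⟨0,[(5,
  0)]⟩,⟨3,[(25,0),(0,0),(4,3),(13,1)]⟩⟩,.o ⟨false,1,⟨7,[(10,3),(14,0),(0,0),(11,1),(6,3)]⟩,⟨0,[(31,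
  0)]⟩⟩,.o ⟨false,1,⟨1,[(28,1),(9,0),(5,0)]⟩,⟨2,[(4,0),(12,0),(9,2),(2,1),(2,0)]⟩⟩,.a ⟨true,0,⟨0,
  [(28,0)]⟩,⟨0,[(27,0)]⟩⟩ ⟨false,0,⟨4,[(1,2),(0,1),(0,0),(0,1),(11,0),(10,2)]⟩,⟨1,[(26,0),(6,0),(0,
  0),(10,0)]⟩⟩ ⟨true,0,⟨0,[(5,0),(21,0)]⟩,⟨0,[(28,0),(2,0)]⟩⟩]⟩)))))) (.R ⟨0,false,false,false,[0,
  -1,1],[1,0,-1],[1,0,0,0,0,0,0,-1],(⟨0,[(8,0)]⟩,⟨1,[(1,0),(20,0),(0,0),(7,0)]⟩),(⟨0,[(31,0)]⟩,⟨0,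
  [(32,0)]⟩),⟨0,[(1,0)]⟩,.k,.k,(.r (-1) ⟨1,[(0,0),(1,0),(4,0),(18,0),(11,1)]⟩ ⟨3,[(3,1),(0,1),(8,1),
  (13,1),(0,4),(0,0)]⟩),(.r (-1) ⟨15,[(0,18),(1,4),(4,8),(1,1),(5,9),(10,10),(6,1)]⟩ ⟨0,[(5,0),(7,
  0),(14,0)]⟩),.k,.k,⟨true,0,⟨0,[]⟩,⟨1,[(28,0),(0,0)]⟩⟩,⟨false,1,⟨0,[(2,0)]⟩,⟨1,[(19,1),(8,0),(0,
  0)]⟩⟩,⟨false,0,⟨3,[(4,0),(0,1),(7,2),(2,1),(11,2),(7,0)]⟩,⟨15,[(0,18),(1,4),(4,8),(1,1),(5,9),(10,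
  10),(6,1)]⟩⟩,⟨true,0,⟨0,[(4,0)]⟩,⟨0,[(0,0),(25,0),(11,0)]⟩⟩,⟨false,0,⟨0,[]⟩,⟨0,[]⟩⟩,⟨false,0,⟨0,
  []⟩,⟨0,[]⟩⟩,[.a ⟨true,0,⟨1,[(5,0),(16,0),(0,0)]⟩,⟨0,[(0,0)]⟩⟩ ⟨true,0,⟨0,[(30,0)]⟩,⟨0,[(0,0),(24,
  0)]⟩⟩ ⟨false,1,⟨1,[(2,0),(2,0),(33,0)]⟩,⟨0,[(0,0),(27,0)]⟩⟩,.o ⟨false,1,⟨7,[(5,3),(14,0),(0,0),
  (11,1),(6,3)]⟩,⟨0,[(26,0)]⟩⟩,.o ⟨false,0,⟨0,[(28,0)]⟩,⟨7,[(2,3),(17,0),(0,0),(11,1)]⟩⟩,.o ⟨false,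
  0,⟨1,[(28,2),(0,0)]⟩,⟨0,[(2,0),(9,0),(25,0)]⟩⟩]⟩))

theorem ok90 : chk (cU (-1) true 10) t90 l55 = true := by decide +kernel

noncomputable def t94 : Tre :=
  (.Q [0,0,0,0,0,0,1,1,0,1,-1] (.p false [0,0,1] [1] (⟨0,[(37,0)]⟩,⟨0,[(36,0)]⟩) .k 1 (⟨0,[]⟩,⟨0,
  []⟩) .k .k) (.I [0,1,-1,0,0,0,0,1,-1] (.Q [0,0,0,1,0,0,1,1,0,1,-1] (.p false [0,0,1] [1] (⟨0,[(39,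
  0)]⟩,⟨0,[(38,0)]⟩) .k 1 (⟨0,[]⟩,⟨0,[]⟩) .k .k) (.Q [0,0,0,0,0,0,1,1,0,0,-1,1] (.p false [0,0,1]
  [0,0,0,1] (⟨0,[(40,0)]⟩,⟨0,[(39,0)]⟩) .k 2 (⟨0,[(31,0)]⟩,⟨0,[(30,0)]⟩) .k (.r 0 ⟨4,[(1,3),(0,0),
  (4,0),(15,0),(12,0),(7,1)]⟩ ⟨3,[(28,0),(0,2),(8,3)]⟩)) (.R ⟨0,false,false,false,[1,0,0,-1],[1,0,
  -1],[1,0,1,0,0,0,0,-1],(⟨0,[(31,0)]⟩,⟨0,[(32,0)]⟩),(⟨0,[(40,0)]⟩,⟨0,[(41,0)]⟩),⟨0,[(4,0)]⟩,.k,.k,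
  (.x (-1) ⟨15,[(10,3),(8,3),(9,6),(0,6),(11,1)]⟩ ⟨0,[(44,0)]⟩),.k,.k,.k,⟨false,0,⟨0,[]⟩,⟨3,[(29,0),
  (0,0),(17,1)]⟩⟩,⟨true,0,⟨0,[(31,0),(2,0)]⟩,⟨5,[(4,3),(5,0),(8,0),(8,2),(3,1)]⟩⟩,⟨true,0,⟨0,[(7,0),
  (17,0)]⟩,⟨0,[(2,0)]⟩⟩,⟨false,1,⟨1,[(14,0),(15,0),(0,1),(2,0),(2,0),(11,0)]⟩,⟨0,[(5,0),(29,0)]⟩⟩,
  ⟨false,0,⟨0,[]⟩,⟨0,[]⟩⟩,⟨false,0,⟨0,[]⟩,⟨0,[]⟩⟩,[.a ⟨true,0,⟨1,[(14,0),(16,0),(0,0)]⟩,⟨0,[(3,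
  0)]⟩⟩ ⟨false,0,⟨0,[(39,0)]⟩,⟨15,[(1,3),(0,3),(8,3),(4,3),(1,3),(10,2),(0,4),(4,3)]⟩⟩ ⟨true,0,⟨1,
  [(14,0),(16,1),(2,0),(2,0)]⟩,⟨0,[(0,0)]⟩⟩,.o ⟨false,1,⟨7,[(14,3),(14,0),(0,0),(11,1),(6,3)]⟩,⟨0,
  [(35,0)]⟩⟩,.o ⟨false,1,⟨1,[(5,0),(0,0),(23,0),(11,0)]⟩,⟨0,[(21,0),(9,0),(2,0),(12,0)]⟩⟩,.e ⟨false,
  0,⟨0,[(25,0)]⟩,⟨51,[(2,11),(0,11),(12,7),(1,15),(5,11),(4,18),(0,24),(4,11)]⟩⟩ ⟨false,1,⟨7,[(14,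
  3),(14,0),(0,0),(0,7),(10,1),(6,3)]⟩,⟨0,[(0,0)]⟩⟩]⟩) (.R ⟨0,false,false,false,[1,0,0,-1],[1,0,-1],
  [1,0,1,0,0,0,0,-1],(⟨0,[(31,0)]⟩,⟨0,[(32,0)]⟩),(⟨0,[(40,0)]⟩,⟨0,[(41,0)]⟩),⟨0,[(4,0)]⟩,.k,.k,(.x
  (-1) ⟨15,[(10,3),(8,3),(9,6),(0,6),(11,1)]⟩ ⟨0,[(44,0)]⟩),.k,.k,.k,⟨false,0,⟨0,[]⟩,⟨3,[(29,0),(0,
  0),(17,1)]⟩⟩,⟨true,0,⟨0,[(31,0),(2,0)]⟩,⟨5,[(4,3),(5,0),(8,0),(8,2),(3,1)]⟩⟩,⟨true,0,⟨0,[(7,0),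
  (17,0)]⟩,⟨0,[(2,0)]⟩⟩,⟨false,1,⟨0,[(0,0),(6,0),(41,0)]⟩,⟨0,[(5,0),(29,0)]⟩⟩,⟨false,0,⟨0,[]⟩,⟨0,
  []⟩⟩,⟨false,0,⟨0,[]⟩,⟨0,[]⟩⟩,[.e ⟨false,0,⟨0,[(39,0)]⟩,⟨15,[(1,3),(0,3),(8,3),(4,3),(1,3),(10,2),
  (0,4),(4,3)]⟩⟩ ⟨false,0,⟨0,[(0,0)]⟩,⟨19,[(1,15),(4,3),(9,7),(12,0),(0,2),(1,15),(2,3),(6,7)]⟩⟩,.o
  ⟨false,1,⟨7,[(14,3),(14,0),(0,0),(11,1),(6,3)]⟩,⟨0,[(35,0)]⟩⟩,.o ⟨false,1,⟨1,[(5,0),(0,0),(23,0),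
  (11,0)]⟩,⟨2,[(0,1),(30,0),(2,0),(0,1),(1,0),(7,0)]⟩⟩,.a ⟨true,0,⟨0,[(32,0)]⟩,⟨0,[(31,0)]⟩⟩ ⟨false,
  0,⟨0,[(25,0)]⟩,⟨51,[(2,11),(0,11),(12,7),(1,15),(5,11),(4,18),(0,24),(4,11)]⟩⟩ ⟨true,0,⟨0,[(0,
  0)]⟩,⟨0,[(32,0),(2,0)]⟩⟩]⟩)) (.R ⟨2,false,false,false,[0,1],[1,0,-1],[1,0,1,0,0,0,0,-1],(⟨0,[]⟩,
  ⟨0,[]⟩),(⟨0,[(39,0)]⟩,⟨0,[(40,0)]⟩),⟨0,[]⟩,.k,.k,.k,.k,.k,.k,⟨false,0,⟨0,[]⟩,⟨3,[(28,0),(0,0),(17,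
  1)]⟩⟩,⟨true,0,⟨0,[(33,0)]⟩,⟨1,[(27,0),(2,0),(0,0)]⟩⟩,⟨false,0,⟨0,[(24,0),(21,0)]⟩,⟨7,[(1,3),(9,3),
  (16,2),(0,4)]⟩⟩,⟨true,0,⟨0,[(0,0)]⟩,⟨0,[(2,0),(42,0)]⟩⟩,⟨false,0,⟨0,[(24,0)]⟩,⟨51,[(1,11),(0,11),
  (12,7),(1,15),(5,11),(4,18),(0,24),(4,11)]⟩⟩,⟨false,1,⟨7,[(13,3),(14,0),(0,0),(11,1),(6,3)]⟩,⟨0,
  [(2,0)]⟩⟩,[.a ⟨true,0,⟨1,[(13,0),(16,0),(0,0)]⟩,⟨0,[(2,0)]⟩⟩ ⟨false,0,⟨0,[(38,0)]⟩,⟨4,[(2,1),(7,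
  1),(0,0),(3,0),(12,0),(0,0),(4,1)]⟩⟩ ⟨true,0,⟨1,[(13,0),(19,0),(2,0)]⟩,⟨0,[(2,0)]⟩⟩,.o ⟨false,1,
  ⟨7,[(13,3),(14,0),(0,0),(11,1),(6,3)]⟩,⟨0,[(34,0)]⟩⟩,.o ⟨false,1,⟨3,[(28,0),(0,0),(17,1)]⟩,⟨4,[(0,
  1),(19,1),(12,2),(0,1),(1,0),(7,0)]⟩⟩,.e ⟨false,0,⟨0,[(24,0)]⟩,⟨51,[(1,11),(0,11),(12,7),(1,15),
  (5,11),(4,18),(0,24),(4,11)]⟩⟩ ⟨false,1,⟨7,[(13,3),(14,0),(0,0),(11,1),(6,3)]⟩,⟨0,[(2,0)]⟩⟩]⟩))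
  (.Q [0,0,0,1,0,0,1,1,0,1,-1] (.p false [0,0,1] [1] (⟨0,[(39,0)]⟩,⟨0,[(38,0)]⟩) .k 1 (⟨0,[]⟩,⟨0,
  []⟩) .k .k) (.Q [0,0,0,0,0,0,1,1,0,0,-1,1] (.p false [0,0,1] [0,0,0,1] (⟨0,[(40,0)]⟩,⟨0,[(39,
  0)]⟩) .k 2 (⟨0,[(31,0)]⟩,⟨0,[(30,0)]⟩) .k (.r 0 ⟨0,[(4,0),(25,0),(2,0),(0,0)]⟩ ⟨3,[(28,0),(0,2),
  (8,3)]⟩)) (.Q [0,1,1,0,0,0,-1,-1,1,0,1,-1] (.p true [0,0,1] [0,0,0,1] (⟨0,[(41,0)]⟩,⟨0,[(40,0)]⟩)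
  .k 2 (⟨0,[(32,0)]⟩,⟨0,[(31,0)]⟩) .k (.r 0 ⟨0,[(5,0),(25,0),(2,0),(0,0)]⟩ ⟨3,[(29,0),(0,2),(8,
  3)]⟩)) (.R ⟨0,false,false,true,[1,0,0,-1],[1,0,-1],[1,1],(⟨0,[(32,0)]⟩,⟨0,[(33,0)]⟩),(⟨0,[(41,
  0)]⟩,⟨0,[(42,0)]⟩),⟨0,[(5,0)]⟩,.k,.k,(.x (-1) ⟨15,[(11,3),(8,3),(9,6),(0,6),(11,1)]⟩ ⟨0,[(45,
  0)]⟩),.k,.k,.k,⟨false,1,⟨4,[(2,0),(1,0),(7,1),(4,0),(1,0),(10,0),(0,0),(4,1)]⟩,⟨0,[(40,0)]⟩⟩,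
  ⟨true,0,⟨0,[(32,0),(2,0)]⟩,⟨5,[(5,3),(5,0),(8,0),(8,2),(3,1)]⟩⟩,⟨false,1,⟨3,[(30,0),(0,2)]⟩,⟨0,
  [(6,0),(15,0),(9,0),(2,0),(12,0)]⟩⟩,⟨true,0,⟨0,[(0,0)]⟩,⟨0,[(6,0),(29,0)]⟩⟩,⟨false,0,⟨0,[]⟩,⟨0,
  []⟩⟩,⟨false,0,⟨0,[]⟩,⟨0,[]⟩⟩,[.o ⟨false,0,⟨0,[(34,0)]⟩,⟨0,[(36,0),(13,0)]⟩⟩,.e ⟨true,0,⟨0,[]⟩,⟨1,
  [(38,0),(0,0)]⟩⟩ ⟨true,0,⟨1,[(15,0),(16,1),(2,0),(2,0)]⟩,⟨0,[(1,0)]⟩⟩,.o ⟨false,1,⟨1,[(6,0),(0,0),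
  (23,0),(11,0)]⟩,⟨0,[(22,0),(9,0),(2,0),(12,0)]⟩⟩,.a ⟨true,0,⟨0,[(33,0)]⟩,⟨0,[(32,0)]⟩⟩ ⟨false,1,
  ⟨3,[(30,0),(0,0),(17,1)]⟩,⟨3,[(38,0),(0,0),(6,1)]⟩⟩ ⟨true,0,⟨0,[(32,0),(1,0)]⟩,⟨0,[(1,0)]⟩⟩]⟩)
  (.Q [0,0,0,-1,0,0,0,0,0,-1,0,1] (.p true [0,0,0,1] [1] (⟨0,[(33,0)]⟩,⟨0,[(32,0)]⟩) .k 1 (⟨0,[]⟩,
  ⟨0,[]⟩) .k .k) (.R ⟨0,false,false,true,[1,0,0,-1],[0,1],[1,1],(⟨0,[(33,0)]⟩,⟨0,[(34,0)]⟩),(⟨0,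
  [(46,0)]⟩,⟨0,[(45,0)]⟩),⟨0,[(6,0)]⟩,.k,.k,(.x (-1) ⟨15,[(12,3),(8,3),(9,6),(0,6),(11,1)]⟩ ⟨0,[(46,
  0)]⟩),(.x (-1) ⟨15,[(12,3),(8,3),(9,6),(0,6),(11,1)]⟩ ⟨0,[(46,0)]⟩),.k,.k,⟨false,1,⟨1,[(18,0),(31,
  0),(2,0)]⟩,⟨1,[(14,0),(23,0),(0,0)]⟩⟩,⟨true,0,⟨0,[(33,0)]⟩,⟨5,[(0,1),(1,1),(8,0),(22,1),(1,2),(2,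
  2)]⟩⟩,⟨false,1,⟨3,[(31,0),(0,2)]⟩,⟨3,[(1,1),(8,1),(6,0),(5,0),(9,1),(2,0),(10,0)]⟩⟩,⟨true,0,⟨1,
  [(4,0),(4,0),(12,0),(6,0),(3,1)]⟩,⟨0,[(1,0),(15,0),(19,0)]⟩⟩,⟨false,0,⟨0,[]⟩,⟨0,[]⟩⟩,⟨false,0,⟨0,
  []⟩,⟨0,[]⟩⟩,[.o ⟨false,0,⟨0,[(48,0)]⟩,⟨3,[(18,1),(17,1),(2,1),(4,0),(6,0)]⟩⟩,.e ⟨true,0,⟨0,[]⟩,⟨1,
  [(39,0),(0,0)]⟩⟩ ⟨true,0,⟨1,[(14,0),(18,1),(4,0),(0,0)]⟩,⟨0,[(0,0)]⟩⟩,.o ⟨false,1,⟨1,[(7,0),(0,0),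
  (23,0),(11,0)]⟩,⟨0,[(23,0),(9,0),(2,0),(12,0)]⟩⟩,.a ⟨true,0,⟨0,[(34,0)]⟩,⟨0,[(33,0)]⟩⟩ ⟨false,1,
  ⟨3,[(31,0),(0,0),(17,1)]⟩,⟨3,[(39,0),(0,0),(6,1)]⟩⟩ ⟨true,0,⟨0,[(33,0),(14,0)]⟩,⟨0,[(0,0)]⟩⟩]⟩)
  (.R ⟨0,false,false,true,[1,0,0,-1],[0,1],[1,1],(⟨0,[(33,0)]⟩,⟨0,[(34,0)]⟩),(⟨0,[(46,0)]⟩,⟨0,[(45,
  0)]⟩),⟨0,[(6,0)]⟩,.k,.k,(.x (-1) ⟨15,[(12,3),(8,3),(9,6),(0,6),(11,1)]⟩ ⟨0,[(46,0)]⟩),(.x (-1)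
  ⟨15,[(12,3),(8,3),(9,6),(0,6),(11,1)]⟩ ⟨0,[(46,0)]⟩),.k,.k,⟨false,1,⟨1,[(18,0),(31,0),(2,0)]⟩,⟨1,
  [(14,0),(23,0),(0,0)]⟩⟩,⟨true,0,⟨0,[(33,0)]⟩,⟨6,[(6,4),(5,1),(12,0),(8,1),(1,1),(2,3)]⟩⟩,⟨false,1,
  ⟨3,[(31,0),(0,2)]⟩,⟨3,[(1,1),(8,1),(6,0),(5,0),(9,1),(2,0),(10,0)]⟩⟩,⟨true,0,⟨0,[(0,0),(8,0)]⟩,⟨0,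
  [(1,0),(15,0),(19,0)]⟩⟩,⟨false,0,⟨0,[]⟩,⟨0,[]⟩⟩,⟨false,0,⟨0,[]⟩,⟨0,[]⟩⟩,[.o ⟨false,0,⟨0,[(48,0)]⟩,
  ⟨3,[(18,1),(17,1),(2,1),(4,0),(6,0)]⟩⟩,.a ⟨true,0,⟨3,[(3,1),(7,0),(21,2),(0,2)]⟩,⟨0,[(49,0)]⟩⟩
  ⟨true,0,⟨0,[]⟩,⟨1,[(39,0),(0,0)]⟩⟩ ⟨false,0,⟨0,[(0,0)]⟩,⟨3,[(8,0),(0,0),(8,1),(15,2),(9,1)]⟩⟩,.o
  ⟨false,1,⟨1,[(7,0),(0,0),(23,0),(11,0)]⟩,⟨0,[(23,0),(9,0),(2,0),(12,0)]⟩⟩,.e ⟨false,1,⟨3,[(31,0),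
  (0,0),(17,1)]⟩,⟨3,[(39,0),(0,0),(6,1)]⟩⟩ ⟨false,0,⟨0,[(0,0)]⟩,⟨3,[(18,1),(15,3),(1,1),(2,1),(4,0),
  (6,0)]⟩⟩]⟩))) (.R ⟨0,false,false,true,[1,0,0,-1],[1,0,-1],[1,1],(⟨0,[(31,0)]⟩,⟨0,[(32,0)]⟩),(⟨0,
  [(40,0)]⟩,⟨0,[(41,0)]⟩),⟨0,[(4,0)]⟩,.k,.k,(.x (-1) ⟨15,[(10,3),(8,3),(9,6),(0,6),(11,1)]⟩ ⟨0,[(44,
  0)]⟩),.k,.k,.k,⟨false,1,⟨4,[(1,0),(1,0),(7,1),(4,0),(1,0),(10,0),(0,0),(4,1)]⟩,⟨0,[(39,0)]⟩⟩,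
  ⟨true,0,⟨0,[(31,0),(2,0)]⟩,⟨5,[(4,3),(5,0),(8,0),(8,2),(3,1)]⟩⟩,⟨false,1,⟨3,[(29,0),(0,2)]⟩,⟨1,
  [(0,0),(4,0),(2,0),(26,0),(9,0)]⟩⟩,⟨true,0,⟨0,[(0,0),(6,0)]⟩,⟨0,[(5,0),(29,0)]⟩⟩,⟨false,0,⟨0,[]⟩,
  ⟨0,[]⟩⟩,⟨false,0,⟨0,[]⟩,⟨0,[]⟩⟩,[.o ⟨false,0,⟨0,[(33,0)]⟩,⟨0,[(35,0),(13,0)]⟩⟩,.a ⟨true,0,⟨1,[(14,
  0),(16,0),(0,0)]⟩,⟨0,[(3,0)]⟩⟩ ⟨true,0,⟨0,[]⟩,⟨1,[(37,0),(0,0)]⟩⟩ ⟨false,0,⟨0,[(0,0)]⟩,⟨19,[(1,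
  15),(4,3),(9,7),(12,0),(0,2),(1,15),(2,3),(6,7)]⟩⟩,.o ⟨false,1,⟨1,[(5,0),(0,0),(23,0),(11,0)]⟩,⟨2,
  [(0,1),(30,0),(2,0),(0,1),(1,0),(7,0)]⟩⟩,.e ⟨false,1,⟨3,[(29,0),(0,0),(17,1)]⟩,⟨3,[(37,0),(0,0),
  (6,1)]⟩⟩ ⟨false,0,⟨0,[(0,0)]⟩,⟨0,[(32,0),(2,0),(13,0)]⟩⟩]⟩)) (.R ⟨2,false,false,false,[0,1],[1,0,
  -1],[1,0,1,0,0,0,0,-1],(⟨0,[]⟩,⟨0,[]⟩),(⟨0,[(39,0)]⟩,⟨0,[(40,0)]⟩),⟨0,[]⟩,.k,.k,.k,.k,.k,.k,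
  ⟨false,0,⟨0,[]⟩,⟨3,[(28,0),(0,0),(17,1)]⟩⟩,⟨true,0,⟨0,[(33,0)]⟩,⟨1,[(27,0),(2,0),(0,0)]⟩⟩,⟨false,
  0,⟨0,[(24,0),(21,0)]⟩,⟨17,[(2,3),(7,3),(0,7),(14,1),(1,6),(0,6),(4,5)]⟩⟩,⟨true,0,⟨0,[(0,0)]⟩,⟨0,
  [(2,0),(42,0)]⟩⟩,⟨false,0,⟨0,[(24,0)]⟩,⟨7,[(2,2),(7,0),(4,0),(1,1),(5,1),(4,2),(0,2),(4,2)]⟩⟩,
  ⟨false,1,⟨7,[(13,3),(14,0),(0,0),(11,1),(6,3)]⟩,⟨0,[(2,0)]⟩⟩,[.a ⟨true,0,⟨1,[(13,0),(16,0),(0,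
  0)]⟩,⟨0,[(2,0)]⟩⟩ ⟨false,0,⟨0,[(38,0)]⟩,⟨4,[(2,1),(7,1),(0,0),(3,0),(12,0),(0,0),(4,1)]⟩⟩ ⟨true,0,
  ⟨1,[(13,0),(19,0),(2,0)]⟩,⟨0,[(2,0)]⟩⟩,.o ⟨false,1,⟨7,[(13,3),(14,0),(0,0),(11,1),(6,3)]⟩,⟨0,[(34,
  0)]⟩⟩,.o ⟨false,1,⟨3,[(28,0),(0,0),(17,1)]⟩,⟨4,[(0,1),(19,1),(12,2),(0,1),(1,0),(7,0)]⟩⟩,.e
  ⟨false,0,⟨0,[(24,0)]⟩,⟨7,[(2,2),(7,0),(4,0),(1,1),(5,1),(4,2),(0,2),(4,2)]⟩⟩ ⟨false,1,⟨7,[(13,3),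
  (14,0),(0,0),(11,1),(6,3)]⟩,⟨0,[(2,0)]⟩⟩]⟩))) (.I [0,1,-1,0,0,0,0,1,-1] (.R ⟨0,false,false,false,
  [1,0,0,-1],[1,0,-1],[1,0,1,0,0,0,0,-1],(⟨0,[(29,0)]⟩,⟨0,[(30,0)]⟩),(⟨0,[(38,0)]⟩,⟨0,[(39,0)]⟩),⟨0,
  [(2,0)]⟩,.k,.k,(.x (-1) ⟨15,[(8,3),(8,3),(9,6),(0,6),(11,1)]⟩ ⟨0,[(42,0)]⟩),.k,.k,.k,⟨false,0,⟨0,
  []⟩,⟨3,[(27,0),(0,0),(17,1)]⟩⟩,⟨true,0,⟨0,[(29,0),(2,0)]⟩,⟨5,[(2,3),(5,0),(8,0),(8,2),(3,1)]⟩⟩,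
  ⟨true,0,⟨0,[(5,0),(17,0)]⟩,⟨0,[(0,0)]⟩⟩,⟨false,1,⟨1,[(12,0),(15,0),(0,1),(2,0),(2,0),(11,0)]⟩,⟨0,
  [(3,0),(29,0)]⟩⟩,⟨false,0,⟨0,[]⟩,⟨0,[]⟩⟩,⟨false,0,⟨0,[]⟩,⟨0,[]⟩⟩,[.o ⟨false,0,⟨0,[(1,0)]⟩,⟨3,[(27,
  0),(0,0),(4,3),(13,1)]⟩⟩,.o ⟨false,1,⟨7,[(12,3),(14,0),(0,0),(11,1),(6,3)]⟩,⟨0,[(33,0)]⟩⟩,.o
  ⟨false,1,⟨1,[(3,0),(0,0),(23,0),(11,0)]⟩,⟨2,[(1,1),(27,2),(2,0),(0,1),(1,0),(7,0)]⟩⟩,.a ⟨true,0,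
  ⟨0,[(30,0)]⟩,⟨0,[(29,0)]⟩⟩ ⟨false,0,⟨0,[(23,0)]⟩,⟨39,[(0,11),(13,7),(1,15),(10,12),(0,18),(4,11),
  (2,11)]⟩⟩ ⟨true,0,⟨0,[(1,0),(27,0)]⟩,⟨0,[(30,0),(2,0)]⟩⟩]⟩) (.Q [0,0,0,-1,0,0,0,0,0,-1,0,1] (.p
  true [0,0,0,1] [1] (⟨0,[(30,0)]⟩,⟨0,[(29,0)]⟩) .k 1 (⟨0,[]⟩,⟨0,[]⟩) .k .k) (.R ⟨0,false,false,
  true,[1,0,0,-1],[0,1],[1,1],(⟨0,[(30,0)]⟩,⟨0,[(31,0)]⟩),(⟨0,[(43,0)]⟩,⟨0,[(42,0)]⟩),⟨0,[(3,0)]⟩,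
  .k,.k,(.x (-1) ⟨15,[(9,3),(8,3),(9,6),(0,6),(11,1)]⟩ ⟨0,[(43,0)]⟩),(.x (-1) ⟨15,[(9,3),(8,3),(9,
  6),(0,6),(11,1)]⟩ ⟨0,[(43,0)]⟩),.k,.k,⟨false,1,⟨1,[(15,0),(31,0),(2,0)]⟩,⟨1,[(11,0),(23,0),(0,
  0)]⟩⟩,⟨true,0,⟨0,[(30,0)]⟩,⟨9,[(0,5),(4,0),(0,0),(1,0),(2,1),(19,2),(1,2),(2,4)]⟩⟩,⟨false,1,⟨3,
  [(28,0),(0,2)]⟩,⟨1,[(2,0),(1,0),(2,0),(22,0),(3,0),(9,0)]⟩⟩,⟨true,0,⟨1,[(1,0),(4,0),(12,0),(6,0),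
  (3,1)]⟩,⟨0,[(2,0),(1,0),(29,0),(11,0)]⟩⟩,⟨false,0,⟨0,[]⟩,⟨0,[]⟩⟩,⟨false,0,⟨0,[]⟩,⟨0,[]⟩⟩,[.o
  ⟨false,0,⟨0,[(45,0)]⟩,⟨3,[(15,1),(17,1),(2,1),(4,0),(6,0)]⟩⟩,.e ⟨true,0,⟨0,[]⟩,⟨1,[(36,0),(0,
  0)]⟩⟩ ⟨true,0,⟨1,[(11,0),(18,1),(4,0),(0,0)]⟩,⟨0,[(0,0)]⟩⟩,.o ⟨false,1,⟨1,[(4,0),(0,0),(23,0),(11,
  0)]⟩,⟨2,[(2,1),(27,2),(2,0),(0,1),(1,0),(7,0)]⟩⟩,.a ⟨true,0,⟨0,[(31,0)]⟩,⟨0,[(30,0)]⟩⟩ ⟨false,1,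
  ⟨3,[(28,0),(0,0),(17,1)]⟩,⟨3,[(36,0),(0,0),(6,1)]⟩⟩ ⟨true,0,⟨0,[(30,0),(14,0)]⟩,⟨0,[(0,0)]⟩⟩]⟩)
  (.R ⟨0,false,false,true,[1,0,0,-1],[0,1],[1,1],(⟨0,[(30,0)]⟩,⟨0,[(31,0)]⟩),(⟨0,[(43,0)]⟩,⟨0,[(42,
  0)]⟩),⟨0,[(3,0)]⟩,.k,.k,(.x (-1) ⟨15,[(9,3),(8,3),(9,6),(0,6),(11,1)]⟩ ⟨0,[(43,0)]⟩),(.x (-1) ⟨15,
  [(9,3),(8,3),(9,6),(0,6),(11,1)]⟩ ⟨0,[(43,0)]⟩),.k,.k,⟨false,1,⟨1,[(15,0),(31,0),(2,0)]⟩,⟨1,[(11,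
  0),(23,0),(0,0)]⟩⟩,⟨true,0,⟨0,[(30,0)]⟩,⟨6,[(3,4),(5,1),(12,0),(8,1),(1,1),(2,3)]⟩⟩,⟨false,1,⟨3,
  [(28,0),(0,2)]⟩,⟨1,[(2,0),(1,0),(2,0),(22,0),(3,0),(9,0)]⟩⟩,⟨true,0,⟨0,[(0,0),(5,0)]⟩,⟨0,[(2,0),
  (1,0),(29,0),(11,0)]⟩⟩,⟨false,0,⟨0,[]⟩,⟨0,[]⟩⟩,⟨false,0,⟨0,[]⟩,⟨0,[]⟩⟩,[.o ⟨false,0,⟨0,[(45,0)]⟩,
  ⟨3,[(15,1),(17,1),(2,1),(4,0),(6,0)]⟩⟩,.a ⟨true,0,⟨0,[(0,0),(30,0)]⟩,⟨0,[(46,0)]⟩⟩ ⟨true,0,⟨0,[]⟩,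
  ⟨1,[(36,0),(0,0)]⟩⟩ ⟨false,0,⟨0,[(0,0)]⟩,⟨3,[(5,0),(0,0),(8,1),(15,2),(9,1)]⟩⟩,.o ⟨false,1,⟨1,[(4,
  0),(0,0),(23,0),(11,0)]⟩,⟨2,[(2,1),(27,2),(2,0),(0,1),(1,0),(7,0)]⟩⟩,.e ⟨false,1,⟨3,[(28,0),(0,0),
  (17,1)]⟩,⟨3,[(36,0),(0,0),(6,1)]⟩⟩ ⟨false,0,⟨0,[(0,0)]⟩,⟨3,[(15,1),(15,3),(1,1),(2,1),(4,0),(6,
  0)]⟩⟩]⟩))))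

theorem ok94 : chk (cU (-1) true 10) t94 l61 = true := by decide +kernel

noncomputable def t95 : Tre :=
  (.R ⟨1,false,false,false,[1,0,0,-1],[1,0,-1],[0,1,0,-1,0,0,0,0,-1],(⟨0,[(29,0)]⟩,⟨0,[(30,0)]⟩),
  (⟨0,[(38,0)]⟩,⟨0,[(39,0)]⟩),⟨0,[(2,0)]⟩,.k,.k,(.x (-1) ⟨15,[(8,3),(8,3),(9,6),(0,6),(11,1)]⟩ ⟨0,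
  [(42,0)]⟩),.k,(.x 0 ⟨1,[(8,0),(10,1),(19,0),(5,1)]⟩ ⟨23,[(9,3),(11,7),(5,8),(0,8),(9,7),(1,1),(1,
  31)]⟩),.k,⟨false,0,⟨0,[(0,0)]⟩,⟨1,[(7,0),(18,0),(1,0),(18,0)]⟩⟩,⟨true,0,⟨0,[(29,0),(2,0)]⟩,⟨0,
  [(19,0),(10,0),(14,0)]⟩⟩,⟨false,0,⟨0,[(45,0)]⟩,⟨7,[(7,0),(2,1),(8,0),(0,0),(6,1),(0,1),(17,0),(0,
  2)]⟩⟩,⟨false,1,⟨0,[(1,0),(3,0),(41,0)]⟩,⟨0,[(3,0),(29,0)]⟩⟩,⟨true,0,⟨0,[(49,0)]⟩,⟨0,[]⟩⟩,⟨false,1,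
  ⟨15,[(1,11),(3,7),(1,3),(2,3),(16,0),(0,4),(0,3),(5,3),(11,9)]⟩,⟨0,[(3,0),(29,0),(11,0)]⟩⟩,[.e
  ⟨false,0,⟨0,[(0,0),(36,0)]⟩,⟨7,[(7,0),(2,1),(8,0),(0,0),(7,3),(17,0),(0,2)]⟩⟩ ⟨false,0,⟨0,[(1,
  0)]⟩,⟨5,[(4,1),(9,1),(3,3),(9,0),(1,3),(2,1),(13,2)]⟩⟩,.o ⟨false,1,⟨7,[(12,3),(14,0),(0,0),(11,1),
  (6,3)]⟩,⟨0,[(33,0)]⟩⟩,.o ⟨false,1,⟨1,[(3,0),(0,0),(23,0),(11,0)]⟩,⟨2,[(1,1),(27,0),(2,0),(0,1),(1,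
  0),(7,0)]⟩⟩,.a ⟨true,0,⟨0,[(30,0)]⟩,⟨0,[(29,0)]⟩⟩ ⟨false,0,⟨0,[(0,0),(22,0)]⟩,⟨13,[(5,7),(1,1),(2,
  3),(9,1),(6,0),(0,3),(6,1),(11,8)]⟩⟩ ⟨true,0,⟨0,[(1,0)]⟩,⟨0,[(30,0),(2,0)]⟩⟩]⟩)

theorem ok95 : chk (cU (-1) true 10) t95 l63 = true := by decide +kernel

noncomputable def t98 : Tre :=
  (.Q [0,1,1,-2,0,0,0,0,1,0,0,-1] (.p false [0,0,0,1] [] (⟨0,[(33,0)]⟩,⟨0,[(32,0)]⟩) .k 0 (⟨0,[]⟩,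
  ⟨0,[]⟩) .k .k) (.R ⟨1,false,false,false,[1,-1],[1,0,0,-1],[0,1,1],(⟨0,[(45,0)]⟩,⟨0,[(46,0)]⟩),(⟨0,
  [(33,0)]⟩,⟨0,[(34,0)]⟩),⟨2,[(12,0),(8,0),(23,1)]⟩,.k,.k,(.r (-1) ⟨2,[(0,0),(7,0),(9,1),(31,0)]⟩
  ⟨0,[(14,0),(23,0),(0,0)]⟩),(.r (-1) ⟨7,[(1,3),(29,0),(0,2)]⟩ ⟨1,[(10,1),(3,0),(23,0),(0,0)]⟩),(.r
  (-1) ⟨0,[(1,0)]⟩ ⟨0,[(10,0),(3,0),(23,0),(0,0)]⟩),.k,⟨true,0,⟨0,[(9,0)]⟩,⟨1,[(3,0),(6,0),(22,0),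
  (13,0)]⟩⟩,⟨false,1,⟨0,[(1,0),(0,0),(45,0)]⟩,⟨0,[(33,0),(2,0),(2,0)]⟩⟩,⟨false,0,⟨1,[(14,0),(23,0),
  (0,1),(0,0)]⟩,⟨14,[(1,0),(0,1),(1,0),(8,1),(0,0),(3,10),(4,3),(9,1),(16,0)]⟩⟩,⟨false,0,⟨0,[(2,
  0)]⟩,⟨13,[(0,9),(3,1),(9,1),(16,3),(0,4),(0,3),(10,1),(6,2)]⟩⟩,⟨false,0,⟨0,[(14,0),(23,0),(0,0)]⟩,
  ⟨0,[(18,0)]⟩⟩,⟨true,0,⟨0,[(2,0),(45,0)]⟩,⟨0,[(0,0)]⟩⟩,[.o ⟨false,0,⟨0,[(3,0)]⟩,⟨31,[(0,11),(3,7),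
  (4,3),(4,7),(16,8),(0,12),(0,19),(10,9)]⟩⟩,.a ⟨true,0,⟨0,[(7,0)]⟩,⟨0,[(9,0),(23,0)]⟩⟩ ⟨true,0,⟨1,
  [(39,0),(0,0)]⟩,⟨0,[]⟩⟩ ⟨false,1,⟨4,[(2,3),(5,0),(9,1),(31,2)]⟩,⟨10,[(0,7),(8,2),(1,1),(2,3),(11,
  0),(6,2),(5,5),(8,3)]⟩⟩,.o ⟨false,0,⟨6,[(0,1),(2,1),(19,3),(12,4),(2,0),(7,0)]⟩,⟨3,[(31,0),(0,0),
  (17,1)]⟩⟩,.o ⟨false,0,⟨0,[(36,0),(2,0)]⟩,⟨0,[(50,0)]⟩⟩]⟩) (.I [1,1,-2,-1,0,0,0,-1,-1] (.Q [0,0,0,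
  1,0,0,1,1,0,1,-1] (.p false [0,0,1] [1] (⟨0,[(44,0)]⟩,⟨0,[(43,0)]⟩) .k 1 (⟨0,[]⟩,⟨0,[]⟩) .k .k)
  (.R ⟨1,false,false,false,[1,0,0,-1],[0,1,1],[1,1,0,0,0,0,0,0,-1],(⟨0,[(35,0)]⟩,⟨0,[(36,0)]⟩),(⟨0,
  [(45,0),(2,0)]⟩,⟨0,[(30,0)]⟩),⟨0,[(8,0)]⟩,.k,.k,(.x (-1) ⟨15,[(14,3),(8,3),(9,6),(0,6),(11,1)]⟩
  ⟨0,[(48,0)]⟩),(.r 0 ⟨5,[(1,3),(10,1),(6,0),(12,0),(16,1),(1,0)]⟩ ⟨15,[(0,3),(10,3),(4,3),(5,3),(5,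
  3),(4,4),(0,10),(4,3)]⟩),(.r (-1) ⟨9,[(1,3),(1,1),(15,2),(0,3),(11,2),(0,3),(17,0)]⟩ ⟨0,[(11,0),
  (4,0)]⟩),.k,⟨false,0,⟨0,[(1,0)]⟩,⟨3,[(22,3),(10,0),(0,2)]⟩⟩,⟨true,0,⟨0,[(25,0),(9,0),(15,0)]⟩,⟨0,
  [(36,0),(1,0)]⟩⟩,⟨false,0,⟨0,[]⟩,⟨3,[(33,0),(0,0),(18,1)]⟩⟩,⟨false,1,⟨3,[(0,1),(21,1),(11,1),(0,
  3),(5,1),(4,0),(6,0)]⟩,⟨3,[(5,1),(3,0),(0,0),(8,1),(31,1)]⟩⟩,⟨true,0,⟨0,[(50,0)]⟩,⟨0,[(51,0)]⟩⟩,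
  ⟨false,1,⟨7,[(16,7),(15,3),(0,0),(0,4),(0,7),(10,1)]⟩,⟨3,[(5,1),(3,0),(0,0),(8,1),(31,5)]⟩⟩,[.a
  ⟨true,0,⟨0,[(0,0)]⟩,⟨1,[(19,0),(15,0),(0,0),(14,0)]⟩⟩ ⟨false,0,⟨4,[(1,1),(3,0),(4,0),(1,0),(11,1),
  (3,0),(6,1)]⟩,⟨1,[(34,0),(18,0)]⟩⟩ ⟨true,0,⟨1,[(16,0),(18,1),(3,0),(1,0)]⟩,⟨0,[(5,0),(0,0),(24,0),
  (19,2)]⟩⟩,.o ⟨false,1,⟨1,[(0,1),(45,0),(6,0)]⟩,⟨0,[(19,0),(19,0)]⟩⟩,.o ⟨false,1,⟨3,[(5,1),(4,1),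
  (23,1),(11,0),(6,0)]⟩,⟨2,[(7,1),(27,0),(2,0),(0,1),(1,0),(7,0)]⟩⟩,.e ⟨false,0,⟨0,[(5,0),(29,0)]⟩,
  ⟨0,[(11,0),(41,0)]⟩⟩ ⟨false,1,⟨1,[(0,1),(34,1),(10,0),(6,0)]⟩,⟨0,[(5,0),(0,0),(24,0),(19,2)]⟩⟩]⟩)
  (.Q [0,0,0,0,0,0,1,1,0,1,-1] (.p false [0,0,1] [1] (⟨0,[(45,0)]⟩,⟨0,[(44,0)]⟩) .k 1 (⟨0,[]⟩,⟨0,
  []⟩) .k .k) (.R ⟨2,false,false,false,[0,1],[1,0,-1],[1,0,1,0,0,0,0,-1],(⟨0,[]⟩,⟨0,[]⟩),(⟨0,[(45,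
  0)]⟩,⟨0,[(46,0)]⟩),⟨0,[]⟩,.k,.k,.k,.k,.k,.k,⟨false,0,⟨0,[]⟩,⟨3,[(34,0),(0,0),(17,1)]⟩⟩,⟨true,0,⟨0,
  [(39,0)]⟩,⟨1,[(33,0),(2,0),(0,0)]⟩⟩,⟨false,0,⟨0,[(30,0),(21,0)]⟩,⟨17,[(0,5),(15,3),(0,5),(7,5),(3,
  1),(4,6),(0,6)]⟩⟩,⟨true,0,⟨0,[(1,0)]⟩,⟨0,[(0,0),(50,0)]⟩⟩,⟨false,0,⟨0,[(30,0)]⟩,⟨71,[(0,23),(3,
  11),(11,7),(6,23),(5,15),(4,28),(0,22),(4,23)]⟩⟩,⟨false,1,⟨7,[(19,3),(14,0),(0,0),(11,1),(6,3)]⟩,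
  ⟨0,[(0,0)]⟩⟩,[.a ⟨true,0,⟨1,[(19,0),(16,0),(0,0)]⟩,⟨0,[(0,0)]⟩⟩ ⟨false,0,⟨0,[(44,0)]⟩,⟨11,[(0,3),
  (3,3),(11,3),(0,3),(16,2),(0,0),(4,3)]⟩⟩ ⟨true,0,⟨1,[(19,0),(19,0),(2,0)]⟩,⟨0,[(0,0)]⟩⟩,.o ⟨false,
  1,⟨7,[(19,3),(14,0),(0,0),(11,1),(6,3)]⟩,⟨0,[(40,0)]⟩⟩,.o ⟨false,1,⟨3,[(34,0),(0,0),(17,1)]⟩,⟨4,
  [(1,1),(24,1),(12,2),(0,1),(1,0),(7,0)]⟩⟩,.e ⟨false,0,⟨0,[(30,0)]⟩,⟨71,[(0,23),(3,11),(11,7),(6,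
  23),(5,15),(4,28),(0,22),(4,23)]⟩⟩ ⟨false,1,⟨7,[(19,3),(14,0),(0,0),(11,1),(6,3)]⟩,⟨0,[(0,
  0)]⟩⟩]⟩) (.Q [0,0,0,1,0,0,-1,-1,0,-1,1] (.p true [0,0,1] [1] (⟨0,[(46,0)]⟩,⟨0,[(45,0)]⟩) .k 1 (⟨0,
  []⟩,⟨0,[]⟩) .k .k) (.K ⟨1,[1,-1,0,-1],0,0,(⟨0,[(10,0)]⟩,⟨0,[(38,0),(11,0)]⟩),(.x (-1) ⟨15,[(16,3),
  (8,3),(9,6),(0,6),(11,1)]⟩ ⟨0,[(50,0)]⟩),(.r (-1) ⟨6,[(3,1),(8,0),(9,4),(7,0),(4,1),(1,0),(3,1),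
  (11,1)]⟩ ⟨9,[(8,1),(4,7),(1,1),(2,5),(9,1),(14,2),(0,0)]⟩),.k,.k,.k,[⟨1,[(37,1),(5,0),(0,0)]⟩,⟨2,
  [(7,1),(5,1),(24,0),(1,0),(2,0),(7,0)]⟩,⟨2,[(8,0),(4,1),(12,0),(6,0),(3,2)]⟩,⟨0,[(11,0),(41,
  0)]⟩]⟩) (.R ⟨2,false,false,false,[0,1],[1,1,-1],[1,0,1,1,0,0,0,-1],(⟨0,[]⟩,⟨0,[]⟩),(⟨0,[(46,0),(3,
  0)]⟩,⟨0,[(23,0)]⟩),⟨0,[]⟩,.k,.k,.k,.k,.k,.k,⟨true,0,⟨0,[]⟩,⟨1,[(43,0),(0,0)]⟩⟩,⟨false,1,⟨7,[(17,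
  3),(17,0),(0,0),(11,1)]⟩,⟨4,[(0,1),(27,1),(2,0),(2,0),(7,0)]⟩⟩,⟨false,0,⟨0,[(31,0)]⟩,⟨17,[(0,5),
  (16,3),(6,5),(5,1),(4,6),(0,6),(4,5)]⟩⟩,⟨true,0,⟨0,[(1,0)]⟩,⟨0,[(0,0),(51,0)]⟩⟩,⟨false,0,⟨3,[(4,
  0),(3,0),(0,0),(17,0),(3,1)]⟩,⟨23,[(0,23),(16,3),(12,7),(4,6),(0,6),(11,5)]⟩⟩,⟨false,1,⟨7,[(15,3),
  (19,0),(0,0),(11,1),(6,3)]⟩,⟨0,[(0,0)]⟩⟩,[.a ⟨true,0,⟨1,[(15,0),(21,0),(0,0)]⟩,⟨0,[(0,0)]⟩⟩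
  ⟨false,0,⟨1,[(15,0),(18,0)]⟩,⟨7,[(0,7),(16,3),(17,0),(0,0),(11,1)]⟩⟩ ⟨true,0,⟨1,[(15,0),(24,0),(2,
  0)]⟩,⟨0,[(0,0)]⟩⟩,.o ⟨false,1,⟨7,[(15,3),(19,0),(0,0),(11,1),(6,3)]⟩,⟨1,[(0,0),(1,0),(38,1)]⟩⟩,.o
  ⟨false,1,⟨3,[(35,0),(0,0),(17,1)]⟩,⟨4,[(2,1),(24,1),(12,2),(0,1),(1,0),(7,0)]⟩⟩,.e ⟨false,0,⟨3,
  [(4,0),(3,0),(0,0),(17,0),(3,1)]⟩,⟨23,[(0,23),(16,3),(12,7),(4,6),(0,6),(11,5)]⟩⟩ ⟨false,1,⟨7,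
  [(15,3),(19,0),(0,0),(11,1),(6,3)]⟩,⟨0,[(0,0)]⟩⟩]⟩)))) (.I [0,1,-1,-2,0,0,0,1,-1] (.Q [0,0,0,-1,0,
  0,1,1,0,0,-1,1] (.p false [0,0,1] [0,0,0,1] (⟨0,[(45,0)]⟩,⟨0,[(44,0)]⟩) .k 2 (⟨0,[(36,0)]⟩,⟨0,
  [(35,0)]⟩) .k (.r 0 ⟨1,[(0,0),(11,0),(3,0)]⟩ ⟨3,[(33,0),(0,2),(8,3)]⟩)) (.R ⟨1,false,false,false,
  [1,0,0,-1],[1,1,-1],[1,0,1,1,0,0,0,-1],(⟨0,[(36,0)]⟩,⟨0,[(37,0)]⟩),(⟨0,[(45,0),(3,0)]⟩,⟨0,[(22,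
  0)]⟩),⟨0,[(9,0)]⟩,.k,.k,(.x (-1) ⟨15,[(15,3),(8,3),(9,6),(0,6),(11,1)]⟩ ⟨0,[(49,0)]⟩),(.r (-1) ⟨1,
  [(1,0),(2,0),(12,0),(16,0)]⟩ ⟨3,[(7,1),(4,1),(1,0),(18,0)]⟩),(.r (-1) ⟨13,[(1,9),(2,1),(12,3),(3,
  5),(12,2),(18,2)]⟩ ⟨16,[(2,5),(4,3),(4,6),(1,7),(12,7),(13,2),(0,10)]⟩),.k,⟨true,0,⟨0,[]⟩,⟨1,[(42,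
  0),(0,0)]⟩⟩,⟨false,1,⟨7,[(16,3),(17,0),(0,0),(0,7),(10,1)]⟩,⟨4,[(0,0),(5,1),(0,0),(4,0),(20,1),(3,
  1)]⟩⟩,⟨false,0,⟨0,[(7,0)]⟩,⟨1,[(1,0),(2,0),(12,0),(16,0)]⟩⟩,⟨false,1,⟨23,[(2,7),(4,7),(0,15),(5,
  3),(19,6),(0,10),(0,7),(10,1),(6,3)]⟩,⟨1,[(0,0),(0,0),(8,0),(15,0)]⟩⟩,⟨true,0,⟨0,[(7,0),(43,0)]⟩,
  ⟨0,[(1,0)]⟩⟩,⟨false,1,⟨39,[(2,7),(4,15),(6,19),(2,7),(16,8),(0,16),(0,39),(10,9),(6,3)]⟩,⟨3,[(0,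
  2),(0,2),(8,0),(15,0),(3,1)]⟩⟩,[.a ⟨true,0,⟨1,[(14,0),(21,0),(0,0)]⟩,⟨0,[(0,0),(35,0)]⟩⟩ ⟨false,0,
  ⟨1,[(14,0),(18,0)]⟩,⟨3,[(1,1),(2,1),(12,1),(16,0),(0,0)]⟩⟩ ⟨true,0,⟨1,[(14,0),(21,1),(2,0),(2,
  0)]⟩,⟨0,[(0,0)]⟩⟩,.o ⟨false,1,⟨7,[(14,3),(19,0),(0,0),(11,1),(6,3)]⟩,⟨0,[(40,0),(11,0)]⟩⟩,.o
  ⟨false,1,⟨3,[(6,1),(4,1),(23,1),(11,0),(6,0)]⟩,⟨2,[(8,1),(27,0),(2,0),(0,1),(1,0),(7,0)]⟩⟩,.e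
  ⟨false,0,⟨3,[(3,0),(3,0),(0,0),(17,0),(3,1)]⟩,⟨15,[(1,7),(0,7),(1,3),(29,6),(0,4)]⟩⟩ ⟨false,1,⟨7,
  [(14,3),(19,0),(0,0),(0,7),(10,1),(6,3)]⟩,⟨0,[(0,0)]⟩⟩]⟩) (.R ⟨1,false,false,false,[1,0,0,-1],[1,
  1,-1],[1,0,1,1,0,0,0,-1],(⟨0,[(36,0)]⟩,⟨0,[(37,0)]⟩),(⟨0,[(45,0),(3,0)]⟩,⟨0,[(22,0)]⟩),⟨0,[(9,
  0)]⟩,.k,.k,(.x (-1) ⟨15,[(15,3),(8,3),(9,6),(0,6),(11,1)]⟩ ⟨0,[(49,0)]⟩),(.r (-1) ⟨1,[(1,0),(2,0),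
  (12,0),(16,0)]⟩ ⟨3,[(7,1),(4,1),(1,0),(18,0)]⟩),(.r (-1) ⟨13,[(1,9),(2,1),(12,3),(3,5),(12,2),(18,
  2)]⟩ ⟨16,[(2,5),(4,3),(4,6),(1,7),(12,7),(13,2),(0,10)]⟩),.k,⟨true,0,⟨0,[]⟩,⟨1,[(42,0),(0,0)]⟩⟩,
  ⟨false,1,⟨7,[(16,3),(17,0),(0,0),(0,7),(10,1)]⟩,⟨2,[(6,0),(0,0),(25,0),(3,1),(2,0),(11,0)]⟩⟩,
  ⟨false,0,⟨0,[(7,0)]⟩,⟨1,[(1,0),(2,0),(12,0),(16,0)]⟩⟩,⟨false,1,⟨5,[(0,1),(1,1),(4,1),(0,3),(25,1),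
  (0,2),(18,0)]⟩,⟨0,[(10,0),(29,0),(11,0)]⟩⟩,⟨true,0,⟨0,[(7,0),(43,0)]⟩,⟨0,[(1,0)]⟩⟩,⟨false,1,⟨19,
  [(0,19),(1,3),(4,7),(9,3),(16,6),(0,10),(18,1)]⟩,⟨0,[(10,0),(29,0),(11,1)]⟩⟩,[.e ⟨false,0,⟨1,[(14,
  0),(18,0)]⟩,⟨3,[(1,1),(2,1),(12,1),(16,0),(0,0)]⟩⟩ ⟨false,0,⟨0,[(0,0)]⟩,⟨7,[(21,3),(12,0),(0,0),
  (1,7),(2,7),(13,1)]⟩⟩,.o ⟨false,1,⟨7,[(14,3),(19,0),(0,0),(11,1),(6,3)]⟩,⟨0,[(40,0),(11,0)]⟩⟩,.o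
  ⟨false,1,⟨3,[(6,1),(4,1),(23,1),(11,0),(6,0)]⟩,⟨2,[(8,1),(27,0),(2,0),(0,1),(1,0),(7,0)]⟩⟩,.a
  ⟨true,0,⟨0,[(37,0)]⟩,⟨0,[(36,0)]⟩⟩ ⟨false,0,⟨4,[(0,0),(2,0),(3,0),(18,0),(3,2)]⟩,⟨15,[(1,7),(0,7),
  (1,3),(29,6),(0,4)]⟩⟩ ⟨true,0,⟨0,[(0,0)]⟩,⟨0,[(37,0),(2,0),(11,0)]⟩⟩]⟩)) (.Q [0,-1,-1,-1,0,0,-1,
  -1,-1,-1,1,1] (.p true [0,0,1] [1,0,0,-1] (⟨0,[(45,0)]⟩,⟨0,[(44,0)]⟩) .k 2 (⟨0,[(35,0)]⟩,⟨0,[(36,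
  0)]⟩) .k (.r (-1) ⟨11,[(1,7),(1,7),(20,3),(6,3),(1,2),(0,0)]⟩ ⟨0,[(12,0),(30,0)]⟩)) (.Q [0,1,1,0,
  0,0,1,1,1,1,-1,-1] (.p false [0,0,1] [1,0,0,-1] (⟨0,[(46,0)]⟩,⟨0,[(45,0)]⟩) .k 2 (⟨0,[(36,0)]⟩,⟨0,
  [(37,0)]⟩) .k (.r (-1) ⟨11,[(2,7),(1,7),(20,3),(6,3),(1,2),(0,0)]⟩ ⟨0,[(13,0),(30,0)]⟩)) (.R ⟨1,
  false,false,true,[1,0,-1],[0,0,0,1],[],(⟨0,[(46,0)]⟩,⟨0,[(47,0)]⟩),(⟨0,[(38,0)]⟩,⟨0,[(37,0)]⟩),⟨0,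
  [(32,0)]⟩,.k,.k,.k,.k,(.r 0 ⟨3,[(1,0),(5,1),(1,2),(2,0),(21,1),(2,0),(15,2)]⟩ ⟨31,[(0,3),(2,19),
  (8,3),(4,3),(8,7),(6,3),(1,10),(0,16)]⟩),.k,⟨true,0,⟨1,[(7,0),(6,0),(22,0),(13,0)]⟩,⟨0,[(13,0)]⟩⟩,
  ⟨false,0,⟨0,[(27,0),(9,0),(15,0)]⟩,⟨7,[(17,3),(17,0),(0,0),(1,7),(9,1)]⟩⟩,⟨false,1,⟨11,[(0,0),(2,
  5),(1,1),(6,0),(4,0),(0,3),(3,4),(12,3),(5,0)]⟩,⟨0,[(45,0)]⟩⟩,⟨true,0,⟨0,[(0,0)]⟩,⟨5,[(1,1),(5,1),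
  (4,1),(2,0),(4,0)]⟩⟩,⟨false,1,⟨7,[(5,3),(12,7),(16,2),(0,0)]⟩,⟨1,[(21,0),(12,0),(18,0)]⟩⟩,⟨false,
  1,⟨15,[(0,15),(1,3),(15,3),(16,4),(0,2),(17,3),(0,3)]⟩,⟨0,[(1,0)]⟩⟩,[.a ⟨true,0,⟨0,[(13,0),(23,
  0)]⟩,⟨0,[(11,0)]⟩⟩ ⟨false,1,⟨3,[(35,0),(0,0),(17,1)]⟩,⟨0,[]⟩⟩ ⟨true,0,⟨0,[(0,0),(44,0)]⟩,⟨3,[(7,
  1),(3,0),(0,0),(17,1),(20,1)]⟩⟩,.o ⟨false,1,⟨7,[(0,7),(19,3),(14,0),(0,0),(11,1),(6,3)]⟩,⟨0,[(7,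
  0)]⟩⟩,.o ⟨false,1,⟨23,[(17,3),(12,7),(4,6),(0,6),(11,5)]⟩,⟨0,[(27,0),(25,0)]⟩⟩,.o ⟨false,0,⟨0,
  [(40,0)]⟩,⟨7,[(34,3),(0,0),(0,0),(11,1),(5,3)]⟩⟩]⟩) (.Q [0,-1,-1,1,0,0,-1,-1,-1,-1,1,1] (.p true
  [0,0,1] [1,0,0,-1] (⟨0,[(47,0)]⟩,⟨0,[(46,0)]⟩) .k 2 (⟨0,[(37,0)]⟩,⟨0,[(38,0)]⟩) .k (.r (-1) ⟨11,
  [(3,7),(1,7),(20,3),(6,3),(1,2),(0,0)]⟩ ⟨0,[(14,0),(30,0)]⟩)) (.Q [0,0,3,0,-1,0,1,0,0,1,-1,-1]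
  (.p false [0,0,1] [1,0,0,-1] (⟨0,[(48,0)]⟩,⟨0,[(47,0)]⟩) .k 2 (⟨0,[(38,0)]⟩,⟨0,[(39,0)]⟩) .k (.r
  (-1) ⟨11,[(4,7),(1,7),(20,3),(6,3),(1,2),(0,0)]⟩ ⟨0,[(15,0),(30,0)]⟩)) (.Q [0,1,1,-2,0,0,1,1,1,1,
  -1,-1] (.p false [0,0,1] [1,0,0,-1] (⟨0,[(49,0)]⟩,⟨0,[(48,0)]⟩) .k 2 (⟨0,[(39,0)]⟩,⟨0,[(40,0)]⟩)
  .k (.r (-1) ⟨11,[(5,7),(1,7),(20,3),(6,3),(1,2),(0,0)]⟩ ⟨4,[(0,0),(1,0),(6,0),(1,1),(2,0),(21,0),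
  (0,0),(9,1)]⟩)) (.R ⟨1,false,false,false,[0,-1,1],[1,0,0,-1],[1,1],(⟨0,[(26,0)]⟩,⟨0,[(49,0),(3,
  0)]⟩),(⟨0,[(40,0)]⟩,⟨0,[(41,0)]⟩),⟨0,[(19,0)]⟩,.k,.k,(.r (-1) ⟨1,[(0,0),(13,0),(5,0),(4,0),(18,
  0)]⟩ ⟨18,[(1,7),(3,12),(0,1),(8,7),(0,4),(1,3),(19,5),(12,1),(3,1)]⟩),(.r (-1) ⟨24,[(0,4),(5,7),
  (1,18),(6,4),(4,4),(0,6),(7,0),(8,0),(5,3)]⟩ ⟨27,[(1,9),(0,1),(0,1),(1,1),(9,5),(2,10),(18,4),(0,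
  9),(7,5)]⟩),(.r (-2) ⟨39,[(0,7),(5,15),(1,51),(6,7),(4,7),(0,7),(7,7),(8,16),(0,2)]⟩ ⟨13,[(1,13),
  (5,4),(2,5),(4,2),(2,7),(10,1)]⟩),.k,⟨false,1,⟨7,[(8,3),(29,0),(0,2),(15,7)]⟩,⟨1,[(10,0),(6,0),
  (22,0),(13,0)]⟩⟩,⟨true,1,⟨19,[(7,1),(0,1),(1,9),(4,3),(4,9),(18,6),(1,3),(16,0)]⟩,⟨0,[(1,0)]⟩⟩,
  ⟨false,0,⟨7,[(1,0),(3,2),(9,0),(2,0),(19,0),(6,1),(0,2),(1,0)]⟩,⟨12,[(0,1),(5,1),(8,1),(4,1),(0,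
  1),(3,9),(1,4),(10,0),(5,1)]⟩⟩,⟨false,0,⟨0,[(2,0)]⟩,⟨9,[(0,7),(20,1),(8,1),(7,2),(0,3),(0,1),(17,
  2)]⟩⟩,⟨false,0,⟨21,[(1,3),(3,11),(9,3),(2,4),(11,1),(6,0),(0,3),(7,1),(8,7)]⟩,⟨79,[(0,29),(5,7),
  (3,14),(4,14),(4,0),(4,74),(1,41),(5,13),(4,3)]⟩⟩,⟨true,0,⟨13,[(7,4),(2,5),(4,2),(2,7),(10,1)]⟩,
  ⟨0,[(0,0)]⟩⟩,[.o ⟨false,0,⟨0,[(10,0)]⟩,⟨27,[(1,7),(31,3),(4,4),(0,18),(0,19),(10,11)]⟩⟩,.a ⟨true,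
  0,⟨0,[(14,0)]⟩,⟨0,[(16,0),(23,0)]⟩⟩ ⟨true,0,⟨0,[]⟩,⟨35,[(0,0),(0,4),(4,4),(9,3),(7,2),(13,4),(2,
  5),(1,2),(2,2)]⟩⟩ ⟨false,1,⟨1,[(7,0),(2,0),(9,0),(4,0)]⟩,⟨31,[(0,23),(0,7),(3,15),(31,3),(0,4),(0,
  0),(5,7),(5,1),(3,15)]⟩⟩,.o ⟨false,0,⟨0,[(46,0)]⟩,⟨7,[(20,3),(17,0),(0,0),(11,1)]⟩⟩,.o ⟨false,0,
  ⟨35,[(0,0),(0,4),(4,4),(9,3),(7,2),(13,4),(2,5),(1,2),(2,38)]⟩,⟨17,[(8,2),(1,2),(1,2),(7,12),(4,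
  0),(4,7),(13,2),(6,0),(2,0)]⟩⟩]⟩) (.Q [0,0,0,1,0,0,1,1,0,1,-1] (.p false [0,0,1] [1] (⟨0,[(50,
  0)]⟩,⟨0,[(49,0)]⟩) .k 1 (⟨0,[]⟩,⟨0,[]⟩) .k .k) (.Q [0,0,0,-2,0,0,-1,-1,0,-1,1] (.p true [0,0,1]
  [1] (⟨0,[(51,0)]⟩,⟨0,[(50,0)]⟩) .k 1 (⟨0,[]⟩,⟨0,[]⟩) .k .k) (.R ⟨1,false,false,true,[1,0,-1],[0,
  1],[0,1,2,1],(⟨0,[(51,0)]⟩,⟨0,[(52,0)]⟩),(⟨0,[(55,0)]⟩,⟨0,[(54,0)]⟩),⟨0,[(37,0)]⟩,.k,.k,.k,.k,(.r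
  (-1) ⟨7,[(0,0),(9,3),(3,1),(2,1),(9,2),(11,1),(0,0),(3,0),(5,3)]⟩ ⟨10,[(3,1),(4,5),(8,1),(5,3),(7,
  0),(3,0),(4,1),(4,0),(11,6)]⟩),.k,⟨true,0,⟨19,[(0,0),(2,2),(4,2),(9,2),(7,0),(13,2),(2,2),(1,0),
  (2,0)]⟩,⟨0,[]⟩⟩,⟨false,1,⟨15,[(10,3),(6,1),(9,1),(5,11),(5,1),(0,0),(1,1),(16,8)]⟩,⟨0,[(45,0)]⟩⟩,
  ⟨false,0,⟨8,[(3,1),(4,5),(8,1),(13,1),(3,1),(2,0),(1,1),(5,0)]⟩,⟨1,[(20,0),(6,1),(11,0)]⟩⟩,⟨false,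
  0,⟨0,[(1,0)]⟩,⟨5,[(0,1),(25,1),(13,0),(0,0),(11,0),(6,2)]⟩⟩,⟨false,0,⟨10,[(3,1),(4,5),(8,1),(5,3),
  (7,0),(3,0),(4,1),(4,0),(11,6)]⟩,⟨0,[(27,0),(22,0)]⟩⟩,⟨true,0,⟨0,[(1,0),(55,0)]⟩,⟨0,[(0,0)]⟩⟩,[.o
  ⟨false,0,⟨0,[(57,0)]⟩,⟨25,[(0,5),(7,5),(18,9),(12,2),(7,5),(4,9),(2,1),(3,2)]⟩⟩,.a ⟨true,0,⟨7,[(1,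
  0),(5,0),(1,0),(23,0),(4,1),(3,5),(0,4)]⟩,⟨0,[(58,0)]⟩⟩ ⟨false,0,⟨88,[(2,1),(0,13),(3,10),(0,24),
  (8,11),(2,5),(19,10),(12,2),(3,25)]⟩,⟨15,[(10,3),(3,1),(2,1),(9,3),(12,0),(5,1),(12,6)]⟩⟩ ⟨true,0,
  ⟨0,[(33,0)]⟩,⟨15,[(0,9),(2,0),(4,2),(3,0),(16,1),(5,5),(4,0),(5,4),(11,0)]⟩⟩,.o ⟨false,1,⟨23,[(22,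
  3),(12,7),(4,6),(0,6),(11,5)]⟩,⟨2,[(3,0),(6,0),(1,0),(19,1)]⟩⟩,.o ⟨false,0,⟨0,[(45,0)]⟩,⟨7,[(39,
  3),(0,0),(0,0),(11,1),(5,3)]⟩⟩]⟩) (.K ⟨1,[1,-1,0,-1],0,0,(⟨0,[(15,0)]⟩,⟨0,[(43,0),(11,0)]⟩),(.x
  (-1) ⟨15,[(21,3),(8,3),(9,6),(0,6),(11,1)]⟩ ⟨0,[(55,0)]⟩),(.r (-1) ⟨4,[(14,1),(2,1),(1,0),(7,3),
  (12,0),(5,1),(11,1)]⟩ ⟨37,[(3,3),(3,15),(0,19),(8,3),(0,11),(1,1),(19,2),(12,0),(3,19)]⟩),.k,.k,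
  .k,[⟨7,[(3,1),(36,0),(0,0),(0,5),(6,1)]⟩,⟨3,[(6,0),(1,0),(3,1),(5,1),(24,0),(1,0),(2,1)]⟩,⟨3,[(7,
  0),(10,2),(12,0),(6,0),(3,3)]⟩,⟨0,[(16,0),(41,0)]⟩]⟩)) (.Q [0,0,0,0,0,0,1,1,0,1,-1] (.p false [0,
  0,1] [1] (⟨0,[(51,0)]⟩,⟨0,[(50,0)]⟩) .k 1 (⟨0,[]⟩,⟨0,[]⟩) .k .k) (.R ⟨2,false,false,false,[0,1],
  [1,0,-1],[1,0,1,0,0,0,0,-1],(⟨0,[]⟩,⟨0,[]⟩),(⟨0,[(51,0)]⟩,⟨0,[(52,0)]⟩),⟨0,[]⟩,.k,.k,.k,.k,.k,.k,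
  ⟨false,0,⟨0,[]⟩,⟨3,[(40,0),(0,0),(17,1)]⟩⟩,⟨true,0,⟨0,[(45,0)]⟩,⟨1,[(39,0),(2,0),(0,0)]⟩⟩,⟨false,
  0,⟨2,[(3,0),(2,0),(3,0),(25,1)]⟩,⟨71,[(0,19),(7,11),(13,19),(0,15),(7,23),(6,3),(1,28),(0,22)]⟩⟩,
  ⟨true,0,⟨0,[(1,0)]⟩,⟨0,[(0,0),(56,0)]⟩⟩,⟨false,0,⟨0,[(36,0)]⟩,⟨71,[(0,23),(7,23),(1,11),(11,15),
  (12,7),(4,30),(0,12),(4,23)]⟩⟩,⟨false,1,⟨7,[(25,3),(14,0),(0,0),(11,1),(6,3)]⟩,⟨0,[(0,0)]⟩⟩,[.a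
  ⟨true,0,⟨1,[(25,0),(16,0),(0,0)]⟩,⟨0,[(0,0)]⟩⟩ ⟨false,0,⟨0,[(50,0)]⟩,⟨7,[(0,7),(21,3),(17,0),(0,
  0),(11,1)]⟩⟩ ⟨true,0,⟨1,[(25,0),(19,0),(2,0)]⟩,⟨0,[(0,0)]⟩⟩,.o ⟨false,1,⟨7,[(25,3),(14,0),(0,0),
  (11,1),(6,3)]⟩,⟨0,[(46,0)]⟩⟩,.o ⟨false,1,⟨3,[(40,0),(0,0),(17,1)]⟩,⟨3,[(1,1),(1,0),(4,0),(3,0),
  (18,0),(21,0)]⟩⟩,.e ⟨false,0,⟨0,[(36,0)]⟩,⟨71,[(0,23),(7,23),(1,11),(11,15),(12,7),(4,30),(0,12),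
  (4,23)]⟩⟩ ⟨false,1,⟨7,[(25,3),(14,0),(0,0),(11,1),(6,3)]⟩,⟨0,[(0,0)]⟩⟩]⟩) (.Q [0,0,0,-1,0,0,1,1,0,
  1,-1] (.p false [0,0,1] [1] (⟨0,[(52,0)]⟩,⟨0,[(51,0)]⟩) .k 1 (⟨0,[]⟩,⟨0,[]⟩) .k .k) (.R ⟨2,false,
  false,false,[0,1],[1,1,-1],[1,0,1,1,0,0,0,-1],(⟨0,[]⟩,⟨0,[]⟩),(⟨0,[(52,0),(3,0)]⟩,⟨0,[(29,0)]⟩),
  ⟨0,[]⟩,.k,.k,.k,.k,.k,.k,⟨true,0,⟨0,[]⟩,⟨9,[(4,1),(14,1),(21,0),(2,1),(1,1),(14,0)]⟩⟩,⟨false,1,⟨7,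
  [(23,3),(17,0),(0,0),(11,1)]⟩,⟨4,[(0,1),(33,1),(2,0),(2,0),(7,0)]⟩⟩,⟨false,0,⟨0,[(37,0)]⟩,⟨11,[(0,
  3),(8,3),(13,3),(17,4),(0,2),(4,3)]⟩⟩,⟨true,0,⟨0,[(1,0)]⟩,⟨0,[(0,0),(57,0)]⟩⟩,⟨false,0,⟨4,[(3,0),
  (4,0),(24,0),(3,2),(5,0)]⟩,⟨23,[(0,7),(8,7),(1,11),(24,7),(4,10),(0,0),(4,7)]⟩⟩,⟨false,1,⟨7,[(21,
  3),(19,0),(0,0),(11,1),(6,3)]⟩,⟨0,[(0,0)]⟩⟩,[.a ⟨true,0,⟨1,[(21,0),(21,0),(0,0)]⟩,⟨0,[(0,0)]⟩⟩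
  ⟨false,0,⟨1,[(21,0),(18,0)]⟩,⟨23,[(0,15),(8,3),(1,5),(11,9),(17,4),(5,3),(6,2)]⟩⟩ ⟨true,0,⟨1,[(21,
  0),(24,0),(2,0)]⟩,⟨0,[(0,0)]⟩⟩,.o ⟨false,1,⟨7,[(21,3),(19,0),(0,0),(11,1),(6,3)]⟩,⟨0,[(47,0),(11,
  0)]⟩⟩,.o ⟨false,1,⟨3,[(41,0),(0,0),(17,1)]⟩,⟨3,[(1,0),(0,0),(1,0),(4,0),(3,0),(33,0),(6,0)]⟩⟩,.e
  ⟨false,0,⟨4,[(3,0),(4,0),(24,0),(3,2),(5,0)]⟩,⟨23,[(0,7),(8,7),(1,11),(24,7),(4,10),(0,0),(4,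
  7)]⟩⟩ ⟨false,1,⟨7,[(21,3),(19,0),(0,0),(11,1),(6,3)]⟩,⟨0,[(0,0)]⟩⟩]⟩) (.K ⟨1,[1,-1,0,-1],0,0,(⟨0,
  [(16,0)]⟩,⟨0,[(44,0),(11,0)]⟩),(.x (-1) ⟨15,[(22,3),(8,3),(9,6),(0,6),(11,1)]⟩ ⟨0,[(56,0)]⟩),(.r
  (-1) ⟨4,[(2,1),(15,1),(1,0),(7,3),(12,0),(1,1),(3,1)]⟩ ⟨37,[(4,3),(3,15),(0,19),(8,3),(0,11),(1,
  1),(19,2),(12,0),(3,19)]⟩),.k,.k,.k,[⟨7,[(4,1),(36,0),(0,0),(0,5),(6,1)]⟩,⟨3,[(2,0),(6,0),(3,1),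
  (5,0),(24,1),(1,0),(2,1)]⟩,⟨3,[(8,0),(10,2),(12,0),(6,0),(3,3)]⟩,⟨0,[(17,0),(41,0)]⟩]⟩))))) (.I
  [0,0,-3,0,1,2,-1] (.Q [0,1,1,-2,0,0,1,1,1,1,-1,-1] (.p false [0,0,1] [1,0,0,-1] (⟨0,[(50,0)]⟩,⟨0,
  [(49,0)]⟩) .k 2 (⟨0,[(40,0)]⟩,⟨0,[(41,0)]⟩) .k (.r (-1) ⟨127,[(0,7),(5,71),(1,43),(11,15),(15,15),
  (1,26),(0,32),(4,55),(5,7),(1,15)]⟩ ⟨0,[(17,0),(30,0)]⟩)) (.R ⟨1,false,false,false,[0,-1,1],[1,0,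
  0,-1],[0,1,1],(⟨0,[(27,0)]⟩,⟨0,[(50,0),(3,0)]⟩),(⟨0,[(41,0)]⟩,⟨0,[(42,0)]⟩),⟨0,[(20,0)]⟩,.k,.k,
  (.r (-1) ⟨1,[(0,0),(14,0),(5,0),(4,0),(18,0)]⟩ ⟨3,[(19,1),(2,0),(9,1),(13,0),(0,4),(0,1)]⟩),(.r
  (-1) ⟨31,[(0,15),(1,15),(4,7),(1,11),(12,7),(16,2),(0,0)]⟩ ⟨1,[(6,0),(11,2),(27,0),(0,0)]⟩),(.x 0
  ⟨0,[(20,0),(26,1),(0,0)]⟩ ⟨0,[(1,0)]⟩),.k,⟨true,0,⟨0,[(17,0)]⟩,⟨1,[(11,0),(6,0),(22,0),(13,0)]⟩⟩,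
  ⟨false,1,⟨0,[(2,0)]⟩,⟨1,[(41,1),(5,2),(0,0)]⟩⟩,⟨false,0,⟨1,[(6,0),(11,0),(27,0),(0,1),(0,0)]⟩,⟨0,
  [(9,0),(1,0),(16,0),(12,0)]⟩⟩,⟨false,0,⟨0,[(3,0)]⟩,⟨9,[(0,7),(21,1),(8,1),(7,2),(0,3),(0,1),(17,
  2)]⟩⟩,⟨false,0,⟨3,[(19,1),(2,0),(9,1),(13,0),(0,4),(0,1)]⟩,⟨2,[(0,0),(4,0),(3,2),(1,2),(16,2),(12,
  2)]⟩⟩,⟨true,0,⟨13,[(8,4),(2,5),(4,2),(2,7),(10,1)]⟩,⟨0,[(0,0)]⟩⟩,[.o ⟨false,0,⟨0,[(11,0)]⟩,⟨39,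
  [(0,15),(5,7),(0,7),(5,7),(5,3),(19,10),(0,14),(0,15),(10,13)]⟩⟩,.a ⟨true,0,⟨0,[(15,0)]⟩,⟨0,[(17,
  0),(23,0)]⟩⟩ ⟨true,0,⟨1,[(47,0),(0,0)]⟩,⟨0,[]⟩⟩ ⟨false,1,⟨1,[(8,0),(2,0),(9,0),(4,0)]⟩,⟨0,[(17,0),
  (23,0),(5,0)]⟩⟩,.o ⟨false,0,⟨0,[(47,0)]⟩,⟨7,[(21,3),(17,0),(0,0),(11,1)]⟩⟩,.o ⟨false,0,⟨1,[(47,2),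
  (0,0)]⟩,⟨17,[(9,2),(1,2),(1,2),(7,12),(4,0),(4,7),(13,2),(6,0),(2,0)]⟩⟩]⟩) (.Q [0,0,0,-1,0,0,-1,
  -1,0,-1,1] (.p true [0,0,1] [1] (⟨0,[(51,0)]⟩,⟨0,[(50,0)]⟩) .k 1 (⟨0,[]⟩,⟨0,[]⟩) .k .k) (.Q [0,0,
  0,0,0,0,1,1,0,1,-1] (.p false [0,0,1] [1] (⟨0,[(52,0)]⟩,⟨0,[(51,0)]⟩) .k 1 (⟨0,[]⟩,⟨0,[]⟩) .k .k)
  (.R ⟨2,false,false,false,[0,1],[1,0,-1],[1,0,1,0,0,0,0,-1],(⟨0,[]⟩,⟨0,[]⟩),(⟨0,[(52,0)]⟩,⟨0,[(53,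
  0)]⟩),⟨0,[]⟩,.k,.k,.k,.k,.k,.k,⟨false,0,⟨0,[]⟩,⟨3,[(41,0),(0,0),(17,1)]⟩⟩,⟨true,0,⟨0,[(46,0)]⟩,⟨1,
  [(40,0),(2,0),(0,0)]⟩⟩,⟨false,0,⟨0,[(37,0),(21,0)]⟩,⟨71,[(0,19),(8,11),(13,19),(0,15),(7,23),(6,
  3),(1,28),(0,22)]⟩⟩,⟨true,0,⟨0,[(1,0)]⟩,⟨0,[(0,0),(57,0)]⟩⟩,⟨false,0,⟨0,[(37,0)]⟩,⟨71,[(0,23),(8,
  23),(1,11),(11,15),(12,7),(4,30),(0,12),(4,23)]⟩⟩,⟨false,1,⟨7,[(26,3),(14,0),(0,0),(11,1),(6,3)]⟩,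
  ⟨0,[(0,0)]⟩⟩,[.a ⟨true,0,⟨1,[(26,0),(16,0),(0,0)]⟩,⟨0,[(0,0)]⟩⟩ ⟨false,0,⟨0,[(51,0)]⟩,⟨22,[(0,7),
  (8,3),(1,7),(11,7),(0,2),(3,0),(3,7),(8,5)]⟩⟩ ⟨true,0,⟨1,[(26,0),(19,0),(2,0)]⟩,⟨0,[(0,0)]⟩⟩,.o
  ⟨false,1,⟨7,[(26,3),(14,0),(0,0),(11,1),(6,3)]⟩,⟨0,[(47,0)]⟩⟩,.o ⟨false,1,⟨3,[(41,0),(0,0),(17,
  1)]⟩,⟨4,[(1,1),(31,1),(12,2),(0,1),(1,0),(7,0)]⟩⟩,.e ⟨false,0,⟨0,[(37,0)]⟩,⟨71,[(0,23),(8,23),(1,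
  11),(11,15),(12,7),(4,30),(0,12),(4,23)]⟩⟩ ⟨false,1,⟨7,[(26,3),(14,0),(0,0),(11,1),(6,3)]⟩,⟨0,[(0,
  0)]⟩⟩]⟩) (.Q [0,0,0,-1,0,0,1,1,0,1,-1] (.p false [0,0,1] [1] (⟨0,[(53,0)]⟩,⟨0,[(52,0)]⟩) .k 1 (⟨0,
  []⟩,⟨0,[]⟩) .k .k) (.R ⟨2,false,false,false,[0,1],[1,1,-1],[1,0,1,1,0,0,0,-1],(⟨0,[]⟩,⟨0,[]⟩),(⟨0,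
  [(53,0),(3,0)]⟩,⟨0,[(30,0)]⟩),⟨0,[]⟩,.k,.k,.k,.k,.k,.k,⟨true,0,⟨0,[]⟩,⟨1,[(50,0),(0,0)]⟩⟩,⟨false,
  1,⟨7,[(24,3),(17,0),(0,0),(11,1)]⟩,⟨4,[(0,1),(34,1),(2,0),(2,0),(7,0)]⟩⟩,⟨false,0,⟨0,[(38,0)]⟩,
  ⟨11,[(0,3),(9,3),(13,3),(17,4),(0,2),(4,3)]⟩⟩,⟨true,0,⟨0,[(1,0)]⟩,⟨0,[(0,0),(58,0)]⟩⟩,⟨false,0,⟨4,
  [(3,0),(5,0),(24,0),(3,2),(5,0)]⟩,⟨23,[(0,23),(23,3),(12,7),(4,6),(0,6),(11,5)]⟩⟩,⟨false,1,⟨7,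
  [(22,3),(19,0),(0,0),(11,1),(6,3)]⟩,⟨0,[(0,0)]⟩⟩,[.a ⟨true,0,⟨1,[(22,0),(21,0),(0,0)]⟩,⟨0,[(0,
  0)]⟩⟩ ⟨false,0,⟨1,[(22,0),(18,0)]⟩,⟨7,[(0,7),(23,3),(17,0),(0,0),(11,1)]⟩⟩ ⟨true,0,⟨1,[(22,0),(24,
  0),(2,0)]⟩,⟨0,[(0,0)]⟩⟩,.o ⟨false,1,⟨7,[(22,3),(19,0),(0,0),(11,1),(6,3)]⟩,⟨1,[(0,0),(1,0),(45,
  1)]⟩⟩,.o ⟨false,1,⟨3,[(42,0),(0,0),(17,1)]⟩,⟨4,[(2,1),(31,1),(12,2),(0,1),(1,0),(7,0)]⟩⟩,.e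
  ⟨false,0,⟨4,[(3,0),(5,0),(24,0),(3,2),(5,0)]⟩,⟨23,[(0,23),(23,3),(12,7),(4,6),(0,6),(11,5)]⟩⟩
  ⟨false,1,⟨7,[(22,3),(19,0),(0,0),(11,1),(6,3)]⟩,⟨0,[(0,0)]⟩⟩]⟩) (.K ⟨1,[1,-1,0,-1],0,0,(⟨0,[(17,
  0)]⟩,⟨0,[(45,0),(11,0)]⟩),(.x (-1) ⟨15,[(23,3),(8,3),(9,6),(0,6),(11,1)]⟩ ⟨0,[(57,0)]⟩),(.r (-1)
  ⟨4,[(2,1),(16,1),(1,0),(7,3),(12,0),(1,1),(3,1)]⟩ ⟨2,[(9,0),(0,1),(38,0),(0,0),(8,1)]⟩),.k,.k,.k,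
  [⟨1,[(44,1),(5,0),(0,0)]⟩,⟨3,[(2,0),(7,0),(3,1),(5,0),(24,1),(1,0),(2,1)]⟩,⟨3,[(9,0),(10,2),(12,
  0),(6,0),(3,3)]⟩,⟨0,[(18,0),(41,0)]⟩]⟩))) (.Q [0,0,0,-2,0,0,-1,-1,0,-1,1] (.p true [0,0,1] [1]
  (⟨0,[(52,0)]⟩,⟨0,[(51,0)]⟩) .k 1 (⟨0,[]⟩,⟨0,[]⟩) .k .k) (.R ⟨1,false,false,true,[1,0,-1],[0,1],[0,
  1,2,1],(⟨0,[(52,0)]⟩,⟨0,[(53,0)]⟩),(⟨0,[(56,0)]⟩,⟨0,[(55,0)]⟩),⟨0,[(38,0)]⟩,.k,.k,.k,.k,(.r (-1)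
  ⟨1,[(28,1),(11,0),(4,0),(2,0)]⟩ ⟨5,[(24,3),(7,1),(16,2),(0,4),(7,1)]⟩),.k,⟨true,0,⟨1,[(49,0),(0,
  0)]⟩,⟨0,[]⟩⟩,⟨false,1,⟨15,[(11,3),(6,1),(9,1),(5,11),(5,1),(0,0),(1,1),(16,8)]⟩,⟨0,[(46,0)]⟩⟩,
  ⟨false,0,⟨1,[(24,0),(22,0),(1,0),(0,1)]⟩,⟨1,[(21,0),(6,1),(11,0)]⟩⟩,⟨false,0,⟨0,[(1,0)]⟩,⟨5,[(0,
  1),(26,1),(13,0),(0,0),(11,0),(6,2)]⟩⟩,⟨false,0,⟨5,[(24,3),(7,1),(16,2),(0,4),(7,1)]⟩,⟨0,[(28,0),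
  (22,0)]⟩⟩,⟨true,0,⟨0,[(1,0),(56,0)]⟩,⟨0,[(0,0)]⟩⟩,[.o ⟨false,0,⟨0,[(58,0)]⟩,⟨25,[(0,5),(8,5),(18,
  9),(12,2),(7,5),(4,9),(2,1),(3,2)]⟩⟩,.a ⟨true,0,⟨6,[(1,1),(6,0),(1,0),(28,0),(3,4),(0,3),(3,0)]⟩,
  ⟨0,[(59,0)]⟩⟩ ⟨false,0,⟨1,[(24,0),(23,0),(0,0)]⟩,⟨15,[(11,3),(3,1),(2,1),(9,3),(12,0),(5,1),(12,
  6)]⟩⟩ ⟨true,0,⟨0,[(34,0)]⟩,⟨0,[(46,0),(12,0)]⟩⟩,.o ⟨false,1,⟨23,[(23,3),(12,7),(4,6),(0,6),(11,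
  5)]⟩,⟨0,[(33,0),(25,0)]⟩⟩,.o ⟨false,0,⟨0,[(46,0)]⟩,⟨7,[(40,3),(0,0),(0,0),(11,1),(5,3)]⟩⟩]⟩) (.K
  ⟨1,[1,-1,0,-1],0,0,(⟨0,[(16,0)]⟩,⟨0,[(44,0),(11,0)]⟩),(.x (-1) ⟨15,[(22,3),(8,3),(9,6),(0,6),(11,
  1)]⟩ ⟨0,[(56,0)]⟩),(.r (-1) ⟨4,[(15,1),(2,1),(1,0),(7,3),(12,0),(5,1),(11,1)]⟩ ⟨2,[(8,0),(0,1),
  (38,0),(0,0),(8,1)]⟩),.k,.k,.k,[⟨1,[(43,1),(5,0),(0,0)]⟩,⟨3,[(7,0),(1,0),(3,1),(5,1),(24,0),(1,0),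
  (2,1)]⟩,⟨3,[(8,0),(10,2),(12,0),(6,0),(3,3)]⟩,⟨0,[(17,0),(41,0)]⟩]⟩)))) (.Q [0,1,1,-2,0,0,1,1,1,1,
  -1,-1] (.p false [0,0,1] [1,0,0,-1] (⟨0,[(50,0)]⟩,⟨0,[(49,0)]⟩) .k 2 (⟨0,[(40,0)]⟩,⟨0,[(41,0)]⟩)
  .k (.r (-1) ⟨11,[(6,7),(1,7),(20,3),(6,3),(1,2),(0,0)]⟩ ⟨0,[(17,0),(30,0)]⟩)) (.R ⟨1,true,false,
  false,[0,-1,1],[1,0,0,-1],[1,0,-1,-1,0,0,0,1],(⟨0,[(27,0)]⟩,⟨0,[(50,0),(3,0)]⟩),(⟨0,[(41,0)]⟩,⟨0,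
  [(42,0)]⟩),⟨0,[(20,0)]⟩,.k,.k,(.r (-1) ⟨1,[(0,0),(14,0),(5,0),(4,0),(18,0)]⟩ ⟨51,[(1,16),(4,33),
  (12,4),(13,5),(5,16),(6,7),(0,12),(2,4),(3,39),(1,25)]⟩),(.r (-1) ⟨31,[(0,15),(1,15),(4,7),(1,11),
  (12,7),(16,2),(0,0)]⟩ ⟨3,[(1,0),(16,1),(0,1),(18,0),(0,0),(7,0),(2,0),(3,1)]⟩),(.r (-2) ⟨31,[(0,
  15),(1,15),(4,7),(1,27),(12,7),(16,14),(0,4)]⟩ ⟨0,[(1,0),(1,0),(9,0),(16,0),(19,0),(3,1)]⟩),.k,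
  ⟨true,1,⟨31,[(0,15),(1,15),(4,7),(1,11),(12,7),(16,2),(0,0)]⟩,⟨1,[(1,1),(1,0),(7,0),(1,1),(16,0),
  (19,1),(3,3)]⟩⟩,⟨false,1,⟨0,[(2,0)]⟩,⟨1,[(41,1),(5,2),(0,0)]⟩⟩,⟨true,0,⟨0,[]⟩,⟨0,[(61,0)]⟩⟩,
  ⟨false,0,⟨0,[(3,0)]⟩,⟨9,[(0,7),(21,1),(8,1),(7,2),(0,3),(0,1),(17,2)]⟩⟩,⟨false,1,⟨15,[(6,3),(15,
  3),(16,4),(0,2),(17,3),(0,3)]⟩,⟨0,[(57,0)]⟩⟩,⟨true,0,⟨13,[(8,4),(2,5),(4,2),(2,7),(10,1)]⟩,⟨0,[(0,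
  0)]⟩⟩,[]⟩) (.Q [0,0,0,1,0,0,1,1,0,1,-1] (.p false [0,0,1] [1] (⟨0,[(51,0)]⟩,⟨0,[(50,0)]⟩) .k 1
  (⟨0,[]⟩,⟨0,[]⟩) .k .k) (.Q [0,0,0,-2,0,0,-1,-1,0,-1,1] (.p true [0,0,1] [1] (⟨0,[(52,0)]⟩,⟨0,[(51,
  0)]⟩) .k 1 (⟨0,[]⟩,⟨0,[]⟩) .k .k) (.R ⟨1,false,false,true,[1,0,-1],[0,1],[0,1,2,1],(⟨0,[(52,0)]⟩,
  ⟨0,[(53,0)]⟩),(⟨0,[(56,0)]⟩,⟨0,[(55,0)]⟩),⟨0,[(38,0)]⟩,.k,.k,.k,.k,(.r (-1) ⟨1,[(28,1),(11,0),(4,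
  0),(2,0)]⟩ ⟨36,[(3,7),(5,15),(14,13),(7,6),(2,3),(3,6),(1,7),(14,19),(1,15)]⟩),.k,⟨true,0,⟨1,[(49,
  0),(0,0)]⟩,⟨0,[]⟩⟩,⟨false,1,⟨15,[(11,3),(6,1),(9,1),(5,11),(5,1),(0,0),(1,1),(16,8)]⟩,⟨0,[(46,
  0)]⟩⟩,⟨false,0,⟨21,[(3,3),(5,7),(14,2),(7,7),(2,1),(5,3),(5,2),(2,10),(5,9)]⟩,⟨1,[(21,0),(6,1),
  (11,0)]⟩⟩,⟨false,0,⟨0,[(1,0)]⟩,⟨5,[(0,1),(26,1),(13,0),(0,0),(11,0),(6,2)]⟩⟩,⟨false,0,⟨36,[(3,7),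
  (5,15),(14,13),(7,6),(2,3),(3,6),(1,7),(14,19),(1,15)]⟩,⟨0,[(28,0),(22,0)]⟩⟩,⟨true,0,⟨0,[(1,0),
  (56,0)]⟩,⟨0,[(0,0)]⟩⟩,[.o ⟨false,0,⟨0,[(58,0)]⟩,⟨25,[(0,5),(8,5),(18,9),(12,2),(7,5),(4,9),(2,1),
  (3,2)]⟩⟩,.a ⟨true,0,⟨6,[(1,1),(6,0),(1,0),(28,0),(3,4),(0,3),(3,0)]⟩,⟨0,[(59,0)]⟩⟩ ⟨false,0,⟨26,
  [(3,3),(4,4),(0,2),(14,1),(10,1),(5,3),(14,9),(1,9)]⟩,⟨15,[(11,3),(3,1),(2,1),(9,3),(12,0),(5,1),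
  (12,6)]⟩⟩ ⟨true,0,⟨0,[(34,0)]⟩,⟨0,[(46,0),(12,0)]⟩⟩,.o ⟨false,1,⟨23,[(23,3),(12,7),(4,6),(0,6),
  (11,5)]⟩,⟨0,[(33,0),(25,0)]⟩⟩,.o ⟨false,0,⟨0,[(46,0)]⟩,⟨7,[(40,3),(0,0),(0,0),(11,1),(5,3)]⟩⟩]⟩)
  (.K ⟨1,[1,-1,0,-1],0,0,(⟨0,[(16,0)]⟩,⟨0,[(44,0),(11,0)]⟩),(.x (-1) ⟨15,[(22,3),(8,3),(9,6),(0,6),
  (11,1)]⟩ ⟨0,[(56,0)]⟩),(.r (-1) ⟨4,[(15,1),(2,1),(1,0),(7,3),(12,0),(5,1),(11,1)]⟩ ⟨2,[(8,0),(0,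
  1),(38,0),(0,0),(8,1)]⟩),.k,.k,.k,[⟨1,[(43,1),(5,0),(0,0)]⟩,⟨3,[(7,0),(1,0),(3,1),(5,1),(24,0),(1,
  0),(2,1)]⟩,⟨3,[(8,0),(10,2),(12,0),(6,0),(3,3)]⟩,⟨0,[(17,0),(41,0)]⟩]⟩)) (.Q [0,0,0,0,0,0,-1,-1,0,
  -1,1] (.p true [0,0,1] [1] (⟨0,[(52,0)]⟩,⟨0,[(51,0)]⟩) .k 1 (⟨0,[]⟩,⟨0,[]⟩) .k .k) (.Q [0,0,0,-1,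
  0,0,1,1,0,1,-1] (.p false [0,0,1] [1] (⟨0,[(53,0)]⟩,⟨0,[(52,0)]⟩) .k 1 (⟨0,[]⟩,⟨0,[]⟩) .k .k) (.R
  ⟨2,false,false,false,[0,1],[1,1,-1],[1,0,1,1,0,0,0,-1],(⟨0,[]⟩,⟨0,[]⟩),(⟨0,[(53,0),(3,0)]⟩,⟨0,
  [(30,0)]⟩),⟨0,[]⟩,.k,.k,.k,.k,.k,.k,⟨true,0,⟨0,[]⟩,⟨1,[(50,0),(0,0)]⟩⟩,⟨false,1,⟨7,[(24,3),(17,0),
  (0,0),(11,1)]⟩,⟨4,[(0,1),(34,1),(2,0),(2,0),(7,0)]⟩⟩,⟨false,0,⟨0,[(38,0)]⟩,⟨11,[(0,3),(9,3),(13,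
  3),(17,4),(0,2),(4,3)]⟩⟩,⟨true,0,⟨0,[(1,0)]⟩,⟨0,[(0,0),(58,0)]⟩⟩,⟨false,0,⟨4,[(3,0),(5,0),(24,0),
  (3,2),(5,0)]⟩,⟨23,[(0,23),(23,3),(12,7),(4,6),(0,6),(11,5)]⟩⟩,⟨false,1,⟨7,[(22,3),(19,0),(0,0),
  (11,1),(6,3)]⟩,⟨0,[(0,0)]⟩⟩,[.a ⟨true,0,⟨1,[(22,0),(21,0),(0,0)]⟩,⟨0,[(0,0)]⟩⟩ ⟨false,0,⟨1,[(22,
  0),(18,0)]⟩,⟨7,[(0,7),(23,3),(17,0),(0,0),(11,1)]⟩⟩ ⟨true,0,⟨1,[(22,0),(24,0),(2,0)]⟩,⟨0,[(0,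
  0)]⟩⟩,.o ⟨false,1,⟨7,[(22,3),(19,0),(0,0),(11,1),(6,3)]⟩,⟨1,[(0,0),(1,0),(45,1)]⟩⟩,.o ⟨false,1,⟨3,
  [(42,0),(0,0),(17,1)]⟩,⟨4,[(2,1),(31,1),(12,2),(0,1),(1,0),(7,0)]⟩⟩,.e ⟨false,0,⟨4,[(3,0),(5,0),
  (24,0),(3,2),(5,0)]⟩,⟨23,[(0,23),(23,3),(12,7),(4,6),(0,6),(11,5)]⟩⟩ ⟨false,1,⟨7,[(22,3),(19,0),
  (0,0),(11,1),(6,3)]⟩,⟨0,[(0,0)]⟩⟩]⟩) (.K ⟨1,[1,-1,0,-1],0,0,(⟨0,[(17,0)]⟩,⟨0,[(45,0),(11,0)]⟩),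
  (.x (-1) ⟨15,[(23,3),(8,3),(9,6),(0,6),(11,1)]⟩ ⟨0,[(57,0)]⟩),(.r (-1) ⟨4,[(2,1),(16,1),(1,0),(7,
  3),(12,0),(1,1),(3,1)]⟩ ⟨2,[(9,0),(0,1),(38,0),(0,0),(8,1)]⟩),.k,.k,.k,[⟨1,[(44,1),(5,0),(0,0)]⟩,
  ⟨3,[(2,0),(7,0),(3,1),(5,0),(24,1),(1,0),(2,1)]⟩,⟨3,[(9,0),(10,2),(12,0),(6,0),(3,3)]⟩,⟨0,[(18,0),
  (41,0)]⟩]⟩)) (.R ⟨2,false,false,false,[0,1],[1,0,-1],[1,0,1,0,0,0,0,-1],(⟨0,[]⟩,⟨0,[]⟩),(⟨0,[(52,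
  0)]⟩,⟨0,[(53,0)]⟩),⟨0,[]⟩,.k,.k,.k,.k,.k,.k,⟨false,0,⟨0,[]⟩,⟨3,[(41,0),(0,0),(17,1)]⟩⟩,⟨true,0,⟨0,
  [(46,0)]⟩,⟨1,[(40,0),(2,0),(0,0)]⟩⟩,⟨false,0,⟨0,[(37,0),(21,0)]⟩,⟨71,[(0,19),(8,11),(13,19),(0,
  15),(7,23),(6,3),(1,28),(0,22)]⟩⟩,⟨true,0,⟨0,[(1,0)]⟩,⟨0,[(0,0),(57,0)]⟩⟩,⟨false,0,⟨0,[(37,0)]⟩,
  ⟨71,[(0,23),(8,23),(1,11),(11,15),(12,7),(4,30),(0,12),(4,23)]⟩⟩,⟨false,1,⟨7,[(26,3),(14,0),(0,0),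
  (11,1),(6,3)]⟩,⟨0,[(0,0)]⟩⟩,[.a ⟨true,0,⟨1,[(26,0),(16,0),(0,0)]⟩,⟨0,[(0,0)]⟩⟩ ⟨false,0,⟨0,[(51,
  0)]⟩,⟨22,[(0,7),(8,3),(1,7),(11,7),(0,2),(3,0),(3,7),(8,5)]⟩⟩ ⟨true,0,⟨1,[(26,0),(19,0),(2,0)]⟩,
  ⟨0,[(0,0)]⟩⟩,.o ⟨false,1,⟨7,[(26,3),(14,0),(0,0),(11,1),(6,3)]⟩,⟨0,[(47,0)]⟩⟩,.o ⟨false,1,⟨3,[(41,
  0),(0,0),(17,1)]⟩,⟨4,[(1,1),(31,1),(12,2),(0,1),(1,0),(7,0)]⟩⟩,.e ⟨false,0,⟨0,[(37,0)]⟩,⟨71,[(0,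
  23),(8,23),(1,11),(11,15),(12,7),(4,30),(0,12),(4,23)]⟩⟩ ⟨false,1,⟨7,[(26,3),(14,0),(0,0),(11,1),
  (6,3)]⟩,⟨0,[(0,0)]⟩⟩]⟩)))))) (.R ⟨1,false,false,false,[0,0,1],[1,0,0,-1],[0,1,1],(⟨0,[(48,0)]⟩,⟨0,
  [(47,0)]⟩),(⟨0,[(38,0)]⟩,⟨0,[(39,0)]⟩),⟨0,[(24,0)]⟩,.k,.k,.k,.k,(.r (-1) ⟨40,[(0,8),(3,15),(1,26),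
  (6,8),(4,8),(0,6),(3,3),(12,0),(5,8)]⟩ ⟨1,[(3,0),(11,2),(27,0),(0,0)]⟩),.k,⟨true,0,⟨0,[(14,0)]⟩,
  ⟨1,[(8,0),(6,0),(22,0),(13,0)]⟩⟩,⟨false,1,⟨19,[(5,1),(0,1),(1,9),(4,3),(4,9),(18,6),(1,3),(16,
  0)]⟩,⟨0,[(38,0),(5,0)]⟩⟩,⟨false,0,⟨2,[(43,1),(0,1),(1,0),(5,0)]⟩,⟨8,[(0,0),(5,1),(6,0),(4,0),(0,
  6),(3,4),(3,0),(8,0)]⟩⟩,⟨false,0,⟨0,[(1,0)]⟩,⟨15,[(0,11),(18,3),(8,3),(7,4),(0,6),(0,3),(17,3)]⟩⟩,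
  ⟨false,0,⟨1,[(3,0),(11,0),(27,0),(0,0)]⟩,⟨12,[(0,1),(3,1),(8,1),(4,1),(4,9),(1,6),(10,0),(5,1)]⟩⟩,
  ⟨true,0,⟨9,[(1,1),(3,0),(2,3),(4,2),(2,3)]⟩,⟨0,[(0,0)]⟩⟩,[.o ⟨false,0,⟨0,[(8,0)]⟩,⟨23,[(0,11),(2,
  3),(0,3),(5,11),(25,6),(0,8),(11,5),(6,1)]⟩⟩,.a ⟨true,0,⟨0,[(12,0)]⟩,⟨0,[(14,0),(23,0)]⟩⟩ ⟨true,0,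
  ⟨1,[(44,0),(0,0)]⟩,⟨0,[]⟩⟩ ⟨false,1,⟨3,[(8,1),(3,0),(0,0),(4,1),(37,1)]⟩,⟨1,[(0,1),(15,0),(18,
  0)]⟩⟩,.o ⟨false,0,⟨0,[(28,0),(25,0)]⟩,⟨23,[(18,3),(12,7),(4,6),(0,6),(11,5)]⟩⟩,.o ⟨false,0,⟨0,
  [(44,0)]⟩,⟨7,[(18,3),(17,0),(0,0),(11,1)]⟩⟩]⟩))) (.Q [0,-1,-1,-2,0,0,-1,-1,-1,-1,1,1] (.p true [0,
  0,1] [1,0,0,-1] (⟨0,[(46,0)]⟩,⟨0,[(45,0)]⟩) .k 2 (⟨0,[(36,0)]⟩,⟨0,[(37,0)]⟩) .k (.r (-1) ⟨4,[(0,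
  0),(1,2),(1,1),(6,0),(4,0),(17,0),(0,0),(4,0)]⟩ ⟨0,[(13,0),(30,0)]⟩)) (.R ⟨1,false,false,true,[1,
  0,0,-1],[0,1,1],[0,1,1,1,0,0,0,1],(⟨0,[(37,0)]⟩,⟨0,[(38,0)]⟩),(⟨0,[(47,0),(2,0)]⟩,⟨0,[(32,0)]⟩),
  ⟨0,[(10,0)]⟩,.k,.k,(.x (-1) ⟨15,[(16,3),(8,3),(9,6),(0,6),(11,1)]⟩ ⟨0,[(50,0)]⟩),(.r 0 ⟨3,[(0,1),
  (6,0),(1,2),(2,0),(21,1),(2,0),(3,0)]⟩ ⟨31,[(1,3),(1,19),(8,3),(4,3),(8,3),(6,3),(1,10),(0,16),(4,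
  3)]⟩),(.r (-1) ⟨5,[(0,1),(4,1),(3,3),(2,1),(9,1),(11,2),(0,1),(3,0),(1,0)]⟩ ⟨0,[(3,0),(48,0)]⟩),
  .k,⟨false,1,⟨3,[(35,0),(0,0),(17,1)]⟩,⟨0,[]⟩⟩,⟨true,0,⟨0,[(27,0),(9,0),(15,0)]⟩,⟨0,[(38,0),(1,
  0)]⟩⟩,⟨false,1,⟨31,[(1,3),(1,19),(8,3),(4,3),(8,3),(6,3),(1,10),(0,16),(4,3)]⟩,⟨0,[(0,0),(26,0),
  (9,0)]⟩⟩,⟨true,0,⟨0,[(1,0)]⟩,⟨2,[(0,0),(6,0),(4,0),(8,0)]⟩⟩,⟨false,1,⟨15,[(3,3),(14,7),(7,3),(6,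
  3),(1,4),(0,10),(15,3)]⟩,⟨0,[(0,0),(26,0),(9,0),(15,0)]⟩⟩,⟨false,1,⟨15,[(1,15),(0,3),(15,3),(16,
  4),(0,2),(17,3),(0,3)]⟩,⟨0,[(0,0)]⟩⟩,[.o ⟨false,0,⟨0,[(26,0)]⟩,⟨39,[(13,7),(7,19),(0,9),(12,3),(4,
  5),(2,5),(4,6),(6,18)]⟩⟩,.e ⟨true,0,⟨1,[(18,0),(22,0),(2,0)]⟩,⟨1,[(21,0),(12,0),(18,0)]⟩⟩ ⟨true,0,
  ⟨1,[(18,0),(18,1),(3,0),(1,0)]⟩,⟨4,[(0,3),(1,0),(4,0),(5,3),(19,0)]⟩⟩,.o ⟨false,1,⟨3,[(7,1),(4,1),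
  (23,1),(11,0),(6,0)]⟩,⟨2,[(9,1),(27,0),(2,0),(0,1),(1,0),(7,0)]⟩⟩,.a ⟨true,0,⟨0,[(38,0)]⟩,⟨0,[(37,
  0)]⟩⟩ ⟨false,1,⟨4,[(1,0),(1,0),(1,0),(6,0),(4,0),(0,1),(7,0),(8,1),(0,0)]⟩,⟨0,[(31,0),(21,0)]⟩⟩
  ⟨true,0,⟨0,[(26,0),(10,0)]⟩,⟨4,[(0,3),(1,0),(4,0),(5,3),(19,0)]⟩⟩]⟩) (.Q [0,-1,0,2,0,0,0,0,0,1]
  (.pp false [-1,1]) (.Q [0,1,0,-3,0,0,0,0,0,-1] (.pp true [-1,1]) (.R ⟨1,false,false,false,[1,-1],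
  [0,1],[1,0,1],(⟨0,[(51,0)]⟩,⟨0,[(52,0)]⟩),(⟨0,[(52,0)]⟩,⟨0,[(51,0)]⟩),⟨2,[(18,0),(8,0),(23,1)]⟩,
  .k,.k,(.r (-1) ⟨10,[(0,1),(6,3),(6,1),(9,3),(12,0),(1,1),(16,1)]⟩ ⟨18,[(2,3),(11,3),(2,5),(2,7),
  (9,1),(14,17),(0,11)]⟩),(.r (-1) ⟨10,[(0,1),(6,3),(6,1),(9,3),(12,0),(1,1),(16,1)]⟩ ⟨18,[(2,3),
  (11,3),(2,5),(2,7),(9,1),(14,17),(0,11)]⟩),(.r (-1) ⟨2,[(0,0),(6,2),(1,1),(3,0),(25,2)]⟩ ⟨18,[(2,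
  5),(11,5),(2,8),(2,11),(9,2),(14,26),(0,17)]⟩),.k,⟨true,0,⟨0,[(55,0)]⟩,⟨18,[(2,1),(11,1),(2,2),(2,
  3),(9,0),(14,8),(0,5)]⟩⟩,⟨false,1,⟨3,[(6,2),(0,3),(6,0),(24,3),(14,1)]⟩,⟨0,[(42,0),(2,0)]⟩⟩,
  ⟨false,0,⟨31,[(1,3),(15,3),(2,7),(24,26),(0,18),(6,9)]⟩,⟨21,[(0,1),(6,3),(6,1),(9,3),(12,0),(1,1),
  (16,12)]⟩⟩,⟨false,0,⟨0,[(1,0)]⟩,⟨11,[(0,7),(36,2),(0,2),(11,1),(6,3)]⟩⟩,⟨false,0,⟨15,[(1,3),(15,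
  3),(2,7),(24,14),(0,6),(6,1)]⟩,⟨10,[(0,1),(6,3),(6,1),(9,3),(12,0),(1,1),(16,1)]⟩⟩,⟨true,0,⟨17,
  [(1,13),(0,7),(3,0),(7,6),(2,3)]⟩,⟨0,[(0,0)]⟩⟩,[.e ⟨false,0,⟨0,[]⟩,⟨3,[(37,0),(0,0),(17,1)]⟩⟩
  ⟨false,1,⟨11,[(1,7),(0,1),(4,3),(6,3),(22,0),(1,1),(4,1),(11,6)]⟩,⟨8,[(0,3),(28,2),(12,4),(2,1),
  (7,1)]⟩⟩,.a ⟨true,0,⟨0,[(1,0),(53,0)]⟩,⟨2,[(0,0),(13,0),(0,0),(23,0)]⟩⟩ ⟨true,0,⟨3,[(45,0),(0,0),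
  (6,1)]⟩,⟨0,[(59,0)]⟩⟩ ⟨false,1,⟨19,[(1,17),(5,3),(6,1),(9,3),(12,0),(1,1),(16,10)]⟩,⟨1,[(0,0),(41,
  0),(2,0),(8,0)]⟩⟩,.o ⟨false,0,⟨8,[(0,1),(28,5),(12,6),(2,0),(7,0)]⟩,⟨3,[(37,0),(0,0),(17,1)]⟩⟩,.o
  ⟨false,0,⟨0,[(42,0),(2,0)]⟩,⟨0,[(56,0)]⟩⟩]⟩) (.K ⟨1,[1,-1,0,-1],0,0,(⟨0,[(12,0)]⟩,⟨0,[(40,0),(11,
  0)]⟩),(.x (-1) ⟨15,[(18,3),(8,3),(9,6),(0,6),(11,1)]⟩ ⟨0,[(52,0)]⟩),(.r (-1) ⟨4,[(11,1),(2,1),(1,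
  0),(7,3),(12,0),(5,1),(11,1)]⟩ ⟨32,[(2,7),(1,6),(0,19),(8,7),(0,5),(1,7),(26,4),(0,12)]⟩),.k,.k,
  .k,[⟨1,[(39,1),(5,0),(0,0)]⟩,⟨5,[(5,1),(3,3),(5,1),(7,0),(16,1),(1,0),(2,2),(9,0)]⟩,⟨6,[(2,1),(1,
  0),(10,3),(19,0),(3,4),(4,0)]⟩,⟨0,[(13,0),(41,0)]⟩]⟩)) (.Q [0,-1,0,1,0,0,0,0,0,1] (.pp false [-1,
  1]) (.R ⟨2,false,false,true,[0,1],[1,-1],[0,1],(⟨0,[]⟩,⟨0,[]⟩),(⟨0,[(51,0)]⟩,⟨0,[(52,0)]⟩),⟨0,[]⟩,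
  .k,.k,.k,(.r 0 ⟨18,[(2,3),(11,3),(2,5),(2,7),(9,1),(14,17),(0,11)]⟩ ⟨9,[(1,1),(5,3),(6,1),(9,3),
  (12,0),(1,1),(16,0)]⟩),.k,.k,⟨true,0,⟨18,[(2,1),(11,1),(2,2),(2,3),(9,0),(14,8),(0,5)]⟩,⟨0,[(55,
  0)]⟩⟩,⟨false,0,⟨6,[(1,1),(27,3),(12,4),(2,0),(7,0)]⟩,⟨43,[(0,27),(1,5),(4,19),(6,15),(22,4),(1,9),
  (4,5),(11,18)]⟩⟩,⟨false,1,⟨7,[(7,3),(29,2),(0,0)]⟩,⟨7,[(4,1),(11,1),(3,1),(24,0),(0,0),(6,1)]⟩⟩,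
  ⟨true,0,⟨0,[(1,0)]⟩,⟨16,[(0,7),(1,1),(3,1),(10,0),(12,7),(4,7)]⟩⟩,⟨false,1,⟨3,[(37,0),(0,0),(17,
  1)]⟩,⟨3,[(45,0),(0,0),(6,1)]⟩⟩,⟨false,1,⟨3,[(1,1),(35,0),(0,0),(11,0),(6,0)]⟩,⟨0,[(0,0)]⟩⟩,[.e
  ⟨true,0,⟨0,[(59,0)]⟩,⟨3,[(45,0),(0,0),(6,1)]⟩⟩ ⟨true,0,⟨1,[(1,0),(40,0),(2,0),(13,0)]⟩,⟨0,[(0,
  0)]⟩⟩,.a ⟨true,0,⟨0,[(55,0)]⟩,⟨3,[(0,2),(2,0),(10,0),(29,0)]⟩⟩ ⟨false,1,⟨3,[(37,0),(0,0),(17,1)]⟩,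
  ⟨0,[]⟩⟩ ⟨true,0,⟨6,[(1,3),(27,0),(12,2),(2,1),(7,1)]⟩,⟨3,[(0,2),(2,0),(10,0),(29,0)]⟩⟩,.o ⟨false,
  1,⟨3,[(37,0),(0,0),(17,1)]⟩,⟨6,[(1,1),(27,3),(12,4),(2,0),(7,0)]⟩⟩,.e ⟨false,1,⟨3,[(37,0),(0,0),
  (17,1)]⟩,⟨3,[(45,0),(0,0),(6,1)]⟩⟩ ⟨false,1,⟨3,[(1,1),(35,0),(0,0),(11,0),(6,0)]⟩,⟨0,[(0,0)]⟩⟩]⟩)
  (.K ⟨1,[1,-1,0,-1],0,0,(⟨0,[(12,0)]⟩,⟨0,[(40,0),(11,0)]⟩),(.x (-1) ⟨15,[(18,3),(8,3),(9,6),(0,6),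
  (11,1)]⟩ ⟨0,[(52,0)]⟩),(.r (-1) ⟨11,[(1,3),(7,1),(4,3),(9,7),(12,2),(1,5),(16,0)]⟩ ⟨32,[(2,7),(1,
  6),(0,19),(8,7),(0,5),(1,7),(26,4),(0,12)]⟩),.k,.k,.k,[⟨1,[(39,1),(5,0),(0,0)]⟩,⟨6,[(0,0),(0,0),
  (2,0),(0,0),(3,1),(30,4),(1,2),(2,2)]⟩,⟨6,[(2,1),(1,0),(10,3),(19,0),(3,4),(4,0)]⟩,⟨0,[(13,0),(41,
  0)]⟩]⟩))))))))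

theorem ok98 : chk (cU (-1) true 10) t98 l66 = true := by decide +kernel

noncomputable def t99 : Tre :=
  (.I [0,0,-1,-1,1,0,0,1,1] (.Q [0,0,-3,0,1,0,0,0,0,0,0,1] (.p true [0,0,0,1] [] (⟨0,[(34,0)]⟩,⟨0,
  [(33,0)]⟩) .k 0 (⟨0,[]⟩,⟨0,[]⟩) .k .k) (.Q [0,1,1,-2,0,0,0,0,1,0,0,-1] (.p false [0,0,0,1] [] (⟨0,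
  [(35,0)]⟩,⟨0,[(34,0)]⟩) .k 0 (⟨0,[]⟩,⟨0,[]⟩) .k .k) (.I [0,0,2,2,-1,0,0,0,-1] (.R ⟨1,true,false,
  false,[1,-1],[1,0,0,-1],[0,0,-1,-2],(⟨0,[(48,0)]⟩,⟨0,[(49,0)]⟩),(⟨0,[(36,0)]⟩,⟨0,[(37,0)]⟩),⟨2,
  [(15,0),(8,0),(23,1)]⟩,.k,.k,(.r (-1) ⟨2,[(1,0),(9,0),(9,1),(31,0)]⟩ ⟨3,[(4,3),(29,0),(0,2)]⟩),
  (.r (-1) ⟨15,[(1,3),(0,3),(18,3),(12,0),(0,6)]⟩ ⟨7,[(4,3),(29,2),(0,0)]⟩),(.r (-2) ⟨7,[(1,3),(0,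
  3),(18,3),(12,2),(0,4)]⟩ ⟨0,[(0,0)]⟩),.k,⟨true,1,⟨4,[(1,1),(9,0),(9,2),(13,1),(1,0)]⟩,⟨0,[(4,
  0)]⟩⟩,⟨false,1,⟨0,[(2,0)]⟩,⟨33,[(1,23),(2,17),(2,3),(9,3),(16,4),(1,9),(10,4),(6,7)]⟩⟩,⟨true,0,⟨0,
  [(52,0)]⟩,⟨0,[(51,0)]⟩⟩,⟨false,0,⟨0,[(5,0)]⟩,⟨13,[(1,9),(5,1),(9,1),(16,3),(0,4),(0,3),(10,1),(6,
  2)]⟩⟩,⟨false,1,⟨3,[(34,0),(0,0),(18,1)]⟩,⟨0,[]⟩⟩,⟨true,0,⟨0,[(5,0),(45,0)]⟩,⟨0,[(1,0)]⟩⟩,[]⟩) (.R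
  ⟨1,true,false,false,[1,-1],[1,0,0,-1],[0,0,-1,-2],(⟨0,[(48,0)]⟩,⟨0,[(49,0)]⟩),(⟨0,[(36,0)]⟩,⟨0,
  [(37,0)]⟩),⟨2,[(15,0),(8,0),(23,1)]⟩,.k,.k,(.r (-1) ⟨2,[(1,0),(9,0),(9,1),(31,0)]⟩ ⟨3,[(4,3),(29,
  0),(0,2)]⟩),(.r (-1) ⟨7,[(0,3),(33,0),(0,2)]⟩ ⟨7,[(4,3),(29,2),(0,0)]⟩),(.x 0 ⟨9,[(15,7),(12,3),
  (13,16),(0,8)]⟩ ⟨0,[(0,0),(4,0),(2,0),(16,0),(23,1)]⟩),.k,⟨true,1,⟨11,[(0,3),(0,3),(19,3),(12,0),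
  (0,2),(1,3)]⟩,⟨0,[(4,0)]⟩⟩,⟨false,1,⟨0,[(2,0)]⟩,⟨33,[(1,23),(2,17),(2,3),(9,3),(16,4),(1,9),(10,
  4),(6,7)]⟩⟩,⟨true,0,⟨0,[(52,0)]⟩,⟨0,[(51,0)]⟩⟩,⟨false,0,⟨0,[(5,0)]⟩,⟨13,[(1,9),(5,1),(9,1),(16,3),
  (0,4),(0,3),(10,1),(6,2)]⟩⟩,⟨false,1,⟨3,[(34,0),(0,0),(18,1)]⟩,⟨0,[]⟩⟩,⟨true,0,⟨0,[(5,0),(45,0)]⟩,
  ⟨0,[(1,0)]⟩⟩,[]⟩)) (.Q [0,0,0,1,0,0,-1,-1,0,0,1,-1] (.p true [0,0,1] [0,0,0,1] (⟨0,[(45,0)]⟩,⟨0,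
  [(44,0)]⟩) .k 2 (⟨0,[(36,0)]⟩,⟨0,[(35,0)]⟩) .k (.r 0 ⟨2,[(5,0),(3,0),(2,0),(9,0),(5,0),(6,1),(3,
  1),(11,0)]⟩ ⟨3,[(33,0),(0,2),(8,3)]⟩)) (.I [0,1,-1,-2,0,0,0,1,-1] (.R ⟨1,false,false,false,[1,0,0,
  -1],[1,1,-1],[1,0,1,1,0,0,0,-1],(⟨0,[(37,0)]⟩,⟨0,[(38,0)]⟩),(⟨0,[(46,0),(3,0)]⟩,⟨0,[(23,0)]⟩),⟨0,
  [(10,0)]⟩,.k,.k,(.x (-1) ⟨15,[(16,3),(8,3),(9,6),(0,6),(11,1)]⟩ ⟨0,[(50,0)]⟩),(.r (-1) ⟨22,[(0,9),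
  (3,6),(13,5),(3,3),(12,9),(18,1)]⟩ ⟨3,[(8,1),(4,1),(1,0),(18,0)]⟩),(.r (-1) ⟨45,[(0,31),(3,3),(13,
  9),(3,21),(12,8),(18,10)]⟩ ⟨15,[(5,3),(2,15),(4,7),(21,2),(0,0),(15,7)]⟩),.k,⟨true,0,⟨0,[]⟩,⟨1,
  [(43,0),(0,0)]⟩⟩,⟨false,1,⟨7,[(17,3),(17,0),(0,0),(0,7),(10,1)]⟩,⟨2,[(7,0),(0,0),(25,0),(3,1),(2,
  0),(11,0)]⟩⟩,⟨false,0,⟨0,[(8,0)]⟩,⟨22,[(0,9),(3,6),(13,5),(3,3),(12,9),(18,1)]⟩⟩,⟨false,1,⟨11,[(1,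
  3),(6,7),(21,3),(4,2),(0,4),(0,7),(10,1),(6,1)]⟩,⟨0,[(11,0),(29,0),(11,0)]⟩⟩,⟨true,0,⟨0,[(8,0),
  (43,0)]⟩,⟨0,[(0,0)]⟩⟩,⟨false,1,⟨17,[(1,13),(6,9),(9,5),(11,1),(4,5),(0,9),(0,3),(10,0),(6,0)]⟩,⟨0,
  [(11,0),(29,0),(11,1)]⟩⟩,[.e ⟨false,0,⟨1,[(15,0),(18,0)]⟩,⟨22,[(0,4),(3,14),(13,2),(3,1),(12,4),
  (18,0)]⟩⟩ ⟨false,0,⟨0,[(1,0)]⟩,⟨14,[(0,1),(3,10),(2,4),(26,4),(0,1),(2,9),(2,1),(1,2),(11,1)]⟩⟩,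
  .o ⟨false,1,⟨7,[(15,3),(19,0),(0,0),(11,1),(6,3)]⟩,⟨0,[(41,0),(11,0)]⟩⟩,.o ⟨false,1,⟨11,[(3,3),
  (31,0),(0,0),(1,7),(9,5)]⟩,⟨2,[(9,1),(27,0),(2,0),(0,1),(1,0),(7,0)]⟩⟩,.a ⟨true,0,⟨0,[(38,0)]⟩,⟨0,
  [(37,0)]⟩⟩ ⟨false,0,⟨4,[(1,0),(0,0),(5,0),(18,0),(3,2)]⟩,⟨43,[(0,7),(3,31),(19,3),(10,11),(7,16),
  (0,16),(6,1)]⟩⟩ ⟨true,0,⟨0,[(1,0)]⟩,⟨0,[(38,0),(2,0),(11,0)]⟩⟩]⟩) (.K ⟨1,[1,-1,0,-1],0,0,(⟨0,[(10,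
  0)]⟩,⟨0,[(38,0),(11,0)]⟩),(.x (-1) ⟨15,[(16,3),(8,3),(9,6),(0,6),(11,1)]⟩ ⟨0,[(50,0)]⟩),(.r (-1)
  ⟨4,[(9,1),(2,1),(1,0),(7,3),(12,0),(5,1),(11,1)]⟩ ⟨8,[(0,3),(4,0),(7,7),(4,3),(16,0)]⟩),.k,.k,.k,
  [⟨1,[(37,1),(5,0),(0,0)]⟩,⟨2,[(7,1),(5,1),(24,0),(1,0),(2,0),(7,0)]⟩,⟨3,[(0,0),(12,2),(12,0),(6,
  0),(3,3)]⟩,⟨0,[(11,0),(41,0)]⟩]⟩)) (.I [1,1,1,1,-1,0,0,-1,-1] (.R ⟨1,false,false,false,[1,0,0,-1],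
  [0,-1,1],[1,1,0,0,0,0,0,0,-1],(⟨0,[(37,0)]⟩,⟨0,[(38,0)]⟩),(⟨0,[(23,0)]⟩,⟨0,[(46,0),(3,0)]⟩),⟨0,
  [(10,0)]⟩,.k,.k,(.x (-1) ⟨15,[(16,3),(8,3),(9,6),(0,6),(11,1)]⟩ ⟨0,[(50,0)]⟩),(.r 0 ⟨1,[(0,0),(7,
  0),(26,0)]⟩ ⟨0,[(4,0)]⟩),.k,.k,⟨true,(-1),⟨0,[(0,0)]⟩,⟨3,[(4,3),(38,0),(0,0),(6,1)]⟩⟩,⟨false,0,⟨0,
  [(37,0),(5,0)]⟩,⟨7,[(3,1),(3,1),(9,3),(18,0),(1,3),(9,0)]⟩⟩,⟨false,0,⟨0,[]⟩,⟨3,[(35,0),(0,0),(18,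
  1)]⟩⟩,⟨false,1,⟨3,[(4,3),(32,3),(5,4),(0,0),(6,1)]⟩,⟨3,[(2,0),(4,1),(4,0),(2,0),(4,0)]⟩⟩,⟨true,0,
  ⟨0,[(52,0)]⟩,⟨0,[(53,0)]⟩⟩,⟨false,1,⟨3,[(4,1),(19,1),(11,0),(0,3),(5,3),(11,0)]⟩,⟨3,[(7,1),(3,0),
  (0,0),(7,1)]⟩⟩,[.a ⟨true,0,⟨0,[(1,0),(35,0)]⟩,⟨3,[(2,0),(5,0),(11,0),(12,0),(3,0),(4,0)]⟩⟩ ⟨false,
  0,⟨3,[(0,1),(6,0),(4,0),(4,0),(4,0),(14,1),(3,1)]⟩,⟨1,[(36,0),(18,0)]⟩⟩ ⟨true,0,⟨2,[(1,0),(35,3),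
  (2,0),(0,1),(1,0),(7,0),(1,1)]⟩,⟨0,[(1,0),(13,0)]⟩⟩,.o ⟨false,1,⟨13,[(4,5),(17,3),(12,2),(5,7),(1,
  5),(7,7),(3,0)]⟩,⟨2,[(15,0),(10,0),(12,1)]⟩⟩,.o ⟨false,1,⟨11,[(3,3),(31,0),(0,0),(1,7),(9,5)]⟩,⟨2,
  [(9,1),(27,0),(2,0),(0,1),(1,0),(7,0)]⟩⟩,.e ⟨false,0,⟨0,[(7,0),(29,0)]⟩,⟨0,[(13,0),(41,0)]⟩⟩
  ⟨false,1,⟨13,[(4,5),(17,3),(12,2),(1,13),(3,7),(1,5),(7,7),(3,0)]⟩,⟨0,[(1,0),(13,0)]⟩⟩]⟩) (.I [0,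
  1,-1,-2,0,0,0,1,-1] (.R ⟨1,false,false,false,[1,0,0,-1],[1,1,-1],[1,0,1,1,0,0,0,-1],(⟨0,[(38,0)]⟩,
  ⟨0,[(39,0)]⟩),(⟨0,[(47,0),(3,0)]⟩,⟨0,[(24,0)]⟩),⟨0,[(11,0)]⟩,.k,.k,(.x (-1) ⟨15,[(17,3),(8,3),(9,
  6),(0,6),(11,1)]⟩ ⟨0,[(51,0)]⟩),(.r (-1) ⟨59,[(0,25),(0,23),(2,1),(13,1),(0,5),(7,3),(8,28),(1,1),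
  (16,2)]⟩ ⟨3,[(9,1),(4,1),(1,0),(18,0)]⟩),(.r (-1) ⟨33,[(0,23),(0,3),(17,5),(3,13),(12,6),(18,8)]⟩
  ⟨15,[(6,3),(2,15),(4,7),(21,2),(0,0),(15,7)]⟩),.k,⟨true,0,⟨0,[]⟩,⟨1,[(44,0),(0,0)]⟩⟩,⟨false,1,⟨7,
  [(18,3),(17,0),(0,0),(0,7),(10,1)]⟩,⟨4,[(2,0),(5,1),(0,0),(4,0),(20,1),(3,1)]⟩⟩,⟨false,0,⟨0,[(9,
  0)]⟩,⟨59,[(0,25),(0,23),(2,1),(13,1),(0,5),(7,3),(8,28),(1,1),(16,2)]⟩⟩,⟨false,1,⟨9,[(9,5),(0,5),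
  (8,1),(11,1),(4,2),(0,4),(0,3),(10,0),(6,0)]⟩,⟨1,[(0,0),(1,0),(9,0),(15,0)]⟩⟩,⟨true,0,⟨0,[(9,0),
  (43,0)]⟩,⟨0,[(0,0)]⟩⟩,⟨false,1,⟨15,[(9,7),(0,7),(5,3),(2,7),(16,4),(0,8),(0,7),(10,1)]⟩,⟨3,[(0,2),
  (1,2),(9,0),(15,0),(3,1)]⟩⟩,[.a ⟨true,0,⟨3,[(3,0),(5,0),(11,0),(12,0),(3,0),(4,0)]⟩,⟨0,[(2,0),(35,
  0)]⟩⟩ ⟨false,0,⟨1,[(16,0),(18,0)]⟩,⟨80,[(0,16),(0,17),(2,1),(0,38),(12,1),(0,2),(7,3),(8,19),(1,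
  1)]⟩⟩ ⟨true,0,⟨7,[(6,3),(3,7),(25,0),(0,2)]⟩,⟨0,[(2,0)]⟩⟩,.o ⟨false,1,⟨7,[(16,3),(19,0),(0,0),(11,
  1),(6,3)]⟩,⟨0,[(42,0),(11,0)]⟩⟩,.o ⟨false,1,⟨11,[(4,3),(31,0),(0,0),(1,7),(9,5)]⟩,⟨2,[(10,1),(27,
  0),(2,0),(0,1),(1,0),(7,0)]⟩⟩,.e ⟨false,0,⟨3,[(3,0),(5,0),(0,0),(17,0),(3,1)]⟩,⟨14,[(0,3),(0,8),
  (12,6),(10,1),(10,5),(7,1),(0,1)]⟩⟩ ⟨false,1,⟨7,[(16,3),(19,0),(0,0),(0,7),(10,1),(6,3)]⟩,⟨0,[(2,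
  0)]⟩⟩]⟩) (.I [1,1,-2,-1,0,0,0,-1,-1] (.Q [0,0,0,1,0,0,1,1,0,1,-1] (.p false [0,0,1] [1] (⟨0,[(49,
  0)]⟩,⟨0,[(48,0)]⟩) .k 1 (⟨0,[]⟩,⟨0,[]⟩) .k .k) (.R ⟨1,false,false,false,[1,0,0,-1],[0,1,1],[1,1,0,
  0,0,0,0,0,-1],(⟨0,[(40,0)]⟩,⟨0,[(41,0)]⟩),(⟨0,[(50,0),(2,0)]⟩,⟨0,[(35,0)]⟩),⟨0,[(13,0)]⟩,.k,.k,
  (.x (-1) ⟨15,[(19,3),(8,3),(9,6),(0,6),(11,1)]⟩ ⟨0,[(53,0)]⟩),(.r 0 ⟨25,[(1,19),(6,1),(15,2),(12,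
  2),(0,1),(15,9),(1,6)]⟩ ⟨2,[(7,0),(8,1),(4,1),(16,0),(0,0)]⟩),(.r (-1) ⟨10,[(1,4),(14,1),(7,2),(0,
  6),(11,2),(0,3)]⟩ ⟨0,[(16,0),(4,0)]⟩),.k,⟨false,0,⟨0,[(1,0)]⟩,⟨3,[(27,3),(10,0),(0,2)]⟩⟩,⟨true,0,
  ⟨0,[(30,0),(9,0),(15,0)]⟩,⟨0,[(41,0),(1,0)]⟩⟩,⟨false,0,⟨0,[]⟩,⟨3,[(38,0),(0,0),(18,1)]⟩⟩,⟨false,1,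
  ⟨15,[(0,3),(2,3),(17,7),(16,0),(0,6),(0,15),(5,11),(4,1),(6,1)]⟩,⟨44,[(1,9),(2,12),(3,0),(1,15),
  (3,12),(0,2),(8,23),(8,4),(4,0)]⟩⟩,⟨true,0,⟨0,[(55,0)]⟩,⟨0,[(56,0)]⟩⟩,⟨false,1,⟨7,[(21,7),(15,3),
  (0,0),(0,4),(0,7),(10,1)]⟩,⟨32,[(1,9),(2,12),(3,0),(1,9),(3,9),(9,17),(8,4),(4,0),(17,26)]⟩⟩,[.a
  ⟨true,0,⟨0,[(0,0)]⟩,⟨2,[(4,0),(19,1),(15,1),(0,0)]⟩⟩ ⟨false,0,⟨4,[(1,1),(6,0),(6,0),(1,0),(2,0),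
  (19,0),(3,1)]⟩,⟨1,[(39,0),(18,0)]⟩⟩ ⟨true,0,⟨1,[(21,0),(18,1),(3,0),(1,0)]⟩,⟨0,[(4,0),(18,0)]⟩⟩,
  .o ⟨false,1,⟨1,[(0,1),(50,0),(6,0)]⟩,⟨0,[(24,0),(19,0)]⟩⟩,.o ⟨false,1,⟨11,[(6,3),(31,0),(0,0),(1,
  7),(9,5)]⟩,⟨2,[(12,1),(27,0),(2,0),(0,1),(1,0),(7,0)]⟩⟩,.e ⟨false,0,⟨0,[(10,0),(29,0)]⟩,⟨0,[(16,
  0),(41,0)]⟩⟩ ⟨false,1,⟨1,[(0,1),(39,1),(10,0),(6,0)]⟩,⟨0,[(4,0),(18,0)]⟩⟩]⟩) (.Q [0,0,0,0,0,0,1,1,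
  0,1,-1] (.p false [0,0,1] [1] (⟨0,[(50,0)]⟩,⟨0,[(49,0)]⟩) .k 1 (⟨0,[]⟩,⟨0,[]⟩) .k .k) (.R ⟨2,
  false,false,false,[0,1],[1,0,-1],[1,0,1,0,0,0,0,-1],(⟨0,[]⟩,⟨0,[]⟩),(⟨0,[(50,0)]⟩,⟨0,[(51,0)]⟩),
  ⟨0,[]⟩,.k,.k,.k,.k,.k,.k,⟨false,0,⟨0,[]⟩,⟨3,[(39,0),(0,0),(17,1)]⟩⟩,⟨true,0,⟨0,[(44,0)]⟩,⟨1,[(38,
  0),(2,0),(0,0)]⟩⟩,⟨false,0,⟨0,[(35,0),(21,0)]⟩,⟨17,[(8,5),(13,7),(7,3),(6,3),(1,6),(0,3),(17,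
  0)]⟩⟩,⟨true,0,⟨0,[(1,0)]⟩,⟨0,[(0,0),(55,0)]⟩⟩,⟨false,0,⟨0,[(35,0)]⟩,⟨16,[(0,0),(7,9),(8,3),(4,4),
  (11,0),(4,6),(5,0)]⟩⟩,⟨false,1,⟨7,[(24,3),(14,0),(0,0),(11,1),(6,3)]⟩,⟨0,[(0,0)]⟩⟩,[.a ⟨true,0,⟨1,
  [(24,0),(16,0),(0,0)]⟩,⟨0,[(0,0)]⟩⟩ ⟨false,0,⟨0,[(49,0)]⟩,⟨8,[(0,1),(3,0),(3,2),(12,1),(0,0),(7,
  1),(8,1),(18,0)]⟩⟩ ⟨true,0,⟨1,[(24,0),(19,0),(2,0)]⟩,⟨0,[(0,0)]⟩⟩,.o ⟨false,1,⟨7,[(24,3),(14,0),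
  (0,0),(11,1),(6,3)]⟩,⟨0,[(45,0)]⟩⟩,.o ⟨false,1,⟨3,[(39,0),(0,0),(17,1)]⟩,⟨12,[(1,5),(7,1),(2,1),
  (31,2),(0,7),(1,0),(4,1),(2,2)]⟩⟩,.e ⟨false,0,⟨0,[(35,0)]⟩,⟨16,[(0,0),(7,9),(8,3),(4,4),(11,0),(4,
  6),(5,0)]⟩⟩ ⟨false,1,⟨7,[(24,3),(14,0),(0,0),(11,1),(6,3)]⟩,⟨0,[(0,0)]⟩⟩]⟩) (.R ⟨2,false,false,
  false,[0,1],[1,1,-1],[0,0,2,1,0,0,0,-1],(⟨0,[]⟩,⟨0,[]⟩),(⟨0,[(50,0),(3,0)]⟩,⟨0,[(27,0)]⟩),⟨0,[]⟩,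
  .k,.k,.k,.k,.k,.k,⟨true,0,⟨1,[(47,0),(0,0)]⟩,⟨0,[]⟩⟩,⟨false,1,⟨7,[(21,3),(17,0),(0,0),(11,1)]⟩,⟨1,
  [(38,0),(2,0),(0,0)]⟩⟩,⟨false,0,⟨25,[(9,1),(2,5),(12,9),(12,9),(0,1),(7,2),(0,2),(6,9)]⟩,⟨38,[(4,
  10),(2,1),(0,10),(7,3),(4,5),(0,4),(7,11),(8,8),(1,5)]⟩⟩,⟨true,0,⟨0,[(0,0)]⟩,⟨6,[(5,3),(10,0),(0,
  0),(14,1),(4,1),(3,4),(3,2)]⟩⟩,⟨false,0,⟨4,[(9,0),(2,2),(22,1),(3,0)]⟩,⟨21,[(4,2),(0,5),(2,6),(12,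
  3),(4,2),(7,1),(4,4),(1,5),(3,5)]⟩⟩,⟨false,1,⟨7,[(19,3),(19,0),(0,0),(11,1),(6,3)]⟩,⟨0,[(5,0),(35,
  0)]⟩⟩,[.a ⟨true,0,⟨3,[(6,0),(5,0),(11,0),(12,0),(3,0),(4,0)]⟩,⟨0,[(5,0),(35,0)]⟩⟩ ⟨false,0,⟨7,[(3,
  0),(5,0),(2,1),(6,0),(18,0),(0,0),(6,2),(0,2)]⟩,⟨5,[(4,1),(10,0),(0,0),(4,1),(4,1),(14,1),(3,
  3)]⟩⟩ ⟨true,0,⟨23,[(9,5),(2,3),(4,3),(1,3),(4,5),(14,0),(4,3),(7,4)]⟩,⟨0,[(5,0),(35,0)]⟩⟩,.o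
  ⟨false,1,⟨7,[(19,3),(19,0),(0,0),(11,1),(6,3)]⟩,⟨0,[(45,0),(11,0)]⟩⟩,.o ⟨false,1,⟨3,[(39,0),(0,0),
  (17,1)]⟩,⟨12,[(1,5),(7,1),(2,1),(31,2),(0,7),(1,0),(4,1),(2,2)]⟩⟩,.e ⟨false,0,⟨4,[(9,0),(2,2),(22,
  1),(3,0)]⟩,⟨21,[(4,2),(0,5),(2,6),(12,3),(4,2),(7,1),(4,4),(1,5),(3,5)]⟩⟩ ⟨false,1,⟨7,[(19,3),(19,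
  0),(0,0),(11,1),(6,3)]⟩,⟨0,[(5,0),(35,0)]⟩⟩]⟩))) (.Q [0,1,1,1,0,0,1,1,1,1,-1,-1] (.p false [0,0,
  1] [1,0,0,-1] (⟨0,[(49,0)]⟩,⟨0,[(48,0)]⟩) .k 2 (⟨0,[(39,0)]⟩,⟨0,[(40,0)]⟩) .k (.r (-1) ⟨27,[(0,7),
  (5,15),(21,3),(6,3),(1,4),(0,6)]⟩ ⟨0,[(16,0),(30,0)]⟩)) (.Q [0,-1,-1,-2,0,0,-1,-1,-1,-1,1,1] (.p
  true [0,0,1] [1,0,0,-1] (⟨0,[(50,0)]⟩,⟨0,[(49,0)]⟩) .k 2 (⟨0,[(40,0)]⟩,⟨0,[(41,0)]⟩) .k (.r (-1)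
  ⟨27,[(1,7),(5,15),(21,3),(6,3),(1,4),(0,6)]⟩ ⟨0,[(17,0),(30,0)]⟩)) (.R ⟨1,false,false,true,[1,0,0,
  -1],[0,1,1],[0,1,1,1,0,0,0,1],(⟨0,[(41,0)]⟩,⟨0,[(42,0)]⟩),(⟨0,[(51,0),(2,0)]⟩,⟨0,[(36,0)]⟩),⟨0,
  [(14,0)]⟩,.k,.k,(.x (-1) ⟨15,[(20,3),(8,3),(9,6),(0,6),(11,1)]⟩ ⟨0,[(54,0)]⟩),(.r 0 ⟨3,[(0,1),(10,
  0),(1,2),(2,0),(21,1),(2,0),(3,0)]⟩ ⟨13,[(2,7),(5,1),(21,3),(6,3),(1,4),(0,6)]⟩),(.r (-1) ⟨3,[(0,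
  0),(15,0),(9,2),(11,1),(0,0),(1,1),(1,2)]⟩ ⟨0,[(2,0),(53,0)]⟩),.k,⟨false,1,⟨3,[(39,0),(0,0),(17,
  1)]⟩,⟨0,[]⟩⟩,⟨true,0,⟨0,[(31,0),(9,0),(15,0)]⟩,⟨0,[(42,0),(1,0)]⟩⟩,⟨false,1,⟨13,[(2,7),(5,1),(21,
  3),(6,3),(1,4),(0,6)]⟩,⟨0,[(0,0),(30,0),(9,0)]⟩⟩,⟨true,0,⟨0,[(1,0)]⟩,⟨2,[(0,0),(10,0),(4,0),(8,
  0)]⟩⟩,⟨false,1,⟨15,[(2,3),(19,7),(7,3),(6,3),(1,4),(0,10),(15,3)]⟩,⟨0,[(0,0),(30,0),(9,0),(15,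
  0)]⟩⟩,⟨false,1,⟨31,[(1,39),(4,7),(12,3),(19,6),(0,6),(11,1),(6,15)]⟩,⟨0,[(0,0)]⟩⟩,[.o ⟨false,0,⟨0,
  [(30,0)]⟩,⟨39,[(17,7),(7,19),(0,9),(12,3),(4,5),(2,5),(4,6),(6,18)]⟩⟩,.e ⟨true,0,⟨18,[(1,4),(3,2),
  (3,0),(6,1),(5,5),(5,2),(5,4),(4,0),(5,1)]⟩,⟨1,[(25,0),(12,0),(18,0)]⟩⟩ ⟨true,0,⟨29,[(1,8),(7,2),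
  (12,4),(8,4),(7,2),(1,20),(3,15),(9,9)]⟩,⟨0,[(5,0),(18,0)]⟩⟩,.o ⟨false,1,⟨11,[(7,3),(31,0),(0,0),
  (1,7),(9,5)]⟩,⟨2,[(13,1),(27,0),(2,0),(0,1),(1,0),(7,0)]⟩⟩,.a ⟨true,0,⟨0,[(42,0)]⟩,⟨0,[(41,0)]⟩⟩
  ⟨false,1,⟨127,[(1,3),(5,3),(0,39),(12,3),(0,55),(7,27),(6,23),(1,50),(0,28)]⟩,⟨0,[(35,0),(21,
  0)]⟩⟩ ⟨true,0,⟨0,[(30,0),(10,0)]⟩,⟨0,[(5,0),(18,0)]⟩⟩]⟩) (.K ⟨1,[1,-1,0,-1],0,0,(⟨0,[(14,0)]⟩,⟨0,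
  [(42,0),(11,0)]⟩),(.x (-1) ⟨15,[(20,3),(8,3),(9,6),(0,6),(11,1)]⟩ ⟨0,[(54,0)]⟩),(.r (-1) ⟨4,[(13,
  1),(2,1),(1,0),(7,3),(12,0),(5,1),(11,1)]⟩ ⟨8,[(2,3),(0,3),(5,0),(7,3),(21,0),(16,3)]⟩),.k,.k,.k,
  [⟨1,[(41,1),(5,0),(0,0)]⟩,⟨10,[(5,5),(3,2),(1,0),(0,1),(4,1),(7,1),(16,3),(1,1),(7,2)]⟩,⟨3,[(1,1),
  (10,0),(4,0),(19,0),(3,1),(4,0)]⟩,⟨0,[(15,0),(41,0)]⟩]⟩)) (.Q [0,1,1,0,0,0,1,1,1,1,-1,-1] (.p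
  false [0,0,1] [1,0,0,-1] (⟨0,[(50,0)]⟩,⟨0,[(49,0)]⟩) .k 2 (⟨0,[(40,0)]⟩,⟨0,[(41,0)]⟩) .k (.r (-1)
  ⟨27,[(1,7),(5,15),(21,3),(6,3),(1,4),(0,6)]⟩ ⟨15,[(0,1),(7,2),(1,1),(1,5),(2,1),(1,0),(6,3),(12,
  7),(0,2)]⟩)) (.R ⟨1,false,false,true,[1,0,-1],[0,0,0,1],[],(⟨0,[(50,0)]⟩,⟨0,[(51,0)]⟩),(⟨0,[(42,
  0)]⟩,⟨0,[(41,0)]⟩),⟨0,[(36,0)]⟩,.k,.k,.k,.k,(.r 0 ⟨3,[(1,0),(9,1),(1,2),(2,0),(21,1),(2,0),(15,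
  2)]⟩ ⟨13,[(2,7),(5,1),(21,3),(6,3),(1,4),(0,6)]⟩),.k,⟨true,0,⟨1,[(11,0),(6,0),(22,0),(13,0)]⟩,⟨0,
  [(17,0)]⟩⟩,⟨false,0,⟨0,[(31,0),(9,0),(15,0)]⟩,⟨7,[(21,3),(17,0),(0,0),(1,7),(9,1)]⟩⟩,⟨false,1,⟨4,
  [(2,0),(1,2),(17,0),(16,1)]⟩,⟨0,[(49,0)]⟩⟩,⟨true,0,⟨0,[(0,0)]⟩,⟨5,[(1,1),(9,1),(4,1),(2,0),(4,
  0)]⟩⟩,⟨false,1,⟨5,[(4,1),(17,3),(16,1),(0,0),(17,0)]⟩,⟨1,[(25,0),(12,0),(18,0)]⟩⟩,⟨false,1,⟨15,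
  [(0,15),(2,3),(18,3),(16,4),(0,2),(17,3),(0,3)]⟩,⟨0,[(1,0)]⟩⟩,[.a ⟨true,0,⟨0,[(17,0),(23,0)]⟩,⟨0,
  [(15,0)]⟩⟩ ⟨false,1,⟨3,[(39,0),(0,0),(17,1)]⟩,⟨0,[]⟩⟩ ⟨true,0,⟨0,[(0,0),(48,0)]⟩,⟨14,[(1,7),(3,2),
  (3,0),(1,1),(3,1),(6,3),(5,0),(5,4),(4,0)]⟩⟩,.o ⟨false,1,⟨39,[(0,27),(1,3),(9,3),(0,11),(11,7),
  (13,8),(0,10),(11,9),(6,9)]⟩,⟨0,[(11,0)]⟩⟩,.o ⟨false,1,⟨23,[(21,3),(12,7),(4,6),(0,6),(11,5)]⟩,⟨0,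
  [(31,0),(25,0)]⟩⟩,.o ⟨false,0,⟨0,[(44,0)]⟩,⟨7,[(38,3),(0,0),(0,0),(11,1),(5,3)]⟩⟩]⟩) (.Q [0,-1,-1,
  1,0,0,-1,-1,-1,-1,1,1] (.p true [0,0,1] [1,0,0,-1] (⟨0,[(51,0)]⟩,⟨0,[(50,0)]⟩) .k 2 (⟨0,[(41,0)]⟩,
  ⟨0,[(42,0)]⟩) .k (.r (-1) ⟨27,[(2,7),(5,15),(21,3),(6,3),(1,4),(0,6)]⟩ ⟨15,[(1,1),(7,2),(1,1),(1,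
  5),(2,1),(1,0),(6,3),(12,7),(0,2)]⟩)) (.Q [0,1,1,-2,0,0,1,1,1,1,-1,-1] (.p false [0,0,1] [1,0,0,
  -1] (⟨0,[(52,0)]⟩,⟨0,[(51,0)]⟩) .k 2 (⟨0,[(42,0)]⟩,⟨0,[(43,0)]⟩) .k (.r (-1) ⟨27,[(3,7),(5,15),
  (21,3),(6,3),(1,4),(0,6)]⟩ ⟨15,[(2,1),(7,2),(1,1),(1,5),(2,1),(1,0),(6,3),(12,7),(0,2)]⟩)) (.R ⟨1,
  false,false,false,[0,-1,1],[1,0,0,-1],[1,1],(⟨0,[(29,0)]⟩,⟨0,[(52,0),(3,0)]⟩),(⟨0,[(43,0)]⟩,⟨0,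
  [(44,0)]⟩),⟨0,[(22,0)]⟩,.k,.k,(.r (-1) ⟨1,[(0,0),(16,0),(5,0),(4,0),(18,0)]⟩ ⟨2,[(5,1),(5,0),(7,
  0),(21,0),(6,0),(0,0)]⟩),(.r (-1) ⟨0,[(10,0)]⟩ ⟨15,[(11,5),(2,1),(6,0),(18,0),(0,5),(6,1),(0,1),
  (1,9)]⟩),(.r (-2) ⟨11,[(0,1),(8,1),(0,11),(17,3),(12,2),(0,1),(5,1),(5,0)]⟩ ⟨0,[(11,0),(39,0)]⟩),
  .k,⟨false,1,⟨1,[(42,0),(17,0),(2,1)]⟩,⟨1,[(13,0),(6,0),(22,0),(13,0)]⟩⟩,⟨true,1,⟨7,[(9,1),(3,1),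
  (9,3),(18,0),(1,3),(9,0)]⟩,⟨0,[(0,0),(10,0),(25,0)]⟩⟩,⟨false,0,⟨7,[(5,0),(5,0),(2,1),(6,0),(18,0),
  (0,0),(6,2),(0,2)]⟩,⟨6,[(0,0),(5,1),(10,0),(5,0),(4,2),(1,2),(10,0),(5,0)]⟩⟩,⟨false,0,⟨0,[(1,0)]⟩,
  ⟨9,[(0,7),(23,1),(8,1),(7,2),(0,3),(0,1),(17,2)]⟩⟩,⟨false,0,⟨9,[(5,3),(5,1),(7,1),(1,2),(18,2),(0,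
  1),(16,1)]⟩,⟨63,[(0,21),(6,11),(5,4),(3,4),(5,6),(4,50),(1,29),(5,9),(4,5)]⟩⟩,⟨true,0,⟨13,[(8,4),
  (4,5),(4,2),(2,7),(10,1)]⟩,⟨0,[(0,0)]⟩⟩,[.o ⟨false,0,⟨0,[(13,0)]⟩,⟨39,[(0,15),(3,7),(0,7),(9,7),
  (5,3),(19,10),(0,14),(0,15),(10,13)]⟩⟩,.a ⟨true,0,⟨0,[(17,0)]⟩,⟨0,[(19,0),(23,0)]⟩⟩ ⟨true,0,⟨0,
  []⟩,⟨1,[(49,0),(0,0)]⟩⟩ ⟨false,1,⟨1,[(8,0),(4,0),(9,0),(4,0)]⟩,⟨0,[(19,0),(23,0),(5,0)]⟩⟩,.o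
  ⟨false,0,⟨0,[(49,0)]⟩,⟨7,[(23,3),(17,0),(0,0),(11,1)]⟩⟩,.o ⟨false,0,⟨1,[(49,2),(0,0)]⟩,⟨5,[(6,0),
  (6,0),(1,0),(7,3),(4,0),(4,2),(11,0),(1,0)]⟩⟩]⟩) (.K ⟨1,[1,-1,0,-1],0,0,(⟨0,[(16,0)]⟩,⟨0,[(44,0),
  (11,0)]⟩),(.x (-1) ⟨15,[(22,3),(8,3),(9,6),(0,6),(11,1)]⟩ ⟨0,[(56,0)]⟩),(.r (-1) ⟨4,[(15,1),(2,1),
  (1,0),(7,3),(12,0),(5,1),(11,1)]⟩ ⟨8,[(4,3),(0,3),(5,0),(7,3),(21,0),(16,3)]⟩),.k,.k,.k,[⟨1,[(43,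
  1),(5,0),(0,0)]⟩,⟨6,[(3,1),(3,2),(3,1),(2,0),(4,2),(24,1),(1,0),(7,1)]⟩,⟨3,[(5,0),(13,2),(12,0),
  (6,0),(3,3)]⟩,⟨1,[(3,0),(3,0),(9,0),(25,0)]⟩]⟩)) (.R ⟨1,false,false,false,[0,0,1],[1,0,0,-1],[0,1,
  1],(⟨0,[(52,0)]⟩,⟨0,[(51,0)]⟩),(⟨0,[(42,0)]⟩,⟨0,[(43,0)]⟩),⟨0,[(28,0)]⟩,.k,.k,.k,.k,(.r (-1) ⟨0,
  [(9,0)]⟩ ⟨15,[(10,5),(2,1),(6,0),(18,0),(0,5),(6,1),(0,1),(1,9)]⟩),.k,⟨true,0,⟨0,[(18,0)]⟩,⟨0,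
  [(10,0),(16,0)]⟩⟩,⟨false,1,⟨7,[(8,1),(3,1),(9,3),(18,0),(1,3),(9,0)]⟩,⟨0,[(42,0),(5,0)]⟩⟩,⟨false,
  0,⟨15,[(10,0),(2,2),(12,4),(12,4),(0,0),(6,2),(0,6),(0,3)]⟩,⟨18,[(5,7),(1,1),(14,1),(0,6),(3,5),
  (3,1),(8,2),(1,1),(3,1)]⟩⟩,⟨false,0,⟨0,[(1,0)]⟩,⟨15,[(0,11),(22,3),(8,3),(7,4),(0,6),(0,3),(17,
  3)]⟩⟩,⟨false,0,⟨7,[(4,0),(5,0),(2,1),(6,0),(18,0),(0,0),(6,2),(0,2)]⟩,⟨22,[(0,1),(4,3),(0,3),(15,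
  3),(4,11),(1,10),(10,2),(1,1),(3,1)]⟩⟩,⟨true,0,⟨6,[(2,0),(4,0),(4,2),(4,1),(2,2)]⟩,⟨0,[(0,0)]⟩⟩,
  [.o ⟨false,0,⟨0,[(12,0)]⟩,⟨23,[(0,11),(2,3),(0,3),(9,11),(25,6),(0,8),(11,5),(6,1)]⟩⟩,.a ⟨true,0,
  ⟨0,[(16,0)]⟩,⟨2,[(0,1),(12,0),(24,0),(3,0),(4,0)]⟩⟩ ⟨true,0,⟨1,[(48,0),(0,0)]⟩,⟨0,[]⟩⟩ ⟨false,1,
  ⟨12,[(2,2),(2,0),(0,1),(0,2),(0,0),(3,3),(9,5),(17,1),(19,2)]⟩,⟨1,[(0,1),(19,0),(18,0)]⟩⟩,.o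
  ⟨false,0,⟨1,[(0,0),(1,0),(29,1)]⟩,⟨23,[(22,3),(12,7),(4,6),(0,6),(11,5)]⟩⟩,.o ⟨false,0,⟨0,[(48,
  0)]⟩,⟨7,[(22,3),(17,0),(0,0),(11,1)]⟩⟩]⟩))))))))) (.Q [0,1,1,-2,0,0,0,0,1,0,0,-1] (.p false [0,0,
  0,1] [] (⟨0,[(35,0)]⟩,⟨0,[(34,0)]⟩) .k 0 (⟨0,[]⟩,⟨0,[]⟩) .k .k) (.R ⟨1,false,false,false,[1,-1],
  [1,0,0,-1],[0,0,0,0,0,0,0,0,-1],(⟨0,[(47,0)]⟩,⟨0,[(48,0)]⟩),(⟨0,[(35,0)]⟩,⟨0,[(36,0)]⟩),⟨2,[(14,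
  0),(8,0),(23,1)]⟩,.k,.k,(.r (-1) ⟨2,[(0,0),(9,0),(9,1),(31,0)]⟩ ⟨3,[(3,3),(29,0),(0,2)]⟩),(.r
  (-1) ⟨5,[(0,0),(9,0),(9,1),(13,2),(17,0)]⟩ ⟨7,[(3,3),(29,2),(0,0)]⟩),(.r (-2) ⟨11,[(0,3),(9,3),(9,
  7),(12,2),(0,8),(17,3)]⟩ ⟨0,[(1,0),(2,1),(1,0),(0,0),(16,1),(6,0),(19,3)]⟩),.k,⟨false,1,⟨3,[(33,
  0),(0,0),(17,1)]⟩,⟨0,[]⟩⟩,⟨true,1,⟨9,[(4,3),(5,5),(9,1),(13,4),(17,2)]⟩,⟨0,[(1,0)]⟩⟩,⟨false,0,⟨13,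
  [(3,5),(0,1),(28,2),(1,1),(10,0),(2,3),(3,1)]⟩,⟨5,[(0,0),(9,0),(9,1),(13,2),(17,0)]⟩⟩,⟨false,0,⟨0,
  [(4,0)]⟩,⟨11,[(0,5),(0,1),(31,2),(0,5),(0,3),(10,1),(6,2)]⟩⟩,⟨false,0,⟨27,[(3,12),(0,4),(2,2),(5,
  1),(2,6),(8,6),(7,4),(1,1),(17,7)]⟩,⟨4,[(0,1),(9,0),(9,2),(13,1),(1,0)]⟩⟩,⟨true,0,⟨0,[(4,0),(45,
  0)]⟩,⟨0,[(0,0)]⟩⟩,[.o ⟨false,0,⟨0,[(5,0)]⟩,⟨11,[(1,3),(31,2),(0,8),(0,7),(10,3)]⟩⟩,.a ⟨true,0,⟨0,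
  [(9,0)]⟩,⟨0,[(11,0),(23,0)]⟩⟩ ⟨true,0,⟨1,[(5,0),(6,0),(22,0),(13,0)]⟩,⟨0,[(11,0)]⟩⟩ ⟨false,1,⟨4,
  [(4,3),(5,0),(9,1),(31,2)]⟩,⟨35,[(0,11),(0,19),(31,2),(0,14),(0,3),(10,1),(3,23)]⟩⟩,.o ⟨false,0,
  ⟨3,[(1,1),(3,1),(28,0),(11,0)]⟩,⟨3,[(33,0),(0,0),(17,1)]⟩⟩,.o ⟨false,0,⟨0,[(38,0),(2,0)]⟩,⟨0,[(52,
  0)]⟩⟩]⟩) (.Q [0,0,0,-1,0,0,1,1,0,1,-1] (.p false [0,0,1] [1] (⟨0,[(45,0)]⟩,⟨0,[(44,0)]⟩) .k 1 (⟨0,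
  []⟩,⟨0,[]⟩) .k .k) (.I [1,1,1,1,-1,0,0,-1,-1] (.R ⟨1,false,false,false,[1,0,0,-1],[0,-1,1],[1,1,0,
  0,0,0,0,0,-1],(⟨0,[(37,0)]⟩,⟨0,[(38,0)]⟩),(⟨0,[(23,0)]⟩,⟨0,[(46,0),(3,0)]⟩),⟨0,[(10,0)]⟩,.k,.k,
  (.x (-1) ⟨15,[(16,3),(8,3),(9,6),(0,6),(11,1)]⟩ ⟨0,[(50,0)]⟩),(.r 0 ⟨1,[(0,0),(7,0),(26,0)]⟩ ⟨0,
  [(4,0)]⟩),.k,.k,⟨true,(-1),⟨0,[(0,0)]⟩,⟨5,[(1,1),(2,3),(31,0),(3,1),(10,1),(3,0)]⟩⟩,⟨false,0,⟨23,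
  [(3,7),(30,11),(0,2),(0,2),(0,15),(10,1)]⟩,⟨9,[(2,0),(4,4),(4,1),(4,4),(4,0),(13,3),(1,1)]⟩⟩,
  ⟨false,0,⟨0,[]⟩,⟨3,[(35,0),(0,0),(18,1)]⟩⟩,⟨false,1,⟨9,[(1,1),(1,5),(0,7),(29,3),(0,0),(0,1),(0,
  3),(17,4)]⟩,⟨3,[(2,0),(4,1),(4,0),(2,0),(4,0)]⟩⟩,⟨true,0,⟨0,[(52,0)]⟩,⟨0,[(53,0)]⟩⟩,⟨false,1,⟨39,
  [(1,11),(1,15),(0,7),(21,19),(7,3),(0,0),(0,16),(0,23),(17,29)]⟩,⟨3,[(7,1),(3,0),(0,0),(7,1)]⟩⟩,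
  [.a ⟨true,0,⟨0,[(1,0)]⟩,⟨3,[(2,0),(5,0),(11,0),(12,0),(3,0),(4,0)]⟩⟩ ⟨false,0,⟨3,[(0,1),(6,0),(4,
  0),(4,0),(4,0),(14,1),(3,1)]⟩,⟨1,[(36,0),(18,0)]⟩⟩ ⟨true,0,⟨2,[(1,2),(1,0),(33,1),(10,0)]⟩,⟨0,[(7,
  0),(0,0),(24,0),(19,0)]⟩⟩,.o ⟨false,1,⟨1,[(1,1),(46,0),(6,0)]⟩,⟨2,[(15,0),(10,0),(12,1)]⟩⟩,.o
  ⟨false,1,⟨3,[(7,1),(4,1),(23,1),(11,0),(6,0)]⟩,⟨2,[(3,0),(33,1),(10,0)]⟩⟩,.e ⟨false,0,⟨0,[(7,0),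
  (29,0)]⟩,⟨0,[(13,0),(41,0)]⟩⟩ ⟨false,1,⟨1,[(1,1),(35,1),(10,0),(6,0)]⟩,⟨0,[(7,0),(0,0),(24,0),(19,
  0)]⟩⟩]⟩) (.Q [0,0,0,-1,0,0,-1,-1,0,-1,1] (.p true [0,0,1] [1] (⟨0,[(47,0)]⟩,⟨0,[(46,0)]⟩) .k 1
  (⟨0,[]⟩,⟨0,[]⟩) .k .k) (.Q [0,0,0,0,0,0,1,1,0,1,-1] (.p false [0,0,1] [1] (⟨0,[(48,0)]⟩,⟨0,[(47,
  0)]⟩) .k 1 (⟨0,[]⟩,⟨0,[]⟩) .k .k) (.R ⟨2,false,false,false,[0,1],[1,0,-1],[1,0,1,0,0,0,0,-1],(⟨0,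
  []⟩,⟨0,[]⟩),(⟨0,[(48,0)]⟩,⟨0,[(49,0)]⟩),⟨0,[]⟩,.k,.k,.k,.k,.k,.k,⟨false,0,⟨0,[]⟩,⟨3,[(37,0),(0,0),
  (17,1)]⟩⟩,⟨true,0,⟨0,[(42,0)]⟩,⟨4,[(3,1),(26,1),(2,0),(2,0),(7,0)]⟩⟩,⟨false,0,⟨0,[(33,0),(21,0)]⟩,
  ⟨17,[(6,5),(13,7),(7,3),(6,3),(1,6),(0,3),(17,0)]⟩⟩,⟨true,0,⟨0,[(1,0)]⟩,⟨0,[(0,0),(53,0)]⟩⟩,
  ⟨false,0,⟨0,[(33,0)]⟩,⟨16,[(0,0),(5,9),(8,3),(4,4),(11,0),(4,6),(5,0)]⟩⟩,⟨false,1,⟨7,[(22,3),(14,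
  0),(0,0),(11,1),(6,3)]⟩,⟨0,[(0,0)]⟩⟩,[.a ⟨true,0,⟨1,[(22,0),(16,0),(0,0)]⟩,⟨0,[(0,0)]⟩⟩ ⟨false,0,
  ⟨0,[(47,0)]⟩,⟨8,[(0,1),(1,0),(3,2),(12,1),(0,0),(7,1),(8,1),(18,0)]⟩⟩ ⟨true,0,⟨1,[(22,0),(19,0),
  (2,0)]⟩,⟨0,[(0,0)]⟩⟩,.o ⟨false,1,⟨7,[(22,3),(14,0),(0,0),(11,1),(6,3)]⟩,⟨0,[(43,0)]⟩⟩,.o ⟨false,1,
  ⟨3,[(37,0),(0,0),(17,1)]⟩,⟨9,[(2,0),(2,3),(3,3),(0,0),(4,1),(34,2)]⟩⟩,.e ⟨false,0,⟨0,[(33,0)]⟩,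
  ⟨16,[(0,0),(5,9),(8,3),(4,4),(11,0),(4,6),(5,0)]⟩⟩ ⟨false,1,⟨7,[(22,3),(14,0),(0,0),(11,1),(6,
  3)]⟩,⟨0,[(0,0)]⟩⟩]⟩) (.R ⟨2,false,false,false,[0,1],[1,1,-1],[1,0,1,1,0,0,0,-1],(⟨0,[]⟩,⟨0,[]⟩),
  (⟨0,[(48,0),(3,0)]⟩,⟨0,[(25,0)]⟩),⟨0,[]⟩,.k,.k,.k,.k,.k,.k,⟨true,0,⟨0,[]⟩,⟨7,[(5,1),(9,1),(21,0),
  (2,1),(16,0)]⟩⟩,⟨false,1,⟨7,[(19,3),(17,0),(0,0),(11,1)]⟩,⟨4,[(3,1),(26,1),(2,0),(2,0),(7,0)]⟩⟩,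
  ⟨false,0,⟨0,[(33,0)]⟩,⟨16,[(3,0),(2,9),(8,3),(4,4),(7,0),(3,0),(4,6)]⟩⟩,⟨true,0,⟨0,[(0,0)]⟩,⟨0,
  [(3,0),(50,0)]⟩⟩,⟨false,0,⟨3,[(4,0),(5,0),(0,0),(17,0),(3,1)]⟩,⟨7,[(2,1),(0,3),(2,1),(8,1),(16,1),
  (4,2),(12,0)]⟩⟩,⟨false,1,⟨7,[(17,3),(19,0),(0,0),(11,1),(6,3)]⟩,⟨0,[(3,0)]⟩⟩,[.a ⟨true,0,⟨3,[(4,
  0),(5,0),(11,0),(12,0),(3,0),(4,0)]⟩,⟨0,[(3,0)]⟩⟩ ⟨false,0,⟨1,[(17,0),(18,0)]⟩,⟨21,[(2,2),(0,5),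
  (2,6),(12,3),(4,2),(7,1),(4,4),(5,5)]⟩⟩ ⟨true,0,⟨23,[(7,5),(2,3),(4,3),(1,3),(4,5),(14,0),(4,3),
  (7,4)]⟩,⟨0,[(3,0)]⟩⟩,.o ⟨false,1,⟨7,[(17,3),(19,0),(0,0),(11,1),(6,3)]⟩,⟨0,[(43,0),(11,0)]⟩⟩,.o
  ⟨false,1,⟨3,[(37,0),(0,0),(17,1)]⟩,⟨9,[(2,0),(2,3),(3,3),(0,0),(4,1),(34,2)]⟩⟩,.e ⟨false,0,⟨3,[(4,
  0),(5,0),(0,0),(17,0),(3,1)]⟩,⟨7,[(2,1),(0,3),(2,1),(8,1),(16,1),(4,2),(12,0)]⟩⟩ ⟨false,1,⟨7,[(17,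
  3),(19,0),(0,0),(11,1),(6,3)]⟩,⟨0,[(3,0)]⟩⟩]⟩)) (.Q [0,0,0,-2,0,0,-1,-1,0,-1,1] (.p true [0,0,1]
  [1] (⟨0,[(48,0)]⟩,⟨0,[(47,0)]⟩) .k 1 (⟨0,[]⟩,⟨0,[]⟩) .k .k) (.R ⟨1,false,false,true,[1,0,-1],[0,
  1],[0,1,2,1],(⟨0,[(48,0)]⟩,⟨0,[(49,0)]⟩),(⟨0,[(52,0)]⟩,⟨0,[(51,0)]⟩),⟨0,[(34,0)]⟩,.k,.k,.k,.k,(.r
  (-1) ⟨1,[(24,1),(11,0),(4,0),(2,0)]⟩ ⟨8,[(3,0),(3,1),(7,5),(4,6),(7,0),(3,0),(4,1)]⟩),.k,⟨true,0,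
  ⟨7,[(5,1),(9,1),(21,0),(2,1),(16,0)]⟩,⟨0,[]⟩⟩,⟨false,1,⟨7,[(14,1),(9,1),(5,3),(5,1),(1,0),(0,1),
  (16,4)]⟩,⟨0,[(42,0)]⟩⟩,⟨false,0,⟨48,[(3,5),(1,1),(1,8),(7,30),(10,36),(5,5),(4,10),(2,1),(2,5)]⟩,
  ⟨1,[(17,0),(6,1),(11,0)]⟩⟩,⟨false,0,⟨0,[(1,0)]⟩,⟨5,[(0,1),(22,1),(13,0),(0,0),(11,0),(6,2)]⟩⟩,
  ⟨false,0,⟨8,[(3,0),(3,1),(7,5),(4,6),(7,0),(3,0),(4,1)]⟩,⟨0,[(24,0),(22,0)]⟩⟩,⟨true,0,⟨0,[(1,0),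
  (52,0)]⟩,⟨0,[(0,0)]⟩⟩,[.o ⟨false,0,⟨0,[(54,0)]⟩,⟨5,[(0,1),(2,1),(46,2),(6,2)]⟩⟩,.a ⟨true,0,⟨6,[(1,
  0),(2,0),(5,0),(19,0),(4,1),(3,4),(0,3)]⟩,⟨0,[(55,0)]⟩⟩ ⟨false,0,⟨7,[(7,3),(29,0),(0,2)]⟩,⟨1,[(24,
  0),(31,0),(2,0)]⟩⟩ ⟨true,0,⟨0,[(30,0)]⟩,⟨2,[(0,0),(2,0),(38,2)]⟩⟩,.o ⟨false,1,⟨23,[(19,3),(12,7),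
  (4,6),(0,6),(11,5)]⟩,⟨2,[(0,0),(2,0),(25,2)]⟩⟩,.o ⟨false,0,⟨0,[(42,0)]⟩,⟨7,[(36,3),(0,0),(0,0),
  (11,1),(5,3)]⟩⟩]⟩) (.Q [0,1,1,0,0,0,1,1,1,1,-1,-1] (.p false [0,0,1] [1,0,0,-1] (⟨0,[(49,0)]⟩,⟨0,
  [(48,0)]⟩) .k 2 (⟨0,[(39,0)]⟩,⟨0,[(40,0)]⟩) .k (.r (-1) ⟨5,[(6,3),(8,1),(4,1),(16,0),(0,0)]⟩ ⟨0,
  [(16,0),(30,0)]⟩)) (.Q [0,1,1,1,0,0,1,1,1,1,-1,-1] (.p false [0,0,1] [1,0,0,-1] (⟨0,[(50,0)]⟩,⟨0,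
  [(49,0)]⟩) .k 2 (⟨0,[(40,0)]⟩,⟨0,[(41,0)]⟩) .k (.r (-1) ⟨5,[(7,3),(8,1),(4,1),(16,0),(0,0)]⟩ ⟨0,
  [(17,0),(30,0)]⟩)) (.Q [0,-1,-1,-2,0,0,-1,-1,-1,-1,1,1] (.p true [0,0,1] [1,0,0,-1] (⟨0,[(51,0)]⟩,
  ⟨0,[(50,0)]⟩) .k 2 (⟨0,[(41,0)]⟩,⟨0,[(42,0)]⟩) .k (.r (-1) ⟨5,[(8,3),(8,1),(4,1),(16,0),(0,0)]⟩
  ⟨0,[(18,0),(30,0)]⟩)) (.R ⟨1,false,false,true,[1,0,0,-1],[0,1,1],[0,1,1,1,0,0,0,1],(⟨0,[(42,0)]⟩,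
  ⟨0,[(43,0)]⟩),(⟨0,[(52,0),(2,0)]⟩,⟨0,[(37,0)]⟩),⟨0,[(15,0)]⟩,.k,.k,(.x (-1) ⟨15,[(21,3),(8,3),(9,
  6),(0,6),(11,1)]⟩ ⟨0,[(55,0)]⟩),(.r 0 ⟨3,[(0,1),(11,0),(1,2),(2,0),(21,1),(2,0),(3,0)]⟩ ⟨2,[(9,0),
  (8,1),(4,1),(16,0),(0,0)]⟩),(.r (-1) ⟨3,[(0,0),(16,0),(9,2),(11,1),(0,0),(1,1),(1,2)]⟩ ⟨0,[(18,0),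
  (4,0)]⟩),.k,⟨false,1,⟨3,[(40,0),(0,0),(17,1)]⟩,⟨0,[]⟩⟩,⟨true,0,⟨1,[(0,0),(1,0),(29,1),(9,1)]⟩,⟨0,
  [(43,0),(1,0)]⟩⟩,⟨false,1,⟨2,[(9,0),(8,1),(4,1),(16,0),(0,0)]⟩,⟨0,[(0,0),(31,0),(9,0)]⟩⟩,⟨true,0,
  ⟨0,[(1,0)]⟩,⟨2,[(0,0),(11,0),(4,0),(8,0)]⟩⟩,⟨false,1,⟨15,[(18,3),(4,11),(7,3),(6,3),(1,4),(0,
  10)]⟩,⟨1,[(0,2),(1,0),(29,1),(9,1)]⟩⟩,⟨false,1,⟨23,[(1,23),(1,7),(16,3),(19,4),(0,4),(11,1),(6,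
  11)]⟩,⟨0,[(0,0)]⟩⟩,[.o ⟨false,0,⟨0,[(31,0)]⟩,⟨27,[(0,3),(7,3),(17,11),(0,3),(12,4),(0,6),(11,5),
  (6,9)]⟩⟩,.e ⟨true,0,⟨57,[(2,10),(3,3),(3,2),(6,1),(5,27),(11,14),(4,2),(2,8),(2,14)]⟩,⟨3,[(0,0),
  (1,0),(23,1),(12,1)]⟩⟩ ⟨true,0,⟨52,[(2,9),(5,7),(14,24),(3,2),(4,8),(6,7),(0,4),(1,34),(3,17)]⟩,
  ⟨3,[(0,2),(11,0),(0,0),(4,2),(19,0)]⟩⟩,.o ⟨false,1,⟨3,[(12,1),(4,1),(23,1),(11,0),(6,0)]⟩,⟨2,[(8,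
  0),(33,1),(10,0)]⟩⟩,.a ⟨true,0,⟨0,[(43,0)]⟩,⟨0,[(42,0)]⟩⟩ ⟨false,1,⟨87,[(3,3),(5,27),(12,3),(0,
  35),(7,19),(6,15),(1,34),(0,20)]⟩,⟨1,[(0,0),(1,0),(33,1)]⟩⟩ ⟨true,0,⟨0,[(31,0),(10,0)]⟩,⟨3,[(0,2),
  (11,0),(0,0),(4,2),(19,0)]⟩⟩]⟩) (.Q [0,-1,0,2,0,0,0,0,0,1] (.pp false [-1,1]) (.Q [0,0,-3,0,1,0,0,
  0,0,1] (.pp false [-1,1]) (.Q [0,1,0,-3,0,0,0,0,0,-1] (.pp true [-1,1]) (.R ⟨1,true,false,false,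
  [1,-1],[0,1],[1,0,-1,-1],(⟨0,[(57,0)]⟩,⟨0,[(58,0)]⟩),(⟨0,[(58,0)]⟩,⟨0,[(57,0)]⟩),⟨2,[(24,0),(8,0),
  (23,1)]⟩,.k,.k,(.r (-1) ⟨9,[(0,3),(0,3),(28,3),(12,0),(0,0)]⟩ ⟨3,[(13,3),(29,0),(0,2)]⟩),(.r (-1)
  ⟨9,[(0,3),(0,3),(28,3),(12,0),(0,0)]⟩ ⟨3,[(13,3),(29,0),(0,2)]⟩),(.r (-2) ⟨4,[(0,2),(0,2),(28,2),
  (12,1),(0,1)]⟩ ⟨2,[(10,2),(0,2),(4,0),(4,1),(12,0),(6,0)]⟩),.k,⟨true,1,⟨9,[(0,3),(0,3),(28,3),(12,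
  0),(0,0)]⟩,⟨0,[(10,0),(0,0),(9,0)]⟩⟩,⟨false,1,⟨0,[(1,0)]⟩,⟨0,[(48,0),(2,0)]⟩⟩,⟨true,0,⟨0,[]⟩,⟨6,
  [(0,0),(4,0),(14,0),(29,0),(9,2)]⟩⟩,⟨false,0,⟨0,[(2,0)]⟩,⟨11,[(0,7),(42,2),(0,2),(11,1),(6,3)]⟩⟩,
  ⟨false,1,⟨39,[(3,7),(6,7),(12,3),(19,8),(0,8),(11,1),(6,19)]⟩,⟨0,[(61,0)]⟩⟩,⟨true,0,⟨7,[(2,2),(3,
  6),(16,1),(26,2)]⟩,⟨0,[(0,0)]⟩⟩,[]⟩) (.K ⟨1,[1,-1,0,-1],0,0,(⟨0,[(18,0)]⟩,⟨0,[(46,0),(11,0)]⟩),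
  (.x (-1) ⟨15,[(24,3),(8,3),(9,6),(0,6),(11,1)]⟩ ⟨0,[(58,0)]⟩),(.r (-1) ⟨4,[(11,0),(5,1),(2,2),(9,
  4),(12,0),(5,1)]⟩ ⟨0,[(13,0),(30,0)]⟩),.k,.k,.k,[⟨33,[(5,3),(3,5),(1,5),(4,5),(26,4),(1,23),(4,3),
  (1,5),(10,0)]⟩,⟨9,[(8,0),(2,3),(3,3),(0,0),(4,1),(24,9),(9,2)]⟩,⟨2,[(0,0),(4,2),(22,0),(21,0)]⟩,
  ⟨0,[(19,0),(41,0)]⟩]⟩)) (.Q [0,1,0,-3,0,0,0,0,0,-1] (.pp true [-1,1]) (.R ⟨1,false,false,false,[1,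
  -1],[0,1],[1],(⟨0,[(57,0)]⟩,⟨0,[(58,0)]⟩),(⟨0,[(58,0)]⟩,⟨0,[(57,0)]⟩),⟨2,[(24,0),(8,0),(23,1)]⟩,
  .k,.k,(.r (-1) ⟨10,[(0,1),(4,1),(14,1),(9,7),(19,1),(11,2)]⟩ ⟨3,[(13,3),(29,0),(0,2)]⟩),(.r (-1)
  ⟨10,[(0,1),(4,1),(14,1),(9,7),(19,1),(11,2)]⟩ ⟨3,[(13,3),(29,0),(0,2)]⟩),(.r (-2) ⟨43,[(0,11),(4,
  11),(14,11),(9,47),(12,10),(0,10),(5,11),(11,17)]⟩ ⟨5,[(1,2),(0,0),(0,1),(6,0),(2,2),(2,1),(24,1),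
  (4,0)]⟩),.k,⟨false,1,⟨10,[(0,0),(4,0),(14,0),(9,3),(19,0),(11,6)]⟩,⟨7,[(13,3),(29,0),(0,2)]⟩⟩,
  ⟨true,1,⟨2,[(2,0),(17,1),(9,0),(13,0),(0,1),(16,0)]⟩,⟨0,[(1,0)]⟩⟩,⟨false,0,⟨19,[(11,0),(1,3),(2,
  3),(9,3),(19,0),(12,0),(3,4)]⟩,⟨43,[(0,3),(4,3),(14,3),(9,15),(12,10),(0,10),(5,3),(11,5)]⟩⟩,
  ⟨false,0,⟨0,[(2,0)]⟩,⟨11,[(0,7),(42,2),(0,2),(11,1),(6,3)]⟩⟩,⟨false,0,⟨30,[(3,2),(6,2),(2,6),(2,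
  6),(6,2),(2,9),(8,2),(27,6)]⟩,⟨3,[(0,0),(8,0),(20,1),(12,0),(0,0),(5,0)]⟩⟩,⟨true,0,⟨7,[(2,2),(3,
  6),(16,1),(26,2)]⟩,⟨0,[(0,0)]⟩⟩,[.a ⟨true,0,⟨7,[(2,4),(2,0),(3,1),(10,0),(29,2)]⟩,⟨0,[(61,0)]⟩⟩
  ⟨true,0,⟨0,[]⟩,⟨7,[(11,1),(9,1),(21,0),(2,1),(16,0)]⟩⟩ ⟨false,1,⟨3,[(2,1),(17,1),(23,0),(0,1),(16,
  2)]⟩,⟨5,[(0,1),(0,1),(54,0),(6,0)]⟩⟩,.e ⟨false,1,⟨1,[(62,0),(0,0)]⟩,⟨6,[(0,0),(4,0),(14,0),(29,0),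
  (9,2)]⟩⟩ ⟨false,1,⟨11,[(2,9),(17,1),(9,3),(13,0),(0,1),(16,6)]⟩,⟨26,[(0,11),(0,6),(19,5),(21,2),
  (12,3),(3,8)]⟩⟩,.o ⟨false,0,⟨2,[(1,0),(54,0)]⟩,⟨3,[(43,0),(0,0),(17,1)]⟩⟩,.o ⟨false,0,⟨11,[(1,7),
  (41,2),(0,2),(11,1)]⟩,⟨0,[(62,0)]⟩⟩]⟩) (.K ⟨1,[1,-1,0,-1],0,0,(⟨0,[(18,0)]⟩,⟨0,[(46,0),(11,0)]⟩),
  (.r 0 ⟨0,[(15,0),(29,0),(15,0)]⟩ ⟨7,[(13,3),(29,2),(0,8)]⟩),(.r (-1) ⟨4,[(11,0),(5,1),(2,2),(9,4),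
  (12,0),(5,1)]⟩ ⟨0,[(13,0),(30,0)]⟩),.k,.k,.k,[⟨33,[(5,3),(3,5),(1,5),(4,5),(26,4),(1,23),(4,3),(1,
  5),(10,0)]⟩,⟨2,[(1,0),(44,2),(9,0)]⟩,⟨2,[(0,0),(4,2),(22,0),(21,0)]⟩,⟨0,[(19,0),(41,0)]⟩]⟩))) (.Q
  [0,-1,0,1,0,0,0,0,0,1] (.pp false [-1,1]) (.R ⟨2,false,false,true,[0,1],[1,-1],[0,1],(⟨0,[]⟩,⟨0,
  []⟩),(⟨0,[(56,0)]⟩,⟨0,[(57,0)]⟩),⟨0,[]⟩,.k,.k,.k,(.r 0 ⟨3,[(12,3),(29,0),(0,2)]⟩ ⟨4,[(1,0),(2,0),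
  (14,0),(9,3),(19,0),(11,0)]⟩),.k,.k,⟨true,0,⟨7,[(12,3),(29,0),(0,2)]⟩,⟨0,[(60,0)]⟩⟩,⟨false,0,⟨13,
  [(1,2),(8,3),(3,2),(0,1),(4,0),(4,1),(19,0),(9,3)]⟩,⟨9,[(0,3),(18,5),(9,1),(13,2),(0,5),(16,4)]⟩⟩,
  ⟨false,1,⟨19,[(1,1),(2,1),(14,1),(9,7),(12,4),(0,4),(5,1),(11,1)]⟩,⟨19,[(10,0),(1,3),(2,3),(9,3),
  (19,0),(12,0),(3,4)]⟩⟩,⟨true,0,⟨0,[(1,0)]⟩,⟨8,[(0,3),(4,5),(16,0),(26,3)]⟩⟩,⟨false,1,⟨3,[(42,0),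
  (0,0),(17,1)]⟩,⟨3,[(10,0),(34,0),(12,0),(3,0)]⟩⟩,⟨false,1,⟨3,[(1,1),(40,0),(0,0),(11,0),(6,0)]⟩,
  ⟨0,[(0,0)]⟩⟩,[.e ⟨true,0,⟨0,[(64,0)]⟩,⟨3,[(10,0),(34,0),(12,0),(3,0)]⟩⟩ ⟨true,0,⟨51,[(1,33),(8,5),
  (1,7),(7,17),(21,4),(2,5),(9,8)]⟩,⟨0,[(0,0)]⟩⟩,.a ⟨true,0,⟨0,[(60,0)]⟩,⟨7,[(0,5),(1,0),(1,0),(14,
  1),(29,1)]⟩⟩ ⟨false,1,⟨3,[(42,0),(0,0),(17,1)]⟩,⟨0,[]⟩⟩ ⟨true,0,⟨3,[(1,1),(8,0),(34,0),(9,0),(2,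
  0)]⟩,⟨7,[(0,5),(1,0),(1,0),(14,1),(29,1)]⟩⟩,.o ⟨false,1,⟨3,[(42,0),(0,0),(17,1)]⟩,⟨13,[(1,2),(8,
  3),(3,2),(0,1),(4,0),(4,1),(19,0),(9,3)]⟩⟩,.e ⟨false,1,⟨3,[(42,0),(0,0),(17,1)]⟩,⟨3,[(10,0),(34,
  0),(12,0),(3,0)]⟩⟩ ⟨false,1,⟨3,[(1,1),(40,0),(0,0),(11,0),(6,0)]⟩,⟨0,[(0,0)]⟩⟩]⟩) (.K ⟨1,[1,-1,0,
  -1],0,0,(⟨0,[(17,0)]⟩,⟨0,[(45,0),(11,0)]⟩),(.x (-1) ⟨15,[(23,3),(8,3),(9,6),(0,6),(11,1)]⟩ ⟨0,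
  [(57,0)]⟩),(.r (-1) ⟨11,[(1,3),(12,1),(4,3),(9,7),(12,2),(1,5),(16,0)]⟩ ⟨0,[(12,0),(30,0)]⟩),.k,
  .k,.k,[⟨33,[(4,3),(3,5),(1,5),(4,5),(26,4),(1,23),(4,3),(1,5),(10,0)]⟩,⟨6,[(0,0),(0,0),(8,1),(3,
  0),(0,0),(9,0),(19,7),(9,1)]⟩,⟨5,[(2,0),(1,2),(10,1),(24,1),(3,1),(4,1)]⟩,⟨0,[(18,0),(41,
  0)]⟩]⟩)))) (.R ⟨1,false,false,true,[1,0,-1],[0,0,0,1],[],(⟨0,[(50,0)]⟩,⟨0,[(51,0)]⟩),(⟨0,[(42,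
  0)]⟩,⟨0,[(41,0)]⟩),⟨0,[(36,0)]⟩,.k,.k,.k,.k,(.r 0 ⟨3,[(0,0),(10,1),(1,2),(2,0),(21,1),(2,0),(15,
  2)]⟩ ⟨2,[(8,0),(8,1),(4,1),(16,0),(0,0)]⟩),.k,⟨true,0,⟨1,[(11,0),(6,0),(22,0),(13,0)]⟩,⟨0,[(17,
  0)]⟩⟩,⟨false,0,⟨0,[(31,0),(9,0),(15,0)]⟩,⟨7,[(21,3),(17,0),(0,0),(1,7),(9,1)]⟩⟩,⟨false,1,⟨7,[(4,
  3),(23,3),(10,2),(0,0)]⟩,⟨0,[(49,0)]⟩⟩,⟨true,0,⟨0,[(1,0)]⟩,⟨5,[(0,1),(10,1),(4,1),(2,0),(4,0)]⟩⟩,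
  ⟨false,1,⟨47,[(2,7),(1,15),(16,3),(0,23),(16,14),(0,6),(11,1),(6,3)]⟩,⟨1,[(25,0),(12,0),(18,0)]⟩⟩,
  ⟨false,1,⟨23,[(1,23),(0,7),(16,3),(19,4),(0,4),(11,1),(6,11)]⟩,⟨0,[(0,0)]⟩⟩,[.a ⟨true,0,⟨0,[(17,
  0),(23,0)]⟩,⟨0,[(15,0)]⟩⟩ ⟨false,1,⟨3,[(39,0),(0,0),(17,1)]⟩,⟨0,[]⟩⟩ ⟨true,0,⟨0,[(1,0),(47,0)]⟩,
  ⟨23,[(7,0),(3,11),(3,9),(18,11),(4,0),(2,2),(12,6)]⟩⟩,.o ⟨false,1,⟨19,[(1,7),(5,3),(5,7),(25,4),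
  (0,10),(11,3),(6,3)]⟩,⟨0,[(11,0)]⟩⟩,.o ⟨false,1,⟨23,[(21,3),(12,7),(4,6),(0,6),(11,5)]⟩,⟨0,[(31,
  0),(25,0)]⟩⟩,.o ⟨false,0,⟨0,[(44,0)]⟩,⟨7,[(38,3),(0,0),(0,0),(11,1),(5,3)]⟩⟩]⟩)) (.Q [0,1,1,-1,0,
  0,1,1,1,1,-1,-1] (.p false [0,0,1] [1,0,0,-1] (⟨0,[(50,0)]⟩,⟨0,[(49,0)]⟩) .k 2 (⟨0,[(40,0)]⟩,⟨0,
  [(41,0)]⟩) .k (.r (-1) ⟨5,[(7,3),(8,1),(4,1),(16,0),(0,0)]⟩ ⟨19,[(0,1),(7,2),(1,1),(1,5),(2,1),(1,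
  4),(6,5),(12,9),(0,2)]⟩)) (.R ⟨1,false,false,false,[0,0,1],[1,0,0,-1],[0,1,1],(⟨0,[(51,0)]⟩,⟨0,
  [(50,0)]⟩),(⟨0,[(41,0)]⟩,⟨0,[(42,0)]⟩),⟨0,[(27,0)]⟩,.k,.k,.k,.k,(.r (-1) ⟨0,[(8,0)]⟩ ⟨15,[(9,5),
  (2,1),(6,0),(18,0),(0,5),(6,1),(0,1),(1,9)]⟩),.k,⟨true,0,⟨0,[(17,0)]⟩,⟨0,[(9,0),(16,0)]⟩⟩,⟨false,
  1,⟨13,[(1,1),(2,1),(1,0),(4,5),(4,4),(4,5),(18,5)]⟩,⟨20,[(0,2),(6,4),(4,2),(25,8),(0,2),(1,12),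
  (10,1)]⟩⟩,⟨false,0,⟨18,[(7,2),(4,4),(4,0),(7,4),(12,4),(0,2),(2,2),(3,3),(0,3)]⟩,⟨6,[(2,0),(1,1),
  (16,0),(0,2),(3,2),(12,0),(5,0)]⟩⟩,⟨false,0,⟨0,[(1,0)]⟩,⟨35,[(0,23),(1,11),(4,3),(31,8),(0,14),(0,
  7),(10,3),(6,11)]⟩⟩,⟨false,0,⟨27,[(9,3),(2,9),(4,1),(1,4),(18,4),(0,3),(6,7),(0,7)]⟩,⟨36,[(4,9),
  (0,5),(15,3),(4,17),(1,14),(5,1),(4,4),(5,5)]⟩⟩,⟨true,0,⟨9,[(1,1),(4,0),(4,3),(4,2),(2,3)]⟩,⟨0,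
  [(0,0)]⟩⟩,[.o ⟨false,0,⟨0,[(11,0)]⟩,⟨11,[(7,3),(31,2),(0,8),(0,7),(10,3)]⟩⟩,.a ⟨true,0,⟨0,[(15,
  0)]⟩,⟨0,[(17,0),(23,0)]⟩⟩ ⟨true,0,⟨7,[(7,1),(9,1),(21,0),(2,1),(16,0)]⟩,⟨0,[]⟩⟩ ⟨false,1,⟨5,[(1,
  1),(2,1),(1,0),(4,1),(4,0),(4,1),(17,0),(19,0)]⟩,⟨1,[(0,1),(18,0),(18,0)]⟩⟩,.o ⟨false,0,⟨0,[(31,
  0),(25,0)]⟩,⟨23,[(21,3),(12,7),(4,6),(0,6),(11,5)]⟩⟩,.o ⟨false,0,⟨0,[(47,0)]⟩,⟨7,[(21,3),(17,0),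
  (0,0),(11,1)]⟩⟩]⟩) (.Q [0,1,1,-2,0,0,1,1,1,1,-1,-1] (.p false [0,0,1] [1,0,0,-1] (⟨0,[(51,0)]⟩,⟨0,
  [(50,0)]⟩) .k 2 (⟨0,[(41,0)]⟩,⟨0,[(42,0)]⟩) .k (.r (-1) ⟨5,[(8,3),(8,1),(4,1),(16,0),(0,0)]⟩ ⟨19,
  [(1,1),(7,2),(1,1),(1,5),(2,1),(1,4),(6,5),(12,9),(0,2)]⟩)) (.R ⟨1,false,false,false,[0,-1,1],[1,
  0,0,-1],[1,1],(⟨0,[(28,0)]⟩,⟨0,[(51,0),(3,0)]⟩),(⟨0,[(42,0)]⟩,⟨0,[(43,0)]⟩),⟨0,[(21,0)]⟩,.k,.k,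
  (.r (-1) ⟨3,[(0,0),(5,1),(5,0),(9,1),(4,1),(18,0)]⟩ ⟨13,[(10,4),(2,7),(4,6),(1,2),(12,2),(6,4),(7,
  2),(8,0)]⟩),(.r (-1) ⟨0,[(9,0)]⟩ ⟨15,[(10,5),(2,1),(6,0),(18,0),(0,5),(6,1),(0,1),(1,9)]⟩),(.r
  (-2) ⟨39,[(0,7),(8,31),(7,7),(4,3),(4,15),(12,8),(0,12),(11,1),(5,3)]⟩ ⟨0,[(10,0),(39,0)]⟩),.k,
  ⟨false,1,⟨1,[(41,0),(17,0),(2,1)]⟩,⟨1,[(12,0),(6,0),(22,0),(13,0)]⟩⟩,⟨true,1,⟨13,[(2,1),(2,1),(1,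
  0),(4,5),(4,4),(4,5),(18,5)]⟩,⟨4,[(6,1),(1,4),(24,1),(2,0),(2,0),(7,0)]⟩⟩,⟨false,0,⟨27,[(10,3),(2,
  9),(4,1),(1,4),(18,4),(0,3),(6,7),(0,7)]⟩,⟨13,[(0,0),(4,3),(0,1),(5,0),(9,1),(4,5),(1,5),(10,1),
  (5,0)]⟩⟩,⟨false,0,⟨0,[(1,0)]⟩,⟨23,[(0,17),(2,5),(4,1),(31,5),(0,8),(0,3),(10,1),(6,8)]⟩⟩,⟨false,0,
  ⟨6,[(10,0),(2,2),(6,1),(12,1),(6,0),(7,1),(8,2)]⟩,⟨16,[(0,2),(4,4),(0,4),(1,0),(3,3),(14,10),(1,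
  3),(5,3),(4,1)]⟩⟩,⟨true,0,⟨13,[(7,4),(4,5),(4,2),(2,7),(10,1)]⟩,⟨0,[(0,0)]⟩⟩,[.o ⟨false,0,⟨0,[(12,
  0)]⟩,⟨11,[(8,3),(31,2),(0,8),(0,7),(10,3)]⟩⟩,.a ⟨true,0,⟨0,[(16,0)]⟩,⟨0,[(18,0),(23,0)]⟩⟩ ⟨true,0,
  ⟨0,[]⟩,⟨7,[(8,1),(9,1),(21,0),(2,1),(16,0)]⟩⟩ ⟨false,1,⟨1,[(7,0),(4,0),(9,0),(4,0)]⟩,⟨19,[(0,11),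
  (7,7),(9,3),(1,5),(12,7),(5,5),(0,2),(0,4),(15,3)]⟩⟩,.o ⟨false,0,⟨0,[(48,0)]⟩,⟨7,[(22,3),(17,0),
  (0,0),(11,1)]⟩⟩,.o ⟨false,0,⟨7,[(8,1),(9,1),(21,0),(2,1),(4,7),(11,0)]⟩,⟨5,[(5,0),(6,0),(1,0),(7,
  3),(4,0),(4,2),(11,0),(1,0)]⟩⟩]⟩) (.Q [0,0,0,-1,0,0,1,1,0,0,-1,1] (.p false [0,0,1] [0,0,0,1] (⟨0,
  [(52,0)]⟩,⟨0,[(51,0)]⟩) .k 2 (⟨0,[(43,0)]⟩,⟨0,[(42,0)]⟩) .k (.r 0 ⟨4,[(6,2),(1,0),(1,0),(1,1),(6,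
  1),(2,1),(6,0),(12,0),(3,0)]⟩ ⟨3,[(40,0),(0,2),(8,3)]⟩)) (.I [0,1,-1,-2,0,0,0,1,-1] (.R ⟨1,false,
  false,false,[1,0,0,-1],[1,1,-1],[1,0,1,1,0,0,0,-1],(⟨0,[(44,0)]⟩,⟨0,[(45,0)]⟩),(⟨0,[(53,0),(3,
  0)]⟩,⟨0,[(30,0)]⟩),⟨0,[(17,0)]⟩,.k,.k,(.x (-1) ⟨15,[(23,3),(8,3),(9,6),(0,6),(11,1)]⟩ ⟨0,[(57,
  0)]⟩),(.r (-1) ⟨85,[(0,37),(4,11),(1,33),(16,5),(0,1),(3,1),(12,40),(12,2)]⟩ ⟨3,[(15,1),(4,1),(1,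
  0),(18,0)]⟩),(.r (-1) ⟨171,[(0,113),(4,35),(1,15),(16,17),(0,5),(3,91),(12,36),(12,8)]⟩ ⟨15,[(12,
  3),(2,15),(4,7),(21,2),(0,0),(15,7)]⟩),.k,⟨true,0,⟨0,[]⟩,⟨7,[(10,1),(9,1),(21,0),(2,1),(16,0)]⟩⟩,
  ⟨false,1,⟨7,[(24,3),(17,0),(0,0),(0,7),(10,1)]⟩,⟨4,[(1,0),(12,1),(0,0),(4,0),(20,1),(3,1)]⟩⟩,
  ⟨false,0,⟨0,[(15,0)]⟩,⟨85,[(0,37),(4,11),(1,33),(16,5),(0,1),(3,1),(12,40),(12,2)]⟩⟩,⟨false,1,⟨23,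
  [(10,7),(11,11),(19,2),(0,14),(0,15),(10,1),(6,11)]⟩,⟨0,[(8,0),(5,0)]⟩⟩,⟨true,0,⟨0,[(15,0),(43,
  0)]⟩,⟨0,[(0,0)]⟩⟩,⟨false,1,⟨71,[(10,7),(4,23),(6,35),(2,23),(16,14),(0,38),(0,63),(10,13),(6,
  11)]⟩,⟨1,[(0,0),(0,0),(6,0),(5,0),(23,0)]⟩⟩,[.a ⟨true,0,⟨3,[(9,0),(5,0),(11,0),(12,0),(3,0),(4,
  0)]⟩,⟨0,[(8,0)]⟩⟩ ⟨false,0,⟨1,[(22,0),(18,0)]⟩,⟨23,[(0,4),(4,0),(1,5),(3,10),(12,0),(8,0),(8,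
  5)]⟩⟩ ⟨true,0,⟨23,[(10,7),(11,11),(19,2),(0,2),(0,15),(10,1)]⟩,⟨0,[(1,0)]⟩⟩,.o ⟨false,1,⟨7,[(22,
  3),(19,0),(0,0),(11,1),(6,3)]⟩,⟨0,[(48,0),(11,0)]⟩⟩,.o ⟨false,1,⟨3,[(14,1),(4,1),(23,1),(11,0),(6,
  0)]⟩,⟨2,[(10,0),(33,1),(10,0)]⟩⟩,.e ⟨false,0,⟨3,[(2,0),(12,0),(18,0),(3,1),(5,0)]⟩,⟨11,[(1,1),(6,
  1),(1,1),(0,7),(25,1),(4,4),(0,0)]⟩⟩ ⟨false,1,⟨7,[(22,3),(19,0),(0,0),(0,7),(10,1),(6,3)]⟩,⟨0,[(1,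
  0)]⟩⟩]⟩) (.K ⟨1,[1,1,0,-1],1,0,(⟨0,[(44,0),(12,0)]⟩,⟨7,[(1,1),(0,0),(1,0),(15,1),(2,1),(8,1),(12,
  3)]⟩),(.r 0 ⟨17,[(0,0),(11,6),(7,1),(4,0),(16,6)]⟩ ⟨1,[(29,0),(13,0),(20,0)]⟩),.k,(.r 1 ⟨0,[(0,0),
  (1,1),(2,1),(4,0),(5,0),(16,1),(6,0),(19,10)]⟩ ⟨3,[(29,3),(12,0),(0,2),(20,3)]⟩),.k,.k,[⟨0,[(10,
  0),(33,0),(0,0)]⟩,⟨3,[(14,1),(4,1),(23,1),(11,0),(6,0)]⟩,⟨0,[(20,0),(23,0),(15,0)]⟩,⟨0,[(13,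
  0)]⟩]⟩)) (.K ⟨1,[1,-1,0,-1],0,0,(⟨0,[(16,0)]⟩,⟨0,[(44,0),(11,0)]⟩),(.x (-1) ⟨15,[(22,3),(8,3),(9,
  6),(0,6),(11,1)]⟩ ⟨0,[(56,0)]⟩),(.r (-1) ⟨4,[(9,0),(5,1),(2,2),(9,4),(12,0),(5,1)]⟩ ⟨0,[(11,0),
  (30,0)]⟩),.k,.k,.k,[⟨5,[(7,0),(1,0),(4,0),(4,0),(21,0),(1,4),(6,0)]⟩,⟨9,[(6,0),(2,3),(3,3),(0,0),
  (4,1),(24,9),(9,2)]⟩,⟨2,[(0,0),(3,0),(14,2),(23,1)]⟩,⟨0,[(3,0),(3,0)]⟩]⟩)))))))) (.K ⟨1,[1,-1,0,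
  -1],0,0,(⟨0,[(9,0)]⟩,⟨0,[(37,0),(11,0)]⟩),(.x (-1) ⟨15,[(15,3),(8,3),(9,6),(0,6),(11,1)]⟩ ⟨0,[(49,
  0)]⟩),(.r (-1) ⟨4,[(2,0),(5,1),(2,2),(9,4),(12,0),(5,1)]⟩ ⟨0,[(4,0),(30,0)]⟩),.k,.k,.k,[⟨9,[(2,1),
  (30,1),(0,0),(0,0),(0,7),(6,3)]⟩,⟨3,[(2,1),(3,1),(28,0),(1,3),(9,0)]⟩,⟨2,[(7,0),(4,1),(12,0),(6,
  0),(3,2)]⟩,⟨0,[(10,0),(41,0)]⟩]⟩)))) (.R ⟨1,false,false,false,[1,0,0,-1],[0,-1,1],[1,0,0,0,0,0,0,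
  0,-1],(⟨0,[(33,0)]⟩,⟨0,[(34,0)]⟩),(⟨0,[(19,0)]⟩,⟨0,[(42,0),(3,0)]⟩),⟨0,[(6,0)]⟩,.k,.k,(.x (-1)
  ⟨15,[(12,3),(8,3),(9,6),(0,6),(11,1)]⟩ ⟨0,[(46,0)]⟩),(.x (-1) ⟨3,[(3,0),(0,0),(0,0),(7,2),(4,0),
  (4,0),(13,1),(4,3),(3,3)]⟩ ⟨1,[(12,0),(26,2),(0,0),(2,0)]⟩),.k,.k,⟨true,(-1),⟨0,[(0,0)]⟩,⟨2,[(9,
  0),(8,1),(1,0),(11,0),(4,1),(2,1)]⟩⟩,⟨false,0,⟨0,[(33,0),(5,0)]⟩,⟨13,[(2,1),(0,6),(4,2),(4,6),(4,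
  0),(13,5),(1,1)]⟩⟩,⟨true,0,⟨0,[]⟩,⟨0,[(53,0)]⟩⟩,⟨false,1,⟨0,[(9,0),(8,0),(1,0),(12,0),(5,0)]⟩,⟨7,
  [(2,1),(0,3),(4,1),(2,2),(4,0)]⟩⟩,⟨false,1,⟨7,[(11,0),(2,1),(8,0),(0,0),(6,1),(0,1),(17,0),(0,
  2)]⟩,⟨0,[(49,0)]⟩⟩,⟨false,1,⟨3,[(9,1),(22,0),(0,3),(3,3),(9,1),(3,2)]⟩,⟨3,[(3,1),(3,0),(0,0),(7,
  1)]⟩⟩,[.o ⟨false,1,⟨6,[(9,3),(8,4),(1,2),(10,1),(5,3),(1,2)]⟩,⟨0,[(0,0),(3,0),(8,0),(23,0),(11,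
  0)]⟩⟩,.o ⟨false,1,⟨6,[(9,1),(8,5),(1,4),(10,0),(5,1),(1,4)]⟩,⟨2,[(11,0),(10,0),(12,1)]⟩⟩,.o
  ⟨false,1,⟨3,[(3,1),(4,1),(23,1),(11,0),(6,0)]⟩,⟨2,[(5,1),(27,0),(2,0),(0,1),(1,0),(7,0)]⟩⟩,.a
  ⟨true,0,⟨0,[(34,0)]⟩,⟨0,[(33,0)]⟩⟩ ⟨true,0,⟨0,[(3,0),(29,0)]⟩,⟨0,[(9,0)]⟩⟩ ⟨false,1,⟨6,[(9,1),(8,
  5),(1,4),(10,0),(1,6),(3,1),(1,4)]⟩,⟨1,[(0,0),(2,0),(0,0),(4,0),(3,0),(20,0)]⟩⟩]⟩))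

theorem ok99 : chk (cU (-1) true 10) t99 r66 = true := by decide +kernel

noncomputable def t126 : Tre :=
  (.K ⟨0,[1,1,-1],1,0,(⟨0,[(34,0),(3,0)]⟩,⟨0,[(11,0)]⟩),.k,.k,(.r 0 ⟨23,[(5,23),(0,7),(1,3),(7,3),
  (4,3),(1,8),(0,8),(18,5)]⟩ ⟨0,[(0,0)]⟩),.k,.k,[⟨0,[(7,0),(33,0)]⟩,⟨0,[(4,0)]⟩,⟨0,[(0,0),(6,0),(37,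
  0)]⟩,⟨0,[(6,0)]⟩]⟩)

theorem ok126 : chk (cU (-1) true 10) t126 l75 = true := by decide +kernel

noncomputable def t150 : Tre :=
  (.K ⟨1,[1,-1,-1],0,0,(⟨0,[(4,0)]⟩,⟨0,[(19,0),(2,0)]⟩),.k,(.r (-1) ⟨0,[(17,0),(7,1),(0,0)]⟩ ⟨1,[(5,
  0),(7,1),(2,0),(6,2),(0,2)]⟩),.k,.k,.k,[⟨1,[(6,0),(2,0),(0,0)]⟩,⟨0,[(2,0),(12,0)]⟩,⟨1,[(1,0),(2,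
  0),(0,1),(7,1),(4,0),(4,0)]⟩,⟨0,[(0,0)]⟩]⟩)

theorem ok150 : chk (cU (-1) true 10) t150 l77 = true := by decide +kernel

noncomputable def t155 : Tre :=
  (.Q [0,-1,0,1,0,0,0,0,0,1] (.pp false [-1,1]) (.R ⟨1,false,false,false,[1,-1,-1],[0,0,1],[1],(⟨0,
  [(12,0)]⟩,⟨0,[(27,0),(2,0)]⟩),(⟨0,[(27,0)]⟩,⟨0,[(26,0)]⟩),⟨0,[(7,0)]⟩,.k,.k,(.r (-1) ⟨7,[(1,3),(1,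
  3),(1,3),(9,0),(0,0),(18,1)]⟩ ⟨1,[(6,1),(16,0),(0,0),(7,1)]⟩),(.r 0 ⟨0,[(1,0)]⟩ ⟨5,[(5,1),(0,4),
  (1,2),(6,1),(0,1),(4,1),(2,4)]⟩),(.r (-1) ⟨11,[(1,11),(1,3),(1,3),(9,2),(0,2),(18,1)]⟩ ⟨0,[(6,0),
  (1,0),(15,0)]⟩),.k,⟨true,0,⟨0,[(25,0)]⟩,⟨1,[(6,0),(14,0),(2,0),(8,0)]⟩⟩,⟨false,1,⟨0,[(14,0),(19,
  0)]⟩,⟨0,[(10,0)]⟩⟩,⟨false,0,⟨0,[(6,0)]⟩,⟨23,[(1,11),(1,3),(1,3),(9,8),(0,8),(18,1)]⟩⟩,⟨false,1,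
  ⟨13,[(0,1),(4,7),(0,15),(1,3),(5,11),(0,2),(0,2)]⟩,⟨0,[(1,0),(8,0)]⟩⟩,⟨true,0,⟨0,[(6,0),(25,0)]⟩,
  ⟨0,[(3,0)]⟩⟩,⟨false,1,⟨27,[(0,15),(4,7),(0,15),(1,31),(5,11),(0,2),(0,2),(18,13)]⟩,⟨2,[(1,1),(1,
  1),(6,2),(20,0)]⟩⟩,[.a ⟨true,0,⟨0,[(0,0),(20,0),(11,0)]⟩,⟨2,[(0,0),(0,0),(8,0),(11,0)]⟩⟩ ⟨true,0,
  ⟨0,[]⟩,⟨1,[(23,0),(0,0)]⟩⟩ ⟨false,1,⟨3,[(0,0),(4,2),(2,1),(2,0),(2,2),(19,0)]⟩,⟨0,[(10,0),(14,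
  0)]⟩⟩,.o ⟨false,1,⟨0,[(21,0),(13,0)]⟩,⟨0,[(19,0)]⟩⟩,.o ⟨false,0,⟨0,[(20,0)]⟩,⟨7,[(14,3),(0,0),(0,
  0),(11,1),(5,3)]⟩⟩,.o ⟨false,0,⟨0,[(10,0),(12,0)]⟩,⟨9,[(1,1),(3,3),(2,5),(2,5),(2,1),(13,0),(5,
  4)]⟩⟩]⟩) (.Q [0,0,0,-1,0,0,2,2,0,1,-2] (.p false [0,0,1] [1,0,-1] (⟨0,[(27,0)]⟩,⟨0,[(26,0)]⟩) .k
  2 (⟨0,[(26,0)]⟩,⟨0,[(27,0)]⟩) .k (.r (-1) ⟨5,[(5,3),(0,3),(8,0),(0,0),(4,3),(2,3)]⟩ ⟨0,[(25,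
  1)]⟩)) (.R ⟨1,false,false,false,[1,-1,-1],[0,0,1],[1],(⟨0,[(13,0)]⟩,⟨0,[(28,0),(2,0)]⟩),(⟨0,[(28,
  0)]⟩,⟨0,[(27,0)]⟩),⟨0,[(8,0)]⟩,.k,.k,(.r (-1) ⟨7,[(2,3),(1,3),(1,3),(9,0),(0,0),(18,1)]⟩ ⟨1,[(7,
  1),(16,0),(0,0),(7,1)]⟩),(.r 0 ⟨0,[(2,0)]⟩ ⟨53,[(0,21),(5,3),(0,39),(1,19),(1,21),(2,19),(1,24),
  (0,24)]⟩),(.r (-1) ⟨11,[(2,11),(1,3),(1,3),(9,2),(0,2),(18,1)]⟩ ⟨0,[(7,0),(1,0),(15,0)]⟩),.k,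
  ⟨true,0,⟨0,[(26,0)]⟩,⟨5,[(0,1),(6,0),(1,0),(1,1),(12,0),(0,1)]⟩⟩,⟨false,1,⟨0,[(15,0),(19,0)]⟩,⟨0,
  [(11,0)]⟩⟩,⟨false,0,⟨0,[(7,0)]⟩,⟨23,[(2,11),(1,3),(1,3),(9,8),(0,8),(18,1)]⟩⟩,⟨false,1,⟨11,[(0,
  11),(4,7),(3,7),(6,0),(0,0),(18,9)]⟩,⟨0,[(2,0),(8,0)]⟩⟩,⟨true,0,⟨0,[(7,0),(25,0)]⟩,⟨0,[(4,0)]⟩⟩,
  ⟨false,1,⟨0,[(0,0),(4,0),(3,0),(26,0)]⟩,⟨2,[(2,1),(1,1),(6,2),(20,0)]⟩⟩,[.a ⟨true,0,⟨4,[(0,1),(6,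
  0),(2,0),(3,0),(12,1),(2,0)]⟩,⟨4,[(2,1),(2,0),(5,1),(6,1),(0,1)]⟩⟩ ⟨true,0,⟨0,[]⟩,⟨1,[(24,0),(0,
  0)]⟩⟩ ⟨false,1,⟨7,[(0,2),(6,0),(1,1),(0,0),(1,0),(0,0),(1,2),(11,0),(7,7)]⟩,⟨0,[(11,0),(14,0)]⟩⟩,
  .o ⟨false,1,⟨11,[(0,3),(8,3),(6,0),(0,0),(11,1),(6,7)]⟩,⟨0,[(20,0)]⟩⟩,.o ⟨false,0,⟨0,[(21,0)]⟩,⟨7,
  [(15,3),(0,0),(0,0),(11,1),(5,3)]⟩⟩,.o ⟨false,0,⟨0,[(11,0),(12,0)]⟩,⟨7,[(0,1),(1,1),(6,3),(2,3),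
  (16,0),(5,6)]⟩⟩]⟩) (.Q [0,0,0,-1,0,0,1,1,0,1,-1] (.p false [0,0,1] [1] (⟨0,[(28,0)]⟩,⟨0,[(27,
  0)]⟩) .k 1 (⟨0,[]⟩,⟨0,[]⟩) .k .k) (.R ⟨1,false,false,false,[1,-1,-1],[0,-1,1],[1],(⟨0,[(14,0)]⟩,
  ⟨0,[(29,0),(2,0)]⟩),(⟨0,[(9,0),(1,0),(0,0)]⟩,⟨0,[(28,0),(3,0)]⟩),⟨0,[(9,0)]⟩,.k,.k,(.r (-1) ⟨7,
  [(3,3),(1,3),(1,3),(9,0),(0,0),(18,1)]⟩ ⟨1,[(8,1),(16,0),(0,0),(7,1)]⟩),.k,(.r 0 ⟨0,[(3,0)]⟩ ⟨47,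
  [(0,21),(6,5),(0,37),(1,29),(1,21),(2,7),(1,20),(0,20)]⟩),.k,⟨false,0,⟨4,[(1,1),(4,0),(3,0),(2,0),
  (2,1)]⟩,⟨19,[(0,7),(6,11),(4,3),(4,2),(0,2),(11,1)]⟩⟩,⟨true,0,⟨0,[(16,0)]⟩,⟨0,[(12,0)]⟩⟩,⟨false,0,
  ⟨0,[(8,0)]⟩,⟨23,[(3,11),(1,3),(1,3),(9,8),(0,8),(18,1)]⟩⟩,⟨false,1,⟨0,[(0,0),(9,0),(26,0)]⟩,⟨1,
  [(1,0),(1,0),(8,0)]⟩⟩,⟨true,0,⟨0,[(8,0),(25,0)]⟩,⟨0,[(5,0)]⟩⟩,⟨false,1,⟨4,[(0,3),(5,0),(1,1),(1,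
  4),(5,0),(19,0),(0,3)]⟩,⟨0,[(3,0),(8,0)]⟩⟩,[.a ⟨true,0,⟨0,[(0,0)]⟩,⟨2,[(1,0),(4,0),(12,0),(0,
  0)]⟩⟩ ⟨true,0,⟨0,[]⟩,⟨1,[(25,0),(0,0)]⟩⟩ ⟨false,1,⟨0,[(7,0),(8,0)]⟩,⟨2,[(1,0),(4,0),(5,1),(12,
  0)]⟩⟩,.o ⟨false,1,⟨1,[(0,1),(29,0),(6,0)]⟩,⟨1,[(1,0),(8,0),(10,0)]⟩⟩,.o ⟨false,0,⟨0,[(22,0)]⟩,⟨7,
  [(16,3),(0,0),(0,0),(11,1),(5,3)]⟩⟩,.o ⟨false,0,⟨0,[(12,0),(12,0)]⟩,⟨9,[(3,1),(3,3),(2,5),(2,5),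
  (2,1),(13,0),(5,4)]⟩⟩]⟩) (.I [1,1,-2,-1,1,0,0,0,1] (.I [0,0,2,2,0,0,0,1,1] (.Q [0,-1,1,0,0,0,0,0,
  1,0,0,-1] (.p false [0,0,0,1] [] (⟨0,[(22,0)]⟩,⟨0,[(21,0)]⟩) .k 0 (⟨0,[]⟩,⟨0,[]⟩) .k .k) (.Q [0,0,
  0,1,0,0,0,0,0,1,0,-1] (.p false [0,0,0,1] [1] (⟨0,[(23,0)]⟩,⟨0,[(22,0)]⟩) .k 1 (⟨0,[]⟩,⟨0,[]⟩) .k
  .k) (.Q [0,-1,-1,-2,1,0,0,0,-1,-1,0,1] (.p true [0,0,0,1] [1] (⟨0,[(24,0)]⟩,⟨0,[(23,0)]⟩) .k 1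
  (⟨0,[]⟩,⟨0,[]⟩) .k .k) (.I [0,0,0,0,0,0,0,-1,1] (.Q [0,-1,-1,-1,1,0,0,0,-1,-1,0,1] (.p true [0,0,
  0,1] [1] (⟨0,[(26,0)]⟩,⟨0,[(25,0)]⟩) .k 1 (⟨0,[]⟩,⟨0,[]⟩) .k .k) (.Q [0,0,0,0,0,-1,0,0,0,0,0,1]
  (.ed false [1,-1,0,1] .k) (.I [0,0,1,1,0,0,0,-1,-1] (.Q [0,0,0,1,0,0,0,0,0,0,0,1] (.p true [0,0,0,
  1] [] (⟨0,[(29,0)]⟩,⟨0,[(28,0)]⟩) .k 0 (⟨0,[]⟩,⟨0,[]⟩) .k .k) (.I [0,-1,1,0,0,0,0,0,-1] (.Q [0,0,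
  0,0,0,-1,0,0,0,1,0,-1] (.ed true [0,1,0,1] .k) (.R ⟨1,false,false,false,[1,0,0,-1],[1,0,-1],[1,0,
  0,0,0,0,0,0,-1],(⟨0,[(31,0)]⟩,⟨0,[(32,0)]⟩),(⟨0,[(40,0)]⟩,⟨0,[(41,0)]⟩),⟨0,[(0,0)]⟩,.k,.k,(.x
  (-1) ⟨7,[(21,3),(7,2),(0,2),(10,3),(0,1)]⟩ ⟨0,[(44,0)]⟩),.k,(.r (-1) ⟨3,[(1,1),(17,2),(7,0),(1,0),
  (5,0),(11,1)]⟩ ⟨2,[(3,0),(2,2),(3,0)]⟩),.k,⟨false,1,⟨8,[(1,4),(16,0),(0,6),(2,2),(4,1),(1,1)]⟩,⟨0,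
  [(6,0)]⟩⟩,⟨true,0,⟨0,[(31,0),(2,0)]⟩,⟨1,[(15,0),(6,0),(9,1),(2,0),(9,0)]⟩⟩,⟨true,0,⟨0,[]⟩,⟨0,[(51,
  0)]⟩⟩,⟨false,0,⟨7,[(6,3),(2,3),(3,0),(1,0),(8,2),(6,3),(13,1)]⟩,⟨3,[(1,0),(0,1),(4,0),(11,1),(2,
  1),(5,0),(0,0),(2,0)]⟩⟩,⟨false,1,⟨5,[(18,1),(3,1),(6,0),(0,0),(18,3)]⟩,⟨0,[(47,0)]⟩⟩,⟨false,0,⟨6,
  [(6,1),(2,4),(3,0),(4,2),(5,0),(6,1),(13,0)]⟩,⟨3,[(1,0),(5,0),(11,1),(8,0),(0,0),(2,2),(2,1)]⟩⟩,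
  [.o ⟨false,0,⟨0,[(12,0),(34,0)]⟩,⟨3,[(29,0),(0,0),(4,3),(13,1)]⟩⟩,.o ⟨false,1,⟨7,[(13,1),(1,1),(8,
  1),(4,0),(0,0),(11,1),(6,3)]⟩,⟨0,[(35,0)]⟩⟩,.o ⟨false,1,⟨2,[(2,1),(2,0),(5,0),(30,0)]⟩,⟨4,[(1,0),
  (1,0),(5,1),(4,1),(7,0),(8,2),(2,0)]⟩⟩,.a ⟨true,0,⟨0,[(32,0)]⟩,⟨0,[(31,0)]⟩⟩ ⟨false,1,⟨0,[(1,0),
  (46,0)]⟩,⟨1,[(6,0),(3,0),(36,1)]⟩⟩ ⟨true,0,⟨0,[(12,0),(18,0),(15,0)]⟩,⟨0,[(32,0),(2,0)]⟩⟩]⟩) (.R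
  ⟨0,false,false,false,[1,0,0,-1],[1,0,-1],[1,0,0,0,0,0,0,0,-1],(⟨0,[(31,0)]⟩,⟨0,[(32,0)]⟩),(⟨0,
  [(40,0)]⟩,⟨0,[(41,0)]⟩),⟨0,[(0,0)]⟩,.k,.k,(.x (-1) ⟨7,[(21,3),(7,2),(0,2),(10,3),(0,1)]⟩ ⟨0,[(44,
  0)]⟩),.k,.k,.k,⟨false,1,⟨8,[(1,4),(16,0),(0,6),(2,2),(4,1),(1,1)]⟩,⟨0,[(6,0)]⟩⟩,⟨true,0,⟨0,[(31,
  0),(2,0)]⟩,⟨1,[(0,0),(3,0),(23,0)]⟩⟩,⟨true,0,⟨0,[]⟩,⟨0,[(51,0)]⟩⟩,⟨false,0,⟨7,[(6,3),(2,3),(3,0),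
  (1,0),(8,2),(6,3),(13,1)]⟩,⟨3,[(1,0),(0,1),(4,0),(11,1),(2,1),(5,0),(0,0),(2,0)]⟩⟩,⟨false,0,⟨0,
  []⟩,⟨0,[]⟩⟩,⟨false,0,⟨0,[]⟩,⟨0,[]⟩⟩,[.o ⟨false,0,⟨0,[(12,0),(34,0)]⟩,⟨3,[(29,0),(0,0),(4,3),(13,
  1)]⟩⟩,.o ⟨false,1,⟨7,[(13,1),(1,1),(8,1),(4,0),(0,0),(11,1),(6,3)]⟩,⟨0,[(35,0)]⟩⟩,.o ⟨false,1,⟨2,
  [(2,1),(2,0),(5,0),(30,0)]⟩,⟨4,[(1,0),(1,0),(5,1),(4,1),(7,0),(8,2),(2,0)]⟩⟩,.a ⟨true,0,⟨0,[(32,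
  0)]⟩,⟨0,[(31,0)]⟩⟩ ⟨false,1,⟨0,[(1,0),(46,0)]⟩,⟨1,[(6,0),(3,0),(36,1)]⟩⟩ ⟨true,0,⟨0,[(12,0),(18,
  0),(15,0)]⟩,⟨0,[(32,0),(2,0)]⟩⟩]⟩)) (.Q [0,0,0,0,0,-1,0,0,0,1,0,-1] (.ed true [0,1,0,1] .k) (.R
  ⟨1,false,false,true,[1,0,0,-1],[0,-1,1],[1,1,0,0,0,0,0,0,-1],(⟨0,[(31,0)]⟩,⟨0,[(32,0)]⟩),(⟨0,[(21,
  0),(1,0),(0,0)]⟩,⟨0,[(40,0),(3,0)]⟩),⟨0,[(0,0)]⟩,.k,.k,(.x (-1) ⟨7,[(21,3),(7,2),(0,2),(10,3),(0,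
  1)]⟩ ⟨0,[(44,0)]⟩),(.r 0 ⟨0,[(3,0)]⟩ ⟨5,[(1,0),(8,0),(8,3),(0,0),(9,1),(16,4)]⟩),.k,.k,⟨true,0,⟨0,
  [(3,0)]⟩,⟨0,[(1,0),(18,0),(26,1)]⟩⟩,⟨false,0,⟨0,[(31,0),(5,0)]⟩,⟨0,[(12,0),(6,0),(12,0)]⟩⟩,⟨false,
  0,⟨0,[]⟩,⟨3,[(29,0),(0,0),(18,1)]⟩⟩,⟨false,0,⟨9,[(1,0),(7,5),(0,2),(9,0),(2,1),(7,3),(3,5),(4,3),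
  (2,1),(3,16)]⟩,⟨0,[(5,0),(12,0)]⟩⟩,⟨true,0,⟨0,[(46,0)]⟩,⟨0,[(47,0)]⟩⟩,⟨false,0,⟨9,[(1,0),(7,5),(0,
  2),(9,0),(2,1),(7,3),(3,5),(4,3),(2,1),(3,6)]⟩,⟨0,[(7,0),(10,0)]⟩⟩,[.o ⟨false,0,⟨0,[(35,0),(11,
  0)]⟩,⟨11,[(13,3),(4,3),(10,0),(0,0),(11,3),(6,5)]⟩⟩,.o ⟨false,1,⟨3,[(7,2),(2,0),(19,0),(0,2),(3,
  2),(1,0)]⟩,⟨0,[(12,0)]⟩⟩,.o ⟨false,1,⟨2,[(2,1),(2,0),(5,0),(30,0)]⟩,⟨2,[(3,0),(5,0),(4,1),(5,0),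
  (10,1)]⟩⟩,.a ⟨true,0,⟨0,[(32,0)]⟩,⟨0,[(31,0)]⟩⟩ ⟨false,1,⟨1,[(29,0),(18,0)]⟩,⟨0,[(9,0),(22,0)]⟩⟩
  ⟨true,0,⟨0,[(31,0),(3,0),(11,0)]⟩,⟨0,[(12,0),(19,0)]⟩⟩]⟩) (.R ⟨0,false,false,false,[1,0,0,-1],[1,
  0,-1],[0,1,0,0,0,0,0,0,-1],(⟨0,[(31,0)]⟩,⟨0,[(32,0)]⟩),(⟨0,[(40,0)]⟩,⟨0,[(41,0)]⟩),⟨0,[(0,0)]⟩,.k,
  .k,(.x (-1) ⟨7,[(21,3),(7,2),(0,2),(10,3),(0,1)]⟩ ⟨0,[(44,0)]⟩),.k,.k,.k,⟨false,1,⟨1,[(19,0),(7,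
  0),(1,0),(5,0)]⟩,⟨1,[(1,0),(4,0),(18,0),(19,0)]⟩⟩,⟨true,0,⟨0,[(31,0),(2,0)]⟩,⟨1,[(0,0),(3,0),(23,
  0)]⟩⟩,⟨true,0,⟨0,[(51,0)]⟩,⟨0,[]⟩⟩,⟨false,0,⟨7,[(6,3),(2,3),(3,0),(1,0),(8,2),(6,3),(13,1)]⟩,⟨12,
  [(2,4),(4,4),(11,3),(0,1),(1,6),(0,1),(2,1),(1,0),(0,3),(2,2),(7,1)]⟩⟩,⟨false,0,⟨0,[]⟩,⟨0,[]⟩⟩,
  ⟨false,0,⟨0,[]⟩,⟨0,[]⟩⟩,[.o ⟨false,0,⟨0,[(12,0),(34,0)]⟩,⟨3,[(29,0),(0,0),(4,3),(13,1)]⟩⟩,.o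
  ⟨false,1,⟨7,[(13,1),(1,1),(8,1),(4,0),(0,0),(11,1),(6,3)]⟩,⟨0,[(35,0)]⟩⟩,.o ⟨false,1,⟨2,[(2,1),(2,
  0),(5,0),(30,0)]⟩,⟨2,[(3,0),(5,0),(4,1),(5,0),(10,1)]⟩⟩,.a ⟨true,0,⟨0,[(32,0)]⟩,⟨0,[(31,0)]⟩⟩
  ⟨false,1,⟨1,[(29,0),(18,0)]⟩,⟨0,[(9,0),(22,0)]⟩⟩ ⟨true,0,⟨0,[(12,0),(18,0),(15,0)]⟩,⟨0,[(32,0),(2,
  0)]⟩⟩]⟩))) (.I [1,-1,-2,-1,1,0,0,-1,-1] (.R ⟨1,false,false,true,[1,0,0,-1],[0,1,1],[1,0,0,0,0,0,0,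
  0,-1],(⟨0,[(30,0)]⟩,⟨0,[(31,0)]⟩),(⟨0,[(40,0),(2,0)]⟩,⟨0,[(25,0)]⟩),⟨1,[(1,0),(5,0),(12,0),(19,
  0)]⟩,.k,.k,(.x (-1) ⟨7,[(20,3),(7,2),(0,2),(10,3),(0,1)]⟩ ⟨0,[(43,0)]⟩),(.x (-1) ⟨11,[(15,3),(4,
  3),(2,1),(4,3),(0,3),(11,0),(5,2)]⟩ ⟨3,[(22,1),(13,0),(0,0),(5,1)]⟩),(.r (-1) ⟨26,[(0,13),(5,2),
  (3,1),(5,14),(1,1),(9,5),(1,2)]⟩ ⟨0,[(9,0)]⟩),.k,⟨false,1,⟨0,[(0,0)]⟩,⟨0,[(8,0),(17,0),(4,0),(2,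
  0)]⟩⟩,⟨true,0,⟨1,[(1,0),(5,0),(19,0)]⟩,⟨0,[(31,0),(1,0)]⟩⟩,⟨true,0,⟨0,[]⟩,⟨0,[(50,0)]⟩⟩,⟨false,0,
  ⟨6,[(8,5),(0,0),(9,0),(1,1),(0,1),(3,1),(3,0),(3,2),(4,3),(2,1)]⟩,⟨11,[(0,3),(5,5),(5,3),(10,1),
  (4,0),(2,5),(16,0)]⟩⟩,⟨false,1,⟨5,[(17,1),(3,1),(6,0),(0,0),(18,3)]⟩,⟨0,[(46,0)]⟩⟩,⟨false,0,⟨9,
  [(5,2),(1,3),(0,5),(0,0),(9,3),(1,7),(0,1),(3,1),(12,3),(2,1)]⟩,⟨2,[(0,0),(5,1),(7,0),(8,0),(7,0),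
  (5,0)]⟩⟩,[.o ⟨false,0,⟨0,[(21,0)]⟩,⟨15,[(6,3),(1,3),(5,7),(8,7),(4,2),(0,2),(11,1),(6,3)]⟩⟩,.o
  ⟨false,1,⟨3,[(21,3),(6,0),(0,0),(18,1)]⟩,⟨0,[(11,0),(34,1)]⟩⟩,.o ⟨false,1,⟨1,[(31,1),(9,0),(5,
  0)]⟩,⟨2,[(1,2),(0,0),(6,0)]⟩⟩,.a ⟨true,0,⟨0,[(31,0)]⟩,⟨0,[(30,0)]⟩⟩ ⟨false,1,⟨3,[(0,1),(18,1),(8,
  0),(18,0)]⟩,⟨1,[(5,0),(3,0),(36,1)]⟩⟩ ⟨true,0,⟨0,[(21,0),(8,0)]⟩,⟨0,[(11,0),(19,0),(14,1)]⟩⟩]⟩)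
  (.R ⟨1,false,false,true,[1,0,0,-1],[0,1,1],[0,1,0,-1,0,0,0,0,-1],(⟨0,[(30,0)]⟩,⟨0,[(31,0)]⟩),(⟨0,
  [(40,0),(2,0)]⟩,⟨0,[(25,0)]⟩),⟨1,[(1,0),(5,0),(12,0),(19,0)]⟩,.k,.k,(.x (-1) ⟨7,[(20,3),(7,2),(0,
  2),(10,3),(0,1)]⟩ ⟨0,[(43,0)]⟩),(.x (-1) ⟨11,[(15,3),(4,3),(2,1),(4,3),(0,3),(11,0),(5,2)]⟩ ⟨3,
  [(22,1),(13,0),(0,0),(5,1)]⟩),(.r (-1) ⟨0,[(4,0),(2,0),(8,0)]⟩ ⟨0,[(9,0)]⟩),.k,⟨false,1,⟨0,[(4,0),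
  (2,0),(8,0)]⟩,⟨5,[(0,2),(4,1),(3,0),(7,0),(1,3),(1,0),(25,2)]⟩⟩,⟨true,0,⟨1,[(1,0),(5,0),(19,0)]⟩,
  ⟨0,[(31,0),(1,0)]⟩⟩,⟨false,0,⟨0,[(46,0)]⟩,⟨5,[(17,1),(3,1),(6,0),(0,0),(18,3)]⟩⟩,⟨false,0,⟨6,[(0,
  1),(6,1),(0,2),(0,1),(8,1),(2,0),(5,2),(2,1)]⟩,⟨2,[(6,2),(5,0),(4,0),(12,0),(0,0)]⟩⟩,⟨true,0,⟨0,
  [(50,0)]⟩,⟨0,[]⟩⟩,⟨false,0,⟨7,[(0,1),(4,1),(1,5),(0,1),(10,3),(1,3),(5,1),(1,0),(17,0)]⟩,⟨3,[(6,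
  3),(5,0),(1,0),(8,0),(6,1),(0,1)]⟩⟩,[.o ⟨false,0,⟨0,[(21,0)]⟩,⟨15,[(6,3),(1,3),(5,7),(8,7),(4,2),
  (0,2),(11,1),(6,3)]⟩⟩,.o ⟨false,1,⟨3,[(21,3),(6,0),(0,0),(18,1)]⟩,⟨0,[(11,0),(34,1)]⟩⟩,.o ⟨false,
  1,⟨1,[(31,1),(9,0),(5,0)]⟩,⟨7,[(0,1),(0,3),(0,1),(5,1),(19,0),(1,1),(10,0)]⟩⟩,.a ⟨true,0,⟨0,[(31,
  0)]⟩,⟨0,[(30,0)]⟩⟩ ⟨false,1,⟨5,[(16,1),(1,1),(9,2),(19,0)]⟩,⟨0,[(5,0),(13,0)]⟩⟩ ⟨true,0,⟨0,[(21,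
  0),(8,0)]⟩,⟨0,[(11,0),(19,0),(14,1)]⟩⟩]⟩))) (.Q [0,0,0,0,0,-1,0,0,0,1,0,-1] (.ed true [0,1,0,1]
  .k) (.R ⟨1,false,false,false,[1,0,0,-1],[1,0,-1],[0,0,0,-1,0,0,0,0,-1],(⟨0,[(29,0)]⟩,⟨0,[(30,
  0)]⟩),(⟨0,[(38,0)]⟩,⟨0,[(39,0)]⟩),⟨0,[(0,0)]⟩,.k,.k,(.x (-1) ⟨7,[(19,3),(7,2),(0,2),(10,3),(0,
  1)]⟩ ⟨0,[(42,0)]⟩),.k,(.r (-1) ⟨0,[(1,0),(25,0)]⟩ ⟨1,[(4,0),(3,0),(28,1)]⟩),.k,⟨false,1,⟨0,[(1,0),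
  (25,0)]⟩,⟨11,[(1,0),(2,10),(11,3),(1,0),(1,3),(2,2)]⟩⟩,⟨true,0,⟨0,[(29,0),(2,0)]⟩,⟨1,[(13,0),(6,
  0),(9,1),(2,0),(9,0)]⟩⟩,⟨true,0,⟨0,[(45,0)]⟩,⟨0,[(44,0)]⟩⟩,⟨false,0,⟨7,[(4,3),(2,3),(3,0),(1,0),
  (8,2),(6,3),(13,1)]⟩,⟨12,[(3,4),(13,3),(0,1),(1,6),(0,1),(2,1),(1,0),(0,3),(2,7),(7,1)]⟩⟩,⟨false,
  1,⟨3,[(27,0),(0,0),(18,1)]⟩,⟨0,[]⟩⟩,⟨false,0,⟨6,[(4,1),(2,4),(3,0),(4,2),(5,0),(6,1),(13,0)]⟩,⟨13,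
  [(5,5),(11,3),(0,1),(2,1),(2,0),(1,0),(0,3),(2,7),(2,7),(4,2),(2,0)]⟩⟩,[.o ⟨false,0,⟨0,[(10,0),
  (34,0)]⟩,⟨3,[(27,0),(0,0),(4,3),(13,1)]⟩⟩,.o ⟨false,1,⟨7,[(11,1),(1,1),(8,1),(4,0),(0,0),(11,1),
  (6,3)]⟩,⟨0,[(33,0)]⟩⟩,.o ⟨false,1,⟨1,[(30,1),(9,0),(5,0)]⟩,⟨2,[(6,1),(5,1),(16,0),(2,0),(2,0),(7,
  0)]⟩⟩,.a ⟨true,0,⟨0,[(30,0)]⟩,⟨0,[(29,0)]⟩⟩ ⟨false,1,⟨0,[(3,0),(25,0)]⟩,⟨1,[(4,0),(3,0)]⟩⟩ ⟨true,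
  0,⟨0,[(10,0),(18,0),(15,0)]⟩,⟨0,[(30,0),(2,0)]⟩⟩]⟩) (.R ⟨0,false,false,false,[1,0,0,-1],[1,0,-1],
  [0,0,0,-1,0,0,0,0,-1],(⟨0,[(29,0)]⟩,⟨0,[(30,0)]⟩),(⟨0,[(38,0)]⟩,⟨0,[(39,0)]⟩),⟨0,[(0,0)]⟩,.k,.k,
  (.x (-1) ⟨7,[(19,3),(7,2),(0,2),(10,3),(0,1)]⟩ ⟨0,[(42,0)]⟩),.k,.k,.k,⟨false,1,⟨0,[(1,0),(25,0)]⟩,
  ⟨11,[(1,0),(2,10),(11,3),(1,0),(1,3),(2,2)]⟩⟩,⟨true,0,⟨0,[(29,0),(2,0)]⟩,⟨1,[(0,0),(1,0),(23,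
  0)]⟩⟩,⟨true,0,⟨0,[(45,0)]⟩,⟨0,[(44,0)]⟩⟩,⟨false,0,⟨7,[(4,3),(2,3),(3,0),(1,0),(8,2),(6,3),(13,
  1)]⟩,⟨12,[(3,4),(13,3),(0,1),(1,6),(0,1),(2,1),(1,0),(0,3),(2,7),(7,1)]⟩⟩,⟨false,0,⟨0,[]⟩,⟨0,[]⟩⟩,
  ⟨false,0,⟨0,[]⟩,⟨0,[]⟩⟩,[.o ⟨false,0,⟨0,[(10,0),(34,0)]⟩,⟨3,[(27,0),(0,0),(4,3),(13,1)]⟩⟩,.o
  ⟨false,1,⟨7,[(11,1),(1,1),(8,1),(4,0),(0,0),(11,1),(6,3)]⟩,⟨0,[(33,0)]⟩⟩,.o ⟨false,1,⟨5,[(0,1),(1,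
  1),(0,1),(24,0),(11,0),(3,1),(1,1)]⟩,⟨2,[(6,1),(5,1),(16,0),(2,0),(2,0),(7,0)]⟩⟩,.a ⟨true,0,⟨0,
  [(30,0)]⟩,⟨0,[(29,0)]⟩⟩ ⟨false,1,⟨0,[(3,0),(25,0)]⟩,⟨1,[(4,0),(3,0)]⟩⟩ ⟨true,0,⟨0,[(10,0),(18,0),
  (15,0)]⟩,⟨0,[(30,0),(2,0)]⟩⟩]⟩))) (.I [1,0,0,-1,0,0,0,0,1] (.R ⟨1,false,false,false,[1,0,0,-1],[1,
  0,-1],[1,1,0,0,0,0,0,0,-1],(⟨0,[(28,0)]⟩,⟨0,[(29,0)]⟩),(⟨0,[(37,0)]⟩,⟨0,[(38,0)]⟩),⟨0,[(1,0),(16,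
  0),(19,0)]⟩,.k,.k,(.x (-1) ⟨7,[(18,3),(7,2),(0,2),(10,3),(0,1)]⟩ ⟨0,[(41,0)]⟩),.k,(.x 0 ⟨0,[(18,
  0),(1,0),(10,0)]⟩ ⟨7,[(13,3),(12,2),(0,2),(13,11),(3,1)]⟩),.k,⟨false,1,⟨1,[(16,0),(7,0),(1,0),(5,
  0)]⟩,⟨2,[(0,2),(8,1),(7,0),(2,0),(1,1),(0,0),(13,0)]⟩⟩,⟨true,0,⟨0,[(28,0),(2,0)]⟩,⟨1,[(12,0),(6,
  0),(9,1),(2,0),(9,0)]⟩⟩,⟨false,0,⟨0,[]⟩,⟨3,[(26,0),(0,0),(18,1)]⟩⟩,⟨false,0,⟨7,[(3,3),(2,3),(3,0),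
  (1,0),(8,2),(6,3),(13,1)]⟩,⟨12,[(2,4),(13,3),(0,1),(1,6),(0,1),(2,1),(1,0),(0,3),(2,7),(7,1)]⟩⟩,
  ⟨true,0,⟨0,[(43,0)]⟩,⟨0,[(44,0)]⟩⟩,⟨false,0,⟨6,[(3,1),(2,4),(3,0),(4,2),(5,0),(6,1),(13,0)]⟩,⟨13,
  [(4,5),(11,3),(0,1),(2,1),(2,0),(1,0),(0,3),(2,7),(2,7),(4,2),(2,0)]⟩⟩,[.o ⟨false,0,⟨0,[(9,0),(34,
  0)]⟩,⟨3,[(26,0),(0,0),(4,3),(13,1)]⟩⟩,.o ⟨false,1,⟨7,[(10,1),(1,1),(8,1),(4,0),(0,0),(11,1),(6,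
  3)]⟩,⟨0,[(32,0)]⟩⟩,.o ⟨false,1,⟨1,[(29,1),(9,0),(5,0)]⟩,⟨4,[(1,2),(16,1),(1,0),(7,1),(2,3),(2,
  1)]⟩⟩,.a ⟨true,0,⟨0,[(29,0)]⟩,⟨0,[(28,0)]⟩⟩ ⟨false,1,⟨1,[(26,0),(18,0)]⟩,⟨3,[(0,1),(2,0),(3,0),
  (34,1)]⟩⟩ ⟨true,0,⟨2,[(1,1),(7,0),(2,0),(5,0),(2,0),(6,0),(9,0)]⟩,⟨0,[(29,0),(2,0)]⟩⟩]⟩) (.R ⟨1,
  false,false,true,[1,0,0,-1],[0,1],[0,1,0,-1,0,0,0,0,-1],(⟨0,[(28,0)]⟩,⟨0,[(29,0)]⟩),(⟨0,[(41,0)]⟩,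
  ⟨0,[(40,0)]⟩),⟨0,[(1,0),(16,0),(19,0)]⟩,.k,.k,(.x (-1) ⟨7,[(18,3),(7,2),(0,2),(10,3),(0,1)]⟩ ⟨0,
  [(41,0)]⟩),(.x (-1) ⟨7,[(18,3),(7,2),(0,2),(10,3),(0,1)]⟩ ⟨0,[(41,0)]⟩),(.r (-1) ⟨1,[(0,0),(3,0),
  (9,0),(1,0),(11,0)]⟩ ⟨0,[(7,0),(28,0)]⟩),.k,⟨false,1,⟨1,[(0,0),(3,0),(9,0),(1,0),(11,0)]⟩,⟨2,[(3,
  1),(3,0),(7,0),(1,0),(1,0)]⟩⟩,⟨true,0,⟨0,[(28,0)]⟩,⟨6,[(9,1),(1,3),(5,1),(11,6),(1,0),(2,2),(7,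
  0)]⟩⟩,⟨false,0,⟨0,[(44,0)]⟩,⟨5,[(15,1),(3,1),(6,0),(0,0),(18,3)]⟩⟩,⟨false,0,⟨1,[(3,0),(3,0),(20,
  1)]⟩,⟨0,[(2,0)]⟩⟩,⟨true,0,⟨0,[(48,0)]⟩,⟨0,[]⟩⟩,⟨false,0,⟨1,[(3,0),(1,1),(1,0)]⟩,⟨0,[(4,0)]⟩⟩,[.o
  ⟨false,0,⟨0,[(43,0)]⟩,⟨7,[(4,3),(1,3),(19,0),(0,0),(11,1)]⟩⟩,.a ⟨true,0,⟨0,[(5,0),(23,0)]⟩,⟨0,
  [(44,0)]⟩⟩ ⟨true,0,⟨0,[(0,0),(43,1)]⟩,⟨1,[(3,0),(3,0)]⟩⟩ ⟨false,0,⟨0,[(5,0)]⟩,⟨2,[(4,0),(3,0),(20,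
  1),(9,0)]⟩⟩,.o ⟨false,1,⟨1,[(29,1),(9,0),(5,0)]⟩,⟨2,[(0,0),(5,0),(4,0),(16,1),(2,0),(2,0)]⟩⟩,.e
  ⟨false,1,⟨5,[(14,1),(1,1),(9,2),(19,0)]⟩,⟨0,[(3,0),(13,0)]⟩⟩ ⟨false,0,⟨0,[(5,0)]⟩,⟨1,[(3,0),(0,1),
  (2,0)]⟩⟩]⟩))) (.R ⟨1,false,false,true,[1,-1],[0,0,0,1],[0,0,1],(⟨0,[(38,0)]⟩,⟨0,[(39,0)]⟩),(⟨0,
  [(27,0)]⟩,⟨0,[(26,0)]⟩),⟨0,[(16,0),(19,0)]⟩,.k,.k,(.r (-1) ⟨2,[(12,1),(1,1),(29,0)]⟩ ⟨3,[(0,0),(4,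
  0),(7,1),(1,0),(8,0),(2,0),(1,0),(2,2)]⟩),(.x (-1) ⟨7,[(16,3),(7,2),(0,2),(10,3),(0,1)]⟩ ⟨0,[(39,
  0)]⟩),(.r (-2) ⟨11,[(2,7),(3,7),(17,6),(0,0),(0,7)]⟩ ⟨2,[(0,2),(6,1),(1,0),(7,1),(9,2),(12,2)]⟩),
  .k,⟨false,1,⟨1,[(24,0),(19,0)]⟩,⟨2,[(0,2),(6,0),(1,1),(4,2),(2,0),(2,2),(6,2)]⟩⟩,⟨true,0,⟨0,[(26,
  0)]⟩,⟨6,[(7,1),(1,3),(5,1),(11,6),(1,0),(2,2),(7,0)]⟩⟩,⟨false,0,⟨4,[(0,0),(4,0),(7,0),(5,0),(4,0),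
  (2,0),(4,2),(7,2)]⟩,⟨13,[(6,1),(3,3),(3,7),(9,0),(18,1),(0,0)]⟩⟩,⟨true,(-1),⟨0,[(0,0)]⟩,⟨0,[(2,0),
  (38,0)]⟩⟩,⟨false,0,⟨9,[(0,0),(4,0),(7,5),(1,4),(3,0),(4,0),(2,0),(4,7),(7,2)]⟩,⟨2,[(12,1),(1,1),
  (29,0)]⟩⟩,⟨false,0,⟨1,[(1,0),(1,1),(1,0)]⟩,⟨0,[(2,0)]⟩⟩,[.a ⟨true,(-1),⟨0,[(0,0),(41,0)]⟩,⟨1,[(2,
  1),(10,0),(1,0),(2,0),(2,0),(0,0),(12,0)]⟩⟩ ⟨true,0,⟨1,[(32,0),(0,0)]⟩,⟨0,[]⟩⟩ ⟨false,0,⟨4,[(0,3),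
  (5,0),(3,0),(3,1),(11,0),(16,0)]⟩,⟨10,[(2,4),(4,1),(5,1),(1,3),(7,1),(0,2),(2,5),(9,2),(2,0)]⟩⟩,
  .o ⟨false,0,⟨5,[(0,1),(3,3),(4,1),(14,0),(0,0)]⟩,⟨1,[(2,1),(10,0),(3,0),(23,0)]⟩⟩,.o ⟨false,0,⟨6,
  [(7,1),(1,3),(5,1),(13,0),(2,2),(7,0)]⟩,⟨3,[(24,0),(0,0),(17,1)]⟩⟩,.o ⟨false,0,⟨0,[(29,0),(2,0)]⟩,
  ⟨0,[(43,0)]⟩⟩]⟩)) (.R ⟨1,false,false,true,[1,0,0,-1],[0,1],[1,0,0,0,0,0,0,0,-1],(⟨0,[(25,0)]⟩,⟨0,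
  [(26,0)]⟩),(⟨0,[(38,0)]⟩,⟨0,[(37,0)]⟩),⟨4,[(0,1),(2,1),(2,0),(4,0),(3,2),(1,0),(3,0),(3,2),(9,
  0)]⟩,.k,.k,(.x (-1) ⟨7,[(15,3),(7,2),(0,2),(10,3),(0,1)]⟩ ⟨0,[(38,0)]⟩),(.x (-1) ⟨7,[(15,3),(7,2),
  (0,2),(10,3),(0,1)]⟩ ⟨0,[(38,0)]⟩),(.r (-1) ⟨17,[(0,6),(0,4),(7,5),(1,4),(1,9),(9,2),(1,4)]⟩ ⟨0,
  [(4,0),(28,0)]⟩),.k,⟨false,1,⟨3,[(0,3),(8,1),(3,1),(5,1),(22,0),(0,0)]⟩,⟨5,[(3,0),(0,4),(4,1),(1,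
  2),(4,1),(4,1),(4,0)]⟩⟩,⟨true,0,⟨0,[(25,0)]⟩,⟨6,[(6,1),(1,3),(5,1),(11,6),(1,0),(2,2),(7,0)]⟩⟩,
  ⟨true,0,⟨0,[]⟩,⟨0,[(45,0)]⟩⟩,⟨false,0,⟨4,[(2,1),(0,2),(0,1),(6,0),(5,0),(3,0),(8,0),(3,1),(2,0)]⟩,
  ⟨7,[(0,0),(0,6),(4,0),(5,0),(1,0),(1,1),(2,1),(6,0),(15,0)]⟩⟩,⟨false,1,⟨5,[(12,1),(3,1),(6,0),(0,
  0),(18,3)]⟩,⟨0,[(41,0)]⟩⟩,⟨false,0,⟨6,[(2,2),(0,3),(0,2),(4,0),(2,0),(4,1),(2,1),(0,2),(12,1),(5,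
  0)]⟩,⟨0,[(1,0)]⟩⟩,[.o ⟨false,0,⟨0,[(40,0)]⟩,⟨7,[(1,3),(1,3),(19,0),(0,0),(11,1)]⟩⟩,.a ⟨true,0,⟨0,
  [(2,0),(23,0)]⟩,⟨0,[(41,0)]⟩⟩ ⟨true,0,⟨0,[(0,0),(18,0)]⟩,⟨0,[(4,0),(6,0)]⟩⟩ ⟨false,0,⟨0,[(2,0)]⟩,
  ⟨2,[(1,0),(3,0),(20,1),(9,0)]⟩⟩,.o ⟨false,1,⟨1,[(26,1),(9,0),(5,0)]⟩,⟨3,[(0,0),(2,0),(2,0),(1,0),
  (16,2),(2,0),(2,1)]⟩⟩,.e ⟨false,1,⟨3,[(0,1),(18,1),(3,0),(18,1),(0,0)]⟩,⟨1,[(3,0),(0,0),(6,0),(14,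
  0)]⟩⟩ ⟨false,0,⟨0,[(2,0)]⟩,⟨49,[(1,29),(2,3),(2,1),(16,12),(1,19),(1,3),(2,7),(4,6),(2,9)]⟩⟩]⟩))
  (.Q [0,0,-1,-2,1,0,1,1,-1,0,-1,1] (.p false [0,0,1] [0,0,0,1] (⟨0,[(34,0)]⟩,⟨0,[(33,0)]⟩) .k 2
  (⟨0,[(25,0)]⟩,⟨0,[(24,0)]⟩) .k (.r (-1) ⟨4,[(3,0),(8,1),(0,0),(8,2),(5,0),(2,0),(8,0)]⟩ ⟨29,[(0,
  5),(1,14),(1,2),(0,3),(1,1),(0,14),(6,3),(7,2),(1,20)]⟩)) (.Q [0,0,-1,-1,1,0,1,1,-1,0,-1,1] (.p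
  false [0,0,1] [0,0,0,1] (⟨0,[(35,0)]⟩,⟨0,[(34,0)]⟩) .k 2 (⟨0,[(26,0)]⟩,⟨0,[(25,0)]⟩) .k (.r (-1)
  ⟨12,[(0,1),(3,2),(8,3),(0,1),(3,1),(4,6),(1,1),(3,1)]⟩ ⟨29,[(1,5),(1,14),(1,2),(0,3),(1,1),(0,14),
  (6,3),(7,2),(1,20)]⟩)) (.Q [0,0,0,0,0,-1,0,0,0,1,0,-1] (.ed true [0,1,0,1] .k) (.R ⟨1,false,false,
  false,[1,0,0,-1],[1,1,-1],[1,1,0,0,0,0,0,0,-1],(⟨0,[(27,0)]⟩,⟨0,[(28,0)]⟩),(⟨0,[(36,0),(3,0)]⟩,⟨0,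
  [(17,0),(1,0),(0,0)]⟩),⟨0,[(0,0)]⟩,.k,.k,(.x (-1) ⟨7,[(17,3),(7,2),(0,2),(10,3),(0,1)]⟩ ⟨0,[(40,
  0)]⟩),(.x 0 ⟨0,[(17,0),(1,0),(10,0)]⟩ ⟨7,[(12,3),(12,2),(0,2),(13,11),(3,1)]⟩),(.r (-2) ⟨83,[(2,
  35),(2,17),(1,23),(5,7),(1,55),(4,17),(4,44),(1,17),(17,6)]⟩ ⟨1,[(3,1),(4,0),(1,0),(10,0),(6,1),
  (4,0),(7,0)]⟩),.k,⟨true,1,⟨1,[(15,0),(7,0),(1,0),(5,0),(11,1)]⟩,⟨0,[(3,0),(6,0),(10,0),(6,0),(12,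
  0)]⟩⟩,⟨false,1,⟨15,[(4,5),(2,1),(1,3),(5,7),(4,3),(4,0),(1,9),(10,3),(6,0)]⟩,⟨1,[(11,0),(6,0),(9,
  1),(2,0),(9,0)]⟩⟩,⟨false,0,⟨0,[]⟩,⟨3,[(25,0),(0,0),(18,1)]⟩⟩,⟨false,0,⟨7,[(3,1),(1,3),(3,3),(16,
  0),(0,1),(13,1),(3,0)]⟩,⟨0,[(1,0)]⟩⟩,⟨true,0,⟨0,[(42,0)]⟩,⟨0,[(43,0)]⟩⟩,⟨false,0,⟨0,[(5,0),(8,
  0)]⟩,⟨0,[(2,0)]⟩⟩,[.o ⟨false,0,⟨0,[(8,0)]⟩,⟨3,[(2,1),(2,1),(19,0),(0,0),(4,1)]⟩⟩,.o ⟨false,1,⟨11,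
  [(9,3),(4,3),(10,0),(0,0),(11,3),(6,5)]⟩,⟨0,[(31,0),(11,0)]⟩⟩,.o ⟨false,1,⟨1,[(28,1),(9,0),(5,
  0)]⟩,⟨2,[(3,0),(1,0),(4,1),(14,0),(1,0),(13,0)]⟩⟩,.a ⟨true,0,⟨0,[(28,0)]⟩,⟨0,[(27,0)]⟩⟩ ⟨false,1,
  ⟨1,[(25,0),(18,0)]⟩,⟨0,[(5,0),(22,0)]⟩⟩ ⟨true,0,⟨0,[(8,0),(18,0)]⟩,⟨0,[(28,0),(2,0),(11,0)]⟩⟩]⟩)
  (.R ⟨0,false,false,false,[1,0,0,-1],[1,1,-1],[0,1,0,0,0,0,0,0,-1],(⟨0,[(27,0)]⟩,⟨0,[(28,0)]⟩),(⟨0,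
  [(36,0),(3,0)]⟩,⟨0,[(17,0),(1,0),(0,0)]⟩),⟨0,[(0,0)]⟩,.k,.k,(.x (-1) ⟨7,[(17,3),(7,2),(0,2),(10,
  3),(0,1)]⟩ ⟨0,[(40,0)]⟩),(.x 0 ⟨0,[(17,0),(1,0),(10,0)]⟩ ⟨7,[(12,3),(12,2),(0,2),(13,11),(3,1)]⟩),
  .k,.k,⟨true,1,⟨1,[(15,0),(7,0),(1,0),(5,0),(11,1)]⟩,⟨38,[(0,5),(2,38),(4,6),(1,29),(0,15),(5,3),
  (1,1),(8,32),(4,2),(7,53)]⟩⟩,⟨false,1,⟨15,[(4,5),(2,1),(1,3),(5,7),(4,3),(4,0),(1,9),(10,3),(6,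
  0)]⟩,⟨4,[(0,2),(16,1),(1,0),(4,0),(3,1),(4,0)]⟩⟩,⟨true,0,⟨0,[(47,0)]⟩,⟨0,[]⟩⟩,⟨false,0,⟨7,[(3,1),
  (1,3),(3,3),(16,0),(0,1),(13,1),(3,0)]⟩,⟨0,[(1,0)]⟩⟩,⟨false,0,⟨0,[]⟩,⟨0,[]⟩⟩,⟨false,0,⟨0,[]⟩,⟨0,
  []⟩⟩,[.o ⟨false,0,⟨0,[(8,0)]⟩,⟨3,[(2,1),(2,1),(19,0),(0,0),(4,1)]⟩⟩,.o ⟨false,1,⟨11,[(9,3),(4,3),
  (10,0),(0,0),(11,3),(6,5)]⟩,⟨0,[(31,0),(11,0)]⟩⟩,.o ⟨false,1,⟨1,[(28,1),(9,0),(5,0)]⟩,⟨2,[(3,0),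
  (1,0),(4,1),(14,0),(1,0),(13,0)]⟩⟩,.a ⟨true,0,⟨0,[(28,0)]⟩,⟨0,[(27,0)]⟩⟩ ⟨false,1,⟨1,[(25,0),(18,
  0)]⟩,⟨0,[(5,0),(22,0)]⟩⟩ ⟨true,0,⟨0,[(8,0),(18,0)]⟩,⟨0,[(28,0),(2,0),(11,0)]⟩⟩]⟩)) (.R ⟨1,true,
  false,false,[1,0,0,-1],[1,1,-1],[1,1,0,0,0,0,0,0,-1],(⟨0,[(26,0)]⟩,⟨0,[(27,0)]⟩),(⟨0,[(35,0),(3,
  0)]⟩,⟨0,[(16,0),(1,0),(0,0)]⟩),⟨4,[(0,1),(8,0),(4,0),(0,0),(0,2),(1,0),(5,0),(1,2),(9,0),(5,0)]⟩,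
  .k,.k,(.x (-1) ⟨7,[(16,3),(7,2),(0,2),(10,3),(0,1)]⟩ ⟨0,[(39,0)]⟩),(.x 0 ⟨0,[(16,0),(1,0),(10,
  0)]⟩ ⟨7,[(11,3),(12,2),(0,2),(13,11),(3,1)]⟩),(.r (-2) ⟨83,[(1,35),(2,17),(1,23),(5,7),(1,55),(4,
  17),(4,44),(1,17),(17,6)]⟩ ⟨7,[(0,4),(1,2),(4,3),(9,0),(5,0),(3,7),(4,5),(7,1)]⟩),.k,⟨true,1,⟨1,
  [(14,0),(7,0),(1,0),(5,0),(11,1)]⟩,⟨8,[(0,8),(6,0),(1,1),(7,0),(5,2),(3,8),(4,2),(7,5)]⟩⟩,⟨false,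
  1,⟨15,[(3,5),(2,1),(1,3),(5,7),(4,3),(4,0),(1,9),(10,3),(6,0)]⟩,⟨1,[(10,0),(6,0),(9,1),(2,0),(9,
  0)]⟩⟩,⟨false,0,⟨0,[]⟩,⟨3,[(24,0),(0,0),(18,1)]⟩⟩,⟨true,(-1),⟨0,[(0,0)]⟩,⟨0,[(1,0),(39,0)]⟩⟩,⟨true,
  0,⟨0,[(41,0)]⟩,⟨0,[(42,0)]⟩⟩,⟨false,0,⟨0,[(4,0),(8,0)]⟩,⟨0,[(1,0)]⟩⟩,[]⟩)) (.R ⟨1,false,false,
  false,[1,0,0,-1],[1,1,-1],[1,1,0,0,0,0,0,0,-1],(⟨0,[(25,0)]⟩,⟨0,[(26,0)]⟩),(⟨0,[(34,0),(3,0)]⟩,⟨0,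
  [(15,0),(1,0),(0,0)]⟩),⟨5,[(0,1),(7,0),(4,0),(0,0),(0,3),(1,1),(0,0),(4,0),(1,3),(15,2)]⟩,.k,.k,
  (.x (-1) ⟨7,[(15,3),(7,2),(0,2),(10,3),(0,1)]⟩ ⟨0,[(38,0)]⟩),(.x 0 ⟨0,[(15,0),(1,0),(10,0)]⟩ ⟨7,
  [(10,3),(12,2),(0,2),(13,11),(3,1)]⟩),(.r (-2) ⟨3,[(13,3),(9,2),(0,0),(16,3)]⟩ ⟨0,[(0,0),(25,0),
  (4,0)]⟩),.k,⟨true,1,⟨1,[(13,0),(7,0),(1,0),(5,0),(11,1)]⟩,⟨3,[(0,2),(0,0),(6,1),(2,0),(10,0),(3,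
  3),(4,0),(7,3)]⟩⟩,⟨false,1,⟨15,[(2,5),(2,1),(1,3),(5,7),(4,3),(4,0),(1,9),(10,3),(6,0)]⟩,⟨1,[(9,
  0),(6,0),(9,1),(2,0),(9,0)]⟩⟩,⟨false,0,⟨0,[]⟩,⟨3,[(23,0),(0,0),(18,1)]⟩⟩,⟨true,(-1),⟨0,[(0,0),(40,
  0)]⟩,⟨3,[(11,0),(1,1),(9,1),(2,3),(2,2),(1,0)]⟩⟩,⟨true,0,⟨0,[(40,0)]⟩,⟨0,[(41,0)]⟩⟩,⟨true,(-1),⟨0,
  [(0,0)]⟩,⟨3,[(11,0),(1,1),(9,1),(2,3),(2,2),(1,0),(9,3)]⟩⟩,[.o ⟨false,0,⟨0,[(6,0)]⟩,⟨15,[(4,3),(8,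
  11),(9,2),(0,0),(6,15),(9,11)]⟩⟩,.o ⟨false,1,⟨11,[(7,3),(4,3),(10,0),(0,0),(11,3),(6,5)]⟩,⟨0,[(29,
  0),(11,0)]⟩⟩,.o ⟨false,1,⟨1,[(26,1),(9,0),(5,0)]⟩,⟨10,[(0,1),(2,1),(4,5),(5,1),(8,1),(1,6),(2,0),
  (2,2),(7,0)]⟩⟩,.a ⟨true,0,⟨0,[(26,0)]⟩,⟨0,[(25,0)]⟩⟩ ⟨false,1,⟨1,[(23,0),(18,0)]⟩,⟨0,[(3,0),(22,
  0)]⟩⟩ ⟨true,0,⟨0,[(6,0),(18,0)]⟩,⟨0,[(26,0),(2,0),(11,0)]⟩⟩]⟩))) (.I [1,0,1,1,0,0,0,1,-1] (.Q [0,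
  0,0,0,0,1,0,0,0,-1,0,1] (.ed false [0,1,0,1] .k) (.R ⟨0,false,false,false,[1,0,0,-1],[1,0,-1],[1,
  0,0,0,0,0,0,0,-1],(⟨0,[(25,0)]⟩,⟨0,[(26,0)]⟩),(⟨0,[(34,0)]⟩,⟨0,[(35,0)]⟩),⟨0,[(0,0)]⟩,.k,.k,(.x
  (-1) ⟨7,[(15,3),(7,2),(0,2),(10,3),(0,1)]⟩ ⟨0,[(38,0)]⟩),.k,.k,.k,⟨false,1,⟨3,[(1,1),(11,1),(9,0),
  (18,0)]⟩,⟨4,[(0,3),(2,4),(5,1),(1,0),(3,1),(1,1),(2,1),(0,3),(4,0)]⟩⟩,⟨true,0,⟨0,[(25,0),(2,0)]⟩,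
  ⟨4,[(0,2),(14,1),(1,0),(4,0),(3,1),(4,0)]⟩⟩,⟨true,0,⟨0,[]⟩,⟨0,[(45,0)]⟩⟩,⟨false,0,⟨3,[(3,3),(3,0),
  (1,0),(8,0),(6,1),(0,1)]⟩,⟨19,[(0,11),(0,5),(11,9),(1,7),(0,3),(0,3),(4,3),(0,6),(2,7),(15,0),(0,
  1)]⟩⟩,⟨false,0,⟨0,[]⟩,⟨0,[]⟩⟩,⟨false,0,⟨0,[]⟩,⟨0,[]⟩⟩,[.o ⟨false,0,⟨0,[(6,0),(34,0)]⟩,⟨3,[(23,0),
  (0,0),(4,3),(13,1)]⟩⟩,.o ⟨false,1,⟨7,[(7,1),(1,1),(8,1),(4,0),(0,0),(11,1),(6,3)]⟩,⟨0,[(29,0)]⟩⟩,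
  .o ⟨false,1,⟨1,[(26,1),(9,0),(5,0)]⟩,⟨8,[(1,3),(1,3),(3,0),(0,3),(0,0),(15,4),(5,1)]⟩⟩,.a ⟨true,0,
  ⟨0,[(26,0)]⟩,⟨0,[(25,0)]⟩⟩ ⟨false,1,⟨3,[(1,1),(11,1),(5,3),(3,0),(18,0)]⟩,⟨1,[(3,0),(0,0),(6,0),
  (14,0)]⟩⟩ ⟨true,0,⟨0,[(6,0),(18,0),(15,0)]⟩,⟨0,[(26,0),(2,0)]⟩⟩]⟩) (.R ⟨1,false,false,false,[1,0,
  0,-1],[1,0,-1],[0,0,0,-1,0,0,0,0,-1],(⟨0,[(25,0)]⟩,⟨0,[(26,0)]⟩),(⟨0,[(34,0)]⟩,⟨0,[(35,0)]⟩),⟨0,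
  [(0,0)]⟩,.k,.k,(.x (-1) ⟨7,[(15,3),(7,2),(0,2),(10,3),(0,1)]⟩ ⟨0,[(38,0)]⟩),.k,(.r (-1) ⟨2,[(1,0),
  (11,1),(9,0),(17,1)]⟩ ⟨0,[(4,0),(4,0)]⟩),.k,⟨false,1,⟨2,[(1,0),(11,1),(9,0),(17,1)]⟩,⟨0,[(2,0),(0,
  0),(2,0),(10,0),(2,0),(0,0),(12,0)]⟩⟩,⟨true,0,⟨0,[(25,0),(2,0)]⟩,⟨2,[(2,0),(13,0),(2,0),(2,0),(3,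
  1)]⟩⟩,⟨true,0,⟨0,[(41,0)]⟩,⟨0,[(40,0)]⟩⟩,⟨false,0,⟨3,[(3,3),(3,0),(1,0),(8,0),(6,1),(0,1)]⟩,⟨7,
  [(1,5),(0,3),(10,1),(8,3),(0,0),(2,3),(15,4)]⟩⟩,⟨false,1,⟨3,[(23,0),(0,0),(18,1)]⟩,⟨0,[]⟩⟩,⟨false,
  0,⟨2,[(3,2),(3,0),(4,0),(12,0),(0,0)]⟩,⟨5,[(1,1),(0,2),(10,3),(8,2),(0,1),(2,2),(14,0)]⟩⟩,[.o
  ⟨false,0,⟨0,[(6,0),(34,0)]⟩,⟨3,[(23,0),(0,0),(4,3),(13,1)]⟩⟩,.o ⟨false,1,⟨7,[(7,1),(1,1),(8,1),(4,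
  0),(0,0),(11,1),(6,3)]⟩,⟨0,[(29,0)]⟩⟩,.o ⟨false,1,⟨1,[(26,1),(9,0),(5,0)]⟩,⟨8,[(1,3),(1,3),(3,0),
  (0,3),(0,0),(15,4),(5,1)]⟩⟩,.a ⟨true,0,⟨0,[(26,0)]⟩,⟨0,[(25,0)]⟩⟩ ⟨false,1,⟨8,[(1,2),(7,3),(1,0),
  (1,5),(9,2),(15,4)]⟩,⟨2,[(3,1),(0,0),(4,0),(6,0),(4,0),(4,1)]⟩⟩ ⟨true,0,⟨0,[(6,0),(18,0),(15,0)]⟩,
  ⟨0,[(26,0),(2,0)]⟩⟩]⟩)) (.Q [0,0,0,0,0,1,0,0,0,-1,0,1] (.ed false [0,1,0,1] .k) (.R ⟨0,false,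
  false,false,[1,0,0,-1],[1,0,-1],[0,1,0,0,0,0,0,0,-1],(⟨0,[(25,0)]⟩,⟨0,[(26,0)]⟩),(⟨0,[(34,0)]⟩,⟨0,
  [(35,0)]⟩),⟨0,[(0,0)]⟩,.k,.k,(.x (-1) ⟨7,[(15,3),(7,2),(0,2),(10,3),(0,1)]⟩ ⟨0,[(38,0)]⟩),.k,.k,
  .k,⟨false,1,⟨1,[(13,0),(7,0),(1,0),(5,0)]⟩,⟨8,[(1,6),(2,1),(7,0),(3,0),(2,3),(19,2)]⟩⟩,⟨true,0,⟨0,
  [(25,0),(2,0)]⟩,⟨4,[(0,2),(14,1),(1,0),(4,0),(3,1),(4,0)]⟩⟩,⟨true,0,⟨0,[(45,0)]⟩,⟨0,[]⟩⟩,⟨false,0,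
  ⟨3,[(1,0),(1,2),(3,0),(17,0),(4,0),(1,0),(6,0)]⟩,⟨7,[(0,4),(12,3),(0,1),(0,2),(0,1),(0,1),(2,0),
  (1,0),(0,3),(2,2)]⟩⟩,⟨false,0,⟨0,[]⟩,⟨0,[]⟩⟩,⟨false,0,⟨0,[]⟩,⟨0,[]⟩⟩,[.o ⟨false,0,⟨0,[(6,0),(34,
  0)]⟩,⟨3,[(23,0),(0,0),(4,3),(13,1)]⟩⟩,.o ⟨false,1,⟨7,[(7,1),(1,1),(8,1),(4,0),(0,0),(11,1),(6,
  3)]⟩,⟨0,[(29,0)]⟩⟩,.o ⟨false,1,⟨1,[(26,1),(9,0),(5,0)]⟩,⟨6,[(6,1),(1,3),(5,1),(10,6),(2,0),(2,2),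
  (7,0)]⟩⟩,.a ⟨true,0,⟨0,[(26,0)]⟩,⟨0,[(25,0)]⟩⟩ ⟨false,1,⟨1,[(23,0),(18,0)]⟩,⟨0,[(3,0),(22,0)]⟩⟩
  ⟨true,0,⟨0,[(6,0),(18,0),(15,0)]⟩,⟨0,[(26,0),(2,0)]⟩⟩]⟩) (.I [0,0,1,0,0,0,0,0,-1] (.R ⟨1,false,
  false,false,[1,0,0,-1],[1,0,-1],[0,0,0,-1,0,0,0,0,-1],(⟨0,[(26,0)]⟩,⟨0,[(27,0)]⟩),(⟨0,[(35,0)]⟩,
  ⟨0,[(36,0)]⟩),⟨0,[(1,0)]⟩,.k,.k,(.x (-1) ⟨7,[(16,3),(7,2),(0,2),(10,3),(0,1)]⟩ ⟨0,[(39,0)]⟩),.k,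
  (.r (-1) ⟨0,[(0,0),(13,0)]⟩ ⟨0,[(5,0),(4,0)]⟩),.k,⟨false,1,⟨0,[(0,0),(13,0)]⟩,⟨2,[(2,1),(2,0),(1,
  0),(5,0),(9,0)]⟩⟩,⟨true,0,⟨0,[(26,0),(2,0)]⟩,⟨2,[(3,0),(13,0),(2,0),(2,0),(3,1)]⟩⟩,⟨true,0,⟨0,
  [(42,0)]⟩,⟨0,[(41,0)]⟩⟩,⟨false,0,⟨3,[(2,0),(1,2),(3,0),(17,0),(4,0),(1,0),(6,0)]⟩,⟨5,[(3,2),(3,0),
  (6,2),(0,1),(1,2),(0,1),(1,0),(0,1),(2,2),(2,2),(7,1)]⟩⟩,⟨false,1,⟨3,[(24,0),(0,0),(18,1)]⟩,⟨0,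
  []⟩⟩,⟨false,0,⟨7,[(2,0),(1,6),(3,0),(4,3),(12,0),(4,0),(1,0),(6,0)]⟩,⟨4,[(0,0),(2,2),(10,2),(0,0),
  (2,0),(2,0),(1,0),(0,1),(2,1),(2,0),(4,0)]⟩⟩,[.o ⟨false,0,⟨0,[(7,0),(34,0)]⟩,⟨3,[(24,0),(0,0),(4,
  3),(13,1)]⟩⟩,.o ⟨false,1,⟨7,[(8,1),(1,1),(8,1),(4,0),(0,0),(11,1),(6,3)]⟩,⟨0,[(30,0)]⟩⟩,.o ⟨false,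
  1,⟨1,[(27,1),(9,0),(5,0)]⟩,⟨5,[(0,2),(3,2),(2,0),(1,1),(7,0),(8,2)]⟩⟩,.a ⟨true,0,⟨0,[(27,0)]⟩,⟨0,
  [(26,0)]⟩⟩ ⟨false,1,⟨0,[(0,0),(13,0),(5,0)]⟩,⟨3,[(2,0),(2,2),(4,0)]⟩⟩ ⟨true,0,⟨0,[(7,0),(18,0),
  (15,0)]⟩,⟨0,[(27,0),(2,0)]⟩⟩]⟩) (.I [1,1,1,1,0,0,0,0,-1] (.R ⟨1,false,false,false,[1,0,0,-1],[1,
  -1],[1,1,0,0,0,0,0,0,-1],(⟨0,[(27,0)]⟩,⟨0,[(28,0)]⟩),(⟨0,[(39,0)]⟩,⟨0,[(40,0)]⟩),⟨0,[(2,0)]⟩,.k,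
  .k,(.x (-1) ⟨7,[(17,3),(7,2),(0,2),(10,3),(0,1)]⟩ ⟨0,[(40,0)]⟩),(.r (-1) ⟨3,[(0,3),(24,0),(0,0),
  (18,1)]⟩ ⟨0,[(1,0),(41,0)]⟩),.k,.k,⟨true,0,⟨0,[(0,0)]⟩,⟨2,[(1,1),(3,0),(22,0),(12,0),(1,2)]⟩⟩,
  ⟨false,0,⟨8,[(0,2),(4,2),(2,0),(1,4),(7,0),(8,5),(13,2)]⟩,⟨0,[(28,0),(15,0)]⟩⟩,⟨false,0,⟨0,[]⟩,⟨3,
  [(25,0),(0,0),(18,1)]⟩⟩,⟨false,0,⟨0,[(5,0),(37,0)]⟩,⟨1,[(14,0),(0,0),(2,0),(2,0),(3,0),(2,1)]⟩⟩,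
  ⟨true,0,⟨0,[(42,0)]⟩,⟨0,[(43,0)]⟩⟩,⟨false,0,⟨0,[(5,0)]⟩,⟨1,[(25,0),(2,1),(15,0)]⟩⟩,[.a ⟨true,0,⟨0,
  [(43,0)]⟩,⟨3,[(14,0),(1,0),(2,0),(3,0),(3,0),(0,0),(7,1),(2,0)]⟩⟩ ⟨false,1,⟨11,[(7,1),(5,1),(1,1),
  (9,6),(16,7),(1,0)]⟩,⟨2,[(1,1),(3,0),(22,0),(12,0)]⟩⟩ ⟨true,0,⟨2,[(10,1),(16,2),(2,0),(2,0),(7,0),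
  (1,0)]⟩,⟨1,[(4,0),(3,0),(7,0),(2,0),(2,0),(0,0),(4,0),(7,0)]⟩⟩,.o ⟨false,1,⟨0,[(10,0),(34,0)]⟩,⟨0,
  [(42,0)]⟩⟩,.o ⟨false,1,⟨1,[(28,1),(9,0),(5,0)]⟩,⟨8,[(0,2),(4,2),(2,0),(1,4),(7,0),(8,5),(13,2)]⟩⟩,
  .e ⟨false,1,⟨1,[(25,0),(18,0)]⟩,⟨0,[(5,0),(22,0)]⟩⟩ ⟨false,1,⟨5,[(5,5),(7,1),(1,1),(9,2),(19,0)]⟩,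
  ⟨1,[(4,0),(3,0),(7,0),(2,0),(2,0),(0,0),(4,0),(7,0)]⟩⟩]⟩) (.R ⟨1,false,false,false,[1,0,0,-1],[1,
  0,-1],[1,1,0,0,0,0,0,0,-1],(⟨0,[(27,0)]⟩,⟨0,[(28,0)]⟩),(⟨0,[(36,0)]⟩,⟨0,[(37,0)]⟩),⟨0,[(2,0)]⟩,.k,
  .k,(.x (-1) ⟨7,[(17,3),(7,2),(0,2),(10,3),(0,1)]⟩ ⟨0,[(40,0)]⟩),.k,(.x 0 ⟨0,[(17,0),(1,0),(10,
  0)]⟩ ⟨7,[(12,3),(12,2),(0,2),(13,11),(3,1)]⟩),.k,⟨false,1,⟨1,[(15,0),(7,0),(1,0),(5,0)]⟩,⟨5,[(0,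
  0),(2,2),(2,1),(14,4)]⟩⟩,⟨true,0,⟨0,[(27,0),(2,0)]⟩,⟨2,[(4,0),(13,0),(2,0),(2,0),(3,1)]⟩⟩,⟨false,
  0,⟨0,[]⟩,⟨3,[(25,0),(0,0),(18,1)]⟩⟩,⟨false,0,⟨3,[(3,0),(1,2),(3,0),(17,0),(4,0),(1,0),(6,0)]⟩,⟨0,
  [(0,0),(17,0),(6,0),(2,0)]⟩⟩,⟨true,0,⟨0,[(42,0)]⟩,⟨0,[(43,0)]⟩⟩,⟨false,0,⟨7,[(3,0),(1,6),(3,0),(4,
  3),(12,0),(4,0),(1,0),(6,0)]⟩,⟨3,[(4,1),(10,1),(3,0),(2,0),(2,1),(2,1),(2,1),(4,0),(4,0)]⟩⟩,[.o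
  ⟨false,0,⟨0,[(8,0),(34,0)]⟩,⟨3,[(25,0),(0,0),(4,3),(13,1)]⟩⟩,.o ⟨false,1,⟨7,[(9,1),(1,1),(8,1),(4,
  0),(0,0),(11,1),(6,3)]⟩,⟨0,[(31,0)]⟩⟩,.o ⟨false,1,⟨1,[(28,1),(9,0),(5,0)]⟩,⟨6,[(8,1),(1,3),(5,1),
  (10,6),(2,0),(2,2),(7,0)]⟩⟩,.a ⟨true,0,⟨0,[(28,0)]⟩,⟨0,[(27,0)]⟩⟩ ⟨false,1,⟨1,[(25,0),(18,0)]⟩,⟨0,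
  [(5,0),(22,0)]⟩⟩ ⟨true,0,⟨0,[(8,0),(18,0),(15,0)]⟩,⟨0,[(28,0),(2,0)]⟩⟩]⟩)))))) (.Q [0,1,1,0,0,0,0,
  0,1,0,0,-1] (.p false [0,0,0,1] [] (⟨0,[(23,0)]⟩,⟨0,[(22,0)]⟩) .k 0 (⟨0,[]⟩,⟨0,[]⟩) .k .k) (.K ⟨0,
  [0,0,0,1],0,0,(⟨0,[(24,0)]⟩,⟨0,[(23,0)]⟩),.k,(.r (-1) ⟨5,[(9,1),(1,1),(10,2),(18,0)]⟩ ⟨6,[(1,6),
  (2,3),(1,0),(5,3),(10,6),(2,1),(2,5),(7,1)]⟩),(.x 0 ⟨0,[(36,0)]⟩ ⟨7,[(13,3),(7,2),(0,2),(10,3),(0,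
  1)]⟩),.k,.k,[⟨0,[(24,0)]⟩,⟨0,[(23,0)]⟩,⟨0,[(1,0)]⟩,⟨0,[(0,0)]⟩]⟩) (.Q [0,0,0,-1,0,0,0,0,0,-1,0,1]
  (.p true [0,0,0,1] [1] (⟨0,[(24,0)]⟩,⟨0,[(23,0)]⟩) .k 1 (⟨0,[]⟩,⟨0,[]⟩) .k .k) (.Q [0,0,0,0,0,1,0,
  0,0,-1,0,1] (.ed false [0,1,0,1] .k) (.Q [0,1,1,1,0,0,0,0,1,1,0,-1] (.p false [0,0,0,1] [1] (⟨0,
  [(26,0)]⟩,⟨0,[(25,0)]⟩) .k 1 (⟨0,[]⟩,⟨0,[]⟩) .k .k) (.R ⟨0,false,false,true,[1,0,0,-1],[0,1],[1,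
  1],(⟨0,[(26,0)]⟩,⟨0,[(27,0)]⟩),(⟨0,[(39,0)]⟩,⟨0,[(38,0)]⟩),⟨0,[(1,0)]⟩,.k,.k,(.x (-1) ⟨7,[(16,3),
  (7,2),(0,2),(10,3),(0,1)]⟩ ⟨0,[(39,0)]⟩),(.x (-1) ⟨7,[(16,3),(7,2),(0,2),(10,3),(0,1)]⟩ ⟨0,[(39,
  0)]⟩),.k,.k,⟨false,1,⟨13,[(6,1),(3,3),(3,7),(9,0),(18,1),(0,0)]⟩,⟨3,[(13,0),(1,0),(16,1),(0,0),(7,
  0)]⟩⟩,⟨true,0,⟨0,[(26,0)]⟩,⟨7,[(2,4),(0,0),(0,0),(0,1),(2,0),(18,0),(1,1),(2,3)]⟩⟩,⟨false,1,⟨3,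
  [(24,0),(0,2)]⟩,⟨6,[(3,6),(3,1),(1,3),(5,1),(10,6),(2,0),(2,2),(7,0)]⟩⟩,⟨true,0,⟨0,[(0,0)]⟩,⟨0,
  [(3,0),(5,0)]⟩⟩,⟨false,0,⟨0,[]⟩,⟨0,[]⟩⟩,⟨false,0,⟨0,[]⟩,⟨0,[]⟩⟩,[.o ⟨false,0,⟨0,[(41,0)]⟩,⟨0,[(9,
  0),(34,0)]⟩⟩,.e ⟨true,0,⟨0,[]⟩,⟨1,[(32,0),(0,0)]⟩⟩ ⟨true,0,⟨3,[(13,0),(1,0),(10,3),(5,1),(0,0),(7,
  0)]⟩,⟨0,[(2,0)]⟩⟩,.o ⟨false,1,⟨1,[(27,1),(9,0),(5,0)]⟩,⟨6,[(7,1),(1,3),(5,1),(10,6),(2,0),(2,2),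
  (7,0)]⟩⟩,.a ⟨true,0,⟨0,[(27,0)]⟩,⟨0,[(26,0)]⟩⟩ ⟨false,1,⟨3,[(24,0),(0,0),(17,1)]⟩,⟨3,[(32,0),(0,
  0),(6,1)]⟩⟩ ⟨true,0,⟨0,[(26,0),(14,0)]⟩,⟨0,[(2,0)]⟩⟩]⟩) (.R ⟨1,false,false,false,[0,0,0,1],[1,-1],
  [0,0,0,-1],(⟨0,[(27,0)]⟩,⟨0,[(26,0)]⟩),(⟨0,[(38,0)]⟩,⟨0,[(39,0)]⟩),⟨8,[(0,0),(1,2),(2,0),(1,0),(8,
  4),(1,0),(3,0),(4,4),(8,2)]⟩,.k,.k,(.r (-1) ⟨5,[(12,1),(1,1),(10,2),(18,0)]⟩ ⟨3,[(3,0),(0,2),(2,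
  1),(7,1),(10,3),(2,1),(2,3)]⟩),(.x 0 ⟨0,[(39,0)]⟩ ⟨7,[(16,3),(7,2),(0,2),(10,3),(0,1)]⟩),.k,.k,
  ⟨true,0,⟨1,[(32,0),(0,0)]⟩,⟨0,[]⟩⟩,⟨false,1,⟨1,[(27,1),(9,0),(5,0)]⟩,⟨0,[(26,0)]⟩⟩,⟨false,0,⟨1,
  [(0,1),(25,1),(5,0),(0,0)]⟩,⟨5,[(13,1),(3,1),(6,0),(0,3),(18,0)]⟩⟩,⟨false,0,⟨0,[(0,0)]⟩,⟨7,[(5,3),
  (18,2),(0,4),(0,7),(7,3)]⟩⟩,⟨false,0,⟨7,[(0,3),(2,2),(0,0),(2,1),(7,1),(10,7),(2,1),(2,3)]⟩,⟨3,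
  [(24,0),(0,2)]⟩⟩,⟨true,0,⟨2,[(0,1),(3,0),(2,0),(9,0)]⟩,⟨0,[(5,0),(6,0),(13,0)]⟩⟩,[.a ⟨true,0,⟨0,
  [(42,0)]⟩,⟨4,[(3,0),(1,0),(7,0),(4,0),(3,0),(3,1),(0,0),(7,1),(2,0)]⟩⟩ ⟨true,0,⟨0,[(42,0)]⟩,⟨3,
  [(13,0),(1,0),(16,1),(0,0),(7,0)]⟩⟩ ⟨false,1,⟨2,[(0,0),(2,0),(2,1),(20,0),(9,0)]⟩,⟨3,[(13,0),(1,
  0),(10,3),(5,1),(0,0),(7,0)]⟩⟩,.o ⟨false,1,⟨0,[(9,0),(34,0)]⟩,⟨0,[(41,0)]⟩⟩,.o ⟨false,0,⟨6,[(7,1),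
  (1,3),(5,1),(10,6),(2,0),(2,2),(7,0)]⟩,⟨1,[(27,1),(9,0),(5,0)]⟩⟩,.o ⟨false,0,⟨0,[(26,0),(2,0),(2,
  0)]⟩,⟨17,[(0,1),(2,13),(2,9),(0,5),(9,5),(7,2),(1,1),(9,4)]⟩⟩]⟩)) (.I [0,1,-1,-2,0,0,0,1,-1] (.R
  ⟨1,false,false,false,[1,0,0,-1],[1,1,-1],[0,1,0,-1,0,0,0,0,-1],(⟨0,[(26,0)]⟩,⟨0,[(27,0)]⟩),(⟨0,
  [(35,0),(3,0)]⟩,⟨0,[(16,0),(1,0),(0,0)]⟩),⟨0,[(1,0)]⟩,.k,.k,(.x (-1) ⟨7,[(16,3),(7,2),(0,2),(10,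
  3),(0,1)]⟩ ⟨0,[(39,0)]⟩),(.r (-1) ⟨13,[(0,5),(4,1),(8,5),(9,4),(19,2)]⟩ ⟨0,[(5,0),(4,0)]⟩),(.r
  (-1) ⟨17,[(0,11),(2,1),(6,1),(3,9),(9,1),(1,1),(10,0),(6,4)]⟩ ⟨0,[(5,0),(28,1)]⟩),.k,⟨true,0,⟨0,
  [(0,0)]⟩,⟨0,[(5,0),(14,0),(13,0)]⟩⟩,⟨false,1,⟨3,[(19,1),(6,3),(10,0),(5,2)]⟩,⟨2,[(2,0),(14,0),(2,
  0),(2,0),(3,1)]⟩⟩,⟨false,0,⟨0,[(42,0)]⟩,⟨5,[(13,1),(3,1),(6,0),(0,0),(18,3)]⟩⟩,⟨false,1,⟨9,[(5,1),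
  (2,5),(16,3),(0,9),(2,1),(2,3),(4,0),(6,4)]⟩,⟨5,[(0,1),(1,1),(0,3),(14,0),(2,0),(8,3),(4,0),(4,
  0)]⟩⟩,⟨true,0,⟨0,[(46,0)]⟩,⟨0,[]⟩⟩,⟨false,1,⟨9,[(5,3),(2,3),(4,3),(6,1),(4,2),(0,9),(5,1),(4,2),
  (6,3)]⟩,⟨2,[(0,1),(1,1),(0,0),(14,0),(2,0),(8,0),(4,0),(4,0)]⟩⟩,[.o ⟨false,0,⟨0,[(7,0)]⟩,⟨7,[(0,
  3),(23,0),(0,2),(4,3),(1,3),(11,3)]⟩⟩,.o ⟨false,1,⟨11,[(8,3),(4,3),(10,0),(0,0),(11,3),(6,5)]⟩,⟨0,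
  [(30,0),(11,0)]⟩⟩,.o ⟨false,1,⟨1,[(27,1),(9,0),(5,0)]⟩,⟨6,[(7,1),(1,3),(5,1),(10,6),(2,0),(2,2),
  (7,0)]⟩⟩,.a ⟨true,0,⟨0,[(27,0)]⟩,⟨0,[(26,0)]⟩⟩ ⟨false,0,⟨3,[(0,2),(2,0),(3,0),(9,0),(2,2),(5,0)]⟩,
  ⟨7,[(5,3),(18,0),(0,2),(8,3),(9,3)]⟩⟩ ⟨true,0,⟨0,[(7,0),(18,0)]⟩,⟨0,[(27,0),(2,0),(11,0)]⟩⟩]⟩)
  (.Q [0,1,1,-1,0,0,0,0,1,0,0,-1] (.p false [0,0,0,1] [] (⟨0,[(27,0)]⟩,⟨0,[(26,0)]⟩) .k 0 (⟨0,[]⟩,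
  ⟨0,[]⟩) .k .k) (.R ⟨1,false,false,true,[1,0,0,-1],[1,-1],[1,1],(⟨0,[(27,0)]⟩,⟨0,[(28,0)]⟩),(⟨0,
  [(39,0)]⟩,⟨0,[(40,0)]⟩),⟨0,[(2,0)]⟩,.k,.k,(.x (-1) ⟨7,[(17,3),(7,2),(0,2),(10,3),(0,1)]⟩ ⟨0,[(40,
  0)]⟩),(.r 0 ⟨3,[(4,0),(0,2),(2,1),(7,1),(10,3),(2,1),(2,3)]⟩ ⟨5,[(13,1),(1,1),(10,2),(18,0)]⟩),.k,
  .k,⟨true,0,⟨3,[(14,0),(1,0),(16,1),(0,0),(7,0)]⟩,⟨0,[(43,0)]⟩⟩,⟨false,0,⟨6,[(8,1),(1,3),(5,1),(10,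
  6),(2,0),(2,2),(7,0)]⟩,⟨0,[(28,0),(15,0)]⟩⟩,⟨false,1,⟨3,[(25,0),(0,2)]⟩,⟨6,[(4,6),(3,1),(1,3),(5,
  1),(10,6),(2,0),(2,2),(7,0)]⟩⟩,⟨true,0,⟨0,[(0,0)]⟩,⟨2,[(4,1),(0,0),(8,0),(3,0)]⟩⟩,⟨false,1,⟨13,
  [(1,1),(4,1),(7,1),(3,1),(6,2),(0,7),(17,2)]⟩,⟨1,[(4,0),(0,0),(4,1),(16,1),(13,1)]⟩⟩,⟨false,1,⟨27,
  [(0,15),(0,3),(4,3),(18,6),(0,8),(0,11),(10,5),(6,5)]⟩,⟨0,[(4,0)]⟩⟩,[.o ⟨false,0,⟨0,[(10,0)]⟩,⟨7,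
  [(1,1),(4,1),(18,1),(18,2),(0,2)]⟩⟩,.e ⟨true,0,⟨0,[]⟩,⟨1,[(33,0),(0,0)]⟩⟩ ⟨true,0,⟨2,[(10,1),(16,
  2),(2,0),(2,0),(7,0),(1,0)]⟩,⟨3,[(1,0),(2,0),(13,0),(4,0),(4,2)]⟩⟩,.o ⟨false,1,⟨1,[(28,1),(9,0),
  (5,0)]⟩,⟨6,[(8,1),(1,3),(5,1),(10,6),(2,0),(2,2),(7,0)]⟩⟩,.a ⟨true,0,⟨0,[(28,0)]⟩,⟨0,[(27,0)]⟩⟩
  ⟨false,1,⟨3,[(25,0),(0,0),(17,1)]⟩,⟨3,[(33,0),(0,0),(6,1)]⟩⟩ ⟨true,0,⟨0,[(10,0),(16,0)]⟩,⟨3,[(1,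
  0),(2,0),(13,0),(4,0),(4,2)]⟩⟩]⟩) (.K ⟨1,[1,-1,0,-1],0,0,(⟨0,[(2,0)]⟩,⟨0,[(28,0),(11,0)]⟩),(.x
  (-1) ⟨7,[(17,3),(7,2),(0,2),(10,3),(0,1)]⟩ ⟨0,[(40,0)]⟩),(.r (-1) ⟨8,[(4,2),(5,2),(0,0),(1,3),(1,
  5),(9,2),(1,2),(13,1)]⟩ ⟨2,[(1,0),(4,1),(25,0),(0,0)]⟩),.k,.k,.k,[⟨1,[(27,1),(5,0),(0,0)]⟩,⟨9,[(0,
  0),(2,5),(1,0),(0,1),(2,0),(18,1),(1,2),(2,4)]⟩,⟨3,[(1,0),(4,2),(6,2),(4,0),(4,0),(3,3)]⟩,⟨0,[(4,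
  0),(38,0)]⟩]⟩)))) (.Q [0,0,-3,0,1,0,0,0,0,0,0,1] (.p true [0,0,0,1] [] (⟨0,[(25,0)]⟩,⟨0,[(24,
  0)]⟩) .k 0 (⟨0,[]⟩,⟨0,[]⟩) .k .k) (.Q [0,0,3,0,-1,0,0,0,0,1,0,-1] (.p false [0,0,0,1] [1] (⟨0,
  [(26,0)]⟩,⟨0,[(25,0)]⟩) .k 1 (⟨0,[]⟩,⟨0,[]⟩) .k .k) (.Q [0,0,0,0,0,-1,0,0,0,0,0,1] (.ed false [1,
  -1,0,1] .k) (.K ⟨0,[1,1,0,-1],1,0,(⟨0,[(27,0),(12,0)]⟩,⟨0,[(0,0)]⟩),(.r 0 ⟨65,[(1,23),(2,22),(0,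
  0),(0,5),(1,23),(5,3),(3,21),(6,23),(7,5)]⟩ ⟨5,[(13,1),(1,1),(10,2),(18,0)]⟩),.k,(.r 1 ⟨0,[(1,0),
  (2,0),(3,0),(9,0)]⟩ ⟨11,[(13,7),(1,7),(9,2),(0,8),(18,3)]⟩),.k,.k,[⟨0,[(1,0)]⟩,⟨0,[(2,0)]⟩,⟨0,[(1,
  0),(5,0)]⟩,⟨5,[(4,2),(0,2),(2,3),(1,1),(7,3)]⟩]⟩) (.K ⟨1,[1,-1,0,-1],0,0,(⟨0,[(0,0),(16,0),(19,
  0)]⟩,⟨0,[(28,0),(11,0)]⟩),(.x (-1) ⟨7,[(17,3),(7,2),(0,2),(10,3),(0,1)]⟩ ⟨0,[(40,0)]⟩),(.r (-1)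
  ⟨8,[(4,2),(5,2),(0,0),(1,3),(1,5),(9,2),(1,2),(13,1)]⟩ ⟨0,[(6,0),(28,0)]⟩),.k,.k,.k,[⟨5,[(1,1),
  (23,0),(0,0),(0,3)]⟩,⟨4,[(4,0),(1,0),(1,0),(1,2),(17,3),(1,0),(2,1),(7,0)]⟩,⟨0,[(3,0),(2,0),(6,
  0)]⟩,⟨0,[(4,0),(38,0)]⟩]⟩)) (.Q [0,0,0,0,0,-1,0,0,0,1,0,-1] (.ed true [0,1,0,1] .k) (.K ⟨1,[1,-1,
  0,-1],0,0,(⟨0,[(0,0)]⟩,⟨0,[(28,0),(11,0)]⟩),(.x (-1) ⟨7,[(17,3),(7,2),(0,2),(10,3),(0,1)]⟩ ⟨0,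
  [(40,0)]⟩),(.r (-1) ⟨8,[(4,2),(5,2),(0,0),(1,3),(1,5),(9,2),(1,2),(13,1)]⟩ ⟨0,[(6,0),(28,0)]⟩),.k,
  .k,.k,[⟨1,[(27,1),(5,0),(0,0)]⟩,⟨4,[(4,0),(1,0),(1,0),(1,2),(17,3),(1,0),(2,1),(7,0)]⟩,⟨0,[(3,0),
  (2,0),(6,0)]⟩,⟨0,[(4,0),(38,0)]⟩]⟩) (.K ⟨2,[-1,1,0,1],0,0,(⟨0,[(0,0)]⟩,⟨0,[(27,0),(11,0)]⟩),(.x 0
  ⟨0,[(40,0)]⟩ ⟨7,[(17,3),(7,2),(0,2),(10,3),(0,1)]⟩),.k,(.r 0 ⟨0,[(6,0),(28,0)]⟩ ⟨8,[(4,2),(5,2),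
  (0,0),(1,3),(1,5),(9,2),(1,2),(13,1)]⟩),(.r 0 ⟨0,[(6,0),(4,0)]⟩ ⟨6,[(4,0),(10,3),(0,0),(3,0),(4,
  2),(1,0),(3,1),(11,3)]⟩),(.r (-1) ⟨15,[(6,11),(8,3),(9,4),(0,6),(16,3)]⟩ ⟨11,[(4,10),(0,0),(3,1),
  (0,9),(0,3),(15,11),(5,3)]⟩),[⟨8,[(0,8),(7,0),(1,4),(6,5),(0,3),(0,2),(1,2),(19,2)]⟩,⟨1,[(24,0),
  (2,2),(0,0)]⟩,⟨4,[(0,2),(16,1),(1,0),(8,1),(1,3),(2,1)]⟩,⟨1,[(27,1),(5,0),(0,0)]⟩,⟨1,[(4,0),(0,0),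
  (4,1)]⟩,⟨0,[(3,0),(2,0),(6,0)]⟩]⟩))) (.R ⟨2,false,false,true,[0,1],[0,0,0,1],[],(⟨0,[]⟩,⟨0,[]⟩),
  (⟨0,[(26,0)]⟩,⟨0,[(25,0)]⟩),⟨0,[]⟩,.k,.k,.k,(.r 0 ⟨65,[(0,23),(1,18),(0,4),(0,5),(7,19),(3,13),(6,
  23),(7,5)]⟩ ⟨5,[(11,1),(1,1),(10,2),(18,0)]⟩),.k,.k,⟨true,0,⟨2,[(0,0),(1,2),(22,1),(10,0)]⟩,⟨0,
  [(4,0),(6,0)]⟩⟩,⟨false,0,⟨2,[(0,0),(24,1),(10,0)]⟩,⟨0,[(26,0),(15,0)]⟩⟩,⟨false,1,⟨2,[(11,0),(1,0),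
  (29,1)]⟩,⟨39,[(0,3),(1,0),(0,0),(0,9),(7,9),(10,3),(2,1),(4,9)]⟩⟩,⟨true,0,⟨0,[(0,0),(4,0)]⟩,⟨2,
  [(2,1),(0,0),(8,0),(3,0)]⟩⟩,⟨false,1,⟨1,[(42,0),(0,0)]⟩,⟨5,[(0,1),(22,0),(0,0),(1,1)]⟩⟩,⟨false,1,
  ⟨11,[(0,3),(22,2),(0,8),(0,7),(10,3)]⟩,⟨0,[(2,0)]⟩⟩,[.a ⟨true,0,⟨0,[(4,0),(6,0),(13,0)]⟩,⟨0,[(2,
  0)]⟩⟩ ⟨false,1,⟨3,[(23,0),(0,0),(17,1)]⟩,⟨0,[]⟩⟩ ⟨true,0,⟨7,[(0,7),(4,3),(17,0),(0,2),(15,3)]⟩,⟨0,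
  [(2,0)]⟩⟩,.o ⟨false,1,⟨11,[(0,3),(22,2),(0,8),(0,7),(10,3)]⟩,⟨2,[(2,2),(3,0),(1,1),(7,0)]⟩⟩,.o
  ⟨false,1,⟨3,[(23,0),(0,0),(17,1)]⟩,⟨11,[(0,2),(5,1),(1,3),(7,1),(9,2),(9,2),(2,2)]⟩⟩,.e ⟨false,1,
  ⟨1,[(42,0),(0,0)]⟩,⟨5,[(0,1),(22,0),(0,0),(1,1)]⟩⟩ ⟨false,1,⟨11,[(0,3),(22,2),(0,8),(0,7),(10,
  3)]⟩,⟨0,[(2,0)]⟩⟩]⟩))))) (.Q [0,0,0,0,0,-1,0,0,0,1,0,-1] (.ed true [0,1,0,1] .k) (.R ⟨1,false,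
  false,false,[1,0,0,-1],[1,0,-1],[1,1,0,0,0,0,0,0,-1],(⟨0,[(22,0)]⟩,⟨0,[(23,0)]⟩),(⟨0,[(31,0)]⟩,⟨0,
  [(32,0)]⟩),⟨0,[(0,0)]⟩,.k,.k,(.x (-1) ⟨7,[(12,3),(7,2),(0,2),(10,3),(0,1)]⟩ ⟨0,[(35,0)]⟩),.k,(.x
  0 ⟨0,[(12,0),(1,0),(10,0)]⟩ ⟨7,[(7,3),(12,2),(0,2),(13,11),(3,1)]⟩),.k,⟨false,0,⟨0,[(1,0),(9,0),
  (6,0),(7,0)]⟩,⟨1,[(21,0),(8,1),(9,0)]⟩⟩,⟨true,0,⟨0,[(22,0),(2,0)]⟩,⟨1,[(6,0),(6,0),(9,1),(2,0),(9,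
  0)]⟩⟩,⟨false,0,⟨0,[]⟩,⟨3,[(20,0),(0,0),(18,1)]⟩⟩,⟨false,1,⟨3,[(4,0),(1,0),(8,0),(5,1),(0,3),(2,1),
  (2,1),(11,1)]⟩,⟨0,[(1,0),(9,0),(1,0),(9,0)]⟩⟩,⟨true,0,⟨0,[(37,0)]⟩,⟨0,[(38,0)]⟩⟩,⟨false,1,⟨17,[(4,
  5),(4,5),(11,8),(0,17),(2,7),(2,7),(4,1),(2,1),(3,6)]⟩,⟨0,[(1,0),(9,0),(11,0),(2,0)]⟩⟩,[.o ⟨false,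
  0,⟨0,[(3,0),(34,0)]⟩,⟨3,[(20,0),(0,0),(4,3),(13,1)]⟩⟩,.o ⟨false,1,⟨7,[(4,1),(1,1),(8,1),(4,0),(0,
  0),(11,1),(6,3)]⟩,⟨0,[(26,0)]⟩⟩,.o ⟨false,1,⟨1,[(23,1),(9,0),(5,0)]⟩,⟨6,[(3,1),(1,3),(5,1),(10,6),
  (2,0),(2,2),(7,0)]⟩⟩,.a ⟨true,0,⟨0,[(23,0)]⟩,⟨0,[(22,0)]⟩⟩ ⟨false,0,⟨0,[(1,0),(9,0),(25,0)]⟩,⟨1,
  [(21,0),(6,0),(0,0),(10,0)]⟩⟩ ⟨true,0,⟨0,[(3,0),(18,0),(15,0)]⟩,⟨0,[(23,0),(2,0)]⟩⟩]⟩) (.R ⟨0,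
  false,false,false,[1,0,0,-1],[1,0,-1],[0,1,0,0,0,0,0,0,-1],(⟨0,[(22,0)]⟩,⟨0,[(23,0)]⟩),(⟨0,[(31,
  0)]⟩,⟨0,[(32,0)]⟩),⟨0,[(0,0)]⟩,.k,.k,(.x (-1) ⟨7,[(12,3),(7,2),(0,2),(10,3),(0,1)]⟩ ⟨0,[(35,0)]⟩),
  .k,.k,.k,⟨false,0,⟨0,[(1,0),(9,0),(6,0),(7,0)]⟩,⟨1,[(21,0),(8,1),(9,0)]⟩⟩,⟨true,0,⟨0,[(22,0),(2,
  0)]⟩,⟨4,[(0,2),(11,1),(1,0),(4,0),(3,1),(4,0)]⟩⟩,⟨true,0,⟨0,[(42,0)]⟩,⟨0,[]⟩⟩,⟨false,1,⟨3,[(4,0),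
  (1,0),(8,0),(5,1),(0,3),(2,1),(2,1),(11,1)]⟩,⟨0,[(1,0),(9,0),(1,0),(9,0)]⟩⟩,⟨false,0,⟨0,[]⟩,⟨0,
  []⟩⟩,⟨false,0,⟨0,[]⟩,⟨0,[]⟩⟩,[.o ⟨false,0,⟨0,[(3,0),(34,0)]⟩,⟨3,[(20,0),(0,0),(4,3),(13,1)]⟩⟩,.o
  ⟨false,1,⟨7,[(4,1),(1,1),(8,1),(4,0),(0,0),(11,1),(6,3)]⟩,⟨0,[(26,0)]⟩⟩,.o ⟨false,1,⟨1,[(23,1),(9,
  0),(5,0)]⟩,⟨6,[(3,1),(1,3),(5,1),(10,6),(2,0),(2,2),(7,0)]⟩⟩,.a ⟨true,0,⟨0,[(23,0)]⟩,⟨0,[(22,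
  0)]⟩⟩ ⟨false,0,⟨0,[(1,0),(9,0),(25,0)]⟩,⟨1,[(21,0),(6,0),(0,0),(10,0)]⟩⟩ ⟨true,0,⟨0,[(3,0),(18,0),
  (15,0)]⟩,⟨0,[(23,0),(2,0)]⟩⟩]⟩))) (.Q [0,-1,-1,0,0,0,0,0,-1,0,0,1] (.p true [0,0,0,1] [] (⟨0,[(21,
  0)]⟩,⟨0,[(20,0)]⟩) .k 0 (⟨0,[]⟩,⟨0,[]⟩) .k .k) (.Q [0,0,0,0,0,-1,0,0,0,1,0,-1] (.ed true [0,1,0,
  1] .k) (.I [1,0,1,1,-1,0,0,-1,-1] (.R ⟨1,false,false,true,[1,0,0,-1],[0,-1,1],[1,1,0,0,0,0,0,0,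
  -1],(⟨0,[(23,0)]⟩,⟨0,[(24,0)]⟩),(⟨0,[(13,0),(1,0),(0,0)]⟩,⟨0,[(32,0),(3,0)]⟩),⟨0,[(1,0)]⟩,.k,.k,
  (.x (-1) ⟨7,[(13,3),(7,2),(0,2),(10,3),(0,1)]⟩ ⟨0,[(36,0)]⟩),(.x (-1) ⟨0,[(4,0),(6,0),(20,0),(3,
  0)]⟩ ⟨1,[(13,0),(12,0),(2,2),(3,2)]⟩),.k,.k,⟨true,(-1),⟨0,[(0,0)]⟩,⟨3,[(11,1),(0,0),(9,1),(4,0),
  (1,0),(0,1),(8,2)]⟩⟩,⟨false,0,⟨0,[(23,0),(5,0)]⟩,⟨0,[(4,0),(6,0),(12,0)]⟩⟩,⟨false,0,⟨0,[]⟩,⟨3,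
  [(21,0),(0,0),(18,1)]⟩⟩,⟨false,1,⟨3,[(11,1),(0,0),(9,1),(0,3),(3,0),(1,4),(0,1),(8,2)]⟩,⟨0,[(2,0),
  (1,0)]⟩⟩,⟨true,0,⟨0,[(38,0)]⟩,⟨0,[(39,0)]⟩⟩,⟨false,1,⟨11,[(11,3),(0,3),(8,0),(0,6),(0,11),(3,3),
  (1,11),(0,3)]⟩,⟨0,[(2,0),(1,0),(34,0)]⟩⟩,[.o ⟨false,0,⟨0,[(27,0),(11,0)]⟩,⟨11,[(5,3),(4,3),(10,0),
  (0,0),(11,3),(6,5)]⟩⟩,.o ⟨false,1,⟨1,[(11,1),(17,2),(0,0)]⟩,⟨0,[(4,0)]⟩⟩,.o ⟨false,1,⟨1,[(24,1),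
  (9,0),(5,0)]⟩,⟨3,[(3,1),(2,1),(15,0),(0,3),(10,0)]⟩⟩,.a ⟨true,0,⟨0,[(24,0)]⟩,⟨0,[(23,0)]⟩⟩ ⟨false,
  0,⟨0,[(0,0),(10,0)]⟩,⟨1,[(22,0),(6,0),(0,0),(10,0)]⟩⟩ ⟨true,0,⟨0,[(23,0),(3,0),(11,0)]⟩,⟨0,[(4,0),
  (19,0)]⟩⟩]⟩) (.I [1,1,-1,0,0,0,0,1,-1] (.R ⟨1,false,false,false,[1,0,0,-1],[1,0,-1],[1,1,0,0,0,0,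
  0,0,-1],(⟨0,[(24,0)]⟩,⟨0,[(25,0)]⟩),(⟨0,[(33,0)]⟩,⟨0,[(34,0)]⟩),⟨0,[(2,0)]⟩,.k,.k,(.x (-1) ⟨7,
  [(14,3),(7,2),(0,2),(10,3),(0,1)]⟩ ⟨0,[(37,0)]⟩),.k,(.x 0 ⟨0,[(14,0),(1,0),(10,0)]⟩ ⟨7,[(9,3),(12,
  2),(0,2),(13,11),(3,1)]⟩),.k,⟨false,0,⟨0,[(0,0)]⟩,⟨1,[(23,0),(8,1),(9,0)]⟩⟩,⟨true,0,⟨0,[(24,0),(2,
  0)]⟩,⟨1,[(8,0),(6,0),(9,1),(2,0),(9,0)]⟩⟩,⟨false,0,⟨0,[]⟩,⟨3,[(22,0),(0,0),(18,1)]⟩⟩,⟨false,1,⟨3,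
  [(6,0),(1,0),(8,0),(5,1),(0,3),(2,1),(2,1),(11,1)]⟩,⟨0,[(3,0),(24,0)]⟩⟩,⟨true,0,⟨0,[(39,0)]⟩,⟨0,
  [(40,0)]⟩⟩,⟨false,1,⟨7,[(4,3),(1,3),(15,0),(0,6),(0,7),(10,1),(6,1)]⟩,⟨0,[(3,0),(24,0),(11,0)]⟩⟩,
  [.o ⟨false,0,⟨0,[(5,0),(34,0)]⟩,⟨3,[(22,0),(0,0),(4,3),(13,1)]⟩⟩,.o ⟨false,1,⟨7,[(6,1),(1,1),(8,
  1),(4,0),(0,0),(11,1),(6,3)]⟩,⟨0,[(28,0)]⟩⟩,.o ⟨false,1,⟨1,[(25,1),(9,0),(5,0)]⟩,⟨3,[(4,1),(2,1),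
  (15,0),(0,3),(10,0)]⟩⟩,.a ⟨true,0,⟨0,[(25,0)]⟩,⟨0,[(24,0)]⟩⟩ ⟨false,0,⟨0,[(0,0),(17,0)]⟩,⟨1,[(23,
  0),(6,0),(0,0),(10,0)]⟩⟩ ⟨true,0,⟨0,[(5,0),(18,0),(15,0)]⟩,⟨0,[(25,0),(2,0)]⟩⟩]⟩) (.I [0,0,1,0,-1,
  0,0,-1,-1] (.R ⟨1,false,false,true,[1,0,0,-1],[0,-1,1],[0,1,0,-1,0,0,0,0,-1],(⟨0,[(25,0)]⟩,⟨0,
  [(26,0)]⟩),(⟨0,[(15,0),(1,0),(0,0)]⟩,⟨0,[(34,0),(3,0)]⟩),⟨0,[(3,0)]⟩,.k,.k,(.x (-1) ⟨7,[(15,3),(7,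
  2),(0,2),(10,3),(0,1)]⟩ ⟨0,[(38,0)]⟩),(.x (-1) ⟨0,[(6,0),(6,0),(20,0),(3,0)]⟩ ⟨1,[(15,0),(12,0),
  (2,2),(3,2)]⟩),.k,.k,⟨true,(-1),⟨0,[(0,0)]⟩,⟨7,[(2,3),(11,1),(1,1),(6,0),(0,2),(7,1)]⟩⟩,⟨false,0,
  ⟨0,[(25,0),(5,0)]⟩,⟨0,[(6,0),(6,0),(12,0)]⟩⟩,⟨false,0,⟨0,[(41,0)]⟩,⟨5,[(12,1),(3,1),(6,0),(0,0),
  (18,3)]⟩⟩,⟨false,1,⟨1,[(2,1),(22,1),(5,2),(0,0)]⟩,⟨0,[(4,0),(1,0)]⟩⟩,⟨true,0,⟨0,[(45,0)]⟩,⟨0,[]⟩⟩,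
  ⟨false,1,⟨5,[(2,1),(11,1),(8,0),(0,2),(0,5),(3,1),(1,4),(0,0)]⟩,⟨0,[(4,0),(1,0),(34,0)]⟩⟩,[.o
  ⟨false,0,⟨0,[(29,0),(11,0)]⟩,⟨11,[(7,3),(4,3),(10,0),(0,0),(11,3),(6,5)]⟩⟩,.o ⟨false,1,⟨6,[(2,3),
  (10,0),(9,1),(5,1),(1,4),(7,0),(1,1)]⟩,⟨0,[(6,0)]⟩⟩,.o ⟨false,1,⟨1,[(26,1),(9,0),(5,0)]⟩,⟨3,[(5,
  1),(2,1),(15,0),(0,3),(10,0)]⟩⟩,.a ⟨true,0,⟨0,[(26,0)]⟩,⟨0,[(25,0)]⟩⟩ ⟨false,0,⟨0,[(0,0),(12,0)]⟩,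
  ⟨15,[(5,3),(6,3),(1,3),(8,2),(0,12),(6,3),(11,3)]⟩⟩ ⟨true,0,⟨0,[(25,0),(3,0),(11,0)]⟩,⟨0,[(6,0),
  (19,0)]⟩⟩]⟩) (.K ⟨1,[1,-1,0,-1],0,0,(⟨0,[(3,0)]⟩,⟨0,[(26,0),(11,0)]⟩),(.x (-1) ⟨7,[(15,3),(7,2),
  (0,2),(10,3),(0,1)]⟩ ⟨0,[(38,0)]⟩),(.r (-1) ⟨8,[(5,2),(3,1),(1,4),(1,8),(9,2),(15,0)]⟩ ⟨0,[(5,0),
  (18,0),(15,0)]⟩),.k,.k,.k,[⟨1,[(25,1),(5,0),(0,0)]⟩,⟨3,[(5,1),(2,1),(15,0),(1,3),(9,0)]⟩,⟨0,[(1,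
  0),(19,0),(3,0),(3,0)]⟩,⟨0,[(4,0),(36,0)]⟩]⟩)))) (.Q [0,1,1,1,0,0,0,0,1,1,0,-1] (.p false [0,0,0,
  1] [1] (⟨0,[(23,0)]⟩,⟨0,[(22,0)]⟩) .k 1 (⟨0,[]⟩,⟨0,[]⟩) .k .k) (.I [0,0,1,1,-1,0,0,-1,-1] (.R ⟨0,
  false,false,true,[1,0,0,-1],[0,-1,1],[1,1,-1,-1,0,0,0,1],(⟨0,[(24,0)]⟩,⟨0,[(25,0)]⟩),(⟨0,[(14,0),
  (1,0),(0,0)]⟩,⟨0,[(33,0),(3,0)]⟩),⟨0,[(2,0)]⟩,.k,.k,(.x (-1) ⟨7,[(14,3),(7,2),(0,2),(10,3),(0,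
  1)]⟩ ⟨0,[(37,0)]⟩),(.r 1 ⟨0,[(0,0)]⟩ ⟨3,[(12,3),(9,0),(0,2),(6,1),(0,1)]⟩),.k,.k,⟨true,0,⟨0,[]⟩,
  ⟨1,[(30,0),(0,0)]⟩⟩,⟨false,0,⟨0,[(24,0),(5,0)]⟩,⟨0,[(5,0),(6,0),(12,0)]⟩⟩,⟨true,1,⟨1,[(12,0),(7,
  0),(2,0),(4,0),(11,1)]⟩,⟨0,[(0,0)]⟩⟩,⟨false,1,⟨3,[(12,1),(0,0),(9,1),(0,3),(3,0),(1,4),(0,1),(8,
  2)]⟩,⟨0,[(3,0),(1,0)]⟩⟩,⟨false,0,⟨0,[]⟩,⟨0,[]⟩⟩,⟨false,0,⟨0,[]⟩,⟨0,[]⟩⟩,[.o ⟨false,0,⟨0,[(28,0),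
  (11,0)]⟩,⟨11,[(6,3),(4,3),(10,0),(0,0),(11,3),(6,5)]⟩⟩,.o ⟨false,1,⟨1,[(12,1),(17,2),(0,0)]⟩,⟨0,
  [(5,0)]⟩⟩,.o ⟨false,1,⟨1,[(25,1),(9,0),(5,0)]⟩,⟨3,[(1,0),(2,0),(2,1),(16,2),(10,0),(2,0)]⟩⟩,.a
  ⟨true,0,⟨0,[(25,0)]⟩,⟨0,[(24,0)]⟩⟩ ⟨false,1,⟨0,[(12,0)]⟩,⟨13,[(4,9),(6,1),(11,4),(5,5),(0,7),(1,
  5),(9,4)]⟩⟩ ⟨true,0,⟨0,[(24,0),(3,0),(11,0)]⟩,⟨0,[(5,0),(19,0)]⟩⟩]⟩) (.Q [0,0,0,-1,0,0,0,0,0,-1,0,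
  1] (.p true [0,0,0,1] [1] (⟨0,[(25,0)]⟩,⟨0,[(24,0)]⟩) .k 1 (⟨0,[]⟩,⟨0,[]⟩) .k .k) (.R ⟨0,false,
  false,true,[1,0,0,-1],[0,1],[1,1],(⟨0,[(25,0)]⟩,⟨0,[(26,0)]⟩),(⟨0,[(38,0)]⟩,⟨0,[(37,0)]⟩),⟨0,[(3,
  0)]⟩,.k,.k,(.x (-1) ⟨7,[(15,3),(7,2),(0,2),(10,3),(0,1)]⟩ ⟨0,[(38,0)]⟩),(.x (-1) ⟨7,[(15,3),(7,2),
  (0,2),(10,3),(0,1)]⟩ ⟨0,[(38,0)]⟩),.k,.k,⟨false,1,⟨11,[(9,3),(3,7),(9,0),(0,0),(17,1)]⟩,⟨7,[(5,3),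
  (17,0),(0,2),(15,3)]⟩⟩,⟨true,0,⟨0,[(25,0)]⟩,⟨7,[(0,3),(4,1),(18,0),(1,3),(1,1),(2,1),(4,0),(3,
  1)]⟩⟩,⟨false,1,⟨3,[(23,0),(0,2)]⟩,⟨17,[(4,3),(0,11),(3,3),(3,7),(9,0),(1,3),(10,1),(6,0)]⟩⟩,⟨true,
  0,⟨0,[(2,0)]⟩,⟨0,[(4,0),(3,0)]⟩⟩,⟨false,0,⟨0,[]⟩,⟨0,[]⟩⟩,⟨false,0,⟨0,[]⟩,⟨0,[]⟩⟩,[.o ⟨false,0,⟨0,
  [(40,0)]⟩,⟨0,[(8,0),(34,0)]⟩⟩,.e ⟨true,0,⟨0,[]⟩,⟨1,[(31,0),(0,0)]⟩⟩ ⟨true,0,⟨45,[(2,21),(2,11),(6,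
  3),(3,3),(6,4),(1,23),(17,6)]⟩,⟨0,[(0,0)]⟩⟩,.o ⟨false,1,⟨1,[(26,1),(9,0),(5,0)]⟩,⟨3,[(2,0),(2,0),
  (2,1),(16,2),(10,0),(2,0)]⟩⟩,.a ⟨true,0,⟨0,[(26,0)]⟩,⟨0,[(25,0)]⟩⟩ ⟨false,1,⟨3,[(23,0),(0,0),(17,
  1)]⟩,⟨3,[(31,0),(0,0),(6,1)]⟩⟩ ⟨true,0,⟨0,[(25,0),(14,0)]⟩,⟨0,[(0,0)]⟩⟩]⟩) (.R ⟨0,false,false,
  true,[1,0,0,-1],[0,1],[1,1],(⟨0,[(25,0)]⟩,⟨0,[(26,0)]⟩),(⟨0,[(38,0)]⟩,⟨0,[(37,0)]⟩),⟨0,[(3,0)]⟩,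
  .k,.k,(.x (-1) ⟨7,[(15,3),(7,2),(0,2),(10,3),(0,1)]⟩ ⟨0,[(38,0)]⟩),(.x (-1) ⟨7,[(15,3),(7,2),(0,
  2),(10,3),(0,1)]⟩ ⟨0,[(38,0)]⟩),.k,.k,⟨false,1,⟨11,[(9,3),(3,7),(9,0),(0,0),(17,1)]⟩,⟨7,[(5,3),
  (17,0),(0,2),(15,3)]⟩⟩,⟨true,0,⟨0,[(25,0)]⟩,⟨3,[(5,1),(2,1),(15,0),(1,3),(9,0)]⟩⟩,⟨false,1,⟨3,
  [(23,0),(0,2)]⟩,⟨41,[(0,3),(3,3),(0,31),(3,11),(3,23),(9,2),(12,1),(6,2)]⟩⟩,⟨true,0,⟨0,[(2,0)]⟩,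
  ⟨0,[(4,0),(3,0)]⟩⟩,⟨false,0,⟨0,[]⟩,⟨0,[]⟩⟩,⟨false,0,⟨0,[]⟩,⟨0,[]⟩⟩,[.o ⟨false,0,⟨0,[(40,0)]⟩,⟨0,
  [(8,0),(34,0)]⟩⟩,.a ⟨true,0,⟨0,[(0,0),(25,0)]⟩,⟨0,[(41,0)]⟩⟩ ⟨true,0,⟨0,[]⟩,⟨1,[(31,0),(0,0)]⟩⟩
  ⟨false,0,⟨0,[(0,0)]⟩,⟨5,[(11,1),(1,1),(12,5),(9,2),(6,0)]⟩⟩,.o ⟨false,1,⟨1,[(26,1),(9,0),(5,0)]⟩,
  ⟨3,[(2,0),(2,0),(2,1),(16,2),(10,0),(2,0)]⟩⟩,.e ⟨false,1,⟨3,[(23,0),(0,0),(17,1)]⟩,⟨3,[(31,0),(0,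
  0),(6,1)]⟩⟩ ⟨false,0,⟨0,[(0,0)]⟩,⟨0,[(8,0),(17,0),(16,0)]⟩⟩]⟩))) (.R ⟨0,false,false,false,[1,0,0,
  -1],[1,0,-1],[0,1,0,0,0,0,0,0,-1],(⟨0,[(23,0)]⟩,⟨0,[(24,0)]⟩),(⟨0,[(32,0)]⟩,⟨0,[(33,0)]⟩),⟨0,[(1,
  0)]⟩,.k,.k,(.x (-1) ⟨7,[(13,3),(7,2),(0,2),(10,3),(0,1)]⟩ ⟨0,[(36,0)]⟩),.k,.k,.k,⟨false,0,⟨0,[(0,
  0),(18,0),(3,0),(3,0)]⟩,⟨1,[(22,0),(8,1),(9,0)]⟩⟩,⟨true,0,⟨0,[(23,0),(2,0)]⟩,⟨4,[(1,2),(11,1),(1,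
  0),(4,0),(3,1),(4,0)]⟩⟩,⟨true,0,⟨0,[(43,0)]⟩,⟨0,[]⟩⟩,⟨false,1,⟨3,[(5,0),(1,0),(8,0),(5,1),(0,3),
  (2,1),(2,1),(11,1)]⟩,⟨0,[(2,0),(24,0)]⟩⟩,⟨false,0,⟨0,[]⟩,⟨0,[]⟩⟩,⟨false,0,⟨0,[]⟩,⟨0,[]⟩⟩,[.o
  ⟨false,0,⟨0,[(4,0),(34,0)]⟩,⟨3,[(21,0),(0,0),(4,3),(13,1)]⟩⟩,.o ⟨false,1,⟨7,[(5,1),(1,1),(8,1),(4,
  0),(0,0),(11,1),(6,3)]⟩,⟨0,[(27,0)]⟩⟩,.o ⟨false,1,⟨1,[(24,1),(9,0),(5,0)]⟩,⟨3,[(3,1),(2,1),(15,0),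
  (0,3),(10,0)]⟩⟩,.a ⟨true,0,⟨0,[(24,0)]⟩,⟨0,[(23,0)]⟩⟩ ⟨false,0,⟨0,[(0,0),(22,0),(14,0)]⟩,⟨1,[(22,
  0),(6,0),(0,0),(10,0)]⟩⟩ ⟨true,0,⟨0,[(4,0),(18,0),(15,0)]⟩,⟨0,[(24,0),(2,0)]⟩⟩]⟩))) (.K ⟨0,[0,0,0,
  1],0,0,(⟨0,[(22,0)]⟩,⟨0,[(21,0)]⟩),.k,(.r (-1) ⟨5,[(7,1),(1,1),(10,2),(18,0)]⟩ ⟨7,[(1,3),(17,2),
  (0,0),(15,3)]⟩),(.x 0 ⟨0,[(34,0)]⟩ ⟨7,[(11,3),(7,2),(0,2),(10,3),(0,1)]⟩),.k,.k,[⟨0,[(22,0)]⟩,⟨0,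
  [(21,0)]⟩,⟨2,[(1,2),(3,0),(1,1),(1,1),(2,1),(4,1),(4,2),(15,0)]⟩,⟨0,[(0,0)]⟩]⟩))))))

theorem ok155 : chk (cU (-1) true 10) t155 l84 = true := by decide +kernel

noncomputable def t173 : Tre :=
  (.Q [0,0,0,1,0,0,1,1,0,1,-1] (.p false [0,0,1] [1] (⟨0,[(32,0)]⟩,⟨0,[(31,0)]⟩) .k 1 (⟨0,[]⟩,⟨0,
  []⟩) .k .k) (.R ⟨1,false,false,true,[1,0,-1],[0,1],[0,1,2,1],(⟨0,[(32,0)]⟩,⟨0,[(33,0)]⟩),(⟨0,[(36,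
  0)]⟩,⟨0,[(35,0)]⟩),⟨0,[(18,0)]⟩,.k,.k,.k,.k,(.r (-1) ⟨31,[(1,29),(9,3),(3,5),(4,11),(7,5),(3,11),
  (2,5),(4,24),(0,2)]⟩ ⟨5,[(9,3),(4,1),(14,2),(0,4),(7,1)]⟩),.k,⟨true,0,⟨1,[(29,0),(0,0)]⟩,⟨0,[]⟩⟩,
  ⟨false,1,⟨15,[(15,3),(4,3),(0,0),(0,0),(9,7),(2,3),(4,13)]⟩,⟨0,[(26,0)]⟩⟩,⟨false,0,⟨1,[(9,0),(17,
  0),(1,0),(0,1)]⟩,⟨21,[(1,7),(9,5),(3,1),(1,19),(2,1),(11,3),(2,1),(4,14),(0,0)]⟩⟩,⟨false,0,⟨0,[(0,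
  0)]⟩,⟨15,[(1,7),(2,3),(16,2),(0,2),(11,1),(6,7)]⟩⟩,⟨false,0,⟨5,[(9,3),(4,1),(14,2),(0,4),(7,1)]⟩,
  ⟨10,[(1,7),(9,5),(3,1),(1,8),(2,1),(11,3),(2,1),(4,3),(0,0)]⟩⟩,⟨true,0,⟨0,[(0,0),(37,0)]⟩,⟨0,[(1,
  0)]⟩⟩,[.o ⟨false,0,⟨0,[(38,0)]⟩,⟨5,[(1,1),(0,0),(26,1),(4,1),(6,2)]⟩⟩,.a ⟨true,0,⟨2,[(0,0),(9,0),
  (12,1),(0,1)]⟩,⟨0,[(39,0)]⟩⟩ ⟨false,0,⟨9,[(9,1),(0,1),(18,4),(0,2),(7,1)]⟩,⟨31,[(1,9),(9,11),(3,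
  1),(4,3),(7,1),(3,3),(2,1),(4,18),(0,0)]⟩⟩ ⟨true,0,⟨5,[(0,1),(9,1),(9,2),(2,0),(0,0)]⟩,⟨0,[(26,0),
  (12,0)]⟩⟩,.o ⟨false,1,⟨9,[(5,1),(10,3),(4,2),(0,2),(11,1)]⟩,⟨0,[(17,0),(9,0)]⟩⟩,.o ⟨false,0,⟨0,
  [(26,0)]⟩,⟨7,[(20,3),(0,0),(0,0),(11,1),(5,3)]⟩⟩]⟩) (.Q [0,0,0,0,0,0,1,1,0,1,-1] (.p false [0,0,
  1] [1] (⟨0,[(33,0)]⟩,⟨0,[(32,0)]⟩) .k 1 (⟨0,[]⟩,⟨0,[]⟩) .k .k) (.R ⟨2,false,false,false,[0,1],[1,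
  0,-1],[1,0,1,0,0,0,0,-1],(⟨0,[]⟩,⟨0,[]⟩),(⟨0,[(33,0)]⟩,⟨0,[(34,0)]⟩),⟨0,[]⟩,.k,.k,.k,.k,.k,.k,
  ⟨false,0,⟨0,[]⟩,⟨3,[(22,0),(0,0),(17,1)]⟩⟩,⟨true,0,⟨0,[(27,0)]⟩,⟨1,[(21,0),(2,0),(0,0)]⟩⟩,⟨false,
  0,⟨3,[(2,1),(13,0),(1,1),(0,0),(13,0),(4,0)]⟩,⟨17,[(3,1),(6,7),(1,1),(2,3),(4,3),(1,6),(0,6)]⟩⟩,
  ⟨true,0,⟨0,[(1,0)]⟩,⟨0,[(0,0),(38,0)]⟩⟩,⟨false,0,⟨0,[(18,0)]⟩,⟨7,[(3,1),(9,1),(1,1),(6,2),(0,2),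
  (7,1)]⟩⟩,⟨false,1,⟨7,[(5,3),(16,0),(0,0),(11,1),(6,3)]⟩,⟨0,[(0,0)]⟩⟩,[.a ⟨true,0,⟨1,[(5,0),(18,0),
  (0,0)]⟩,⟨0,[(0,0)]⟩⟩ ⟨false,0,⟨0,[(32,0)]⟩,⟨35,[(3,1),(6,7),(1,19),(2,3),(4,3),(1,6),(0,6)]⟩⟩
  ⟨true,0,⟨1,[(5,0),(21,0),(2,0)]⟩,⟨0,[(0,0)]⟩⟩,.o ⟨false,1,⟨7,[(5,3),(16,0),(0,0),(11,1),(6,3)]⟩,
  ⟨0,[(28,0)]⟩⟩,.o ⟨false,1,⟨3,[(22,0),(0,0),(17,1)]⟩,⟨2,[(1,1),(13,1),(11,0),(2,0),(7,0)]⟩⟩,.e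
  ⟨false,0,⟨0,[(18,0)]⟩,⟨7,[(3,1),(9,1),(1,1),(6,2),(0,2),(7,1)]⟩⟩ ⟨false,1,⟨7,[(5,3),(16,0),(0,0),
  (11,1),(6,3)]⟩,⟨0,[(0,0)]⟩⟩]⟩) (.Q [0,0,0,-1,0,0,1,1,0,1,-1] (.p false [0,0,1] [1] (⟨0,[(34,0)]⟩,
  ⟨0,[(33,0)]⟩) .k 1 (⟨0,[]⟩,⟨0,[]⟩) .k .k) (.R ⟨2,false,false,false,[0,1],[1,1,-1],[1,0,1,1,0,0,0,
  -1],(⟨0,[]⟩,⟨0,[]⟩),(⟨0,[(34,0),(3,0)]⟩,⟨1,[(9,0),(25,0)]⟩),⟨0,[]⟩,.k,.k,.k,.k,.k,.k,⟨true,0,⟨0,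
  []⟩,⟨1,[(31,0),(0,0)]⟩⟩,⟨false,1,⟨19,[(7,11),(10,3),(4,2),(0,2),(11,1)]⟩,⟨1,[(22,0),(2,0),(0,
  0)]⟩⟩,⟨false,0,⟨0,[(19,0)]⟩,⟨4,[(0,0),(3,0),(6,0),(4,0),(1,0),(4,1),(0,1)]⟩⟩,⟨true,0,⟨0,[(1,0)]⟩,
  ⟨0,[(0,0),(39,0)]⟩⟩,⟨false,0,⟨1,[(1,1),(9,0),(5,0),(1,0),(0,0),(13,0)]⟩,⟨5,[(0,3),(3,0),(13,1),(4,
  1),(0,1),(11,0)]⟩⟩,⟨false,1,⟨11,[(5,3),(6,3),(10,0),(0,0),(11,3),(6,5)]⟩,⟨0,[(0,0)]⟩⟩,[.a ⟨true,0,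
  ⟨3,[(6,0),(5,1),(12,0),(0,0)]⟩,⟨0,[(0,0)]⟩⟩ ⟨false,0,⟨2,[(8,0),(3,0),(6,0),(2,0)]⟩,⟨3,[(4,1),(18,
  0),(0,0)]⟩⟩ ⟨true,0,⟨5,[(5,2),(2,0),(2,0),(16,1),(2,2)]⟩,⟨0,[(0,0)]⟩⟩,.o ⟨false,1,⟨11,[(5,3),(6,
  3),(10,0),(0,0),(11,3),(6,5)]⟩,⟨2,[(0,0),(2,0),(25,2)]⟩⟩,.o ⟨false,1,⟨3,[(23,0),(0,0),(17,1)]⟩,⟨2,
  [(1,0),(1,0),(12,1),(11,0),(2,0),(7,0)]⟩⟩,.e ⟨false,0,⟨1,[(1,1),(9,0),(5,0),(1,0),(0,0),(13,0)]⟩,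
  ⟨5,[(0,3),(3,0),(13,1),(4,1),(0,1),(11,0)]⟩⟩ ⟨false,1,⟨11,[(5,3),(6,3),(10,0),(0,0),(11,3),(6,
  5)]⟩,⟨0,[(0,0)]⟩⟩]⟩) (.Q [0,-1,1,2,0,0,0,0,1,1,0,-1] (.p false [0,0,0,1] [1] (⟨0,[(26,0)]⟩,⟨0,
  [(25,0)]⟩) .k 1 (⟨0,[]⟩,⟨0,[]⟩) .k .k) (.Q [0,1,0,0,0,0,2,2,0,1,-2] (.p false [0,0,1] [1,0,-1]
  (⟨0,[(36,0)]⟩,⟨0,[(35,0)]⟩) .k 2 (⟨0,[(35,0)]⟩,⟨0,[(36,0)]⟩) .k (.r (-1) ⟨3,[(5,1),(9,1),(1,1),(6,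
  0),(0,0),(7,1)]⟩ ⟨0,[(34,1)]⟩)) (.Q [0,-1,0,-1,0,0,-2,-2,0,-1,2] (.p true [0,0,1] [1,0,-1] (⟨0,
  [(37,0)]⟩,⟨0,[(36,0)]⟩) .k 2 (⟨0,[(36,0)]⟩,⟨0,[(37,0)]⟩) .k (.r (-1) ⟨9,[(0,3),(5,3),(6,3),(6,3),
  (4,2),(0,2)]⟩ ⟨0,[(35,1)]⟩)) (.R ⟨1,true,false,true,[1,0,-1],[0,0,1],[0,1,0,-1,0,0,0,-1],(⟨0,[(37,
  0)]⟩,⟨0,[(38,0)]⟩),(⟨0,[(38,0)]⟩,⟨0,[(37,0)]⟩),⟨0,[(23,0)]⟩,.k,.k,.k,.k,(.r 0 ⟨0,[(3,0),(2,0),(13,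
  0),(2,0),(13,0)]⟩ ⟨19,[(1,11),(5,1),(6,11),(6,11),(4,8),(0,8)]⟩),.k,⟨false,0,⟨0,[(3,0),(2,0),(13,
  0),(2,0),(13,0)]⟩,⟨49,[(1,13),(5,18),(6,33),(6,3),(2,19),(1,12),(0,12),(11,4)]⟩⟩,⟨true,0,⟨0,[(25,
  0)]⟩,⟨0,[(21,0)]⟩⟩,⟨false,0,⟨0,[(44,0)]⟩,⟨31,[(14,7),(0,7),(9,3),(0,6),(0,6),(11,1),(5,3),(0,
  11)]⟩⟩,⟨true,0,⟨0,[(1,0)]⟩,⟨0,[(9,0)]⟩⟩,⟨true,0,⟨0,[(48,0)]⟩,⟨0,[]⟩⟩,⟨false,1,⟨15,[(1,11),(12,7),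
  (10,3),(0,4),(0,4),(17,3),(0,1)]⟩,⟨0,[(0,0)]⟩⟩,[]⟩) (.Q [0,-1,0,-2,0,0,-2,-2,0,-1,2] (.p true [0,
  0,1] [1,0,-1] (⟨0,[(38,0)]⟩,⟨0,[(37,0)]⟩) .k 2 (⟨0,[(37,0)]⟩,⟨0,[(38,0)]⟩) .k (.r (-1) ⟨9,[(1,3),
  (5,3),(6,3),(6,3),(4,2),(0,2)]⟩ ⟨0,[(36,1)]⟩)) (.R ⟨1,true,false,true,[1,0,-1],[0,1,1],[0,1,0,-1,
  0,0,0,-1],(⟨0,[(38,0)]⟩,⟨0,[(39,0)]⟩),(⟨0,[(39,0),(2,0)]⟩,⟨0,[(24,0)]⟩),⟨0,[(24,0)]⟩,.k,.k,.k,(.r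
  0 ⟨0,[(4,0),(2,0),(13,0),(2,0),(13,0)]⟩ ⟨19,[(2,11),(5,1),(6,11),(6,11),(4,8),(0,8)]⟩),(.r (-1)
  ⟨1,[(0,0),(6,0),(18,1),(7,0),(11,1)]⟩ ⟨2,[(1,1),(13,1),(6,1),(12,0),(0,0)]⟩),.k,⟨true,0,⟨2,[(4,1),
  (2,3),(13,2),(2,2),(13,2)]⟩,⟨2,[(1,1),(13,1),(6,1),(12,0),(0,0)]⟩⟩,⟨false,1,⟨0,[(26,0),(19,0)]⟩,
  ⟨0,[(22,0)]⟩⟩,⟨false,0,⟨0,[(45,0)]⟩,⟨19,[(1,3),(14,7),(10,2),(0,2),(11,1),(6,11)]⟩⟩,⟨true,0,⟨0,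
  [(1,0)]⟩,⟨3,[(0,0),(6,0),(2,1),(23,0)]⟩⟩,⟨true,0,⟨0,[(49,0)]⟩,⟨0,[]⟩⟩,⟨false,1,⟨19,[(1,23),(14,7),
  (10,2),(0,2),(11,1),(6,11)]⟩,⟨0,[(0,0)]⟩⟩,[]⟩) (.I [1,-1,0,0,0,0,0,0,-1] (.Q [0,0,0,0,0,-1,0,0,0,
  1,0,-1] (.ed true [0,1,0,1] .k) (.Q [0,0,0,1,0,0,0,0,0,1,0,-1] (.p false [0,0,0,1] [1] (⟨0,[(32,
  0)]⟩,⟨0,[(31,0)]⟩) .k 1 (⟨0,[]⟩,⟨0,[]⟩) .k .k) (.R ⟨1,false,false,true,[1,0,0,-1],[0,1],[1,0,0,0,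
  0,0,0,0,-1],(⟨0,[(32,0)]⟩,⟨0,[(33,0)]⟩),(⟨0,[(45,0)]⟩,⟨0,[(44,0)]⟩),⟨0,[(1,0)]⟩,.k,.k,(.x (-1)
  ⟨15,[(16,3),(5,3),(7,6),(0,6),(11,1)]⟩ ⟨0,[(45,0)]⟩),(.x (-1) ⟨15,[(16,3),(5,3),(7,6),(0,6),(11,
  1)]⟩ ⟨0,[(45,0)]⟩),(.r (-1) ⟨3,[(2,3),(2,0),(4,1),(6,0),(2,2),(8,1),(7,2)]⟩ ⟨1,[(6,1),(26,1),(0,
  0),(0,0),(0,0),(1,0)]⟩),.k,⟨false,1,⟨13,[(2,11),(7,3),(9,5),(3,1),(1,1),(0,1),(2,0),(10,1),(7,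
  6)]⟩,⟨1,[(6,1),(3,0),(22,1),(0,0),(1,1),(15,0)]⟩⟩,⟨true,0,⟨0,[(32,0)]⟩,⟨8,[(7,1),(2,3),(12,5),(9,
  8),(1,2),(2,2),(7,2)]⟩⟩,⟨true,0,⟨0,[]⟩,⟨0,[(52,0)]⟩⟩,⟨false,0,⟨1,[(5,0),(0,1),(3,0),(26,0)]⟩,⟨39,
  [(2,33),(7,7),(0,3),(5,15),(11,11),(0,2),(2,39),(9,13),(6,2)]⟩⟩,⟨false,1,⟨11,[(3,1),(15,3),(10,1),
  (0,1),(11,0),(6,6)]⟩,⟨0,[(48,0)]⟩⟩,⟨false,0,⟨0,[(6,0),(45,0)]⟩,⟨9,[(2,7),(7,5),(0,2),(5,1),(11,3),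
  (0,0),(2,9),(9,2),(6,0)]⟩⟩,[.o ⟨false,0,⟨0,[(47,0)]⟩,⟨5,[(10,1),(0,0),(26,1),(4,1),(6,2)]⟩⟩,.a
  ⟨true,0,⟨0,[(0,0),(32,0)]⟩,⟨0,[(48,0)]⟩⟩ ⟨true,0,⟨0,[(2,0)]⟩,⟨0,[(6,0),(3,0),(22,0),(2,0),(15,
  0)]⟩⟩ ⟨false,0,⟨0,[(0,0)]⟩,⟨15,[(10,3),(6,3),(2,3),(8,3),(0,0),(0,0),(1,15),(9,5)]⟩⟩,.o ⟨false,1,
  ⟨1,[(33,1),(9,0),(5,0)]⟩,⟨8,[(7,1),(2,3),(12,5),(8,8),(2,2),(2,2),(7,2)]⟩⟩,.e ⟨false,1,⟨3,[(2,1),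
  (27,0),(18,1),(0,0)]⟩,⟨0,[(6,0),(3,0),(22,0),(2,0)]⟩⟩ ⟨false,0,⟨0,[(0,0)]⟩,⟨5,[(10,1),(0,0),(21,
  5),(4,1),(4,1),(6,2)]⟩⟩]⟩) (.R ⟨1,false,false,true,[1,0,0,-1],[0,1],[1,0,0,0,0,0,0,0,-1],(⟨0,[(32,
  0)]⟩,⟨0,[(33,0)]⟩),(⟨0,[(45,0)]⟩,⟨0,[(44,0)]⟩),⟨0,[(1,0)]⟩,.k,.k,(.x (-1) ⟨15,[(16,3),(5,3),(7,6),
  (0,6),(11,1)]⟩ ⟨0,[(45,0)]⟩),(.x (-1) ⟨15,[(16,3),(5,3),(7,6),(0,6),(11,1)]⟩ ⟨0,[(45,0)]⟩),(.r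
  (-1) ⟨3,[(2,3),(2,0),(4,1),(6,0),(2,2),(8,1),(7,2)]⟩ ⟨7,[(0,4),(4,0),(0,7),(26,2),(1,3),(1,1),(0,
  3),(8,4)]⟩),.k,⟨false,1,⟨13,[(2,11),(7,3),(9,5),(3,1),(1,1),(0,1),(2,0),(10,1),(7,6)]⟩,⟨0,[(0,0),
  (5,0),(45,1)]⟩⟩,⟨true,0,⟨0,[(32,0)]⟩,⟨5,[(0,2),(14,0),(2,0),(14,2),(1,1),(2,2)]⟩⟩,⟨true,0,⟨0,[]⟩,
  ⟨0,[(52,0)]⟩⟩,⟨false,0,⟨1,[(5,0),(0,1),(3,0),(26,0)]⟩,⟨3,[(0,3),(1,1),(27,0),(18,1),(0,0)]⟩⟩,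
  ⟨false,1,⟨11,[(3,1),(15,3),(10,1),(0,1),(11,0),(6,6)]⟩,⟨0,[(48,0)]⟩⟩,⟨false,0,⟨0,[(6,0),(45,0)]⟩,
  ⟨23,[(0,19),(1,9),(7,7),(9,11),(5,3),(2,3),(0,6),(2,3),(16,4)]⟩⟩,[.o ⟨false,0,⟨0,[(47,0)]⟩,⟨5,
  [(10,1),(0,0),(26,1),(4,1),(6,2)]⟩⟩,.e ⟨true,0,⟨0,[(2,0)]⟩,⟨1,[(0,1),(4,0),(0,1),(3,0),(26,0),(14,
  1)]⟩⟩ ⟨true,0,⟨9,[(18,1),(0,1),(12,9),(5,4),(0,2),(7,1)]⟩,⟨0,[(0,0)]⟩⟩,.o ⟨false,1,⟨1,[(33,1),(9,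
  0),(5,0)]⟩,⟨8,[(7,1),(2,3),(12,5),(8,8),(2,2),(2,2),(7,2)]⟩⟩,.a ⟨true,0,⟨0,[(33,0)]⟩,⟨0,[(32,
  0)]⟩⟩ ⟨false,1,⟨3,[(2,1),(27,0),(18,1),(0,0)]⟩,⟨1,[(0,1),(4,0),(0,1),(3,0),(26,0)]⟩⟩ ⟨true,0,⟨0,
  [(32,0),(14,0)]⟩,⟨0,[(0,0)]⟩⟩]⟩)) (.I [0,1,1,0,0,0,0,1,1] (.R ⟨0,false,false,true,[1,0,0,-1],[0,0,
  1],[1,0,0,0,0,0,0,0,-1],(⟨0,[(32,0)]⟩,⟨0,[(33,0)]⟩),(⟨0,[(42,0)]⟩,⟨0,[(41,0)]⟩),⟨0,[(1,0)]⟩,.k,.k,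
  (.x (-1) ⟨15,[(16,3),(5,3),(7,6),(0,6),(11,1)]⟩ ⟨0,[(45,0)]⟩),.k,.k,.k,⟨true,0,⟨0,[(2,0),(37,0)]⟩,
  ⟨0,[(0,0)]⟩⟩,⟨false,0,⟨0,[(26,0),(5,0),(3,0)]⟩,⟨19,[(14,11),(10,3),(4,2),(0,2),(1,19),(9,1)]⟩⟩,
  ⟨true,0,⟨0,[]⟩,⟨0,[(52,0)]⟩⟩,⟨false,0,⟨0,[(5,0),(0,0),(3,0)]⟩,⟨11,[(2,5),(9,3),(4,3),(8,3),(3,2),
  (2,11),(9,1),(5,1),(0,0)]⟩⟩,⟨false,0,⟨0,[]⟩,⟨0,[]⟩⟩,⟨false,0,⟨0,[]⟩,⟨0,[]⟩⟩,[.o ⟨false,0,⟨0,[(36,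
  0)]⟩,⟨7,[(13,3),(16,0),(0,0),(11,1),(6,3)]⟩⟩,.o ⟨false,1,⟨3,[(5,1),(24,0),(0,0),(11,0),(6,0)]⟩,⟨0,
  [(8,0)]⟩⟩,.o ⟨false,1,⟨1,[(33,1),(9,0),(5,0)]⟩,⟨8,[(7,1),(2,3),(12,5),(8,8),(2,2),(2,2),(7,2)]⟩⟩,
  .a ⟨true,0,⟨0,[(33,0)]⟩,⟨0,[(32,0)]⟩⟩ ⟨false,1,⟨3,[(2,1),(27,0),(18,1),(0,0)]⟩,⟨0,[(0,0),(25,
  0)]⟩⟩ ⟨true,0,⟨0,[(32,0),(3,0)]⟩,⟨14,[(1,7),(8,2),(1,5),(3,1),(5,1),(10,6)]⟩⟩]⟩) (.R ⟨0,false,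
  false,true,[1,0,0,-1],[0,1],[1,0,0,0,0,0,0,0,-1],(⟨0,[(32,0)]⟩,⟨0,[(33,0)]⟩),(⟨0,[(45,0)]⟩,⟨0,
  [(44,0)]⟩),⟨0,[(1,0)]⟩,.k,.k,(.x (-1) ⟨15,[(16,3),(5,3),(7,6),(0,6),(11,1)]⟩ ⟨0,[(45,0)]⟩),(.x
  (-1) ⟨15,[(16,3),(5,3),(7,6),(0,6),(11,1)]⟩ ⟨0,[(45,0)]⟩),.k,.k,⟨false,1,⟨34,[(0,22),(9,3),(0,3),
  (8,18),(3,0),(4,0),(0,5),(10,1),(2,0),(5,5)]⟩,⟨1,[(6,1),(3,0),(22,1),(0,0),(1,1),(15,0)]⟩⟩,⟨true,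
  0,⟨0,[(32,0)]⟩,⟨5,[(1,3),(14,0),(5,0),(10,1),(1,2),(2,2)]⟩⟩,⟨true,0,⟨0,[]⟩,⟨0,[(52,0)]⟩⟩,⟨false,0,
  ⟨1,[(5,0),(0,1),(3,0),(26,0)]⟩,⟨39,[(0,15),(1,13),(7,7),(0,11),(17,3),(0,4),(2,39),(9,17),(6,
  4)]⟩⟩,⟨false,0,⟨0,[]⟩,⟨0,[]⟩⟩,⟨false,0,⟨0,[]⟩,⟨0,[]⟩⟩,[.o ⟨false,0,⟨0,[(47,0)]⟩,⟨5,[(10,1),(0,0),
  (26,1),(4,1),(6,2)]⟩⟩,.a ⟨true,0,⟨6,[(0,0),(2,0),(2,0),(12,0),(8,0),(3,4),(0,5)]⟩,⟨0,[(48,0)]⟩⟩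
  ⟨true,0,⟨0,[(2,0)]⟩,⟨0,[(6,0),(3,0),(22,0),(2,0),(15,0)]⟩⟩ ⟨false,0,⟨5,[(0,0),(2,0),(2,0),(0,0),
  (20,0),(3,4)]⟩,⟨15,[(10,3),(6,3),(2,3),(8,3),(0,0),(0,0),(1,15),(9,5)]⟩⟩,.o ⟨false,1,⟨1,[(33,1),
  (9,0),(5,0)]⟩,⟨8,[(7,1),(2,3),(12,5),(8,8),(2,2),(2,2),(7,2)]⟩⟩,.e ⟨false,1,⟨17,[(0,5),(17,1),(1,
  3),(9,5),(18,2),(0,4)]⟩,⟨0,[(6,0),(3,0),(22,0),(2,0)]⟩⟩ ⟨false,0,⟨5,[(0,0),(2,0),(2,0),(0,0),(20,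
  0),(3,4)]⟩,⟨5,[(10,1),(0,0),(21,5),(4,1),(4,1),(6,2)]⟩⟩]⟩))) (.Q [0,0,0,0,0,-1,0,0,0,1,0,-1] (.ed
  true [0,1,0,1] .k) (.R ⟨1,false,false,false,[1,0,0,-1],[1,0,-1],[0,0,0,-1,0,0,0,0,-1],(⟨0,[(31,
  0)]⟩,⟨0,[(32,0)]⟩),(⟨0,[(40,0)]⟩,⟨0,[(41,0)]⟩),⟨0,[(0,0)]⟩,.k,.k,(.x (-1) ⟨15,[(15,3),(5,3),(7,6),
  (0,6),(11,1)]⟩ ⟨0,[(44,0)]⟩),.k,(.r (-1) ⟨1,[(10,0),(18,0)]⟩ ⟨2,[(1,1),(3,0),(5,0),(13,0),(6,0),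
  (4,1)]⟩),.k,⟨false,1,⟨1,[(10,0),(18,0)]⟩,⟨3,[(1,3),(4,1),(10,0),(5,0),(1,2),(0,0),(13,0)]⟩⟩,⟨true,
  0,⟨0,[(31,0),(2,0)]⟩,⟨0,[(25,0),(6,0),(2,0)]⟩⟩,⟨true,0,⟨0,[(47,0)]⟩,⟨0,[(46,0)]⟩⟩,⟨false,0,⟨0,[(5,
  0),(3,0)]⟩,⟨1,[(10,0),(11,1),(2,1),(3,0),(2,1)]⟩⟩,⟨false,1,⟨3,[(29,0),(0,0),(18,1)]⟩,⟨0,[]⟩⟩,
  ⟨false,0,⟨2,[(5,2),(0,0),(2,1)]⟩,⟨1,[(10,0),(14,1),(3,0),(2,1),(2,1)]⟩⟩,[.o ⟨false,0,⟨0,[(7,0)]⟩,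
  ⟨3,[(4,1),(24,0),(0,0),(11,0),(6,0)]⟩⟩,.o ⟨false,1,⟨7,[(12,3),(16,0),(0,0),(11,1),(6,3)]⟩,⟨0,[(35,
  0)]⟩⟩,.o ⟨false,1,⟨1,[(32,1),(9,0),(5,0)]⟩,⟨8,[(6,1),(2,3),(12,5),(8,8),(2,2),(2,2),(7,2)]⟩⟩,.a
  ⟨true,0,⟨0,[(32,0)]⟩,⟨0,[(31,0)]⟩⟩ ⟨false,1,⟨1,[(10,0),(14,1),(3,0)]⟩,⟨15,[(1,12),(3,2),(5,1),(5,
  3),(14,2),(1,0),(2,4),(7,2)]⟩⟩ ⟨true,0,⟨2,[(6,1),(2,0),(21,2)]⟩,⟨0,[(32,0),(2,0)]⟩⟩]⟩) (.R ⟨0,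
  false,false,false,[1,0,0,-1],[1,0,-1],[0,0,0,-1,0,0,0,0,-1],(⟨0,[(31,0)]⟩,⟨0,[(32,0)]⟩),(⟨0,[(40,
  0)]⟩,⟨0,[(41,0)]⟩),⟨0,[(0,0)]⟩,.k,.k,(.x (-1) ⟨15,[(15,3),(5,3),(7,6),(0,6),(11,1)]⟩ ⟨0,[(44,
  0)]⟩),.k,.k,.k,⟨false,1,⟨1,[(10,0),(18,0)]⟩,⟨3,[(0,0),(0,2),(3,0),(0,1),(16,0),(1,1),(0,1)]⟩⟩,
  ⟨true,0,⟨0,[(31,0),(2,0)]⟩,⟨5,[(0,3),(14,0),(5,0),(6,2),(3,1)]⟩⟩,⟨true,0,⟨0,[(47,0)]⟩,⟨0,[(46,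
  0)]⟩⟩,⟨false,0,⟨0,[(5,0),(3,0)]⟩,⟨7,[(0,5),(1,1),(7,0),(8,1),(1,3),(1,1),(5,3),(2,1),(16,0)]⟩⟩,
  ⟨false,0,⟨0,[]⟩,⟨0,[]⟩⟩,⟨false,0,⟨0,[]⟩,⟨0,[]⟩⟩,[.o ⟨false,0,⟨0,[(7,0)]⟩,⟨3,[(4,1),(24,0),(0,0),
  (11,0),(6,0)]⟩⟩,.o ⟨false,1,⟨7,[(12,3),(16,0),(0,0),(11,1),(6,3)]⟩,⟨0,[(35,0)]⟩⟩,.o ⟨false,1,⟨1,
  [(32,1),(9,0),(5,0)]⟩,⟨8,[(6,1),(2,3),(12,5),(8,8),(2,2),(2,2),(7,2)]⟩⟩,.a ⟨true,0,⟨0,[(32,0)]⟩,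
  ⟨0,[(31,0)]⟩⟩ ⟨false,1,⟨1,[(10,0),(14,1),(3,0)]⟩,⟨15,[(1,12),(3,2),(5,1),(5,3),(14,2),(1,0),(2,4),
  (7,2)]⟩⟩ ⟨true,0,⟨2,[(6,1),(2,0),(21,2)]⟩,⟨0,[(32,0),(2,0)]⟩⟩]⟩))))) (.I [1,-1,0,0,0,0,0,0,-1]
  (.Q [0,0,0,0,0,-1,0,0,0,1,0,-1] (.ed true [0,1,0,1] .k) (.Q [0,0,0,1,0,0,0,0,0,1,0,-1] (.p false
  [0,0,0,1] [1] (⟨0,[(30,0)]⟩,⟨0,[(29,0)]⟩) .k 1 (⟨0,[]⟩,⟨0,[]⟩) .k .k) (.R ⟨1,false,false,true,[1,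
  0,0,-1],[0,1],[1,0,0,0,0,0,0,0,-1],(⟨0,[(30,0)]⟩,⟨0,[(31,0)]⟩),(⟨0,[(43,0)]⟩,⟨0,[(42,0)]⟩),⟨0,[(1,
  0)]⟩,.k,.k,(.x (-1) ⟨15,[(14,3),(5,3),(7,6),(0,6),(11,1)]⟩ ⟨0,[(43,0)]⟩),(.x (-1) ⟨15,[(14,3),(5,
  3),(7,6),(0,6),(11,1)]⟩ ⟨0,[(43,0)]⟩),(.r (-1) ⟨4,[(2,2),(5,2),(6,0),(2,2),(3,1),(2,1),(2,0),(10,
  1),(10,2)]⟩ ⟨1,[(4,1),(26,1),(0,0),(0,0),(0,0),(1,0)]⟩),.k,⟨false,1,⟨13,[(2,11),(5,3),(9,5),(3,1),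
  (1,1),(0,1),(2,0),(10,1),(7,6)]⟩,⟨1,[(4,1),(3,0),(22,1),(0,0),(1,1),(15,0)]⟩⟩,⟨true,0,⟨0,[(30,
  0)]⟩,⟨8,[(5,1),(2,3),(12,5),(9,8),(1,2),(2,2),(7,2)]⟩⟩,⟨true,0,⟨0,[]⟩,⟨0,[(50,0)]⟩⟩,⟨false,0,⟨0,
  [(4,0),(41,0),(3,0)]⟩,⟨39,[(2,33),(5,7),(0,3),(5,15),(11,11),(0,2),(2,39),(9,13),(6,2)]⟩⟩,⟨false,
  1,⟨31,[(16,7),(0,7),(9,3),(0,6),(0,6),(11,1),(5,3),(0,11)]⟩,⟨0,[(46,0)]⟩⟩,⟨false,0,⟨0,[(4,0),(45,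
  0)]⟩,⟨9,[(2,7),(5,5),(0,2),(5,1),(11,3),(0,0),(2,9),(9,2),(6,0)]⟩⟩,[.o ⟨false,0,⟨0,[(45,0)]⟩,⟨5,
  [(8,1),(0,0),(26,1),(4,1),(6,2)]⟩⟩,.a ⟨true,0,⟨0,[(0,0),(30,0)]⟩,⟨0,[(46,0)]⟩⟩ ⟨true,0,⟨0,[(2,
  0)]⟩,⟨0,[(4,0),(3,0),(22,0),(2,0),(15,0)]⟩⟩ ⟨false,0,⟨0,[(0,0)]⟩,⟨15,[(8,3),(6,3),(2,3),(8,3),(0,
  0),(0,0),(1,15),(9,5)]⟩⟩,.o ⟨false,1,⟨1,[(31,1),(9,0),(5,0)]⟩,⟨8,[(5,1),(2,3),(12,5),(8,8),(2,2),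
  (2,2),(7,2)]⟩⟩,.e ⟨false,1,⟨3,[(2,1),(25,0),(18,1),(0,0)]⟩,⟨0,[(4,0),(3,0),(22,0),(2,0)]⟩⟩ ⟨false,
  0,⟨0,[(0,0)]⟩,⟨5,[(8,1),(0,0),(21,5),(4,1),(4,1),(6,2)]⟩⟩]⟩) (.R ⟨1,false,false,true,[1,0,0,-1],
  [0,1],[1,0,0,0,0,0,0,0,-1],(⟨0,[(30,0)]⟩,⟨0,[(31,0)]⟩),(⟨0,[(43,0)]⟩,⟨0,[(42,0)]⟩),⟨0,[(1,0)]⟩,.k,
  .k,(.x (-1) ⟨15,[(14,3),(5,3),(7,6),(0,6),(11,1)]⟩ ⟨0,[(43,0)]⟩),(.x (-1) ⟨15,[(14,3),(5,3),(7,6),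
  (0,6),(11,1)]⟩ ⟨0,[(43,0)]⟩),(.r (-1) ⟨4,[(2,2),(5,2),(6,0),(2,2),(3,1),(2,1),(2,0),(10,1),(10,
  2)]⟩ ⟨2,[(0,1),(3,2),(18,0),(7,0),(4,1),(8,1),(4,0)]⟩),.k,⟨false,1,⟨13,[(2,11),(5,3),(9,5),(3,1),
  (1,1),(0,1),(2,0),(10,1),(7,6)]⟩,⟨0,[(0,0),(3,0),(45,1)]⟩⟩,⟨true,0,⟨0,[(30,0)]⟩,⟨5,[(0,2),(12,0),
  (2,0),(14,2),(1,1),(2,2)]⟩⟩,⟨true,0,⟨0,[]⟩,⟨0,[(50,0)]⟩⟩,⟨false,0,⟨0,[(4,0),(41,0),(3,0)]⟩,⟨3,[(0,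
  3),(1,1),(25,0),(18,1),(0,0)]⟩⟩,⟨false,1,⟨31,[(16,7),(0,7),(9,3),(0,6),(0,6),(11,1),(5,3),(0,
  11)]⟩,⟨0,[(46,0)]⟩⟩,⟨false,0,⟨0,[(4,0),(45,0)]⟩,⟨1,[(0,1),(8,0),(14,1),(3,0)]⟩⟩,[.o ⟨false,0,⟨0,
  [(45,0)]⟩,⟨5,[(8,1),(0,0),(26,1),(4,1),(6,2)]⟩⟩,.e ⟨true,0,⟨0,[(2,0)]⟩,⟨0,[(0,0),(3,0),(41,0),(3,
  1)]⟩⟩ ⟨true,0,⟨9,[(16,1),(0,1),(12,9),(5,4),(0,2),(7,1)]⟩,⟨0,[(0,0)]⟩⟩,.o ⟨false,1,⟨1,[(31,1),(9,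
  0),(5,0)]⟩,⟨8,[(5,1),(2,3),(12,5),(8,8),(2,2),(2,2),(7,2)]⟩⟩,.a ⟨true,0,⟨0,[(31,0)]⟩,⟨0,[(30,
  0)]⟩⟩ ⟨false,1,⟨3,[(2,1),(25,0),(18,1),(0,0)]⟩,⟨0,[(0,0),(3,0),(41,0),(3,0)]⟩⟩ ⟨true,0,⟨0,[(30,0),
  (14,0)]⟩,⟨0,[(0,0)]⟩⟩]⟩)) (.Q [0,0,0,-1,0,0,0,0,0,-1,0,1] (.p true [0,0,0,1] [1] (⟨0,[(30,0)]⟩,⟨0,
  [(29,0)]⟩) .k 1 (⟨0,[]⟩,⟨0,[]⟩) .k .k) (.R ⟨0,false,false,true,[1,0,0,-1],[0,1],[1,0,0,0,0,0,0,0,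
  -1],(⟨0,[(30,0)]⟩,⟨0,[(31,0)]⟩),(⟨0,[(43,0)]⟩,⟨0,[(42,0)]⟩),⟨0,[(1,0)]⟩,.k,.k,(.x (-1) ⟨15,[(14,
  3),(5,3),(7,6),(0,6),(11,1)]⟩ ⟨0,[(43,0)]⟩),(.x (-1) ⟨15,[(14,3),(5,3),(7,6),(0,6),(11,1)]⟩ ⟨0,
  [(43,0)]⟩),.k,.k,⟨false,1,⟨13,[(2,11),(5,3),(9,5),(3,1),(1,1),(0,1),(2,0),(10,1),(7,6)]⟩,⟨0,[(0,
  0),(3,0),(45,1)]⟩⟩,⟨true,0,⟨0,[(30,0)]⟩,⟨5,[(0,2),(12,0),(2,0),(14,2),(1,1),(2,2)]⟩⟩,⟨true,0,⟨0,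
  []⟩,⟨0,[(50,0)]⟩⟩,⟨false,0,⟨0,[(4,0),(41,0),(3,0)]⟩,⟨3,[(0,3),(1,1),(25,0),(18,1),(0,0)]⟩⟩,⟨false,
  0,⟨0,[]⟩,⟨0,[]⟩⟩,⟨false,0,⟨0,[]⟩,⟨0,[]⟩⟩,[.o ⟨false,0,⟨0,[(45,0)]⟩,⟨5,[(8,1),(0,0),(26,1),(4,1),
  (6,2)]⟩⟩,.e ⟨true,0,⟨0,[(2,0)]⟩,⟨0,[(0,0),(3,0),(41,0),(3,1)]⟩⟩ ⟨true,0,⟨9,[(16,1),(0,1),(12,9),
  (5,4),(0,2),(7,1)]⟩,⟨0,[(0,0)]⟩⟩,.o ⟨false,1,⟨1,[(31,1),(9,0),(5,0)]⟩,⟨8,[(5,1),(2,3),(12,5),(8,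
  8),(2,2),(2,2),(7,2)]⟩⟩,.a ⟨true,0,⟨0,[(31,0)]⟩,⟨0,[(30,0)]⟩⟩ ⟨false,1,⟨3,[(2,1),(25,0),(18,1),(0,
  0)]⟩,⟨0,[(0,0),(3,0),(41,0),(3,0)]⟩⟩ ⟨true,0,⟨0,[(30,0),(14,0)]⟩,⟨0,[(0,0)]⟩⟩]⟩) (.R ⟨0,false,
  false,true,[1,0,0,-1],[0,1],[1,0,0,0,0,0,0,0,-1],(⟨0,[(30,0)]⟩,⟨0,[(31,0)]⟩),(⟨0,[(43,0)]⟩,⟨0,
  [(42,0)]⟩),⟨0,[(1,0)]⟩,.k,.k,(.x (-1) ⟨15,[(14,3),(5,3),(7,6),(0,6),(11,1)]⟩ ⟨0,[(43,0)]⟩),(.x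
  (-1) ⟨15,[(14,3),(5,3),(7,6),(0,6),(11,1)]⟩ ⟨0,[(43,0)]⟩),.k,.k,⟨false,1,⟨13,[(2,11),(5,3),(9,5),
  (3,1),(1,1),(0,1),(2,0),(10,1),(7,6)]⟩,⟨1,[(4,1),(3,0),(22,1),(0,0),(1,1),(15,0)]⟩⟩,⟨true,0,⟨0,
  [(30,0)]⟩,⟨5,[(1,3),(12,0),(5,0),(10,1),(1,2),(2,2)]⟩⟩,⟨true,0,⟨0,[]⟩,⟨0,[(50,0)]⟩⟩,⟨false,0,⟨0,
  [(4,0),(41,0),(3,0)]⟩,⟨39,[(2,33),(5,7),(0,3),(5,15),(11,11),(0,2),(2,39),(9,13),(6,2)]⟩⟩,⟨false,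
  0,⟨0,[]⟩,⟨0,[]⟩⟩,⟨false,0,⟨0,[]⟩,⟨0,[]⟩⟩,[.o ⟨false,0,⟨0,[(45,0)]⟩,⟨5,[(8,1),(0,0),(26,1),(4,1),
  (6,2)]⟩⟩,.a ⟨true,0,⟨0,[(0,0),(30,0)]⟩,⟨0,[(46,0)]⟩⟩ ⟨true,0,⟨0,[(2,0)]⟩,⟨0,[(4,0),(3,0),(22,0),
  (2,0),(15,0)]⟩⟩ ⟨false,0,⟨0,[(0,0)]⟩,⟨15,[(8,3),(6,3),(2,3),(8,3),(0,0),(0,0),(1,15),(9,5)]⟩⟩,.o
  ⟨false,1,⟨1,[(31,1),(9,0),(5,0)]⟩,⟨8,[(5,1),(2,3),(12,5),(8,8),(2,2),(2,2),(7,2)]⟩⟩,.e ⟨false,1,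
  ⟨3,[(2,1),(25,0),(18,1),(0,0)]⟩,⟨0,[(4,0),(3,0),(22,0),(2,0)]⟩⟩ ⟨false,0,⟨0,[(0,0)]⟩,⟨5,[(8,1),(0,
  0),(21,5),(4,1),(4,1),(6,2)]⟩⟩]⟩))) (.Q [0,0,0,0,0,-1,0,0,0,1,0,-1] (.ed true [0,1,0,1] .k) (.R
  ⟨1,false,false,false,[1,0,0,-1],[1,0,-1],[0,0,0,-1,0,0,0,0,-1],(⟨0,[(29,0)]⟩,⟨0,[(30,0)]⟩),(⟨0,
  [(38,0)]⟩,⟨0,[(39,0)]⟩),⟨0,[(0,0)]⟩,.k,.k,(.x (-1) ⟨15,[(13,3),(5,3),(7,6),(0,6),(11,1)]⟩ ⟨0,[(42,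
  0)]⟩),.k,(.r (-1) ⟨1,[(8,0),(18,0)]⟩ ⟨2,[(1,1),(1,0),(5,0),(13,0),(6,0),(4,1)]⟩),.k,⟨false,1,⟨1,
  [(8,0),(18,0)]⟩,⟨3,[(1,3),(2,1),(10,0),(5,0),(1,2),(0,0),(13,0)]⟩⟩,⟨true,0,⟨0,[(29,0),(2,0)]⟩,⟨0,
  [(23,0),(6,0),(2,0)]⟩⟩,⟨true,0,⟨0,[(45,0)]⟩,⟨0,[(44,0)]⟩⟩,⟨false,0,⟨0,[(3,0),(3,0)]⟩,⟨1,[(8,0),
  (11,1),(2,1),(3,0),(2,1)]⟩⟩,⟨false,1,⟨3,[(27,0),(0,0),(18,1)]⟩,⟨0,[]⟩⟩,⟨false,0,⟨2,[(3,2),(0,0),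
  (2,1)]⟩,⟨1,[(8,0),(14,1),(3,0),(2,1),(2,1)]⟩⟩,[.o ⟨false,0,⟨0,[(5,0)]⟩,⟨3,[(8,0),(11,1),(6,0),(0,
  0),(6,1),(11,0)]⟩⟩,.o ⟨false,1,⟨3,[(2,1),(24,0),(0,0),(11,0),(6,0)]⟩,⟨0,[(33,0)]⟩⟩,.o ⟨false,1,⟨1,
  [(30,1),(9,0),(5,0)]⟩,⟨8,[(4,1),(2,3),(12,5),(8,8),(2,2),(2,2),(7,2)]⟩⟩,.a ⟨true,0,⟨0,[(30,0)]⟩,
  ⟨0,[(29,0)]⟩⟩ ⟨false,1,⟨1,[(8,0),(14,1),(3,0)]⟩,⟨6,[(1,4),(1,1),(0,0),(10,0),(14,1),(1,0),(2,1),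
  (7,0)]⟩⟩ ⟨true,0,⟨2,[(4,1),(2,0),(21,2)]⟩,⟨0,[(30,0),(2,0)]⟩⟩]⟩) (.R ⟨0,false,false,false,[1,0,0,
  -1],[1,0,-1],[0,0,0,-1,0,0,0,0,-1],(⟨0,[(29,0)]⟩,⟨0,[(30,0)]⟩),(⟨0,[(38,0)]⟩,⟨0,[(39,0)]⟩),⟨0,[(0,
  0)]⟩,.k,.k,(.x (-1) ⟨15,[(13,3),(5,3),(7,6),(0,6),(11,1)]⟩ ⟨0,[(42,0)]⟩),.k,.k,.k,⟨false,1,⟨1,[(8,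
  0),(18,0)]⟩,⟨3,[(0,0),(0,2),(1,0),(0,1),(16,0),(1,1),(0,1)]⟩⟩,⟨true,0,⟨0,[(29,0),(2,0)]⟩,⟨5,[(0,
  3),(12,0),(5,0),(6,2),(3,1)]⟩⟩,⟨true,0,⟨0,[(45,0)]⟩,⟨0,[(44,0)]⟩⟩,⟨false,0,⟨0,[(3,0),(3,0)]⟩,⟨9,
  [(0,5),(7,0),(6,1),(1,3),(1,3),(0,1),(0,1),(4,1),(0,4),(2,3)]⟩⟩,⟨false,0,⟨0,[]⟩,⟨0,[]⟩⟩,⟨false,0,
  ⟨0,[]⟩,⟨0,[]⟩⟩,[.o ⟨false,0,⟨0,[(5,0)]⟩,⟨3,[(8,0),(11,1),(6,0),(0,0),(6,1),(11,0)]⟩⟩,.o ⟨false,1,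
  ⟨3,[(2,1),(24,0),(0,0),(11,0),(6,0)]⟩,⟨0,[(33,0)]⟩⟩,.o ⟨false,1,⟨1,[(30,1),(9,0),(5,0)]⟩,⟨8,[(4,
  1),(2,3),(12,5),(8,8),(2,2),(2,2),(7,2)]⟩⟩,.a ⟨true,0,⟨0,[(30,0)]⟩,⟨0,[(29,0)]⟩⟩ ⟨false,1,⟨1,[(8,
  0),(14,1),(3,0)]⟩,⟨6,[(1,4),(1,1),(0,0),(10,0),(14,1),(1,0),(2,1),(7,0)]⟩⟩ ⟨true,0,⟨2,[(4,1),(2,
  0),(21,2)]⟩,⟨0,[(30,0),(2,0)]⟩⟩]⟩)))) (.I [0,0,-2,-2,0,0,0,-1,-1] (.Q [0,0,0,0,0,-1,0,0,0,1,0,-1]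
  (.ed true [0,1,0,1] .k) (.R ⟨1,false,false,false,[1,0,0,-1],[1,0,-1],[1,1,0,0,0,0,0,0,-1],(⟨0,
  [(28,0)]⟩,⟨0,[(29,0)]⟩),(⟨0,[(37,0)]⟩,⟨0,[(38,0)]⟩),⟨0,[(0,0)]⟩,.k,.k,(.x (-1) ⟨15,[(12,3),(5,3),
  (7,6),(0,6),(11,1)]⟩ ⟨0,[(41,0)]⟩),.k,(.x 0 ⟨44,[(3,3),(2,7),(5,26),(6,11),(0,8),(4,11),(8,2),(7,
  5)]⟩ ⟨9,[(10,1),(10,3),(4,2),(0,2),(9,9),(1,1),(1,9)]⟩),.k,⟨false,0,⟨0,[(1,0),(15,0),(6,0),(7,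
  0)]⟩,⟨1,[(27,0),(8,1),(9,0)]⟩⟩,⟨true,0,⟨0,[(28,0),(2,0)]⟩,⟨0,[(22,0),(6,0),(2,0)]⟩⟩,⟨false,0,⟨0,
  []⟩,⟨3,[(26,0),(0,0),(18,1)]⟩⟩,⟨false,1,⟨1,[(9,0),(17,0),(0,1),(2,0),(2,0),(11,0)]⟩,⟨0,[(1,0),(12,
  0),(14,0),(2,0)]⟩⟩,⟨true,0,⟨0,[(43,0)]⟩,⟨0,[(44,0)]⟩⟩,⟨false,1,⟨39,[(8,23),(5,7),(11,0),(0,20),(0,
  39),(2,11),(2,19),(4,1),(6,15)]⟩,⟨0,[(1,0),(15,0),(11,0),(2,0)]⟩⟩,[.o ⟨false,0,⟨0,[(4,0)]⟩,⟨3,[(7,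
  0),(11,1),(6,0),(0,0),(6,1),(11,0)]⟩⟩,.o ⟨false,1,⟨7,[(9,3),(16,0),(0,0),(11,1),(6,3)]⟩,⟨0,[(32,
  0)]⟩⟩,.o ⟨false,1,⟨1,[(29,1),(9,0),(5,0)]⟩,⟨8,[(3,1),(2,3),(12,5),(8,8),(2,2),(2,2),(7,2)]⟩⟩,.a
  ⟨true,0,⟨0,[(29,0)]⟩,⟨0,[(28,0)]⟩⟩ ⟨false,0,⟨3,[(1,2),(0,0),(11,2),(13,0),(14,1)]⟩,⟨1,[(27,0),(6,
  0),(0,0),(10,0)]⟩⟩ ⟨true,0,⟨2,[(3,1),(2,0),(21,2)]⟩,⟨0,[(29,0),(2,0)]⟩⟩]⟩) (.R ⟨0,false,false,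
  false,[1,0,0,-1],[1,0,-1],[0,1,0,0,0,0,0,0,-1],(⟨0,[(28,0)]⟩,⟨0,[(29,0)]⟩),(⟨0,[(37,0)]⟩,⟨0,[(38,
  0)]⟩),⟨0,[(0,0)]⟩,.k,.k,(.x (-1) ⟨15,[(12,3),(5,3),(7,6),(0,6),(11,1)]⟩ ⟨0,[(41,0)]⟩),.k,.k,.k,
  ⟨false,0,⟨0,[(1,0),(15,0),(6,0),(7,0)]⟩,⟨1,[(27,0),(8,1),(9,0)]⟩⟩,⟨true,0,⟨0,[(28,0),(2,0)]⟩,⟨5,
  [(0,3),(11,0),(5,0),(6,2),(3,1)]⟩⟩,⟨true,0,⟨0,[(48,0)]⟩,⟨0,[]⟩⟩,⟨false,1,⟨1,[(9,0),(17,0),(0,1),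
  (2,0),(2,0),(11,0)]⟩,⟨0,[(1,0),(12,0),(14,0),(2,0)]⟩⟩,⟨false,0,⟨0,[]⟩,⟨0,[]⟩⟩,⟨false,0,⟨0,[]⟩,⟨0,
  []⟩⟩,[.o ⟨false,0,⟨0,[(4,0)]⟩,⟨3,[(7,0),(11,1),(6,0),(0,0),(6,1),(11,0)]⟩⟩,.o ⟨false,1,⟨7,[(9,3),
  (16,0),(0,0),(11,1),(6,3)]⟩,⟨0,[(32,0)]⟩⟩,.o ⟨false,1,⟨1,[(29,1),(9,0),(5,0)]⟩,⟨8,[(3,1),(2,3),
  (12,5),(8,8),(2,2),(2,2),(7,2)]⟩⟩,.a ⟨true,0,⟨0,[(29,0)]⟩,⟨0,[(28,0)]⟩⟩ ⟨false,0,⟨3,[(1,2),(0,0),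
  (11,2),(13,0),(14,1)]⟩,⟨1,[(27,0),(6,0),(0,0),(10,0)]⟩⟩ ⟨true,0,⟨2,[(3,1),(2,0),(21,2)]⟩,⟨0,[(29,
  0),(2,0)]⟩⟩]⟩)) (.Q [0,1,1,0,0,0,0,0,1,0,0,-1] (.p false [0,0,0,1] [] (⟨0,[(28,0)]⟩,⟨0,[(27,0)]⟩)
  .k 0 (⟨0,[]⟩,⟨0,[]⟩) .k .k) (.K ⟨0,[0,0,0,1],0,0,(⟨0,[(29,0)]⟩,⟨0,[(28,0)]⟩),.k,(.r (-1) ⟨31,[(6,
  9),(9,11),(3,1),(4,3),(1,15),(5,1),(3,3),(2,1),(4,2),(0,0)]⟩ ⟨15,[(2,15),(11,11),(0,11),(12,15),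
  (5,14),(0,2),(6,1)]⟩),(.x 0 ⟨0,[(41,0)]⟩ ⟨15,[(12,3),(5,3),(7,6),(0,6),(11,1)]⟩),.k,.k,[⟨0,[(29,
  0)]⟩,⟨0,[(28,0)]⟩,⟨4,[(2,4),(11,1),(0,1),(4,1),(2,0),(0,1),(12,2),(2,0)]⟩,⟨0,[(0,0)]⟩]⟩) (.Q [0,0,
  0,0,0,-1,0,0,0,1,0,-1] (.ed true [0,1,0,1] .k) (.Q [0,1,1,-1,0,0,0,0,1,0,0,-1] (.p false [0,0,0,
  1] [] (⟨0,[(30,0)]⟩,⟨0,[(29,0)]⟩) .k 0 (⟨0,[]⟩,⟨0,[]⟩) .k .k) (.R ⟨2,false,false,true,[0,1],[0,0,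
  0,1],[1,1,0,0,0,0,0,0,1],(⟨0,[]⟩,⟨0,[]⟩),(⟨0,[(31,0)]⟩,⟨0,[(30,0)]⟩),⟨0,[]⟩,.k,.k,.k,(.r 0 ⟨2,[(2,
  0),(1,1),(8,0),(2,1),(0,0),(12,2),(5,2),(0,0)]⟩ ⟨31,[(8,9),(9,11),(3,1),(4,3),(1,15),(5,1),(3,3),
  (2,1),(4,2),(0,0)]⟩),.k,.k,⟨true,0,⟨0,[]⟩,⟨1,[(36,0),(0,0)]⟩⟩,⟨false,0,⟨8,[(5,1),(2,3),(12,5),(8,
  8),(2,2),(2,2),(7,2)]⟩,⟨0,[(31,0),(15,0)]⟩⟩,⟨false,1,⟨31,[(8,9),(9,11),(3,1),(4,3),(1,15),(5,1),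
  (3,3),(2,1),(4,2),(0,0)]⟩,⟨2,[(2,1),(1,0),(5,0),(5,1),(13,2),(2,0),(2,2)]⟩⟩,⟨true,0,⟨0,[(0,0)]⟩,
  ⟨0,[(2,0),(42,0)]⟩⟩,⟨false,1,⟨1,[(29,0),(17,0)]⟩,⟨0,[(2,0),(27,0),(2,0),(2,0)]⟩⟩,⟨false,1,⟨47,[(0,
  31),(2,7),(13,7),(9,3),(0,8),(0,12),(0,15),(10,9),(6,15)]⟩,⟨0,[(2,0)]⟩⟩,[.a ⟨true,0,⟨5,[(0,4),(2,
  0),(13,0),(4,0),(3,0),(3,2),(0,1),(7,1),(2,0)]⟩,⟨0,[(2,0)]⟩⟩ ⟨false,1,⟨1,[(29,0),(17,0),(2,1)]⟩,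
  ⟨8,[(2,3),(1,4),(0,3),(10,1),(4,1),(8,8),(5,1),(7,4)]⟩⟩ ⟨true,0,⟨6,[(0,4),(2,1),(9,0),(9,0),(6,1),
  (4,0),(0,3)]⟩,⟨0,[(2,0)]⟩⟩,.o ⟨false,1,⟨47,[(0,31),(2,7),(13,7),(9,3),(0,8),(0,12),(0,15),(10,9),
  (6,15)]⟩,⟨2,[(2,2),(2,0),(2,1),(12,2)]⟩⟩,.o ⟨false,1,⟨3,[(28,0),(0,0),(17,1)]⟩,⟨8,[(5,1),(2,3),
  (12,5),(11,2),(2,2),(7,2)]⟩⟩,.e ⟨false,1,⟨1,[(29,0),(17,0)]⟩,⟨0,[(2,0),(27,0),(2,0),(2,0)]⟩⟩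
  ⟨false,1,⟨47,[(0,31),(2,7),(13,7),(9,3),(0,8),(0,12),(0,15),(10,9),(6,15)]⟩,⟨0,[(2,0)]⟩⟩]⟩) (.I
  [1,1,-1,-1,0,0,0,1,-1] (.R ⟨1,false,false,false,[1,0,0,-1],[1,1,-1],[1,1,0,0,0,0,0,0,-1],(⟨0,[(31,
  0)]⟩,⟨0,[(32,0)]⟩),(⟨0,[(40,0),(3,0)]⟩,⟨1,[(15,0),(25,0)]⟩),⟨0,[(2,0)]⟩,.k,.k,(.x (-1) ⟨15,[(15,
  3),(5,3),(7,6),(0,6),(11,1)]⟩ ⟨0,[(44,0)]⟩),(.r (-1) ⟨1,[(10,0),(18,0)]⟩ ⟨0,[(4,0),(1,0),(2,0),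
  (13,0),(2,0),(13,0)]⟩),(.r (-1) ⟨3,[(0,0),(2,0),(5,0),(0,1),(5,0),(11,0),(0,0),(1,0)]⟩ ⟨0,[(4,0),
  (34,1)]⟩),.k,⟨true,0,⟨0,[(0,0)]⟩,⟨19,[(4,19),(4,9),(13,0),(1,23),(2,6),(7,5),(3,1),(2,0),(1,0)]⟩⟩,
  ⟨false,1,⟨19,[(13,11),(10,3),(4,2),(0,2),(0,19),(10,1)]⟩,⟨0,[(25,0),(6,0),(2,0)]⟩⟩,⟨false,0,⟨0,
  []⟩,⟨3,[(29,0),(0,0),(18,1)]⟩⟩,⟨false,1,⟨5,[(4,1),(6,1),(0,1),(17,1),(0,5),(5,1),(4,0),(6,2)]⟩,⟨0,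
  [(3,0),(31,0),(11,0)]⟩⟩,⟨true,0,⟨0,[(46,0)]⟩,⟨0,[(47,0)]⟩⟩,⟨false,1,⟨7,[(4,3),(1,0),(4,4),(6,0),
  (9,1),(1,1),(0,7),(10,1),(6,3)]⟩,⟨0,[(3,0),(31,0),(11,1)]⟩⟩,[.o ⟨false,0,⟨0,[(6,0)]⟩,⟨3,[(10,1),
  (18,0),(0,0),(6,3)]⟩⟩,.o ⟨false,1,⟨11,[(11,3),(6,3),(10,0),(0,0),(11,3),(6,5)]⟩,⟨0,[(35,0),(11,
  0)]⟩⟩,.o ⟨false,1,⟨1,[(32,1),(9,0),(5,0)]⟩,⟨8,[(6,1),(2,3),(12,5),(8,8),(2,2),(2,2),(7,2)]⟩⟩,.a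
  ⟨true,0,⟨0,[(32,0)]⟩,⟨0,[(31,0)]⟩⟩ ⟨false,0,⟨3,[(0,2),(0,0),(4,0),(15,0),(2,2),(5,0)]⟩,⟨1,[(30,0),
  (6,0),(0,0),(10,0)]⟩⟩ ⟨true,0,⟨0,[(6,0),(24,0)]⟩,⟨0,[(32,0),(2,0),(11,0)]⟩⟩]⟩) (.K ⟨1,[1,-1,0,-1],
  0,0,(⟨0,[(2,0)]⟩,⟨0,[(32,0),(11,0)]⟩),(.x (-1) ⟨15,[(15,3),(5,3),(7,6),(0,6),(11,1)]⟩ ⟨0,[(44,
  0)]⟩),(.r (-1) ⟨3,[(3,0),(1,0),(3,1),(9,1),(8,0),(0,0),(1,1),(16,0)]⟩ ⟨16,[(0,4),(3,11),(9,0),(3,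
  1),(9,0),(7,3),(0,4)]⟩),.k,.k,.k,[⟨1,[(31,1),(5,0),(0,0)]⟩,⟨12,[(0,5),(0,1),(2,5),(0,9),(26,0),(1,
  2),(2,2),(7,0)]⟩,⟨0,[(0,0),(26,0),(3,0),(3,0),(11,0)]⟩,⟨0,[(3,0),(43,0)]⟩]⟩))) (.Q [0,-1,-1,-2,0,
  0,0,0,-1,-1,0,1] (.p true [0,0,0,1] [1] (⟨0,[(30,0)]⟩,⟨0,[(29,0)]⟩) .k 1 (⟨0,[]⟩,⟨0,[]⟩) .k .k)
  (.R ⟨0,false,false,false,[1,0,0,-1],[1,0,-1],[1,0,1,0,0,0,0,-1],(⟨0,[(30,0)]⟩,⟨0,[(31,0)]⟩),(⟨0,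
  [(39,0)]⟩,⟨0,[(40,0)]⟩),⟨0,[(1,0)]⟩,.k,.k,(.x (-1) ⟨15,[(14,3),(5,3),(7,6),(0,6),(11,1)]⟩ ⟨0,[(43,
  0)]⟩),.k,.k,.k,⟨false,0,⟨0,[]⟩,⟨3,[(28,0),(0,0),(17,1)]⟩⟩,⟨true,0,⟨0,[(30,0),(2,0)]⟩,⟨5,[(1,3),
  (12,0),(5,0),(6,2),(3,1)]⟩⟩,⟨true,0,⟨2,[(3,2),(1,1),(2,3),(13,2),(2,2),(13,2)]⟩,⟨0,[(0,0),(20,0),
  (4,0),(3,0)]⟩⟩,⟨false,1,⟨23,[(3,7),(4,7),(2,11),(16,0),(0,8),(0,23),(5,7),(4,1),(6,11)]⟩,⟨0,[(2,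
  0),(31,0)]⟩⟩,⟨false,0,⟨0,[]⟩,⟨0,[]⟩⟩,⟨false,0,⟨0,[]⟩,⟨0,[]⟩⟩,[.o ⟨false,0,⟨0,[(6,0)]⟩,⟨23,[(3,7),
  (5,7),(17,11),(0,6),(0,2),(11,5)]⟩⟩,.o ⟨false,1,⟨7,[(11,3),(16,0),(0,0),(11,1),(6,3)]⟩,⟨0,[(34,
  0)]⟩⟩,.o ⟨false,1,⟨1,[(31,1),(9,0),(5,0)]⟩,⟨8,[(5,1),(2,3),(12,5),(8,8),(2,2),(2,2),(7,2)]⟩⟩,.a
  ⟨true,0,⟨0,[(31,0)]⟩,⟨0,[(30,0)]⟩⟩ ⟨false,0,⟨0,[(24,0)]⟩,⟨11,[(3,3),(5,3),(18,4),(0,2)]⟩⟩ ⟨true,0,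
  ⟨2,[(5,1),(2,0),(21,2)]⟩,⟨0,[(31,0),(2,0)]⟩⟩]⟩) (.Q [0,0,0,-1,0,0,0,0,0,-1,0,1] (.p true [0,0,0,
  1] [1] (⟨0,[(31,0)]⟩,⟨0,[(30,0)]⟩) .k 1 (⟨0,[]⟩,⟨0,[]⟩) .k .k) (.R ⟨0,false,false,true,[1,0,0,-1],
  [0,1],[1,1],(⟨0,[(31,0)]⟩,⟨0,[(32,0)]⟩),(⟨0,[(44,0)]⟩,⟨0,[(43,0)]⟩),⟨0,[(2,0)]⟩,.k,.k,(.x (-1)
  ⟨15,[(15,3),(5,3),(7,6),(0,6),(11,1)]⟩ ⟨0,[(44,0)]⟩),(.x (-1) ⟨15,[(15,3),(5,3),(7,6),(0,6),(11,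
  1)]⟩ ⟨0,[(44,0)]⟩),.k,.k,⟨false,1,⟨31,[(9,9),(9,11),(3,1),(4,3),(7,1),(3,3),(2,1),(4,18),(0,0)]⟩,
  ⟨9,[(17,1),(0,1),(18,4),(0,2),(7,1)]⟩⟩,⟨true,0,⟨0,[(31,0)]⟩,⟨5,[(0,2),(13,0),(2,0),(14,2),(1,1),
  (2,2)]⟩⟩,⟨false,1,⟨3,[(29,0),(0,2)]⟩,⟨8,[(3,3),(1,4),(0,3),(10,1),(4,1),(8,8),(5,1),(7,4)]⟩⟩,
  ⟨true,0,⟨0,[(1,0),(45,0)]⟩,⟨0,[(3,0),(5,0),(12,0)]⟩⟩,⟨false,0,⟨0,[]⟩,⟨0,[]⟩⟩,⟨false,0,⟨0,[]⟩,⟨0,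
  []⟩⟩,[.o ⟨false,0,⟨0,[(46,0)]⟩,⟨5,[(9,1),(0,0),(26,1),(4,1),(6,2)]⟩⟩,.e ⟨true,0,⟨0,[]⟩,⟨1,[(37,0),
  (0,0)]⟩⟩ ⟨true,0,⟨9,[(17,1),(0,1),(12,9),(5,4),(0,2),(7,1)]⟩,⟨0,[(0,0)]⟩⟩,.o ⟨false,1,⟨1,[(32,1),
  (9,0),(5,0)]⟩,⟨8,[(6,1),(2,3),(12,5),(8,8),(2,2),(2,2),(7,2)]⟩⟩,.a ⟨true,0,⟨0,[(32,0)]⟩,⟨0,[(31,
  0)]⟩⟩ ⟨false,1,⟨3,[(29,0),(0,0),(17,1)]⟩,⟨3,[(37,0),(0,0),(6,1)]⟩⟩ ⟨true,0,⟨0,[(31,0),(14,0)]⟩,⟨0,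
  [(0,0)]⟩⟩]⟩) (.R ⟨0,false,false,true,[1,0,0,-1],[0,1],[1,1],(⟨0,[(31,0)]⟩,⟨0,[(32,0)]⟩),(⟨0,[(44,
  0)]⟩,⟨0,[(43,0)]⟩),⟨0,[(2,0)]⟩,.k,.k,(.x (-1) ⟨15,[(15,3),(5,3),(7,6),(0,6),(11,1)]⟩ ⟨0,[(44,
  0)]⟩),(.x (-1) ⟨15,[(15,3),(5,3),(7,6),(0,6),(11,1)]⟩ ⟨0,[(44,0)]⟩),.k,.k,⟨false,1,⟨31,[(9,9),(9,
  11),(3,1),(4,3),(7,1),(3,3),(2,1),(4,18),(0,0)]⟩,⟨9,[(17,1),(0,1),(18,4),(0,2),(7,1)]⟩⟩,⟨true,0,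
  ⟨0,[(31,0)]⟩,⟨5,[(2,3),(12,0),(5,0),(10,1),(1,2),(2,2)]⟩⟩,⟨false,1,⟨3,[(29,0),(0,2)]⟩,⟨8,[(0,8),
  (2,1),(1,6),(0,1),(10,0),(4,0),(14,0),(7,6)]⟩⟩,⟨true,0,⟨0,[(1,0),(45,0)]⟩,⟨0,[(3,0),(5,0),(12,
  0)]⟩⟩,⟨false,0,⟨0,[]⟩,⟨0,[]⟩⟩,⟨false,0,⟨0,[]⟩,⟨0,[]⟩⟩,[.o ⟨false,0,⟨0,[(46,0)]⟩,⟨5,[(9,1),(0,0),
  (26,1),(4,1),(6,2)]⟩⟩,.a ⟨true,0,⟨1,[(1,0),(1,0),(27,0),(0,0)]⟩,⟨0,[(47,0)]⟩⟩ ⟨true,0,⟨0,[]⟩,⟨1,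
  [(37,0),(0,0)]⟩⟩ ⟨false,0,⟨0,[(0,0)]⟩,⟨3,[(5,1),(24,0),(1,1),(9,0),(5,0),(0,0)]⟩⟩,.o ⟨false,1,⟨1,
  [(32,1),(9,0),(5,0)]⟩,⟨8,[(6,1),(2,3),(12,5),(8,8),(2,2),(2,2),(7,2)]⟩⟩,.e ⟨false,1,⟨3,[(29,0),(0,
  0),(17,1)]⟩,⟨3,[(37,0),(0,0),(6,1)]⟩⟩ ⟨false,0,⟨0,[(0,0)]⟩,⟨15,[(4,1),(0,7),(3,1),(20,2),(1,7),(4,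
  1),(4,2),(2,1),(3,9)]⟩⟩]⟩))))))))))

theorem ok173 : chk (cU (-1) true 10) t173 l98 = true := by decide +kernel

noncomputable def t174 : Tre :=
  (.Q [0,0,-2,0,1,0,-2,0,0,-1,2] (.p true [0,0,1] [1,0,-1] (⟨0,[(33,0)]⟩,⟨0,[(32,0)]⟩) .k 2 (⟨0,
  [(32,0)]⟩,⟨0,[(33,0)]⟩) .k (.r (-1) ⟨15,[(0,3),(0,3),(0,5),(6,3),(4,3),(1,7),(4,4),(0,4)]⟩ ⟨0,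
  [(31,1)]⟩)) (.R ⟨1,false,false,false,[0,-1,1],[1,0,-1],[0,0,1],(⟨1,[(8,0),(25,0)]⟩,⟨0,[(33,0),(3,
  0)]⟩),(⟨0,[(33,0)]⟩,⟨0,[(34,0)]⟩),⟨0,[(8,0)]⟩,.k,.k,(.r (-1) ⟨0,[(12,0),(27,0)]⟩ ⟨1,[(11,1),(18,
  2),(0,0)]⟩),(.r (-1) ⟨31,[(1,3),(0,3),(0,21),(6,3),(4,3),(1,7),(4,4),(0,4)]⟩ ⟨10,[(4,6),(6,1),(9,
  6),(7,5),(0,7),(7,2)]⟩),(.r (-1) ⟨0,[(3,0)]⟩ ⟨10,[(4,1),(6,9),(9,1),(7,7),(0,17),(7,3)]⟩),.k,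
  ⟨true,0,⟨19,[(1,5),(8,3),(4,3),(1,5),(12,2),(0,6)]⟩,⟨0,[(32,0)]⟩⟩,⟨false,1,⟨0,[(0,0)]⟩,⟨1,[(21,1),
  (8,0),(0,0)]⟩⟩,⟨false,0,⟨7,[(11,3),(17,3),(0,8),(0,0),(6,5)]⟩,⟨0,[(12,0)]⟩⟩,⟨true,0,⟨0,[(4,0)]⟩,
  ⟨4,[(1,3),(0,0),(12,0),(28,3)]⟩⟩,⟨false,0,⟨3,[(11,3),(18,4),(0,0),(6,1)]⟩,⟨0,[(12,0),(27,0)]⟩⟩,
  ⟨false,1,⟨5,[(4,3),(6,3),(10,0),(0,0),(11,0),(6,2)]⟩,⟨0,[(1,0)]⟩⟩,[.a ⟨true,0,⟨1,[(5,0),(18,0),(0,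
  0)]⟩,⟨2,[(1,0),(0,0),(21,0),(0,0)]⟩⟩ ⟨true,0,⟨1,[(30,0),(0,0)]⟩,⟨0,[]⟩⟩ ⟨false,1,⟨1,[(0,0),(4,0),
  (35,0)]⟩,⟨2,[(1,0),(0,0),(18,0),(8,1),(0,0)]⟩⟩,.o ⟨false,1,⟨7,[(5,3),(16,0),(0,0),(11,1),(6,3)]⟩,
  ⟨0,[(28,0)]⟩⟩,.o ⟨false,0,⟨0,[(30,0)]⟩,⟨7,[(0,3),(21,0),(0,0),(11,1)]⟩⟩,.o ⟨false,0,⟨1,[(30,2),(0,
  0)]⟩,⟨0,[(6,0)]⟩⟩]⟩) (.R ⟨1,true,false,false,[0,0,1],[1,1,-1],[1,1,0,0,0,0,0,1],(⟨0,[(34,0)]⟩,⟨0,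
  [(33,0)]⟩),(⟨0,[(33,0),(3,0)]⟩,⟨1,[(8,0),(25,0)]⟩),⟨1,[(8,0),(25,0)]⟩,.k,.k,.k,(.r (-1) ⟨31,[(1,
  3),(0,3),(0,21),(6,3),(4,3),(1,7),(4,4),(0,4)]⟩ ⟨3,[(0,1),(3,3),(16,1),(0,0),(0,0)]⟩),(.r (-1) ⟨0,
  [(3,0)]⟩ ⟨2,[(0,1),(3,1),(6,1),(10,0),(0,0),(6,1)]⟩),.k,⟨false,1,⟨0,[(3,0),(35,0)]⟩,⟨1,[(0,0),(3,
  1),(16,0),(20,0)]⟩⟩,⟨true,1,⟨2,[(9,1),(7,0),(2,1),(21,0)]⟩,⟨0,[(0,0)]⟩⟩,⟨false,0,⟨0,[]⟩,⟨3,[(22,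
  0),(0,0),(18,1)]⟩⟩,⟨true,0,⟨0,[(4,0)]⟩,⟨4,[(1,3),(0,0),(12,0),(28,3)]⟩⟩,⟨true,0,⟨0,[(39,0)]⟩,⟨0,
  [(40,0)]⟩⟩,⟨false,1,⟨5,[(4,3),(6,3),(10,0),(0,0),(11,0),(6,2)]⟩,⟨0,[(1,0)]⟩⟩,[]⟩))

theorem ok174 : chk (cU (-1) true 10) t174 l99 = true := by decide +kernel

noncomputable def t192 : Tre :=
  (.I [0,0,-1,0,0,1,2] (.R ⟨1,true,false,false,[1,0,-1],[0,0,1],[1,1,0,0,0,0,0,-1],(⟨0,[(30,0)]⟩,⟨0,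
  [(31,0)]⟩),(⟨0,[(31,0)]⟩,⟨0,[(30,0)]⟩),⟨0,[(16,0)]⟩,.k,.k,.k,.k,(.x (-1) ⟨3,[(14,3),(1,3),(2,0),
  (0,0),(9,3),(1,1)]⟩ ⟨0,[(0,0)]⟩),.k,⟨false,0,⟨0,[(1,0),(34,0)]⟩,⟨7,[(2,3),(6,3),(0,3),(3,3),(4,0),
  (0,0),(18,1)]⟩⟩,⟨true,0,⟨0,[(18,0)]⟩,⟨0,[(14,0)]⟩⟩,⟨false,0,⟨0,[]⟩,⟨3,[(19,0),(0,0),(18,1)]⟩⟩,
  ⟨true,0,⟨0,[(2,0)]⟩,⟨1,[(1,0),(2,0),(9,0),(11,0)]⟩⟩,⟨true,0,⟨0,[(36,0)]⟩,⟨0,[(37,0)]⟩⟩,⟨false,1,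
  ⟨3,[(2,2),(4,1),(10,0),(0,0),(0,0),(17,0),(0,0)]⟩,⟨0,[(1,0),(12,0)]⟩⟩,[]⟩) (.Q [0,-1,0,1,0,0,0,0,
  0,1] (.pp false [-1,1]) (.Q [0,1,0,-2,0,0,0,0,0,-1] (.pp true [-1,1]) (.R ⟨2,false,false,true,[0,
  1],[1,-1],[0,1],(⟨0,[]⟩,⟨0,[]⟩),(⟨0,[(35,0)]⟩,⟨0,[(36,0)]⟩),⟨0,[]⟩,.k,.k,.k,(.r 0 ⟨4,[(9,1),(0,1),
  (18,4),(0,2),(7,1)]⟩ ⟨9,[(3,3),(7,7),(9,0),(0,0),(16,7)]⟩),.k,.k,⟨true,0,⟨9,[(9,1),(0,1),(18,4),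
  (0,2),(7,1)]⟩,⟨0,[(39,0)]⟩⟩,⟨false,0,⟨6,[(0,3),(5,2),(2,1),(4,0),(14,1),(7,2)]⟩,⟨2,[(1,1),(9,1),
  (8,0),(7,1),(11,0)]⟩⟩,⟨false,1,⟨9,[(3,1),(7,3),(9,2),(0,2),(16,3)]⟩,⟨15,[(9,3),(0,3),(18,4),(0,0),
  (6,5)]⟩⟩,⟨true,0,⟨0,[(0,0)]⟩,⟨0,[(1,0),(36,0)]⟩⟩,⟨false,1,⟨3,[(21,0),(0,0),(17,1)]⟩,⟨3,[(29,0),(0,
  0),(6,1)]⟩⟩,⟨false,1,⟨3,[(0,1),(20,0),(0,0),(11,0),(6,0)]⟩,⟨0,[(1,0)]⟩⟩,[.e ⟨true,0,⟨0,[(43,0)]⟩,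
  ⟨3,[(29,0),(0,0),(6,1)]⟩⟩ ⟨true,0,⟨1,[(0,0),(25,0),(2,0),(13,0)]⟩,⟨0,[(1,0)]⟩⟩,.a ⟨true,0,⟨0,[(39,
  0)]⟩,⟨5,[(1,3),(2,0),(14,1),(0,0),(7,1)]⟩⟩ ⟨false,1,⟨3,[(21,0),(0,0),(17,1)]⟩,⟨0,[]⟩⟩ ⟨true,0,⟨8,
  [(0,5),(5,0),(2,0),(16,1),(2,2),(7,2)]⟩,⟨5,[(1,3),(2,0),(14,1),(0,0),(7,1)]⟩⟩,.o ⟨false,1,⟨3,[(21,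
  0),(0,0),(17,1)]⟩,⟨6,[(0,3),(5,2),(2,1),(4,0),(14,1),(7,2)]⟩⟩,.e ⟨false,1,⟨3,[(21,0),(0,0),(17,
  1)]⟩,⟨3,[(29,0),(0,0),(6,1)]⟩⟩ ⟨false,1,⟨3,[(0,1),(20,0),(0,0),(11,0),(6,0)]⟩,⟨0,[(1,0)]⟩⟩]⟩) (.I
  [0,0,-1,-1,0,0,0,-2] (.R ⟨1,true,false,false,[1,0,-1],[0,0,1],[1,1,0,0,0,0,0,-1],(⟨0,[(33,0)]⟩,⟨0,
  [(34,0)]⟩),(⟨0,[(34,0)]⟩,⟨0,[(33,0)]⟩),⟨0,[(19,0)]⟩,.k,.k,.k,.k,(.r 0 ⟨0,[(0,0)]⟩ ⟨28,[(5,20),(4,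
  9),(1,0),(2,4),(1,20),(2,4),(1,13),(0,13)]⟩),.k,⟨false,0,⟨0,[(4,0),(34,0)]⟩,⟨7,[(5,3),(6,3),(0,3),
  (3,3),(4,0),(0,0),(18,1)]⟩⟩,⟨true,0,⟨0,[(21,0)]⟩,⟨0,[(17,0)]⟩⟩,⟨false,0,⟨0,[]⟩,⟨3,[(22,0),(0,0),
  (18,1)]⟩⟩,⟨true,0,⟨0,[(5,0)]⟩,⟨1,[(4,0),(2,0),(9,0),(11,0)]⟩⟩,⟨true,0,⟨0,[(39,0)]⟩,⟨0,[(40,0)]⟩⟩,
  ⟨false,1,⟨15,[(1,3),(3,11),(9,7),(6,2),(0,2),(18,9)]⟩,⟨0,[(4,0),(12,0)]⟩⟩,[]⟩) (.I [0,0,0,0,0,0,0,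
  0,1] (.Q [0,0,0,0,0,0,1,1,0,0,-1,1] (.p false [0,0,1] [0,0,0,1] (⟨0,[(35,0)]⟩,⟨0,[(34,0)]⟩) .k 2
  (⟨0,[(26,0)]⟩,⟨0,[(25,0)]⟩) .k (.r (-1) ⟨19,[(1,3),(4,3),(6,3),(4,3),(4,12),(0,2)]⟩ ⟨0,[(0,0),(32,
  0)]⟩)) (.Q [0,0,0,0,0,-1,0,0,0,1,0,-1] (.ed true [0,1,0,1] .k) (.I [1,0,-1,0,1,0,0,1,-1] (.R ⟨1,
  false,false,false,[1,0,0,-1],[1,0,-1],[1,0,0,0,0,0,0,0,-1],(⟨0,[(28,0)]⟩,⟨0,[(29,0)]⟩),(⟨0,[(37,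
  0)]⟩,⟨0,[(38,0)]⟩),⟨0,[(1,0)]⟩,.k,.k,(.x (-1) ⟨15,[(12,3),(5,3),(7,6),(0,6),(11,1)]⟩ ⟨0,[(41,
  0)]⟩),.k,(.r (-1) ⟨0,[(0,0),(43,0)]⟩ ⟨5,[(3,5),(11,2),(17,1),(0,4),(1,0),(5,0)]⟩),.k,⟨false,1,⟨0,
  [(0,0)]⟩,⟨0,[(3,0),(32,0)]⟩⟩,⟨true,0,⟨0,[(28,0),(2,0)]⟩,⟨5,[(2,4),(5,1),(6,0),(13,0),(4,1)]⟩⟩,
  ⟨true,0,⟨0,[]⟩,⟨0,[(48,0)]⟩⟩,⟨false,0,⟨2,[(3,2),(4,0),(2,0),(16,2),(2,1),(10,1)]⟩,⟨1,[(2,1),(23,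
  0),(18,0)]⟩⟩,⟨false,1,⟨3,[(5,1),(20,0),(0,0),(11,0),(6,0)]⟩,⟨0,[(44,0)]⟩⟩,⟨false,0,⟨0,[(3,0),(7,
  0),(16,0),(13,0)]⟩,⟨19,[(2,19),(5,3),(7,7),(9,10),(0,0),(16,7)]⟩⟩,[.a ⟨true,0,⟨2,[(6,0),(1,0),(12,
  0),(11,0)]⟩,⟨1,[(9,0),(18,0),(0,0)]⟩⟩ ⟨false,1,⟨1,[(26,0),(18,0)]⟩,⟨0,[(3,0)]⟩⟩ ⟨true,0,⟨0,[(28,
  0),(2,0),(4,0)]⟩,⟨0,[(2,0)]⟩⟩,.o ⟨false,1,⟨3,[(8,0),(2,0),(9,0),(11,0),(5,0),(6,2)]⟩,⟨0,[(32,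
  0)]⟩⟩,.o ⟨false,1,⟨1,[(29,1),(9,0),(5,0)]⟩,⟨1,[(8,0),(10,0),(8,1),(2,1),(0,0),(9,0)]⟩⟩,.e ⟨false,
  1,⟨0,[(0,0),(21,0)]⟩,⟨1,[(3,1),(30,0),(0,0)]⟩⟩ ⟨false,1,⟨3,[(8,0),(2,0),(9,0),(6,3),(4,0),(5,0),
  (6,2)]⟩,⟨0,[(2,0)]⟩⟩]⟩) (.R ⟨1,false,false,false,[1,0,0,-1],[1,0,-1],[1,1,0,0,0,0,0,0,-1],(⟨0,
  [(28,0)]⟩,⟨0,[(29,0)]⟩),(⟨0,[(37,0)]⟩,⟨0,[(38,0)]⟩),⟨0,[(1,0)]⟩,.k,.k,(.x (-1) ⟨15,[(12,3),(5,3),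
  (7,6),(0,6),(11,1)]⟩ ⟨0,[(41,0)]⟩),.k,(.x 0 ⟨4,[(8,0),(3,2),(6,0),(0,0),(11,0),(1,0),(7,0)]⟩ ⟨4,
  [(7,1),(2,0),(15,1),(0,1),(9,0),(3,6)]⟩),.k,⟨false,1,⟨1,[(16,0),(7,0),(1,0),(5,0)]⟩,⟨0,[(3,0),(18,
  0)]⟩⟩,⟨true,0,⟨0,[(28,0),(2,0)]⟩,⟨5,[(2,4),(5,1),(6,0),(13,0),(4,1)]⟩⟩,⟨false,0,⟨0,[]⟩,⟨3,[(26,0),
  (0,0),(18,1)]⟩⟩,⟨false,0,⟨25,[(0,23),(12,3),(1,1),(5,9),(5,0),(0,25),(10,5),(6,12)]⟩,⟨1,[(2,1),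
  (23,0),(18,0)]⟩⟩,⟨true,0,⟨0,[(43,0)]⟩,⟨0,[(44,0)]⟩⟩,⟨false,0,⟨187,[(0,125),(9,37),(3,15),(0,77),
  (5,35),(5,30),(0,187),(10,56),(2,85)]⟩,⟨19,[(2,19),(5,3),(7,7),(9,10),(0,0),(16,7)]⟩⟩,[.a ⟨true,0,
  ⟨2,[(6,0),(1,0),(12,0),(11,0)]⟩,⟨1,[(9,0),(18,0),(0,0)]⟩⟩ ⟨false,1,⟨1,[(26,0),(18,0),(2,1)]⟩,⟨8,
  [(0,3),(2,4),(1,0),(3,0),(0,1),(5,1),(25,3)]⟩⟩ ⟨true,0,⟨0,[(28,0),(2,0),(4,0)]⟩,⟨0,[(2,0)]⟩⟩,.o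
  ⟨false,1,⟨3,[(8,0),(2,0),(9,0),(11,0),(5,0),(6,2)]⟩,⟨0,[(32,0)]⟩⟩,.o ⟨false,1,⟨1,[(29,1),(9,0),(5,
  0)]⟩,⟨1,[(8,0),(10,0),(8,1),(2,1),(0,0),(9,0)]⟩⟩,.e ⟨false,1,⟨1,[(26,0),(18,0)]⟩,⟨5,[(0,1),(8,0),
  (11,0),(5,1),(14,2)]⟩⟩ ⟨false,1,⟨3,[(8,0),(2,0),(9,0),(6,3),(4,0),(5,0),(6,2)]⟩,⟨0,[(2,0)]⟩⟩]⟩))
  (.I [0,-1,1,0,0,0,0,-1,-1] (.R ⟨0,false,false,false,[1,0,0,-1],[1,0,-1],[1,0,0,0,0,0,0,0,-1],(⟨0,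
  [(28,0)]⟩,⟨0,[(29,0)]⟩),(⟨0,[(37,0)]⟩,⟨0,[(38,0)]⟩),⟨0,[(1,0)]⟩,.k,.k,(.x (-1) ⟨15,[(12,3),(5,3),
  (7,6),(0,6),(11,1)]⟩ ⟨0,[(41,0)]⟩),.k,.k,.k,⟨false,1,⟨0,[(0,0),(8,0),(3,0),(10,0)]⟩,⟨0,[(3,0),(32,
  0)]⟩⟩,⟨true,0,⟨0,[(28,0),(2,0)]⟩,⟨5,[(1,3),(10,0),(5,0),(6,2),(3,1)]⟩⟩,⟨true,0,⟨0,[]⟩,⟨0,[(48,
  0)]⟩⟩,⟨false,0,⟨2,[(3,2),(4,0),(2,0),(16,2),(2,1),(10,1)]⟩,⟨1,[(2,1),(23,0),(18,0)]⟩⟩,⟨false,0,⟨0,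
  []⟩,⟨0,[]⟩⟩,⟨false,0,⟨0,[]⟩,⟨0,[]⟩⟩,[.a ⟨true,0,⟨2,[(6,0),(1,0),(12,0),(11,0)]⟩,⟨1,[(9,0),(18,0),
  (0,0)]⟩⟩ ⟨false,1,⟨1,[(26,0),(18,0)]⟩,⟨0,[(3,0)]⟩⟩ ⟨true,0,⟨0,[(28,0),(2,0),(4,0)]⟩,⟨0,[(2,0)]⟩⟩,
  .o ⟨false,1,⟨3,[(8,0),(2,0),(9,0),(11,0),(5,0),(6,2)]⟩,⟨0,[(32,0)]⟩⟩,.o ⟨false,1,⟨1,[(29,1),(9,0),
  (5,0)]⟩,⟨1,[(8,0),(10,0),(8,1),(2,1),(0,0),(9,0)]⟩⟩,.e ⟨false,1,⟨4,[(0,2),(4,0),(3,0),(0,1),(5,1),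
  (5,0),(3,0)]⟩,⟨1,[(3,1),(30,0),(0,0)]⟩⟩ ⟨false,1,⟨3,[(8,0),(2,0),(9,0),(6,3),(4,0),(5,0),(6,2)]⟩,
  ⟨0,[(2,0)]⟩⟩]⟩) (.R ⟨0,false,false,false,[1,0,0,-1],[1,0,-1],[0,1,0,0,0,0,0,0,-1],(⟨0,[(28,0)]⟩,
  ⟨0,[(29,0)]⟩),(⟨0,[(37,0)]⟩,⟨0,[(38,0)]⟩),⟨0,[(1,0)]⟩,.k,.k,(.x (-1) ⟨15,[(12,3),(5,3),(7,6),(0,
  6),(11,1)]⟩ ⟨0,[(41,0)]⟩),.k,.k,.k,⟨false,1,⟨1,[(16,0),(7,0),(1,0),(5,0)]⟩,⟨0,[(3,0),(18,0)]⟩⟩,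
  ⟨true,0,⟨0,[(28,0),(2,0)]⟩,⟨5,[(1,3),(10,0),(5,0),(6,2),(3,1)]⟩⟩,⟨true,0,⟨0,[(48,0)]⟩,⟨0,[]⟩⟩,
  ⟨false,0,⟨2,[(3,2),(4,0),(2,0),(16,2),(2,1),(10,1)]⟩,⟨1,[(2,1),(23,0),(18,0)]⟩⟩,⟨false,0,⟨0,[]⟩,
  ⟨0,[]⟩⟩,⟨false,0,⟨0,[]⟩,⟨0,[]⟩⟩,[.a ⟨true,0,⟨2,[(6,0),(1,0),(12,0),(11,0)]⟩,⟨1,[(9,0),(18,0),(0,
  0)]⟩⟩ ⟨false,1,⟨1,[(26,0),(18,0),(2,1)]⟩,⟨1,[(0,0),(2,0),(18,0),(19,0)]⟩⟩ ⟨true,0,⟨0,[(28,0),(2,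
  0),(4,0)]⟩,⟨0,[(2,0)]⟩⟩,.o ⟨false,1,⟨3,[(8,0),(2,0),(9,0),(11,0),(5,0),(6,2)]⟩,⟨0,[(32,0)]⟩⟩,.o
  ⟨false,1,⟨1,[(29,1),(9,0),(5,0)]⟩,⟨1,[(8,0),(10,0),(8,1),(2,1),(0,0),(9,0)]⟩⟩,.e ⟨false,1,⟨1,[(26,
  0),(18,0)]⟩,⟨3,[(3,3),(30,0),(0,0),(6,1)]⟩⟩ ⟨false,1,⟨3,[(8,0),(2,0),(9,0),(6,3),(4,0),(5,0),(6,
  2)]⟩,⟨0,[(2,0)]⟩⟩]⟩))) (.I [1,0,0,0,0,0,0,1,1] (.R ⟨1,false,false,false,[1,0,0,-1],[1,0,-1],[1,1,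
  0,0,0,0,0,0,-1],(⟨0,[(27,0)]⟩,⟨0,[(28,0)]⟩),(⟨0,[(36,0)]⟩,⟨0,[(37,0)]⟩),⟨3,[(1,1),(6,0),(2,0),(5,
  0),(9,1)]⟩,.k,.k,(.x (-1) ⟨15,[(11,3),(5,3),(7,6),(0,6),(11,1)]⟩ ⟨0,[(40,0)]⟩),.k,(.x 0 ⟨4,[(7,0),
  (3,2),(6,0),(0,0),(11,0),(1,0),(7,0)]⟩ ⟨4,[(6,1),(2,0),(15,1),(0,1),(9,0),(3,6)]⟩),.k,⟨false,1,⟨1,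
  [(15,0),(7,0),(1,0),(5,0)]⟩,⟨0,[(2,0),(18,0)]⟩⟩,⟨true,0,⟨0,[(27,0),(2,0)]⟩,⟨1,[(7,0),(10,0),(9,1),
  (2,0),(9,0)]⟩⟩,⟨false,0,⟨0,[]⟩,⟨3,[(25,0),(0,0),(18,1)]⟩⟩,⟨false,0,⟨3,[(1,3),(0,3),(30,0),(0,0),
  (6,1)]⟩,⟨1,[(8,0),(3,0),(5,0),(2,0),(3,0),(2,1)]⟩⟩,⟨true,0,⟨0,[(42,0)]⟩,⟨0,[(43,0)]⟩⟩,⟨false,0,
  ⟨15,[(1,15),(0,15),(10,3),(0,3),(18,4),(0,0),(6,5)]⟩,⟨3,[(7,0),(0,1),(3,1),(12,1),(2,3),(2,1),(9,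
  0),(1,0)]⟩⟩,[.e ⟨false,1,⟨1,[(25,0),(18,0),(2,1)]⟩,⟨0,[(0,0),(6,0),(5,0),(29,0)]⟩⟩ ⟨false,0,⟨0,
  [(1,0)]⟩,⟨7,[(8,3),(16,0),(0,0),(1,7),(9,1),(5,3)]⟩⟩,.o ⟨false,1,⟨3,[(7,0),(2,0),(9,0),(11,0),(5,
  0),(6,2)]⟩,⟨0,[(31,0)]⟩⟩,.o ⟨false,1,⟨1,[(28,1),(9,0),(5,0)]⟩,⟨1,[(1,1),(6,0),(21,0),(2,0)]⟩⟩,.a
  ⟨true,0,⟨0,[(28,0)]⟩,⟨0,[(27,0)]⟩⟩ ⟨false,1,⟨1,[(25,0),(18,0)]⟩,⟨3,[(2,3),(30,0),(0,0),(6,1)]⟩⟩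
  ⟨true,0,⟨0,[(1,0)]⟩,⟨0,[(28,0),(2,0)]⟩⟩]⟩) (.R ⟨1,false,false,false,[1,0,0,-1],[1,0,-1],[1,0,0,0,
  0,0,0,0,-1],(⟨0,[(27,0)]⟩,⟨0,[(28,0)]⟩),(⟨0,[(36,0)]⟩,⟨0,[(37,0)]⟩),⟨3,[(1,1),(6,0),(2,0),(5,0),
  (9,1)]⟩,.k,.k,(.x (-1) ⟨15,[(11,3),(5,3),(7,6),(0,6),(11,1)]⟩ ⟨0,[(40,0)]⟩),.k,(.r (-1) ⟨2,[(0,0),
  (7,0),(6,1),(4,0),(4,0),(17,0)]⟩ ⟨5,[(2,5),(11,2),(17,1),(0,4),(1,0),(5,0)]⟩),.k,⟨false,1,⟨11,[(0,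
  3),(2,3),(0,0),(4,0),(5,6),(2,0),(6,3)]⟩,⟨0,[(2,0),(32,0)]⟩⟩,⟨true,0,⟨0,[(27,0),(2,0)]⟩,⟨1,[(7,0),
  (10,0),(9,1),(2,0),(9,0)]⟩⟩,⟨true,0,⟨0,[]⟩,⟨0,[(47,0)]⟩⟩,⟨false,0,⟨3,[(1,3),(0,3),(30,0),(0,0),(6,
  1)]⟩,⟨5,[(0,1),(7,3),(0,1),(15,1),(2,5),(9,0),(5,0)]⟩⟩,⟨false,1,⟨3,[(4,1),(20,0),(0,0),(11,0),(6,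
  0)]⟩,⟨0,[(43,0)]⟩⟩,⟨false,0,⟨15,[(1,15),(0,15),(10,3),(0,3),(18,4),(0,0),(6,5)]⟩,⟨6,[(0,0),(6,0),
  (0,4),(3,2),(12,2),(2,6),(9,0),(4,2)]⟩⟩,[.e ⟨false,1,⟨1,[(25,0),(18,0)]⟩,⟨0,[(2,0)]⟩⟩ ⟨false,0,⟨0,
  [(1,0)]⟩,⟨7,[(8,3),(16,0),(0,0),(1,7),(9,1),(5,3)]⟩⟩,.o ⟨false,1,⟨3,[(7,0),(2,0),(9,0),(11,0),(5,
  0),(6,2)]⟩,⟨0,[(31,0)]⟩⟩,.o ⟨false,1,⟨1,[(28,1),(9,0),(5,0)]⟩,⟨1,[(1,1),(6,0),(21,0),(2,0)]⟩⟩,.a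
  ⟨true,0,⟨0,[(28,0)]⟩,⟨0,[(27,0)]⟩⟩ ⟨false,1,⟨25,[(0,15),(3,3),(3,3),(0,7),(5,7),(9,4),(15,5),(3,
  4)]⟩,⟨1,[(2,1),(30,0),(0,0)]⟩⟩ ⟨true,0,⟨0,[(1,0)]⟩,⟨0,[(28,0),(2,0)]⟩⟩]⟩))) (.Q [0,1,1,0,0,0,0,0,
  1,0,0,-1] (.p false [0,0,0,1] [] (⟨0,[(26,0)]⟩,⟨0,[(25,0)]⟩) .k 0 (⟨0,[]⟩,⟨0,[]⟩) .k .k) (.Q [0,1,
  -1,0,0,0,0,0,-1,0,0,1] (.p true [0,0,0,1] [] (⟨0,[(27,0)]⟩,⟨0,[(26,0)]⟩) .k 0 (⟨0,[]⟩,⟨0,[]⟩) .k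
  .k) (.K ⟨0,[0,0,0,1],0,0,(⟨0,[(28,0)]⟩,⟨0,[(27,0)]⟩),.k,(.r (-1) ⟨19,[(7,3),(7,7),(9,0),(0,10),
  (16,7)]⟩ ⟨9,[(2,9),(10,1),(0,1),(18,4),(0,2),(7,1)]⟩),(.x 0 ⟨0,[(40,0)]⟩ ⟨15,[(11,3),(5,3),(7,6),
  (0,6),(11,1)]⟩),.k,.k,[⟨0,[(28,0)]⟩,⟨0,[(27,0)]⟩,⟨0,[(0,0)]⟩,⟨0,[(1,0)]⟩]⟩) (.Q [0,0,0,0,0,-1,0,0,
  0,1,0,-1] (.ed true [0,1,0,1] .k) (.Q [0,0,0,1,0,0,0,0,0,1,0,-1] (.p false [0,0,0,1] [1] (⟨0,[(29,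
  0)]⟩,⟨0,[(28,0)]⟩) .k 1 (⟨0,[]⟩,⟨0,[]⟩) .k .k) (.R ⟨1,false,false,true,[1,0,0,-1],[0,1],[1,1,0,0,
  0,0,0,0,-1],(⟨0,[(29,0)]⟩,⟨0,[(30,0)]⟩),(⟨0,[(42,0)]⟩,⟨0,[(41,0)]⟩),⟨0,[(1,0)]⟩,.k,.k,(.x (-1)
  ⟨15,[(13,3),(5,3),(7,6),(0,6),(11,1)]⟩ ⟨0,[(42,0)]⟩),(.x (-1) ⟨15,[(13,3),(5,3),(7,6),(0,6),(11,
  1)]⟩ ⟨0,[(42,0)]⟩),(.r (-1) ⟨4,[(4,2),(4,1),(7,3),(9,0),(17,3)]⟩ ⟨3,[(2,0),(0,2),(11,1),(0,1),(13,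
  3),(4,1)]⟩),.k,⟨false,1,⟨5,[(4,3),(4,1),(7,3),(9,0),(18,0)]⟩,⟨2,[(2,1),(0,0),(12,0),(3,0),(9,
  2)]⟩⟩,⟨true,0,⟨0,[(29,0)]⟩,⟨1,[(9,0),(10,0),(9,1),(1,1),(0,0),(9,0)]⟩⟩,⟨false,0,⟨0,[]⟩,⟨3,[(27,0),
  (0,0),(18,1)]⟩⟩,⟨false,0,⟨0,[(3,0),(3,0)]⟩,⟨19,[(4,17),(4,5),(0,5),(3,11),(12,0),(2,19),(9,6),(2,
  9),(1,1)]⟩⟩,⟨true,0,⟨0,[(44,0)]⟩,⟨0,[(45,0)]⟩⟩,⟨false,0,⟨0,[(3,0),(2,0)]⟩,⟨19,[(4,17),(4,5),(0,5),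
  (3,11),(12,0),(2,19),(9,6),(2,9),(1,21)]⟩⟩,[.o ⟨false,0,⟨0,[(44,0)]⟩,⟨1,[(40,0),(4,1),(1,0)]⟩⟩,.a
  ⟨true,0,⟨2,[(6,0),(0,0),(2,0),(23,1)]⟩,⟨0,[(45,0)]⟩⟩ ⟨true,0,⟨0,[(4,0)]⟩,⟨1,[(2,0),(0,0),(26,
  1)]⟩⟩ ⟨false,0,⟨0,[(0,0)]⟩,⟨19,[(9,3),(7,7),(9,0),(0,0),(1,19),(9,9),(4,7)]⟩⟩,.o ⟨false,1,⟨1,[(30,
  1),(9,0),(5,0)]⟩,⟨1,[(2,0),(0,0),(0,1)]⟩⟩,.e ⟨false,1,⟨1,[(27,0),(18,0)]⟩,⟨0,[(2,0),(27,0)]⟩⟩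
  ⟨false,0,⟨0,[(0,0)]⟩,⟨1,[(30,1),(9,0),(4,1),(1,0)]⟩⟩]⟩) (.R ⟨1,false,false,true,[1,0,0,-1],[0,1],
  [1,1,0,0,0,0,0,0,-1],(⟨0,[(29,0)]⟩,⟨0,[(30,0)]⟩),(⟨0,[(42,0)]⟩,⟨0,[(41,0)]⟩),⟨0,[(1,0)]⟩,.k,.k,
  (.x (-1) ⟨15,[(13,3),(5,3),(7,6),(0,6),(11,1)]⟩ ⟨0,[(42,0)]⟩),(.x (-1) ⟨15,[(13,3),(5,3),(7,6),(0,
  6),(11,1)]⟩ ⟨0,[(42,0)]⟩),(.r (-1) ⟨4,[(4,2),(4,1),(7,3),(9,0),(17,3)]⟩ ⟨3,[(2,0),(0,2),(11,1),(0,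
  1),(13,3),(4,1)]⟩),.k,⟨false,1,⟨5,[(4,3),(4,1),(7,3),(9,0),(18,0)]⟩,⟨2,[(2,1),(0,0),(12,0),(3,0),
  (9,2)]⟩⟩,⟨true,0,⟨0,[(29,0)]⟩,⟨5,[(0,2),(11,0),(2,0),(14,2),(1,1),(2,2)]⟩⟩,⟨false,0,⟨0,[]⟩,⟨3,
  [(27,0),(0,0),(18,1)]⟩⟩,⟨false,0,⟨0,[(3,0),(3,0)]⟩,⟨1,[(0,1),(3,1),(41,0),(0,0)]⟩⟩,⟨true,0,⟨0,
  [(44,0)]⟩,⟨0,[(45,0)]⟩⟩,⟨false,0,⟨0,[(3,0),(2,0)]⟩,⟨9,[(0,9),(3,1),(4,2),(7,5),(9,3),(15,4),(1,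
  0)]⟩⟩,[.o ⟨false,0,⟨0,[(44,0)]⟩,⟨1,[(40,0),(4,1),(1,0)]⟩⟩,.e ⟨true,0,⟨0,[(4,0)]⟩,⟨1,[(2,0),(0,0),
  (26,1)]⟩⟩ ⟨true,0,⟨9,[(15,1),(0,1),(12,9),(5,4),(0,2),(7,1)]⟩,⟨0,[(0,0)]⟩⟩,.o ⟨false,1,⟨1,[(30,1),
  (9,0),(5,0)]⟩,⟨1,[(2,0),(0,0),(0,1)]⟩⟩,.a ⟨true,0,⟨0,[(30,0)]⟩,⟨0,[(29,0)]⟩⟩ ⟨false,1,⟨1,[(27,0),
  (18,0)]⟩,⟨0,[(2,0),(27,0)]⟩⟩ ⟨true,0,⟨0,[(29,0),(14,0)]⟩,⟨0,[(0,0)]⟩⟩]⟩)) (.I [0,0,0,-1,0,0,0,0,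
  1] (.R ⟨1,false,false,false,[0,0,0,1],[1,-1],[0,0,0,-1,0,0,0,0,1],(⟨0,[(30,0)]⟩,⟨0,[(29,0)]⟩),(⟨0,
  [(41,0)]⟩,⟨0,[(42,0)]⟩),⟨2,[(1,0),(11,0),(5,0),(10,1)]⟩,.k,.k,(.r (-1) ⟨19,[(0,7),(8,3),(7,7),(9,
  2),(0,8)]⟩ ⟨9,[(4,9),(10,1),(0,1),(18,4),(0,2),(7,1)]⟩),(.x 0 ⟨0,[(42,0)]⟩ ⟨15,[(13,3),(5,3),(7,
  6),(0,6),(11,1)]⟩),.k,.k,⟨true,0,⟨1,[(2,0),(0,0),(26,1)]⟩,⟨0,[(4,0)]⟩⟩,⟨false,1,⟨1,[(30,1),(9,0),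
  (5,0)]⟩,⟨0,[(29,0)]⟩⟩,⟨true,0,⟨0,[(45,0)]⟩,⟨0,[(44,0)]⟩⟩,⟨false,1,⟨19,[(1,19),(2,3),(4,5),(0,4),
  (2,4),(0,9),(2,1),(1,4),(7,7),(15,9),(1,1)]⟩,⟨0,[(3,0),(3,0)]⟩⟩,⟨false,1,⟨3,[(27,0),(0,0),(18,
  1)]⟩,⟨0,[]⟩⟩,⟨false,1,⟨19,[(1,19),(2,17),(6,7),(1,1),(5,9),(1,3),(5,0),(12,0),(6,9)]⟩,⟨9,[(0,3),
  (1,0),(0,4),(3,3),(18,1),(2,3),(6,3)]⟩⟩,[.a ⟨true,0,⟨0,[(45,0)]⟩,⟨2,[(6,0),(0,0),(2,0),(23,1)]⟩⟩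
  ⟨true,0,⟨0,[(0,0)]⟩,⟨9,[(4,9),(10,1),(0,1),(18,4),(0,2),(7,1)]⟩⟩ ⟨false,1,⟨4,[(1,2),(7,0),(4,1),
  (2,1),(1,1),(1,0),(8,1),(9,0)]⟩,⟨9,[(15,1),(0,1),(12,9),(5,4),(0,2),(7,1)]⟩⟩,.o ⟨false,1,⟨1,[(40,
  0),(4,1),(1,0)]⟩,⟨0,[(44,0)]⟩⟩,.o ⟨false,0,⟨1,[(2,0),(0,0),(0,1)]⟩,⟨1,[(30,1),(9,0),(5,0)]⟩⟩,.o
  ⟨false,0,⟨0,[(29,0),(2,0),(2,0)]⟩,⟨7,[(1,5),(9,3),(7,3),(1,1),(8,1),(9,0),(5,2)]⟩⟩]⟩) (.R ⟨0,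
  false,false,true,[1,0,0,-1],[0,0,1],[0,1,0,0,0,0,0,0,-1],(⟨0,[(29,0)]⟩,⟨0,[(30,0)]⟩),(⟨0,[(39,
  0)]⟩,⟨0,[(38,0)]⟩),⟨0,[(1,0)]⟩,.k,.k,(.x (-1) ⟨15,[(13,3),(5,3),(7,6),(0,6),(11,1)]⟩ ⟨0,[(42,
  0)]⟩),.k,.k,.k,⟨true,0,⟨0,[(4,0),(32,0)]⟩,⟨5,[(1,3),(0,5),(7,2),(2,0),(5,0),(5,5),(4,1),(14,5)]⟩⟩,
  ⟨false,0,⟨5,[(2,1),(1,1),(4,1),(0,0),(9,1),(5,0),(2,3)]⟩,⟨19,[(11,11),(10,3),(4,2),(0,2),(1,19),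
  (9,1)]⟩⟩,⟨true,0,⟨0,[(49,0)]⟩,⟨0,[]⟩⟩,⟨false,0,⟨1,[(2,0),(0,0),(6,0),(18,0),(0,0)]⟩,⟨19,[(0,3),(0,
  4),(6,0),(2,7),(1,1),(0,3),(7,2),(0,19),(3,7),(2,14)]⟩⟩,⟨false,0,⟨0,[]⟩,⟨0,[]⟩⟩,⟨false,0,⟨0,[]⟩,
  ⟨0,[]⟩⟩,[.o ⟨false,0,⟨0,[(33,0)]⟩,⟨3,[(9,0),(2,0),(9,0),(11,0),(5,0),(6,2)]⟩⟩,.e ⟨true,0,⟨0,[(0,
  0),(44,0)]⟩,⟨1,[(2,0),(0,0),(26,1)]⟩⟩ ⟨true,0,⟨1,[(10,0),(18,1),(2,0),(2,0)]⟩,⟨19,[(1,14),(6,2),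
  (0,7),(3,5),(2,3),(5,4),(7,4)]⟩⟩,.o ⟨false,1,⟨1,[(30,1),(9,0),(5,0)]⟩,⟨1,[(2,0),(0,0),(0,1)]⟩⟩,.a
  ⟨true,0,⟨0,[(30,0)]⟩,⟨0,[(29,0)]⟩⟩ ⟨false,1,⟨1,[(27,0),(18,0)]⟩,⟨0,[(2,0),(27,0)]⟩⟩ ⟨true,0,⟨0,
  [(29,0),(3,0)]⟩,⟨19,[(1,14),(6,2),(0,7),(3,5),(2,3),(5,4),(7,4)]⟩⟩]⟩)))) (.Q [0,0,0,0,0,0,-1,-1,0,
  0,1,-1] (.p true [0,0,1] [0,0,0,1] (⟨0,[(36,0)]⟩,⟨0,[(35,0)]⟩) .k 2 (⟨0,[(27,0)]⟩,⟨0,[(26,0)]⟩)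
  .k (.r 0 ⟨0,[(0,0),(25,0),(2,0),(0,0)]⟩ ⟨3,[(24,0),(0,2),(8,3)]⟩)) (.I [0,1,-1,-1,0,0,0,1,-1] (.R
  ⟨1,false,false,false,[1,0,0,-1],[1,0,-1],[0,1,0,-1,0,0,0,0,-1],(⟨0,[(28,0)]⟩,⟨0,[(29,0)]⟩),(⟨0,
  [(37,0)]⟩,⟨0,[(38,0)]⟩),⟨3,[(1,1),(7,0),(2,0),(5,0),(9,1)]⟩,.k,.k,(.x (-1) ⟨15,[(12,3),(5,3),(7,
  6),(0,6),(11,1)]⟩ ⟨0,[(41,0)]⟩),.k,(.x 0 ⟨4,[(8,0),(3,2),(6,0),(0,0),(11,0),(1,0),(7,0)]⟩ ⟨4,[(7,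
  1),(2,0),(15,1),(0,1),(9,0),(3,6)]⟩),.k,⟨false,0,⟨0,[(0,0)]⟩,⟨17,[(8,1),(6,9),(6,3),(2,3),(1,8),
  (6,1),(4,1),(6,6)]⟩⟩,⟨true,0,⟨0,[(28,0),(2,0)]⟩,⟨1,[(8,0),(10,0),(9,1),(2,0),(9,0)]⟩⟩,⟨false,0,⟨0,
  [(44,0)]⟩,⟨3,[(5,1),(20,0),(0,0),(11,0),(6,0)]⟩⟩,⟨false,1,⟨1,[(1,1),(25,0),(6,0),(0,0),(10,0)]⟩,
  ⟨0,[(2,0),(29,0)]⟩⟩,⟨true,0,⟨0,[(48,0)]⟩,⟨0,[]⟩⟩,⟨false,1,⟨15,[(1,15),(12,3),(0,3),(10,0),(0,8),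
  (6,7),(0,3),(10,5)]⟩,⟨0,[(2,0),(29,0),(11,0)]⟩⟩,[.e ⟨false,0,⟨2,[(0,1),(2,0),(4,0),(39,0)]⟩,⟨3,
  [(5,1),(21,1),(11,0),(6,0)]⟩⟩ ⟨false,0,⟨0,[(1,0)]⟩,⟨7,[(9,3),(16,0),(0,0),(1,7),(9,1),(5,3)]⟩⟩,.o
  ⟨false,1,⟨3,[(8,0),(2,0),(9,0),(11,0),(5,0),(6,2)]⟩,⟨0,[(32,0)]⟩⟩,.o ⟨false,1,⟨1,[(29,1),(9,0),(5,
  0)]⟩,⟨1,[(1,1),(7,0),(21,0),(2,0)]⟩⟩,.a ⟨true,0,⟨0,[(29,0)]⟩,⟨0,[(28,0)]⟩⟩ ⟨false,0,⟨0,[(0,0),(21,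
  0)]⟩,⟨15,[(14,3),(0,3),(10,0),(0,8),(6,7),(0,3),(10,5)]⟩⟩ ⟨true,0,⟨0,[(1,0)]⟩,⟨0,[(29,0),(2,
  0)]⟩⟩]⟩) (.Q [0,-1,-1,1,0,0,0,0,-1,0,0,1] (.p true [0,0,0,1] [] (⟨0,[(29,0)]⟩,⟨0,[(28,0)]⟩) .k 0
  (⟨0,[]⟩,⟨0,[]⟩) .k .k) (.I [1,1,1,1,-1,0,0,-1,-1] (.R ⟨1,false,false,false,[1,0,0,-1],[0,-1,1],[1,
  1,0,0,0,0,0,0,-1],(⟨0,[(30,0)]⟩,⟨0,[(31,0)]⟩),(⟨1,[(14,0),(25,0)]⟩,⟨0,[(39,0),(3,0)]⟩),⟨3,[(3,1),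
  (7,0),(2,0),(5,0),(9,1)]⟩,.k,.k,(.x (-1) ⟨15,[(14,3),(5,3),(7,6),(0,6),(11,1)]⟩ ⟨0,[(43,0)]⟩),(.r
  0 ⟨1,[(0,0),(1,0),(25,0)]⟩ ⟨0,[(2,0),(8,0),(3,0),(10,0),(19,1)]⟩),.k,.k,⟨true,(-1),⟨0,[(0,0)]⟩,⟨5,
  [(11,1),(6,1),(4,1),(5,2),(14,1),(1,3),(1,0)]⟩⟩,⟨false,0,⟨0,[(30,0),(5,0)]⟩,⟨0,[(12,0),(18,0)]⟩⟩,
  ⟨false,0,⟨0,[]⟩,⟨3,[(28,0),(0,0),(18,1)]⟩⟩,⟨false,1,⟨1,[(11,0),(17,0),(0,1),(2,0),(2,0),(9,1),(1,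
  0)]⟩,⟨0,[(4,0),(8,0)]⟩⟩,⟨true,0,⟨0,[(45,0)]⟩,⟨0,[(46,0)]⟩⟩,⟨false,1,⟨1,[(11,0),(17,0),(0,1),(2,0),
  (2,0),(11,0)]⟩,⟨0,[(4,0),(27,0)]⟩⟩,[.e ⟨false,0,⟨0,[(0,0),(17,0)]⟩,⟨1,[(29,0),(18,0)]⟩⟩ ⟨false,0,
  ⟨0,[(3,0),(7,0),(34,0)]⟩,⟨19,[(1,9),(8,1),(2,15),(1,3),(12,3),(0,8),(1,9),(16,2)]⟩⟩,.o ⟨false,1,
  ⟨7,[(11,3),(16,0),(0,0),(11,1),(4,7),(1,3)]⟩,⟨0,[(13,0)]⟩⟩,.o ⟨false,1,⟨1,[(31,1),(9,0),(5,0)]⟩,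
  ⟨1,[(3,1),(7,0),(21,0),(2,0)]⟩⟩,.a ⟨true,0,⟨0,[(31,0)]⟩,⟨0,[(30,0)]⟩⟩ ⟨false,0,⟨1,[(0,0),(2,0),(0,
  0),(6,0),(3,0)]⟩,⟨1,[(29,0),(6,0),(0,0),(10,0)]⟩⟩ ⟨true,0,⟨0,[(3,0),(7,0),(34,0)]⟩,⟨0,[(13,0),(17,
  0)]⟩⟩]⟩) (.I [0,1,-1,-2,0,0,0,1,-1] (.Q [0,0,0,-1,0,0,1,1,0,0,-1,1] (.p false [0,0,1] [0,0,0,1]
  (⟨0,[(41,0)]⟩,⟨0,[(40,0)]⟩) .k 2 (⟨0,[(32,0)]⟩,⟨0,[(31,0)]⟩) .k (.r 0 ⟨1,[(0,0),(5,0),(10,0)]⟩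
  ⟨55,[(3,11),(7,15),(2,3),(13,3),(0,16),(0,38),(5,7),(0,3)]⟩)) (.R ⟨1,false,false,false,[1,0,0,-1],
  [1,1,-1],[1,0,1,1,0,0,0,-1],(⟨0,[(32,0)]⟩,⟨0,[(33,0)]⟩),(⟨0,[(41,0),(3,0)]⟩,⟨1,[(16,0),(25,0)]⟩),
  ⟨3,[(5,1),(7,0),(2,0),(5,0),(9,1)]⟩,.k,.k,(.x (-1) ⟨15,[(16,3),(5,3),(7,6),(0,6),(11,1)]⟩ ⟨0,[(45,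
  0)]⟩),(.r (-1) ⟨19,[(1,5),(0,3),(5,1),(11,5),(9,8),(19,0)]⟩ ⟨0,[(4,0),(47,0)]⟩),(.r (-1) ⟨15,[(1,
  9),(5,3),(4,1),(7,9),(9,0),(19,4)]⟩ ⟨1,[(4,1),(33,0),(0,0),(7,1)]⟩),.k,⟨true,0,⟨0,[]⟩,⟨1,[(38,0),
  (0,0)]⟩⟩,⟨false,1,⟨4,[(5,1),(2,0),(5,1),(2,0),(12,0),(0,0),(0,2)]⟩,⟨17,[(0,10),(2,2),(0,2),(7,0),
  (2,5),(13,5),(3,3),(4,0)]⟩⟩,⟨false,0,⟨0,[(4,0)]⟩,⟨19,[(1,5),(0,3),(5,1),(11,5),(9,8),(19,0)]⟩⟩,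
  ⟨false,1,⟨15,[(4,7),(0,11),(12,3),(11,4),(0,8),(0,3),(2,3),(14,1)]⟩,⟨6,[(0,1),(0,1),(4,4),(5,0),
  (23,4),(9,0)]⟩⟩,⟨true,0,⟨0,[(4,0),(42,0)]⟩,⟨0,[(1,0)]⟩⟩,⟨false,1,⟨15,[(4,7),(0,11),(12,7),(0,3),
  (10,4),(0,8),(0,3),(10,1)]⟩,⟨6,[(0,3),(0,3),(4,2),(5,1),(23,2),(9,1)]⟩⟩,[.a ⟨true,0,⟨5,[(10,0),(1,
  0),(6,2),(5,0),(11,0)]⟩,⟨0,[(0,0),(31,0)]⟩⟩ ⟨false,0,⟨2,[(15,0),(3,0),(6,0),(2,0)]⟩,⟨21,[(1,5),(0,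
  5),(5,1),(11,5),(9,4),(0,4)]⟩⟩ ⟨true,0,⟨9,[(5,7),(9,1),(2,1),(0,1),(12,1),(5,4),(0,2)]⟩,⟨0,[(0,
  0)]⟩⟩,.o ⟨false,1,⟨0,[(15,0),(34,0)]⟩,⟨0,[(36,0),(11,0)]⟩⟩,.o ⟨false,1,⟨1,[(33,1),(9,0),(5,0)]⟩,
  ⟨1,[(5,1),(7,0),(21,0),(2,0)]⟩⟩,.e ⟨false,0,⟨0,[(12,0),(5,0)]⟩,⟨15,[(1,5),(0,5),(5,1),(21,4),(0,
  4),(6,4),(0,4)]⟩⟩ ⟨false,1,⟨7,[(5,3),(13,3),(10,0),(0,0),(0,3),(10,1),(6,3)]⟩,⟨0,[(0,0)]⟩⟩]⟩) (.R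
  ⟨1,false,false,false,[1,0,0,-1],[1,1,-1],[1,0,1,1,0,0,0,-1],(⟨0,[(32,0)]⟩,⟨0,[(33,0)]⟩),(⟨0,[(41,
  0),(3,0)]⟩,⟨1,[(16,0),(25,0)]⟩),⟨3,[(5,1),(7,0),(2,0),(5,0),(9,1)]⟩,.k,.k,(.x (-1) ⟨15,[(16,3),(5,
  3),(7,6),(0,6),(11,1)]⟩ ⟨0,[(45,0)]⟩),(.r (-1) ⟨19,[(1,5),(0,3),(5,1),(11,5),(9,8),(19,0)]⟩ ⟨0,
  [(4,0),(47,0)]⟩),(.r (-1) ⟨15,[(1,9),(5,3),(4,1),(7,9),(9,0),(19,4)]⟩ ⟨1,[(4,1),(33,0),(0,0),(7,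
  1)]⟩),.k,⟨true,0,⟨0,[]⟩,⟨1,[(38,0),(0,0)]⟩⟩,⟨false,1,⟨4,[(0,1),(7,0),(8,2),(12,0),(0,0),(0,2)]⟩,
  ⟨6,[(4,1),(1,1),(5,1),(20,4),(2,5),(1,0),(7,0)]⟩⟩,⟨false,0,⟨0,[(4,0)]⟩,⟨19,[(1,5),(0,3),(5,1),(11,
  5),(9,8),(19,0)]⟩⟩,⟨false,1,⟨5,[(0,3),(3,1),(20,1),(4,0),(0,2),(0,1),(5,1),(11,1)]⟩,⟨0,[(6,0),(29,
  0),(11,0)]⟩⟩,⟨true,0,⟨0,[(4,0),(42,0)]⟩,⟨0,[(1,0)]⟩⟩,⟨false,1,⟨35,[(0,31),(3,15),(13,11),(6,3),(4,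
  10),(0,20),(0,3),(5,3),(11,3)]⟩,⟨0,[(6,0),(29,0),(11,1)]⟩⟩,[.e ⟨false,0,⟨2,[(15,0),(3,0),(6,0),(2,
  0)]⟩,⟨21,[(1,5),(0,5),(5,1),(11,5),(9,4),(0,4)]⟩⟩ ⟨false,0,⟨0,[(0,0)]⟩,⟨7,[(1,1),(0,1),(10,0),(6,
  1),(8,2),(0,0),(0,0),(1,7),(9,1)]⟩⟩,.o ⟨false,1,⟨0,[(15,0),(34,0)]⟩,⟨0,[(36,0),(11,0)]⟩⟩,.o
  ⟨false,1,⟨1,[(33,1),(9,0),(5,0)]⟩,⟨1,[(5,1),(7,0),(21,0),(2,0)]⟩⟩,.a ⟨true,0,⟨0,[(33,0)]⟩,⟨0,[(32,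
  0)]⟩⟩ ⟨false,0,⟨3,[(0,0),(2,0),(0,0),(18,0),(2,2)]⟩,⟨15,[(1,5),(0,5),(5,1),(21,4),(0,4),(6,4),(0,
  4)]⟩⟩ ⟨true,0,⟨0,[(0,0)]⟩,⟨0,[(33,0),(2,0),(11,0)]⟩⟩]⟩)) (.K ⟨1,[1,-1,0,-1],0,0,(⟨3,[(4,1),(7,0),
  (2,0),(5,0),(9,1)]⟩,⟨0,[(32,0),(11,0)]⟩),(.x (-1) ⟨15,[(15,3),(5,3),(7,6),(0,6),(11,1)]⟩ ⟨0,[(44,
  0)]⟩),(.r (-1) ⟨4,[(6,2),(4,1),(7,3),(9,0),(17,3)]⟩ ⟨2,[(0,0),(2,1),(3,1),(28,0),(0,0),(13,1)]⟩),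
  .k,.k,.k,[⟨1,[(31,1),(5,0),(0,0)]⟩,⟨6,[(3,1),(1,1),(5,1),(20,4),(1,6),(0,5),(1,0),(7,0)]⟩,⟨0,[(3,
  0),(23,0),(3,0),(3,0),(11,0)]⟩,⟨0,[(5,0),(41,0)]⟩]⟩))) (.R ⟨2,false,false,true,[0,1],[0,0,0,1],
  [1],(⟨0,[]⟩,⟨0,[]⟩),(⟨0,[(30,0)]⟩,⟨0,[(29,0)]⟩),⟨0,[]⟩,.k,.k,.k,(.r 0 ⟨9,[(4,9),(10,1),(0,1),(18,
  4),(0,2),(7,1)]⟩ ⟨19,[(9,3),(7,7),(9,0),(0,10),(16,7)]⟩),.k,.k,⟨true,0,⟨1,[(2,0),(0,0),(0,0),(28,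
  0),(9,0)]⟩,⟨3,[(0,2),(0,0),(18,0),(4,0),(4,2)]⟩⟩,⟨false,0,⟨1,[(2,1),(7,0),(21,0),(2,0)]⟩,⟨0,[(30,
  0),(15,0)]⟩⟩,⟨false,1,⟨19,[(9,3),(7,7),(9,0),(0,0),(16,7),(1,9)]⟩,⟨9,[(15,1),(0,1),(18,4),(0,2),
  (7,1)]⟩⟩,⟨true,0,⟨0,[(0,0)]⟩,⟨0,[(3,0),(40,0)]⟩⟩,⟨false,1,⟨1,[(46,0),(0,0)]⟩,⟨1,[(35,0),(0,0)]⟩⟩,
  ⟨false,1,⟨9,[(0,5),(0,1),(13,1),(11,2),(0,3),(0,3),(10,1),(6,0)]⟩,⟨0,[(3,0)]⟩⟩,[.e ⟨true,0,⟨0,[]⟩,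
  ⟨1,[(35,0),(0,0)]⟩⟩ ⟨true,0,⟨9,[(0,9),(14,1),(0,1),(18,4),(0,2),(7,1)]⟩,⟨0,[(3,0)]⟩⟩,.a ⟨true,0,
  ⟨0,[(0,0),(6,0)]⟩,⟨0,[(3,0),(45,0)]⟩⟩ ⟨false,1,⟨1,[(46,0),(0,0)]⟩,⟨0,[(49,0)]⟩⟩ ⟨true,0,⟨5,[(0,4),
  (0,0),(0,0),(12,1),(19,1),(0,0),(6,0)]⟩,⟨0,[(3,0),(45,0)]⟩⟩,.o ⟨false,1,⟨3,[(27,0),(0,0),(17,1)]⟩,
  ⟨1,[(9,0),(10,0),(11,1),(0,0),(9,0)]⟩⟩,.e ⟨false,1,⟨1,[(46,0),(0,0)]⟩,⟨1,[(35,0),(0,0)]⟩⟩ ⟨false,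
  1,⟨9,[(0,5),(0,1),(13,1),(11,2),(0,3),(0,3),(10,1),(6,0)]⟩,⟨0,[(3,0)]⟩⟩]⟩))) (.Q [0,1,1,-1,0,0,0,
  0,1,0,0,-1] (.p false [0,0,0,1] [] (⟨0,[(28,0)]⟩,⟨0,[(27,0)]⟩) .k 0 (⟨0,[]⟩,⟨0,[]⟩) .k .k) (.R ⟨2,
  false,false,true,[0,1],[0,0,0,1],[1],(⟨0,[]⟩,⟨0,[]⟩),(⟨0,[(29,0)]⟩,⟨0,[(28,0)]⟩),⟨0,[]⟩,.k,.k,.k,
  (.r 0 ⟨9,[(3,9),(10,1),(0,1),(18,4),(0,2),(7,1)]⟩ ⟨19,[(8,3),(7,7),(9,0),(0,10),(16,7)]⟩),.k,.k,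
  ⟨true,0,⟨1,[(2,1),(5,0),(10,0),(8,1),(2,1),(0,0),(9,0)]⟩,⟨1,[(0,1),(0,0),(13,0),(13,0)]⟩⟩,⟨false,
  0,⟨1,[(8,0),(10,0),(8,1),(2,1),(0,0),(9,0)]⟩,⟨0,[(29,0),(15,0)]⟩⟩,⟨false,1,⟨19,[(8,3),(7,7),(9,0),
  (0,0),(16,7),(1,9)]⟩,⟨9,[(14,1),(0,1),(18,4),(0,2),(7,1)]⟩⟩,⟨true,0,⟨0,[(0,0)]⟩,⟨0,[(2,0),(40,
  0)]⟩⟩,⟨false,1,⟨1,[(45,0),(0,0)]⟩,⟨1,[(34,0),(0,0)]⟩⟩,⟨false,1,⟨23,[(0,15),(13,3),(0,3),(10,4),(0,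
  8),(0,7),(5,3),(4,3),(6,5)]⟩,⟨0,[(2,0)]⟩⟩,[.e ⟨true,0,⟨0,[]⟩,⟨1,[(34,0),(0,0)]⟩⟩ ⟨true,0,⟨9,[(0,
  9),(13,1),(0,1),(18,4),(0,2),(7,1)]⟩,⟨0,[(2,0)]⟩⟩,.a ⟨true,0,⟨0,[(0,0),(5,0)]⟩,⟨0,[(2,0),(45,
  0)]⟩⟩ ⟨false,1,⟨1,[(45,0),(0,0)]⟩,⟨0,[(48,0)]⟩⟩ ⟨true,0,⟨15,[(0,15),(13,3),(0,3),(18,4),(0,0),(6,
  5)]⟩,⟨0,[(2,0),(45,0)]⟩⟩,.o ⟨false,1,⟨3,[(26,0),(0,0),(17,1)]⟩,⟨1,[(8,0),(10,0),(11,1),(0,0),(9,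
  0)]⟩⟩,.e ⟨false,1,⟨1,[(45,0),(0,0)]⟩,⟨1,[(34,0),(0,0)]⟩⟩ ⟨false,1,⟨23,[(0,15),(13,3),(0,3),(10,4),
  (0,8),(0,7),(5,3),(4,3),(6,5)]⟩,⟨0,[(2,0)]⟩⟩]⟩) (.Q [0,0,0,0,0,-1,0,0,0,1,0,-1] (.ed true [0,1,0,
  1] .k) (.I [1,1,-1,0,0,0,0,1,-1] (.R ⟨1,false,false,false,[1,0,0,-1],[1,0,-1],[1,1,0,0,0,0,0,0,
  -1],(⟨0,[(30,0)]⟩,⟨0,[(31,0)]⟩),(⟨0,[(39,0)]⟩,⟨0,[(40,0)]⟩),⟨0,[(1,0)]⟩,.k,.k,(.x (-1) ⟨15,[(14,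
  3),(5,3),(7,6),(0,6),(11,1)]⟩ ⟨0,[(43,0)]⟩),.k,(.x 0 ⟨4,[(10,0),(3,2),(6,0),(0,0),(11,0),(1,0),(7,
  0)]⟩ ⟨4,[(9,1),(2,0),(15,1),(0,1),(9,0),(3,6)]⟩),.k,⟨false,0,⟨0,[(0,0)]⟩,⟨1,[(29,0),(8,1),(9,
  0)]⟩⟩,⟨true,0,⟨0,[(30,0),(2,0)]⟩,⟨5,[(3,4),(6,1),(6,0),(13,0),(4,1)]⟩⟩,⟨false,0,⟨0,[]⟩,⟨3,[(28,0),
  (0,0),(18,1)]⟩⟩,⟨false,1,⟨1,[(29,0),(0,1),(2,1),(4,1),(9,0)]⟩,⟨0,[(4,0),(29,0)]⟩⟩,⟨true,0,⟨0,[(45,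
  0)]⟩,⟨0,[(46,0)]⟩⟩,⟨false,1,⟨13,[(13,9),(3,1),(11,6),(0,13),(2,3),(1,1),(0,3),(7,5),(3,6)]⟩,⟨0,
  [(4,0),(29,0),(11,0)]⟩⟩,[.a ⟨true,0,⟨2,[(8,0),(1,0),(12,0),(11,0)]⟩,⟨1,[(11,0),(18,0),(0,0)]⟩⟩
  ⟨false,0,⟨2,[(0,1),(4,0),(4,0),(34,0)]⟩,⟨1,[(29,0),(18,0)]⟩⟩ ⟨true,0,⟨0,[(30,0),(2,0),(4,0)]⟩,⟨0,
  [(3,0)]⟩⟩,.o ⟨false,1,⟨3,[(10,0),(2,0),(9,0),(11,0),(5,0),(6,2)]⟩,⟨0,[(34,0)]⟩⟩,.o ⟨false,1,⟨1,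
  [(31,1),(9,0),(5,0)]⟩,⟨1,[(10,0),(10,0),(8,1),(2,1),(0,0),(9,0)]⟩⟩,.e ⟨false,0,⟨0,[(0,0),(23,0)]⟩,
  ⟨1,[(29,0),(6,0),(0,0),(10,0)]⟩⟩ ⟨false,1,⟨3,[(10,0),(2,0),(9,0),(6,3),(4,0),(5,0),(6,2)]⟩,⟨0,[(3,
  0)]⟩⟩]⟩) (.I [0,1,-1,-2,0,0,0,1,-1] (.R ⟨1,false,false,false,[1,0,0,-1],[1,1,-1],[0,1,0,-1,0,0,0,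
  0,-1],(⟨0,[(31,0)]⟩,⟨0,[(32,0)]⟩),(⟨0,[(40,0),(3,0)]⟩,⟨1,[(15,0),(25,0)]⟩),⟨0,[(2,0)]⟩,.k,.k,(.x
  (-1) ⟨15,[(15,3),(5,3),(7,6),(0,6),(11,1)]⟩ ⟨0,[(44,0)]⟩),(.r (-1) ⟨15,[(0,5),(6,1),(11,5),(9,5),
  (0,0),(18,2)]⟩ ⟨0,[(1,0),(44,0)]⟩),(.r (-1) ⟨15,[(0,9),(5,3),(4,1),(7,9),(9,0),(19,4)]⟩ ⟨9,[(1,9),
  (15,1),(0,1),(18,4),(0,2),(7,11)]⟩),.k,⟨true,0,⟨0,[(0,0)]⟩,⟨9,[(1,9),(15,3),(0,3),(18,4),(0,0),(7,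
  3)]⟩⟩,⟨false,1,⟨19,[(13,11),(10,3),(4,2),(0,2),(0,19),(10,1)]⟩,⟨13,[(1,0),(1,0),(0,8),(6,2),(2,1),
  (13,1),(3,3),(4,2)]⟩⟩,⟨false,0,⟨0,[(47,0)]⟩,⟨3,[(8,1),(20,0),(0,0),(11,0),(6,0)]⟩⟩,⟨false,1,⟨55,
  [(1,35),(15,3),(0,23),(5,15),(4,8),(0,18),(0,55),(10,19),(6,7)]⟩,⟨4,[(0,1),(3,1),(0,2),(5,0),(23,
  2),(9,0)]⟩⟩,⟨true,0,⟨0,[(51,0)]⟩,⟨0,[]⟩⟩,⟨false,1,⟨13,[(1,7),(15,3),(0,9),(5,1),(4,1),(0,4),(0,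
  13),(10,5),(6,0)]⟩,⟨4,[(0,3),(3,3),(0,0),(5,1),(23,0),(9,1)]⟩⟩,[.a ⟨true,0,⟨5,[(9,0),(1,0),(6,2),
  (5,0),(11,0)]⟩,⟨1,[(0,0),(0,0),(10,0),(18,0),(0,0)]⟩⟩ ⟨false,0,⟨12,[(0,7),(2,0),(2,3),(4,3),(2,0),
  (7,0),(8,0),(14,3)]⟩,⟨3,[(8,1),(21,1),(11,0),(6,0)]⟩⟩ ⟨true,0,⟨4,[(1,0),(4,0),(7,2),(3,0),(12,4),
  (2,1),(2,0),(7,0)]⟩,⟨1,[(0,0),(0,0),(2,1)]⟩⟩,.o ⟨false,1,⟨0,[(14,0),(34,0)]⟩,⟨1,[(0,0),(0,0),(33,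
  1)]⟩⟩,.o ⟨false,1,⟨1,[(32,1),(9,0),(5,0)]⟩,⟨1,[(11,0),(10,0),(8,1),(2,1),(0,0),(9,0)]⟩⟩,.e ⟨false,
  0,⟨0,[(0,0),(10,0),(5,0)]⟩,⟨7,[(1,3),(15,3),(11,2),(0,4)]⟩⟩ ⟨false,1,⟨0,[(14,0),(16,0),(17,0)]⟩,
  ⟨1,[(0,0),(0,0),(2,1)]⟩⟩]⟩) (.K ⟨1,[1,-1,0,-1],0,0,(⟨0,[(2,0)]⟩,⟨0,[(32,0),(11,0)]⟩),(.x (-1) ⟨15,
  [(15,3),(5,3),(7,6),(0,6),(11,1)]⟩ ⟨0,[(44,0)]⟩),(.r (-1) ⟨4,[(6,2),(4,1),(7,3),(9,0),(17,3)]⟩ ⟨2,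
  [(0,0),(0,1),(5,1),(28,0),(0,0),(8,1)]⟩),.k,.k,.k,[⟨1,[(31,1),(5,0),(0,0)]⟩,⟨10,[(1,0),(2,6),(0,
  0),(5,1),(2,1),(17,2),(1,8),(2,3)]⟩,⟨0,[(1,0),(25,0),(3,0),(3,0)]⟩,⟨0,[(5,0),(41,0)]⟩]⟩))) (.I [0,
  1,-1,0,0,0,0,1,-1] (.R ⟨0,false,false,false,[1,0,0,-1],[1,0,-1],[0,1,0,0,0,0,0,0,-1],(⟨0,[(30,
  0)]⟩,⟨0,[(31,0)]⟩),(⟨0,[(39,0)]⟩,⟨0,[(40,0)]⟩),⟨0,[(1,0)]⟩,.k,.k,(.x (-1) ⟨15,[(14,3),(5,3),(7,6),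
  (0,6),(11,1)]⟩ ⟨0,[(43,0)]⟩),.k,.k,.k,⟨false,0,⟨0,[(0,0)]⟩,⟨1,[(29,0),(8,1),(9,0)]⟩⟩,⟨true,0,⟨0,
  [(30,0),(2,0)]⟩,⟨5,[(3,4),(6,1),(6,0),(13,0),(4,1)]⟩⟩,⟨true,0,⟨0,[(50,0)]⟩,⟨0,[]⟩⟩,⟨false,1,⟨1,
  [(29,0),(0,1),(2,1),(4,1),(9,0)]⟩,⟨0,[(4,0),(29,0)]⟩⟩,⟨false,0,⟨0,[]⟩,⟨0,[]⟩⟩,⟨false,0,⟨0,[]⟩,⟨0,
  []⟩⟩,[.a ⟨true,0,⟨2,[(8,0),(1,0),(12,0),(11,0)]⟩,⟨1,[(11,0),(18,0),(0,0)]⟩⟩ ⟨false,0,⟨2,[(0,1),(4,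
  0),(4,0),(34,0)]⟩,⟨1,[(29,0),(18,0)]⟩⟩ ⟨true,0,⟨0,[(30,0),(2,0),(4,0)]⟩,⟨0,[(3,0)]⟩⟩,.o ⟨false,1,
  ⟨3,[(10,0),(2,0),(9,0),(11,0),(5,0),(6,2)]⟩,⟨0,[(34,0)]⟩⟩,.o ⟨false,1,⟨1,[(31,1),(9,0),(5,0)]⟩,⟨1,
  [(10,0),(10,0),(8,1),(2,1),(0,0),(9,0)]⟩⟩,.e ⟨false,0,⟨0,[(0,0),(23,0)]⟩,⟨1,[(29,0),(6,0),(0,0),
  (10,0)]⟩⟩ ⟨false,1,⟨3,[(10,0),(2,0),(9,0),(6,3),(4,0),(5,0),(6,2)]⟩,⟨0,[(3,0)]⟩⟩]⟩) (.Q [0,1,1,-1,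
  0,0,-1,-1,1,0,1,-1] (.p true [0,0,1] [0,0,0,1] (⟨0,[(40,0)]⟩,⟨0,[(39,0)]⟩) .k 2 (⟨0,[(31,0)]⟩,⟨0,
  [(30,0)]⟩) .k (.r 0 ⟨0,[(4,0),(25,0),(2,0),(0,0)]⟩ ⟨41,[(0,9),(9,9),(2,5),(3,1),(9,5),(0,12),(0,
  28),(5,3)]⟩)) (.R ⟨0,false,false,true,[1,0,0,-1],[1,-1,-1],[1,1],(⟨0,[(31,0)]⟩,⟨0,[(32,0)]⟩),(⟨0,
  [(26,0)]⟩,⟨0,[(41,0),(2,0)]⟩),⟨0,[(2,0)]⟩,.k,.k,(.x (-1) ⟨15,[(15,3),(5,3),(7,6),(0,6),(11,1)]⟩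
  ⟨0,[(44,0)]⟩),(.r 0 ⟨4,[(6,4),(0,1),(9,0),(19,0),(0,0),(7,0)]⟩ ⟨19,[(11,11),(7,3),(9,2),(0,12),
  (16,3)]⟩),.k,.k,⟨true,0,⟨4,[(7,1),(9,0),(19,0),(0,0),(7,0)]⟩,⟨3,[(11,1),(25,0),(0,0),(8,1)]⟩⟩,
  ⟨false,0,⟨0,[(31,0),(2,0)]⟩,⟨19,[(3,1),(0,9),(6,3),(2,1),(13,5),(1,0),(1,7),(9,1),(5,16)]⟩⟩,
  ⟨false,1,⟨3,[(29,0),(0,2)]⟩,⟨1,[(5,1),(5,0),(10,0),(8,1),(2,1),(0,0),(9,0)]⟩⟩,⟨true,0,⟨0,[(0,0)]⟩,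
  ⟨0,[(5,0),(16,0)]⟩⟩,⟨false,0,⟨0,[]⟩,⟨0,[]⟩⟩,⟨false,0,⟨0,[]⟩,⟨0,[]⟩⟩,[.o ⟨false,0,⟨0,[(33,0),(13,
  0)]⟩,⟨0,[(22,0),(26,0)]⟩⟩,.e ⟨true,0,⟨0,[]⟩,⟨1,[(37,0),(0,0)]⟩⟩ ⟨true,0,⟨3,[(0,1),(5,1),(4,0),(19,
  1),(2,1),(10,0),(1,0)]⟩,⟨5,[(2,3),(1,1),(3,1),(3,0),(2,0),(5,0),(0,1)]⟩⟩,.o ⟨false,1,⟨1,[(32,1),
  (9,0),(5,0)]⟩,⟨1,[(11,0),(10,0),(8,1),(2,1),(0,0),(9,0)]⟩⟩,.a ⟨true,0,⟨0,[(32,0)]⟩,⟨0,[(31,0)]⟩⟩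
  ⟨false,1,⟨3,[(29,0),(0,0),(17,1)]⟩,⟨3,[(37,0),(0,0),(6,1)]⟩⟩ ⟨true,0,⟨0,[(31,0),(1,0),(13,0)]⟩,⟨5,
  [(2,3),(1,1),(3,1),(3,0),(2,0),(5,0),(0,1)]⟩⟩]⟩) (.Q [0,0,0,-1,0,0,0,0,0,-1,0,1] (.p true [0,0,0,
  1] [1] (⟨0,[(32,0)]⟩,⟨0,[(31,0)]⟩) .k 1 (⟨0,[]⟩,⟨0,[]⟩) .k .k) (.R ⟨0,false,false,true,[1,0,0,-1],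
  [0,1],[1,1],(⟨0,[(32,0)]⟩,⟨0,[(33,0)]⟩),(⟨0,[(45,0)]⟩,⟨0,[(44,0)]⟩),⟨0,[(3,0)]⟩,.k,.k,(.x (-1)
  ⟨15,[(16,3),(5,3),(7,6),(0,6),(11,1)]⟩ ⟨0,[(45,0)]⟩),(.x (-1) ⟨15,[(16,3),(5,3),(7,6),(0,6),(11,
  1)]⟩ ⟨0,[(45,0)]⟩),.k,.k,⟨false,1,⟨11,[(12,3),(7,7),(9,0),(0,0),(17,1)]⟩,⟨9,[(18,1),(0,1),(18,4),
  (0,2),(7,1)]⟩⟩,⟨true,0,⟨0,[(32,0)]⟩,⟨5,[(0,2),(14,0),(2,0),(14,2),(1,1),(2,2)]⟩⟩,⟨false,1,⟨3,[(30,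
  0),(0,2)]⟩,⟨3,[(1,1),(5,1),(4,0),(19,1),(2,1),(10,0),(1,0)]⟩⟩,⟨true,0,⟨0,[(2,0),(25,0),(3,0),(3,
  0)]⟩,⟨0,[(1,0),(32,0),(13,1)]⟩⟩,⟨false,0,⟨0,[]⟩,⟨0,[]⟩⟩,⟨false,0,⟨0,[]⟩,⟨0,[]⟩⟩,[.o ⟨false,0,⟨0,
  [(47,0)]⟩,⟨1,[(43,0),(4,1),(1,0)]⟩⟩,.e ⟨true,0,⟨0,[]⟩,⟨1,[(38,0),(0,0)]⟩⟩ ⟨true,0,⟨9,[(18,1),(0,
  1),(12,9),(5,4),(0,2),(7,1)]⟩,⟨0,[(0,0)]⟩⟩,.o ⟨false,1,⟨1,[(33,1),(9,0),(5,0)]⟩,⟨1,[(12,0),(10,0),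
  (8,1),(2,1),(0,0),(9,0)]⟩⟩,.a ⟨true,0,⟨0,[(33,0)]⟩,⟨0,[(32,0)]⟩⟩ ⟨false,1,⟨3,[(30,0),(0,0),(17,
  1)]⟩,⟨3,[(38,0),(0,0),(6,1)]⟩⟩ ⟨true,0,⟨0,[(32,0),(14,0)]⟩,⟨0,[(0,0)]⟩⟩]⟩) (.R ⟨0,false,false,
  true,[1,0,0,-1],[0,1],[1,1],(⟨0,[(32,0)]⟩,⟨0,[(33,0)]⟩),(⟨0,[(45,0)]⟩,⟨0,[(44,0)]⟩),⟨0,[(3,0)]⟩,
  .k,.k,(.x (-1) ⟨15,[(16,3),(5,3),(7,6),(0,6),(11,1)]⟩ ⟨0,[(45,0)]⟩),(.x (-1) ⟨15,[(16,3),(5,3),(7,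
  6),(0,6),(11,1)]⟩ ⟨0,[(45,0)]⟩),.k,.k,⟨false,1,⟨11,[(12,3),(7,7),(9,0),(0,0),(17,1)]⟩,⟨9,[(18,1),
  (0,1),(18,4),(0,2),(7,1)]⟩⟩,⟨true,0,⟨0,[(32,0)]⟩,⟨6,[(3,4),(7,0),(4,1),(16,1),(1,1),(2,3)]⟩⟩,
  ⟨false,1,⟨3,[(30,0),(0,2)]⟩,⟨3,[(1,1),(5,1),(4,0),(19,1),(2,1),(10,0),(1,0)]⟩⟩,⟨true,0,⟨0,[(2,0),
  (25,0),(3,0),(3,0)]⟩,⟨0,[(1,0),(32,0),(13,1)]⟩⟩,⟨false,0,⟨0,[]⟩,⟨0,[]⟩⟩,⟨false,0,⟨0,[]⟩,⟨0,[]⟩⟩,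
  [.o ⟨false,0,⟨0,[(47,0)]⟩,⟨1,[(43,0),(4,1),(1,0)]⟩⟩,.a ⟨true,0,⟨2,[(9,0),(0,0),(2,0),(23,1)]⟩,⟨0,
  [(48,0)]⟩⟩ ⟨true,0,⟨0,[]⟩,⟨1,[(38,0),(0,0)]⟩⟩ ⟨false,0,⟨0,[(0,0)]⟩,⟨19,[(5,7),(6,3),(4,7),(12,2),
  (0,2),(1,11),(9,5),(4,7)]⟩⟩,.o ⟨false,1,⟨1,[(33,1),(9,0),(5,0)]⟩,⟨1,[(12,0),(10,0),(8,1),(2,1),(0,
  0),(9,0)]⟩⟩,.e ⟨false,1,⟨3,[(30,0),(0,0),(17,1)]⟩,⟨3,[(38,0),(0,0),(6,1)]⟩⟩ ⟨false,0,⟨0,[(0,0)]⟩,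
  ⟨1,[(33,1),(9,0),(4,1),(1,0)]⟩⟩]⟩))))))))))) (.I [1,0,0,0,0,0,0,0,-1] (.Q [0,1,-1,0,0,0,0,0,-1,0,
  0,1] (.p true [0,0,0,1] [] (⟨0,[(24,0)]⟩,⟨0,[(23,0)]⟩) .k 0 (⟨0,[]⟩,⟨0,[]⟩) .k .k) (.Q [0,1,1,0,0,
  0,0,0,1,0,0,-1] (.p false [0,0,0,1] [] (⟨0,[(25,0)]⟩,⟨0,[(24,0)]⟩) .k 0 (⟨0,[]⟩,⟨0,[]⟩) .k .k)
  (.K ⟨0,[0,0,0,1],0,0,(⟨0,[(26,0)]⟩,⟨0,[(25,0)]⟩),.k,(.r (-1) ⟨19,[(5,3),(7,7),(9,0),(0,10),(16,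
  7)]⟩ ⟨9,[(2,9),(8,1),(0,1),(18,4),(0,2),(7,1)]⟩),(.x 0 ⟨0,[(38,0)]⟩ ⟨15,[(9,3),(5,3),(7,6),(0,6),
  (11,1)]⟩),.k,.k,[⟨0,[(26,0)]⟩,⟨0,[(25,0)]⟩,⟨0,[(1,0)]⟩,⟨0,[(0,0)]⟩]⟩) (.Q [0,0,0,0,0,0,1,1,0,0,-1,
  1] (.p false [0,0,1] [0,0,0,1] (⟨0,[(35,0)]⟩,⟨0,[(34,0)]⟩) .k 2 (⟨0,[(26,0)]⟩,⟨0,[(25,0)]⟩) .k
  (.r 0 ⟨8,[(0,4),(1,3),(0,3),(2,2),(4,0),(4,1),(1,3),(6,4)]⟩ ⟨3,[(23,0),(0,2),(8,3)]⟩)) (.Q [0,0,0,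
  0,0,1,0,0,0,-1,0,1] (.ed false [0,1,0,1] .k) (.I [0,1,1,0,0,0,0,0,1] (.Q [0,1,1,-1,0,0,-1,-1,1,0,
  1,-1] (.p true [0,0,1] [0,0,0,1] (⟨0,[(38,0)]⟩,⟨0,[(37,0)]⟩) .k 2 (⟨0,[(29,0)]⟩,⟨0,[(28,0)]⟩) .k
  (.r 0 ⟨8,[(3,4),(1,3),(0,3),(2,2),(4,0),(4,1),(1,3),(6,4)]⟩ ⟨3,[(26,0),(0,2),(8,3)]⟩)) (.R ⟨0,
  false,false,true,[1,0,0,-1],[1,-1,-1],[0,1,0,-1,0,0,0,-1],(⟨0,[(29,0)]⟩,⟨0,[(30,0)]⟩),(⟨0,[(24,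
  0)]⟩,⟨0,[(39,0),(2,0)]⟩),⟨0,[(2,0)]⟩,.k,.k,(.x (-1) ⟨15,[(13,3),(5,3),(7,6),(0,6),(11,1)]⟩ ⟨0,
  [(42,0)]⟩),(.r 0 ⟨11,[(6,11),(3,1),(4,3),(4,3),(1,1),(12,0),(0,4)]⟩ ⟨19,[(9,11),(7,3),(9,2),(0,
  12),(16,3)]⟩),.k,.k,⟨true,0,⟨1,[(35,0),(0,0)]⟩,⟨0,[]⟩⟩,⟨false,0,⟨0,[(29,0),(2,0)]⟩,⟨15,[(3,9),(0,
  2),(0,2),(3,3),(6,1),(9,3),(1,2),(11,1),(5,10)]⟩⟩,⟨false,1,⟨19,[(0,3),(8,7),(17,4),(0,12),(1,3),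
  (4,3),(9,7),(1,1)]⟩,⟨0,[(4,0),(2,0),(7,0),(13,0)]⟩⟩,⟨true,0,⟨0,[(0,0)]⟩,⟨0,[(4,0),(15,0)]⟩⟩,
  ⟨false,0,⟨0,[]⟩,⟨0,[]⟩⟩,⟨false,0,⟨0,[]⟩,⟨0,[]⟩⟩,[.o ⟨false,0,⟨2,[(7,1),(1,0),(12,0),(11,0)]⟩,⟨0,
  [(20,0),(26,0)]⟩⟩,.e ⟨true,0,⟨3,[(9,1),(25,0),(0,0),(8,1)]⟩,⟨11,[(10,1),(4,3),(4,3),(1,1),(12,0),
  (0,4)]⟩⟩ ⟨true,0,⟨4,[(0,2),(5,2),(0,0),(1,0),(12,0),(6,1),(13,1)]⟩,⟨3,[(2,3),(7,2),(2,0),(2,1),(2,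
  0)]⟩⟩,.o ⟨false,1,⟨1,[(4,0),(0,0),(22,0),(11,0)]⟩,⟨8,[(7,5),(4,1),(2,1),(13,8),(2,0),(2,2),(7,
  2)]⟩⟩,.a ⟨true,0,⟨0,[(30,0)]⟩,⟨0,[(29,0)]⟩⟩ ⟨false,1,⟨4,[(9,2),(7,0),(9,1),(0,1),(16,0)]⟩,⟨0,[(18,
  0)]⟩⟩ ⟨true,0,⟨2,[(7,1),(1,0),(12,0),(6,2),(4,0)]⟩,⟨3,[(2,3),(7,2),(2,0),(2,1),(2,0)]⟩⟩]⟩) (.R ⟨0,
  false,false,false,[1,0,0,-1],[1,0,-1],[1,0,1,0,0,0,0,-1],(⟨0,[(29,0)]⟩,⟨0,[(30,0)]⟩),(⟨0,[(38,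
  0)]⟩,⟨0,[(39,0)]⟩),⟨0,[(2,0)]⟩,.k,.k,(.x (-1) ⟨15,[(13,3),(5,3),(7,6),(0,6),(11,1)]⟩ ⟨0,[(42,
  0)]⟩),.k,.k,.k,⟨false,0,⟨0,[]⟩,⟨3,[(27,0),(0,0),(17,1)]⟩⟩,⟨true,0,⟨0,[(29,0),(2,0)]⟩,⟨5,[(2,3),
  (10,0),(5,0),(6,2),(3,1)]⟩⟩,⟨true,0,⟨0,[(1,0),(21,0)]⟩,⟨0,[(0,0),(6,0),(17,0),(3,0),(15,0)]⟩⟩,
  ⟨false,1,⟨1,[(28,0),(0,1),(2,1),(4,1),(9,0)]⟩,⟨2,[(0,0),(3,0),(0,0),(1,0),(2,0)]⟩⟩,⟨false,0,⟨0,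
  []⟩,⟨0,[]⟩⟩,⟨false,0,⟨0,[]⟩,⟨0,[]⟩⟩,[.a ⟨true,0,⟨4,[(9,1),(6,0),(5,1),(6,1),(0,1)]⟩,⟨1,[(10,0),
  (18,0),(0,0)]⟩⟩ ⟨false,0,⟨0,[(37,0)]⟩,⟨57,[(10,1),(4,11),(1,35),(2,5),(1,1),(2,5),(1,10),(0,
  10)]⟩⟩ ⟨true,0,⟨0,[(29,0),(2,0),(4,0)]⟩,⟨0,[(3,0)]⟩⟩,.o ⟨false,1,⟨3,[(9,0),(2,0),(9,0),(11,0),(5,
  0),(6,2)]⟩,⟨0,[(33,0)]⟩⟩,.o ⟨false,1,⟨1,[(4,0),(0,0),(22,0),(11,0)]⟩,⟨8,[(7,5),(4,1),(2,1),(13,8),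
  (2,0),(2,2),(7,2)]⟩⟩,.e ⟨false,0,⟨0,[(23,0)]⟩,⟨57,[(10,19),(4,3),(1,11),(2,1),(1,19),(2,1),(1,22),
  (0,22)]⟩⟩ ⟨false,1,⟨3,[(9,0),(2,0),(9,0),(6,3),(4,0),(5,0),(6,2)]⟩,⟨0,[(3,0)]⟩⟩]⟩)) (.R ⟨0,false,
  false,false,[1,0,0,-1],[1,0,-1],[0,1,0,0,0,0,0,0,-1],(⟨0,[(28,0)]⟩,⟨0,[(29,0)]⟩),(⟨0,[(37,0)]⟩,⟨0,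
  [(38,0)]⟩),⟨0,[(1,0)]⟩,.k,.k,(.x (-1) ⟨15,[(12,3),(5,3),(7,6),(0,6),(11,1)]⟩ ⟨0,[(41,0)]⟩),.k,.k,
  .k,⟨false,0,⟨5,[(0,4),(3,0),(1,3),(2,2),(14,5),(3,0),(15,1)]⟩,⟨1,[(27,0),(8,1),(9,0)]⟩⟩,⟨true,0,
  ⟨0,[(28,0),(2,0)]⟩,⟨5,[(1,3),(10,0),(5,0),(6,2),(3,1)]⟩⟩,⟨true,0,⟨0,[(48,0)]⟩,⟨0,[]⟩⟩,⟨false,1,⟨1,
  [(27,0),(0,1),(2,1),(4,1),(9,0)]⟩,⟨5,[(3,4),(0,0),(1,1),(2,1),(9,1)]⟩⟩,⟨false,0,⟨0,[]⟩,⟨0,[]⟩⟩,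
  ⟨false,0,⟨0,[]⟩,⟨0,[]⟩⟩,[.a ⟨true,0,⟨4,[(8,1),(6,0),(5,1),(6,1),(0,1)]⟩,⟨1,[(9,0),(18,0),(0,0)]⟩⟩
  ⟨false,0,⟨4,[(0,1),(3,2),(1,1),(4,0),(7,0),(8,2)]⟩,⟨1,[(27,0),(18,0)]⟩⟩ ⟨true,0,⟨0,[(28,0),(2,0),
  (4,0)]⟩,⟨0,[(2,0)]⟩⟩,.o ⟨false,1,⟨3,[(8,0),(2,0),(9,0),(11,0),(5,0),(6,2)]⟩,⟨0,[(32,0)]⟩⟩,.o
  ⟨false,1,⟨1,[(3,0),(0,0),(22,0),(11,0)]⟩,⟨8,[(6,5),(4,1),(2,1),(13,8),(2,0),(2,2),(7,2)]⟩⟩,.e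
  ⟨false,0,⟨9,[(0,6),(3,2),(1,1),(4,0),(7,0),(8,2)]⟩,⟨1,[(27,0),(6,0),(0,0),(10,0)]⟩⟩ ⟨false,1,⟨3,
  [(8,0),(2,0),(9,0),(6,3),(4,0),(5,0),(6,2)]⟩,⟨0,[(2,0)]⟩⟩]⟩)) (.I [0,1,-1,-1,0,0,0,1,-1] (.R ⟨1,
  false,false,false,[1,0,0,-1],[1,0,-1],[0,1,0,-1,0,0,0,0,-1],(⟨0,[(28,0)]⟩,⟨0,[(29,0)]⟩),(⟨0,[(37,
  0)]⟩,⟨0,[(38,0)]⟩),⟨0,[(1,0)]⟩,.k,.k,(.x (-1) ⟨15,[(12,3),(5,3),(7,6),(0,6),(11,1)]⟩ ⟨0,[(41,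
  0)]⟩),.k,(.x 0 ⟨24,[(6,3),(5,14),(6,3),(0,4),(1,3),(2,3),(8,2),(7,1)]⟩ ⟨4,[(7,1),(2,0),(15,1),(0,
  1),(9,0),(3,6)]⟩),.k,⟨false,0,⟨0,[(0,0)]⟩,⟨17,[(8,1),(6,9),(6,3),(2,3),(1,8),(6,1),(4,1),(6,6)]⟩⟩,
  ⟨true,0,⟨0,[(28,0),(2,0)]⟩,⟨5,[(2,4),(5,1),(6,0),(13,0),(4,1)]⟩⟩,⟨false,0,⟨0,[(44,0)]⟩,⟨31,[(14,
  7),(0,7),(9,3),(0,6),(0,6),(11,1),(5,3),(0,11)]⟩⟩,⟨false,1,⟨1,[(27,0),(0,1),(2,1),(4,1),(9,0)]⟩,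
  ⟨5,[(3,4),(0,0),(1,1),(2,1),(9,1)]⟩⟩,⟨true,0,⟨0,[(48,0)]⟩,⟨0,[]⟩⟩,⟨false,1,⟨13,[(11,9),(3,1),(11,
  6),(0,13),(2,3),(1,1),(0,3),(7,5),(3,6)]⟩,⟨5,[(0,1),(1,1),(0,3),(2,1),(2,0),(15,0),(18,1)]⟩⟩,[.a
  ⟨true,0,⟨4,[(8,1),(6,0),(5,1),(6,1),(0,1)]⟩,⟨1,[(9,0),(18,0),(0,0)]⟩⟩ ⟨false,0,⟨18,[(0,13),(4,4),
  (0,0),(1,4),(2,0),(13,1),(7,2)]⟩,⟨19,[(14,5),(0,3),(6,1),(2,1),(1,9),(11,0),(5,2),(0,5)]⟩⟩ ⟨true,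
  0,⟨0,[(28,0),(2,0),(4,0)]⟩,⟨0,[(2,0)]⟩⟩,.o ⟨false,1,⟨3,[(8,0),(2,0),(9,0),(11,0),(5,0),(6,2)]⟩,⟨0,
  [(32,0)]⟩⟩,.o ⟨false,1,⟨1,[(3,0),(0,0),(22,0),(11,0)]⟩,⟨8,[(6,5),(4,1),(2,1),(13,8),(2,0),(2,2),
  (7,2)]⟩⟩,.e ⟨false,0,⟨0,[(0,0),(21,0)]⟩,⟨15,[(14,3),(0,3),(10,0),(0,8),(6,7),(0,3),(10,5)]⟩⟩
  ⟨false,1,⟨3,[(8,0),(2,0),(9,0),(6,3),(4,0),(5,0),(6,2)]⟩,⟨0,[(2,0)]⟩⟩]⟩) (.Q [0,1,1,-1,0,0,0,0,1,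
  0,0,-1] (.p false [0,0,0,1] [] (⟨0,[(29,0)]⟩,⟨0,[(28,0)]⟩) .k 0 (⟨0,[]⟩,⟨0,[]⟩) .k .k) (.R ⟨1,
  false,false,true,[1,0,0,-1],[1,-1],[1,1],(⟨0,[(29,0)]⟩,⟨0,[(30,0)]⟩),(⟨0,[(41,0)]⟩,⟨0,[(42,0)]⟩),
  ⟨0,[(2,0)]⟩,.k,.k,(.x (-1) ⟨15,[(13,3),(5,3),(7,6),(0,6),(11,1)]⟩ ⟨0,[(42,0)]⟩),(.r 0 ⟨9,[(6,9),
  (8,1),(0,1),(18,4),(0,2),(7,1)]⟩ ⟨19,[(9,3),(7,7),(9,0),(0,10),(16,7)]⟩),.k,.k,⟨true,0,⟨9,[(15,1),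
  (0,1),(18,4),(0,2),(7,1)]⟩,⟨0,[(45,0)]⟩⟩,⟨false,0,⟨8,[(7,5),(4,1),(2,1),(13,8),(2,0),(2,2),(7,
  2)]⟩,⟨1,[(4,0),(0,0),(22,0),(17,0)]⟩⟩,⟨false,1,⟨3,[(27,0),(0,2)]⟩,⟨3,[(4,1),(1,1),(0,1),(7,0),(7,
  0),(5,1),(13,0)]⟩⟩,⟨true,0,⟨0,[(0,0)]⟩,⟨2,[(4,1),(0,0),(10,0),(3,0)]⟩⟩,⟨false,1,⟨55,[(15,7),(0,
  15),(3,7),(5,3),(0,10),(0,38),(11,1),(5,3)]⟩,⟨1,[(4,0),(1,0),(0,0),(21,0),(13,0),(1,0)]⟩⟩,⟨false,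
  1,⟨9,[(0,5),(0,1),(13,1),(11,2),(0,3),(0,3),(10,1),(6,0)]⟩,⟨0,[(4,0)]⟩⟩,[.o ⟨false,0,⟨0,[(7,0)]⟩,
  ⟨31,[(15,7),(0,7),(9,3),(0,6),(0,6),(11,1),(5,3),(0,11)]⟩⟩,.e ⟨true,0,⟨0,[]⟩,⟨1,[(35,0),(0,0)]⟩⟩
  ⟨true,0,⟨1,[(0,0),(5,0),(0,0),(21,0),(13,0)]⟩,⟨1,[(3,0),(12,0),(13,0)]⟩⟩,.o ⟨false,1,⟨1,[(4,0),(0,
  0),(22,0),(11,0)]⟩,⟨8,[(7,5),(4,1),(2,1),(13,8),(2,0),(2,2),(7,2)]⟩⟩,.a ⟨true,0,⟨0,[(30,0)]⟩,⟨0,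
  [(29,0)]⟩⟩ ⟨false,1,⟨3,[(27,0),(0,0),(17,1)]⟩,⟨3,[(35,0),(0,0),(6,1)]⟩⟩ ⟨true,0,⟨0,[(7,0),(21,
  0)]⟩,⟨1,[(3,0),(12,0),(13,0)]⟩⟩]⟩) (.I [0,0,-3,0,1,2] (.K ⟨1,[1,-1,0,-1],0,0,(⟨0,[(3,0)]⟩,⟨0,[(31,
  0),(11,0)]⟩),(.x (-1) ⟨15,[(14,3),(5,3),(7,6),(0,6),(11,1)]⟩ ⟨0,[(43,0)]⟩),(.r (-1) ⟨4,[(7,2),(2,
  1),(7,3),(9,0),(17,3)]⟩ ⟨0,[(2,0),(18,0),(15,0)]⟩),.k,.k,.k,[⟨1,[(30,1),(5,0),(0,0)]⟩,⟨9,[(2,1),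
  (1,2),(0,1),(2,2),(4,0),(17,4),(1,5),(2,3)]⟩,⟨2,[(2,2),(5,1),(2,1),(14,2),(3,2),(4,0),(10,0)]⟩,⟨0,
  [(5,0),(40,0)]⟩]⟩) (.I [1,1,1,1,-1,0,0,-1,-1] (.R ⟨1,false,false,false,[1,0,0,-1],[0,-1,1],[0,1,0,
  -1,0,0,0,0,-1],(⟨0,[(31,0)]⟩,⟨0,[(32,0)]⟩),(⟨1,[(15,0),(25,0)]⟩,⟨0,[(40,0),(3,0)]⟩),⟨0,[(4,0)]⟩,
  .k,.k,(.x (-1) ⟨15,[(15,3),(5,3),(7,6),(0,6),(11,1)]⟩ ⟨0,[(44,0)]⟩),(.r 0 ⟨1,[(0,0),(2,0),(25,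
  0)]⟩ ⟨0,[(3,0),(8,0),(3,0),(10,0),(19,1)]⟩),.k,.k,⟨true,(-1),⟨0,[(0,0),(46,0)]⟩,⟨5,[(12,0),(6,1),
  (0,1),(3,0),(5,2),(14,0),(3,0)]⟩⟩,⟨false,0,⟨0,[(31,0),(5,0)]⟩,⟨0,[(13,0),(18,0)]⟩⟩,⟨false,0,⟨0,
  [(47,0)]⟩,⟨31,[(17,7),(0,7),(9,3),(0,6),(0,6),(11,1),(5,3),(0,11)]⟩⟩,⟨false,1,⟨1,[(12,0),(17,0),
  (0,1),(2,0),(2,0),(9,1),(1,0)]⟩,⟨0,[(6,0),(7,0)]⟩⟩,⟨true,0,⟨0,[(51,0)]⟩,⟨0,[]⟩⟩,⟨false,1,⟨1,[(12,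
  0),(17,0),(0,1),(2,0),(2,0),(11,0)]⟩,⟨0,[(6,0),(26,0)]⟩⟩,[.a ⟨true,0,⟨1,[(12,0),(18,0),(0,0),(14,
  1)]⟩,⟨4,[(11,0),(6,2),(5,0),(6,0),(0,0)]⟩⟩ ⟨false,0,⟨1,[(6,0),(0,0),(1,1),(21,1)]⟩,⟨21,[(3,1),(13,
  5),(0,3),(9,1),(1,9),(11,0),(5,3),(0,6)]⟩⟩ ⟨true,0,⟨1,[(12,0),(18,1),(2,0),(2,0),(9,1)]⟩,⟨2,[(2,
  1),(0,1),(1,0),(3,1),(1,0),(12,0),(2,1)]⟩⟩,.o ⟨false,1,⟨7,[(9,3),(2,3),(16,0),(0,0),(16,3),(1,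
  5)]⟩,⟨0,[(14,0)]⟩⟩,.o ⟨false,1,⟨1,[(6,0),(0,0),(22,0),(11,0)]⟩,⟨9,[(0,0),(2,0),(5,5),(7,1),(13,9),
  (2,1),(2,1),(4,0),(2,1)]⟩⟩,.e ⟨false,0,⟨0,[(6,0),(2,0),(21,0)]⟩,⟨11,[(3,3),(13,3),(11,2),(0,6),(6,
  1),(0,1),(10,1)]⟩⟩ ⟨false,1,⟨7,[(9,3),(2,3),(16,0),(0,0),(0,7),(15,3),(1,5)]⟩,⟨2,[(2,1),(0,1),(1,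
  0),(3,1),(1,0),(12,0),(2,1)]⟩⟩]⟩) (.K ⟨2,[1,-1,0,-1],0,0,(⟨0,[(4,0)]⟩,⟨0,[(32,0),(11,0)]⟩),(.x
  (-1) ⟨15,[(15,3),(5,3),(7,6),(0,6),(11,1)]⟩ ⟨0,[(44,0)]⟩),(.r (-1) ⟨4,[(8,2),(2,1),(7,3),(9,0),
  (17,3)]⟩ ⟨19,[(1,5),(1,7),(13,7),(12,5),(6,2),(0,2),(5,11),(1,15)]⟩),.k,(.r 0 ⟨1,[(6,0),(1,0),(0,
  0),(1,0),(19,0)]⟩ ⟨11,[(12,1),(4,3),(4,3),(1,1),(4,2),(0,8),(6,0),(0,4)]⟩),(.x 0 ⟨13,[(1,1),(13,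
  4),(5,2),(1,5),(4,0),(13,1)]⟩ ⟨4,[(10,1),(2,0),(15,1),(0,1),(9,0),(3,6)]⟩),[⟨5,[(9,1),(2,0),(9,1),
  (2,3),(2,0),(2,5)]⟩,⟨16,[(2,0),(0,0),(1,10),(5,3),(2,1),(13,1),(3,4),(4,3)]⟩,⟨1,[(31,1),(5,0),(0,
  0)]⟩,⟨9,[(3,1),(1,2),(0,1),(2,2),(4,0),(17,4),(1,5),(2,3)]⟩,⟨4,[(1,0),(1,2),(5,1),(1,0),(0,1),(14,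
  4),(2,0),(0,4),(3,0),(8,1)]⟩,⟨1,[(6,0),(0,0),(1,1)]⟩]⟩)))))) (.R ⟨1,false,false,false,[1,0,0,-1],
  [1,0,-1],[1,1,0,0,0,0,0,0,-1],(⟨0,[(26,0)]⟩,⟨0,[(27,0)]⟩),(⟨0,[(35,0)]⟩,⟨0,[(36,0)]⟩),⟨3,[(0,1),
  (6,0),(2,0),(5,0),(9,1)]⟩,.k,.k,(.x (-1) ⟨15,[(10,3),(5,3),(7,6),(0,6),(11,1)]⟩ ⟨0,[(39,0)]⟩),.k,
  (.x 0 ⟨24,[(4,3),(5,14),(6,3),(0,4),(1,3),(2,3),(8,2),(7,1)]⟩ ⟨4,[(5,1),(2,0),(15,1),(0,1),(9,0),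
  (3,6)]⟩),.k,⟨false,0,⟨0,[(0,0),(0,0),(2,0),(2,0),(14,0)]⟩,⟨1,[(25,0),(8,1),(9,0)]⟩⟩,⟨true,0,⟨0,
  [(26,0),(2,0)]⟩,⟨5,[(4,1),(2,0),(9,1),(2,3),(2,0),(3,5)]⟩⟩,⟨false,0,⟨0,[]⟩,⟨3,[(24,0),(0,0),(18,
  1)]⟩⟩,⟨false,1,⟨1,[(0,1),(24,0),(6,0),(0,0),(10,0)]⟩,⟨5,[(1,4),(0,0),(1,1),(2,1),(9,1)]⟩⟩,⟨true,0,
  ⟨0,[(41,0)]⟩,⟨0,[(42,0)]⟩⟩,⟨false,1,⟨15,[(0,15),(11,3),(0,3),(10,0),(0,8),(6,7),(0,3),(10,5)]⟩,⟨3,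
  [(1,2),(0,0),(1,1),(2,1),(34,1)]⟩⟩,[.e ⟨false,0,⟨1,[(0,0),(0,0),(0,0),(1,0),(12,0),(8,0)]⟩,⟨1,
  [(25,0),(18,0)]⟩⟩ ⟨false,0,⟨0,[(0,0)]⟩,⟨7,[(1,3),(0,3),(4,3),(16,0),(0,4),(11,1)]⟩⟩,.o ⟨false,1,
  ⟨3,[(6,0),(2,0),(9,0),(11,0),(5,0),(6,2)]⟩,⟨0,[(30,0)]⟩⟩,.o ⟨false,1,⟨1,[(1,0),(0,0),(22,0),(11,
  0)]⟩,⟨1,[(0,0),(3,0),(10,0),(10,0),(5,0)]⟩⟩,.a ⟨true,0,⟨0,[(27,0)]⟩,⟨0,[(26,0)]⟩⟩ ⟨false,0,⟨1,[(0,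
  0),(0,1),(2,0),(12,0),(8,0)]⟩,⟨1,[(25,0),(6,0),(0,0),(10,0)]⟩⟩ ⟨true,0,⟨0,[(0,0)]⟩,⟨0,[(27,0),(2,
  0)]⟩⟩]⟩))) (.Q [0,0,0,0,0,-1,0,0,0,1,0,-1] (.ed true [0,1,0,1] .k) (.Q [0,0,0,1,0,0,0,0,0,1,0,-1]
  (.p false [0,0,0,1] [1] (⟨0,[(26,0)]⟩,⟨0,[(25,0)]⟩) .k 1 (⟨0,[]⟩,⟨0,[]⟩) .k .k) (.R ⟨1,false,
  false,true,[1,0,0,-1],[0,1],[1,1,0,0,0,0,0,0,-1],(⟨0,[(26,0)]⟩,⟨0,[(27,0)]⟩),(⟨0,[(39,0)]⟩,⟨0,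
  [(38,0)]⟩),⟨0,[(1,0)]⟩,.k,.k,(.x (-1) ⟨15,[(10,3),(5,3),(7,6),(0,6),(11,1)]⟩ ⟨0,[(39,0)]⟩),(.x
  (-1) ⟨15,[(10,3),(5,3),(7,6),(0,6),(11,1)]⟩ ⟨0,[(39,0)]⟩),(.r (-1) ⟨4,[(3,2),(2,1),(7,3),(9,0),
  (17,3)]⟩ ⟨9,[(2,9),(9,1),(0,1),(13,9),(4,4),(0,2),(7,11)]⟩),.k,⟨false,1,⟨5,[(3,3),(2,1),(7,3),(9,
  0),(18,0)]⟩,⟨0,[(2,0),(24,0),(13,0)]⟩⟩,⟨true,0,⟨0,[(26,0)]⟩,⟨8,[(4,5),(4,1),(2,1),(14,8),(1,0),(2,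
  2),(7,2)]⟩⟩,⟨false,0,⟨0,[]⟩,⟨3,[(24,0),(0,0),(18,1)]⟩⟩,⟨false,0,⟨1,[(2,1),(19,1),(0,0),(2,0),(0,
  0)]⟩,⟨12,[(3,10),(0,0),(1,3),(0,3),(3,7),(12,0),(2,12),(9,3),(2,6)]⟩⟩,⟨true,0,⟨0,[(41,0)]⟩,⟨0,
  [(42,0)]⟩⟩,⟨false,0,⟨5,[(0,1),(1,5),(4,0),(5,1),(8,5),(0,2),(3,1)]⟩,⟨12,[(3,6),(0,10),(1,4),(0,1),
  (3,3),(2,5),(9,2),(2,12),(12,11)]⟩⟩,[.o ⟨false,0,⟨0,[(41,0)]⟩,⟨0,[(4,0),(39,0)]⟩⟩,.a ⟨true,0,⟨0,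
  [(0,0),(26,0)]⟩,⟨0,[(42,0)]⟩⟩ ⟨true,0,⟨0,[(3,0)]⟩,⟨0,[(2,0),(24,0),(18,0)]⟩⟩ ⟨false,0,⟨0,[(0,0)]⟩,
  ⟨19,[(4,7),(1,3),(7,7),(9,0),(0,0),(1,19),(9,5),(6,3)]⟩⟩,.o ⟨false,1,⟨1,[(27,1),(9,0),(5,0)]⟩,⟨2,
  [(0,0),(1,0),(0,0),(0,0),(21,0),(2,0),(2,0)]⟩⟩,.e ⟨false,1,⟨1,[(24,0),(18,0)]⟩,⟨0,[(2,0),(24,
  0)]⟩⟩ ⟨false,0,⟨0,[(0,0)]⟩,⟨0,[(4,0),(22,0),(16,0)]⟩⟩]⟩) (.R ⟨1,false,false,true,[1,0,0,-1],[0,1],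
  [1,1,0,0,0,0,0,0,-1],(⟨0,[(26,0)]⟩,⟨0,[(27,0)]⟩),(⟨0,[(39,0)]⟩,⟨0,[(38,0)]⟩),⟨0,[(1,0)]⟩,.k,.k,
  (.x (-1) ⟨15,[(10,3),(5,3),(7,6),(0,6),(11,1)]⟩ ⟨0,[(39,0)]⟩),(.x (-1) ⟨15,[(10,3),(5,3),(7,6),(0,
  6),(11,1)]⟩ ⟨0,[(39,0)]⟩),(.r (-1) ⟨4,[(3,2),(2,1),(7,3),(9,0),(17,3)]⟩ ⟨9,[(2,9),(9,1),(0,1),(13,
  9),(4,4),(0,2),(7,11)]⟩),.k,⟨false,1,⟨5,[(3,3),(2,1),(7,3),(9,0),(18,0)]⟩,⟨0,[(2,0),(24,0),(13,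
  0)]⟩⟩,⟨true,0,⟨0,[(26,0)]⟩,⟨5,[(0,2),(8,0),(2,0),(14,2),(1,1),(2,2)]⟩⟩,⟨false,0,⟨0,[]⟩,⟨3,[(24,0),
  (0,0),(18,1)]⟩⟩,⟨false,0,⟨1,[(2,1),(19,1),(0,0),(2,0),(0,0)]⟩,⟨1,[(0,1),(2,1),(39,0),(0,0)]⟩⟩,
  ⟨true,0,⟨0,[(41,0)]⟩,⟨0,[(42,0)]⟩⟩,⟨false,0,⟨3,[(2,3),(4,0),(5,1),(8,3),(0,1),(2,0),(0,0)]⟩,⟨9,
  [(0,9),(2,1),(2,2),(7,5),(9,3),(15,4),(1,0)]⟩⟩,[.o ⟨false,0,⟨0,[(41,0)]⟩,⟨0,[(4,0),(39,0)]⟩⟩,.e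
  ⟨true,0,⟨0,[(3,0)]⟩,⟨0,[(2,0),(24,0),(18,0)]⟩⟩ ⟨true,0,⟨9,[(12,1),(0,1),(12,9),(5,4),(0,2),(7,
  1)]⟩,⟨0,[(0,0)]⟩⟩,.o ⟨false,1,⟨1,[(27,1),(9,0),(5,0)]⟩,⟨9,[(2,3),(0,3),(0,1),(4,0),(7,0),(8,5),(2,
  2),(2,2)]⟩⟩,.a ⟨true,0,⟨0,[(27,0)]⟩,⟨0,[(26,0)]⟩⟩ ⟨false,1,⟨1,[(24,0),(18,0)]⟩,⟨0,[(2,0),(24,
  0)]⟩⟩ ⟨true,0,⟨0,[(26,0),(14,0)]⟩,⟨0,[(0,0)]⟩⟩]⟩)) (.I [1,1,0,0,0,0,0,0,1] (.R ⟨1,false,false,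
  false,[0,0,0,1],[0,0,1],[1,1,0,0,0,0,0,0,1],(⟨0,[(27,0)]⟩,⟨0,[(26,0)]⟩),(⟨0,[(36,0)]⟩,⟨0,[(35,
  0)]⟩),⟨2,[(1,0),(8,0),(5,0),(10,1)]⟩,.k,.k,(.r (-1) ⟨19,[(6,3),(7,7),(9,0),(0,10),(16,7)]⟩ ⟨9,[(3,
  9),(8,1),(0,1),(18,4),(0,2),(7,1)]⟩),.k,(.r (-1) ⟨19,[(6,11),(7,3),(9,2),(0,12),(16,3)]⟩ ⟨11,[(3,
  11),(3,1),(4,3),(4,3),(1,1),(12,0),(0,4)]⟩),.k,⟨true,0,⟨0,[(0,0),(33,0)]⟩,⟨1,[(3,1),(3,0),(11,0),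
  (20,0)]⟩⟩,⟨false,1,⟨11,[(1,5),(14,3),(1,1),(4,3),(3,5),(9,0),(5,10)]⟩,⟨0,[(26,0),(2,0)]⟩⟩,⟨false,
  0,⟨0,[]⟩,⟨3,[(24,0),(0,0),(18,1)]⟩⟩,⟨false,1,⟨23,[(1,17),(1,17),(3,5),(4,3),(1,7),(1,11),(1,5),(5,
  2),(2,5),(15,2),(0,9)]⟩,⟨0,[(2,0),(28,0)]⟩⟩,⟨true,0,⟨0,[(41,0)]⟩,⟨0,[(42,0)]⟩⟩,⟨false,1,⟨7,[(1,5),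
  (1,5),(3,1),(4,3),(3,3),(1,1),(5,0),(2,1),(15,4),(0,1)]⟩,⟨0,[(2,0),(28,0),(10,0)]⟩⟩,[.a ⟨true,0,
  ⟨1,[(7,0),(18,0),(0,0)]⟩,⟨4,[(6,1),(6,0),(5,1),(6,1),(0,1)]⟩⟩ ⟨true,0,⟨0,[(0,0)]⟩,⟨3,[(3,3),(28,
  0),(0,0),(6,1)]⟩⟩ ⟨false,1,⟨5,[(1,3),(5,2),(2,0),(5,0),(10,1),(15,5)]⟩,⟨0,[(26,0),(2,0),(4,0)]⟩⟩,
  .o ⟨false,1,⟨7,[(7,3),(16,0),(0,0),(11,1),(6,3)]⟩,⟨0,[(28,0)]⟩⟩,.o ⟨false,0,⟨9,[(2,3),(0,3),(0,1),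
  (4,0),(7,0),(8,5),(2,2),(2,2)]⟩,⟨1,[(27,1),(9,0),(5,0)]⟩⟩,.o ⟨false,0,⟨0,[(26,0),(2,0),(2,0)]⟩,
  ⟨13,[(1,13),(6,3),(1,1),(5,5),(1,1),(18,0),(5,8)]⟩⟩]⟩) (.R ⟨0,false,false,true,[1,0,0,-1],[1,0,
  -1],[0,0,0,-1,0,0,0,0,-1],(⟨0,[(26,0)]⟩,⟨0,[(27,0)]⟩),(⟨0,[(35,0)]⟩,⟨0,[(36,0)]⟩),⟨0,[(1,0)]⟩,.k,
  .k,(.x (-1) ⟨15,[(10,3),(5,3),(7,6),(0,6),(11,1)]⟩ ⟨0,[(39,0)]⟩),.k,.k,.k,⟨false,1,⟨6,[(0,2),(6,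
  0),(6,4),(4,0),(4,1),(15,1),(1,1)]⟩,⟨0,[(2,0),(3,0),(10,0),(4,0),(4,0)]⟩⟩,⟨true,0,⟨0,[(26,0),(2,
  0)]⟩,⟨5,[(1,3),(8,0),(5,0),(6,2),(3,1)]⟩⟩,⟨true,0,⟨0,[(42,0)]⟩,⟨0,[(41,0)]⟩⟩,⟨false,0,⟨0,[(2,0),
  (28,0)]⟩,⟨11,[(0,5),(0,7),(5,5),(2,1),(5,1),(7,2),(2,3),(15,5),(0,2)]⟩⟩,⟨false,0,⟨0,[]⟩,⟨0,[]⟩⟩,
  ⟨false,0,⟨0,[]⟩,⟨0,[]⟩⟩,[.o ⟨false,0,⟨0,[(28,0)]⟩,⟨7,[(7,3),(16,0),(0,0),(11,1),(6,3)]⟩⟩,.e ⟨true,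
  0,⟨0,[(0,0),(41,0)]⟩,⟨0,[(2,0),(24,0),(13,0),(4,0)]⟩⟩ ⟨true,0,⟨0,[(26,0),(2,0),(4,0)]⟩,⟨5,[(1,3),
  (5,2),(2,0),(5,0),(10,1)]⟩⟩,.o ⟨false,1,⟨1,[(27,1),(9,0),(5,0)]⟩,⟨9,[(2,3),(0,3),(0,1),(4,0),(7,
  0),(8,5),(2,2),(2,2)]⟩⟩,.a ⟨true,0,⟨0,[(27,0)]⟩,⟨0,[(26,0)]⟩⟩ ⟨false,1,⟨9,[(0,3),(5,1),(7,3),(9,
  2),(17,3),(1,2)]⟩,⟨0,[(2,0),(24,0),(13,0)]⟩⟩ ⟨true,0,⟨0,[(26,0),(1,0)]⟩,⟨5,[(1,3),(5,2),(2,0),(5,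
  0),(10,1)]⟩⟩]⟩)))) (.Q [0,0,0,0,0,-1,0,0,0,1,0,-1] (.ed true [0,1,0,1] .k) (.I [0,0,2,2,-1,0,0,-1,
  1] (.Q [0,0,0,-1,0,0,1,1,0,0,-1,1] (.p false [0,0,1] [0,0,0,1] (⟨0,[(35,0)]⟩,⟨0,[(34,0)]⟩) .k 2
  (⟨0,[(26,0)]⟩,⟨0,[(25,0)]⟩) .k (.r (-1) ⟨115,[(6,39),(4,7),(1,23),(2,3),(1,39),(2,3),(1,74),(0,
  16)]⟩ ⟨4,[(0,0),(1,1),(2,1),(18,0)]⟩)) (.I [0,0,-1,-1,1,0,0,1,-1] (.R ⟨1,false,false,false,[1,0,0,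
  -1],[1,1,-1],[1,0,0,0,0,0,0,0,-1],(⟨0,[(27,0)]⟩,⟨0,[(28,0)]⟩),(⟨0,[(36,0),(3,0)]⟩,⟨1,[(11,0),(25,
  0)]⟩),⟨0,[(3,0)]⟩,.k,.k,(.x (-1) ⟨15,[(11,3),(5,3),(7,6),(0,6),(11,1)]⟩ ⟨0,[(40,0)]⟩),(.r (-1) ⟨0,
  [(0,0)]⟩ ⟨4,[(2,2),(4,0),(17,0),(0,1)]⟩),(.r (-2) ⟨2,[(0,4),(6,0),(18,0)]⟩ ⟨0,[(2,0)]⟩),.k,⟨true,
  1,⟨0,[(0,0)]⟩,⟨0,[(2,0),(40,0)]⟩⟩,⟨false,1,⟨19,[(9,11),(10,3),(4,2),(0,2),(0,19),(10,1)]⟩,⟨23,[(1,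
  9),(0,1),(4,3),(10,9),(2,9),(2,1),(0,0),(2,13),(9,0)]⟩⟩,⟨true,0,⟨0,[]⟩,⟨0,[(47,0)]⟩⟩,⟨false,0,⟨53,
  [(2,45),(4,3),(4,33),(7,9),(5,3),(0,53),(10,4),(2,23),(3,2)]⟩,⟨1,[(1,1),(23,0),(18,0)]⟩⟩,⟨false,1,
  ⟨31,[(13,7),(0,7),(9,3),(0,6),(0,6),(11,1),(5,3),(0,11)]⟩,⟨0,[(43,0)]⟩⟩,⟨false,0,⟨13,[(2,13),(6,
  9),(10,1),(6,13),(10,0),(2,3),(3,2)]⟩,⟨11,[(0,7),(0,11),(5,3),(17,2),(0,0)]⟩⟩,[.a ⟨true,0,⟨4,[(7,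
  0),(6,2),(5,0),(6,0),(0,0)]⟩,⟨0,[(1,0),(25,0)]⟩⟩ ⟨false,1,⟨1,[(25,0),(18,0)]⟩,⟨0,[(4,0)]⟩⟩ ⟨true,
  0,⟨37,[(2,11),(4,3),(2,17),(9,9),(4,5),(1,37),(10,4),(2,7),(3,0)]⟩,⟨0,[(1,0)]⟩⟩,.o ⟨false,1,⟨0,
  [(10,0),(34,0)]⟩,⟨2,[(1,0),(3,1),(2,0),(18,0),(19,0)]⟩⟩,.o ⟨false,1,⟨1,[(28,1),(9,0),(5,0)]⟩,⟨10,
  [(2,1),(2,7),(7,1),(11,0),(1,10),(2,0),(2,0),(4,0),(2,2)]⟩⟩,.e ⟨false,1,⟨0,[(0,0),(6,0),(5,0)]⟩,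
  ⟨11,[(2,3),(5,1),(11,1),(5,3),(6,0),(0,0),(8,7)]⟩⟩ ⟨false,1,⟨0,[(10,0),(16,0),(17,0)]⟩,⟨0,[(1,
  0)]⟩⟩]⟩) (.R ⟨1,false,false,false,[1,0,0,-1],[1,1,-1],[1,1,0,0,0,0,0,0,-1],(⟨0,[(27,0)]⟩,⟨0,[(28,
  0)]⟩),(⟨0,[(36,0),(3,0)]⟩,⟨1,[(11,0),(25,0)]⟩),⟨0,[(3,0)]⟩,.k,.k,(.x (-1) ⟨15,[(11,3),(5,3),(7,6),
  (0,6),(11,1)]⟩ ⟨0,[(40,0)]⟩),(.x 0 ⟨79,[(0,5),(4,13),(5,47),(6,7),(0,15),(1,1),(2,19),(0,2),(12,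
  2),(2,9)]⟩ ⟨4,[(6,1),(2,0),(15,1),(0,1),(9,0),(3,6)]⟩),(.r (-2) ⟨3,[(15,3),(9,2),(0,0),(16,3)]⟩
  ⟨0,[(2,0)]⟩),.k,⟨true,1,⟨1,[(1,0),(3,0),(9,0),(7,0),(1,0),(1,0)]⟩,⟨1,[(0,0),(1,0),(38,0),(1,0)]⟩⟩,
  ⟨false,1,⟨19,[(9,11),(10,3),(4,2),(0,2),(0,19),(10,1)]⟩,⟨23,[(1,9),(0,1),(4,3),(10,9),(2,9),(2,1),
  (0,0),(2,13),(9,0)]⟩⟩,⟨false,0,⟨0,[]⟩,⟨3,[(25,0),(0,0),(18,1)]⟩⟩,⟨false,0,⟨5,[(0,3),(1,1),(9,1),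
  (7,1),(6,5),(10,0),(6,2)]⟩,⟨1,[(1,1),(23,0),(18,0)]⟩⟩,⟨true,0,⟨0,[(42,0)]⟩,⟨0,[(43,0)]⟩⟩,⟨false,0,
  ⟨13,[(2,13),(6,9),(10,1),(6,13),(10,0),(2,3),(3,2)]⟩,⟨19,[(1,19),(5,3),(7,7),(9,10),(0,0),(16,
  7)]⟩⟩,[.a ⟨true,0,⟨4,[(7,0),(6,2),(5,0),(6,0),(0,0)]⟩,⟨0,[(1,0),(25,0)]⟩⟩ ⟨false,1,⟨1,[(25,0),(18,
  0),(2,1)]⟩,⟨1,[(0,0),(3,0),(10,0),(25,0)]⟩⟩ ⟨true,0,⟨37,[(2,11),(4,3),(2,17),(9,9),(4,5),(1,37),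
  (10,4),(2,7),(3,0)]⟩,⟨0,[(1,0)]⟩⟩,.o ⟨false,1,⟨0,[(10,0),(34,0)]⟩,⟨2,[(1,0),(3,1),(2,0),(18,0),
  (19,0)]⟩⟩,.o ⟨false,1,⟨1,[(28,1),(9,0),(5,0)]⟩,⟨10,[(2,1),(2,7),(7,1),(11,0),(1,10),(2,0),(2,0),
  (4,0),(2,2)]⟩⟩,.e ⟨false,1,⟨1,[(25,0),(18,0)]⟩,⟨5,[(0,1),(7,0),(11,0),(5,1),(14,2),(1,1)]⟩⟩
  ⟨false,1,⟨0,[(10,0),(16,0),(17,0)]⟩,⟨0,[(1,0)]⟩⟩]⟩)) (.I [1,-1,0,0,0,0,0,0,1] (.I [0,-1,2,1,-1,0,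
  0,-1,1] (.R ⟨1,false,false,false,[1,0,0,-1],[1,0,-1],[1,1,0,0,0,0,0,0,-1],(⟨0,[(28,0)]⟩,⟨0,[(29,
  0)]⟩),(⟨0,[(37,0)]⟩,⟨0,[(38,0)]⟩),⟨0,[(4,0)]⟩,.k,.k,(.x (-1) ⟨15,[(12,3),(5,3),(7,6),(0,6),(11,
  1)]⟩ ⟨0,[(41,0)]⟩),.k,(.x 0 ⟨109,[(0,5),(5,19),(5,65),(6,13),(0,21),(1,7),(2,25),(0,2),(12,2),(2,
  9)]⟩ ⟨4,[(7,1),(2,0),(15,1),(0,1),(9,0),(3,6)]⟩),.k,⟨false,1,⟨1,[(16,0),(7,0),(1,0),(5,0)]⟩,⟨19,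
  [(1,13),(1,3),(4,7),(18,0),(18,2)]⟩⟩,⟨true,0,⟨0,[(28,0),(2,0)]⟩,⟨5,[(6,1),(2,0),(9,1),(2,3),(2,0),
  (3,5)]⟩⟩,⟨false,0,⟨0,[]⟩,⟨3,[(26,0),(0,0),(18,1)]⟩⟩,⟨false,0,⟨79,[(0,27),(0,33),(4,1),(1,25),(12,
  39),(5,8),(0,79),(10,18),(2,9)]⟩,⟨21,[(6,1),(1,1),(0,13),(0,9),(8,3),(2,5),(3,10),(2,21),(9,0)]⟩⟩,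
  ⟨true,0,⟨0,[(43,0)]⟩,⟨0,[(44,0)]⟩⟩,⟨false,0,⟨12,[(0,3),(0,2),(0,8),(18,1),(5,2),(0,3),(10,0),(2,
  2)]⟩,⟨25,[(6,7),(1,5),(0,15),(3,5),(2,5),(9,12),(2,25),(9,0),(2,3)]⟩⟩,[.e ⟨false,1,⟨1,[(26,0),(18,
  0),(2,1)]⟩,⟨0,[(0,0),(8,0),(0,0),(4,0),(28,2)]⟩⟩ ⟨false,0,⟨0,[(2,0),(41,0)]⟩,⟨7,[(9,3),(16,0),(0,
  0),(1,7),(9,1),(5,3)]⟩⟩,.o ⟨false,1,⟨3,[(8,0),(2,0),(9,0),(11,0),(5,0),(6,2)]⟩,⟨0,[(32,0)]⟩⟩,.o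
  ⟨false,1,⟨1,[(29,1),(9,0),(5,0)]⟩,⟨4,[(2,0),(3,2),(7,0),(13,3),(2,0),(2,1),(7,0)]⟩⟩,.a ⟨true,0,⟨0,
  [(29,0)]⟩,⟨0,[(28,0)]⟩⟩ ⟨false,1,⟨1,[(26,0),(18,0)]⟩,⟨6,[(0,1),(0,0),(7,0),(11,0),(5,1),(14,1),(1,
  1)]⟩⟩ ⟨true,0,⟨0,[(2,0),(41,0)]⟩,⟨0,[(29,0),(2,0)]⟩⟩]⟩) (.R ⟨1,false,false,false,[1,0,0,-1],[0,1],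
  [1,0,0,0,0,0,0,0,-1],(⟨0,[(28,0)]⟩,⟨0,[(29,0)]⟩),(⟨0,[(41,0)]⟩,⟨0,[(40,0)]⟩),⟨0,[(4,0)]⟩,.k,.k,
  (.x (-1) ⟨15,[(12,3),(5,3),(7,6),(0,6),(11,1)]⟩ ⟨0,[(41,0)]⟩),(.x (-1) ⟨15,[(12,3),(5,3),(7,6),(0,
  6),(11,1)]⟩ ⟨0,[(41,0)]⟩),(.r (-1) ⟨1,[(0,1),(7,0),(33,0),(1,0)]⟩ ⟨27,[(3,15),(10,7),(4,7),(6,4),
  (0,10),(6,3),(0,11)]⟩),.k,⟨false,1,⟨0,[(0,0),(21,0)]⟩,⟨35,[(3,11),(5,1),(4,3),(4,3),(1,1),(5,11),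
  (6,0),(0,4)]⟩⟩,⟨true,0,⟨0,[(28,0)]⟩,⟨10,[(3,1),(2,7),(7,1),(11,0),(2,10),(1,0),(2,0),(4,0),(2,
  2)]⟩⟩,⟨true,0,⟨0,[]⟩,⟨0,[(48,0)]⟩⟩,⟨false,0,⟨3,[(1,0),(1,0),(10,0),(12,0),(0,3),(13,0)]⟩,⟨4,[(0,
  0),(5,3),(2,0),(0,1),(11,2),(3,1),(2,4),(12,0)]⟩⟩,⟨false,1,⟨31,[(14,7),(0,7),(9,3),(0,6),(0,6),
  (11,1),(5,3),(0,11)]⟩,⟨0,[(44,0)]⟩⟩,⟨false,0,⟨25,[(1,9),(0,3),(0,5),(10,13),(0,3),(9,3),(1,4),(0,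
  21),(17,0)]⟩,⟨2,[(0,0),(5,2),(1,0),(7,0),(9,0),(2,2),(12,1)]⟩⟩,[.e ⟨false,1,⟨1,[(26,0),(18,0)]⟩,
  ⟨0,[(5,0)]⟩⟩ ⟨false,0,⟨2,[(2,0),(6,0),(5,0),(12,1)]⟩,⟨19,[(6,7),(1,3),(7,7),(9,0),(0,0),(1,19),(9,
  5),(6,3)]⟩⟩,.o ⟨false,1,⟨31,[(14,7),(0,7),(9,3),(0,6),(0,6),(11,1),(5,3),(0,11)]⟩,⟨0,[(6,0)]⟩⟩,.o
  ⟨false,1,⟨1,[(29,1),(9,0),(5,0)]⟩,⟨4,[(2,0),(3,2),(7,0),(13,3),(2,0),(2,1),(7,0)]⟩⟩,.a ⟨true,0,⟨0,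
  [(29,0)]⟩,⟨0,[(28,0)]⟩⟩ ⟨false,1,⟨3,[(0,1),(13,0),(7,2),(3,0),(15,0),(2,0)]⟩,⟨11,[(3,3),(5,1),(11,
  1),(5,3),(6,0),(0,0),(8,7)]⟩⟩ ⟨true,0,⟨2,[(2,0),(6,0),(5,0),(12,1)]⟩,⟨0,[(6,0),(22,0)]⟩⟩]⟩)) (.R
  ⟨1,false,false,false,[1,0,0,-1],[0,1],[1,0,0,0,0,0,0,0,-1],(⟨0,[(27,0)]⟩,⟨0,[(28,0)]⟩),(⟨0,[(40,
  0)]⟩,⟨0,[(39,0)]⟩),⟨0,[(3,0)]⟩,.k,.k,(.x (-1) ⟨15,[(11,3),(5,3),(7,6),(0,6),(11,1)]⟩ ⟨0,[(40,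
  0)]⟩),(.x (-1) ⟨15,[(11,3),(5,3),(7,6),(0,6),(11,1)]⟩ ⟨0,[(40,0)]⟩),(.r (-1) ⟨1,[(0,1),(6,0),(7,
  1),(25,0),(1,0)]⟩ ⟨27,[(2,15),(10,7),(4,7),(6,4),(0,10),(6,3),(0,11)]⟩),.k,⟨false,1,⟨0,[(0,0),(14,
  0),(5,0)]⟩,⟨35,[(2,11),(5,1),(4,3),(4,3),(1,1),(5,11),(6,0),(0,4)]⟩⟩,⟨true,0,⟨0,[(27,0)]⟩,⟨6,[(0,
  0),(1,0),(2,3),(7,0),(14,6),(1,0),(2,0),(4,0),(2,1)]⟩⟩,⟨true,0,⟨0,[]⟩,⟨0,[(47,0)]⟩⟩,⟨false,0,⟨7,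
  [(2,1),(1,3),(8,1),(12,0),(0,7),(13,1),(3,0)]⟩,⟨6,[(0,4),(4,0),(1,1),(0,1),(3,3),(12,0),(2,6),(9,
  1),(2,2)]⟩⟩,⟨false,1,⟨31,[(13,7),(0,7),(9,3),(0,6),(0,6),(11,1),(5,3),(0,11)]⟩,⟨0,[(43,0)]⟩⟩,
  ⟨false,0,⟨3,[(2,1),(1,1),(8,1),(13,3),(16,0),(0,0)]⟩,⟨6,[(0,0),(4,4),(1,1),(0,1),(3,3),(12,2),(2,
  6),(12,2),(1,2)]⟩⟩,[.e ⟨false,1,⟨1,[(25,0),(18,0)]⟩,⟨0,[(4,0)]⟩⟩ ⟨false,0,⟨2,[(1,0),(6,0),(5,0),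
  (12,1)]⟩,⟨19,[(5,7),(1,3),(7,7),(9,0),(0,0),(1,19),(9,5),(6,3)]⟩⟩,.o ⟨false,1,⟨31,[(13,7),(0,7),
  (9,3),(0,6),(0,6),(11,1),(5,3),(0,11)]⟩,⟨0,[(5,0)]⟩⟩,.o ⟨false,1,⟨1,[(28,1),(9,0),(5,0)]⟩,⟨4,[(1,
  0),(3,2),(7,0),(13,3),(2,0),(2,1),(7,0)]⟩⟩,.a ⟨true,0,⟨0,[(28,0)]⟩,⟨0,[(27,0)]⟩⟩ ⟨false,1,⟨2,[(0,
  0),(12,0),(1,1),(5,2),(3,0)]⟩,⟨11,[(2,3),(5,1),(11,1),(5,3),(6,0),(0,0),(8,7)]⟩⟩ ⟨true,0,⟨2,[(1,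
  0),(6,0),(5,0),(12,1)]⟩,⟨0,[(5,0),(22,0)]⟩⟩]⟩))) (.Q [0,0,0,1,0,0,0,0,0,1,0,-1] (.p false [0,0,0,
  1] [1] (⟨0,[(26,0)]⟩,⟨0,[(25,0)]⟩) .k 1 (⟨0,[]⟩,⟨0,[]⟩) .k .k) (.R ⟨1,false,false,false,[1,0,0,
  -1],[0,1],[1,0,0,0,0,0,0,0,-1],(⟨0,[(26,0)]⟩,⟨0,[(27,0)]⟩),(⟨0,[(39,0)]⟩,⟨0,[(38,0)]⟩),⟨0,[(2,
  0)]⟩,.k,.k,(.x (-1) ⟨15,[(10,3),(5,3),(7,6),(0,6),(11,1)]⟩ ⟨0,[(39,0)]⟩),(.x (-1) ⟨15,[(10,3),(5,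
  3),(7,6),(0,6),(11,1)]⟩ ⟨0,[(39,0)]⟩),(.r (-1) ⟨19,[(1,15),(4,7),(17,2),(0,0)]⟩ ⟨4,[(3,4),(8,1),
  (0,1),(18,4),(0,2),(7,1)]⟩),.k,⟨false,1,⟨21,[(1,15),(4,9),(5,3),(0,3),(3,3),(6,2),(18,2)]⟩,⟨9,[(3,
  9),(8,1),(0,1),(18,4),(0,2),(7,1)]⟩⟩,⟨true,0,⟨0,[(26,0)]⟩,⟨8,[(4,5),(4,1),(2,1),(14,8),(1,0),(2,
  2),(7,2)]⟩⟩,⟨true,0,⟨0,[]⟩,⟨0,[(46,0)]⟩⟩,⟨false,0,⟨3,[(0,3),(2,3),(28,0),(0,0),(6,1)]⟩,⟨12,[(1,6),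
  (2,4),(4,1),(2,0),(4,1),(2,7),(3,2),(2,12),(9,2)]⟩⟩,⟨false,1,⟨31,[(12,7),(0,7),(9,3),(0,6),(0,6),
  (11,1),(5,3),(0,11)]⟩,⟨0,[(42,0)]⟩⟩,⟨false,0,⟨15,[(0,15),(2,15),(8,3),(0,3),(18,4),(0,0),(6,5)]⟩,
  ⟨7,[(1,3),(2,5),(1,1),(17,1),(2,7),(9,0),(2,1),(3,0)]⟩⟩,[.e ⟨false,1,⟨1,[(24,0),(18,0)]⟩,⟨0,[(3,
  0)]⟩⟩ ⟨false,0,⟨0,[(0,0)]⟩,⟨37,[(1,9),(2,3),(1,7),(7,5),(10,4),(1,37),(9,16),(2,1)]⟩⟩,.o ⟨false,1,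
  ⟨31,[(12,7),(0,7),(9,3),(0,6),(0,6),(11,1),(5,3),(0,11)]⟩,⟨0,[(4,0)]⟩⟩,.o ⟨false,1,⟨1,[(27,1),(9,
  0),(5,0)]⟩,⟨2,[(0,1),(3,1),(21,0),(2,0),(2,0),(7,0)]⟩⟩,.a ⟨true,0,⟨0,[(27,0)]⟩,⟨0,[(26,0)]⟩⟩
  ⟨false,1,⟨2,[(1,0),(10,0),(7,1),(3,0),(18,0)]⟩,⟨1,[(3,1),(28,0),(0,0)]⟩⟩ ⟨true,0,⟨0,[(0,0)]⟩,⟨0,
  [(4,0),(22,0)]⟩⟩]⟩) (.R ⟨1,false,false,false,[1,0,0,-1],[0,1],[1,0,0,0,0,0,0,0,-1],(⟨0,[(26,0)]⟩,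
  ⟨0,[(27,0)]⟩),(⟨0,[(39,0)]⟩,⟨0,[(38,0)]⟩),⟨0,[(2,0)]⟩,.k,.k,(.x (-1) ⟨15,[(10,3),(5,3),(7,6),(0,
  6),(11,1)]⟩ ⟨0,[(39,0)]⟩),(.x (-1) ⟨15,[(10,3),(5,3),(7,6),(0,6),(11,1)]⟩ ⟨0,[(39,0)]⟩),(.r (-1)
  ⟨19,[(1,15),(4,7),(17,2),(0,0)]⟩ ⟨4,[(3,4),(8,1),(0,1),(18,4),(0,2),(7,1)]⟩),.k,⟨false,1,⟨21,[(1,
  15),(4,9),(5,3),(0,3),(3,3),(6,2),(18,2)]⟩,⟨9,[(3,9),(8,1),(0,1),(18,4),(0,2),(7,1)]⟩⟩,⟨true,0,⟨0,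
  [(26,0)]⟩,⟨5,[(0,2),(8,0),(2,0),(14,2),(1,1),(2,2)]⟩⟩,⟨true,0,⟨0,[]⟩,⟨0,[(46,0)]⟩⟩,⟨false,0,⟨15,
  [(3,15),(8,3),(0,3),(12,15),(5,4),(0,0),(6,5)]⟩,⟨1,[(0,1),(23,0),(18,0)]⟩⟩,⟨false,1,⟨31,[(12,7),
  (0,7),(9,3),(0,6),(0,6),(11,1),(5,3),(0,11)]⟩,⟨0,[(42,0)]⟩⟩,⟨false,0,⟨2,[(3,2),(8,1),(0,0),(6,0),
  (5,2),(5,0)]⟩,⟨19,[(0,19),(0,7),(4,3),(17,8),(0,2)]⟩⟩,[.a ⟨true,0,⟨3,[(7,0),(5,1),(12,2),(0,2)]⟩,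
  ⟨0,[(42,0)]⟩⟩ ⟨false,1,⟨1,[(24,0),(18,0)]⟩,⟨0,[(3,0)]⟩⟩ ⟨true,0,⟨9,[(12,1),(0,1),(12,9),(5,4),(0,
  2),(7,1)]⟩,⟨0,[(0,0)]⟩⟩,.o ⟨false,1,⟨31,[(12,7),(0,7),(9,3),(0,6),(0,6),(11,1),(5,3),(0,11)]⟩,⟨0,
  [(4,0)]⟩⟩,.o ⟨false,1,⟨1,[(27,1),(9,0),(5,0)]⟩,⟨8,[(4,5),(4,1),(2,1),(13,8),(2,0),(2,2),(7,2)]⟩⟩,
  .e ⟨false,1,⟨2,[(1,0),(10,0),(7,1),(3,0),(18,0)]⟩,⟨1,[(3,1),(28,0),(0,0)]⟩⟩ ⟨false,1,⟨31,[(12,7),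
  (0,7),(9,3),(0,6),(0,6),(0,31),(10,1),(5,3),(0,11)]⟩,⟨0,[(0,0)]⟩⟩]⟩))) (.I [1,0,0,0,0,0,0,1,1]
  (.R ⟨0,false,false,false,[1,0,0,-1],[1,0,-1],[0,1,0,0,0,0,0,0,-1],(⟨0,[(25,0)]⟩,⟨0,[(26,0)]⟩),(⟨0,
  [(34,0)]⟩,⟨0,[(35,0)]⟩),⟨0,[(1,0)]⟩,.k,.k,(.x (-1) ⟨15,[(9,3),(5,3),(7,6),(0,6),(11,1)]⟩ ⟨0,[(38,
  0)]⟩),.k,.k,.k,⟨false,1,⟨1,[(13,0),(7,0),(1,0),(5,0)]⟩,⟨0,[(2,0),(16,0)]⟩⟩,⟨true,0,⟨0,[(25,0),(2,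
  0)]⟩,⟨5,[(1,3),(7,0),(5,0),(6,2),(3,1)]⟩⟩,⟨true,0,⟨0,[(45,0)]⟩,⟨0,[]⟩⟩,⟨false,0,⟨2,[(2,2),(2,0),
  (2,0),(16,2),(2,1),(10,1)]⟩,⟨5,[(1,3),(4,2),(2,0),(5,0),(7,2),(2,1),(15,2)]⟩⟩,⟨false,0,⟨0,[]⟩,⟨0,
  []⟩⟩,⟨false,0,⟨0,[]⟩,⟨0,[]⟩⟩,[.a ⟨true,0,⟨4,[(5,1),(6,0),(5,1),(6,1),(0,1)]⟩,⟨1,[(6,0),(18,0),(0,
  0)]⟩⟩ ⟨false,1,⟨1,[(23,0),(18,0),(2,1)]⟩,⟨0,[(0,0),(18,0)]⟩⟩ ⟨true,0,⟨0,[(25,0),(2,0),(4,0)]⟩,⟨5,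
  [(1,3),(4,2),(2,0),(5,0),(10,1)]⟩⟩,.o ⟨false,1,⟨3,[(5,0),(2,0),(9,0),(11,0),(5,0),(6,2)]⟩,⟨0,[(29,
  0)]⟩⟩,.o ⟨false,1,⟨1,[(26,1),(9,0),(5,0)]⟩,⟨8,[(3,5),(4,1),(2,1),(13,8),(2,0),(2,2),(7,2)]⟩⟩,.e
  ⟨false,1,⟨1,[(23,0),(18,0)]⟩,⟨3,[(2,3),(28,0),(0,0),(6,1)]⟩⟩ ⟨false,1,⟨3,[(5,0),(2,0),(9,0),(6,3),
  (4,0),(5,0),(6,2)]⟩,⟨5,[(1,3),(4,2),(2,0),(5,0),(10,1)]⟩⟩]⟩) (.R ⟨0,false,false,false,[1,0,0,-1],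
  [1,-1],[1,0,0,0,0,0,0,0,-1],(⟨0,[(25,0)]⟩,⟨0,[(26,0)]⟩),(⟨0,[(37,0)]⟩,⟨0,[(38,0)]⟩),⟨0,[(1,0)]⟩,
  .k,.k,(.x (-1) ⟨15,[(9,3),(5,3),(7,6),(0,6),(11,1)]⟩ ⟨0,[(38,0)]⟩),(.r 0 ⟨11,[(0,11),(5,1),(4,3),
  (4,3),(1,1),(12,0),(0,4)]⟩ ⟨19,[(5,3),(7,7),(9,0),(0,10),(16,7)]⟩),.k,.k,⟨true,0,⟨11,[(0,11),(5,
  1),(4,3),(4,3),(1,1),(12,0),(0,4)]⟩,⟨0,[(2,0),(38,0)]⟩⟩,⟨false,0,⟨8,[(3,5),(4,1),(2,1),(13,8),(2,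
  0),(2,2),(7,2)]⟩,⟨0,[(26,0),(15,0)]⟩⟩,⟨true,0,⟨0,[]⟩,⟨0,[(45,0)]⟩⟩,⟨false,0,⟨0,[(2,0),(0,0),(21,
  0),(13,0)]⟩,⟨4,[(0,0),(10,0),(0,0),(3,0),(6,1),(2,4),(15,2)]⟩⟩,⟨false,0,⟨0,[]⟩,⟨0,[]⟩⟩,⟨false,0,
  ⟨0,[]⟩,⟨0,[]⟩⟩,[.a ⟨true,0,⟨0,[(41,0)]⟩,⟨3,[(6,0),(5,1),(12,2),(0,2)]⟩⟩ ⟨false,1,⟨1,[(23,0),(18,
  0)]⟩,⟨0,[(2,0)]⟩⟩ ⟨true,0,⟨2,[(3,1),(21,2),(2,0),(2,0),(7,0),(1,0)]⟩,⟨11,[(1,3),(4,2),(2,0),(2,5),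
  (2,0),(10,7)]⟩⟩,.o ⟨false,1,⟨0,[(3,0),(39,0)]⟩,⟨0,[(40,0)]⟩⟩,.o ⟨false,1,⟨1,[(26,1),(9,0),(5,0)]⟩,
  ⟨8,[(3,5),(4,1),(2,1),(13,8),(2,0),(2,2),(7,2)]⟩⟩,.e ⟨false,1,⟨4,[(0,2),(10,0),(1,1),(9,0),(15,1),
  (2,1)]⟩,⟨1,[(2,1),(28,0),(0,0)]⟩⟩ ⟨false,1,⟨0,[(3,0),(21,0),(17,0)]⟩,⟨11,[(1,3),(4,2),(2,0),(2,5),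
  (2,0),(10,7)]⟩⟩]⟩))))))

theorem ok192 : chk (cU (-1) true 10) t192 r105 = true := by decide +kernel

noncomputable def t217 : Tre :=
  (.Q [0,1,1,0,0,0,0,0,1,0,0,-1] (.p false [0,0,0,1] [] (⟨0,[(21,0)]⟩,⟨0,[(20,0)]⟩) .k 0 (⟨0,[]⟩,⟨0,
  []⟩) .k .k) (.K ⟨0,[0,0,0,1],0,0,(⟨0,[(22,0)]⟩,⟨0,[(21,0)]⟩),.k,(.r (-1) ⟨1,[(5,0),(14,0),(20,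
  0)]⟩ ⟨26,[(1,4),(0,5),(1,8),(3,3),(0,4),(4,0),(4,10),(1,4)]⟩),(.x 0 ⟨0,[(34,0)]⟩ ⟨15,[(7,3),(3,3),
  (2,1),(4,6),(0,6),(11,0),(5,4)]⟩),.k,.k,[⟨0,[(22,0)]⟩,⟨0,[(21,0)]⟩,⟨0,[(1,0)]⟩,⟨0,[(0,0)]⟩]⟩) (.R
  ⟨1,false,false,true,[1,-1],[0,0,0,1],[0,1,1],(⟨0,[(33,0)]⟩,⟨0,[(34,0)]⟩),(⟨0,[(22,0)]⟩,⟨0,[(21,
  0)]⟩),⟨0,[(11,0),(19,0)]⟩,.k,.k,(.r (-1) ⟨0,[(5,0),(35,0)]⟩ ⟨22,[(4,7),(1,1),(2,15),(2,7),(1,1),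
  (4,7),(0,7),(7,3)]⟩),(.x (-1) ⟨15,[(7,3),(3,3),(2,1),(4,6),(0,6),(11,0),(5,4)]⟩ ⟨0,[(34,0)]⟩),(.r
  (-1) ⟨7,[(0,2),(0,0),(3,5),(13,1),(1,3),(1,3),(1,3),(11,3)]⟩ ⟨91,[(4,31),(1,7),(2,63),(2,31),(1,
  7),(4,8),(0,54),(7,15)]⟩),.k,⟨false,0,⟨17,[(0,11),(1,3),(16,2),(1,11),(1,5),(0,3),(0,5),(6,0)]⟩,
  ⟨1,[(20,0),(17,0)]⟩⟩,⟨true,0,⟨0,[(21,0)]⟩,⟨2,[(2,0),(19,2),(1,0),(7,0)]⟩⟩,⟨true,(-1),⟨0,[(2,0),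
  (14,0)]⟩,⟨1,[(5,0),(32,0),(2,0)]⟩⟩,⟨false,0,⟨0,[(3,0),(33,0)]⟩,⟨11,[(0,5),(1,1),(2,5),(13,2),(2,
  5),(1,1),(7,4)]⟩⟩,⟨false,0,⟨22,[(4,7),(1,1),(2,15),(2,7),(1,1),(4,7),(0,7),(7,3)]⟩,⟨0,[(5,0)]⟩⟩,
  ⟨false,0,⟨0,[(3,0)]⟩,⟨3,[(0,0),(0,0),(0,1),(2,3),(13,0),(2,1),(1,1),(7,0)]⟩⟩,[.e ⟨false,0,⟨0,[(41,
  0)]⟩,⟨1,[(38,0),(0,0)]⟩⟩ ⟨false,1,⟨1,[(20,0),(0,1),(16,0),(2,1)]⟩,⟨2,[(0,2),(1,0),(21,0),(7,0)]⟩⟩,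
  .a ⟨true,0,⟨0,[(3,0),(33,1)]⟩,⟨1,[(0,0),(0,0)]⟩⟩ ⟨true,0,⟨5,[(2,1),(16,0),(0,0),(7,1)]⟩,⟨0,[]⟩⟩
  ⟨false,1,⟨1,[(20,0),(0,1),(16,0)]⟩,⟨5,[(0,2),(0,2),(0,1),(21,1),(7,1)]⟩⟩,.o ⟨false,0,⟨2,[(2,0),
  (21,0),(7,0)]⟩,⟨3,[(19,0),(0,0),(17,1)]⟩⟩,.o ⟨false,0,⟨0,[(24,0),(2,0)]⟩,⟨0,[(38,0)]⟩⟩]⟩))

theorem ok217 : chk (cU (-1) true 10) t217 l117 = true := by decide +kernel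

end Helper11.CT.Tm1_34_m1_m1_u
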