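import Pool.Agent.Helper11.CT.T.Tm1_34_m1_m1_u_q

set_option autoImplicit false
set_option linter.all false

namespace Helper11.CT.Tm1_34_m1_m1_u

open Helper11.CT

noncomputable def t3 : Tre :=
  (.Q [0,0,0,1,0,0,0,0,0,1] (.pp false [-1,1]) (.R ⟨0,false,false,true,[-1,1,1],[0,1],[1,1,1],(⟨0,
  [(5,0)]⟩,⟨0,[(19,0),(2,0)]⟩),(⟨0,[(23,0)]⟩,⟨0,[(22,0)]⟩),⟨0,[(19,0)]⟩,.k,.k,.k,.k,.k,.k,⟨true,0,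
  ⟨0,[(26,0)]⟩,⟨0,[(3,0),(9,0)]⟩⟩,⟨false,1,⟨0,[(13,0),(13,0)]⟩,⟨1,[(7,0),(2,0),(0,0)]⟩⟩,⟨false,0,⟨0,
  [(18,0),(7,0)]⟩,⟨3,[(1,1),(0,1),(3,1),(20,0),(0,2)]⟩⟩,⟨true,0,⟨0,[(12,0)]⟩,⟨0,[(1,0),(24,0)]⟩⟩,
  ⟨false,0,⟨0,[]⟩,⟨0,[]⟩⟩,⟨false,0,⟨0,[]⟩,⟨0,[]⟩⟩,[.o ⟨false,0,⟨0,[(25,0)]⟩,⟨1,[(21,0),(4,1),(1,
  0)]⟩⟩,.a ⟨true,0,⟨0,[(0,0)]⟩,⟨0,[(26,0)]⟩⟩ ⟨false,0,⟨0,[]⟩,⟨3,[(8,0),(0,0),(17,1)]⟩⟩ ⟨true,0,⟨0,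
  [(1,0),(2,0),(1,0),(17,0)]⟩,⟨1,[(7,0),(2,0),(0,0),(14,1)]⟩⟩,.e ⟨false,0,⟨1,[(16,0),(0,0)]⟩,⟨1,
  [(27,0),(0,0)]⟩⟩ ⟨false,0,⟨0,[(1,0),(2,0),(1,0),(17,0)]⟩,⟨1,[(7,0),(2,0),(0,0),(14,1),(0,0),(0,
  0)]⟩⟩,.o ⟨false,0,⟨1,[(7,0),(2,0),(0,0)]⟩,⟨1,[(13,1),(7,0),(5,0)]⟩⟩]⟩) (.Q [0,0,0,0,0,-1,0,0,0,0,
  1] (.ed false [1,-1,1] .k) (.Q [0,-1,0,-1,0,0,1,1,0,1,-1] (.p false [0,0,1] [1] (⟨0,[(21,0)]⟩,⟨0,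
  [(20,0)]⟩) .k 1 (⟨0,[]⟩,⟨0,[]⟩) .k .k) (.R ⟨2,true,false,true,[0,1],[1,1,-1],[0,1,1],(⟨0,[]⟩,⟨0,
  []⟩),(⟨0,[(21,0),(3,0)]⟩,⟨0,[(1,0)]⟩),⟨0,[]⟩,.k,.k,.k,.k,.k,.k,⟨true,0,⟨0,[(0,0),(1,0),(5,0)]⟩,⟨0,
  [(5,0),(9,0),(4,0)]⟩⟩,⟨false,1,⟨0,[(15,0),(13,0)]⟩,⟨2,[(0,0),(4,0),(3,0),(7,0)]⟩⟩,⟨false,0,⟨0,
  [(28,0)]⟩,⟨0,[(27,0),(2,0)]⟩⟩,⟨true,0,⟨0,[(14,0)]⟩,⟨1,[(0,0),(2,0),(28,0)]⟩⟩,⟨true,0,⟨0,[(32,0)]⟩,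
  ⟨0,[]⟩⟩,⟨false,1,⟨1,[(8,1),(11,1),(2,0),(6,0)]⟩,⟨0,[(0,0)]⟩⟩,[]⟩) (.I [1,1,1,0,-1,0,0,0,-1] (.Q
  [0,1,1,0,0,0,0,0,1,0,0,-1] (.p false [0,0,0,1] [] (⟨0,[(14,0)]⟩,⟨0,[(13,0)]⟩) .k 0 (⟨0,[]⟩,⟨0,
  []⟩) .k .k) (.K ⟨0,[0,0,0,1],0,0,(⟨0,[(15,0)]⟩,⟨0,[(14,0)]⟩),.k,(.r (-1) ⟨1,[(13,0),(16,1),(0,
  0)]⟩ ⟨2,[(1,0),(10,0),(15,1),(0,2)]⟩),(.x 0 ⟨0,[(27,0)]⟩ ⟨3,[(12,0),(0,0),(11,1),(0,3)]⟩),.k,.k,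
  [⟨0,[(15,0)]⟩,⟨0,[(14,0)]⟩,⟨0,[(1,0),(13,0),(15,0)]⟩,⟨0,[(0,0)]⟩]⟩) (.R ⟨2,false,false,true,[0,1],
  [0,0,0,1],[],(⟨0,[]⟩,⟨0,[]⟩),(⟨0,[(15,0)]⟩,⟨0,[(14,0)]⟩),⟨0,[]⟩,.k,.k,.k,(.r 0 ⟨2,[(1,0),(10,0),
  (15,1),(0,2)]⟩ ⟨1,[(13,0),(16,1),(0,0)]⟩),.k,.k,⟨true,0,⟨2,[(0,1),(0,0),(12,1),(10,0),(2,0)]⟩,⟨0,
  [(1,0),(11,0)]⟩⟩,⟨false,0,⟨4,[(2,0),(3,1),(1,0),(5,4),(5,1),(7,0)]⟩,⟨0,[(15,0),(15,0)]⟩⟩,⟨false,1,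
  ⟨1,[(30,1),(0,0),(0,0)]⟩,⟨0,[(7,0),(9,0)]⟩⟩,⟨true,0,⟨0,[(1,0),(2,0),(8,0),(0,0)]⟩,⟨0,[(0,0),(28,
  0)]⟩⟩,⟨false,1,⟨1,[(31,0),(0,0)]⟩,⟨1,[(20,0),(0,0)]⟩⟩,⟨false,1,⟨7,[(12,0),(0,4),(0,7),(2,3),(2,3),
  (4,1)]⟩,⟨0,[(0,0)]⟩⟩,[.a ⟨true,0,⟨0,[(1,0),(11,0),(0,0)]⟩,⟨0,[(0,0)]⟩⟩ ⟨false,1,⟨3,[(12,0),(0,0),
  (17,1)]⟩,⟨0,[]⟩⟩ ⟨true,0,⟨4,[(1,4),(0,0),(3,1),(1,0),(4,4),(0,4),(5,1),(7,0)]⟩,⟨0,[(0,0)]⟩⟩,.o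
  ⟨false,1,⟨7,[(12,0),(0,4),(0,7),(2,3),(2,3),(4,1)]⟩,⟨1,[(0,1),(1,0),(1,0),(13,0)]⟩⟩,.o ⟨false,1,
  ⟨3,[(12,0),(0,0),(17,1)]⟩,⟨4,[(2,0),(3,1),(1,0),(11,1),(7,0)]⟩⟩,.e ⟨false,1,⟨1,[(31,0),(0,0)]⟩,⟨1,
  [(20,0),(0,0)]⟩⟩ ⟨false,1,⟨7,[(12,0),(0,4),(0,7),(2,3),(2,3),(4,1)]⟩,⟨0,[(0,0)]⟩⟩]⟩)) (.I [1,-1,
  -1,0,1,0,0,0,-1] (.Q [0,0,0,0,0,1,0,0,0,-1,0,1] (.ed false [0,1,0,1] .k) (.I [1,0,0,0,0,0,0,-1,1]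
  (.R ⟨0,false,false,true,[1,0,0,-1],[1,0,-1],[0,1,0,0,0,0,0,0,-1],(⟨0,[(16,0)]⟩,⟨0,[(17,0)]⟩),(⟨0,
  [(25,0)]⟩,⟨0,[(26,0)]⟩),⟨0,[(1,0)]⟩,.k,.k,(.x (-1) ⟨3,[(14,0),(0,0),(11,1),(0,3)]⟩ ⟨0,[(29,0)]⟩),
  .k,.k,.k,⟨false,1,⟨0,[(2,0),(3,0),(0,0),(4,0),(19,0)]⟩,⟨0,[(0,0)]⟩⟩,⟨true,0,⟨0,[(16,0),(2,0)]⟩,⟨0,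
  [(6,0),(2,0),(7,0)]⟩⟩,⟨true,0,⟨0,[(36,0)]⟩,⟨0,[]⟩⟩,⟨false,0,⟨0,[(0,0),(15,0),(2,0)]⟩,⟨0,[(2,0),(3,
  0),(0,0),(9,0)]⟩⟩,⟨false,0,⟨0,[]⟩,⟨0,[]⟩⟩,⟨false,0,⟨0,[]⟩,⟨0,[]⟩⟩,[.o ⟨false,0,⟨0,[(18,0)]⟩,⟨0,
  [(20,0),(13,0)]⟩⟩,.o ⟨false,1,⟨1,[(21,1),(5,0),(6,0)]⟩,⟨0,[(6,0),(0,0)]⟩⟩,.o ⟨false,1,⟨1,[(17,1),
  (9,0),(5,0)]⟩,⟨4,[(4,0),(3,1),(1,0),(5,4),(5,1),(7,0)]⟩⟩,.a ⟨true,0,⟨0,[(17,0)]⟩,⟨0,[(16,0)]⟩⟩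
  ⟨false,1,⟨1,[(14,0),(18,0)]⟩,⟨0,[(0,0),(5,0),(0,0),(4,0),(17,0),(1,0)]⟩⟩ ⟨true,0,⟨2,[(4,0),(5,0),
  (5,2),(4,0)]⟩,⟨0,[(6,0),(0,0),(9,0)]⟩⟩]⟩) (.I [1,1,0,0,0,0,0,-1,1] (.R ⟨0,false,false,true,[1,0,0,
  -1],[2,-1,-1],[1,0,0,0,0,0,0,0,-1],(⟨0,[(17,0)]⟩,⟨0,[(18,0)]⟩),(⟨0,[(26,0),(2,0)]⟩,⟨0,[(12,0)]⟩),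
  ⟨0,[(2,0)]⟩,.k,.k,(.x (-1) ⟨3,[(15,0),(0,0),(11,1),(0,3)]⟩ ⟨0,[(30,0)]⟩),(.r 0 ⟨0,[(1,0),(8,0),(9,
  0)]⟩ ⟨1,[(0,1),(32,1),(0,0),(0,0)]⟩),.k,.k,⟨true,0,⟨0,[(1,0),(29,0),(0,0)]⟩,⟨0,[(0,0),(32,0)]⟩⟩,
  ⟨false,0,⟨1,[(5,0),(1,1),(1,0),(3,0),(3,1),(13,0)]⟩,⟨1,[(14,0),(2,0),(0,2),(15,1)]⟩⟩,⟨true,0,⟨0,
  []⟩,⟨0,[(37,0)]⟩⟩,⟨false,0,⟨0,[(0,0),(6,1),(5,0),(3,0),(13,0)]⟩,⟨0,[(3,0),(4,0),(9,0)]⟩⟩,⟨false,0,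
  ⟨0,[]⟩,⟨0,[]⟩⟩,⟨false,0,⟨0,[]⟩,⟨0,[]⟩⟩,[.o ⟨false,0,⟨0,[(11,0)]⟩,⟨3,[(8,3),(6,0),(0,0),(18,1)]⟩⟩,
  .o ⟨false,1,⟨3,[(11,3),(3,0),(0,0),(18,1)]⟩,⟨0,[(8,0)]⟩⟩,.o ⟨false,1,⟨1,[(18,1),(9,0),(5,0)]⟩,⟨4,
  [(5,0),(3,1),(1,0),(5,4),(5,1),(7,0)]⟩⟩,.a ⟨true,0,⟨0,[(18,0)]⟩,⟨0,[(17,0)]⟩⟩ ⟨false,1,⟨0,[(3,
  0)]⟩,⟨0,[(0,0),(6,0),(0,0),(4,0),(17,0),(1,0)]⟩⟩ ⟨true,0,⟨0,[(11,0),(5,0)]⟩,⟨0,[(8,0),(9,0)]⟩⟩]⟩)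
  (.Q [0,0,1,1,0,0,0,0,1,1,0,-1] (.p false [0,0,0,1] [1] (⟨0,[(18,0)]⟩,⟨0,[(17,0)]⟩) .k 1 (⟨0,[]⟩,
  ⟨0,[]⟩) .k .k) (.R ⟨0,false,false,true,[1,0,0,-1],[0,1],[1,0,0,0,0,0,0,0,-1],(⟨0,[(18,0)]⟩,⟨0,
  [(19,0)]⟩),(⟨0,[(31,0)]⟩,⟨0,[(30,0)]⟩),⟨0,[(3,0)]⟩,.k,.k,(.x (-1) ⟨3,[(16,0),(0,0),(11,1),(0,3)]⟩
  ⟨0,[(31,0)]⟩),(.x (-1) ⟨3,[(16,0),(0,0),(11,1),(0,3)]⟩ ⟨0,[(31,0)]⟩),.k,.k,⟨false,1,⟨0,[(1,0),(24,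
  0),(7,0),(0,0)]⟩,⟨1,[(0,1),(5,0),(1,0),(10,1),(2,0)]⟩⟩,⟨true,0,⟨0,[(18,0)]⟩,⟨4,[(6,0),(3,1),(1,0),
  (6,4),(4,1),(7,0)]⟩⟩,⟨true,0,⟨0,[]⟩,⟨0,[(38,0)]⟩⟩,⟨false,0,⟨0,[(0,0)]⟩,⟨0,[(4,0),(3,0),(10,0)]⟩⟩,
  ⟨false,0,⟨0,[]⟩,⟨0,[]⟩⟩,⟨false,0,⟨0,[]⟩,⟨0,[]⟩⟩,[.o ⟨false,0,⟨0,[(33,0)]⟩,⟨3,[(8,3),(7,0),(0,0),
  (18,1)]⟩⟩,.o ⟨false,1,⟨3,[(16,0),(0,0),(15,3),(2,1)]⟩,⟨0,[(8,0)]⟩⟩,.o ⟨false,1,⟨1,[(19,1),(9,0),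
  (5,0)]⟩,⟨4,[(6,0),(3,1),(1,0),(5,4),(5,1),(7,0)]⟩⟩,.a ⟨true,0,⟨0,[(19,0)]⟩,⟨0,[(18,0)]⟩⟩ ⟨false,1,
  ⟨0,[(4,0)]⟩,⟨0,[(0,0),(7,0),(10,0)]⟩⟩ ⟨true,0,⟨0,[(18,0),(14,0)]⟩,⟨0,[(8,0),(10,0)]⟩⟩]⟩) (.Q [0,1,
  1,0,0,0,0,0,1,0,0,-1] (.p false [0,0,0,1] [] (⟨0,[(19,0)]⟩,⟨0,[(18,0)]⟩) .k 0 (⟨0,[]⟩,⟨0,[]⟩) .k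
  .k) (.K ⟨0,[0,0,0,1],0,0,(⟨0,[(20,0)]⟩,⟨0,[(19,0)]⟩),.k,(.r (-1) ⟨1,[(18,0),(16,1),(0,0)]⟩ ⟨3,[(2,
  3),(4,1),(4,1),(11,1),(0,2),(0,0)]⟩),(.x 0 ⟨0,[(32,0)]⟩ ⟨3,[(17,0),(0,0),(11,1),(0,3)]⟩),.k,.k,
  [⟨0,[(20,0)]⟩,⟨0,[(19,0)]⟩,⟨0,[(1,0),(8,0),(13,0)]⟩,⟨0,[(0,0)]⟩]⟩) (.R ⟨0,false,false,true,[1,0,0,
  -1],[1,0,-1],[0,1,0,0,0,0,0,0,-1],(⟨0,[(19,0)]⟩,⟨0,[(20,0)]⟩),(⟨0,[(28,0)]⟩,⟨0,[(29,0)]⟩),⟨0,[(4,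
  0)]⟩,.k,.k,(.x (-1) ⟨3,[(17,0),(0,0),(11,1),(0,3)]⟩ ⟨0,[(32,0)]⟩),.k,.k,.k,⟨false,0,⟨0,[(0,0),(8,
  1),(0,0),(4,0),(3,0)]⟩,⟨3,[(17,0),(0,2),(8,3)]⟩⟩,⟨true,0,⟨0,[(19,0),(2,0)]⟩,⟨0,[(9,0),(2,0),(7,
  0)]⟩⟩,⟨true,0,⟨0,[(39,0)]⟩,⟨0,[]⟩⟩,⟨false,1,⟨5,[(18,2),(0,5),(2,3),(1,3),(0,1),(1,1),(2,0),(6,
  1)]⟩,⟨0,[(0,0),(8,0),(0,0)]⟩⟩,⟨false,0,⟨0,[]⟩,⟨0,[]⟩⟩,⟨false,0,⟨0,[]⟩,⟨0,[]⟩⟩,[.o ⟨false,0,⟨0,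
  [(21,0)]⟩,⟨0,[(23,0),(13,0)]⟩⟩,.o ⟨false,1,⟨1,[(24,1),(5,0),(6,0)]⟩,⟨0,[(9,0),(0,0)]⟩⟩,.o ⟨false,
  1,⟨1,[(20,1),(9,0),(5,0)]⟩,⟨4,[(7,0),(3,1),(1,0),(5,4),(5,1),(7,0)]⟩⟩,.a ⟨true,0,⟨0,[(20,0)]⟩,⟨0,
  [(19,0)]⟩⟩ ⟨false,0,⟨1,[(0,1),(6,0),(1,0),(9,1),(3,0)]⟩,⟨1,[(18,0),(6,0),(0,0),(10,0)]⟩⟩ ⟨true,0,
  ⟨2,[(7,0),(5,0),(5,2),(4,0)]⟩,⟨0,[(9,0),(0,0),(9,0)]⟩⟩]⟩))))) (.I [0,0,0,0,0,0,0,-1,1] (.R ⟨1,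
  false,false,true,[1,0,0,-1],[1,0,-1],[1,1,0,0,0,0,0,0,-1],(⟨0,[(16,0)]⟩,⟨0,[(17,0)]⟩),(⟨0,[(25,
  0)]⟩,⟨0,[(26,0)]⟩),⟨0,[(1,0)]⟩,.k,.k,(.x (-1) ⟨3,[(14,0),(0,0),(11,1),(0,3)]⟩ ⟨0,[(29,0)]⟩),.k,
  (.r (-1) ⟨0,[(2,0),(3,0),(0,0),(4,0),(19,1)]⟩ ⟨0,[(0,0),(8,0),(9,0)]⟩),.k,⟨false,1,⟨0,[(2,0),(3,
  0),(0,0),(4,0),(19,0)]⟩,⟨0,[(0,0)]⟩⟩,⟨true,0,⟨0,[(16,0),(2,0)]⟩,⟨0,[(6,0),(2,0),(7,0)]⟩⟩,⟨false,0,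
  ⟨0,[]⟩,⟨3,[(14,0),(0,0),(18,1)]⟩⟩,⟨false,0,⟨0,[(0,0),(15,0),(2,0)]⟩,⟨0,[(2,0),(3,0),(0,0),(9,
  0)]⟩⟩,⟨true,0,⟨0,[(31,0)]⟩,⟨0,[(32,0)]⟩⟩,⟨false,0,⟨1,[(0,1),(3,0),(3,0),(3,0),(3,1),(13,0)]⟩,⟨0,
  [(2,0),(3,0),(0,0),(9,0),(14,0)]⟩⟩,[.o ⟨false,0,⟨0,[(18,0)]⟩,⟨0,[(20,0),(13,0)]⟩⟩,.o ⟨false,1,⟨1,
  [(21,1),(5,0),(6,0)]⟩,⟨0,[(6,0),(0,0)]⟩⟩,.o ⟨false,1,⟨1,[(17,1),(9,0),(5,0)]⟩,⟨4,[(4,0),(3,1),(1,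
  0),(5,4),(5,1),(7,0)]⟩⟩,.a ⟨true,0,⟨0,[(17,0)]⟩,⟨0,[(16,0)]⟩⟩ ⟨false,1,⟨1,[(14,0),(18,0)]⟩,⟨0,[(0,
  0),(5,0),(0,0),(4,0),(17,0),(1,0)]⟩⟩ ⟨true,0,⟨2,[(4,0),(5,0),(5,2),(4,0)]⟩,⟨0,[(6,0),(0,0),(9,
  0)]⟩⟩]⟩) (.Q [0,-1,1,1,0,0,1,1,1,1,-1,-1] (.p false [0,0,1] [1,0,0,-1] (⟨0,[(26,0)]⟩,⟨0,[(25,
  0)]⟩) .k 2 (⟨0,[(16,0)]⟩,⟨0,[(17,0)]⟩) .k (.r (-1) ⟨0,[(0,0),(14,0)]⟩ ⟨0,[(0,0),(23,1)]⟩)) (.R ⟨1,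
  false,false,false,[1,0,0,-1],[0,0,1],[1,0,0,0,0,0,0,0,-1],(⟨0,[(17,0)]⟩,⟨0,[(18,0)]⟩),(⟨0,[(27,
  0)]⟩,⟨0,[(26,0)]⟩),⟨0,[(2,0)]⟩,.k,.k,(.x (-1) ⟨3,[(15,0),(0,0),(11,1),(0,3)]⟩ ⟨0,[(30,0)]⟩),.k,
  (.r (-1) ⟨1,[(15,0),(9,1),(7,1),(0,0)]⟩ ⟨0,[(0,0),(6,0),(5,0),(4,0)]⟩),.k,⟨true,0,⟨0,[(1,0),(23,
  1)]⟩,⟨0,[(0,0),(6,0),(5,0),(4,0),(14,0)]⟩⟩,⟨false,0,⟨0,[(7,0),(2,0),(6,0)]⟩,⟨0,[(18,0),(1,0),(13,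
  0)]⟩⟩,⟨true,0,⟨0,[]⟩,⟨0,[(37,0)]⟩⟩,⟨false,0,⟨0,[(0,0),(32,0)]⟩,⟨2,[(3,2),(1,0),(5,0),(6,2),(3,
  0)]⟩⟩,⟨false,1,⟨0,[(32,0),(2,0)]⟩,⟨0,[(33,0)]⟩⟩,⟨false,0,⟨0,[(0,0)]⟩,⟨1,[(3,1),(7,0),(6,1),(3,0),
  (10,0)]⟩⟩,[.o ⟨false,0,⟨0,[(7,0),(0,0)]⟩,⟨1,[(22,1),(5,0),(6,0)]⟩⟩,.o ⟨false,1,⟨0,[(21,0),(13,
  0)]⟩,⟨0,[(19,0)]⟩⟩,.o ⟨false,1,⟨1,[(18,1),(9,0),(5,0)]⟩,⟨4,[(5,0),(3,1),(1,0),(5,4),(5,1),(7,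
  0)]⟩⟩,.a ⟨true,0,⟨0,[(18,0)]⟩,⟨0,[(17,0)]⟩⟩ ⟨false,1,⟨0,[(3,0)]⟩,⟨1,[(0,1),(10,0),(6,1),(3,0),(10,
  0)]⟩⟩ ⟨true,0,⟨0,[(7,0),(0,0),(8,0)]⟩,⟨2,[(5,0),(5,0),(6,2),(3,0)]⟩⟩]⟩) (.Q [0,1,1,0,0,0,0,0,1,0,
  0,-1] (.p false [0,0,0,1] [] (⟨0,[(18,0)]⟩,⟨0,[(17,0)]⟩) .k 0 (⟨0,[]⟩,⟨0,[]⟩) .k .k) (.K ⟨0,[0,0,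
  0,1],0,0,(⟨0,[(19,0)]⟩,⟨0,[(18,0)]⟩),.k,(.r (-1) ⟨1,[(17,0),(16,1),(0,0)]⟩ ⟨1,[(2,1),(3,0),(4,0),
  (11,0),(0,0),(7,0)]⟩),(.x 0 ⟨0,[(31,0)]⟩ ⟨3,[(16,0),(0,0),(11,1),(0,3)]⟩),.k,.k,[⟨0,[(19,0)]⟩,⟨0,
  [(18,0)]⟩,⟨0,[(1,0),(7,0)]⟩,⟨0,[(0,0)]⟩]⟩) (.R ⟨1,false,false,true,[1,0,0,-1],[1,0,-1],[0,1,0,-1,
  0,0,0,0,-1],(⟨0,[(18,0)]⟩,⟨0,[(19,0)]⟩),(⟨0,[(27,0)]⟩,⟨0,[(28,0)]⟩),⟨0,[(3,0)]⟩,.k,.k,(.x (-1) ⟨3,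
  [(16,0),(0,0),(11,1),(0,3)]⟩ ⟨0,[(31,0)]⟩),.k,(.r 0 ⟨0,[(0,0),(7,1),(0,0),(4,0),(3,0),(15,0)]⟩ ⟨3,
  [(6,1),(4,1),(5,1),(5,1),(0,2),(0,0),(10,1)]⟩),.k,⟨false,0,⟨0,[(0,0),(7,1),(0,0),(4,0),(3,0),(15,
  0)]⟩,⟨7,[(6,3),(4,3),(4,0),(0,4),(8,3),(9,1)]⟩⟩,⟨true,0,⟨0,[(18,0),(2,0)]⟩,⟨0,[(8,0),(2,0),(7,
  0)]⟩⟩,⟨false,0,⟨0,[(34,0)]⟩,⟨0,[(33,0),(2,0)]⟩⟩,⟨false,1,⟨5,[(17,2),(0,5),(2,3),(1,3),(0,1),(1,1),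
  (2,0),(6,1)]⟩,⟨0,[(0,0),(7,0),(0,0)]⟩⟩,⟨true,0,⟨0,[(38,0)]⟩,⟨0,[]⟩⟩,⟨false,1,⟨1,[(6,1),(10,0),(0,
  1),(5,0),(0,0),(10,0)]⟩,⟨0,[(0,0),(7,0),(0,0),(24,0)]⟩⟩,[.o ⟨false,0,⟨0,[(20,0)]⟩,⟨0,[(22,0),(13,
  0)]⟩⟩,.o ⟨false,1,⟨1,[(23,1),(5,0),(6,0)]⟩,⟨0,[(8,0),(0,0)]⟩⟩,.o ⟨false,1,⟨1,[(19,1),(9,0),(5,
  0)]⟩,⟨4,[(6,0),(3,1),(1,0),(5,4),(5,1),(7,0)]⟩⟩,.a ⟨true,0,⟨0,[(19,0)]⟩,⟨0,[(18,0)]⟩⟩ ⟨false,0,⟨2,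
  [(0,1),(0,0),(6,1),(9,2),(3,0)]⟩,⟨1,[(11,1),(5,0),(3,1),(14,0)]⟩⟩ ⟨true,0,⟨2,[(6,0),(5,0),(5,2),
  (4,0)]⟩,⟨0,[(8,0),(0,0),(9,0)]⟩⟩]⟩))))) (.Q [0,0,0,0,0,1,0,0,0,-1,0,1] (.ed false [0,1,0,1] .k)
  (.R ⟨0,false,false,false,[1,0,0,-1],[1,0,-1],[0,1,1],(⟨0,[(15,0)]⟩,⟨0,[(16,0)]⟩),(⟨0,[(24,0)]⟩,⟨0,
  [(25,0)]⟩),⟨0,[(0,0)]⟩,.k,.k,(.x (-1) ⟨3,[(13,0),(0,0),(11,1),(0,3)]⟩ ⟨0,[(28,0)]⟩),.k,.k,.k,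
  ⟨false,0,⟨0,[(5,0),(0,0),(4,0),(19,0)]⟩,⟨1,[(23,1),(8,0),(0,0)]⟩⟩,⟨true,0,⟨0,[(15,0),(2,0)]⟩,⟨0,
  [(5,0),(2,0),(7,0)]⟩⟩,⟨true,(-1),⟨0,[(1,0)]⟩,⟨1,[(13,0),(18,0)]⟩⟩,⟨false,0,⟨5,[(1,2),(0,2),(0,1),
  (5,1),(5,5),(4,1),(8,5)]⟩,⟨1,[(5,1),(0,1),(6,0),(2,1),(15,0)]⟩⟩,⟨false,0,⟨0,[]⟩,⟨0,[]⟩⟩,⟨false,0,
  ⟨0,[]⟩,⟨0,[]⟩⟩,[.o ⟨false,1,⟨1,[(20,1),(5,0),(6,0)]⟩,⟨0,[(5,0),(0,0)]⟩⟩,.o ⟨false,1,⟨2,[(3,0),(5,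
  0),(10,0),(12,2)]⟩,⟨0,[(19,0)]⟩⟩,.o ⟨false,1,⟨1,[(16,1),(9,0),(5,0)]⟩,⟨4,[(3,0),(3,1),(1,0),(5,4),
  (5,1),(7,0)]⟩⟩,.a ⟨true,0,⟨0,[(16,0)]⟩,⟨0,[(15,0)]⟩⟩ ⟨true,0,⟨0,[(35,0)]⟩,⟨0,[]⟩⟩ ⟨false,1,⟨2,[(3,
  0),(5,0),(5,2),(4,0),(12,2)]⟩,⟨0,[(5,0),(0,0),(9,0)]⟩⟩]⟩) (.I [0,0,-1,0,1,0,0,1,-1] (.R ⟨1,false,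
  false,false,[1,0,0,-1],[1,0,-1],[1,0,0,0,0,0,0,0,-1],(⟨0,[(16,0)]⟩,⟨0,[(17,0)]⟩),(⟨0,[(25,0)]⟩,⟨0,
  [(26,0)]⟩),⟨0,[(1,0)]⟩,.k,.k,(.x (-1) ⟨3,[(14,0),(0,0),(11,1),(0,3)]⟩ ⟨0,[(29,0)]⟩),.k,(.r (-1)
  ⟨0,[(0,0),(31,0)]⟩ ⟨5,[(2,1),(1,2),(4,2),(5,1),(5,0),(0,0),(1,1),(5,2)]⟩),.k,⟨false,1,⟨0,[(0,0)]⟩,
  ⟨1,[(2,0),(0,0),(20,1)]⟩⟩,⟨true,0,⟨0,[(16,0),(2,0)]⟩,⟨0,[(6,0),(2,0),(7,0)]⟩⟩,⟨true,0,⟨0,[]⟩,⟨0,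
  [(36,0)]⟩⟩,⟨false,0,⟨5,[(2,2),(0,2),(0,1),(5,1),(5,5),(4,1),(8,5)]⟩,⟨0,[(0,0),(5,0),(2,0),(7,
  0)]⟩⟩,⟨false,1,⟨0,[(31,0),(2,0)]⟩,⟨0,[(32,0)]⟩⟩,⟨false,0,⟨1,[(2,0),(0,0),(0,1),(11,1),(13,1)]⟩,⟨1,
  [(0,1),(5,0),(6,0),(3,1),(14,0)]⟩⟩,[.o ⟨false,1,⟨1,[(21,1),(5,0),(6,0)]⟩,⟨0,[(6,0),(0,0)]⟩⟩,.o
  ⟨false,1,⟨2,[(4,0),(5,0),(10,0),(12,2)]⟩,⟨0,[(20,0)]⟩⟩,.o ⟨false,1,⟨1,[(17,1),(9,0),(5,0)]⟩,⟨4,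
  [(4,0),(3,1),(1,0),(5,4),(5,1),(7,0)]⟩⟩,.a ⟨true,0,⟨0,[(17,0)]⟩,⟨0,[(16,0)]⟩⟩ ⟨true,1,⟨1,[(14,0),
  (18,0)]⟩,⟨0,[(2,0)]⟩⟩ ⟨false,1,⟨2,[(4,0),(5,0),(5,2),(4,0),(12,2)]⟩,⟨0,[(6,0),(0,0),(9,0)]⟩⟩]⟩)
  (.K ⟨0,[0,0,0,1],0,(-1),(⟨0,[(17,0)]⟩,⟨0,[(16,0)]⟩),.k,(.x 0 ⟨0,[(19,0),(2,0),(5,0)]⟩ ⟨0,[(29,0),
  (3,0)]⟩),(.x 0 ⟨0,[(29,0)]⟩ ⟨3,[(14,0),(0,0),(11,1),(0,3)]⟩),.k,.k,[⟨0,[(17,0)]⟩,⟨0,[(16,0)]⟩,⟨1,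
  [(14,0),(2,1),(15,0),(2,1)]⟩,⟨0,[(0,0),(5,1),(0,0),(4,0),(3,0)]⟩]⟩)))))) (.Q [0,0,0,0,0,0,-1,0,0,
  1,1] (.p true [1,-1,1] [] (⟨0,[(21,0),(1,0)]⟩,⟨0,[(0,0)]⟩) .k 0 (⟨0,[]⟩,⟨0,[]⟩) .k .k) (.K ⟨0,[1,
  -1,1],0,0,(⟨0,[(22,0),(1,0)]⟩,⟨0,[(1,0)]⟩),.k,(.r (-1) ⟨0,[(0,0),(1,1),(0,0),(24,0),(0,0)]⟩ ⟨0,
  [(5,1),(9,1),(4,0)]⟩),.k,.k,.k,[⟨0,[(0,0)]⟩,⟨0,[(2,0),(2,0)]⟩,⟨1,[(0,0),(4,0),(2,0),(8,0),(2,0)]⟩,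
  ⟨0,[(2,0),(13,0)]⟩]⟩) (.I [1,-1,1,0,0,0,0,0,1] (.Q [0,0,-1,1,1,0,-1,-1,-1,0,1,1] (.p true [1,-1,
  1] [1,0,0,-1] (⟨0,[(23,0),(1,0)]⟩,⟨0,[(2,0)]⟩) .k 2 (⟨0,[(13,0)]⟩,⟨0,[(14,0)]⟩) .k (.x 0 ⟨0,[(19,
  0),(3,0)]⟩ ⟨0,[(16,0),(5,0),(7,0)]⟩)) (.I [1,-1,-1,0,1,0,0,0,-1] (.Q [0,0,0,0,0,1,0,0,0,-1,0,1]
  (.ed false [0,1,0,1] .k) (.I [1,0,2,1,-1,0,0,-1,1] (.R ⟨0,false,false,true,[1,0,0,-1],[1,0,-1],[0,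
  1,0,0,0,0,0,0,-1],(⟨0,[(17,0)]⟩,⟨0,[(18,0)]⟩),(⟨0,[(26,0)]⟩,⟨0,[(27,0)]⟩),⟨0,[(1,0)]⟩,.k,.k,(.x
  (-1) ⟨3,[(15,0),(0,0),(11,1),(0,3)]⟩ ⟨0,[(30,0)]⟩),.k,.k,.k,⟨false,1,⟨0,[(2,0),(4,0),(0,0),(4,0),
  (19,0)]⟩,⟨0,[(0,0),(32,0),(0,0)]⟩⟩,⟨true,0,⟨0,[(17,0),(2,0)]⟩,⟨2,[(5,0),(8,0),(3,2)]⟩⟩,⟨true,0,⟨0,
  [(37,0)]⟩,⟨0,[]⟩⟩,⟨false,0,⟨0,[(4,0),(12,0),(1,0)]⟩,⟨0,[(2,0),(4,0),(0,0),(9,0)]⟩⟩,⟨false,0,⟨0,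
  []⟩,⟨0,[]⟩⟩,⟨false,0,⟨0,[]⟩,⟨0,[]⟩⟩,[.o ⟨false,0,⟨0,[(19,0)]⟩,⟨0,[(21,0),(13,0)]⟩⟩,.o ⟨false,1,⟨1,
  [(22,1),(5,0),(6,0)]⟩,⟨0,[(7,0),(0,0)]⟩⟩,.o ⟨false,1,⟨1,[(18,1),(9,0),(5,0)]⟩,⟨2,[(5,0),(11,2),(2,
  1),(2,0)]⟩⟩,.a ⟨true,0,⟨0,[(18,0)]⟩,⟨0,[(17,0)]⟩⟩ ⟨false,1,⟨1,[(15,0),(18,0)]⟩,⟨0,[(4,0)]⟩⟩ ⟨true,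
  0,⟨0,[(17,0),(1,0)]⟩,⟨0,[(7,0),(0,0),(9,0)]⟩⟩]⟩) (.R ⟨0,false,false,true,[1,0,0,-1],[0,1],[0,1,0,
  0,0,0,0,0,-1],(⟨0,[(17,0)]⟩,⟨0,[(18,0)]⟩),(⟨0,[(30,0)]⟩,⟨0,[(29,0)]⟩),⟨0,[(1,0)]⟩,.k,.k,(.x (-1)
  ⟨3,[(15,0),(0,0),(11,1),(0,3)]⟩ ⟨0,[(30,0)]⟩),(.x (-1) ⟨3,[(15,0),(0,0),(11,1),(0,3)]⟩ ⟨0,[(30,
  0)]⟩),.k,.k,⟨false,1,⟨0,[(0,0),(24,0)]⟩,⟨0,[(4,0),(27,0)]⟩⟩,⟨true,0,⟨0,[(17,0)]⟩,⟨2,[(5,0),(12,2),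
  (1,1),(2,0)]⟩⟩,⟨true,0,⟨0,[(37,0)]⟩,⟨0,[]⟩⟩,⟨false,0,⟨0,[(4,0),(12,0),(14,0)]⟩,⟨0,[(2,0),(4,0),
  (10,0)]⟩⟩,⟨false,0,⟨0,[]⟩,⟨0,[]⟩⟩,⟨false,0,⟨0,[]⟩,⟨0,[]⟩⟩,[.o ⟨false,0,⟨0,[(32,0)]⟩,⟨3,[(7,3),(7,
  0),(0,0),(18,1)]⟩⟩,.o ⟨false,1,⟨3,[(15,0),(0,0),(15,3),(2,1)]⟩,⟨0,[(7,0)]⟩⟩,.o ⟨false,1,⟨1,[(18,
  1),(9,0),(5,0)]⟩,⟨2,[(5,0),(11,2),(2,1),(2,0)]⟩⟩,.a ⟨true,0,⟨0,[(18,0)]⟩,⟨0,[(17,0)]⟩⟩ ⟨false,1,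
  ⟨1,[(15,0),(18,0)]⟩,⟨0,[(4,0)]⟩⟩ ⟨true,0,⟨0,[(17,0),(14,0)]⟩,⟨0,[(7,0),(10,0)]⟩⟩]⟩)) (.I [0,-1,1,
  1,0,0,0,1,1] (.I [0,0,0,-1,0,0,0,0,-1] (.R ⟨1,false,false,true,[1,0,0,-1],[0,1],[0,1,0,-1,0,0,0,0,
  -1],(⟨0,[(18,0)]⟩,⟨0,[(19,0)]⟩),(⟨0,[(31,0)]⟩,⟨0,[(30,0)]⟩),⟨0,[(2,0)]⟩,.k,.k,(.x (-1) ⟨3,[(16,0),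
  (0,0),(11,1),(0,3)]⟩ ⟨0,[(31,0)]⟩),(.x (-1) ⟨3,[(16,0),(0,0),(11,1),(0,3)]⟩ ⟨0,[(31,0)]⟩),(.r
  (-1) ⟨0,[(0,0),(33,0),(0,0)]⟩ ⟨1,[(1,1),(9,0),(9,0),(1,0),(0,0),(1,0),(6,0)]⟩),.k,⟨false,1,⟨0,[(0,
  0),(33,0),(0,0)]⟩,⟨0,[(1,0),(24,0),(6,0)]⟩⟩,⟨true,0,⟨0,[(18,0)]⟩,⟨2,[(6,0),(12,2),(1,1),(2,0)]⟩⟩,
  ⟨false,0,⟨0,[(34,0)]⟩,⟨0,[(33,0),(2,0)]⟩⟩,⟨false,0,⟨0,[(5,0),(12,0),(14,0)]⟩,⟨0,[(3,0),(4,0),(10,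
  0)]⟩⟩,⟨true,0,⟨0,[(38,0)]⟩,⟨0,[]⟩⟩,⟨false,0,⟨0,[(1,0),(16,0),(7,0),(6,0)]⟩,⟨0,[(3,0),(4,0),(10,0),
  (14,0)]⟩⟩,[.o ⟨false,0,⟨0,[(33,0)]⟩,⟨3,[(8,3),(7,0),(0,0),(18,1)]⟩⟩,.o ⟨false,1,⟨3,[(16,0),(0,0),
  (15,3),(2,1)]⟩,⟨0,[(8,0)]⟩⟩,.o ⟨false,1,⟨1,[(19,1),(9,0),(5,0)]⟩,⟨2,[(6,0),(11,2),(2,1),(2,0)]⟩⟩,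
  .a ⟨true,0,⟨0,[(19,0)]⟩,⟨0,[(18,0)]⟩⟩ ⟨false,1,⟨1,[(16,0),(17,1),(0,0)]⟩,⟨0,[(1,0),(24,0)]⟩⟩
  ⟨true,0,⟨0,[(18,0),(14,0)]⟩,⟨0,[(8,0),(10,0)]⟩⟩]⟩) (.R ⟨1,false,false,true,[1,0,0,-1],[1,0,-1],[0,
  1,0,-1,0,0,0,0,-1],(⟨0,[(18,0)]⟩,⟨0,[(19,0)]⟩),(⟨0,[(27,0)]⟩,⟨0,[(28,0)]⟩),⟨0,[(2,0)]⟩,.k,.k,(.x
  (-1) ⟨3,[(16,0),(0,0),(11,1),(0,3)]⟩ ⟨0,[(31,0)]⟩),.k,(.r (-1) ⟨0,[(3,0),(4,0),(0,0),(4,0),(19,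
  1)]⟩ ⟨1,[(0,0),(0,0),(21,0),(0,0),(1,1)]⟩),.k,⟨false,1,⟨0,[(3,0),(4,0),(0,0),(4,0),(19,1)]⟩,⟨0,
  [(0,0),(25,0)]⟩⟩,⟨true,0,⟨0,[(18,0),(2,0)]⟩,⟨2,[(6,0),(8,0),(3,2)]⟩⟩,⟨false,0,⟨0,[(34,0)]⟩,⟨0,
  [(33,0),(2,0)]⟩⟩,⟨false,0,⟨0,[(5,0),(12,0),(1,0)]⟩,⟨0,[(3,0),(4,0),(0,0),(9,0)]⟩⟩,⟨true,0,⟨0,[(38,
  0)]⟩,⟨0,[]⟩⟩,⟨false,0,⟨0,[(0,0),(17,0),(2,0),(4,0)]⟩,⟨0,[(3,0),(4,0),(0,0),(9,0),(14,0)]⟩⟩,[.o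
  ⟨false,0,⟨0,[(20,0)]⟩,⟨0,[(22,0),(13,0)]⟩⟩,.o ⟨false,1,⟨1,[(23,1),(5,0),(6,0)]⟩,⟨0,[(8,0),(0,
  0)]⟩⟩,.o ⟨false,1,⟨1,[(19,1),(9,0),(5,0)]⟩,⟨2,[(6,0),(11,2),(2,1),(2,0)]⟩⟩,.a ⟨true,0,⟨0,[(19,
  0)]⟩,⟨0,[(18,0)]⟩⟩ ⟨false,1,⟨1,[(16,0),(17,1),(0,0)]⟩,⟨0,[(1,0),(24,0)]⟩⟩ ⟨true,0,⟨0,[(18,0),(1,
  0)]⟩,⟨0,[(8,0),(0,0),(9,0)]⟩⟩]⟩)) (.Q [0,0,2,0,-1,0,0,0,0,1,0,-1] (.p false [0,0,0,1] [1] (⟨0,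
  [(18,0)]⟩,⟨0,[(17,0)]⟩) .k 1 (⟨0,[]⟩,⟨0,[]⟩) .k .k) (.R ⟨0,false,false,false,[0,0,0,1],[1,-1],[1,
  0,0,-1,0,0,0,0,1],(⟨0,[(19,0)]⟩,⟨0,[(18,0)]⟩),(⟨0,[(30,0)]⟩,⟨0,[(31,0)]⟩),⟨0,[(2,0),(4,0),(5,0)]⟩,
  .k,.k,(.r (-1) ⟨1,[(17,0),(16,1),(0,0)]⟩ ⟨2,[(0,0),(0,0),(4,1),(2,0),(4,2),(1,0),(2,0),(12,1)]⟩),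
  (.x 0 ⟨0,[(31,0)]⟩ ⟨3,[(16,0),(0,0),(11,1),(0,3)]⟩),.k,.k,⟨true,0,⟨6,[(0,1),(4,2),(6,0),(4,1),(1,
  1),(2,0),(10,0)]⟩,⟨0,[(1,0),(6,0),(0,0),(4,0),(17,0)]⟩⟩,⟨false,1,⟨1,[(19,1),(9,0),(5,0)]⟩,⟨0,[(18,
  0)]⟩⟩,⟨true,0,⟨0,[(34,0)]⟩,⟨0,[(33,0)]⟩⟩,⟨false,1,⟨0,[(3,0),(4,0),(10,0)]⟩,⟨0,[(5,0),(12,0),(14,
  0)]⟩⟩,⟨false,0,⟨0,[]⟩,⟨0,[]⟩⟩,⟨false,0,⟨0,[]⟩,⟨0,[]⟩⟩,[.o ⟨false,0,⟨0,[(8,0)]⟩,⟨3,[(16,0),(0,0),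
  (15,3),(2,1)]⟩⟩,.o ⟨false,1,⟨3,[(8,3),(7,0),(0,0),(18,1)]⟩,⟨0,[(33,0)]⟩⟩,.o ⟨false,0,⟨1,[(0,0),
  (17,0),(10,0)]⟩,⟨1,[(19,1),(9,0),(5,0)]⟩⟩,.a ⟨true,(-1),⟨0,[(0,0)]⟩,⟨0,[(19,0),(15,0)]⟩⟩ ⟨false,1,
  ⟨0,[(5,0),(28,0),(0,0)]⟩,⟨2,[(0,0),(0,0),(4,1),(2,0),(4,2),(1,0),(2,0),(12,1)]⟩⟩ ⟨true,1,⟨0,[(8,
  0),(10,0),(15,0)]⟩,⟨0,[(0,0),(32,0)]⟩⟩]⟩) (.Q [0,-1,1,1,0,0,1,1,1,1,-1,-1] (.p false [0,0,1] [1,0,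
  0,-1] (⟨0,[(28,0)]⟩,⟨0,[(27,0)]⟩) .k 2 (⟨0,[(18,0)]⟩,⟨0,[(19,0)]⟩) .k (.r (-1) ⟨1,[(9,0),(0,0),(6,
  0),(7,0),(8,0),(0,0)]⟩ ⟨0,[(1,0),(30,0),(0,0)]⟩)) (.R ⟨1,false,false,false,[1,0,0,-1],[0,0,1],[1,
  0,0,0,0,0,0,0,-1],(⟨0,[(19,0)]⟩,⟨0,[(20,0)]⟩),(⟨0,[(29,0)]⟩,⟨0,[(28,0)]⟩),⟨0,[(3,0)]⟩,.k,.k,(.x
  (-1) ⟨3,[(17,0),(0,0),(11,1),(0,3)]⟩ ⟨0,[(32,0)]⟩),.k,(.r (-1) ⟨3,[(2,3),(14,0),(0,0),(18,1)]⟩ ⟨0,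
  [(0,0),(8,0),(5,0),(4,0)]⟩),.k,⟨true,0,⟨0,[(2,0),(30,0),(0,0)]⟩,⟨0,[(0,0),(8,0),(5,0),(4,0),(14,
  0)]⟩⟩,⟨false,0,⟨2,[(7,0),(8,0),(2,2)]⟩,⟨0,[(1,0),(24,0)]⟩⟩,⟨true,0,⟨0,[]⟩,⟨0,[(39,0)]⟩⟩,⟨false,0,
  ⟨0,[(0,0),(34,0)]⟩,⟨0,[(5,0),(3,0)]⟩⟩,⟨false,1,⟨3,[(0,1),(4,1),(24,0),(6,0)]⟩,⟨0,[(35,0)]⟩⟩,
  ⟨false,0,⟨0,[(0,0)]⟩,⟨0,[(5,0),(3,0),(25,0)]⟩⟩,[.o ⟨false,0,⟨0,[(9,0),(0,0)]⟩,⟨1,[(24,1),(5,0),(6,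
  0)]⟩⟩,.o ⟨false,1,⟨0,[(23,0),(13,0)]⟩,⟨0,[(21,0)]⟩⟩,.o ⟨false,1,⟨7,[(1,3),(15,0),(0,0),(1,3),(9,
  1)]⟩,⟨2,[(7,0),(11,2),(2,1),(2,0)]⟩⟩,.a ⟨true,0,⟨0,[(20,0)]⟩,⟨0,[(19,0)]⟩⟩ ⟨false,1,⟨0,[(4,0)]⟩,
  ⟨0,[(6,0),(32,0)]⟩⟩ ⟨true,0,⟨0,[(9,0),(0,0),(8,0)]⟩,⟨0,[(20,0),(0,0)]⟩⟩]⟩) (.K ⟨0,[0,0,0,1],0,0,
  (⟨0,[(20,0)]⟩,⟨0,[(19,0)]⟩),.k,(.r (-1) ⟨1,[(18,0),(16,1),(0,0)]⟩ ⟨0,[(2,0),(7,0),(11,0),(10,0),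
  (0,0)]⟩),(.x 0 ⟨0,[(32,0)]⟩ ⟨3,[(17,0),(0,0),(11,1),(0,3)]⟩),.k,.k,[⟨0,[(20,0)]⟩,⟨0,[(19,0)]⟩,⟨0,
  [(0,0),(9,0)]⟩,⟨1,[(6,1),(6,0),(5,1),(3,0),(10,0),(4,0)]⟩]⟩))))) (.Q [0,0,0,0,0,1,0,0,0,-1,0,1]
  (.ed false [0,1,0,1] .k) (.R ⟨0,false,false,true,[1,0,0,-1],[0,0,1],[1,0,1],(⟨0,[(16,0)]⟩,⟨0,[(17,
  0)]⟩),(⟨0,[(26,0)]⟩,⟨0,[(25,0)]⟩),⟨0,[(0,0)]⟩,.k,.k,(.x (-1) ⟨3,[(14,0),(0,0),(11,1),(0,3)]⟩ ⟨0,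
  [(29,0)]⟩),.k,.k,.k,⟨true,0,⟨2,[(21,0),(0,0),(1,1),(5,1)]⟩,⟨0,[(6,0),(0,0),(4,0),(19,0)]⟩⟩,⟨false,
  0,⟨2,[(4,0),(8,0),(2,2)]⟩,⟨0,[(17,0),(1,0),(13,0)]⟩⟩,⟨false,0,⟨0,[(3,0)]⟩,⟨1,[(14,0),(18,0)]⟩⟩,
  ⟨true,(-1),⟨0,[(1,0),(4,0),(0,0),(8,0)]⟩,⟨0,[(2,0),(3,0)]⟩⟩,⟨false,0,⟨0,[]⟩,⟨0,[]⟩⟩,⟨false,0,⟨0,
  []⟩,⟨0,[]⟩⟩,[.o ⟨false,0,⟨0,[(20,0)]⟩,⟨0,[(18,0),(15,0)]⟩⟩,.o ⟨false,0,⟨0,[(6,0),(0,0)]⟩,⟨1,[(21,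
  1),(5,0),(6,0)]⟩⟩,.o ⟨false,1,⟨1,[(17,1),(9,0),(5,0)]⟩,⟨2,[(4,0),(11,2),(2,1),(2,0)]⟩⟩,.a ⟨true,0,
  ⟨0,[(17,0)]⟩,⟨0,[(16,0)]⟩⟩ ⟨true,0,⟨0,[]⟩,⟨0,[(36,0)]⟩⟩ ⟨false,0,⟨0,[(6,0),(0,0),(8,0)]⟩,⟨3,[(2,
  1),(7,1),(4,0),(1,1),(12,1),(3,0)]⟩⟩]⟩) (.Q [0,-1,-1,1,1,0,1,1,-1,1,-1,1] (.p false [-1,1,1] [0,0,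
  0,1] (⟨0,[(11,0)]⟩,⟨0,[(25,0),(2,0)]⟩) .k 2 (⟨0,[(17,0)]⟩,⟨0,[(16,0)]⟩) .k (.r (-1) ⟨1,[(7,0),(0,
  0),(5,0),(8,0),(8,0),(0,0)]⟩ ⟨1,[(1,0),(1,0),(20,1),(8,0)]⟩)) (.R ⟨1,false,false,false,[1,0,0,-1],
  [1,0,-1],[1,0,0,0,0,0,0,0,-1],(⟨0,[(17,0)]⟩,⟨0,[(18,0)]⟩),(⟨0,[(26,0)]⟩,⟨0,[(27,0)]⟩),⟨0,[(1,0)]⟩,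
  .k,.k,(.x (-1) ⟨3,[(15,0),(0,0),(11,1),(0,3)]⟩ ⟨0,[(30,0)]⟩),.k,(.r (-1) ⟨0,[(0,0),(6,1),(5,0),(3,
  0),(15,0)]⟩ ⟨0,[(4,0),(20,0),(6,0)]⟩),.k,⟨false,1,⟨0,[(0,0),(6,1),(5,0),(3,0)]⟩,⟨1,[(2,0),(1,0),
  (20,1),(8,0)]⟩⟩,⟨true,0,⟨0,[(17,0),(2,0)]⟩,⟨2,[(5,0),(8,0),(3,2)]⟩⟩,⟨true,0,⟨0,[]⟩,⟨0,[(37,0)]⟩⟩,
  ⟨false,0,⟨1,[(2,0),(1,0),(12,1),(1,1),(11,1),(2,0)]⟩,⟨3,[(0,1),(6,1),(7,0),(2,1),(2,1),(12,0)]⟩⟩,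
  ⟨false,1,⟨0,[(32,0),(2,0)]⟩,⟨0,[(33,0)]⟩⟩,⟨false,0,⟨3,[(2,2),(1,0),(0,1),(7,3),(3,3),(1,1),(5,1),
  (5,5),(2,2)]⟩,⟨3,[(0,1),(6,1),(7,0),(2,1),(2,1),(11,3),(0,0)]⟩⟩,[.o ⟨false,1,⟨1,[(22,1),(5,0),(6,
  0)]⟩,⟨0,[(7,0),(0,0)]⟩⟩,.o ⟨false,1,⟨0,[(19,0),(15,0)]⟩,⟨0,[(21,0)]⟩⟩,.o ⟨false,1,⟨1,[(18,1),(9,
  0),(5,0)]⟩,⟨2,[(5,0),(11,2),(2,1),(2,0)]⟩⟩,.a ⟨true,0,⟨0,[(18,0)]⟩,⟨0,[(17,0)]⟩⟩ ⟨true,1,⟨1,[(15,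
  0),(18,0)]⟩,⟨0,[(2,0)]⟩⟩ ⟨false,1,⟨0,[(17,0),(1,0),(15,0)]⟩,⟨0,[(0,0),(1,0),(4,0)]⟩⟩]⟩) (.I [1,0,
  -1,0,1,0,0,1,-1] (.K ⟨0,[0,0,0,1],0,(-1),(⟨0,[(19,0)]⟩,⟨0,[(18,0)]⟩),.k,(.x 0 ⟨0,[(21,0),(2,0),(5,
  0)]⟩ ⟨0,[(31,0),(3,0)]⟩),(.x 0 ⟨0,[(31,0)]⟩ ⟨3,[(16,0),(0,0),(11,1),(0,3)]⟩),.k,.k,[⟨0,[(19,0)]⟩,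
  ⟨0,[(18,0)]⟩,⟨1,[(16,0),(2,1),(15,0),(2,1)]⟩,⟨0,[(1,0),(7,0)]⟩]⟩) (.K ⟨0,[0,0,0,1],0,(-1),(⟨0,
  [(19,0)]⟩,⟨0,[(18,0)]⟩),.k,(.x 0 ⟨0,[(21,0),(2,0),(5,0)]⟩ ⟨0,[(31,0),(3,0)]⟩),(.x 0 ⟨0,[(31,0)]⟩
  ⟨3,[(16,0),(0,0),(11,1),(0,3)]⟩),.k,.k,[⟨0,[(19,0)]⟩,⟨0,[(18,0)]⟩,⟨1,[(16,0),(2,1),(15,0),(2,1)]⟩,
  ⟨0,[(1,0),(7,0)]⟩]⟩))))) (.K ⟨0,[0,0,0,1],0,(-1),(⟨0,[(15,0)]⟩,⟨0,[(14,0)]⟩),.k,(.x 0 ⟨0,[(17,0),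
  (2,0),(5,0)]⟩ ⟨0,[(27,0),(3,0)]⟩),(.x 0 ⟨0,[(27,0)]⟩ ⟨3,[(12,0),(0,0),(11,1),(0,3)]⟩),.k,.k,[⟨0,
  [(15,0)]⟩,⟨0,[(14,0)]⟩,⟨1,[(12,0),(2,1),(15,0),(2,1)]⟩,⟨0,[(0,0),(9,0),(11,0)]⟩]⟩)) (.Q [0,1,1,0,
  0,0,0,0,1,0,0,-1] (.p false [0,0,0,1] [] (⟨0,[(14,0)]⟩,⟨0,[(13,0)]⟩) .k 0 (⟨0,[]⟩,⟨0,[]⟩) .k .k)
  (.K ⟨0,[0,0,0,1],0,0,(⟨0,[(15,0)]⟩,⟨0,[(14,0)]⟩),.k,(.r (-1) ⟨1,[(13,0),(16,1),(0,0)]⟩ ⟨3,[(1,3),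
  (5,3),(9,3),(2,0),(0,0),(6,1)]⟩),(.x 0 ⟨0,[(27,0)]⟩ ⟨3,[(12,0),(0,0),(11,1),(0,3)]⟩),.k,.k,[⟨0,
  [(15,0)]⟩,⟨0,[(14,0)]⟩,⟨0,[(1,0),(13,0)]⟩,⟨0,[(0,0)]⟩]⟩) (.Q [0,0,0,0,0,1,0,0,0,-1,0,1] (.ed
  false [0,1,0,1] .k) (.R ⟨0,false,false,true,[1,0,0,-1],[1,0,-1],[0,1,0,0,0,0,0,0,-1],(⟨0,[(15,
  0)]⟩,⟨0,[(16,0)]⟩),(⟨0,[(24,0)]⟩,⟨0,[(25,0)]⟩),⟨0,[(0,0)]⟩,.k,.k,(.x (-1) ⟨3,[(13,0),(0,0),(11,1),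
  (0,3)]⟩ ⟨0,[(28,0)]⟩),.k,.k,.k,⟨false,0,⟨0,[(1,0),(3,1),(0,0),(4,0),(3,0)]⟩,⟨3,[(13,0),(0,2),(8,
  3)]⟩⟩,⟨true,0,⟨0,[(15,0),(2,0)]⟩,⟨2,[(3,0),(8,0),(3,2)]⟩⟩,⟨true,0,⟨0,[(35,0)]⟩,⟨0,[]⟩⟩,⟨false,1,
  ⟨5,[(14,2),(0,5),(2,3),(1,3),(0,1),(1,1),(2,0),(6,1)]⟩,⟨0,[(1,0),(3,0),(0,0)]⟩⟩,⟨false,0,⟨0,[]⟩,
  ⟨0,[]⟩⟩,⟨false,0,⟨0,[]⟩,⟨0,[]⟩⟩,[.o ⟨false,0,⟨0,[(17,0)]⟩,⟨0,[(19,0),(13,0)]⟩⟩,.o ⟨false,1,⟨1,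
  [(20,1),(5,0),(6,0)]⟩,⟨0,[(5,0),(0,0)]⟩⟩,.o ⟨false,1,⟨1,[(16,1),(9,0),(5,0)]⟩,⟨2,[(3,0),(11,2),(2,
  1),(2,0)]⟩⟩,.a ⟨true,0,⟨0,[(16,0)]⟩,⟨0,[(15,0)]⟩⟩ ⟨false,0,⟨2,[(1,1),(0,0),(0,0),(1,0),(5,0),(3,
  1)]⟩,⟨1,[(14,0),(6,0),(0,0),(10,0)]⟩⟩ ⟨true,0,⟨0,[(15,0),(1,0)]⟩,⟨0,[(5,0),(0,0),(9,0)]⟩⟩]⟩) (.R
  ⟨1,false,false,true,[1,0,0,-1],[1,0,-1],[0,1,0,-1,0,0,0,0,-1],(⟨0,[(15,0)]⟩,⟨0,[(16,0)]⟩),(⟨0,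
  [(24,0)]⟩,⟨0,[(25,0)]⟩),⟨0,[(0,0)]⟩,.k,.k,(.x (-1) ⟨3,[(13,0),(0,0),(11,1),(0,3)]⟩ ⟨0,[(28,0)]⟩),
  .k,(.r 0 ⟨0,[(1,0),(3,1),(0,0),(4,0),(3,0),(15,0)]⟩ ⟨1,[(8,0),(5,0),(3,0),(1,0),(0,0),(1,0),(6,0),
  (2,0)]⟩),.k,⟨false,0,⟨0,[(1,0),(3,1),(0,0),(4,0),(3,0),(15,0)]⟩,⟨1,[(14,0),(8,1),(6,1),(2,0)]⟩⟩,
  ⟨true,0,⟨0,[(15,0),(2,0)]⟩,⟨2,[(3,0),(8,0),(3,2)]⟩⟩,⟨false,0,⟨0,[(31,0)]⟩,⟨0,[(30,0),(2,0)]⟩⟩,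
  ⟨false,1,⟨5,[(14,2),(0,5),(2,3),(1,3),(0,1),(1,1),(2,0),(6,1)]⟩,⟨0,[(1,0),(3,0),(0,0)]⟩⟩,⟨true,0,
  ⟨0,[(35,0)]⟩,⟨0,[]⟩⟩,⟨false,1,⟨1,[(14,0),(0,1),(2,1),(4,1),(6,1),(2,0)]⟩,⟨0,[(1,0),(3,0),(0,0),
  (24,0)]⟩⟩,[.o ⟨false,0,⟨0,[(17,0)]⟩,⟨0,[(19,0),(13,0)]⟩⟩,.o ⟨false,1,⟨1,[(20,1),(5,0),(6,0)]⟩,⟨0,
  [(5,0),(0,0)]⟩⟩,.o ⟨false,1,⟨1,[(16,1),(9,0),(5,0)]⟩,⟨2,[(3,0),(11,2),(2,1),(2,0)]⟩⟩,.a ⟨true,0,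
  ⟨0,[(16,0)]⟩,⟨0,[(15,0)]⟩⟩ ⟨false,0,⟨1,[(1,0),(0,0),(2,0),(9,0),(15,0)]⟩,⟨1,[(8,1),(5,0),(3,1),
  (14,0)]⟩⟩ ⟨true,0,⟨0,[(15,0),(1,0)]⟩,⟨0,[(5,0),(0,0),(9,0)]⟩⟩]⟩)))))))

theorem ok3 : chk (cU (-1) true 10) t3 r4 = true := by decide +kernel

noncomputable def t7 : Tre :=
  (.Q [0,1,1,0,0,0,0,0,1,0,0,-1] (.p false [0,0,0,1] [] (⟨0,[(11,0)]⟩,⟨0,[(10,0)]⟩) .k 0 (⟨0,[]⟩,⟨0,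
  []⟩) .k .k) (.K ⟨0,[0,0,0,1],0,0,(⟨0,[(12,0)]⟩,⟨0,[(11,0)]⟩),.k,(.r (-1) ⟨1,[(10,0),(16,1),(0,
  0)]⟩ ⟨2,[(1,0),(7,0),(15,1),(0,2)]⟩),(.x 0 ⟨0,[(24,0)]⟩ ⟨3,[(9,0),(0,0),(11,1),(0,3)]⟩),.k,.k,[⟨0,
  [(12,0)]⟩,⟨0,[(11,0)]⟩,⟨0,[(1,0),(10,0),(15,0)]⟩,⟨0,[(0,0)]⟩]⟩) (.R ⟨2,false,false,true,[0,1],[0,
  0,0,1],[],(⟨0,[]⟩,⟨0,[]⟩),(⟨0,[(12,0)]⟩,⟨0,[(11,0)]⟩),⟨0,[]⟩,.k,.k,.k,(.r 0 ⟨2,[(1,0),(7,0),(15,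
  1),(0,2)]⟩ ⟨1,[(10,0),(16,1),(0,0)]⟩),.k,.k,⟨true,0,⟨2,[(0,1),(0,0),(9,1),(10,0),(2,0)]⟩,⟨0,[(1,
  0),(8,0)]⟩⟩,⟨false,0,⟨4,[(5,1),(5,4),(2,0),(0,1),(1,0),(7,2),(0,1)]⟩,⟨0,[(12,0),(15,0)]⟩⟩,⟨false,
  1,⟨1,[(27,1),(0,0),(0,0)]⟩,⟨3,[(17,0),(0,0),(6,1),(0,3)]⟩⟩,⟨true,0,⟨0,[(1,0),(1,0),(6,0),(0,0)]⟩,
  ⟨0,[(0,0),(25,0)]⟩⟩,⟨false,1,⟨1,[(28,0),(0,0)]⟩,⟨1,[(17,0),(0,0)]⟩⟩,⟨false,1,⟨7,[(9,0),(0,4),(0,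
  7),(2,3),(2,3),(4,1)]⟩,⟨0,[(0,0)]⟩⟩,[.a ⟨true,0,⟨0,[(1,0),(8,0),(0,0)]⟩,⟨0,[(0,0)]⟩⟩ ⟨false,1,⟨3,
  [(9,0),(0,0),(17,1)]⟩,⟨0,[]⟩⟩ ⟨true,0,⟨4,[(1,4),(3,1),(4,4),(0,4),(2,0),(0,1),(1,0),(7,2),(0,1)]⟩,
  ⟨0,[(0,0)]⟩⟩,.o ⟨false,1,⟨7,[(9,0),(0,4),(0,7),(2,3),(2,3),(4,1)]⟩,⟨0,[(0,0),(2,0),(22,0)]⟩⟩,.o
  ⟨false,1,⟨3,[(9,0),(0,0),(17,1)]⟩,⟨4,[(5,1),(8,0),(0,1),(1,0),(7,2),(0,1)]⟩⟩,.e ⟨false,1,⟨1,[(28,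
  0),(0,0)]⟩,⟨1,[(17,0),(0,0)]⟩⟩ ⟨false,1,⟨7,[(9,0),(0,4),(0,7),(2,3),(2,3),(4,1)]⟩,⟨0,[(0,0)]⟩⟩]⟩))

theorem ok7 : chk (cU (-1) true 10) t7 l7 = true := by decide +kernel

noncomputable def t44 : Tre :=
  (.K ⟨2,[0,1,1],0,0,(⟨0,[(28,0),(2,0)]⟩,⟨0,[(13,0)]⟩),.k,.k,(.r 0 ⟨9,[(4,5),(5,7),(13,8),(0,2)]⟩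
  ⟨1,[(6,1),(8,0),(4,0),(2,0)]⟩),.k,(.r 0 ⟨0,[(0,0)]⟩ ⟨15,[(6,7),(8,3),(0,2),(0,2),(5,7),(2,23),(2,
  1)]⟩),[⟨1,[(24,0),(0,0)]⟩,⟨0,[(11,0)]⟩,⟨1,[(24,0),(0,2)]⟩,⟨0,[(11,0),(9,0)]⟩,⟨0,[(23,0),(10,0)]⟩,
  ⟨1,[(2,0),(7,0),(0,0),(10,0)]⟩]⟩)

theorem ok44 : chk (cU (-1) true 10) t44 l31 = true := by decide +kernel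

noncomputable def t78 : Tre :=
  (.Q [0,0,-2,0,1,0,-1,0,0,0,1] (.p true [0,0,1] [] (⟨0,[(33,0)]⟩,⟨0,[(32,0)]⟩) .k 0 (⟨0,[]⟩,⟨0,
  []⟩) .k .k) (.K ⟨0,[1,1,-1],1,0,(⟨1,[(1,0),(0,0),(30,0)]⟩,⟨0,[(10,0)]⟩),.k,.k,(.x (-1) ⟨0,[(2,
  0)]⟩ ⟨23,[(4,19),(5,31),(1,7),(4,7),(4,4),(0,4),(11,9)]⟩),.k,.k,[⟨0,[(1,0)]⟩,⟨0,[(0,0)]⟩,⟨2,[(1,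
  0),(0,0),(25,2),(5,0),(1,1),(3,2)]⟩,⟨2,[(3,0),(9,0),(12,1)]⟩]⟩) (.Q [0,0,0,0,0,0,1,1,0,1,-1] (.p
  false [0,0,1] [1] (⟨0,[(34,0)]⟩,⟨0,[(33,0)]⟩) .k 1 (⟨0,[]⟩,⟨0,[]⟩) .k .k) (.R ⟨0,false,false,
  false,[0,-1,1],[1,0,-1],[],(⟨0,[(11,0)]⟩,⟨1,[(2,0),(0,0),(30,0)]⟩),(⟨0,[(34,0)]⟩,⟨0,[(35,0)]⟩),⟨0,
  [(1,0),(1,0)]⟩,.k,.k,(.x 0 ⟨23,[(5,19),(5,31),(1,7),(4,7),(4,4),(0,4),(11,9)]⟩ ⟨0,[(3,0)]⟩),(.r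
  (-1) ⟨0,[(0,0),(9,0),(3,0),(3,0)]⟩ ⟨3,[(4,1),(0,1),(17,0),(0,0),(8,3)]⟩),.k,.k,⟨false,1,⟨9,[(0,3),
  (5,1),(3,1),(7,3),(4,0),(0,0),(4,3),(12,5)]⟩,⟨0,[(33,0)]⟩⟩,⟨true,1,⟨0,[(18,0),(23,0)]⟩,⟨0,[(5,
  0)]⟩⟩,⟨false,0,⟨1,[(4,0),(0,0),(37,0)]⟩,⟨7,[(0,3),(9,3),(7,3),(4,0),(0,0),(4,3),(12,1)]⟩⟩,⟨true,0,
  ⟨0,[(7,0)]⟩,⟨0,[(0,0),(28,0),(11,0)]⟩⟩,⟨false,0,⟨0,[]⟩,⟨0,[]⟩⟩,⟨false,0,⟨0,[]⟩,⟨0,[]⟩⟩,[.a ⟨true,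
  0,⟨5,[(2,0),(0,0),(4,2),(26,0),(1,1)]⟩,⟨0,[(0,0)]⟩⟩ ⟨false,1,⟨3,[(23,0),(0,0),(17,1)]⟩,⟨0,[]⟩⟩
  ⟨true,1,⟨7,[(8,3),(9,3),(4,0),(0,0),(17,5)]⟩,⟨0,[(0,0),(0,0)]⟩⟩,.o ⟨false,1,⟨7,[(8,3),(14,0),(0,
  0),(11,1),(6,3)]⟩,⟨0,[(29,0)]⟩⟩,.o ⟨false,0,⟨0,[(31,0)]⟩,⟨3,[(18,1),(17,0),(5,2)]⟩⟩,.o ⟨false,
  (-1),⟨0,[(1,0)]⟩,⟨3,[(18,1),(4,0),(0,0),(11,0),(5,4)]⟩⟩]⟩) (.Q [0,0,0,-2,0,0,0,0,0,-1] (.pp true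
  [-1,1]) (.Q [0,0,0,-1,0,0,1,1,0,1,-1] (.p false [0,0,1] [1] (⟨0,[(36,0)]⟩,⟨0,[(35,0)]⟩) .k 1 (⟨0,
  []⟩,⟨0,[]⟩) .k .k) (.R ⟨2,false,false,false,[0,1],[1,1,-1],[],(⟨0,[]⟩,⟨0,[]⟩),(⟨1,[(4,0),(0,0),
  (30,0)]⟩,⟨0,[(13,0)]⟩),⟨0,[]⟩,.k,.k,.k,.k,.k,.k,⟨true,1,⟨43,[(0,19),(7,3),(3,15),(7,19),(4,4),(0,
  4),(4,19),(12,17)]⟩,⟨1,[(3,0),(0,0),(1,0)]⟩⟩,⟨false,1,⟨3,[(20,1),(17,0),(5,2)]⟩,⟨5,[(0,0),(3,0),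
  (7,0),(5,2),(5,0),(7,0)]⟩⟩,⟨false,1,⟨7,[(12,3),(12,0),(0,0),(18,1)]⟩,⟨47,[(6,5),(0,13),(0,11),(11,
  7),(4,6),(0,6),(15,11)]⟩⟩,⟨true,0,⟨0,[(2,0)]⟩,⟨0,[(0,0),(41,0)]⟩⟩,⟨false,1,⟨1,[(44,0),(0,0)]⟩,⟨5,
  [(7,1),(12,1),(4,0),(0,0)]⟩⟩,⟨false,1,⟨7,[(6,3),(18,0),(0,0),(11,1),(6,3)]⟩,⟨0,[(0,0)]⟩⟩,[.a
  ⟨true,0,⟨5,[(4,0),(0,0),(0,2),(30,0),(1,1)]⟩,⟨0,[(0,0)]⟩⟩ ⟨false,1,⟨3,[(25,0),(0,0),(17,1)]⟩,⟨0,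
  []⟩⟩ ⟨true,0,⟨23,[(6,11),(0,7),(12,7),(4,0),(0,0),(11,5)]⟩,⟨0,[(0,0)]⟩⟩,.o ⟨false,1,⟨7,[(6,3),(18,
  0),(0,0),(11,1),(6,3)]⟩,⟨2,[(0,0),(0,0),(29,1),(15,0)]⟩⟩,.o ⟨false,1,⟨3,[(25,0),(0,0),(17,1)]⟩,⟨2,
  [(3,0),(26,0),(7,0)]⟩⟩,.e ⟨false,1,⟨1,[(44,0),(0,0)]⟩,⟨5,[(7,1),(12,1),(4,0),(0,0)]⟩⟩ ⟨false,1,⟨7,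
  [(6,3),(18,0),(0,0),(11,1),(6,3)]⟩,⟨0,[(0,0)]⟩⟩]⟩) (.Q [0,0,0,-2,0,0,1,1,0,0,-1] (.p false [0,0,
  1] [] (⟨0,[(37,0)]⟩,⟨0,[(36,0)]⟩) .k 0 (⟨0,[]⟩,⟨0,[]⟩) .k .k) (.R ⟨1,true,false,false,[0,0,1],[0,
  1],[1,1,0,0,0,0,0,1],(⟨0,[(38,0)]⟩,⟨0,[(37,0)]⟩),(⟨0,[(41,0)]⟩,⟨0,[(40,0)]⟩),⟨0,[(14,0)]⟩,.k,.k,
  .k,.k,(.x 0 ⟨23,[(8,19),(5,31),(1,7),(4,7),(4,4),(0,4),(11,9)]⟩ ⟨0,[(6,0)]⟩),.k,⟨false,1,⟨0,[(13,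
  0),(10,0),(7,0)]⟩,⟨1,[(7,0),(0,0),(37,0)]⟩⟩,⟨true,1,⟨7,[(13,3),(10,7),(1,0),(0,0),(18,1)]⟩,⟨0,[(4,
  0)]⟩⟩,⟨false,0,⟨0,[]⟩,⟨3,[(26,0),(0,0),(18,1)]⟩⟩,⟨true,0,⟨5,[(5,0),(0,0),(0,2),(30,0),(1,1)]⟩,⟨1,
  [(0,0),(31,0),(15,0)]⟩⟩,⟨true,0,⟨0,[(43,0)]⟩,⟨0,[(44,0)]⟩⟩,⟨false,1,⟨7,[(7,3),(11,3),(4,3),(1,0),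
  (0,0),(18,5)]⟩,⟨0,[(0,0)]⟩⟩,[]⟩) (.I [0,0,1,1,0,0,0,0,-1] (.Q [0,0,0,1,0,0,0,0,0,1] (.pp false
  [-1,1]) (.R ⟨2,false,false,false,[0,1],[1,-1],[],(⟨0,[]⟩,⟨0,[]⟩),(⟨0,[(42,0)]⟩,⟨0,[(43,0)]⟩),⟨0,
  []⟩,.k,.k,.k,(.r 0 ⟨18,[(1,13),(7,2),(0,6),(0,5),(11,3),(5,6),(15,5)]⟩ ⟨0,[(15,0),(34,0)]⟩),.k,.k,
  ⟨true,0,⟨37,[(1,13),(7,2),(0,6),(0,5),(11,3),(5,6),(15,5)]⟩,⟨0,[(46,0)]⟩⟩,⟨false,0,⟨2,[(6,0),(26,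
  0),(7,0)]⟩,⟨1,[(0,1),(14,0),(31,0),(2,0)]⟩⟩,⟨false,1,⟨7,[(15,3),(12,0),(0,0),(18,1)]⟩,⟨37,[(1,13),
  (7,2),(0,6),(0,5),(11,3),(5,6),(15,5)]⟩⟩,⟨true,0,⟨0,[(4,0)]⟩,⟨0,[(0,0),(44,0)]⟩⟩,⟨false,1,⟨1,[(47,
  0),(0,0)]⟩,⟨5,[(10,1),(12,1),(4,0),(0,0)]⟩⟩,⟨false,1,⟨7,[(4,3),(23,0),(0,0),(11,1),(6,3)]⟩,⟨0,[(0,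
  0)]⟩⟩,[.a ⟨true,0,⟨0,[(46,0)]⟩,⟨0,[(0,0)]⟩⟩ ⟨false,1,⟨3,[(28,0),(0,0),(17,1)]⟩,⟨0,[]⟩⟩ ⟨true,0,
  ⟨23,[(4,11),(5,7),(12,7),(4,0),(0,0),(11,5)]⟩,⟨0,[(0,0)]⟩⟩,.o ⟨false,1,⟨7,[(4,3),(23,0),(0,0),(11,
  1),(6,3)]⟩,⟨0,[(45,0)]⟩⟩,.o ⟨false,1,⟨3,[(28,0),(0,0),(17,1)]⟩,⟨2,[(6,0),(26,0),(7,0)]⟩⟩,.e
  ⟨false,1,⟨1,[(47,0),(0,0)]⟩,⟨5,[(10,1),(12,1),(4,0),(0,0)]⟩⟩ ⟨false,1,⟨7,[(4,3),(23,0),(0,0),(11,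
  1),(6,3)]⟩,⟨0,[(0,0)]⟩⟩]⟩) (.Q [0,-1,1,-1,0,0,0,0,1,0,0,-1] (.p false [0,0,0,1] [] (⟨0,[(31,0)]⟩,
  ⟨0,[(30,0)]⟩) .k 0 (⟨0,[]⟩,⟨0,[]⟩) .k .k) (.I [1,0,0,0,0,0,0,0,1] (.Q [0,0,0,0,0,-1,0,0,0,1,0,-1]
  (.ed true [0,1,0,1] .k) (.R ⟨1,false,false,false,[1,0,0,-1],[1,-1],[0,0,0,-1,0,0,0,0,-1],(⟨0,[(33,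
  0)]⟩,⟨0,[(34,0)]⟩),(⟨0,[(45,0)]⟩,⟨0,[(46,0)]⟩),⟨0,[(0,0)]⟩,.k,.k,(.x (-1) ⟨11,[(19,3),(1,3),(9,4),
  (0,4),(11,1)]⟩ ⟨0,[(46,0)]⟩),(.r 0 ⟨0,[(4,0)]⟩ ⟨1,[(18,0),(13,0),(20,0)]⟩),.k,.k,⟨true,0,⟨0,[(4,
  0),(44,0)]⟩,⟨0,[(1,0)]⟩⟩,⟨false,0,⟨2,[(9,0),(23,2),(2,0),(7,0)]⟩,⟨0,[(34,0),(15,0)]⟩⟩,⟨true,0,⟨0,
  [(49,0)]⟩,⟨0,[(48,0)]⟩⟩,⟨false,0,⟨0,[(2,0)]⟩,⟨0,[(4,0),(29,0),(15,0)]⟩⟩,⟨false,1,⟨3,[(31,0),(0,0),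
  (18,1)]⟩,⟨0,[]⟩⟩,⟨false,0,⟨4,[(1,0),(0,3),(3,0),(7,0),(8,0),(9,0)]⟩,⟨1,[(31,0),(2,1),(15,0)]⟩⟩,
  [.o ⟨false,0,⟨0,[(3,0)]⟩,⟨31,[(5,7),(8,3),(7,3),(0,3),(7,14),(0,14),(17,1)]⟩⟩,.o ⟨false,1,⟨7,[(7,
  3),(23,0),(0,0),(11,1),(6,3)]⟩,⟨0,[(48,0)]⟩⟩,.o ⟨false,1,⟨1,[(34,1),(9,0),(5,0)]⟩,⟨2,[(9,0),(23,
  2),(2,0),(7,0)]⟩⟩,.a ⟨true,0,⟨0,[(34,0)]⟩,⟨0,[(33,0)]⟩⟩ ⟨false,1,⟨0,[(4,0),(13,0)]⟩,⟨7,[(1,1),(7,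
  1),(2,0),(0,0),(0,1),(14,1),(2,2)]⟩⟩ ⟨true,0,⟨0,[(3,0),(29,0)]⟩,⟨0,[(34,0),(13,0)]⟩⟩]⟩) (.R ⟨0,
  false,false,false,[1,0,0,-1],[1,-1],[0,0,0,-1,0,0,0,0,-1],(⟨0,[(33,0)]⟩,⟨0,[(34,0)]⟩),(⟨0,[(45,
  0)]⟩,⟨0,[(46,0)]⟩),⟨0,[(0,0)]⟩,.k,.k,(.x (-1) ⟨11,[(19,3),(1,3),(9,4),(0,4),(11,1)]⟩ ⟨0,[(46,
  0)]⟩),(.r 0 ⟨0,[(4,0)]⟩ ⟨1,[(18,0),(13,0),(20,0)]⟩),.k,.k,⟨true,0,⟨0,[(4,0),(44,0)]⟩,⟨0,[(1,0)]⟩⟩,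
  ⟨false,0,⟨2,[(9,0),(23,2),(2,0),(7,0)]⟩,⟨0,[(34,0),(15,0)]⟩⟩,⟨true,0,⟨0,[(49,0)]⟩,⟨0,[(48,0)]⟩⟩,
  ⟨false,0,⟨0,[(2,0)]⟩,⟨0,[(4,0),(29,0),(15,0)]⟩⟩,⟨false,0,⟨0,[]⟩,⟨0,[]⟩⟩,⟨false,0,⟨0,[]⟩,⟨0,[]⟩⟩,
  [.o ⟨false,0,⟨0,[(3,0)]⟩,⟨31,[(5,7),(8,3),(7,3),(0,3),(7,14),(0,14),(17,1)]⟩⟩,.o ⟨false,1,⟨7,[(7,
  3),(23,0),(0,0),(11,1),(6,3)]⟩,⟨0,[(48,0)]⟩⟩,.o ⟨false,1,⟨1,[(34,1),(9,0),(5,0)]⟩,⟨2,[(9,0),(23,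
  2),(2,0),(7,0)]⟩⟩,.a ⟨true,0,⟨0,[(34,0)]⟩,⟨0,[(33,0)]⟩⟩ ⟨false,1,⟨0,[(4,0),(13,0)]⟩,⟨7,[(1,1),(7,
  1),(2,0),(0,0),(0,1),(14,1),(2,2)]⟩⟩ ⟨true,0,⟨0,[(3,0),(29,0)]⟩,⟨0,[(34,0),(13,0)]⟩⟩]⟩)) (.Q [0,0,
  0,0,0,-1,0,0,0,1,0,-1] (.ed true [0,1,0,1] .k) (.R ⟨1,false,false,true,[1,0,0,-1],[0,1],[0,0,0,-1,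
  0,0,0,0,-1],(⟨0,[(33,0)]⟩,⟨0,[(34,0)]⟩),(⟨0,[(46,0)]⟩,⟨0,[(45,0)]⟩),⟨0,[(0,0)]⟩,.k,.k,(.x (-1)
  ⟨11,[(19,3),(1,3),(9,4),(0,4),(11,1)]⟩ ⟨0,[(46,0)]⟩),(.x (-1) ⟨11,[(19,3),(1,3),(9,4),(0,4),(11,
  1)]⟩ ⟨0,[(46,0)]⟩),(.r (-1) ⟨0,[(1,0),(16,0),(34,0)]⟩ ⟨37,[(4,3),(7,8),(0,20),(0,17),(11,11),(5,
  20),(15,17)]⟩),.k,⟨false,1,⟨0,[(1,0),(16,0)]⟩,⟨1,[(5,0),(3,0),(12,0),(6,0),(2,0)]⟩⟩,⟨true,0,⟨0,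
  [(33,0)]⟩,⟨2,[(9,0),(24,2),(1,0),(7,0)]⟩⟩,⟨true,0,⟨0,[(49,0)]⟩,⟨0,[(48,0)]⟩⟩,⟨false,0,⟨0,[(2,0),
  (21,0),(4,0)]⟩,⟨20,[(1,20),(1,2),(2,1),(7,1),(3,12),(4,1),(10,20),(9,7),(2,2)]⟩⟩,⟨false,1,⟨3,[(31,
  0),(0,0),(18,1)]⟩,⟨0,[]⟩⟩,⟨false,0,⟨2,[(2,2),(2,2),(4,0),(0,0),(10,2),(20,0),(1,1)]⟩,⟨9,[(1,3),(1,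
  7),(14,5),(12,2),(2,9),(9,0),(2,1)]⟩⟩,[.o ⟨false,0,⟨0,[(48,0)]⟩,⟨7,[(7,3),(23,0),(0,0),(11,1),(6,
  3)]⟩⟩,.o ⟨false,1,⟨31,[(5,7),(8,3),(7,3),(0,3),(7,14),(0,14),(17,1)]⟩,⟨0,[(3,0)]⟩⟩,.o ⟨false,1,⟨1,
  [(34,1),(9,0),(5,0)]⟩,⟨2,[(9,0),(23,2),(2,0),(7,0)]⟩⟩,.a ⟨true,0,⟨0,[(34,0)]⟩,⟨0,[(33,0)]⟩⟩
  ⟨false,1,⟨3,[(1,1),(16,1),(12,0),(19,0)]⟩,⟨5,[(2,3),(2,2),(3,0),(12,2),(6,0),(2,0),(1,3)]⟩⟩ ⟨true,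
  0,⟨0,[(33,0),(14,0)]⟩,⟨0,[(3,0),(30,0)]⟩⟩]⟩) (.R ⟨0,false,false,true,[1,0,0,-1],[0,1],[1,0,0,-1,0,
  0,0,0,-1],(⟨0,[(33,0)]⟩,⟨0,[(34,0)]⟩),(⟨0,[(46,0)]⟩,⟨0,[(45,0)]⟩),⟨0,[(0,0)]⟩,.k,.k,(.x (-1) ⟨11,
  [(19,3),(1,3),(9,4),(0,4),(11,1)]⟩ ⟨0,[(46,0)]⟩),(.x (-1) ⟨11,[(19,3),(1,3),(9,4),(0,4),(11,1)]⟩
  ⟨0,[(46,0)]⟩),.k,.k,⟨false,1,⟨0,[(1,0),(16,0)]⟩,⟨1,[(5,0),(3,0),(12,0),(6,0),(2,0)]⟩⟩,⟨true,0,⟨0,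
  [(33,0)]⟩,⟨2,[(9,0),(24,2),(1,0),(7,0)]⟩⟩,⟨true,0,⟨0,[(49,0)]⟩,⟨0,[(48,0)]⟩⟩,⟨false,0,⟨0,[(2,0),
  (21,0),(4,0)]⟩,⟨35,[(0,8),(0,35),(4,1),(7,1),(3,21),(0,2),(1,2),(1,1),(10,26),(9,13),(2,5)]⟩⟩,
  ⟨false,0,⟨0,[]⟩,⟨0,[]⟩⟩,⟨false,0,⟨0,[]⟩,⟨0,[]⟩⟩,[.o ⟨false,0,⟨0,[(48,0)]⟩,⟨7,[(7,3),(23,0),(0,0),
  (11,1),(6,3)]⟩⟩,.o ⟨false,1,⟨31,[(5,7),(8,3),(7,3),(0,3),(7,14),(0,14),(17,1)]⟩,⟨0,[(3,0)]⟩⟩,.o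
  ⟨false,1,⟨1,[(34,1),(9,0),(5,0)]⟩,⟨2,[(9,0),(23,2),(2,0),(7,0)]⟩⟩,.a ⟨true,0,⟨0,[(34,0)]⟩,⟨0,[(33,
  0)]⟩⟩ ⟨false,1,⟨3,[(1,1),(16,1),(12,0),(19,0)]⟩,⟨5,[(2,3),(2,2),(3,0),(12,2),(6,0),(2,0),(1,3)]⟩⟩
  ⟨true,0,⟨0,[(33,0),(14,0)]⟩,⟨0,[(3,0),(30,0)]⟩⟩]⟩))) (.K ⟨0,[0,0,0,1],0,0,(⟨0,[(32,0)]⟩,⟨0,[(31,
  0)]⟩),.k,(.r (-1) ⟨1,[(16,0),(13,0),(20,0)]⟩ ⟨0,[(2,0)]⟩),(.x 0 ⟨0,[(44,0)]⟩ ⟨11,[(17,3),(1,3),(9,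
  4),(0,4),(11,1)]⟩),.k,.k,[⟨0,[(32,0)]⟩,⟨0,[(31,0)]⟩,⟨0,[(0,0),(46,0)]⟩,⟨3,[(1,2),(5,1),(12,0),(6,
  1),(2,1),(0,3),(1,0)]⟩]⟩))) (.Q [0,1,1,0,-1,0,0,0,1,0,0,-1] (.p false [0,0,0,1] [] (⟨0,[(30,0)]⟩,
  ⟨0,[(29,0)]⟩) .k 0 (⟨0,[]⟩,⟨0,[]⟩) .k .k) (.K ⟨0,[0,0,0,1],0,(-1),(⟨0,[(31,0)]⟩,⟨0,[(30,0)]⟩),.k,
  (.x 0 ⟨11,[(10,7),(5,3),(1,3),(4,7),(4,2),(0,2),(11,1)]⟩ ⟨7,[(4,0),(3,3),(11,1),(6,0),(12,3),(6,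
  3)]⟩),(.x 0 ⟨0,[(43,0)]⟩ ⟨11,[(16,3),(1,3),(9,4),(0,4),(11,1)]⟩),.k,.k,[⟨0,[(31,0)]⟩,⟨0,[(30,0)]⟩,
  ⟨1,[(28,0),(2,1),(15,0),(2,1)]⟩,⟨0,[(0,0)]⟩]⟩) (.R ⟨0,false,false,true,[0,-1,1],[0,0,0,1],[],(⟨0,
  [(16,0)]⟩,⟨1,[(7,0),(0,0),(30,0)]⟩),(⟨0,[(31,0)]⟩,⟨0,[(30,0)]⟩),⟨0,[(6,0),(1,0)]⟩,.k,.k,(.x 0 ⟨23,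
  [(10,19),(5,31),(1,7),(4,7),(4,4),(0,4),(11,9)]⟩ ⟨0,[(8,0)]⟩),(.r (-2) ⟨43,[(15,35),(1,11),(8,15),
  (1,36),(0,14),(4,31),(2,15)]⟩ ⟨0,[(1,0),(0,0),(3,0)]⟩),.k,.k,⟨true,1,⟨1,[(28,0),(19,0)]⟩,⟨0,[(1,
  0),(4,0),(19,0)]⟩⟩,⟨false,1,⟨3,[(23,1),(6,3),(10,0),(5,2)]⟩,⟨3,[(4,0),(15,1),(6,0),(3,3)]⟩⟩,
  ⟨false,0,⟨1,[(9,0),(0,0),(37,0)]⟩,⟨10,[(15,8),(1,2),(8,3),(1,0),(0,0),(4,7),(2,3)]⟩⟩,⟨true,(-1),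
  ⟨0,[(1,0),(1,0),(2,0),(19,0),(3,0)]⟩,⟨0,[(0,0),(33,0),(11,0)]⟩⟩,⟨false,0,⟨0,[]⟩,⟨0,[]⟩⟩,⟨false,0,
  ⟨0,[]⟩,⟨0,[]⟩⟩,[.a ⟨true,(-1),⟨0,[(1,0),(4,0),(19,0),(3,0)]⟩,⟨0,[(0,0)]⟩⟩ ⟨false,1,⟨3,[(28,0),(0,
  0),(17,1)]⟩,⟨0,[]⟩⟩ ⟨true,0,⟨50,[(1,38),(4,5),(2,3),(9,27),(3,26),(2,2),(2,5),(0,50),(1,19)]⟩,⟨0,
  [(0,0),(5,0)]⟩⟩,.o ⟨false,0,⟨32,[(1,14),(1,5),(2,15),(4,2),(7,2),(9,8),(0,32),(2,12),(7,6)]⟩,⟨4,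
  [(0,4),(2,0),(0,1),(14,2),(12,1)]⟩⟩,.o ⟨false,0,⟨0,[(36,0)]⟩,⟨3,[(23,1),(17,0),(5,2)]⟩⟩,.o ⟨false,
  (-1),⟨0,[(6,0)]⟩,⟨3,[(23,1),(4,0),(0,0),(11,0),(5,4)]⟩⟩]⟩))))) (.R ⟨0,false,false,false,[0,-1,1],
  [1,-1],[1,0,-1,-1],(⟨0,[(12,0)]⟩,⟨1,[(3,0),(0,0),(30,0)]⟩),(⟨0,[(38,0)]⟩,⟨0,[(39,0)]⟩),⟨0,[(2,0),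
  (1,0)]⟩,.k,.k,(.x 0 ⟨23,[(6,19),(5,31),(1,7),(4,7),(4,4),(0,4),(11,9)]⟩ ⟨0,[(4,0)]⟩),.k,.k,.k,
  ⟨true,0,⟨0,[]⟩,⟨5,[(6,1),(12,1),(4,0),(0,0)]⟩⟩,⟨false,1,⟨3,[(19,1),(17,0),(5,2)]⟩,⟨5,[(3,0),(0,0),
  (18,2),(12,0),(1,1)]⟩⟩,⟨false,0,⟨0,[(20,0)]⟩,⟨21,[(11,7),(1,9),(8,5),(1,6),(0,6),(4,11),(2,5)]⟩⟩,
  ⟨true,0,⟨0,[(1,0)]⟩,⟨2,[(3,0),(0,0),(25,2),(5,0),(1,1)]⟩⟩,⟨false,0,⟨0,[]⟩,⟨0,[]⟩⟩,⟨false,0,⟨0,[]⟩,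
  ⟨0,[]⟩⟩,[.a ⟨true,0,⟨0,[(42,0)]⟩,⟨5,[(0,2),(2,0),(0,0),(31,0),(1,1)]⟩⟩ ⟨false,1,⟨1,[(11,0),(31,0),
  (2,0)]⟩,⟨47,[(5,5),(0,13),(0,11),(11,7),(4,6),(0,6),(15,11)]⟩⟩ ⟨true,1,⟨2,[(11,1),(7,0),(2,0),(14,
  0),(8,0)]⟩,⟨1,[(0,0),(1,0),(0,0)]⟩⟩,.o ⟨false,1,⟨23,[(6,7),(4,11),(7,7),(4,0),(0,0),(11,11),(6,
  5)]⟩,⟨0,[(41,0)]⟩⟩,.o ⟨false,0,⟨0,[(32,0)]⟩,⟨3,[(19,1),(17,0),(5,2)]⟩⟩,.o ⟨false,(-1),⟨0,[(2,0)]⟩,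
  ⟨3,[(19,1),(4,0),(0,0),(11,0),(5,4)]⟩⟩]⟩))))

theorem ok78 : chk (cU (-1) true 10) t78 l51 = true := by decide +kernel

noncomputable def t79 : Tre :=
  (.I [0,1,0,-1,0,0,0,1] (.R ⟨1,false,false,false,[0,0,1],[1,1,-1],[1],(⟨0,[(35,0)]⟩,⟨0,[(34,0)]⟩),
  (⟨0,[(34,0),(3,0)]⟩,⟨0,[(11,0)]⟩),⟨0,[(11,0)]⟩,.k,.k,.k,(.r (-1) ⟨13,[(0,17),(5,9),(3,7),(12,0),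
  (0,0),(17,3)]⟩ ⟨3,[(4,1),(0,1),(17,0),(0,0),(8,3)]⟩),(.r (-2) ⟨13,[(0,19),(5,7),(3,11),(12,4),(0,
  4),(17,5)]⟩ ⟨0,[(4,0),(0,0)]⟩),.k,⟨false,1,⟨0,[(1,0),(0,0)]⟩,⟨3,[(4,1),(0,1),(17,0),(0,0)]⟩⟩,
  ⟨true,1,⟨15,[(2,7),(7,3),(7,7),(2,7),(1,0),(0,0),(18,1)]⟩,⟨0,[(5,0)]⟩⟩,⟨false,0,⟨0,[(19,0)]⟩,⟨27,
  [(0,15),(5,11),(3,3),(12,10),(0,10),(17,1)]⟩⟩,⟨true,0,⟨0,[(7,0)]⟩,⟨0,[(1,0),(27,0)]⟩⟩,⟨true,0,⟨1,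
  [(4,0),(17,0)]⟩,⟨0,[(0,0)]⟩⟩,⟨true,0,⟨0,[(4,0)]⟩,⟨2,[(0,1),(0,1),(3,0),(4,0),(18,1)]⟩⟩,[.a ⟨true,
  0,⟨1,[(4,0),(20,0),(0,0)]⟩,⟨0,[(1,0)]⟩⟩ ⟨true,0,⟨0,[]⟩,⟨5,[(5,1),(12,1),(4,0),(0,0)]⟩⟩ ⟨false,1,
  ⟨10,[(2,5),(1,3),(13,0),(2,2),(1,0),(0,0),(5,2),(12,2)]⟩,⟨2,[(1,1),(3,0),(4,0),(4,0),(13,0)]⟩⟩,.o
  ⟨false,1,⟨7,[(4,3),(18,0),(0,0),(11,1),(6,3)]⟩,⟨0,[(29,0),(11,0)]⟩⟩,.o ⟨false,0,⟨0,[(15,0),(25,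
  0)]⟩,⟨9,[(2,1),(15,3),(4,2),(0,2),(11,1)]⟩⟩,.o ⟨false,0,⟨0,[(31,0)]⟩,⟨19,[(2,11),(15,3),(4,2),(0,
  2),(11,1)]⟩⟩]⟩) (.Q [0,0,0,0,0,0,1,1,0,1,-1] (.p false [0,0,1] [1] (⟨0,[(35,0)]⟩,⟨0,[(34,0)]⟩) .k
  1 (⟨0,[]⟩,⟨0,[]⟩) .k .k) (.Q [0,0,0,0,0,2,0,0,0,0,-1] (.p false [0,0,1] [] (⟨0,[(36,0)]⟩,⟨0,[(35,
  0)]⟩) .k 0 (⟨0,[]⟩,⟨0,[]⟩) .k .k) (.R ⟨0,false,false,false,[0,-1,1],[1,0,-1],[1],(⟨0,[(13,0)]⟩,⟨1,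
  [(0,0),(26,0),(0,0),(7,0)]⟩),(⟨0,[(36,0)]⟩,⟨0,[(37,0)]⟩),⟨0,[(0,0)]⟩,.k,.k,(.x 0 ⟨23,[(7,19),(5,
  31),(1,7),(4,7),(4,4),(0,4),(11,9)]⟩ ⟨0,[(5,0)]⟩),(.r (-1) ⟨59,[(3,79),(0,51),(9,19),(5,23),(4,2),
  (0,2),(4,19),(6,1)]⟩ ⟨3,[(6,1),(0,1),(17,0),(0,0),(8,3)]⟩),.k,.k,⟨false,1,⟨31,[(3,20),(0,19),(3,
  6),(7,3),(3,0),(2,2),(1,5),(0,5)]⟩,⟨0,[(35,0)]⟩⟩,⟨true,1,⟨15,[(4,7),(7,3),(7,7),(2,7),(1,0),(0,0),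
  (18,1)]⟩,⟨0,[(7,0)]⟩⟩,⟨false,0,⟨1,[(6,0),(0,0),(37,0)]⟩,⟨19,[(3,19),(0,11),(15,3),(4,2),(0,2),(11,
  1)]⟩⟩,⟨true,0,⟨0,[(9,0)]⟩,⟨0,[(3,0),(27,0)]⟩⟩,⟨false,0,⟨0,[]⟩,⟨0,[]⟩⟩,⟨false,0,⟨0,[]⟩,⟨0,[]⟩⟩,[.a
  ⟨true,0,⟨1,[(10,0),(16,0),(0,0)]⟩,⟨0,[(1,0)]⟩⟩ ⟨true,0,⟨0,[]⟩,⟨5,[(7,1),(12,1),(4,0),(0,0)]⟩⟩
  ⟨false,1,⟨3,[(4,1),(1,0),(3,0),(1,1),(10,1)]⟩,⟨7,[(3,3),(3,3),(8,3),(8,0),(0,0),(18,1)]⟩⟩,.o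
  ⟨false,1,⟨7,[(10,3),(14,0),(0,0),(11,1),(6,3)]⟩,⟨0,[(31,0)]⟩⟩,.o ⟨false,0,⟨0,[(33,0)]⟩,⟨19,[(4,
  11),(15,3),(4,2),(0,2),(11,1)]⟩⟩,.o ⟨false,0,⟨23,[(7,19),(12,7),(4,6),(0,6),(11,5)]⟩,⟨0,[(4,
  0)]⟩⟩]⟩) (.Q [0,0,0,1,0,0,1,1,0,1,-1] (.p false [0,0,1] [1] (⟨0,[(37,0)]⟩,⟨0,[(36,0)]⟩) .k 1 (⟨0,
  []⟩,⟨0,[]⟩) .k .k) (.Q [0,0,0,-2,0,0,-1,-1,0,-1,1] (.p true [0,0,1] [1] (⟨0,[(38,0)]⟩,⟨0,[(37,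
  0)]⟩) .k 1 (⟨0,[]⟩,⟨0,[]⟩) .k .k) (.R ⟨1,false,false,true,[1,0,-1],[0,1],[0,1,2,1],(⟨0,[(38,0)]⟩,
  ⟨0,[(39,0)]⟩),(⟨0,[(42,0)]⟩,⟨0,[(41,0)]⟩),⟨0,[(24,0)]⟩,.k,.k,.k,.k,(.r (-1) ⟨1,[(14,1),(11,0),(4,
  0),(2,0)]⟩ ⟨8,[(9,3),(0,5),(7,2),(3,3),(2,2),(1,1),(0,1)]⟩),.k,⟨true,0,⟨5,[(9,1),(12,1),(4,0),(0,
  0)]⟩,⟨0,[]⟩⟩,⟨false,1,⟨4,[(5,0),(8,0),(5,2),(5,0),(7,0),(11,3)]⟩,⟨0,[(32,0)]⟩⟩,⟨false,0,⟨5,[(9,1),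
  (0,2),(11,1),(4,0),(0,0),(4,2),(2,2)]⟩,⟨2,[(4,0),(9,1),(22,1),(8,0)]⟩⟩,⟨false,0,⟨0,[(1,0)]⟩,⟨5,
  [(0,1),(12,1),(13,0),(0,0),(11,0),(6,2)]⟩⟩,⟨false,0,⟨8,[(9,3),(0,5),(7,2),(3,3),(2,2),(1,1),(0,
  1)]⟩,⟨0,[(14,0),(22,0)]⟩⟩,⟨true,0,⟨0,[(1,0),(42,0)]⟩,⟨0,[(0,0)]⟩⟩,[.o ⟨false,0,⟨0,[(44,0)]⟩,⟨5,
  [(0,1),(4,1),(34,2),(6,2)]⟩⟩,.a ⟨true,0,⟨3,[(1,1),(6,0),(20,2),(0,2)]⟩,⟨0,[(45,0)]⟩⟩ ⟨false,0,⟨47,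
  [(8,5),(0,13),(0,11),(11,7),(4,6),(0,6),(15,11)]⟩,⟨1,[(14,0),(31,0),(2,0)]⟩⟩ ⟨true,0,⟨0,[(20,0)]⟩,
  ⟨2,[(0,0),(4,0),(26,2)]⟩⟩,.o ⟨false,1,⟨9,[(6,1),(15,3),(4,2),(0,2),(11,1)]⟩,⟨5,[(0,0),(8,0),(4,0),
  (4,3),(13,0)]⟩⟩,.o ⟨false,0,⟨0,[(32,0)]⟩,⟨7,[(26,3),(0,0),(0,0),(11,1),(5,3)]⟩⟩]⟩) (.Q [0,1,-1,0,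
  0,0,0,0,-1,0,0,1] (.p true [0,0,0,1] [] (⟨0,[(30,0)]⟩,⟨0,[(29,0)]⟩) .k 0 (⟨0,[]⟩,⟨0,[]⟩) .k .k)
  (.Q [0,1,1,0,0,0,0,0,1,0,0,-1] (.p false [0,0,0,1] [] (⟨0,[(31,0)]⟩,⟨0,[(30,0)]⟩) .k 0 (⟨0,[]⟩,⟨0,
  []⟩) .k .k) (.K ⟨0,[0,0,0,1],0,0,(⟨0,[(32,0)]⟩,⟨0,[(31,0)]⟩),.k,(.r (-1) ⟨1,[(16,0),(13,0),(20,
  0)]⟩ ⟨27,[(1,13),(8,2),(0,6),(0,5),(8,9),(7,6),(1,13),(2,17),(10,3)]⟩),(.x 0 ⟨0,[(44,0)]⟩ ⟨15,[(4,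
  3),(14,3),(9,6),(0,6),(11,1)]⟩),.k,.k,[⟨0,[(32,0)]⟩,⟨0,[(31,0)]⟩,⟨0,[(1,0)]⟩,⟨0,[(0,0)]⟩]⟩) (.Q
  [0,0,0,0,0,-1,0,0,0,1,0,-1] (.ed true [0,1,0,1] .k) (.Q [0,0,0,-1,0,0,1,1,0,1,-1,-1] (.p false [0,
  0,1] [1,0,0,-1] (⟨0,[(42,0)]⟩,⟨0,[(41,0)]⟩) .k 2 (⟨0,[(32,0)]⟩,⟨0,[(33,0)]⟩) .k (.r (-1) ⟨7,[(8,
  3),(0,1),(3,1),(11,1),(4,0),(0,4),(4,1)]⟩ ⟨29,[(1,15),(10,9),(3,5),(0,1),(4,9),(7,6),(1,15),(1,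
  17),(8,0)]⟩)) (.I [1,1,1,1,-1,0,0,-1,-1] (.R ⟨1,false,false,false,[1,0,0,-1],[0,-1,1],[1,1,0,0,0,
  0,0,0,-1],(⟨0,[(34,0)]⟩,⟨0,[(35,0)]⟩),(⟨0,[(20,0)]⟩,⟨0,[(43,0),(3,0)]⟩),⟨0,[(2,0)]⟩,.k,.k,(.x
  (-1) ⟨15,[(7,3),(14,3),(9,6),(0,6),(11,1)]⟩ ⟨0,[(47,0)]⟩),(.x (-1) ⟨3,[(11,0),(0,2),(9,0)]⟩ ⟨23,
  [(7,11),(6,19),(12,7),(4,6),(0,6),(10,11),(0,5)]⟩),.k,.k,⟨true,(-1),⟨0,[(0,0)]⟩,⟨1,[(10,0),(8,0),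
  (1,0),(11,0),(3,0)]⟩⟩,⟨false,0,⟨7,[(14,3),(17,0),(0,0),(0,7),(10,1)]⟩,⟨0,[(11,0),(23,0)]⟩⟩,⟨false,
  0,⟨0,[]⟩,⟨3,[(32,0),(0,0),(18,1)]⟩⟩,⟨false,1,⟨5,[(1,5),(12,1),(12,1),(4,0),(0,3),(18,2)]⟩,⟨2,[(3,
  2),(9,0),(9,0),(12,1)]⟩⟩,⟨true,0,⟨0,[(49,0)]⟩,⟨0,[(50,0)]⟩⟩,⟨false,1,⟨71,[(1,47),(12,19),(0,23),
  (11,7),(4,12),(0,48),(0,23),(10,5),(6,23)]⟩,⟨0,[(3,0),(32,0)]⟩⟩,[.e ⟨false,0,⟨1,[(0,0),(0,0),(2,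
  0),(6,0)]⟩,⟨1,[(33,0),(18,0)]⟩⟩ ⟨false,0,⟨0,[(1,0)]⟩,⟨3,[(3,0),(0,2),(8,1),(19,1),(11,0),(6,0)]⟩⟩,
  .o ⟨false,1,⟨1,[(10,1),(34,0),(6,0)]⟩,⟨2,[(13,0),(9,0),(12,1)]⟩⟩,.o ⟨false,1,⟨1,[(3,0),(0,0),(28,
  0),(11,0)]⟩,⟨3,[(1,1),(11,0),(0,0),(19,1),(2,1),(7,0)]⟩⟩,.a ⟨true,0,⟨0,[(35,0)]⟩,⟨0,[(34,0)]⟩⟩
  ⟨false,0,⟨1,[(0,0),(0,0),(1,0),(7,0)]⟩,⟨5,[(14,1),(12,1),(4,0),(0,3),(18,2)]⟩⟩ ⟨true,0,⟨0,[(1,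
  0)]⟩,⟨2,[(13,0),(9,0),(11,2),(0,1)]⟩⟩]⟩) (.Q [0,1,1,-1,0,0,0,0,1,0,0,-1] (.p false [0,0,0,1] []
  (⟨0,[(35,0)]⟩,⟨0,[(34,0)]⟩) .k 0 (⟨0,[]⟩,⟨0,[]⟩) .k .k) (.R ⟨2,false,false,true,[0,1],[0,0,0,1],
  [1],(⟨0,[]⟩,⟨0,[]⟩),(⟨0,[(36,0)]⟩,⟨0,[(35,0)]⟩),⟨0,[]⟩,.k,.k,.k,(.r 0 ⟨17,[(2,1),(1,3),(9,4),(0,
  6),(0,1),(7,5),(3,5),(4,6),(1,1)]⟩ ⟨9,[(0,1),(4,1),(14,3),(13,4),(17,0)]⟩),.k,.k,⟨true,0,⟨25,[(2,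
  21),(1,21),(9,10),(0,4),(17,1),(4,9),(7,2),(2,1)]⟩,⟨3,[(0,2),(0,0),(12,0),(0,0),(8,0),(6,0),(4,
  2)]⟩⟩,⟨false,0,⟨3,[(2,1),(11,0),(0,0),(19,1),(2,1),(7,0)]⟩,⟨1,[(4,0),(0,0),(28,0),(17,0)]⟩⟩,
  ⟨false,1,⟨7,[(20,3),(12,0),(0,0),(18,1)]⟩,⟨47,[(14,5),(0,13),(0,11),(11,7),(4,6),(0,6),(15,11)]⟩⟩,
  ⟨true,0,⟨0,[(0,0)]⟩,⟨4,[(4,2),(0,1),(0,0),(7,0),(9,0)]⟩⟩,⟨false,1,⟨1,[(52,0),(0,0)]⟩,⟨5,[(15,1),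
  (12,1),(4,0),(0,0)]⟩⟩,⟨false,1,⟨39,[(0,31),(13,3),(1,7),(8,7),(7,10),(0,14),(0,7),(10,1),(6,11)]⟩,
  ⟨0,[(4,0)]⟩⟩,[.e ⟨true,0,⟨0,[]⟩,⟨5,[(15,1),(12,1),(4,0),(0,0)]⟩⟩ ⟨true,0,⟨47,[(0,47),(13,5),(0,
  13),(0,11),(11,7),(4,6),(0,6),(15,11)]⟩,⟨0,[(4,0)]⟩⟩,.a ⟨true,0,⟨1,[(1,1),(0,1),(11,0),(0,1),(2,
  0),(12,1)]⟩,⟨1,[(4,0),(0,0)]⟩⟩ ⟨false,1,⟨1,[(52,0),(0,0)]⟩,⟨2,[(0,0),(4,0),(44,0)]⟩⟩ ⟨true,0,⟨11,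
  [(0,11),(13,1),(0,2),(0,3),(11,0),(20,0),(3,2)]⟩,⟨1,[(4,0),(0,0)]⟩⟩,.o ⟨false,1,⟨3,[(33,0),(0,0),
  (17,1)]⟩,⟨0,[(25,0),(12,0),(12,0)]⟩⟩,.e ⟨false,1,⟨1,[(52,0),(0,0)]⟩,⟨5,[(15,1),(12,1),(4,0),(0,
  0)]⟩⟩ ⟨false,1,⟨39,[(0,31),(13,3),(1,7),(8,7),(7,10),(0,14),(0,7),(10,1),(6,11)]⟩,⟨0,[(4,0)]⟩⟩]⟩)
  (.Q [0,0,-3,0,1,0,0,0,0,0,0,1] (.p true [0,0,0,1] [] (⟨0,[(36,0)]⟩,⟨0,[(35,0)]⟩) .k 0 (⟨0,[]⟩,⟨0,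
  []⟩) .k .k) (.K ⟨1,[1,-1,0,-1],0,0,(⟨0,[(4,0)]⟩,⟨0,[(37,0),(11,0)]⟩),(.x (-1) ⟨15,[(9,3),(14,3),
  (9,6),(0,6),(11,1)]⟩ ⟨0,[(49,0)]⟩),(.r (-1) ⟨7,[(3,3),(1,0),(0,2),(14,5),(12,1),(3,3)]⟩ ⟨23,[(15,
  5),(0,13),(0,11),(11,7),(4,0),(0,12),(15,11)]⟩),.k,.k,.k,[⟨5,[(16,1),(12,1),(4,0),(0,0),(0,5)]⟩,
  ⟨7,[(2,1),(2,1),(10,2),(9,1),(10,5),(0,2),(0,5),(0,0),(6,0)]⟩,⟨1,[(3,1),(11,0),(0,0),(15,1),(2,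
  0)]⟩,⟨0,[(5,0),(46,0)]⟩]⟩) (.Q [0,1,1,-2,0,0,0,0,1,0,0,-1] (.p false [0,0,0,1] [] (⟨0,[(37,0)]⟩,
  ⟨0,[(36,0)]⟩) .k 0 (⟨0,[]⟩,⟨0,[]⟩) .k .k) (.R ⟨1,false,false,false,[1,-1],[1,0,0,-1],[1],(⟨0,[(49,
  0)]⟩,⟨0,[(50,0)]⟩),(⟨0,[(37,0)]⟩,⟨0,[(38,0)]⟩),⟨2,[(10,0),(14,0),(23,1)]⟩,.k,.k,(.r (-1) ⟨2,[(0,
  0),(6,0),(14,1),(31,0)]⟩ ⟨23,[(16,5),(0,13),(0,11),(11,7),(4,6),(0,6),(15,11)]⟩),(.r (-1) ⟨5,[(0,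
  0),(6,0),(14,1),(13,2),(17,0)]⟩ ⟨87,[(1,21),(0,1),(4,19),(0,3),(7,14),(0,10),(0,21),(7,3),(8,
  32)]⟩),(.r (-2) ⟨11,[(0,3),(6,3),(14,7),(12,2),(0,8),(17,3)]⟩ ⟨10,[(1,10),(0,6),(4,3),(0,2),(7,2),
  (9,2)]⟩),.k,⟨false,1,⟨1,[(36,0),(17,0)]⟩,⟨9,[(1,1),(0,3),(1,3),(1,0),(0,0),(27,1),(3,3)]⟩⟩,⟨true,
  1,⟨9,[(2,3),(4,5),(14,1),(13,4),(17,2)]⟩,⟨0,[(1,0)]⟩⟩,⟨false,0,⟨11,[(16,1),(0,2),(0,3),(11,0),(20,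
  0),(3,2)]⟩,⟨11,[(0,1),(6,1),(14,3),(12,2),(0,2),(17,1)]⟩⟩,⟨false,0,⟨0,[(2,0)]⟩,⟨11,[(0,5),(0,1),
  (33,2),(0,5),(0,3),(10,1),(6,2)]⟩⟩,⟨false,0,⟨11,[(12,3),(3,1),(0,1),(0,7),(16,0),(0,0)]⟩,⟨19,[(0,
  7),(6,3),(14,11),(12,4),(0,2),(1,3)]⟩⟩,⟨true,0,⟨10,[(2,6),(4,3),(0,2),(7,2),(9,2)]⟩,⟨0,[(0,0)]⟩⟩,
  [.a ⟨true,0,⟨1,[(6,0),(0,0)]⟩,⟨1,[(3,1),(0,1),(11,0),(0,1),(2,0),(12,1)]⟩⟩ ⟨true,0,⟨0,[]⟩,⟨5,[(17,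
  1),(12,1),(4,0),(0,0)]⟩⟩ ⟨false,1,⟨4,[(2,1),(4,2),(14,0),(31,3)]⟩,⟨5,[(1,3),(34,2),(0,1),(10,
  0)]⟩⟩,.e ⟨false,1,⟨1,[(54,0),(0,0)]⟩,⟨0,[(57,0)]⟩⟩ ⟨false,1,⟨4,[(2,3),(4,0),(14,1),(31,2)]⟩,⟨35,
  [(0,11),(0,19),(33,2),(0,14),(0,3),(10,1),(3,23)]⟩⟩,.o ⟨false,0,⟨5,[(1,1),(1,1),(2,1),(10,0),(9,
  1),(11,2),(0,1),(0,0),(6,0)]⟩,⟨3,[(35,0),(0,0),(17,1)]⟩⟩,.o ⟨false,0,⟨11,[(17,7),(12,7),(4,0),(0,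
  0),(11,5)]⟩,⟨0,[(54,0)]⟩⟩]⟩) (.K ⟨1,[1,-1,0,-1],0,0,(⟨0,[(5,0)]⟩,⟨0,[(38,0),(11,0)]⟩),(.x (-1)
  ⟨15,[(10,3),(14,3),(9,6),(0,6),(11,1)]⟩ ⟨0,[(50,0)]⟩),(.r (-1) ⟨7,[(4,3),(1,0),(0,2),(14,5),(12,
  1),(3,3)]⟩ ⟨23,[(16,5),(0,13),(0,11),(11,7),(4,0),(0,12),(15,11)]⟩),.k,.k,.k,[⟨6,[(1,0),(15,0),
  (17,0),(0,0),(0,5),(6,1)]⟩,⟨7,[(3,1),(2,1),(10,2),(9,1),(10,5),(0,2),(0,5),(0,0),(6,0)]⟩,⟨1,[(4,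
  1),(11,0),(0,0),(15,1),(2,0)]⟩,⟨0,[(6,0),(46,0)]⟩]⟩))))) (.I [1,0,-1,0,0,0,0,0,-1] (.I [1,1,1,1,
  -1,0,0,-1,-1] (.R ⟨1,false,false,false,[1,0,0,-1],[0,-1,1],[1,1,0,0,0,0,0,0,-1],(⟨0,[(35,0)]⟩,⟨0,
  [(36,0)]⟩),(⟨0,[(21,0)]⟩,⟨0,[(44,0),(3,0)]⟩),⟨0,[(3,0)]⟩,.k,.k,(.x (-1) ⟨15,[(8,3),(14,3),(9,6),
  (0,6),(11,1)]⟩ ⟨0,[(48,0)]⟩),(.x (-1) ⟨3,[(12,0),(0,2),(9,0)]⟩ ⟨23,[(8,11),(6,19),(12,7),(4,6),(0,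
  6),(10,11),(0,5)]⟩),.k,.k,⟨true,(-1),⟨0,[(0,0)]⟩,⟨1,[(11,0),(8,0),(1,0),(11,0),(3,0)]⟩⟩,⟨false,0,
  ⟨7,[(15,3),(17,0),(0,0),(0,7),(10,1)]⟩,⟨0,[(12,0),(23,0)]⟩⟩,⟨false,0,⟨0,[]⟩,⟨3,[(33,0),(0,0),(18,
  1)]⟩⟩,⟨false,1,⟨9,[(11,9),(3,1),(18,4),(0,9),(2,3),(7,3),(2,1),(3,2)]⟩,⟨1,[(0,0),(1,0),(1,0),(7,
  0)]⟩⟩,⟨true,0,⟨0,[(50,0)]⟩,⟨0,[(51,0)]⟩⟩,⟨false,1,⟨15,[(11,7),(3,3),(6,7),(10,0),(0,8),(0,15),(10,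
  5),(6,3)]⟩,⟨0,[(4,0),(32,0)]⟩⟩,[.a ⟨true,0,⟨0,[(11,0)]⟩,⟨1,[(14,0),(20,0),(0,0)]⟩⟩ ⟨false,0,⟨0,
  [(1,0),(53,0)]⟩,⟨1,[(34,0),(18,0)]⟩⟩ ⟨true,0,⟨8,[(11,4),(3,2),(4,1),(14,8),(2,5),(0,3),(6,0),(2,
  0)]⟩,⟨0,[(2,0)]⟩⟩,.o ⟨false,1,⟨1,[(11,1),(34,0),(6,0)]⟩,⟨2,[(14,0),(9,0),(12,1)]⟩⟩,.o ⟨false,1,⟨1,
  [(4,0),(0,0),(28,0),(11,0)]⟩,⟨0,[(25,0),(9,0),(2,0),(12,0)]⟩⟩,.e ⟨false,0,⟨0,[(1,0)]⟩,⟨5,[(15,1),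
  (12,1),(4,0),(0,3),(18,2)]⟩⟩ ⟨false,1,⟨1,[(11,1),(23,1),(10,0),(6,0)]⟩,⟨0,[(2,0)]⟩⟩]⟩) (.K ⟨1,[1,
  -1,0,-1],0,0,(⟨0,[(3,0)]⟩,⟨0,[(36,0),(11,0)]⟩),(.x (-1) ⟨15,[(8,3),(14,3),(9,6),(0,6),(11,1)]⟩ ⟨0,
  [(48,0)]⟩),(.r (-1) ⟨3,[(1,1),(18,2),(12,0),(17,1),(3,2)]⟩ ⟨23,[(14,5),(0,13),(0,11),(11,7),(4,0),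
  (0,12),(15,11)]⟩),.k,.k,.k,[⟨5,[(15,1),(12,1),(4,0),(0,0),(0,5)]⟩,⟨8,[(0,0),(1,2),(1,0),(10,2),
  (20,4),(1,4),(0,1),(6,1),(4,1)]⟩,⟨2,[(0,2),(13,0),(0,2),(8,0),(6,2),(3,2),(1,1)]⟩,⟨0,[(4,0),(46,
  0)]⟩]⟩)) (.Q [0,1,1,-1,0,0,0,0,1,0,0,-1] (.p false [0,0,0,1] [] (⟨0,[(35,0)]⟩,⟨0,[(34,0)]⟩) .k 0
  (⟨0,[]⟩,⟨0,[]⟩) .k .k) (.R ⟨2,false,false,true,[0,1],[0,0,0,1],[0,1],(⟨0,[]⟩,⟨0,[]⟩),(⟨0,[(36,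
  0)]⟩,⟨0,[(35,0)]⟩),⟨0,[]⟩,.k,.k,.k,(.r 0 ⟨39,[(4,9),(9,8),(0,14),(0,3),(7,13),(3,9),(4,14),(1,9),
  (2,5)]⟩ ⟨9,[(0,1),(4,1),(14,3),(13,4),(17,0)]⟩),.k,.k,⟨true,0,⟨9,[(4,7),(10,1),(17,0),(1,7),(1,3),
  (0,3),(0,3),(6,0)]⟩,⟨0,[(1,0)]⟩⟩,⟨false,0,⟨0,[(25,0),(9,0),(2,0),(12,0)]⟩,⟨1,[(4,0),(0,0),(28,0),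
  (17,0)]⟩⟩,⟨false,1,⟨19,[(0,3),(4,3),(14,7),(12,4),(0,4),(17,1)]⟩,⟨11,[(14,1),(0,2),(0,3),(11,0),
  (20,0),(3,2)]⟩⟩,⟨true,0,⟨0,[(0,0)]⟩,⟨4,[(4,2),(0,1),(0,0),(7,0),(9,0)]⟩⟩,⟨false,1,⟨3,[(33,0),(0,
  0),(17,1)]⟩,⟨3,[(15,0),(12,0),(20,0),(3,0)]⟩⟩,⟨false,1,⟨39,[(0,31),(13,3),(1,7),(8,7),(7,10),(0,
  14),(0,7),(10,1),(6,11)]⟩,⟨0,[(4,0)]⟩⟩,[.e ⟨true,0,⟨2,[(0,0),(4,0),(44,0)]⟩,⟨3,[(15,0),(12,0),(20,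
  0),(3,0)]⟩⟩ ⟨true,0,⟨47,[(0,47),(13,5),(0,13),(0,11),(11,7),(4,6),(0,6),(15,11)]⟩,⟨0,[(4,0)]⟩⟩,.a
  ⟨true,0,⟨0,[(1,0),(33,0)]⟩,⟨1,[(4,0),(0,0)]⟩⟩ ⟨false,1,⟨3,[(33,0),(0,0),(17,1)]⟩,⟨0,[]⟩⟩ ⟨true,0,
  ⟨11,[(0,11),(13,1),(0,2),(0,3),(11,0),(20,0),(3,2)]⟩,⟨1,[(4,0),(0,0)]⟩⟩,.o ⟨false,1,⟨3,[(33,0),(0,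
  0),(17,1)]⟩,⟨0,[(25,0),(12,0),(12,0)]⟩⟩,.e ⟨false,1,⟨3,[(33,0),(0,0),(17,1)]⟩,⟨3,[(15,0),(12,0),
  (20,0),(3,0)]⟩⟩ ⟨false,1,⟨39,[(0,31),(13,3),(1,7),(8,7),(7,10),(0,14),(0,7),(10,1),(6,11)]⟩,⟨0,
  [(4,0)]⟩⟩]⟩) (.Q [0,0,0,1,0,0,0,0,0,1,0,-1] (.p false [0,0,0,1] [1] (⟨0,[(36,0)]⟩,⟨0,[(35,0)]⟩)
  .k 1 (⟨0,[]⟩,⟨0,[]⟩) .k .k) (.Q [0,0,1,2,0,0,0,0,1,1,0,-1] (.p false [0,0,0,1] [1] (⟨0,[(37,0)]⟩,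
  ⟨0,[(36,0)]⟩) .k 1 (⟨0,[]⟩,⟨0,[]⟩) .k .k) (.R ⟨1,false,false,true,[1,0,0,-1],[0,1],[1,0,0,0,0,0,0,
  0,-1],(⟨0,[(37,0)]⟩,⟨0,[(38,0)]⟩),(⟨0,[(50,0)]⟩,⟨0,[(49,0)]⟩),⟨0,[(5,0)]⟩,.k,.k,(.x (-1) ⟨15,[(10,
  3),(14,3),(9,6),(0,6),(11,1)]⟩ ⟨0,[(50,0)]⟩),(.x (-1) ⟨15,[(10,3),(14,3),(9,6),(0,6),(11,1)]⟩ ⟨0,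
  [(50,0)]⟩),(.r (-1) ⟨7,[(6,2),(0,0),(13,3),(0,5),(12,1),(1,3),(3,7)]⟩ ⟨23,[(0,7),(3,7),(12,11),(0,
  7),(11,7),(4,0),(0,8),(11,1),(3,7)]⟩),.k,⟨false,1,⟨25,[(6,19),(7,1),(7,13),(4,1),(7,2),(1,19),(1,
  3),(1,3),(6,6)]⟩,⟨0,[(3,0),(48,0)]⟩⟩,⟨true,0,⟨0,[(37,0)]⟩,⟨3,[(3,0),(0,0),(1,0),(10,0),(20,1),(1,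
  1),(0,0),(6,0),(4,0)]⟩⟩,⟨true,0,⟨0,[]⟩,⟨0,[(57,0)]⟩⟩,⟨false,0,⟨1,[(0,0),(2,0),(33,0)]⟩,⟨27,[(6,
  14),(0,0),(9,3),(4,13),(12,5),(2,11),(1,7),(7,11)]⟩⟩,⟨false,1,⟨23,[(8,7),(7,3),(18,4),(0,4),(11,
  1),(6,11)]⟩,⟨0,[(53,0)]⟩⟩,⟨false,0,⟨0,[(0,0)]⟩,⟨13,[(6,4),(0,4),(9,5),(4,13),(12,1),(2,3),(1,11),
  (7,3)]⟩⟩,[.o ⟨false,0,⟨0,[(52,0)]⟩,⟨23,[(17,7),(4,11),(7,7),(4,0),(0,0),(11,11),(6,5)]⟩⟩,.a ⟨true,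
  0,⟨1,[(0,0),(1,0),(10,0),(28,0)]⟩,⟨0,[(53,0)]⟩⟩ ⟨true,0,⟨0,[(6,0),(20,0),(9,0),(2,0),(12,0)]⟩,⟨0,
  [(3,0),(53,0)]⟩⟩ ⟨false,0,⟨0,[(1,0)]⟩,⟨5,[(7,1),(14,1),(13,0),(1,3),(9,2),(4,1)]⟩⟩,.o ⟨false,1,
  ⟨13,[(2,3),(4,5),(14,1),(13,4),(1,3),(9,6)]⟩,⟨0,[(27,0),(9,0),(2,0),(12,0)]⟩⟩,.e ⟨false,1,⟨5,[(1,
  1),(0,1),(19,1),(12,1),(12,0),(6,0)]⟩,⟨0,[(3,0)]⟩⟩ ⟨false,0,⟨0,[(1,0)]⟩,⟨23,[(17,7),(4,11),(7,7),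
  (4,0),(0,0),(1,23),(9,11),(6,5)]⟩⟩]⟩) (.R ⟨1,true,false,true,[1,0,0,-1],[0,1],[1,0,0,0,0,0,0,0,
  -1],(⟨0,[(37,0)]⟩,⟨0,[(38,0)]⟩),(⟨0,[(50,0)]⟩,⟨0,[(49,0)]⟩),⟨0,[(5,0)]⟩,.k,.k,(.x (-1) ⟨15,[(10,
  3),(14,3),(9,6),(0,6),(11,1)]⟩ ⟨0,[(50,0)]⟩),(.x (-1) ⟨15,[(10,3),(14,3),(9,6),(0,6),(11,1)]⟩ ⟨0,
  [(50,0)]⟩),(.r (-1) ⟨3,[(0,1),(21,1),(12,0),(1,1),(16,0),(2,1)]⟩ ⟨23,[(16,5),(0,13),(0,11),(11,7),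
  (4,0),(0,12),(15,11)]⟩),.k,⟨false,1,⟨5,[(0,1),(0,3),(0,1),(19,3),(12,0),(12,0)]⟩,⟨0,[(3,0),(48,
  0)]⟩⟩,⟨true,0,⟨0,[(37,0)]⟩,⟨27,[(0,4),(2,4),(0,3),(12,6),(0,1),(7,1),(11,18),(1,11),(7,6)]⟩⟩,
  ⟨true,0,⟨0,[]⟩,⟨0,[(57,0)]⟩⟩,⟨false,0,⟨0,[(1,0),(1,0)]⟩,⟨3,[(0,1),(6,1),(40,0),(6,2)]⟩⟩,⟨false,1,
  ⟨23,[(8,7),(7,3),(18,4),(0,4),(11,1),(6,11)]⟩,⟨0,[(53,0)]⟩⟩,⟨true,0,⟨0,[(1,0),(1,0),(48,0)]⟩,⟨0,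
  [(0,0)]⟩⟩,[]⟩)) (.Q [0,0,-3,0,1,0,0,0,0,0,0,1] (.p true [0,0,0,1] [] (⟨0,[(37,0)]⟩,⟨0,[(36,0)]⟩)
  .k 0 (⟨0,[]⟩,⟨0,[]⟩) .k .k) (.Q [0,1,1,-2,0,0,0,0,1,0,0,-1] (.p false [0,0,0,1] [] (⟨0,[(38,0)]⟩,
  ⟨0,[(37,0)]⟩) .k 0 (⟨0,[]⟩,⟨0,[]⟩) .k .k) (.I [0,0,2,1,-1,0,0,0,-1] (.I [0,0,3,0,-1,-2] (.R ⟨1,
  true,false,false,[1,-1],[1,0,0,-1],[1,0,-1,-1],(⟨0,[(52,0)]⟩,⟨0,[(53,0)]⟩),(⟨0,[(40,0)]⟩,⟨0,[(41,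
  0)]⟩),⟨2,[(13,0),(14,0),(23,1)]⟩,.k,.k,(.r (-1) ⟨2,[(2,0),(7,0),(14,1),(31,0)]⟩ ⟨11,[(1,7),(17,1),
  (0,1),(0,3),(16,2),(0,6),(15,3)]⟩),(.r (-1) ⟨15,[(2,3),(0,3),(21,3),(12,0),(0,6)]⟩ ⟨23,[(1,7),(17,
  1),(0,1),(0,3),(16,8),(0,0),(15,3)]⟩),(.x 1 ⟨0,[(0,0)]⟩ ⟨7,[(18,7),(18,3),(0,0),(0,0),(10,7),(0,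
  1),(5,3)]⟩),.k,⟨true,1,⟨15,[(2,3),(0,3),(21,3),(12,0),(0,6)]⟩,⟨0,[(1,0)]⟩⟩,⟨false,1,⟨0,[(3,0)]⟩,
  ⟨5,[(1,1),(0,3),(16,0),(0,0),(0,1),(16,0),(1,1),(10,0),(6,0)]⟩⟩,⟨true,0,⟨0,[]⟩,⟨0,[(60,0)]⟩⟩,
  ⟨false,0,⟨0,[(5,0)]⟩,⟨27,[(2,19),(16,1),(0,1),(0,3),(16,6),(0,10),(0,7),(10,3),(6,7)]⟩⟩,⟨false,1,
  ⟨23,[(11,7),(7,3),(18,4),(0,4),(11,1),(6,11)]⟩,⟨0,[(56,0)]⟩⟩,⟨true,0,⟨10,[(5,6),(4,3),(0,2),(7,2),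
  (9,2)]⟩,⟨0,[(2,0)]⟩⟩,[]⟩) (.R ⟨1,true,false,false,[1,-1],[1,0,0,-1],[1,0,-1,-1],(⟨0,[(52,0)]⟩,⟨0,
  [(53,0)]⟩),(⟨0,[(40,0)]⟩,⟨0,[(41,0)]⟩),⟨2,[(13,0),(14,0),(23,1)]⟩,.k,.k,(.r (-1) ⟨2,[(2,0),(7,0),
  (14,1),(31,0)]⟩ ⟨11,[(1,7),(17,1),(0,1),(0,3),(16,2),(0,6),(15,3)]⟩),(.r (-1) ⟨15,[(2,3),(0,3),
  (21,3),(12,0),(0,6)]⟩ ⟨23,[(1,7),(17,1),(0,1),(0,3),(16,8),(0,0),(15,3)]⟩),(.r (-1) ⟨0,[(0,0),(3,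
  1),(1,0),(1,1)]⟩ ⟨5,[(1,3),(17,0),(0,0),(0,1),(16,2),(0,1),(15,1)]⟩),.k,⟨true,1,⟨15,[(2,3),(0,3),
  (21,3),(12,0),(0,6)]⟩,⟨0,[(1,0)]⟩⟩,⟨false,1,⟨0,[(3,0)]⟩,⟨5,[(1,1),(0,3),(16,0),(0,0),(0,1),(16,0),
  (1,1),(10,0),(6,0)]⟩⟩,⟨true,0,⟨0,[]⟩,⟨0,[(60,0)]⟩⟩,⟨false,0,⟨0,[(5,0)]⟩,⟨27,[(2,19),(16,1),(0,1),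
  (0,3),(16,6),(0,10),(0,7),(10,3),(6,7)]⟩⟩,⟨false,1,⟨23,[(11,7),(7,3),(18,4),(0,4),(11,1),(6,11)]⟩,
  ⟨0,[(56,0)]⟩⟩,⟨true,0,⟨10,[(5,6),(4,3),(0,2),(7,2),(9,2)]⟩,⟨0,[(2,0)]⟩⟩,[]⟩)) (.R ⟨1,false,false,
  false,[0,0,0,1],[0,1],[0,1,1],(⟨0,[(40,0)]⟩,⟨0,[(39,0)]⟩),(⟨0,[(52,0)]⟩,⟨0,[(51,0)]⟩),⟨11,[(3,2),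
  (2,0),(3,0),(1,2),(14,2),(12,7)]⟩,.k,.k,(.r (-1) ⟨15,[(0,3),(0,1),(7,1),(14,3),(12,0),(0,6)]⟩ ⟨39,
  [(4,9),(13,6),(0,14),(0,1),(7,11),(3,9),(4,14),(1,9),(2,7)]⟩),(.r (-1) ⟨15,[(0,3),(0,1),(7,1),(14,
  3),(12,0),(0,6)]⟩ ⟨39,[(4,9),(13,6),(0,14),(0,1),(7,11),(3,9),(4,14),(1,9),(2,7)]⟩),(.r (-1) ⟨0,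
  [(0,0),(54,0)]⟩ ⟨23,[(18,5),(0,13),(0,11),(11,7),(4,12),(0,0),(15,11)]⟩),.k,⟨true,0,⟨1,[(1,0),(7,
  0)]⟩,⟨11,[(18,1),(0,2),(0,3),(11,0),(20,0),(3,2)]⟩⟩,⟨false,1,⟨0,[(2,0)]⟩,⟨28,[(1,11),(16,3),(0,
  10),(0,7),(16,5),(1,16),(2,13),(7,4),(2,1)]⟩⟩,⟨false,0,⟨5,[(8,0),(0,0),(9,1),(17,1),(1,1),(2,3)]⟩,
  ⟨17,[(0,11),(13,3),(5,3),(17,2),(14,1),(3,2)]⟩⟩,⟨false,0,⟨0,[(4,0)]⟩,⟨27,[(1,19),(16,1),(0,1),(0,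
  3),(16,6),(0,10),(0,7),(10,3),(6,7)]⟩⟩,⟨false,0,⟨39,[(4,9),(13,6),(0,14),(0,1),(7,11),(3,9),(4,
  14),(1,9),(2,7)]⟩,⟨2,[(0,0),(23,0),(13,0),(14,0)]⟩⟩,⟨true,0,⟨10,[(4,6),(4,3),(0,2),(7,2),(9,2)]⟩,
  ⟨0,[(1,0)]⟩⟩,[.e ⟨false,0,⟨0,[(59,0)]⟩,⟨1,[(56,0),(0,0)]⟩⟩ ⟨false,1,⟨5,[(2,3),(3,1),(3,1),(26,0),
  (0,0)]⟩,⟨0,[(29,0),(9,0),(2,0),(12,1)]⟩⟩,.a ⟨true,0,⟨0,[(4,0),(0,0),(33,0)]⟩,⟨1,[(1,0),(7,0)]⟩⟩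
  ⟨true,0,⟨5,[(19,1),(12,1),(4,0),(0,0)]⟩,⟨0,[]⟩⟩ ⟨false,1,⟨33,[(2,17),(1,15),(5,3),(3,1),(3,1),(1,
  1),(17,7),(11,0),(6,6)]⟩,⟨9,[(1,1),(17,1),(3,3),(13,0),(1,7),(2,3),(0,7),(6,0),(4,1)]⟩⟩,.o ⟨false,
  0,⟨0,[(29,0),(9,0),(2,0),(12,0)]⟩,⟨11,[(2,3),(34,0),(0,0),(1,7),(9,5)]⟩⟩,.o ⟨false,0,⟨28,[(1,11),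
  (16,3),(0,10),(0,7),(16,5),(1,16),(2,13),(7,4),(2,1)]⟩,⟨25,[(2,16),(0,6),(2,1),(9,0),(3,0),(7,0),
  (0,1),(20,7)]⟩⟩]⟩)) (.Q [0,0,-1,-2,0,0,0,0,-1,-1,0,1] (.p true [0,0,0,1] [1] (⟨0,[(39,0)]⟩,⟨0,
  [(38,0)]⟩) .k 1 (⟨0,[]⟩,⟨0,[]⟩) .k .k) (.Q [0,0,1,1,0,0,0,0,1,1,0,-1] (.p false [0,0,0,1] [1] (⟨0,
  [(40,0)]⟩,⟨0,[(39,0)]⟩) .k 1 (⟨0,[]⟩,⟨0,[]⟩) .k .k) (.R ⟨1,true,false,true,[1,0,0,-1],[0,1],[1,0,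
  0,0,0,0,0,0,-1],(⟨0,[(40,0)]⟩,⟨0,[(41,0)]⟩),(⟨0,[(53,0)]⟩,⟨0,[(52,0)]⟩),⟨0,[(8,0)]⟩,.k,.k,(.x
  (-1) ⟨15,[(13,3),(14,3),(9,6),(0,6),(11,1)]⟩ ⟨0,[(53,0)]⟩),(.x (-1) ⟨15,[(13,3),(14,3),(9,6),(0,
  6),(11,1)]⟩ ⟨0,[(53,0)]⟩),(.r (-1) ⟨3,[(1,1),(23,1),(12,0),(1,1),(16,0),(2,1)]⟩ ⟨23,[(19,5),(0,
  13),(0,11),(11,7),(4,0),(0,12),(15,11)]⟩),.k,⟨false,1,⟨17,[(1,3),(3,7),(11,1),(7,9),(4,1),(7,2),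
  (1,11),(10,2)]⟩,⟨0,[(6,0),(48,0)]⟩⟩,⟨true,0,⟨0,[(40,0)]⟩,⟨23,[(4,4),(2,1),(12,5),(0,0),(7,0),(11,
  16),(1,10),(7,5)]⟩⟩,⟨true,0,⟨0,[]⟩,⟨0,[(60,0)]⟩⟩,⟨false,0,⟨0,[(0,0)]⟩,⟨35,[(1,13),(1,5),(0,11),(0,
  3),(32,8),(12,4),(6,15)]⟩⟩,⟨false,1,⟨23,[(11,7),(7,3),(18,4),(0,4),(11,1),(6,11)]⟩,⟨0,[(56,0)]⟩⟩,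
  ⟨true,0,⟨0,[(0,0),(54,0)]⟩,⟨0,[(1,0)]⟩⟩,[]⟩) (.R ⟨2,true,false,false,[0,1],[1,0,0,-1],[0,1,1],(⟨0,
  []⟩,⟨0,[]⟩),(⟨0,[(40,0)]⟩,⟨0,[(41,0)]⟩),⟨0,[]⟩,.k,.k,.k,(.x 0 ⟨0,[(53,0)]⟩ ⟨15,[(13,3),(14,3),(9,
  6),(0,6),(11,1)]⟩),.k,.k,⟨true,0,⟨0,[(6,0),(53,0)]⟩,⟨29,[(0,23),(14,1),(3,2),(0,2),(0,7),(16,2),
  (1,23),(13,9)]⟩⟩,⟨false,1,⟨11,[(3,3),(34,0),(0,0),(1,7),(9,5)]⟩,⟨0,[(40,0)]⟩⟩,⟨false,0,⟨0,[(56,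
  0)]⟩,⟨23,[(11,7),(7,3),(18,4),(0,4),(11,1),(6,11)]⟩⟩,⟨true,0,⟨0,[(0,0)]⟩,⟨0,[(6,0),(33,0),(14,
  0)]⟩⟩,⟨true,0,⟨0,[(60,0)]⟩,⟨0,[]⟩⟩,⟨false,1,⟨23,[(0,1),(2,3),(0,7),(0,9),(32,5),(12,6),(6,6)]⟩,⟨0,
  [(6,0),(33,0)]⟩⟩,[]⟩)) (.R ⟨1,false,false,true,[1,0,0,-1],[0,1],[1,0,0,0,0,0,0,0,-1],(⟨0,[(39,
  0)]⟩,⟨0,[(40,0)]⟩),(⟨0,[(52,0)]⟩,⟨0,[(51,0)]⟩),⟨0,[(7,0)]⟩,.k,.k,(.x (-1) ⟨15,[(12,3),(14,3),(9,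
  6),(0,6),(11,1)]⟩ ⟨0,[(52,0)]⟩),(.x (-1) ⟨15,[(12,3),(14,3),(9,6),(0,6),(11,1)]⟩ ⟨0,[(52,0)]⟩),
  (.r (-1) ⟨7,[(8,2),(0,0),(13,3),(0,5),(12,1),(1,3),(3,7)]⟩ ⟨23,[(0,7),(5,7),(12,11),(0,7),(11,7),
  (4,0),(0,8),(11,1),(3,7)]⟩),.k,⟨false,1,⟨25,[(8,19),(7,1),(7,13),(4,1),(7,2),(1,19),(1,3),(1,3),
  (6,6)]⟩,⟨0,[(5,0),(48,0)]⟩⟩,⟨true,0,⟨0,[(39,0)]⟩,⟨23,[(3,4),(2,1),(12,5),(0,0),(7,0),(11,16),(1,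
  10),(7,5)]⟩⟩,⟨true,0,⟨0,[]⟩,⟨0,[(59,0)]⟩⟩,⟨false,0,⟨1,[(0,0),(4,0),(33,0)]⟩,⟨5,[(3,3),(0,1),(19,
  1),(12,1),(12,0),(6,0)]⟩⟩,⟨false,1,⟨23,[(10,7),(7,3),(18,4),(0,4),(11,1),(6,11)]⟩,⟨0,[(55,0)]⟩⟩,
  ⟨false,0,⟨0,[(0,0)]⟩,⟨16,[(3,13),(4,2),(10,0),(4,9),(12,6),(4,1),(7,0),(2,1)]⟩⟩,[.o ⟨false,0,⟨0,
  [(54,0)]⟩,⟨23,[(19,7),(4,11),(7,7),(4,0),(0,0),(11,11),(6,5)]⟩⟩,.e ⟨true,0,⟨0,[(8,0),(20,0),(9,0),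
  (2,0),(12,0)]⟩,⟨0,[(5,0),(53,0)]⟩⟩ ⟨true,0,⟨85,[(0,33),(17,2),(0,16),(0,3),(7,1),(3,13),(2,1),(1,
  16),(1,51)]⟩,⟨0,[(3,0)]⟩⟩,.o ⟨false,1,⟨11,[(2,3),(34,0),(0,0),(1,7),(9,5)]⟩,⟨0,[(29,0),(9,0),(2,
  0),(12,0)]⟩⟩,.a ⟨true,0,⟨0,[(40,0)]⟩,⟨0,[(39,0)]⟩⟩ ⟨false,1,⟨5,[(1,1),(22,1),(12,1),(1,1),(10,0),
  (6,0)]⟩,⟨0,[(5,0)]⟩⟩ ⟨true,0,⟨0,[(39,0),(14,0)]⟩,⟨0,[(3,0)]⟩⟩]⟩))) (.Q [0,0,-1,-2,0,0,0,0,-1,-1,0,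
  1] (.p true [0,0,0,1] [1] (⟨0,[(38,0)]⟩,⟨0,[(37,0)]⟩) .k 1 (⟨0,[]⟩,⟨0,[]⟩) .k .k) (.Q [0,0,1,1,0,
  0,0,0,1,1,0,-1] (.p false [0,0,0,1] [1] (⟨0,[(39,0)]⟩,⟨0,[(38,0)]⟩) .k 1 (⟨0,[]⟩,⟨0,[]⟩) .k .k)
  (.R ⟨1,true,false,true,[1,0,0,-1],[0,1],[1,0,0,0,0,0,0,0,-1],(⟨0,[(39,0)]⟩,⟨0,[(40,0)]⟩),(⟨0,[(52,
  0)]⟩,⟨0,[(51,0)]⟩),⟨0,[(7,0)]⟩,.k,.k,(.x (-1) ⟨15,[(12,3),(14,3),(9,6),(0,6),(11,1)]⟩ ⟨0,[(52,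
  0)]⟩),(.x (-1) ⟨15,[(12,3),(14,3),(9,6),(0,6),(11,1)]⟩ ⟨0,[(52,0)]⟩),(.r (-1) ⟨3,[(1,0),(7,0),(14,
  2),(12,0),(1,1),(1,0),(1,0)]⟩ ⟨15,[(2,3),(3,3),(11,1),(0,5),(0,7),(14,3),(1,0),(0,8),(15,3)]⟩),.k,
  ⟨false,1,⟨17,[(1,3),(2,7),(11,1),(7,9),(4,1),(7,2),(1,11),(10,2)]⟩,⟨0,[(5,0),(48,0)]⟩⟩,⟨true,0,⟨0,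
  [(39,0)]⟩,⟨23,[(3,4),(2,1),(12,5),(0,0),(7,0),(11,16),(1,10),(7,5)]⟩⟩,⟨true,0,⟨0,[]⟩,⟨0,[(59,
  0)]⟩⟩,⟨false,0,⟨0,[(0,0)]⟩,⟨5,[(3,3),(0,1),(19,1),(12,1),(12,0),(6,0)]⟩⟩,⟨false,1,⟨23,[(10,7),(7,
  3),(18,4),(0,4),(11,1),(6,11)]⟩,⟨0,[(55,0)]⟩⟩,⟨true,0,⟨0,[(0,0),(53,0)]⟩,⟨0,[(1,0)]⟩⟩,[]⟩) (.R ⟨2,
  true,false,false,[0,1],[1,0,0,-1],[0,1,1],(⟨0,[]⟩,⟨0,[]⟩),(⟨0,[(39,0)]⟩,⟨0,[(40,0)]⟩),⟨0,[]⟩,.k,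
  .k,.k,(.x 0 ⟨0,[(52,0)]⟩ ⟨15,[(12,3),(14,3),(9,6),(0,6),(11,1)]⟩),.k,.k,⟨true,0,⟨0,[(5,0),(53,
  0)]⟩,⟨41,[(0,5),(1,19),(1,29),(19,11),(12,2),(1,15),(10,4)]⟩⟩,⟨false,1,⟨13,[(4,3),(4,5),(14,1),
  (13,4),(1,3),(9,6)]⟩,⟨0,[(39,0)]⟩⟩,⟨false,0,⟨0,[(55,0)]⟩,⟨23,[(10,7),(7,3),(18,4),(0,4),(11,1),(6,
  11)]⟩⟩,⟨true,0,⟨0,[(0,0)]⟩,⟨0,[(5,0),(33,0),(14,0)]⟩⟩,⟨true,0,⟨0,[(59,0)]⟩,⟨0,[]⟩⟩,⟨false,1,⟨7,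
  [(0,1),(3,1),(4,3),(40,2),(6,4)]⟩,⟨0,[(5,0),(33,0)]⟩⟩,[]⟩)) (.R ⟨1,false,false,true,[1,0,0,-1],[0,
  1],[1,0,0,0,0,0,0,0,-1],(⟨0,[(38,0)]⟩,⟨0,[(39,0)]⟩),(⟨0,[(51,0)]⟩,⟨0,[(50,0)]⟩),⟨0,[(6,0)]⟩,.k,.k,
  (.x (-1) ⟨15,[(11,3),(14,3),(9,6),(0,6),(11,1)]⟩ ⟨0,[(51,0)]⟩),(.x (-1) ⟨15,[(11,3),(14,3),(9,6),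
  (0,6),(11,1)]⟩ ⟨0,[(51,0)]⟩),(.r (-1) ⟨30,[(1,10),(6,20),(6,3),(7,32),(4,3),(7,4),(1,9),(1,5),(1,
  5)]⟩ ⟨13,[(0,1),(0,3),(3,5),(12,3),(0,5),(14,1),(1,0),(0,6),(15,3)]⟩),.k,⟨false,1,⟨31,[(1,7),(5,
  14),(0,4),(6,11),(7,21),(4,11),(7,5),(1,11)]⟩,⟨0,[(4,0),(48,0)]⟩⟩,⟨true,0,⟨0,[(38,0)]⟩,⟨23,[(2,4),
  (2,1),(12,5),(0,0),(7,0),(11,16),(1,10),(7,5)]⟩⟩,⟨true,0,⟨0,[]⟩,⟨0,[(58,0)]⟩⟩,⟨false,0,⟨1,[(0,0),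
  (3,0),(33,0)]⟩,⟨5,[(2,3),(0,1),(19,1),(12,1),(12,0),(6,0)]⟩⟩,⟨false,1,⟨23,[(9,7),(7,3),(18,4),(0,
  4),(11,1),(6,11)]⟩,⟨0,[(54,0)]⟩⟩,⟨false,0,⟨0,[(0,0)]⟩,⟨53,[(1,1),(0,47),(4,7),(15,29),(12,22),(12,
  2),(2,7)]⟩⟩,[.o ⟨false,0,⟨0,[(53,0)]⟩,⟨31,[(1,7),(0,7),(20,11),(12,2),(0,2),(11,11),(6,9)]⟩⟩,.e
  ⟨true,0,⟨8,[(1,4),(1,1),(3,4),(7,1),(7,1),(4,1),(7,0),(1,1)]⟩,⟨0,[(4,0),(53,0)]⟩⟩ ⟨true,0,⟨55,[(0,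
  24),(0,6),(1,2),(14,3),(15,2),(1,10),(1,26),(6,4)]⟩,⟨0,[(2,0)]⟩⟩,.o ⟨false,1,⟨13,[(3,3),(4,5),(14,
  1),(13,4),(1,3),(9,6)]⟩,⟨2,[(1,0),(36,1),(10,0)]⟩⟩,.a ⟨true,0,⟨0,[(39,0)]⟩,⟨0,[(38,0)]⟩⟩ ⟨false,1,
  ⟨8,[(3,2),(11,0),(7,1),(4,0),(7,2),(1,2),(10,0),(6,1)]⟩,⟨0,[(4,0)]⟩⟩ ⟨true,0,⟨0,[(38,0),(14,0)]⟩,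
  ⟨0,[(2,0)]⟩⟩]⟩))))))) (.I [0,1,-1,0,0,0,0,1,-1] (.R ⟨0,false,false,false,[1,0,0,-1],[0,-1,1],[0,1,
  0,0,0,0,0,0,-1],(⟨0,[(33,0)]⟩,⟨0,[(34,0)]⟩),(⟨0,[(19,0)]⟩,⟨0,[(42,0),(3,0)]⟩),⟨0,[(1,0)]⟩,.k,.k,
  (.x (-1) ⟨15,[(6,3),(14,3),(9,6),(0,6),(11,1)]⟩ ⟨0,[(46,0)]⟩),(.x (-1) ⟨3,[(10,0),(0,2),(9,0)]⟩
  ⟨23,[(6,11),(6,19),(12,7),(4,6),(0,6),(10,11),(0,5)]⟩),.k,.k,⟨true,(-1),⟨1,[(0,1),(11,0),(0,1),(2,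
  0)]⟩,⟨1,[(9,0),(8,0),(1,0),(11,0),(3,0)]⟩⟩,⟨false,0,⟨7,[(13,3),(17,0),(0,0),(0,7),(10,1)]⟩,⟨0,
  [(10,0),(23,0)]⟩⟩,⟨true,0,⟨0,[(53,0)]⟩,⟨0,[]⟩⟩,⟨false,1,⟨9,[(9,9),(3,1),(18,4),(0,9),(2,3),(7,3),
  (2,1),(3,2)]⟩,⟨17,[(0,3),(0,3),(0,12),(0,0),(2,0),(5,6),(8,0),(1,3),(11,7)]⟩⟩,⟨false,0,⟨0,[]⟩,⟨0,
  []⟩⟩,⟨false,0,⟨0,[]⟩,⟨0,[]⟩⟩,[.a ⟨true,0,⟨0,[(9,0)]⟩,⟨1,[(12,0),(20,0),(0,0)]⟩⟩ ⟨false,0,⟨0,[(0,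
  0),(40,0)]⟩,⟨1,[(32,0),(18,0)]⟩⟩ ⟨true,0,⟨8,[(9,4),(3,2),(4,1),(14,8),(2,5),(0,3),(6,0),(2,0)]⟩,
  ⟨5,[(1,3),(4,0),(5,2),(8,0),(12,1)]⟩⟩,.o ⟨false,1,⟨1,[(9,1),(34,0),(6,0)]⟩,⟨2,[(12,0),(9,0),(12,
  1)]⟩⟩,.o ⟨false,1,⟨1,[(2,0),(0,0),(28,0),(11,0)]⟩,⟨0,[(23,0),(9,0),(2,0),(12,0)]⟩⟩,.e ⟨false,0,⟨0,
  [(0,0),(26,0)]⟩,⟨5,[(13,1),(12,1),(4,0),(0,3),(18,2)]⟩⟩ ⟨false,1,⟨1,[(9,1),(23,1),(10,0),(6,0)]⟩,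
  ⟨5,[(1,3),(4,0),(5,2),(8,0),(12,1)]⟩⟩]⟩) (.Q [0,1,1,0,0,0,-1,-1,1,0,1,-1] (.p true [0,0,1] [0,0,0,
  1] (⟨0,[(43,0)]⟩,⟨0,[(42,0)]⟩) .k 2 (⟨0,[(34,0)]⟩,⟨0,[(33,0)]⟩) .k (.r 0 ⟨0,[(2,0),(30,0),(2,0),
  (0,0)]⟩ ⟨3,[(31,0),(0,2),(8,3)]⟩)) (.Q [0,0,0,0,0,0,1,1,0,0,-1,1] (.p false [0,0,1] [0,0,0,1] (⟨0,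
  [(44,0)]⟩,⟨0,[(43,0)]⟩) .k 2 (⟨0,[(35,0)]⟩,⟨0,[(34,0)]⟩) .k (.r 0 ⟨0,[(3,0),(30,0),(2,0),(0,0)]⟩
  ⟨3,[(32,0),(0,2),(8,3)]⟩)) (.R ⟨0,false,false,true,[1,0,0,-1],[1,0,-1],[1,1],(⟨0,[(35,0)]⟩,⟨0,
  [(36,0)]⟩),(⟨0,[(44,0)]⟩,⟨0,[(45,0)]⟩),⟨0,[(3,0)]⟩,.k,.k,(.x (-1) ⟨15,[(8,3),(14,3),(9,6),(0,6),
  (11,1)]⟩ ⟨0,[(48,0)]⟩),.k,.k,.k,⟨false,1,⟨47,[(6,7),(4,27),(0,29),(3,5),(11,5),(4,8),(0,8),(4,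
  5)]⟩,⟨0,[(43,0)]⟩⟩,⟨true,0,⟨0,[(35,0),(2,0)]⟩,⟨5,[(3,3),(4,0),(14,0),(8,2),(3,1)]⟩⟩,⟨false,1,⟨3,
  [(33,0),(0,2)]⟩,⟨0,[(4,0),(20,0),(9,0),(2,0),(12,0)]⟩⟩,⟨true,0,⟨0,[(1,0)]⟩,⟨0,[(4,0),(34,0)]⟩⟩,
  ⟨false,0,⟨0,[]⟩,⟨0,[]⟩⟩,⟨false,0,⟨0,[]⟩,⟨0,[]⟩⟩,[.o ⟨false,0,⟨0,[(37,0)]⟩,⟨5,[(6,1),(4,3),(34,2),
  (6,2)]⟩⟩,.e ⟨true,0,⟨0,[]⟩,⟨5,[(15,1),(12,1),(4,0),(0,0)]⟩⟩ ⟨true,0,⟨25,[(1,3),(13,4),(2,10),(14,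
  1),(1,21),(2,9),(7,2),(2,1)]⟩,⟨0,[(0,0)]⟩⟩,.o ⟨false,1,⟨1,[(4,0),(0,0),(28,0),(11,0)]⟩,⟨0,[(25,0),
  (9,0),(2,0),(12,0)]⟩⟩,.a ⟨true,0,⟨0,[(36,0)]⟩,⟨0,[(35,0)]⟩⟩ ⟨false,1,⟨3,[(33,0),(0,0),(17,1)]⟩,⟨3,
  [(15,0),(12,0),(20,0),(3,0)]⟩⟩ ⟨true,0,⟨0,[(35,0),(1,0)]⟩,⟨0,[(0,0)]⟩⟩]⟩) (.R ⟨0,false,false,true,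
  [1,0,0,-1],[1,0,-1],[1,1],(⟨0,[(35,0)]⟩,⟨0,[(36,0)]⟩),(⟨0,[(44,0)]⟩,⟨0,[(45,0)]⟩),⟨0,[(3,0)]⟩,.k,
  .k,(.x (-1) ⟨15,[(8,3),(14,3),(9,6),(0,6),(11,1)]⟩ ⟨0,[(48,0)]⟩),.k,.k,.k,⟨false,1,⟨47,[(6,7),(4,
  27),(0,29),(3,5),(11,5),(4,8),(0,8),(4,5)]⟩,⟨0,[(43,0)]⟩⟩,⟨true,0,⟨0,[(35,0),(2,0)]⟩,⟨5,[(3,3),(4,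
  0),(14,0),(8,2),(3,1)]⟩⟩,⟨false,1,⟨3,[(33,0),(0,2)]⟩,⟨10,[(0,7),(3,8),(10,0),(17,0),(1,0),(2,1),
  (0,7),(9,4)]⟩⟩,⟨true,0,⟨0,[(1,0)]⟩,⟨0,[(4,0),(34,0)]⟩⟩,⟨false,0,⟨0,[]⟩,⟨0,[]⟩⟩,⟨false,0,⟨0,[]⟩,⟨0,
  []⟩⟩,[.o ⟨false,0,⟨0,[(37,0)]⟩,⟨5,[(6,1),(4,3),(34,2),(6,2)]⟩⟩,.a ⟨true,0,⟨1,[(18,0),(16,0),(0,
  0)]⟩,⟨0,[(9,0)]⟩⟩ ⟨true,0,⟨0,[]⟩,⟨5,[(15,1),(12,1),(4,0),(0,0)]⟩⟩ ⟨false,0,⟨0,[(0,0)]⟩,⟨17,[(5,5),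
  (0,9),(4,7),(8,5),(13,2),(1,11),(9,8)]⟩⟩,.o ⟨false,1,⟨1,[(4,0),(0,0),(28,0),(11,0)]⟩,⟨4,[(0,1),
  (14,0),(19,2),(2,1),(0,1),(6,0),(2,0)]⟩⟩,.e ⟨false,1,⟨3,[(33,0),(0,0),(17,1)]⟩,⟨3,[(15,0),(12,0),
  (20,0),(3,0)]⟩⟩ ⟨false,0,⟨0,[(0,0)]⟩,⟨5,[(6,1),(4,3),(24,5),(9,2),(6,2)]⟩⟩]⟩)) (.I [0,1,1,1,-1,0,
  0,-1,-1] (.R ⟨0,false,false,false,[1,0,0,-1],[0,-1,1],[0,1,0,0,0,0,0,0,-1],(⟨0,[(35,0)]⟩,⟨0,[(36,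
  0)]⟩),(⟨0,[(21,0)]⟩,⟨0,[(44,0),(3,0)]⟩),⟨0,[(3,0)]⟩,.k,.k,(.x (-1) ⟨15,[(8,3),(14,3),(9,6),(0,6),
  (11,1)]⟩ ⟨0,[(48,0)]⟩),(.x (-1) ⟨3,[(12,0),(0,2),(9,0)]⟩ ⟨23,[(8,11),(6,19),(12,7),(4,6),(0,6),
  (10,11),(0,5)]⟩),.k,.k,⟨true,(-1),⟨0,[(0,0)]⟩,⟨1,[(11,0),(8,0),(1,0),(11,0),(3,0)]⟩⟩,⟨false,0,⟨7,
  [(15,3),(17,0),(0,0),(0,7),(10,1)]⟩,⟨0,[(12,0),(23,0)]⟩⟩,⟨true,0,⟨0,[(55,0)]⟩,⟨0,[]⟩⟩,⟨false,1,⟨9,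
  [(11,9),(3,1),(18,4),(0,9),(2,3),(7,3),(2,1),(3,2)]⟩,⟨5,[(1,3),(3,1),(8,2),(3,0),(18,1)]⟩⟩,⟨false,
  0,⟨0,[]⟩,⟨0,[]⟩⟩,⟨false,0,⟨0,[]⟩,⟨0,[]⟩⟩,[.a ⟨true,0,⟨0,[(11,0)]⟩,⟨1,[(14,0),(20,0),(0,0)]⟩⟩
  ⟨false,0,⟨5,[(0,2),(0,0),(3,1),(6,2),(22,2),(3,1),(11,2)]⟩,⟨1,[(34,0),(18,0)]⟩⟩ ⟨true,0,⟨8,[(11,
  4),(3,2),(4,1),(14,8),(2,5),(0,3),(6,0),(2,0)]⟩,⟨5,[(3,3),(4,0),(5,2),(8,0),(12,1)]⟩⟩,.o ⟨false,1,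
  ⟨1,[(11,1),(34,0),(6,0)]⟩,⟨2,[(14,0),(9,0),(12,1)]⟩⟩,.o ⟨false,1,⟨1,[(4,0),(0,0),(28,0),(11,0)]⟩,
  ⟨0,[(25,0),(9,0),(2,0),(12,0)]⟩⟩,.e ⟨false,0,⟨1,[(0,0),(0,0),(10,0),(22,0),(15,0)]⟩,⟨5,[(15,1),
  (12,1),(4,0),(0,3),(18,2)]⟩⟩ ⟨false,1,⟨1,[(11,1),(23,1),(10,0),(6,0)]⟩,⟨5,[(3,3),(4,0),(5,2),(8,
  0),(12,1)]⟩⟩]⟩) (.Q [0,0,0,-1,0,0,0,0,0,-1,0,1] (.p true [0,0,0,1] [1] (⟨0,[(36,0)]⟩,⟨0,[(35,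
  0)]⟩) .k 1 (⟨0,[]⟩,⟨0,[]⟩) .k .k) (.R ⟨0,false,false,true,[1,0,0,-1],[0,1],[1,1],(⟨0,[(36,0)]⟩,⟨0,
  [(37,0)]⟩),(⟨0,[(49,0)]⟩,⟨0,[(48,0)]⟩),⟨0,[(4,0)]⟩,.k,.k,(.x (-1) ⟨15,[(9,3),(14,3),(9,6),(0,6),
  (11,1)]⟩ ⟨0,[(49,0)]⟩),(.x (-1) ⟨15,[(9,3),(14,3),(9,6),(0,6),(11,1)]⟩ ⟨0,[(49,0)]⟩),.k,.k,⟨false,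
  1,⟨1,[(21,0),(31,0),(2,0)]⟩,⟨47,[(15,5),(0,13),(0,11),(11,7),(4,6),(0,6),(15,11)]⟩⟩,⟨true,0,⟨0,
  [(36,0)]⟩,⟨14,[(4,4),(4,1),(6,3),(11,0),(8,9),(1,5),(7,3)]⟩⟩,⟨false,1,⟨3,[(34,0),(0,2)]⟩,⟨25,[(2,
  21),(13,4),(2,10),(14,1),(1,21),(2,9),(7,2),(2,1)]⟩⟩,⟨true,0,⟨0,[(3,0),(28,0),(3,0),(3,0)]⟩,⟨0,
  [(2,0),(17,0),(19,0)]⟩⟩,⟨false,0,⟨0,[]⟩,⟨0,[]⟩⟩,⟨false,0,⟨0,[]⟩,⟨0,[]⟩⟩,[.o ⟨false,0,⟨0,[(51,0)]⟩,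
  ⟨23,[(16,7),(4,11),(7,7),(4,0),(0,0),(11,11),(6,5)]⟩⟩,.e ⟨true,0,⟨0,[]⟩,⟨5,[(16,1),(12,1),(4,0),
  (0,0)]⟩⟩ ⟨true,0,⟨47,[(15,5),(0,13),(0,11),(11,7),(4,6),(0,6),(0,47),(14,11)]⟩,⟨0,[(0,0)]⟩⟩,.o
  ⟨false,1,⟨1,[(5,0),(0,0),(28,0),(11,0)]⟩,⟨0,[(26,0),(9,0),(2,0),(12,0)]⟩⟩,.a ⟨true,0,⟨0,[(37,0)]⟩,
  ⟨0,[(36,0)]⟩⟩ ⟨false,1,⟨3,[(34,0),(0,0),(17,1)]⟩,⟨3,[(16,0),(12,0),(20,0),(3,0)]⟩⟩ ⟨true,0,⟨0,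
  [(36,0),(14,0)]⟩,⟨0,[(0,0)]⟩⟩]⟩) (.R ⟨0,false,false,true,[1,0,0,-1],[0,1],[1,1],(⟨0,[(36,0)]⟩,⟨0,
  [(37,0)]⟩),(⟨0,[(49,0)]⟩,⟨0,[(48,0)]⟩),⟨0,[(4,0)]⟩,.k,.k,(.x (-1) ⟨15,[(9,3),(14,3),(9,6),(0,6),
  (11,1)]⟩ ⟨0,[(49,0)]⟩),(.x (-1) ⟨15,[(9,3),(14,3),(9,6),(0,6),(11,1)]⟩ ⟨0,[(49,0)]⟩),.k,.k,⟨false,
  1,⟨1,[(21,0),(31,0),(2,0)]⟩,⟨47,[(15,5),(0,13),(0,11),(11,7),(4,6),(0,6),(15,11)]⟩⟩,⟨true,0,⟨0,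
  [(36,0)]⟩,⟨14,[(4,4),(4,1),(6,3),(11,0),(8,9),(1,5),(7,3)]⟩⟩,⟨false,1,⟨3,[(34,0),(0,2)]⟩,⟨25,[(2,
  21),(13,4),(2,10),(14,1),(1,21),(2,9),(7,2),(2,1)]⟩⟩,⟨true,0,⟨0,[(3,0),(28,0),(3,0),(3,0)]⟩,⟨0,
  [(2,0),(17,0),(19,0)]⟩⟩,⟨false,0,⟨0,[]⟩,⟨0,[]⟩⟩,⟨false,0,⟨0,[]⟩,⟨0,[]⟩⟩,[.o ⟨false,0,⟨0,[(51,0)]⟩,
  ⟨23,[(16,7),(4,11),(7,7),(4,0),(0,0),(11,11),(6,5)]⟩⟩,.a ⟨true,0,⟨0,[(0,0),(36,0)]⟩,⟨0,[(52,0)]⟩⟩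
  ⟨true,0,⟨0,[]⟩,⟨5,[(16,1),(12,1),(4,0),(0,0)]⟩⟩ ⟨false,0,⟨0,[(0,0)]⟩,⟨5,[(6,1),(14,1),(13,0),(1,
  3),(9,2),(4,1)]⟩⟩,.o ⟨false,1,⟨1,[(5,0),(0,0),(28,0),(11,0)]⟩,⟨0,[(26,0),(9,0),(2,0),(12,0)]⟩⟩,.e
  ⟨false,1,⟨3,[(34,0),(0,0),(17,1)]⟩,⟨3,[(16,0),(12,0),(20,0),(3,0)]⟩⟩ ⟨false,0,⟨0,[(0,0)]⟩,⟨23,
  [(16,7),(4,11),(7,7),(4,0),(0,0),(1,23),(9,11),(6,5)]⟩⟩]⟩))))))) (.I [0,-1,1,0,0,0,0,0,-1] (.I [1,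
  -1,-2,-1,1,0,0,0,1] (.Q [0,0,0,0,0,-1,0,0,0,0,0,1] (.ed false [1,-1,0,1] .k) (.I [1,1,0,0,0,0,0,0,
  1] (.R ⟨1,false,false,false,[0,0,0,1],[0,-1,1],[1,1,0,0,0,0,0,0,1],(⟨0,[(35,0)]⟩,⟨0,[(34,0)]⟩),
  (⟨0,[(20,0)]⟩,⟨0,[(43,0),(3,0)]⟩),⟨0,[(1,0)]⟩,.k,.k,(.r (-1) ⟨1,[(19,0),(13,0),(20,0)]⟩ ⟨5,[(3,3),
  (9,0),(0,0),(8,1),(6,1),(1,0)]⟩),(.r 0 ⟨1,[(13,0),(0,0),(18,0)]⟩ ⟨3,[(3,1),(6,2),(0,2),(18,0),(1,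
  0),(5,0),(11,1)]⟩),.k,.k,⟨false,0,⟨1,[(0,1),(12,0),(17,0)]⟩,⟨0,[(3,0),(6,0),(0,0)]⟩⟩,⟨true,0,⟨0,
  [(24,0),(10,0),(14,0)]⟩,⟨0,[(34,0),(2,0)]⟩⟩,⟨false,0,⟨0,[]⟩,⟨3,[(32,0),(0,0),(18,1)]⟩⟩,⟨false,1,
  ⟨0,[(3,0),(15,0),(3,0),(11,0)]⟩,⟨9,[(4,7),(8,2),(0,0),(15,1),(2,0),(0,1),(4,3),(9,1)]⟩⟩,⟨true,0,
  ⟨0,[(49,0)]⟩,⟨0,[(50,0)]⟩⟩,⟨false,1,⟨3,[(3,3),(1,0),(5,0),(7,2),(3,2),(0,0),(10,3)]⟩,⟨0,[(4,0),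
  (34,0)]⟩⟩,[.a ⟨true,0,⟨0,[(10,0)]⟩,⟨1,[(13,0),(20,0),(0,0)]⟩⟩ ⟨true,0,⟨0,[(0,0)]⟩,⟨0,[(3,0)]⟩⟩
  ⟨false,1,⟨0,[(19,0),(3,0),(11,0)]⟩,⟨11,[(4,3),(8,4),(0,1),(17,1),(1,7),(1,0),(0,3),(1,0),(9,1)]⟩⟩,
  .o ⟨false,1,⟨1,[(10,1),(34,0),(6,0)]⟩,⟨2,[(13,0),(9,0),(12,1)]⟩⟩,.o ⟨false,0,⟨1,[(3,0),(0,0),(29,
  0),(1,0),(1,0)]⟩,⟨1,[(35,1),(9,0),(5,0)]⟩⟩,.o ⟨false,0,⟨2,[(4,1),(9,0),(17,0),(1,0),(2,1),(16,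
  1)]⟩,⟨0,[(11,0),(12,0),(10,0),(14,0)]⟩⟩]⟩) (.Q [0,0,0,0,0,-1,0,0,0,1,0,-1] (.ed true [0,1,0,1]
  .k) (.Q [0,0,0,1,0,0,0,0,0,1,0,-1] (.p false [0,0,0,1] [1] (⟨0,[(36,0)]⟩,⟨0,[(35,0)]⟩) .k 1 (⟨0,
  []⟩,⟨0,[]⟩) .k .k) (.R ⟨1,false,false,true,[1,0,0,-1],[0,1],[1,0,0,0,0,0,0,0,-1],(⟨0,[(36,0)]⟩,⟨0,
  [(37,0)]⟩),(⟨0,[(49,0)]⟩,⟨0,[(48,0)]⟩),⟨0,[(1,0)]⟩,.k,.k,(.x (-1) ⟨15,[(9,3),(14,3),(9,6),(0,6),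
  (11,1)]⟩ ⟨0,[(49,0)]⟩),(.x (-1) ⟨15,[(9,3),(14,3),(9,6),(0,6),(11,1)]⟩ ⟨0,[(49,0)]⟩),(.r (-1) ⟨0,
  [(2,0),(18,0),(34,1)]⟩ ⟨23,[(15,5),(0,13),(0,11),(11,7),(4,0),(0,12),(15,11)]⟩),.k,⟨false,1,⟨1,
  [(2,1),(18,0),(31,0),(2,0)]⟩,⟨2,[(6,0),(9,0),(8,0),(6,1),(2,0),(1,0),(0,0)]⟩⟩,⟨true,0,⟨0,[(36,
  0)]⟩,⟨0,[(26,0),(10,0),(1,0),(12,0)]⟩⟩,⟨true,0,⟨0,[]⟩,⟨0,[(56,0)]⟩⟩,⟨false,0,⟨3,[(0,1),(5,1),(9,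
  0),(15,1),(2,0),(0,0),(0,0)]⟩,⟨11,[(2,9),(18,5),(12,0),(2,11),(0,1),(1,1),(6,4)]⟩⟩,⟨false,1,⟨23,
  [(7,7),(7,3),(18,4),(0,4),(11,1),(6,11)]⟩,⟨0,[(52,0)]⟩⟩,⟨false,0,⟨19,[(0,11),(5,9),(0,5),(7,2),(0,
  4),(15,9),(2,4),(1,1)]⟩,⟨11,[(2,9),(17,1),(0,5),(12,0),(2,11),(2,3),(6,4),(4,9)]⟩⟩,[.o ⟨false,0,
  ⟨0,[(51,0)]⟩,⟨23,[(16,7),(4,11),(7,7),(4,0),(0,0),(11,11),(6,5)]⟩⟩,.a ⟨true,0,⟨0,[(0,0),(36,0)]⟩,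
  ⟨0,[(52,0)]⟩⟩ ⟨true,0,⟨0,[(2,0)]⟩,⟨2,[(4,0),(11,1),(3,0),(8,0),(2,1),(2,0),(4,1)]⟩⟩ ⟨false,0,⟨0,
  [(0,0)]⟩,⟨1,[(21,0),(15,1),(9,0),(8,0)]⟩⟩,.o ⟨false,1,⟨1,[(37,1),(9,0),(5,0)]⟩,⟨4,[(2,0),(3,0),(9,
  0),(19,3),(1,0),(0,1),(0,0),(6,0)]⟩⟩,.e ⟨false,1,⟨3,[(2,1),(31,0),(18,1),(0,0)]⟩,⟨5,[(4,1),(1,1),
  (9,2),(12,1),(2,1),(2,0),(1,1),(0,0),(1,0)]⟩⟩ ⟨false,0,⟨0,[(0,0)]⟩,⟨23,[(16,7),(4,11),(7,7),(4,0),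
  (0,0),(1,23),(9,11),(6,5)]⟩⟩]⟩) (.R ⟨1,false,false,true,[1,0,0,-1],[0,1],[1,0,0,0,0,0,0,0,-1],(⟨0,
  [(36,0)]⟩,⟨0,[(37,0)]⟩),(⟨0,[(49,0)]⟩,⟨0,[(48,0)]⟩),⟨0,[(1,0)]⟩,.k,.k,(.x (-1) ⟨15,[(9,3),(14,3),
  (9,6),(0,6),(11,1)]⟩ ⟨0,[(49,0)]⟩),(.x (-1) ⟨15,[(9,3),(14,3),(9,6),(0,6),(11,1)]⟩ ⟨0,[(49,0)]⟩),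
  (.r (-1) ⟨0,[(2,0),(18,0),(34,1)]⟩ ⟨23,[(15,5),(0,13),(0,11),(11,7),(4,0),(0,12),(15,11)]⟩),.k,
  ⟨false,1,⟨1,[(2,1),(18,0),(31,0),(2,0)]⟩,⟨14,[(0,2),(5,2),(8,0),(0,5),(8,3),(6,11),(2,5),(2,1)]⟩⟩,
  ⟨true,0,⟨0,[(36,0)]⟩,⟨19,[(0,4),(14,0),(0,4),(0,0),(7,0),(11,14),(1,8),(7,4)]⟩⟩,⟨true,0,⟨0,[]⟩,⟨0,
  [(56,0)]⟩⟩,⟨false,0,⟨11,[(6,5),(0,1),(7,0),(0,2),(15,5),(2,2),(0,7),(0,1)]⟩,⟨3,[(0,3),(1,1),(31,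
  0),(18,1),(0,0)]⟩⟩,⟨false,1,⟨23,[(7,7),(7,3),(18,4),(0,4),(11,1),(6,11)]⟩,⟨0,[(52,0)]⟩⟩,⟨false,0,
  ⟨3,[(6,1),(0,1),(7,0),(0,0),(15,1),(2,0),(0,1)]⟩,⟨7,[(0,7),(1,1),(18,3),(12,2),(19,0)]⟩⟩,[.o
  ⟨false,0,⟨0,[(51,0)]⟩,⟨23,[(16,7),(4,11),(7,7),(4,0),(0,0),(11,11),(6,5)]⟩⟩,.e ⟨true,0,⟨0,[(2,
  0)]⟩,⟨6,[(0,2),(5,2),(5,0),(3,1),(15,3),(2,1),(5,0),(14,4)]⟩⟩ ⟨true,0,⟨9,[(6,1),(8,0),(0,2),(0,1),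
  (14,3),(1,1),(0,0),(0,7)]⟩,⟨0,[(0,0)]⟩⟩,.o ⟨false,1,⟨1,[(37,1),(9,0),(5,0)]⟩,⟨4,[(2,0),(3,0),(9,
  0),(19,3),(1,0),(0,1),(0,0),(6,0)]⟩⟩,.a ⟨true,0,⟨0,[(37,0)]⟩,⟨0,[(36,0)]⟩⟩ ⟨false,1,⟨3,[(2,1),(31,
  0),(18,1),(0,0)]⟩,⟨15,[(0,4),(5,7),(5,1),(3,3),(3,0),(11,7),(2,3),(1,2)]⟩⟩ ⟨true,0,⟨0,[(36,0),(14,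
  0)]⟩,⟨0,[(0,0)]⟩⟩]⟩)) (.R ⟨0,false,false,true,[1,0,0,-1],[0,0,1],[1,0,0,0,0,0,0,0,-1],(⟨0,[(35,
  0)]⟩,⟨0,[(36,0)]⟩),(⟨0,[(45,0)]⟩,⟨0,[(44,0)]⟩),⟨0,[(0,0)]⟩,.k,.k,(.x (-1) ⟨15,[(8,3),(14,3),(9,6),
  (0,6),(11,1)]⟩ ⟨0,[(48,0)]⟩),.k,.k,.k,⟨true,0,⟨0,[(1,0),(41,0)]⟩,⟨11,[(0,4),(1,4),(2,9),(5,3),(3,
  0),(15,13),(2,0),(4,7),(11,9)]⟩⟩,⟨false,0,⟨0,[(25,0),(9,0),(15,0)]⟩,⟨19,[(12,11),(15,3),(4,2),(0,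
  2),(1,19),(9,1)]⟩⟩,⟨true,0,⟨0,[]⟩,⟨0,[(55,0)]⟩⟩,⟨false,0,⟨20,[(5,14),(0,1),(4,9),(3,2),(15,5),(2,
  2),(0,5),(3,8)]⟩,⟨7,[(0,3),(0,1),(0,3),(11,3),(5,3),(12,2),(19,0)]⟩⟩,⟨false,0,⟨0,[]⟩,⟨0,[]⟩⟩,
  ⟨false,0,⟨0,[]⟩,⟨0,[]⟩⟩,[.o ⟨false,0,⟨0,[(39,0)]⟩,⟨7,[(18,3),(14,0),(0,0),(11,1),(6,3)]⟩⟩,.e
  ⟨true,0,⟨0,[(1,0)]⟩,⟨7,[(0,0),(1,0),(2,1),(9,2),(3,1),(11,5),(2,2),(4,3),(11,3)]⟩⟩ ⟨true,0,⟨10,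
  [(5,3),(5,2),(3,1),(0,0),(5,0),(5,0),(4,1),(1,6),(3,5)]⟩,⟨1,[(0,0),(1,0),(15,0)]⟩⟩,.o ⟨false,1,⟨1,
  [(36,1),(9,0),(5,0)]⟩,⟨4,[(1,0),(3,0),(9,0),(19,3),(1,0),(0,1),(0,0),(6,0)]⟩⟩,.a ⟨true,0,⟨0,[(36,
  0)]⟩,⟨0,[(35,0)]⟩⟩ ⟨false,1,⟨3,[(1,1),(31,0),(18,1),(0,0)]⟩,⟨3,[(0,0),(1,0),(2,1),(9,0),(15,1),(2,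
  0),(16,1)]⟩⟩ ⟨true,0,⟨0,[(35,0),(3,0)]⟩,⟨1,[(0,0),(1,0),(15,0)]⟩⟩]⟩))) (.I [1,0,0,0,0,0,0,0,-1]
  (.R ⟨1,false,false,true,[1,0,0,-1],[0,1],[1,1,0,0,0,0,0,0,-1],(⟨0,[(34,0)]⟩,⟨0,[(35,0)]⟩),(⟨0,
  [(47,0)]⟩,⟨0,[(46,0)]⟩),⟨2,[(1,0),(5,0),(14,0),(11,1)]⟩,.k,.k,(.x (-1) ⟨15,[(7,3),(14,3),(9,6),(0,
  6),(11,1)]⟩ ⟨0,[(47,0)]⟩),(.x (-1) ⟨15,[(7,3),(14,3),(9,6),(0,6),(11,1)]⟩ ⟨0,[(47,0)]⟩),(.r (-1)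
  ⟨0,[(0,0),(18,0),(34,0)]⟩ ⟨23,[(13,5),(0,13),(0,11),(11,7),(4,0),(0,12),(15,11)]⟩),.k,⟨false,1,⟨1,
  [(0,1),(18,0),(31,0),(2,0)]⟩,⟨5,[(4,3),(8,0),(0,0),(8,1),(6,1),(2,0),(1,3)]⟩⟩,⟨true,0,⟨0,[(34,
  0)]⟩,⟨0,[(24,0),(10,0),(1,0),(12,0)]⟩⟩,⟨false,0,⟨0,[]⟩,⟨3,[(32,0),(0,0),(18,1)]⟩⟩,⟨false,0,⟨11,
  [(4,5),(0,1),(7,0),(0,2),(15,5),(2,2),(0,7),(0,1)]⟩,⟨2,[(0,2),(10,0),(7,0),(4,0),(10,2),(9,0),(2,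
  0),(1,1)]⟩⟩,⟨true,0,⟨0,[(49,0)]⟩,⟨0,[(50,0)]⟩⟩,⟨false,0,⟨3,[(4,1),(0,1),(7,0),(0,0),(15,1),(2,0),
  (0,1)]⟩,⟨2,[(0,2),(10,0),(7,0),(4,0),(10,2),(9,0),(2,0),(1,4)]⟩⟩,[.o ⟨false,0,⟨0,[(49,0)]⟩,⟨23,
  [(14,7),(4,11),(7,7),(4,0),(0,0),(11,11),(6,5)]⟩⟩,.a ⟨true,0,⟨5,[(5,1),(7,0),(20,4),(0,4)]⟩,⟨0,
  [(50,0)]⟩⟩ ⟨true,0,⟨0,[(0,0)]⟩,⟨5,[(2,1),(1,1),(9,2),(12,1),(2,1),(2,0),(1,1),(0,0),(1,0)]⟩⟩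
  ⟨false,0,⟨17,[(1,3),(3,5),(1,0),(5,2),(8,0),(11,13)]⟩,⟨1,[(19,0),(15,1),(9,0),(8,0)]⟩⟩,.o ⟨false,
  1,⟨1,[(35,1),(9,0),(5,0)]⟩,⟨14,[(1,4),(5,1),(6,3),(11,0),(7,9),(2,5),(7,3)]⟩⟩,.e ⟨false,1,⟨1,[(32,
  0),(18,0)]⟩,⟨0,[(4,0),(30,0)]⟩⟩ ⟨false,0,⟨17,[(1,3),(3,5),(1,0),(5,2),(8,0),(11,13)]⟩,⟨23,[(14,7),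
  (4,11),(7,7),(4,0),(0,0),(1,23),(9,11),(6,5)]⟩⟩]⟩) (.R ⟨0,false,false,false,[0,0,0,1],[0,-1,1],[1,
  0,0,0,0,0,0,0,1],(⟨0,[(35,0)]⟩,⟨0,[(34,0)]⟩),(⟨0,[(20,0)]⟩,⟨0,[(43,0),(3,0)]⟩),⟨0,[(1,0)]⟩,.k,.k,
  (.r (-1) ⟨1,[(19,0),(13,0),(20,0)]⟩ ⟨5,[(3,3),(9,0),(0,0),(8,1),(6,1),(1,0)]⟩),(.r 0 ⟨1,[(13,0),
  (0,0),(18,0)]⟩ ⟨3,[(3,1),(6,2),(0,2),(18,0),(1,0),(5,0),(11,1)]⟩),.k,.k,⟨false,0,⟨1,[(0,1),(12,0),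
  (17,0)]⟩,⟨3,[(3,1),(6,2),(0,2),(18,0),(1,0),(5,0),(11,1)]⟩⟩,⟨true,0,⟨0,[(24,0),(10,0),(14,0)]⟩,⟨0,
  [(34,0),(2,0)]⟩⟩,⟨true,0,⟨0,[]⟩,⟨0,[(54,0)]⟩⟩,⟨false,1,⟨0,[(3,0),(15,0),(3,0),(11,0)]⟩,⟨9,[(4,7),
  (8,2),(0,0),(15,1),(2,0),(0,1),(4,3),(9,1)]⟩⟩,⟨false,0,⟨0,[]⟩,⟨0,[]⟩⟩,⟨false,0,⟨0,[]⟩,⟨0,[]⟩⟩,[.a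
  ⟨true,0,⟨0,[(10,0)]⟩,⟨1,[(13,0),(20,0),(0,0)]⟩⟩ ⟨true,0,⟨0,[(0,0)]⟩,⟨0,[(3,0),(50,0)]⟩⟩ ⟨false,1,
  ⟨0,[(19,0),(3,0),(11,0)]⟩,⟨11,[(4,3),(8,4),(0,1),(17,1),(1,7),(1,0),(0,3),(1,0),(9,1)]⟩⟩,.o
  ⟨false,1,⟨1,[(10,1),(34,0),(6,0)]⟩,⟨2,[(13,0),(9,0),(12,1)]⟩⟩,.o ⟨false,0,⟨14,[(1,4),(5,1),(6,3),
  (11,0),(7,9),(2,5),(7,3)]⟩,⟨1,[(35,1),(9,0),(5,0)]⟩⟩,.o ⟨false,0,⟨2,[(4,1),(9,0),(17,0),(1,0),(2,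
  1),(16,1)]⟩,⟨0,[(11,0),(12,0),(10,0),(14,0)]⟩⟩]⟩))) (.Q [0,0,0,0,0,-1,0,0,0,1,0,-1] (.ed true [0,
  1,0,1] .k) (.Q [0,0,0,1,0,0,0,0,0,1,0,-1] (.p false [0,0,0,1] [1] (⟨0,[(34,0)]⟩,⟨0,[(33,0)]⟩) .k
  1 (⟨0,[]⟩,⟨0,[]⟩) .k .k) (.R ⟨1,false,false,true,[1,0,0,-1],[0,1],[1,1,0,0,0,0,0,0,-1],(⟨0,[(34,
  0)]⟩,⟨0,[(35,0)]⟩),(⟨0,[(47,0)]⟩,⟨0,[(46,0)]⟩),⟨0,[(1,0)]⟩,.k,.k,(.x (-1) ⟨15,[(7,3),(14,3),(9,6),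
  (0,6),(11,1)]⟩ ⟨0,[(47,0)]⟩),(.x (-1) ⟨15,[(7,3),(14,3),(9,6),(0,6),(11,1)]⟩ ⟨0,[(47,0)]⟩),(.r
  (-1) ⟨1,[(2,1),(16,2),(31,0),(2,0)]⟩ ⟨3,[(2,1),(10,0),(0,0),(0,1),(17,2)]⟩),.k,⟨false,1,⟨0,[(2,0),
  (16,0),(31,0)]⟩,⟨5,[(4,3),(8,0),(0,0),(8,1),(6,1),(2,0),(1,3)]⟩⟩,⟨true,0,⟨0,[(34,0)]⟩,⟨0,[(24,0),
  (10,0),(1,0),(12,0)]⟩⟩,⟨false,0,⟨0,[]⟩,⟨3,[(32,0),(0,0),(18,1)]⟩⟩,⟨false,0,⟨3,[(0,1),(3,1),(9,0),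
  (15,1),(2,0),(0,0),(0,0)]⟩,⟨6,[(2,5),(0,0),(7,2),(7,7),(4,2),(10,6),(9,1),(2,1)]⟩⟩,⟨true,0,⟨0,
  [(49,0)]⟩,⟨0,[(50,0)]⟩⟩,⟨false,0,⟨19,[(0,11),(3,9),(0,5),(7,2),(0,4),(15,9),(2,4),(1,1)]⟩,⟨2,[(2,
  2),(8,0),(7,3),(4,0),(10,2),(9,0),(2,0),(1,1)]⟩⟩,[.o ⟨false,0,⟨0,[(49,0)]⟩,⟨23,[(14,7),(4,11),(7,
  7),(4,0),(0,0),(11,11),(6,5)]⟩⟩,.a ⟨true,0,⟨0,[(0,0),(34,0)]⟩,⟨0,[(50,0)]⟩⟩ ⟨true,0,⟨4,[(2,4),(2,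
  0),(3,0),(1,0),(7,3)]⟩,⟨5,[(4,3),(9,0),(3,0),(11,1),(2,0),(1,3),(2,1),(11,0)]⟩⟩ ⟨false,0,⟨0,[(0,
  0)]⟩,⟨1,[(19,0),(15,1),(9,0),(8,0)]⟩⟩,.o ⟨false,1,⟨1,[(35,1),(9,0),(5,0)]⟩,⟨2,[(2,0),(1,0),(29,1),
  (10,0),(4,0)]⟩⟩,.e ⟨false,1,⟨1,[(32,0),(18,0)]⟩,⟨0,[(4,0),(30,0)]⟩⟩ ⟨false,0,⟨0,[(0,0)]⟩,⟨23,[(14,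
  7),(4,11),(7,7),(4,0),(0,0),(1,23),(9,11),(6,5)]⟩⟩]⟩) (.R ⟨1,false,false,true,[1,0,0,-1],[0,1],[1,
  1,0,0,0,0,0,0,-1],(⟨0,[(34,0)]⟩,⟨0,[(35,0)]⟩),(⟨0,[(47,0)]⟩,⟨0,[(46,0)]⟩),⟨0,[(1,0)]⟩,.k,.k,(.x
  (-1) ⟨15,[(7,3),(14,3),(9,6),(0,6),(11,1)]⟩ ⟨0,[(47,0)]⟩),(.x (-1) ⟨15,[(7,3),(14,3),(9,6),(0,6),
  (11,1)]⟩ ⟨0,[(47,0)]⟩),(.r (-1) ⟨1,[(2,1),(16,2),(31,0),(2,0)]⟩ ⟨3,[(2,1),(10,0),(0,0),(0,1),(17,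
  2)]⟩),.k,⟨false,1,⟨0,[(2,0),(16,0),(31,0)]⟩,⟨19,[(0,7),(3,9),(0,5),(7,2),(0,4),(15,9),(2,4),(1,
  1)]⟩⟩,⟨true,0,⟨0,[(34,0)]⟩,⟨23,[(0,7),(1,1),(10,0),(0,4),(0,1),(17,0),(1,15),(1,7),(7,5)]⟩⟩,
  ⟨false,0,⟨0,[]⟩,⟨3,[(32,0),(0,0),(18,1)]⟩⟩,⟨false,0,⟨11,[(4,5),(0,1),(7,0),(0,2),(15,5),(2,2),(0,
  7),(0,1)]⟩,⟨14,[(0,14),(2,4),(1,3),(3,3),(1,3),(7,5),(12,4)]⟩⟩,⟨true,0,⟨0,[(49,0)]⟩,⟨0,[(50,0)]⟩⟩,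
  ⟨false,0,⟨3,[(4,1),(0,1),(7,0),(0,0),(15,1),(2,0),(0,1)]⟩,⟨14,[(0,14),(2,4),(1,0),(3,0),(1,0),(7,
  8),(12,4)]⟩⟩,[.o ⟨false,0,⟨0,[(49,0)]⟩,⟨23,[(14,7),(4,11),(7,7),(4,0),(0,0),(11,11),(6,5)]⟩⟩,.e
  ⟨true,0,⟨4,[(2,4),(2,0),(3,0),(1,0),(7,3)]⟩,⟨15,[(0,4),(3,7),(5,1),(3,3),(3,0),(11,7),(2,3),(1,
  2)]⟩⟩ ⟨true,0,⟨7,[(2,1),(10,0),(0,0),(0,1),(16,0),(0,1),(0,7)]⟩,⟨0,[(0,0)]⟩⟩,.o ⟨false,1,⟨1,[(35,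
  1),(9,0),(5,0)]⟩,⟨2,[(2,0),(1,0),(29,1),(10,0),(4,0)]⟩⟩,.a ⟨true,0,⟨0,[(35,0)]⟩,⟨0,[(34,0)]⟩⟩
  ⟨false,1,⟨1,[(32,0),(18,0)]⟩,⟨0,[(4,0),(30,0)]⟩⟩ ⟨true,0,⟨0,[(34,0),(14,0)]⟩,⟨0,[(0,0)]⟩⟩]⟩)) (.I
  [1,0,1,0,0,0,0,1,1] (.R ⟨0,false,false,true,[1,0,0,-1],[0,0,1],[0,1,0,0,0,0,0,0,-1],(⟨0,[(34,0)]⟩,
  ⟨0,[(35,0)]⟩),(⟨0,[(44,0)]⟩,⟨0,[(43,0)]⟩),⟨0,[(1,0)]⟩,.k,.k,(.x (-1) ⟨15,[(7,3),(14,3),(9,6),(0,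
  6),(11,1)]⟩ ⟨0,[(47,0)]⟩),.k,.k,.k,⟨true,0,⟨2,[(2,2),(6,0),(9,1),(22,1),(8,0)]⟩,⟨0,[(0,0)]⟩⟩,
  ⟨false,0,⟨0,[(24,0),(9,0),(15,0)]⟩,⟨19,[(11,11),(15,3),(4,2),(0,2),(1,19),(9,1)]⟩⟩,⟨true,0,⟨0,
  [(54,0)]⟩,⟨0,[]⟩⟩,⟨false,0,⟨20,[(0,5),(3,8),(0,1),(4,3),(3,2),(18,2),(0,11),(3,8)]⟩,⟨35,[(1,19),
  (1,11),(3,4),(1,5),(1,5),(1,14),(5,17),(2,4),(9,11),(2,15)]⟩⟩,⟨false,0,⟨0,[]⟩,⟨0,[]⟩⟩,⟨false,0,⟨0,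
  []⟩,⟨0,[]⟩⟩,[.o ⟨false,0,⟨0,[(38,0)]⟩,⟨7,[(17,3),(14,0),(0,0),(11,1),(6,3)]⟩⟩,.e ⟨true,0,⟨4,[(2,
  4),(2,0),(3,0),(1,0),(7,3)]⟩,⟨3,[(0,1),(13,0),(2,0),(15,0)]⟩⟩ ⟨true,0,⟨46,[(0,1),(1,4),(1,20),(5,
  16),(3,3),(0,5),(16,8),(1,25),(3,21)]⟩,⟨5,[(1,3),(5,0),(9,2),(4,0),(12,1)]⟩⟩,.o ⟨false,1,⟨1,[(35,
  1),(9,0),(5,0)]⟩,⟨2,[(2,0),(1,0),(29,1),(10,0),(4,0)]⟩⟩,.a ⟨true,0,⟨0,[(35,0)]⟩,⟨0,[(34,0)]⟩⟩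
  ⟨false,1,⟨1,[(32,0),(18,0)]⟩,⟨0,[(4,0),(30,0)]⟩⟩ ⟨true,0,⟨0,[(34,0),(3,0)]⟩,⟨5,[(1,3),(5,0),(9,2),
  (4,0),(12,1)]⟩⟩]⟩) (.R ⟨0,false,false,true,[1,0,0,-1],[0,0,1],[0,1,1,0,0,0,0,1],(⟨0,[(34,0)]⟩,⟨0,
  [(35,0)]⟩),(⟨0,[(44,0)]⟩,⟨0,[(43,0)]⟩),⟨0,[(1,0)]⟩,.k,.k,(.x (-1) ⟨15,[(7,3),(14,3),(9,6),(0,6),
  (11,1)]⟩ ⟨0,[(47,0)]⟩),.k,.k,.k,⟨true,0,⟨5,[(14,1),(12,1),(4,0),(0,0)]⟩,⟨0,[]⟩⟩,⟨false,0,⟨2,[(0,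
  0),(3,0),(26,0),(2,1),(3,0)]⟩,⟨19,[(11,11),(15,3),(4,2),(0,2),(1,19),(9,1)]⟩⟩,⟨true,0,⟨0,[(4,0),
  (25,0),(4,0),(2,0),(11,0)]⟩,⟨0,[(0,0)]⟩⟩,⟨false,0,⟨20,[(4,14),(0,1),(4,9),(3,2),(15,5),(2,2),(0,
  5),(3,8)]⟩,⟨11,[(0,5),(0,4),(5,1),(3,3),(5,2),(8,0),(5,2),(2,6),(12,0),(3,4)]⟩⟩,⟨false,0,⟨0,[]⟩,
  ⟨0,[]⟩⟩,⟨false,0,⟨0,[]⟩,⟨0,[]⟩⟩,[.o ⟨false,0,⟨0,[(38,0)]⟩,⟨7,[(17,3),(14,0),(0,0),(11,1),(6,3)]⟩⟩,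
  .e ⟨true,0,⟨17,[(10,5),(3,1),(6,5),(5,7),(4,0),(0,0),(4,5)]⟩,⟨0,[(42,0)]⟩⟩ ⟨true,0,⟨14,[(2,2),(1,
  8),(0,1),(4,6),(21,2),(1,5),(3,5)]⟩,⟨5,[(1,3),(5,0),(9,2),(4,0),(12,1)]⟩⟩,.o ⟨false,1,⟨1,[(35,1),
  (9,0),(5,0)]⟩,⟨2,[(2,0),(1,0),(29,1),(10,0),(4,0)]⟩⟩,.a ⟨true,0,⟨0,[(35,0)]⟩,⟨0,[(34,0)]⟩⟩ ⟨false,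
  1,⟨7,[(10,3),(0,1),(3,1),(11,1),(4,2),(0,2),(4,1)]⟩,⟨0,[(28,0)]⟩⟩ ⟨true,0,⟨0,[(34,0),(3,0)]⟩,⟨5,
  [(1,3),(5,0),(9,2),(4,0),(12,1)]⟩⟩]⟩)))) (.Q [0,0,0,0,0,-1,0,0,0,1,0,-1] (.ed true [0,1,0,1] .k)
  (.Q [0,0,0,0,0,0,-1,-1,0,0,1,-1] (.p true [0,0,1] [0,0,0,1] (⟨0,[(42,0)]⟩,⟨0,[(41,0)]⟩) .k 2 (⟨0,
  [(33,0)]⟩,⟨0,[(32,0)]⟩) .k (.r (-1) ⟨7,[(8,3),(0,1),(3,1),(11,1),(4,4),(0,0),(4,1)]⟩ ⟨3,[(1,1),(5,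
  0),(4,0),(3,0),(9,0),(4,0)]⟩)) (.Q [0,0,-1,0,1,0,1,1,-1,0,-1,1] (.p false [0,0,1] [0,0,0,1] (⟨0,
  [(43,0)]⟩,⟨0,[(42,0)]⟩) .k 2 (⟨0,[(34,0)]⟩,⟨0,[(33,0)]⟩) .k (.r (-1) ⟨7,[(9,3),(0,1),(3,1),(11,1),
  (4,4),(0,0),(4,1)]⟩ ⟨3,[(2,1),(5,0),(4,0),(3,0),(9,0),(4,0)]⟩)) (.R ⟨1,false,false,false,[1,0,0,
  -1],[1,0,-1],[1,1,0,0,0,0,0,0,-1],(⟨0,[(34,0)]⟩,⟨0,[(35,0)]⟩),(⟨0,[(43,0)]⟩,⟨0,[(44,0)]⟩),⟨0,[(2,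
  0)]⟩,.k,.k,(.x (-1) ⟨15,[(7,3),(14,3),(9,6),(0,6),(11,1)]⟩ ⟨0,[(47,0)]⟩),.k,(.x 0 ⟨1,[(7,0),(16,
  1),(19,0),(5,1)]⟩ ⟨29,[(12,17),(1,9),(11,5),(0,9),(4,10),(0,10)]⟩),.k,⟨false,1,⟨1,[(10,0),(0,0),
  (18,0),(1,0),(5,0)]⟩,⟨7,[(3,5),(5,0),(4,0),(3,0),(9,4),(4,0),(14,3)]⟩⟩,⟨true,0,⟨0,[(34,0),(2,0)]⟩,
  ⟨0,[(24,0),(10,0),(14,0)]⟩⟩,⟨false,0,⟨0,[]⟩,⟨3,[(32,0),(0,0),(18,1)]⟩⟩,⟨false,0,⟨1,[(4,1),(12,0),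
  (16,0),(0,0)]⟩,⟨0,[(0,0)]⟩⟩,⟨true,0,⟨0,[(49,0)]⟩,⟨0,[(50,0)]⟩⟩,⟨false,0,⟨1,[(4,1),(8,0),(20,0),(0,
  0)]⟩,⟨0,[(0,0),(49,0)]⟩⟩,[.e ⟨false,1,⟨1,[(32,0),(18,0),(2,1)]⟩,⟨0,[(3,0),(5,0),(5,0),(34,2)]⟩⟩
  ⟨false,0,⟨0,[(1,0)]⟩,⟨23,[(0,12),(2,2),(11,3),(3,5),(4,3),(8,4),(1,10),(2,6)]⟩⟩,.o ⟨false,1,⟨7,
  [(17,3),(14,0),(0,0),(11,1),(6,3)]⟩,⟨0,[(38,0)]⟩⟩,.o ⟨false,1,⟨1,[(35,1),(9,0),(5,0)]⟩,⟨6,[(1,3),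
  (2,1),(9,0),(17,0),(1,0),(2,1),(0,3),(9,0)]⟩⟩,.a ⟨true,0,⟨0,[(35,0)]⟩,⟨0,[(34,0)]⟩⟩ ⟨false,1,⟨1,
  [(32,0),(18,0)]⟩,⟨0,[(4,0),(30,0)]⟩⟩ ⟨true,0,⟨0,[(1,0)]⟩,⟨0,[(35,0),(2,0)]⟩⟩]⟩) (.K ⟨0,[0,0,0,1],
  0,(-1),(⟨0,[(35,0)]⟩,⟨0,[(34,0)]⟩),.k,(.r 0 ⟨0,[(0,0),(18,0),(3,0),(11,0)]⟩ ⟨47,[(13,5),(0,13),(0,
  11),(11,7),(4,42),(0,18),(15,11)]⟩),(.x 0 ⟨0,[(47,0)]⟩ ⟨15,[(7,3),(14,3),(9,6),(0,6),(11,1)]⟩),.k,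
  .k,[⟨0,[(35,0)]⟩,⟨0,[(34,0)]⟩,⟨1,[(32,0),(2,1),(15,0),(2,1)]⟩,⟨0,[(0,0),(37,0)]⟩]⟩)) (.R ⟨1,false,
  false,false,[1,0,0,-1],[1,0,-1],[1,1,0,0,0,0,0,0,-1],(⟨0,[(33,0)]⟩,⟨0,[(34,0)]⟩),(⟨0,[(42,0)]⟩,⟨0,
  [(43,0)]⟩),⟨0,[(1,0)]⟩,.k,.k,(.x (-1) ⟨15,[(6,3),(14,3),(9,6),(0,6),(11,1)]⟩ ⟨0,[(46,0)]⟩),.k,(.x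
  0 ⟨1,[(6,0),(16,1),(19,0),(5,1)]⟩ ⟨29,[(11,17),(1,9),(11,5),(0,9),(4,10),(0,10)]⟩),.k,⟨false,1,⟨1,
  [(9,0),(0,0),(18,0),(1,0),(5,0)]⟩,⟨7,[(2,5),(5,0),(4,0),(3,0),(9,4),(4,0),(14,3)]⟩⟩,⟨true,0,⟨0,
  [(33,0),(2,0)]⟩,⟨0,[(0,0),(40,0)]⟩⟩,⟨false,0,⟨0,[]⟩,⟨3,[(31,0),(0,0),(18,1)]⟩⟩,⟨false,0,⟨1,[(3,1),
  (12,0),(16,0),(0,0)]⟩,⟨1,[(0,1),(30,0),(18,0)]⟩⟩,⟨true,0,⟨0,[(48,0)]⟩,⟨0,[(49,0)]⟩⟩,⟨false,0,⟨1,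
  [(3,1),(8,0),(20,0),(0,0)]⟩,⟨1,[(0,1),(17,0),(12,0),(21,0)]⟩⟩,[.a ⟨true,0,⟨1,[(16,0),(16,0),(0,
  0)]⟩,⟨0,[(7,0)]⟩⟩ ⟨false,1,⟨1,[(31,0),(18,0),(2,1)]⟩,⟨0,[(2,0),(5,0),(5,0),(34,2)]⟩⟩ ⟨true,0,⟨9,
  [(3,3),(9,1),(2,2),(9,1),(4,1),(1,5),(1,2),(2,0)]⟩,⟨0,[(0,0)]⟩⟩,.o ⟨false,1,⟨7,[(16,3),(14,0),(0,
  0),(11,1),(6,3)]⟩,⟨0,[(37,0)]⟩⟩,.o ⟨false,1,⟨1,[(34,1),(9,0),(5,0)]⟩,⟨0,[(23,0),(9,0),(2,0),(12,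
  0)]⟩⟩,.e ⟨false,1,⟨1,[(31,0),(18,0)]⟩,⟨0,[(3,0),(30,0)]⟩⟩ ⟨false,1,⟨7,[(16,3),(14,0),(0,0),(0,7),
  (10,1),(6,3)]⟩,⟨0,[(0,0)]⟩⟩]⟩)) (.I [0,0,1,1,0,0,0,0,-1] (.R ⟨0,false,false,false,[1,0,0,-1],[1,
  -1],[1,0,0,-1,0,0,0,0,-1],(⟨0,[(33,0)]⟩,⟨0,[(34,0)]⟩),(⟨0,[(45,0)]⟩,⟨0,[(46,0)]⟩),⟨0,[(1,0)]⟩,.k,
  .k,(.x (-1) ⟨15,[(6,3),(14,3),(9,6),(0,6),(11,1)]⟩ ⟨0,[(46,0)]⟩),(.r 0 ⟨0,[(0,0)]⟩ ⟨1,[(18,0),(13,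
  0),(20,0)]⟩),.k,.k,⟨true,0,⟨0,[(0,0),(48,0)]⟩,⟨1,[(2,0),(0,0),(30,0)]⟩⟩,⟨false,0,⟨0,[(23,0),(9,0),
  (2,0),(12,0)]⟩,⟨0,[(34,0),(15,0)]⟩⟩,⟨true,0,⟨0,[(49,0)]⟩,⟨0,[(48,0)]⟩⟩,⟨false,0,⟨0,[(3,0),(45,
  0)]⟩,⟨13,[(4,3),(5,1),(1,1),(10,1),(7,6),(2,13),(15,4)]⟩⟩,⟨false,0,⟨0,[]⟩,⟨0,[]⟩⟩,⟨false,0,⟨0,[]⟩,
  ⟨0,[]⟩⟩,[.a ⟨true,0,⟨0,[(49,0)]⟩,⟨5,[(4,1),(7,0),(20,4),(0,4)]⟩⟩ ⟨false,1,⟨1,[(18,0),(12,0),(21,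
  0)]⟩,⟨11,[(2,7),(0,1),(4,1),(3,0),(0,0),(0,3),(17,0),(1,1)]⟩⟩ ⟨true,0,⟨0,[(23,0),(9,0),(2,0),(12,
  1)]⟩,⟨17,[(1,3),(2,5),(1,0),(5,2),(8,0),(12,13)]⟩⟩,.o ⟨false,1,⟨23,[(13,7),(4,11),(7,7),(4,0),(0,
  0),(11,11),(6,5)]⟩,⟨0,[(48,0)]⟩⟩,.o ⟨false,1,⟨1,[(34,1),(9,0),(5,0)]⟩,⟨0,[(23,0),(9,0),(2,0),(12,
  0)]⟩⟩,.e ⟨false,1,⟨0,[(0,0),(17,0)]⟩,⟨18,[(2,4),(9,2),(0,6),(0,5),(11,3),(5,6),(15,0)]⟩⟩ ⟨false,1,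
  ⟨17,[(3,11),(5,3),(7,1),(0,5),(12,6),(0,0),(0,5),(10,3)]⟩,⟨17,[(1,3),(2,5),(1,0),(5,2),(8,0),(12,
  13)]⟩⟩]⟩) (.R ⟨0,false,false,false,[1,0,0,-1],[0,-1,1],[0,1,0,0,0,0,0,0,-1],(⟨0,[(33,0)]⟩,⟨0,[(34,
  0)]⟩),(⟨0,[(19,0)]⟩,⟨0,[(42,0),(3,0)]⟩),⟨0,[(1,0)]⟩,.k,.k,(.x (-1) ⟨15,[(6,3),(14,3),(9,6),(0,6),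
  (11,1)]⟩ ⟨0,[(46,0)]⟩),(.r 0 ⟨1,[(12,0),(0,0),(17,0)]⟩ ⟨30,[(0,4),(8,20),(0,13),(7,3),(1,2),(5,6),
  (5,12),(4,6)]⟩),.k,.k,⟨true,0,⟨3,[(12,0),(0,1),(17,1),(3,0),(2,0),(9,1)]⟩,⟨0,[(0,0),(19,0),(28,
  0)]⟩⟩,⟨false,0,⟨7,[(13,3),(17,0),(0,0),(0,7),(10,1)]⟩,⟨0,[(10,0),(23,0)]⟩⟩,⟨true,0,⟨0,[(53,0)]⟩,
  ⟨0,[]⟩⟩,⟨false,0,⟨0,[(3,0),(5,0)]⟩,⟨5,[(1,3),(4,0),(5,2),(8,0),(9,2),(2,1),(15,2)]⟩⟩,⟨false,0,⟨0,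
  []⟩,⟨0,[]⟩⟩,⟨false,0,⟨0,[]⟩,⟨0,[]⟩⟩,[.a ⟨true,0,⟨0,[(9,0)]⟩,⟨1,[(12,0),(20,0),(0,0)]⟩⟩ ⟨false,1,
  ⟨1,[(31,0),(18,0),(2,1)]⟩,⟨29,[(0,23),(7,1),(3,2),(0,2),(0,7),(17,2),(14,9)]⟩⟩ ⟨true,0,⟨6,[(3,1),
  (5,2),(3,0),(17,0),(1,4),(2,1),(0,3),(9,0),(1,3)]⟩,⟨5,[(1,3),(4,0),(5,2),(8,0),(12,1)]⟩⟩,.o
  ⟨false,1,⟨1,[(9,1),(34,0),(6,0)]⟩,⟨2,[(12,0),(9,0),(12,1)]⟩⟩,.o ⟨false,1,⟨1,[(34,1),(9,0),(5,0)]⟩,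
  ⟨0,[(23,0),(9,0),(2,0),(12,0)]⟩⟩,.e ⟨false,1,⟨1,[(31,0),(18,0)]⟩,⟨0,[(3,0),(30,0)]⟩⟩ ⟨false,1,⟨35,
  [(3,23),(0,7),(4,27),(8,11),(12,14),(0,2),(0,11),(10,5)]⟩,⟨5,[(1,3),(4,0),(5,2),(8,0),(12,
  1)]⟩⟩]⟩)))))) (.R ⟨2,false,false,false,[0,1],[1,0,-1],[1,0,1,0,0,0,0,-1],(⟨0,[]⟩,⟨0,[]⟩),(⟨0,[(37,
  0)]⟩,⟨0,[(38,0)]⟩),⟨0,[]⟩,.k,.k,.k,.k,.k,.k,⟨false,0,⟨0,[]⟩,⟨3,[(26,0),(0,0),(17,1)]⟩⟩,⟨true,0,⟨0,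
  [(31,0)]⟩,⟨4,[(4,0),(3,0),(4,0),(5,2),(13,0)]⟩⟩,⟨false,0,⟨0,[(22,0),(21,0)]⟩,⟨15,[(4,4),(0,3),(3,
  6),(7,3),(3,0),(2,2),(1,5),(0,5)]⟩⟩,⟨true,0,⟨0,[(0,0)]⟩,⟨0,[(2,0),(40,0)]⟩⟩,⟨false,0,⟨0,[(22,0)]⟩,
  ⟨7,[(4,3),(0,1),(3,1),(11,1),(4,2),(0,2),(4,1)]⟩⟩,⟨false,1,⟨7,[(11,3),(14,0),(0,0),(11,1),(6,3)]⟩,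
  ⟨0,[(2,0)]⟩⟩,[.a ⟨true,0,⟨1,[(11,0),(16,0),(0,0)]⟩,⟨0,[(2,0)]⟩⟩ ⟨false,0,⟨0,[(36,0)]⟩,⟨31,[(4,20),
  (0,19),(3,6),(7,3),(3,0),(2,2),(1,5),(0,5)]⟩⟩ ⟨true,0,⟨23,[(8,7),(2,11),(9,7),(4,0),(0,0),(11,
  5)]⟩,⟨0,[(2,0)]⟩⟩,.o ⟨false,1,⟨7,[(11,3),(14,0),(0,0),(11,1),(6,3)]⟩,⟨0,[(32,0)]⟩⟩,.o ⟨false,1,⟨3,
  [(26,0),(0,0),(17,1)]⟩,⟨3,[(0,1),(7,0),(0,0),(21,0),(0,0),(6,0)]⟩⟩,.e ⟨false,0,⟨0,[(22,0)]⟩,⟨7,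
  [(4,3),(0,1),(3,1),(11,1),(4,2),(0,2),(4,1)]⟩⟩ ⟨false,1,⟨7,[(11,3),(14,0),(0,0),(11,1),(6,3)]⟩,⟨0,
  [(2,0)]⟩⟩]⟩))) (.R ⟨2,false,false,false,[0,1],[1,1,-1],[1,0,1,1,0,0,0,-1],(⟨0,[]⟩,⟨0,[]⟩),(⟨0,
  [(35,0),(3,0)]⟩,⟨0,[(12,0)]⟩),⟨0,[]⟩,.k,.k,.k,.k,.k,.k,⟨true,0,⟨0,[]⟩,⟨5,[(6,1),(12,1),(4,0),(0,
  0)]⟩⟩,⟨false,1,⟨19,[(3,11),(15,3),(4,2),(0,2),(11,1)]⟩,⟨4,[(2,0),(3,0),(4,0),(5,2),(13,0)]⟩⟩,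
  ⟨false,0,⟨0,[(20,0)]⟩,⟨7,[(2,3),(0,1),(3,1),(11,1),(4,2),(0,2),(4,1)]⟩⟩,⟨true,0,⟨0,[(0,0)]⟩,⟨0,
  [(2,0),(38,0)]⟩⟩,⟨false,0,⟨0,[(1,0)]⟩,⟨9,[(2,9),(0,1),(15,3),(4,2),(0,2),(11,1)]⟩⟩,⟨false,1,⟨7,
  [(5,3),(18,0),(0,0),(11,1),(6,3)]⟩,⟨0,[(2,0)]⟩⟩,[.a ⟨true,0,⟨1,[(5,0),(20,0),(0,0)]⟩,⟨0,[(2,0)]⟩⟩
  ⟨false,0,⟨1,[(5,0),(17,0)]⟩,⟨19,[(2,19),(0,11),(15,3),(4,2),(0,2),(11,1)]⟩⟩ ⟨true,0,⟨23,[(5,11),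
  (0,7),(12,7),(4,0),(0,0),(11,5)]⟩,⟨0,[(2,0)]⟩⟩,.o ⟨false,1,⟨7,[(5,3),(18,0),(0,0),(11,1),(6,3)]⟩,
  ⟨0,[(30,0),(11,0)]⟩⟩,.o ⟨false,1,⟨3,[(24,0),(0,0),(17,1)]⟩,⟨4,[(0,1),(5,0),(22,1),(0,1),(6,0),(2,
  0)]⟩⟩,.e ⟨false,0,⟨0,[(1,0)]⟩,⟨9,[(2,9),(0,1),(15,3),(4,2),(0,2),(11,1)]⟩⟩ ⟨false,1,⟨7,[(5,3),(18,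
  0),(0,0),(11,1),(6,3)]⟩,⟨0,[(2,0)]⟩⟩]⟩)))

theorem ok79 : chk (cU (-1) true 10) t79 l52 = true := by decide +kernel

noncomputable def t120 : Tre :=
  (.Q [0,0,0,0,0,2,0,0,0,0,-1] (.p false [0,0,1] [] (⟨0,[(28,0)]⟩,⟨0,[(27,0)]⟩) .k 0 (⟨0,[]⟩,⟨0,
  []⟩) .k .k) (.R ⟨0,false,false,true,[0,-1,1],[1,-1,-1],[0,1,0,-1,0,0,0,-1],(⟨0,[(5,0)]⟩,⟨1,[(0,0),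
  (18,0),(0,0),(7,0)]⟩),(⟨0,[(14,0)]⟩,⟨1,[(0,0),(28,2)]⟩),⟨0,[(0,0)]⟩,.k,.k,(.r (-1) ⟨1,[(1,0),(1,
  0),(0,0),(10,0),(19,2)]⟩ ⟨5,[(9,6),(0,4),(1,4),(11,5),(0,3),(7,2)]⟩),.k,.k,.k,⟨true,0,⟨1,[(25,0),
  (0,0)]⟩,⟨0,[]⟩⟩,⟨false,1,⟨2,[(1,1),(10,0),(2,1),(21,0)]⟩,⟨0,[(16,0)]⟩⟩,⟨false,0,⟨2,[(24,1),(0,1),
  (1,3),(5,0)]⟩,⟨0,[(2,0),(1,0),(7,0)]⟩⟩,⟨true,0,⟨0,[(13,0),(1,0),(5,0),(13,0)]⟩,⟨0,[(3,0),(31,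
  0)]⟩⟩,⟨false,0,⟨0,[]⟩,⟨0,[]⟩⟩,⟨false,0,⟨0,[]⟩,⟨0,[]⟩⟩,[.o ⟨false,0,⟨0,[(21,0),(13,0)]⟩,⟨7,[(2,3),
  (14,0),(0,0),(11,1),(6,3)]⟩⟩,.a ⟨true,0,⟨0,[(13,0),(1,0),(19,1)]⟩,⟨1,[(2,0),(16,0),(0,0)]⟩⟩ ⟨true,
  0,⟨0,[(27,0),(7,0)]⟩,⟨3,[(2,1),(9,1),(12,0),(0,0)]⟩⟩ ⟨false,1,⟨0,[(1,0),(11,0),(1,0),(19,0)]⟩,⟨3,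
  [(3,1),(6,1),(14,2),(0,0)]⟩⟩,.o ⟨false,0,⟨0,[(25,0)]⟩,⟨3,[(1,1),(13,1),(14,0),(6,0)]⟩⟩,.e ⟨false,
  1,⟨15,[(4,7),(11,3),(0,2),(0,2),(5,7),(2,7),(2,1)]⟩,⟨0,[(6,0)]⟩⟩ ⟨false,1,⟨0,[(1,0),(11,0),(1,0),
  (19,0)]⟩,⟨1,[(3,0),(6,0),(14,1),(0,0),(6,0)]⟩⟩]⟩) (.Q [0,0,0,-2,0,0,1,1,0,0,-1] (.p false [0,0,1]
  [] (⟨0,[(29,0)]⟩,⟨0,[(28,0)]⟩) .k 0 (⟨0,[]⟩,⟨0,[]⟩) .k .k) (.R ⟨1,false,false,true,[0,0,1],[0,1],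
  [0,1,1],(⟨0,[(30,0)]⟩,⟨0,[(29,0)]⟩),(⟨0,[(33,0)]⟩,⟨0,[(32,0)]⟩),⟨0,[(6,0)]⟩,.k,.k,.k,.k,(.r (-1)
  ⟨4,[(0,2),(1,0),(1,0),(0,3),(10,3)]⟩ ⟨5,[(10,6),(0,4),(1,4),(11,5),(0,3),(7,2)]⟩),.k,⟨true,0,⟨0,
  [(36,0)]⟩,⟨2,[(10,0),(0,1),(1,1),(12,0)]⟩⟩,⟨false,1,⟨3,[(2,0),(0,0),(1,2),(8,1),(1,4)]⟩,⟨0,[(26,
  0)]⟩⟩,⟨false,0,⟨2,[(25,1),(0,1),(1,0),(5,0)]⟩,⟨5,[(2,0),(0,2),(1,2),(7,1),(2,0),(21,1)]⟩⟩,⟨false,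
  0,⟨0,[(14,0),(1,0)]⟩,⟨9,[(0,5),(3,1),(13,1),(0,1),(11,0),(6,4)]⟩⟩,⟨false,0,⟨5,[(10,4),(0,0),(1,0),
  (11,5),(0,1),(7,2)]⟩,⟨15,[(4,7),(0,11),(7,7),(4,0),(0,0),(18,1)]⟩⟩,⟨true,0,⟨2,[(10,1),(3,1),(1,3),
  (8,0)]⟩,⟨0,[(0,0)]⟩⟩,[.o ⟨false,0,⟨0,[(35,0)]⟩,⟨7,[(0,2),(4,0),(17,1),(1,0),(2,1),(2,2),(6,3)]⟩⟩,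
  .a ⟨true,0,⟨3,[(3,0),(10,1),(1,1),(3,2),(0,2)]⟩,⟨0,[(36,0)]⟩⟩ ⟨true,0,⟨1,[(26,0),(0,0)]⟩,⟨0,[]⟩⟩
  ⟨false,1,⟨1,[(16,1),(20,0),(0,0)]⟩,⟨2,[(0,1),(9,0),(17,1)]⟩⟩,.o ⟨false,0,⟨2,[(0,0),(9,1),(17,0)]⟩,
  ⟨11,[(2,1),(10,3),(2,1),(1,2),(0,2),(11,2),(6,0)]⟩⟩,.o ⟨false,0,⟨0,[(26,0)]⟩,⟨3,[(2,1),(13,1),(14,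
  0),(6,0)]⟩⟩]⟩) (.Q [0,-1,0,-1,0,0,1,1,0,1,-1] (.p false [0,0,1] [1] (⟨0,[(30,0)]⟩,⟨0,[(29,0)]⟩)
  .k 1 (⟨0,[]⟩,⟨0,[]⟩) .k .k) (.R ⟨1,false,false,true,[0,-1,1],[1,-1],[1],(⟨0,[(7,0)]⟩,⟨0,[(30,0),
  (3,0)]⟩),(⟨0,[(33,0)]⟩,⟨0,[(34,0)]⟩),⟨0,[(2,0)]⟩,.k,.k,(.r (-1) ⟨1,[(0,0),(2,0),(2,0),(10,0),(7,
  0),(11,0)]⟩ ⟨1,[(1,1),(25,2),(0,0)]⟩),.k,.k,.k,⟨true,0,⟨2,[(1,0),(6,0),(18,0),(7,0)]⟩,⟨0,[(37,0),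
  (3,0)]⟩⟩,⟨false,1,⟨39,[(1,7),(1,23),(0,3),(9,7),(4,4),(0,4),(11,5)]⟩,⟨2,[(0,0),(11,0),(5,0),(7,
  0)]⟩⟩,⟨false,0,⟨1,[(1,0),(25,0),(1,0),(5,0)]⟩,⟨5,[(0,0),(4,0),(0,3),(7,1),(2,1),(1,0),(0,0),(4,
  2)]⟩⟩,⟨true,0,⟨0,[(23,0)]⟩,⟨1,[(0,0),(4,0),(20,0)]⟩⟩,⟨false,0,⟨6,[(1,5),(9,1),(3,0),(11,3),(7,
  2)]⟩,⟨0,[(6,0),(18,0),(2,0)]⟩⟩,⟨false,1,⟨7,[(1,3),(17,0),(0,0),(5,3),(5,3),(6,1)]⟩,⟨0,[(0,0)]⟩⟩,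
  [.a ⟨true,0,⟨0,[(37,0),(3,0)]⟩,⟨0,[(0,0),(0,0)]⟩⟩ ⟨true,0,⟨0,[]⟩,⟨1,[(27,0),(0,0)]⟩⟩ ⟨false,1,⟨0,
  [(3,0),(37,0)]⟩,⟨3,[(12,3),(14,0),(0,0),(6,1)]⟩⟩,.e ⟨false,1,⟨1,[(38,0),(0,0)]⟩,⟨0,[(41,0)]⟩⟩
  ⟨false,1,⟨0,[(3,0)]⟩,⟨1,[(12,1),(14,0),(0,0)]⟩⟩,.o ⟨false,0,⟨0,[(27,0)]⟩,⟨39,[(1,7),(1,23),(0,3),
  (9,7),(4,4),(0,4),(11,5)]⟩⟩,.e ⟨false,1,⟨1,[(38,0),(0,0)]⟩,⟨1,[(27,0),(0,0)]⟩⟩ ⟨false,1,⟨0,[(3,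
  0)]⟩,⟨3,[(12,3),(14,2),(0,2),(6,1)]⟩⟩]⟩) (.Q [0,0,2,0,-1,0,1,0,0,1,-1] (.p false [0,0,1] [1] (⟨0,
  [(31,0)]⟩,⟨0,[(30,0)]⟩) .k 1 (⟨0,[]⟩,⟨0,[]⟩) .k .k) (.K ⟨0,[1,1,-1],1,0,(⟨0,[(31,0),(3,0)]⟩,⟨0,
  [(8,0)]⟩),.k,.k,(.r 0 ⟨3,[(0,3),(1,3),(17,0),(0,0),(11,1)]⟩ ⟨1,[(4,0),(1,0),(0,0),(10,0),(19,
  2)]⟩),.k,.k,[⟨0,[(0,0)]⟩,⟨5,[(2,1),(1,0),(0,0),(1,4),(10,4)]⟩,⟨1,[(0,0),(5,0),(0,0),(10,0),(19,1),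
  (3,1)]⟩,⟨0,[(1,0)]⟩]⟩) (.I [0,0,0,0,0,0,0,0,1] (.Q [0,0,0,-1,0,0,1,1,0,0,-1,1] (.p false [0,0,1]
  [0,0,0,1] (⟨0,[(33,0)]⟩,⟨0,[(32,0)]⟩) .k 2 (⟨0,[(24,0)]⟩,⟨0,[(23,0)]⟩) .k (.r (-1) ⟨23,[(7,9),(0,
  5),(7,9),(2,1),(1,14),(0,2),(4,3),(2,1)]⟩ ⟨0,[(0,0),(30,0)]⟩)) (.I [0,0,1,0,0,0,0,0,-1] (.Q [0,0,
  0,0,0,-1,0,0,0,0,0,1] (.ed false [1,-1,0,1] .k) (.R ⟨1,false,false,false,[0,0,0,1],[0,-1,1],[1,0,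
  0,0,0,0,0,0,1],(⟨0,[(27,0)]⟩,⟨0,[(26,0)]⟩),(⟨0,[(12,0)]⟩,⟨0,[(35,0),(3,0)]⟩),⟨0,[(0,0)]⟩,.k,.k,
  (.x 0 ⟨9,[(7,3),(10,1),(13,10),(0,6)]⟩ ⟨0,[(39,0),(3,0)]⟩),(.r 0 ⟨5,[(3,5),(2,2),(24,1),(0,4),(1,
  0),(5,0)]⟩ ⟨2,[(1,2),(0,0),(5,1),(1,0),(0,0),(10,0),(3,0)]⟩),.k,.k,⟨false,0,⟨2,[(3,2),(2,0),(9,0),
  (17,1)]⟩,⟨2,[(1,2),(0,0),(5,1),(1,0),(0,0),(10,0),(3,0)]⟩⟩,⟨true,0,⟨1,[(2,0),(13,0),(10,0),(6,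
  0)]⟩,⟨0,[(26,0),(2,0)]⟩⟩,⟨true,0,⟨0,[]⟩,⟨0,[(46,0)]⟩⟩,⟨false,1,⟨4,[(1,4),(0,2),(1,1),(4,1),(1,2),
  (8,1),(6,1)]⟩,⟨2,[(3,2),(1,0),(0,0),(13,0),(5,2),(2,1),(2,0)]⟩⟩,⟨false,1,⟨23,[(6,7),(2,3),(14,4),
  (0,4),(11,1),(6,11)]⟩,⟨0,[(42,0)]⟩⟩,⟨false,1,⟨4,[(1,4),(0,1),(1,2),(4,2),(1,1),(8,2),(6,2)]⟩,⟨0,
  [(3,0),(22,0),(2,0),(4,0)]⟩⟩,[.a ⟨true,0,⟨0,[(2,0),(23,0)]⟩,⟨0,[(6,0),(35,0)]⟩⟩ ⟨true,0,⟨0,[(3,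
  0)]⟩,⟨0,[(1,0)]⟩⟩ ⟨false,1,⟨0,[(2,0),(40,0)]⟩,⟨2,[(5,0),(0,0),(13,0),(5,2),(2,1),(2,0)]⟩⟩,.o
  ⟨false,1,⟨1,[(2,1),(23,1),(10,0),(6,0)]⟩,⟨0,[(5,0)]⟩⟩,.o ⟨false,0,⟨0,[(16,0),(9,0),(2,0),(12,0)]⟩,
  ⟨1,[(27,1),(9,0),(5,0)]⟩⟩,.o ⟨false,0,⟨0,[(26,0),(2,0),(2,0)]⟩,⟨1,[(2,0),(1,1),(11,0),(10,0),(6,
  0)]⟩⟩]⟩) (.R ⟨0,false,false,false,[0,0,0,1],[0,-1,1],[1,0,0,0,0,0,0,0,1],(⟨0,[(27,0)]⟩,⟨0,[(26,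
  0)]⟩),(⟨0,[(12,0)]⟩,⟨0,[(35,0),(3,0)]⟩),⟨0,[(0,0)]⟩,.k,.k,(.x 0 ⟨9,[(7,3),(10,1),(13,10),(0,6)]⟩
  ⟨0,[(39,0),(3,0)]⟩),(.r 0 ⟨5,[(3,5),(2,2),(24,1),(0,4),(1,0),(5,0)]⟩ ⟨2,[(1,2),(0,0),(5,1),(1,0),
  (0,0),(10,0),(3,0)]⟩),.k,.k,⟨false,0,⟨2,[(3,2),(2,0),(9,0),(17,1)]⟩,⟨2,[(1,2),(0,0),(5,1),(1,0),
  (0,0),(10,0),(3,0)]⟩⟩,⟨true,0,⟨1,[(2,0),(13,0),(10,0),(6,0)]⟩,⟨0,[(26,0),(2,0)]⟩⟩,⟨true,0,⟨0,[]⟩,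
  ⟨0,[(46,0)]⟩⟩,⟨false,1,⟨4,[(1,4),(0,2),(1,1),(4,1),(1,2),(8,1),(6,1)]⟩,⟨2,[(3,2),(1,0),(0,0),(13,
  0),(5,2),(2,1),(2,0)]⟩⟩,⟨false,0,⟨0,[]⟩,⟨0,[]⟩⟩,⟨false,0,⟨0,[]⟩,⟨0,[]⟩⟩,[.a ⟨true,0,⟨0,[(2,0),(23,
  0)]⟩,⟨0,[(6,0),(35,0)]⟩⟩ ⟨true,0,⟨0,[(3,0)]⟩,⟨0,[(1,0)]⟩⟩ ⟨false,1,⟨0,[(2,0),(40,0)]⟩,⟨2,[(5,0),
  (0,0),(13,0),(5,2),(2,1),(2,0)]⟩⟩,.o ⟨false,1,⟨1,[(2,1),(23,1),(10,0),(6,0)]⟩,⟨0,[(5,0)]⟩⟩,.o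
  ⟨false,0,⟨6,[(0,4),(6,1),(10,0),(7,1),(2,1),(2,3)]⟩,⟨1,[(27,1),(9,0),(5,0)]⟩⟩,.o ⟨false,0,⟨0,[(26,
  0),(2,0),(2,0)]⟩,⟨1,[(2,0),(1,1),(11,0),(10,0),(6,0)]⟩⟩]⟩)) (.I [0,1,1,0,0,0,0,0,-1] (.Q [0,0,0,0,
  0,-1,0,0,0,0,0,1] (.ed false [1,-1,0,1] .k) (.R ⟨1,false,false,true,[0,0,0,1],[1,0,-1],[1,0,0,0,0,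
  0,0,0,1],(⟨0,[(28,0)]⟩,⟨0,[(27,0)]⟩),(⟨0,[(36,0)]⟩,⟨0,[(37,0)]⟩),⟨0,[(0,0)]⟩,.k,.k,(.r 0 ⟨0,[(2,
  0),(40,0)]⟩ ⟨2,[(1,0),(5,0),(6,0),(10,1),(0,0),(6,0)]⟩),.k,(.x 0 ⟨1,[(8,0),(24,2),(0,0),(2,0)]⟩
  ⟨0,[(5,0),(30,0),(3,0)]⟩),.k,⟨true,0,⟨1,[(2,1),(8,0),(8,0),(20,0),(1,0)]⟩,⟨0,[(1,0),(33,0)]⟩⟩,
  ⟨false,1,⟨0,[(5,0),(22,0)]⟩,⟨0,[(27,0),(5,0)]⟩⟩,⟨true,0,⟨0,[]⟩,⟨0,[(47,0)]⟩⟩,⟨false,1,⟨1,[(5,0),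
  (15,0),(3,0),(2,1),(0,0)]⟩,⟨0,[(4,0),(22,0),(3,0),(9,0)]⟩⟩,⟨false,1,⟨23,[(7,7),(2,3),(14,4),(0,4),
  (11,1),(6,11)]⟩,⟨0,[(43,0)]⟩⟩,⟨false,1,⟨1,[(3,0),(1,0),(0,0),(0,0),(13,0),(3,0),(2,0)]⟩,⟨0,[(4,0),
  (22,0),(3,0),(9,0),(1,0)]⟩⟩,[.o ⟨false,0,⟨0,[(29,0)]⟩,⟨11,[(3,3),(7,3),(13,0),(0,0),(0,3),(10,3),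
  (6,5)]⟩⟩,.a ⟨true,0,⟨0,[(7,0),(35,1)]⟩,⟨2,[(3,0),(7,0),(15,1),(0,0)]⟩⟩ ⟨true,0,⟨1,[(2,0),(1,0),
  (36,0)]⟩,⟨0,[(1,0)]⟩⟩ ⟨false,1,⟨0,[(5,0),(22,0),(6,0)]⟩,⟨4,[(3,0),(7,0),(15,5),(2,1),(0,1),(1,1),
  (7,0)]⟩⟩,.o ⟨false,0,⟨0,[(17,0),(9,0),(2,0),(12,0)]⟩,⟨1,[(28,1),(9,0),(5,0)]⟩⟩,.o ⟨false,0,⟨0,
  [(27,0),(2,0),(2,0)]⟩,⟨1,[(3,0),(1,1),(11,0),(10,0),(6,0)]⟩⟩]⟩) (.R ⟨0,false,false,true,[0,0,0,1],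
  [1,0,-1],[1,0,0,0,0,0,0,0,1],(⟨0,[(28,0)]⟩,⟨0,[(27,0)]⟩),(⟨0,[(36,0)]⟩,⟨0,[(37,0)]⟩),⟨0,[(0,0)]⟩,
  .k,.k,(.r 0 ⟨0,[(2,0),(40,0)]⟩ ⟨2,[(1,0),(5,0),(6,0),(10,1),(0,0),(6,0)]⟩),.k,.k,.k,⟨true,0,⟨1,
  [(2,1),(8,0),(8,0),(20,0),(1,0)]⟩,⟨0,[(1,0),(33,0)]⟩⟩,⟨false,1,⟨0,[(5,0),(22,0)]⟩,⟨0,[(27,0),(5,
  0)]⟩⟩,⟨true,0,⟨0,[]⟩,⟨0,[(47,0)]⟩⟩,⟨false,1,⟨1,[(5,0),(15,0),(3,0),(2,1),(0,0)]⟩,⟨0,[(4,0),(22,0),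
  (3,0),(9,0)]⟩⟩,⟨false,0,⟨0,[]⟩,⟨0,[]⟩⟩,⟨false,0,⟨0,[]⟩,⟨0,[]⟩⟩,[.o ⟨false,0,⟨0,[(29,0)]⟩,⟨11,[(3,
  3),(7,3),(13,0),(0,0),(0,3),(10,3),(6,5)]⟩⟩,.a ⟨true,0,⟨0,[(7,0),(35,1)]⟩,⟨2,[(3,0),(7,0),(15,1),
  (0,0)]⟩⟩ ⟨true,0,⟨1,[(2,0),(1,0),(36,0)]⟩,⟨0,[(1,0)]⟩⟩ ⟨false,1,⟨0,[(5,0),(22,0),(6,0)]⟩,⟨4,[(3,
  0),(7,0),(15,5),(2,1),(0,1),(1,1),(7,0)]⟩⟩,.o ⟨false,0,⟨6,[(0,4),(7,1),(10,0),(7,1),(2,1),(2,3)]⟩,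
  ⟨1,[(28,1),(9,0),(5,0)]⟩⟩,.o ⟨false,0,⟨0,[(27,0),(2,0),(2,0)]⟩,⟨1,[(3,0),(1,1),(11,0),(10,0),(6,
  0)]⟩⟩]⟩)) (.Q [0,0,0,0,0,1,0,0,0,-1,0,1] (.ed false [0,1,0,1] .k) (.R ⟨0,false,false,false,[1,0,0,
  -1],[1,0,-1],[0,1,0,0,0,0,0,0,-1],(⟨0,[(27,0)]⟩,⟨0,[(28,0)]⟩),(⟨0,[(36,0)]⟩,⟨0,[(37,0)]⟩),⟨0,[(0,
  0)]⟩,.k,.k,(.x (-1) ⟨15,[(8,3),(6,3),(9,6),(0,6),(11,1)]⟩ ⟨0,[(40,0)]⟩),.k,.k,.k,⟨false,1,⟨5,[(3,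
  0),(5,1),(1,0),(0,0),(10,3),(1,2),(1,0),(3,2)]⟩,⟨0,[(4,0),(16,0)]⟩⟩,⟨true,0,⟨0,[(27,0),(2,0)]⟩,⟨5,
  [(0,3),(7,0),(6,0),(8,2),(3,1)]⟩⟩,⟨true,0,⟨0,[(47,0)]⟩,⟨0,[]⟩⟩,⟨false,0,⟨0,[(4,0),(16,0),(5,0),(2,
  0)]⟩,⟨9,[(3,5),(1,1),(4,1),(6,1),(7,4),(2,3),(15,2)]⟩⟩,⟨false,0,⟨0,[]⟩,⟨0,[]⟩⟩,⟨false,0,⟨0,[]⟩,⟨0,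
  []⟩⟩,[.a ⟨true,0,⟨0,[(7,0),(35,1)]⟩,⟨2,[(3,0),(7,0),(15,1),(0,0)]⟩⟩ ⟨false,1,⟨1,[(25,0),(18,0),(2,
  1)]⟩,⟨2,[(1,0),(2,1),(36,0)]⟩⟩ ⟨true,0,⟨0,[(27,0),(2,0),(4,0)]⟩,⟨11,[(0,3),(2,5),(4,0),(1,2),(4,
  0),(12,1)]⟩⟩,.o ⟨false,1,⟨0,[(29,0),(15,0)]⟩,⟨0,[(31,0)]⟩⟩,.o ⟨false,1,⟨1,[(28,1),(9,0),(5,0)]⟩,
  ⟨0,[(17,0),(9,0),(2,0),(12,0)]⟩⟩,.e ⟨false,1,⟨1,[(25,0),(18,0)]⟩,⟨3,[(4,3),(28,0),(0,0),(6,1)]⟩⟩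
  ⟨false,1,⟨0,[(27,0),(1,0),(15,0)]⟩,⟨11,[(0,3),(2,5),(4,0),(1,2),(4,0),(12,1)]⟩⟩]⟩) (.Q [0,0,0,0,0,
  0,1,1,0,0,-1,1] (.p false [0,0,1] [0,0,0,1] (⟨0,[(37,0)]⟩,⟨0,[(36,0)]⟩) .k 2 (⟨0,[(28,0)]⟩,⟨0,
  [(27,0)]⟩) .k (.r (-1) ⟨21,[(3,0),(7,8),(0,4),(7,9),(2,1),(1,13),(0,2),(0,0),(3,2)]⟩ ⟨0,[(4,0),
  (30,0)]⟩)) (.R ⟨1,false,false,false,[1,0,0,-1],[1,0,-1],[1,1,0,0,0,0,0,0,-1],(⟨0,[(28,0)]⟩,⟨0,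
  [(29,0)]⟩),(⟨0,[(37,0)]⟩,⟨0,[(38,0)]⟩),⟨0,[(1,0)]⟩,.k,.k,(.x (-1) ⟨15,[(9,3),(6,3),(9,6),(0,6),
  (11,1)]⟩ ⟨0,[(41,0)]⟩),.k,(.x 0 ⟨1,[(9,0),(8,1),(19,0),(5,1)]⟩ ⟨4,[(6,0),(13,1),(5,1),(0,1),(9,0),
  (3,6)]⟩),.k,⟨false,1,⟨5,[(4,0),(5,1),(1,0),(0,0),(10,3),(1,2),(1,0),(3,2)]⟩,⟨0,[(5,0),(16,0)]⟩⟩,
  ⟨true,0,⟨0,[(28,0),(2,0)]⟩,⟨1,[(4,0),(13,0),(10,0),(6,0)]⟩⟩,⟨false,0,⟨0,[]⟩,⟨3,[(26,0),(0,0),(18,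
  1)]⟩⟩,⟨false,0,⟨0,[(5,0),(16,0),(5,0),(2,0)]⟩,⟨1,[(0,1),(25,0),(18,0)]⟩⟩,⟨true,0,⟨0,[(43,0)]⟩,⟨0,
  [(44,0)]⟩⟩,⟨false,0,⟨0,[(5,0),(1,0),(20,0),(13,0)]⟩,⟨1,[(4,1),(21,0),(18,0)]⟩⟩,[.a ⟨true,0,⟨0,[(8,
  0),(35,1)]⟩,⟨2,[(4,0),(7,0),(15,1),(0,0)]⟩⟩ ⟨false,1,⟨1,[(26,0),(18,0),(2,1)]⟩,⟨2,[(2,0),(2,1),
  (36,0)]⟩⟩ ⟨true,0,⟨0,[(28,0),(2,0),(4,0)]⟩,⟨0,[(0,0)]⟩⟩,.o ⟨false,1,⟨0,[(30,0),(15,0)]⟩,⟨0,[(32,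
  0)]⟩⟩,.o ⟨false,1,⟨1,[(29,1),(9,0),(5,0)]⟩,⟨0,[(18,0),(9,0),(2,0),(12,0)]⟩⟩,.e ⟨false,1,⟨1,[(26,
  0),(18,0)]⟩,⟨3,[(5,3),(28,0),(0,0),(6,1)]⟩⟩ ⟨false,1,⟨0,[(28,0),(1,0),(15,0)]⟩,⟨0,[(0,0)]⟩⟩]⟩)
  (.R ⟨1,false,false,false,[1,0,0,-1],[1,0,-1],[1,1,0,0,0,0,0,0,-1],(⟨0,[(28,0)]⟩,⟨0,[(29,0)]⟩),(⟨0,
  [(37,0)]⟩,⟨0,[(38,0)]⟩),⟨0,[(1,0)]⟩,.k,.k,(.x (-1) ⟨15,[(9,3),(6,3),(9,6),(0,6),(11,1)]⟩ ⟨0,[(41,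
  0)]⟩),.k,(.x 0 ⟨1,[(9,0),(8,1),(19,0),(5,1)]⟩ ⟨4,[(6,0),(13,1),(5,1),(0,1),(9,0),(3,6)]⟩),.k,
  ⟨false,1,⟨5,[(4,0),(5,1),(1,0),(0,0),(10,3),(1,2),(1,0),(3,2)]⟩,⟨0,[(5,0),(16,0)]⟩⟩,⟨true,0,⟨0,
  [(28,0),(2,0)]⟩,⟨1,[(4,0),(13,0),(10,0),(6,0)]⟩⟩,⟨false,0,⟨0,[]⟩,⟨3,[(26,0),(0,0),(18,1)]⟩⟩,
  ⟨false,0,⟨3,[(0,3),(4,3),(28,0),(0,0),(6,1)]⟩,⟨9,[(4,5),(1,1),(4,1),(6,1),(7,4),(2,3),(15,2)]⟩⟩,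
  ⟨true,0,⟨0,[(43,0)]⟩,⟨0,[(44,0)]⟩⟩,⟨false,0,⟨2,[(0,2),(4,2),(2,0),(6,0),(18,0),(7,0)]⟩,⟨1,[(4,1),
  (21,0),(18,0)]⟩⟩,[.e ⟨false,1,⟨1,[(26,0),(18,0),(2,1)]⟩,⟨2,[(2,0),(2,1),(36,0)]⟩⟩ ⟨false,0,⟨0,[(0,
  0)]⟩,⟨15,[(4,7),(6,3),(14,2),(0,2),(1,7),(9,1),(5,7)]⟩⟩,.o ⟨false,1,⟨0,[(30,0),(15,0)]⟩,⟨0,[(32,
  0)]⟩⟩,.o ⟨false,1,⟨1,[(29,1),(9,0),(5,0)]⟩,⟨2,[(0,1),(27,0),(2,0),(0,1),(1,0),(7,0)]⟩⟩,.a ⟨true,0,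
  ⟨0,[(29,0)]⟩,⟨0,[(28,0)]⟩⟩ ⟨false,1,⟨1,[(26,0),(18,0)]⟩,⟨3,[(5,3),(28,0),(0,0),(6,1)]⟩⟩ ⟨true,0,
  ⟨0,[(0,0)]⟩,⟨0,[(4,0),(38,0)]⟩⟩]⟩))))) (.I [0,0,-1,-1,1,0,0,1,-1] (.I [1,-1,-1,0,1,0,0,0,-1] (.I
  [1,0,-1,0,1,0,0,1,-1] (.R ⟨1,false,false,false,[1,0,0,-1],[1,0,-1],[1,0,0,0,0,0,0,0,-1],(⟨0,[(27,
  0)]⟩,⟨0,[(28,0)]⟩),(⟨0,[(36,0)]⟩,⟨0,[(37,0)]⟩),⟨3,[(3,1),(4,0),(2,0),(3,0),(11,1),(15,2)]⟩,.k,.k,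
  (.x (-1) ⟨15,[(8,3),(6,3),(9,6),(0,6),(11,1)]⟩ ⟨0,[(40,0)]⟩),.k,(.r (-1) ⟨0,[(2,0)]⟩ ⟨5,[(4,5),(2,
  2),(24,1),(0,4),(1,0),(5,0)]⟩),.k,⟨false,1,⟨0,[(0,0)]⟩,⟨0,[(4,0),(30,0)]⟩⟩,⟨true,0,⟨0,[(27,0),(2,
  0)]⟩,⟨0,[(17,0),(10,0),(14,0)]⟩⟩,⟨true,0,⟨0,[]⟩,⟨0,[(47,0)]⟩⟩,⟨false,0,⟨0,[(4,0),(16,0),(5,0),(2,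
  0)]⟩,⟨0,[(2,0),(14,0),(10,0)]⟩⟩,⟨false,1,⟨23,[(7,7),(2,3),(14,4),(0,4),(11,1),(6,11)]⟩,⟨0,[(43,
  0)]⟩⟩,⟨false,0,⟨3,[(3,3),(0,3),(28,0),(0,0),(6,1)]⟩,⟨0,[(2,0),(14,0),(10,0),(14,0)]⟩⟩,[.e ⟨false,
  1,⟨1,[(25,0),(18,0)]⟩,⟨0,[(4,0)]⟩⟩ ⟨false,0,⟨0,[(3,0),(39,0)]⟩,⟨13,[(2,3),(7,3),(1,1),(11,1),(1,
  1),(1,13),(2,1),(6,2),(5,2)]⟩⟩,.o ⟨false,1,⟨0,[(29,0),(15,0)]⟩,⟨0,[(31,0)]⟩⟩,.o ⟨false,1,⟨1,[(28,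
  1),(9,0),(5,0)]⟩,⟨2,[(3,1),(23,0),(2,0),(0,1),(1,0),(7,0),(1,1)]⟩⟩,.a ⟨true,0,⟨0,[(28,0)]⟩,⟨0,
  [(27,0)]⟩⟩ ⟨false,1,⟨0,[(1,0)]⟩,⟨1,[(4,1),(28,0),(0,0)]⟩⟩ ⟨true,0,⟨0,[(3,0),(39,0)]⟩,⟨0,[(28,0),
  (2,0)]⟩⟩]⟩) (.R ⟨1,false,false,false,[1,0,0,-1],[1,0,-1],[0,1,0,-1,0,0,0,0,-1],(⟨0,[(27,0)]⟩,⟨0,
  [(28,0)]⟩),(⟨0,[(36,0)]⟩,⟨0,[(37,0)]⟩),⟨3,[(3,1),(4,0),(2,0),(3,0),(11,1),(15,2)]⟩,.k,.k,(.x (-1)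
  ⟨15,[(8,3),(6,3),(9,6),(0,6),(11,1)]⟩ ⟨0,[(40,0)]⟩),.k,(.r (-1) ⟨0,[(2,0)]⟩ ⟨15,[(0,5),(6,7),(18,
  4),(5,1),(0,9),(11,0)]⟩),.k,⟨false,1,⟨0,[(2,0),(44,0)]⟩,⟨17,[(0,11),(4,4),(1,4),(2,4),(1,0),(8,
  10),(4,2),(18,2)]⟩⟩,⟨true,0,⟨0,[(27,0),(2,0)]⟩,⟨0,[(17,0),(10,0),(14,0)]⟩⟩,⟨false,0,⟨0,[(43,0)]⟩,
  ⟨23,[(7,7),(2,3),(14,4),(0,4),(11,1),(6,11)]⟩⟩,⟨false,0,⟨15,[(0,11),(2,3),(8,1),(7,5),(5,1),(0,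
  11),(10,2),(2,1),(3,4)]⟩,⟨0,[(2,0),(14,0),(10,0)]⟩⟩,⟨true,0,⟨0,[(47,0)]⟩,⟨0,[]⟩⟩,⟨false,0,⟨23,[(0,
  7),(2,19),(0,1),(9,3),(5,1),(5,6),(0,3),(10,0),(2,9)]⟩,⟨0,[(2,0),(14,0),(10,0),(14,0)]⟩⟩,[.e
  ⟨false,1,⟨1,[(12,0),(12,0),(21,2)]⟩,⟨9,[(0,4),(3,4),(0,2),(1,2),(2,2),(1,1),(1,1),(26,2)]⟩⟩
  ⟨false,0,⟨0,[(3,0),(39,0)]⟩,⟨13,[(2,3),(7,3),(1,1),(11,1),(1,1),(1,13),(2,1),(6,2),(5,2)]⟩⟩,.o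
  ⟨false,1,⟨0,[(29,0),(15,0)]⟩,⟨0,[(31,0)]⟩⟩,.o ⟨false,1,⟨1,[(28,1),(9,0),(5,0)]⟩,⟨5,[(0,1),(2,1),
  (21,0),(1,3),(2,1),(0,3),(6,0),(2,1),(1,1)]⟩⟩,.a ⟨true,0,⟨0,[(28,0)]⟩,⟨0,[(27,0)]⟩⟩ ⟨false,1,⟨1,
  [(12,0),(12,0),(21,0)]⟩,⟨67,[(0,25),(4,1),(1,13),(2,7),(3,23),(11,20),(11,2),(2,21)]⟩⟩ ⟨true,0,⟨0,
  [(3,0),(39,0)]⟩,⟨0,[(28,0),(2,0)]⟩⟩]⟩)) (.R ⟨1,false,false,false,[1,0,0,-1],[1,0,-1],[0,1,0,-1,0,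
  0,0,0,-1],(⟨0,[(26,0)]⟩,⟨0,[(27,0)]⟩),(⟨0,[(35,0)]⟩,⟨0,[(36,0)]⟩),⟨3,[(2,1),(4,0),(2,0),(3,0),(11,
  1),(15,2)]⟩,.k,.k,(.x (-1) ⟨15,[(7,3),(6,3),(9,6),(0,6),(11,1)]⟩ ⟨0,[(39,0)]⟩),.k,(.r (-1) ⟨0,[(1,
  0)]⟩ ⟨5,[(0,1),(5,2),(18,1),(6,2),(1,2),(5,0)]⟩),.k,⟨false,1,⟨0,[(1,0),(44,0)]⟩,⟨9,[(0,0),(2,8),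
  (0,0),(1,2),(2,0),(6,1),(3,8),(19,0)]⟩⟩,⟨true,0,⟨0,[(26,0),(2,0)]⟩,⟨0,[(16,0),(10,0),(14,0)]⟩⟩,
  ⟨false,0,⟨0,[(42,0)]⟩,⟨23,[(6,7),(2,3),(14,4),(0,4),(11,1),(6,11)]⟩⟩,⟨false,0,⟨2,[(0,0),(1,2),(22,
  0),(14,1),(1,2)]⟩,⟨0,[(1,0),(14,0),(10,0)]⟩⟩,⟨true,0,⟨0,[(46,0)]⟩,⟨0,[]⟩⟩,⟨false,0,⟨2,[(0,0),(1,
  2),(22,0),(14,1)]⟩,⟨0,[(1,0),(14,0),(10,0),(14,0)]⟩⟩,[.e ⟨false,1,⟨1,[(11,0),(12,0),(21,2)]⟩,⟨5,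
  [(0,2),(2,2),(0,1),(1,1),(2,1),(1,0),(8,1),(19,2)]⟩⟩ ⟨false,0,⟨0,[(2,0),(39,0)]⟩,⟨13,[(1,3),(7,3),
  (1,1),(11,1),(1,1),(1,13),(2,1),(6,2),(5,2)]⟩⟩,.o ⟨false,1,⟨0,[(28,0),(15,0)]⟩,⟨0,[(30,0)]⟩⟩,.o
  ⟨false,1,⟨1,[(27,1),(9,0),(5,0)]⟩,⟨2,[(2,1),(23,0),(2,0),(0,1),(1,0),(7,0),(1,1)]⟩⟩,.a ⟨true,0,⟨0,
  [(27,0)]⟩,⟨0,[(26,0)]⟩⟩ ⟨false,1,⟨1,[(11,0),(12,0),(21,0)]⟩,⟨11,[(0,3),(2,1),(2,3),(2,1),(15,2),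
  (11,0),(2,7)]⟩⟩ ⟨true,0,⟨0,[(2,0),(39,0)]⟩,⟨0,[(27,0),(2,0)]⟩⟩]⟩)) (.R ⟨1,false,false,false,[1,0,
  0,-1],[1,0,-1],[1,1,0,0,0,0,0,0,-1],(⟨0,[(25,0)]⟩,⟨0,[(26,0)]⟩),(⟨0,[(34,0)]⟩,⟨0,[(35,0)]⟩),⟨3,
  [(1,1),(4,0),(2,0),(3,0),(11,1),(15,2)]⟩,.k,.k,(.x (-1) ⟨15,[(6,3),(6,3),(9,6),(0,6),(11,1)]⟩ ⟨0,
  [(38,0)]⟩),.k,(.x 0 ⟨1,[(6,0),(8,1),(19,0),(5,1)]⟩ ⟨4,[(3,0),(13,1),(5,1),(0,1),(9,0),(3,6)]⟩),.k,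
  ⟨false,1,⟨3,[(7,0),(1,0),(0,0),(10,2),(1,1),(5,1),(11,0)]⟩,⟨5,[(0,3),(9,1),(8,1),(4,0),(18,0)]⟩⟩,
  ⟨true,0,⟨0,[(25,0),(2,0)]⟩,⟨0,[(15,0),(10,0),(14,0)]⟩⟩,⟨false,0,⟨0,[]⟩,⟨3,[(23,0),(0,0),(18,1)]⟩⟩,
  ⟨false,0,⟨12,[(0,6),(0,0),(8,3),(8,4),(4,2),(0,11),(2,11),(10,1)]⟩,⟨1,[(7,0),(1,0),(5,0),(7,0),(2,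
  1),(14,0)]⟩⟩,⟨true,0,⟨0,[(40,0)]⟩,⟨0,[(41,0)]⟩⟩,⟨false,0,⟨11,[(0,3),(0,7),(0,1),(15,1),(5,2),(0,
  3),(10,0),(2,5)]⟩,⟨1,[(7,0),(1,0),(5,0),(7,0),(2,1),(14,2)]⟩⟩,[.e ⟨false,1,⟨1,[(23,0),(18,0),(2,
  1)]⟩,⟨1,[(0,0),(1,0),(7,0),(1,0)]⟩⟩ ⟨false,0,⟨0,[(1,0),(39,0)]⟩,⟨19,[(9,7),(0,3),(12,2),(0,2),(1,
  19),(2,3),(6,3),(5,5)]⟩⟩,.o ⟨false,1,⟨0,[(27,0),(15,0)]⟩,⟨0,[(29,0)]⟩⟩,.o ⟨false,1,⟨1,[(26,1),(9,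
  0),(5,0)]⟩,⟨2,[(1,1),(23,0),(2,0),(0,1),(1,0),(7,0),(1,1)]⟩⟩,.a ⟨true,0,⟨0,[(26,0)]⟩,⟨0,[(25,
  0)]⟩⟩ ⟨false,1,⟨1,[(23,0),(18,0)]⟩,⟨5,[(0,1),(8,0),(8,0),(5,1),(14,2),(1,2)]⟩⟩ ⟨true,0,⟨0,[(1,0),
  (39,0)]⟩,⟨0,[(26,0),(2,0)]⟩⟩]⟩))) (.Q [0,1,-1,0,0,0,0,0,-1,0,0,1] (.p true [0,0,0,1] [] (⟨0,[(24,
  0)]⟩,⟨0,[(23,0)]⟩) .k 0 (⟨0,[]⟩,⟨0,[]⟩) .k .k) (.Q [0,-1,-1,0,0,0,0,0,-1,0,0,1] (.p true [0,0,0,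
  1] [] (⟨0,[(25,0)]⟩,⟨0,[(24,0)]⟩) .k 0 (⟨0,[]⟩,⟨0,[]⟩) .k .k) (.Q [0,0,0,0,0,0,-1,-1,0,0,1,-1]
  (.p true [0,0,1] [0,0,0,1] (⟨0,[(35,0)]⟩,⟨0,[(34,0)]⟩) .k 2 (⟨0,[(26,0)]⟩,⟨0,[(25,0)]⟩) .k (.r 0
  ⟨0,[(0,0),(24,0),(2,0),(0,0)]⟩ ⟨3,[(23,0),(0,2),(8,3)]⟩)) (.I [1,1,-1,0,0,0,0,1,-1] (.R ⟨1,false,
  false,false,[1,0,0,-1],[1,0,-1],[1,1,0,0,0,0,0,0,-1],(⟨0,[(27,0)]⟩,⟨0,[(28,0)]⟩),(⟨0,[(36,0)]⟩,⟨0,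
  [(37,0)]⟩),⟨3,[(1,1),(6,0),(2,0),(3,0),(11,1),(15,0)]⟩,.k,.k,(.x (-1) ⟨15,[(8,3),(6,3),(9,6),(0,
  6),(11,1)]⟩ ⟨0,[(40,0)]⟩),.k,(.x 0 ⟨1,[(8,0),(8,1),(19,0),(5,1)]⟩ ⟨4,[(5,0),(13,1),(5,1),(0,1),(9,
  0),(3,6)]⟩),.k,⟨false,0,⟨0,[(0,0)]⟩,⟨1,[(26,0),(8,1),(9,0)]⟩⟩,⟨true,0,⟨0,[(27,0),(2,0)]⟩,⟨0,[(17,
  0),(10,0),(14,0)]⟩⟩,⟨false,0,⟨0,[]⟩,⟨3,[(25,0),(0,0),(18,1)]⟩⟩,⟨false,1,⟨1,[(1,1),(24,0),(6,0),(0,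
  0),(10,0)]⟩,⟨0,[(2,0),(28,0)]⟩⟩,⟨true,0,⟨0,[(42,0)]⟩,⟨0,[(43,0)]⟩⟩,⟨false,1,⟨1,[(1,0),(5,0),(18,
  0),(0,0),(2,0),(2,0),(11,0)]⟩,⟨0,[(2,0),(28,0),(11,0)]⟩⟩,[.e ⟨false,0,⟨0,[(0,0),(34,0)]⟩,⟨1,[(26,
  0),(18,0)]⟩⟩ ⟨false,0,⟨0,[(1,0)]⟩,⟨23,[(3,7),(6,3),(0,7),(0,7),(12,2),(0,6),(1,15),(9,5)]⟩⟩,.o
  ⟨false,1,⟨0,[(29,0),(15,0)]⟩,⟨0,[(31,0)]⟩⟩,.o ⟨false,1,⟨1,[(2,0),(0,0),(22,0),(11,0)]⟩,⟨2,[(1,1),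
  (25,0),(2,0),(0,1),(1,0),(7,0)]⟩⟩,.a ⟨true,0,⟨0,[(28,0)]⟩,⟨0,[(27,0)]⟩⟩ ⟨false,0,⟨0,[(0,0),(20,
  0)]⟩,⟨1,[(26,0),(6,0),(0,0),(10,0)]⟩⟩ ⟨true,0,⟨0,[(1,0)]⟩,⟨0,[(28,0),(2,0)]⟩⟩]⟩) (.Q [0,1,1,-1,0,
  0,0,0,1,0,0,-1] (.p false [0,0,0,1] [] (⟨0,[(28,0)]⟩,⟨0,[(27,0)]⟩) .k 0 (⟨0,[]⟩,⟨0,[]⟩) .k .k)
  (.R ⟨2,false,false,true,[0,1],[0,0,0,1],[0,1,1,0,0,0,0,0,1],(⟨0,[]⟩,⟨0,[]⟩),(⟨0,[(29,0)]⟩,⟨0,[(28,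
  0)]⟩),⟨0,[]⟩,.k,.k,.k,(.r 0 ⟨11,[(5,11),(2,3),(2,1),(9,1),(12,6),(0,2)]⟩ ⟨9,[(0,1),(3,1),(8,3),
  (13,4),(17,0)]⟩),.k,.k,⟨true,0,⟨1,[(34,0),(0,0)]⟩,⟨0,[]⟩⟩,⟨false,0,⟨3,[(0,0),(1,2),(2,0),(6,0),
  (18,0),(0,0),(1,0),(7,0)]⟩,⟨1,[(3,0),(0,0),(22,0),(17,0)]⟩⟩,⟨false,1,⟨15,[(0,7),(12,3),(12,2),(0,
  6),(1,7),(16,1)]⟩,⟨1,[(2,0),(0,0),(1,0),(9,0),(2,0)]⟩⟩,⟨true,0,⟨0,[(0,0)]⟩,⟨4,[(3,2),(0,1),(2,0),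
  (0,0),(2,0)]⟩⟩,⟨false,1,⟨3,[(26,0),(0,2)]⟩,⟨1,[(2,0),(0,0),(1,0),(26,0),(9,0)]⟩⟩,⟨false,1,⟨23,[(0,
  23),(7,7),(2,3),(14,4),(0,4),(11,1),(6,11)]⟩,⟨0,[(3,0)]⟩⟩,[.e ⟨true,0,⟨2,[(0,1),(0,0),(15,0),(6,
  0),(4,1)]⟩,⟨1,[(2,0),(0,0),(1,0),(26,0),(9,0)]⟩⟩ ⟨true,0,⟨11,[(0,11),(7,3),(2,1),(9,1),(12,6),(0,
  2)]⟩,⟨0,[(3,0)]⟩⟩,.a ⟨true,0,⟨0,[(1,0),(0,0),(9,0),(11,0),(19,1)]⟩,⟨1,[(3,0),(0,0)]⟩⟩ ⟨false,1,⟨3,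
  [(26,0),(0,2)]⟩,⟨0,[(2,0),(0,0),(28,0)]⟩⟩ ⟨true,0,⟨2,[(0,2),(7,0),(6,0),(18,0),(7,0)]⟩,⟨1,[(3,0),
  (0,0)]⟩⟩,.o ⟨false,1,⟨3,[(26,0),(0,0),(17,1)]⟩,⟨0,[(18,0),(12,0),(12,0)]⟩⟩,.e ⟨false,1,⟨3,[(26,0),
  (0,2)]⟩,⟨1,[(2,0),(0,0),(1,0),(26,0),(9,0)]⟩⟩ ⟨false,1,⟨23,[(0,23),(7,7),(2,3),(14,4),(0,4),(11,
  1),(6,11)]⟩,⟨0,[(3,0)]⟩⟩]⟩) (.I [1,1,1,1,-1,0,0,-1,-1] (.R ⟨1,false,false,false,[1,0,0,-1],[0,-1,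
  1],[1,1,0,0,0,0,0,0,-1],(⟨0,[(29,0)]⟩,⟨0,[(30,0)]⟩),(⟨0,[(15,0)]⟩,⟨0,[(38,0),(3,0)]⟩),⟨3,[(3,1),
  (6,0),(2,0),(3,0),(11,1),(15,0)]⟩,.k,.k,(.x (-1) ⟨15,[(10,3),(6,3),(9,6),(0,6),(11,1)]⟩ ⟨0,[(42,
  0)]⟩),(.r 0 ⟨15,[(0,6),(1,4),(6,3),(9,0),(7,6),(7,2),(7,0)]⟩ ⟨0,[(2,0),(8,0),(1,0),(11,0),(19,
  1)]⟩),.k,.k,⟨true,(-1),⟨0,[(0,0)]⟩,⟨5,[(13,2),(0,1),(7,2),(5,2),(14,0),(1,4),(1,0)]⟩⟩,⟨false,0,⟨0,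
  [(29,0),(5,0)]⟩,⟨0,[(7,0),(22,0)]⟩⟩,⟨false,0,⟨0,[]⟩,⟨3,[(27,0),(0,0),(18,1)]⟩⟩,⟨false,1,⟨5,[(13,
  2),(0,1),(7,2),(5,2),(0,5),(5,5),(7,0),(1,4),(1,0)]⟩,⟨0,[(4,0),(3,0)]⟩⟩,⟨true,0,⟨0,[(44,0)]⟩,⟨0,
  [(45,0)]⟩⟩,⟨false,1,⟨7,[(13,3),(0,1),(7,2),(5,3),(0,7),(2,0),(2,6),(7,0),(3,1)]⟩,⟨0,[(4,0),(26,
  0)]⟩⟩,[.e ⟨false,0,⟨3,[(0,1),(3,0),(0,0),(5,1),(17,1),(3,1)]⟩,⟨1,[(28,0),(18,0)]⟩⟩ ⟨false,0,⟨0,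
  [(3,0),(9,0),(31,1)]⟩,⟨3,[(4,2),(0,0),(3,1),(18,1),(5,1),(5,1)]⟩⟩,.o ⟨false,1,⟨15,[(13,7),(0,11),
  (7,7),(4,0),(0,0),(6,15),(11,1)]⟩,⟨0,[(8,0)]⟩⟩,.o ⟨false,1,⟨1,[(4,0),(0,0),(22,0),(11,0)]⟩,⟨2,[(3,
  1),(25,0),(2,0),(0,1),(1,0),(7,0)]⟩⟩,.a ⟨true,0,⟨0,[(30,0)]⟩,⟨0,[(29,0)]⟩⟩ ⟨false,0,⟨0,[(3,0),(0,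
  0),(28,0)]⟩,⟨1,[(28,0),(6,0),(0,0),(10,0)]⟩⟩ ⟨true,0,⟨0,[(3,0),(9,0),(31,1)]⟩,⟨0,[(8,0),(21,
  0)]⟩⟩]⟩) (.I [0,1,-1,-2,0,0,0,1,-1] (.Q [0,0,0,-1,0,0,1,1,0,0,-1,1] (.p false [0,0,1] [0,0,0,1]
  (⟨0,[(40,0)]⟩,⟨0,[(39,0)]⟩) .k 2 (⟨0,[(31,0)]⟩,⟨0,[(30,0)]⟩) .k (.r 0 ⟨9,[(0,3),(1,0),(1,0),(2,4),
  (5,1),(3,2),(5,0),(9,0)]⟩ ⟨3,[(28,0),(0,2),(8,3)]⟩)) (.R ⟨1,false,false,false,[1,0,0,-1],[1,1,-1],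
  [0,1,0,-1,0,0,0,0,-1],(⟨0,[(31,0)]⟩,⟨0,[(32,0)]⟩),(⟨0,[(40,0),(3,0)]⟩,⟨0,[(17,0)]⟩),⟨7,[(1,0),(2,
  0),(0,3),(6,1),(2,1),(3,1),(11,3)]⟩,.k,.k,(.x (-1) ⟨15,[(12,3),(6,3),(9,6),(0,6),(11,1)]⟩ ⟨0,[(44,
  0)]⟩),(.x 0 ⟨1,[(1,0),(2,0),(7,0),(8,1),(19,0)]⟩ ⟨4,[(9,0),(13,1),(5,1),(0,1),(9,0),(3,6)]⟩),(.r
  (-1) ⟨75,[(1,47),(0,15),(3,5),(2,11),(4,5),(1,25),(12,18),(1,5),(16,2)]⟩ ⟨11,[(4,11),(6,3),(2,1),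
  (9,1),(12,6),(0,2),(7,11)]⟩),.k,⟨true,0,⟨0,[(1,0)]⟩,⟨2,[(4,2),(6,1),(2,0),(9,0),(12,1)]⟩⟩,⟨false,
  1,⟨19,[(9,11),(14,3),(4,2),(0,2),(0,19),(10,1)]⟩,⟨1,[(0,0),(20,0),(10,0),(6,0)]⟩⟩,⟨false,0,⟨0,
  [(47,0)]⟩,⟨23,[(11,7),(2,3),(14,4),(0,4),(11,1),(6,11)]⟩⟩,⟨false,1,⟨43,[(4,27),(6,19),(6,3),(5,
  11),(4,6),(0,14),(0,43),(10,15),(6,5)]⟩,⟨1,[(0,0),(0,0),(4,0),(14,0)]⟩⟩,⟨true,0,⟨0,[(51,0)]⟩,⟨0,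
  []⟩⟩,⟨false,1,⟨21,[(4,11),(6,17),(6,7),(5,1),(4,2),(0,7),(0,21),(10,9),(6,0)]⟩,⟨3,[(0,2),(0,2),(4,
  0),(14,0),(3,1)]⟩⟩,[.a ⟨true,0,⟨4,[(4,0),(0,0),(0,0),(4,1),(15,0),(8,0)]⟩,⟨0,[(0,0),(30,0)]⟩⟩
  ⟨false,0,⟨2,[(1,1),(3,0),(1,0),(13,0),(17,0)]⟩,⟨31,[(4,1),(4,1),(1,9),(2,5),(15,14),(11,1),(2,1),
  (3,12)]⟩⟩ ⟨true,0,⟨1,[(5,0),(5,0),(19,0),(2,0),(2,0)]⟩,⟨0,[(0,0)]⟩⟩,.o ⟨false,1,⟨3,[(11,1),(21,1),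
  (8,0),(6,2)]⟩,⟨1,[(1,0),(2,0),(30,1)]⟩⟩,.o ⟨false,1,⟨1,[(6,0),(0,0),(22,0),(11,0)]⟩,⟨2,[(5,1),(25,
  0),(2,0),(0,1),(1,0),(7,0)]⟩⟩,.e ⟨false,0,⟨2,[(1,1),(3,0),(0,0),(14,0),(3,0)]⟩,⟨47,[(4,23),(6,7),
  (2,3),(3,23),(10,16),(0,28),(11,1)]⟩⟩ ⟨false,1,⟨7,[(5,3),(5,3),(17,0),(0,0),(0,3),(10,1),(6,3)]⟩,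
  ⟨0,[(0,0)]⟩⟩]⟩) (.R ⟨1,false,false,false,[1,0,0,-1],[1,1,-1],[0,1,0,-1,0,0,0,0,-1],(⟨0,[(31,0)]⟩,
  ⟨0,[(32,0)]⟩),(⟨0,[(40,0),(3,0)]⟩,⟨0,[(17,0)]⟩),⟨7,[(1,0),(2,0),(0,3),(6,1),(2,1),(3,1),(11,3)]⟩,
  .k,.k,(.x (-1) ⟨15,[(12,3),(6,3),(9,6),(0,6),(11,1)]⟩ ⟨0,[(44,0)]⟩),(.x 0 ⟨1,[(1,0),(2,0),(7,0),
  (8,1),(19,0)]⟩ ⟨4,[(9,0),(13,1),(5,1),(0,1),(9,0),(3,6)]⟩),(.r (-1) ⟨75,[(1,47),(0,15),(3,5),(2,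
  11),(4,5),(1,25),(12,18),(1,5),(16,2)]⟩ ⟨11,[(4,11),(6,3),(2,1),(9,1),(12,6),(0,2),(7,11)]⟩),.k,
  ⟨true,0,⟨0,[(1,0)]⟩,⟨2,[(4,2),(6,1),(2,0),(9,0),(12,1)]⟩⟩,⟨false,1,⟨19,[(9,11),(14,3),(4,2),(0,2),
  (0,19),(10,1)]⟩,⟨3,[(4,1),(1,1),(21,0),(3,1),(0,0),(1,2)]⟩⟩,⟨false,0,⟨0,[(47,0)]⟩,⟨23,[(11,7),(2,
  3),(14,4),(0,4),(11,1),(6,11)]⟩⟩,⟨false,1,⟨15,[(0,11),(3,7),(13,3),(10,4),(0,8),(0,3),(2,3),(14,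
  1)]⟩,⟨1,[(1,0),(2,0),(1,1),(28,1)]⟩⟩,⟨true,0,⟨0,[(51,0)]⟩,⟨0,[]⟩⟩,⟨false,1,⟨47,[(0,47),(3,23),(6,
  7),(2,3),(3,23),(10,16),(0,28),(11,1)]⟩,⟨0,[(1,0),(2,0),(1,0),(28,0)]⟩⟩,[.e ⟨false,0,⟨3,[(0,0),(0,
  2),(5,0),(13,0),(17,1)]⟩,⟨31,[(4,1),(4,1),(1,9),(2,5),(15,14),(11,1),(2,1),(3,12)]⟩⟩ ⟨false,0,⟨0,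
  [(0,0)]⟩,⟨23,[(1,7),(13,7),(0,7),(11,3),(0,2),(0,6),(1,23),(9,5)]⟩⟩,.o ⟨false,1,⟨3,[(11,1),(21,1),
  (8,0),(6,2)]⟩,⟨1,[(1,0),(2,0),(30,1)]⟩⟩,.o ⟨false,1,⟨1,[(6,0),(0,0),(22,0),(11,0)]⟩,⟨2,[(5,1),(25,
  0),(2,0),(0,1),(1,0),(7,0)]⟩⟩,.a ⟨true,0,⟨0,[(32,0)]⟩,⟨0,[(31,0)]⟩⟩ ⟨false,0,⟨2,[(1,1),(3,0),(0,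
  0),(14,0),(3,0)]⟩,⟨47,[(4,23),(6,7),(2,3),(3,23),(10,16),(0,28),(11,1)]⟩⟩ ⟨true,0,⟨0,[(0,0)]⟩,⟨1,
  [(1,0),(2,0),(27,1),(2,1)]⟩⟩]⟩)) (.Q [0,0,-3,0,1,0,0,0,0,0,0,1] (.p true [0,0,0,1] [] (⟨0,[(31,
  0)]⟩,⟨0,[(30,0)]⟩) .k 0 (⟨0,[]⟩,⟨0,[]⟩) .k .k) (.I [0,0,2,2,-1,0,0,0,-1] (.Q [0,1,1,-2,0,0,0,0,1,
  0,0,-1] (.p false [0,0,0,1] [] (⟨0,[(33,0)]⟩,⟨0,[(32,0)]⟩) .k 0 (⟨0,[]⟩,⟨0,[]⟩) .k .k) (.R ⟨1,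
  false,false,false,[1,-1],[1,0,0,-1],[0,1,1],(⟨0,[(45,0)]⟩,⟨0,[(46,0)]⟩),(⟨0,[(33,0)]⟩,⟨0,[(34,
  0)]⟩),⟨2,[(14,0),(6,0),(23,1)]⟩,.k,.k,(.r (-1) ⟨2,[(0,0),(8,0),(8,1),(31,0)]⟩ ⟨3,[(1,3),(29,0),(0,
  2)]⟩),(.r (-1) ⟨15,[(0,3),(1,3),(15,3),(12,0),(0,6)]⟩ ⟨7,[(1,3),(29,2),(0,0)]⟩),(.r (-2) ⟨7,[(0,
  3),(1,3),(15,3),(12,2),(0,4)]⟩ ⟨0,[(1,0)]⟩),.k,⟨true,0,⟨2,[(0,1),(2,0),(18,0),(6,0),(4,1)]⟩,⟨0,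
  [(1,0),(16,0)]⟩⟩,⟨false,1,⟨0,[(2,0)]⟩,⟨33,[(0,23),(0,17),(1,3),(16,3),(10,4),(1,9),(10,4),(6,
  7)]⟩⟩,⟨false,0,⟨7,[(1,3),(29,0),(0,2),(6,3),(0,3)]⟩,⟨16,[(3,1),(1,1),(5,2),(4,0),(1,12),(4,0),(9,
  1),(16,0)]⟩⟩,⟨false,0,⟨0,[(5,0)]⟩,⟨13,[(0,9),(2,1),(16,1),(10,3),(0,4),(0,3),(10,1),(6,2)]⟩⟩,
  ⟨false,0,⟨3,[(1,3),(29,0),(0,2)]⟩,⟨0,[(18,0)]⟩⟩,⟨true,0,⟨10,[(5,6),(3,3),(2,2),(0,2),(2,2)]⟩,⟨0,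
  [(0,0)]⟩⟩,[.e ⟨false,0,⟨0,[(53,0)]⟩,⟨1,[(50,0),(0,0)]⟩⟩ ⟨false,1,⟨1,[(8,0),(0,0),(40,1)]⟩,⟨105,
  [(0,87),(0,15),(1,47),(12,3),(3,39),(5,3),(4,6),(1,17),(10,8)]⟩⟩,.a ⟨true,0,⟨0,[(8,0)]⟩,⟨5,[(0,3),
  (5,1),(9,0),(7,1),(4,3),(3,2),(0,0)]⟩⟩ ⟨true,0,⟨1,[(39,0),(0,0)]⟩,⟨0,[]⟩⟩ ⟨false,1,⟨0,[(8,0),(41,
  0)]⟩,⟨31,[(0,23),(0,19),(29,0),(0,14),(0,7),(10,3),(3,7)]⟩⟩,.o ⟨false,0,⟨1,[(0,0),(7,0),(14,1),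
  (12,1)]⟩,⟨3,[(31,0),(0,0),(17,1)]⟩⟩,.o ⟨false,0,⟨0,[(36,0),(2,0)]⟩,⟨0,[(50,0)]⟩⟩]⟩) (.K ⟨1,[1,-1,
  0,-1],0,0,(⟨3,[(7,1),(6,0),(2,0),(3,0),(11,1),(15,0)]⟩,⟨0,[(34,0),(11,0)]⟩),(.x (-1) ⟨15,[(14,3),
  (6,3),(9,6),(0,6),(11,1)]⟩ ⟨0,[(46,0)]⟩),(.r (-1) ⟨4,[(7,1),(1,1),(0,0),(7,3),(12,0),(5,1),(11,
  1)]⟩ ⟨0,[(1,0),(30,0)]⟩),.k,.k,.k,[⟨1,[(33,1),(5,0),(0,0)]⟩,⟨3,[(6,1),(1,1),(25,1),(0,0),(0,2),(0,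
  2),(1,0)]⟩,⟨0,[(6,0),(22,0),(3,0),(3,0)]⟩,⟨0,[(8,0),(40,0)]⟩]⟩)) (.K ⟨1,[1,-1,0,-1],0,0,(⟨3,[(6,
  1),(6,0),(2,0),(3,0),(11,1),(15,0)]⟩,⟨0,[(33,0),(11,0)]⟩),(.x (-1) ⟨15,[(13,3),(6,3),(9,6),(0,6),
  (11,1)]⟩ ⟨0,[(45,0)]⟩),(.r (-1) ⟨4,[(6,1),(1,1),(0,0),(7,3),(12,0),(5,1),(11,1)]⟩ ⟨0,[(2,0),(33,
  0),(2,0)]⟩),.k,.k,.k,[⟨1,[(32,1),(5,0),(0,0)]⟩,⟨3,[(5,1),(1,1),(25,1),(0,0),(0,2),(0,2),(1,0)]⟩,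
  ⟨0,[(5,0),(22,0),(3,0),(3,0)]⟩,⟨0,[(7,0),(40,0)]⟩]⟩)) (.K ⟨1,[1,-1,0,-1],0,0,(⟨3,[(5,1),(6,0),(2,
  0),(3,0),(11,1),(15,0)]⟩,⟨0,[(32,0),(11,0)]⟩),(.x (-1) ⟨15,[(12,3),(6,3),(9,6),(0,6),(11,1)]⟩ ⟨0,
  [(44,0)]⟩),(.r (-1) ⟨4,[(0,0),(4,1),(1,2),(8,4),(12,0),(5,1)]⟩ ⟨11,[(0,4),(0,5),(12,2),(9,2),(4,
  0),(0,3),(1,4),(13,5)]⟩),.k,.k,.k,[⟨9,[(0,1),(27,1),(0,0),(0,0),(0,7),(6,3)]⟩,⟨4,[(0,0),(3,1),(1,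
  1),(25,3),(0,0),(0,1),(0,2),(6,0)]⟩,⟨0,[(4,0),(22,0),(3,0),(3,0)]⟩,⟨0,[(6,0),(40,0)]⟩]⟩)))))) (.Q
  [0,0,0,0,0,-1,0,0,0,1,0,-1] (.ed true [0,1,0,1] .k) (.I [1,0,-1,0,0,0,0,0,-1] (.I [1,-1,-1,0,0,0,
  0,0,-1] (.R ⟨1,false,false,false,[1,0,0,-1],[1,0,-1],[1,1,0,0,0,0,0,0,-1],(⟨0,[(29,0)]⟩,⟨0,[(30,
  0)]⟩),(⟨0,[(38,0)]⟩,⟨0,[(39,0)]⟩),⟨0,[(2,0)]⟩,.k,.k,(.x (-1) ⟨15,[(10,3),(6,3),(9,6),(0,6),(11,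
  1)]⟩ ⟨0,[(42,0)]⟩),.k,(.x 0 ⟨1,[(10,0),(8,1),(19,0),(5,1)]⟩ ⟨4,[(7,0),(13,1),(5,1),(0,1),(9,0),(3,
  6)]⟩),.k,⟨false,0,⟨0,[(0,0),(24,0),(7,0),(11,0)]⟩,⟨1,[(28,0),(8,1),(9,0)]⟩⟩,⟨true,0,⟨0,[(29,0),(2,
  0)]⟩,⟨0,[(3,0),(33,0)]⟩⟩,⟨false,0,⟨0,[]⟩,⟨3,[(27,0),(0,0),(18,1)]⟩⟩,⟨false,1,⟨1,[(28,0),(0,1),(2,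
  1),(4,1),(9,0)]⟩,⟨0,[(4,0),(28,0)]⟩⟩,⟨true,0,⟨0,[(44,0)]⟩,⟨0,[(45,0)]⟩⟩,⟨false,1,⟨5,[(9,2),(18,2),
  (0,5),(2,3),(2,0),(1,2),(2,0),(2,0),(3,1)]⟩,⟨0,[(4,0),(28,0),(11,0)]⟩⟩,[.a ⟨true,0,⟨0,[(9,0),(35,
  1)]⟩,⟨0,[(3,0),(25,0)]⟩⟩ ⟨false,0,⟨0,[(1,0),(47,0)]⟩,⟨1,[(28,0),(18,0)]⟩⟩ ⟨true,0,⟨0,[(29,0),(2,
  0),(4,0)]⟩,⟨0,[(3,0)]⟩⟩,.o ⟨false,1,⟨0,[(31,0),(15,0)]⟩,⟨0,[(33,0)]⟩⟩,.o ⟨false,1,⟨1,[(4,0),(0,0),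
  (22,0),(11,0)]⟩,⟨0,[(19,0),(9,0),(2,0),(12,0)]⟩⟩,.e ⟨false,0,⟨0,[(1,0)]⟩,⟨1,[(28,0),(6,0),(0,0),
  (10,0)]⟩⟩ ⟨false,1,⟨0,[(29,0),(1,0),(15,0)]⟩,⟨0,[(3,0)]⟩⟩]⟩) (.I [0,1,-1,-2,0,0,0,1,-1] (.R ⟨1,
  false,false,false,[1,0,0,-1],[1,1,-1],[0,1,0,-1,0,0,0,0,-1],(⟨0,[(30,0)]⟩,⟨0,[(31,0)]⟩),(⟨0,[(39,
  0),(3,0)]⟩,⟨0,[(16,0)]⟩),⟨0,[(3,0)]⟩,.k,.k,(.x (-1) ⟨15,[(11,3),(6,3),(9,6),(0,6),(11,1)]⟩ ⟨0,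
  [(43,0)]⟩),(.x 0 ⟨1,[(11,0),(8,1),(19,0),(5,1)]⟩ ⟨4,[(8,0),(13,1),(5,1),(0,1),(9,0),(3,6)]⟩),(.r
  (-1) ⟨85,[(0,49),(7,7),(4,17),(1,57),(7,9),(2,7),(1,18),(0,0)]⟩ ⟨6,[(1,6),(8,5),(9,1),(3,0),(11,
  3),(7,2)]⟩),.k,⟨true,0,⟨0,[(0,0)]⟩,⟨6,[(1,6),(8,4),(9,3),(3,1),(11,0),(7,5)]⟩⟩,⟨false,1,⟨19,[(8,
  11),(14,3),(4,2),(0,2),(0,19),(10,1)]⟩,⟨0,[(4,0),(33,0)]⟩⟩,⟨false,0,⟨0,[(46,0)]⟩,⟨23,[(10,7),(2,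
  3),(14,4),(0,4),(11,1),(6,11)]⟩⟩,⟨false,1,⟨5,[(10,2),(18,2),(0,5),(2,3),(2,0),(1,2),(2,0),(2,0),
  (3,1)]⟩,⟨2,[(0,1),(3,1),(0,0),(14,0),(3,0)]⟩⟩,⟨true,0,⟨0,[(50,0)]⟩,⟨0,[]⟩⟩,⟨false,1,⟨5,[(10,5),
  (18,2),(0,5),(2,1),(2,1),(4,1),(2,1),(3,0)]⟩,⟨0,[(0,0),(3,0),(19,0)]⟩⟩,[.a ⟨true,0,⟨0,[(10,0),(35,
  0)]⟩,⟨0,[(4,0),(25,0),(15,0)]⟩⟩ ⟨false,0,⟨3,[(0,1),(1,1),(24,0),(4,0),(2,0)]⟩,⟨37,[(8,1),(1,11),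
  (2,5),(6,1),(8,18),(11,1),(2,3),(3,14)]⟩⟩ ⟨true,0,⟨2,[(9,0),(0,0),(13,0),(5,2),(2,1),(2,0)]⟩,⟨0,
  [(4,0),(41,0)]⟩⟩,.o ⟨false,1,⟨3,[(10,1),(21,1),(8,0),(6,2)]⟩,⟨0,[(34,0),(11,0)]⟩⟩,.o ⟨false,1,⟨1,
  [(5,0),(0,0),(22,0),(11,0)]⟩,⟨0,[(20,0),(9,0),(2,0),(12,0)]⟩⟩,.e ⟨false,0,⟨1,[(0,0),(1,0),(21,
  0)]⟩,⟨11,[(1,3),(8,3),(6,3),(10,0),(0,4),(6,3),(11,5)]⟩⟩ ⟨false,1,⟨3,[(10,1),(19,3),(1,1),(8,0),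
  (6,2)]⟩,⟨0,[(4,0),(41,0)]⟩⟩]⟩) (.K ⟨1,[1,-1,0,-1],0,0,(⟨0,[(3,0)]⟩,⟨0,[(31,0),(11,0)]⟩),(.x (-1)
  ⟨15,[(11,3),(6,3),(9,6),(0,6),(11,1)]⟩ ⟨0,[(43,0)]⟩),(.r (-1) ⟨3,[(2,1),(12,2),(12,0),(17,1),(3,
  2)]⟩ ⟨11,[(0,5),(0,5),(8,1),(2,3),(9,3),(12,4),(0,2)]⟩),.k,.k,.k,[⟨1,[(30,1),(5,0),(0,0)]⟩,⟨2,[(4,
  1),(19,0),(6,0),(0,0),(0,1),(2,0)]⟩,⟨5,[(0,0),(0,4),(7,0),(3,0),(12,0),(3,5)]⟩,⟨0,[(5,0),(40,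
  0)]⟩]⟩))) (.Q [0,1,1,-1,0,0,0,0,1,0,0,-1] (.p false [0,0,0,1] [] (⟨0,[(29,0)]⟩,⟨0,[(28,0)]⟩) .k 0
  (⟨0,[]⟩,⟨0,[]⟩) .k .k) (.R ⟨2,false,false,true,[0,1],[0,0,0,1],[0,1],(⟨0,[]⟩,⟨0,[]⟩),(⟨0,[(30,
  0)]⟩,⟨0,[(29,0)]⟩),⟨0,[]⟩,.k,.k,.k,(.r 0 ⟨11,[(6,11),(2,3),(2,1),(9,1),(12,6),(0,2)]⟩ ⟨9,[(0,1),
  (4,1),(8,3),(13,4),(17,0)]⟩),.k,.k,⟨true,0,⟨0,[(1,0),(0,1),(1,1),(3,3),(3,2),(9,0),(0,1),(18,1),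
  (2,9)]⟩,⟨0,[(1,0)]⟩⟩,⟨false,0,⟨0,[(19,0),(9,0),(2,0),(12,0)]⟩,⟨1,[(4,0),(0,0),(22,0),(17,0)]⟩⟩,
  ⟨false,1,⟨19,[(0,3),(4,3),(8,7),(12,4),(0,4),(17,1)]⟩,⟨2,[(9,0),(6,0),(18,0),(7,0)]⟩⟩,⟨true,0,⟨0,
  [(0,0)]⟩,⟨4,[(4,2),(0,1),(2,0),(0,0),(2,0)]⟩⟩,⟨false,1,⟨3,[(27,0),(0,0),(17,1)]⟩,⟨3,[(35,0),(0,0),
  (6,1)]⟩⟩,⟨false,1,⟨23,[(0,23),(8,7),(2,3),(14,4),(0,4),(11,1),(6,11)]⟩,⟨0,[(4,0)]⟩⟩,[.e ⟨true,0,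
  ⟨0,[(49,0)]⟩,⟨3,[(35,0),(0,0),(6,1)]⟩⟩ ⟨true,0,⟨11,[(0,11),(8,3),(2,1),(9,1),(12,6),(0,2)]⟩,⟨0,
  [(4,0)]⟩⟩,.a ⟨true,0,⟨0,[(1,0),(27,0)]⟩,⟨1,[(4,0),(0,0)]⟩⟩ ⟨false,1,⟨3,[(27,0),(0,0),(17,1)]⟩,⟨0,
  []⟩⟩ ⟨true,0,⟨2,[(0,2),(8,0),(6,0),(18,0),(7,0)]⟩,⟨1,[(4,0),(0,0)]⟩⟩,.o ⟨false,1,⟨3,[(27,0),(0,0),
  (17,1)]⟩,⟨0,[(19,0),(12,0),(12,0)]⟩⟩,.e ⟨false,1,⟨3,[(27,0),(0,0),(17,1)]⟩,⟨3,[(35,0),(0,0),(6,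
  1)]⟩⟩ ⟨false,1,⟨23,[(0,23),(8,7),(2,3),(14,4),(0,4),(11,1),(6,11)]⟩,⟨0,[(4,0)]⟩⟩]⟩) (.Q [0,0,0,1,
  0,0,0,0,0,1,0,-1] (.p false [0,0,0,1] [1] (⟨0,[(30,0)]⟩,⟨0,[(29,0)]⟩) .k 1 (⟨0,[]⟩,⟨0,[]⟩) .k .k)
  (.Q [0,0,1,2,0,0,0,0,1,1,0,-1] (.p false [0,0,0,1] [1] (⟨0,[(31,0)]⟩,⟨0,[(30,0)]⟩) .k 1 (⟨0,[]⟩,
  ⟨0,[]⟩) .k .k) (.R ⟨1,false,false,true,[1,0,0,-1],[0,1],[1,0,0,0,0,0,0,0,-1],(⟨0,[(31,0)]⟩,⟨0,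
  [(32,0)]⟩),(⟨0,[(44,0)]⟩,⟨0,[(43,0)]⟩),⟨0,[(4,0)]⟩,.k,.k,(.x (-1) ⟨15,[(12,3),(6,3),(9,6),(0,6),
  (11,1)]⟩ ⟨0,[(44,0)]⟩),(.x (-1) ⟨15,[(12,3),(6,3),(9,6),(0,6),(11,1)]⟩ ⟨0,[(44,0)]⟩),(.r (-1) ⟨6,
  [(7,1),(0,2),(7,5),(12,0),(1,1),(1,1),(1,1),(11,1)]⟩ ⟨3,[(0,0),(2,2),(7,1),(2,0),(17,0),(1,1),(2,
  1)]⟩),.k,⟨false,1,⟨17,[(1,3),(0,3),(5,11),(0,1),(6,13),(4,1),(7,0),(12,0)]⟩,⟨0,[(3,0),(42,0)]⟩⟩,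
  ⟨true,0,⟨0,[(31,0)]⟩,⟨2,[(5,1),(19,0),(6,0),(0,0),(0,1),(2,0)]⟩⟩,⟨true,0,⟨0,[]⟩,⟨0,[(51,0)]⟩⟩,
  ⟨false,0,⟨1,[(0,0),(2,0),(27,0)]⟩,⟨21,[(6,11),(9,5),(12,4),(2,9),(9,10),(2,1),(1,9)]⟩⟩,⟨false,1,
  ⟨23,[(11,7),(2,3),(14,4),(0,4),(11,1),(6,11)]⟩,⟨0,[(47,0)]⟩⟩,⟨false,0,⟨0,[(0,0)]⟩,⟨21,[(6,11),(9,
  5),(12,4),(2,9),(9,10),(2,1),(1,31)]⟩⟩,[.o ⟨false,0,⟨0,[(46,0)]⟩,⟨3,[(16,1),(17,1),(2,1),(4,0),(6,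
  0)]⟩⟩,.a ⟨true,0,⟨0,[(1,0),(30,0)]⟩,⟨0,[(47,0)]⟩⟩ ⟨true,0,⟨0,[(6,0),(14,0),(9,0),(2,0),(12,0)]⟩,
  ⟨0,[(3,0),(47,0)]⟩⟩ ⟨false,0,⟨0,[(1,0)]⟩,⟨5,[(7,1),(8,1),(13,0),(1,3),(9,2),(4,1)]⟩⟩,.o ⟨false,1,
  ⟨1,[(6,0),(0,0),(22,0),(11,0)]⟩,⟨0,[(21,0),(9,0),(2,0),(12,0)]⟩⟩,.e ⟨false,1,⟨5,[(1,1),(0,1),(13,
  1),(12,1),(12,0),(6,0)]⟩,⟨0,[(3,0)]⟩⟩ ⟨false,0,⟨0,[(1,0)]⟩,⟨3,[(16,1),(15,3),(1,1),(2,1),(4,0),(6,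
  0)]⟩⟩]⟩) (.R ⟨1,true,false,true,[1,0,0,-1],[0,1],[1,0,0,0,0,0,0,0,-1],(⟨0,[(31,0)]⟩,⟨0,[(32,0)]⟩),
  (⟨0,[(44,0)]⟩,⟨0,[(43,0)]⟩),⟨0,[(4,0)]⟩,.k,.k,(.x (-1) ⟨15,[(12,3),(6,3),(9,6),(0,6),(11,1)]⟩ ⟨0,
  [(44,0)]⟩),(.x (-1) ⟨15,[(12,3),(6,3),(9,6),(0,6),(11,1)]⟩ ⟨0,[(44,0)]⟩),(.r (-1) ⟨3,[(0,1),(15,
  1),(12,0),(1,1),(16,0),(2,1)]⟩ ⟨2,[(3,2),(7,1),(2,0),(9,0),(12,1)]⟩),.k,⟨false,1,⟨17,[(1,3),(0,3),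
  (5,11),(0,1),(6,13),(4,1),(7,0),(12,0)]⟩,⟨0,[(3,0),(42,0)]⟩⟩,⟨true,0,⟨0,[(31,0)]⟩,⟨4,[(0,0),(2,0),
  (1,1),(4,1),(21,1),(1,1),(2,1),(7,0)]⟩⟩,⟨true,0,⟨0,[]⟩,⟨0,[(51,0)]⟩⟩,⟨false,0,⟨0,[(1,0),(1,0)]⟩,
  ⟨19,[(0,5),(5,5),(9,3),(12,3),(2,7),(9,6),(6,4)]⟩⟩,⟨false,1,⟨23,[(11,7),(2,3),(14,4),(0,4),(11,1),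
  (6,11)]⟩,⟨0,[(47,0)]⟩⟩,⟨true,0,⟨0,[(1,0),(1,0),(42,0)]⟩,⟨0,[(0,0)]⟩⟩,[]⟩)) (.I [0,1,0,-1,0,0,0,1]
  (.I [1,1,0,0,0,0,0,1] (.R ⟨1,false,false,true,[1,0,0,-1],[0,0,1],[1,0,0,0,0,0,0,0,-1],(⟨0,[(32,
  0)]⟩,⟨0,[(33,0)]⟩),(⟨0,[(42,0)]⟩,⟨0,[(41,0)]⟩),⟨0,[(5,0)]⟩,.k,.k,(.x (-1) ⟨15,[(13,3),(6,3),(9,6),
  (0,6),(11,1)]⟩ ⟨0,[(45,0)]⟩),.k,(.r 0 ⟨0,[(7,0),(14,0),(9,0),(1,0),(13,1)]⟩ ⟨3,[(15,1),(9,1),(4,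
  0),(0,2),(6,0),(0,0)]⟩),.k,⟨true,0,⟨0,[(9,0),(16,0)]⟩,⟨0,[(0,0),(3,0)]⟩⟩,⟨false,0,⟨0,[(22,0),(9,
  0),(15,0)]⟩,⟨19,[(10,11),(14,3),(4,2),(0,2),(1,19),(9,1)]⟩⟩,⟨true,0,⟨0,[]⟩,⟨0,[(52,0)]⟩⟩,⟨true,0,
  ⟨0,[(4,0),(27,0),(3,0)]⟩,⟨0,[(7,0),(26,0)]⟩⟩,⟨false,1,⟨23,[(12,7),(2,3),(14,4),(0,4),(11,1),(6,
  11)]⟩,⟨0,[(48,0)]⟩⟩,⟨true,0,⟨0,[(4,0),(16,0),(10,0)]⟩,⟨0,[(7,0),(26,0),(13,0)]⟩⟩,[.o ⟨false,0,⟨0,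
  [(36,0)]⟩,⟨0,[(34,0),(15,0)]⟩⟩,.e ⟨true,0,⟨0,[(7,0),(14,0),(9,0),(2,0),(12,0)]⟩,⟨0,[(4,0),(47,
  0)]⟩⟩ ⟨true,0,⟨3,[(1,0),(14,0),(15,3),(2,0),(0,0),(1,1),(7,0)]⟩,⟨0,[(2,0),(9,0),(35,0)]⟩⟩,.o
  ⟨false,1,⟨1,[(7,0),(0,0),(22,0),(11,0)]⟩,⟨0,[(22,0),(9,0),(2,0),(12,0)]⟩⟩,.a ⟨true,0,⟨0,[(33,0)]⟩,
  ⟨0,[(32,0)]⟩⟩ ⟨false,1,⟨8,[(3,2),(6,0),(6,1),(4,0),(7,2),(1,2),(10,0),(6,1)]⟩,⟨0,[(4,0)]⟩⟩ ⟨true,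
  0,⟨0,[(32,0),(3,0)]⟩,⟨0,[(2,0),(9,0),(35,0)]⟩⟩]⟩) (.Q [0,0,-1,-2,0,0,0,0,-1,-1,0,1] (.p true [0,0,
  0,1] [1] (⟨0,[(33,0)]⟩,⟨0,[(32,0)]⟩) .k 1 (⟨0,[]⟩,⟨0,[]⟩) .k .k) (.Q [0,0,1,1,0,0,0,0,1,1,0,-1]
  (.p false [0,0,0,1] [1] (⟨0,[(34,0)]⟩,⟨0,[(33,0)]⟩) .k 1 (⟨0,[]⟩,⟨0,[]⟩) .k .k) (.R ⟨1,true,false,
  true,[1,0,0,-1],[0,1],[1,0,0,0,0,0,0,0,-1],(⟨0,[(34,0)]⟩,⟨0,[(35,0)]⟩),(⟨0,[(47,0)]⟩,⟨0,[(46,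
  0)]⟩),⟨0,[(7,0)]⟩,.k,.k,(.x (-1) ⟨15,[(15,3),(6,3),(9,6),(0,6),(11,1)]⟩ ⟨0,[(47,0)]⟩),(.x (-1)
  ⟨15,[(15,3),(6,3),(9,6),(0,6),(11,1)]⟩ ⟨0,[(47,0)]⟩),(.r (-1) ⟨3,[(1,1),(17,1),(12,0),(1,1),(16,
  0),(2,1)]⟩ ⟨2,[(6,2),(7,1),(2,0),(9,0),(12,1)]⟩),.k,⟨false,1,⟨13,[(5,3),(5,7),(0,1),(6,9),(4,1),
  (7,0),(1,3),(10,0)]⟩,⟨0,[(6,0),(42,0)]⟩⟩,⟨true,0,⟨0,[(34,0)]⟩,⟨3,[(4,1),(3,0),(5,0),(20,0),(1,1),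
  (2,1)]⟩⟩,⟨true,0,⟨0,[]⟩,⟨0,[(54,0)]⟩⟩,⟨false,0,⟨0,[(0,0)]⟩,⟨15,[(4,7),(4,7),(9,3),(12,4),(0,0),
  (11,3),(6,1)]⟩⟩,⟨false,1,⟨23,[(14,7),(2,3),(14,4),(0,4),(11,1),(6,11)]⟩,⟨0,[(50,0)]⟩⟩,⟨true,0,⟨0,
  [(0,0),(48,0)]⟩,⟨0,[(1,0)]⟩⟩,[]⟩) (.R ⟨2,true,false,false,[0,1],[1,0,0,-1],[0,1,1],(⟨0,[]⟩,⟨0,
  []⟩),(⟨0,[(34,0)]⟩,⟨0,[(35,0)]⟩),⟨0,[]⟩,.k,.k,.k,(.x 0 ⟨0,[(47,0)]⟩ ⟨15,[(15,3),(6,3),(9,6),(0,6),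
  (11,1)]⟩),.k,.k,⟨true,0,⟨0,[(6,0),(47,0)]⟩,⟨8,[(0,3),(4,0),(5,3),(1,0),(7,0),(2,0),(9,4),(13,
  3)]⟩⟩,⟨false,1,⟨1,[(9,0),(0,0),(22,0),(11,0)]⟩,⟨0,[(34,0)]⟩⟩,⟨false,0,⟨0,[(50,0)]⟩,⟨23,[(14,7),(2,
  3),(14,4),(0,4),(11,1),(6,11)]⟩⟩,⟨true,0,⟨0,[(0,0)]⟩,⟨0,[(6,0),(27,0),(14,0)]⟩⟩,⟨true,0,⟨0,[(54,
  0)]⟩,⟨0,[]⟩⟩,⟨false,1,⟨3,[(9,3),(22,0),(0,0),(11,1)]⟩,⟨0,[(6,0),(27,0)]⟩⟩,[]⟩)) (.R ⟨1,false,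
  false,true,[1,0,0,-1],[0,1],[1,0,0,0,0,0,0,0,-1],(⟨0,[(33,0)]⟩,⟨0,[(34,0)]⟩),(⟨0,[(46,0)]⟩,⟨0,
  [(45,0)]⟩),⟨0,[(6,0)]⟩,.k,.k,(.x (-1) ⟨15,[(14,3),(6,3),(9,6),(0,6),(11,1)]⟩ ⟨0,[(46,0)]⟩),(.x
  (-1) ⟨15,[(14,3),(6,3),(9,6),(0,6),(11,1)]⟩ ⟨0,[(46,0)]⟩),(.r (-1) ⟨8,[(2,1),(6,1),(0,4),(7,7),
  (11,0),(0,0),(1,1),(1,2),(1,0)]⟩ ⟨2,[(5,2),(7,1),(2,0),(9,0),(12,1)]⟩),.k,⟨false,1,⟨13,[(4,3),(5,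
  7),(0,1),(6,9),(4,1),(7,0),(1,3),(10,0)]⟩,⟨0,[(5,0),(42,0)]⟩⟩,⟨true,0,⟨0,[(33,0)]⟩,⟨3,[(3,1),(3,
  0),(5,0),(20,0),(1,1),(2,1)]⟩⟩,⟨true,0,⟨0,[]⟩,⟨0,[(53,0)]⟩⟩,⟨false,0,⟨1,[(0,0),(4,0),(27,0)]⟩,⟨15,
  [(3,7),(4,7),(9,3),(12,4),(0,0),(11,3),(6,1)]⟩⟩,⟨false,1,⟨23,[(13,7),(2,3),(14,4),(0,4),(11,1),(6,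
  11)]⟩,⟨0,[(49,0)]⟩⟩,⟨false,0,⟨0,[(0,0)]⟩,⟨21,[(3,19),(4,1),(1,1),(7,11),(12,8),(12,0),(2,3)]⟩⟩,
  [.o ⟨false,0,⟨0,[(48,0)]⟩,⟨3,[(18,1),(17,1),(2,1),(4,0),(6,0)]⟩⟩,.e ⟨true,0,⟨0,[(8,0),(14,0),(9,
  0),(2,0),(12,0)]⟩,⟨0,[(5,0),(47,0)]⟩⟩ ⟨true,0,⟨3,[(0,1),(9,1),(22,1),(5,0),(0,0)]⟩,⟨0,[(3,0)]⟩⟩,
  .o ⟨false,1,⟨1,[(8,0),(0,0),(22,0),(11,0)]⟩,⟨0,[(23,0),(9,0),(2,0),(12,0)]⟩⟩,.a ⟨true,0,⟨0,[(34,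
  0)]⟩,⟨0,[(33,0)]⟩⟩ ⟨false,1,⟨8,[(4,2),(6,0),(6,1),(4,0),(7,2),(1,2),(10,0),(6,1)]⟩,⟨0,[(5,0)]⟩⟩
  ⟨true,0,⟨0,[(33,0),(14,0)]⟩,⟨0,[(3,0)]⟩⟩]⟩))) (.Q [0,0,-1,-2,0,0,0,0,-1,-1,0,1] (.p true [0,0,0,
  1] [1] (⟨0,[(32,0)]⟩,⟨0,[(31,0)]⟩) .k 1 (⟨0,[]⟩,⟨0,[]⟩) .k .k) (.Q [0,0,1,1,0,0,0,0,1,1,0,-1] (.p
  false [0,0,0,1] [1] (⟨0,[(33,0)]⟩,⟨0,[(32,0)]⟩) .k 1 (⟨0,[]⟩,⟨0,[]⟩) .k .k) (.R ⟨1,true,false,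
  true,[1,0,0,-1],[0,1],[1,0,0,0,0,0,0,0,-1],(⟨0,[(33,0)]⟩,⟨0,[(34,0)]⟩),(⟨0,[(46,0)]⟩,⟨0,[(45,
  0)]⟩),⟨0,[(6,0)]⟩,.k,.k,(.x (-1) ⟨15,[(14,3),(6,3),(9,6),(0,6),(11,1)]⟩ ⟨0,[(46,0)]⟩),(.x (-1)
  ⟨15,[(14,3),(6,3),(9,6),(0,6),(11,1)]⟩ ⟨0,[(46,0)]⟩),(.r (-1) ⟨3,[(1,1),(16,1),(12,0),(1,1),(16,
  0),(2,1)]⟩ ⟨2,[(5,2),(7,1),(2,0),(9,0),(12,1)]⟩),.k,⟨false,1,⟨13,[(4,3),(5,7),(0,1),(6,9),(4,1),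
  (7,0),(1,3),(10,0)]⟩,⟨0,[(5,0),(42,0)]⟩⟩,⟨true,0,⟨0,[(33,0)]⟩,⟨3,[(3,1),(3,0),(5,0),(20,0),(1,1),
  (2,1)]⟩⟩,⟨true,0,⟨0,[]⟩,⟨0,[(53,0)]⟩⟩,⟨false,0,⟨0,[(0,0)]⟩,⟨15,[(3,7),(4,7),(9,3),(12,4),(0,0),
  (11,3),(6,1)]⟩⟩,⟨false,1,⟨23,[(13,7),(2,3),(14,4),(0,4),(11,1),(6,11)]⟩,⟨0,[(49,0)]⟩⟩,⟨true,0,⟨0,
  [(0,0),(47,0)]⟩,⟨0,[(1,0)]⟩⟩,[]⟩) (.R ⟨2,true,false,false,[0,1],[1,0,0,-1],[0,1,1],(⟨0,[]⟩,⟨0,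
  []⟩),(⟨0,[(33,0)]⟩,⟨0,[(34,0)]⟩),⟨0,[]⟩,.k,.k,.k,(.x 0 ⟨0,[(46,0)]⟩ ⟨15,[(14,3),(6,3),(9,6),(0,6),
  (11,1)]⟩),.k,.k,⟨true,0,⟨0,[(5,0),(47,0)]⟩,⟨3,[(0,1),(1,0),(7,1),(9,0),(12,1),(13,0)]⟩⟩,⟨false,1,
  ⟨1,[(8,0),(0,0),(22,0),(11,0)]⟩,⟨0,[(33,0)]⟩⟩,⟨false,0,⟨0,[(49,0)]⟩,⟨23,[(13,7),(2,3),(14,4),(0,
  4),(11,1),(6,11)]⟩⟩,⟨true,0,⟨0,[(0,0)]⟩,⟨0,[(5,0),(27,0),(14,0)]⟩⟩,⟨true,0,⟨0,[(53,0)]⟩,⟨0,[]⟩⟩,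
  ⟨false,1,⟨3,[(8,3),(22,0),(0,0),(11,1)]⟩,⟨0,[(5,0),(27,0)]⟩⟩,[]⟩)) (.R ⟨1,false,false,true,[1,0,0,
  -1],[0,1],[1,0,0,0,0,0,0,0,-1],(⟨0,[(32,0)]⟩,⟨0,[(33,0)]⟩),(⟨0,[(45,0)]⟩,⟨0,[(44,0)]⟩),⟨0,[(5,
  0)]⟩,.k,.k,(.x (-1) ⟨15,[(13,3),(6,3),(9,6),(0,6),(11,1)]⟩ ⟨0,[(45,0)]⟩),(.x (-1) ⟨15,[(13,3),(6,
  3),(9,6),(0,6),(11,1)]⟩ ⟨0,[(45,0)]⟩),(.r (-1) ⟨6,[(8,1),(0,2),(7,5),(12,0),(1,1),(1,1),(1,1),(11,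
  1)]⟩ ⟨1,[(0,0),(3,0),(1,0),(5,0),(22,0),(2,0)]⟩),.k,⟨false,1,⟨13,[(3,3),(5,7),(0,1),(6,9),(4,1),
  (7,0),(1,3),(10,0)]⟩,⟨0,[(4,0),(42,0)]⟩⟩,⟨true,0,⟨0,[(32,0)]⟩,⟨3,[(2,1),(3,0),(5,0),(20,0),(1,1),
  (2,1)]⟩⟩,⟨true,0,⟨0,[]⟩,⟨0,[(52,0)]⟩⟩,⟨false,0,⟨1,[(0,0),(3,0),(27,0)]⟩,⟨15,[(2,7),(4,7),(9,3),
  (12,4),(0,0),(11,3),(6,1)]⟩⟩,⟨false,1,⟨23,[(12,7),(2,3),(14,4),(0,4),(11,1),(6,11)]⟩,⟨0,[(48,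
  0)]⟩⟩,⟨false,0,⟨0,[(0,0)]⟩,⟨21,[(2,19),(4,1),(1,1),(7,11),(12,8),(12,0),(2,3)]⟩⟩,[.o ⟨false,0,⟨0,
  [(47,0)]⟩,⟨3,[(17,1),(17,1),(2,1),(4,0),(6,0)]⟩⟩,.e ⟨true,0,⟨0,[(7,0),(14,0),(9,0),(2,0),(12,0)]⟩,
  ⟨0,[(4,0),(47,0)]⟩⟩ ⟨true,0,⟨3,[(0,1),(8,1),(22,1),(5,0),(0,0)]⟩,⟨0,[(2,0)]⟩⟩,.o ⟨false,1,⟨1,[(7,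
  0),(0,0),(22,0),(11,0)]⟩,⟨0,[(22,0),(9,0),(2,0),(12,0)]⟩⟩,.a ⟨true,0,⟨0,[(33,0)]⟩,⟨0,[(32,0)]⟩⟩
  ⟨false,1,⟨69,[(1,15),(1,7),(6,15),(4,7),(1,19),(12,30),(1,7),(13,9),(3,2)]⟩,⟨0,[(4,0)]⟩⟩ ⟨true,0,
  ⟨0,[(32,0),(14,0)]⟩,⟨0,[(2,0)]⟩⟩]⟩)))))) (.Q [0,1,1,1,0,0,1,1,1,1,-1,-1] (.p false [0,0,1] [1,0,0,
  -1] (⟨0,[(37,0)]⟩,⟨0,[(36,0)]⟩) .k 2 (⟨0,[(27,0)]⟩,⟨0,[(28,0)]⟩) .k (.r (-1) ⟨23,[(11,9),(0,5),(7,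
  9),(2,1),(1,2),(0,14),(4,3),(2,1)]⟩ ⟨0,[(4,0),(30,0)]⟩)) (.Q [0,0,0,0,0,0,-1,-1,0,-1,1,1] (.p
  true [0,0,1] [1,0,0,-1] (⟨0,[(38,0)]⟩,⟨0,[(37,0)]⟩) .k 2 (⟨0,[(28,0)]⟩,⟨0,[(29,0)]⟩) .k (.r (-1)
  ⟨23,[(0,1),(3,1),(7,9),(0,5),(7,11),(4,2),(0,14),(4,1)]⟩ ⟨0,[(5,0),(30,0)]⟩)) (.R ⟨0,false,false,
  true,[1,0,0,-1],[0,0,1],[1,1],(⟨0,[(29,0)]⟩,⟨0,[(30,0)]⟩),(⟨0,[(39,0)]⟩,⟨0,[(38,0)]⟩),⟨0,[(2,0)]⟩,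
  .k,.k,(.x (-1) ⟨15,[(10,3),(6,3),(9,6),(0,6),(11,1)]⟩ ⟨0,[(42,0)]⟩),.k,.k,.k,⟨true,0,⟨0,[(37,0)]⟩,
  ⟨3,[(13,1),(8,1),(12,0),(0,0),(8,1)]⟩⟩,⟨false,0,⟨0,[(19,0),(9,0),(15,0)]⟩,⟨19,[(7,11),(14,3),(4,
  2),(0,2),(1,19),(9,1)]⟩⟩,⟨false,1,⟨3,[(27,0),(0,2)]⟩,⟨0,[(4,0),(14,0),(9,0),(2,0),(12,0)]⟩⟩,⟨true,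
  0,⟨0,[(1,0),(43,0)]⟩,⟨0,[(4,0),(26,0)]⟩⟩,⟨false,0,⟨0,[]⟩,⟨0,[]⟩⟩,⟨false,0,⟨0,[]⟩,⟨0,[]⟩⟩,[.o
  ⟨false,0,⟨0,[(33,0)]⟩,⟨0,[(31,0),(15,0)]⟩⟩,.e ⟨true,0,⟨0,[]⟩,⟨1,[(35,0),(0,0)]⟩⟩ ⟨true,0,⟨1,[(13,
  0),(15,1),(2,0),(2,0),(9,0)]⟩,⟨0,[(0,0)]⟩⟩,.o ⟨false,1,⟨1,[(4,0),(0,0),(22,0),(11,0)]⟩,⟨0,[(19,0),
  (9,0),(2,0),(12,0)]⟩⟩,.a ⟨true,0,⟨0,[(30,0)]⟩,⟨0,[(29,0)]⟩⟩ ⟨false,1,⟨3,[(27,0),(0,0),(17,1)]⟩,⟨3,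
  [(35,0),(0,0),(6,1)]⟩⟩ ⟨true,0,⟨0,[(29,0),(3,0)]⟩,⟨0,[(0,0)]⟩⟩]⟩) (.R ⟨0,false,false,true,[1,0,0,
  -1],[0,0,1],[1,1],(⟨0,[(29,0)]⟩,⟨0,[(30,0)]⟩),(⟨0,[(39,0)]⟩,⟨0,[(38,0)]⟩),⟨0,[(2,0)]⟩,.k,.k,(.x
  (-1) ⟨15,[(10,3),(6,3),(9,6),(0,6),(11,1)]⟩ ⟨0,[(42,0)]⟩),.k,.k,.k,⟨true,0,⟨0,[(37,0)]⟩,⟨3,[(0,1),
  (2,1),(18,1),(12,0),(0,0)]⟩⟩,⟨false,0,⟨0,[(0,0),(36,0)]⟩,⟨19,[(7,11),(14,3),(4,2),(0,2),(1,19),(9,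
  1)]⟩⟩,⟨false,1,⟨3,[(27,0),(0,2)]⟩,⟨1,[(0,0),(3,0),(1,0),(16,0),(8,0)]⟩⟩,⟨true,0,⟨0,[(1,0),(43,
  0)]⟩,⟨0,[(4,0),(26,0)]⟩⟩,⟨false,0,⟨0,[]⟩,⟨0,[]⟩⟩,⟨false,0,⟨0,[]⟩,⟨0,[]⟩⟩,[.o ⟨false,0,⟨0,[(33,
  0)]⟩,⟨0,[(31,0),(15,0)]⟩⟩,.a ⟨true,0,⟨0,[(3,0),(25,0)]⟩,⟨0,[(9,0),(35,1)]⟩⟩ ⟨true,0,⟨0,[]⟩,⟨1,
  [(35,0),(0,0)]⟩⟩ ⟨false,0,⟨0,[(0,0)]⟩,⟨1,[(4,1),(23,0),(5,1),(5,0)]⟩⟩,.o ⟨false,1,⟨1,[(4,0),(0,0),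
  (22,0),(11,0)]⟩,⟨2,[(0,1),(22,0),(5,0),(1,0),(0,1),(2,0)]⟩⟩,.e ⟨false,1,⟨3,[(27,0),(0,0),(17,1)]⟩,
  ⟨3,[(35,0),(0,0),(6,1)]⟩⟩ ⟨false,0,⟨0,[(0,0)]⟩,⟨0,[(30,0),(0,0),(15,0)]⟩⟩]⟩)) (.I [0,1,-1,0,0,0,0,
  1,-1] (.R ⟨0,false,false,false,[1,0,0,-1],[1,0,-1],[0,1,0,0,0,0,0,0,-1],(⟨0,[(29,0)]⟩,⟨0,[(30,
  0)]⟩),(⟨0,[(38,0)]⟩,⟨0,[(39,0)]⟩),⟨0,[(2,0)]⟩,.k,.k,(.x (-1) ⟨15,[(10,3),(6,3),(9,6),(0,6),(11,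
  1)]⟩ ⟨0,[(42,0)]⟩),.k,.k,.k,⟨false,0,⟨0,[(0,0)]⟩,⟨1,[(28,0),(8,1),(9,0)]⟩⟩,⟨true,0,⟨0,[(29,0),(2,
  0)]⟩,⟨5,[(2,3),(7,0),(6,0),(8,2),(3,1)]⟩⟩,⟨true,0,⟨0,[(49,0)]⟩,⟨0,[]⟩⟩,⟨false,1,⟨1,[(28,0),(0,1),
  (2,1),(4,1),(9,0)]⟩,⟨0,[(4,0),(28,0)]⟩⟩,⟨false,0,⟨0,[]⟩,⟨0,[]⟩⟩,⟨false,0,⟨0,[]⟩,⟨0,[]⟩⟩,[.a ⟨true,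
  0,⟨0,[(9,0),(35,1)]⟩,⟨0,[(3,0),(25,0)]⟩⟩ ⟨false,0,⟨0,[(0,0),(36,0)]⟩,⟨1,[(28,0),(18,0)]⟩⟩ ⟨true,0,
  ⟨0,[(29,0),(2,0),(4,0)]⟩,⟨0,[(3,0)]⟩⟩,.o ⟨false,1,⟨0,[(31,0),(15,0)]⟩,⟨0,[(33,0)]⟩⟩,.o ⟨false,1,
  ⟨1,[(4,0),(0,0),(22,0),(11,0)]⟩,⟨0,[(19,0),(9,0),(2,0),(12,0)]⟩⟩,.e ⟨false,0,⟨1,[(0,0),(0,0),(17,
  0),(9,0)]⟩,⟨1,[(28,0),(6,0),(0,0),(10,0)]⟩⟩ ⟨false,1,⟨0,[(29,0),(1,0),(15,0)]⟩,⟨0,[(3,0)]⟩⟩]⟩)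
  (.Q [0,-1,-1,0,0,0,-1,-1,-1,-1,1,1] (.p true [0,0,1] [1,0,0,-1] (⟨0,[(39,0)]⟩,⟨0,[(38,0)]⟩) .k 2
  (⟨0,[(29,0)]⟩,⟨0,[(30,0)]⟩) .k (.r (-1) ⟨23,[(13,9),(0,5),(7,9),(2,1),(1,2),(0,14),(4,3),(2,1)]⟩
  ⟨0,[(6,0),(30,0)]⟩)) (.Q [0,0,0,-1,0,0,0,0,0,-1,0,1] (.p true [0,0,0,1] [1] (⟨0,[(31,0)]⟩,⟨0,[(30,
  0)]⟩) .k 1 (⟨0,[]⟩,⟨0,[]⟩) .k .k) (.R ⟨0,false,false,true,[1,0,0,-1],[0,1],[1,1],(⟨0,[(31,0)]⟩,⟨0,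
  [(32,0)]⟩),(⟨0,[(44,0)]⟩,⟨0,[(43,0)]⟩),⟨0,[(4,0)]⟩,.k,.k,(.x (-1) ⟨15,[(12,3),(6,3),(9,6),(0,6),
  (11,1)]⟩ ⟨0,[(44,0)]⟩),(.x (-1) ⟨15,[(12,3),(6,3),(9,6),(0,6),(11,1)]⟩ ⟨0,[(44,0)]⟩),.k,.k,⟨false,
  1,⟨1,[(16,0),(31,0),(2,0)]⟩,⟨11,[(11,3),(2,1),(9,1),(12,6),(0,2)]⟩⟩,⟨true,0,⟨0,[(31,0)]⟩,⟨3,[(0,
  1),(4,0),(5,0),(20,0),(1,1),(2,1)]⟩⟩,⟨false,1,⟨3,[(29,0),(0,2)]⟩,⟨1,[(1,0),(6,0),(22,0),(3,0),(9,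
  0)]⟩⟩,⟨true,0,⟨0,[(2,0),(24,0),(3,0),(3,0)]⟩,⟨0,[(3,0),(31,0)]⟩⟩,⟨false,0,⟨0,[]⟩,⟨0,[]⟩⟩,⟨false,0,
  ⟨0,[]⟩,⟨0,[]⟩⟩,[.o ⟨false,0,⟨0,[(46,0)]⟩,⟨3,[(16,1),(17,1),(2,1),(4,0),(6,0)]⟩⟩,.e ⟨true,0,⟨0,[]⟩,
  ⟨1,[(37,0),(0,0)]⟩⟩ ⟨true,0,⟨11,[(11,3),(2,1),(9,1),(6,11),(5,6),(0,2)]⟩,⟨0,[(0,0)]⟩⟩,.o ⟨false,1,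
  ⟨1,[(6,0),(0,0),(22,0),(11,0)]⟩,⟨0,[(21,0),(9,0),(2,0),(12,0)]⟩⟩,.a ⟨true,0,⟨0,[(32,0)]⟩,⟨0,[(31,
  0)]⟩⟩ ⟨false,1,⟨3,[(29,0),(0,0),(17,1)]⟩,⟨3,[(37,0),(0,0),(6,1)]⟩⟩ ⟨true,0,⟨0,[(31,0),(14,0)]⟩,⟨0,
  [(0,0)]⟩⟩]⟩) (.R ⟨0,false,false,true,[1,0,0,-1],[0,1],[1,1],(⟨0,[(31,0)]⟩,⟨0,[(32,0)]⟩),(⟨0,[(44,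
  0)]⟩,⟨0,[(43,0)]⟩),⟨0,[(4,0)]⟩,.k,.k,(.x (-1) ⟨15,[(12,3),(6,3),(9,6),(0,6),(11,1)]⟩ ⟨0,[(44,
  0)]⟩),(.x (-1) ⟨15,[(12,3),(6,3),(9,6),(0,6),(11,1)]⟩ ⟨0,[(44,0)]⟩),.k,.k,⟨false,1,⟨1,[(16,0),(31,
  0),(2,0)]⟩,⟨11,[(11,3),(2,1),(9,1),(12,6),(0,2)]⟩⟩,⟨true,0,⟨0,[(31,0)]⟩,⟨6,[(4,4),(7,1),(10,0),(8,
  1),(1,1),(2,3)]⟩⟩,⟨false,1,⟨3,[(29,0),(0,2)]⟩,⟨1,[(1,0),(6,0),(22,0),(3,0),(9,0)]⟩⟩,⟨true,0,⟨0,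
  [(2,0),(24,0),(3,0),(3,0)]⟩,⟨0,[(3,0),(31,0)]⟩⟩,⟨false,0,⟨0,[]⟩,⟨0,[]⟩⟩,⟨false,0,⟨0,[]⟩,⟨0,[]⟩⟩,
  [.o ⟨false,0,⟨0,[(46,0)]⟩,⟨3,[(16,1),(17,1),(2,1),(4,0),(6,0)]⟩⟩,.a ⟨true,0,⟨5,[(11,1),(2,0),(16,
  4),(0,4)]⟩,⟨0,[(47,0)]⟩⟩ ⟨true,0,⟨0,[]⟩,⟨1,[(37,0),(0,0)]⟩⟩ ⟨false,0,⟨0,[(0,0)]⟩,⟨5,[(7,1),(8,1),
  (13,0),(1,3),(9,2),(4,1)]⟩⟩,.o ⟨false,1,⟨1,[(6,0),(0,0),(22,0),(11,0)]⟩,⟨0,[(21,0),(9,0),(2,0),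
  (12,0)]⟩⟩,.e ⟨false,1,⟨3,[(29,0),(0,0),(17,1)]⟩,⟨3,[(37,0),(0,0),(6,1)]⟩⟩ ⟨false,0,⟨0,[(0,0)]⟩,⟨3,
  [(16,1),(15,3),(1,1),(2,1),(4,0),(6,0)]⟩⟩]⟩)) (.R ⟨0,false,false,true,[1,0,0,-1],[0,0,1],[0,1,1,0,
  0,0,0,1],(⟨0,[(30,0)]⟩,⟨0,[(31,0)]⟩),(⟨0,[(40,0)]⟩,⟨0,[(39,0)]⟩),⟨0,[(3,0)]⟩,.k,.k,(.x (-1) ⟨15,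
  [(11,3),(6,3),(9,6),(0,6),(11,1)]⟩ ⟨0,[(43,0)]⟩),.k,.k,.k,⟨true,0,⟨1,[(36,0),(0,0)]⟩,⟨0,[]⟩⟩,
  ⟨false,0,⟨0,[(20,0),(9,0),(15,0)]⟩,⟨19,[(8,11),(14,3),(4,2),(0,2),(1,19),(9,1)]⟩⟩,⟨false,1,⟨3,[(0,
  1),(3,1),(18,1),(4,0),(0,1),(18,0)]⟩,⟨0,[(2,0),(17,0),(9,0)]⟩⟩,⟨true,0,⟨0,[(0,0)]⟩,⟨3,[(2,1),(2,
  0),(0,0),(2,1)]⟩⟩,⟨false,0,⟨0,[]⟩,⟨0,[]⟩⟩,⟨false,0,⟨0,[]⟩,⟨0,[]⟩⟩,[.o ⟨false,0,⟨0,[(34,0)]⟩,⟨0,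
  [(32,0),(15,0)]⟩⟩,.e ⟨true,0,⟨5,[(0,1),(3,1),(2,1),(6,0),(8,2),(20,0),(1,0)]⟩,⟨0,[(38,0)]⟩⟩ ⟨true,
  0,⟨1,[(0,0),(6,0),(22,0),(3,0),(9,0)]⟩,⟨8,[(1,2),(0,2),(0,3),(7,0),(6,0),(7,2),(4,1),(0,2)]⟩⟩,.o
  ⟨false,1,⟨1,[(5,0),(0,0),(22,0),(11,0)]⟩,⟨0,[(20,0),(9,0),(2,0),(12,0)]⟩⟩,.a ⟨true,0,⟨0,[(31,0)]⟩,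
  ⟨0,[(30,0)]⟩⟩ ⟨false,1,⟨111,[(0,11),(3,3),(1,7),(5,7),(1,47),(0,19),(7,51),(4,42),(0,40)]⟩,⟨0,
  [(24,0)]⟩⟩ ⟨true,0,⟨0,[(30,0),(3,0)]⟩,⟨8,[(1,2),(0,2),(0,3),(7,0),(6,0),(7,2),(4,1),(0,
  2)]⟩⟩]⟩)))))) (.K ⟨0,[0,0,0,1],0,0,(⟨0,[(26,0)]⟩,⟨0,[(25,0)]⟩),.k,(.r (-1) ⟨1,[(10,0),(13,0),(20,
  0)]⟩ ⟨11,[(2,11),(2,3),(2,1),(9,1),(12,6),(0,2)]⟩),(.x 0 ⟨0,[(38,0)]⟩ ⟨15,[(6,3),(6,3),(9,6),(0,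
  6),(11,1)]⟩),.k,.k,[⟨0,[(26,0)]⟩,⟨0,[(25,0)]⟩,⟨0,[(1,0)]⟩,⟨0,[(0,0)]⟩]⟩)) (.Q [0,0,0,0,0,-1,0,0,0,
  1,0,-1] (.ed true [0,1,0,1] .k) (.Q [0,0,0,1,0,0,0,0,0,1,0,-1] (.p false [0,0,0,1] [1] (⟨0,[(26,
  0)]⟩,⟨0,[(25,0)]⟩) .k 1 (⟨0,[]⟩,⟨0,[]⟩) .k .k) (.R ⟨1,false,false,true,[1,0,0,-1],[0,1],[1,1,0,0,
  0,0,0,0,-1],(⟨0,[(26,0)]⟩,⟨0,[(27,0)]⟩),(⟨0,[(39,0)]⟩,⟨0,[(38,0)]⟩),⟨0,[(1,0)]⟩,.k,.k,(.x (-1)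
  ⟨15,[(7,3),(6,3),(9,6),(0,6),(11,1)]⟩ ⟨0,[(39,0)]⟩),(.x (-1) ⟨15,[(7,3),(6,3),(9,6),(0,6),(11,
  1)]⟩ ⟨0,[(39,0)]⟩),(.r (-1) ⟨0,[(3,0),(7,0),(34,0)]⟩ ⟨11,[(2,11),(3,3),(2,1),(9,1),(7,11),(4,6),
  (0,2),(7,11)]⟩),.k,⟨false,1,⟨1,[(3,1),(7,0),(31,0),(2,0)]⟩,⟨0,[(2,0),(24,0),(13,0)]⟩⟩,⟨true,0,⟨0,
  [(26,0)]⟩,⟨0,[(16,0),(10,0),(1,0),(12,0)]⟩⟩,⟨false,0,⟨0,[]⟩,⟨3,[(24,0),(0,0),(18,1)]⟩⟩,⟨false,0,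
  ⟨2,[(2,2),(7,0),(6,0),(4,0),(3,0),(0,0),(3,1)]⟩,⟨2,[(3,2),(4,0),(2,0),(4,0),(10,2),(9,0),(2,0),(1,
  0)]⟩⟩,⟨true,0,⟨0,[(41,0)]⟩,⟨0,[(42,0)]⟩⟩,⟨false,0,⟨0,[(2,0),(14,0),(4,0)]⟩,⟨2,[(3,2),(4,0),(2,0),
  (4,0),(10,2),(9,0),(2,0),(1,3)]⟩⟩,[.o ⟨false,0,⟨0,[(41,0)]⟩,⟨3,[(11,1),(17,1),(2,1),(4,0),(6,
  0)]⟩⟩,.a ⟨true,0,⟨5,[(6,1),(2,0),(16,4),(0,4)]⟩,⟨0,[(42,0)]⟩⟩ ⟨true,0,⟨0,[(3,0)]⟩,⟨0,[(2,0),(24,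
  0),(18,0)]⟩⟩ ⟨false,0,⟨0,[(0,0)]⟩,⟨1,[(11,0),(15,1),(9,0),(8,0)]⟩⟩,.o ⟨false,1,⟨1,[(27,1),(9,0),
  (5,0)]⟩,⟨3,[(2,1),(0,1),(22,1),(1,0),(0,0),(0,0),(1,0)]⟩⟩,.e ⟨false,1,⟨1,[(24,0),(18,0)]⟩,⟨0,[(2,
  0),(24,0)]⟩⟩ ⟨false,0,⟨0,[(0,0)]⟩,⟨3,[(11,1),(15,3),(1,1),(2,1),(4,0),(6,0)]⟩⟩]⟩) (.R ⟨1,false,
  false,true,[1,0,0,-1],[0,1],[1,1,0,0,0,0,0,0,-1],(⟨0,[(26,0)]⟩,⟨0,[(27,0)]⟩),(⟨0,[(39,0)]⟩,⟨0,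
  [(38,0)]⟩),⟨0,[(1,0)]⟩,.k,.k,(.x (-1) ⟨15,[(7,3),(6,3),(9,6),(0,6),(11,1)]⟩ ⟨0,[(39,0)]⟩),(.x
  (-1) ⟨15,[(7,3),(6,3),(9,6),(0,6),(11,1)]⟩ ⟨0,[(39,0)]⟩),(.r (-1) ⟨0,[(3,0),(7,0),(34,0)]⟩ ⟨11,
  [(2,11),(3,3),(2,1),(9,1),(7,11),(4,6),(0,2),(7,11)]⟩),.k,⟨false,1,⟨1,[(3,1),(7,0),(31,0),(2,0)]⟩,
  ⟨0,[(2,0),(24,0),(13,0)]⟩⟩,⟨true,0,⟨0,[(26,0)]⟩,⟨9,[(0,5),(5,1),(2,0),(17,3),(1,4),(2,4)]⟩⟩,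
  ⟨false,0,⟨0,[]⟩,⟨3,[(24,0),(0,0),(18,1)]⟩⟩,⟨false,0,⟨2,[(2,2),(7,0),(6,0),(4,0),(3,0),(0,0),(3,
  1)]⟩,⟨34,[(0,28),(2,6),(0,11),(4,5),(1,8),(8,11),(3,13),(2,5),(12,6)]⟩⟩,⟨true,0,⟨0,[(41,0)]⟩,⟨0,
  [(42,0)]⟩⟩,⟨false,0,⟨0,[(2,0),(14,0),(4,0)]⟩,⟨34,[(0,33),(2,6),(0,1),(4,0),(1,18),(8,1),(3,13),(2,
  0),(12,6)]⟩⟩,[.o ⟨false,0,⟨0,[(41,0)]⟩,⟨3,[(11,1),(17,1),(2,1),(4,0),(6,0)]⟩⟩,.e ⟨true,0,⟨0,[(3,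
  0)]⟩,⟨0,[(2,0),(24,0),(18,0)]⟩⟩ ⟨true,0,⟨11,[(6,3),(2,1),(9,1),(6,11),(5,6),(0,2)]⟩,⟨0,[(0,0)]⟩⟩,
  .o ⟨false,1,⟨1,[(27,1),(9,0),(5,0)]⟩,⟨3,[(2,1),(0,1),(22,1),(1,0),(0,0),(0,0),(1,0)]⟩⟩,.a ⟨true,0,
  ⟨0,[(27,0)]⟩,⟨0,[(26,0)]⟩⟩ ⟨false,1,⟨1,[(24,0),(18,0)]⟩,⟨0,[(2,0),(24,0)]⟩⟩ ⟨true,0,⟨0,[(26,0),
  (14,0)]⟩,⟨0,[(0,0)]⟩⟩]⟩)) (.I [1,1,0,0,0,0,0,0,1] (.R ⟨1,false,false,false,[0,0,0,1],[0,0,1],[1,1,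
  0,0,0,0,0,0,1],(⟨0,[(27,0)]⟩,⟨0,[(26,0)]⟩),(⟨0,[(36,0)]⟩,⟨0,[(35,0)]⟩),⟨2,[(1,0),(5,0),(6,0),(12,
  1)]⟩,.k,.k,(.r (-1) ⟨1,[(11,0),(13,0),(20,0)]⟩ ⟨11,[(3,11),(2,3),(2,1),(9,1),(12,6),(0,2)]⟩),.k,
  (.r (-1) ⟨3,[(11,1),(11,0),(1,1),(2,0),(2,0),(2,1)]⟩ ⟨3,[(3,3),(5,1),(9,1),(12,0),(0,0)]⟩),.k,
  ⟨true,0,⟨0,[(0,0),(33,0)]⟩,⟨1,[(3,1),(6,0),(8,0),(20,0),(1,0)]⟩⟩,⟨false,1,⟨5,[(1,3),(5,0),(6,0),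
  (8,2),(3,1),(15,5)]⟩,⟨0,[(26,0),(2,0)]⟩⟩,⟨false,0,⟨0,[]⟩,⟨3,[(24,0),(0,0),(18,1)]⟩⟩,⟨false,1,⟨44,
  [(1,27),(1,8),(0,2),(2,6),(1,23),(1,23),(2,6),(5,2),(3,17),(2,16),(12,8)]⟩,⟨0,[(2,0),(28,0)]⟩⟩,
  ⟨true,0,⟨0,[(41,0)]⟩,⟨0,[(42,0)]⟩⟩,⟨false,1,⟨9,[(1,3),(1,1),(0,3),(2,0),(1,6),(1,1),(2,0),(5,3),
  (3,3),(2,5),(12,1)]⟩,⟨0,[(2,0),(28,0),(10,0)]⟩⟩,[.a ⟨true,0,⟨1,[(10,0),(15,0),(0,0),(14,0)]⟩,⟨0,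
  [(6,0),(35,1)]⟩⟩ ⟨true,0,⟨0,[(0,0)]⟩,⟨3,[(3,3),(28,0),(0,0),(6,1)]⟩⟩ ⟨false,1,⟨8,[(1,3),(5,0),(1,
  2),(1,2),(2,0),(12,4),(2,2),(12,5)]⟩,⟨0,[(26,0),(2,0),(4,0)]⟩⟩,.o ⟨false,1,⟨7,[(10,3),(0,1),(12,
  0),(0,0),(3,1),(2,1),(4,0),(6,2)]⟩,⟨0,[(28,0)]⟩⟩,.o ⟨false,0,⟨3,[(2,1),(0,1),(22,1),(1,0),(0,0),
  (0,0),(1,0)]⟩,⟨1,[(27,1),(9,0),(5,0)]⟩⟩,.o ⟨false,0,⟨0,[(26,0),(2,0),(2,0)]⟩,⟨3,[(1,3),(2,1),(2,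
  0),(6,0),(8,0),(19,1)]⟩⟩]⟩) (.Q [0,0,0,0,0,0,-1,-1,0,-1,1,1] (.p true [0,0,1] [1,0,0,-1] (⟨0,[(36,
  0)]⟩,⟨0,[(35,0)]⟩) .k 2 (⟨0,[(26,0)]⟩,⟨0,[(27,0)]⟩) .k (.r (-1) ⟨23,[(10,9),(0,5),(7,9),(2,1),(1,
  2),(0,14),(4,3),(2,1)]⟩ ⟨0,[(3,0),(30,0)]⟩)) (.R ⟨0,false,false,true,[1,0,0,-1],[0,0,1],[1,0,0,0,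
  0,0,0,0,-1],(⟨0,[(27,0)]⟩,⟨0,[(28,0)]⟩),(⟨0,[(37,0)]⟩,⟨0,[(36,0)]⟩),⟨0,[(2,0)]⟩,.k,.k,(.x (-1)
  ⟨15,[(8,3),(6,3),(9,6),(0,6),(11,1)]⟩ ⟨0,[(40,0)]⟩),.k,.k,.k,⟨true,0,⟨0,[(1,0),(33,0)]⟩,⟨0,[(3,0),
  (19,0),(4,0),(2,0),(11,0)]⟩⟩,⟨false,0,⟨0,[(17,0),(9,0),(15,0)]⟩,⟨19,[(5,11),(14,3),(4,2),(0,2),(1,
  19),(9,1)]⟩⟩,⟨true,0,⟨0,[]⟩,⟨0,[(47,0)]⟩⟩,⟨false,0,⟨1,[(3,1),(7,0),(15,0),(0,0),(14,0),(3,1)]⟩,⟨3,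
  [(0,3),(0,1),(23,0),(18,1),(0,0)]⟩⟩,⟨false,0,⟨0,[]⟩,⟨0,[]⟩⟩,⟨false,0,⟨0,[]⟩,⟨0,[]⟩⟩,[.o ⟨false,0,
  ⟨0,[(31,0)]⟩,⟨0,[(29,0),(15,0)]⟩⟩,.e ⟨true,0,⟨0,[(1,0)]⟩,⟨0,[(3,0),(24,0),(18,1)]⟩⟩ ⟨true,0,⟨1,
  [(11,0),(15,1),(2,0),(2,0),(9,0)]⟩,⟨0,[(0,0)]⟩⟩,.o ⟨false,1,⟨1,[(28,1),(9,0),(5,0)]⟩,⟨3,[(3,1),(0,
  1),(22,1),(1,0),(0,0),(0,0),(1,0)]⟩⟩,.a ⟨true,0,⟨0,[(28,0)]⟩,⟨0,[(27,0)]⟩⟩ ⟨false,1,⟨3,[(1,1),(23,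
  0),(18,1),(0,0)]⟩,⟨0,[(3,0),(24,0),(18,0)]⟩⟩ ⟨true,0,⟨0,[(27,0),(3,0)]⟩,⟨0,[(0,0)]⟩⟩]⟩) (.R ⟨0,
  false,false,true,[1,0,0,-1],[0,0,1],[1,0,0,0,0,0,0,0,-1],(⟨0,[(27,0)]⟩,⟨0,[(28,0)]⟩),(⟨0,[(37,
  0)]⟩,⟨0,[(36,0)]⟩),⟨0,[(2,0)]⟩,.k,.k,(.x (-1) ⟨15,[(8,3),(6,3),(9,6),(0,6),(11,1)]⟩ ⟨0,[(40,0)]⟩),
  .k,.k,.k,⟨true,0,⟨0,[(1,0),(33,0)]⟩,⟨0,[(3,0),(19,0),(4,0),(2,0),(11,0)]⟩⟩,⟨false,0,⟨0,[(0,0),(34,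
  0)]⟩,⟨19,[(5,11),(14,3),(4,2),(0,2),(1,19),(9,1)]⟩⟩,⟨true,0,⟨0,[]⟩,⟨0,[(47,0)]⟩⟩,⟨false,0,⟨0,[(0,
  0),(2,0),(24,0),(18,0)]⟩,⟨23,[(1,3),(0,4),(2,13),(2,1),(10,0),(0,2),(0,21),(3,9),(2,18),(0,1)]⟩⟩,
  ⟨false,0,⟨0,[]⟩,⟨0,[]⟩⟩,⟨false,0,⟨0,[]⟩,⟨0,[]⟩⟩,[.o ⟨false,0,⟨0,[(31,0)]⟩,⟨0,[(29,0),(15,0)]⟩⟩,.a
  ⟨true,0,⟨0,[(0,0),(27,0)]⟩,⟨0,[(7,0),(35,1)]⟩⟩ ⟨true,0,⟨0,[(1,0)]⟩,⟨0,[(3,0),(24,0),(18,1)]⟩⟩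
  ⟨false,0,⟨0,[(0,0)]⟩,⟨1,[(7,0),(4,0),(15,1),(3,0),(5,0)]⟩⟩,.o ⟨false,1,⟨1,[(28,1),(9,0),(5,0)]⟩,
  ⟨2,[(0,0),(2,0),(0,0),(22,0),(1,0),(0,0),(2,0)]⟩⟩,.e ⟨false,1,⟨3,[(1,1),(23,0),(18,1),(0,0)]⟩,⟨0,
  [(3,0),(24,0),(18,0)]⟩⟩ ⟨false,0,⟨0,[(0,0)]⟩,⟨0,[(28,0),(0,0),(15,0)]⟩⟩]⟩))))))))))

theorem ok120 : chk (cU (-1) true 10) t120 l68 = true := by decide +kernel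

noncomputable def t146 : Tre :=
  (.Q [0,0,0,0,0,0,-1,0,0,1,1] (.p true [1,-1,1] [] (⟨0,[(20,0),(1,0)]⟩,⟨0,[(0,0)]⟩) .k 0 (⟨0,[]⟩,
  ⟨0,[]⟩) .k .k) (.R ⟨0,false,false,true,[0,1,-1],[0,1],[0,0,1],(⟨0,[(1,0)]⟩,⟨0,[(21,0),(1,0)]⟩),
  (⟨0,[(24,0)]⟩,⟨0,[(23,0)]⟩),⟨0,[(21,0)]⟩,.k,.k,.k,.k,.k,.k,⟨false,1,⟨1,[(27,1),(0,0),(0,0)]⟩,⟨0,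
  [(26,0)]⟩⟩,⟨true,0,⟨0,[(5,0),(9,0)]⟩,⟨0,[(18,0)]⟩⟩,⟨false,1,⟨1,[(0,0),(1,0),(12,1),(11,0),(1,1)]⟩,
  ⟨0,[(5,0),(20,0)]⟩⟩,⟨true,0,⟨0,[(15,0)]⟩,⟨4,[(0,0),(1,0),(2,2),(1,0),(8,1)]⟩⟩,⟨false,0,⟨0,[]⟩,⟨0,
  []⟩⟩,⟨false,0,⟨0,[]⟩,⟨0,[]⟩⟩,[.o ⟨false,0,⟨0,[(26,0)]⟩,⟨1,[(22,0),(4,1),(1,0)]⟩⟩,.o ⟨false,1,⟨3,
  [(9,0),(0,0),(15,3),(2,1)]⟩,⟨0,[(2,0),(2,0),(9,0)]⟩⟩,.o ⟨false,1,⟨5,[(0,1),(3,1),(4,0),(0,0),(17,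
  3)]⟩,⟨0,[(5,1),(8,0),(0,1)]⟩⟩,.a ⟨true,0,⟨0,[(0,0)]⟩,⟨0,[(5,0),(9,0)]⟩⟩ ⟨false,1,⟨3,[(9,0),(0,0),
  (18,1)]⟩,⟨0,[]⟩⟩ ⟨true,0,⟨0,[(5,0),(9,0),(10,0)]⟩,⟨1,[(0,0),(1,0),(24,0)]⟩⟩]⟩) (.I [0,1,1,0,-1,0,
  0,0,-1] (.Q [0,1,1,0,0,0,0,0,1,0,0,-1] (.p false [0,0,0,1] [] (⟨0,[(13,0)]⟩,⟨0,[(12,0)]⟩) .k 0
  (⟨0,[]⟩,⟨0,[]⟩) .k .k) (.K ⟨0,[0,0,0,1],0,0,(⟨0,[(14,0)]⟩,⟨0,[(13,0)]⟩),.k,(.r (-1) ⟨1,[(12,0),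
  (16,1),(0,0)]⟩ ⟨2,[(1,0),(9,0),(15,1),(0,2)]⟩),(.x 0 ⟨0,[(26,0)]⟩ ⟨3,[(11,0),(0,0),(11,1),(0,
  3)]⟩),.k,.k,[⟨0,[(14,0)]⟩,⟨0,[(13,0)]⟩,⟨0,[(1,0),(12,0),(15,0)]⟩,⟨0,[(0,0)]⟩]⟩) (.R ⟨2,false,
  false,true,[0,1],[0,0,0,1],[],(⟨0,[]⟩,⟨0,[]⟩),(⟨0,[(14,0)]⟩,⟨0,[(13,0)]⟩),⟨0,[]⟩,.k,.k,.k,(.r 0
  ⟨2,[(1,0),(9,0),(15,1),(0,2)]⟩ ⟨1,[(12,0),(16,1),(0,0)]⟩),.k,.k,⟨true,0,⟨2,[(0,1),(0,0),(11,1),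
  (10,0),(2,0)]⟩,⟨0,[(1,0),(10,0)]⟩⟩,⟨false,0,⟨2,[(2,0),(10,2),(2,1),(2,0)]⟩,⟨0,[(14,0),(15,0)]⟩⟩,
  ⟨false,1,⟨1,[(29,1),(0,0),(0,0)]⟩,⟨3,[(19,0),(0,0),(6,1),(0,3)]⟩⟩,⟨true,0,⟨1,[(1,1),(0,0),(1,0),
  (7,1),(0,1),(15,0)]⟩,⟨0,[(0,0),(27,0)]⟩⟩,⟨false,1,⟨1,[(30,0),(0,0)]⟩,⟨1,[(19,0),(0,0)]⟩⟩,⟨false,1,
  ⟨7,[(11,0),(0,4),(0,7),(2,3),(2,3),(4,1)]⟩,⟨0,[(0,0)]⟩⟩,[.a ⟨true,0,⟨0,[(1,0),(10,0),(0,0)]⟩,⟨0,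
  [(0,0)]⟩⟩ ⟨false,1,⟨3,[(11,0),(0,0),(17,1)]⟩,⟨0,[]⟩⟩ ⟨true,0,⟨2,[(1,2),(0,0),(9,2),(0,2),(2,1),(2,
  0)]⟩,⟨0,[(0,0)]⟩⟩,.o ⟨false,1,⟨7,[(11,0),(0,4),(0,7),(2,3),(2,3),(4,1)]⟩,⟨4,[(0,4),(1,1),(1,0),(4,
  0),(5,1),(1,1)]⟩⟩,.o ⟨false,1,⟨3,[(11,0),(0,0),(17,1)]⟩,⟨2,[(2,0),(13,1),(2,0)]⟩⟩,.e ⟨false,1,⟨1,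
  [(30,0),(0,0)]⟩,⟨1,[(19,0),(0,0)]⟩⟩ ⟨false,1,⟨7,[(11,0),(0,4),(0,7),(2,3),(2,3),(4,1)]⟩,⟨0,[(0,
  0)]⟩⟩]⟩)) (.Q [0,-1,-1,1,1,0,-1,-1,-1,0,1,1] (.p true [1,-1,1] [1,0,0,-1] (⟨0,[(22,0),(1,0)]⟩,⟨0,
  [(2,0)]⟩) .k 2 (⟨0,[(12,0)]⟩,⟨0,[(13,0)]⟩) .k (.x 0 ⟨0,[(18,0),(3,0)]⟩ ⟨7,[(2,1),(1,1),(0,1),(4,
  0),(0,0),(9,1),(7,5)]⟩)) (.Q [0,0,0,0,0,-1,0,0,0,1,0,-1] (.ed true [0,1,0,1] .k) (.Q [0,1,-1,0,0,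
  0,0,0,-1,0,0,1] (.p true [0,0,0,1] [] (⟨0,[(15,0)]⟩,⟨0,[(14,0)]⟩) .k 0 (⟨0,[]⟩,⟨0,[]⟩) .k .k) (.Q
  [0,1,1,0,0,0,0,0,1,0,0,-1] (.p false [0,0,0,1] [] (⟨0,[(16,0)]⟩,⟨0,[(15,0)]⟩) .k 0 (⟨0,[]⟩,⟨0,
  []⟩) .k .k) (.K ⟨0,[0,0,0,1],0,0,(⟨0,[(17,0)]⟩,⟨0,[(16,0)]⟩),.k,(.r (-1) ⟨1,[(15,0),(16,1),(0,
  0)]⟩ ⟨2,[(1,2),(3,0),(10,2),(2,1),(2,0),(7,2),(0,2)]⟩),(.x 0 ⟨0,[(29,0)]⟩ ⟨3,[(14,0),(0,0),(11,1),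
  (0,3)]⟩),.k,.k,[⟨0,[(17,0)]⟩,⟨0,[(16,0)]⟩,⟨0,[(1,0)]⟩,⟨0,[(0,0)]⟩]⟩) (.R ⟨1,false,false,false,[1,
  0,0,-1],[1,0,-1],[0,0,0,-1,0,0,0,0,-1],(⟨0,[(16,0)]⟩,⟨0,[(17,0)]⟩),(⟨0,[(25,0)]⟩,⟨0,[(26,0)]⟩),⟨0,
  [(2,0)]⟩,.k,.k,(.x (-1) ⟨3,[(14,0),(0,0),(11,1),(0,3)]⟩ ⟨0,[(29,0)]⟩),.k,(.r 0 ⟨0,[(0,0),(6,0),(8,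
  0),(3,0)]⟩ ⟨5,[(15,2),(5,3),(0,3),(1,1),(5,1),(0,5),(2,2)]⟩),.k,⟨false,0,⟨0,[(0,0),(6,0),(8,0),(3,
  0)]⟩,⟨1,[(15,0),(8,1),(6,1),(2,0)]⟩⟩,⟨true,0,⟨0,[(16,0),(2,0)]⟩,⟨2,[(5,0),(7,0),(3,2)]⟩⟩,⟨true,0,
  ⟨0,[(32,0)]⟩,⟨0,[(31,0)]⟩⟩,⟨false,1,⟨1,[(15,0),(0,1),(2,1),(4,1),(9,0)]⟩,⟨0,[(0,0),(19,0)]⟩⟩,
  ⟨false,1,⟨3,[(14,0),(0,0),(18,1)]⟩,⟨0,[]⟩⟩,⟨false,1,⟨1,[(10,1),(4,0),(0,1),(2,1),(11,1),(2,0)]⟩,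
  ⟨0,[(0,0),(19,0),(11,0)]⟩⟩,[.o ⟨false,0,⟨3,[(5,0),(1,1),(2,2),(1,1),(5,0)]⟩,⟨3,[(14,0),(0,0),(4,
  3),(13,1)]⟩⟩,.o ⟨false,1,⟨0,[(18,0),(15,0)]⟩,⟨0,[(20,0)]⟩⟩,.o ⟨false,1,⟨1,[(1,0),(2,0),(12,0),(9,
  0)]⟩,⟨2,[(5,0),(10,2),(2,1),(2,0)]⟩⟩,.a ⟨true,0,⟨0,[(17,0)]⟩,⟨0,[(16,0)]⟩⟩ ⟨false,0,⟨1,[(0,1),(4,
  0),(1,0),(8,1),(15,0)]⟩,⟨1,[(15,0),(6,0),(0,0),(7,1),(2,0)]⟩⟩ ⟨true,0,⟨3,[(5,0),(1,1),(2,2),(1,1),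
  (3,3),(1,0)]⟩,⟨0,[(17,0),(2,0)]⟩⟩]⟩)) (.I [1,-1,-1,0,1,0,0,0,-1] (.I [1,0,0,1,0,0,0,-1,1] (.R ⟨1,
  false,false,false,[1,0,0,-1],[1,0,-1],[0,0,0,-1,0,0,0,0,-1],(⟨0,[(17,0)]⟩,⟨0,[(18,0)]⟩),(⟨0,[(26,
  0)]⟩,⟨0,[(27,0)]⟩),⟨0,[(3,0)]⟩,.k,.k,(.x (-1) ⟨3,[(15,0),(0,0),(11,1),(0,3)]⟩ ⟨0,[(30,0)]⟩),.k,
  (.r (-1) ⟨0,[(1,0),(6,0),(8,0),(0,0),(2,0)]⟩ ⟨1,[(0,1),(22,0),(0,0)]⟩),.k,⟨false,1,⟨0,[(1,0),(6,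
  0),(8,0),(0,0),(2,0)]⟩,⟨0,[(0,0)]⟩⟩,⟨true,0,⟨0,[(17,0),(2,0)]⟩,⟨2,[(6,0),(7,0),(3,2)]⟩⟩,⟨true,0,
  ⟨0,[(33,0)]⟩,⟨0,[(32,0)]⟩⟩,⟨false,0,⟨3,[(0,0),(1,2),(5,0),(1,0),(0,1),(5,1),(0,0),(3,0)]⟩,⟨0,[(1,
  0),(16,0),(2,0)]⟩⟩,⟨false,1,⟨3,[(15,0),(0,0),(18,1)]⟩,⟨0,[]⟩⟩,⟨false,0,⟨0,[(2,0),(8,0),(1,0)]⟩,⟨0,
  [(1,0),(16,0),(2,0),(11,0)]⟩⟩,[.o ⟨false,0,⟨3,[(6,0),(1,1),(2,2),(1,1),(5,0)]⟩,⟨3,[(15,0),(0,0),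
  (4,3),(13,1)]⟩⟩,.o ⟨false,1,⟨0,[(19,0),(15,0)]⟩,⟨0,[(21,0)]⟩⟩,.o ⟨false,1,⟨1,[(18,1),(9,0),(5,
  0)]⟩,⟨2,[(6,0),(10,2),(2,1),(2,0)]⟩⟩,.a ⟨true,0,⟨0,[(18,0)]⟩,⟨0,[(17,0)]⟩⟩ ⟨false,1,⟨0,[(1,0),(31,
  0)]⟩,⟨0,[(2,0),(15,0),(13,0)]⟩⟩ ⟨true,0,⟨3,[(6,0),(1,1),(2,2),(1,1),(3,3),(1,0)]⟩,⟨0,[(18,0),(2,
  0)]⟩⟩]⟩) (.Q [0,1,-1,-1,0,0,0,0,-1,-1,0,1] (.p true [0,0,0,1] [1] (⟨0,[(18,0)]⟩,⟨0,[(17,0)]⟩) .k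
  1 (⟨0,[]⟩,⟨0,[]⟩) .k .k) (.R ⟨2,true,false,true,[0,1],[1,0,0,-1],[0,1,1],(⟨0,[]⟩,⟨0,[]⟩),(⟨0,[(18,
  0)]⟩,⟨0,[(19,0)]⟩),⟨0,[]⟩,.k,.k,.k,(.x 0 ⟨0,[(31,0)]⟩ ⟨3,[(16,0),(0,0),(11,1),(0,3)]⟩),.k,.k,
  ⟨true,0,⟨0,[(3,0),(15,0),(18,0)]⟩,⟨0,[(1,0),(10,0),(20,0)]⟩⟩,⟨false,1,⟨1,[(19,1),(9,0),(5,0)]⟩,⟨0,
  [(18,0)]⟩⟩,⟨false,0,⟨0,[(34,0)]⟩,⟨0,[(33,0),(2,0)]⟩⟩,⟨true,0,⟨0,[(0,0)]⟩,⟨1,[(3,1),(10,1),(0,0),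
  (2,0),(0,0)]⟩⟩,⟨true,0,⟨0,[(38,0)]⟩,⟨0,[]⟩⟩,⟨false,1,⟨2,[(0,0),(1,0),(2,0),(13,0),(2,0),(6,0)]⟩,
  ⟨0,[(3,0),(14,0),(0,0)]⟩⟩,[]⟩) (.R ⟨1,false,false,true,[1,0,0,-1],[0,1],[1,0,0,0,0,0,0,0,-1],(⟨0,
  [(18,0)]⟩,⟨0,[(19,0)]⟩),(⟨0,[(31,0)]⟩,⟨0,[(30,0)]⟩),⟨0,[(4,0)]⟩,.k,.k,(.x (-1) ⟨3,[(16,0),(0,0),
  (11,1),(0,3)]⟩ ⟨0,[(31,0)]⟩),(.x (-1) ⟨3,[(16,0),(0,0),(11,1),(0,3)]⟩ ⟨0,[(31,0)]⟩),(.r (-1) ⟨0,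
  [(1,0),(24,0),(7,0),(0,0)]⟩ ⟨2,[(0,2),(6,0),(11,2),(1,1),(2,0),(8,2)]⟩),.k,⟨false,1,⟨0,[(1,0),(10,
  0),(22,0)]⟩,⟨0,[(3,0),(15,0),(13,0),(4,0)]⟩⟩,⟨true,0,⟨0,[(18,0)]⟩,⟨2,[(7,0),(11,2),(1,1),(2,0)]⟩⟩,
  ⟨true,0,⟨0,[]⟩,⟨0,[(38,0)]⟩⟩,⟨false,0,⟨0,[(0,0),(37,0)]⟩,⟨1,[(2,1),(4,0),(1,0),(9,1),(14,0)]⟩⟩,
  ⟨false,1,⟨0,[(33,0),(2,0)]⟩,⟨0,[(34,0)]⟩⟩,⟨false,0,⟨0,[(0,0),(32,0)]⟩,⟨1,[(2,1),(4,0),(1,0),(9,1),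
  (14,2)]⟩⟩,[.o ⟨false,0,⟨0,[(33,0)]⟩,⟨1,[(29,0),(4,1),(1,0)]⟩⟩,.o ⟨false,1,⟨3,[(16,0),(0,0),(15,3),
  (2,1)]⟩,⟨1,[(7,0),(1,0),(24,0)]⟩⟩,.o ⟨false,1,⟨1,[(19,1),(9,0),(5,0)]⟩,⟨2,[(7,0),(10,2),(2,1),(2,
  0)]⟩⟩,.a ⟨true,0,⟨0,[(19,0)]⟩,⟨0,[(18,0)]⟩⟩ ⟨false,1,⟨0,[(2,0)]⟩,⟨0,[(3,0),(15,0),(18,0)]⟩⟩ ⟨true,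
  0,⟨0,[(18,0),(14,0)]⟩,⟨1,[(7,0),(1,0),(9,1),(14,0)]⟩⟩]⟩))) (.R ⟨1,false,false,false,[1,0,0,-1],[1,
  -1],[0,1,0,-1,0,0,0,0,-1],(⟨0,[(16,0)]⟩,⟨0,[(17,0)]⟩),(⟨0,[(28,0)]⟩,⟨0,[(29,0)]⟩),⟨0,[(2,0)]⟩,.k,
  .k,(.x (-1) ⟨3,[(14,0),(0,0),(11,1),(0,3)]⟩ ⟨0,[(29,0)]⟩),(.x (-1) ⟨0,[(29,0),(3,0)]⟩ ⟨0,[(19,0),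
  (2,0),(5,0)]⟩),.k,.k,⟨true,0,⟨0,[(0,0),(13,0)]⟩,⟨0,[(0,0),(29,0),(2,0)]⟩⟩,⟨false,0,⟨2,[(5,0),(10,
  2),(2,1),(2,0)]⟩,⟨0,[(17,0),(15,0)]⟩⟩,⟨false,0,⟨0,[(32,0)]⟩,⟨0,[(31,0),(2,0)]⟩⟩,⟨false,0,⟨0,[(1,
  0),(30,0)]⟩,⟨0,[(3,0),(16,0)]⟩⟩,⟨true,0,⟨0,[(36,0)]⟩,⟨0,[]⟩⟩,⟨false,0,⟨0,[(1,0)]⟩,⟨1,[(14,0),(2,
  1),(15,0)]⟩⟩,[.o ⟨false,0,⟨1,[(5,0),(1,0),(24,0)]⟩,⟨3,[(14,0),(0,0),(15,3),(2,1)]⟩⟩,.o ⟨false,1,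
  ⟨1,[(27,0),(4,1),(1,0)]⟩,⟨0,[(31,0)]⟩⟩,.o ⟨false,1,⟨1,[(17,1),(9,0),(5,0)]⟩,⟨2,[(5,0),(10,2),(2,
  1),(2,0)]⟩⟩,.a ⟨true,0,⟨0,[(17,0)]⟩,⟨0,[(16,0)]⟩⟩ ⟨false,1,⟨1,[(14,0),(17,1),(0,0)]⟩,⟨1,[(0,0),(3,
  0),(25,1),(0,1)]⟩⟩ ⟨true,0,⟨1,[(5,0),(1,0),(8,1),(15,0)]⟩,⟨0,[(17,0),(13,0)]⟩⟩]⟩))) (.I [0,0,-2,
  -1,1,0,0,0,-1] (.I [1,-1,1,0,0,0,0,0,1] (.R ⟨0,false,false,true,[1,0,0,-1],[0,1],[0,1,0,0,0,0,0,0,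
  -1],(⟨0,[(16,0)]⟩,⟨0,[(17,0)]⟩),(⟨0,[(29,0)]⟩,⟨0,[(28,0)]⟩),⟨0,[(2,0)]⟩,.k,.k,(.x (-1) ⟨3,[(14,0),
  (0,0),(11,1),(0,3)]⟩ ⟨0,[(29,0)]⟩),(.x (-1) ⟨3,[(14,0),(0,0),(11,1),(0,3)]⟩ ⟨0,[(29,0)]⟩),.k,.k,
  ⟨false,1,⟨0,[(1,0)]⟩,⟨0,[(0,0),(30,0)]⟩⟩,⟨true,0,⟨0,[(16,0)]⟩,⟨2,[(5,0),(11,2),(1,1),(2,0)]⟩⟩,
  ⟨true,0,⟨0,[(36,0)]⟩,⟨0,[]⟩⟩,⟨false,0,⟨0,[(0,0),(15,0),(14,0)]⟩,⟨9,[(1,6),(1,0),(1,3),(1,3),(6,0),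
  (2,8),(2,0),(6,0),(2,4)]⟩⟩,⟨false,0,⟨0,[]⟩,⟨0,[]⟩⟩,⟨false,0,⟨0,[]⟩,⟨0,[]⟩⟩,[.o ⟨false,0,⟨0,[(31,
  0)]⟩,⟨1,[(27,0),(4,1),(1,0)]⟩⟩,.o ⟨false,1,⟨3,[(14,0),(0,0),(15,3),(2,1)]⟩,⟨1,[(5,0),(1,0),(24,
  0)]⟩⟩,.o ⟨false,1,⟨1,[(17,1),(9,0),(5,0)]⟩,⟨2,[(5,0),(10,2),(2,1),(2,0)]⟩⟩,.a ⟨true,0,⟨0,[(17,
  0)]⟩,⟨0,[(16,0)]⟩⟩ ⟨false,1,⟨1,[(14,0),(18,0)]⟩,⟨0,[(0,0)]⟩⟩ ⟨true,0,⟨0,[(16,0),(14,0)]⟩,⟨1,[(5,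
  0),(1,0),(9,1),(14,0)]⟩⟩]⟩) (.Q [0,0,-1,0,0,0,1,1,-1,0,-1,1] (.p false [0,0,1] [0,0,0,1] (⟨0,[(26,
  0)]⟩,⟨0,[(25,0)]⟩) .k 2 (⟨0,[(17,0)]⟩,⟨0,[(16,0)]⟩) .k (.x (-1) ⟨7,[(13,3),(0,0),(0,0),(10,7),(0,
  1),(5,3)]⟩ ⟨5,[(6,1),(1,1),(13,0),(0,2)]⟩)) (.R ⟨0,false,false,false,[1,0,0,-1],[1,0,-1],[0,1,0,0,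
  0,0,0,0,-1],(⟨0,[(17,0)]⟩,⟨0,[(18,0)]⟩),(⟨0,[(26,0)]⟩,⟨0,[(27,0)]⟩),⟨0,[(3,0)]⟩,.k,.k,(.x (-1) ⟨3,
  [(15,0),(0,0),(11,1),(0,3)]⟩ ⟨0,[(30,0)]⟩),.k,.k,.k,⟨false,0,⟨4,[(0,3),(0,0),(4,0),(1,2),(4,2),(3,
  3),(3,0)]⟩,⟨1,[(16,0),(8,1),(9,0)]⟩⟩,⟨true,0,⟨0,[(17,0),(2,0)]⟩,⟨2,[(6,0),(7,0),(3,2)]⟩⟩,⟨true,0,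
  ⟨0,[(37,0)]⟩,⟨0,[]⟩⟩,⟨false,1,⟨1,[(16,0),(0,1),(2,1),(4,1),(9,0)]⟩,⟨0,[(0,0)]⟩⟩,⟨false,0,⟨0,[]⟩,
  ⟨0,[]⟩⟩,⟨false,0,⟨0,[]⟩,⟨0,[]⟩⟩,[.o ⟨false,0,⟨3,[(6,0),(1,1),(2,2),(1,1),(5,0)]⟩,⟨3,[(15,0),(0,0),
  (4,3),(13,1)]⟩⟩,.o ⟨false,1,⟨0,[(19,0),(15,0)]⟩,⟨0,[(21,0)]⟩⟩,.o ⟨false,1,⟨1,[(18,1),(9,0),(5,
  0)]⟩,⟨2,[(6,0),(10,2),(2,1),(2,0)]⟩⟩,.a ⟨true,0,⟨0,[(18,0)]⟩,⟨0,[(17,0)]⟩⟩ ⟨false,0,⟨3,[(0,2),(0,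
  0),(4,0),(1,1),(2,2),(1,1),(3,2)]⟩,⟨1,[(16,0),(6,0),(0,0),(10,0)]⟩⟩ ⟨true,0,⟨3,[(6,0),(1,1),(2,2),
  (1,1),(3,3),(1,0)]⟩,⟨0,[(18,0),(2,0)]⟩⟩]⟩) (.K ⟨0,[0,0,0,1],0,0,(⟨0,[(18,0)]⟩,⟨0,[(17,0)]⟩),.k,
  (.r (-1) ⟨1,[(16,0),(16,1),(0,0)]⟩ ⟨1,[(1,1),(21,0),(0,0),(6,1),(0,1)]⟩),(.x 0 ⟨0,[(30,0)]⟩ ⟨3,
  [(15,0),(0,0),(11,1),(0,3)]⟩),.k,.k,[⟨0,[(18,0)]⟩,⟨0,[(17,0)]⟩,⟨0,[(1,0),(16,0)]⟩,⟨0,[(0,0),(20,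
  0)]⟩]⟩))) (.I [1,-1,-1,0,1,0,0,0,-1] (.R ⟨0,false,false,false,[1,0,0,-1],[1,0,-1],[0,1,0,0,0,0,0,
  0,-1],(⟨0,[(16,0)]⟩,⟨0,[(17,0)]⟩),(⟨0,[(25,0)]⟩,⟨0,[(26,0)]⟩),⟨0,[(2,0)]⟩,.k,.k,(.x (-1) ⟨3,[(14,
  0),(0,0),(11,1),(0,3)]⟩ ⟨0,[(29,0)]⟩),.k,.k,.k,⟨false,1,⟨3,[(0,1),(6,1),(4,1),(1,0),(1,1),(0,1),
  (2,3),(12,0)]⟩,⟨0,[(1,0),(8,0),(21,0),(0,0)]⟩⟩,⟨true,0,⟨0,[(16,0),(2,0)]⟩,⟨2,[(5,0),(7,0),(3,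
  2)]⟩⟩,⟨true,0,⟨0,[(36,0)]⟩,⟨0,[]⟩⟩,⟨false,0,⟨25,[(1,11),(2,3),(2,11),(1,5),(0,23),(4,4),(0,25),(1,
  1),(8,2)]⟩,⟨0,[(0,0),(16,0),(2,0)]⟩⟩,⟨false,0,⟨0,[]⟩,⟨0,[]⟩⟩,⟨false,0,⟨0,[]⟩,⟨0,[]⟩⟩,[.o ⟨false,0,
  ⟨3,[(5,0),(1,1),(2,2),(1,1),(5,0)]⟩,⟨3,[(14,0),(0,0),(4,3),(13,1)]⟩⟩,.o ⟨false,1,⟨0,[(18,0),(15,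
  0)]⟩,⟨0,[(20,0)]⟩⟩,.o ⟨false,1,⟨1,[(17,1),(9,0),(5,0)]⟩,⟨2,[(5,0),(10,2),(2,1),(2,0)]⟩⟩,.a ⟨true,
  0,⟨0,[(17,0)]⟩,⟨0,[(16,0)]⟩⟩ ⟨false,1,⟨1,[(14,0),(18,0)]⟩,⟨4,[(1,1),(2,0),(10,0),(14,1),(1,1)]⟩⟩
  ⟨true,0,⟨3,[(5,0),(1,1),(2,2),(1,1),(3,3),(1,0)]⟩,⟨0,[(17,0),(2,0)]⟩⟩]⟩) (.Q [0,0,-2,0,1,0,0,0,0,
  -1,0,2] (.p true [0,0,0,1] [1,0,0,-1] (⟨0,[(17,0)]⟩,⟨0,[(16,0)]⟩) .k 2 (⟨0,[(16,0)]⟩,⟨0,[(17,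
  0)]⟩) .k (.r 0 ⟨0,[(0,0),(3,0)]⟩ ⟨0,[(14,0)]⟩)) (.R ⟨0,false,false,false,[1,0,0,-1],[0,0,0,1],[0,
  1,1],(⟨0,[(17,0)]⟩,⟨0,[(18,0)]⟩),(⟨0,[(18,0)]⟩,⟨0,[(17,0)]⟩),⟨0,[(3,0)]⟩,.k,.k,(.x (-1) ⟨3,[(15,
  0),(0,0),(11,1),(0,3)]⟩ ⟨0,[(30,0)]⟩),.k,.k,.k,⟨true,0,⟨0,[(1,0),(13,0)]⟩,⟨0,[(1,0),(29,0),(2,
  0)]⟩⟩,⟨false,0,⟨2,[(6,0),(10,5),(2,1),(2,0)]⟩,⟨0,[(0,0)]⟩⟩,⟨true,(-1),⟨0,[(1,0)]⟩,⟨1,[(15,0),(18,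
  0)]⟩⟩,⟨false,(-1),⟨3,[(1,4),(0,1),(2,0),(0,1),(1,1),(8,7),(13,3),(2,1)]⟩,⟨0,[(0,0),(14,0)]⟩⟩,
  ⟨false,0,⟨0,[]⟩,⟨0,[]⟩⟩,⟨false,0,⟨0,[]⟩,⟨0,[]⟩⟩,[.o ⟨false,0,⟨6,[(2,2),(3,1),(1,2),(7,1),(0,6),(5,
  0),(4,0)]⟩,⟨2,[(0,0),(3,0),(1,0),(1,0),(6,0),(5,0)]⟩⟩,.o ⟨false,0,⟨21,[(2,9),(2,5),(0,9),(1,9),(7,
  2),(0,21),(10,0),(2,7)]⟩,⟨1,[(0,0),(14,0),(3,0),(1,0)]⟩⟩,.o ⟨false,1,⟨7,[(0,3),(14,0),(0,0),(11,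
  1)]⟩,⟨2,[(6,0),(10,2),(2,1),(2,0)]⟩⟩,.a ⟨true,0,⟨0,[(18,0)]⟩,⟨0,[(17,0)]⟩⟩ ⟨true,0,⟨0,[(37,0)]⟩,
  ⟨0,[]⟩⟩ ⟨false,0,⟨21,[(2,9),(2,5),(0,9),(1,9),(7,2),(0,43),(10,0),(2,7)]⟩,⟨2,[(0,0),(3,0),(1,0),
  (1,0),(6,0),(2,2),(2,0)]⟩⟩]⟩) (.K ⟨0,[1,0,0,-1],1,1,(⟨0,[(17,0)]⟩,⟨0,[(18,0)]⟩),.k,(.x (-1) ⟨3,
  [(15,0),(0,0),(11,1),(0,3)]⟩ ⟨0,[(30,0)]⟩),(.x (-1) ⟨0,[(30,0),(3,0)]⟩ ⟨0,[(20,0),(2,0),(5,0)]⟩),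
  .k,.k,[⟨0,[(0,0),(17,0)]⟩,⟨0,[(18,0),(15,0)]⟩,⟨0,[(1,0),(15,0)]⟩,⟨7,[(4,1),(1,1),(1,1),(6,2),(2,
  5),(0,3),(1,5),(12,2)]⟩]⟩))))) (.K ⟨0,[0,0,0,1],0,(-1),(⟨0,[(14,0)]⟩,⟨0,[(13,0)]⟩),.k,(.x 0 ⟨0,
  [(16,0),(2,0),(5,0)]⟩ ⟨0,[(26,0),(3,0)]⟩),(.x 0 ⟨0,[(26,0)]⟩ ⟨3,[(11,0),(0,0),(11,1),(0,3)]⟩),.k,
  .k,[⟨0,[(14,0)]⟩,⟨0,[(13,0)]⟩,⟨1,[(11,0),(2,1),(15,0),(2,1)]⟩,⟨0,[(0,0),(6,0),(1,0)]⟩]⟩))))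

theorem ok146 : chk (cU (-1) true 10) t146 l76 = true := by decide +kernel

noncomputable def t151 : Tre :=
  (.R ⟨0,false,false,true,[1,-1,-1],[1,-1],[1,0,1],(⟨0,[(5,0)]⟩,⟨1,[(0,0),(9,0),(0,0),(8,0)]⟩),(⟨0,
  [(22,0)]⟩,⟨0,[(23,0)]⟩),⟨0,[(0,0)]⟩,.k,.k,(.r (-1) ⟨0,[(18,0),(7,1),(0,0)]⟩ ⟨0,[(1,0),(15,0),(6,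
  0),(0,0)]⟩),.k,.k,.k,⟨false,0,⟨0,[(24,0),(0,0)]⟩,⟨0,[(26,0),(0,0),(2,0)]⟩⟩,⟨true,0,⟨0,[(4,0),(9,
  0)]⟩,⟨0,[(17,0)]⟩⟩,⟨false,0,⟨0,[(1,0),(15,0),(6,0)]⟩,⟨0,[(18,0),(7,0),(0,0)]⟩⟩,⟨true,0,⟨0,[(14,
  0)]⟩,⟨0,[(4,0),(1,0),(19,0)]⟩⟩,⟨false,0,⟨0,[]⟩,⟨0,[]⟩⟩,⟨false,0,⟨0,[]⟩,⟨0,[]⟩⟩,[.e ⟨false,0,⟨0,
  []⟩,⟨3,[(8,0),(0,0),(17,1)]⟩⟩ ⟨false,1,⟨1,[(7,0),(4,0),(1,0),(11,1),(0,1)]⟩,⟨0,[(6,0),(17,0)]⟩⟩,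
  .a ⟨true,0,⟨0,[(26,0)]⟩,⟨1,[(2,0),(2,0),(0,1),(12,0),(4,0)]⟩⟩ ⟨true,0,⟨3,[(16,0),(0,0),(6,1)]⟩,⟨0,
  [(30,0)]⟩⟩ ⟨false,1,⟨0,[(4,0),(9,0),(11,0),(0,0)]⟩,⟨1,[(6,0),(10,0),(6,0),(0,0)]⟩⟩,.o ⟨false,0,⟨0,
  [(13,0)]⟩,⟨7,[(7,3),(0,0),(0,0),(11,1),(5,3)]⟩⟩,.o ⟨false,0,⟨0,[(3,0),(12,0)]⟩,⟨0,[(4,0),(9,0),
  (12,0)]⟩⟩]⟩)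

theorem ok151 : chk (cU (-1) true 10) t151 l78 = true := by decide +kernel

noncomputable def t156 : Tre :=
  (.Q [0,0,0,0,0,0,2,2,0,1,-2] (.p false [0,0,1] [1,0,-1] (⟨0,[(28,0)]⟩,⟨0,[(27,0)]⟩) .k 2 (⟨0,[(27,
  0)]⟩,⟨0,[(28,0)]⟩) .k (.r (-1) ⟨9,[(2,7),(3,3),(9,2),(0,2),(16,3)]⟩ ⟨0,[(26,1)]⟩)) (.R ⟨0,false,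
  false,true,[0,-1,1],[1,-1,-1],[0,1,0,-1,0,0,0,-1],(⟨0,[(9,0),(1,0),(0,0)]⟩,⟨0,[(28,0),(3,0)]⟩),
  (⟨0,[(14,0)]⟩,⟨0,[(29,0),(2,0)]⟩),⟨0,[(1,0)]⟩,.k,.k,(.r (-1) ⟨0,[(7,0),(27,0)]⟩ ⟨1,[(6,1),(18,2),
  (0,0)]⟩),.k,.k,.k,⟨true,0,⟨1,[(25,0),(0,0)]⟩,⟨0,[]⟩⟩,⟨false,1,⟨9,[(2,5),(0,1),(3,1),(4,3),(4,0),
  (0,0)]⟩,⟨0,[(16,0)]⟩⟩,⟨false,0,⟨2,[(24,1),(0,1),(1,3),(5,0)]⟩,⟨0,[(7,0),(0,0)]⟩⟩,⟨true,0,⟨2,[(5,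
  0),(0,0),(5,0),(0,0),(7,1),(2,0)]⟩,⟨0,[(0,0)]⟩⟩,⟨false,0,⟨0,[]⟩,⟨0,[]⟩⟩,⟨false,0,⟨0,[]⟩,⟨0,[]⟩⟩,
  [.o ⟨false,0,⟨1,[(5,0),(15,0),(0,0)]⟩,⟨0,[(10,0),(26,0)]⟩⟩,.a ⟨true,0,⟨1,[(5,0),(6,0),(0,0),(5,0),
  (0,0)]⟩,⟨3,[(0,2),(5,1),(12,0),(0,0)]⟩⟩ ⟨true,0,⟨5,[(5,2),(18,0),(0,0),(1,1),(5,1)]⟩,⟨9,[(3,5),(2,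
  1),(18,2),(0,0)]⟩⟩ ⟨false,1,⟨4,[(2,3),(2,1),(1,0),(4,0),(20,0)]⟩,⟨9,[(3,5),(2,1),(9,9),(8,2),(0,
  0)]⟩⟩,.o ⟨false,0,⟨0,[(25,0)]⟩,⟨39,[(2,17),(0,5),(3,5),(4,1),(4,2),(0,2),(11,9)]⟩⟩,.e ⟨false,1,⟨3,
  [(2,0),(2,1),(10,0),(0,0),(0,0),(8,0),(9,0)]⟩,⟨0,[(8,0)]⟩⟩ ⟨false,1,⟨4,[(2,3),(2,1),(1,0),(4,0),
  (20,0)]⟩,⟨1,[(8,1),(7,1),(8,0),(0,0)]⟩⟩]⟩) (.Q [0,0,-2,0,1,0,-1,0,0,-1,1] (.p true [0,0,1] [1]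
  (⟨0,[(29,0)]⟩,⟨0,[(28,0)]⟩) .k 1 (⟨0,[]⟩,⟨0,[]⟩) .k .k) (.R ⟨0,false,false,false,[0,-1,1],[1,-1,
  -1],[1],(⟨0,[(10,0),(1,0),(0,0)]⟩,⟨0,[(29,0),(3,0)]⟩),(⟨0,[(15,0)]⟩,⟨0,[(30,0),(2,0)]⟩),⟨0,[(2,
  0)]⟩,.k,.k,(.r (-1) ⟨0,[(8,0),(27,0)]⟩ ⟨1,[(7,1),(18,2),(0,0)]⟩),.k,.k,.k,⟨true,0,⟨9,[(4,5),(2,1),
  (18,2),(0,0)]⟩,⟨5,[(6,2),(18,0),(0,0),(1,1),(5,1)]⟩⟩,⟨false,1,⟨9,[(3,5),(0,1),(3,1),(4,3),(4,0),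
  (0,0)]⟩,⟨0,[(17,0)]⟩⟩,⟨false,0,⟨1,[(7,0),(18,0),(1,0),(5,0)]⟩,⟨4,[(4,0),(3,2),(9,0),(0,0),(16,
  2)]⟩⟩,⟨true,0,⟨0,[(1,0)]⟩,⟨1,[(4,0),(7,0),(2,0),(8,1),(4,0),(6,0)]⟩⟩,⟨false,0,⟨0,[]⟩,⟨0,[]⟩⟩,
  ⟨false,0,⟨0,[]⟩,⟨0,[]⟩⟩,[.a ⟨true,0,⟨3,[(1,0),(4,1),(6,0),(6,1),(0,1),(12,0)]⟩,⟨4,[(2,0),(1,2),(2,
  0),(4,2),(2,4)]⟩⟩ ⟨true,0,⟨0,[]⟩,⟨1,[(26,0),(0,0)]⟩⟩ ⟨false,1,⟨4,[(3,3),(2,1),(1,0),(4,0),(20,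
  0)]⟩,⟨9,[(4,5),(2,1),(9,9),(8,2),(0,0)]⟩⟩,.o ⟨false,1,⟨15,[(1,3),(4,7),(11,0),(0,0),(3,7),(7,1),
  (6,11)]⟩,⟨0,[(11,0)]⟩⟩,.o ⟨false,0,⟨0,[(26,0)]⟩,⟨19,[(0,11),(12,3),(4,2),(0,2),(11,1)]⟩⟩,.o
  ⟨false,0,⟨1,[(26,2),(0,0)]⟩,⟨0,[(0,0)]⟩⟩]⟩) (.K ⟨0,[1,1,-1],1,0,(⟨0,[(29,0),(3,0)]⟩,⟨0,[(10,0),(1,
  0),(0,0)]⟩),.k,.k,(.r 0 ⟨3,[(0,3),(6,3),(10,0),(0,0),(11,1)]⟩ ⟨0,[(8,0),(27,0)]⟩),.k,.k,[⟨0,[(0,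
  0)]⟩,⟨2,[(3,0),(3,0),(0,1),(11,0),(0,0)]⟩,⟨0,[(0,0),(7,0),(31,0)]⟩,⟨0,[(1,0),(9,0)]⟩]⟩)))

theorem ok156 : chk (cU (-1) true 10) t156 l86 = true := by decide +kernel

noncomputable def t167 : Tre :=
  (.R ⟨1,false,false,false,[0,0,1],[1,1,-1],[1],(⟨0,[(27,0)]⟩,⟨0,[(26,0)]⟩),(⟨0,[(26,0),(3,0)]⟩,⟨0,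
  [(7,0),(1,0),(0,0)]⟩),⟨0,[(7,0),(1,0),(0,0)]⟩,.k,.k,.k,(.r (-1) ⟨9,[(0,3),(0,1),(3,11),(4,3),(4,
  0),(0,0)]⟩ ⟨5,[(4,2),(17,1),(0,4),(1,6),(5,0)]⟩),(.r (-2) ⟨4,[(0,1),(4,7),(4,1),(4,1),(0,1),(16,
  1)]⟩ ⟨0,[(0,0),(3,0),(6,0),(7,0)]⟩),.k,⟨false,1,⟨0,[(5,0)]⟩,⟨5,[(4,2),(17,1),(0,4),(1,0),(5,0)]⟩⟩,
  ⟨true,1,⟨0,[(10,0),(23,0)]⟩,⟨0,[(0,0),(24,0)]⟩⟩,⟨false,0,⟨0,[(11,0)]⟩,⟨9,[(0,0),(0,2),(3,2),(4,0),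
  (4,3),(0,3)]⟩⟩,⟨false,1,⟨11,[(4,5),(5,1),(0,3),(7,9),(2,3),(11,0),(0,10)]⟩,⟨0,[(0,0),(4,0)]⟩⟩,
  ⟨true,0,⟨2,[(4,0),(3,0),(2,0),(13,1)]⟩,⟨0,[(1,0),(1,0)]⟩⟩,⟨false,1,⟨0,[(4,0),(14,0),(15,0)]⟩,⟨0,
  [(0,0),(4,0),(27,0)]⟩⟩,[.a ⟨true,0,⟨5,[(3,0),(0,3),(5,0),(0,0),(5,0),(0,0)]⟩,⟨1,[(0,0),(4,0),(11,
  0),(0,0),(14,0)]⟩⟩ ⟨true,0,⟨0,[]⟩,⟨1,[(23,0),(0,0)]⟩⟩ ⟨false,1,⟨3,[(4,1),(5,1),(8,1),(14,2),(0,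
  0)]⟩,⟨8,[(0,5),(2,1),(1,4),(8,2),(20,0)]⟩⟩,.o ⟨false,1,⟨3,[(4,1),(14,1),(8,0),(6,2)]⟩,⟨2,[(0,0),
  (2,0),(1,0),(14,0),(0,1)]⟩⟩,.o ⟨false,0,⟨0,[(11,0),(9,0)]⟩,⟨3,[(10,1),(4,0),(0,0),(11,0),(5,0)]⟩⟩,
  .o ⟨false,0,⟨0,[(23,0)]⟩,⟨3,[(10,1),(17,0),(5,2)]⟩⟩]⟩)

theorem ok167 : chk (cU (-1) true 10) t167 r85 = true := by decide +kernel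

noncomputable def t175 : Tre :=
  (.I [0,0,-3,0,1,3] (.R ⟨1,false,false,false,[1,-1],[0,1],[1,0,1],(⟨0,[(38,0)]⟩,⟨0,[(39,0)]⟩),(⟨0,
  [(39,0)]⟩,⟨0,[(38,0)]⟩),⟨2,[(10,0),(5,0),(21,1)]⟩,.k,.k,(.r (-1) ⟨10,[(0,1),(0,5),(12,3),(5,3),
  (17,5),(4,3),(0,0)]⟩ ⟨4,[(12,1),(0,1),(18,4),(0,2),(7,1)]⟩),(.r (-1) ⟨10,[(0,1),(0,5),(12,3),(5,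
  3),(17,5),(4,3),(0,0)]⟩ ⟨4,[(12,1),(0,1),(18,4),(0,2),(7,1)]⟩),(.x 0 ⟨7,[(10,5),(5,5),(2,5),(12,
  14),(0,2)]⟩ ⟨0,[(0,0)]⟩),.k,⟨true,0,⟨0,[(42,0)]⟩,⟨9,[(12,1),(0,1),(18,4),(0,2),(7,1)]⟩⟩,⟨false,1,
  ⟨2,[(0,2),(9,1),(5,1),(21,0)]⟩,⟨0,[(29,0),(2,0)]⟩⟩,⟨false,0,⟨31,[(2,3),(0,3),(8,7),(19,26),(0,18),
  (6,9)]⟩,⟨21,[(0,1),(0,5),(12,3),(5,3),(17,5),(4,14),(0,0)]⟩⟩,⟨false,0,⟨0,[(2,0)]⟩,⟨11,[(1,7),(22,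
  2),(0,2),(11,1),(6,3)]⟩⟩,⟨false,0,⟨15,[(2,3),(0,3),(8,7),(19,14),(0,6),(6,1)]⟩,⟨10,[(0,1),(0,5),
  (12,3),(5,3),(17,5),(4,3),(0,0)]⟩⟩,⟨true,0,⟨3,[(2,0),(1,2),(8,1),(17,0)]⟩,⟨0,[(1,0)]⟩⟩,[.e ⟨false,
  0,⟨0,[]⟩,⟨3,[(24,0),(0,0),(17,1)]⟩⟩ ⟨false,1,⟨23,[(0,3),(1,5),(1,5),(19,0),(0,0),(5,5),(6,11),(4,
  17)]⟩,⟨2,[(1,1),(7,0),(2,0),(19,0),(7,0)]⟩⟩,.a ⟨true,0,⟨0,[(2,0),(39,0)]⟩,⟨2,[(1,0),(24,0),(0,0),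
  (18,1)]⟩⟩ ⟨true,0,⟨3,[(32,0),(0,0),(6,1)]⟩,⟨0,[(46,0)]⟩⟩ ⟨false,1,⟨15,[(0,1),(1,9),(11,3),(5,3),
  (17,5),(4,8),(0,0)]⟩,⟨1,[(1,0),(27,0),(2,0),(8,0)]⟩⟩,.o ⟨false,0,⟨8,[(1,3),(7,4),(2,1),(4,2),(14,
  1),(7,4)]⟩,⟨3,[(24,0),(0,0),(17,1)]⟩⟩,.o ⟨false,0,⟨0,[(29,0),(2,0)]⟩,⟨0,[(43,0)]⟩⟩]⟩) (.I [0,0,3,
  0,-1,-3] (.R ⟨1,false,false,false,[1,-1],[0,1],[1,0,1],(⟨0,[(39,0)]⟩,⟨0,[(40,0)]⟩),(⟨0,[(40,0)]⟩,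
  ⟨0,[(39,0)]⟩),⟨2,[(11,0),(5,0),(21,1)]⟩,.k,.k,(.r (-1) ⟨22,[(2,7),(12,21),(3,1),(1,13),(2,1),(7,
  7),(3,3),(2,1),(5,0)]⟩ ⟨4,[(13,1),(0,1),(18,4),(0,2),(7,1)]⟩),(.r (-1) ⟨22,[(2,7),(12,21),(3,1),
  (1,13),(2,1),(7,7),(3,3),(2,1),(5,0)]⟩ ⟨4,[(13,1),(0,1),(18,4),(0,2),(7,1)]⟩),(.x 1 ⟨0,[(0,0)]⟩
  ⟨3,[(25,0),(0,0),(13,11),(3,5)]⟩),.k,⟨true,0,⟨0,[(43,0)]⟩,⟨9,[(13,1),(0,1),(18,4),(0,2),(7,1)]⟩⟩,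
  ⟨false,1,⟨0,[(4,0),(1,0),(12,0),(2,0),(13,0)]⟩,⟨0,[(30,0),(2,0)]⟩⟩,⟨false,0,⟨31,[(3,3),(0,3),(8,
  7),(19,26),(0,18),(6,9)]⟩,⟨7,[(2,0),(12,4),(5,2),(2,0),(7,1),(11,2)]⟩⟩,⟨false,0,⟨0,[(3,0)]⟩,⟨11,
  [(2,7),(22,2),(0,2),(11,1),(6,3)]⟩⟩,⟨false,0,⟨15,[(3,3),(0,3),(8,7),(19,14),(0,6),(6,1)]⟩,⟨22,[(2,
  7),(12,21),(3,1),(1,13),(2,1),(7,7),(3,3),(2,1),(5,0)]⟩⟩,⟨true,0,⟨3,[(3,0),(1,2),(8,1),(17,0)]⟩,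
  ⟨0,[(2,0)]⟩⟩,[.e ⟨false,0,⟨0,[]⟩,⟨3,[(25,0),(0,0),(17,1)]⟩⟩ ⟨false,1,⟨7,[(3,4),(1,0),(9,3),(8,1),
  (7,4),(11,3)]⟩,⟨2,[(2,1),(7,0),(2,0),(19,0),(7,0)]⟩⟩,.a ⟨true,0,⟨0,[(3,0),(39,0)]⟩,⟨2,[(2,0),(24,
  0),(0,0),(18,1)]⟩⟩ ⟨true,0,⟨3,[(33,0),(0,0),(6,1)]⟩,⟨0,[(47,0)]⟩⟩ ⟨false,1,⟨23,[(3,17),(11,11),(3,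
  1),(1,7),(10,3),(3,3),(2,1),(4,10),(0,0)]⟩,⟨1,[(2,0),(27,0),(2,0),(8,0)]⟩⟩,.o ⟨false,0,⟨8,[(2,3),
  (7,4),(2,1),(4,2),(14,1),(7,4)]⟩,⟨3,[(25,0),(0,0),(17,1)]⟩⟩,.o ⟨false,0,⟨0,[(30,0),(2,0)]⟩,⟨0,
  [(44,0)]⟩⟩]⟩) (.I [0,0,-3,-3,1] (.R ⟨1,false,false,false,[1,-1],[0,1],[1,0,1],(⟨0,[(40,0)]⟩,⟨0,
  [(41,0)]⟩),(⟨0,[(41,0)]⟩,⟨0,[(40,0)]⟩),⟨2,[(12,0),(5,0),(21,1)]⟩,.k,.k,(.r (-1) ⟨5,[(0,3),(25,0),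
  (0,0)]⟩ ⟨4,[(14,1),(0,1),(18,4),(0,2),(7,1)]⟩),(.r (-1) ⟨5,[(0,3),(25,0),(0,0)]⟩ ⟨4,[(14,1),(0,1),
  (18,4),(0,2),(7,1)]⟩),(.r (-1) ⟨0,[(0,0)]⟩ ⟨9,[(14,5),(0,5),(18,14),(0,8),(7,5)]⟩),.k,⟨true,0,⟨0,
  [(44,0)]⟩,⟨9,[(14,1),(0,1),(18,4),(0,2),(7,1)]⟩⟩,⟨false,1,⟨2,[(1,2),(10,1),(5,1),(21,0)]⟩,⟨0,[(31,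
  0),(2,0)]⟩⟩,⟨false,0,⟨31,[(4,3),(0,3),(8,7),(19,26),(0,18),(6,9)]⟩,⟨11,[(0,3),(25,0),(0,0),(17,
  5)]⟩⟩,⟨false,0,⟨0,[(4,0)]⟩,⟨11,[(3,7),(22,2),(0,2),(11,1),(6,3)]⟩⟩,⟨false,0,⟨15,[(4,3),(0,3),(8,
  7),(19,14),(0,6),(6,1)]⟩,⟨5,[(0,3),(25,0),(0,0)]⟩⟩,⟨true,0,⟨3,[(4,0),(1,2),(8,1),(17,0)]⟩,⟨0,[(3,
  0)]⟩⟩,[.e ⟨false,0,⟨0,[]⟩,⟨3,[(26,0),(0,0),(17,1)]⟩⟩ ⟨false,1,⟨23,[(1,3),(2,5),(1,5),(19,0),(0,0),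
  (5,5),(6,11),(4,17)]⟩,⟨2,[(3,1),(7,0),(2,0),(19,0),(7,0)]⟩⟩,.a ⟨true,0,⟨0,[(4,0),(39,0)]⟩,⟨2,[(3,
  0),(24,0),(0,0),(18,1)]⟩⟩ ⟨true,0,⟨3,[(34,0),(0,0),(6,1)]⟩,⟨0,[(48,0)]⟩⟩ ⟨false,1,⟨11,[(0,3),(3,
  11),(21,0),(0,0),(17,5)]⟩,⟨1,[(3,0),(27,0),(2,0),(8,0)]⟩⟩,.o ⟨false,0,⟨8,[(3,3),(7,4),(2,1),(4,2),
  (14,1),(7,4)]⟩,⟨3,[(26,0),(0,0),(17,1)]⟩⟩,.o ⟨false,0,⟨0,[(31,0),(2,0)]⟩,⟨0,[(45,0)]⟩⟩]⟩) (.I [0,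
  0,0,0,0,0,0,0,1] (.Q [0,0,0,0,0,0,-1,-1,0,0,1,-1] (.p true [0,0,1] [0,0,0,1] (⟨0,[(39,0)]⟩,⟨0,
  [(38,0)]⟩) .k 2 (⟨0,[(30,0)]⟩,⟨0,[(29,0)]⟩) .k (.r (-1) ⟨5,[(1,1),(6,2),(18,3),(0,0)]⟩ ⟨0,[(0,0),
  (36,0)]⟩)) (.I [1,-1,-1,0,1,0,0,0,-1] (.I [1,0,-1,0,1,0,0,1,-1] (.R ⟨1,false,false,false,[1,0,0,
  -1],[1,0,-1],[1,0,0,0,0,0,0,0,-1],(⟨0,[(32,0)]⟩,⟨0,[(33,0)]⟩),(⟨0,[(41,0)]⟩,⟨0,[(42,0)]⟩),⟨5,[(2,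
  2),(3,0),(3,0),(0,0),(10,1),(1,0),(7,2)]⟩,.k,.k,(.x (-1) ⟨15,[(16,3),(5,3),(7,6),(0,6),(11,1)]⟩
  ⟨0,[(45,0)]⟩),.k,(.r (-1) ⟨1,[(11,0),(18,0)]⟩ ⟨2,[(3,0),(0,0),(26,0),(8,2)]⟩),.k,⟨false,1,⟨0,[(0,
  0)]⟩,⟨0,[(3,0),(36,0)]⟩⟩,⟨true,0,⟨0,[(32,0),(2,0)]⟩,⟨0,[(26,0),(6,0),(2,0)]⟩⟩,⟨true,0,⟨0,[]⟩,⟨0,
  [(52,0)]⟩⟩,⟨false,0,⟨6,[(2,4),(0,4),(0,0),(2,0),(5,0),(17,0),(0,1),(13,3)]⟩,⟨0,[(1,0),(31,0),(2,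
  0)]⟩⟩,⟨false,1,⟨23,[(9,3),(0,7),(19,4),(0,4),(11,1),(6,11)]⟩,⟨0,[(48,0)]⟩⟩,⟨false,0,⟨11,[(2,11),
  (0,7),(0,1),(13,2),(7,2),(4,1),(14,2)]⟩,⟨7,[(1,5),(5,1),(3,0),(12,0),(2,0),(2,0),(2,7),(2,5),(4,
  0),(4,0)]⟩⟩,[.e ⟨false,1,⟨1,[(30,0),(18,0)]⟩,⟨0,[(3,0)]⟩⟩ ⟨false,0,⟨0,[(2,0)]⟩,⟨21,[(0,3),(9,5),
  (0,2),(8,5),(8,7),(1,1),(1,21),(9,6)]⟩⟩,.o ⟨false,1,⟨7,[(13,3),(16,0),(0,0),(11,1),(6,3)]⟩,⟨0,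
  [(36,0)]⟩⟩,.o ⟨false,1,⟨1,[(33,1),(9,0),(5,0)]⟩,⟨15,[(2,2),(1,3),(2,4),(15,2),(8,12),(10,3),(2,
  3)]⟩⟩,.a ⟨true,0,⟨0,[(33,0)]⟩,⟨0,[(32,0)]⟩⟩ ⟨false,1,⟨0,[(1,0)]⟩,⟨10,[(3,6),(0,1),(2,1),(21,1),(1,
  1),(7,3),(6,0)]⟩⟩ ⟨true,0,⟨0,[(2,0)]⟩,⟨0,[(33,0),(2,0)]⟩⟩]⟩) (.R ⟨1,false,false,false,[1,0,0,-1],
  [1,0,-1],[0,1,0,-1,0,0,0,0,-1],(⟨0,[(32,0)]⟩,⟨0,[(33,0)]⟩),(⟨0,[(41,0)]⟩,⟨0,[(42,0)]⟩),⟨5,[(2,2),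
  (3,0),(3,0),(0,0),(10,1),(1,0),(7,2)]⟩,.k,.k,(.x (-1) ⟨15,[(16,3),(5,3),(7,6),(0,6),(11,1)]⟩ ⟨0,
  [(45,0)]⟩),.k,(.r (-1) ⟨1,[(11,0),(18,0)]⟩ ⟨6,[(0,0),(3,1),(7,0),(16,0),(1,2),(8,3)]⟩),.k,⟨false,
  1,⟨1,[(11,0),(18,0),(21,1)]⟩,⟨3,[(0,3),(7,1),(34,0),(5,1),(0,0)]⟩⟩,⟨true,0,⟨0,[(32,0),(2,0)]⟩,⟨0,
  [(26,0),(6,0),(2,0)]⟩⟩,⟨false,0,⟨0,[(48,0)]⟩,⟨23,[(9,3),(0,7),(19,4),(0,4),(11,1),(6,11)]⟩⟩,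
  ⟨false,0,⟨69,[(0,23),(1,61),(4,3),(3,0),(9,13),(3,3),(5,22),(0,7),(13,29)]⟩,⟨0,[(1,0),(31,0),(2,
  0)]⟩⟩,⟨true,0,⟨0,[(52,0)]⟩,⟨0,[]⟩⟩,⟨false,0,⟨3,[(0,1),(1,3),(15,1),(12,0),(18,0)]⟩,⟨7,[(1,5),(5,
  1),(3,0),(12,0),(2,0),(2,0),(2,7),(2,5),(4,0),(4,0)]⟩⟩,[.e ⟨false,1,⟨9,[(7,1),(12,3),(8,1),(0,4),
  (6,3),(11,0),(2,3)]⟩,⟨1,[(0,0),(2,0),(6,0),(3,0),(31,0)]⟩⟩ ⟨false,0,⟨0,[(2,0)]⟩,⟨11,[(10,3),(0,1),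
  (8,3),(8,3),(0,0),(0,0),(1,11),(9,3)]⟩⟩,.o ⟨false,1,⟨7,[(13,3),(16,0),(0,0),(11,1),(6,3)]⟩,⟨0,
  [(36,0)]⟩⟩,.o ⟨false,1,⟨1,[(33,1),(9,0),(5,0)]⟩,⟨15,[(2,2),(1,3),(2,4),(15,2),(8,12),(10,3),(2,
  3)]⟩⟩,.a ⟨true,0,⟨0,[(33,0)]⟩,⟨0,[(32,0)]⟩⟩ ⟨false,1,⟨17,[(1,3),(3,1),(1,5),(22,6),(13,5),(4,3),
  (0,0)]⟩,⟨3,[(0,1),(17,1),(12,0),(18,0)]⟩⟩ ⟨true,0,⟨0,[(2,0)]⟩,⟨0,[(33,0),(2,0)]⟩⟩]⟩)) (.R ⟨1,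
  false,false,false,[1,0,0,-1],[1,0,-1],[0,1,0,-1,0,0,0,0,-1],(⟨0,[(31,0)]⟩,⟨0,[(32,0)]⟩),(⟨0,[(40,
  0)]⟩,⟨0,[(41,0)]⟩),⟨5,[(1,2),(3,0),(3,0),(0,0),(10,1),(1,0),(7,2)]⟩,.k,.k,(.x (-1) ⟨15,[(15,3),(5,
  3),(7,6),(0,6),(11,1)]⟩ ⟨0,[(44,0)]⟩),.k,(.r (-1) ⟨1,[(10,0),(18,0)]⟩ ⟨6,[(0,0),(2,1),(7,0),(13,
  0),(2,0),(1,2),(8,3)]⟩),.k,⟨false,1,⟨1,[(10,0),(18,0),(21,1)]⟩,⟨31,[(0,4),(1,26),(5,3),(0,10),(3,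
  2),(3,0),(7,35),(16,1)]⟩⟩,⟨true,0,⟨0,[(31,0),(2,0)]⟩,⟨0,[(25,0),(6,0),(2,0)]⟩⟩,⟨false,0,⟨0,[(47,
  0)]⟩,⟨23,[(8,3),(0,7),(19,4),(0,4),(11,1),(6,11)]⟩⟩,⟨false,0,⟨2,[(0,0),(0,2),(28,0),(14,1)]⟩,⟨1,
  [(10,0),(11,1),(2,1),(3,0),(2,1)]⟩⟩,⟨true,0,⟨0,[(51,0)]⟩,⟨0,[]⟩⟩,⟨false,0,⟨11,[(1,11),(0,7),(0,1),
  (13,2),(7,2),(4,1),(14,2)]⟩,⟨1,[(10,0),(14,1),(3,0),(2,1),(2,1)]⟩⟩,[.e ⟨false,1,⟨9,[(6,1),(12,3),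
  (8,1),(0,4),(6,3),(11,0),(2,3)]⟩,⟨1,[(0,0),(1,0),(6,0),(3,0),(11,0),(19,0)]⟩⟩ ⟨false,0,⟨0,[(1,
  0)]⟩,⟨11,[(9,3),(0,1),(8,3),(8,3),(0,0),(0,0),(1,11),(9,3)]⟩⟩,.o ⟨false,1,⟨7,[(12,3),(16,0),(0,0),
  (11,1),(6,3)]⟩,⟨0,[(35,0)]⟩⟩,.o ⟨false,1,⟨1,[(32,1),(9,0),(5,0)]⟩,⟨15,[(1,2),(1,3),(2,4),(15,2),
  (8,12),(10,3),(2,3)]⟩⟩,.a ⟨true,0,⟨0,[(32,0)]⟩,⟨0,[(31,0)]⟩⟩ ⟨false,1,⟨21,[(4,1),(1,5),(12,3),(5,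
  3),(3,10),(13,5),(4,3),(0,0)]⟩,⟨11,[(2,7),(0,1),(13,2),(7,2),(4,1),(14,2)]⟩⟩ ⟨true,0,⟨0,[(1,0)]⟩,
  ⟨0,[(32,0),(2,0)]⟩⟩]⟩)) (.Q [0,0,0,0,0,-1,0,0,0,1,0,-1] (.ed true [0,1,0,1] .k) (.I [1,-1,0,0,0,0,
  0,0,1] (.R ⟨1,false,false,false,[1,0,0,-1],[1,0,-1],[0,0,0,-1,0,0,0,0,-1],(⟨0,[(32,0)]⟩,⟨0,[(33,
  0)]⟩),(⟨0,[(41,0)]⟩,⟨0,[(42,0)]⟩),⟨0,[(1,0)]⟩,.k,.k,(.x (-1) ⟨15,[(16,3),(5,3),(7,6),(0,6),(11,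
  1)]⟩ ⟨0,[(45,0)]⟩),.k,(.r (-1) ⟨1,[(11,0),(18,0)]⟩ ⟨2,[(3,0),(0,0),(26,0),(8,2)]⟩),.k,⟨false,1,⟨1,
  [(11,0),(18,0)]⟩,⟨1,[(3,1),(5,0),(19,0)]⟩⟩,⟨true,0,⟨0,[(32,0),(2,0)]⟩,⟨0,[(2,0),(37,0)]⟩⟩,⟨true,0,
  ⟨0,[(48,0)]⟩,⟨0,[(47,0)]⟩⟩,⟨false,0,⟨7,[(0,5),(3,1),(2,1),(5,3),(17,0),(0,7),(10,0),(2,1)]⟩,⟨1,
  [(2,1),(27,0),(18,0)]⟩⟩,⟨false,1,⟨3,[(30,0),(0,0),(18,1)]⟩,⟨0,[]⟩⟩,⟨false,0,⟨15,[(0,13),(3,4),(7,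
  0),(0,6),(17,0),(0,15),(10,3),(2,0)]⟩,⟨5,[(2,3),(4,0),(12,2),(5,0),(2,0),(0,2),(2,1)]⟩⟩,[.a ⟨true,
  0,⟨1,[(13,0),(18,0),(0,0)]⟩,⟨0,[(2,0),(29,0)]⟩⟩ ⟨false,1,⟨21,[(5,1),(1,5),(12,3),(5,3),(3,10),(13,
  5),(4,3),(0,0)]⟩,⟨4,[(0,0),(2,3),(5,0),(0,0),(12,0)]⟩⟩ ⟨true,0,⟨1,[(13,0),(18,1),(2,0),(2,0)]⟩,⟨0,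
  [(2,0)]⟩⟩,.o ⟨false,1,⟨7,[(13,3),(16,0),(0,0),(11,1),(6,3)]⟩,⟨0,[(36,0)]⟩⟩,.o ⟨false,1,⟨1,[(33,1),
  (9,0),(5,0)]⟩,⟨24,[(4,5),(2,11),(1,0),(8,6),(4,1),(2,6),(5,24),(10,5)]⟩⟩,.e ⟨false,1,⟨1,[(11,0),
  (14,1),(3,0)]⟩,⟨2,[(3,0),(0,0),(26,0)]⟩⟩ ⟨false,1,⟨7,[(13,3),(16,0),(0,0),(0,7),(10,1),(6,3)]⟩,⟨0,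
  [(2,0)]⟩⟩]⟩) (.R ⟨1,false,false,false,[1,0,0,-1],[1,-1],[1,0,0,0,0,0,0,0,-1],(⟨0,[(32,0)]⟩,⟨0,
  [(33,0)]⟩),(⟨0,[(44,0)]⟩,⟨0,[(45,0)]⟩),⟨0,[(1,0)]⟩,.k,.k,(.x (-1) ⟨15,[(16,3),(5,3),(7,6),(0,6),
  (11,1)]⟩ ⟨0,[(45,0)]⟩),(.r 0 ⟨7,[(0,3),(3,1),(13,0),(7,0),(3,1),(15,0)]⟩ ⟨21,[(5,1),(1,5),(12,3),
  (5,3),(4,10),(12,5),(4,3),(0,0)]⟩),.k,.k,⟨true,0,⟨7,[(0,3),(3,1),(13,0),(7,0),(3,1),(15,0)]⟩,⟨0,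
  [(3,0),(44,0)]⟩⟩,⟨false,0,⟨24,[(4,5),(2,11),(1,0),(8,6),(4,1),(2,6),(5,24),(10,5)]⟩,⟨0,[(33,0),
  (15,0)]⟩⟩,⟨true,0,⟨0,[]⟩,⟨0,[(52,0)]⟩⟩,⟨false,0,⟨0,[(3,0),(3,0),(10,0),(7,0),(5,0)]⟩,⟨3,[(2,0),(6,
  0),(0,0),(19,1),(2,2),(15,1)]⟩⟩,⟨false,1,⟨23,[(9,3),(0,7),(19,4),(0,4),(11,1),(6,11)]⟩,⟨0,[(48,
  0)]⟩⟩,⟨false,0,⟨2,[(1,2),(1,2),(0,0),(0,0),(1,2),(10,2),(7,2)]⟩,⟨1,[(30,0),(2,1),(15,0)]⟩⟩,[.a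
  ⟨true,0,⟨0,[(48,0)]⟩,⟨3,[(8,0),(1,0),(21,1),(0,1),(3,0)]⟩⟩ ⟨false,1,⟨1,[(30,0),(18,0)]⟩,⟨0,[(3,
  0)]⟩⟩ ⟨true,0,⟨14,[(4,2),(2,7),(24,14),(2,0),(2,0),(4,2),(2,3)]⟩,⟨3,[(2,0),(6,0),(0,0),(22,2)]⟩⟩,
  .o ⟨false,1,⟨2,[(7,0),(35,0),(6,1)]⟩,⟨0,[(47,0)]⟩⟩,.o ⟨false,1,⟨1,[(33,1),(9,0),(5,0)]⟩,⟨24,[(4,
  5),(2,11),(1,0),(8,6),(4,1),(2,6),(5,24),(10,5)]⟩⟩,.e ⟨false,1,⟨4,[(0,0),(4,0),(8,1),(7,1),(1,0),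
  (5,1),(15,2)]⟩,⟨10,[(3,6),(0,1),(2,1),(21,1),(1,1),(7,3),(6,0)]⟩⟩ ⟨false,1,⟨2,[(7,0),(24,2),(10,
  0),(6,1)]⟩,⟨3,[(2,0),(6,0),(0,0),(22,2)]⟩⟩]⟩)) (.I [1,0,-1,0,1,0,0,1,-1] (.R ⟨0,false,false,false,
  [1,0,0,-1],[1,0,-1],[1,0,0,0,0,0,0,0,-1],(⟨0,[(32,0)]⟩,⟨0,[(33,0)]⟩),(⟨0,[(41,0)]⟩,⟨0,[(42,0)]⟩),
  ⟨0,[(1,0)]⟩,.k,.k,(.x (-1) ⟨15,[(16,3),(5,3),(7,6),(0,6),(11,1)]⟩ ⟨0,[(45,0)]⟩),.k,.k,.k,⟨false,1,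
  ⟨0,[(0,0)]⟩,⟨0,[(3,0),(36,0)]⟩⟩,⟨true,0,⟨0,[(32,0),(2,0)]⟩,⟨0,[(2,0),(37,0)]⟩⟩,⟨true,0,⟨0,[]⟩,⟨0,
  [(52,0)]⟩⟩,⟨false,0,⟨7,[(3,7),(0,0),(2,1),(4,2),(0,0),(18,7),(10,0),(2,4)]⟩,⟨1,[(2,1),(27,0),(18,
  0)]⟩⟩,⟨false,0,⟨0,[]⟩,⟨0,[]⟩⟩,⟨false,0,⟨0,[]⟩,⟨0,[]⟩⟩,[.a ⟨true,0,⟨1,[(13,0),(18,0),(0,0)]⟩,⟨0,
  [(2,0),(29,0)]⟩⟩ ⟨false,1,⟨1,[(30,0),(18,0)]⟩,⟨0,[(3,0)]⟩⟩ ⟨true,0,⟨1,[(13,0),(18,1),(2,0),(2,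
  0)]⟩,⟨0,[(2,0)]⟩⟩,.o ⟨false,1,⟨7,[(13,3),(16,0),(0,0),(11,1),(6,3)]⟩,⟨0,[(36,0)]⟩⟩,.o ⟨false,1,⟨1,
  [(33,1),(9,0),(5,0)]⟩,⟨24,[(4,5),(2,11),(1,0),(8,6),(4,1),(2,6),(5,24),(10,5)]⟩⟩,.e ⟨false,1,⟨0,
  [(0,0),(25,0)]⟩,⟨10,[(3,6),(0,1),(2,1),(21,1),(1,1),(7,3),(6,0)]⟩⟩ ⟨false,1,⟨7,[(13,3),(16,0),(0,
  0),(0,7),(10,1),(6,3)]⟩,⟨0,[(2,0)]⟩⟩]⟩) (.R ⟨0,false,false,false,[1,0,0,-1],[1,0,-1],[1,0,1,0,0,0,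
  0,-1],(⟨0,[(32,0)]⟩,⟨0,[(33,0)]⟩),(⟨0,[(41,0)]⟩,⟨0,[(42,0)]⟩),⟨0,[(1,0)]⟩,.k,.k,(.x (-1) ⟨15,[(16,
  3),(5,3),(7,6),(0,6),(11,1)]⟩ ⟨0,[(45,0)]⟩),.k,.k,.k,⟨false,0,⟨0,[]⟩,⟨3,[(30,0),(0,0),(17,1)]⟩⟩,
  ⟨true,0,⟨0,[(32,0),(2,0)]⟩,⟨0,[(2,0),(37,0)]⟩⟩,⟨true,(-1),⟨0,[(0,0)]⟩,⟨1,[(11,0),(18,0),(16,1)]⟩⟩,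
  ⟨false,0,⟨13,[(0,7),(11,1),(0,0),(3,1),(7,2),(5,2),(0,13),(10,2),(2,6)]⟩,⟨1,[(2,1),(27,0),(18,
  0)]⟩⟩,⟨false,0,⟨0,[]⟩,⟨0,[]⟩⟩,⟨false,0,⟨0,[]⟩,⟨0,[]⟩⟩,[.a ⟨true,0,⟨1,[(13,0),(18,0),(0,0)]⟩,⟨0,
  [(2,0),(29,0)]⟩⟩ ⟨false,0,⟨0,[(40,0)]⟩,⟨31,[(10,7),(0,10),(2,5),(3,1),(9,1),(1,6),(0,6),(11,0)]⟩⟩
  ⟨true,0,⟨1,[(13,0),(18,1),(2,0),(2,0)]⟩,⟨0,[(2,0)]⟩⟩,.o ⟨false,1,⟨7,[(13,3),(16,0),(0,0),(11,1),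
  (6,3)]⟩,⟨0,[(36,0)]⟩⟩,.o ⟨false,1,⟨1,[(33,1),(9,0),(5,0)]⟩,⟨24,[(4,5),(2,11),(1,0),(8,6),(4,1),(2,
  6),(5,24),(10,5)]⟩⟩,.e ⟨false,0,⟨0,[(26,0)]⟩,⟨11,[(4,3),(6,5),(18,4),(0,4)]⟩⟩ ⟨false,1,⟨7,[(13,3),
  (16,0),(0,0),(0,7),(10,1),(6,3)]⟩,⟨0,[(2,0)]⟩⟩]⟩)))) (.Q [0,0,1,0,0,0,-1,-1,1,0,1,-1] (.p true [0,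
  0,1] [0,0,0,1] (⟨0,[(39,0)]⟩,⟨0,[(38,0)]⟩) .k 2 (⟨0,[(30,0)]⟩,⟨0,[(29,0)]⟩) .k (.x (-1) ⟨39,[(13,
  7),(7,15),(4,3),(0,12),(0,12),(11,1),(5,11)]⟩ ⟨0,[(32,0),(5,0)]⟩)) (.Q [0,1,-1,0,0,0,0,0,-1,0,0,
  1] (.p true [0,0,0,1] [] (⟨0,[(31,0)]⟩,⟨0,[(30,0)]⟩) .k 0 (⟨0,[]⟩,⟨0,[]⟩) .k .k) (.K ⟨0,[0,0,0,1],
  0,0,(⟨0,[(32,0)]⟩,⟨0,[(31,0)]⟩),.k,(.r (-1) ⟨21,[(4,1),(1,5),(12,3),(5,3),(4,10),(12,5),(4,3),(0,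
  0)]⟩ ⟨2,[(2,0),(0,0),(25,0)]⟩),(.x 0 ⟨0,[(44,0)]⟩ ⟨15,[(15,3),(5,3),(7,6),(0,6),(11,1)]⟩),.k,.k,
  [⟨0,[(32,0)]⟩,⟨0,[(31,0)]⟩,⟨0,[(0,0)]⟩,⟨0,[(1,0),(33,0)]⟩]⟩) (.Q [0,0,0,0,0,-1,0,0,0,1,0,-1] (.ed
  true [0,1,0,1] .k) (.R ⟨1,false,false,true,[1,0,0,-1],[0,1],[1,1,0,0,0,0,0,0,-1],(⟨0,[(32,0)]⟩,⟨0,
  [(33,0)]⟩),(⟨0,[(45,0)]⟩,⟨0,[(44,0)]⟩),⟨0,[(0,0)]⟩,.k,.k,(.x (-1) ⟨15,[(16,3),(5,3),(7,6),(0,6),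
  (11,1)]⟩ ⟨0,[(45,0)]⟩),(.x (-1) ⟨15,[(16,3),(5,3),(7,6),(0,6),(11,1)]⟩ ⟨0,[(45,0)]⟩),(.r (-1) ⟨13,
  [(3,7),(1,3),(1,5),(3,2),(5,3),(4,3),(1,1),(1,5),(3,2),(13,5)]⟩ ⟨11,[(4,7),(25,0),(0,6)]⟩),.k,
  ⟨false,1,⟨41,[(3,21),(1,10),(1,5),(3,2),(5,17),(4,17),(1,8),(1,5),(3,9),(13,5)]⟩,⟨8,[(1,4),(0,3),
  (6,0),(0,0),(12,4),(9,8)]⟩⟩,⟨true,0,⟨0,[(32,0)]⟩,⟨24,[(4,5),(2,11),(1,0),(8,6),(4,1),(2,6),(6,24),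
  (9,5)]⟩⟩,⟨false,0,⟨0,[]⟩,⟨3,[(30,0),(0,0),(18,1)]⟩⟩,⟨false,0,⟨3,[(1,0),(0,2),(7,1),(21,1),(0,1),
  (2,0)]⟩,⟨1,[(3,1),(7,0),(14,1),(6,1),(9,0)]⟩⟩,⟨true,0,⟨0,[(47,0)]⟩,⟨0,[(48,0)]⟩⟩,⟨false,0,⟨0,[(2,
  0),(7,0)]⟩,⟨51,[(3,45),(3,19),(9,43),(11,21),(0,2),(2,51),(9,4),(2,35)]⟩⟩,[.o ⟨false,0,⟨0,[(47,
  0)]⟩,⟨2,[(7,0),(35,0),(6,1)]⟩⟩,.a ⟨true,0,⟨3,[(8,0),(1,0),(21,1),(0,1),(3,0)]⟩,⟨0,[(48,0)]⟩⟩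
  ⟨true,0,⟨0,[(3,0)]⟩,⟨1,[(1,0),(0,0),(30,1),(2,0)]⟩⟩ ⟨false,0,⟨2,[(0,2),(3,0),(0,0)]⟩,⟨5,[(7,1),
  (25,5),(9,1),(5,2),(0,0)]⟩⟩,.o ⟨false,1,⟨1,[(33,1),(9,0),(5,0)]⟩,⟨3,[(1,0),(1,0),(0,0),(2,0),(24,
  2),(10,0)]⟩⟩,.e ⟨false,1,⟨1,[(30,0),(18,0)]⟩,⟨0,[(1,0),(31,0)]⟩⟩ ⟨false,0,⟨2,[(0,2),(3,0),(0,0)]⟩,
  ⟨2,[(7,0),(25,2),(9,0),(6,1)]⟩⟩]⟩) (.I [1,0,0,-1,0,0,0,0,1] (.R ⟨1,false,false,false,[0,0,0,1],[0,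
  0,1],[1,1,0,0,0,0,0,0,1],(⟨0,[(34,0)]⟩,⟨0,[(33,0)]⟩),(⟨0,[(43,0)]⟩,⟨0,[(42,0)]⟩),⟨2,[(1,0),(15,0),
  (5,0),(10,1)]⟩,.k,.k,(.r (-1) ⟨21,[(6,1),(1,5),(12,3),(5,3),(4,10),(12,5),(4,3),(0,0)]⟩ ⟨2,[(4,0),
  (0,0),(25,0)]⟩),.k,(.r (-1) ⟨17,[(6,1),(1,5),(18,3),(4,8),(8,13),(3,5),(4,5),(0,0)]⟩ ⟨5,[(4,3),(0,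
  3),(6,2),(18,0)]⟩),.k,⟨true,0,⟨5,[(0,5),(9,0),(5,1),(13,2),(7,1),(9,1)]⟩,⟨3,[(4,3),(2,0),(4,0),(9,
  1),(23,2),(0,0)]⟩⟩,⟨false,1,⟨11,[(1,5),(21,3),(1,1),(4,3),(3,5),(9,0),(5,10)]⟩,⟨0,[(33,0),(2,
  0)]⟩⟩,⟨false,0,⟨0,[]⟩,⟨3,[(31,0),(0,0),(18,1)]⟩⟩,⟨false,1,⟨5,[(1,5),(2,3),(6,1),(0,1),(10,3),(1,
  1),(5,0),(19,2)]⟩,⟨0,[(3,0)]⟩⟩,⟨true,0,⟨0,[(48,0)]⟩,⟨0,[(49,0)]⟩⟩,⟨false,1,⟨17,[(1,17),(2,11),(6,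
  7),(3,1),(3,3),(1,5),(1,11),(1,5),(5,2),(19,6)]⟩,⟨3,[(0,0),(2,2),(4,0),(24,0),(4,0),(8,0)]⟩⟩,[.a
  ⟨true,0,⟨5,[(5,1),(1,0),(4,2),(12,2),(16,5)]⟩,⟨1,[(14,0),(18,0),(0,0)]⟩⟩ ⟨true,0,⟨0,[(0,0),(47,
  0)]⟩,⟨10,[(4,8),(0,0),(2,0),(21,0),(0,0),(8,1),(6,5)]⟩⟩ ⟨false,1,⟨8,[(1,5),(9,2),(9,5),(1,3),(1,
  1),(4,0),(3,2),(9,0),(5,1)]⟩,⟨0,[(3,0),(0,0)]⟩⟩,.o ⟨false,1,⟨5,[(11,1),(0,1),(26,3),(4,0),(6,2)]⟩,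
  ⟨0,[(35,0)]⟩⟩,.o ⟨false,0,⟨3,[(2,0),(1,0),(0,0),(2,0),(24,2),(10,0)]⟩,⟨1,[(34,1),(9,0),(5,0)]⟩⟩,
  .o ⟨false,0,⟨7,[(2,3),(2,3),(2,3),(22,2),(0,0),(0,3)]⟩,⟨13,[(1,13),(13,3),(1,1),(5,5),(1,1),(18,
  0),(5,8)]⟩⟩]⟩) (.R ⟨0,false,false,true,[1,0,0,-1],[0,0,1],[0,1,0,0,0,0,0,0,-1],(⟨0,[(33,0)]⟩,⟨0,
  [(34,0)]⟩),(⟨0,[(43,0)]⟩,⟨0,[(42,0)]⟩),⟨0,[(1,0)]⟩,.k,.k,(.x (-1) ⟨15,[(17,3),(5,3),(7,6),(0,6),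
  (11,1)]⟩ ⟨0,[(46,0)]⟩),.k,.k,.k,⟨true,0,⟨0,[(4,0),(36,0)]⟩,⟨1,[(1,1),(0,1),(4,0),(4,0),(12,0),(3,
  1),(12,1)]⟩⟩,⟨false,0,⟨0,[(27,0),(5,0),(3,0)]⟩,⟨19,[(15,11),(10,3),(4,2),(0,2),(1,19),(9,1)]⟩⟩,
  ⟨true,0,⟨0,[(53,0)]⟩,⟨0,[]⟩⟩,⟨false,0,⟨0,[(2,0),(30,0),(0,0),(2,0)]⟩,⟨26,[(0,8),(0,7),(11,5),(3,
  1),(0,14),(4,1),(3,14),(3,8),(2,18),(12,2),(3,2)]⟩⟩,⟨false,0,⟨0,[]⟩,⟨0,[]⟩⟩,⟨false,0,⟨0,[]⟩,⟨0,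
  []⟩⟩,[.o ⟨false,0,⟨0,[(37,0)]⟩,⟨7,[(14,3),(16,0),(0,0),(11,1),(6,3)]⟩⟩,.e ⟨true,0,⟨0,[(0,0),(48,
  0)]⟩,⟨1,[(2,0),(0,0),(30,1),(2,0)]⟩⟩ ⟨true,0,⟨9,[(8,1),(13,5),(7,1),(2,9),(3,3),(1,2),(0,0)]⟩,⟨5,
  [(1,3),(12,2),(2,0),(5,0),(10,1)]⟩⟩,.o ⟨false,1,⟨1,[(34,1),(9,0),(5,0)]⟩,⟨3,[(2,0),(1,0),(0,0),(2,
  0),(24,2),(10,0)]⟩⟩,.a ⟨true,0,⟨0,[(34,0)]⟩,⟨0,[(33,0)]⟩⟩ ⟨false,1,⟨1,[(31,0),(18,0)]⟩,⟨0,[(2,0),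
  (31,0)]⟩⟩ ⟨true,0,⟨0,[(33,0),(3,0)]⟩,⟨5,[(1,3),(12,2),(2,0),(5,0),(10,1)]⟩⟩]⟩)))) (.Q [0,0,0,0,0,
  0,1,1,0,0,-1,1] (.p false [0,0,1] [0,0,0,1] (⟨0,[(40,0)]⟩,⟨0,[(39,0)]⟩) .k 2 (⟨0,[(31,0)]⟩,⟨0,
  [(30,0)]⟩) .k (.r 0 ⟨9,[(0,6),(0,2),(3,2),(7,0),(2,3),(6,2),(6,6)]⟩ ⟨3,[(28,0),(0,2),(8,3)]⟩))
  (.Q [0,0,0,0,0,-1,0,0,0,1,0,-1] (.ed true [0,1,0,1] .k) (.I [1,1,-1,0,0,0,0,1,-1] (.R ⟨1,false,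
  false,false,[1,0,0,-1],[1,0,-1],[1,1,0,0,0,0,0,0,-1],(⟨0,[(33,0)]⟩,⟨0,[(34,0)]⟩),(⟨0,[(42,0)]⟩,⟨0,
  [(43,0)]⟩),⟨0,[(1,0)]⟩,.k,.k,(.x (-1) ⟨15,[(17,3),(5,3),(7,6),(0,6),(11,1)]⟩ ⟨0,[(46,0)]⟩),.k,(.x
  0 ⟨7,[(7,0),(9,2),(5,0),(1,2),(4,0),(13,0)]⟩ ⟨2,[(6,0),(24,0),(0,0),(3,2),(5,2)]⟩),.k,⟨false,0,⟨0,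
  [(0,0)]⟩,⟨1,[(32,0),(8,1),(9,0)]⟩⟩,⟨true,0,⟨0,[(33,0),(2,0)]⟩,⟨0,[(2,0),(38,0)]⟩⟩,⟨false,0,⟨0,[]⟩,
  ⟨3,[(31,0),(0,0),(18,1)]⟩⟩,⟨false,1,⟨1,[(14,0),(17,0),(0,1),(2,0),(2,0),(11,0)]⟩,⟨0,[(3,0)]⟩⟩,
  ⟨true,0,⟨0,[(48,0)]⟩,⟨0,[(49,0)]⟩⟩,⟨false,1,⟨23,[(5,7),(8,11),(16,0),(0,12),(0,23),(10,5),(6,
  11)]⟩,⟨0,[(3,0),(45,0)]⟩⟩,[.a ⟨true,0,⟨1,[(14,0),(18,0),(0,0)]⟩,⟨0,[(2,0),(30,0)]⟩⟩ ⟨false,0,⟨0,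
  [(0,0),(40,0)]⟩,⟨1,[(32,0),(18,0)]⟩⟩ ⟨true,0,⟨1,[(14,0),(18,1),(2,0),(2,0)]⟩,⟨0,[(2,0)]⟩⟩,.o
  ⟨false,1,⟨7,[(14,3),(16,0),(0,0),(11,1),(6,3)]⟩,⟨0,[(37,0)]⟩⟩,.o ⟨false,1,⟨1,[(34,1),(9,0),(5,
  0)]⟩,⟨24,[(5,5),(2,11),(1,0),(8,6),(4,1),(2,6),(5,24),(10,5)]⟩⟩,.e ⟨false,0,⟨0,[(0,0),(26,0)]⟩,⟨1,
  [(32,0),(6,0),(0,0),(10,0)]⟩⟩ ⟨false,1,⟨7,[(14,3),(16,0),(0,0),(0,7),(10,1),(6,3)]⟩,⟨0,[(2,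
  0)]⟩⟩]⟩) (.I [0,0,1,0,0,0,0,0,1] (.Q [0,0,1,2,0,0,0,0,1,1,0,-1] (.p false [0,0,0,1] [1] (⟨0,[(35,
  0)]⟩,⟨0,[(34,0)]⟩) .k 1 (⟨0,[]⟩,⟨0,[]⟩) .k .k) (.R ⟨1,false,false,true,[1,0,0,-1],[0,1],[1,0,0,0,
  0,0,0,0,-1],(⟨0,[(35,0)]⟩,⟨0,[(36,0)]⟩),(⟨0,[(48,0)]⟩,⟨0,[(47,0)]⟩),⟨0,[(3,0)]⟩,.k,.k,(.x (-1)
  ⟨15,[(19,3),(5,3),(7,6),(0,6),(11,1)]⟩ ⟨0,[(48,0)]⟩),(.x (-1) ⟨15,[(19,3),(5,3),(7,6),(0,6),(11,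
  1)]⟩ ⟨0,[(48,0)]⟩),(.r (-1) ⟨71,[(3,25),(1,25),(2,19),(1,35),(3,6),(1,1),(3,21),(8,35),(3,22),(13,
  33)]⟩ ⟨11,[(7,7),(25,0),(0,6)]⟩),.k,⟨false,1,⟨8,[(3,2),(1,2),(0,1),(1,0),(5,2),(5,2),(8,8),(3,
  1)]⟩,⟨0,[(1,0),(48,0)]⟩⟩,⟨true,0,⟨0,[(35,0)]⟩,⟨24,[(4,5),(2,6),(2,7),(4,2),(20,18),(9,6),(2,3)]⟩⟩,
  ⟨true,0,⟨0,[]⟩,⟨0,[(55,0)]⟩⟩,⟨false,0,⟨1,[(0,0),(0,0),(33,0)]⟩,⟨6,[(5,4),(4,1),(5,1),(3,0),(8,0),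
  (3,0),(2,1),(9,0),(6,3)]⟩⟩,⟨false,1,⟨23,[(12,3),(0,7),(19,4),(0,4),(11,1),(6,11)]⟩,⟨0,[(51,0)]⟩⟩,
  ⟨false,0,⟨0,[(0,0)]⟩,⟨19,[(5,13),(4,11),(3,0),(1,5),(3,1),(8,3),(3,2),(2,5),(16,13)]⟩⟩,[.o ⟨false,
  0,⟨0,[(50,0)]⟩,⟨2,[(10,0),(35,0),(6,1)]⟩⟩,.a ⟨true,0,⟨3,[(11,0),(1,0),(21,1),(0,1),(3,0)]⟩,⟨0,
  [(51,0)]⟩⟩ ⟨true,0,⟨5,[(5,3),(0,1),(3,1),(1,1),(8,0),(7,0),(5,3),(13,2)]⟩,⟨0,[(1,0),(53,0)]⟩⟩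
  ⟨false,0,⟨2,[(3,2),(3,0),(0,0)]⟩,⟨5,[(10,1),(25,5),(9,1),(5,2),(0,0)]⟩⟩,.o ⟨false,1,⟨1,[(36,1),(9,
  0),(5,0)]⟩,⟨24,[(7,5),(2,11),(1,0),(8,6),(4,1),(2,6),(5,24),(10,5)]⟩⟩,.e ⟨false,1,⟨10,[(3,2),(1,
  2),(2,0),(8,2),(11,2),(3,3),(15,0),(3,2)]⟩,⟨0,[(1,0)]⟩⟩ ⟨false,0,⟨2,[(3,2),(3,0),(0,0)]⟩,⟨2,[(10,
  0),(25,2),(9,0),(6,1)]⟩⟩]⟩) (.R ⟨1,true,false,true,[1,0,0,-1],[0,1],[1,0,0,0,0,0,0,0,-1],(⟨0,[(35,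
  0)]⟩,⟨0,[(36,0)]⟩),(⟨0,[(48,0)]⟩,⟨0,[(47,0)]⟩),⟨0,[(3,0)]⟩,.k,.k,(.x (-1) ⟨15,[(19,3),(5,3),(7,6),
  (0,6),(11,1)]⟩ ⟨0,[(48,0)]⟩),(.x (-1) ⟨15,[(19,3),(5,3),(7,6),(0,6),(11,1)]⟩ ⟨0,[(48,0)]⟩),(.r
  (-1) ⟨24,[(0,12),(2,12),(4,6),(1,7),(22,5),(13,7),(4,7),(0,3)]⟩ ⟨11,[(7,7),(25,0),(0,6)]⟩),.k,
  ⟨false,1,⟨30,[(0,9),(2,20),(1,10),(2,6),(11,10),(8,10),(3,4),(15,1),(3,7)]⟩,⟨0,[(1,0),(48,0)]⟩⟩,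
  ⟨true,0,⟨0,[(35,0)]⟩,⟨24,[(0,2),(1,2),(1,2),(2,6),(2,4),(25,18),(1,2),(7,6),(2,0)]⟩⟩,⟨true,0,⟨0,
  []⟩,⟨0,[(55,0)]⟩⟩,⟨false,0,⟨2,[(1,2),(1,2),(3,0),(0,0)]⟩,⟨25,[(0,13),(4,3),(9,1),(17,3),(2,7),(9,
  4),(5,3),(0,12)]⟩⟩,⟨false,1,⟨23,[(12,3),(0,7),(19,4),(0,4),(11,1),(6,11)]⟩,⟨0,[(51,0)]⟩⟩,⟨true,0,
  ⟨1,[(1,1),(11,0),(4,0),(16,1),(14,0)]⟩,⟨0,[(0,0)]⟩⟩,[]⟩)) (.I [0,1,-1,-2,0,0,0,1,-1] (.R ⟨1,false,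
  false,false,[1,0,0,-1],[1,1,-1],[0,1,0,-1,0,0,0,0,-1],(⟨0,[(35,0)]⟩,⟨0,[(36,0)]⟩),(⟨0,[(44,0),(3,
  0)]⟩,⟨1,[(19,0),(25,0)]⟩),⟨0,[(3,0)]⟩,.k,.k,(.x (-1) ⟨15,[(19,3),(5,3),(7,6),(0,6),(11,1)]⟩ ⟨0,
  [(48,0)]⟩),(.r (-1) ⟨1,[(14,0),(18,0)]⟩ ⟨0,[(2,0),(47,0)]⟩),(.r (-1) ⟨5,[(0,3),(22,3),(5,1),(3,0),
  (19,0)]⟩ ⟨71,[(2,11),(4,39),(7,23),(16,23),(0,4),(0,34),(5,11),(0,11)]⟩),.k,⟨true,0,⟨0,[(0,0)]⟩,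
  ⟨3,[(2,1),(4,1),(4,0),(19,0),(1,0),(18,0)]⟩⟩,⟨false,1,⟨19,[(17,11),(10,3),(4,2),(0,2),(0,19),(10,
  1)]⟩,⟨0,[(4,0),(38,0)]⟩⟩,⟨false,0,⟨0,[(51,0)]⟩,⟨23,[(12,3),(0,7),(19,4),(0,4),(11,1),(6,11)]⟩⟩,
  ⟨false,1,⟨47,[(2,11),(4,9),(7,17),(12,5),(4,4),(0,22),(0,47),(10,11),(6,17)]⟩,⟨1,[(0,0),(1,0),(2,
  1)]⟩⟩,⟨true,0,⟨0,[(55,0)]⟩,⟨0,[]⟩⟩,⟨false,1,⟨23,[(7,7),(4,11),(20,0),(0,12),(0,23),(10,5),(6,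
  11)]⟩,⟨0,[(0,0),(1,0),(2,0)]⟩⟩,[.a ⟨true,0,⟨2,[(11,0),(3,0),(24,0)]⟩,⟨1,[(0,0),(1,0),(1,1),(30,
  1)]⟩⟩ ⟨false,0,⟨12,[(0,5),(0,6),(8,0),(7,1),(13,2),(7,3)]⟩,⟨3,[(11,1),(22,1),(11,0),(6,0)]⟩⟩
  ⟨true,0,⟨23,[(7,7),(8,11),(16,0),(0,0),(0,23),(10,5)]⟩,⟨1,[(0,0),(1,0),(1,1)]⟩⟩,.o ⟨false,1,⟨7,
  [(12,3),(20,0),(0,0),(11,1),(6,3)]⟩,⟨2,[(4,0),(5,0),(24,0),(3,1)]⟩⟩,.o ⟨false,1,⟨1,[(36,1),(9,0),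
  (5,0)]⟩,⟨24,[(7,5),(2,11),(1,0),(8,6),(4,1),(2,6),(5,24),(10,5)]⟩⟩,.e ⟨false,0,⟨1,[(0,0),(0,0),
  (27,0)]⟩,⟨5,[(7,1),(25,0),(0,3),(18,2)]⟩⟩ ⟨false,1,⟨7,[(12,3),(20,0),(0,0),(0,7),(10,1),(6,3)]⟩,
  ⟨1,[(0,0),(1,0),(1,1)]⟩⟩]⟩) (.K ⟨0,[1,1,0,-1],1,0,(⟨0,[(35,0),(12,0)]⟩,⟨3,[(4,1),(11,0),(2,0),(5,
  0),(10,1)]⟩),(.r 0 ⟨2,[(6,0),(0,0),(25,0)]⟩ ⟨21,[(8,1),(1,5),(12,3),(5,3),(4,10),(12,5),(4,3),(0,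
  0)]⟩),.k,(.r 1 ⟨2,[(1,2),(5,1),(1,0),(38,2)]⟩ ⟨35,[(8,7),(1,23),(22,4),(0,22),(12,23),(4,23),(0,
  11)]⟩),.k,.k,[⟨0,[(9,0),(25,0),(12,2)]⟩,⟨1,[(4,1),(3,0),(5,0),(0,1),(9,1),(1,0)]⟩,⟨2,[(2,2),(1,1),
  (5,1),(20,2),(3,4),(3,0)]⟩,⟨0,[(5,0),(12,0)]⟩]⟩)))) (.I [0,1,-1,0,0,0,0,1,-1] (.R ⟨0,false,false,
  false,[1,0,0,-1],[1,0,-1],[0,1,0,0,0,0,0,0,-1],(⟨0,[(33,0)]⟩,⟨0,[(34,0)]⟩),(⟨0,[(42,0)]⟩,⟨0,[(43,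
  0)]⟩),⟨0,[(1,0)]⟩,.k,.k,(.x (-1) ⟨15,[(17,3),(5,3),(7,6),(0,6),(11,1)]⟩ ⟨0,[(46,0)]⟩),.k,.k,.k,
  ⟨false,0,⟨0,[(0,0)]⟩,⟨1,[(32,0),(8,1),(9,0)]⟩⟩,⟨true,0,⟨0,[(33,0),(2,0)]⟩,⟨5,[(1,3),(15,0),(5,0),
  (6,2),(3,1)]⟩⟩,⟨true,0,⟨0,[(53,0)]⟩,⟨0,[]⟩⟩,⟨false,1,⟨1,[(14,0),(17,0),(0,1),(2,0),(2,0),(11,0)]⟩,
  ⟨0,[(3,0)]⟩⟩,⟨false,0,⟨0,[]⟩,⟨0,[]⟩⟩,⟨false,0,⟨0,[]⟩,⟨0,[]⟩⟩,[.a ⟨true,0,⟨1,[(14,0),(18,0),(0,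
  0)]⟩,⟨0,[(2,0),(30,0)]⟩⟩ ⟨false,0,⟨0,[(0,0),(40,0)]⟩,⟨1,[(32,0),(18,0)]⟩⟩ ⟨true,0,⟨1,[(14,0),(18,
  1),(2,0),(2,0)]⟩,⟨0,[(2,0)]⟩⟩,.o ⟨false,1,⟨7,[(14,3),(16,0),(0,0),(11,1),(6,3)]⟩,⟨0,[(37,0)]⟩⟩,.o
  ⟨false,1,⟨1,[(34,1),(9,0),(5,0)]⟩,⟨24,[(5,5),(2,11),(1,0),(8,6),(4,1),(2,6),(5,24),(10,5)]⟩⟩,.e
  ⟨false,0,⟨0,[(0,0),(26,0)]⟩,⟨1,[(32,0),(6,0),(0,0),(10,0)]⟩⟩ ⟨false,1,⟨7,[(14,3),(16,0),(0,0),(0,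
  7),(10,1),(6,3)]⟩,⟨0,[(2,0)]⟩⟩]⟩) (.Q [0,1,1,0,0,0,-1,-1,1,0,1,-1] (.p true [0,0,1] [0,0,0,1] (⟨0,
  [(43,0)]⟩,⟨0,[(42,0)]⟩) .k 2 (⟨0,[(34,0)]⟩,⟨0,[(33,0)]⟩) .k (.r 0 ⟨9,[(3,6),(0,2),(3,2),(7,0),(2,
  3),(6,2),(6,6)]⟩ ⟨3,[(31,0),(0,2),(8,3)]⟩)) (.R ⟨0,false,false,true,[1,0,0,-1],[1,0,-1],[1,1],(⟨0,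
  [(34,0)]⟩,⟨0,[(35,0)]⟩),(⟨0,[(43,0)]⟩,⟨0,[(44,0)]⟩),⟨0,[(2,0)]⟩,.k,.k,(.x (-1) ⟨15,[(18,3),(5,3),
  (7,6),(0,6),(11,1)]⟩ ⟨0,[(47,0)]⟩),.k,.k,.k,⟨false,1,⟨31,[(12,7),(0,10),(2,5),(3,1),(9,1),(1,6),
  (0,6),(11,0)]⟩,⟨0,[(42,0)]⟩⟩,⟨true,0,⟨0,[(34,0),(2,0)]⟩,⟨5,[(2,3),(15,0),(5,0),(6,2),(3,1)]⟩⟩,
  ⟨false,1,⟨3,[(32,0),(0,2)]⟩,⟨5,[(4,3),(0,1),(3,1),(1,1),(8,0),(7,0),(5,3),(13,2)]⟩⟩,⟨true,0,⟨0,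
  [(0,0)]⟩,⟨0,[(4,0)]⟩⟩,⟨false,0,⟨0,[]⟩,⟨0,[]⟩⟩,⟨false,0,⟨0,[]⟩,⟨0,[]⟩⟩,[.o ⟨false,0,⟨0,[(36,0)]⟩,
  ⟨5,[(12,1),(0,1),(26,3),(4,0),(6,2)]⟩⟩,.e ⟨true,0,⟨0,[]⟩,⟨1,[(40,0),(0,0)]⟩⟩ ⟨true,0,⟨9,[(0,1),(5,
  1),(2,1),(5,3),(16,0),(1,7),(10,0),(2,1)]⟩,⟨0,[(3,0)]⟩⟩,.o ⟨false,1,⟨1,[(35,1),(9,0),(5,0)]⟩,⟨24,
  [(6,5),(2,11),(1,0),(8,6),(4,1),(2,6),(5,24),(10,5)]⟩⟩,.a ⟨true,0,⟨0,[(35,0)]⟩,⟨0,[(34,0)]⟩⟩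
  ⟨false,1,⟨3,[(32,0),(0,0),(17,1)]⟩,⟨3,[(40,0),(0,0),(6,1)]⟩⟩ ⟨true,0,⟨7,[(9,1),(4,0),(2,4),(16,7),
  (4,0)]⟩,⟨0,[(3,0)]⟩⟩]⟩) (.Q [0,0,0,-1,0,0,0,0,0,-1,0,1] (.p true [0,0,0,1] [1] (⟨0,[(35,0)]⟩,⟨0,
  [(34,0)]⟩) .k 1 (⟨0,[]⟩,⟨0,[]⟩) .k .k) (.R ⟨0,false,false,true,[1,0,0,-1],[0,1],[1,1],(⟨0,[(35,
  0)]⟩,⟨0,[(36,0)]⟩),(⟨0,[(48,0)]⟩,⟨0,[(47,0)]⟩),⟨0,[(3,0)]⟩,.k,.k,(.x (-1) ⟨15,[(19,3),(5,3),(7,6),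
  (0,6),(11,1)]⟩ ⟨0,[(48,0)]⟩),(.x (-1) ⟨15,[(19,3),(5,3),(7,6),(0,6),(11,1)]⟩ ⟨0,[(48,0)]⟩),.k,.k,
  ⟨false,1,⟨21,[(8,1),(1,5),(12,3),(5,3),(17,5),(4,14),(0,0)]⟩,⟨5,[(7,1),(25,0),(0,0)]⟩⟩,⟨true,0,⟨0,
  [(35,0)]⟩,⟨5,[(0,5),(6,1),(25,0),(0,0)]⟩⟩,⟨false,1,⟨3,[(33,0),(0,2)]⟩,⟨40,[(1,17),(4,22),(0,0),(2,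
  6),(1,8),(22,17),(10,0),(2,14)]⟩⟩,⟨true,0,⟨0,[(2,0),(28,0),(3,0),(3,0)]⟩,⟨1,[(1,0),(3,0),(4,0),(4,
  0)]⟩⟩,⟨false,0,⟨0,[]⟩,⟨0,[]⟩⟩,⟨false,0,⟨0,[]⟩,⟨0,[]⟩⟩,[.o ⟨false,0,⟨0,[(50,0)]⟩,⟨2,[(10,0),(35,0),
  (6,1)]⟩⟩,.e ⟨true,0,⟨0,[]⟩,⟨1,[(41,0),(0,0)]⟩⟩ ⟨true,0,⟨5,[(7,1),(25,0),(0,0),(0,5)]⟩,⟨0,[(0,
  0)]⟩⟩,.o ⟨false,1,⟨1,[(36,1),(9,0),(5,0)]⟩,⟨24,[(7,5),(2,11),(1,0),(8,6),(4,1),(2,6),(5,24),(10,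
  5)]⟩⟩,.a ⟨true,0,⟨0,[(36,0)]⟩,⟨0,[(35,0)]⟩⟩ ⟨false,1,⟨3,[(33,0),(0,0),(17,1)]⟩,⟨3,[(41,0),(0,0),
  (6,1)]⟩⟩ ⟨true,0,⟨0,[(35,0),(14,0)]⟩,⟨0,[(0,0)]⟩⟩]⟩) (.R ⟨0,false,false,true,[1,0,0,-1],[0,1],[1,
  1],(⟨0,[(35,0)]⟩,⟨0,[(36,0)]⟩),(⟨0,[(48,0)]⟩,⟨0,[(47,0)]⟩),⟨0,[(3,0)]⟩,.k,.k,(.x (-1) ⟨15,[(19,3),
  (5,3),(7,6),(0,6),(11,1)]⟩ ⟨0,[(48,0)]⟩),(.x (-1) ⟨15,[(19,3),(5,3),(7,6),(0,6),(11,1)]⟩ ⟨0,[(48,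
  0)]⟩),.k,.k,⟨false,1,⟨21,[(8,1),(1,5),(12,3),(5,3),(17,5),(4,14),(0,0)]⟩,⟨5,[(7,1),(25,0),(0,
  0)]⟩⟩,⟨true,0,⟨0,[(35,0)]⟩,⟨5,[(3,5),(5,1),(23,0),(0,0)]⟩⟩,⟨false,1,⟨3,[(33,0),(0,2)]⟩,⟨4,[(0,1),
  (0,1),(4,2),(3,0),(4,0),(33,1)]⟩⟩,⟨true,0,⟨0,[(2,0),(28,0),(3,0),(3,0)]⟩,⟨1,[(1,0),(3,0),(4,0),(4,
  0)]⟩⟩,⟨false,0,⟨0,[]⟩,⟨0,[]⟩⟩,⟨false,0,⟨0,[]⟩,⟨0,[]⟩⟩,[.o ⟨false,0,⟨0,[(50,0)]⟩,⟨2,[(10,0),(35,0),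
  (6,1)]⟩⟩,.a ⟨true,0,⟨3,[(11,0),(1,0),(21,1),(0,1),(3,0)]⟩,⟨0,[(51,0)]⟩⟩ ⟨true,0,⟨0,[]⟩,⟨1,[(41,0),
  (0,0)]⟩⟩ ⟨false,0,⟨0,[(0,0)]⟩,⟨5,[(10,1),(25,5),(9,1),(5,2),(0,0)]⟩⟩,.o ⟨false,1,⟨1,[(36,1),(9,0),
  (5,0)]⟩,⟨3,[(0,2),(6,0),(2,1),(24,0),(10,0),(2,0)]⟩⟩,.e ⟨false,1,⟨3,[(33,0),(0,0),(17,1)]⟩,⟨3,
  [(41,0),(0,0),(6,1)]⟩⟩ ⟨false,0,⟨0,[(0,0)]⟩,⟨2,[(10,0),(25,2),(9,0),(6,1)]⟩⟩]⟩))))) (.I [1,1,-1,0,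
  0,0,0,1,-1] (.R ⟨1,false,false,false,[1,0,0,-1],[1,0,-1],[1,1,0,0,0,0,0,0,-1],(⟨0,[(32,0)]⟩,⟨0,
  [(33,0)]⟩),(⟨0,[(41,0)]⟩,⟨0,[(42,0)]⟩),⟨5,[(1,2),(4,0),(3,0),(0,0),(10,1),(1,0),(7,2)]⟩,.k,.k,(.x
  (-1) ⟨15,[(16,3),(5,3),(7,6),(0,6),(11,1)]⟩ ⟨0,[(45,0)]⟩),.k,(.x 0 ⟨7,[(6,0),(9,2),(5,0),(1,2),(4,
  0),(13,0)]⟩ ⟨2,[(5,0),(24,0),(0,0),(3,2),(5,2)]⟩),.k,⟨false,0,⟨0,[(0,0)]⟩,⟨1,[(31,0),(8,1),(9,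
  0)]⟩⟩,⟨true,0,⟨0,[(32,0),(2,0)]⟩,⟨0,[(26,0),(6,0),(2,0)]⟩⟩,⟨false,0,⟨0,[]⟩,⟨3,[(30,0),(0,0),(18,
  1)]⟩⟩,⟨false,1,⟨1,[(1,1),(29,0),(6,0),(0,0),(10,0)]⟩,⟨0,[(2,0)]⟩⟩,⟨true,0,⟨0,[(47,0)]⟩,⟨0,[(48,
  0)]⟩⟩,⟨false,1,⟨5,[(1,5),(2,1),(25,0),(0,3),(18,2)]⟩,⟨0,[(2,0),(45,0)]⟩⟩,[.e ⟨false,0,⟨0,[(0,0),
  (39,0)]⟩,⟨1,[(31,0),(18,0)]⟩⟩ ⟨false,0,⟨0,[(1,0)]⟩,⟨3,[(2,3),(27,0),(0,2)]⟩⟩,.o ⟨false,1,⟨7,[(13,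
  3),(16,0),(0,0),(11,1),(6,3)]⟩,⟨0,[(36,0)]⟩⟩,.o ⟨false,1,⟨1,[(33,1),(9,0),(5,0)]⟩,⟨15,[(1,2),(2,
  3),(2,4),(15,2),(8,12),(10,3),(2,3)]⟩⟩,.a ⟨true,0,⟨0,[(33,0)]⟩,⟨0,[(32,0)]⟩⟩ ⟨false,0,⟨0,[(1,0),
  (0,0)]⟩,⟨1,[(31,0),(6,0),(0,0),(10,0)]⟩⟩ ⟨true,0,⟨0,[(1,0)]⟩,⟨0,[(33,0),(2,0)]⟩⟩]⟩) (.Q [0,1,1,0,
  0,0,0,0,1,0,0,-1] (.p false [0,0,0,1] [] (⟨0,[(33,0)]⟩,⟨0,[(32,0)]⟩) .k 0 (⟨0,[]⟩,⟨0,[]⟩) .k .k)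
  (.K ⟨0,[0,0,0,1],0,0,(⟨0,[(34,0)]⟩,⟨0,[(33,0)]⟩),.k,(.r (-1) ⟨21,[(1,3),(4,1),(1,5),(12,3),(10,8),
  (12,5),(4,5),(0,0)]⟩ ⟨2,[(4,0),(0,0),(25,0)]⟩),(.x 0 ⟨0,[(46,0)]⟩ ⟨15,[(17,3),(5,3),(7,6),(0,6),
  (11,1)]⟩),.k,.k,[⟨0,[(34,0)]⟩,⟨0,[(33,0)]⟩,⟨0,[(3,0),(34,0)]⟩,⟨0,[(0,0)]⟩]⟩) (.Q [0,1,1,-1,0,0,0,
  0,1,0,0,-1] (.p false [0,0,0,1] [] (⟨0,[(34,0)]⟩,⟨0,[(33,0)]⟩) .k 0 (⟨0,[]⟩,⟨0,[]⟩) .k .k) (.R ⟨2,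
  false,false,true,[0,1],[0,0,0,1],[1],(⟨0,[]⟩,⟨0,[]⟩),(⟨0,[(35,0)]⟩,⟨0,[(34,0)]⟩),⟨0,[]⟩,.k,.k,.k,
  (.r 0 ⟨2,[(5,0),(0,0),(25,0)]⟩ ⟨21,[(2,3),(4,1),(1,5),(12,3),(10,8),(12,5),(4,5),(0,0)]⟩),.k,.k,
  ⟨true,0,⟨1,[(3,0),(0,0),(0,0),(42,0)]⟩,⟨2,[(0,1),(1,0),(22,0),(4,0),(4,1)]⟩⟩,⟨false,0,⟨15,[(3,2),
  (2,3),(2,4),(15,2),(8,12),(10,3),(2,3)]⟩,⟨0,[(35,0),(15,0)]⟩⟩,⟨false,1,⟨10,[(7,0),(1,2),(12,1),(5,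
  1),(17,2),(4,1),(0,5)]⟩,⟨5,[(6,1),(25,0),(0,0)]⟩⟩,⟨true,0,⟨0,[(0,0)]⟩,⟨3,[(1,0),(2,2),(16,1),(17,
  0)]⟩⟩,⟨false,1,⟨1,[(51,0),(0,0)]⟩,⟨1,[(40,0),(0,0)]⟩⟩,⟨false,1,⟨23,[(0,11),(5,3),(25,4),(0,10),(0,
  11),(10,5),(6,5)]⟩,⟨0,[(1,0)]⟩⟩,[.e ⟨true,0,⟨0,[]⟩,⟨1,[(40,0),(0,0)]⟩⟩ ⟨true,0,⟨5,[(0,5),(5,1),
  (25,0),(0,0)]⟩,⟨0,[(1,0)]⟩⟩,.a ⟨true,0,⟨0,[(0,0),(9,0),(39,0)]⟩,⟨1,[(1,0),(2,0),(34,0)]⟩⟩ ⟨false,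
  1,⟨1,[(51,0),(0,0)]⟩,⟨0,[(54,0)]⟩⟩ ⟨true,0,⟨23,[(0,21),(1,1),(3,5),(13,1),(13,1),(10,0),(2,3),(3,
  4)]⟩,⟨1,[(1,0),(2,0),(34,0)]⟩⟩,.o ⟨false,1,⟨3,[(32,0),(0,0),(17,1)]⟩,⟨24,[(6,5),(2,11),(1,0),(8,
  6),(4,1),(2,6),(16,5)]⟩⟩,.e ⟨false,1,⟨1,[(51,0),(0,0)]⟩,⟨1,[(40,0),(0,0)]⟩⟩ ⟨false,1,⟨23,[(0,11),
  (5,3),(25,4),(0,10),(0,11),(10,5),(6,5)]⟩,⟨0,[(1,0)]⟩⟩]⟩) (.Q [0,1,1,-2,0,0,0,0,1,0,0,-1] (.p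
  false [0,0,0,1] [] (⟨0,[(35,0)]⟩,⟨0,[(34,0)]⟩) .k 0 (⟨0,[]⟩,⟨0,[]⟩) .k .k) (.Q [0,0,-3,0,1,0,0,0,
  0,0,0,1] (.p true [0,0,0,1] [] (⟨0,[(36,0)]⟩,⟨0,[(35,0)]⟩) .k 0 (⟨0,[]⟩,⟨0,[]⟩) .k .k) (.R ⟨1,
  true,false,false,[0,0,0,1],[0,1],[1,0,0,0,0,0,0,0,1],(⟨0,[(37,0)]⟩,⟨0,[(36,0)]⟩),(⟨0,[(49,0)]⟩,⟨0,
  [(48,0)]⟩),⟨2,[(0,0),(9,0),(26,1)]⟩,.k,.k,(.r (-1) ⟨3,[(0,1),(0,1),(33,0),(18,0)]⟩ ⟨2,[(7,0),(0,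
  0),(25,0)]⟩),(.r (-1) ⟨3,[(0,1),(0,1),(33,0),(18,0)]⟩ ⟨2,[(7,0),(0,0),(25,0)]⟩),(.r (-2) ⟨3,[(0,
  3),(0,3),(32,0),(0,0),(18,1)]⟩ ⟨2,[(3,0),(1,1),(0,1),(1,2),(2,0),(24,0)]⟩),.k,⟨true,1,⟨3,[(0,1),
  (0,1),(33,0),(18,0)]⟩,⟨2,[(3,1),(1,0),(0,0),(1,2),(2,1),(24,1)]⟩⟩,⟨false,1,⟨0,[(0,0)]⟩,⟨13,[(1,5),
  (6,5),(2,1),(22,2),(1,7),(10,2),(2,3)]⟩⟩,⟨true,0,⟨0,[]⟩,⟨0,[(56,0)]⟩⟩,⟨false,0,⟨0,[(2,0)]⟩,⟨17,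
  [(1,11),(6,1),(25,3),(0,6),(0,5),(10,2),(6,5)]⟩⟩,⟨false,1,⟨23,[(13,3),(0,7),(19,4),(0,4),(11,1),
  (6,11)]⟩,⟨0,[(52,0)]⟩⟩,⟨true,0,⟨0,[(2,0),(48,0)]⟩,⟨0,[(1,0)]⟩⟩,[]⟩) (.R ⟨1,true,false,false,[1,
  -1],[0,1],[1,0,-1,-1],(⟨0,[(48,0)]⟩,⟨0,[(49,0)]⟩),(⟨0,[(49,0)]⟩,⟨0,[(48,0)]⟩),⟨2,[(20,0),(5,0),
  (21,1)]⟩,.k,.k,(.r (-1) ⟨10,[(9,1),(1,5),(12,3),(5,3),(17,5),(4,3),(0,0)]⟩ ⟨2,[(8,1),(25,0),(0,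
  0)]⟩),(.r (-1) ⟨10,[(9,1),(1,5),(12,3),(5,3),(17,5),(4,3),(0,0)]⟩ ⟨2,[(8,1),(25,0),(0,0)]⟩),(.r
  (-2) ⟨11,[(9,3),(1,11),(22,0),(0,0),(12,11),(4,11),(0,5)]⟩ ⟨0,[(0,0),(1,0),(1,0),(22,0),(4,0)]⟩),
  .k,⟨true,1,⟨10,[(9,1),(1,5),(12,3),(5,3),(17,5),(4,3),(0,0)]⟩,⟨2,[(0,0),(7,1),(28,0)]⟩⟩,⟨false,1,
  ⟨2,[(9,2),(10,1),(5,1),(21,0)]⟩,⟨0,[(39,0),(2,0)]⟩⟩,⟨true,0,⟨0,[]⟩,⟨0,[(56,0)]⟩⟩,⟨false,0,⟨0,[(12,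
  0)]⟩,⟨11,[(11,7),(22,2),(0,2),(11,1),(6,3)]⟩⟩,⟨false,1,⟨23,[(13,3),(0,7),(19,4),(0,4),(11,1),(6,
  11)]⟩,⟨0,[(52,0)]⟩⟩,⟨true,0,⟨3,[(12,0),(1,2),(8,1),(17,0)]⟩,⟨0,[(11,0)]⟩⟩,[]⟩)) (.Q [0,0,-1,0,0,0,
  0,0,-1,-1,0,1] (.p true [0,0,0,1] [1] (⟨0,[(36,0)]⟩,⟨0,[(35,0)]⟩) .k 1 (⟨0,[]⟩,⟨0,[]⟩) .k .k) (.Q
  [0,0,0,-1,0,0,1,1,0,0,-1,1] (.p false [0,0,1] [0,0,0,1] (⟨0,[(46,0)]⟩,⟨0,[(45,0)]⟩) .k 2 (⟨0,[(37,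
  0)]⟩,⟨0,[(36,0)]⟩) .k (.r 0 ⟨11,[(5,0),(0,7),(0,3),(3,2),(10,3),(4,0),(1,3),(6,6)]⟩ ⟨3,[(34,0),(0,
  2),(8,3)]⟩)) (.I [0,1,-1,-2,0,0,0,1,-1] (.R ⟨1,false,false,false,[1,0,0,-1],[1,1,-1],[0,1,0,-1,0,
  0,0,0,-1],(⟨0,[(38,0)]⟩,⟨0,[(39,0)]⟩),(⟨0,[(47,0),(3,0)]⟩,⟨1,[(22,0),(25,0)]⟩),⟨5,[(7,2),(4,0),(3,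
  0),(0,0),(10,1),(1,0),(7,2)]⟩,.k,.k,(.x (-1) ⟨15,[(22,3),(5,3),(7,6),(0,6),(11,1)]⟩ ⟨0,[(51,0)]⟩),
  (.r (-1) ⟨1,[(17,0),(18,0)]⟩ ⟨0,[(6,0),(46,0)]⟩),(.r (-1) ⟨5,[(0,3),(25,3),(5,1),(3,0),(19,0)]⟩
  ⟨17,[(6,5),(3,9),(7,2),(2,2),(13,5),(0,1),(0,7),(5,2)]⟩),.k,⟨true,0,⟨0,[(0,0)]⟩,⟨3,[(6,1),(3,1),
  (4,0),(19,0),(1,0),(18,0)]⟩⟩,⟨false,1,⟨19,[(20,11),(10,3),(4,2),(0,2),(0,19),(10,1)]⟩,⟨9,[(1,4),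
  (0,0),(0,0),(2,1),(14,2),(13,3),(3,2)]⟩⟩,⟨false,0,⟨0,[(54,0)]⟩,⟨23,[(15,3),(0,7),(19,4),(0,4),(11,
  1),(6,11)]⟩⟩,⟨false,1,⟨5,[(7,5),(2,1),(25,0),(0,3),(18,2)]⟩,⟨11,[(0,1),(0,1),(3,1),(2,7),(4,1),
  (16,0),(2,0),(13,0),(4,0)]⟩⟩,⟨true,0,⟨0,[(58,0)]⟩,⟨0,[]⟩⟩,⟨false,1,⟨23,[(10,7),(4,11),(20,0),(0,
  12),(0,23),(10,5),(6,11)]⟩,⟨5,[(0,1),(0,1),(3,1),(2,1),(4,1),(16,0),(2,0),(13,0),(4,0)]⟩⟩,[.a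
  ⟨true,0,⟨2,[(14,0),(3,0),(24,0)]⟩,⟨0,[(1,0),(36,0)]⟩⟩ ⟨false,0,⟨16,[(0,11),(1,2),(0,1),(3,4),(13,
  2),(13,5),(7,3)]⟩,⟨3,[(14,1),(22,1),(11,0),(6,0)]⟩⟩ ⟨true,0,⟨5,[(7,5),(2,1),(25,0),(0,0)]⟩,⟨0,[(1,
  0)]⟩⟩,.o ⟨false,1,⟨7,[(15,3),(20,0),(0,0),(11,1),(6,3)]⟩,⟨3,[(1,0),(11,0),(24,0),(3,2)]⟩⟩,.o
  ⟨false,1,⟨1,[(39,1),(9,0),(5,0)]⟩,⟨15,[(7,2),(2,3),(2,4),(15,2),(8,12),(10,3),(2,3)]⟩⟩,.e ⟨false,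
  0,⟨1,[(0,0),(6,0),(0,0),(23,0)]⟩,⟨5,[(10,1),(25,0),(0,3),(18,2)]⟩⟩ ⟨false,1,⟨7,[(15,3),(20,0),(0,
  0),(0,7),(10,1),(6,3)]⟩,⟨0,[(1,0)]⟩⟩]⟩) (.K ⟨1,[1,1,0,-1],1,0,(⟨0,[(38,0),(12,0)]⟩,⟨3,[(1,1),(13,
  0),(6,0),(5,0),(10,1)]⟩),(.r 0 ⟨2,[(9,0),(0,0),(25,0)]⟩ ⟨21,[(6,3),(4,1),(1,5),(12,3),(10,8),(12,
  5),(4,5),(0,0)]⟩),.k,(.r 1 ⟨2,[(5,0),(1,1),(0,1),(1,2),(2,0),(24,0)]⟩ ⟨35,[(11,7),(1,23),(22,4),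
  (0,22),(12,23),(4,23),(0,11)]⟩),.k,.k,[⟨0,[(12,0),(25,0),(12,2)]⟩,⟨1,[(39,1),(9,0),(5,0)]⟩,⟨1,[(1,
  0),(4,1),(6,0),(20,1),(3,2),(3,0)]⟩,⟨0,[(4,0)]⟩]⟩)) (.I [0,1,-1,-2,0,0,0,1,-1] (.R ⟨1,false,false,
  false,[1,0,0,-1],[1,1,-1],[0,1,0,-1,0,0,0,0,-1],(⟨0,[(38,0)]⟩,⟨0,[(39,0)]⟩),(⟨0,[(47,0),(3,0)]⟩,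
  ⟨1,[(22,0),(25,0)]⟩),⟨5,[(1,1),(10,0),(4,0),(10,1),(1,0),(7,3)]⟩,.k,.k,(.x (-1) ⟨15,[(22,3),(5,3),
  (7,6),(0,6),(11,1)]⟩ ⟨0,[(51,0)]⟩),(.r (-1) ⟨1,[(17,0),(18,0)]⟩ ⟨0,[(6,0),(46,0)]⟩),(.r (-1) ⟨5,
  [(0,3),(25,3),(5,1),(3,0),(19,0)]⟩ ⟨17,[(6,5),(3,9),(7,2),(2,2),(13,5),(0,1),(0,7),(5,2)]⟩),.k,
  ⟨true,0,⟨0,[(0,0)]⟩,⟨3,[(6,1),(3,1),(4,0),(19,0),(1,0),(18,0)]⟩⟩,⟨false,1,⟨3,[(1,3),(15,1),(18,0),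
  (0,0)]⟩,⟨11,[(2,2),(3,3),(1,0),(4,0),(15,2),(5,3),(3,7)]⟩⟩,⟨false,0,⟨0,[(54,0)]⟩,⟨23,[(15,3),(0,
  7),(19,4),(0,4),(11,1),(6,11)]⟩⟩,⟨false,1,⟨5,[(7,5),(2,1),(25,0),(0,3),(18,2)]⟩,⟨0,[(8,0),(45,
  0)]⟩⟩,⟨true,0,⟨0,[(58,0)]⟩,⟨0,[]⟩⟩,⟨false,1,⟨5,[(1,5),(8,1),(25,0),(0,3),(18,2)]⟩,⟨0,[(8,0),(45,
  1)]⟩⟩,[.e ⟨false,0,⟨2,[(0,1),(0,0),(0,0),(32,0),(7,0)]⟩,⟨3,[(14,1),(22,1),(11,0),(6,0)]⟩⟩ ⟨false,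
  0,⟨0,[(1,0)]⟩,⟨9,[(8,5),(4,1),(3,1),(17,1),(0,1),(0,4),(1,3),(16,0)]⟩⟩,.o ⟨false,1,⟨7,[(15,3),(20,
  0),(0,0),(11,1),(6,3)]⟩,⟨0,[(13,0),(2,0)]⟩⟩,.o ⟨false,1,⟨1,[(39,1),(9,0),(5,0)]⟩,⟨19,[(1,2),(8,4),
  (2,6),(15,2),(8,16),(10,4),(2,4)]⟩⟩,.a ⟨true,0,⟨0,[(39,0)]⟩,⟨0,[(38,0)]⟩⟩ ⟨false,0,⟨1,[(0,0),(1,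
  0),(29,0),(5,0)]⟩,⟨5,[(10,1),(25,0),(0,3),(18,2)]⟩⟩ ⟨true,0,⟨0,[(1,0)]⟩,⟨0,[(13,0),(2,0),(22,
  0)]⟩⟩]⟩) (.Q [0,-1,-1,-1,0,0,-1,-1,-1,-1,1,1] (.p true [0,0,1] [1,0,0,-1] (⟨0,[(48,0)]⟩,⟨0,[(47,
  0)]⟩) .k 2 (⟨0,[(38,0)]⟩,⟨0,[(39,0)]⟩) .k (.r (-1) ⟨5,[(10,1),(6,2),(18,0),(0,3)]⟩ ⟨0,[(9,0),(36,
  0)]⟩)) (.Q [0,1,1,0,0,0,1,1,1,1,-1,-1] (.p false [0,0,1] [1,0,0,-1] (⟨0,[(49,0)]⟩,⟨0,[(48,0)]⟩)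
  .k 2 (⟨0,[(39,0)]⟩,⟨0,[(40,0)]⟩) .k (.r (-1) ⟨5,[(11,1),(6,2),(18,0),(0,3)]⟩ ⟨0,[(10,0),(36,
  0)]⟩)) (.R ⟨1,false,false,true,[1,0,-1],[0,0,0,1],[],(⟨0,[(49,0)]⟩,⟨0,[(50,0)]⟩),(⟨0,[(41,0)]⟩,⟨0,
  [(40,0)]⟩),⟨0,[(35,0)]⟩,.k,.k,.k,.k,(.r 0 ⟨15,[(1,6),(7,13),(0,8),(4,2),(21,7),(2,1),(4,3)]⟩ ⟨5,
  [(12,3),(6,2),(18,1),(0,4)]⟩),.k,⟨true,0,⟨1,[(4,0),(6,0),(28,0),(13,0)]⟩,⟨1,[(0,0),(1,0),(12,0),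
  (20,0),(4,0)]⟩⟩,⟨false,0,⟨0,[(34,0),(5,0),(3,0)]⟩,⟨19,[(22,11),(10,3),(4,2),(0,2),(1,19),(9,1)]⟩⟩,
  ⟨false,1,⟨3,[(19,0),(9,1),(8,0),(0,0),(18,0)]⟩,⟨0,[(48,0)]⟩⟩,⟨true,0,⟨0,[(0,0)]⟩,⟨8,[(1,2),(2,4),
  (0,0),(14,0),(24,3)]⟩⟩,⟨false,1,⟨11,[(26,7),(1,3),(9,2),(0,2),(18,1)]⟩,⟨3,[(1,0),(6,0),(6,0),(21,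
  0),(2,0),(4,0),(2,0)]⟩⟩,⟨false,1,⟨55,[(0,47),(1,3),(0,7),(14,15),(7,3),(11,14),(0,16),(11,3),(6,
  19)]⟩,⟨0,[(1,0)]⟩⟩,[.a ⟨true,0,⟨2,[(0,1),(7,0),(27,0),(3,0),(4,0),(10,0)]⟩,⟨0,[(7,0)]⟩⟩ ⟨false,1,
  ⟨3,[(38,0),(0,0),(17,1)]⟩,⟨0,[]⟩⟩ ⟨true,0,⟨0,[(0,0),(47,0)]⟩,⟨14,[(1,7),(8,6),(1,1),(13,0),(6,6),
  (20,0),(3,1)]⟩⟩,.o ⟨false,1,⟨15,[(0,9),(7,3),(0,5),(23,1),(4,3),(0,4),(11,3),(6,2)]⟩,⟨0,[(4,0)]⟩⟩,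
  .o ⟨false,1,⟨9,[(22,1),(10,3),(4,2),(0,2),(11,1)]⟩,⟨0,[(34,0),(9,0)]⟩⟩,.o ⟨false,0,⟨0,[(43,0)]⟩,
  ⟨7,[(37,3),(0,0),(0,0),(11,1),(5,3)]⟩⟩]⟩) (.Q [0,1,1,-1,0,0,1,1,1,1,-1,-1] (.p false [0,0,1] [1,0,
  0,-1] (⟨0,[(50,0)]⟩,⟨0,[(49,0)]⟩) .k 2 (⟨0,[(40,0)]⟩,⟨0,[(41,0)]⟩) .k (.r (-1) ⟨5,[(12,1),(6,2),
  (18,0),(0,3)]⟩ ⟨0,[(11,0),(36,0)]⟩)) (.R ⟨1,false,false,false,[0,0,0,1],[1,0,-1],[0,0,1],(⟨0,[(42,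
  0)]⟩,⟨0,[(41,0)]⟩),(⟨0,[(50,0)]⟩,⟨0,[(51,0)]⟩),⟨17,[(1,1),(1,3),(1,1),(9,2),(0,1),(3,2),(10,5),(1,
  2),(3,3),(4,13)]⟩,.k,.k,(.r (-1) ⟨21,[(9,3),(4,1),(1,5),(12,3),(10,8),(12,5),(4,5),(0,0)]⟩ ⟨2,
  [(12,0),(0,0),(25,0)]⟩),.k,(.r (-1) ⟨1,[(20,0),(19,0)]⟩ ⟨2,[(12,0),(0,0),(25,0),(9,2)]⟩),.k,⟨true,
  0,⟨37,[(0,12),(10,8),(1,1),(2,2),(13,15),(3,9),(4,1),(2,3),(5,1)]⟩,⟨0,[(49,0)]⟩⟩,⟨false,1,⟨0,[(23,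
  0),(18,0)]⟩,⟨0,[(41,0),(5,0)]⟩⟩,⟨false,0,⟨10,[(12,8),(0,0),(2,0),(21,0),(0,0),(8,1),(6,5)]⟩,⟨1,
  [(40,0),(17,0)]⟩⟩,⟨false,0,⟨0,[(1,0)]⟩,⟨41,[(0,35),(3,5),(8,1),(5,11),(19,9),(0,12),(11,2),(6,
  17)]⟩⟩,⟨false,0,⟨143,[(4,11),(1,11),(5,81),(0,27),(13,11),(10,5),(0,24),(12,2),(2,59)]⟩,⟨21,[(9,
  3),(4,1),(1,5),(12,3),(10,8),(12,5),(4,5),(0,0)]⟩⟩,⟨true,0,⟨2,[(1,0),(3,0),(0,0),(17,0),(21,0)]⟩,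
  ⟨0,[(0,0)]⟩⟩,[.a ⟨true,0,⟨1,[(22,0),(18,0),(0,0)]⟩,⟨2,[(0,1),(7,0),(2,0),(5,0)]⟩⟩ ⟨true,0,⟨1,[(47,
  0),(0,0)]⟩,⟨0,[]⟩⟩ ⟨false,1,⟨1,[(1,0),(3,0),(34,0),(5,0),(11,0)]⟩,⟨3,[(0,0),(11,0),(17,0),(10,2),
  (3,1),(1,0),(7,0)]⟩⟩,.o ⟨false,1,⟨7,[(22,3),(16,0),(0,0),(11,1),(6,3)]⟩,⟨0,[(45,0)]⟩⟩,.o ⟨false,0,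
  ⟨19,[(4,2),(8,4),(2,6),(15,2),(8,16),(10,4),(2,4)]⟩,⟨1,[(42,1),(9,0),(5,0)]⟩⟩,.o ⟨false,0,⟨61,[(0,
  29),(9,29),(2,23),(2,13),(22,14),(1,1),(10,8),(2,21)]⟩,⟨1,[(5,1),(34,0),(17,0)]⟩⟩]⟩) (.K ⟨1,[1,1,
  0,-1],1,0,(⟨0,[(41,0),(12,0)]⟩,⟨29,[(0,3),(2,5),(1,1),(9,4),(0,3),(3,4),(10,9),(1,4),(3,5),(4,
  23)]⟩),(.r 0 ⟨2,[(12,0),(0,0),(25,0)]⟩ ⟨21,[(9,3),(4,1),(1,5),(12,3),(10,8),(12,5),(4,5),(0,0)]⟩),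
  .k,(.r 1 ⟨3,[(2,0),(7,1),(0,2),(1,3),(2,0),(24,1)]⟩ ⟨35,[(14,7),(1,23),(22,4),(0,22),(12,23),(4,
  23),(0,11)]⟩),.k,.k,[⟨0,[(15,0),(25,0),(12,2)]⟩,⟨1,[(42,1),(9,0),(5,0)]⟩,⟨11,[(9,11),(3,1),(1,0),
  (0,11),(2,5),(0,2),(12,2),(3,11),(3,11),(8,5)]⟩,⟨0,[(7,0)]⟩]⟩))) (.Q [0,-1,-1,-2,0,0,-1,-1,-1,-1,
  1,1] (.p true [0,0,1] [1,0,0,-1] (⟨0,[(49,0)]⟩,⟨0,[(48,0)]⟩) .k 2 (⟨0,[(39,0)]⟩,⟨0,[(40,0)]⟩) .k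
  (.r (-1) ⟨5,[(11,1),(6,2),(18,0),(0,3)]⟩ ⟨0,[(10,0),(36,0)]⟩)) (.R ⟨1,false,false,true,[1,-1,-1],
  [0,0,0,1],[0,0,1],(⟨0,[(35,0)]⟩,⟨0,[(50,0),(2,0)]⟩),(⟨0,[(41,0)]⟩,⟨0,[(40,0)]⟩),⟨0,[(30,0)]⟩,.k,
  .k,(.r (-1) ⟨11,[(0,5),(14,3),(21,3),(1,2),(0,5),(4,1),(2,3),(8,8)]⟩ ⟨3,[(12,3),(6,1),(18,0),(0,
  0)]⟩),(.r 0 ⟨19,[(0,6),(3,0),(4,19),(0,11),(4,1),(21,9),(7,4)]⟩ ⟨5,[(12,3),(6,2),(18,1),(0,4)]⟩),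
  (.r (-1) ⟨11,[(0,5),(14,3),(21,3),(0,2),(1,5),(4,1),(2,3),(8,8)]⟩ ⟨1,[(12,1),(6,0),(19,0)]⟩),.k,
  ⟨false,0,⟨1,[(4,0),(6,0),(28,0),(13,0)]⟩,⟨1,[(39,0),(17,0),(2,1)]⟩⟩,⟨true,0,⟨0,[(34,0),(5,0),(3,
  0)]⟩,⟨0,[(41,0),(1,0)]⟩⟩,⟨false,0,⟨1,[(29,1),(16,0),(0,0)]⟩,⟨23,[(0,5),(14,3),(21,3),(1,2),(0,5),
  (4,1),(2,15),(8,20)]⟩⟩,⟨true,0,⟨0,[(1,0)]⟩,⟨1,[(0,0),(3,0),(40,0)]⟩⟩,⟨false,0,⟨5,[(12,1),(16,5),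
  (8,0),(0,0)]⟩,⟨11,[(0,5),(14,3),(21,3),(1,2),(0,5),(4,1),(2,3),(8,8)]⟩⟩,⟨false,1,⟨47,[(1,39),(0,
  3),(0,7),(14,15),(7,3),(11,12),(0,14),(11,3),(6,15)]⟩,⟨0,[(0,0)]⟩⟩,[.a ⟨true,0,⟨8,[(1,4),(6,3),(6,
  2),(20,3),(3,6),(0,2),(3,0)]⟩,⟨0,[(7,0)]⟩⟩ ⟨true,0,⟨1,[(46,0),(0,0)]⟩,⟨0,[]⟩⟩ ⟨false,1,⟨31,[(1,
  17),(7,9),(5,5),(21,15),(1,6),(0,3),(4,7),(11,24)]⟩,⟨229,[(0,129),(4,25),(4,55),(1,19),(13,73),(6,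
  77),(4,8),(2,17),(9,10)]⟩⟩,.o ⟨false,1,⟨47,[(1,29),(6,11),(0,17),(5,9),(17,5),(4,11),(0,14),(11,
  6),(6,13)]⟩,⟨0,[(4,0)]⟩⟩,.o ⟨false,0,⟨0,[(43,0)]⟩,⟨7,[(37,3),(0,0),(0,0),(11,1),(5,3)]⟩⟩,.o
  ⟨false,0,⟨0,[(33,0),(12,0)]⟩,⟨0,[(22,0),(14,0)]⟩⟩]⟩) (.K ⟨1,[1,1,0,-1],1,0,(⟨0,[(40,0),(12,0)]⟩,
  ⟨5,[(4,1),(3,1),(5,0),(4,0),(10,1),(1,0),(3,1),(4,3)]⟩),(.r 0 ⟨2,[(11,0),(0,0),(25,0)]⟩ ⟨21,[(8,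
  3),(4,1),(1,5),(12,3),(10,8),(12,5),(4,5),(0,0)]⟩),.k,(.r 1 ⟨2,[(7,0),(1,1),(0,1),(1,2),(2,0),(24,
  0)]⟩ ⟨35,[(13,7),(1,23),(22,4),(0,22),(12,23),(4,23),(0,11)]⟩),.k,.k,[⟨0,[(14,0),(25,0),(12,2)]⟩,
  ⟨1,[(41,1),(9,0),(5,0)]⟩,⟨1,[(1,0),(6,0),(6,0),(20,0),(3,1),(0,0),(14,0)]⟩,⟨0,[(6,0)]⟩]⟩))))) (.R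
  ⟨2,true,false,false,[0,1],[1,0,0,-1],[0,1,1],(⟨0,[]⟩,⟨0,[]⟩),(⟨0,[(36,0)]⟩,⟨0,[(37,0)]⟩),⟨0,[]⟩,
  .k,.k,.k,(.x 0 ⟨0,[(49,0)]⟩ ⟨15,[(20,3),(5,3),(7,6),(0,6),(11,1)]⟩),.k,.k,⟨true,0,⟨4,[(0,1),(3,2),
  (6,1),(15,2),(4,2),(4,1)]⟩,⟨1,[(5,0),(0,0),(0,0),(42,0)]⟩⟩,⟨false,1,⟨1,[(37,1),(9,0),(5,0)]⟩,⟨0,
  [(36,0)]⟩⟩,⟨false,0,⟨0,[(52,0)]⟩,⟨23,[(13,3),(0,7),(19,4),(0,4),(11,1),(6,11)]⟩⟩,⟨true,0,⟨0,[(1,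
  0),(9,0)]⟩,⟨0,[(0,0),(50,0)]⟩⟩,⟨true,0,⟨0,[(56,0)]⟩,⟨0,[]⟩⟩,⟨false,1,⟨5,[(3,3),(30,0),(2,1),(9,2),
  (5,0),(0,0)]⟩,⟨0,[(0,0)]⟩⟩,[]⟩))))))))))))

theorem ok175 : chk (cU (-1) true 10) t175 l101 = true := by decide +kernel

noncomputable def t195 : Tre :=
  (.K ⟨0,[1,1,-1],1,0,(⟨0,[(27,0),(3,0)]⟩,⟨1,[(2,0),(25,0)]⟩),.k,.k,(.r 0 ⟨7,[(0,1),(4,7),(5,1),(4,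
  0),(0,0),(6,9)]⟩ ⟨0,[(6,0),(27,0)]⟩),.k,.k,[⟨0,[(0,0)]⟩,⟨1,[(3,0),(1,0),(0,0),(11,0),(0,0)]⟩,⟨0,
  [(0,0),(5,0),(31,0)]⟩,⟨0,[(1,0)]⟩]⟩)

theorem ok195 : chk (cU (-1) true 10) t195 r94 = true := by decide +kernel

noncomputable def t204 : Tre :=
  (.R ⟨2,false,false,true,[0,1],[1,1,-1],[0,1],(⟨0,[]⟩,⟨0,[]⟩),(⟨0,[(22,0),(3,0)]⟩,⟨0,[(3,0),(1,0),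
  (0,0)]⟩),⟨0,[]⟩,.k,.k,.k,.k,.k,.k,⟨true,1,⟨7,[(0,3),(5,3),(4,0),(0,0),(4,3),(11,3),(0,5)]⟩,⟨0,[(1,
  0)]⟩⟩,⟨false,1,⟨3,[(6,1),(17,0),(5,2)]⟩,⟨1,[(10,0),(2,0),(0,0)]⟩⟩,⟨false,1,⟨3,[(11,0),(0,0),(16,
  3),(0,1)]⟩,⟨3,[(1,0),(0,1),(4,0),(20,0),(2,0)]⟩⟩,⟨true,0,⟨0,[(15,0)]⟩,⟨3,[(0,2),(3,0),(4,1),(0,
  0)]⟩⟩,⟨false,1,⟨3,[(11,0),(0,0),(17,1)]⟩,⟨3,[(19,0),(0,0),(6,1)]⟩⟩,⟨false,1,⟨1,[(7,0),(1,0),(8,0),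
  (5,0),(3,0),(2,0)]⟩,⟨0,[(0,0)]⟩⟩,[.e ⟨true,0,⟨0,[(33,0)]⟩,⟨3,[(19,0),(0,0),(6,1)]⟩⟩ ⟨true,0,⟨1,
  [(1,0),(7,0),(8,0),(5,0)]⟩,⟨0,[(0,0)]⟩⟩,.a ⟨true,0,⟨0,[(7,0),(1,0)]⟩,⟨0,[(0,0),(32,0)]⟩⟩ ⟨false,1,
  ⟨3,[(11,0),(0,0),(17,1)]⟩,⟨0,[]⟩⟩ ⟨true,0,⟨4,[(1,1),(4,0),(0,2),(1,2),(14,1)]⟩,⟨0,[(0,0),(32,
  0)]⟩⟩,.o ⟨false,1,⟨3,[(11,0),(0,0),(17,1)]⟩,⟨0,[(7,0),(8,0),(0,0)]⟩⟩,.e ⟨false,1,⟨3,[(11,0),(0,0),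
  (17,1)]⟩,⟨3,[(19,0),(0,0),(6,1)]⟩⟩ ⟨false,1,⟨1,[(7,0),(1,0),(8,0),(5,0),(3,0),(2,0)]⟩,⟨0,[(0,
  0)]⟩⟩]⟩)

theorem ok204 : chk (cU (-1) true 10) t204 l106 = true := by decide +kernel

noncomputable def t216 : Tre :=
  (.I [0,0,2,0,-1,-2,1] (.K ⟨0,[1,1,-1],1,0,(⟨0,[(29,0),(3,0)]⟩,⟨1,[(0,0),(0,0),(28,0)]⟩),.k,.k,(.x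
  (-2) ⟨3,[(1,3),(16,0),(0,0),(9,3),(1,1),(1,7)]⟩ ⟨0,[(0,0)]⟩),.k,.k,[⟨0,[(0,0),(28,0),(3,1)]⟩,⟨0,
  [(1,0)]⟩,⟨0,[(20,0),(0,0),(2,0),(11,0)]⟩,⟨0,[(7,0)]⟩]⟩) (.I [0,0,2,2,-1,0,0,-1] (.K ⟨0,[1,1,-1],1,
  0,(⟨0,[(30,0),(3,0)]⟩,⟨1,[(2,0),(4,0),(23,0)]⟩),.k,.k,(.r 1 ⟨0,[(0,0)]⟩ ⟨2,[(2,0),(2,2),(13,0),(0,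
  0),(4,2),(2,1)]⟩),.k,.k,[⟨0,[(7,0),(22,0),(3,1)]⟩,⟨0,[(2,0)]⟩,⟨0,[(21,0),(0,0),(2,0),(11,0)]⟩,⟨0,
  [(8,0)]⟩]⟩) (.Q [0,1,-1,0,0,0,0,0,-1,0,0,1] (.p true [0,0,0,1] [] (⟨0,[(22,0)]⟩,⟨0,[(21,0)]⟩) .k
  0 (⟨0,[]⟩,⟨0,[]⟩) .k .k) (.Q [0,1,1,0,0,0,0,0,1,0,0,-1] (.p false [0,0,0,1] [] (⟨0,[(23,0)]⟩,⟨0,
  [(22,0)]⟩) .k 0 (⟨0,[]⟩,⟨0,[]⟩) .k .k) (.K ⟨0,[0,0,0,1],0,0,(⟨0,[(24,0)]⟩,⟨0,[(23,0)]⟩),.k,(.r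
  (-1) ⟨7,[(2,1),(4,1),(12,0),(1,3),(2,0),(2,0)]⟩ ⟨9,[(1,3),(4,1),(4,3),(2,1),(6,2),(1,3),(2,1),(7,
  0),(2,1)]⟩),(.x 0 ⟨0,[(36,0)]⟩ ⟨15,[(4,3),(4,3),(3,3),(7,6),(0,6),(11,1)]⟩),.k,.k,[⟨0,[(24,0)]⟩,
  ⟨0,[(23,0)]⟩,⟨0,[(1,0)]⟩,⟨0,[(0,0)]⟩]⟩) (.Q [0,1,1,-1,0,0,0,0,1,0,0,-1] (.p false [0,0,0,1] []
  (⟨0,[(24,0)]⟩,⟨0,[(23,0)]⟩) .k 0 (⟨0,[]⟩,⟨0,[]⟩) .k .k) (.R ⟨2,false,false,true,[0,1],[0,0,0,1],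
  [1],(⟨0,[]⟩,⟨0,[]⟩),(⟨0,[(25,0)]⟩,⟨0,[(24,0)]⟩),⟨0,[]⟩,.k,.k,.k,(.r 0 ⟨6,[(1,0),(5,0),(4,2),(2,1),
  (1,0),(4,2),(1,0)]⟩ ⟨7,[(3,1),(4,1),(12,0),(1,3),(2,0),(2,0)]⟩),.k,.k,⟨true,0,⟨0,[(1,0),(16,0),(5,
  0),(2,0),(0,0)]⟩,⟨4,[(0,2),(11,0),(2,0),(4,0),(2,0),(1,2)]⟩⟩,⟨false,0,⟨0,[(18,0),(5,0),(2,0),(0,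
  0)]⟩,⟨0,[(25,0),(15,0)]⟩⟩,⟨false,1,⟨7,[(8,3),(13,0),(0,0),(18,1)]⟩,⟨22,[(7,3),(1,0),(2,7),(2,3),
  (1,0),(4,3),(0,3),(7,1)]⟩⟩,⟨true,0,⟨0,[(0,0)]⟩,⟨9,[(1,6),(0,2),(6,1),(1,1),(3,1)]⟩⟩,⟨false,1,⟨1,
  [(41,0),(0,0)]⟩,⟨1,[(30,0),(0,0)]⟩⟩,⟨false,1,⟨11,[(0,7),(5,3),(15,2),(0,2),(11,1),(6,3)]⟩,⟨0,[(1,
  0)]⟩⟩,[.e ⟨true,0,⟨0,[]⟩,⟨1,[(30,0),(0,0)]⟩⟩ ⟨true,0,⟨39,[(0,37),(5,1),(0,5),(4,13),(2,7),(1,1),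
  (4,6),(0,6),(7,3)]⟩,⟨0,[(1,0)]⟩⟩,.a ⟨true,0,⟨0,[(6,0),(33,1)]⟩,⟨1,[(1,0),(0,0)]⟩⟩ ⟨false,1,⟨1,
  [(41,0),(0,0)]⟩,⟨0,[(44,0)]⟩⟩ ⟨true,0,⟨2,[(0,2),(6,0),(4,0),(29,0)]⟩,⟨1,[(1,0),(0,0)]⟩⟩,.o ⟨false,
  1,⟨3,[(22,0),(0,0),(17,1)]⟩,⟨0,[(18,0),(8,0),(0,0)]⟩⟩,.e ⟨false,1,⟨1,[(41,0),(0,0)]⟩,⟨1,[(30,0),
  (0,0)]⟩⟩ ⟨false,1,⟨11,[(0,7),(5,3),(15,2),(0,2),(11,1),(6,3)]⟩,⟨0,[(1,0)]⟩⟩]⟩) (.Q [0,0,0,0,0,-1,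
  0,0,0,1,0,-1] (.ed true [0,1,0,1] .k) (.I [1,0,-1,0,0,0,0,0,-1] (.I [0,1,1,0,-1,0,0,0,-1] (.R ⟨1,
  false,false,false,[1,0,0,-1],[1,-1],[0,1,0,-1,0,0,0,0,-1],(⟨0,[(27,0)]⟩,⟨0,[(28,0)]⟩),(⟨0,[(39,
  0)]⟩,⟨0,[(40,0)]⟩),⟨0,[(2,0)]⟩,.k,.k,(.x (-1) ⟨15,[(8,3),(4,3),(3,3),(7,6),(0,6),(11,1)]⟩ ⟨0,[(40,
  0)]⟩),(.r 0 ⟨6,[(0,0),(9,1),(4,1),(9,2),(16,0)]⟩ ⟨7,[(6,1),(4,1),(12,0),(1,3),(2,0),(2,0)]⟩),.k,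
  .k,⟨true,(-1),⟨0,[(0,0)]⟩,⟨1,[(26,0),(18,0)]⟩⟩,⟨false,0,⟨0,[(21,0),(5,0),(2,0),(0,0)]⟩,⟨9,[(3,3),
  (1,5),(5,1),(14,4),(17,2)]⟩⟩,⟨false,0,⟨0,[(43,0)]⟩,⟨5,[(12,1),(12,0),(0,0),(11,0),(6,2)]⟩⟩,⟨false,
  1,⟨5,[(26,2),(0,5),(2,1),(2,1),(4,1),(2,1),(1,5),(1,0)]⟩,⟨11,[(3,6),(1,4),(6,0),(1,0),(3,0)]⟩⟩,
  ⟨true,0,⟨0,[(47,0)]⟩,⟨0,[]⟩⟩,⟨false,1,⟨5,[(26,2),(0,5),(2,1),(2,1),(4,1),(2,1),(3,0)]⟩,⟨1,[(4,0),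
  (0,0)]⟩⟩,[.a ⟨true,0,⟨0,[(43,0)]⟩,⟨2,[(12,0),(14,1),(0,1)]⟩⟩ ⟨false,0,⟨3,[(0,1),(0,1),(4,1),(17,
  0),(4,0),(2,0)]⟩,⟨9,[(10,1),(1,1),(8,1),(4,4),(11,0),(5,0),(0,2)]⟩⟩ ⟨true,0,⟨0,[(11,0),(3,0),(11,
  0),(2,0),(0,0)]⟩,⟨4,[(3,1),(11,0),(2,0),(4,0),(2,0),(1,2)]⟩⟩,.o ⟨false,1,⟨3,[(11,1),(18,1),(2,1),
  (4,0),(6,0)]⟩,⟨0,[(42,0)]⟩⟩,.o ⟨false,1,⟨13,[(3,3),(1,5),(5,1),(14,4),(1,3),(9,6)]⟩,⟨0,[(21,0),(5,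
  0),(2,0),(0,0)]⟩⟩,.e ⟨false,0,⟨1,[(0,0),(0,0),(9,0)]⟩,⟨11,[(10,3),(4,3),(9,2),(0,8),(18,3)]⟩⟩
  ⟨false,1,⟨3,[(11,1),(15,3),(2,1),(2,1),(4,0),(6,0)]⟩,⟨4,[(3,1),(11,0),(2,0),(4,0),(2,0),(1,
  2)]⟩⟩]⟩) (.Q [0,0,-2,0,1,0,-1,0,0,-1,1,1] (.p true [0,0,1] [1,0,0,-1] (⟨0,[(37,0)]⟩,⟨0,[(36,0)]⟩)
  .k 2 (⟨0,[(27,0)]⟩,⟨0,[(28,0)]⟩) .k (.r (-1) ⟨11,[(6,3),(3,3),(14,0),(0,6),(4,3),(2,3)]⟩ ⟨3,[(1,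
  1),(13,0),(9,0),(9,2),(7,0)]⟩)) (.R ⟨1,false,false,false,[1,0,0,-1],[0,-1,1],[1,1,0,0,0,0,0,0,-1],
  (⟨0,[(28,0)]⟩,⟨0,[(29,0)]⟩),(⟨1,[(9,0),(4,0),(23,0)]⟩,⟨0,[(37,0),(3,0)]⟩),⟨0,[(3,0)]⟩,.k,.k,(.x
  (-1) ⟨15,[(9,3),(4,3),(3,3),(7,6),(0,6),(11,1)]⟩ ⟨0,[(41,0)]⟩),(.r 1 ⟨0,[(2,0),(13,0)]⟩ ⟨11,[(7,
  7),(3,1),(14,4),(0,10),(4,1),(2,1)]⟩),.k,.k,⟨true,(-1),⟨0,[(2,0),(13,0),(31,0)]⟩,⟨7,[(7,3),(9,3),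
  (9,3),(6,0),(0,0),(6,1),(1,3)]⟩⟩,⟨false,0,⟨0,[(28,0),(5,0)]⟩,⟨0,[(0,0)]⟩⟩,⟨false,0,⟨0,[]⟩,⟨3,[(26,
  0),(0,0),(18,1)]⟩⟩,⟨false,1,⟨7,[(7,3),(9,3),(9,3),(0,7),(5,8),(0,0),(6,1),(1,3)]⟩,⟨0,[(4,0),(25,
  0)]⟩⟩,⟨true,0,⟨0,[(43,0)]⟩,⟨0,[(44,0)]⟩⟩,⟨false,1,⟨5,[(7,1),(9,3),(9,2),(0,5),(5,5),(11,0)]⟩,⟨0,
  [(5,0),(24,0)]⟩⟩,[.a ⟨true,0,⟨3,[(5,0),(1,2),(2,0),(3,2),(17,0),(4,2),(3,5)]⟩,⟨0,[(9,0),(6,0)]⟩⟩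
  ⟨false,0,⟨0,[(2,0),(45,0)]⟩,⟨1,[(27,0),(18,0)]⟩⟩ ⟨true,0,⟨1,[(17,0),(10,1),(3,0),(1,0),(9,2)]⟩,⟨0,
  [(0,0),(15,0)]⟩⟩,.o ⟨false,1,⟨2,[(7,1),(9,0),(16,2),(11,0)]⟩,⟨0,[(15,0)]⟩⟩,.o ⟨false,1,⟨15,[(0,7),
  (24,3),(0,0),(0,0),(1,7),(9,5)]⟩,⟨0,[(22,0),(5,0),(2,0),(0,0)]⟩⟩,.e ⟨false,0,⟨0,[(2,0)]⟩,⟨1,[(27,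
  0),(6,0),(0,0),(10,0)]⟩⟩ ⟨false,1,⟨2,[(7,1),(9,0),(10,2),(5,2),(11,0)]⟩,⟨0,[(0,0),(15,0)]⟩⟩]⟩)
  (.Q [0,1,1,-2,0,0,0,0,1,0,0,-1] (.p false [0,0,0,1] [] (⟨0,[(29,0)]⟩,⟨0,[(28,0)]⟩) .k 0 (⟨0,[]⟩,
  ⟨0,[]⟩) .k .k) (.R ⟨1,false,false,false,[1,-1],[1,0,0,-1],[1,0,1],(⟨0,[(41,0)]⟩,⟨0,[(42,0)]⟩),(⟨0,
  [(29,0)]⟩,⟨0,[(30,0)]⟩),⟨2,[(10,0),(4,0),(3,0),(21,1)]⟩,.k,.k,(.r (-1) ⟨2,[(0,0),(6,0),(5,1),(32,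
  0)]⟩ ⟨22,[(12,7),(1,1),(2,15),(2,7),(1,1),(4,7),(0,7),(7,3)]⟩),(.r (-1) ⟨5,[(0,0),(6,0),(5,1),(14,
  2),(17,0)]⟩ ⟨58,[(1,3),(1,4),(3,3),(4,13),(4,20),(2,6),(1,3),(2,2),(1,24)]⟩),(.r (-2) ⟨11,[(0,3),
  (6,3),(5,7),(13,2),(0,8),(17,3)]⟩ ⟨22,[(1,6),(1,13),(3,6),(4,11),(4,16),(2,4),(1,4),(4,0),(4,
  1)]⟩),.k,⟨false,1,⟨3,[(27,0),(0,2)]⟩,⟨0,[(1,0),(3,0),(2,0),(7,0)]⟩⟩,⟨true,1,⟨0,[(2,0),(4,0)]⟩,⟨0,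
  [(1,0),(30,0)]⟩⟩,⟨false,0,⟨5,[(12,1),(4,1),(17,2),(0,2),(10,1)]⟩,⟨5,[(0,0),(6,0),(5,1),(32,3)]⟩⟩,
  ⟨false,0,⟨0,[(5,0)]⟩,⟨7,[(0,5),(10,1),(15,1),(0,1),(11,0),(6,2)]⟩⟩,⟨false,0,⟨11,[(12,7),(4,7),(9,
  2),(0,2),(18,1)]⟩,⟨2,[(0,0),(6,0),(5,1),(32,0)]⟩⟩,⟨true,0,⟨3,[(5,2),(1,0),(6,0),(1,0),(3,0)]⟩,⟨0,
  [(0,0)]⟩⟩,[.e ⟨false,0,⟨0,[]⟩,⟨3,[(27,0),(0,0),(17,1)]⟩⟩ ⟨false,1,⟨4,[(5,1),(1,2),(5,0),(32,3)]⟩,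
  ⟨23,[(0,17),(10,5),(0,7),(4,7),(22,2),(6,4)]⟩⟩,.a ⟨true,0,⟨0,[(6,0)]⟩,⟨2,[(0,2),(13,1),(14,0),(0,
  0)]⟩⟩ ⟨true,0,⟨3,[(35,0),(0,0),(6,1)]⟩,⟨0,[(49,0)]⟩⟩ ⟨false,1,⟨4,[(5,3),(1,0),(5,1),(32,2)]⟩,⟨5,
  [(0,3),(10,1),(5,1),(2,1),(6,0),(0,0),(3,1)]⟩⟩,.o ⟨false,0,⟨0,[(23,0),(8,0),(0,0)]⟩,⟨3,[(27,0),(0,
  0),(17,1)]⟩⟩,.o ⟨false,0,⟨0,[(32,0),(2,0)]⟩,⟨0,[(46,0)]⟩⟩]⟩) (.Q [0,0,-1,0,0,0,0,0,-1,-1,0,2] (.p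
  true [0,0,0,1] [1,0,0,-1] (⟨0,[(30,0)]⟩,⟨0,[(29,0)]⟩) .k 2 (⟨0,[(29,0)]⟩,⟨0,[(30,0)]⟩) .k (.r
  (-1) ⟨0,[(28,0)]⟩ ⟨4,[(1,1),(1,3),(2,0),(0,0),(19,1),(4,1)]⟩)) (.I [1,1,0,0,-1,0,0,0,-2] (.R ⟨1,
  false,false,false,[1,0,0,-1],[0,0,0,1],[1,1,0,0,0,0,0,0,-1],(⟨0,[(31,0)]⟩,⟨0,[(32,0)]⟩),(⟨0,[(32,
  0)]⟩,⟨0,[(31,0)]⟩),⟨0,[(6,0)]⟩,.k,.k,(.x (-1) ⟨15,[(12,3),(4,3),(3,3),(7,6),(0,6),(11,1)]⟩ ⟨0,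
  [(44,0)]⟩),.k,(.r 0 ⟨5,[(0,4),(14,2),(13,0),(19,0)]⟩ ⟨22,[(14,3),(1,0),(2,7),(2,3),(1,0),(4,3),(0,
  26),(7,1)]⟩),.k,⟨true,(-1),⟨0,[(0,0)]⟩,⟨3,[(30,3),(6,0),(0,0),(6,1)]⟩⟩,⟨false,0,⟨4,[(3,1),(20,0),
  (6,7),(10,1)]⟩,⟨1,[(1,1),(28,0),(17,0)]⟩⟩,⟨false,0,⟨0,[]⟩,⟨3,[(29,0),(0,0),(18,1)]⟩⟩,⟨false,1,⟨9,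
  [(3,7),(20,3),(5,9),(0,11),(10,2),(6,4)]⟩,⟨0,[(1,0),(3,0)]⟩⟩,⟨true,0,⟨0,[(46,0)]⟩,⟨0,[(47,0)]⟩⟩,
  ⟨false,1,⟨19,[(3,11),(9,9),(10,5),(5,14),(0,17),(10,6),(6,9)]⟩,⟨1,[(0,0),(0,1),(13,0)]⟩⟩,[.a
  ⟨true,0,⟨0,[(13,0),(33,1)]⟩,⟨1,[(8,0),(0,0)]⟩⟩ ⟨false,0,⟨1,[(0,0),(47,0),(2,0)]⟩,⟨1,[(30,0),(18,
  0)]⟩⟩ ⟨true,0,⟨9,[(3,7),(20,3),(5,4),(0,11),(10,2)]⟩,⟨0,[(1,0)]⟩⟩,.o ⟨false,1,⟨9,[(3,3),(20,1),(5,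
  4),(0,5),(10,3),(6,4)]⟩,⟨3,[(0,0),(0,1),(13,0),(6,1),(10,1)]⟩⟩,.o ⟨false,1,⟨7,[(1,3),(27,0),(0,2),
  (11,1),(5,1)]⟩,⟨4,[(3,1),(20,0),(6,2),(10,1)]⟩⟩,.e ⟨false,0,⟨0,[(5,0)]⟩,⟨1,[(30,0),(6,0),(0,0),
  (10,0)]⟩⟩ ⟨false,1,⟨9,[(3,3),(20,1),(5,4),(0,15),(10,3),(6,4)]⟩,⟨0,[(1,0)]⟩⟩]⟩) (.K ⟨1,[1,-1,0,
  -1],0,0,(⟨0,[(6,0)]⟩,⟨0,[(32,0),(11,0)]⟩),(.x (-1) ⟨15,[(12,3),(4,3),(3,3),(7,6),(0,6),(11,1)]⟩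
  ⟨0,[(44,0)]⟩),(.r (-1) ⟨15,[(3,3),(1,3),(3,3),(0,5),(4,9),(12,0),(0,3),(3,4),(2,0)]⟩ ⟨91,[(14,31),
  (1,7),(2,63),(2,31),(1,7),(4,8),(0,54),(7,15)]⟩),.k,.k,.k,[⟨5,[(3,1),(25,0),(0,0),(0,3),(6,1)]⟩,
  ⟨2,[(1,1),(1,0),(26,0),(3,1),(2,0)]⟩,⟨2,[(3,0),(9,0),(13,0),(2,0),(0,0),(19,1)]⟩,⟨0,[(8,0),(38,
  0)]⟩]⟩)) (.I [1,1,0,0,-1,0,0,0,-2] (.R ⟨1,false,false,false,[1,0,0,-1],[0,0,0,1],[1,1,0,0,0,0,0,0,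
  -1],(⟨0,[(31,0)]⟩,⟨0,[(32,0)]⟩),(⟨0,[(32,0)]⟩,⟨0,[(31,0)]⟩),⟨0,[(6,0)]⟩,.k,.k,(.x (-1) ⟨15,[(12,
  3),(4,3),(3,3),(7,6),(0,6),(11,1)]⟩ ⟨0,[(44,0)]⟩),.k,(.r 0 ⟨5,[(0,4),(14,2),(13,0),(19,0)]⟩ ⟨22,
  [(14,3),(1,0),(2,7),(2,3),(1,0),(4,3),(0,26),(7,1)]⟩),.k,⟨true,(-1),⟨0,[(0,0)]⟩,⟨3,[(30,3),(6,0),
  (0,0),(6,1)]⟩⟩,⟨false,0,⟨5,[(0,1),(0,5),(27,0),(19,0)]⟩,⟨0,[(4,0),(3,0),(23,0),(0,0),(1,0)]⟩⟩,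
  ⟨false,0,⟨0,[]⟩,⟨3,[(29,0),(0,0),(18,1)]⟩⟩,⟨false,1,⟨1,[(1,1),(28,0),(6,0),(0,0),(10,0)]⟩,⟨0,[(8,
  1),(24,0),(1,0)]⟩⟩,⟨true,0,⟨0,[(46,0)]⟩,⟨0,[(47,0)]⟩⟩,⟨false,1,⟨11,[(1,11),(12,3),(4,3),(9,2),(0,
  8),(18,3)]⟩,⟨0,[(8,1),(24,0),(1,0),(11,0)]⟩⟩,[.e ⟨false,0,⟨1,[(0,0),(47,0),(2,0)]⟩,⟨1,[(30,0),(18,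
  0)]⟩⟩ ⟨false,0,⟨0,[(1,0)]⟩,⟨9,[(4,2),(2,3),(1,8),(5,1),(16,6),(9,4)]⟩⟩,.o ⟨false,1,⟨15,[(1,7),(27,
  0),(0,4),(3,3),(2,3),(4,1),(6,7)]⟩,⟨0,[(8,0),(24,0),(1,0)]⟩⟩,.o ⟨false,1,⟨1,[(4,0),(4,0),(22,0),
  (9,0)]⟩,⟨35,[(0,3),(0,13),(1,7),(20,3),(4,2),(12,8),(2,1)]⟩⟩,.a ⟨true,0,⟨0,[(32,0)]⟩,⟨0,[(31,
  0)]⟩⟩ ⟨false,0,⟨0,[(5,0)]⟩,⟨1,[(30,0),(6,0),(0,0),(10,0)]⟩⟩ ⟨true,0,⟨0,[(1,0)]⟩,⟨0,[(8,0),(23,0),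
  (0,0),(1,0)]⟩⟩]⟩) (.K ⟨1,[1,-1,0,-1],0,0,(⟨0,[(6,0)]⟩,⟨0,[(32,0),(11,0)]⟩),(.x (-1) ⟨15,[(12,3),
  (4,3),(3,3),(7,6),(0,6),(11,1)]⟩ ⟨0,[(44,0)]⟩),(.r (-1) ⟨15,[(3,3),(1,3),(3,3),(0,5),(4,9),(12,0),
  (0,3),(3,4),(2,0)]⟩ ⟨91,[(14,31),(1,7),(2,63),(2,31),(1,7),(4,8),(0,54),(7,15)]⟩),.k,.k,.k,[⟨5,
  [(3,1),(25,0),(0,0),(0,3),(6,1)]⟩,⟨6,[(0,0),(7,1),(10,2),(12,4),(1,2),(0,2),(6,1),(4,2)]⟩,⟨2,[(3,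
  0),(9,0),(13,0),(2,0),(0,0),(19,1)]⟩,⟨0,[(8,0),(38,0)]⟩]⟩)))))) (.Q [0,0,0,1,0,0,0,0,0,1,0,-1]
  (.p false [0,0,0,1] [1] (⟨0,[(27,0)]⟩,⟨0,[(26,0)]⟩) .k 1 (⟨0,[]⟩,⟨0,[]⟩) .k .k) (.R ⟨1,false,
  false,true,[1,0,0,-1],[0,1],[1,0,0,0,0,0,0,0,-1],(⟨0,[(27,0)]⟩,⟨0,[(28,0)]⟩),(⟨0,[(40,0)]⟩,⟨0,
  [(39,0)]⟩),⟨0,[(2,0)]⟩,.k,.k,(.x (-1) ⟨15,[(8,3),(4,3),(3,3),(7,6),(0,6),(11,1)]⟩ ⟨0,[(40,0)]⟩),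
  (.x (-1) ⟨15,[(8,3),(4,3),(3,3),(7,6),(0,6),(11,1)]⟩ ⟨0,[(40,0)]⟩),(.r (-1) ⟨7,[(4,2),(0,0),(5,5),
  (13,1),(1,3),(1,3),(1,3),(11,3)]⟩ ⟨91,[(10,31),(1,7),(2,63),(2,31),(1,7),(4,8),(0,54),(7,15)]⟩),
  .k,⟨false,1,⟨3,[(4,2),(0,0),(5,1),(15,3),(10,1)]⟩,⟨0,[(1,0),(40,0)]⟩⟩,⟨true,0,⟨0,[(27,0)]⟩,⟨2,[(1,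
  0),(2,0),(10,0),(12,1),(1,0),(0,0),(6,0),(4,0)]⟩⟩,⟨true,0,⟨0,[]⟩,⟨0,[(47,0)]⟩⟩,⟨false,0,⟨1,[(1,0),
  (7,0),(17,0)]⟩,⟨21,[(4,11),(6,5),(13,4),(2,9),(9,10),(2,1),(1,9)]⟩⟩,⟨false,1,⟨5,[(12,1),(12,0),(0,
  0),(11,0),(6,2)]⟩,⟨0,[(43,0)]⟩⟩,⟨false,0,⟨0,[(9,0)]⟩,⟨21,[(4,11),(6,5),(13,4),(2,9),(9,10),(2,1),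
  (1,31)]⟩⟩,[.o ⟨false,0,⟨0,[(42,0)]⟩,⟨3,[(11,1),(18,1),(2,1),(4,0),(6,0)]⟩⟩,.a ⟨true,0,⟨2,[(12,0),
  (14,1),(0,1)]⟩,⟨0,[(43,0)]⟩⟩ ⟨true,0,⟨0,[(4,0),(16,0),(5,0),(2,0),(0,0)]⟩,⟨0,[(1,0),(45,0)]⟩⟩
  ⟨false,0,⟨0,[(0,0)]⟩,⟨5,[(5,1),(5,1),(14,0),(1,3),(9,2),(4,1)]⟩⟩,.o ⟨false,1,⟨13,[(3,3),(1,5),(5,
  1),(14,4),(1,3),(9,6)]⟩,⟨0,[(21,0),(5,0),(2,0),(0,0)]⟩⟩,.e ⟨false,1,⟨5,[(0,1),(2,1),(7,1),(13,1),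
  (12,0),(6,0)]⟩,⟨0,[(1,0)]⟩⟩ ⟨false,0,⟨0,[(0,0)]⟩,⟨3,[(11,1),(16,3),(1,1),(2,1),(4,0),(6,0)]⟩⟩]⟩)
  (.R ⟨1,false,false,true,[1,0,0,-1],[0,1],[1,0,0,0,0,0,0,0,-1],(⟨0,[(27,0)]⟩,⟨0,[(28,0)]⟩),(⟨0,
  [(40,0)]⟩,⟨0,[(39,0)]⟩),⟨0,[(2,0)]⟩,.k,.k,(.x (-1) ⟨15,[(8,3),(4,3),(3,3),(7,6),(0,6),(11,1)]⟩ ⟨0,
  [(40,0)]⟩),(.x (-1) ⟨15,[(8,3),(4,3),(3,3),(7,6),(0,6),(11,1)]⟩ ⟨0,[(40,0)]⟩),(.r (-1) ⟨7,[(4,2),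
  (0,0),(5,5),(13,1),(1,3),(1,3),(1,3),(11,3)]⟩ ⟨91,[(10,31),(1,7),(2,63),(2,31),(1,7),(4,8),(0,54),
  (7,15)]⟩),.k,⟨false,1,⟨3,[(4,2),(0,0),(5,1),(15,3),(10,1)]⟩,⟨0,[(1,0),(40,0)]⟩⟩,⟨true,0,⟨0,[(27,
  0)]⟩,⟨13,[(0,4),(9,0),(4,1),(2,0),(9,8),(1,4),(2,3),(4,1)]⟩⟩,⟨true,0,⟨0,[]⟩,⟨0,[(47,0)]⟩⟩,⟨false,
  0,⟨1,[(1,0),(7,0),(17,0)]⟩,⟨5,[(0,3),(2,1),(7,1),(13,1),(12,0),(6,0)]⟩⟩,⟨false,1,⟨5,[(12,1),(12,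
  0),(0,0),(11,0),(6,2)]⟩,⟨0,[(43,0)]⟩⟩,⟨false,0,⟨0,[(9,0)]⟩,⟨11,[(0,9),(3,1),(6,5),(13,4),(12,0),
  (2,1),(1,1)]⟩⟩,[.o ⟨false,0,⟨0,[(42,0)]⟩,⟨3,[(11,1),(18,1),(2,1),(4,0),(6,0)]⟩⟩,.e ⟨true,0,⟨0,[(4,
  0),(16,0),(5,0),(2,0),(0,0)]⟩,⟨0,[(1,0),(45,0)]⟩⟩ ⟨true,0,⟨21,[(9,7),(5,3),(0,1),(8,3),(1,13),(3,
  1),(1,0),(0,2)]⟩,⟨0,[(0,0)]⟩⟩,.o ⟨false,1,⟨25,[(0,3),(2,7),(1,13),(5,1),(14,10),(11,10),(6,1)]⟩,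
  ⟨0,[(21,0),(5,0),(2,0),(0,0)]⟩⟩,.a ⟨true,0,⟨0,[(28,0)]⟩,⟨0,[(27,0)]⟩⟩ ⟨false,1,⟨41,[(2,9),(0,15),
  (3,3),(3,7),(7,1),(5,12),(1,5),(10,7),(6,8)]⟩,⟨0,[(1,0)]⟩⟩ ⟨true,0,⟨0,[(27,0),(14,0)]⟩,⟨0,[(0,
  0)]⟩⟩]⟩))) (.R ⟨0,false,false,true,[1,0,0,-1],[1,0,-1],[1,1],(⟨0,[(25,0)]⟩,⟨0,[(26,0)]⟩),(⟨0,[(34,
  0)]⟩,⟨0,[(35,0)]⟩),⟨0,[(0,0)]⟩,.k,.k,(.x (-1) ⟨15,[(6,3),(4,3),(3,3),(7,6),(0,6),(11,1)]⟩ ⟨0,[(38,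
  0)]⟩),.k,.k,.k,⟨false,1,⟨39,[(4,17),(1,7),(1,11),(7,9),(4,1),(1,6),(0,6)]⟩,⟨0,[(33,0)]⟩⟩,⟨true,0,
  ⟨0,[(25,0),(2,0)]⟩,⟨18,[(0,9),(10,0),(3,4),(1,1),(4,6),(3,8),(9,0)]⟩⟩,⟨false,1,⟨3,[(23,0),(0,2)]⟩,
  ⟨0,[(2,0),(16,0),(5,0),(2,0),(0,0)]⟩⟩,⟨true,0,⟨0,[(7,0),(19,0),(13,1)]⟩,⟨0,[(2,0),(26,0)]⟩⟩,
  ⟨false,0,⟨0,[]⟩,⟨0,[]⟩⟩,⟨false,0,⟨0,[]⟩,⟨0,[]⟩⟩,[.o ⟨false,0,⟨0,[(27,0)]⟩,⟨0,[(29,0),(13,0)]⟩⟩,.e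
  ⟨true,0,⟨0,[]⟩,⟨1,[(31,0),(0,0)]⟩⟩ ⟨true,0,⟨0,[(25,0),(2,0),(4,0)]⟩,⟨1,[(0,1),(1,0),(1,0),(2,0),
  (3,0),(17,0),(4,0)]⟩⟩,.o ⟨false,1,⟨13,[(1,3),(1,5),(5,1),(14,4),(1,3),(9,6)]⟩,⟨0,[(19,0),(5,0),(2,
  0),(0,0)]⟩⟩,.a ⟨true,0,⟨0,[(26,0)]⟩,⟨0,[(25,0)]⟩⟩ ⟨false,1,⟨3,[(23,0),(0,0),(17,1)]⟩,⟨3,[(31,0),
  (0,0),(6,1)]⟩⟩ ⟨true,0,⟨0,[(25,0),(1,0)]⟩,⟨1,[(0,1),(1,0),(1,0),(2,0),(3,0),(17,0),(4,0)]⟩⟩]⟩))))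
  (.I [0,-1,0,-1,0,0,0,0,-1] (.Q [0,0,0,0,0,-1,0,0,0,1,0,-1] (.ed true [0,1,0,1] .k) (.Q [0,0,0,1,0,
  0,0,0,0,1,0,-1] (.p false [0,0,0,1] [1] (⟨0,[(25,0)]⟩,⟨0,[(24,0)]⟩) .k 1 (⟨0,[]⟩,⟨0,[]⟩) .k .k)
  (.R ⟨1,false,false,true,[1,0,0,-1],[0,1],[0,0,0,-1,0,0,0,0,-1],(⟨0,[(25,0)]⟩,⟨0,[(26,0)]⟩),(⟨0,
  [(38,0)]⟩,⟨0,[(37,0)]⟩),⟨0,[(1,0)]⟩,.k,.k,(.x (-1) ⟨15,[(6,3),(4,3),(3,3),(7,6),(0,6),(11,1)]⟩ ⟨0,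
  [(38,0)]⟩),(.x (-1) ⟨15,[(6,3),(4,3),(3,3),(7,6),(0,6),(11,1)]⟩ ⟨0,[(38,0)]⟩),(.r (-1) ⟨13,[(2,9),
  (1,8),(0,2),(9,4),(1,3),(4,1),(0,1),(3,6),(2,1),(14,0)]⟩ ⟨91,[(8,31),(1,7),(2,63),(2,31),(1,7),(4,
  8),(0,54),(7,15)]⟩),.k,⟨false,1,⟨23,[(2,19),(1,4),(0,2),(3,8),(5,4),(1,3),(5,1),(3,4),(14,4)]⟩,⟨6,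
  [(3,0),(6,0),(1,0),(0,2),(2,3),(4,2),(2,2),(1,0)]⟩⟩,⟨true,0,⟨0,[(25,0)]⟩,⟨0,[(19,0),(6,0),(1,0),
  (0,0)]⟩⟩,⟨true,0,⟨0,[(41,0)]⟩,⟨0,[(40,0)]⟩⟩,⟨false,0,⟨0,[(7,0),(33,0)]⟩,⟨1,[(2,1),(23,1),(9,0),(5,
  0)]⟩⟩,⟨false,1,⟨3,[(23,0),(0,0),(18,1)]⟩,⟨0,[]⟩⟩,⟨false,0,⟨0,[(7,0)]⟩,⟨19,[(2,17),(1,3),(4,5),(12,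
  1),(0,0),(2,19),(0,3),(8,8),(4,1)]⟩⟩,[.o ⟨false,0,⟨0,[(40,0)]⟩,⟨3,[(9,1),(18,1),(2,1),(4,0),(6,
  0)]⟩⟩,.a ⟨true,0,⟨2,[(10,0),(14,1),(0,1)]⟩,⟨0,[(41,0)]⟩⟩ ⟨true,0,⟨0,[(2,0)]⟩,⟨1,[(13,0),(7,0),(2,
  0),(4,0)]⟩⟩ ⟨false,0,⟨0,[(0,0)]⟩,⟨7,[(4,1),(4,1),(12,0),(3,7),(0,0),(2,0),(5,3)]⟩⟩,.o ⟨false,1,⟨1,
  [(26,1),(9,0),(5,0)]⟩,⟨9,[(2,1),(0,1),(9,1),(11,7),(1,0),(0,2),(0,2),(1,0),(4,1)]⟩⟩,.e ⟨false,1,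
  ⟨5,[(2,1),(6,1),(13,1),(18,0),(0,0)]⟩,⟨13,[(3,7),(6,0),(1,0),(0,2),(2,3),(4,2),(2,2),(1,7)]⟩⟩
  ⟨false,0,⟨0,[(0,0)]⟩,⟨3,[(9,1),(16,3),(1,1),(2,1),(4,0),(6,0)]⟩⟩]⟩) (.R ⟨1,false,false,true,[1,0,
  0,-1],[0,1],[0,0,0,-1,0,0,0,0,-1],(⟨0,[(25,0)]⟩,⟨0,[(26,0)]⟩),(⟨0,[(38,0)]⟩,⟨0,[(37,0)]⟩),⟨0,[(1,
  0)]⟩,.k,.k,(.x (-1) ⟨15,[(6,3),(4,3),(3,3),(7,6),(0,6),(11,1)]⟩ ⟨0,[(38,0)]⟩),(.x (-1) ⟨15,[(6,3),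
  (4,3),(3,3),(7,6),(0,6),(11,1)]⟩ ⟨0,[(38,0)]⟩),(.r (-1) ⟨13,[(2,9),(1,8),(0,2),(9,4),(1,3),(4,1),
  (0,1),(3,6),(2,1),(14,0)]⟩ ⟨91,[(8,31),(1,7),(2,63),(2,31),(1,7),(4,8),(0,54),(7,15)]⟩),.k,⟨false,
  1,⟨23,[(2,19),(1,4),(0,2),(3,8),(5,4),(1,3),(5,1),(3,4),(14,4)]⟩,⟨10,[(0,0),(2,0),(6,1),(1,0),(0,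
  4),(2,5),(4,4),(2,4)]⟩⟩,⟨true,0,⟨0,[(25,0)]⟩,⟨13,[(0,4),(7,0),(4,1),(2,0),(9,8),(1,4),(2,3),(4,
  1)]⟩⟩,⟨true,0,⟨0,[(41,0)]⟩,⟨0,[(40,0)]⟩⟩,⟨false,0,⟨0,[(7,0),(33,0)]⟩,⟨9,[(0,9),(1,5),(7,1),(12,1),
  (12,0),(5,4),(0,1)]⟩⟩,⟨false,1,⟨3,[(23,0),(0,0),(18,1)]⟩,⟨0,[]⟩⟩,⟨false,0,⟨0,[(7,0)]⟩,⟨5,[(0,5),
  (1,1),(6,1),(13,1),(18,0),(0,0)]⟩⟩,[.o ⟨false,0,⟨0,[(40,0)]⟩,⟨15,[(0,7),(2,7),(5,3),(13,4),(0,0),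
  (11,3),(6,1)]⟩⟩,.e ⟨true,0,⟨0,[(2,0)]⟩,⟨1,[(13,0),(7,0),(2,0),(4,0)]⟩⟩ ⟨true,0,⟨21,[(7,7),(5,3),
  (0,1),(8,3),(1,13),(3,1),(1,0),(0,2)]⟩,⟨0,[(0,0)]⟩⟩,.o ⟨false,1,⟨1,[(26,1),(9,0),(5,0)]⟩,⟨9,[(2,
  1),(0,1),(9,1),(11,7),(1,0),(0,2),(0,2),(1,0),(4,1)]⟩⟩,.a ⟨true,0,⟨0,[(26,0)]⟩,⟨0,[(25,0)]⟩⟩
  ⟨false,1,⟨5,[(2,1),(6,1),(13,1),(18,0),(0,0)]⟩,⟨0,[(0,0),(6,0)]⟩⟩ ⟨true,0,⟨0,[(25,0),(14,0)]⟩,⟨0,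
  [(0,0)]⟩⟩]⟩)) (.Q [0,0,0,0,0,0,-1,-1,0,-1,1,1] (.p true [0,0,1] [1,0,0,-1] (⟨0,[(34,0)]⟩,⟨0,[(33,
  0)]⟩) .k 2 (⟨0,[(24,0)]⟩,⟨0,[(25,0)]⟩) .k (.r (-1) ⟨11,[(3,3),(3,3),(14,0),(0,6),(4,3),(2,3)]⟩ ⟨7,
  [(1,7),(7,0),(1,4),(9,3),(7,2)]⟩)) (.R ⟨0,false,false,true,[1,0,0,-1],[0,0,1],[0,0,0,-1,0,0,0,0,
  -1],(⟨0,[(25,0)]⟩,⟨0,[(26,0)]⟩),(⟨0,[(35,0)]⟩,⟨0,[(34,0)]⟩),⟨0,[(1,0)]⟩,.k,.k,(.x (-1) ⟨15,[(6,3),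
  (4,3),(3,3),(7,6),(0,6),(11,1)]⟩ ⟨0,[(38,0)]⟩),.k,.k,.k,⟨true,0,⟨0,[(2,0),(30,0)]⟩,⟨0,[(3,0),(17,
  0),(4,0),(2,0)]⟩⟩,⟨false,0,⟨0,[(19,0),(5,0),(3,0)]⟩,⟨4,[(6,2),(11,0),(7,4),(9,1)]⟩⟩,⟨true,0,⟨0,
  [(41,0)]⟩,⟨0,[(40,0)]⟩⟩,⟨false,0,⟨0,[(3,0),(21,0),(0,0),(2,0)]⟩,⟨9,[(0,9),(1,5),(7,1),(12,1),(12,
  0),(5,4),(0,1)]⟩⟩,⟨false,0,⟨0,[]⟩,⟨0,[]⟩⟩,⟨false,0,⟨0,[]⟩,⟨0,[]⟩⟩,[.o ⟨false,0,⟨0,[(29,0)]⟩,⟨0,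
  [(27,0),(15,0)]⟩⟩,.e ⟨true,0,⟨0,[(2,0)]⟩,⟨1,[(13,0),(7,0),(2,0),(4,0)]⟩⟩ ⟨true,0,⟨1,[(14,0),(10,
  1),(3,0),(1,0),(9,0)]⟩,⟨0,[(0,0)]⟩⟩,.o ⟨false,1,⟨1,[(26,1),(9,0),(5,0)]⟩,⟨9,[(2,1),(0,1),(9,1),
  (11,7),(1,0),(0,2),(0,2),(1,0),(4,1)]⟩⟩,.a ⟨true,0,⟨0,[(26,0)]⟩,⟨0,[(25,0)]⟩⟩ ⟨false,1,⟨5,[(2,1),
  (6,1),(13,1),(18,0),(0,0)]⟩,⟨9,[(1,3),(1,2),(3,2),(3,0),(1,0),(1,0),(0,0),(4,1),(2,1),(1,1)]⟩⟩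
  ⟨true,0,⟨0,[(25,0),(3,0)]⟩,⟨0,[(0,0)]⟩⟩]⟩) (.R ⟨0,false,false,true,[1,0,0,-1],[0,1],[0,0,0,-1,0,0,
  0,0,-1],(⟨0,[(25,0)]⟩,⟨0,[(26,0)]⟩),(⟨0,[(38,0)]⟩,⟨0,[(37,0)]⟩),⟨0,[(1,0)]⟩,.k,.k,(.x (-1) ⟨15,
  [(6,3),(4,3),(3,3),(7,6),(0,6),(11,1)]⟩ ⟨0,[(38,0)]⟩),(.x (-1) ⟨15,[(6,3),(4,3),(3,3),(7,6),(0,6),
  (11,1)]⟩ ⟨0,[(38,0)]⟩),.k,.k,⟨false,1,⟨23,[(2,19),(1,4),(0,2),(3,8),(5,4),(1,3),(5,1),(3,4),(14,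
  4)]⟩,⟨93,[(1,7),(1,7),(6,14),(0,1),(0,8),(0,40),(1,1),(0,49),(4,42),(2,42)]⟩⟩,⟨true,0,⟨0,[(25,
  0)]⟩,⟨8,[(1,3),(9,0),(3,0),(10,4),(1,3),(2,2),(4,0)]⟩⟩,⟨true,0,⟨0,[(41,0)]⟩,⟨0,[(40,0)]⟩⟩,⟨false,
  0,⟨0,[(7,0),(33,0)]⟩,⟨1,[(2,1),(23,1),(9,0),(5,0)]⟩⟩,⟨false,0,⟨0,[]⟩,⟨0,[]⟩⟩,⟨false,0,⟨0,[]⟩,⟨0,
  []⟩⟩,[.o ⟨false,0,⟨0,[(40,0)]⟩,⟨3,[(9,1),(18,1),(2,1),(4,0),(6,0)]⟩⟩,.a ⟨true,0,⟨2,[(10,0),(14,1),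
  (0,1)]⟩,⟨0,[(41,0)]⟩⟩ ⟨true,0,⟨0,[(2,0)]⟩,⟨1,[(13,0),(7,0),(2,0),(4,0)]⟩⟩ ⟨false,0,⟨0,[(0,0),(5,
  0),(6,0)]⟩,⟨7,[(4,1),(4,1),(12,0),(3,7),(0,0),(2,0),(5,3)]⟩⟩,.o ⟨false,1,⟨1,[(26,1),(9,0),(5,0)]⟩,
  ⟨4,[(0,2),(2,1),(9,0),(9,0),(3,1),(0,0),(12,0)]⟩⟩,.e ⟨false,1,⟨5,[(2,1),(6,1),(13,1),(18,0),(0,
  0)]⟩,⟨9,[(1,3),(1,2),(3,2),(3,0),(1,0),(1,0),(0,0),(4,1),(2,1),(1,1)]⟩⟩ ⟨false,0,⟨0,[(0,0),(5,0),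
  (6,0)]⟩,⟨3,[(9,1),(16,3),(1,1),(2,1),(4,0),(6,0)]⟩⟩]⟩))) (.I [0,0,1,1,0,0,0,0,-1] (.I [1,0,0,1,0,
  0,0,0,1] (.Q [0,0,0,-1,0,0,-1,-1,0,-1,1,1] (.p true [0,0,1] [1,0,0,-1] (⟨0,[(35,0)]⟩,⟨0,[(34,
  0)]⟩) .k 2 (⟨0,[(25,0)]⟩,⟨0,[(26,0)]⟩) .k (.x 0 ⟨0,[(31,0),(3,0)]⟩ ⟨39,[(5,19),(0,3),(8,19),(2,7),
  (4,4),(0,4),(11,5)]⟩)) (.Q [0,0,0,0,0,0,1,1,0,0,-1,1] (.p false [0,0,1] [0,0,0,1] (⟨0,[(36,0)]⟩,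
  ⟨0,[(35,0)]⟩) .k 2 (⟨0,[(27,0)]⟩,⟨0,[(26,0)]⟩) .k (.r (-1) ⟨11,[(5,3),(3,3),(14,6),(0,0),(4,3),(2,
  3)]⟩ ⟨0,[(1,0),(32,0),(7,0)]⟩)) (.Q [0,0,-2,0,1,0,0,0,0,-1,0,1] (.p true [0,0,0,1] [1] (⟨0,[(28,
  0)]⟩,⟨0,[(27,0)]⟩) .k 1 (⟨0,[]⟩,⟨0,[]⟩) .k .k) (.R ⟨1,false,false,true,[0,0,0,1],[0,-1,1],[1,1,0,
  0,0,0,0,0,1],(⟨0,[(29,0)]⟩,⟨0,[(28,0)]⟩),(⟨1,[(9,0),(4,0),(23,0)]⟩,⟨0,[(37,0),(3,0)]⟩),⟨7,[(1,2),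
  (0,2),(6,1),(3,0),(0,1),(3,1),(10,1)]⟩,.k,.k,(.r (-1) ⟨7,[(7,1),(4,1),(12,0),(1,3),(2,0),(2,0)]⟩
  ⟨0,[(4,0)]⟩),(.r 0 ⟨15,[(3,1),(9,1),(2,7),(10,6),(8,7),(2,0)]⟩ ⟨0,[(4,0),(2,0)]⟩),.k,.k,⟨false,0,
  ⟨0,[(3,0),(32,0)]⟩,⟨0,[(4,0),(2,0)]⟩⟩,⟨true,0,⟨4,[(0,0),(0,1),(0,0),(13,0),(8,1),(3,0)]⟩,⟨0,[(28,
  0),(2,0)]⟩⟩,⟨false,0,⟨0,[]⟩,⟨3,[(26,0),(0,0),(18,1)]⟩⟩,⟨false,1,⟨13,[(0,0),(0,9),(0,1),(4,5),(17,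
  2),(0,6),(2,0)]⟩,⟨5,[(3,1),(2,3),(6,0),(1,0),(5,1),(0,3),(5,1),(4,0)]⟩⟩,⟨true,0,⟨0,[(43,0)]⟩,⟨0,
  [(44,0)]⟩⟩,⟨false,1,⟨1,[(1,1),(24,0),(18,0)]⟩,⟨3,[(2,0),(0,0),(2,2),(14,0),(0,1),(5,1),(4,0)]⟩⟩,
  [.o ⟨false,0,⟨0,[(32,0),(11,0)]⟩,⟨0,[(15,0),(30,0)]⟩⟩,.a ⟨true,0,⟨0,[(1,0),(26,0),(15,0)]⟩,⟨0,[(9,
  0),(6,0)]⟩⟩ ⟨true,0,⟨0,[(3,0),(40,0)]⟩,⟨0,[(4,0),(39,0)]⟩⟩ ⟨false,1,⟨5,[(0,1),(0,2),(5,2),(1,0),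
  (15,1),(3,0)]⟩,⟨20,[(6,4),(3,2),(4,10),(0,3),(4,4),(0,5),(3,3),(1,12)]⟩⟩,.o ⟨false,0,⟨0,[(22,0),
  (5,0),(2,0),(0,0)]⟩,⟨7,[(0,3),(25,0),(0,0),(1,3),(9,1)]⟩⟩,.o ⟨false,0,⟨0,[(28,0),(2,0),(2,0)]⟩,⟨0,
  [(0,0)]⟩⟩]⟩) (.R ⟨1,false,false,false,[1,0,0,-1],[1,-1],[0,0,0,-1,0,0,0,0,-1],(⟨0,[(28,0)]⟩,⟨0,
  [(29,0)]⟩),(⟨0,[(40,0)]⟩,⟨0,[(41,0)]⟩),⟨2,[(0,1),(6,0),(3,0),(0,0),(2,1),(2,1),(1,0),(7,0)]⟩,.k,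
  .k,(.x (-1) ⟨15,[(9,3),(4,3),(3,3),(7,6),(0,6),(11,1)]⟩ ⟨0,[(41,0)]⟩),(.r 0 ⟨0,[(4,0)]⟩ ⟨7,[(7,1),
  (4,1),(12,0),(1,3),(2,0),(2,0)]⟩),.k,.k,⟨true,0,⟨0,[(4,0),(39,0)]⟩,⟨0,[(3,0),(40,0)]⟩⟩,⟨false,0,
  ⟨1,[(0,0),(27,0),(10,0)]⟩,⟨0,[(29,0),(15,0)]⟩⟩,⟨true,0,⟨0,[(44,0)]⟩,⟨0,[(43,0)]⟩⟩,⟨false,0,⟨0,[(6,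
  0),(37,0)]⟩,⟨1,[(1,0),(0,0),(10,0),(12,0),(18,0)]⟩⟩,⟨false,1,⟨3,[(26,0),(0,0),(18,1)]⟩,⟨0,[]⟩⟩,
  ⟨false,0,⟨0,[(6,0)]⟩,⟨1,[(26,0),(2,1),(15,0)]⟩⟩,[.a ⟨true,0,⟨0,[(44,0)]⟩,⟨2,[(13,0),(14,1),(0,
  1)]⟩⟩ ⟨false,1,⟨7,[(7,1),(4,1),(12,0),(0,3),(3,0),(2,0)]⟩,⟨0,[(3,0)]⟩⟩ ⟨true,0,⟨1,[(0,0),(27,0),
  (10,0),(4,1)]⟩,⟨1,[(1,0),(0,0),(10,0)]⟩⟩,.o ⟨false,1,⟨3,[(12,1),(18,1),(2,1),(4,0),(6,0)]⟩,⟨0,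
  [(43,0)]⟩⟩,.o ⟨false,1,⟨1,[(29,1),(9,0),(5,0)]⟩,⟨1,[(0,0),(27,0),(10,0)]⟩⟩,.e ⟨false,1,⟨0,[(4,0),
  (7,0)]⟩,⟨22,[(0,0),(0,1),(3,5),(0,0),(4,4),(4,6),(4,0),(5,7)]⟩⟩ ⟨false,1,⟨7,[(0,1),(5,3),(5,3),
  (13,2),(0,0),(0,1),(10,1)]⟩,⟨1,[(1,0),(0,0),(10,0)]⟩⟩]⟩)) (.Q [0,0,0,0,0,-1,0,0,0,1,0,-1] (.ed
  true [0,1,0,1] .k) (.R ⟨1,false,false,false,[1,0,0,-1],[1,0,-1],[0,0,0,-1,0,0,0,0,-1],(⟨0,[(28,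
  0)]⟩,⟨0,[(29,0)]⟩),(⟨0,[(37,0)]⟩,⟨0,[(38,0)]⟩),⟨0,[(0,0)]⟩,.k,.k,(.x (-1) ⟨15,[(9,3),(4,3),(3,3),
  (7,6),(0,6),(11,1)]⟩ ⟨0,[(41,0)]⟩),.k,(.r (-1) ⟨0,[(4,0),(2,0)]⟩ ⟨15,[(3,1),(9,1),(2,7),(10,6),(8,
  7),(2,0)]⟩),.k,⟨false,1,⟨0,[(4,0),(2,0)]⟩,⟨0,[(3,0),(32,0)]⟩⟩,⟨true,0,⟨0,[(28,0),(2,0)]⟩,⟨0,[(22,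
  0),(6,0),(2,0)]⟩⟩,⟨true,0,⟨0,[(44,0)]⟩,⟨0,[(43,0)]⟩⟩,⟨false,0,⟨2,[(1,0),(0,0),(0,0),(2,1),(21,0),
  (4,0),(8,0)]⟩,⟨0,[(4,0),(7,0),(6,0),(9,0)]⟩⟩,⟨false,1,⟨3,[(26,0),(0,0),(18,1)]⟩,⟨0,[]⟩⟩,⟨false,0,
  ⟨2,[(1,0),(1,0),(2,0),(3,0),(10,0),(0,1)]⟩,⟨0,[(4,0),(7,0),(16,0),(2,0)]⟩⟩,[.e ⟨false,1,⟨7,[(7,1),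
  (4,1),(12,0),(0,3),(3,0),(2,0)]⟩,⟨0,[(3,0)]⟩⟩ ⟨false,0,⟨0,[(1,0)]⟩,⟨23,[(7,7),(11,15),(5,3),(0,0),
  (0,0),(1,23),(9,1),(5,3),(0,7)]⟩⟩,.o ⟨false,1,⟨3,[(1,0),(0,0),(12,0),(17,0),(5,0),(6,2)]⟩,⟨0,[(32,
  0)]⟩⟩,.o ⟨false,1,⟨1,[(29,1),(9,0),(5,0)]⟩,⟨5,[(1,2),(4,1),(9,0),(9,0),(1,0),(2,0),(0,3),(9,0),(1,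
  0)]⟩⟩,.a ⟨true,0,⟨0,[(29,0)]⟩,⟨0,[(28,0)]⟩⟩ ⟨false,1,⟨0,[(4,0),(7,0)]⟩,⟨2,[(5,0),(10,0),(0,0),(9,
  0)]⟩⟩ ⟨true,0,⟨0,[(1,0)]⟩,⟨0,[(29,0),(2,0)]⟩⟩]⟩) (.R ⟨0,false,false,false,[1,0,0,-1],[1,0,-1],[0,
  0,0,-1,0,0,0,0,-1],(⟨0,[(28,0)]⟩,⟨0,[(29,0)]⟩),(⟨0,[(37,0)]⟩,⟨0,[(38,0)]⟩),⟨0,[(0,0)]⟩,.k,.k,(.x
  (-1) ⟨15,[(9,3),(4,3),(3,3),(7,6),(0,6),(11,1)]⟩ ⟨0,[(41,0)]⟩),.k,.k,.k,⟨false,1,⟨0,[(4,0),(2,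
  0)]⟩,⟨0,[(3,0),(32,0)]⟩⟩,⟨true,0,⟨0,[(28,0),(2,0)]⟩,⟨18,[(0,9),(13,0),(3,4),(1,1),(4,6),(3,8),(9,
  0)]⟩⟩,⟨true,0,⟨0,[(44,0)]⟩,⟨0,[(43,0)]⟩⟩,⟨false,0,⟨2,[(1,0),(0,0),(0,0),(2,1),(21,0),(4,0),(8,
  0)]⟩,⟨31,[(0,18),(6,12),(0,1),(2,8),(0,0),(5,15),(0,9),(0,8),(4,2),(0,15),(2,12)]⟩⟩,⟨false,0,⟨0,
  []⟩,⟨0,[]⟩⟩,⟨false,0,⟨0,[]⟩,⟨0,[]⟩⟩,[.e ⟨false,1,⟨7,[(7,1),(4,1),(12,0),(0,3),(3,0),(2,0)]⟩,⟨0,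
  [(3,0)]⟩⟩ ⟨false,0,⟨0,[(1,0)]⟩,⟨23,[(7,7),(11,15),(5,3),(0,0),(0,0),(1,23),(9,1),(5,3),(0,7)]⟩⟩,
  .o ⟨false,1,⟨3,[(1,0),(0,0),(12,0),(17,0),(5,0),(6,2)]⟩,⟨0,[(32,0)]⟩⟩,.o ⟨false,1,⟨1,[(29,1),(9,
  0),(5,0)]⟩,⟨5,[(1,2),(4,1),(9,0),(9,0),(1,0),(2,0),(0,3),(9,0),(1,0)]⟩⟩,.a ⟨true,0,⟨0,[(29,0)]⟩,
  ⟨0,[(28,0)]⟩⟩ ⟨false,1,⟨0,[(4,0),(7,0)]⟩,⟨2,[(5,0),(10,0),(0,0),(9,0)]⟩⟩ ⟨true,0,⟨0,[(1,0)]⟩,⟨0,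
  [(29,0),(2,0)]⟩⟩]⟩))) (.Q [0,0,0,-1,0,0,0,0,0,0,0,-1] (.p false [0,0,0,1] [] (⟨0,[(27,0)]⟩,⟨0,
  [(26,0)]⟩) .k 0 (⟨0,[]⟩,⟨0,[]⟩) .k .k) (.R ⟨1,false,false,false,[1,0,0,-1],[1,-1],[0,0,0,-1,0,0,0,
  0,-1],(⟨0,[(27,0)]⟩,⟨0,[(28,0)]⟩),(⟨0,[(39,0)]⟩,⟨0,[(40,0)]⟩),⟨7,[(0,2),(7,1),(3,0),(0,1),(3,1),
  (9,4)]⟩,.k,.k,(.x (-1) ⟨15,[(8,3),(4,3),(3,3),(7,6),(0,6),(11,1)]⟩ ⟨0,[(40,0)]⟩),(.r 0 ⟨0,[(3,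
  0)]⟩ ⟨7,[(6,1),(4,1),(12,0),(1,3),(2,0),(2,0)]⟩),.k,.k,⟨true,0,⟨0,[(3,0),(39,0)]⟩,⟨0,[(2,0),(40,
  0)]⟩⟩,⟨false,0,⟨3,[(0,2),(2,0),(5,0),(20,0),(2,0)]⟩,⟨0,[(28,0),(15,0)]⟩⟩,⟨true,0,⟨0,[(43,0)]⟩,⟨0,
  [(42,0)]⟩⟩,⟨false,0,⟨0,[(5,0),(37,0)]⟩,⟨0,[(3,0),(24,0),(15,0)]⟩⟩,⟨false,1,⟨3,[(25,0),(0,0),(18,
  1)]⟩,⟨0,[]⟩⟩,⟨false,0,⟨0,[(5,0)]⟩,⟨1,[(25,0),(2,1),(15,0)]⟩⟩,[.e ⟨false,1,⟨7,[(6,1),(4,1),(12,0),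
  (0,3),(3,0),(2,0)]⟩,⟨0,[(2,0)]⟩⟩ ⟨false,0,⟨0,[(0,0)]⟩,⟨5,[(12,1),(12,0),(0,0),(1,5),(9,0),(5,
  2)]⟩⟩,.o ⟨false,1,⟨3,[(11,1),(18,1),(2,1),(4,0),(6,0)]⟩,⟨0,[(42,0)]⟩⟩,.o ⟨false,1,⟨1,[(28,1),(9,
  0),(5,0)]⟩,⟨3,[(0,2),(2,0),(5,0),(20,0),(2,0)]⟩⟩,.a ⟨true,0,⟨0,[(28,0)]⟩,⟨0,[(27,0)]⟩⟩ ⟨false,1,
  ⟨0,[(3,0),(7,0)]⟩,⟨2,[(4,0),(10,0),(0,0),(9,0)]⟩⟩ ⟨true,0,⟨0,[(0,0)]⟩,⟨0,[(28,0),(13,0)]⟩⟩]⟩) (.Q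
  [0,0,0,0,0,-1,0,0,0,1,0,-1] (.ed true [0,1,0,1] .k) (.R ⟨1,false,false,false,[1,0,0,-1],[1,-1],[0,
  0,0,-1,0,0,0,0,-1],(⟨0,[(28,0)]⟩,⟨0,[(29,0)]⟩),(⟨0,[(40,0)]⟩,⟨0,[(41,0)]⟩),⟨0,[(0,0)]⟩,.k,.k,(.x
  (-1) ⟨15,[(9,3),(4,3),(3,3),(7,6),(0,6),(11,1)]⟩ ⟨0,[(41,0)]⟩),(.r 0 ⟨0,[(4,0)]⟩ ⟨7,[(7,1),(4,1),
  (12,0),(1,3),(2,0),(2,0)]⟩),.k,.k,⟨true,0,⟨0,[(4,0),(39,0)]⟩,⟨0,[(3,0),(40,0)]⟩⟩,⟨false,0,⟨2,[(2,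
  0),(13,0),(11,1),(2,0),(7,0),(4,1)]⟩,⟨0,[(29,0),(15,0)]⟩⟩,⟨true,0,⟨0,[(44,0)]⟩,⟨0,[(43,0)]⟩⟩,
  ⟨false,0,⟨0,[(6,0),(37,0)]⟩,⟨1,[(1,1),(24,0),(18,0)]⟩⟩,⟨false,1,⟨3,[(26,0),(0,0),(18,1)]⟩,⟨0,[]⟩⟩,
  ⟨false,0,⟨0,[(6,0)]⟩,⟨1,[(26,0),(2,1),(15,0)]⟩⟩,[.a ⟨true,0,⟨0,[(44,0)]⟩,⟨2,[(13,0),(14,1),(0,
  1)]⟩⟩ ⟨false,1,⟨7,[(7,1),(4,1),(12,0),(0,3),(3,0),(2,0)]⟩,⟨0,[(3,0)]⟩⟩ ⟨true,0,⟨2,[(2,0),(13,0),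
  (11,1),(2,0),(7,0),(4,4)]⟩,⟨0,[(1,0)]⟩⟩,.o ⟨false,1,⟨3,[(12,1),(18,1),(2,1),(4,0),(6,0)]⟩,⟨0,[(43,
  0)]⟩⟩,.o ⟨false,1,⟨1,[(29,1),(9,0),(5,0)]⟩,⟨2,[(2,0),(13,0),(11,1),(2,0),(7,0),(4,1)]⟩⟩,.e ⟨false,
  1,⟨0,[(4,0),(7,0)]⟩,⟨2,[(5,0),(10,0),(0,0),(9,0)]⟩⟩ ⟨false,1,⟨11,[(6,9),(0,1),(4,3),(13,4),(1,1),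
  (4,1),(0,1),(4,0)]⟩,⟨0,[(1,0)]⟩⟩]⟩) (.R ⟨0,false,false,false,[1,0,0,-1],[1,-1],[0,0,0,-1,0,0,0,0,
  -1],(⟨0,[(28,0)]⟩,⟨0,[(29,0)]⟩),(⟨0,[(40,0)]⟩,⟨0,[(41,0)]⟩),⟨0,[(0,0)]⟩,.k,.k,(.x (-1) ⟨15,[(9,3),
  (4,3),(3,3),(7,6),(0,6),(11,1)]⟩ ⟨0,[(41,0)]⟩),(.r 0 ⟨0,[(4,0)]⟩ ⟨7,[(7,1),(4,1),(12,0),(1,3),(2,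
  0),(2,0)]⟩),.k,.k,⟨true,0,⟨0,[(4,0),(39,0)]⟩,⟨0,[(3,0),(40,0)]⟩⟩,⟨false,0,⟨2,[(2,0),(13,0),(11,1),
  (2,0),(7,0),(4,1)]⟩,⟨0,[(29,0),(15,0)]⟩⟩,⟨true,0,⟨0,[(44,0)]⟩,⟨0,[(43,0)]⟩⟩,⟨false,0,⟨0,[(6,0),
  (37,0)]⟩,⟨1,[(1,1),(24,0),(18,0)]⟩⟩,⟨false,0,⟨0,[]⟩,⟨0,[]⟩⟩,⟨false,0,⟨0,[]⟩,⟨0,[]⟩⟩,[.a ⟨true,0,
  ⟨0,[(44,0)]⟩,⟨2,[(13,0),(14,1),(0,1)]⟩⟩ ⟨false,1,⟨7,[(7,1),(4,1),(12,0),(0,3),(3,0),(2,0)]⟩,⟨0,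
  [(3,0)]⟩⟩ ⟨true,0,⟨2,[(2,0),(13,0),(11,1),(2,0),(7,0),(4,4)]⟩,⟨0,[(1,0)]⟩⟩,.o ⟨false,1,⟨3,[(12,1),
  (18,1),(2,1),(4,0),(6,0)]⟩,⟨0,[(43,0)]⟩⟩,.o ⟨false,1,⟨1,[(29,1),(9,0),(5,0)]⟩,⟨2,[(2,0),(13,0),
  (11,1),(2,0),(7,0),(4,1)]⟩⟩,.e ⟨false,1,⟨0,[(4,0),(7,0)]⟩,⟨2,[(5,0),(10,0),(0,0),(9,0)]⟩⟩ ⟨false,
  1,⟨11,[(6,9),(0,1),(4,3),(13,4),(1,1),(4,1),(0,1),(4,0)]⟩,⟨0,[(1,0)]⟩⟩]⟩)))) (.Q [0,0,0,0,0,-1,0,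
  0,0,1,0,-1] (.ed true [0,1,0,1] .k) (.Q [0,0,0,1,0,0,0,0,0,1,0,-1] (.p false [0,0,0,1] [1] (⟨0,
  [(27,0)]⟩,⟨0,[(26,0)]⟩) .k 1 (⟨0,[]⟩,⟨0,[]⟩) .k .k) (.R ⟨1,false,false,true,[1,0,0,-1],[0,1],[0,1,
  0,-1,0,0,0,0,-1],(⟨0,[(27,0)]⟩,⟨0,[(28,0)]⟩),(⟨0,[(40,0)]⟩,⟨0,[(39,0)]⟩),⟨0,[(1,0)]⟩,.k,.k,(.x
  (-1) ⟨15,[(8,3),(4,3),(3,3),(7,6),(0,6),(11,1)]⟩ ⟨0,[(40,0)]⟩),(.x (-1) ⟨15,[(8,3),(4,3),(3,3),(7,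
  6),(0,6),(11,1)]⟩ ⟨0,[(40,0)]⟩),(.r (-1) ⟨7,[(2,7),(3,1),(4,1),(12,0),(4,0),(2,0),(11,3)]⟩ ⟨7,[(3,
  1),(6,2),(4,4),(2,1),(4,0),(2,4),(7,0)]⟩),.k,⟨false,1,⟨7,[(2,7),(3,1),(4,1),(12,0),(4,0),(2,0),
  (11,3)]⟩,⟨16,[(4,8),(5,6),(1,1),(2,4),(5,1),(4,3),(11,0)]⟩⟩,⟨true,0,⟨0,[(27,0)]⟩,⟨0,[(21,0),(6,0),
  (1,0),(0,0)]⟩⟩,⟨false,0,⟨0,[(43,0)]⟩,⟨5,[(12,1),(12,0),(0,0),(11,0),(6,2)]⟩⟩,⟨false,0,⟨6,[(4,0),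
  (0,0),(3,2),(3,0),(12,0),(0,2),(6,0),(1,0),(3,1)]⟩,⟨0,[(2,0),(8,0),(2,0),(3,0),(9,0),(12,0)]⟩⟩,
  ⟨true,0,⟨0,[(47,0)]⟩,⟨0,[]⟩⟩,⟨false,0,⟨0,[(9,0)]⟩,⟨0,[(2,0),(8,0),(6,0),(2,0),(6,0),(1,0)]⟩⟩,[.o
  ⟨false,0,⟨0,[(42,0)]⟩,⟨3,[(11,1),(18,1),(2,1),(4,0),(6,0)]⟩⟩,.a ⟨true,0,⟨2,[(12,0),(14,1),(0,1)]⟩,
  ⟨0,[(43,0)]⟩⟩ ⟨true,0,⟨0,[(2,0)]⟩,⟨2,[(4,0),(10,0),(0,0),(9,0)]⟩⟩ ⟨false,0,⟨0,[(0,0)]⟩,⟨7,[(6,1),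
  (4,1),(12,0),(3,7),(0,0),(2,0),(5,3)]⟩⟩,.o ⟨false,1,⟨1,[(28,1),(9,0),(5,0)]⟩,⟨3,[(2,0),(2,0),(9,
  0),(11,2),(2,0),(0,0),(6,0)]⟩⟩,.e ⟨false,1,⟨7,[(6,1),(4,1),(12,0),(0,3),(3,0),(2,0)]⟩,⟨0,[(4,0),
  (36,0)]⟩⟩ ⟨false,0,⟨0,[(0,0)]⟩,⟨3,[(11,1),(16,3),(1,1),(2,1),(4,0),(6,0)]⟩⟩]⟩) (.R ⟨1,false,false,
  true,[1,0,0,-1],[0,1],[0,1,0,-1,0,0,0,0,-1],(⟨0,[(27,0)]⟩,⟨0,[(28,0)]⟩),(⟨0,[(40,0)]⟩,⟨0,[(39,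
  0)]⟩),⟨0,[(1,0)]⟩,.k,.k,(.x (-1) ⟨15,[(8,3),(4,3),(3,3),(7,6),(0,6),(11,1)]⟩ ⟨0,[(40,0)]⟩),(.x
  (-1) ⟨15,[(8,3),(4,3),(3,3),(7,6),(0,6),(11,1)]⟩ ⟨0,[(40,0)]⟩),(.r (-1) ⟨7,[(2,7),(3,1),(4,1),(12,
  0),(4,0),(2,0),(11,3)]⟩ ⟨7,[(3,1),(6,2),(4,4),(2,1),(4,0),(2,4),(7,0)]⟩),.k,⟨false,1,⟨7,[(2,7),(3,
  1),(4,1),(12,0),(4,0),(2,0),(11,3)]⟩,⟨16,[(4,8),(5,6),(1,1),(2,4),(5,1),(4,3),(11,0)]⟩⟩,⟨true,0,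
  ⟨0,[(27,0)]⟩,⟨13,[(0,4),(9,0),(4,1),(2,0),(9,8),(1,4),(2,3),(4,1)]⟩⟩,⟨false,0,⟨0,[(43,0)]⟩,⟨5,
  [(12,1),(12,0),(0,0),(11,0),(6,2)]⟩⟩,⟨false,0,⟨6,[(4,0),(0,0),(3,2),(3,0),(12,0),(0,2),(6,0),(1,
  0),(3,1)]⟩,⟨9,[(0,9),(1,3),(7,3),(0,1),(9,3),(3,2),(18,4)]⟩⟩,⟨true,0,⟨0,[(47,0)]⟩,⟨0,[]⟩⟩,⟨false,
  0,⟨0,[(9,0)]⟩,⟨4,[(0,4),(1,0),(7,0),(0,2),(9,0),(3,1)]⟩⟩,[.o ⟨false,0,⟨0,[(42,0)]⟩,⟨17,[(0,3),(1,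
  9),(2,3),(5,1),(14,2),(11,6),(6,5)]⟩⟩,.e ⟨true,0,⟨0,[(2,0)]⟩,⟨2,[(4,0),(10,0),(0,0),(9,0)]⟩⟩
  ⟨true,0,⟨5,[(3,1),(5,1),(17,3),(5,0),(0,0)]⟩,⟨0,[(0,0)]⟩⟩,.o ⟨false,1,⟨1,[(28,1),(9,0),(5,0)]⟩,⟨3,
  [(2,0),(2,0),(9,0),(11,2),(2,0),(0,0),(6,0)]⟩⟩,.a ⟨true,0,⟨0,[(28,0)]⟩,⟨0,[(27,0)]⟩⟩ ⟨false,1,⟨7,
  [(6,1),(4,1),(12,0),(0,3),(3,0),(2,0)]⟩,⟨0,[(4,0),(36,0)]⟩⟩ ⟨true,0,⟨0,[(27,0),(14,0)]⟩,⟨0,[(0,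
  0)]⟩⟩]⟩)) (.Q [0,0,0,0,0,0,1,1,0,1,-1] (.p false [0,0,1] [1] (⟨0,[(36,0)]⟩,⟨0,[(35,0)]⟩) .k 1 (⟨0,
  []⟩,⟨0,[]⟩) .k .k) (.R ⟨1,false,false,false,[0,0,0,1],[0,0,1],[1,1,0,0,0,0,0,0,1],(⟨0,[(28,0)]⟩,
  ⟨0,[(27,0)]⟩),(⟨0,[(37,0)]⟩,⟨0,[(36,0)]⟩),⟨2,[(1,0),(6,0),(4,0),(3,0),(10,1)]⟩,.k,.k,(.r (-1) ⟨7,
  [(6,1),(4,1),(12,0),(1,3),(2,0),(2,0)]⟩ ⟨0,[(3,0)]⟩),.k,(.r (-1) ⟨3,[(11,1),(12,0),(1,1),(2,0),(2,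
  0),(2,1)]⟩ ⟨8,[(0,1),(1,5),(0,2),(6,3),(7,2),(1,1),(2,0)]⟩),.k,⟨true,0,⟨0,[(4,0),(30,0),(7,0)]⟩,
  ⟨0,[(2,0),(13,0)]⟩⟩,⟨false,1,⟨11,[(1,5),(15,3),(1,1),(4,3),(3,5),(9,0),(5,10)]⟩,⟨0,[(27,0),(2,
  0)]⟩⟩,⟨false,0,⟨0,[]⟩,⟨3,[(25,0),(0,0),(18,1)]⟩⟩,⟨false,1,⟨19,[(0,5),(0,17),(0,5),(7,11),(0,9),(5,
  11),(0,1),(0,5),(5,6),(2,1),(15,2)]⟩,⟨0,[(5,0),(26,0)]⟩⟩,⟨true,0,⟨0,[(42,0)]⟩,⟨0,[(43,0)]⟩⟩,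
  ⟨false,1,⟨2,[(1,2),(0,0),(7,1),(0,1),(0,0),(4,1),(0,0),(0,0),(5,0)]⟩,⟨0,[(5,0),(26,0),(10,0)]⟩⟩,
  [.a ⟨true,0,⟨0,[(0,0)]⟩,⟨0,[(8,0),(6,0),(27,0)]⟩⟩ ⟨true,0,⟨0,[(4,0),(38,0)]⟩,⟨1,[(2,0),(0,0),(37,
  0)]⟩⟩ ⟨false,1,⟨4,[(0,0),(0,2),(4,0),(3,0),(0,0),(5,1),(0,1),(0,0),(8,1),(15,2)]⟩,⟨5,[(2,0),(2,2),
  (9,0),(4,0),(0,0),(3,0),(1,2),(1,1),(2,1)]⟩⟩,.o ⟨false,1,⟨1,[(0,1),(37,0),(6,0)]⟩,⟨0,[(29,0)]⟩⟩,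
  .o ⟨false,0,⟨3,[(2,0),(2,0),(9,0),(11,2),(2,0),(0,0),(6,0)]⟩,⟨1,[(28,1),(9,0),(5,0)]⟩⟩,.o ⟨false,
  0,⟨0,[(27,0),(2,0),(2,0)]⟩,⟨9,[(1,9),(6,2),(1,1),(0,5),(1,0),(0,4),(2,4),(0,2),(0,1),(24,1)]⟩⟩]⟩)
  (.R ⟨0,false,false,false,[1,0,0,-1],[1,0,-1],[0,0,0,-1,0,0,0,0,-1],(⟨0,[(27,0)]⟩,⟨0,[(28,0)]⟩),
  (⟨0,[(36,0)]⟩,⟨0,[(37,0)]⟩),⟨0,[(1,0)]⟩,.k,.k,(.x (-1) ⟨15,[(8,3),(4,3),(3,3),(7,6),(0,6),(11,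
  1)]⟩ ⟨0,[(40,0)]⟩),.k,.k,.k,⟨false,1,⟨7,[(2,1),(3,4),(3,0),(5,0),(6,0),(1,2),(5,0)]⟩,⟨0,[(4,0),
  (16,0)]⟩⟩,⟨true,0,⟨0,[(27,0),(2,0)]⟩,⟨18,[(1,9),(11,0),(3,4),(1,1),(4,6),(3,8),(9,0)]⟩⟩,⟨true,0,
  ⟨0,[(43,0)]⟩,⟨0,[(42,0)]⟩⟩,⟨false,0,⟨1,[(4,0),(0,0),(5,0),(3,0),(4,0),(0,0),(5,0)]⟩,⟨74,[(1,14),
  (0,10),(7,15),(0,42),(0,1),(4,9),(0,58),(0,4),(4,2),(0,31),(2,59)]⟩⟩,⟨false,0,⟨0,[]⟩,⟨0,[]⟩⟩,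
  ⟨false,0,⟨0,[]⟩,⟨0,[]⟩⟩,[.o ⟨false,0,⟨0,[(0,0)]⟩,⟨3,[(25,0),(0,0),(4,3),(13,1)]⟩⟩,.o ⟨false,1,⟨3,
  [(0,1),(31,1),(5,0),(6,2)]⟩,⟨0,[(31,0)]⟩⟩,.o ⟨false,1,⟨1,[(28,1),(9,0),(5,0)]⟩,⟨3,[(2,0),(2,0),(9,
  0),(11,2),(2,0),(0,0),(6,0)]⟩⟩,.a ⟨true,0,⟨0,[(28,0)]⟩,⟨0,[(27,0)]⟩⟩ ⟨false,1,⟨4,[(2,0),(7,0),(0,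
  2),(9,0),(3,1)]⟩,⟨2,[(4,0),(10,0),(0,0),(9,0)]⟩⟩ ⟨true,0,⟨0,[(0,0),(26,0)]⟩,⟨0,[(28,0),(2,
  0)]⟩⟩]⟩)))) (.Q [0,0,0,0,0,-1,0,0,0,1,0,-1] (.ed true [0,1,0,1] .k) (.Q [0,0,0,1,0,0,0,0,0,0,0,1]
  (.p true [0,0,0,1] [] (⟨0,[(26,0)]⟩,⟨0,[(25,0)]⟩) .k 0 (⟨0,[]⟩,⟨0,[]⟩) .k .k) (.R ⟨1,false,false,
  false,[1,0,0,-1],[1,-1],[1,1,0,0,0,0,0,0,-1],(⟨0,[(26,0)]⟩,⟨0,[(27,0)]⟩),(⟨0,[(38,0)]⟩,⟨0,[(39,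
  0)]⟩),⟨0,[(1,0)]⟩,.k,.k,(.x (-1) ⟨15,[(7,3),(4,3),(3,3),(7,6),(0,6),(11,1)]⟩ ⟨0,[(39,0)]⟩),(.x
  (-1) ⟨19,[(6,7),(11,3),(5,0),(0,0),(17,9)]⟩ ⟨7,[(12,1),(3,1),(2,1),(4,0),(0,0),(6,5),(0,3)]⟩),.k,
  .k,⟨true,0,⟨1,[(14,0),(7,0),(1,0),(5,0)]⟩,⟨2,[(2,1),(1,0),(22,0),(12,0),(1,0)]⟩⟩,⟨false,0,⟨0,[(20,
  0),(5,0),(2,0),(0,0)]⟩,⟨0,[(27,0),(15,0)]⟩⟩,⟨false,0,⟨0,[]⟩,⟨3,[(24,0),(0,0),(18,1)]⟩⟩,⟨false,0,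
  ⟨0,[(4,0),(37,0)]⟩,⟨1,[(0,1),(23,0),(18,0)]⟩⟩,⟨true,0,⟨0,[(41,0)]⟩,⟨0,[(42,0)]⟩⟩,⟨false,0,⟨0,[(4,
  0)]⟩,⟨1,[(24,0),(2,1),(15,0)]⟩⟩,[.a ⟨true,0,⟨0,[(42,0)]⟩,⟨2,[(11,0),(14,1),(0,1)]⟩⟩ ⟨false,1,⟨1,
  [(24,0),(18,0),(2,1)]⟩,⟨8,[(2,6),(6,2),(4,0),(5,1),(4,0),(14,1)]⟩⟩ ⟨true,0,⟨0,[(10,0),(3,0),(11,
  0),(2,0),(0,0)]⟩,⟨0,[(0,0)]⟩⟩,.o ⟨false,1,⟨3,[(10,1),(18,1),(2,1),(4,0),(6,0)]⟩,⟨0,[(41,0)]⟩⟩,.o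
  ⟨false,1,⟨1,[(27,1),(9,0),(5,0)]⟩,⟨0,[(20,0),(5,0),(2,0),(0,0)]⟩⟩,.e ⟨false,1,⟨1,[(24,0),(18,0)]⟩,
  ⟨0,[(4,0),(22,0)]⟩⟩ ⟨false,1,⟨11,[(4,9),(0,1),(4,3),(13,4),(1,1),(4,1),(0,1),(4,0)]⟩,⟨0,[(0,
  0)]⟩⟩]⟩) (.Q [0,0,-1,1,1,0,0,0,-1,0,0,1] (.p true [0,0,0,1] [] (⟨0,[(27,0)]⟩,⟨0,[(26,0)]⟩) .k 0
  (⟨0,[]⟩,⟨0,[]⟩) .k .k) (.R ⟨1,false,false,false,[1,0,0,-1],[1,-1],[1,1,0,0,0,0,0,0,-1],(⟨0,[(27,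
  0)]⟩,⟨0,[(28,0)]⟩),(⟨0,[(39,0)]⟩,⟨0,[(40,0)]⟩),⟨0,[(2,0)]⟩,.k,.k,(.x (-1) ⟨15,[(8,3),(4,3),(3,3),
  (7,6),(0,6),(11,1)]⟩ ⟨0,[(40,0)]⟩),(.x (-1) ⟨19,[(7,7),(11,3),(5,0),(0,0),(17,9)]⟩ ⟨7,[(13,1),(3,
  1),(2,1),(4,0),(0,0),(6,5),(0,3)]⟩),.k,.k,⟨true,0,⟨1,[(15,0),(7,0),(1,0),(5,0)]⟩,⟨2,[(3,1),(1,0),
  (22,0),(12,0),(1,0)]⟩⟩,⟨false,0,⟨4,[(1,2),(3,0),(3,0),(5,0),(9,0),(4,0),(0,0)]⟩,⟨0,[(0,0),(2,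
  0)]⟩⟩,⟨false,0,⟨0,[]⟩,⟨3,[(25,0),(0,0),(18,1)]⟩⟩,⟨false,0,⟨0,[(5,0),(37,0)]⟩,⟨0,[(0,0)]⟩⟩,⟨true,0,
  ⟨0,[(42,0)]⟩,⟨0,[(43,0)]⟩⟩,⟨false,0,⟨0,[(5,0)]⟩,⟨15,[(0,7),(5,1),(4,1),(12,0),(0,3),(2,7),(0,0),
  (2,0)]⟩⟩,[.e ⟨false,1,⟨1,[(25,0),(18,0),(2,1)]⟩,⟨8,[(3,6),(6,2),(4,0),(5,1),(4,0),(14,1)]⟩⟩
  ⟨false,0,⟨0,[(1,0)]⟩,⟨9,[(0,6),(2,2),(8,1),(13,1),(1,2),(9,0)]⟩⟩,.o ⟨false,1,⟨3,[(11,1),(18,1),(2,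
  1),(4,0),(6,0)]⟩,⟨0,[(42,0)]⟩⟩,.o ⟨false,1,⟨1,[(0,0),(2,0),(24,0),(9,0)]⟩,⟨4,[(1,2),(3,0),(3,0),
  (5,0),(9,0),(4,0),(0,0)]⟩⟩,.a ⟨true,0,⟨0,[(28,0)]⟩,⟨0,[(27,0)]⟩⟩ ⟨false,1,⟨1,[(25,0),(18,0)]⟩,⟨0,
  [(5,0),(22,0)]⟩⟩ ⟨true,0,⟨0,[(1,0)]⟩,⟨0,[(28,0),(13,0)]⟩⟩]⟩) (.R ⟨2,true,false,false,[0,1],[0,0,0,
  1],[1,1,1,1],(⟨0,[]⟩,⟨0,[]⟩),(⟨0,[(28,0)]⟩,⟨0,[(27,0)]⟩),⟨0,[]⟩,.k,.k,.k,(.x (-1) ⟨19,[(7,7),(11,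
  3),(5,0),(0,0),(17,9)]⟩ ⟨7,[(13,1),(3,1),(2,1),(4,0),(0,0),(6,5),(0,3)]⟩),.k,.k,⟨true,0,⟨1,[(15,
  0),(7,0),(1,0),(5,0)]⟩,⟨6,[(0,1),(2,2),(7,0),(14,0),(1,1),(12,2)]⟩⟩,⟨false,0,⟨5,[(0,3),(8,1),(15,
  2),(12,0)]⟩,⟨0,[(28,0),(15,0)]⟩⟩,⟨false,0,⟨0,[]⟩,⟨3,[(25,0),(0,0),(18,1)]⟩⟩,⟨true,(-1),⟨0,[(0,
  0)]⟩,⟨1,[(25,0),(2,1),(13,1),(1,0)]⟩⟩,⟨true,0,⟨0,[(42,0)]⟩,⟨0,[(43,0)]⟩⟩,⟨false,0,⟨0,[(5,0)]⟩,⟨1,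
  [(25,0),(2,1),(15,0)]⟩⟩,[]⟩))) (.R ⟨0,false,false,false,[1,0,0,-1],[1,-1],[0,1,0,0,0,0,0,0,-1],
  (⟨0,[(25,0)]⟩,⟨0,[(26,0)]⟩),(⟨0,[(37,0)]⟩,⟨0,[(38,0)]⟩),⟨0,[(0,0)]⟩,.k,.k,(.x (-1) ⟨15,[(6,3),(4,
  3),(3,3),(7,6),(0,6),(11,1)]⟩ ⟨0,[(38,0)]⟩),(.x (-1) ⟨19,[(5,7),(11,3),(5,0),(0,0),(17,9)]⟩ ⟨7,
  [(11,1),(3,1),(2,1),(4,0),(0,0),(6,5),(0,3)]⟩),.k,.k,⟨true,0,⟨1,[(13,0),(7,0),(1,0),(5,0)]⟩,⟨2,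
  [(1,1),(1,0),(22,0),(12,0),(1,0)]⟩⟩,⟨false,0,⟨0,[(19,0),(5,0),(2,0),(0,0)]⟩,⟨0,[(26,0),(15,0)]⟩⟩,
  ⟨true,0,⟨0,[(45,0)]⟩,⟨0,[]⟩⟩,⟨false,0,⟨0,[(3,0),(37,0)]⟩,⟨17,[(0,7),(5,1),(3,5),(0,1),(3,1),(7,8),
  (2,9),(15,8)]⟩⟩,⟨false,0,⟨0,[]⟩,⟨0,[]⟩⟩,⟨false,0,⟨0,[]⟩,⟨0,[]⟩⟩,[.a ⟨true,0,⟨0,[(41,0)]⟩,⟨2,[(10,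
  0),(14,1),(0,1)]⟩⟩ ⟨false,1,⟨1,[(23,0),(18,0),(2,1)]⟩,⟨8,[(1,6),(6,2),(4,0),(5,1),(4,0),(14,1)]⟩⟩
  ⟨true,0,⟨0,[(9,0),(3,0),(11,0),(2,0),(0,0)]⟩,⟨8,[(0,3),(5,0),(3,2),(0,0),(3,0),(10,4)]⟩⟩,.o
  ⟨false,1,⟨3,[(9,1),(18,1),(2,1),(4,0),(6,0)]⟩,⟨0,[(40,0)]⟩⟩,.o ⟨false,1,⟨1,[(26,1),(9,0),(5,0)]⟩,
  ⟨0,[(19,0),(5,0),(2,0),(0,0)]⟩⟩,.e ⟨false,1,⟨1,[(23,0),(18,0)]⟩,⟨0,[(3,0),(22,0)]⟩⟩ ⟨false,1,⟨11,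
  [(3,9),(0,1),(4,3),(13,4),(1,1),(4,1),(0,1),(4,0)]⟩,⟨8,[(0,3),(5,0),(3,2),(0,0),(3,0),(10,
  4)]⟩⟩]⟩)))))))

theorem ok216 : chk (cU (-1) true 10) t216 l116 = true := by decide +kernel

noncomputable def t218 : Tre :=
  (.Q [0,0,0,0,0,-2,0,0,0,0,1] (.p true [0,0,1] [] (⟨0,[(31,0)]⟩,⟨0,[(30,0)]⟩) .k 0 (⟨0,[]⟩,⟨0,[]⟩)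
  .k .k) (.R ⟨1,false,false,false,[0,-1,1],[1,-1],[1,0,-1,-1],(⟨1,[(0,0),(31,0)]⟩,⟨0,[(31,0),(3,
  0)]⟩),(⟨0,[(34,0)]⟩,⟨0,[(35,0)]⟩),⟨0,[(0,0)]⟩,.k,.k,(.x 1 ⟨0,[(0,0),(2,0)]⟩ ⟨3,[(15,1),(4,0),(0,
  0),(9,3),(1,0),(1,7),(3,4)]⟩),.k,.k,.k,⟨true,0,⟨0,[]⟩,⟨5,[(3,1),(16,0),(0,0),(7,1)]⟩⟩,⟨false,1,⟨3,
  [(15,1),(17,0),(5,2)]⟩,⟨1,[(19,0),(2,0),(0,0)]⟩⟩,⟨false,0,⟨0,[(16,0)]⟩,⟨27,[(1,15),(3,11),(0,3),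
  (13,10),(0,10),(17,1)]⟩⟩,⟨false,1,⟨0,[(24,0),(15,0)]⟩,⟨1,[(1,0),(9,0),(2,0),(2,0),(13,0)]⟩⟩,⟨true,
  0,⟨4,[(7,0),(1,1),(6,1),(2,0),(10,0)]⟩,⟨0,[(1,0)]⟩⟩,⟨false,1,⟨0,[(9,0),(30,0)]⟩,⟨1,[(1,1),(12,0),
  (2,0),(13,0),(4,0)]⟩⟩,[.a ⟨true,0,⟨0,[(38,0)]⟩,⟨2,[(7,0),(14,1),(0,1)]⟩⟩ ⟨false,1,⟨1,[(6,0),(32,
  0),(2,0)]⟩,⟨22,[(5,3),(1,0),(2,7),(2,3),(1,0),(4,3),(0,3),(7,1)]⟩⟩ ⟨true,1,⟨9,[(1,1),(4,3),(8,3),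
  (11,1),(5,2),(5,2)]⟩,⟨2,[(3,2),(3,0),(14,1),(0,1)]⟩⟩,.o ⟨false,1,⟨3,[(6,1),(18,1),(2,1),(4,0),(6,
  0)]⟩,⟨0,[(37,0)]⟩⟩,.o ⟨false,0,⟨0,[(28,0)]⟩,⟨3,[(15,1),(17,0),(5,2)]⟩⟩,.o ⟨false,(-1),⟨0,[(3,0)]⟩,
  ⟨3,[(15,1),(4,0),(0,0),(11,0),(5,4)]⟩⟩]⟩) (.I [0,0,2,2,-1,0,0,-1] (.R ⟨0,false,false,true,[0,-1,
  1],[1,0,-1],[0,1],(⟨4,[(7,2),(0,0),(0,2),(5,0),(0,0),(2,2)]⟩,⟨1,[(1,0),(21,0),(0,0),(7,0)]⟩),(⟨0,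
  [(32,0)]⟩,⟨0,[(33,0)]⟩),⟨0,[(1,0)]⟩,.k,.k,(.r (-2) ⟨27,[(2,23),(3,3),(0,19),(13,12),(0,12),(17,
  9)]⟩ ⟨0,[(0,0)]⟩),(.r (-1) ⟨13,[(2,17),(3,9),(0,7),(13,0),(0,0),(17,3)]⟩ ⟨3,[(0,1),(20,0),(0,0),
  (8,5)]⟩),.k,.k,⟨false,1,⟨6,[(2,3),(3,2),(0,0),(13,0),(0,0),(17,3)]⟩,⟨0,[(31,0)]⟩⟩,⟨true,1,⟨0,[(16,
  0),(23,0)]⟩,⟨1,[(4,1),(15,0),(2,0),(0,0)]⟩⟩,⟨false,0,⟨3,[(0,1),(20,0),(0,0),(8,1)]⟩,⟨15,[(2,7),(3,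
  7),(0,11),(13,0),(0,0),(18,1)]⟩⟩,⟨true,0,⟨0,[(17,0),(1,0),(5,0)]⟩,⟨4,[(1,2),(0,5),(1,1),(1,0),(0,
  1),(4,2),(0,4),(1,3)]⟩⟩,⟨false,0,⟨0,[]⟩,⟨0,[]⟩⟩,⟨false,0,⟨0,[]⟩,⟨0,[]⟩⟩,[.o ⟨false,0,⟨0,[(25,0)]⟩,
  ⟨0,[(27,0),(13,0)]⟩⟩,.a ⟨true,0,⟨0,[(7,0),(3,0),(7,0)]⟩,⟨1,[(2,0),(9,0),(2,0),(2,0),(13,0)]⟩⟩
  ⟨false,1,⟨3,[(21,0),(0,0),(17,1)]⟩,⟨0,[]⟩⟩ ⟨true,1,⟨4,[(7,0),(2,1),(5,2),(0,0),(10,1),(11,2),(0,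
  0)]⟩,⟨1,[(2,0),(1,1),(7,0),(2,0),(2,0),(13,0)]⟩⟩,.o ⟨false,0,⟨0,[(29,0)]⟩,⟨3,[(16,1),(17,0),(5,
  2)]⟩⟩,.o ⟨false,(-1),⟨0,[(4,0)]⟩,⟨3,[(16,1),(4,0),(0,0),(11,0),(5,4)]⟩⟩]⟩) (.Q [0,1,1,0,-1,0,0,0,
  1,0,0,-1] (.p false [0,0,0,1] [] (⟨0,[(24,0)]⟩,⟨0,[(23,0)]⟩) .k 0 (⟨0,[]⟩,⟨0,[]⟩) .k .k) (.I [0,0,
  -1,-1,0,0,0,0,1] (.K ⟨0,[0,0,0,1],0,(-1),(⟨0,[(26,0)]⟩,⟨0,[(25,0)]⟩),.k,(.r 0 ⟨0,[(0,0)]⟩ ⟨91,[(8,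
  15),(1,3),(2,31),(2,15),(1,3),(4,84),(0,38),(7,7)]⟩),(.x 0 ⟨0,[(38,0)]⟩ ⟨15,[(11,3),(3,3),(2,1),
  (4,6),(0,6),(11,0),(5,4)]⟩),.k,.k,[⟨0,[(26,0)]⟩,⟨0,[(25,0)]⟩,⟨1,[(23,0),(2,1),(15,0),(2,1)]⟩,⟨0,
  [(1,0)]⟩]⟩) (.K ⟨0,[0,0,0,1],0,(-1),(⟨0,[(26,0)]⟩,⟨0,[(25,0)]⟩),.k,(.x 0 ⟨7,[(6,3),(4,1),(3,1),(2,
  1),(4,2),(0,2),(7,1)]⟩ ⟨1,[(3,0),(31,0),(6,1)]⟩),(.x 0 ⟨0,[(38,0)]⟩ ⟨15,[(11,3),(3,3),(2,1),(4,6),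
  (0,6),(11,0),(5,4)]⟩),.k,.k,[⟨0,[(26,0)]⟩,⟨0,[(25,0)]⟩,⟨1,[(23,0),(2,1),(15,0),(2,1)]⟩,⟨0,[(1,
  0)]⟩]⟩)) (.I [1,0,-2,-1,1,0,0,0,1] (.Q [0,0,0,-2,0,0,-2,-2,0,-1,2] (.p true [0,0,1] [1,0,-1] (⟨0,
  [(35,0)]⟩,⟨0,[(34,0)]⟩) .k 2 (⟨0,[(34,0)]⟩,⟨0,[(35,0)]⟩) .k (.r (-1) ⟨9,[(2,3),(1,7),(3,7),(14,2),
  (0,2)]⟩ ⟨0,[(33,1)]⟩)) (.Q [0,0,0,1,0,0,2,2,0,1,-2] (.p false [0,0,1] [1,0,-1] (⟨0,[(36,0)]⟩,⟨0,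
  [(35,0)]⟩) .k 2 (⟨0,[(35,0)]⟩,⟨0,[(36,0)]⟩) .k (.r (-1) ⟨9,[(3,3),(1,7),(3,7),(14,2),(0,2)]⟩ ⟨0,
  [(34,1)]⟩)) (.R ⟨1,true,false,false,[1,0,-1],[0,1,1],[1,1,0,0,0,0,0,-1],(⟨0,[(36,0)]⟩,⟨0,[(37,
  0)]⟩),(⟨1,[(5,0),(31,2)]⟩,⟨0,[(22,0)]⟩),⟨0,[(22,0)]⟩,.k,.k,.k,(.r (-1) ⟨7,[(1,1),(0,3),(21,1),(0,
  2),(0,0),(8,11)]⟩ ⟨0,[(0,0),(19,0)]⟩),(.r (-1) ⟨0,[(1,0),(22,0),(19,0)]⟩ ⟨11,[(0,5),(7,1),(1,5),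
  (7,5),(1,5),(4,0),(0,0),(7,7)]⟩),.k,⟨true,0,⟨3,[(1,1),(3,2),(11,4),(1,3),(9,2),(2,0)]⟩,⟨11,[(6,5),
  (1,1),(7,17),(8,0),(0,0),(7,1)]⟩⟩,⟨false,1,⟨0,[(24,0),(19,0)]⟩,⟨0,[(20,0)]⟩⟩,⟨false,0,⟨0,[]⟩,⟨3,
  [(25,0),(0,0),(18,1)]⟩⟩,⟨true,0,⟨0,[(0,0)]⟩,⟨1,[(1,0),(27,0),(2,0)]⟩⟩,⟨true,0,⟨0,[(42,0)]⟩,⟨0,
  [(43,0)]⟩⟩,⟨false,1,⟨5,[(0,5),(11,1),(12,0),(0,0),(11,0),(6,2)]⟩,⟨0,[(1,0)]⟩⟩,[]⟩) (.R ⟨1,true,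
  false,false,[1,0,-1],[0,0,1],[0,1,0,-1,0,0,0,-1],(⟨0,[(36,0)]⟩,⟨0,[(37,0)]⟩),(⟨0,[(37,0)]⟩,⟨0,
  [(36,0)]⟩),⟨0,[(22,0)]⟩,.k,.k,.k,.k,(.r (-1) ⟨7,[(1,1),(0,3),(21,1),(0,2),(0,0),(8,11)]⟩ ⟨0,[(6,
  0),(3,0)]⟩),.k,⟨false,0,⟨3,[(1,1),(3,2),(11,4),(1,3),(9,2),(2,0)]⟩,⟨4,[(4,2),(1,0),(3,5),(14,0),
  (0,0)]⟩⟩,⟨true,0,⟨0,[(24,0)]⟩,⟨0,[(20,0)]⟩⟩,⟨false,0,⟨0,[(43,0)]⟩,⟨5,[(12,1),(12,0),(0,0),(11,0),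
  (6,2)]⟩⟩,⟨true,0,⟨4,[(4,1),(0,2),(0,3),(1,1),(1,3),(6,4),(1,3)]⟩,⟨1,[(0,0),(13,0),(17,0)]⟩⟩,⟨true,
  0,⟨0,[(47,0)]⟩,⟨0,[]⟩⟩,⟨false,1,⟨4,[(4,2),(1,0),(3,5),(13,4),(0,0),(0,0)]⟩,⟨0,[(0,0)]⟩⟩,[]⟩)) (.I
  [0,0,1,1,0,0,0,0,-1] (.I [1,0,0,0,0,0,0,0,1] (.Q [0,0,0,0,0,0,1,1,0,0,-1,1] (.p false [0,0,1] [0,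
  0,0,1] (⟨0,[(38,0)]⟩,⟨0,[(37,0)]⟩) .k 2 (⟨0,[(29,0)]⟩,⟨0,[(28,0)]⟩) .k (.r (-1) ⟨19,[(5,3),(1,7),
  (3,7),(14,12),(0,2)]⟩ ⟨0,[(3,0),(12,0)]⟩)) (.I [0,-1,1,0,0,0,0,0,-1] (.Q [0,0,0,0,0,-1,0,0,0,0,0,
  1] (.ed false [1,-1,0,1] .k) (.R ⟨1,false,false,true,[0,0,0,1],[0,1],[1,1,0,0,0,0,0,0,1],(⟨0,[(32,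
  0)]⟩,⟨0,[(31,0)]⟩),(⟨0,[(44,0)]⟩,⟨0,[(43,0)]⟩),⟨0,[(0,0)]⟩,.k,.k,(.r (-1) ⟨4,[(6,0),(1,0),(6,0),
  (14,1),(5,0),(0,0)]⟩ ⟨0,[(4,0)]⟩),(.r (-1) ⟨4,[(6,0),(1,0),(6,0),(14,1),(5,0),(0,0)]⟩ ⟨0,[(4,
  0)]⟩),(.r (-1) ⟨0,[(6,0),(40,0)]⟩ ⟨23,[(4,33),(9,2),(4,4),(2,1),(4,0),(2,4),(7,0)]⟩),.k,⟨false,1,
  ⟨0,[(6,0)]⟩,⟨0,[(4,0)]⟩⟩,⟨true,1,⟨0,[(32,0),(15,0)]⟩,⟨0,[(12,0),(18,0),(2,0)]⟩⟩,⟨false,0,⟨0,[]⟩,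
  ⟨3,[(29,0),(0,0),(18,1)]⟩⟩,⟨false,1,⟨0,[(7,0),(38,0)]⟩,⟨0,[(11,0),(35,0)]⟩⟩,⟨true,0,⟨0,[(46,0)]⟩,
  ⟨0,[(47,0)]⟩⟩,⟨false,1,⟨2,[(7,2),(8,0),(1,0),(3,0),(23,0)]⟩,⟨0,[(11,0),(35,1)]⟩⟩,[.o ⟨false,0,⟨0,
  [(46,0)]⟩,⟨11,[(1,5),(10,1),(2,5),(14,2),(3,1),(7,4)]⟩⟩,.a ⟨true,0,⟨2,[(16,0),(14,1),(0,1)]⟩,⟨0,
  [(47,0)]⟩⟩ ⟨true,0,⟨0,[(3,0)]⟩,⟨2,[(1,0),(8,0),(8,0),(9,0)]⟩⟩ ⟨false,1,⟨1,[(2,0),(12,0),(0,0),(1,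
  0),(13,0),(15,0)]⟩,⟨2,[(12,0),(18,2),(2,0),(7,0),(4,2)]⟩⟩,.o ⟨false,0,⟨2,[(12,0),(18,2),(2,0),(7,
  0)]⟩,⟨2,[(2,0),(3,0),(0,0),(10,0),(13,0),(9,0)]⟩⟩,.e ⟨false,1,⟨1,[(30,0),(17,0)]⟩,⟨0,[(1,0)]⟩⟩
  ⟨false,1,⟨1,[(2,0),(12,0),(0,0),(1,0),(13,0),(15,0)]⟩,⟨7,[(1,0),(9,6),(0,2),(11,0),(4,2),(1,0),(6,
  0),(8,7)]⟩⟩]⟩) (.I [0,0,0,0,0,0,0,0,1] (.R ⟨0,false,false,true,[0,0,0,1],[0,1],[0,1,0,0,0,0,0,0,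
  1],(⟨0,[(33,0)]⟩,⟨0,[(32,0)]⟩),(⟨0,[(45,0)]⟩,⟨0,[(44,0)]⟩),⟨0,[(1,0)]⟩,.k,.k,(.r (-1) ⟨4,[(7,0),
  (1,0),(6,0),(14,1),(5,0),(0,0)]⟩ ⟨0,[(5,0)]⟩),(.r (-1) ⟨4,[(7,0),(1,0),(6,0),(14,1),(5,0),(0,0)]⟩
  ⟨0,[(5,0)]⟩),.k,.k,⟨false,1,⟨0,[(0,0),(5,0),(9,1),(2,0),(0,0),(7,0),(19,1)]⟩,⟨0,[(5,0)]⟩⟩,⟨true,1,
  ⟨0,[(33,0),(15,0)]⟩,⟨0,[(13,0),(18,0),(2,0)]⟩⟩,⟨true,0,⟨0,[(52,0)]⟩,⟨0,[]⟩⟩,⟨false,1,⟨0,[(8,0),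
  (38,0)]⟩,⟨0,[(12,0),(35,0)]⟩⟩,⟨false,0,⟨0,[]⟩,⟨0,[]⟩⟩,⟨false,0,⟨0,[]⟩,⟨0,[]⟩⟩,[.o ⟨false,0,⟨0,
  [(47,0)]⟩,⟨11,[(2,5),(10,1),(2,5),(14,2),(3,1),(7,4)]⟩⟩,.a ⟨true,0,⟨2,[(17,0),(14,1),(0,1)]⟩,⟨0,
  [(48,0)]⟩⟩ ⟨true,0,⟨0,[(0,0)]⟩,⟨2,[(2,0),(8,0),(8,0),(9,0)]⟩⟩ ⟨false,1,⟨1,[(3,0),(12,0),(0,0),(1,
  0),(13,0),(15,0)]⟩,⟨11,[(1,3),(9,2),(0,5),(0,1),(4,0),(3,0),(7,2),(1,1),(1,2),(13,8)]⟩⟩,.o ⟨false,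
  0,⟨2,[(13,0),(18,2),(2,0),(7,0)]⟩,⟨2,[(3,0),(3,0),(0,0),(10,0),(13,0),(9,0)]⟩⟩,.e ⟨false,1,⟨1,
  [(31,0),(17,0)]⟩,⟨0,[(2,0)]⟩⟩ ⟨false,1,⟨1,[(3,0),(12,0),(0,0),(1,0),(13,0),(15,0)]⟩,⟨7,[(2,0),(9,
  6),(0,2),(11,0),(4,2),(1,0),(6,0),(8,7)]⟩⟩]⟩) (.N [0,0,0,1] 0 ⟨0,[(4,0)]⟩ ⟨0,[(0,0)]⟩ .k))) (.Q
  [0,0,0,0,0,-1,0,0,0,0,0,1] (.ed false [1,-1,0,1] .k) (.R ⟨1,false,false,true,[0,0,0,1],[0,1],[1,0,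
  0,0,0,0,0,0,1],(⟨0,[(32,0)]⟩,⟨0,[(31,0)]⟩),(⟨0,[(44,0)]⟩,⟨0,[(43,0)]⟩),⟨0,[(0,0)]⟩,.k,.k,(.r (-1)
  ⟨4,[(6,0),(1,0),(6,0),(14,1),(5,0),(0,0)]⟩ ⟨0,[(4,0)]⟩),(.r (-1) ⟨4,[(6,0),(1,0),(6,0),(14,1),(5,
  0),(0,0)]⟩ ⟨0,[(4,0)]⟩),(.r (-1) ⟨0,[(6,0),(40,0)]⟩ ⟨23,[(4,33),(9,2),(4,4),(2,1),(4,0),(2,4),(7,
  0)]⟩),.k,⟨false,1,⟨3,[(1,1),(4,1),(7,0),(0,1),(9,0),(19,0)]⟩,⟨0,[(4,0),(46,0)]⟩⟩,⟨true,1,⟨0,[(1,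
  0),(5,0)]⟩,⟨0,[(12,0),(18,0),(2,0)]⟩⟩,⟨true,0,⟨0,[]⟩,⟨0,[(51,0)]⟩⟩,⟨false,1,⟨0,[(7,0),(38,0)]⟩,⟨0,
  [(11,0),(35,0)]⟩⟩,⟨false,1,⟨5,[(16,1),(12,0),(0,0),(11,0),(6,2)]⟩,⟨0,[(47,0)]⟩⟩,⟨false,1,⟨2,[(7,
  2),(8,0),(1,0),(3,0),(23,0)]⟩,⟨0,[(11,0),(35,1)]⟩⟩,[.o ⟨false,0,⟨0,[(46,0)]⟩,⟨3,[(15,1),(18,1),(2,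
  1),(4,0),(6,0)]⟩⟩,.a ⟨true,0,⟨2,[(16,0),(14,1),(0,1)]⟩,⟨0,[(47,0)]⟩⟩ ⟨true,0,⟨0,[(1,0),(43,0)]⟩,
  ⟨2,[(4,0),(5,0),(1,0),(16,0),(6,0),(14,0)]⟩⟩ ⟨false,1,⟨1,[(1,0),(0,0),(4,0),(7,0),(0,0),(1,0)]⟩,
  ⟨2,[(12,0),(18,2),(2,0),(7,0),(4,2)]⟩⟩,.o ⟨false,0,⟨2,[(12,0),(18,2),(2,0),(7,0)]⟩,⟨1,[(1,0),(5,
  0),(24,0),(9,0)]⟩⟩,.e ⟨false,1,⟨5,[(6,3),(7,1),(10,1),(4,0),(18,0)]⟩,⟨0,[(4,0),(42,0)]⟩⟩ ⟨false,1,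
  ⟨1,[(1,0),(0,0),(4,0),(7,0),(0,0),(1,0)]⟩,⟨11,[(11,9),(0,4),(11,1),(4,4),(1,1),(6,0),(6,0),(1,
  11)]⟩⟩]⟩) (.R ⟨0,false,false,true,[0,0,0,1],[0,1],[1,0,0,-1,0,0,0,0,1],(⟨0,[(32,0)]⟩,⟨0,[(31,
  0)]⟩),(⟨0,[(44,0)]⟩,⟨0,[(43,0)]⟩),⟨0,[(0,0)]⟩,.k,.k,(.r (-1) ⟨4,[(6,0),(1,0),(6,0),(14,1),(5,0),
  (0,0)]⟩ ⟨0,[(4,0)]⟩),(.r (-1) ⟨4,[(6,0),(1,0),(6,0),(14,1),(5,0),(0,0)]⟩ ⟨0,[(4,0)]⟩),.k,.k,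
  ⟨false,1,⟨0,[(3,0),(11,0)]⟩,⟨0,[(4,0),(41,0)]⟩⟩,⟨true,1,⟨0,[(1,0),(5,0)]⟩,⟨0,[(12,0),(18,0),(2,
  0)]⟩⟩,⟨true,0,⟨0,[(47,0)]⟩,⟨0,[(46,0)]⟩⟩,⟨false,1,⟨0,[(7,0),(38,0)]⟩,⟨0,[(11,0),(35,0)]⟩⟩,⟨false,
  0,⟨0,[]⟩,⟨0,[]⟩⟩,⟨false,0,⟨0,[]⟩,⟨0,[]⟩⟩,[.o ⟨false,0,⟨0,[(46,0)]⟩,⟨3,[(15,1),(18,1),(2,1),(4,0),
  (6,0)]⟩⟩,.a ⟨true,0,⟨2,[(16,0),(14,1),(0,1)]⟩,⟨0,[(47,0)]⟩⟩ ⟨true,0,⟨0,[(1,0),(43,0),(1,0)]⟩,⟨0,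
  [(4,0),(46,0)]⟩⟩ ⟨false,1,⟨1,[(1,0),(0,0),(4,0),(7,0),(0,0),(1,0)]⟩,⟨11,[(0,3),(9,2),(0,5),(0,1),
  (4,0),(3,0),(7,2),(1,1),(1,2),(13,8)]⟩⟩,.o ⟨false,0,⟨2,[(12,0),(18,2),(2,0),(7,0)]⟩,⟨1,[(1,0),(5,
  0),(24,0),(9,0)]⟩⟩,.e ⟨false,1,⟨2,[(6,0),(8,0),(14,0),(14,0)]⟩,⟨0,[(4,0)]⟩⟩ ⟨false,1,⟨1,[(1,0),(0,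
  0),(4,0),(7,0),(0,0),(1,0)]⟩,⟨11,[(11,9),(0,4),(11,1),(4,4),(1,1),(6,0),(6,0),(1,11)]⟩⟩]⟩))) (.I
  [1,-1,0,1,0,0,0,-1,1] (.I [1,0,-1,-1,0,0,0,-1,1] (.R ⟨1,false,false,false,[1,0,0,-1],[1,0,-1],[0,
  0,0,-1,0,0,0,0,-1],(⟨0,[(31,0)]⟩,⟨0,[(32,0)]⟩),(⟨0,[(40,0)]⟩,⟨0,[(41,0)]⟩),⟨19,[(2,8),(2,1),(2,4),
  (7,1),(0,4),(3,4),(9,10)]⟩,.k,.k,(.x (-1) ⟨15,[(17,3),(3,3),(2,1),(4,6),(0,6),(11,0),(5,4)]⟩ ⟨0,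
  [(44,0)]⟩),.k,(.r (-1) ⟨0,[(4,0),(3,0)]⟩ ⟨25,[(1,1),(14,2),(1,1),(0,12),(8,0),(1,11),(8,8),(2,
  0)]⟩),.k,⟨false,1,⟨0,[(4,0),(3,0)]⟩,⟨18,[(0,3),(0,10),(16,0),(0,1),(8,0),(1,1),(5,0),(9,8)]⟩⟩,
  ⟨true,0,⟨0,[(31,0),(2,0)]⟩,⟨1,[(0,0),(6,0),(4,0),(9,0),(9,0)]⟩⟩,⟨true,0,⟨0,[(47,0)]⟩,⟨0,[(46,
  0)]⟩⟩,⟨false,0,⟨4,[(0,0),(0,0),(0,1),(8,2),(24,0),(1,1),(6,0)]⟩,⟨0,[(7,0),(27,0)]⟩⟩,⟨false,1,⟨3,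
  [(29,0),(0,0),(18,1)]⟩,⟨0,[]⟩⟩,⟨false,0,⟨16,[(1,7),(0,7),(8,4),(1,3),(5,0),(4,3),(13,0),(6,0),(3,
  0)]⟩,⟨3,[(7,1),(0,0),(3,0),(2,0),(13,0),(2,1),(2,2)]⟩⟩,[.e ⟨false,1,⟨2,[(0,0),(7,0),(20,1)]⟩,⟨5,
  [(0,0),(0,0),(1,3),(1,0),(8,0),(3,0),(8,0)]⟩⟩ ⟨false,0,⟨0,[(2,0)]⟩,⟨13,[(5,2),(0,1),(0,5),(0,1),
  (19,0),(1,1),(1,7),(2,5),(6,1)]⟩⟩,.o ⟨false,1,⟨0,[(33,0),(15,0)]⟩,⟨0,[(35,0)]⟩⟩,.o ⟨false,1,⟨1,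
  [(32,1),(9,0),(5,0)]⟩,⟨2,[(12,0),(18,2),(2,0),(7,0)]⟩⟩,.a ⟨true,0,⟨0,[(32,0)]⟩,⟨0,[(31,0)]⟩⟩
  ⟨false,1,⟨0,[(4,0),(10,0)]⟩,⟨12,[(3,2),(1,0),(8,1),(4,4),(2,0),(1,0),(2,0),(2,4)]⟩⟩ ⟨true,0,⟨0,
  [(2,0)]⟩,⟨0,[(32,0),(2,0)]⟩⟩]⟩) (.R ⟨1,false,false,false,[1,0,0,-1],[1,0,-1],[1,0,0,0,0,0,0,0,-1],
  (⟨0,[(31,0)]⟩,⟨0,[(32,0)]⟩),(⟨0,[(40,0)]⟩,⟨0,[(41,0)]⟩),⟨19,[(2,8),(2,1),(2,4),(7,1),(0,4),(3,4),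
  (9,10)]⟩,.k,.k,(.x (-1) ⟨15,[(17,3),(3,3),(2,1),(4,6),(0,6),(11,0),(5,4)]⟩ ⟨0,[(44,0)]⟩),.k,(.r
  (-1) ⟨2,[(0,0),(7,1),(20,0)]⟩ ⟨25,[(1,1),(14,2),(1,1),(0,12),(8,0),(1,11),(8,8),(2,0)]⟩),.k,
  ⟨false,1,⟨5,[(0,3),(7,1),(20,0),(18,2)]⟩,⟨1,[(1,0),(4,0),(5,0),(23,0)]⟩⟩,⟨true,0,⟨0,[(31,0),(2,
  0)]⟩,⟨13,[(9,2),(2,3),(2,1),(2,0),(2,4),(0,2),(0,3),(1,1),(6,13),(9,1)]⟩⟩,⟨true,0,⟨0,[]⟩,⟨0,[(51,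
  0)]⟩⟩,⟨false,0,⟨4,[(1,1),(0,0),(8,2),(12,0),(6,0),(4,1),(8,0),(1,1)]⟩,⟨0,[(7,0),(27,0)]⟩⟩,⟨false,
  1,⟨5,[(16,1),(12,0),(0,0),(11,0),(6,2)]⟩,⟨0,[(47,0)]⟩⟩,⟨false,0,⟨16,[(1,7),(0,7),(8,4),(1,3),(5,
  0),(4,3),(13,0),(6,0),(3,0)]⟩,⟨3,[(7,1),(0,0),(3,0),(2,0),(13,0),(2,1),(2,2)]⟩⟩,[.e ⟨false,1,⟨1,
  [(29,0),(18,0)]⟩,⟨0,[(1,0),(8,0)]⟩⟩ ⟨false,0,⟨0,[(2,0)]⟩,⟨13,[(5,2),(0,1),(0,5),(0,1),(19,0),(1,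
  1),(1,7),(2,5),(6,1)]⟩⟩,.o ⟨false,1,⟨0,[(33,0),(15,0)]⟩,⟨0,[(35,0)]⟩⟩,.o ⟨false,1,⟨1,[(32,1),(9,
  0),(5,0)]⟩,⟨2,[(12,0),(18,2),(2,0),(7,0)]⟩⟩,.a ⟨true,0,⟨0,[(32,0)]⟩,⟨0,[(31,0)]⟩⟩ ⟨false,1,⟨5,[(0,
  3),(14,1),(9,3),(3,0),(18,2)]⟩,⟨2,[(3,0),(8,0),(17,0),(7,0)]⟩⟩ ⟨true,0,⟨0,[(2,0)]⟩,⟨0,[(32,0),(2,
  0)]⟩⟩]⟩)) (.R ⟨1,false,false,true,[1,0,0,-1],[0,1],[0,1,0,-1,0,0,0,0,-1],(⟨0,[(30,0)]⟩,⟨0,[(31,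
  0)]⟩),(⟨0,[(43,0)]⟩,⟨0,[(42,0)]⟩),⟨19,[(1,8),(2,1),(2,4),(7,1),(0,4),(3,4),(9,10)]⟩,.k,.k,(.x
  (-1) ⟨15,[(16,3),(3,3),(2,1),(4,6),(0,6),(11,0),(5,4)]⟩ ⟨0,[(43,0)]⟩),(.x (-1) ⟨15,[(16,3),(3,3),
  (2,1),(4,6),(0,6),(11,0),(5,4)]⟩ ⟨0,[(43,0)]⟩),(.r (-1) ⟨1,[(0,1),(13,0),(9,0),(13,0),(8,0)]⟩ ⟨7,
  [(3,1),(9,2),(4,4),(2,1),(4,0),(2,4),(7,0)]⟩),.k,⟨false,1,⟨1,[(0,1),(13,0),(9,0),(13,0),(8,0)]⟩,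
  ⟨11,[(2,3),(1,0),(8,3),(1,1),(1,2),(0,3),(2,0),(7,3)]⟩⟩,⟨true,0,⟨0,[(30,0)]⟩,⟨2,[(11,0),(19,2),(1,
  0),(7,0)]⟩⟩,⟨false,0,⟨0,[(46,0)]⟩,⟨5,[(15,1),(12,0),(0,0),(11,0),(6,2)]⟩⟩,⟨false,0,⟨5,[(2,0),(8,
  0),(0,2),(16,0),(0,2),(6,0)]⟩,⟨8,[(0,4),(3,0),(1,3),(4,7),(1,4),(0,12),(2,9),(6,1),(6,4)]⟩⟩,⟨true,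
  0,⟨0,[(50,0)]⟩,⟨0,[]⟩⟩,⟨false,0,⟨0,[(12,0)]⟩,⟨2,[(0,2),(10,0),(1,0),(0,2),(2,0),(6,2),(6,2),(9,
  0)]⟩⟩,[.o ⟨false,0,⟨0,[(45,0)]⟩,⟨3,[(14,1),(18,1),(2,1),(4,0),(6,0)]⟩⟩,.a ⟨true,0,⟨2,[(15,0),(14,
  1),(0,1)]⟩,⟨0,[(46,0)]⟩⟩ ⟨true,0,⟨0,[(0,0),(23,0)]⟩,⟨12,[(2,2),(1,0),(8,1),(4,4),(2,0),(1,0),(2,
  0),(2,4)]⟩⟩ ⟨false,0,⟨4,[(1,1),(2,0),(10,0),(14,2)]⟩,⟨11,[(0,1),(4,1),(8,3),(12,0),(3,11),(0,0),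
  (2,0),(5,5)]⟩⟩,.o ⟨false,1,⟨1,[(31,1),(9,0),(5,0)]⟩,⟨13,[(0,3),(0,3),(8,3),(0,3),(0,1),(15,0),(1,
  3),(10,2)]⟩⟩,.e ⟨false,1,⟨11,[(0,1),(4,1),(8,3),(12,0),(0,5),(3,0),(2,0)]⟩,⟨4,[(2,2),(10,1),(4,0),
  (5,0),(4,0),(14,0)]⟩⟩ ⟨false,0,⟨4,[(1,1),(2,0),(10,0),(14,2)]⟩,⟨3,[(14,1),(16,3),(1,1),(2,1),(4,
  0),(6,0)]⟩⟩]⟩))) (.Q [0,0,0,0,0,-1,0,0,0,1,0,-1] (.ed true [0,1,0,1] .k) (.R ⟨1,false,false,true,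
  [1,0,0,-1],[0,-1,1],[1,1,0,0,0,0,0,0,-1],(⟨0,[(29,0)]⟩,⟨0,[(30,0)]⟩),(⟨4,[(13,2),(0,0),(0,2),(5,
  0),(0,0),(2,2)]⟩,⟨1,[(7,0),(21,0),(0,0),(7,0)]⟩),⟨0,[(0,0)]⟩,.k,.k,(.x (-1) ⟨15,[(15,3),(3,3),(2,
  1),(4,6),(0,6),(11,0),(5,4)]⟩ ⟨0,[(42,0)]⟩),(.r 0 ⟨9,[(14,0),(1,1),(0,4),(5,1),(2,0),(0,4),(9,
  0)]⟩ ⟨2,[(4,0),(1,0),(1,0),(9,0),(9,0)]⟩),.k,.k,⟨false,0,⟨4,[(1,4),(12,0),(1,1),(6,1),(2,0),(10,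
  0)]⟩,⟨2,[(4,0),(1,0),(1,0),(9,0),(9,0)]⟩⟩,⟨true,(-1),⟨0,[(10,0),(18,0)]⟩,⟨3,[(22,1),(7,3),(9,0),
  (5,2)]⟩⟩,⟨false,0,⟨0,[]⟩,⟨3,[(27,0),(0,0),(18,1)]⟩⟩,⟨false,0,⟨6,[(8,6),(0,4),(0,0),(10,0),(4,1),
  (1,0),(0,1),(8,1),(2,0),(1,0)]⟩,⟨1,[(1,0),(3,0),(6,0),(0,0),(2,1),(6,0),(6,0)]⟩⟩,⟨true,0,⟨0,[(44,
  0)]⟩,⟨0,[(45,0)]⟩⟩,⟨false,0,⟨27,[(3,6),(4,13),(0,11),(0,7),(10,0),(4,1),(1,7),(0,15),(8,1),(2,0),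
  (1,0)]⟩,⟨1,[(1,0),(3,0),(7,0),(2,1),(13,0),(12,0)]⟩⟩,[.o ⟨false,0,⟨5,[(6,1),(1,1),(1,1),(15,0),(4,
  0),(1,2)]⟩,⟨0,[(16,0),(30,0)]⟩⟩,.a ⟨true,0,⟨15,[(3,0),(2,3),(1,9),(1,3),(10,4),(16,9),(2,4),(1,
  4)]⟩,⟨0,[(23,0),(1,0)]⟩⟩ ⟨true,0,⟨0,[(1,0)]⟩,⟨2,[(8,0),(0,0),(7,0),(10,0),(1,0)]⟩⟩ ⟨false,0,⟨5,
  [(0,4),(2,0),(2,3),(0,1),(2,3),(10,0),(0,0),(6,0)]⟩,⟨27,[(4,9),(0,9),(6,1),(1,1),(1,27),(6,1),(6,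
  17),(9,0),(6,6)]⟩⟩,.o ⟨false,1,⟨1,[(30,1),(9,0),(5,0)]⟩,⟨2,[(10,0),(18,2),(2,0),(7,0)]⟩⟩,.e
  ⟨false,1,⟨1,[(27,0),(18,0)]⟩,⟨0,[(9,0),(20,0)]⟩⟩ ⟨false,0,⟨5,[(0,4),(2,0),(2,3),(0,1),(2,3),(10,
  0),(0,0),(6,0)]⟩,⟨0,[(16,0),(13,0),(16,0)]⟩⟩]⟩) (.R ⟨0,false,false,true,[1,0,0,-1],[1,0,-1],[1,1],
  (⟨0,[(29,0)]⟩,⟨0,[(30,0)]⟩),(⟨0,[(38,0)]⟩,⟨0,[(39,0)]⟩),⟨0,[(0,0)]⟩,.k,.k,(.x (-1) ⟨15,[(15,3),(3,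
  3),(2,1),(4,6),(0,6),(11,0),(5,4)]⟩ ⟨0,[(42,0)]⟩),.k,.k,.k,⟨false,1,⟨119,[(3,11),(2,71),(5,23),(1,
  15),(10,23),(1,16),(0,16),(11,13)]⟩,⟨0,[(37,0)]⟩⟩,⟨true,0,⟨0,[(29,0),(2,0)]⟩,⟨18,[(0,9),(14,0),(3,
  4),(1,1),(4,6),(3,8),(9,0)]⟩⟩,⟨true,0,⟨0,[(4,0),(5,0),(14,0)]⟩,⟨0,[(1,0)]⟩⟩,⟨false,0,⟨0,[(9,0),
  (24,0)]⟩,⟨80,[(0,19),(0,19),(1,30),(1,60),(0,18),(3,13),(2,11),(1,4),(3,4),(20,7),(2,3)]⟩⟩,⟨false,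
  0,⟨0,[]⟩,⟨0,[]⟩⟩,⟨false,0,⟨0,[]⟩,⟨0,[]⟩⟩,[.o ⟨false,0,⟨0,[(31,0)]⟩,⟨39,[(3,11),(2,7),(1,7),(18,0),
  (0,0),(6,15),(4,5),(6,23)]⟩⟩,.e ⟨true,0,⟨0,[]⟩,⟨5,[(10,1),(16,0),(0,0),(7,1)]⟩⟩ ⟨true,0,⟨4,[(9,1),
  (3,0),(3,1),(4,0),(4,0),(1,2),(1,1),(2,0)]⟩,⟨8,[(0,3),(2,2),(2,2),(3,1),(4,0),(3,0),(10,4)]⟩⟩,.o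
  ⟨false,1,⟨1,[(30,1),(9,0),(5,0)]⟩,⟨2,[(10,0),(18,2),(2,0),(7,0)]⟩⟩,.a ⟨true,0,⟨0,[(30,0)]⟩,⟨0,
  [(29,0)]⟩⟩ ⟨false,1,⟨3,[(27,0),(0,0),(17,1)]⟩,⟨3,[(10,0),(25,0),(6,0),(3,0)]⟩⟩ ⟨true,0,⟨0,[(29,0),
  (1,0)]⟩,⟨8,[(0,3),(2,2),(2,2),(3,1),(4,0),(3,0),(10,4)]⟩⟩]⟩))) (.Q [0,0,-2,0,1,0,0,0,0,-1,0,1]
  (.p true [0,0,0,1] [1] (⟨0,[(28,0)]⟩,⟨0,[(27,0)]⟩) .k 1 (⟨0,[]⟩,⟨0,[]⟩) .k .k) (.Q [0,0,0,0,0,-1,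
  0,0,0,0,0,1] (.ed false [1,-1,0,1] .k) (.R ⟨1,false,false,true,[0,0,0,1],[0,1],[1,0,0,0,0,0,0,0,
  1],(⟨0,[(30,0)]⟩,⟨0,[(29,0)]⟩),(⟨0,[(42,0)]⟩,⟨0,[(41,0)]⟩),⟨0,[(0,0)]⟩,.k,.k,(.x 0 ⟨7,[(10,3),(4,
  1),(3,1),(2,1),(4,2),(0,2),(7,1)]⟩ ⟨1,[(7,0),(31,0),(6,1)]⟩),(.x 0 ⟨7,[(10,3),(4,1),(3,1),(2,1),
  (4,2),(0,2),(7,1)]⟩ ⟨1,[(7,0),(31,0),(6,1)]⟩),(.r (-1) ⟨0,[(4,0),(40,0)]⟩ ⟨91,[(12,31),(1,7),(2,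
  63),(2,31),(1,7),(4,54),(0,8),(7,15)]⟩),.k,⟨false,1,⟨4,[(1,0),(0,2),(1,0),(4,0),(3,1),(0,0),(32,
  0)]⟩,⟨1,[(10,0),(14,0),(1,0),(16,0)]⟩⟩,⟨true,1,⟨0,[(30,0),(15,0)]⟩,⟨0,[(10,0),(18,0),(2,0)]⟩⟩,
  ⟨true,0,⟨0,[]⟩,⟨0,[(49,0)]⟩⟩,⟨false,1,⟨0,[(5,0),(38,0)]⟩,⟨0,[(9,0),(35,0)]⟩⟩,⟨false,1,⟨5,[(14,1),
  (12,0),(0,0),(11,0),(6,2)]⟩,⟨0,[(45,0)]⟩⟩,⟨false,1,⟨3,[(1,0),(3,1),(8,1),(1,0),(3,0),(6,0),(2,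
  0)]⟩,⟨0,[(9,0),(35,1)]⟩⟩,[.o ⟨false,0,⟨0,[(44,0)]⟩,⟨3,[(13,1),(18,1),(2,1),(4,0),(6,0)]⟩⟩,.a
  ⟨true,0,⟨2,[(14,0),(14,1),(0,1)]⟩,⟨0,[(45,0)]⟩⟩ ⟨true,0,⟨8,[(2,6),(9,2),(4,0),(5,1),(4,0),(14,
  1)]⟩,⟨3,[(8,0),(1,1),(14,0),(1,1),(6,0),(14,0)]⟩⟩ ⟨false,1,⟨2,[(1,0),(12,0),(15,1),(15,1)]⟩,⟨2,
  [(10,0),(18,2),(2,0),(7,0),(4,2)]⟩⟩,.o ⟨false,0,⟨2,[(10,0),(18,2),(2,0),(7,0)]⟩,⟨7,[(1,3),(25,0),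
  (0,0),(1,3),(9,1)]⟩⟩,.o ⟨false,0,⟨11,[(8,3),(0,7),(0,5),(0,1),(15,4),(1,1),(2,1),(1,3),(5,0)]⟩,⟨0,
  [(1,0)]⟩⟩]⟩) (.R ⟨0,false,false,true,[0,0,0,1],[0,1],[1,0,0,0,0,0,0,0,1],(⟨0,[(30,0)]⟩,⟨0,[(29,
  0)]⟩),(⟨0,[(42,0)]⟩,⟨0,[(41,0)]⟩),⟨0,[(0,0)]⟩,.k,.k,(.x 0 ⟨7,[(10,3),(4,1),(3,1),(2,1),(4,2),(0,
  2),(7,1)]⟩ ⟨1,[(7,0),(31,0),(6,1)]⟩),(.x 0 ⟨7,[(10,3),(4,1),(3,1),(2,1),(4,2),(0,2),(7,1)]⟩ ⟨1,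
  [(7,0),(31,0),(6,1)]⟩),.k,.k,⟨false,1,⟨4,[(1,0),(0,2),(1,0),(4,0),(3,1),(0,0),(32,0)]⟩,⟨1,[(10,0),
  (14,0),(1,0),(16,0)]⟩⟩,⟨true,1,⟨0,[(30,0),(15,0)]⟩,⟨0,[(10,0),(18,0),(2,0)]⟩⟩,⟨true,0,⟨0,[]⟩,⟨0,
  [(49,0)]⟩⟩,⟨false,1,⟨0,[(5,0),(38,0)]⟩,⟨0,[(9,0),(35,0)]⟩⟩,⟨false,0,⟨0,[]⟩,⟨0,[]⟩⟩,⟨false,0,⟨0,
  []⟩,⟨0,[]⟩⟩,[.o ⟨false,0,⟨0,[(44,0)]⟩,⟨3,[(13,1),(18,1),(2,1),(4,0),(6,0)]⟩⟩,.a ⟨true,0,⟨2,[(14,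
  0),(14,1),(0,1)]⟩,⟨0,[(45,0)]⟩⟩ ⟨true,0,⟨8,[(2,6),(9,2),(4,0),(5,1),(4,0),(14,1)]⟩,⟨3,[(8,0),(1,
  1),(14,0),(1,1),(6,0),(14,0)]⟩⟩ ⟨false,1,⟨2,[(1,0),(12,0),(15,1),(15,1)]⟩,⟨11,[(0,3),(7,2),(0,5),
  (0,1),(4,0),(3,0),(7,2),(1,1),(1,2),(13,8)]⟩⟩,.o ⟨false,0,⟨2,[(10,0),(18,2),(2,0),(7,0)]⟩,⟨7,[(1,
  3),(25,0),(0,0),(1,3),(9,1)]⟩⟩,.o ⟨false,0,⟨11,[(8,3),(0,7),(0,5),(0,1),(15,4),(1,1),(2,1),(1,3),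
  (5,0)]⟩,⟨0,[(1,0)]⟩⟩]⟩)) (.K ⟨1,[1,0,0,-1],1,1,(⟨0,[(28,0)]⟩,⟨0,[(29,0)]⟩),.k,(.x (-1) ⟨15,[(14,
  3),(3,3),(2,1),(4,6),(0,6),(11,0),(5,4)]⟩ ⟨0,[(41,0)]⟩),(.x (-1) ⟨1,[(6,0),(31,0),(6,1)]⟩ ⟨7,[(9,
  3),(4,1),(3,1),(2,1),(4,2),(0,2),(7,1)]⟩),.k,.k,[⟨0,[(0,0)]⟩,⟨3,[(26,0),(0,0),(1,3),(9,1)]⟩,⟨0,
  [(0,0),(0,0),(41,0)]⟩,⟨0,[(4,0)]⟩]⟩)))) (.Q [0,0,0,0,0,-1,0,0,0,1,0,-1] (.ed true [0,1,0,1] .k)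
  (.R ⟨1,false,false,true,[1,0,0,-1],[0,-1,1],[1,1,0,0,0,0,0,0,-1],(⟨0,[(26,0)]⟩,⟨0,[(27,0)]⟩),(⟨4,
  [(10,2),(0,0),(0,2),(5,0),(0,0),(2,2)]⟩,⟨1,[(4,0),(21,0),(0,0),(7,0)]⟩),⟨0,[(0,0)]⟩,.k,.k,(.x
  (-1) ⟨15,[(12,3),(3,3),(2,1),(4,6),(0,6),(11,0),(5,4)]⟩ ⟨0,[(39,0)]⟩),(.r 0 ⟨9,[(11,0),(1,1),(0,
  4),(5,1),(2,0),(0,4),(9,0)]⟩ ⟨3,[(3,2),(2,1),(10,0),(4,0),(2,0),(1,1)]⟩),.k,.k,⟨false,0,⟨0,[(1,0),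
  (32,0),(8,0)]⟩,⟨3,[(3,2),(2,1),(10,0),(4,0),(2,0),(1,1)]⟩⟩,⟨true,(-1),⟨0,[(7,0),(18,0)]⟩,⟨3,[(19,
  1),(7,3),(9,0),(5,2)]⟩⟩,⟨false,0,⟨0,[]⟩,⟨3,[(24,0),(0,0),(18,1)]⟩⟩,⟨false,0,⟨6,[(5,6),(0,4),(0,0),
  (10,0),(4,1),(1,0),(0,1),(8,1),(2,0),(1,0)]⟩,⟨4,[(1,1),(0,2),(6,1),(0,2),(2,4),(6,1),(6,1),(15,
  0)]⟩⟩,⟨true,0,⟨0,[(41,0)]⟩,⟨0,[(42,0)]⟩⟩,⟨false,0,⟨5,[(5,4),(0,3),(1,1),(6,0),(2,0),(2,0),(1,1),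
  (11,0)]⟩,⟨2,[(1,0),(0,1),(7,1),(2,2),(13,0),(12,0)]⟩⟩,[.o ⟨false,0,⟨5,[(3,1),(1,1),(1,1),(15,0),
  (4,0),(1,2)]⟩,⟨0,[(13,0),(30,0)]⟩⟩,.a ⟨true,0,⟨5,[(3,1),(1,2),(1,1),(7,0),(2,1),(16,3),(2,1),(1,
  0)]⟩,⟨0,[(20,0),(1,0)]⟩⟩ ⟨true,0,⟨35,[(1,31),(1,7),(0,2),(5,7),(5,4),(1,3),(5,1),(3,4),(2,2),(11,
  13)]⟩,⟨2,[(5,0),(0,0),(7,0),(10,0),(1,0)]⟩⟩ ⟨false,0,⟨4,[(0,4),(2,2),(0,1),(0,0),(1,2),(1,0),(8,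
  0)]⟩,⟨1,[(13,1),(13,1),(15,0),(0,0)]⟩⟩,.o ⟨false,1,⟨1,[(27,1),(9,0),(5,0)]⟩,⟨2,[(7,0),(18,2),(2,
  0),(7,0)]⟩⟩,.e ⟨false,1,⟨1,[(24,0),(18,0)]⟩,⟨0,[(6,0),(20,0)]⟩⟩ ⟨false,0,⟨4,[(0,4),(2,2),(0,1),(0,
  0),(1,2),(1,0),(8,0)]⟩,⟨0,[(13,0),(13,0),(16,0)]⟩⟩]⟩) (.R ⟨0,false,false,true,[1,0,0,-1],[1,0,-1],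
  [0,0,0,-1,0,0,0,0,-1],(⟨0,[(26,0)]⟩,⟨0,[(27,0)]⟩),(⟨0,[(35,0)]⟩,⟨0,[(36,0)]⟩),⟨0,[(0,0)]⟩,.k,.k,
  (.x (-1) ⟨15,[(12,3),(3,3),(2,1),(4,6),(0,6),(11,0),(5,4)]⟩ ⟨0,[(39,0)]⟩),.k,.k,.k,⟨false,1,⟨6,
  [(1,2),(1,3),(5,2),(0,3),(13,1)]⟩,⟨1,[(0,1),(3,0),(1,1),(9,2),(1,1),(3,1),(5,0),(2,0)]⟩⟩,⟨true,0,
  ⟨0,[(26,0),(2,0)]⟩,⟨18,[(0,9),(11,0),(3,4),(1,1),(4,6),(3,8),(9,0)]⟩⟩,⟨true,0,⟨0,[(42,0)]⟩,⟨0,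
  [(41,0)]⟩⟩,⟨false,0,⟨0,[(6,0),(24,0)]⟩,⟨13,[(0,2),(0,2),(0,10),(0,2),(3,2),(1,3),(0,5),(5,1),(0,
  6),(0,0),(4,0)]⟩⟩,⟨false,0,⟨0,[]⟩,⟨0,[]⟩⟩,⟨false,0,⟨0,[]⟩,⟨0,[]⟩⟩,[.o ⟨false,0,⟨0,[(28,0)]⟩,⟨0,
  [(30,0),(13,0)]⟩⟩,.e ⟨true,0,⟨0,[(1,0),(8,0)]⟩,⟨1,[(7,0),(14,0),(2,0),(15,0)]⟩⟩ ⟨true,0,⟨4,[(6,1),
  (3,0),(3,1),(4,0),(4,0),(1,2),(1,1),(2,0)]⟩,⟨14,[(0,9),(2,2),(0,1),(0,5),(1,2),(1,5),(6,9),(1,5),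
  (8,4)]⟩⟩,.o ⟨false,1,⟨1,[(27,1),(9,0),(5,0)]⟩,⟨2,[(7,0),(18,2),(2,0),(7,0)]⟩⟩,.a ⟨true,0,⟨0,[(27,
  0)]⟩,⟨0,[(26,0)]⟩⟩ ⟨false,1,⟨6,[(1,0),(7,0),(0,4),(9,0),(3,2)]⟩,⟨26,[(0,7),(5,8),(0,6),(3,5),(0,
  1),(3,1),(5,8),(2,8),(1,0)]⟩⟩ ⟨true,0,⟨0,[(26,0),(1,0)]⟩,⟨14,[(0,9),(2,2),(0,1),(0,5),(1,2),(1,5),
  (6,9),(1,5),(8,4)]⟩⟩]⟩))))))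

theorem ok218 : chk (cU (-1) true 10) t218 l118 = true := by decide +kernel

end Helper11.CT.Tm1_34_m1_m1_u
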