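import Pool.Agent.Helper11.CT.T.Tm1_34_m1_m1_u_p0
import Pool.Agent.Helper11.CT.T.Tm1_34_m1_m1_u_p1
import Pool.Agent.Helper11.CT.T.Tm1_34_m1_m1_u_p2
import Pool.Agent.Helper11.CT.T.Tm1_34_m1_m1_u_p3
import Pool.Agent.Helper11.CT.T.Tm1_34_m1_m1_u_p4
import Pool.Agent.Helper11.CT.T.Tm1_34_m1_m1_u_p5
import Pool.Agent.Helper11.CT.T.Tm1_34_m1_m1_u_p6
import Pool.Agent.Helper11.CT.T.Tm1_34_m1_m1_u_p7

set_option autoImplicit false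
set_option linter.all false

namespace Helper11.CT.Tm1_34_m1_m1_u

open Helper11.CT

noncomputable def t4 : Tre :=
  .Q [0,0,0,-1,0,0,-1,-1,0,-1,1] (.p true [0,0,1] [1] (⟨0,[(18,0)]⟩,⟨0,[(17,0)]⟩) .k 1 (⟨0,[]⟩,⟨0,
  []⟩) .k .k) t2 t3

theorem ok4 : chk (cU (-1) true 10) t4 r3 = true :=
  chk_Q (e' := [0,0,0,1,0,0,1,1,0,1,-1]) (by decide +kernel) (by decide +kernel) ok2 ok3

noncomputable def t5 : Tre :=
  .Q [0,0,-1,0,0,0,0,-1,0,1] (.pp false [-1,1]) t1 t4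

theorem ok5 : chk (cU (-1) true 10) t5 l2 = true :=
  chk_Q (e' := [0,0,1,0,0,0,0,1,0,-1]) (by decide +kernel) (by decide +kernel) ok1 ok4

noncomputable def t15 : Tre :=
  .Q [0,0,2,0,-1,0,1,0,0,1,-1] (.p false [0,0,1] [1] (⟨0,[(25,0)]⟩,⟨0,[(24,0)]⟩) .k 1 (⟨0,[]⟩,⟨0,
  []⟩) .k .k) t13 t14

theorem ok15 : chk (cU (-1) true 10) t15 r12 = true :=
  chk_Q (e' := [0,0,-2,0,1,0,-1,0,0,-1,1]) (by decide +kernel) (by decide +kernel) ok13 ok14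

noncomputable def t16 : Tre :=
  .Q [0,0,0,-1,0,0,1,1,0,1,-1] (.p false [0,0,1] [1] (⟨0,[(24,0)]⟩,⟨0,[(23,0)]⟩) .k 1 (⟨0,[]⟩,⟨0,
  []⟩) .k .k) t12 t15

theorem ok16 : chk (cU (-1) true 10) t16 r11 = true :=
  chk_Q (e' := [0,0,0,1,0,0,-1,-1,0,-1,1]) (by decide +kernel) (by decide +kernel) ok12 ok15

noncomputable def t17 : Tre :=
  .Q [0,0,0,0,0,1,0,0,0,0,-1] (.ed true [1,-1,1] .k) t11 t16

theorem ok17 : chk (cU (-1) true 10) t17 r10 = true :=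
  chk_Q (e' := [0,0,0,0,0,-1,0,0,0,0,1]) (by decide +kernel) (by decide +kernel) ok11 ok16

noncomputable def t18 : Tre :=
  .Q [0,0,0,-1,0,0,1,1,0,0,-1] (.p false [0,0,1] [] (⟨0,[(22,0)]⟩,⟨0,[(21,0)]⟩) .k 0 (⟨0,[]⟩,⟨0,
  []⟩) .k .k) t10 t17

theorem ok18 : chk (cU (-1) true 10) t18 r9 = true :=
  chk_Q (e' := [0,0,0,1,0,0,-1,-1,0,0,1]) (by decide +kernel) (by decide +kernel) ok10 ok17

noncomputable def t19 : Tre :=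
  .Q [0,0,0,0,0,0,-1,0,0,0,1] (.p true [0,0,1] [] (⟨0,[(21,0)]⟩,⟨0,[(20,0)]⟩) .k 0 (⟨0,[]⟩,⟨0,[]⟩)
  .k .k) t9 t18

theorem ok19 : chk (cU (-1) true 10) t19 r8 = true :=
  chk_Q (e' := [0,0,0,0,0,0,1,0,0,0,-1]) (by decide +kernel) (by decide +kernel) ok9 ok18

noncomputable def t20 : Tre :=
  .Q [0,-1,0,-1,0,0,-1,-1,0,-1,1] (.p true [0,0,1] [1] (⟨0,[(20,0)]⟩,⟨0,[(19,0)]⟩) .k 1 (⟨0,[]⟩,⟨0,
  []⟩) .k .k) t8 t19

theorem ok20 : chk (cU (-1) true 10) t20 r7 = true :=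
  chk_Q (e' := [0,1,0,1,0,0,1,1,0,1,-1]) (by decide +kernel) (by decide +kernel) ok8 ok19

noncomputable def t21 : Tre :=
  .I [1,1,1,0,-1,0,0,0,-1] t7 t20

theorem ok21 : chk (cU (-1) true 10) t21 l6 = true :=
  chk_I (e' := [0,-1,-1,0,1,0,0,0,1]) (by decide +kernel) (by decide +kernel) ok7 ok20

noncomputable def t23 : Tre :=
  .Q [0,0,0,0,0,0,-1,-1,0,-1,1] (.p true [0,0,1] [1] (⟨0,[(18,0)]⟩,⟨0,[(17,0)]⟩) .k 1 (⟨0,[]⟩,⟨0,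
  []⟩) .k .k) t21 t22

theorem ok23 : chk (cU (-1) true 10) t23 r5 = true :=
  chk_Q (e' := [0,0,0,0,0,0,1,1,0,1,-1]) (by decide +kernel) (by decide +kernel) ok21 ok22

noncomputable def t24 : Tre :=
  .Q [0,0,0,1,0,0,0,0,0,1] (.pp false [-1,1]) t6 t23

theorem ok24 : chk (cU (-1) true 10) t24 r2 = true :=
  chk_Q (e' := [0,0,0,-1,0,0,0,0,0,-1]) (by decide +kernel) (by decide +kernel) ok6 ok23

noncomputable def t25 : Tre :=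
  .Q [0,0,0,1,0,0,1,0,0,1,-1] (.p false [0,0,1] [1] (⟨0,[(16,0)]⟩,⟨0,[(15,0)]⟩) .k 1 (⟨0,[]⟩,⟨0,
  []⟩) .k .k) t5 t24

theorem ok25 : chk (cU (-1) true 10) t25 r1 = true :=
  chk_Q (e' := [0,0,0,-1,0,0,-1,0,0,-1,1]) (by decide +kernel) (by decide +kernel) ok5 ok24

noncomputable def t26 : Tre :=
  .Q [0,-1,0,1,0,0,1,1,0,2,-1] (.p false [-1,1,1] [1] (⟨0,[(0,0)]⟩,⟨0,[(14,0),(2,0)]⟩) .k 1 (⟨0,[]⟩,
  ⟨0,[]⟩) .k .k) t0 t25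

theorem ok26 : chk (cU (-1) true 10) t26 l0 = true :=
  chk_Q (e' := [0,1,0,-1,0,0,-1,-1,0,-2,1]) (by decide +kernel) (by decide +kernel) ok0 ok25

noncomputable def t31 : Tre :=
  .Q [0,0,0,0,0,-1,0,0,0,0,1] (.ed false [1,-1,1] .k) t29 t30

theorem ok31 : chk (cU (-1) true 10) t31 r18 = true :=
  chk_Q (e' := [0,0,0,0,0,1,0,0,0,0,-1]) (by decide +kernel) (by decide +kernel) ok29 ok30

noncomputable def t32 : Tre :=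
  .Q [0,0,0,0,0,0,0,1,0,1] (.pp false [-1,1]) t28 t31

theorem ok32 : chk (cU (-1) true 10) t32 r17 = true :=
  chk_Q (e' := [0,0,0,0,0,0,0,-1,0,-1]) (by decide +kernel) (by decide +kernel) ok28 ok31

noncomputable def t33 : Tre :=
  .Q [0,0,0,0,0,0,2,1,0,1,-2] (.p false [0,0,1] [1,0,-1] (⟨0,[(18,0)]⟩,⟨0,[(17,0)]⟩) .k 2 (⟨0,[(17,
  0)]⟩,⟨0,[(18,0)]⟩) .k (.r (-1) ⟨0,[(2,1),(23,0)]⟩ ⟨0,[(16,1)]⟩)) t27 t32

theorem ok33 : chk (cU (-1) true 10) t33 l16 = true :=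
  chk_Q (e' := [0,0,0,0,0,0,-2,-1,0,-1,2]) (by decide +kernel) (by decide +kernel) ok27 ok32

noncomputable def t35 : Tre :=
  .Q [0,0,0,-1,0,0,-1,0,0,0,1] (.p true [0,0,1] [] (⟨0,[(17,0)]⟩,⟨0,[(16,0)]⟩) .k 0 (⟨0,[]⟩,⟨0,[]⟩)
  .k .k) t33 t34

theorem ok35 : chk (cU (-1) true 10) t35 l15 = true :=
  chk_Q (e' := [0,0,0,1,0,0,1,0,0,0,-1]) (by decide +kernel) (by decide +kernel) ok33 ok34

noncomputable def t37 : Tre :=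
  .Q [0,0,0,-1,0,0,1,0,0,0,-1] (.p false [0,0,1] [] (⟨0,[(16,0)]⟩,⟨0,[(15,0)]⟩) .k 0 (⟨0,[]⟩,⟨0,
  []⟩) .k .k) t35 t36

theorem ok37 : chk (cU (-1) true 10) t37 l14 = true :=
  chk_Q (e' := [0,0,0,1,0,0,-1,0,0,0,1]) (by decide +kernel) (by decide +kernel) ok35 ok36

noncomputable def t47 : Tre :=
  .Q [0,1,0,-1,0,0,0,0,0,-1] (.pp true [-1,1]) t45 t46

theorem ok47 : chk (cU (-1) true 10) t47 r31 = true :=
  chk_Q (e' := [0,-1,0,1,0,0,0,0,0,1]) (by decide +kernel) (by decide +kernel) ok45 ok46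

noncomputable def t48 : Tre :=
  .I [0,0,1,1,0,0,0,2] t44 t47

theorem ok48 : chk (cU (-1) true 10) t48 r30 = true :=
  chk_I (e' := [1,0,-1,-1,0,0,0,-2]) (by decide +kernel) (by decide +kernel) ok44 ok47

noncomputable def t49 : Tre :=
  .Q [0,0,2,0,-1,0,1,0,0,1,-1] (.p false [0,0,1] [1] (⟨0,[(26,0)]⟩,⟨0,[(25,0)]⟩) .k 1 (⟨0,[]⟩,⟨0,
  []⟩) .k .k) t43 t48

theorem ok49 : chk (cU (-1) true 10) t49 r29 = true :=
  chk_Q (e' := [0,0,-2,0,1,0,-1,0,0,-1,1]) (by decide +kernel) (by decide +kernel) ok43 ok48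

noncomputable def t50 : Tre :=
  .Q [0,-1,0,-1,0,0,1,1,0,1,-1] (.p false [0,0,1] [1] (⟨0,[(25,0)]⟩,⟨0,[(24,0)]⟩) .k 1 (⟨0,[]⟩,⟨0,
  []⟩) .k .k) t42 t49

theorem ok50 : chk (cU (-1) true 10) t50 l28 = true :=
  chk_Q (e' := [0,1,0,1,0,0,-1,-1,0,-1,1]) (by decide +kernel) (by decide +kernel) ok42 ok49

noncomputable def t52 : Tre :=
  .Q [0,0,0,0,0,-2,0,0,0,0,1] (.p true [0,0,1] [] (⟨0,[(24,0)]⟩,⟨0,[(23,0)]⟩) .k 0 (⟨0,[]⟩,⟨0,[]⟩)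
  .k .k) t50 t51

theorem ok52 : chk (cU (-1) true 10) t52 r27 = true :=
  chk_Q (e' := [0,0,0,0,0,2,0,0,0,0,-1]) (by decide +kernel) (by decide +kernel) ok50 ok51

noncomputable def t53 : Tre :=
  .Q [0,0,0,-2,0,0,1,1,0,0,-1] (.p false [0,0,1] [] (⟨0,[(23,0)]⟩,⟨0,[(22,0)]⟩) .k 0 (⟨0,[]⟩,⟨0,
  []⟩) .k .k) t41 t52

theorem ok53 : chk (cU (-1) true 10) t53 l26 = true :=
  chk_Q (e' := [0,0,0,2,0,0,-1,-1,0,0,1]) (by decide +kernel) (by decide +kernel) ok41 ok52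

noncomputable def t55 : Tre :=
  .Q [0,0,-2,-1,1,0,-1,0,0,-1,1] (.p true [0,0,1] [1] (⟨0,[(22,0)]⟩,⟨0,[(21,0)]⟩) .k 1 (⟨0,[]⟩,⟨0,
  []⟩) .k .k) t53 t54

theorem ok55 : chk (cU (-1) true 10) t55 l25 = true :=
  chk_Q (e' := [0,0,2,1,-1,0,1,0,0,1,-1]) (by decide +kernel) (by decide +kernel) ok53 ok54

noncomputable def t57 : Tre :=
  .I [1,-1,-2,-2,1] t55 t56

theorem ok57 : chk (cU (-1) true 10) t57 r24 = true :=
  chk_I (e' := [0,1,2,2,-1]) (by decide +kernel) (by decide +kernel) ok55 ok56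

noncomputable def t58 : Tre :=
  .I [0,0,-1,0,0,1,2] t40 t57

theorem ok58 : chk (cU (-1) true 10) t58 r23 = true :=
  chk_I (e' := [1,0,1,0,0,-1,-2]) (by decide +kernel) (by decide +kernel) ok40 ok57

noncomputable def t59 : Tre :=
  .I [0,0,1,0,0,-1,-2] t39 t58

theorem ok59 : chk (cU (-1) true 10) t59 l22 = true :=
  chk_I (e' := [1,0,-1,0,0,1,2]) (by decide +kernel) (by decide +kernel) ok39 ok58

noncomputable def t61 : Tre :=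
  .Q [0,0,0,0,0,-2,0,0,0,1,-1] (.p false [0,0,1] [1] (⟨0,[(18,0)]⟩,⟨0,[(17,0)]⟩) .k 1 (⟨0,[]⟩,⟨0,
  []⟩) .k .k) t59 t60

theorem ok61 : chk (cU (-1) true 10) t61 r21 = true :=
  chk_Q (e' := [0,0,0,0,0,2,0,0,0,-1,1]) (by decide +kernel) (by decide +kernel) ok59 ok60

noncomputable def t62 : Tre :=
  .I [0,0,-1,-1,0,0,0,-2] t38 t61

theorem ok62 : chk (cU (-1) true 10) t62 l20 = true :=
  chk_I (e' := [1,0,1,1,0,0,0,2]) (by decide +kernel) (by decide +kernel) ok38 ok61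

noncomputable def t74 : Tre :=
  .Q [0,0,-2,0,1,0,-1,0,0,-1,1] (.p true [0,0,1] [1] (⟨0,[(31,0)]⟩,⟨0,[(30,0)]⟩) .k 1 (⟨0,[]⟩,⟨0,
  []⟩) .k .k) t72 t73

theorem ok74 : chk (cU (-1) true 10) t74 r46 = true :=
  chk_Q (e' := [0,0,2,0,-1,0,1,0,0,1,-1]) (by decide +kernel) (by decide +kernel) ok72 ok73

noncomputable def t75 : Tre :=
  .Q [0,1,1,0,-1,0,0,0,1,0,0,-1] (.p false [0,0,0,1] [] (⟨0,[(21,0)]⟩,⟨0,[(20,0)]⟩) .k 0 (⟨0,[]⟩,⟨0,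
  []⟩) .k .k) t71 t74

theorem ok75 : chk (cU (-1) true 10) t75 r45 = true :=
  chk_Q (e' := [0,-1,-1,0,1,0,0,0,-1,0,0,1]) (by decide +kernel) (by decide +kernel) ok71 ok74

noncomputable def t76 : Tre :=
  .Q [0,0,0,-1,0,0,1,1,0,1,-1] (.p false [0,0,1] [1] (⟨0,[(29,0)]⟩,⟨0,[(28,0)]⟩) .k 1 (⟨0,[]⟩,⟨0,
  []⟩) .k .k) t70 t75

theorem ok76 : chk (cU (-1) true 10) t76 l44 = true :=
  chk_Q (e' := [0,0,0,1,0,0,-1,-1,0,-1,1]) (by decide +kernel) (by decide +kernel) ok70 ok75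

noncomputable def t81 : Tre :=
  .Q [0,0,0,-1,0,0,1,1,0,1,-1] (.p false [0,0,1] [1] (⟨0,[(33,0)]⟩,⟨0,[(32,0)]⟩) .k 1 (⟨0,[]⟩,⟨0,
  []⟩) .k .k) t79 t80

theorem ok81 : chk (cU (-1) true 10) t81 r51 = true :=
  chk_Q (e' := [0,0,0,1,0,0,-1,-1,0,-1,1]) (by decide +kernel) (by decide +kernel) ok79 ok80

noncomputable def t82 : Tre :=
  .Q [0,0,2,0,-1,0,1,0,0,1,-1] (.p false [0,0,1] [1] (⟨0,[(32,0)]⟩,⟨0,[(31,0)]⟩) .k 1 (⟨0,[]⟩,⟨0,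
  []⟩) .k .k) t78 t81

theorem ok82 : chk (cU (-1) true 10) t82 l50 = true :=
  chk_Q (e' := [0,0,-2,0,1,0,-1,0,0,-1,1]) (by decide +kernel) (by decide +kernel) ok78 ok81

noncomputable def t85 : Tre :=
  .I [1,-1,1,1,0,0,0,0,1] t83 t84

theorem ok85 : chk (cU (-1) true 10) t85 l53 = true :=
  chk_I (e' := [0,1,-1,-1,0,0,0,0,-1]) (by decide +kernel) (by decide +kernel) ok83 ok84

noncomputable def t87 : Tre :=
  .Q [0,0,0,2,0,0,-1,-1,0,0,1] (.p true [0,0,1] [] (⟨0,[(32,0)]⟩,⟨0,[(31,0)]⟩) .k 0 (⟨0,[]⟩,⟨0,[]⟩)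
  .k .k) t85 t86

theorem ok87 : chk (cU (-1) true 10) t87 r50 = true :=
  chk_Q (e' := [0,0,0,-2,0,0,1,1,0,0,-1]) (by decide +kernel) (by decide +kernel) ok85 ok86

noncomputable def t88 : Tre :=
  .I [0,0,-2,0,1,2,-1] t82 t87

theorem ok88 : chk (cU (-1) true 10) t88 r49 = true :=
  chk_I (e' := [1,0,2,0,-1,-2,1]) (by decide +kernel) (by decide +kernel) ok82 ok87

noncomputable def t89 : Tre :=
  .Q [0,0,0,-2,0,0,2,2,0,1,-2] (.p false [0,0,1] [1,0,-1] (⟨0,[(30,0)]⟩,⟨0,[(29,0)]⟩) .k 2 (⟨0,[(29,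
  0)]⟩,⟨0,[(30,0)]⟩) .k (.r (-1) ⟨21,[(5,15),(1,19),(8,11),(1,2),(0,2),(4,23),(2,11)]⟩ ⟨0,[(28,
  1)]⟩)) t77 t88

theorem ok89 : chk (cU (-1) true 10) t89 l48 = true :=
  chk_Q (e' := [0,0,0,2,0,0,-2,-2,0,-1,2]) (by decide +kernel) (by decide +kernel) ok77 ok88

noncomputable def t100 : Tre :=
  .I [0,0,-2,-2,1,0,0,0,1] t98 t99

theorem ok100 : chk (cU (-1) true 10) t100 r65 = true :=
  chk_I (e' := [1,0,2,2,-1,0,0,0,-1]) (by decide +kernel) (by decide +kernel) ok98 ok99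

noncomputable def t101 : Tre :=
  .Q [0,1,1,-1,0,0,0,0,1,0,0,-1] (.p false [0,0,0,1] [] (⟨0,[(31,0)]⟩,⟨0,[(30,0)]⟩) .k 0 (⟨0,[]⟩,⟨0,
  []⟩) .k .k) t97 t100

theorem ok101 : chk (cU (-1) true 10) t101 r64 = true :=
  chk_Q (e' := [0,-1,-1,1,0,0,0,0,-1,0,0,1]) (by decide +kernel) (by decide +kernel) ok97 ok100

noncomputable def t102 : Tre :=
  .Q [0,0,1,0,0,0,0,0,1,1,0,-1] (.p false [0,0,0,1] [1] (⟨0,[(30,0)]⟩,⟨0,[(29,0)]⟩) .k 1 (⟨0,[]⟩,⟨0,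
  []⟩) .k .k) t96 t101

theorem ok102 : chk (cU (-1) true 10) t102 r63 = true :=
  chk_Q (e' := [0,0,-1,0,0,0,0,0,-1,-1,0,1]) (by decide +kernel) (by decide +kernel) ok96 ok101

noncomputable def t103 : Tre :=
  .I [0,1,-1,-1,0,0,0,1,-1] t95 t102

theorem ok103 : chk (cU (-1) true 10) t103 l62 = true :=
  chk_I (e' := [1,-1,1,1,0,0,0,-1,1]) (by decide +kernel) (by decide +kernel) ok95 ok102

noncomputable def t105 : Tre :=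
  .Q [0,0,0,0,0,0,-1,-1,0,0,1,-1] (.p true [0,0,1] [0,0,0,1] (⟨0,[(37,0)]⟩,⟨0,[(36,0)]⟩) .k 2 (⟨0,
  [(28,0)]⟩,⟨0,[(27,0)]⟩) .k (.r 0 ⟨0,[(1,0),(25,0),(2,0),(0,0)]⟩ ⟨3,[(25,0),(0,2),(8,3)]⟩)) t103
  t104

theorem ok105 : chk (cU (-1) true 10) t105 r61 = true :=
  chk_Q (e' := [0,0,0,0,0,0,1,1,0,0,-1,1]) (by decide +kernel) (by decide +kernel) ok103 ok104

noncomputable def t106 : Tre :=
  .Q [0,0,0,0,0,1,0,0,0,-1,0,1] (.ed false [0,1,0,1] .k) t94 t105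

theorem ok106 : chk (cU (-1) true 10) t106 r60 = true :=
  chk_Q (e' := [0,0,0,0,0,-1,0,0,0,1,0,-1]) (by decide +kernel) (by decide +kernel) ok94 ok105

noncomputable def t107 : Tre :=
  .Q [0,1,1,0,0,0,0,0,1,0,0,-1] (.p false [0,0,0,1] [] (⟨0,[(26,0)]⟩,⟨0,[(25,0)]⟩) .k 0 (⟨0,[]⟩,⟨0,
  []⟩) .k .k) t93 t106

theorem ok107 : chk (cU (-1) true 10) t107 l59 = true :=
  chk_Q (e' := [0,-1,-1,0,0,0,0,0,-1,0,0,1]) (by decide +kernel) (by decide +kernel) ok93 ok106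

noncomputable def t109 : Tre :=
  .Q [0,1,-1,0,0,0,0,0,-1,0,0,1] (.p true [0,0,0,1] [] (⟨0,[(25,0)]⟩,⟨0,[(24,0)]⟩) .k 0 (⟨0,[]⟩,⟨0,
  []⟩) .k .k) t107 t108

theorem ok109 : chk (cU (-1) true 10) t109 l58 = true :=
  chk_Q (e' := [0,-1,1,0,0,0,0,0,1,0,0,-1]) (by decide +kernel) (by decide +kernel) ok107 ok108

noncomputable def t111 : Tre :=
  .I [0,1,1,0,0,0,0,0,1] t109 t110

theorem ok111 : chk (cU (-1) true 10) t111 r57 = true :=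
  chk_I (e' := [1,-1,-1,0,0,0,0,0,-1]) (by decide +kernel) (by decide +kernel) ok109 ok110

noncomputable def t112 : Tre :=
  .I [0,0,0,0,0,0,0,0,1] t92 t111

theorem ok112 : chk (cU (-1) true 10) t112 r56 = true :=
  chk_I (e' := [1,0,0,0,0,0,0,0,-1]) (by decide +kernel) (by decide +kernel) ok92 ok111

noncomputable def t113 : Tre :=
  .Q [0,0,0,-2,0,0,2,2,0,1,-2] (.p false [0,0,1] [1,0,-1] (⟨0,[(31,0)]⟩,⟨0,[(30,0)]⟩) .k 2 (⟨0,[(30,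
  0)]⟩,⟨0,[(31,0)]⟩) .k (.r (-1) ⟨21,[(6,15),(1,19),(8,11),(1,2),(0,2),(4,23),(2,11)]⟩ ⟨0,[(29,
  1)]⟩)) t91 t112

theorem ok113 : chk (cU (-1) true 10) t113 r55 = true :=
  chk_Q (e' := [0,0,0,2,0,0,-2,-2,0,-1,2]) (by decide +kernel) (by decide +kernel) ok91 ok112

noncomputable def t114 : Tre :=
  .Q [0,0,0,0,0,2,0,0,0,0,-1] (.p false [0,0,1] [] (⟨0,[(30,0)]⟩,⟨0,[(29,0)]⟩) .k 0 (⟨0,[]⟩,⟨0,[]⟩)
  .k .k) t90 t113

theorem ok114 : chk (cU (-1) true 10) t114 r48 = true :=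
  chk_Q (e' := [0,0,0,0,0,-2,0,0,0,0,1]) (by decide +kernel) (by decide +kernel) ok90 ok113

noncomputable def t115 : Tre :=
  .Q [0,0,2,0,-1,0,2,0,0,1,-2] (.p false [0,0,1] [1,0,-1] (⟨0,[(29,0)]⟩,⟨0,[(28,0)]⟩) .k 2 (⟨0,[(28,
  0)]⟩,⟨0,[(29,0)]⟩) .k (.r (-1) ⟨21,[(4,15),(1,19),(8,11),(1,2),(0,2),(4,23),(2,11)]⟩ ⟨0,[(27,
  1)]⟩)) t89 t114

theorem ok115 : chk (cU (-1) true 10) t115 r44 = true :=
  chk_Q (e' := [0,0,-2,0,1,0,-2,0,0,-1,2]) (by decide +kernel) (by decide +kernel) ok89 ok114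

noncomputable def t116 : Tre :=
  .I [0,1,-1,-2,0,0,0,-1] t76 t115

theorem ok116 : chk (cU (-1) true 10) t116 r43 = true :=
  chk_I (e' := [1,-1,1,2,0,0,0,1]) (by decide +kernel) (by decide +kernel) ok76 ok115

noncomputable def t117 : Tre :=
  .Q [0,0,0,-1,0,0,2,2,0,1,-2] (.p false [0,0,1] [1,0,-1] (⟨0,[(27,0)]⟩,⟨0,[(26,0)]⟩) .k 2 (⟨0,[(26,
  0)]⟩,⟨0,[(27,0)]⟩) .k (.r (-1) ⟨21,[(2,15),(1,19),(8,11),(1,2),(0,2),(4,23),(2,11)]⟩ ⟨0,[(25,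
  1)]⟩)) t69 t116

theorem ok117 : chk (cU (-1) true 10) t117 r42 = true :=
  chk_Q (e' := [0,0,0,1,0,0,-2,-2,0,-1,2]) (by decide +kernel) (by decide +kernel) ok69 ok116

noncomputable def t118 : Tre :=
  .Q [0,0,0,0,0,0,2,2,0,1,-2] (.p false [0,0,1] [1,0,-1] (⟨0,[(26,0)]⟩,⟨0,[(25,0)]⟩) .k 2 (⟨0,[(25,
  0)]⟩,⟨0,[(26,0)]⟩) .k (.r (-1) ⟨21,[(1,15),(1,19),(8,11),(1,2),(0,2),(4,23),(2,11)]⟩ ⟨0,[(24,
  1)]⟩)) t68 t117

theorem ok118 : chk (cU (-1) true 10) t118 l41 = true :=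
  chk_Q (e' := [0,0,0,0,0,0,-2,-2,0,-1,2]) (by decide +kernel) (by decide +kernel) ok68 ok117

noncomputable def t128 : Tre :=
  .I [0,0,-2,-2,1,0,0,1] t126 t127

theorem ok128 : chk (cU (-1) true 10) t128 r74 = true :=
  chk_I (e' := [1,0,2,2,-1,0,0,-1]) (by decide +kernel) (by decide +kernel) ok126 ok127

noncomputable def t129 : Tre :=
  .I [0,0,2,2,-1,0,0,-1] t125 t128

theorem ok129 : chk (cU (-1) true 10) t129 r73 = true :=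
  chk_I (e' := [1,0,-2,-2,1,0,0,1]) (by decide +kernel) (by decide +kernel) ok125 ok128

noncomputable def t130 : Tre :=
  .I [0,0,2,0,-1,-2,1] t124 t129

theorem ok130 : chk (cU (-1) true 10) t130 r72 = true :=
  chk_I (e' := [1,0,-2,0,1,2,-1]) (by decide +kernel) (by decide +kernel) ok124 ok129

noncomputable def t131 : Tre :=
  .I [0,0,-2,0,1,2,-1] t123 t130

theorem ok131 : chk (cU (-1) true 10) t131 l71 = true :=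
  chk_I (e' := [1,0,2,0,-1,-2,1]) (by decide +kernel) (by decide +kernel) ok123 ok130

noncomputable def t133 : Tre :=
  .Q [0,0,-2,0,1,0,-1,0,0,0,1] (.p true [0,0,1] [] (⟨0,[(30,0)]⟩,⟨0,[(29,0)]⟩) .k 0 (⟨0,[]⟩,⟨0,[]⟩)
  .k .k) t131 t132

theorem ok133 : chk (cU (-1) true 10) t133 r70 = true :=
  chk_Q (e' := [0,0,2,0,-1,0,1,0,0,0,-1]) (by decide +kernel) (by decide +kernel) ok131 ok132

noncomputable def t134 : Tre :=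
  .I [1,0,-2,-1,1,0,0,1] t122 t133

theorem ok134 : chk (cU (-1) true 10) t134 r69 = true :=
  chk_I (e' := [0,0,2,1,-1,0,0,-1]) (by decide +kernel) (by decide +kernel) ok122 ok133

noncomputable def t135 : Tre :=
  .Q [0,-1,0,-1,0,0,1,1,0,1,-1] (.p false [0,0,1] [1] (⟨0,[(28,0)]⟩,⟨0,[(27,0)]⟩) .k 1 (⟨0,[]⟩,⟨0,
  []⟩) .k .k) t121 t134

theorem ok135 : chk (cU (-1) true 10) t135 r68 = true :=
  chk_Q (e' := [0,1,0,1,0,0,-1,-1,0,-1,1]) (by decide +kernel) (by decide +kernel) ok121 ok134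

noncomputable def t136 : Tre :=
  .Q [0,0,-2,-1,1,0,-1,0,0,-1,1] (.p true [0,0,1] [1] (⟨0,[(27,0)]⟩,⟨0,[(26,0)]⟩) .k 1 (⟨0,[]⟩,⟨0,
  []⟩) .k .k) t120 t135

theorem ok136 : chk (cU (-1) true 10) t136 r67 = true :=
  chk_Q (e' := [0,0,2,1,-1,0,1,0,0,1,-1]) (by decide +kernel) (by decide +kernel) ok120 ok135

noncomputable def t137 : Tre :=
  .Q [0,0,0,-2,0,0,-2,-2,0,-1,2] (.p true [0,0,1] [1,0,-1] (⟨0,[(26,0)]⟩,⟨0,[(25,0)]⟩) .k 2 (⟨0,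
  [(25,0)]⟩,⟨0,[(26,0)]⟩) .k (.r (-1) ⟨11,[(0,9),(0,5),(7,9),(2,1),(1,2),(0,2),(4,3),(2,1)]⟩ ⟨0,
  [(24,1)]⟩)) t119 t136

theorem ok137 : chk (cU (-1) true 10) t137 r41 = true :=
  chk_Q (e' := [0,0,0,2,0,0,2,2,0,1,-2]) (by decide +kernel) (by decide +kernel) ok119 ok136

noncomputable def t138 : Tre :=
  .Q [0,0,0,-1,0,0,-2,-2,0,-1,2] (.p true [0,0,1] [1,0,-1] (⟨0,[(25,0)]⟩,⟨0,[(24,0)]⟩) .k 2 (⟨0,
  [(24,0)]⟩,⟨0,[(25,0)]⟩) .k (.r (-1) ⟨21,[(0,15),(1,19),(8,11),(1,2),(0,2),(4,23),(2,11)]⟩ ⟨0,[(23,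
  1)]⟩)) t118 t137

theorem ok138 : chk (cU (-1) true 10) t138 r40 = true :=
  chk_Q (e' := [0,0,0,1,0,0,2,2,0,1,-2]) (by decide +kernel) (by decide +kernel) ok118 ok137

noncomputable def t139 : Tre :=
  .I [0,1,2,2,-1] t67 t138

theorem ok139 : chk (cU (-1) true 10) t139 r39 = true :=
  chk_I (e' := [1,-1,-2,-2,1]) (by decide +kernel) (by decide +kernel) ok67 ok138

noncomputable def t140 : Tre :=
  .Q [0,0,0,0,0,1,0,0,0,0,-1] (.ed true [1,-1,1] .k) t66 t139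

theorem ok140 : chk (cU (-1) true 10) t140 l38 = true :=
  chk_Q (e' := [0,0,0,0,0,-1,0,0,0,0,1]) (by decide +kernel) (by decide +kernel) ok66 ok139

noncomputable def t142 : Tre :=
  .I [1,-1,1,1,0,0,0,1] t140 t141

theorem ok142 : chk (cU (-1) true 10) t142 r37 = true :=
  chk_I (e' := [0,1,-1,-1,0,0,0,-1]) (by decide +kernel) (by decide +kernel) ok140 ok141

noncomputable def t143 : Tre :=
  .Q [0,0,0,0,0,2,0,0,0,-1,1] (.p true [0,0,1] [1] (⟨0,[(21,0)]⟩,⟨0,[(20,0)]⟩) .k 1 (⟨0,[]⟩,⟨0,[]⟩)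
  .k .k) t65 t142

theorem ok143 : chk (cU (-1) true 10) t143 r36 = true :=
  chk_Q (e' := [0,0,0,0,0,-2,0,0,0,1,-1]) (by decide +kernel) (by decide +kernel) ok65 ok142

noncomputable def t144 : Tre :=
  .Q [0,-1,0,-1,0,0,-1,-1,0,0,1] (.p true [0,0,1] [] (⟨0,[(20,0)]⟩,⟨0,[(19,0)]⟩) .k 0 (⟨0,[]⟩,⟨0,
  []⟩) .k .k) t64 t143

theorem ok144 : chk (cU (-1) true 10) t144 r35 = true :=
  chk_Q (e' := [0,1,0,1,0,0,1,1,0,0,-1]) (by decide +kernel) (by decide +kernel) ok64 ok143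

noncomputable def t145 : Tre :=
  .Q [0,0,0,-1,0,0,-1,0,0,0,1] (.p true [0,0,1] [] (⟨0,[(19,0)]⟩,⟨0,[(18,0)]⟩) .k 0 (⟨0,[]⟩,⟨0,[]⟩)
  .k .k) t63 t144

theorem ok145 : chk (cU (-1) true 10) t145 l34 = true :=
  chk_Q (e' := [0,0,0,1,0,0,1,0,0,0,-1]) (by decide +kernel) (by decide +kernel) ok63 ok144

noncomputable def t148 : Tre :=
  .Q [0,0,0,0,0,1,0,0,0,0,-1] (.ed true [1,-1,1] .k) t146 t147

theorem ok148 : chk (cU (-1) true 10) t148 r34 = true :=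
  chk_Q (e' := [0,0,0,0,0,-1,0,0,0,0,1]) (by decide +kernel) (by decide +kernel) ok146 ok147

noncomputable def t149 : Tre :=
  .Q [0,0,0,1,0,0,1,0,0,1,-1] (.p false [0,0,1] [1] (⟨0,[(18,0)]⟩,⟨0,[(17,0)]⟩) .k 1 (⟨0,[]⟩,⟨0,
  []⟩) .k .k) t145 t148

theorem ok149 : chk (cU (-1) true 10) t149 l33 = true :=
  chk_Q (e' := [0,0,0,-1,0,0,-1,0,0,-1,1]) (by decide +kernel) (by decide +kernel) ok145 ok148

noncomputable def t161 : Tre :=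
  .Q [0,0,0,0,0,0,-2,-2,0,-1,2] (.p true [0,0,1] [1,0,-1] (⟨0,[(31,0)]⟩,⟨0,[(30,0)]⟩) .k 2 (⟨0,[(30,
  0)]⟩,⟨0,[(31,0)]⟩) .k (.r (-1) ⟨9,[(5,7),(3,3),(9,2),(0,2),(16,3)]⟩ ⟨0,[(29,1)]⟩)) t159 t160

theorem ok161 : chk (cU (-1) true 10) t161 l89 = true :=
  chk_Q (e' := [0,0,0,0,0,0,2,2,0,1,-2]) (by decide +kernel) (by decide +kernel) ok159 ok160

noncomputable def t163 : Tre :=
  .Q [0,0,-2,0,1,0,-1,0,0,-1,1] (.p true [0,0,1] [1] (⟨0,[(30,0)]⟩,⟨0,[(29,0)]⟩) .k 1 (⟨0,[]⟩,⟨0,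
  []⟩) .k .k) t161 t162

theorem ok163 : chk (cU (-1) true 10) t163 r88 = true :=
  chk_Q (e' := [0,0,2,0,-1,0,1,0,0,1,-1]) (by decide +kernel) (by decide +kernel) ok161 ok162

noncomputable def t164 : Tre :=
  .Q [0,-1,0,-1,0,0,1,1,0,1,-1] (.p false [0,0,1] [1] (⟨0,[(29,0)]⟩,⟨0,[(28,0)]⟩) .k 1 (⟨0,[]⟩,⟨0,
  []⟩) .k .k) t158 t163

theorem ok164 : chk (cU (-1) true 10) t164 r87 = true :=
  chk_Q (e' := [0,1,0,1,0,0,-1,-1,0,-1,1]) (by decide +kernel) (by decide +kernel) ok158 ok163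

noncomputable def t165 : Tre :=
  .Q [0,0,2,1,-1,0,1,0,0,1,-1] (.p false [0,0,1] [1] (⟨0,[(28,0)]⟩,⟨0,[(27,0)]⟩) .k 1 (⟨0,[]⟩,⟨0,
  []⟩) .k .k) t157 t164

theorem ok165 : chk (cU (-1) true 10) t165 r86 = true :=
  chk_Q (e' := [0,0,-2,-1,1,0,-1,0,0,-1,1]) (by decide +kernel) (by decide +kernel) ok157 ok164

noncomputable def t166 : Tre :=
  .Q [0,0,0,0,0,2,0,0,0,0,-1] (.p false [0,0,1] [] (⟨0,[(27,0)]⟩,⟨0,[(26,0)]⟩) .k 0 (⟨0,[]⟩,⟨0,[]⟩)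
  .k .k) t156 t165

theorem ok166 : chk (cU (-1) true 10) t166 l85 = true :=
  chk_Q (e' := [0,0,0,0,0,-2,0,0,0,0,1]) (by decide +kernel) (by decide +kernel) ok156 ok165

noncomputable def t168 : Tre :=
  .Q [0,0,-2,0,1,0,-2,-1,0,-1,2] (.p true [0,0,1] [1,0,-1] (⟨0,[(26,0)]⟩,⟨0,[(25,0)]⟩) .k 2 (⟨0,
  [(25,0)]⟩,⟨0,[(26,0)]⟩) .k (.r (-1) ⟨9,[(0,7),(3,3),(9,2),(0,2),(16,3)]⟩ ⟨0,[(24,1)]⟩)) t166 t167

theorem ok168 : chk (cU (-1) true 10) t168 r84 = true :=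
  chk_Q (e' := [0,0,2,0,-1,0,2,1,0,1,-2]) (by decide +kernel) (by decide +kernel) ok166 ok167

noncomputable def t169 : Tre :=
  .I [0,0,-1,-1,0,0,0,-2] t155 t168

theorem ok169 : chk (cU (-1) true 10) t169 r83 = true :=
  chk_I (e' := [1,0,1,1,0,0,0,2]) (by decide +kernel) (by decide +kernel) ok155 ok168

noncomputable def t170 : Tre :=
  .I [0,0,-1,0,0,1,2] t154 t169

theorem ok170 : chk (cU (-1) true 10) t170 l82 = true :=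
  chk_I (e' := [1,0,1,0,0,-1,-2]) (by decide +kernel) (by decide +kernel) ok154 ok169

noncomputable def t177 : Tre :=
  .Q [0,1,0,-3,0,0,0,0,0,-1] (.pp true [-1,1]) t175 t176

theorem ok177 : chk (cU (-1) true 10) t177 l100 = true :=
  chk_Q (e' := [0,-1,0,3,0,0,0,0,0,1]) (by decide +kernel) (by decide +kernel) ok175 ok176

noncomputable def t179 : Tre :=
  .Q [0,-1,0,2,0,0,0,0,0,1] (.pp false [-1,1]) t177 t178

theorem ok179 : chk (cU (-1) true 10) t179 r99 = true :=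
  chk_Q (e' := [0,1,0,-2,0,0,0,0,0,-1]) (by decide +kernel) (by decide +kernel) ok177 ok178

noncomputable def t180 : Tre :=
  .Q [0,0,0,-2,0,0,2,2,0,1,-2] (.p false [0,0,1] [1,0,-1] (⟨0,[(32,0)]⟩,⟨0,[(31,0)]⟩) .k 2 (⟨0,[(31,
  0)]⟩,⟨0,[(32,0)]⟩) .k (.r (-1) ⟨3,[(1,1),(9,1),(1,1),(6,0),(0,0),(7,1)]⟩ ⟨0,[(30,1)]⟩)) t174 t179

theorem ok180 : chk (cU (-1) true 10) t180 r98 = true :=
  chk_Q (e' := [0,0,0,2,0,0,-2,-2,0,-1,2]) (by decide +kernel) (by decide +kernel) ok174 ok179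

noncomputable def t181 : Tre :=
  .Q [0,0,0,-2,0,0,-1,-1,0,-1,1] (.p true [0,0,1] [1] (⟨0,[(31,0)]⟩,⟨0,[(30,0)]⟩) .k 1 (⟨0,[]⟩,⟨0,
  []⟩) .k .k) t173 t180

theorem ok181 : chk (cU (-1) true 10) t181 l97 = true :=
  chk_Q (e' := [0,0,0,2,0,0,1,1,0,1,-1]) (by decide +kernel) (by decide +kernel) ok173 ok180

noncomputable def t186 : Tre :=
  .Q [0,0,0,0,0,0,-1,-1,0,0,1,-1] (.p true [0,0,1] [0,0,0,1] (⟨0,[(33,0)]⟩,⟨0,[(32,0)]⟩) .k 2 (⟨0,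
  [(24,0)]⟩,⟨0,[(23,0)]⟩) .k (.r 0 ⟨0,[(0,0),(22,0),(2,0),(0,0)]⟩ ⟨3,[(21,0),(0,2),(8,3)]⟩)) t184
  t185

theorem ok186 : chk (cU (-1) true 10) t186 r103 = true :=
  chk_Q (e' := [0,0,0,0,0,0,1,1,0,0,-1,1]) (by decide +kernel) (by decide +kernel) ok184 ok185

noncomputable def t187 : Tre :=
  .Q [0,1,1,0,0,0,0,0,1,0,0,-1] (.p false [0,0,0,1] [] (⟨0,[(23,0)]⟩,⟨0,[(22,0)]⟩) .k 0 (⟨0,[]⟩,⟨0,
  []⟩) .k .k) t183 t186

theorem ok187 : chk (cU (-1) true 10) t187 r102 = true :=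
  chk_Q (e' := [0,-1,-1,0,0,0,0,0,-1,0,0,1]) (by decide +kernel) (by decide +kernel) ok183 ok186

noncomputable def t188 : Tre :=
  .I [0,0,0,-1,0,0,0,0,1] t182 t187

theorem ok188 : chk (cU (-1) true 10) t188 r97 = true :=
  chk_I (e' := [1,0,0,1,0,0,0,0,-1]) (by decide +kernel) (by decide +kernel) ok182 ok187

noncomputable def t189 : Tre :=
  .I [0,0,-2,-2,1,0,0,2] t181 t188

theorem ok189 : chk (cU (-1) true 10) t189 r96 = true :=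
  chk_I (e' := [1,0,2,2,-1,0,0,-2]) (by decide +kernel) (by decide +kernel) ok181 ok188

noncomputable def t190 : Tre :=
  .Q [0,0,0,-1,0,0,2,2,0,1,-2] (.p false [0,0,1] [1,0,-1] (⟨0,[(29,0)]⟩,⟨0,[(28,0)]⟩) .k 2 (⟨0,[(28,
  0)]⟩,⟨0,[(29,0)]⟩) .k (.r (-1) ⟨5,[(7,3),(0,3),(8,0),(0,0),(4,3),(2,3)]⟩ ⟨0,[(27,1)]⟩)) t172 t189

theorem ok190 : chk (cU (-1) true 10) t190 l95 = true :=
  chk_Q (e' := [0,0,0,1,0,0,-2,-2,0,-1,2]) (by decide +kernel) (by decide +kernel) ok172 ok189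

noncomputable def t193 : Tre :=
  .I [0,0,1,1,0,0,0,2] t191 t192

theorem ok193 : chk (cU (-1) true 10) t193 r95 = true :=
  chk_I (e' := [1,0,-1,-1,0,0,0,-2]) (by decide +kernel) (by decide +kernel) ok191 ok192

noncomputable def t194 : Tre :=
  .Q [0,0,0,0,0,0,-2,-2,0,-1,2] (.p true [0,0,1] [1,0,-1] (⟨0,[(28,0)]⟩,⟨0,[(27,0)]⟩) .k 2 (⟨0,[(27,
  0)]⟩,⟨0,[(28,0)]⟩) .k (.r (-1) ⟨5,[(6,3),(0,3),(8,0),(0,0),(4,3),(2,3)]⟩ ⟨0,[(26,1)]⟩)) t190 t193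

theorem ok194 : chk (cU (-1) true 10) t194 l94 = true :=
  chk_Q (e' := [0,0,0,0,0,0,2,2,0,1,-2]) (by decide +kernel) (by decide +kernel) ok190 ok193

noncomputable def t196 : Tre :=
  .Q [0,0,-2,0,1,0,-1,0,0,-1,1] (.p true [0,0,1] [1] (⟨0,[(27,0)]⟩,⟨0,[(26,0)]⟩) .k 1 (⟨0,[]⟩,⟨0,
  []⟩) .k .k) t194 t195

theorem ok196 : chk (cU (-1) true 10) t196 r93 = true :=
  chk_Q (e' := [0,0,2,0,-1,0,1,0,0,1,-1]) (by decide +kernel) (by decide +kernel) ok194 ok195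

noncomputable def t197 : Tre :=
  .Q [0,-1,0,-1,0,0,1,1,0,1,-1] (.p false [0,0,1] [1] (⟨0,[(26,0)]⟩,⟨0,[(25,0)]⟩) .k 1 (⟨0,[]⟩,⟨0,
  []⟩) .k .k) t171 t196

theorem ok197 : chk (cU (-1) true 10) t197 l92 = true :=
  chk_Q (e' := [0,1,0,1,0,0,-1,-1,0,-1,1]) (by decide +kernel) (by decide +kernel) ok171 ok196

noncomputable def t199 : Tre :=
  .Q [0,0,0,0,0,-2,0,0,0,0,1] (.p true [0,0,1] [] (⟨0,[(25,0)]⟩,⟨0,[(24,0)]⟩) .k 0 (⟨0,[]⟩,⟨0,[]⟩)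
  .k .k) t197 t198

theorem ok199 : chk (cU (-1) true 10) t199 l91 = true :=
  chk_Q (e' := [0,0,0,0,0,2,0,0,0,0,-1]) (by decide +kernel) (by decide +kernel) ok197 ok198

noncomputable def t201 : Tre :=
  .Q [0,0,-2,-1,1,0,-1,0,0,-1,1] (.p true [0,0,1] [1] (⟨0,[(24,0)]⟩,⟨0,[(23,0)]⟩) .k 1 (⟨0,[]⟩,⟨0,
  []⟩) .k .k) t199 t200

theorem ok201 : chk (cU (-1) true 10) t201 r82 = true :=
  chk_Q (e' := [0,0,2,1,-1,0,1,0,0,1,-1]) (by decide +kernel) (by decide +kernel) ok199 ok200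

noncomputable def t202 : Tre :=
  .I [0,1,-1,-2,0,0,0,-1] t170 t201

theorem ok202 : chk (cU (-1) true 10) t202 r81 = true :=
  chk_I (e' := [1,-1,1,2,0,0,0,1]) (by decide +kernel) (by decide +kernel) ok170 ok201

noncomputable def t203 : Tre :=
  .Q [0,0,0,-2,0,0,1,1,0,0,-1] (.p false [0,0,1] [] (⟨0,[(22,0)]⟩,⟨0,[(21,0)]⟩) .k 0 (⟨0,[]⟩,⟨0,
  []⟩) .k .k) t153 t202

theorem ok203 : chk (cU (-1) true 10) t203 l80 = true :=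
  chk_Q (e' := [0,0,0,2,0,0,-1,-1,0,0,1]) (by decide +kernel) (by decide +kernel) ok153 ok202

noncomputable def t212 : Tre :=
  .Q [0,0,0,0,0,0,-2,-2,0,-1,2] (.p true [0,0,1] [1,0,-1] (⟨0,[(30,0)]⟩,⟨0,[(29,0)]⟩) .k 2 (⟨0,[(29,
  0)]⟩,⟨0,[(30,0)]⟩) .k (.r (-1) ⟨6,[(0,7),(2,1),(0,1),(13,1),(0,1),(17,0)]⟩ ⟨0,[(28,1)]⟩)) t210
  t211

theorem ok212 : chk (cU (-1) true 10) t212 r113 = true :=
  chk_Q (e' := [0,0,0,0,0,0,2,2,0,1,-2]) (by decide +kernel) (by decide +kernel) ok210 ok211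

noncomputable def t213 : Tre :=
  .I [0,0,-1,-1,0,0,0,-2] t209 t212

theorem ok213 : chk (cU (-1) true 10) t213 r112 = true :=
  chk_I (e' := [1,0,1,1,0,0,0,2]) (by decide +kernel) (by decide +kernel) ok209 ok212

noncomputable def t214 : Tre :=
  .Q [0,0,0,-2,0,0,-1,-1,0,-1,1] (.p true [0,0,1] [1] (⟨0,[(28,0)]⟩,⟨0,[(27,0)]⟩) .k 1 (⟨0,[]⟩,⟨0,
  []⟩) .k .k) t208 t213

theorem ok214 : chk (cU (-1) true 10) t214 r111 = true :=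
  chk_Q (e' := [0,0,0,2,0,0,1,1,0,1,-1]) (by decide +kernel) (by decide +kernel) ok208 ok213

noncomputable def t215 : Tre :=
  .I [0,0,-1,0,0,1,2] t207 t214

theorem ok215 : chk (cU (-1) true 10) t215 l110 = true :=
  chk_I (e' := [1,0,1,0,0,-1,-2]) (by decide +kernel) (by decide +kernel) ok207 ok214

noncomputable def t220 : Tre :=
  .I [0,1,0,-1,0,0,0,1] t218 t219

theorem ok220 : chk (cU (-1) true 10) t220 r117 = true :=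
  chk_I (e' := [1,-1,0,1,0,0,0,-1]) (by decide +kernel) (by decide +kernel) ok218 ok219

noncomputable def t221 : Tre :=
  .Q [0,1,-1,0,0,0,0,0,-1,0,0,1] (.p true [0,0,0,1] [] (⟨0,[(20,0)]⟩,⟨0,[(19,0)]⟩) .k 0 (⟨0,[]⟩,⟨0,
  []⟩) .k .k) t217 t220

theorem ok221 : chk (cU (-1) true 10) t221 r116 = true :=
  chk_Q (e' := [0,-1,1,0,0,0,0,0,1,0,0,-1]) (by decide +kernel) (by decide +kernel) ok217 ok220

noncomputable def t222 : Tre :=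
  .Q [0,0,-2,0,1,0,-1,0,0,0,1] (.p true [0,0,1] [] (⟨0,[(28,0)]⟩,⟨0,[(27,0)]⟩) .k 0 (⟨0,[]⟩,⟨0,[]⟩)
  .k .k) t216 t221

theorem ok222 : chk (cU (-1) true 10) t222 l115 = true :=
  chk_Q (e' := [0,0,2,0,-1,0,1,0,0,0,-1]) (by decide +kernel) (by decide +kernel) ok216 ok221

noncomputable def t224 : Tre :=
  .Q [0,0,1,2,0,0,0,0,1,1,0,-1] (.p false [0,0,0,1] [1] (⟨0,[(18,0)]⟩,⟨0,[(17,0)]⟩) .k 1 (⟨0,[]⟩,⟨0,
  []⟩) .k .k) t222 t223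

theorem ok224 : chk (cU (-1) true 10) t224 r110 = true :=
  chk_Q (e' := [0,0,-1,-2,0,0,0,0,-1,-1,0,1]) (by decide +kernel) (by decide +kernel) ok222 ok223

noncomputable def t225 : Tre :=
  .I [0,1,-1,-2,0,0,0,-1] t215 t224

theorem ok225 : chk (cU (-1) true 10) t225 r109 = true :=
  chk_I (e' := [1,-1,1,2,0,0,0,1]) (by decide +kernel) (by decide +kernel) ok215 ok224

noncomputable def t226 : Tre :=
  .I [0,1,2,2,-1] t206 t225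

theorem ok226 : chk (cU (-1) true 10) t226 l108 = true :=
  chk_I (e' := [1,-1,-2,-2,1]) (by decide +kernel) (by decide +kernel) ok206 ok225

noncomputable def t228 : Tre :=
  .Q [0,0,0,3,0,0,0,0,0,1] (.pp false [-1,1]) t226 t227

theorem ok228 : chk (cU (-1) true 10) t228 r107 = true :=
  chk_Q (e' := [0,0,0,-3,0,0,0,0,0,-1]) (by decide +kernel) (by decide +kernel) ok226 ok227

noncomputable def t229 : Tre :=
  .I [0,0,-2,0,1,2,-1] t205 t228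

theorem ok229 : chk (cU (-1) true 10) t229 r106 = true :=
  chk_I (e' := [1,0,2,0,-1,-2,1]) (by decide +kernel) (by decide +kernel) ok205 ok228

noncomputable def t230 : Tre :=
  .Q [0,-1,0,-1,0,0,1,1,0,1,-1] (.p false [0,0,1] [1] (⟨0,[(22,0)]⟩,⟨0,[(21,0)]⟩) .k 1 (⟨0,[]⟩,⟨0,
  []⟩) .k .k) t204 t229

theorem ok230 : chk (cU (-1) true 10) t230 r80 = true :=
  chk_Q (e' := [0,1,0,1,0,0,-1,-1,0,-1,1]) (by decide +kernel) (by decide +kernel) ok204 ok229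

noncomputable def t231 : Tre :=
  .I [1,0,-2,-1,1,0,0,1] t203 t230

theorem ok231 : chk (cU (-1) true 10) t231 r79 = true :=
  chk_I (e' := [0,0,2,1,-1,0,0,-1]) (by decide +kernel) (by decide +kernel) ok203 ok230

noncomputable def t232 : Tre :=
  .I [0,1,-1,-1,0,0,0,-1] t152 t231

theorem ok232 : chk (cU (-1) true 10) t232 r78 = true :=
  chk_I (e' := [1,-1,1,1,0,0,0,1]) (by decide +kernel) (by decide +kernel) ok152 ok231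

noncomputable def t233 : Tre :=
  .Q [0,0,0,0,0,2,0,0,0,-1,1] (.p true [0,0,1] [1] (⟨0,[(19,0)]⟩,⟨0,[(18,0)]⟩) .k 1 (⟨0,[]⟩,⟨0,[]⟩)
  .k .k) t151 t232

theorem ok233 : chk (cU (-1) true 10) t233 r77 = true :=
  chk_Q (e' := [0,0,0,0,0,-2,0,0,0,1,-1]) (by decide +kernel) (by decide +kernel) ok151 ok232

noncomputable def t234 : Tre :=
  .Q [0,-1,0,-1,0,0,-1,-1,0,0,1] (.p true [0,0,1] [] (⟨0,[(18,0)]⟩,⟨0,[(17,0)]⟩) .k 0 (⟨0,[]⟩,⟨0,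
  []⟩) .k .k) t150 t233

theorem ok234 : chk (cU (-1) true 10) t234 r33 = true :=
  chk_Q (e' := [0,1,0,1,0,0,1,1,0,0,-1]) (by decide +kernel) (by decide +kernel) ok150 ok233

noncomputable def t235 : Tre :=
  .I [0,0,1,0,0,-1,-2] t149 t234

theorem ok235 : chk (cU (-1) true 10) t235 r20 = true :=
  chk_I (e' := [1,0,-1,0,0,1,2]) (by decide +kernel) (by decide +kernel) ok149 ok234

noncomputable def t236 : Tre :=
  .Q [0,0,-1,0,0,0,2,0,0,1,-2] (.p false [0,0,1] [1,0,-1] (⟨0,[(16,0)]⟩,⟨0,[(15,0)]⟩) .k 2 (⟨0,[(15,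
  0)]⟩,⟨0,[(16,0)]⟩) .k (.r (-1) ⟨0,[(2,1),(7,1),(9,1),(1,1),(0,0)]⟩ ⟨0,[(14,1)]⟩)) t62 t235

theorem ok236 : chk (cU (-1) true 10) t236 r14 = true :=
  chk_Q (e' := [0,0,1,0,0,0,-2,0,0,-1,2]) (by decide +kernel) (by decide +kernel) ok62 ok235

noncomputable def t237 : Tre :=
  .I [0,1,0,0,0,0,0,1] t37 t236

theorem ok237 : chk (cU (-1) true 10) t237 r0 = true :=
  chk_I (e' := [1,-1,0,0,0,0,0,-1]) (by decide +kernel) (by decide +kernel) ok37 ok236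

noncomputable def t238 : Tre :=
  .Q [0,0,0,0,0,1,0,0,0,-1,1] (.ed false [0,1,1] .k) t26 t237

theorem ok238 : chk (cU (-1) true 10) t238 base = true :=
  chk_Q (e' := [0,0,0,0,0,-1,0,0,0,1,-1]) (by decide +kernel) (by decide +kernel) ok26 ok237

theorem ok : chkB (cU (-1) true 10) (fax (fcU (-1)) false 34 (-1) 10 false (tU true)) t238 base = true :=
  chkB_of (by decide +kernel) ok238

end Helper11.CT.Tm1_34_m1_m1_u
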