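import Pool.Agent.Helper11.CT.Cfg
import Pool.Agent.Helper11.CT.Cut

set_option autoImplicit false
set_option linter.all false

namespace Helper11.CT.Tm1_34_m1_m1_v

open Helper11.CT

noncomputable def base : List Con :=
  [(false,[0,1,0,1,0,0,-1,0,0,0,1]),
  (false,[0,0,0,0,0,0,2,0,0,1,-2]),
  (true,[0,0,0,0,1,0,0,0,-2]),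
  (true,[0,0,0,0,1,0,0,0,2]),
  (false,[0,0,0,0,0,0,0,0,0,1,0,-2]),
  (false,[0,0,0,0,0,0,0,0,0,0,0,1]),
  (false,[0,1,0,0,0,0,-1,-1,0,-1,1]),
  (false,[0,0,1,0,0,0,-1,0,0,-1,1]),
  (false,[0,1,0,0,0,0,1,1,0,0,-1]),
  (false,[0,1,0,0,0,0,-1,-1,0,0,1]),
  (false,[0,0,1,0,0,0,1,0,0,0,-1]),
  (false,[0,0,1,0,0,0,-1,0,0,0,1]),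
  (true,[0,0,0,0,0,0,0,-1]),
  (false,[0,0,0,0,0,0,0,0,0,1,-1]),
  (false,[0,0,0,0,0,0,0,0,0,0,1]),
  (false,[0,0,0,0,1,0,0,0,0,-2]),
  (false,[0,0,0,0,0,-1,0,0,0,1]),
  (true,[0,0,0,0,0,1]),
  (true,[1,-2,1]),
  (true,[0,1,0,1]),
  (true,[0,0,0,-1]),
  (true,[0,0,-2,0,1]),
  (true,[0,-2,0,0,1]),
  (true,[-1,0,1]),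
  (true,[-1,1])]

noncomputable def l0 : List Con := (false, [0,0,0,0,0,1,0,0,0,-1,1]) :: base

noncomputable def r0 : List Con := (false, [0,0,0,0,0,-1,0,0,0,1,-1]) :: base

noncomputable def l1 : List Con := (false, [0,-1,0,1,0,0,1,1,0,2,-1]) :: l0

noncomputable def r1 : List Con := (false, [0,1,0,-1,0,0,-1,-1,0,-2,1]) :: l0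

noncomputable def t0 : Tre :=
  (.K ⟨1,[-1,1,1],0,0,(⟨0,[(1,0)]⟩,⟨0,[(15,0),(2,0)]⟩),.k,.k,(.r 0 ⟨4,[(0,2),(8,5),(0,1),(1,0),(7,
  2),(0,6)]⟩ ⟨0,[(14,0),(7,1),(0,0)]⟩),.k,.k,[⟨1,[(9,1),(2,0),(0,0)]⟩,⟨3,[(0,0),(2,1),(7,0),(10,
  0)]⟩,⟨0,[(8,0),(13,0)]⟩,⟨0,[(0,0)]⟩]⟩)

theorem ok0 : chk (cU (-1) false 10) t0 l1 = true := by decide +kernel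

noncomputable def l2 : List Con := (false, [0,0,0,1,0,0,1,0,0,1,-1]) :: r1

noncomputable def r2 : List Con := (false, [0,0,0,-1,0,0,-1,0,0,-1,1]) :: r1

noncomputable def t1 : Tre :=
  (.Q [0,0,-1,0,0,0,0,-1,0,1] (.pp false [-1,1]) (.K ⟨2,[2,-1,-1],0,0,(⟨0,[(17,0),(2,0)]⟩,⟨0,[(3,
  0)]⟩),.k,(.r (-1) ⟨19,[(0,11),(1,7),(2,3),(0,0),(0,0),(16,31),(0,13),(0,3)]⟩ ⟨0,[(1,0),(2,0),(6,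
  0),(0,0),(9,0)]⟩),.k,(.r 0 ⟨0,[(0,1),(1,0),(9,0),(9,0)]⟩ ⟨1,[(4,1),(7,3),(2,1),(6,1),(2,0),(0,
  0)]⟩),.k,[⟨0,[(0,1),(11,1),(9,0)]⟩,⟨4,[(2,1),(8,0),(0,1),(1,0),(7,2),(0,1)]⟩,⟨1,[(5,0),(11,2),(0,
  2)]⟩,⟨4,[(2,1),(8,5),(0,1),(1,0),(7,2),(0,1)]⟩,⟨0,[(0,0),(3,0),(7,1),(4,0),(0,0),(3,0)]⟩,⟨0,[(2,
  0)]⟩]⟩) (.Q [0,0,0,-1,0,0,-1,-1,0,-1,1] (.p true [0,0,1] [1] (⟨0,[(18,0)]⟩,⟨0,[(17,0)]⟩) .k 1 (⟨0,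
  []⟩,⟨0,[]⟩) .k .k) (.Q [0,0,0,1,0,0,0,0,0,1] (.pp false [-1,1]) (.R ⟨0,false,false,true,[1,0,-1],
  [0,1],[1,1,1],(⟨0,[(19,0)]⟩,⟨0,[(20,0)]⟩),(⟨0,[(23,0)]⟩,⟨0,[(22,0)]⟩),⟨0,[(5,0)]⟩,.k,.k,.k,.k,.k,
  .k,⟨true,0,⟨0,[(26,0)]⟩,⟨0,[(3,0),(9,0)]⟩⟩,⟨false,1,⟨1,[(0,0),(6,0),(18,0),(0,1)]⟩,⟨0,[(13,0)]⟩⟩,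
  ⟨false,0,⟨0,[(0,0),(1,0),(23,0)]⟩,⟨1,[(18,1),(8,0),(0,0)]⟩⟩,⟨true,0,⟨0,[(0,0),(13,0)]⟩,⟨0,[(1,
  0)]⟩⟩,⟨false,0,⟨0,[]⟩,⟨0,[]⟩⟩,⟨false,0,⟨0,[]⟩,⟨0,[]⟩⟩,[.o ⟨false,0,⟨0,[(25,0)]⟩,⟨1,[(21,0),(4,1),
  (1,0)]⟩⟩,.a ⟨true,0,⟨0,[(0,0)]⟩,⟨0,[(26,0)]⟩⟩ ⟨false,0,⟨0,[]⟩,⟨3,[(8,0),(0,0),(17,1)]⟩⟩ ⟨true,0,
  ⟨0,[(3,0)]⟩,⟨0,[(13,0),(12,0)]⟩⟩,.e ⟨false,0,⟨1,[(16,0),(0,0)]⟩,⟨1,[(27,0),(0,0)]⟩⟩ ⟨false,0,⟨0,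
  [(3,0)]⟩,⟨1,[(13,1),(12,1),(0,0),(0,0)]⟩⟩,.o ⟨false,0,⟨0,[(13,0)]⟩,⟨7,[(7,3),(0,0),(0,0),(11,1),
  (5,3)]⟩⟩]⟩) (.Q [0,0,0,0,0,0,-1,-1,0,-1,1] (.p true [0,0,1] [1] (⟨0,[(20,0)]⟩,⟨0,[(19,0)]⟩) .k 1
  (⟨0,[]⟩,⟨0,[]⟩) .k .k) (.I [0,0,0,0,0,0,0,0,-1] (.I [1,-1,0,0,0,0,0,0,-1] (.Q [0,0,0,0,0,1,0,0,0,
  0,0,-1] (.p false [0,0,0,1] [] (⟨0,[(14,0)]⟩,⟨1,[(13,0),(8,0),(0,0)]⟩) .k 0 (⟨0,[]⟩,⟨0,[]⟩) .k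
  .k) (.I [0,-1,-1,-1,1,0,0,-1,1] (.R ⟨0,false,false,true,[0,0,0,1],[0,0,1],[0,0,0,-1,0,0,0,0,1],
  (⟨0,[(16,0)]⟩,⟨1,[(15,0),(8,0),(0,0)]⟩),(⟨0,[(25,0)]⟩,⟨0,[(24,0)]⟩),⟨0,[(1,0)]⟩,.k,.k,(.r (-1) ⟨1,
  [(14,0),(16,1),(0,0)]⟩ ⟨0,[(3,0),(4,0),(9,0)]⟩),.k,.k,.k,⟨false,1,⟨0,[(0,0)]⟩,⟨0,[(2,0),(8,0),(7,
  0)]⟩⟩,⟨true,0,⟨0,[(5,0),(2,0),(7,0)]⟩,⟨1,[(15,0),(2,0),(3,0)]⟩⟩,⟨true,0,⟨0,[(31,0)]⟩,⟨0,[(30,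
  0)]⟩⟩,⟨false,0,⟨0,[(2,0),(13,0),(2,0)]⟩,⟨7,[(0,1),(3,3),(6,1),(2,2),(0,3),(4,1),(8,1),(3,2)]⟩⟩,
  ⟨false,0,⟨0,[]⟩,⟨0,[]⟩⟩,⟨false,0,⟨0,[]⟩,⟨0,[]⟩⟩,[.o ⟨false,0,⟨0,[(19,0)]⟩,⟨3,[(4,1),(15,1),(5,0),
  (6,2)]⟩⟩,.o ⟨false,1,⟨3,[(13,0),(0,0),(4,3),(13,1)]⟩,⟨0,[(4,0)]⟩⟩,.a ⟨true,0,⟨1,[(15,0),(8,0),(0,
  0)]⟩,⟨0,[(16,0)]⟩⟩ ⟨false,1,⟨1,[(14,0),(16,1),(1,0)]⟩,⟨0,[(2,0),(27,0)]⟩⟩ ⟨true,0,⟨0,[(16,0),(2,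
  0)]⟩,⟨1,[(4,1),(10,0),(8,0),(0,0)]⟩⟩,.o ⟨false,0,⟨1,[(15,0),(2,0),(2,0)]⟩,⟨1,[(16,1),(9,0),(5,
  0)]⟩⟩]⟩) (.R ⟨0,false,false,true,[0,0,0,1],[0,0,1],[0,1,0,0,0,0,0,0,1],(⟨0,[(16,0)]⟩,⟨1,[(15,0),
  (8,0),(0,0)]⟩),(⟨0,[(25,0)]⟩,⟨0,[(24,0)]⟩),⟨0,[(1,0)]⟩,.k,.k,(.r (-1) ⟨1,[(14,0),(16,1),(0,0)]⟩
  ⟨2,[(0,0),(7,0),(4,0),(4,0),(4,0),(5,0),(0,0)]⟩),.k,.k,.k,⟨false,1,⟨1,[(14,0),(8,1),(8,0)]⟩,⟨1,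
  [(0,1),(30,1),(0,0),(0,0)]⟩⟩,⟨true,0,⟨0,[(5,0),(2,0),(7,0)]⟩,⟨1,[(15,0),(2,0),(3,0)]⟩⟩,⟨true,0,⟨0,
  [(35,0)]⟩,⟨0,[]⟩⟩,⟨false,0,⟨0,[(2,0),(13,0),(2,0)]⟩,⟨3,[(4,1),(9,1),(0,1),(4,1),(8,1),(2,0),(0,
  0)]⟩⟩,⟨false,0,⟨0,[]⟩,⟨0,[]⟩⟩,⟨false,0,⟨0,[]⟩,⟨0,[]⟩⟩,[.o ⟨false,0,⟨0,[(19,0)]⟩,⟨3,[(4,1),(15,1),
  (5,0),(6,2)]⟩⟩,.o ⟨false,1,⟨3,[(13,0),(0,0),(4,3),(13,1)]⟩,⟨0,[(4,0)]⟩⟩,.a ⟨true,0,⟨1,[(15,0),(8,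
  0),(0,0)]⟩,⟨0,[(16,0)]⟩⟩ ⟨false,1,⟨3,[(13,0),(0,2)]⟩,⟨0,[(2,0)]⟩⟩ ⟨true,0,⟨0,[(16,0),(2,0)]⟩,⟨1,
  [(4,1),(10,0),(8,0),(0,0)]⟩⟩,.o ⟨false,0,⟨1,[(15,0),(2,0),(2,0)]⟩,⟨1,[(16,1),(9,0),(5,0)]⟩⟩]⟩))
  (.I [0,0,-1,-1,0,0,0,0,-1] (.R ⟨1,false,false,false,[1,0,0,-1],[1,-1],[1,0,0,0,0,0,0,0,-1],(⟨1,
  [(15,0),(8,0),(0,0)]⟩,⟨0,[(16,0)]⟩),(⟨0,[(27,0)]⟩,⟨0,[(28,0)]⟩),⟨0,[(1,0),(13,0)]⟩,.k,.k,(.r 0 ⟨0,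
  [(0,0)]⟩ ⟨3,[(8,3),(4,0),(0,2),(3,3)]⟩),(.r 0 ⟨0,[(3,0),(4,0),(9,0)]⟩ ⟨0,[(0,0),(13,0)]⟩),.k,.k,
  ⟨false,0,⟨0,[(2,0),(27,0)]⟩,⟨0,[(0,0),(13,0)]⟩⟩,⟨true,0,⟨1,[(15,0),(2,0),(2,0)]⟩,⟨0,[(16,0)]⟩⟩,
  ⟨true,0,⟨0,[]⟩,⟨0,[(35,0)]⟩⟩,⟨false,1,⟨1,[(5,0),(8,0),(0,0),(15,0),(1,0)]⟩,⟨0,[(2,0),(13,0),(13,
  0)]⟩⟩,⟨false,1,⟨0,[(30,0),(2,0)]⟩,⟨0,[(31,0)]⟩⟩,⟨false,1,⟨3,[(14,1),(0,1),(10,0),(2,1),(2,0)]⟩,⟨0,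
  [(3,0),(12,0)]⟩⟩,[.o ⟨false,0,⟨0,[(5,0)]⟩,⟨3,[(13,0),(0,0),(15,3),(2,1)]⟩⟩,.o ⟨false,1,⟨3,[(5,3),
  (7,0),(0,0),(18,1)]⟩,⟨0,[(30,0)]⟩⟩,.a ⟨true,0,⟨0,[(16,0)]⟩,⟨1,[(15,0),(8,0),(0,0)]⟩⟩ ⟨false,0,⟨0,
  [(2,0)]⟩,⟨3,[(13,0),(0,2)]⟩⟩ ⟨true,0,⟨1,[(5,0),(9,0),(15,0)]⟩,⟨0,[(16,0),(13,0)]⟩⟩,.o ⟨false,0,⟨1,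
  [(4,0),(2,0),(8,1),(4,0)]⟩,⟨7,[(13,0),(0,0),(0,3),(10,1),(5,3)]⟩⟩]⟩) (.R ⟨1,false,false,false,[1,
  0,0,-1],[1,-1],[1,0,0,0,0,0,0,0,-1],(⟨1,[(15,0),(8,0),(0,0)]⟩,⟨0,[(16,0)]⟩),(⟨0,[(27,0)]⟩,⟨0,[(28,
  0)]⟩),⟨0,[(1,0),(13,0)]⟩,.k,.k,(.x 0 ⟨1,[(1,1),(13,0),(2,0),(2,0)]⟩ ⟨3,[(13,0),(0,0),(13,3),(3,
  1)]⟩),(.r 0 ⟨0,[(0,0),(2,1)]⟩ ⟨1,[(14,0),(16,1),(0,0)]⟩),.k,.k,⟨false,0,⟨0,[(2,0),(27,0)]⟩,⟨1,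
  [(14,0),(16,1),(0,0)]⟩⟩,⟨true,0,⟨1,[(15,0),(2,0),(2,0)]⟩,⟨0,[(16,0)]⟩⟩,⟨true,0,⟨0,[]⟩,⟨0,[(35,
  0)]⟩⟩,⟨false,1,⟨1,[(5,0),(8,0),(0,0),(15,0),(1,0)]⟩,⟨0,[(2,0),(13,0),(13,0)]⟩⟩,⟨false,1,⟨0,[(30,
  0),(2,0)]⟩,⟨0,[(31,0)]⟩⟩,⟨false,1,⟨3,[(14,1),(0,1),(10,0),(2,1),(2,0)]⟩,⟨0,[(3,0),(12,0)]⟩⟩,[.o
  ⟨false,0,⟨0,[(5,0)]⟩,⟨3,[(13,0),(0,0),(15,3),(2,1)]⟩⟩,.o ⟨false,1,⟨3,[(5,3),(7,0),(0,0),(18,1)]⟩,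
  ⟨0,[(30,0)]⟩⟩,.a ⟨true,0,⟨0,[(16,0)]⟩,⟨1,[(15,0),(8,0),(0,0)]⟩⟩ ⟨false,0,⟨0,[(2,0)]⟩,⟨3,[(13,0),
  (0,2)]⟩⟩ ⟨true,0,⟨1,[(5,0),(9,0),(15,0)]⟩,⟨0,[(16,0),(13,0)]⟩⟩,.o ⟨false,0,⟨1,[(4,0),(2,0),(8,1),
  (4,0)]⟩,⟨7,[(13,0),(0,0),(0,3),(10,1),(5,3)]⟩⟩]⟩))) (.K ⟨2,[1,0,0,-1],0,0,(⟨1,[(13,0),(8,0),(0,
  0)]⟩,⟨0,[(14,0)]⟩),.k,(.r (-1) ⟨1,[(11,0),(17,1),(0,0)]⟩ ⟨0,[(0,0),(26,0),(0,0)]⟩),(.r 0 ⟨0,[(1,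
  0),(4,0),(9,0)]⟩ ⟨1,[(12,0),(16,1),(0,0)]⟩),.k,.k,[⟨1,[(10,0),(2,0)]⟩,⟨0,[(3,0),(2,0),(7,0)]⟩,⟨1,
  [(10,0),(2,0),(6,1)]⟩,⟨1,[(2,0),(2,0),(8,1),(4,0)]⟩,⟨1,[(0,1),(12,0),(8,0),(0,0)]⟩,⟨0,[(1,0),(1,
  0),(10,0),(13,0)]⟩]⟩)) (.Q [0,-1,0,0,0,0,0,0,1,0,0,-1] (.p false [0,0,0,1] [] (⟨0,[(13,0)]⟩,⟨1,
  [(12,0),(8,0),(0,0)]⟩) .k 0 (⟨0,[]⟩,⟨0,[]⟩) .k .k) (.Q [0,0,0,0,0,1,0,0,0,0,0,-1] (.p false [0,0,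
  0,1] [] (⟨0,[(14,0)]⟩,⟨1,[(13,0),(8,0),(0,0)]⟩) .k 0 (⟨0,[]⟩,⟨0,[]⟩) .k .k) (.R ⟨0,false,false,
  false,[0,0,0,1],[1,-1],[1,0,0,0,0,0,0,0,1],(⟨0,[(15,0)]⟩,⟨1,[(14,0),(8,0),(0,0)]⟩),(⟨0,[(26,0)]⟩,
  ⟨0,[(27,0)]⟩),⟨0,[(0,0)]⟩,.k,.k,(.x 0 ⟨1,[(3,0),(2,0),(13,0),(5,1)]⟩ ⟨3,[(12,0),(0,0),(13,3),(3,
  1)]⟩),(.r 0 ⟨0,[(2,0),(4,0),(9,0)]⟩ ⟨1,[(12,0),(17,1),(0,0)]⟩),.k,.k,⟨false,0,⟨0,[(1,0),(13,0),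
  (13,0)]⟩,⟨1,[(12,0),(17,1),(0,0)]⟩⟩,⟨true,0,⟨1,[(3,0),(2,0),(8,1),(4,0)]⟩,⟨1,[(14,0),(8,0),(0,
  0)]⟩⟩,⟨true,0,⟨0,[]⟩,⟨0,[(34,0)]⟩⟩,⟨false,1,⟨1,[(4,1),(7,0),(2,1),(16,0)]⟩,⟨3,[(1,1),(0,1),(4,1),
  (2,1),(3,0),(8,0),(0,0)]⟩⟩,⟨false,0,⟨0,[]⟩,⟨0,[]⟩⟩,⟨false,0,⟨0,[]⟩,⟨0,[]⟩⟩,[.o ⟨false,0,⟨0,[(4,
  0)]⟩,⟨3,[(12,0),(0,0),(15,3),(2,1)]⟩⟩,.o ⟨false,1,⟨3,[(4,3),(7,0),(0,0),(18,1)]⟩,⟨0,[(29,0)]⟩⟩,.a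
  ⟨true,0,⟨1,[(14,0),(8,0),(0,0)]⟩,⟨0,[(15,0)]⟩⟩ ⟨false,0,⟨0,[(1,0),(13,0)]⟩,⟨3,[(12,2),(0,0)]⟩⟩
  ⟨true,0,⟨0,[(4,0),(10,0)]⟩,⟨1,[(7,0),(2,0),(3,0),(19,0)]⟩⟩,.o ⟨false,0,⟨1,[(14,0),(2,0),(2,0)]⟩,
  ⟨1,[(15,1),(9,0),(5,0)]⟩⟩]⟩) (.R ⟨1,false,false,false,[0,0,0,1],[1,-1],[1,0,0,0,0,0,0,0,1],(⟨0,
  [(15,0)]⟩,⟨1,[(14,0),(8,0),(0,0)]⟩),(⟨0,[(26,0)]⟩,⟨0,[(27,0)]⟩),⟨0,[(0,0)]⟩,.k,.k,(.x 0 ⟨1,[(0,1),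
  (13,0),(2,0),(2,0)]⟩ ⟨3,[(12,0),(0,0),(13,3),(3,1)]⟩),(.r 0 ⟨0,[(2,0),(4,0),(9,0)]⟩ ⟨1,[(12,0),
  (17,1),(0,0)]⟩),.k,.k,⟨false,0,⟨0,[(1,0),(13,0),(13,0)]⟩,⟨1,[(12,0),(17,1),(0,0)]⟩⟩,⟨true,0,⟨1,
  [(3,0),(2,0),(8,1),(4,0)]⟩,⟨1,[(14,0),(8,0),(0,0)]⟩⟩,⟨true,0,⟨0,[]⟩,⟨0,[(34,0)]⟩⟩,⟨false,1,⟨1,[(4,
  1),(7,0),(2,1),(16,0)]⟩,⟨3,[(1,1),(0,1),(4,1),(2,1),(3,0),(8,0),(0,0)]⟩⟩,⟨false,1,⟨0,[(29,0),(2,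
  0)]⟩,⟨0,[(30,0)]⟩⟩,⟨false,1,⟨1,[(3,0),(0,0),(1,0),(0,0),(4,0),(2,1),(12,0),(2,0)]⟩,⟨1,[(2,1),(11,
  0),(8,0),(0,0)]⟩⟩,[.o ⟨false,0,⟨0,[(4,0)]⟩,⟨3,[(12,0),(0,0),(15,3),(2,1)]⟩⟩,.o ⟨false,1,⟨3,[(4,3),
  (7,0),(0,0),(18,1)]⟩,⟨0,[(29,0)]⟩⟩,.a ⟨true,0,⟨1,[(14,0),(8,0),(0,0)]⟩,⟨0,[(15,0)]⟩⟩ ⟨false,0,⟨0,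
  [(1,0),(13,0)]⟩,⟨3,[(12,2),(0,0)]⟩⟩ ⟨true,0,⟨0,[(4,0),(10,0)]⟩,⟨1,[(7,0),(2,0),(3,0),(19,0)]⟩⟩,.o
  ⟨false,0,⟨1,[(14,0),(2,0),(2,0)]⟩,⟨1,[(15,1),(9,0),(5,0)]⟩⟩]⟩)) (.Q [0,-1,0,0,0,0,0,0,1,1,0,-1]
  (.p false [0,0,0,1] [1] (⟨0,[(14,0)]⟩,⟨1,[(13,0),(8,0),(0,0)]⟩) .k 1 (⟨0,[]⟩,⟨0,[]⟩) .k .k) (.R
  ⟨2,true,false,true,[0,1],[1,0,0,-1],[0,1,1],(⟨0,[]⟩,⟨0,[]⟩),(⟨1,[(14,0),(8,0),(0,0)]⟩,⟨0,[(15,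
  0)]⟩),⟨0,[]⟩,.k,.k,.k,(.r 0 ⟨0,[(2,0),(4,0),(9,0)]⟩ ⟨1,[(12,0),(17,1),(0,0)]⟩),.k,.k,⟨false,0,⟨0,
  [(0,0),(3,0),(10,0),(13,0)]⟩,⟨1,[(12,0),(18,0)]⟩⟩,⟨true,0,⟨1,[(3,0),(2,0),(8,1),(4,0)]⟩,⟨1,[(14,
  0),(8,0),(0,0)]⟩⟩,⟨false,0,⟨0,[(30,0)]⟩,⟨0,[(29,0),(2,0)]⟩⟩,⟨true,0,⟨0,[(1,0),(2,0)]⟩,⟨0,[(0,0),
  (28,0)]⟩⟩,⟨true,0,⟨0,[(34,0)]⟩,⟨0,[]⟩⟩,⟨false,1,⟨1,[(12,0),(2,1),(9,0)]⟩,⟨0,[(0,0)]⟩⟩,[]⟩) (.K ⟨2,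
  [0,0,0,1],0,0,(⟨0,[(15,0)]⟩,⟨1,[(14,0),(8,0),(0,0)]⟩),.k,(.r (-1) ⟨1,[(13,0),(16,1),(0,0)]⟩ ⟨5,
  [(0,4),(0,0),(5,3),(2,1),(3,2),(2,1),(10,3)]⟩),(.r 0 ⟨0,[(2,0),(4,0),(9,0)]⟩ ⟨1,[(12,0),(17,1),(0,
  0)]⟩),.k,.k,[⟨0,[(4,0),(2,0),(7,0)]⟩,⟨1,[(11,0),(2,0)]⟩,⟨1,[(15,1),(4,0),(0,0)]⟩,⟨1,[(14,0),(2,0),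
  (2,0)]⟩,⟨0,[(1,0)]⟩,⟨3,[(2,3),(5,0),(5,1),(3,0),(10,0),(4,0)]⟩]⟩)))) (.R ⟨2,true,false,false,[0,
  1],[1,0,-1],[0,1,1],(⟨0,[]⟩,⟨0,[]⟩),(⟨0,[(20,0)]⟩,⟨0,[(21,0)]⟩),⟨0,[]⟩,.k,.k,.k,.k,.k,.k,⟨false,0,
  ⟨0,[(0,0),(0,0),(5,0)]⟩,⟨1,[(19,1),(8,0),(0,0)]⟩⟩,⟨true,0,⟨0,[(14,0)]⟩,⟨1,[(8,0),(11,0),(0,0)]⟩⟩,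
  ⟨false,0,⟨0,[(27,0)]⟩,⟨0,[(26,0),(2,0)]⟩⟩,⟨true,0,⟨0,[(2,0)]⟩,⟨0,[(0,0),(25,0)]⟩⟩,⟨true,0,⟨0,[(31,
  0)]⟩,⟨0,[]⟩⟩,⟨false,1,⟨0,[(13,0),(15,0)]⟩,⟨0,[(0,0)]⟩⟩,[]⟩))) (.Q [0,0,0,1,0,0,0,0,0,1] (.pp
  false [-1,1]) (.R ⟨0,false,false,true,[-1,1,1],[0,1],[1,1,1],(⟨0,[(5,0)]⟩,⟨0,[(19,0),(2,0)]⟩),(⟨0,
  [(23,0)]⟩,⟨0,[(22,0)]⟩),⟨0,[(19,0)]⟩,.k,.k,.k,.k,.k,.k,⟨true,0,⟨0,[(26,0)]⟩,⟨0,[(3,0),(9,0)]⟩⟩,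
  ⟨false,1,⟨0,[(13,0),(13,0)]⟩,⟨1,[(0,0),(6,0),(18,0)]⟩⟩,⟨false,0,⟨0,[(18,0),(7,0)]⟩,⟨3,[(1,1),(0,
  1),(3,1),(20,0),(0,2)]⟩⟩,⟨true,0,⟨0,[(12,0)]⟩,⟨0,[(1,0),(24,0)]⟩⟩,⟨false,0,⟨0,[]⟩,⟨0,[]⟩⟩,⟨false,
  0,⟨0,[]⟩,⟨0,[]⟩⟩,[.o ⟨false,0,⟨0,[(25,0)]⟩,⟨1,[(21,0),(4,1),(1,0)]⟩⟩,.a ⟨true,0,⟨0,[(0,0)]⟩,⟨0,
  [(26,0)]⟩⟩ ⟨false,0,⟨0,[]⟩,⟨3,[(8,0),(0,0),(17,1)]⟩⟩ ⟨true,0,⟨0,[(1,0),(2,0),(1,0),(17,0)]⟩,⟨1,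
  [(0,0),(6,0),(18,2)]⟩⟩,.e ⟨false,0,⟨1,[(16,0),(0,0)]⟩,⟨1,[(27,0),(0,0)]⟩⟩ ⟨false,0,⟨0,[(1,0),(2,
  0),(1,0),(17,0)]⟩,⟨1,[(0,0),(6,0),(18,2),(0,0),(0,0)]⟩⟩,.o ⟨false,0,⟨1,[(0,0),(6,0),(18,0)]⟩,⟨1,
  [(13,1),(7,0),(5,0)]⟩⟩]⟩) (.Q [0,0,0,0,0,-1,0,0,0,0,1] (.ed false [1,-1,1] .k) (.Q [0,-1,0,-1,0,0,
  1,1,0,1,-1] (.p false [0,0,1] [1] (⟨0,[(21,0)]⟩,⟨0,[(20,0)]⟩) .k 1 (⟨0,[]⟩,⟨0,[]⟩) .k .k) (.R ⟨2,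
  true,false,true,[0,1],[1,1,-1],[0,1,1],(⟨0,[]⟩,⟨0,[]⟩),(⟨0,[(21,0),(3,0)]⟩,⟨0,[(1,0)]⟩),⟨0,[]⟩,.k,
  .k,.k,.k,.k,.k,⟨true,0,⟨0,[(0,0),(1,0),(5,0)]⟩,⟨0,[(5,0),(9,0),(4,0)]⟩⟩,⟨false,1,⟨0,[(15,0),(13,
  0)]⟩,⟨2,[(0,0),(4,0),(3,0),(7,0)]⟩⟩,⟨false,0,⟨0,[(28,0)]⟩,⟨0,[(27,0),(2,0)]⟩⟩,⟨true,0,⟨0,[(14,
  0)]⟩,⟨1,[(0,0),(2,0),(28,0)]⟩⟩,⟨true,0,⟨0,[(32,0)]⟩,⟨0,[]⟩⟩,⟨false,1,⟨1,[(8,1),(11,1),(2,0),(6,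
  0)]⟩,⟨0,[(0,0)]⟩⟩,[]⟩) (.Q [0,0,0,1,0,0,0,0,-1,0,0,1] (.p true [0,0,0,1] [] (⟨0,[(13,0)]⟩,⟨1,[(12,
  0),(8,0),(0,0)]⟩) .k 0 (⟨0,[]⟩,⟨0,[]⟩) .k .k) (.I [1,-1,0,0,0,0,0,0,-1] (.Q [0,0,0,0,0,1,0,0,0,0,
  0,-1] (.p false [0,0,0,1] [] (⟨0,[(15,0)]⟩,⟨1,[(14,0),(8,0),(0,0)]⟩) .k 0 (⟨0,[]⟩,⟨0,[]⟩) .k .k)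
  (.R ⟨0,false,false,false,[0,0,0,1],[0,0,1],[1,0,0,-1,0,0,0,0,1],(⟨0,[(16,0)]⟩,⟨1,[(15,0),(8,0),(0,
  0)]⟩),(⟨0,[(25,0)]⟩,⟨0,[(24,0)]⟩),⟨0,[(0,0)]⟩,.k,.k,(.r (-1) ⟨1,[(14,0),(16,1),(0,0)]⟩ ⟨1,[(2,1),
  (12,0),(2,0),(2,0)]⟩),.k,.k,.k,⟨false,1,⟨1,[(14,0),(8,1),(7,1),(0,0)]⟩,⟨0,[(1,0),(3,0),(0,0),(4,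
  0)]⟩⟩,⟨true,0,⟨0,[(5,0),(2,0),(7,0)]⟩,⟨1,[(15,0),(2,0),(3,0)]⟩⟩,⟨true,0,⟨0,[(31,0)]⟩,⟨0,[(30,
  0)]⟩⟩,⟨false,0,⟨0,[(1,0),(3,0),(0,0),(9,0)]⟩,⟨5,[(3,0),(5,0),(4,2),(0,2),(4,3),(12,2)]⟩⟩,⟨false,0,
  ⟨0,[]⟩,⟨0,[]⟩⟩,⟨false,0,⟨0,[]⟩,⟨0,[]⟩⟩,[.o ⟨false,0,⟨0,[(5,0),(0,0)]⟩,⟨1,[(20,1),(5,0),(6,0)]⟩⟩,
  .o ⟨false,1,⟨0,[(19,0),(13,0)]⟩,⟨0,[(17,0)]⟩⟩,.a ⟨true,0,⟨1,[(15,0),(8,0),(0,0)]⟩,⟨0,[(16,0)]⟩⟩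
  ⟨false,1,⟨1,[(14,0),(16,1),(1,0)]⟩,⟨0,[(1,0),(28,0)]⟩⟩ ⟨true,0,⟨0,[(5,0),(0,0),(9,0)]⟩,⟨5,[(3,0),
  (5,0),(5,2),(4,3)]⟩⟩,.o ⟨false,0,⟨1,[(15,0),(2,0),(2,0)]⟩,⟨1,[(16,1),(9,0),(5,0)]⟩⟩]⟩) (.R ⟨1,
  false,false,false,[1,0,0,-1],[1,-1],[1,0,0,0,0,0,0,0,-1],(⟨1,[(15,0),(8,0),(0,0)]⟩,⟨0,[(16,0)]⟩),
  (⟨0,[(27,0)]⟩,⟨0,[(28,0)]⟩),⟨0,[(0,0),(14,0)]⟩,.k,.k,(.x 0 ⟨1,[(0,1),(14,0),(2,0),(2,0)]⟩ ⟨3,[(13,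
  0),(0,0),(13,3),(3,1)]⟩),(.r 0 ⟨1,[(2,1),(12,0),(2,0),(2,0)]⟩ ⟨1,[(14,0),(16,1),(0,0)]⟩),.k,.k,
  ⟨false,0,⟨0,[(1,0),(28,0)]⟩,⟨1,[(14,0),(16,1),(0,0)]⟩⟩,⟨true,0,⟨1,[(15,0),(2,0),(2,0)]⟩,⟨0,[(16,
  0)]⟩⟩,⟨true,0,⟨0,[]⟩,⟨0,[(35,0)]⟩⟩,⟨false,1,⟨1,[(5,0),(8,0),(0,0),(15,0),(1,0)]⟩,⟨0,[(2,0)]⟩⟩,
  ⟨false,1,⟨0,[(30,0),(2,0)]⟩,⟨0,[(31,0)]⟩⟩,⟨false,1,⟨3,[(14,1),(0,1),(10,0),(2,1),(2,0)]⟩,⟨0,[(2,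
  0),(28,0)]⟩⟩,[.o ⟨false,0,⟨0,[(5,0)]⟩,⟨3,[(13,0),(0,0),(15,3),(2,1)]⟩⟩,.o ⟨false,1,⟨3,[(5,3),(7,
  0),(0,0),(18,1)]⟩,⟨0,[(30,0)]⟩⟩,.a ⟨true,0,⟨0,[(16,0)]⟩,⟨1,[(15,0),(8,0),(0,0)]⟩⟩ ⟨false,0,⟨0,[(1,
  0)]⟩,⟨3,[(13,0),(0,2)]⟩⟩ ⟨true,0,⟨1,[(5,0),(9,0),(15,0)]⟩,⟨0,[(16,0),(13,0)]⟩⟩,.o ⟨false,0,⟨4,[(3,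
  0),(3,1),(1,0),(6,4),(4,1),(7,0)]⟩,⟨7,[(13,0),(0,0),(0,3),(10,1),(5,3)]⟩⟩]⟩)) (.K ⟨2,[1,0,0,-1],0,
  0,(⟨1,[(14,0),(8,0),(0,0)]⟩,⟨0,[(15,0)]⟩),.k,(.r (-1) ⟨1,[(12,0),(17,1),(0,0)]⟩ ⟨0,[(0,0),(27,0),
  (0,0)]⟩),(.r 0 ⟨1,[(1,1),(12,0),(2,0),(2,0)]⟩ ⟨1,[(13,0),(16,1),(0,0)]⟩),.k,.k,[⟨1,[(11,0),(2,
  0)]⟩,⟨0,[(4,0),(2,0),(7,0)]⟩,⟨1,[(11,0),(2,0),(6,1)]⟩,⟨4,[(2,0),(3,1),(1,0),(6,4),(4,1),(7,0)]⟩,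
  ⟨1,[(0,1),(13,0),(8,0),(0,0)]⟩,⟨1,[(1,1),(6,0),(9,0),(11,0)]⟩]⟩)) (.Q [0,-1,0,0,0,0,0,0,1,0,0,-1]
  (.p false [0,0,0,1] [] (⟨0,[(14,0)]⟩,⟨1,[(13,0),(8,0),(0,0)]⟩) .k 0 (⟨0,[]⟩,⟨0,[]⟩) .k .k) (.Q [0,
  0,0,0,0,1,0,0,0,0,0,-1] (.p false [0,0,0,1] [] (⟨0,[(15,0)]⟩,⟨1,[(14,0),(8,0),(0,0)]⟩) .k 0 (⟨0,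
  []⟩,⟨0,[]⟩) .k .k) (.R ⟨0,false,false,false,[0,0,0,1],[1,-1],[1,0,0,0,0,0,0,0,1],(⟨0,[(16,0)]⟩,⟨1,
  [(15,0),(8,0),(0,0)]⟩),(⟨0,[(27,0)]⟩,⟨0,[(28,0)]⟩),⟨0,[(0,0)]⟩,.k,.k,(.x 0 ⟨4,[(3,0),(3,1),(1,0),
  (11,1),(5,4),(1,0)]⟩ ⟨3,[(13,0),(0,0),(13,3),(3,1)]⟩),(.r 0 ⟨1,[(1,1),(14,1),(4,0),(0,0),(7,1)]⟩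
  ⟨1,[(13,0),(17,1),(0,0)]⟩),.k,.k,⟨false,0,⟨0,[(1,0),(14,0),(13,0)]⟩,⟨1,[(13,0),(17,1),(0,0)]⟩⟩,
  ⟨true,0,⟨4,[(3,0),(3,1),(1,0),(6,4),(4,1),(7,0)]⟩,⟨1,[(15,0),(8,0),(0,0)]⟩⟩,⟨true,0,⟨0,[]⟩,⟨0,
  [(35,0)]⟩⟩,⟨false,1,⟨1,[(5,1),(7,0),(2,1),(16,0)]⟩,⟨0,[(1,0),(4,0),(13,0)]⟩⟩,⟨false,0,⟨0,[]⟩,⟨0,
  []⟩⟩,⟨false,0,⟨0,[]⟩,⟨0,[]⟩⟩,[.o ⟨false,0,⟨0,[(5,0)]⟩,⟨3,[(13,0),(0,0),(15,3),(2,1)]⟩⟩,.o ⟨false,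
  1,⟨3,[(5,3),(7,0),(0,0),(18,1)]⟩,⟨0,[(30,0)]⟩⟩,.a ⟨true,0,⟨1,[(15,0),(8,0),(0,0)]⟩,⟨0,[(16,0)]⟩⟩
  ⟨false,0,⟨0,[(1,0),(14,0)]⟩,⟨3,[(13,2),(0,0)]⟩⟩ ⟨true,0,⟨0,[(5,0),(10,0)]⟩,⟨1,[(6,0),(8,0),(4,0),
  (9,0)]⟩⟩,.o ⟨false,0,⟨1,[(15,0),(2,0),(2,0)]⟩,⟨1,[(16,1),(9,0),(5,0)]⟩⟩]⟩) (.R ⟨1,false,false,
  false,[0,0,0,1],[1,-1],[1,0,0,0,0,0,0,0,1],(⟨0,[(16,0)]⟩,⟨1,[(15,0),(8,0),(0,0)]⟩),(⟨0,[(27,0)]⟩,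
  ⟨0,[(28,0)]⟩),⟨0,[(0,0)]⟩,.k,.k,(.x 0 ⟨1,[(0,1),(14,0),(2,0),(2,0)]⟩ ⟨3,[(13,0),(0,0),(13,3),(3,
  1)]⟩),(.r 0 ⟨1,[(1,1),(14,1),(4,0),(0,0),(7,1)]⟩ ⟨1,[(13,0),(17,1),(0,0)]⟩),.k,.k,⟨false,0,⟨0,[(1,
  0),(14,0),(13,0)]⟩,⟨1,[(13,0),(17,1),(0,0)]⟩⟩,⟨true,0,⟨4,[(3,0),(3,1),(1,0),(6,4),(4,1),(7,0)]⟩,
  ⟨1,[(15,0),(8,0),(0,0)]⟩⟩,⟨true,0,⟨0,[]⟩,⟨0,[(35,0)]⟩⟩,⟨false,1,⟨1,[(5,1),(7,0),(2,1),(16,0)]⟩,⟨0,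
  [(1,0),(4,0),(13,0)]⟩⟩,⟨false,1,⟨0,[(30,0),(2,0)]⟩,⟨0,[(31,0)]⟩⟩,⟨false,1,⟨5,[(3,1),(1,3),(0,1),
  (6,2),(2,5),(9,0),(2,3),(2,1)]⟩,⟨1,[(1,0),(0,0),(3,0),(13,0),(3,0),(0,0)]⟩⟩,[.o ⟨false,0,⟨0,[(5,
  0)]⟩,⟨3,[(13,0),(0,0),(15,3),(2,1)]⟩⟩,.o ⟨false,1,⟨3,[(5,3),(7,0),(0,0),(18,1)]⟩,⟨0,[(30,0)]⟩⟩,.a
  ⟨true,0,⟨1,[(15,0),(8,0),(0,0)]⟩,⟨0,[(16,0)]⟩⟩ ⟨false,0,⟨0,[(1,0),(14,0)]⟩,⟨3,[(13,2),(0,0)]⟩⟩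
  ⟨true,0,⟨0,[(5,0),(10,0)]⟩,⟨1,[(6,0),(8,0),(4,0),(9,0)]⟩⟩,.o ⟨false,0,⟨1,[(15,0),(2,0),(2,0)]⟩,⟨1,
  [(16,1),(9,0),(5,0)]⟩⟩]⟩)) (.K ⟨2,[0,0,0,1],0,0,(⟨0,[(15,0)]⟩,⟨1,[(14,0),(8,0),(0,0)]⟩),.k,(.r
  (-1) ⟨1,[(13,0),(16,1),(0,0)]⟩ ⟨13,[(0,13),(1,9),(1,3),(0,7),(0,1),(4,0),(2,6),(13,11)]⟩),(.r 0
  ⟨0,[(1,0),(13,0),(12,0),(0,1)]⟩ ⟨1,[(12,0),(17,1),(0,0)]⟩),.k,.k,[⟨0,[(4,0),(2,0),(7,0)]⟩,⟨1,[(11,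
  0),(2,0)]⟩,⟨1,[(15,1),(4,0),(0,0)]⟩,⟨1,[(14,0),(2,0),(2,0)]⟩,⟨0,[(0,0)]⟩,⟨0,[(1,0),(27,0)]⟩]⟩))))
  (.Q [0,0,0,0,0,0,-1,0,0,1,1] (.p true [1,-1,1] [] (⟨0,[(21,0),(1,0)]⟩,⟨0,[(0,0)]⟩) .k 0 (⟨0,[]⟩,
  ⟨0,[]⟩) .k .k) (.K ⟨0,[1,-1,1],0,0,(⟨0,[(22,0),(1,0)]⟩,⟨0,[(1,0)]⟩),.k,(.r (-1) ⟨0,[(0,0),(1,1),
  (0,0),(24,0),(0,0)]⟩ ⟨0,[(5,1),(9,1),(4,0)]⟩),.k,.k,.k,[⟨0,[(0,0)]⟩,⟨0,[(2,0),(2,0)]⟩,⟨1,[(0,0),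
  (4,0),(2,0),(8,0),(2,0)]⟩,⟨0,[(2,0),(13,0)]⟩]⟩) (.Q [0,-1,0,0,0,0,1,1,-1,0,-1,1] (.p false [0,0,
  1] [0,0,0,1] (⟨0,[(22,0)]⟩,⟨0,[(21,0)]⟩) .k 2 (⟨0,[(13,0)]⟩,⟨1,[(12,0),(8,0),(0,0)]⟩) .k (.x 0 ⟨2,
  [(0,0),(8,0),(12,2)]⟩ ⟨3,[(10,0),(0,0),(3,3),(5,3),(7,1)]⟩)) (.R ⟨0,false,false,false,[0,0,0,1],
  [0,0,1],[1,0,0,0,0,0,0,0,1],(⟨0,[(14,0)]⟩,⟨1,[(13,0),(8,0),(0,0)]⟩),(⟨0,[(23,0)]⟩,⟨0,[(22,0)]⟩),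
  ⟨1,[(2,0),(5,0),(4,0)]⟩,.k,.k,(.r (-1) ⟨1,[(12,0),(16,1),(0,0)]⟩ ⟨1,[(0,1),(5,0),(6,0),(2,1),(1,
  0),(2,0),(6,0)]⟩),.k,.k,.k,⟨false,1,⟨1,[(12,0),(8,1),(8,0)]⟩,⟨1,[(0,1),(2,0),(5,1),(3,0),(15,
  0)]⟩⟩,⟨true,0,⟨2,[(1,0),(8,0),(3,2)]⟩,⟨1,[(13,0),(2,0),(3,0)]⟩⟩,⟨true,0,⟨0,[]⟩,⟨0,[(33,0)]⟩⟩,
  ⟨false,0,⟨0,[(0,0)]⟩,⟨1,[(12,0),(0,0),(1,0),(2,0),(12,0)]⟩⟩,⟨false,0,⟨0,[]⟩,⟨0,[]⟩⟩,⟨false,0,⟨0,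
  []⟩,⟨0,[]⟩⟩,[.o ⟨false,0,⟨0,[(3,0),(0,0)]⟩,⟨1,[(18,1),(5,0),(6,0)]⟩⟩,.o ⟨false,1,⟨0,[(17,0),(13,
  0)]⟩,⟨0,[(15,0)]⟩⟩,.a ⟨true,0,⟨1,[(13,0),(8,0),(0,0)]⟩,⟨0,[(14,0)]⟩⟩ ⟨false,1,⟨1,[(12,0),(18,0)]⟩,
  ⟨1,[(0,1),(12,0),(1,0),(2,0)]⟩⟩ ⟨true,0,⟨0,[(3,0),(0,0),(9,0)]⟩,⟨1,[(13,0),(1,0),(2,0)]⟩⟩,.o
  ⟨false,0,⟨1,[(13,0),(2,0),(2,0)]⟩,⟨1,[(14,1),(9,0),(5,0)]⟩⟩]⟩) (.I [1,-1,0,0,0,0,0,0,1] (.I [0,0,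
  -1,-1,0,0,0,0,1] (.R ⟨0,false,false,false,[0,0,0,1],[1,-1],[1,0,0,0,0,0,0,0,1],(⟨0,[(16,0)]⟩,⟨1,
  [(15,0),(8,0),(0,0)]⟩),(⟨0,[(27,0)]⟩,⟨0,[(28,0)]⟩),⟨1,[(4,0),(5,0),(4,0)]⟩,.k,.k,(.r 0 ⟨0,[(0,
  0)]⟩ ⟨3,[(8,3),(4,2),(0,0),(3,3)]⟩),(.r 0 ⟨1,[(1,1),(19,0),(0,0),(7,1)]⟩ ⟨0,[(0,0),(12,0)]⟩),.k,
  .k,⟨false,0,⟨0,[(1,0),(28,0)]⟩,⟨0,[(0,0),(12,0)]⟩⟩,⟨true,0,⟨2,[(3,0),(12,2),(1,1),(2,0)]⟩,⟨1,[(15,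
  0),(8,0),(0,0)]⟩⟩,⟨true,0,⟨0,[]⟩,⟨0,[(35,0)]⟩⟩,⟨false,1,⟨1,[(5,1),(7,0),(2,1),(16,0)]⟩,⟨2,[(1,1),
  (0,0),(3,0),(1,0),(2,0),(3,0)]⟩⟩,⟨false,0,⟨0,[]⟩,⟨0,[]⟩⟩,⟨false,0,⟨0,[]⟩,⟨0,[]⟩⟩,[.o ⟨false,0,⟨0,
  [(5,0)]⟩,⟨3,[(13,0),(0,0),(15,3),(2,1)]⟩⟩,.o ⟨false,1,⟨3,[(5,3),(7,0),(0,0),(18,1)]⟩,⟨0,[(30,
  0)]⟩⟩,.a ⟨true,0,⟨1,[(15,0),(8,0),(0,0)]⟩,⟨0,[(16,0)]⟩⟩ ⟨false,0,⟨0,[(1,0)]⟩,⟨3,[(13,2),(0,0)]⟩⟩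
  ⟨true,0,⟨0,[(5,0),(10,0)]⟩,⟨1,[(6,0),(8,0),(4,0),(9,0)]⟩⟩,.o ⟨false,0,⟨1,[(15,0),(2,0),(2,0)]⟩,⟨1,
  [(16,1),(9,0),(5,0)]⟩⟩]⟩) (.R ⟨0,false,false,false,[0,0,0,1],[1,-1],[1,0,0,0,0,0,0,0,1],(⟨0,[(16,
  0)]⟩,⟨1,[(15,0),(8,0),(0,0)]⟩),(⟨0,[(27,0)]⟩,⟨0,[(28,0)]⟩),⟨1,[(4,0),(5,0),(4,0)]⟩,.k,.k,(.x 0 ⟨2,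
  [(3,0),(14,1),(2,0),(5,2)]⟩ ⟨3,[(13,0),(0,0),(13,3),(3,1)]⟩),(.r 0 ⟨1,[(1,1),(19,0),(0,0),(7,1)]⟩
  ⟨1,[(13,0),(17,1),(0,0)]⟩),.k,.k,⟨false,0,⟨0,[(1,0),(28,0)]⟩,⟨1,[(13,0),(17,1),(0,0)]⟩⟩,⟨true,0,
  ⟨2,[(3,0),(12,2),(1,1),(2,0)]⟩,⟨1,[(15,0),(8,0),(0,0)]⟩⟩,⟨true,0,⟨0,[]⟩,⟨0,[(35,0)]⟩⟩,⟨false,1,⟨1,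
  [(5,1),(7,0),(2,1),(16,0)]⟩,⟨2,[(1,1),(0,0),(3,0),(1,0),(2,0),(3,0)]⟩⟩,⟨false,0,⟨0,[]⟩,⟨0,[]⟩⟩,
  ⟨false,0,⟨0,[]⟩,⟨0,[]⟩⟩,[.o ⟨false,0,⟨0,[(5,0)]⟩,⟨3,[(13,0),(0,0),(15,3),(2,1)]⟩⟩,.o ⟨false,1,⟨3,
  [(5,3),(7,0),(0,0),(18,1)]⟩,⟨0,[(30,0)]⟩⟩,.a ⟨true,0,⟨1,[(15,0),(8,0),(0,0)]⟩,⟨0,[(16,0)]⟩⟩
  ⟨false,0,⟨0,[(1,0)]⟩,⟨3,[(13,2),(0,0)]⟩⟩ ⟨true,0,⟨0,[(5,0),(10,0)]⟩,⟨1,[(6,0),(8,0),(4,0),(9,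
  0)]⟩⟩,.o ⟨false,0,⟨1,[(15,0),(2,0),(2,0)]⟩,⟨1,[(16,1),(9,0),(5,0)]⟩⟩]⟩)) (.K ⟨2,[0,0,0,1],0,0,(⟨0,
  [(15,0)]⟩,⟨1,[(14,0),(8,0),(0,0)]⟩),.k,(.r (-1) ⟨1,[(13,0),(16,1),(0,0)]⟩ ⟨0,[(0,0),(27,0),(0,
  0)]⟩),(.r 0 ⟨2,[(1,2),(0,0),(2,1),(0,0),(8,2),(12,1),(0,0)]⟩ ⟨1,[(12,0),(17,1),(0,0)]⟩),.k,.k,[⟨2,
  [(2,0),(8,0),(3,2)]⟩,⟨1,[(11,0),(2,0)]⟩,⟨1,[(15,1),(4,0),(0,0)]⟩,⟨1,[(14,0),(2,0),(2,0)]⟩,⟨0,[(0,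
  0),(14,0)]⟩,⟨0,[(1,0),(2,0),(0,0)]⟩]⟩))))))))

theorem ok1 : chk (cU (-1) false 10) t1 l2 = true := by decide +kernel

noncomputable def t2 : Tre :=
  (.Q [0,0,0,1,0,0,0,0,0,1] (.pp false [-1,1]) (.R ⟨2,false,false,false,[0,1],[1,-1],[],(⟨0,[]⟩,⟨0,
  []⟩),(⟨0,[(20,0)]⟩,⟨0,[(21,0)]⟩),⟨0,[]⟩,.k,.k,.k,(.r 0 ⟨1,[(14,0),(0,0),(6,1),(0,3)]⟩ ⟨0,[(24,1),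
  (0,0)]⟩),.k,.k,⟨true,0,⟨3,[(14,0),(0,0),(6,1),(0,3)]⟩,⟨0,[(24,0)]⟩⟩,⟨false,0,⟨4,[(2,1),(8,0),(0,
  1),(1,0),(7,2),(0,1)]⟩,⟨0,[(17,0),(0,0),(6,0)]⟩⟩,⟨false,1,⟨1,[(24,1),(0,0),(0,0)]⟩,⟨3,[(14,0),(0,
  0),(6,1),(0,3)]⟩⟩,⟨true,0,⟨0,[(1,1),(3,0)]⟩,⟨0,[(0,0),(22,0)]⟩⟩,⟨false,1,⟨1,[(25,0),(0,0)]⟩,⟨1,
  [(14,0),(0,0)]⟩⟩,⟨false,1,⟨1,[(19,0),(4,1),(1,0)]⟩,⟨0,[(0,0)]⟩⟩,[.a ⟨true,0,⟨0,[(24,0)]⟩,⟨0,[(0,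
  0)]⟩⟩ ⟨false,1,⟨3,[(6,0),(0,0),(17,1)]⟩,⟨0,[]⟩⟩ ⟨true,0,⟨0,[(1,0),(12,0)]⟩,⟨0,[(0,0)]⟩⟩,.o ⟨false,
  1,⟨1,[(19,0),(4,1),(1,0)]⟩,⟨0,[(23,0)]⟩⟩,.o ⟨false,1,⟨3,[(6,0),(0,0),(17,1)]⟩,⟨4,[(2,1),(8,0),(0,
  1),(1,0),(7,2),(0,1)]⟩⟩,.e ⟨false,1,⟨1,[(25,0),(0,0)]⟩,⟨1,[(14,0),(0,0)]⟩⟩ ⟨false,1,⟨1,[(19,0),(4,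
  1),(1,0)]⟩,⟨0,[(0,0)]⟩⟩]⟩) (.Q [0,0,0,0,0,0,-1,-1,0,-1,1] (.p true [0,0,1] [1] (⟨0,[(18,0)]⟩,⟨0,
  [(17,0)]⟩) .k 1 (⟨0,[]⟩,⟨0,[]⟩) .k .k) (.Q [0,-1,0,-1,0,0,-1,-1,0,-1,1] (.p true [0,0,1] [1] (⟨0,
  [(19,0)]⟩,⟨0,[(18,0)]⟩) .k 1 (⟨0,[]⟩,⟨0,[]⟩) .k .k) (.Q [0,1,0,1,0,0,1,1,0,2,-1] (.p false [-1,1,
  1] [1] (⟨0,[(5,0)]⟩,⟨0,[(19,0),(2,0)]⟩) .k 1 (⟨0,[]⟩,⟨0,[]⟩) .k .k) (.K ⟨1,[2,-1,-1],0,0,(⟨0,[(20,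
  0),(2,0)]⟩,⟨0,[(6,0)]⟩),.k,(.r (-1) ⟨1,[(1,0),(6,0),(7,0),(10,2),(0,1)]⟩ ⟨2,[(0,0),(6,0),(6,1),(0,
  1),(9,3),(0,3)]⟩),.k,.k,.k,[⟨1,[(8,0),(11,2),(0,2)]⟩,⟨4,[(5,1),(8,5),(0,1),(1,0),(7,2),(0,1)]⟩,⟨0,
  [(0,0)]⟩,⟨0,[(1,0)]⟩]⟩) (.I [0,0,1,1,0,0,0,0,-1] (.I [0,1,0,1,0,0,0,0,-1] (.Q [0,-1,0,0,0,0,-1,-1,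
  -1,-1,1,1] (.p true [0,0,1] [1,0,0,-1] (⟨0,[(23,0)]⟩,⟨0,[(22,0)]⟩) .k 2 (⟨1,[(13,0),(8,0),(0,0)]⟩,
  ⟨0,[(14,0)]⟩) .k (.r (-1) ⟨5,[(6,1),(2,1),(2,2),(4,5),(2,1),(1,1),(0,1),(3,3),(2,2)]⟩ ⟨1,[(0,1),
  (2,1),(6,0),(11,0),(0,0)]⟩)) (.I [1,-1,-1,-1,0,0,0,0,-1] (.Q [0,0,0,0,0,1,0,0,0,0,-1] (.ed true
  [1,-1,1] .k) (.R ⟨0,false,false,false,[0,0,0,1],[1,-1],[1,0,0,0,0,0,0,0,1],(⟨0,[(17,0)]⟩,⟨1,[(16,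
  0),(8,0),(0,0)]⟩),(⟨0,[(28,0)]⟩,⟨0,[(29,0)]⟩),⟨1,[(0,0),(10,0),(4,0)]⟩,.k,.k,(.r (-1) ⟨1,[(15,0),
  (16,1),(0,0)]⟩ ⟨0,[(4,0)]⟩),(.r (-1) ⟨0,[(4,0),(10,0)]⟩ ⟨0,[(1,0),(34,0)]⟩),.k,.k,⟨false,1,⟨1,
  [(15,0),(15,1),(2,0)]⟩,⟨0,[(1,0),(34,0)]⟩⟩,⟨true,0,⟨6,[(5,1),(11,6),(1,2),(0,1),(1,2),(7,0),(0,
  1)]⟩,⟨1,[(16,0),(8,0),(0,0)]⟩⟩,⟨true,0,⟨0,[]⟩,⟨0,[(36,0)]⟩⟩,⟨false,0,⟨3,[(1,1),(0,1),(5,0),(0,0),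
  (7,1),(2,1),(1,0),(7,0)]⟩,⟨1,[(12,1),(0,0),(1,0),(0,0),(17,0)]⟩⟩,⟨false,0,⟨0,[]⟩,⟨0,[]⟩⟩,⟨false,0,
  ⟨0,[]⟩,⟨0,[]⟩⟩,[.o ⟨false,0,⟨0,[(8,0)]⟩,⟨3,[(14,0),(0,0),(15,3),(2,1)]⟩⟩,.o ⟨false,1,⟨1,[(27,0),
  (4,1),(1,0)]⟩,⟨0,[(31,0)]⟩⟩,.a ⟨true,0,⟨1,[(16,0),(8,0),(0,0)]⟩,⟨0,[(17,0)]⟩⟩ ⟨false,1,⟨1,[(15,0),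
  (18,0)]⟩,⟨2,[(1,0),(1,0),(0,0),(27,0)]⟩⟩ ⟨true,0,⟨0,[(8,0),(8,0)]⟩,⟨1,[(12,1),(0,0),(2,0)]⟩⟩,.o
  ⟨false,0,⟨1,[(16,0),(2,0),(2,0)]⟩,⟨1,[(17,1),(9,0),(5,0)]⟩⟩]⟩) (.Q [0,0,0,-1,0,0,1,1,0,1,-1] (.p
  false [0,0,1] [1] (⟨0,[(26,0)]⟩,⟨0,[(25,0)]⟩) .k 1 (⟨0,[]⟩,⟨0,[]⟩) .k .k) (.R ⟨2,true,false,false,
  [0,1],[1,1,-1],[0,1,1],(⟨0,[]⟩,⟨0,[]⟩),(⟨0,[(26,0),(3,0)]⟩,⟨0,[(1,0)]⟩),⟨0,[]⟩,.k,.k,.k,.k,.k,.k,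
  ⟨true,0,⟨2,[(0,1),(9,1),(2,0),(7,0),(15,0)]⟩,⟨0,[(25,0),(5,0),(0,0)]⟩⟩,⟨false,1,⟨3,[(10,1),(2,1),
  (14,0),(5,1),(0,0)]⟩,⟨1,[(14,0),(11,0),(0,0)]⟩⟩,⟨false,0,⟨0,[(33,0)]⟩,⟨0,[(32,0),(2,0)]⟩⟩,⟨true,0,
  ⟨0,[(8,0)]⟩,⟨0,[(0,0),(31,0)]⟩⟩,⟨true,0,⟨0,[(37,0)]⟩,⟨0,[]⟩⟩,⟨false,1,⟨0,[(8,0),(23,0),(2,0)]⟩,⟨0,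
  [(0,0)]⟩⟩,[]⟩) (.Q [0,0,0,0,0,1,0,0,0,0,0,-1] (.p false [0,0,0,1] [] (⟨0,[(18,0)]⟩,⟨1,[(17,0),(8,
  0),(0,0)]⟩) .k 0 (⟨0,[]⟩,⟨0,[]⟩) .k .k) (.R ⟨0,false,false,false,[0,0,0,1],[1,-1],[1,0,0,0,0,0,0,
  0,1],(⟨0,[(19,0)]⟩,⟨1,[(18,0),(8,0),(0,0)]⟩),(⟨0,[(30,0)]⟩,⟨0,[(31,0)]⟩),⟨0,[(0,0)]⟩,.k,.k,(.r
  (-1) ⟨1,[(17,0),(16,1),(0,0)]⟩ ⟨0,[(6,0)]⟩),(.r (-1) ⟨0,[(6,0),(10,0)]⟩ ⟨0,[(3,0),(34,0)]⟩),.k,.k,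
  ⟨false,1,⟨1,[(17,0),(15,1),(2,0)]⟩,⟨0,[(3,0),(34,0)]⟩⟩,⟨true,0,⟨10,[(1,1),(5,1),(11,10),(1,4),(0,
  3),(1,4),(7,0)]⟩,⟨1,[(18,0),(8,0),(0,0)]⟩⟩,⟨true,0,⟨0,[]⟩,⟨0,[(38,0)]⟩⟩,⟨false,0,⟨3,[(3,1),(0,1),
  (5,0),(0,0),(7,1),(2,1),(1,0),(7,0)]⟩,⟨1,[(14,1),(0,0),(1,0),(0,0),(17,0)]⟩⟩,⟨false,0,⟨0,[]⟩,⟨0,
  []⟩⟩,⟨false,0,⟨0,[]⟩,⟨0,[]⟩⟩,[.o ⟨false,0,⟨0,[(10,0)]⟩,⟨3,[(16,0),(0,0),(15,3),(2,1)]⟩⟩,.o ⟨false,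
  1,⟨1,[(29,0),(4,1),(1,0)]⟩,⟨0,[(33,0)]⟩⟩,.a ⟨true,0,⟨1,[(18,0),(8,0),(0,0)]⟩,⟨0,[(19,0)]⟩⟩ ⟨false,
  1,⟨1,[(17,0),(18,0)]⟩,⟨2,[(3,0),(1,0),(0,0),(27,0)]⟩⟩ ⟨true,0,⟨0,[(10,0),(8,0)]⟩,⟨1,[(14,1),(0,0),
  (2,0)]⟩⟩,.o ⟨false,0,⟨1,[(18,0),(2,0),(2,0)]⟩,⟨1,[(19,1),(9,0),(5,0)]⟩⟩]⟩) (.R ⟨1,false,false,
  false,[0,0,0,1],[1,-1],[1,0,0,0,0,0,0,0,1],(⟨0,[(19,0)]⟩,⟨1,[(18,0),(8,0),(0,0)]⟩),(⟨0,[(30,0)]⟩,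
  ⟨0,[(31,0)]⟩),⟨0,[(0,0)]⟩,.k,.k,(.r (-1) ⟨1,[(17,0),(16,1),(0,0)]⟩ ⟨0,[(6,0)]⟩),(.r (-1) ⟨0,[(6,
  0),(10,0)]⟩ ⟨0,[(3,0),(34,0)]⟩),.k,.k,⟨false,1,⟨1,[(17,0),(15,1),(2,0)]⟩,⟨0,[(3,0),(34,0)]⟩⟩,
  ⟨true,0,⟨10,[(1,1),(5,1),(11,10),(1,4),(0,3),(1,4),(7,0)]⟩,⟨1,[(18,0),(8,0),(0,0)]⟩⟩,⟨true,0,⟨0,
  []⟩,⟨0,[(38,0)]⟩⟩,⟨false,0,⟨3,[(3,1),(0,1),(5,0),(0,0),(7,1),(2,1),(1,0),(7,0)]⟩,⟨1,[(14,1),(0,0),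
  (1,0),(0,0),(17,0)]⟩⟩,⟨false,1,⟨0,[(33,0),(2,0)]⟩,⟨0,[(34,0)]⟩⟩,⟨false,0,⟨1,[(1,0),(1,0),(0,0),
  (14,0),(2,1),(9,0)]⟩,⟨3,[(16,0),(0,2),(0,1),(8,1),(0,1)]⟩⟩,[.o ⟨false,0,⟨0,[(10,0)]⟩,⟨3,[(16,0),
  (0,0),(15,3),(2,1)]⟩⟩,.o ⟨false,1,⟨1,[(29,0),(4,1),(1,0)]⟩,⟨0,[(33,0)]⟩⟩,.a ⟨true,0,⟨1,[(18,0),(8,
  0),(0,0)]⟩,⟨0,[(19,0)]⟩⟩ ⟨false,1,⟨1,[(17,0),(18,0)]⟩,⟨2,[(3,0),(1,0),(0,0),(27,0)]⟩⟩ ⟨true,0,⟨0,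
  [(10,0),(8,0)]⟩,⟨1,[(14,1),(0,0),(2,0)]⟩⟩,.o ⟨false,0,⟨1,[(18,0),(2,0),(2,0)]⟩,⟨1,[(19,1),(9,0),
  (5,0)]⟩⟩]⟩)))) (.Q [0,0,0,1,0,0,0,0,-1,0,0,1] (.p true [0,0,0,1] [] (⟨0,[(16,0)]⟩,⟨1,[(15,0),(8,
  0),(0,0)]⟩) .k 0 (⟨0,[]⟩,⟨0,[]⟩) .k .k) (.Q [0,0,0,0,0,1,0,0,0,0,0,-1] (.p false [0,0,0,1] [] (⟨0,
  [(17,0)]⟩,⟨1,[(16,0),(8,0),(0,0)]⟩) .k 0 (⟨0,[]⟩,⟨0,[]⟩) .k .k) (.I [0,0,-1,-1,0,0,0,0,-1] (.R ⟨0,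
  false,false,false,[0,0,0,1],[1,-1],[0,0,-1,-1],(⟨0,[(19,0)]⟩,⟨1,[(18,0),(8,0),(0,0)]⟩),(⟨0,[(30,
  0)]⟩,⟨0,[(31,0)]⟩),⟨0,[(1,0)]⟩,.k,.k,(.r (-1) ⟨1,[(17,0),(16,1),(0,0)]⟩ ⟨0,[(6,0)]⟩),(.r (-1) ⟨3,
  [(3,3),(12,0),(0,0),(18,1)]⟩ ⟨0,[(0,0)]⟩),.k,.k,⟨false,1,⟨3,[(16,0),(0,0),(17,1)]⟩,⟨0,[]⟩⟩,⟨true,
  0,⟨12,[(2,1),(0,1),(3,3),(11,10),(1,4),(0,3),(1,4),(7,0)]⟩,⟨1,[(18,0),(8,0),(0,0)]⟩⟩,⟨true,0,⟨0,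
  [(0,0)]⟩,⟨0,[(3,0)]⟩⟩,⟨false,0,⟨1,[(0,0),(3,0),(5,0),(8,0),(2,0),(9,0)]⟩,⟨1,[(14,1),(0,0),(1,0),
  (0,0),(17,0)]⟩⟩,⟨false,0,⟨0,[]⟩,⟨0,[]⟩⟩,⟨false,0,⟨0,[]⟩,⟨0,[]⟩⟩,[.o ⟨false,0,⟨0,[(10,0)]⟩,⟨3,[(16,
  0),(0,0),(15,3),(2,1)]⟩⟩,.o ⟨false,1,⟨1,[(29,0),(4,1),(1,0)]⟩,⟨0,[(33,0)]⟩⟩,.a ⟨true,0,⟨1,[(18,0),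
  (8,0),(0,0)]⟩,⟨0,[(19,0)]⟩⟩ ⟨false,1,⟨1,[(34,1),(0,0),(0,0)]⟩,⟨2,[(3,0),(2,0),(25,0),(0,0)]⟩⟩
  ⟨true,0,⟨0,[(10,0),(8,0)]⟩,⟨1,[(14,1),(0,0),(2,0)]⟩⟩,.o ⟨false,0,⟨1,[(18,0),(2,0),(2,0)]⟩,⟨1,[(19,
  1),(9,0),(5,0)]⟩⟩]⟩) (.Q [0,0,0,0,0,-1,0,0,0,1,0,-1] (.p false [0,0,0,1] [1] (⟨0,[(19,0)]⟩,⟨1,
  [(18,0),(8,0),(0,0)]⟩) .k 1 (⟨0,[]⟩,⟨0,[]⟩) .k .k) (.I [0,0,0,-1,0,0,0,1,-1] (.I [0,-1,0,-1,0,0,0,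
  0,-1] (.R ⟨1,false,false,false,[1,0,0,-1],[1,-1],[0,0,0,-1,0,0,0,0,-1],(⟨1,[(21,0),(8,0),(0,0)]⟩,
  ⟨0,[(22,0)]⟩),(⟨0,[(33,0)]⟩,⟨0,[(34,0)]⟩),⟨0,[(2,0)]⟩,.k,.k,(.x 0 ⟨5,[(3,0),(5,0),(0,1),(13,1),(0,
  1),(1,1),(5,5)]⟩ ⟨3,[(19,0),(0,0),(13,3),(3,1)]⟩),(.r 0 ⟨0,[(9,0)]⟩ ⟨1,[(20,0),(16,1),(0,0)]⟩),.k,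
  .k,⟨false,0,⟨1,[(0,0),(7,0)]⟩,⟨1,[(20,0),(17,0)]⟩⟩,⟨true,0,⟨1,[(21,0),(2,0),(2,0)]⟩,⟨0,[(22,0)]⟩⟩,
  ⟨true,0,⟨0,[(37,0)]⟩,⟨0,[(36,0)]⟩⟩,⟨false,1,⟨1,[(13,0),(6,0),(0,0),(15,0),(1,0)]⟩,⟨0,[(5,0)]⟩⟩,
  ⟨false,1,⟨3,[(19,0),(0,0),(18,1)]⟩,⟨0,[]⟩⟩,⟨false,1,⟨3,[(20,1),(0,1),(10,0),(2,1),(2,0)]⟩,⟨4,[(1,
  1),(3,1),(1,0),(10,0),(3,1),(3,0)]⟩⟩,[.o ⟨false,0,⟨0,[(13,0)]⟩,⟨3,[(19,0),(0,0),(15,3),(2,1)]⟩⟩,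
  .o ⟨false,1,⟨1,[(32,0),(4,1),(1,0)]⟩,⟨0,[(36,0)]⟩⟩,.a ⟨true,0,⟨0,[(22,0)]⟩,⟨1,[(21,0),(8,0),(0,
  0)]⟩⟩ ⟨false,0,⟨0,[(0,0)]⟩,⟨1,[(20,0),(15,1),(2,0)]⟩⟩ ⟨true,0,⟨1,[(13,0),(7,0),(15,0)]⟩,⟨0,[(22,
  0),(13,0)]⟩⟩,.o ⟨false,0,⟨6,[(3,0),(1,0),(4,1),(11,5),(1,2),(0,1),(1,2)]⟩,⟨7,[(19,0),(0,0),(0,3),
  (10,1),(5,3)]⟩⟩]⟩) (.R ⟨1,false,false,false,[1,0,0,-1],[1,-1],[1,1,0,0,0,0,0,0,-1],(⟨1,[(21,0),(8,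
  0),(0,0)]⟩,⟨0,[(22,0)]⟩),(⟨0,[(33,0)]⟩,⟨0,[(34,0)]⟩),⟨0,[(2,0)]⟩,.k,.k,(.x 0 ⟨5,[(3,0),(5,0),(0,
  1),(13,1),(0,1),(1,1),(5,5)]⟩ ⟨3,[(19,0),(0,0),(13,3),(3,1)]⟩),(.r 0 ⟨0,[(9,0)]⟩ ⟨1,[(20,0),(16,
  1),(0,0)]⟩),.k,.k,⟨false,0,⟨0,[(8,0)]⟩,⟨0,[(0,0),(34,0),(1,1),(0,0)]⟩⟩,⟨true,0,⟨1,[(21,0),(2,0),
  (2,0)]⟩,⟨0,[(22,0)]⟩⟩,⟨false,0,⟨0,[]⟩,⟨3,[(19,0),(0,0),(18,1)]⟩⟩,⟨false,1,⟨1,[(13,0),(6,0),(0,0),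
  (15,0),(1,0)]⟩,⟨0,[(5,0)]⟩⟩,⟨true,0,⟨0,[(36,0)]⟩,⟨0,[(37,0)]⟩⟩,⟨false,1,⟨3,[(20,1),(0,1),(10,0),
  (2,1),(2,0)]⟩,⟨4,[(1,1),(3,1),(1,0),(10,0),(3,1),(3,0)]⟩⟩,[.o ⟨false,0,⟨0,[(13,0)]⟩,⟨3,[(19,0),(0,
  0),(15,3),(2,1)]⟩⟩,.o ⟨false,1,⟨1,[(32,0),(4,1),(1,0)]⟩,⟨0,[(36,0)]⟩⟩,.a ⟨true,0,⟨0,[(22,0)]⟩,⟨1,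
  [(21,0),(8,0),(0,0)]⟩⟩ ⟨false,0,⟨5,[(1,1),(5,1),(0,1),(9,0),(2,0)]⟩,⟨1,[(20,0),(18,0)]⟩⟩ ⟨true,0,
  ⟨1,[(13,0),(7,0),(15,0)]⟩,⟨0,[(22,0),(13,0)]⟩⟩,.o ⟨false,0,⟨6,[(3,0),(1,0),(4,1),(11,5),(1,2),(0,
  1),(1,2)]⟩,⟨7,[(19,0),(0,0),(0,3),(10,1),(5,3)]⟩⟩]⟩)) (.R ⟨1,false,false,false,[1,0,0,-1],[1,-1],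
  [1,1,0,0,0,0,0,0,-1],(⟨1,[(20,0),(8,0),(0,0)]⟩,⟨0,[(21,0)]⟩),(⟨0,[(32,0)]⟩,⟨0,[(33,0)]⟩),⟨0,[(1,
  0)]⟩,.k,.k,(.r (-1) ⟨1,[(18,0),(17,1),(0,0)]⟩ ⟨0,[(0,0),(0,1),(7,0),(6,0),(4,1),(2,1),(8,1),(0,
  0)]⟩),(.r 0 ⟨0,[(8,0)]⟩ ⟨1,[(19,0),(16,1),(0,0)]⟩),.k,.k,⟨false,0,⟨0,[(7,0)]⟩,⟨0,[(0,0),(12,0),
  (10,0),(4,0),(0,0),(3,0),(1,0),(0,0)]⟩⟩,⟨true,0,⟨1,[(20,0),(2,0),(2,0)]⟩,⟨0,[(21,0)]⟩⟩,⟨false,0,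
  ⟨0,[]⟩,⟨3,[(18,0),(0,0),(18,1)]⟩⟩,⟨false,1,⟨1,[(12,0),(6,0),(0,0),(15,0),(1,0)]⟩,⟨0,[(4,0)]⟩⟩,
  ⟨true,0,⟨0,[(35,0)]⟩,⟨0,[(36,0)]⟩⟩,⟨false,1,⟨3,[(19,1),(0,1),(10,0),(2,1),(2,0)]⟩,⟨0,[(4,0),(31,
  0)]⟩⟩,[.o ⟨false,0,⟨0,[(12,0)]⟩,⟨3,[(18,0),(0,0),(15,3),(2,1)]⟩⟩,.o ⟨false,1,⟨1,[(31,0),(4,1),(1,
  0)]⟩,⟨0,[(35,0)]⟩⟩,.a ⟨true,0,⟨0,[(21,0)]⟩,⟨1,[(20,0),(8,0),(0,0)]⟩⟩ ⟨false,0,⟨1,[(4,0),(1,0),(13,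
  0),(3,0),(11,0)]⟩,⟨1,[(19,0),(18,0)]⟩⟩ ⟨true,0,⟨1,[(12,0),(7,0),(15,0)]⟩,⟨0,[(21,0),(13,0)]⟩⟩,.o
  ⟨false,0,⟨6,[(2,0),(1,0),(4,1),(11,5),(1,2),(0,1),(1,2)]⟩,⟨7,[(18,0),(0,0),(0,3),(10,1),(5,
  3)]⟩⟩]⟩)) (.I [0,0,-1,-1,1,0,0,1,1] (.I [1,-1,-1,-1,1,0,0,0,1] (.R ⟨0,false,false,false,[1,0,0,
  -1],[1,-1],[0,1,0,0,0,0,0,0,-1],(⟨1,[(21,0),(8,0),(0,0)]⟩,⟨0,[(22,0)]⟩),(⟨0,[(33,0)]⟩,⟨0,[(34,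
  0)]⟩),⟨0,[(2,0)]⟩,.k,.k,(.x 0 ⟨5,[(3,0),(5,0),(0,1),(13,1),(0,1),(1,1),(5,5)]⟩ ⟨3,[(19,0),(0,0),
  (13,3),(3,1)]⟩),(.r 0 ⟨0,[(9,0)]⟩ ⟨17,[(0,7),(0,7),(13,1),(2,3),(1,0),(5,5),(11,0)]⟩),.k,.k,
  ⟨false,0,⟨0,[(8,0)]⟩,⟨0,[(0,0)]⟩⟩,⟨true,0,⟨1,[(21,0),(2,0),(2,0)]⟩,⟨0,[(22,0)]⟩⟩,⟨true,0,⟨0,[(41,
  0)]⟩,⟨0,[]⟩⟩,⟨false,1,⟨3,[(1,1),(9,1),(8,0),(0,1),(5,1),(11,0)]⟩,⟨0,[(5,0)]⟩⟩,⟨false,0,⟨0,[]⟩,⟨0,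
  []⟩⟩,⟨false,0,⟨0,[]⟩,⟨0,[]⟩⟩,[.o ⟨false,0,⟨0,[(13,0)]⟩,⟨3,[(19,0),(0,0),(15,3),(2,1)]⟩⟩,.o ⟨false,
  1,⟨5,[(1,1),(9,1),(1,1),(5,0),(7,1),(4,0),(6,1)]⟩,⟨0,[(36,0)]⟩⟩,.a ⟨true,0,⟨0,[(22,0)]⟩,⟨1,[(21,
  0),(8,0),(0,0)]⟩⟩ ⟨false,0,⟨1,[(5,0),(1,0),(13,0),(3,0),(11,0)]⟩,⟨1,[(20,0),(18,0)]⟩⟩ ⟨true,0,⟨1,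
  [(13,0),(7,0),(15,0)]⟩,⟨0,[(22,0),(13,0)]⟩⟩,.o ⟨false,0,⟨6,[(3,0),(1,0),(4,1),(11,5),(1,2),(0,1),
  (1,2)]⟩,⟨7,[(19,0),(0,0),(0,3),(10,1),(5,3)]⟩⟩]⟩) (.R ⟨0,false,false,false,[1,0,0,-1],[1,-1],[1,0,
  0,0,0,0,0,0,-1],(⟨1,[(21,0),(8,0),(0,0)]⟩,⟨0,[(22,0)]⟩),(⟨0,[(33,0)]⟩,⟨0,[(34,0)]⟩),⟨0,[(2,0)]⟩,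
  .k,.k,(.x 0 ⟨18,[(0,1),(2,1),(6,3),(13,6),(0,3),(1,6),(4,1),(0,18),(1,0)]⟩ ⟨3,[(19,0),(0,0),(13,
  3),(3,1)]⟩),(.r 0 ⟨0,[(9,0)]⟩ ⟨0,[(1,0),(27,0)]⟩),.k,.k,⟨false,0,⟨7,[(0,3),(4,3),(15,1),(10,0),(2,
  1),(2,2)]⟩,⟨0,[(1,0),(27,0)]⟩⟩,⟨true,0,⟨1,[(21,0),(2,0),(2,0)]⟩,⟨0,[(22,0)]⟩⟩,⟨true,0,⟨0,[]⟩,⟨0,
  [(41,0)]⟩⟩,⟨false,1,⟨3,[(1,1),(9,1),(8,0),(0,1),(5,1),(11,0)]⟩,⟨0,[(5,0)]⟩⟩,⟨false,0,⟨0,[]⟩,⟨0,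
  []⟩⟩,⟨false,0,⟨0,[]⟩,⟨0,[]⟩⟩,[.o ⟨false,0,⟨0,[(13,0)]⟩,⟨3,[(19,0),(0,0),(15,3),(2,1)]⟩⟩,.o ⟨false,
  1,⟨5,[(1,1),(9,1),(1,1),(5,0),(7,1),(4,0),(6,1)]⟩,⟨0,[(36,0)]⟩⟩,.a ⟨true,0,⟨0,[(22,0)]⟩,⟨1,[(21,
  0),(8,0),(0,0)]⟩⟩ ⟨false,0,⟨0,[(0,0),(34,0),(1,0),(0,0)]⟩,⟨3,[(19,0),(0,2)]⟩⟩ ⟨true,0,⟨1,[(13,0),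
  (7,0),(15,0)]⟩,⟨0,[(22,0),(13,0)]⟩⟩,.o ⟨false,0,⟨18,[(0,1),(2,1),(6,3),(11,18),(1,6),(0,3),(1,6),
  (4,1),(2,0)]⟩,⟨7,[(19,0),(0,0),(0,3),(10,1),(5,3)]⟩⟩]⟩)) (.R ⟨0,false,false,true,[0,0,0,1],[0,1],
  [0,1,0,0,0,0,0,0,1],(⟨0,[(21,0)]⟩,⟨1,[(20,0),(8,0),(0,0)]⟩),(⟨0,[(33,0)]⟩,⟨0,[(32,0)]⟩),⟨0,[(3,
  0)]⟩,.k,.k,(.r (-1) ⟨1,[(19,0),(16,1),(0,0)]⟩ ⟨0,[(8,0)]⟩),(.r (-1) ⟨1,[(19,0),(16,1),(0,0)]⟩ ⟨0,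
  [(8,0)]⟩),.k,.k,⟨true,1,⟨1,[(19,0),(16,1),(0,0)]⟩,⟨2,[(0,2),(12,0),(2,0),(7,2),(2,0),(1,0),(0,0),
  (3,1)]⟩⟩,⟨false,1,⟨0,[(21,0),(15,0)]⟩,⟨1,[(20,0),(2,0),(2,0)]⟩⟩,⟨true,0,⟨0,[(40,0)]⟩,⟨0,[]⟩⟩,
  ⟨false,0,⟨0,[(4,0)]⟩,⟨1,[(12,0),(6,0),(0,0),(15,0),(1,0)]⟩⟩,⟨false,0,⟨0,[]⟩,⟨0,[]⟩⟩,⟨false,0,⟨0,
  []⟩,⟨0,[]⟩⟩,[.o ⟨false,0,⟨0,[(35,0)]⟩,⟨1,[(31,0),(4,1),(1,0)]⟩⟩,.o ⟨false,1,⟨3,[(18,0),(0,0),(15,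
  3),(2,1)]⟩,⟨0,[(12,0)]⟩⟩,.a ⟨true,0,⟨1,[(20,0),(8,0),(0,0)]⟩,⟨0,[(21,0)]⟩⟩ ⟨false,1,⟨3,[(18,0),(0,
  2)]⟩,⟨0,[(0,0),(12,0),(10,0),(4,0),(0,0),(3,0),(2,0)]⟩⟩ ⟨true,0,⟨0,[(21,0),(13,0)]⟩,⟨1,[(12,0),(7,
  0),(15,0)]⟩⟩,.o ⟨false,0,⟨1,[(20,0),(2,0),(2,0)]⟩,⟨1,[(21,1),(9,0),(5,0)]⟩⟩]⟩)))) (.I [0,0,-1,-1,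
  0,0,0,0,-1] (.R ⟨1,false,false,false,[1,0,0,-1],[1,-1],[1,0,0,0,0,0,0,0,-1],(⟨1,[(18,0),(8,0),(0,
  0)]⟩,⟨0,[(19,0)]⟩),(⟨0,[(30,0)]⟩,⟨0,[(31,0)]⟩),⟨0,[(1,0),(16,0)]⟩,.k,.k,(.r 0 ⟨0,[(0,0)]⟩ ⟨3,[(3,
  3),(12,0),(0,0),(18,1)]⟩),(.r 0 ⟨0,[(6,0)]⟩ ⟨1,[(17,0),(16,1),(0,0)]⟩),.k,.k,⟨false,0,⟨0,[(0,0),
  (31,0),(0,1)]⟩,⟨1,[(17,0),(16,1),(0,0)]⟩⟩,⟨true,0,⟨1,[(18,0),(2,0),(2,0)]⟩,⟨0,[(19,0)]⟩⟩,⟨true,0,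
  ⟨0,[]⟩,⟨0,[(38,0)]⟩⟩,⟨false,1,⟨1,[(10,0),(6,0),(0,0),(15,0),(1,0)]⟩,⟨0,[(2,0)]⟩⟩,⟨false,1,⟨0,[(33,
  0),(2,0)]⟩,⟨0,[(34,0)]⟩⟩,⟨false,1,⟨3,[(17,1),(0,1),(10,0),(2,1),(2,0)]⟩,⟨1,[(0,0),(5,0),(12,1)]⟩⟩,
  [.o ⟨false,0,⟨0,[(10,0)]⟩,⟨3,[(16,0),(0,0),(15,3),(2,1)]⟩⟩,.o ⟨false,1,⟨1,[(29,0),(4,1),(1,0)]⟩,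
  ⟨0,[(33,0)]⟩⟩,.a ⟨true,0,⟨0,[(19,0)]⟩,⟨1,[(18,0),(8,0),(0,0)]⟩⟩ ⟨false,0,⟨0,[(0,0),(31,0),(0,0)]⟩,
  ⟨3,[(16,0),(0,2)]⟩⟩ ⟨true,0,⟨1,[(10,0),(7,0),(15,0)]⟩,⟨0,[(19,0),(13,0)]⟩⟩,.o ⟨false,0,⟨12,[(2,1),
  (0,1),(3,3),(11,10),(1,4),(0,3),(1,4),(7,0)]⟩,⟨7,[(16,0),(0,0),(0,3),(10,1),(5,3)]⟩⟩]⟩) (.Q [0,-1,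
  0,-1,0,0,0,0,-1,-1,0,1] (.p true [0,0,0,1] [1] (⟨0,[(19,0)]⟩,⟨1,[(18,0),(8,0),(0,0)]⟩) .k 1 (⟨0,
  []⟩,⟨0,[]⟩) .k .k) (.R ⟨1,false,false,false,[1,0,0,-1],[1,-1],[0,0,0,-1,0,0,0,0,-1],(⟨1,[(19,0),
  (8,0),(0,0)]⟩,⟨0,[(20,0)]⟩),(⟨0,[(31,0)]⟩,⟨0,[(32,0)]⟩),⟨0,[(2,0),(16,0)]⟩,.k,.k,(.x 0 ⟨1,[(2,1),
  (16,0),(2,0),(2,0)]⟩ ⟨3,[(17,0),(0,0),(13,3),(3,1)]⟩),(.r 0 ⟨0,[(7,0)]⟩ ⟨1,[(18,0),(16,1),(0,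
  0)]⟩),.k,.k,⟨false,0,⟨2,[(0,0),(2,0),(2,0),(12,0),(15,0)]⟩,⟨1,[(18,0),(17,0)]⟩⟩,⟨true,0,⟨1,[(19,
  0),(2,0),(2,0)]⟩,⟨0,[(20,0)]⟩⟩,⟨true,0,⟨0,[(35,0)]⟩,⟨0,[(34,0)]⟩⟩,⟨false,1,⟨1,[(11,0),(6,0),(0,0),
  (15,0),(1,0)]⟩,⟨0,[(3,0)]⟩⟩,⟨false,1,⟨3,[(17,0),(0,0),(18,1)]⟩,⟨0,[]⟩⟩,⟨false,1,⟨3,[(18,1),(0,1),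
  (10,0),(2,1),(2,0)]⟩,⟨0,[(3,0),(31,0)]⟩⟩,[.o ⟨false,0,⟨0,[(11,0)]⟩,⟨3,[(17,0),(0,0),(15,3),(2,
  1)]⟩⟩,.o ⟨false,1,⟨1,[(30,0),(4,1),(1,0)]⟩,⟨0,[(34,0)]⟩⟩,.a ⟨true,0,⟨0,[(20,0)]⟩,⟨1,[(19,0),(8,0),
  (0,0)]⟩⟩ ⟨false,0,⟨1,[(0,1),(18,0),(8,0),(0,0)]⟩,⟨1,[(18,0),(15,1),(2,0)]⟩⟩ ⟨true,0,⟨1,[(11,0),(7,
  0),(15,0)]⟩,⟨0,[(20,0),(13,0)]⟩⟩,.o ⟨false,0,⟨0,[(0,0),(3,0)]⟩,⟨7,[(17,0),(0,0),(0,3),(10,1),(5,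
  3)]⟩⟩]⟩) (.R ⟨1,false,false,false,[1,0,0,-1],[1,-1],[1,1,0,0,0,0,0,0,-1],(⟨1,[(19,0),(8,0),(0,
  0)]⟩,⟨0,[(20,0)]⟩),(⟨0,[(31,0)]⟩,⟨0,[(32,0)]⟩),⟨0,[(2,0),(16,0)]⟩,.k,.k,(.r (-1) ⟨1,[(17,0),(17,
  1),(0,0)]⟩ ⟨0,[(0,1),(1,4),(0,0),(4,1),(10,1),(3,1),(8,4),(0,0)]⟩),(.r 0 ⟨0,[(7,0)]⟩ ⟨1,[(18,0),
  (16,1),(0,0)]⟩),.k,.k,⟨false,0,⟨0,[(6,0)]⟩,⟨0,[(0,0),(10,0),(8,0),(12,0),(1,0),(0,0)]⟩⟩,⟨true,0,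
  ⟨1,[(19,0),(2,0),(2,0)]⟩,⟨0,[(20,0)]⟩⟩,⟨false,0,⟨0,[]⟩,⟨3,[(17,0),(0,0),(18,1)]⟩⟩,⟨false,1,⟨1,
  [(11,0),(6,0),(0,0),(15,0),(1,0)]⟩,⟨0,[(3,0)]⟩⟩,⟨true,0,⟨0,[(34,0)]⟩,⟨0,[(35,0)]⟩⟩,⟨false,1,⟨3,
  [(18,1),(0,1),(10,0),(2,1),(2,0)]⟩,⟨0,[(3,0),(31,0)]⟩⟩,[.o ⟨false,0,⟨0,[(11,0)]⟩,⟨3,[(17,0),(0,0),
  (15,3),(2,1)]⟩⟩,.o ⟨false,1,⟨1,[(30,0),(4,1),(1,0)]⟩,⟨0,[(34,0)]⟩⟩,.a ⟨true,0,⟨0,[(20,0)]⟩,⟨1,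
  [(19,0),(8,0),(0,0)]⟩⟩ ⟨false,0,⟨1,[(3,0),(1,0),(13,0),(3,0),(11,0)]⟩,⟨1,[(18,0),(18,0)]⟩⟩ ⟨true,
  0,⟨1,[(11,0),(7,0),(15,0)]⟩,⟨0,[(20,0),(13,0)]⟩⟩,.o ⟨false,0,⟨6,[(1,0),(1,0),(4,1),(11,5),(1,2),
  (0,1),(1,2)]⟩,⟨7,[(17,0),(0,0),(0,3),(10,1),(5,3)]⟩⟩]⟩)))) (.R ⟨2,true,false,false,[0,1],[0,0,0,
  1],[0,1,1],(⟨0,[]⟩,⟨0,[]⟩),(⟨0,[(17,0)]⟩,⟨1,[(16,0),(8,0),(0,0)]⟩),⟨0,[]⟩,.k,.k,.k,(.r 0 ⟨0,[(4,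
  0)]⟩ ⟨1,[(15,0),(16,1),(0,0)]⟩),.k,.k,⟨false,0,⟨0,[(3,0),(28,0)]⟩,⟨0,[(0,0),(16,0),(12,0),(0,0),
  (1,0)]⟩⟩,⟨true,0,⟨1,[(16,0),(2,0),(2,0)]⟩,⟨0,[(17,0)]⟩⟩,⟨false,0,⟨0,[(32,0)]⟩,⟨0,[(31,0),(2,0)]⟩⟩,
  ⟨true,0,⟨0,[(0,0)]⟩,⟨0,[(3,0),(13,0)]⟩⟩,⟨true,0,⟨0,[(36,0)]⟩,⟨0,[]⟩⟩,⟨false,1,⟨3,[(15,1),(0,1),
  (10,0),(2,1),(2,0)]⟩,⟨0,[(2,0),(17,0),(4,0),(0,0)]⟩⟩,[]⟩))) (.Q [0,0,0,0,0,1,0,0,0,0,0,-1] (.p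
  false [0,0,0,1] [] (⟨0,[(15,0)]⟩,⟨1,[(14,0),(8,0),(0,0)]⟩) .k 0 (⟨0,[]⟩,⟨0,[]⟩) .k .k) (.R ⟨0,
  false,false,true,[0,0,0,1],[0,1],[0,1,1],(⟨0,[(16,0)]⟩,⟨1,[(15,0),(8,0),(0,0)]⟩),(⟨0,[(28,0)]⟩,⟨0,
  [(27,0)]⟩),⟨0,[(0,0)]⟩,.k,.k,(.r (-1) ⟨1,[(14,0),(16,1),(0,0)]⟩ ⟨0,[(3,0)]⟩),(.r (-1) ⟨1,[(14,0),
  (16,1),(0,0)]⟩ ⟨0,[(3,0)]⟩),.k,.k,⟨true,0,⟨0,[(31,0)]⟩,⟨3,[(21,0),(0,0),(6,1),(0,3)]⟩⟩,⟨false,1,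
  ⟨0,[(16,0),(15,0)]⟩,⟨1,[(15,0),(2,0),(2,0)]⟩⟩,⟨false,0,⟨0,[(3,0),(27,0)]⟩,⟨0,[(1,0),(4,0),(9,0),
  (12,0),(2,0)]⟩⟩,⟨true,0,⟨0,[(2,0),(13,0)]⟩,⟨0,[(1,0),(3,0)]⟩⟩,⟨false,0,⟨0,[]⟩,⟨0,[]⟩⟩,⟨false,0,⟨0,
  []⟩,⟨0,[]⟩⟩,[.o ⟨false,0,⟨0,[(30,0)]⟩,⟨1,[(26,0),(4,1),(1,0)]⟩⟩,.o ⟨false,1,⟨3,[(13,0),(0,0),(15,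
  3),(2,1)]⟩,⟨0,[(7,0)]⟩⟩,.a ⟨true,0,⟨1,[(15,0),(8,0),(0,0)]⟩,⟨0,[(16,0)]⟩⟩ ⟨false,0,⟨1,[(21,0),(0,
  0)]⟩,⟨1,[(32,0),(0,0)]⟩⟩ ⟨true,0,⟨0,[(16,0),(13,0)]⟩,⟨1,[(7,0),(7,0),(15,0)]⟩⟩,.o ⟨false,0,⟨1,
  [(15,0),(2,0),(2,0)]⟩,⟨1,[(16,1),(9,0),(5,0)]⟩⟩]⟩) (.Q [0,0,0,0,0,0,0,0,-1,0,0,1] (.p true [0,0,0,
  1] [] (⟨0,[(16,0)]⟩,⟨1,[(15,0),(8,0),(0,0)]⟩) .k 0 (⟨0,[]⟩,⟨0,[]⟩) .k .k) (.R ⟨2,true,false,false,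
  [0,1],[0,0,0,1],[0,1,1],(⟨0,[]⟩,⟨0,[]⟩),(⟨0,[(17,0)]⟩,⟨1,[(16,0),(8,0),(0,0)]⟩),⟨0,[]⟩,.k,.k,.k,
  (.r 0 ⟨0,[(4,0)]⟩ ⟨1,[(15,0),(16,1),(0,0)]⟩),.k,.k,⟨false,0,⟨0,[(3,0),(28,0)]⟩,⟨0,[(2,0),(4,0),(9,
  0),(12,0),(2,0)]⟩⟩,⟨true,0,⟨1,[(16,0),(2,0),(2,0)]⟩,⟨0,[(17,0)]⟩⟩,⟨false,0,⟨0,[(32,0)]⟩,⟨0,[(31,
  0),(2,0)]⟩⟩,⟨true,0,⟨0,[(2,0),(3,0)]⟩,⟨0,[(0,0),(30,0)]⟩⟩,⟨true,0,⟨0,[(36,0)]⟩,⟨0,[]⟩⟩,⟨false,1,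
  ⟨3,[(15,1),(0,1),(10,0),(2,1),(2,0)]⟩,⟨0,[(0,0)]⟩⟩,[]⟩) (.R ⟨1,false,false,false,[0,0,0,1],[1,0,0,
  -1],[1,0,0,0,0,0,0,0,1],(⟨0,[(17,0)]⟩,⟨1,[(16,0),(8,0),(0,0)]⟩),(⟨1,[(16,0),(8,0),(0,0)]⟩,⟨0,[(17,
  0)]⟩),⟨0,[(1,0)]⟩,.k,.k,(.r (-1) ⟨1,[(15,0),(16,1),(0,0)]⟩ ⟨0,[(4,0)]⟩),.k,(.r (-1) ⟨1,[(2,1),(3,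
  1),(8,0),(1,1),(15,0)]⟩ ⟨0,[(3,1),(26,0),(1,0)]⟩),.k,⟨true,0,⟨0,[(0,1),(16,1)]⟩,⟨0,[(3,1),(26,0),
  (1,1)]⟩⟩,⟨false,1,⟨1,[(17,3),(9,0),(5,0)]⟩,⟨0,[(16,0)]⟩⟩,⟨true,0,⟨0,[]⟩,⟨0,[(36,0)]⟩⟩,⟨false,1,⟨1,
  [(3,1),(4,1),(5,0),(2,3),(12,1),(2,0)]⟩,⟨0,[(0,1),(24,0),(0,0)]⟩⟩,⟨false,1,⟨0,[(31,0),(2,0)]⟩,⟨0,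
  [(32,0)]⟩⟩,⟨false,1,⟨9,[(3,13),(1,3),(8,2),(2,19),(2,3),(6,0),(2,11),(2,5)]⟩,⟨0,[(0,0),(1,0),(3,
  0),(18,0),(0,0)]⟩⟩,[.o ⟨false,1,⟨1,[(14,0),(2,1),(9,0)]⟩,⟨0,[(0,0)]⟩⟩,.o ⟨false,1,⟨9,[(3,1),(1,1),
  (8,3),(2,9),(2,1),(6,2),(2,5),(2,2)]⟩,⟨1,[(0,0),(1,0),(15,0)]⟩⟩,.a ⟨true,0,⟨1,[(16,0),(8,0),(0,
  0)]⟩,⟨0,[(17,0)]⟩⟩ ⟨true,0,⟨0,[(0,0),(16,0)]⟩,⟨0,[(3,0),(28,0)]⟩⟩ ⟨false,1,⟨9,[(3,1),(1,1),(8,3),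
  (2,19),(2,1),(6,2),(2,5),(2,2)]⟩,⟨1,[(0,1),(15,0),(8,0),(0,0)]⟩⟩,.o ⟨false,0,⟨1,[(16,0),(2,0),(2,
  0)]⟩,⟨1,[(17,1),(9,0),(5,0)]⟩⟩]⟩)))) (.Q [0,0,0,1,0,0,0,0,1,1,0,-1] (.p false [0,0,0,1] [1] (⟨0,
  [(14,0)]⟩,⟨1,[(13,0),(8,0),(0,0)]⟩) .k 1 (⟨0,[]⟩,⟨0,[]⟩) .k .k) (.Q [0,0,0,0,0,1,0,0,0,0,0,-1]
  (.p false [0,0,0,1] [] (⟨0,[(15,0)]⟩,⟨1,[(14,0),(8,0),(0,0)]⟩) .k 0 (⟨0,[]⟩,⟨0,[]⟩) .k .k) (.R ⟨0,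
  false,false,false,[0,0,0,1],[1,-1],[1,0,0,-1,0,0,0,0,1],(⟨0,[(16,0)]⟩,⟨1,[(15,0),(8,0),(0,0)]⟩),
  (⟨0,[(27,0)]⟩,⟨0,[(28,0)]⟩),⟨0,[(0,0)]⟩,.k,.k,(.r (-1) ⟨1,[(14,0),(16,1),(0,0)]⟩ ⟨0,[(3,0)]⟩),(.r
  0 ⟨2,[(1,0),(0,1),(13,0),(1,0),(2,0),(7,0),(0,3)]⟩ ⟨1,[(13,0),(17,1),(0,0)]⟩),.k,.k,⟨false,0,⟨0,
  [(2,0),(27,0)]⟩,⟨1,[(13,0),(18,0)]⟩⟩,⟨true,0,⟨6,[(4,1),(11,6),(1,2),(0,1),(1,2),(7,0),(0,1)]⟩,⟨1,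
  [(15,0),(8,0),(0,0)]⟩⟩,⟨true,0,⟨0,[(31,0)]⟩,⟨0,[(30,0)]⟩⟩,⟨false,1,⟨1,[(7,1),(5,0),(2,1),(16,0)]⟩,
  ⟨0,[(1,0)]⟩⟩,⟨false,0,⟨0,[]⟩,⟨0,[]⟩⟩,⟨false,0,⟨0,[]⟩,⟨0,[]⟩⟩,[.o ⟨false,0,⟨0,[(7,0)]⟩,⟨3,[(13,0),
  (0,0),(15,3),(2,1)]⟩⟩,.o ⟨false,1,⟨1,[(26,0),(4,1),(1,0)]⟩,⟨0,[(30,0)]⟩⟩,.a ⟨true,0,⟨1,[(15,0),(8,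
  0),(0,0)]⟩,⟨0,[(16,0)]⟩⟩ ⟨false,0,⟨0,[(2,0)]⟩,⟨1,[(13,0),(16,1),(2,0)]⟩⟩ ⟨true,0,⟨0,[(7,0),(8,
  0)]⟩,⟨1,[(11,1),(0,0),(2,0)]⟩⟩,.o ⟨false,0,⟨1,[(15,0),(2,0),(2,0)]⟩,⟨1,[(16,1),(9,0),(5,0)]⟩⟩]⟩)
  (.I [1,-1,-1,-1,1,0,0,0,-1] (.I [1,-1,-1,0,1,0,0,0,-1] (.R ⟨1,false,false,false,[0,0,0,1],[1,-1],
  [0,1,0,-1,0,0,0,0,1],(⟨0,[(18,0)]⟩,⟨1,[(17,0),(8,0),(0,0)]⟩),(⟨0,[(29,0)]⟩,⟨0,[(30,0)]⟩),⟨0,[(2,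
  0)]⟩,.k,.k,(.r (-1) ⟨1,[(16,0),(16,1),(0,0)]⟩ ⟨0,[(5,0)]⟩),(.r 0 ⟨2,[(3,0),(0,1),(13,0),(1,0),(2,
  0),(7,0),(0,3)]⟩ ⟨0,[(1,0),(35,0)]⟩),.k,.k,⟨false,0,⟨0,[(4,0),(27,0),(4,0)]⟩,⟨0,[(0,0)]⟩⟩,⟨true,0,
  ⟨6,[(6,1),(11,6),(1,2),(0,1),(1,2),(7,0),(0,1)]⟩,⟨1,[(17,0),(8,0),(0,0)]⟩⟩,⟨false,0,⟨0,[(33,0)]⟩,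
  ⟨0,[(32,0),(2,0)]⟩⟩,⟨false,1,⟨3,[(1,1),(7,0),(0,0),(4,0),(2,3),(4,0),(4,0),(2,0)]⟩,⟨0,[(3,0)]⟩⟩,
  ⟨true,0,⟨0,[(37,0)]⟩,⟨0,[]⟩⟩,⟨false,1,⟨13,[(0,5),(4,1),(0,1),(8,2),(2,13),(2,1),(6,4),(2,3)]⟩,⟨0,
  [(3,0),(29,0)]⟩⟩,[.o ⟨false,0,⟨0,[(9,0)]⟩,⟨3,[(15,0),(0,0),(15,3),(2,1)]⟩⟩,.o ⟨false,1,⟨1,[(28,0),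
  (4,1),(1,0)]⟩,⟨0,[(32,0)]⟩⟩,.a ⟨true,0,⟨1,[(17,0),(8,0),(0,0)]⟩,⟨0,[(18,0)]⟩⟩ ⟨false,0,⟨0,[(4,0),
  (32,0)]⟩,⟨1,[(0,0),(4,0),(26,0),(2,0)]⟩⟩ ⟨true,0,⟨0,[(9,0),(8,0)]⟩,⟨1,[(13,1),(0,0),(2,0)]⟩⟩,.o
  ⟨false,0,⟨1,[(17,0),(2,0),(2,0)]⟩,⟨1,[(18,1),(9,0),(5,0)]⟩⟩]⟩) (.R ⟨1,false,false,false,[0,0,0,1],
  [1,-1],[1,0,0,0,0,0,0,0,1],(⟨0,[(18,0)]⟩,⟨1,[(17,0),(8,0),(0,0)]⟩),(⟨0,[(29,0)]⟩,⟨0,[(30,0)]⟩),⟨0,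
  [(2,0)]⟩,.k,.k,(.r (-1) ⟨1,[(16,0),(16,1),(0,0)]⟩ ⟨0,[(5,0)]⟩),(.r 0 ⟨2,[(0,0),(15,0),(14,1),(0,
  2)]⟩ ⟨0,[(1,0),(35,0)]⟩),.k,.k,⟨false,0,⟨0,[(0,0),(30,0),(0,0),(1,0)]⟩,⟨0,[(1,0),(35,0)]⟩⟩,⟨true,
  0,⟨10,[(0,1),(4,1),(0,1),(11,10),(1,2),(0,1),(1,2),(4,1),(2,0)]⟩,⟨1,[(17,0),(8,0),(0,0)]⟩⟩,⟨true,
  0,⟨0,[]⟩,⟨0,[(37,0)]⟩⟩,⟨false,1,⟨3,[(1,1),(7,0),(0,0),(4,0),(2,3),(4,0),(4,0),(2,0)]⟩,⟨0,[(3,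
  0)]⟩⟩,⟨false,1,⟨0,[(32,0),(2,0)]⟩,⟨0,[(33,0)]⟩⟩,⟨false,1,⟨13,[(1,5),(3,7),(0,1),(11,13),(2,1),(6,
  4),(2,3),(2,2)]⟩,⟨0,[(3,0),(29,0)]⟩⟩,[.o ⟨false,0,⟨0,[(9,0)]⟩,⟨3,[(15,0),(0,0),(15,3),(2,1)]⟩⟩,.o
  ⟨false,1,⟨1,[(28,0),(4,1),(1,0)]⟩,⟨0,[(32,0)]⟩⟩,.a ⟨true,0,⟨1,[(17,0),(8,0),(0,0)]⟩,⟨0,[(18,0)]⟩⟩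
  ⟨false,0,⟨0,[(0,0),(30,0),(2,0)]⟩,⟨3,[(15,2),(0,0)]⟩⟩ ⟨true,0,⟨0,[(9,0),(8,0)]⟩,⟨1,[(13,1),(0,0),
  (2,0)]⟩⟩,.o ⟨false,0,⟨1,[(17,0),(2,0),(2,0)]⟩,⟨1,[(18,1),(9,0),(5,0)]⟩⟩]⟩)) (.R ⟨1,false,false,
  false,[0,0,0,1],[1,-1],[1,0,0,0,0,0,0,0,1],(⟨0,[(17,0)]⟩,⟨1,[(16,0),(8,0),(0,0)]⟩),(⟨0,[(28,0)]⟩,
  ⟨0,[(29,0)]⟩),⟨0,[(1,0)]⟩,.k,.k,(.r (-1) ⟨1,[(15,0),(16,1),(0,0)]⟩ ⟨0,[(4,0)]⟩),(.r 0 ⟨2,[(0,1),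
  (3,0),(10,0),(18,0)]⟩ ⟨1,[(14,0),(17,1),(0,0)]⟩),.k,.k,⟨false,0,⟨1,[(0,1),(32,0),(0,0)]⟩,⟨1,[(14,
  0),(17,1),(0,0)]⟩⟩,⟨true,0,⟨18,[(0,1),(3,1),(0,3),(11,18),(1,6),(0,3),(1,6),(4,1),(2,0)]⟩,⟨1,[(16,
  0),(8,0),(0,0)]⟩⟩,⟨true,0,⟨0,[]⟩,⟨0,[(36,0)]⟩⟩,⟨false,1,⟨1,[(8,1),(5,0),(2,1),(16,0)]⟩,⟨0,[(2,
  0)]⟩⟩,⟨false,1,⟨0,[(31,0),(2,0)]⟩,⟨0,[(32,0)]⟩⟩,⟨false,1,⟨7,[(4,1),(0,1),(8,2),(2,7),(2,1),(6,1),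
  (2,3),(2,2)]⟩,⟨0,[(2,0),(29,0)]⟩⟩,[.o ⟨false,0,⟨0,[(8,0)]⟩,⟨3,[(14,0),(0,0),(15,3),(2,1)]⟩⟩,.o
  ⟨false,1,⟨1,[(27,0),(4,1),(1,0)]⟩,⟨0,[(31,0)]⟩⟩,.a ⟨true,0,⟨1,[(16,0),(8,0),(0,0)]⟩,⟨0,[(17,0)]⟩⟩
  ⟨false,0,⟨1,[(0,0),(2,0),(26,0),(2,0)]⟩,⟨3,[(14,2),(0,0)]⟩⟩ ⟨true,0,⟨0,[(8,0),(8,0)]⟩,⟨1,[(12,1),
  (0,0),(2,0)]⟩⟩,.o ⟨false,0,⟨1,[(16,0),(2,0),(2,0)]⟩,⟨1,[(17,1),(9,0),(5,0)]⟩⟩]⟩))) (.R ⟨2,true,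
  false,false,[0,1],[1,0,0,-1],[0,1,1],(⟨0,[]⟩,⟨0,[]⟩),(⟨1,[(14,0),(8,0),(0,0)]⟩,⟨0,[(15,0)]⟩),⟨0,
  []⟩,.k,.k,.k,(.r 0 ⟨3,[(1,3),(18,0),(0,0),(6,1),(0,7)]⟩ ⟨1,[(12,0),(17,1),(0,0)]⟩),.k,.k,⟨false,0,
  ⟨0,[(1,0),(27,0),(4,0)]⟩,⟨3,[(0,1),(1,1),(11,0),(8,0),(0,0),(3,1),(2,3)]⟩⟩,⟨true,0,⟨6,[(3,1),(11,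
  6),(1,2),(0,1),(1,2),(7,0),(0,1)]⟩,⟨1,[(14,0),(8,0),(0,0)]⟩⟩,⟨false,0,⟨0,[(30,0)]⟩,⟨0,[(29,0),(2,
  0)]⟩⟩,⟨true,0,⟨0,[(0,0)]⟩,⟨1,[(1,1),(8,1),(0,0),(2,0),(14,1)]⟩⟩,⟨true,0,⟨0,[(34,0)]⟩,⟨0,[]⟩⟩,
  ⟨false,1,⟨3,[(0,1),(1,1),(12,1),(9,0),(5,0),(0,1)]⟩,⟨1,[(1,1),(8,1),(0,0),(2,0)]⟩⟩,[]⟩))) (.Q [0,
  0,0,0,0,1,0,0,0,0,0,-1] (.p false [0,0,0,1] [] (⟨0,[(13,0)]⟩,⟨1,[(12,0),(8,0),(0,0)]⟩) .k 0 (⟨0,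
  []⟩,⟨0,[]⟩) .k .k) (.R ⟨0,false,false,false,[0,0,0,1],[1,-1],[1,0,0,0,0,0,0,0,1],(⟨0,[(14,0)]⟩,⟨1,
  [(13,0),(8,0),(0,0)]⟩),(⟨0,[(25,0)]⟩,⟨0,[(26,0)]⟩),⟨0,[(0,0)]⟩,.k,.k,(.x 0 ⟨6,[(2,1),(13,2),(0,1),
  (1,2),(5,6),(1,0),(0,1)]⟩ ⟨3,[(11,0),(0,0),(13,3),(3,1)]⟩),(.r 0 ⟨1,[(1,1),(17,0),(0,0),(6,1),(0,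
  3)]⟩ ⟨0,[(1,0),(9,0)]⟩),.k,.k,⟨false,0,⟨0,[(1,0),(25,0),(0,1)]⟩,⟨0,[(1,0),(9,0)]⟩⟩,⟨true,0,⟨6,[(2,
  1),(11,6),(1,2),(0,1),(1,2),(7,0),(0,1)]⟩,⟨1,[(13,0),(8,0),(0,0)]⟩⟩,⟨true,0,⟨0,[]⟩,⟨0,[(33,0)]⟩⟩,
  ⟨false,1,⟨1,[(5,1),(5,0),(2,1),(16,0)]⟩,⟨1,[(1,1),(7,1),(0,0),(2,0),(13,1),(0,1)]⟩⟩,⟨false,0,⟨0,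
  []⟩,⟨0,[]⟩⟩,⟨false,0,⟨0,[]⟩,⟨0,[]⟩⟩,[.o ⟨false,0,⟨0,[(5,0)]⟩,⟨3,[(11,0),(0,0),(15,3),(2,1)]⟩⟩,.o
  ⟨false,1,⟨1,[(24,0),(4,1),(1,0)]⟩,⟨0,[(28,0)]⟩⟩,.a ⟨true,0,⟨1,[(13,0),(8,0),(0,0)]⟩,⟨0,[(14,0)]⟩⟩
  ⟨false,0,⟨0,[(1,0),(25,0),(0,0)]⟩,⟨3,[(11,2),(0,0)]⟩⟩ ⟨true,0,⟨0,[(5,0),(8,0)]⟩,⟨1,[(9,1),(0,0),
  (2,0)]⟩⟩,.o ⟨false,0,⟨1,[(13,0),(2,0),(2,0)]⟩,⟨1,[(14,1),(9,0),(5,0)]⟩⟩]⟩) (.R ⟨1,false,false,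
  false,[0,0,0,1],[1,-1],[1,0,0,0,0,0,0,0,1],(⟨0,[(14,0)]⟩,⟨1,[(13,0),(8,0),(0,0)]⟩),(⟨0,[(25,0)]⟩,
  ⟨0,[(26,0)]⟩),⟨0,[(0,0)]⟩,.k,.k,(.x 0 ⟨1,[(0,1),(12,0),(2,0),(2,0)]⟩ ⟨3,[(11,0),(0,0),(13,3),(3,
  1)]⟩),(.r 0 ⟨1,[(1,1),(17,0),(0,0),(6,1),(0,3)]⟩ ⟨0,[(1,0),(9,0)]⟩),.k,.k,⟨false,0,⟨0,[(1,0),(25,
  0),(0,1)]⟩,⟨0,[(1,0),(9,0)]⟩⟩,⟨true,0,⟨6,[(2,1),(11,6),(1,2),(0,1),(1,2),(7,0),(0,1)]⟩,⟨1,[(13,0),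
  (8,0),(0,0)]⟩⟩,⟨true,0,⟨0,[]⟩,⟨0,[(33,0)]⟩⟩,⟨false,1,⟨1,[(5,1),(5,0),(2,1),(16,0)]⟩,⟨1,[(1,1),(7,
  1),(0,0),(2,0),(13,1),(0,1)]⟩⟩,⟨false,1,⟨0,[(28,0),(2,0)]⟩,⟨0,[(29,0)]⟩⟩,⟨false,1,⟨5,[(2,1),(8,2),
  (2,5),(2,1),(6,0),(2,3),(0,1),(1,1)]⟩,⟨1,[(1,1),(7,0),(0,0),(2,0),(6,0),(6,0),(0,0)]⟩⟩,[.o ⟨false,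
  0,⟨0,[(5,0)]⟩,⟨3,[(11,0),(0,0),(15,3),(2,1)]⟩⟩,.o ⟨false,1,⟨1,[(24,0),(4,1),(1,0)]⟩,⟨0,[(28,0)]⟩⟩,
  .a ⟨true,0,⟨1,[(13,0),(8,0),(0,0)]⟩,⟨0,[(14,0)]⟩⟩ ⟨false,0,⟨0,[(1,0),(25,0),(0,0)]⟩,⟨3,[(11,2),(0,
  0)]⟩⟩ ⟨true,0,⟨0,[(5,0),(8,0)]⟩,⟨1,[(9,1),(0,0),(2,0)]⟩⟩,.o ⟨false,0,⟨1,[(13,0),(2,0),(2,0)]⟩,⟨1,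
  [(14,1),(9,0),(5,0)]⟩⟩]⟩)))) (.Q [0,0,0,0,0,0,-1,0,0,0,1] (.p true [0,0,1] [] (⟨0,[(20,0)]⟩,⟨0,
  [(19,0)]⟩) .k 0 (⟨0,[]⟩,⟨0,[]⟩) .k .k) (.R ⟨0,false,false,true,[1,0,-1],[0,1],[0,1,1],(⟨0,[(20,
  0)]⟩,⟨0,[(21,0)]⟩),(⟨0,[(24,0)]⟩,⟨0,[(23,0)]⟩),⟨0,[(6,0)]⟩,.k,.k,.k,.k,.k,.k,⟨true,0,⟨0,[(27,0)]⟩,
  ⟨3,[(17,0),(0,0),(6,1),(0,3)]⟩⟩,⟨false,1,⟨1,[(8,0),(11,0),(0,0),(6,1)]⟩,⟨0,[(14,0)]⟩⟩,⟨false,0,⟨1,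
  [(1,0),(2,0),(10,0),(2,0),(6,0)]⟩,⟨1,[(19,1),(8,0),(0,0)]⟩⟩,⟨true,0,⟨0,[(1,0)]⟩,⟨0,[(4,0),(14,
  0)]⟩⟩,⟨false,0,⟨0,[]⟩,⟨0,[]⟩⟩,⟨false,0,⟨0,[]⟩,⟨0,[]⟩⟩,[.o ⟨false,0,⟨0,[(26,0)]⟩,⟨1,[(22,0),(4,1),
  (1,0)]⟩⟩,.o ⟨false,1,⟨3,[(9,0),(0,0),(15,3),(2,1)]⟩,⟨0,[(3,0)]⟩⟩,.a ⟨true,0,⟨0,[(0,0)]⟩,⟨1,[(8,0),
  (11,0),(0,0)]⟩⟩ ⟨false,0,⟨1,[(17,0),(0,0)]⟩,⟨1,[(28,0),(0,0)]⟩⟩ ⟨true,0,⟨0,[(1,0),(17,0)]⟩,⟨0,[(4,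
  0)]⟩⟩,.o ⟨false,0,⟨0,[(14,0)]⟩,⟨7,[(8,3),(0,0),(0,0),(11,1),(5,3)]⟩⟩]⟩) (.Q [0,0,0,0,0,1,0,0,0,0,
  -1] (.ed true [1,-1,1] .k) (.Q [0,0,0,-1,0,0,1,1,0,0,-1] (.p false [0,0,1] [] (⟨0,[(22,0)]⟩,⟨0,
  [(21,0)]⟩) .k 0 (⟨0,[]⟩,⟨0,[]⟩) .k .k) (.R ⟨2,true,false,true,[0,1],[0,0,1],[0,0,1],(⟨0,[]⟩,⟨0,
  []⟩),(⟨0,[(23,0)]⟩,⟨0,[(22,0)]⟩),⟨0,[]⟩,.k,.k,.k,.k,.k,.k,⟨true,0,⟨2,[(18,0),(0,0),(1,1),(5,1)]⟩,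
  ⟨0,[(3,0),(2,0)]⟩⟩,⟨false,0,⟨0,[(2,0)]⟩,⟨0,[(20,0),(9,0)]⟩⟩,⟨true,0,⟨0,[(29,0)]⟩,⟨0,[(28,0)]⟩⟩,
  ⟨false,0,⟨0,[(0,0)]⟩,⟨0,[(9,0),(11,0),(9,0)]⟩⟩,⟨false,1,⟨3,[(11,0),(0,0),(18,1)]⟩,⟨0,[]⟩⟩,⟨true,0,
  ⟨0,[(17,0)]⟩,⟨0,[(4,0),(17,0),(0,0)]⟩⟩,[]⟩) (.Q [0,0,0,0,0,0,-1,0,0,1,1] (.p true [1,-1,1] [] (⟨0,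
  [(23,0),(1,0)]⟩,⟨0,[(1,0)]⟩) .k 0 (⟨0,[]⟩,⟨0,[]⟩) .k .k) (.R ⟨0,false,false,true,[0,1,-1],[0,1],
  [0,0,1],(⟨0,[(2,0)]⟩,⟨0,[(24,0),(1,0)]⟩),(⟨0,[(27,0)]⟩,⟨0,[(26,0)]⟩),⟨0,[(24,0)]⟩,.k,.k,.k,.k,.k,
  .k,⟨false,1,⟨1,[(30,1),(0,0),(0,0)]⟩,⟨0,[(29,0)]⟩⟩,⟨true,0,⟨0,[(3,0)]⟩,⟨0,[(21,0)]⟩⟩,⟨false,1,⟨1,
  [(0,0),(6,0),(10,1),(11,0),(1,1)]⟩,⟨0,[(1,0),(1,0)]⟩⟩,⟨true,0,⟨0,[(18,0)]⟩,⟨1,[(0,0),(4,0),(16,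
  0)]⟩⟩,⟨false,0,⟨0,[]⟩,⟨0,[]⟩⟩,⟨false,0,⟨0,[]⟩,⟨0,[]⟩⟩,[.o ⟨false,0,⟨0,[(29,0)]⟩,⟨1,[(25,0),(4,1),
  (1,0)]⟩⟩,.o ⟨false,1,⟨3,[(12,0),(0,0),(15,3),(2,1)]⟩,⟨0,[(6,0)]⟩⟩,.o ⟨false,1,⟨5,[(0,1),(6,1),(2,
  1),(1,0),(0,0),(17,2),(0,0)]⟩,⟨0,[(3,1),(13,0)]⟩⟩,.a ⟨true,0,⟨0,[(0,0)]⟩,⟨0,[(3,0)]⟩⟩ ⟨false,1,⟨3,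
  [(12,0),(0,0),(18,1)]⟩,⟨0,[]⟩⟩ ⟨true,0,⟨0,[(3,0),(25,0)]⟩,⟨1,[(0,0),(6,0),(22,0)]⟩⟩]⟩) (.Q [0,0,0,
  0,0,0,1,1,-1,0,-1,1] (.p false [0,0,1] [0,0,0,1] (⟨0,[(24,0)]⟩,⟨0,[(23,0)]⟩) .k 2 (⟨0,[(15,0)]⟩,
  ⟨1,[(14,0),(8,0),(0,0)]⟩) .k (.x 0 ⟨2,[(0,0),(10,0),(12,2)]⟩ ⟨3,[(7,1),(2,1),(1,0),(0,0),(9,3),(1,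
  0),(6,0)]⟩)) (.I [0,1,1,0,-1,0,0,0,-1] (.R ⟨0,false,false,true,[0,0,0,1],[0,1],[0,1,1],(⟨0,[(17,
  0)]⟩,⟨1,[(16,0),(8,0),(0,0)]⟩),(⟨0,[(29,0)]⟩,⟨0,[(28,0)]⟩),⟨1,[(4,0),(6,0),(4,0)]⟩,.k,.k,(.r (-1)
  ⟨1,[(15,0),(16,1),(0,0)]⟩ ⟨2,[(0,0),(13,0),(15,1),(0,2)]⟩),(.r (-1) ⟨1,[(15,0),(16,1),(0,0)]⟩ ⟨2,
  [(0,0),(13,0),(15,1),(0,2)]⟩),.k,.k,⟨true,0,⟨0,[(32,0)]⟩,⟨3,[(22,0),(0,0),(6,1),(0,3)]⟩⟩,⟨false,1,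
  ⟨0,[(17,0),(15,0)]⟩,⟨1,[(16,0),(2,0),(2,0)]⟩⟩,⟨true,(-1),⟨0,[(0,0)]⟩,⟨1,[(15,0),(17,0)]⟩⟩,⟨false,
  0,⟨0,[(1,0),(1,0)]⟩,⟨1,[(8,0),(6,0),(0,0),(15,0),(1,0)]⟩⟩,⟨false,0,⟨0,[]⟩,⟨0,[]⟩⟩,⟨false,0,⟨0,[]⟩,
  ⟨0,[]⟩⟩,[.o ⟨false,0,⟨0,[(31,0)]⟩,⟨1,[(27,0),(4,1),(1,0)]⟩⟩,.o ⟨false,1,⟨3,[(14,0),(0,0),(15,3),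
  (2,1)]⟩,⟨0,[(8,0)]⟩⟩,.a ⟨true,0,⟨1,[(16,0),(8,0),(0,0)]⟩,⟨0,[(17,0)]⟩⟩ ⟨false,0,⟨1,[(22,0),(0,
  0)]⟩,⟨1,[(33,0),(0,0)]⟩⟩ ⟨true,0,⟨0,[(17,0),(13,0)]⟩,⟨1,[(8,0),(7,0),(15,0)]⟩⟩,.o ⟨false,0,⟨1,
  [(16,0),(2,0),(2,0)]⟩,⟨1,[(17,1),(9,0),(5,0)]⟩⟩]⟩) (.R ⟨0,false,false,true,[0,0,0,1],[0,0,1],[1,0,
  0,0,0,0,0,0,1],(⟨0,[(17,0)]⟩,⟨1,[(16,0),(8,0),(0,0)]⟩),(⟨0,[(26,0)]⟩,⟨0,[(25,0)]⟩),⟨1,[(4,0),(6,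
  0),(4,0)]⟩,.k,.k,(.r (-1) ⟨1,[(15,0),(16,1),(0,0)]⟩ ⟨1,[(1,1),(1,1),(12,0),(2,0),(2,0)]⟩),.k,.k,
  .k,⟨false,1,⟨0,[(0,0),(23,0)]⟩,⟨1,[(1,1),(7,0),(2,0),(3,0),(19,0)]⟩⟩,⟨true,0,⟨2,[(2,0),(10,0),(3,
  2)]⟩,⟨1,[(16,0),(2,0),(3,0)]⟩⟩,⟨true,0,⟨0,[]⟩,⟨0,[(36,0)]⟩⟩,⟨false,0,⟨0,[(1,0)]⟩,⟨7,[(0,1),(6,3),
  (7,2),(0,3),(4,3),(8,1),(3,2)]⟩⟩,⟨false,0,⟨0,[]⟩,⟨0,[]⟩⟩,⟨false,0,⟨0,[]⟩,⟨0,[]⟩⟩,[.o ⟨false,0,⟨0,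
  [(20,0)]⟩,⟨3,[(7,1),(13,1),(5,0),(6,2)]⟩⟩,.o ⟨false,1,⟨3,[(14,0),(0,0),(4,3),(13,1)]⟩,⟨0,[(7,
  0)]⟩⟩,.a ⟨true,0,⟨1,[(16,0),(8,0),(0,0)]⟩,⟨0,[(17,0)]⟩⟩ ⟨false,1,⟨1,[(15,0),(18,0)]⟩,⟨1,[(1,1),(1,
  0),(5,0),(6,0),(7,0)]⟩⟩ ⟨true,0,⟨0,[(17,0),(2,0)]⟩,⟨1,[(3,0),(5,0),(6,0),(7,0)]⟩⟩,.o ⟨false,0,⟨1,
  [(16,0),(2,0),(2,0)]⟩,⟨1,[(17,1),(9,0),(5,0)]⟩⟩]⟩)) (.I [1,-1,0,0,0,0,0,0,1] (.I [0,0,1,1,0,0,0,0,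
  -1] (.R ⟨0,false,false,false,[0,0,0,1],[1,-1],[1,0,0,0,0,0,0,0,1],(⟨0,[(18,0)]⟩,⟨1,[(17,0),(8,0),
  (0,0)]⟩),(⟨0,[(29,0)]⟩,⟨0,[(30,0)]⟩),⟨1,[(5,0),(6,0),(4,0)]⟩,.k,.k,(.r (-1) ⟨1,[(16,0),(16,1),(0,
  0)]⟩ ⟨0,[(0,0)]⟩),(.r 0 ⟨1,[(1,1),(21,0),(0,0),(7,1)]⟩ ⟨1,[(15,0),(17,1),(0,0)]⟩),.k,.k,⟨false,0,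
  ⟨0,[(1,0),(30,0)]⟩,⟨1,[(15,0),(17,1),(0,0)]⟩⟩,⟨true,0,⟨2,[(3,0),(14,2),(1,1),(2,0)]⟩,⟨1,[(17,0),
  (8,0),(0,0)]⟩⟩,⟨true,0,⟨0,[]⟩,⟨0,[(37,0)]⟩⟩,⟨false,1,⟨1,[(9,1),(5,0),(2,1),(16,0)]⟩,⟨2,[(1,1),(0,
  0),(1,0),(2,1),(9,0)]⟩⟩,⟨false,0,⟨0,[]⟩,⟨0,[]⟩⟩,⟨false,0,⟨0,[]⟩,⟨0,[]⟩⟩,[.o ⟨false,0,⟨0,[(9,0)]⟩,
  ⟨3,[(15,0),(0,0),(15,3),(2,1)]⟩⟩,.o ⟨false,1,⟨1,[(28,0),(4,1),(1,0)]⟩,⟨0,[(32,0)]⟩⟩,.a ⟨true,0,⟨1,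
  [(17,0),(8,0),(0,0)]⟩,⟨0,[(18,0)]⟩⟩ ⟨false,0,⟨0,[(1,0)]⟩,⟨3,[(15,2),(0,0)]⟩⟩ ⟨true,0,⟨0,[(9,0),(8,
  0)]⟩,⟨3,[(4,0),(2,1),(9,1),(4,0),(9,0)]⟩⟩,.o ⟨false,0,⟨1,[(17,0),(2,0),(2,0)]⟩,⟨1,[(18,1),(9,0),
  (5,0)]⟩⟩]⟩) (.R ⟨0,false,false,false,[0,0,0,1],[1,-1],[1,0,0,0,0,0,0,0,1],(⟨0,[(18,0)]⟩,⟨1,[(17,
  0),(8,0),(0,0)]⟩),(⟨0,[(29,0)]⟩,⟨0,[(30,0)]⟩),⟨1,[(5,0),(6,0),(4,0)]⟩,.k,.k,(.x 0 ⟨2,[(3,0),(16,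
  1),(2,0),(5,2)]⟩ ⟨3,[(15,0),(0,0),(13,3),(3,1)]⟩),(.r 0 ⟨1,[(1,1),(21,0),(0,0),(7,1)]⟩ ⟨0,[(0,0),
  (14,0)]⟩),.k,.k,⟨false,0,⟨0,[(1,0),(30,0)]⟩,⟨0,[(0,0),(14,0)]⟩⟩,⟨true,0,⟨2,[(3,0),(14,2),(1,1),(2,
  0)]⟩,⟨1,[(17,0),(8,0),(0,0)]⟩⟩,⟨true,0,⟨0,[]⟩,⟨0,[(37,0)]⟩⟩,⟨false,1,⟨1,[(9,1),(5,0),(2,1),(16,
  0)]⟩,⟨2,[(1,1),(0,0),(1,0),(2,1),(9,0)]⟩⟩,⟨false,0,⟨0,[]⟩,⟨0,[]⟩⟩,⟨false,0,⟨0,[]⟩,⟨0,[]⟩⟩,[.o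
  ⟨false,0,⟨0,[(9,0)]⟩,⟨3,[(15,0),(0,0),(15,3),(2,1)]⟩⟩,.o ⟨false,1,⟨1,[(28,0),(4,1),(1,0)]⟩,⟨0,
  [(32,0)]⟩⟩,.a ⟨true,0,⟨1,[(17,0),(8,0),(0,0)]⟩,⟨0,[(18,0)]⟩⟩ ⟨false,0,⟨0,[(1,0)]⟩,⟨3,[(15,2),(0,
  0)]⟩⟩ ⟨true,0,⟨0,[(9,0),(8,0)]⟩,⟨3,[(4,0),(2,1),(9,1),(4,0),(9,0)]⟩⟩,.o ⟨false,0,⟨1,[(17,0),(2,0),
  (2,0)]⟩,⟨1,[(18,1),(9,0),(5,0)]⟩⟩]⟩)) (.K ⟨2,[0,0,0,1],0,0,(⟨0,[(17,0)]⟩,⟨1,[(16,0),(8,0),(0,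
  0)]⟩),.k,(.r (-1) ⟨1,[(15,0),(16,1),(0,0)]⟩ ⟨0,[(0,0),(29,0),(0,0)]⟩),(.r 0 ⟨1,[(1,1),(0,0),(3,1),
  (10,1),(1,0),(10,0)]⟩ ⟨1,[(14,0),(17,1),(0,0)]⟩),.k,.k,[⟨2,[(2,0),(10,0),(3,2)]⟩,⟨1,[(13,0),(2,
  0)]⟩,⟨1,[(17,1),(4,0),(0,0)]⟩,⟨1,[(16,0),(2,0),(2,0)]⟩,⟨0,[(0,0),(16,0)]⟩,⟨0,[(1,0),(18,
  0)]⟩]⟩))))) (.Q [0,0,0,-1,0,0,1,1,0,1,-1] (.p false [0,0,1] [1] (⟨0,[(22,0)]⟩,⟨0,[(21,0)]⟩) .k 1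
  (⟨0,[]⟩,⟨0,[]⟩) .k .k) (.R ⟨2,true,false,false,[0,1],[1,1,-1],[0,1,1],(⟨0,[]⟩,⟨0,[]⟩),(⟨0,[(22,0),
  (3,0)]⟩,⟨0,[(1,0)]⟩),⟨0,[]⟩,.k,.k,.k,.k,.k,.k,⟨true,0,⟨2,[(0,1),(5,1),(2,0),(7,0),(15,0)]⟩,⟨0,
  [(21,0),(5,0),(0,0)]⟩⟩,⟨false,1,⟨3,[(6,1),(2,1),(14,0),(5,1),(0,0)]⟩,⟨1,[(10,0),(11,0),(0,0)]⟩⟩,
  ⟨false,0,⟨0,[(29,0)]⟩,⟨0,[(28,0),(2,0)]⟩⟩,⟨true,0,⟨0,[(4,0)]⟩,⟨1,[(0,0),(2,0),(29,0)]⟩⟩,⟨true,0,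
  ⟨0,[(33,0)]⟩,⟨0,[]⟩⟩,⟨false,1,⟨0,[(4,0),(23,0),(2,0)]⟩,⟨0,[(0,0)]⟩⟩,[]⟩) (.I [1,0,-1,0,0,0,0,-1,
  1] (.Q [0,0,0,0,0,-1,0,0,0,0,0,1] (.p true [0,0,0,1] [] (⟨0,[(15,0)]⟩,⟨1,[(14,0),(8,0),(0,0)]⟩)
  .k 0 (⟨0,[]⟩,⟨0,[]⟩) .k .k) (.R ⟨1,false,false,false,[0,0,0,1],[1,-1],[1,0,0,0,0,0,0,0,1],(⟨0,
  [(16,0)]⟩,⟨1,[(15,0),(8,0),(0,0)]⟩),(⟨0,[(27,0)]⟩,⟨0,[(28,0)]⟩),⟨0,[(0,0)]⟩,.k,.k,(.x 0 ⟨1,[(0,1),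
  (14,0),(2,0),(2,0)]⟩ ⟨3,[(13,0),(0,0),(13,3),(3,1)]⟩),(.r 0 ⟨3,[(1,3),(3,3),(12,3),(2,0),(0,0),(6,
  1)]⟩ ⟨1,[(13,0),(17,1),(0,0)]⟩),.k,.k,⟨false,0,⟨0,[(1,0),(9,0),(7,0),(9,0)]⟩,⟨1,[(13,0),(17,1),(0,
  0)]⟩⟩,⟨true,0,⟨6,[(2,1),(4,1),(8,6),(1,2),(0,1),(1,2),(7,0)]⟩,⟨1,[(15,0),(8,0),(0,0)]⟩⟩,⟨true,0,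
  ⟨0,[]⟩,⟨0,[(35,0)]⟩⟩,⟨false,1,⟨1,[(7,1),(5,0),(2,1),(16,0)]⟩,⟨5,[(1,5),(3,5),(2,1),(2,1),(3,2),(2,
  0),(3,0),(6,3)]⟩⟩,⟨false,1,⟨0,[(30,0),(2,0)]⟩,⟨0,[(31,0)]⟩⟩,⟨false,1,⟨5,[(2,1),(4,1),(5,2),(2,5),
  (2,1),(6,0),(2,3),(2,1)]⟩,⟨1,[(1,1),(3,1),(2,0),(6,0),(6,0),(6,0),(1,0)]⟩⟩,[.o ⟨false,0,⟨0,[(7,
  0)]⟩,⟨3,[(13,0),(0,0),(15,3),(2,1)]⟩⟩,.o ⟨false,1,⟨1,[(26,0),(4,1),(1,0)]⟩,⟨0,[(30,0)]⟩⟩,.a ⟨true,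
  0,⟨1,[(15,0),(8,0),(0,0)]⟩,⟨0,[(16,0)]⟩⟩ ⟨false,0,⟨0,[(1,0),(3,0),(2,0),(20,0)]⟩,⟨3,[(13,2),(0,
  0)]⟩⟩ ⟨true,0,⟨0,[(7,0),(8,0)]⟩,⟨1,[(5,0),(5,0),(3,0),(7,0)]⟩⟩,.o ⟨false,0,⟨1,[(15,0),(2,0),(2,
  0)]⟩,⟨1,[(16,1),(9,0),(5,0)]⟩⟩]⟩) (.R ⟨0,false,false,false,[0,0,0,1],[1,-1],[1,0,0,0,0,0,0,0,1],
  (⟨0,[(16,0)]⟩,⟨1,[(15,0),(8,0),(0,0)]⟩),(⟨0,[(27,0)]⟩,⟨0,[(28,0)]⟩),⟨0,[(0,0)]⟩,.k,.k,(.x 0 ⟨6,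
  [(2,1),(4,1),(10,2),(0,1),(1,2),(5,6),(1,0)]⟩ ⟨3,[(13,0),(0,0),(13,3),(3,1)]⟩),(.r 0 ⟨3,[(1,3),(3,
  3),(12,3),(2,0),(0,0),(6,1)]⟩ ⟨1,[(13,0),(17,1),(0,0)]⟩),.k,.k,⟨false,0,⟨0,[(1,0),(9,0),(7,0),(9,
  0)]⟩,⟨1,[(13,0),(17,1),(0,0)]⟩⟩,⟨true,0,⟨6,[(2,1),(4,1),(8,6),(1,2),(0,1),(1,2),(7,0)]⟩,⟨1,[(15,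
  0),(8,0),(0,0)]⟩⟩,⟨true,0,⟨0,[]⟩,⟨0,[(35,0)]⟩⟩,⟨false,1,⟨1,[(7,1),(5,0),(2,1),(16,0)]⟩,⟨5,[(1,5),
  (3,5),(2,1),(2,1),(3,2),(2,0),(3,0),(6,3)]⟩⟩,⟨false,0,⟨0,[]⟩,⟨0,[]⟩⟩,⟨false,0,⟨0,[]⟩,⟨0,[]⟩⟩,[.o
  ⟨false,0,⟨0,[(7,0)]⟩,⟨3,[(13,0),(0,0),(15,3),(2,1)]⟩⟩,.o ⟨false,1,⟨1,[(26,0),(4,1),(1,0)]⟩,⟨0,
  [(30,0)]⟩⟩,.a ⟨true,0,⟨1,[(15,0),(8,0),(0,0)]⟩,⟨0,[(16,0)]⟩⟩ ⟨false,0,⟨0,[(1,0),(3,0),(2,0),(20,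
  0)]⟩,⟨3,[(13,2),(0,0)]⟩⟩ ⟨true,0,⟨0,[(7,0),(8,0)]⟩,⟨1,[(5,0),(5,0),(3,0),(7,0)]⟩⟩,.o ⟨false,0,⟨1,
  [(15,0),(2,0),(2,0)]⟩,⟨1,[(16,1),(9,0),(5,0)]⟩⟩]⟩)) (.I [1,-1,0,0,0,0,0,0,-1] (.Q [0,0,0,0,0,1,0,
  0,0,0,0,-1] (.p false [0,0,0,1] [] (⟨0,[(16,0)]⟩,⟨1,[(15,0),(8,0),(0,0)]⟩) .k 0 (⟨0,[]⟩,⟨0,[]⟩)
  .k .k) (.R ⟨0,false,false,true,[0,0,0,1],[0,0,1],[0,1,0,0,0,0,0,0,1],(⟨0,[(17,0)]⟩,⟨1,[(16,0),(8,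
  0),(0,0)]⟩),(⟨0,[(26,0)]⟩,⟨0,[(25,0)]⟩),⟨0,[(0,0)]⟩,.k,.k,(.r (-1) ⟨1,[(15,0),(16,1),(0,0)]⟩ ⟨2,
  [(1,1),(0,0),(18,0),(0,0),(7,0),(0,2)]⟩),.k,.k,.k,⟨false,1,⟨1,[(15,0),(8,1),(8,0)]⟩,⟨0,[(1,0),(4,
  0),(2,0)]⟩⟩,⟨true,0,⟨0,[(5,0),(11,0)]⟩,⟨1,[(16,0),(2,0),(3,0)]⟩⟩,⟨true,0,⟨0,[(36,0)]⟩,⟨0,[]⟩⟩,
  ⟨false,0,⟨0,[(1,0),(15,0),(2,0)]⟩,⟨3,[(7,1),(7,1),(0,1),(4,1),(8,1),(2,0),(0,0)]⟩⟩,⟨false,0,⟨0,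
  []⟩,⟨0,[]⟩⟩,⟨false,0,⟨0,[]⟩,⟨0,[]⟩⟩,[.o ⟨false,0,⟨0,[(20,0)]⟩,⟨3,[(7,1),(13,1),(5,0),(6,2)]⟩⟩,.o
  ⟨false,1,⟨3,[(14,0),(0,0),(4,3),(13,1)]⟩,⟨0,[(7,0)]⟩⟩,.a ⟨true,0,⟨1,[(16,0),(8,0),(0,0)]⟩,⟨0,[(17,
  0)]⟩⟩ ⟨false,1,⟨3,[(14,0),(0,2)]⟩,⟨0,[(1,0)]⟩⟩ ⟨true,0,⟨0,[(17,0),(2,0)]⟩,⟨1,[(7,1),(8,0),(8,0),
  (0,0)]⟩⟩,.o ⟨false,0,⟨1,[(16,0),(2,0),(2,0)]⟩,⟨1,[(17,1),(9,0),(5,0)]⟩⟩]⟩) (.I [1,-1,0,1,0,0,0,0,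
  -1] (.R ⟨1,false,false,true,[0,0,0,1],[0,0,1],[0,1,0,-1,0,0,0,0,1],(⟨0,[(18,0)]⟩,⟨1,[(17,0),(8,0),
  (0,0)]⟩),(⟨0,[(27,0)]⟩,⟨0,[(26,0)]⟩),⟨0,[(1,0)]⟩,.k,.k,(.r (-1) ⟨1,[(16,0),(16,1),(0,0)]⟩ ⟨5,[(0,
  3),(2,1),(18,1),(0,2),(0,0),(7,1)]⟩),.k,(.r (-1) ⟨1,[(16,0),(8,1),(7,1),(0,0)]⟩ ⟨1,[(0,0),(2,0),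
  (3,0),(12,0)]⟩),.k,⟨false,1,⟨1,[(16,0),(8,1),(7,1),(0,0)]⟩,⟨0,[(0,0),(6,0),(2,0)]⟩⟩,⟨true,0,⟨0,
  [(6,0),(11,0)]⟩,⟨1,[(17,0),(2,0),(3,0)]⟩⟩,⟨false,0,⟨0,[(33,0)]⟩,⟨0,[(32,0),(2,0)]⟩⟩,⟨false,0,⟨0,
  [(2,0),(15,0),(2,0)]⟩,⟨3,[(8,1),(7,1),(0,1),(4,1),(8,1),(2,0),(0,0)]⟩⟩,⟨true,0,⟨0,[(37,0)]⟩,⟨0,
  []⟩⟩,⟨false,0,⟨0,[(0,0),(17,0),(2,0)]⟩,⟨3,[(10,1),(5,1),(0,1),(4,1),(2,1),(5,1),(1,1),(0,0),(0,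
  0)]⟩⟩,[.o ⟨false,0,⟨0,[(21,0)]⟩,⟨3,[(8,1),(13,1),(5,0),(6,2)]⟩⟩,.o ⟨false,1,⟨3,[(15,0),(0,0),(4,
  3),(13,1)]⟩,⟨0,[(8,0)]⟩⟩,.a ⟨true,0,⟨1,[(17,0),(8,0),(0,0)]⟩,⟨0,[(18,0)]⟩⟩ ⟨false,1,⟨3,[(15,0),(0,
  2),(16,3)]⟩,⟨0,[(0,0)]⟩⟩ ⟨true,0,⟨0,[(18,0),(2,0)]⟩,⟨1,[(8,1),(8,0),(8,0),(0,0)]⟩⟩,.o ⟨false,0,⟨1,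
  [(17,0),(2,0),(2,0)]⟩,⟨1,[(18,1),(9,0),(5,0)]⟩⟩]⟩) (.R ⟨1,false,false,false,[1,0,0,-1],[1,-1],[1,
  0,0,0,0,0,0,0,-1],(⟨1,[(17,0),(8,0),(0,0)]⟩,⟨0,[(18,0)]⟩),(⟨0,[(29,0)]⟩,⟨0,[(30,0)]⟩),⟨0,[(1,0),
  (15,0)]⟩,.k,.k,(.r (-1) ⟨1,[(15,0),(17,1),(0,0)]⟩ ⟨0,[(0,0),(3,0),(2,0),(23,0)]⟩),(.r 0 ⟨2,[(2,1),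
  (0,0),(18,0),(0,0),(7,0),(0,2)]⟩ ⟨1,[(0,1),(33,0),(0,0)]⟩),.k,.k,⟨false,0,⟨0,[(2,0),(29,0)]⟩,⟨1,
  [(0,1),(33,0),(0,0)]⟩⟩,⟨true,0,⟨1,[(17,0),(2,0),(2,0)]⟩,⟨0,[(18,0)]⟩⟩,⟨true,0,⟨0,[]⟩,⟨0,[(37,
  0)]⟩⟩,⟨false,1,⟨3,[(0,1),(8,1),(6,0),(0,1),(17,2)]⟩,⟨0,[(2,0),(15,0),(13,0)]⟩⟩,⟨false,1,⟨0,[(32,
  0),(2,0)]⟩,⟨0,[(33,0)]⟩⟩,⟨false,1,⟨3,[(16,1),(0,1),(10,0),(2,1),(2,0)]⟩,⟨0,[(2,0),(15,0),(18,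
  0)]⟩⟩,[.o ⟨false,0,⟨0,[(9,0)]⟩,⟨3,[(15,0),(0,0),(15,3),(2,1)]⟩⟩,.o ⟨false,1,⟨1,[(28,0),(4,1),(1,
  0)]⟩,⟨0,[(32,0)]⟩⟩,.a ⟨true,0,⟨0,[(18,0)]⟩,⟨1,[(17,0),(8,0),(0,0)]⟩⟩ ⟨false,0,⟨0,[(2,0)]⟩,⟨3,[(15,
  0),(0,2)]⟩⟩ ⟨true,0,⟨1,[(9,0),(7,0),(15,0)]⟩,⟨0,[(18,0),(13,0)]⟩⟩,.o ⟨false,0,⟨6,[(4,1),(4,1),(8,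
  6),(1,2),(0,1),(1,2),(7,0)]⟩,⟨7,[(15,0),(0,0),(0,3),(10,1),(5,3)]⟩⟩]⟩))) (.Q [0,1,0,0,0,0,0,0,-1,
  -1,0,1] (.p true [0,0,0,1] [1] (⟨0,[(16,0)]⟩,⟨1,[(15,0),(8,0),(0,0)]⟩) .k 1 (⟨0,[]⟩,⟨0,[]⟩) .k
  .k) (.K ⟨2,[1,0,0,-1],0,0,(⟨1,[(16,0),(8,0),(0,0)]⟩,⟨0,[(17,0)]⟩),.k,(.r (-1) ⟨1,[(14,0),(17,1),
  (0,0)]⟩ ⟨0,[(1,0),(28,0),(0,0)]⟩),(.r 0 ⟨1,[(2,1),(0,1),(9,0),(11,0),(0,0)]⟩ ⟨1,[(15,0),(16,1),(0,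
  0)]⟩),.k,.k,[⟨1,[(13,0),(2,0)]⟩,⟨0,[(5,0),(11,0)]⟩,⟨1,[(13,0),(2,0),(6,1)]⟩,⟨6,[(3,1),(4,1),(8,6),
  (1,2),(0,1),(1,2),(7,0)]⟩,⟨1,[(1,1),(14,0),(8,0),(0,0)]⟩,⟨0,[(0,0)]⟩]⟩) (.Q [0,0,0,0,0,1,0,0,0,0,
  0,-1] (.p false [0,0,0,1] [] (⟨0,[(17,0)]⟩,⟨1,[(16,0),(8,0),(0,0)]⟩) .k 0 (⟨0,[]⟩,⟨0,[]⟩) .k .k)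
  (.R ⟨0,false,false,false,[0,0,0,1],[1,0,-1],[0,0,0,-1,0,0,0,0,1],(⟨0,[(18,0)]⟩,⟨1,[(17,0),(8,0),
  (0,0)]⟩),(⟨0,[(26,0)]⟩,⟨0,[(27,0)]⟩),⟨0,[(0,0)]⟩,.k,.k,(.r (-1) ⟨1,[(16,0),(16,1),(0,0)]⟩ ⟨1,[(3,
  1),(0,1),(9,0),(11,0),(0,0)]⟩),.k,.k,.k,⟨true,0,⟨0,[(1,0),(8,0),(7,0),(2,0)]⟩,⟨1,[(3,1),(0,1),(9,
  0),(10,1),(0,0),(0,0)]⟩⟩,⟨false,1,⟨3,[(10,1),(2,1),(4,3),(9,0),(5,1),(0,0)]⟩,⟨1,[(14,0),(2,0)]⟩⟩,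
  ⟨true,0,⟨0,[(33,0)]⟩,⟨0,[(32,0)]⟩⟩,⟨false,1,⟨1,[(8,1),(6,0),(2,1),(16,0)]⟩,⟨0,[(1,0),(19,0)]⟩⟩,
  ⟨false,0,⟨0,[]⟩,⟨0,[]⟩⟩,⟨false,0,⟨0,[]⟩,⟨0,[]⟩⟩,[.o ⟨false,0,⟨0,[(8,0)]⟩,⟨3,[(15,0),(0,0),(4,3),
  (13,1)]⟩⟩,.o ⟨false,1,⟨3,[(8,1),(13,1),(5,0),(6,2)]⟩,⟨0,[(21,0)]⟩⟩,.a ⟨true,0,⟨1,[(17,0),(8,0),(0,
  0)]⟩,⟨0,[(18,0)]⟩⟩ ⟨false,0,⟨0,[(1,0),(7,0),(8,0)]⟩,⟨1,[(15,0),(16,1),(2,0)]⟩⟩ ⟨true,0,⟨0,[(8,0),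
  (9,0)]⟩,⟨1,[(7,0),(9,0),(3,0),(11,0)]⟩⟩,.o ⟨false,0,⟨1,[(17,0),(2,0),(2,0)]⟩,⟨1,[(18,1),(9,0),(5,
  0)]⟩⟩]⟩) (.R ⟨1,false,false,false,[0,0,0,1],[1,-1],[0,0,0,-1,0,0,0,0,1],(⟨0,[(18,0)]⟩,⟨1,[(17,0),
  (8,0),(0,0)]⟩),(⟨0,[(29,0)]⟩,⟨0,[(30,0)]⟩),⟨0,[(0,0)]⟩,.k,.k,(.r (-1) ⟨1,[(16,0),(16,1),(0,0)]⟩
  ⟨1,[(3,1),(0,1),(9,0),(11,0),(0,0)]⟩),(.r 0 ⟨0,[(2,0),(28,0),(0,0)]⟩ ⟨1,[(15,0),(17,1),(0,0)]⟩),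
  .k,.k,⟨false,0,⟨2,[(1,1),(0,0),(1,0),(4,0),(8,1),(2,0)]⟩,⟨1,[(15,0),(18,0)]⟩⟩,⟨true,0,⟨6,[(4,1),
  (4,1),(8,6),(1,2),(0,1),(1,2),(7,0)]⟩,⟨1,[(17,0),(8,0),(0,0)]⟩⟩,⟨true,0,⟨0,[(33,0)]⟩,⟨0,[(32,
  0)]⟩⟩,⟨false,1,⟨1,[(9,1),(5,0),(2,1),(16,0)]⟩,⟨0,[(1,0),(30,0)]⟩⟩,⟨false,1,⟨3,[(15,0),(0,0),(18,
  1)]⟩,⟨0,[]⟩⟩,⟨false,1,⟨7,[(3,1),(0,1),(1,1),(2,1),(5,2),(2,7),(9,1),(2,3),(2,2)]⟩,⟨5,[(1,3),(0,1),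
  (4,0),(9,0),(4,0),(10,0)]⟩⟩,[.o ⟨false,0,⟨0,[(9,0)]⟩,⟨3,[(15,0),(0,0),(15,3),(2,1)]⟩⟩,.o ⟨false,1,
  ⟨1,[(28,0),(4,1),(1,0)]⟩,⟨0,[(32,0)]⟩⟩,.a ⟨true,0,⟨1,[(17,0),(8,0),(0,0)]⟩,⟨0,[(18,0)]⟩⟩ ⟨false,0,
  ⟨0,[(1,0),(7,0),(8,0)]⟩,⟨1,[(15,0),(16,1),(2,0)]⟩⟩ ⟨true,0,⟨0,[(9,0),(8,0)]⟩,⟨1,[(7,0),(5,0),(3,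
  0),(7,0)]⟩⟩,.o ⟨false,0,⟨1,[(17,0),(2,0),(2,0)]⟩,⟨1,[(18,1),(9,0),(5,0)]⟩⟩]⟩))))))))) (.R ⟨2,true,
  false,false,[0,1],[1,0,-1],[0,1,1],(⟨0,[]⟩,⟨0,[]⟩),(⟨0,[(18,0)]⟩,⟨0,[(19,0)]⟩),⟨0,[]⟩,.k,.k,.k,.k,
  .k,.k,⟨false,0,⟨1,[(0,0),(1,0),(2,0),(7,0)]⟩,⟨1,[(17,1),(8,0),(0,0)]⟩⟩,⟨true,0,⟨0,[(12,0)]⟩,⟨1,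
  [(6,0),(11,0),(0,0)]⟩⟩,⟨false,0,⟨0,[(25,0)]⟩,⟨0,[(24,0),(2,0)]⟩⟩,⟨true,0,⟨0,[(2,0),(14,0)]⟩,⟨0,
  [(0,0),(23,0)]⟩⟩,⟨true,0,⟨0,[(29,0)]⟩,⟨0,[]⟩⟩,⟨false,1,⟨0,[(11,0),(15,0)]⟩,⟨0,[(0,0)]⟩⟩,[]⟩)))

theorem ok2 : chk (cU (-1) false 10) t2 r2 = true := by decide +kernel

noncomputable def t3 : Tre :=
  .Q [0,0,0,1,0,0,1,0,0,1,-1] (.p false [0,0,1] [1] (⟨0,[(16,0)]⟩,⟨0,[(15,0)]⟩) .k 1 (⟨0,[]⟩,⟨0,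
  []⟩) .k .k) t1 t2

theorem ok3 : chk (cU (-1) false 10) t3 r1 = true :=
  chk_Q (e' := [0,0,0,-1,0,0,-1,0,0,-1,1]) (by decide +kernel) (by decide +kernel) ok1 ok2

noncomputable def t4 : Tre :=
  .Q [0,-1,0,1,0,0,1,1,0,2,-1] (.p false [-1,1,1] [1] (⟨0,[(0,0)]⟩,⟨0,[(14,0),(2,0)]⟩) .k 1 (⟨0,[]⟩,
  ⟨0,[]⟩) .k .k) t0 t3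

theorem ok4 : chk (cU (-1) false 10) t4 l0 = true :=
  chk_Q (e' := [0,1,0,-1,0,0,-1,-1,0,-2,1]) (by decide +kernel) (by decide +kernel) ok0 ok3

noncomputable def l3 : List Con := (false, [0,0,0,0,0,0,-1,0,0,0,1]) :: r0

noncomputable def r3 : List Con := (false, [0,0,0,0,0,0,1,0,0,0,-1]) :: r0

noncomputable def t5 : Tre :=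
  (.Q [0,1,0,1,0,0,1,1,0,1,-1] (.p false [0,0,1] [1] (⟨0,[(16,0)]⟩,⟨0,[(15,0)]⟩) .k 1 (⟨0,[]⟩,⟨0,
  []⟩) .k .k) (.K ⟨0,[1,-1,-1],0,0,(⟨0,[(2,0)]⟩,⟨0,[(17,0),(2,0)]⟩),.k,(.r (-1) ⟨0,[(15,0),(7,1),(0,
  0)]⟩ ⟨0,[(0,0),(9,0),(10,0),(0,0)]⟩),.k,.k,.k,[⟨1,[(4,0),(11,0),(0,0)]⟩,⟨0,[(1,0)]⟩,⟨0,[(0,0)]⟩,
  ⟨0,[(9,0),(13,0)]⟩]⟩) (.R ⟨2,true,false,true,[0,1],[0,1,1],[0,1,1],(⟨0,[]⟩,⟨0,[]⟩),(⟨0,[(17,0),(2,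
  0)]⟩,⟨0,[(2,0)]⟩),⟨0,[]⟩,.k,.k,.k,.k,.k,.k,⟨true,0,⟨0,[(15,0),(7,0)]⟩,⟨0,[(3,0),(7,0),(9,0)]⟩⟩,
  ⟨false,1,⟨7,[(4,3),(0,0),(0,0),(11,1),(5,3)]⟩,⟨0,[(1,0)]⟩⟩,⟨false,0,⟨0,[(23,0)]⟩,⟨0,[(22,0),(2,
  0)]⟩⟩,⟨true,0,⟨0,[(11,0)]⟩,⟨0,[(1,0),(13,0)]⟩⟩,⟨true,0,⟨0,[(27,0)]⟩,⟨0,[]⟩⟩,⟨false,1,⟨0,[(11,0),
  (10,0),(2,0)]⟩,⟨0,[(0,0),(15,0),(0,0)]⟩⟩,[]⟩))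

theorem ok5 : chk (cU (-1) false 10) t5 l3 = true := by decide +kernel

noncomputable def l4 : List Con := (false, [0,-1,0,-1,0,0,-1,-1,0,0,1]) :: r3

noncomputable def r4 : List Con := (false, [0,1,0,1,0,0,1,1,0,0,-1]) :: r3

noncomputable def t6 : Tre :=
  (.Q [0,1,0,1,0,0,1,1,0,1,-1] (.p false [0,0,1] [1] (⟨0,[(17,0)]⟩,⟨0,[(16,0)]⟩) .k 1 (⟨0,[]⟩,⟨0,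
  []⟩) .k .k) (.K ⟨1,[1,-1,-1],0,0,(⟨0,[(3,0)]⟩,⟨0,[(18,0),(2,0)]⟩),.k,(.r (-1) ⟨0,[(16,0),(7,1),(0,
  0)]⟩ ⟨0,[(0,0),(10,0),(10,0),(0,0)]⟩),.k,.k,.k,[⟨1,[(5,0),(11,0),(0,0)]⟩,⟨1,[(11,1),(2,0),(0,0)]⟩,
  ⟨0,[(0,0)]⟩,⟨0,[(1,0)]⟩]⟩) (.Q [0,0,0,0,0,-1,0,0,0,0,1] (.ed false [1,-1,1] .k) (.Q [0,0,0,-1,0,0,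
  1,1,0,1,-1] (.p false [0,0,1] [1] (⟨0,[(19,0)]⟩,⟨0,[(18,0)]⟩) .k 1 (⟨0,[]⟩,⟨0,[]⟩) .k .k) (.R ⟨2,
  true,false,false,[0,1],[1,1,-1],[0,1,1],(⟨0,[]⟩,⟨0,[]⟩),(⟨0,[(19,0),(3,0)]⟩,⟨0,[(1,0)]⟩),⟨0,[]⟩,
  .k,.k,.k,.k,.k,.k,⟨true,0,⟨0,[(0,0),(1,0),(3,0),(7,0)]⟩,⟨0,[(18,0),(5,0),(0,0)]⟩⟩,⟨false,1,⟨0,
  [(13,0),(13,0)]⟩,⟨1,[(7,0),(11,0),(0,0)]⟩⟩,⟨false,0,⟨0,[(26,0)]⟩,⟨0,[(25,0),(2,0)]⟩⟩,⟨true,0,⟨0,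
  [(2,0),(22,0)]⟩,⟨0,[(0,0),(24,0)]⟩⟩,⟨true,0,⟨0,[(30,0)]⟩,⟨0,[]⟩⟩,⟨false,1,⟨0,[(2,0),(22,1),(2,
  0)]⟩,⟨0,[(0,0)]⟩⟩,[]⟩) (.I [0,0,-1,-1,0,0,0,-1,-1] (.I [0,-1,0,0,0,0,0,0,-1] (.R ⟨1,false,false,
  false,[1,0,0,-1],[1,-1],[1,0,0,0,0,0,0,0,-1],(⟨1,[(12,0),(8,0),(0,0)]⟩,⟨0,[(13,0)]⟩),(⟨0,[(24,
  0)]⟩,⟨0,[(25,0)]⟩),⟨1,[(3,0),(3,0),(4,0)]⟩,.k,.k,(.x 0 ⟨1,[(3,0),(3,0),(7,0),(2,0)]⟩ ⟨3,[(10,0),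
  (0,0),(13,3),(3,1)]⟩),(.r 0 ⟨1,[(0,1),(17,0),(0,0),(7,1)]⟩ ⟨1,[(11,0),(16,1),(0,0)]⟩),.k,.k,
  ⟨false,0,⟨0,[(0,0),(26,0)]⟩,⟨1,[(11,0),(16,1),(0,0)]⟩⟩,⟨true,0,⟨1,[(12,0),(2,0),(2,0)]⟩,⟨0,[(13,
  0)]⟩⟩,⟨true,0,⟨0,[]⟩,⟨0,[(32,0)]⟩⟩,⟨false,1,⟨1,[(4,0),(6,0),(0,0),(3,0),(11,0),(1,0)]⟩,⟨0,[(0,0),
  (12,0),(13,0)]⟩⟩,⟨false,1,⟨0,[(27,0),(2,0)]⟩,⟨0,[(28,0)]⟩⟩,⟨false,1,⟨3,[(11,1),(0,1),(10,0),(2,1),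
  (2,0)]⟩,⟨0,[(0,0),(12,0),(18,0)]⟩⟩,[.o ⟨false,0,⟨0,[(4,0),(11,0)]⟩,⟨3,[(10,0),(0,0),(15,3),(2,
  1)]⟩⟩,.o ⟨false,1,⟨1,[(23,0),(4,1),(1,0)]⟩,⟨0,[(27,0)]⟩⟩,.a ⟨true,0,⟨0,[(13,0)]⟩,⟨1,[(12,0),(8,0),
  (0,0)]⟩⟩ ⟨false,0,⟨0,[(0,0)]⟩,⟨3,[(10,0),(0,2)]⟩⟩ ⟨true,0,⟨1,[(4,0),(7,0),(3,0),(11,0)]⟩,⟨0,[(13,
  0),(13,0)]⟩⟩,.o ⟨false,0,⟨0,[(6,0),(6,0),(1,0)]⟩,⟨7,[(10,0),(0,0),(0,3),(10,1),(5,3)]⟩⟩]⟩) (.K ⟨2,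
  [1,0,0,-1],0,0,(⟨1,[(12,0),(8,0),(0,0)]⟩,⟨0,[(13,0)]⟩),.k,(.r (-1) ⟨1,[(10,0),(17,1),(0,0)]⟩ ⟨0,
  [(0,0),(25,0),(0,0)]⟩),(.r 0 ⟨1,[(1,1),(6,0),(7,1),(2,0),(6,2),(0,2)]⟩ ⟨1,[(11,0),(16,1),(0,0)]⟩),
  .k,.k,[⟨1,[(9,0),(2,0)]⟩,⟨0,[(6,0),(6,0)]⟩,⟨1,[(9,0),(2,0),(6,1)]⟩,⟨0,[(6,0),(6,0),(1,0)]⟩,⟨1,[(0,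
  1),(11,0),(8,0),(0,0)]⟩,⟨1,[(1,1),(0,0),(5,0),(4,1),(1,0),(0,2),(9,0)]⟩]⟩)) (.Q [0,-1,0,0,0,0,0,0,
  1,0,0,-1] (.p false [0,0,0,1] [] (⟨0,[(12,0)]⟩,⟨1,[(11,0),(8,0),(0,0)]⟩) .k 0 (⟨0,[]⟩,⟨0,[]⟩) .k
  .k) (.I [0,0,-1,-1,0,0,0,0,1] (.R ⟨1,false,false,false,[1,0,0,-1],[1,-1],[1,0,0,0,0,0,0,0,-1],(⟨1,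
  [(13,0),(8,0),(0,0)]⟩,⟨0,[(14,0)]⟩),(⟨0,[(25,0)]⟩,⟨0,[(26,0)]⟩),⟨1,[(4,0),(3,0),(4,0)]⟩,.k,.k,(.r
  (-1) ⟨1,[(11,0),(17,1),(0,0)]⟩ ⟨0,[(2,0),(18,0)]⟩),(.r (-1) ⟨9,[(2,3),(8,6),(6,3),(0,3),(7,1),(0,
  5),(2,2)]⟩ ⟨0,[(0,0)]⟩),.k,.k,⟨false,1,⟨1,[(11,0),(16,1),(2,0)]⟩,⟨0,[(0,0)]⟩⟩,⟨true,0,⟨1,[(13,0),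
  (2,0),(2,0)]⟩,⟨0,[(14,0)]⟩⟩,⟨true,0,⟨0,[]⟩,⟨0,[(33,0)]⟩⟩,⟨false,0,⟨0,[(1,0),(27,0)]⟩,⟨1,[(11,0),
  (2,1),(13,1),(2,0)]⟩⟩,⟨false,1,⟨0,[(28,0),(2,0)]⟩,⟨0,[(29,0)]⟩⟩,⟨false,0,⟨0,[(1,0)]⟩,⟨3,[(11,2),
  (0,0),(1,3)]⟩⟩,[.o ⟨false,0,⟨0,[(5,0),(11,0)]⟩,⟨3,[(11,0),(0,0),(15,3),(2,1)]⟩⟩,.o ⟨false,1,⟨1,
  [(24,0),(4,1),(1,0)]⟩,⟨0,[(28,0)]⟩⟩,.a ⟨true,0,⟨0,[(14,0)]⟩,⟨1,[(13,0),(8,0),(0,0)]⟩⟩ ⟨false,1,⟨1,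
  [(11,0),(19,0)]⟩,⟨1,[(0,0),(1,0),(18,0)]⟩⟩ ⟨true,0,⟨1,[(5,0),(7,0),(3,0),(11,0)]⟩,⟨0,[(14,0),(13,
  0)]⟩⟩,.o ⟨false,0,⟨0,[(7,0),(6,0),(1,0)]⟩,⟨7,[(11,0),(0,0),(0,3),(10,1),(5,3)]⟩⟩]⟩) (.R ⟨1,false,
  false,true,[1,0,0,-1],[0,-1,1],[0,0,0,-1,0,0,0,0,-1],(⟨1,[(13,0),(8,0),(0,0)]⟩,⟨0,[(14,0)]⟩),(⟨0,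
  [(4,0)]⟩,⟨0,[(22,0),(3,0)]⟩),⟨1,[(4,0),(3,0),(4,0)]⟩,.k,.k,(.r (-1) ⟨1,[(11,0),(17,1),(0,0)]⟩ ⟨0,
  [(2,0),(18,0)]⟩),(.r 0 ⟨0,[(0,0),(20,0)]⟩ ⟨0,[(2,0),(26,1),(0,0)]⟩),.k,.k,⟨true,0,⟨1,[(0,1),(4,0),
  (0,0),(3,0)]⟩,⟨0,[(1,0),(7,0),(4,0),(2,0),(11,0)]⟩⟩,⟨false,0,⟨1,[(10,0),(2,0)]⟩,⟨0,[(14,0),(1,0),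
  (13,0)]⟩⟩,⟨true,0,⟨0,[(29,0)]⟩,⟨0,[(28,0)]⟩⟩,⟨false,0,⟨0,[(1,0),(15,0),(4,0),(0,0),(5,0)]⟩,⟨1,[(3,
  1),(7,0),(2,1),(16,0)]⟩⟩,⟨false,1,⟨3,[(11,0),(0,0),(18,1)]⟩,⟨0,[]⟩⟩,⟨false,0,⟨0,[(1,0),(15,0),(4,
  0),(0,0)]⟩,⟨3,[(3,1),(2,1),(4,1),(2,3),(9,0),(6,0)]⟩⟩,[.o ⟨false,0,⟨0,[(17,0),(11,0)]⟩,⟨3,[(3,3),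
  (7,0),(0,0),(18,1)]⟩⟩,.o ⟨false,1,⟨3,[(11,0),(0,0),(4,3),(11,3),(1,1)]⟩,⟨0,[(3,0)]⟩⟩,.a ⟨true,0,
  ⟨0,[(14,0)]⟩,⟨1,[(13,0),(8,0),(0,0)]⟩⟩ ⟨false,1,⟨1,[(11,0),(17,1),(1,0)]⟩,⟨0,[(1,0),(12,0),(13,
  0)]⟩⟩ ⟨true,0,⟨1,[(13,0),(3,1),(4,0),(0,0),(5,1)]⟩,⟨0,[(3,0),(10,0)]⟩⟩,.o ⟨false,0,⟨0,[(7,0),(6,
  0),(1,0)]⟩,⟨7,[(11,0),(0,0),(0,3),(10,1),(5,3)]⟩⟩]⟩)) (.Q [0,1,0,0,0,0,0,0,1,0,0,-1] (.p false [0,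
  0,0,1] [] (⟨0,[(13,0)]⟩,⟨1,[(12,0),(8,0),(0,0)]⟩) .k 0 (⟨0,[]⟩,⟨0,[]⟩) .k .k) (.K ⟨2,[0,0,0,1],0,
  0,(⟨0,[(14,0)]⟩,⟨1,[(13,0),(8,0),(0,0)]⟩),.k,(.r (-1) ⟨1,[(12,0),(16,1),(0,0)]⟩ ⟨1,[(1,1),(1,0),
  (9,0),(3,0),(9,1),(0,0)]⟩),(.r 0 ⟨0,[(2,0),(18,0)]⟩ ⟨1,[(11,0),(17,1),(0,0)]⟩),.k,.k,[⟨0,[(7,0),
  (6,0)]⟩,⟨1,[(10,0),(2,0)]⟩,⟨1,[(14,1),(4,0),(0,0)]⟩,⟨1,[(13,0),(2,0),(2,0)]⟩,⟨0,[(1,0)]⟩,⟨0,[(0,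
  0)]⟩]⟩) (.R ⟨1,false,false,false,[1,0,0,-1],[1,-1],[1,1,0,0,0,0,0,0,-1],(⟨1,[(13,0),(8,0),(0,0)]⟩,
  ⟨0,[(14,0)]⟩),(⟨0,[(25,0)]⟩,⟨0,[(26,0)]⟩),⟨1,[(4,0),(3,0),(4,0)]⟩,.k,.k,(.r (-1) ⟨1,[(11,0),(17,
  1),(0,0)]⟩ ⟨0,[(2,0),(18,0)]⟩),(.r 0 ⟨1,[(0,1),(12,0),(2,0),(2,0),(8,1)]⟩ ⟨1,[(12,0),(16,1),(0,
  0)]⟩),.k,.k,⟨false,0,⟨1,[(0,0),(0,0),(1,0),(9,0),(3,0),(10,0)]⟩,⟨1,[(2,1),(2,0),(0,0),(3,0),(18,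
  1),(0,1)]⟩⟩,⟨true,0,⟨1,[(13,0),(2,0),(2,0)]⟩,⟨0,[(14,0)]⟩⟩,⟨false,0,⟨0,[]⟩,⟨3,[(11,0),(0,0),(18,
  1)]⟩⟩,⟨false,1,⟨1,[(5,0),(6,0),(0,0),(3,0),(11,0),(1,0)]⟩,⟨0,[(0,0),(27,0)]⟩⟩,⟨true,0,⟨0,[(28,
  0)]⟩,⟨0,[(29,0)]⟩⟩,⟨false,1,⟨3,[(12,1),(0,1),(10,0),(2,1),(2,0)]⟩,⟨1,[(0,0),(0,0)]⟩⟩,[.o ⟨false,0,
  ⟨0,[(5,0),(11,0)]⟩,⟨3,[(11,0),(0,0),(15,3),(2,1)]⟩⟩,.o ⟨false,1,⟨1,[(24,0),(4,1),(1,0)]⟩,⟨0,[(28,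
  0)]⟩⟩,.a ⟨true,0,⟨0,[(14,0)]⟩,⟨1,[(13,0),(8,0),(0,0)]⟩⟩ ⟨false,0,⟨7,[(0,4),(0,2),(1,1),(1,1),(7,
  3),(3,3)]⟩,⟨1,[(12,0),(18,0)]⟩⟩ ⟨true,0,⟨1,[(5,0),(7,0),(3,0),(11,0)]⟩,⟨0,[(14,0),(13,0)]⟩⟩,.o
  ⟨false,0,⟨0,[(7,0),(6,0),(1,0)]⟩,⟨7,[(11,0),(0,0),(0,3),(10,1),(5,3)]⟩⟩]⟩))))) (.Q [0,0,0,0,0,0,
  -1,0,0,1,1] (.p true [1,-1,1] [] (⟨0,[(19,0),(1,0)]⟩,⟨0,[(0,0)]⟩) .k 0 (⟨0,[]⟩,⟨0,[]⟩) .k .k) (.R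
  ⟨0,false,false,true,[0,1,-1],[0,1],[1,1,2,1],(⟨0,[(1,0)]⟩,⟨0,[(20,0),(1,0)]⟩),(⟨0,[(23,0)]⟩,⟨0,
  [(22,0)]⟩),⟨0,[(20,0)]⟩,.k,.k,.k,.k,.k,.k,⟨false,0,⟨0,[]⟩,⟨3,[(8,0),(0,0),(17,1)]⟩⟩,⟨true,0,⟨0,
  [(4,0)]⟩,⟨0,[(17,0)]⟩⟩,⟨false,0,⟨1,[(0,0),(12,0),(0,1),(9,0)]⟩,⟨1,[(18,1),(8,0),(0,0)]⟩⟩,⟨true,0,
  ⟨0,[(14,0)]⟩,⟨1,[(3,0),(2,0),(11,0)]⟩⟩,⟨false,0,⟨0,[]⟩,⟨0,[]⟩⟩,⟨false,0,⟨0,[]⟩,⟨0,[]⟩⟩,[.o ⟨false,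
  0,⟨0,[(25,0)]⟩,⟨1,[(21,0),(4,1),(1,0)]⟩⟩,.o ⟨false,1,⟨3,[(8,0),(0,0),(15,3),(2,1)]⟩,⟨0,[(2,0),(11,
  0)]⟩⟩,.o ⟨false,1,⟨1,[(0,1),(20,0),(5,0)]⟩,⟨0,[(4,1),(8,0)]⟩⟩,.a ⟨true,0,⟨0,[(0,0)]⟩,⟨0,[(4,0)]⟩⟩
  ⟨false,0,⟨3,[(16,0),(0,0),(6,1),(0,3)]⟩,⟨1,[(26,1),(0,0),(0,0)]⟩⟩ ⟨true,0,⟨0,[(4,0),(20,0)]⟩,⟨0,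
  [(0,0),(1,0),(11,0)]⟩⟩]⟩) (.Q [0,0,0,0,0,0,1,1,-1,0,-1,1] (.p false [0,0,1] [0,0,0,1] (⟨0,[(20,
  0)]⟩,⟨0,[(19,0)]⟩) .k 2 (⟨0,[(11,0)]⟩,⟨1,[(10,0),(8,0),(0,0)]⟩) .k (.x 0 ⟨2,[(0,0),(6,0),(12,2)]⟩
  ⟨3,[(1,1),(3,1),(2,0),(0,0),(3,1),(3,1),(9,1)]⟩)) (.Q [0,0,0,1,0,0,1,1,-1,0,-1,1] (.p false [0,0,
  1] [0,0,0,1] (⟨0,[(21,0)]⟩,⟨0,[(20,0)]⟩) .k 2 (⟨0,[(12,0)]⟩,⟨1,[(11,0),(8,0),(0,0)]⟩) .k (.x 0 ⟨2,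
  [(1,0),(6,0),(12,2)]⟩ ⟨3,[(2,1),(3,1),(2,0),(0,0),(3,1),(3,1),(9,1)]⟩)) (.Q [0,0,0,0,0,-1,0,0,0,1,
  0,-1] (.p false [0,0,0,1] [1] (⟨0,[(13,0)]⟩,⟨1,[(12,0),(8,0),(0,0)]⟩) .k 1 (⟨0,[]⟩,⟨0,[]⟩) .k .k)
  (.R ⟨1,false,false,false,[1,0,0,-1],[1,-1],[1,0,0,0,0,0,0,0,-1],(⟨1,[(13,0),(8,0),(0,0)]⟩,⟨0,[(14,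
  0)]⟩),(⟨0,[(25,0)]⟩,⟨0,[(26,0)]⟩),⟨0,[(0,0)]⟩,.k,.k,(.x 0 ⟨2,[(3,0),(12,1),(2,0),(5,2)]⟩ ⟨3,[(11,
  0),(0,0),(13,3),(3,1)]⟩),(.r 0 ⟨5,[(1,5),(11,2),(2,2),(1,3),(0,0),(1,1),(5,1)]⟩ ⟨1,[(12,0),(16,1),
  (0,0)]⟩),.k,.k,⟨false,0,⟨1,[(1,1),(3,0),(3,0),(3,0),(7,0)]⟩,⟨1,[(12,0),(16,1),(0,0)]⟩⟩,⟨true,0,⟨1,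
  [(13,0),(2,0),(2,0)]⟩,⟨0,[(14,0)]⟩⟩,⟨true,0,⟨0,[]⟩,⟨0,[(33,0)]⟩⟩,⟨false,1,⟨1,[(5,0),(6,0),(0,0),
  (3,0),(11,0),(1,0)]⟩,⟨1,[(1,1),(4,0),(2,0),(11,0)]⟩⟩,⟨false,1,⟨0,[(28,0),(2,0)]⟩,⟨0,[(29,0)]⟩⟩,
  ⟨false,1,⟨3,[(12,1),(0,1),(10,0),(2,1),(2,0)]⟩,⟨1,[(1,0),(0,0),(3,0),(11,0)]⟩⟩,[.o ⟨false,0,⟨0,
  [(5,0),(11,0)]⟩,⟨3,[(11,0),(0,0),(15,3),(2,1)]⟩⟩,.o ⟨false,1,⟨1,[(24,0),(4,1),(1,0)]⟩,⟨0,[(28,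
  0)]⟩⟩,.a ⟨true,0,⟨0,[(14,0)]⟩,⟨1,[(13,0),(8,0),(0,0)]⟩⟩ ⟨false,0,⟨1,[(1,1),(3,0),(0,0),(6,0)]⟩,⟨3,
  [(11,0),(0,2)]⟩⟩ ⟨true,0,⟨1,[(5,0),(7,0),(3,0),(11,0)]⟩,⟨0,[(14,0),(13,0)]⟩⟩,.o ⟨false,0,⟨2,[(3,
  0),(10,2),(1,1),(2,0)]⟩,⟨7,[(11,0),(0,0),(0,3),(10,1),(5,3)]⟩⟩]⟩) (.R ⟨0,false,false,true,[0,0,0,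
  1],[0,0,1],[0,0,0,-1,0,0,0,0,1],(⟨0,[(14,0)]⟩,⟨1,[(13,0),(8,0),(0,0)]⟩),(⟨0,[(23,0)]⟩,⟨0,[(22,
  0)]⟩),⟨0,[(0,0),(12,0)]⟩,.k,.k,(.r (-1) ⟨1,[(12,0),(16,1),(0,0)]⟩ ⟨5,[(1,5),(11,2),(2,2),(1,3),(0,
  0),(1,1),(5,1)]⟩),.k,.k,.k,⟨false,1,⟨1,[(5,0),(0,0),(3,0),(1,0),(17,0)]⟩,⟨1,[(1,0),(0,0),(2,0),(3,
  1),(3,0),(3,0)]⟩⟩,⟨true,0,⟨2,[(3,0),(6,0),(3,2)]⟩,⟨1,[(13,0),(2,0),(3,0)]⟩⟩,⟨true,0,⟨0,[(29,0)]⟩,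
  ⟨0,[(28,0)]⟩⟩,⟨false,0,⟨0,[(2,0)]⟩,⟨1,[(5,0),(3,0),(2,0),(0,0),(7,0),(9,0)]⟩⟩,⟨false,0,⟨0,[]⟩,⟨0,
  []⟩⟩,⟨false,0,⟨0,[]⟩,⟨0,[]⟩⟩,[.o ⟨false,0,⟨0,[(17,0)]⟩,⟨0,[(15,0),(15,0)]⟩⟩,.o ⟨false,1,⟨3,[(11,
  0),(0,0),(4,3),(13,1)]⟩,⟨0,[(5,0),(22,0)]⟩⟩,.a ⟨true,0,⟨1,[(13,0),(8,0),(0,0)]⟩,⟨0,[(14,0)]⟩⟩
  ⟨false,1,⟨1,[(12,0),(16,1),(1,0)]⟩,⟨1,[(1,1),(3,0),(3,0),(3,0),(7,0)]⟩⟩ ⟨true,0,⟨0,[(14,0),(2,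
  0)]⟩,⟨1,[(5,0),(3,0),(3,0),(7,0)]⟩⟩,.o ⟨false,0,⟨1,[(13,0),(2,0),(2,0)]⟩,⟨1,[(14,1),(9,0),(5,
  0)]⟩⟩]⟩)) (.R ⟨1,true,false,true,[1,0,-1],[1,0,0,-1],[1,0,0,0,0,0,0,-1],(⟨0,[(21,0)]⟩,⟨0,[(22,
  0)]⟩),(⟨1,[(12,0),(8,0),(0,0)]⟩,⟨0,[(13,0)]⟩),⟨0,[(7,0)]⟩,.k,.k,.k,.k,(.r (-1) ⟨1,[(11,0),(8,1),
  (7,1),(0,0)]⟩ ⟨1,[(1,1),(6,0),(3,0),(2,0),(10,0),(0,0)]⟩),.k,⟨false,1,⟨2,[(0,2),(1,0),(6,0),(3,2),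
  (12,2),(0,2),(1,2)]⟩,⟨1,[(1,1),(2,0),(3,1),(3,0),(3,0),(11,0)]⟩⟩,⟨true,0,⟨2,[(2,0),(6,0),(3,2)]⟩,
  ⟨1,[(12,0),(2,0),(3,0)]⟩⟩,⟨true,0,⟨0,[]⟩,⟨0,[(32,0)]⟩⟩,⟨false,0,⟨0,[(1,0)]⟩,⟨0,[(0,0),(26,0),(2,
  0)]⟩⟩,⟨false,1,⟨0,[(27,0),(2,0)]⟩,⟨0,[(28,0)]⟩⟩,⟨true,0,⟨0,[(1,0),(25,0)]⟩,⟨0,[(0,0)]⟩⟩,[]⟩)) (.Q
  [0,1,0,0,0,0,0,0,-1,0,0,1] (.p true [0,0,0,1] [] (⟨0,[(12,0)]⟩,⟨1,[(11,0),(8,0),(0,0)]⟩) .k 0 (⟨0,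
  []⟩,⟨0,[]⟩) .k .k) (.K ⟨2,[0,0,0,1],0,0,(⟨0,[(13,0)]⟩,⟨1,[(12,0),(8,0),(0,0)]⟩),.k,(.r (-1) ⟨1,
  [(11,0),(16,1),(0,0)]⟩ ⟨1,[(0,1),(1,0),(5,0),(3,0),(13,1),(0,0)]⟩),(.r 0 ⟨0,[(1,0),(11,0),(2,0),
  (9,0),(0,0)]⟩ ⟨1,[(10,0),(17,1),(0,0)]⟩),.k,.k,[⟨2,[(2,0),(6,0),(3,2)]⟩,⟨1,[(9,0),(2,0)]⟩,⟨1,[(13,
  1),(4,0),(0,0)]⟩,⟨1,[(12,0),(2,0),(2,0)]⟩,⟨0,[(0,0)]⟩,⟨0,[(1,0),(14,0)]⟩]⟩) (.Q [0,0,0,0,0,-1,0,0,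
  0,1,0,-1] (.p false [0,0,0,1] [1] (⟨0,[(13,0)]⟩,⟨1,[(12,0),(8,0),(0,0)]⟩) .k 1 (⟨0,[]⟩,⟨0,[]⟩) .k
  .k) (.Q [0,0,0,1,0,0,1,1,1,1,-1,-1] (.p false [0,0,1] [1,0,0,-1] (⟨0,[(23,0)]⟩,⟨0,[(22,0)]⟩) .k 2
  (⟨1,[(13,0),(8,0),(0,0)]⟩,⟨0,[(14,0)]⟩) .k (.x 0 ⟨2,[(3,0),(6,0),(12,2)]⟩ ⟨3,[(4,1),(3,1),(2,0),
  (0,0),(3,1),(3,1),(9,1)]⟩)) (.R ⟨1,false,false,true,[1,0,0,-1],[0,0,1],[0,0,0,-1,0,0,0,0,-1],(⟨1,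
  [(14,0),(8,0),(0,0)]⟩,⟨0,[(15,0)]⟩),(⟨0,[(24,0)]⟩,⟨0,[(23,0)]⟩),⟨0,[(1,0)]⟩,.k,.k,(.r (-1) ⟨1,
  [(12,0),(17,1),(0,0)]⟩ ⟨4,[(0,1),(1,0),(0,1),(11,4),(1,1),(2,1),(7,0),(0,2)]⟩),.k,(.r (-1) ⟨1,
  [(12,0),(9,1),(7,1),(0,0)]⟩ ⟨0,[(0,0),(14,0),(1,0)]⟩),.k,⟨false,1,⟨1,[(6,0),(0,0),(3,0),(0,0),(18,
  0)]⟩,⟨0,[(2,0),(7,0),(4,0),(2,0)]⟩⟩,⟨true,0,⟨1,[(11,0),(2,0)]⟩,⟨0,[(15,0),(1,0)]⟩⟩,⟨true,0,⟨0,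
  [(30,0)]⟩,⟨0,[(29,0)]⟩⟩,⟨false,0,⟨0,[(0,0),(29,0)]⟩,⟨1,[(6,1),(5,0),(2,1),(13,1),(2,0)]⟩⟩,⟨false,
  1,⟨3,[(12,0),(0,0),(18,1)]⟩,⟨0,[]⟩⟩,⟨false,0,⟨0,[(0,0)]⟩,⟨1,[(7,1),(4,0),(2,1),(9,0)]⟩⟩,[.o
  ⟨false,0,⟨0,[(18,0)]⟩,⟨0,[(16,0),(15,0)]⟩⟩,.o ⟨false,1,⟨3,[(12,0),(0,0),(4,3),(13,1)]⟩,⟨0,[(6,0),
  (22,0)]⟩⟩,.a ⟨true,0,⟨0,[(15,0)]⟩,⟨1,[(14,0),(8,0),(0,0)]⟩⟩ ⟨false,1,⟨1,[(12,0),(17,1),(1,0)]⟩,⟨0,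
  [(2,0),(12,0),(13,0)]⟩⟩ ⟨true,0,⟨1,[(14,0),(3,1),(4,0),(0,0)]⟩,⟨0,[(6,0),(8,0),(13,0)]⟩⟩,.o
  ⟨false,0,⟨2,[(4,0),(10,2),(1,1),(2,0)]⟩,⟨7,[(12,0),(0,0),(0,3),(10,1),(5,3)]⟩⟩]⟩) (.R ⟨2,true,
  false,true,[0,1],[1,0,0,-1],[1,1,1,1],(⟨0,[]⟩,⟨0,[]⟩),(⟨1,[(14,0),(8,0),(0,0)]⟩,⟨0,[(15,0)]⟩),⟨0,
  []⟩,.k,.k,.k,(.r 0 ⟨1,[(2,1),(12,1),(4,0),(0,0),(7,1)]⟩ ⟨1,[(12,0),(17,1),(0,0)]⟩),.k,.k,⟨false,0,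
  ⟨0,[(2,0),(12,0),(13,0)]⟩,⟨1,[(12,0),(17,1),(0,0)]⟩⟩,⟨true,0,⟨2,[(4,0),(10,2),(1,1),(2,0)]⟩,⟨1,
  [(14,0),(8,0),(0,0)]⟩⟩,⟨false,0,⟨0,[]⟩,⟨3,[(12,0),(0,0),(18,1)]⟩⟩,⟨true,0,⟨0,[(0,0),(17,0)]⟩,⟨1,
  [(2,1),(7,1),(0,0),(11,0),(0,0)]⟩⟩,⟨true,0,⟨0,[(29,0)]⟩,⟨0,[(30,0)]⟩⟩,⟨false,1,⟨1,[(12,0),(2,1),
  (9,0)]⟩,⟨0,[(2,0),(20,0),(0,0)]⟩⟩,[]⟩)) (.R ⟨0,false,false,true,[1,0,0,-1],[0,0,1],[0,0,0,-1,0,0,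
  0,0,-1],(⟨1,[(13,0),(8,0),(0,0)]⟩,⟨0,[(14,0)]⟩),(⟨0,[(23,0)]⟩,⟨0,[(22,0)]⟩),⟨0,[(0,0)]⟩,.k,.k,(.r
  (-1) ⟨1,[(11,0),(17,1),(0,0)]⟩ ⟨1,[(1,1),(12,1),(4,0),(0,0),(7,1)]⟩),.k,.k,.k,⟨false,1,⟨1,[(5,0),
  (0,0),(3,0),(0,0),(18,0)]⟩,⟨0,[(1,0),(7,0),(4,0),(2,0)]⟩⟩,⟨true,0,⟨1,[(10,0),(2,0)]⟩,⟨0,[(14,0),
  (1,0)]⟩⟩,⟨true,0,⟨0,[(29,0)]⟩,⟨0,[(28,0)]⟩⟩,⟨false,0,⟨0,[(1,0),(15,0),(4,0),(0,0)]⟩,⟨1,[(5,1),(5,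
  0),(2,1),(13,1),(2,0)]⟩⟩,⟨false,0,⟨0,[]⟩,⟨0,[]⟩⟩,⟨false,0,⟨0,[]⟩,⟨0,[]⟩⟩,[.o ⟨false,0,⟨0,[(17,
  0)]⟩,⟨0,[(15,0),(15,0)]⟩⟩,.o ⟨false,1,⟨3,[(11,0),(0,0),(4,3),(13,1)]⟩,⟨0,[(5,0),(22,0)]⟩⟩,.a
  ⟨true,0,⟨0,[(14,0)]⟩,⟨1,[(13,0),(8,0),(0,0)]⟩⟩ ⟨false,1,⟨1,[(11,0),(17,1),(1,0)]⟩,⟨0,[(1,0),(12,
  0),(13,0)]⟩⟩ ⟨true,0,⟨1,[(13,0),(3,1),(4,0),(0,0)]⟩,⟨0,[(5,0),(8,0),(13,0)]⟩⟩,.o ⟨false,0,⟨2,[(3,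
  0),(10,2),(1,1),(2,0)]⟩,⟨7,[(11,0),(0,0),(0,3),(10,1),(5,3)]⟩⟩]⟩)))))))

theorem ok6 : chk (cU (-1) false 10) t6 l4 = true := by decide +kernel

noncomputable def l5 : List Con := (false, [0,0,0,-1,0,0,1,1,0,0,-1]) :: r4

noncomputable def r5 : List Con := (false, [0,0,0,1,0,0,-1,-1,0,0,1]) :: r4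

noncomputable def t7 : Tre :=
  (.Q [0,0,0,0,0,0,-1,-1,0,0,1] (.p true [0,0,1] [] (⟨0,[(18,0)]⟩,⟨0,[(17,0)]⟩) .k 0 (⟨0,[]⟩,⟨0,
  []⟩) .k .k) (.R ⟨2,true,false,true,[0,1],[0,0,1],[0,0,1],(⟨0,[]⟩,⟨0,[]⟩),(⟨0,[(19,0)]⟩,⟨0,[(18,
  0)]⟩),⟨0,[]⟩,.k,.k,.k,.k,.k,.k,⟨true,0,⟨2,[(14,0),(0,0),(1,1),(5,1)]⟩,⟨0,[(1,0),(3,0)]⟩⟩,⟨false,0,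
  ⟨0,[(3,0)]⟩,⟨0,[(16,0),(9,0)]⟩⟩,⟨true,0,⟨0,[(25,0)]⟩,⟨0,[(24,0)]⟩⟩,⟨false,0,⟨0,[(1,0)]⟩,⟨0,[(0,0),
  (23,0),(2,0)]⟩⟩,⟨false,1,⟨3,[(7,0),(0,0),(18,1)]⟩,⟨0,[]⟩⟩,⟨true,0,⟨0,[(13,0)]⟩,⟨0,[(0,0)]⟩⟩,[]⟩)
  (.Q [0,0,0,1,0,0,0,0,0,1] (.pp false [-1,1]) (.R ⟨1,false,false,true,[1,0,-1],[1,-1],[1,0,0,0,0,0,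
  0,-1],(⟨0,[(19,0)]⟩,⟨0,[(20,0)]⟩),(⟨0,[(22,0)]⟩,⟨0,[(23,0)]⟩),⟨0,[(5,0)]⟩,.k,.k,.k,.k,.k,.k,⟨true,
  0,⟨0,[(18,0),(5,0),(0,0)]⟩,⟨0,[(2,0),(3,0),(19,0)]⟩⟩,⟨false,0,⟨0,[(4,0)]⟩,⟨0,[(17,0),(9,0)]⟩⟩,
  ⟨true,0,⟨0,[]⟩,⟨0,[(30,0)]⟩⟩,⟨false,0,⟨0,[(2,0)]⟩,⟨0,[(6,0),(11,0),(9,0)]⟩⟩,⟨false,1,⟨0,[(25,0),
  (2,0)]⟩,⟨0,[(26,0)]⟩⟩,⟨false,0,⟨0,[(1,0)]⟩,⟨0,[(15,0),(12,0)]⟩⟩,[.o ⟨false,0,⟨0,[(2,0),(9,0)]⟩,⟨0,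
  [(25,0),(2,0)]⟩⟩,.a ⟨true,0,⟨0,[(26,0)]⟩,⟨0,[(0,0)]⟩⟩ ⟨false,1,⟨1,[(18,1),(8,0),(0,0)]⟩,⟨0,[(2,0),
  (3,0)]⟩⟩ ⟨true,0,⟨0,[(4,0),(21,0)]⟩,⟨0,[(0,0),(12,0)]⟩⟩,.o ⟨false,1,⟨3,[(8,0),(0,0),(3,3),(13,
  1)]⟩,⟨0,[(4,0)]⟩⟩,.o ⟨false,0,⟨0,[(13,0)]⟩,⟨7,[(7,3),(0,0),(0,0),(11,1),(5,3)]⟩⟩]⟩) (.Q [0,0,0,-1,
  0,0,-1,-1,0,0,1] (.p true [0,0,1] [] (⟨0,[(20,0)]⟩,⟨0,[(19,0)]⟩) .k 0 (⟨0,[]⟩,⟨0,[]⟩) .k .k) (.R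
  ⟨2,true,false,true,[0,1],[0,1,1],[0,0,1],(⟨0,[]⟩,⟨0,[]⟩),(⟨0,[(21,0),(2,0)]⟩,⟨0,[(6,0)]⟩),⟨0,[]⟩,
  .k,.k,.k,.k,.k,.k,⟨false,1,⟨5,[(0,3),(0,1),(6,1),(10,1),(8,2),(0,2)]⟩,⟨0,[(2,0),(4,0)]⟩⟩,⟨true,0,
  ⟨0,[(5,0)]⟩,⟨0,[(18,0)]⟩⟩,⟨true,0,⟨0,[(27,0)]⟩,⟨0,[(26,0)]⟩⟩,⟨false,0,⟨0,[(2,0)]⟩,⟨0,[(16,0),(12,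
  0)]⟩⟩,⟨false,1,⟨3,[(9,0),(0,0),(18,1)]⟩,⟨0,[]⟩⟩,⟨true,0,⟨0,[(4,0)]⟩,⟨0,[(0,0)]⟩⟩,[]⟩) (.Q [0,1,0,
  0,0,0,0,0,-1,0,0,1] (.p true [0,0,0,1] [] (⟨0,[(12,0)]⟩,⟨1,[(11,0),(8,0),(0,0)]⟩) .k 0 (⟨0,[]⟩,⟨0,
  []⟩) .k .k) (.Q [0,1,0,0,0,0,0,0,1,0,0,-1] (.p false [0,0,0,1] [] (⟨0,[(13,0)]⟩,⟨1,[(12,0),(8,0),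
  (0,0)]⟩) .k 0 (⟨0,[]⟩,⟨0,[]⟩) .k .k) (.K ⟨2,[0,0,0,1],0,0,(⟨0,[(14,0)]⟩,⟨1,[(13,0),(8,0),(0,0)]⟩),
  .k,(.r (-1) ⟨1,[(12,0),(16,1),(0,0)]⟩ ⟨1,[(1,1),(0,0),(10,0),(1,0),(11,1),(0,0)]⟩),(.r 0 ⟨0,[(0,
  0),(13,0),(12,0),(0,0)]⟩ ⟨1,[(11,0),(17,1),(0,0)]⟩),.k,.k,[⟨0,[(7,0),(6,0)]⟩,⟨1,[(10,0),(2,0)]⟩,
  ⟨1,[(14,1),(4,0),(0,0)]⟩,⟨1,[(13,0),(2,0),(2,0)]⟩,⟨0,[(1,0)]⟩,⟨0,[(0,0)]⟩]⟩) (.Q [0,0,0,0,0,1,0,0,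
  0,0,0,-1] (.p false [0,0,0,1] [] (⟨0,[(14,0)]⟩,⟨1,[(13,0),(8,0),(0,0)]⟩) .k 0 (⟨0,[]⟩,⟨0,[]⟩) .k
  .k) (.R ⟨0,false,false,false,[0,0,0,1],[0,0,1],[1,0,0,0,0,0,0,0,1],(⟨0,[(15,0)]⟩,⟨1,[(14,0),(8,0),
  (0,0)]⟩),(⟨0,[(24,0)]⟩,⟨0,[(23,0)]⟩),⟨0,[(0,0)]⟩,.k,.k,(.r (-1) ⟨1,[(13,0),(16,1),(0,0)]⟩ ⟨1,[(1,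
  1),(12,0),(2,0),(2,0),(8,1)]⟩),.k,.k,.k,⟨false,1,⟨1,[(13,0),(8,1),(8,0)]⟩,⟨1,[(1,1),(2,0),(0,0),
  (0,0),(3,1),(3,0)]⟩⟩,⟨true,0,⟨0,[(8,0),(6,0)]⟩,⟨1,[(14,0),(2,0),(3,0)]⟩⟩,⟨true,0,⟨0,[]⟩,⟨0,[(34,
  0)]⟩⟩,⟨false,0,⟨0,[(1,0),(3,0)]⟩,⟨1,[(13,0),(0,0),(1,0),(2,0),(12,0)]⟩⟩,⟨false,0,⟨0,[]⟩,⟨0,[]⟩⟩,
  ⟨false,0,⟨0,[]⟩,⟨0,[]⟩⟩,[.o ⟨false,0,⟨0,[(5,0)]⟩,⟨1,[(19,1),(5,0),(6,0)]⟩⟩,.o ⟨false,1,⟨3,[(5,3),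
  (6,0),(0,0),(18,1)]⟩,⟨0,[(16,0)]⟩⟩,.a ⟨true,0,⟨1,[(14,0),(8,0),(0,0)]⟩,⟨0,[(15,0)]⟩⟩ ⟨false,1,⟨1,
  [(13,0),(18,0)]⟩,⟨3,[(1,2),(0,0),(1,0),(2,0),(6,1),(1,0)]⟩⟩ ⟨true,0,⟨0,[(5,0),(9,0)]⟩,⟨1,[(14,0),
  (1,0),(2,0)]⟩⟩,.o ⟨false,0,⟨1,[(14,0),(2,0),(2,0)]⟩,⟨1,[(15,1),(9,0),(5,0)]⟩⟩]⟩) (.R ⟨1,false,
  false,false,[0,0,0,1],[0,0,1],[0,0,0,-1,0,0,0,0,1],(⟨0,[(15,0)]⟩,⟨1,[(14,0),(8,0),(0,0)]⟩),(⟨0,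
  [(24,0)]⟩,⟨0,[(23,0)]⟩),⟨0,[(0,0)]⟩,.k,.k,(.r (-1) ⟨1,[(13,0),(16,1),(0,0)]⟩ ⟨1,[(1,1),(12,0),(2,
  0),(2,0),(8,1)]⟩),.k,(.r (-1) ⟨1,[(13,0),(8,1),(7,1),(0,0)]⟩ ⟨1,[(1,1),(5,1),(6,0),(2,0),(3,0)]⟩),
  .k,⟨false,1,⟨1,[(13,0),(8,1),(7,1),(0,0)]⟩,⟨1,[(1,1),(1,0),(0,0),(0,0),(4,1),(3,0)]⟩⟩,⟨true,0,⟨0,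
  [(8,0),(6,0)]⟩,⟨1,[(14,0),(2,0),(3,0)]⟩⟩,⟨true,0,⟨0,[(30,0)]⟩,⟨0,[(29,0)]⟩⟩,⟨false,0,⟨0,[(1,0),(3,
  0)]⟩,⟨1,[(13,0),(0,0),(1,0),(2,0),(12,0)]⟩⟩,⟨false,1,⟨3,[(12,0),(0,0),(18,1)]⟩,⟨0,[]⟩⟩,⟨false,0,
  ⟨0,[(1,0),(1,0)]⟩,⟨1,[(4,0),(8,0),(0,0),(4,1),(10,0),(1,0)]⟩⟩,[.o ⟨false,0,⟨0,[(5,0)]⟩,⟨1,[(19,1),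
  (5,0),(6,0)]⟩⟩,.o ⟨false,1,⟨3,[(5,3),(6,0),(0,0),(18,1)]⟩,⟨0,[(16,0)]⟩⟩,.a ⟨true,0,⟨1,[(14,0),(8,
  0),(0,0)]⟩,⟨0,[(15,0)]⟩⟩ ⟨false,1,⟨1,[(13,0),(16,1),(1,0)]⟩,⟨1,[(1,1),(1,0),(10,0),(1,0),(12,
  0)]⟩⟩ ⟨true,0,⟨0,[(5,0),(9,0)]⟩,⟨1,[(14,0),(1,0),(2,0)]⟩⟩,.o ⟨false,0,⟨1,[(14,0),(2,0),(2,0)]⟩,⟨1,
  [(15,1),(9,0),(5,0)]⟩⟩]⟩))) (.Q [0,0,0,0,0,-1,0,0,0,1,0,-1] (.p false [0,0,0,1] [1] (⟨0,[(13,0)]⟩,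
  ⟨1,[(12,0),(8,0),(0,0)]⟩) .k 1 (⟨0,[]⟩,⟨0,[]⟩) .k .k) (.R ⟨1,false,false,false,[1,0,0,-1],[0,0,1],
  [0,0,0,-1,0,0,0,0,-1],(⟨1,[(13,0),(8,0),(0,0)]⟩,⟨0,[(14,0)]⟩),(⟨0,[(23,0)]⟩,⟨0,[(22,0)]⟩),⟨0,[(0,
  0)]⟩,.k,.k,(.r (-1) ⟨1,[(11,0),(17,1),(0,0)]⟩ ⟨1,[(1,1),(12,1),(4,0),(0,0),(7,1)]⟩),.k,(.r (-1)
  ⟨1,[(11,0),(9,1),(7,1),(0,0)]⟩ ⟨0,[(1,0),(4,0),(7,0),(5,0)]⟩),.k,⟨false,1,⟨1,[(11,0),(9,1),(7,1),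
  (0,0)]⟩,⟨0,[(1,0),(2,0),(4,0),(4,0)]⟩⟩,⟨true,0,⟨1,[(10,0),(2,0)]⟩,⟨0,[(14,0),(1,0)]⟩⟩,⟨true,0,⟨0,
  [(29,0)]⟩,⟨0,[(28,0)]⟩⟩,⟨false,0,⟨0,[(1,0),(2,0),(17,0),(0,0)]⟩,⟨1,[(11,0),(2,1),(0,1),(15,0)]⟩⟩,
  ⟨false,1,⟨3,[(11,0),(0,0),(18,1)]⟩,⟨0,[]⟩⟩,⟨false,0,⟨0,[(1,0),(0,0),(19,0),(0,0)]⟩,⟨1,[(3,1),(7,
  0),(2,1),(3,1),(12,0)]⟩⟩,[.o ⟨false,0,⟨0,[(4,0)]⟩,⟨1,[(18,1),(5,0),(6,0)]⟩⟩,.o ⟨false,1,⟨3,[(4,3),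
  (6,0),(0,0),(18,1)]⟩,⟨0,[(15,0)]⟩⟩,.a ⟨true,0,⟨0,[(14,0)]⟩,⟨1,[(13,0),(8,0),(0,0)]⟩⟩ ⟨false,1,⟨1,
  [(11,0),(17,1),(1,0)]⟩,⟨0,[(1,0),(12,0),(13,0)]⟩⟩ ⟨true,0,⟨1,[(4,1),(8,0),(8,0),(0,0)]⟩,⟨0,[(14,
  0),(0,0)]⟩⟩,.o ⟨false,0,⟨6,[(2,1),(0,1),(10,6),(0,1),(0,2),(2,2),(7,0)]⟩,⟨7,[(11,0),(0,0),(0,3),
  (10,1),(5,3)]⟩⟩]⟩) (.R ⟨0,false,false,false,[1,0,0,-1],[0,0,1],[1,0,0,0,0,0,0,0,-1],(⟨1,[(13,0),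
  (8,0),(0,0)]⟩,⟨0,[(14,0)]⟩),(⟨0,[(23,0)]⟩,⟨0,[(22,0)]⟩),⟨0,[(0,0)]⟩,.k,.k,(.r (-1) ⟨1,[(11,0),(17,
  1),(0,0)]⟩ ⟨1,[(1,1),(12,1),(4,0),(0,0),(7,1)]⟩),.k,.k,.k,⟨false,1,⟨1,[(11,0),(9,1),(8,0)]⟩,⟨0,
  [(1,0),(3,0),(3,0),(4,0)]⟩⟩,⟨true,0,⟨1,[(10,0),(2,0)]⟩,⟨0,[(14,0),(1,0)]⟩⟩,⟨true,0,⟨0,[]⟩,⟨0,[(33,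
  0)]⟩⟩,⟨false,0,⟨0,[(1,0),(2,0),(17,0),(0,0)]⟩,⟨1,[(11,0),(2,1),(0,1),(15,0)]⟩⟩,⟨false,0,⟨0,[]⟩,⟨0,
  []⟩⟩,⟨false,0,⟨0,[]⟩,⟨0,[]⟩⟩,[.o ⟨false,0,⟨0,[(4,0)]⟩,⟨1,[(18,1),(5,0),(6,0)]⟩⟩,.o ⟨false,1,⟨3,
  [(4,3),(6,0),(0,0),(18,1)]⟩,⟨0,[(15,0)]⟩⟩,.a ⟨true,0,⟨0,[(14,0)]⟩,⟨1,[(13,0),(8,0),(0,0)]⟩⟩
  ⟨false,1,⟨1,[(11,0),(19,0)]⟩,⟨0,[(1,0),(12,0),(18,0)]⟩⟩ ⟨true,0,⟨1,[(4,1),(8,0),(8,0),(0,0)]⟩,⟨0,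
  [(14,0),(0,0)]⟩⟩,.o ⟨false,0,⟨6,[(2,1),(0,1),(10,6),(0,1),(0,2),(2,2),(7,0)]⟩,⟨7,[(11,0),(0,0),(0,
  3),(10,1),(5,3)]⟩⟩]⟩))))))

theorem ok7 : chk (cU (-1) false 10) t7 l5 = true := by decide +kernel

noncomputable def l6 : List Con := (false, [0,0,-1,0,0,0,2,0,0,1,-2]) :: r5

noncomputable def r6 : List Con := (false, [0,0,1,0,0,0,-2,0,0,-1,2]) :: r5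

noncomputable def t8 : Tre :=
  (.I [0,0,-1,-1,0,0,0,-2] (.K ⟨2,[0,1,1],0,0,(⟨0,[(20,0),(2,0)]⟩,⟨0,[(5,0)]⟩),.k,.k,(.r 0 ⟨0,[(3,
  0),(13,0),(6,0),(0,0)]⟩ ⟨7,[(0,3),(7,0),(0,0),(16,11),(0,5)]⟩),.k,(.r (-1) ⟨1,[(6,1),(7,3),(2,1),
  (6,1),(2,0),(0,0)]⟩ ⟨0,[(0,0)]⟩),[⟨1,[(16,0),(0,0)]⟩,⟨0,[(1,0)]⟩,⟨1,[(16,0),(0,2)]⟩,⟨0,[(4,0)]⟩,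
  ⟨0,[(15,0),(10,0)]⟩,⟨0,[(3,0)]⟩]⟩) (.Q [0,0,0,0,0,1,0,0,0,0,-1] (.ed true [1,-1,1] .k) (.R ⟨0,
  false,false,true,[0,0,1],[1,-1],[1,0,1],(⟨0,[(21,0)]⟩,⟨0,[(20,0)]⟩),(⟨0,[(23,0)]⟩,⟨0,[(24,0)]⟩),
  ⟨0,[(0,0)]⟩,.k,.k,.k,.k,.k,.k,⟨false,0,⟨8,[(1,0),(1,4),(0,2),(12,1),(7,5)]⟩,⟨0,[(27,0),(0,0),(2,
  0)]⟩⟩,⟨true,0,⟨0,[(14,0)]⟩,⟨1,[(8,0),(11,0),(0,0)]⟩⟩,⟨false,0,⟨2,[(16,0),(0,0),(1,1),(5,1)]⟩,⟨7,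
  [(1,3),(7,0),(0,0),(16,3),(0,5)]⟩⟩,⟨true,0,⟨0,[(13,0),(13,0)]⟩,⟨2,[(1,1),(0,1),(0,0),(16,0),(0,
  0)]⟩⟩,⟨false,0,⟨0,[]⟩,⟨0,[]⟩⟩,⟨false,0,⟨0,[]⟩,⟨0,[]⟩⟩,[.e ⟨false,0,⟨0,[]⟩,⟨3,[(9,0),(0,0),(17,
  1)]⟩⟩ ⟨false,1,⟨0,[(14,0),(12,0),(0,0),(2,0)]⟩,⟨5,[(1,1),(0,4),(0,3),(16,0),(0,0),(3,2)]⟩⟩,.a
  ⟨true,0,⟨0,[(27,0)]⟩,⟨2,[(1,0),(0,0),(0,1),(16,1),(0,1)]⟩⟩ ⟨true,0,⟨3,[(17,0),(0,0),(6,1)]⟩,⟨0,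
  [(31,0)]⟩⟩ ⟨false,1,⟨0,[(14,0),(12,0),(0,0)]⟩,⟨5,[(1,1),(0,1),(0,3),(4,2),(11,0),(0,0)]⟩⟩,.o
  ⟨false,0,⟨0,[(5,0)]⟩,⟨3,[(9,0),(0,0),(3,3),(13,1)]⟩⟩,.o ⟨false,0,⟨0,[(17,0)]⟩,⟨0,[(14,0),(13,
  0)]⟩⟩]⟩) (.I [0,0,-1,0,0,1,2] (.K ⟨2,[0,1,1],0,0,(⟨0,[(22,0),(2,0)]⟩,⟨0,[(7,0)]⟩),.k,.k,(.r 0 ⟨0,
  [(2,0),(1,0),(13,0)]⟩ ⟨0,[(20,0),(7,1),(0,0)]⟩),.k,(.x 0 ⟨0,[(0,0)]⟩ ⟨3,[(7,3),(2,0),(0,0),(3,7),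
  (5,3),(7,1)]⟩),[⟨1,[(18,0),(0,0)]⟩,⟨0,[(3,0)]⟩,⟨1,[(18,0),(0,2)]⟩,⟨0,[(6,0)]⟩,⟨0,[(17,0),(10,0)]⟩,
  ⟨0,[(5,0)]⟩]⟩) (.I [0,0,1,0,0,-1,-2] (.K ⟨2,[0,1,1],0,0,(⟨0,[(23,0),(2,0)]⟩,⟨0,[(8,0)]⟩),.k,.k,
  (.r 0 ⟨0,[(3,0),(1,0),(13,0)]⟩ ⟨0,[(21,0),(7,1),(0,0)]⟩),.k,(.x (-1) ⟨3,[(4,3),(6,0),(0,0),(10,7),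
  (0,1),(1,3)]⟩ ⟨0,[(0,0)]⟩),[⟨1,[(19,0),(0,0)]⟩,⟨0,[(4,0)]⟩,⟨1,[(19,0),(0,2)]⟩,⟨0,[(7,0)]⟩,⟨0,[(18,
  0),(10,0)]⟩,⟨0,[(6,0)]⟩]⟩) (.I [1,0,-1,0,0,0,0,-1,1] (.R ⟨1,false,false,true,[1,0,0,-1],[0,0,1],
  [1,1,0,0,0,0,0,0,-1],(⟨1,[(14,0),(8,0),(0,0)]⟩,⟨0,[(15,0)]⟩),(⟨0,[(24,0)]⟩,⟨0,[(23,0)]⟩),⟨1,[(3,
  0),(5,0),(4,0)]⟩,.k,.k,(.r (-1) ⟨1,[(12,0),(17,1),(0,0)]⟩ ⟨5,[(0,5),(3,3),(1,1),(13,4),(0,2)]⟩),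
  .k,(.r (-1) ⟨0,[(0,0),(11,0),(17,0)]⟩ ⟨1,[(0,1),(3,1),(15,0),(0,0)]⟩),.k,⟨false,1,⟨0,[(0,0),(11,
  0)]⟩,⟨0,[(0,0),(3,0),(25,0)]⟩⟩,⟨true,0,⟨1,[(11,0),(2,0)]⟩,⟨0,[(15,0),(1,0)]⟩⟩,⟨false,0,⟨0,[]⟩,⟨3,
  [(12,0),(0,0),(18,1)]⟩⟩,⟨false,0,⟨1,[(0,1),(3,1),(6,0),(2,0),(15,1)]⟩,⟨1,[(12,0),(2,1),(0,1),(11,
  1),(2,0)]⟩⟩,⟨true,0,⟨0,[(29,0)]⟩,⟨0,[(30,0)]⟩⟩,⟨false,0,⟨1,[(0,1),(3,1),(6,0),(2,0)]⟩,⟨1,[(12,0),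
  (2,1),(0,1),(11,1),(1,1),(0,0)]⟩⟩,[.o ⟨false,0,⟨0,[(18,0)]⟩,⟨0,[(16,0),(15,0)]⟩⟩,.a ⟨true,0,⟨3,
  [(1,0),(2,1),(0,0),(17,1),(2,0),(3,1)]⟩,⟨0,[(6,0),(23,0)]⟩⟩ ⟨false,1,⟨1,[(12,0),(18,0)]⟩,⟨3,[(0,
  3),(3,1),(15,0),(0,0),(8,1)]⟩⟩ ⟨true,0,⟨1,[(4,0),(0,0),(8,0),(15,0)]⟩,⟨0,[(15,0),(1,0),(4,0)]⟩⟩,
  .e ⟨false,1,⟨3,[(12,2),(0,0)]⟩,⟨1,[(0,1),(3,0),(23,0),(1,0)]⟩⟩ ⟨false,0,⟨1,[(4,0),(0,0),(8,0),(15,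
  0)]⟩,⟨0,[(15,0),(0,0),(15,0)]⟩⟩,.o ⟨false,0,⟨0,[(8,0),(6,0),(1,0)]⟩,⟨7,[(12,0),(0,0),(0,3),(10,1),
  (5,3)]⟩⟩]⟩) (.I [0,0,-1,-1,0,0,0,0,-1] (.Q [0,0,0,0,0,1,0,0,0,0,0,-1] (.p false [0,0,0,1] [] (⟨0,
  [(16,0)]⟩,⟨1,[(15,0),(8,0),(0,0)]⟩) .k 0 (⟨0,[]⟩,⟨0,[]⟩) .k .k) (.R ⟨0,false,false,true,[0,0,0,1],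
  [1,-1,-1],[0,1,0,0,0,0,0,0,1],(⟨0,[(17,0)]⟩,⟨1,[(16,0),(8,0),(0,0)]⟩),(⟨0,[(11,0)]⟩,⟨0,[(26,0),(2,
  0)]⟩),⟨0,[(0,0)]⟩,.k,.k,(.r (-1) ⟨0,[(1,0),(13,0)]⟩ ⟨0,[(2,0),(5,0),(1,0)]⟩),(.r (-1) ⟨11,[(6,7),
  (1,3),(5,2),(0,8),(6,3)]⟩ ⟨0,[(1,0),(22,0)]⟩),.k,.k,⟨false,1,⟨3,[(6,1),(8,1),(15,1),(1,0),(0,0)]⟩,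
  ⟨0,[(1,0),(22,0)]⟩⟩,⟨true,0,⟨0,[(17,0),(1,0)]⟩,⟨1,[(13,0),(2,0)]⟩⟩,⟨true,0,⟨0,[(36,0)]⟩,⟨0,[]⟩⟩,
  ⟨false,0,⟨0,[(1,0),(15,0),(1,0),(4,0)]⟩,⟨7,[(6,3),(0,3),(0,1),(0,1),(5,3),(0,3),(13,1),(2,0),(0,
  2)]⟩⟩,⟨false,0,⟨0,[]⟩,⟨0,[]⟩⟩,⟨false,0,⟨0,[]⟩,⟨0,[]⟩⟩,[.o ⟨false,0,⟨0,[(18,0),(13,0)]⟩,⟨0,[(9,0),
  (24,0)]⟩⟩,.e ⟨false,1,⟨1,[(15,0),(17,0)]⟩,⟨1,[(1,0),(0,0),(5,0),(1,0)]⟩⟩ ⟨false,1,⟨1,[(1,1),(13,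
  0),(1,1),(0,1),(15,0)]⟩,⟨2,[(0,2),(3,0),(0,1),(0,1),(0,2),(0,0)]⟩⟩,.a ⟨true,0,⟨1,[(16,0),(8,0),(0,
  0)]⟩,⟨0,[(17,0)]⟩⟩ ⟨false,1,⟨3,[(14,0),(0,2)]⟩,⟨5,[(1,4),(0,0),(5,2),(0,1),(0,0),(19,3)]⟩⟩ ⟨true,
  0,⟨0,[(17,0),(0,0),(13,0)]⟩,⟨2,[(0,2),(3,0),(0,1),(0,1),(0,2),(0,0)]⟩⟩,.o ⟨false,0,⟨1,[(16,0),(2,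
  0),(2,0)]⟩,⟨1,[(17,1),(9,0),(5,0)]⟩⟩]⟩) (.Q [0,-1,0,0,0,0,-1,-1,-1,-1,1,1] (.p true [0,0,1] [1,0,
  0,-1] (⟨0,[(26,0)]⟩,⟨0,[(25,0)]⟩) .k 2 (⟨1,[(16,0),(8,0),(0,0)]⟩,⟨0,[(17,0)]⟩) .k (.r (-1) ⟨7,[(1,
  3),(4,3),(7,0),(0,6)]⟩ ⟨1,[(1,0),(0,0),(5,0),(1,0),(13,1)]⟩)) (.R ⟨1,false,false,true,[1,0,0,-1],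
  [0,0,1],[0,1,0,-1,0,0,0,0,-1],(⟨1,[(17,0),(8,0),(0,0)]⟩,⟨0,[(18,0)]⟩),(⟨0,[(27,0)]⟩,⟨0,[(26,0)]⟩),
  ⟨1,[(6,0),(5,0),(4,0)]⟩,.k,.k,(.r 0 ⟨0,[(2,0)]⟩ ⟨11,[(7,3),(1,7),(5,2),(0,8),(6,7)]⟩),.k,(.r 0 ⟨0,
  [(2,0),(22,0)]⟩ ⟨11,[(7,7),(1,3),(5,2),(0,8),(6,3)]⟩),.k,⟨false,0,⟨0,[(2,0),(22,0)]⟩,⟨3,[(7,1),(8,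
  1),(15,1),(1,0),(0,0)]⟩⟩,⟨true,0,⟨1,[(14,0),(2,0)]⟩,⟨0,[(18,0),(1,0)]⟩⟩,⟨false,0,⟨0,[(33,0)]⟩,⟨0,
  [(32,0),(2,0)]⟩⟩,⟨false,1,⟨3,[(7,1),(0,1),(6,0),(0,2),(0,1),(15,1)]⟩,⟨0,[(0,0)]⟩⟩,⟨true,0,⟨0,[(37,
  0)]⟩,⟨0,[]⟩⟩,⟨false,1,⟨7,[(7,3),(0,3),(6,0),(0,4),(0,3),(14,3),(2,1)]⟩,⟨0,[(0,0),(32,0)]⟩⟩,[.o
  ⟨false,0,⟨0,[(21,0)]⟩,⟨0,[(19,0),(15,0)]⟩⟩,.a ⟨true,0,⟨3,[(4,0),(2,1),(0,0),(17,1),(2,0),(3,1)]⟩,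
  ⟨0,[(9,0),(23,0)]⟩⟩ ⟨false,0,⟨0,[(2,0)]⟩,⟨1,[(16,0),(15,1),(2,0)]⟩⟩ ⟨true,0,⟨1,[(7,0),(0,0),(8,0),
  (15,0)]⟩,⟨0,[(18,0),(1,0),(4,0)]⟩⟩,.e ⟨false,0,⟨6,[(2,4),(0,1),(18,1),(0,1),(7,0),(1,1)]⟩,⟨3,[(9,
  1),(0,1),(5,1),(14,1),(2,0),(0,0)]⟩⟩ ⟨false,0,⟨1,[(7,0),(0,0),(8,0),(15,0)]⟩,⟨3,[(0,3),(14,0),(0,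
  2)]⟩⟩,.o ⟨false,0,⟨0,[(11,0),(6,0),(1,0)]⟩,⟨7,[(15,0),(0,0),(0,3),(10,1),(5,3)]⟩⟩]⟩) (.R ⟨1,true,
  false,true,[1,0,-1],[0,0,0,1],[0,1,0,-1,0,0,0,-1],(⟨0,[(26,0)]⟩,⟨0,[(27,0)]⟩),(⟨0,[(18,0)]⟩,⟨1,
  [(17,0),(8,0),(0,0)]⟩),⟨0,[(12,0)]⟩,.k,.k,.k,.k,(.r 0 ⟨0,[(2,0),(22,0)]⟩ ⟨11,[(7,7),(1,3),(5,2),
  (0,8),(6,3)]⟩),.k,⟨false,0,⟨0,[(2,0),(22,0)]⟩,⟨3,[(7,1),(8,1),(15,1),(1,0),(0,0)]⟩⟩,⟨true,0,⟨1,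
  [(14,0),(2,0)]⟩,⟨0,[(18,0),(1,0)]⟩⟩,⟨false,0,⟨0,[(33,0)]⟩,⟨0,[(32,0),(2,0)]⟩⟩,⟨true,0,⟨0,[(0,0)]⟩,
  ⟨5,[(2,4),(0,0),(5,2),(0,1),(0,0),(6,5),(0,5),(11,3)]⟩⟩,⟨true,0,⟨0,[(37,0)]⟩,⟨0,[]⟩⟩,⟨false,1,⟨0,
  [(0,0),(31,0),(2,0)]⟩,⟨0,[(2,0),(15,0),(0,0),(11,0)]⟩⟩,[]⟩))) (.I [0,0,-1,-1,0,0,0,-1,-1] (.Q [0,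
  0,0,1,0,0,1,1,0,1,-1,-1] (.p false [0,0,1] [1,0,0,-1] (⟨0,[(26,0)]⟩,⟨0,[(25,0)]⟩) .k 2 (⟨1,[(16,
  0),(8,0),(0,0)]⟩,⟨0,[(17,0)]⟩) .k (.r (-1) ⟨7,[(6,3),(7,0),(0,4),(16,3),(0,1)]⟩ ⟨12,[(0,9),(1,2),
  (5,7),(0,1),(12,5),(7,0)]⟩)) (.R ⟨1,false,false,false,[1,0,0,-1],[0,1,1],[0,0,0,-1,0,0,0,0,-1],
  (⟨1,[(17,0),(8,0),(0,0)]⟩,⟨0,[(18,0)]⟩),(⟨0,[(27,0),(2,0)]⟩,⟨0,[(12,0)]⟩),⟨1,[(6,0),(5,0),(4,0)]⟩,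
  .k,.k,(.x 0 ⟨2,[(5,0),(0,1),(16,1)]⟩ ⟨3,[(15,0),(0,0),(13,3),(3,1)]⟩),(.r 0 ⟨0,[(1,0)]⟩ ⟨7,[(2,3),
  (4,3),(7,2),(0,4)]⟩),(.r (-1) ⟨3,[(1,3),(13,0),(0,0),(16,3),(0,1)]⟩ ⟨2,[(2,2),(4,1),(1,0),(13,
  0)]⟩),.k,⟨true,0,⟨0,[(1,0),(31,0)]⟩,⟨2,[(2,2),(4,1),(1,0),(13,0)]⟩⟩,⟨false,1,⟨7,[(8,3),(6,0),(0,
  0),(0,3),(16,5)]⟩,⟨0,[(18,0),(1,0)]⟩⟩,⟨true,0,⟨0,[(33,0)]⟩,⟨0,[(32,0)]⟩⟩,⟨false,1,⟨1,[(0,1),(15,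
  0),(18,0)]⟩,⟨0,[(1,0),(16,0),(1,0)]⟩⟩,⟨false,1,⟨3,[(15,0),(0,0),(18,1)]⟩,⟨0,[]⟩⟩,⟨false,1,⟨1,[(0,
  1),(1,1),(31,0),(0,0)]⟩,⟨0,[(1,0),(16,0),(1,0),(12,0)]⟩⟩,[.e ⟨true,0,⟨1,[(1,0),(1,0),(29,0)]⟩,⟨0,
  [(2,0)]⟩⟩ ⟨true,0,⟨0,[(0,0)]⟩,⟨0,[(18,0),(1,0),(4,0),(7,0)]⟩⟩,.o ⟨false,1,⟨0,[(10,0),(24,0)]⟩,⟨0,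
  [(19,0),(13,0)]⟩⟩,.a ⟨true,0,⟨0,[(18,0)]⟩,⟨1,[(17,0),(8,0),(0,0)]⟩⟩ ⟨false,0,⟨1,[(1,1),(5,0),(23,
  0),(1,0)]⟩,⟨1,[(16,0),(15,1),(2,0)]⟩⟩ ⟨true,0,⟨0,[(0,0)]⟩,⟨0,[(18,0),(0,0),(13,0)]⟩⟩,.o ⟨false,0,
  ⟨0,[(11,0),(6,0),(1,0)]⟩,⟨7,[(15,0),(0,0),(0,3),(10,1),(5,3)]⟩⟩]⟩) (.R ⟨1,false,false,false,[1,0,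
  0,-1],[0,0,1],[0,0,0,-1,0,0,0,0,-1],(⟨1,[(17,0),(8,0),(0,0)]⟩,⟨0,[(18,0)]⟩),(⟨0,[(27,0)]⟩,⟨0,[(26,
  0)]⟩),⟨1,[(6,0),(5,0),(4,0)]⟩,.k,.k,(.x 0 ⟨2,[(5,0),(0,1),(16,1)]⟩ ⟨3,[(15,0),(0,0),(13,3),(3,
  1)]⟩),.k,(.r 0 ⟨0,[(1,0)]⟩ ⟨7,[(2,3),(4,3),(7,2),(0,4)]⟩),.k,⟨false,0,⟨0,[(1,0)]⟩,⟨3,[(7,1),(8,1),
  (15,1),(1,0),(0,0)]⟩⟩,⟨true,0,⟨1,[(14,0),(2,0)]⟩,⟨0,[(18,0),(1,0)]⟩⟩,⟨true,0,⟨0,[(33,0)]⟩,⟨0,[(32,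
  0)]⟩⟩,⟨false,1,⟨1,[(7,0),(0,0),(7,0),(0,0),(15,0),(1,0)]⟩,⟨7,[(0,7),(0,6),(1,0),(3,2),(1,5),(0,5),
  (20,2)]⟩⟩,⟨false,1,⟨3,[(15,0),(0,0),(18,1)]⟩,⟨0,[]⟩⟩,⟨false,1,⟨3,[(2,1),(4,1),(0,1),(7,0),(0,1),
  (16,0),(0,1)]⟩,⟨7,[(0,7),(0,4),(1,2),(3,0),(1,1),(0,1),(20,0)]⟩⟩,[.e ⟨true,0,⟨1,[(1,0),(1,0),(29,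
  0)]⟩,⟨0,[(2,0)]⟩⟩ ⟨true,0,⟨1,[(7,0),(0,0),(8,0),(15,0)]⟩,⟨1,[(0,0),(8,0),(8,0),(1,0),(2,0)]⟩⟩,.o
  ⟨false,1,⟨0,[(21,0),(13,0)]⟩,⟨0,[(19,0)]⟩⟩,.a ⟨true,0,⟨0,[(18,0)]⟩,⟨1,[(17,0),(8,0),(0,0)]⟩⟩
  ⟨false,0,⟨1,[(1,1),(5,0),(23,0),(1,0)]⟩,⟨1,[(16,0),(15,1),(2,0)]⟩⟩ ⟨true,0,⟨1,[(7,0),(0,0),(8,0),
  (15,0)]⟩,⟨0,[(0,0),(31,0)]⟩⟩,.o ⟨false,0,⟨2,[(0,1),(9,1),(7,0),(1,0),(2,0),(7,0)]⟩,⟨7,[(15,0),(0,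
  0),(0,3),(10,1),(5,3)]⟩⟩]⟩)) (.I [0,1,2,2,-1] (.Q [0,0,2,0,-1,0,1,0,0,0,-1] (.p false [0,0,1] []
  (⟨0,[(27,0)]⟩,⟨0,[(26,0)]⟩) .k 0 (⟨0,[]⟩,⟨0,[]⟩) .k .k) (.R ⟨1,false,false,true,[1,-1],[0,1],[1,0,
  -1,-1],(⟨0,[(30,0)]⟩,⟨0,[(31,0)]⟩),(⟨0,[(31,0)]⟩,⟨0,[(30,0)]⟩),⟨0,[(7,0),(5,0)]⟩,.k,.k,(.r (-1)
  ⟨0,[(34,1),(0,0)]⟩ ⟨2,[(1,1),(1,1),(12,0),(19,0)]⟩),(.r (-1) ⟨0,[(34,1),(0,0)]⟩ ⟨2,[(1,1),(1,1),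
  (12,0),(19,0)]⟩),(.r (-2) ⟨3,[(16,0),(0,0),(16,11),(0,5)]⟩ ⟨3,[(1,4),(8,0),(0,0),(20,1),(3,0)]⟩),
  .k,⟨false,2,⟨1,[(34,3),(0,2),(0,0)]⟩,⟨0,[(1,0)]⟩⟩,⟨true,1,⟨0,[(27,0),(0,0),(6,0)]⟩,⟨0,[(0,0),(20,
  0)]⟩⟩,⟨true,0,⟨0,[]⟩,⟨0,[(38,0)]⟩⟩,⟨false,0,⟨5,[(5,0),(2,3),(0,2),(0,7),(16,1),(2,0)]⟩,⟨1,[(29,0),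
  (4,3),(1,0)]⟩⟩,⟨false,1,⟨0,[(33,0),(2,0)]⟩,⟨0,[(34,0)]⟩⟩,⟨false,0,⟨0,[(8,0),(0,0),(0,1)]⟩,⟨1,[(29,
  0),(4,5),(1,0)]⟩⟩,[.o ⟨false,0,⟨0,[(33,0)]⟩,⟨1,[(29,0),(4,1),(1,0)]⟩⟩,.a ⟨true,0,⟨2,[(5,0),(2,0),
  (1,1),(16,1),(2,0)]⟩,⟨0,[(34,0)]⟩⟩ ⟨true,1,⟨1,[(34,1),(0,0),(0,0)]⟩,⟨0,[(1,0),(32,0)]⟩⟩ ⟨false,1,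
  ⟨2,[(5,0),(2,0),(1,1),(16,1),(2,0),(4,2)]⟩,⟨2,[(0,0),(20,0),(7,0),(4,2)]⟩⟩,.o ⟨false,0,⟨2,[(0,0),
  (20,0),(7,0)]⟩,⟨3,[(16,0),(0,0),(17,1)]⟩⟩,.o ⟨false,0,⟨0,[(21,0),(2,0)]⟩,⟨0,[(35,0)]⟩⟩]⟩) (.Q [0,
  -1,0,-1,0,0,1,1,0,1,-1] (.p false [0,0,1] [1] (⟨0,[(28,0)]⟩,⟨0,[(27,0)]⟩) .k 1 (⟨0,[]⟩,⟨0,[]⟩) .k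
  .k) (.R ⟨2,false,false,true,[0,1],[1,1,-1],[1],(⟨0,[]⟩,⟨0,[]⟩),(⟨0,[(28,0),(3,0)]⟩,⟨0,[(8,0)]⟩),
  ⟨0,[]⟩,.k,.k,.k,.k,.k,.k,⟨true,1,⟨2,[(0,2),(0,1),(20,0),(7,0)]⟩,⟨0,[(2,0),(24,0),(7,0)]⟩⟩,⟨false,
  1,⟨2,[(1,1),(20,0),(7,0)]⟩,⟨1,[(16,0),(11,0),(0,0)]⟩⟩,⟨false,1,⟨1,[(35,1),(0,0),(0,0)]⟩,⟨5,[(2,1),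
  (1,1),(12,0),(19,0)]⟩⟩,⟨true,0,⟨0,[(21,0)]⟩,⟨3,[(0,2),(11,0),(2,1),(0,0)]⟩⟩,⟨false,1,⟨1,[(36,0),
  (0,0)]⟩,⟨1,[(25,0),(0,0)]⟩⟩,⟨false,1,⟨3,[(11,3),(5,0),(0,0),(11,1)]⟩,⟨0,[(0,0)]⟩⟩,[.e ⟨true,0,⟨0,
  []⟩,⟨1,[(25,0),(0,0)]⟩⟩ ⟨true,0,⟨4,[(2,1),(8,0),(10,0),(1,2),(2,0),(2,1)]⟩,⟨0,[(0,0)]⟩⟩,.a ⟨true,
  0,⟨0,[(11,0)]⟩,⟨0,[(0,0),(38,0)]⟩⟩ ⟨false,1,⟨1,[(36,0),(0,0)]⟩,⟨0,[(39,0)]⟩⟩ ⟨true,0,⟨3,[(2,0),(8,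
  1),(9,0),(0,0),(4,0),(2,0),(2,0)]⟩,⟨0,[(0,0),(38,0)]⟩⟩,.o ⟨false,1,⟨3,[(17,0),(0,0),(17,1)]⟩,⟨0,
  [(13,0),(8,0)]⟩⟩,.e ⟨false,1,⟨1,[(36,0),(0,0)]⟩,⟨1,[(25,0),(0,0)]⟩⟩ ⟨false,1,⟨3,[(11,3),(5,0),(0,
  0),(11,1)]⟩,⟨0,[(0,0)]⟩⟩]⟩) (.I [0,0,2,2,-1,0,0,-1] (.K ⟨0,[1,1,-1],1,0,(⟨0,[(29,0),(3,0)]⟩,⟨0,
  [(9,0)]⟩),.k,.k,(.r 1 ⟨0,[(0,0)]⟩ ⟨7,[(10,3),(7,2),(0,2),(16,19),(0,9)]⟩),.k,.k,[⟨3,[(3,3),(3,0),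
  (3,0),(17,1),(2,0),(1,1),(1,7)]⟩,⟨0,[(2,0)]⟩,⟨0,[(24,0),(4,0),(0,0),(5,0)]⟩,⟨0,[(1,0)]⟩]⟩) (.R ⟨1,
  false,false,false,[0,0,1],[1,-1],[0,1,0,-1,0,0,0,1],(⟨0,[(30,0)]⟩,⟨0,[(29,0)]⟩),(⟨0,[(32,0)]⟩,⟨0,
  [(33,0)]⟩),⟨0,[(9,0)]⟩,.k,.k,.k,.k,.k,.k,⟨false,0,⟨0,[(0,0),(2,0)]⟩,⟨1,[(28,1),(8,0),(0,0)]⟩⟩,
  ⟨true,0,⟨0,[(23,0)]⟩,⟨1,[(17,0),(11,0),(0,0)]⟩⟩,⟨false,0,⟨0,[(36,0)]⟩,⟨0,[(35,0),(2,0)]⟩⟩,⟨false,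
  1,⟨0,[(22,0),(13,0),(1,0)]⟩,⟨5,[(7,0),(2,3),(0,2),(0,1),(16,1),(2,0)]⟩⟩,⟨true,0,⟨0,[(40,0)]⟩,⟨0,
  []⟩⟩,⟨false,1,⟨0,[(22,0),(15,0)]⟩,⟨3,[(7,0),(2,1),(0,0),(17,1),(2,0),(3,1)]⟩⟩,[.a ⟨true,0,⟨0,[(36,
  0)]⟩,⟨2,[(7,0),(2,0),(1,1),(16,1),(2,0)]⟩⟩ ⟨true,0,⟨0,[(0,0),(2,0),(32,0)]⟩,⟨7,[(1,0),(1,2),(7,0),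
  (0,0),(15,5),(5,2),(3,2)]⟩⟩ ⟨false,1,⟨11,[(0,5),(1,1),(19,5),(0,3),(7,0),(6,2)]⟩,⟨5,[(3,1),(3,0),
  (3,2),(4,1),(12,1),(2,0),(5,1)]⟩⟩,.o ⟨false,1,⟨1,[(31,0),(4,1),(1,0)]⟩,⟨0,[(35,0)]⟩⟩,.o ⟨false,0,
  ⟨0,[(14,0)]⟩,⟨11,[(2,3),(15,2),(0,2),(3,7),(7,1)]⟩⟩,.o ⟨false,0,⟨0,[(26,0)]⟩,⟨2,[(2,1),(20,0),(7,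
  0)]⟩⟩]⟩)))) (.Q [0,-1,0,0,0,0,0,0,1,1,0,-1] (.p false [0,0,0,1] [1] (⟨0,[(18,0)]⟩,⟨1,[(17,0),(8,
  0),(0,0)]⟩) .k 1 (⟨0,[]⟩,⟨0,[]⟩) .k .k) (.Q [0,1,0,0,0,0,0,0,-1,0,0,1] (.p true [0,0,0,1] [] (⟨0,
  [(19,0)]⟩,⟨1,[(18,0),(8,0),(0,0)]⟩) .k 0 (⟨0,[]⟩,⟨0,[]⟩) .k .k) (.K ⟨1,[0,0,0,1],0,0,(⟨0,[(20,
  0)]⟩,⟨1,[(19,0),(8,0),(0,0)]⟩),.k,(.r (-1) ⟨1,[(2,0),(15,0),(20,0)]⟩ ⟨0,[(5,0),(5,0),(1,0)]⟩),(.r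
  0 ⟨0,[(1,0),(7,1),(0,1),(0,0),(8,0),(0,2),(11,0),(1,1)]⟩ ⟨1,[(2,0),(14,0),(21,0)]⟩),.k,.k,[⟨1,
  [(20,1),(4,0),(0,0)]⟩,⟨1,[(19,0),(2,0),(2,0)]⟩,⟨0,[(0,0)]⟩,⟨0,[(1,0)]⟩]⟩) (.R ⟨1,false,false,true,
  [1,0,0,-1],[0,0,1],[0,0,0,-1,0,0,0,0,-1],(⟨1,[(19,0),(8,0),(0,0)]⟩,⟨0,[(20,0)]⟩),(⟨0,[(29,0)]⟩,⟨0,
  [(28,0)]⟩),⟨1,[(8,0),(5,0),(4,0)]⟩,.k,.k,(.r (-1) ⟨1,[(2,0),(14,0),(21,0)]⟩ ⟨0,[(0,4),(4,3),(4,2),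
  (0,0),(3,1),(4,4),(0,2),(13,1)]⟩),.k,(.r (-1) ⟨3,[(2,1),(13,0),(0,1),(3,0),(2,0),(2,1)]⟩ ⟨0,[(0,
  3),(4,2),(4,1),(4,1),(4,3),(0,1),(13,0)]⟩),.k,⟨false,1,⟨2,[(2,1),(2,0),(4,0),(0,0),(5,0),(3,0),(5,
  1),(5,0)]⟩,⟨0,[(0,0),(14,0),(4,0),(2,0)]⟩⟩,⟨true,0,⟨1,[(16,0),(2,0)]⟩,⟨0,[(20,0),(1,0)]⟩⟩,⟨true,0,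
  ⟨0,[(35,0)]⟩,⟨0,[(34,0)]⟩⟩,⟨false,0,⟨0,[(1,0),(21,0)]⟩,⟨1,[(17,0),(2,1),(0,1),(11,1),(2,0)]⟩⟩,
  ⟨false,1,⟨3,[(17,0),(0,0),(18,1)]⟩,⟨0,[]⟩⟩,⟨false,0,⟨0,[(1,0),(10,0)]⟩,⟨1,[(2,0),(14,0),(2,1),(0,
  0),(0,0),(4,0),(5,0)]⟩⟩,[.o ⟨false,0,⟨0,[(23,0)]⟩,⟨0,[(21,0),(15,0)]⟩⟩,.a ⟨true,0,⟨3,[(6,0),(2,1),
  (0,0),(17,1),(2,0),(3,1)]⟩,⟨0,[(11,0),(23,0)]⟩⟩ ⟨false,1,⟨5,[(2,3),(2,3),(4,1),(0,1),(5,0),(3,1),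
  (11,1),(2,0)]⟩,⟨1,[(0,0),(2,0),(6,0),(4,0),(4,0),(0,0),(17,0)]⟩⟩ ⟨true,0,⟨1,[(9,0),(0,0),(8,0),
  (15,0)]⟩,⟨0,[(20,0),(1,0),(4,0)]⟩⟩,.e ⟨false,1,⟨1,[(17,0),(17,1),(1,0)]⟩,⟨0,[(0,0),(19,0),(13,
  0)]⟩⟩ ⟨false,0,⟨1,[(9,0),(0,0),(8,0),(15,0)]⟩,⟨0,[(20,0),(0,0),(15,0)]⟩⟩,.o ⟨false,0,⟨0,[(13,0),
  (6,0),(1,0)]⟩,⟨7,[(17,0),(0,0),(0,3),(10,1),(5,3)]⟩⟩]⟩)) (.Q [0,1,0,0,0,0,0,0,1,1,0,-1] (.p false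
  [0,0,0,1] [1] (⟨0,[(19,0)]⟩,⟨1,[(18,0),(8,0),(0,0)]⟩) .k 1 (⟨0,[]⟩,⟨0,[]⟩) .k .k) (.K ⟨2,[1,0,0,
  -1],0,0,(⟨1,[(19,0),(8,0),(0,0)]⟩,⟨0,[(20,0)]⟩),.k,(.r (-1) ⟨1,[(2,0),(14,0),(21,0)]⟩ ⟨1,[(3,1),
  (5,0),(0,1),(0,1),(9,1),(11,0),(1,2)]⟩),(.r 0 ⟨10,[(1,3),(3,6),(4,1),(0,8),(0,1),(6,1),(5,2),(7,
  2)]⟩ ⟨1,[(2,0),(15,0),(20,0)]⟩),.k,.k,[⟨1,[(16,0),(2,0)]⟩,⟨0,[(13,0),(6,0)]⟩,⟨1,[(16,0),(2,0),(6,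
  1)]⟩,⟨0,[(13,0),(6,0),(1,0)]⟩,⟨0,[(0,0)]⟩,⟨0,[(1,0)]⟩]⟩) (.K ⟨2,[0,1,1],0,0,(⟨0,[(29,0),(2,0)]⟩,
  ⟨0,[(14,0)]⟩),.k,.k,(.r 0 ⟨0,[(9,0),(1,0),(13,0)]⟩ ⟨1,[(2,1),(13,0),(4,0),(2,0)]⟩),.k,(.r 0 ⟨0,
  [(0,1),(2,1),(6,0),(4,1),(3,0),(15,2)]⟩ ⟨15,[(2,7),(13,3),(0,2),(0,2),(5,7),(2,23),(2,1)]⟩),[⟨1,
  [(25,0),(0,0)]⟩,⟨0,[(10,0)]⟩,⟨1,[(25,0),(0,2)]⟩,⟨0,[(13,0)]⟩,⟨0,[(24,0),(10,0)]⟩,⟨0,[(12,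
  0)]⟩]⟩)))))))))))

theorem ok8 : chk (cU (-1) false 10) t8 l6 = true := by decide +kernel

noncomputable def l7 : List Con := (true, [0,1,0,0,0,0,0,1]) :: r6

noncomputable def r7 : List Con := (true, [1,-1,0,0,0,0,0,-1]) :: r6

noncomputable def t9 : Tre :=
  (.Q [0,0,0,1,0,0,0,0,0,1] (.pp false [-1,1]) (.R ⟨1,false,false,true,[1,0,-1],[1,-1],[1,0,0,0,0,0,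
  0,-1],(⟨0,[(20,0)]⟩,⟨0,[(21,0)]⟩),(⟨0,[(23,0)]⟩,⟨0,[(24,0)]⟩),⟨0,[(6,0)]⟩,.k,.k,.k,.k,.k,.k,⟨true,
  0,⟨1,[(3,1),(1,0),(11,0),(7,0)]⟩,⟨0,[(1,0),(25,0)]⟩⟩,⟨false,0,⟨0,[(5,0)]⟩,⟨0,[(18,0),(9,0)]⟩⟩,
  ⟨true,0,⟨0,[]⟩,⟨0,[(31,0)]⟩⟩,⟨true,0,⟨0,[(15,0),(11,0)]⟩,⟨0,[(3,0)]⟩⟩,⟨false,1,⟨0,[(26,0),(2,0)]⟩,
  ⟨0,[(27,0)]⟩⟩,⟨true,0,⟨0,[(15,0)]⟩,⟨0,[(3,0),(23,0)]⟩⟩,[.e ⟨true,0,⟨0,[(19,0)]⟩,⟨3,[(1,3),(15,0),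
  (0,0),(6,1)]⟩⟩ ⟨true,0,⟨1,[(8,0),(4,0),(1,0),(11,1)]⟩,⟨0,[(7,0),(17,0)]⟩⟩,.a ⟨true,0,⟨0,[(27,0)]⟩,
  ⟨0,[(0,0)]⟩⟩ ⟨false,1,⟨1,[(19,1),(8,0),(0,0)]⟩,⟨0,[(1,0)]⟩⟩ ⟨true,0,⟨0,[(5,0),(21,0)]⟩,⟨0,[(0,0),
  (13,0)]⟩⟩,.o ⟨false,1,⟨3,[(2,1),(6,0),(0,0),(11,0),(5,0)]⟩,⟨0,[(5,0)]⟩⟩,.o ⟨false,0,⟨0,[(14,0)]⟩,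
  ⟨7,[(8,3),(0,0),(0,0),(11,1),(5,3)]⟩⟩]⟩) (.Q [0,0,0,0,0,1,0,0,0,0,-1] (.ed true [1,-1,1] .k) (.Q
  [0,0,0,0,0,0,-1,0,0,1,1] (.p true [1,-1,1] [] (⟨0,[(22,0),(1,0)]⟩,⟨0,[(0,0)]⟩) .k 0 (⟨0,[]⟩,⟨0,
  []⟩) .k .k) (.R ⟨0,false,false,true,[0,1,-1],[0,1],[0,0,1],(⟨0,[(1,0)]⟩,⟨0,[(23,0),(1,0)]⟩),(⟨0,
  [(26,0)]⟩,⟨0,[(25,0)]⟩),⟨0,[(23,0)]⟩,.k,.k,.k,.k,.k,.k,⟨false,1,⟨1,[(29,1),(0,0),(0,0)]⟩,⟨0,[(28,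
  0)]⟩⟩,⟨true,0,⟨0,[(7,0)]⟩,⟨0,[(20,0)]⟩⟩,⟨false,1,⟨0,[(3,0),(25,0),(1,0)]⟩,⟨0,[(5,0),(1,0)]⟩⟩,
  ⟨true,0,⟨0,[(17,0)]⟩,⟨1,[(0,0),(1,0),(2,0),(15,0)]⟩⟩,⟨false,0,⟨0,[]⟩,⟨0,[]⟩⟩,⟨false,0,⟨0,[]⟩,⟨0,
  []⟩⟩,[.o ⟨false,0,⟨0,[(28,0)]⟩,⟨1,[(24,0),(4,1),(1,0)]⟩⟩,.o ⟨false,1,⟨3,[(11,0),(0,0),(15,3),(2,
  1)]⟩,⟨0,[(2,0)]⟩⟩,.o ⟨false,1,⟨5,[(0,1),(3,1),(6,0),(0,0),(17,3)]⟩,⟨0,[(7,1),(8,0)]⟩⟩,.a ⟨true,0,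
  ⟨0,[(0,0)]⟩,⟨0,[(7,0)]⟩⟩ ⟨false,1,⟨3,[(11,0),(0,0),(18,1)]⟩,⟨0,[]⟩⟩ ⟨true,0,⟨0,[(6,0),(14,0)]⟩,⟨0,
  [(0,0),(1,0)]⟩⟩]⟩) (.I [1,0,0,0,0,0,0,0,-1] (.I [1,0,0,1,0,0,0,1,-1] (.Q [0,0,0,0,0,1,0,0,0,0,0,
  -1] (.p false [0,0,0,1] [] (⟨0,[(16,0)]⟩,⟨1,[(15,0),(8,0),(0,0)]⟩) .k 0 (⟨0,[]⟩,⟨0,[]⟩) .k .k)
  (.I [1,-1,0,0,0,0,0,0,-1] (.R ⟨0,false,false,true,[0,0,0,1],[0,0,1],[0,1,0,0,0,0,0,0,1],(⟨0,[(18,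
  0)]⟩,⟨1,[(17,0),(8,0),(0,0)]⟩),(⟨0,[(27,0)]⟩,⟨0,[(26,0)]⟩),⟨0,[(1,0)]⟩,.k,.k,(.r (-1) ⟨1,[(16,0),
  (16,1),(0,0)]⟩ ⟨3,[(2,1),(0,1),(5,1),(13,2),(0,0)]⟩),.k,.k,.k,⟨false,1,⟨1,[(16,0),(8,1),(8,0)]⟩,
  ⟨0,[(0,0),(6,0)]⟩⟩,⟨true,0,⟨2,[(4,0),(9,0),(3,2)]⟩,⟨3,[(8,1),(8,1),(5,0),(0,0)]⟩⟩,⟨true,0,⟨0,[(37,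
  0)]⟩,⟨0,[]⟩⟩,⟨false,0,⟨0,[(0,0),(17,0),(2,0)]⟩,⟨1,[(8,0),(7,0),(0,0),(7,1),(5,0),(2,0)]⟩⟩,⟨false,
  0,⟨0,[]⟩,⟨0,[]⟩⟩,⟨false,0,⟨0,[]⟩,⟨0,[]⟩⟩,[.o ⟨false,0,⟨0,[(21,0)]⟩,⟨0,[(19,0),(15,0)]⟩⟩,.o ⟨false,
  1,⟨3,[(15,0),(0,0),(4,3),(13,1)]⟩,⟨0,[(6,0),(2,0)]⟩⟩,.a ⟨true,0,⟨1,[(17,0),(8,0),(0,0)]⟩,⟨0,[(18,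
  0)]⟩⟩ ⟨false,1,⟨3,[(15,0),(0,2)]⟩,⟨0,[(0,0)]⟩⟩ ⟨true,0,⟨0,[(18,0),(2,0)]⟩,⟨1,[(6,0),(2,1),(7,0),
  (15,0)]⟩⟩,.o ⟨false,0,⟨1,[(17,0),(2,0),(2,0)]⟩,⟨1,[(18,1),(9,0),(5,0)]⟩⟩]⟩) (.R ⟨0,false,false,
  true,[0,0,0,1],[0,0,1],[1,0,0,0,0,0,0,0,1],(⟨0,[(18,0)]⟩,⟨1,[(17,0),(8,0),(0,0)]⟩),(⟨0,[(27,0)]⟩,
  ⟨0,[(26,0)]⟩),⟨0,[(1,0)]⟩,.k,.k,(.r (-1) ⟨1,[(16,0),(16,1),(0,0)]⟩ ⟨3,[(2,1),(0,1),(5,1),(13,2),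
  (0,0)]⟩),.k,.k,.k,⟨false,1,⟨0,[(0,0),(24,0),(5,0),(2,0)]⟩,⟨0,[(3,0),(3,0)]⟩⟩,⟨true,0,⟨2,[(4,0),(9,
  0),(3,2)]⟩,⟨3,[(8,1),(8,1),(5,0),(0,0)]⟩⟩,⟨true,0,⟨0,[]⟩,⟨0,[(37,0)]⟩⟩,⟨false,0,⟨1,[(2,1),(3,0),
  (7,0),(3,1),(14,0)]⟩,⟨1,[(8,0),(7,0),(0,0),(7,1),(5,0),(2,0)]⟩⟩,⟨false,0,⟨0,[]⟩,⟨0,[]⟩⟩,⟨false,0,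
  ⟨0,[]⟩,⟨0,[]⟩⟩,[.o ⟨false,0,⟨0,[(21,0)]⟩,⟨0,[(19,0),(15,0)]⟩⟩,.o ⟨false,1,⟨3,[(15,0),(0,0),(4,3),
  (13,1)]⟩,⟨0,[(6,0),(2,0)]⟩⟩,.a ⟨true,0,⟨1,[(17,0),(8,0),(0,0)]⟩,⟨0,[(18,0)]⟩⟩ ⟨false,1,⟨1,[(16,0),
  (18,0)]⟩,⟨0,[(2,0),(1,0),(1,1),(2,0),(2,2),(14,2),(2,2)]⟩⟩ ⟨true,0,⟨0,[(18,0),(2,0)]⟩,⟨1,[(6,0),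
  (2,1),(7,0),(15,0)]⟩⟩,.o ⟨false,0,⟨1,[(17,0),(2,0),(2,0)]⟩,⟨1,[(18,1),(9,0),(5,0)]⟩⟩]⟩)) (.I [0,
  -1,-1,-1,1,0,0,-1,1] (.R ⟨1,false,false,true,[0,0,0,1],[0,0,1],[0,0,0,-1,0,0,0,0,1],(⟨0,[(18,0)]⟩,
  ⟨1,[(17,0),(8,0),(0,0)]⟩),(⟨0,[(27,0)]⟩,⟨0,[(26,0)]⟩),⟨0,[(1,0)]⟩,.k,.k,(.r (-1) ⟨0,[(0,0),(6,
  0)]⟩ ⟨3,[(2,1),(0,1),(5,1),(13,2),(0,0)]⟩),.k,(.r (-1) ⟨0,[(0,0),(36,0)]⟩ ⟨1,[(2,1),(20,0),(0,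
  0)]⟩),.k,⟨false,1,⟨0,[(0,0)]⟩,⟨0,[(2,0),(34,0)]⟩⟩,⟨true,0,⟨2,[(4,0),(9,0),(3,2)]⟩,⟨3,[(8,1),(8,1),
  (5,0),(0,0)]⟩⟩,⟨true,0,⟨0,[(33,0)]⟩,⟨0,[(32,0)]⟩⟩,⟨false,0,⟨1,[(2,1),(3,0),(7,0),(3,1),(14,0)]⟩,
  ⟨3,[(0,1),(8,1),(6,0),(0,1),(2,1),(14,0)]⟩⟩,⟨false,1,⟨3,[(15,0),(0,0),(18,1)]⟩,⟨0,[]⟩⟩,⟨false,0,
  ⟨2,[(2,2),(1,0),(9,0),(3,2)]⟩,⟨3,[(0,3),(7,1),(8,1),(5,0),(0,0)]⟩⟩,[.o ⟨false,0,⟨0,[(21,0)]⟩,⟨0,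
  [(19,0),(15,0)]⟩⟩,.o ⟨false,1,⟨3,[(15,0),(0,0),(4,3),(13,1)]⟩,⟨0,[(6,0),(2,0)]⟩⟩,.a ⟨true,0,⟨1,
  [(17,0),(8,0),(0,0)]⟩,⟨0,[(18,0)]⟩⟩ ⟨false,1,⟨1,[(16,0),(16,1),(1,0)]⟩,⟨0,[(2,0),(22,0)]⟩⟩ ⟨true,
  0,⟨0,[(18,0),(2,0)]⟩,⟨1,[(6,0),(2,1),(7,0),(15,0)]⟩⟩,.o ⟨false,0,⟨1,[(17,0),(2,0),(2,0)]⟩,⟨1,[(18,
  1),(9,0),(5,0)]⟩⟩]⟩) (.R ⟨1,false,false,true,[0,0,0,1],[0,0,1],[1,1,0,0,0,0,0,0,1],(⟨0,[(18,0)]⟩,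
  ⟨1,[(17,0),(8,0),(0,0)]⟩),(⟨0,[(27,0)]⟩,⟨0,[(26,0)]⟩),⟨0,[(1,0)]⟩,.k,.k,(.r (-1) ⟨1,[(16,0),(16,
  1),(0,0)]⟩ ⟨2,[(0,0),(8,0),(5,0),(7,0),(7,0),(0,0)]⟩),.k,(.r (-1) ⟨1,[(16,0),(8,1),(7,1),(0,0)]⟩
  ⟨3,[(0,3),(14,0),(0,0),(18,1)]⟩),.k,⟨false,1,⟨1,[(16,0),(8,1),(8,0)]⟩,⟨0,[(2,0),(30,0)]⟩⟩,⟨true,0,
  ⟨2,[(4,0),(9,0),(3,2)]⟩,⟨3,[(8,1),(8,1),(5,0),(0,0)]⟩⟩,⟨false,0,⟨0,[]⟩,⟨3,[(15,0),(0,0),(18,1)]⟩⟩,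
  ⟨false,0,⟨1,[(2,1),(3,0),(7,0),(3,1),(14,0)]⟩,⟨1,[(8,0),(7,0),(0,0),(7,1),(5,0),(2,0)]⟩⟩,⟨true,0,
  ⟨0,[(32,0)]⟩,⟨0,[(33,0)]⟩⟩,⟨false,0,⟨2,[(2,2),(1,0),(9,0),(3,2)]⟩,⟨1,[(6,0),(9,0),(0,0),(4,1),(8,
  1),(1,0),(0,0)]⟩⟩,[.o ⟨false,0,⟨0,[(21,0)]⟩,⟨0,[(19,0),(15,0)]⟩⟩,.o ⟨false,1,⟨3,[(15,0),(0,0),(4,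
  3),(13,1)]⟩,⟨0,[(6,0),(2,0)]⟩⟩,.a ⟨true,0,⟨1,[(17,0),(8,0),(0,0)]⟩,⟨0,[(18,0)]⟩⟩ ⟨false,1,⟨3,[(15,
  0),(0,2)]⟩,⟨0,[(0,0),(24,0),(5,0),(1,0),(0,0)]⟩⟩ ⟨true,0,⟨0,[(18,0),(2,0)]⟩,⟨1,[(6,0),(2,1),(7,0),
  (15,0)]⟩⟩,.o ⟨false,0,⟨1,[(17,0),(2,0),(2,0)]⟩,⟨1,[(18,1),(9,0),(5,0)]⟩⟩]⟩))) (.Q [0,1,0,0,0,0,0,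
  0,1,1,0,-1] (.p false [0,0,0,1] [1] (⟨0,[(16,0)]⟩,⟨1,[(15,0),(8,0),(0,0)]⟩) .k 1 (⟨0,[]⟩,⟨0,[]⟩)
  .k .k) (.K ⟨2,[1,0,0,-1],0,0,(⟨1,[(16,0),(8,0),(0,0)]⟩,⟨0,[(17,0)]⟩),.k,(.r (-1) ⟨1,[(14,0),(17,
  1),(0,0)]⟩ ⟨0,[(1,0),(7,0),(2,0),(17,0)]⟩),(.r 0 ⟨3,[(2,3),(19,0),(0,0),(6,1),(0,3)]⟩ ⟨1,[(15,0),
  (16,1),(0,0)]⟩),.k,.k,[⟨1,[(13,0),(2,0)]⟩,⟨2,[(3,0),(9,0),(3,2)]⟩,⟨1,[(13,0),(2,0),(6,1)]⟩,⟨2,[(3,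
  0),(13,2),(1,1),(2,0)]⟩,⟨0,[(0,0)]⟩,⟨1,[(2,1),(2,0),(3,0),(7,1),(0,0)]⟩]⟩) (.Q [0,0,0,0,0,1,0,0,0,
  0,0,-1] (.p false [0,0,0,1] [] (⟨0,[(17,0)]⟩,⟨1,[(16,0),(8,0),(0,0)]⟩) .k 0 (⟨0,[]⟩,⟨0,[]⟩) .k
  .k) (.R ⟨0,false,false,true,[0,0,0,1],[0,0,1],[1,0,0,0,0,0,0,0,1],(⟨0,[(18,0)]⟩,⟨1,[(17,0),(8,0),
  (0,0)]⟩),(⟨0,[(27,0)]⟩,⟨0,[(26,0)]⟩),⟨0,[(0,0)]⟩,.k,.k,(.r (-1) ⟨1,[(16,0),(16,1),(0,0)]⟩ ⟨3,[(3,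
  3),(19,0),(0,0),(6,1),(0,3)]⟩),.k,.k,.k,⟨false,1,⟨11,[(2,5),(1,1),(4,5),(4,1),(1,2),(14,5),(2,
  8)]⟩,⟨0,[(3,0),(3,0)]⟩⟩,⟨true,0,⟨2,[(4,0),(9,0),(3,2)]⟩,⟨3,[(8,1),(8,1),(5,0),(0,0)]⟩⟩,⟨true,0,⟨0,
  []⟩,⟨0,[(37,0)]⟩⟩,⟨false,0,⟨1,[(1,1),(5,1),(6,0),(11,0),(0,0)]⟩,⟨7,[(2,3),(5,1),(0,3),(6,1),(0,3),
  (10,0),(5,0),(0,3)]⟩⟩,⟨false,0,⟨0,[]⟩,⟨0,[]⟩⟩,⟨false,0,⟨0,[]⟩,⟨0,[]⟩⟩,[.o ⟨false,0,⟨0,[(21,0)]⟩,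
  ⟨0,[(19,0),(15,0)]⟩⟩,.o ⟨false,1,⟨3,[(15,0),(0,0),(4,3),(13,1)]⟩,⟨0,[(6,0),(2,0)]⟩⟩,.a ⟨true,0,⟨1,
  [(17,0),(8,0),(0,0)]⟩,⟨0,[(18,0)]⟩⟩ ⟨false,1,⟨1,[(16,0),(18,0)]⟩,⟨1,[(1,5),(0,3),(4,3),(1,1),(0,
  1),(1,2),(4,2),(9,2),(2,2)]⟩⟩ ⟨true,0,⟨0,[(18,0),(2,0)]⟩,⟨1,[(6,0),(2,1),(7,0),(15,0)]⟩⟩,.o
  ⟨false,0,⟨1,[(17,0),(2,0),(2,0)]⟩,⟨1,[(18,1),(9,0),(5,0)]⟩⟩]⟩) (.R ⟨1,false,false,false,[1,0,0,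
  -1],[1,-1],[1,1,0,0,0,0,0,0,-1],(⟨1,[(17,0),(8,0),(0,0)]⟩,⟨0,[(18,0)]⟩),(⟨0,[(29,0)]⟩,⟨0,[(30,
  0)]⟩),⟨0,[(0,0),(16,0)]⟩,.k,.k,(.r (-1) ⟨1,[(15,0),(17,1),(0,0)]⟩ ⟨0,[(2,0),(7,0),(2,0),(17,0)]⟩),
  (.r 0 ⟨3,[(3,3),(19,0),(0,0),(6,1),(0,3)]⟩ ⟨1,[(16,0),(16,1),(0,0)]⟩),.k,.k,⟨false,0,⟨0,[(3,0),
  (28,0)]⟩,⟨0,[(2,0),(4,0),(23,0),(2,0)]⟩⟩,⟨true,0,⟨1,[(17,0),(2,0),(2,0)]⟩,⟨0,[(18,0)]⟩⟩,⟨false,0,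
  ⟨0,[]⟩,⟨3,[(15,0),(0,0),(18,1)]⟩⟩,⟨false,1,⟨1,[(6,0),(9,0),(0,0),(15,0),(1,0)]⟩,⟨1,[(1,0),(1,0),
  (5,0),(0,0),(7,0),(7,0),(0,0)]⟩⟩,⟨true,0,⟨0,[(32,0)]⟩,⟨0,[(33,0)]⟩⟩,⟨false,1,⟨3,[(16,1),(0,1),(10,
  0),(2,1),(2,0)]⟩,⟨0,[(3,0),(14,0)]⟩⟩,[.o ⟨false,0,⟨0,[(6,0)]⟩,⟨3,[(15,0),(0,0),(15,3),(2,1)]⟩⟩,.o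
  ⟨false,1,⟨1,[(28,0),(4,1),(1,0)]⟩,⟨0,[(32,0)]⟩⟩,.a ⟨true,0,⟨0,[(18,0)]⟩,⟨1,[(17,0),(8,0),(0,0)]⟩⟩
  ⟨false,0,⟨0,[(3,0)]⟩,⟨1,[(16,0),(18,0)]⟩⟩ ⟨true,0,⟨1,[(6,0),(10,0),(15,0)]⟩,⟨0,[(18,0),(13,0)]⟩⟩,
  .o ⟨false,0,⟨2,[(4,0),(13,2),(1,1),(2,0)]⟩,⟨7,[(15,0),(0,0),(0,3),(10,1),(5,3)]⟩⟩]⟩)))) (.Q [0,1,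
  0,0,0,0,0,0,-1,0,0,1] (.p true [0,0,0,1] [] (⟨0,[(15,0)]⟩,⟨1,[(14,0),(8,0),(0,0)]⟩) .k 0 (⟨0,[]⟩,
  ⟨0,[]⟩) .k .k) (.K ⟨2,[0,0,0,1],0,0,(⟨0,[(16,0)]⟩,⟨1,[(15,0),(8,0),(0,0)]⟩),.k,(.r (-1) ⟨1,[(14,
  0),(16,1),(0,0)]⟩ ⟨3,[(0,3),(1,0),(4,1),(0,1),(6,1),(2,0),(10,2)]⟩),(.r 0 ⟨3,[(1,3),(19,0),(0,0),
  (6,1),(0,3)]⟩ ⟨1,[(13,0),(17,1),(0,0)]⟩),.k,.k,[⟨2,[(2,0),(9,0),(3,2)]⟩,⟨1,[(12,0),(2,0)]⟩,⟨1,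
  [(16,1),(4,0),(0,0)]⟩,⟨1,[(15,0),(2,0),(2,0)]⟩,⟨0,[(0,0)]⟩,⟨1,[(1,1),(13,0),(1,0),(1,0)]⟩]⟩) (.Q
  [0,0,0,0,0,-1,0,0,0,1,0,-1] (.p false [0,0,0,1] [1] (⟨0,[(16,0)]⟩,⟨1,[(15,0),(8,0),(0,0)]⟩) .k 1
  (⟨0,[]⟩,⟨0,[]⟩) .k .k) (.R ⟨1,false,false,true,[1,0,0,-1],[0,0,1],[1,1,0,0,0,0,0,0,-1],(⟨1,[(16,
  0),(8,0),(0,0)]⟩,⟨0,[(17,0)]⟩),(⟨0,[(26,0)]⟩,⟨0,[(25,0)]⟩),⟨0,[(0,0)]⟩,.k,.k,(.r (-1) ⟨1,[(14,0),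
  (17,1),(0,0)]⟩ ⟨3,[(2,3),(19,0),(0,0),(6,1),(0,3)]⟩),.k,(.r (-1) ⟨1,[(14,0),(9,1),(7,1),(0,0)]⟩
  ⟨2,[(2,2),(3,0),(2,1),(2,0),(10,0),(6,1)]⟩),.k,⟨false,1,⟨1,[(14,0),(9,1),(8,0)]⟩,⟨0,[(1,0),(4,0),
  (10,0)]⟩⟩,⟨true,0,⟨1,[(13,0),(2,0)]⟩,⟨0,[(17,0),(1,0)]⟩⟩,⟨false,0,⟨0,[]⟩,⟨3,[(14,0),(0,0),(18,
  1)]⟩⟩,⟨false,0,⟨1,[(1,1),(4,1),(6,0),(11,0),(0,0)]⟩,⟨1,[(5,1),(2,1),(5,0),(2,1),(16,0)]⟩⟩,⟨true,0,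
  ⟨0,[(31,0)]⟩,⟨0,[(32,0)]⟩⟩,⟨false,0,⟨0,[(1,0),(7,0),(15,0),(0,0)]⟩,⟨1,[(5,1),(8,0),(2,1),(3,1),(8,
  1),(2,0)]⟩⟩,[.o ⟨false,0,⟨0,[(20,0)]⟩,⟨0,[(18,0),(15,0)]⟩⟩,.o ⟨false,1,⟨3,[(14,0),(0,0),(4,3),(13,
  1)]⟩,⟨0,[(5,0),(2,0)]⟩⟩,.a ⟨true,0,⟨0,[(17,0)]⟩,⟨1,[(16,0),(8,0),(0,0)]⟩⟩ ⟨false,1,⟨3,[(14,2),(0,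
  0)]⟩,⟨0,[(1,0),(15,0)]⟩⟩ ⟨true,0,⟨1,[(6,1),(6,0),(2,0)]⟩,⟨0,[(5,0),(2,0),(8,0)]⟩⟩,.o ⟨false,0,⟨2,
  [(3,0),(13,2),(1,1),(2,0)]⟩,⟨7,[(14,0),(0,0),(0,3),(10,1),(5,3)]⟩⟩]⟩) (.R ⟨0,false,false,true,[1,
  0,0,-1],[0,0,1],[0,1,0,0,0,0,0,0,-1],(⟨1,[(16,0),(8,0),(0,0)]⟩,⟨0,[(17,0)]⟩),(⟨0,[(26,0)]⟩,⟨0,
  [(25,0)]⟩),⟨0,[(0,0)]⟩,.k,.k,(.r (-1) ⟨1,[(14,0),(17,1),(0,0)]⟩ ⟨3,[(2,3),(19,0),(0,0),(6,1),(0,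
  3)]⟩),.k,.k,.k,⟨false,1,⟨1,[(14,0),(9,1),(8,0)]⟩,⟨0,[(1,0),(4,0),(10,0)]⟩⟩,⟨true,0,⟨1,[(13,0),(2,
  0)]⟩,⟨0,[(17,0),(1,0)]⟩⟩,⟨true,0,⟨0,[(36,0)]⟩,⟨0,[]⟩⟩,⟨false,0,⟨1,[(1,1),(4,1),(6,0),(11,0),(0,
  0)]⟩,⟨1,[(5,1),(2,1),(5,0),(2,1),(16,0)]⟩⟩,⟨false,0,⟨0,[]⟩,⟨0,[]⟩⟩,⟨false,0,⟨0,[]⟩,⟨0,[]⟩⟩,[.o
  ⟨false,0,⟨0,[(20,0)]⟩,⟨0,[(18,0),(15,0)]⟩⟩,.o ⟨false,1,⟨3,[(14,0),(0,0),(4,3),(13,1)]⟩,⟨0,[(5,0),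
  (2,0)]⟩⟩,.a ⟨true,0,⟨0,[(17,0)]⟩,⟨1,[(16,0),(8,0),(0,0)]⟩⟩ ⟨false,1,⟨3,[(14,2),(0,0)]⟩,⟨0,[(1,0),
  (15,0)]⟩⟩ ⟨true,0,⟨1,[(6,1),(6,0),(2,0)]⟩,⟨0,[(5,0),(2,0),(8,0)]⟩⟩,.o ⟨false,0,⟨2,[(3,0),(13,2),
  (1,1),(2,0)]⟩,⟨7,[(14,0),(0,0),(0,3),(10,1),(5,3)]⟩⟩]⟩))))) (.Q [0,0,0,-1,0,0,1,1,0,1,-1] (.p
  false [0,0,1] [1] (⟨0,[(22,0)]⟩,⟨0,[(21,0)]⟩) .k 1 (⟨0,[]⟩,⟨0,[]⟩) .k .k) (.R ⟨2,true,false,false,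
  [0,1],[1,1,-1],[0,1,1],(⟨0,[]⟩,⟨0,[]⟩),(⟨0,[(22,0),(3,0)]⟩,⟨0,[(1,0)]⟩),⟨0,[]⟩,.k,.k,.k,.k,.k,.k,
  ⟨true,0,⟨0,[(3,0),(25,0)]⟩,⟨1,[(5,1),(1,0),(11,0),(7,0)]⟩⟩,⟨false,1,⟨3,[(4,1),(19,0),(5,2)]⟩,⟨1,
  [(10,0),(11,0),(0,0)]⟩⟩,⟨false,0,⟨0,[(29,0)]⟩,⟨0,[(28,0),(2,0)]⟩⟩,⟨true,0,⟨0,[(2,0),(2,0)]⟩,⟨0,
  [(0,0),(27,0)]⟩⟩,⟨true,0,⟨0,[(33,0)]⟩,⟨0,[]⟩⟩,⟨false,1,⟨1,[(5,1),(18,0),(6,0)]⟩,⟨0,[(0,0)]⟩⟩,[]⟩)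
  (.I [0,0,1,1,0,0,0,1,-1] (.I [0,0,1,1,0,0,0,0,1] (.I [0,-1,0,-1,0,0,0,0,-1] (.R ⟨1,false,false,
  false,[1,0,0,-1],[1,-1],[0,0,0,-1,0,0,0,0,-1],(⟨1,[(16,0),(8,0),(0,0)]⟩,⟨0,[(17,0)]⟩),(⟨0,[(28,
  0)]⟩,⟨0,[(29,0)]⟩),⟨1,[(4,0),(6,0),(4,0)]⟩,.k,.k,(.r (-1) ⟨1,[(14,0),(17,1),(0,0)]⟩ ⟨0,[(1,0)]⟩),
  (.r 0 ⟨0,[(2,0),(21,0)]⟩ ⟨1,[(15,0),(16,1),(0,0)]⟩),.k,.k,⟨false,0,⟨0,[(0,0),(30,0)]⟩,⟨1,[(15,0),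
  (17,0)]⟩⟩,⟨true,0,⟨1,[(16,0),(2,0),(2,0)]⟩,⟨0,[(17,0)]⟩⟩,⟨true,0,⟨0,[(32,0)]⟩,⟨0,[(31,0)]⟩⟩,
  ⟨false,1,⟨1,[(5,0),(9,0),(0,0),(15,0),(1,0)]⟩,⟨0,[(0,0),(7,0),(0,0),(7,0)]⟩⟩,⟨false,1,⟨3,[(14,0),
  (0,0),(18,1)]⟩,⟨0,[]⟩⟩,⟨false,1,⟨3,[(15,1),(0,1),(10,0),(2,1),(2,0)]⟩,⟨0,[(0,0),(16,0),(13,0)]⟩⟩,
  [.o ⟨false,0,⟨0,[(5,0)]⟩,⟨3,[(14,0),(0,0),(15,3),(2,1)]⟩⟩,.o ⟨false,1,⟨1,[(27,0),(4,1),(1,0)]⟩,⟨0,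
  [(31,0)]⟩⟩,.a ⟨true,0,⟨0,[(17,0)]⟩,⟨1,[(16,0),(8,0),(0,0)]⟩⟩ ⟨false,0,⟨0,[(0,0)]⟩,⟨1,[(15,0),(15,
  1),(2,0)]⟩⟩ ⟨true,0,⟨1,[(5,0),(10,0),(15,0)]⟩,⟨0,[(17,0),(13,0)]⟩⟩,.o ⟨false,0,⟨10,[(3,1),(1,3),
  (3,1),(7,10),(1,4),(2,4),(7,0)]⟩,⟨7,[(14,0),(0,0),(0,3),(10,1),(5,3)]⟩⟩]⟩) (.Q [0,1,0,0,0,0,0,0,
  -1,0,0,1] (.p true [0,0,0,1] [] (⟨0,[(17,0)]⟩,⟨1,[(16,0),(8,0),(0,0)]⟩) .k 0 (⟨0,[]⟩,⟨0,[]⟩) .k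
  .k) (.K ⟨2,[0,0,0,1],0,0,(⟨0,[(18,0)]⟩,⟨1,[(17,0),(8,0),(0,0)]⟩),.k,(.r (-1) ⟨1,[(16,0),(16,1),(0,
  0)]⟩ ⟨0,[(3,0),(21,0)]⟩),(.r 0 ⟨0,[(2,0)]⟩ ⟨1,[(15,0),(17,1),(0,0)]⟩),.k,.k,[⟨0,[(11,0),(6,0)]⟩,
  ⟨1,[(14,0),(2,0)]⟩,⟨1,[(18,1),(4,0),(0,0)]⟩,⟨1,[(17,0),(2,0),(2,0)]⟩,⟨0,[(0,0)]⟩,⟨1,[(1,1),(4,0),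
  (10,0),(15,0)]⟩]⟩) (.R ⟨1,false,false,true,[1,0,0,-1],[0,0,1],[1,1,0,0,0,0,0,0,-1],(⟨1,[(17,0),(8,
  0),(0,0)]⟩,⟨0,[(18,0)]⟩),(⟨0,[(27,0)]⟩,⟨0,[(26,0)]⟩),⟨1,[(5,0),(6,0),(4,0)]⟩,.k,.k,(.r (-1) ⟨1,
  [(15,0),(17,1),(0,0)]⟩ ⟨0,[(2,0)]⟩),.k,(.r (-1) ⟨1,[(15,0),(9,1),(7,1),(0,0)]⟩ ⟨2,[(0,1),(1,1),(0,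
  0),(3,1),(10,1)]⟩),.k,⟨false,1,⟨1,[(15,0),(9,1),(8,0)]⟩,⟨0,[(0,0),(6,0),(10,0)]⟩⟩,⟨true,0,⟨1,[(14,
  0),(2,0)]⟩,⟨0,[(18,0),(1,0)]⟩⟩,⟨false,0,⟨0,[]⟩,⟨3,[(15,0),(0,0),(18,1)]⟩⟩,⟨false,0,⟨1,[(0,1),(6,
  1),(6,0),(11,0),(0,0)]⟩,⟨3,[(4,1),(1,1),(8,1),(2,3),(3,1),(8,1),(2,0),(0,0)]⟩⟩,⟨true,0,⟨0,[(32,
  0)]⟩,⟨0,[(33,0)]⟩⟩,⟨false,0,⟨0,[(0,0),(9,0),(15,0),(0,0)]⟩,⟨1,[(6,1),(8,0),(2,1),(3,1),(8,1),(2,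
  0)]⟩⟩,[.o ⟨false,0,⟨0,[(21,0)]⟩,⟨0,[(19,0),(15,0)]⟩⟩,.o ⟨false,1,⟨3,[(15,0),(0,0),(4,3),(13,1)]⟩,
  ⟨0,[(4,0),(28,0)]⟩⟩,.a ⟨true,0,⟨0,[(18,0)]⟩,⟨1,[(17,0),(8,0),(0,0)]⟩⟩ ⟨false,1,⟨3,[(15,2),(0,0)]⟩,
  ⟨0,[(0,0),(17,0)]⟩⟩ ⟨true,0,⟨1,[(7,1),(6,0),(2,0)]⟩,⟨0,[(4,0),(13,0),(14,0)]⟩⟩,.o ⟨false,0,⟨10,
  [(4,1),(1,3),(3,1),(7,10),(1,4),(2,4),(7,0)]⟩,⟨7,[(15,0),(0,0),(0,3),(10,1),(5,3)]⟩⟩]⟩))) (.R ⟨1,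
  false,false,false,[1,0,0,-1],[1,-1],[1,0,0,0,0,0,0,0,-1],(⟨1,[(15,0),(8,0),(0,0)]⟩,⟨0,[(16,0)]⟩),
  (⟨0,[(27,0)]⟩,⟨0,[(28,0)]⟩),⟨1,[(3,0),(6,0),(4,0)]⟩,.k,.k,(.x 0 ⟨1,[(3,0),(6,0),(7,0),(2,0)]⟩ ⟨3,
  [(13,0),(0,0),(13,3),(3,1)]⟩),(.r 0 ⟨0,[(1,0),(21,0)]⟩ ⟨0,[(0,0),(13,0)]⟩),.k,.k,⟨false,0,⟨4,[(0,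
  2),(0,1),(0,0),(4,2),(0,1),(3,0),(16,0)]⟩,⟨0,[(0,0),(13,0)]⟩⟩,⟨true,0,⟨1,[(15,0),(2,0),(2,0)]⟩,⟨0,
  [(16,0)]⟩⟩,⟨true,0,⟨0,[]⟩,⟨0,[(35,0)]⟩⟩,⟨false,1,⟨1,[(4,0),(9,0),(0,0),(15,0),(1,0)]⟩,⟨4,[(0,2),
  (0,1),(0,0),(4,2),(0,1),(3,0),(3,4),(12,0)]⟩⟩,⟨false,1,⟨0,[(30,0),(2,0)]⟩,⟨0,[(31,0)]⟩⟩,⟨false,1,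
  ⟨3,[(14,1),(0,1),(10,0),(2,1),(2,0)]⟩,⟨1,[(0,0),(0,0),(14,1),(6,0)]⟩⟩,[.o ⟨false,0,⟨0,[(4,0)]⟩,⟨3,
  [(13,0),(0,0),(15,3),(2,1)]⟩⟩,.o ⟨false,1,⟨1,[(26,0),(4,1),(1,0)]⟩,⟨0,[(30,0)]⟩⟩,.a ⟨true,0,⟨0,
  [(16,0)]⟩,⟨1,[(15,0),(8,0),(0,0)]⟩⟩ ⟨false,0,⟨9,[(0,7),(0,1),(0,0),(4,2),(0,1),(3,0),(16,5)]⟩,⟨3,
  [(13,0),(0,2)]⟩⟩ ⟨true,0,⟨1,[(4,0),(10,0),(15,0)]⟩,⟨0,[(16,0),(13,0)]⟩⟩,.o ⟨false,0,⟨10,[(2,1),(1,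
  3),(3,1),(7,10),(1,4),(2,4),(7,0)]⟩,⟨7,[(13,0),(0,0),(0,3),(10,1),(5,3)]⟩⟩]⟩)) (.I [0,0,-1,-1,0,0,
  0,0,1] (.R ⟨1,false,false,false,[1,0,0,-1],[1,-1],[1,0,0,0,0,0,0,0,-1],(⟨1,[(15,0),(8,0),(0,0)]⟩,
  ⟨0,[(16,0)]⟩),(⟨0,[(27,0)]⟩,⟨0,[(28,0)]⟩),⟨1,[(3,0),(6,0),(4,0)]⟩,.k,.k,(.r (-1) ⟨0,[(0,0),(12,
  0)]⟩ ⟨1,[(0,1),(20,0),(0,0),(6,1),(0,3)]⟩),(.r (-1) ⟨1,[(13,0),(7,0),(0,0),(7,1),(2,0)]⟩ ⟨0,[(0,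
  0)]⟩),.k,.k,⟨false,1,⟨1,[(13,0),(16,1),(2,0)]⟩,⟨0,[(0,0)]⟩⟩,⟨true,0,⟨1,[(15,0),(2,0),(2,0)]⟩,⟨0,
  [(16,0)]⟩⟩,⟨true,0,⟨0,[]⟩,⟨0,[(35,0)]⟩⟩,⟨false,0,⟨21,[(0,21),(1,1),(1,3),(3,1),(6,10),(2,4),(2,4),
  (7,11)]⟩,⟨1,[(13,0),(2,1),(13,1),(2,0)]⟩⟩,⟨false,1,⟨0,[(30,0),(2,0)]⟩,⟨0,[(31,0)]⟩⟩,⟨false,0,⟨9,
  [(0,9),(1,3),(5,3),(6,4),(2,0),(2,0),(7,7),(0,1)]⟩,⟨3,[(13,2),(0,0),(1,3)]⟩⟩,[.o ⟨false,0,⟨0,[(4,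
  0)]⟩,⟨3,[(13,0),(0,0),(15,3),(2,1)]⟩⟩,.o ⟨false,1,⟨1,[(26,0),(4,1),(1,0)]⟩,⟨0,[(30,0)]⟩⟩,.a ⟨true,
  0,⟨0,[(16,0)]⟩,⟨1,[(15,0),(8,0),(0,0)]⟩⟩ ⟨false,1,⟨1,[(13,0),(19,0)]⟩,⟨3,[(0,3),(20,0),(0,0),(6,
  1),(0,3)]⟩⟩ ⟨true,0,⟨1,[(4,0),(10,0),(15,0)]⟩,⟨0,[(16,0),(13,0)]⟩⟩,.o ⟨false,0,⟨10,[(2,1),(1,3),
  (3,1),(7,10),(1,4),(2,4),(7,0)]⟩,⟨7,[(13,0),(0,0),(0,3),(10,1),(5,3)]⟩⟩]⟩) (.I [1,-1,0,0,0,0,0,0,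
  1] (.I [0,-1,-1,-1,1,0,0,-1,-1] (.R ⟨1,false,false,true,[1,0,0,-1],[0,0,1],[0,0,0,-1,0,0,0,0,-1],
  (⟨1,[(17,0),(8,0),(0,0)]⟩,⟨0,[(18,0)]⟩),(⟨0,[(27,0)]⟩,⟨0,[(26,0)]⟩),⟨1,[(5,0),(6,0),(4,0)]⟩,.k,.k,
  (.r (-1) ⟨0,[(0,0),(6,0)]⟩ ⟨1,[(1,1),(21,0),(0,0),(7,1)]⟩),.k,(.r (-1) ⟨0,[(0,0),(36,0)]⟩ ⟨0,[(1,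
  0),(8,0),(13,0)]⟩),.k,⟨false,1,⟨0,[(0,0)]⟩,⟨0,[(1,0),(5,0),(24,0)]⟩⟩,⟨true,0,⟨1,[(14,0),(2,0)]⟩,
  ⟨0,[(18,0),(1,0)]⟩⟩,⟨true,0,⟨0,[(33,0)]⟩,⟨0,[(32,0)]⟩⟩,⟨false,0,⟨1,[(1,1),(5,1),(6,0),(2,0)]⟩,⟨5,
  [(0,3),(1,1),(1,1),(3,1),(9,5),(9,0),(6,0)]⟩⟩,⟨false,1,⟨3,[(15,0),(0,0),(18,1)]⟩,⟨0,[]⟩⟩,⟨false,0,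
  ⟨1,[(1,1),(8,1),(6,0),(8,0),(0,0)]⟩,⟨0,[(0,0),(17,0),(1,0)]⟩⟩,[.o ⟨false,0,⟨0,[(21,0)]⟩,⟨5,[(0,1),
  (3,1),(3,1),(7,0),(8,1),(2,0),(6,1)]⟩⟩,.o ⟨false,1,⟨3,[(15,0),(0,0),(4,3),(13,1)]⟩,⟨0,[(4,0),(28,
  0)]⟩⟩,.a ⟨true,0,⟨0,[(18,0)]⟩,⟨1,[(17,0),(8,0),(0,0)]⟩⟩ ⟨false,1,⟨1,[(15,0),(17,1),(1,0)]⟩,⟨0,[(1,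
  0),(30,0)]⟩⟩ ⟨true,0,⟨1,[(7,1),(6,0),(2,0)]⟩,⟨0,[(4,0),(13,0),(14,0)]⟩⟩,.o ⟨false,0,⟨10,[(4,1),(1,
  3),(3,1),(7,10),(1,4),(2,4),(7,0)]⟩,⟨7,[(15,0),(0,0),(0,3),(10,1),(5,3)]⟩⟩]⟩) (.R ⟨1,false,false,
  true,[1,0,0,-1],[0,0,1],[1,1,0,0,0,0,0,0,-1],(⟨1,[(17,0),(8,0),(0,0)]⟩,⟨0,[(18,0)]⟩),(⟨0,[(27,
  0)]⟩,⟨0,[(26,0)]⟩),⟨1,[(5,0),(6,0),(4,0)]⟩,.k,.k,(.r (-1) ⟨1,[(15,0),(17,1),(0,0)]⟩ ⟨9,[(0,3),(1,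
  1),(1,0),(4,2),(4,0),(1,3),(6,1),(7,1)]⟩),.k,(.r (-1) ⟨0,[(3,0),(11,0)]⟩ ⟨3,[(0,2),(1,0),(4,0),(8,
  0),(18,1)]⟩),.k,⟨false,1,⟨1,[(15,0),(9,1),(8,0)]⟩,⟨0,[(1,0),(5,0)]⟩⟩,⟨true,0,⟨1,[(14,0),(2,0)]⟩,
  ⟨0,[(18,0),(1,0)]⟩⟩,⟨false,0,⟨0,[]⟩,⟨3,[(15,0),(0,0),(18,1)]⟩⟩,⟨false,0,⟨1,[(1,1),(5,1),(6,0),(2,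
  0)]⟩,⟨9,[(3,3),(0,5),(1,1),(1,1),(6,6),(2,9),(12,1),(3,2)]⟩⟩,⟨true,0,⟨0,[(32,0)]⟩,⟨0,[(33,0)]⟩⟩,
  ⟨false,0,⟨1,[(0,1),(13,0),(2,0),(16,0),(0,0)]⟩,⟨9,[(3,7),(0,1),(1,3),(1,3),(6,8),(2,9),(12,3),(3,
  0)]⟩⟩,[.o ⟨false,0,⟨0,[(21,0)]⟩,⟨0,[(19,0),(15,0)]⟩⟩,.o ⟨false,1,⟨3,[(15,0),(0,0),(4,3),(13,1)]⟩,
  ⟨0,[(4,0),(28,0)]⟩⟩,.a ⟨true,0,⟨0,[(18,0)]⟩,⟨1,[(17,0),(8,0),(0,0)]⟩⟩ ⟨false,1,⟨3,[(15,2),(0,0)]⟩,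
  ⟨0,[(0,0),(3,0),(0,2),(0,1),(4,0),(0,2),(17,5),(0,0),(2,0)]⟩⟩ ⟨true,0,⟨1,[(7,1),(6,0),(2,0)]⟩,⟨0,
  [(4,0),(13,0),(14,0)]⟩⟩,.o ⟨false,0,⟨16,[(0,1),(1,1),(1,1),(1,5),(11,16),(1,4),(2,6),(4,1),(2,
  0)]⟩,⟨7,[(15,0),(0,0),(0,3),(10,1),(5,3)]⟩⟩]⟩)) (.K ⟨2,[0,0,0,1],0,0,(⟨0,[(17,0)]⟩,⟨1,[(16,0),(8,
  0),(0,0)]⟩),.k,(.r (-1) ⟨1,[(15,0),(16,1),(0,0)]⟩ ⟨0,[(0,0),(2,0),(0,1),(0,0),(3,0),(1,1),(17,3),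
  (0,0)]⟩),(.r 0 ⟨0,[(2,0),(6,0),(13,0),(6,0),(0,0)]⟩ ⟨1,[(14,0),(17,1),(0,0)]⟩),.k,.k,[⟨0,[(10,0),
  (6,0)]⟩,⟨1,[(13,0),(2,0)]⟩,⟨1,[(17,1),(4,0),(0,0)]⟩,⟨1,[(16,0),(2,0),(2,0)]⟩,⟨0,[(0,0),(16,0)]⟩,
  ⟨1,[(2,1),(6,1),(6,0),(2,0),(3,0)]⟩]⟩)))))))

theorem ok9 : chk (cU (-1) false 10) t9 l7 = true := by decide +kernel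

noncomputable def l8 : List Con := (false, [0,0,0,0,0,2,0,0,0,-1,1]) :: r7

noncomputable def r8 : List Con := (false, [0,0,0,0,0,-2,0,0,0,1,-1]) :: r7

noncomputable def t10 : Tre :=
  (.Q [0,0,0,1,0,0,0,0,0,1] (.pp false [-1,1]) (.R ⟨0,false,false,true,[1,-1,-1],[1,-1],[1,0,1],(⟨0,
  [(7,0)]⟩,⟨0,[(22,0),(2,0)]⟩),(⟨0,[(24,0)]⟩,⟨0,[(25,0)]⟩),⟨0,[(1,0)]⟩,.k,.k,(.r (-1) ⟨0,[(20,0),(7,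
  1),(0,0)]⟩ ⟨1,[(0,1),(2,0),(1,1),(9,0),(2,0),(7,0)]⟩),.k,.k,.k,⟨false,0,⟨0,[(26,0),(0,0)]⟩,⟨0,
  [(28,0),(0,0),(2,0)]⟩⟩,⟨true,0,⟨0,[(6,0)]⟩,⟨0,[(19,0)]⟩⟩,⟨false,0,⟨0,[(5,0),(13,0),(6,0)]⟩,⟨0,
  [(20,0),(7,0),(0,0)]⟩⟩,⟨true,0,⟨0,[(16,0)]⟩,⟨0,[(4,0),(23,0)]⟩⟩,⟨false,0,⟨0,[]⟩,⟨0,[]⟩⟩,⟨false,0,
  ⟨0,[]⟩,⟨0,[]⟩⟩,[.e ⟨false,0,⟨0,[]⟩,⟨3,[(10,0),(0,0),(17,1)]⟩⟩ ⟨false,1,⟨1,[(9,0),(4,0),(1,0),(11,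
  1),(0,1)]⟩,⟨0,[(8,0),(17,0)]⟩⟩,.a ⟨true,0,⟨0,[(28,0)]⟩,⟨0,[(0,0)]⟩⟩ ⟨true,0,⟨3,[(18,0),(0,0),(6,
  1)]⟩,⟨0,[(32,0)]⟩⟩ ⟨false,1,⟨0,[(6,0),(21,0),(0,0)]⟩,⟨0,[(0,0),(14,0)]⟩⟩,.o ⟨false,0,⟨0,[(15,0)]⟩,
  ⟨7,[(9,3),(0,0),(0,0),(11,1),(5,3)]⟩⟩,.o ⟨false,0,⟨0,[(3,0),(14,0)]⟩,⟨0,[(6,0),(22,0)]⟩⟩]⟩) (.Q
  [0,0,0,1,0,0,0,0,-1,0,0,1] (.p true [0,0,0,1] [] (⟨0,[(13,0)]⟩,⟨1,[(12,0),(8,0),(0,0)]⟩) .k 0 (⟨0,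
  []⟩,⟨0,[]⟩) .k .k) (.Q [0,1,0,0,0,0,0,0,1,1,0,-1] (.p false [0,0,0,1] [1] (⟨0,[(14,0)]⟩,⟨1,[(13,
  0),(8,0),(0,0)]⟩) .k 1 (⟨0,[]⟩,⟨0,[]⟩) .k .k) (.K ⟨2,[1,0,0,-1],0,0,(⟨1,[(14,0),(8,0),(0,0)]⟩,⟨0,
  [(15,0)]⟩),.k,(.r (-1) ⟨1,[(12,0),(17,1),(0,0)]⟩ ⟨0,[(0,0),(1,0),(3,0),(0,0),(7,0),(12,0)]⟩),(.r
  0 ⟨1,[(1,1),(12,0),(2,0),(2,0)]⟩ ⟨1,[(13,0),(16,1),(0,0)]⟩),.k,.k,[⟨1,[(11,0),(2,0)]⟩,⟨0,[(8,0),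
  (6,0)]⟩,⟨1,[(11,0),(2,0),(6,1)]⟩,⟨2,[(2,0),(1,0),(2,0),(7,2),(1,1),(2,0)]⟩,⟨0,[(0,0)]⟩,⟨0,[(1,0),
  (0,0),(31,0)]⟩]⟩) (.Q [0,0,0,0,0,1,0,0,0,0,-1] (.ed true [1,-1,1] .k) (.Q [0,0,0,0,0,1,0,0,0,0,0,
  -1] (.p false [0,0,0,1] [] (⟨0,[(16,0)]⟩,⟨1,[(15,0),(8,0),(0,0)]⟩) .k 0 (⟨0,[]⟩,⟨0,[]⟩) .k .k)
  (.R ⟨0,false,false,true,[0,0,0,1],[0,0,1],[1,0,0,0,0,0,0,0,1],(⟨0,[(17,0)]⟩,⟨1,[(16,0),(8,0),(0,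
  0)]⟩),(⟨0,[(26,0)]⟩,⟨0,[(25,0)]⟩),⟨0,[(0,0)]⟩,.k,.k,(.r (-1) ⟨1,[(15,0),(16,1),(0,0)]⟩ ⟨1,[(3,1),
  (12,0),(2,0),(2,0)]⟩),.k,.k,.k,⟨false,1,⟨1,[(6,1),(8,0),(17,0)]⟩,⟨1,[(2,1),(9,1),(3,0),(3,1),(4,
  0),(0,0),(5,1)]⟩⟩,⟨true,0,⟨0,[(10,0),(6,0)]⟩,⟨3,[(7,1),(8,1),(5,0),(0,0)]⟩⟩,⟨true,0,⟨0,[]⟩,⟨0,
  [(36,0)]⟩⟩,⟨false,0,⟨0,[(2,0),(17,0),(4,0),(0,0)]⟩,⟨5,[(6,3),(0,1),(7,2),(0,2),(1,0),(2,0),(11,0),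
  (0,1)]⟩⟩,⟨false,0,⟨0,[]⟩,⟨0,[]⟩⟩,⟨false,0,⟨0,[]⟩,⟨0,[]⟩⟩,[.o ⟨false,0,⟨0,[(20,0)]⟩,⟨0,[(18,0),(15,
  0)]⟩⟩,.o ⟨false,1,⟨3,[(14,0),(0,0),(4,3),(13,1)]⟩,⟨0,[(4,0),(3,0)]⟩⟩,.a ⟨true,0,⟨1,[(16,0),(8,0),
  (0,0)]⟩,⟨0,[(17,0)]⟩⟩ ⟨false,1,⟨1,[(15,0),(18,0)]⟩,⟨1,[(2,0),(0,0),(12,0),(15,0),(3,0)]⟩⟩ ⟨true,0,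
  ⟨0,[(17,0),(2,0)]⟩,⟨1,[(4,0),(3,1),(7,0),(15,0)]⟩⟩,.o ⟨false,0,⟨1,[(16,0),(2,0),(2,0)]⟩,⟨1,[(17,
  1),(9,0),(5,0)]⟩⟩]⟩) (.R ⟨1,false,false,true,[0,0,0,1],[0,0,1],[1,0,0,0,0,0,0,0,1],(⟨0,[(17,0)]⟩,
  ⟨1,[(16,0),(8,0),(0,0)]⟩),(⟨0,[(26,0)]⟩,⟨0,[(25,0)]⟩),⟨0,[(0,0)]⟩,.k,.k,(.r (-1) ⟨1,[(15,0),(16,
  1),(0,0)]⟩ ⟨1,[(3,1),(12,0),(2,0),(2,0)]⟩),.k,(.r (-1) ⟨1,[(15,0),(8,1),(7,1),(0,0)]⟩ ⟨1,[(3,1),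
  (3,0),(8,0),(3,1),(9,0)]⟩),.k,⟨false,1,⟨1,[(6,1),(8,0),(17,0)]⟩,⟨1,[(2,1),(9,1),(3,0),(3,1),(4,0),
  (0,0),(5,1)]⟩⟩,⟨true,0,⟨0,[(10,0),(6,0)]⟩,⟨3,[(7,1),(8,1),(5,0),(0,0)]⟩⟩,⟨true,0,⟨0,[]⟩,⟨0,[(36,
  0)]⟩⟩,⟨false,0,⟨0,[(2,0),(17,0),(4,0),(0,0)]⟩,⟨5,[(6,3),(0,1),(7,2),(0,2),(1,0),(2,0),(11,0),(0,
  1)]⟩⟩,⟨false,1,⟨0,[(31,0),(2,0)]⟩,⟨0,[(32,0)]⟩⟩,⟨false,0,⟨0,[(2,0),(6,0),(15,0),(0,0)]⟩,⟨5,[(4,0),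
  (1,3),(0,1),(7,2),(0,2),(4,1),(10,4),(0,0),(0,1)]⟩⟩,[.o ⟨false,0,⟨0,[(20,0)]⟩,⟨0,[(18,0),(15,
  0)]⟩⟩,.o ⟨false,1,⟨3,[(14,0),(0,0),(4,3),(13,1)]⟩,⟨0,[(4,0),(3,0)]⟩⟩,.a ⟨true,0,⟨1,[(16,0),(8,0),
  (0,0)]⟩,⟨0,[(17,0)]⟩⟩ ⟨false,1,⟨1,[(15,0),(18,0)]⟩,⟨1,[(2,0),(0,0),(12,0),(15,0),(3,0)]⟩⟩ ⟨true,0,
  ⟨0,[(17,0),(2,0)]⟩,⟨1,[(4,0),(3,1),(7,0),(15,0)]⟩⟩,.o ⟨false,0,⟨1,[(16,0),(2,0),(2,0)]⟩,⟨1,[(17,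
  1),(9,0),(5,0)]⟩⟩]⟩)) (.R ⟨1,false,false,false,[1,0,0,-1],[1,-1],[1,0,0,0,0,0,0,0,-1],(⟨1,[(15,0),
  (8,0),(0,0)]⟩,⟨0,[(16,0)]⟩),(⟨0,[(27,0)]⟩,⟨0,[(28,0)]⟩),⟨1,[(0,0),(9,0),(4,0)]⟩,.k,.k,(.x 0 ⟨1,
  [(0,0),(9,0),(7,0),(2,0)]⟩ ⟨3,[(13,0),(0,0),(13,3),(3,1)]⟩),(.r 0 ⟨1,[(2,1),(12,0),(2,0),(2,0)]⟩
  ⟨1,[(14,0),(16,1),(0,0)]⟩),.k,.k,⟨false,0,⟨1,[(1,0),(0,0),(12,0),(14,0)]⟩,⟨1,[(14,0),(16,1),(0,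
  0)]⟩⟩,⟨true,0,⟨1,[(15,0),(2,0),(2,0)]⟩,⟨0,[(16,0)]⟩⟩,⟨true,0,⟨0,[]⟩,⟨0,[(35,0)]⟩⟩,⟨false,1,⟨1,[(3,
  0),(10,0),(0,0),(15,0),(1,0)]⟩,⟨0,[(2,0)]⟩⟩,⟨false,1,⟨0,[(30,0),(2,0)]⟩,⟨0,[(31,0)]⟩⟩,⟨false,1,⟨3,
  [(14,1),(0,1),(10,0),(2,1),(2,0)]⟩,⟨0,[(2,0),(28,0)]⟩⟩,[.o ⟨false,0,⟨0,[(3,0)]⟩,⟨3,[(13,0),(0,0),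
  (15,3),(2,1)]⟩⟩,.o ⟨false,1,⟨3,[(3,3),(9,0),(0,0),(18,1)]⟩,⟨0,[(30,0)]⟩⟩,.a ⟨true,0,⟨0,[(16,0)]⟩,
  ⟨1,[(15,0),(8,0),(0,0)]⟩⟩ ⟨false,0,⟨1,[(1,1),(13,0),(8,0),(0,0)]⟩,⟨3,[(13,0),(0,2)]⟩⟩ ⟨true,0,⟨1,
  [(3,0),(11,0),(15,0)]⟩,⟨0,[(16,0),(13,0)]⟩⟩,.o ⟨false,0,⟨2,[(3,0),(1,0),(2,0),(7,2),(1,1),(2,0)]⟩,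
  ⟨7,[(13,0),(0,0),(0,3),(10,1),(5,3)]⟩⟩]⟩))) (.Q [0,1,0,0,0,0,0,0,-1,0,0,1] (.p true [0,0,0,1] []
  (⟨0,[(14,0)]⟩,⟨1,[(13,0),(8,0),(0,0)]⟩) .k 0 (⟨0,[]⟩,⟨0,[]⟩) .k .k) (.K ⟨2,[0,0,0,1],0,0,(⟨0,[(15,
  0)]⟩,⟨1,[(14,0),(8,0),(0,0)]⟩),.k,(.r (-1) ⟨1,[(13,0),(16,1),(0,0)]⟩ ⟨3,[(0,3),(1,0),(1,0),(1,1),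
  (0,2),(6,1),(2,0),(10,2)]⟩),(.r 0 ⟨0,[(1,0),(13,0),(12,0),(0,1)]⟩ ⟨1,[(12,0),(17,1),(0,0)]⟩),.k,
  .k,[⟨0,[(8,0),(6,0)]⟩,⟨1,[(11,0),(2,0)]⟩,⟨1,[(15,1),(4,0),(0,0)]⟩,⟨1,[(14,0),(2,0),(2,0)]⟩,⟨0,[(0,
  0)]⟩,⟨0,[(1,0),(27,0)]⟩]⟩) (.Q [0,0,0,0,0,-1,0,0,0,1,0,-1] (.p false [0,0,0,1] [1] (⟨0,[(15,0)]⟩,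
  ⟨1,[(14,0),(8,0),(0,0)]⟩) .k 1 (⟨0,[]⟩,⟨0,[]⟩) .k .k) (.R ⟨1,false,false,true,[1,0,0,-1],[0,0,1],
  [1,0,0,0,0,0,0,0,-1],(⟨1,[(15,0),(8,0),(0,0)]⟩,⟨0,[(16,0)]⟩),(⟨0,[(25,0)]⟩,⟨0,[(24,0)]⟩),⟨0,[(0,
  0)]⟩,.k,.k,(.r (-1) ⟨1,[(13,0),(17,1),(0,0)]⟩ ⟨1,[(1,1),(14,1),(4,0),(0,0),(7,1)]⟩),.k,(.r (-1)
  ⟨1,[(13,0),(9,1),(7,1),(0,0)]⟩ ⟨0,[(1,0),(6,0),(7,0),(5,0)]⟩),.k,⟨false,1,⟨1,[(5,1),(7,0),(18,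
  0)]⟩,⟨0,[(1,0),(9,0),(4,0),(2,0),(11,0)]⟩⟩,⟨true,0,⟨1,[(12,0),(2,0)]⟩,⟨0,[(16,0),(1,0)]⟩⟩,⟨true,0,
  ⟨0,[]⟩,⟨0,[(35,0)]⟩⟩,⟨false,0,⟨0,[(1,0),(17,0),(4,0),(0,0)]⟩,⟨3,[(5,3),(0,1),(6,1),(2,3),(9,0),(5,
  0)]⟩⟩,⟨false,1,⟨0,[(30,0),(2,0)]⟩,⟨0,[(31,0)]⟩⟩,⟨false,0,⟨0,[(1,0),(6,0),(15,0),(0,0)]⟩,⟨5,[(3,3),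
  (1,3),(0,1),(6,2),(2,5),(3,1),(10,1),(0,0),(0,1)]⟩⟩,[.o ⟨false,0,⟨0,[(19,0)]⟩,⟨0,[(17,0),(15,
  0)]⟩⟩,.o ⟨false,1,⟨3,[(13,0),(0,0),(4,3),(13,1)]⟩,⟨0,[(3,0),(3,0)]⟩⟩,.a ⟨true,0,⟨0,[(16,0)]⟩,⟨1,
  [(15,0),(8,0),(0,0)]⟩⟩ ⟨false,1,⟨1,[(13,0),(19,0)]⟩,⟨1,[(1,0),(0,0),(13,1),(13,0)]⟩⟩ ⟨true,0,⟨1,
  [(15,0),(3,1),(4,0),(0,0)]⟩,⟨0,[(3,0),(3,0),(8,0)]⟩⟩,.o ⟨false,0,⟨2,[(3,0),(1,0),(2,0),(7,2),(1,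
  1),(2,0)]⟩,⟨7,[(13,0),(0,0),(0,3),(10,1),(5,3)]⟩⟩]⟩) (.R ⟨0,false,false,true,[1,0,0,-1],[0,0,1],
  [1,0,0,0,0,0,0,0,-1],(⟨1,[(15,0),(8,0),(0,0)]⟩,⟨0,[(16,0)]⟩),(⟨0,[(25,0)]⟩,⟨0,[(24,0)]⟩),⟨0,[(0,
  0)]⟩,.k,.k,(.r (-1) ⟨1,[(13,0),(17,1),(0,0)]⟩ ⟨1,[(1,1),(14,1),(4,0),(0,0),(7,1)]⟩),.k,.k,.k,
  ⟨false,1,⟨1,[(5,1),(7,0),(18,0)]⟩,⟨0,[(1,0),(9,0),(4,0),(2,0),(11,0)]⟩⟩,⟨true,0,⟨1,[(12,0),(2,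
  0)]⟩,⟨0,[(16,0),(1,0)]⟩⟩,⟨true,0,⟨0,[]⟩,⟨0,[(35,0)]⟩⟩,⟨false,0,⟨0,[(1,0),(17,0),(4,0),(0,0)]⟩,⟨3,
  [(5,3),(0,1),(6,1),(2,3),(9,0),(5,0)]⟩⟩,⟨false,0,⟨0,[]⟩,⟨0,[]⟩⟩,⟨false,0,⟨0,[]⟩,⟨0,[]⟩⟩,[.o
  ⟨false,0,⟨0,[(19,0)]⟩,⟨0,[(17,0),(15,0)]⟩⟩,.o ⟨false,1,⟨3,[(13,0),(0,0),(4,3),(13,1)]⟩,⟨0,[(3,0),
  (3,0)]⟩⟩,.a ⟨true,0,⟨0,[(16,0)]⟩,⟨1,[(15,0),(8,0),(0,0)]⟩⟩ ⟨false,1,⟨1,[(13,0),(19,0)]⟩,⟨1,[(1,0),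
  (0,0),(13,1),(13,0)]⟩⟩ ⟨true,0,⟨1,[(15,0),(3,1),(4,0),(0,0)]⟩,⟨0,[(3,0),(3,0),(8,0)]⟩⟩,.o ⟨false,
  0,⟨2,[(3,0),(1,0),(2,0),(7,2),(1,1),(2,0)]⟩,⟨7,[(13,0),(0,0),(0,3),(10,1),(5,3)]⟩⟩]⟩)))))

theorem ok10 : chk (cU (-1) false 10) t10 l8 = true := by decide +kernel

noncomputable def l9 : List Con := (true, [1,-1,1,0,0,0,0,1]) :: r8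

noncomputable def r9 : List Con := (true, [0,1,-1,0,0,0,0,-1]) :: r8

noncomputable def l10 : List Con := (false, [0,0,0,0,0,1,0,0,0,0,-1]) :: l9

noncomputable def r10 : List Con := (false, [0,0,0,0,0,-1,0,0,0,0,1]) :: l9

noncomputable def t11 : Tre :=
  (.Q [0,0,0,1,0,0,0,0,0,1] (.pp false [-1,1]) (.R ⟨0,false,false,true,[0,1,-1],[0,1],[1,1],(⟨0,[(1,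
  0)]⟩,⟨0,[(24,0),(1,0)]⟩),(⟨0,[(27,0)]⟩,⟨0,[(26,0)]⟩),⟨0,[(24,0)]⟩,.k,.k,.k,.k,.k,.k,⟨false,1,⟨0,
  [(30,0),(0,0)]⟩,⟨2,[(0,0),(16,0),(2,0),(7,0),(0,1)]⟩⟩,⟨true,0,⟨0,[(8,0)]⟩,⟨0,[(21,0)]⟩⟩,⟨false,1,
  ⟨1,[(2,0),(15,0),(2,0),(8,1),(0,1)]⟩,⟨4,[(4,1),(1,3),(0,0),(12,2),(7,1)]⟩⟩,⟨true,0,⟨0,[(18,0)]⟩,
  ⟨0,[(6,0),(23,0)]⟩⟩,⟨false,0,⟨0,[]⟩,⟨0,[]⟩⟩,⟨false,0,⟨0,[]⟩,⟨0,[]⟩⟩,[.o ⟨false,0,⟨0,[(29,0)]⟩,⟨1,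
  [(25,0),(4,1),(1,0)]⟩⟩,.a ⟨true,0,⟨0,[(0,0)]⟩,⟨0,[(30,0)]⟩⟩ ⟨true,0,⟨0,[]⟩,⟨1,[(20,0),(0,0)]⟩⟩
  ⟨false,0,⟨0,[(4,0),(2,0)]⟩,⟨0,[(21,0),(8,0),(0,0)]⟩⟩,.o ⟨false,1,⟨0,[(21,0),(9,0)]⟩,⟨0,[(8,1),(8,
  0)]⟩⟩,.e ⟨false,1,⟨3,[(12,0),(0,0),(17,1)]⟩,⟨3,[(20,0),(0,0),(6,1)]⟩⟩ ⟨false,0,⟨0,[(4,0),(2,0)]⟩,
  ⟨1,[(21,1),(8,1),(0,0),(0,0)]⟩⟩]⟩) (.Q [0,0,0,1,0,0,1,1,-1,0,-1,1] (.p false [0,0,1] [0,0,0,1]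
  (⟨0,[(24,0)]⟩,⟨0,[(23,0)]⟩) .k 2 (⟨0,[(15,0)]⟩,⟨1,[(14,0),(8,0),(0,0)]⟩) .k (.x 0 ⟨0,[(8,0),(15,
  0)]⟩ ⟨7,[(1,3),(3,3),(3,3),(2,2),(0,2),(17,1)]⟩)) (.R ⟨1,false,false,false,[1,0,0,-1],[1,-1,-1],
  [1,1,0,0,0,0,0,0,-1],(⟨1,[(15,0),(8,0),(0,0)]⟩,⟨0,[(16,0)]⟩),(⟨0,[(10,0)]⟩,⟨0,[(25,0),(2,0)]⟩),⟨1,
  [(4,0),(10,0),(9,0)]⟩,.k,.k,(.x 0 ⟨1,[(4,0),(13,0),(2,0),(3,0)]⟩ ⟨3,[(13,0),(0,0),(13,3),(3,1)]⟩),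
  (.r 0 ⟨3,[(0,3),(5,1),(8,1),(5,0),(0,0)]⟩ ⟨1,[(14,0),(8,1),(7,1),(0,0)]⟩),.k,.k,⟨false,0,⟨1,[(0,
  1),(0,0),(9,1),(3,0),(15,0)]⟩,⟨1,[(5,1),(8,0),(16,1),(0,0)]⟩⟩,⟨true,0,⟨3,[(6,1),(8,1),(5,0),(0,
  0)]⟩,⟨0,[(9,0),(6,0)]⟩⟩,⟨false,0,⟨0,[]⟩,⟨3,[(13,0),(0,0),(18,1)]⟩⟩,⟨false,1,⟨5,[(1,0),(3,3),(0,1),
  (7,2),(0,2),(4,1),(10,4),(0,0),(0,1)]⟩,⟨0,[(0,0)]⟩⟩,⟨true,0,⟨0,[(30,0)]⟩,⟨0,[(31,0)]⟩⟩,⟨false,1,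
  ⟨5,[(5,3),(0,1),(7,2),(0,2),(1,0),(2,0),(11,0),(0,1)]⟩,⟨0,[(0,0),(30,0)]⟩⟩,[.o ⟨false,0,⟨0,[(1,0),
  (5,0),(23,0)]⟩,⟨3,[(8,3),(4,0),(0,0),(18,1)]⟩⟩,.o ⟨false,1,⟨0,[(1,0),(18,0),(12,0)]⟩,⟨0,[(8,0)]⟩⟩,
  .a ⟨true,0,⟨0,[(16,0)]⟩,⟨1,[(15,0),(8,0),(0,0)]⟩⟩ ⟨false,0,⟨1,[(0,1),(0,0),(5,1),(7,0),(15,2)]⟩,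
  ⟨1,[(14,0),(18,0)]⟩⟩ ⟨true,0,⟨1,[(1,0),(5,1),(7,0),(15,2)]⟩,⟨0,[(8,0),(7,0)]⟩⟩,.o ⟨false,0,⟨2,[(1,
  0),(3,0),(2,0),(7,2),(1,1),(2,0)]⟩,⟨7,[(13,0),(0,0),(0,3),(10,1),(5,3)]⟩⟩]⟩) (.Q [0,0,0,2,0,0,1,1,
  1,1,-1,-1] (.p false [0,0,1] [1,0,0,-1] (⟨0,[(25,0)]⟩,⟨0,[(24,0)]⟩) .k 2 (⟨1,[(15,0),(8,0),(0,
  0)]⟩,⟨0,[(16,0)]⟩) .k (.x 0 ⟨0,[(9,0),(15,0)]⟩ ⟨7,[(2,3),(3,3),(3,3),(2,2),(0,2),(17,1)]⟩)) (.R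
  ⟨1,false,false,true,[1,0,0,-1],[0,0,1],[1,0,0,0,0,0,0,0,-1],(⟨1,[(16,0),(8,0),(0,0)]⟩,⟨0,[(17,
  0)]⟩),(⟨0,[(26,0)]⟩,⟨0,[(25,0)]⟩),⟨1,[(5,0),(10,0),(9,0)]⟩,.k,.k,(.r (-1) ⟨1,[(14,0),(17,1),(0,
  0)]⟩ ⟨10,[(0,6),(0,3),(4,0),(1,0),(8,10),(0,0),(0,5),(2,4)]⟩),.k,(.r (-1) ⟨1,[(14,0),(9,1),(7,1),
  (0,0)]⟩ ⟨2,[(0,1),(0,0),(2,0),(12,2),(1,1),(0,0)]⟩),.k,⟨false,1,⟨1,[(6,1),(7,0),(18,0)]⟩,⟨0,[(0,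
  0),(1,0),(9,0),(4,0),(14,1)]⟩⟩,⟨true,0,⟨1,[(13,0),(2,0)]⟩,⟨0,[(17,0),(1,0)]⟩⟩,⟨true,0,⟨0,[]⟩,⟨0,
  [(36,0)]⟩⟩,⟨false,0,⟨0,[(0,0),(31,1)]⟩,⟨3,[(6,3),(0,1),(6,1),(2,3),(9,0),(5,0)]⟩⟩,⟨false,1,⟨0,
  [(31,0),(2,0)]⟩,⟨0,[(32,0)]⟩⟩,⟨false,0,⟨0,[(0,0),(31,0)]⟩,⟨5,[(1,1),(0,3),(3,3),(0,1),(6,3),(2,7),
  (15,0),(0,0)]⟩⟩,[.o ⟨false,0,⟨0,[(20,0)]⟩,⟨0,[(18,0),(15,0)]⟩⟩,.o ⟨false,1,⟨3,[(14,0),(0,0),(4,3),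
  (13,1)]⟩,⟨0,[(2,0),(5,0)]⟩⟩,.a ⟨true,0,⟨0,[(17,0)]⟩,⟨1,[(16,0),(8,0),(0,0)]⟩⟩ ⟨false,1,⟨1,[(14,0),
  (19,0)]⟩,⟨1,[(0,0),(0,0),(0,0),(14,1)]⟩⟩ ⟨true,0,⟨1,[(16,0),(3,1),(4,0),(0,0)]⟩,⟨0,[(2,0),(5,0),
  (8,0)]⟩⟩,.o ⟨false,0,⟨2,[(2,0),(3,0),(2,0),(7,2),(1,1),(2,0)]⟩,⟨7,[(14,0),(0,0),(0,3),(10,1),(5,
  3)]⟩⟩]⟩) (.Q [0,1,0,0,0,0,0,0,-1,0,0,1] (.p true [0,0,0,1] [] (⟨0,[(17,0)]⟩,⟨1,[(16,0),(8,0),(0,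
  0)]⟩) .k 0 (⟨0,[]⟩,⟨0,[]⟩) .k .k) (.K ⟨2,[0,0,0,1],0,0,(⟨0,[(18,0)]⟩,⟨1,[(17,0),(8,0),(0,0)]⟩),.k,
  (.r (-1) ⟨1,[(16,0),(16,1),(0,0)]⟩ ⟨3,[(0,3),(2,0),(3,0),(1,1),(0,2),(6,1),(2,0),(10,2)]⟩),(.r 0
  ⟨0,[(2,0),(7,0),(7,0),(12,0),(0,0)]⟩ ⟨1,[(15,0),(17,1),(0,0)]⟩),.k,.k,[⟨0,[(11,0),(6,0)]⟩,⟨1,[(14,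
  0),(2,0)]⟩,⟨1,[(18,1),(4,0),(0,0)]⟩,⟨1,[(17,0),(2,0),(2,0)]⟩,⟨0,[(0,0)]⟩,⟨0,[(2,0),(7,0)]⟩]⟩) (.R
  ⟨2,true,false,true,[0,1],[1,0,0,-1],[1,1,1,1],(⟨0,[]⟩,⟨0,[]⟩),(⟨1,[(17,0),(8,0),(0,0)]⟩,⟨0,[(18,
  0)]⟩),⟨0,[]⟩,.k,.k,.k,(.r 0 ⟨1,[(0,1),(17,1),(4,0),(0,0),(7,1)]⟩ ⟨1,[(15,0),(17,1),(0,0)]⟩),.k,.k,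
  ⟨false,0,⟨0,[(0,0),(17,0),(13,0)]⟩,⟨1,[(15,0),(17,1),(0,0)]⟩⟩,⟨true,0,⟨2,[(3,0),(3,0),(2,0),(7,2),
  (1,1),(2,0)]⟩,⟨1,[(17,0),(8,0),(0,0)]⟩⟩,⟨false,0,⟨0,[]⟩,⟨3,[(15,0),(0,0),(18,1)]⟩⟩,⟨true,0,⟨0,[(1,
  0),(8,0)]⟩,⟨1,[(0,1),(12,1),(0,0),(11,0),(0,0)]⟩⟩,⟨true,0,⟨0,[(32,0)]⟩,⟨0,[(33,0)]⟩⟩,⟨false,1,⟨1,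
  [(15,0),(2,1),(9,0)]⟩,⟨0,[(0,0),(25,0),(0,0)]⟩⟩,[]⟩)))))

theorem ok11 : chk (cU (-1) false 10) t11 l10 = true := by decide +kernel

noncomputable def l11 : List Con := (true, [0,1,-1,-1,0,0,0,-1]) :: r10

noncomputable def r11 : List Con := (true, [1,-1,1,1,0,0,0,1]) :: r10

noncomputable def t12 : Tre :=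
  (.Q [0,0,0,1,0,0,0,0,0,1] (.pp false [-1,1]) (.R ⟨1,false,false,false,[1,-1,-1],[1,-1],[1,0,0,-1],
  (⟨0,[(10,0)]⟩,⟨0,[(25,0),(2,0)]⟩),(⟨0,[(27,0)]⟩,⟨0,[(28,0)]⟩),⟨0,[(4,0)]⟩,.k,.k,(.r (-1) ⟨1,[(1,
  1),(29,1),(0,0),(0,0)]⟩ ⟨2,[(0,0),(2,2),(14,0),(2,0),(7,0),(0,4)]⟩),.k,.k,.k,⟨false,0,⟨0,[]⟩,⟨3,
  [(13,0),(0,0),(17,1)]⟩⟩,⟨true,0,⟨0,[(9,0)]⟩,⟨0,[(22,0)]⟩⟩,⟨false,0,⟨0,[(3,0)]⟩,⟨3,[(13,0),(0,0),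
  (8,3),(8,1)]⟩⟩,⟨false,1,⟨0,[(19,0),(13,0)]⟩,⟨1,[(0,0),(0,0),(3,0),(0,0)]⟩⟩,⟨true,0,⟨1,[(0,0),(2,
  0),(4,0),(9,0)]⟩,⟨0,[(1,0)]⟩⟩,⟨false,1,⟨0,[(8,0),(24,0)]⟩,⟨1,[(0,0),(0,0),(3,0),(0,0),(24,1)]⟩⟩,
  [.a ⟨true,0,⟨0,[(31,0)]⟩,⟨0,[(0,0)]⟩⟩ ⟨true,0,⟨0,[(31,0)]⟩,⟨2,[(0,0),(17,0),(2,0),(7,0),(0,1)]⟩⟩
  ⟨false,1,⟨0,[(9,0),(21,0),(0,0)]⟩,⟨0,[(0,0),(17,0)]⟩⟩,.o ⟨false,1,⟨1,[(26,0),(4,1),(1,0)]⟩,⟨0,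
  [(30,0)]⟩⟩,.o ⟨false,0,⟨0,[(18,0)]⟩,⟨7,[(12,3),(0,0),(0,0),(11,1),(5,3)]⟩⟩,.o ⟨false,0,⟨0,[(6,0),
  (14,0)]⟩,⟨0,[(9,0),(22,0)]⟩⟩]⟩) (.Q [0,0,0,-1,0,0,1,1,0,1,-1] (.p false [0,0,1] [1] (⟨0,[(25,0)]⟩,
  ⟨0,[(24,0)]⟩) .k 1 (⟨0,[]⟩,⟨0,[]⟩) .k .k) (.R ⟨2,true,false,false,[0,1],[1,1,-1],[0,1,1],(⟨0,[]⟩,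
  ⟨0,[]⟩),(⟨0,[(25,0),(3,0)]⟩,⟨0,[(3,0)]⟩),⟨0,[]⟩,.k,.k,.k,.k,.k,.k,⟨true,0,⟨0,[(0,0),(0,0),(10,
  0)]⟩,⟨4,[(6,1),(1,3),(0,0),(12,2),(7,1)]⟩⟩,⟨false,1,⟨3,[(7,1),(19,0),(5,2)]⟩,⟨1,[(13,0),(11,0),(0,
  0)]⟩⟩,⟨false,0,⟨0,[(32,0)]⟩,⟨0,[(31,0),(2,0)]⟩⟩,⟨true,0,⟨0,[(1,0),(6,0)]⟩,⟨0,[(0,0),(30,0)]⟩⟩,
  ⟨true,0,⟨0,[(36,0)]⟩,⟨0,[]⟩⟩,⟨false,1,⟨1,[(8,1),(18,0),(6,0)]⟩,⟨0,[(0,0)]⟩⟩,[]⟩) (.Q [0,0,0,2,0,0,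
  1,1,1,1,-1,-1] (.p false [0,0,1] [1,0,0,-1] (⟨0,[(26,0)]⟩,⟨0,[(25,0)]⟩) .k 2 (⟨1,[(16,0),(8,0),(0,
  0)]⟩,⟨0,[(17,0)]⟩) .k (.x 0 ⟨0,[(10,0),(15,0)]⟩ ⟨3,[(7,1),(6,0),(0,0),(9,3),(1,0),(5,0)]⟩)) (.R
  ⟨1,false,false,true,[1,0,0,-1],[0,0,1],[1,0,0,0,0,0,0,0,-1],(⟨1,[(17,0),(8,0),(0,0)]⟩,⟨0,[(18,
  0)]⟩),(⟨0,[(27,0)]⟩,⟨0,[(26,0)]⟩),⟨3,[(4,0),(1,0),(10,1),(11,0)]⟩,.k,.k,(.r (-1) ⟨1,[(15,0),(17,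
  1),(0,0)]⟩ ⟨3,[(0,3),(1,2),(15,3),(1,0),(1,3),(0,0),(7,1),(1,0)]⟩),.k,(.r (-1) ⟨1,[(3,1),(11,0),
  (19,0)]⟩ ⟨0,[(0,0),(17,0),(1,0),(12,0)]⟩),.k,⟨false,1,⟨1,[(7,1),(7,0),(18,0)]⟩,⟨0,[(0,0),(1,0),
  (10,0),(4,0),(14,1)]⟩⟩,⟨true,0,⟨1,[(14,0),(2,0)]⟩,⟨0,[(18,0),(1,0)]⟩⟩,⟨true,0,⟨0,[]⟩,⟨0,[(37,
  0)]⟩⟩,⟨false,0,⟨0,[(0,0),(32,1)]⟩,⟨3,[(7,3),(0,1),(6,1),(2,3),(9,0),(5,0)]⟩⟩,⟨false,1,⟨0,[(32,0),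
  (2,0)]⟩,⟨0,[(33,0)]⟩⟩,⟨false,0,⟨0,[(0,0),(32,0)]⟩,⟨1,[(2,0),(0,0),(3,0),(0,0),(6,0),(2,1),(16,
  0)]⟩⟩,[.o ⟨false,0,⟨0,[(21,0)]⟩,⟨0,[(19,0),(15,0)]⟩⟩,.o ⟨false,1,⟨3,[(15,0),(0,0),(4,3),(13,1)]⟩,
  ⟨3,[(1,1),(0,0),(0,0),(3,0),(0,0)]⟩⟩,.a ⟨true,0,⟨0,[(18,0)]⟩,⟨1,[(17,0),(8,0),(0,0)]⟩⟩ ⟨false,1,
  ⟨1,[(15,0),(19,0)]⟩,⟨1,[(0,1),(1,0),(0,0),(3,0),(0,0),(9,1),(14,1)]⟩⟩ ⟨true,0,⟨1,[(17,0),(3,1),(4,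
  0),(0,0)]⟩,⟨3,[(1,1),(0,0),(0,0),(3,0),(0,0),(9,3)]⟩⟩,.o ⟨false,0,⟨10,[(1,1),(0,3),(7,1),(7,10),
  (1,4),(2,4),(7,0)]⟩,⟨7,[(15,0),(0,0),(0,3),(10,1),(5,3)]⟩⟩]⟩) (.I [0,0,1,1,0,0,0,0,1] (.I [0,0,-1,
  -2,0,0,0,-1,-1] (.R ⟨1,false,false,true,[1,0,0,-1],[0,1,1],[0,1,0,-1,0,0,0,0,-1],(⟨1,[(19,0),(8,
  0),(0,0)]⟩,⟨0,[(20,0)]⟩),(⟨0,[(29,0),(2,0)]⟩,⟨0,[(14,0)]⟩),⟨3,[(6,0),(1,0),(10,1),(11,0)]⟩,.k,.k,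
  (.r (-1) ⟨1,[(17,0),(17,1),(0,0)]⟩ ⟨0,[(1,0)]⟩),(.x 0 ⟨0,[(14,0),(7,0)]⟩ ⟨7,[(16,3),(0,0),(0,0),
  (10,7),(0,1),(1,7),(3,3)]⟩),(.r (-1) ⟨3,[(0,3),(16,0),(0,0),(17,1)]⟩ ⟨0,[(1,0),(5,0),(26,0)]⟩),.k,
  ⟨true,0,⟨0,[(0,0)]⟩,⟨0,[(1,0),(5,0),(26,0)]⟩⟩,⟨false,1,⟨1,[(16,0),(2,0),(16,1)]⟩,⟨0,[(20,0),(1,
  0)]⟩⟩,⟨false,0,⟨0,[(35,0)]⟩,⟨0,[(34,0),(2,0)]⟩⟩,⟨false,1,⟨1,[(12,1),(5,0),(0,0),(8,0),(0,0),(7,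
  0)]⟩,⟨0,[(0,0),(2,0),(3,0),(12,0)]⟩⟩,⟨true,0,⟨0,[(39,0)]⟩,⟨0,[]⟩⟩,⟨false,1,⟨1,[(1,1),(10,1),(6,0),
  (8,0),(0,0),(6,0),(0,0)]⟩,⟨2,[(0,2),(2,0),(0,0),(2,0),(2,0),(9,2),(12,0)]⟩⟩,[.o ⟨false,0,⟨0,[(12,
  0)]⟩,⟨5,[(2,3),(0,1),(14,1),(0,1),(10,0),(6,2)]⟩⟩,.o ⟨false,1,⟨3,[(12,3),(4,0),(0,0),(18,1)]⟩,⟨1,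
  [(4,0),(0,0),(3,0),(0,0)]⟩⟩,.a ⟨true,0,⟨0,[(20,0)]⟩,⟨1,[(19,0),(8,0),(0,0)]⟩⟩ ⟨false,0,⟨0,[(0,0),
  (6,0),(26,0)]⟩,⟨1,[(1,1),(34,0),(0,0)]⟩⟩ ⟨true,0,⟨1,[(12,1),(6,0),(8,0),(0,0)]⟩,⟨1,[(4,0),(0,0),
  (3,0),(0,0),(9,1)]⟩⟩,.o ⟨false,0,⟨10,[(3,1),(0,3),(7,1),(7,10),(1,4),(2,4),(7,0)]⟩,⟨7,[(17,0),(0,
  0),(0,3),(10,1),(5,3)]⟩⟩]⟩) (.Q [0,1,0,0,0,0,0,0,-1,0,0,1] (.p true [0,0,0,1] [] (⟨0,[(20,0)]⟩,⟨1,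
  [(19,0),(8,0),(0,0)]⟩) .k 0 (⟨0,[]⟩,⟨0,[]⟩) .k .k) (.K ⟨2,[0,0,0,1],0,0,(⟨0,[(21,0)]⟩,⟨1,[(20,0),
  (8,0),(0,0)]⟩),.k,(.r (-1) ⟨1,[(19,0),(16,1),(0,0)]⟩ ⟨14,[(0,15),(0,0),(2,6),(8,5),(6,7),(2,0),(2,
  1),(7,10)]⟩),(.r 0 ⟨0,[(2,0)]⟩ ⟨1,[(18,0),(17,1),(0,0)]⟩),.k,.k,[⟨0,[(14,0),(6,0)]⟩,⟨1,[(17,0),(2,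
  0)]⟩,⟨1,[(21,1),(4,0),(0,0)]⟩,⟨1,[(20,0),(2,0),(2,0)]⟩,⟨0,[(0,0)]⟩,⟨1,[(1,1),(3,0),(0,1),(13,0),
  (15,0)]⟩]⟩) (.R ⟨2,true,false,true,[0,1],[1,0,0,-1],[1,1,1,1],(⟨0,[]⟩,⟨0,[]⟩),(⟨1,[(20,0),(8,0),
  (0,0)]⟩,⟨0,[(21,0)]⟩),⟨0,[]⟩,.k,.k,.k,(.r 0 ⟨0,[(2,0)]⟩ ⟨1,[(18,0),(17,1),(0,0)]⟩),.k,.k,⟨false,0,
  ⟨2,[(0,1),(0,0),(4,0),(5,0),(0,0),(7,1)]⟩,⟨1,[(18,0),(17,1),(0,0)]⟩⟩,⟨true,0,⟨10,[(4,1),(0,3),(7,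
  1),(7,10),(1,4),(2,4),(7,0)]⟩,⟨1,[(20,0),(8,0),(0,0)]⟩⟩,⟨false,0,⟨0,[]⟩,⟨3,[(18,0),(0,0),(18,
  1)]⟩⟩,⟨true,0,⟨0,[(3,0),(9,0)]⟩,⟨1,[(0,1),(15,1),(0,0),(11,0),(0,0)]⟩⟩,⟨true,0,⟨0,[(35,0)]⟩,⟨0,
  [(36,0)]⟩⟩,⟨false,1,⟨1,[(18,0),(2,1),(9,0)]⟩,⟨0,[(0,0),(28,0),(0,0)]⟩⟩,[]⟩))) (.R ⟨1,false,false,
  false,[1,0,0,-1],[1,-1],[1,0,0,0,0,0,0,0,-1],(⟨1,[(18,0),(8,0),(0,0)]⟩,⟨0,[(19,0)]⟩),(⟨0,[(30,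
  0)]⟩,⟨0,[(31,0)]⟩),⟨3,[(5,0),(1,0),(10,1),(11,0)]⟩,.k,.k,(.x 0 ⟨2,[(5,0),(1,0),(1,0),(14,1)]⟩ ⟨3,
  [(16,0),(0,0),(13,3),(3,1)]⟩),(.r 0 ⟨1,[(0,1),(23,0),(0,0),(6,1),(0,3)]⟩ ⟨1,[(17,0),(16,1),(0,
  0)]⟩),.k,.k,⟨false,0,⟨0,[(0,0),(31,0),(0,1)]⟩,⟨1,[(17,0),(16,1),(0,0)]⟩⟩,⟨true,0,⟨1,[(18,0),(2,0),
  (2,0)]⟩,⟨0,[(19,0)]⟩⟩,⟨true,0,⟨0,[]⟩,⟨0,[(38,0)]⟩⟩,⟨false,1,⟨1,[(3,0),(13,0),(0,0),(15,0),(1,0)]⟩,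
  ⟨0,[(0,0),(18,0),(12,0),(0,1)]⟩⟩,⟨false,1,⟨0,[(33,0),(2,0)]⟩,⟨0,[(34,0)]⟩⟩,⟨false,1,⟨3,[(17,1),(0,
  1),(10,0),(2,1),(2,0)]⟩,⟨3,[(0,2),(0,0),(4,0),(7,0),(0,0),(3,2),(12,1),(0,3)]⟩⟩,[.o ⟨false,0,⟨0,
  [(3,0)]⟩,⟨3,[(16,0),(0,0),(15,3),(2,1)]⟩⟩,.o ⟨false,1,⟨3,[(3,3),(12,0),(0,0),(18,1)]⟩,⟨0,[(33,
  0)]⟩⟩,.a ⟨true,0,⟨0,[(19,0)]⟩,⟨1,[(18,0),(8,0),(0,0)]⟩⟩ ⟨false,0,⟨0,[(0,0),(31,0),(0,0)]⟩,⟨3,[(16,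
  0),(0,2)]⟩⟩ ⟨true,0,⟨1,[(3,0),(14,0),(15,0)]⟩,⟨0,[(19,0),(13,0)]⟩⟩,.o ⟨false,0,⟨10,[(2,1),(0,3),
  (7,1),(7,10),(1,4),(2,4),(7,0)]⟩,⟨7,[(16,0),(0,0),(0,3),(10,1),(5,3)]⟩⟩]⟩)))))

theorem ok12 : chk (cU (-1) false 10) t12 l11 = true := by decide +kernel

noncomputable def l12 : List Con := (true, [1,1,2,3,-1]) :: r11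

noncomputable def r12 : List Con := (true, [0,-1,-2,-3,1]) :: r11

noncomputable def t13 : Tre :=
  (.Q [0,-1,0,-1,0,0,1,1,0,1,-1] (.p false [0,0,1] [1] (⟨0,[(25,0)]⟩,⟨0,[(24,0)]⟩) .k 1 (⟨0,[]⟩,⟨0,
  []⟩) .k .k) (.R ⟨2,false,false,true,[0,1],[1,1,-1],[0,1],(⟨0,[]⟩,⟨0,[]⟩),(⟨0,[(25,0),(3,0)]⟩,⟨0,
  [(3,0)]⟩),⟨0,[]⟩,.k,.k,.k,.k,.k,.k,⟨true,1,⟨7,[(0,3),(6,3),(6,0),(0,0),(4,3),(11,3),(0,5)]⟩,⟨0,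
  [(1,0),(4,0),(25,1)]⟩⟩,⟨false,1,⟨3,[(7,1),(19,0),(5,2)]⟩,⟨1,[(13,0),(11,0),(0,0)]⟩⟩,⟨false,1,⟨3,
  [(14,0),(0,0),(16,3),(0,1)]⟩,⟨2,[(1,0),(28,0),(3,0)]⟩⟩,⟨true,0,⟨0,[(18,0)]⟩,⟨3,[(0,2),(8,0),(2,1),
  (0,0)]⟩⟩,⟨false,1,⟨3,[(14,0),(0,0),(17,1)]⟩,⟨3,[(22,0),(0,0),(6,1)]⟩⟩,⟨false,1,⟨3,[(8,3),(5,0),(0,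
  0),(11,1)]⟩,⟨0,[(0,0)]⟩⟩,[.e ⟨true,0,⟨0,[(36,0)]⟩,⟨3,[(22,0),(0,0),(6,1)]⟩⟩ ⟨true,0,⟨2,[(1,0),(17,
  0),(1,1),(2,0),(2,0)]⟩,⟨0,[(0,0)]⟩⟩,.a ⟨true,0,⟨0,[(8,0)]⟩,⟨0,[(0,0),(35,0)]⟩⟩ ⟨false,1,⟨3,[(14,
  0),(0,0),(17,1)]⟩,⟨0,[]⟩⟩ ⟨true,0,⟨2,[(1,0),(4,1),(0,0),(13,0),(5,0)]⟩,⟨0,[(0,0),(35,0)]⟩⟩,.o
  ⟨false,1,⟨3,[(14,0),(0,0),(17,1)]⟩,⟨0,[(10,0),(8,0)]⟩⟩,.e ⟨false,1,⟨3,[(14,0),(0,0),(17,1)]⟩,⟨3,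
  [(22,0),(0,0),(6,1)]⟩⟩ ⟨false,1,⟨3,[(8,3),(5,0),(0,0),(11,1)]⟩,⟨0,[(0,0)]⟩⟩]⟩) (.I [1,1,-2,-1,1,0,
  0,1] (.Q [0,0,2,0,-1,0,1,0,0,0,-1] (.p false [0,0,1] [] (⟨0,[(27,0)]⟩,⟨0,[(26,0)]⟩) .k 0 (⟨0,[]⟩,
  ⟨0,[]⟩) .k .k) (.Q [0,0,0,3,0,0,0,0,0,1] (.pp false [-1,1]) (.R ⟨1,false,false,true,[1,-1],[0,1],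
  [0,0,-1,-2],(⟨0,[(31,0)]⟩,⟨0,[(32,0)]⟩),(⟨0,[(32,0)]⟩,⟨0,[(31,0)]⟩),⟨1,[(6,0),(1,0),(22,0)]⟩,.k,
  .k,(.r (-1) ⟨0,[(2,0),(6,0),(25,0)]⟩ ⟨5,[(4,3),(12,0),(0,0),(6,1),(0,1),(10,1)]⟩),(.r (-1) ⟨0,[(2,
  0),(6,0),(25,0)]⟩ ⟨5,[(4,3),(12,0),(0,0),(6,1),(0,1),(10,1)]⟩),(.r (-2) ⟨3,[(2,5),(6,5),(7,0),(0,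
  0),(16,5)]⟩ ⟨3,[(1,0),(2,3),(21,0),(6,0),(3,0)]⟩),.k,⟨false,2,⟨1,[(2,2),(6,2),(25,2),(1,0)]⟩,⟨0,
  [(4,0)]⟩⟩,⟨true,1,⟨0,[(28,0),(0,0),(6,0)]⟩,⟨0,[(1,0),(20,0)]⟩⟩,⟨true,0,⟨0,[(35,0)]⟩,⟨0,[(34,0)]⟩⟩,
  ⟨false,0,⟨2,[(0,1),(27,0),(0,0)]⟩,⟨1,[(30,0),(4,3),(1,0)]⟩⟩,⟨false,1,⟨3,[(17,0),(0,0),(18,1)]⟩,⟨0,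
  []⟩⟩,⟨false,0,⟨0,[(0,0)]⟩,⟨1,[(30,0),(4,5),(1,0)]⟩⟩,[.o ⟨false,0,⟨0,[(34,0)]⟩,⟨1,[(30,0),(4,1),(1,
  0)]⟩⟩,.a ⟨true,0,⟨2,[(0,0),(27,1),(0,1)]⟩,⟨0,[(35,0)]⟩⟩ ⟨true,1,⟨1,[(2,0),(6,0),(25,2),(1,0)]⟩,⟨1,
  [(1,0),(2,0),(10,0)]⟩⟩ ⟨false,1,⟨2,[(0,0),(27,1),(0,1),(6,2)]⟩,⟨2,[(1,0),(20,0),(7,0),(4,2)]⟩⟩,.o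
  ⟨false,0,⟨2,[(1,0),(20,0),(7,0)]⟩,⟨3,[(17,0),(0,0),(17,1)]⟩⟩,.o ⟨false,0,⟨0,[(22,0),(2,0)]⟩,⟨0,
  [(36,0)]⟩⟩]⟩) (.Q [0,0,0,2,0,0,0,0,0,1] (.pp false [-1,1]) (.R ⟨1,true,false,true,[1,-1],[0,1],[0,
  0,-1,-2],(⟨0,[(32,0)]⟩,⟨0,[(33,0)]⟩),(⟨0,[(33,0)]⟩,⟨0,[(32,0)]⟩),⟨1,[(7,0),(1,0),(22,0)]⟩,.k,.k,
  (.r (-1) ⟨2,[(1,0),(1,2),(6,2),(18,0),(0,0)]⟩ ⟨5,[(5,3),(12,0),(0,0),(6,1),(0,1),(10,1)]⟩),(.r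
  (-1) ⟨2,[(1,0),(1,2),(6,2),(18,0),(0,0)]⟩ ⟨5,[(5,3),(12,0),(0,0),(6,1),(0,1),(10,1)]⟩),(.r (-2)
  ⟨3,[(1,1),(1,5),(6,3),(6,0),(7,1),(3,0),(0,0),(7,1)]⟩ ⟨3,[(2,0),(2,3),(21,0),(6,0),(3,0)]⟩),.k,
  ⟨false,2,⟨1,[(1,0),(1,2),(6,2),(18,0),(0,0),(7,0)]⟩,⟨0,[(5,0)]⟩⟩,⟨true,1,⟨0,[(29,0),(0,0),(6,0)]⟩,
  ⟨0,[(2,0),(20,0)]⟩⟩,⟨true,0,⟨0,[(36,0)]⟩,⟨0,[(35,0)]⟩⟩,⟨false,0,⟨0,[(0,0)]⟩,⟨5,[(1,3),(16,0),(0,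
  0),(11,0),(6,2)]⟩⟩,⟨false,1,⟨3,[(18,0),(0,0),(18,1)]⟩,⟨0,[]⟩⟩,⟨true,0,⟨0,[(0,0),(34,0)]⟩,⟨0,[(1,
  0)]⟩⟩,[]⟩) (.Q [0,0,0,1,0,0,0,0,0,1] (.pp false [-1,1]) (.R ⟨2,true,false,false,[0,1],[1,-1],[0,1,
  1],(⟨0,[]⟩,⟨0,[]⟩),(⟨0,[(33,0)]⟩,⟨0,[(34,0)]⟩),⟨0,[]⟩,.k,.k,.k,(.r 0 ⟨5,[(6,3),(12,0),(0,0),(6,1),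
  (0,1),(10,1)]⟩ ⟨2,[(2,0),(1,2),(6,2),(18,0),(0,0)]⟩),.k,.k,⟨true,(-1),⟨0,[(3,0),(13,0)]⟩,⟨5,[(2,
  0),(1,2),(6,2),(18,0),(0,0),(7,2)]⟩⟩,⟨false,0,⟨2,[(3,0),(20,0),(7,0)]⟩,⟨0,[(0,0),(3,0),(6,0)]⟩⟩,
  ⟨false,0,⟨0,[(37,0)]⟩,⟨5,[(6,1),(12,0),(0,0),(17,1),(0,3)]⟩⟩,⟨true,0,⟨0,[(1,0)]⟩,⟨0,[(0,0),(35,
  0)]⟩⟩,⟨true,0,⟨0,[(41,0)]⟩,⟨0,[]⟩⟩,⟨false,1,⟨11,[(2,3),(16,0),(0,0),(11,3),(6,5)]⟩,⟨0,[(0,0)]⟩⟩,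
  []⟩) (.Q [0,0,0,0,0,0,1,1,-1,0,-1,1] (.p false [0,0,1] [0,0,0,1] (⟨0,[(31,0)]⟩,⟨0,[(30,0)]⟩) .k 2
  (⟨0,[(22,0)]⟩,⟨1,[(21,0),(8,0),(0,0)]⟩) .k (.x 0 ⟨0,[(15,0),(15,0)]⟩ ⟨3,[(12,1),(6,0),(0,0),(9,3),
  (1,0),(5,0)]⟩)) (.I [0,-1,0,-1,0,0,0,0,-1] (.R ⟨1,false,false,false,[1,0,0,-1],[1,-1],[0,0,0,-1,0,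
  0,0,0,-1],(⟨1,[(23,0),(8,0),(0,0)]⟩,⟨0,[(24,0)]⟩),(⟨0,[(35,0)]⟩,⟨0,[(36,0)]⟩),⟨3,[(10,0),(1,0),
  (10,1),(11,0)]⟩,.k,.k,(.x 0 ⟨5,[(10,1),(1,1),(13,1),(2,2),(0,0)]⟩ ⟨3,[(21,0),(0,0),(13,3),(3,
  1)]⟩),(.r 0 ⟨25,[(0,3),(4,0),(2,9),(12,10),(8,0),(6,2)]⟩ ⟨5,[(4,0),(1,2),(6,2),(8,2),(9,0),(0,
  0)]⟩),.k,.k,⟨false,0,⟨6,[(0,2),(0,3),(5,1),(7,0),(7,1),(4,0)]⟩,⟨1,[(22,0),(17,0)]⟩⟩,⟨true,0,⟨1,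
  [(23,0),(2,0),(2,0)]⟩,⟨0,[(24,0)]⟩⟩,⟨true,0,⟨0,[(39,0)]⟩,⟨0,[(38,0)]⟩⟩,⟨false,1,⟨1,[(3,0),(18,0),
  (0,0),(17,0)]⟩,⟨0,[(1,0),(13,0)]⟩⟩,⟨false,1,⟨3,[(21,0),(0,0),(18,1)]⟩,⟨0,[]⟩⟩,⟨false,1,⟨3,[(22,1),
  (0,1),(10,0),(2,1),(2,0)]⟩,⟨2,[(0,0),(0,1),(13,0),(8,0),(3,0)]⟩⟩,[.o ⟨false,0,⟨0,[(2,0)]⟩,⟨11,[(8,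
  3),(12,4),(0,4),(17,3),(0,1)]⟩⟩,.o ⟨false,1,⟨11,[(4,3),(16,0),(0,0),(11,3),(6,5)]⟩,⟨0,[(38,0)]⟩⟩,
  .a ⟨true,0,⟨0,[(24,0)]⟩,⟨1,[(23,0),(8,0),(0,0)]⟩⟩ ⟨false,0,⟨0,[(0,0)]⟩,⟨5,[(8,1),(12,0),(0,3),(17,
  1),(0,0)]⟩⟩ ⟨true,0,⟨1,[(3,0),(19,0)]⟩,⟨0,[(24,0),(13,0)]⟩⟩,.o ⟨false,0,⟨2,[(5,0),(18,2),(1,0),(7,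
  0)]⟩,⟨7,[(21,0),(0,0),(0,3),(10,1),(5,3)]⟩⟩]⟩) (.K ⟨2,[0,0,0,1],0,0,(⟨0,[(24,0)]⟩,⟨1,[(23,0),(8,
  0),(0,0)]⟩),.k,(.r (-1) ⟨5,[(4,0),(1,2),(6,2),(8,2),(9,0),(0,0)]⟩ ⟨9,[(1,1),(3,0),(2,2),(4,0),(0,
  0),(0,0),(5,3),(1,0),(13,0)]⟩),(.r 0 ⟨9,[(0,3),(4,0),(2,1),(13,2),(7,0),(6,2)]⟩ ⟨5,[(4,0),(1,2),
  (6,2),(7,2),(10,0),(0,0)]⟩),.k,.k,[⟨0,[(17,0),(6,0)]⟩,⟨1,[(20,0),(2,0)]⟩,⟨1,[(24,1),(4,0),(0,0)]⟩,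
  ⟨1,[(23,0),(2,0),(2,0)]⟩,⟨0,[(1,0),(26,0)]⟩,⟨1,[(0,1),(2,0),(19,0)]⟩]⟩)) (.Q [0,0,0,1,0,0,1,1,1,1,
  -1,-1] (.p false [0,0,1] [1,0,0,-1] (⟨0,[(32,0)]⟩,⟨0,[(31,0)]⟩) .k 2 (⟨1,[(22,0),(8,0),(0,0)]⟩,⟨0,
  [(23,0)]⟩) .k (.x 0 ⟨0,[(16,0),(15,0)]⟩ ⟨3,[(13,1),(6,0),(0,0),(9,3),(1,0),(5,0)]⟩)) (.R ⟨1,false,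
  false,true,[1,0,0,-1],[0,0,1],[1,0,0,0,0,0,0,0,-1],(⟨1,[(23,0),(8,0),(0,0)]⟩,⟨0,[(24,0)]⟩),(⟨0,
  [(33,0)]⟩,⟨0,[(32,0)]⟩),⟨3,[(10,0),(1,0),(10,1),(11,0)]⟩,.k,.k,(.r (-1) ⟨5,[(4,0),(1,2),(6,2),(7,
  2),(10,0),(0,0)]⟩ ⟨19,[(0,0),(0,2),(0,0),(2,1),(2,5),(0,1),(12,7),(1,3),(12,1)]⟩),.k,(.r (-1) ⟨3,
  [(4,0),(1,0),(6,2),(6,0),(0,1),(6,1),(11,0)]⟩ ⟨10,[(0,6),(2,2),(4,1),(0,2),(4,3),(1,0),(5,1),(1,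
  6)]⟩),.k,⟨false,1,⟨1,[(13,1),(7,0),(18,0)]⟩,⟨0,[(0,0),(2,0),(15,0),(4,0)]⟩⟩,⟨true,0,⟨1,[(20,0),(2,
  0)]⟩,⟨0,[(24,0),(1,0)]⟩⟩,⟨true,0,⟨0,[]⟩,⟨0,[(43,0)]⟩⟩,⟨false,0,⟨2,[(0,2),(3,0),(27,0),(0,0)]⟩,⟨3,
  [(13,3),(0,1),(6,1),(2,3),(9,0),(5,0)]⟩⟩,⟨false,1,⟨5,[(8,1),(12,0),(0,0),(17,1),(0,3)]⟩,⟨0,[(39,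
  0)]⟩⟩,⟨false,0,⟨0,[(0,0)]⟩,⟨5,[(4,1),(8,3),(0,1),(6,2),(2,5),(0,1),(14,0),(0,1)]⟩⟩,[.o ⟨false,0,
  ⟨0,[(27,0)]⟩,⟨0,[(25,0),(15,0)]⟩⟩,.o ⟨false,1,⟨3,[(21,0),(0,0),(4,3),(13,1)]⟩,⟨0,[(2,0),(12,0)]⟩⟩,
  .a ⟨true,0,⟨0,[(24,0)]⟩,⟨1,[(23,0),(8,0),(0,0)]⟩⟩ ⟨false,1,⟨1,[(21,0),(19,0)]⟩,⟨1,[(0,0),(0,0),(0,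
  0),(21,1)]⟩⟩ ⟨true,0,⟨1,[(23,0),(3,1),(4,0),(0,0)]⟩,⟨0,[(2,0),(12,0),(8,0)]⟩⟩,.o ⟨false,0,⟨2,[(5,
  0),(18,2),(1,0),(7,0)]⟩,⟨7,[(21,0),(0,0),(0,3),(10,1),(5,3)]⟩⟩]⟩) (.K ⟨2,[0,0,0,1],0,0,(⟨0,[(24,
  0)]⟩,⟨1,[(23,0),(8,0),(0,0)]⟩),.k,(.r (-1) ⟨5,[(4,0),(1,2),(6,2),(8,2),(9,0),(0,0)]⟩ ⟨5,[(0,1),(7,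
  1),(0,1),(10,0),(0,1),(1,0)]⟩),(.r 0 ⟨12,[(1,2),(3,1),(2,2),(0,2),(3,0),(2,0),(5,4),(1,2)]⟩ ⟨5,
  [(4,0),(1,2),(6,2),(7,2),(10,0),(0,0)]⟩),.k,.k,[⟨0,[(17,0),(6,0)]⟩,⟨1,[(20,0),(2,0)]⟩,⟨1,[(24,1),
  (4,0),(0,0)]⟩,⟨1,[(23,0),(2,0),(2,0)]⟩,⟨0,[(0,0),(15,0),(15,0),(0,0)]⟩,⟨0,[(1,0),(25,0)]⟩]⟩))))))
  (.Q [0,0,2,0,-1,0,1,0,0,1,-1] (.p false [0,0,1] [1] (⟨0,[(28,0)]⟩,⟨0,[(27,0)]⟩) .k 1 (⟨0,[]⟩,⟨0,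
  []⟩) .k .k) (.K ⟨0,[1,1,-1],1,0,(⟨0,[(28,0),(3,0)]⟩,⟨0,[(6,0)]⟩),.k,.k,(.r 1 ⟨0,[(4,0),(4,0),(25,
  0)]⟩ ⟨3,[(2,3),(14,0),(0,0),(16,3),(1,1)]⟩),.k,.k,[⟨0,[(0,0)]⟩,⟨0,[(1,0)]⟩,⟨0,[(0,0),(1,0)]⟩,⟨0,
  [(3,0)]⟩]⟩) (.Q [0,0,0,2,0,0,0,0,0,1] (.pp false [-1,1]) (.Q [0,0,0,3,0,0,0,0,0,1] (.pp false [-1,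
  1]) (.R ⟨1,false,false,true,[1,-1],[0,1],[0,0,-1,-2],(⟨0,[(33,0)]⟩,⟨0,[(34,0)]⟩),(⟨0,[(34,0)]⟩,⟨0,
  [(33,0)]⟩),⟨1,[(8,0),(1,0),(22,0)]⟩,.k,.k,(.r (-1) ⟨0,[(4,0),(6,0),(25,0)]⟩ ⟨5,[(6,3),(12,0),(0,
  0),(6,1),(0,1),(10,1)]⟩),(.r (-1) ⟨0,[(4,0),(6,0),(25,0)]⟩ ⟨5,[(6,3),(12,0),(0,0),(6,1),(0,1),(10,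
  1)]⟩),(.r (-2) ⟨3,[(4,5),(6,5),(7,0),(0,0),(16,5)]⟩ ⟨3,[(6,3),(20,0),(0,0),(6,1)]⟩),.k,⟨false,2,
  ⟨1,[(4,2),(6,2),(25,2),(1,0)]⟩,⟨0,[(6,0)]⟩⟩,⟨true,1,⟨1,[(3,1),(14,0),(11,0),(0,0)]⟩,⟨0,[(2,0),(3,
  1),(8,0),(19,0),(1,5)]⟩⟩,⟨true,0,⟨0,[(37,0)]⟩,⟨0,[(36,0)]⟩⟩,⟨false,0,⟨0,[(1,0)]⟩,⟨1,[(32,0),(4,3),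
  (1,0)]⟩⟩,⟨false,1,⟨3,[(19,0),(0,0),(18,1)]⟩,⟨0,[]⟩⟩,⟨false,0,⟨0,[(0,0)]⟩,⟨1,[(32,0),(4,5),(1,
  0)]⟩⟩,[.o ⟨false,0,⟨0,[(36,0)]⟩,⟨1,[(32,0),(4,1),(1,0)]⟩⟩,.a ⟨true,0,⟨1,[(1,0),(28,0),(0,0)]⟩,⟨0,
  [(37,0)]⟩⟩ ⟨true,1,⟨1,[(4,0),(6,0),(25,2),(1,0)]⟩,⟨0,[(6,0),(30,0)]⟩⟩ ⟨false,1,⟨1,[(1,0),(1,1),
  (14,0)]⟩,⟨0,[(15,0),(8,0),(12,0)]⟩⟩,.o ⟨false,0,⟨0,[(15,0),(8,0)]⟩,⟨3,[(19,0),(0,0),(17,1)]⟩⟩,.o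
  ⟨false,0,⟨0,[(24,0),(2,0)]⟩,⟨0,[(38,0)]⟩⟩]⟩) (.R ⟨1,true,false,true,[1,-1],[0,1],[0,0,-1,-2],(⟨0,
  [(33,0)]⟩,⟨0,[(34,0)]⟩),(⟨0,[(34,0)]⟩,⟨0,[(33,0)]⟩),⟨1,[(8,0),(1,0),(22,0)]⟩,.k,.k,(.r (-1) ⟨5,
  [(0,3),(2,5),(14,2),(11,0),(0,0)]⟩ ⟨5,[(6,3),(12,0),(0,0),(6,1),(0,1),(10,1)]⟩),(.r (-1) ⟨5,[(0,
  3),(2,5),(14,2),(11,0),(0,0)]⟩ ⟨5,[(6,3),(12,0),(0,0),(6,1),(0,1),(10,1)]⟩),(.r (-2) ⟨11,[(0,9),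
  (2,11),(0,5),(13,8),(7,5),(3,0),(0,0),(7,5)]⟩ ⟨3,[(6,3),(20,0),(0,0),(6,1)]⟩),.k,⟨false,2,⟨3,[(0,
  3),(2,5),(14,2),(11,0),(0,0),(7,1)]⟩,⟨0,[(6,0)]⟩⟩,⟨true,1,⟨1,[(3,1),(14,0),(11,0),(0,0)]⟩,⟨3,[(0,
  3),(5,3),(20,0),(0,0),(6,1)]⟩⟩,⟨true,0,⟨0,[(37,0)]⟩,⟨0,[(36,0)]⟩⟩,⟨false,0,⟨0,[(1,0)]⟩,⟨5,[(0,3),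
  (18,0),(0,0),(11,0),(6,2)]⟩⟩,⟨false,1,⟨3,[(19,0),(0,0),(18,1)]⟩,⟨0,[]⟩⟩,⟨true,0,⟨0,[(1,0),(34,
  0)]⟩,⟨0,[(0,0)]⟩⟩,[]⟩)) (.Q [0,0,0,1,0,0,0,0,0,1] (.pp false [-1,1]) (.R ⟨2,true,false,false,[0,
  1],[1,-1],[0,1,1],(⟨0,[]⟩,⟨0,[]⟩),(⟨0,[(33,0)]⟩,⟨0,[(34,0)]⟩),⟨0,[]⟩,.k,.k,.k,(.r 0 ⟨5,[(6,3),(12,
  0),(0,0),(6,1),(0,1),(10,1)]⟩ ⟨0,[(4,0),(6,0),(25,0)]⟩),.k,.k,⟨true,(-1),⟨0,[(6,0),(30,1)]⟩,⟨1,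
  [(4,0),(6,0),(25,0),(1,0)]⟩⟩,⟨false,0,⟨8,[(1,2),(4,1),(17,1),(2,1),(4,1),(2,0)]⟩,⟨1,[(3,1),(14,0),
  (11,0),(0,0)]⟩⟩,⟨false,0,⟨0,[(37,0)]⟩,⟨5,[(6,1),(12,0),(0,0),(17,1),(0,3)]⟩⟩,⟨true,0,⟨0,[(1,0)]⟩,
  ⟨0,[(0,0),(35,0)]⟩⟩,⟨true,0,⟨0,[(41,0)]⟩,⟨0,[]⟩⟩,⟨false,1,⟨7,[(1,3),(17,0),(0,0),(11,1),(6,3)]⟩,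
  ⟨0,[(0,0)]⟩⟩,[]⟩) (.Q [0,0,0,0,0,0,1,1,1,1,-1,-1] (.p false [0,0,1] [1,0,0,-1] (⟨0,[(31,0)]⟩,⟨0,
  [(30,0)]⟩) .k 2 (⟨1,[(21,0),(8,0),(0,0)]⟩,⟨0,[(22,0)]⟩) .k (.x 0 ⟨0,[(15,0),(15,0)]⟩ ⟨9,[(2,1),(9,
  3),(6,2),(0,2),(9,9),(1,1)]⟩)) (.I [1,-1,0,0,0,0,0,0,1] (.R ⟨1,false,false,true,[1,0,0,-1],[0,0,
  1],[1,0,0,0,0,0,0,0,-1],(⟨1,[(23,0),(8,0),(0,0)]⟩,⟨0,[(24,0)]⟩),(⟨0,[(33,0)]⟩,⟨0,[(32,0)]⟩),⟨3,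
  [(10,0),(1,0),(10,1),(11,0)]⟩,.k,.k,(.r (-1) ⟨1,[(6,0),(6,0),(7,0),(17,0)]⟩ ⟨5,[(0,1),(7,1),(13,
  1),(6,0),(0,0)]⟩),.k,(.r (-1) ⟨3,[(3,0),(2,1),(6,3),(6,0),(0,1),(6,1)]⟩ ⟨10,[(0,2),(0,3),(6,1),(0,
  0),(1,1),(2,3),(1,3),(5,1),(1,3)]⟩),.k,⟨false,1,⟨1,[(13,1),(7,0),(18,0)]⟩,⟨1,[(0,0),(0,0),(1,0),
  (15,1),(4,0),(2,0)]⟩⟩,⟨true,0,⟨1,[(20,0),(2,0)]⟩,⟨0,[(24,0),(1,0)]⟩⟩,⟨true,0,⟨0,[]⟩,⟨0,[(43,0)]⟩⟩,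
  ⟨false,0,⟨0,[(1,0)]⟩,⟨21,[(4,3),(8,19),(0,7),(6,10),(2,21),(3,1),(5,4),(6,1)]⟩⟩,⟨false,1,⟨5,[(8,
  1),(12,0),(0,0),(17,1),(0,3)]⟩,⟨0,[(39,0)]⟩⟩,⟨false,0,⟨1,[(0,1),(15,1),(6,0),(8,0),(0,0)]⟩,⟨21,
  [(3,10),(0,2),(8,14),(0,5),(6,10),(2,21),(3,6),(5,0),(6,6)]⟩⟩,[.o ⟨false,0,⟨0,[(27,0)]⟩,⟨10,[(4,
  0),(8,4),(0,1),(13,5),(5,3),(6,5)]⟩⟩,.o ⟨false,1,⟨3,[(21,0),(0,0),(4,3),(13,1)]⟩,⟨0,[(2,0),(12,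
  0)]⟩⟩,.a ⟨true,0,⟨0,[(24,0)]⟩,⟨1,[(23,0),(8,0),(0,0)]⟩⟩ ⟨false,1,⟨1,[(21,0),(19,0)]⟩,⟨0,[(0,0),
  (42,0)]⟩⟩ ⟨true,0,⟨1,[(23,0),(3,1),(4,0),(0,0)]⟩,⟨0,[(2,0),(12,0),(8,0)]⟩⟩,.o ⟨false,0,⟨8,[(3,2),
  (4,1),(15,8),(1,1),(2,1),(4,1),(2,0)]⟩,⟨7,[(21,0),(0,0),(0,3),(10,1),(5,3)]⟩⟩]⟩) (.K ⟨2,[0,0,0,1],
  0,0,(⟨0,[(24,0)]⟩,⟨1,[(23,0),(8,0),(0,0)]⟩),.k,(.r (-1) ⟨1,[(6,0),(6,0),(8,0),(16,0)]⟩ ⟨2,[(0,0),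
  (7,0),(12,0),(15,0)]⟩),(.r 0 ⟨9,[(1,1),(1,0),(4,3),(4,1),(0,0),(7,3),(1,1),(12,0)]⟩ ⟨1,[(6,0),(6,
  0),(7,0),(17,0)]⟩),.k,.k,[⟨0,[(17,0),(6,0)]⟩,⟨1,[(20,0),(2,0)]⟩,⟨1,[(24,1),(4,0),(0,0)]⟩,⟨1,[(23,
  0),(2,0),(2,0)]⟩,⟨0,[(0,0),(23,0)]⟩,⟨0,[(1,0),(23,0)]⟩]⟩)) (.Q [0,1,0,0,0,0,0,0,1,0,0,-1] (.p
  false [0,0,0,1] [] (⟨0,[(23,0)]⟩,⟨1,[(22,0),(8,0),(0,0)]⟩) .k 0 (⟨0,[]⟩,⟨0,[]⟩) .k .k) (.K ⟨2,[0,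
  0,0,1],0,0,(⟨0,[(24,0)]⟩,⟨1,[(23,0),(8,0),(0,0)]⟩),.k,(.r (-1) ⟨1,[(6,0),(6,0),(8,0),(16,0)]⟩ ⟨5,
  [(1,1),(6,1),(2,1),(8,0),(0,1),(1,0)]⟩),(.r 0 ⟨2,[(0,0),(7,0),(13,0),(1,0),(12,0)]⟩ ⟨1,[(6,0),(6,
  0),(7,0),(17,0)]⟩),.k,.k,[⟨0,[(17,0),(6,0)]⟩,⟨1,[(20,0),(2,0)]⟩,⟨1,[(24,1),(4,0),(0,0)]⟩,⟨1,[(23,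
  0),(2,0),(2,0)]⟩,⟨0,[(1,0),(25,0),(4,0),(0,0)]⟩,⟨0,[(0,0)]⟩]⟩) (.R ⟨1,false,false,false,[1,0,0,
  -1],[1,-1],[0,0,0,-1,0,0,0,0,-1],(⟨1,[(23,0),(8,0),(0,0)]⟩,⟨0,[(24,0)]⟩),(⟨0,[(35,0)]⟩,⟨0,[(36,
  0)]⟩),⟨3,[(10,0),(1,0),(10,1),(11,0)]⟩,.k,.k,(.x 0 ⟨5,[(10,1),(1,1),(13,1),(2,2),(0,0)]⟩ ⟨3,[(21,
  0),(0,0),(13,3),(3,1)]⟩),(.r 0 ⟨19,[(0,3),(2,1),(4,7),(12,7),(1,1),(5,0),(0,0),(6,1)]⟩ ⟨1,[(6,0),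
  (6,0),(8,0),(16,0)]⟩),.k,.k,⟨false,0,⟨1,[(0,0),(0,0),(21,0),(3,0)]⟩,⟨1,[(22,0),(17,0)]⟩⟩,⟨true,0,
  ⟨1,[(23,0),(2,0),(2,0)]⟩,⟨0,[(24,0)]⟩⟩,⟨true,0,⟨0,[(39,0)]⟩,⟨0,[(38,0)]⟩⟩,⟨false,1,⟨1,[(3,0),(18,
  0),(0,0),(17,0)]⟩,⟨0,[(0,0),(37,0)]⟩⟩,⟨false,1,⟨3,[(21,0),(0,0),(18,1)]⟩,⟨0,[]⟩⟩,⟨false,1,⟨5,[(4,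
  0),(12,0),(4,2),(0,2),(10,0),(2,1),(3,0)]⟩,⟨0,[(0,0),(42,0)]⟩⟩,[.o ⟨false,0,⟨0,[(2,0)]⟩,⟨11,[(8,
  3),(12,4),(0,4),(17,3),(0,1)]⟩⟩,.o ⟨false,1,⟨7,[(3,3),(17,0),(0,0),(11,1),(6,3)]⟩,⟨0,[(38,0)]⟩⟩,
  .a ⟨true,0,⟨0,[(24,0)]⟩,⟨1,[(23,0),(8,0),(0,0)]⟩⟩ ⟨false,0,⟨1,[(0,1),(2,0),(19,0)]⟩,⟨5,[(8,1),(12,
  0),(0,3),(17,1),(0,0)]⟩⟩ ⟨true,0,⟨1,[(3,0),(19,0)]⟩,⟨0,[(24,0),(13,0)]⟩⟩,.o ⟨false,0,⟨8,[(3,2),(4,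
  1),(15,8),(1,1),(2,1),(4,1),(2,0)]⟩,⟨7,[(21,0),(0,0),(0,3),(10,1),(5,3)]⟩⟩]⟩))))))) (.Q [0,0,0,2,
  0,0,0,0,0,1] (.pp false [-1,1]) (.Q [0,0,0,3,0,0,0,0,0,1] (.pp false [-1,1]) (.R ⟨1,false,false,
  true,[1,-1],[0,1],[0,0,-1,-2],(⟨0,[(31,0)]⟩,⟨0,[(32,0)]⟩),(⟨0,[(32,0)]⟩,⟨0,[(31,0)]⟩),⟨1,[(6,0),
  (1,0),(22,0)]⟩,.k,.k,(.r (-1) ⟨0,[(35,1),(0,0)]⟩ ⟨6,[(2,1),(1,3),(2,1),(9,2),(0,2)]⟩),(.r (-1) ⟨0,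
  [(35,1),(0,0)]⟩ ⟨6,[(2,1),(1,3),(2,1),(9,2),(0,2)]⟩),(.r (-2) ⟨3,[(17,0),(0,0),(16,11),(0,5)]⟩ ⟨6,
  [(2,2),(1,5),(2,2),(9,0),(0,0)]⟩),.k,⟨false,2,⟨1,[(35,5),(0,2),(0,0)]⟩,⟨0,[(4,0)]⟩⟩,⟨true,1,⟨0,
  [(28,0),(0,0),(6,0)]⟩,⟨0,[(2,0),(19,0),(0,0),(11,0)]⟩⟩,⟨true,0,⟨0,[(35,0)]⟩,⟨0,[(34,0)]⟩⟩,⟨false,
  0,⟨0,[(1,0)]⟩,⟨1,[(30,0),(4,3),(1,0)]⟩⟩,⟨false,1,⟨3,[(17,0),(0,0),(18,1)]⟩,⟨0,[]⟩⟩,⟨false,0,⟨0,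
  [(0,0)]⟩,⟨1,[(30,0),(4,5),(1,0)]⟩⟩,[.o ⟨false,0,⟨0,[(34,0)]⟩,⟨1,[(30,0),(4,1),(1,0)]⟩⟩,.a ⟨true,0,
  ⟨1,[(1,0),(26,0),(0,0)]⟩,⟨0,[(35,0)]⟩⟩ ⟨true,1,⟨1,[(35,3),(0,0),(0,0)]⟩,⟨0,[(4,0),(30,0)]⟩⟩
  ⟨false,1,⟨1,[(1,0),(26,0),(0,0),(6,1)]⟩,⟨2,[(2,0),(19,0),(0,0),(6,0),(4,3)]⟩⟩,.o ⟨false,0,⟨2,[(2,
  0),(19,0),(0,0),(6,0),(4,0)]⟩,⟨3,[(17,0),(0,0),(17,1)]⟩⟩,.o ⟨false,0,⟨0,[(22,0),(2,0)]⟩,⟨0,[(36,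
  0)]⟩⟩]⟩) (.R ⟨1,true,false,true,[1,-1],[0,1],[0,0,-1,-2],(⟨0,[(31,0)]⟩,⟨0,[(32,0)]⟩),(⟨0,[(32,
  0)]⟩,⟨0,[(31,0)]⟩),⟨1,[(6,0),(1,0),(22,0)]⟩,.k,.k,(.r (-1) ⟨2,[(0,1),(27,1),(0,1),(6,2)]⟩ ⟨6,[(2,
  1),(1,3),(2,1),(9,2),(0,2)]⟩),(.r (-1) ⟨2,[(0,1),(27,1),(0,1),(6,2)]⟩ ⟨6,[(2,1),(1,3),(2,1),(9,2),
  (0,2)]⟩),(.r (-2) ⟨3,[(0,3),(16,0),(0,0),(9,3),(0,3),(6,5)]⟩ ⟨6,[(2,2),(1,5),(2,2),(9,0),(0,0)]⟩),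
  .k,⟨false,2,⟨1,[(0,1),(27,1),(0,1),(6,2),(0,0)]⟩,⟨0,[(4,0)]⟩⟩,⟨true,1,⟨0,[(28,0),(0,0),(6,0)]⟩,⟨8,
  [(0,6),(1,2),(1,5),(2,2),(14,1),(2,2),(0,0)]⟩⟩,⟨true,0,⟨0,[(35,0)]⟩,⟨0,[(34,0)]⟩⟩,⟨false,0,⟨0,[(1,
  0)]⟩,⟨5,[(0,3),(16,0),(0,0),(11,0),(6,2)]⟩⟩,⟨false,1,⟨3,[(17,0),(0,0),(18,1)]⟩,⟨0,[]⟩⟩,⟨true,0,⟨0,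
  [(1,0),(32,0)]⟩,⟨0,[(0,0)]⟩⟩,[]⟩)) (.Q [0,0,0,1,0,0,0,0,0,1] (.pp false [-1,1]) (.R ⟨2,true,false,
  false,[0,1],[1,-1],[0,1,1],(⟨0,[]⟩,⟨0,[]⟩),(⟨0,[(31,0)]⟩,⟨0,[(32,0)]⟩),⟨0,[]⟩,.k,.k,.k,(.r 0 ⟨6,
  [(2,1),(1,3),(2,1),(9,2),(0,2)]⟩ ⟨0,[(35,1),(0,0)]⟩),.k,.k,⟨true,(-1),⟨0,[(4,0),(30,1)]⟩,⟨1,[(35,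
  1),(0,0),(0,0)]⟩⟩,⟨false,0,⟨23,[(1,6),(0,1),(1,3),(2,1),(14,4),(2,4),(4,5)]⟩,⟨0,[(28,0),(0,0),(6,
  0)]⟩⟩,⟨false,0,⟨0,[(35,0)]⟩,⟨5,[(4,1),(12,0),(0,0),(17,1),(0,3)]⟩⟩,⟨true,0,⟨0,[(1,0)]⟩,⟨0,[(0,0),
  (33,0)]⟩⟩,⟨true,0,⟨0,[(39,0)]⟩,⟨0,[]⟩⟩,⟨false,1,⟨7,[(1,3),(15,0),(0,0),(11,1),(6,3)]⟩,⟨0,[(0,
  0)]⟩⟩,[]⟩) (.I [0,0,0,0,0,0,0,0,-1] (.I [0,0,-1,-1,0,0,0,0,-1] (.R ⟨1,false,false,false,[1,0,0,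
  -1],[1,-1],[1,0,0,0,0,0,0,0,-1],(⟨1,[(21,0),(8,0),(0,0)]⟩,⟨0,[(22,0)]⟩),(⟨0,[(33,0)]⟩,⟨0,[(34,
  0)]⟩),⟨3,[(8,0),(1,0),(10,1),(11,0)]⟩,.k,.k,(.r 0 ⟨0,[(0,0)]⟩ ⟨27,[(4,3),(1,7),(2,3),(9,12),(0,
  26)]⟩),(.r 0 ⟨6,[(1,0),(2,0),(1,1),(2,0),(9,2)]⟩ ⟨1,[(20,0),(16,1),(0,0)]⟩),.k,.k,⟨false,0,⟨5,[(0,
  0),(0,4),(4,1),(0,0),(3,0),(26,1)]⟩,⟨1,[(20,0),(16,1),(0,0)]⟩⟩,⟨true,0,⟨1,[(21,0),(2,0),(2,0)]⟩,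
  ⟨0,[(22,0)]⟩⟩,⟨true,0,⟨0,[]⟩,⟨0,[(41,0)]⟩⟩,⟨false,1,⟨1,[(3,0),(16,0),(0,0),(17,0)]⟩,⟨5,[(0,0),(0,
  4),(4,1),(0,0),(3,0),(10,5),(15,1)]⟩⟩,⟨false,1,⟨5,[(6,1),(12,0),(0,0),(17,1),(0,3)]⟩,⟨0,[(37,
  0)]⟩⟩,⟨false,1,⟨3,[(20,1),(0,1),(10,0),(2,1),(2,0)]⟩,⟨0,[(1,0),(20,0)]⟩⟩,[.o ⟨false,0,⟨0,[(2,0)]⟩,
  ⟨11,[(6,3),(12,4),(0,4),(17,3),(0,1)]⟩⟩,.o ⟨false,1,⟨7,[(3,3),(15,0),(0,0),(11,1),(6,3)]⟩,⟨0,[(36,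
  0)]⟩⟩,.a ⟨true,0,⟨0,[(22,0)]⟩,⟨1,[(21,0),(8,0),(0,0)]⟩⟩ ⟨false,0,⟨1,[(0,0),(0,0),(5,0),(3,0)]⟩,⟨3,
  [(19,0),(0,2)]⟩⟩ ⟨true,0,⟨1,[(3,0),(17,0)]⟩,⟨0,[(22,0),(13,0)]⟩⟩,.o ⟨false,0,⟨23,[(3,6),(0,1),(1,
  3),(2,1),(12,23),(1,4),(2,4),(4,5)]⟩,⟨7,[(19,0),(0,0),(0,3),(10,1),(5,3)]⟩⟩]⟩) (.Q [0,0,0,0,0,0,1,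
  1,-1,0,-1,1] (.p false [0,0,1] [0,0,0,1] (⟨0,[(31,0)]⟩,⟨0,[(30,0)]⟩) .k 2 (⟨0,[(22,0)]⟩,⟨1,[(21,
  0),(8,0),(0,0)]⟩) .k (.x 0 ⟨0,[(15,0),(15,0)]⟩ ⟨3,[(12,1),(6,0),(0,0),(9,3),(1,0),(5,0)]⟩)) (.R
  ⟨1,false,false,false,[1,0,0,-1],[1,0,-1],[0,1,0,-1,0,0,0,0,-1],(⟨1,[(22,0),(8,0),(0,0)]⟩,⟨0,[(23,
  0)]⟩),(⟨0,[(31,0)]⟩,⟨0,[(32,0)]⟩),⟨3,[(9,0),(1,0),(10,1),(11,0)]⟩,.k,.k,(.x 0 ⟨2,[(9,0),(1,0),(1,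
  0),(14,1)]⟩ ⟨3,[(20,0),(0,0),(13,3),(3,1)]⟩),.k,(.r (-1) ⟨5,[(0,3),(9,0),(2,1),(6,0),(1,1),(3,0),
  (2,0),(8,5),(0,4)]⟩ ⟨3,[(5,0),(1,0),(13,1),(8,2)]⟩),.k,⟨true,0,⟨1,[(0,1),(3,0),(13,1),(3,0),(15,
  1)]⟩,⟨0,[(1,0),(10,0)]⟩⟩,⟨false,1,⟨7,[(13,3),(6,0),(0,0),(0,3),(16,5)]⟩,⟨0,[(16,0),(6,0)]⟩⟩,
  ⟨false,0,⟨0,[(38,0)]⟩,⟨5,[(7,1),(12,0),(0,0),(17,1),(0,3)]⟩⟩,⟨false,1,⟨5,[(12,3),(0,1),(7,2),(0,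
  2),(1,0),(2,0),(11,0),(0,1)]⟩,⟨0,[(0,0)]⟩⟩,⟨true,0,⟨0,[(42,0)]⟩,⟨0,[]⟩⟩,⟨false,1,⟨3,[(6,1),(7,1),
  (6,1),(0,1),(13,1),(2,0),(0,0)]⟩,⟨0,[(0,0),(37,0)]⟩⟩,[.o ⟨false,0,⟨0,[(3,0),(10,0)]⟩,⟨3,[(20,0),
  (0,0),(4,3),(13,1)]⟩⟩,.o ⟨false,1,⟨0,[(24,0),(15,0)]⟩,⟨0,[(26,0)]⟩⟩,.a ⟨true,0,⟨0,[(23,0)]⟩,⟨1,
  [(22,0),(8,0),(0,0)]⟩⟩ ⟨false,0,⟨0,[(2,0),(35,0)]⟩,⟨7,[(7,1),(0,1),(3,1),(8,3),(17,2),(0,2)]⟩⟩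
  ⟨true,0,⟨1,[(4,0),(9,1),(7,0)]⟩,⟨0,[(23,0),(2,0)]⟩⟩,.o ⟨false,0,⟨13,[(0,1),(3,3),(0,1),(1,1),(13,
  0),(1,11),(1,3),(2,1),(4,2)]⟩,⟨7,[(20,0),(0,0),(0,3),(10,1),(5,3)]⟩⟩]⟩) (.K ⟨2,[0,0,0,1],0,0,(⟨0,
  [(23,0)]⟩,⟨1,[(22,0),(8,0),(0,0)]⟩),.k,(.r (-1) ⟨1,[(21,0),(16,1),(0,0)]⟩ ⟨6,[(2,0),(2,0),(1,1),
  (2,0),(9,2)]⟩),(.r 0 ⟨0,[(0,0),(2,4),(1,1),(2,0),(0,4),(1,4),(3,1),(2,0),(4,0),(11,14),(3,1)]⟩ ⟨1,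
  [(20,0),(17,1),(0,0)]⟩),.k,.k,[⟨0,[(16,0),(6,0)]⟩,⟨1,[(19,0),(2,0)]⟩,⟨1,[(23,1),(4,0),(0,0)]⟩,⟨1,
  [(22,0),(2,0),(2,0)]⟩,⟨0,[(2,0),(20,0),(18,0)]⟩,⟨0,[(0,0),(25,0)]⟩]⟩))) (.I [1,-1,0,0,0,0,0,0,1]
  (.R ⟨1,false,false,true,[1,0,0,-1],[0,0,1],[1,0,0,0,0,0,0,0,-1],(⟨1,[(21,0),(8,0),(0,0)]⟩,⟨0,[(22,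
  0)]⟩),(⟨0,[(31,0)]⟩,⟨0,[(30,0)]⟩),⟨3,[(8,0),(1,0),(10,1),(11,0)]⟩,.k,.k,(.r (-1) ⟨1,[(19,0),(17,
  1),(0,0)]⟩ ⟨6,[(1,0),(2,0),(1,1),(2,0),(10,2)]⟩),.k,(.r (-1) ⟨3,[(3,0),(7,1),(6,0),(0,1),(6,1),
  (10,1),(0,1)]⟩ ⟨6,[(1,4),(4,0),(2,4),(4,1),(2,1),(2,0)]⟩),.k,⟨false,1,⟨1,[(11,1),(7,0),(18,0)]⟩,
  ⟨0,[(0,0),(16,0),(7,0),(11,0)]⟩⟩,⟨true,0,⟨1,[(18,0),(2,0)]⟩,⟨0,[(22,0),(1,0)]⟩⟩,⟨true,0,⟨0,[]⟩,⟨0,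
  [(41,0)]⟩⟩,⟨false,0,⟨1,[(0,1),(20,0),(3,1),(4,0),(0,0)]⟩,⟨3,[(11,3),(0,1),(6,1),(2,3),(9,0),(5,
  0)]⟩⟩,⟨false,1,⟨5,[(6,1),(12,0),(0,0),(17,1),(0,3)]⟩,⟨0,[(37,0)]⟩⟩,⟨false,0,⟨1,[(0,1),(13,1),(6,
  0),(8,0),(0,0)]⟩,⟨5,[(3,2),(7,3),(0,1),(6,2),(2,5),(0,0),(2,0),(11,0),(0,1)]⟩⟩,[.o ⟨false,0,⟨0,
  [(25,0)]⟩,⟨0,[(23,0),(15,0)]⟩⟩,.o ⟨false,1,⟨3,[(19,0),(0,0),(4,3),(13,1)]⟩,⟨0,[(2,0),(10,0)]⟩⟩,.a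
  ⟨true,0,⟨0,[(22,0)]⟩,⟨1,[(21,0),(8,0),(0,0)]⟩⟩ ⟨false,1,⟨1,[(19,0),(19,0)]⟩,⟨0,[(0,0),(1,2),(1,0),
  (3,2),(1,2),(3,0),(2,0),(16,8),(3,0)]⟩⟩ ⟨true,0,⟨1,[(21,0),(3,1),(4,0),(0,0)]⟩,⟨0,[(2,0),(10,0),
  (8,0)]⟩⟩,.o ⟨false,0,⟨23,[(3,6),(0,1),(1,3),(2,1),(12,23),(1,4),(2,4),(4,5)]⟩,⟨7,[(19,0),(0,0),(0,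
  3),(10,1),(5,3)]⟩⟩]⟩) (.K ⟨2,[0,0,0,1],0,0,(⟨0,[(22,0)]⟩,⟨1,[(21,0),(8,0),(0,0)]⟩),.k,(.r (-1) ⟨1,
  [(20,0),(16,1),(0,0)]⟩ ⟨4,[(0,0),(3,0),(1,0),(0,0),(11,1)]⟩),(.r 0 ⟨6,[(1,0),(2,0),(1,1),(2,0),
  (10,2)]⟩ ⟨1,[(19,0),(17,1),(0,0)]⟩),.k,.k,[⟨0,[(15,0),(6,0)]⟩,⟨1,[(18,0),(2,0)]⟩,⟨1,[(22,1),(4,0),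
  (0,0)]⟩,⟨1,[(21,0),(2,0),(2,0)]⟩,⟨0,[(0,0),(21,0)]⟩,⟨1,[(1,1),(19,0),(1,0),(1,0)]⟩]⟩)))))))

theorem ok13 : chk (cU (-1) false 10) t13 l12 = true := by decide +kernel

noncomputable def l13 : List Con := (true, [0,1,2,1,-1,0,0,-1]) :: r12

noncomputable def r13 : List Con := (true, [1,-1,-2,-1,1,0,0,1]) :: r12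

noncomputable def t14 : Tre :=
  (.Q [0,-1,0,-1,0,0,1,1,0,1,-1] (.p false [0,0,1] [1] (⟨0,[(26,0)]⟩,⟨0,[(25,0)]⟩) .k 1 (⟨0,[]⟩,⟨0,
  []⟩) .k .k) (.R ⟨2,false,false,true,[0,1],[1,1,-1],[1],(⟨0,[]⟩,⟨0,[]⟩),(⟨0,[(26,0),(3,0)]⟩,⟨0,[(4,
  0)]⟩),⟨0,[]⟩,.k,.k,.k,.k,.k,.k,⟨true,1,⟨27,[(2,11),(2,23),(4,3),(2,3),(1,0),(0,0),(17,13)]⟩,⟨0,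
  [(1,0)]⟩⟩,⟨false,1,⟨3,[(8,1),(19,0),(5,2)]⟩,⟨1,[(14,0),(11,0),(0,0)]⟩⟩,⟨false,1,⟨11,[(2,3),(12,0),
  (0,0),(17,1),(0,3)]⟩,⟨11,[(1,3),(1,3),(11,0),(0,0),(15,3),(2,1)]⟩⟩,⟨true,0,⟨0,[(19,0)]⟩,⟨3,[(0,2),
  (9,0),(2,1),(0,0)]⟩⟩,⟨false,1,⟨1,[(34,0),(0,0)]⟩,⟨1,[(23,0),(0,0)]⟩⟩,⟨false,1,⟨3,[(9,3),(5,0),(0,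
  0),(11,1)]⟩,⟨0,[(0,0)]⟩⟩,[.e ⟨true,0,⟨0,[]⟩,⟨1,[(23,0),(0,0)]⟩⟩ ⟨true,0,⟨10,[(1,4),(6,0),(0,2),(3,
  2),(8,2),(5,4)]⟩,⟨0,[(0,0)]⟩⟩,.a ⟨true,0,⟨0,[(9,0)]⟩,⟨0,[(0,0),(36,0)]⟩⟩ ⟨false,1,⟨1,[(34,0),(0,
  0)]⟩,⟨0,[(37,0)]⟩⟩ ⟨true,0,⟨3,[(1,0),(1,0),(3,0),(1,1),(9,0),(0,0),(7,0)]⟩,⟨0,[(0,0),(36,0)]⟩⟩,.o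
  ⟨false,1,⟨3,[(15,0),(0,0),(17,1)]⟩,⟨0,[(11,0),(8,0)]⟩⟩,.e ⟨false,1,⟨1,[(34,0),(0,0)]⟩,⟨1,[(23,0),
  (0,0)]⟩⟩ ⟨false,1,⟨3,[(9,3),(5,0),(0,0),(11,1)]⟩,⟨0,[(0,0)]⟩⟩]⟩) (.I [1,0,-1,0,0,0,0,0,-1] (.Q [0,
  0,0,0,0,0,1,1,0,1,-1,-1] (.p false [0,0,1] [1,0,0,-1] (⟨0,[(28,0)]⟩,⟨0,[(27,0)]⟩) .k 2 (⟨1,[(18,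
  0),(8,0),(0,0)]⟩,⟨0,[(19,0)]⟩) .k (.r (-1) ⟨27,[(3,7),(2,15),(4,11),(2,11),(1,2),(0,16)]⟩ ⟨7,[(0,
  3),(1,2),(0,0),(4,1),(7,1),(9,2)]⟩)) (.R ⟨1,false,false,true,[1,0,0,-1],[0,0,1],[0,1,0,-1,0,0,0,0,
  -1],(⟨1,[(19,0),(8,0),(0,0)]⟩,⟨0,[(20,0)]⟩),(⟨0,[(29,0)]⟩,⟨0,[(28,0)]⟩),⟨3,[(6,0),(1,0),(10,1),
  (11,0)]⟩,.k,.k,(.r 0 ⟨0,[(1,0),(33,0)]⟩ ⟨5,[(3,1),(1,1),(11,1),(0,4),(15,1),(2,0)]⟩),.k,(.r 0 ⟨1,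
  [(1,1),(1,0),(0,0),(22,0)]⟩ ⟨3,[(5,1),(6,1),(4,0),(0,2),(7,1)]⟩),.k,⟨false,0,⟨1,[(1,1),(1,0),(0,
  0),(22,0)]⟩,⟨11,[(5,3),(1,3),(4,3),(2,3),(1,0),(0,6),(17,3)]⟩⟩,⟨true,0,⟨1,[(16,0),(2,0)]⟩,⟨0,[(20,
  0),(1,0)]⟩⟩,⟨false,0,⟨0,[(35,0)]⟩,⟨0,[(34,0),(2,0)]⟩⟩,⟨false,1,⟨3,[(0,3),(16,0),(0,2)]⟩,⟨0,[(1,0),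
  (7,0),(10,0),(1,0)]⟩⟩,⟨true,0,⟨0,[(39,0)]⟩,⟨0,[]⟩⟩,⟨false,1,⟨1,[(0,1),(17,0),(15,1),(2,0)]⟩,⟨0,
  [(1,0),(7,0),(10,0),(1,0),(12,0)]⟩⟩,[.o ⟨false,0,⟨0,[(23,0)]⟩,⟨23,[(2,5),(1,1),(4,7),(0,3),(13,9),
  (5,6),(6,14)]⟩⟩,.a ⟨true,0,⟨0,[(0,0),(19,0)]⟩,⟨0,[(11,0),(23,0)]⟩⟩ ⟨false,0,⟨0,[(1,0),(33,0)]⟩,⟨1,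
  [(18,0),(15,1),(2,0)]⟩⟩ ⟨true,0,⟨0,[(0,0)]⟩,⟨12,[(3,2),(0,0),(4,5),(10,12),(1,8),(1,3),(5,1)]⟩⟩,
  .e ⟨false,0,⟨4,[(1,2),(1,0),(3,0),(9,0),(17,5)]⟩,⟨5,[(5,1),(3,1),(1,1),(0,1),(5,2),(17,0),(0,
  1)]⟩⟩ ⟨false,0,⟨0,[(0,0)]⟩,⟨23,[(2,5),(1,1),(4,7),(0,3),(9,23),(3,9),(5,6),(6,14)]⟩⟩,.o ⟨false,0,
  ⟨0,[(13,0),(6,0),(1,0)]⟩,⟨7,[(17,0),(0,0),(0,3),(10,1),(5,3)]⟩⟩]⟩) (.R ⟨1,false,false,true,[1,0,0,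
  -1],[0,0,1],[0,1,0,-1,0,0,0,0,-1],(⟨1,[(19,0),(8,0),(0,0)]⟩,⟨0,[(20,0)]⟩),(⟨0,[(29,0)]⟩,⟨0,[(28,
  0)]⟩),⟨3,[(6,0),(1,0),(10,1),(11,0)]⟩,.k,.k,(.r 0 ⟨0,[(1,0),(33,0)]⟩ ⟨5,[(3,1),(1,1),(11,1),(0,4),
  (15,1),(2,0)]⟩),.k,(.r 0 ⟨1,[(1,1),(1,0),(0,0),(22,0)]⟩ ⟨3,[(5,1),(6,1),(4,0),(0,2),(7,1)]⟩),.k,
  ⟨false,0,⟨1,[(1,1),(1,0),(0,0),(22,0)]⟩,⟨11,[(5,3),(1,3),(4,3),(2,3),(1,0),(0,6),(17,3)]⟩⟩,⟨true,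
  0,⟨1,[(16,0),(2,0)]⟩,⟨0,[(20,0),(1,0)]⟩⟩,⟨false,0,⟨0,[(35,0)]⟩,⟨0,[(34,0),(2,0)]⟩⟩,⟨false,1,⟨19,
  [(4,3),(2,7),(4,11),(3,3),(0,2),(0,12),(0,9),(8,5),(0,5)]⟩,⟨9,[(0,9),(0,7),(1,0),(3,0),(9,0),(15,
  4),(1,0)]⟩⟩,⟨true,0,⟨0,[(39,0)]⟩,⟨0,[]⟩⟩,⟨false,1,⟨7,[(5,3),(6,3),(3,1),(0,0),(0,4),(0,3),(8,1),
  (0,1),(6,1)]⟩,⟨9,[(0,9),(0,7),(1,0),(3,0),(9,0),(15,4),(1,10)]⟩⟩,[.o ⟨false,0,⟨0,[(23,0)]⟩,⟨23,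
  [(2,5),(1,1),(4,7),(0,3),(13,9),(5,6),(6,14)]⟩⟩,.e ⟨false,0,⟨0,[(1,0),(33,0)]⟩,⟨1,[(18,0),(15,1),
  (2,0)]⟩⟩ ⟨false,1,⟨19,[(4,3),(2,7),(4,11),(3,3),(0,2),(0,2),(0,9),(8,5),(0,5),(6,9)]⟩,⟨0,[(0,
  0)]⟩⟩,.a ⟨true,0,⟨0,[(20,0)]⟩,⟨1,[(19,0),(8,0),(0,0)]⟩⟩ ⟨false,0,⟨4,[(1,2),(1,0),(3,0),(9,0),(17,
  5)]⟩,⟨5,[(5,1),(3,1),(1,1),(0,1),(5,2),(17,0),(0,1)]⟩⟩ ⟨true,0,⟨1,[(19,0),(3,1),(4,0),(0,0)]⟩,⟨0,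
  [(0,0)]⟩⟩,.o ⟨false,0,⟨1,[(0,1),(6,0),(15,0),(1,0)]⟩,⟨7,[(17,0),(0,0),(0,3),(10,1),(5,3)]⟩⟩]⟩))
  (.Q [0,0,2,0,-1,0,1,0,0,0,-1] (.p false [0,0,1] [] (⟨0,[(28,0)]⟩,⟨0,[(27,0)]⟩) .k 0 (⟨0,[]⟩,⟨0,
  []⟩) .k .k) (.Q [0,0,0,-2,0,0,1,1,0,0,-1] (.p false [0,0,1] [] (⟨0,[(29,0)]⟩,⟨0,[(28,0)]⟩) .k 0
  (⟨0,[]⟩,⟨0,[]⟩) .k .k) (.I [0,0,2,0,-1,-2,1] (.R ⟨1,true,false,false,[0,0,1],[0,1],[1,1,0,0,0,0,0,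
  1],(⟨0,[(31,0)]⟩,⟨0,[(30,0)]⟩),(⟨0,[(34,0)]⟩,⟨0,[(33,0)]⟩),⟨0,[(8,0)]⟩,.k,.k,.k,.k,(.x 1 ⟨0,[(0,
  0)]⟩ ⟨3,[(12,1),(6,0),(0,0),(9,3),(1,0),(1,7),(3,4)]⟩),.k,⟨false,1,⟨0,[(6,0),(7,0),(2,0)]⟩,⟨8,[(5,
  3),(1,0),(3,5),(1,1),(0,1),(24,3)]⟩⟩,⟨true,1,⟨11,[(6,3),(10,11),(1,0),(0,0),(17,1),(0,3)]⟩,⟨0,[(2,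
  0)]⟩⟩,⟨false,0,⟨0,[]⟩,⟨3,[(19,0),(0,0),(18,1)]⟩⟩,⟨true,0,⟨0,[(13,0)]⟩,⟨1,[(1,0),(23,0),(15,0)]⟩⟩,
  ⟨true,0,⟨0,[(36,0)]⟩,⟨0,[(37,0)]⟩⟩,⟨false,1,⟨0,[(13,0),(22,0),(2,0)]⟩,⟨0,[(1,0)]⟩⟩,[]⟩) (.I [1,0,
  0,0,0,0,0,1,1] (.I [1,0,1,1,-1,0,0,-1,1] (.Q [0,0,0,1,0,0,0,0,0,1,0,-1] (.p false [0,0,0,1] [1]
  (⟨0,[(24,0)]⟩,⟨1,[(23,0),(8,0),(0,0)]⟩) .k 1 (⟨0,[]⟩,⟨0,[]⟩) .k .k) (.R ⟨1,false,false,true,[1,0,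
  0,-1],[0,1],[0,1,0,-1,0,0,0,0,-1],(⟨1,[(24,0),(8,0),(0,0)]⟩,⟨0,[(25,0)]⟩),(⟨0,[(37,0)]⟩,⟨0,[(36,
  0)]⟩),⟨3,[(11,0),(1,0),(10,1),(11,0)]⟩,.k,.k,(.r (-1) ⟨5,[(9,1),(12,2),(18,0),(2,1)]⟩ ⟨4,[(1,0),
  (6,0),(1,1),(12,1),(15,0)]⟩),(.r (-1) ⟨5,[(9,1),(12,2),(18,0),(2,1)]⟩ ⟨4,[(1,0),(6,0),(1,1),(12,
  1),(15,0)]⟩),(.r (-2) ⟨11,[(9,7),(12,8),(0,2),(17,3),(2,7)]⟩ ⟨30,[(1,21),(0,6),(5,9),(1,19),(6,4),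
  (2,4),(2,0)]⟩),.k,⟨true,1,⟨3,[(4,0),(4,1),(12,1),(6,0),(14,0)]⟩,⟨30,[(1,21),(0,6),(5,9),(1,19),(6,
  4),(2,4),(2,0)]⟩⟩,⟨false,1,⟨9,[(3,1),(17,0),(2,4),(9,1),(1,3),(4,7)]⟩,⟨2,[(5,0),(19,2),(1,0),(7,
  0)]⟩⟩,⟨false,0,⟨0,[(40,0)]⟩,⟨0,[(39,0),(2,0)]⟩⟩,⟨false,0,⟨25,[(0,23),(0,7),(0,9),(6,1),(11,0),(1,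
  3),(0,0),(4,1),(11,1)]⟩,⟨5,[(4,3),(2,3),(1,1),(0,3),(3,3),(7,2),(2,5),(9,0)]⟩⟩,⟨true,0,⟨0,[(44,
  0)]⟩,⟨0,[]⟩⟩,⟨false,0,⟨33,[(0,33),(0,17),(0,5),(7,7),(6,3),(2,3),(2,4),(17,12)]⟩,⟨3,[(4,2),(2,0),
  (1,0),(4,1),(0,0),(6,1),(2,3),(9,0),(2,0)]⟩⟩,[.o ⟨false,0,⟨0,[(39,0)]⟩,⟨2,[(9,0),(17,0),(2,0),(4,
  0),(6,0)]⟩⟩,.a ⟨true,0,⟨0,[(0,0),(24,0)]⟩,⟨0,[(40,0)]⟩⟩ ⟨false,1,⟨5,[(9,1),(12,2),(18,0),(2,1)]⟩,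
  ⟨33,[(1,17),(0,5),(7,7),(6,3),(2,3),(2,4),(17,12)]⟩⟩ ⟨true,0,⟨0,[(0,0)]⟩,⟨3,[(4,0),(0,0),(2,0),(0,
  0),(15,3),(1,1),(7,0)]⟩⟩,.e ⟨false,1,⟨51,[(4,11),(3,7),(0,11),(12,36),(0,10),(5,3),(1,7)]⟩,⟨2,[(1,
  1),(0,0),(7,0),(27,0),(2,1)]⟩⟩ ⟨false,0,⟨0,[(0,0)]⟩,⟨2,[(9,0),(15,2),(1,0),(2,0),(4,0),(6,0)]⟩⟩,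
  .o ⟨false,0,⟨2,[(5,0),(19,2),(1,0),(7,0)]⟩,⟨7,[(22,0),(0,0),(0,3),(10,1),(5,3)]⟩⟩]⟩) (.R ⟨1,false,
  false,true,[1,0,0,-1],[0,1],[0,1,0,-1,0,0,0,0,-1],(⟨1,[(24,0),(8,0),(0,0)]⟩,⟨0,[(25,0)]⟩),(⟨0,
  [(37,0)]⟩,⟨0,[(36,0)]⟩),⟨3,[(11,0),(1,0),(10,1),(11,0)]⟩,.k,.k,(.r (-1) ⟨5,[(9,1),(12,2),(18,0),
  (2,1)]⟩ ⟨4,[(1,0),(6,0),(1,1),(12,1),(15,0)]⟩),(.r (-1) ⟨5,[(9,1),(12,2),(18,0),(2,1)]⟩ ⟨4,[(1,0),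
  (6,0),(1,1),(12,1),(15,0)]⟩),(.r (-2) ⟨11,[(9,7),(12,8),(0,2),(17,3),(2,7)]⟩ ⟨30,[(1,21),(0,6),(5,
  9),(1,19),(6,4),(2,4),(2,0)]⟩),.k,⟨true,1,⟨3,[(4,0),(4,1),(12,1),(6,0),(14,0)]⟩,⟨30,[(1,21),(0,6),
  (5,9),(1,19),(6,4),(2,4),(2,0)]⟩⟩,⟨false,1,⟨9,[(3,1),(17,0),(2,4),(9,1),(1,3),(4,7)]⟩,⟨2,[(5,0),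
  (19,2),(1,0),(7,0)]⟩⟩,⟨false,0,⟨0,[(40,0)]⟩,⟨0,[(39,0),(2,0)]⟩⟩,⟨false,0,⟨89,[(1,49),(0,9),(0,21),
  (6,19),(6,19),(3,0),(1,14),(0,44),(9,21),(1,43),(4,12)]⟩,⟨1,[(0,1),(21,0),(19,0)]⟩⟩,⟨true,0,⟨0,
  [(44,0)]⟩,⟨0,[]⟩⟩,⟨false,0,⟨49,[(1,39),(1,7),(6,29),(6,9),(2,19),(0,8),(1,4),(0,24),(9,7),(1,15),
  (4,26)]⟩,⟨35,[(0,35),(4,7),(3,11),(12,18),(0,0),(7,7),(10,11)]⟩⟩,[.o ⟨false,0,⟨0,[(39,0)]⟩,⟨2,[(9,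
  0),(17,0),(2,0),(4,0),(6,0)]⟩⟩,.e ⟨false,1,⟨5,[(9,1),(12,2),(18,0),(2,1)]⟩,⟨33,[(1,17),(0,5),(7,
  7),(6,3),(2,3),(2,4),(17,12)]⟩⟩ ⟨false,1,⟨1,[(20,1),(0,0),(2,0),(16,0),(0,0)]⟩,⟨0,[(0,0)]⟩⟩,.a
  ⟨true,0,⟨0,[(25,0)]⟩,⟨1,[(24,0),(8,0),(0,0)]⟩⟩ ⟨false,1,⟨51,[(4,11),(3,7),(0,11),(12,36),(0,10),
  (5,3),(1,7)]⟩,⟨2,[(1,1),(0,0),(7,0),(27,0),(2,1)]⟩⟩ ⟨true,0,⟨1,[(20,1),(0,0),(2,0)]⟩,⟨0,[(0,0)]⟩⟩,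
  .o ⟨false,0,⟨2,[(5,0),(19,2),(1,0),(7,0)]⟩,⟨7,[(22,0),(0,0),(0,3),(10,1),(5,3)]⟩⟩]⟩)) (.Q [0,0,0,
  0,0,0,1,1,0,1,-1] (.p false [0,0,1] [1] (⟨0,[(33,0)]⟩,⟨0,[(32,0)]⟩) .k 1 (⟨0,[]⟩,⟨0,[]⟩) .k .k)
  (.R ⟨1,false,false,true,[1,0,0,-1],[0,-1,1],[0,0,0,-1,0,0,0,0,-1],(⟨1,[(24,0),(8,0),(0,0)]⟩,⟨0,
  [(25,0)]⟩),(⟨0,[(11,0)]⟩,⟨0,[(33,0),(3,0)]⟩),⟨3,[(11,0),(1,0),(10,1),(11,0)]⟩,.k,.k,(.r (-1) ⟨5,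
  [(9,1),(12,2),(18,0),(2,1)]⟩ ⟨16,[(2,4),(5,5),(1,4),(3,3),(1,2),(0,2),(5,5)]⟩),(.r 0 ⟨3,[(5,0),(2,
  0),(5,1),(1,1),(0,0),(4,1)]⟩ ⟨13,[(1,3),(0,7),(6,3),(10,1),(2,4),(4,1),(12,0)]⟩),.k,.k,⟨true,0,⟨0,
  [(1,0),(3,0),(8,0),(1,0)]⟩,⟨0,[(2,0),(41,0)]⟩⟩,⟨false,0,⟨1,[(21,0),(2,0)]⟩,⟨3,[(15,1),(9,3),(9,0),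
  (5,2)]⟩⟩,⟨true,0,⟨0,[(40,0)]⟩,⟨0,[(39,0)]⟩⟩,⟨false,0,⟨5,[(0,0),(1,5),(1,0),(3,1),(0,1),(11,1),(2,
  2)]⟩,⟨1,[(7,1),(14,0),(2,1),(12,1),(2,0)]⟩⟩,⟨false,1,⟨3,[(22,0),(0,0),(18,1)]⟩,⟨0,[]⟩⟩,⟨false,0,
  ⟨1,[(2,1),(18,0),(2,0)]⟩,⟨3,[(14,3),(0,1),(6,1),(2,3),(9,0),(5,0)]⟩⟩,[.o ⟨false,0,⟨1,[(4,0),(23,
  0),(15,0)]⟩,⟨0,[(7,0),(34,0)]⟩⟩,.a ⟨true,0,⟨1,[(0,0),(3,0),(28,0),(0,0)]⟩,⟨0,[(16,0)]⟩⟩ ⟨false,1,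
  ⟨0,[(1,0),(12,0)]⟩,⟨3,[(2,3),(4,1),(8,0),(4,1),(7,0),(9,0)]⟩⟩ ⟨true,0,⟨1,[(0,0),(3,0),(19,0)]⟩,
  ⟨13,[(7,9),(0,3),(6,1),(9,13),(9,0),(2,3),(3,2)]⟩⟩,.e ⟨false,1,⟨35,[(5,7),(3,11),(12,18),(0,0),(7,
  7),(10,11)]⟩,⟨3,[(2,3),(4,0),(6,1),(1,1),(0,0),(3,0)]⟩⟩ ⟨false,0,⟨1,[(0,0),(3,0),(19,0)]⟩,⟨0,[(7,
  0),(17,0),(16,0)]⟩⟩,.o ⟨false,0,⟨2,[(5,0),(19,2),(1,0),(7,0)]⟩,⟨7,[(22,0),(0,0),(0,3),(10,1),(5,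
  3)]⟩⟩]⟩) (.R ⟨1,false,false,true,[1,0,0,-1],[0,0,1],[1,0,0,0,0,0,0,0,-1],(⟨1,[(24,0),(8,0),(0,
  0)]⟩,⟨0,[(25,0)]⟩),(⟨0,[(34,0)]⟩,⟨0,[(33,0)]⟩),⟨3,[(11,0),(1,0),(10,1),(11,0)]⟩,.k,.k,(.r (-1) ⟨5,
  [(9,1),(12,2),(18,0),(2,1)]⟩ ⟨16,[(2,4),(5,5),(1,4),(3,3),(1,2),(0,2),(5,5)]⟩),.k,(.r (-1) ⟨9,[(7,
  1),(1,3),(11,1),(0,4),(6,1),(2,5),(8,0)]⟩ ⟨17,[(2,9),(5,3),(1,8),(6,2),(2,1),(2,3),(7,0)]⟩),.k,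
  ⟨false,1,⟨1,[(14,1),(7,0),(18,0)]⟩,⟨0,[(2,0),(41,0)]⟩⟩,⟨true,0,⟨1,[(21,0),(2,0)]⟩,⟨0,[(25,0),(1,
  0)]⟩⟩,⟨true,0,⟨0,[]⟩,⟨0,[(44,0)]⟩⟩,⟨false,0,⟨1,[(2,1),(18,0),(2,0)]⟩,⟨1,[(0,1),(21,0),(2,1),(16,
  0)]⟩⟩,⟨false,1,⟨0,[(39,0),(2,0)]⟩,⟨0,[(40,0)]⟩⟩,⟨false,0,⟨1,[(2,1),(11,1),(2,1),(6,0),(8,0),(0,
  0)]⟩,⟨5,[(9,1),(4,4),(0,0),(6,2),(2,5),(1,2),(1,0),(5,0)]⟩⟩,[.o ⟨false,0,⟨0,[(28,0)]⟩,⟨3,[(0,1),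
  (28,1),(5,0),(6,2)]⟩⟩,.o ⟨false,1,⟨2,[(4,0),(12,1),(4,0),(0,0),(18,0)]⟩,⟨0,[(0,0)]⟩⟩,.a ⟨true,0,
  ⟨0,[(25,0)]⟩,⟨1,[(24,0),(8,0),(0,0)]⟩⟩ ⟨false,1,⟨1,[(22,0),(19,0)]⟩,⟨0,[(2,0),(29,0)]⟩⟩ ⟨true,0,
  ⟨1,[(24,0),(3,1),(4,0),(0,0)]⟩,⟨0,[(0,0),(24,0)]⟩⟩,.o ⟨false,0,⟨2,[(5,0),(19,2),(1,0),(7,0)]⟩,⟨7,
  [(22,0),(0,0),(0,3),(10,1),(5,3)]⟩⟩]⟩))) (.Q [0,0,0,1,0,0,1,1,-1,0,-1,1] (.p false [0,0,1] [0,0,0,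
  1] (⟨0,[(32,0)]⟩,⟨0,[(31,0)]⟩) .k 2 (⟨0,[(23,0)]⟩,⟨1,[(22,0),(8,0),(0,0)]⟩) .k (.x 0 ⟨0,[(16,0),
  (15,0)]⟩ ⟨9,[(1,1),(11,3),(3,3),(2,2),(0,2),(9,3),(1,1)]⟩)) (.Q [0,1,0,0,0,0,0,0,1,1,0,-1] (.p
  false [0,0,0,1] [1] (⟨0,[(24,0)]⟩,⟨1,[(23,0),(8,0),(0,0)]⟩) .k 1 (⟨0,[]⟩,⟨0,[]⟩) .k .k) (.K ⟨2,[1,
  0,0,-1],0,0,(⟨1,[(24,0),(8,0),(0,0)]⟩,⟨0,[(25,0)]⟩),.k,(.x 0 ⟨5,[(5,1),(5,1),(1,1),(8,0),(0,0),(3,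
  1)]⟩ ⟨15,[(3,7),(17,3),(0,2),(0,2),(10,7),(0,1)]⟩),(.r 0 ⟨31,[(1,5),(0,7),(4,1),(0,8),(1,12),(4,
  0),(4,1),(1,8),(1,2)]⟩ ⟨5,[(9,1),(13,2),(17,0),(2,1)]⟩),.k,.k,[⟨1,[(21,0),(2,0)]⟩,⟨0,[(18,0),(6,
  0)]⟩,⟨1,[(21,0),(2,0),(6,1)]⟩,⟨2,[(5,0),(19,2),(1,0),(7,0)]⟩,⟨0,[(0,0)]⟩,⟨0,[(1,0),(24,0),(13,
  0)]⟩]⟩) (.Q [0,0,0,1,0,0,0,0,0,0,0,1] (.p true [0,0,0,1] [] (⟨0,[(25,0)]⟩,⟨1,[(24,0),(8,0),(0,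
  0)]⟩) .k 0 (⟨0,[]⟩,⟨0,[]⟩) .k .k) (.R ⟨1,false,false,false,[1,0,0,-1],[1,-1],[1,0,0,0,0,0,0,0,-1],
  (⟨1,[(25,0),(8,0),(0,0)]⟩,⟨0,[(26,0)]⟩),(⟨0,[(37,0)]⟩,⟨0,[(38,0)]⟩),⟨3,[(12,0),(1,0),(10,1),(11,
  0)]⟩,.k,.k,(.x 0 ⟨5,[(6,1),(5,1),(1,1),(8,0),(0,0),(3,1)]⟩ ⟨15,[(4,7),(17,3),(0,2),(0,2),(10,7),
  (0,1)]⟩),(.r 0 ⟨39,[(1,4),(0,6),(5,0),(0,13),(1,11),(5,3),(3,1),(1,13),(1,5)]⟩ ⟨5,[(10,1),(13,2),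
  (17,0),(2,1)]⟩),.k,.k,⟨false,0,⟨9,[(1,2),(0,4),(0,1),(4,0),(8,1),(3,1),(3,3)]⟩,⟨5,[(10,1),(13,2),
  (17,0),(2,1)]⟩⟩,⟨true,0,⟨1,[(25,0),(2,0),(2,0)]⟩,⟨0,[(26,0)]⟩⟩,⟨true,0,⟨0,[]⟩,⟨0,[(45,0)]⟩⟩,
  ⟨false,1,⟨5,[(6,0),(3,1),(13,2),(0,2),(2,0),(7,0),(2,0),(3,0)]⟩,⟨2,[(0,0),(0,0),(0,0),(0,0),(17,
  0),(12,0),(0,0)]⟩⟩,⟨false,1,⟨0,[(40,0),(2,0)]⟩,⟨0,[(41,0)]⟩⟩,⟨false,1,⟨3,[(24,1),(0,1),(10,0),(2,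
  1),(2,0)]⟩,⟨4,[(1,2),(0,1),(2,0),(24,2),(3,2),(0,2)]⟩⟩,[.a ⟨true,0,⟨0,[(41,0)]⟩,⟨1,[(0,1),(24,0),
  (8,0),(0,0)]⟩⟩ ⟨true,0,⟨6,[(1,2),(0,0),(0,2),(1,1),(15,2),(3,1),(8,0),(0,0)]⟩,⟨0,[(7,0)]⟩⟩ ⟨false,
  1,⟨23,[(10,7),(12,2),(0,2),(0,11),(10,5),(5,3),(2,7)]⟩,⟨0,[(0,0)]⟩⟩,.o ⟨false,1,⟨2,[(10,0),(17,0),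
  (2,0),(4,0),(6,0)]⟩,⟨0,[(40,0)]⟩⟩,.e ⟨false,0,⟨1,[(1,1),(23,0),(8,0),(0,0)]⟩,⟨3,[(23,0),(0,2)]⟩⟩
  ⟨false,1,⟨23,[(10,7),(12,2),(0,2),(0,11),(2,7),(2,7),(4,1),(6,7)]⟩,⟨0,[(0,0)]⟩⟩,.o ⟨false,0,⟨2,
  [(6,0),(19,2),(1,0),(7,0)]⟩,⟨7,[(23,0),(0,0),(0,3),(10,1),(5,3)]⟩⟩]⟩) (.R ⟨1,false,false,false,[1,
  0,0,-1],[1,-1],[1,0,0,0,0,0,0,0,-1],(⟨1,[(25,0),(8,0),(0,0)]⟩,⟨0,[(26,0)]⟩),(⟨0,[(37,0)]⟩,⟨0,[(38,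
  0)]⟩),⟨3,[(12,0),(1,0),(10,1),(11,0)]⟩,.k,.k,(.x 0 ⟨5,[(6,1),(5,1),(1,1),(8,0),(0,0),(3,1)]⟩ ⟨15,
  [(4,7),(17,3),(0,2),(0,2),(10,7),(0,1)]⟩),(.r 0 ⟨39,[(1,4),(0,6),(5,0),(0,13),(1,11),(5,3),(3,1),
  (1,13),(1,5)]⟩ ⟨5,[(10,1),(13,2),(17,0),(2,1)]⟩),.k,.k,⟨false,0,⟨9,[(1,2),(0,4),(0,1),(4,0),(8,1),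
  (3,1),(3,3)]⟩,⟨5,[(10,1),(13,2),(17,0),(2,1)]⟩⟩,⟨true,0,⟨1,[(25,0),(2,0),(2,0)]⟩,⟨0,[(26,0)]⟩⟩,
  ⟨true,0,⟨0,[]⟩,⟨0,[(45,0)]⟩⟩,⟨false,1,⟨1,[(0,1),(23,0),(18,0)]⟩,⟨3,[(1,0),(0,1),(0,0),(13,0),(3,
  0),(4,0),(7,0),(0,0)]⟩⟩,⟨false,1,⟨0,[(40,0),(2,0)]⟩,⟨0,[(41,0)]⟩⟩,⟨false,1,⟨3,[(24,1),(0,1),(10,
  0),(2,1),(2,0)]⟩,⟨4,[(1,2),(0,1),(2,0),(24,2),(3,2),(0,2)]⟩⟩,[.e ⟨true,0,⟨6,[(1,2),(0,0),(0,2),(1,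
  1),(15,2),(3,1),(8,0),(0,0)]⟩,⟨0,[(7,0)]⟩⟩ ⟨true,0,⟨0,[(0,0)]⟩,⟨23,[(2,3),(6,7),(1,7),(5,3),(5,2),
  (0,4),(1,19)]⟩⟩,.o ⟨false,1,⟨2,[(10,0),(17,0),(2,0),(4,0),(6,0)]⟩,⟨0,[(40,0)]⟩⟩,.a ⟨true,0,⟨0,
  [(26,0)]⟩,⟨1,[(25,0),(8,0),(0,0)]⟩⟩ ⟨false,0,⟨1,[(1,1),(23,0),(8,0),(0,0)]⟩,⟨3,[(23,0),(0,2)]⟩⟩
  ⟨true,0,⟨0,[(0,0)]⟩,⟨0,[(26,0),(13,0)]⟩⟩,.o ⟨false,0,⟨2,[(6,0),(19,2),(1,0),(7,0)]⟩,⟨7,[(23,0),(0,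
  0),(0,3),(10,1),(5,3)]⟩⟩]⟩))) (.Q [0,1,0,0,0,0,0,0,-1,0,0,1] (.p true [0,0,0,1] [] (⟨0,[(24,0)]⟩,
  ⟨1,[(23,0),(8,0),(0,0)]⟩) .k 0 (⟨0,[]⟩,⟨0,[]⟩) .k .k) (.K ⟨2,[0,0,0,1],0,0,(⟨0,[(25,0)]⟩,⟨1,[(24,
  0),(8,0),(0,0)]⟩),.k,(.r (-1) ⟨5,[(9,1),(13,2),(17,0),(2,1)]⟩ ⟨7,[(2,3),(2,0),(2,0),(1,3),(6,0),
  (2,1),(1,1)]⟩),(.r 0 ⟨6,[(1,2),(3,1),(4,2),(3,0),(1,2),(0,3),(5,1),(1,2)]⟩ ⟨5,[(9,1),(12,2),(18,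
  0),(2,1)]⟩),.k,.k,[⟨0,[(18,0),(6,0)]⟩,⟨1,[(21,0),(2,0)]⟩,⟨5,[(5,1),(16,0),(0,0),(1,5),(5,1)]⟩,⟨1,
  [(24,0),(2,0),(2,0)]⟩,⟨0,[(0,0)]⟩,⟨0,[(1,0),(15,0)]⟩]⟩) (.R ⟨1,false,false,true,[1,0,0,-1],[0,0,0,
  1],[0,1,0,-1,0,0,0,0,-1],(⟨1,[(24,0),(8,0),(0,0)]⟩,⟨0,[(25,0)]⟩),(⟨0,[(25,0)]⟩,⟨1,[(24,0),(8,0),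
  (0,0)]⟩),⟨3,[(11,0),(1,0),(10,1),(11,0)]⟩,.k,.k,(.r (-1) ⟨5,[(9,1),(12,2),(18,0),(2,1)]⟩ ⟨16,[(0,
  4),(7,5),(1,4),(5,1),(0,2),(2,0),(2,5),(1,4)]⟩),.k,(.r (-1) ⟨7,[(2,13),(1,2),(4,6),(0,5),(6,4),(2,
  7),(1,0)]⟩ ⟨2,[(0,2),(5,0),(1,0),(8,0),(2,0),(2,0),(1,2)]⟩),.k,⟨false,1,⟨7,[(2,13),(1,2),(4,6),(0,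
  5),(6,4),(2,7),(1,0)]⟩,⟨1,[(0,2),(0,0),(15,0),(7,3),(13,1)]⟩⟩,⟨true,0,⟨0,[(24,0)]⟩,⟨2,[(5,0),(19,
  5),(1,0),(7,0)]⟩⟩,⟨false,0,⟨0,[(40,0)]⟩,⟨0,[(39,0),(2,0)]⟩⟩,⟨false,0,⟨0,[(0,0),(0,0),(15,0),(15,
  0),(0,0)]⟩,⟨7,[(2,15),(1,0),(2,3),(1,6),(0,11),(4,1),(1,6),(7,15),(9,0)]⟩⟩,⟨true,0,⟨0,[(44,0)]⟩,
  ⟨0,[]⟩⟩,⟨false,0,⟨1,[(0,2),(0,0),(15,0),(2,1),(0,0),(11,0),(0,0)]⟩,⟨3,[(2,7),(1,0),(4,2),(0,3),(4,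
  1),(1,2),(7,7),(9,0)]⟩⟩,[.o ⟨false,0,⟨0,[(1,0),(15,0)]⟩,⟨7,[(2,5),(6,1),(0,5),(11,0),(2,7),(9,3),
  (5,0)]⟩⟩,.o ⟨false,0,⟨1,[(0,0),(0,0),(15,0)]⟩,⟨1,[(22,0),(2,1),(9,0)]⟩⟩,.a ⟨true,0,⟨0,[(25,0)]⟩,
  ⟨1,[(24,0),(8,0),(0,0)]⟩⟩ ⟨true,0,⟨0,[(2,0),(1,0),(15,0)]⟩,⟨0,[(0,0),(24,0),(13,0)]⟩⟩ ⟨false,0,⟨1,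
  [(0,0),(0,0),(15,0),(6,0),(8,0),(0,0)]⟩,⟨7,[(2,5),(6,1),(0,5),(11,0),(2,15),(9,3),(5,0)]⟩⟩,.o
  ⟨false,0,⟨2,[(5,0),(19,2),(1,0),(7,0)]⟩,⟨7,[(22,0),(0,0),(0,3),(10,1),(5,3)]⟩⟩]⟩))))) (.I [0,1,0,
  -1,0,0,0,1] (.Q [0,0,0,1,0,0,0,0,0,1] (.pp false [-1,1]) (.R ⟨1,false,false,false,[0,0,1],[0,1],
  [1],(⟨0,[(32,0)]⟩,⟨0,[(31,0)]⟩),(⟨0,[(35,0)]⟩,⟨0,[(34,0)]⟩),⟨0,[(9,0)]⟩,.k,.k,.k,.k,(.r (-2) ⟨15,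
  [(1,11),(5,7),(0,3),(11,6),(0,6),(17,9)]⟩ ⟨0,[(2,0),(0,0)]⟩),.k,⟨false,1,⟨2,[(7,0),(31,1),(2,0)]⟩,
  ⟨13,[(2,1),(3,3),(1,4),(6,0),(4,1),(0,1),(6,0)]⟩⟩,⟨true,1,⟨11,[(7,3),(10,11),(1,0),(0,0),(17,1),
  (0,3)]⟩,⟨0,[(3,0)]⟩⟩,⟨false,0,⟨0,[(12,0)]⟩,⟨7,[(1,3),(6,3),(11,2),(0,2),(17,1)]⟩⟩,⟨true,0,⟨0,[(14,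
  0)]⟩,⟨3,[(1,0),(1,0),(3,0),(18,2),(15,0)]⟩⟩,⟨true,0,⟨2,[(2,0),(2,0),(6,0),(6,0)]⟩,⟨0,[(1,0)]⟩⟩,
  ⟨true,0,⟨0,[(2,0)]⟩,⟨1,[(1,0),(1,0),(3,0),(18,0),(15,0)]⟩⟩,[.a ⟨true,0,⟨0,[(0,0)]⟩,⟨0,[(38,0)]⟩⟩
  ⟨true,0,⟨0,[]⟩,⟨5,[(3,1),(16,0),(0,0),(7,1)]⟩⟩ ⟨false,1,⟨1,[(18,1),(20,0),(0,0)]⟩,⟨5,[(3,1),(3,1),
  (8,1),(2,0),(4,0),(1,0)]⟩⟩,.e ⟨false,1,⟨1,[(39,0),(0,0)]⟩,⟨0,[(42,0)]⟩⟩ ⟨false,1,⟨7,[(0,1),(1,3),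
  (4,1),(0,3),(4,1),(25,4),(0,0)]⟩,⟨2,[(3,0),(3,0),(11,0),(4,0),(1,0),(15,1)]⟩⟩,.o ⟨false,0,⟨0,[(16,
  0)]⟩,⟨3,[(13,1),(6,0),(0,0),(11,0),(5,0)]⟩⟩,.o ⟨false,0,⟨0,[(28,0)]⟩,⟨3,[(13,1),(19,0),(5,
  2)]⟩⟩]⟩) (.Q [0,0,0,1,0,0,1,1,1,1,-1,-1] (.p false [0,0,1] [1,0,0,-1] (⟨0,[(32,0)]⟩,⟨0,[(31,0)]⟩)
  .k 2 (⟨1,[(22,0),(8,0),(0,0)]⟩,⟨0,[(23,0)]⟩) .k (.x 0 ⟨0,[(16,0),(15,0)]⟩ ⟨3,[(13,1),(6,0),(0,0),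
  (9,3),(1,0),(5,0)]⟩)) (.R ⟨1,false,false,true,[1,0,0,-1],[0,0,1],[1,0,0,0,0,0,0,0,-1],(⟨1,[(23,0),
  (8,0),(0,0)]⟩,⟨0,[(24,0)]⟩),(⟨0,[(33,0)]⟩,⟨0,[(32,0)]⟩),⟨3,[(10,0),(1,0),(10,1),(11,0)]⟩,.k,.k,
  (.r (-1) ⟨5,[(8,1),(12,2),(18,0),(2,1)]⟩ ⟨4,[(0,0),(2,0),(0,0),(0,1),(0,0),(2,0),(12,0),(1,0)]⟩),
  .k,(.r (-1) ⟨9,[(6,1),(1,3),(11,1),(0,4),(6,1),(2,5),(8,0)]⟩ ⟨10,[(0,6),(0,1),(3,3),(0,0),(2,2),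
  (4,3),(1,1),(7,6)]⟩),.k,⟨false,1,⟨1,[(13,1),(7,0),(18,0)]⟩,⟨0,[(0,0),(0,0),(17,0),(4,0),(14,0)]⟩⟩,
  ⟨true,0,⟨1,[(20,0),(2,0)]⟩,⟨0,[(24,0),(1,0)]⟩⟩,⟨true,0,⟨0,[]⟩,⟨0,[(43,0)]⟩⟩,⟨false,0,⟨0,[(0,0),
  (38,0)]⟩,⟨29,[(1,1),(1,9),(4,5),(4,19),(0,9),(6,14),(2,29),(9,8),(2,1)]⟩⟩,⟨false,1,⟨5,[(3,1),(12,
  1),(4,0),(0,0),(18,3)]⟩,⟨0,[(39,0)]⟩⟩,⟨false,0,⟨0,[(0,0)]⟩,⟨5,[(8,1),(4,4),(0,0),(6,2),(2,5),(1,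
  2),(1,0),(5,0)]⟩⟩,[.o ⟨false,0,⟨0,[(27,0)]⟩,⟨23,[(6,5),(1,1),(4,7),(0,3),(13,9),(5,6),(6,14)]⟩⟩,
  .o ⟨false,1,⟨3,[(21,0),(0,0),(4,3),(13,1)]⟩,⟨0,[(1,0),(13,0)]⟩⟩,.a ⟨true,0,⟨0,[(24,0)]⟩,⟨1,[(23,
  0),(8,0),(0,0)]⟩⟩ ⟨false,1,⟨1,[(21,0),(19,0)]⟩,⟨0,[(0,0),(0,0),(13,0),(8,0),(14,0)]⟩⟩ ⟨true,0,⟨3,
  [(2,1),(13,1),(3,0),(2,1),(8,0),(0,0)]⟩,⟨0,[(1,0),(13,0),(8,0)]⟩⟩,.o ⟨false,0,⟨2,[(4,0),(19,2),(1,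
  0),(7,0)]⟩,⟨7,[(21,0),(0,0),(0,3),(10,1),(5,3)]⟩⟩]⟩) (.Q [0,-1,0,-1,0,0,0,0,-1,-1,0,1] (.p true
  [0,0,0,1] [1] (⟨0,[(24,0)]⟩,⟨1,[(23,0),(8,0),(0,0)]⟩) .k 1 (⟨0,[]⟩,⟨0,[]⟩) .k .k) (.R ⟨1,false,
  false,false,[1,0,0,-1],[1,-1],[0,0,0,-1,0,0,0,0,-1],(⟨1,[(24,0),(8,0),(0,0)]⟩,⟨0,[(25,0)]⟩),(⟨0,
  [(36,0)]⟩,⟨0,[(37,0)]⟩),⟨3,[(11,0),(1,0),(10,1),(11,0)]⟩,.k,.k,(.x 0 ⟨5,[(5,1),(5,1),(1,1),(8,0),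
  (0,0),(3,1)]⟩ ⟨3,[(22,0),(0,0),(13,3),(3,1)]⟩),(.r 0 ⟨21,[(0,3),(3,6),(0,8),(4,3),(6,2),(2,4),(1,
  8),(1,1),(8,1),(0,1)]⟩ ⟨5,[(9,1),(13,2),(17,0),(2,1)]⟩),.k,.k,⟨false,0,⟨1,[(0,1),(19,1),(0,0),(2,
  0)]⟩,⟨1,[(23,0),(17,0)]⟩⟩,⟨true,0,⟨1,[(24,0),(2,0),(2,0)]⟩,⟨0,[(25,0)]⟩⟩,⟨true,0,⟨0,[(40,0)]⟩,⟨0,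
  [(39,0)]⟩⟩,⟨false,1,⟨5,[(5,0),(3,1),(13,2),(0,2),(2,0),(7,0),(2,0),(3,0)]⟩,⟨3,[(0,3),(3,1),(12,1),
  (2,1),(0,0),(11,2),(0,2)]⟩⟩,⟨false,1,⟨3,[(22,0),(0,0),(18,1)]⟩,⟨0,[]⟩⟩,⟨false,1,⟨3,[(23,1),(0,1),
  (10,0),(2,1),(2,0)]⟩,⟨1,[(0,1),(19,1),(0,0),(11,0),(0,0)]⟩⟩,[.o ⟨false,0,⟨0,[(2,0)]⟩,⟨11,[(4,3),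
  (12,3),(4,4),(0,4),(18,1)]⟩⟩,.o ⟨false,1,⟨2,[(9,0),(17,0),(2,0),(4,0),(6,0)]⟩,⟨0,[(39,0)]⟩⟩,.a
  ⟨true,0,⟨0,[(25,0)]⟩,⟨1,[(24,0),(8,0),(0,0)]⟩⟩ ⟨false,0,⟨1,[(0,1),(23,0),(8,0),(0,0)]⟩,⟨5,[(4,1),
  (12,1),(4,0),(0,3),(18,0)]⟩⟩ ⟨true,0,⟨1,[(2,0),(21,0),(15,0)]⟩,⟨0,[(25,0),(13,0)]⟩⟩,.o ⟨false,0,
  ⟨2,[(5,0),(19,2),(1,0),(7,0)]⟩,⟨7,[(22,0),(0,0),(0,3),(10,1),(5,3)]⟩⟩]⟩) (.K ⟨2,[0,0,0,1],0,0,(⟨0,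
  [(25,0)]⟩,⟨1,[(24,0),(8,0),(0,0)]⟩),.k,(.r (-1) ⟨5,[(9,1),(13,2),(17,0),(2,1)]⟩ ⟨5,[(1,1),(2,1),
  (0,1),(4,1),(6,1),(4,1),(1,0),(8,0),(0,0)]⟩),(.r 0 ⟨2,[(0,0),(1,0),(1,0),(0,0),(4,0),(12,0),(1,
  0)]⟩ ⟨5,[(9,1),(12,2),(18,0),(2,1)]⟩),.k,.k,[⟨0,[(18,0),(6,0)]⟩,⟨1,[(21,0),(2,0)]⟩,⟨5,[(5,1),(16,
  0),(0,0),(1,5),(5,1)]⟩,⟨1,[(24,0),(2,0),(2,0)]⟩,⟨0,[(1,0),(15,0),(15,0),(0,0)]⟩,⟨0,[(0,0),(1,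
  0)]⟩]⟩)))) (.I [1,0,0,0,0,0,0,0,-1] (.Q [0,1,0,0,0,0,0,0,1,1,0,-1] (.p false [0,0,0,1] [1] (⟨0,
  [(23,0)]⟩,⟨1,[(22,0),(8,0),(0,0)]⟩) .k 1 (⟨0,[]⟩,⟨0,[]⟩) .k .k) (.Q [0,1,0,0,0,0,0,0,-1,-1,0,1]
  (.p true [0,0,0,1] [1] (⟨0,[(24,0)]⟩,⟨1,[(23,0),(8,0),(0,0)]⟩) .k 1 (⟨0,[]⟩,⟨0,[]⟩) .k .k) (.K ⟨2,
  [1,0,0,-1],0,0,(⟨1,[(24,0),(8,0),(0,0)]⟩,⟨0,[(25,0)]⟩),.k,(.x 0 ⟨5,[(5,1),(5,1),(1,1),(8,0),(0,0),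
  (3,1)]⟩ ⟨3,[(22,0),(0,0),(13,3),(3,1)]⟩),(.r 0 ⟨11,[(2,3),(1,1),(0,0),(2,2),(1,3),(6,0),(4,3)]⟩
  ⟨5,[(9,1),(13,2),(17,0),(2,1)]⟩),.k,.k,[⟨1,[(21,0),(2,0)]⟩,⟨0,[(18,0),(6,0)]⟩,⟨1,[(21,0),(2,0),(6,
  1)]⟩,⟨2,[(5,0),(19,2),(1,0),(7,0)]⟩,⟨0,[(1,0)]⟩,⟨0,[(0,0)]⟩]⟩) (.K ⟨1,[0,0,0,1],0,0,(⟨0,[(25,0)]⟩,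
  ⟨1,[(24,0),(8,0),(0,0)]⟩),.k,(.r (-1) ⟨5,[(9,1),(13,2),(17,0),(2,1)]⟩ ⟨11,[(2,3),(1,1),(0,0),(2,
  2),(1,3),(6,0),(4,3)]⟩),(.r 0 ⟨4,[(0,0),(3,0),(0,0),(0,1),(0,0),(2,0),(6,0),(5,0),(1,0)]⟩ ⟨5,[(9,
  1),(12,2),(18,0),(2,1)]⟩),.k,.k,[⟨5,[(5,1),(16,0),(0,0),(1,5),(5,1)]⟩,⟨1,[(24,0),(2,0),(2,0)]⟩,⟨0,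
  [(2,0),(22,0),(18,0)]⟩,⟨0,[(0,0)]⟩]⟩)) (.Q [0,0,0,1,0,0,0,0,0,0,0,1] (.p true [0,0,0,1] [] (⟨0,
  [(24,0)]⟩,⟨1,[(23,0),(8,0),(0,0)]⟩) .k 0 (⟨0,[]⟩,⟨0,[]⟩) .k .k) (.R ⟨1,false,false,false,[1,0,0,
  -1],[1,-1],[1,0,0,0,0,0,0,0,-1],(⟨1,[(24,0),(8,0),(0,0)]⟩,⟨0,[(25,0)]⟩),(⟨0,[(36,0)]⟩,⟨0,[(37,
  0)]⟩),⟨3,[(11,0),(1,0),(10,1),(11,0)]⟩,.k,.k,(.x 0 ⟨5,[(5,1),(5,1),(1,1),(8,0),(0,0),(3,1)]⟩ ⟨3,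
  [(22,0),(0,0),(13,3),(3,1)]⟩),(.r 0 ⟨11,[(2,3),(1,1),(0,0),(2,2),(1,3),(6,0),(4,3)]⟩ ⟨5,[(9,1),
  (13,2),(17,0),(2,1)]⟩),.k,.k,⟨false,0,⟨3,[(0,0),(0,0),(0,2),(1,0),(12,0),(6,0)]⟩,⟨5,[(9,1),(13,2),
  (17,0),(2,1)]⟩⟩,⟨true,0,⟨1,[(24,0),(2,0),(2,0)]⟩,⟨0,[(25,0)]⟩⟩,⟨true,0,⟨0,[]⟩,⟨0,[(44,0)]⟩⟩,
  ⟨false,1,⟨5,[(5,0),(3,1),(13,2),(0,2),(2,0),(7,0),(2,0),(3,0)]⟩,⟨0,[(0,0),(1,0)]⟩⟩,⟨false,1,⟨5,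
  [(4,1),(12,1),(4,0),(0,0),(18,3)]⟩,⟨0,[(40,0)]⟩⟩,⟨false,1,⟨3,[(23,1),(0,1),(10,0),(2,1),(2,0)]⟩,
  ⟨0,[(2,0),(22,0)]⟩⟩,[.a ⟨true,0,⟨0,[(40,0)]⟩,⟨1,[(0,1),(23,0),(8,0),(0,0)]⟩⟩ ⟨true,0,⟨0,[(2,0)]⟩,
  ⟨0,[(6,0)]⟩⟩ ⟨false,1,⟨23,[(9,7),(12,2),(0,2),(0,11),(10,5),(5,3),(2,7)]⟩,⟨0,[(0,0)]⟩⟩,.o ⟨false,
  1,⟨2,[(9,0),(17,0),(2,0),(4,0),(6,0)]⟩,⟨0,[(39,0)]⟩⟩,.e ⟨false,0,⟨1,[(1,1),(22,0),(8,0),(0,0)]⟩,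
  ⟨3,[(22,0),(0,2)]⟩⟩ ⟨false,1,⟨23,[(9,7),(12,2),(0,2),(0,11),(2,7),(2,7),(4,1),(6,7)]⟩,⟨0,[(0,
  0)]⟩⟩,.o ⟨false,0,⟨2,[(5,0),(19,2),(1,0),(7,0)]⟩,⟨7,[(22,0),(0,0),(0,3),(10,1),(5,3)]⟩⟩]⟩) (.R ⟨1,
  false,false,false,[1,0,0,-1],[1,-1],[1,0,0,0,0,0,0,0,-1],(⟨1,[(24,0),(8,0),(0,0)]⟩,⟨0,[(25,0)]⟩),
  (⟨0,[(36,0)]⟩,⟨0,[(37,0)]⟩),⟨3,[(11,0),(1,0),(10,1),(11,0)]⟩,.k,.k,(.x 0 ⟨5,[(5,1),(5,1),(1,1),(8,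
  0),(0,0),(3,1)]⟩ ⟨3,[(22,0),(0,0),(13,3),(3,1)]⟩),(.r 0 ⟨11,[(2,3),(1,1),(0,0),(2,2),(1,3),(6,0),
  (4,3)]⟩ ⟨5,[(9,1),(13,2),(17,0),(2,1)]⟩),.k,.k,⟨false,0,⟨5,[(1,1),(0,3),(1,1),(12,1),(6,0),(8,0),
  (0,0)]⟩,⟨5,[(9,1),(13,2),(17,0),(2,1)]⟩⟩,⟨true,0,⟨1,[(24,0),(2,0),(2,0)]⟩,⟨0,[(25,0)]⟩⟩,⟨true,0,
  ⟨0,[]⟩,⟨0,[(44,0)]⟩⟩,⟨false,1,⟨1,[(0,1),(22,0),(18,0)]⟩,⟨2,[(1,0),(0,1),(1,0),(12,0),(7,1),(7,0),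
  (0,0)]⟩⟩,⟨false,1,⟨5,[(4,1),(12,1),(4,0),(0,0),(18,3)]⟩,⟨0,[(40,0)]⟩⟩,⟨false,1,⟨3,[(23,1),(0,1),
  (10,0),(2,1),(2,0)]⟩,⟨0,[(2,0),(22,0)]⟩⟩,[.e ⟨true,0,⟨0,[(2,0)]⟩,⟨0,[(6,0)]⟩⟩ ⟨true,0,⟨0,[(0,0)]⟩,
  ⟨13,[(4,1),(3,3),(1,4),(6,0),(4,1),(0,1),(1,13),(4,0)]⟩⟩,.o ⟨false,1,⟨2,[(9,0),(17,0),(2,0),(4,0),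
  (6,0)]⟩,⟨0,[(39,0)]⟩⟩,.a ⟨true,0,⟨0,[(25,0)]⟩,⟨1,[(24,0),(8,0),(0,0)]⟩⟩ ⟨false,0,⟨1,[(1,1),(22,0),
  (8,0),(0,0)]⟩,⟨3,[(22,0),(0,2)]⟩⟩ ⟨true,0,⟨0,[(0,0)]⟩,⟨0,[(25,0),(13,0)]⟩⟩,.o ⟨false,0,⟨2,[(5,0),
  (19,2),(1,0),(7,0)]⟩,⟨7,[(22,0),(0,0),(0,3),(10,1),(5,3)]⟩⟩]⟩))) (.Q [0,1,0,0,0,0,0,0,-1,0,0,1]
  (.p true [0,0,0,1] [] (⟨0,[(23,0)]⟩,⟨1,[(22,0),(8,0),(0,0)]⟩) .k 0 (⟨0,[]⟩,⟨0,[]⟩) .k .k) (.K ⟨2,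
  [0,0,0,1],0,0,(⟨0,[(24,0)]⟩,⟨1,[(23,0),(8,0),(0,0)]⟩),.k,(.r (-1) ⟨5,[(8,1),(13,2),(17,0),(2,1)]⟩
  ⟨3,[(0,1),(1,0),(1,0),(1,0),(2,1),(11,0),(1,0)]⟩),(.r 0 ⟨11,[(1,3),(1,1),(0,0),(2,2),(1,3),(6,0),
  (5,3)]⟩ ⟨5,[(8,1),(12,2),(18,0),(2,1)]⟩),.k,.k,[⟨0,[(17,0),(6,0)]⟩,⟨1,[(20,0),(2,0)]⟩,⟨5,[(4,1),
  (16,0),(0,0),(1,5),(5,1)]⟩,⟨1,[(23,0),(2,0),(2,0)]⟩,⟨0,[(0,0)]⟩,⟨1,[(1,1),(21,0),(1,0),(1,0)]⟩]⟩)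
  (.Q [0,0,0,0,0,0,1,1,0,1,-1] (.p false [0,0,1] [1] (⟨0,[(33,0)]⟩,⟨0,[(32,0)]⟩) .k 1 (⟨0,[]⟩,⟨0,
  []⟩) .k .k) (.I [0,0,-1,-1,0,0,0,-2] (.I [0,0,-1,-1,0,0,0,-1,1] (.I [0,0,2,2,-1,0,0,0,1] (.R ⟨1,
  false,false,true,[1,0,0,-1],[0,1],[1,1,0,0,0,0,0,0,-1],(⟨1,[(27,0),(8,0),(0,0)]⟩,⟨0,[(28,0)]⟩),
  (⟨0,[(40,0)]⟩,⟨0,[(39,0)]⟩),⟨3,[(14,0),(1,0),(10,1),(11,0)]⟩,.k,.k,(.r (-1) ⟨5,[(12,1),(12,2),(18,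
  0),(2,1)]⟩ ⟨7,[(0,3),(24,0),(0,2)]⟩),(.r (-1) ⟨5,[(12,1),(12,2),(18,0),(2,1)]⟩ ⟨7,[(0,3),(24,0),
  (0,2)]⟩),(.r (-2) ⟨11,[(12,7),(12,8),(0,2),(17,3),(2,7)]⟩ ⟨0,[(0,0)]⟩),.k,⟨true,1,⟨5,[(12,1),(12,
  2),(18,0),(2,1)]⟩,⟨0,[(0,0),(42,0)]⟩⟩,⟨false,1,⟨9,[(3,4),(3,2),(4,1),(14,4),(4,1),(11,7)]⟩,⟨2,[(8,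
  0),(19,2),(1,0),(7,0)]⟩⟩,⟨false,0,⟨0,[]⟩,⟨3,[(25,0),(0,0),(18,1)]⟩⟩,⟨false,0,⟨1,[(3,0),(1,1),(1,
  0),(19,0)]⟩,⟨9,[(6,1),(1,5),(1,7),(1,9),(0,7),(6,1),(4,4),(2,9),(9,0)]⟩⟩,⟨true,0,⟨0,[(42,0)]⟩,⟨0,
  [(43,0)]⟩⟩,⟨false,0,⟨1,[(0,0),(2,0),(1,0),(1,0),(19,0),(16,0)]⟩,⟨5,[(8,3),(1,2),(1,5),(0,2),(11,
  2),(2,5),(1,0),(7,0)]⟩⟩,[.o ⟨false,0,⟨0,[(42,0)]⟩,⟨2,[(12,0),(17,0),(2,0),(4,0),(6,0)]⟩⟩,.a ⟨true,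
  0,⟨1,[(3,0),(3,0),(28,0),(0,0)]⟩,⟨0,[(43,0)]⟩⟩ ⟨false,1,⟨1,[(25,0),(18,0)]⟩,⟨0,[(5,0)]⟩⟩ ⟨true,0,
  ⟨1,[(3,0),(3,0),(19,0)]⟩,⟨8,[(8,4),(3,2),(15,8),(1,4),(7,1),(8,2)]⟩⟩,.e ⟨false,1,⟨3,[(25,2),(0,
  0)]⟩,⟨0,[(1,0),(11,0)]⟩⟩ ⟨false,0,⟨1,[(3,0),(3,0),(19,0)]⟩,⟨2,[(12,0),(15,2),(1,0),(2,0),(4,0),(6,
  0)]⟩⟩,.o ⟨false,0,⟨2,[(8,0),(19,2),(1,0),(7,0)]⟩,⟨7,[(25,0),(0,0),(0,3),(10,1),(5,3)]⟩⟩]⟩) (.R ⟨1,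
  false,false,true,[1,0,0,-1],[0,1],[1,1,0,0,0,0,0,0,-1],(⟨1,[(27,0),(8,0),(0,0)]⟩,⟨0,[(28,0)]⟩),
  (⟨0,[(40,0)]⟩,⟨0,[(39,0)]⟩),⟨3,[(14,0),(1,0),(10,1),(11,0)]⟩,.k,.k,(.r (-1) ⟨7,[(0,3),(24,2),(0,
  0)]⟩ ⟨11,[(5,3),(1,1),(0,0),(2,2),(1,3),(6,0),(5,3)]⟩),(.r (-1) ⟨7,[(0,3),(24,2),(0,0)]⟩ ⟨11,[(5,
  3),(1,1),(0,0),(2,2),(1,3),(6,0),(5,3)]⟩),(.x 0 ⟨2,[(8,1),(5,1),(1,1),(8,0),(0,0),(3,1)]⟩ ⟨0,[(40,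
  1),(3,0)]⟩),.k,⟨true,1,⟨7,[(0,3),(24,2),(0,0)]⟩,⟨0,[(1,0),(6,0),(4,0),(9,0)]⟩⟩,⟨false,1,⟨9,[(3,4),
  (3,2),(4,1),(14,4),(4,1),(11,7)]⟩,⟨2,[(8,0),(19,2),(1,0),(7,0)]⟩⟩,⟨false,0,⟨0,[]⟩,⟨3,[(25,0),(0,
  0),(18,1)]⟩⟩,⟨false,0,⟨1,[(3,0),(1,1),(1,0),(19,0)]⟩,⟨11,[(0,5),(7,1),(16,2),(2,11),(1,1),(7,4),
  (2,5)]⟩⟩,⟨true,0,⟨0,[(42,0)]⟩,⟨0,[(43,0)]⟩⟩,⟨false,0,⟨7,[(3,4),(0,1),(0,5),(1,6),(12,1),(6,2)]⟩,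
  ⟨23,[(0,5),(7,9),(3,11),(12,8),(2,23),(1,9),(7,6),(2,5)]⟩⟩,[.o ⟨false,0,⟨0,[(42,0)]⟩,⟨2,[(12,0),
  (17,0),(2,0),(4,0),(6,0)]⟩⟩,.a ⟨true,0,⟨1,[(3,0),(3,0),(28,0),(0,0)]⟩,⟨0,[(43,0)]⟩⟩ ⟨false,1,⟨1,
  [(25,0),(18,0)]⟩,⟨0,[(5,0)]⟩⟩ ⟨true,0,⟨1,[(3,0),(3,0),(19,0)]⟩,⟨8,[(8,4),(3,2),(15,8),(1,4),(7,1),
  (8,2)]⟩⟩,.e ⟨false,1,⟨3,[(25,2),(0,0)]⟩,⟨0,[(1,0),(11,0)]⟩⟩ ⟨false,0,⟨1,[(3,0),(3,0),(19,0)]⟩,⟨2,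
  [(12,0),(15,2),(1,0),(2,0),(4,0),(6,0)]⟩⟩,.o ⟨false,0,⟨2,[(8,0),(19,2),(1,0),(7,0)]⟩,⟨7,[(25,0),
  (0,0),(0,3),(10,1),(5,3)]⟩⟩]⟩)) (.R ⟨1,false,false,true,[1,0,0,-1],[0,1],[1,0,0,0,0,0,0,0,-1],(⟨1,
  [(26,0),(8,0),(0,0)]⟩,⟨0,[(27,0)]⟩),(⟨0,[(39,0)]⟩,⟨0,[(38,0)]⟩),⟨3,[(13,0),(1,0),(10,1),(11,0)]⟩,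
  .k,.k,(.r (-1) ⟨5,[(11,1),(12,2),(18,0),(2,1)]⟩ ⟨11,[(4,3),(1,1),(0,0),(2,2),(1,3),(6,0),(5,3)]⟩),
  (.r (-1) ⟨5,[(11,1),(12,2),(18,0),(2,1)]⟩ ⟨11,[(4,3),(1,1),(0,0),(2,2),(1,3),(6,0),(5,3)]⟩),(.x 0
  ⟨2,[(7,1),(5,1),(1,1),(8,0),(0,0),(3,1)]⟩ ⟨0,[(39,1),(3,0)]⟩),.k,⟨true,1,⟨9,[(0,3),(4,3),(5,5),
  (12,2),(18,0)]⟩,⟨0,[(4,0),(2,0),(14,0)]⟩⟩,⟨false,1,⟨9,[(2,4),(3,2),(4,1),(14,4),(4,1),(11,7)]⟩,⟨2,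
  [(7,0),(19,2),(1,0),(7,0)]⟩⟩,⟨true,0,⟨0,[]⟩,⟨0,[(46,0)]⟩⟩,⟨false,0,⟨1,[(2,0),(1,1),(1,0),(19,0)]⟩,
  ⟨41,[(0,23),(0,11),(5,3),(3,17),(12,8),(2,41),(1,3),(7,18),(2,11)]⟩⟩,⟨false,1,⟨5,[(6,1),(12,1),(4,
  0),(0,0),(18,3)]⟩,⟨0,[(42,0)]⟩⟩,⟨false,0,⟨7,[(2,4),(0,1),(0,5),(1,6),(12,1),(6,2)]⟩,⟨41,[(0,11),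
  (0,5),(5,15),(3,29),(12,14),(2,41),(1,15),(7,12),(2,5)]⟩⟩,[.o ⟨false,0,⟨0,[(41,0)]⟩,⟨2,[(11,0),
  (17,0),(2,0),(4,0),(6,0)]⟩⟩,.a ⟨true,0,⟨1,[(2,0),(3,0),(28,0),(0,0)]⟩,⟨0,[(42,0)]⟩⟩ ⟨false,1,⟨4,
  [(0,2),(4,2),(5,1),(12,0),(18,1)]⟩,⟨0,[(4,0),(41,0)]⟩⟩ ⟨true,0,⟨1,[(2,0),(3,0),(19,0)]⟩,⟨8,[(7,4),
  (3,2),(15,8),(1,4),(7,1),(8,2)]⟩⟩,.e ⟨false,1,⟨1,[(24,0),(19,0)]⟩,⟨0,[(4,0)]⟩⟩ ⟨false,0,⟨1,[(2,0),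
  (3,0),(19,0)]⟩,⟨2,[(11,0),(15,2),(1,0),(2,0),(4,0),(6,0)]⟩⟩,.o ⟨false,0,⟨2,[(7,0),(19,2),(1,0),(7,
  0)]⟩,⟨7,[(24,0),(0,0),(0,3),(10,1),(5,3)]⟩⟩]⟩)) (.I [1,-1,0,1,0,0,0,0,1] (.R ⟨1,false,false,true,
  [1,0,0,-1],[0,1],[0,1,0,-1,0,0,0,0,-1],(⟨1,[(26,0),(8,0),(0,0)]⟩,⟨0,[(27,0)]⟩),(⟨0,[(39,0)]⟩,⟨0,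
  [(38,0)]⟩),⟨3,[(13,0),(1,0),(10,1),(11,0)]⟩,.k,.k,(.r (-1) ⟨5,[(11,1),(12,2),(18,0),(2,1)]⟩ ⟨26,
  [(0,6),(0,2),(4,0),(3,9),(1,3),(6,0),(5,9)]⟩),(.r (-1) ⟨5,[(11,1),(12,2),(18,0),(2,1)]⟩ ⟨26,[(0,
  6),(0,2),(4,0),(3,9),(1,3),(6,0),(5,9)]⟩),(.r (-2) ⟨11,[(11,7),(12,8),(0,2),(17,3),(2,7)]⟩ ⟨0,[(0,
  0),(6,0),(14,0)]⟩),.k,⟨true,1,⟨1,[(11,0),(12,0),(17,0),(3,0)]⟩,⟨0,[(0,0),(6,0),(14,0)]⟩⟩,⟨false,1,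
  ⟨9,[(2,4),(3,2),(4,1),(14,4),(4,1),(11,7)]⟩,⟨2,[(7,0),(19,2),(1,0),(7,0)]⟩⟩,⟨false,0,⟨0,[(42,0)]⟩,
  ⟨5,[(6,1),(12,1),(4,0),(0,0),(18,3)]⟩⟩,⟨false,0,⟨1,[(2,0),(1,1),(1,0),(19,0)]⟩,⟨9,[(5,1),(1,5),(1,
  7),(1,9),(0,7),(6,1),(4,4),(2,9),(9,0)]⟩⟩,⟨true,0,⟨0,[(46,0)]⟩,⟨0,[]⟩⟩,⟨false,0,⟨3,[(0,0),(1,1),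
  (1,2),(1,2),(12,0),(6,1)]⟩,⟨5,[(7,3),(1,2),(1,5),(0,2),(11,2),(2,5),(1,0),(7,0)]⟩⟩,[.o ⟨false,0,
  ⟨0,[(41,0)]⟩,⟨2,[(11,0),(17,0),(2,0),(4,0),(6,0)]⟩⟩,.a ⟨true,0,⟨1,[(2,0),(3,0),(28,0),(0,0)]⟩,⟨0,
  [(42,0)]⟩⟩ ⟨false,1,⟨5,[(11,1),(12,2),(18,0),(2,1)]⟩,⟨3,[(0,0),(3,2),(1,0),(12,0)]⟩⟩ ⟨true,0,⟨1,
  [(2,0),(3,0),(19,0)]⟩,⟨8,[(7,4),(3,2),(15,8),(1,4),(7,1),(8,2)]⟩⟩,.e ⟨false,1,⟨35,[(7,7),(3,11),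
  (12,24),(0,6),(7,7),(12,11)]⟩,⟨0,[(0,0)]⟩⟩ ⟨false,0,⟨1,[(2,0),(3,0),(19,0)]⟩,⟨2,[(11,0),(15,2),(1,
  0),(2,0),(4,0),(6,0)]⟩⟩,.o ⟨false,0,⟨2,[(7,0),(19,2),(1,0),(7,0)]⟩,⟨7,[(24,0),(0,0),(0,3),(10,1),
  (5,3)]⟩⟩]⟩) (.R ⟨1,false,false,false,[1,0,0,-1],[0,0,0,1],[1],(⟨1,[(26,0),(8,0),(0,0)]⟩,⟨0,[(27,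
  0)]⟩),(⟨0,[(27,0)]⟩,⟨1,[(26,0),(8,0),(0,0)]⟩),⟨3,[(13,0),(1,0),(10,1),(11,0)]⟩,.k,.k,(.r (-1) ⟨15,
  [(0,3),(10,3),(12,6),(0,0),(17,3)]⟩ ⟨4,[(1,0),(2,0),(1,1),(0,1),(17,1)]⟩),.k,(.r (-1) ⟨7,[(0,13),
  (4,5),(5,1),(0,5),(11,0),(18,4)]⟩ ⟨4,[(1,0),(2,5),(1,1),(0,1),(17,1)]⟩),.k,⟨false,1,⟨1,[(24,0),
  (18,0)]⟩,⟨0,[(4,0)]⟩⟩,⟨true,0,⟨0,[(26,0)]⟩,⟨2,[(7,0),(19,5),(1,0),(7,0)]⟩⟩,⟨false,0,⟨0,[(3,0),(23,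
  0)]⟩,⟨3,[(24,2),(0,0)]⟩⟩,⟨false,0,⟨1,[(3,1),(0,1),(21,0),(8,0),(0,0)]⟩,⟨1,[(0,3),(4,1),(6,1),(14,
  3),(9,0),(5,0)]⟩⟩,⟨true,0,⟨2,[(3,0),(0,1),(1,0),(12,0),(7,0)]⟩,⟨0,[(0,0)]⟩⟩,⟨false,0,⟨1,[(2,0),(0,
  1),(0,1),(1,0),(19,0)]⟩,⟨7,[(0,13),(4,5),(5,1),(0,5),(11,0),(2,15),(9,3),(5,0)]⟩⟩,[.o ⟨false,0,⟨3,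
  [(3,1),(0,1),(21,0),(1,0),(1,0)]⟩,⟨1,[(24,0),(2,1),(9,0)]⟩⟩,.o ⟨false,0,⟨0,[(3,0)]⟩,⟨1,[(24,0),(2,
  1),(9,0),(8,1)]⟩⟩,.a ⟨true,0,⟨0,[(27,0)]⟩,⟨1,[(26,0),(8,0),(0,0)]⟩⟩ ⟨true,0,⟨0,[]⟩,⟨0,[(46,0)]⟩⟩
  ⟨false,0,⟨1,[(3,1),(22,0),(8,0),(0,0)]⟩,⟨1,[(24,0),(2,3),(9,0)]⟩⟩,.o ⟨false,0,⟨2,[(7,0),(19,2),(1,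
  0),(7,0)]⟩,⟨7,[(24,0),(0,0),(0,3),(10,1),(5,3)]⟩⟩]⟩))) (.R ⟨1,false,false,true,[1,0,0,-1],[0,0,1],
  [1,0,0,0,0,0,0,0,-1],(⟨1,[(24,0),(8,0),(0,0)]⟩,⟨0,[(25,0)]⟩),(⟨0,[(34,0)]⟩,⟨0,[(33,0)]⟩),⟨3,[(11,
  0),(1,0),(10,1),(11,0)]⟩,.k,.k,(.r (-1) ⟨5,[(9,1),(12,2),(18,0),(2,1)]⟩ ⟨11,[(2,3),(1,1),(0,0),(2,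
  2),(1,3),(6,0),(5,3)]⟩),.k,(.r (-1) ⟨9,[(7,1),(1,3),(11,1),(0,4),(6,1),(2,5),(8,0)]⟩ ⟨2,[(2,1),(3,
  0),(3,0),(1,0),(4,0),(2,0)]⟩),.k,⟨false,1,⟨1,[(14,1),(7,0),(18,0)]⟩,⟨0,[(1,0),(18,0),(4,0),(2,0),
  (11,0)]⟩⟩,⟨true,0,⟨1,[(21,0),(2,0)]⟩,⟨0,[(25,0),(1,0)]⟩⟩,⟨true,0,⟨0,[]⟩,⟨0,[(44,0)]⟩⟩,⟨false,0,⟨0,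
  [(1,0),(26,0),(4,0),(0,0)]⟩,⟨1,[(0,1),(21,0),(2,1),(16,0)]⟩⟩,⟨false,1,⟨5,[(4,1),(12,1),(4,0),(0,
  0),(18,3)]⟩,⟨0,[(40,0)]⟩⟩,⟨false,0,⟨0,[(1,0),(15,0),(15,0),(0,0)]⟩,⟨5,[(9,1),(4,4),(0,0),(6,2),(2,
  5),(1,2),(1,0),(5,0)]⟩⟩,[.o ⟨false,0,⟨0,[(28,0)]⟩,⟨3,[(0,1),(28,1),(5,0),(6,2)]⟩⟩,.o ⟨false,1,⟨3,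
  [(22,0),(0,0),(4,3),(13,1)]⟩,⟨0,[(0,0)]⟩⟩,.a ⟨true,0,⟨0,[(25,0)]⟩,⟨1,[(24,0),(8,0),(0,0)]⟩⟩
  ⟨false,1,⟨1,[(22,0),(19,0)]⟩,⟨0,[(2,0)]⟩⟩ ⟨true,0,⟨1,[(24,0),(3,1),(4,0),(0,0)]⟩,⟨0,[(0,0),(24,
  0)]⟩⟩,.o ⟨false,0,⟨2,[(5,0),(19,2),(1,0),(7,0)]⟩,⟨7,[(22,0),(0,0),(0,3),(10,1),(5,3)]⟩⟩]⟩))))))
  (.I [0,0,-2,0,1,2,-1] (.Q [0,0,2,0,-1,0,1,0,0,1,-1] (.p false [0,0,1] [1] (⟨0,[(30,0)]⟩,⟨0,[(29,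
  0)]⟩) .k 1 (⟨0,[]⟩,⟨0,[]⟩) .k .k) (.K ⟨0,[1,1,-1],1,0,(⟨1,[(0,0),(0,0),(28,0)]⟩,⟨0,[(8,0)]⟩),.k,
  .k,(.x (-1) ⟨0,[(1,0)]⟩ ⟨17,[(0,1),(7,23),(1,5),(8,0),(0,0),(3,7),(2,23)]⟩),.k,.k,[⟨0,[(0,0)]⟩,⟨0,
  [(2,0)]⟩,⟨5,[(0,3),(0,0),(4,2),(10,2),(7,5),(5,0),(1,1)]⟩,⟨0,[(4,0)]⟩]⟩) (.I [0,-1,0,0,0,0,0,0,
  -1] (.I [1,1,-1,0,0,0,0,0,-1] (.Q [0,0,0,-1,0,0,-1,-1,0,0,1,-1] (.p true [0,0,1] [0,0,0,1] (⟨0,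
  [(33,0)]⟩,⟨0,[(32,0)]⟩) .k 2 (⟨0,[(24,0)]⟩,⟨1,[(23,0),(8,0),(0,0)]⟩) .k (.r 0 ⟨0,[(0,0),(8,0),(29,
  0)]⟩ ⟨3,[(21,0),(0,2),(8,3)]⟩)) (.R ⟨1,false,false,false,[1,0,0,-1],[1,-1,-1],[1,0,0,0,0,0,0,0,
  -1],(⟨1,[(24,0),(8,0),(0,0)]⟩,⟨0,[(25,0)]⟩),(⟨0,[(19,0)]⟩,⟨0,[(34,0),(2,0)]⟩),⟨3,[(11,0),(1,0),
  (10,1),(11,0)]⟩,.k,.k,(.x 0 ⟨2,[(11,0),(1,0),(1,0),(14,1)]⟩ ⟨15,[(4,7),(16,3),(0,2),(0,2),(10,7),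
  (0,1)]⟩),(.r 0 ⟨12,[(1,6),(6,2),(1,5),(1,7),(4,1),(2,1),(1,2)]⟩ ⟨9,[(7,1),(1,3),(11,1),(1,4),(5,
  1),(2,5),(8,0)]⟩),.k,.k,⟨false,0,⟨0,[(1,0),(8,0)]⟩,⟨9,[(7,1),(1,3),(11,1),(1,4),(5,1),(2,5),(8,
  0)]⟩⟩,⟨true,0,⟨3,[(15,1),(8,1),(5,0),(0,0)]⟩,⟨0,[(18,0),(6,0)]⟩⟩,⟨true,0,⟨0,[]⟩,⟨0,[(44,0)]⟩⟩,
  ⟨false,1,⟨1,[(0,1),(22,0),(18,0)]⟩,⟨0,[(2,0),(14,0),(7,0)]⟩⟩,⟨false,1,⟨0,[(39,0),(2,0)]⟩,⟨0,[(40,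
  0)]⟩⟩,⟨false,1,⟨37,[(0,13),(2,1),(3,5),(6,9),(0,3),(0,7),(6,18),(0,11),(17,16)]⟩,⟨0,[(2,0),(22,0),
  (2,0)]⟩⟩,[.e ⟨true,0,⟨7,[(1,2),(0,2),(5,0),(3,0),(9,0),(17,0)]⟩,⟨0,[(6,0)]⟩⟩ ⟨true,0,⟨0,[(0,0)]⟩,
  ⟨1,[(10,0),(6,0),(7,1),(4,0)]⟩⟩,.o ⟨false,1,⟨25,[(8,3),(0,9),(4,7),(12,11),(1,13),(5,6),(6,12)]⟩,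
  ⟨0,[(17,0)]⟩⟩,.a ⟨true,0,⟨0,[(25,0)]⟩,⟨1,[(24,0),(8,0),(0,0)]⟩⟩ ⟨false,0,⟨0,[(2,0)]⟩,⟨3,[(22,0),
  (0,2)]⟩⟩ ⟨true,0,⟨0,[(0,0)]⟩,⟨0,[(17,0),(7,0)]⟩⟩,.o ⟨false,0,⟨0,[(18,0),(6,0),(1,0)]⟩,⟨7,[(22,0),
  (0,0),(0,3),(10,1),(5,3)]⟩⟩]⟩) (.R ⟨1,false,false,false,[1,0,0,-1],[1,-1,-1],[1,0,0,0,0,0,0,0,-1],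
  (⟨1,[(24,0),(8,0),(0,0)]⟩,⟨0,[(25,0)]⟩),(⟨0,[(19,0)]⟩,⟨0,[(34,0),(2,0)]⟩),⟨3,[(11,0),(1,0),(10,1),
  (11,0)]⟩,.k,.k,(.x 0 ⟨2,[(11,0),(1,0),(1,0),(14,1)]⟩ ⟨15,[(4,7),(16,3),(0,2),(0,2),(10,7),(0,
  1)]⟩),(.r 0 ⟨12,[(1,6),(6,2),(1,5),(1,7),(4,1),(2,1),(1,2)]⟩ ⟨9,[(7,1),(1,3),(11,1),(1,4),(5,1),
  (2,5),(8,0)]⟩),.k,.k,⟨false,0,⟨0,[(1,0),(8,0)]⟩,⟨9,[(7,1),(1,3),(11,1),(1,4),(5,1),(2,5),(8,0)]⟩⟩,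
  ⟨true,0,⟨3,[(15,1),(8,1),(5,0),(0,0)]⟩,⟨0,[(18,0),(6,0)]⟩⟩,⟨true,0,⟨0,[]⟩,⟨0,[(44,0)]⟩⟩,⟨false,1,
  ⟨15,[(8,1),(0,5),(4,8),(0,2),(7,7),(0,7),(2,4),(1,4),(12,3)]⟩,⟨8,[(0,7),(0,2),(0,3),(5,0),(3,0),
  (9,0),(2,0),(2,0)]⟩⟩,⟨false,1,⟨0,[(39,0),(2,0)]⟩,⟨0,[(40,0)]⟩⟩,⟨false,1,⟨37,[(3,2),(3,5),(1,1),(4,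
  22),(0,9),(7,18),(0,18),(4,8),(12,13)]⟩,⟨0,[(2,0),(22,0),(2,0)]⟩⟩,[.a ⟨true,0,⟨0,[(16,0),(23,1)]⟩,
  ⟨1,[(0,1),(23,0),(8,0),(0,0)]⟩⟩ ⟨true,0,⟨7,[(1,2),(0,2),(5,0),(3,0),(9,0),(17,0)]⟩,⟨0,[(6,0)]⟩⟩
  ⟨false,1,⟨23,[(5,3),(3,7),(4,3),(7,0),(0,0),(0,11),(4,19),(5,5),(6,3)]⟩,⟨0,[(0,0)]⟩⟩,.o ⟨false,1,
  ⟨25,[(8,3),(0,9),(4,7),(12,11),(1,13),(5,6),(6,12)]⟩,⟨0,[(17,0)]⟩⟩,.e ⟨false,0,⟨0,[(2,0)]⟩,⟨3,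
  [(22,0),(0,2)]⟩⟩ ⟨false,1,⟨51,[(8,13),(0,21),(4,1),(9,25),(2,15),(1,35),(5,4),(6,38)]⟩,⟨0,[(0,
  0)]⟩⟩,.o ⟨false,0,⟨6,[(0,4),(7,3),(0,2),(4,0),(10,1),(1,4),(7,0)]⟩,⟨7,[(22,0),(0,0),(0,3),(10,1),
  (5,3)]⟩⟩]⟩)) (.Q [0,0,0,0,0,0,-1,-1,0,0,1,-1] (.p true [0,0,1] [0,0,0,1] (⟨0,[(33,0)]⟩,⟨0,[(32,
  0)]⟩) .k 2 (⟨0,[(24,0)]⟩,⟨1,[(23,0),(8,0),(0,0)]⟩) .k (.x 0 ⟨0,[(17,0),(15,0)]⟩ ⟨9,[(3,1),(10,3),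
  (3,3),(2,2),(0,2),(9,3),(1,1)]⟩)) (.R ⟨1,false,false,false,[1,0,0,-1],[1,0,-1],[1,1,0,0,0,0,0,0,
  -1],(⟨1,[(24,0),(8,0),(0,0)]⟩,⟨0,[(25,0)]⟩),(⟨0,[(33,0)]⟩,⟨0,[(34,0)]⟩),⟨3,[(11,0),(1,0),(10,1),
  (11,0)]⟩,.k,.k,(.r (-1) ⟨5,[(9,1),(12,2),(18,0),(2,1)]⟩ ⟨6,[(1,4),(6,0),(7,1),(0,2),(2,0),(2,
  0)]⟩),.k,(.r (-1) ⟨5,[(2,1),(2,0),(3,2),(2,1),(7,2),(1,1),(5,3)]⟩ ⟨6,[(1,0),(6,2),(5,3),(1,1),(0,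
  1),(5,2)]⟩),.k,⟨true,0,⟨0,[(2,0),(17,0),(7,0),(11,0)]⟩,⟨8,[(1,4),(6,2),(0,0),(4,5),(8,1)]⟩⟩,
  ⟨false,1,⟨39,[(5,23),(9,7),(6,4),(0,4),(0,19),(10,5)]⟩,⟨0,[(18,0),(6,0)]⟩⟩,⟨false,0,⟨0,[]⟩,⟨3,
  [(22,0),(0,0),(18,1)]⟩⟩,⟨false,1,⟨1,[(0,1),(22,0),(18,0)]⟩,⟨0,[(2,0),(22,0),(2,0)]⟩⟩,⟨true,0,⟨0,
  [(39,0)]⟩,⟨0,[(40,0)]⟩⟩,⟨false,1,⟨7,[(3,0),(3,2),(2,0),(3,1),(1,3),(6,3),(0,3),(13,0),(3,2)]⟩,⟨0,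
  [(2,0),(22,0),(2,0),(11,0)]⟩⟩,[.e ⟨true,0,⟨0,[(2,0),(41,1)]⟩,⟨0,[(1,0)]⟩⟩ ⟨true,0,⟨0,[(0,0)]⟩,⟨1,
  [(12,0),(12,1),(2,0),(1,0)]⟩⟩,.o ⟨false,1,⟨23,[(7,5),(1,1),(4,7),(0,3),(13,9),(5,6),(6,14)]⟩,⟨0,
  [(28,0)]⟩⟩,.a ⟨true,0,⟨0,[(25,0)]⟩,⟨1,[(24,0),(8,0),(0,0)]⟩⟩ ⟨false,0,⟨0,[(2,0),(41,0)]⟩,⟨1,[(23,
  0),(18,0)]⟩⟩ ⟨true,0,⟨0,[(0,0)]⟩,⟨0,[(25,0),(2,0)]⟩⟩,.o ⟨false,0,⟨0,[(18,0),(6,0),(1,0)]⟩,⟨7,[(22,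
  0),(0,0),(0,3),(10,1),(5,3)]⟩⟩]⟩) (.R ⟨1,false,false,false,[1,0,0,-1],[1,0,-1],[1,1,0,0,0,0,0,0,
  -1],(⟨1,[(24,0),(8,0),(0,0)]⟩,⟨0,[(25,0)]⟩),(⟨0,[(33,0)]⟩,⟨0,[(34,0)]⟩),⟨3,[(11,0),(1,0),(10,1),
  (11,0)]⟩,.k,.k,(.r (-1) ⟨5,[(9,1),(12,2),(18,0),(2,1)]⟩ ⟨6,[(1,4),(6,0),(7,1),(0,2),(2,0),(2,
  0)]⟩),.k,(.r (-1) ⟨5,[(2,1),(2,0),(3,2),(2,1),(7,2),(1,1),(5,3)]⟩ ⟨6,[(1,0),(6,2),(5,3),(1,1),(0,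
  1),(5,2)]⟩),.k,⟨true,0,⟨0,[(2,0),(17,0),(7,0),(11,0)]⟩,⟨8,[(1,4),(6,2),(0,0),(4,5),(8,1)]⟩⟩,
  ⟨false,1,⟨39,[(5,23),(9,7),(6,4),(0,4),(0,19),(10,5)]⟩,⟨0,[(0,0),(31,0)]⟩⟩,⟨false,0,⟨0,[]⟩,⟨3,
  [(22,0),(0,0),(18,1)]⟩⟩,⟨false,1,⟨37,[(3,2),(3,5),(1,1),(4,22),(0,9),(7,18),(0,18),(4,8),(12,
  13)]⟩,⟨0,[(0,0),(1,0),(41,0)]⟩⟩,⟨true,0,⟨0,[(39,0)]⟩,⟨0,[(40,0)]⟩⟩,⟨false,1,⟨7,[(3,0),(3,2),(2,0),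
  (3,1),(1,3),(6,3),(0,3),(13,0),(3,2)]⟩,⟨0,[(0,0),(1,0),(37,0),(3,0)]⟩⟩,[.a ⟨true,0,⟨0,[(16,0),(23,
  0)]⟩,⟨1,[(0,1),(23,0),(8,0),(0,0)]⟩⟩ ⟨true,0,⟨0,[(2,0),(41,1)]⟩,⟨0,[(1,0)]⟩⟩ ⟨false,1,⟨7,[(5,3),
  (8,3),(7,0),(0,0),(0,3),(4,3),(5,1)]⟩,⟨0,[(0,0)]⟩⟩,.o ⟨false,1,⟨23,[(7,5),(1,1),(4,7),(0,3),(13,
  9),(5,6),(6,14)]⟩,⟨0,[(28,0)]⟩⟩,.e ⟨false,0,⟨0,[(2,0),(41,0)]⟩,⟨1,[(23,0),(18,0)]⟩⟩ ⟨false,1,⟨47,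
  [(7,5),(1,1),(4,7),(0,3),(8,23),(4,33),(5,6),(6,38)]⟩,⟨0,[(0,0)]⟩⟩,.o ⟨false,0,⟨8,[(0,4),(7,2),(0,
  0),(4,1),(10,3),(1,4),(7,1)]⟩,⟨7,[(22,0),(0,0),(0,3),(10,1),(5,3)]⟩⟩]⟩))) (.Q [0,1,0,0,0,0,0,0,-1,
  -1,0,1] (.p true [0,0,0,1] [1] (⟨0,[(23,0)]⟩,⟨1,[(22,0),(8,0),(0,0)]⟩) .k 1 (⟨0,[]⟩,⟨0,[]⟩) .k
  .k) (.K ⟨2,[1,0,0,-1],0,0,(⟨1,[(23,0),(8,0),(0,0)]⟩,⟨0,[(24,0)]⟩),.k,(.r (-1) ⟨5,[(8,1),(12,2),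
  (18,0),(2,1)]⟩ ⟨8,[(1,4),(5,1),(1,4),(3,2),(1,0),(0,0),(5,1)]⟩),(.r 0 ⟨9,[(0,5),(6,1),(1,5),(3,1),
  (1,1),(4,0),(0,1),(1,2),(8,1),(0,1)]⟩ ⟨5,[(8,1),(13,2),(17,0),(2,1)]⟩),.k,.k,[⟨1,[(20,0),(2,0)]⟩,
  ⟨0,[(17,0),(6,0)]⟩,⟨1,[(20,0),(2,0),(6,1)]⟩,⟨0,[(17,0),(6,0),(1,0)]⟩,⟨1,[(1,1),(21,0),(8,0),(0,
  0)]⟩,⟨0,[(0,0)]⟩]⟩) (.Q [0,1,0,0,0,0,0,0,-1,0,0,1] (.p true [0,0,0,1] [] (⟨0,[(24,0)]⟩,⟨1,[(23,0),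
  (8,0),(0,0)]⟩) .k 0 (⟨0,[]⟩,⟨0,[]⟩) .k .k) (.K ⟨1,[0,0,0,1],0,0,(⟨0,[(25,0)]⟩,⟨1,[(24,0),(8,0),(0,
  0)]⟩),.k,(.r (-1) ⟨5,[(9,1),(13,2),(17,0),(2,1)]⟩ ⟨1,[(0,1),(6,0),(9,0),(6,0),(13,1)]⟩),(.r 0 ⟨8,
  [(2,4),(5,1),(1,4),(3,2),(1,0),(0,0),(5,1)]⟩ ⟨5,[(9,1),(12,2),(18,0),(2,1)]⟩),.k,.k,[⟨1,[(25,1),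
  (4,0),(0,0)]⟩,⟨1,[(24,0),(2,0),(2,0)]⟩,⟨0,[(0,0)]⟩,⟨0,[(1,0)]⟩]⟩) (.Q [0,0,0,0,0,0,1,1,0,1,-1]
  (.p false [0,0,1] [1] (⟨0,[(34,0)]⟩,⟨0,[(33,0)]⟩) .k 1 (⟨0,[]⟩,⟨0,[]⟩) .k .k) (.Q [0,0,0,0,0,0,-1,
  -1,0,-1,1,1] (.p true [0,0,1] [1,0,0,-1] (⟨0,[(35,0)]⟩,⟨0,[(34,0)]⟩) .k 2 (⟨1,[(25,0),(8,0),(0,
  0)]⟩,⟨0,[(26,0)]⟩) .k (.x 0 ⟨0,[(19,0),(15,0)]⟩ ⟨9,[(5,1),(10,3),(3,3),(2,2),(0,2),(9,3),(1,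
  1)]⟩)) (.I [0,0,-1,-1,1,0,0,1,-1] (.R ⟨1,false,false,true,[1,0,0,-1],[0,0,1],[0,0,0,-1,0,0,0,0,
  -1],(⟨1,[(27,0),(8,0),(0,0)]⟩,⟨0,[(28,0)]⟩),(⟨0,[(37,0)]⟩,⟨0,[(36,0)]⟩),⟨3,[(14,0),(1,0),(10,1),
  (11,0)]⟩,.k,.k,(.r (-1) ⟨5,[(12,1),(12,2),(18,0),(2,1)]⟩ ⟨11,[(3,2),(1,0),(5,3),(1,3),(5,1),(0,1),
  (5,3),(1,2)]⟩),.k,(.r (-1) ⟨9,[(10,1),(1,3),(11,1),(0,4),(6,1),(2,5),(8,0)]⟩ ⟨1,[(1,1),(1,1),(2,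
  0),(4,0),(1,1),(0,2),(1,2),(3,2),(19,8),(2,3)]⟩),.k,⟨false,1,⟨5,[(12,1),(4,3),(7,2),(9,1),(8,0)]⟩,
  ⟨0,[(3,0),(19,0),(4,0),(2,0)]⟩⟩,⟨true,0,⟨1,[(24,0),(2,0)]⟩,⟨0,[(28,0),(1,0)]⟩⟩,⟨true,0,⟨0,[(43,
  0)]⟩,⟨0,[(42,0)]⟩⟩,⟨false,0,⟨4,[(2,3),(0,2),(1,1),(21,0),(3,0)]⟩,⟨1,[(1,1),(23,0),(19,0)]⟩⟩,
  ⟨false,1,⟨3,[(25,0),(0,0),(18,1)]⟩,⟨0,[]⟩⟩,⟨false,0,⟨0,[(4,0),(15,0)]⟩,⟨11,[(1,11),(10,3),(12,5),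
  (7,2),(0,2),(6,1),(3,1)]⟩⟩,[.o ⟨false,0,⟨0,[(31,0)]⟩,⟨23,[(10,5),(1,1),(4,7),(0,3),(13,9),(5,6),
  (6,14)]⟩⟩,.e ⟨false,1,⟨0,[(0,0),(16,0)]⟩,⟨3,[(3,0),(1,2),(13,1),(0,1),(7,0)]⟩⟩ ⟨false,1,⟨5,[(0,1),
  (1,1),(17,1),(3,0),(1,0),(0,2),(16,1),(0,0)]⟩,⟨0,[(1,0)]⟩⟩,.a ⟨true,0,⟨0,[(28,0)]⟩,⟨1,[(27,0),(8,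
  0),(0,0)]⟩⟩ ⟨false,1,⟨11,[(12,3),(12,5),(7,2),(0,2),(6,1),(3,1)]⟩,⟨3,[(3,2),(1,0),(13,1),(0,1),(7,
  2)]⟩⟩ ⟨true,0,⟨1,[(2,0),(24,0),(3,0),(15,0)]⟩,⟨0,[(1,0)]⟩⟩,.o ⟨false,0,⟨1,[(1,1),(13,0),(15,0),(1,
  0)]⟩,⟨7,[(25,0),(0,0),(0,3),(10,1),(5,3)]⟩⟩]⟩) (.R ⟨1,false,false,true,[1,0,0,-1],[0,0,1],[0,1,0,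
  -1,0,0,0,0,-1],(⟨1,[(27,0),(8,0),(0,0)]⟩,⟨0,[(28,0)]⟩),(⟨0,[(37,0)]⟩,⟨0,[(36,0)]⟩),⟨3,[(14,0),(1,
  0),(10,1),(11,0)]⟩,.k,.k,(.r (-1) ⟨5,[(12,1),(12,2),(18,0),(2,1)]⟩ ⟨4,[(0,0),(10,0),(1,1),(12,1),
  (15,0)]⟩),.k,(.r (-1) ⟨9,[(10,1),(1,3),(11,1),(0,4),(6,1),(2,5),(8,0)]⟩ ⟨0,[(0,2),(5,1),(6,1),(0,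
  1),(1,1),(3,1),(4,0),(14,5),(2,5)]⟩),.k,⟨false,1,⟨9,[(10,1),(1,3),(11,1),(0,4),(6,1),(2,5),(8,
  0)]⟩,⟨3,[(0,2),(1,3),(2,0),(0,2),(8,1),(2,0),(1,0)]⟩⟩,⟨true,0,⟨1,[(24,0),(2,0)]⟩,⟨0,[(28,0),(1,
  0)]⟩⟩,⟨false,0,⟨0,[(43,0)]⟩,⟨0,[(42,0),(2,0)]⟩⟩,⟨false,0,⟨4,[(2,3),(0,2),(1,1),(21,0),(3,0)]⟩,⟨1,
  [(1,1),(23,0),(19,0)]⟩⟩,⟨true,0,⟨0,[(47,0)]⟩,⟨0,[]⟩⟩,⟨false,0,⟨0,[(4,0),(15,0)]⟩,⟨11,[(1,11),(10,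
  3),(12,5),(7,2),(0,2),(6,1),(3,1)]⟩⟩,[.o ⟨false,0,⟨0,[(31,0)]⟩,⟨23,[(10,5),(1,1),(4,7),(0,3),(13,
  9),(5,6),(6,14)]⟩⟩,.e ⟨false,1,⟨5,[(12,1),(12,2),(18,0),(2,1)]⟩,⟨4,[(0,2),(1,0),(3,0),(1,0),(4,0),
  (6,0),(5,0)]⟩⟩ ⟨false,1,⟨5,[(2,2),(9,0),(7,2),(4,0),(0,0),(0,2),(16,1),(0,0)]⟩,⟨0,[(1,0)]⟩⟩,.a
  ⟨true,0,⟨0,[(28,0)]⟩,⟨1,[(27,0),(8,0),(0,0)]⟩⟩ ⟨false,1,⟨11,[(12,3),(12,6),(0,0),(6,3),(0,3),(12,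
  3)]⟩,⟨1,[(0,0),(2,0),(9,0),(14,0),(15,0)]⟩⟩ ⟨true,0,⟨1,[(2,0),(24,0),(3,0),(15,0)]⟩,⟨0,[(1,0)]⟩⟩,
  .o ⟨false,0,⟨1,[(1,1),(13,0),(15,0),(1,0)]⟩,⟨7,[(25,0),(0,0),(0,3),(10,1),(5,3)]⟩⟩]⟩)) (.I [0,0,
  -1,-1,1,0,0,1,-1] (.R ⟨1,false,false,true,[1,0,0,-1],[0,0,1],[0,0,0,-1,0,0,0,0,-1],(⟨1,[(27,0),(8,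
  0),(0,0)]⟩,⟨0,[(28,0)]⟩),(⟨0,[(37,0)]⟩,⟨0,[(36,0)]⟩),⟨3,[(14,0),(1,0),(10,1),(11,0)]⟩,.k,.k,(.r
  (-1) ⟨5,[(12,1),(12,2),(18,0),(2,1)]⟩ ⟨11,[(3,2),(1,0),(5,3),(1,3),(5,1),(0,1),(5,3),(1,2)]⟩),.k,
  (.r (-1) ⟨9,[(10,1),(1,3),(11,1),(0,4),(6,1),(2,5),(8,0)]⟩ ⟨0,[(3,0),(2,0),(4,0),(1,0),(0,0),(1,
  0),(3,0),(7,0),(11,2),(2,1)]⟩),.k,⟨false,1,⟨5,[(12,1),(4,3),(7,2),(9,1),(8,0)]⟩,⟨0,[(3,0),(19,0),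
  (4,0),(2,0)]⟩⟩,⟨true,0,⟨1,[(24,0),(2,0)]⟩,⟨0,[(28,0),(1,0)]⟩⟩,⟨true,0,⟨0,[(43,0)]⟩,⟨0,[(42,0)]⟩⟩,
  ⟨false,0,⟨1,[(1,0),(0,0),(0,0),(1,0)]⟩,⟨33,[(6,3),(3,5),(1,1),(4,27),(0,11),(6,16),(2,33),(9,5),
  (6,4)]⟩⟩,⟨false,1,⟨3,[(25,0),(0,0),(18,1)]⟩,⟨0,[]⟩⟩,⟨false,0,⟨0,[(4,0),(15,0)]⟩,⟨5,[(12,1),(4,4),
  (0,0),(6,2),(2,5),(1,2),(1,0),(5,0)]⟩⟩,[.o ⟨false,0,⟨0,[(31,0)]⟩,⟨23,[(10,5),(1,1),(4,7),(0,3),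
  (13,9),(5,6),(6,14)]⟩⟩,.a ⟨true,0,⟨0,[(2,0)]⟩,⟨0,[(19,0),(23,0)]⟩⟩ ⟨false,1,⟨0,[(0,0),(16,0)]⟩,⟨3,
  [(3,0),(1,2),(13,1),(0,1),(7,0)]⟩⟩ ⟨true,0,⟨0,[(1,0)]⟩,⟨12,[(11,2),(0,0),(4,5),(10,12),(1,8),(1,
  3),(5,1)]⟩⟩,.e ⟨false,1,⟨11,[(12,3),(12,5),(7,2),(0,2),(6,1),(3,1)]⟩,⟨3,[(3,2),(1,0),(13,1),(0,1),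
  (7,2)]⟩⟩ ⟨false,0,⟨0,[(1,0)]⟩,⟨23,[(10,5),(1,1),(4,7),(0,3),(9,23),(3,9),(5,6),(6,14)]⟩⟩,.o
  ⟨false,0,⟨0,[(21,0),(6,0),(1,0)]⟩,⟨7,[(25,0),(0,0),(0,3),(10,1),(5,3)]⟩⟩]⟩) (.R ⟨1,false,false,
  true,[1,0,0,-1],[0,0,1],[0,1,0,-1,0,0,0,0,-1],(⟨1,[(27,0),(8,0),(0,0)]⟩,⟨0,[(28,0)]⟩),(⟨0,[(37,
  0)]⟩,⟨0,[(36,0)]⟩),⟨3,[(14,0),(1,0),(10,1),(11,0)]⟩,.k,.k,(.r (-1) ⟨5,[(12,1),(12,2),(18,0),(2,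
  1)]⟩ ⟨4,[(0,0),(10,0),(1,1),(12,1),(15,0)]⟩),.k,(.r (-1) ⟨9,[(10,1),(1,3),(11,1),(0,4),(6,1),(2,
  5),(8,0)]⟩ ⟨0,[(0,2),(5,1),(6,1),(0,1),(1,1),(3,1),(4,0),(14,5),(2,5)]⟩),.k,⟨false,1,⟨9,[(10,1),
  (1,3),(11,1),(0,4),(6,1),(2,5),(8,0)]⟩,⟨3,[(0,2),(1,3),(2,0),(0,2),(8,1),(2,0),(1,0)]⟩⟩,⟨true,0,
  ⟨1,[(24,0),(2,0)]⟩,⟨0,[(28,0),(1,0)]⟩⟩,⟨false,0,⟨0,[(43,0)]⟩,⟨0,[(42,0),(2,0)]⟩⟩,⟨false,0,⟨1,[(1,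
  0),(0,0),(0,0),(1,0)]⟩,⟨33,[(6,3),(3,5),(1,1),(4,27),(0,11),(6,16),(2,33),(9,5),(6,4)]⟩⟩,⟨true,0,
  ⟨0,[(47,0)]⟩,⟨0,[]⟩⟩,⟨false,0,⟨0,[(4,0),(15,0)]⟩,⟨5,[(12,1),(4,4),(0,0),(6,2),(2,5),(1,2),(1,0),
  (5,0)]⟩⟩,[.o ⟨false,0,⟨0,[(31,0)]⟩,⟨23,[(10,5),(1,1),(4,7),(0,3),(13,9),(5,6),(6,14)]⟩⟩,.a ⟨true,
  0,⟨0,[(2,0)]⟩,⟨0,[(19,0),(23,0)]⟩⟩ ⟨false,1,⟨5,[(12,1),(12,2),(18,0),(2,1)]⟩,⟨4,[(0,2),(1,0),(3,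
  0),(1,0),(4,0),(6,0),(5,0)]⟩⟩ ⟨true,0,⟨0,[(1,0)]⟩,⟨12,[(11,2),(0,0),(4,5),(10,12),(1,8),(1,3),(5,
  1)]⟩⟩,.e ⟨false,1,⟨11,[(12,3),(12,6),(0,0),(6,3),(0,3),(12,3)]⟩,⟨1,[(0,0),(2,0),(9,0),(14,0),(15,
  0)]⟩⟩ ⟨false,0,⟨0,[(1,0)]⟩,⟨23,[(10,5),(1,1),(4,7),(0,3),(9,23),(3,9),(5,6),(6,14)]⟩⟩,.o ⟨false,0,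
  ⟨0,[(21,0),(6,0),(1,0)]⟩,⟨7,[(25,0),(0,0),(0,3),(10,1),(5,3)]⟩⟩]⟩))) (.R ⟨1,false,false,true,[1,0,
  0,-1],[0,0,1],[1,0,0,0,0,0,0,0,-1],(⟨1,[(25,0),(8,0),(0,0)]⟩,⟨0,[(26,0)]⟩),(⟨0,[(35,0)]⟩,⟨0,[(34,
  0)]⟩),⟨3,[(12,0),(1,0),(10,1),(11,0)]⟩,.k,.k,(.r (-1) ⟨5,[(10,1),(12,2),(18,0),(2,1)]⟩ ⟨11,[(1,2),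
  (1,0),(5,3),(1,3),(5,1),(0,1),(5,3),(1,2)]⟩),.k,(.r (-1) ⟨9,[(8,1),(1,3),(11,1),(0,4),(6,1),(2,5),
  (8,0)]⟩ ⟨0,[(0,1),(0,0),(9,0),(0,1),(1,1),(3,1),(7,0),(11,5),(2,1)]⟩),.k,⟨false,1,⟨1,[(15,1),(7,
  0),(18,0)]⟩,⟨0,[(1,0),(19,0),(4,0),(2,0),(11,0)]⟩⟩,⟨true,0,⟨1,[(22,0),(2,0)]⟩,⟨0,[(26,0),(1,0)]⟩⟩,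
  ⟨true,0,⟨0,[]⟩,⟨0,[(45,0)]⟩⟩,⟨false,0,⟨0,[(2,0),(26,0)]⟩,⟨1,[(0,1),(22,0),(2,1),(16,0)]⟩⟩,⟨false,
  1,⟨0,[(40,0),(2,0)]⟩,⟨0,[(41,0)]⟩⟩,⟨false,0,⟨0,[(2,0),(15,0)]⟩,⟨9,[(0,5),(8,1),(0,3),(4,1),(7,4),
  (2,9),(1,3),(14,2)]⟩⟩,[.o ⟨false,0,⟨0,[(29,0)]⟩,⟨3,[(0,1),(29,1),(5,0),(6,2)]⟩⟩,.o ⟨false,1,⟨3,
  [(23,0),(0,0),(4,3),(13,1)]⟩,⟨0,[(0,0)]⟩⟩,.a ⟨true,0,⟨0,[(26,0)]⟩,⟨1,[(25,0),(8,0),(0,0)]⟩⟩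
  ⟨false,1,⟨1,[(23,0),(19,0)]⟩,⟨1,[(1,0),(1,0),(22,0)]⟩⟩ ⟨true,0,⟨1,[(25,0),(3,1),(4,0),(0,0)]⟩,⟨0,
  [(0,0),(25,0)]⟩⟩,.o ⟨false,0,⟨0,[(19,0),(6,0),(1,0)]⟩,⟨7,[(23,0),(0,0),(0,3),(10,1),(5,
  3)]⟩⟩]⟩)))))) (.I [0,0,2,2,-1,0,0,0,-1] (.I [1,1,-1,0,0,0,0,0,-1] (.Q [0,0,0,-1,0,0,-1,-1,0,0,1,
  -1] (.p true [0,0,1] [0,0,0,1] (⟨0,[(32,0)]⟩,⟨0,[(31,0)]⟩) .k 2 (⟨0,[(23,0)]⟩,⟨1,[(22,0),(8,0),(0,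
  0)]⟩) .k (.r 0 ⟨0,[(0,0),(7,0),(29,0)]⟩ ⟨3,[(20,0),(0,2),(8,3)]⟩)) (.R ⟨1,false,false,false,[1,0,
  0,-1],[1,-1,-1],[1,0,0,0,0,0,0,0,-1],(⟨1,[(23,0),(8,0),(0,0)]⟩,⟨0,[(24,0)]⟩),(⟨0,[(18,0)]⟩,⟨0,
  [(33,0),(2,0)]⟩),⟨3,[(10,0),(1,0),(10,1),(11,0)]⟩,.k,.k,(.x 0 ⟨7,[(3,1),(8,1),(1,1),(6,0),(0,0),
  (6,1)]⟩ ⟨3,[(21,0),(0,0),(13,3),(3,1)]⟩),(.r 0 ⟨3,[(1,0),(0,0),(8,2),(4,0),(2,0),(1,0)]⟩ ⟨9,[(6,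
  1),(1,3),(11,1),(1,4),(5,1),(2,5),(8,0)]⟩),.k,.k,⟨false,0,⟨0,[(1,0),(7,0)]⟩,⟨9,[(6,1),(1,3),(11,
  1),(1,4),(5,1),(2,5),(8,0)]⟩⟩,⟨true,0,⟨3,[(14,1),(8,1),(5,0),(0,0)]⟩,⟨0,[(17,0),(6,0)]⟩⟩,⟨true,0,
  ⟨0,[]⟩,⟨0,[(43,0)]⟩⟩,⟨false,1,⟨1,[(0,1),(21,0),(18,0)]⟩,⟨0,[(1,0),(14,0),(7,0),(12,0)]⟩⟩,⟨false,1,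
  ⟨0,[(38,0),(2,0)]⟩,⟨0,[(39,0)]⟩⟩,⟨false,1,⟨29,[(0,9),(3,1),(1,5),(6,9),(0,3),(0,3),(6,14),(0,9),
  (17,12)]⟩,⟨0,[(2,0),(5,0),(7,0),(7,0)]⟩⟩,[.e ⟨true,0,⟨6,[(1,1),(0,2),(5,1),(12,0)]⟩,⟨0,[(5,0)]⟩⟩
  ⟨true,0,⟨0,[(0,0)]⟩,⟨1,[(9,0),(6,0),(7,1),(4,0)]⟩⟩,.o ⟨false,1,⟨25,[(7,3),(0,9),(4,7),(12,11),(1,
  13),(5,6),(6,12)]⟩,⟨0,[(16,0)]⟩⟩,.a ⟨true,0,⟨0,[(24,0)]⟩,⟨1,[(23,0),(8,0),(0,0)]⟩⟩ ⟨false,0,⟨0,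
  [(1,0),(35,0)]⟩,⟨3,[(21,0),(0,2)]⟩⟩ ⟨true,0,⟨0,[(0,0)]⟩,⟨0,[(16,0),(7,0)]⟩⟩,.o ⟨false,0,⟨0,[(17,
  0),(6,0),(1,0)]⟩,⟨7,[(21,0),(0,0),(0,3),(10,1),(5,3)]⟩⟩]⟩) (.R ⟨1,false,false,false,[1,0,0,-1],[1,
  -1,-1],[1,0,0,0,0,0,0,0,-1],(⟨1,[(23,0),(8,0),(0,0)]⟩,⟨0,[(24,0)]⟩),(⟨0,[(18,0)]⟩,⟨0,[(33,0),(2,
  0)]⟩),⟨3,[(10,0),(1,0),(10,1),(11,0)]⟩,.k,.k,(.x 0 ⟨7,[(3,1),(8,1),(1,1),(6,0),(0,0),(6,1)]⟩ ⟨3,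
  [(21,0),(0,0),(13,3),(3,1)]⟩),(.r 0 ⟨3,[(1,0),(0,0),(8,2),(4,0),(2,0),(1,0)]⟩ ⟨9,[(6,1),(1,3),(11,
  1),(1,4),(5,1),(2,5),(8,0)]⟩),.k,.k,⟨false,0,⟨0,[(1,0),(7,0)]⟩,⟨9,[(6,1),(1,3),(11,1),(1,4),(5,1),
  (2,5),(8,0)]⟩⟩,⟨true,0,⟨3,[(14,1),(8,1),(5,0),(0,0)]⟩,⟨0,[(17,0),(6,0)]⟩⟩,⟨true,0,⟨0,[]⟩,⟨0,[(43,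
  0)]⟩⟩,⟨false,1,⟨15,[(7,1),(0,5),(4,8),(0,2),(7,7),(0,7),(2,4),(1,4),(12,3)]⟩,⟨6,[(0,6),(0,1),(0,
  2),(5,1),(12,0)]⟩⟩,⟨false,1,⟨0,[(38,0),(2,0)]⟩,⟨0,[(39,0)]⟩⟩,⟨false,1,⟨51,[(4,2),(1,11),(1,3),(4,
  30),(0,13),(7,25),(0,25),(4,8),(12,18)]⟩,⟨13,[(0,6),(0,1),(0,9),(5,8),(12,0),(2,6),(2,6)]⟩⟩,[.a
  ⟨true,0,⟨0,[(15,0),(23,1)]⟩,⟨1,[(0,1),(22,0),(8,0),(0,0)]⟩⟩ ⟨true,0,⟨6,[(1,1),(0,2),(5,1),(12,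
  0)]⟩,⟨0,[(5,0)]⟩⟩ ⟨false,1,⟨23,[(4,3),(3,7),(4,3),(7,0),(0,0),(0,11),(4,19),(5,5),(6,3)]⟩,⟨0,[(0,
  0)]⟩⟩,.o ⟨false,1,⟨25,[(7,3),(0,9),(4,7),(12,11),(1,13),(5,6),(6,12)]⟩,⟨0,[(16,0)]⟩⟩,.e ⟨false,0,
  ⟨0,[(1,0),(35,0)]⟩,⟨3,[(21,0),(0,2)]⟩⟩ ⟨false,1,⟨51,[(7,13),(0,21),(4,1),(9,25),(2,15),(1,35),(5,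
  4),(6,38)]⟩,⟨0,[(0,0)]⟩⟩,.o ⟨false,0,⟨0,[(17,0),(6,0),(1,0)]⟩,⟨7,[(21,0),(0,0),(0,3),(10,1),(5,
  3)]⟩⟩]⟩)) (.I [1,0,2,1,-1,0,0,-1] (.Q [0,0,0,-1,0,0,-1,-1,0,0,1,-1] (.p true [0,0,1] [0,0,0,1]
  (⟨0,[(33,0)]⟩,⟨0,[(32,0)]⟩) .k 2 (⟨0,[(24,0)]⟩,⟨1,[(23,0),(8,0),(0,0)]⟩) .k (.x 0 ⟨0,[(17,0),(15,
  0)]⟩ ⟨19,[(4,3),(9,7),(6,4),(0,4),(9,19),(1,5)]⟩)) (.Q [0,0,0,1,0,0,1,1,-1,0,-1,1] (.p false [0,0,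
  1] [0,0,0,1] (⟨0,[(34,0)]⟩,⟨0,[(33,0)]⟩) .k 2 (⟨0,[(25,0)]⟩,⟨1,[(24,0),(8,0),(0,0)]⟩) .k (.x 0 ⟨0,
  [(18,0),(15,0)]⟩ ⟨19,[(5,3),(9,7),(6,4),(0,4),(9,19),(1,5)]⟩)) (.R ⟨1,false,false,false,[1,0,0,
  -1],[1,-1,-1],[1,1,0,0,0,0,0,0,-1],(⟨1,[(25,0),(8,0),(0,0)]⟩,⟨0,[(26,0)]⟩),(⟨0,[(20,0)]⟩,⟨0,[(35,
  0),(2,0)]⟩),⟨3,[(12,0),(1,0),(10,1),(11,0)]⟩,.k,.k,(.r (-1) ⟨5,[(10,1),(12,2),(18,0),(2,1)]⟩ ⟨4,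
  [(2,0),(0,2),(13,0),(0,1),(2,0),(2,0)]⟩),(.r 0 ⟨4,[(0,1),(3,0),(8,1),(2,0),(4,0),(1,0),(1,0),(3,
  0)]⟩ ⟨9,[(8,1),(1,3),(11,1),(1,4),(5,1),(2,5),(8,0)]⟩),.k,.k,⟨false,0,⟨1,[(4,1),(1,0),(3,0),(10,
  0),(7,1)]⟩,⟨5,[(10,1),(4,3),(8,2),(8,1),(8,0)]⟩⟩,⟨true,0,⟨3,[(16,1),(8,1),(5,0),(0,0)]⟩,⟨0,[(19,
  0),(6,0)]⟩⟩,⟨false,0,⟨0,[]⟩,⟨3,[(23,0),(0,0),(18,1)]⟩⟩,⟨false,1,⟨1,[(1,1),(22,0),(18,0)]⟩,⟨0,[(0,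
  0)]⟩⟩,⟨true,0,⟨0,[(40,0)]⟩,⟨0,[(41,0)]⟩⟩,⟨false,1,⟨29,[(1,9),(4,1),(1,5),(6,9),(0,3),(0,3),(6,14),
  (0,9),(17,12)]⟩,⟨0,[(0,0),(40,0)]⟩⟩,[.e ⟨true,0,⟨0,[(0,0),(0,0),(43,0)]⟩,⟨0,[(3,0)]⟩⟩ ⟨true,0,⟨0,
  [(1,0)]⟩,⟨0,[(0,0),(6,0)]⟩⟩,.o ⟨false,1,⟨25,[(9,3),(0,9),(4,7),(12,11),(1,13),(5,6),(6,12)]⟩,⟨0,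
  [(18,0)]⟩⟩,.a ⟨true,0,⟨0,[(26,0)]⟩,⟨1,[(25,0),(8,0),(0,0)]⟩⟩ ⟨false,0,⟨0,[(0,0),(0,0)]⟩,⟨1,[(24,
  0),(18,0)]⟩⟩ ⟨true,0,⟨0,[(1,0)]⟩,⟨0,[(18,0),(7,0)]⟩⟩,.o ⟨false,0,⟨0,[(19,0),(6,0),(1,0)]⟩,⟨7,[(23,
  0),(0,0),(0,3),(10,1),(5,3)]⟩⟩]⟩) (.R ⟨1,true,false,true,[1,0,-1],[1,0,0,-1],[0,0,0,-1,0,0,0,-1],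
  (⟨0,[(34,0)]⟩,⟨0,[(35,0)]⟩),(⟨1,[(25,0),(8,0),(0,0)]⟩,⟨0,[(26,0)]⟩),⟨0,[(20,0)]⟩,.k,.k,.k,.k,(.r
  (-1) ⟨9,[(8,1),(1,3),(11,1),(1,4),(5,1),(2,5),(8,0)]⟩ ⟨8,[(4,4),(1,1),(3,0),(2,4),(7,1),(1,1),(5,
  3)]⟩),.k,⟨false,1,⟨5,[(10,1),(4,3),(8,2),(8,1),(8,0)]⟩,⟨1,[(4,1),(1,0),(3,0),(10,0),(7,1)]⟩⟩,
  ⟨true,0,⟨0,[(19,0),(6,0)]⟩,⟨3,[(16,1),(8,1),(5,0),(0,0)]⟩⟩,⟨true,0,⟨0,[(41,0)]⟩,⟨0,[(40,0)]⟩⟩,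
  ⟨false,0,⟨0,[(4,0),(5,0),(7,0),(7,0)]⟩,⟨15,[(0,7),(7,3),(8,3),(5,0),(0,4),(0,3),(17,9)]⟩⟩,⟨false,
  1,⟨3,[(23,0),(0,0),(18,1)]⟩,⟨0,[]⟩⟩,⟨true,0,⟨2,[(4,2),(5,0),(15,2),(2,2),(12,1),(2,0)]⟩,⟨0,[(0,
  0)]⟩⟩,[]⟩)) (.R ⟨1,false,false,false,[1,0,0,-1],[1,-1,-1],[1,1,0,0,0,0,0,0,-1],(⟨1,[(24,0),(8,0),
  (0,0)]⟩,⟨0,[(25,0)]⟩),(⟨0,[(19,0)]⟩,⟨0,[(34,0),(2,0)]⟩),⟨3,[(11,0),(1,0),(10,1),(11,0)]⟩,.k,.k,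
  (.r (-1) ⟨5,[(9,1),(12,2),(18,0),(2,1)]⟩ ⟨4,[(1,0),(0,2),(13,0),(0,1),(2,0),(2,0)]⟩),(.r 0 ⟨8,[(3,
  4),(1,1),(3,0),(2,4),(7,1),(1,1),(5,3)]⟩ ⟨9,[(7,1),(1,3),(11,1),(1,4),(5,1),(2,5),(8,0)]⟩),.k,.k,
  ⟨false,0,⟨1,[(3,1),(1,0),(3,0),(10,0),(7,1)]⟩,⟨5,[(9,1),(4,3),(8,2),(8,1),(8,0)]⟩⟩,⟨true,0,⟨3,
  [(15,1),(8,1),(5,0),(0,0)]⟩,⟨0,[(18,0),(6,0)]⟩⟩,⟨false,0,⟨0,[]⟩,⟨3,[(22,0),(0,0),(18,1)]⟩⟩,⟨false,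
  1,⟨11,[(2,5),(6,3),(4,3),(0,1),(7,2),(0,5),(4,7),(5,1),(6,2)]⟩,⟨1,[(0,0),(2,1),(5,0),(15,0),(2,0),
  (12,0)]⟩⟩,⟨true,0,⟨0,[(39,0)]⟩,⟨0,[(40,0)]⟩⟩,⟨false,1,⟨51,[(5,2),(1,11),(1,3),(4,30),(0,13),(7,
  25),(0,25),(4,8),(12,18)]⟩,⟨3,[(0,0),(2,3),(5,2),(15,2),(2,2),(12,0)]⟩⟩,[.a ⟨true,0,⟨0,[(1,0),(7,
  0),(10,0)]⟩,⟨1,[(0,1),(23,0),(8,0),(0,0)]⟩⟩ ⟨true,0,⟨2,[(3,2),(5,1),(31,0),(2,4)]⟩,⟨0,[(2,0)]⟩⟩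
  ⟨false,1,⟨23,[(5,3),(3,7),(4,3),(7,0),(0,0),(0,11),(4,19),(5,5),(6,3)]⟩,⟨0,[(0,0)]⟩⟩,.o ⟨false,1,
  ⟨25,[(8,3),(0,9),(4,7),(12,11),(1,13),(5,6),(6,12)]⟩,⟨0,[(17,0)]⟩⟩,.e ⟨false,0,⟨2,[(3,2),(5,1),
  (31,0),(2,1)]⟩,⟨1,[(23,0),(18,0)]⟩⟩ ⟨false,1,⟨51,[(8,13),(0,21),(4,1),(9,25),(2,15),(1,35),(5,4),
  (6,38)]⟩,⟨0,[(0,0)]⟩⟩,.o ⟨false,0,⟨2,[(0,0),(0,0),(23,1),(1,0),(7,0),(4,1)]⟩,⟨7,[(22,0),(0,0),(0,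
  3),(10,1),(5,3)]⟩⟩]⟩)) (.K ⟨0,[1,1,-1],1,0,(⟨0,[(32,0),(3,0)]⟩,⟨0,[(10,0)]⟩),.k,.k,(.r 0 ⟨15,[(2,
  7),(3,3),(0,7),(7,3),(4,3),(0,2),(0,6),(18,5)]⟩ ⟨0,[(0,0),(38,0)]⟩),.k,.k,[⟨0,[(3,0),(28,0),(3,
  1)]⟩,⟨0,[(4,0)]⟩,⟨0,[(27,0),(4,0),(0,0),(5,0)]⟩,⟨0,[(6,0)]⟩]⟩))) (.I [0,0,-2,-2,1,0,0,1] (.K ⟨0,
  [1,1,-1],1,0,(⟨0,[(31,0),(3,0)]⟩,⟨0,[(9,0)]⟩),.k,.k,(.r 0 ⟨0,[(6,0),(30,0),(2,0)]⟩ ⟨0,[(0,0)]⟩),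
  .k,.k,[⟨0,[(2,0),(28,0),(3,1)]⟩,⟨0,[(3,0)]⟩,⟨0,[(26,0),(4,0),(0,0),(5,0)]⟩,⟨0,[(5,0)]⟩]⟩) (.I [1,
  -1,0,1,0,0,0,0,1] (.I [0,0,2,2,-1,0,0,-1] (.K ⟨0,[1,1,-1],1,0,(⟨0,[(33,0),(3,0)]⟩,⟨0,[(11,0)]⟩),
  .k,.k,(.r 1 ⟨0,[(0,0)]⟩ ⟨11,[(3,11),(1,3),(6,5),(9,6),(0,0),(4,5),(2,1)]⟩),.k,.k,[⟨0,[(4,0),(28,
  0),(3,1)]⟩,⟨0,[(5,0)]⟩,⟨0,[(28,0),(4,0),(0,0),(5,0)]⟩,⟨0,[(7,0)]⟩]⟩) (.I [0,0,0,0,0,0,0,1,1] (.Q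
  [0,-1,0,-2,1,0,0,0,-1,-1,0,1] (.p true [0,0,0,1] [1] (⟨0,[(26,0)]⟩,⟨1,[(25,0),(8,0),(0,0)]⟩) .k 1
  (⟨0,[]⟩,⟨0,[]⟩) .k .k) (.Q [0,-1,0,-1,1,0,0,0,-1,-1,0,1] (.p true [0,0,0,1] [1] (⟨0,[(27,0)]⟩,⟨1,
  [(26,0),(8,0),(0,0)]⟩) .k 1 (⟨0,[]⟩,⟨0,[]⟩) .k .k) (.Q [0,0,0,1,0,0,0,0,0,1,0,-1] (.p false [0,0,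
  0,1] [1] (⟨0,[(28,0)]⟩,⟨1,[(27,0),(8,0),(0,0)]⟩) .k 1 (⟨0,[]⟩,⟨0,[]⟩) .k .k) (.R ⟨1,false,false,
  true,[1,0,0,-1],[0,1],[0,1,0,-1,0,0,0,0,-1],(⟨1,[(28,0),(8,0),(0,0)]⟩,⟨0,[(29,0)]⟩),(⟨0,[(41,0)]⟩,
  ⟨0,[(40,0)]⟩),⟨3,[(15,0),(1,0),(10,1),(11,0)]⟩,.k,.k,(.r (-1) ⟨5,[(13,1),(12,2),(18,0),(2,1)]⟩
  ⟨21,[(3,3),(2,6),(5,1),(1,3),(6,0),(2,0),(2,8)]⟩),(.r (-1) ⟨5,[(13,1),(12,2),(18,0),(2,1)]⟩ ⟨21,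
  [(3,3),(2,6),(5,1),(1,3),(6,0),(2,0),(2,8)]⟩),(.r (-2) ⟨0,[(7,0),(18,0)]⟩ ⟨0,[(3,0),(2,0)]⟩),.k,
  ⟨true,1,⟨1,[(13,0),(12,0),(17,0),(3,0)]⟩,⟨0,[(3,0),(2,0)]⟩⟩,⟨false,1,⟨1,[(9,1),(15,0),(2,0)]⟩,⟨0,
  [(22,0),(6,0),(1,0)]⟩⟩,⟨false,0,⟨0,[(44,0)]⟩,⟨0,[(43,0),(2,0)]⟩⟩,⟨false,0,⟨2,[(0,2),(2,0),(1,0),
  (1,0),(4,0)]⟩,⟨0,[(1,0)]⟩⟩,⟨true,0,⟨0,[(48,0)]⟩,⟨0,[]⟩⟩,⟨false,0,⟨5,[(0,5),(2,0),(1,3),(1,0),(4,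
  0),(30,2)]⟩,⟨0,[(2,0)]⟩⟩,[.o ⟨false,0,⟨0,[(43,0)]⟩,⟨6,[(2,1),(10,0),(13,0),(0,0),(10,2),(2,1)]⟩⟩,
  .a ⟨true,0,⟨0,[(0,0),(28,0)]⟩,⟨0,[(44,0)]⟩⟩ ⟨false,1,⟨5,[(13,1),(12,2),(18,0),(2,1)]⟩,⟨5,[(3,0),
  (1,3),(1,0),(4,0),(30,2)]⟩⟩ ⟨true,0,⟨0,[(0,0)]⟩,⟨0,[(22,0),(6,0),(1,0),(12,0)]⟩⟩,.e ⟨false,1,⟨11,
  [(13,3),(12,6),(0,0),(6,3),(0,3),(12,3)]⟩,⟨0,[(5,0)]⟩⟩ ⟨false,0,⟨0,[(0,0)]⟩,⟨5,[(2,3),(2,1),(21,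
  0),(1,1),(9,0)]⟩⟩,.o ⟨false,0,⟨0,[(22,0),(6,0),(1,0)]⟩,⟨7,[(26,0),(0,0),(0,3),(10,1),(5,3)]⟩⟩]⟩)
  (.R ⟨1,false,false,true,[1,0,0,-1],[0,1],[0,1,0,-1,0,0,0,0,-1],(⟨1,[(28,0),(8,0),(0,0)]⟩,⟨0,[(29,
  0)]⟩),(⟨0,[(41,0)]⟩,⟨0,[(40,0)]⟩),⟨3,[(15,0),(1,0),(10,1),(11,0)]⟩,.k,.k,(.r (-1) ⟨5,[(13,1),(12,
  2),(18,0),(2,1)]⟩ ⟨21,[(3,3),(2,6),(5,1),(1,3),(6,0),(2,0),(2,8)]⟩),(.r (-1) ⟨5,[(13,1),(12,2),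
  (18,0),(2,1)]⟩ ⟨21,[(3,3),(2,6),(5,1),(1,3),(6,0),(2,0),(2,8)]⟩),(.r (-2) ⟨0,[(7,0),(18,0)]⟩ ⟨0,
  [(3,0),(2,0)]⟩),.k,⟨true,1,⟨1,[(13,0),(12,0),(17,0),(3,0)]⟩,⟨0,[(3,0),(2,0)]⟩⟩,⟨false,1,⟨1,[(9,1),
  (15,0),(2,0)]⟩,⟨14,[(0,7),(0,1),(10,4),(1,3),(6,0),(5,0),(1,4),(1,0),(7,1)]⟩⟩,⟨false,0,⟨0,[(44,
  0)]⟩,⟨0,[(43,0),(2,0)]⟩⟩,⟨false,0,⟨5,[(3,1),(1,3),(18,1),(0,1),(2,2),(4,1),(3,0),(0,0)]⟩,⟨0,[(1,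
  0)]⟩⟩,⟨true,0,⟨0,[(48,0)]⟩,⟨0,[]⟩⟩,⟨false,0,⟨1,[(5,1),(18,1),(0,0),(2,0)]⟩,⟨0,[(2,0)]⟩⟩,[.o
  ⟨false,0,⟨0,[(43,0)]⟩,⟨6,[(2,1),(10,0),(13,0),(0,0),(10,2),(2,1)]⟩⟩,.e ⟨false,1,⟨5,[(13,1),(12,2),
  (18,0),(2,1)]⟩,⟨5,[(3,0),(1,3),(1,0),(4,0),(30,2)]⟩⟩ ⟨false,1,⟨1,[(9,0),(14,0),(0,0),(2,0),(14,0),
  (2,0)]⟩,⟨0,[(0,0)]⟩⟩,.a ⟨true,0,⟨0,[(29,0)]⟩,⟨1,[(28,0),(8,0),(0,0)]⟩⟩ ⟨false,1,⟨11,[(13,3),(12,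
  6),(0,0),(6,3),(0,3),(12,3)]⟩,⟨0,[(5,0)]⟩⟩ ⟨true,0,⟨1,[(24,1),(0,0),(2,0)]⟩,⟨0,[(0,0)]⟩⟩,.o
  ⟨false,0,⟨14,[(0,7),(0,1),(10,4),(1,3),(6,0),(5,0),(1,4),(1,0),(7,1)]⟩,⟨7,[(26,0),(0,0),(0,3),(10,
  1),(5,3)]⟩⟩]⟩)) (.R ⟨1,true,false,true,[1,0,0,-1],[0,1],[0,1,0,-1,0,0,0,0,-1],(⟨1,[(27,0),(8,0),
  (0,0)]⟩,⟨0,[(28,0)]⟩),(⟨0,[(40,0)]⟩,⟨0,[(39,0)]⟩),⟨3,[(14,0),(1,0),(10,1),(11,0)]⟩,.k,.k,(.r (-1)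
  ⟨5,[(12,1),(12,2),(18,0),(2,1)]⟩ ⟨21,[(2,3),(2,6),(5,1),(1,3),(6,0),(2,0),(2,8)]⟩),(.r (-1) ⟨5,
  [(12,1),(12,2),(18,0),(2,1)]⟩ ⟨21,[(2,3),(2,6),(5,1),(1,3),(6,0),(2,0),(2,8)]⟩),(.r (-2) ⟨0,[(6,
  0),(18,0)]⟩ ⟨0,[(2,0),(2,0)]⟩),.k,⟨true,1,⟨1,[(12,0),(12,0),(17,0),(3,0)]⟩,⟨0,[(2,0),(2,0)]⟩⟩,
  ⟨false,1,⟨1,[(8,1),(15,0),(2,0)]⟩,⟨0,[(21,0),(6,0),(1,0)]⟩⟩,⟨false,0,⟨0,[(43,0)]⟩,⟨0,[(42,0),(2,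
  0)]⟩⟩,⟨true,(-1),⟨0,[(0,0)]⟩,⟨0,[(1,0),(40,0)]⟩⟩,⟨true,0,⟨0,[(47,0)]⟩,⟨0,[]⟩⟩,⟨false,0,⟨0,[(0,0),
  (41,0),(2,0)]⟩,⟨0,[(1,0)]⟩⟩,[]⟩)) (.K ⟨1,[1,0,0,-1],0,1,(⟨1,[(26,0),(8,0),(0,0)]⟩,⟨0,[(27,0)]⟩),
  .k,(.r (-1) ⟨5,[(11,1),(12,2),(18,0),(2,1)]⟩ ⟨21,[(1,3),(2,6),(5,1),(1,3),(6,0),(2,0),(2,8)]⟩),
  (.r (-1) ⟨13,[(4,2),(5,1),(1,3),(6,0),(2,0),(1,12),(0,5)]⟩ ⟨0,[(0,0),(10,0),(8,0),(6,0),(1,0)]⟩),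
  .k,.k,[⟨1,[(23,0),(2,0),(6,1)]⟩,⟨0,[(20,0),(6,0),(1,0)]⟩,⟨0,[(0,0),(41,1)]⟩,⟨1,[(24,0),(2,1),(16,
  0)]⟩]⟩)) (.Q [0,0,0,1,0,0,0,0,0,1,0,-1] (.p false [0,0,0,1] [1] (⟨0,[(26,0)]⟩,⟨1,[(25,0),(8,0),(0,
  0)]⟩) .k 1 (⟨0,[]⟩,⟨0,[]⟩) .k .k) (.R ⟨1,false,false,true,[1,0,0,-1],[0,1],[1,0,0,0,0,0,0,0,-1],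
  (⟨1,[(26,0),(8,0),(0,0)]⟩,⟨0,[(27,0)]⟩),(⟨0,[(39,0)]⟩,⟨0,[(38,0)]⟩),⟨3,[(13,0),(1,0),(10,1),(11,
  0)]⟩,.k,.k,(.r (-1) ⟨3,[(1,0),(0,0),(2,0),(18,1)]⟩ ⟨7,[(3,0),(0,1),(3,2),(3,0),(6,0),(2,0),(2,
  1)]⟩),(.r (-1) ⟨3,[(1,0),(0,0),(2,0),(18,1)]⟩ ⟨7,[(3,0),(0,1),(3,2),(3,0),(6,0),(2,0),(2,1)]⟩),
  (.x 0 ⟨3,[(6,1),(8,1),(1,1),(6,0),(0,0),(6,1)]⟩ ⟨0,[(39,1),(3,0)]⟩),.k,⟨true,1,⟨3,[(1,1),(9,1),(0,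
  1),(11,0),(18,0)]⟩,⟨0,[(3,0),(0,0),(17,0),(7,0),(11,2)]⟩⟩,⟨false,1,⟨1,[(7,1),(15,0),(2,0)]⟩,⟨0,
  [(20,0),(6,0),(1,0)]⟩⟩,⟨true,0,⟨0,[]⟩,⟨0,[(46,0)]⟩⟩,⟨false,0,⟨7,[(0,1),(2,5),(1,1),(4,1),(11,1),
  (3,2),(3,1),(4,2),(0,2)]⟩,⟨5,[(1,3),(9,1),(2,3),(9,0),(2,5),(9,2)]⟩⟩,⟨false,1,⟨0,[(41,0),(2,0)]⟩,
  ⟨0,[(42,0)]⟩⟩,⟨false,0,⟨3,[(0,3),(2,2),(1,0),(4,0),(8,0),(2,0)]⟩,⟨5,[(1,3),(9,1),(2,3),(9,0),(2,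
  5),(9,2),(4,5)]⟩⟩,[.o ⟨false,0,⟨0,[(41,0)]⟩,⟨2,[(11,0),(17,0),(2,0),(4,0),(6,0)]⟩⟩,.a ⟨true,0,⟨0,
  [(0,0),(26,0)]⟩,⟨0,[(42,0)]⟩⟩ ⟨false,1,⟨7,[(1,5),(9,1),(0,5),(11,0),(18,4)]⟩,⟨1,[(3,0),(1,0),(4,
  0),(11,0),(7,0),(11,0)]⟩⟩ ⟨true,0,⟨0,[(0,0)]⟩,⟨0,[(20,0),(6,0),(1,0),(12,0)]⟩⟩,.e ⟨false,1,⟨1,
  [(24,0),(19,0)]⟩,⟨3,[(3,2),(1,0),(4,0),(11,0),(7,0),(11,2)]⟩⟩ ⟨false,0,⟨0,[(0,0)]⟩,⟨2,[(11,0),(15,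
  2),(1,0),(2,0),(4,0),(6,0)]⟩⟩,.o ⟨false,0,⟨0,[(20,0),(6,0),(1,0)]⟩,⟨7,[(24,0),(0,0),(0,3),(10,1),
  (5,3)]⟩⟩]⟩) (.R ⟨1,false,false,true,[1,0,0,-1],[0,1],[1,0,0,0,0,0,0,0,-1],(⟨1,[(26,0),(8,0),(0,
  0)]⟩,⟨0,[(27,0)]⟩),(⟨0,[(39,0)]⟩,⟨0,[(38,0)]⟩),⟨3,[(13,0),(1,0),(10,1),(11,0)]⟩,.k,.k,(.r (-1) ⟨3,
  [(1,0),(0,0),(2,0),(18,1)]⟩ ⟨7,[(3,0),(0,1),(3,2),(3,0),(6,0),(2,0),(2,1)]⟩),(.r (-1) ⟨3,[(1,0),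
  (0,0),(2,0),(18,1)]⟩ ⟨7,[(3,0),(0,1),(3,2),(3,0),(6,0),(2,0),(2,1)]⟩),(.x 0 ⟨3,[(6,1),(8,1),(1,1),
  (6,0),(0,0),(6,1)]⟩ ⟨0,[(39,1),(3,0)]⟩),.k,⟨true,1,⟨3,[(1,1),(9,1),(0,1),(11,0),(18,0)]⟩,⟨1,[(0,
  1),(2,1),(2,0),(3,0),(11,1),(3,0),(3,0),(4,0),(3,1),(2,0)]⟩⟩,⟨false,1,⟨1,[(7,1),(15,0),(2,0)]⟩,⟨4,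
  [(0,1),(9,0),(1,0),(14,2),(1,0),(2,0),(4,0)]⟩⟩,⟨true,0,⟨0,[]⟩,⟨0,[(46,0)]⟩⟩,⟨false,0,⟨9,[(3,7),(1,
  1),(4,1),(11,3),(0,0),(2,4),(3,1),(4,3),(0,3)]⟩,⟨1,[(0,1),(23,0),(19,0)]⟩⟩,⟨false,1,⟨0,[(41,0),(2,
  0)]⟩,⟨0,[(42,0)]⟩⟩,⟨false,0,⟨1,[(3,1),(18,1),(0,0),(2,0)]⟩,⟨11,[(0,11),(10,3),(12,5),(7,2),(0,2),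
  (6,1),(3,1)]⟩⟩,[.o ⟨false,0,⟨0,[(41,0)]⟩,⟨2,[(11,0),(17,0),(2,0),(4,0),(6,0)]⟩⟩,.e ⟨false,1,⟨7,
  [(1,5),(9,1),(0,5),(11,0),(18,4)]⟩,⟨1,[(3,0),(1,0),(4,0),(11,0),(7,0),(11,0)]⟩⟩ ⟨false,1,⟨1,[(7,
  0),(14,0),(0,0),(2,0),(14,0),(2,0)]⟩,⟨0,[(0,0)]⟩⟩,.a ⟨true,0,⟨0,[(27,0)]⟩,⟨1,[(26,0),(8,0),(0,
  0)]⟩⟩ ⟨false,1,⟨1,[(24,0),(19,0)]⟩,⟨3,[(3,2),(1,0),(4,0),(11,0),(7,0),(11,2)]⟩⟩ ⟨true,0,⟨1,[(22,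
  1),(0,0),(2,0)]⟩,⟨0,[(0,0)]⟩⟩,.o ⟨false,0,⟨4,[(0,1),(9,0),(1,0),(14,2),(1,0),(2,0),(4,0)]⟩,⟨7,
  [(24,0),(0,0),(0,3),(10,1),(5,3)]⟩⟩]⟩)))) (.Q [0,1,0,0,0,0,0,0,1,0,0,-1] (.p false [0,0,0,1] []
  (⟨0,[(24,0)]⟩,⟨1,[(23,0),(8,0),(0,0)]⟩) .k 0 (⟨0,[]⟩,⟨0,[]⟩) .k .k) (.Q [0,1,0,0,0,0,0,0,-1,0,0,
  1] (.p true [0,0,0,1] [] (⟨0,[(25,0)]⟩,⟨1,[(24,0),(8,0),(0,0)]⟩) .k 0 (⟨0,[]⟩,⟨0,[]⟩) .k .k) (.K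
  ⟨2,[0,0,0,1],0,0,(⟨0,[(26,0)]⟩,⟨1,[(25,0),(8,0),(0,0)]⟩),.k,(.r (-1) ⟨7,[(4,3),(18,0),(0,2)]⟩ ⟨6,
  [(2,2),(0,2),(2,0),(4,2),(3,0),(2,0),(4,1)]⟩),(.r 0 ⟨2,[(1,0),(1,0),(7,0),(12,0),(1,0)]⟩ ⟨5,[(2,
  0),(1,0),(5,0),(12,2),(18,0)]⟩),.k,.k,[⟨0,[(19,0),(6,0)]⟩,⟨1,[(22,0),(2,0)]⟩,⟨2,[(0,1),(6,1),(18,
  0),(12,0)]⟩,⟨1,[(25,0),(2,0),(2,0)]⟩,⟨0,[(0,0)]⟩,⟨0,[(1,0)]⟩]⟩) (.R ⟨1,false,false,false,[1,0,0,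
  -1],[0,0,0,1],[0,1,0,-1,0,0,0,0,-1],(⟨1,[(25,0),(8,0),(0,0)]⟩,⟨0,[(26,0)]⟩),(⟨0,[(26,0)]⟩,⟨1,[(25,
  0),(8,0),(0,0)]⟩),⟨3,[(12,0),(1,0),(10,1),(11,0)]⟩,.k,.k,(.r (-1) ⟨5,[(2,0),(1,0),(5,0),(12,2),
  (18,0)]⟩ ⟨6,[(0,0),(2,1),(3,1),(3,0),(6,0),(2,0),(2,1),(1,0)]⟩),.k,(.r (-1) ⟨0,[(2,1),(8,0),(3,0),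
  (26,0)]⟩ ⟨3,[(0,2),(0,0),(1,0),(3,1),(10,0),(2,0),(2,0),(1,3)]⟩),.k,⟨false,1,⟨1,[(2,1),(20,0),(18,
  0)]⟩,⟨0,[(0,1),(25,1),(13,0)]⟩⟩,⟨true,0,⟨0,[(25,0)]⟩,⟨0,[(19,0),(6,1),(1,0)]⟩⟩,⟨false,0,⟨0,[(41,
  0)]⟩,⟨0,[(40,0),(2,0)]⟩⟩,⟨false,0,⟨1,[(0,2),(0,0),(32,1),(0,1)]⟩,⟨2,[(2,5),(5,0),(2,3),(3,3),(2,
  0),(7,5),(9,0),(5,1)]⟩⟩,⟨true,0,⟨0,[(45,0)]⟩,⟨0,[]⟩⟩,⟨false,0,⟨1,[(0,3),(20,1),(0,0),(11,0),(0,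
  0)]⟩,⟨1,[(2,3),(8,1),(3,1),(10,3),(9,0),(5,0)]⟩⟩,[.o ⟨false,0,⟨1,[(0,0),(0,0)]⟩,⟨1,[(23,0),(2,1),
  (9,0)]⟩⟩,.o ⟨false,0,⟨0,[(0,0)]⟩,⟨1,[(23,0),(2,1),(9,0),(8,1)]⟩⟩,.a ⟨true,0,⟨0,[(26,0)]⟩,⟨1,[(25,
  0),(8,0),(0,0)]⟩⟩ ⟨true,0,⟨0,[(2,0)]⟩,⟨0,[(0,0),(25,0),(13,0)]⟩⟩ ⟨false,0,⟨1,[(0,1),(24,0),(8,0),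
  (0,0)]⟩,⟨1,[(23,0),(2,3),(9,0)]⟩⟩,.o ⟨false,0,⟨0,[(19,0),(6,0),(1,0)]⟩,⟨7,[(23,0),(0,0),(0,3),(10,
  1),(5,3)]⟩⟩]⟩)) (.Q [0,0,0,1,0,0,0,0,0,0,0,1] (.p true [0,0,0,1] [] (⟨0,[(25,0)]⟩,⟨1,[(24,0),(8,
  0),(0,0)]⟩) .k 0 (⟨0,[]⟩,⟨0,[]⟩) .k .k) (.R ⟨1,false,false,false,[1,0,0,-1],[1,-1],[0,1,0,-1,0,0,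
  0,0,-1],(⟨1,[(25,0),(8,0),(0,0)]⟩,⟨0,[(26,0)]⟩),(⟨0,[(37,0)]⟩,⟨0,[(38,0)]⟩),⟨3,[(12,0),(1,0),(10,
  1),(11,0)]⟩,.k,.k,(.r (-1) ⟨5,[(2,0),(1,0),(5,0),(12,2),(18,0)]⟩ ⟨5,[(3,2),(0,1),(2,1),(3,1),(6,
  0),(2,0),(2,0)]⟩),(.r 0 ⟨29,[(1,3),(0,3),(0,10),(7,5),(4,1),(1,4),(2,0),(1,10),(1,1)]⟩ ⟨7,[(4,3),
  (18,0),(0,2)]⟩),.k,.k,⟨false,0,⟨5,[(1,1),(0,3),(5,0),(9,0),(6,0),(14,1)]⟩,⟨5,[(3,1),(0,3),(6,3),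
  (3,1),(8,0),(17,2)]⟩⟩,⟨true,0,⟨1,[(25,0),(2,0),(2,0)]⟩,⟨0,[(26,0)]⟩⟩,⟨false,0,⟨0,[(41,0)]⟩,⟨0,
  [(40,0),(2,0)]⟩⟩,⟨false,1,⟨5,[(10,1),(13,2),(0,2),(2,0),(2,0),(4,0),(2,1)]⟩,⟨0,[(1,0),(38,0)]⟩⟩,
  ⟨true,0,⟨0,[(45,0)]⟩,⟨0,[]⟩⟩,⟨false,1,⟨3,[(24,1),(0,1),(10,0),(2,1),(2,0)]⟩,⟨1,[(0,0),(0,0),(0,
  0)]⟩⟩,[.a ⟨true,0,⟨0,[(41,0)]⟩,⟨1,[(0,1),(24,0),(8,0),(0,0)]⟩⟩ ⟨true,0,⟨0,[(2,0)]⟩,⟨0,[(3,0),(0,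
  0),(6,0)]⟩⟩ ⟨false,1,⟨3,[(4,1),(18,0),(1,1),(10,0)]⟩,⟨0,[(0,0)]⟩⟩,.o ⟨false,1,⟨2,[(10,0),(17,0),
  (2,0),(4,0),(6,0)]⟩,⟨0,[(40,0)]⟩⟩,.e ⟨false,0,⟨1,[(1,1),(23,0),(1,0),(1,0),(11,1)]⟩,⟨5,[(3,1),(7,
  1),(12,2),(17,2),(0,1)]⟩⟩ ⟨false,1,⟨23,[(10,7),(12,2),(0,2),(0,11),(2,7),(2,7),(4,1),(6,7)]⟩,⟨0,
  [(0,0)]⟩⟩,.o ⟨false,0,⟨0,[(19,0),(6,0),(1,0)]⟩,⟨7,[(23,0),(0,0),(0,3),(10,1),(5,3)]⟩⟩]⟩) (.R ⟨1,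
  false,false,false,[1,0,0,-1],[1,-1],[0,1,0,-1,0,0,0,0,-1],(⟨1,[(25,0),(8,0),(0,0)]⟩,⟨0,[(26,0)]⟩),
  (⟨0,[(37,0)]⟩,⟨0,[(38,0)]⟩),⟨3,[(12,0),(1,0),(10,1),(11,0)]⟩,.k,.k,(.r (-1) ⟨5,[(2,0),(1,0),(5,0),
  (12,2),(18,0)]⟩ ⟨5,[(3,2),(0,1),(2,1),(3,1),(6,0),(2,0),(2,0)]⟩),(.r 0 ⟨29,[(1,3),(0,3),(0,10),(7,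
  5),(4,1),(1,4),(2,0),(1,10),(1,1)]⟩ ⟨7,[(4,3),(18,0),(0,2)]⟩),.k,.k,⟨false,0,⟨5,[(1,1),(0,3),(5,
  0),(9,0),(6,0),(14,1)]⟩,⟨5,[(3,1),(0,3),(6,3),(3,1),(8,0),(17,2)]⟩⟩,⟨true,0,⟨1,[(25,0),(2,0),(2,
  0)]⟩,⟨0,[(26,0)]⟩⟩,⟨false,0,⟨0,[(41,0)]⟩,⟨0,[(40,0),(2,0)]⟩⟩,⟨false,1,⟨1,[(0,1),(23,0),(18,0)]⟩,
  ⟨0,[(1,0),(38,0)]⟩⟩,⟨true,0,⟨0,[(45,0)]⟩,⟨0,[]⟩⟩,⟨false,1,⟨3,[(24,1),(0,1),(10,0),(2,1),(2,0)]⟩,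
  ⟨2,[(1,1),(0,0),(23,0),(13,0)]⟩⟩,[.e ⟨true,0,⟨0,[(2,0)]⟩,⟨0,[(3,0),(0,0),(6,0)]⟩⟩ ⟨true,0,⟨0,[(0,
  0)]⟩,⟨27,[(3,5),(5,3),(1,7),(6,1),(2,1),(1,4),(0,4),(1,27)]⟩⟩,.o ⟨false,1,⟨2,[(10,0),(17,0),(2,0),
  (4,0),(6,0)]⟩,⟨0,[(40,0)]⟩⟩,.a ⟨true,0,⟨0,[(26,0)]⟩,⟨1,[(25,0),(8,0),(0,0)]⟩⟩ ⟨false,0,⟨1,[(0,0),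
  (0,0),(0,0)]⟩,⟨5,[(3,1),(7,1),(12,2),(17,2),(0,1)]⟩⟩ ⟨true,0,⟨0,[(0,0)]⟩,⟨0,[(26,0),(13,0)]⟩⟩,.o
  ⟨false,0,⟨0,[(19,0),(6,0),(1,0)]⟩,⟨7,[(23,0),(0,0),(0,3),(10,1),(5,3)]⟩⟩]⟩))))))))))

theorem ok14 : chk (cU (-1) false 10) t14 l13 = true := by decide +kernel

noncomputable def t15 : Tre :=
  (.I [0,0,1,1,0,0,0,0,1] (.I [1,0,0,0,0,0,0,1,-1] (.I [1,0,0,1,0,0,0,1,-1] (.Q [0,0,0,-1,0,0,-1,-1,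
  0,0,1,-1] (.p true [0,0,1] [0,0,0,1] (⟨0,[(29,0)]⟩,⟨0,[(28,0)]⟩) .k 2 (⟨0,[(20,0)]⟩,⟨1,[(19,0),(8,
  0),(0,0)]⟩) .k (.r 0 ⟨0,[(0,0),(34,0)]⟩ ⟨3,[(17,0),(0,2),(8,3)]⟩)) (.R ⟨1,false,false,false,[1,0,
  0,-1],[1,-1,-1],[1,0,0,0,0,0,0,0,-1],(⟨1,[(20,0),(8,0),(0,0)]⟩,⟨0,[(21,0)]⟩),(⟨0,[(15,0)]⟩,⟨0,
  [(30,0),(2,0)]⟩),⟨3,[(7,0),(1,0),(10,1),(11,0)]⟩,.k,.k,(.r (-1) ⟨5,[(5,1),(12,2),(18,0),(2,1)]⟩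
  ⟨0,[(3,0)]⟩),(.r 0 ⟨1,[(1,1),(24,0),(0,0)]⟩ ⟨5,[(5,1),(11,0),(1,2),(2,0),(2,0),(2,3),(8,0)]⟩),.k,
  .k,⟨false,0,⟨0,[(1,0)]⟩,⟨5,[(5,1),(11,0),(1,2),(2,0),(2,0),(2,3),(8,0)]⟩⟩,⟨true,0,⟨3,[(11,1),(8,
  1),(5,0),(0,0)]⟩,⟨0,[(14,0),(6,0)]⟩⟩,⟨true,0,⟨0,[]⟩,⟨0,[(40,0)]⟩⟩,⟨false,1,⟨1,[(0,1),(18,0),(18,
  0)]⟩,⟨0,[(1,0),(12,0),(6,0)]⟩⟩,⟨false,1,⟨0,[(35,0),(2,0)]⟩,⟨0,[(36,0)]⟩⟩,⟨false,1,⟨37,[(0,13),(3,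
  1),(5,9),(0,3),(0,15),(6,18),(0,11),(10,3),(6,12)]⟩,⟨0,[(2,0),(11,0),(6,0)]⟩⟩,[.e ⟨true,0,⟨0,[(2,
  0),(25,0)]⟩,⟨0,[(3,0),(32,0)]⟩⟩ ⟨true,0,⟨0,[(0,0)]⟩,⟨1,[(6,0),(6,0),(7,1),(4,0)]⟩⟩,.o ⟨false,1,
  ⟨29,[(5,9),(4,11),(12,15),(1,17),(0,3),(4,6),(6,12)]⟩,⟨0,[(13,0)]⟩⟩,.a ⟨true,0,⟨0,[(21,0)]⟩,⟨1,
  [(20,0),(8,0),(0,0)]⟩⟩ ⟨false,0,⟨0,[(2,0),(7,0)]⟩,⟨3,[(18,0),(0,2)]⟩⟩ ⟨true,0,⟨0,[(0,0)]⟩,⟨0,[(13,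
  0),(7,0)]⟩⟩,.o ⟨false,0,⟨0,[(14,0),(6,0),(1,0)]⟩,⟨7,[(18,0),(0,0),(0,3),(10,1),(5,3)]⟩⟩]⟩) (.R ⟨1,
  false,false,false,[1,0,0,-1],[1,-1,-1],[1,0,0,0,0,0,0,0,-1],(⟨1,[(20,0),(8,0),(0,0)]⟩,⟨0,[(21,
  0)]⟩),(⟨0,[(15,0)]⟩,⟨0,[(30,0),(2,0)]⟩),⟨3,[(7,0),(1,0),(10,1),(11,0)]⟩,.k,.k,(.r (-1) ⟨5,[(5,1),
  (12,2),(18,0),(2,1)]⟩ ⟨0,[(3,0)]⟩),(.r 0 ⟨1,[(1,1),(24,0),(0,0)]⟩ ⟨5,[(5,1),(11,0),(1,2),(2,0),(2,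
  0),(2,3),(8,0)]⟩),.k,.k,⟨false,0,⟨0,[(1,0)]⟩,⟨5,[(5,1),(11,0),(1,2),(2,0),(2,0),(2,3),(8,0)]⟩⟩,
  ⟨true,0,⟨3,[(11,1),(8,1),(5,0),(0,0)]⟩,⟨0,[(14,0),(6,0)]⟩⟩,⟨true,0,⟨0,[]⟩,⟨0,[(40,0)]⟩⟩,⟨false,1,
  ⟨5,[(5,1),(4,2),(8,2),(0,2),(2,2),(1,2),(8,0),(3,0)]⟩,⟨0,[(0,0),(1,0),(25,0)]⟩⟩,⟨false,1,⟨0,[(35,
  0),(2,0)]⟩,⟨0,[(36,0)]⟩⟩,⟨false,1,⟨9,[(5,0),(4,3),(0,1),(0,2),(6,4),(0,4),(1,2),(15,3)]⟩,⟨0,[(2,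
  0),(11,0),(6,0)]⟩⟩,[.a ⟨true,0,⟨0,[(12,0),(23,1)]⟩,⟨1,[(0,1),(19,0),(8,0),(0,0)]⟩⟩ ⟨true,0,⟨0,[(2,
  0),(25,0)]⟩,⟨0,[(3,0),(32,0)]⟩⟩ ⟨false,1,⟨7,[(5,2),(6,0),(7,3),(4,6),(5,1),(5,0),(0,1)]⟩,⟨0,[(0,
  0)]⟩⟩,.o ⟨false,1,⟨29,[(5,9),(4,11),(12,15),(1,17),(0,3),(4,6),(6,12)]⟩,⟨0,[(13,0)]⟩⟩,.e ⟨false,0,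
  ⟨0,[(2,0),(7,0)]⟩,⟨3,[(18,0),(0,2)]⟩⟩ ⟨false,1,⟨29,[(5,9),(4,5),(9,14),(2,12),(1,23),(0,6),(4,0),
  (6,18)]⟩,⟨0,[(0,0)]⟩⟩,.o ⟨false,0,⟨0,[(14,0),(6,0),(1,0)]⟩,⟨7,[(18,0),(0,0),(0,3),(10,1),(5,
  3)]⟩⟩]⟩)) (.Q [0,0,0,-1,0,0,-1,-1,0,0,1,-1] (.p true [0,0,1] [0,0,0,1] (⟨0,[(29,0)]⟩,⟨0,[(28,
  0)]⟩) .k 2 (⟨0,[(20,0)]⟩,⟨1,[(19,0),(8,0),(0,0)]⟩) .k (.x 0 ⟨0,[(13,0),(15,0)]⟩ ⟨3,[(10,1),(6,0),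
  (0,0),(9,3),(1,0),(5,0)]⟩)) (.R ⟨1,false,false,false,[1,0,0,-1],[1,-1,-1],[1,1,0,0,0,0,0,0,-1],
  (⟨1,[(20,0),(8,0),(0,0)]⟩,⟨0,[(21,0)]⟩),(⟨0,[(15,0)]⟩,⟨0,[(30,0),(2,0)]⟩),⟨3,[(7,0),(1,0),(10,1),
  (11,0)]⟩,.k,.k,(.r (-1) ⟨5,[(5,1),(12,2),(18,0),(2,1)]⟩ ⟨0,[(3,0)]⟩),(.r 0 ⟨5,[(2,5),(3,1),(5,1),
  (13,2),(0,0),(7,1)]⟩ ⟨3,[(1,3),(16,0),(0,0),(17,1)]⟩),.k,.k,⟨false,0,⟨0,[(2,0),(32,0)]⟩,⟨5,[(5,1),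
  (4,3),(8,2),(8,1),(8,0)]⟩⟩,⟨true,0,⟨3,[(11,1),(8,1),(5,0),(0,0)]⟩,⟨0,[(14,0),(6,0)]⟩⟩,⟨false,0,⟨0,
  []⟩,⟨3,[(18,0),(0,0),(18,1)]⟩⟩,⟨false,1,⟨1,[(0,1),(18,0),(18,0)]⟩,⟨0,[(2,0),(7,0),(2,0),(7,0)]⟩⟩,
  ⟨true,0,⟨0,[(35,0)]⟩,⟨0,[(36,0)]⟩⟩,⟨false,1,⟨37,[(0,13),(3,1),(5,9),(0,3),(0,15),(6,18),(0,11),
  (10,3),(6,12)]⟩,⟨0,[(2,0),(11,0),(6,0)]⟩⟩,[.e ⟨true,0,⟨1,[(2,1),(14,0),(4,0),(2,0)]⟩,⟨0,[(1,0),(4,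
  0)]⟩⟩ ⟨true,0,⟨0,[(0,0)]⟩,⟨1,[(6,0),(6,0),(7,1),(4,0)]⟩⟩,.o ⟨false,1,⟨9,[(1,3),(3,1),(4,3),(0,3),
  (6,1),(6,1),(5,2),(6,2)]⟩,⟨0,[(13,0)]⟩⟩,.a ⟨true,0,⟨0,[(21,0)]⟩,⟨1,[(20,0),(8,0),(0,0)]⟩⟩ ⟨false,
  0,⟨0,[(2,0),(25,0)]⟩,⟨1,[(19,0),(18,0)]⟩⟩ ⟨true,0,⟨0,[(0,0)]⟩,⟨0,[(13,0),(7,0)]⟩⟩,.o ⟨false,0,⟨0,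
  [(14,0),(6,0),(1,0)]⟩,⟨7,[(18,0),(0,0),(0,3),(10,1),(5,3)]⟩⟩]⟩) (.R ⟨1,false,false,false,[1,0,0,
  -1],[1,-1,-1],[1,1,0,0,0,0,0,0,-1],(⟨1,[(20,0),(8,0),(0,0)]⟩,⟨0,[(21,0)]⟩),(⟨0,[(15,0)]⟩,⟨0,[(30,
  0),(2,0)]⟩),⟨3,[(7,0),(1,0),(10,1),(11,0)]⟩,.k,.k,(.r (-1) ⟨5,[(5,1),(12,2),(18,0),(2,1)]⟩ ⟨0,[(3,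
  0)]⟩),(.r 0 ⟨5,[(2,5),(3,1),(5,1),(13,2),(0,0),(7,1)]⟩ ⟨3,[(1,3),(16,0),(0,0),(17,1)]⟩),.k,.k,
  ⟨false,0,⟨0,[(2,0),(32,0)]⟩,⟨5,[(5,1),(4,3),(8,2),(8,1),(8,0)]⟩⟩,⟨true,0,⟨3,[(11,1),(8,1),(5,0),
  (0,0)]⟩,⟨0,[(14,0),(6,0)]⟩⟩,⟨false,0,⟨0,[]⟩,⟨3,[(18,0),(0,0),(18,1)]⟩⟩,⟨false,1,⟨13,[(1,7),(3,1),
  (5,3),(7,2),(0,6),(1,2),(2,2),(12,8)]⟩,⟨0,[(0,0),(1,0),(25,0)]⟩⟩,⟨true,0,⟨0,[(35,0)]⟩,⟨0,[(36,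
  0)]⟩⟩,⟨false,1,⟨9,[(5,0),(4,3),(0,1),(0,2),(6,4),(0,4),(1,2),(15,3)]⟩,⟨0,[(2,0),(11,0),(6,0)]⟩⟩,
  [.a ⟨true,0,⟨0,[(12,0),(23,1)]⟩,⟨1,[(0,1),(19,0),(8,0),(0,0)]⟩⟩ ⟨true,0,⟨1,[(2,1),(14,0),(4,0),(2,
  0)]⟩,⟨0,[(1,0),(4,0)]⟩⟩ ⟨false,1,⟨7,[(5,2),(6,0),(7,3),(4,6),(5,1),(5,0),(0,1)]⟩,⟨0,[(0,0)]⟩⟩,.o
  ⟨false,1,⟨9,[(1,3),(3,1),(4,3),(0,3),(6,1),(6,1),(5,2),(6,2)]⟩,⟨0,[(13,0)]⟩⟩,.e ⟨false,0,⟨0,[(2,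
  0),(25,0)]⟩,⟨1,[(19,0),(18,0)]⟩⟩ ⟨false,1,⟨11,[(1,5),(3,1),(4,1),(0,3),(6,2),(1,5),(4,3),(5,0),(6,
  5)]⟩,⟨0,[(0,0)]⟩⟩,.o ⟨false,0,⟨0,[(14,0),(6,0),(1,0)]⟩,⟨7,[(18,0),(0,0),(0,3),(10,1),(5,
  3)]⟩⟩]⟩))) (.Q [0,-1,0,0,0,0,0,0,1,1,0,-1] (.p false [0,0,0,1] [1] (⟨0,[(19,0)]⟩,⟨1,[(18,0),(8,0),
  (0,0)]⟩) .k 1 (⟨0,[]⟩,⟨0,[]⟩) .k .k) (.Q [0,1,0,0,0,0,0,0,-1,0,0,1] (.p true [0,0,0,1] [] (⟨0,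
  [(20,0)]⟩,⟨1,[(19,0),(8,0),(0,0)]⟩) .k 0 (⟨0,[]⟩,⟨0,[]⟩) .k .k) (.K ⟨1,[0,0,0,1],0,0,(⟨0,[(21,
  0)]⟩,⟨1,[(0,0),(0,0),(18,0)]⟩),.k,(.r (-1) ⟨5,[(5,1),(13,2),(17,0),(2,1)]⟩ ⟨1,[(0,1),(5,0),(3,1),
  (2,0),(6,0),(2,0)]⟩),(.r 0 ⟨0,[(3,0)]⟩ ⟨5,[(5,1),(12,2),(18,0),(2,1)]⟩),.k,.k,[⟨1,[(21,1),(4,0),
  (0,0)]⟩,⟨1,[(20,0),(2,0),(2,0)]⟩,⟨0,[(0,0)]⟩,⟨0,[(1,0)]⟩]⟩) (.Q [0,0,0,0,0,0,1,1,0,1,-1,-1] (.p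
  false [0,0,1] [1,0,0,-1] (⟨0,[(30,0)]⟩,⟨0,[(29,0)]⟩) .k 2 (⟨1,[(20,0),(8,0),(0,0)]⟩,⟨0,[(21,0)]⟩)
  .k (.x 0 ⟨0,[(14,0),(15,0)]⟩ ⟨3,[(11,1),(6,0),(0,0),(9,3),(1,0),(5,0)]⟩)) (.R ⟨1,false,false,true,
  [1,0,0,-1],[0,0,1],[0,0,0,-1,0,0,0,0,-1],(⟨1,[(21,0),(8,0),(0,0)]⟩,⟨0,[(22,0)]⟩),(⟨0,[(31,0)]⟩,⟨0,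
  [(30,0)]⟩),⟨3,[(8,0),(1,0),(10,1),(11,0)]⟩,.k,.k,(.r (-1) ⟨5,[(6,1),(12,2),(18,0),(2,1)]⟩ ⟨0,[(4,
  0)]⟩),.k,(.r (-1) ⟨5,[(6,1),(11,0),(0,2),(3,0),(2,0),(2,3),(8,0)]⟩ ⟨4,[(1,0),(0,1),(1,1),(4,0),(2,
  1),(1,2),(7,2),(2,0)]⟩),.k,⟨false,1,⟨5,[(6,1),(4,3),(7,2),(9,1),(8,0)]⟩,⟨0,[(1,0),(15,0),(4,0),(2,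
  0)]⟩⟩,⟨true,0,⟨1,[(18,0),(2,0)]⟩,⟨0,[(22,0),(1,0)]⟩⟩,⟨true,0,⟨0,[(37,0)]⟩,⟨0,[(36,0)]⟩⟩,⟨false,0,
  ⟨0,[(2,0),(22,0)]⟩,⟨33,[(5,3),(0,1),(4,27),(0,11),(0,9),(5,16),(2,33),(9,10)]⟩⟩,⟨false,1,⟨3,[(19,
  0),(0,0),(18,1)]⟩,⟨0,[]⟩⟩,⟨false,0,⟨0,[(2,0),(11,0)]⟩,⟨5,[(6,1),(4,4),(0,0),(6,2),(2,5),(1,2),(1,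
  0),(5,0)]⟩⟩,[.o ⟨false,0,⟨0,[(25,0)]⟩,⟨0,[(23,0),(15,0)]⟩⟩,.a ⟨true,0,⟨0,[(0,0),(21,0)]⟩,⟨0,[(13,
  0),(23,0)]⟩⟩ ⟨false,1,⟨1,[(5,0),(5,0),(7,0),(17,0)]⟩,⟨2,[(1,0),(1,1),(10,0),(2,1),(4,0),(2,0)]⟩⟩
  ⟨true,0,⟨0,[(0,0)]⟩,⟨0,[(22,0),(1,0),(4,0)]⟩⟩,.e ⟨false,1,⟨11,[(6,3),(12,5),(7,2),(0,2),(6,1),(3,
  1)]⟩,⟨3,[(1,2),(1,0),(9,0),(0,1),(2,0),(4,2)]⟩⟩ ⟨false,0,⟨0,[(0,0)]⟩,⟨0,[(22,0),(0,0),(15,0)]⟩⟩,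
  .o ⟨false,0,⟨0,[(15,0),(6,0),(1,0)]⟩,⟨7,[(19,0),(0,0),(0,3),(10,1),(5,3)]⟩⟩]⟩) (.R ⟨1,false,false,
  true,[1,0,0,-1],[0,0,1],[0,0,0,-1,0,0,0,0,-1],(⟨1,[(21,0),(8,0),(0,0)]⟩,⟨0,[(22,0)]⟩),(⟨0,[(31,
  0)]⟩,⟨0,[(30,0)]⟩),⟨3,[(8,0),(1,0),(10,1),(11,0)]⟩,.k,.k,(.r (-1) ⟨5,[(6,1),(12,2),(18,0),(2,1)]⟩
  ⟨0,[(4,0)]⟩),.k,(.r (-1) ⟨5,[(6,1),(11,0),(0,2),(3,0),(2,0),(2,3),(8,0)]⟩ ⟨4,[(1,0),(0,1),(1,1),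
  (4,0),(2,1),(1,2),(7,2),(2,0)]⟩),.k,⟨false,1,⟨5,[(6,1),(4,3),(7,2),(9,1),(8,0)]⟩,⟨0,[(1,0),(15,0),
  (4,0),(2,0)]⟩⟩,⟨true,0,⟨1,[(18,0),(2,0)]⟩,⟨0,[(22,0),(1,0)]⟩⟩,⟨true,0,⟨0,[(37,0)]⟩,⟨0,[(36,0)]⟩⟩,
  ⟨false,0,⟨0,[(2,0),(22,0)]⟩,⟨1,[(0,1),(18,0),(19,0)]⟩⟩,⟨false,1,⟨3,[(19,0),(0,0),(18,1)]⟩,⟨0,[]⟩⟩,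
  ⟨false,0,⟨0,[(2,0),(11,0)]⟩,⟨11,[(0,11),(5,3),(12,5),(7,2),(0,2),(6,1),(3,1)]⟩⟩,[.o ⟨false,0,⟨0,
  [(25,0)]⟩,⟨0,[(23,0),(15,0)]⟩⟩,.e ⟨false,1,⟨1,[(5,0),(5,0),(7,0),(17,0)]⟩,⟨2,[(1,0),(1,1),(10,0),
  (2,1),(4,0),(2,0)]⟩⟩ ⟨false,1,⟨3,[(5,1),(8,1),(3,0),(0,0),(0,0),(0,1),(8,0),(0,0)]⟩,⟨0,[(0,0)]⟩⟩,
  .a ⟨true,0,⟨0,[(22,0)]⟩,⟨1,[(21,0),(8,0),(0,0)]⟩⟩ ⟨false,1,⟨11,[(6,3),(12,5),(7,2),(0,2),(6,1),(3,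
  1)]⟩,⟨3,[(1,2),(1,0),(9,0),(0,1),(2,0),(4,2)]⟩⟩ ⟨true,0,⟨1,[(21,0),(3,1),(4,0),(0,0)]⟩,⟨0,[(0,
  0)]⟩⟩,.o ⟨false,0,⟨1,[(0,1),(8,0),(15,0),(1,0)]⟩,⟨7,[(19,0),(0,0),(0,3),(10,1),(5,3)]⟩⟩]⟩))) (.I
  [0,1,0,0,0,0,0,0,1] (.K ⟨2,[1,0,0,-1],0,0,(⟨1,[(20,0),(8,0),(0,0)]⟩,⟨0,[(21,0)]⟩),.k,(.r (-1) ⟨5,
  [(5,1),(12,2),(18,0),(2,1)]⟩ ⟨0,[(3,0)]⟩),(.r 0 ⟨7,[(1,7),(4,3),(5,3),(4,2),(2,3),(6,1),(1,0),(0,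
  0),(3,1)]⟩ ⟨11,[(0,3),(4,3),(12,0),(0,4),(17,1)]⟩),.k,.k,[⟨1,[(17,0),(2,0)]⟩,⟨0,[(14,0),(6,0)]⟩,
  ⟨1,[(17,0),(2,0),(6,1)]⟩,⟨0,[(0,0),(0,0),(32,0)]⟩,⟨1,[(0,1),(19,0),(8,0),(0,0)]⟩,⟨0,[(1,0)]⟩]⟩)
  (.Q [0,0,0,-1,0,0,-1,-1,0,0,1,-1] (.p true [0,0,1] [0,0,0,1] (⟨0,[(30,0)]⟩,⟨0,[(29,0)]⟩) .k 2 (⟨0,
  [(21,0)]⟩,⟨1,[(20,0),(8,0),(0,0)]⟩) .k (.r (-1) ⟨7,[(4,1),(3,2),(7,1),(1,4),(0,0),(4,2),(2,0)]⟩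
  ⟨0,[(2,0)]⟩)) (.R ⟨1,false,false,false,[1,0,0,-1],[1,-1,-1],[1,1,0,0,0,0,0,0,-1],(⟨1,[(21,0),(8,
  0),(0,0)]⟩,⟨0,[(22,0)]⟩),(⟨0,[(16,0)]⟩,⟨0,[(31,0),(2,0)]⟩),⟨3,[(8,0),(1,0),(10,1),(11,0)]⟩,.k,.k,
  (.r (-1) ⟨5,[(6,1),(12,2),(18,0),(2,1)]⟩ ⟨0,[(4,0)]⟩),(.r 0 ⟨0,[(1,0),(12,0),(13,0)]⟩ ⟨11,[(3,1),
  (2,3),(11,1),(1,4),(5,3),(2,5),(2,0),(5,1)]⟩),.k,.k,⟨false,0,⟨0,[(1,0),(15,0),(7,0)]⟩,⟨5,[(6,1),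
  (4,3),(8,2),(8,1),(8,0)]⟩⟩,⟨true,0,⟨3,[(12,1),(8,1),(5,0),(0,0)]⟩,⟨0,[(15,0),(6,0)]⟩⟩,⟨false,0,⟨0,
  []⟩,⟨3,[(19,0),(0,0),(18,1)]⟩⟩,⟨false,1,⟨1,[(0,1),(19,0),(18,0)]⟩,⟨0,[(1,0),(12,0),(7,0)]⟩⟩,⟨true,
  0,⟨0,[(36,0)]⟩,⟨0,[(37,0)]⟩⟩,⟨false,1,⟨37,[(0,13),(4,1),(5,9),(0,3),(0,15),(6,18),(0,11),(10,3),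
  (6,12)]⟩,⟨0,[(1,0),(20,0),(2,0)]⟩⟩,[.e ⟨true,0,⟨1,[(2,1),(18,0),(8,0),(0,0)]⟩,⟨0,[(3,0),(5,0)]⟩⟩
  ⟨true,0,⟨0,[(0,0)]⟩,⟨1,[(7,0),(6,0),(7,1),(4,0)]⟩⟩,.o ⟨false,1,⟨29,[(6,9),(4,11),(12,15),(1,17),
  (0,3),(4,6),(6,12)]⟩,⟨0,[(14,0)]⟩⟩,.a ⟨true,0,⟨0,[(22,0)]⟩,⟨1,[(21,0),(8,0),(0,0)]⟩⟩ ⟨false,0,⟨3,
  [(1,1),(0,1),(18,0),(8,0),(0,0)]⟩,⟨1,[(20,0),(18,0)]⟩⟩ ⟨true,0,⟨0,[(0,0)]⟩,⟨0,[(14,0),(7,0)]⟩⟩,.o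
  ⟨false,0,⟨0,[(15,0),(6,0),(1,0)]⟩,⟨7,[(19,0),(0,0),(0,3),(10,1),(5,3)]⟩⟩]⟩) (.R ⟨1,false,false,
  false,[1,0,0,-1],[1,-1,-1],[1,1,0,0,0,0,0,0,-1],(⟨1,[(21,0),(8,0),(0,0)]⟩,⟨0,[(22,0)]⟩),(⟨0,[(16,
  0)]⟩,⟨0,[(31,0),(2,0)]⟩),⟨3,[(8,0),(1,0),(10,1),(11,0)]⟩,.k,.k,(.r (-1) ⟨5,[(6,1),(12,2),(18,0),
  (2,1)]⟩ ⟨0,[(4,0)]⟩),(.r 0 ⟨0,[(1,0),(12,0),(13,0)]⟩ ⟨11,[(3,1),(2,3),(11,1),(1,4),(5,3),(2,5),(2,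
  0),(5,1)]⟩),.k,.k,⟨false,0,⟨0,[(1,0),(15,0),(7,0)]⟩,⟨5,[(6,1),(4,3),(8,2),(8,1),(8,0)]⟩⟩,⟨true,0,
  ⟨3,[(12,1),(8,1),(5,0),(0,0)]⟩,⟨0,[(15,0),(6,0)]⟩⟩,⟨false,0,⟨0,[]⟩,⟨3,[(19,0),(0,0),(18,1)]⟩⟩,
  ⟨false,1,⟨5,[(6,1),(4,2),(8,2),(0,2),(2,2),(1,2),(8,0),(3,0)]⟩,⟨2,[(0,1),(0,1),(0,0),(11,0),(15,
  0),(0,0)]⟩⟩,⟨true,0,⟨0,[(36,0)]⟩,⟨0,[(37,0)]⟩⟩,⟨false,1,⟨9,[(6,0),(4,3),(0,1),(0,2),(6,4),(0,4),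
  (1,2),(15,3)]⟩,⟨0,[(1,0),(20,0),(2,0)]⟩⟩,[.a ⟨true,0,⟨0,[(13,0),(23,1)]⟩,⟨1,[(0,1),(20,0),(8,0),
  (0,0)]⟩⟩ ⟨true,0,⟨1,[(2,1),(18,0),(8,0),(0,0)]⟩,⟨0,[(3,0),(5,0)]⟩⟩ ⟨false,1,⟨7,[(6,2),(6,0),(7,3),
  (4,6),(5,1),(5,0),(0,1)]⟩,⟨0,[(0,0)]⟩⟩,.o ⟨false,1,⟨29,[(6,9),(4,11),(12,15),(1,17),(0,3),(4,6),
  (6,12)]⟩,⟨0,[(14,0)]⟩⟩,.e ⟨false,0,⟨3,[(1,1),(0,1),(18,0),(8,0),(0,0)]⟩,⟨1,[(20,0),(18,0)]⟩⟩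
  ⟨false,1,⟨29,[(6,9),(4,5),(9,14),(2,12),(1,23),(0,6),(4,0),(6,18)]⟩,⟨0,[(0,0)]⟩⟩,.o ⟨false,0,⟨4,
  [(0,1),(1,1),(0,1),(18,0),(1,2),(2,0),(7,0),(1,1)]⟩,⟨7,[(19,0),(0,0),(0,3),(10,1),(5,3)]⟩⟩]⟩)))))
  (.Q [0,0,0,-2,0,0,1,1,0,0,-1] (.p false [0,0,1] [] (⟨0,[(27,0)]⟩,⟨0,[(26,0)]⟩) .k 0 (⟨0,[]⟩,⟨0,
  []⟩) .k .k) (.Q [0,0,0,1,0,0,0,0,0,1] (.pp false [-1,1]) (.R ⟨1,false,false,true,[0,0,1],[0,1],[0,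
  1,1],(⟨0,[(29,0)]⟩,⟨0,[(28,0)]⟩),(⟨0,[(32,0)]⟩,⟨0,[(31,0)]⟩),⟨0,[(6,0)]⟩,.k,.k,.k,.k,(.r (-1) ⟨4,
  [(1,0),(1,1),(0,2),(10,2),(7,1)]⟩ ⟨5,[(5,1),(5,7),(13,8),(0,0),(7,1)]⟩),.k,⟨true,0,⟨0,[(35,0)]⟩,
  ⟨5,[(5,1),(5,1),(13,2),(0,0),(7,1)]⟩⟩,⟨false,1,⟨2,[(3,1),(7,0),(3,0),(8,0),(11,0)]⟩,⟨0,[(25,0)]⟩⟩,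
  ⟨false,0,⟨3,[(9,0),(14,2),(0,2),(7,0)]⟩,⟨7,[(3,3),(1,3),(11,0),(0,0),(17,1)]⟩⟩,⟨false,0,⟨0,[(11,
  0)]⟩,⟨5,[(1,3),(10,1),(4,0),(0,0),(18,3)]⟩⟩,⟨false,0,⟨0,[(11,0),(13,0)]⟩,⟨12,[(1,0),(1,7),(0,0),
  (2,3),(9,1),(0,1),(7,0)]⟩⟩,⟨true,0,⟨0,[(11,0),(22,0)]⟩,⟨0,[(1,0)]⟩⟩,[.o ⟨false,0,⟨0,[(34,0)]⟩,⟨2,
  [(4,0),(17,0),(2,0),(4,0),(6,0)]⟩⟩,.a ⟨true,0,⟨0,[(0,0)]⟩,⟨0,[(35,0)]⟩⟩ ⟨true,0,⟨1,[(25,0),(0,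
  0)]⟩,⟨0,[]⟩⟩ ⟨false,1,⟨1,[(15,1),(20,0),(0,0)]⟩,⟨1,[(1,0),(11,0),(13,0)]⟩⟩,.o ⟨false,0,⟨0,[(13,
  0)]⟩,⟨3,[(10,1),(6,0),(0,0),(11,0),(5,0)]⟩⟩,.o ⟨false,0,⟨0,[(25,0)]⟩,⟨3,[(10,1),(19,0),(5,
  2)]⟩⟩]⟩) (.R ⟨1,false,false,false,[1,0,0,-1],[1,-1],[1,0,0,0,0,0,0,0,-1],(⟨1,[(19,0),(8,0),(0,
  0)]⟩,⟨0,[(20,0)]⟩),(⟨0,[(31,0)]⟩,⟨0,[(32,0)]⟩),⟨3,[(6,0),(1,0),(10,1),(11,0)]⟩,.k,.k,(.x 0 ⟨2,[(6,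
  0),(1,0),(1,0),(14,1)]⟩ ⟨3,[(17,0),(0,0),(13,3),(3,1)]⟩),(.r 0 ⟨2,[(2,2),(2,1),(5,1),(13,2),(0,0),
  (7,1)]⟩ ⟨5,[(4,1),(13,2),(17,0),(2,1)]⟩),.k,.k,⟨false,0,⟨1,[(2,1),(2,0),(5,1),(0,0),(12,0)]⟩,⟨5,
  [(4,1),(13,2),(17,0),(2,1)]⟩⟩,⟨true,0,⟨1,[(19,0),(2,0),(2,0)]⟩,⟨0,[(20,0)]⟩⟩,⟨true,0,⟨0,[]⟩,⟨0,
  [(39,0)]⟩⟩,⟨false,1,⟨5,[(4,1),(13,2),(0,2),(2,0),(2,0),(4,0),(2,1)]⟩,⟨1,[(2,1),(2,0),(5,1),(0,0),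
  (7,1),(4,0)]⟩⟩,⟨false,1,⟨0,[(34,0),(2,0)]⟩,⟨0,[(35,0)]⟩⟩,⟨false,1,⟨7,[(3,0),(1,0),(3,1),(8,3),(0,
  3),(10,1),(2,0),(3,0)]⟩,⟨5,[(2,5),(2,1),(5,1),(8,5),(4,2),(0,0),(7,1)]⟩⟩,[.o ⟨false,0,⟨0,[(0,0)]⟩,
  ⟨3,[(17,0),(0,0),(15,3),(2,1)]⟩⟩,.o ⟨false,1,⟨2,[(4,0),(17,0),(2,0),(4,0),(6,0)]⟩,⟨0,[(34,0)]⟩⟩,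
  .a ⟨true,0,⟨0,[(20,0)]⟩,⟨1,[(19,0),(8,0),(0,0)]⟩⟩ ⟨false,0,⟨2,[(2,2),(2,1),(3,0),(1,0),(13,0)]⟩,
  ⟨3,[(17,0),(0,2)]⟩⟩ ⟨true,0,⟨1,[(0,0),(18,0),(15,0)]⟩,⟨0,[(20,0),(13,0)]⟩⟩,.o ⟨false,0,⟨2,[(0,0),
  (8,0),(2,0),(7,2),(1,1),(2,0)]⟩,⟨7,[(17,0),(0,0),(0,3),(10,1),(5,3)]⟩⟩]⟩)) (.Q [0,0,0,0,0,-1,0,0,
  0,0,0,1] (.p true [0,0,0,1] [] (⟨0,[(19,0)]⟩,⟨1,[(18,0),(8,0),(0,0)]⟩) .k 0 (⟨0,[]⟩,⟨0,[]⟩) .k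
  .k) (.Q [0,0,0,0,0,0,-1,-1,0,0,1,-1] (.p true [0,0,1] [0,0,0,1] (⟨0,[(29,0)]⟩,⟨0,[(28,0)]⟩) .k 2
  (⟨0,[(20,0)]⟩,⟨1,[(19,0),(8,0),(0,0)]⟩) .k (.r 0 ⟨1,[(2,1),(2,0),(6,0),(13,0)]⟩ ⟨3,[(17,0),(0,2),
  (8,3)]⟩)) (.R ⟨1,false,false,true,[0,0,0,1],[0,0,1],[0,1,0,-1,0,0,0,0,1],(⟨0,[(21,0)]⟩,⟨1,[(20,0),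
  (8,0),(0,0)]⟩),(⟨0,[(30,0)]⟩,⟨0,[(29,0)]⟩),⟨0,[(1,0)]⟩,.k,.k,(.r (-1) ⟨5,[(5,1),(13,2),(17,0),(2,
  1)]⟩ ⟨1,[(2,0),(0,1),(2,0),(19,1),(0,0),(7,0)]⟩),.k,(.r (-1) ⟨5,[(5,1),(11,0),(1,2),(2,0),(2,0),
  (2,3),(8,0)]⟩ ⟨1,[(3,1),(2,1),(19,0),(0,0),(7,1)]⟩),.k,⟨false,1,⟨5,[(5,1),(11,0),(1,2),(2,0),(2,
  0),(2,3),(8,0)]⟩,⟨0,[(3,0),(2,0),(28,0)]⟩⟩,⟨true,0,⟨0,[(14,0),(6,0)]⟩,⟨3,[(11,1),(8,1),(5,0),(0,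
  0)]⟩⟩,⟨false,0,⟨0,[(36,0)]⟩,⟨5,[(2,1),(10,1),(4,0),(0,0),(18,3)]⟩⟩,⟨false,0,⟨1,[(3,1),(2,0),(6,0),
  (7,1),(4,0)]⟩,⟨1,[(0,1),(18,0),(18,0)]⟩⟩,⟨true,0,⟨0,[(40,0)]⟩,⟨0,[]⟩⟩,⟨false,0,⟨7,[(2,1),(0,7),(2,
  4),(3,1),(2,6),(7,7),(4,2)]⟩,⟨11,[(0,11),(4,3),(13,5),(6,2),(0,2),(6,1),(3,1)]⟩⟩,[.o ⟨false,0,⟨0,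
  [(24,0)]⟩,⟨0,[(22,0),(15,0)]⟩⟩,.e ⟨false,1,⟨5,[(5,1),(13,2),(17,0),(2,1)]⟩,⟨1,[(2,0),(0,1),(2,0),
  (19,0),(8,0)]⟩⟩ ⟨false,1,⟨15,[(4,7),(8,7),(3,3),(0,2),(0,2),(1,15),(9,1)]⟩,⟨0,[(0,0)]⟩⟩,.a ⟨true,
  0,⟨1,[(20,0),(8,0),(0,0)]⟩,⟨0,[(21,0)]⟩⟩ ⟨false,1,⟨11,[(5,3),(12,0),(0,6),(6,3),(0,3),(12,3)]⟩,⟨3,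
  [(2,1),(0,3),(2,2),(3,1),(2,0),(12,0)]⟩⟩ ⟨true,0,⟨0,[(21,0),(2,0)]⟩,⟨0,[(0,0)]⟩⟩,.o ⟨false,0,⟨1,
  [(20,0),(2,0),(2,0)]⟩,⟨1,[(21,1),(9,0),(5,0)]⟩⟩]⟩) (.R ⟨1,false,false,true,[0,0,0,1],[0,0,1],[0,1,
  0,-1,0,0,0,0,1],(⟨0,[(21,0)]⟩,⟨1,[(20,0),(8,0),(0,0)]⟩),(⟨0,[(30,0)]⟩,⟨0,[(29,0)]⟩),⟨0,[(1,0)]⟩,
  .k,.k,(.r (-1) ⟨5,[(5,1),(13,2),(17,0),(2,1)]⟩ ⟨1,[(2,0),(0,1),(2,0),(19,1),(0,0),(7,0)]⟩),.k,(.r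
  (-1) ⟨5,[(5,1),(11,0),(1,2),(2,0),(2,0),(2,3),(8,0)]⟩ ⟨1,[(3,1),(2,1),(19,0),(0,0),(7,1)]⟩),.k,
  ⟨false,1,⟨5,[(5,1),(11,0),(1,2),(2,0),(2,0),(2,3),(8,0)]⟩,⟨0,[(3,0),(2,0),(28,0)]⟩⟩,⟨true,0,⟨0,
  [(0,0),(27,0)]⟩,⟨3,[(11,1),(8,1),(5,0),(0,0)]⟩⟩,⟨false,0,⟨0,[(36,0)]⟩,⟨5,[(2,1),(10,1),(4,0),(0,
  0),(18,3)]⟩⟩,⟨false,0,⟨1,[(0,0),(2,1),(2,0),(14,0),(4,0),(8,0)]⟩,⟨9,[(5,0),(4,3),(0,1),(0,2),(6,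
  4),(0,4),(1,2),(15,3)]⟩⟩,⟨true,0,⟨0,[(40,0)]⟩,⟨0,[]⟩⟩,⟨false,0,⟨1,[(0,1),(1,0),(0,1),(2,0),(19,0),
  (8,0)]⟩,⟨5,[(5,1),(4,2),(8,2),(0,2),(2,2),(1,2),(8,0),(3,0)]⟩⟩,[.o ⟨false,0,⟨0,[(24,0)]⟩,⟨0,[(22,
  0),(15,0)]⟩⟩,.a ⟨true,0,⟨1,[(0,1),(19,0),(8,0),(0,0)]⟩,⟨0,[(12,0),(23,0)]⟩⟩ ⟨false,1,⟨5,[(5,1),
  (13,2),(17,0),(2,1)]⟩,⟨1,[(2,0),(0,1),(2,0),(19,0),(8,0)]⟩⟩ ⟨true,0,⟨0,[(0,0)]⟩,⟨3,[(10,0),(9,1),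
  (2,1),(1,2),(0,0),(7,0)]⟩⟩,.e ⟨false,1,⟨11,[(5,3),(12,0),(0,6),(6,3),(0,3),(12,3)]⟩,⟨3,[(2,1),(0,
  3),(2,2),(3,1),(2,0),(12,0)]⟩⟩ ⟨false,0,⟨0,[(0,0)]⟩,⟨1,[(20,0),(1,0),(2,0),(12,1)]⟩⟩,.o ⟨false,0,
  ⟨1,[(20,0),(2,0),(2,0)]⟩,⟨1,[(21,1),(9,0),(5,0)]⟩⟩]⟩)) (.Q [0,0,0,0,0,0,-1,-1,0,0,1,-1] (.p true
  [0,0,1] [0,0,0,1] (⟨0,[(29,0)]⟩,⟨0,[(28,0)]⟩) .k 2 (⟨0,[(20,0)]⟩,⟨1,[(19,0),(8,0),(0,0)]⟩) .k (.r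
  0 ⟨1,[(2,1),(2,0),(6,0),(13,0)]⟩ ⟨3,[(17,0),(0,2),(8,3)]⟩)) (.R ⟨0,false,false,true,[0,0,0,1],[0,
  0,1],[0,1,0,0,0,0,0,0,1],(⟨0,[(21,0)]⟩,⟨1,[(20,0),(8,0),(0,0)]⟩),(⟨0,[(30,0)]⟩,⟨0,[(29,0)]⟩),⟨0,
  [(1,0)]⟩,.k,.k,(.r (-1) ⟨5,[(5,1),(13,2),(17,0),(2,1)]⟩ ⟨1,[(2,0),(0,1),(2,0),(19,1),(0,0),(7,
  0)]⟩),.k,.k,.k,⟨false,1,⟨1,[(19,0),(8,1),(8,0)]⟩,⟨1,[(3,1),(2,0),(6,0),(13,0)]⟩⟩,⟨true,0,⟨0,[(14,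
  0),(6,0)]⟩,⟨3,[(11,1),(8,1),(5,0),(0,0)]⟩⟩,⟨true,0,⟨0,[(40,0)]⟩,⟨0,[]⟩⟩,⟨false,0,⟨1,[(3,1),(2,0),
  (6,0),(7,1),(4,0)]⟩,⟨1,[(0,1),(18,0),(18,0)]⟩⟩,⟨false,0,⟨0,[]⟩,⟨0,[]⟩⟩,⟨false,0,⟨0,[]⟩,⟨0,[]⟩⟩,
  [.o ⟨false,0,⟨0,[(24,0)]⟩,⟨0,[(22,0),(15,0)]⟩⟩,.e ⟨false,1,⟨1,[(19,0),(17,0)]⟩,⟨3,[(2,0),(0,3),(2,
  0),(19,1),(0,0),(7,0)]⟩⟩ ⟨false,1,⟨15,[(4,7),(8,7),(3,3),(0,2),(0,2),(1,15),(9,1)]⟩,⟨0,[(0,0)]⟩⟩,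
  .a ⟨true,0,⟨1,[(20,0),(8,0),(0,0)]⟩,⟨0,[(21,0)]⟩⟩ ⟨false,1,⟨3,[(18,0),(0,2)]⟩,⟨2,[(2,0),(0,2),(2,
  0),(19,0),(7,0)]⟩⟩ ⟨true,0,⟨0,[(21,0),(2,0)]⟩,⟨0,[(0,0)]⟩⟩,.o ⟨false,0,⟨1,[(20,0),(2,0),(2,0)]⟩,
  ⟨1,[(21,1),(9,0),(5,0)]⟩⟩]⟩) (.R ⟨0,false,false,true,[0,0,0,1],[0,0,1],[0,1,0,0,0,0,0,0,1],(⟨0,
  [(21,0)]⟩,⟨1,[(20,0),(8,0),(0,0)]⟩),(⟨0,[(30,0)]⟩,⟨0,[(29,0)]⟩),⟨0,[(1,0)]⟩,.k,.k,(.r (-1) ⟨5,[(5,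
  1),(13,2),(17,0),(2,1)]⟩ ⟨1,[(2,0),(0,1),(2,0),(19,1),(0,0),(7,0)]⟩),.k,.k,.k,⟨false,1,⟨1,[(19,0),
  (8,1),(8,0)]⟩,⟨1,[(3,1),(2,0),(6,0),(13,0)]⟩⟩,⟨true,0,⟨0,[(0,0),(27,0)]⟩,⟨3,[(11,1),(8,1),(5,0),
  (0,0)]⟩⟩,⟨true,0,⟨0,[(40,0)]⟩,⟨0,[]⟩⟩,⟨false,0,⟨1,[(0,0),(2,1),(2,0),(14,0),(4,0),(8,0)]⟩,⟨9,[(5,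
  0),(4,3),(0,1),(0,2),(6,4),(0,4),(1,2),(15,3)]⟩⟩,⟨false,0,⟨0,[]⟩,⟨0,[]⟩⟩,⟨false,0,⟨0,[]⟩,⟨0,[]⟩⟩,
  [.o ⟨false,0,⟨0,[(24,0)]⟩,⟨0,[(22,0),(15,0)]⟩⟩,.a ⟨true,0,⟨1,[(0,1),(19,0),(8,0),(0,0)]⟩,⟨0,[(12,
  0),(23,0)]⟩⟩ ⟨false,1,⟨1,[(19,0),(17,0)]⟩,⟨3,[(2,0),(0,3),(2,0),(19,1),(0,0),(7,0)]⟩⟩ ⟨true,0,⟨0,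
  [(0,0)]⟩,⟨3,[(10,0),(9,1),(2,1),(1,2),(0,0),(7,0)]⟩⟩,.e ⟨false,1,⟨3,[(18,0),(0,2)]⟩,⟨2,[(2,0),(0,
  2),(2,0),(19,0),(7,0)]⟩⟩ ⟨false,0,⟨0,[(0,0)]⟩,⟨1,[(20,0),(1,0),(2,0),(12,1)]⟩⟩,.o ⟨false,0,⟨1,
  [(20,0),(2,0),(2,0)]⟩,⟨1,[(21,1),(9,0),(5,0)]⟩⟩]⟩)))))

theorem ok15 : chk (cU (-1) false 10) t15 r13 = true := by decide +kernel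

noncomputable def t16 : Tre :=
  .I [0,1,2,1,-1,0,0,-1] t14 t15

theorem ok16 : chk (cU (-1) false 10) t16 r12 = true :=
  chk_I (e' := [1,-1,-2,-1,1,0,0,1]) (by decide +kernel) (by decide +kernel) ok14 ok15

noncomputable def t17 : Tre :=
  .I [1,1,2,3,-1] t13 t16

theorem ok17 : chk (cU (-1) false 10) t17 r11 = true :=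
  chk_I (e' := [0,-1,-2,-3,1]) (by decide +kernel) (by decide +kernel) ok13 ok16

noncomputable def t18 : Tre :=
  .I [0,1,-1,-1,0,0,0,-1] t12 t17

theorem ok18 : chk (cU (-1) false 10) t18 r10 = true :=
  chk_I (e' := [1,-1,1,1,0,0,0,1]) (by decide +kernel) (by decide +kernel) ok12 ok17

noncomputable def t19 : Tre :=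
  .Q [0,0,0,0,0,1,0,0,0,0,-1] (.ed true [1,-1,1] .k) t11 t18

theorem ok19 : chk (cU (-1) false 10) t19 l9 = true :=
  chk_Q (e' := [0,0,0,0,0,-1,0,0,0,0,1]) (by decide +kernel) (by decide +kernel) ok11 ok18

noncomputable def t20 : Tre :=
  (.Q [0,0,0,1,0,0,0,0,0,1] (.pp false [-1,1]) (.R ⟨1,false,false,false,[1,-1,-1],[1,-1],[1,1,-1,-1,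
  0,0,0,-1],(⟨0,[(8,0)]⟩,⟨0,[(23,0),(2,0)]⟩),(⟨0,[(25,0)]⟩,⟨0,[(26,0)]⟩),⟨0,[(2,0)]⟩,.k,.k,(.r (-1)
  ⟨1,[(1,1),(27,3),(0,0),(0,0)]⟩ ⟨0,[(6,0),(13,0),(6,0),(0,0)]⟩),.k,.k,.k,⟨false,0,⟨0,[(1,0)]⟩,⟨1,
  [(4,0),(12,1),(4,0),(0,0),(3,0),(2,0),(0,0)]⟩⟩,⟨true,0,⟨0,[(7,0)]⟩,⟨0,[(20,0)]⟩⟩,⟨false,0,⟨0,[]⟩,
  ⟨3,[(11,0),(0,0),(18,1)]⟩⟩,⟨false,1,⟨0,[(17,0),(13,0)]⟩,⟨0,[(5,0),(23,0)]⟩⟩,⟨true,0,⟨0,[(28,0)]⟩,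
  ⟨0,[(29,0)]⟩⟩,⟨false,1,⟨0,[(6,0),(24,0)]⟩,⟨0,[(5,0),(23,1)]⟩⟩,[.a ⟨true,0,⟨0,[(29,0)]⟩,⟨0,[(0,
  0)]⟩⟩ ⟨true,0,⟨0,[(1,0),(27,0)]⟩,⟨0,[(6,0),(13,0),(6,0)]⟩⟩ ⟨false,1,⟨0,[(7,0),(21,0),(0,0)]⟩,⟨2,
  [(0,0),(3,0),(15,0),(6,0),(0,1)]⟩⟩,.o ⟨false,1,⟨1,[(24,0),(4,1),(1,0)]⟩,⟨0,[(28,0)]⟩⟩,.o ⟨false,0,
  ⟨0,[(16,0)]⟩,⟨7,[(10,3),(0,0),(0,0),(11,1),(5,3)]⟩⟩,.o ⟨false,0,⟨0,[(4,0),(14,0)]⟩,⟨0,[(7,0),(22,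
  0)]⟩⟩]⟩) (.I [0,0,1,1,0,0,0,1,-1] (.I [0,0,1,1,0,0,0,0,1] (.Q [0,1,0,0,0,0,0,0,1,0,0,-1] (.p
  false [0,0,0,1] [] (⟨0,[(16,0)]⟩,⟨1,[(15,0),(8,0),(0,0)]⟩) .k 0 (⟨0,[]⟩,⟨0,[]⟩) .k .k) (.K ⟨2,[0,
  0,0,1],0,0,(⟨0,[(17,0)]⟩,⟨1,[(16,0),(8,0),(0,0)]⟩),.k,(.r (-1) ⟨1,[(15,0),(16,1),(0,0)]⟩ ⟨0,[(2,
  0),(21,0)]⟩),(.r 0 ⟨0,[(1,0)]⟩ ⟨1,[(14,0),(17,1),(0,0)]⟩),.k,.k,[⟨0,[(10,0),(6,0)]⟩,⟨1,[(13,0),(2,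
  0)]⟩,⟨1,[(17,1),(4,0),(0,0)]⟩,⟨1,[(16,0),(2,0),(2,0)]⟩,⟨0,[(2,0),(1,0),(12,0),(14,0)]⟩,⟨0,[(0,
  0)]⟩]⟩) (.R ⟨1,false,false,false,[1,0,0,-1],[1,-1],[0,0,0,-1,0,0,0,0,-1],(⟨1,[(16,0),(8,0),(0,
  0)]⟩,⟨0,[(17,0)]⟩),(⟨0,[(28,0)]⟩,⟨0,[(29,0)]⟩),⟨1,[(5,0),(10,0),(9,0)]⟩,.k,.k,(.r (-1) ⟨1,[(14,0),
  (17,1),(0,0)]⟩ ⟨0,[(1,0)]⟩),(.r 0 ⟨0,[(2,0),(21,0)]⟩ ⟨1,[(15,0),(16,1),(0,0)]⟩),.k,.k,⟨false,0,⟨3,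
  [(0,1),(1,1),(0,0),(0,1),(11,0),(15,0)]⟩,⟨1,[(15,0),(17,0)]⟩⟩,⟨true,0,⟨1,[(16,0),(2,0),(2,0)]⟩,⟨0,
  [(17,0)]⟩⟩,⟨true,0,⟨0,[(32,0)]⟩,⟨0,[(31,0)]⟩⟩,⟨false,1,⟨1,[(3,0),(11,0),(0,0),(15,0),(1,0)]⟩,⟨0,
  [(0,0),(30,0)]⟩⟩,⟨false,1,⟨3,[(14,0),(0,0),(18,1)]⟩,⟨0,[]⟩⟩,⟨false,1,⟨3,[(15,1),(0,1),(10,0),(2,
  1),(2,0)]⟩,⟨0,[(0,0),(35,0)]⟩⟩,[.o ⟨false,0,⟨0,[(3,0)]⟩,⟨3,[(14,0),(0,0),(15,3),(2,1)]⟩⟩,.o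
  ⟨false,1,⟨1,[(27,0),(4,1),(1,0)]⟩,⟨0,[(31,0)]⟩⟩,.a ⟨true,0,⟨0,[(17,0)]⟩,⟨1,[(16,0),(8,0),(0,0)]⟩⟩
  ⟨false,0,⟨1,[(0,1),(2,0),(12,0),(15,0)]⟩,⟨1,[(15,0),(15,1),(2,0)]⟩⟩ ⟨true,0,⟨1,[(3,0),(12,0),(15,
  0)]⟩,⟨0,[(17,0),(13,0)]⟩⟩,.o ⟨false,0,⟨5,[(0,1),(0,1),(1,2),(5,0),(7,3),(0,0),(0,1),(2,1)]⟩,⟨7,
  [(14,0),(0,0),(0,3),(10,1),(5,3)]⟩⟩]⟩)) (.R ⟨1,false,false,false,[1,0,0,-1],[1,-1],[1,0,0,0,0,0,0,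
  0,-1],(⟨1,[(15,0),(8,0),(0,0)]⟩,⟨0,[(16,0)]⟩),(⟨0,[(27,0)]⟩,⟨0,[(28,0)]⟩),⟨1,[(4,0),(10,0),(9,
  0)]⟩,.k,.k,(.x 0 ⟨1,[(4,0),(13,0),(2,0),(3,0)]⟩ ⟨3,[(13,0),(0,0),(13,3),(3,1)]⟩),(.r 0 ⟨0,[(1,0),
  (21,0)]⟩ ⟨0,[(0,0),(13,0)]⟩),.k,.k,⟨false,0,⟨1,[(0,0),(0,0),(3,0),(1,0),(0,0)]⟩,⟨0,[(0,0),(13,
  0)]⟩⟩,⟨true,0,⟨1,[(15,0),(2,0),(2,0)]⟩,⟨0,[(16,0)]⟩⟩,⟨true,0,⟨0,[]⟩,⟨0,[(35,0)]⟩⟩,⟨false,1,⟨1,[(2,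
  0),(11,0),(0,0),(15,0),(1,0)]⟩,⟨1,[(0,0),(0,0),(3,0),(1,0),(0,0),(7,1)]⟩⟩,⟨false,1,⟨0,[(30,0),(2,
  0)]⟩,⟨0,[(31,0)]⟩⟩,⟨false,1,⟨3,[(14,1),(0,1),(10,0),(2,1),(2,0)]⟩,⟨1,[(0,0),(0,0),(14,1),(6,0)]⟩⟩,
  [.o ⟨false,0,⟨0,[(2,0)]⟩,⟨3,[(13,0),(0,0),(15,3),(2,1)]⟩⟩,.o ⟨false,1,⟨1,[(26,0),(4,1),(1,0)]⟩,⟨0,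
  [(30,0)]⟩⟩,.a ⟨true,0,⟨0,[(16,0)]⟩,⟨1,[(15,0),(8,0),(0,0)]⟩⟩ ⟨false,0,⟨3,[(0,2),(0,0),(3,0),(1,0),
  (0,0),(20,1)]⟩,⟨3,[(13,0),(0,2)]⟩⟩ ⟨true,0,⟨1,[(2,0),(12,0),(15,0)]⟩,⟨0,[(16,0),(13,0)]⟩⟩,.o
  ⟨false,0,⟨2,[(2,0),(2,0),(2,0),(7,2),(1,1),(2,0)]⟩,⟨7,[(13,0),(0,0),(0,3),(10,1),(5,3)]⟩⟩]⟩)) (.Q
  [0,1,0,0,0,0,0,0,-1,0,0,1] (.p true [0,0,0,1] [] (⟨0,[(15,0)]⟩,⟨1,[(14,0),(8,0),(0,0)]⟩) .k 0 (⟨0,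
  []⟩,⟨0,[]⟩) .k .k) (.K ⟨2,[0,0,0,1],0,0,(⟨0,[(16,0)]⟩,⟨1,[(15,0),(8,0),(0,0)]⟩),.k,(.r (-1) ⟨1,
  [(14,0),(16,1),(0,0)]⟩ ⟨3,[(0,3),(1,0),(2,0),(1,1),(0,2),(6,1),(2,0),(10,2)]⟩),(.r 0 ⟨0,[(1,0),(6,
  0),(13,0),(6,0),(0,0)]⟩ ⟨1,[(13,0),(17,1),(0,0)]⟩),.k,.k,[⟨0,[(9,0),(6,0)]⟩,⟨1,[(12,0),(2,0)]⟩,⟨1,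
  [(16,1),(4,0),(0,0)]⟩,⟨1,[(15,0),(2,0),(2,0)]⟩,⟨0,[(0,0)]⟩,⟨1,[(1,1),(6,1),(6,0),(2,0),(3,0)]⟩]⟩)
  (.R ⟨1,false,false,true,[1,0,0,-1],[0,0,1],[0,0,0,-1,0,0,0,0,-1],(⟨1,[(15,0),(8,0),(0,0)]⟩,⟨0,
  [(16,0)]⟩),(⟨0,[(25,0)]⟩,⟨0,[(24,0)]⟩),⟨1,[(4,0),(10,0),(9,0)]⟩,.k,.k,(.r (-1) ⟨1,[(13,0),(17,1),
  (0,0)]⟩ ⟨1,[(0,1),(15,1),(4,0),(0,0),(7,1)]⟩),.k,(.r (-1) ⟨0,[(1,0),(11,0)]⟩ ⟨0,[(0,0),(7,0),(7,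
  0),(5,0)]⟩),.k,⟨false,1,⟨1,[(5,1),(7,0),(17,1),(0,0)]⟩,⟨0,[(0,0),(10,0),(4,0),(2,0)]⟩⟩,⟨true,0,⟨1,
  [(12,0),(2,0)]⟩,⟨0,[(16,0),(1,0)]⟩⟩,⟨true,0,⟨0,[(31,0)]⟩,⟨0,[(30,0)]⟩⟩,⟨false,0,⟨0,[(0,0),(18,0),
  (4,0),(0,0)]⟩,⟨3,[(5,3),(0,1),(6,1),(2,3),(9,0),(5,0)]⟩⟩,⟨false,1,⟨3,[(13,0),(0,0),(18,1)]⟩,⟨0,
  []⟩⟩,⟨false,0,⟨0,[(0,0),(7,0),(15,0),(0,0)]⟩,⟨3,[(1,1),(0,1),(2,1),(0,1),(6,2),(2,3),(16,0)]⟩⟩,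
  [.o ⟨false,0,⟨0,[(19,0)]⟩,⟨0,[(17,0),(15,0)]⟩⟩,.o ⟨false,1,⟨3,[(13,0),(0,0),(4,3),(13,1)]⟩,⟨0,[(2,
  0),(4,0)]⟩⟩,.a ⟨true,0,⟨0,[(16,0)]⟩,⟨1,[(15,0),(8,0),(0,0)]⟩⟩ ⟨false,1,⟨1,[(13,0),(17,1),(1,0)]⟩,
  ⟨0,[(0,0),(15,0),(13,0)]⟩⟩ ⟨true,0,⟨1,[(15,0),(3,1),(4,0),(0,0)]⟩,⟨0,[(2,0),(4,0),(8,0)]⟩⟩,.o
  ⟨false,0,⟨2,[(2,0),(2,0),(2,0),(7,2),(1,1),(2,0)]⟩,⟨7,[(13,0),(0,0),(0,3),(10,1),(5,3)]⟩⟩]⟩))))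

theorem ok20 : chk (cU (-1) false 10) t20 r9 = true := by decide +kernel

noncomputable def t21 : Tre :=
  .I [1,-1,1,0,0,0,0,1] t19 t20

theorem ok21 : chk (cU (-1) false 10) t21 r8 = true :=
  chk_I (e' := [0,1,-1,0,0,0,0,-1]) (by decide +kernel) (by decide +kernel) ok19 ok20

noncomputable def t22 : Tre :=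
  .Q [0,0,0,0,0,2,0,0,0,-1,1] (.p true [0,0,1] [1] (⟨0,[(20,0)]⟩,⟨0,[(19,0)]⟩) .k 1 (⟨0,[]⟩,⟨0,[]⟩)
  .k .k) t10 t21

theorem ok22 : chk (cU (-1) false 10) t22 r7 = true :=
  chk_Q (e' := [0,0,0,0,0,-2,0,0,0,1,-1]) (by decide +kernel) (by decide +kernel) ok10 ok21

noncomputable def t23 : Tre :=
  .I [0,1,0,0,0,0,0,1] t9 t22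

theorem ok23 : chk (cU (-1) false 10) t23 r6 = true :=
  chk_I (e' := [1,-1,0,0,0,0,0,-1]) (by decide +kernel) (by decide +kernel) ok9 ok22

noncomputable def t24 : Tre :=
  .Q [0,0,-1,0,0,0,2,0,0,1,-2] (.p false [0,0,1] [1,0,-1] (⟨0,[(18,0)]⟩,⟨0,[(17,0)]⟩) .k 2 (⟨0,[(17,
  0)]⟩,⟨0,[(18,0)]⟩) .k (.r (-1) ⟨0,[(4,1),(7,1),(9,1),(1,1),(0,0)]⟩ ⟨0,[(16,1)]⟩)) t8 t23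

theorem ok24 : chk (cU (-1) false 10) t24 r5 = true :=
  chk_Q (e' := [0,0,1,0,0,0,-2,0,0,-1,2]) (by decide +kernel) (by decide +kernel) ok8 ok23

noncomputable def t25 : Tre :=
  .Q [0,0,0,-1,0,0,1,1,0,0,-1] (.p false [0,0,1] [] (⟨0,[(17,0)]⟩,⟨0,[(16,0)]⟩) .k 0 (⟨0,[]⟩,⟨0,
  []⟩) .k .k) t7 t24

theorem ok25 : chk (cU (-1) false 10) t25 r4 = true :=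
  chk_Q (e' := [0,0,0,1,0,0,-1,-1,0,0,1]) (by decide +kernel) (by decide +kernel) ok7 ok24

noncomputable def t26 : Tre :=
  .Q [0,-1,0,-1,0,0,-1,-1,0,0,1] (.p true [0,0,1] [] (⟨0,[(16,0)]⟩,⟨0,[(15,0)]⟩) .k 0 (⟨0,[]⟩,⟨0,
  []⟩) .k .k) t6 t25

theorem ok26 : chk (cU (-1) false 10) t26 r3 = true :=
  chk_Q (e' := [0,1,0,1,0,0,1,1,0,0,-1]) (by decide +kernel) (by decide +kernel) ok6 ok25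

noncomputable def t27 : Tre :=
  .Q [0,0,0,0,0,0,-1,0,0,0,1] (.p true [0,0,1] [] (⟨0,[(15,0)]⟩,⟨0,[(14,0)]⟩) .k 0 (⟨0,[]⟩,⟨0,[]⟩)
  .k .k) t5 t26

theorem ok27 : chk (cU (-1) false 10) t27 r0 = true :=
  chk_Q (e' := [0,0,0,0,0,0,1,0,0,0,-1]) (by decide +kernel) (by decide +kernel) ok5 ok26

noncomputable def t28 : Tre :=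
  .Q [0,0,0,0,0,1,0,0,0,-1,1] (.ed false [0,1,1] .k) t4 t27

theorem ok28 : chk (cU (-1) false 10) t28 base = true :=
  chk_Q (e' := [0,0,0,0,0,-1,0,0,0,1,-1]) (by decide +kernel) (by decide +kernel) ok4 ok27

theorem ok : chkB (cU (-1) false 10) (fax (fcU (-1)) false 34 (-1) 10 false (tU false)) t28 base = true :=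
  chkB_of (by decide +kernel) ok28

end Helper11.CT.Tm1_34_m1_m1_v
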