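import Pool.Agent.Helper11.CT.Cfg
import Pool.Agent.Helper11.CT.Cut

set_option autoImplicit false
set_option linter.all false

namespace Helper11.CT.Tm1_35_m1_1_u

open Helper11.CT

noncomputable def base : List Con :=
  [(false,[0,0,0,0,0,0,2,2,0,1,-2]),
  (true,[0,0,0,0,1,0,0,0,-2]),
  (true,[0,0,0,0,1,0,0,0,2]),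
  (false,[0,0,0,0,0,0,0,0,0,1,0,-1]),
  (false,[0,0,0,0,0,0,0,0,0,0,0,1]),
  (false,[0,1,0,0,0,0,-1,-1,0,-1,1]),
  (false,[0,0,1,0,0,0,-1,0,0,-1,1]),
  (false,[0,1,0,0,0,0,1,1,0,0,-1]),
  (false,[0,1,0,0,0,0,-1,-1,0,0,1]),
  (false,[0,0,1,0,0,0,1,0,0,0,-1]),
  (false,[0,0,1,0,0,0,-1,0,0,0,1]),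
  (true,[0,0,0,0,0,0,0,1]),
  (false,[0,0,0,0,0,0,0,0,0,1,-1]),
  (false,[0,0,0,0,0,0,0,0,0,0,1]),
  (false,[0,0,0,0,1,0,0,0,0,-2]),
  (false,[0,0,0,0,0,-1,0,0,0,1]),
  (true,[0,0,0,0,0,1]),
  (true,[0,2,-1]),
  (true,[1,-1,1]),
  (true,[0,1,0,1]),
  (true,[0,0,0,-1]),
  (true,[0,0,-2,0,1]),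
  (true,[0,-2,0,0,1]),
  (true,[-1,0,1]),
  (true,[-1,1])]

noncomputable def l0 : List Con := (false, [0,1,-1,0,0,0,0,0,-1,0,0,1]) :: base

noncomputable def r0 : List Con := (false, [0,-1,1,0,0,0,0,0,1,0,0,-1]) :: base

noncomputable def l1 : List Con := (false, [0,1,1,0,0,0,0,0,1,0,0,-1]) :: l0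

noncomputable def r1 : List Con := (false, [0,-1,-1,0,0,0,0,0,-1,0,0,1]) :: l0

noncomputable def t0 : Tre :=
  (.K ⟨0,[0,0,0,1],0,0,(⟨0,[(6,0)]⟩,⟨0,[(5,0)]⟩),.k,(.x 0 ⟨0,[(8,0),(2,0),(5,0)]⟩ ⟨0,[(18,0),(4,
  0)]⟩),(.x 0 ⟨0,[(18,0)]⟩ ⟨3,[(3,0),(0,0),(11,1),(0,3)]⟩),.k,.k,[⟨0,[(6,0)]⟩,⟨0,[(5,0)]⟩,⟨0,[(1,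
  0)]⟩,⟨0,[(0,0)]⟩]⟩)

theorem ok0 : chk (cU (-1) true 3) t0 l1 = true := by decide +kernel

noncomputable def l2 : List Con := (true, [1,1,0,0,0,0,0,0,1]) :: r1

noncomputable def r2 : List Con := (true, [0,-1,0,0,0,0,0,0,-1]) :: r1

noncomputable def t1 : Tre :=
  (.Q [0,0,0,0,0,1,0,0,0,0,-1] (.ed true [1,-1,1] .k) (.R ⟨0,false,false,false,[0,0,1],[1,0,0,-1],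
  [0,0,1,0,0,0,0,0,-1],(⟨0,[(17,0)]⟩,⟨0,[(16,0)]⟩),(⟨0,[(7,0)]⟩,⟨0,[(8,0)]⟩),⟨0,[(0,0)]⟩,.k,.k,.k,
  .k,.k,.k,⟨true,0,⟨1,[(13,0),(0,0)]⟩,⟨0,[]⟩⟩,⟨false,1,⟨1,[(2,1),(3,0),(2,1),(5,1),(9,0)]⟩,⟨0,[(7,
  0),(5,0)]⟩⟩,⟨false,0,⟨0,[(2,0),(4,0),(1,0),(3,0),(8,0)]⟩,⟨1,[(6,0),(8,1),(9,0)]⟩⟩,⟨true,0,⟨0,[(2,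
  0),(6,0)]⟩,⟨1,[(1,1),(2,0),(2,1),(2,0),(2,0)]⟩⟩,⟨false,0,⟨0,[]⟩,⟨0,[]⟩⟩,⟨false,0,⟨0,[]⟩,⟨0,[]⟩⟩,
  [.a ⟨true,0,⟨1,[(2,0),(0,0)]⟩,⟨0,[(1,0),(5,0),(14,0)]⟩⟩ ⟨false,0,⟨1,[(2,1),(4,1),(1,0),(0,0),(0,
  0),(1,0)]⟩,⟨1,[(6,0),(18,0)]⟩⟩ ⟨true,0,⟨0,[(2,0),(6,0),(5,0)]⟩,⟨0,[(1,0),(5,0),(5,0),(8,0)]⟩⟩,.a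
  ⟨true,0,⟨0,[(2,0)]⟩,⟨1,[(1,1),(5,1),(5,0),(0,0)]⟩⟩ ⟨true,0,⟨0,[(2,0),(4,0),(2,0),(2,0)]⟩,⟨0,[(1,
  0)]⟩⟩ ⟨false,1,⟨0,[(2,0),(7,0),(14,0)]⟩,⟨0,[(1,0),(5,0),(5,0)]⟩⟩,.a ⟨true,0,⟨0,[(1,0),(0,0),(4,0),
  (5,0)]⟩,⟨0,[(1,0),(0,0),(4,0),(2,0)]⟩⟩ ⟨false,0,⟨0,[(2,0),(4,0),(2,0),(2,0)]⟩,⟨1,[(6,0),(18,0)]⟩⟩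
  ⟨true,0,⟨0,[(2,0),(6,0),(5,0)]⟩,⟨0,[(1,0),(5,0),(5,0)]⟩⟩,.o ⟨false,0,⟨0,[(13,0)]⟩,⟨0,[(10,0),(14,
  0)]⟩⟩]⟩) (.I [0,0,2,2,0,0,0,-1] (.K ⟨2,[0,-1,1],0,0,(⟨0,[(1,0)]⟩,⟨0,[(17,0),(3,0)]⟩),.k,(.r (-1)
  ⟨0,[(16,0),(8,1),(0,0)]⟩ ⟨0,[(0,0)]⟩),.k,.k,.k,[⟨0,[(25,0)]⟩,⟨2,[(0,0),(1,2),(0,2),(4,2),(1,1),(0,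
  0),(12,0)]⟩,⟨0,[(2,0),(0,0),(4,0),(2,0)]⟩,⟨1,[(14,2),(0,0)]⟩]⟩) (.R ⟨2,true,false,true,[0,1],[0,0,
  1],[0,0,1],(⟨0,[]⟩,⟨0,[]⟩),(⟨0,[(18,0)]⟩,⟨0,[(17,0)]⟩),⟨0,[]⟩,.k,.k,.k,.k,.k,.k,⟨false,1,⟨1,[(3,
  1),(3,0),(0,1),(1,1),(3,1),(12,0)]⟩,⟨1,[(0,0),(15,0),(7,1)]⟩⟩,⟨true,0,⟨0,[(14,0)]⟩,⟨0,[(2,0),(0,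
  0),(4,0),(2,0)]⟩⟩,⟨true,0,⟨0,[(25,0)]⟩,⟨0,[(24,0)]⟩⟩,⟨false,0,⟨3,[(0,1),(4,0),(5,0),(2,2)]⟩,⟨1,
  [(3,1),(3,0),(0,1),(1,1),(12,1),(0,1),(2,0)]⟩⟩,⟨false,1,⟨3,[(6,0),(0,0),(19,1)]⟩,⟨0,[]⟩⟩,⟨true,0,
  ⟨0,[(12,0)]⟩,⟨0,[(2,0),(0,0),(4,0),(1,0),(12,0)]⟩⟩,[]⟩)))

theorem ok1 : chk (cU (-1) true 3) t1 l2 = true := by decide +kernel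

noncomputable def l3 : List Con := (false, [0,0,0,0,0,-1,0,0,0,1,-1]) :: r2

noncomputable def r3 : List Con := (false, [0,0,0,0,0,1,0,0,0,-1,1]) :: r2

noncomputable def l4 : List Con := (true, [1,1,0,0,0,0,0,-2]) :: l3

noncomputable def r4 : List Con := (true, [0,-1,0,0,0,0,0,2]) :: l3

noncomputable def t2 : Tre :=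
  (.Q [0,0,1,-1,0,0,-1,-1,1,0,1,-1] (.p true [0,0,1] [0,0,0,1] (⟨0,[(18,0)]⟩,⟨0,[(17,0)]⟩) .k 2 (⟨0,
  [(9,0)]⟩,⟨0,[(8,0)]⟩) .k (.r 0 ⟨2,[(2,2),(9,0),(2,0),(0,1),(5,0)]⟩ ⟨7,[(0,3),(5,0),(0,4),(19,
  1)]⟩)) (.I [0,0,-2,-2,1,0,0,-1] (.Q [0,0,0,0,0,0,1,0,0,1,-1] (.p false [0,0,1] [1] (⟨0,[(20,0)]⟩,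
  ⟨0,[(19,0)]⟩) .k 1 (⟨0,[]⟩,⟨0,[]⟩) .k .k) (.K ⟨0,[1,-1,-1],0,0,(⟨0,[(4,0)]⟩,⟨0,[(21,0),(2,0)]⟩),
  .k,(.r (-1) ⟨0,[(1,0)]⟩ ⟨0,[(19,0),(6,1),(0,1)]⟩),.k,.k,.k,[⟨0,[(0,0)]⟩,⟨0,[(2,0),(3,0),(12,0),(7,
  0)]⟩,⟨1,[(8,0),(2,0),(0,0),(14,1)]⟩,⟨0,[(13,0),(14,0)]⟩]⟩) (.R ⟨2,true,false,true,[0,1],[0,1,1],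
  [0,1,1],(⟨0,[]⟩,⟨0,[]⟩),(⟨0,[(21,0),(2,0)]⟩,⟨0,[(4,0)]⟩),⟨0,[]⟩,.k,.k,.k,.k,.k,.k,⟨true,0,⟨0,[(0,
  0),(1,0),(0,0),(2,0),(1,0)]⟩,⟨0,[(19,0),(6,0),(0,0)]⟩⟩,⟨false,1,⟨0,[(17,0),(11,0)]⟩,⟨0,[(0,0),(10,
  0),(0,0)]⟩⟩,⟨false,0,⟨0,[(28,0)]⟩,⟨0,[(27,0),(2,0)]⟩⟩,⟨true,0,⟨0,[(15,0)]⟩,⟨0,[(2,0),(3,0),(20,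
  0)]⟩⟩,⟨true,0,⟨0,[(32,0)]⟩,⟨0,[]⟩⟩,⟨false,1,⟨7,[(8,3),(0,0),(0,0),(11,1),(4,7),(2,3)]⟩,⟨0,[(2,0),
  (3,0)]⟩⟩,[]⟩)) (.R ⟨1,true,false,false,[1,0,-1],[0,0,1],[1,1,0,0,0,0,0,-1],(⟨0,[(19,0)]⟩,⟨0,[(20,
  0)]⟩),(⟨0,[(20,0)]⟩,⟨0,[(19,0)]⟩),⟨0,[(3,0)]⟩,.k,.k,.k,.k,(.r (-1) ⟨1,[(2,1),(24,1),(0,0),(0,0)]⟩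
  ⟨3,[(0,1),(7,0),(0,0),(8,5)]⟩),.k,⟨true,0,⟨0,[(2,0)]⟩,⟨0,[(18,1),(6,0)]⟩⟩,⟨false,1,⟨1,[(2,1),(4,
  1),(20,0),(0,0)]⟩,⟨1,[(0,0),(0,1),(3,1),(6,1),(5,2),(9,0)]⟩⟩,⟨false,0,⟨0,[]⟩,⟨3,[(8,0),(0,0),(19,
  1)]⟩⟩,⟨true,0,⟨0,[(7,0)]⟩,⟨6,[(0,1),(0,3),(0,0),(2,3),(6,6),(2,2),(12,1)]⟩⟩,⟨true,0,⟨0,[(26,0)]⟩,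
  ⟨0,[(27,0)]⟩⟩,⟨false,1,⟨0,[(7,0),(18,0),(2,0)]⟩,⟨0,[(1,0),(3,0),(6,0)]⟩⟩,[]⟩)) (.I [0,0,-2,-2,1,0,
  0,-1] (.Q [0,0,-1,0,0,0,0,0,0,1] (.pp false [-1,1]) (.K ⟨0,[1,-1,-1],0,0,(⟨0,[(4,0)]⟩,⟨0,[(21,0),
  (2,0)]⟩),.k,(.r (-1) ⟨0,[(1,0)]⟩ ⟨0,[(19,0),(6,1),(0,1)]⟩),.k,.k,.k,[⟨0,[(0,0),(16,0)]⟩,⟨0,[(0,0),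
  (13,0)]⟩,⟨3,[(0,1),(7,1),(8,0),(0,0),(8,3)]⟩,⟨0,[(13,0),(14,0)]⟩]⟩) (.Q [0,0,0,0,0,0,-2,-1,0,-1,
  2] (.p true [0,0,1] [1,0,-1] (⟨0,[(21,0)]⟩,⟨0,[(20,0)]⟩) .k 2 (⟨0,[(20,0)]⟩,⟨0,[(21,0)]⟩) .k (.r
  0 ⟨0,[(19,1)]⟩ ⟨3,[(3,3),(5,0),(0,0),(19,1)]⟩)) (.Q [0,0,0,0,0,0,1,0,0,1,-1] (.p false [0,0,1]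
  [1] (⟨0,[(22,0)]⟩,⟨0,[(21,0)]⟩) .k 1 (⟨0,[]⟩,⟨0,[]⟩) .k .k) (.K ⟨0,[1,-1,-1],0,0,(⟨0,[(6,0)]⟩,⟨0,
  [(23,0),(2,0)]⟩),.k,(.r (-1) ⟨0,[(3,0)]⟩ ⟨0,[(21,0),(6,1),(0,1)]⟩),.k,.k,.k,[⟨0,[(0,0)]⟩,⟨1,[(1,
  0),(11,0),(0,0),(6,0)]⟩,⟨1,[(10,0),(2,0),(0,0),(14,1)]⟩,⟨0,[(15,0),(14,0)]⟩]⟩) (.Q [0,0,0,-1,0,0,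
  1,1,0,0,-1] (.p false [0,0,1] [] (⟨0,[(23,0)]⟩,⟨0,[(22,0)]⟩) .k 0 (⟨0,[]⟩,⟨0,[]⟩) .k .k) (.Q [0,0,
  0,0,0,0,-1,-1,0,0,1] (.p true [0,0,1] [] (⟨0,[(24,0)]⟩,⟨0,[(23,0)]⟩) .k 0 (⟨0,[]⟩,⟨0,[]⟩) .k .k)
  (.R ⟨2,false,false,false,[0,1],[0,0,1],[],(⟨0,[]⟩,⟨0,[]⟩),(⟨0,[(25,0)]⟩,⟨0,[(24,0)]⟩),⟨0,[]⟩,.k,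
  .k,.k,.k,.k,.k,⟨false,1,⟨7,[(7,3),(5,0),(0,0),(18,3),(0,1)]⟩,⟨0,[(23,0)]⟩⟩,⟨true,0,⟨0,[(21,0)]⟩,
  ⟨1,[(3,0),(11,0),(0,0),(6,0)]⟩⟩,⟨false,1,⟨1,[(5,0),(17,0),(10,0)]⟩,⟨0,[(30,0),(0,0)]⟩⟩,⟨true,0,⟨0,
  [(1,0)]⟩,⟨0,[(0,0),(30,0)]⟩⟩,⟨false,1,⟨1,[(33,0),(0,0)]⟩,⟨1,[(21,0),(0,0)]⟩⟩,⟨false,1,⟨7,[(12,3),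
  (0,0),(0,0),(11,1),(7,3)]⟩,⟨0,[(0,0)]⟩⟩,[.a ⟨true,0,⟨1,[(12,0),(2,0),(0,0)]⟩,⟨0,[(0,0)]⟩⟩ ⟨false,
  1,⟨3,[(13,0),(0,0),(18,1)]⟩,⟨0,[]⟩⟩ ⟨true,0,⟨3,[(4,1),(7,1),(8,0),(0,0)]⟩,⟨0,[(0,0)]⟩⟩,.o ⟨false,
  1,⟨7,[(12,3),(0,0),(0,0),(11,1),(7,3)]⟩,⟨0,[(17,0)]⟩⟩,.o ⟨false,1,⟨3,[(13,0),(0,0),(18,1)]⟩,⟨0,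
  [(4,0)]⟩⟩,.e ⟨false,1,⟨1,[(33,0),(0,0)]⟩,⟨1,[(21,0),(0,0)]⟩⟩ ⟨false,1,⟨7,[(12,3),(0,0),(0,0),(11,
  1),(7,3)]⟩,⟨0,[(0,0)]⟩⟩]⟩) (.Q [0,0,0,-1,0,0,0,0,0,-1] (.pp true [-1,1]) (.Q [0,0,0,-1,0,0,-1,-1,
  0,0,1] (.p true [0,0,1] [] (⟨0,[(26,0)]⟩,⟨0,[(25,0)]⟩) .k 0 (⟨0,[]⟩,⟨0,[]⟩) .k .k) (.R ⟨2,true,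
  false,false,[0,1],[0,1,1],[1,1,1,1],(⟨0,[]⟩,⟨0,[]⟩),(⟨0,[(27,0),(2,0)]⟩,⟨0,[(10,0)]⟩),⟨0,[]⟩,.k,
  .k,.k,.k,.k,.k,⟨true,0,⟨1,[(9,0),(28,0)]⟩,⟨0,[(25,0),(6,0)]⟩⟩,⟨false,1,⟨0,[(23,0),(11,0)]⟩,⟨1,[(5,
  0),(11,0),(0,0),(6,0)]⟩⟩,⟨false,0,⟨0,[]⟩,⟨3,[(15,0),(0,0),(19,1)]⟩⟩,⟨true,0,⟨0,[(2,0)]⟩,⟨0,[(22,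
  0)]⟩⟩,⟨true,0,⟨0,[(33,0)]⟩,⟨0,[(34,0)]⟩⟩,⟨false,1,⟨0,[(2,0),(30,0),(2,0)]⟩,⟨0,[(0,0)]⟩⟩,[]⟩) (.Q
  [0,0,0,0,0,1,0,0,0,0,-1] (.ed true [1,-1,1] .k) (.K ⟨2,[1,-1,1],0,0,(⟨0,[(28,0),(1,0)]⟩,⟨0,[(0,
  0)]⟩),.k,(.r (-1) ⟨0,[(8,0),(17,1)]⟩ ⟨2,[(1,1),(4,0),(3,1),(7,0),(0,0),(13,5),(0,3)]⟩),.k,.k,.k,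
  [⟨0,[(2,0)]⟩,⟨2,[(1,0),(4,1),(3,0),(7,4),(0,4),(14,1)]⟩,⟨1,[(6,0),(11,2),(0,2),(6,0)]⟩,⟨0,[(7,0),
  (16,0)]⟩]⟩) (.K ⟨2,[0,-1,1],0,0,(⟨0,[(0,0)]⟩,⟨0,[(27,0),(3,0)]⟩),.k,(.r (-1) ⟨0,[(8,0),(17,1)]⟩
  ⟨2,[(1,1),(4,0),(3,1),(7,0),(0,0),(13,5),(0,3)]⟩),.k,.k,.k,[⟨0,[(35,0)]⟩,⟨2,[(1,0),(4,1),(3,0),(7,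
  1),(0,1),(14,1)]⟩,⟨1,[(6,0),(11,0),(0,0),(6,0)]⟩,⟨1,[(24,2),(0,0)]⟩]⟩))) (.R ⟨1,false,false,false,
  [1,0,-1],[1,-1],[0,1,0,-1,0,0,0,-1],(⟨0,[(25,0)]⟩,⟨0,[(26,0)]⟩),(⟨0,[(28,0)]⟩,⟨0,[(29,0)]⟩),⟨0,
  [(9,0)]⟩,.k,.k,.k,.k,.k,.k,⟨false,0,⟨1,[(8,0),(28,0)]⟩,⟨1,[(24,1),(9,0),(0,0)]⟩⟩,⟨true,0,⟨0,[(22,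
  0)]⟩,⟨1,[(4,0),(11,0),(0,0),(6,0)]⟩⟩,⟨false,0,⟨0,[(33,0)]⟩,⟨0,[(32,0),(2,0)]⟩⟩,⟨true,0,⟨0,[(2,
  0)]⟩,⟨4,[(0,1),(3,1),(3,0),(12,0),(10,2)]⟩⟩,⟨true,0,⟨0,[(37,0)]⟩,⟨0,[]⟩⟩,⟨true,0,⟨0,[(1,0)]⟩,⟨0,
  [(21,0)]⟩⟩,[.a ⟨true,0,⟨0,[(33,0)]⟩,⟨0,[(0,0)]⟩⟩ ⟨true,0,⟨1,[(8,0),(24,1),(3,0)]⟩,⟨0,[(0,0),(0,0),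
  (1,0),(27,0)]⟩⟩ ⟨false,1,⟨15,[(6,7),(6,3),(0,0),(0,0),(6,7),(4,1),(6,3)]⟩,⟨0,[(0,0),(2,0)]⟩⟩,.o
  ⟨false,1,⟨1,[(27,0),(5,1),(1,0)]⟩,⟨0,[(32,0)]⟩⟩,.o ⟨false,0,⟨0,[(3,0)]⟩,⟨3,[(14,0),(0,0),(6,3),
  (11,1)]⟩⟩,.o ⟨false,0,⟨0,[(19,0)]⟩,⟨0,[(22,0),(11,0)]⟩⟩]⟩))) (.R ⟨1,false,false,false,[1,0,-1],[1,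
  -1],[1,1,0,0,0,0,0,-1],(⟨0,[(23,0)]⟩,⟨0,[(24,0)]⟩),(⟨0,[(26,0)]⟩,⟨0,[(27,0)]⟩),⟨0,[(7,0)]⟩,.k,.k,
  .k,.k,.k,.k,⟨false,0,⟨0,[(0,0),(0,0),(4,0),(4,0)]⟩,⟨1,[(4,0),(17,2),(10,0)]⟩⟩,⟨true,0,⟨0,[(20,
  0)]⟩,⟨1,[(2,0),(11,0),(0,0),(6,0)]⟩⟩,⟨false,0,⟨0,[]⟩,⟨3,[(12,0),(0,0),(19,1)]⟩⟩,⟨false,1,⟨7,[(11,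
  3),(0,0),(0,0),(11,1),(5,7),(1,3)]⟩,⟨0,[(0,0)]⟩⟩,⟨true,0,⟨0,[(30,0)]⟩,⟨0,[(31,0)]⟩⟩,⟨false,1,⟨7,
  [(11,3),(0,0),(0,0),(11,1),(7,3)]⟩,⟨0,[(0,0),(30,0)]⟩⟩,[.a ⟨true,0,⟨0,[(31,0)]⟩,⟨1,[(0,1),(10,0),
  (2,0),(0,0)]⟩⟩ ⟨true,0,⟨1,[(6,0),(28,0)]⟩,⟨0,[(22,0),(6,0)]⟩⟩ ⟨false,1,⟨15,[(4,7),(6,3),(0,0),(0,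
  0),(6,7),(4,1),(6,3)]⟩,⟨0,[(0,0),(21,0)]⟩⟩,.o ⟨false,1,⟨1,[(25,0),(5,1),(1,0)]⟩,⟨0,[(30,0)]⟩⟩,.o
  ⟨false,0,⟨0,[(1,0)]⟩,⟨3,[(12,0),(0,0),(6,3),(11,1)]⟩⟩,.o ⟨false,0,⟨0,[(17,0)]⟩,⟨0,[(20,0),(11,
  0)]⟩⟩]⟩))) (.Q [0,0,0,0,0,0,-1,0,0,0,1] (.p true [0,0,1] [] (⟨0,[(22,0)]⟩,⟨0,[(21,0)]⟩) .k 0 (⟨0,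
  []⟩,⟨0,[]⟩) .k .k) (.Q [0,0,0,0,0,0,1,0,0,1,-1] (.p false [0,0,1] [1] (⟨0,[(23,0)]⟩,⟨0,[(22,0)]⟩)
  .k 1 (⟨0,[]⟩,⟨0,[]⟩) .k .k) (.K ⟨0,[1,-1,-1],0,0,(⟨0,[(7,0)]⟩,⟨0,[(24,0),(2,0)]⟩),.k,(.r (-1) ⟨0,
  [(4,0)]⟩ ⟨0,[(22,0),(6,1),(0,1)]⟩),.k,.k,.k,[⟨0,[(0,0)]⟩,⟨0,[(1,0)]⟩,⟨1,[(0,0),(0,0),(9,0),(18,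
  1)]⟩,⟨0,[(16,0),(14,0)]⟩]⟩) (.Q [0,0,0,-1,0,0,-1,-1,0,0,1] (.p true [0,0,1] [] (⟨0,[(24,0)]⟩,⟨0,
  [(23,0)]⟩) .k 0 (⟨0,[]⟩,⟨0,[]⟩) .k .k) (.R ⟨2,true,false,false,[0,1],[0,1,1],[1,1,1,1],(⟨0,[]⟩,⟨0,
  []⟩),(⟨0,[(25,0),(2,0)]⟩,⟨0,[(8,0)]⟩),⟨0,[]⟩,.k,.k,.k,.k,.k,.k,⟨true,0,⟨1,[(7,0),(28,0)]⟩,⟨0,[(23,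
  0),(6,0)]⟩⟩,⟨false,1,⟨15,[(3,7),(3,3),(5,0),(0,0),(11,3),(6,7),(0,1)]⟩,⟨0,[(2,0)]⟩⟩,⟨false,0,⟨0,
  []⟩,⟨3,[(13,0),(0,0),(19,1)]⟩⟩,⟨true,0,⟨0,[(1,0),(1,0)]⟩,⟨0,[(20,0)]⟩⟩,⟨true,0,⟨0,[(31,0)]⟩,⟨0,
  [(32,0)]⟩⟩,⟨false,1,⟨1,[(4,1),(1,1),(7,0),(0,1),(18,0)]⟩,⟨0,[(0,0)]⟩⟩,[]⟩) (.Q [0,0,0,0,0,1,0,0,0,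
  -1,0,1] (.p true [0,0,0,1] [1] (⟨0,[(16,0)]⟩,⟨0,[(15,0)]⟩) .k 1 (⟨0,[]⟩,⟨0,[]⟩) .k .k) (.R ⟨0,
  false,false,false,[1,0,0,-1],[0,0,1],[0,1,0,0,0,0,0,0,-1],(⟨0,[(16,0)]⟩,⟨0,[(17,0)]⟩),(⟨0,[(26,
  0)]⟩,⟨0,[(25,0)]⟩),⟨0,[(0,0)]⟩,.k,.k,(.x (-1) ⟨3,[(14,0),(0,0),(11,1),(0,3)]⟩ ⟨0,[(29,0)]⟩),.k,.k,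
  .k,⟨false,0,⟨2,[(2,1),(1,0),(3,1),(1,1),(0,0),(4,0),(13,1)]⟩,⟨1,[(15,0),(8,1),(10,0)]⟩⟩,⟨true,0,
  ⟨0,[(16,0),(5,0)]⟩,⟨0,[(2,0),(14,0)]⟩⟩,⟨true,0,⟨0,[(37,0)]⟩,⟨0,[]⟩⟩,⟨false,1,⟨3,[(5,1),(7,1),(1,
  1),(0,3),(5,0),(0,0),(11,1)]⟩,⟨0,[(11,0),(6,0)]⟩⟩,⟨false,0,⟨0,[]⟩,⟨0,[]⟩⟩,⟨false,0,⟨0,[]⟩,⟨0,[]⟩⟩,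
  [.o ⟨false,0,⟨0,[(2,0),(1,0)]⟩,⟨1,[(21,1),(5,0),(7,0)]⟩⟩,.o ⟨false,1,⟨7,[(13,3),(0,0),(0,0),(11,
  1),(7,3)]⟩,⟨0,[(18,0)]⟩⟩,.o ⟨false,1,⟨1,[(17,1),(9,0),(6,0)]⟩,⟨0,[(5,0),(10,0)]⟩⟩,.a ⟨true,0,⟨0,
  [(17,0)]⟩,⟨0,[(16,0)]⟩⟩ ⟨false,0,⟨2,[(2,3),(1,1),(3,0),(1,0),(0,1),(4,1),(13,0)]⟩,⟨1,[(15,0),(6,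
  0),(0,0),(11,0)]⟩⟩ ⟨true,0,⟨0,[(2,0),(1,0),(11,0)]⟩,⟨0,[(17,0),(0,0)]⟩⟩]⟩) (.R ⟨1,false,false,
  false,[1,0,0,-1],[0,0,1],[1,1,0,0,0,0,0,0,-1],(⟨0,[(16,0)]⟩,⟨0,[(17,0)]⟩),(⟨0,[(26,0)]⟩,⟨0,[(25,
  0)]⟩),⟨0,[(0,0)]⟩,.k,.k,(.x (-1) ⟨3,[(14,0),(0,0),(11,1),(0,3)]⟩ ⟨0,[(29,0)]⟩),.k,(.r 0 ⟨0,[(2,1),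
  (1,0),(3,0),(2,0),(4,0),(16,0)]⟩ ⟨3,[(1,3),(12,0),(0,2),(7,3)]⟩),.k,⟨false,0,⟨2,[(2,1),(1,0),(3,
  1),(1,1),(0,0),(4,0),(13,1)]⟩,⟨1,[(15,0),(8,1),(10,0)]⟩⟩,⟨true,0,⟨0,[(16,0),(5,0)]⟩,⟨0,[(2,0),(14,
  0)]⟩⟩,⟨false,0,⟨0,[]⟩,⟨3,[(14,0),(0,0),(19,1)]⟩⟩,⟨false,1,⟨3,[(5,1),(7,1),(1,1),(0,3),(5,0),(0,0),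
  (11,1)]⟩,⟨0,[(11,0),(6,0)]⟩⟩,⟨true,0,⟨0,[(32,0)]⟩,⟨0,[(33,0)]⟩⟩,⟨false,1,⟨1,[(1,1),(13,0),(0,1),
  (5,0),(0,0),(11,0)]⟩,⟨0,[(11,0),(6,0),(14,0)]⟩⟩,[.o ⟨false,0,⟨0,[(2,0),(1,0)]⟩,⟨1,[(21,1),(5,0),
  (7,0)]⟩⟩,.o ⟨false,1,⟨7,[(13,3),(0,0),(0,0),(11,1),(7,3)]⟩,⟨0,[(18,0)]⟩⟩,.o ⟨false,1,⟨1,[(17,1),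
  (9,0),(6,0)]⟩,⟨0,[(5,0),(10,0)]⟩⟩,.a ⟨true,0,⟨0,[(17,0)]⟩,⟨0,[(16,0)]⟩⟩ ⟨false,0,⟨2,[(2,3),(1,1),
  (3,0),(1,0),(0,1),(4,1),(13,0)]⟩,⟨1,[(15,0),(6,0),(0,0),(11,0)]⟩⟩ ⟨true,0,⟨0,[(2,0),(1,0),(11,
  0)]⟩,⟨0,[(17,0),(0,0)]⟩⟩]⟩)))) (.Q [0,0,0,-1,0,0,-1,-1,0,0,1] (.p true [0,0,1] [] (⟨0,[(23,0)]⟩,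
  ⟨0,[(22,0)]⟩) .k 0 (⟨0,[]⟩,⟨0,[]⟩) .k .k) (.R ⟨2,true,false,true,[0,1],[0,1,1],[0,0,1],(⟨0,[]⟩,⟨0,
  []⟩),(⟨0,[(24,0),(2,0)]⟩,⟨0,[(7,0)]⟩),⟨0,[]⟩,.k,.k,.k,.k,.k,.k,⟨false,1,⟨1,[(0,1),(0,1),(30,0),(0,
  0)]⟩,⟨0,[(22,0),(7,0)]⟩⟩,⟨true,0,⟨0,[(1,0)]⟩,⟨0,[(21,0)]⟩⟩,⟨true,0,⟨0,[(31,0)]⟩,⟨0,[(30,0)]⟩⟩,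
  ⟨false,0,⟨0,[(1,0),(20,0)]⟩,⟨0,[(19,0),(13,0)]⟩⟩,⟨false,1,⟨3,[(12,0),(0,0),(19,1)]⟩,⟨0,[]⟩⟩,⟨true,
  0,⟨0,[(1,0),(20,0),(7,0)]⟩,⟨0,[(0,0)]⟩⟩,[]⟩) (.Q [0,0,0,0,0,1,0,0,0,-1,0,1] (.p true [0,0,0,1]
  [1] (⟨0,[(15,0)]⟩,⟨0,[(14,0)]⟩) .k 1 (⟨0,[]⟩,⟨0,[]⟩) .k .k) (.R ⟨0,false,false,true,[1,0,0,-1],[1,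
  0,-1],[0,1,0,0,0,0,0,0,-1],(⟨0,[(15,0)]⟩,⟨0,[(16,0)]⟩),(⟨0,[(24,0)]⟩,⟨0,[(25,0)]⟩),⟨0,[(0,0)]⟩,.k,
  .k,(.x (-1) ⟨3,[(13,0),(0,0),(11,1),(0,3)]⟩ ⟨0,[(28,0)]⟩),.k,.k,.k,⟨false,0,⟨0,[(1,0),(8,0),(4,0),
  (1,0),(5,0),(8,0)]⟩,⟨7,[(7,3),(5,0),(0,4),(19,1)]⟩⟩,⟨true,0,⟨0,[(15,0),(2,0)]⟩,⟨0,[(2,0),(13,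
  0)]⟩⟩,⟨true,0,⟨0,[(36,0)]⟩,⟨0,[]⟩⟩,⟨false,1,⟨3,[(7,1),(6,1),(0,3),(2,1),(3,1),(3,0),(7,0)]⟩,⟨0,
  [(1,0),(8,0),(21,0)]⟩⟩,⟨false,0,⟨0,[]⟩,⟨0,[]⟩⟩,⟨false,0,⟨0,[]⟩,⟨0,[]⟩⟩,[.o ⟨false,0,⟨0,[(17,0)]⟩,
  ⟨7,[(12,3),(0,0),(0,0),(11,1),(7,3)]⟩⟩,.o ⟨false,1,⟨1,[(20,1),(5,0),(7,0)]⟩,⟨0,[(1,0),(30,0)]⟩⟩,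
  .o ⟨false,1,⟨1,[(16,1),(9,0),(6,0)]⟩,⟨0,[(4,0),(10,0)]⟩⟩,.a ⟨true,0,⟨0,[(16,0)]⟩,⟨0,[(15,0)]⟩⟩
  ⟨false,0,⟨0,[(1,0),(8,0),(4,0),(1,0),(14,0)]⟩,⟨1,[(14,0),(6,0),(0,0),(11,0)]⟩⟩ ⟨true,0,⟨0,[(15,0),
  (1,0)]⟩,⟨0,[(1,0),(14,0),(15,0)]⟩⟩]⟩) (.R ⟨1,false,false,true,[1,0,0,-1],[1,0,-1],[0,1,0,-1,0,0,0,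
  0,-1],(⟨0,[(15,0)]⟩,⟨0,[(16,0)]⟩),(⟨0,[(24,0)]⟩,⟨0,[(25,0)]⟩),⟨0,[(0,0)]⟩,.k,.k,(.x (-1) ⟨3,[(13,
  0),(0,0),(11,1),(0,3)]⟩ ⟨0,[(28,0)]⟩),.k,(.r 0 ⟨0,[(1,0),(8,0),(4,0),(1,0),(5,0),(8,1)]⟩ ⟨3,[(7,
  1),(6,1),(6,0),(0,0),(7,1),(0,3),(2,1)]⟩),.k,⟨false,0,⟨0,[(1,0),(8,0),(4,0),(1,0),(5,0),(8,1)]⟩,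
  ⟨3,[(1,1),(5,1),(2,1),(3,2),(0,1),(1,1),(12,1),(0,1),(2,0)]⟩⟩,⟨true,0,⟨0,[(15,0),(2,0)]⟩,⟨0,[(2,
  0),(13,0)]⟩⟩,⟨false,0,⟨0,[(32,0)]⟩,⟨0,[(31,0),(2,0)]⟩⟩,⟨false,1,⟨3,[(7,1),(6,1),(0,3),(2,1),(3,1),
  (3,0),(7,0)]⟩,⟨0,[(1,0),(8,0),(21,0)]⟩⟩,⟨true,0,⟨0,[(36,0)]⟩,⟨0,[]⟩⟩,⟨false,1,⟨1,[(14,0),(0,1),(1,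
  1),(12,1),(0,1),(2,0)]⟩,⟨0,[(1,0),(8,0),(21,1)]⟩⟩,[.o ⟨false,0,⟨0,[(17,0)]⟩,⟨7,[(12,3),(0,0),(0,
  0),(11,1),(7,3)]⟩⟩,.o ⟨false,1,⟨1,[(20,1),(5,0),(7,0)]⟩,⟨0,[(1,0),(30,0)]⟩⟩,.o ⟨false,1,⟨1,[(16,
  1),(9,0),(6,0)]⟩,⟨0,[(4,0),(10,0)]⟩⟩,.a ⟨true,0,⟨0,[(16,0)]⟩,⟨0,[(15,0)]⟩⟩ ⟨false,0,⟨0,[(1,0),(8,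
  0),(4,0),(1,0),(14,1)]⟩,⟨1,[(14,0),(15,1),(0,1),(2,0)]⟩⟩ ⟨true,0,⟨0,[(15,0),(1,0)]⟩,⟨0,[(1,0),(14,
  0),(15,0)]⟩⟩]⟩)))))) (.I [0,0,-2,0,1,2,1] (.Q [0,0,0,0,0,0,1,0,0,1,-1] (.p false [0,0,1] [1] (⟨0,
  [(21,0)]⟩,⟨0,[(20,0)]⟩) .k 1 (⟨0,[]⟩,⟨0,[]⟩) .k .k) (.K ⟨0,[1,-1,-1],0,0,(⟨0,[(5,0)]⟩,⟨0,[(22,0),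
  (2,0)]⟩),.k,(.x 0 ⟨1,[(2,0),(2,1),(8,0),(0,0),(7,0),(0,1),(2,0),(1,1)]⟩ ⟨0,[(1,0)]⟩),.k,.k,.k,[⟨0,
  [(0,0)]⟩,⟨1,[(2,0),(4,1),(3,0),(0,1),(1,1),(5,0),(8,1)]⟩,⟨6,[(0,0),(0,0),(0,0),(6,2),(9,0),(1,0),
  (2,1),(1,0),(1,4)]⟩,⟨0,[(14,0),(14,0)]⟩]⟩) (.K ⟨0,[0,1,1],1,0,(⟨0,[(22,0),(2,0)]⟩,⟨0,[(5,0)]⟩),.k,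
  .k,(.x (-1) ⟨0,[(1,0)]⟩ ⟨0,[(0,0),(4,0),(9,0),(2,0),(5,0)]⟩),.k,.k,[⟨4,[(0,3),(1,6),(1,2),(2,3),
  (3,1),(0,3),(4,0),(11,13)]⟩,⟨3,[(4,1),(2,1),(1,1),(1,0),(0,1),(17,2)]⟩,⟨0,[(17,0),(11,0)]⟩,⟨7,[(0,
  3),(1,3),(1,3),(4,5),(13,0),(2,1),(3,2)]⟩]⟩)) (.Q [0,0,0,0,0,1,0,0,0,0,-1] (.ed true [1,-1,1] .k)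
  (.Q [0,0,1,1,0,0,1,0,0,0,-1] (.p false [0,0,1] [] (⟨0,[(22,0)]⟩,⟨0,[(21,0)]⟩) .k 0 (⟨0,[]⟩,⟨0,
  []⟩) .k .k) (.Q [0,0,0,1,0,0,-1,-1,0,0,1] (.p true [0,0,1] [] (⟨0,[(23,0)]⟩,⟨0,[(22,0)]⟩) .k 0
  (⟨0,[]⟩,⟨0,[]⟩) .k .k) (.R ⟨0,false,false,true,[0,1,-1],[0,1],[],(⟨0,[(2,0)]⟩,⟨0,[(24,0),(1,0)]⟩),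
  (⟨0,[(27,0)]⟩,⟨0,[(26,0)]⟩),⟨0,[(24,0)]⟩,.k,.k,.k,.k,.k,.k,⟨true,1,⟨1,[(31,1),(0,0),(0,0)]⟩,⟨1,
  [(4,1),(1,0),(24,1),(3,0)]⟩⟩,⟨false,1,⟨0,[(20,0),(11,0)]⟩,⟨0,[(0,0),(21,0),(8,0)]⟩⟩,⟨false,1,⟨1,
  [(22,1),(8,1),(0,0),(0,0)]⟩,⟨6,[(0,2),(0,3),(4,1),(14,0),(7,1)]⟩⟩,⟨true,0,⟨0,[(18,0)]⟩,⟨0,[(0,0),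
  (30,0)]⟩⟩,⟨false,0,⟨0,[]⟩,⟨0,[]⟩⟩,⟨false,0,⟨0,[]⟩,⟨0,[]⟩⟩,[.o ⟨false,0,⟨0,[(30,0)]⟩,⟨1,[(25,0),(5,
  1),(1,0)]⟩⟩,.a ⟨true,0,⟨1,[(0,1),(10,0),(2,0),(0,0)]⟩,⟨0,[(31,0)]⟩⟩ ⟨false,1,⟨1,[(32,0),(0,0)]⟩,
  ⟨0,[(35,0)]⟩⟩ ⟨true,0,⟨0,[(1,0)]⟩,⟨0,[(0,0),(21,0),(8,1)]⟩⟩,.e ⟨false,1,⟨3,[(12,0),(0,0),(19,1)]⟩,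
  ⟨0,[]⟩⟩ ⟨false,0,⟨0,[(1,0)]⟩,⟨1,[(0,1),(21,1),(8,3),(0,0),(0,0)]⟩⟩,.o ⟨false,0,⟨0,[(0,0),(21,0),
  (8,0)]⟩,⟨1,[(20,1),(4,0),(6,0)]⟩⟩]⟩) (.R ⟨0,false,false,true,[0,0,1],[0,1],[],(⟨0,[(24,0)]⟩,⟨0,
  [(23,0)]⟩),(⟨0,[(27,0)]⟩,⟨0,[(26,0)]⟩),⟨0,[(2,0)]⟩,.k,.k,.k,.k,.k,.k,⟨true,1,⟨1,[(31,1),(0,0),(0,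
  0)]⟩,⟨1,[(4,1),(1,0),(24,1),(3,0)]⟩⟩,⟨false,1,⟨1,[(9,1),(3,0),(0,1),(1,1),(5,1),(9,0)]⟩,⟨0,[(20,
  0)]⟩⟩,⟨false,1,⟨7,[(6,3),(5,0),(0,0),(19,5)]⟩,⟨0,[(22,0)]⟩⟩,⟨true,0,⟨7,[(4,3),(1,1),(2,1),(3,0),
  (0,1),(1,1),(2,5),(12,2)]⟩,⟨0,[(0,0)]⟩⟩,⟨false,0,⟨0,[]⟩,⟨0,[]⟩⟩,⟨false,0,⟨0,[]⟩,⟨0,[]⟩⟩,[.o
  ⟨false,0,⟨0,[(30,0)]⟩,⟨1,[(25,0),(5,1),(1,0)]⟩⟩,.a ⟨true,0,⟨6,[(4,1),(1,0),(2,3),(3,1),(0,6),(0,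
  2),(14,2)]⟩,⟨0,[(31,0)]⟩⟩ ⟨false,1,⟨1,[(32,0),(0,0)]⟩,⟨0,[(35,0)]⟩⟩ ⟨true,0,⟨1,[(4,0),(4,1),(3,0),
  (0,1),(1,1),(5,0)]⟩,⟨0,[(20,0),(10,0)]⟩⟩,.e ⟨false,1,⟨3,[(12,0),(0,0),(19,1)]⟩,⟨0,[]⟩⟩ ⟨false,0,
  ⟨1,[(4,0),(4,1),(3,0),(0,1),(1,1),(5,0)]⟩,⟨7,[(0,7),(5,3),(5,0),(0,0),(19,5)]⟩⟩,.o ⟨false,0,⟨0,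
  [(20,0)]⟩,⟨0,[(17,0),(14,0)]⟩⟩]⟩)) (.K ⟨1,[0,1,-1],0,0,(⟨0,[(1,0)]⟩,⟨0,[(23,0),(1,0)]⟩),.k,.k,(.r
  0 ⟨3,[(3,3),(1,3),(5,0),(0,0),(19,1)]⟩ ⟨7,[(0,7),(9,3),(0,0),(0,0),(11,1),(5,7),(0,3)]⟩),.k,.k,
  [⟨1,[(19,2),(0,0)]⟩,⟨7,[(0,3),(2,1),(14,1),(1,1),(10,0),(0,0)]⟩,⟨0,[(17,0),(12,0)]⟩,⟨1,[(0,1),(2,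
  1),(1,1),(2,1),(3,0),(0,1),(18,0)]⟩]⟩)) (.K ⟨2,[0,-1,1],0,0,(⟨0,[(0,0)]⟩,⟨0,[(21,0),(3,0)]⟩),.k,
  (.r (-1) ⟨0,[(20,0),(8,1),(0,0)]⟩ ⟨3,[(2,3),(1,3),(5,0),(0,0),(19,1)]⟩),.k,.k,.k,[⟨0,[(29,0)]⟩,⟨7,
  [(2,3),(1,1),(2,1),(3,0),(0,1),(1,1),(2,5),(12,2)]⟩,⟨2,[(1,0),(5,1),(3,0),(0,1),(1,1),(5,1),(1,0),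
  (2,1)]⟩,⟨1,[(18,2),(0,0)]⟩]⟩)))))

theorem ok2 : chk (cU (-1) true 3) t2 l4 = true := by decide +kernel

noncomputable def l5 : List Con := (false, [0,0,0,-1,0,0,1,1,0,0,-1]) :: r4

noncomputable def r5 : List Con := (false, [0,0,0,1,0,0,-1,-1,0,0,1]) :: r4

noncomputable def l6 : List Con := (false, [0,0,0,0,0,0,-1,-1,0,0,1]) :: l5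

noncomputable def r6 : List Con := (false, [0,0,0,0,0,0,1,1,0,0,-1]) :: l5

noncomputable def t3 : Tre :=
  (.I [0,1,1,0,0,0,0,0,1] (.Q [0,0,1,0,0,0,0,0,0,-1] (.pp true [-1,1]) (.R ⟨2,false,false,false,[0,
  1],[0,0,1],[],(⟨0,[]⟩,⟨0,[]⟩),(⟨0,[(22,0)]⟩,⟨0,[(21,0)]⟩),⟨0,[]⟩,.k,.k,.k,.k,.k,.k,⟨false,1,⟨0,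
  [(2,0),(15,0),(11,0)]⟩,⟨6,[(4,2),(11,0),(2,0),(6,0)]⟩⟩,⟨true,0,⟨0,[(18,0)]⟩,⟨1,[(2,0),(1,0),(12,
  0)]⟩⟩,⟨false,1,⟨1,[(29,1),(0,0),(0,0)]⟩,⟨0,[(27,0),(0,0)]⟩⟩,⟨true,0,⟨0,[(3,0)]⟩,⟨0,[(2,0),(25,
  0)]⟩⟩,⟨false,1,⟨1,[(30,0),(0,0)]⟩,⟨1,[(18,0),(0,0)]⟩⟩,⟨false,1,⟨7,[(9,3),(0,0),(0,0),(11,1),(7,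
  3)]⟩,⟨0,[(2,0)]⟩⟩,[.a ⟨true,0,⟨1,[(9,0),(2,0),(0,0)]⟩,⟨0,[(2,0)]⟩⟩ ⟨false,1,⟨3,[(10,0),(0,0),(18,
  1)]⟩,⟨0,[]⟩⟩ ⟨true,0,⟨1,[(9,0),(5,0),(2,0)]⟩,⟨0,[(2,0)]⟩⟩,.o ⟨false,1,⟨7,[(9,3),(0,0),(0,0),(11,
  1),(7,3)]⟩,⟨0,[(14,0)]⟩⟩,.o ⟨false,1,⟨3,[(10,0),(0,0),(18,1)]⟩,⟨0,[(0,0)]⟩⟩,.e ⟨false,1,⟨1,[(30,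
  0),(0,0)]⟩,⟨1,[(18,0),(0,0)]⟩⟩ ⟨false,1,⟨7,[(9,3),(0,0),(0,0),(11,1),(7,3)]⟩,⟨0,[(2,0)]⟩⟩]⟩) (.R
  ⟨2,true,false,false,[0,1],[0,0,1],[0,1,1],(⟨0,[]⟩,⟨0,[]⟩),(⟨0,[(22,0)]⟩,⟨0,[(21,0)]⟩),⟨0,[]⟩,.k,
  .k,.k,.k,.k,.k,⟨false,0,⟨0,[(0,0),(13,0),(3,0)]⟩,⟨7,[(4,3),(5,0),(0,0),(18,3),(0,1)]⟩⟩,⟨true,0,⟨0,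
  [(18,0)]⟩,⟨1,[(2,0),(1,0),(12,0)]⟩⟩,⟨false,0,⟨0,[(29,0)]⟩,⟨0,[(28,0),(2,0)]⟩⟩,⟨true,0,⟨0,[(3,0)]⟩,
  ⟨0,[(2,0),(25,0)]⟩⟩,⟨true,0,⟨0,[(33,0)]⟩,⟨0,[]⟩⟩,⟨false,1,⟨7,[(9,3),(0,0),(0,0),(11,1),(7,3)]⟩,⟨0,
  [(2,0)]⟩⟩,[]⟩)) (.Q [0,0,1,0,0,0,0,0,0,-1] (.pp true [-1,1]) (.R ⟨2,false,false,false,[0,1],[0,0,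
  1],[],(⟨0,[]⟩,⟨0,[]⟩),(⟨0,[(22,0)]⟩,⟨0,[(21,0)]⟩),⟨0,[]⟩,.k,.k,.k,.k,.k,.k,⟨false,1,⟨0,[(2,0),(15,
  0),(11,0)]⟩,⟨6,[(4,2),(11,0),(2,0),(6,0)]⟩⟩,⟨true,0,⟨0,[(18,0)]⟩,⟨1,[(2,0),(1,0),(12,0)]⟩⟩,⟨false,
  1,⟨1,[(29,1),(0,0),(0,0)]⟩,⟨0,[(27,0),(0,0)]⟩⟩,⟨true,0,⟨0,[(3,0)]⟩,⟨0,[(2,0),(25,0)]⟩⟩,⟨false,1,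
  ⟨1,[(30,0),(0,0)]⟩,⟨1,[(18,0),(0,0)]⟩⟩,⟨false,1,⟨7,[(9,3),(0,0),(0,0),(11,1),(7,3)]⟩,⟨0,[(2,0)]⟩⟩,
  [.a ⟨true,0,⟨1,[(9,0),(2,0),(0,0)]⟩,⟨0,[(2,0)]⟩⟩ ⟨false,1,⟨3,[(10,0),(0,0),(18,1)]⟩,⟨0,[]⟩⟩ ⟨true,
  0,⟨1,[(9,0),(5,0),(2,0)]⟩,⟨0,[(2,0)]⟩⟩,.o ⟨false,1,⟨7,[(9,3),(0,0),(0,0),(11,1),(7,3)]⟩,⟨0,[(14,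
  0)]⟩⟩,.o ⟨false,1,⟨3,[(10,0),(0,0),(18,1)]⟩,⟨0,[(0,0)]⟩⟩,.e ⟨false,1,⟨1,[(30,0),(0,0)]⟩,⟨1,[(18,
  0),(0,0)]⟩⟩ ⟨false,1,⟨7,[(9,3),(0,0),(0,0),(11,1),(7,3)]⟩,⟨0,[(2,0)]⟩⟩]⟩) (.R ⟨2,true,false,true,
  [0,1],[0,0,1],[1,0,1,1],(⟨0,[]⟩,⟨0,[]⟩),(⟨0,[(22,0)]⟩,⟨0,[(21,0)]⟩),⟨0,[]⟩,.k,.k,.k,.k,.k,.k,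
  ⟨false,1,⟨1,[(1,1),(0,1),(8,0),(6,1),(9,1),(2,0)]⟩,⟨1,[(0,0),(2,0),(0,0),(9,0),(11,0),(2,0)]⟩⟩,
  ⟨true,0,⟨0,[(18,0)]⟩,⟨1,[(2,0),(1,0),(12,0)]⟩⟩,⟨true,0,⟨0,[]⟩,⟨0,[(33,0)]⟩⟩,⟨false,0,⟨0,[(3,0)]⟩,
  ⟨0,[(2,0),(25,0),(2,0)]⟩⟩,⟨false,1,⟨0,[(28,0),(2,0)]⟩,⟨0,[(29,0)]⟩⟩,⟨true,0,⟨0,[(16,0)]⟩,⟨0,[(2,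
  0)]⟩⟩,[]⟩)))

theorem ok3 : chk (cU (-1) true 3) t3 l6 = true := by decide +kernel

noncomputable def l7 : List Con := (false, [0,1,1,-1,0,0,0,0,1,0,0,-1]) :: r6

noncomputable def r7 : List Con := (false, [0,-1,-1,1,0,0,0,0,-1,0,0,1]) :: r6

noncomputable def t4 : Tre :=
  (.Q [0,0,0,1,0,0,1,1,0,1,-1] (.p false [0,0,1] [1] (⟨0,[(21,0)]⟩,⟨0,[(20,0)]⟩) .k 1 (⟨0,[]⟩,⟨0,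
  []⟩) .k .k) (.Q [0,1,1,0,0,0,0,0,1,1,0,-1] (.p false [0,0,0,1] [1] (⟨0,[(13,0)]⟩,⟨0,[(12,0)]⟩) .k
  1 (⟨0,[]⟩,⟨0,[]⟩) .k .k) (.R ⟨2,false,false,true,[0,1],[0,0,0,1],[1,1,0,0,0,0,0,0,1],(⟨0,[]⟩,⟨0,
  []⟩),(⟨0,[(14,0)]⟩,⟨0,[(13,0)]⟩),⟨0,[]⟩,.k,.k,.k,(.r 0 ⟨1,[(7,1),(11,0),(0,0),(8,1)]⟩ ⟨1,[(12,0),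
  (17,1),(0,0)]⟩),.k,.k,⟨true,0,⟨0,[]⟩,⟨1,[(19,0),(0,0)]⟩⟩,⟨false,0,⟨0,[(3,0),(9,0),(1,0),(12,0)]⟩,
  ⟨0,[(14,0),(16,0)]⟩⟩,⟨false,1,⟨1,[(12,0),(17,1),(0,0)]⟩,⟨0,[(7,0),(20,0),(0,0)]⟩⟩,⟨true,0,⟨0,[(2,
  0)]⟩,⟨0,[(8,0),(20,0)]⟩⟩,⟨false,1,⟨1,[(12,0),(18,0)]⟩,⟨1,[(7,1),(11,0),(0,0)]⟩⟩,⟨false,1,⟨1,[(0,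
  1),(23,0),(7,0)]⟩,⟨0,[(8,0)]⟩⟩,[.a ⟨true,0,⟨0,[(0,0)]⟩,⟨0,[(8,0)]⟩⟩ ⟨false,1,⟨7,[(11,0),(0,4),(14,
  3),(3,1)]⟩,⟨0,[(7,0)]⟩⟩ ⟨true,0,⟨0,[(2,0),(25,0),(0,0)]⟩,⟨0,[(8,0)]⟩⟩,.o ⟨false,1,⟨1,[(0,1),(23,
  0),(7,0)]⟩,⟨0,[(3,0),(4,0),(6,0)]⟩⟩,.o ⟨false,1,⟨3,[(11,0),(0,0),(18,1)]⟩,⟨0,[(3,0),(11,0),(12,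
  0)]⟩⟩,.e ⟨false,1,⟨1,[(12,0),(18,0)]⟩,⟨1,[(7,1),(11,0),(0,0)]⟩⟩ ⟨false,1,⟨1,[(0,1),(23,0),(7,0)]⟩,
  ⟨0,[(8,0)]⟩⟩]⟩) (.Q [0,0,0,0,0,1,0,0,0,-1,0,1] (.p true [0,0,0,1] [1] (⟨0,[(14,0)]⟩,⟨0,[(13,0)]⟩)
  .k 1 (⟨0,[]⟩,⟨0,[]⟩) .k .k) (.I [0,0,-2,-1,0,0,0,0,-1] (.R ⟨0,false,false,true,[1,0,0,-1],[0,1],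
  [0,1,0,0,0,0,0,0,-1],(⟨0,[(15,0)]⟩,⟨0,[(16,0)]⟩),(⟨0,[(28,0)]⟩,⟨0,[(27,0)]⟩),⟨0,[(1,0)]⟩,.k,.k,
  (.x (-1) ⟨3,[(13,0),(0,0),(11,1),(0,3)]⟩ ⟨0,[(28,0)]⟩),(.x (-1) ⟨3,[(13,0),(0,0),(11,1),(0,3)]⟩
  ⟨0,[(28,0)]⟩),.k,.k,⟨false,0,⟨0,[(0,0)]⟩,⟨1,[(14,0),(6,0),(0,0),(8,1),(2,0)]⟩⟩,⟨true,0,⟨0,[(15,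
  0)]⟩,⟨0,[(5,0),(10,0),(0,0),(12,0)]⟩⟩,⟨true,0,⟨0,[(36,0)]⟩,⟨0,[]⟩⟩,⟨false,1,⟨1,[(14,0),(0,1),(5,
  0),(0,0),(8,1),(2,0)]⟩,⟨0,[(2,0),(29,0)]⟩⟩,⟨false,0,⟨0,[]⟩,⟨0,[]⟩⟩,⟨false,0,⟨0,[]⟩,⟨0,[]⟩⟩,[.o
  ⟨false,0,⟨0,[(31,0)]⟩,⟨1,[(26,0),(5,1),(1,0)]⟩⟩,.o ⟨false,1,⟨3,[(13,0),(0,0),(16,3),(2,1)]⟩,⟨0,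
  [(2,0),(1,0)]⟩⟩,.o ⟨false,1,⟨5,[(2,1),(8,3),(2,2),(11,1),(7,0)]⟩,⟨0,[(5,0),(9,0),(1,0),(12,0)]⟩⟩,
  .a ⟨true,0,⟨0,[(16,0)]⟩,⟨0,[(15,0)]⟩⟩ ⟨false,0,⟨1,[(0,0),(8,0),(21,0)]⟩,⟨1,[(14,0),(6,0),(0,0),
  (11,0)]⟩⟩ ⟨true,0,⟨0,[(15,0),(15,0)]⟩,⟨0,[(2,0),(1,0),(11,0)]⟩⟩]⟩) (.Q [0,0,0,0,0,0,-1,0,0,0,1]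
  (.p true [0,0,1] [] (⟨0,[(25,0)]⟩,⟨0,[(24,0)]⟩) .k 0 (⟨0,[]⟩,⟨0,[]⟩) .k .k) (.Q [0,1,0,1,0,0,-1,
  -1,0,0,1] (.p true [0,0,1] [] (⟨0,[(26,0)]⟩,⟨0,[(25,0)]⟩) .k 0 (⟨0,[]⟩,⟨0,[]⟩) .k .k) (.Q [0,0,0,
  0,0,1,0,0,0,0,-1] (.ed true [1,-1,1] .k) (.K ⟨2,[1,-1,1],0,0,(⟨0,[(28,0),(1,0)]⟩,⟨0,[(0,0)]⟩),.k,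
  (.r (-1) ⟨3,[(7,0),(2,1),(3,0),(20,6),(0,3)]⟩ ⟨0,[(1,0),(1,0),(1,0),(12,0),(5,0)]⟩),.k,.k,.k,[⟨0,
  [(5,0),(1,0)]⟩,⟨0,[(1,0),(16,0),(0,0)]⟩,⟨0,[(2,0),(15,0),(0,0)]⟩,⟨1,[(3,0),(1,0),(1,0),(0,0),(3,
  0),(7,0),(3,1)]⟩]⟩) (.K ⟨2,[0,-1,1],0,0,(⟨0,[(0,0)]⟩,⟨0,[(27,0),(3,0)]⟩),.k,(.r (-1) ⟨3,[(7,0),(2,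
  1),(3,0),(20,6),(0,3)]⟩ ⟨0,[(1,0),(1,0),(1,0),(12,0),(5,0)]⟩),.k,.k,.k,[⟨0,[(35,0)]⟩,⟨0,[(1,0)]⟩,
  ⟨0,[(2,0)]⟩,⟨1,[(24,2),(0,0)]⟩]⟩)) (.Q [0,0,0,0,0,0,1,0,0,1,-1] (.p false [0,0,1] [1] (⟨0,[(27,
  0)]⟩,⟨0,[(26,0)]⟩) .k 1 (⟨0,[]⟩,⟨0,[]⟩) .k .k) (.K ⟨0,[1,-1,-1],0,0,(⟨0,[(11,0)]⟩,⟨0,[(28,0),(2,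
  0)]⟩),.k,(.r (-1) ⟨1,[(0,1),(4,1),(11,0),(0,1),(1,1),(14,3),(0,0)]⟩ ⟨5,[(3,4),(6,1),(1,4),(2,0),
  (5,0),(3,0),(8,6)]⟩),.k,.k,.k,[⟨0,[(0,0)]⟩,⟨0,[(2,0)]⟩,⟨3,[(0,0),(5,1),(8,0),(9,0),(6,0),(1,1)]⟩,
  ⟨0,[(20,0),(14,0)]⟩]⟩) (.I [0,1,-1,0,0,0,0,1] (.R ⟨0,false,false,true,[1,0,0,-1],[0,0,1],[1,0,1],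
  (⟨0,[(19,0)]⟩,⟨0,[(20,0)]⟩),(⟨0,[(29,0)]⟩,⟨0,[(28,0)]⟩),⟨0,[(5,0)]⟩,.k,.k,(.x (-1) ⟨3,[(17,0),(0,
  0),(11,1),(0,3)]⟩ ⟨0,[(32,0)]⟩),.k,.k,.k,⟨false,1,⟨1,[(14,1),(3,0),(0,1),(1,1),(3,1),(12,0)]⟩,⟨0,
  [(0,0)]⟩⟩,⟨true,0,⟨0,[(19,0),(5,0)]⟩,⟨0,[(1,0),(18,0)]⟩⟩,⟨false,1,⟨1,[(18,0),(6,0),(0,0),(11,0)]⟩,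
  ⟨1,[(6,0),(6,0),(5,0),(13,0)]⟩⟩,⟨true,0,⟨0,[(7,0),(0,0)]⟩,⟨0,[(6,0),(17,0)]⟩⟩,⟨false,0,⟨0,[]⟩,⟨0,
  []⟩⟩,⟨false,0,⟨0,[]⟩,⟨0,[]⟩⟩,[.o ⟨false,0,⟨0,[(23,0)]⟩,⟨0,[(21,0),(16,0)]⟩⟩,.o ⟨false,0,⟨0,[(9,
  0)]⟩,⟨1,[(24,1),(5,0),(7,0)]⟩⟩,.o ⟨false,1,⟨5,[(6,1),(8,3),(2,2),(11,1),(7,0)]⟩,⟨0,[(1,0),(17,0),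
  (5,0)]⟩⟩,.a ⟨true,0,⟨0,[(20,0)]⟩,⟨0,[(19,0)]⟩⟩ ⟨true,0,⟨0,[]⟩,⟨0,[(40,0)]⟩⟩ ⟨false,0,⟨0,[(9,0),(9,
  0)]⟩,⟨0,[(20,0),(0,0),(16,0)]⟩⟩]⟩) (.R ⟨0,false,false,false,[1,0,0,-1],[0,0,1],[0,1,0,0,0,0,0,0,
  -1],(⟨0,[(19,0)]⟩,⟨0,[(20,0)]⟩),(⟨0,[(29,0)]⟩,⟨0,[(28,0)]⟩),⟨0,[(5,0)]⟩,.k,.k,(.x (-1) ⟨3,[(17,0),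
  (0,0),(11,1),(0,3)]⟩ ⟨0,[(32,0)]⟩),.k,.k,.k,⟨false,0,⟨1,[(0,1),(5,0),(6,0),(5,0),(13,2)]⟩,⟨7,[(11,
  3),(5,0),(0,4),(19,1)]⟩⟩,⟨true,0,⟨0,[(19,0),(5,0)]⟩,⟨0,[(1,0),(18,0)]⟩⟩,⟨true,0,⟨0,[(40,0)]⟩,⟨0,
  []⟩⟩,⟨false,1,⟨23,[(4,7),(3,7),(7,11),(0,0),(0,4),(0,15),(10,1),(7,15)]⟩,⟨0,[(6,0),(17,0)]⟩⟩,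
  ⟨false,0,⟨0,[]⟩,⟨0,[]⟩⟩,⟨false,0,⟨0,[]⟩,⟨0,[]⟩⟩,[.o ⟨false,0,⟨0,[(9,0)]⟩,⟨1,[(24,1),(5,0),(7,
  0)]⟩⟩,.o ⟨false,1,⟨7,[(16,3),(0,0),(0,0),(11,1),(7,3)]⟩,⟨0,[(21,0)]⟩⟩,.o ⟨false,1,⟨5,[(6,1),(8,3),
  (2,2),(11,1),(7,0)]⟩,⟨0,[(1,0),(17,0),(5,0)]⟩⟩,.a ⟨true,0,⟨0,[(20,0)]⟩,⟨0,[(19,0)]⟩⟩ ⟨false,0,⟨1,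
  [(6,0),(6,0),(5,0),(13,0)]⟩,⟨1,[(18,0),(6,0),(0,0),(11,0)]⟩⟩ ⟨true,0,⟨0,[(9,0),(9,0)]⟩,⟨0,[(20,0),
  (0,0)]⟩⟩]⟩)))) (.R ⟨0,false,false,true,[1,0,0,-1],[0,0,1],[0,1,1],(⟨0,[(16,0)]⟩,⟨0,[(17,0)]⟩),(⟨0,
  [(26,0)]⟩,⟨0,[(25,0)]⟩),⟨0,[(2,0)]⟩,.k,.k,(.x (-1) ⟨3,[(14,0),(0,0),(11,1),(0,3)]⟩ ⟨0,[(29,0)]⟩),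
  .k,.k,.k,⟨true,0,⟨0,[(0,0),(20,0),(9,0)]⟩,⟨6,[(8,2),(11,0),(2,0),(6,0)]⟩⟩,⟨false,0,⟨0,[(0,0),(15,
  0)]⟩,⟨1,[(3,0),(8,0),(2,0),(3,0),(3,0),(10,0)]⟩⟩,⟨false,1,⟨3,[(14,0),(0,2),(6,1),(0,1)]⟩,⟨0,[(3,
  0),(12,0)]⟩⟩,⟨true,0,⟨0,[(4,0),(0,0)]⟩,⟨0,[(3,0),(17,0)]⟩⟩,⟨false,0,⟨0,[]⟩,⟨0,[]⟩⟩,⟨false,0,⟨0,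
  []⟩,⟨0,[]⟩⟩,[.o ⟨false,0,⟨0,[(20,0)]⟩,⟨0,[(18,0),(16,0)]⟩⟩,.o ⟨false,0,⟨0,[(6,0)]⟩,⟨1,[(21,1),(5,
  0),(7,0)]⟩⟩,.o ⟨false,1,⟨5,[(3,1),(8,3),(2,2),(11,1),(7,0)]⟩,⟨0,[(0,0),(15,0),(2,0)]⟩⟩,.a ⟨true,0,
  ⟨0,[(17,0)]⟩,⟨0,[(16,0)]⟩⟩ ⟨true,0,⟨0,[(37,0)]⟩,⟨0,[]⟩⟩ ⟨false,0,⟨0,[(6,0),(9,0)]⟩,⟨0,[(17,0),(0,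
  0),(16,0)]⟩⟩]⟩))) (.I [0,0,-2,-2,0,0,0,0,-1] (.R ⟨1,false,false,true,[1,0,0,-1],[0,1],[0,1,0,-1,0,
  0,0,0,-1],(⟨0,[(15,0)]⟩,⟨0,[(16,0)]⟩),(⟨0,[(28,0)]⟩,⟨0,[(27,0)]⟩),⟨0,[(1,0)]⟩,.k,.k,(.x (-1) ⟨3,
  [(13,0),(0,0),(11,1),(0,3)]⟩ ⟨0,[(28,0)]⟩),(.x (-1) ⟨3,[(13,0),(0,0),(11,1),(0,3)]⟩ ⟨0,[(28,0)]⟩),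
  (.r 0 ⟨0,[(0,0)]⟩ ⟨1,[(14,0),(6,0),(0,0),(7,1),(0,3),(2,0)]⟩),.k,⟨false,0,⟨0,[(0,0)]⟩,⟨1,[(14,0),
  (15,1),(0,3),(2,0)]⟩⟩,⟨true,0,⟨0,[(15,0)]⟩,⟨0,[(5,0),(10,0),(0,0),(12,0)]⟩⟩,⟨false,0,⟨0,[(32,0)]⟩,
  ⟨0,[(31,0),(2,0)]⟩⟩,⟨false,1,⟨1,[(14,0),(0,1),(5,0),(0,0),(8,1),(2,0)]⟩,⟨0,[(2,0),(29,0)]⟩⟩,⟨true,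
  0,⟨0,[(36,0)]⟩,⟨0,[]⟩⟩,⟨false,1,⟨1,[(14,0),(0,1),(14,1),(0,3),(2,0)]⟩,⟨0,[(2,0),(29,1)]⟩⟩,[.o
  ⟨false,0,⟨0,[(31,0)]⟩,⟨1,[(26,0),(5,1),(1,0)]⟩⟩,.o ⟨false,1,⟨3,[(13,0),(0,0),(16,3),(2,1)]⟩,⟨0,
  [(2,0),(1,0)]⟩⟩,.o ⟨false,1,⟨5,[(2,1),(8,3),(2,2),(11,1),(7,0)]⟩,⟨0,[(5,0),(9,0),(1,0),(12,0)]⟩⟩,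
  .a ⟨true,0,⟨0,[(16,0)]⟩,⟨0,[(15,0)]⟩⟩ ⟨false,0,⟨6,[(0,2),(3,0),(4,3),(1,0),(17,0)]⟩,⟨1,[(14,0),
  (15,1),(0,1),(2,0)]⟩⟩ ⟨true,0,⟨0,[(15,0),(15,0)]⟩,⟨0,[(2,0),(1,0),(11,0)]⟩⟩]⟩) (.Q [0,-1,0,-1,0,0,
  1,1,0,1,-1] (.p false [0,0,1] [1] (⟨0,[(25,0)]⟩,⟨0,[(24,0)]⟩) .k 1 (⟨0,[]⟩,⟨0,[]⟩) .k .k) (.Q [0,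
  0,0,0,0,0,1,0,0,0,-1,1] (.p false [0,0,1] [0,0,0,1] (⟨0,[(26,0)]⟩,⟨0,[(25,0)]⟩) .k 2 (⟨0,[(17,
  0)]⟩,⟨0,[(16,0)]⟩) .k (.r 0 ⟨6,[(8,1),(1,6),(9,2),(2,2),(6,2)]⟩ ⟨0,[(11,0),(3,0),(0,0),(1,0),(3,
  0)]⟩)) (.R ⟨1,false,false,true,[1,0,0,-1],[1,0,-1],[0,1,0,-1,0,0,0,0,-1],(⟨0,[(17,0)]⟩,⟨0,[(18,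
  0)]⟩),(⟨0,[(26,0)]⟩,⟨0,[(27,0)]⟩),⟨0,[(3,0)]⟩,.k,.k,(.x (-1) ⟨3,[(15,0),(0,0),(11,1),(0,3)]⟩ ⟨0,
  [(30,0)]⟩),.k,(.r 0 ⟨3,[(4,0),(4,1),(1,2),(5,0),(13,2),(2,3)]⟩ ⟨3,[(0,1),(1,1),(13,0),(0,1),(1,1),
  (2,1),(0,1),(11,0),(0,1)]⟩),.k,⟨false,0,⟨3,[(4,0),(4,1),(1,2),(5,0),(13,2),(2,3)]⟩,⟨3,[(0,3),(1,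
  1),(1,1),(11,1),(0,5),(1,3),(15,0),(0,0)]⟩⟩,⟨true,0,⟨0,[(17,0),(2,0)]⟩,⟨0,[(0,0)]⟩⟩,⟨false,0,⟨0,
  [(34,0)]⟩,⟨7,[(2,3),(8,1),(3,0),(19,3),(0,2)]⟩⟩,⟨false,1,⟨7,[(2,1),(3,3),(9,0),(0,3),(1,1),(2,5),
  (5,0),(7,5)]⟩,⟨1,[(4,0),(7,0),(1,0)]⟩⟩,⟨true,0,⟨0,[(38,0)]⟩,⟨0,[]⟩⟩,⟨false,1,⟨3,[(2,1),(13,0),(0,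
  3),(1,1),(2,1),(5,0),(7,1)]⟩,⟨2,[(1,1),(2,1),(3,0),(4,0)]⟩⟩,[.o ⟨false,0,⟨0,[(19,0)]⟩,⟨7,[(14,3),
  (0,0),(0,0),(11,1),(7,3)]⟩⟩,.o ⟨false,1,⟨1,[(22,1),(5,0),(7,0)]⟩,⟨0,[(7,0)]⟩⟩,.o ⟨false,1,⟨5,[(4,
  1),(8,3),(2,2),(11,1),(7,0)]⟩,⟨2,[(2,0),(1,0),(1,1),(0,0),(3,1),(5,1),(1,0)]⟩⟩,.a ⟨true,0,⟨0,[(18,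
  0)]⟩,⟨0,[(17,0)]⟩⟩ ⟨false,0,⟨1,[(4,0),(6,0),(5,0),(13,0),(2,1)]⟩,⟨7,[(2,3),(12,0),(0,2),(19,3)]⟩⟩
  ⟨true,0,⟨0,[(17,0),(1,0)]⟩,⟨2,[(0,1),(8,0),(8,0),(2,0)]⟩⟩]⟩) (.I [1,0,-1,0,1,0,0,-2] (.Q [0,0,0,0,
  0,0,1,0,0,1,-1] (.p false [0,0,1] [1] (⟨0,[(28,0)]⟩,⟨0,[(27,0)]⟩) .k 1 (⟨0,[]⟩,⟨0,[]⟩) .k .k) (.K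
  ⟨0,[1,-1,-1],0,0,(⟨0,[(12,0)]⟩,⟨0,[(29,0),(2,0)]⟩),.k,(.r (-1) ⟨1,[(1,0),(4,1),(11,0),(0,1),(13,
  0),(2,3)]⟩ ⟨3,[(4,2),(6,0),(1,2),(9,1),(2,1),(8,1)]⟩),.k,.k,.k,[⟨0,[(0,0)]⟩,⟨0,[(2,0),(17,0)]⟩,⟨3,
  [(0,0),(6,1),(8,0),(9,0),(6,0),(1,1)]⟩,⟨0,[(21,0),(14,0)]⟩]⟩) (.I [1,1,1,1,0,0,0,-1] (.Q [0,0,0,0,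
  0,1,0,0,0,0,-1] (.ed true [1,-1,1] .k) (.Q [0,1,0,1,0,0,-1,-1,0,1,1] (.p true [1,-1,1] [] (⟨0,
  [(31,0),(1,0)]⟩,⟨0,[(0,0)]⟩) .k 0 (⟨0,[]⟩,⟨0,[]⟩) .k .k) (.K ⟨2,[1,-1,1],0,0,(⟨0,[(32,0),(1,0)]⟩,
  ⟨0,[(1,0)]⟩),.k,(.r (-1) ⟨3,[(11,0),(2,1),(3,0),(20,6),(0,3)]⟩ ⟨1,[(2,1),(4,0),(1,0),(12,0),(14,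
  0)]⟩),.k,.k,.k,[⟨0,[(9,0),(1,0)]⟩,⟨0,[(0,0)]⟩,⟨0,[(0,0),(2,0),(2,0)]⟩,⟨0,[(3,0),(24,1)]⟩]⟩) (.I
  [0,0,-1,-1,0,0,0,1] (.R ⟨2,true,false,false,[0,1],[0,0,1],[1,0,1,1],(⟨0,[]⟩,⟨0,[]⟩),(⟨0,[(33,0)]⟩,
  ⟨0,[(32,0)]⟩),⟨0,[]⟩,.k,.k,.k,.k,.k,.k,⟨false,1,⟨3,[(5,1),(2,1),(12,0),(19,0)]⟩,⟨0,[(0,0)]⟩⟩,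
  ⟨true,0,⟨0,[(29,0)]⟩,⟨0,[(6,0),(17,0)]⟩⟩,⟨true,0,⟨0,[]⟩,⟨7,[(3,0),(8,0),(6,0),(7,0),(2,0),(6,
  1)]⟩⟩,⟨false,0,⟨1,[(1,0),(5,0)]⟩,⟨27,[(5,1),(0,3),(1,13),(9,3),(2,4),(6,23),(12,10),(0,9)]⟩⟩,
  ⟨false,1,⟨7,[(8,3),(8,1),(3,0),(19,3),(0,2)]⟩,⟨0,[(40,0)]⟩⟩,⟨true,0,⟨0,[(13,0)]⟩,⟨0,[(28,0)]⟩⟩,
  []⟩) (.R ⟨1,false,false,false,[1,0,0,-1],[0,0,1],[0,1,0,-1,0,0,0,0,-1],(⟨0,[(23,0)]⟩,⟨0,[(24,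
  0)]⟩),(⟨0,[(33,0)]⟩,⟨0,[(32,0)]⟩),⟨0,[(9,0)]⟩,.k,.k,(.x (-1) ⟨3,[(21,0),(0,0),(11,1),(0,3)]⟩ ⟨0,
  [(36,0)]⟩),.k,(.x 0 ⟨0,[(4,0),(11,0)]⟩ ⟨11,[(5,3),(14,3),(0,2),(0,2),(6,3),(3,11),(0,1),(1,11)]⟩),
  .k,⟨false,0,⟨0,[(0,0),(9,0),(12,0),(13,0),(2,1)]⟩,⟨3,[(8,1),(6,1),(6,0),(18,1),(0,0)]⟩⟩,⟨true,0,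
  ⟨0,[(23,0),(5,0)]⟩,⟨0,[(4,0),(19,0)]⟩⟩,⟨false,0,⟨0,[(40,0)]⟩,⟨7,[(8,3),(8,1),(3,0),(19,3),(0,
  2)]⟩⟩,⟨false,1,⟨15,[(8,3),(3,7),(7,7),(0,0),(0,2),(0,7),(18,11)]⟩,⟨0,[(10,0),(17,0)]⟩⟩,⟨true,0,⟨7,
  [(3,0),(8,0),(6,0),(7,0),(2,0),(6,1)]⟩,⟨0,[]⟩⟩,⟨false,1,⟨3,[(8,1),(11,1),(1,0),(0,3),(10,0),(7,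
  1)]⟩,⟨0,[(10,0),(17,0),(11,0)]⟩⟩,[.o ⟨false,0,⟨0,[(13,0)]⟩,⟨7,[(4,3),(0,3),(15,0),(0,0),(7,3),(3,
  1)]⟩⟩,.o ⟨false,1,⟨7,[(20,3),(0,0),(0,0),(11,1),(7,3)]⟩,⟨0,[(25,0)]⟩⟩,.o ⟨false,1,⟨5,[(10,1),(8,
  3),(2,2),(11,1),(7,0)]⟩,⟨0,[(6,0),(22,0)]⟩⟩,.a ⟨true,0,⟨0,[(24,0)]⟩,⟨0,[(23,0)]⟩⟩ ⟨false,0,⟨1,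
  [(10,0),(6,0),(5,0),(13,0),(2,1)]⟩,⟨7,[(8,3),(12,0),(0,2),(19,3)]⟩⟩ ⟨true,0,⟨2,[(1,0),(18,0),(2,
  2),(15,0)]⟩,⟨0,[(24,0),(0,0)]⟩⟩]⟩))) (.I [0,0,-1,-2,0,0,0,-1,-1] (.R ⟨1,false,false,false,[1,0,0,
  -1],[0,0,1],[0,1,0,-1,0,0,0,0,-1],(⟨0,[(22,0)]⟩,⟨0,[(23,0)]⟩),(⟨0,[(32,0)]⟩,⟨0,[(31,0)]⟩),⟨0,[(8,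
  0)]⟩,.k,.k,(.x (-1) ⟨3,[(20,0),(0,0),(11,1),(0,3)]⟩ ⟨0,[(35,0)]⟩),.k,(.x 0 ⟨0,[(3,0),(11,0)]⟩ ⟨11,
  [(4,3),(14,3),(0,2),(0,2),(6,3),(3,11),(0,1),(1,11)]⟩),.k,⟨false,0,⟨0,[(0,0),(37,0)]⟩,⟨3,[(7,1),
  (6,1),(6,0),(18,1),(0,0)]⟩⟩,⟨true,0,⟨0,[(22,0),(5,0)]⟩,⟨0,[(3,0),(19,0)]⟩⟩,⟨false,0,⟨0,[(39,0)]⟩,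
  ⟨7,[(7,3),(8,1),(3,0),(19,3),(0,2)]⟩⟩,⟨false,1,⟨15,[(7,3),(3,7),(7,7),(0,0),(0,2),(0,7),(18,11)]⟩,
  ⟨0,[(9,0),(17,0)]⟩⟩,⟨true,0,⟨7,[(2,0),(8,0),(6,0),(7,0),(2,0),(6,1)]⟩,⟨0,[]⟩⟩,⟨false,1,⟨3,[(7,1),
  (11,1),(1,0),(0,3),(10,0),(7,1)]⟩,⟨1,[(0,0),(2,0),(5,0),(13,0),(3,0)]⟩⟩,[.o ⟨false,0,⟨0,[(12,0)]⟩,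
  ⟨7,[(3,3),(0,3),(15,0),(0,0),(7,3),(3,1)]⟩⟩,.o ⟨false,1,⟨7,[(19,3),(0,0),(0,0),(11,1),(7,3)]⟩,⟨0,
  [(24,0)]⟩⟩,.o ⟨false,1,⟨5,[(9,1),(8,3),(2,2),(11,1),(7,0)]⟩,⟨0,[(5,0),(22,0)]⟩⟩,.a ⟨true,0,⟨0,
  [(23,0)]⟩,⟨0,[(22,0)]⟩⟩ ⟨false,0,⟨7,[(0,3),(8,0),(4,1),(1,2),(5,0),(13,2)]⟩,⟨7,[(7,3),(12,0),(0,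
  2),(19,3)]⟩⟩ ⟨true,0,⟨0,[(12,0),(9,0)]⟩,⟨0,[(23,0),(0,0)]⟩⟩]⟩) (.I [0,-1,-2,-2,0,0,0,2] (.R ⟨2,
  true,false,true,[0,1],[1,1,-1],[0,1,1],(⟨0,[]⟩,⟨0,[]⟩),(⟨0,[(32,0),(3,0)]⟩,⟨0,[(2,0)]⟩),⟨0,[]⟩,.k,
  .k,.k,.k,.k,.k,⟨false,0,⟨14,[(0,6),(11,0),(6,0),(7,0),(2,0),(6,1)]⟩,⟨23,[(1,7),(3,15),(2,3),(12,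
  6),(0,0)]⟩⟩,⟨true,0,⟨0,[(4,0)]⟩,⟨0,[(3,0),(3,0)]⟩⟩,⟨false,0,⟨0,[(40,0)]⟩,⟨15,[(1,7),(3,3),(11,1),
  (3,2),(19,1),(0,6)]⟩⟩,⟨true,0,⟨0,[(25,0)]⟩,⟨2,[(7,0),(3,0),(8,0),(7,0)]⟩⟩,⟨true,0,⟨7,[(3,0),(8,0),
  (6,0),(7,0),(2,0),(6,1)]⟩,⟨0,[]⟩⟩,⟨false,1,⟨23,[(1,7),(2,23),(0,15),(2,3),(12,6),(0,0)]⟩,⟨0,[(7,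
  0)]⟩⟩,[]⟩) (.I [0,1,-1,-1,0,0,0,-1,-1] (.R ⟨1,false,false,false,[1,0,0,-1],[0,0,1],[0,1,0,-1,0,0,
  0,0,-1],(⟨0,[(24,0)]⟩,⟨0,[(25,0)]⟩),(⟨0,[(34,0)]⟩,⟨0,[(33,0)]⟩),⟨0,[(10,0)]⟩,.k,.k,(.x (-1) ⟨3,
  [(22,0),(0,0),(11,1),(0,3)]⟩ ⟨0,[(37,0)]⟩),.k,(.r (-1) ⟨3,[(0,3),(21,0),(0,0),(19,1)]⟩ ⟨3,[(2,2),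
  (2,0),(2,0),(4,0),(11,0)]⟩),.k,⟨false,0,⟨0,[(0,0)]⟩,⟨15,[(2,7),(13,3),(5,0),(0,4),(18,3),(0,5)]⟩⟩,
  ⟨true,0,⟨0,[(24,0),(5,0)]⟩,⟨0,[(5,0),(19,0)]⟩⟩,⟨false,0,⟨0,[(41,0)]⟩,⟨23,[(1,3),(0,7),(15,1),(3,
  2),(19,7),(0,12)]⟩⟩,⟨false,1,⟨15,[(9,3),(3,7),(7,7),(0,0),(0,2),(0,7),(18,11)]⟩,⟨0,[(11,0),(17,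
  0)]⟩⟩,⟨true,0,⟨14,[(1,0),(11,1),(6,1),(7,1),(2,1),(6,3)]⟩,⟨0,[]⟩⟩,⟨false,1,⟨3,[(9,1),(11,1),(1,0),
  (0,3),(10,0),(7,1)]⟩,⟨0,[(11,0),(17,0),(11,0)]⟩⟩,[.o ⟨false,0,⟨0,[(14,0)]⟩,⟨7,[(5,3),(0,3),(15,0),
  (0,0),(7,3),(3,1)]⟩⟩,.o ⟨false,1,⟨7,[(21,3),(0,0),(0,0),(11,1),(7,3)]⟩,⟨0,[(26,0)]⟩⟩,.o ⟨false,1,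
  ⟨5,[(11,1),(8,3),(2,2),(11,1),(7,0)]⟩,⟨0,[(7,0),(22,0)]⟩⟩,.a ⟨true,0,⟨0,[(25,0)]⟩,⟨0,[(24,0)]⟩⟩
  ⟨false,0,⟨3,[(0,2),(6,0),(0,0),(2,0),(4,0)]⟩,⟨7,[(9,3),(12,0),(0,2),(19,3)]⟩⟩ ⟨true,0,⟨0,[(14,0),
  (9,0)]⟩,⟨0,[(25,0),(0,0)]⟩⟩]⟩) (.R ⟨2,true,false,true,[0,1],[1,1,-1],[0,1,1],(⟨0,[]⟩,⟨0,[]⟩),(⟨0,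
  [(33,0),(3,0)]⟩,⟨0,[(3,0)]⟩),⟨0,[]⟩,.k,.k,.k,.k,.k,.k,⟨false,0,⟨0,[(0,0),(10,0),(12,0),(13,0),(2,
  1)]⟩,⟨7,[(1,3),(20,0),(0,0),(18,3),(0,1)]⟩⟩,⟨true,0,⟨0,[(5,0)]⟩,⟨7,[(1,3),(6,6),(4,0),(6,0),(0,0),
  (7,0)]⟩⟩,⟨false,0,⟨0,[(41,0)]⟩,⟨23,[(1,3),(0,7),(15,1),(3,2),(19,7),(0,12)]⟩⟩,⟨true,0,⟨0,[(26,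
  0)]⟩,⟨2,[(8,0),(3,0),(8,0),(7,0)]⟩⟩,⟨true,0,⟨14,[(1,0),(11,1),(6,1),(7,1),(2,1),(6,3)]⟩,⟨0,[]⟩⟩,
  ⟨false,1,⟨7,[(1,3),(3,7),(16,0),(0,0),(18,3),(0,1)]⟩,⟨0,[(8,0)]⟩⟩,[]⟩))))) (.R ⟨2,true,false,
  false,[0,1],[0,0,1],[1,0,1,1],(⟨0,[]⟩,⟨0,[]⟩),(⟨0,[(30,0)]⟩,⟨0,[(29,0)]⟩),⟨0,[]⟩,.k,.k,.k,.k,.k,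
  .k,⟨false,1,⟨3,[(2,1),(2,1),(12,0),(19,0)]⟩,⟨8,[(0,6),(8,1),(2,0),(3,1),(17,1)]⟩⟩,⟨true,0,⟨0,[(26,
  0)]⟩,⟨5,[(0,1),(2,0),(1,0),(6,0),(2,0),(9,3),(1,0)]⟩⟩,⟨true,0,⟨0,[]⟩,⟨0,[(41,0)]⟩⟩,⟨false,0,⟨0,
  [(0,0),(25,0)]⟩,⟨27,[(2,1),(0,3),(1,13),(9,3),(2,4),(6,23),(12,10),(0,9)]⟩⟩,⟨false,1,⟨7,[(5,3),(8,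
  1),(3,0),(19,3),(0,2)]⟩,⟨0,[(37,0)]⟩⟩,⟨true,0,⟨0,[(10,0)]⟩,⟨0,[(25,0)]⟩⟩,[]⟩))) (.Q [0,0,0,1,0,0,
  1,1,0,0,-1] (.p false [0,0,1] [] (⟨0,[(28,0)]⟩,⟨0,[(27,0)]⟩) .k 0 (⟨0,[]⟩,⟨0,[]⟩) .k .k) (.I [0,0,
  1,1,-1,0,0,1,-1] (.R ⟨1,false,false,true,[1,0,0,-1],[1,-1,-1],[0,1,0,-1,0,0,0,0,-1],(⟨0,[(20,0)]⟩,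
  ⟨0,[(21,0)]⟩),(⟨0,[(13,0)]⟩,⟨0,[(30,0),(2,0)]⟩),⟨0,[(6,0)]⟩,.k,.k,(.x (-1) ⟨3,[(18,0),(0,0),(11,
  1),(0,3)]⟩ ⟨0,[(33,0)]⟩),(.r 1 ⟨0,[(0,0)]⟩ ⟨1,[(19,0),(5,1),(0,1),(10,1),(0,1),(0,0)]⟩),.k,.k,
  ⟨true,(-1),⟨0,[(0,0),(36,0)]⟩,⟨0,[(15,0),(3,0),(0,0),(1,0),(3,0)]⟩⟩,⟨false,0,⟨30,[(0,2),(2,20),(1,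
  1),(3,6),(8,2),(1,2),(1,2),(4,6),(7,9)]⟩,⟨0,[(7,0),(7,0),(3,0),(0,0),(5,0),(7,0)]⟩⟩,⟨false,0,⟨0,
  [(37,0)]⟩,⟨7,[(5,3),(8,1),(3,0),(19,3),(0,2)]⟩⟩,⟨false,1,⟨0,[(9,0),(15,0),(13,0)]⟩,⟨0,[(1,0),(13,
  0)]⟩⟩,⟨true,0,⟨30,[(0,0),(4,2),(3,6),(6,6),(1,0),(6,0),(0,0),(7,7)]⟩,⟨0,[]⟩⟩,⟨false,1,⟨7,[(5,1),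
  (3,3),(9,0),(0,3),(1,1),(2,5),(5,0),(7,5)]⟩,⟨1,[(7,0),(7,0),(1,0)]⟩⟩,[.o ⟨false,0,⟨0,[(22,0),(14,
  0)]⟩,⟨3,[(1,3),(16,0),(0,0),(19,1)]⟩⟩,.o ⟨false,1,⟨1,[(25,1),(5,0),(5,1),(1,0)]⟩,⟨0,[(1,0)]⟩⟩,.o
  ⟨false,1,⟨5,[(7,1),(8,3),(2,2),(11,1),(7,0)]⟩,⟨0,[(3,0),(22,0)]⟩⟩,.a ⟨true,0,⟨0,[(21,0)]⟩,⟨0,[(20,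
  0)]⟩⟩ ⟨false,0,⟨1,[(7,0),(6,0),(5,0),(13,0),(2,1)]⟩,⟨7,[(5,3),(12,0),(0,2),(19,3)]⟩⟩ ⟨true,0,⟨0,
  [(20,0),(1,0),(14,0)]⟩,⟨0,[(1,0),(19,0)]⟩⟩]⟩) (.R ⟨1,false,false,true,[1,0,0,-1],[1,-1,-1],[0,1,0,
  -1,0,0,0,0,-1],(⟨0,[(20,0)]⟩,⟨0,[(21,0)]⟩),(⟨0,[(13,0)]⟩,⟨0,[(30,0),(2,0)]⟩),⟨0,[(6,0)]⟩,.k,.k,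
  (.x (-1) ⟨3,[(18,0),(0,0),(11,1),(0,3)]⟩ ⟨0,[(33,0)]⟩),(.x (-1) ⟨2,[(0,1),(0,1),(5,1),(12,1),(5,
  0),(3,2),(2,2),(0,0),(3,0)]⟩ ⟨1,[(13,1),(9,1),(2,0),(0,0)]⟩),.k,.k,⟨true,(-1),⟨0,[(2,0),(12,0),(4,
  0),(1,0),(3,0)]⟩,⟨11,[(0,10),(4,4),(8,1),(3,0),(6,0),(0,0),(9,0)]⟩⟩,⟨false,0,⟨1,[(3,1),(22,0),(0,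
  0)]⟩,⟨1,[(0,1),(0,1),(13,0),(0,0)]⟩⟩,⟨false,0,⟨0,[(37,0)]⟩,⟨7,[(5,3),(8,1),(3,0),(19,3),(0,2)]⟩⟩,
  ⟨false,1,⟨0,[(9,0),(15,0),(13,0)]⟩,⟨0,[(1,0),(13,0)]⟩⟩,⟨true,0,⟨0,[(41,0)]⟩,⟨0,[]⟩⟩,⟨false,1,⟨9,
  [(0,2),(2,2),(1,3),(3,4),(8,0),(1,1),(1,1),(2,4),(13,5)]⟩,⟨1,[(7,0),(7,0),(1,0)]⟩⟩,[.o ⟨false,0,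
  ⟨0,[(22,0),(14,0)]⟩,⟨3,[(1,3),(16,0),(0,0),(19,1)]⟩⟩,.o ⟨false,1,⟨3,[(0,1),(17,0),(3,1),(0,1),(13,
  1),(1,0)]⟩,⟨0,[(1,0)]⟩⟩,.o ⟨false,1,⟨5,[(7,1),(8,3),(2,2),(11,1),(7,0)]⟩,⟨0,[(3,0),(22,0)]⟩⟩,.a
  ⟨true,0,⟨0,[(21,0)]⟩,⟨0,[(20,0)]⟩⟩ ⟨false,0,⟨1,[(7,0),(6,0),(5,0),(13,0),(2,1)]⟩,⟨7,[(5,3),(12,0),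
  (0,2),(19,3)]⟩⟩ ⟨true,0,⟨0,[(20,0),(1,0),(14,0)]⟩,⟨0,[(1,0),(19,0)]⟩⟩]⟩)) (.R ⟨1,true,false,true,
  [1,0,-1],[0,1],[1,0,0,0,0,0,0,-1],(⟨0,[(28,0)]⟩,⟨0,[(29,0)]⟩),(⟨0,[(32,0)]⟩,⟨0,[(31,0)]⟩),⟨0,[(12,
  0)]⟩,.k,.k,.k,.k,(.r (-1) ⟨5,[(0,7),(2,1),(2,11),(1,1),(9,4),(0,9),(5,5),(7,5),(3,0)]⟩ ⟨5,[(1,1),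
  (2,4),(6,0),(1,0),(3,1),(17,1)]⟩),.k,⟨true,1,⟨1,[(0,1),(5,1),(11,0),(0,1),(5,1),(11,0)]⟩,⟨0,[(0,
  0),(0,0),(2,0),(1,0),(12,0),(5,0),(7,0)]⟩⟩,⟨false,1,⟨0,[(6,0),(7,0),(3,0),(0,1),(5,0),(7,0)]⟩,⟨0,
  [(22,0)]⟩⟩,⟨true,0,⟨0,[]⟩,⟨0,[(40,0)]⟩⟩,⟨false,0,⟨0,[(7,0)]⟩,⟨1,[(0,1),(29,0),(7,0)]⟩⟩,⟨false,1,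
  ⟨7,[(4,3),(8,1),(3,0),(19,3),(0,2)]⟩,⟨0,[(36,0)]⟩⟩,⟨true,0,⟨0,[(7,0),(27,0)]⟩,⟨0,[(0,0),(5,0),(1,
  0)]⟩⟩,[]⟩)))) (.Q [0,0,0,0,0,1,0,0,0,0,-1] (.ed true [1,-1,1] .k) (.Q [0,0,0,0,0,0,-1,0,0,1,1]
  (.p true [1,-1,1] [] (⟨0,[(27,0),(1,0)]⟩,⟨0,[(0,0)]⟩) .k 0 (⟨0,[]⟩,⟨0,[]⟩) .k .k) (.K ⟨2,[1,-1,1],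
  0,0,(⟨0,[(28,0),(1,0)]⟩,⟨0,[(1,0)]⟩),.k,(.r (-1) ⟨3,[(7,0),(2,1),(3,0),(20,6),(0,3)]⟩ ⟨2,[(2,1),
  (0,1),(9,1),(4,1),(4,0),(0,2),(8,0)]⟩),.k,.k,.k,[⟨0,[(5,0),(1,0)]⟩,⟨0,[(2,0),(15,1),(0,1)]⟩,⟨0,
  [(0,0)]⟩,⟨5,[(2,0),(0,0),(1,2),(1,2),(0,0),(3,0),(8,1),(2,7)]⟩]⟩) (.R ⟨1,false,false,true,[1,0,0,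
  -1],[1,0,-1],[0,1,0,-1,0,0,0,0,-1],(⟨0,[(18,0)]⟩,⟨0,[(19,0)]⟩),(⟨0,[(27,0)]⟩,⟨0,[(28,0)]⟩),⟨0,[(4,
  0)]⟩,.k,.k,(.x (-1) ⟨3,[(16,0),(0,0),(11,1),(0,3)]⟩ ⟨0,[(31,0)]⟩),.k,(.r 0 ⟨3,[(5,0),(4,1),(1,2),
  (5,0),(13,2),(2,3)]⟩ ⟨5,[(2,1),(0,1),(9,1),(3,2),(0,1),(4,3),(0,5),(11,0),(0,1)]⟩),.k,⟨false,0,⟨3,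
  [(5,0),(4,1),(1,2),(5,0),(13,2),(2,3)]⟩,⟨0,[(2,0),(10,0),(3,0),(0,0),(5,0)]⟩⟩,⟨true,0,⟨0,[(18,0),
  (2,0)]⟩,⟨0,[(0,0),(17,0),(0,1)]⟩⟩,⟨false,0,⟨0,[(35,0)]⟩,⟨7,[(2,1),(0,1),(2,1),(9,0),(19,1),(0,
  4)]⟩⟩,⟨false,1,⟨23,[(2,7),(0,3),(3,15),(8,0),(0,2),(0,7),(4,15),(13,19)]⟩,⟨1,[(5,0),(7,0),(1,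
  0)]⟩⟩,⟨true,0,⟨0,[(39,0)]⟩,⟨0,[]⟩⟩,⟨false,1,⟨11,[(2,7),(0,3),(3,3),(8,0),(0,2),(0,7),(4,3),(13,
  7)]⟩,⟨0,[(9,0),(3,0)]⟩⟩,[.o ⟨false,0,⟨0,[(20,0)]⟩,⟨7,[(15,3),(0,0),(0,0),(11,1),(7,3)]⟩⟩,.o
  ⟨false,1,⟨1,[(23,1),(5,0),(7,0)]⟩,⟨0,[(8,0)]⟩⟩,.o ⟨false,1,⟨5,[(5,1),(8,3),(2,2),(11,1),(7,0)]⟩,
  ⟨2,[(0,0),(17,2),(2,1),(2,0)]⟩⟩,.a ⟨true,0,⟨0,[(19,0)]⟩,⟨0,[(18,0)]⟩⟩ ⟨false,0,⟨1,[(5,0),(6,0),(5,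
  0),(13,0),(2,1)]⟩,⟨7,[(3,3),(12,0),(0,2),(19,3)]⟩⟩ ⟨true,0,⟨0,[(18,0),(1,0)]⟩,⟨6,[(0,1),(9,0),(4,
  1),(3,6),(2,0)]⟩⟩]⟩)) (.Q [0,0,0,0,0,0,-1,0,0,0,1] (.p true [0,0,1] [] (⟨0,[(27,0)]⟩,⟨0,[(26,
  0)]⟩) .k 0 (⟨0,[]⟩,⟨0,[]⟩) .k .k) (.K ⟨2,[0,-1,1],0,0,(⟨0,[(1,0)]⟩,⟨0,[(27,0),(3,0)]⟩),.k,(.r
  (-1) ⟨3,[(7,0),(2,1),(3,0),(20,6),(0,3)]⟩ ⟨2,[(2,1),(0,1),(9,1),(4,1),(4,0),(0,2),(8,0)]⟩),.k,.k,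
  .k,[⟨0,[(35,0)]⟩,⟨0,[(2,0),(15,0),(0,0)]⟩,⟨0,[(0,0)]⟩,⟨1,[(24,2),(0,0)]⟩]⟩) (.R ⟨1,false,false,
  true,[1,0,0,-1],[1,0,-1],[0,1,0,-1,0,0,0,0,-1],(⟨0,[(18,0)]⟩,⟨0,[(19,0)]⟩),(⟨0,[(27,0)]⟩,⟨0,[(28,
  0)]⟩),⟨0,[(4,0)]⟩,.k,.k,(.x (-1) ⟨3,[(16,0),(0,0),(11,1),(0,3)]⟩ ⟨0,[(31,0)]⟩),.k,(.r 0 ⟨3,[(5,0),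
  (4,1),(1,2),(5,0),(13,2),(2,3)]⟩ ⟨3,[(0,1),(2,1),(13,0),(5,3),(0,1),(11,0),(0,1)]⟩),.k,⟨false,0,
  ⟨3,[(5,0),(4,1),(1,2),(5,0),(13,2),(2,3)]⟩,⟨5,[(0,5),(1,1),(0,1),(9,1),(3,2),(0,1),(4,3),(12,0),
  (0,1)]⟩⟩,⟨true,0,⟨0,[(18,0),(2,0)]⟩,⟨0,[(0,0),(18,0)]⟩⟩,⟨false,0,⟨0,[(35,0)]⟩,⟨7,[(2,1),(0,1),(2,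
  1),(9,0),(19,1),(0,4)]⟩⟩,⟨false,1,⟨23,[(2,7),(0,3),(3,15),(8,0),(0,2),(0,7),(4,15),(13,19)]⟩,⟨1,
  [(5,0),(7,0),(1,0)]⟩⟩,⟨true,0,⟨0,[(39,0)]⟩,⟨0,[]⟩⟩,⟨false,1,⟨11,[(2,7),(0,3),(3,3),(8,0),(0,2),(0,
  7),(4,3),(13,7)]⟩,⟨0,[(9,0),(3,0)]⟩⟩,[.o ⟨false,0,⟨0,[(20,0)]⟩,⟨7,[(15,3),(0,0),(0,0),(11,1),(7,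
  3)]⟩⟩,.o ⟨false,1,⟨1,[(23,1),(5,0),(7,0)]⟩,⟨0,[(8,0)]⟩⟩,.o ⟨false,1,⟨5,[(5,1),(8,3),(2,2),(11,1),
  (7,0)]⟩,⟨5,[(0,1),(1,1),(0,0),(3,3),(2,0),(1,4),(5,1)]⟩⟩,.a ⟨true,0,⟨0,[(19,0)]⟩,⟨0,[(18,0)]⟩⟩
  ⟨false,0,⟨1,[(5,0),(6,0),(5,0),(13,0),(2,1)]⟩,⟨7,[(3,3),(12,0),(0,2),(19,3)]⟩⟩ ⟨true,0,⟨0,[(18,0),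
  (1,0)]⟩,⟨0,[(8,0),(10,0)]⟩⟩]⟩))))))) (.Q [0,1,1,0,0,0,0,0,1,1,0,-1] (.p false [0,0,0,1] [1] (⟨0,
  [(13,0)]⟩,⟨0,[(12,0)]⟩) .k 1 (⟨0,[]⟩,⟨0,[]⟩) .k .k) (.R ⟨2,false,false,true,[0,1],[0,0,0,1],[1,1,
  0,0,0,0,0,0,1],(⟨0,[]⟩,⟨0,[]⟩),(⟨0,[(14,0)]⟩,⟨0,[(13,0)]⟩),⟨0,[]⟩,.k,.k,.k,(.r 0 ⟨1,[(7,1),(11,0),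
  (0,0),(8,1)]⟩ ⟨1,[(12,0),(17,1),(0,0)]⟩),.k,.k,⟨true,0,⟨0,[]⟩,⟨1,[(19,0),(0,0)]⟩⟩,⟨false,0,⟨0,[(3,
  0),(9,0),(1,0),(12,0)]⟩,⟨0,[(14,0),(16,0)]⟩⟩,⟨false,1,⟨1,[(12,0),(17,1),(0,0)]⟩,⟨0,[(7,0),(20,0),
  (0,0)]⟩⟩,⟨true,0,⟨0,[(2,0)]⟩,⟨0,[(8,0),(20,0)]⟩⟩,⟨false,1,⟨1,[(12,0),(18,0)]⟩,⟨1,[(7,1),(11,0),(0,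
  0)]⟩⟩,⟨false,1,⟨1,[(0,1),(23,0),(7,0)]⟩,⟨0,[(8,0)]⟩⟩,[.a ⟨true,0,⟨0,[(0,0)]⟩,⟨0,[(8,0)]⟩⟩ ⟨false,
  1,⟨7,[(11,0),(0,4),(14,3),(3,1)]⟩,⟨0,[(7,0)]⟩⟩ ⟨true,0,⟨0,[(2,0),(25,0),(0,0)]⟩,⟨0,[(8,0)]⟩⟩,.o
  ⟨false,1,⟨1,[(0,1),(23,0),(7,0)]⟩,⟨0,[(3,0),(4,0),(6,0)]⟩⟩,.o ⟨false,1,⟨3,[(11,0),(0,0),(18,1)]⟩,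
  ⟨0,[(3,0),(11,0),(12,0)]⟩⟩,.e ⟨false,1,⟨1,[(12,0),(18,0)]⟩,⟨1,[(7,1),(11,0),(0,0)]⟩⟩ ⟨false,1,⟨1,
  [(0,1),(23,0),(7,0)]⟩,⟨0,[(8,0)]⟩⟩]⟩) (.Q [0,0,0,0,0,1,0,0,0,-1,0,1] (.p true [0,0,0,1] [1] (⟨0,
  [(14,0)]⟩,⟨0,[(13,0)]⟩) .k 1 (⟨0,[]⟩,⟨0,[]⟩) .k .k) (.I [0,0,-2,-1,0,0,0,0,-1] (.R ⟨0,false,false,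
  true,[1,0,0,-1],[0,1],[0,1,0,0,0,0,0,0,-1],(⟨0,[(15,0)]⟩,⟨0,[(16,0)]⟩),(⟨0,[(28,0)]⟩,⟨0,[(27,
  0)]⟩),⟨0,[(1,0)]⟩,.k,.k,(.x (-1) ⟨3,[(13,0),(0,0),(11,1),(0,3)]⟩ ⟨0,[(28,0)]⟩),(.x (-1) ⟨3,[(13,
  0),(0,0),(11,1),(0,3)]⟩ ⟨0,[(28,0)]⟩),.k,.k,⟨false,0,⟨0,[(0,0)]⟩,⟨1,[(14,0),(6,0),(0,0),(8,1),(2,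
  0)]⟩⟩,⟨true,0,⟨0,[(15,0)]⟩,⟨0,[(5,0),(10,0),(0,0),(12,0)]⟩⟩,⟨true,0,⟨0,[(36,0)]⟩,⟨0,[]⟩⟩,⟨false,1,
  ⟨1,[(14,0),(0,1),(5,0),(0,0),(8,1),(2,0)]⟩,⟨0,[(2,0),(29,0)]⟩⟩,⟨false,0,⟨0,[]⟩,⟨0,[]⟩⟩,⟨false,0,
  ⟨0,[]⟩,⟨0,[]⟩⟩,[.o ⟨false,0,⟨0,[(31,0)]⟩,⟨1,[(26,0),(5,1),(1,0)]⟩⟩,.o ⟨false,1,⟨3,[(13,0),(0,0),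
  (16,3),(2,1)]⟩,⟨0,[(2,0),(1,0)]⟩⟩,.o ⟨false,1,⟨5,[(2,1),(8,3),(2,2),(11,1),(7,0)]⟩,⟨0,[(5,0),(9,
  0),(1,0),(12,0)]⟩⟩,.a ⟨true,0,⟨0,[(16,0)]⟩,⟨0,[(15,0)]⟩⟩ ⟨false,0,⟨1,[(0,0),(8,0),(21,0)]⟩,⟨1,
  [(14,0),(6,0),(0,0),(11,0)]⟩⟩ ⟨true,0,⟨0,[(15,0),(15,0)]⟩,⟨0,[(2,0),(1,0),(11,0)]⟩⟩]⟩) (.I [0,1,1,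
  1,0,0,0,-1] (.I [1,0,1,0,0,0,0,-1] (.Q [0,0,0,0,0,0,-1,0,0,-1,1,1] (.p true [0,0,1] [1,0,0,-1]
  (⟨0,[(27,0)]⟩,⟨0,[(26,0)]⟩) .k 2 (⟨0,[(17,0)]⟩,⟨0,[(18,0)]⟩) .k (.r (-1) ⟨27,[(9,11),(5,6),(0,20),
  (4,3),(2,3),(6,3)]⟩ ⟨1,[(0,1),(3,0),(6,0),(5,0),(13,0)]⟩)) (.R ⟨0,false,false,false,[1,0,0,-1],[0,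
  0,1],[0,1,0,0,0,0,0,0,-1],(⟨0,[(18,0)]⟩,⟨0,[(19,0)]⟩),(⟨0,[(28,0)]⟩,⟨0,[(27,0)]⟩),⟨0,[(4,0)]⟩,.k,
  .k,(.x (-1) ⟨3,[(16,0),(0,0),(11,1),(0,3)]⟩ ⟨0,[(31,0)]⟩),.k,.k,.k,⟨false,0,⟨0,[(1,0),(3,0),(12,
  0),(13,0)]⟩,⟨7,[(10,3),(5,0),(0,4),(19,1)]⟩⟩,⟨true,0,⟨0,[(18,0),(5,0)]⟩,⟨0,[(0,0)]⟩⟩,⟨true,0,⟨7,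
  [(2,0),(4,0),(6,0),(7,0),(2,0),(6,1)]⟩,⟨0,[]⟩⟩,⟨false,1,⟨23,[(3,7),(3,7),(7,11),(0,0),(0,4),(0,
  15),(10,1),(7,15)]⟩,⟨0,[(5,0),(17,0)]⟩⟩,⟨false,0,⟨0,[]⟩,⟨0,[]⟩⟩,⟨false,0,⟨0,[]⟩,⟨0,[]⟩⟩,[.o
  ⟨false,0,⟨0,[(8,0)]⟩,⟨1,[(23,1),(5,0),(7,0)]⟩⟩,.o ⟨false,1,⟨7,[(15,3),(0,0),(0,0),(11,1),(7,3)]⟩,
  ⟨0,[(20,0)]⟩⟩,.o ⟨false,1,⟨5,[(5,1),(8,3),(2,2),(11,1),(7,0)]⟩,⟨1,[(3,0),(1,0),(1,0),(0,0),(3,0),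
  (5,1),(1,0)]⟩⟩,.a ⟨true,0,⟨0,[(19,0)]⟩,⟨0,[(18,0)]⟩⟩ ⟨false,0,⟨1,[(5,0),(6,0),(5,0),(13,0)]⟩,⟨1,
  [(17,0),(6,0),(0,0),(11,0)]⟩⟩ ⟨true,0,⟨0,[(8,0),(9,0)]⟩,⟨0,[(19,0),(0,0)]⟩⟩]⟩) (.R ⟨0,false,false,
  true,[1,0,0,-1],[0,0,1],[1,0,1],(⟨0,[(18,0)]⟩,⟨0,[(19,0)]⟩),(⟨0,[(28,0)]⟩,⟨0,[(27,0)]⟩),⟨0,[(4,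
  0)]⟩,.k,.k,(.x (-1) ⟨3,[(16,0),(0,0),(11,1),(0,3)]⟩ ⟨0,[(31,0)]⟩),.k,.k,.k,⟨true,0,⟨0,[(0,0),(2,
  0),(2,0),(6,0)]⟩,⟨6,[(10,1),(11,2),(2,2),(6,2)]⟩⟩,⟨false,0,⟨0,[(0,0)]⟩,⟨1,[(5,0),(8,0),(2,0),(3,
  0),(3,0),(10,0)]⟩⟩,⟨false,1,⟨1,[(17,0),(6,0),(0,0),(11,0)]⟩,⟨1,[(5,0),(6,0),(5,0),(13,0)]⟩⟩,⟨true,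
  0,⟨1,[(0,1),(2,0),(3,0),(2,0),(8,0),(12,0)]⟩,⟨0,[(5,0),(17,0)]⟩⟩,⟨false,0,⟨0,[]⟩,⟨0,[]⟩⟩,⟨false,0,
  ⟨0,[]⟩,⟨0,[]⟩⟩,[.o ⟨false,0,⟨0,[(22,0)]⟩,⟨0,[(20,0),(16,0)]⟩⟩,.o ⟨false,0,⟨0,[(8,0)]⟩,⟨1,[(23,1),
  (5,0),(7,0)]⟩⟩,.o ⟨false,1,⟨5,[(5,1),(8,3),(2,2),(11,1),(7,0)]⟩,⟨0,[(0,0),(20,0)]⟩⟩,.a ⟨true,0,⟨0,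
  [(19,0)]⟩,⟨0,[(18,0)]⟩⟩ ⟨true,0,⟨0,[]⟩,⟨7,[(2,0),(4,0),(6,0),(7,0),(2,0),(6,1)]⟩⟩ ⟨false,0,⟨2,[(0,
  1),(9,0),(7,0),(3,0)]⟩,⟨0,[(19,0),(0,0),(16,0)]⟩⟩]⟩)) (.I [0,0,1,0,-1,0,0,1,-1] (.R ⟨0,false,
  false,false,[1,0,0,-1],[1,-1,-1],[0,0,0,-1,0,0,0,0,-1],(⟨0,[(18,0)]⟩,⟨0,[(19,0)]⟩),(⟨0,[(11,0)]⟩,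
  ⟨0,[(28,0),(2,0)]⟩),⟨0,[(4,0)]⟩,.k,.k,(.x (-1) ⟨3,[(16,0),(0,0),(11,1),(0,3)]⟩ ⟨0,[(31,0)]⟩),(.x
  (-1) ⟨0,[(5,1),(11,0),(0,1),(5,0),(3,0),(2,0),(0,0)]⟩ ⟨1,[(11,1),(9,1),(2,0),(0,0)]⟩),.k,.k,⟨true,
  (-1),⟨0,[(0,0)]⟩,⟨3,[(2,1),(3,1),(6,1),(3,2),(0,1),(5,1),(11,0)]⟩⟩,⟨false,0,⟨0,[(18,0),(2,0)]⟩,⟨0,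
  [(5,0),(7,0),(3,0),(0,0),(5,0),(7,0)]⟩⟩,⟨true,0,⟨0,[(35,0)]⟩,⟨0,[(34,0)]⟩⟩,⟨false,1,⟨3,[(6,1),(0,
  1),(9,0),(0,1),(4,1),(9,1),(3,2)]⟩,⟨1,[(5,0),(7,0),(1,0),(18,1)]⟩⟩,⟨false,0,⟨0,[]⟩,⟨0,[]⟩⟩,⟨false,
  0,⟨0,[]⟩,⟨0,[]⟩⟩,[.o ⟨false,0,⟨0,[(6,0)]⟩,⟨7,[(15,3),(0,0),(0,0),(11,1),(4,7),(2,3)]⟩⟩,.o ⟨false,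
  1,⟨3,[(6,3),(9,0),(0,0),(19,1)]⟩,⟨0,[(8,0),(25,0)]⟩⟩,.o ⟨false,1,⟨5,[(5,1),(8,3),(2,2),(11,1),(7,
  0)]⟩,⟨4,[(0,0),(2,1),(1,2),(1,1),(10,5),(1,0),(3,0),(4,0)]⟩⟩,.a ⟨true,0,⟨0,[(19,0)]⟩,⟨0,[(18,
  0)]⟩⟩ ⟨false,0,⟨0,[(5,0),(12,0),(16,0)]⟩,⟨3,[(3,1),(12,0),(0,1),(16,1),(2,0)]⟩⟩ ⟨true,0,⟨0,[(6,0),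
  (11,0)]⟩,⟨0,[(8,0),(10,0),(14,0)]⟩⟩]⟩) (.Q [0,0,0,0,0,1,0,0,0,0,-1] (.ed true [1,-1,1] .k) (.Q [0,
  1,0,1,0,0,-1,-1,0,1,1] (.p true [1,-1,1] [] (⟨0,[(29,0),(1,0)]⟩,⟨0,[(0,0)]⟩) .k 0 (⟨0,[]⟩,⟨0,[]⟩)
  .k .k) (.K ⟨2,[1,-1,1],0,0,(⟨0,[(30,0),(1,0)]⟩,⟨0,[(1,0)]⟩),.k,(.r (-1) ⟨3,[(9,0),(2,1),(3,0),(20,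
  6),(0,3)]⟩ ⟨0,[(4,0),(0,0),(1,0),(12,0)]⟩),.k,.k,.k,[⟨0,[(7,0),(1,0)]⟩,⟨0,[(0,0)]⟩,⟨1,[(0,0),(7,
  0),(3,0),(7,1),(0,1)]⟩,⟨1,[(5,0),(1,0),(1,0),(0,0),(3,0),(7,0),(3,1)]⟩]⟩) (.R ⟨2,true,false,false,
  [0,1],[0,0,1],[0,0,1],(⟨0,[]⟩,⟨0,[]⟩),(⟨0,[(30,0)]⟩,⟨0,[(29,0)]⟩),⟨0,[]⟩,.k,.k,.k,.k,.k,.k,⟨false,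
  1,⟨3,[(2,1),(15,0),(6,1),(0,1),(12,0)]⟩,⟨0,[(3,0)]⟩⟩,⟨true,0,⟨0,[(26,0)]⟩,⟨2,[(3,0),(1,0),(2,0),
  (3,0),(2,0),(4,0),(4,1)]⟩⟩,⟨true,0,⟨0,[(37,0)]⟩,⟨0,[(36,0)]⟩⟩,⟨false,0,⟨0,[(0,0),(19,0),(0,0)]⟩,
  ⟨0,[(25,0),(10,0),(2,0)]⟩⟩,⟨false,1,⟨3,[(18,0),(0,0),(19,1)]⟩,⟨0,[]⟩⟩,⟨true,0,⟨0,[(10,0)]⟩,⟨0,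
  [(25,0)]⟩⟩,[]⟩)) (.I [0,1,-1,0,0,0,0,-1,-1] (.R ⟨0,false,false,false,[1,0,0,-1],[0,0,1],[1,0,1,0,
  0,0,0,1],(⟨0,[(20,0)]⟩,⟨0,[(21,0)]⟩),(⟨0,[(30,0)]⟩,⟨0,[(29,0)]⟩),⟨0,[(6,0)]⟩,.k,.k,(.x (-1) ⟨3,
  [(18,0),(0,0),(11,1),(0,3)]⟩ ⟨0,[(33,0)]⟩),.k,.k,.k,⟨false,0,⟨0,[]⟩,⟨3,[(18,0),(0,0),(18,1)]⟩⟩,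
  ⟨true,0,⟨0,[(20,0),(5,0)]⟩,⟨2,[(3,0),(1,0),(1,0),(0,0),(3,0),(8,1),(0,0),(2,0)]⟩⟩,⟨true,0,⟨1,[(3,
  1),(1,0),(3,0),(11,0),(13,0)]⟩,⟨0,[(0,0)]⟩⟩,⟨false,1,⟨23,[(5,7),(3,7),(7,11),(0,0),(0,4),(0,15),
  (10,1),(7,15)]⟩,⟨0,[(7,0),(17,0)]⟩⟩,⟨false,0,⟨0,[]⟩,⟨0,[]⟩⟩,⟨false,0,⟨0,[]⟩,⟨0,[]⟩⟩,[.o ⟨false,0,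
  ⟨0,[(10,0)]⟩,⟨1,[(25,1),(5,0),(7,0)]⟩⟩,.o ⟨false,1,⟨7,[(17,3),(0,0),(0,0),(11,1),(7,3)]⟩,⟨0,[(22,
  0)]⟩⟩,.o ⟨false,1,⟨5,[(7,1),(8,3),(2,2),(11,1),(7,0)]⟩,⟨1,[(5,0),(1,0),(1,0),(0,0),(3,0),(5,1),(1,
  0)]⟩⟩,.a ⟨true,0,⟨0,[(21,0)]⟩,⟨0,[(20,0)]⟩⟩ ⟨false,0,⟨0,[(3,0),(31,0)]⟩,⟨3,[(2,1),(15,0),(6,1),(0,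
  1),(12,0)]⟩⟩ ⟨true,0,⟨0,[(10,0),(9,0)]⟩,⟨0,[(21,0),(0,0)]⟩⟩]⟩) (.R ⟨0,false,false,true,[1,0,0,-1],
  [0,0,1],[1,0,1],(⟨0,[(20,0)]⟩,⟨0,[(21,0)]⟩),(⟨0,[(30,0)]⟩,⟨0,[(29,0)]⟩),⟨0,[(6,0)]⟩,.k,.k,(.x
  (-1) ⟨3,[(18,0),(0,0),(11,1),(0,3)]⟩ ⟨0,[(33,0)]⟩),.k,.k,.k,⟨false,1,⟨1,[(2,0),(11,0),(10,0),(0,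
  0),(12,0)]⟩,⟨2,[(3,0),(8,0),(21,1)]⟩⟩,⟨true,0,⟨0,[(20,0),(5,0)]⟩,⟨2,[(0,0),(6,0),(4,0),(8,1),(0,
  1),(2,0)]⟩⟩,⟨false,1,⟨1,[(19,0),(6,0),(0,0),(11,0)]⟩,⟨1,[(7,0),(6,0),(5,0),(13,0)]⟩⟩,⟨true,0,⟨0,
  [(0,0),(19,0),(5,0),(7,0)]⟩,⟨0,[(7,0),(17,0)]⟩⟩,⟨false,0,⟨0,[]⟩,⟨0,[]⟩⟩,⟨false,0,⟨0,[]⟩,⟨0,[]⟩⟩,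
  [.o ⟨false,0,⟨0,[(24,0)]⟩,⟨0,[(22,0),(16,0)]⟩⟩,.o ⟨false,0,⟨0,[(10,0)]⟩,⟨1,[(25,1),(5,0),(7,0)]⟩⟩,
  .o ⟨false,1,⟨5,[(7,1),(8,3),(2,2),(11,1),(7,0)]⟩,⟨1,[(0,0),(9,0),(3,0),(5,1),(1,1),(3,0)]⟩⟩,.a
  ⟨true,0,⟨0,[(21,0)]⟩,⟨0,[(20,0)]⟩⟩ ⟨true,0,⟨0,[]⟩,⟨7,[(4,0),(4,0),(6,0),(7,0),(2,0),(6,1)]⟩⟩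
  ⟨false,0,⟨0,[(10,0),(9,0)]⟩,⟨0,[(21,0),(0,0),(16,0)]⟩⟩]⟩))))) (.R ⟨2,true,false,false,[0,1],[0,0,
  1],[0,0,1],(⟨0,[]⟩,⟨0,[]⟩),(⟨0,[(26,0)]⟩,⟨0,[(25,0)]⟩),⟨0,[]⟩,.k,.k,.k,.k,.k,.k,⟨false,1,⟨1,[(21,
  1),(0,1),(11,0),(0,0)]⟩,⟨0,[(0,0),(31,0)]⟩⟩,⟨true,0,⟨0,[(22,0)]⟩,⟨2,[(0,0),(0,0),(6,0),(2,0),(4,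
  0),(1,0),(2,1)]⟩⟩,⟨true,0,⟨0,[(33,0)]⟩,⟨0,[(32,0)]⟩⟩,⟨false,0,⟨0,[(0,0),(21,0)]⟩,⟨0,[(21,0),(10,
  0),(2,0)]⟩⟩,⟨false,1,⟨3,[(14,0),(0,0),(19,1)]⟩,⟨0,[]⟩⟩,⟨true,0,⟨0,[(6,0)]⟩,⟨0,[(21,0)]⟩⟩,[]⟩)))
  (.I [1,-1,0,0,0,0,0,1] (.R ⟨1,false,false,false,[1,0,0,-1],[0,0,1],[0,1,0,-1,0,0,0,0,-1],(⟨0,[(15,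
  0)]⟩,⟨0,[(16,0)]⟩),(⟨0,[(25,0)]⟩,⟨0,[(24,0)]⟩),⟨0,[(1,0)]⟩,.k,.k,(.x (-1) ⟨3,[(13,0),(0,0),(11,1),
  (0,3)]⟩ ⟨0,[(28,0)]⟩),.k,(.x 0 ⟨0,[(0,0),(7,0),(8,0)]⟩ ⟨3,[(13,0),(0,0),(6,3),(3,3),(2,3),(4,
  1)]⟩),.k,⟨false,0,⟨0,[(3,0),(6,0),(4,0),(5,0),(7,0)]⟩,⟨1,[(0,1),(13,0),(16,1),(2,0)]⟩⟩,⟨true,0,⟨0,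
  [(15,0),(5,0)]⟩,⟨0,[(0,0),(15,0),(0,0)]⟩⟩,⟨false,0,⟨0,[(32,0)]⟩,⟨0,[(31,0),(2,0)]⟩⟩,⟨false,1,⟨7,
  [(4,1),(2,1),(4,1),(1,2),(0,5),(5,4),(0,0),(8,1),(2,4)]⟩,⟨0,[(2,0),(17,0)]⟩⟩,⟨true,0,⟨0,[(36,0)]⟩,
  ⟨0,[]⟩⟩,⟨false,1,⟨1,[(0,1),(13,0),(0,1),(5,1),(9,1),(2,0)]⟩,⟨1,[(3,1),(6,0),(0,0)]⟩⟩,[.o ⟨false,0,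
  ⟨0,[(5,0)]⟩,⟨1,[(20,1),(5,0),(7,0)]⟩⟩,.o ⟨false,1,⟨7,[(12,3),(0,0),(0,0),(11,1),(7,3)]⟩,⟨0,[(17,
  0)]⟩⟩,.o ⟨false,1,⟨5,[(2,1),(8,3),(2,2),(11,1),(7,0)]⟩,⟨0,[(0,0),(14,0),(1,0),(3,0)]⟩⟩,.a ⟨true,0,
  ⟨0,[(16,0)]⟩,⟨0,[(15,0)]⟩⟩ ⟨false,0,⟨1,[(2,0),(0,0),(2,0),(4,0),(3,1)]⟩,⟨1,[(14,0),(15,1),(0,1),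
  (2,0)]⟩⟩ ⟨true,0,⟨0,[(5,0),(9,0)]⟩,⟨0,[(16,0),(0,0)]⟩⟩]⟩) (.Q [0,0,0,0,0,0,-1,0,0,-1,1,1] (.p
  true [0,0,1] [1,0,0,-1] (⟨0,[(25,0)]⟩,⟨0,[(24,0)]⟩) .k 2 (⟨0,[(15,0)]⟩,⟨0,[(16,0)]⟩) .k (.r (-1)
  ⟨27,[(7,11),(5,6),(0,20),(4,3),(2,3),(6,3)]⟩ ⟨0,[(0,0),(8,0)]⟩)) (.R ⟨2,true,false,false,[0,1],[0,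
  1,1],[1,1,1,1],(⟨0,[]⟩,⟨0,[]⟩),(⟨0,[(26,0),(2,0)]⟩,⟨0,[(9,0)]⟩),⟨0,[]⟩,.k,.k,.k,.k,.k,.k,⟨true,0,
  ⟨0,[(1,0)]⟩,⟨3,[(8,1),(13,0),(0,0),(7,1)]⟩⟩,⟨false,1,⟨0,[(22,0),(11,0)]⟩,⟨0,[(0,0),(15,0)]⟩⟩,
  ⟨false,0,⟨0,[]⟩,⟨3,[(14,0),(0,0),(19,1)]⟩⟩,⟨true,0,⟨0,[(6,0)]⟩,⟨0,[(21,0)]⟩⟩,⟨true,0,⟨0,[(32,0)]⟩,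
  ⟨0,[(33,0)]⟩⟩,⟨false,1,⟨0,[(6,0),(25,0),(2,0)]⟩,⟨0,[(4,0),(11,0),(0,0)]⟩⟩,[]⟩) (.R ⟨2,true,false,
  false,[0,1],[1,0,-1],[0,1,1],(⟨0,[]⟩,⟨0,[]⟩),(⟨0,[(25,0)]⟩,⟨0,[(26,0)]⟩),⟨0,[]⟩,.k,.k,.k,.k,.k,.k,
  ⟨false,0,⟨6,[(8,1),(11,2),(2,2),(6,2)]⟩,⟨1,[(0,1),(10,1),(3,0),(2,1),(16,0)]⟩⟩,⟨true,0,⟨0,[(19,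
  0)]⟩,⟨0,[(0,0),(16,0)]⟩⟩,⟨false,0,⟨0,[(33,0)]⟩,⟨0,[(32,0),(2,0)]⟩⟩,⟨true,0,⟨0,[(4,0)]⟩,⟨1,[(13,0),
  (2,0),(0,0),(14,1)]⟩⟩,⟨true,0,⟨0,[(37,0)]⟩,⟨0,[]⟩⟩,⟨false,1,⟨0,[(18,0),(16,0)]⟩,⟨1,[(13,0),(2,0),
  (0,0)]⟩⟩,[]⟩))))))

theorem ok4 : chk (cU (-1) true 3) t4 l7 = true := by decide +kernel

noncomputable def t5 : Tre :=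
  (.Q [0,0,-2,0,1,0,1,0,0,0,-1] (.p false [0,0,1] [] (⟨0,[(21,0)]⟩,⟨0,[(20,0)]⟩) .k 0 (⟨0,[]⟩,⟨0,
  []⟩) .k .k) (.Q [0,0,0,0,0,1,0,0,0,-1,0,1] (.p true [0,0,0,1] [1] (⟨0,[(13,0)]⟩,⟨0,[(12,0)]⟩) .k
  1 (⟨0,[]⟩,⟨0,[]⟩) .k .k) (.I [1,1,-1,-1] (.Q [0,0,0,0,0,0,-1,0,0,-1,1,1] (.p true [0,0,1] [1,0,0,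
  -1] (⟨0,[(24,0)]⟩,⟨0,[(23,0)]⟩) .k 2 (⟨0,[(14,0)]⟩,⟨0,[(15,0)]⟩) .k (.r (-1) ⟨27,[(6,11),(5,6),(0,
  20),(4,3),(2,3),(6,3)]⟩ ⟨0,[(9,0),(4,0),(1,0),(3,0)]⟩)) (.R ⟨0,false,false,false,[1,0,0,-1],[0,0,
  1],[0,1,0,0,0,0,0,0,-1],(⟨0,[(15,0)]⟩,⟨0,[(16,0)]⟩),(⟨0,[(25,0)]⟩,⟨0,[(24,0)]⟩),⟨0,[(2,0)]⟩,.k,.k,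
  (.x (-1) ⟨3,[(13,0),(0,0),(11,1),(0,3)]⟩ ⟨0,[(28,0)]⟩),.k,.k,.k,⟨false,0,⟨0,[(1,0),(2,0),(10,0),
  (1,0),(3,0)]⟩,⟨7,[(7,3),(5,0),(0,4),(19,1)]⟩⟩,⟨true,0,⟨0,[(15,0),(5,0)]⟩,⟨0,[(0,0)]⟩⟩,⟨true,0,⟨0,
  [(36,0)]⟩,⟨0,[]⟩⟩,⟨false,1,⟨7,[(7,1),(4,1),(1,3),(0,7),(5,5),(0,1),(3,0),(7,2)]⟩,⟨0,[(10,0),(6,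
  0)]⟩⟩,⟨false,0,⟨0,[]⟩,⟨0,[]⟩⟩,⟨false,0,⟨0,[]⟩,⟨0,[]⟩⟩,[.o ⟨false,0,⟨0,[(5,0)]⟩,⟨1,[(20,1),(5,0),
  (7,0)]⟩⟩,.o ⟨false,1,⟨7,[(12,3),(0,0),(0,0),(11,1),(7,3)]⟩,⟨0,[(17,0)]⟩⟩,.o ⟨false,1,⟨1,[(16,1),
  (9,0),(6,0)]⟩,⟨0,[(5,0),(9,0),(1,0),(12,0)]⟩⟩,.a ⟨true,0,⟨0,[(16,0)]⟩,⟨0,[(15,0)]⟩⟩ ⟨false,0,⟨1,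
  [(1,0),(2,0),(0,0),(3,0),(5,0),(1,0)]⟩,⟨1,[(14,0),(6,0),(0,0),(11,0)]⟩⟩ ⟨true,0,⟨0,[(5,0),(9,0)]⟩,
  ⟨0,[(16,0),(0,0)]⟩⟩]⟩) (.Q [0,0,0,0,0,0,-1,0,0,0,1] (.p true [0,0,1] [] (⟨0,[(25,0)]⟩,⟨0,[(24,
  0)]⟩) .k 0 (⟨0,[]⟩,⟨0,[]⟩) .k .k) (.K ⟨0,[1,-1,-1],0,0,(⟨0,[(9,0)]⟩,⟨0,[(26,0),(2,0)]⟩),.k,(.r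
  (-1) ⟨1,[(1,1),(0,1),(8,1),(3,0),(2,1),(14,1),(1,0)]⟩ ⟨3,[(8,1),(13,0),(0,0),(7,5),(0,7)]⟩),.k,.k,
  .k,[⟨0,[(1,0),(15,0)]⟩,⟨0,[(0,0)]⟩,⟨1,[(13,0),(2,0),(0,0),(14,1)]⟩,⟨0,[(18,0),(14,0)]⟩]⟩) (.R ⟨0,
  false,false,true,[1,0,0,-1],[1,0,-1],[0,1,0,0,0,0,0,0,-1],(⟨0,[(16,0)]⟩,⟨0,[(17,0)]⟩),(⟨0,[(25,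
  0)]⟩,⟨0,[(26,0)]⟩),⟨0,[(3,0)]⟩,.k,.k,(.x (-1) ⟨3,[(14,0),(0,0),(11,1),(0,3)]⟩ ⟨0,[(29,0)]⟩),.k,.k,
  .k,⟨false,0,⟨4,[(1,0),(0,0),(2,0),(2,2),(1,3),(7,0),(11,2)]⟩,⟨1,[(0,1),(14,0),(5,1),(13,0)]⟩⟩,
  ⟨true,0,⟨0,[(16,0),(2,0)]⟩,⟨0,[(0,0),(16,0)]⟩⟩,⟨true,0,⟨0,[(37,0)]⟩,⟨0,[]⟩⟩,⟨false,1,⟨1,[(15,0),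
  (0,1),(1,1),(3,0),(0,0),(11,0)]⟩,⟨0,[(5,0),(1,0)]⟩⟩,⟨false,0,⟨0,[]⟩,⟨0,[]⟩⟩,⟨false,0,⟨0,[]⟩,⟨0,
  []⟩⟩,[.o ⟨false,0,⟨0,[(18,0)]⟩,⟨7,[(13,3),(0,0),(0,0),(11,1),(7,3)]⟩⟩,.o ⟨false,1,⟨1,[(21,1),(5,
  0),(7,0)]⟩,⟨0,[(6,0)]⟩⟩,.o ⟨false,1,⟨1,[(17,1),(9,0),(6,0)]⟩,⟨0,[(1,0),(17,0)]⟩⟩,.a ⟨true,0,⟨0,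
  [(17,0)]⟩,⟨0,[(16,0)]⟩⟩ ⟨false,0,⟨4,[(1,1),(0,1),(2,1),(2,0),(1,2),(7,1),(11,0)]⟩,⟨1,[(15,0),(6,
  0),(0,0),(11,0)]⟩⟩ ⟨true,0,⟨0,[(16,0),(1,0)]⟩,⟨0,[(6,0),(10,0)]⟩⟩]⟩))) (.I [1,1,0,0,0,0,0,1,1]
  (.R ⟨0,false,false,true,[1,0,0,-1],[0,0,1],[1,0,1],(⟨0,[(15,0)]⟩,⟨0,[(16,0)]⟩),(⟨0,[(25,0)]⟩,⟨0,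
  [(24,0)]⟩),⟨0,[(2,0)]⟩,.k,.k,(.x (-1) ⟨3,[(13,0),(0,0),(11,1),(0,3)]⟩ ⟨0,[(28,0)]⟩),.k,.k,.k,
  ⟨false,1,⟨0,[(3,0),(16,0),(9,1)]⟩,⟨0,[(0,0),(3,0),(1,0),(8,0),(1,0)]⟩⟩,⟨true,0,⟨0,[(15,0),(5,0)]⟩,
  ⟨0,[(0,0),(9,0),(6,0),(12,0)]⟩⟩,⟨false,1,⟨1,[(14,0),(6,0),(0,0),(11,0)]⟩,⟨0,[(4,0),(1,0),(8,0),(1,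
  0)]⟩⟩,⟨true,0,⟨0,[(0,0),(14,0),(5,0)]⟩,⟨0,[(10,0),(6,0)]⟩⟩,⟨false,0,⟨0,[]⟩,⟨0,[]⟩⟩,⟨false,0,⟨0,
  []⟩,⟨0,[]⟩⟩,[.o ⟨false,0,⟨0,[(19,0)]⟩,⟨0,[(17,0),(16,0)]⟩⟩,.o ⟨false,0,⟨0,[(5,0)]⟩,⟨1,[(20,1),(5,
  0),(7,0)]⟩⟩,.o ⟨false,1,⟨1,[(16,1),(9,0),(6,0)]⟩,⟨0,[(1,0),(4,0),(8,0),(1,0)]⟩⟩,.a ⟨true,0,⟨0,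
  [(16,0)]⟩,⟨0,[(15,0)]⟩⟩ ⟨true,0,⟨0,[]⟩,⟨0,[(36,0)]⟩⟩ ⟨false,0,⟨0,[(5,0),(9,0)]⟩,⟨0,[(16,0),(0,0),
  (16,0)]⟩⟩]⟩) (.Q [0,0,0,-1,0,0,0,0,0,-1,0,1] (.p true [0,0,0,1] [1] (⟨0,[(16,0)]⟩,⟨0,[(15,0)]⟩)
  .k 1 (⟨0,[]⟩,⟨0,[]⟩) .k .k) (.Q [0,0,0,0,0,0,-1,0,0,-1,1,1] (.p true [0,0,1] [1,0,0,-1] (⟨0,[(26,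
  0)]⟩,⟨0,[(25,0)]⟩) .k 2 (⟨0,[(16,0)]⟩,⟨0,[(17,0)]⟩) .k (.r (-1) ⟨27,[(8,11),(5,6),(0,20),(4,3),(2,
  3),(6,3)]⟩ ⟨0,[(1,0),(35,0)]⟩)) (.R ⟨0,false,false,false,[1,0,0,-1],[0,0,1],[0,1,0,0,0,0,0,0,-1],
  (⟨0,[(17,0)]⟩,⟨0,[(18,0)]⟩),(⟨0,[(27,0)]⟩,⟨0,[(26,0)]⟩),⟨0,[(4,0)]⟩,.k,.k,(.x (-1) ⟨3,[(15,0),(0,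
  0),(11,1),(0,3)]⟩ ⟨0,[(30,0)]⟩),.k,.k,.k,⟨false,0,⟨0,[(2,0),(28,0)]⟩,⟨7,[(9,3),(5,0),(0,4),(19,
  1)]⟩⟩,⟨true,0,⟨0,[(17,0),(5,0)]⟩,⟨0,[(0,0)]⟩⟩,⟨true,0,⟨0,[(38,0)]⟩,⟨0,[]⟩⟩,⟨false,1,⟨7,[(9,1),(4,
  1),(1,3),(0,7),(5,5),(0,1),(3,0),(7,2)]⟩,⟨0,[(12,0),(6,0)]⟩⟩,⟨false,0,⟨0,[]⟩,⟨0,[]⟩⟩,⟨false,0,⟨0,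
  []⟩,⟨0,[]⟩⟩,[.o ⟨false,0,⟨0,[(7,0)]⟩,⟨1,[(22,1),(5,0),(7,0)]⟩⟩,.o ⟨false,1,⟨7,[(14,3),(0,0),(0,0),
  (11,1),(7,3)]⟩,⟨0,[(19,0)]⟩⟩,.o ⟨false,1,⟨7,[(1,1),(4,1),(6,3),(2,2),(11,2),(6,0),(0,0)]⟩,⟨0,[(3,
  0),(4,0),(8,0),(1,0)]⟩⟩,.a ⟨true,0,⟨0,[(18,0)]⟩,⟨0,[(17,0)]⟩⟩ ⟨false,0,⟨0,[(6,0),(1,0),(8,0),(1,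
  0)]⟩,⟨1,[(16,0),(6,0),(0,0),(11,0)]⟩⟩ ⟨true,0,⟨0,[(7,0),(9,0)]⟩,⟨0,[(18,0),(0,0)]⟩⟩]⟩) (.Q [0,0,0,
  0,0,0,-1,0,0,0,1] (.p true [0,0,1] [] (⟨0,[(27,0)]⟩,⟨0,[(26,0)]⟩) .k 0 (⟨0,[]⟩,⟨0,[]⟩) .k .k) (.K
  ⟨0,[1,-1,-1],0,0,(⟨0,[(11,0)]⟩,⟨0,[(28,0),(2,0)]⟩),.k,(.r (-1) ⟨1,[(1,0),(4,0),(6,1),(3,0),(0,0),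
  (1,1),(14,3)]⟩ ⟨6,[(4,8),(5,0),(11,4),(2,4),(8,4)]⟩),.k,.k,.k,[⟨0,[(1,0),(17,0)]⟩,⟨0,[(0,0)]⟩,⟨1,
  [(15,0),(2,0),(0,0),(14,1)]⟩,⟨0,[(20,0),(14,0)]⟩]⟩) (.R ⟨0,false,false,true,[1,0,0,-1],[1,0,-1],
  [0,1,0,0,0,0,0,0,-1],(⟨0,[(18,0)]⟩,⟨0,[(19,0)]⟩),(⟨0,[(27,0)]⟩,⟨0,[(28,0)]⟩),⟨0,[(5,0)]⟩,.k,.k,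
  (.x (-1) ⟨3,[(16,0),(0,0),(11,1),(0,3)]⟩ ⟨0,[(31,0)]⟩),.k,.k,.k,⟨false,0,⟨2,[(1,0),(8,1),(1,1),(0,
  0),(6,0),(11,1)]⟩,⟨23,[(3,11),(2,3),(9,0),(0,18),(5,11),(0,7)]⟩⟩,⟨true,0,⟨0,[(18,0),(2,0)]⟩,⟨0,
  [(0,0),(18,0)]⟩⟩,⟨true,0,⟨0,[(39,0)]⟩,⟨0,[]⟩⟩,⟨false,1,⟨1,[(17,0),(0,1),(1,1),(3,0),(0,0),(11,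
  0)]⟩,⟨0,[(7,0),(1,0)]⟩⟩,⟨false,0,⟨0,[]⟩,⟨0,[]⟩⟩,⟨false,0,⟨0,[]⟩,⟨0,[]⟩⟩,[.o ⟨false,0,⟨0,[(20,0)]⟩,
  ⟨7,[(15,3),(0,0),(0,0),(11,1),(7,3)]⟩⟩,.o ⟨false,1,⟨1,[(23,1),(5,0),(7,0)]⟩,⟨0,[(8,0)]⟩⟩,.o
  ⟨false,1,⟨7,[(2,1),(4,1),(6,3),(2,2),(11,2),(6,0),(0,0)]⟩,⟨0,[(1,0),(19,0)]⟩⟩,.a ⟨true,0,⟨0,[(19,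
  0)]⟩,⟨0,[(18,0)]⟩⟩ ⟨false,0,⟨2,[(1,1),(8,0),(1,0),(0,1),(6,1),(11,0)]⟩,⟨1,[(17,0),(6,0),(0,0),(11,
  0)]⟩⟩ ⟨true,0,⟨0,[(18,0),(1,0)]⟩,⟨0,[(8,0),(10,0)]⟩⟩]⟩))) (.Q [0,0,0,0,0,2,0,0,0,-1] (.pp true
  [-1,1]) (.I [1,-1,-1,-1,0,0,0,0,-1] (.R ⟨0,false,false,false,[1,0,0,-1],[0,1],[0,1,0,0,0,0,0,0,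
  -1],(⟨0,[(18,0)]⟩,⟨0,[(19,0)]⟩),(⟨0,[(31,0)]⟩,⟨0,[(30,0)]⟩),⟨0,[(5,0)]⟩,.k,.k,(.x (-1) ⟨3,[(16,0),
  (0,0),(11,1),(0,3)]⟩ ⟨0,[(31,0)]⟩),(.x (-1) ⟨3,[(16,0),(0,0),(11,1),(0,3)]⟩ ⟨0,[(31,0)]⟩),.k,.k,
  ⟨false,0,⟨0,[(0,0),(31,0)]⟩,⟨3,[(4,3),(11,0),(0,2)]⟩⟩,⟨true,0,⟨0,[(18,0)]⟩,⟨0,[(4,0),(4,0),(9,0),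
  (0,0)]⟩⟩,⟨true,0,⟨0,[(39,0)]⟩,⟨0,[]⟩⟩,⟨false,1,⟨1,[(2,1),(14,0),(6,0),(0,0),(11,0)]⟩,⟨0,[(9,0),(3,
  0),(6,0)]⟩⟩,⟨false,0,⟨0,[]⟩,⟨0,[]⟩⟩,⟨false,0,⟨0,[]⟩,⟨0,[]⟩⟩,[.e ⟨false,0,⟨0,[(12,0),(19,0)]⟩,⟨1,
  [(17,0),(19,0)]⟩⟩ ⟨false,0,⟨0,[(2,0)]⟩,⟨1,[(0,0),(13,0),(2,0),(1,0),(9,0),(5,0)]⟩⟩,.o ⟨false,1,⟨0,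
  [(34,0),(2,0)]⟩,⟨0,[(9,0),(10,0)]⟩⟩,.o ⟨false,1,⟨1,[(19,1),(9,0),(6,0)]⟩,⟨0,[(4,0),(4,0),(8,0),(1,
  0)]⟩⟩,.a ⟨true,0,⟨0,[(19,0)]⟩,⟨0,[(18,0)]⟩⟩ ⟨false,0,⟨0,[(0,0),(33,0)]⟩,⟨1,[(17,0),(6,0),(0,0),
  (11,0)]⟩⟩ ⟨true,0,⟨0,[(2,0)]⟩,⟨0,[(9,0),(9,0),(0,0)]⟩⟩]⟩) (.R ⟨0,false,false,true,[1,0,0,-1],[0,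
  1],[1,1],(⟨0,[(18,0)]⟩,⟨0,[(19,0)]⟩),(⟨0,[(31,0)]⟩,⟨0,[(30,0)]⟩),⟨0,[(5,0)]⟩,.k,.k,(.x (-1) ⟨3,
  [(16,0),(0,0),(11,1),(0,3)]⟩ ⟨0,[(31,0)]⟩),(.x (-1) ⟨3,[(16,0),(0,0),(11,1),(0,3)]⟩ ⟨0,[(31,0)]⟩),
  .k,.k,⟨false,1,⟨0,[(35,0),(0,0)]⟩,⟨3,[(4,1),(19,0),(0,0),(8,1)]⟩⟩,⟨true,0,⟨0,[(18,0)]⟩,⟨0,[(4,0),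
  (4,0),(9,0),(0,0)]⟩⟩,⟨false,1,⟨3,[(16,0),(0,2)]⟩,⟨0,[(12,0)]⟩⟩,⟨true,0,⟨0,[(0,0),(17,0)]⟩,⟨0,[(9,
  0),(3,0),(6,0)]⟩⟩,⟨false,0,⟨0,[]⟩,⟨0,[]⟩⟩,⟨false,0,⟨0,[]⟩,⟨0,[]⟩⟩,[.o ⟨false,0,⟨0,[(34,0)]⟩,⟨1,
  [(29,0),(5,1),(1,0)]⟩⟩,.a ⟨true,0,⟨0,[(2,0),(16,0)]⟩,⟨0,[(35,0)]⟩⟩ ⟨true,0,⟨0,[]⟩,⟨1,[(24,0),(0,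
  0)]⟩⟩ ⟨false,0,⟨0,[(2,0)]⟩,⟨1,[(19,1),(9,0),(5,1),(0,0)]⟩⟩,.o ⟨false,1,⟨1,[(19,1),(9,0),(6,0)]⟩,
  ⟨0,[(4,0),(4,0),(8,0),(1,0)]⟩⟩,.e ⟨false,1,⟨3,[(16,0),(0,0),(18,1)]⟩,⟨0,[(4,0),(30,0)]⟩⟩ ⟨false,0,
  ⟨0,[(2,0)]⟩,⟨1,[(19,1),(9,0),(5,1),(1,0)]⟩⟩]⟩)) (.Q [0,1,1,0,0,0,1,1,1,1,-1,-1] (.p false [0,0,1]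
  [1,0,0,-1] (⟨0,[(27,0)]⟩,⟨0,[(26,0)]⟩) .k 2 (⟨0,[(17,0)]⟩,⟨0,[(18,0)]⟩) .k (.r (-1) ⟨27,[(9,11),
  (5,6),(0,20),(4,3),(2,3),(6,3)]⟩ ⟨0,[(2,0),(35,0)]⟩)) (.I [1,1,1,0,0,0,0,0,1] (.R ⟨0,false,false,
  true,[1,0,0,-1],[0,1],[1,1],(⟨0,[(19,0)]⟩,⟨0,[(20,0)]⟩),(⟨0,[(32,0)]⟩,⟨0,[(31,0)]⟩),⟨0,[(6,0)]⟩,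
  .k,.k,(.x (-1) ⟨7,[(2,3),(14,2),(0,2),(11,1)]⟩ ⟨0,[(32,0)]⟩),(.x (-1) ⟨7,[(2,3),(14,2),(0,2),(11,
  1)]⟩ ⟨0,[(32,0)]⟩),.k,.k,⟨false,1,⟨0,[(36,0),(0,0)]⟩,⟨3,[(5,1),(19,0),(0,0),(8,1)]⟩⟩,⟨true,0,⟨0,
  [(19,0)]⟩,⟨1,[(2,0),(3,1),(15,0),(2,0)]⟩⟩,⟨false,1,⟨3,[(17,0),(0,2)]⟩,⟨0,[(13,0)]⟩⟩,⟨true,0,⟨0,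
  [(0,0),(2,0)]⟩,⟨0,[(10,0),(3,0),(6,0)]⟩⟩,⟨false,0,⟨0,[]⟩,⟨0,[]⟩⟩,⟨false,0,⟨0,[]⟩,⟨0,[]⟩⟩,[.o
  ⟨false,0,⟨0,[(35,0)]⟩,⟨1,[(30,0),(5,1),(1,0)]⟩⟩,.a ⟨true,0,⟨0,[(3,0),(16,0)]⟩,⟨0,[(36,0)]⟩⟩ ⟨true,
  0,⟨0,[]⟩,⟨1,[(25,0),(0,0)]⟩⟩ ⟨false,0,⟨0,[(3,0)]⟩,⟨1,[(20,1),(9,0),(5,1),(0,0)]⟩⟩,.o ⟨false,1,⟨1,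
  [(20,1),(9,0),(6,0)]⟩,⟨0,[(5,0),(4,0),(8,0),(1,0)]⟩⟩,.e ⟨false,1,⟨3,[(17,0),(0,0),(18,1)]⟩,⟨0,[(5,
  0),(30,0)]⟩⟩ ⟨false,0,⟨0,[(3,0)]⟩,⟨1,[(20,1),(9,0),(5,1),(1,0)]⟩⟩]⟩) (.R ⟨0,false,false,false,[1,
  0,0,-1],[0,1],[0,1,0,0,0,0,0,0,-1],(⟨0,[(19,0)]⟩,⟨0,[(20,0)]⟩),(⟨0,[(32,0)]⟩,⟨0,[(31,0)]⟩),⟨0,[(6,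
  0)]⟩,.k,.k,(.x (-1) ⟨7,[(2,3),(14,2),(0,2),(11,1)]⟩ ⟨0,[(32,0)]⟩),(.x (-1) ⟨7,[(2,3),(14,2),(0,2),
  (11,1)]⟩ ⟨0,[(32,0)]⟩),.k,.k,⟨false,0,⟨0,[(0,0),(32,0),(2,0)]⟩,⟨3,[(5,3),(11,0),(0,2)]⟩⟩,⟨true,0,
  ⟨0,[(19,0)]⟩,⟨1,[(2,0),(3,1),(15,0),(2,0)]⟩⟩,⟨true,0,⟨0,[(40,0)]⟩,⟨0,[]⟩⟩,⟨false,1,⟨1,[(3,1),(14,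
  0),(6,0),(0,0),(11,0)]⟩,⟨0,[(10,0),(3,0),(6,0)]⟩⟩,⟨false,0,⟨0,[]⟩,⟨0,[]⟩⟩,⟨false,0,⟨0,[]⟩,⟨0,[]⟩⟩,
  [.e ⟨false,0,⟨0,[(13,0),(19,0)]⟩,⟨1,[(18,0),(19,0)]⟩⟩ ⟨false,0,⟨0,[(3,0)]⟩,⟨1,[(20,1),(9,0),(5,1),
  (0,0)]⟩⟩,.o ⟨false,1,⟨0,[(35,0),(2,0)]⟩,⟨0,[(10,0),(10,0)]⟩⟩,.o ⟨false,1,⟨1,[(20,1),(9,0),(6,0)]⟩,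
  ⟨0,[(5,0),(4,0),(8,0),(1,0)]⟩⟩,.a ⟨true,0,⟨0,[(20,0)]⟩,⟨0,[(19,0)]⟩⟩ ⟨false,0,⟨1,[(0,0),(12,0),
  (19,0)]⟩,⟨1,[(18,0),(6,0),(0,0),(11,0)]⟩⟩ ⟨true,0,⟨0,[(3,0)]⟩,⟨0,[(10,0),(9,0),(0,0)]⟩⟩]⟩)) (.R
  ⟨0,false,false,false,[1,0,0,-1],[0,1],[0,1,0,0,0,0,0,0,-1],(⟨0,[(18,0)]⟩,⟨0,[(19,0)]⟩),(⟨0,[(31,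
  0)]⟩,⟨0,[(30,0)]⟩),⟨0,[(5,0)]⟩,.k,.k,(.x (-1) ⟨7,[(1,3),(14,2),(0,2),(11,1)]⟩ ⟨0,[(31,0)]⟩),(.x
  (-1) ⟨7,[(1,3),(14,2),(0,2),(11,1)]⟩ ⟨0,[(31,0)]⟩),.k,.k,⟨false,0,⟨0,[(0,0),(8,0),(8,0),(13,0)]⟩,
  ⟨3,[(4,3),(11,0),(0,2)]⟩⟩,⟨true,0,⟨0,[(18,0)]⟩,⟨1,[(1,0),(3,1),(15,0),(2,0)]⟩⟩,⟨true,0,⟨0,[(39,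
  0)]⟩,⟨0,[]⟩⟩,⟨false,1,⟨1,[(2,1),(14,0),(6,0),(0,0),(11,0)]⟩,⟨2,[(0,1),(8,2),(4,0),(5,0)]⟩⟩,⟨false,
  0,⟨0,[]⟩,⟨0,[]⟩⟩,⟨false,0,⟨0,[]⟩,⟨0,[]⟩⟩,[.e ⟨false,0,⟨0,[(12,0),(19,0)]⟩,⟨1,[(17,0),(19,0)]⟩⟩
  ⟨false,0,⟨0,[(2,0)]⟩,⟨5,[(0,1),(8,1),(4,3),(2,2),(11,1),(5,3),(1,0)]⟩⟩,.o ⟨false,1,⟨0,[(34,0),(2,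
  0)]⟩,⟨0,[(9,0),(10,0)]⟩⟩,.o ⟨false,1,⟨1,[(19,1),(9,0),(6,0)]⟩,⟨0,[(4,0),(4,0),(8,0),(1,0)]⟩⟩,.a
  ⟨true,0,⟨0,[(19,0)]⟩,⟨0,[(18,0)]⟩⟩ ⟨false,0,⟨1,[(0,0),(1,0),(6,0),(2,0),(19,0)]⟩,⟨1,[(17,0),(6,0),
  (0,0),(11,0)]⟩⟩ ⟨true,0,⟨0,[(2,0)]⟩,⟨0,[(9,0),(9,0),(0,0)]⟩⟩]⟩)))))) (.Q [0,0,0,0,0,0,1,0,0,1,-1]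
  (.p false [0,0,1] [1] (⟨0,[(23,0)]⟩,⟨0,[(22,0)]⟩) .k 1 (⟨0,[]⟩,⟨0,[]⟩) .k .k) (.Q [0,0,0,0,0,0,-1,
  0,0,0,1] (.p true [0,0,1] [] (⟨0,[(24,0)]⟩,⟨0,[(23,0)]⟩) .k 0 (⟨0,[]⟩,⟨0,[]⟩) .k .k) (.K ⟨0,[1,-1,
  -1],0,0,(⟨0,[(8,0)]⟩,⟨0,[(25,0),(2,0)]⟩),.k,(.x 0 ⟨0,[(5,0),(2,0),(8,0),(0,0),(8,0),(2,0)]⟩ ⟨0,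
  [(3,0),(21,0),(2,1)]⟩),.k,.k,.k,[⟨0,[(1,0)]⟩,⟨0,[(0,0)]⟩,⟨1,[(12,0),(2,0),(0,0),(14,1)]⟩,⟨0,[(17,
  0),(14,0)]⟩]⟩) (.R ⟨1,false,false,true,[1,0,0,-1],[1,0,-1],[0,1,0,-1,0,0,0,0,-1],(⟨0,[(15,0)]⟩,⟨0,
  [(16,0)]⟩),(⟨0,[(24,0)]⟩,⟨0,[(25,0)]⟩),⟨0,[(2,0)]⟩,.k,.k,(.x (-1) ⟨3,[(13,0),(0,0),(11,1),(0,3)]⟩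
  ⟨0,[(28,0)]⟩),.k,(.r 0 ⟨1,[(6,0),(0,0),(1,0),(0,0),(4,0),(1,0),(11,0),(2,0)]⟩ ⟨1,[(1,1),(12,0),(2,
  1),(12,1),(0,1),(2,0)]⟩),.k,⟨false,0,⟨1,[(6,0),(0,0),(1,0),(0,0),(4,0),(1,0),(11,0),(2,0)]⟩,⟨0,
  [(4,0),(9,0),(0,0),(1,0),(3,0)]⟩⟩,⟨true,0,⟨0,[(15,0),(2,0)]⟩,⟨0,[(0,0),(15,0)]⟩⟩,⟨false,0,⟨0,[(32,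
  0)]⟩,⟨0,[(31,0),(2,0)]⟩⟩,⟨false,1,⟨1,[(14,0),(0,1),(1,1),(3,0),(0,0),(11,0)]⟩,⟨0,[(4,0),(1,0)]⟩⟩,
  ⟨true,0,⟨0,[(36,0)]⟩,⟨0,[]⟩⟩,⟨false,1,⟨1,[(14,0),(0,1),(1,1),(12,1),(0,1),(2,0)]⟩,⟨0,[(6,0),(3,
  0)]⟩⟩,[.o ⟨false,0,⟨0,[(17,0)]⟩,⟨7,[(12,3),(0,0),(0,0),(11,1),(7,3)]⟩⟩,.o ⟨false,1,⟨1,[(20,1),(5,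
  0),(7,0)]⟩,⟨0,[(5,0)]⟩⟩,.o ⟨false,1,⟨1,[(16,1),(9,0),(6,0)]⟩,⟨0,[(0,0),(14,0),(2,0)]⟩⟩,.a ⟨true,0,
  ⟨0,[(16,0)]⟩,⟨0,[(15,0)]⟩⟩ ⟨false,0,⟨0,[(6,0),(3,0),(4,0),(1,0)]⟩,⟨1,[(14,0),(15,1),(0,1),(2,
  0)]⟩⟩ ⟨true,0,⟨0,[(15,0),(1,0)]⟩,⟨0,[(5,0),(10,0)]⟩⟩]⟩)) (.I [0,1,-1,-1,0,0,0,-1,-1] (.R ⟨1,false,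
  false,false,[1,0,0,-1],[0,0,1],[0,1,0,-1,0,0,0,0,-1],(⟨0,[(15,0)]⟩,⟨0,[(16,0)]⟩),(⟨0,[(25,0)]⟩,⟨0,
  [(24,0)]⟩),⟨0,[(2,0)]⟩,.k,.k,(.x (-1) ⟨3,[(13,0),(0,0),(11,1),(0,3)]⟩ ⟨0,[(28,0)]⟩),.k,(.x 0 ⟨0,
  [(1,0),(6,0)]⟩ ⟨2,[(3,0),(9,0),(0,0),(6,1),(3,2),(2,2)]⟩),.k,⟨false,0,⟨0,[(0,0)]⟩,⟨3,[(4,1),(2,1),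
  (6,2),(0,1),(10,0),(3,1),(0,1)]⟩⟩,⟨true,0,⟨0,[(15,0),(5,0)]⟩,⟨0,[(1,0),(14,0)]⟩⟩,⟨false,0,⟨0,[(32,
  0)]⟩,⟨0,[(31,0),(2,0)]⟩⟩,⟨false,1,⟨7,[(7,1),(4,1),(1,3),(0,7),(5,5),(0,1),(3,0),(7,2)]⟩,⟨0,[(10,
  0),(6,0)]⟩⟩,⟨true,0,⟨0,[(36,0)]⟩,⟨0,[]⟩⟩,⟨false,1,⟨1,[(5,1),(8,0),(0,1),(14,1),(0,1),(2,0)]⟩,⟨0,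
  [(10,0),(6,0),(14,0)]⟩⟩,[.o ⟨false,0,⟨0,[(5,0)]⟩,⟨1,[(20,1),(5,0),(7,0)]⟩⟩,.o ⟨false,1,⟨7,[(12,3),
  (0,0),(0,0),(11,1),(7,3)]⟩,⟨0,[(17,0)]⟩⟩,.o ⟨false,1,⟨1,[(16,1),(9,0),(6,0)]⟩,⟨0,[(1,0),(13,0),(5,
  0)]⟩⟩,.a ⟨true,0,⟨0,[(16,0)]⟩,⟨0,[(15,0)]⟩⟩ ⟨false,0,⟨1,[(0,0),(0,0),(4,0),(3,0),(4,0)]⟩,⟨1,[(14,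
  0),(15,1),(0,1),(2,0)]⟩⟩ ⟨true,0,⟨0,[(5,0),(9,0)]⟩,⟨0,[(16,0),(0,0)]⟩⟩]⟩) (.I [0,1,1,0,0,0,0,0,1]
  (.R ⟨1,false,false,true,[1,0,0,-1],[0,0,1],[1,0,0,0,0,0,0,0,-1],(⟨0,[(16,0)]⟩,⟨0,[(17,0)]⟩),(⟨0,
  [(26,0)]⟩,⟨0,[(25,0)]⟩),⟨0,[(3,0)]⟩,.k,.k,(.x (-1) ⟨3,[(14,0),(0,0),(11,1),(0,3)]⟩ ⟨0,[(29,0)]⟩),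
  .k,(.r (-1) ⟨5,[(4,3),(5,3),(3,0),(6,5),(0,1),(10,5),(1,0)]⟩ ⟨4,[(0,1),(0,2),(6,0),(23,1)]⟩),.k,
  ⟨false,1,⟨1,[(4,0),(5,0),(0,0),(4,0),(1,0),(2,0),(0,0),(12,0)]⟩,⟨0,[(1,0),(28,0),(2,0)]⟩⟩,⟨true,0,
  ⟨0,[(16,0),(5,0)]⟩,⟨0,[(2,0),(14,0)]⟩⟩,⟨true,0,⟨0,[]⟩,⟨0,[(37,0)]⟩⟩,⟨true,0,⟨0,[(0,0),(5,0),(9,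
  0)]⟩,⟨0,[(11,0),(6,0)]⟩⟩,⟨false,1,⟨0,[(32,0),(2,0)]⟩,⟨0,[(33,0)]⟩⟩,⟨true,0,⟨0,[(1,0),(14,0),(5,0),
  (7,0)]⟩,⟨0,[(11,0),(6,0),(14,0)]⟩⟩,[.o ⟨false,0,⟨0,[(20,0)]⟩,⟨0,[(18,0),(16,0)]⟩⟩,.o ⟨false,0,⟨0,
  [(6,0)]⟩,⟨1,[(21,1),(5,0),(7,0)]⟩⟩,.o ⟨false,1,⟨1,[(17,1),(9,0),(6,0)]⟩,⟨0,[(2,0),(13,0),(5,0)]⟩⟩,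
  .a ⟨true,0,⟨0,[(17,0)]⟩,⟨0,[(16,0)]⟩⟩ ⟨true,0,⟨0,[(5,0),(1,0),(8,0),(1,0)]⟩,⟨0,[(0,0)]⟩⟩ ⟨false,0,
  ⟨0,[(6,0),(9,0)]⟩,⟨0,[(17,0),(0,0),(16,0)]⟩⟩]⟩) (.Q [0,0,0,1,0,0,0,0,0,1,0,-1] (.p false [0,0,0,
  1] [1] (⟨0,[(17,0)]⟩,⟨0,[(16,0)]⟩) .k 1 (⟨0,[]⟩,⟨0,[]⟩) .k .k) (.R ⟨1,false,false,false,[1,0,0,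
  -1],[0,1],[1,1,0,0,0,0,0,0,-1],(⟨0,[(17,0)]⟩,⟨0,[(18,0)]⟩),(⟨0,[(30,0)]⟩,⟨0,[(29,0)]⟩),⟨0,[(4,
  0)]⟩,.k,.k,(.x (-1) ⟨3,[(15,0),(0,0),(11,1),(0,3)]⟩ ⟨0,[(30,0)]⟩),(.x (-1) ⟨3,[(15,0),(0,0),(11,
  1),(0,3)]⟩ ⟨0,[(30,0)]⟩),(.r (-1) ⟨9,[(1,3),(13,2),(15,1),(2,19),(0,6)]⟩ ⟨0,[(0,0),(1,0),(15,0),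
  (0,0),(3,0)]⟩),.k,⟨false,0,⟨0,[(1,0),(29,0),(2,0)]⟩,⟨3,[(2,1),(13,0),(5,1),(0,1),(9,1),(2,2)]⟩⟩,
  ⟨true,0,⟨0,[(17,0)]⟩,⟨0,[(3,0),(14,0),(4,0)]⟩⟩,⟨false,0,⟨0,[]⟩,⟨3,[(15,0),(0,0),(19,1)]⟩⟩,⟨false,
  1,⟨1,[(0,1),(15,0),(6,0),(0,0),(11,0)]⟩,⟨0,[(8,0),(3,0),(6,0)]⟩⟩,⟨true,0,⟨0,[(33,0)]⟩,⟨0,[(34,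
  0)]⟩⟩,⟨false,1,⟨3,[(0,3),(1,1),(13,0),(5,1),(0,1),(9,1),(2,2)]⟩,⟨0,[(8,0),(3,0),(6,0),(14,0)]⟩⟩,
  [.e ⟨false,0,⟨0,[(11,0),(19,0)]⟩,⟨1,[(16,0),(19,0)]⟩⟩ ⟨false,0,⟨0,[(0,0)]⟩,⟨1,[(18,1),(9,0),(5,1),
  (0,0)]⟩⟩,.o ⟨false,1,⟨0,[(33,0),(2,0)]⟩,⟨0,[(8,0),(10,0)]⟩⟩,.o ⟨false,1,⟨1,[(18,1),(9,0),(6,0)]⟩,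
  ⟨0,[(3,0),(13,0),(5,0)]⟩⟩,.a ⟨true,0,⟨0,[(18,0)]⟩,⟨0,[(17,0)]⟩⟩ ⟨false,0,⟨1,[(1,0),(9,0),(19,0)]⟩,
  ⟨1,[(16,0),(6,0),(0,0),(11,0)]⟩⟩ ⟨true,0,⟨0,[(0,0)]⟩,⟨0,[(8,0),(9,0),(0,0)]⟩⟩]⟩) (.Q [0,0,0,1,0,0,
  0,0,0,1] (.pp false [-1,1]) (.R ⟨1,false,false,false,[1,0,0,-1],[0,1],[1,1,0,0,0,0,0,0,-1],(⟨0,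
  [(18,0)]⟩,⟨0,[(19,0)]⟩),(⟨0,[(31,0)]⟩,⟨0,[(30,0)]⟩),⟨0,[(5,0)]⟩,.k,.k,(.x (-1) ⟨3,[(16,0),(0,0),
  (11,1),(0,3)]⟩ ⟨0,[(31,0)]⟩),(.x (-1) ⟨3,[(16,0),(0,0),(11,1),(0,3)]⟩ ⟨0,[(31,0)]⟩),(.r (-1) ⟨9,
  [(2,3),(13,2),(15,1),(2,19),(0,6)]⟩ ⟨0,[(0,0),(2,0),(16,0),(3,0)]⟩),.k,⟨false,0,⟨0,[(2,0),(29,0),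
  (2,0)]⟩,⟨5,[(0,1),(2,1),(13,1),(2,1),(3,2),(0,0),(8,1),(2,3)]⟩⟩,⟨true,0,⟨0,[(18,0)]⟩,⟨6,[(1,2),(1,
  0),(3,0),(11,2),(0,0),(0,2),(2,3),(9,0)]⟩⟩,⟨false,0,⟨0,[]⟩,⟨3,[(16,0),(0,0),(19,1)]⟩⟩,⟨false,1,⟨5,
  [(0,1),(2,1),(13,1),(0,5),(1,1),(3,2),(0,0),(8,1),(2,3)]⟩,⟨2,[(1,1),(0,1),(6,0),(4,0),(5,0)]⟩⟩,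
  ⟨true,0,⟨0,[(34,0)]⟩,⟨0,[(35,0)]⟩⟩,⟨false,1,⟨9,[(0,7),(2,7),(2,1),(10,0),(0,9),(1,7),(3,5),(9,3),
  (2,6)]⟩,⟨2,[(1,1),(0,1),(6,0),(4,0),(5,0),(14,2)]⟩⟩,[.a ⟨true,0,⟨0,[(0,0)]⟩,⟨0,[(35,0)]⟩⟩ ⟨false,
  0,⟨0,[(12,0),(19,0)]⟩,⟨1,[(17,0),(19,0)]⟩⟩ ⟨true,0,⟨0,[(18,0),(14,0),(0,0)]⟩,⟨0,[(1,0)]⟩⟩,.o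
  ⟨false,1,⟨0,[(34,0),(2,0)]⟩,⟨0,[(9,0),(10,0)]⟩⟩,.o ⟨false,1,⟨1,[(19,1),(9,0),(6,0)]⟩,⟨0,[(4,0),
  (13,0),(5,0)]⟩⟩,.e ⟨false,0,⟨1,[(2,0),(9,0),(19,0)]⟩,⟨1,[(17,0),(6,0),(0,0),(11,0)]⟩⟩ ⟨false,1,⟨0,
  [(18,0),(15,0),(2,0)]⟩,⟨0,[(1,0)]⟩⟩]⟩) (.I [0,0,1,1,-1,0,0,1,-1] (.R ⟨1,false,false,true,[1,0,0,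
  -1],[1,-1,-1],[1,1,0,0,0,0,0,0,-1],(⟨0,[(19,0)]⟩,⟨0,[(20,0)]⟩),(⟨0,[(12,0)]⟩,⟨0,[(29,0),(2,0)]⟩),
  ⟨0,[(6,0)]⟩,.k,.k,(.x (-1) ⟨3,[(17,0),(0,0),(11,1),(0,3)]⟩ ⟨0,[(32,0)]⟩),(.r 1 ⟨0,[(0,0)]⟩ ⟨5,[(7,
  3),(9,0),(0,3),(5,5),(0,1),(10,5),(1,2)]⟩),.k,.k,⟨true,(-1),⟨0,[(0,0)]⟩,⟨0,[(3,0),(14,0),(5,0),(0,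
  0),(10,0)]⟩⟩,⟨false,0,⟨0,[(19,0),(2,0)]⟩,⟨0,[(7,0),(12,0)]⟩⟩,⟨false,0,⟨0,[]⟩,⟨3,[(17,0),(0,0),(19,
  1)]⟩⟩,⟨false,1,⟨1,[(18,0),(0,1),(1,1),(3,0),(0,0),(9,1),(1,0)]⟩,⟨0,[(8,0),(0,0)]⟩⟩,⟨true,0,⟨0,
  [(35,0)]⟩,⟨0,[(36,0)]⟩⟩,⟨false,1,⟨1,[(18,0),(0,1),(1,1),(3,0),(0,0),(11,0)]⟩,⟨0,[(8,0),(1,0)]⟩⟩,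
  [.o ⟨false,0,⟨0,[(21,0),(14,0)]⟩,⟨39,[(0,5),(3,5),(2,7),(8,13),(8,3),(4,6),(4,27),(2,30)]⟩⟩,.o
  ⟨false,1,⟨1,[(24,1),(5,0),(5,1),(1,0)]⟩,⟨0,[(3,0),(0,0),(20,0),(7,0)]⟩⟩,.o ⟨false,1,⟨1,[(20,1),(9,
  0),(6,0)]⟩,⟨6,[(0,0),(0,1),(2,0),(14,6),(1,1),(0,0),(2,2),(4,0),(3,0)]⟩⟩,.a ⟨true,0,⟨0,[(20,0)]⟩,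
  ⟨0,[(19,0)]⟩⟩ ⟨false,0,⟨1,[(3,0),(9,0),(19,0)]⟩,⟨1,[(18,0),(6,0),(0,0),(11,0)]⟩⟩ ⟨true,0,⟨0,[(19,
  0),(1,0),(14,0)]⟩,⟨1,[(4,0),(3,0),(0,0),(10,0),(4,0),(7,0)]⟩⟩]⟩) (.Q [0,-1,0,-1,0,0,1,1,0,0,-1]
  (.p false [0,0,1] [] (⟨0,[(29,0)]⟩,⟨0,[(28,0)]⟩) .k 0 (⟨0,[]⟩,⟨0,[]⟩) .k .k) (.R ⟨2,true,false,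
  false,[0,1],[0,0,1],[0,0,1],(⟨0,[]⟩,⟨0,[]⟩),(⟨0,[(30,0)]⟩,⟨0,[(29,0)]⟩),⟨0,[]⟩,.k,.k,.k,.k,.k,.k,
  ⟨false,1,⟨9,[(1,1),(6,1),(9,0),(6,7),(0,5),(9,1),(2,4)]⟩,⟨0,[(4,0),(0,0),(28,0),(2,0)]⟩⟩,⟨true,0,
  ⟨0,[(26,0)]⟩,⟨3,[(5,0),(0,0),(5,0),(2,0),(4,0),(4,2),(11,0)]⟩⟩,⟨true,0,⟨0,[(37,0)]⟩,⟨0,[(36,0)]⟩⟩,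
  ⟨false,0,⟨0,[(0,0)]⟩,⟨0,[(25,0),(10,0),(2,0)]⟩⟩,⟨false,1,⟨3,[(18,0),(0,0),(19,1)]⟩,⟨0,[]⟩⟩,⟨true,
  0,⟨0,[(10,0)]⟩,⟨0,[(25,0)]⟩⟩,[]⟩) (.Q [0,0,0,0,0,1,0,0,0,0,-1] (.ed true [1,-1,1] .k) (.K ⟨2,[1,
  -1,1],0,0,(⟨0,[(31,0),(1,0)]⟩,⟨0,[(0,0)]⟩),.k,(.r (-1) ⟨13,[(2,1),(10,7),(5,0),(15,3),(2,25),(0,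
  10)]⟩ ⟨1,[(1,2),(3,0),(0,0),(20,2),(8,0)]⟩),.k,.k,.k,[⟨0,[(3,0)]⟩,⟨0,[(1,0),(19,0),(0,0)]⟩,⟨2,[(6,
  0),(6,0),(2,0),(4,2),(0,1),(3,2),(11,0)]⟩,⟨0,[(7,0),(19,1)]⟩]⟩) (.K ⟨2,[0,-1,1],0,0,(⟨0,[(0,0)]⟩,
  ⟨0,[(30,0),(3,0)]⟩),.k,(.r (-1) ⟨13,[(2,1),(10,7),(5,0),(15,3),(2,25),(0,10)]⟩ ⟨1,[(1,2),(3,0),(0,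
  0),(20,2),(8,0)]⟩),.k,.k,.k,[⟨0,[(38,0)]⟩,⟨0,[(1,0)]⟩,⟨3,[(6,0),(0,0),(5,0),(2,0),(4,0),(4,2),(11,
  0)]⟩,⟨1,[(27,2),(0,0)]⟩]⟩)))))))))) (.I [0,1,-1,0,0,0,0,1] (.Q [0,0,-2,0,1,0,1,0,0,1,-1] (.p
  false [0,0,1] [1] (⟨0,[(23,0)]⟩,⟨0,[(22,0)]⟩) .k 1 (⟨0,[]⟩,⟨0,[]⟩) .k .k) (.Q [0,0,0,0,0,1,0,0,0,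
  -1,0,1] (.p true [0,0,0,1] [1] (⟨0,[(15,0)]⟩,⟨0,[(14,0)]⟩) .k 1 (⟨0,[]⟩,⟨0,[]⟩) .k .k) (.R ⟨0,
  false,false,true,[1,0,0,-1],[0,0,1],[1,0,1],(⟨0,[(15,0)]⟩,⟨0,[(16,0)]⟩),(⟨0,[(25,0)]⟩,⟨0,[(24,
  0)]⟩),⟨0,[(0,0)]⟩,.k,.k,(.x (-1) ⟨3,[(13,0),(0,0),(11,1),(0,3)]⟩ ⟨0,[(28,0)]⟩),.k,.k,.k,⟨false,1,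
  ⟨0,[(1,0),(15,0),(12,1)]⟩,⟨0,[(2,0)]⟩⟩,⟨true,0,⟨0,[(15,0),(5,0)]⟩,⟨2,[(3,0),(0,0),(1,0),(0,0),(2,
  0),(3,0),(1,0),(0,2)]⟩⟩,⟨false,1,⟨1,[(14,0),(6,0),(0,0),(11,0)]⟩,⟨0,[(4,0),(1,0),(8,0),(1,0)]⟩⟩,
  ⟨true,0,⟨1,[(3,0),(1,1),(8,0),(0,1),(5,0),(7,0)]⟩,⟨0,[(10,0),(6,0)]⟩⟩,⟨false,0,⟨0,[]⟩,⟨0,[]⟩⟩,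
  ⟨false,0,⟨0,[]⟩,⟨0,[]⟩⟩,[.o ⟨false,0,⟨0,[(19,0)]⟩,⟨0,[(17,0),(16,0)]⟩⟩,.o ⟨false,0,⟨0,[(5,0)]⟩,⟨1,
  [(20,1),(5,0),(7,0)]⟩⟩,.o ⟨false,1,⟨1,[(16,1),(9,0),(6,0)]⟩,⟨0,[(5,0),(9,0),(1,0),(12,0)]⟩⟩,.a
  ⟨true,0,⟨0,[(16,0)]⟩,⟨0,[(15,0)]⟩⟩ ⟨true,0,⟨0,[]⟩,⟨0,[(36,0)]⟩⟩ ⟨false,0,⟨0,[(5,0),(9,0)]⟩,⟨0,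
  [(16,0),(0,0),(16,0)]⟩⟩]⟩) (.I [0,1,1,0,-1,0,0,0,-1] (.R ⟨1,false,false,false,[1,0,0,-1],[1,-1],
  [0,1,0,-1,0,0,0,0,-1],(⟨0,[(16,0)]⟩,⟨0,[(17,0)]⟩),(⟨0,[(28,0)]⟩,⟨0,[(29,0)]⟩),⟨0,[(1,0)]⟩,.k,.k,
  (.x (-1) ⟨3,[(14,0),(0,0),(11,1),(0,3)]⟩ ⟨0,[(29,0)]⟩),(.r 0 ⟨4,[(4,0),(5,2),(3,0),(7,0),(8,1),(0,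
  4)]⟩ ⟨1,[(15,0),(17,1),(0,0)]⟩),.k,.k,⟨true,(-1),⟨0,[(0,0)]⟩,⟨1,[(15,0),(19,0)]⟩⟩,⟨false,0,⟨0,[(6,
  0),(9,0),(1,0),(12,0)]⟩,⟨0,[(17,0),(16,0)]⟩⟩,⟨false,0,⟨0,[(33,0)]⟩,⟨0,[(32,0),(2,0)]⟩⟩,⟨false,1,
  ⟨1,[(15,0),(0,1),(10,0),(3,1),(1,1)]⟩,⟨2,[(5,1),(6,0),(19,0)]⟩⟩,⟨true,0,⟨0,[(37,0)]⟩,⟨0,[]⟩⟩,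
  ⟨false,1,⟨1,[(15,0),(0,1),(10,0),(3,1)]⟩,⟨1,[(11,0),(0,0)]⟩⟩,[.a ⟨true,0,⟨0,[(33,0)]⟩,⟨0,[(0,0),
  (4,0),(9,0),(0,0)]⟩⟩ ⟨false,0,⟨0,[(10,0),(19,0),(2,0)]⟩,⟨0,[(5,0),(0,0),(8,0),(0,0),(1,0),(12,
  0)]⟩⟩ ⟨true,0,⟨0,[(7,0),(8,0),(1,0),(12,0)]⟩,⟨0,[(0,0),(4,0),(9,0)]⟩⟩,.o ⟨false,1,⟨1,[(27,0),(5,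
  1),(1,0)]⟩,⟨0,[(32,0)]⟩⟩,.o ⟨false,1,⟨1,[(17,1),(9,0),(6,0)]⟩,⟨0,[(6,0),(9,0),(1,0),(12,0)]⟩⟩,.e
  ⟨false,0,⟨0,[(7,0),(3,0),(4,0),(1,0)]⟩,⟨1,[(15,0),(15,1),(0,1),(2,0)]⟩⟩ ⟨false,1,⟨1,[(16,1),(10,
  0),(5,1),(1,0)]⟩,⟨0,[(0,0),(4,0),(9,0)]⟩⟩]⟩) (.Q [0,0,0,0,0,-1,0,0,0,0,1] (.ed false [1,-1,1] .k)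
  (.K ⟨2,[0,-1,1],0,0,(⟨0,[(0,0)]⟩,⟨0,[(26,0),(3,0)]⟩),.k,(.r (-1) ⟨11,[(4,3),(4,3),(5,0),(0,0),(17,
  23),(0,9)]⟩ ⟨0,[(1,0),(3,0),(0,0),(10,0),(1,0),(3,1),(9,0)]⟩),.k,.k,.k,[⟨0,[(34,0)]⟩,⟨1,[(5,0),(0,
  1),(9,0),(0,1),(1,1),(3,0),(7,0)]⟩,⟨4,[(1,0),(3,0),(3,1),(2,0),(4,0),(1,0),(2,2)]⟩,⟨1,[(23,2),(0,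
  0)]⟩]⟩) (.R ⟨0,false,false,false,[0,0,1],[0,1],[0,1,0,0,0,0,0,1],(⟨0,[(27,0)]⟩,⟨0,[(26,0)]⟩),(⟨0,
  [(30,0)]⟩,⟨0,[(29,0)]⟩),⟨0,[(0,0)]⟩,.k,.k,.k,.k,.k,.k,⟨true,0,⟨0,[(4,0),(29,0)]⟩,⟨0,[(1,0),(3,0),
  (0,0),(10,0),(1,0),(3,1)]⟩⟩,⟨false,1,⟨3,[(1,0),(7,1),(2,0),(4,0),(1,0),(2,2),(12,2)]⟩,⟨0,[(23,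
  0)]⟩⟩,⟨true,0,⟨0,[(38,0)]⟩,⟨0,[]⟩⟩,⟨false,1,⟨3,[(6,1),(9,0),(0,1),(1,1),(2,1),(9,1),(0,1),(2,2)]⟩,
  ⟨0,[(8,0)]⟩⟩,⟨false,0,⟨0,[]⟩,⟨0,[]⟩⟩,⟨false,0,⟨0,[]⟩,⟨0,[]⟩⟩,[.a ⟨true,0,⟨1,[(5,0),(0,1),(9,0),(0,
  1),(5,0),(7,0)]⟩,⟨0,[(34,0)]⟩⟩ ⟨false,0,⟨0,[(4,0)]⟩,⟨0,[(1,0),(9,0),(10,0),(0,0)]⟩⟩ ⟨true,0,⟨6,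
  [(1,2),(3,2),(0,2),(2,1),(7,2),(1,2),(2,0),(10,3)]⟩,⟨0,[(23,0),(10,0)]⟩⟩,.o ⟨false,1,⟨0,[(33,0),
  (2,0)]⟩,⟨0,[(8,0),(10,0)]⟩⟩,.o ⟨false,1,⟨11,[(3,3),(11,2),(0,2),(6,7),(4,1)]⟩,⟨0,[(1,0),(3,0),(0,
  0),(0,0),(0,0),(8,0),(1,1)]⟩⟩,.o ⟨false,0,⟨0,[(23,0)]⟩,⟨0,[(20,0),(14,0)]⟩⟩]⟩)))) (.Q [0,0,0,-1,0,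
  0,-1,-1,0,0,1] (.p true [0,0,1] [] (⟨0,[(24,0)]⟩,⟨0,[(23,0)]⟩) .k 0 (⟨0,[]⟩,⟨0,[]⟩) .k .k) (.R ⟨2,
  false,false,false,[0,1],[0,1,1],[],(⟨0,[]⟩,⟨0,[]⟩),(⟨0,[(25,0),(2,0)]⟩,⟨0,[(8,0)]⟩),⟨0,[]⟩,.k,.k,
  .k,.k,.k,.k,⟨true,1,⟨0,[(0,0),(20,0),(11,0)]⟩,⟨1,[(1,2),(2,1),(7,0),(1,0),(0,1),(5,0),(7,0)]⟩⟩,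
  ⟨false,1,⟨0,[(21,0),(11,0)]⟩,⟨8,[(0,1),(0,0),(2,1),(2,3),(6,0),(0,1),(1,0),(2,4)]⟩⟩,⟨false,1,⟨1,
  [(0,0),(5,0),(26,0),(0,0)]⟩,⟨0,[(30,0),(0,0)]⟩⟩,⟨true,0,⟨0,[(5,0)]⟩,⟨0,[(20,0)]⟩⟩,⟨false,1,⟨1,
  [(33,0),(0,0)]⟩,⟨1,[(21,0),(0,0)]⟩⟩,⟨false,1,⟨0,[(5,0),(25,0),(2,0)]⟩,⟨0,[(0,0)]⟩⟩,[.a ⟨true,0,⟨1,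
  [(1,0),(2,1),(7,0),(1,0),(0,1),(5,0),(7,0)]⟩,⟨0,[(0,0)]⟩⟩ ⟨false,1,⟨3,[(13,0),(0,0),(18,1)]⟩,⟨0,
  []⟩⟩ ⟨true,0,⟨0,[(5,0),(24,0),(0,0)]⟩,⟨0,[(0,0)]⟩⟩,.o ⟨false,1,⟨0,[(5,0),(25,0),(2,0)]⟩,⟨1,[(0,0),
  (5,0),(10,1)]⟩⟩,.o ⟨false,1,⟨3,[(13,0),(0,0),(18,1)]⟩,⟨2,[(1,0),(19,0),(4,0)]⟩⟩,.e ⟨false,1,⟨1,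
  [(33,0),(0,0)]⟩,⟨1,[(21,0),(0,0)]⟩⟩ ⟨false,1,⟨0,[(5,0),(25,0),(2,0)]⟩,⟨0,[(0,0)]⟩⟩]⟩) (.Q [0,0,0,
  0,0,-1,0,0,0,0,0,1] (.p true [0,0,0,1] [] (⟨0,[(16,0)]⟩,⟨0,[(15,0)]⟩) .k 0 (⟨0,[]⟩,⟨0,[]⟩) .k .k)
  (.R ⟨1,false,false,true,[0,0,0,1],[0,1],[1,0,0,0,0,0,0,0,1],(⟨0,[(17,0)]⟩,⟨0,[(16,0)]⟩),(⟨0,[(29,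
  0)]⟩,⟨0,[(28,0)]⟩),⟨0,[(0,0)]⟩,.k,.k,(.r (-1) ⟨1,[(15,0),(17,1),(0,0)]⟩ ⟨4,[(4,0),(5,2),(3,0),(7,
  0),(8,1),(0,4)]⟩),(.r (-1) ⟨1,[(15,0),(17,1),(0,0)]⟩ ⟨4,[(4,0),(5,2),(3,0),(7,0),(8,1),(0,4)]⟩),
  (.r (-2) ⟨3,[(14,0),(0,2),(17,7),(0,3)]⟩ ⟨0,[(2,0),(2,0),(10,0),(5,0),(9,0)]⟩),.k,⟨false,2,⟨1,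
  [(15,0),(17,1),(0,1),(0,0)]⟩,⟨0,[(2,0),(2,0),(10,0),(5,0),(7,0)]⟩⟩,⟨true,1,⟨0,[(17,0),(16,0)]⟩,⟨0,
  [(2,0),(13,0),(5,0)]⟩⟩,⟨true,0,⟨0,[]⟩,⟨0,[(37,0)]⟩⟩,⟨false,0,⟨2,[(5,1),(6,0),(19,0)]⟩,⟨5,[(2,1),
  (12,2),(0,5),(5,1),(4,1),(5,5),(1,2)]⟩⟩,⟨false,1,⟨0,[(32,0),(2,0)]⟩,⟨0,[(33,0)]⟩⟩,⟨false,0,⟨0,[(5,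
  0),(26,0)]⟩,⟨5,[(2,1),(12,2),(0,5),(5,1),(4,1),(5,11),(1,2)]⟩⟩,[.o ⟨false,0,⟨0,[(32,0)]⟩,⟨1,[(27,
  0),(5,1),(1,0)]⟩⟩,.a ⟨true,0,⟨1,[(4,0),(0,1),(9,0),(0,1),(5,0),(7,0)]⟩,⟨0,[(33,0)]⟩⟩ ⟨true,1,⟨1,
  [(15,0),(19,0)]⟩,⟨0,[(2,0),(8,0),(4,0),(5,0),(7,0)]⟩⟩ ⟨false,1,⟨5,[(5,3),(6,1),(2,2),(16,1),(1,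
  2)]⟩,⟨2,[(2,0),(13,2),(5,0),(4,0),(5,2)]⟩⟩,.o ⟨false,0,⟨2,[(2,0),(13,2),(5,0),(4,0)]⟩,⟨1,[(17,1),
  (9,0),(6,0)]⟩⟩,.o ⟨false,0,⟨5,[(2,1),(13,5),(5,4),(0,2),(3,1)]⟩,⟨1,[(5,1),(1,1),(7,0),(2,1),(15,
  0)]⟩⟩]⟩) (.R ⟨0,false,false,true,[0,0,0,1],[0,1],[1,0,0,0,0,0,0,0,1],(⟨0,[(17,0)]⟩,⟨0,[(16,0)]⟩),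
  (⟨0,[(29,0)]⟩,⟨0,[(28,0)]⟩),⟨0,[(0,0)]⟩,.k,.k,(.r (-1) ⟨1,[(15,0),(17,1),(0,0)]⟩ ⟨4,[(4,0),(5,2),
  (3,0),(7,0),(8,1),(0,4)]⟩),(.r (-1) ⟨1,[(15,0),(17,1),(0,0)]⟩ ⟨4,[(4,0),(5,2),(3,0),(7,0),(8,1),
  (0,4)]⟩),.k,.k,⟨false,2,⟨1,[(15,0),(17,1),(0,1),(0,0)]⟩,⟨0,[(2,0),(2,0),(10,0),(5,0),(7,0)]⟩⟩,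
  ⟨true,1,⟨0,[(17,0),(16,0)]⟩,⟨0,[(2,0),(13,0),(5,0)]⟩⟩,⟨true,0,⟨0,[]⟩,⟨0,[(37,0)]⟩⟩,⟨false,0,⟨2,
  [(5,1),(6,0),(19,0)]⟩,⟨5,[(2,1),(12,2),(0,5),(5,1),(4,1),(5,5),(1,2)]⟩⟩,⟨false,0,⟨0,[]⟩,⟨0,[]⟩⟩,
  ⟨false,0,⟨0,[]⟩,⟨0,[]⟩⟩,[.o ⟨false,0,⟨0,[(32,0)]⟩,⟨1,[(27,0),(5,1),(1,0)]⟩⟩,.a ⟨true,0,⟨1,[(4,0),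
  (0,1),(9,0),(0,1),(5,0),(7,0)]⟩,⟨0,[(33,0)]⟩⟩ ⟨true,1,⟨1,[(15,0),(19,0)]⟩,⟨0,[(2,0),(8,0),(4,0),
  (5,0),(7,0)]⟩⟩ ⟨false,1,⟨5,[(5,3),(6,1),(2,2),(16,1),(1,2)]⟩,⟨2,[(2,0),(13,2),(5,0),(4,0),(5,
  2)]⟩⟩,.o ⟨false,0,⟨2,[(2,0),(13,2),(5,0),(4,0)]⟩,⟨1,[(17,1),(9,0),(6,0)]⟩⟩,.o ⟨false,0,⟨5,[(2,1),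
  (13,5),(5,4),(0,2),(3,1)]⟩,⟨1,[(5,1),(1,1),(7,0),(2,1),(15,0)]⟩⟩]⟩)))) (.Q [0,0,0,0,0,0,1,0,0,1,
  -1] (.p false [0,0,1] [1] (⟨0,[(23,0)]⟩,⟨0,[(22,0)]⟩) .k 1 (⟨0,[]⟩,⟨0,[]⟩) .k .k) (.R ⟨1,false,
  false,false,[1,0,-1],[0,0,0,1],[1,1,0,0,0,0,0,-1],(⟨0,[(23,0)]⟩,⟨0,[(24,0)]⟩),(⟨0,[(15,0)]⟩,⟨0,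
  [(14,0)]⟩),⟨0,[(7,0)]⟩,.k,.k,.k,.k,(.r (-1) ⟨2,[(0,1),(0,0),(6,0),(3,0),(3,1),(14,2),(0,1)]⟩ ⟨0,
  [(2,0),(0,0),(0,1),(8,0),(0,0),(1,0)]⟩),.k,⟨false,0,⟨0,[(0,0),(2,0),(1,0),(8,0),(1,1)]⟩,⟨7,[(6,3),
  (5,0),(0,4),(19,1)]⟩⟩,⟨true,0,⟨0,[(14,0),(5,0)]⟩,⟨2,[(2,0),(0,0),(1,0),(0,0),(2,0),(3,0),(1,0),(0,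
  2)]⟩⟩,⟨false,0,⟨0,[]⟩,⟨3,[(12,0),(0,0),(19,1)]⟩⟩,⟨false,1,⟨7,[(6,1),(4,1),(1,3),(0,7),(5,5),(0,1),
  (3,0),(7,2)]⟩,⟨0,[(9,0),(6,0)]⟩⟩,⟨true,0,⟨0,[(30,0)]⟩,⟨0,[(31,0)]⟩⟩,⟨false,1,⟨1,[(1,0),(2,0),(1,
  0),(6,0),(0,1),(5,0),(9,1),(2,0)]⟩,⟨0,[(9,0),(6,0),(14,0)]⟩⟩,[.o ⟨false,1,⟨1,[(13,0),(0,1),(5,0),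
  (0,0),(3,0)]⟩,⟨0,[(3,0),(1,0),(10,0)]⟩⟩,.o ⟨false,1,⟨1,[(13,0),(0,1),(10,0),(3,1)]⟩,⟨2,[(3,1),(1,
  1),(4,0),(5,2),(1,0)]⟩⟩,.a ⟨true,0,⟨0,[(2,0),(29,0)]⟩,⟨0,[(0,0)]⟩⟩ ⟨true,0,⟨0,[(0,0),(15,0)]⟩,⟨0,
  [(22,0)]⟩⟩ ⟨false,1,⟨1,[(13,0),(0,1),(5,1),(12,0)]⟩,⟨3,[(6,1),(2,2),(0,0),(5,3)]⟩⟩,.o ⟨false,0,⟨0,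
  [(17,0)]⟩,⟨1,[(0,1),(24,0),(6,0)]⟩⟩]⟩) (.R ⟨1,false,false,false,[1,0,-1],[1,-1],[0,1,0,-1,0,0,0,
  -1],(⟨0,[(23,0)]⟩,⟨0,[(24,0)]⟩),(⟨0,[(26,0)]⟩,⟨0,[(27,0)]⟩),⟨0,[(7,0)]⟩,.k,.k,.k,.k,.k,.k,⟨false,
  0,⟨0,[(1,0),(26,0)]⟩,⟨7,[(6,3),(5,0),(0,0),(18,3),(0,1)]⟩⟩,⟨true,0,⟨0,[(20,0)]⟩,⟨6,[(0,1),(1,0),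
  (3,1),(2,1),(3,0),(0,1),(4,3)]⟩⟩,⟨false,0,⟨0,[(31,0)]⟩,⟨0,[(30,0),(2,0)]⟩⟩,⟨true,0,⟨0,[(5,0)]⟩,⟨3,
  [(1,0),(0,0),(0,1),(9,0),(0,1),(1,1),(2,0),(8,0),(1,1)]⟩⟩,⟨true,0,⟨0,[(35,0)]⟩,⟨0,[]⟩⟩,⟨true,0,⟨0,
  [(4,0)]⟩,⟨0,[(19,0)]⟩⟩,[.a ⟨true,0,⟨0,[(31,0)]⟩,⟨5,[(1,1),(0,1),(0,3),(7,0),(1,1),(0,4),(0,0),(12,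
  1),(1,1)]⟩⟩ ⟨true,0,⟨0,[(1,0),(26,0),(2,0)]⟩,⟨0,[(1,0),(4,0),(23,0)]⟩⟩ ⟨false,1,⟨0,[(20,0),(10,0),
  (0,0)]⟩,⟨10,[(0,5),(1,2),(0,5),(2,0),(6,2),(0,5),(4,1),(10,4)]⟩⟩,.o ⟨false,1,⟨1,[(25,0),(5,1),(1,
  0)]⟩,⟨0,[(30,0)]⟩⟩,.o ⟨false,0,⟨0,[(0,0)]⟩,⟨3,[(12,0),(0,0),(6,3),(11,1)]⟩⟩,.o ⟨false,0,⟨0,[(17,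
  0)]⟩,⟨0,[(20,0),(11,0)]⟩⟩]⟩))))

theorem ok5 : chk (cU (-1) true 3) t5 r7 = true := by decide +kernel

noncomputable def t6 : Tre :=
  .Q [0,1,1,-1,0,0,0,0,1,0,0,-1] (.p false [0,0,0,1] [] (⟨0,[(11,0)]⟩,⟨0,[(10,0)]⟩) .k 0 (⟨0,[]⟩,⟨0,
  []⟩) .k .k) t4 t5

theorem ok6 : chk (cU (-1) true 3) t6 r6 = true :=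
  chk_Q (e' := [0,-1,-1,1,0,0,0,0,-1,0,0,1]) (by decide +kernel) (by decide +kernel) ok4 ok5

noncomputable def t7 : Tre :=
  .Q [0,0,0,0,0,0,-1,-1,0,0,1] (.p true [0,0,1] [] (⟨0,[(19,0)]⟩,⟨0,[(18,0)]⟩) .k 0 (⟨0,[]⟩,⟨0,[]⟩)
  .k .k) t3 t6

theorem ok7 : chk (cU (-1) true 3) t7 l5 = true :=
  chk_Q (e' := [0,0,0,0,0,0,1,1,0,0,-1]) (by decide +kernel) (by decide +kernel) ok3 ok6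

noncomputable def t8 : Tre :=
  (.Q [0,0,0,0,0,-1,0,0,0,0,1] (.ed false [1,-1,1] .k) (.K ⟨2,[0,-1,1],0,0,(⟨0,[(0,0)]⟩,⟨0,[(19,0),
  (3,0)]⟩),.k,(.r (-1) ⟨15,[(2,7),(5,0),(0,0),(14,3),(2,31),(0,13)]⟩ ⟨0,[(1,0),(14,0),(8,0),(0,
  0)]⟩),.k,.k,.k,[⟨0,[(27,0)]⟩,⟨1,[(1,0),(13,0),(10,0)]⟩,⟨1,[(1,0),(0,0),(12,0),(11,0)]⟩,⟨1,[(16,2),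
  (0,0)]⟩]⟩) (.Q [0,0,-1,0,0,0,-2,-1,0,0,2] (.p true [0,0,1] [0,1,-1] (⟨0,[(20,0)]⟩,⟨0,[(19,0)]⟩)
  .k 2 (⟨0,[(0,0)]⟩,⟨0,[(20,0),(1,0)]⟩) .k (.r 0 ⟨6,[(2,5),(11,1),(2,1),(6,1)]⟩ ⟨0,[(1,1),(14,1),
  (10,1),(0,0)]⟩)) (.I [0,0,-1,0,0,1,-2] (.K ⟨2,[0,1,-1],0,0,(⟨0,[(2,0)]⟩,⟨0,[(22,0),(1,0)]⟩),.k,.k,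
  (.r 0 ⟨0,[(3,0),(14,0),(8,0),(0,0)]⟩ ⟨15,[(4,7),(5,0),(0,0),(14,3),(2,31),(0,13)]⟩),(.x 0 ⟨0,[(0,
  0)]⟩ ⟨1,[(18,3),(3,3),(0,0),(0,1),(5,0)]⟩),.k,[⟨0,[(1,0),(1,0),(14,0)]⟩,⟨0,[(16,0),(12,0)]⟩,⟨1,
  [(18,2),(0,0)]⟩,⟨12,[(1,3),(2,1),(14,4),(6,0)]⟩]⟩) (.K ⟨1,[0,1,-1],0,0,(⟨0,[(2,0)]⟩,⟨0,[(22,0),(1,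
  0)]⟩),.k,.k,(.r 0 ⟨0,[(3,0),(14,0),(8,0),(0,0)]⟩ ⟨15,[(4,7),(5,0),(0,0),(14,3),(2,31),(0,13)]⟩),
  .k,.k,[⟨1,[(18,2),(0,0)]⟩,⟨12,[(1,3),(2,1),(14,4),(6,0)]⟩,⟨0,[(16,0),(12,0)]⟩,⟨0,[(0,1),(0,1),(0,
  2),(0,0),(0,0),(0,0)]⟩]⟩)) (.R ⟨0,false,false,true,[0,1,-1],[0,1],[1,1,1],(⟨0,[(1,0)]⟩,⟨0,[(21,0),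
  (1,0)]⟩),(⟨0,[(24,0)]⟩,⟨0,[(23,0)]⟩),⟨0,[(21,0)]⟩,.k,.k,.k,.k,.k,.k,⟨true,0,⟨0,[(28,0)]⟩,⟨0,[(26,
  0),(0,0)]⟩⟩,⟨false,1,⟨0,[(17,0),(11,0)]⟩,⟨1,[(2,0),(0,0),(12,0),(11,0)]⟩⟩,⟨false,0,⟨6,[(3,2),(11,
  0),(2,0),(6,0),(2,6)]⟩,⟨1,[(2,1),(14,1),(11,0),(0,0)]⟩⟩,⟨true,0,⟨0,[(15,0)]⟩,⟨0,[(2,0),(25,0)]⟩⟩,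
  ⟨false,0,⟨0,[]⟩,⟨0,[]⟩⟩,⟨false,0,⟨0,[]⟩,⟨0,[]⟩⟩,[.o ⟨false,0,⟨0,[(27,0)]⟩,⟨1,[(22,0),(5,1),(1,
  0)]⟩⟩,.a ⟨true,0,⟨1,[(2,1),(5,0),(2,0),(0,0)]⟩,⟨0,[(28,0)]⟩⟩ ⟨false,0,⟨0,[]⟩,⟨3,[(9,0),(0,0),(18,
  1)]⟩⟩ ⟨true,0,⟨0,[(0,0),(1,0)]⟩,⟨1,[(2,0),(0,0),(12,0),(11,2)]⟩⟩,.e ⟨false,0,⟨1,[(17,0),(0,0)]⟩,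
  ⟨1,[(29,0),(0,0)]⟩⟩ ⟨false,0,⟨0,[(0,0),(1,0)]⟩,⟨2,[(2,1),(0,0),(14,0),(9,4),(0,1),(0,0)]⟩⟩,.o
  ⟨false,0,⟨1,[(2,0),(0,0),(12,0),(11,0)]⟩,⟨1,[(17,1),(4,0),(6,0)]⟩⟩]⟩)))

theorem ok8 : chk (cU (-1) true 3) t8 r5 = true := by decide +kernel

noncomputable def t9 : Tre :=
  .Q [0,0,0,-1,0,0,1,1,0,0,-1] (.p false [0,0,1] [] (⟨0,[(18,0)]⟩,⟨0,[(17,0)]⟩) .k 0 (⟨0,[]⟩,⟨0,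
  []⟩) .k .k) t7 t8

theorem ok9 : chk (cU (-1) true 3) t9 r4 = true :=
  chk_Q (e' := [0,0,0,1,0,0,-1,-1,0,0,1]) (by decide +kernel) (by decide +kernel) ok7 ok8

noncomputable def t10 : Tre :=
  .I [1,1,0,0,0,0,0,-2] t2 t9

theorem ok10 : chk (cU (-1) true 3) t10 l3 = true :=
  chk_I (e' := [0,-1,0,0,0,0,0,2]) (by decide +kernel) (by decide +kernel) ok2 ok9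

noncomputable def l8 : List Con := (false, [0,0,0,0,0,0,1,0,0,1,-1]) :: r3

noncomputable def r8 : List Con := (false, [0,0,0,0,0,0,-1,0,0,-1,1]) :: r3

noncomputable def t11 : Tre :=
  (.I [0,-1,1] (.Q [0,0,0,0,0,0,-2,-1,0,-1,2] (.p true [0,0,1] [1,0,-1] (⟨0,[(19,0)]⟩,⟨0,[(18,0)]⟩)
  .k 2 (⟨0,[(18,0)]⟩,⟨0,[(19,0)]⟩) .k (.r 0 ⟨0,[(17,1)]⟩ ⟨0,[(1,1),(9,1),(16,0)]⟩)) (.R ⟨0,false,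
  false,false,[1,0,-1],[0,0,1],[1,1],(⟨0,[(19,0)]⟩,⟨0,[(20,0)]⟩),(⟨0,[(20,0)]⟩,⟨0,[(19,0)]⟩),⟨0,[(3,
  0)]⟩,.k,.k,.k,.k,.k,.k,⟨true,0,⟨0,[(2,0),(9,0)]⟩,⟨0,[(1,0),(16,0)]⟩⟩,⟨false,1,⟨1,[(2,3),(18,0),(6,
  0)]⟩,⟨0,[(0,0),(17,0)]⟩⟩,⟨false,0,⟨0,[(18,0)]⟩,⟨0,[(2,0),(9,0),(16,0)]⟩⟩,⟨true,0,⟨0,[(7,0)]⟩,⟨0,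
  [(0,0),(1,0),(9,0)]⟩⟩,⟨false,0,⟨0,[]⟩,⟨0,[]⟩⟩,⟨false,0,⟨0,[]⟩,⟨0,[]⟩⟩,[.a ⟨true,0,⟨1,[(7,0),(2,0),
  (0,0)]⟩,⟨0,[(0,0),(1,0)]⟩⟩ ⟨true,0,⟨0,[(31,0)]⟩,⟨0,[(1,0)]⟩⟩ ⟨false,1,⟨7,[(2,7),(4,3),(0,0),(0,0),
  (11,1),(6,3)]⟩,⟨0,[(0,0)]⟩⟩,.o ⟨false,1,⟨7,[(7,3),(0,0),(0,0),(11,1),(7,3)]⟩,⟨0,[(12,0)]⟩⟩,.e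
  ⟨false,0,⟨0,[]⟩,⟨3,[(8,0),(0,0),(19,1)]⟩⟩ ⟨false,1,⟨7,[(2,7),(4,3),(0,0),(0,0),(11,1),(7,3)]⟩,⟨0,
  [(0,0)]⟩⟩,.o ⟨false,0,⟨0,[(13,0)]⟩,⟨1,[(2,1),(18,0),(6,0)]⟩⟩]⟩) (.I [1,0,1,0,0,0,0,0,1] (.R ⟨0,
  false,false,false,[1,0,-1],[1,0,0,-1],[1,0,1],(⟨0,[(20,0)]⟩,⟨0,[(21,0)]⟩),(⟨0,[(11,0)]⟩,⟨0,[(12,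
  0)]⟩),⟨0,[(4,0)]⟩,.k,.k,.k,.k,.k,.k,⟨true,0,⟨0,[(0,0)]⟩,⟨0,[(5,0),(26,0)]⟩⟩,⟨false,1,⟨1,[(1,1),(4,
  1),(3,0),(2,1),(15,0)]⟩,⟨0,[(11,0),(2,0)]⟩⟩,⟨false,0,⟨0,[(2,0),(16,0)]⟩,⟨1,[(3,1),(9,1),(15,0),(0,
  0)]⟩⟩,⟨true,0,⟨0,[(6,0),(8,0)]⟩,⟨0,[(0,0),(10,0),(1,0)]⟩⟩,⟨false,0,⟨0,[]⟩,⟨0,[]⟩⟩,⟨false,0,⟨0,[]⟩,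
  ⟨0,[]⟩⟩,[.a ⟨true,0,⟨1,[(6,0),(0,0)]⟩,⟨0,[(0,0),(10,0)]⟩⟩ ⟨false,0,⟨0,[]⟩,⟨3,[(9,0),(0,0),(18,
  1)]⟩⟩ ⟨true,0,⟨0,[(1,0),(4,0),(6,0)]⟩,⟨0,[(0,0),(10,0),(2,0)]⟩⟩,.a ⟨true,0,⟨0,[(6,0)]⟩,⟨0,[(0,0),
  (10,0),(20,0)]⟩⟩ ⟨true,0,⟨0,[(26,0)]⟩,⟨0,[(32,0)]⟩⟩ ⟨false,1,⟨1,[(3,1),(2,1),(15,0),(6,0)]⟩,⟨0,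
  [(0,0),(10,0),(1,0),(5,0)]⟩⟩,.a ⟨true,0,⟨0,[(0,0),(5,0),(4,0),(1,0),(5,0)]⟩,⟨0,[(3,0)]⟩⟩ ⟨false,0,
  ⟨0,[(26,0)]⟩,⟨3,[(9,0),(0,0),(18,1)]⟩⟩ ⟨true,0,⟨0,[(1,0),(4,0),(6,0)]⟩,⟨0,[(0,0),(10,0),(1,0),(5,
  0)]⟩⟩,.o ⟨false,0,⟨0,[(14,0)]⟩,⟨1,[(3,1),(18,0),(6,0)]⟩⟩]⟩) (.Q [0,0,-1,-1,0,0,1,0,0,1,-1] (.p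
  false [0,0,1] [1] (⟨0,[(21,0)]⟩,⟨0,[(20,0)]⟩) .k 1 (⟨0,[]⟩,⟨0,[]⟩) .k .k) (.Q [0,0,-1,0,0,0,1,0,0,
  2,-1] (.p false [-1,1,1] [1] (⟨0,[(5,0)]⟩,⟨0,[(21,0),(2,0)]⟩) .k 1 (⟨0,[]⟩,⟨0,[]⟩) .k .k) (.R ⟨0,
  false,false,true,[-1,1,1],[0,1],[1,1,1],(⟨0,[(6,0)]⟩,⟨0,[(22,0),(2,0)]⟩),(⟨0,[(26,0)]⟩,⟨0,[(25,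
  0)]⟩),⟨0,[(22,0)]⟩,.k,.k,.k,.k,.k,.k,⟨true,0,⟨0,[(30,0)]⟩,⟨0,[(4,0),(24,0)]⟩⟩,⟨false,1,⟨0,[(16,0),
  (14,0)]⟩,⟨0,[(5,0)]⟩⟩,⟨false,0,⟨0,[(1,0),(2,0),(10,0)]⟩,⟨0,[(21,0),(7,0),(2,0)]⟩⟩,⟨true,0,⟨0,[(15,
  0)]⟩,⟨3,[(0,0),(9,1),(9,0)]⟩⟩,⟨false,0,⟨0,[]⟩,⟨0,[]⟩⟩,⟨false,0,⟨0,[]⟩,⟨0,[]⟩⟩,[.o ⟨false,0,⟨0,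
  [(29,0)]⟩,⟨1,[(24,0),(5,1),(1,0)]⟩⟩,.e ⟨false,0,⟨0,[]⟩,⟨3,[(11,0),(0,0),(18,1)]⟩⟩ ⟨false,1,⟨1,
  [(16,1),(12,1),(1,0),(0,0)]⟩,⟨0,[(1,0)]⟩⟩,.a ⟨true,0,⟨0,[(0,0)]⟩,⟨0,[(16,0)]⟩⟩ ⟨false,0,⟨1,[(19,
  0),(0,0)]⟩,⟨1,[(31,0),(0,0)]⟩⟩ ⟨true,0,⟨0,[(16,0),(12,0)]⟩,⟨0,[(1,0)]⟩⟩,.o ⟨false,0,⟨0,[(5,0)]⟩,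
  ⟨1,[(16,1),(7,0),(6,0)]⟩⟩]⟩) (.Q [0,0,0,0,0,0,-1,0,0,0,1] (.p true [0,0,1] [] (⟨0,[(23,0)]⟩,⟨0,
  [(22,0)]⟩) .k 0 (⟨0,[]⟩,⟨0,[]⟩) .k .k) (.R ⟨0,false,false,true,[1,0,-1],[1,-1],[1],(⟨0,[(23,0)]⟩,
  ⟨0,[(24,0)]⟩),(⟨0,[(26,0)]⟩,⟨0,[(27,0)]⟩),⟨0,[(7,0)]⟩,.k,.k,.k,.k,.k,.k,⟨false,1,⟨0,[(30,0),(2,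
  0)]⟩,⟨1,[(0,0),(0,0),(0,1),(25,0)]⟩⟩,⟨true,0,⟨0,[(20,0)]⟩,⟨0,[(0,0)]⟩⟩,⟨true,0,⟨0,[(22,0)]⟩,⟨0,
  [(6,0),(9,0)]⟩⟩,⟨false,0,⟨1,[(1,0),(0,0),(8,0),(19,0)]⟩,⟨1,[(5,1),(3,1),(3,0),(0,1),(1,1),(13,1),
  (2,0)]⟩⟩,⟨false,0,⟨0,[]⟩,⟨0,[]⟩⟩,⟨false,0,⟨0,[]⟩,⟨0,[]⟩⟩,[.o ⟨false,0,⟨3,[(1,2),(0,1),(17,0),(7,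
  1),(2,1)]⟩,⟨0,[(30,0),(2,0)]⟩⟩,.o ⟨false,0,⟨0,[(1,0),(0,0)]⟩,⟨3,[(12,0),(0,0),(16,3),(2,1)]⟩⟩,.a
  ⟨true,0,⟨0,[(0,0)]⟩,⟨0,[(6,0)]⟩⟩ ⟨true,0,⟨0,[]⟩,⟨0,[(35,0)]⟩⟩ ⟨false,0,⟨1,[(1,0),(0,1),(17,0)]⟩,
  ⟨0,[(0,0),(29,0),(2,0)]⟩⟩,.o ⟨false,0,⟨0,[(17,0)]⟩,⟨1,[(6,1),(18,0),(6,0)]⟩⟩]⟩) (.Q [0,0,0,0,0,1,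
  0,0,0,-1,0,1] (.p true [0,0,0,1] [1] (⟨0,[(15,0)]⟩,⟨0,[(14,0)]⟩) .k 1 (⟨0,[]⟩,⟨0,[]⟩) .k .k) (.R
  ⟨0,false,false,true,[1,0,0,-1],[1,0,-1],[0,1,0,0,0,0,0,0,-1],(⟨0,[(15,0)]⟩,⟨0,[(16,0)]⟩),(⟨0,[(24,
  0)]⟩,⟨0,[(25,0)]⟩),⟨0,[(0,0)]⟩,.k,.k,(.x (-1) ⟨3,[(13,0),(0,0),(11,1),(0,3)]⟩ ⟨0,[(28,0)]⟩),.k,.k,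
  .k,⟨false,0,⟨0,[(4,0),(18,0)]⟩,⟨1,[(1,1),(12,0),(5,1),(13,0)]⟩⟩,⟨true,0,⟨1,[(2,0),(12,1),(6,0)]⟩,
  ⟨0,[(1,0),(14,0)]⟩⟩,⟨true,0,⟨0,[(36,0)]⟩,⟨0,[]⟩⟩,⟨false,1,⟨1,[(6,1),(7,0),(0,1),(4,1),(5,0)]⟩,⟨0,
  [(1,0),(8,0),(12,0)]⟩⟩,⟨false,0,⟨0,[]⟩,⟨0,[]⟩⟩,⟨false,0,⟨0,[]⟩,⟨0,[]⟩⟩,[.o ⟨false,0,⟨0,[(17,0)]⟩,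
  ⟨7,[(12,3),(0,0),(0,0),(11,1),(7,3)]⟩⟩,.o ⟨false,1,⟨1,[(20,1),(5,0),(7,0)]⟩,⟨0,[(1,0),(21,0)]⟩⟩,
  .o ⟨false,1,⟨1,[(16,1),(9,0),(6,0)]⟩,⟨1,[(2,0),(12,1),(5,0)]⟩⟩,.a ⟨true,0,⟨0,[(16,0)]⟩,⟨0,[(15,
  0)]⟩⟩ ⟨false,0,⟨0,[(4,0)]⟩,⟨1,[(14,0),(6,0),(0,0),(11,0)]⟩⟩ ⟨true,0,⟨0,[(15,0),(1,0)]⟩,⟨0,[(1,0),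
  (14,0),(6,0)]⟩⟩]⟩) (.R ⟨1,false,false,true,[1,0,0,-1],[0,1],[0,1,0,-1,0,0,0,0,-1],(⟨0,[(15,0)]⟩,
  ⟨0,[(16,0)]⟩),(⟨0,[(28,0)]⟩,⟨0,[(27,0)]⟩),⟨0,[(0,0)]⟩,.k,.k,(.x (-1) ⟨3,[(13,0),(0,0),(11,1),(0,
  3)]⟩ ⟨0,[(28,0)]⟩),(.x (-1) ⟨3,[(13,0),(0,0),(11,1),(0,3)]⟩ ⟨0,[(28,0)]⟩),(.r 0 ⟨0,[(2,0),(0,1),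
  (6,0),(4,0),(1,0),(5,0)]⟩ ⟨1,[(6,1),(7,0),(6,0),(0,0),(8,3),(2,0)]⟩),.k,⟨false,0,⟨0,[(2,0),(0,1),
  (6,0),(4,0),(1,0),(5,0)]⟩,⟨1,[(6,1),(7,0),(16,3),(2,0)]⟩⟩,⟨true,0,⟨0,[(15,0)]⟩,⟨1,[(2,0),(13,1),
  (4,0)]⟩⟩,⟨false,0,⟨0,[(32,0)]⟩,⟨0,[(31,0),(2,0)]⟩⟩,⟨false,1,⟨1,[(14,0),(0,1),(5,0),(0,0),(8,1),(2,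
  0)]⟩,⟨0,[(2,0),(0,0),(6,0)]⟩⟩,⟨true,0,⟨0,[(36,0)]⟩,⟨0,[]⟩⟩,⟨false,1,⟨1,[(6,1),(7,0),(0,1),(15,3),
  (2,0)]⟩,⟨0,[(2,0),(0,0),(6,0),(21,0)]⟩⟩,[.o ⟨false,0,⟨0,[(31,0)]⟩,⟨1,[(26,0),(5,1),(1,0)]⟩⟩,.o
  ⟨false,1,⟨3,[(13,0),(0,0),(16,3),(2,1)]⟩,⟨0,[(2,0),(0,0)]⟩⟩,.o ⟨false,1,⟨1,[(16,1),(9,0),(6,0)]⟩,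
  ⟨1,[(2,0),(12,1),(5,0)]⟩⟩,.a ⟨true,0,⟨0,[(16,0)]⟩,⟨0,[(15,0)]⟩⟩ ⟨false,0,⟨0,[(4,0),(27,0)]⟩,⟨1,
  [(6,1),(7,0),(16,1),(2,0)]⟩⟩ ⟨true,0,⟨0,[(15,0),(15,0)]⟩,⟨0,[(2,0),(0,0),(12,0)]⟩⟩]⟩)))) (.Q [0,0,
  -1,0,0,0,0,0,0,1] (.pp false [-1,1]) (.R ⟨2,false,false,false,[0,1],[1,0,-1],[0,0,1],(⟨0,[]⟩,⟨0,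
  []⟩),(⟨0,[(22,0)]⟩,⟨0,[(23,0)]⟩),⟨0,[]⟩,.k,.k,.k,.k,.k,.k,⟨false,0,⟨0,[(21,0)]⟩,⟨1,[(5,1),(9,1),
  (15,0),(0,0)]⟩⟩,⟨true,0,⟨0,[(16,0)]⟩,⟨0,[(5,0)]⟩⟩,⟨true,0,⟨0,[(30,0)]⟩,⟨0,[(29,0)]⟩⟩,⟨false,1,⟨0,
  [(15,0),(14,0),(1,0)]⟩,⟨0,[(0,0),(0,0),(1,0)]⟩⟩,⟨false,1,⟨3,[(11,0),(0,0),(19,1)]⟩,⟨0,[]⟩⟩,⟨false,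
  1,⟨0,[(15,0),(16,0)]⟩,⟨3,[(0,0),(4,0),(4,1),(9,0)]⟩⟩,[.e ⟨true,0,⟨1,[(19,0),(0,0)]⟩,⟨0,[]⟩⟩ ⟨true,
  0,⟨0,[(4,0),(10,0)]⟩,⟨3,[(0,0),(4,0),(4,1),(9,0)]⟩⟩,.o ⟨false,1,⟨0,[(15,0),(16,0)]⟩,⟨0,[(17,0)]⟩⟩,
  .a ⟨true,0,⟨0,[(0,0)]⟩,⟨1,[(19,0),(0,0)]⟩⟩ ⟨false,0,⟨0,[(4,0)]⟩,⟨3,[(11,0),(0,0),(18,1)]⟩⟩ ⟨true,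
  0,⟨0,[(4,0),(10,0)]⟩,⟨1,[(0,0),(9,0),(16,0)]⟩⟩,.e ⟨false,1,⟨3,[(11,0),(0,0),(19,1)]⟩,⟨0,[]⟩⟩
  ⟨false,1,⟨0,[(15,0),(16,0)]⟩,⟨3,[(0,0),(4,0),(4,1),(9,0)]⟩⟩]⟩) (.Q [0,0,0,1,0,0,0,0,0,1] (.pp
  false [-1,1]) (.I [0,0,-2,-2,1,0,0,-1] (.K ⟨2,[-1,1,1],0,0,(⟨0,[(8,0)]⟩,⟨0,[(24,0),(2,0)]⟩),.k,.k,
  (.r 0 ⟨3,[(1,2),(1,4),(8,1),(8,1),(0,0)]⟩ ⟨0,[(0,0)]⟩),.k,.k,[⟨0,[(1,0)]⟩,⟨0,[(17,0),(14,0)]⟩,⟨0,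
  [(2,0),(19,0)]⟩,⟨0,[(7,0)]⟩]⟩) (.Q [0,0,0,-1,0,0,1,1,0,0,-1] (.p false [0,0,1] [] (⟨0,[(25,0)]⟩,
  ⟨0,[(24,0)]⟩) .k 0 (⟨0,[]⟩,⟨0,[]⟩) .k .k) (.R ⟨0,false,false,false,[1,0,-1],[1,-1],[1,1],(⟨0,[(25,
  0)]⟩,⟨0,[(26,0)]⟩),(⟨0,[(28,0)]⟩,⟨0,[(29,0)]⟩),⟨0,[(9,0)]⟩,.k,.k,.k,.k,.k,.k,⟨false,0,⟨0,[(32,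
  0)]⟩,⟨1,[(33,1),(0,0),(0,0)]⟩⟩,⟨true,0,⟨0,[(22,0)]⟩,⟨1,[(1,0),(9,1),(3,0),(0,1),(1,1),(5,0),(8,
  1)]⟩⟩,⟨false,0,⟨0,[(24,0)]⟩,⟨0,[(8,0),(9,0),(16,0)]⟩⟩,⟨true,0,⟨0,[(0,0)]⟩,⟨0,[(2,0),(15,0)]⟩⟩,
  ⟨false,0,⟨0,[]⟩,⟨0,[]⟩⟩,⟨false,0,⟨0,[]⟩,⟨0,[]⟩⟩,[.a ⟨true,0,⟨0,[(33,0)]⟩,⟨0,[(2,0)]⟩⟩ ⟨true,0,⟨0,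
  [(37,0)]⟩,⟨0,[(7,0)]⟩⟩ ⟨false,1,⟨1,[(8,1),(18,0),(5,1),(0,0)]⟩,⟨1,[(1,0),(9,1),(3,0),(0,1),(1,1),
  (5,0)]⟩⟩,.o ⟨false,1,⟨1,[(27,0),(5,1),(1,0)]⟩,⟨0,[(32,0)]⟩⟩,.e ⟨false,0,⟨0,[]⟩,⟨3,[(14,0),(0,0),
  (19,1)]⟩⟩ ⟨false,1,⟨1,[(8,1),(18,0),(5,1),(1,0)]⟩,⟨1,[(1,0),(9,1),(3,0),(0,1),(1,1),(5,0)]⟩⟩,.o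
  ⟨false,0,⟨0,[(19,0)]⟩,⟨1,[(8,1),(18,0),(6,0)]⟩⟩]⟩) (.R ⟨0,false,false,true,[1,0,-1],[0,1],[],(⟨0,
  [(25,0)]⟩,⟨0,[(26,0)]⟩),(⟨0,[(29,0)]⟩,⟨0,[(28,0)]⟩),⟨0,[(9,0)]⟩,.k,.k,.k,.k,.k,.k,⟨true,1,⟨1,[(33,
  1),(0,0),(0,0)]⟩,⟨0,[(1,0),(6,0),(9,0),(14,0)]⟩⟩,⟨false,1,⟨0,[(8,0),(25,0)]⟩,⟨0,[(19,0)]⟩⟩,⟨true,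
  0,⟨0,[(24,0)]⟩,⟨0,[(8,0),(9,0)]⟩⟩,⟨false,0,⟨3,[(1,0),(0,1),(3,0),(6,0),(20,0)]⟩,⟨0,[(18,0),(14,0),
  (1,0)]⟩⟩,⟨false,0,⟨0,[]⟩,⟨0,[]⟩⟩,⟨false,0,⟨0,[]⟩,⟨0,[]⟩⟩,[.o ⟨false,0,⟨0,[(32,0)]⟩,⟨1,[(27,0),(5,
  1),(1,0)]⟩⟩,.a ⟨true,0,⟨0,[(2,0)]⟩,⟨0,[(33,0)]⟩⟩ ⟨false,1,⟨1,[(34,0),(0,0)]⟩,⟨0,[(37,0)]⟩⟩ ⟨true,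
  0,⟨0,[(0,0),(5,0)]⟩,⟨0,[(19,0),(13,0)]⟩⟩,.e ⟨false,1,⟨3,[(14,0),(0,0),(19,1)]⟩,⟨0,[]⟩⟩ ⟨false,0,
  ⟨0,[(0,0),(5,0)]⟩,⟨1,[(19,1),(13,1),(0,0),(0,0)]⟩⟩,.o ⟨false,0,⟨0,[(19,0)]⟩,⟨1,[(8,1),(18,0),(6,
  0)]⟩⟩]⟩))) (.Q [0,0,0,0,0,0,-1,0,0,-1,1,1] (.p true [0,0,1] [1,0,0,-1] (⟨0,[(24,0)]⟩,⟨0,[(23,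
  0)]⟩) .k 2 (⟨0,[(14,0)]⟩,⟨0,[(15,0)]⟩) .k (.r (-1) ⟨3,[(12,0),(0,2),(8,3)]⟩ ⟨0,[(6,0),(1,0),(7,
  0)]⟩)) (.R ⟨0,false,false,false,[1,0,-1],[0,0,0,1],[1],(⟨0,[(24,0)]⟩,⟨0,[(25,0)]⟩),(⟨0,[(16,0)]⟩,
  ⟨0,[(15,0)]⟩),⟨0,[(8,0)]⟩,.k,.k,.k,.k,.k,.k,⟨false,0,⟨0,[(4,0)]⟩,⟨3,[(13,0),(0,2)]⟩⟩,⟨true,0,⟨0,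
  [(15,0),(5,0)]⟩,⟨0,[(0,0)]⟩⟩,⟨true,0,⟨0,[(23,0)]⟩,⟨0,[(7,0),(9,0)]⟩⟩,⟨false,1,⟨3,[(6,1),(5,1),(1,
  1),(0,3),(5,0),(0,0),(3,0),(7,0)]⟩,⟨0,[(10,0),(6,0)]⟩⟩,⟨false,0,⟨0,[]⟩,⟨0,[]⟩⟩,⟨false,0,⟨0,[]⟩,⟨0,
  []⟩⟩,[.o ⟨false,1,⟨1,[(14,0),(0,1),(5,0),(0,0),(3,0)]⟩,⟨0,[(1,0),(8,0),(20,0)]⟩⟩,.o ⟨false,1,⟨1,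
  [(6,1),(7,0),(0,1),(10,0)]⟩,⟨1,[(1,1),(8,0),(0,0),(19,1)]⟩⟩,.a ⟨true,0,⟨0,[(0,0),(14,0)]⟩,⟨0,[(7,
  0)]⟩⟩ ⟨true,0,⟨0,[]⟩,⟨0,[(36,0)]⟩⟩ ⟨false,1,⟨1,[(14,0),(0,1),(5,1),(12,0)]⟩,⟨0,[(0,0),(3,0)]⟩⟩,.o
  ⟨false,0,⟨0,[(18,0)]⟩,⟨1,[(7,1),(18,0),(6,0)]⟩⟩]⟩) (.Q [0,0,0,0,0,1,0,0,0,-1,0,1] (.p true [0,0,0,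
  1] [1] (⟨0,[(16,0)]⟩,⟨0,[(15,0)]⟩) .k 1 (⟨0,[]⟩,⟨0,[]⟩) .k .k) (.I [0,0,-2,-1,0,0,0,0,-1] (.R ⟨0,
  false,false,true,[1,0,0,-1],[0,1],[0,1,0,0,0,0,0,0,-1],(⟨0,[(17,0)]⟩,⟨0,[(18,0)]⟩),(⟨0,[(30,0)]⟩,
  ⟨0,[(29,0)]⟩),⟨0,[(1,0)]⟩,.k,.k,(.x (-1) ⟨3,[(15,0),(0,0),(11,1),(0,3)]⟩ ⟨0,[(30,0)]⟩),(.x (-1)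
  ⟨3,[(15,0),(0,0),(11,1),(0,3)]⟩ ⟨0,[(30,0)]⟩),.k,.k,⟨false,0,⟨0,[(0,0)]⟩,⟨1,[(16,0),(6,0),(0,0),
  (8,1),(2,0)]⟩⟩,⟨true,0,⟨0,[(17,0)]⟩,⟨0,[(4,0),(13,0)]⟩⟩,⟨true,0,⟨0,[(38,0)]⟩,⟨0,[]⟩⟩,⟨false,1,⟨1,
  [(16,0),(0,1),(5,0),(0,0),(8,1),(2,0)]⟩,⟨0,[(3,0),(8,0)]⟩⟩,⟨false,0,⟨0,[]⟩,⟨0,[]⟩⟩,⟨false,0,⟨0,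
  []⟩,⟨0,[]⟩⟩,[.o ⟨false,0,⟨0,[(33,0)]⟩,⟨3,[(3,3),(11,0),(0,0),(19,1)]⟩⟩,.o ⟨false,1,⟨3,[(15,0),(0,
  0),(16,3),(2,1)]⟩,⟨0,[(3,0)]⟩⟩,.o ⟨false,1,⟨1,[(18,1),(9,0),(6,0)]⟩,⟨0,[(4,0),(12,0)]⟩⟩,.a ⟨true,
  0,⟨0,[(18,0)]⟩,⟨0,[(17,0)]⟩⟩ ⟨false,0,⟨0,[(6,0)]⟩,⟨1,[(16,0),(6,0),(0,0),(11,0)]⟩⟩ ⟨true,0,⟨0,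
  [(17,0),(15,0)]⟩,⟨0,[(3,0),(14,0)]⟩⟩]⟩) (.I [1,1,1,0,0,0,0,0,1] (.R ⟨2,false,false,true,[0,1],[0,
  0,0,1],[],(⟨0,[]⟩,⟨0,[]⟩),(⟨0,[(19,0)]⟩,⟨0,[(18,0)]⟩),⟨0,[]⟩,.k,.k,.k,(.r 0 ⟨1,[(12,1),(11,0),(0,
  0),(8,1)]⟩ ⟨1,[(17,0),(17,1),(0,0)]⟩),.k,.k,⟨true,0,⟨0,[(12,0)]⟩,⟨0,[(0,0)]⟩⟩,⟨false,0,⟨0,[(5,0),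
  (12,0)]⟩,⟨0,[(19,0),(16,0)]⟩⟩,⟨false,1,⟨1,[(35,1),(0,0),(0,0)]⟩,⟨1,[(1,0),(10,0),(21,0)]⟩⟩,⟨true,
  0,⟨0,[(0,0),(3,0),(13,0)]⟩,⟨0,[(13,0),(20,0)]⟩⟩,⟨false,1,⟨1,[(36,0),(0,0)]⟩,⟨1,[(24,0),(0,0)]⟩⟩,
  ⟨false,1,⟨1,[(17,0),(0,1),(5,0),(0,0),(3,0)]⟩,⟨0,[(13,0)]⟩⟩,[.a ⟨true,0,⟨0,[(0,0),(17,0)]⟩,⟨0,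
  [(13,0)]⟩⟩ ⟨false,1,⟨3,[(16,0),(0,0),(18,1)]⟩,⟨0,[]⟩⟩ ⟨true,0,⟨0,[(0,0),(4,0),(12,0)]⟩,⟨0,[(13,
  0)]⟩⟩,.o ⟨false,1,⟨1,[(17,0),(0,1),(5,0),(0,0),(3,0)]⟩,⟨0,[(4,0),(8,0),(20,0)]⟩⟩,.o ⟨false,1,⟨3,
  [(16,0),(0,0),(18,1)]⟩,⟨0,[(5,0)]⟩⟩,.e ⟨false,1,⟨1,[(36,0),(0,0)]⟩,⟨1,[(24,0),(0,0)]⟩⟩ ⟨false,1,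
  ⟨1,[(17,0),(0,1),(5,0),(0,0),(3,0)]⟩,⟨0,[(13,0)]⟩⟩]⟩) (.Q [0,0,0,0,0,0,1,0,0,0,-1,1] (.p false [0,
  0,1] [0,0,0,1] (⟨0,[(28,0)]⟩,⟨0,[(27,0)]⟩) .k 2 (⟨0,[(19,0)]⟩,⟨0,[(18,0)]⟩) .k (.r 0 ⟨1,[(7,0),(4,
  0),(9,0),(2,0),(0,0)]⟩ ⟨1,[(10,1),(6,0),(2,1),(16,0)]⟩)) (.Q [0,0,0,0,0,0,1,1,0,0,-1] (.p false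
  [0,0,1] [] (⟨0,[(29,0)]⟩,⟨0,[(28,0)]⟩) .k 0 (⟨0,[]⟩,⟨0,[]⟩) .k .k) (.R ⟨0,false,false,true,[1,0,0,
  -1],[1,0,-1],[0,1,0,0,0,0,0,0,-1],(⟨0,[(20,0)]⟩,⟨0,[(21,0)]⟩),(⟨0,[(29,0)]⟩,⟨0,[(30,0)]⟩),⟨0,[(4,
  0)]⟩,.k,.k,(.x (-1) ⟨3,[(18,0),(0,0),(11,1),(0,3)]⟩ ⟨0,[(33,0)]⟩),.k,.k,.k,⟨false,0,⟨0,[(9,0),(18,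
  0)]⟩,⟨1,[(1,0),(3,0),(13,0),(2,0),(2,0),(13,0)]⟩⟩,⟨true,0,⟨0,[(20,0),(2,0)]⟩,⟨0,[(1,0)]⟩⟩,⟨true,0,
  ⟨0,[(41,0)]⟩,⟨0,[]⟩⟩,⟨false,1,⟨1,[(11,1),(7,0),(0,1),(4,1),(5,0)]⟩,⟨0,[(0,0),(14,0)]⟩⟩,⟨false,0,
  ⟨0,[]⟩,⟨0,[]⟩⟩,⟨false,0,⟨0,[]⟩,⟨0,[]⟩⟩,[.o ⟨false,0,⟨0,[(22,0)]⟩,⟨7,[(17,3),(0,0),(0,0),(11,1),(7,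
  3)]⟩⟩,.o ⟨false,1,⟨1,[(25,1),(5,0),(7,0)]⟩,⟨0,[(0,0)]⟩⟩,.o ⟨false,1,⟨1,[(21,1),(9,0),(6,0)]⟩,⟨0,
  [(7,0),(12,0)]⟩⟩,.a ⟨true,0,⟨0,[(21,0)]⟩,⟨0,[(20,0)]⟩⟩ ⟨false,0,⟨0,[(9,0)]⟩,⟨1,[(19,0),(6,0),(0,
  0),(11,0)]⟩⟩ ⟨true,0,⟨0,[(20,0),(1,0)]⟩,⟨0,[(0,0),(20,0)]⟩⟩]⟩) (.R ⟨2,true,false,false,[0,1],[0,0,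
  1],[0,1,1],(⟨0,[]⟩,⟨0,[]⟩),(⟨0,[(30,0)]⟩,⟨0,[(29,0)]⟩),⟨0,[]⟩,.k,.k,.k,.k,.k,.k,⟨false,0,⟨1,[(1,
  0),(3,0),(16,0),(2,0)]⟩,⟨1,[(28,1),(9,0),(0,0)]⟩⟩,⟨true,0,⟨0,[(26,0)]⟩,⟨0,[(0,0),(27,0)]⟩⟩,⟨false,
  0,⟨0,[(37,0)]⟩,⟨0,[(36,0),(2,0)]⟩⟩,⟨true,0,⟨1,[(6,0),(10,0),(19,0)]⟩,⟨0,[(0,0),(35,0)]⟩⟩,⟨true,0,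
  ⟨0,[(41,0)]⟩,⟨0,[]⟩⟩,⟨false,1,⟨7,[(17,3),(0,0),(0,0),(11,1),(7,3)]⟩,⟨0,[(0,0)]⟩⟩,[]⟩)) (.Q [0,1,0,
  1,0,0,-1,-1,0,0,1] (.p true [0,0,1] [] (⟨0,[(29,0)]⟩,⟨0,[(28,0)]⟩) .k 0 (⟨0,[]⟩,⟨0,[]⟩) .k .k)
  (.R ⟨0,false,false,false,[1,0,-1],[1,-1],[1,1],(⟨0,[(29,0)]⟩,⟨0,[(30,0)]⟩),(⟨0,[(32,0)]⟩,⟨0,[(33,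
  0)]⟩),⟨0,[(13,0)]⟩,.k,.k,.k,.k,.k,.k,⟨false,0,⟨0,[(36,0)]⟩,⟨1,[(37,1),(0,0),(0,0)]⟩⟩,⟨true,0,⟨0,
  [(26,0)]⟩,⟨0,[(1,0),(19,0)]⟩⟩,⟨false,0,⟨0,[(28,0)]⟩,⟨0,[(12,0),(9,0),(16,0)]⟩⟩,⟨true,0,⟨1,[(6,0),
  (10,0),(19,0)]⟩,⟨0,[(0,0)]⟩⟩,⟨false,0,⟨0,[]⟩,⟨0,[]⟩⟩,⟨false,0,⟨0,[]⟩,⟨0,[]⟩⟩,[.o ⟨false,0,⟨0,[(6,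
  0)]⟩,⟨3,[(18,0),(0,0),(16,3),(2,1)]⟩⟩,.o ⟨false,1,⟨3,[(6,3),(11,0),(0,0),(19,1)]⟩,⟨0,[(36,0)]⟩⟩,
  .a ⟨true,0,⟨0,[(1,0),(19,0)]⟩,⟨0,[(12,0)]⟩⟩ ⟨false,0,⟨0,[]⟩,⟨3,[(18,0),(0,0),(19,1)]⟩⟩ ⟨true,0,⟨0,
  [(6,0),(5,0)]⟩,⟨0,[(0,0),(27,0)]⟩⟩,.o ⟨false,0,⟨0,[(23,0)]⟩,⟨1,[(12,1),(18,0),(6,0)]⟩⟩]⟩) (.R ⟨0,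
  false,false,true,[1,0,0,-1],[0,0,1],[0,1,1],(⟨0,[(20,0)]⟩,⟨0,[(21,0)]⟩),(⟨0,[(30,0)]⟩,⟨0,[(29,
  0)]⟩),⟨0,[(4,0)]⟩,.k,.k,(.x (-1) ⟨3,[(18,0),(0,0),(11,1),(0,3)]⟩ ⟨0,[(33,0)]⟩),.k,.k,.k,⟨true,0,
  ⟨0,[(11,0),(0,0),(9,0)]⟩,⟨0,[(28,0)]⟩⟩,⟨false,0,⟨0,[(5,0)]⟩,⟨0,[(21,0),(1,0),(14,0)]⟩⟩,⟨false,1,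
  ⟨3,[(18,0),(0,2),(6,1),(0,1)]⟩,⟨0,[(2,0)]⟩⟩,⟨true,0,⟨0,[(0,0),(2,0),(16,0),(13,0)]⟩,⟨0,[(15,0),(6,
  0)]⟩⟩,⟨false,0,⟨0,[]⟩,⟨0,[]⟩⟩,⟨false,0,⟨0,[]⟩,⟨0,[]⟩⟩,[.o ⟨false,0,⟨0,[(24,0)]⟩,⟨0,[(22,0),(16,
  0)]⟩⟩,.o ⟨false,0,⟨0,[(0,0),(35,0)]⟩,⟨1,[(25,1),(5,0),(7,0)]⟩⟩,.o ⟨false,1,⟨1,[(21,1),(9,0),(6,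
  0)]⟩,⟨0,[(1,0),(24,0)]⟩⟩,.a ⟨true,0,⟨0,[(21,0)]⟩,⟨0,[(20,0)]⟩⟩ ⟨true,0,⟨0,[(41,0)]⟩,⟨0,[]⟩⟩
  ⟨false,0,⟨1,[(1,0),(3,0),(11,0)]⟩,⟨0,[(21,0),(0,0),(16,0)]⟩⟩]⟩))))) (.Q [0,1,1,0,0,0,0,0,1,1,0,
  -2] (.p false [0,0,0,1] [1,0,0,-1] (⟨0,[(17,0)]⟩,⟨0,[(16,0)]⟩) .k 2 (⟨0,[(16,0)]⟩,⟨0,[(17,0)]⟩)
  .k (.r (-1) ⟨0,[(15,0)]⟩ ⟨0,[(10,1),(26,1)]⟩)) (.R ⟨2,false,false,true,[0,1],[0,0,0,1],[1,1,0,0,0,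
  0,0,0,1],(⟨0,[]⟩,⟨0,[]⟩),(⟨0,[(18,0)]⟩,⟨0,[(17,0)]⟩),⟨0,[]⟩,.k,.k,.k,(.r 0 ⟨1,[(11,1),(11,0),(0,
  0),(8,1)]⟩ ⟨1,[(16,0),(17,1),(0,0)]⟩),.k,.k,⟨true,0,⟨0,[]⟩,⟨1,[(23,0),(0,0)]⟩⟩,⟨false,0,⟨1,[(0,0),
  (3,0),(6,0)]⟩,⟨0,[(18,0),(16,0)]⟩⟩,⟨false,1,⟨1,[(16,0),(17,1),(0,0)]⟩,⟨0,[(8,0),(2,0),(21,0)]⟩⟩,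
  ⟨true,0,⟨0,[(0,0),(2,0),(14,0)]⟩,⟨0,[(12,0),(20,0)]⟩⟩,⟨false,1,⟨1,[(16,0),(18,0)]⟩,⟨1,[(11,1),(11,
  0),(0,0)]⟩⟩,⟨false,1,⟨7,[(0,3),(14,0),(0,2),(6,1),(0,1),(3,1),(7,1)]⟩,⟨0,[(12,0)]⟩⟩,[.a ⟨true,0,
  ⟨0,[(0,0),(17,0)]⟩,⟨0,[(12,0)]⟩⟩ ⟨false,1,⟨7,[(15,0),(0,4),(14,3),(3,1)]⟩,⟨0,[(11,0)]⟩⟩ ⟨true,0,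
  ⟨0,[(0,0),(3,0),(13,0)]⟩,⟨0,[(12,0)]⟩⟩,.o ⟨false,1,⟨7,[(0,3),(14,0),(0,2),(6,1),(0,1),(3,1),(7,
  1)]⟩,⟨0,[(3,0),(8,0),(20,0)]⟩⟩,.o ⟨false,1,⟨3,[(15,0),(0,0),(18,1)]⟩,⟨0,[(4,0)]⟩⟩,.e ⟨false,1,⟨1,
  [(16,0),(18,0)]⟩,⟨1,[(11,1),(11,0),(0,0)]⟩⟩ ⟨false,1,⟨7,[(0,3),(14,0),(0,2),(6,1),(0,1),(3,1),(7,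
  1)]⟩,⟨0,[(12,0)]⟩⟩]⟩) (.I [0,1,-1,-1,0,0,0,1] (.I [0,0,-2,-2,0,0,0,0,-1] (.R ⟨1,false,false,true,
  [1,0,0,-1],[0,1],[0,1,0,-1,0,0,0,0,-1],(⟨0,[(19,0)]⟩,⟨0,[(20,0)]⟩),(⟨0,[(32,0)]⟩,⟨0,[(31,0)]⟩),⟨0,
  [(3,0)]⟩,.k,.k,(.x (-1) ⟨3,[(17,0),(0,0),(11,1),(0,3)]⟩ ⟨0,[(32,0)]⟩),(.x (-1) ⟨3,[(17,0),(0,0),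
  (11,1),(0,3)]⟩ ⟨0,[(32,0)]⟩),(.r 0 ⟨0,[(0,0)]⟩ ⟨1,[(10,1),(7,0),(6,0),(0,0),(8,3),(2,0)]⟩),.k,
  ⟨false,0,⟨0,[(0,0)]⟩,⟨1,[(10,1),(7,0),(16,3),(2,0)]⟩⟩,⟨true,0,⟨0,[(19,0)]⟩,⟨0,[(6,0),(13,0)]⟩⟩,
  ⟨false,0,⟨0,[(36,0)]⟩,⟨0,[(35,0),(2,0)]⟩⟩,⟨false,1,⟨1,[(18,0),(0,1),(5,0),(0,0),(8,1),(2,0)]⟩,⟨0,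
  [(5,0),(8,0)]⟩⟩,⟨true,0,⟨0,[(40,0)]⟩,⟨0,[]⟩⟩,⟨false,1,⟨1,[(10,1),(7,0),(0,1),(15,3),(2,0)]⟩,⟨1,
  [(0,0),(1,0),(2,0),(4,0),(25,0)]⟩⟩,[.o ⟨false,0,⟨0,[(35,0)]⟩,⟨3,[(5,3),(11,0),(0,0),(19,1)]⟩⟩,.o
  ⟨false,1,⟨3,[(17,0),(0,0),(16,3),(2,1)]⟩,⟨0,[(5,0)]⟩⟩,.o ⟨false,1,⟨11,[(2,3),(12,3),(1,0),(0,4),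
  (11,3),(6,1)]⟩,⟨0,[(6,0),(12,0)]⟩⟩,.a ⟨true,0,⟨0,[(20,0)]⟩,⟨0,[(19,0)]⟩⟩ ⟨false,0,⟨1,[(0,0),(12,
  0),(26,0)]⟩,⟨1,[(10,1),(7,0),(16,1),(2,0)]⟩⟩ ⟨true,0,⟨0,[(19,0),(15,0)]⟩,⟨0,[(5,0),(14,0)]⟩⟩]⟩)
  (.Q [0,0,0,-1,0,0,-1,0,0,-1,1] (.p true [0,0,1] [1] (⟨0,[(29,0)]⟩,⟨0,[(28,0)]⟩) .k 1 (⟨0,[]⟩,⟨0,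
  []⟩) .k .k) (.Q [0,0,0,0,0,0,2,0,0,1,-2] (.p false [0,0,1] [1,0,-1] (⟨0,[(30,0)]⟩,⟨0,[(29,0)]⟩)
  .k 2 (⟨0,[(29,0)]⟩,⟨0,[(30,0)]⟩) .k (.r 0 ⟨0,[(28,1)]⟩ ⟨0,[(12,1),(9,1),(16,0)]⟩)) (.I [0,0,1,1,0,
  0,0,-2] (.Q [0,0,0,0,0,0,1,0,0,0,-1,1] (.p false [0,0,1] [0,0,0,1] (⟨0,[(32,0)]⟩,⟨0,[(31,0)]⟩) .k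
  2 (⟨0,[(23,0)]⟩,⟨0,[(22,0)]⟩) .k (.r 0 ⟨3,[(4,0),(5,0),(0,1),(4,1),(2,0),(6,0),(2,1)]⟩ ⟨7,[(0,3),
  (19,0),(0,4),(17,3),(0,1)]⟩)) (.R ⟨1,false,false,true,[1,0,0,-1],[1,0,-1],[0,1,0,-1,0,0,0,0,-1],
  (⟨0,[(23,0)]⟩,⟨0,[(24,0)]⟩),(⟨0,[(32,0)]⟩,⟨0,[(33,0)]⟩),⟨0,[(7,0)]⟩,.k,.k,(.x (-1) ⟨3,[(21,0),(0,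
  0),(11,1),(0,3)]⟩ ⟨0,[(36,0)]⟩),.k,(.r 0 ⟨0,[(5,0),(11,0)]⟩ ⟨15,[(1,7),(2,3),(16,4),(0,10)]⟩),.k,
  ⟨false,0,⟨0,[(5,0),(11,0)]⟩,⟨15,[(1,7),(2,3),(16,0),(0,6),(18,7)]⟩⟩,⟨true,0,⟨0,[(23,0),(2,0)]⟩,⟨0,
  [(0,0)]⟩⟩,⟨false,0,⟨0,[(40,0)]⟩,⟨7,[(4,3),(7,1),(8,0),(19,2),(0,3)]⟩⟩,⟨false,1,⟨7,[(1,3),(1,3),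
  (17,0),(0,4),(0,7),(6,3),(3,1)]⟩,⟨0,[(6,0),(1,0),(22,0)]⟩⟩,⟨true,0,⟨0,[(44,0)]⟩,⟨0,[]⟩⟩,⟨false,1,
  ⟨9,[(1,1),(2,1),(6,3),(10,3),(0,9),(4,5),(5,2),(7,2)]⟩,⟨1,[(9,0),(8,1),(1,0),(19,0)]⟩⟩,[.o ⟨false,
  0,⟨0,[(25,0)]⟩,⟨7,[(20,3),(0,0),(0,0),(11,1),(7,3)]⟩⟩,.o ⟨false,1,⟨1,[(28,1),(5,0),(7,0)]⟩,⟨1,[(4,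
  0),(0,0),(0,0),(1,1),(0,0),(21,0)]⟩⟩,.o ⟨false,1,⟨11,[(6,3),(12,3),(1,0),(0,4),(11,3),(6,1)]⟩,⟨0,
  [(10,0),(12,0)]⟩⟩,.a ⟨true,0,⟨0,[(24,0)]⟩,⟨0,[(23,0)]⟩⟩ ⟨false,0,⟨0,[(12,0),(27,0)]⟩,⟨7,[(4,3),
  (16,0),(0,2),(19,3)]⟩⟩ ⟨true,0,⟨0,[(23,0),(1,0)]⟩,⟨4,[(0,0),(3,0),(0,0),(0,0),(2,0),(10,1),(3,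
  1)]⟩⟩]⟩) (.R ⟨0,false,false,true,[1,0,-1],[0,0,1],[1],(⟨0,[(32,0)]⟩,⟨0,[(33,0)]⟩),(⟨0,[(33,0)]⟩,
  ⟨0,[(32,0)]⟩),⟨0,[(16,0)]⟩,.k,.k,.k,.k,.k,.k,⟨false,1,⟨3,[(1,1),(7,1),(8,1),(3,0),(0,1),(17,1),(0,
  0)]⟩,⟨5,[(5,2),(5,0),(8,0),(6,0),(2,1),(8,1)]⟩⟩,⟨true,0,⟨0,[(2,0)]⟩,⟨1,[(0,0),(2,0),(7,0),(12,0),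
  (5,0)]⟩⟩,⟨true,0,⟨0,[(31,0)]⟩,⟨1,[(2,0),(22,0),(2,0)]⟩⟩,⟨false,0,⟨0,[(20,0)]⟩,⟨3,[(0,1),(0,1),(1,
  1),(14,1),(3,0),(2,1),(2,1),(13,2)]⟩⟩,⟨false,0,⟨0,[]⟩,⟨0,[]⟩⟩,⟨false,0,⟨0,[]⟩,⟨0,[]⟩⟩,[.o ⟨false,
  0,⟨0,[(27,0)]⟩,⟨0,[(25,0),(16,0)]⟩⟩,.o ⟨false,0,⟨3,[(0,0),(3,1),(0,1),(0,1),(1,2),(0,1),(10,0)]⟩,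
  ⟨1,[(28,1),(5,0),(7,0)]⟩⟩,.a ⟨true,0,⟨0,[(0,0),(23,0)]⟩,⟨0,[(15,0)]⟩⟩ ⟨true,0,⟨0,[]⟩,⟨0,[(44,
  0)]⟩⟩ ⟨false,0,⟨0,[(13,0)]⟩,⟨7,[(0,3),(2,1),(2,1),(4,1),(10,0),(2,1),(2,5),(13,6)]⟩⟩,.o ⟨false,0,
  ⟨0,[(26,0)]⟩,⟨7,[(2,3),(18,0),(0,0),(11,1),(6,3)]⟩⟩]⟩)) (.Q [0,0,0,0,0,0,1,0,0,0,-1,1] (.p false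
  [0,0,1] [0,0,0,1] (⟨0,[(32,0)]⟩,⟨0,[(31,0)]⟩) .k 2 (⟨0,[(23,0)]⟩,⟨0,[(22,0)]⟩) .k (.r 0 ⟨6,[(0,0),
  (9,0),(0,3),(4,2),(2,0),(6,2),(2,3)]⟩ ⟨1,[(1,0),(19,0),(2,0),(2,0),(13,0)]⟩)) (.R ⟨1,false,false,
  true,[1,0,0,-1],[1,0,-1],[0,1,0,-1,0,0,0,0,-1],(⟨0,[(23,0)]⟩,⟨0,[(24,0)]⟩),(⟨0,[(32,0)]⟩,⟨0,[(33,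
  0)]⟩),⟨0,[(7,0)]⟩,.k,.k,(.x (-1) ⟨3,[(21,0),(0,0),(11,1),(0,3)]⟩ ⟨0,[(36,0)]⟩),.k,(.r 0 ⟨0,[(5,0),
  (11,0)]⟩ ⟨3,[(2,1),(1,1),(17,0),(5,3),(5,0),(7,1)]⟩),.k,⟨false,0,⟨0,[(5,0),(11,0)]⟩,⟨3,[(2,0),(1,
  1),(3,1),(9,1),(3,1),(2,2),(2,0),(12,0),(0,0)]⟩⟩,⟨true,0,⟨0,[(23,0),(2,0)]⟩,⟨0,[(0,0)]⟩⟩,⟨false,0,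
  ⟨0,[(40,0)]⟩,⟨7,[(4,3),(7,1),(8,0),(19,2),(0,3)]⟩⟩,⟨false,1,⟨1,[(14,1),(7,0),(0,1),(4,1),(5,0)]⟩,
  ⟨5,[(1,1),(2,0),(1,4),(1,3),(3,0),(4,0),(2,0)]⟩⟩,⟨true,0,⟨0,[(44,0)]⟩,⟨0,[]⟩⟩,⟨false,1,⟨3,[(4,1),
  (17,0),(0,3),(1,1),(2,1),(5,0),(7,1)]⟩,⟨1,[(9,0),(8,1),(1,0),(19,0)]⟩⟩,[.o ⟨false,0,⟨0,[(25,0)]⟩,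
  ⟨7,[(20,3),(0,0),(0,0),(11,1),(7,3)]⟩⟩,.o ⟨false,1,⟨1,[(28,1),(5,0),(7,0)]⟩,⟨3,[(1,0),(2,0),(1,0),
  (1,1),(0,1),(10,0),(18,0)]⟩⟩,.o ⟨false,1,⟨11,[(6,3),(12,3),(1,0),(0,4),(11,3),(6,1)]⟩,⟨0,[(10,0),
  (12,0)]⟩⟩,.a ⟨true,0,⟨0,[(24,0)]⟩,⟨0,[(23,0)]⟩⟩ ⟨false,0,⟨0,[(12,0),(27,0)]⟩,⟨7,[(4,3),(16,0),(0,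
  2),(19,3)]⟩⟩ ⟨true,0,⟨0,[(23,0),(1,0)]⟩,⟨8,[(0,3),(0,1),(2,0),(1,0),(3,0),(9,1),(3,2),(2,0)]⟩⟩]⟩)
  (.R ⟨0,false,false,false,[1,0,-1],[0,0,1],[1,0,0,0,0,0,0,-1],(⟨0,[(32,0)]⟩,⟨0,[(33,0)]⟩),(⟨0,[(33,
  0)]⟩,⟨0,[(32,0)]⟩),⟨0,[(16,0)]⟩,.k,.k,.k,.k,.k,.k,⟨false,1,⟨1,[(2,0),(5,1),(9,1),(3,0),(2,2),(2,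
  0),(13,0)]⟩,⟨4,[(1,3),(2,0),(6,0),(5,0),(2,0),(9,0),(8,0)]⟩⟩,⟨true,0,⟨0,[(2,0)]⟩,⟨1,[(0,0),(2,0),
  (7,0),(12,0),(5,0)]⟩⟩,⟨true,0,⟨0,[]⟩,⟨0,[(44,0)]⟩⟩,⟨false,0,⟨1,[(1,1),(0,0),(1,0),(1,0),(1,1),(5,
  0)]⟩,⟨0,[(25,0),(2,0),(13,0)]⟩⟩,⟨false,0,⟨0,[]⟩,⟨0,[]⟩⟩,⟨false,0,⟨0,[]⟩,⟨0,[]⟩⟩,[.o ⟨false,0,⟨3,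
  [(1,0),(2,0),(1,0),(1,1),(0,1),(10,0),(18,0)]⟩,⟨1,[(28,1),(5,0),(7,0)]⟩⟩,.o ⟨false,1,⟨7,[(20,3),
  (0,0),(0,0),(11,1),(7,3)]⟩,⟨0,[(25,0)]⟩⟩,.a ⟨true,0,⟨0,[(0,0),(23,0)]⟩,⟨0,[(15,0)]⟩⟩ ⟨false,1,⟨1,
  [(2,0),(22,0),(2,0),(13,1)]⟩,⟨0,[(31,0)]⟩⟩ ⟨true,0,⟨0,[(13,0)]⟩,⟨0,[(0,0),(23,0),(0,0)]⟩⟩,.o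
  ⟨false,0,⟨0,[(26,0)]⟩,⟨7,[(2,3),(18,0),(0,0),(11,1),(6,3)]⟩⟩]⟩))) (.R ⟨0,false,false,false,[1,0,
  -1],[2,-1,-1],[0,1],(⟨0,[(30,0)]⟩,⟨0,[(31,0)]⟩),(⟨0,[(30,0),(2,0)]⟩,⟨0,[(14,0)]⟩),⟨0,[(14,0)]⟩,.k,
  .k,.k,.k,.k,.k,⟨false,0,⟨1,[(0,0),(17,0),(18,1)]⟩,⟨1,[(6,1),(0,1),(8,1),(3,0),(5,1),(13,0)]⟩⟩,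
  ⟨true,0,⟨0,[(8,0)]⟩,⟨0,[(21,0),(0,0)]⟩⟩,⟨false,0,⟨0,[(29,0)]⟩,⟨0,[(13,0),(9,0),(16,0)]⟩⟩,⟨true,0,
  ⟨0,[(7,0)]⟩,⟨0,[(21,0),(0,0),(14,0)]⟩⟩,⟨false,0,⟨0,[]⟩,⟨0,[]⟩⟩,⟨false,0,⟨0,[]⟩,⟨0,[]⟩⟩,[.o ⟨false,
  1,⟨1,[(7,1),(18,1),(5,0),(7,0)]⟩,⟨0,[(2,0),(0,0),(2,0),(9,0)]⟩⟩,.o ⟨false,1,⟨0,[(7,0),(15,0),(16,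
  0)]⟩,⟨1,[(18,0),(2,0),(0,0),(14,1)]⟩⟩,.a ⟨true,0,⟨1,[(0,0),(20,0),(0,0)]⟩,⟨0,[(13,0)]⟩⟩ ⟨true,0,
  ⟨0,[(42,0)]⟩,⟨0,[]⟩⟩ ⟨false,1,⟨0,[(7,0),(5,0),(9,0),(16,0)]⟩,⟨0,[(2,0),(0,0),(12,0),(4,0)]⟩⟩,.o
  ⟨false,0,⟨0,[(24,0)]⟩,⟨1,[(13,1),(18,0),(6,0)]⟩⟩]⟩)) (.R ⟨1,false,false,true,[1,0,0,-1],[1,0,-1],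
  [0,1,0,-1,0,0,0,0,-1],(⟨0,[(20,0)]⟩,⟨0,[(21,0)]⟩),(⟨0,[(29,0)]⟩,⟨0,[(30,0)]⟩),⟨0,[(4,0)]⟩,.k,.k,
  (.x (-1) ⟨3,[(18,0),(0,0),(11,1),(0,3)]⟩ ⟨0,[(33,0)]⟩),.k,(.r 0 ⟨0,[(2,0),(11,0)]⟩ ⟨7,[(0,3),(0,
  1),(17,2),(2,1),(2,5),(0,3),(4,0),(7,3)]⟩),.k,⟨false,0,⟨0,[(2,0),(11,0)]⟩,⟨1,[(0,1),(18,0),(2,1),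
  (16,0)]⟩⟩,⟨true,0,⟨0,[(20,0),(2,0)]⟩,⟨0,[(0,0),(5,0),(14,0)]⟩⟩,⟨false,0,⟨0,[(37,0)]⟩,⟨7,[(1,3),(7,
  1),(8,0),(19,2),(0,3)]⟩⟩,⟨false,1,⟨1,[(11,1),(7,0),(0,1),(4,1),(5,0)]⟩,⟨0,[(3,0),(1,0),(22,0)]⟩⟩,
  ⟨true,0,⟨0,[(41,0)]⟩,⟨0,[]⟩⟩,⟨false,1,⟨3,[(1,1),(17,0),(0,3),(1,1),(2,1),(5,0),(7,1)]⟩,⟨1,[(6,0),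
  (8,1),(1,0),(19,0)]⟩⟩,[.o ⟨false,0,⟨0,[(22,0)]⟩,⟨7,[(17,3),(0,0),(0,0),(11,1),(7,3)]⟩⟩,.o ⟨false,
  1,⟨1,[(25,1),(5,0),(7,0)]⟩,⟨0,[(0,0),(5,0),(21,0)]⟩⟩,.o ⟨false,1,⟨11,[(3,3),(12,3),(1,0),(0,4),
  (11,3),(6,1)]⟩,⟨0,[(7,0),(12,0)]⟩⟩,.a ⟨true,0,⟨0,[(21,0)]⟩,⟨0,[(20,0)]⟩⟩ ⟨false,0,⟨0,[(9,0),(27,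
  0)]⟩,⟨7,[(1,3),(16,0),(0,2),(19,3)]⟩⟩ ⟨true,0,⟨0,[(20,0),(1,0)]⟩,⟨3,[(1,0),(0,0),(0,0),(2,0),(3,
  0),(6,0),(3,1)]⟩⟩]⟩))) (.Q [0,0,0,0,0,0,-1,0,0,0,1] (.p true [0,0,1] [] (⟨0,[(28,0)]⟩,⟨0,[(27,
  0)]⟩) .k 0 (⟨0,[]⟩,⟨0,[]⟩) .k .k) (.R ⟨0,false,false,false,[1,0,-1],[1,-1],[1,1],(⟨0,[(28,0)]⟩,⟨0,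
  [(29,0)]⟩),(⟨0,[(31,0)]⟩,⟨0,[(32,0)]⟩),⟨0,[(12,0)]⟩,.k,.k,.k,.k,.k,.k,⟨false,0,⟨0,[(35,0)]⟩,⟨1,
  [(36,1),(0,0),(0,0)]⟩⟩,⟨true,0,⟨0,[(25,0)]⟩,⟨0,[(0,0)]⟩⟩,⟨false,0,⟨0,[(27,0)]⟩,⟨0,[(11,0),(9,0),
  (16,0)]⟩⟩,⟨true,0,⟨1,[(5,0),(10,0),(19,0)]⟩,⟨0,[(0,0),(0,0),(31,0)]⟩⟩,⟨false,0,⟨0,[]⟩,⟨0,[]⟩⟩,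
  ⟨false,0,⟨0,[]⟩,⟨0,[]⟩⟩,[.o ⟨false,0,⟨0,[(5,0)]⟩,⟨3,[(17,0),(0,0),(16,3),(2,1)]⟩⟩,.o ⟨false,1,⟨3,
  [(5,3),(11,0),(0,0),(19,1)]⟩,⟨0,[(35,0)]⟩⟩,.a ⟨true,0,⟨0,[(0,0)]⟩,⟨0,[(11,0)]⟩⟩ ⟨false,0,⟨0,[]⟩,
  ⟨3,[(17,0),(0,0),(19,1)]⟩⟩ ⟨true,0,⟨0,[(5,0),(5,0)]⟩,⟨0,[(0,0),(34,0)]⟩⟩,.o ⟨false,0,⟨0,[(22,0)]⟩,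
  ⟨1,[(11,1),(18,0),(6,0)]⟩⟩]⟩) (.R ⟨1,false,false,true,[1,0,0,-1],[1,0,-1],[0,1,0,-1,0,0,0,0,-1],
  (⟨0,[(19,0)]⟩,⟨0,[(20,0)]⟩),(⟨0,[(28,0)]⟩,⟨0,[(29,0)]⟩),⟨0,[(3,0)]⟩,.k,.k,(.x (-1) ⟨3,[(17,0),(0,
  0),(11,1),(0,3)]⟩ ⟨0,[(32,0)]⟩),.k,(.r 0 ⟨0,[(8,0),(18,0),(8,0)]⟩ ⟨11,[(1,7),(15,2),(0,8),(5,3),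
  (0,3),(9,3)]⟩),.k,⟨false,0,⟨0,[(8,0),(18,0),(8,0)]⟩,⟨7,[(1,7),(15,0),(0,4),(14,3),(3,1)]⟩⟩,⟨true,
  0,⟨0,[(19,0),(2,0)]⟩,⟨0,[(0,0),(19,0)]⟩⟩,⟨false,0,⟨0,[(36,0)]⟩,⟨0,[(35,0),(2,0)]⟩⟩,⟨false,1,⟨1,
  [(10,1),(7,0),(0,1),(4,1),(5,0)]⟩,⟨0,[(0,0),(13,0),(12,0)]⟩⟩,⟨true,0,⟨0,[(40,0)]⟩,⟨0,[]⟩⟩,⟨false,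
  1,⟨7,[(1,3),(5,3),(9,0),(0,4),(0,7),(4,3),(5,1)]⟩,⟨1,[(5,0),(8,1),(1,0),(19,0)]⟩⟩,[.o ⟨false,0,⟨0,
  [(21,0)]⟩,⟨7,[(16,3),(0,0),(0,0),(11,1),(7,3)]⟩⟩,.o ⟨false,1,⟨1,[(24,1),(5,0),(7,0)]⟩,⟨0,[(0,0),
  (26,0)]⟩⟩,.o ⟨false,1,⟨11,[(2,3),(12,3),(1,0),(0,4),(11,3),(6,1)]⟩,⟨0,[(6,0),(12,0)]⟩⟩,.a ⟨true,0,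
  ⟨0,[(20,0)]⟩,⟨0,[(19,0)]⟩⟩ ⟨false,0,⟨0,[(8,0),(27,0)]⟩,⟨15,[(1,7),(5,3),(8,3),(0,0),(0,8),(7,3),
  (8,3),(2,5)]⟩⟩ ⟨true,0,⟨0,[(19,0),(1,0)]⟩,⟨0,[(0,0),(19,0),(6,0)]⟩⟩]⟩))))))))))) (.Q [0,0,-1,-1,0,
  0,1,0,0,1,-1] (.p false [0,0,1] [1] (⟨0,[(19,0)]⟩,⟨0,[(18,0)]⟩) .k 1 (⟨0,[]⟩,⟨0,[]⟩) .k .k) (.Q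
  [0,0,0,0,0,1,0,0,0,0,-1] (.ed true [1,-1,1] .k) (.Q [0,0,-1,0,0,0,1,0,0,2,-1] (.p false [-1,1,1]
  [1] (⟨0,[(4,0)]⟩,⟨0,[(20,0),(2,0)]⟩) .k 1 (⟨0,[]⟩,⟨0,[]⟩) .k .k) (.R ⟨0,false,false,true,[-1,1,1],
  [0,1],[1,1,1],(⟨0,[(5,0)]⟩,⟨0,[(21,0),(2,0)]⟩),(⟨0,[(25,0)]⟩,⟨0,[(24,0)]⟩),⟨0,[(21,0)]⟩,.k,.k,.k,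
  .k,.k,.k,⟨true,0,⟨0,[(29,0)]⟩,⟨0,[(27,0),(0,0)]⟩⟩,⟨false,1,⟨0,[(15,0),(14,0)]⟩,⟨0,[(4,0)]⟩⟩,
  ⟨false,0,⟨0,[(2,0),(11,0),(12,0)]⟩,⟨0,[(20,0),(7,0),(2,0)]⟩⟩,⟨true,0,⟨0,[(14,0)]⟩,⟨3,[(0,0),(8,1),
  (9,0)]⟩⟩,⟨false,0,⟨0,[]⟩,⟨0,[]⟩⟩,⟨false,0,⟨0,[]⟩,⟨0,[]⟩⟩,[.o ⟨false,0,⟨0,[(28,0)]⟩,⟨1,[(23,0),(5,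
  1),(1,0)]⟩⟩,.e ⟨false,0,⟨0,[]⟩,⟨3,[(10,0),(0,0),(18,1)]⟩⟩ ⟨false,1,⟨1,[(15,1),(12,1),(1,0),(0,
  0)]⟩,⟨0,[(2,0)]⟩⟩,.a ⟨true,0,⟨0,[(0,0)]⟩,⟨0,[(15,0)]⟩⟩ ⟨false,0,⟨1,[(18,0),(0,0)]⟩,⟨1,[(30,0),(0,
  0)]⟩⟩ ⟨true,0,⟨0,[(15,0),(12,0)]⟩,⟨0,[(2,0)]⟩⟩,.o ⟨false,0,⟨0,[(4,0)]⟩,⟨1,[(15,1),(7,0),(6,
  0)]⟩⟩]⟩) (.Q [0,0,0,0,0,1,0,0,0,-1,0,1] (.p true [0,0,0,1] [1] (⟨0,[(13,0)]⟩,⟨0,[(12,0)]⟩) .k 1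
  (⟨0,[]⟩,⟨0,[]⟩) .k .k) (.R ⟨0,false,false,true,[1,0,0,-1],[0,1],[0,1,0,0,0,0,0,0,-1],(⟨0,[(13,
  0)]⟩,⟨0,[(14,0)]⟩),(⟨0,[(26,0)]⟩,⟨0,[(25,0)]⟩),⟨0,[(0,0)]⟩,.k,.k,(.x (-1) ⟨3,[(11,0),(0,0),(11,1),
  (0,3)]⟩ ⟨0,[(26,0)]⟩),(.x (-1) ⟨3,[(11,0),(0,0),(11,1),(0,3)]⟩ ⟨0,[(26,0)]⟩),.k,.k,⟨false,0,⟨0,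
  [(1,0),(1,0),(0,0),(3,0),(4,0)]⟩,⟨1,[(12,0),(6,0),(0,0),(8,1),(2,0)]⟩⟩,⟨true,0,⟨0,[(13,0)]⟩,⟨1,
  [(1,0),(12,1),(4,0)]⟩⟩,⟨true,0,⟨0,[(34,0)]⟩,⟨0,[]⟩⟩,⟨false,1,⟨1,[(12,0),(0,1),(5,0),(0,0),(8,1),
  (2,0)]⟩,⟨0,[(1,0),(1,0),(4,0)]⟩⟩,⟨false,0,⟨0,[]⟩,⟨0,[]⟩⟩,⟨false,0,⟨0,[]⟩,⟨0,[]⟩⟩,[.o ⟨false,0,⟨0,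
  [(29,0)]⟩,⟨1,[(24,0),(5,1),(1,0)]⟩⟩,.o ⟨false,1,⟨3,[(11,0),(0,0),(16,3),(2,1)]⟩,⟨0,[(1,0),(1,
  0)]⟩⟩,.o ⟨false,1,⟨1,[(14,1),(9,0),(6,0)]⟩,⟨1,[(1,0),(11,1),(5,0)]⟩⟩,.a ⟨true,0,⟨0,[(14,0)]⟩,⟨0,
  [(13,0)]⟩⟩ ⟨false,0,⟨0,[(4,0),(2,0)]⟩,⟨1,[(12,0),(6,0),(0,0),(11,0)]⟩⟩ ⟨true,0,⟨0,[(13,0),(15,
  0)]⟩,⟨0,[(1,0),(1,0),(10,0)]⟩⟩]⟩) (.R ⟨1,false,false,true,[1,0,0,-1],[0,1],[0,1,0,-1,0,0,0,0,-1],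
  (⟨0,[(13,0)]⟩,⟨0,[(14,0)]⟩),(⟨0,[(26,0)]⟩,⟨0,[(25,0)]⟩),⟨0,[(0,0)]⟩,.k,.k,(.x (-1) ⟨3,[(11,0),(0,
  0),(11,1),(0,3)]⟩ ⟨0,[(26,0)]⟩),(.x (-1) ⟨3,[(11,0),(0,0),(11,1),(0,3)]⟩ ⟨0,[(26,0)]⟩),(.r 0 ⟨0,
  [(1,0),(1,0),(0,0),(3,0),(4,0),(16,0)]⟩ ⟨1,[(12,0),(6,0),(0,0),(7,1),(0,3),(2,0)]⟩),.k,⟨false,0,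
  ⟨0,[(1,0),(1,0),(0,0),(3,0),(4,0),(16,0)]⟩,⟨1,[(12,0),(15,1),(0,3),(2,0)]⟩⟩,⟨true,0,⟨0,[(13,0)]⟩,
  ⟨1,[(1,0),(12,1),(4,0)]⟩⟩,⟨false,0,⟨0,[(30,0)]⟩,⟨0,[(29,0),(2,0)]⟩⟩,⟨false,1,⟨1,[(12,0),(0,1),(5,
  0),(0,0),(8,1),(2,0)]⟩,⟨0,[(1,0),(1,0),(4,0)]⟩⟩,⟨true,0,⟨0,[(34,0)]⟩,⟨0,[]⟩⟩,⟨false,1,⟨1,[(12,0),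
  (0,1),(14,1),(0,3),(2,0)]⟩,⟨0,[(1,0),(1,0),(4,0),(21,0)]⟩⟩,[.o ⟨false,0,⟨0,[(29,0)]⟩,⟨1,[(24,0),
  (5,1),(1,0)]⟩⟩,.o ⟨false,1,⟨3,[(11,0),(0,0),(16,3),(2,1)]⟩,⟨0,[(1,0),(1,0)]⟩⟩,.o ⟨false,1,⟨1,[(14,
  1),(9,0),(6,0)]⟩,⟨1,[(1,0),(11,1),(5,0)]⟩⟩,.a ⟨true,0,⟨0,[(14,0)]⟩,⟨0,[(13,0)]⟩⟩ ⟨false,0,⟨0,[(4,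
  0),(2,0),(22,0)]⟩,⟨1,[(12,0),(15,1),(0,1),(2,0)]⟩⟩ ⟨true,0,⟨0,[(13,0),(15,0)]⟩,⟨0,[(1,0),(1,0),
  (10,0)]⟩⟩]⟩))) (.R ⟨2,true,false,true,[0,1],[1,1,-1],[1,1,1,1],(⟨0,[]⟩,⟨0,[]⟩),(⟨0,[(20,0),(3,
  0)]⟩,⟨0,[(0,0)]⟩),⟨0,[]⟩,.k,.k,.k,.k,.k,.k,⟨true,0,⟨0,[(19,0)]⟩,⟨0,[(3,0),(9,0),(12,0)]⟩⟩,⟨false,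
  1,⟨0,[(14,0),(14,0)]⟩,⟨0,[(3,0)]⟩⟩,⟨false,0,⟨0,[]⟩,⟨3,[(9,0),(0,0),(19,1)]⟩⟩,⟨true,0,⟨0,[(13,0)]⟩,
  ⟨1,[(8,0),(2,0),(0,0)]⟩⟩,⟨true,0,⟨0,[(27,0)]⟩,⟨0,[(28,0)]⟩⟩,⟨false,1,⟨0,[(13,0),(13,0),(2,0)]⟩,⟨0,
  [(1,0),(17,0),(6,0)]⟩⟩,[]⟩)) (.Q [0,0,0,1,0,0,1,1,0,1,-1] (.p false [0,0,1] [1] (⟨0,[(20,0)]⟩,⟨0,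
  [(19,0)]⟩) .k 1 (⟨0,[]⟩,⟨0,[]⟩) .k .k) (.I [1,0,0,-1,0,0,0,-1] (.Q [0,0,0,1,0,0,0,0,0,1] (.pp
  false [-1,1]) (.K ⟨2,[-1,1,1],0,0,(⟨0,[(6,0)]⟩,⟨0,[(22,0),(2,0)]⟩),.k,.k,(.r 0 ⟨1,[(2,1),(0,1),
  (15,0),(0,0)]⟩ ⟨0,[(1,0),(28,0),(0,0)]⟩),.k,.k,[⟨0,[(0,0)]⟩,⟨0,[(15,0),(14,0)]⟩,⟨1,[(16,1),(2,0),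
  (0,0)]⟩,⟨0,[(5,0)]⟩]⟩) (.Q [0,0,0,0,0,1,0,0,0,-1,0,1] (.p true [0,0,0,1] [1] (⟨0,[(14,0)]⟩,⟨0,
  [(13,0)]⟩) .k 1 (⟨0,[]⟩,⟨0,[]⟩) .k .k) (.R ⟨0,false,false,true,[1,0,0,-1],[0,1],[0,1,0,0,0,0,0,0,
  -1],(⟨0,[(14,0)]⟩,⟨0,[(15,0)]⟩),(⟨0,[(27,0)]⟩,⟨0,[(26,0)]⟩),⟨0,[(0,0)]⟩,.k,.k,(.x (-1) ⟨3,[(12,0),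
  (0,0),(11,1),(0,3)]⟩ ⟨0,[(27,0)]⟩),(.x (-1) ⟨3,[(12,0),(0,0),(11,1),(0,3)]⟩ ⟨0,[(27,0)]⟩),.k,.k,
  ⟨false,0,⟨0,[(1,0),(3,0),(3,0),(4,0)]⟩,⟨1,[(13,0),(6,0),(0,0),(8,1),(2,0)]⟩⟩,⟨true,0,⟨0,[(14,0)]⟩,
  ⟨1,[(1,0),(2,0),(10,1),(4,0)]⟩⟩,⟨true,0,⟨0,[(35,0)]⟩,⟨0,[]⟩⟩,⟨false,1,⟨1,[(13,0),(0,1),(5,0),(0,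
  0),(8,1),(2,0)]⟩,⟨0,[(1,0),(7,0)]⟩⟩,⟨false,0,⟨0,[]⟩,⟨0,[]⟩⟩,⟨false,0,⟨0,[]⟩,⟨0,[]⟩⟩,[.o ⟨false,0,
  ⟨0,[(30,0)]⟩,⟨1,[(25,0),(5,1),(1,0)]⟩⟩,.o ⟨false,1,⟨3,[(12,0),(0,0),(16,3),(2,1)]⟩,⟨0,[(1,0)]⟩⟩,
  .o ⟨false,1,⟨1,[(15,1),(9,0),(6,0)]⟩,⟨1,[(1,0),(2,0),(9,1),(5,0)]⟩⟩,.a ⟨true,0,⟨0,[(15,0)]⟩,⟨0,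
  [(14,0)]⟩⟩ ⟨false,0,⟨0,[(5,0),(2,0)]⟩,⟨1,[(13,0),(6,0),(0,0),(11,0)]⟩⟩ ⟨true,0,⟨0,[(14,0),(15,
  0)]⟩,⟨0,[(1,0),(13,0)]⟩⟩]⟩) (.R ⟨1,false,false,true,[1,0,0,-1],[0,1],[0,1,0,-1,0,0,0,0,-1],(⟨0,
  [(14,0)]⟩,⟨0,[(15,0)]⟩),(⟨0,[(27,0)]⟩,⟨0,[(26,0)]⟩),⟨0,[(0,0)]⟩,.k,.k,(.x (-1) ⟨3,[(12,0),(0,0),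
  (11,1),(0,3)]⟩ ⟨0,[(27,0)]⟩),(.x (-1) ⟨3,[(12,0),(0,0),(11,1),(0,3)]⟩ ⟨0,[(27,0)]⟩),(.r 0 ⟨0,[(1,
  0),(3,0),(3,0),(4,0),(16,0)]⟩ ⟨1,[(13,0),(6,0),(0,0),(7,1),(0,3),(2,0)]⟩),.k,⟨false,0,⟨0,[(1,0),
  (3,0),(3,0),(4,0),(16,0)]⟩,⟨1,[(13,0),(15,1),(0,3),(2,0)]⟩⟩,⟨true,0,⟨0,[(14,0)]⟩,⟨1,[(1,0),(2,0),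
  (10,1),(4,0)]⟩⟩,⟨false,0,⟨0,[(31,0)]⟩,⟨0,[(30,0),(2,0)]⟩⟩,⟨false,1,⟨1,[(13,0),(0,1),(5,0),(0,0),
  (8,1),(2,0)]⟩,⟨0,[(1,0),(7,0)]⟩⟩,⟨true,0,⟨0,[(35,0)]⟩,⟨0,[]⟩⟩,⟨false,1,⟨1,[(13,0),(0,1),(14,1),(0,
  3),(2,0)]⟩,⟨0,[(1,0),(7,0),(21,0)]⟩⟩,[.o ⟨false,0,⟨0,[(30,0)]⟩,⟨1,[(25,0),(5,1),(1,0)]⟩⟩,.o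
  ⟨false,1,⟨3,[(12,0),(0,0),(16,3),(2,1)]⟩,⟨0,[(1,0)]⟩⟩,.o ⟨false,1,⟨1,[(15,1),(9,0),(6,0)]⟩,⟨1,[(1,
  0),(2,0),(9,1),(5,0)]⟩⟩,.a ⟨true,0,⟨0,[(15,0)]⟩,⟨0,[(14,0)]⟩⟩ ⟨false,0,⟨0,[(5,0),(2,0),(22,0)]⟩,
  ⟨1,[(13,0),(15,1),(0,1),(2,0)]⟩⟩ ⟨true,0,⟨0,[(14,0),(15,0)]⟩,⟨0,[(1,0),(13,0)]⟩⟩]⟩))) (.I [0,0,-2,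
  -2,1,0,0,-1] (.Q [0,1,0,1,0,0,-1,-1,0,0,1] (.p true [0,0,1] [] (⟨0,[(23,0)]⟩,⟨0,[(22,0)]⟩) .k 0
  (⟨0,[]⟩,⟨0,[]⟩) .k .k) (.Q [0,0,0,1,0,0,0,0,0,1] (.pp false [-1,1]) (.K ⟨2,[-1,1,1],0,0,(⟨0,[(8,
  0)]⟩,⟨0,[(24,0),(2,0)]⟩),.k,.k,(.r 0 ⟨1,[(4,1),(0,1),(15,0),(0,0)]⟩ ⟨0,[(2,0)]⟩),.k,.k,[⟨0,[(0,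
  0)]⟩,⟨0,[(17,0),(14,0)]⟩,⟨1,[(18,1),(2,0),(0,0)]⟩,⟨0,[(7,0)]⟩]⟩) (.Q [0,0,0,0,0,1,0,0,0,-1,0,1]
  (.p true [0,0,0,1] [1] (⟨0,[(16,0)]⟩,⟨0,[(15,0)]⟩) .k 1 (⟨0,[]⟩,⟨0,[]⟩) .k .k) (.R ⟨0,false,false,
  true,[1,0,0,-1],[0,1],[0,1,0,0,0,0,0,0,-1],(⟨0,[(16,0)]⟩,⟨0,[(17,0)]⟩),(⟨0,[(29,0)]⟩,⟨0,[(28,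
  0)]⟩),⟨0,[(0,0)]⟩,.k,.k,(.x (-1) ⟨3,[(14,0),(0,0),(11,1),(0,3)]⟩ ⟨0,[(29,0)]⟩),(.x (-1) ⟨3,[(14,
  0),(0,0),(11,1),(0,3)]⟩ ⟨0,[(29,0)]⟩),.k,.k,⟨false,0,⟨0,[(1,0),(5,0),(3,0),(4,0)]⟩,⟨5,[(2,1),(2,
  1),(0,1),(7,0),(0,3),(6,2),(0,0),(11,0)]⟩⟩,⟨true,0,⟨0,[(16,0)]⟩,⟨1,[(1,0),(4,0),(10,1),(4,0)]⟩⟩,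
  ⟨true,0,⟨0,[(37,0)]⟩,⟨0,[]⟩⟩,⟨false,1,⟨5,[(2,1),(2,1),(0,1),(7,0),(0,3),(0,5),(5,2),(0,0),(11,
  0)]⟩,⟨0,[(1,0),(9,0)]⟩⟩,⟨false,0,⟨0,[]⟩,⟨0,[]⟩⟩,⟨false,0,⟨0,[]⟩,⟨0,[]⟩⟩,[.o ⟨false,0,⟨0,[(32,0)]⟩,
  ⟨1,[(27,0),(5,1),(1,0)]⟩⟩,.o ⟨false,1,⟨3,[(2,1),(2,1),(8,0),(0,0),(11,0),(7,0)]⟩,⟨0,[(1,0)]⟩⟩,.o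
  ⟨false,1,⟨1,[(17,1),(9,0),(6,0)]⟩,⟨1,[(1,0),(4,0),(9,1),(5,0)]⟩⟩,.a ⟨true,0,⟨0,[(17,0)]⟩,⟨0,[(16,
  0)]⟩⟩ ⟨false,0,⟨0,[(7,0),(2,0)]⟩,⟨1,[(15,0),(6,0),(0,0),(11,0)]⟩⟩ ⟨true,0,⟨0,[(16,0),(15,0)]⟩,⟨0,
  [(1,0),(15,0)]⟩⟩]⟩) (.R ⟨1,false,false,true,[1,0,0,-1],[0,1],[0,1,0,-1,0,0,0,0,-1],(⟨0,[(16,0)]⟩,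
  ⟨0,[(17,0)]⟩),(⟨0,[(29,0)]⟩,⟨0,[(28,0)]⟩),⟨0,[(0,0)]⟩,.k,.k,(.x (-1) ⟨3,[(14,0),(0,0),(11,1),(0,
  3)]⟩ ⟨0,[(29,0)]⟩),(.x (-1) ⟨3,[(14,0),(0,0),(11,1),(0,3)]⟩ ⟨0,[(29,0)]⟩),(.r 0 ⟨0,[(1,0),(5,0),
  (3,0),(4,0),(16,0)]⟩ ⟨11,[(2,7),(2,7),(0,7),(7,0),(0,6),(6,11),(0,3),(11,3)]⟩),.k,⟨false,0,⟨0,[(1,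
  0),(5,0),(3,0),(4,0),(16,0)]⟩,⟨7,[(2,5),(2,5),(0,3),(8,3),(6,3),(4,0),(7,2)]⟩⟩,⟨true,0,⟨0,[(16,
  0)]⟩,⟨1,[(1,0),(4,0),(10,1),(4,0)]⟩⟩,⟨false,0,⟨0,[(33,0)]⟩,⟨3,[(2,1),(2,1),(21,0),(7,2)]⟩⟩,⟨false,
  1,⟨5,[(2,1),(2,1),(0,1),(7,0),(0,3),(0,5),(5,2),(0,0),(11,0)]⟩,⟨0,[(1,0),(9,0)]⟩⟩,⟨true,0,⟨0,[(37,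
  0)]⟩,⟨0,[]⟩⟩,⟨false,1,⟨7,[(2,5),(2,5),(0,3),(8,3),(0,7),(5,3),(4,0),(7,2)]⟩,⟨0,[(1,0),(9,0),(21,
  0)]⟩⟩,[.o ⟨false,0,⟨0,[(32,0)]⟩,⟨1,[(27,0),(5,1),(1,0)]⟩⟩,.o ⟨false,1,⟨3,[(2,1),(2,1),(8,0),(0,0),
  (11,0),(7,0)]⟩,⟨0,[(1,0)]⟩⟩,.o ⟨false,1,⟨1,[(17,1),(9,0),(6,0)]⟩,⟨1,[(1,0),(4,0),(9,1),(5,0)]⟩⟩,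
  .a ⟨true,0,⟨0,[(17,0)]⟩,⟨0,[(16,0)]⟩⟩ ⟨false,0,⟨0,[(7,0),(2,0),(22,0)]⟩,⟨5,[(2,1),(2,1),(0,1),(8,
  2),(6,1),(8,1),(3,2)]⟩⟩ ⟨true,0,⟨0,[(16,0),(15,0)]⟩,⟨0,[(1,0),(15,0)]⟩⟩]⟩))) (.I [0,0,-1,-1,0,0,0,
  1] (.Q [0,0,0,0,0,0,-1,0,0,0,1] (.p true [0,0,1] [] (⟨0,[(25,0)]⟩,⟨0,[(24,0)]⟩) .k 0 (⟨0,[]⟩,⟨0,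
  []⟩) .k .k) (.R ⟨2,true,false,false,[0,1],[0,0,1],[1,0,1,1],(⟨0,[]⟩,⟨0,[]⟩),(⟨0,[(26,0)]⟩,⟨0,[(25,
  0)]⟩),⟨0,[]⟩,.k,.k,.k,.k,.k,.k,⟨false,1,⟨0,[(8,0),(9,0),(13,0),(2,0)]⟩,⟨0,[(1,0)]⟩⟩,⟨true,0,⟨0,
  [(22,0)]⟩,⟨0,[(0,0)]⟩⟩,⟨true,0,⟨0,[]⟩,⟨0,[(37,0)]⟩⟩,⟨false,0,⟨0,[(2,0)]⟩,⟨0,[(21,0),(10,0),(2,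
  0)]⟩⟩,⟨false,1,⟨0,[(32,0),(2,0)]⟩,⟨0,[(33,0)]⟩⟩,⟨true,0,⟨0,[(2,0),(29,0)]⟩,⟨0,[(21,0)]⟩⟩,[]⟩) (.R
  ⟨2,true,false,false,[0,1],[0,0,1],[0,0,1],(⟨0,[]⟩,⟨0,[]⟩),(⟨0,[(26,0)]⟩,⟨0,[(25,0)]⟩),⟨0,[]⟩,.k,
  .k,.k,.k,.k,.k,⟨true,0,⟨0,[(8,0),(9,0),(12,0)]⟩,⟨0,[(24,0)]⟩⟩,⟨false,0,⟨0,[(0,0)]⟩,⟨0,[(23,0),(10,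
  0)]⟩⟩,⟨true,0,⟨0,[(33,0)]⟩,⟨0,[(32,0)]⟩⟩,⟨false,0,⟨0,[(2,0)]⟩,⟨0,[(21,0),(10,0),(2,0)]⟩⟩,⟨false,1,
  ⟨3,[(14,0),(0,0),(19,1)]⟩,⟨0,[]⟩⟩,⟨true,0,⟨2,[(0,0),(1,0),(1,0),(15,0)]⟩,⟨0,[(21,0)]⟩⟩,[]⟩)) (.R
  ⟨2,true,false,false,[0,1],[0,0,1],[1,0,1,1],(⟨0,[]⟩,⟨0,[]⟩),(⟨0,[(25,0)]⟩,⟨0,[(24,0)]⟩),⟨0,[]⟩,.k,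
  .k,.k,.k,.k,.k,⟨true,0,⟨0,[(0,0)]⟩,⟨0,[(23,0),(8,0)]⟩⟩,⟨false,0,⟨0,[(0,0),(0,0),(4,0)]⟩,⟨0,[(22,
  0),(10,0)]⟩⟩,⟨true,0,⟨0,[]⟩,⟨0,[(36,0)]⟩⟩,⟨false,0,⟨0,[(1,0)]⟩,⟨0,[(20,0),(10,0),(2,0)]⟩⟩,⟨false,
  1,⟨0,[(31,0),(2,0)]⟩,⟨0,[(32,0)]⟩⟩,⟨true,0,⟨0,[(1,0),(29,0)]⟩,⟨0,[(20,0)]⟩⟩,[]⟩))) (.Q [0,1,0,-1,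
  0,0,-2,-1,0,-2,2] (.p true [0,0,1] [2,-1,-1] (⟨0,[(23,0)]⟩,⟨0,[(22,0)]⟩) .k 2 (⟨0,[(22,0),(2,0)]⟩,
  ⟨0,[(6,0)]⟩) .k (.r 0 ⟨0,[(21,1)]⟩ ⟨0,[(5,1),(9,1),(16,0)]⟩)) (.Q [0,0,-1,0,0,0,0,0,-1,-1,0,1]
  (.p true [0,0,0,1] [1] (⟨0,[(15,0)]⟩,⟨0,[(14,0)]⟩) .k 1 (⟨0,[]⟩,⟨0,[]⟩) .k .k) (.R ⟨0,false,false,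
  false,[1,0,-1],[0,0,0,1],[1],(⟨0,[(24,0)]⟩,⟨0,[(25,0)]⟩),(⟨0,[(16,0)]⟩,⟨0,[(15,0)]⟩),⟨0,[(8,0)]⟩,
  .k,.k,.k,.k,.k,.k,⟨false,0,⟨0,[(6,0),(2,0)]⟩,⟨3,[(13,0),(0,2)]⟩⟩,⟨true,0,⟨0,[(15,0),(5,0)]⟩,⟨3,
  [(1,1),(0,0),(7,1),(3,0),(1,1),(6,0)]⟩⟩,⟨true,0,⟨0,[(23,0)]⟩,⟨0,[(7,0),(9,0)]⟩⟩,⟨false,1,⟨3,[(12,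
  1),(1,1),(0,3),(5,0),(0,0),(3,0),(3,1),(3,0)]⟩,⟨0,[(10,0),(6,0)]⟩⟩,⟨false,0,⟨0,[]⟩,⟨0,[]⟩⟩,⟨false,
  0,⟨0,[]⟩,⟨0,[]⟩⟩,[.o ⟨false,1,⟨1,[(14,0),(0,1),(5,0),(0,0),(3,0)]⟩,⟨0,[(0,0)]⟩⟩,.o ⟨false,1,⟨1,
  [(14,0),(0,1),(10,0),(3,1)]⟩,⟨18,[(0,12),(0,1),(0,0),(8,5),(7,0),(1,2),(4,0),(2,4)]⟩⟩,.a ⟨true,0,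
  ⟨3,[(1,1),(0,0),(7,1),(3,0),(0,3),(0,1),(6,0)]⟩,⟨0,[(7,0)]⟩⟩ ⟨true,0,⟨0,[]⟩,⟨0,[(36,0)]⟩⟩ ⟨false,
  1,⟨1,[(14,0),(0,1),(5,1),(12,0)]⟩,⟨3,[(1,1),(1,1),(6,2),(0,0)]⟩⟩,.o ⟨false,0,⟨0,[(18,0)]⟩,⟨1,[(7,
  1),(18,0),(6,0)]⟩⟩]⟩) (.R ⟨0,false,false,true,[1,0,-1],[1,0,0,-1],[],(⟨0,[(24,0)]⟩,⟨0,[(25,0)]⟩),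
  (⟨0,[(15,0)]⟩,⟨0,[(16,0)]⟩),⟨0,[(8,0)]⟩,.k,.k,.k,.k,.k,.k,⟨true,1,⟨1,[(14,0),(19,0)]⟩,⟨0,[(1,0),
  (0,0),(3,0),(0,1),(1,0),(22,0)]⟩⟩,⟨false,1,⟨1,[(6,1),(0,1),(2,1),(3,0),(11,0)]⟩,⟨0,[(15,0),(2,
  0)]⟩⟩,⟨true,0,⟨0,[(23,0)]⟩,⟨0,[(7,0),(9,0)]⟩⟩,⟨false,0,⟨0,[(10,0),(8,0)]⟩,⟨0,[(0,0),(16,0),(16,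
  0)]⟩⟩,⟨false,0,⟨0,[]⟩,⟨0,[]⟩⟩,⟨false,0,⟨0,[]⟩,⟨0,[]⟩⟩,[.o ⟨false,0,⟨5,[(1,1),(0,0),(3,4),(3,3),(0,
  1),(7,0),(1,2),(4,0)]⟩,⟨1,[(0,1),(25,0),(7,0)]⟩⟩,.a ⟨true,0,⟨1,[(10,0),(0,0)]⟩,⟨0,[(0,0)]⟩⟩
  ⟨false,1,⟨1,[(33,0),(0,0)]⟩,⟨0,[(36,0)]⟩⟩ ⟨true,0,⟨0,[(6,0),(3,0),(10,0)]⟩,⟨0,[(0,0),(17,0)]⟩⟩,.e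
  ⟨false,1,⟨3,[(13,0),(0,0),(19,1)]⟩,⟨0,[]⟩⟩ ⟨false,0,⟨0,[(6,0),(3,0),(10,0)]⟩,⟨5,[(0,3),(0,1),(1,
  1),(10,0),(0,1),(6,1),(3,0),(7,3)]⟩⟩,.o ⟨false,0,⟨0,[(18,0)]⟩,⟨1,[(7,1),(18,0),(6,0)]⟩⟩]⟩)) (.R
  ⟨0,false,false,true,[1,0,-1],[0,1],[],(⟨0,[(23,0)]⟩,⟨0,[(24,0)]⟩),(⟨0,[(27,0)]⟩,⟨0,[(26,0)]⟩),⟨0,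
  [(7,0)]⟩,.k,.k,.k,.k,.k,.k,⟨true,1,⟨1,[(31,1),(0,0),(0,0)]⟩,⟨0,[(1,0),(4,0),(9,0),(14,0)]⟩⟩,
  ⟨false,1,⟨0,[(6,0),(25,0)]⟩,⟨0,[(17,0)]⟩⟩,⟨true,0,⟨0,[(22,0)]⟩,⟨0,[(6,0),(9,0)]⟩⟩,⟨false,0,⟨0,[(3,
  0)]⟩,⟨0,[(16,0),(14,0),(1,0)]⟩⟩,⟨false,0,⟨0,[]⟩,⟨0,[]⟩⟩,⟨false,0,⟨0,[]⟩,⟨0,[]⟩⟩,[.o ⟨false,0,⟨0,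
  [(30,0)]⟩,⟨1,[(25,0),(5,1),(1,0)]⟩⟩,.a ⟨true,0,⟨5,[(0,1),(0,1),(7,1),(3,0),(0,1),(4,3),(12,0)]⟩,
  ⟨0,[(31,0)]⟩⟩ ⟨false,1,⟨1,[(32,0),(0,0)]⟩,⟨0,[(35,0)]⟩⟩ ⟨true,0,⟨0,[(0,0),(15,0)]⟩,⟨0,[(17,0),(13,
  0)]⟩⟩,.e ⟨false,1,⟨3,[(12,0),(0,0),(19,1)]⟩,⟨0,[]⟩⟩ ⟨false,0,⟨0,[(0,0),(15,0)]⟩,⟨1,[(17,1),(13,1),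
  (0,0),(0,0)]⟩⟩,.o ⟨false,0,⟨0,[(17,0)]⟩,⟨1,[(6,1),(18,0),(6,0)]⟩⟩]⟩)))) (.R ⟨2,true,false,true,[0,
  1],[1,0,-1],[1,0,1,1],(⟨0,[]⟩,⟨0,[]⟩),(⟨0,[(20,0)]⟩,⟨0,[(21,0)]⟩),⟨0,[]⟩,.k,.k,.k,.k,.k,.k,⟨false,
  1,⟨0,[(19,0),(7,0),(2,0)]⟩,⟨0,[(0,0),(1,0),(0,0)]⟩⟩,⟨true,0,⟨0,[(14,0)]⟩,⟨0,[(3,0)]⟩⟩,⟨true,0,⟨0,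
  []⟩,⟨0,[(32,0)]⟩⟩,⟨false,0,⟨0,[(0,0)]⟩,⟨1,[(8,0),(2,0),(0,0),(14,1),(2,1)]⟩⟩,⟨false,1,⟨0,[(27,0),
  (2,0)]⟩,⟨0,[(28,0)]⟩⟩,⟨true,0,⟨0,[(13,0)]⟩,⟨1,[(8,0),(2,0),(0,0)]⟩⟩,[]⟩))))

theorem ok11 : chk (cU (-1) true 3) t11 l8 = true := by decide +kernel

noncomputable def t12 : Tre :=
  (.I [0,1,0,0,0,0,0,-1] (.I [0,0,-1,0,0,0,0,0,-1] (.Q [0,0,0,-1,0,0,-1,-1,0,-1,1] (.p true [0,0,1]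
  [1] (⟨0,[(20,0)]⟩,⟨0,[(19,0)]⟩) .k 1 (⟨0,[]⟩,⟨0,[]⟩) .k .k) (.R ⟨2,true,false,true,[0,1],[1,0,-1],
  [0,0,1],(⟨0,[]⟩,⟨0,[]⟩),(⟨0,[(20,0)]⟩,⟨0,[(21,0)]⟩),⟨0,[]⟩,.k,.k,.k,.k,.k,.k,⟨true,0,⟨0,[(19,0),
  (6,0)]⟩,⟨0,[(2,0)]⟩⟩,⟨false,0,⟨0,[(3,0)]⟩,⟨3,[(2,3),(3,0),(0,0),(0,1),(1,0),(0,1),(17,0),(0,1)]⟩⟩,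
  ⟨true,0,⟨0,[(28,0)]⟩,⟨0,[(27,0)]⟩⟩,⟨false,0,⟨0,[(0,0)]⟩,⟨1,[(8,0),(2,0),(0,0),(14,1),(2,1)]⟩⟩,
  ⟨false,1,⟨3,[(9,0),(0,0),(19,1)]⟩,⟨0,[]⟩⟩,⟨true,0,⟨0,[(13,0)]⟩,⟨1,[(8,0),(2,0),(0,0)]⟩⟩,[]⟩) (.Q
  [0,0,0,0,0,0,-1,-1,0,0,1] (.p true [0,0,1] [] (⟨0,[(21,0)]⟩,⟨0,[(20,0)]⟩) .k 0 (⟨0,[]⟩,⟨0,[]⟩) .k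
  .k) (.Q [0,0,-1,0,1,0,2,0,0,1,-2] (.p false [0,0,1] [1,0,-1] (⟨0,[(22,0)]⟩,⟨0,[(21,0)]⟩) .k 2 (⟨0,
  [(21,0)]⟩,⟨0,[(22,0)]⟩) .k (.r 0 ⟨0,[(20,1)]⟩ ⟨0,[(3,1),(27,0)]⟩)) (.R ⟨0,false,false,false,[1,0,
  -1],[0,0,1],[0,1],(⟨0,[(22,0)]⟩,⟨0,[(23,0)]⟩),(⟨0,[(23,0)]⟩,⟨0,[(22,0)]⟩),⟨0,[(6,0)]⟩,.k,.k,.k,.k,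
  .k,.k,⟨true,0,⟨0,[(4,0)]⟩,⟨0,[(21,0),(6,0)]⟩⟩,⟨false,1,⟨0,[(0,0)]⟩,⟨0,[(1,0),(3,0),(15,0)]⟩⟩,
  ⟨false,0,⟨0,[(21,0)]⟩,⟨0,[(4,0),(27,0)]⟩⟩,⟨true,0,⟨0,[(10,0)]⟩,⟨0,[(1,0),(13,0)]⟩⟩,⟨false,0,⟨0,
  []⟩,⟨0,[]⟩⟩,⟨false,0,⟨0,[]⟩,⟨0,[]⟩⟩,[.a ⟨true,0,⟨1,[(10,0),(2,0),(0,0)]⟩,⟨0,[(1,0)]⟩⟩ ⟨true,0,⟨0,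
  [(34,0)]⟩,⟨0,[(28,0)]⟩⟩ ⟨false,1,⟨7,[(0,3),(9,3),(0,0),(0,0),(18,1)]⟩,⟨0,[(1,0),(3,0)]⟩⟩,.o
  ⟨false,1,⟨7,[(10,3),(0,0),(0,0),(11,1),(7,3)]⟩,⟨0,[(15,0)]⟩⟩,.o ⟨false,0,⟨0,[(5,0)]⟩,⟨11,[(0,3),
  (10,2),(0,2),(6,3),(4,1)]⟩⟩,.o ⟨false,0,⟨0,[(16,0)]⟩,⟨3,[(0,1),(23,0),(6,0)]⟩⟩]⟩) (.R ⟨0,false,
  false,false,[1,0,-1],[0,0,1],[0,0,0,0,0,0,0,1],(⟨0,[(22,0)]⟩,⟨0,[(23,0)]⟩),(⟨0,[(23,0)]⟩,⟨0,[(22,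
  0)]⟩),⟨0,[(6,0)]⟩,.k,.k,.k,.k,.k,.k,⟨false,1,⟨3,[(11,0),(0,0),(18,1)]⟩,⟨0,[]⟩⟩,⟨true,1,⟨0,[(4,1),
  (5,0),(21,0)]⟩,⟨0,[(0,0)]⟩⟩,⟨false,0,⟨1,[(0,1),(9,1),(20,0),(0,0)]⟩,⟨0,[(4,1),(27,0)]⟩⟩,⟨true,0,
  ⟨0,[(10,0)]⟩,⟨0,[(1,0),(13,0)]⟩⟩,⟨false,0,⟨0,[]⟩,⟨0,[]⟩⟩,⟨false,0,⟨0,[]⟩,⟨0,[]⟩⟩,[.a ⟨true,0,⟨1,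
  [(10,0),(2,0),(0,0)]⟩,⟨0,[(1,0)]⟩⟩ ⟨true,0,⟨0,[(21,0)]⟩,⟨0,[(4,0),(23,0)]⟩⟩ ⟨false,1,⟨1,[(4,1),(5,
  1),(20,0),(0,0)]⟩,⟨3,[(0,1),(0,1),(13,1),(15,0),(0,0)]⟩⟩,.o ⟨false,1,⟨7,[(10,3),(0,0),(0,0),(11,
  1),(7,3)]⟩,⟨0,[(15,0)]⟩⟩,.o ⟨false,0,⟨0,[(5,0)]⟩,⟨3,[(11,0),(0,0),(6,3),(11,1)]⟩⟩,.o ⟨false,0,⟨0,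
  [(16,0)]⟩,⟨0,[(19,0),(11,0)]⟩⟩]⟩)) (.Q [0,0,0,0,0,1,0,0,0,-1,0,1] (.p true [0,0,0,1] [1] (⟨0,[(13,
  0)]⟩,⟨0,[(12,0)]⟩) .k 1 (⟨0,[]⟩,⟨0,[]⟩) .k .k) (.R ⟨0,false,false,false,[1,0,0,-1],[0,0,1],[0,1,0,
  0,0,0,0,0,-1],(⟨0,[(13,0)]⟩,⟨0,[(14,0)]⟩),(⟨0,[(23,0)]⟩,⟨0,[(22,0)]⟩),⟨0,[(0,0)]⟩,.k,.k,(.x (-1)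
  ⟨3,[(11,0),(0,0),(11,1),(0,3)]⟩ ⟨0,[(26,0)]⟩),.k,.k,.k,⟨false,0,⟨0,[(3,0),(0,0)]⟩,⟨1,[(12,0),(8,
  1),(10,0)]⟩⟩,⟨true,0,⟨0,[(13,0),(5,0)]⟩,⟨0,[(5,0),(8,0)]⟩⟩,⟨true,0,⟨0,[(34,0)]⟩,⟨0,[]⟩⟩,⟨false,1,
  ⟨3,[(10,1),(1,1),(0,3),(5,0),(0,0),(3,0),(3,1),(3,0)]⟩,⟨0,[(8,0),(6,0)]⟩⟩,⟨false,0,⟨0,[]⟩,⟨0,[]⟩⟩,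
  ⟨false,0,⟨0,[]⟩,⟨0,[]⟩⟩,[.o ⟨false,0,⟨0,[(1,0)]⟩,⟨1,[(18,1),(5,0),(7,0)]⟩⟩,.o ⟨false,1,⟨7,[(10,3),
  (0,0),(0,0),(11,1),(7,3)]⟩,⟨0,[(15,0)]⟩⟩,.o ⟨false,1,⟨1,[(14,1),(9,0),(6,0)]⟩,⟨0,[(5,0),(7,0),(5,
  0)]⟩⟩,.a ⟨true,0,⟨0,[(14,0)]⟩,⟨0,[(13,0)]⟩⟩ ⟨false,0,⟨0,[(3,0)]⟩,⟨1,[(12,0),(6,0),(0,0),(11,0)]⟩⟩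
  ⟨true,0,⟨0,[(1,0),(11,0)]⟩,⟨0,[(14,0),(0,0)]⟩⟩]⟩) (.Q [0,1,0,-1,0,0,-1,-1,0,-2,1] (.p true [-1,1,
  1] [1] (⟨0,[(6,0)]⟩,⟨0,[(22,0),(2,0)]⟩) .k 1 (⟨0,[]⟩,⟨0,[]⟩) .k .k) (.Q [0,0,0,0,0,0,1,0,0,2,-1]
  (.p false [-1,1,1] [1] (⟨0,[(7,0)]⟩,⟨0,[(23,0),(2,0)]⟩) .k 1 (⟨0,[]⟩,⟨0,[]⟩) .k .k) (.K ⟨0,[2,-1,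
  -1],0,0,(⟨0,[(24,0),(2,0)]⟩,⟨0,[(8,0)]⟩),.k,(.r (-1) ⟨0,[(1,0),(1,0),(2,0),(3,1),(3,0),(0,1),(16,
  0)]⟩ ⟨0,[(4,0),(13,0),(11,0),(0,0)]⟩),.k,.k,.k,[⟨0,[(0,0)]⟩,⟨0,[(7,0)]⟩,⟨1,[(0,0),(3,1),(17,0),(6,
  0)]⟩,⟨0,[(1,0)]⟩]⟩) (.Q [0,0,0,1,0,0,0,0,0,1] (.pp false [-1,1]) (.R ⟨0,false,false,false,[1,0,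
  -1],[1,-1],[0,1],(⟨0,[(25,0)]⟩,⟨0,[(26,0)]⟩),(⟨0,[(28,0)]⟩,⟨0,[(29,0)]⟩),⟨0,[(9,0)]⟩,.k,.k,.k,.k,
  .k,.k,⟨false,0,⟨0,[(32,0)]⟩,⟨1,[(33,1),(0,0),(0,0)]⟩⟩,⟨true,0,⟨0,[(22,0)]⟩,⟨0,[(8,0),(7,0),(0,
  0)]⟩⟩,⟨false,0,⟨0,[(24,0)]⟩,⟨0,[(7,0),(27,0)]⟩⟩,⟨true,0,⟨0,[(4,0),(28,0)]⟩,⟨0,[(0,0),(17,0)]⟩⟩,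
  ⟨false,0,⟨0,[]⟩,⟨0,[]⟩⟩,⟨false,0,⟨0,[]⟩,⟨0,[]⟩⟩,[.a ⟨true,0,⟨0,[(33,0)]⟩,⟨0,[(0,0)]⟩⟩ ⟨true,0,⟨0,
  [(37,0)]⟩,⟨0,[(31,0)]⟩⟩ ⟨false,1,⟨0,[(22,0),(10,0),(0,0)]⟩,⟨0,[(0,0),(7,0)]⟩⟩,.o ⟨false,1,⟨1,[(27,
  0),(5,1),(1,0)]⟩,⟨0,[(32,0)]⟩⟩,.o ⟨false,0,⟨0,[(8,0)]⟩,⟨3,[(14,0),(0,0),(6,3),(11,1)]⟩⟩,.o ⟨false,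
  0,⟨0,[(19,0)]⟩,⟨0,[(22,0),(11,0)]⟩⟩]⟩) (.R ⟨1,false,false,false,[1,0,0,-1],[0,0,1],[0,0,0,-1,0,0,
  0,0,-1],(⟨0,[(16,0)]⟩,⟨0,[(17,0)]⟩),(⟨0,[(26,0)]⟩,⟨0,[(25,0)]⟩),⟨0,[(3,0)]⟩,.k,.k,(.x (-1) ⟨3,
  [(14,0),(0,0),(11,1),(0,3)]⟩ ⟨0,[(29,0)]⟩),.k,(.r 0 ⟨0,[(0,0),(6,0),(3,0),(4,0)]⟩ ⟨1,[(5,1),(9,0),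
  (7,1),(3,0)]⟩),.k,⟨false,0,⟨0,[(0,0),(6,0),(3,0),(4,0)]⟩,⟨3,[(5,3),(2,1),(6,1),(7,1),(3,0),(6,
  0)]⟩⟩,⟨true,0,⟨0,[(16,0),(5,0)]⟩,⟨0,[(8,0),(8,0)]⟩⟩,⟨true,0,⟨0,[(33,0)]⟩,⟨0,[(32,0)]⟩⟩,⟨false,1,
  ⟨3,[(13,1),(1,1),(0,3),(5,0),(0,0),(3,0),(3,1),(3,0)]⟩,⟨0,[(11,0),(6,0)]⟩⟩,⟨false,1,⟨3,[(14,0),(0,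
  0),(19,1)]⟩,⟨0,[]⟩⟩,⟨false,1,⟨1,[(5,1),(9,0),(0,1),(10,0),(3,1)]⟩,⟨1,[(2,0),(8,1),(9,0),(11,0)]⟩⟩,
  [.o ⟨false,0,⟨0,[(4,0)]⟩,⟨1,[(21,1),(5,0),(7,0)]⟩⟩,.o ⟨false,1,⟨7,[(13,3),(0,0),(0,0),(11,1),(7,
  3)]⟩,⟨0,[(18,0)]⟩⟩,.o ⟨false,1,⟨1,[(17,1),(9,0),(6,0)]⟩,⟨2,[(1,0),(14,2),(2,0),(2,1)]⟩⟩,.a ⟨true,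
  0,⟨0,[(17,0)]⟩,⟨0,[(16,0)]⟩⟩ ⟨false,0,⟨0,[(0,0),(10,0),(4,0)]⟩,⟨1,[(15,0),(6,0),(0,0),(8,1),(2,
  0)]⟩⟩ ⟨true,0,⟨0,[(4,0),(11,0)]⟩,⟨0,[(17,0),(0,0)]⟩⟩]⟩))) (.R ⟨0,false,false,false,[1,0,-1],[1,
  -1],[0,1],(⟨0,[(23,0)]⟩,⟨0,[(24,0)]⟩),(⟨0,[(26,0)]⟩,⟨0,[(27,0)]⟩),⟨0,[(7,0)]⟩,.k,.k,.k,.k,.k,.k,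
  ⟨false,0,⟨0,[(30,0)]⟩,⟨1,[(31,1),(0,0),(0,0)]⟩⟩,⟨true,0,⟨0,[(20,0)]⟩,⟨1,[(0,0),(5,1),(12,0),(11,
  0)]⟩⟩,⟨false,0,⟨0,[(22,0)]⟩,⟨0,[(5,0),(27,0)]⟩⟩,⟨true,0,⟨0,[(2,0),(28,0)]⟩,⟨0,[(0,0),(15,1)]⟩⟩,
  ⟨false,0,⟨0,[]⟩,⟨0,[]⟩⟩,⟨false,0,⟨0,[]⟩,⟨0,[]⟩⟩,[.a ⟨true,0,⟨0,[(31,0)]⟩,⟨0,[(0,0),(15,0)]⟩⟩
  ⟨true,0,⟨0,[(35,0)]⟩,⟨0,[(29,0)]⟩⟩ ⟨false,1,⟨0,[(20,0),(10,0),(0,0)]⟩,⟨0,[(0,0),(5,0),(9,0)]⟩⟩,.o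
  ⟨false,1,⟨1,[(25,0),(5,1),(1,0)]⟩,⟨0,[(30,0)]⟩⟩,.o ⟨false,0,⟨0,[(6,0)]⟩,⟨3,[(12,0),(0,0),(6,3),
  (11,1)]⟩⟩,.o ⟨false,0,⟨0,[(17,0)]⟩,⟨0,[(20,0),(11,0)]⟩⟩]⟩))))) (.R ⟨0,false,false,true,[1,0,-1],
  [0,0,0,1],[1,0,1],(⟨0,[(19,0)]⟩,⟨0,[(20,0)]⟩),(⟨0,[(11,0)]⟩,⟨0,[(10,0)]⟩),⟨0,[(3,0)]⟩,.k,.k,.k,.k,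
  .k,.k,⟨false,0,⟨0,[(4,0)]⟩,⟨7,[(8,0),(0,4),(14,3),(3,1)]⟩⟩,⟨true,0,⟨0,[(10,0),(5,0)]⟩,⟨0,[(2,0),
  (8,0)]⟩⟩,⟨false,0,⟨0,[(18,0),(6,0)]⟩,⟨1,[(1,1),(26,0),(0,0)]⟩⟩,⟨true,0,⟨0,[(0,0),(9,0),(3,0)]⟩,⟨0,
  [(5,0),(6,0)]⟩⟩,⟨false,0,⟨0,[]⟩,⟨0,[]⟩⟩,⟨false,0,⟨0,[]⟩,⟨0,[]⟩⟩,[.e ⟨false,0,⟨0,[]⟩,⟨3,[(8,0),(0,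
  0),(18,1)]⟩⟩ ⟨false,1,⟨7,[(1,7),(5,3),(0,0),(0,4),(0,7),(10,1)]⟩,⟨0,[(2,0),(2,0)]⟩⟩,.a ⟨true,0,⟨0,
  [(0,0),(9,0)]⟩,⟨1,[(5,0),(0,0)]⟩⟩ ⟨true,0,⟨0,[(25,0)]⟩,⟨0,[(31,0)]⟩⟩ ⟨false,1,⟨1,[(9,0),(0,1),(5,
  1),(11,0)]⟩,⟨1,[(2,1),(2,0),(0,0)]⟩⟩,.o ⟨false,0,⟨0,[(2,0)]⟩,⟨3,[(8,0),(0,0),(6,3),(11,1)]⟩⟩,.o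
  ⟨false,0,⟨0,[(13,0)]⟩,⟨0,[(16,0),(11,0)]⟩⟩]⟩)) (.Q [0,1,0,1,0,0,-1,-1,0,0,1] (.p true [0,0,1] []
  (⟨0,[(19,0)]⟩,⟨0,[(18,0)]⟩) .k 0 (⟨0,[]⟩,⟨0,[]⟩) .k .k) (.Q [0,0,0,0,0,0,0,-1,0,1] (.pp false [-1,
  1]) (.R ⟨0,false,false,false,[-1,1,1],[0,0,1],[1,0,1,0,0,0,0,1],(⟨0,[(4,0)]⟩,⟨0,[(20,0),(2,0)]⟩),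
  (⟨0,[(21,0)]⟩,⟨0,[(20,0)]⟩),⟨0,[(20,0)]⟩,.k,.k,.k,.k,.k,.k,⟨false,0,⟨0,[]⟩,⟨3,[(9,0),(0,0),(18,
  1)]⟩⟩,⟨true,0,⟨0,[(3,0),(13,0)]⟩,⟨0,[(11,0),(0,0)]⟩⟩,⟨true,0,⟨0,[(28,0)]⟩,⟨0,[(27,0)]⟩⟩,⟨false,1,
  ⟨1,[(22,0),(5,1),(1,0)]⟩,⟨0,[(0,0),(1,0),(24,0)]⟩⟩,⟨false,0,⟨0,[]⟩,⟨0,[]⟩⟩,⟨false,0,⟨0,[]⟩,⟨0,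
  []⟩⟩,[.a ⟨true,0,⟨1,[(8,0),(2,0),(0,0)]⟩,⟨0,[(0,0),(2,0)]⟩⟩ ⟨false,0,⟨0,[(19,0)]⟩,⟨1,[(0,1),(21,
  0),(6,0)]⟩⟩ ⟨true,0,⟨1,[(2,0),(0,0),(10,0),(0,0),(1,0)]⟩,⟨0,[(0,0)]⟩⟩,.o ⟨false,1,⟨7,[(8,3),(0,0),
  (0,0),(11,1),(7,3)]⟩,⟨0,[(13,0)]⟩⟩,.o ⟨false,1,⟨5,[(0,3),(7,1),(0,0),(0,0),(6,1),(11,3)]⟩,⟨0,[(3,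
  1),(13,0)]⟩⟩,.e ⟨false,0,⟨0,[(2,0)]⟩,⟨3,[(0,3),(8,0),(0,0),(11,1)]⟩⟩ ⟨false,1,⟨3,[(2,3),(6,0),(0,
  0),(11,1)]⟩,⟨0,[(0,0)]⟩⟩]⟩) (.I [1,-1,-2,-1,1] (.Q [0,-1,0,1,0,0,1,1,0,2,-1] (.p false [-1,1,1]
  [1] (⟨0,[(5,0)]⟩,⟨0,[(21,0),(2,0)]⟩) .k 1 (⟨0,[]⟩,⟨0,[]⟩) .k .k) (.Q [0,0,0,0,0,0,1,1,0,0,-1] (.p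
  false [0,0,1] [] (⟨0,[(23,0)]⟩,⟨0,[(22,0)]⟩) .k 0 (⟨0,[]⟩,⟨0,[]⟩) .k .k) (.R ⟨0,false,false,false,
  [1,0,-1],[1,-1],[0,1],(⟨0,[(23,0)]⟩,⟨0,[(24,0)]⟩),(⟨0,[(26,0)]⟩,⟨0,[(27,0)]⟩),⟨0,[(7,0)]⟩,.k,.k,
  .k,.k,.k,.k,⟨false,0,⟨0,[(30,0)]⟩,⟨7,[(2,3),(9,0),(0,0),(17,3),(1,1)]⟩⟩,⟨true,0,⟨0,[(20,0)]⟩,⟨0,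
  [(5,0),(13,0)]⟩⟩,⟨false,0,⟨0,[(22,0)]⟩,⟨0,[(2,0),(1,0),(15,0),(8,0)]⟩⟩,⟨true,0,⟨0,[(0,0),(30,0)]⟩,
  ⟨0,[(4,0)]⟩⟩,⟨false,0,⟨0,[]⟩,⟨0,[]⟩⟩,⟨false,0,⟨0,[]⟩,⟨0,[]⟩⟩,[.a ⟨true,0,⟨0,[(31,0)]⟩,⟨1,[(1,0),
  (2,0)]⟩⟩ ⟨true,0,⟨0,[(35,0)]⟩,⟨0,[(29,0)]⟩⟩ ⟨false,1,⟨9,[(2,7),(9,0),(0,0),(6,9),(7,3),(2,1)]⟩,⟨0,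
  [(4,0),(0,0)]⟩⟩,.o ⟨false,1,⟨1,[(25,0),(5,1),(1,0)]⟩,⟨0,[(30,0)]⟩⟩,.o ⟨false,0,⟨0,[(6,0)]⟩,⟨3,
  [(12,0),(0,0),(6,3),(11,1)]⟩⟩,.o ⟨false,0,⟨0,[(17,0)]⟩,⟨0,[(20,0),(11,0)]⟩⟩]⟩) (.Q [0,0,0,-2,0,0,
  0,0,0,-1] (.pp true [-1,1]) (.R ⟨2,true,false,true,[0,1],[0,0,1],[0,0,1],(⟨0,[]⟩,⟨0,[]⟩),(⟨0,[(25,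
  0)]⟩,⟨0,[(24,0)]⟩),⟨0,[]⟩,.k,.k,.k,.k,.k,.k,⟨false,1,⟨1,[(1,1),(19,1),(11,0),(0,0)]⟩,⟨0,[(6,0),
  (22,0)]⟩⟩,⟨true,0,⟨0,[(21,0)]⟩,⟨2,[(1,1),(4,1),(15,0),(6,0)]⟩⟩,⟨true,0,⟨0,[(32,0)]⟩,⟨0,[(31,0)]⟩⟩,
  ⟨false,0,⟨1,[(0,0),(11,0)]⟩,⟨0,[(5,0),(28,0)]⟩⟩,⟨false,1,⟨3,[(13,0),(0,0),(19,1)]⟩,⟨0,[]⟩⟩,⟨true,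
  0,⟨0,[(19,0)]⟩,⟨0,[(1,0)]⟩⟩,[]⟩) (.Q [0,0,0,0,0,-1,0,0,0,0,1] (.ed false [1,-1,1] .k) (.K ⟨2,[0,
  -1,1],0,0,(⟨0,[(0,0)]⟩,⟨0,[(25,0),(3,0)]⟩),.k,(.r (-1) ⟨9,[(4,7),(9,0),(0,0),(8,9),(5,3),(2,11)]⟩
  ⟨0,[(1,0),(16,0),(3,0),(8,0)]⟩),.k,.k,.k,[⟨0,[(33,0)]⟩,⟨0,[(6,0)]⟩,⟨2,[(2,1),(4,1),(15,0),(6,0)]⟩,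
  ⟨1,[(22,2),(0,0)]⟩]⟩) (.R ⟨0,false,false,true,[1,-1],[2,-1,-1],[0,1],(⟨0,[(28,0)]⟩,⟨0,[(29,0)]⟩),
  (⟨0,[(25,0),(2,0)]⟩,⟨0,[(9,0)]⟩),⟨0,[(0,0),(8,0)]⟩,.k,.k,(.r (-1) ⟨9,[(4,7),(9,0),(0,0),(14,3),(2,
  11)]⟩ ⟨0,[(1,0),(17,0),(2,0)]⟩),.k,.k,.k,⟨false,0,⟨1,[(1,0),(3,0),(18,0)]⟩,⟨0,[(4,0),(16,0),(0,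
  0)]⟩⟩,⟨true,0,⟨0,[(8,0)]⟩,⟨1,[(3,0),(17,0),(0,1),(10,0)]⟩⟩,⟨false,0,⟨1,[(1,0),(17,0),(2,0)]⟩,⟨7,
  [(4,3),(9,0),(0,0),(17,3),(1,1)]⟩⟩,⟨true,0,⟨0,[(18,0)]⟩,⟨3,[(3,0),(9,1),(7,0),(11,0)]⟩⟩,⟨false,0,
  ⟨0,[]⟩,⟨0,[]⟩⟩,⟨false,0,⟨0,[]⟩,⟨0,[]⟩⟩,[.a ⟨true,0,⟨0,[(18,0),(14,0)]⟩,⟨0,[(3,0)]⟩⟩ ⟨true,0,⟨0,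
  [(37,0)]⟩,⟨0,[(31,0)]⟩⟩ ⟨false,1,⟨4,[(4,3),(13,2),(2,1),(5,0),(2,1),(2,0)]⟩,⟨1,[(1,0),(11,0),(17,
  1)]⟩⟩,.o ⟨false,1,⟨0,[(2,0),(24,0),(5,0)]⟩,⟨1,[(1,0),(11,0)]⟩⟩,.o ⟨false,0,⟨0,[(8,0),(13,0)]⟩,⟨3,
  [(14,0),(0,0),(18,1)]⟩⟩,.o ⟨false,0,⟨0,[(19,0),(2,0)]⟩,⟨0,[(34,0)]⟩⟩]⟩)))) (.Q [0,0,0,0,0,0,1,0,0,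
  2,-1] (.p false [-1,1,1] [1] (⟨0,[(6,0)]⟩,⟨0,[(22,0),(2,0)]⟩) .k 1 (⟨0,[]⟩,⟨0,[]⟩) .k .k) (.K ⟨0,
  [2,-1,-1],0,0,(⟨0,[(23,0),(2,0)]⟩,⟨0,[(7,0)]⟩),.k,(.r (-1) ⟨0,[(0,0),(0,0),(0,0)]⟩ ⟨3,[(5,1),(5,
  0),(5,0),(3,0),(7,5),(0,7)]⟩),.k,.k,.k,[⟨0,[(0,0)]⟩,⟨0,[(6,0)]⟩,⟨0,[(0,0),(21,0),(7,0)]⟩,⟨0,[(1,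
  0)]⟩]⟩) (.Q [0,0,0,1,0,0,0,0,0,1] (.pp false [-1,1]) (.R ⟨0,false,false,true,[-1,1,1],[0,1],[1,0,
  1],(⟨0,[(8,0)]⟩,⟨0,[(24,0),(2,0)]⟩),(⟨0,[(28,0)]⟩,⟨0,[(27,0)]⟩),⟨0,[(24,0)]⟩,.k,.k,.k,.k,.k,.k,
  ⟨false,1,⟨7,[(3,3),(9,0),(0,0),(17,3),(1,1)]⟩,⟨0,[(31,0)]⟩⟩,⟨true,0,⟨0,[(7,0)]⟩,⟨0,[(15,0),(0,0),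
  (4,0)]⟩⟩,⟨false,1,⟨0,[(3,0),(16,0),(0,0),(8,0)]⟩,⟨0,[(6,0),(24,0)]⟩⟩,⟨true,0,⟨0,[(17,0)]⟩,⟨1,[(12,
  0),(2,0),(0,0)]⟩⟩,⟨false,0,⟨0,[]⟩,⟨0,[]⟩⟩,⟨false,0,⟨0,[]⟩,⟨0,[]⟩⟩,[.o ⟨false,0,⟨0,[(31,0)]⟩,⟨1,
  [(26,0),(5,1),(1,0)]⟩⟩,.a ⟨true,0,⟨0,[(0,0)]⟩,⟨0,[(32,0)]⟩⟩ ⟨true,0,⟨0,[(30,0)]⟩,⟨0,[(36,0)]⟩⟩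
  ⟨false,0,⟨0,[(0,0),(0,0)]⟩,⟨2,[(3,1),(7,1),(2,0),(0,2),(0,0),(4,2),(10,0)]⟩⟩,.o ⟨false,1,⟨3,[(0,
  1),(2,1),(7,1),(2,0),(0,1),(5,3),(11,0)]⟩,⟨2,[(1,1),(16,1),(2,0)]⟩⟩,.o ⟨false,1,⟨11,[(0,3),(2,3),
  (7,3),(1,2),(0,4),(0,7),(0,3),(4,11)]⟩,⟨0,[(1,0)]⟩⟩]⟩) (.Q [0,1,1,0,0,0,0,0,1,1,0,-1] (.p false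
  [0,0,0,1] [1] (⟨0,[(16,0)]⟩,⟨0,[(15,0)]⟩) .k 1 (⟨0,[]⟩,⟨0,[]⟩) .k .k) (.R ⟨2,false,false,true,[0,
  1],[0,0,0,1],[1,1,0,0,0,0,0,0,1],(⟨0,[]⟩,⟨0,[]⟩),(⟨0,[(17,0)]⟩,⟨0,[(16,0)]⟩),⟨0,[]⟩,.k,.k,.k,(.r
  0 ⟨1,[(10,1),(11,0),(0,0),(8,1)]⟩ ⟨19,[(4,7),(9,0),(0,10),(14,3),(2,11)]⟩),.k,.k,⟨true,0,⟨0,[]⟩,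
  ⟨1,[(22,0),(0,0)]⟩⟩,⟨false,0,⟨2,[(2,0),(13,2),(2,0),(2,1)]⟩,⟨0,[(17,0),(16,0)]⟩⟩,⟨false,1,⟨19,[(4,
  7),(9,0),(0,10),(14,3),(2,11)]⟩,⟨0,[(10,0),(20,0),(0,0)]⟩⟩,⟨true,0,⟨0,[(0,0),(0,0)]⟩,⟨0,[(11,0),
  (20,0)]⟩⟩,⟨false,1,⟨1,[(15,0),(18,0)]⟩,⟨1,[(10,1),(11,0),(0,0)]⟩⟩,⟨false,1,⟨1,[(0,1),(26,0),(7,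
  0)]⟩,⟨0,[(11,0)]⟩⟩,[.a ⟨true,0,⟨0,[(0,0)]⟩,⟨0,[(11,0)]⟩⟩ ⟨false,1,⟨7,[(14,0),(0,4),(14,3),(3,1)]⟩,
  ⟨0,[(10,0)]⟩⟩ ⟨true,0,⟨2,[(0,2),(1,0),(16,0),(2,1)]⟩,⟨0,[(11,0)]⟩⟩,.o ⟨false,1,⟨1,[(0,1),(26,0),
  (7,0)]⟩,⟨1,[(2,0),(8,1),(10,0),(7,0)]⟩⟩,.o ⟨false,1,⟨3,[(14,0),(0,0),(18,1)]⟩,⟨2,[(2,0),(16,0),(2,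
  1)]⟩⟩,.e ⟨false,1,⟨1,[(15,0),(18,0)]⟩,⟨1,[(10,1),(11,0),(0,0)]⟩⟩ ⟨false,1,⟨1,[(0,1),(26,0),(7,
  0)]⟩,⟨0,[(11,0)]⟩⟩]⟩) (.Q [0,0,0,0,0,1,0,0,0,-1,0,1] (.p true [0,0,0,1] [1] (⟨0,[(17,0)]⟩,⟨0,[(16,
  0)]⟩) .k 1 (⟨0,[]⟩,⟨0,[]⟩) .k .k) (.I [0,0,-2,-1,0,0,0,0,-1] (.R ⟨0,false,false,true,[1,0,0,-1],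
  [0,1],[0,1,0,0,0,0,0,0,-1],(⟨0,[(18,0)]⟩,⟨0,[(19,0)]⟩),(⟨0,[(31,0)]⟩,⟨0,[(30,0)]⟩),⟨0,[(1,0)]⟩,.k,
  .k,(.x (-1) ⟨3,[(16,0),(0,0),(11,1),(0,3)]⟩ ⟨0,[(31,0)]⟩),(.x (-1) ⟨3,[(16,0),(0,0),(11,1),(0,
  3)]⟩ ⟨0,[(31,0)]⟩),.k,.k,⟨false,0,⟨0,[(0,0)]⟩,⟨1,[(17,0),(6,0),(0,0),(8,1),(2,0)]⟩⟩,⟨true,0,⟨0,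
  [(18,0)]⟩,⟨2,[(4,0),(14,2),(1,0),(2,1)]⟩⟩,⟨true,0,⟨0,[(39,0)]⟩,⟨0,[]⟩⟩,⟨false,1,⟨1,[(17,0),(0,1),
  (5,0),(0,0),(8,1),(2,0)]⟩,⟨0,[(2,0),(32,0)]⟩⟩,⟨false,0,⟨0,[]⟩,⟨0,[]⟩⟩,⟨false,0,⟨0,[]⟩,⟨0,[]⟩⟩,[.o
  ⟨false,0,⟨0,[(34,0)]⟩,⟨1,[(29,0),(5,1),(1,0)]⟩⟩,.o ⟨false,1,⟨3,[(16,0),(0,0),(16,3),(2,1)]⟩,⟨0,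
  [(3,0)]⟩⟩,.o ⟨false,1,⟨5,[(2,1),(11,3),(2,2),(11,1),(7,0)]⟩,⟨2,[(4,0),(13,2),(2,0),(2,1)]⟩⟩,.a
  ⟨true,0,⟨0,[(19,0)]⟩,⟨0,[(18,0)]⟩⟩ ⟨false,0,⟨1,[(0,0),(11,0),(21,0)]⟩,⟨1,[(17,0),(6,0),(0,0),(11,
  0)]⟩⟩ ⟨true,0,⟨0,[(18,0),(15,0)]⟩,⟨0,[(3,0),(15,0)]⟩⟩]⟩) (.Q [0,0,0,0,0,1,0,0,0,0,-1] (.ed true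
  [1,-1,1] .k) (.K ⟨2,[1,-1,1],0,0,(⟨0,[(29,0),(1,0)]⟩,⟨0,[(0,0)]⟩),.k,(.r (-1) ⟨9,[(7,7),(9,0),(0,
  0),(8,9),(5,3),(2,11)]⟩ ⟨0,[(1,0),(1,0),(5,0),(9,0),(5,0)]⟩),.k,.k,.k,[⟨0,[(4,0)]⟩,⟨0,[(9,0),(9,
  0),(0,0)]⟩,⟨0,[(10,0),(8,0),(0,0),(3,0)]⟩,⟨2,[(5,0),(16,0),(2,4)]⟩]⟩) (.K ⟨2,[0,-1,1],0,0,(⟨0,[(0,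
  0)]⟩,⟨0,[(28,0),(3,0)]⟩),.k,(.r (-1) ⟨9,[(7,7),(9,0),(0,0),(8,9),(5,3),(2,11)]⟩ ⟨0,[(1,0),(1,0),
  (5,0),(9,0),(5,0)]⟩),.k,.k,.k,[⟨0,[(36,0)]⟩,⟨0,[(9,0)]⟩,⟨0,[(10,0),(13,0)]⟩,⟨1,[(25,2),(0,
  0)]⟩]⟩))) (.I [0,0,-2,-2,0,0,0,0,-1] (.R ⟨1,false,false,true,[1,0,0,-1],[0,1],[0,1,0,-1,0,0,0,0,
  -1],(⟨0,[(18,0)]⟩,⟨0,[(19,0)]⟩),(⟨0,[(31,0)]⟩,⟨0,[(30,0)]⟩),⟨0,[(1,0)]⟩,.k,.k,(.x (-1) ⟨3,[(16,0),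
  (0,0),(11,1),(0,3)]⟩ ⟨0,[(31,0)]⟩),(.x (-1) ⟨3,[(16,0),(0,0),(11,1),(0,3)]⟩ ⟨0,[(31,0)]⟩),(.r 0
  ⟨0,[(0,0)]⟩ ⟨1,[(17,0),(6,0),(0,0),(7,1),(0,3),(2,0)]⟩),.k,⟨false,0,⟨0,[(0,0)]⟩,⟨1,[(17,0),(15,1),
  (0,3),(2,0)]⟩⟩,⟨true,0,⟨0,[(18,0)]⟩,⟨2,[(4,0),(14,2),(1,0),(2,1)]⟩⟩,⟨false,0,⟨0,[(35,0)]⟩,⟨0,[(34,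
  0),(2,0)]⟩⟩,⟨false,1,⟨1,[(17,0),(0,1),(5,0),(0,0),(8,1),(2,0)]⟩,⟨0,[(2,0),(32,0)]⟩⟩,⟨true,0,⟨0,
  [(39,0)]⟩,⟨0,[]⟩⟩,⟨false,1,⟨1,[(17,0),(0,1),(14,1),(0,3),(2,0)]⟩,⟨0,[(2,0),(32,1)]⟩⟩,[.o ⟨false,0,
  ⟨0,[(34,0)]⟩,⟨1,[(29,0),(5,1),(1,0)]⟩⟩,.o ⟨false,1,⟨3,[(16,0),(0,0),(16,3),(2,1)]⟩,⟨0,[(3,0)]⟩⟩,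
  .o ⟨false,1,⟨5,[(2,1),(11,3),(2,2),(11,1),(7,0)]⟩,⟨2,[(4,0),(13,2),(2,0),(2,1)]⟩⟩,.a ⟨true,0,⟨0,
  [(19,0)]⟩,⟨0,[(18,0)]⟩⟩ ⟨false,0,⟨21,[(0,9),(4,1),(6,7),(1,3),(3,3),(3,1),(1,0),(0,0)]⟩,⟨1,[(17,
  0),(15,1),(0,1),(2,0)]⟩⟩ ⟨true,0,⟨0,[(18,0),(15,0)]⟩,⟨0,[(3,0),(15,0)]⟩⟩]⟩) (.Q [0,0,0,0,0,-1,0,0,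
  0,0,1] (.ed false [1,-1,1] .k) (.K ⟨2,[0,-1,1],0,0,(⟨0,[(0,0)]⟩,⟨0,[(28,0),(3,0)]⟩),.k,(.r (-1)
  ⟨9,[(7,7),(9,0),(0,0),(8,9),(5,3),(2,11)]⟩ ⟨1,[(1,0),(1,0),(5,1),(9,0),(5,1),(8,0)]⟩),.k,.k,.k,
  [⟨0,[(36,0)]⟩,⟨0,[(9,0)]⟩,⟨0,[(10,0),(13,0)]⟩,⟨1,[(25,2),(0,0)]⟩]⟩) (.K ⟨2,[1,-1,1],0,0,(⟨0,[(29,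
  0),(1,0)]⟩,⟨0,[(0,0)]⟩),.k,(.r (-1) ⟨9,[(7,7),(9,0),(0,0),(8,9),(5,3),(2,11)]⟩ ⟨1,[(1,0),(1,0),(5,
  1),(9,0),(5,1),(8,0)]⟩),.k,.k,.k,[⟨0,[(4,0)]⟩,⟨0,[(9,0),(9,0),(0,0)]⟩,⟨0,[(10,0),(8,0),(0,0),(3,
  0)]⟩,⟨2,[(5,0),(16,0),(2,4)]⟩]⟩)))))))) (.Q [0,0,0,-1,0,0,1,1,0,0,-1] (.p false [0,0,1] [] (⟨0,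
  [(22,0)]⟩,⟨0,[(21,0)]⟩) .k 0 (⟨0,[]⟩,⟨0,[]⟩) .k .k) (.R ⟨0,false,false,false,[1,0,-1],[1,-1],[0,
  1],(⟨0,[(22,0)]⟩,⟨0,[(23,0)]⟩),(⟨0,[(25,0)]⟩,⟨0,[(26,0)]⟩),⟨0,[(6,0)]⟩,.k,.k,.k,.k,.k,.k,⟨false,0,
  ⟨0,[(29,0)]⟩,⟨1,[(30,1),(0,0),(0,0)]⟩⟩,⟨true,0,⟨0,[(19,0)]⟩,⟨0,[(4,0),(13,0)]⟩⟩,⟨false,0,⟨0,[(21,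
  0)]⟩,⟨1,[(8,1),(3,0),(0,1),(1,1),(3,1),(12,0)]⟩⟩,⟨true,0,⟨0,[(0,0)]⟩,⟨0,[(3,0)]⟩⟩,⟨false,0,⟨0,[]⟩,
  ⟨0,[]⟩⟩,⟨false,0,⟨0,[]⟩,⟨0,[]⟩⟩,[.a ⟨true,0,⟨0,[(30,0)]⟩,⟨1,[(1,0),(6,1),(3,0),(0,1),(15,0)]⟩⟩
  ⟨true,0,⟨0,[(34,0)]⟩,⟨0,[(28,0)]⟩⟩ ⟨false,1,⟨0,[(19,0),(10,0),(0,0)]⟩,⟨0,[(3,0),(0,0)]⟩⟩,.o
  ⟨false,1,⟨1,[(24,0),(5,1),(1,0)]⟩,⟨0,[(29,0)]⟩⟩,.o ⟨false,0,⟨0,[(5,0)]⟩,⟨3,[(11,0),(0,0),(6,3),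
  (11,1)]⟩⟩,.o ⟨false,0,⟨0,[(16,0)]⟩,⟨0,[(19,0),(11,0)]⟩⟩]⟩) (.R ⟨0,false,false,true,[1,0,-1],[1,
  -1],[1,0,1],(⟨0,[(22,0)]⟩,⟨0,[(23,0)]⟩),(⟨0,[(25,0)]⟩,⟨0,[(26,0)]⟩),⟨0,[(6,0)]⟩,.k,.k,.k,.k,.k,.k,
  ⟨false,0,⟨0,[(0,0),(3,0),(14,0)]⟩,⟨7,[(11,0),(0,0),(14,3),(2,7),(0,5)]⟩⟩,⟨true,0,⟨0,[(19,0)]⟩,⟨0,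
  [(4,0),(13,0)]⟩⟩,⟨false,0,⟨3,[(4,1),(5,0),(5,0),(3,0),(7,1)]⟩,⟨0,[(0,0),(18,0),(10,0),(0,0)]⟩⟩,
  ⟨true,0,⟨0,[(17,0),(12,0)]⟩,⟨0,[(0,0)]⟩⟩,⟨false,0,⟨0,[]⟩,⟨0,[]⟩⟩,⟨false,0,⟨0,[]⟩,⟨0,[]⟩⟩,[.e
  ⟨false,0,⟨0,[]⟩,⟨3,[(11,0),(0,0),(18,1)]⟩⟩ ⟨false,1,⟨7,[(11,0),(0,0),(6,7),(7,3),(2,7),(0,5)]⟩,⟨0,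
  [(0,0),(3,0)]⟩⟩,.a ⟨true,0,⟨0,[(30,0)]⟩,⟨1,[(0,1),(9,0),(2,0),(0,0)]⟩⟩ ⟨true,0,⟨0,[(28,0)]⟩,⟨0,
  [(34,0)]⟩⟩ ⟨false,1,⟨0,[(19,0),(10,0),(0,0)]⟩,⟨0,[(3,0),(0,0)]⟩⟩,.o ⟨false,0,⟨0,[(5,0)]⟩,⟨3,[(11,
  0),(0,0),(6,3),(11,1)]⟩⟩,.o ⟨false,0,⟨0,[(16,0)]⟩,⟨0,[(19,0),(11,0)]⟩⟩]⟩)))) (.I [0,0,-1,-1,0,0,0,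
  1] (.R ⟨2,true,false,false,[0,1],[0,0,1],[1,0,1,1],(⟨0,[]⟩,⟨0,[]⟩),(⟨0,[(21,0)]⟩,⟨0,[(20,0)]⟩),⟨0,
  []⟩,.k,.k,.k,.k,.k,.k,⟨false,1,⟨1,[(6,1),(3,0),(0,1),(1,1),(3,1),(9,1),(2,0)]⟩,⟨0,[(0,0)]⟩⟩,⟨true,
  0,⟨0,[(17,0)]⟩,⟨0,[(2,0),(13,0)]⟩⟩,⟨true,0,⟨0,[]⟩,⟨0,[(32,0)]⟩⟩,⟨false,0,⟨0,[(1,0)]⟩,⟨0,[(16,0),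
  (10,0),(2,0)]⟩⟩,⟨false,1,⟨0,[(27,0),(2,0)]⟩,⟨0,[(28,0)]⟩⟩,⟨true,0,⟨0,[(1,0),(25,0)]⟩,⟨0,[(16,
  0)]⟩⟩,[]⟩) (.Q [0,0,0,0,0,0,1,0,0,2,-1] (.p false [-1,1,1] [1] (⟨0,[(4,0)]⟩,⟨0,[(20,0),(2,0)]⟩)
  .k 1 (⟨0,[]⟩,⟨0,[]⟩) .k .k) (.K ⟨0,[2,-1,-1],0,0,(⟨0,[(21,0),(2,0)]⟩,⟨0,[(5,0)]⟩),.k,(.r (-1) ⟨1,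
  [(0,1),(1,3),(4,1),(3,0),(0,1),(1,5),(15,0)]⟩ ⟨1,[(1,1),(1,1),(5,0),(5,0),(3,0),(8,1)]⟩),.k,.k,.k,
  [⟨0,[(0,0)]⟩,⟨0,[(4,0)]⟩,⟨0,[(0,0),(19,0),(7,0)]⟩,⟨0,[(2,0),(11,1)]⟩]⟩) (.Q [0,0,0,0,0,1,0,0,0,-1,
  0,1] (.p true [0,0,0,1] [1] (⟨0,[(13,0)]⟩,⟨0,[(12,0)]⟩) .k 1 (⟨0,[]⟩,⟨0,[]⟩) .k .k) (.R ⟨0,false,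
  false,false,[1,0,0,-1],[0,0,1],[0,1,0,0,0,0,0,0,-1],(⟨0,[(13,0)]⟩,⟨0,[(14,0)]⟩),(⟨0,[(23,0)]⟩,⟨0,
  [(22,0)]⟩),⟨0,[(0,0)]⟩,.k,.k,(.x (-1) ⟨3,[(11,0),(0,0),(11,1),(0,3)]⟩ ⟨0,[(26,0)]⟩),.k,.k,.k,
  ⟨false,0,⟨0,[(2,0),(0,0),(4,0),(4,0),(1,0),(11,0)]⟩,⟨3,[(4,3),(6,0),(0,2)]⟩⟩,⟨true,0,⟨0,[(13,0),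
  (5,0)]⟩,⟨0,[(5,0),(8,0)]⟩⟩,⟨true,0,⟨0,[(34,0)]⟩,⟨0,[]⟩⟩,⟨false,1,⟨3,[(10,1),(1,1),(0,3),(5,0),(0,
  0),(3,0),(3,1),(3,0)]⟩,⟨0,[(8,0),(6,0)]⟩⟩,⟨false,0,⟨0,[]⟩,⟨0,[]⟩⟩,⟨false,0,⟨0,[]⟩,⟨0,[]⟩⟩,[.o
  ⟨false,0,⟨0,[(3,0),(25,0)]⟩,⟨1,[(18,1),(5,0),(7,0)]⟩⟩,.o ⟨false,1,⟨7,[(10,3),(0,0),(0,0),(11,1),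
  (7,3)]⟩,⟨0,[(15,0)]⟩⟩,.o ⟨false,1,⟨1,[(14,1),(9,0),(6,0)]⟩,⟨2,[(1,0),(11,2),(2,0),(2,1)]⟩⟩,.a
  ⟨true,0,⟨0,[(14,0)]⟩,⟨0,[(13,0)]⟩⟩ ⟨false,0,⟨2,[(1,0),(0,0),(0,0),(3,0),(0,1),(4,1),(13,1)]⟩,⟨1,
  [(12,0),(6,0),(0,0),(11,0)]⟩⟩ ⟨true,0,⟨0,[(3,0),(9,0),(15,0)]⟩,⟨0,[(14,0),(0,0)]⟩⟩]⟩) (.I [1,0,-1,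
  -1,0,0,0,1] (.N [0,-1,1] 0 ⟨0,[(0,0)]⟩ ⟨0,[(3,0)]⟩ .k) (.I [0,0,-1,-1,0,0,0,-1,-1] (.R ⟨1,false,
  false,false,[1,0,0,-1],[0,0,1],[0,0,0,-1,0,0,0,0,-1],(⟨0,[(15,0)]⟩,⟨0,[(16,0)]⟩),(⟨0,[(25,0)]⟩,⟨0,
  [(24,0)]⟩),⟨0,[(2,0)]⟩,.k,.k,(.x (-1) ⟨3,[(13,0),(0,0),(11,1),(0,3)]⟩ ⟨0,[(28,0)]⟩),.k,(.r 0 ⟨0,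
  [(0,0)]⟩ ⟨13,[(1,1),(4,3),(5,5),(1,6),(7,11),(3,2),(4,11),(2,3)]⟩),.k,⟨false,0,⟨0,[(0,0)]⟩,⟨3,[(6,
  3),(6,0),(0,2),(16,3)]⟩⟩,⟨true,0,⟨0,[(15,0),(5,0)]⟩,⟨0,[(7,0),(8,0)]⟩⟩,⟨true,0,⟨0,[(32,0)]⟩,⟨0,
  [(31,0)]⟩⟩,⟨false,1,⟨3,[(12,1),(1,1),(0,3),(5,0),(0,0),(3,0),(3,1),(3,0)]⟩,⟨0,[(10,0),(6,0)]⟩⟩,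
  ⟨false,1,⟨3,[(13,0),(0,0),(19,1)]⟩,⟨0,[]⟩⟩,⟨false,1,⟨13,[(1,11),(4,9),(5,7),(1,6),(0,13),(6,1),(3,
  3),(4,1),(2,2)]⟩,⟨0,[(0,0),(6,0),(8,0)]⟩⟩,[.o ⟨false,0,⟨0,[(5,0),(25,0)]⟩,⟨1,[(20,1),(5,0),(7,
  0)]⟩⟩,.o ⟨false,1,⟨7,[(12,3),(0,0),(0,0),(11,1),(7,3)]⟩,⟨0,[(17,0)]⟩⟩,.o ⟨false,1,⟨1,[(16,1),(9,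
  0),(6,0)]⟩,⟨2,[(3,0),(11,2),(2,0),(2,1)]⟩⟩,.a ⟨true,0,⟨0,[(16,0)]⟩,⟨0,[(15,0)]⟩⟩ ⟨false,0,⟨0,[(0,
  0),(5,0)]⟩,⟨15,[(1,7),(10,3),(0,0),(0,8),(7,7),(3,1),(4,7),(2,3)]⟩⟩ ⟨true,0,⟨0,[(5,0),(9,0),(15,
  0)]⟩,⟨0,[(16,0),(0,0)]⟩⟩]⟩) (.R ⟨1,false,false,false,[1,0,0,-1],[0,0,1],[1,1,0,0,0,0,0,0,-1],(⟨0,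
  [(15,0)]⟩,⟨0,[(16,0)]⟩),(⟨0,[(25,0)]⟩,⟨0,[(24,0)]⟩),⟨0,[(2,0)]⟩,.k,.k,(.x (-1) ⟨3,[(13,0),(0,0),
  (11,1),(0,3)]⟩ ⟨0,[(28,0)]⟩),.k,(.x 0 ⟨0,[(3,0),(20,0),(2,0)]⟩ ⟨3,[(13,0),(0,0),(6,3),(3,3),(2,3),
  (4,1)]⟩),.k,⟨false,0,⟨0,[(1,0),(3,0),(4,0),(4,0),(1,0),(11,0)]⟩,⟨3,[(6,3),(6,0),(0,2)]⟩⟩,⟨true,0,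
  ⟨0,[(15,0),(5,0)]⟩,⟨0,[(7,0),(8,0)]⟩⟩,⟨false,0,⟨0,[]⟩,⟨3,[(13,0),(0,0),(19,1)]⟩⟩,⟨false,1,⟨11,[(0,
  1),(4,1),(6,3),(1,4),(0,11),(5,5),(0,3),(3,1),(7,4)]⟩,⟨0,[(10,0),(6,0)]⟩⟩,⟨true,0,⟨0,[(31,0)]⟩,⟨0,
  [(32,0)]⟩⟩,⟨false,1,⟨3,[(0,1),(0,1),(10,1),(1,0),(0,3),(10,0),(7,1)]⟩,⟨0,[(10,0),(6,0),(14,0)]⟩⟩,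
  [.o ⟨false,0,⟨0,[(5,0),(25,0)]⟩,⟨1,[(20,1),(5,0),(7,0)]⟩⟩,.o ⟨false,1,⟨7,[(12,3),(0,0),(0,0),(11,
  1),(7,3)]⟩,⟨0,[(17,0)]⟩⟩,.o ⟨false,1,⟨1,[(16,1),(9,0),(6,0)]⟩,⟨2,[(3,0),(11,2),(2,0),(2,1)]⟩⟩,.a
  ⟨true,0,⟨0,[(16,0)]⟩,⟨0,[(15,0)]⟩⟩ ⟨false,0,⟨2,[(1,0),(1,0),(1,0),(3,0),(0,1),(4,1),(13,1)]⟩,⟨1,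
  [(14,0),(6,0),(0,0),(11,0)]⟩⟩ ⟨true,0,⟨0,[(5,0),(9,0),(15,0)]⟩,⟨0,[(16,0),(0,0)]⟩⟩]⟩))))))))

theorem ok12 : chk (cU (-1) true 3) t12 r8 = true := by decide +kernel

noncomputable def t13 : Tre :=
  .Q [0,0,0,0,0,0,1,0,0,1,-1] (.p false [0,0,1] [1] (⟨0,[(17,0)]⟩,⟨0,[(16,0)]⟩) .k 1 (⟨0,[]⟩,⟨0,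
  []⟩) .k .k) t11 t12

theorem ok13 : chk (cU (-1) true 3) t13 r3 = true :=
  chk_Q (e' := [0,0,0,0,0,0,-1,0,0,-1,1]) (by decide +kernel) (by decide +kernel) ok11 ok12

noncomputable def t14 : Tre :=
  .Q [0,0,0,0,0,-1,0,0,0,1,-1] (.ed true [0,1,1] .k) t10 t13

theorem ok14 : chk (cU (-1) true 3) t14 r2 = true :=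
  chk_Q (e' := [0,0,0,0,0,1,0,0,0,-1,1]) (by decide +kernel) (by decide +kernel) ok10 ok13

noncomputable def t15 : Tre :=
  .I [1,1,0,0,0,0,0,0,1] t1 t14

theorem ok15 : chk (cU (-1) true 3) t15 r1 = true :=
  chk_I (e' := [0,-1,0,0,0,0,0,0,-1]) (by decide +kernel) (by decide +kernel) ok1 ok14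

noncomputable def t16 : Tre :=
  .Q [0,1,1,0,0,0,0,0,1,0,0,-1] (.p false [0,0,0,1] [] (⟨0,[(5,0)]⟩,⟨0,[(4,0)]⟩) .k 0 (⟨0,[]⟩,⟨0,
  []⟩) .k .k) t0 t15

theorem ok16 : chk (cU (-1) true 3) t16 l0 = true :=
  chk_Q (e' := [0,-1,-1,0,0,0,0,0,-1,0,0,1]) (by decide +kernel) (by decide +kernel) ok0 ok15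

noncomputable def l9 : List Con := (true, [0,1,0,-1,-1,0,0,0,1]) :: r0

noncomputable def r9 : List Con := (true, [1,-1,0,1,1,0,0,0,-1]) :: r0

noncomputable def t17 : Tre :=
  (.Q [0,1,1,0,-1,0,0,0,1,0,0,-1] (.p false [0,0,0,1] [] (⟨0,[(6,0)]⟩,⟨0,[(5,0)]⟩) .k 0 (⟨0,[]⟩,⟨0,
  []⟩) .k .k) (.K ⟨0,[0,0,0,1],0,(-1),(⟨0,[(7,0)]⟩,⟨0,[(6,0)]⟩),.k,(.r 0 ⟨1,[(1,1),(22,0),(0,0)]⟩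
  ⟨1,[(4,0),(7,0),(0,0),(8,1),(2,0)]⟩),(.x 0 ⟨0,[(19,0)]⟩ ⟨3,[(4,0),(0,0),(11,1),(0,3)]⟩),.k,.k,[⟨0,
  [(7,0)]⟩,⟨0,[(6,0)]⟩,⟨7,[(4,4),(0,0),(1,7),(12,3),(3,1)]⟩,⟨0,[(0,0)]⟩]⟩) (.Q [0,0,0,0,0,0,-1,-1,0,
  0,1] (.p true [0,0,1] [] (⟨0,[(16,0)]⟩,⟨0,[(15,0)]⟩) .k 0 (⟨0,[]⟩,⟨0,[]⟩) .k .k) (.Q [0,0,0,-1,0,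
  0,1,1,0,0,-1] (.p false [0,0,1] [] (⟨0,[(17,0)]⟩,⟨0,[(16,0)]⟩) .k 0 (⟨0,[]⟩,⟨0,[]⟩) .k .k) (.R ⟨2,
  true,false,true,[0,1],[0,0,1],[0,1],(⟨0,[]⟩,⟨0,[]⟩),(⟨0,[(18,0)]⟩,⟨0,[(17,0)]⟩),⟨0,[]⟩,.k,.k,.k,
  .k,.k,.k,⟨false,1,⟨0,[(1,0),(12,0),(11,0)]⟩,⟨0,[(16,0)]⟩⟩,⟨true,0,⟨0,[(14,0)]⟩,⟨0,[(1,0),(14,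
  0)]⟩⟩,⟨true,0,⟨1,[(3,1),(2,0),(19,0)]⟩,⟨0,[(23,0),(0,0)]⟩⟩,⟨false,0,⟨0,[(0,0)]⟩,⟨0,[(1,0),(22,0),
  (2,0)]⟩⟩,⟨false,1,⟨3,[(6,0),(0,0),(18,1)]⟩,⟨0,[(23,0)]⟩⟩,⟨true,0,⟨0,[(12,0)]⟩,⟨0,[(1,0)]⟩⟩,[]⟩)
  (.Q [0,0,0,0,0,1,0,0,0,0,-1] (.ed true [1,-1,1] .k) (.Q [0,0,0,-1,0,0,-1,0,0,-1,1] (.p true [0,0,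
  1] [1] (⟨0,[(19,0)]⟩,⟨0,[(18,0)]⟩) .k 1 (⟨0,[]⟩,⟨0,[]⟩) .k .k) (.I [0,0,-1,0,0,1,-2] (.K ⟨2,[0,1,
  -1],0,0,(⟨0,[(2,0)]⟩,⟨0,[(21,0),(1,0)]⟩),.k,.k,(.r 0 ⟨0,[(3,0),(13,0),(8,0),(0,0)]⟩ ⟨0,[(19,0),(8,
  1),(0,0)]⟩),(.x 0 ⟨0,[(0,0)]⟩ ⟨1,[(17,3),(3,3),(0,0),(0,1),(5,0)]⟩),.k,[⟨0,[(3,0),(0,0)]⟩,⟨0,[(15,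
  0),(12,0)]⟩,⟨1,[(17,2),(0,0)]⟩,⟨4,[(0,0),(0,0),(1,0),(14,0),(0,0),(1,1),(1,0)]⟩]⟩) (.R ⟨0,false,
  false,true,[0,0,1],[1,0,-1],[],(⟨0,[(21,0)]⟩,⟨0,[(20,0)]⟩),(⟨0,[(20,0)]⟩,⟨0,[(21,0)]⟩),⟨0,[(2,
  0)]⟩,.k,.k,.k,.k,.k,.k,⟨false,1,⟨1,[(19,1),(9,0),(0,0)]⟩,⟨3,[(0,1),(1,1),(0,1),(2,1),(2,0),(3,1),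
  (6,1),(8,0)]⟩⟩,⟨true,0,⟨0,[(1,0),(1,0),(15,0)]⟩,⟨0,[(0,0),(1,0),(17,0)]⟩⟩,⟨false,1,⟨1,[(4,1),(12,
  1),(11,0),(0,0)]⟩,⟨0,[(19,0)]⟩⟩,⟨true,0,⟨0,[(4,0),(8,0)]⟩,⟨0,[(8,0)]⟩⟩,⟨false,0,⟨0,[]⟩,⟨0,[]⟩⟩,
  ⟨false,0,⟨0,[]⟩,⟨0,[]⟩⟩,[.o ⟨false,0,⟨0,[(13,0)]⟩,⟨7,[(8,3),(0,0),(0,0),(11,1),(7,3)]⟩⟩,.a ⟨true,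
  0,⟨0,[(4,0)]⟩,⟨1,[(8,0),(2,0),(0,0)]⟩⟩ ⟨false,1,⟨1,[(29,0),(0,0)]⟩,⟨0,[(32,0)]⟩⟩ ⟨true,0,⟨0,[(1,
  0),(1,0)]⟩,⟨7,[(0,1),(7,3),(8,4),(0,0),(1,3),(3,1)]⟩⟩,.e ⟨false,1,⟨3,[(9,0),(0,0),(19,1)]⟩,⟨0,
  []⟩⟩ ⟨false,0,⟨0,[(1,0),(1,0)]⟩,⟨7,[(0,1),(1,1),(2,1),(2,3),(1,0),(0,1),(5,3),(2,1),(8,1),(0,
  2)]⟩⟩,.o ⟨false,0,⟨0,[(17,0)]⟩,⟨0,[(14,0),(14,0)]⟩⟩]⟩)) (.R ⟨0,false,false,true,[0,0,1],[1,-1],[],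
  (⟨0,[(20,0)]⟩,⟨0,[(19,0)]⟩),(⟨0,[(22,0)]⟩,⟨0,[(23,0)]⟩),⟨0,[(1,0)]⟩,.k,.k,.k,.k,.k,.k,⟨false,1,⟨0,
  [(26,0),(2,0)]⟩,⟨1,[(5,1),(2,0),(19,0)]⟩⟩,⟨true,0,⟨0,[(13,0)]⟩,⟨0,[(0,0),(26,0)]⟩⟩,⟨false,1,⟨1,
  [(3,1),(12,1),(11,0),(0,0)]⟩,⟨0,[(18,0)]⟩⟩,⟨true,0,⟨0,[(12,0),(14,0)]⟩,⟨0,[(2,0),(4,0)]⟩⟩,⟨false,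
  0,⟨0,[]⟩,⟨0,[]⟩⟩,⟨false,0,⟨0,[]⟩,⟨0,[]⟩⟩,[.o ⟨false,0,⟨1,[(5,1),(2,0),(12,0)]⟩,⟨0,[(26,0),(2,
  0)]⟩⟩,.e ⟨false,1,⟨1,[(28,0),(0,0)]⟩,⟨0,[(31,0)]⟩⟩ ⟨false,1,⟨0,[(13,0),(13,0),(0,0)]⟩,⟨0,[(0,
  0)]⟩⟩,.a ⟨true,0,⟨0,[(0,0),(26,0)]⟩,⟨0,[(3,0),(14,0)]⟩⟩ ⟨false,1,⟨3,[(8,0),(0,0),(19,1)]⟩,⟨0,[]⟩⟩
  ⟨true,0,⟨0,[(12,0),(5,0),(8,0)]⟩,⟨0,[(0,0)]⟩⟩,.o ⟨false,0,⟨0,[(16,0)]⟩,⟨0,[(13,0),(14,0)]⟩⟩]⟩))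
  (.K ⟨2,[0,-1,1],0,0,(⟨0,[(0,0)]⟩,⟨0,[(18,0),(3,0)]⟩),.k,(.r (-1) ⟨0,[(17,0),(8,1),(0,0)]⟩ ⟨0,[(1,
  0),(13,0),(8,0),(0,0)]⟩),.k,.k,.k,[⟨0,[(26,0)]⟩,⟨1,[(1,0),(12,0),(10,0)]⟩,⟨0,[(2,0),(14,0)]⟩,⟨1,
  [(15,2),(0,0)]⟩]⟩))) (.R ⟨2,false,false,true,[0,1],[0,0,0,1],[],(⟨0,[]⟩,⟨0,[]⟩),(⟨0,[(8,0)]⟩,⟨0,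
  [(7,0)]⟩),⟨0,[]⟩,.k,.k,.k,(.r (-1) ⟨1,[(5,0),(7,0),(0,0),(8,1),(2,0)]⟩ ⟨1,[(2,1),(22,0),(0,0)]⟩),
  .k,.k,⟨true,1,⟨1,[(5,0),(20,0)]⟩,⟨0,[(2,0),(19,0),(0,0)]⟩⟩,⟨false,0,⟨0,[(0,0),(6,0),(1,0),(12,
  0)]⟩,⟨0,[(8,0),(16,0)]⟩⟩,⟨false,1,⟨1,[(24,1),(0,0),(0,0)]⟩,⟨0,[(22,0),(0,0)]⟩⟩,⟨true,(-1),⟨0,[(0,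
  0),(1,0),(4,0),(1,0),(12,0)]⟩,⟨0,[(1,0),(21,0)]⟩⟩,⟨false,1,⟨1,[(25,0),(0,0)]⟩,⟨1,[(13,0),(0,0)]⟩⟩,
  ⟨false,0,⟨0,[(3,0),(24,0)]⟩,⟨0,[(1,0)]⟩⟩,[.a ⟨true,(-1),⟨0,[(2,0),(4,0),(14,0),(0,0)]⟩,⟨0,[(1,
  0)]⟩⟩ ⟨false,1,⟨3,[(5,0),(0,0),(18,1)]⟩,⟨0,[]⟩⟩ ⟨true,(-1),⟨0,[(0,0),(1,0),(4,0),(1,0),(12,1),(0,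
  0)]⟩,⟨0,[(1,0)]⟩⟩,.o ⟨false,0,⟨0,[(3,0),(24,0)]⟩,⟨0,[(0,0),(0,0),(7,0)]⟩⟩,.o ⟨false,1,⟨3,[(5,0),
  (0,0),(18,1)]⟩,⟨0,[(0,0),(8,0),(12,0)]⟩⟩,.e ⟨false,1,⟨1,[(25,0),(0,0)]⟩,⟨1,[(13,0),(0,0)]⟩⟩
  ⟨false,0,⟨0,[(3,0),(24,0)]⟩,⟨0,[(1,0)]⟩⟩]⟩)))

theorem ok17 : chk (cU (-1) true 3) t17 l9 = true := by decide +kernel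

noncomputable def l10 : List Con := (false, [0,0,0,0,0,1,0,0,0,0,-1]) :: r9

noncomputable def r10 : List Con := (false, [0,0,0,0,0,-1,0,0,0,0,1]) :: r9

noncomputable def l11 : List Con := (false, [0,-1,0,1,0,0,-1,-1,0,1,1]) :: l10

noncomputable def r11 : List Con := (false, [0,1,0,-1,0,0,1,1,0,-1,-1]) :: l10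

noncomputable def t18 : Tre :=
  (.I [0,0,2,2,0,0,0,-1] (.K ⟨1,[0,1,-1],0,0,(⟨0,[(2,0)]⟩,⟨0,[(18,0),(1,0)]⟩),.k,.k,(.r 0 ⟨0,[(0,
  0)]⟩ ⟨0,[(16,0),(8,1),(0,0)]⟩),.k,.k,[⟨1,[(14,2),(0,0)]⟩,⟨1,[(1,0),(8,0),(5,1),(8,0)]⟩,⟨0,[(12,0),
  (12,0)]⟩,⟨0,[(1,0)]⟩]⟩) (.R ⟨2,true,false,true,[0,1],[0,0,1],[0,0,1],(⟨0,[]⟩,⟨0,[]⟩),(⟨0,[(18,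
  0)]⟩,⟨0,[(17,0)]⟩),⟨0,[]⟩,.k,.k,.k,.k,.k,.k,⟨false,1,⟨1,[(1,0),(8,0),(3,1),(10,0),(0,0),(0,0)]⟩,
  ⟨1,[(0,0),(15,0),(7,1)]⟩⟩,⟨true,0,⟨0,[(14,0)]⟩,⟨4,[(0,0),(0,1),(9,1),(3,0),(0,0),(5,0)]⟩⟩,⟨true,0,
  ⟨0,[(25,0)]⟩,⟨0,[(24,0)]⟩⟩,⟨false,0,⟨3,[(0,1),(4,0),(5,0),(2,2)]⟩,⟨5,[(1,3),(1,1),(3,0),(5,1),(5,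
  1),(7,0)]⟩⟩,⟨false,1,⟨3,[(6,0),(0,0),(19,1)]⟩,⟨0,[]⟩⟩,⟨true,0,⟨0,[(12,0)]⟩,⟨1,[(1,0),(8,0),(14,
  0)]⟩⟩,[]⟩))

theorem ok18 : chk (cU (-1) true 3) t18 l11 = true := by decide +kernel

noncomputable def l12 : List Con := (false, [0,1,-1,-1,0,0,0,0,-1,-1,0,1]) :: r11

noncomputable def r12 : List Con := (false, [0,-1,1,1,0,0,0,0,1,1,0,-1]) :: r11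

noncomputable def t19 : Tre :=
  (.R ⟨2,true,false,true,[0,1],[1,0,0,-1],[1,1,1,1],(⟨0,[]⟩,⟨0,[]⟩),(⟨0,[(8,0)]⟩,⟨0,[(9,0)]⟩),⟨0,
  []⟩,.k,.k,.k,(.x 0 ⟨0,[(21,0)]⟩ ⟨3,[(6,0),(0,0),(11,1),(0,3)]⟩),.k,.k,⟨true,0,⟨0,[(4,0),(4,0),(14,
  0)]⟩,⟨0,[(0,0),(7,0),(14,0)]⟩⟩,⟨false,1,⟨1,[(9,1),(9,0),(6,0)]⟩,⟨0,[(8,0)]⟩⟩,⟨false,0,⟨0,[]⟩,⟨3,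
  [(6,0),(0,0),(19,1)]⟩⟩,⟨true,0,⟨0,[(0,0)]⟩,⟨0,[(4,0),(3,0),(0,0),(14,0)]⟩⟩,⟨true,0,⟨0,[(24,0)]⟩,
  ⟨0,[(25,0)]⟩⟩,⟨false,1,⟨3,[(0,1),(2,1),(5,1),(9,0),(6,0)]⟩,⟨0,[(4,0),(3,0),(0,0)]⟩⟩,[]⟩)

theorem ok19 : chk (cU (-1) true 3) t19 l12 = true := by decide +kernel

noncomputable def l13 : List Con := (false, [0,0,0,0,0,0,-1,0,0,-1,1]) :: r12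

noncomputable def r13 : List Con := (false, [0,0,0,0,0,0,1,0,0,1,-1]) :: r12

noncomputable def t20 : Tre :=
  (.I [0,0,0,1,0,0,0,1] (.I [0,1,1,1,0,0,0,-1] (.Q [0,0,0,-1,0,0,1,1,0,0,-1] (.p false [0,0,1] []
  (⟨0,[(21,0)]⟩,⟨0,[(20,0)]⟩) .k 0 (⟨0,[]⟩,⟨0,[]⟩) .k .k) (.Q [0,0,0,0,0,0,1,1,0,0,-1] (.p false [0,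
  0,1] [] (⟨0,[(22,0)]⟩,⟨0,[(21,0)]⟩) .k 0 (⟨0,[]⟩,⟨0,[]⟩) .k .k) (.Q [0,0,0,1,0,0,0,0,0,1] (.pp
  false [-1,1]) (.I [1,-1,0,0,1,0,0,-1] (.I [1,0,-1,0,0,0,0,1] (.R ⟨0,false,false,true,[0,0,1],[0,
  1],[1,1,0,0,0,0,0,1],(⟨0,[(26,0)]⟩,⟨0,[(25,0)]⟩),(⟨0,[(29,0)]⟩,⟨0,[(28,0)]⟩),⟨0,[(10,0)]⟩,.k,.k,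
  .k,.k,.k,.k,⟨true,0,⟨0,[(0,0),(32,0)]⟩,⟨0,[(5,0),(25,0)]⟩⟩,⟨false,1,⟨1,[(0,1),(20,1),(12,0),(0,
  0)]⟩,⟨0,[(22,0)]⟩⟩,⟨false,0,⟨0,[]⟩,⟨3,[(14,0),(0,0),(19,1)]⟩⟩,⟨true,0,⟨0,[(2,0),(15,0)]⟩,⟨0,[(4,
  0)]⟩⟩,⟨false,0,⟨0,[]⟩,⟨0,[]⟩⟩,⟨false,0,⟨0,[]⟩,⟨0,[]⟩⟩,[.o ⟨false,0,⟨0,[(32,0)]⟩,⟨1,[(27,0),(5,1),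
  (1,0)]⟩⟩,.a ⟨true,0,⟨0,[(2,0)]⟩,⟨0,[(33,0)]⟩⟩ ⟨false,0,⟨0,[(0,0)]⟩,⟨7,[(1,5),(12,0),(0,0),(5,1),
  (0,1),(7,1)]⟩⟩ ⟨true,0,⟨0,[(2,0),(4,0)]⟩,⟨0,[(22,0),(10,0)]⟩⟩,.o ⟨false,1,⟨3,[(14,0),(0,0),(6,3),
  (11,1)]⟩,⟨0,[(7,0)]⟩⟩,.o ⟨false,0,⟨0,[(22,0)]⟩,⟨3,[(7,3),(6,0),(0,0),(18,1)]⟩⟩]⟩) (.R ⟨0,false,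
  false,true,[0,0,1],[0,1],[1,1,1],(⟨0,[(26,0)]⟩,⟨0,[(25,0)]⟩),(⟨0,[(29,0)]⟩,⟨0,[(28,0)]⟩),⟨0,[(10,
  0)]⟩,.k,.k,.k,.k,.k,.k,⟨true,0,⟨0,[(33,0)]⟩,⟨1,[(5,0),(0,0),(24,0)]⟩⟩,⟨false,1,⟨0,[(2,0),(4,0),
  (25,0),(0,0)]⟩,⟨0,[(22,0)]⟩⟩,⟨false,0,⟨0,[(0,0)]⟩,⟨1,[(24,1),(9,0),(0,0)]⟩⟩,⟨true,0,⟨0,[(2,0),(15,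
  0)]⟩,⟨0,[(4,0)]⟩⟩,⟨false,0,⟨0,[]⟩,⟨0,[]⟩⟩,⟨false,0,⟨0,[]⟩,⟨0,[]⟩⟩,[.o ⟨false,0,⟨0,[(32,0)]⟩,⟨1,
  [(27,0),(5,1),(1,0)]⟩⟩,.a ⟨true,0,⟨0,[(2,0)]⟩,⟨0,[(33,0)]⟩⟩ ⟨false,0,⟨0,[]⟩,⟨3,[(14,0),(0,0),(18,
  1)]⟩⟩ ⟨true,0,⟨0,[(2,0),(4,0)]⟩,⟨0,[(22,0),(10,0)]⟩⟩,.o ⟨false,1,⟨3,[(14,0),(0,0),(6,3),(11,1)]⟩,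
  ⟨0,[(7,0)]⟩⟩,.o ⟨false,0,⟨0,[(22,0)]⟩,⟨3,[(7,3),(6,0),(0,0),(18,1)]⟩⟩]⟩)) (.R ⟨0,false,false,true,
  [0,0,1],[0,1],[0,1,2,1],(⟨0,[(25,0)]⟩,⟨0,[(24,0)]⟩),(⟨0,[(28,0)]⟩,⟨0,[(27,0)]⟩),⟨0,[(9,0)]⟩,.k,.k,
  .k,.k,.k,.k,⟨true,0,⟨1,[(21,0),(0,0)]⟩,⟨0,[]⟩⟩,⟨false,1,⟨0,[(1,0),(4,0),(25,0),(0,0)]⟩,⟨0,[(21,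
  0)]⟩⟩,⟨false,0,⟨0,[(4,0),(25,0)]⟩,⟨0,[(0,0),(31,0),(0,0),(0,0)]⟩⟩,⟨true,0,⟨0,[(1,0),(15,0)]⟩,⟨0,
  [(3,0)]⟩⟩,⟨false,0,⟨0,[]⟩,⟨0,[]⟩⟩,⟨false,0,⟨0,[]⟩,⟨0,[]⟩⟩,[.o ⟨false,0,⟨0,[(31,0)]⟩,⟨1,[(26,0),(5,
  1),(1,0)]⟩⟩,.a ⟨true,0,⟨0,[(1,0)]⟩,⟨0,[(32,0)]⟩⟩ ⟨false,0,⟨1,[(4,0),(0,0),(24,0)]⟩,⟨0,[(32,0),(0,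
  0)]⟩⟩ ⟨true,0,⟨0,[(1,0),(4,0)]⟩,⟨0,[(21,0),(10,0)]⟩⟩,.o ⟨false,1,⟨3,[(13,0),(0,0),(6,3),(11,1)]⟩,
  ⟨0,[(6,0)]⟩⟩,.o ⟨false,0,⟨0,[(21,0)]⟩,⟨3,[(6,3),(6,0),(0,0),(18,1)]⟩⟩]⟩)) (.Q [0,0,-1,0,0,0,-1,0,
  0,1,1] (.p true [1,-1,1] [] (⟨0,[(24,0),(1,0)]⟩,⟨0,[(8,0)]⟩) .k 0 (⟨0,[]⟩,⟨0,[]⟩) .k .k) (.R ⟨0,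
  false,false,false,[0,1,-1],[1,0,-1],[1,1,1,1,0,0,0,-1],(⟨0,[(9,0)]⟩,⟨0,[(25,0),(1,0)]⟩),(⟨0,[(24,
  0)]⟩,⟨0,[(25,0)]⟩),⟨0,[(25,0)]⟩,.k,.k,.k,.k,.k,.k,⟨false,0,⟨0,[(31,0)]⟩,⟨1,[(32,1),(0,0),(0,0)]⟩⟩,
  ⟨true,0,⟨0,[(6,0),(14,0)]⟩,⟨0,[(0,0),(20,0)]⟩⟩,⟨false,0,⟨0,[]⟩,⟨3,[(13,0),(0,0),(19,1)]⟩⟩,⟨true,0,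
  ⟨0,[(1,0)]⟩,⟨2,[(0,1),(3,1),(7,0),(18,0)]⟩⟩,⟨false,0,⟨0,[]⟩,⟨0,[]⟩⟩,⟨false,0,⟨0,[]⟩,⟨0,[]⟩⟩,[.o
  ⟨false,1,⟨1,[(20,1),(5,0),(7,0)]⟩,⟨0,[(2,0)]⟩⟩,.o ⟨false,1,⟨0,[(17,0),(16,0)]⟩,⟨0,[(19,0)]⟩⟩,.a
  ⟨true,0,⟨0,[(0,0)]⟩,⟨0,[(21,0)]⟩⟩ ⟨true,0,⟨0,[(4,0)]⟩,⟨0,[(0,0),(0,0),(0,0)]⟩⟩ ⟨false,1,⟨0,[(1,0),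
  (2,0),(29,0)]⟩,⟨0,[(0,0),(1,0)]⟩⟩,.o ⟨false,0,⟨2,[(0,0),(5,0),(15,0)]⟩,⟨1,[(21,1),(4,0),(6,
  0)]⟩⟩]⟩) (.I [0,0,-2,-2,0,0,0,1] (.Q [0,-1,0,-1,0,0,1,1,0,0,-1] (.p false [0,0,1] [] (⟨0,[(26,
  0)]⟩,⟨0,[(25,0)]⟩) .k 0 (⟨0,[]⟩,⟨0,[]⟩) .k .k) (.R ⟨2,true,false,false,[0,1],[0,0,1],[1,0,1,1],
  (⟨0,[]⟩,⟨0,[]⟩),(⟨0,[(27,0)]⟩,⟨0,[(26,0)]⟩),⟨0,[]⟩,.k,.k,.k,.k,.k,.k,⟨false,1,⟨1,[(6,1),(28,0),(0,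
  0)]⟩,⟨1,[(1,0),(23,0)]⟩⟩,⟨true,0,⟨0,[(23,0)]⟩,⟨0,[(8,0),(8,0),(0,0)]⟩⟩,⟨true,0,⟨0,[]⟩,⟨0,[(38,
  0)]⟩⟩,⟨false,0,⟨0,[(0,0)]⟩,⟨5,[(9,1),(2,3),(3,0),(1,1),(0,1),(2,3),(12,0)]⟩⟩,⟨false,1,⟨0,[(33,0),
  (2,0)]⟩,⟨0,[(34,0)]⟩⟩,⟨true,0,⟨0,[(4,0)]⟩,⟨0,[(22,0)]⟩⟩,[]⟩) (.K ⟨2,[1,-1,1],0,0,(⟨0,[(27,0),(1,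
  0)]⟩,⟨0,[(11,0)]⟩),.k,(.r 0 ⟨0,[(1,0)]⟩ ⟨5,[(6,6),(0,0),(4,3),(3,1),(6,0),(0,0),(7,2)]⟩),.k,.k,.k,
  [⟨0,[(3,0)]⟩,⟨0,[(0,0),(16,0),(0,0)]⟩,⟨3,[(0,2),(0,1),(5,0),(9,3),(0,3),(5,0),(7,2)]⟩,⟨1,[(2,0),
  (17,0),(2,1)]⟩]⟩)) (.Q [0,1,0,1,0,0,-1,-1,0,1,1] (.p true [1,-1,1] [] (⟨0,[(26,0),(1,0)]⟩,⟨0,[(10,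
  0)]⟩) .k 0 (⟨0,[]⟩,⟨0,[]⟩) .k .k) (.K ⟨2,[1,-1,1],0,0,(⟨0,[(27,0),(1,0)]⟩,⟨0,[(11,0)]⟩),.k,(.x 0
  ⟨1,[(2,2),(17,0),(6,1),(1,3)]⟩ ⟨0,[(8,0),(17,0),(3,1),(4,0)]⟩),.k,.k,.k,[⟨0,[(3,0)]⟩,⟨0,[(0,0)]⟩,
  ⟨0,[(8,0),(8,1),(0,1)]⟩,⟨1,[(2,0),(17,0),(2,1)]⟩]⟩) (.I [0,0,-1,-1,0,0,0,1] (.R ⟨2,true,false,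
  false,[0,1],[0,0,1],[1,0,1,1],(⟨0,[]⟩,⟨0,[]⟩),(⟨0,[(28,0)]⟩,⟨0,[(27,0)]⟩),⟨0,[]⟩,.k,.k,.k,.k,.k,
  .k,⟨false,1,⟨1,[(7,1),(28,0),(0,0)]⟩,⟨0,[(0,0)]⟩⟩,⟨true,0,⟨0,[(24,0)]⟩,⟨0,[(9,0),(8,0),(0,0)]⟩⟩,
  ⟨true,0,⟨0,[]⟩,⟨0,[(39,0)]⟩⟩,⟨false,0,⟨0,[(1,0),(16,0),(0,0)]⟩,⟨11,[(2,1),(6,1),(0,1),(2,5),(3,1),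
  (1,1),(3,9),(12,2),(0,0)]⟩⟩,⟨false,1,⟨7,[(2,1),(5,1),(4,1),(3,0),(18,1),(0,2)]⟩,⟨0,[(35,0)]⟩⟩,
  ⟨true,0,⟨0,[(5,0)]⟩,⟨0,[(23,0)]⟩⟩,[]⟩) (.I [1,0,-1,-1,0,0,0,1] (.N [0,-1,1] 0 ⟨0,[(0,0)]⟩ ⟨0,[(1,
  0)]⟩ .k) (.Q [0,0,0,0,0,-1,0,0,0,1,0,-1] (.p false [0,0,0,1] [1] (⟨0,[(20,0)]⟩,⟨0,[(19,0)]⟩) .k 1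
  (⟨0,[]⟩,⟨0,[]⟩) .k .k) (.I [1,0,-2,-1,1,0,0,0,-1] (.R ⟨1,false,false,true,[1,0,0,-1],[0,1],[1,1,0,
  0,0,0,0,0,-1],(⟨0,[(21,0)]⟩,⟨0,[(22,0)]⟩),(⟨0,[(34,0)]⟩,⟨0,[(33,0)]⟩),⟨0,[(1,0)]⟩,.k,.k,(.x (-1)
  ⟨3,[(19,0),(0,0),(11,1),(0,3)]⟩ ⟨0,[(34,0)]⟩),(.x (-1) ⟨3,[(19,0),(0,0),(11,1),(0,3)]⟩ ⟨0,[(34,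
  0)]⟩),(.r (-1) ⟨0,[(0,0),(37,0)]⟩ ⟨4,[(5,1),(5,0),(1,0),(3,3),(4,4),(1,0),(0,0),(11,3)]⟩),.k,
  ⟨false,1,⟨0,[(0,0)]⟩,⟨0,[(17,0),(4,0),(14,0)]⟩⟩,⟨true,0,⟨0,[(21,0)]⟩,⟨1,[(6,0),(15,1),(1,0)]⟩⟩,
  ⟨false,0,⟨0,[]⟩,⟨3,[(19,0),(0,0),(19,1)]⟩⟩,⟨false,0,⟨0,[(13,0),(28,0)]⟩,⟨1,[(0,1),(1,0),(1,0),(7,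
  0),(9,1),(13,0)]⟩⟩,⟨true,0,⟨0,[(37,0)]⟩,⟨0,[(38,0)]⟩⟩,⟨false,0,⟨0,[(13,0),(23,0)]⟩,⟨0,[(0,0),(6,
  0),(14,0),(13,0)]⟩⟩,[.o ⟨false,0,⟨0,[(37,0)]⟩,⟨3,[(7,3),(11,0),(0,0),(19,1)]⟩⟩,.o ⟨false,1,⟨7,
  [(16,3),(2,0),(0,2),(16,3)]⟩,⟨0,[(7,0)]⟩⟩,.o ⟨false,1,⟨1,[(22,1),(9,0),(6,0)]⟩,⟨1,[(6,0),(14,1),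
  (2,0)]⟩⟩,.a ⟨true,0,⟨0,[(22,0)]⟩,⟨0,[(21,0)]⟩⟩ ⟨false,1,⟨1,[(19,0),(19,0)]⟩,⟨0,[(17,0),(4,0)]⟩⟩
  ⟨true,0,⟨0,[(21,0),(15,0)]⟩,⟨0,[(7,0),(14,0)]⟩⟩]⟩) (.I [1,-1,-1,0,1,0,0,0,-1] (.I [0,0,1,1,0,0,0,
  0,-1] (.R ⟨1,false,false,false,[1,0,0,-1],[1,-1],[1,0,0,0,0,0,0,0,-1],(⟨0,[(23,0)]⟩,⟨0,[(24,0)]⟩),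
  (⟨0,[(35,0)]⟩,⟨0,[(36,0)]⟩),⟨0,[(3,0)]⟩,.k,.k,(.x (-1) ⟨3,[(21,0),(0,0),(11,1),(0,3)]⟩ ⟨0,[(36,
  0)]⟩),(.r 0 ⟨0,[(0,0)]⟩ ⟨1,[(22,0),(17,1),(0,0)]⟩),.k,.k,⟨true,0,⟨0,[(0,0)]⟩,⟨0,[(2,0),(37,1),(0,
  0)]⟩⟩,⟨false,0,⟨1,[(8,0),(14,1),(2,0)]⟩,⟨0,[(24,0),(16,0)]⟩⟩,⟨true,0,⟨0,[]⟩,⟨0,[(44,0)]⟩⟩,⟨false,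
  0,⟨0,[(19,0),(20,0)]⟩,⟨0,[(1,0),(22,0),(14,0)]⟩⟩,⟨false,1,⟨7,[(7,1),(5,1),(4,1),(3,0),(18,1),(0,
  2)]⟩,⟨0,[(40,0)]⟩⟩,⟨false,0,⟨0,[(19,0)]⟩,⟨1,[(21,0),(2,1),(16,0)]⟩⟩,[.o ⟨false,0,⟨0,[(9,0)]⟩,⟨7,
  [(18,3),(2,0),(0,2),(16,3)]⟩⟩,.o ⟨false,1,⟨3,[(9,3),(11,0),(0,0),(19,1)]⟩,⟨0,[(39,0)]⟩⟩,.o ⟨false,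
  1,⟨1,[(24,1),(9,0),(6,0)]⟩,⟨1,[(8,0),(14,1),(2,0)]⟩⟩,.a ⟨true,0,⟨0,[(24,0)]⟩,⟨0,[(23,0)]⟩⟩ ⟨false,
  1,⟨0,[(1,0)]⟩,⟨5,[(2,1),(19,1),(6,0),(0,0),(9,1)]⟩⟩ ⟨true,0,⟨0,[(9,0),(13,0)]⟩,⟨0,[(24,0),(14,
  0)]⟩⟩]⟩) (.Q [0,1,1,0,-1,0,0,0,1,1,0,-1] (.p false [0,0,0,1] [1] (⟨0,[(24,0)]⟩,⟨0,[(23,0)]⟩) .k 1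
  (⟨0,[]⟩,⟨0,[]⟩) .k .k) (.R ⟨0,false,false,false,[0,0,1],[1,0,0,-1],[1,0,0,0,0,0,0,0,-1],(⟨0,[(34,
  0)]⟩,⟨0,[(33,0)]⟩),(⟨0,[(24,0)]⟩,⟨0,[(25,0)]⟩),⟨0,[(18,0)]⟩,.k,.k,.k,.k,.k,.k,⟨true,0,⟨0,[]⟩,⟨1,
  [(30,0),(0,0)]⟩⟩,⟨false,1,⟨0,[(15,0),(9,0),(16,0)]⟩,⟨0,[(24,0),(5,0)]⟩⟩,⟨false,1,⟨0,[(2,0),(2,0),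
  (35,0)]⟩,⟨4,[(1,1),(1,0),(10,0),(8,0),(8,3)]⟩⟩,⟨true,1,⟨0,[(2,0),(22,0),(0,0)]⟩,⟨0,[(0,0),(10,
  0)]⟩⟩,⟨false,0,⟨0,[]⟩,⟨0,[]⟩⟩,⟨false,0,⟨0,[]⟩,⟨0,[]⟩⟩,[.o ⟨false,1,⟨9,[(2,7),(4,3),(14,0),(2,9),
  (0,3),(8,0),(2,1),(1,3)]⟩,⟨7,[(0,3),(19,3),(1,0),(0,0),(11,1)]⟩⟩,.a ⟨true,1,⟨0,[(2,0),(22,0)]⟩,⟨0,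
  [(0,0)]⟩⟩ ⟨false,1,⟨0,[(2,0)]⟩,⟨29,[(0,3),(0,2),(1,4),(13,1),(5,8),(1,3),(0,1),(11,10)]⟩⟩ ⟨true,1,
  ⟨0,[(2,0),(12,0),(9,0)]⟩,⟨0,[(0,0),(29,0)]⟩⟩,.o ⟨false,1,⟨3,[(22,0),(0,0),(6,3),(11,1)]⟩,⟨0,[(15,
  0)]⟩⟩,.o ⟨false,0,⟨0,[(30,0)]⟩,⟨3,[(15,3),(6,0),(0,0),(18,1)]⟩⟩]⟩) (.I [0,0,-1,-1,1,0,0,-1,-1]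
  (.R ⟨1,false,false,false,[1,0,0,-1],[0,0,1],[0,0,0,-1,0,0,0,0,-1],(⟨0,[(25,0)]⟩,⟨0,[(26,0)]⟩),(⟨0,
  [(35,0)]⟩,⟨0,[(34,0)]⟩),⟨0,[(5,0)]⟩,.k,.k,(.x (-1) ⟨3,[(23,0),(0,0),(11,1),(0,3)]⟩ ⟨0,[(38,0)]⟩),
  .k,(.r (-1) ⟨0,[(0,0)]⟩ ⟨5,[(4,1),(10,3),(6,0),(1,1),(3,0),(3,0)]⟩),.k,⟨false,1,⟨0,[(0,0)]⟩,⟨5,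
  [(2,1),(1,1),(10,5),(8,0),(18,0)]⟩⟩,⟨true,0,⟨0,[(25,0),(5,0)]⟩,⟨0,[(16,0),(9,0)]⟩⟩,⟨true,0,⟨0,
  [(42,0)]⟩,⟨0,[(41,0)]⟩⟩,⟨false,0,⟨1,[(17,0),(3,0),(0,0),(19,0)]⟩,⟨0,[(1,0),(28,0)]⟩⟩,⟨false,1,⟨3,
  [(23,0),(0,0),(19,1)]⟩,⟨0,[]⟩⟩,⟨false,0,⟨0,[(12,0),(4,0)]⟩,⟨0,[(0,0),(15,0),(9,0)]⟩⟩,[.o ⟨false,0,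
  ⟨0,[(12,0)]⟩,⟨1,[(30,1),(5,0),(7,0)]⟩⟩,.o ⟨false,1,⟨7,[(22,3),(0,0),(0,0),(11,1),(7,3)]⟩,⟨0,[(27,
  0)]⟩⟩,.o ⟨false,1,⟨4,[(1,2),(0,0),(21,0),(1,1),(9,0),(2,0),(1,0)]⟩,⟨1,[(10,0),(14,1),(2,0)]⟩⟩,.a
  ⟨true,0,⟨0,[(26,0)]⟩,⟨0,[(25,0)]⟩⟩ ⟨false,1,⟨0,[(3,0),(38,0)]⟩,⟨9,[(4,3),(4,1),(5,1),(8,2),(18,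
  0)]⟩⟩ ⟨true,0,⟨0,[(12,0),(12,0)]⟩,⟨0,[(26,0),(0,0)]⟩⟩]⟩) (.R ⟨1,false,false,false,[1,0,0,-1],[0,0,
  1],[1,1,0,0,0,0,0,0,-1],(⟨0,[(25,0)]⟩,⟨0,[(26,0)]⟩),(⟨0,[(35,0)]⟩,⟨0,[(34,0)]⟩),⟨0,[(5,0)]⟩,.k,.k,
  (.x (-1) ⟨3,[(23,0),(0,0),(11,1),(0,3)]⟩ ⟨0,[(38,0)]⟩),.k,(.x 0 ⟨2,[(0,0),(0,0),(3,0),(2,0),(7,1),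
  (10,1),(6,2),(2,1)]⟩ ⟨3,[(23,0),(0,0),(6,3),(3,3),(2,3),(4,1)]⟩),.k,⟨false,1,⟨0,[(3,0),(2,0),(32,
  0),(2,0)]⟩,⟨1,[(0,0),(1,0),(30,0),(10,0)]⟩⟩,⟨true,0,⟨0,[(25,0),(5,0)]⟩,⟨0,[(16,0),(9,0)]⟩⟩,⟨false,
  0,⟨0,[]⟩,⟨3,[(23,0),(0,0),(19,1)]⟩⟩,⟨false,0,⟨1,[(17,0),(3,0),(0,0),(19,0)]⟩,⟨0,[(1,0),(28,0)]⟩⟩,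
  ⟨true,0,⟨0,[(41,0)]⟩,⟨0,[(42,0)]⟩⟩,⟨false,0,⟨0,[(12,0),(4,0)]⟩,⟨0,[(1,0),(28,0),(11,0)]⟩⟩,[.o
  ⟨false,0,⟨0,[(12,0)]⟩,⟨1,[(30,1),(5,0),(7,0)]⟩⟩,.o ⟨false,1,⟨7,[(22,3),(0,0),(0,0),(11,1),(7,3)]⟩,
  ⟨0,[(27,0)]⟩⟩,.o ⟨false,1,⟨4,[(1,2),(0,0),(21,0),(1,1),(9,0),(2,0),(1,0)]⟩,⟨1,[(10,0),(14,1),(2,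
  0)]⟩⟩,.a ⟨true,0,⟨0,[(26,0)]⟩,⟨0,[(25,0)]⟩⟩ ⟨false,1,⟨1,[(23,0),(19,0)]⟩,⟨5,[(2,1),(1,1),(19,0),
  (15,3),(3,0)]⟩⟩ ⟨true,0,⟨0,[(12,0),(12,0)]⟩,⟨0,[(26,0),(0,0)]⟩⟩]⟩)))) (.Q [0,1,1,0,-1,0,0,0,1,0,0,
  -1] (.p false [0,0,0,1] [] (⟨0,[(23,0)]⟩,⟨0,[(22,0)]⟩) .k 0 (⟨0,[]⟩,⟨0,[]⟩) .k .k) (.K ⟨0,[0,0,0,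
  1],0,(-1),(⟨0,[(24,0)]⟩,⟨0,[(23,0)]⟩),.k,(.x 0 ⟨0,[(26,0),(2,0),(5,0)]⟩ ⟨0,[(36,0),(4,0)]⟩),(.x 0
  ⟨0,[(36,0)]⟩ ⟨3,[(21,0),(0,0),(11,1),(0,3)]⟩),.k,.k,[⟨0,[(24,0)]⟩,⟨0,[(23,0)]⟩,⟨7,[(21,4),(0,0),
  (1,7),(12,3),(3,1)]⟩,⟨0,[(0,0)]⟩]⟩) (.R ⟨2,false,false,true,[0,1],[0,0,0,1],[],(⟨0,[]⟩,⟨0,[]⟩),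
  (⟨0,[(24,0)]⟩,⟨0,[(23,0)]⟩),⟨0,[]⟩,.k,.k,.k,(.x (-1) ⟨0,[(36,0),(4,0)]⟩ ⟨0,[(26,0),(2,0),(5,0)]⟩),
  .k,.k,⟨true,1,⟨1,[(21,0),(20,0)]⟩,⟨0,[(1,0)]⟩⟩,⟨false,0,⟨1,[(8,0),(14,1),(2,0)]⟩,⟨0,[(24,0),(16,
  0)]⟩⟩,⟨false,1,⟨1,[(40,1),(0,0),(0,0)]⟩,⟨9,[(7,3),(5,1),(6,0),(5,0),(3,0)]⟩⟩,⟨true,(-1),⟨0,[(1,0),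
  (7,0),(13,0)]⟩,⟨0,[(0,0),(38,0)]⟩⟩,⟨false,1,⟨1,[(41,0),(0,0)]⟩,⟨1,[(29,0),(0,0)]⟩⟩,⟨false,0,⟨17,
  [(1,0),(10,2),(3,2),(2,14),(2,0),(0,2),(6,2),(6,3)]⟩,⟨0,[(0,0)]⟩⟩,[.a ⟨true,(-1),⟨0,[(1,0),(21,
  0)]⟩,⟨0,[(0,0)]⟩⟩ ⟨false,1,⟨3,[(21,0),(0,0),(18,1)]⟩,⟨0,[]⟩⟩ ⟨true,(-1),⟨1,[(1,1),(6,0),(14,1),(2,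
  0)]⟩,⟨0,[(0,0)]⟩⟩,.o ⟨false,0,⟨17,[(1,0),(10,2),(3,2),(2,14),(2,0),(0,2),(6,2),(6,3)]⟩,⟨1,[(0,1),
  (7,0),(5,0),(22,0)]⟩⟩,.o ⟨false,1,⟨3,[(21,0),(0,0),(18,1)]⟩,⟨1,[(8,0),(17,0)]⟩⟩,.e ⟨false,1,⟨1,
  [(41,0),(0,0)]⟩,⟨1,[(29,0),(0,0)]⟩⟩ ⟨false,0,⟨17,[(1,0),(10,2),(3,2),(2,14),(2,0),(0,2),(6,2),(6,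
  3)]⟩,⟨0,[(0,0)]⟩⟩]⟩)))) (.I [0,0,-2,-1,1,0,0,0,-1] (.R ⟨0,false,false,true,[1,0,0,-1],[0,1],[0,1,
  0,0,0,0,0,0,-1],(⟨0,[(21,0)]⟩,⟨0,[(22,0)]⟩),(⟨0,[(34,0)]⟩,⟨0,[(33,0)]⟩),⟨0,[(1,0)]⟩,.k,.k,(.x
  (-1) ⟨3,[(19,0),(0,0),(11,1),(0,3)]⟩ ⟨0,[(34,0)]⟩),(.x (-1) ⟨3,[(19,0),(0,0),(11,1),(0,3)]⟩ ⟨0,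
  [(34,0)]⟩),.k,.k,⟨false,1,⟨0,[(0,0)]⟩,⟨0,[(17,0),(4,0),(14,0)]⟩⟩,⟨true,0,⟨0,[(21,0)]⟩,⟨1,[(6,0),
  (15,1),(1,0)]⟩⟩,⟨true,0,⟨0,[(42,0)]⟩,⟨0,[]⟩⟩,⟨false,0,⟨0,[(13,0),(28,0)]⟩,⟨1,[(0,1),(1,0),(1,0),
  (7,0),(9,1),(13,0)]⟩⟩,⟨false,0,⟨0,[]⟩,⟨0,[]⟩⟩,⟨false,0,⟨0,[]⟩,⟨0,[]⟩⟩,[.o ⟨false,0,⟨0,[(37,0)]⟩,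
  ⟨3,[(7,3),(11,0),(0,0),(19,1)]⟩⟩,.o ⟨false,1,⟨7,[(16,3),(2,0),(0,2),(16,3)]⟩,⟨0,[(7,0)]⟩⟩,.o
  ⟨false,1,⟨1,[(22,1),(9,0),(6,0)]⟩,⟨1,[(6,0),(14,1),(2,0)]⟩⟩,.a ⟨true,0,⟨0,[(22,0)]⟩,⟨0,[(21,0)]⟩⟩
  ⟨false,1,⟨1,[(19,0),(19,0)]⟩,⟨0,[(17,0),(4,0)]⟩⟩ ⟨true,0,⟨0,[(21,0),(15,0)]⟩,⟨0,[(7,0),(14,
  0)]⟩⟩]⟩) (.Q [0,0,1,0,-1,0,1,1,1,1,-1,-1] (.p false [0,0,1] [1,0,0,-1] (⟨0,[(31,0)]⟩,⟨0,[(30,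
  0)]⟩) .k 2 (⟨0,[(21,0)]⟩,⟨0,[(22,0)]⟩) .k (.r 0 ⟨0,[(0,0),(28,0),(8,0),(0,0)]⟩ ⟨1,[(2,1),(16,0),
  (18,1),(0,0)]⟩)) (.R ⟨0,false,false,false,[1,0,0,-1],[0,0,1],[0,0,0,0,0,0,0,1],(⟨0,[(22,0)]⟩,⟨0,
  [(23,0)]⟩),(⟨0,[(32,0)]⟩,⟨0,[(31,0)]⟩),⟨0,[(2,0)]⟩,.k,.k,(.x (-1) ⟨3,[(20,0),(0,0),(11,1),(0,3)]⟩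
  ⟨0,[(35,0)]⟩),.k,.k,.k,⟨false,1,⟨3,[(20,0),(0,0),(18,1)]⟩,⟨0,[]⟩⟩,⟨true,0,⟨0,[(22,0),(5,0)]⟩,⟨0,
  [(13,0),(9,0)]⟩⟩,⟨false,0,⟨1,[(0,1),(12,1),(9,1),(16,0),(0,0)]⟩,⟨1,[(3,1),(16,0),(18,1),(0,0)]⟩⟩,
  ⟨true,(-1),⟨0,[(0,0)]⟩,⟨1,[(20,0),(2,1),(0,1),(15,0)]⟩⟩,⟨false,0,⟨0,[]⟩,⟨0,[]⟩⟩,⟨false,0,⟨0,[]⟩,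
  ⟨0,[]⟩⟩,[.o ⟨false,0,⟨0,[(9,0)]⟩,⟨1,[(27,1),(5,0),(7,0)]⟩⟩,.o ⟨false,1,⟨7,[(19,3),(0,0),(0,0),(11,
  1),(7,3)]⟩,⟨0,[(24,0)]⟩⟩,.o ⟨false,1,⟨1,[(23,1),(9,0),(6,0)]⟩,⟨1,[(0,0),(17,0),(1,0),(3,0)]⟩⟩,.a
  ⟨true,0,⟨0,[(23,0)]⟩,⟨0,[(22,0)]⟩⟩ ⟨false,1,⟨1,[(30,1),(9,0),(0,0)]⟩,⟨0,[(3,0),(35,0)]⟩⟩ ⟨true,0,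
  ⟨0,[(9,0),(12,0)]⟩,⟨0,[(23,0),(0,0)]⟩⟩]⟩) (.R ⟨0,false,false,false,[1,0,0,-1],[0,0,1],[0,1,0,0,0,
  0,0,0,-1],(⟨0,[(22,0)]⟩,⟨0,[(23,0)]⟩),(⟨0,[(32,0)]⟩,⟨0,[(31,0)]⟩),⟨0,[(2,0)]⟩,.k,.k,(.x (-1) ⟨3,
  [(20,0),(0,0),(11,1),(0,3)]⟩ ⟨0,[(35,0)]⟩),.k,.k,.k,⟨false,1,⟨0,[(0,0),(2,0),(1,0),(16,1),(0,0),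
  (12,0)]⟩,⟨0,[(1,0),(3,0),(7,0),(8,1),(0,1),(16,0)]⟩⟩,⟨true,0,⟨0,[(22,0),(5,0)]⟩,⟨0,[(13,0),(9,
  0)]⟩⟩,⟨true,0,⟨0,[(43,0)]⟩,⟨0,[]⟩⟩,⟨false,0,⟨1,[(14,0),(3,0),(0,0),(19,0)]⟩,⟨0,[(0,0)]⟩⟩,⟨false,0,
  ⟨0,[]⟩,⟨0,[]⟩⟩,⟨false,0,⟨0,[]⟩,⟨0,[]⟩⟩,[.o ⟨false,0,⟨0,[(9,0)]⟩,⟨1,[(27,1),(5,0),(7,0)]⟩⟩,.o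
  ⟨false,1,⟨7,[(19,3),(0,0),(0,0),(11,1),(7,3)]⟩,⟨0,[(24,0)]⟩⟩,.o ⟨false,1,⟨1,[(23,1),(9,0),(6,0)]⟩,
  ⟨1,[(7,0),(14,1),(2,0)]⟩⟩,.a ⟨true,0,⟨0,[(23,0)]⟩,⟨0,[(22,0)]⟩⟩ ⟨false,1,⟨1,[(20,0),(19,0)]⟩,⟨0,
  [(18,0),(4,0)]⟩⟩ ⟨true,0,⟨0,[(9,0),(12,0)]⟩,⟨0,[(23,0),(0,0)]⟩⟩]⟩)))))))))) (.R ⟨2,false,false,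
  false,[0,1],[0,0,1],[],(⟨0,[]⟩,⟨0,[]⟩),(⟨0,[(23,0)]⟩,⟨0,[(22,0)]⟩),⟨0,[]⟩,.k,.k,.k,.k,.k,.k,
  ⟨false,1,⟨0,[(0,0),(18,0),(11,0)]⟩,⟨0,[(21,0)]⟩⟩,⟨true,0,⟨0,[(19,0)]⟩,⟨0,[(0,0),(20,0)]⟩⟩,⟨false,
  1,⟨1,[(30,1),(0,0),(0,0)]⟩,⟨1,[(2,0),(0,0),(24,0)]⟩⟩,⟨true,0,⟨0,[(1,0)]⟩,⟨0,[(0,0),(28,0)]⟩⟩,
  ⟨false,1,⟨1,[(31,0),(0,0)]⟩,⟨1,[(19,0),(0,0)]⟩⟩,⟨false,1,⟨7,[(10,3),(0,0),(0,0),(11,1),(7,3)]⟩,⟨0,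
  [(0,0)]⟩⟩,[.a ⟨true,0,⟨1,[(10,0),(2,0),(0,0)]⟩,⟨0,[(0,0)]⟩⟩ ⟨false,1,⟨3,[(11,0),(0,0),(18,1)]⟩,⟨0,
  []⟩⟩ ⟨true,0,⟨1,[(10,0),(5,0),(2,0)]⟩,⟨0,[(0,0)]⟩⟩,.o ⟨false,1,⟨7,[(10,3),(0,0),(0,0),(11,1),(7,
  3)]⟩,⟨0,[(15,0)]⟩⟩,.o ⟨false,1,⟨3,[(11,0),(0,0),(18,1)]⟩,⟨0,[(4,0),(14,0)]⟩⟩,.e ⟨false,1,⟨1,[(31,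
  0),(0,0)]⟩,⟨1,[(19,0),(0,0)]⟩⟩ ⟨false,1,⟨7,[(10,3),(0,0),(0,0),(11,1),(7,3)]⟩,⟨0,[(0,0)]⟩⟩]⟩))
  (.R ⟨0,false,false,false,[0,0,1],[0,1],[0,0,2,1],(⟨0,[(22,0)]⟩,⟨0,[(21,0)]⟩),(⟨0,[(25,0)]⟩,⟨0,
  [(24,0)]⟩),⟨0,[(6,0)]⟩,.k,.k,.k,.k,.k,.k,⟨true,0,⟨1,[(18,0),(0,0)]⟩,⟨0,[]⟩⟩,⟨false,1,⟨0,[(3,0),(8,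
  0),(0,0),(16,0)]⟩,⟨0,[(18,0)]⟩⟩,⟨false,0,⟨0,[(0,0),(17,0),(8,0)]⟩,⟨0,[(20,0),(8,0),(0,0)]⟩⟩,⟨true,
  0,⟨0,[(0,0)]⟩,⟨0,[(16,0),(12,0)]⟩⟩,⟨false,0,⟨0,[]⟩,⟨0,[]⟩⟩,⟨false,0,⟨0,[]⟩,⟨0,[]⟩⟩,[.a ⟨true,0,⟨1,
  [(0,1),(8,0),(2,0),(0,0)]⟩,⟨0,[(29,0)]⟩⟩ ⟨false,0,⟨1,[(1,0),(0,0),(24,0)]⟩,⟨0,[(29,0),(0,0)]⟩⟩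
  ⟨true,0,⟨0,[(0,0),(19,0)]⟩,⟨0,[(18,0),(10,0)]⟩⟩,.o ⟨false,1,⟨0,[(28,0),(2,0)]⟩,⟨1,[(5,0),(8,0),
  (14,0)]⟩⟩,.o ⟨false,1,⟨3,[(10,0),(0,0),(6,3),(11,1)]⟩,⟨0,[(3,0)]⟩⟩,.o ⟨false,0,⟨0,[(18,0)]⟩,⟨3,
  [(3,3),(6,0),(0,0),(18,1)]⟩⟩]⟩)) (.R ⟨2,true,false,false,[0,1],[0,0,1],[0,0,1],(⟨0,[]⟩,⟨0,[]⟩),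
  (⟨0,[(21,0)]⟩,⟨0,[(20,0)]⟩),⟨0,[]⟩,.k,.k,.k,.k,.k,.k,⟨false,1,⟨1,[(16,1),(0,1),(11,0),(0,0)]⟩,⟨0,
  [(0,0),(26,0)]⟩⟩,⟨true,0,⟨0,[(17,0)]⟩,⟨1,[(0,0),(0,0),(14,1),(9,0)]⟩⟩,⟨true,0,⟨0,[(28,0)]⟩,⟨0,
  [(27,0)]⟩⟩,⟨false,0,⟨0,[(0,0),(16,0)]⟩,⟨5,[(3,1),(2,3),(3,0),(1,1),(0,1),(2,3),(12,0)]⟩⟩,⟨false,1,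
  ⟨3,[(9,0),(0,0),(19,1)]⟩,⟨0,[]⟩⟩,⟨true,0,⟨0,[(0,0),(16,0),(9,0)]⟩,⟨0,[(16,0)]⟩⟩,[]⟩)) (.R ⟨2,true,
  false,true,[0,1],[1,0,-1],[0,0,1],(⟨0,[]⟩,⟨0,[]⟩),(⟨0,[(19,0)]⟩,⟨0,[(20,0)]⟩),⟨0,[]⟩,.k,.k,.k,.k,
  .k,.k,⟨true,0,⟨0,[(18,0),(6,0)]⟩,⟨0,[(0,0),(25,0)]⟩⟩,⟨false,0,⟨0,[(1,0)]⟩,⟨0,[(10,0),(0,0),(4,0),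
  (11,0)]⟩⟩,⟨true,0,⟨0,[(27,0)]⟩,⟨0,[(26,0)]⟩⟩,⟨false,0,⟨0,[(0,0),(0,0)]⟩,⟨5,[(2,1),(2,3),(1,2),(1,
  0),(0,0),(0,2),(16,0)]⟩⟩,⟨false,1,⟨3,[(8,0),(0,0),(19,1)]⟩,⟨0,[]⟩⟩,⟨true,0,⟨0,[(12,0)]⟩,⟨1,[(7,0),
  (2,0),(0,0)]⟩⟩,[]⟩))

theorem ok20 : chk (cU (-1) true 3) t20 l13 = true := by decide +kernel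

noncomputable def t21 : Tre :=
  (.Q [0,0,0,0,0,0,2,1,0,1,-2] (.p false [0,0,1] [1,0,-1] (⟨0,[(19,0)]⟩,⟨0,[(18,0)]⟩) .k 2 (⟨0,[(18,
  0)]⟩,⟨0,[(19,0)]⟩) .k (.r 0 ⟨0,[(17,1)]⟩ ⟨0,[(0,1),(10,1),(16,0)]⟩)) (.Q [0,0,0,0,0,-1,0,0,0,1,
  -1] (.ed true [0,1,1] .k) (.Q [0,0,-1,0,1,0,-1,-1,-1,-1,1,1] (.p true [0,0,1] [1,0,0,-1] (⟨0,[(21,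
  0)]⟩,⟨0,[(20,0)]⟩) .k 2 (⟨0,[(11,0)]⟩,⟨0,[(12,0)]⟩) .k (.x 0 ⟨0,[(17,0),(3,0)]⟩ ⟨1,[(0,0),(4,0),
  (8,0),(3,0),(10,1)]⟩)) (.Q [0,0,0,-1,0,0,-2,-2,0,-1,2] (.p true [0,0,1] [1,0,-1] (⟨0,[(22,0)]⟩,⟨0,
  [(21,0)]⟩) .k 2 (⟨0,[(21,0)]⟩,⟨0,[(22,0)]⟩) .k (.r 0 ⟨0,[(20,1)]⟩ ⟨0,[(3,1),(10,1),(16,0)]⟩)) (.K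
  ⟨2,[1,-1,-1],0,0,(⟨0,[(2,0)]⟩,⟨0,[(23,0),(2,0)]⟩),.k,(.r (-1) ⟨0,[(0,0),(2,0),(26,0),(0,0)]⟩ ⟨0,
  [(21,0),(6,1),(0,1)]⟩),.k,(.r (-1) ⟨1,[(0,1),(3,3),(19,0),(6,0)]⟩ ⟨0,[(21,1),(6,0),(0,0)]⟩),.k,
  [⟨0,[(0,0)]⟩,⟨1,[(10,0),(2,0),(0,0),(14,1)]⟩,⟨0,[(4,0)]⟩,⟨1,[(16,1),(2,0),(0,0)]⟩]⟩) (.I [0,0,-2,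
  -2,1,0,0,-1] (.Q [0,0,0,0,0,0,-1,0,0,0,1] (.p true [0,0,1] [] (⟨0,[(24,0)]⟩,⟨0,[(23,0)]⟩) .k 0
  (⟨0,[]⟩,⟨0,[]⟩) .k .k) (.K ⟨0,[1,-1,-1],0,0,(⟨0,[(4,0)]⟩,⟨0,[(25,0),(2,0)]⟩),.k,(.r (-1) ⟨0,[(1,
  0)]⟩ ⟨1,[(0,0),(1,0),(15,0),(11,2),(0,2)]⟩),.k,.k,.k,[⟨0,[(6,0)]⟩,⟨0,[(0,0)]⟩,⟨0,[(2,0),(17,0)]⟩,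
  ⟨0,[(17,0),(14,0)]⟩]⟩) (.Q [0,-1,0,-1,0,0,1,1,0,0,-1] (.p false [0,0,1] [] (⟨0,[(25,0)]⟩,⟨0,[(24,
  0)]⟩) .k 0 (⟨0,[]⟩,⟨0,[]⟩) .k .k) (.R ⟨2,true,false,false,[0,1],[0,0,1],[0,0,1],(⟨0,[]⟩,⟨0,[]⟩),
  (⟨0,[(26,0)]⟩,⟨0,[(25,0)]⟩),⟨0,[]⟩,.k,.k,.k,.k,.k,.k,⟨true,0,⟨0,[(7,0),(10,0),(12,0)]⟩,⟨0,[(24,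
  0)]⟩⟩,⟨false,0,⟨0,[(1,0)]⟩,⟨0,[(23,0),(10,0)]⟩⟩,⟨true,0,⟨0,[(33,0)]⟩,⟨0,[(32,0)]⟩⟩,⟨false,0,⟨0,
  [(0,0)]⟩,⟨4,[(4,1),(3,1),(2,1),(3,0),(5,2),(10,0)]⟩⟩,⟨false,1,⟨3,[(14,0),(0,0),(19,1)]⟩,⟨0,[]⟩⟩,
  ⟨true,0,⟨1,[(0,0),(2,0),(14,0)]⟩,⟨0,[(21,0)]⟩⟩,[]⟩) (.Q [0,0,0,0,0,0,-1,0,0,1,1] (.p true [1,-1,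
  1] [] (⟨0,[(26,0),(1,0)]⟩,⟨0,[(10,0)]⟩) .k 0 (⟨0,[]⟩,⟨0,[]⟩) .k .k) (.K ⟨0,[1,-1,1],0,0,(⟨0,[(27,
  0),(1,0)]⟩,⟨0,[(11,0)]⟩),.k,(.r (-1) ⟨0,[(3,0),(21,1)]⟩ ⟨0,[(1,0),(0,0),(29,1),(0,0)]⟩),.k,.k,.k,
  [⟨0,[(0,0)]⟩,⟨0,[(2,0)]⟩,⟨1,[(0,0),(0,1),(6,0)]⟩,⟨0,[(10,0)]⟩]⟩) (.Q [0,1,1,0,-1,0,0,0,1,0,0,-1]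
  (.p false [0,0,0,1] [] (⟨0,[(18,0)]⟩,⟨0,[(17,0)]⟩) .k 0 (⟨0,[]⟩,⟨0,[]⟩) .k .k) (.K ⟨0,[0,0,0,1],0,
  (-1),(⟨0,[(19,0)]⟩,⟨0,[(18,0)]⟩),.k,(.x 0 ⟨0,[(21,0),(2,0),(5,0)]⟩ ⟨0,[(31,0),(4,0)]⟩),(.x 0 ⟨0,
  [(31,0)]⟩ ⟨3,[(16,0),(0,0),(11,1),(0,3)]⟩),.k,.k,[⟨0,[(19,0)]⟩,⟨0,[(18,0)]⟩,⟨7,[(16,4),(0,0),(1,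
  7),(12,3),(3,1)]⟩,⟨0,[(0,0)]⟩]⟩) (.Q [0,0,0,1,0,0,0,0,0,1] (.pp false [-1,1]) (.R ⟨0,false,false,
  false,[0,0,1],[1,-1],[0,1],(⟨0,[(29,0)]⟩,⟨0,[(28,0)]⟩),(⟨0,[(31,0)]⟩,⟨0,[(32,0)]⟩),⟨0,[(13,0)]⟩,
  .k,.k,.k,.k,.k,.k,⟨false,0,⟨0,[(35,0)]⟩,⟨1,[(5,0),(21,0),(10,0)]⟩⟩,⟨true,0,⟨0,[(22,0)]⟩,⟨0,[(10,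
  0)]⟩⟩,⟨true,0,⟨0,[(10,0),(10,0)]⟩,⟨0,[(27,0)]⟩⟩,⟨false,1,⟨1,[(5,0),(15,0),(0,0),(11,0),(3,0)]⟩,⟨1,
  [(0,0),(5,0)]⟩⟩,⟨false,0,⟨0,[]⟩,⟨0,[]⟩⟩,⟨false,0,⟨0,[]⟩,⟨0,[]⟩⟩,[.a ⟨true,0,⟨0,[(36,0)]⟩,⟨0,[(0,
  0)]⟩⟩ ⟨true,0,⟨0,[(40,0)]⟩,⟨0,[(34,0)]⟩⟩ ⟨false,1,⟨1,[(5,0),(16,1),(4,0),(9,0)]⟩,⟨1,[(0,1),(1,0),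
  (7,0)]⟩⟩,.o ⟨false,1,⟨1,[(30,0),(5,1),(1,0)]⟩,⟨0,[(35,0)]⟩⟩,.o ⟨false,0,⟨0,[(4,0)]⟩,⟨1,[(26,1),(3,
  0),(6,0)]⟩⟩,.o ⟨false,0,⟨0,[(25,0)]⟩,⟨0,[(22,0),(14,0)]⟩⟩]⟩) (.Q [0,0,0,0,0,-1,0,0,0,1,0,-1] (.p
  false [0,0,0,1] [1] (⟨0,[(20,0)]⟩,⟨0,[(19,0)]⟩) .k 1 (⟨0,[]⟩,⟨0,[]⟩) .k .k) (.I [1,0,-2,-1,1,0,0,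
  0,-1] (.R ⟨1,false,false,true,[1,0,0,-1],[0,1],[1,1,0,0,0,0,0,0,-1],(⟨0,[(21,0)]⟩,⟨0,[(22,0)]⟩),
  (⟨0,[(34,0)]⟩,⟨0,[(33,0)]⟩),⟨0,[(1,0)]⟩,.k,.k,(.x (-1) ⟨3,[(19,0),(0,0),(11,1),(0,3)]⟩ ⟨0,[(34,
  0)]⟩),(.x (-1) ⟨3,[(19,0),(0,0),(11,1),(0,3)]⟩ ⟨0,[(34,0)]⟩),(.r (-1) ⟨0,[(0,0),(37,0)]⟩ ⟨2,[(4,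
  0),(8,2),(8,2),(1,1),(2,0),(9,2)]⟩),.k,⟨false,1,⟨0,[(0,0)]⟩,⟨0,[(17,0),(4,0),(14,0)]⟩⟩,⟨true,0,⟨0,
  [(21,0)]⟩,⟨2,[(4,0),(17,2),(1,1),(2,0)]⟩⟩,⟨false,0,⟨0,[]⟩,⟨3,[(19,0),(0,0),(19,1)]⟩⟩,⟨false,0,⟨0,
  [(13,0),(28,0)]⟩,⟨0,[(2,0),(0,0)]⟩⟩,⟨true,0,⟨0,[(37,0)]⟩,⟨0,[(38,0)]⟩⟩,⟨false,0,⟨0,[(13,0),(23,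
  0)]⟩,⟨0,[(2,0),(0,0),(34,0)]⟩⟩,[.o ⟨false,0,⟨0,[(37,0)]⟩,⟨3,[(2,3),(16,0),(0,0),(19,1)]⟩⟩,.o
  ⟨false,1,⟨7,[(16,3),(2,0),(0,2),(16,3)]⟩,⟨0,[(2,0)]⟩⟩,.o ⟨false,1,⟨1,[(22,1),(9,0),(6,0)]⟩,⟨2,[(4,
  0),(16,2),(2,1),(2,0)]⟩⟩,.a ⟨true,0,⟨0,[(22,0)]⟩,⟨0,[(21,0)]⟩⟩ ⟨false,1,⟨1,[(19,0),(19,0)]⟩,⟨0,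
  [(17,0),(4,0)]⟩⟩ ⟨true,0,⟨0,[(21,0),(15,0)]⟩,⟨0,[(2,0),(19,0)]⟩⟩]⟩) (.R ⟨1,false,false,true,[1,0,
  0,-1],[1,0,-1],[0,0,0,-1,0,0,0,0,-1],(⟨0,[(21,0)]⟩,⟨0,[(22,0)]⟩),(⟨0,[(30,0)]⟩,⟨0,[(31,0)]⟩),⟨0,
  [(1,0)]⟩,.k,.k,(.x (-1) ⟨3,[(19,0),(0,0),(11,1),(0,3)]⟩ ⟨0,[(34,0)]⟩),.k,(.r (-1) ⟨1,[(7,0),(11,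
  0),(9,2)]⟩ ⟨7,[(0,5),(3,2),(0,5),(1,1),(4,2),(7,0),(19,2)]⟩),.k,⟨false,1,⟨0,[(2,0),(0,0),(17,0),
  (7,0)]⟩,⟨13,[(0,11),(3,4),(0,9),(1,3),(4,4),(7,0),(14,1),(3,6)]⟩⟩,⟨true,0,⟨0,[(21,0),(2,0)]⟩,⟨1,
  [(4,0),(7,0),(9,1)]⟩⟩,⟨true,0,⟨0,[(38,0)]⟩,⟨0,[(37,0)]⟩⟩,⟨false,0,⟨0,[(17,0),(8,0)]⟩,⟨1,[(2,0),(0,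
  1),(4,0)]⟩⟩,⟨false,1,⟨3,[(19,0),(0,0),(19,1)]⟩,⟨0,[]⟩⟩,⟨false,0,⟨0,[(5,0),(11,0)]⟩,⟨1,[(2,0),(0,
  1),(14,0),(19,0)]⟩⟩,[.o ⟨false,0,⟨0,[(23,0)]⟩,⟨7,[(18,3),(0,0),(0,0),(11,1),(7,3)]⟩⟩,.o ⟨false,1,
  ⟨1,[(26,1),(5,0),(7,0)]⟩,⟨1,[(2,0),(5,0)]⟩⟩,.o ⟨false,1,⟨1,[(22,1),(9,0),(6,0)]⟩,⟨6,[(0,1),(1,0),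
  (1,0),(9,0),(2,1),(1,1),(1,4),(1,0),(0,0)]⟩⟩,.a ⟨true,0,⟨0,[(22,0)]⟩,⟨0,[(21,0)]⟩⟩ ⟨false,1,⟨0,
  [(2,0),(0,0),(17,0)]⟩,⟨9,[(0,5),(15,1),(3,2),(16,1),(1,0)]⟩⟩ ⟨true,0,⟨0,[(21,0),(1,0)]⟩,⟨1,[(2,0),
  (5,0),(13,1)]⟩⟩]⟩)) (.Q [0,1,1,0,-1,0,1,1,1,1,-1,-1] (.p false [0,0,1] [1,0,0,-1] (⟨0,[(30,0)]⟩,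
  ⟨0,[(29,0)]⟩) .k 2 (⟨0,[(20,0)]⟩,⟨0,[(21,0)]⟩) .k (.x 0 ⟨0,[(26,0),(3,0)]⟩ ⟨1,[(9,0),(4,0),(8,0),
  (3,0),(10,1)]⟩)) (.I [1,1,0,1,0,0,0,-1,1] (.R ⟨0,false,false,true,[1,0,0,-1],[1,0,-1],[0,0,0,-1,0,
  0,0,0,-1],(⟨0,[(22,0)]⟩,⟨0,[(23,0)]⟩),(⟨0,[(31,0)]⟩,⟨0,[(32,0)]⟩),⟨0,[(2,0)]⟩,.k,.k,(.x (-1) ⟨3,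
  [(20,0),(0,0),(11,1),(0,3)]⟩ ⟨0,[(35,0)]⟩),.k,.k,.k,⟨false,1,⟨0,[(3,0),(0,0),(17,0),(7,0)]⟩,⟨0,
  [(0,0)]⟩⟩,⟨true,0,⟨0,[(22,0),(2,0)]⟩,⟨1,[(5,0),(7,0),(9,1)]⟩⟩,⟨true,0,⟨0,[(39,0)]⟩,⟨0,[(38,0)]⟩⟩,
  ⟨false,0,⟨0,[(18,0),(8,0)]⟩,⟨1,[(3,0),(0,1),(4,0)]⟩⟩,⟨false,0,⟨0,[]⟩,⟨0,[]⟩⟩,⟨false,0,⟨0,[]⟩,⟨0,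
  []⟩⟩,[.o ⟨false,0,⟨0,[(24,0)]⟩,⟨7,[(19,3),(0,0),(0,0),(11,1),(7,3)]⟩⟩,.o ⟨false,1,⟨1,[(27,1),(5,
  0),(7,0)]⟩,⟨1,[(3,0),(5,0)]⟩⟩,.o ⟨false,1,⟨1,[(23,1),(9,0),(6,0)]⟩,⟨3,[(1,0),(3,0),(12,0),(1,0),
  (1,1),(1,0),(0,0),(11,0)]⟩⟩,.a ⟨true,0,⟨0,[(23,0)]⟩,⟨0,[(22,0)]⟩⟩ ⟨false,1,⟨0,[(3,0),(0,0),(17,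
  0)]⟩,⟨3,[(0,1),(8,0),(4,0),(3,0),(4,1),(1,1)]⟩⟩ ⟨true,0,⟨0,[(22,0),(1,0)]⟩,⟨1,[(3,0),(5,0),(13,
  1)]⟩⟩]⟩) (.R ⟨0,false,false,true,[1,0,0,-1],[1,0,-1],[1,0,0,0,0,0,0,0,-1],(⟨0,[(22,0)]⟩,⟨0,[(23,
  0)]⟩),(⟨0,[(31,0)]⟩,⟨0,[(32,0)]⟩),⟨0,[(2,0)]⟩,.k,.k,(.x (-1) ⟨3,[(20,0),(0,0),(11,1),(0,3)]⟩ ⟨0,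
  [(35,0)]⟩),.k,.k,.k,⟨false,1,⟨1,[(0,0),(16,0),(12,0),(9,0)]⟩,⟨1,[(1,0),(3,0),(0,1),(1,0),(9,0),(4,
  1)]⟩⟩,⟨true,0,⟨0,[(22,0),(2,0)]⟩,⟨1,[(5,0),(7,0),(9,1)]⟩⟩,⟨true,0,⟨0,[]⟩,⟨0,[(43,0)]⟩⟩,⟨false,0,
  ⟨0,[(18,0),(8,0)]⟩,⟨1,[(3,0),(0,1),(4,0)]⟩⟩,⟨false,0,⟨0,[]⟩,⟨0,[]⟩⟩,⟨false,0,⟨0,[]⟩,⟨0,[]⟩⟩,[.o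
  ⟨false,0,⟨0,[(24,0)]⟩,⟨7,[(19,3),(0,0),(0,0),(11,1),(7,3)]⟩⟩,.o ⟨false,1,⟨1,[(27,1),(5,0),(7,0)]⟩,
  ⟨1,[(3,0),(5,0)]⟩⟩,.o ⟨false,1,⟨1,[(23,1),(9,0),(6,0)]⟩,⟨3,[(1,0),(3,0),(12,0),(1,0),(1,1),(1,0),
  (0,0),(11,0)]⟩⟩,.a ⟨true,0,⟨0,[(23,0)]⟩,⟨0,[(22,0)]⟩⟩ ⟨false,1,⟨3,[(0,1),(3,1),(0,1),(0,1),(15,1),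
  (17,0),(0,0)]⟩,⟨4,[(1,0),(16,1),(2,0),(1,2),(0,0),(3,0),(0,0)]⟩⟩ ⟨true,0,⟨0,[(22,0),(1,0)]⟩,⟨1,
  [(3,0),(5,0),(13,1)]⟩⟩]⟩)) (.I [0,0,-2,-1,1,0,0,0,-1] (.R ⟨0,false,false,true,[1,0,0,-1],[0,1],[0,
  1,0,0,0,0,0,0,-1],(⟨0,[(22,0)]⟩,⟨0,[(23,0)]⟩),(⟨0,[(35,0)]⟩,⟨0,[(34,0)]⟩),⟨0,[(2,0)]⟩,.k,.k,(.x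
  (-1) ⟨3,[(20,0),(0,0),(11,1),(0,3)]⟩ ⟨0,[(35,0)]⟩),(.x (-1) ⟨3,[(20,0),(0,0),(11,1),(0,3)]⟩ ⟨0,
  [(35,0)]⟩),.k,.k,⟨false,1,⟨0,[(0,0)]⟩,⟨0,[(18,0),(4,0),(14,0)]⟩⟩,⟨true,0,⟨0,[(22,0)]⟩,⟨2,[(5,0),
  (17,2),(1,1),(2,0)]⟩⟩,⟨true,0,⟨0,[(43,0)]⟩,⟨0,[]⟩⟩,⟨false,0,⟨0,[(14,0),(28,0)]⟩,⟨0,[(3,0),(0,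
  0)]⟩⟩,⟨false,0,⟨0,[]⟩,⟨0,[]⟩⟩,⟨false,0,⟨0,[]⟩,⟨0,[]⟩⟩,[.o ⟨false,0,⟨0,[(38,0)]⟩,⟨3,[(3,3),(16,0),
  (0,0),(19,1)]⟩⟩,.o ⟨false,1,⟨7,[(17,3),(2,0),(0,2),(16,3)]⟩,⟨0,[(3,0)]⟩⟩,.o ⟨false,1,⟨1,[(23,1),
  (9,0),(6,0)]⟩,⟨2,[(5,0),(16,2),(2,1),(2,0)]⟩⟩,.a ⟨true,0,⟨0,[(23,0)]⟩,⟨0,[(22,0)]⟩⟩ ⟨false,1,⟨1,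
  [(20,0),(19,0)]⟩,⟨0,[(18,0),(4,0)]⟩⟩ ⟨true,0,⟨0,[(22,0),(15,0)]⟩,⟨0,[(3,0),(19,0)]⟩⟩]⟩) (.R ⟨0,
  false,false,true,[1,0,0,-1],[1,0,-1],[1,0,0,0,0,0,0,0,-1],(⟨0,[(22,0)]⟩,⟨0,[(23,0)]⟩),(⟨0,[(31,
  0)]⟩,⟨0,[(32,0)]⟩),⟨0,[(2,0)]⟩,.k,.k,(.x (-1) ⟨3,[(20,0),(0,0),(11,1),(0,3)]⟩ ⟨0,[(35,0)]⟩),.k,.k,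
  .k,⟨false,1,⟨1,[(1,1),(1,0),(5,0),(12,1),(7,1)]⟩,⟨13,[(0,9),(4,2),(0,5),(1,7),(4,2),(7,1),(14,
  3)]⟩⟩,⟨true,0,⟨0,[(22,0),(2,0)]⟩,⟨1,[(5,0),(7,0),(9,1)]⟩⟩,⟨true,0,⟨0,[]⟩,⟨0,[(43,0)]⟩⟩,⟨false,0,
  ⟨0,[(18,0),(8,0)]⟩,⟨1,[(3,0),(0,1),(4,0)]⟩⟩,⟨false,0,⟨0,[]⟩,⟨0,[]⟩⟩,⟨false,0,⟨0,[]⟩,⟨0,[]⟩⟩,[.o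
  ⟨false,0,⟨0,[(24,0)]⟩,⟨7,[(19,3),(0,0),(0,0),(11,1),(7,3)]⟩⟩,.o ⟨false,1,⟨5,[(1,1),(16,1),(1,0),
  (0,0),(5,3),(5,1)]⟩,⟨1,[(3,0),(5,0)]⟩⟩,.o ⟨false,1,⟨1,[(23,1),(9,0),(6,0)]⟩,⟨6,[(0,1),(2,0),(1,0),
  (9,0),(2,1),(1,1),(1,4),(1,0),(0,0)]⟩⟩,.a ⟨true,0,⟨0,[(23,0)]⟩,⟨0,[(22,0)]⟩⟩ ⟨false,1,⟨1,[(1,1),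
  (1,0),(5,0),(12,1)]⟩,⟨5,[(0,1),(20,1),(6,0),(0,0),(9,1)]⟩⟩ ⟨true,0,⟨0,[(22,0),(1,0)]⟩,⟨1,[(3,0),
  (5,0),(13,1)]⟩⟩]⟩))))))))) (.Q [0,0,0,1,0,0,1,0,0,1,-1] (.p false [0,0,1] [1] (⟨0,[(24,0)]⟩,⟨0,
  [(23,0)]⟩) .k 1 (⟨0,[]⟩,⟨0,[]⟩) .k .k) (.Q [0,0,0,0,0,0,-1,0,0,0,1] (.p true [0,0,1] [] (⟨0,[(25,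
  0)]⟩,⟨0,[(24,0)]⟩) .k 0 (⟨0,[]⟩,⟨0,[]⟩) .k .k) (.R ⟨0,false,false,true,[0,0,1],[1,-1],[1,1,1],(⟨0,
  [(26,0)]⟩,⟨0,[(25,0)]⟩),(⟨0,[(28,0)]⟩,⟨0,[(29,0)]⟩),⟨0,[(10,0)]⟩,.k,.k,.k,.k,.k,.k,⟨false,0,⟨22,
  [(1,0),(0,7),(1,1),(3,1),(2,3),(3,1),(2,0),(2,4),(0,6)]⟩,⟨0,[(33,0),(0,0)]⟩⟩,⟨true,0,⟨0,[(19,0)]⟩,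
  ⟨0,[(7,0)]⟩⟩,⟨false,0,⟨0,[(7,0),(10,0),(12,0)]⟩,⟨1,[(24,1),(9,0),(0,0)]⟩⟩,⟨true,0,⟨0,[(18,0),(14,
  0)]⟩,⟨1,[(0,0),(0,0),(1,0)]⟩⟩,⟨false,0,⟨0,[]⟩,⟨0,[]⟩⟩,⟨false,0,⟨0,[]⟩,⟨0,[]⟩⟩,[.o ⟨false,0,⟨1,[(9,
  0),(8,0),(14,0)]⟩,⟨11,[(1,1),(0,1),(1,1),(3,1),(2,3),(3,1),(11,0),(6,1),(0,2)]⟩⟩,.e ⟨false,0,⟨0,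
  []⟩,⟨3,[(14,0),(0,0),(18,1)]⟩⟩ ⟨false,1,⟨1,[(0,1),(26,0),(5,1),(0,0)]⟩,⟨0,[(1,0)]⟩⟩,.a ⟨true,0,⟨0,
  [(7,0)]⟩,⟨0,[(0,0)]⟩⟩ ⟨false,0,⟨1,[(22,0),(0,0)]⟩,⟨1,[(34,0),(0,0)]⟩⟩ ⟨true,0,⟨1,[(0,1),(8,0),(8,
  0),(14,0)]⟩,⟨0,[(1,0)]⟩⟩,.o ⟨false,0,⟨0,[(22,0)]⟩,⟨1,[(0,1),(26,0),(6,0)]⟩⟩]⟩) (.Q [0,0,0,1,0,0,0,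
  0,0,1] (.pp false [-1,1]) (.R ⟨0,false,false,false,[0,0,1],[1,-1],[0,0,0,-1,0,0,0,1],(⟨0,[(27,
  0)]⟩,⟨0,[(26,0)]⟩),(⟨0,[(29,0)]⟩,⟨0,[(30,0)]⟩),⟨0,[(11,0)]⟩,.k,.k,.k,.k,.k,.k,⟨false,0,⟨0,[(25,
  0)]⟩,⟨1,[(8,1),(10,1),(15,0),(0,0)]⟩⟩,⟨true,0,⟨0,[(20,0)]⟩,⟨0,[(8,0)]⟩⟩,⟨true,0,⟨0,[(34,0)]⟩,⟨0,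
  [(33,0)]⟩⟩,⟨false,1,⟨0,[(19,0),(14,0),(1,0)]⟩,⟨1,[(0,0),(3,0)]⟩⟩,⟨false,0,⟨0,[]⟩,⟨0,[]⟩⟩,⟨false,0,
  ⟨0,[]⟩,⟨0,[]⟩⟩,[.a ⟨true,0,⟨0,[(34,0)]⟩,⟨0,[(0,0)]⟩⟩ ⟨true,0,⟨0,[(25,0),(8,0)]⟩,⟨0,[(2,0),(16,0),
  (12,0)]⟩⟩ ⟨false,1,⟨0,[(20,0),(13,0),(0,0)]⟩,⟨0,[(2,0)]⟩⟩,.o ⟨false,1,⟨1,[(28,0),(5,1),(1,0)]⟩,⟨0,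
  [(33,0)]⟩⟩,.o ⟨false,0,⟨0,[(1,0)]⟩,⟨1,[(24,1),(3,0),(6,0)]⟩⟩,.o ⟨false,0,⟨0,[(23,0)]⟩,⟨0,[(20,0),
  (14,0)]⟩⟩]⟩) (.Q [0,0,0,0,0,1,0,0,0,-1,0,1] (.p true [0,0,0,1] [1] (⟨0,[(18,0)]⟩,⟨0,[(17,0)]⟩) .k
  1 (⟨0,[]⟩,⟨0,[]⟩) .k .k) (.I [0,1,-2,-1,1,0,0,-1,-1] (.R ⟨0,false,false,false,[1,0,0,-1],[0,1,1],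
  [0,1,0,0,0,0,0,0,-1],(⟨0,[(19,0)]⟩,⟨0,[(20,0)]⟩),(⟨0,[(29,0),(2,0)]⟩,⟨0,[(8,0)]⟩),⟨0,[(1,0)]⟩,.k,
  .k,(.x (-1) ⟨3,[(17,0),(0,0),(11,1),(0,3)]⟩ ⟨0,[(32,0)]⟩),(.r (-1) ⟨0,[(0,0),(33,0)]⟩ ⟨1,[(5,0),
  (12,0),(8,0)]⟩),.k,.k,⟨false,1,⟨0,[(0,0)]⟩,⟨1,[(5,0),(9,1),(4,1),(6,0),(9,0)]⟩⟩,⟨true,0,⟨0,[(3,0),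
  (15,0)]⟩,⟨0,[(20,0),(1,0)]⟩⟩,⟨true,0,⟨0,[(40,0)]⟩,⟨0,[]⟩⟩,⟨false,0,⟨1,[(6,0),(4,0),(3,0)]⟩,⟨0,[(7,
  0),(28,0)]⟩⟩,⟨false,0,⟨0,[]⟩,⟨0,[]⟩⟩,⟨false,0,⟨0,[]⟩,⟨0,[]⟩⟩,[.o ⟨false,0,⟨3,[(2,0),(0,1),(1,1),
  (0,0),(30,1)]⟩,⟨7,[(0,1),(17,0),(2,5),(3,0),(0,2),(3,0),(5,5),(1,3)]⟩⟩,.o ⟨false,1,⟨17,[(4,1),(0,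
  1),(0,7),(7,3),(3,1),(11,4),(6,1),(0,6)]⟩,⟨0,[(21,0),(14,0)]⟩⟩,.o ⟨false,1,⟨1,[(20,1),(9,0),(6,
  0)]⟩,⟨11,[(2,2),(2,1),(6,0),(2,3),(1,1),(1,7),(1,2),(0,0),(2,2)]⟩⟩,.a ⟨true,0,⟨0,[(20,0)]⟩,⟨0,
  [(19,0)]⟩⟩ ⟨false,1,⟨1,[(17,0),(19,0)]⟩,⟨0,[(15,0),(4,0)]⟩⟩ ⟨true,0,⟨3,[(2,0),(0,1),(1,1),(0,0),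
  (12,3),(17,1)]⟩,⟨0,[(20,0),(0,0),(14,0)]⟩⟩]⟩) (.I [1,1,-1,0,0,0,0,1] (.R ⟨0,false,false,true,[1,0,
  0,-1],[0,0,1],[1,1,0,0,0,0,0,1],(⟨0,[(20,0)]⟩,⟨0,[(21,0)]⟩),(⟨0,[(30,0)]⟩,⟨0,[(29,0)]⟩),⟨0,[(2,
  0)]⟩,.k,.k,(.x (-1) ⟨3,[(18,0),(0,0),(11,1),(0,3)]⟩ ⟨0,[(33,0)]⟩),.k,.k,.k,⟨true,0,⟨0,[]⟩,⟨1,[(26,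
  0),(0,0)]⟩⟩,⟨false,0,⟨0,[(4,0),(15,0)]⟩,⟨5,[(0,1),(0,1),(1,1),(4,3),(10,0),(1,1),(5,1),(10,2)]⟩⟩,
  ⟨false,0,⟨3,[(0,1),(0,1),(17,0),(17,1),(0,0)]⟩,⟨0,[(4,0),(3,0),(11,0),(14,0)]⟩⟩,⟨true,(-1),⟨0,[(1,
  0),(2,0),(15,0),(13,0),(2,0)]⟩,⟨0,[(8,0)]⟩⟩,⟨false,0,⟨0,[]⟩,⟨0,[]⟩⟩,⟨false,0,⟨0,[]⟩,⟨0,[]⟩⟩,[.o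
  ⟨false,0,⟨0,[(24,0)]⟩,⟨0,[(22,0),(16,0)]⟩⟩,.o ⟨false,0,⟨1,[(3,0),(3,0)]⟩,⟨1,[(25,1),(5,0),(7,
  0)]⟩⟩,.o ⟨false,1,⟨1,[(21,1),(9,0),(6,0)]⟩,⟨11,[(3,2),(2,1),(6,0),(2,3),(1,1),(1,7),(1,2),(0,0),
  (2,2)]⟩⟩,.a ⟨true,0,⟨0,[(21,0)]⟩,⟨0,[(20,0)]⟩⟩ ⟨true,0,⟨0,[(0,0)]⟩,⟨0,[(11,0),(10,0),(12,0)]⟩⟩
  ⟨false,0,⟨1,[(3,0),(3,0),(12,1)]⟩,⟨0,[(21,0),(0,0),(16,0)]⟩⟩]⟩) (.R ⟨0,false,false,true,[1,0,0,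
  -1],[0,0,1],[1,0,1],(⟨0,[(20,0)]⟩,⟨0,[(21,0)]⟩),(⟨0,[(30,0)]⟩,⟨0,[(29,0)]⟩),⟨0,[(2,0)]⟩,.k,.k,(.x
  (-1) ⟨3,[(18,0),(0,0),(11,1),(0,3)]⟩ ⟨0,[(33,0)]⟩),.k,.k,.k,⟨true,0,⟨0,[(0,0)]⟩,⟨2,[(24,0),(2,0),
  (0,1),(5,0)]⟩⟩,⟨false,0,⟨0,[(4,0),(15,0)]⟩,⟨0,[(21,0),(1,0),(14,0)]⟩⟩,⟨false,0,⟨0,[(16,0),(4,0)]⟩,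
  ⟨1,[(18,0),(19,0)]⟩⟩,⟨true,(-1),⟨0,[(1,0),(2,0),(15,0),(13,0),(2,0)]⟩,⟨0,[(8,0)]⟩⟩,⟨false,0,⟨0,
  []⟩,⟨0,[]⟩⟩,⟨false,0,⟨0,[]⟩,⟨0,[]⟩⟩,[.o ⟨false,0,⟨0,[(24,0)]⟩,⟨0,[(22,0),(16,0)]⟩⟩,.o ⟨false,0,⟨1,
  [(3,0),(3,0)]⟩,⟨1,[(25,1),(5,0),(7,0)]⟩⟩,.o ⟨false,1,⟨1,[(21,1),(9,0),(6,0)]⟩,⟨11,[(3,2),(2,1),(6,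
  0),(2,3),(1,1),(1,7),(1,2),(0,0),(2,2)]⟩⟩,.a ⟨true,0,⟨0,[(21,0)]⟩,⟨0,[(20,0)]⟩⟩ ⟨true,0,⟨0,[]⟩,⟨0,
  [(41,0)]⟩⟩ ⟨false,0,⟨1,[(3,0),(3,0),(12,1)]⟩,⟨0,[(21,0),(0,0),(16,0)]⟩⟩]⟩))) (.Q [0,0,0,0,0,0,-1,
  0,0,1,1] (.p true [1,-1,1] [] (⟨0,[(28,0),(1,0)]⟩,⟨0,[(12,0)]⟩) .k 0 (⟨0,[]⟩,⟨0,[]⟩) .k .k) (.K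
  ⟨0,[1,-1,1],0,0,(⟨0,[(29,0),(1,0)]⟩,⟨0,[(13,0)]⟩),.k,(.r (-1) ⟨0,[(27,0),(8,1),(0,0)]⟩ ⟨4,[(4,3),
  (0,1),(1,1),(3,1),(9,3),(2,0),(0,2),(8,2)]⟩),.k,.k,.k,[⟨0,[(0,0)]⟩,⟨0,[(3,0)]⟩,⟨0,[(0,0),(3,0),
  (16,0)]⟩,⟨0,[(12,0)]⟩]⟩) (.I [1,1,0,0,0,0,0,-1,-1] (.R ⟨1,false,false,false,[1,0,0,-1],[0,0,1],[1,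
  1,0,0,0,0,0,0,-1],(⟨0,[(20,0)]⟩,⟨0,[(21,0)]⟩),(⟨0,[(30,0)]⟩,⟨0,[(29,0)]⟩),⟨0,[(2,0)]⟩,.k,.k,(.x
  (-1) ⟨3,[(18,0),(0,0),(11,1),(0,3)]⟩ ⟨0,[(33,0)]⟩),.k,(.r (-1) ⟨1,[(0,1),(36,1),(0,0),(0,0)]⟩ ⟨1,
  [(6,0),(12,0),(8,0)]⟩),.k,⟨true,0,⟨0,[(0,0)]⟩,⟨0,[(16,0),(4,0),(6,0)]⟩⟩,⟨false,0,⟨1,[(1,0),(9,0),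
  (8,1)]⟩,⟨0,[(21,0),(1,0),(14,0)]⟩⟩,⟨false,0,⟨0,[]⟩,⟨3,[(18,0),(0,0),(19,1)]⟩⟩,⟨false,0,⟨1,[(12,0),
  (3,0),(0,0),(19,0)]⟩,⟨0,[(8,0)]⟩⟩,⟨true,0,⟨0,[(36,0)]⟩,⟨0,[(37,0)]⟩⟩,⟨false,0,⟨1,[(7,0),(4,0),(3,
  0)]⟩,⟨0,[(8,0),(28,0)]⟩⟩,[.o ⟨false,0,⟨2,[(1,0),(15,0),(10,0)]⟩,⟨1,[(25,1),(5,0),(7,0)]⟩⟩,.o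
  ⟨false,1,⟨7,[(17,3),(0,0),(0,0),(11,1),(7,3)]⟩,⟨0,[(22,0)]⟩⟩,.o ⟨false,1,⟨1,[(21,1),(9,0),(6,0)]⟩,
  ⟨8,[(0,2),(5,0),(6,1),(2,4),(1,0),(1,3),(2,1)]⟩⟩,.a ⟨true,0,⟨0,[(21,0)]⟩,⟨0,[(20,0)]⟩⟩ ⟨false,1,
  ⟨1,[(18,0),(19,0)]⟩,⟨0,[(16,0),(4,0)]⟩⟩ ⟨true,0,⟨2,[(1,0),(15,0),(2,2),(7,0)]⟩,⟨0,[(21,0),(0,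
  0)]⟩⟩]⟩) (.Q [0,-1,-1,-1,1,0,0,0,-1,-1,0,1] (.p true [0,0,0,1] [1] (⟨0,[(21,0)]⟩,⟨0,[(20,0)]⟩) .k
  1 (⟨0,[]⟩,⟨0,[]⟩) .k .k) (.R ⟨1,false,false,false,[1,0,0,-1],[1,-1],[0,0,0,-1,0,0,0,0,-1],(⟨0,
  [(21,0)]⟩,⟨0,[(22,0)]⟩),(⟨0,[(33,0)]⟩,⟨0,[(34,0)]⟩),⟨0,[(3,0)]⟩,.k,.k,(.x (-1) ⟨3,[(19,0),(0,0),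
  (11,1),(0,3)]⟩ ⟨0,[(34,0)]⟩),(.r 0 ⟨0,[(0,0),(6,0),(4,0),(8,0),(1,0)]⟩ ⟨1,[(20,0),(17,1),(0,0)]⟩),
  .k,.k,⟨true,0,⟨0,[(0,0),(6,0),(4,0),(8,0),(1,0),(14,0)]⟩,⟨0,[(1,0),(10,0),(10,0)]⟩⟩,⟨false,0,⟨11,
  [(4,2),(2,1),(6,0),(2,3),(1,1),(1,7),(1,2),(0,0),(2,2)]⟩,⟨0,[(22,0),(16,0)]⟩⟩,⟨true,0,⟨0,[(38,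
  0)]⟩,⟨0,[(37,0)]⟩⟩,⟨false,0,⟨0,[(17,0),(20,0)]⟩,⟨2,[(6,0),(0,0),(1,0),(9,0),(2,1),(16,1)]⟩⟩,
  ⟨false,1,⟨3,[(19,0),(0,0),(19,1)]⟩,⟨0,[]⟩⟩,⟨false,0,⟨0,[(17,0)]⟩,⟨1,[(19,0),(2,1),(16,0)]⟩⟩,[.o
  ⟨false,0,⟨0,[(4,0)]⟩,⟨7,[(16,3),(2,0),(0,2),(16,3)]⟩⟩,.o ⟨false,1,⟨7,[(0,3),(16,3),(1,0),(0,0),
  (11,1),(5,3)]⟩,⟨0,[(37,0)]⟩⟩,.o ⟨false,1,⟨1,[(22,1),(9,0),(6,0)]⟩,⟨11,[(4,2),(2,1),(6,0),(2,3),(1,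
  1),(1,7),(1,2),(0,0),(2,2)]⟩⟩,.a ⟨true,0,⟨0,[(22,0)]⟩,⟨0,[(21,0)]⟩⟩ ⟨false,1,⟨0,[(0,0),(20,0)]⟩,
  ⟨5,[(2,0),(4,1),(4,0),(0,1),(6,1),(1,1),(0,1)]⟩⟩ ⟨true,0,⟨0,[(4,0),(16,0)]⟩,⟨0,[(22,0),(14,
  0)]⟩⟩]⟩) (.K ⟨0,[0,0,0,1],0,(-1),(⟨0,[(22,0)]⟩,⟨0,[(21,0)]⟩),.k,(.r (-1) ⟨1,[(20,0),(17,1),(0,
  0)]⟩ ⟨1,[(2,0),(4,1),(1,1),(2,0),(8,1),(16,1)]⟩),(.x 0 ⟨0,[(34,0)]⟩ ⟨3,[(19,0),(0,0),(11,1),(0,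
  3)]⟩),.k,.k,[⟨0,[(22,0)]⟩,⟨0,[(21,0)]⟩,⟨7,[(19,4),(0,0),(1,7),(12,3),(3,1)]⟩,⟨0,[(0,0),(3,
  0)]⟩]⟩))))))) (.Q [0,1,0,1,0,0,-1,-1,0,0,1] (.p true [0,0,1] [] (⟨0,[(25,0)]⟩,⟨0,[(24,0)]⟩) .k 0
  (⟨0,[]⟩,⟨0,[]⟩) .k .k) (.Q [0,0,0,1,0,0,0,0,0,1] (.pp false [-1,1]) (.R ⟨0,false,false,true,[0,0,
  1],[1,-1],[1,1,1],(⟨0,[(27,0)]⟩,⟨0,[(26,0)]⟩),(⟨0,[(29,0)]⟩,⟨0,[(30,0)]⟩),⟨0,[(11,0)]⟩,.k,.k,.k,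
  .k,.k,.k,⟨false,0,⟨13,[(1,3),(1,3),(8,1),(3,0),(6,4),(0,0),(11,0)]⟩,⟨0,[(34,0),(0,0)]⟩⟩,⟨true,0,
  ⟨0,[(20,0)]⟩,⟨0,[(8,0)]⟩⟩,⟨false,0,⟨0,[(8,0),(10,0),(12,0)]⟩,⟨1,[(25,1),(9,0),(0,0)]⟩⟩,⟨true,0,⟨0,
  [(19,0),(14,0)]⟩,⟨1,[(0,0),(3,0)]⟩⟩,⟨false,0,⟨0,[]⟩,⟨0,[]⟩⟩,⟨false,0,⟨0,[]⟩,⟨0,[]⟩⟩,[.o ⟨false,0,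
  ⟨1,[(10,0),(8,0),(14,0)]⟩,⟨0,[(33,0),(2,0)]⟩⟩,.a ⟨true,0,⟨0,[(34,0)]⟩,⟨0,[(0,0)]⟩⟩ ⟨false,0,⟨0,
  []⟩,⟨3,[(15,0),(0,0),(18,1)]⟩⟩ ⟨true,0,⟨0,[(2,0)]⟩,⟨0,[(0,0),(22,0)]⟩⟩,.e ⟨false,0,⟨1,[(23,0),(0,
  0)]⟩,⟨1,[(35,0),(0,0)]⟩⟩ ⟨false,0,⟨0,[(2,0)]⟩,⟨0,[(8,0),(24,0),(2,0)]⟩⟩,.o ⟨false,0,⟨0,[(23,0)]⟩,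
  ⟨0,[(20,0),(14,0)]⟩⟩]⟩) (.Q [0,0,0,0,0,0,-1,0,0,1,1] (.p true [1,-1,1] [] (⟨0,[(27,0),(1,0)]⟩,⟨0,
  [(11,0)]⟩) .k 0 (⟨0,[]⟩,⟨0,[]⟩) .k .k) (.K ⟨2,[1,-1,1],0,0,(⟨0,[(28,0),(1,0)]⟩,⟨0,[(12,0)]⟩),.k,
  (.r (-1) ⟨3,[(0,0),(2,2),(11,1),(19,4),(0,3)]⟩ ⟨0,[(4,0),(4,1),(10,1),(16,0)]⟩),.k,.k,.k,[⟨0,[(1,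
  0)]⟩,⟨1,[(0,0),(1,1),(6,0)]⟩,⟨0,[(0,0)]⟩,⟨5,[(1,1),(2,0),(15,0),(0,0),(2,7),(4,0),(3,0)]⟩]⟩) (.Q
  [0,1,1,0,-1,0,0,0,1,0,0,-1] (.p false [0,0,0,1] [] (⟨0,[(19,0)]⟩,⟨0,[(18,0)]⟩) .k 0 (⟨0,[]⟩,⟨0,
  []⟩) .k .k) (.K ⟨0,[0,0,0,1],0,(-1),(⟨0,[(20,0)]⟩,⟨0,[(19,0)]⟩),.k,(.r (-1) ⟨1,[(18,0),(17,1),(0,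
  0)]⟩ ⟨1,[(1,0),(3,1),(1,1),(2,0),(8,1),(16,1)]⟩),(.x 0 ⟨0,[(32,0)]⟩ ⟨3,[(17,0),(0,0),(11,1),(0,
  3)]⟩),.k,.k,[⟨0,[(20,0)]⟩,⟨0,[(19,0)]⟩,⟨7,[(17,4),(0,0),(1,7),(12,3),(3,1)]⟩,⟨0,[(0,0)]⟩]⟩) (.Q
  [0,1,1,-1,-1,0,0,0,1,0,0,-1] (.p false [0,0,0,1] [] (⟨0,[(20,0)]⟩,⟨0,[(19,0)]⟩) .k 0 (⟨0,[]⟩,⟨0,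
  []⟩) .k .k) (.R ⟨2,true,false,true,[0,1],[0,0,0,1],[1,1,1,1],(⟨0,[]⟩,⟨0,[]⟩),(⟨0,[(21,0)]⟩,⟨0,
  [(20,0)]⟩),⟨0,[]⟩,.k,.k,.k,(.r 0 ⟨1,[(2,0),(3,1),(1,1),(2,0),(8,1),(16,1)]⟩ ⟨1,[(19,0),(17,1),(0,
  0)]⟩),.k,.k,⟨true,0,⟨1,[(2,0),(3,1),(1,1),(2,0),(8,1),(16,1)]⟩,⟨1,[(0,0),(15,0),(4,1),(15,0),(0,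
  0)]⟩⟩,⟨false,0,⟨17,[(0,5),(1,1),(1,1),(1,1),(9,7),(1,6),(1,3),(10,0)]⟩,⟨0,[(21,0),(16,0)]⟩⟩,
  ⟨false,0,⟨0,[]⟩,⟨3,[(18,0),(0,0),(19,1)]⟩⟩,⟨true,(-1),⟨0,[(0,0)]⟩,⟨0,[(1,0),(34,0)]⟩⟩,⟨true,0,⟨0,
  [(36,0)]⟩,⟨0,[(37,0)]⟩⟩,⟨false,0,⟨7,[(0,3),(11,3),(5,0),(0,0),(11,1)]⟩,⟨0,[(1,0)]⟩⟩,[]⟩) (.Q [0,0,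
  2,0,-1,0,1,0,0,0,-1] (.p false [0,0,1] [] (⟨0,[(30,0)]⟩,⟨0,[(29,0)]⟩) .k 0 (⟨0,[]⟩,⟨0,[]⟩) .k .k)
  (.Q [0,0,-2,0,1,0,-1,0,0,1,1] (.p true [1,-1,1] [] (⟨0,[(31,0),(1,0)]⟩,⟨0,[(15,0)]⟩) .k 0 (⟨0,[]⟩,
  ⟨0,[]⟩) .k .k) (.K ⟨0,[0,1,-1],1,0,(⟨0,[(16,0)]⟩,⟨0,[(32,0),(1,0)]⟩),.k,.k,(.r 0 ⟨5,[(1,5),(0,1),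
  (3,5),(7,1),(2,1),(3,0),(11,0)]⟩ ⟨3,[(0,0),(6,2),(11,1),(19,4),(0,2)]⟩),.k,.k,[⟨0,[(1,0)]⟩,⟨0,[(0,
  0)]⟩,⟨0,[(26,0),(12,0)]⟩,⟨0,[(6,0)]⟩]⟩) (.K ⟨2,[1,-1,1],(-1),0,(⟨0,[(32,0),(1,0)]⟩,⟨0,[(16,0)]⟩),
  .k,(.r (-1) ⟨0,[(30,0),(8,1),(0,0)]⟩ ⟨3,[(0,0),(0,2),(0,0),(3,3),(7,0),(2,1),(3,0)]⟩),.k,.k,.k,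
  [⟨0,[(5,0)]⟩,⟨0,[(6,0),(15,0),(0,0)]⟩,⟨2,[(3,1),(17,0),(0,2),(0,0),(5,2),(6,0)]⟩,⟨0,[(0,0)]⟩]⟩))
  (.Q [0,0,0,0,0,-1,0,0,0,1,0,-1] (.p false [0,0,0,1] [1] (⟨0,[(22,0)]⟩,⟨0,[(21,0)]⟩) .k 1 (⟨0,[]⟩,
  ⟨0,[]⟩) .k .k) (.I [0,0,0,-1,0,0,0,0,1] (.R ⟨1,false,false,false,[1,0,0,-1],[1,-1],[1,0,0,0,0,0,0,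
  0,-1],(⟨0,[(23,0)]⟩,⟨0,[(24,0)]⟩),(⟨0,[(35,0)]⟩,⟨0,[(36,0)]⟩),⟨0,[(1,0)]⟩,.k,.k,(.x (-1) ⟨3,[(21,
  0),(0,0),(11,1),(0,3)]⟩ ⟨0,[(36,0)]⟩),(.r 0 ⟨1,[(5,0),(3,1),(1,1),(2,0),(8,1),(16,1)]⟩ ⟨1,[(22,0),
  (17,1),(0,0)]⟩),.k,.k,⟨true,0,⟨1,[(5,0),(3,1),(1,1),(2,0),(8,1),(16,1)]⟩,⟨0,[(0,0)]⟩⟩,⟨false,0,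
  ⟨11,[(6,2),(2,1),(6,0),(2,3),(1,1),(1,7),(1,2),(0,0),(2,2)]⟩,⟨0,[(24,0),(16,0)]⟩⟩,⟨true,0,⟨0,[]⟩,
  ⟨0,[(44,0)]⟩⟩,⟨false,0,⟨0,[(19,0),(20,0)]⟩,⟨15,[(3,11),(17,2),(0,0),(1,3),(12,3),(1,3)]⟩⟩,⟨false,
  1,⟨5,[(3,1),(11,1),(2,1),(3,0),(11,0)]⟩,⟨0,[(40,0)]⟩⟩,⟨false,0,⟨0,[(19,0)]⟩,⟨11,[(4,7),(16,2),(0,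
  0),(1,3),(12,3)]⟩⟩,[.o ⟨false,0,⟨0,[(6,0)]⟩,⟨7,[(18,3),(2,0),(0,2),(16,3)]⟩⟩,.o ⟨false,1,⟨1,[(34,
  0),(5,1),(1,0)]⟩,⟨0,[(39,0)]⟩⟩,.o ⟨false,1,⟨1,[(24,1),(9,0),(6,0)]⟩,⟨11,[(6,2),(2,1),(6,0),(2,3),
  (1,1),(1,7),(1,2),(0,0),(2,2)]⟩⟩,.a ⟨true,0,⟨0,[(24,0)]⟩,⟨0,[(23,0)]⟩⟩ ⟨false,1,⟨1,[(3,0),(0,0),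
  (0,0),(2,0),(14,1)]⟩,⟨9,[(0,3),(8,1),(9,1),(2,1),(1,1),(3,1),(0,2),(0,0)]⟩⟩ ⟨true,0,⟨0,[(6,0),(16,
  0)]⟩,⟨0,[(24,0),(14,0)]⟩⟩]⟩) (.R ⟨1,false,false,true,[1,0,0,-1],[0,1],[1,1,0,0,0,0,0,0,-1],(⟨0,
  [(23,0)]⟩,⟨0,[(24,0)]⟩),(⟨0,[(36,0)]⟩,⟨0,[(35,0)]⟩),⟨0,[(1,0)]⟩,.k,.k,(.x (-1) ⟨3,[(21,0),(0,0),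
  (11,1),(0,3)]⟩ ⟨0,[(36,0)]⟩),(.x (-1) ⟨3,[(21,0),(0,0),(11,1),(0,3)]⟩ ⟨0,[(36,0)]⟩),(.r (-1) ⟨0,
  [(0,0),(39,2),(0,0)]⟩ ⟨15,[(5,1),(1,9),(1,9),(5,1),(6,6),(1,1),(4,7),(8,1),(3,2)]⟩),.k,⟨false,1,
  ⟨0,[(0,0),(39,1),(0,0)]⟩,⟨5,[(5,0),(1,1),(1,1),(4,0),(4,1),(2,1),(1,1)]⟩⟩,⟨true,0,⟨0,[(23,0)]⟩,⟨2,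
  [(5,0),(18,2),(1,1),(2,0)]⟩⟩,⟨false,0,⟨0,[]⟩,⟨3,[(21,0),(0,0),(19,1)]⟩⟩,⟨false,0,⟨0,[(15,0),(28,
  0)]⟩,⟨0,[(4,0),(1,0)]⟩⟩,⟨true,0,⟨0,[(39,0)]⟩,⟨0,[(40,0)]⟩⟩,⟨false,0,⟨0,[(15,0),(23,0)]⟩,⟨0,[(4,0),
  (1,0),(33,0)]⟩⟩,[.o ⟨false,0,⟨0,[(39,0)]⟩,⟨1,[(34,0),(5,1),(1,0)]⟩⟩,.o ⟨false,1,⟨7,[(18,3),(2,0),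
  (0,2),(16,3)]⟩,⟨0,[(6,0)]⟩⟩,.o ⟨false,1,⟨1,[(24,1),(9,0),(6,0)]⟩,⟨11,[(6,2),(2,1),(6,0),(2,3),(1,
  1),(1,7),(1,2),(0,0),(2,2)]⟩⟩,.a ⟨true,0,⟨0,[(24,0)]⟩,⟨0,[(23,0)]⟩⟩ ⟨false,1,⟨1,[(21,0),(19,0)]⟩,
  ⟨0,[(19,0),(4,0)]⟩⟩ ⟨true,0,⟨0,[(23,0),(15,0)]⟩,⟨0,[(6,0),(17,0)]⟩⟩]⟩)) (.I [1,0,0,0,0,0,0,0,-1]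
  (.R ⟨0,false,false,true,[1,0,0,-1],[0,1],[0,1],(⟨0,[(23,0)]⟩,⟨0,[(24,0)]⟩),(⟨0,[(36,0)]⟩,⟨0,[(35,
  0)]⟩),⟨0,[(1,0)]⟩,.k,.k,(.x (-1) ⟨3,[(21,0),(0,0),(11,1),(0,3)]⟩ ⟨0,[(36,0)]⟩),(.x (-1) ⟨3,[(21,
  0),(0,0),(11,1),(0,3)]⟩ ⟨0,[(36,0)]⟩),.k,.k,⟨false,1,⟨0,[(40,0),(0,0)]⟩,⟨13,[(7,3),(1,3),(8,1),(3,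
  0),(6,4),(0,0),(11,0)]⟩⟩,⟨true,0,⟨0,[(23,0)]⟩,⟨2,[(5,0),(18,2),(1,1),(2,0)]⟩⟩,⟨true,0,⟨0,[(19,0),
  (4,0),(12,0)]⟩,⟨0,[(0,0)]⟩⟩,⟨false,0,⟨0,[(15,0),(28,0)]⟩,⟨0,[(4,0),(1,0)]⟩⟩,⟨false,0,⟨0,[]⟩,⟨0,
  []⟩⟩,⟨false,0,⟨0,[]⟩,⟨0,[]⟩⟩,[.o ⟨false,0,⟨0,[(39,0)]⟩,⟨1,[(34,0),(5,1),(1,0)]⟩⟩,.o ⟨false,1,⟨7,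
  [(18,3),(2,0),(0,2),(16,3)]⟩,⟨0,[(6,0)]⟩⟩,.o ⟨false,1,⟨1,[(24,1),(9,0),(6,0)]⟩,⟨11,[(0,2),(8,0),
  (6,1),(2,4),(1,0),(1,6),(1,2),(0,1),(2,2)]⟩⟩,.a ⟨true,0,⟨0,[(24,0)]⟩,⟨0,[(23,0)]⟩⟩ ⟨false,1,⟨3,
  [(21,0),(0,0),(18,1)]⟩,⟨0,[(38,0)]⟩⟩ ⟨true,0,⟨0,[(23,0),(15,0)]⟩,⟨0,[(6,0),(17,0)]⟩⟩]⟩) (.R ⟨0,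
  false,false,false,[1,0,0,-1],[1,-1],[1,0,0,-1,0,0,0,0,-1],(⟨0,[(23,0)]⟩,⟨0,[(24,0)]⟩),(⟨0,[(35,
  0)]⟩,⟨0,[(36,0)]⟩),⟨0,[(1,0)]⟩,.k,.k,(.x (-1) ⟨3,[(21,0),(0,0),(11,1),(0,3)]⟩ ⟨0,[(36,0)]⟩),(.r 0
  ⟨1,[(5,0),(3,1),(1,1),(2,0),(8,1),(16,1)]⟩ ⟨1,[(22,0),(17,1),(0,0)]⟩),.k,.k,⟨true,0,⟨1,[(5,0),(3,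
  1),(1,1),(2,0),(8,1),(16,3)]⟩,⟨0,[(0,0)]⟩⟩,⟨false,0,⟨11,[(6,2),(2,1),(6,0),(2,3),(1,1),(1,7),(1,
  2),(0,0),(2,2)]⟩,⟨0,[(24,0),(16,0)]⟩⟩,⟨true,0,⟨0,[(40,0)]⟩,⟨0,[(39,0)]⟩⟩,⟨false,0,⟨0,[(19,0),(20,
  0)]⟩,⟨15,[(3,11),(17,2),(0,0),(1,3),(12,3),(1,3)]⟩⟩,⟨false,0,⟨0,[]⟩,⟨0,[]⟩⟩,⟨false,0,⟨0,[]⟩,⟨0,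
  []⟩⟩,[.o ⟨false,0,⟨0,[(6,0)]⟩,⟨7,[(18,3),(2,0),(0,2),(16,3)]⟩⟩,.o ⟨false,1,⟨1,[(34,0),(5,1),(1,
  0)]⟩,⟨0,[(39,0)]⟩⟩,.o ⟨false,1,⟨1,[(24,1),(9,0),(6,0)]⟩,⟨11,[(6,2),(2,1),(6,0),(2,3),(1,1),(1,7),
  (1,2),(0,0),(2,2)]⟩⟩,.a ⟨true,0,⟨0,[(24,0)]⟩,⟨0,[(23,0)]⟩⟩ ⟨false,1,⟨0,[(4,0),(1,0),(16,0)]⟩,⟨6,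
  [(0,0),(4,0),(1,1),(1,1),(5,0),(3,0),(2,1),(1,1),(4,0)]⟩⟩ ⟨true,0,⟨0,[(6,0),(16,0)]⟩,⟨0,[(24,0),
  (14,0)]⟩⟩]⟩)))))))) (.Q [0,0,0,0,0,-1,0,0,0,1,0,-1] (.p false [0,0,0,1] [1] (⟨0,[(17,0)]⟩,⟨0,[(16,
  0)]⟩) .k 1 (⟨0,[]⟩,⟨0,[]⟩) .k .k) (.I [0,0,0,-1,0,0,0,0,-1] (.R ⟨1,false,false,true,[1,0,0,-1],[0,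
  1],[1,1,0,0,0,0,0,0,-1],(⟨0,[(18,0)]⟩,⟨0,[(19,0)]⟩),(⟨0,[(31,0)]⟩,⟨0,[(30,0)]⟩),⟨0,[(1,0)]⟩,.k,.k,
  (.x (-1) ⟨3,[(16,0),(0,0),(11,1),(0,3)]⟩ ⟨0,[(31,0)]⟩),(.x (-1) ⟨3,[(16,0),(0,0),(11,1),(0,3)]⟩
  ⟨0,[(31,0)]⟩),(.r (-1) ⟨0,[(0,0),(34,0),(0,0)]⟩ ⟨11,[(4,5),(1,1),(3,7),(6,2),(1,5),(0,3),(3,5),(4,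
  0),(4,3)]⟩),.k,⟨false,1,⟨0,[(0,0),(35,0)]⟩,⟨0,[(14,0),(4,0),(14,0)]⟩⟩,⟨true,0,⟨0,[(18,0)]⟩,⟨4,[(2,
  0),(0,0),(0,0),(14,4),(0,1),(3,1),(4,0),(3,0)]⟩⟩,⟨false,0,⟨0,[]⟩,⟨3,[(16,0),(0,0),(19,1)]⟩⟩,
  ⟨false,0,⟨0,[(10,0),(28,0)]⟩,⟨0,[(2,0),(3,0)]⟩⟩,⟨true,0,⟨0,[(34,0)]⟩,⟨0,[(35,0)]⟩⟩,⟨false,0,⟨0,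
  [(10,0),(23,0)]⟩,⟨0,[(2,0),(3,0),(28,0)]⟩⟩,[.o ⟨false,0,⟨0,[(34,0)]⟩,⟨1,[(29,0),(5,1),(1,0)]⟩⟩,.o
  ⟨false,1,⟨7,[(13,3),(2,0),(0,2),(16,3)]⟩,⟨0,[(2,0),(17,0)]⟩⟩,.o ⟨false,1,⟨1,[(19,1),(9,0),(6,0)]⟩,
  ⟨5,[(0,0),(3,0),(6,0),(2,2),(1,0),(1,2),(1,1),(3,0)]⟩⟩,.a ⟨true,0,⟨0,[(19,0)]⟩,⟨0,[(18,0)]⟩⟩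
  ⟨false,1,⟨1,[(16,0),(19,0)]⟩,⟨0,[(14,0),(4,0)]⟩⟩ ⟨true,0,⟨0,[(18,0),(15,0)]⟩,⟨0,[(2,0),(16,0),(0,
  0)]⟩⟩]⟩) (.R ⟨1,false,false,false,[1,0,0,-1],[1,-1],[0,0,0,-1,0,0,0,0,-1],(⟨0,[(18,0)]⟩,⟨0,[(19,
  0)]⟩),(⟨0,[(30,0)]⟩,⟨0,[(31,0)]⟩),⟨0,[(1,0)]⟩,.k,.k,(.x (-1) ⟨3,[(16,0),(0,0),(11,1),(0,3)]⟩ ⟨0,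
  [(31,0)]⟩),(.r 0 ⟨0,[(2,0),(1,0),(1,0),(2,0),(8,0),(1,0)]⟩ ⟨1,[(17,0),(17,1),(0,0)]⟩),.k,.k,⟨true,
  0,⟨0,[(2,0),(1,0),(1,0),(2,0),(8,0),(1,0),(14,0)]⟩,⟨0,[(0,0),(34,0)]⟩⟩,⟨false,0,⟨10,[(2,1),(0,0),
  (0,1),(6,0),(2,3),(1,1),(1,6),(1,4),(3,2)]⟩,⟨0,[(19,0),(16,0)]⟩⟩,⟨true,0,⟨0,[(35,0)]⟩,⟨0,[(34,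
  0)]⟩⟩,⟨false,0,⟨0,[(14,0),(20,0)]⟩,⟨3,[(4,1),(1,1),(2,1),(6,0),(2,1),(16,2)]⟩⟩,⟨false,1,⟨3,[(16,
  0),(0,0),(19,1)]⟩,⟨0,[]⟩⟩,⟨false,0,⟨0,[(14,0)]⟩,⟨1,[(16,0),(2,1),(16,0)]⟩⟩,[.o ⟨false,0,⟨0,[(2,0),
  (17,0)]⟩,⟨7,[(13,3),(2,0),(0,2),(16,3)]⟩⟩,.o ⟨false,1,⟨1,[(29,0),(5,1),(1,0)]⟩,⟨0,[(34,0)]⟩⟩,.o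
  ⟨false,1,⟨1,[(19,1),(9,0),(6,0)]⟩,⟨10,[(2,1),(0,0),(0,1),(6,0),(2,3),(1,1),(1,6),(1,4),(3,2)]⟩⟩,
  .a ⟨true,0,⟨0,[(19,0)]⟩,⟨0,[(18,0)]⟩⟩ ⟨false,1,⟨0,[(2,0),(3,0),(11,0)]⟩,⟨3,[(0,0),(3,0),(5,0),(6,
  0),(1,0),(0,0),(3,0)]⟩⟩ ⟨true,0,⟨0,[(2,0),(15,0),(1,0)]⟩,⟨0,[(19,0),(14,0)]⟩⟩]⟩)) (.Q [0,0,0,0,0,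
  0,-1,0,0,1,1] (.p true [1,-1,1] [] (⟨0,[(27,0),(1,0)]⟩,⟨0,[(11,0)]⟩) .k 0 (⟨0,[]⟩,⟨0,[]⟩) .k .k)
  (.Q [0,1,0,1,0,0,-1,-1,0,1,1] (.p true [1,-1,1] [] (⟨0,[(28,0),(1,0)]⟩,⟨0,[(12,0)]⟩) .k 0 (⟨0,[]⟩,
  ⟨0,[]⟩) .k .k) (.K ⟨1,[1,-1,1],0,0,(⟨0,[(29,0),(1,0)]⟩,⟨0,[(13,0)]⟩),.k,(.r (-1) ⟨3,[(1,2),(1,1),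
  (0,0),(7,1),(23,2),(0,3)]⟩ ⟨0,[(5,0),(4,1),(10,1),(16,0)]⟩),.k,.k,.k,[⟨0,[(1,0)]⟩,⟨4,[(3,0),(0,0),
  (0,0),(15,1),(3,6),(4,0),(3,0)]⟩,⟨0,[(0,0)]⟩,⟨0,[(3,0)]⟩]⟩) (.Q [0,0,0,0,0,0,-2,0,0,-1,2] (.p
  true [0,0,1] [1,0,-1] (⟨0,[(29,0)]⟩,⟨0,[(28,0)]⟩) .k 2 (⟨0,[(28,0)]⟩,⟨0,[(29,0)]⟩) .k (.r 0 ⟨0,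
  [(27,1)]⟩ ⟨0,[(10,1),(10,1),(16,0)]⟩)) (.R ⟨0,false,false,false,[0,0,1],[1,-1],[1,1],(⟨0,[(30,
  0)]⟩,⟨0,[(29,0)]⟩),(⟨0,[(32,0)]⟩,⟨0,[(33,0)]⟩),⟨0,[(14,0)]⟩,.k,.k,.k,.k,.k,.k,⟨false,0,⟨0,[(36,
  0)]⟩,⟨1,[(37,1),(0,0),(0,0)]⟩⟩,⟨true,0,⟨0,[(23,0)]⟩,⟨0,[(11,0)]⟩⟩,⟨true,0,⟨0,[(11,0),(10,0)]⟩,⟨0,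
  [(28,0)]⟩⟩,⟨false,1,⟨0,[(22,0),(14,0),(1,0)]⟩,⟨5,[(2,0),(3,1),(0,1),(3,2),(26,1)]⟩⟩,⟨false,0,⟨0,
  []⟩,⟨0,[]⟩⟩,⟨false,0,⟨0,[]⟩,⟨0,[]⟩⟩,[.o ⟨false,0,⟨1,[(1,0),(20,0),(14,0)]⟩,⟨7,[(15,3),(2,0),(0,2),
  (16,3)]⟩⟩,.o ⟨false,1,⟨1,[(31,0),(5,1),(1,0)]⟩,⟨0,[(36,0)]⟩⟩,.a ⟨true,0,⟨0,[(11,0)]⟩,⟨2,[(0,0),(1,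
  0)]⟩⟩ ⟨false,0,⟨0,[]⟩,⟨3,[(18,0),(0,0),(19,1)]⟩⟩ ⟨true,0,⟨0,[(5,0)]⟩,⟨0,[(11,0),(24,0)]⟩⟩,.o
  ⟨false,0,⟨0,[(26,0)]⟩,⟨7,[(0,3),(17,0),(0,0),(11,1),(6,3)]⟩⟩]⟩) (.I [1,0,0,0,0,0,0,0,1] (.R ⟨0,
  false,false,false,[1,0,0,-1],[1,-1],[0,0,0,-1,0,0,0,0,-1],(⟨0,[(21,0)]⟩,⟨0,[(22,0)]⟩),(⟨0,[(33,
  0)]⟩,⟨0,[(34,0)]⟩),⟨0,[(4,0)]⟩,.k,.k,(.x (-1) ⟨3,[(19,0),(0,0),(11,1),(0,3)]⟩ ⟨0,[(34,0)]⟩),(.r 0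
  ⟨3,[(1,1),(0,0),(4,3),(1,3),(11,3),(1,0),(14,2)]⟩ ⟨1,[(20,0),(17,1),(0,0)]⟩),.k,.k,⟨true,0,⟨3,[(1,
  1),(0,0),(4,3),(1,3),(11,3),(1,0),(14,6)]⟩,⟨0,[(0,0)]⟩⟩,⟨false,0,⟨11,[(2,0),(3,1),(0,1),(6,0),(2,
  3),(1,1),(1,7),(1,3),(3,3)]⟩,⟨0,[(22,0),(16,0)]⟩⟩,⟨true,0,⟨0,[(38,0)]⟩,⟨0,[(37,0)]⟩⟩,⟨false,0,⟨0,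
  [(17,0),(20,0)]⟩,⟨5,[(3,0),(3,1),(0,1),(0,5),(2,2),(26,1)]⟩⟩,⟨false,0,⟨0,[]⟩,⟨0,[]⟩⟩,⟨false,0,⟨0,
  []⟩,⟨0,[]⟩⟩,[.o ⟨false,0,⟨1,[(2,0),(20,0),(14,0)]⟩,⟨7,[(16,3),(2,0),(0,2),(16,3)]⟩⟩,.o ⟨false,1,
  ⟨1,[(32,0),(5,1),(1,0)]⟩,⟨0,[(37,0)]⟩⟩,.o ⟨false,1,⟨1,[(22,1),(9,0),(6,0)]⟩,⟨11,[(2,0),(3,1),(0,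
  1),(6,0),(2,3),(1,1),(1,7),(1,3),(3,3)]⟩⟩,.a ⟨true,0,⟨0,[(22,0)]⟩,⟨0,[(21,0)]⟩⟩ ⟨false,1,⟨0,[(5,
  0),(3,0),(11,0)]⟩,⟨11,[(0,1),(0,1),(5,3),(5,3),(6,2),(1,3),(0,3),(8,0)]⟩⟩ ⟨true,0,⟨1,[(2,0),(18,
  1),(1,0),(14,0)]⟩,⟨0,[(22,0),(14,0)]⟩⟩]⟩) (.R ⟨0,false,false,true,[1,0,0,-1],[0,1],[0,1],(⟨0,[(21,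
  0)]⟩,⟨0,[(22,0)]⟩),(⟨0,[(34,0)]⟩,⟨0,[(33,0)]⟩),⟨0,[(4,0)]⟩,.k,.k,(.x (-1) ⟨3,[(19,0),(0,0),(11,1),
  (0,3)]⟩ ⟨0,[(34,0)]⟩),(.x (-1) ⟨3,[(19,0),(0,0),(11,1),(0,3)]⟩ ⟨0,[(34,0)]⟩),.k,.k,⟨false,1,⟨0,
  [(38,0),(0,0)]⟩,⟨14,[(7,4),(1,1),(3,1),(2,1),(3,0),(5,2),(0,4),(9,0)]⟩⟩,⟨true,0,⟨0,[(21,0)]⟩,⟨9,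
  [(2,1),(4,0),(14,9),(0,2),(0,2),(2,3),(4,0),(3,0)]⟩⟩,⟨true,0,⟨0,[(17,0),(4,0),(12,0)]⟩,⟨0,[(0,
  0)]⟩⟩,⟨false,0,⟨0,[(13,0),(28,0)]⟩,⟨0,[(5,0),(3,0)]⟩⟩,⟨false,0,⟨0,[]⟩,⟨0,[]⟩⟩,⟨false,0,⟨0,[]⟩,⟨0,
  []⟩⟩,[.o ⟨false,0,⟨0,[(37,0)]⟩,⟨1,[(32,0),(5,1),(1,0)]⟩⟩,.o ⟨false,1,⟨7,[(16,3),(2,0),(0,2),(16,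
  3)]⟩,⟨1,[(2,0),(20,0),(14,0)]⟩⟩,.o ⟨false,1,⟨1,[(22,1),(9,0),(6,0)]⟩,⟨11,[(0,2),(6,0),(6,1),(2,4),
  (1,0),(1,6),(1,2),(0,1),(2,2)]⟩⟩,.a ⟨true,0,⟨0,[(22,0)]⟩,⟨0,[(21,0)]⟩⟩ ⟨false,1,⟨3,[(19,0),(0,0),
  (18,1)]⟩,⟨0,[(36,0)]⟩⟩ ⟨true,0,⟨0,[(21,0),(15,0)]⟩,⟨1,[(2,0),(19,1),(0,0),(14,0)]⟩⟩]⟩)))) (.R ⟨2,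
  true,false,false,[0,1],[0,0,1],[0,0,1],(⟨0,[]⟩,⟨0,[]⟩),(⟨0,[(28,0)]⟩,⟨0,[(27,0)]⟩),⟨0,[]⟩,.k,.k,
  .k,.k,.k,.k,⟨true,0,⟨0,[(9,0),(10,0),(12,0)]⟩,⟨0,[(26,0)]⟩⟩,⟨false,0,⟨1,[(0,0),(8,0)]⟩,⟨0,[(25,0),
  (10,0)]⟩⟩,⟨true,0,⟨0,[(35,0)]⟩,⟨0,[(34,0)]⟩⟩,⟨false,0,⟨0,[(2,0)]⟩,⟨4,[(6,1),(3,1),(2,1),(3,0),(5,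
  2),(10,0)]⟩⟩,⟨false,1,⟨3,[(16,0),(0,0),(19,1)]⟩,⟨0,[]⟩⟩,⟨true,0,⟨14,[(0,0),(1,2),(1,0),(0,3),(5,
  2),(24,0)]⟩,⟨0,[(23,0)]⟩⟩,[]⟩))))))) (.I [0,0,-1,-1,0,0,0,0,1] (.K ⟨0,[0,0,0,1],0,(-1),(⟨0,[(14,
  0)]⟩,⟨0,[(13,0)]⟩),.k,(.r 0 ⟨0,[(0,0)]⟩ ⟨7,[(8,3),(2,2),(0,0),(6,3),(0,3),(8,3)]⟩),(.x 0 ⟨0,[(26,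
  0)]⟩ ⟨3,[(11,0),(0,0),(11,1),(0,3)]⟩),.k,.k,[⟨0,[(14,0)]⟩,⟨0,[(13,0)]⟩,⟨7,[(11,4),(0,0),(1,7),(12,
  3),(3,1)]⟩,⟨0,[(1,0),(13,0)]⟩]⟩) (.K ⟨0,[0,0,0,1],0,(-1),(⟨0,[(14,0)]⟩,⟨0,[(13,0)]⟩),.k,(.x 0 ⟨0,
  [(16,0),(2,0),(5,0)]⟩ ⟨0,[(26,0),(4,0)]⟩),(.x 0 ⟨0,[(26,0)]⟩ ⟨3,[(11,0),(0,0),(11,1),(0,3)]⟩),.k,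
  .k,[⟨0,[(14,0)]⟩,⟨0,[(13,0)]⟩,⟨7,[(11,4),(0,0),(1,7),(12,3),(3,1)]⟩,⟨0,[(1,0),(13,0)]⟩]⟩))) (.Q
  [0,0,1,0,0,0,0,0,0,-1] (.pp true [-1,1]) (.Q [0,-1,0,1,0,0,0,1,0,1] (.pp false [-1,1]) (.R ⟨0,
  false,false,false,[0,0,1],[-1,1,1],[1,1,1],(⟨0,[(23,0)]⟩,⟨0,[(22,0)]⟩),(⟨0,[(2,0)]⟩,⟨0,[(22,0),(2,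
  0)]⟩),⟨0,[(7,0)]⟩,.k,.k,.k,.k,.k,.k,⟨true,0,⟨0,[(4,0),(10,0),(14,0)]⟩,⟨0,[(0,0),(0,0)]⟩⟩,⟨false,1,
  ⟨0,[(13,0),(0,0),(16,0)]⟩,⟨0,[(1,0)]⟩⟩,⟨false,0,⟨0,[(4,0),(10,0),(12,0)]⟩,⟨1,[(21,1),(9,0),(0,
  0)]⟩⟩,⟨true,0,⟨0,[(0,0),(3,0),(10,0)]⟩,⟨1,[(6,0),(8,0),(14,0)]⟩⟩,⟨false,0,⟨0,[]⟩,⟨0,[]⟩⟩,⟨false,0,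
  ⟨0,[]⟩,⟨0,[]⟩⟩,[.o ⟨false,0,⟨1,[(0,0),(2,0),(25,0)]⟩,⟨1,[(15,1),(8,0),(5,1),(1,0)]⟩⟩,.a ⟨true,0,
  ⟨0,[(0,0),(3,0)]⟩,⟨0,[(15,0),(14,0)]⟩⟩ ⟨false,0,⟨0,[]⟩,⟨3,[(11,0),(0,0),(18,1)]⟩⟩ ⟨true,0,⟨0,[(0,
  0)]⟩,⟨0,[(15,0),(3,0),(10,0)]⟩⟩,.e ⟨false,0,⟨1,[(19,0),(0,0)]⟩,⟨1,[(31,0),(0,0)]⟩⟩ ⟨false,0,⟨0,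
  [(0,0)]⟩,⟨1,[(4,1),(10,1),(8,0),(5,1),(1,0)]⟩⟩,.o ⟨false,0,⟨0,[(19,0)]⟩,⟨0,[(16,0),(14,0)]⟩⟩]⟩)
  (.Q [0,1,1,0,-1,0,0,0,1,0,0,-1] (.p false [0,0,0,1] [] (⟨0,[(14,0)]⟩,⟨0,[(13,0)]⟩) .k 0 (⟨0,[]⟩,
  ⟨0,[]⟩) .k .k) (.K ⟨0,[0,0,0,1],0,(-1),(⟨0,[(15,0)]⟩,⟨0,[(14,0)]⟩),.k,(.x 0 ⟨0,[(17,0),(2,0),(5,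
  0)]⟩ ⟨0,[(27,0),(4,0)]⟩),(.x 0 ⟨0,[(27,0)]⟩ ⟨3,[(12,0),(0,0),(11,1),(0,3)]⟩),.k,.k,[⟨0,[(15,0)]⟩,
  ⟨0,[(14,0)]⟩,⟨7,[(12,4),(0,0),(1,7),(12,3),(3,1)]⟩,⟨0,[(0,0)]⟩]⟩) (.Q [0,0,0,1,0,0,1,1,0,1,-1]
  (.p false [0,0,1] [1] (⟨0,[(24,0)]⟩,⟨0,[(23,0)]⟩) .k 1 (⟨0,[]⟩,⟨0,[]⟩) .k .k) (.Q [0,1,0,2,0,0,0,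
  0,0,1] (.pp false [-1,1]) (.Q [0,0,0,1,0,0,0,0,0,1] (.pp false [-1,1]) (.I [0,0,-2,-2,1,0,0,-1]
  (.K ⟨2,[-1,1,1],0,0,(⟨0,[(7,0)]⟩,⟨0,[(27,0),(2,0)]⟩),.k,.k,(.r 0 ⟨1,[(2,0),(0,1),(2,0),(14,1),(11,
  0)]⟩ ⟨0,[(0,0)]⟩),.k,.k,[⟨0,[(1,0)]⟩,⟨0,[(20,0),(14,0)]⟩,⟨1,[(21,1),(2,0),(0,0)]⟩,⟨0,[(9,0)]⟩]⟩)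
  (.Q [0,0,0,-1,0,0,-1,0,0,0,1] (.p true [0,0,1] [] (⟨0,[(28,0)]⟩,⟨0,[(27,0)]⟩) .k 0 (⟨0,[]⟩,⟨0,
  []⟩) .k .k) (.Q [0,-1,0,-1,1,0,-1,-1,0,-2,1] (.p true [-1,1,1] [1] (⟨0,[(8,0)]⟩,⟨0,[(28,0),(2,
  0)]⟩) .k 1 (⟨0,[]⟩,⟨0,[]⟩) .k .k) (.K ⟨2,[-1,1,1],0,0,(⟨0,[(9,0)]⟩,⟨0,[(29,0),(2,0)]⟩),.k,.k,(.x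
  (-1) ⟨0,[(9,0),(1,0),(21,0),(4,0)]⟩ ⟨3,[(0,3),(0,0),(0,3),(4,0),(5,1),(8,0),(6,3),(2,7)]⟩),.k,.k,
  [⟨0,[(3,0)]⟩,⟨1,[(1,0),(5,0),(14,0)]⟩,⟨1,[(23,1),(2,0),(0,0)]⟩,⟨0,[(11,0)]⟩]⟩) (.R ⟨0,false,false,
  false,[1,0,-1],[2,-1,-1],[],(⟨0,[(29,0)]⟩,⟨0,[(30,0)]⟩),(⟨0,[(29,0),(2,0)]⟩,⟨0,[(9,0)]⟩),⟨0,[(9,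
  0)]⟩,.k,.k,.k,.k,.k,.k,⟨false,0,⟨1,[(2,0),(25,0),(9,0)]⟩,⟨5,[(1,1),(5,3),(3,3),(13,1),(12,2),(0,
  2)]⟩⟩,⟨true,0,⟨0,[(8,0)]⟩,⟨1,[(1,0),(1,0),(7,0)]⟩⟩,⟨true,0,⟨0,[(28,0)]⟩,⟨0,[(11,0),(10,0)]⟩⟩,
  ⟨false,1,⟨1,[(31,0),(5,1),(1,0)]⟩,⟨0,[(3,0)]⟩⟩,⟨false,0,⟨0,[]⟩,⟨0,[]⟩⟩,⟨false,0,⟨0,[]⟩,⟨0,[]⟩⟩,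
  [.o ⟨false,1,⟨1,[(1,0),(5,0),(14,0),(8,0),(7,0)]⟩,⟨0,[(5,0)]⟩⟩,.a ⟨true,1,⟨1,[(1,0),(5,0),(14,0),
  (16,1)]⟩,⟨0,[(0,0)]⟩⟩ ⟨false,1,⟨1,[(38,0),(0,0)]⟩,⟨0,[(41,0)]⟩⟩ ⟨true,1,⟨0,[(7,0),(31,0)]⟩,⟨17,
  [(0,9),(0,5),(0,7),(4,0),(5,0),(13,4),(6,2)]⟩⟩,.e ⟨false,1,⟨3,[(18,0),(0,0),(19,1)]⟩,⟨0,[]⟩⟩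
  ⟨false,1,⟨0,[(7,0),(31,0)]⟩,⟨7,[(0,1),(0,1),(0,0),(1,1),(1,1),(5,1),(15,4),(9,0)]⟩⟩,.o ⟨false,0,
  ⟨0,[(23,0)]⟩,⟨1,[(11,1),(19,0),(6,0)]⟩⟩]⟩)) (.R ⟨0,false,false,false,[0,0,1],[1,-1],[0,1],(⟨0,
  [(29,0)]⟩,⟨0,[(28,0)]⟩),(⟨0,[(31,0)]⟩,⟨0,[(32,0)]⟩),⟨0,[(13,0)]⟩,.k,.k,.k,.k,.k,.k,⟨false,0,⟨0,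
  [(35,0)]⟩,⟨1,[(36,1),(0,0),(0,0)]⟩⟩,⟨true,0,⟨0,[(22,0)]⟩,⟨0,[(10,0)]⟩⟩,⟨true,0,⟨2,[(0,0),(5,0),(3,
  0),(13,1)]⟩,⟨0,[(27,0)]⟩⟩,⟨false,1,⟨0,[(21,0),(14,0),(1,0)]⟩,⟨0,[(4,0)]⟩⟩,⟨false,0,⟨0,[]⟩,⟨0,[]⟩⟩,
  ⟨false,0,⟨0,[]⟩,⟨0,[]⟩⟩,[.a ⟨true,0,⟨0,[(36,0)]⟩,⟨0,[(2,0)]⟩⟩ ⟨true,0,⟨0,[(40,0)]⟩,⟨0,[(34,0)]⟩⟩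
  ⟨false,1,⟨0,[(22,0),(13,0),(0,0)]⟩,⟨1,[(0,0),(1,0),(7,0)]⟩⟩,.o ⟨false,1,⟨1,[(30,0),(5,1),(1,0)]⟩,
  ⟨0,[(35,0)]⟩⟩,.o ⟨false,0,⟨0,[(0,0),(35,0)]⟩,⟨1,[(26,1),(3,0),(6,0)]⟩⟩,.o ⟨false,0,⟨0,[(25,0)]⟩,
  ⟨0,[(22,0),(14,0)]⟩⟩]⟩))) (.Q [0,0,0,0,0,0,1,0,0,0,-1] (.p false [0,0,1] [] (⟨0,[(27,0)]⟩,⟨0,[(26,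
  0)]⟩) .k 0 (⟨0,[]⟩,⟨0,[]⟩) .k .k) (.Q [0,0,0,0,0,1,0,0,0,-1,0,1] (.p true [0,0,0,1] [1] (⟨0,[(19,
  0)]⟩,⟨0,[(18,0)]⟩) .k 1 (⟨0,[]⟩,⟨0,[]⟩) .k .k) (.I [1,0,1,2,0,0,0,1,1] (.I [1,-1,-1,0,1,0,0,0,-1]
  (.I [1,0,-2,-1,1,0,0,-1,-1] (.R ⟨0,false,false,true,[1,0,0,-1],[0,1],[0,1,0,0,0,0,0,0,-1],(⟨0,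
  [(22,0)]⟩,⟨0,[(23,0)]⟩),(⟨0,[(35,0)]⟩,⟨0,[(34,0)]⟩),⟨0,[(3,0)]⟩,.k,.k,(.x (-1) ⟨3,[(20,0),(0,0),
  (11,1),(0,3)]⟩ ⟨0,[(35,0)]⟩),(.x (-1) ⟨3,[(20,0),(0,0),(11,1),(0,3)]⟩ ⟨0,[(35,0)]⟩),.k,.k,⟨false,
  1,⟨0,[(0,0),(29,0)]⟩,⟨1,[(2,0),(6,0),(4,0),(8,0)]⟩⟩,⟨true,0,⟨0,[(22,0)]⟩,⟨0,[(10,0),(12,0)]⟩⟩,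
  ⟨true,0,⟨0,[(43,0)]⟩,⟨0,[]⟩⟩,⟨false,0,⟨0,[(14,0),(28,0)]⟩,⟨0,[(5,0),(2,0)]⟩⟩,⟨false,0,⟨0,[]⟩,⟨0,
  []⟩⟩,⟨false,0,⟨0,[]⟩,⟨0,[]⟩⟩,[.o ⟨false,0,⟨0,[(38,0)]⟩,⟨1,[(33,0),(5,1),(1,0)]⟩⟩,.o ⟨false,1,⟨5,
  [(6,1),(10,1),(2,0),(0,1),(11,0)]⟩,⟨0,[(5,0)]⟩⟩,.o ⟨false,1,⟨1,[(23,1),(9,0),(6,0)]⟩,⟨0,[(10,0),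
  (11,0)]⟩⟩,.a ⟨true,0,⟨0,[(23,0)]⟩,⟨0,[(22,0)]⟩⟩ ⟨false,1,⟨1,[(20,0),(19,0)]⟩,⟨0,[(18,0),(4,0)]⟩⟩
  ⟨true,0,⟨0,[(22,0),(15,0)]⟩,⟨0,[(5,0),(17,0)]⟩⟩]⟩) (.I [1,0,0,0,0,0,0,0,1] (.R ⟨0,false,false,
  true,[1,0,0,-1],[1,0,-1],[1,0,0,0,0,0,0,0,-1],(⟨0,[(23,0)]⟩,⟨0,[(24,0)]⟩),(⟨0,[(32,0)]⟩,⟨0,[(33,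
  0)]⟩),⟨0,[(4,0)]⟩,.k,.k,(.x (-1) ⟨3,[(21,0),(0,0),(11,1),(0,3)]⟩ ⟨0,[(36,0)]⟩),.k,.k,.k,⟨false,1,
  ⟨0,[(2,0),(28,0)]⟩,⟨0,[(0,0),(13,0),(10,0)]⟩⟩,⟨true,0,⟨0,[(23,0),(2,0)]⟩,⟨0,[(5,0),(18,0)]⟩⟩,
  ⟨true,0,⟨0,[]⟩,⟨0,[(44,0)]⟩⟩,⟨false,0,⟨0,[(19,0),(8,0)]⟩,⟨0,[(5,0),(3,0),(21,0)]⟩⟩,⟨false,0,⟨0,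
  []⟩,⟨0,[]⟩⟩,⟨false,0,⟨0,[]⟩,⟨0,[]⟩⟩,[.o ⟨false,0,⟨0,[(25,0)]⟩,⟨7,[(20,3),(0,0),(0,0),(11,1),(7,
  3)]⟩⟩,.o ⟨false,1,⟨1,[(28,1),(5,0),(7,0)]⟩,⟨0,[(5,0),(25,0)]⟩⟩,.o ⟨false,1,⟨1,[(24,1),(9,0),(6,
  0)]⟩,⟨0,[(11,0),(11,0)]⟩⟩,.a ⟨true,0,⟨0,[(24,0)]⟩,⟨0,[(23,0)]⟩⟩ ⟨false,1,⟨0,[(2,0)]⟩,⟨3,[(1,0),(8,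
  0),(3,0),(4,0),(2,0),(1,0),(5,0)]⟩⟩ ⟨true,0,⟨0,[(23,0),(1,0)]⟩,⟨0,[(5,0),(18,0),(6,0)]⟩⟩]⟩) (.R
  ⟨0,false,false,true,[1,0,0,-1],[0,1],[0,1],(⟨0,[(23,0)]⟩,⟨0,[(24,0)]⟩),(⟨0,[(36,0)]⟩,⟨0,[(35,
  0)]⟩),⟨0,[(4,0)]⟩,.k,.k,(.x (-1) ⟨3,[(21,0),(0,0),(11,1),(0,3)]⟩ ⟨0,[(36,0)]⟩),(.x (-1) ⟨3,[(21,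
  0),(0,0),(11,1),(0,3)]⟩ ⟨0,[(36,0)]⟩),.k,.k,⟨false,1,⟨0,[(40,0),(0,0)]⟩,⟨3,[(1,0),(5,0),(10,0),(6,
  0),(3,0),(8,0)]⟩⟩,⟨true,0,⟨0,[(23,0)]⟩,⟨0,[(11,0),(12,0)]⟩⟩,⟨true,0,⟨0,[(19,0),(4,0),(12,0)]⟩,⟨0,
  [(0,0)]⟩⟩,⟨false,0,⟨0,[(15,0),(28,0)]⟩,⟨0,[(6,0),(2,0)]⟩⟩,⟨false,0,⟨0,[]⟩,⟨0,[]⟩⟩,⟨false,0,⟨0,[]⟩,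
  ⟨0,[]⟩⟩,[.o ⟨false,0,⟨0,[(39,0)]⟩,⟨1,[(34,0),(5,1),(1,0)]⟩⟩,.o ⟨false,1,⟨5,[(7,1),(10,1),(2,0),(0,
  1),(11,0)]⟩,⟨0,[(6,0)]⟩⟩,.o ⟨false,1,⟨1,[(24,1),(9,0),(6,0)]⟩,⟨0,[(11,0),(11,0)]⟩⟩,.a ⟨true,0,⟨0,
  [(24,0)]⟩,⟨0,[(23,0)]⟩⟩ ⟨false,1,⟨3,[(21,0),(0,0),(18,1)]⟩,⟨0,[(38,0)]⟩⟩ ⟨true,0,⟨0,[(23,0),(15,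
  0)]⟩,⟨0,[(6,0),(17,0)]⟩⟩]⟩))) (.R ⟨0,false,false,true,[0,0,1],[0,0,0,1],[0,1],(⟨0,[(31,0)]⟩,⟨0,
  [(30,0)]⟩),(⟨0,[(22,0)]⟩,⟨0,[(21,0)]⟩),⟨0,[(15,0)]⟩,.k,.k,.k,.k,.k,.k,⟨false,1,⟨1,[(19,0),(19,
  0)]⟩,⟨1,[(0,0),(16,0),(4,0),(16,0)]⟩⟩,⟨true,0,⟨0,[(21,0),(2,0)]⟩,⟨0,[(3,0),(18,0)]⟩⟩,⟨true,0,⟨0,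
  [(12,0),(10,0)]⟩,⟨0,[(29,0)]⟩⟩,⟨false,0,⟨0,[(17,0),(8,0)]⟩,⟨0,[(3,0),(3,0),(21,0)]⟩⟩,⟨false,0,⟨0,
  []⟩,⟨0,[]⟩⟩,⟨false,0,⟨0,[]⟩,⟨0,[]⟩⟩,[.a ⟨true,(-1),⟨0,[(0,0),(20,0)]⟩,⟨0,[(7,0)]⟩⟩ ⟨true,0,⟨0,
  [(42,0)]⟩,⟨0,[(36,0)]⟩⟩ ⟨false,0,⟨2,[(0,1),(16,0),(3,1),(1,1),(4,0),(0,1),(9,1)]⟩,⟨0,[(3,0),(3,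
  0)]⟩⟩,.o ⟨false,0,⟨0,[(17,0),(24,0)]⟩,⟨0,[(4,0),(2,0),(29,0)]⟩⟩,.o ⟨false,0,⟨0,[(3,0)]⟩,⟨1,[(28,
  1),(3,0),(6,0)]⟩⟩,.o ⟨false,0,⟨0,[(27,0)]⟩,⟨0,[(24,0),(14,0)]⟩⟩]⟩)) (.R ⟨0,false,false,true,[1,0,
  0,-1],[0,1],[0,1,0,0,0,0,0,0,-1],(⟨0,[(20,0)]⟩,⟨0,[(21,0)]⟩),(⟨0,[(33,0)]⟩,⟨0,[(32,0)]⟩),⟨0,[(1,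
  0)]⟩,.k,.k,(.x (-1) ⟨3,[(18,0),(0,0),(11,1),(0,3)]⟩ ⟨0,[(33,0)]⟩),(.x (-1) ⟨3,[(18,0),(0,0),(11,
  1),(0,3)]⟩ ⟨0,[(33,0)]⟩),.k,.k,⟨false,1,⟨3,[(0,1),(17,0),(9,1),(9,2)]⟩,⟨0,[(16,0),(4,0),(14,0)]⟩⟩,
  ⟨true,0,⟨0,[(20,0)]⟩,⟨0,[(8,0),(12,0)]⟩⟩,⟨true,0,⟨0,[(41,0)]⟩,⟨0,[]⟩⟩,⟨false,0,⟨0,[(12,0),(28,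
  0)]⟩,⟨0,[(3,0),(2,0)]⟩⟩,⟨false,0,⟨0,[]⟩,⟨0,[]⟩⟩,⟨false,0,⟨0,[]⟩,⟨0,[]⟩⟩,[.o ⟨false,0,⟨0,[(36,0)]⟩,
  ⟨1,[(31,0),(5,1),(1,0)]⟩⟩,.o ⟨false,1,⟨5,[(4,1),(10,1),(2,0),(0,1),(11,0)]⟩,⟨0,[(3,0)]⟩⟩,.o
  ⟨false,1,⟨1,[(21,1),(9,0),(6,0)]⟩,⟨0,[(8,0),(11,0)]⟩⟩,.a ⟨true,0,⟨0,[(21,0)]⟩,⟨0,[(20,0)]⟩⟩
  ⟨false,1,⟨1,[(18,0),(19,0)]⟩,⟨0,[(16,0),(4,0)]⟩⟩ ⟨true,0,⟨0,[(20,0),(15,0)]⟩,⟨0,[(3,0),(17,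
  0)]⟩⟩]⟩)) (.I [1,1,0,1,0,0,0,-1,1] (.R ⟨1,false,false,true,[1,0,0,-1],[1,0,-1],[0,0,0,-1,0,0,0,0,
  -1],(⟨0,[(20,0)]⟩,⟨0,[(21,0)]⟩),(⟨0,[(29,0)]⟩,⟨0,[(30,0)]⟩),⟨0,[(1,0)]⟩,.k,.k,(.x (-1) ⟨3,[(18,0),
  (0,0),(11,1),(0,3)]⟩ ⟨0,[(33,0)]⟩),.k,(.r (-1) ⟨1,[(18,0),(9,1),(8,1),(0,0)]⟩ ⟨0,[(2,0),(9,0),(8,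
  0),(0,0)]⟩),.k,⟨false,1,⟨0,[(3,0),(2,0),(13,0),(7,0)]⟩,⟨0,[(0,0)]⟩⟩,⟨true,0,⟨0,[(20,0),(2,0)]⟩,⟨0,
  [(2,0),(18,0)]⟩⟩,⟨true,0,⟨0,[(37,0)]⟩,⟨0,[(36,0)]⟩⟩,⟨false,0,⟨0,[(16,0),(8,0)]⟩,⟨0,[(2,0),(3,0),
  (21,0)]⟩⟩,⟨false,1,⟨3,[(18,0),(0,0),(19,1)]⟩,⟨0,[]⟩⟩,⟨false,0,⟨0,[(12,0),(9,0)]⟩,⟨1,[(3,0),(2,1),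
  (10,0),(19,0)]⟩⟩,[.o ⟨false,0,⟨0,[(22,0)]⟩,⟨7,[(17,3),(0,0),(0,0),(11,1),(7,3)]⟩⟩,.o ⟨false,1,⟨1,
  [(25,1),(5,0),(7,0)]⟩,⟨0,[(2,0),(25,0)]⟩⟩,.o ⟨false,1,⟨1,[(21,1),(9,0),(6,0)]⟩,⟨0,[(8,0),(11,
  0)]⟩⟩,.a ⟨true,0,⟨0,[(21,0)]⟩,⟨0,[(20,0)]⟩⟩ ⟨false,1,⟨0,[(3,0),(2,0),(13,0)]⟩,⟨1,[(0,0),(4,0),(10,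
  0),(4,0),(1,0)]⟩⟩ ⟨true,0,⟨0,[(20,0),(1,0)]⟩,⟨0,[(2,0),(18,0),(6,0)]⟩⟩]⟩) (.R ⟨1,false,false,true,
  [1,0,0,-1],[0,1],[1,1,0,0,0,0,0,0,-1],(⟨0,[(20,0)]⟩,⟨0,[(21,0)]⟩),(⟨0,[(33,0)]⟩,⟨0,[(32,0)]⟩),⟨0,
  [(1,0)]⟩,.k,.k,(.x (-1) ⟨3,[(18,0),(0,0),(11,1),(0,3)]⟩ ⟨0,[(33,0)]⟩),(.x (-1) ⟨3,[(18,0),(0,0),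
  (11,1),(0,3)]⟩ ⟨0,[(33,0)]⟩),(.r (-1) ⟨1,[(0,1),(6,0),(3,0),(13,0),(11,0),(0,1)]⟩ ⟨0,[(4,0),(3,0),
  (7,0),(4,0)]⟩),.k,⟨false,1,⟨0,[(0,0),(10,0),(10,0),(15,0)]⟩,⟨0,[(16,0),(4,0),(14,0)]⟩⟩,⟨true,0,⟨0,
  [(20,0)]⟩,⟨0,[(8,0),(12,0)]⟩⟩,⟨false,0,⟨0,[]⟩,⟨3,[(18,0),(0,0),(19,1)]⟩⟩,⟨false,0,⟨0,[(12,0),(28,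
  0)]⟩,⟨0,[(3,0),(2,0)]⟩⟩,⟨true,0,⟨0,[(36,0)]⟩,⟨0,[(37,0)]⟩⟩,⟨false,0,⟨0,[(4,0),(11,0)]⟩,⟨0,[(3,0),
  (2,0),(30,0)]⟩⟩,[.o ⟨false,0,⟨0,[(36,0)]⟩,⟨1,[(31,0),(5,1),(1,0)]⟩⟩,.o ⟨false,1,⟨5,[(4,1),(10,1),
  (2,0),(0,1),(11,0)]⟩,⟨0,[(3,0)]⟩⟩,.o ⟨false,1,⟨1,[(21,1),(9,0),(6,0)]⟩,⟨0,[(8,0),(11,0)]⟩⟩,.a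
  ⟨true,0,⟨0,[(21,0)]⟩,⟨0,[(20,0)]⟩⟩ ⟨false,1,⟨1,[(18,0),(19,0)]⟩,⟨0,[(16,0),(4,0)]⟩⟩ ⟨true,0,⟨0,
  [(20,0),(15,0)]⟩,⟨0,[(3,0),(17,0)]⟩⟩]⟩))) (.R ⟨0,false,false,false,[0,0,1],[1,-1],[1,1],(⟨0,[(28,
  0)]⟩,⟨0,[(27,0)]⟩),(⟨0,[(30,0)]⟩,⟨0,[(31,0)]⟩),⟨0,[(12,0)]⟩,.k,.k,.k,.k,.k,.k,⟨false,0,⟨0,[(34,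
  0)]⟩,⟨1,[(35,1),(0,0),(0,0)]⟩⟩,⟨true,0,⟨0,[(21,0)]⟩,⟨0,[(9,0)]⟩⟩,⟨true,0,⟨0,[(9,0),(10,0)]⟩,⟨0,
  [(26,0)]⟩⟩,⟨false,1,⟨0,[(0,0),(4,0),(31,0)]⟩,⟨0,[(3,0)]⟩⟩,⟨false,0,⟨0,[]⟩,⟨0,[]⟩⟩,⟨false,0,⟨0,[]⟩,
  ⟨0,[]⟩⟩,[.o ⟨false,0,⟨0,[(1,0)]⟩,⟨5,[(2,1),(10,1),(2,0),(0,1),(11,0)]⟩⟩,.o ⟨false,1,⟨1,[(29,0),(5,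
  1),(1,0)]⟩,⟨0,[(34,0)]⟩⟩,.a ⟨true,0,⟨0,[(9,0)]⟩,⟨0,[(0,0)]⟩⟩ ⟨false,0,⟨0,[]⟩,⟨3,[(16,0),(0,0),(19,
  1)]⟩⟩ ⟨true,0,⟨0,[(0,0),(0,0)]⟩,⟨2,[(2,1),(2,0),(2,0),(0,0)]⟩⟩,.o ⟨false,0,⟨0,[(24,0)]⟩,⟨1,[(0,1),
  (28,0),(6,0)]⟩⟩]⟩))) (.Q [0,0,0,0,0,0,1,0,0,0,-1] (.p false [0,0,1] [] (⟨0,[(26,0)]⟩,⟨0,[(25,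
  0)]⟩) .k 0 (⟨0,[]⟩,⟨0,[]⟩) .k .k) (.R ⟨2,true,false,false,[0,1],[0,0,1],[0,0,1],(⟨0,[]⟩,⟨0,[]⟩),
  (⟨0,[(27,0)]⟩,⟨0,[(26,0)]⟩),⟨0,[]⟩,.k,.k,.k,.k,.k,.k,⟨true,0,⟨0,[(8,0),(10,0),(12,0)]⟩,⟨0,[(25,
  0)]⟩⟩,⟨false,0,⟨0,[(0,0)]⟩,⟨0,[(24,0),(10,0)]⟩⟩,⟨true,0,⟨0,[(34,0)]⟩,⟨0,[(33,0)]⟩⟩,⟨false,0,⟨0,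
  [(1,0),(0,0)]⟩,⟨4,[(3,1),(5,1),(2,1),(3,0),(2,1),(2,2),(10,0)]⟩⟩,⟨false,1,⟨3,[(15,0),(0,0),(19,
  1)]⟩,⟨0,[]⟩⟩,⟨true,0,⟨0,[(0,0),(24,0)]⟩,⟨0,[(22,0)]⟩⟩,[]⟩) (.R ⟨0,false,false,false,[0,0,1],[1,
  -1],[1,1],(⟨0,[(27,0)]⟩,⟨0,[(26,0)]⟩),(⟨0,[(29,0)]⟩,⟨0,[(30,0)]⟩),⟨0,[(11,0)]⟩,.k,.k,.k,.k,.k,.k,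
  ⟨false,0,⟨0,[(33,0)]⟩,⟨3,[(1,1),(1,1),(12,0),(0,1),(17,0)]⟩⟩,⟨true,0,⟨0,[(20,0)]⟩,⟨0,[(8,0)]⟩⟩,
  ⟨true,0,⟨0,[(8,0),(10,0)]⟩,⟨0,[(25,0)]⟩⟩,⟨false,1,⟨3,[(1,1),(20,3),(5,0),(7,2)]⟩,⟨0,[(2,0)]⟩⟩,
  ⟨false,0,⟨0,[]⟩,⟨0,[]⟩⟩,⟨false,0,⟨0,[]⟩,⟨0,[]⟩⟩,[.o ⟨false,0,⟨0,[(1,0),(31,0)]⟩,⟨7,[(12,3),(2,0),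
  (0,2),(16,3)]⟩⟩,.o ⟨false,1,⟨3,[(1,1),(13,0),(0,0),(11,0),(7,0)]⟩,⟨0,[(33,0)]⟩⟩,.a ⟨true,0,⟨0,[(8,
  0)]⟩,⟨0,[(0,0)]⟩⟩ ⟨false,0,⟨0,[]⟩,⟨3,[(15,0),(0,0),(19,1)]⟩⟩ ⟨true,0,⟨1,[(0,0),(0,0),(17,0),(5,
  0)]⟩,⟨0,[(8,0),(24,0)]⟩⟩,.o ⟨false,0,⟨0,[(23,0)]⟩,⟨1,[(0,1),(27,0),(6,0)]⟩⟩]⟩))) (.R ⟨2,true,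
  false,false,[0,1],[1,0,-1],[1,1,1,1],(⟨0,[]⟩,⟨0,[]⟩),(⟨0,[(24,0)]⟩,⟨0,[(25,0)]⟩),⟨0,[]⟩,.k,.k,.k,
  .k,.k,.k,⟨false,0,⟨0,[(23,0),(7,0)]⟩,⟨1,[(0,1),(5,1),(26,0),(0,0)]⟩⟩,⟨true,0,⟨0,[(18,0)]⟩,⟨0,[(6,
  0)]⟩⟩,⟨false,0,⟨0,[]⟩,⟨3,[(13,0),(0,0),(19,1)]⟩⟩,⟨true,0,⟨0,[(0,0)]⟩,⟨1,[(12,0),(2,0),(0,0),(14,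
  1)]⟩⟩,⟨true,0,⟨0,[(31,0)]⟩,⟨0,[(32,0)]⟩⟩,⟨false,1,⟨0,[(17,0),(16,0)]⟩,⟨1,[(12,0),(2,0),(0,0)]⟩⟩,
  []⟩)))) (.R ⟨2,true,false,false,[0,1],[0,0,1],[0,1,1],(⟨0,[]⟩,⟨0,[]⟩),(⟨0,[(22,0)]⟩,⟨0,[(21,0)]⟩),
  ⟨0,[]⟩,.k,.k,.k,.k,.k,.k,⟨false,0,⟨0,[(3,0),(10,0)]⟩,⟨1,[(20,1),(9,0),(0,0)]⟩⟩,⟨true,0,⟨0,[(18,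
  0)]⟩,⟨0,[(0,0),(14,0)]⟩⟩,⟨false,0,⟨0,[(29,0)]⟩,⟨0,[(28,0),(2,0)]⟩⟩,⟨true,0,⟨0,[(0,0),(4,0),(21,
  0)]⟩,⟨0,[(0,0),(13,0),(12,0),(0,0)]⟩⟩,⟨true,0,⟨0,[(33,0)]⟩,⟨0,[]⟩⟩,⟨false,1,⟨7,[(9,3),(0,0),(0,0),
  (11,1),(7,3)]⟩,⟨0,[(0,0),(13,0),(12,0)]⟩⟩,[]⟩))) (.R ⟨0,false,false,true,[0,0,1],[1,0,-1],[],(⟨0,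
  [(20,0)]⟩,⟨0,[(19,0)]⟩),(⟨0,[(19,0)]⟩,⟨0,[(20,0)]⟩),⟨0,[(4,0)]⟩,.k,.k,.k,.k,.k,.k,⟨false,1,⟨1,
  [(18,1),(9,0),(0,0)]⟩,⟨0,[(1,0),(10,0)]⟩⟩,⟨true,0,⟨0,[(0,0),(17,0)]⟩,⟨0,[(1,0),(14,0)]⟩⟩,⟨false,1,
  ⟨0,[(1,0),(10,0),(16,0)]⟩,⟨0,[(18,0)]⟩⟩,⟨true,0,⟨0,[(0,0),(0,0),(10,0)]⟩,⟨0,[(7,0)]⟩⟩,⟨false,0,⟨0,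
  []⟩,⟨0,[]⟩⟩,⟨false,0,⟨0,[]⟩,⟨0,[]⟩⟩,[.o ⟨false,0,⟨0,[(12,0)]⟩,⟨7,[(7,3),(0,0),(0,0),(11,1),(7,
  3)]⟩⟩,.a ⟨true,0,⟨0,[(0,0),(0,0)]⟩,⟨1,[(7,0),(2,0),(0,0)]⟩⟩ ⟨false,1,⟨1,[(28,0),(0,0)]⟩,⟨0,[(31,
  0)]⟩⟩ ⟨true,0,⟨0,[(0,0)]⟩,⟨3,[(1,1),(5,1),(8,2),(0,0)]⟩⟩,.e ⟨false,1,⟨3,[(8,0),(0,0),(19,1)]⟩,⟨0,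
  []⟩⟩ ⟨false,0,⟨0,[(0,0)]⟩,⟨7,[(1,7),(5,3),(0,0),(0,0),(11,1),(7,3)]⟩⟩,.o ⟨false,0,⟨0,[(16,0)]⟩,⟨2,
  [(0,0),(16,0),(0,0),(2,0),(6,1)]⟩⟩]⟩))

theorem ok21 : chk (cU (-1) true 3) t21 r13 = true := by decide +kernel

noncomputable def t22 : Tre :=
  .Q [0,0,0,0,0,0,-1,0,0,-1,1] (.p true [0,0,1] [1] (⟨0,[(18,0)]⟩,⟨0,[(17,0)]⟩) .k 1 (⟨0,[]⟩,⟨0,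
  []⟩) .k .k) t20 t21

theorem ok22 : chk (cU (-1) true 3) t22 r12 = true :=
  chk_Q (e' := [0,0,0,0,0,0,1,0,0,1,-1]) (by decide +kernel) (by decide +kernel) ok20 ok21

noncomputable def t23 : Tre :=
  .Q [0,1,-1,-1,0,0,0,0,-1,-1,0,1] (.p true [0,0,0,1] [1] (⟨0,[(8,0)]⟩,⟨0,[(7,0)]⟩) .k 1 (⟨0,[]⟩,⟨0,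
  []⟩) .k .k) t19 t22

theorem ok23 : chk (cU (-1) true 3) t23 r11 = true :=
  chk_Q (e' := [0,-1,1,1,0,0,0,0,1,1,0,-1]) (by decide +kernel) (by decide +kernel) ok19 ok22

noncomputable def t24 : Tre :=
  .Q [0,-1,0,1,0,0,-1,-1,0,1,1] (.p true [1,-1,1] [] (⟨0,[(16,0),(1,0)]⟩,⟨0,[(0,0)]⟩) .k 0 (⟨0,[]⟩,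
  ⟨0,[]⟩) .k .k) t18 t23

theorem ok24 : chk (cU (-1) true 3) t24 l10 = true :=
  chk_Q (e' := [0,1,0,-1,0,0,1,1,0,-1,-1]) (by decide +kernel) (by decide +kernel) ok18 ok23

noncomputable def t25 : Tre :=
  (.Q [0,0,-1,-1,0,0,1,0,0,1,-1] (.p false [0,0,1] [1] (⟨0,[(16,0)]⟩,⟨0,[(15,0)]⟩) .k 1 (⟨0,[]⟩,⟨0,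
  []⟩) .k .k) (.R ⟨2,true,false,true,[0,1],[1,1,-1],[1,1,1,1],(⟨0,[]⟩,⟨0,[]⟩),(⟨0,[(16,0),(3,0)]⟩,
  ⟨0,[(1,0)]⟩),⟨0,[]⟩,.k,.k,.k,.k,.k,.k,⟨true,0,⟨0,[(15,0)]⟩,⟨0,[(0,0),(8,0),(12,1),(0,0)]⟩⟩,⟨false,
  1,⟨0,[(10,0),(14,0)]⟩,⟨0,[(0,0),(21,0),(0,0)]⟩⟩,⟨false,0,⟨0,[]⟩,⟨3,[(5,0),(0,0),(19,1)]⟩⟩,⟨true,0,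
  ⟨0,[(9,0)]⟩,⟨1,[(4,0),(2,0),(0,0)]⟩⟩,⟨true,0,⟨0,[(23,0)]⟩,⟨0,[(24,0)]⟩⟩,⟨false,1,⟨0,[(9,0),(13,0),
  (2,0)]⟩,⟨0,[(0,0),(14,0),(6,0)]⟩⟩,[]⟩) (.I [0,1,1,1,0,0,0,-1] (.Q [0,0,0,-1,0,0,1,1,0,0,-1] (.p
  false [0,0,1] [] (⟨0,[(18,0)]⟩,⟨0,[(17,0)]⟩) .k 0 (⟨0,[]⟩,⟨0,[]⟩) .k .k) (.I [0,0,2,2,0,0,0,-1]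
  (.Q [0,0,0,0,0,0,-1,-1,0,0,1] (.p true [0,0,1] [] (⟨0,[(20,0)]⟩,⟨0,[(19,0)]⟩) .k 0 (⟨0,[]⟩,⟨0,
  []⟩) .k .k) (.K ⟨2,[0,-1,1],0,0,(⟨0,[(5,0)]⟩,⟨0,[(20,0),(3,0)]⟩),.k,(.r (-1) ⟨0,[(19,0),(8,1),(0,
  0)]⟩ ⟨0,[(1,0)]⟩),.k,.k,.k,[⟨0,[(28,0)]⟩,⟨0,[(0,0),(26,0)]⟩,⟨0,[(0,0),(18,0)]⟩,⟨1,[(17,2),(0,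
  0)]⟩]⟩) (.Q [0,0,0,0,0,0,-1,0,0,0,1] (.p true [0,0,1] [] (⟨0,[(21,0)]⟩,⟨0,[(20,0)]⟩) .k 0 (⟨0,[]⟩,
  ⟨0,[]⟩) .k .k) (.Q [0,1,0,1,0,0,-1,-1,0,0,1] (.p true [0,0,1] [] (⟨0,[(22,0)]⟩,⟨0,[(21,0)]⟩) .k 0
  (⟨0,[]⟩,⟨0,[]⟩) .k .k) (.K ⟨2,[0,-1,1],0,0,(⟨0,[(7,0)]⟩,⟨0,[(22,0),(3,0)]⟩),.k,(.r (-1) ⟨0,[(1,0),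
  (2,0),(25,0),(0,0)]⟩ ⟨0,[(3,0)]⟩),.k,.k,.k,[⟨0,[(30,0)]⟩,⟨0,[(0,0)]⟩,⟨0,[(1,0)]⟩,⟨1,[(19,2),(0,
  0)]⟩]⟩) (.I [0,0,-1,-1,0,0,0,1] (.R ⟨2,true,false,false,[0,1],[0,0,1],[1,0,1,1],(⟨0,[]⟩,⟨0,[]⟩),
  (⟨0,[(24,0)]⟩,⟨0,[(23,0)]⟩),⟨0,[]⟩,.k,.k,.k,.k,.k,.k,⟨false,1,⟨1,[(6,1),(25,0),(0,0)]⟩,⟨0,[(0,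
  0)]⟩⟩,⟨true,0,⟨0,[(20,0)]⟩,⟨0,[(2,0)]⟩⟩,⟨true,0,⟨0,[]⟩,⟨0,[(35,0)]⟩⟩,⟨false,0,⟨0,[(1,0)]⟩,⟨5,[(2,
  1),(1,1),(4,1),(3,0),(5,3),(12,1),(0,0)]⟩⟩,⟨false,1,⟨0,[(30,0),(2,0)]⟩,⟨0,[(31,0)]⟩⟩,⟨true,0,⟨0,
  [(3,0)]⟩,⟨0,[(19,0)]⟩⟩,[]⟩) (.Q [0,0,0,0,0,0,1,0,0,1,-1] (.p false [0,0,1] [1] (⟨0,[(24,0)]⟩,⟨0,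
  [(23,0)]⟩) .k 1 (⟨0,[]⟩,⟨0,[]⟩) .k .k) (.R ⟨2,true,false,true,[0,1],[1,1,-1],[0,1,1],(⟨0,[]⟩,⟨0,
  []⟩),(⟨0,[(24,0),(3,0)]⟩,⟨0,[(9,0)]⟩),⟨0,[]⟩,.k,.k,.k,.k,.k,.k,⟨true,0,⟨0,[(3,0),(2,0)]⟩,⟨0,[(1,
  0)]⟩⟩,⟨false,1,⟨1,[(3,1),(22,0),(6,0)]⟩,⟨0,[(0,0)]⟩⟩,⟨false,0,⟨0,[(32,0)]⟩,⟨0,[(31,0),(2,0)]⟩⟩,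
  ⟨true,0,⟨0,[(17,0)]⟩,⟨1,[(12,0),(2,0),(0,0)]⟩⟩,⟨true,0,⟨0,[(36,0)]⟩,⟨0,[]⟩⟩,⟨false,1,⟨7,[(5,1),(2,
  1),(1,1),(3,0),(2,5),(15,2),(0,1)]⟩,⟨0,[(2,0),(12,0),(0,0)]⟩⟩,[]⟩) (.I [1,0,-1,-1,0,0,0,1] (.N [0,
  -1,1] 0 ⟨0,[(0,0)]⟩ ⟨0,[(2,0)]⟩ .k) (.I [1,0,0,-1,0,0,0,-1] (.R ⟨2,true,false,true,[0,1],[1,0,-1],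
  [0,0,1],(⟨0,[]⟩,⟨0,[]⟩),(⟨0,[(26,0)]⟩,⟨0,[(27,0)]⟩),⟨0,[]⟩,.k,.k,.k,.k,.k,.k,⟨true,0,⟨0,[(25,0),
  (6,0)]⟩,⟨1,[(0,0),(2,0),(27,0)]⟩⟩,⟨false,0,⟨0,[(2,0)]⟩,⟨7,[(0,3),(2,3),(10,3),(0,0),(0,0),(0,3),
  (0,3),(16,5)]⟩⟩,⟨true,0,⟨0,[(34,0)]⟩,⟨0,[(33,0)]⟩⟩,⟨false,0,⟨0,[(0,0),(1,0)]⟩,⟨1,[(14,0),(2,0),(0,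
  0),(14,1),(2,1)]⟩⟩,⟨false,1,⟨3,[(15,0),(0,0),(19,1)]⟩,⟨0,[]⟩⟩,⟨true,0,⟨0,[(19,0)]⟩,⟨1,[(14,0),(2,
  0),(0,0)]⟩⟩,[]⟩) (.Q [0,0,0,0,0,1,0,0,0,-1,1] (.ed false [0,1,1] .k) (.Q [0,0,0,0,0,0,1,0,0,2,-1]
  (.p false [-1,1,1] [1] (⟨0,[(0,0)]⟩,⟨0,[(27,0),(2,0)]⟩) .k 1 (⟨0,[]⟩,⟨0,[]⟩) .k .k) (.R ⟨0,false,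
  false,true,[-1,1,1],[0,1],[0,1],(⟨0,[(1,0)]⟩,⟨0,[(28,0),(2,0)]⟩),(⟨0,[(32,0)]⟩,⟨0,[(31,0)]⟩),⟨0,
  [(28,0)]⟩,.k,.k,.k,.k,.k,.k,⟨false,1,⟨0,[(36,0),(0,0)]⟩,⟨7,[(2,0),(6,2),(2,0),(3,0),(9,0)]⟩⟩,
  ⟨true,0,⟨0,[(4,0)]⟩,⟨3,[(0,1),(24,2),(0,0)]⟩⟩,⟨false,1,⟨0,[(5,0),(30,1),(0,0)]⟩,⟨0,[(2,0),(31,
  0)]⟩⟩,⟨true,0,⟨0,[(21,0)]⟩,⟨3,[(0,0),(6,0),(8,1)]⟩⟩,⟨false,0,⟨0,[]⟩,⟨0,[]⟩⟩,⟨false,0,⟨0,[]⟩,⟨0,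
  []⟩⟩,[.o ⟨false,0,⟨0,[(35,0)]⟩,⟨1,[(30,0),(5,1),(1,0)]⟩⟩,.o ⟨false,1,⟨7,[(14,3),(2,0),(0,2),(16,
  3)]⟩,⟨0,[(6,0),(14,0)]⟩⟩,.o ⟨false,1,⟨1,[(0,1),(29,0),(6,0)]⟩,⟨0,[(4,1),(20,0)]⟩⟩,.a ⟨true,0,⟨0,
  [(0,0)]⟩,⟨0,[(4,0)]⟩⟩ ⟨false,1,⟨3,[(17,0),(0,0),(18,1)]⟩,⟨0,[(34,0)]⟩⟩ ⟨true,0,⟨0,[(4,0),(30,0)]⟩,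
  ⟨0,[(0,0),(5,0),(14,0)]⟩⟩]⟩) (.Q [0,0,0,-1,0,0,-1,-1,0,-1,1] (.p true [0,0,1] [1] (⟨0,[(29,0)]⟩,
  ⟨0,[(28,0)]⟩) .k 1 (⟨0,[]⟩,⟨0,[]⟩) .k .k) (.R ⟨2,true,false,true,[0,1],[1,0,-1],[1,0,1,1],(⟨0,[]⟩,
  ⟨0,[]⟩),(⟨0,[(29,0)]⟩,⟨0,[(30,0)]⟩),⟨0,[]⟩,.k,.k,.k,.k,.k,.k,⟨true,0,⟨0,[(3,0),(31,0)]⟩,⟨0,[(0,0),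
  (5,0),(0,0),(12,0),(0,0),(12,0)]⟩⟩,⟨false,0,⟨0,[(5,0)]⟩,⟨0,[(20,0),(0,0),(4,0),(11,0)]⟩⟩,⟨true,0,
  ⟨0,[]⟩,⟨0,[(41,0)]⟩⟩,⟨false,0,⟨0,[(0,0)]⟩,⟨7,[(3,1),(6,1),(4,1),(1,3),(1,0),(0,3),(0,3),(16,1),(0,
  2)]⟩⟩,⟨false,1,⟨7,[(3,1),(6,1),(4,1),(3,0),(18,1),(0,2)]⟩,⟨0,[(37,0)]⟩⟩,⟨true,0,⟨0,[(22,0)]⟩,⟨1,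
  [(17,0),(2,0),(0,0)]⟩⟩,[]⟩) (.Q [0,0,0,0,0,-1,0,0,0,1,0,-1] (.p false [0,0,0,1] [1] (⟨0,[(21,0)]⟩,
  ⟨0,[(20,0)]⟩) .k 1 (⟨0,[]⟩,⟨0,[]⟩) .k .k) (.I [1,0,-1,0,1,0,0,-1,-1] (.Q [0,1,-1,-1,0,0,0,0,-1,-1,
  0,1] (.p true [0,0,0,1] [1] (⟨0,[(23,0)]⟩,⟨0,[(22,0)]⟩) .k 1 (⟨0,[]⟩,⟨0,[]⟩) .k .k) (.R ⟨2,true,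
  false,true,[0,1],[1,0,0,-1],[1,1,1,1],(⟨0,[]⟩,⟨0,[]⟩),(⟨0,[(23,0)]⟩,⟨0,[(24,0)]⟩),⟨0,[]⟩,.k,.k,.k,
  (.x 0 ⟨0,[(36,0)]⟩ ⟨3,[(21,0),(0,0),(11,1),(0,3)]⟩),.k,.k,⟨true,0,⟨0,[(19,0),(4,0),(14,0)]⟩,⟨0,
  [(0,0),(22,0),(14,0)]⟩⟩,⟨false,1,⟨1,[(24,1),(9,0),(6,0)]⟩,⟨0,[(23,0)]⟩⟩,⟨false,0,⟨0,[]⟩,⟨3,[(21,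
  0),(0,0),(19,1)]⟩⟩,⟨true,0,⟨0,[(0,0)]⟩,⟨0,[(3,0),(15,0),(8,0)]⟩⟩,⟨true,0,⟨0,[(39,0)]⟩,⟨0,[(40,
  0)]⟩⟩,⟨false,1,⟨3,[(0,1),(17,1),(5,1),(9,0),(6,0)]⟩,⟨0,[(19,0),(3,0),(0,0)]⟩⟩,[]⟩) (.I [1,-1,-2,
  -1,1,0,0,0,-1] (.R ⟨1,false,false,true,[1,0,0,-1],[0,1],[1,0,0,0,0,0,0,0,-1],(⟨0,[(24,0)]⟩,⟨0,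
  [(25,0)]⟩),(⟨0,[(37,0)]⟩,⟨0,[(36,0)]⟩),⟨0,[(3,0)]⟩,.k,.k,(.x (-1) ⟨3,[(22,0),(0,0),(11,1),(0,3)]⟩
  ⟨0,[(37,0)]⟩),(.x (-1) ⟨3,[(22,0),(0,0),(11,1),(0,3)]⟩ ⟨0,[(37,0)]⟩),(.r (-1) ⟨19,[(0,15),(21,2),
  (0,0),(14,7),(2,23)]⟩ ⟨2,[(1,0),(12,0),(2,0),(2,1),(4,2),(2,0),(11,1)]⟩),.k,⟨false,1,⟨0,[(0,0)]⟩,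
  ⟨2,[(1,0),(14,0),(0,0),(2,1),(4,2),(2,0),(9,1)]⟩⟩,⟨true,0,⟨0,[(24,0)]⟩,⟨2,[(5,0),(19,2),(1,0),(2,
  1)]⟩⟩,⟨true,0,⟨0,[]⟩,⟨0,[(45,0)]⟩⟩,⟨false,0,⟨0,[(1,0),(43,0)]⟩,⟨9,[(0,7),(4,3),(16,0),(2,9),(4,3),
  (4,0),(3,1),(1,1)]⟩⟩,⟨false,1,⟨7,[(7,1),(6,1),(4,1),(3,0),(18,1),(0,2)]⟩,⟨0,[(41,0)]⟩⟩,⟨false,0,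
  ⟨0,[(1,0),(38,0)]⟩,⟨9,[(0,7),(4,3),(16,0),(2,9),(4,3),(4,0),(3,1),(1,11)]⟩⟩,[.o ⟨false,0,⟨0,[(40,
  0)]⟩,⟨1,[(35,0),(5,1),(1,0)]⟩⟩,.o ⟨false,1,⟨7,[(19,3),(2,0),(0,2),(16,3)]⟩,⟨0,[(11,0),(14,0)]⟩⟩,
  .o ⟨false,1,⟨1,[(25,1),(9,0),(6,0)]⟩,⟨2,[(5,0),(18,2),(2,0),(2,1)]⟩⟩,.a ⟨true,0,⟨0,[(25,0)]⟩,⟨0,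
  [(24,0)]⟩⟩ ⟨false,1,⟨1,[(0,0),(18,0)]⟩,⟨0,[(20,0),(4,0),(19,0)]⟩⟩ ⟨true,0,⟨0,[(24,0),(15,0)]⟩,⟨0,
  [(11,0),(13,0),(0,0)]⟩⟩]⟩) (.I [1,0,0,1,0,0,0,1,1] (.R ⟨1,false,false,false,[1,0,0,-1],[0,0,1],[0,
  0,0,-1,0,0,0,0,-1],(⟨0,[(25,0)]⟩,⟨0,[(26,0)]⟩),(⟨0,[(35,0)]⟩,⟨0,[(34,0)]⟩),⟨0,[(4,0)]⟩,.k,.k,(.x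
  (-1) ⟨3,[(23,0),(0,0),(11,1),(0,3)]⟩ ⟨0,[(38,0)]⟩),.k,(.r (-1) ⟨0,[(3,0),(38,0)]⟩ ⟨7,[(0,3),(0,1),
  (16,1),(3,1),(1,0),(7,1),(11,0)]⟩),.k,⟨false,1,⟨0,[(3,0),(38,0)]⟩,⟨0,[(0,0)]⟩⟩,⟨true,0,⟨0,[(25,0),
  (5,0)]⟩,⟨1,[(6,0),(6,0),(12,1)]⟩⟩,⟨true,0,⟨0,[(42,0)]⟩,⟨0,[(41,0)]⟩⟩,⟨false,0,⟨0,[(2,0),(13,0)]⟩,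
  ⟨1,[(3,1),(2,0),(6,0),(12,1)]⟩⟩,⟨false,1,⟨3,[(23,0),(0,0),(19,1)]⟩,⟨0,[]⟩⟩,⟨false,0,⟨0,[(5,0),(15,
  0)]⟩,⟨1,[(3,1),(2,0),(6,0),(12,1),(15,1)]⟩⟩,[.o ⟨false,0,⟨0,[(14,0)]⟩,⟨1,[(30,1),(5,0),(7,0)]⟩⟩,
  .o ⟨false,1,⟨7,[(22,3),(0,0),(0,0),(11,1),(7,3)]⟩,⟨0,[(27,0)]⟩⟩,.o ⟨false,1,⟨1,[(26,1),(9,0),(6,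
  0)]⟩,⟨2,[(6,0),(18,2),(2,0),(2,1)]⟩⟩,.a ⟨true,0,⟨0,[(26,0)]⟩,⟨0,[(25,0)]⟩⟩ ⟨false,1,⟨0,[(3,0),(8,
  0),(0,0)]⟩,⟨5,[(0,1),(0,1),(9,1),(12,0),(19,0)]⟩⟩ ⟨true,0,⟨0,[(14,0),(10,0)]⟩,⟨0,[(26,0),(0,
  0)]⟩⟩]⟩) (.R ⟨1,false,false,false,[1,0,0,-1],[0,0,1],[1,0,0,0,0,0,0,0,-1],(⟨0,[(25,0)]⟩,⟨0,[(26,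
  0)]⟩),(⟨0,[(35,0)]⟩,⟨0,[(34,0)]⟩),⟨0,[(4,0)]⟩,.k,.k,(.x (-1) ⟨3,[(23,0),(0,0),(11,1),(0,3)]⟩ ⟨0,
  [(38,0)]⟩),.k,(.r (-1) ⟨0,[(3,0),(38,0)]⟩ ⟨9,[(1,3),(6,7),(3,1),(11,2),(7,1),(11,0)]⟩),.k,⟨false,
  1,⟨0,[(3,0)]⟩,⟨0,[(1,0),(10,0),(0,0),(29,0)]⟩⟩,⟨true,0,⟨0,[(25,0),(5,0)]⟩,⟨1,[(6,0),(6,0),(12,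
  1)]⟩⟩,⟨true,0,⟨0,[]⟩,⟨0,[(46,0)]⟩⟩,⟨false,0,⟨0,[(2,0),(13,0)]⟩,⟨1,[(3,1),(2,0),(6,0),(12,1)]⟩⟩,
  ⟨false,1,⟨7,[(8,1),(6,1),(4,1),(3,0),(18,1),(0,2)]⟩,⟨0,[(42,0)]⟩⟩,⟨false,0,⟨0,[(5,0),(15,0)]⟩,⟨3,
  [(0,1),(5,1),(16,0),(2,3),(3,1),(11,1),(0,1),(0,0)]⟩⟩,[.o ⟨false,0,⟨0,[(14,0)]⟩,⟨1,[(30,1),(5,0),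
  (7,0)]⟩⟩,.o ⟨false,1,⟨7,[(22,3),(0,0),(0,0),(11,1),(7,3)]⟩,⟨0,[(27,0)]⟩⟩,.o ⟨false,1,⟨1,[(26,1),
  (9,0),(6,0)]⟩,⟨3,[(0,0),(0,0),(4,0),(14,1),(1,0),(1,1),(3,0)]⟩⟩,.a ⟨true,0,⟨0,[(26,0)]⟩,⟨0,[(25,
  0)]⟩⟩ ⟨false,1,⟨1,[(0,1),(7,1),(34,0),(0,0)]⟩,⟨2,[(1,0),(22,0),(15,0),(1,0)]⟩⟩ ⟨true,0,⟨0,[(14,0),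
  (10,0)]⟩,⟨0,[(26,0),(0,0)]⟩⟩]⟩)))) (.Q [0,1,1,0,-1,0,0,0,1,0,0,-1] (.p false [0,0,0,1] [] (⟨0,
  [(23,0)]⟩,⟨0,[(22,0)]⟩) .k 0 (⟨0,[]⟩,⟨0,[]⟩) .k .k) (.K ⟨0,[0,0,0,1],0,(-1),(⟨0,[(24,0)]⟩,⟨0,[(23,
  0)]⟩),.k,(.x 0 ⟨0,[(26,0),(2,0),(5,0)]⟩ ⟨0,[(36,0),(4,0)]⟩),(.x 0 ⟨0,[(36,0)]⟩ ⟨3,[(21,0),(0,0),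
  (11,1),(0,3)]⟩),.k,.k,[⟨0,[(24,0)]⟩,⟨0,[(23,0)]⟩,⟨7,[(21,4),(0,0),(1,7),(12,3),(3,1)]⟩,⟨0,[(0,
  0)]⟩]⟩) (.I [0,0,1,1,0,0,0,0,-1] (.R ⟨1,false,false,false,[1,0,0,-1],[1,-1],[0,0,0,-1,0,0,0,0,-1],
  (⟨0,[(24,0)]⟩,⟨0,[(25,0)]⟩),(⟨0,[(36,0)]⟩,⟨0,[(37,0)]⟩),⟨0,[(3,0)]⟩,.k,.k,(.x (-1) ⟨3,[(22,0),(0,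
  0),(11,1),(0,3)]⟩ ⟨0,[(37,0)]⟩),(.r 0 ⟨0,[(0,0)]⟩ ⟨1,[(23,0),(17,1),(0,0)]⟩),.k,.k,⟨true,0,⟨0,[(0,
  0),(40,0)]⟩,⟨0,[(2,0),(7,0),(30,0),(0,0)]⟩⟩,⟨false,0,⟨2,[(5,0),(18,2),(2,0),(2,1)]⟩,⟨0,[(25,0),
  (16,0)]⟩⟩,⟨true,0,⟨0,[(41,0)]⟩,⟨0,[(40,0)]⟩⟩,⟨false,0,⟨0,[(20,0),(20,0)]⟩,⟨0,[(1,0),(38,0)]⟩⟩,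
  ⟨false,1,⟨3,[(22,0),(0,0),(19,1)]⟩,⟨0,[]⟩⟩,⟨false,0,⟨0,[(20,0)]⟩,⟨11,[(1,7),(20,2),(0,0),(1,3),
  (12,3)]⟩⟩,[.o ⟨false,0,⟨0,[(11,0),(14,0)]⟩,⟨7,[(19,3),(2,0),(0,2),(16,3)]⟩⟩,.o ⟨false,1,⟨1,[(35,
  0),(5,1),(1,0)]⟩,⟨0,[(40,0)]⟩⟩,.o ⟨false,1,⟨1,[(25,1),(9,0),(6,0)]⟩,⟨2,[(5,0),(18,2),(2,0),(2,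
  1)]⟩⟩,.a ⟨true,0,⟨0,[(25,0)]⟩,⟨0,[(24,0)]⟩⟩ ⟨false,1,⟨0,[(1,0),(9,0),(12,0),(1,0)]⟩,⟨3,[(2,1),(11,
  1),(8,0),(18,0)]⟩⟩ ⟨true,0,⟨0,[(11,0),(12,0),(1,0)]⟩,⟨0,[(25,0),(14,0)]⟩⟩]⟩) (.I [1,0,1,0,0,0,0,0,
  -1] (.R ⟨1,false,false,false,[1,0,0,-1],[1,-1],[1,1,0,0,0,0,0,0,-1],(⟨0,[(25,0)]⟩,⟨0,[(26,0)]⟩),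
  (⟨0,[(37,0)]⟩,⟨0,[(38,0)]⟩),⟨0,[(4,0)]⟩,.k,.k,(.x (-1) ⟨3,[(23,0),(0,0),(11,1),(0,3)]⟩ ⟨0,[(38,
  0)]⟩),(.x (-1) ⟨0,[(38,0),(4,0)]⟩ ⟨0,[(28,0),(2,0),(5,0)]⟩),.k,.k,⟨true,0,⟨0,[(0,0),(40,0)]⟩,⟨0,
  [(1,0),(4,0),(2,0),(2,0),(6,1),(14,1),(3,1)]⟩⟩,⟨false,0,⟨4,[(0,1),(5,0),(14,1),(3,2),(1,0),(1,0),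
  (1,0)]⟩,⟨0,[(26,0),(16,0)]⟩⟩,⟨false,0,⟨0,[]⟩,⟨3,[(23,0),(0,0),(19,1)]⟩⟩,⟨false,0,⟨0,[(21,0),(20,
  0)]⟩,⟨0,[(2,0),(38,0)]⟩⟩,⟨true,0,⟨0,[(41,0)]⟩,⟨0,[(42,0)]⟩⟩,⟨false,0,⟨0,[(21,0)]⟩,⟨11,[(2,7),(20,
  2),(0,0),(1,3),(12,3)]⟩⟩,[.o ⟨false,0,⟨0,[(12,0),(14,0)]⟩,⟨7,[(20,3),(2,0),(0,2),(16,3)]⟩⟩,.o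
  ⟨false,1,⟨1,[(36,0),(5,1),(1,0)]⟩,⟨0,[(41,0)]⟩⟩,.o ⟨false,1,⟨1,[(26,1),(9,0),(6,0)]⟩,⟨4,[(0,1),(5,
  0),(14,1),(3,2),(1,0),(1,0),(1,0)]⟩⟩,.a ⟨true,0,⟨0,[(26,0)]⟩,⟨0,[(25,0)]⟩⟩ ⟨false,1,⟨1,[(23,0),
  (19,0)]⟩,⟨0,[(21,0),(4,0)]⟩⟩ ⟨true,0,⟨0,[(12,0),(12,0),(1,0)]⟩,⟨0,[(26,0),(14,0)]⟩⟩]⟩) (.R ⟨1,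
  false,false,true,[1,0,0,-1],[2,-1,-1],[0,1,0,-1,0,0,0,0,-1],(⟨0,[(25,0)]⟩,⟨0,[(26,0)]⟩),(⟨0,[(34,
  0),(2,0)]⟩,⟨0,[(7,0)]⟩),⟨0,[(4,0)]⟩,.k,.k,(.x (-1) ⟨3,[(23,0),(0,0),(11,1),(0,3)]⟩ ⟨0,[(38,0)]⟩),
  (.x (-1) ⟨0,[(0,0),(1,0),(4,0),(3,0),(0,0),(12,0),(13,0)]⟩ ⟨2,[(6,0),(21,3),(2,1),(2,2),(2,2)]⟩),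
  .k,.k,⟨true,0,⟨0,[(3,0),(19,0)]⟩,⟨0,[(1,0),(9,0)]⟩⟩,⟨false,0,⟨2,[(6,1),(18,2),(2,1),(2,0)]⟩,⟨0,
  [(0,0),(1,0),(8,0),(0,0),(12,0),(0,0),(12,0)]⟩⟩,⟨false,0,⟨0,[(42,0)]⟩,⟨15,[(0,3),(7,1),(6,1),(4,
  9),(3,2),(19,2)]⟩⟩,⟨false,0,⟨0,[(21,0),(5,0),(14,0)]⟩,⟨0,[(2,0),(2,0)]⟩⟩,⟨true,0,⟨0,[(46,0)]⟩,⟨0,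
  []⟩⟩,⟨false,0,⟨0,[(21,0),(5,0)]⟩,⟨1,[(2,1),(19,0),(2,0),(0,0)]⟩⟩,[.o ⟨false,0,⟨0,[(12,0),(14,1)]⟩,
  ⟨3,[(5,3),(17,0),(0,0),(19,1)]⟩⟩,.o ⟨false,1,⟨1,[(27,1),(8,0),(5,1),(1,0)]⟩,⟨0,[(5,0)]⟩⟩,.o
  ⟨false,1,⟨1,[(26,1),(9,0),(6,0)]⟩,⟨2,[(6,0),(18,2),(2,0),(2,1)]⟩⟩,.a ⟨true,0,⟨0,[(26,0)]⟩,⟨0,[(25,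
  0)]⟩⟩ ⟨false,1,⟨0,[(1,0),(21,0)]⟩,⟨1,[(0,0),(2,0),(11,0),(28,0)]⟩⟩ ⟨true,0,⟨0,[(12,0),(12,0),(1,
  1)]⟩,⟨0,[(5,0),(20,0)]⟩⟩]⟩))))) (.I [0,0,-2,-1,1,0,0,0,-1] (.R ⟨0,false,false,true,[1,0,0,-1],[0,
  1],[0,1,0,0,0,0,0,0,-1],(⟨0,[(22,0)]⟩,⟨0,[(23,0)]⟩),(⟨0,[(35,0)]⟩,⟨0,[(34,0)]⟩),⟨0,[(1,0)]⟩,.k,.k,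
  (.x (-1) ⟨3,[(20,0),(0,0),(11,1),(0,3)]⟩ ⟨0,[(35,0)]⟩),(.x (-1) ⟨3,[(20,0),(0,0),(11,1),(0,3)]⟩
  ⟨0,[(35,0)]⟩),.k,.k,⟨false,1,⟨0,[(0,0)]⟩,⟨0,[(18,0),(4,0),(14,0)]⟩⟩,⟨true,0,⟨0,[(22,0)]⟩,⟨2,[(3,
  0),(19,2),(1,0),(2,1)]⟩⟩,⟨true,0,⟨0,[(43,0)]⟩,⟨0,[]⟩⟩,⟨false,0,⟨0,[(2,0),(15,0),(8,0)]⟩,⟨1,[(0,1),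
  (2,0),(4,0),(0,0),(13,1),(13,0)]⟩⟩,⟨false,0,⟨0,[]⟩,⟨0,[]⟩⟩,⟨false,0,⟨0,[]⟩,⟨0,[]⟩⟩,[.o ⟨false,0,
  ⟨0,[(38,0)]⟩,⟨1,[(33,0),(5,1),(1,0)]⟩⟩,.o ⟨false,1,⟨7,[(17,3),(2,0),(0,2),(16,3)]⟩,⟨0,[(9,0),(14,
  0)]⟩⟩,.o ⟨false,1,⟨1,[(23,1),(9,0),(6,0)]⟩,⟨2,[(3,0),(18,2),(2,0),(2,1)]⟩⟩,.a ⟨true,0,⟨0,[(23,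
  0)]⟩,⟨0,[(22,0)]⟩⟩ ⟨false,1,⟨1,[(20,0),(19,0)]⟩,⟨0,[(18,0),(4,0)]⟩⟩ ⟨true,0,⟨0,[(22,0),(15,0)]⟩,
  ⟨0,[(9,0),(13,0),(0,0)]⟩⟩]⟩) (.Q [0,0,1,0,-1,0,1,1,1,1,-1,-1] (.p false [0,0,1] [1,0,0,-1] (⟨0,
  [(32,0)]⟩,⟨0,[(31,0)]⟩) .k 2 (⟨0,[(22,0)]⟩,⟨0,[(23,0)]⟩) .k (.r 0 ⟨5,[(0,3),(8,3),(0,3),(10,0),(8,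
  1),(5,1),(3,2)]⟩ ⟨1,[(8,1),(11,0),(18,1),(0,0)]⟩)) (.R ⟨0,false,false,false,[1,0,0,-1],[0,0,1],[0,
  0,0,0,0,0,0,1],(⟨0,[(23,0)]⟩,⟨0,[(24,0)]⟩),(⟨0,[(33,0)]⟩,⟨0,[(32,0)]⟩),⟨0,[(2,0)]⟩,.k,.k,(.x (-1)
  ⟨3,[(21,0),(0,0),(11,1),(0,3)]⟩ ⟨0,[(36,0)]⟩),.k,.k,.k,⟨false,1,⟨3,[(21,0),(0,0),(18,1)]⟩,⟨0,[]⟩⟩,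
  ⟨true,0,⟨0,[(23,0),(5,0)]⟩,⟨1,[(4,0),(6,0),(12,1)]⟩⟩,⟨false,0,⟨1,[(0,1),(3,0),(6,0),(12,1),(16,0),
  (0,0)]⟩,⟨1,[(9,1),(11,0),(18,1),(0,0)]⟩⟩,⟨true,(-1),⟨0,[(0,0)]⟩,⟨1,[(21,0),(2,1),(0,1),(15,0)]⟩⟩,
  ⟨false,0,⟨0,[]⟩,⟨0,[]⟩⟩,⟨false,0,⟨0,[]⟩,⟨0,[]⟩⟩,[.o ⟨false,0,⟨0,[(12,0)]⟩,⟨1,[(28,1),(5,0),(7,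
  0)]⟩⟩,.o ⟨false,1,⟨7,[(20,3),(0,0),(0,0),(11,1),(7,3)]⟩,⟨0,[(25,0)]⟩⟩,.o ⟨false,1,⟨1,[(24,1),(9,
  0),(6,0)]⟩,⟨1,[(0,0),(18,0),(1,0),(3,0)]⟩⟩,.a ⟨true,0,⟨0,[(24,0)]⟩,⟨0,[(23,0)]⟩⟩ ⟨false,1,⟨1,[(31,
  1),(9,0),(0,0)]⟩,⟨0,[(9,0),(30,0)]⟩⟩ ⟨true,0,⟨0,[(12,0),(10,0)]⟩,⟨0,[(24,0),(0,0)]⟩⟩]⟩) (.R ⟨0,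
  false,false,false,[1,0,0,-1],[0,0,1],[0,1,0,0,0,0,0,0,-1],(⟨0,[(23,0)]⟩,⟨0,[(24,0)]⟩),(⟨0,[(33,
  0)]⟩,⟨0,[(32,0)]⟩),⟨0,[(2,0)]⟩,.k,.k,(.x (-1) ⟨3,[(21,0),(0,0),(11,1),(0,3)]⟩ ⟨0,[(36,0)]⟩),.k,.k,
  .k,⟨false,1,⟨0,[(0,0),(8,0),(0,0),(12,0),(13,0)]⟩,⟨0,[(1,0),(8,0),(0,0),(29,0)]⟩⟩,⟨true,0,⟨0,[(23,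
  0),(5,0)]⟩,⟨1,[(4,0),(6,0),(12,1)]⟩⟩,⟨true,0,⟨0,[(44,0)]⟩,⟨0,[]⟩⟩,⟨false,0,⟨5,[(1,1),(8,1),(8,1),
  (0,1),(1,0),(0,3),(18,0)]⟩,⟨0,[(0,0)]⟩⟩,⟨false,0,⟨0,[]⟩,⟨0,[]⟩⟩,⟨false,0,⟨0,[]⟩,⟨0,[]⟩⟩,[.o
  ⟨false,0,⟨0,[(12,0)]⟩,⟨7,[(0,3),(18,3),(1,0),(0,0),(5,3),(5,1)]⟩⟩,.o ⟨false,1,⟨7,[(20,3),(0,0),(0,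
  0),(11,1),(7,3)]⟩,⟨0,[(25,0)]⟩⟩,.o ⟨false,1,⟨1,[(24,1),(9,0),(6,0)]⟩,⟨2,[(4,0),(18,2),(2,0),(2,
  1)]⟩⟩,.a ⟨true,0,⟨0,[(24,0)]⟩,⟨0,[(23,0)]⟩⟩ ⟨false,1,⟨1,[(21,0),(19,0)]⟩,⟨0,[(19,0),(4,0)]⟩⟩
  ⟨true,0,⟨0,[(12,0),(10,0)]⟩,⟨0,[(24,0),(0,0)]⟩⟩]⟩)))))) (.Q [0,0,0,-1,0,0,-1,-1,0,0,1] (.p true
  [0,0,1] [] (⟨0,[(28,0)]⟩,⟨0,[(27,0)]⟩) .k 0 (⟨0,[]⟩,⟨0,[]⟩) .k .k) (.R ⟨2,true,false,false,[0,1],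
  [0,1,1],[0,1,1],(⟨0,[]⟩,⟨0,[]⟩),(⟨0,[(29,0),(2,0)]⟩,⟨0,[(1,0)]⟩),⟨0,[]⟩,.k,.k,.k,.k,.k,.k,⟨true,0,
  ⟨0,[(0,0),(4,0),(0,0),(26,0)]⟩,⟨0,[(2,0),(31,0)]⟩⟩,⟨false,1,⟨0,[(25,0),(11,0)]⟩,⟨0,[(7,0)]⟩⟩,
  ⟨false,0,⟨0,[(36,0)]⟩,⟨7,[(2,1),(6,1),(4,1),(3,0),(18,1),(0,2)]⟩⟩,⟨true,0,⟨0,[(8,0)]⟩,⟨0,[(24,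
  0)]⟩⟩,⟨true,0,⟨0,[(40,0)]⟩,⟨0,[]⟩⟩,⟨false,1,⟨5,[(2,1),(5,1),(0,1),(6,1),(13,0),(6,1),(0,2)]⟩,⟨0,
  [(0,0)]⟩⟩,[]⟩) (.Q [0,-1,-1,-1,1,0,0,0,-1,-1,0,1] (.p true [0,0,0,1] [1] (⟨0,[(20,0)]⟩,⟨0,[(19,
  0)]⟩) .k 1 (⟨0,[]⟩,⟨0,[]⟩) .k .k) (.Q [0,1,-1,-1,0,0,0,0,-1,-1,0,1] (.p true [0,0,0,1] [1] (⟨0,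
  [(21,0)]⟩,⟨0,[(20,0)]⟩) .k 1 (⟨0,[]⟩,⟨0,[]⟩) .k .k) (.R ⟨2,true,false,true,[0,1],[1,0,0,-1],[1,1,
  1,1],(⟨0,[]⟩,⟨0,[]⟩),(⟨0,[(21,0)]⟩,⟨0,[(22,0)]⟩),⟨0,[]⟩,.k,.k,.k,(.x 0 ⟨0,[(34,0)]⟩ ⟨3,[(19,0),(0,
  0),(11,1),(0,3)]⟩),.k,.k,⟨true,0,⟨0,[(17,0),(4,0),(14,0)]⟩,⟨0,[(0,0),(20,0),(14,0)]⟩⟩,⟨false,1,⟨1,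
  [(22,1),(9,0),(6,0)]⟩,⟨0,[(21,0)]⟩⟩,⟨false,0,⟨0,[]⟩,⟨3,[(19,0),(0,0),(19,1)]⟩⟩,⟨true,0,⟨0,[(0,
  0)]⟩,⟨0,[(17,0),(3,0),(0,0),(14,0)]⟩⟩,⟨true,0,⟨0,[(37,0)]⟩,⟨0,[(38,0)]⟩⟩,⟨false,1,⟨3,[(0,1),(15,
  1),(5,1),(9,0),(6,0)]⟩,⟨0,[(17,0),(3,0),(0,0)]⟩⟩,[]⟩) (.Q [0,1,-1,-2,0,0,0,0,-1,-1,0,1] (.p true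
  [0,0,0,1] [1] (⟨0,[(22,0)]⟩,⟨0,[(21,0)]⟩) .k 1 (⟨0,[]⟩,⟨0,[]⟩) .k .k) (.R ⟨1,true,false,false,[1,
  -1],[0,0,0,1],[0,0,-1,-2],(⟨0,[(34,0)]⟩,⟨0,[(35,0)]⟩),(⟨0,[(23,0)]⟩,⟨0,[(22,0)]⟩),⟨0,[(4,0),(11,
  0)]⟩,.k,.k,(.r (-1) ⟨0,[(39,1),(0,0)]⟩ ⟨3,[(5,0),(6,2),(2,0),(3,0),(9,0)]⟩),(.x (-1) ⟨3,[(20,0),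
  (0,0),(11,1),(0,3)]⟩ ⟨0,[(35,0)]⟩),(.r (-1) ⟨1,[(0,1),(21,1),(17,0),(0,0)]⟩ ⟨2,[(1,0),(10,0),(2,
  0),(2,1),(4,2),(2,0),(11,1)]⟩),.k,⟨false,1,⟨1,[(0,1),(21,1),(17,0),(0,0)]⟩,⟨0,[(1,0),(1,0),(19,0),
  (0,0)]⟩⟩,⟨true,0,⟨0,[(22,0)]⟩,⟨0,[(7,0),(15,0),(4,0)]⟩⟩,⟨true,0,⟨0,[(39,0)]⟩,⟨0,[(38,0)]⟩⟩,⟨false,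
  0,⟨0,[(1,0)]⟩,⟨9,[(0,1),(1,5),(17,1),(0,0),(1,1),(9,0),(2,1)]⟩⟩,⟨false,1,⟨3,[(20,0),(0,0),(19,
  1)]⟩,⟨0,[]⟩⟩,⟨true,0,⟨0,[(1,0),(36,0)]⟩,⟨0,[(0,0)]⟩⟩,[]⟩) (.Q [0,0,0,0,0,-1,0,0,0,1,0,-1] (.p
  false [0,0,0,1] [1] (⟨0,[(23,0)]⟩,⟨0,[(22,0)]⟩) .k 1 (⟨0,[]⟩,⟨0,[]⟩) .k .k) (.I [0,0,-1,-1,1,0,0,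
  -1,-1] (.I [0,0,-2,-2,1,0,0,0,-1] (.R ⟨1,false,false,true,[1,0,0,-1],[0,1],[0,1,0,-1,0,0,0,0,-1],
  (⟨0,[(25,0)]⟩,⟨0,[(26,0)]⟩),(⟨0,[(38,0)]⟩,⟨0,[(37,0)]⟩),⟨0,[(2,0)]⟩,.k,.k,(.x (-1) ⟨3,[(23,0),(0,
  0),(11,1),(0,3)]⟩ ⟨0,[(38,0)]⟩),(.x (-1) ⟨3,[(23,0),(0,0),(11,1),(0,3)]⟩ ⟨0,[(38,0)]⟩),(.r (-1)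
  ⟨0,[(0,0)]⟩ ⟨1,[(3,0),(13,0),(0,0),(2,0),(4,1),(2,0)]⟩),.k,⟨false,1,⟨0,[(0,0)]⟩,⟨1,[(3,0),(2,0),
  (14,0),(4,1),(0,0),(13,0)]⟩⟩,⟨true,0,⟨0,[(25,0)]⟩,⟨0,[(10,0),(15,0),(4,0)]⟩⟩,⟨false,0,⟨0,[(42,
  0)]⟩,⟨7,[(3,1),(16,3),(3,0),(1,1),(9,0),(6,0),(0,0)]⟩⟩,⟨false,0,⟨0,[(4,0),(41,0)]⟩,⟨0,[(5,0)]⟩⟩,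
  ⟨true,0,⟨0,[(46,0)]⟩,⟨0,[]⟩⟩,⟨false,0,⟨0,[(4,0),(36,0)]⟩,⟨0,[(5,0),(36,0)]⟩⟩,[.o ⟨false,0,⟨0,[(41,
  0)]⟩,⟨11,[(1,1),(3,5),(10,1),(4,5),(2,0),(7,1),(3,2),(5,1)]⟩⟩,.o ⟨false,1,⟨7,[(20,3),(2,0),(0,2),
  (16,3)]⟩,⟨0,[(12,0),(14,0)]⟩⟩,.o ⟨false,1,⟨1,[(26,1),(9,0),(6,0)]⟩,⟨0,[(10,0),(14,0),(5,0)]⟩⟩,.a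
  ⟨true,0,⟨0,[(26,0)]⟩,⟨0,[(25,0)]⟩⟩ ⟨false,1,⟨7,[(0,3),(22,2),(0,0)]⟩,⟨0,[(3,0),(8,0),(13,0),(0,
  0)]⟩⟩ ⟨true,0,⟨0,[(25,0),(15,0)]⟩,⟨0,[(12,0),(13,0),(0,0)]⟩⟩]⟩) (.R ⟨1,false,false,false,[1,0,0,
  -1],[0,1,1],[1,1,0,0,0,0,0,0,-1],(⟨0,[(25,0)]⟩,⟨0,[(26,0)]⟩),(⟨0,[(35,0),(2,0)]⟩,⟨0,[(7,0)]⟩),⟨0,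
  [(2,0)]⟩,.k,.k,(.x (-1) ⟨3,[(23,0),(0,0),(11,1),(0,3)]⟩ ⟨0,[(38,0)]⟩),(.r (-1) ⟨0,[(1,0)]⟩ ⟨5,[(0,
  1),(7,1),(13,0),(1,1),(3,0),(3,0),(0,1)]⟩),(.r (-2) ⟨3,[(1,5),(11,1),(2,1),(7,0),(18,0)]⟩ ⟨0,[(0,
  0),(32,0)]⟩),.k,⟨true,1,⟨0,[(1,0),(44,0)]⟩,⟨0,[(0,0),(11,0),(0,0)]⟩⟩,⟨false,1,⟨0,[(25,0),(5,0),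
  (11,0)]⟩,⟨0,[(10,0),(15,0)]⟩⟩,⟨false,0,⟨0,[]⟩,⟨3,[(23,0),(0,0),(19,1)]⟩⟩,⟨false,0,⟨1,[(3,0),(17,
  0),(0,0)]⟩,⟨0,[(5,0),(24,0)]⟩⟩,⟨true,0,⟨0,[(41,0)]⟩,⟨0,[(42,0)]⟩⟩,⟨false,0,⟨3,[(3,2),(2,1),(14,0),
  (0,0)]⟩,⟨0,[(5,0),(24,0),(11,0)]⟩⟩,[.o ⟨false,0,⟨0,[(6,0)]⟩,⟨3,[(1,1),(3,0),(15,0),(2,0),(2,1),(0,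
  0),(3,0),(9,0)]⟩⟩,.o ⟨false,1,⟨9,[(6,5),(13,3),(1,1),(1,1),(11,0),(7,2)]⟩,⟨0,[(27,0),(14,0)]⟩⟩,.o
  ⟨false,1,⟨1,[(26,1),(9,0),(6,0)]⟩,⟨0,[(10,0),(14,0),(5,0)]⟩⟩,.a ⟨true,0,⟨0,[(26,0)]⟩,⟨0,[(25,
  0)]⟩⟩ ⟨false,1,⟨1,[(23,0),(19,0)]⟩,⟨0,[(21,0),(4,0)]⟩⟩ ⟨true,0,⟨0,[(6,0),(18,0)]⟩,⟨0,[(26,0),(0,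
  0),(14,0)]⟩⟩]⟩)) (.R ⟨1,false,false,false,[1,0,0,-1],[0,1,1],[1,1,0,0,0,0,0,0,-1],(⟨0,[(24,0)]⟩,
  ⟨0,[(25,0)]⟩),(⟨0,[(34,0),(2,0)]⟩,⟨0,[(6,0)]⟩),⟨0,[(1,0)]⟩,.k,.k,(.x (-1) ⟨3,[(22,0),(0,0),(11,1),
  (0,3)]⟩ ⟨0,[(37,0)]⟩),(.x 0 ⟨0,[(6,0),(2,0)]⟩ ⟨3,[(22,0),(0,0),(6,3),(3,3),(2,3),(4,1)]⟩),(.r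
  (-2) ⟨0,[(4,0),(19,0),(4,0),(0,0),(10,0),(0,0)]⟩ ⟨7,[(0,7),(6,0),(6,2),(2,0),(3,0),(9,0)]⟩),.k,
  ⟨true,1,⟨0,[(4,0),(5,0),(13,0),(13,0),(2,0)]⟩,⟨0,[(0,1),(0,0),(2,0),(1,0),(1,0),(2,0),(6,0),(7,0),
  (10,2)]⟩⟩,⟨false,1,⟨0,[(24,0),(5,0),(11,0)]⟩,⟨0,[(9,0),(15,0)]⟩⟩,⟨false,0,⟨0,[]⟩,⟨3,[(22,0),(0,0),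
  (19,1)]⟩⟩,⟨false,0,⟨1,[(2,0),(17,0),(0,0)]⟩,⟨0,[(4,0),(24,0)]⟩⟩,⟨true,0,⟨0,[(40,0)]⟩,⟨0,[(41,
  0)]⟩⟩,⟨false,0,⟨3,[(2,2),(2,1),(14,0),(0,0)]⟩,⟨0,[(4,0),(24,0),(11,0)]⟩⟩,[.o ⟨false,0,⟨0,[(5,0)]⟩,
  ⟨1,[(29,1),(5,0),(5,1),(1,0)]⟩⟩,.o ⟨false,1,⟨9,[(5,5),(13,3),(1,1),(1,1),(11,0),(7,2)]⟩,⟨0,[(26,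
  0),(14,0)]⟩⟩,.o ⟨false,1,⟨1,[(25,1),(9,0),(6,0)]⟩,⟨2,[(0,0),(10,0),(8,0),(1,0),(1,1),(1,1),(3,
  0)]⟩⟩,.a ⟨true,0,⟨0,[(25,0)]⟩,⟨0,[(24,0)]⟩⟩ ⟨false,1,⟨1,[(22,0),(19,0)]⟩,⟨0,[(20,0),(4,0)]⟩⟩
  ⟨true,0,⟨0,[(5,0),(18,0)]⟩,⟨0,[(25,0),(0,0),(14,0)]⟩⟩]⟩)) (.Q [0,0,-1,0,1,0,-1,-1,-1,-1,1,1] (.p
  true [0,0,1] [1,0,0,-1] (⟨0,[(33,0)]⟩,⟨0,[(32,0)]⟩) .k 2 (⟨0,[(23,0)]⟩,⟨0,[(24,0)]⟩) .k (.r 0 ⟨0,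
  [(2,0),(5,0),(1,0),(13,0),(12,0)]⟩ ⟨3,[(3,1),(5,1),(11,0),(1,1),(4,1),(0,1),(11,0)]⟩)) (.I [0,1,0,
  0,0,0,0,-1,1] (.I [1,-1,0,0,0,0,0,1,1] (.R ⟨0,false,false,false,[1,0,0,-1],[0,0,1],[0,1,0,0,0,0,0,
  0,-1],(⟨0,[(26,0)]⟩,⟨0,[(27,0)]⟩),(⟨0,[(36,0)]⟩,⟨0,[(35,0)]⟩),⟨0,[(3,0)]⟩,.k,.k,(.x (-1) ⟨3,[(24,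
  0),(0,0),(11,1),(0,3)]⟩ ⟨0,[(39,0)]⟩),.k,.k,.k,⟨false,1,⟨0,[(6,0),(5,0),(13,0),(13,0)]⟩,⟨0,[(0,
  0)]⟩⟩,⟨true,0,⟨0,[(26,0),(5,0)]⟩,⟨0,[(11,0),(15,0)]⟩⟩,⟨true,0,⟨0,[(47,0)]⟩,⟨0,[]⟩⟩,⟨false,0,⟨0,
  [(5,0),(11,0)]⟩,⟨0,[(2,0)]⟩⟩,⟨false,0,⟨0,[]⟩,⟨0,[]⟩⟩,⟨false,0,⟨0,[]⟩,⟨0,[]⟩⟩,[.o ⟨false,0,⟨0,[(15,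
  0)]⟩,⟨7,[(2,3),(19,3),(1,0),(0,0),(5,3),(5,1)]⟩⟩,.o ⟨false,1,⟨7,[(23,3),(0,0),(0,0),(11,1),(7,
  3)]⟩,⟨0,[(28,0)]⟩⟩,.o ⟨false,1,⟨1,[(27,1),(9,0),(6,0)]⟩,⟨0,[(11,0),(14,0),(5,0)]⟩⟩,.a ⟨true,0,⟨0,
  [(27,0)]⟩,⟨0,[(26,0)]⟩⟩ ⟨false,1,⟨1,[(24,0),(19,0)]⟩,⟨0,[(22,0),(4,0)]⟩⟩ ⟨true,0,⟨1,[(7,0),(9,0),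
  (8,1)]⟩,⟨0,[(27,0),(0,0)]⟩⟩]⟩) (.R ⟨0,false,false,false,[1,0,0,-1],[0,0,1],[1,0,0,0,0,0,0,0,-1],
  (⟨0,[(26,0)]⟩,⟨0,[(27,0)]⟩),(⟨0,[(36,0)]⟩,⟨0,[(35,0)]⟩),⟨0,[(3,0)]⟩,.k,.k,(.x (-1) ⟨3,[(24,0),(0,
  0),(11,1),(0,3)]⟩ ⟨0,[(39,0)]⟩),.k,.k,.k,⟨false,1,⟨1,[(0,1),(43,0),(0,0)]⟩,⟨0,[(1,0),(7,0),(3,0),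
  (0,0)]⟩⟩,⟨true,0,⟨0,[(26,0),(5,0)]⟩,⟨0,[(11,0),(15,0)]⟩⟩,⟨true,0,⟨0,[]⟩,⟨0,[(47,0)]⟩⟩,⟨false,0,⟨0,
  [(5,0),(11,0)]⟩,⟨0,[(2,0)]⟩⟩,⟨false,0,⟨0,[]⟩,⟨0,[]⟩⟩,⟨false,0,⟨0,[]⟩,⟨0,[]⟩⟩,[.o ⟨false,0,⟨0,[(15,
  0)]⟩,⟨7,[(2,3),(19,3),(1,0),(0,0),(5,3),(5,1)]⟩⟩,.o ⟨false,1,⟨7,[(23,3),(0,0),(0,0),(11,1),(7,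
  3)]⟩,⟨0,[(28,0)]⟩⟩,.o ⟨false,1,⟨1,[(27,1),(9,0),(6,0)]⟩,⟨3,[(0,1),(6,0),(9,0),(4,1),(3,1),(2,
  1)]⟩⟩,.a ⟨true,0,⟨0,[(27,0)]⟩,⟨0,[(26,0)]⟩⟩ ⟨false,1,⟨0,[(0,1),(3,0),(6,0),(1,1),(0,0),(12,0),(16,
  0)]⟩,⟨2,[(1,0),(20,1),(4,1),(2,0),(2,0)]⟩⟩ ⟨true,0,⟨1,[(7,0),(9,0),(8,1)]⟩,⟨0,[(27,0),(0,
  0)]⟩⟩]⟩)) (.R ⟨0,false,false,true,[1,0,0,-1],[1,0,-1],[1,0,0,0,0,0,0,0,-1],(⟨0,[(25,0)]⟩,⟨0,[(26,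
  0)]⟩),(⟨0,[(34,0)]⟩,⟨0,[(35,0)]⟩),⟨0,[(2,0)]⟩,.k,.k,(.x (-1) ⟨3,[(23,0),(0,0),(11,1),(0,3)]⟩ ⟨0,
  [(38,0)]⟩),.k,.k,.k,⟨true,0,⟨0,[(0,0)]⟩,⟨0,[(11,0),(9,0),(4,0),(12,0),(2,0)]⟩⟩,⟨false,0,⟨0,[(10,
  0),(14,0)]⟩,⟨0,[(26,0),(4,0),(11,0)]⟩⟩,⟨true,0,⟨0,[]⟩,⟨0,[(46,0)]⟩⟩,⟨false,0,⟨0,[(21,0),(8,0)]⟩,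
  ⟨1,[(0,0),(4,0),(5,0),(10,0),(3,0),(16,0)]⟩⟩,⟨false,0,⟨0,[]⟩,⟨0,[]⟩⟩,⟨false,0,⟨0,[]⟩,⟨0,[]⟩⟩,[.o
  ⟨false,0,⟨0,[(27,0)]⟩,⟨7,[(22,3),(0,0),(0,0),(11,1),(7,3)]⟩⟩,.o ⟨false,1,⟨7,[(1,3),(19,3),(1,0),
  (0,0),(5,3),(5,1)]⟩,⟨0,[(14,0)]⟩⟩,.o ⟨false,1,⟨1,[(26,1),(9,0),(6,0)]⟩,⟨5,[(0,1),(20,1),(3,3),(1,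
  2),(0,0),(0,0),(1,2)]⟩⟩,.a ⟨true,0,⟨0,[(26,0)]⟩,⟨0,[(25,0)]⟩⟩ ⟨false,1,⟨1,[(0,0),(4,0),(5,0),(13,
  0),(17,0)]⟩,⟨0,[(21,0),(4,0),(19,0)]⟩⟩ ⟨true,0,⟨0,[(25,0),(1,0)]⟩,⟨1,[(6,0),(9,0),(9,1)]⟩⟩]⟩))
  (.K ⟨0,[0,0,0,1],0,(-1),(⟨0,[(25,0)]⟩,⟨0,[(24,0)]⟩),.k,(.x 0 ⟨1,[(6,0),(11,0),(8,0),(2,1),(0,0)]⟩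
  ⟨0,[(37,0),(4,0)]⟩),(.x 0 ⟨0,[(37,0)]⟩ ⟨3,[(22,0),(0,0),(11,1),(0,3)]⟩),.k,.k,[⟨0,[(25,0)]⟩,⟨0,
  [(24,0)]⟩,⟨7,[(22,4),(0,0),(1,7),(12,3),(3,1)]⟩,⟨0,[(0,0),(25,0)]⟩]⟩))))) (.K ⟨0,[0,0,0,1],0,(-1),
  (⟨0,[(21,0)]⟩,⟨0,[(20,0)]⟩),.k,(.x 0 ⟨1,[(2,0),(11,0),(8,0),(2,1),(0,0)]⟩ ⟨0,[(33,0),(4,0)]⟩),(.x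
  0 ⟨0,[(33,0)]⟩ ⟨3,[(18,0),(0,0),(11,1),(0,3)]⟩),.k,.k,[⟨0,[(21,0)]⟩,⟨0,[(20,0)]⟩,⟨7,[(18,4),(0,0),
  (1,7),(12,3),(3,1)]⟩,⟨0,[(0,0),(6,0),(14,0)]⟩]⟩))))))))) (.Q [0,-1,0,-1,0,0,1,1,0,1,-1] (.p false
  [0,0,1] [1] (⟨0,[(22,0)]⟩,⟨0,[(21,0)]⟩) .k 1 (⟨0,[]⟩,⟨0,[]⟩) .k .k) (.R ⟨2,true,false,true,[0,1],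
  [1,1,-1],[1,1,1,1],(⟨0,[]⟩,⟨0,[]⟩),(⟨0,[(22,0),(3,0)]⟩,⟨0,[(7,0)]⟩),⟨0,[]⟩,.k,.k,.k,.k,.k,.k,
  ⟨true,0,⟨0,[(21,0)]⟩,⟨0,[(1,0),(16,0),(9,0)]⟩⟩,⟨false,1,⟨0,[(16,0),(14,0)]⟩,⟨0,[(1,0),(11,0),(0,
  0)]⟩⟩,⟨false,0,⟨0,[]⟩,⟨3,[(11,0),(0,0),(19,1)]⟩⟩,⟨true,0,⟨0,[(15,0)]⟩,⟨1,[(10,0),(2,0),(0,0)]⟩⟩,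
  ⟨true,0,⟨0,[(29,0)]⟩,⟨0,[(30,0)]⟩⟩,⟨false,1,⟨7,[(3,1),(2,1),(1,1),(3,0),(2,5),(15,2),(0,1)]⟩,⟨0,
  [(0,0)]⟩⟩,[]⟩) (.Q [0,0,0,1,0,0,0,0,0,1] (.pp false [-1,1]) (.R ⟨1,false,false,false,[0,0,1],[1,
  -1],[0,0,0,-1,0,0,0,1],(⟨0,[(24,0)]⟩,⟨0,[(23,0)]⟩),(⟨0,[(26,0)]⟩,⟨0,[(27,0)]⟩),⟨0,[(8,0)]⟩,.k,.k,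
  .k,.k,.k,.k,⟨false,0,⟨0,[(22,0)]⟩,⟨1,[(2,1),(16,1),(12,0),(0,0)]⟩⟩,⟨true,0,⟨0,[(17,0)]⟩,⟨0,[(0,0),
  (1,0),(28,0)]⟩⟩,⟨true,0,⟨0,[(31,0)]⟩,⟨0,[(30,0)]⟩⟩,⟨false,1,⟨0,[(16,0),(14,0),(1,0)]⟩,⟨0,[(0,0),
  (2,0)]⟩⟩,⟨false,1,⟨3,[(12,0),(0,0),(19,1)]⟩,⟨0,[]⟩⟩,⟨false,1,⟨0,[(16,0),(16,0)]⟩,⟨1,[(0,0),(10,0),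
  (19,0)]⟩⟩,[.a ⟨true,0,⟨0,[(31,0)]⟩,⟨0,[(0,0)]⟩⟩ ⟨true,0,⟨0,[(22,0),(8,0)]⟩,⟨1,[(0,0),(0,0),(0,1),
  (16,0),(9,1)]⟩⟩ ⟨false,1,⟨0,[(17,0),(13,0),(0,0)]⟩,⟨0,[(0,0),(1,0)]⟩⟩,.o ⟨false,1,⟨1,[(25,0),(5,
  1),(1,0)]⟩,⟨0,[(30,0)]⟩⟩,.o ⟨false,0,⟨0,[(2,0)]⟩,⟨1,[(21,1),(3,0),(6,0)]⟩⟩,.o ⟨false,0,⟨0,[(20,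
  0)]⟩,⟨0,[(17,0),(14,0)]⟩⟩]⟩) (.Q [0,1,1,0,-1,0,0,0,1,0,0,-1] (.p false [0,0,0,1] [] (⟨0,[(15,0)]⟩,
  ⟨0,[(14,0)]⟩) .k 0 (⟨0,[]⟩,⟨0,[]⟩) .k .k) (.K ⟨0,[0,0,0,1],0,(-1),(⟨0,[(16,0)]⟩,⟨0,[(15,0)]⟩),.k,
  (.x 0 ⟨0,[(18,0),(2,0),(5,0)]⟩ ⟨0,[(28,0),(4,0)]⟩),(.x 0 ⟨0,[(28,0)]⟩ ⟨3,[(13,0),(0,0),(11,1),(0,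
  3)]⟩),.k,.k,[⟨0,[(16,0)]⟩,⟨0,[(15,0)]⟩,⟨7,[(13,4),(0,0),(1,7),(12,3),(3,1)]⟩,⟨0,[(0,0)]⟩]⟩) (.Q
  [0,1,-1,-1,0,0,0,0,-1,-1,0,1] (.p true [0,0,0,1] [1] (⟨0,[(16,0)]⟩,⟨0,[(15,0)]⟩) .k 1 (⟨0,[]⟩,⟨0,
  []⟩) .k .k) (.R ⟨2,true,false,true,[0,1],[1,0,0,-1],[1,1,1,1],(⟨0,[]⟩,⟨0,[]⟩),(⟨0,[(16,0)]⟩,⟨0,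
  [(17,0)]⟩),⟨0,[]⟩,.k,.k,.k,(.x 0 ⟨0,[(29,0)]⟩ ⟨3,[(14,0),(0,0),(11,1),(0,3)]⟩),.k,.k,⟨true,0,⟨0,
  [(12,0),(4,0),(14,0)]⟩,⟨0,[(0,0),(15,0),(14,0)]⟩⟩,⟨false,1,⟨1,[(17,1),(9,0),(6,0)]⟩,⟨0,[(16,0)]⟩⟩,
  ⟨false,0,⟨0,[]⟩,⟨3,[(14,0),(0,0),(19,1)]⟩⟩,⟨true,0,⟨0,[(0,0)]⟩,⟨0,[(12,0),(3,0),(0,0),(14,0)]⟩⟩,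
  ⟨true,0,⟨0,[(32,0)]⟩,⟨0,[(33,0)]⟩⟩,⟨false,1,⟨2,[(0,0),(0,1),(25,0),(4,0)]⟩,⟨0,[(12,0),(3,0),(0,
  0)]⟩⟩,[]⟩) (.Q [0,0,0,0,0,1,0,0,0,-1,0,1] (.p true [0,0,0,1] [1] (⟨0,[(17,0)]⟩,⟨0,[(16,0)]⟩) .k 1
  (⟨0,[]⟩,⟨0,[]⟩) .k .k) (.I [0,0,-2,-1,1,0,0,-1] (.Q [0,1,1,0,-1,0,1,0,1,1,-1,-1] (.p false [0,0,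
  1] [1,0,0,-1] (⟨0,[(28,0)]⟩,⟨0,[(27,0)]⟩) .k 2 (⟨0,[(18,0)]⟩,⟨0,[(19,0)]⟩) .k (.x 0 ⟨0,[(24,0),(3,
  0)]⟩ ⟨0,[(21,0),(5,0),(8,0)]⟩)) (.R ⟨0,false,false,true,[1,0,0,-1],[1,0,-1],[0,0,0,-1,0,0,0,0,-1],
  (⟨0,[(19,0)]⟩,⟨0,[(20,0)]⟩),(⟨0,[(28,0)]⟩,⟨0,[(29,0)]⟩),⟨0,[(2,0)]⟩,.k,.k,(.x (-1) ⟨3,[(17,0),(0,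
  0),(11,1),(0,3)]⟩ ⟨0,[(32,0)]⟩),.k,.k,.k,⟨false,1,⟨0,[(4,0),(0,0),(13,0),(7,0)]⟩,⟨11,[(0,5),(0,1),
  (1,3),(2,9),(0,3),(10,0),(1,9),(16,2)]⟩⟩,⟨true,0,⟨0,[(19,0),(2,0)]⟩,⟨0,[(7,0),(12,0)]⟩⟩,⟨true,0,
  ⟨0,[(36,0)]⟩,⟨0,[(35,0)]⟩⟩,⟨false,0,⟨0,[(15,0),(8,0)]⟩,⟨0,[(4,0),(3,0)]⟩⟩,⟨false,0,⟨0,[]⟩,⟨0,[]⟩⟩,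
  ⟨false,0,⟨0,[]⟩,⟨0,[]⟩⟩,[.o ⟨false,0,⟨0,[(21,0)]⟩,⟨7,[(16,3),(0,0),(0,0),(11,1),(7,3)]⟩⟩,.o
  ⟨false,1,⟨1,[(24,1),(5,0),(7,0)]⟩,⟨0,[(8,0)]⟩⟩,.o ⟨false,1,⟨1,[(20,1),(9,0),(6,0)]⟩,⟨2,[(0,0),(4,
  0),(6,0),(2,0),(1,0),(1,0)]⟩⟩,.a ⟨true,0,⟨0,[(20,0)]⟩,⟨0,[(19,0)]⟩⟩ ⟨false,1,⟨0,[(4,0),(0,0),(13,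
  0)]⟩,⟨16,[(0,2),(2,5),(2,4),(1,5),(0,0),(2,3),(2,1),(2,2),(1,10)]⟩⟩ ⟨true,0,⟨0,[(19,0),(1,0)]⟩,⟨0,
  [(8,0),(11,0)]⟩⟩]⟩) (.I [0,1,0,0,0,0,0,-1,1] (.R ⟨0,false,false,true,[1,0,0,-1],[1,0,-1],[1,0,0,0,
  0,0,0,0,-1],(⟨0,[(20,0)]⟩,⟨0,[(21,0)]⟩),(⟨0,[(29,0)]⟩,⟨0,[(30,0)]⟩),⟨0,[(3,0)]⟩,.k,.k,(.x (-1) ⟨3,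
  [(18,0),(0,0),(11,1),(0,3)]⟩ ⟨0,[(33,0)]⟩),.k,.k,.k,⟨false,1,⟨0,[(1,0),(7,0),(10,0)]⟩,⟨0,[(0,
  0)]⟩⟩,⟨true,0,⟨0,[(20,0),(2,0)]⟩,⟨0,[(8,0),(12,0)]⟩⟩,⟨true,0,⟨0,[]⟩,⟨0,[(41,0)]⟩⟩,⟨false,0,⟨0,
  [(16,0),(8,0)]⟩,⟨0,[(5,0),(3,0)]⟩⟩,⟨false,0,⟨0,[]⟩,⟨0,[]⟩⟩,⟨false,0,⟨0,[]⟩,⟨0,[]⟩⟩,[.o ⟨false,0,
  ⟨0,[(22,0)]⟩,⟨7,[(17,3),(0,0),(0,0),(11,1),(7,3)]⟩⟩,.o ⟨false,1,⟨1,[(25,1),(5,0),(7,0)]⟩,⟨0,[(9,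
  0)]⟩⟩,.o ⟨false,1,⟨1,[(21,1),(9,0),(6,0)]⟩,⟨1,[(6,0),(6,0),(6,1),(5,0)]⟩⟩,.a ⟨true,0,⟨0,[(21,0)]⟩,
  ⟨0,[(20,0)]⟩⟩ ⟨false,1,⟨0,[(1,0),(6,0),(11,0)]⟩,⟨2,[(0,0),(15,1),(4,1),(2,0),(2,0)]⟩⟩ ⟨true,0,⟨0,
  [(20,0),(1,0)]⟩,⟨0,[(9,0),(11,0)]⟩⟩]⟩) (.R ⟨0,false,false,false,[1,0,0,-1],[1,0,-1],[0,1,1],(⟨0,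
  [(20,0)]⟩,⟨0,[(21,0)]⟩),(⟨0,[(29,0)]⟩,⟨0,[(30,0)]⟩),⟨0,[(3,0)]⟩,.k,.k,(.x (-1) ⟨3,[(18,0),(0,0),
  (11,1),(0,3)]⟩ ⟨0,[(33,0)]⟩),.k,.k,.k,⟨false,0,⟨2,[(24,0),(2,0),(0,1),(5,0)]⟩,⟨1,[(0,0),(1,1),(1,
  0),(2,0),(0,0),(12,0),(13,0)]⟩⟩,⟨true,0,⟨0,[(20,0),(2,0)]⟩,⟨0,[(8,0),(12,0)]⟩⟩,⟨false,0,⟨0,[(16,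
  0),(4,0),(19,0)]⟩,⟨1,[(0,0),(1,0),(12,0)]⟩⟩,⟨true,0,⟨0,[(16,0),(8,0)]⟩,⟨0,[(0,0),(7,0),(12,0),(12,
  0)]⟩⟩,⟨false,0,⟨0,[]⟩,⟨0,[]⟩⟩,⟨false,0,⟨0,[]⟩,⟨0,[]⟩⟩,[.o ⟨false,1,⟨1,[(25,1),(5,0),(7,0)]⟩,⟨0,
  [(9,0)]⟩⟩,.o ⟨false,1,⟨0,[(22,0),(16,0)]⟩,⟨0,[(24,0)]⟩⟩,.o ⟨false,1,⟨1,[(21,1),(9,0),(6,0)]⟩,⟨1,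
  [(6,0),(6,0),(6,1),(5,0)]⟩⟩,.a ⟨true,0,⟨0,[(21,0)]⟩,⟨0,[(20,0)]⟩⟩ ⟨true,0,⟨0,[(41,0)]⟩,⟨0,[]⟩⟩
  ⟨false,1,⟨0,[(20,0),(1,0),(16,0)]⟩,⟨0,[(9,0),(11,0)]⟩⟩]⟩))) (.I [1,0,0,0,0,0,0,0,1] (.R ⟨0,false,
  false,false,[1,0,0,-1],[1,-1],[0,0,0,-1,0,0,0,0,-1],(⟨0,[(19,0)]⟩,⟨0,[(20,0)]⟩),(⟨0,[(31,0)]⟩,⟨0,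
  [(32,0)]⟩),⟨0,[(2,0)]⟩,.k,.k,(.x (-1) ⟨3,[(17,0),(0,0),(11,1),(0,3)]⟩ ⟨0,[(32,0)]⟩),(.r 0 ⟨0,[(1,
  0),(2,0),(2,0),(11,0),(1,0)]⟩ ⟨1,[(18,0),(17,1),(0,0)]⟩),.k,.k,⟨true,0,⟨0,[(1,0),(2,0),(0,0),(1,
  0),(11,0),(4,0)]⟩,⟨0,[(0,0)]⟩⟩,⟨false,0,⟨7,[(1,1),(3,1),(9,1),(1,0),(1,5),(1,1),(3,1),(4,0)]⟩,⟨0,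
  [(20,0),(16,0)]⟩⟩,⟨true,0,⟨0,[(36,0)]⟩,⟨0,[(35,0)]⟩⟩,⟨false,0,⟨0,[(15,0),(20,0)]⟩,⟨0,[(4,0),(30,
  0)]⟩⟩,⟨false,0,⟨0,[]⟩,⟨0,[]⟩⟩,⟨false,0,⟨0,[]⟩,⟨0,[]⟩⟩,[.o ⟨false,0,⟨0,[(5,0)]⟩,⟨7,[(14,3),(2,0),
  (0,2),(16,3)]⟩⟩,.o ⟨false,1,⟨3,[(5,3),(11,0),(0,0),(19,1)]⟩,⟨0,[(35,0)]⟩⟩,.o ⟨false,1,⟨1,[(20,1),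
  (9,0),(6,0)]⟩,⟨7,[(1,1),(3,1),(9,1),(1,0),(1,5),(1,1),(3,1),(4,0)]⟩⟩,.a ⟨true,0,⟨0,[(20,0)]⟩,⟨0,
  [(19,0)]⟩⟩ ⟨false,1,⟨0,[(4,0),(0,0),(13,0)]⟩,⟨5,[(0,3),(0,1),(7,1),(8,0),(18,0)]⟩⟩ ⟨true,0,⟨0,[(5,
  0),(13,0)]⟩,⟨0,[(20,0),(14,0)]⟩⟩]⟩) (.R ⟨0,false,false,true,[1,0,0,-1],[0,1],[0,1],(⟨0,[(19,0)]⟩,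
  ⟨0,[(20,0)]⟩),(⟨0,[(32,0)]⟩,⟨0,[(31,0)]⟩),⟨0,[(2,0)]⟩,.k,.k,(.x (-1) ⟨3,[(17,0),(0,0),(11,1),(0,
  3)]⟩ ⟨0,[(32,0)]⟩),(.x (-1) ⟨3,[(17,0),(0,0),(11,1),(0,3)]⟩ ⟨0,[(32,0)]⟩),.k,.k,⟨false,1,⟨0,[(36,
  0),(0,0)]⟩,⟨31,[(1,7),(7,7),(4,3),(2,0),(0,2),(16,3)]⟩⟩,⟨true,0,⟨0,[(19,0)]⟩,⟨5,[(1,0),(3,2),(3,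
  0),(10,5),(1,0),(2,0),(4,0)]⟩⟩,⟨true,0,⟨0,[(15,0),(4,0),(12,0)]⟩,⟨0,[(0,0)]⟩⟩,⟨false,0,⟨4,[(1,0),
  (1,2),(7,0),(6,0),(0,1),(13,0)]⟩,⟨0,[(4,0),(0,0)]⟩⟩,⟨false,0,⟨0,[]⟩,⟨0,[]⟩⟩,⟨false,0,⟨0,[]⟩,⟨0,
  []⟩⟩,[.o ⟨false,0,⟨0,[(35,0)]⟩,⟨3,[(5,3),(11,0),(0,0),(19,1)]⟩⟩,.o ⟨false,1,⟨7,[(14,3),(2,0),(0,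
  2),(16,3)]⟩,⟨0,[(5,0)]⟩⟩,.o ⟨false,1,⟨1,[(20,1),(9,0),(6,0)]⟩,⟨7,[(1,1),(3,1),(9,1),(1,0),(1,5),
  (1,1),(3,1),(4,0)]⟩⟩,.a ⟨true,0,⟨0,[(20,0)]⟩,⟨0,[(19,0)]⟩⟩ ⟨false,1,⟨3,[(17,0),(0,0),(18,1)]⟩,⟨0,
  [(34,0)]⟩⟩ ⟨true,0,⟨0,[(19,0),(15,0)]⟩,⟨0,[(5,0),(14,0)]⟩⟩]⟩))) (.I [0,0,-2,-2,1,0,0,0,-1] (.I [1,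
  0,-2,-1,1,0,0,0,-1] (.R ⟨1,false,false,true,[1,0,0,-1],[0,1],[1,1,0,0,0,0,0,0,-1],(⟨0,[(19,0)]⟩,
  ⟨0,[(20,0)]⟩),(⟨0,[(32,0)]⟩,⟨0,[(31,0)]⟩),⟨0,[(2,0)]⟩,.k,.k,(.x (-1) ⟨3,[(17,0),(0,0),(11,1),(0,
  3)]⟩ ⟨0,[(32,0)]⟩),(.x (-1) ⟨3,[(17,0),(0,0),(11,1),(0,3)]⟩ ⟨0,[(32,0)]⟩),(.r (-1) ⟨0,[(1,0)]⟩ ⟨2,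
  [(3,0),(5,0),(2,0),(2,1),(4,2),(2,0),(11,1)]⟩),.k,⟨false,1,⟨0,[(0,0)]⟩,⟨0,[(15,0),(4,0),(14,0)]⟩⟩,
  ⟨true,0,⟨0,[(19,0)]⟩,⟨1,[(5,0),(6,0),(7,1),(4,0)]⟩⟩,⟨false,0,⟨0,[]⟩,⟨3,[(17,0),(0,0),(19,1)]⟩⟩,
  ⟨false,0,⟨0,[(3,0),(36,0)]⟩,⟨0,[(4,0),(0,0)]⟩⟩,⟨true,0,⟨0,[(35,0)]⟩,⟨0,[(36,0)]⟩⟩,⟨false,0,⟨0,[(3,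
  0),(31,0)]⟩,⟨1,[(1,0),(2,0),(0,1),(14,0),(13,0)]⟩⟩,[.o ⟨false,0,⟨0,[(35,0)]⟩,⟨9,[(1,1),(3,5),(12,
  0),(6,1),(0,1),(3,1),(7,4)]⟩⟩,.o ⟨false,1,⟨7,[(14,3),(2,0),(0,2),(16,3)]⟩,⟨0,[(5,0)]⟩⟩,.o ⟨false,
  1,⟨1,[(20,1),(9,0),(6,0)]⟩,⟨1,[(5,0),(6,0),(6,1),(5,0)]⟩⟩,.a ⟨true,0,⟨0,[(20,0)]⟩,⟨0,[(19,0)]⟩⟩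
  ⟨false,1,⟨1,[(17,0),(19,0)]⟩,⟨0,[(15,0),(4,0)]⟩⟩ ⟨true,0,⟨0,[(19,0),(15,0)]⟩,⟨0,[(5,0),(14,
  0)]⟩⟩]⟩) (.R ⟨1,false,false,true,[1,0,0,-1],[0,1],[0,1,0,-1,0,0,0,0,-1],(⟨0,[(19,0)]⟩,⟨0,[(20,
  0)]⟩),(⟨0,[(32,0)]⟩,⟨0,[(31,0)]⟩),⟨0,[(2,0)]⟩,.k,.k,(.x (-1) ⟨3,[(17,0),(0,0),(11,1),(0,3)]⟩ ⟨0,
  [(32,0)]⟩),(.x (-1) ⟨3,[(17,0),(0,0),(11,1),(0,3)]⟩ ⟨0,[(32,0)]⟩),(.r (-1) ⟨0,[(1,0)]⟩ ⟨10,[(0,3),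
  (2,1),(5,3),(2,3),(1,0),(1,1),(1,2),(1,1),(14,2)]⟩),.k,⟨false,1,⟨0,[(1,0)]⟩,⟨9,[(0,11),(13,3),(3,
  0),(16,3),(1,6)]⟩⟩,⟨true,0,⟨0,[(19,0)]⟩,⟨3,[(0,1),(4,1),(11,0),(2,3),(9,0)]⟩⟩,⟨false,0,⟨0,[(36,
  0)]⟩,⟨5,[(0,1),(13,3),(3,0),(18,1),(0,0)]⟩⟩,⟨false,0,⟨12,[(0,0),(2,9),(7,1),(6,0),(0,2),(3,1),(2,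
  1),(6,2)]⟩,⟨0,[(4,0),(0,0)]⟩⟩,⟨true,0,⟨0,[(40,0)]⟩,⟨0,[]⟩⟩,⟨false,0,⟨0,[(3,0),(31,0)]⟩,⟨1,[(1,0),
  (2,0),(0,1),(14,0),(13,0)]⟩⟩,[.o ⟨false,0,⟨0,[(35,0)]⟩,⟨9,[(1,1),(3,5),(12,0),(6,1),(0,1),(3,1),
  (7,4)]⟩⟩,.o ⟨false,1,⟨7,[(14,3),(2,0),(0,2),(16,3)]⟩,⟨0,[(5,0)]⟩⟩,.o ⟨false,1,⟨1,[(20,1),(9,0),(6,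
  0)]⟩,⟨5,[(0,1),(4,2),(0,0),(8,1),(1,1),(1,3),(3,0)]⟩⟩,.a ⟨true,0,⟨0,[(20,0)]⟩,⟨0,[(19,0)]⟩⟩
  ⟨false,1,⟨7,[(1,3),(15,2),(0,0)]⟩,⟨1,[(0,1),(36,0),(0,0)]⟩⟩ ⟨true,0,⟨0,[(19,0),(15,0)]⟩,⟨0,[(5,0),
  (14,0)]⟩⟩]⟩)) (.R ⟨1,false,false,true,[1,0,0,-1],[1,0,-1],[0,0,0,-1,0,0,0,0,-1],(⟨0,[(18,0)]⟩,⟨0,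
  [(19,0)]⟩),(⟨0,[(27,0)]⟩,⟨0,[(28,0)]⟩),⟨0,[(1,0)]⟩,.k,.k,(.x (-1) ⟨3,[(16,0),(0,0),(11,1),(0,3)]⟩
  ⟨0,[(31,0)]⟩),.k,(.r (-1) ⟨1,[(16,0),(9,1),(8,1),(0,0)]⟩ ⟨1,[(2,0),(2,0),(0,1),(7,0),(4,1),(3,
  0)]⟩),.k,⟨false,1,⟨0,[(3,0),(0,0),(13,0),(7,0)]⟩,⟨0,[(0,0),(5,0),(16,0),(11,0),(0,0)]⟩⟩,⟨true,0,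
  ⟨0,[(18,0),(2,0)]⟩,⟨0,[(6,0),(12,0)]⟩⟩,⟨true,0,⟨0,[(35,0)]⟩,⟨0,[(34,0)]⟩⟩,⟨false,0,⟨0,[(14,0),(8,
  0)]⟩,⟨0,[(3,0),(3,0)]⟩⟩,⟨false,1,⟨3,[(16,0),(0,0),(19,1)]⟩,⟨0,[]⟩⟩,⟨false,0,⟨1,[(2,0),(2,0),(8,0),
  (8,0)]⟩,⟨0,[(3,0),(5,0)]⟩⟩,[.o ⟨false,0,⟨0,[(20,0)]⟩,⟨7,[(15,3),(0,0),(0,0),(11,1),(7,3)]⟩⟩,.o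
  ⟨false,1,⟨1,[(23,1),(5,0),(7,0)]⟩,⟨0,[(7,0)]⟩⟩,.o ⟨false,1,⟨1,[(19,1),(9,0),(6,0)]⟩,⟨7,[(0,1),(3,
  3),(9,1),(1,1),(1,5),(1,0),(0,0),(0,0),(1,0)]⟩⟩,.a ⟨true,0,⟨0,[(19,0)]⟩,⟨0,[(18,0)]⟩⟩ ⟨false,1,⟨0,
  [(3,0),(0,0),(13,0)]⟩,⟨41,[(0,14),(7,3),(2,1),(1,0),(1,1),(1,13),(7,1),(8,0)]⟩⟩ ⟨true,0,⟨0,[(18,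
  0),(1,0)]⟩,⟨0,[(7,0),(11,0)]⟩⟩]⟩))))))))) (.Q [0,0,0,0,0,0,-1,0,0,-1,1] (.p true [0,0,1] [1] (⟨0,
  [(20,0)]⟩,⟨0,[(19,0)]⟩) .k 1 (⟨0,[]⟩,⟨0,[]⟩) .k .k) (.Q [0,-1,0,-1,0,0,1,1,0,1,-1] (.p false [0,0,
  1] [1] (⟨0,[(21,0)]⟩,⟨0,[(20,0)]⟩) .k 1 (⟨0,[]⟩,⟨0,[]⟩) .k .k) (.R ⟨2,true,false,true,[0,1],[1,1,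
  -1],[0,1,1],(⟨0,[]⟩,⟨0,[]⟩),(⟨0,[(21,0),(3,0)]⟩,⟨0,[(6,0)]⟩),⟨0,[]⟩,.k,.k,.k,.k,.k,.k,⟨false,0,⟨1,
  [(2,0),(17,0)]⟩,⟨1,[(4,1),(25,0),(0,0)]⟩⟩,⟨true,0,⟨0,[(1,0)]⟩,⟨0,[(0,0),(3,0)]⟩⟩,⟨false,0,⟨0,[(29,
  0)]⟩,⟨0,[(28,0),(2,0)]⟩⟩,⟨true,0,⟨0,[(14,0)]⟩,⟨1,[(9,0),(2,0),(0,0)]⟩⟩,⟨true,0,⟨0,[(33,0)]⟩,⟨0,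
  []⟩⟩,⟨false,1,⟨1,[(4,0),(0,0),(8,0),(15,0),(0,0)]⟩,⟨0,[(0,0)]⟩⟩,[]⟩) (.K ⟨2,[0,-1,1],0,0,(⟨0,[(6,
  0)]⟩,⟨0,[(21,0),(3,0)]⟩),.k,(.x 0 ⟨0,[(1,0),(4,0),(11,1),(5,0)]⟩ ⟨0,[(1,0),(19,0),(3,1),(4,0)]⟩),
  .k,.k,.k,[⟨0,[(29,0)]⟩,⟨0,[(0,0),(11,0),(0,0)]⟩,⟨0,[(1,0),(10,0),(0,0)]⟩,⟨1,[(18,2),(0,0)]⟩]⟩))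
  (.R ⟨2,true,false,true,[0,1],[1,1,-1],[0,1,2,1,0,0,0,-1],(⟨0,[]⟩,⟨0,[]⟩),(⟨0,[(20,0),(3,0)]⟩,⟨0,
  [(5,0)]⟩),⟨0,[]⟩,.k,.k,.k,.k,.k,.k,⟨true,0,⟨1,[(17,0),(0,0)]⟩,⟨0,[]⟩⟩,⟨false,1,⟨0,[(14,0),(14,
  0)]⟩,⟨0,[(0,0)]⟩⟩,⟨false,0,⟨0,[(0,0),(12,0),(12,0)]⟩,⟨1,[(19,1),(9,0),(0,0)]⟩⟩,⟨true,0,⟨0,[(13,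
  0)]⟩,⟨1,[(8,0),(2,0),(0,0)]⟩⟩,⟨true,0,⟨0,[(3,0)]⟩,⟨1,[(1,0),(17,0)]⟩⟩,⟨false,1,⟨1,[(3,0),(0,0),(8,
  0),(15,0),(0,0)]⟩,⟨3,[(0,1),(0,1),(6,0),(2,0),(0,0),(13,3)]⟩⟩,[]⟩))) (.K ⟨2,[0,-1,1],0,0,(⟨0,[(3,
  0)]⟩,⟨0,[(18,0),(3,0)]⟩),.k,(.r (-1) ⟨0,[(17,0),(8,1),(0,0)]⟩ ⟨2,[(0,3),(0,0),(0,0),(3,0),(8,2),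
  (8,0)]⟩),.k,.k,.k,[⟨0,[(26,0)]⟩,⟨1,[(0,0),(13,0),(10,0)]⟩,⟨0,[(0,0),(16,0),(8,0)]⟩,⟨1,[(15,2),(0,
  0)]⟩]⟩)) (.R ⟨2,true,false,false,[0,1],[0,0,1],[0,0,1],(⟨0,[]⟩,⟨0,[]⟩),(⟨0,[(18,0)]⟩,⟨0,[(17,
  0)]⟩),⟨0,[]⟩,.k,.k,.k,.k,.k,.k,⟨false,1,⟨1,[(13,1),(0,1),(11,0),(0,0)]⟩,⟨0,[(0,0),(23,0)]⟩⟩,⟨true,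
  0,⟨0,[(14,0)]⟩,⟨1,[(0,0),(0,0),(6,0),(0,0),(3,0)]⟩⟩,⟨true,0,⟨0,[(25,0)]⟩,⟨0,[(24,0)]⟩⟩,⟨false,0,
  ⟨0,[(0,0),(13,0)]⟩,⟨0,[(13,0),(10,0),(2,0)]⟩⟩,⟨false,1,⟨3,[(6,0),(0,0),(19,1)]⟩,⟨0,[]⟩⟩,⟨true,0,
  ⟨0,[(0,0),(13,0),(9,0)]⟩,⟨0,[(13,0)]⟩⟩,[]⟩)))

theorem ok25 : chk (cU (-1) true 3) t25 r10 = true := by decide +kernel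

noncomputable def t26 : Tre :=
  .Q [0,0,0,0,0,1,0,0,0,0,-1] (.ed true [1,-1,1] .k) t24 t25

theorem ok26 : chk (cU (-1) true 3) t26 r9 = true :=
  chk_Q (e' := [0,0,0,0,0,-1,0,0,0,0,1]) (by decide +kernel) (by decide +kernel) ok24 ok25

noncomputable def t27 : Tre :=
  .I [0,1,0,-1,-1,0,0,0,1] t17 t26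

theorem ok27 : chk (cU (-1) true 3) t27 r0 = true :=
  chk_I (e' := [1,-1,0,1,1,0,0,0,-1]) (by decide +kernel) (by decide +kernel) ok17 ok26

noncomputable def t28 : Tre :=
  .Q [0,1,-1,0,0,0,0,0,-1,0,0,1] (.p true [0,0,0,1] [] (⟨0,[(4,0)]⟩,⟨0,[(3,0)]⟩) .k 0 (⟨0,[]⟩,⟨0,
  []⟩) .k .k) t16 t27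

theorem ok28 : chk (cU (-1) true 3) t28 base = true :=
  chk_Q (e' := [0,-1,1,0,0,0,0,0,1,0,0,-1]) (by decide +kernel) (by decide +kernel) ok16 ok27

theorem ok : chkB (cU (-1) true 3) (fax (fcU (-1)) false 35 (-1) 3 true (tU true)) t28 base = true :=
  chkB_of (by decide +kernel) ok28

end Helper11.CT.Tm1_35_m1_1_u
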