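import Pool.Agent.Helper11.CT.Cfg
import Pool.Agent.Helper11.CT.Cut

set_option autoImplicit false
set_option linter.all false

namespace Helper11.CT.Tm1_35_m1_m1_u

open Helper11.CT

noncomputable def base : List Con :=
  [(false,[0,0,0,0,0,0,2,2,0,1,-2]),
  (true,[0,0,0,0,1,0,0,0,-2]),
  (true,[0,0,0,0,1,0,0,0,2]),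
  (false,[0,0,0,0,0,0,0,0,0,1,0,-1]),
  (false,[0,0,0,0,0,0,0,0,0,0,0,1]),
  (false,[0,1,0,0,0,0,-1,-1,0,-1,1]),
  (false,[0,0,1,0,0,0,-1,0,0,-1,1]),
  (false,[0,1,0,0,0,0,1,1,0,0,-1]),
  (false,[0,1,0,0,0,0,-1,-1,0,0,1]),
  (false,[0,0,1,0,0,0,1,0,0,0,-1]),
  (false,[0,0,1,0,0,0,-1,0,0,0,1]),
  (true,[0,0,0,0,0,0,0,-1]),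
  (false,[0,0,0,0,0,0,0,0,0,1,-1]),
  (false,[0,0,0,0,0,0,0,0,0,0,1]),
  (false,[0,0,0,0,1,0,0,0,0,-2]),
  (false,[0,0,0,0,0,-1,0,0,0,1]),
  (true,[0,0,0,0,0,1]),
  (true,[0,2,-1]),
  (true,[1,-1,1]),
  (true,[0,1,0,1]),
  (true,[0,0,0,-1]),
  (true,[0,0,-2,0,1]),
  (true,[0,-2,0,0,1]),
  (true,[-1,0,1]),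
  (true,[-1,1])]

noncomputable def l0 : List Con := (true, [0,0,1,1,0,0,0,1]) :: base

noncomputable def r0 : List Con := (true, [1,0,-1,-1,0,0,0,-1]) :: base

noncomputable def l1 : List Con := (false, [0,0,0,0,0,-1,0,0,0,1,-1]) :: l0

noncomputable def r1 : List Con := (false, [0,0,0,0,0,1,0,0,0,-1,1]) :: l0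

noncomputable def l2 : List Con := (false, [0,0,0,0,0,0,-1,0,0,0,1]) :: l1

noncomputable def r2 : List Con := (false, [0,0,0,0,0,0,1,0,0,0,-1]) :: l1

noncomputable def t0 : Tre :=
  (.K ⟨0,[1,-1,-1],0,0,(⟨0,[(1,0)]⟩,⟨0,[(16,0),(2,0)]⟩),.k,(.r (-1) ⟨0,[(14,0),(8,1),(0,0)]⟩ ⟨0,[(2,
  0),(18,0),(0,0)]⟩),.k,.k,.k,[⟨1,[(3,0),(2,0),(0,0),(6,1)]⟩,⟨0,[(0,0)]⟩,⟨1,[(3,0),(2,0),(0,0),(14,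
  1)]⟩,⟨0,[(8,0),(14,0)]⟩]⟩)

theorem ok0 : chk (cU (-1) true 3) t0 l2 = true := by decide +kernel

noncomputable def l3 : List Con := (false, [0,0,0,1,0,0,1,1,0,1,-1]) :: r2

noncomputable def r3 : List Con := (false, [0,0,0,-1,0,0,-1,-1,0,-1,1]) :: r2

noncomputable def l4 : List Con := (false, [0,0,0,-2,0,0,-1,-1,0,-1,1]) :: l3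

noncomputable def r4 : List Con := (false, [0,0,0,2,0,0,1,1,0,1,-1]) :: l3

noncomputable def t1 : Tre :=
  (.I [1,-1,-2,-1,1,0,0,-1] (.I [1,1,-1,-1,0,0,0,-1] (.R ⟨1,true,false,false,[1,0,-1],[0,1],[1,1,0,
  0,0,0,0,-1],(⟨0,[(19,0)]⟩,⟨0,[(20,0)]⟩),(⟨0,[(23,0)]⟩,⟨0,[(22,0)]⟩),⟨0,[(5,0)]⟩,.k,.k,.k,.k,(.r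
  (-1) ⟨7,[(0,1),(0,5),(6,0),(0,0),(14,1),(2,7)]⟩ ⟨0,[(6,0),(18,0),(0,0)]⟩),.k,⟨true,0,⟨0,[(0,0)]⟩,
  ⟨0,[(6,0),(18,0)]⟩⟩,⟨false,1,⟨7,[(0,1),(0,5),(1,7),(4,0),(0,0),(14,1)]⟩,⟨0,[(13,0)]⟩⟩,⟨false,0,⟨0,
  []⟩,⟨3,[(8,0),(0,0),(19,1)]⟩⟩,⟨true,0,⟨0,[(3,0)]⟩,⟨1,[(2,0),(9,0),(18,0)]⟩⟩,⟨true,0,⟨0,[(26,0)]⟩,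
  ⟨0,[(27,0)]⟩⟩,⟨false,1,⟨0,[(3,0),(22,0),(2,0)]⟩,⟨0,[(2,0)]⟩⟩,[]⟩) (.Q [0,0,0,1,0,0,0,0,0,1] (.pp
  false [-1,1]) (.R ⟨1,false,false,false,[1,0,-1],[0,1],[0,0,2,1],(⟨0,[(20,0)]⟩,⟨0,[(21,0)]⟩),(⟨0,
  [(24,0)]⟩,⟨0,[(23,0)]⟩),⟨0,[(6,0)]⟩,.k,.k,.k,.k,(.r (-1) ⟨15,[(2,13),(6,0),(0,0),(5,1),(0,1),(7,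
  5),(2,17)]⟩ ⟨1,[(0,0),(0,0),(5,1),(5,0),(3,0)]⟩),.k,⟨true,0,⟨1,[(17,0),(0,0)]⟩,⟨0,[]⟩⟩,⟨false,1,
  ⟨13,[(0,3),(1,11),(1,7),(3,1),(0,0),(0,0),(6,1),(7,5)]⟩,⟨0,[(14,0)]⟩⟩,⟨false,0,⟨0,[(7,0),(18,0)]⟩,
  ⟨15,[(2,13),(6,0),(0,0),(5,1),(0,1),(7,5),(2,1)]⟩⟩,⟨true,0,⟨0,[(4,0)]⟩,⟨1,[(3,0),(9,0),(18,0)]⟩⟩,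
  ⟨false,0,⟨1,[(0,0),(0,2),(11,0),(3,0)]⟩,⟨15,[(2,13),(6,0),(0,0),(5,1),(0,1),(7,5),(2,17)]⟩⟩,
  ⟨false,1,⟨0,[(4,0),(22,0),(2,0)]⟩,⟨0,[(3,0)]⟩⟩,[.a ⟨true,0,⟨0,[(0,0)]⟩,⟨0,[(28,0)]⟩⟩ ⟨false,0,⟨1,
  [(0,0),(0,0),(11,0),(3,0)]⟩,⟨0,[(28,0),(0,0)]⟩⟩ ⟨true,0,⟨0,[(0,0),(4,0)]⟩,⟨3,[(3,1),(4,0),(5,2),
  (3,0)]⟩⟩,.o ⟨false,1,⟨0,[(27,0),(2,0)]⟩,⟨0,[(1,0),(1,0),(1,0),(19,0)]⟩⟩,.o ⟨false,1,⟨1,[(18,1),(3,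
  0),(6,0)]⟩,⟨0,[(5,0)]⟩⟩,.o ⟨false,0,⟨0,[(14,0)]⟩,⟨0,[(17,0),(11,0)]⟩⟩]⟩) (.Q [0,0,0,-1,0,0,-1,-1,
  0,0,1] (.p true [0,0,1] [] (⟨0,[(21,0)]⟩,⟨0,[(20,0)]⟩) .k 0 (⟨0,[]⟩,⟨0,[]⟩) .k .k) (.R ⟨2,true,
  false,true,[0,1],[0,1,1],[0,0,1],(⟨0,[]⟩,⟨0,[]⟩),(⟨0,[(22,0),(2,0)]⟩,⟨0,[(7,0)]⟩),⟨0,[]⟩,.k,.k,.k,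
  .k,.k,.k,⟨false,1,⟨11,[(0,3),(2,7),(6,0),(0,0),(6,3),(12,1)]⟩,⟨0,[(2,0),(23,0)]⟩⟩,⟨true,0,⟨0,[(6,
  0)]⟩,⟨0,[(19,0)]⟩⟩,⟨true,0,⟨0,[(29,0)]⟩,⟨0,[(28,0)]⟩⟩,⟨false,0,⟨0,[(1,0),(3,0)]⟩,⟨0,[(17,0),(13,
  0)]⟩⟩,⟨false,1,⟨3,[(10,0),(0,0),(19,1)]⟩,⟨0,[]⟩⟩,⟨true,0,⟨0,[(1,0),(3,0),(22,0)]⟩,⟨0,[(0,0)]⟩⟩,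
  []⟩) (.I [0,1,-1,-2,0,0,0,-1] (.R ⟨1,true,false,false,[1,0,-1],[0,1],[0,1,0,-1,0,0,0,-1],(⟨0,[(22,
  0)]⟩,⟨0,[(23,0)]⟩),(⟨0,[(26,0)]⟩,⟨0,[(25,0)]⟩),⟨0,[(8,0)]⟩,.k,.k,.k,.k,(.r (-1) ⟨27,[(0,15),(3,
  15),(0,3),(4,3),(0,2),(0,2),(7,3),(10,5)]⟩ ⟨0,[(9,0),(18,0),(0,0)]⟩),.k,⟨true,0,⟨0,[(0,0)]⟩,⟨0,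
  [(3,0),(24,0),(0,0)]⟩⟩,⟨false,1,⟨8,[(0,0),(3,6),(1,8),(4,0),(0,0),(8,0),(5,2)]⟩,⟨0,[(16,0)]⟩⟩,
  ⟨false,0,⟨0,[(30,0)]⟩,⟨0,[(29,0),(2,0)]⟩⟩,⟨true,0,⟨0,[(6,0)]⟩,⟨1,[(5,0),(9,0),(18,0)]⟩⟩,⟨true,0,
  ⟨0,[(34,0)]⟩,⟨0,[]⟩⟩,⟨false,1,⟨0,[(6,0),(22,0),(2,0)]⟩,⟨0,[(5,0)]⟩⟩,[]⟩) (.Q [0,1,1,0,-1,0,0,0,1,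
  0,0,-1] (.p false [0,0,0,1] [] (⟨0,[(14,0)]⟩,⟨0,[(13,0)]⟩) .k 0 (⟨0,[]⟩,⟨0,[]⟩) .k .k) (.K ⟨0,[0,
  0,0,1],0,(-1),(⟨0,[(15,0)]⟩,⟨0,[(14,0)]⟩),.k,(.x 0 ⟨0,[(17,0),(2,0),(5,0)]⟩ ⟨0,[(27,0),(4,0)]⟩),
  (.x 0 ⟨0,[(27,0)]⟩ ⟨3,[(12,0),(0,0),(11,1),(0,3)]⟩),.k,.k,[⟨0,[(15,0)]⟩,⟨0,[(14,0)]⟩,⟨7,[(12,4),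
  (0,0),(1,7),(12,3),(3,1)]⟩,⟨0,[(0,0)]⟩]⟩) (.Q [0,1,-1,0,0,0,0,0,-1,0,0,1] (.p true [0,0,0,1] []
  (⟨0,[(15,0)]⟩,⟨0,[(14,0)]⟩) .k 0 (⟨0,[]⟩,⟨0,[]⟩) .k .k) (.Q [0,1,1,0,0,0,0,0,1,0,0,-1] (.p false
  [0,0,0,1] [] (⟨0,[(16,0)]⟩,⟨0,[(15,0)]⟩) .k 0 (⟨0,[]⟩,⟨0,[]⟩) .k .k) (.K ⟨0,[0,0,0,1],0,0,(⟨0,
  [(17,0)]⟩,⟨0,[(16,0)]⟩),.k,(.r (-1) ⟨1,[(15,0),(17,1),(0,0)]⟩ ⟨3,[(1,3),(1,2),(1,1),(10,3),(1,1),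
  (3,1),(1,0),(6,2)]⟩),(.x 0 ⟨0,[(29,0)]⟩ ⟨3,[(14,0),(0,0),(11,1),(0,3)]⟩),.k,.k,[⟨0,[(17,0)]⟩,⟨0,
  [(16,0)]⟩,⟨0,[(1,0)]⟩,⟨0,[(0,0)]⟩]⟩) (.Q [0,0,0,0,0,-1,0,0,0,1,0,-1] (.p false [0,0,0,1] [1] (⟨0,
  [(17,0)]⟩,⟨0,[(16,0)]⟩) .k 1 (⟨0,[]⟩,⟨0,[]⟩) .k .k) (.R ⟨1,false,false,true,[1,0,0,-1],[1,0,-1],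
  [1,1,0,0,0,0,0,0,-1],(⟨0,[(17,0)]⟩,⟨0,[(18,0)]⟩),(⟨0,[(26,0)]⟩,⟨0,[(27,0)]⟩),⟨0,[(0,0)]⟩,.k,.k,
  (.x (-1) ⟨3,[(15,0),(0,0),(11,1),(0,3)]⟩ ⟨0,[(30,0)]⟩),.k,(.r 0 ⟨2,[(1,2),(4,1),(0,2),(1,1),(4,0),
  (2,2),(13,2)]⟩ ⟨3,[(4,1),(10,0),(0,2),(5,1),(0,1),(1,3)]⟩),.k,⟨false,0,⟨0,[(1,0),(4,0),(0,0),(9,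
  0),(13,0)]⟩,⟨3,[(15,0),(0,2),(8,3)]⟩⟩,⟨true,0,⟨0,[(17,0),(2,0)]⟩,⟨0,[(11,0),(6,0)]⟩⟩,⟨false,0,⟨0,
  []⟩,⟨3,[(15,0),(0,0),(19,1)]⟩⟩,⟨false,1,⟨1,[(16,0),(0,1),(1,1),(3,0),(0,0),(11,0)]⟩,⟨2,[(1,2),(3,
  0),(0,0),(7,0)]⟩⟩,⟨true,0,⟨0,[(33,0)]⟩,⟨0,[(34,0)]⟩⟩,⟨false,1,⟨1,[(4,0),(11,0),(0,1),(1,1),(2,0),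
  (0,0),(12,0)]⟩,⟨2,[(1,2),(4,0),(2,0),(4,1)]⟩⟩,[.o ⟨false,0,⟨0,[(19,0)]⟩,⟨7,[(14,3),(0,0),(0,0),
  (11,1),(7,3)]⟩⟩,.o ⟨false,1,⟨1,[(22,1),(5,0),(7,0)]⟩,⟨2,[(5,0),(0,0),(7,0)]⟩⟩,.o ⟨false,1,⟨1,[(18,
  1),(9,0),(6,0)]⟩,⟨3,[(4,0),(1,1),(10,3),(1,0),(0,0),(2,1)]⟩⟩,.a ⟨true,0,⟨0,[(18,0)]⟩,⟨0,[(17,
  0)]⟩⟩ ⟨false,0,⟨3,[(1,2),(0,0),(2,1),(0,1),(10,3),(1,1)]⟩,⟨1,[(16,0),(6,0),(0,0),(11,0)]⟩⟩ ⟨true,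
  0,⟨0,[(17,0),(1,0)]⟩,⟨2,[(5,0),(0,0),(7,0),(3,2)]⟩⟩]⟩) (.R ⟨0,false,false,true,[1,0,0,-1],[1,0,
  -1],[0,1,0,0,0,0,0,0,-1],(⟨0,[(17,0)]⟩,⟨0,[(18,0)]⟩),(⟨0,[(26,0)]⟩,⟨0,[(27,0)]⟩),⟨0,[(0,0)]⟩,.k,
  .k,(.x (-1) ⟨3,[(15,0),(0,0),(11,1),(0,3)]⟩ ⟨0,[(30,0)]⟩),.k,.k,.k,⟨false,0,⟨0,[(1,0),(4,0),(0,0),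
  (9,0),(13,0)]⟩,⟨3,[(15,0),(0,2),(8,3)]⟩⟩,⟨true,0,⟨0,[(17,0),(2,0)]⟩,⟨0,[(11,0),(6,0)]⟩⟩,⟨true,0,
  ⟨0,[(38,0)]⟩,⟨0,[]⟩⟩,⟨false,1,⟨1,[(16,0),(0,1),(1,1),(3,0),(0,0),(11,0)]⟩,⟨2,[(1,2),(3,0),(0,0),
  (7,0)]⟩⟩,⟨false,0,⟨0,[]⟩,⟨0,[]⟩⟩,⟨false,0,⟨0,[]⟩,⟨0,[]⟩⟩,[.o ⟨false,0,⟨0,[(19,0)]⟩,⟨7,[(14,3),(0,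
  0),(0,0),(11,1),(7,3)]⟩⟩,.o ⟨false,1,⟨1,[(22,1),(5,0),(7,0)]⟩,⟨2,[(5,0),(0,0),(7,0)]⟩⟩,.o ⟨false,
  1,⟨1,[(18,1),(9,0),(6,0)]⟩,⟨3,[(4,0),(1,1),(10,3),(1,0),(0,0),(2,1)]⟩⟩,.a ⟨true,0,⟨0,[(18,0)]⟩,⟨0,
  [(17,0)]⟩⟩ ⟨false,0,⟨3,[(1,2),(0,0),(2,1),(0,1),(10,3),(1,1)]⟩,⟨1,[(16,0),(6,0),(0,0),(11,0)]⟩⟩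
  ⟨true,0,⟨0,[(17,0),(1,0)]⟩,⟨2,[(5,0),(0,0),(7,0),(3,2)]⟩⟩]⟩))) (.Q [0,0,0,0,0,1,0,0,0,-1,0,1] (.p
  true [0,0,0,1] [1] (⟨0,[(16,0)]⟩,⟨0,[(15,0)]⟩) .k 1 (⟨0,[]⟩,⟨0,[]⟩) .k .k) (.I [1,0,0,0,0,0,0,0,
  -1] (.R ⟨0,false,false,true,[1,0,0,-1],[0,1],[0,1],(⟨0,[(17,0)]⟩,⟨0,[(18,0)]⟩),(⟨0,[(30,0)]⟩,⟨0,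
  [(29,0)]⟩),⟨0,[(1,0)]⟩,.k,.k,(.x (-1) ⟨3,[(15,0),(0,0),(11,1),(0,3)]⟩ ⟨0,[(30,0)]⟩),(.x (-1) ⟨3,
  [(15,0),(0,0),(11,1),(0,3)]⟩ ⟨0,[(30,0)]⟩),.k,.k,⟨false,1,⟨0,[(34,0),(0,0)]⟩,⟨1,[(4,0),(17,0),(0,
  0)]⟩⟩,⟨true,0,⟨0,[(17,0)]⟩,⟨3,[(4,0),(1,1),(11,3),(0,0),(0,0),(2,1)]⟩⟩,⟨true,0,⟨0,[(2,0),(15,0),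
  (12,0)]⟩,⟨0,[(0,0)]⟩⟩,⟨false,0,⟨0,[(2,0),(7,0),(11,0)]⟩,⟨0,[(3,0),(2,0)]⟩⟩,⟨false,0,⟨0,[]⟩,⟨0,
  []⟩⟩,⟨false,0,⟨0,[]⟩,⟨0,[]⟩⟩,[.o ⟨false,0,⟨0,[(33,0)]⟩,⟨15,[(9,7),(4,3),(0,0),(0,0),(11,5),(7,
  7)]⟩⟩,.o ⟨false,1,⟨3,[(15,0),(0,0),(16,3),(2,1)]⟩,⟨0,[(6,0)]⟩⟩,.o ⟨false,1,⟨1,[(18,1),(9,0),(6,
  0)]⟩,⟨3,[(0,1),(1,1),(14,1),(1,0),(0,0),(0,0),(1,0)]⟩⟩,.a ⟨true,0,⟨0,[(18,0)]⟩,⟨0,[(17,0)]⟩⟩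
  ⟨false,1,⟨3,[(15,0),(0,0),(18,1)]⟩,⟨0,[(32,0)]⟩⟩ ⟨true,0,⟨0,[(17,0),(15,0)]⟩,⟨0,[(6,0),(11,
  0)]⟩⟩]⟩) (.R ⟨0,false,false,true,[1,0,0,-1],[1,0,-1],[0,1,0,0,0,0,0,0,-1],(⟨0,[(17,0)]⟩,⟨0,[(18,
  0)]⟩),(⟨0,[(26,0)]⟩,⟨0,[(27,0)]⟩),⟨0,[(1,0)]⟩,.k,.k,(.x (-1) ⟨3,[(15,0),(0,0),(11,1),(0,3)]⟩ ⟨0,
  [(30,0)]⟩),.k,.k,.k,⟨false,1,⟨0,[(3,0),(2,0),(0,0),(9,0),(13,0)]⟩,⟨0,[(0,0),(24,0)]⟩⟩,⟨true,0,⟨0,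
  [(17,0),(2,0)]⟩,⟨0,[(11,0),(6,0)]⟩⟩,⟨true,0,⟨0,[(38,0)]⟩,⟨0,[]⟩⟩,⟨false,0,⟨0,[(2,0),(19,0)]⟩,⟨2,
  [(3,2),(1,0),(0,0),(7,0)]⟩⟩,⟨false,0,⟨0,[]⟩,⟨0,[]⟩⟩,⟨false,0,⟨0,[]⟩,⟨0,[]⟩⟩,[.o ⟨false,0,⟨0,[(19,
  0)]⟩,⟨7,[(14,3),(0,0),(0,0),(11,1),(7,3)]⟩⟩,.o ⟨false,1,⟨1,[(22,1),(5,0),(7,0)]⟩,⟨2,[(5,0),(0,0),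
  (7,0)]⟩⟩,.o ⟨false,1,⟨1,[(18,1),(9,0),(6,0)]⟩,⟨3,[(4,0),(1,1),(10,3),(1,0),(0,0),(2,1)]⟩⟩,.a
  ⟨true,0,⟨0,[(18,0)]⟩,⟨0,[(17,0)]⟩⟩ ⟨false,1,⟨1,[(15,0),(19,0)]⟩,⟨0,[(2,0),(15,0)]⟩⟩ ⟨true,0,⟨0,
  [(17,0),(1,0)]⟩,⟨2,[(5,0),(0,0),(7,0),(3,2)]⟩⟩]⟩)) (.I [1,0,0,0,0,0,0,0,-1] (.R ⟨1,false,false,
  true,[1,0,0,-1],[0,1],[1,1,0,0,0,0,0,0,-1],(⟨0,[(17,0)]⟩,⟨0,[(18,0)]⟩),(⟨0,[(30,0)]⟩,⟨0,[(29,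
  0)]⟩),⟨0,[(1,0)]⟩,.k,.k,(.x (-1) ⟨3,[(15,0),(0,0),(11,1),(0,3)]⟩ ⟨0,[(30,0)]⟩),(.x (-1) ⟨3,[(15,
  0),(0,0),(11,1),(0,3)]⟩ ⟨0,[(30,0)]⟩),(.r (-1) ⟨0,[(0,0),(33,1),(0,0)]⟩ ⟨1,[(2,1),(1,0),(13,1),(3,
  0),(0,0),(9,1)]⟩),.k,⟨false,1,⟨0,[(0,0),(33,0),(0,0)]⟩,⟨0,[(2,0),(15,0),(14,0)]⟩⟩,⟨true,0,⟨0,[(17,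
  0)]⟩,⟨3,[(4,0),(1,1),(11,3),(0,0),(0,0),(2,1)]⟩⟩,⟨false,0,⟨0,[]⟩,⟨3,[(15,0),(0,0),(19,1)]⟩⟩,
  ⟨false,0,⟨0,[(2,0),(7,0),(11,0)]⟩,⟨0,[(3,0),(2,0)]⟩⟩,⟨true,0,⟨0,[(33,0)]⟩,⟨0,[(34,0)]⟩⟩,⟨false,0,
  ⟨0,[(2,0),(1,0),(12,0),(0,0),(6,0),(5,0)]⟩,⟨2,[(3,2),(2,1),(2,1),(4,0)]⟩⟩,[.o ⟨false,0,⟨0,[(33,
  0)]⟩,⟨15,[(9,7),(4,3),(0,0),(0,0),(11,5),(7,7)]⟩⟩,.o ⟨false,1,⟨3,[(15,0),(0,0),(16,3),(2,1)]⟩,⟨0,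
  [(6,0)]⟩⟩,.o ⟨false,1,⟨1,[(18,1),(9,0),(6,0)]⟩,⟨3,[(0,1),(1,1),(14,1),(1,0),(0,0),(0,0),(1,0)]⟩⟩,
  .a ⟨true,0,⟨0,[(18,0)]⟩,⟨0,[(17,0)]⟩⟩ ⟨false,1,⟨1,[(15,0),(19,0)]⟩,⟨0,[(2,0),(15,0)]⟩⟩ ⟨true,0,⟨0,
  [(17,0),(15,0)]⟩,⟨0,[(6,0),(11,0)]⟩⟩]⟩) (.R ⟨1,false,false,true,[1,0,0,-1],[1,0,-1],[1,1,0,0,0,0,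
  0,0,-1],(⟨0,[(17,0)]⟩,⟨0,[(18,0)]⟩),(⟨0,[(26,0)]⟩,⟨0,[(27,0)]⟩),⟨0,[(1,0)]⟩,.k,.k,(.x (-1) ⟨3,
  [(15,0),(0,0),(11,1),(0,3)]⟩ ⟨0,[(30,0)]⟩),.k,(.r (-1) ⟨2,[(3,2),(2,1),(0,2),(1,1),(4,0),(2,2),
  (13,2)]⟩ ⟨1,[(0,1),(3,0),(17,0),(0,0),(1,1)]⟩),.k,⟨false,1,⟨0,[(3,0),(2,0),(0,0),(9,0),(13,0)]⟩,
  ⟨0,[(0,0),(24,0)]⟩⟩,⟨true,0,⟨0,[(17,0),(2,0)]⟩,⟨0,[(11,0),(6,0)]⟩⟩,⟨false,0,⟨0,[]⟩,⟨3,[(15,0),(0,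
  0),(19,1)]⟩⟩,⟨false,0,⟨0,[(2,0),(19,0)]⟩,⟨2,[(3,2),(1,0),(0,0),(7,0)]⟩⟩,⟨true,0,⟨0,[(33,0)]⟩,⟨0,
  [(34,0)]⟩⟩,⟨false,0,⟨1,[(0,0),(1,0),(1,0),(12,0),(1,0),(2,0),(2,0)]⟩,⟨2,[(3,2),(2,0),(2,0),(4,
  1)]⟩⟩,[.o ⟨false,0,⟨0,[(19,0)]⟩,⟨7,[(14,3),(0,0),(0,0),(11,1),(7,3)]⟩⟩,.o ⟨false,1,⟨1,[(22,1),(5,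
  0),(7,0)]⟩,⟨2,[(5,0),(0,0),(7,0)]⟩⟩,.o ⟨false,1,⟨1,[(18,1),(9,0),(6,0)]⟩,⟨3,[(4,0),(1,1),(10,3),
  (1,0),(0,0),(2,1)]⟩⟩,.a ⟨true,0,⟨0,[(18,0)]⟩,⟨0,[(17,0)]⟩⟩ ⟨false,1,⟨1,[(15,0),(19,0)]⟩,⟨0,[(2,0),
  (15,0)]⟩⟩ ⟨true,0,⟨0,[(17,0),(1,0)]⟩,⟨2,[(5,0),(0,0),(7,0),(3,2)]⟩⟩]⟩))))))))) (.R ⟨1,true,false,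
  true,[1,0,-1],[0,1],[1,0,0,0,0,0,0,-1],(⟨0,[(18,0)]⟩,⟨0,[(19,0)]⟩),(⟨0,[(22,0)]⟩,⟨0,[(21,0)]⟩),⟨0,
  [(4,0)]⟩,.k,.k,.k,.k,(.r (-1) ⟨0,[(17,0),(8,1),(0,0)]⟩ ⟨0,[(0,0),(24,0),(2,0)]⟩),.k,⟨true,1,⟨1,
  [(17,1),(8,1),(0,0),(0,0)]⟩,⟨0,[(0,0)]⟩⟩,⟨false,1,⟨1,[(6,0),(2,0),(0,0),(6,1),(9,1)]⟩,⟨0,[(12,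
  0)]⟩⟩,⟨true,0,⟨0,[]⟩,⟨0,[(30,0)]⟩⟩,⟨false,0,⟨0,[(2,0)]⟩,⟨3,[(1,1),(12,1),(5,0),(7,2)]⟩⟩,⟨false,1,
  ⟨0,[(25,0),(2,0)]⟩,⟨0,[(26,0)]⟩⟩,⟨true,0,⟨0,[(2,0),(22,0)]⟩,⟨0,[(1,0)]⟩⟩,[]⟩))

theorem ok1 : chk (cU (-1) true 3) t1 l4 = true := by decide +kernel

noncomputable def l5 : List Con := (false, [0,1,0,-1,0,0,0,0,0,-1]) :: r4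

noncomputable def r5 : List Con := (false, [0,-1,0,1,0,0,0,0,0,1]) :: r4

noncomputable def l6 : List Con := (false, [0,0,0,0,0,2,0,0,0,-1]) :: l5

noncomputable def r6 : List Con := (false, [0,0,0,0,0,-2,0,0,0,1]) :: l5

noncomputable def t2 : Tre :=
  (.Q [0,0,0,1,0,0,0,0,0,1] (.pp false [-1,1]) (.R ⟨0,false,false,true,[0,0,1],[1,-1],[1,1,0,-1],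
  (⟨0,[(21,0)]⟩,⟨0,[(20,0)]⟩),(⟨0,[(23,0)]⟩,⟨0,[(24,0)]⟩),⟨0,[(1,0),(4,0)]⟩,.k,.k,.k,.k,.k,.k,
  ⟨false,0,⟨0,[]⟩,⟨3,[(9,0),(0,0),(18,1)]⟩⟩,⟨true,0,⟨0,[(14,0)]⟩,⟨1,[(8,0),(2,0),(0,0),(6,1)]⟩⟩,
  ⟨false,0,⟨0,[(19,0),(8,0)]⟩,⟨1,[(7,1),(21,0),(0,0)]⟩⟩,⟨true,0,⟨0,[(13,0),(14,0)]⟩,⟨0,[(4,0)]⟩⟩,
  ⟨false,0,⟨0,[]⟩,⟨0,[]⟩⟩,⟨false,0,⟨0,[]⟩,⟨0,[]⟩⟩,[.o ⟨false,0,⟨0,[(2,0)]⟩,⟨1,[(0,1),(21,0),(7,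
  0)]⟩⟩,.a ⟨true,0,⟨0,[(28,0)]⟩,⟨0,[(0,0)]⟩⟩ ⟨true,0,⟨0,[(28,0)]⟩,⟨3,[(0,0),(2,0),(3,0),(5,1),(3,0),
  (8,1)]⟩⟩ ⟨false,1,⟨0,[(14,0),(13,0),(0,0)]⟩,⟨0,[(0,0),(4,0)]⟩⟩,.o ⟨false,0,⟨0,[(5,0)]⟩,⟨1,[(18,1),
  (3,0),(6,0)]⟩⟩,.o ⟨false,0,⟨0,[(17,0)]⟩,⟨0,[(14,0),(14,0)]⟩⟩]⟩) (.Q [0,1,-1,0,0,0,0,0,-1,0,0,1]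
  (.p true [0,0,0,1] [] (⟨0,[(12,0)]⟩,⟨0,[(11,0)]⟩) .k 0 (⟨0,[]⟩,⟨0,[]⟩) .k .k) (.Q [0,1,1,0,0,0,0,
  0,1,0,0,-1] (.p false [0,0,0,1] [] (⟨0,[(13,0)]⟩,⟨0,[(12,0)]⟩) .k 0 (⟨0,[]⟩,⟨0,[]⟩) .k .k) (.K ⟨0,
  [0,0,0,1],0,0,(⟨0,[(14,0)]⟩,⟨0,[(13,0)]⟩),.k,(.r (-1) ⟨1,[(12,0),(17,1),(0,0)]⟩ ⟨0,[(1,0),(0,0),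
  (2,0),(7,0),(1,0),(12,1)]⟩),(.x 0 ⟨0,[(26,0)]⟩ ⟨3,[(11,0),(0,0),(11,1),(0,3)]⟩),.k,.k,[⟨0,[(14,
  0)]⟩,⟨0,[(13,0)]⟩,⟨0,[(1,0)]⟩,⟨0,[(0,0)]⟩]⟩) (.Q [0,0,0,0,0,1,0,0,0,-1,0,1] (.p true [0,0,0,1]
  [1] (⟨0,[(14,0)]⟩,⟨0,[(13,0)]⟩) .k 1 (⟨0,[]⟩,⟨0,[]⟩) .k .k) (.R ⟨0,false,false,false,[1,0,0,-1],
  [0,1,1],[0,1,0,0,0,0,0,0,-1],(⟨0,[(14,0)]⟩,⟨0,[(15,0)]⟩),(⟨0,[(24,0),(2,0)]⟩,⟨0,[(9,0)]⟩),⟨0,[(0,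
  0)]⟩,.k,.k,(.x (-1) ⟨3,[(12,0),(0,0),(11,1),(0,3)]⟩ ⟨0,[(27,0)]⟩),(.r 0 ⟨0,[(1,0),(3,0),(8,0),(7,
  0)]⟩ ⟨3,[(10,3),(1,0),(0,2)]⟩),.k,.k,⟨false,0,⟨0,[(1,0),(1,0),(10,0),(7,0),(5,0)]⟩,⟨1,[(10,1),(2,
  0),(19,0)]⟩⟩,⟨true,0,⟨0,[(8,0),(5,0)]⟩,⟨0,[(15,0),(1,0)]⟩⟩,⟨true,0,⟨0,[(35,0)]⟩,⟨0,[]⟩⟩,⟨false,1,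
  ⟨9,[(6,3),(3,1),(0,1),(1,4),(0,9),(5,1),(4,2),(3,5),(3,1)]⟩,⟨0,[(1,0),(1,0),(15,0)]⟩⟩,⟨false,0,⟨0,
  []⟩,⟨0,[]⟩⟩,⟨false,0,⟨0,[]⟩,⟨0,[]⟩⟩,[.o ⟨false,0,⟨0,[(3,0),(2,0)]⟩,⟨0,[(5,0),(13,0),(13,0)]⟩⟩,.o
  ⟨false,1,⟨15,[(6,7),(4,3),(0,0),(0,0),(11,5),(7,7)]⟩,⟨0,[(3,0),(15,0)]⟩⟩,.o ⟨false,1,⟨1,[(15,1),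
  (9,0),(6,0)]⟩,⟨0,[(8,0),(5,0),(2,0)]⟩⟩,.a ⟨true,0,⟨0,[(15,0)]⟩,⟨0,[(14,0)]⟩⟩ ⟨false,0,⟨0,[(1,0),
  (1,0),(10,0),(15,0)]⟩,⟨1,[(13,0),(6,0),(0,0),(11,0)]⟩⟩ ⟨true,0,⟨0,[(3,0),(2,0),(7,0)]⟩,⟨0,[(3,0),
  (11,0),(3,0)]⟩⟩]⟩) (.I [0,-1,-1,-1,0,0,0,1,-1] (.R ⟨1,false,false,true,[1,0,0,-1],[1,0,-1],[0,0,0,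
  -1,0,0,0,0,-1],(⟨0,[(15,0)]⟩,⟨0,[(16,0)]⟩),(⟨0,[(24,0)]⟩,⟨0,[(25,0)]⟩),⟨0,[(1,0)]⟩,.k,.k,(.x (-1)
  ⟨3,[(13,0),(0,0),(11,1),(0,3)]⟩ ⟨0,[(28,0)]⟩),.k,(.r 0 ⟨5,[(0,4),(2,0),(2,0),(8,0),(3,0),(2,0),(6,
  0)]⟩ ⟨1,[(14,0),(6,0),(0,0),(0,1),(7,1),(2,0)]⟩),.k,⟨false,0,⟨0,[(0,0)]⟩,⟨3,[(13,0),(0,2),(8,3),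
  (7,3)]⟩⟩,⟨true,0,⟨0,[(15,0),(2,0)]⟩,⟨0,[(9,0),(6,0)]⟩⟩,⟨true,0,⟨0,[(32,0)]⟩,⟨0,[(31,0)]⟩⟩,⟨false,
  1,⟨1,[(14,0),(0,1),(1,1),(3,0),(0,0),(11,0)]⟩,⟨2,[(2,2),(1,1),(2,0),(4,0)]⟩⟩,⟨false,1,⟨3,[(13,0),
  (0,0),(19,1)]⟩,⟨0,[]⟩⟩,⟨false,1,⟨1,[(14,0),(0,1),(1,1),(12,1),(0,1),(2,0)]⟩,⟨1,[(2,1),(1,0),(7,0),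
  (19,0)]⟩⟩,[.o ⟨false,0,⟨0,[(17,0)]⟩,⟨7,[(12,3),(0,0),(0,0),(11,1),(7,3)]⟩⟩,.o ⟨false,1,⟨1,[(20,1),
  (5,0),(7,0)]⟩,⟨2,[(4,1),(2,0),(4,0)]⟩⟩,.o ⟨false,1,⟨1,[(16,1),(9,0),(6,0)]⟩,⟨1,[(1,1),(3,0),(12,
  0),(2,0)]⟩⟩,.a ⟨true,0,⟨0,[(16,0)]⟩,⟨0,[(15,0)]⟩⟩ ⟨false,0,⟨0,[(0,0),(22,0)]⟩,⟨1,[(14,0),(6,0),(0,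
  0),(8,1),(2,0)]⟩⟩ ⟨true,0,⟨0,[(15,0),(1,0)]⟩,⟨2,[(4,1),(2,0),(4,0),(3,2)]⟩⟩]⟩) (.Q [0,0,3,0,-1,0,
  1,0,0,0,-1,-1] (.p false [1,-1,1] [1,0,0,-1] (⟨0,[(25,0),(1,0)]⟩,⟨0,[(5,0),(4,0)]⟩) .k 2 (⟨0,[(15,
  0)]⟩,⟨0,[(16,0)]⟩) .k (.r (-1) ⟨1,[(12,0),(1,0),(3,0),(3,0),(10,0)]⟩ ⟨0,[(2,0),(12,0),(1,0),(3,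
  0)]⟩)) (.I [0,1,0,0,0,0,0,1] (.R ⟨1,false,false,true,[1,0,0,-1],[1,0,-1],[0,1,0,-1,0,0,0,0,-1],
  (⟨0,[(17,0)]⟩,⟨0,[(18,0)]⟩),(⟨0,[(26,0)]⟩,⟨0,[(27,0)]⟩),⟨0,[(3,0)]⟩,.k,.k,(.x (-1) ⟨3,[(15,0),(0,
  0),(11,1),(0,3)]⟩ ⟨0,[(30,0)]⟩),.k,(.r 0 ⟨0,[(0,0),(3,0),(1,0),(10,0)]⟩ ⟨3,[(2,3),(12,0),(0,0),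
  (19,1)]⟩),.k,⟨false,0,⟨0,[(0,0),(3,0),(1,0),(10,0)]⟩,⟨1,[(2,1),(32,0),(0,0)]⟩⟩,⟨true,0,⟨0,[(17,0),
  (2,0)]⟩,⟨0,[(11,0),(6,0)]⟩⟩,⟨false,0,⟨0,[(34,0)]⟩,⟨0,[(33,0),(2,0)]⟩⟩,⟨false,1,⟨3,[(1,0),(14,1),
  (0,2),(1,0),(2,2),(1,0),(3,0),(7,1)]⟩,⟨2,[(4,2),(1,1),(2,0),(4,0)]⟩⟩,⟨true,0,⟨0,[(38,0)]⟩,⟨0,[]⟩⟩,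
  ⟨false,1,⟨3,[(2,1),(10,1),(2,0),(0,3),(1,3),(16,2)]⟩,⟨1,[(4,1),(1,0),(7,0),(19,0)]⟩⟩,[.o ⟨false,0,
  ⟨0,[(19,0)]⟩,⟨7,[(14,3),(0,0),(0,0),(11,1),(7,3)]⟩⟩,.o ⟨false,1,⟨1,[(22,1),(5,0),(7,0)]⟩,⟨2,[(6,
  1),(2,0),(4,0)]⟩⟩,.o ⟨false,1,⟨1,[(18,1),(9,0),(6,0)]⟩,⟨3,[(1,0),(15,2),(2,0),(7,0)]⟩⟩,.a ⟨true,0,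
  ⟨0,[(18,0)]⟩,⟨0,[(17,0)]⟩⟩ ⟨false,0,⟨0,[(4,0),(3,0),(8,0)]⟩,⟨3,[(2,1),(10,1),(2,0),(19,2)]⟩⟩
  ⟨true,0,⟨0,[(17,0),(1,0)]⟩,⟨2,[(6,1),(2,0),(4,0),(3,2)]⟩⟩]⟩) (.R ⟨1,false,false,false,[1,0,0,-1],
  [0,1,1],[0,0,0,-1,0,0,0,0,-1],(⟨0,[(17,0)]⟩,⟨0,[(18,0)]⟩),(⟨0,[(27,0),(2,0)]⟩,⟨0,[(12,0)]⟩),⟨0,
  [(3,0)]⟩,.k,.k,(.x (-1) ⟨3,[(15,0),(0,0),(11,1),(0,3)]⟩ ⟨0,[(30,0)]⟩),(.r 0 ⟨0,[(4,0),(3,0),(8,0),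
  (7,0)]⟩ ⟨3,[(13,3),(1,0),(0,2)]⟩),(.r 0 ⟨0,[(0,0),(3,0),(1,0),(10,0),(13,0),(2,0)]⟩ ⟨3,[(2,1),(10,
  5),(1,0),(0,1),(19,0)]⟩),.k,⟨false,0,⟨0,[(0,0),(3,0),(1,0),(10,0),(13,0),(2,0)]⟩,⟨1,[(13,1),(2,0),
  (16,1),(2,0)]⟩⟩,⟨true,0,⟨0,[(11,0),(5,0)]⟩,⟨0,[(18,0),(1,0)]⟩⟩,⟨true,0,⟨0,[(34,0)]⟩,⟨0,[(33,0)]⟩⟩,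
  ⟨false,1,⟨63,[(1,15),(7,23),(3,15),(0,11),(0,2),(0,34),(0,47),(10,9),(7,31)]⟩,⟨0,[(4,0),(1,0),(15,
  0)]⟩⟩,⟨false,1,⟨3,[(15,0),(0,0),(19,1)]⟩,⟨0,[]⟩⟩,⟨false,1,⟨3,[(1,0),(7,3),(6,1),(0,2),(2,0),(7,0),
  (7,1)]⟩,⟨0,[(4,0),(1,0),(15,0),(11,0)]⟩⟩,[.o ⟨false,0,⟨0,[(6,0),(2,0)]⟩,⟨0,[(8,0),(13,0),(13,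
  0)]⟩⟩,.o ⟨false,1,⟨15,[(9,7),(4,3),(0,0),(0,0),(11,5),(7,7)]⟩,⟨0,[(6,0),(15,0)]⟩⟩,.o ⟨false,1,⟨1,
  [(18,1),(9,0),(6,0)]⟩,⟨3,[(1,0),(15,2),(2,0),(7,0)]⟩⟩,.a ⟨true,0,⟨0,[(18,0)]⟩,⟨0,[(17,0)]⟩⟩
  ⟨false,0,⟨0,[(4,0),(1,0),(10,0)]⟩,⟨3,[(2,1),(10,1),(1,0),(0,1),(19,0)]⟩⟩ ⟨true,0,⟨5,[(3,5),(2,1),
  (0,2),(1,3),(4,0)]⟩,⟨0,[(6,0),(11,0),(3,0)]⟩⟩]⟩)) (.I [0,-1,-1,-2,0,0,0,1,-1] (.R ⟨1,false,false,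
  true,[1,0,0,-1],[1,0,-1],[0,1,0,-1,0,0,0,0,-1],(⟨0,[(17,0)]⟩,⟨0,[(18,0)]⟩),(⟨0,[(26,0)]⟩,⟨0,[(27,
  0)]⟩),⟨0,[(3,0)]⟩,.k,.k,(.x (-1) ⟨3,[(15,0),(0,0),(11,1),(0,3)]⟩ ⟨0,[(30,0)]⟩),.k,(.r 0 ⟨0,[(0,0),
  (32,0)]⟩ ⟨3,[(2,3),(12,0),(0,0),(19,1)]⟩),.k,⟨false,0,⟨0,[(0,0),(32,0)]⟩,⟨1,[(2,1),(32,0),(0,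
  0)]⟩⟩,⟨true,0,⟨0,[(17,0),(2,0)]⟩,⟨0,[(11,0),(6,0)]⟩⟩,⟨false,0,⟨0,[(34,0)]⟩,⟨0,[(33,0),(2,0)]⟩⟩,
  ⟨false,1,⟨1,[(16,0),(0,1),(1,1),(3,0),(0,0),(11,0)]⟩,⟨2,[(4,2),(1,1),(2,0),(4,0)]⟩⟩,⟨true,0,⟨0,
  [(38,0)]⟩,⟨0,[]⟩⟩,⟨false,1,⟨3,[(2,1),(10,1),(2,0),(0,3),(1,3),(16,2)]⟩,⟨2,[(0,0),(3,1),(1,0),(4,
  0),(2,0),(3,0)]⟩⟩,[.o ⟨false,0,⟨0,[(19,0)]⟩,⟨7,[(14,3),(0,0),(0,0),(11,1),(7,3)]⟩⟩,.o ⟨false,1,⟨1,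
  [(22,1),(5,0),(7,0)]⟩,⟨2,[(6,1),(2,0),(4,0)]⟩⟩,.o ⟨false,1,⟨1,[(1,0),(16,0),(4,0),(4,0)]⟩,⟨1,[(3,
  1),(3,0),(12,0),(2,0)]⟩⟩,.a ⟨true,0,⟨0,[(18,0)]⟩,⟨0,[(17,0)]⟩⟩ ⟨false,0,⟨7,[(0,3),(2,3),(0,0),(0,
  2),(1,1),(3,1),(7,1),(5,1)]⟩,⟨3,[(2,1),(10,1),(2,0),(19,2)]⟩⟩ ⟨true,0,⟨0,[(17,0),(1,0)]⟩,⟨2,[(6,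
  1),(2,0),(4,0),(3,2)]⟩⟩]⟩) (.I [1,0,-2,-1,0,0,0,-1,-1] (.R ⟨1,false,false,false,[1,0,0,-1],[0,1,
  1],[0,0,0,-1,0,0,0,0,-1],(⟨0,[(18,0)]⟩,⟨0,[(19,0)]⟩),(⟨0,[(28,0),(2,0)]⟩,⟨0,[(13,0)]⟩),⟨0,[(4,
  0)]⟩,.k,.k,(.x (-1) ⟨3,[(16,0),(0,0),(11,1),(0,3)]⟩ ⟨0,[(31,0)]⟩),(.r 0 ⟨1,[(0,1),(23,0),(0,0)]⟩
  ⟨3,[(14,3),(1,0),(0,2)]⟩),(.r 0 ⟨0,[(0,0),(34,0)]⟩ ⟨3,[(3,1),(10,5),(1,0),(0,1),(19,0)]⟩),.k,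
  ⟨false,0,⟨0,[(0,0),(34,0)]⟩,⟨11,[(1,3),(12,15),(1,0),(0,4),(18,3),(0,1)]⟩⟩,⟨true,0,⟨0,[(12,0),(5,
  0)]⟩,⟨0,[(19,0),(1,0)]⟩⟩,⟨true,0,⟨0,[(35,0)]⟩,⟨0,[(34,0)]⟩⟩,⟨false,1,⟨7,[(4,5),(3,2),(1,1),(3,3),
  (0,0),(1,3),(0,1),(5,3),(12,3)]⟩,⟨1,[(0,0),(4,0),(1,0),(11,0),(0,0),(4,0)]⟩⟩,⟨false,1,⟨3,[(16,0),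
  (0,0),(19,1)]⟩,⟨0,[]⟩⟩,⟨false,1,⟨19,[(1,1),(2,19),(3,9),(1,13),(3,7),(2,8),(6,5),(4,1),(3,3),(3,
  8)]⟩,⟨0,[(0,0),(6,0),(11,0),(5,0)]⟩⟩,[.o ⟨false,0,⟨0,[(7,0),(2,0)]⟩,⟨0,[(9,0),(13,0),(13,0)]⟩⟩,.o
  ⟨false,1,⟨15,[(10,7),(4,3),(0,0),(0,0),(11,5),(7,7)]⟩,⟨0,[(7,0),(15,0)]⟩⟩,.o ⟨false,1,⟨1,[(2,0),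
  (16,0),(4,0),(4,0)]⟩,⟨1,[(4,1),(3,0),(12,0),(2,0)]⟩⟩,.a ⟨true,0,⟨0,[(19,0)]⟩,⟨0,[(18,0)]⟩⟩ ⟨false,
  0,⟨0,[(5,0),(1,0),(10,0)]⟩,⟨3,[(3,1),(10,1),(1,0),(0,1),(19,0)]⟩⟩ ⟨true,0,⟨5,[(4,5),(2,1),(0,2),
  (1,3),(4,0)]⟩,⟨0,[(7,0),(11,0),(3,0)]⟩⟩]⟩) (.R ⟨1,false,false,true,[1,0,0,-1],[1,0,-1],[0,1,0,-1,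
  0,0,0,0,-1],(⟨0,[(18,0)]⟩,⟨0,[(19,0)]⟩),(⟨0,[(27,0)]⟩,⟨0,[(28,0)]⟩),⟨0,[(4,0)]⟩,.k,.k,(.x (-1) ⟨3,
  [(16,0),(0,0),(11,1),(0,3)]⟩ ⟨0,[(31,0)]⟩),.k,(.r 0 ⟨0,[(0,0),(4,1),(1,1),(10,1),(13,0)]⟩ ⟨3,[(3,
  3),(12,0),(0,0),(19,1)]⟩),.k,⟨false,0,⟨0,[(0,0),(4,1),(1,1),(10,1),(13,0)]⟩,⟨1,[(3,1),(32,0),(0,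
  0)]⟩⟩,⟨true,0,⟨0,[(18,0),(2,0)]⟩,⟨0,[(12,0),(6,0)]⟩⟩,⟨false,0,⟨0,[(35,0)]⟩,⟨8,[(1,1),(0,0),(7,1),
  (3,0),(1,0),(1,0),(1,0),(8,0),(7,5)]⟩⟩,⟨false,1,⟨1,[(17,0),(0,1),(1,1),(3,0),(0,0),(11,0)]⟩,⟨2,
  [(5,2),(1,1),(2,0),(4,0)]⟩⟩,⟨true,0,⟨0,[(39,0)]⟩,⟨0,[]⟩⟩,⟨false,1,⟨3,[(1,1),(15,0),(0,3),(1,1),(4,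
  1),(3,0),(7,1)]⟩,⟨1,[(5,1),(1,0),(7,0),(19,0)]⟩⟩,[.o ⟨false,0,⟨0,[(20,0)]⟩,⟨7,[(15,3),(0,0),(0,0),
  (11,1),(7,3)]⟩⟩,.o ⟨false,1,⟨1,[(23,1),(5,0),(7,0)]⟩,⟨2,[(7,1),(2,0),(4,0)]⟩⟩,.o ⟨false,1,⟨1,[(2,
  0),(16,0),(4,0),(4,0)]⟩,⟨1,[(4,1),(3,0),(12,0),(2,0)]⟩⟩,.a ⟨true,0,⟨0,[(19,0)]⟩,⟨0,[(18,0)]⟩⟩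
  ⟨false,0,⟨0,[(5,0),(3,0),(8,0)]⟩,⟨11,[(0,3),(0,3),(14,0),(0,2),(19,7)]⟩⟩ ⟨true,0,⟨0,[(18,0),(1,
  0)]⟩,⟨2,[(7,1),(2,0),(4,0),(3,2)]⟩⟩]⟩))))))) (.Q [0,1,1,0,-1,0,0,0,1,0,0,-1] (.p false [0,0,0,1]
  [] (⟨0,[(13,0)]⟩,⟨0,[(12,0)]⟩) .k 0 (⟨0,[]⟩,⟨0,[]⟩) .k .k) (.K ⟨0,[0,0,0,1],0,(-1),(⟨0,[(14,0)]⟩,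
  ⟨0,[(13,0)]⟩),.k,(.x 0 ⟨0,[(16,0),(2,0),(5,0)]⟩ ⟨0,[(26,0),(4,0)]⟩),(.x 0 ⟨0,[(26,0)]⟩ ⟨3,[(11,0),
  (0,0),(11,1),(0,3)]⟩),.k,.k,[⟨0,[(14,0)]⟩,⟨0,[(13,0)]⟩,⟨7,[(11,4),(0,0),(1,7),(12,3),(3,1)]⟩,⟨0,
  [(0,0)]⟩]⟩) (.Q [0,0,0,0,0,1,0,0,0,-1,0,1] (.p true [0,0,0,1] [1] (⟨0,[(14,0)]⟩,⟨0,[(13,0)]⟩) .k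
  1 (⟨0,[]⟩,⟨0,[]⟩) .k .k) (.I [0,0,-2,-1,1,0,0,0,-1] (.R ⟨0,false,false,true,[1,0,0,-1],[0,1],[0,1,
  0,0,0,0,0,0,-1],(⟨0,[(15,0)]⟩,⟨0,[(16,0)]⟩),(⟨0,[(28,0)]⟩,⟨0,[(27,0)]⟩),⟨0,[(1,0)]⟩,.k,.k,(.x
  (-1) ⟨3,[(13,0),(0,0),(11,1),(0,3)]⟩ ⟨0,[(28,0)]⟩),(.x (-1) ⟨3,[(13,0),(0,0),(11,1),(0,3)]⟩ ⟨0,
  [(28,0)]⟩),.k,.k,⟨false,1,⟨0,[(0,0)]⟩,⟨0,[(3,0),(12,0),(14,0)]⟩⟩,⟨true,0,⟨0,[(15,0)]⟩,⟨0,[(9,0),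
  (6,0),(1,0)]⟩⟩,⟨true,0,⟨0,[(36,0)]⟩,⟨0,[]⟩⟩,⟨false,0,⟨0,[(3,0),(4,0),(11,0)]⟩,⟨0,[(2,0),(1,0)]⟩⟩,
  ⟨false,0,⟨0,[]⟩,⟨0,[]⟩⟩,⟨false,0,⟨0,[]⟩,⟨0,[]⟩⟩,[.o ⟨false,0,⟨0,[(31,0)]⟩,⟨0,[(6,0),(27,0)]⟩⟩,.o
  ⟨false,1,⟨3,[(13,0),(0,0),(16,3),(2,1)]⟩,⟨0,[(4,0)]⟩⟩,.o ⟨false,1,⟨1,[(16,1),(9,0),(6,0)]⟩,⟨0,[(9,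
  0),(5,0),(2,0)]⟩⟩,.a ⟨true,0,⟨0,[(16,0)]⟩,⟨0,[(15,0)]⟩⟩ ⟨false,1,⟨1,[(13,0),(19,0)]⟩,⟨0,[(3,0),
  (12,0)]⟩⟩ ⟨true,0,⟨0,[(15,0),(15,0)]⟩,⟨0,[(4,0),(11,0)]⟩⟩]⟩) (.I [0,0,-1,0,1,0,0,1,-1] (.R ⟨0,
  false,false,true,[1,0,0,-1],[1,0,-1],[0,1,0,0,0,0,0,0,-1],(⟨0,[(16,0)]⟩,⟨0,[(17,0)]⟩),(⟨0,[(25,
  0)]⟩,⟨0,[(26,0)]⟩),⟨0,[(2,0)]⟩,.k,.k,(.x (-1) ⟨3,[(14,0),(0,0),(11,1),(0,3)]⟩ ⟨0,[(29,0)]⟩),.k,.k,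
  .k,⟨false,1,⟨0,[(0,0)]⟩,⟨0,[(1,0),(22,0),(8,0),(0,0)]⟩⟩,⟨true,0,⟨0,[(16,0),(2,0)]⟩,⟨0,[(10,0),(6,
  0)]⟩⟩,⟨true,0,⟨0,[(37,0)]⟩,⟨0,[]⟩⟩,⟨false,0,⟨0,[(4,0),(16,0)]⟩,⟨2,[(3,2),(1,1),(2,0),(4,0)]⟩⟩,
  ⟨false,0,⟨0,[]⟩,⟨0,[]⟩⟩,⟨false,0,⟨0,[]⟩,⟨0,[]⟩⟩,[.o ⟨false,0,⟨0,[(18,0)]⟩,⟨7,[(13,3),(0,0),(0,0),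
  (11,1),(7,3)]⟩⟩,.o ⟨false,1,⟨1,[(21,1),(5,0),(7,0)]⟩,⟨2,[(5,1),(2,0),(4,0)]⟩⟩,.o ⟨false,1,⟨1,[(17,
  1),(9,0),(6,0)]⟩,⟨3,[(1,1),(3,1),(8,0),(1,3),(10,0)]⟩⟩,.a ⟨true,0,⟨0,[(17,0)]⟩,⟨0,[(16,0)]⟩⟩
  ⟨false,1,⟨1,[(14,0),(19,0)]⟩,⟨0,[(4,0),(12,0)]⟩⟩ ⟨true,0,⟨0,[(16,0),(1,0)]⟩,⟨2,[(5,1),(2,0),(4,0),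
  (3,2)]⟩⟩]⟩) (.R ⟨0,false,false,false,[1,0,0,-1],[0,1,1],[0,0,0,-1,0,0,0,0,-1],(⟨0,[(16,0)]⟩,⟨0,
  [(17,0)]⟩),(⟨0,[(26,0),(2,0)]⟩,⟨0,[(11,0)]⟩),⟨0,[(2,0)]⟩,.k,.k,(.x (-1) ⟨3,[(14,0),(0,0),(11,1),
  (0,3)]⟩ ⟨0,[(29,0)]⟩),(.r (-1) ⟨1,[(14,0),(9,1),(8,1),(0,0)]⟩ ⟨1,[(1,1),(11,0),(5,0),(3,0),(10,
  1)]⟩),.k,.k,⟨false,1,⟨0,[(0,0),(2,1),(1,1),(10,1),(13,0)]⟩,⟨0,[(1,0),(10,0),(21,0)]⟩⟩,⟨true,0,⟨0,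
  [(10,0),(5,0)]⟩,⟨0,[(17,0),(1,0)]⟩⟩,⟨true,0,⟨0,[(33,0)]⟩,⟨0,[(32,0)]⟩⟩,⟨false,0,⟨0,[(4,0),(4,0)]⟩,
  ⟨0,[(3,0),(1,0),(15,0)]⟩⟩,⟨false,0,⟨0,[]⟩,⟨0,[]⟩⟩,⟨false,0,⟨0,[]⟩,⟨0,[]⟩⟩,[.o ⟨false,0,⟨0,[(5,0),
  (2,0)]⟩,⟨0,[(7,0),(13,0),(13,0)]⟩⟩,.o ⟨false,1,⟨15,[(8,7),(4,3),(0,0),(0,0),(11,5),(7,7)]⟩,⟨0,[(5,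
  0),(15,0)]⟩⟩,.o ⟨false,1,⟨1,[(17,1),(9,0),(6,0)]⟩,⟨3,[(1,1),(3,1),(8,0),(1,3),(10,0)]⟩⟩,.a ⟨true,
  0,⟨0,[(17,0)]⟩,⟨0,[(16,0)]⟩⟩ ⟨false,1,⟨0,[(3,0),(1,0),(10,0)]⟩,⟨3,[(1,1),(13,0),(16,1),(2,0)]⟩⟩
  ⟨true,0,⟨0,[(5,0),(2,0),(7,0)]⟩,⟨0,[(5,0),(11,0),(3,0)]⟩⟩]⟩))) (.Q [0,1,-1,0,0,0,1,1,-1,0,-1,1]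
  (.p false [0,0,1] [0,0,0,1] (⟨0,[(24,0)]⟩,⟨0,[(23,0)]⟩) .k 2 (⟨0,[(15,0)]⟩,⟨0,[(14,0)]⟩) .k (.x
  (-1) ⟨0,[(20,0),(3,0),(7,0)]⟩ ⟨0,[(17,0),(5,0)]⟩)) (.I [0,0,-2,-2,1,0,0,0,-1] (.I [1,0,-2,-1,1,0,
  0,0,-1] (.R ⟨1,false,false,true,[1,0,0,-1],[0,1],[1,1,0,0,0,0,0,0,-1],(⟨0,[(17,0)]⟩,⟨0,[(18,0)]⟩),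
  (⟨0,[(30,0)]⟩,⟨0,[(29,0)]⟩),⟨0,[(3,0)]⟩,.k,.k,(.x (-1) ⟨3,[(15,0),(0,0),(11,1),(0,3)]⟩ ⟨0,[(30,
  0)]⟩),(.x (-1) ⟨3,[(15,0),(0,0),(11,1),(0,3)]⟩ ⟨0,[(30,0)]⟩),(.r (-1) ⟨0,[(1,0)]⟩ ⟨0,[(5,0),(12,
  0),(13,0),(0,1)]⟩),.k,⟨false,1,⟨0,[(0,0)]⟩,⟨0,[(5,0),(12,0),(14,0)]⟩⟩,⟨true,0,⟨0,[(17,0)]⟩,⟨0,
  [(11,0),(6,0),(1,0)]⟩⟩,⟨false,0,⟨0,[]⟩,⟨3,[(15,0),(0,0),(19,1)]⟩⟩,⟨false,0,⟨0,[(5,0),(4,0),(11,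
  0)]⟩,⟨0,[(4,0),(1,0)]⟩⟩,⟨true,0,⟨0,[(33,0)]⟩,⟨0,[(34,0)]⟩⟩,⟨false,0,⟨0,[(5,0),(3,0),(12,0)]⟩,⟨1,
  [(1,0),(2,0),(1,1),(11,0),(13,0)]⟩⟩,[.o ⟨false,0,⟨0,[(33,0)]⟩,⟨0,[(8,0),(27,0)]⟩⟩,.o ⟨false,1,⟨3,
  [(15,0),(0,0),(16,3),(2,1)]⟩,⟨0,[(6,0)]⟩⟩,.o ⟨false,1,⟨1,[(18,1),(9,0),(6,0)]⟩,⟨1,[(3,1),(3,0),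
  (12,0),(2,0)]⟩⟩,.a ⟨true,0,⟨0,[(18,0)]⟩,⟨0,[(17,0)]⟩⟩ ⟨false,1,⟨1,[(15,0),(19,0)]⟩,⟨0,[(5,0),(12,
  0)]⟩⟩ ⟨true,0,⟨0,[(17,0),(15,0)]⟩,⟨0,[(6,0),(11,0)]⟩⟩]⟩) (.R ⟨1,false,false,true,[1,0,0,-1],[0,1],
  [0,1,0,-1,0,0,0,0,-1],(⟨0,[(17,0)]⟩,⟨0,[(18,0)]⟩),(⟨0,[(30,0)]⟩,⟨0,[(29,0)]⟩),⟨0,[(3,0)]⟩,.k,.k,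
  (.x (-1) ⟨3,[(15,0),(0,0),(11,1),(0,3)]⟩ ⟨0,[(30,0)]⟩),(.x (-1) ⟨3,[(15,0),(0,0),(11,1),(0,3)]⟩
  ⟨0,[(30,0)]⟩),(.r (-1) ⟨0,[(1,0)]⟩ ⟨3,[(0,3),(14,0),(0,0),(16,3),(2,1)]⟩),.k,⟨false,1,⟨0,[(1,0)]⟩,
  ⟨5,[(0,3),(8,3),(6,0),(2,3),(15,0),(0,1)]⟩⟩,⟨true,0,⟨0,[(17,0)]⟩,⟨3,[(0,1),(5,1),(8,0),(2,3),(9,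
  0)]⟩⟩,⟨false,0,⟨0,[(34,0)]⟩,⟨0,[(33,0),(2,0)]⟩⟩,⟨false,0,⟨11,[(0,3),(4,3),(3,3),(5,0),(0,2),(0,7),
  (4,3)]⟩,⟨0,[(4,0),(1,0)]⟩⟩,⟨true,0,⟨0,[(38,0)]⟩,⟨0,[]⟩⟩,⟨false,0,⟨0,[(5,0),(3,0),(12,0)]⟩,⟨1,[(1,
  0),(2,0),(1,1),(11,0),(13,0)]⟩⟩,[.o ⟨false,0,⟨0,[(33,0)]⟩,⟨0,[(8,0),(27,0)]⟩⟩,.o ⟨false,1,⟨3,[(15,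
  0),(0,0),(16,3),(2,1)]⟩,⟨0,[(6,0)]⟩⟩,.o ⟨false,1,⟨1,[(18,1),(9,0),(6,0)]⟩,⟨2,[(0,0),(2,1),(1,0),
  (1,0),(0,0),(6,0)]⟩⟩,.a ⟨true,0,⟨0,[(18,0)]⟩,⟨0,[(17,0)]⟩⟩ ⟨false,1,⟨7,[(1,3),(13,2),(0,0)]⟩,⟨1,
  [(0,1),(34,0),(0,0)]⟩⟩ ⟨true,0,⟨0,[(17,0),(15,0)]⟩,⟨0,[(6,0),(11,0)]⟩⟩]⟩)) (.R ⟨1,false,false,
  false,[1,0,0,-1],[1,-1],[0,0,0,-1,0,0,0,0,-1],(⟨0,[(16,0)]⟩,⟨0,[(17,0)]⟩),(⟨0,[(28,0)]⟩,⟨0,[(29,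
  0)]⟩),⟨0,[(2,0)]⟩,.k,.k,(.x (-1) ⟨3,[(14,0),(0,0),(11,1),(0,3)]⟩ ⟨0,[(29,0)]⟩),(.r 0 ⟨1,[(0,0),(0,
  1),(0,1),(0,0),(2,0),(9,0),(1,1),(12,2)]⟩ ⟨1,[(15,0),(17,1),(0,0)]⟩),.k,.k,⟨true,0,⟨0,[(1,0),(14,
  0),(1,0),(12,1)]⟩,⟨0,[(0,0),(32,1),(0,0)]⟩⟩,⟨false,0,⟨2,[(0,0),(3,0),(0,0),(1,0),(6,0),(1,1)]⟩,⟨0,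
  [(17,0),(16,0)]⟩⟩,⟨true,0,⟨0,[(33,0)]⟩,⟨0,[(32,0)]⟩⟩,⟨false,0,⟨0,[(4,0),(28,0)]⟩,⟨0,[(3,0),(28,
  0)]⟩⟩,⟨false,1,⟨3,[(14,0),(0,0),(19,1)]⟩,⟨0,[]⟩⟩,⟨false,0,⟨0,[(4,0)]⟩,⟨11,[(3,7),(10,2),(0,0),(1,
  3),(12,3)]⟩⟩,[.o ⟨false,0,⟨0,[(5,0)]⟩,⟨3,[(14,0),(0,0),(16,3),(2,1)]⟩⟩,.o ⟨false,1,⟨0,[(7,0),(27,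
  0)]⟩,⟨0,[(32,0)]⟩⟩,.o ⟨false,1,⟨1,[(17,1),(9,0),(6,0)]⟩,⟨2,[(0,0),(3,0),(0,0),(1,0),(6,0),(1,
  1)]⟩⟩,.a ⟨true,0,⟨0,[(17,0)]⟩,⟨0,[(16,0)]⟩⟩ ⟨false,1,⟨0,[(3,0),(1,0),(10,0)]⟩,⟨7,[(0,3),(13,0),(0,
  2)]⟩⟩ ⟨true,0,⟨0,[(5,0),(10,0)]⟩,⟨0,[(17,0),(14,0)]⟩⟩]⟩)) (.Q [0,1,1,1,-1,0,1,1,1,1,-1,-1] (.p
  false [0,0,1] [1,0,0,-1] (⟨0,[(25,0)]⟩,⟨0,[(24,0)]⟩) .k 2 (⟨0,[(15,0)]⟩,⟨0,[(16,0)]⟩) .k (.x 0 ⟨0,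
  [(21,0),(3,0)]⟩ ⟨0,[(18,0),(5,0),(8,0)]⟩)) (.I [0,1,0,0,0,0,0,1] (.I [1,0,-1,0,1,0,0,1,-1] (.R ⟨1,
  false,false,true,[1,0,0,-1],[1,0,-1],[1,1,0,0,0,0,0,0,-1],(⟨0,[(18,0)]⟩,⟨0,[(19,0)]⟩),(⟨0,[(27,
  0)]⟩,⟨0,[(28,0)]⟩),⟨0,[(4,0)]⟩,.k,.k,(.x (-1) ⟨3,[(16,0),(0,0),(11,1),(0,3)]⟩ ⟨0,[(31,0)]⟩),.k,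
  (.r (-1) ⟨0,[(0,0),(34,0)]⟩ ⟨10,[(2,2),(0,5),(6,3),(6,0),(1,8),(0,2),(3,1),(1,8),(2,1)]⟩),.k,
  ⟨false,1,⟨0,[(0,0)]⟩,⟨1,[(2,0),(0,0),(3,0),(11,1),(6,1),(9,0)]⟩⟩,⟨true,0,⟨0,[(18,0),(2,0)]⟩,⟨0,
  [(12,0),(6,0)]⟩⟩,⟨false,0,⟨0,[]⟩,⟨3,[(16,0),(0,0),(19,1)]⟩⟩,⟨false,0,⟨9,[(2,1),(0,7),(5,1),(6,0),
  (0,0),(5,3)]⟩,⟨2,[(5,2),(1,1),(2,0),(4,0)]⟩⟩,⟨true,0,⟨0,[(34,0)]⟩,⟨0,[(35,0)]⟩⟩,⟨false,0,⟨0,[(3,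
  0),(30,0)]⟩,⟨1,[(5,1),(1,0),(7,0),(19,0)]⟩⟩,[.o ⟨false,0,⟨0,[(20,0)]⟩,⟨7,[(15,3),(0,0),(0,0),(11,
  1),(7,3)]⟩⟩,.o ⟨false,1,⟨1,[(23,1),(5,0),(7,0)]⟩,⟨2,[(7,1),(2,0),(4,0)]⟩⟩,.o ⟨false,1,⟨1,[(19,1),
  (9,0),(6,0)]⟩,⟨1,[(2,0),(0,0),(3,0),(8,0)]⟩⟩,.a ⟨true,0,⟨0,[(19,0)]⟩,⟨0,[(18,0)]⟩⟩ ⟨false,1,⟨1,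
  [(16,0),(19,0)]⟩,⟨0,[(6,0),(12,0)]⟩⟩ ⟨true,0,⟨0,[(18,0),(1,0)]⟩,⟨2,[(7,1),(2,0),(4,0),(3,2)]⟩⟩]⟩)
  (.R ⟨1,false,false,true,[1,0,0,-1],[1,0,-1],[0,1,0,-1,0,0,0,0,-1],(⟨0,[(18,0)]⟩,⟨0,[(19,0)]⟩),(⟨0,
  [(27,0)]⟩,⟨0,[(28,0)]⟩),⟨0,[(4,0)]⟩,.k,.k,(.x (-1) ⟨3,[(16,0),(0,0),(11,1),(0,3)]⟩ ⟨0,[(31,0)]⟩),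
  .k,(.r (-1) ⟨0,[(1,0),(3,0),(1,0),(10,0)]⟩ ⟨7,[(0,5),(16,0),(5,1),(0,1),(9,7),(2,4)]⟩),.k,⟨false,
  1,⟨0,[(1,0),(3,0),(1,0),(10,0)]⟩,⟨7,[(0,5),(9,3),(6,0),(2,3),(5,1),(9,2),(0,1)]⟩⟩,⟨true,0,⟨0,[(18,
  0),(2,0)]⟩,⟨0,[(12,0),(6,0)]⟩⟩,⟨false,0,⟨0,[(35,0)]⟩,⟨0,[(34,0),(2,0)]⟩⟩,⟨false,0,⟨9,[(2,1),(0,7),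
  (5,1),(6,0),(0,0),(5,3)]⟩,⟨2,[(5,2),(1,1),(2,0),(4,0)]⟩⟩,⟨true,0,⟨0,[(39,0)]⟩,⟨0,[]⟩⟩,⟨false,0,⟨0,
  [(3,0),(30,0)]⟩,⟨1,[(5,1),(1,0),(7,0),(19,0)]⟩⟩,[.o ⟨false,0,⟨0,[(20,0)]⟩,⟨7,[(15,3),(0,0),(0,0),
  (11,1),(7,3)]⟩⟩,.o ⟨false,1,⟨1,[(23,1),(5,0),(7,0)]⟩,⟨2,[(7,1),(2,0),(4,0)]⟩⟩,.o ⟨false,1,⟨1,[(19,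
  1),(9,0),(6,0)]⟩,⟨1,[(2,0),(0,0),(3,0),(8,0)]⟩⟩,.a ⟨true,0,⟨0,[(19,0)]⟩,⟨0,[(18,0)]⟩⟩ ⟨false,1,⟨1,
  [(16,0),(18,1),(0,0)]⟩,⟨1,[(0,1),(13,1),(21,0),(0,0)]⟩⟩ ⟨true,0,⟨0,[(18,0),(1,0)]⟩,⟨2,[(7,1),(2,
  0),(4,0),(3,2)]⟩⟩]⟩)) (.R ⟨1,false,false,false,[1,0,0,-1],[0,1,1],[0,0,0,-1,0,0,0,0,-1],(⟨0,[(17,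
  0)]⟩,⟨0,[(18,0)]⟩),(⟨0,[(27,0),(2,0)]⟩,⟨0,[(12,0)]⟩),⟨0,[(3,0)]⟩,.k,.k,(.x (-1) ⟨3,[(15,0),(0,0),
  (11,1),(0,3)]⟩ ⟨0,[(30,0)]⟩),(.r (-1) ⟨1,[(15,0),(9,1),(8,1),(0,0)]⟩ ⟨1,[(1,0),(3,0),(7,0),(4,1),
  (1,0),(14,0)]⟩),(.r (-1) ⟨0,[(0,0),(3,0),(1,0),(10,0),(13,0),(2,0)]⟩ ⟨9,[(1,2),(0,4),(6,2),(3,10),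
  (2,0),(1,7),(0,1),(3,0),(4,1)]⟩),.k,⟨false,1,⟨0,[(0,0),(3,0),(1,0),(10,0),(13,0),(2,0)]⟩,⟨1,[(1,
  0),(0,0),(3,0),(2,1),(8,1),(1,1),(14,0)]⟩⟩,⟨true,0,⟨0,[(11,0),(5,0)]⟩,⟨0,[(18,0),(1,0)]⟩⟩,⟨true,0,
  ⟨0,[(34,0)]⟩,⟨0,[(33,0)]⟩⟩,⟨false,0,⟨0,[(1,0),(34,0)]⟩,⟨0,[(4,0),(1,0),(15,0)]⟩⟩,⟨false,1,⟨3,[(15,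
  0),(0,0),(19,1)]⟩,⟨0,[]⟩⟩,⟨false,0,⟨0,[(5,0),(3,0)]⟩,⟨0,[(4,0),(1,0),(15,0),(11,0)]⟩⟩,[.o ⟨false,
  0,⟨0,[(6,0),(2,0)]⟩,⟨0,[(8,0),(13,0),(13,0)]⟩⟩,.o ⟨false,1,⟨15,[(9,7),(4,3),(0,0),(0,0),(11,5),(7,
  7)]⟩,⟨0,[(6,0),(15,0)]⟩⟩,.o ⟨false,1,⟨1,[(18,1),(9,0),(6,0)]⟩,⟨1,[(1,0),(0,0),(3,0),(8,0)]⟩⟩,.a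
  ⟨true,0,⟨0,[(18,0)]⟩,⟨0,[(17,0)]⟩⟩ ⟨false,1,⟨0,[(4,0),(1,0),(10,0)]⟩,⟨9,[(1,2),(0,4),(6,2),(3,0),
  (2,0),(1,7),(0,1),(3,0),(4,1)]⟩⟩ ⟨true,0,⟨5,[(3,5),(2,1),(0,2),(1,3),(4,0)]⟩,⟨0,[(6,0),(11,0),(3,
  0)]⟩⟩]⟩)) (.I [0,0,-2,-2,1,0,0,0,-1] (.R ⟨1,false,false,true,[1,0,0,-1],[0,1],[0,1,0,-1,0,0,0,0,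
  -1],(⟨0,[(17,0)]⟩,⟨0,[(18,0)]⟩),(⟨0,[(30,0)]⟩,⟨0,[(29,0)]⟩),⟨0,[(3,0)]⟩,.k,.k,(.x (-1) ⟨3,[(15,0),
  (0,0),(11,1),(0,3)]⟩ ⟨0,[(30,0)]⟩),(.x (-1) ⟨3,[(15,0),(0,0),(11,1),(0,3)]⟩ ⟨0,[(30,0)]⟩),(.r
  (-1) ⟨0,[(0,0)]⟩ ⟨1,[(2,0),(2,0),(3,0),(3,0),(4,1),(0,0),(3,0),(9,0)]⟩),.k,⟨false,1,⟨0,[(0,0)]⟩,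
  ⟨0,[(5,0),(3,0),(8,0),(0,0)]⟩⟩,⟨true,0,⟨0,[(17,0)]⟩,⟨0,[(11,0),(6,0),(1,0)]⟩⟩,⟨false,0,⟨0,[(34,
  0)]⟩,⟨0,[(33,0),(2,0)]⟩⟩,⟨false,0,⟨1,[(2,1),(6,0),(4,0),(7,0),(15,0)]⟩,⟨0,[(4,0),(1,0)]⟩⟩,⟨true,0,
  ⟨0,[(38,0)]⟩,⟨0,[]⟩⟩,⟨false,0,⟨0,[(2,0),(6,0),(28,0)]⟩,⟨1,[(1,1),(4,0),(7,0),(19,0)]⟩⟩,[.o ⟨false,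
  0,⟨0,[(33,0)]⟩,⟨0,[(8,0),(27,0)]⟩⟩,.o ⟨false,1,⟨3,[(15,0),(0,0),(16,3),(2,1)]⟩,⟨0,[(6,0)]⟩⟩,.o
  ⟨false,1,⟨1,[(18,1),(9,0),(6,0)]⟩,⟨1,[(3,1),(3,0),(12,0),(2,0)]⟩⟩,.a ⟨true,0,⟨0,[(18,0)]⟩,⟨0,[(17,
  0)]⟩⟩ ⟨false,1,⟨7,[(0,3),(14,2),(0,0)]⟩,⟨0,[(2,0),(3,0),(2,0),(8,0)]⟩⟩ ⟨true,0,⟨0,[(17,0),(15,
  0)]⟩,⟨0,[(6,0),(11,0)]⟩⟩]⟩) (.I [0,-1,0,-1,0,0,0,0,1] (.I [0,1,1,0,0,0,0,0,-1] (.I [0,1,1,2,0,0,0,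
  0,-1] (.R ⟨1,false,false,false,[1,0,0,-1],[1,-1],[1,1,0,0,0,0,0,0,-1],(⟨0,[(20,0)]⟩,⟨0,[(21,0)]⟩),
  (⟨0,[(32,0)]⟩,⟨0,[(33,0)]⟩),⟨0,[(6,0)]⟩,.k,.k,(.x (-1) ⟨3,[(18,0),(0,0),(11,1),(0,3)]⟩ ⟨0,[(33,
  0)]⟩),(.x (-1) ⟨0,[(33,0),(4,0)]⟩ ⟨0,[(23,0),(2,0),(5,0)]⟩),.k,.k,⟨true,0,⟨1,[(0,0),(0,0)]⟩,⟨0,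
  [(2,0)]⟩⟩,⟨false,0,⟨7,[(0,0),(0,2),(4,3),(1,3),(0,1),(0,1)]⟩,⟨0,[(21,0),(16,0)]⟩⟩,⟨false,0,⟨0,[]⟩,
  ⟨3,[(18,0),(0,0),(19,1)]⟩⟩,⟨false,0,⟨0,[(8,0),(28,0)]⟩,⟨0,[(7,0),(28,0)]⟩⟩,⟨true,0,⟨0,[(36,0)]⟩,
  ⟨0,[(37,0)]⟩⟩,⟨false,0,⟨0,[(8,0)]⟩,⟨11,[(1,2),(5,10),(11,0),(1,0),(12,3)]⟩⟩,[.o ⟨false,0,⟨0,[(9,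
  0)]⟩,⟨7,[(0,3),(17,0),(0,2),(18,1),(0,1)]⟩⟩,.o ⟨false,1,⟨0,[(11,0),(27,0)]⟩,⟨0,[(36,0)]⟩⟩,.o
  ⟨false,1,⟨1,[(21,1),(9,0),(6,0)]⟩,⟨7,[(0,0),(0,2),(4,3),(1,3),(0,1),(0,1)]⟩⟩,.a ⟨true,0,⟨0,[(21,
  0)]⟩,⟨0,[(20,0)]⟩⟩ ⟨false,1,⟨1,[(18,0),(19,0)]⟩,⟨4,[(2,1),(0,0),(15,0),(15,2)]⟩⟩ ⟨true,0,⟨0,[(9,
  0),(10,0)]⟩,⟨0,[(21,0),(14,0)]⟩⟩]⟩) (.R ⟨1,false,false,false,[1,0,0,-1],[1,-1],[0,1,0,-1,0,0,0,0,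
  -1],(⟨0,[(20,0)]⟩,⟨0,[(21,0)]⟩),(⟨0,[(32,0)]⟩,⟨0,[(33,0)]⟩),⟨0,[(6,0)]⟩,.k,.k,(.x (-1) ⟨3,[(18,0),
  (0,0),(11,1),(0,3)]⟩ ⟨0,[(33,0)]⟩),(.r (-1) ⟨7,[(3,3),(14,8),(0,2)]⟩ ⟨27,[(0,19),(2,5),(15,0),(14,
  9),(3,4)]⟩),.k,.k,⟨true,0,⟨0,[(1,0)]⟩,⟨3,[(0,1),(2,1),(34,0),(0,0)]⟩⟩,⟨false,0,⟨19,[(1,7),(1,1),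
  (2,11),(1,7),(0,3),(0,5),(7,0),(12,0)]⟩,⟨0,[(21,0),(16,0)]⟩⟩,⟨false,0,⟨0,[(37,0)]⟩,⟨0,[(36,0),(2,
  0)]⟩⟩,⟨false,0,⟨1,[(0,0),(0,0),(6,1)]⟩,⟨0,[(7,0),(28,0)]⟩⟩,⟨true,0,⟨12,[(0,0),(0,3),(1,0),(15,0),
  (14,4)]⟩,⟨0,[]⟩⟩,⟨false,0,⟨0,[(8,0)]⟩,⟨11,[(1,2),(5,10),(11,0),(1,0),(12,3)]⟩⟩,[.o ⟨false,0,⟨0,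
  [(9,0)]⟩,⟨3,[(18,0),(0,0),(16,3),(2,1)]⟩⟩,.o ⟨false,1,⟨0,[(11,0),(27,0)]⟩,⟨0,[(36,0)]⟩⟩,.o ⟨false,
  1,⟨1,[(21,1),(9,0),(6,0)]⟩,⟨19,[(1,7),(1,1),(2,11),(1,7),(0,3),(0,5),(7,0),(12,0)]⟩⟩,.a ⟨true,0,
  ⟨0,[(21,0)]⟩,⟨0,[(20,0)]⟩⟩ ⟨false,1,⟨15,[(0,7),(17,12),(0,0),(14,3),(3,1)]⟩,⟨15,[(0,1),(2,9),(15,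
  1),(18,0),(0,6)]⟩⟩ ⟨true,0,⟨0,[(9,0),(10,0)]⟩,⟨0,[(21,0),(14,0)]⟩⟩]⟩)) (.I [1,1,1,1,-1,0,0,-1,1]
  (.I [0,0,-2,-2,1,0,0,-1,-1] (.R ⟨1,false,false,false,[1,0,0,-1],[0,1,1],[0,0,0,-1,0,0,0,0,-1],(⟨0,
  [(21,0)]⟩,⟨0,[(22,0)]⟩),(⟨0,[(31,0),(2,0)]⟩,⟨0,[(16,0)]⟩),⟨0,[(7,0)]⟩,.k,.k,(.x (-1) ⟨3,[(19,0),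
  (0,0),(11,1),(0,3)]⟩ ⟨0,[(34,0)]⟩),(.r (-1) ⟨7,[(0,3),(18,2),(0,0),(8,3)]⟩ ⟨16,[(2,1),(0,5),(0,2),
  (12,16),(2,2),(14,3)]⟩),(.r (-1) ⟨0,[(0,0)]⟩ ⟨7,[(4,3),(12,7),(1,0),(0,2)]⟩),.k,⟨false,1,⟨0,[(0,
  0)]⟩,⟨5,[(2,1),(1,1),(12,5),(2,0),(16,1),(1,0)]⟩⟩,⟨true,0,⟨0,[(15,0),(5,0)]⟩,⟨0,[(22,0),(1,0)]⟩⟩,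
  ⟨true,0,⟨0,[(38,0)]⟩,⟨0,[(37,0)]⟩⟩,⟨false,0,⟨1,[(6,0),(2,0),(3,0),(4,0)]⟩,⟨19,[(5,15),(6,3),(6,2),
  (0,0),(1,3),(3,3),(8,3)]⟩⟩,⟨false,1,⟨3,[(19,0),(0,0),(19,1)]⟩,⟨0,[]⟩⟩,⟨false,0,⟨0,[(9,0),(3,0)]⟩,
  ⟨1,[(0,0),(4,0),(6,0),(9,0),(5,0)]⟩⟩,[.o ⟨false,0,⟨0,[(10,0),(2,0)]⟩,⟨9,[(5,3),(0,3),(5,5),(6,2),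
  (0,2),(5,1)]⟩⟩,.o ⟨false,1,⟨15,[(13,7),(4,3),(0,0),(0,0),(11,5),(7,7)]⟩,⟨0,[(10,0),(15,0)]⟩⟩,.o
  ⟨false,1,⟨1,[(22,1),(9,0),(6,0)]⟩,⟨1,[(7,1),(3,0),(12,0),(2,0)]⟩⟩,.a ⟨true,0,⟨0,[(22,0)]⟩,⟨0,[(21,
  0)]⟩⟩ ⟨false,1,⟨2,[(2,0),(2,1),(4,0),(7,0),(0,0),(1,1)]⟩,⟨7,[(4,3),(14,0),(0,2)]⟩⟩ ⟨true,0,⟨5,[(7,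
  5),(2,1),(0,2),(1,3),(4,0)]⟩,⟨0,[(10,0),(11,0),(3,0)]⟩⟩]⟩) (.R ⟨1,false,false,false,[1,0,0,-1],[0,
  1,1],[1,1,0,0,0,0,0,0,-1],(⟨0,[(21,0)]⟩,⟨0,[(22,0)]⟩),(⟨0,[(31,0),(2,0)]⟩,⟨0,[(16,0)]⟩),⟨0,[(7,
  0)]⟩,.k,.k,(.x (-1) ⟨3,[(19,0),(0,0),(11,1),(0,3)]⟩ ⟨0,[(34,0)]⟩),(.r (-1) ⟨1,[(19,0),(9,1),(8,1),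
  (0,0)]⟩ ⟨12,[(0,2),(1,0),(0,2),(13,9),(2,2),(14,1)]⟩),(.x 0 ⟨0,[(0,0),(4,0),(1,0),(4,0),(3,0)]⟩
  ⟨0,[(27,0),(3,0),(2,1),(4,0)]⟩),.k,⟨false,1,⟨0,[(5,0),(9,0),(5,0),(13,0)]⟩,⟨13,[(0,3),(1,3),(0,3),
  (13,9),(2,0),(19,2)]⟩⟩,⟨true,0,⟨0,[(15,0),(5,0)]⟩,⟨0,[(22,0),(1,0)]⟩⟩,⟨false,0,⟨0,[]⟩,⟨3,[(19,0),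
  (0,0),(19,1)]⟩⟩,⟨false,0,⟨1,[(6,0),(2,0),(3,0),(4,0)]⟩,⟨19,[(5,15),(6,3),(6,2),(0,0),(1,3),(3,3),
  (8,3)]⟩⟩,⟨true,0,⟨0,[(37,0)]⟩,⟨0,[(38,0)]⟩⟩,⟨false,0,⟨0,[(9,0),(3,0)]⟩,⟨19,[(5,15),(6,3),(6,2),(0,
  0),(1,3),(3,3),(8,3),(2,19)]⟩⟩,[.o ⟨false,0,⟨0,[(10,0),(2,0)]⟩,⟨9,[(5,3),(0,3),(5,5),(6,2),(0,2),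
  (5,1)]⟩⟩,.o ⟨false,1,⟨15,[(13,7),(4,3),(0,0),(0,0),(11,5),(7,7)]⟩,⟨0,[(10,0),(15,0)]⟩⟩,.o ⟨false,
  1,⟨1,[(22,1),(9,0),(6,0)]⟩,⟨1,[(7,1),(3,0),(12,0),(2,0)]⟩⟩,.a ⟨true,0,⟨0,[(22,0)]⟩,⟨0,[(21,0)]⟩⟩
  ⟨false,1,⟨1,[(19,0),(19,0)]⟩,⟨4,[(3,1),(0,0),(15,0),(15,2)]⟩⟩ ⟨true,0,⟨5,[(7,5),(2,1),(0,2),(1,3),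
  (4,0)]⟩,⟨0,[(10,0),(11,0),(3,0)]⟩⟩]⟩)) (.R ⟨1,false,false,true,[1,0,0,-1],[1,0,-1],[0,0,0,-1,0,0,
  0,0,-1],(⟨0,[(20,0)]⟩,⟨0,[(21,0)]⟩),(⟨0,[(29,0)]⟩,⟨0,[(30,0)]⟩),⟨0,[(6,0)]⟩,.k,.k,(.x (-1) ⟨3,
  [(18,0),(0,0),(11,1),(0,3)]⟩ ⟨0,[(33,0)]⟩),.k,(.r (-1) ⟨21,[(0,17),(10,1),(5,1),(0,2),(0,0),(7,3),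
  (6,7),(2,1)]⟩ ⟨7,[(3,3),(14,0),(0,2),(8,7)]⟩),.k,⟨false,1,⟨0,[(0,0)]⟩,⟨10,[(1,1),(1,2),(15,2),(8,
  10),(5,3),(1,4)]⟩⟩,⟨true,0,⟨0,[(20,0),(2,0)]⟩,⟨0,[(14,0),(6,0)]⟩⟩,⟨true,0,⟨0,[(37,0)]⟩,⟨0,[(36,
  0)]⟩⟩,⟨false,0,⟨0,[(5,0),(35,0)]⟩,⟨2,[(7,2),(1,1),(2,0),(4,0)]⟩⟩,⟨false,1,⟨3,[(18,0),(0,0),(19,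
  1)]⟩,⟨0,[]⟩⟩,⟨false,0,⟨0,[(5,0),(30,0)]⟩,⟨0,[(4,0),(12,0)]⟩⟩,[.o ⟨false,0,⟨0,[(22,0)]⟩,⟨7,[(17,3),
  (0,0),(0,0),(11,1),(7,3)]⟩⟩,.o ⟨false,1,⟨5,[(4,1),(0,1),(12,0),(0,0),(5,1),(5,1),(4,1)]⟩,⟨2,[(9,
  1),(2,0),(4,0)]⟩⟩,.o ⟨false,1,⟨1,[(21,1),(9,0),(6,0)]⟩,⟨1,[(6,1),(3,0),(12,0),(2,0)]⟩⟩,.a ⟨true,0,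
  ⟨0,[(21,0)]⟩,⟨0,[(20,0)]⟩⟩ ⟨false,1,⟨1,[(0,0),(3,0),(9,0),(5,0)]⟩,⟨7,[(3,3),(14,0),(0,2)]⟩⟩ ⟨true,
  0,⟨0,[(20,0),(1,0)]⟩,⟨2,[(9,1),(2,0),(4,0),(3,2)]⟩⟩]⟩))) (.R ⟨1,false,false,false,[1,0,0,-1],[1,
  -1],[1,0,0,0,0,0,0,0,-1],(⟨0,[(18,0)]⟩,⟨0,[(19,0)]⟩),(⟨0,[(30,0)]⟩,⟨0,[(31,0)]⟩),⟨0,[(4,0)]⟩,.k,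
  .k,(.x (-1) ⟨3,[(16,0),(0,0),(11,1),(0,3)]⟩ ⟨0,[(31,0)]⟩),(.r 0 ⟨0,[(0,0),(0,0),(0,0),(1,2),(2,2),
  (2,0),(8,1),(11,2)]⟩ ⟨1,[(17,0),(17,1),(0,0)]⟩),.k,.k,⟨true,0,⟨0,[(0,0),(32,0)]⟩,⟨0,[(1,0),(33,2),
  (0,0)]⟩⟩,⟨false,0,⟨2,[(0,0),(5,0),(0,0),(10,1),(2,0),(2,0)]⟩,⟨0,[(19,0),(16,0)]⟩⟩,⟨true,0,⟨0,[]⟩,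
  ⟨0,[(39,0)]⟩⟩,⟨false,0,⟨0,[(6,0),(28,0)]⟩,⟨0,[(5,0),(28,0)]⟩⟩,⟨false,1,⟨0,[(34,0),(2,0)]⟩,⟨0,[(35,
  0)]⟩⟩,⟨false,0,⟨0,[(6,0)]⟩,⟨11,[(5,7),(10,2),(0,0),(1,3),(12,3)]⟩⟩,[.o ⟨false,0,⟨0,[(7,0)]⟩,⟨3,
  [(16,0),(0,0),(16,3),(2,1)]⟩⟩,.o ⟨false,1,⟨0,[(9,0),(27,0)]⟩,⟨0,[(34,0)]⟩⟩,.o ⟨false,1,⟨1,[(19,1),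
  (9,0),(6,0)]⟩,⟨2,[(0,0),(5,0),(0,0),(10,1),(2,0),(2,0)]⟩⟩,.a ⟨true,0,⟨0,[(19,0)]⟩,⟨0,[(18,0)]⟩⟩
  ⟨false,1,⟨1,[(2,0),(1,1),(0,0),(1,0),(0,0),(1,0)]⟩,⟨5,[(1,1),(15,1),(6,0),(0,0),(9,3)]⟩⟩ ⟨true,0,
  ⟨0,[(7,0),(10,0)]⟩,⟨0,[(19,0),(14,0)]⟩⟩]⟩)))))))))

theorem ok2 : chk (cU (-1) true 3) t2 l6 = true := by decide +kernel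

noncomputable def l7 : List Con := (true, [0,1,-2,-2,0,0,0,-2]) :: r6

noncomputable def r7 : List Con := (true, [1,-1,2,2,0,0,0,2]) :: r6

noncomputable def t3 : Tre :=
  (.Q [0,0,0,1,0,0,0,0,0,1] (.pp false [-1,1]) (.R ⟨1,false,false,false,[1,0,-1],[0,1],[1,1,0,0,0,0,
  0,-1],(⟨0,[(21,0)]⟩,⟨0,[(22,0)]⟩),(⟨0,[(25,0)]⟩,⟨0,[(24,0)]⟩),⟨0,[(7,0)]⟩,.k,.k,.k,.k,(.r (-1) ⟨7,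
  [(1,3),(8,0),(0,0),(17,7),(0,3),(0,1)]⟩ ⟨0,[(8,0),(18,0),(0,0)]⟩),.k,⟨true,0,⟨1,[(1,0),(31,0)]⟩,
  ⟨0,[(8,0),(18,0)]⟩⟩,⟨false,1,⟨23,[(0,7),(0,11),(2,7),(4,7),(0,2),(0,2),(18,11),(0,5)]⟩,⟨0,[(15,
  0)]⟩⟩,⟨false,0,⟨0,[]⟩,⟨3,[(10,0),(0,0),(19,1)]⟩⟩,⟨true,0,⟨0,[(5,0)]⟩,⟨2,[(1,0),(1,0),(10,0),(0,0),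
  (3,0)]⟩⟩,⟨true,0,⟨0,[(28,0)]⟩,⟨0,[(29,0)]⟩⟩,⟨true,0,⟨0,[(4,0)]⟩,⟨1,[(1,0),(1,0),(11,0),(3,0),(9,
  0)]⟩⟩,[.a ⟨true,0,⟨0,[(0,0)]⟩,⟨0,[(29,0)]⟩⟩ ⟨false,0,⟨1,[(1,0),(2,0),(9,0)]⟩,⟨1,[(9,0),(5,0),(3,
  0),(10,0),(0,0)]⟩⟩ ⟨true,0,⟨2,[(0,0),(0,0),(2,1),(13,0),(8,0)]⟩,⟨0,[(15,0),(13,0)]⟩⟩,.o ⟨false,1,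
  ⟨0,[(28,0),(2,0)]⟩,⟨0,[(3,0)]⟩⟩,.o ⟨false,1,⟨1,[(19,1),(3,0),(6,0)]⟩,⟨0,[(6,0)]⟩⟩,.o ⟨false,0,⟨0,
  [(15,0)]⟩,⟨0,[(18,0),(11,0)]⟩⟩]⟩) (.I [0,1,1,0,-1,0,0,0,-1] (.Q [0,1,1,0,0,0,0,0,1,0,0,-1] (.p
  false [0,0,0,1] [] (⟨0,[(14,0)]⟩,⟨0,[(13,0)]⟩) .k 0 (⟨0,[]⟩,⟨0,[]⟩) .k .k) (.K ⟨0,[0,0,0,1],0,0,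
  (⟨0,[(15,0)]⟩,⟨0,[(14,0)]⟩),.k,(.r (-1) ⟨1,[(13,0),(17,1),(0,0)]⟩ ⟨3,[(1,1),(4,1),(5,0),(3,1),(12,
  1),(3,0)]⟩),(.x 0 ⟨0,[(27,0)]⟩ ⟨7,[(4,3),(7,2),(0,2),(11,1)]⟩),.k,.k,[⟨0,[(15,0)]⟩,⟨0,[(14,0)]⟩,
  ⟨0,[(1,0),(13,0),(16,0)]⟩,⟨0,[(0,0)]⟩]⟩) (.R ⟨2,false,false,true,[0,1],[0,0,0,1],[],(⟨0,[]⟩,⟨0,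
  []⟩),(⟨0,[(15,0)]⟩,⟨0,[(14,0)]⟩),⟨0,[]⟩,.k,.k,.k,(.r 0 ⟨3,[(1,1),(4,1),(5,0),(3,1),(12,1),(3,0)]⟩
  ⟨1,[(13,0),(17,1),(0,0)]⟩),.k,.k,⟨true,0,⟨4,[(0,3),(0,0),(0,1),(3,0),(7,3),(1,0),(8,0),(3,2)]⟩,⟨0,
  [(1,0),(11,0)]⟩⟩,⟨false,0,⟨0,[(8,0),(5,0),(2,0)]⟩,⟨0,[(15,0),(16,0)]⟩⟩,⟨false,1,⟨1,[(31,1),(0,0),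
  (0,0)]⟩,⟨0,[(29,0),(0,0)]⟩⟩,⟨true,0,⟨0,[(1,0),(0,0),(10,0),(0,0)]⟩,⟨0,[(0,0),(29,0)]⟩⟩,⟨false,1,
  ⟨1,[(32,0),(0,0)]⟩,⟨1,[(20,0),(0,0)]⟩⟩,⟨false,1,⟨1,[(13,0),(0,1),(5,0),(0,0),(3,0)]⟩,⟨0,[(0,0)]⟩⟩,
  [.a ⟨true,0,⟨0,[(1,0),(11,0),(0,0)]⟩,⟨0,[(0,0)]⟩⟩ ⟨false,1,⟨3,[(12,0),(0,0),(18,1)]⟩,⟨0,[]⟩⟩
  ⟨true,0,⟨0,[(1,0),(6,0),(4,0),(0,0),(2,0)]⟩,⟨0,[(0,0)]⟩⟩,.o ⟨false,1,⟨1,[(13,0),(0,1),(5,0),(0,0),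
  (3,0)]⟩,⟨1,[(0,1),(1,0),(2,0),(0,0),(9,0)]⟩⟩,.o ⟨false,1,⟨3,[(12,0),(0,0),(18,1)]⟩,⟨0,[(8,0),(8,
  0)]⟩⟩,.e ⟨false,1,⟨1,[(32,0),(0,0)]⟩,⟨1,[(20,0),(0,0)]⟩⟩ ⟨false,1,⟨1,[(13,0),(0,1),(5,0),(0,0),(3,
  0)]⟩,⟨0,[(0,0)]⟩⟩]⟩)) (.I [0,0,-2,-2,1,0,0,1] (.Q [0,1,-1,0,0,0,0,0,-1,0,0,1] (.p true [0,0,0,1]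
  [] (⟨0,[(15,0)]⟩,⟨0,[(14,0)]⟩) .k 0 (⟨0,[]⟩,⟨0,[]⟩) .k .k) (.Q [0,1,1,0,0,0,0,0,1,0,0,-1] (.p
  false [0,0,0,1] [] (⟨0,[(16,0)]⟩,⟨0,[(15,0)]⟩) .k 0 (⟨0,[]⟩,⟨0,[]⟩) .k .k) (.K ⟨0,[0,0,0,1],0,0,
  (⟨0,[(17,0)]⟩,⟨0,[(16,0)]⟩),.k,(.r (-1) ⟨23,[(2,7),(2,3),(8,0),(0,12),(19,1)]⟩ ⟨0,[(1,0),(2,0),(3,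
  0),(7,0),(1,0),(12,1)]⟩),(.x 0 ⟨0,[(29,0)]⟩ ⟨7,[(6,3),(7,2),(0,2),(11,1)]⟩),.k,.k,[⟨0,[(17,0)]⟩,
  ⟨0,[(16,0)]⟩,⟨0,[(1,0)]⟩,⟨0,[(0,0)]⟩]⟩) (.Q [0,0,0,0,0,-1,0,0,0,1,0,-1] (.p false [0,0,0,1] [1]
  (⟨0,[(17,0)]⟩,⟨0,[(16,0)]⟩) .k 1 (⟨0,[]⟩,⟨0,[]⟩) .k .k) (.R ⟨1,false,false,false,[1,0,0,-1],[0,1,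
  1],[0,0,0,-1,0,0,0,0,-1],(⟨0,[(17,0)]⟩,⟨0,[(18,0)]⟩),(⟨0,[(27,0),(2,0)]⟩,⟨0,[(12,0)]⟩),⟨0,[(0,
  0)]⟩,.k,.k,(.x (-1) ⟨7,[(7,3),(7,2),(0,2),(11,1)]⟩ ⟨0,[(30,0)]⟩),(.r 0 ⟨3,[(1,3),(3,0),(0,0),(1,
  0),(8,3),(1,1),(3,1)]⟩ ⟨3,[(13,3),(1,0),(0,2)]⟩),(.r 0 ⟨1,[(1,1),(3,0),(0,0),(1,0),(8,1)]⟩ ⟨1,
  [(13,1),(2,0),(6,0),(0,0),(8,1),(2,0)]⟩),.k,⟨false,0,⟨1,[(1,1),(3,0),(0,0),(1,0),(8,1)]⟩,⟨1,[(13,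
  1),(2,0),(16,1),(2,0)]⟩⟩,⟨true,0,⟨0,[(11,0),(5,0)]⟩,⟨0,[(18,0),(1,0)]⟩⟩,⟨true,0,⟨0,[(34,0)]⟩,⟨0,
  [(33,0)]⟩⟩,⟨false,1,⟨9,[(9,3),(3,1),(0,1),(1,4),(0,9),(5,1),(4,2),(3,5),(3,1)]⟩,⟨3,[(1,2),(0,0),
  (3,1),(13,3)]⟩⟩,⟨false,1,⟨3,[(15,0),(0,0),(19,1)]⟩,⟨0,[]⟩⟩,⟨false,1,⟨1,[(9,1),(6,0),(0,1),(10,0),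
  (3,1)]⟩,⟨1,[(1,1),(3,0),(0,0),(1,0),(15,1)]⟩⟩,[.o ⟨false,0,⟨0,[(5,0),(3,0)]⟩,⟨7,[(6,3),(8,0),(0,
  0),(7,7),(3,3),(7,1)]⟩⟩,.o ⟨false,1,⟨15,[(9,7),(4,3),(0,0),(0,0),(11,5),(7,7)]⟩,⟨2,[(6,0),(1,0),
  (10,0),(0,0),(3,0)]⟩⟩,.o ⟨false,1,⟨1,[(18,1),(9,0),(6,0)]⟩,⟨0,[(11,0),(5,0),(2,0)]⟩⟩,.a ⟨true,0,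
  ⟨0,[(18,0)]⟩,⟨0,[(17,0)]⟩⟩ ⟨false,0,⟨0,[(1,0),(3,0),(11,0)]⟩,⟨1,[(16,0),(6,0),(0,0),(8,1),(2,
  0)]⟩⟩ ⟨true,0,⟨0,[(5,0),(3,0),(7,0)]⟩,⟨2,[(6,0),(1,0),(9,2),(0,0),(0,0),(3,0)]⟩⟩]⟩) (.R ⟨0,false,
  false,false,[1,0,0,-1],[0,1,1],[0,0,0,-1,0,0,0,0,-1],(⟨0,[(17,0)]⟩,⟨0,[(18,0)]⟩),(⟨0,[(27,0),(2,
  0)]⟩,⟨0,[(12,0)]⟩),⟨0,[(0,0)]⟩,.k,.k,(.x (-1) ⟨7,[(7,3),(7,2),(0,2),(11,1)]⟩ ⟨0,[(30,0)]⟩),(.r 0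
  ⟨3,[(1,3),(3,0),(0,0),(1,0),(8,3),(1,1),(3,1)]⟩ ⟨3,[(13,3),(1,0),(0,2)]⟩),.k,.k,⟨false,0,⟨1,[(1,
  1),(3,0),(0,0),(1,0),(8,1)]⟩,⟨1,[(13,1),(2,0),(16,1),(2,0)]⟩⟩,⟨true,0,⟨0,[(11,0),(5,0)]⟩,⟨0,[(18,
  0),(1,0)]⟩⟩,⟨true,0,⟨0,[(34,0)]⟩,⟨0,[(33,0)]⟩⟩,⟨false,1,⟨9,[(9,3),(3,1),(0,1),(1,4),(0,9),(5,1),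
  (4,2),(3,5),(3,1)]⟩,⟨3,[(1,2),(0,0),(3,1),(13,3)]⟩⟩,⟨false,0,⟨0,[]⟩,⟨0,[]⟩⟩,⟨false,0,⟨0,[]⟩,⟨0,
  []⟩⟩,[.o ⟨false,0,⟨0,[(5,0),(3,0)]⟩,⟨7,[(6,3),(8,0),(0,0),(7,7),(3,3),(7,1)]⟩⟩,.o ⟨false,1,⟨15,
  [(9,7),(4,3),(0,0),(0,0),(11,5),(7,7)]⟩,⟨2,[(6,0),(1,0),(10,0),(0,0),(3,0)]⟩⟩,.o ⟨false,1,⟨1,[(18,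
  1),(9,0),(6,0)]⟩,⟨0,[(11,0),(5,0),(2,0)]⟩⟩,.a ⟨true,0,⟨0,[(18,0)]⟩,⟨0,[(17,0)]⟩⟩ ⟨false,0,⟨0,[(1,
  0),(3,0),(11,0)]⟩,⟨1,[(16,0),(6,0),(0,0),(8,1),(2,0)]⟩⟩ ⟨true,0,⟨0,[(5,0),(3,0),(7,0)]⟩,⟨2,[(6,0),
  (1,0),(9,2),(0,0),(0,0),(3,0)]⟩⟩]⟩))) (.Q [0,-1,-1,0,1,0,1,1,-1,0,-1,1] (.p false [0,0,1] [0,0,0,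
  1] (⟨0,[(25,0)]⟩,⟨0,[(24,0)]⟩) .k 2 (⟨0,[(16,0)]⟩,⟨0,[(15,0)]⟩) .k (.r (-1) ⟨11,[(1,3),(9,7),(1,
  6),(0,0)]⟩ ⟨1,[(0,1),(3,0),(2,0),(8,1),(0,0)]⟩)) (.Q [0,1,1,0,-1,0,0,0,1,0,0,-1] (.p false [0,0,0,
  1] [] (⟨0,[(17,0)]⟩,⟨0,[(16,0)]⟩) .k 0 (⟨0,[]⟩,⟨0,[]⟩) .k .k) (.K ⟨0,[0,0,0,1],0,(-1),(⟨0,[(18,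
  0)]⟩,⟨0,[(17,0)]⟩),.k,(.x 0 ⟨1,[(7,0),(12,0),(2,1),(0,0)]⟩ ⟨0,[(30,0),(4,0)]⟩),(.x 0 ⟨0,[(30,0)]⟩
  ⟨7,[(7,3),(7,2),(0,2),(11,1)]⟩),.k,.k,[⟨0,[(18,0)]⟩,⟨0,[(17,0)]⟩,⟨7,[(1,3),(13,2),(0,0),(1,3),(3,
  3),(8,3)]⟩,⟨0,[(0,0)]⟩]⟩) (.Q [0,0,0,0,0,-1,0,0,0,1,0,-1] (.p false [0,0,0,1] [1] (⟨0,[(18,0)]⟩,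
  ⟨0,[(17,0)]⟩) .k 1 (⟨0,[]⟩,⟨0,[]⟩) .k .k) (.I [1,-1,1,1,0,0,0,0,1] (.I [0,-1,-2,-2,1,0,0,0,-1]
  (.R ⟨1,false,false,true,[1,0,0,-1],[0,1],[0,0,0,-1,0,0,0,0,-1],(⟨0,[(20,0)]⟩,⟨0,[(21,0)]⟩),(⟨0,
  [(33,0)]⟩,⟨0,[(32,0)]⟩),⟨0,[(2,0)]⟩,.k,.k,(.x (-1) ⟨7,[(10,3),(7,2),(0,2),(11,1)]⟩ ⟨0,[(33,0)]⟩),
  (.x (-1) ⟨7,[(10,3),(7,2),(0,2),(11,1)]⟩ ⟨0,[(33,0)]⟩),(.r (-1) ⟨8,[(0,4),(5,1),(2,0),(8,1),(15,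
  1),(2,1)]⟩ ⟨1,[(1,1),(24,0),(0,0),(8,1)]⟩),.k,⟨false,1,⟨0,[(0,0)]⟩,⟨0,[(1,0),(34,0),(4,0)]⟩⟩,
  ⟨true,0,⟨0,[(20,0)]⟩,⟨0,[(14,0),(6,0),(1,0)]⟩⟩,⟨true,0,⟨0,[(37,0)]⟩,⟨0,[(36,0)]⟩⟩,⟨false,0,⟨0,[(1,
  0),(18,0),(20,0)]⟩,⟨0,[(3,0),(4,0)]⟩⟩,⟨false,1,⟨3,[(18,0),(0,0),(19,1)]⟩,⟨0,[]⟩⟩,⟨false,0,⟨0,[(1,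
  0),(18,0),(15,0)]⟩,⟨5,[(0,3),(7,3),(9,0),(2,5),(9,0),(3,1)]⟩⟩,[.o ⟨false,0,⟨0,[(36,0)]⟩,⟨0,[(11,
  0),(27,0)]⟩⟩,.o ⟨false,1,⟨3,[(18,0),(0,0),(16,3),(2,1)]⟩,⟨0,[(8,0)]⟩⟩,.o ⟨false,1,⟨1,[(21,1),(9,
  0),(6,0)]⟩,⟨0,[(14,0),(5,0),(2,0)]⟩⟩,.a ⟨true,0,⟨0,[(21,0)]⟩,⟨0,[(20,0)]⟩⟩ ⟨false,1,⟨3,[(0,1),(17,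
  0),(20,0)]⟩,⟨0,[(1,0),(39,0)]⟩⟩ ⟨true,0,⟨0,[(20,0),(15,0)]⟩,⟨0,[(8,0),(12,0)]⟩⟩]⟩) (.I [0,0,0,0,0,
  0,0,0,1] (.R ⟨1,false,false,false,[1,0,0,-1],[0,1,1],[0,0,0,-1,0,0,0,0,-1],(⟨0,[(21,0)]⟩,⟨0,[(22,
  0)]⟩),(⟨0,[(31,0),(2,0)]⟩,⟨0,[(16,0)]⟩),⟨0,[(3,0)]⟩,.k,.k,(.x (-1) ⟨7,[(11,3),(7,2),(0,2),(11,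
  1)]⟩ ⟨0,[(34,0)]⟩),(.r (-1) ⟨7,[(10,3),(8,4),(0,0),(19,1)]⟩ ⟨0,[(0,0),(16,0)]⟩),(.r (-1) ⟨9,[(4,
  3),(2,1),(1,3),(0,5),(8,2),(1,3),(18,0)]⟩ ⟨11,[(1,3),(0,3),(14,11),(1,0),(0,2)]⟩),.k,⟨false,1,⟨9,
  [(4,3),(2,1),(1,3),(0,5),(8,2),(1,3),(18,0)]⟩,⟨0,[(0,0),(12,0),(10,0)]⟩⟩,⟨true,0,⟨0,[(15,0),(5,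
  0)]⟩,⟨0,[(22,0),(1,0)]⟩⟩,⟨true,0,⟨0,[(38,0)]⟩,⟨0,[(37,0)]⟩⟩,⟨false,0,⟨2,[(2,0),(3,1),(6,0),(4,0),
  (2,0)]⟩,⟨2,[(4,2),(5,0),(1,0),(10,0),(0,0),(3,0)]⟩⟩,⟨false,1,⟨3,[(19,0),(0,0),(19,1)]⟩,⟨0,[]⟩⟩,
  ⟨false,0,⟨0,[(6,0),(6,0)]⟩,⟨1,[(4,1),(4,0),(0,0),(1,0),(15,1)]⟩⟩,[.o ⟨false,0,⟨0,[(9,0),(3,0)]⟩,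
  ⟨7,[(10,3),(8,0),(0,0),(7,7),(3,3),(7,1)]⟩⟩,.o ⟨false,1,⟨15,[(13,7),(4,3),(0,0),(0,0),(11,5),(7,
  7)]⟩,⟨2,[(10,0),(1,0),(10,0),(0,0),(3,0)]⟩⟩,.o ⟨false,1,⟨1,[(22,1),(9,0),(6,0)]⟩,⟨2,[(1,0),(4,0),
  (2,1),(9,0),(1,1)]⟩⟩,.a ⟨true,0,⟨0,[(22,0)]⟩,⟨0,[(21,0)]⟩⟩ ⟨false,1,⟨0,[(4,0),(4,0),(11,0)]⟩,⟨11,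
  [(1,3),(0,3),(16,0),(0,2)]⟩⟩ ⟨true,0,⟨0,[(9,0),(3,0),(7,0)]⟩,⟨2,[(10,0),(1,0),(9,2),(0,0),(0,0),
  (3,0)]⟩⟩]⟩) (.R ⟨1,false,false,true,[1,0,0,-1],[0,1],[0,1,0,-1,0,0,0,0,-1],(⟨0,[(21,0)]⟩,⟨0,[(22,
  0)]⟩),(⟨0,[(34,0)]⟩,⟨0,[(33,0)]⟩),⟨0,[(3,0)]⟩,.k,.k,(.x (-1) ⟨7,[(11,3),(7,2),(0,2),(11,1)]⟩ ⟨0,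
  [(34,0)]⟩),(.x (-1) ⟨7,[(11,3),(7,2),(0,2),(11,1)]⟩ ⟨0,[(34,0)]⟩),(.r (-1) ⟨5,[(0,3),(6,3),(2,1),
  (8,0),(20,0)]⟩ ⟨11,[(1,7),(0,7),(16,4),(0,2)]⟩),.k,⟨false,1,⟨5,[(0,3),(6,3),(2,1),(8,0),(20,0)]⟩,
  ⟨0,[(2,0),(34,0)]⟩⟩,⟨true,0,⟨0,[(21,0)]⟩,⟨4,[(0,0),(0,0),(7,1),(12,4),(1,0),(2,0),(4,0),(3,0)]⟩⟩,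
  ⟨false,0,⟨0,[(38,0)]⟩,⟨0,[(37,0),(2,0)]⟩⟩,⟨false,0,⟨11,[(1,3),(0,3),(16,0),(0,2),(0,11)]⟩,⟨0,[(4,
  0),(4,0)]⟩⟩,⟨true,0,⟨0,[(42,0)]⟩,⟨0,[]⟩⟩,⟨false,0,⟨0,[(2,0),(18,0),(15,0)]⟩,⟨0,[(4,0),(4,0),(28,
  0)]⟩⟩,[.o ⟨false,0,⟨0,[(37,0)]⟩,⟨0,[(12,0),(27,0)]⟩⟩,.o ⟨false,1,⟨3,[(19,0),(0,0),(16,3),(2,1)]⟩,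
  ⟨0,[(9,0)]⟩⟩,.o ⟨false,1,⟨1,[(22,1),(9,0),(6,0)]⟩,⟨4,[(0,1),(0,0),(4,2),(5,1),(6,0),(1,1)]⟩⟩,.a
  ⟨true,0,⟨0,[(22,0)]⟩,⟨0,[(21,0)]⟩⟩ ⟨false,1,⟨23,[(7,7),(2,3),(8,12),(0,0),(19,1)]⟩,⟨0,[(2,0)]⟩⟩
  ⟨true,0,⟨0,[(21,0),(15,0)]⟩,⟨0,[(9,0),(12,0)]⟩⟩]⟩))) (.R ⟨1,false,false,true,[1,0,0,-1],[0,1],[1,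
  1,0,0,0,0,0,0,-1],(⟨0,[(19,0)]⟩,⟨0,[(20,0)]⟩),(⟨0,[(32,0)]⟩,⟨0,[(31,0)]⟩),⟨0,[(1,0)]⟩,.k,.k,(.x
  (-1) ⟨7,[(9,3),(7,2),(0,2),(11,1)]⟩ ⟨0,[(32,0)]⟩),(.x (-1) ⟨7,[(9,3),(7,2),(0,2),(11,1)]⟩ ⟨0,[(32,
  0)]⟩),(.r (-1) ⟨9,[(0,7),(4,3),(2,1),(8,0),(20,4)]⟩ ⟨0,[(4,0),(15,0),(13,0),(0,1)]⟩),.k,⟨false,1,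
  ⟨1,[(0,1),(36,0),(0,0)]⟩,⟨0,[(4,0),(15,0),(14,0)]⟩⟩,⟨true,0,⟨0,[(19,0)]⟩,⟨0,[(13,0),(6,0),(1,
  0)]⟩⟩,⟨false,0,⟨0,[]⟩,⟨3,[(17,0),(0,0),(19,1)]⟩⟩,⟨false,0,⟨0,[(4,0),(7,0),(11,0)]⟩,⟨0,[(2,0),(4,
  0)]⟩⟩,⟨true,0,⟨0,[(35,0)]⟩,⟨0,[(36,0)]⟩⟩,⟨false,0,⟨0,[(4,0),(6,0),(12,0)]⟩,⟨0,[(2,0),(4,0),(28,
  0)]⟩⟩,[.o ⟨false,0,⟨0,[(35,0)]⟩,⟨0,[(10,0),(27,0)]⟩⟩,.o ⟨false,1,⟨3,[(17,0),(0,0),(16,3),(2,1)]⟩,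
  ⟨0,[(7,0)]⟩⟩,.o ⟨false,1,⟨1,[(20,1),(9,0),(6,0)]⟩,⟨0,[(13,0),(5,0),(2,0)]⟩⟩,.a ⟨true,0,⟨0,[(20,
  0)]⟩,⟨0,[(19,0)]⟩⟩ ⟨false,1,⟨1,[(17,0),(19,0)]⟩,⟨0,[(4,0),(15,0)]⟩⟩ ⟨true,0,⟨0,[(19,0),(15,0)]⟩,
  ⟨0,[(7,0),(12,0)]⟩⟩]⟩)) (.I [0,0,1,0,0,0,0,0,-1] (.I [1,0,0,0,0,0,0,0,1] (.R ⟨0,false,false,false,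
  [1,0,0,-1],[0,1,1],[0,0,0,-1,0,0,0,0,-1],(⟨0,[(20,0)]⟩,⟨0,[(21,0)]⟩),(⟨0,[(30,0),(2,0)]⟩,⟨0,[(15,
  0)]⟩),⟨0,[(2,0)]⟩,.k,.k,(.x (-1) ⟨7,[(10,3),(7,2),(0,2),(11,1)]⟩ ⟨0,[(33,0)]⟩),(.r (-1) ⟨7,[(9,3),
  (8,4),(0,0),(19,1)]⟩ ⟨0,[(0,0),(15,0)]⟩),.k,.k,⟨false,1,⟨9,[(3,3),(2,1),(1,3),(0,5),(8,2),(1,3),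
  (18,0)]⟩,⟨0,[(0,0),(11,0),(10,0)]⟩⟩,⟨true,0,⟨0,[(14,0),(5,0)]⟩,⟨0,[(21,0),(1,0)]⟩⟩,⟨true,0,⟨0,
  [(37,0)]⟩,⟨0,[(36,0)]⟩⟩,⟨false,0,⟨0,[(5,0),(7,0)]⟩,⟨2,[(3,2),(5,0),(1,0),(10,0),(0,0),(3,0)]⟩⟩,
  ⟨false,0,⟨0,[]⟩,⟨0,[]⟩⟩,⟨false,0,⟨0,[]⟩,⟨0,[]⟩⟩,[.o ⟨false,0,⟨0,[(8,0),(3,0)]⟩,⟨7,[(9,3),(8,0),(0,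
  0),(7,7),(3,3),(7,1)]⟩⟩,.o ⟨false,1,⟨15,[(12,7),(4,3),(0,0),(0,0),(11,5),(7,7)]⟩,⟨2,[(9,0),(1,0),
  (10,0),(0,0),(3,0)]⟩⟩,.o ⟨false,1,⟨1,[(21,1),(9,0),(6,0)]⟩,⟨3,[(1,1),(3,1),(2,0),(2,0),(0,0),(7,
  1),(1,0)]⟩⟩,.a ⟨true,0,⟨0,[(21,0)]⟩,⟨0,[(20,0)]⟩⟩ ⟨false,1,⟨0,[(3,0),(4,0),(11,0)]⟩,⟨0,[(5,0),(15,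
  0),(14,0)]⟩⟩ ⟨true,0,⟨0,[(8,0),(3,0),(7,0)]⟩,⟨2,[(9,0),(1,0),(9,2),(0,0),(0,0),(3,0)]⟩⟩]⟩) (.R ⟨0,
  false,false,true,[1,0,0,-1],[0,1],[0,1],(⟨0,[(20,0)]⟩,⟨0,[(21,0)]⟩),(⟨0,[(33,0)]⟩,⟨0,[(32,0)]⟩),
  ⟨0,[(2,0)]⟩,.k,.k,(.x (-1) ⟨7,[(10,3),(7,2),(0,2),(11,1)]⟩ ⟨0,[(33,0)]⟩),(.x (-1) ⟨7,[(10,3),(7,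
  2),(0,2),(11,1)]⟩ ⟨0,[(33,0)]⟩),.k,.k,⟨false,1,⟨23,[(6,7),(2,3),(8,0),(0,0),(18,11),(0,1)]⟩,⟨0,
  [(35,0),(0,0)]⟩⟩,⟨true,0,⟨0,[(20,0)]⟩,⟨1,[(2,1),(7,0),(12,0),(2,0)]⟩⟩,⟨true,0,⟨0,[(5,0),(15,0),
  (12,0)]⟩,⟨0,[(0,0)]⟩⟩,⟨false,0,⟨0,[(5,0),(7,0),(11,0)]⟩,⟨0,[(3,0),(4,0)]⟩⟩,⟨false,0,⟨0,[]⟩,⟨0,
  []⟩⟩,⟨false,0,⟨0,[]⟩,⟨0,[]⟩⟩,[.o ⟨false,0,⟨0,[(36,0)]⟩,⟨0,[(11,0),(27,0)]⟩⟩,.o ⟨false,1,⟨3,[(18,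
  0),(0,0),(16,3),(2,1)]⟩,⟨0,[(8,0)]⟩⟩,.o ⟨false,1,⟨1,[(21,1),(9,0),(6,0)]⟩,⟨2,[(0,0),(0,0),(3,1),
  (5,0),(8,0),(15,0)]⟩⟩,.a ⟨true,0,⟨0,[(21,0)]⟩,⟨0,[(20,0)]⟩⟩ ⟨false,1,⟨3,[(18,0),(0,0),(18,1)]⟩,⟨0,
  [(35,0)]⟩⟩ ⟨true,0,⟨0,[(20,0),(15,0)]⟩,⟨0,[(8,0),(12,0)]⟩⟩]⟩)) (.R ⟨0,false,false,false,[1,0,0,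
  -1],[0,1,1],[0,0,0,-1,0,0,0,0,-1],(⟨0,[(19,0)]⟩,⟨0,[(20,0)]⟩),(⟨0,[(29,0),(2,0)]⟩,⟨0,[(14,0)]⟩),
  ⟨0,[(1,0)]⟩,.k,.k,(.x (-1) ⟨7,[(9,3),(7,2),(0,2),(11,1)]⟩ ⟨0,[(32,0)]⟩),(.r (-1) ⟨7,[(8,3),(8,4),
  (0,0),(19,1)]⟩ ⟨1,[(0,1),(14,1),(9,0),(0,0)]⟩),.k,.k,⟨false,1,⟨9,[(2,3),(2,1),(1,3),(0,5),(8,2),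
  (1,3),(18,0)]⟩,⟨1,[(0,0),(3,0),(6,0),(3,1),(4,0),(0,0)]⟩⟩,⟨true,0,⟨0,[(13,0),(5,0)]⟩,⟨0,[(20,0),
  (1,0)]⟩⟩,⟨true,0,⟨0,[(36,0)]⟩,⟨0,[(35,0)]⟩⟩,⟨false,0,⟨0,[(4,0),(7,0)]⟩,⟨2,[(2,2),(5,0),(1,0),(10,
  0),(0,0),(3,0)]⟩⟩,⟨false,0,⟨0,[]⟩,⟨0,[]⟩⟩,⟨false,0,⟨0,[]⟩,⟨0,[]⟩⟩,[.o ⟨false,0,⟨0,[(7,0),(3,0)]⟩,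
  ⟨7,[(8,3),(8,0),(0,0),(7,7),(3,3),(7,1)]⟩⟩,.o ⟨false,1,⟨15,[(11,7),(4,3),(0,0),(0,0),(11,5),(7,
  7)]⟩,⟨2,[(8,0),(1,0),(10,0),(0,0),(3,0)]⟩⟩,.o ⟨false,1,⟨1,[(20,1),(9,0),(6,0)]⟩,⟨0,[(13,0),(5,0),
  (2,0)]⟩⟩,.a ⟨true,0,⟨0,[(20,0)]⟩,⟨0,[(19,0)]⟩⟩ ⟨false,1,⟨0,[(2,0),(4,0),(11,0)]⟩,⟨0,[(4,0),(15,0),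
  (14,0)]⟩⟩ ⟨true,0,⟨0,[(7,0),(3,0),(7,0)]⟩,⟨2,[(8,0),(1,0),(9,2),(0,0),(0,0),(3,0)]⟩⟩]⟩)))) (.I [0,
  0,-1,-1,0,0,0,0,1] (.K ⟨0,[0,0,0,1],0,(-1),(⟨0,[(18,0)]⟩,⟨0,[(17,0)]⟩),.k,(.r 0 ⟨0,[(0,0)]⟩ ⟨1,
  [(15,0),(7,0),(0,0),(8,1),(2,0)]⟩),(.x 0 ⟨0,[(30,0)]⟩ ⟨7,[(7,3),(7,2),(0,2),(11,1)]⟩),.k,.k,[⟨0,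
  [(18,0)]⟩,⟨0,[(17,0)]⟩,⟨7,[(15,4),(0,0),(1,7),(12,3),(3,1)]⟩,⟨2,[(1,2),(3,1),(3,0),(4,0)]⟩]⟩) (.K
  ⟨0,[0,0,0,1],0,(-1),(⟨0,[(18,0)]⟩,⟨0,[(17,0)]⟩),.k,(.x 0 ⟨1,[(7,0),(12,0),(2,1),(0,0)]⟩ ⟨0,[(30,
  0),(4,0)]⟩),(.x 0 ⟨0,[(30,0)]⟩ ⟨7,[(7,3),(7,2),(0,2),(11,1)]⟩),.k,.k,[⟨0,[(18,0)]⟩,⟨0,[(17,0)]⟩,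
  ⟨7,[(15,4),(0,0),(1,7),(12,3),(3,1)]⟩,⟨2,[(1,2),(3,1),(3,0),(4,0)]⟩]⟩)))) (.Q [0,0,0,0,0,1,0,0,0,
  0,-1] (.ed true [1,-1,1] .k) (.Q [0,1,0,1,0,0,-1,-1,0,1,1] (.p true [1,-1,1] [] (⟨0,[(25,0),(1,
  0)]⟩,⟨0,[(0,0)]⟩) .k 0 (⟨0,[]⟩,⟨0,[]⟩) .k .k) (.K ⟨2,[1,-1,1],(-1),0,(⟨0,[(26,0),(1,0)]⟩,⟨0,[(1,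
  0)]⟩),.k,(.x 1 ⟨1,[(2,1),(1,2),(1,1),(6,0),(12,1),(6,0)]⟩ ⟨3,[(1,3),(12,0),(0,0),(7,3),(5,3),(4,
  5)]⟩),.k,.k,.k,[⟨0,[(4,0)]⟩,⟨0,[(0,0)]⟩,⟨11,[(0,7),(12,3),(0,0),(0,0),(7,11),(9,7),(0,5),(0,3)]⟩,
  ⟨1,[(2,1),(1,2),(8,0),(19,0)]⟩]⟩) (.I [1,0,1,1,0,0,0,1,1] (.I [0,0,1,1,0,0,0,0,-1] (.Q [0,0,0,0,0,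
  1,0,0,0,-1,0,1] (.p true [0,0,0,1] [1] (⟨0,[(19,0)]⟩,⟨0,[(18,0)]⟩) .k 1 (⟨0,[]⟩,⟨0,[]⟩) .k .k)
  (.I [0,0,-2,-2,1,0,0,0,-1] (.R ⟨0,false,false,false,[1,0,0,-1],[0,0,1],[0,0,0,-1,0,0,0,0,-1],(⟨0,
  [(20,0)]⟩,⟨0,[(21,0)]⟩),(⟨0,[(30,0)]⟩,⟨0,[(29,0)]⟩),⟨0,[(1,0)]⟩,.k,.k,(.x (-1) ⟨7,[(10,3),(7,2),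
  (0,2),(11,1)]⟩ ⟨0,[(33,0)]⟩),.k,.k,.k,⟨true,0,⟨0,[(0,0),(5,0),(30,0)]⟩,⟨0,[(3,0)]⟩⟩,⟨false,0,⟨0,
  [(14,0),(5,0)]⟩,⟨0,[(21,0),(1,0),(14,0)]⟩⟩,⟨true,0,⟨0,[(37,0)]⟩,⟨0,[(36,0)]⟩⟩,⟨false,0,⟨11,[(3,9),
  (0,5),(1,1),(0,1),(1,3),(7,2),(2,14),(0,2),(13,7)]⟩,⟨0,[(0,0),(5,0),(14,0),(1,0),(14,0)]⟩⟩,⟨false,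
  0,⟨0,[]⟩,⟨0,[]⟩⟩,⟨false,0,⟨0,[]⟩,⟨0,[]⟩⟩,[.o ⟨false,0,⟨6,[(4,1),(7,0),(4,0),(6,1)]⟩,⟨1,[(25,1),(5,
  0),(7,0)]⟩⟩,.o ⟨false,1,⟨7,[(17,3),(0,0),(0,0),(11,1),(7,3)]⟩,⟨0,[(22,0)]⟩⟩,.o ⟨false,1,⟨1,[(21,
  1),(9,0),(6,0)]⟩,⟨6,[(4,0),(1,0),(4,0),(8,6),(2,2),(2,1),(4,0)]⟩⟩,.a ⟨true,0,⟨0,[(21,0)]⟩,⟨0,[(20,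
  0)]⟩⟩ ⟨false,1,⟨0,[(0,0),(3,0),(1,0),(13,0),(0,0),(5,0),(10,0)]⟩,⟨2,[(3,0),(2,0),(12,0)]⟩⟩ ⟨true,
  0,⟨6,[(4,1),(7,0),(4,0),(2,6),(3,1)]⟩,⟨0,[(21,0),(0,0)]⟩⟩]⟩) (.I [1,-1,0,-1,0,0,0,0,1] (.R ⟨0,
  false,false,false,[1,0,0,-1],[1,-1],[0,1,0,0,0,0,0,0,-1],(⟨0,[(21,0)]⟩,⟨0,[(22,0)]⟩),(⟨0,[(33,
  0)]⟩,⟨0,[(34,0)]⟩),⟨0,[(2,0)]⟩,.k,.k,(.x (-1) ⟨7,[(11,3),(7,2),(0,2),(11,1)]⟩ ⟨0,[(34,0)]⟩),(.r 0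
  ⟨0,[(3,0)]⟩ ⟨1,[(20,0),(17,1),(0,0)]⟩),.k,.k,⟨true,0,⟨0,[(3,0),(38,0)]⟩,⟨0,[(0,0)]⟩⟩,⟨false,0,⟨6,
  [(5,0),(1,0),(4,0),(8,6),(2,2),(2,1),(4,0)]⟩,⟨0,[(22,0),(16,0)]⟩⟩,⟨true,0,⟨0,[(42,0)]⟩,⟨0,[]⟩⟩,
  ⟨false,0,⟨6,[(0,6),(4,0),(1,0),(4,0),(8,6),(2,2),(2,1),(4,0)]⟩,⟨0,[(3,0),(18,0),(16,0)]⟩⟩,⟨false,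
  0,⟨0,[]⟩,⟨0,[]⟩⟩,⟨false,0,⟨0,[]⟩,⟨0,[]⟩⟩,[.o ⟨false,0,⟨0,[(9,0)]⟩,⟨3,[(19,0),(0,0),(16,3),(2,
  1)]⟩⟩,.o ⟨false,1,⟨0,[(12,0),(27,0)]⟩,⟨0,[(37,0)]⟩⟩,.o ⟨false,1,⟨1,[(22,1),(9,0),(6,0)]⟩,⟨6,[(5,
  0),(1,0),(4,0),(8,6),(2,2),(2,1),(4,0)]⟩⟩,.a ⟨true,0,⟨0,[(22,0)]⟩,⟨0,[(21,0)]⟩⟩ ⟨false,1,⟨1,[(19,
  0),(19,0)]⟩,⟨4,[(0,1),(0,0),(18,0),(15,2)]⟩⟩ ⟨true,0,⟨0,[(9,0),(11,0)]⟩,⟨0,[(22,0),(14,0)]⟩⟩]⟩)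
  (.R ⟨0,false,false,false,[1,0,0,-1],[1,-1],[1],(⟨0,[(21,0)]⟩,⟨0,[(22,0)]⟩),(⟨0,[(33,0)]⟩,⟨0,[(34,
  0)]⟩),⟨0,[(2,0)]⟩,.k,.k,(.x (-1) ⟨7,[(11,3),(7,2),(0,2),(11,1)]⟩ ⟨0,[(34,0)]⟩),(.r 0 ⟨0,[(3,0)]⟩
  ⟨1,[(20,0),(17,1),(0,0)]⟩),.k,.k,⟨true,0,⟨5,[(7,1),(9,1),(1,0),(0,0)]⟩,⟨0,[(38,0)]⟩⟩,⟨false,0,⟨6,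
  [(5,0),(1,0),(4,0),(8,6),(2,2),(2,1),(4,0)]⟩,⟨0,[(22,0),(16,0)]⟩⟩,⟨true,0,⟨1,[(1,0),(2,0),(0,0),
  (4,0),(10,0),(0,0),(5,0),(10,0)]⟩,⟨0,[(0,0),(37,0)]⟩⟩,⟨false,0,⟨17,[(1,6),(3,15),(2,2),(1,7),(9,
  3),(0,17),(2,1),(3,13),(7,6)]⟩,⟨1,[(0,1),(21,1),(16,0),(0,0)]⟩⟩,⟨false,0,⟨0,[]⟩,⟨0,[]⟩⟩,⟨false,0,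
  ⟨0,[]⟩,⟨0,[]⟩⟩,[.o ⟨false,0,⟨0,[(9,0)]⟩,⟨3,[(19,0),(0,0),(16,3),(2,1)]⟩⟩,.o ⟨false,1,⟨0,[(12,0),
  (27,0)]⟩,⟨0,[(37,0)]⟩⟩,.o ⟨false,1,⟨1,[(22,1),(9,0),(6,0)]⟩,⟨6,[(5,0),(1,0),(4,0),(8,6),(2,2),(2,
  1),(4,0)]⟩⟩,.a ⟨true,0,⟨0,[(22,0)]⟩,⟨0,[(21,0)]⟩⟩ ⟨false,1,⟨1,[(39,0),(0,0)]⟩,⟨1,[(27,0),(0,0)]⟩⟩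
  ⟨true,0,⟨0,[(9,0),(11,0)]⟩,⟨0,[(22,0),(14,0)]⟩⟩]⟩))) (.I [1,-1,-1,0,1,0,0,0,-1] (.I [0,0,0,-1,0,0,
  0,-1,-1] (.R ⟨1,false,false,false,[1,0,0,-1],[0,0,1],[0,0,0,-1,0,0,0,0,-1],(⟨0,[(21,0)]⟩,⟨0,[(22,
  0)]⟩),(⟨0,[(31,0)]⟩,⟨0,[(30,0)]⟩),⟨0,[(2,0)]⟩,.k,.k,(.x (-1) ⟨7,[(11,3),(7,2),(0,2),(11,1)]⟩ ⟨0,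
  [(34,0)]⟩),.k,(.x (-1) ⟨1,[(16,1),(11,1),(3,0),(6,0)]⟩ ⟨0,[(15,0),(15,0),(2,0)]⟩),.k,⟨true,0,⟨0,
  [(0,0)]⟩,⟨0,[(4,0)]⟩⟩,⟨false,0,⟨0,[(15,0),(5,0)]⟩,⟨0,[(22,0),(1,0),(14,0)]⟩⟩,⟨true,0,⟨0,[(38,0)]⟩,
  ⟨0,[(37,0)]⟩⟩,⟨false,0,⟨11,[(4,9),(0,5),(1,1),(0,1),(1,3),(7,2),(2,14),(0,2),(13,7)]⟩,⟨0,[(1,0),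
  (20,0),(0,0)]⟩⟩,⟨false,1,⟨3,[(19,0),(0,0),(19,1)]⟩,⟨0,[]⟩⟩,⟨false,0,⟨3,[(4,1),(0,1),(1,1),(0,1),
  (9,0),(2,4),(0,0)]⟩,⟨3,[(1,1),(8,1),(8,0),(2,3),(1,3),(14,0)]⟩⟩,[.o ⟨false,0,⟨6,[(5,1),(7,0),(4,
  0),(6,1)]⟩,⟨1,[(26,1),(5,0),(7,0)]⟩⟩,.o ⟨false,1,⟨7,[(18,3),(0,0),(0,0),(11,1),(7,3)]⟩,⟨0,[(23,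
  0)]⟩⟩,.o ⟨false,1,⟨1,[(22,1),(9,0),(6,0)]⟩,⟨6,[(5,0),(1,0),(4,0),(8,6),(2,2),(2,1),(4,0)]⟩⟩,.a
  ⟨true,0,⟨0,[(22,0)]⟩,⟨0,[(21,0)]⟩⟩ ⟨false,1,⟨0,[(1,0),(36,0)]⟩,⟨2,[(4,0),(2,0),(12,0)]⟩⟩ ⟨true,0,
  ⟨6,[(5,1),(7,0),(4,0),(2,6),(3,1)]⟩,⟨0,[(22,0),(0,0)]⟩⟩]⟩) (.R ⟨1,false,false,false,[1,0,0,-1],[0,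
  0,1],[1,1,0,0,0,0,0,0,-1],(⟨0,[(21,0)]⟩,⟨0,[(22,0)]⟩),(⟨0,[(31,0)]⟩,⟨0,[(30,0)]⟩),⟨0,[(2,0)]⟩,.k,
  .k,(.x (-1) ⟨7,[(11,3),(7,2),(0,2),(11,1)]⟩ ⟨0,[(34,0)]⟩),.k,(.x (-1) ⟨1,[(16,1),(11,1),(3,0),(6,
  0)]⟩ ⟨0,[(15,0),(15,0),(2,0)]⟩),.k,⟨true,0,⟨1,[(3,1),(6,0),(31,0)]⟩,⟨0,[(0,0),(35,0),(1,0)]⟩⟩,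
  ⟨false,0,⟨0,[(15,0),(5,0)]⟩,⟨0,[(22,0),(1,0),(14,0)]⟩⟩,⟨false,0,⟨0,[]⟩,⟨3,[(19,0),(0,0),(19,1)]⟩⟩,
  ⟨false,0,⟨20,[(0,10),(4,6),(1,4),(2,2),(7,6),(1,4),(0,20),(14,16),(1,7)]⟩,⟨0,[(1,0),(20,0),(0,
  0)]⟩⟩,⟨true,0,⟨0,[(37,0)]⟩,⟨0,[(38,0)]⟩⟩,⟨false,0,⟨17,[(0,7),(4,5),(1,7),(0,3),(9,5),(1,2),(0,17),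
  (14,5),(3,0)]⟩,⟨3,[(1,1),(8,1),(8,0),(2,3),(1,3),(14,0)]⟩⟩,[.o ⟨false,0,⟨6,[(5,1),(7,0),(4,0),(6,
  1)]⟩,⟨1,[(26,1),(5,0),(7,0)]⟩⟩,.o ⟨false,1,⟨7,[(18,3),(0,0),(0,0),(11,1),(7,3)]⟩,⟨0,[(23,0)]⟩⟩,.o
  ⟨false,1,⟨1,[(22,1),(9,0),(6,0)]⟩,⟨6,[(5,0),(1,0),(4,0),(8,6),(2,2),(2,1),(4,0)]⟩⟩,.a ⟨true,0,⟨0,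
  [(22,0)]⟩,⟨0,[(21,0)]⟩⟩ ⟨false,1,⟨1,[(19,0),(19,0)]⟩,⟨6,[(0,4),(6,0),(2,1),(9,0),(15,8),(1,2)]⟩⟩
  ⟨true,0,⟨6,[(5,1),(7,0),(4,0),(2,6),(3,1)]⟩,⟨0,[(22,0),(0,0)]⟩⟩]⟩)) (.Q [0,0,-1,0,1,0,-1,-1,-1,0,
  1,1] (.p true [1,-1,1] [1,0,0,-1] (⟨0,[(30,0),(1,0)]⟩,⟨0,[(5,0)]⟩) .k 2 (⟨0,[(20,0)]⟩,⟨0,[(21,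
  0)]⟩) .k (.x 0 ⟨0,[(26,0),(3,0)]⟩ ⟨0,[(23,0),(5,0),(8,0)]⟩)) (.R ⟨1,true,false,false,[1,0,0,-1],
  [1,-1,1],[1,1,0,0,0,0,0,0,-1],(⟨0,[(21,0)]⟩,⟨0,[(22,0)]⟩),(⟨0,[(31,0),(1,0)]⟩,⟨0,[(6,0)]⟩),⟨0,[(2,
  0)]⟩,.k,.k,(.x (-1) ⟨7,[(11,3),(7,2),(0,2),(11,1)]⟩ ⟨0,[(34,0)]⟩),(.r 0 ⟨23,[(7,15),(2,3),(8,12),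
  (0,0),(19,1)]⟩ ⟨0,[(4,0),(33,1),(0,0)]⟩),.k,.k,⟨false,0,⟨2,[(3,2),(3,0),(2,0),(24,0),(3,0)]⟩,⟨1,
  [(1,0),(3,1),(2,0),(12,1),(0,1),(5,1),(10,1)]⟩⟩,⟨true,(-1),⟨8,[(1,3),(1,3),(1,6),(1,4),(2,0),(1,
  1),(8,8),(5,1),(10,2)]⟩,⟨0,[(22,0),(5,0),(10,0)]⟩⟩,⟨false,0,⟨0,[]⟩,⟨3,[(19,0),(0,0),(19,1)]⟩⟩,
  ⟨true,(-1),⟨0,[(1,0),(3,0),(15,0)]⟩,⟨0,[(0,0),(36,0)]⟩⟩,⟨true,0,⟨0,[(37,0)]⟩,⟨0,[(38,0)]⟩⟩,⟨false,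
  0,⟨2,[(4,0),(0,2),(1,0),(12,0),(0,2)]⟩,⟨0,[(0,0)]⟩⟩,[]⟩) (.K ⟨0,[0,0,0,1],0,(-1),(⟨0,[(22,0)]⟩,⟨0,
  [(21,0)]⟩),.k,(.r (-1) ⟨1,[(20,0),(17,1),(0,0)]⟩ ⟨0,[(3,0)]⟩),(.x 0 ⟨0,[(34,0)]⟩ ⟨7,[(11,3),(7,2),
  (0,2),(11,1)]⟩),.k,.k,[⟨0,[(22,0)]⟩,⟨0,[(21,0)]⟩,⟨7,[(19,4),(0,0),(1,7),(12,3),(3,1)]⟩,⟨0,[(0,0),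
  (25,0)]⟩]⟩)))) (.K ⟨0,[0,0,0,1],0,(-1),(⟨0,[(19,0)]⟩,⟨0,[(18,0)]⟩),.k,(.x 0 ⟨1,[(8,0),(12,0),(2,
  1),(0,0)]⟩ ⟨0,[(31,0),(4,0)]⟩),(.x 0 ⟨0,[(31,0)]⟩ ⟨7,[(8,3),(7,2),(0,2),(11,1)]⟩),.k,.k,[⟨0,[(19,
  0)]⟩,⟨0,[(18,0)]⟩,⟨7,[(16,4),(0,0),(1,7),(12,3),(3,1)]⟩,⟨0,[(0,0),(1,0),(1,0),(13,0),(6,0),(6,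
  0)]⟩]⟩)) (.Q [0,0,0,0,0,1,0,0,0,-1,0,1] (.p true [0,0,0,1] [1] (⟨0,[(18,0)]⟩,⟨0,[(17,0)]⟩) .k 1
  (⟨0,[]⟩,⟨0,[]⟩) .k .k) (.R ⟨0,false,false,true,[1,0,0,-1],[0,1],[0,0,0,-1,0,0,0,0,-1],(⟨0,[(18,
  0)]⟩,⟨0,[(19,0)]⟩),(⟨0,[(31,0)]⟩,⟨0,[(30,0)]⟩),⟨0,[(0,0)]⟩,.k,.k,(.x (-1) ⟨7,[(8,3),(7,2),(0,2),
  (11,1)]⟩ ⟨0,[(31,0)]⟩),(.x (-1) ⟨7,[(8,3),(7,2),(0,2),(11,1)]⟩ ⟨0,[(31,0)]⟩),.k,.k,⟨false,1,⟨0,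
  [(1,0),(0,0),(15,0),(0,0),(5,0),(10,0)]⟩,⟨1,[(4,0),(5,0),(6,0),(3,0),(10,0)]⟩⟩,⟨true,0,⟨0,[(18,
  0)]⟩,⟨6,[(2,0),(1,0),(4,0),(9,6),(1,2),(2,1),(4,0)]⟩⟩,⟨true,0,⟨0,[(35,0)]⟩,⟨0,[(34,0)]⟩⟩,⟨false,0,
  ⟨0,[(2,0),(1,0),(0,0),(12,1),(0,0),(5,0),(6,0)]⟩,⟨3,[(1,1),(0,1),(13,0),(2,3),(1,1),(14,1),(0,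
  0)]⟩⟩,⟨false,0,⟨0,[]⟩,⟨0,[]⟩⟩,⟨false,0,⟨0,[]⟩,⟨0,[]⟩⟩,[.o ⟨false,0,⟨0,[(34,0)]⟩,⟨0,[(9,0),(27,
  0)]⟩⟩,.o ⟨false,1,⟨3,[(16,0),(0,0),(16,3),(2,1)]⟩,⟨0,[(6,0)]⟩⟩,.o ⟨false,1,⟨1,[(19,1),(9,0),(6,
  0)]⟩,⟨6,[(2,0),(1,0),(4,0),(8,6),(2,2),(2,1),(4,0)]⟩⟩,.a ⟨true,0,⟨0,[(19,0)]⟩,⟨0,[(18,0)]⟩⟩
  ⟨false,1,⟨7,[(1,5),(0,1),(12,1),(0,0),(8,5),(10,3),(0,2)]⟩,⟨0,[(2,0),(1,0),(0,0),(12,0),(0,0),(5,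
  0),(6,0)]⟩⟩ ⟨true,0,⟨0,[(18,0),(15,0)]⟩,⟨0,[(6,0),(12,0)]⟩⟩]⟩) (.I [1,-1,1,0,0,0,0,0,1] (.R ⟨1,
  false,false,true,[1,0,0,-1],[0,1],[0,0,0,-1,0,0,0,0,-1],(⟨0,[(19,0)]⟩,⟨0,[(20,0)]⟩),(⟨0,[(32,0)]⟩,
  ⟨0,[(31,0)]⟩),⟨0,[(1,0)]⟩,.k,.k,(.x (-1) ⟨7,[(9,3),(7,2),(0,2),(11,1)]⟩ ⟨0,[(32,0)]⟩),(.x (-1) ⟨7,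
  [(9,3),(7,2),(0,2),(11,1)]⟩ ⟨0,[(32,0)]⟩),(.r (-1) ⟨13,[(2,11),(0,3),(12,3),(0,0),(8,11),(6,1),(2,
  11),(0,12)]⟩ ⟨11,[(5,7),(9,7),(1,0),(0,6)]⟩),.k,⟨false,1,⟨0,[(2,0),(0,0),(15,0),(0,0),(5,0),(10,
  0)]⟩,⟨1,[(5,0),(5,0),(6,0),(3,0),(10,0)]⟩⟩,⟨true,0,⟨0,[(19,0)]⟩,⟨6,[(3,0),(1,0),(4,0),(9,6),(1,2),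
  (2,1),(4,0)]⟩⟩,⟨true,0,⟨0,[(36,0)]⟩,⟨0,[(35,0)]⟩⟩,⟨false,0,⟨3,[(0,1),(4,0),(5,0),(6,0),(0,3),(2,
  0),(10,0)]⟩,⟨3,[(2,1),(0,1),(13,0),(2,3),(1,1),(14,1),(0,0)]⟩⟩,⟨false,1,⟨3,[(17,0),(0,0),(19,1)]⟩,
  ⟨0,[]⟩⟩,⟨false,0,⟨0,[(0,0),(10,0),(7,0),(1,0)]⟩,⟨3,[(2,1),(0,1),(3,1),(9,0),(2,3),(5,1),(9,1),(0,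
  1),(0,0)]⟩⟩,[.o ⟨false,0,⟨0,[(35,0)]⟩,⟨0,[(10,0),(27,0)]⟩⟩,.o ⟨false,1,⟨3,[(17,0),(0,0),(16,3),(2,
  1)]⟩,⟨0,[(7,0)]⟩⟩,.o ⟨false,1,⟨1,[(20,1),(9,0),(6,0)]⟩,⟨6,[(3,0),(1,0),(4,0),(8,6),(2,2),(2,1),(4,
  0)]⟩⟩,.a ⟨true,0,⟨0,[(20,0)]⟩,⟨0,[(19,0)]⟩⟩ ⟨false,1,⟨7,[(2,5),(0,1),(12,1),(0,0),(8,5),(10,3),(0,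
  2)]⟩,⟨3,[(0,1),(4,0),(5,0),(6,0),(3,0),(10,0)]⟩⟩ ⟨true,0,⟨0,[(19,0),(15,0)]⟩,⟨0,[(7,0),(12,
  0)]⟩⟩]⟩) (.K ⟨0,[0,0,0,1],0,0,(⟨0,[(20,0)]⟩,⟨0,[(19,0)]⟩),.k,(.r (-1) ⟨1,[(18,0),(17,1),(0,0)]⟩
  ⟨2,[(0,0),(4,0),(9,0),(1,0),(16,0)]⟩),(.x 0 ⟨0,[(32,0)]⟩ ⟨7,[(9,3),(7,2),(0,2),(11,1)]⟩),.k,.k,
  [⟨0,[(20,0)]⟩,⟨0,[(19,0)]⟩,⟨0,[(0,0),(19,0)]⟩,⟨1,[(3,0),(1,0),(4,0),(7,0),(0,1),(6,0),(6,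
  0)]⟩]⟩))))) (.Q [0,1,0,1,0,0,-1,-1,0,0,1] (.p true [0,0,1] [] (⟨0,[(25,0)]⟩,⟨0,[(24,0)]⟩) .k 0
  (⟨0,[]⟩,⟨0,[]⟩) .k .k) (.K ⟨2,[0,-1,1],(-1),0,(⟨0,[(1,0)]⟩,⟨0,[(25,0),(3,0)]⟩),.k,(.x 1 ⟨1,[(1,1),
  (0,1),(1,1),(1,0),(6,0),(19,1)]⟩ ⟨1,[(23,1),(1,1),(1,0),(1,3),(4,2)]⟩),.k,.k,.k,[⟨0,[(33,0)]⟩,⟨0,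
  [(0,0)]⟩,⟨3,[(14,0),(0,0),(7,3),(10,1)]⟩,⟨1,[(2,1),(1,0),(8,0),(19,2)]⟩]⟩) (.Q [0,1,-1,0,0,0,0,0,
  -1,0,0,1] (.p true [0,0,0,1] [] (⟨0,[(17,0)]⟩,⟨0,[(16,0)]⟩) .k 0 (⟨0,[]⟩,⟨0,[]⟩) .k .k) (.K ⟨0,[0,
  0,0,1],0,0,(⟨0,[(18,0)]⟩,⟨0,[(17,0)]⟩),.k,(.r (-1) ⟨1,[(16,0),(17,1),(0,0)]⟩ ⟨4,[(0,0),(0,0),(1,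
  1),(5,0),(5,1),(1,0),(2,1)]⟩),(.x 0 ⟨0,[(30,0)]⟩ ⟨7,[(7,3),(7,2),(0,2),(11,1)]⟩),.k,.k,[⟨0,[(18,
  0)]⟩,⟨0,[(17,0)]⟩,⟨0,[(0,0)]⟩,⟨1,[(1,0),(1,0),(4,0),(7,0),(0,1),(2,0),(10,0)]⟩]⟩) (.Q [0,1,1,0,-1,
  0,0,0,1,0,0,-1] (.p false [0,0,0,1] [] (⟨0,[(18,0)]⟩,⟨0,[(17,0)]⟩) .k 0 (⟨0,[]⟩,⟨0,[]⟩) .k .k)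
  (.K ⟨0,[0,0,0,1],0,(-1),(⟨0,[(19,0)]⟩,⟨0,[(18,0)]⟩),.k,(.x 0 ⟨1,[(8,0),(12,0),(2,1),(0,0)]⟩ ⟨0,
  [(31,0),(4,0)]⟩),(.x 0 ⟨0,[(31,0)]⟩ ⟨7,[(8,3),(7,2),(0,2),(11,1)]⟩),.k,.k,[⟨0,[(19,0)]⟩,⟨0,[(18,
  0)]⟩,⟨7,[(16,4),(0,0),(1,7),(12,3),(3,1)]⟩,⟨0,[(0,0)]⟩]⟩) (.Q [0,1,1,-1,-1,0,0,0,1,0,0,-1] (.p
  false [0,0,0,1] [] (⟨0,[(19,0)]⟩,⟨0,[(18,0)]⟩) .k 0 (⟨0,[]⟩,⟨0,[]⟩) .k .k) (.R ⟨2,true,false,true,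
  [0,1],[0,0,0,1],[1,1,1,1],(⟨0,[]⟩,⟨0,[]⟩),(⟨0,[(20,0)]⟩,⟨0,[(19,0)]⟩),⟨0,[]⟩,.k,.k,.k,(.r 0 ⟨0,
  [(1,0),(1,0),(1,0),(13,0),(2,0),(10,0)]⟩ ⟨1,[(18,0),(17,1),(0,0)]⟩),.k,.k,⟨true,0,⟨0,[(1,0),(1,0),
  (1,0),(13,0),(2,0),(10,0)]⟩,⟨1,[(0,0),(5,0),(13,0),(15,0)]⟩⟩,⟨false,0,⟨25,[(0,7),(1,5),(0,1),(1,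
  3),(9,1),(1,6),(1,11),(2,1),(7,4)]⟩,⟨0,[(20,0),(16,0)]⟩⟩,⟨false,0,⟨0,[]⟩,⟨3,[(17,0),(0,0),(19,
  1)]⟩⟩,⟨true,(-1),⟨0,[(0,0)]⟩,⟨0,[(1,0),(33,0)]⟩⟩,⟨true,0,⟨0,[(35,0)]⟩,⟨0,[(36,0)]⟩⟩,⟨false,0,⟨17,
  [(0,5),(1,5),(2,1),(9,1),(1,0),(0,3),(0,5),(10,2)]⟩,⟨0,[(1,0)]⟩⟩,[]⟩) (.Q [0,0,0,0,0,-1,0,0,0,1,0,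
  -1] (.p false [0,0,0,1] [1] (⟨0,[(20,0)]⟩,⟨0,[(19,0)]⟩) .k 1 (⟨0,[]⟩,⟨0,[]⟩) .k .k) (.I [1,0,0,0,
  0,0,0,0,-1] (.R ⟨1,false,false,true,[1,0,0,-1],[0,1],[1,1,0,0,0,0,0,0,-1],(⟨0,[(21,0)]⟩,⟨0,[(22,
  0)]⟩),(⟨0,[(34,0)]⟩,⟨0,[(33,0)]⟩),⟨0,[(1,0)]⟩,.k,.k,(.x (-1) ⟨7,[(11,3),(7,2),(0,2),(11,1)]⟩ ⟨0,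
  [(34,0)]⟩),(.x (-1) ⟨7,[(11,3),(7,2),(0,2),(11,1)]⟩ ⟨0,[(34,0)]⟩),(.r (-1) ⟨0,[(0,0),(37,1),(0,
  0)]⟩ ⟨11,[(7,7),(9,7),(1,0),(0,6)]⟩),.k,⟨false,1,⟨0,[(0,0),(37,0),(0,0)]⟩,⟨3,[(4,1),(2,0),(5,0),
  (6,0),(1,1),(1,0),(10,0)]⟩⟩,⟨true,0,⟨0,[(21,0)]⟩,⟨4,[(5,0),(1,0),(4,0),(9,4),(1,1),(2,0),(4,0)]⟩⟩,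
  ⟨false,0,⟨0,[]⟩,⟨3,[(19,0),(0,0),(19,1)]⟩⟩,⟨false,0,⟨3,[(4,1),(2,0),(5,0),(6,0),(0,2),(0,0),(5,0),
  (6,0)]⟩,⟨0,[(3,0),(5,0)]⟩⟩,⟨true,0,⟨0,[(37,0)]⟩,⟨0,[(38,0)]⟩⟩,⟨false,0,⟨0,[(4,0),(8,0),(12,0)]⟩,
  ⟨0,[(3,0),(5,0),(28,0)]⟩⟩,[.o ⟨false,0,⟨0,[(37,0)]⟩,⟨0,[(12,0),(27,0)]⟩⟩,.o ⟨false,1,⟨3,[(19,0),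
  (0,0),(16,3),(2,1)]⟩,⟨0,[(9,0)]⟩⟩,.o ⟨false,1,⟨1,[(22,1),(9,0),(6,0)]⟩,⟨5,[(0,0),(3,2),(2,0),(4,
  2),(4,0),(1,0),(1,2)]⟩⟩,.a ⟨true,0,⟨0,[(22,0)]⟩,⟨0,[(21,0)]⟩⟩ ⟨false,1,⟨1,[(19,0),(19,0)]⟩,⟨0,[(4,
  0),(17,0)]⟩⟩ ⟨true,0,⟨0,[(21,0),(15,0)]⟩,⟨0,[(9,0),(12,0)]⟩⟩]⟩) (.R ⟨1,false,false,false,[1,0,0,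
  -1],[1,-1],[0,0,0,-1,0,0,0,0,-1],(⟨0,[(21,0)]⟩,⟨0,[(22,0)]⟩),(⟨0,[(33,0)]⟩,⟨0,[(34,0)]⟩),⟨0,[(1,
  0)]⟩,.k,.k,(.x (-1) ⟨7,[(11,3),(7,2),(0,2),(11,1)]⟩ ⟨0,[(34,0)]⟩),(.r 0 ⟨6,[(2,4),(2,7),(1,5),(2,
  0),(8,0),(1,4),(2,4),(3,2),(6,5)]⟩ ⟨1,[(20,0),(17,1),(0,0)]⟩),.k,.k,⟨true,0,⟨6,[(2,2),(2,8),(1,4),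
  (2,1),(8,1),(1,2),(2,2),(3,5),(6,4)]⟩,⟨0,[(0,0)]⟩⟩,⟨false,0,⟨17,[(4,5),(0,1),(1,3),(4,7),(4,1),(1,
  2),(1,11),(2,1),(7,0)]⟩,⟨0,[(22,0),(16,0)]⟩⟩,⟨true,0,⟨0,[(38,0)]⟩,⟨0,[(37,0)]⟩⟩,⟨false,0,⟨0,[(4,
  0),(33,0)]⟩,⟨15,[(2,11),(16,2),(0,0),(1,3),(12,3),(1,3)]⟩⟩,⟨false,1,⟨3,[(19,0),(0,0),(19,1)]⟩,⟨0,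
  []⟩⟩,⟨false,0,⟨0,[(4,0)]⟩,⟨11,[(3,7),(15,2),(0,0),(1,3),(12,3)]⟩⟩,[.o ⟨false,0,⟨0,[(9,0)]⟩,⟨3,
  [(19,0),(0,0),(16,3),(2,1)]⟩⟩,.o ⟨false,1,⟨0,[(12,0),(27,0)]⟩,⟨0,[(37,0)]⟩⟩,.o ⟨false,1,⟨1,[(22,
  1),(9,0),(6,0)]⟩,⟨17,[(4,5),(0,1),(1,3),(4,7),(4,1),(1,2),(1,11),(2,1),(7,0)]⟩⟩,.a ⟨true,0,⟨0,
  [(22,0)]⟩,⟨0,[(21,0)]⟩⟩ ⟨false,1,⟨0,[(3,0),(5,0),(11,0)]⟩,⟨2,[(0,0),(6,0),(9,0),(2,0)]⟩⟩ ⟨true,0,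
  ⟨0,[(9,0),(11,0)]⟩,⟨0,[(22,0),(14,0)]⟩⟩]⟩)) (.R ⟨0,false,false,true,[1,0,0,-1],[1,0,-1],[0,1,0,0,
  0,0,0,0,-1],(⟨0,[(20,0)]⟩,⟨0,[(21,0)]⟩),(⟨0,[(29,0)]⟩,⟨0,[(30,0)]⟩),⟨0,[(0,0)]⟩,.k,.k,(.x (-1) ⟨7,
  [(10,3),(7,2),(0,2),(11,1)]⟩ ⟨0,[(33,0)]⟩),.k,.k,.k,⟨false,1,⟨0,[(1,0),(2,0),(15,0),(2,0),(10,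
  0)]⟩,⟨2,[(3,1),(2,0),(0,0),(1,0),(11,1),(12,0)]⟩⟩,⟨true,0,⟨0,[(20,0),(2,0)]⟩,⟨0,[(14,0),(6,0)]⟩⟩,
  ⟨true,0,⟨0,[(41,0)]⟩,⟨0,[]⟩⟩,⟨false,0,⟨0,[(3,0),(21,0)]⟩,⟨2,[(1,1),(0,0),(1,0),(6,0),(5,0)]⟩⟩,
  ⟨false,0,⟨0,[]⟩,⟨0,[]⟩⟩,⟨false,0,⟨0,[]⟩,⟨0,[]⟩⟩,[.o ⟨false,0,⟨0,[(22,0)]⟩,⟨7,[(17,3),(0,0),(0,0),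
  (11,1),(7,3)]⟩⟩,.o ⟨false,1,⟨1,[(25,1),(5,0),(7,0)]⟩,⟨2,[(4,0),(3,0),(3,0),(11,0)]⟩⟩,.o ⟨false,1,
  ⟨1,[(21,1),(9,0),(6,0)]⟩,⟨17,[(3,5),(0,1),(1,3),(4,7),(4,1),(1,2),(1,11),(2,1),(7,0)]⟩⟩,.a ⟨true,
  0,⟨0,[(21,0)]⟩,⟨0,[(20,0)]⟩⟩ ⟨false,1,⟨1,[(18,0),(19,0)]⟩,⟨0,[(3,0),(17,0)]⟩⟩ ⟨true,0,⟨0,[(20,0),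
  (1,0)]⟩,⟨1,[(0,1),(9,0),(6,0)]⟩⟩]⟩))))))))))

theorem ok3 : chk (cU (-1) true 3) t3 l7 = true := by decide +kernel

noncomputable def l8 : List Con := (true, [0,0,1,1,0,0,0,2]) :: r7

noncomputable def r8 : List Con := (true, [1,0,-1,-1,0,0,0,-2]) :: r7

noncomputable def l9 : List Con := (false, [0,0,0,0,0,1,0,0,0,0,-1]) :: l8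

noncomputable def r9 : List Con := (false, [0,0,0,0,0,-1,0,0,0,0,1]) :: l8

noncomputable def t4 : Tre :=
  (.Q [0,1,0,1,0,0,-1,-1,0,1,1] (.p true [1,-1,1] [] (⟨0,[(23,0),(1,0)]⟩,⟨0,[(0,0)]⟩) .k 0 (⟨0,[]⟩,
  ⟨0,[]⟩) .k .k) (.Q [0,0,0,1,0,0,0,0,0,1] (.pp false [-1,1]) (.R ⟨0,false,false,true,[0,0,1],[1,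
  -1],[1,1,0,-1],(⟨0,[(25,0)]⟩,⟨0,[(24,0)]⟩),(⟨0,[(27,0)]⟩,⟨0,[(28,0)]⟩),⟨0,[(2,0)]⟩,.k,.k,.k,.k,.k,
  .k,⟨false,0,⟨0,[]⟩,⟨3,[(13,0),(0,0),(18,1)]⟩⟩,⟨true,0,⟨0,[(18,0)]⟩,⟨1,[(12,0),(2,0),(0,0),(6,
  1)]⟩⟩,⟨false,0,⟨0,[(23,0),(8,0)]⟩,⟨7,[(4,3),(8,0),(0,0),(18,3),(0,1)]⟩⟩,⟨true,0,⟨0,[(17,0),(14,
  0)]⟩,⟨0,[(8,0)]⟩⟩,⟨false,0,⟨0,[]⟩,⟨0,[]⟩⟩,⟨false,0,⟨0,[]⟩,⟨0,[]⟩⟩,[.o ⟨false,0,⟨0,[(6,0)]⟩,⟨2,[(1,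
  0),(5,0),(18,0),(7,1)]⟩⟩,.a ⟨true,0,⟨0,[(32,0)]⟩,⟨0,[(0,0)]⟩⟩ ⟨true,0,⟨0,[(32,0)]⟩,⟨13,[(1,1),(2,
  4),(2,0),(9,2),(3,3),(1,5)]⟩⟩ ⟨false,1,⟨0,[(18,0),(13,0),(0,0)]⟩,⟨0,[(0,0),(8,0)]⟩⟩,.o ⟨false,0,
  ⟨0,[(9,0)]⟩,⟨1,[(22,1),(3,0),(6,0)]⟩⟩,.o ⟨false,0,⟨0,[(21,0)]⟩,⟨0,[(18,0),(14,0)]⟩⟩]⟩) (.Q [0,0,2,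
  0,-1,0,1,0,0,-1,-1] (.p false [1,-1,1] [] (⟨0,[(25,0),(1,0)]⟩,⟨0,[(2,0)]⟩) .k 0 (⟨0,[]⟩,⟨0,[]⟩)
  .k .k) (.K ⟨2,[1,-1,1],(-1),0,(⟨0,[(26,0),(1,0)]⟩,⟨0,[(3,0)]⟩),.k,(.x 1 ⟨0,[(0,0),(5,0),(19,0)]⟩
  ⟨3,[(3,3),(10,0),(0,0),(7,3),(5,3),(4,5)]⟩),.k,.k,.k,[⟨0,[(1,0)]⟩,⟨0,[(2,0)]⟩,⟨11,[(2,7),(10,3),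
  (0,0),(0,0),(7,11),(9,7),(0,5),(0,3)]⟩,⟨0,[(0,0)]⟩]⟩) (.Q [0,0,2,0,-1,0,1,0,0,0,-1] (.p false [0,
  0,1] [] (⟨0,[(26,0)]⟩,⟨0,[(25,0)]⟩) .k 0 (⟨0,[]⟩,⟨0,[]⟩) .k .k) (.R ⟨1,false,false,false,[1,-1,1],
  [1,-1],[1,1,-1,-1,0,0,0,1],(⟨0,[(27,0),(1,0)]⟩,⟨0,[(4,0)]⟩),(⟨0,[(29,0)]⟩,⟨0,[(30,0)]⟩),⟨0,[(7,0),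
  (19,0)]⟩,.k,.k,(.r (-1) ⟨1,[(1,1),(0,2),(11,0),(19,0)]⟩ ⟨11,[(0,5),(2,7),(2,5),(2,1),(15,17),(2,
  4),(7,0)]⟩),.k,.k,.k,⟨true,0,⟨1,[(5,0),(25,0),(2,0)]⟩,⟨0,[(25,0),(6,0)]⟩⟩,⟨false,1,⟨2,[(1,1),(22,
  0),(3,0)]⟩,⟨0,[(11,0)]⟩⟩,⟨false,0,⟨0,[]⟩,⟨3,[(15,0),(0,0),(19,1)]⟩⟩,⟨false,1,⟨0,[(22,0),(13,0)]⟩,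
  ⟨2,[(2,1),(6,0),(4,0)]⟩⟩,⟨true,0,⟨0,[(33,0)]⟩,⟨0,[(34,0)]⟩⟩,⟨false,1,⟨1,[(1,0),(4,0),(12,0),(5,2),
  (10,0)]⟩,⟨1,[(2,0),(11,0),(19,0)]⟩⟩,[.o ⟨false,0,⟨0,[(2,0)]⟩,⟨11,[(3,3),(5,3),(5,2),(0,2),(11,3),
  (7,1)]⟩⟩,.o ⟨false,1,⟨0,[(8,0),(27,0)]⟩,⟨0,[(33,0)]⟩⟩,.o ⟨false,0,⟨1,[(0,0),(10,0),(16,0)]⟩,⟨2,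
  [(1,1),(22,0),(3,0)]⟩⟩,.a ⟨true,(-1),⟨0,[(0,0)]⟩,⟨0,[(1,0)]⟩⟩ ⟨false,1,⟨2,[(1,2),(0,4),(6,0),(4,
  0)]⟩,⟨2,[(0,1),(2,0),(2,0),(12,0),(5,2),(10,1)]⟩⟩ ⟨true,1,⟨0,[(1,0),(0,0)]⟩,⟨0,[(0,0),(32,
  0)]⟩⟩]⟩) (.Q [0,-1,0,-1,0,0,1,1,0,0,-1] (.p false [0,0,1] [] (⟨0,[(27,0)]⟩,⟨0,[(26,0)]⟩) .k 0 (⟨0,
  []⟩,⟨0,[]⟩) .k .k) (.R ⟨0,false,false,false,[0,0,1],[1,-1,1],[1,1],(⟨0,[(28,0)]⟩,⟨0,[(27,0)]⟩),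
  (⟨0,[(28,0),(1,0)]⟩,⟨0,[(5,0)]⟩),⟨0,[(5,0)]⟩,.k,.k,.k,.k,.k,.k,⟨false,0,⟨0,[(26,0),(7,0)]⟩,⟨2,[(0,
  2),(1,1),(22,0),(3,0)]⟩⟩,⟨true,0,⟨3,[(3,1),(3,0),(4,0),(7,1),(3,0),(8,0)]⟩,⟨0,[(0,0),(3,0)]⟩⟩,
  ⟨false,0,⟨0,[(26,0)]⟩,⟨17,[(0,5),(1,3),(3,5),(9,2),(0,2),(7,1),(3,1),(7,5)]⟩⟩,⟨true,0,⟨0,[(3,0)]⟩,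
  ⟨6,[(4,4),(5,0),(4,0),(6,1)]⟩⟩,⟨false,0,⟨0,[]⟩,⟨0,[]⟩⟩,⟨false,0,⟨0,[]⟩,⟨0,[]⟩⟩,[.o ⟨false,0,⟨2,
  [(0,0),(2,3),(6,0),(11,0)]⟩,⟨1,[(4,1),(24,0),(7,0)]⟩⟩,.a ⟨true,0,⟨0,[(0,0)]⟩,⟨0,[(4,0)]⟩⟩ ⟨true,0,
  ⟨0,[]⟩,⟨1,[(24,0),(0,0)]⟩⟩ ⟨false,1,⟨2,[(0,2),(0,1),(19,0),(7,0)]⟩,⟨0,[(4,0),(7,0)]⟩⟩,.o ⟨false,0,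
  ⟨0,[(12,0)]⟩,⟨2,[(2,0),(22,1),(3,1)]⟩⟩,.o ⟨false,0,⟨0,[(24,0)]⟩,⟨2,[(1,1),(19,0),(7,0)]⟩⟩]⟩) (.Q
  [0,1,-1,0,0,0,0,0,-1,0,0,1] (.p true [0,0,0,1] [] (⟨0,[(19,0)]⟩,⟨0,[(18,0)]⟩) .k 0 (⟨0,[]⟩,⟨0,
  []⟩) .k .k) (.Q [0,1,1,0,0,0,0,0,1,0,0,-1] (.p false [0,0,0,1] [] (⟨0,[(20,0)]⟩,⟨0,[(19,0)]⟩) .k
  0 (⟨0,[]⟩,⟨0,[]⟩) .k .k) (.K ⟨0,[0,0,0,1],0,0,(⟨0,[(21,0)]⟩,⟨0,[(20,0)]⟩),.k,(.r (-1) ⟨1,[(19,0),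
  (17,1),(0,0)]⟩ ⟨0,[(1,0),(3,0),(3,0),(10,0),(7,1)]⟩),(.x 0 ⟨0,[(33,0)]⟩ ⟨7,[(10,3),(7,2),(0,2),
  (11,1)]⟩),.k,.k,[⟨0,[(21,0)]⟩,⟨0,[(20,0)]⟩,⟨0,[(1,0)]⟩,⟨0,[(0,0)]⟩]⟩) (.Q [0,0,0,0,0,-1,0,0,0,1,0,
  -1] (.p false [0,0,0,1] [1] (⟨0,[(21,0)]⟩,⟨0,[(20,0)]⟩) .k 1 (⟨0,[]⟩,⟨0,[]⟩) .k .k) (.R ⟨1,false,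
  false,true,[1,0,0,-1],[1,0,-1],[0,1,0,-1,0,0,0,0,-1],(⟨0,[(21,0)]⟩,⟨0,[(22,0)]⟩),(⟨0,[(30,0)]⟩,⟨0,
  [(31,0)]⟩),⟨0,[(0,0)]⟩,.k,.k,(.x (-1) ⟨7,[(11,3),(7,2),(0,2),(11,1)]⟩ ⟨0,[(34,0)]⟩),.k,(.r 0 ⟨1,
  [(1,1),(4,1),(2,0),(11,1),(13,0),(2,0)]⟩ ⟨1,[(3,1),(16,0),(6,1),(12,0)]⟩),.k,⟨false,0,⟨1,[(1,1),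
  (4,1),(2,0),(11,1),(13,0),(2,0)]⟩,⟨5,[(7,1),(5,1),(6,2),(8,5),(2,1),(7,0)]⟩⟩,⟨true,0,⟨0,[(21,0),
  (2,0)]⟩,⟨0,[(15,0),(6,0)]⟩⟩,⟨false,0,⟨0,[(38,0)]⟩,⟨2,[(7,0),(5,0),(18,0),(7,1)]⟩⟩,⟨false,1,⟨1,
  [(20,0),(0,1),(1,1),(3,0),(0,0),(11,0)]⟩,⟨2,[(1,2),(4,1),(6,0),(4,0)]⟩⟩,⟨true,0,⟨2,[(7,0),(4,0),
  (12,0)]⟩,⟨0,[]⟩⟩,⟨false,1,⟨1,[(3,1),(16,0),(0,1),(10,0),(3,1)]⟩,⟨1,[(1,1),(4,0),(11,0),(19,0)]⟩⟩,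
  [.o ⟨false,0,⟨0,[(23,0)]⟩,⟨7,[(18,3),(0,0),(0,0),(11,1),(7,3)]⟩⟩,.o ⟨false,1,⟨1,[(26,1),(5,0),(7,
  0)]⟩,⟨2,[(6,1),(6,0),(4,0)]⟩⟩,.o ⟨false,1,⟨1,[(22,1),(9,0),(6,0)]⟩,⟨3,[(6,1),(3,0),(4,0),(5,3),(1,
  1),(3,0),(8,0)]⟩⟩,.a ⟨true,0,⟨0,[(22,0)]⟩,⟨0,[(21,0)]⟩⟩ ⟨false,0,⟨0,[(1,0),(10,0),(8,0)]⟩,⟨5,[(3,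
  1),(6,1),(9,2),(6,1),(1,1),(10,2)]⟩⟩ ⟨true,0,⟨0,[(21,0),(1,0)]⟩,⟨2,[(6,1),(6,0),(4,0),(3,2)]⟩⟩]⟩)
  (.R ⟨0,false,false,false,[1,0,0,-1],[0,1,1],[0,1,0,0,0,0,0,0,-1],(⟨0,[(21,0)]⟩,⟨0,[(22,0)]⟩),(⟨0,
  [(31,0),(2,0)]⟩,⟨0,[(16,0)]⟩),⟨0,[(0,0)]⟩,.k,.k,(.x (-1) ⟨7,[(11,3),(7,2),(0,2),(11,1)]⟩ ⟨0,[(34,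
  0)]⟩),(.r 0 ⟨0,[(1,0),(10,0),(8,0),(7,0)]⟩ ⟨3,[(17,3),(1,0),(0,2)]⟩),.k,.k,⟨false,0,⟨0,[(1,0),(4,
  0),(14,0),(7,0),(5,0)]⟩,⟨7,[(10,3),(8,0),(0,4),(19,1)]⟩⟩,⟨true,0,⟨0,[(15,0),(5,0)]⟩,⟨0,[(22,0),(1,
  0)]⟩⟩,⟨true,0,⟨2,[(7,0),(4,0),(12,0)]⟩,⟨0,[]⟩⟩,⟨false,1,⟨19,[(10,5),(2,3),(1,3),(2,1),(1,9),(0,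
  19),(5,7),(4,2),(7,6)]⟩,⟨0,[(1,0),(21,0),(14,0)]⟩⟩,⟨false,0,⟨0,[]⟩,⟨0,[]⟩⟩,⟨false,0,⟨0,[]⟩,⟨0,
  []⟩⟩,[.o ⟨false,0,⟨0,[(6,0),(6,0)]⟩,⟨0,[(12,0),(13,0),(13,0)]⟩⟩,.o ⟨false,1,⟨15,[(13,7),(4,3),(0,
  0),(0,0),(11,5),(7,7)]⟩,⟨0,[(23,0),(14,0)]⟩⟩,.o ⟨false,1,⟨1,[(22,1),(9,0),(6,0)]⟩,⟨3,[(6,1),(3,0),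
  (4,0),(5,3),(1,1),(3,0),(8,0)]⟩⟩,.a ⟨true,0,⟨0,[(22,0)]⟩,⟨0,[(21,0)]⟩⟩ ⟨false,0,⟨0,[(1,0),(4,0),
  (14,0),(15,0)]⟩,⟨1,[(20,0),(6,0),(0,0),(11,0)]⟩⟩ ⟨true,0,⟨0,[(6,0),(6,0),(7,0)]⟩,⟨0,[(22,0),(0,0),
  (14,0)]⟩⟩]⟩))) (.Q [0,0,0,0,0,-1,0,0,0,1,0,-1] (.p false [0,0,0,1] [1] (⟨0,[(20,0)]⟩,⟨0,[(19,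
  0)]⟩) .k 1 (⟨0,[]⟩,⟨0,[]⟩) .k .k) (.I [0,-1,-1,-1,1,0,0,1,-1] (.I [1,1,0,1,0,0,0,-1,1] (.R ⟨1,
  false,false,true,[1,0,0,-1],[1,0,-1],[0,0,0,-1,0,0,0,0,-1],(⟨0,[(22,0)]⟩,⟨0,[(23,0)]⟩),(⟨0,[(31,
  0)]⟩,⟨0,[(32,0)]⟩),⟨0,[(2,0)]⟩,.k,.k,(.x (-1) ⟨7,[(12,3),(7,2),(0,2),(11,1)]⟩ ⟨0,[(35,0)]⟩),.k,
  (.r (-1) ⟨5,[(1,3),(4,0),(6,1),(5,0),(0,0),(8,0),(6,0)]⟩ ⟨0,[(3,0),(0,0),(2,1),(4,0),(1,0),(8,0),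
  (6,0),(4,1)]⟩),.k,⟨false,1,⟨0,[(1,0)]⟩,⟨0,[(0,0)]⟩⟩,⟨true,0,⟨0,[(22,0),(2,0)]⟩,⟨0,[(16,0),(6,
  0)]⟩⟩,⟨true,0,⟨0,[(39,0)]⟩,⟨0,[(38,0)]⟩⟩,⟨false,0,⟨0,[(3,0),(23,0)]⟩,⟨0,[(1,0),(5,0),(6,0),(8,0),
  (6,0)]⟩⟩,⟨false,1,⟨3,[(20,0),(0,0),(19,1)]⟩,⟨0,[]⟩⟩,⟨false,0,⟨0,[(3,0),(0,0)]⟩,⟨0,[(1,0),(14,0),
  (6,0)]⟩⟩,[.o ⟨false,0,⟨0,[(24,0)]⟩,⟨7,[(19,3),(0,0),(0,0),(11,1),(7,3)]⟩⟩,.o ⟨false,1,⟨1,[(27,1),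
  (5,0),(7,0)]⟩,⟨2,[(7,1),(6,0),(4,0)]⟩⟩,.o ⟨false,1,⟨1,[(23,1),(9,0),(6,0)]⟩,⟨3,[(7,1),(3,0),(4,0),
  (5,3),(1,1),(3,0),(8,0)]⟩⟩,.a ⟨true,0,⟨0,[(23,0)]⟩,⟨0,[(22,0)]⟩⟩ ⟨false,1,⟨0,[(1,0),(28,0)]⟩,⟨13,
  [(0,7),(2,5),(6,1),(0,1),(11,5),(4,0),(0,0)]⟩⟩ ⟨true,0,⟨0,[(22,0),(1,0)]⟩,⟨2,[(7,1),(6,0),(4,0),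
  (3,2)]⟩⟩]⟩) (.R ⟨1,false,false,true,[1,0,0,-1],[1,0,-1],[0,1,0,0,0,0,0,-1],(⟨0,[(22,0)]⟩,⟨0,[(23,
  0)]⟩),(⟨0,[(31,0)]⟩,⟨0,[(32,0)]⟩),⟨0,[(2,0)]⟩,.k,.k,(.x (-1) ⟨7,[(12,3),(7,2),(0,2),(11,1)]⟩ ⟨0,
  [(35,0)]⟩),.k,(.r (-1) ⟨5,[(1,3),(4,0),(6,1),(5,0),(0,0),(8,0),(6,0)]⟩ ⟨0,[(3,0),(0,0),(11,0),(6,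
  0)]⟩),.k,⟨false,1,⟨3,[(20,0),(0,0),(18,1)]⟩,⟨0,[]⟩⟩,⟨true,0,⟨0,[(22,0),(2,0)]⟩,⟨0,[(16,0),(6,
  0)]⟩⟩,⟨true,0,⟨0,[(3,0),(19,0),(6,0),(5,0)]⟩,⟨0,[(0,0),(37,0)]⟩⟩,⟨false,0,⟨0,[(3,0),(23,0)]⟩,⟨5,
  [(0,3),(13,1),(1,3),(3,0),(2,5),(9,0),(6,2),(0,0)]⟩⟩,⟨false,1,⟨5,[(8,1),(5,1),(6,2),(8,5),(2,1),
  (7,0)]⟩,⟨0,[(0,0)]⟩⟩,⟨false,0,⟨0,[(3,0),(0,0)]⟩,⟨0,[(1,0),(14,0),(6,0)]⟩⟩,[.o ⟨false,0,⟨0,[(24,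
  0)]⟩,⟨7,[(19,3),(0,0),(0,0),(11,1),(7,3)]⟩⟩,.o ⟨false,1,⟨1,[(27,1),(5,0),(7,0)]⟩,⟨2,[(7,1),(6,0),
  (4,0)]⟩⟩,.o ⟨false,1,⟨1,[(23,1),(9,0),(6,0)]⟩,⟨10,[(0,2),(2,2),(7,1),(1,0),(2,2),(5,7),(1,6),(3,
  3)]⟩⟩,.a ⟨true,0,⟨0,[(23,0)]⟩,⟨0,[(22,0)]⟩⟩ ⟨false,1,⟨3,[(20,0),(0,0),(8,3),(9,1)]⟩,⟨2,[(0,0),(2,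
  0),(7,0),(11,0),(15,0)]⟩⟩ ⟨true,0,⟨0,[(22,0),(1,0)]⟩,⟨2,[(7,1),(6,0),(4,0),(3,2)]⟩⟩]⟩)) (.Q [0,1,
  1,0,-1,0,0,0,1,0,0,-1] (.p false [0,0,0,1] [] (⟨0,[(22,0)]⟩,⟨0,[(21,0)]⟩) .k 0 (⟨0,[]⟩,⟨0,[]⟩) .k
  .k) (.K ⟨0,[0,0,0,1],0,(-1),(⟨0,[(23,0)]⟩,⟨0,[(22,0)]⟩),.k,(.x 0 ⟨1,[(12,0),(12,0),(2,1),(0,0)]⟩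
  ⟨0,[(35,0),(4,0)]⟩),(.x 0 ⟨0,[(35,0)]⟩ ⟨7,[(12,3),(7,2),(0,2),(11,1)]⟩),.k,.k,[⟨0,[(23,0)]⟩,⟨0,
  [(22,0)]⟩,⟨7,[(20,4),(0,0),(1,7),(12,3),(3,1)]⟩,⟨0,[(0,0)]⟩]⟩) (.R ⟨1,false,false,true,[1,0,0,-1],
  [1,0,-1],[0,1,0,-1,0,0,0,0,-1],(⟨0,[(22,0)]⟩,⟨0,[(23,0)]⟩),(⟨0,[(31,0)]⟩,⟨0,[(32,0)]⟩),⟨0,[(2,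
  0)]⟩,.k,.k,(.x (-1) ⟨7,[(12,3),(7,2),(0,2),(11,1)]⟩ ⟨0,[(35,0)]⟩),.k,(.r (-1) ⟨1,[(0,1),(6,1),(2,
  0),(11,1),(13,0),(2,0)]⟩ ⟨7,[(1,5),(6,1),(12,0),(6,1),(4,0),(7,3)]⟩),.k,⟨false,1,⟨1,[(0,1),(6,1),
  (2,0),(11,1),(13,0),(2,0)]⟩,⟨1,[(1,1),(38,0),(0,0)]⟩⟩,⟨true,0,⟨0,[(22,0),(2,0)]⟩,⟨0,[(16,0),(6,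
  0)]⟩⟩,⟨false,0,⟨0,[(39,0)]⟩,⟨2,[(8,0),(5,0),(18,0),(7,1)]⟩⟩,⟨false,0,⟨0,[(3,0),(23,0)]⟩,⟨2,[(0,2),
  (6,1),(6,0),(4,0)]⟩⟩,⟨true,0,⟨2,[(8,0),(4,0),(12,0)]⟩,⟨0,[]⟩⟩,⟨false,0,⟨0,[(3,0),(0,0)]⟩,⟨1,[(0,
  1),(6,0),(11,0),(19,0)]⟩⟩,[.o ⟨false,0,⟨0,[(24,0)]⟩,⟨7,[(19,3),(0,0),(0,0),(11,1),(7,3)]⟩⟩,.o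
  ⟨false,1,⟨1,[(27,1),(5,0),(7,0)]⟩,⟨2,[(7,1),(6,0),(4,0)]⟩⟩,.o ⟨false,1,⟨1,[(23,1),(9,0),(6,0)]⟩,
  ⟨5,[(1,1),(1,1),(3,2),(3,0),(1,0),(6,1),(1,3)]⟩⟩,.a ⟨true,0,⟨0,[(23,0)]⟩,⟨0,[(22,0)]⟩⟩ ⟨false,1,
  ⟨1,[(20,0),(18,1),(0,0)]⟩,⟨1,[(1,0),(1,0),(1,0),(1,0),(6,0),(8,0),(13,1)]⟩⟩ ⟨true,0,⟨0,[(22,0),(1,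
  0)]⟩,⟨2,[(7,1),(6,0),(4,0),(3,2)]⟩⟩]⟩))) (.I [0,1,1,0,-1,0,0,0,1] (.Q [0,-1,-1,-1,1,0,1,1,-1,-1,
  -1,1] (.p false [1,-1,1] [0,0,0,1] (⟨0,[(31,0),(1,0)]⟩,⟨0,[(8,0)]⟩) .k 2 (⟨0,[(22,0)]⟩,⟨0,[(21,
  0)]⟩) .k (.r (-1) ⟨39,[(5,7),(3,15),(2,11),(5,3),(0,22),(0,2),(17,3),(1,5)]⟩ ⟨1,[(0,0),(1,0),(19,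
  0),(6,1),(9,0)]⟩)) (.I [0,0,-1,-1,0,0,0,0,1] (.I [1,1,1,1,-1,0,0,0,1] (.K ⟨0,[0,0,0,1],0,(-1),(⟨0,
  [(25,0)]⟩,⟨0,[(24,0)]⟩),.k,(.r 0 ⟨0,[(1,0)]⟩ ⟨15,[(10,7),(2,3),(8,8),(0,0),(6,7),(4,3),(7,1)]⟩),
  (.x 0 ⟨0,[(37,0)]⟩ ⟨7,[(14,3),(7,2),(0,2),(11,1)]⟩),.k,.k,[⟨0,[(25,0)]⟩,⟨0,[(24,0)]⟩,⟨7,[(2,3),(7,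
  3),(11,2),(0,0),(1,3),(12,3)]⟩,⟨0,[(0,0),(8,0),(14,0)]⟩]⟩) (.R ⟨0,false,false,false,[1,0,0,-1],[0,
  1,1],[0,1,0,0,0,0,0,0,-1],(⟨0,[(24,0)]⟩,⟨0,[(25,0)]⟩),(⟨0,[(34,0),(2,0)]⟩,⟨0,[(19,0)]⟩),⟨0,[(4,
  0)]⟩,.k,.k,(.x (-1) ⟨7,[(14,3),(7,2),(0,2),(11,1)]⟩ ⟨0,[(37,0)]⟩),(.r (-1) ⟨2,[(0,2),(28,0),(0,0),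
  (1,1),(5,0)]⟩ ⟨65,[(1,5),(1,25),(3,5),(5,29),(2,5),(6,16),(11,2),(2,1)]⟩),.k,.k,⟨false,1,⟨0,[(0,
  0),(31,0),(5,0)]⟩,⟨0,[(1,0),(11,0),(18,0)]⟩⟩,⟨true,0,⟨0,[(18,0),(5,0)]⟩,⟨0,[(25,0),(1,0)]⟩⟩,⟨true,
  0,⟨2,[(10,0),(4,0),(12,0)]⟩,⟨0,[]⟩⟩,⟨false,0,⟨0,[(5,0),(11,0)]⟩,⟨0,[(0,0),(24,0),(0,0)]⟩⟩,⟨false,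
  0,⟨0,[]⟩,⟨0,[]⟩⟩,⟨false,0,⟨0,[]⟩,⟨0,[]⟩⟩,[.o ⟨false,0,⟨0,[(9,0),(6,0)]⟩,⟨0,[(15,0),(13,0),(13,
  0)]⟩⟩,.o ⟨false,1,⟨15,[(16,7),(4,3),(0,0),(0,0),(11,5),(7,7)]⟩,⟨0,[(26,0),(14,0)]⟩⟩,.o ⟨false,1,
  ⟨1,[(25,1),(9,0),(6,0)]⟩,⟨4,[(3,0),(1,0),(3,1),(3,0),(4,1),(3,0),(1,3),(1,1),(12,0)]⟩⟩,.a ⟨true,0,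
  ⟨0,[(25,0)]⟩,⟨0,[(24,0)]⟩⟩ ⟨false,1,⟨1,[(22,0),(19,0)]⟩,⟨0,[(5,0),(19,0)]⟩⟩ ⟨true,0,⟨0,[(9,0),(6,
  0),(7,0)]⟩,⟨0,[(25,0),(0,0),(14,0)]⟩⟩]⟩)) (.R ⟨0,false,false,true,[1,0,0,-1],[0,0,1],[1,0,1],(⟨0,
  [(23,0)]⟩,⟨0,[(24,0)]⟩),(⟨0,[(33,0)]⟩,⟨0,[(32,0)]⟩),⟨0,[(3,0)]⟩,.k,.k,(.x (-1) ⟨7,[(13,3),(7,2),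
  (0,2),(11,1)]⟩ ⟨0,[(36,0)]⟩),.k,.k,.k,⟨true,0,⟨0,[(31,0),(6,0)]⟩,⟨1,[(11,0),(25,0),(2,0)]⟩⟩,
  ⟨false,0,⟨0,[(17,0),(5,0)]⟩,⟨2,[(6,1),(17,2),(1,0),(7,0)]⟩⟩,⟨false,0,⟨0,[(4,0),(19,0)]⟩,⟨1,[(21,
  0),(19,0)]⟩⟩,⟨true,(-1),⟨2,[(2,2),(5,1),(6,0),(4,0),(2,2)]⟩,⟨0,[(0,0),(5,0),(1,0),(15,0),(6,0)]⟩⟩,
  ⟨false,0,⟨0,[]⟩,⟨0,[]⟩⟩,⟨false,0,⟨0,[]⟩,⟨0,[]⟩⟩,[.o ⟨false,0,⟨0,[(27,0)]⟩,⟨0,[(25,0),(16,0)]⟩⟩,.o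
  ⟨false,0,⟨2,[(8,1),(6,0),(4,0)]⟩,⟨1,[(28,1),(5,0),(7,0)]⟩⟩,.o ⟨false,1,⟨1,[(24,1),(9,0),(6,0)]⟩,
  ⟨1,[(0,0),(3,0),(9,0),(8,0)]⟩⟩,.a ⟨true,0,⟨0,[(24,0)]⟩,⟨0,[(23,0)]⟩⟩ ⟨true,0,⟨0,[]⟩,⟨2,[(9,0),(4,
  0),(12,0)]⟩⟩ ⟨false,0,⟨2,[(8,1),(6,0),(4,0),(2,2)]⟩,⟨0,[(24,0),(0,0),(16,0)]⟩⟩]⟩)) (.K ⟨0,[0,0,0,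
  1],0,(-1),(⟨0,[(23,0)]⟩,⟨0,[(22,0)]⟩),.k,(.x 0 ⟨1,[(12,0),(12,0),(2,1),(0,0)]⟩ ⟨0,[(35,0),(4,
  0)]⟩),(.x 0 ⟨0,[(35,0)]⟩ ⟨7,[(12,3),(7,2),(0,2),(11,1)]⟩),.k,.k,[⟨0,[(23,0)]⟩,⟨0,[(22,0)]⟩,⟨7,
  [(20,4),(0,0),(1,7),(12,3),(3,1)]⟩,⟨2,[(0,2),(6,4),(6,0),(4,0)]⟩]⟩)) (.Q [0,1,-1,-2,0,0,0,0,-1,-1,
  0,1] (.p true [0,0,0,1] [1] (⟨0,[(22,0)]⟩,⟨0,[(21,0)]⟩) .k 1 (⟨0,[]⟩,⟨0,[]⟩) .k .k) (.R ⟨0,false,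
  false,true,[1,0,0,-1],[0,1],[0,1,0,0,0,0,0,0,-1],(⟨0,[(22,0)]⟩,⟨0,[(23,0)]⟩),(⟨0,[(35,0)]⟩,⟨0,
  [(34,0)]⟩),⟨0,[(2,0)]⟩,.k,.k,(.x (-1) ⟨7,[(12,3),(7,2),(0,2),(11,1)]⟩ ⟨0,[(35,0)]⟩),(.x (-1) ⟨7,
  [(12,3),(7,2),(0,2),(11,1)]⟩ ⟨0,[(35,0)]⟩),.k,.k,⟨false,1,⟨1,[(0,0),(0,0),(20,0),(17,0)]⟩,⟨0,[(3,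
  0),(19,0),(14,0)]⟩⟩,⟨true,0,⟨0,[(22,0)]⟩,⟨1,[(2,1),(9,0),(12,0),(2,0)]⟩⟩,⟨true,0,⟨2,[(8,0),(4,0),
  (12,0)]⟩,⟨0,[]⟩⟩,⟨false,0,⟨6,[(3,6),(4,4),(5,0),(4,0),(6,1)]⟩,⟨2,[(0,0),(0,1),(0,1),(4,0),(4,0),
  (28,0)]⟩⟩,⟨false,0,⟨0,[]⟩,⟨0,[]⟩⟩,⟨false,0,⟨0,[]⟩,⟨0,[]⟩⟩,[.o ⟨false,0,⟨0,[(38,0)]⟩,⟨0,[(13,0),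
  (27,0)]⟩⟩,.o ⟨false,1,⟨11,[(8,3),(5,3),(5,2),(0,2),(11,3),(7,1)]⟩,⟨0,[(7,0)]⟩⟩,.o ⟨false,1,⟨1,
  [(23,1),(9,0),(6,0)]⟩,⟨3,[(7,1),(3,0),(4,0),(5,3),(1,1),(3,0),(8,0)]⟩⟩,.a ⟨true,0,⟨0,[(23,0)]⟩,⟨0,
  [(22,0)]⟩⟩ ⟨false,1,⟨1,[(20,0),(19,0)]⟩,⟨0,[(3,0),(19,0)]⟩⟩ ⟨true,0,⟨0,[(22,0),(15,0)]⟩,⟨0,[(7,0),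
  (15,0)]⟩⟩]⟩) (.I [1,0,-2,-2,1,0,0,-1,-1] (.R ⟨0,false,false,false,[1,0,0,-1],[0,1,1],[1,0,0,-1,0,
  0,0,0,-1],(⟨0,[(23,0)]⟩,⟨0,[(24,0)]⟩),(⟨0,[(33,0),(2,0)]⟩,⟨0,[(18,0)]⟩),⟨0,[(3,0)]⟩,.k,.k,(.x
  (-1) ⟨7,[(13,3),(7,2),(0,2),(11,1)]⟩ ⟨0,[(36,0)]⟩),(.r (-1) ⟨9,[(0,5),(8,1),(11,1),(7,1),(1,1),(2,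
  0),(7,0)]⟩ ⟨3,[(1,0),(1,1),(0,2),(6,1),(1,0),(10,1),(12,1)]⟩),.k,.k,⟨false,1,⟨0,[(0,0)]⟩,⟨1,[(1,
  1),(1,1),(4,0),(2,0),(1,0),(23,0)]⟩⟩,⟨true,0,⟨0,[(17,0),(5,0)]⟩,⟨0,[(24,0),(1,0)]⟩⟩,⟨true,0,⟨0,
  [(40,0)]⟩,⟨0,[(39,0)]⟩⟩,⟨false,0,⟨1,[(1,0),(2,0),(15,0)]⟩,⟨1,[(0,0),(1,0),(21,1),(0,0),(0,0)]⟩⟩,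
  ⟨false,0,⟨0,[]⟩,⟨0,[]⟩⟩,⟨false,0,⟨0,[]⟩,⟨0,[]⟩⟩,[.o ⟨false,0,⟨0,[(8,0),(6,0)]⟩,⟨3,[(0,1),(21,0),
  (2,1),(4,1),(3,0),(3,1)]⟩⟩,.o ⟨false,1,⟨15,[(15,7),(4,3),(0,0),(0,0),(11,5),(7,7)]⟩,⟨0,[(25,0),
  (14,0)]⟩⟩,.o ⟨false,1,⟨1,[(24,1),(9,0),(6,0)]⟩,⟨3,[(8,1),(3,0),(4,0),(5,3),(1,1),(3,0),(8,0)]⟩⟩,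
  .a ⟨true,0,⟨0,[(24,0)]⟩,⟨0,[(23,0)]⟩⟩ ⟨false,1,⟨0,[(2,0),(37,0)]⟩,⟨0,[(4,0),(19,0),(14,0)]⟩⟩
  ⟨true,0,⟨0,[(8,0),(6,0),(7,0)]⟩,⟨0,[(24,0),(0,0),(14,0)]⟩⟩]⟩) (.R ⟨0,false,false,false,[1,0,0,-1],
  [0,1,1],[1,0,2,1,0,0,0,1],(⟨0,[(23,0)]⟩,⟨0,[(24,0)]⟩),(⟨0,[(33,0),(2,0)]⟩,⟨0,[(18,0)]⟩),⟨0,[(3,
  0)]⟩,.k,.k,(.x (-1) ⟨7,[(13,3),(7,2),(0,2),(11,1)]⟩ ⟨0,[(36,0)]⟩),(.r (-1) ⟨1,[(21,0),(9,1),(8,1),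
  (0,0)]⟩ ⟨2,[(0,0),(10,0),(10,0)]⟩),.k,.k,⟨false,0,⟨0,[]⟩,⟨3,[(21,0),(0,0),(18,1)]⟩⟩,⟨true,0,⟨0,
  [(17,0),(5,0)]⟩,⟨0,[(24,0),(1,0)]⟩⟩,⟨true,(-1),⟨0,[(0,0),(39,0)]⟩,⟨0,[(2,0),(28,0),(5,0),(2,0)]⟩⟩,
  ⟨false,0,⟨1,[(1,0),(2,0),(15,0)]⟩,⟨0,[(2,0),(21,0),(0,0),(14,0)]⟩⟩,⟨false,0,⟨0,[]⟩,⟨0,[]⟩⟩,⟨false,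
  0,⟨0,[]⟩,⟨0,[]⟩⟩,[.o ⟨false,0,⟨0,[(8,0),(6,0)]⟩,⟨0,[(14,0),(13,0),(13,0)]⟩⟩,.o ⟨false,1,⟨15,[(15,
  7),(4,3),(0,0),(0,0),(11,5),(7,7)]⟩,⟨0,[(25,0),(14,0)]⟩⟩,.o ⟨false,1,⟨1,[(24,1),(9,0),(6,0)]⟩,⟨3,
  [(0,0),(3,0),(3,1),(12,0),(1,2),(1,0),(3,0)]⟩⟩,.a ⟨true,0,⟨0,[(24,0)]⟩,⟨0,[(23,0)]⟩⟩ ⟨false,0,⟨0,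
  [(0,0),(1,0),(37,0)]⟩,⟨3,[(21,0),(0,0),(8,3),(8,3),(0,1)]⟩⟩ ⟨true,0,⟨0,[(8,0),(6,0),(7,0)]⟩,⟨0,
  [(24,0),(0,0),(14,0)]⟩⟩]⟩)))))))))) (.Q [0,1,0,-2,0,0,-2,-2,0,-1,2] (.p true [0,0,1] [1,0,-1] (⟨0,
  [(24,0)]⟩,⟨0,[(23,0)]⟩) .k 2 (⟨0,[(23,0)]⟩,⟨0,[(24,0)]⟩) .k (.r (-1) ⟨3,[(2,3),(9,0),(0,0),(17,3),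
  (0,1)]⟩ ⟨0,[(22,1)]⟩)) (.I [0,0,0,-1,0,0,0,1] (.R ⟨2,true,false,false,[0,1],[0,0,1],[1,0,1,1],(⟨0,
  []⟩,⟨0,[]⟩),(⟨0,[(26,0)]⟩,⟨0,[(25,0)]⟩),⟨0,[]⟩,.k,.k,.k,.k,.k,.k,⟨true,0,⟨4,[(5,1),(15,0),(0,0),
  (1,7),(7,0)]⟩,⟨0,[(0,0)]⟩⟩,⟨false,0,⟨0,[(10,0)]⟩,⟨0,[(23,0),(10,0)]⟩⟩,⟨true,0,⟨0,[]⟩,⟨0,[(37,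
  0)]⟩⟩,⟨false,0,⟨0,[(2,0),(13,0),(0,0)]⟩,⟨0,[(21,0),(10,0),(2,0)]⟩⟩,⟨false,1,⟨0,[(32,0),(2,0)]⟩,⟨0,
  [(33,0)]⟩⟩,⟨true,0,⟨6,[(2,1),(5,0),(4,0),(6,1)]⟩,⟨0,[(21,0)]⟩⟩,[]⟩) (.R ⟨1,true,false,false,[1,0,
  -1],[0,1,1],[1,0,0,0,0,0,0,-1],(⟨0,[(25,0)]⟩,⟨0,[(26,0)]⟩),(⟨0,[(26,0),(2,0)]⟩,⟨0,[(11,0)]⟩),⟨0,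
  [(11,0)]⟩,.k,.k,.k,(.r (-1) ⟨7,[(1,3),(11,3),(0,0),(0,0),(8,15),(9,3),(0,1)]⟩ ⟨0,[(4,0)]⟩),(.r
  (-1) ⟨0,[(24,1),(8,1),(0,0)]⟩ ⟨0,[(12,1)]⟩),.k,⟨false,1,⟨0,[(24,1),(8,0),(0,0)]⟩,⟨0,[(4,0)]⟩⟩,
  ⟨true,0,⟨0,[(0,1),(1,1),(13,2),(0,2),(12,0)]⟩,⟨0,[(1,0),(3,0)]⟩⟩,⟨true,0,⟨0,[]⟩,⟨0,[(37,0)]⟩⟩,
  ⟨false,0,⟨0,[(2,0),(5,0),(7,0),(0,0)]⟩,⟨3,[(1,1),(19,3),(5,0),(7,2)]⟩⟩,⟨false,1,⟨15,[(0,7),(4,3),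
  (8,2),(0,2),(18,3),(0,5)]⟩,⟨0,[(33,0)]⟩⟩,⟨true,0,⟨6,[(2,1),(5,7),(4,0),(6,1)]⟩,⟨0,[(1,0)]⟩⟩,[]⟩))
  (.I [0,0,0,-1,0,0,0,1] (.R ⟨2,true,false,false,[0,1],[0,0,1],[1,0,1,1],(⟨0,[]⟩,⟨0,[]⟩),(⟨0,[(26,
  0)]⟩,⟨0,[(25,0)]⟩),⟨0,[]⟩,.k,.k,.k,.k,.k,.k,⟨true,0,⟨4,[(5,1),(15,0),(0,0),(1,7),(7,0)]⟩,⟨0,[(0,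
  0)]⟩⟩,⟨false,0,⟨0,[(10,0)]⟩,⟨0,[(23,0),(10,0)]⟩⟩,⟨true,0,⟨0,[]⟩,⟨0,[(37,0)]⟩⟩,⟨false,0,⟨0,[(2,0),
  (13,0),(0,0)]⟩,⟨0,[(21,0),(10,0),(2,0)]⟩⟩,⟨false,1,⟨0,[(32,0),(2,0)]⟩,⟨0,[(33,0)]⟩⟩,⟨true,0,⟨8,
  [(1,0),(0,1),(10,0),(6,2)]⟩,⟨0,[(21,0)]⟩⟩,[]⟩) (.I [1,1,1,0,-1,0,0,0,-1] (.Q [0,1,1,0,0,0,0,0,1,0,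
  0,-1] (.p false [0,0,0,1] [] (⟨0,[(18,0)]⟩,⟨0,[(17,0)]⟩) .k 0 (⟨0,[]⟩,⟨0,[]⟩) .k .k) (.K ⟨0,[0,0,
  0,1],0,0,(⟨0,[(19,0)]⟩,⟨0,[(18,0)]⟩),.k,(.r (-1) ⟨1,[(17,0),(17,1),(0,0)]⟩ ⟨23,[(1,7),(0,11),(4,
  5),(8,7),(7,0),(0,0),(7,1)]⟩),(.x 0 ⟨0,[(31,0)]⟩ ⟨7,[(8,3),(7,2),(0,2),(11,1)]⟩),.k,.k,[⟨0,[(19,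
  0)]⟩,⟨0,[(18,0)]⟩,⟨0,[(1,0),(17,0),(16,0)]⟩,⟨0,[(0,0)]⟩]⟩) (.R ⟨2,false,false,true,[0,1],[0,0,0,
  1],[],(⟨0,[]⟩,⟨0,[]⟩),(⟨0,[(19,0)]⟩,⟨0,[(18,0)]⟩),⟨0,[]⟩,.k,.k,.k,(.r 0 ⟨23,[(1,7),(0,11),(4,5),
  (8,7),(7,0),(0,0),(7,1)]⟩ ⟨1,[(17,0),(17,1),(0,0)]⟩),.k,.k,⟨true,0,⟨13,[(0,7),(0,3),(0,3),(1,3),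
  (11,0),(1,7),(2,3),(15,2)]⟩,⟨0,[(1,0),(15,0)]⟩⟩,⟨false,0,⟨10,[(2,0),(1,2),(2,0),(10,10),(1,3),(0,
  3),(2,4)]⟩,⟨0,[(19,0),(16,0)]⟩⟩,⟨false,1,⟨1,[(35,1),(0,0),(0,0)]⟩,⟨2,[(2,0),(4,0),(15,0),(0,0)]⟩⟩,
  ⟨true,0,⟨1,[(1,1),(2,0),(12,1),(0,1),(1,0),(14,0)]⟩,⟨0,[(0,0),(33,0)]⟩⟩,⟨false,1,⟨1,[(36,0),(0,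
  0)]⟩,⟨1,[(24,0),(0,0)]⟩⟩,⟨false,1,⟨1,[(17,0),(0,1),(5,0),(0,0),(3,0)]⟩,⟨0,[(0,0)]⟩⟩,[.a ⟨true,0,
  ⟨0,[(1,0),(15,0),(0,0)]⟩,⟨0,[(0,0)]⟩⟩ ⟨false,1,⟨3,[(16,0),(0,0),(18,1)]⟩,⟨0,[]⟩⟩ ⟨true,0,⟨10,[(1,
  10),(0,0),(1,2),(2,0),(9,10),(0,10),(1,3),(0,3),(2,4)]⟩,⟨0,[(0,0)]⟩⟩,.o ⟨false,1,⟨1,[(17,0),(0,1),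
  (5,0),(0,0),(3,0)]⟩,⟨9,[(0,8),(0,0),(2,3),(14,0),(0,3),(8,0),(2,1),(1,3)]⟩⟩,.o ⟨false,1,⟨3,[(16,
  0),(0,0),(18,1)]⟩,⟨10,[(2,0),(1,2),(2,0),(12,3),(0,3),(2,4)]⟩⟩,.e ⟨false,1,⟨1,[(36,0),(0,0)]⟩,⟨1,
  [(24,0),(0,0)]⟩⟩ ⟨false,1,⟨1,[(17,0),(0,1),(5,0),(0,0),(3,0)]⟩,⟨0,[(0,0)]⟩⟩]⟩)) (.Q [0,-1,1,0,0,0,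
  0,0,1,0,0,-1] (.p false [0,0,0,1] [] (⟨0,[(18,0)]⟩,⟨0,[(17,0)]⟩) .k 0 (⟨0,[]⟩,⟨0,[]⟩) .k .k) (.Q
  [0,0,0,0,0,1,0,0,0,-1,0,1] (.p true [0,0,0,1] [1] (⟨0,[(19,0)]⟩,⟨0,[(18,0)]⟩) .k 1 (⟨0,[]⟩,⟨0,
  []⟩) .k .k) (.Q [0,1,1,0,-1,0,0,0,1,0,0,-1] (.p false [0,0,0,1] [] (⟨0,[(20,0)]⟩,⟨0,[(19,0)]⟩) .k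
  0 (⟨0,[]⟩,⟨0,[]⟩) .k .k) (.K ⟨0,[0,0,0,1],0,(-1),(⟨0,[(21,0)]⟩,⟨0,[(20,0)]⟩),.k,(.x 0 ⟨1,[(10,0),
  (12,0),(2,1),(0,0)]⟩ ⟨0,[(33,0),(4,0)]⟩),(.x 0 ⟨0,[(33,0)]⟩ ⟨7,[(10,3),(7,2),(0,2),(11,1)]⟩),.k,
  .k,[⟨0,[(21,0)]⟩,⟨0,[(20,0)]⟩,⟨7,[(18,4),(0,0),(1,7),(12,3),(3,1)]⟩,⟨0,[(0,0)]⟩]⟩) (.Q [0,1,1,0,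
  -1,0,1,1,1,1,-1,-1] (.p false [0,0,1] [1,0,0,-1] (⟨0,[(30,0)]⟩,⟨0,[(29,0)]⟩) .k 2 (⟨0,[(20,0)]⟩,
  ⟨0,[(21,0)]⟩) .k (.x 0 ⟨0,[(26,0),(3,0)]⟩ ⟨0,[(23,0),(5,0),(8,0)]⟩)) (.R ⟨0,false,false,true,[1,0,
  0,-1],[0,0,1],[1,0,1],(⟨0,[(21,0)]⟩,⟨0,[(22,0)]⟩),(⟨0,[(31,0)]⟩,⟨0,[(30,0)]⟩),⟨0,[(2,0)]⟩,.k,.k,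
  (.x (-1) ⟨7,[(11,3),(7,2),(0,2),(11,1)]⟩ ⟨0,[(34,0)]⟩),.k,.k,.k,⟨true,0,⟨0,[(29,0),(6,0)]⟩,⟨1,[(9,
  0),(25,0),(2,0)]⟩⟩,⟨false,0,⟨0,[(15,0),(5,0)]⟩,⟨0,[(22,0),(1,0),(14,0)]⟩⟩,⟨false,0,⟨0,[(3,0),(18,
  0)]⟩,⟨1,[(19,0),(19,0)]⟩⟩,⟨true,(-1),⟨0,[(0,0)]⟩,⟨0,[(1,0),(21,0)]⟩⟩,⟨false,0,⟨0,[]⟩,⟨0,[]⟩⟩,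
  ⟨false,0,⟨0,[]⟩,⟨0,[]⟩⟩,[.o ⟨false,0,⟨0,[(25,0)]⟩,⟨0,[(23,0),(16,0)]⟩⟩,.o ⟨false,0,⟨8,[(6,0),(0,
  1),(10,0),(6,2)]⟩,⟨1,[(26,1),(5,0),(7,0)]⟩⟩,.o ⟨false,1,⟨1,[(22,1),(9,0),(6,0)]⟩,⟨5,[(0,1),(2,1),
  (1,0),(1,0),(11,1),(1,1),(1,1),(0,0),(11,0)]⟩⟩,.a ⟨true,0,⟨0,[(22,0)]⟩,⟨0,[(21,0)]⟩⟩ ⟨true,0,⟨0,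
  []⟩,⟨0,[(42,0)]⟩⟩ ⟨false,0,⟨8,[(6,0),(0,1),(10,0),(2,8),(3,2)]⟩,⟨0,[(22,0),(0,0),(16,0)]⟩⟩]⟩) (.R
  ⟨0,false,false,true,[1,0,0,-1],[0,1],[0,1,0,0,0,0,0,0,-1],(⟨0,[(21,0)]⟩,⟨0,[(22,0)]⟩),(⟨0,[(34,
  0)]⟩,⟨0,[(33,0)]⟩),⟨0,[(2,0)]⟩,.k,.k,(.x (-1) ⟨7,[(11,3),(7,2),(0,2),(11,1)]⟩ ⟨0,[(34,0)]⟩),(.x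
  (-1) ⟨7,[(11,3),(7,2),(0,2),(11,1)]⟩ ⟨0,[(34,0)]⟩),.k,.k,⟨false,1,⟨0,[(0,0),(6,0),(13,1),(0,0),
  (12,0)]⟩,⟨0,[(3,0),(18,0),(14,0)]⟩⟩,⟨true,0,⟨0,[(21,0)]⟩,⟨1,[(2,1),(8,0),(12,0),(2,0)]⟩⟩,⟨true,0,
  ⟨0,[(42,0)]⟩,⟨0,[]⟩⟩,⟨false,0,⟨0,[(3,0),(10,0),(11,0)]⟩,⟨2,[(0,0),(0,1),(5,0),(4,0),(25,0)]⟩⟩,
  ⟨false,0,⟨0,[]⟩,⟨0,[]⟩⟩,⟨false,0,⟨0,[]⟩,⟨0,[]⟩⟩,[.o ⟨false,0,⟨0,[(37,0)]⟩,⟨0,[(12,0),(27,0)]⟩⟩,.o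
  ⟨false,1,⟨4,[(5,1),(4,0),(8,1),(0,1),(16,0),(1,0)]⟩,⟨1,[(7,0),(15,0),(14,0)]⟩⟩,.o ⟨false,1,⟨1,
  [(22,1),(9,0),(6,0)]⟩,⟨10,[(5,0),(1,2),(2,0),(10,10),(1,3),(0,3),(2,4)]⟩⟩,.a ⟨true,0,⟨0,[(22,0)]⟩,
  ⟨0,[(21,0)]⟩⟩ ⟨false,1,⟨1,[(19,0),(19,0)]⟩,⟨0,[(3,0),(18,0)]⟩⟩ ⟨true,0,⟨0,[(21,0),(15,0)]⟩,⟨1,[(7,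
  0),(14,1),(0,0),(14,0)]⟩⟩]⟩))) (.I [1,0,-2,-1,1,0,0,0,-1] (.R ⟨1,false,false,true,[1,0,0,-1],[0,
  1],[1,1,0,0,0,0,0,0,-1],(⟨0,[(20,0)]⟩,⟨0,[(21,0)]⟩),(⟨0,[(33,0)]⟩,⟨0,[(32,0)]⟩),⟨0,[(1,0)]⟩,.k,.k,
  (.x (-1) ⟨7,[(10,3),(7,2),(0,2),(11,1)]⟩ ⟨0,[(33,0)]⟩),(.x (-1) ⟨7,[(10,3),(7,2),(0,2),(11,1)]⟩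
  ⟨0,[(33,0)]⟩),(.r (-1) ⟨0,[(0,0),(36,0)]⟩ ⟨2,[(2,2),(1,0),(4,0),(11,2),(3,0),(0,0),(9,2)]⟩),.k,
  ⟨false,1,⟨0,[(0,0)]⟩,⟨0,[(2,0),(18,0),(14,0)]⟩⟩,⟨true,0,⟨0,[(20,0)]⟩,⟨10,[(4,0),(1,2),(2,0),(11,
  10),(0,3),(0,3),(2,4)]⟩⟩,⟨false,0,⟨0,[]⟩,⟨3,[(18,0),(0,0),(19,1)]⟩⟩,⟨false,0,⟨0,[(2,0),(10,0),(11,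
  0)]⟩,⟨1,[(0,1),(3,0),(1,0),(14,1),(1,0),(11,0)]⟩⟩,⟨true,0,⟨0,[(36,0)]⟩,⟨0,[(37,0)]⟩⟩,⟨false,0,⟨0,
  [(2,0),(9,0),(12,0)]⟩,⟨1,[(0,1),(5,0),(14,1),(0,0),(12,1),(1,0)]⟩⟩,[.o ⟨false,0,⟨0,[(36,0)]⟩,⟨0,
  [(11,0),(27,0)]⟩⟩,.o ⟨false,1,⟨4,[(4,1),(4,0),(8,1),(0,1),(16,0),(1,0)]⟩,⟨1,[(6,0),(15,0),(14,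
  0)]⟩⟩,.o ⟨false,1,⟨1,[(21,1),(9,0),(6,0)]⟩,⟨10,[(4,0),(1,2),(2,0),(10,10),(1,3),(0,3),(2,4)]⟩⟩,.a
  ⟨true,0,⟨0,[(21,0)]⟩,⟨0,[(20,0)]⟩⟩ ⟨false,1,⟨1,[(18,0),(19,0)]⟩,⟨0,[(2,0),(18,0)]⟩⟩ ⟨true,0,⟨0,
  [(20,0),(15,0)]⟩,⟨1,[(6,0),(14,1),(0,0),(14,0)]⟩⟩]⟩) (.Q [0,1,2,1,-2,0,0,0,2,1,0,-2] (.p false [0,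
  0,0,1] [1,0,0,-1] (⟨0,[(21,0)]⟩,⟨0,[(20,0)]⟩) .k 2 (⟨0,[(20,0)]⟩,⟨0,[(21,0)]⟩) .k (.r 0 ⟨0,[(0,1),
  (36,1),(0,1)]⟩ ⟨0,[(18,0)]⟩)) (.I [0,1,-1,-1,0,0,0,1,1] (.R ⟨1,false,false,true,[1,0,0,-1],[1,-1,
  1],[1,0,0,0,0,0,0,0,-1],(⟨0,[(22,0)]⟩,⟨0,[(23,0)]⟩),(⟨0,[(32,0),(1,0)]⟩,⟨0,[(9,0)]⟩),⟨0,[(3,0)]⟩,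
  .k,.k,(.x (-1) ⟨7,[(12,3),(7,2),(0,2),(11,1)]⟩ ⟨0,[(35,0)]⟩),(.x (-2) ⟨3,[(9,3),(10,0),(0,0),(7,
  3),(10,5)]⟩ ⟨3,[(1,3),(4,0),(1,4),(3,1),(7,3),(2,7),(0,0),(5,2),(1,3)]⟩),.k,.k,⟨false,1,⟨1,[(6,1),
  (13,0),(20,0)]⟩,⟨0,[(0,0)]⟩⟩,⟨true,(-1),⟨0,[(1,0),(6,0),(11,0),(2,0),(6,0)]⟩,⟨0,[(23,0),(5,0),(10,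
  0)]⟩⟩,⟨true,0,⟨0,[]⟩,⟨0,[(43,0)]⟩⟩,⟨false,(-1),⟨9,[(1,4),(6,5),(4,0),(5,1),(19,7)]⟩,⟨1,[(6,1),(13,
  0),(2,1),(5,1),(10,1),(0,0)]⟩⟩,⟨false,1,⟨15,[(6,7),(4,3),(8,2),(0,2),(18,3),(0,5)]⟩,⟨0,[(39,0)]⟩⟩,
  ⟨false,(-1),⟨17,[(1,8),(5,0),(0,10),(10,0),(6,2)]⟩,⟨1,[(20,0),(2,1),(3,1),(12,0),(0,1)]⟩⟩,[.o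
  ⟨false,0,⟨2,[(8,0),(4,1),(12,1)]⟩,⟨1,[(6,1),(22,1),(10,0),(0,0)]⟩⟩,.o ⟨false,0,⟨2,[(8,1),(4,0),
  (12,0)]⟩,⟨15,[(6,7),(4,3),(8,2),(0,2),(5,15),(12,3),(0,5)]⟩⟩,.o ⟨false,1,⟨1,[(23,1),(9,0),(6,0)]⟩,
  ⟨3,[(1,0),(2,1),(8,0),(6,1)]⟩⟩,.a ⟨true,0,⟨0,[(23,0)]⟩,⟨0,[(22,0)]⟩⟩ ⟨true,1,⟨1,[(20,0),(19,0)]⟩,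
  ⟨1,[(1,0),(11,0),(9,1)]⟩⟩ ⟨false,0,⟨2,[(8,1),(4,0),(8,2),(3,0)]⟩,⟨1,[(6,1),(16,1),(5,1),(10,0),(0,
  0)]⟩⟩]⟩) (.K ⟨0,[0,0,0,1],0,(-1),(⟨0,[(23,0)]⟩,⟨0,[(22,0)]⟩),.k,(.r (-1) ⟨1,[(21,0),(17,1),(0,
  0)]⟩ ⟨1,[(0,1),(9,0),(25,0),(2,0)]⟩),(.x 0 ⟨0,[(35,0)]⟩ ⟨7,[(12,3),(7,2),(0,2),(11,1)]⟩),.k,.k,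
  [⟨0,[(23,0)]⟩,⟨0,[(22,0)]⟩,⟨7,[(20,4),(0,0),(1,7),(12,3),(3,1)]⟩,⟨1,[(1,0),(11,0)]⟩]⟩)) (.I [0,0,
  -1,-1,1,0,0,1,-1] (.R ⟨1,false,false,true,[1,0,0,-1],[1,0,-1],[0,1,0,-1,0,0,0,0,-1],(⟨0,[(22,0)]⟩,
  ⟨0,[(23,0)]⟩),(⟨0,[(31,0)]⟩,⟨0,[(32,0)]⟩),⟨0,[(3,0)]⟩,.k,.k,(.x (-1) ⟨7,[(12,3),(7,2),(0,2),(11,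
  1)]⟩ ⟨0,[(35,0)]⟩),.k,(.r (-1) ⟨0,[(0,0)]⟩ ⟨9,[(2,3),(3,5),(14,2),(5,1),(0,1),(1,1),(10,0)]⟩),.k,
  ⟨false,1,⟨0,[(0,0)]⟩,⟨0,[(2,0),(27,0),(9,0)]⟩⟩,⟨true,0,⟨0,[(22,0),(2,0)]⟩,⟨0,[(16,0),(6,0)]⟩⟩,
  ⟨false,0,⟨0,[(39,0)]⟩,⟨15,[(6,7),(4,3),(8,2),(0,2),(18,3),(0,5)]⟩⟩,⟨false,0,⟨0,[(4,0),(22,0)]⟩,⟨1,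
  [(1,0),(5,0),(31,0)]⟩⟩,⟨true,0,⟨0,[(43,0)]⟩,⟨0,[]⟩⟩,⟨false,0,⟨1,[(2,0),(1,0),(1,0),(15,0),(1,0),
  (4,0),(10,0)]⟩,⟨1,[(1,0),(5,0),(31,2)]⟩⟩,[.o ⟨false,0,⟨0,[(24,0)]⟩,⟨7,[(19,3),(0,0),(0,0),(11,1),
  (7,3)]⟩⟩,.o ⟨false,1,⟨1,[(27,1),(5,0),(7,0)]⟩,⟨8,[(7,0),(0,1),(10,0),(6,2)]⟩⟩,.o ⟨false,1,⟨1,[(23,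
  1),(9,0),(6,0)]⟩,⟨9,[(2,3),(1,1),(3,1),(4,1),(6,2),(1,7),(1,1),(8,0)]⟩⟩,.a ⟨true,0,⟨0,[(23,0)]⟩,
  ⟨0,[(22,0)]⟩⟩ ⟨false,1,⟨1,[(1,0),(11,0),(8,1)]⟩,⟨1,[(2,1),(37,0),(0,0)]⟩⟩ ⟨true,0,⟨0,[(22,0),(1,
  0)]⟩,⟨8,[(7,0),(0,1),(10,0),(3,8),(2,2)]⟩⟩]⟩) (.Q [0,0,2,0,-1,0,0,0,0,1,0,-1] (.p false [0,0,0,1]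
  [1] (⟨0,[(23,0)]⟩,⟨0,[(22,0)]⟩) .k 1 (⟨0,[]⟩,⟨0,[]⟩) .k .k) (.K ⟨0,[0,0,0,1],0,(-1),(⟨0,[(24,0)]⟩,
  ⟨0,[(23,0)]⟩),.k,(.x 0 ⟨1,[(13,0),(12,0),(2,1),(0,0)]⟩ ⟨0,[(36,0),(4,0)]⟩),(.x 0 ⟨0,[(36,0)]⟩ ⟨7,
  [(13,3),(7,2),(0,2),(11,1)]⟩),.k,.k,[⟨0,[(24,0)]⟩,⟨0,[(23,0)]⟩,⟨7,[(2,1),(13,1),(4,2),(0,0),(1,3),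
  (3,1),(8,3)]⟩,⟨3,[(1,3),(7,1),(1,0),(11,3),(2,1),(10,2),(2,2)]⟩]⟩) (.R ⟨1,false,false,false,[1,0,
  0,-1],[0,0,0,1],[1,0,0,0,0,0,0,0,-1],(⟨0,[(23,0)]⟩,⟨0,[(24,0)]⟩),(⟨0,[(24,0)]⟩,⟨0,[(23,0)]⟩),⟨0,
  [(4,0)]⟩,.k,.k,(.x (-1) ⟨7,[(13,3),(7,2),(0,2),(11,1)]⟩ ⟨0,[(36,0)]⟩),.k,(.r (-2) ⟨3,[(2,1),(11,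
  1),(6,2),(0,0),(0,3)]⟩ ⟨0,[(1,1),(9,0),(28,1),(0,0)]⟩),.k,⟨true,1,⟨0,[(21,0)]⟩,⟨0,[(1,1),(9,0),
  (28,2),(0,0)]⟩⟩,⟨false,0,⟨9,[(3,3),(1,1),(3,1),(4,1),(6,2),(1,17),(1,1),(8,0)]⟩,⟨0,[(0,0),(23,
  0)]⟩⟩,⟨true,0,⟨0,[]⟩,⟨0,[(44,0)]⟩⟩,⟨false,(-1),⟨1,[(1,2),(3,0),(3,0),(1,0),(11,2),(6,0),(9,2),(0,
  0)]⟩,⟨0,[(2,0),(36,0)]⟩⟩,⟨false,1,⟨15,[(7,7),(4,3),(8,2),(0,2),(18,3),(0,5)]⟩,⟨0,[(40,0)]⟩⟩,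
  ⟨false,(-1),⟨1,[(1,2),(3,0),(3,0),(1,0),(11,2),(6,0),(9,0),(0,0)]⟩,⟨0,[(2,0),(41,0)]⟩⟩,[.o ⟨false,
  0,⟨0,[(5,0),(38,0)]⟩,⟨5,[(2,2),(5,0),(0,0),(15,2),(13,1)]⟩⟩,.o ⟨false,0,⟨0,[(5,0)]⟩,⟨1,[(2,0),(11,
  0),(24,1)]⟩⟩,.o ⟨false,1,⟨7,[(0,2),(1,0),(19,0),(1,2),(9,1),(4,0)]⟩,⟨9,[(3,3),(1,1),(3,1),(4,1),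
  (6,2),(1,7),(1,1),(8,0)]⟩⟩,.a ⟨true,0,⟨0,[(24,0)]⟩,⟨0,[(23,0)]⟩⟩ ⟨true,1,⟨1,[(21,0),(19,0)]⟩,⟨1,
  [(1,1),(9,0),(25,0),(2,2)]⟩⟩ ⟨false,0,⟨0,[(5,0),(17,0)]⟩,⟨5,[(2,2),(5,0),(0,0),(14,5),(0,2),(13,
  1)]⟩⟩]⟩)))))) (.Q [0,1,1,0,0,0,0,0,1,0,0,-1] (.p false [0,0,0,1] [] (⟨0,[(19,0)]⟩,⟨0,[(18,0)]⟩)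
  .k 0 (⟨0,[]⟩,⟨0,[]⟩) .k .k) (.K ⟨0,[0,0,0,1],0,0,(⟨0,[(20,0)]⟩,⟨0,[(19,0)]⟩),.k,(.r (-1) ⟨1,[(18,
  0),(17,1),(0,0)]⟩ ⟨15,[(1,15),(1,12),(1,4),(2,3),(10,15),(2,10),(2,5),(8,6)]⟩),(.x 0 ⟨0,[(32,0)]⟩
  ⟨7,[(9,3),(7,2),(0,2),(11,1)]⟩),.k,.k,[⟨0,[(20,0)]⟩,⟨0,[(19,0)]⟩,⟨0,[(1,0)]⟩,⟨0,[(0,0)]⟩]⟩) (.Q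
  [0,0,0,0,0,1,0,0,0,-1,0,1] (.p true [0,0,0,1] [1] (⟨0,[(20,0)]⟩,⟨0,[(19,0)]⟩) .k 1 (⟨0,[]⟩,⟨0,
  []⟩) .k .k) (.R ⟨0,false,false,true,[1,0,0,-1],[1,0,-1],[0,1,0,0,0,0,0,0,-1],(⟨0,[(20,0)]⟩,⟨0,
  [(21,0)]⟩),(⟨0,[(29,0)]⟩,⟨0,[(30,0)]⟩),⟨0,[(0,0)]⟩,.k,.k,(.x (-1) ⟨7,[(10,3),(7,2),(0,2),(11,1)]⟩
  ⟨0,[(33,0)]⟩),.k,.k,.k,⟨false,0,⟨1,[(1,1),(4,0),(1,0),(11,1),(1,0),(11,0)]⟩,⟨3,[(18,0),(0,2),(8,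
  3)]⟩⟩,⟨true,0,⟨0,[(20,0),(2,0)]⟩,⟨0,[(14,0),(6,0)]⟩⟩,⟨true,0,⟨0,[(41,0)]⟩,⟨0,[]⟩⟩,⟨false,1,⟨1,
  [(19,0),(0,1),(1,1),(3,0),(0,0),(11,0)]⟩,⟨11,[(1,8),(0,2),(2,1),(0,3),(10,1)]⟩⟩,⟨false,0,⟨0,[]⟩,
  ⟨0,[]⟩⟩,⟨false,0,⟨0,[]⟩,⟨0,[]⟩⟩,[.o ⟨false,0,⟨0,[(22,0)]⟩,⟨7,[(17,3),(0,0),(0,0),(11,1),(7,3)]⟩⟩,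
  .o ⟨false,1,⟨1,[(25,1),(5,0),(7,0)]⟩,⟨8,[(5,0),(0,1),(10,0),(6,2)]⟩⟩,.o ⟨false,1,⟨1,[(1,0),(0,0),
  (16,0),(11,0)]⟩,⟨10,[(4,0),(1,2),(2,0),(10,10),(1,3),(0,3),(2,4)]⟩⟩,.a ⟨true,0,⟨0,[(21,0)]⟩,⟨0,
  [(20,0)]⟩⟩ ⟨false,0,⟨4,[(1,2),(0,1),(2,0),(0,1),(13,4),(1,3)]⟩,⟨1,[(19,0),(6,0),(0,0),(11,0)]⟩⟩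
  ⟨true,0,⟨0,[(20,0),(1,0)]⟩,⟨8,[(5,0),(0,1),(10,0),(3,8),(2,2)]⟩⟩]⟩) (.R ⟨1,false,false,true,[1,0,
  0,-1],[1,0,-1],[0,1,0,-1,0,0,0,0,-1],(⟨0,[(20,0)]⟩,⟨0,[(21,0)]⟩),(⟨0,[(29,0)]⟩,⟨0,[(30,0)]⟩),⟨0,
  [(0,0)]⟩,.k,.k,(.x (-1) ⟨7,[(10,3),(7,2),(0,2),(11,1)]⟩ ⟨0,[(33,0)]⟩),.k,(.r 0 ⟨3,[(1,3),(4,1),(1,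
  0),(11,3),(2,1),(10,2),(2,2)]⟩ ⟨3,[(4,3),(13,0),(0,2),(6,1),(0,1)]⟩),.k,⟨false,0,⟨3,[(1,3),(4,1),
  (1,0),(11,3),(2,1),(10,2),(2,2)]⟩,⟨3,[(4,3),(13,0),(0,2)]⟩⟩,⟨true,0,⟨0,[(20,0),(2,0)]⟩,⟨0,[(14,0),
  (6,0)]⟩⟩,⟨false,0,⟨0,[(37,0)]⟩,⟨15,[(4,7),(4,3),(8,2),(0,2),(18,3),(0,5)]⟩⟩,⟨false,1,⟨1,[(19,0),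
  (0,1),(1,1),(3,0),(0,0),(11,0)]⟩,⟨11,[(1,8),(0,2),(2,1),(0,3),(10,1)]⟩⟩,⟨true,0,⟨0,[(41,0)]⟩,⟨0,
  []⟩⟩,⟨false,1,⟨1,[(4,1),(14,0),(0,1),(6,1),(3,0)]⟩,⟨5,[(1,4),(0,0),(3,1),(10,1),(19,3)]⟩⟩,[.o
  ⟨false,0,⟨0,[(22,0)]⟩,⟨7,[(17,3),(0,0),(0,0),(11,1),(7,3)]⟩⟩,.o ⟨false,1,⟨1,[(25,1),(5,0),(7,0)]⟩,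
  ⟨8,[(5,0),(0,1),(10,0),(6,2)]⟩⟩,.o ⟨false,1,⟨1,[(1,0),(0,0),(16,0),(11,0)]⟩,⟨10,[(4,0),(1,2),(2,
  0),(10,10),(1,3),(0,3),(2,4)]⟩⟩,.a ⟨true,0,⟨0,[(21,0)]⟩,⟨0,[(20,0)]⟩⟩ ⟨false,0,⟨0,[(1,0),(9,0),(8,
  0)]⟩,⟨15,[(4,7),(4,3),(8,0),(0,8),(6,3),(0,3),(11,5)]⟩⟩ ⟨true,0,⟨0,[(20,0),(1,0)]⟩,⟨8,[(5,0),(0,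
  1),(10,0),(3,8),(2,2)]⟩⟩]⟩))))))))

theorem ok4 : chk (cU (-1) true 3) t4 l9 = true := by decide +kernel

noncomputable def t5 : Tre :=
  (.I [0,0,0,-1,0,0,0,1] (.Q [0,-1,0,-1,0,0,1,1,0,1,-1] (.p false [0,0,1] [1] (⟨0,[(24,0)]⟩,⟨0,[(23,
  0)]⟩) .k 1 (⟨0,[]⟩,⟨0,[]⟩) .k .k) (.R ⟨2,true,false,true,[0,1],[1,1,-1],[0,1,1],(⟨0,[]⟩,⟨0,[]⟩),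
  (⟨0,[(24,0),(3,0)]⟩,⟨0,[(2,0)]⟩),⟨0,[]⟩,.k,.k,.k,.k,.k,.k,⟨true,0,⟨0,[(1,0)]⟩,⟨4,[(4,1),(15,0),(0,
  0),(1,7),(7,0)]⟩⟩,⟨false,1,⟨0,[(18,0),(14,0)]⟩,⟨5,[(0,2),(7,2),(11,0),(0,0),(1,4),(5,0)]⟩⟩,⟨false,
  0,⟨0,[(32,0)]⟩,⟨0,[(31,0),(2,0)]⟩⟩,⟨true,0,⟨0,[(17,0)]⟩,⟨2,[(0,0),(7,0),(3,0),(7,0)]⟩⟩,⟨true,0,⟨0,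
  [(36,0)]⟩,⟨0,[]⟩⟩,⟨false,1,⟨0,[(17,0),(13,0),(2,0)]⟩,⟨0,[(0,0)]⟩⟩,[]⟩) (.Q [0,0,-1,0,1,0,-2,-1,0,
  -1,2] (.p true [0,0,1] [1,0,-1] (⟨0,[(25,0)]⟩,⟨0,[(24,0)]⟩) .k 2 (⟨0,[(24,0)]⟩,⟨0,[(25,0)]⟩) .k
  (.r (-1) ⟨2,[(1,1),(1,1),(9,0),(0,0),(18,0)]⟩ ⟨0,[(23,1)]⟩)) (.Q [0,0,0,1,0,0,0,0,0,1] (.pp false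
  [-1,1]) (.R ⟨1,false,false,false,[0,0,1],[1,-1],[0,1],(⟨0,[(27,0)]⟩,⟨0,[(26,0)]⟩),(⟨0,[(29,0)]⟩,
  ⟨0,[(30,0)]⟩),⟨0,[(4,0)]⟩,.k,.k,.k,.k,.k,.k,⟨false,0,⟨0,[(33,0)]⟩,⟨1,[(34,1),(0,0),(0,0)]⟩⟩,⟨true,
  0,⟨0,[(20,0)]⟩,⟨1,[(14,0),(2,0),(0,0),(6,1)]⟩⟩,⟨false,0,⟨0,[(25,0)]⟩,⟨5,[(3,1),(1,1),(9,0),(0,0),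
  (18,0),(0,2)]⟩⟩,⟨false,1,⟨0,[(19,0),(14,0),(1,0)]⟩,⟨0,[(10,0)]⟩⟩,⟨true,0,⟨0,[(25,0),(7,0)]⟩,⟨0,
  [(3,0)]⟩⟩,⟨false,1,⟨0,[(19,0),(16,0)]⟩,⟨1,[(14,0),(2,0),(0,0)]⟩⟩,[.a ⟨true,0,⟨0,[(34,0)]⟩,⟨0,[(0,
  0)]⟩⟩ ⟨true,0,⟨0,[(38,0)]⟩,⟨0,[(32,0)]⟩⟩ ⟨false,1,⟨3,[(1,1),(1,1),(4,1),(26,0),(0,0)]⟩,⟨0,[(0,0),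
  (10,0)]⟩⟩,.o ⟨false,1,⟨0,[(8,0),(27,0)]⟩,⟨0,[(33,0)]⟩⟩,.o ⟨false,0,⟨0,[(11,0)]⟩,⟨31,[(1,11),(1,3),
  (1,3),(9,4),(0,4),(7,7),(3,9)]⟩⟩,.o ⟨false,0,⟨0,[(23,0)]⟩,⟨0,[(20,0),(14,0)]⟩⟩]⟩) (.Q [0,0,2,0,-1,
  0,1,0,0,0,-1] (.p false [0,0,1] [] (⟨0,[(27,0)]⟩,⟨0,[(26,0)]⟩) .k 0 (⟨0,[]⟩,⟨0,[]⟩) .k .k) (.K ⟨2,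
  [0,-1,1],(-1),0,(⟨0,[(5,0)]⟩,⟨0,[(27,0),(3,0)]⟩),.k,(.r (-1) ⟨0,[(4,0),(30,0),(0,0)]⟩ ⟨10,[(3,1),
  (3,7),(2,1),(12,5),(0,5),(1,20)]⟩),.k,.k,.k,[⟨0,[(35,0)]⟩,⟨0,[(3,0),(14,0),(0,0)]⟩,⟨3,[(16,0),(0,
  0),(7,3),(10,1)]⟩,⟨0,[(0,0)]⟩]⟩) (.Q [0,0,2,0,-1,0,1,0,0,1,-1] (.p false [0,0,1] [1] (⟨0,[(28,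
  0)]⟩,⟨0,[(27,0)]⟩) .k 1 (⟨0,[]⟩,⟨0,[]⟩) .k .k) (.K ⟨0,[1,1,-1],1,0,(⟨0,[(28,0),(3,0)]⟩,⟨0,[(6,
  0)]⟩),.k,.k,(.r 0 ⟨5,[(0,5),(3,7),(6,1),(5,0),(0,0),(19,3)]⟩ ⟨0,[(5,0),(30,0),(0,0)]⟩),.k,.k,[⟨0,
  [(0,0)]⟩,⟨0,[(1,0)]⟩,⟨7,[(0,4),(0,2),(3,1),(10,2),(0,0),(0,0),(14,3),(2,5)]⟩,⟨0,[(4,0)]⟩]⟩) (.Q
  [0,1,-1,0,0,0,0,0,-1,0,0,1] (.p true [0,0,0,1] [] (⟨0,[(20,0)]⟩,⟨0,[(19,0)]⟩) .k 0 (⟨0,[]⟩,⟨0,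
  []⟩) .k .k) (.Q [0,-1,-1,-1,0,0,0,0,-1,-1,0,1] (.p true [0,0,0,1] [1] (⟨0,[(21,0)]⟩,⟨0,[(20,0)]⟩)
  .k 1 (⟨0,[]⟩,⟨0,[]⟩) .k .k) (.Q [0,0,0,0,0,1,0,0,0,-1,0,1] (.p true [0,0,0,1] [1] (⟨0,[(22,0)]⟩,
  ⟨0,[(21,0)]⟩) .k 1 (⟨0,[]⟩,⟨0,[]⟩) .k .k) (.R ⟨0,false,false,true,[1,0,0,-1],[1,0,-1],[0,1,0,0,0,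
  0,0,0,-1],(⟨0,[(22,0)]⟩,⟨0,[(23,0)]⟩),(⟨0,[(31,0)]⟩,⟨0,[(32,0)]⟩),⟨0,[(0,0)]⟩,.k,.k,(.x (-1) ⟨7,
  [(12,3),(7,2),(0,2),(11,1)]⟩ ⟨0,[(35,0)]⟩),.k,.k,.k,⟨false,0,⟨2,[(1,2),(5,0),(0,0),(1,0),(3,0),(7,
  2),(13,0)]⟩,⟨3,[(20,0),(0,2),(8,3)]⟩⟩,⟨true,0,⟨0,[(22,0),(2,0)]⟩,⟨0,[(16,0),(6,0)]⟩⟩,⟨true,0,⟨0,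
  [(43,0)]⟩,⟨0,[]⟩⟩,⟨false,1,⟨1,[(21,0),(0,1),(1,1),(3,0),(0,0),(11,0)]⟩,⟨0,[(1,0),(13,0)]⟩⟩,⟨false,
  0,⟨0,[]⟩,⟨0,[]⟩⟩,⟨false,0,⟨0,[]⟩,⟨0,[]⟩⟩,[.o ⟨false,0,⟨0,[(24,0)]⟩,⟨7,[(19,3),(0,0),(0,0),(11,1),
  (7,3)]⟩⟩,.o ⟨false,1,⟨0,[(6,0),(21,0)]⟩,⟨2,[(5,1),(8,0),(4,0)]⟩⟩,.o ⟨false,1,⟨1,[(23,1),(9,0),(6,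
  0)]⟩,⟨6,[(5,3),(1,1),(3,0),(10,6),(2,0),(2,2),(8,0)]⟩⟩,.a ⟨true,0,⟨0,[(23,0)]⟩,⟨0,[(22,0)]⟩⟩
  ⟨false,0,⟨4,[(1,3),(0,0),(4,1),(6,0),(7,4),(3,0)]⟩,⟨1,[(21,0),(6,0),(0,0),(11,0)]⟩⟩ ⟨true,0,⟨0,
  [(22,0),(1,0)]⟩,⟨1,[(0,1),(11,0),(6,0)]⟩⟩]⟩) (.R ⟨1,false,false,true,[1,0,0,-1],[1,0,-1],[0,1,0,
  -1,0,0,0,0,-1],(⟨0,[(22,0)]⟩,⟨0,[(23,0)]⟩),(⟨0,[(31,0)]⟩,⟨0,[(32,0)]⟩),⟨0,[(0,0)]⟩,.k,.k,(.x (-1)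
  ⟨7,[(12,3),(7,2),(0,2),(11,1)]⟩ ⟨0,[(35,0)]⟩),.k,(.r 0 ⟨8,[(1,7),(0,0),(5,2),(1,2),(2,0),(8,8),
  (13,2)]⟩ ⟨21,[(7,5),(3,1),(2,5),(6,10),(5,17),(0,17),(1,7),(10,10)]⟩),.k,⟨false,0,⟨8,[(1,7),(0,0),
  (5,2),(1,2),(2,0),(8,8),(13,2)]⟩,⟨5,[(7,1),(6,1),(5,0),(0,3),(8,5),(10,0)]⟩⟩,⟨true,0,⟨0,[(22,0),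
  (2,0)]⟩,⟨0,[(16,0),(6,0)]⟩⟩,⟨false,0,⟨0,[(39,0)]⟩,⟨5,[(7,1),(6,1),(5,0),(0,0),(19,3)]⟩⟩,⟨false,1,
  ⟨1,[(21,0),(0,1),(1,1),(3,0),(0,0),(11,0)]⟩,⟨0,[(1,0),(13,0)]⟩⟩,⟨true,0,⟨0,[(43,0)]⟩,⟨0,[]⟩⟩,
  ⟨false,1,⟨1,[(7,1),(13,0),(0,1),(5,0),(0,0),(11,0)]⟩,⟨1,[(1,1),(17,0),(2,0),(0,0)]⟩⟩,[.o ⟨false,0,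
  ⟨0,[(24,0)]⟩,⟨7,[(19,3),(0,0),(0,0),(11,1),(7,3)]⟩⟩,.o ⟨false,1,⟨0,[(6,0),(21,0)]⟩,⟨2,[(5,1),(8,
  0),(4,0)]⟩⟩,.o ⟨false,1,⟨1,[(23,1),(9,0),(6,0)]⟩,⟨6,[(5,3),(1,1),(3,0),(10,6),(2,0),(2,2),(8,
  0)]⟩⟩,.a ⟨true,0,⟨0,[(23,0)]⟩,⟨0,[(22,0)]⟩⟩ ⟨false,0,⟨2,[(1,1),(0,0),(10,0),(8,2)]⟩,⟨21,[(7,1),(3,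
  7),(2,1),(6,10),(5,5),(0,5),(1,9),(10,10)]⟩⟩ ⟨true,0,⟨0,[(22,0),(1,0)]⟩,⟨2,[(5,1),(8,0),(4,0),(3,
  2)]⟩⟩]⟩)) (.K ⟨0,[0,0,0,1],0,0,(⟨0,[(22,0)]⟩,⟨0,[(21,0)]⟩),.k,(.r (-1) ⟨1,[(20,0),(17,1),(0,0)]⟩
  ⟨2,[(1,2),(2,0),(1,1),(3,0),(4,1),(5,2),(14,3)]⟩),(.x 0 ⟨0,[(34,0)]⟩ ⟨7,[(11,3),(7,2),(0,2),(11,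
  1)]⟩),.k,.k,[⟨0,[(22,0)]⟩,⟨0,[(21,0)]⟩,⟨0,[(1,0)]⟩,⟨0,[(0,0),(3,0)]⟩]⟩)) (.Q [0,0,-1,1,1,0,-1,-1,
  -1,-1,1,1] (.p true [0,0,1] [1,0,0,-1] (⟨0,[(30,0)]⟩,⟨0,[(29,0)]⟩) .k 2 (⟨0,[(20,0)]⟩,⟨0,[(21,
  0)]⟩) .k (.x 0 ⟨0,[(26,0),(3,0)]⟩ ⟨39,[(1,15),(2,11),(1,3),(1,3),(9,2),(0,2),(9,39),(1,5)]⟩)) (.Q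
  [0,0,0,0,0,-1,0,0,0,1,0,-1] (.p false [0,0,0,1] [1] (⟨0,[(22,0)]⟩,⟨0,[(21,0)]⟩) .k 1 (⟨0,[]⟩,⟨0,
  []⟩) .k .k) (.I [1,-1,-1,0,1,0,0,0,-1] (.I [0,0,-2,-2,1,0,0,-1,-1] (.R ⟨1,false,false,false,[1,0,
  0,-1],[0,1,1],[0,0,0,-1,0,0,0,0,-1],(⟨0,[(24,0)]⟩,⟨0,[(25,0)]⟩),(⟨0,[(34,0),(2,0)]⟩,⟨0,[(19,0)]⟩),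
  ⟨0,[(2,0)]⟩,.k,.k,(.x (-1) ⟨7,[(14,3),(7,2),(0,2),(11,1)]⟩ ⟨0,[(37,0)]⟩),(.r (-1) ⟨7,[(0,3),(21,
  2),(0,0),(8,3)]⟩ ⟨2,[(4,2),(4,0),(0,0),(1,0),(3,0),(8,2),(12,0)]⟩),(.r (-1) ⟨0,[(0,0)]⟩ ⟨0,[(4,0),
  (15,0),(4,0),(14,0)]⟩),.k,⟨false,1,⟨0,[(0,0)]⟩,⟨0,[(4,0),(4,0),(0,0),(5,0),(8,0)]⟩⟩,⟨true,0,⟨0,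
  [(18,0),(5,0)]⟩,⟨0,[(25,0),(1,0)]⟩⟩,⟨true,0,⟨0,[(41,0)]⟩,⟨0,[(40,0)]⟩⟩,⟨false,0,⟨0,[(4,0),(12,
  0)]⟩,⟨2,[(0,1),(2,0),(21,1),(1,1)]⟩⟩,⟨false,1,⟨3,[(22,0),(0,0),(19,1)]⟩,⟨0,[]⟩⟩,⟨false,0,⟨0,[(4,
  0),(11,0)]⟩,⟨0,[(0,0),(24,0),(1,0)]⟩⟩,[.o ⟨false,0,⟨0,[(7,0),(8,0)]⟩,⟨3,[(0,1),(22,0),(2,1),(4,1),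
  (3,0),(3,1)]⟩⟩,.o ⟨false,1,⟨15,[(16,7),(4,3),(0,0),(0,0),(11,5),(7,7)]⟩,⟨0,[(26,0),(14,0)]⟩⟩,.o
  ⟨false,1,⟨1,[(25,1),(9,0),(6,0)]⟩,⟨6,[(7,3),(1,1),(3,0),(10,6),(2,0),(2,2),(8,0)]⟩⟩,.a ⟨true,0,⟨0,
  [(25,0)]⟩,⟨0,[(24,0)]⟩⟩ ⟨false,1,⟨2,[(0,0),(0,1),(8,0),(28,0)]⟩,⟨0,[(4,0),(20,0),(14,0)]⟩⟩ ⟨true,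
  0,⟨0,[(7,0),(8,0),(7,0)]⟩,⟨0,[(25,0),(0,0),(14,0)]⟩⟩]⟩) (.R ⟨1,false,false,false,[1,0,0,-1],[0,1,
  1],[1,1,0,0,0,0,0,0,-1],(⟨0,[(24,0)]⟩,⟨0,[(25,0)]⟩),(⟨0,[(34,0),(2,0)]⟩,⟨0,[(19,0)]⟩),⟨0,[(2,0)]⟩,
  .k,.k,(.x (-1) ⟨7,[(14,3),(7,2),(0,2),(11,1)]⟩ ⟨0,[(37,0)]⟩),(.r (-1) ⟨1,[(22,0),(9,1),(8,1),(0,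
  0)]⟩ ⟨2,[(0,0),(11,0),(10,0)]⟩),(.x 0 ⟨5,[(0,0),(0,0),(5,2),(1,0),(4,2),(4,5),(7,4)]⟩ ⟨0,[(30,0),
  (3,0),(2,1),(4,0)]⟩),.k,⟨false,1,⟨0,[(1,0),(30,0),(5,0),(2,0)]⟩,⟨6,[(0,3),(3,2),(0,0),(0,0),(3,0),
  (10,0),(3,2),(17,1)]⟩⟩,⟨true,0,⟨0,[(18,0),(5,0)]⟩,⟨0,[(25,0),(1,0)]⟩⟩,⟨false,0,⟨0,[]⟩,⟨3,[(22,0),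
  (0,0),(19,1)]⟩⟩,⟨false,0,⟨0,[(4,0),(12,0)]⟩,⟨0,[(3,0),(37,1)]⟩⟩,⟨true,0,⟨0,[(40,0)]⟩,⟨0,[(41,
  0)]⟩⟩,⟨false,0,⟨0,[(4,0),(11,0)]⟩,⟨0,[(3,0),(37,2)]⟩⟩,[.o ⟨false,0,⟨0,[(7,0),(8,0)]⟩,⟨0,[(8,0),
  (21,0),(10,0)]⟩⟩,.o ⟨false,1,⟨15,[(16,7),(4,3),(0,0),(0,0),(11,5),(7,7)]⟩,⟨0,[(26,0),(14,0)]⟩⟩,.o
  ⟨false,1,⟨1,[(25,1),(9,0),(6,0)]⟩,⟨3,[(0,0),(3,0),(2,1),(14,0),(1,2),(1,0),(3,0)]⟩⟩,.a ⟨true,0,⟨0,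
  [(25,0)]⟩,⟨0,[(24,0)]⟩⟩ ⟨false,1,⟨1,[(22,0),(19,0)]⟩,⟨0,[(4,0),(20,0)]⟩⟩ ⟨true,0,⟨0,[(7,0),(8,0),
  (7,0)]⟩,⟨0,[(25,0),(0,0),(14,0)]⟩⟩]⟩)) (.Q [0,-1,1,1,0,0,-1,-1,1,0,1,-1] (.p true [0,0,1] [0,0,0,
  1] (⟨0,[(33,0)]⟩,⟨0,[(32,0)]⟩) .k 2 (⟨0,[(24,0)]⟩,⟨0,[(23,0)]⟩) .k (.r (-1) ⟨27,[(4,1),(0,1),(3,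
  7),(1,7),(8,1),(0,18),(0,4)]⟩ ⟨1,[(0,0),(2,0),(20,0),(6,1),(9,0)]⟩)) (.R ⟨1,false,false,false,[1,
  0,0,-1],[1,0,-1],[1,0,0,0,0,0,0,0,-1],(⟨0,[(24,0)]⟩,⟨0,[(25,0)]⟩),(⟨0,[(33,0)]⟩,⟨0,[(34,0)]⟩),⟨0,
  [(2,0)]⟩,.k,.k,(.x (-1) ⟨7,[(14,3),(7,2),(0,2),(11,1)]⟩ ⟨0,[(37,0)]⟩),.k,(.r (-1) ⟨1,[(10,1),(11,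
  0),(19,0)]⟩ ⟨4,[(0,1),(0,0),(7,0),(6,0),(6,0),(1,1),(4,1),(1,2)]⟩),.k,⟨false,1,⟨7,[(5,2),(0,0),(3,
  3),(5,1),(4,0),(0,3)]⟩,⟨1,[(1,0),(2,0),(20,0),(6,1),(9,0)]⟩⟩,⟨true,0,⟨0,[(24,0),(2,0)]⟩,⟨0,[(18,
  0),(6,0)]⟩⟩,⟨true,0,⟨0,[]⟩,⟨0,[(45,0)]⟩⟩,⟨false,0,⟨0,[(0,0),(40,0)]⟩,⟨2,[(3,0),(3,0),(13,1),(0,0),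
  (2,1),(16,0)]⟩⟩,⟨false,1,⟨11,[(0,1),(2,1),(12,3),(5,1),(0,1),(11,0),(7,4)]⟩,⟨0,[(41,0)]⟩⟩,⟨false,
  0,⟨0,[(0,0)]⟩,⟨1,[(7,0),(13,0),(0,0),(2,1),(15,0),(0,0)]⟩⟩,[.o ⟨false,1,⟨0,[(8,0),(21,0)]⟩,⟨2,[(7,
  1),(8,0),(4,0)]⟩⟩,.o ⟨false,1,⟨0,[(26,0),(16,0)]⟩,⟨0,[(28,0)]⟩⟩,.o ⟨false,1,⟨1,[(25,1),(9,0),(6,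
  0)]⟩,⟨5,[(0,0),(0,0),(5,3),(1,0),(3,0),(8,0),(1,4),(5,1)]⟩⟩,.a ⟨true,0,⟨0,[(25,0)]⟩,⟨0,[(24,0)]⟩⟩
  ⟨true,1,⟨1,[(22,0),(19,0)]⟩,⟨0,[(1,0)]⟩⟩ ⟨false,1,⟨3,[(4,1),(3,1),(13,0),(1,1),(7,1),(10,0)]⟩,⟨2,
  [(7,1),(8,0),(4,0),(3,2)]⟩⟩]⟩) (.R ⟨1,true,false,false,[0,0,1],[0,0,0,1],[1,0,0,0,0,0,0,1],(⟨0,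
  [(34,0)]⟩,⟨0,[(33,0)]⟩),(⟨0,[(25,0)]⟩,⟨0,[(24,0)]⟩),⟨0,[(11,0)]⟩,.k,.k,.k,.k,(.r (-1) ⟨1,[(10,1),
  (11,0),(19,0)]⟩ ⟨6,[(1,1),(2,0),(4,0),(3,1),(2,0),(6,1),(1,0),(6,10)]⟩),.k,⟨false,1,⟨13,[(0,1),(4,
  4),(0,2),(3,1),(2,1),(7,2),(0,5),(1,1)]⟩,⟨1,[(1,0),(2,0),(20,0),(6,1),(9,0)]⟩⟩,⟨true,0,⟨0,[(24,0),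
  (2,0)]⟩,⟨0,[(18,0),(6,0)]⟩⟩,⟨true,0,⟨0,[]⟩,⟨0,[(45,0)]⟩⟩,⟨false,0,⟨0,[(1,0),(3,0),(18,0),(7,0),(6,
  1)]⟩,⟨7,[(0,3),(2,3),(17,3),(0,0),(0,0),(19,1)]⟩⟩,⟨false,1,⟨5,[(3,1),(0,1),(11,1),(5,0),(0,0),(19,
  1)]⟩,⟨0,[(41,0)]⟩⟩,⟨true,0,⟨2,[(1,0),(2,1),(3,0),(0,0),(6,0),(7,0),(4,0),(2,0),(6,0)]⟩,⟨0,[(0,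
  0)]⟩⟩,[]⟩))) (.Q [0,-1,-1,-1,1,0,0,0,-1,-1,0,1] (.p true [0,0,0,1] [1] (⟨0,[(23,0)]⟩,⟨0,[(22,
  0)]⟩) .k 1 (⟨0,[]⟩,⟨0,[]⟩) .k .k) (.I [1,0,-2,-2,1,0,0,-1,-1] (.R ⟨0,false,false,false,[1,0,0,-1],
  [0,1,1],[1,0,0,-1,0,0,0,0,-1],(⟨0,[(24,0)]⟩,⟨0,[(25,0)]⟩),(⟨0,[(34,0),(2,0)]⟩,⟨0,[(19,0)]⟩),⟨0,
  [(2,0)]⟩,.k,.k,(.x (-1) ⟨7,[(14,3),(7,2),(0,2),(11,1)]⟩ ⟨0,[(37,0)]⟩),(.r (-1) ⟨7,[(0,3),(21,2),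
  (0,0),(8,3)]⟩ ⟨2,[(4,2),(4,0),(0,0),(1,0),(3,0),(8,2),(12,0)]⟩),.k,.k,⟨false,1,⟨0,[(0,0)]⟩,⟨0,[(4,
  0),(4,0),(0,0),(5,0),(8,0)]⟩⟩,⟨true,0,⟨0,[(18,0),(5,0)]⟩,⟨0,[(25,0),(1,0)]⟩⟩,⟨true,0,⟨0,[(41,0)]⟩,
  ⟨0,[(40,0)]⟩⟩,⟨false,0,⟨0,[(4,0),(12,0)]⟩,⟨0,[(1,0),(27,0)]⟩⟩,⟨false,0,⟨0,[]⟩,⟨0,[]⟩⟩,⟨false,0,⟨0,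
  []⟩,⟨0,[]⟩⟩,[.o ⟨false,0,⟨0,[(7,0),(8,0)]⟩,⟨3,[(0,1),(22,0),(2,1),(4,1),(3,0),(3,1)]⟩⟩,.o ⟨false,
  1,⟨15,[(16,7),(4,3),(0,0),(0,0),(11,5),(7,7)]⟩,⟨0,[(26,0),(14,0)]⟩⟩,.o ⟨false,1,⟨1,[(25,1),(9,0),
  (6,0)]⟩,⟨6,[(7,3),(1,1),(3,0),(10,6),(2,0),(2,2),(8,0)]⟩⟩,.a ⟨true,0,⟨0,[(25,0)]⟩,⟨0,[(24,0)]⟩⟩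
  ⟨false,1,⟨0,[(1,0),(22,0)]⟩,⟨0,[(4,0),(20,0),(14,0)]⟩⟩ ⟨true,0,⟨0,[(7,0),(8,0),(7,0)]⟩,⟨0,[(25,0),
  (0,0),(14,0)]⟩⟩]⟩) (.R ⟨0,false,false,false,[1,0,0,-1],[0,1,1],[0,1,0,0,0,0,0,0,-1],(⟨0,[(24,0)]⟩,
  ⟨0,[(25,0)]⟩),(⟨0,[(34,0),(2,0)]⟩,⟨0,[(19,0)]⟩),⟨0,[(2,0)]⟩,.k,.k,(.x (-1) ⟨7,[(14,3),(7,2),(0,2),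
  (11,1)]⟩ ⟨0,[(37,0)]⟩),(.r (-1) ⟨1,[(22,0),(9,1),(8,1),(0,0)]⟩ ⟨2,[(0,0),(11,0),(10,0)]⟩),.k,.k,
  ⟨false,1,⟨0,[(1,0),(22,0),(7,0),(5,0)]⟩,⟨6,[(0,3),(3,2),(0,0),(0,0),(3,0),(10,0),(3,2),(17,1)]⟩⟩,
  ⟨true,0,⟨0,[(18,0),(5,0)]⟩,⟨0,[(25,0),(1,0)]⟩⟩,⟨true,0,⟨0,[(45,0)]⟩,⟨0,[]⟩⟩,⟨false,0,⟨0,[(4,0),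
  (12,0)]⟩,⟨0,[(1,0),(27,0)]⟩⟩,⟨false,0,⟨0,[]⟩,⟨0,[]⟩⟩,⟨false,0,⟨0,[]⟩,⟨0,[]⟩⟩,[.o ⟨false,0,⟨0,[(7,
  0),(8,0)]⟩,⟨0,[(8,0),(21,0),(10,0)]⟩⟩,.o ⟨false,1,⟨15,[(16,7),(4,3),(0,0),(0,0),(11,5),(7,7)]⟩,⟨0,
  [(26,0),(14,0)]⟩⟩,.o ⟨false,1,⟨1,[(25,1),(9,0),(6,0)]⟩,⟨3,[(0,0),(3,0),(2,1),(14,0),(1,2),(1,0),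
  (3,0)]⟩⟩,.a ⟨true,0,⟨0,[(25,0)]⟩,⟨0,[(24,0)]⟩⟩ ⟨false,1,⟨1,[(22,0),(19,0)]⟩,⟨0,[(4,0),(20,0)]⟩⟩
  ⟨true,0,⟨0,[(7,0),(8,0),(7,0)]⟩,⟨0,[(25,0),(0,0),(14,0)]⟩⟩]⟩)) (.K ⟨0,[0,0,0,1],0,(-1),(⟨0,[(24,
  0)]⟩,⟨0,[(23,0)]⟩),.k,(.x 0 ⟨1,[(13,0),(12,0),(2,1),(0,0)]⟩ ⟨0,[(36,0),(4,0)]⟩),(.x 0 ⟨0,[(36,
  0)]⟩ ⟨7,[(13,3),(7,2),(0,2),(11,1)]⟩),.k,.k,[⟨0,[(24,0)]⟩,⟨0,[(23,0)]⟩,⟨7,[(21,4),(0,0),(1,7),(12,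
  3),(3,1)]⟩,⟨0,[(0,0),(5,0)]⟩]⟩))) (.K ⟨0,[0,0,0,1],0,(-1),(⟨0,[(22,0)]⟩,⟨0,[(21,0)]⟩),.k,(.r 0 ⟨0,
  [(0,0),(1,0),(19,0),(6,0)]⟩ ⟨47,[(6,7),(3,11),(2,7),(5,30),(0,6),(5,23),(0,23),(12,9)]⟩),(.x 0 ⟨0,
  [(34,0)]⟩ ⟨7,[(11,3),(7,2),(0,2),(11,1)]⟩),.k,.k,[⟨0,[(22,0)]⟩,⟨0,[(21,0)]⟩,⟨7,[(19,4),(0,0),(1,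
  7),(12,3),(3,1)]⟩,⟨0,[(0,0),(5,0)]⟩]⟩)))))) (.K ⟨2,[0,-1,1],(-1),0,(⟨0,[(3,0)]⟩,⟨0,[(25,0),(3,
  0)]⟩),.k,(.r (-1) ⟨0,[(2,0),(30,0),(0,0)]⟩ ⟨10,[(1,1),(3,7),(2,1),(12,5),(0,5),(1,20)]⟩),.k,.k,.k,
  [⟨0,[(33,0)]⟩,⟨0,[(1,0),(14,0),(0,0)]⟩,⟨3,[(14,0),(0,0),(7,3),(10,1)]⟩,⟨0,[(0,0),(17,0),(12,
  0)]⟩]⟩))) (.Q [0,0,0,1,0,0,0,0,0,1] (.pp false [-1,1]) (.R ⟨1,false,false,false,[0,0,1],[1,-1],[0,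
  1,0,-1,0,0,0,1],(⟨0,[(25,0)]⟩,⟨0,[(24,0)]⟩),(⟨0,[(27,0)]⟩,⟨0,[(28,0)]⟩),⟨0,[(2,0)]⟩,.k,.k,.k,.k,
  .k,.k,⟨false,0,⟨1,[(3,0),(25,0),(2,0)]⟩,⟨1,[(23,1),(9,0),(0,0)]⟩⟩,⟨true,0,⟨0,[(18,0)]⟩,⟨1,[(12,0),
  (2,0),(0,0),(6,1)]⟩⟩,⟨false,0,⟨0,[(32,0)]⟩,⟨15,[(1,7),(2,3),(8,2),(0,2),(18,3),(0,5)]⟩⟩,⟨false,1,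
  ⟨0,[(17,0),(14,0),(1,0)]⟩,⟨0,[(8,0)]⟩⟩,⟨true,0,⟨0,[(36,0)]⟩,⟨0,[]⟩⟩,⟨false,1,⟨0,[(17,0),(16,0)]⟩,
  ⟨1,[(12,0),(2,0),(0,0)]⟩⟩,[.a ⟨true,0,⟨0,[(32,0)]⟩,⟨0,[(0,0)]⟩⟩ ⟨true,0,⟨1,[(3,0),(25,0),(2,2)]⟩,
  ⟨0,[(1,0),(28,0)]⟩⟩ ⟨false,1,⟨0,[(18,0),(13,0),(0,0)]⟩,⟨0,[(0,0),(8,0)]⟩⟩,.o ⟨false,1,⟨0,[(6,0),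
  (27,0)]⟩,⟨0,[(31,0)]⟩⟩,.o ⟨false,0,⟨0,[(9,0)]⟩,⟨1,[(22,1),(3,0),(6,0)]⟩⟩,.o ⟨false,0,⟨0,[(21,0)]⟩,
  ⟨0,[(18,0),(14,0)]⟩⟩]⟩) (.I [1,1,1,0,-1,0,0,0,-1] (.Q [0,1,1,0,0,0,0,0,1,0,0,-1] (.p false [0,0,0,
  1] [] (⟨0,[(17,0)]⟩,⟨0,[(16,0)]⟩) .k 0 (⟨0,[]⟩,⟨0,[]⟩) .k .k) (.K ⟨0,[0,0,0,1],0,0,(⟨0,[(18,0)]⟩,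
  ⟨0,[(17,0)]⟩),.k,(.r (-1) ⟨1,[(16,0),(17,1),(0,0)]⟩ ⟨23,[(1,7),(1,11),(2,5),(8,7),(7,0),(0,0),(7,
  1)]⟩),(.x 0 ⟨0,[(30,0)]⟩ ⟨7,[(7,3),(7,2),(0,2),(11,1)]⟩),.k,.k,[⟨0,[(18,0)]⟩,⟨0,[(17,0)]⟩,⟨0,[(1,
  0),(16,0),(16,0)]⟩,⟨0,[(0,0)]⟩]⟩) (.R ⟨1,false,false,true,[0,0,1],[0,0,0,1],[0,1,0,-1,0,0,0,1],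
  (⟨0,[(27,0)]⟩,⟨0,[(26,0)]⟩),(⟨0,[(18,0)]⟩,⟨0,[(17,0)]⟩),⟨0,[(4,0)]⟩,.k,.k,.k,.k,(.r 0 ⟨1,[(0,1),
  (1,1),(2,0),(11,1),(13,0),(2,0)]⟩ ⟨3,[(3,3),(11,0),(0,2),(6,1),(0,1)]⟩),.k,⟨false,0,⟨1,[(0,1),(1,
  1),(2,0),(11,1),(13,0),(2,0)]⟩,⟨3,[(3,3),(11,0),(0,2)]⟩⟩,⟨true,0,⟨0,[(17,0),(2,0)]⟩,⟨0,[(11,0),(6,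
  0)]⟩⟩,⟨false,0,⟨0,[(34,0)]⟩,⟨15,[(3,7),(2,3),(8,2),(0,2),(18,3),(0,5)]⟩⟩,⟨false,1,⟨1,[(16,0),(0,
  1),(1,1),(3,0),(0,0),(11,0)]⟩,⟨2,[(0,2),(1,1),(6,0),(4,0)]⟩⟩,⟨true,0,⟨0,[(38,0)]⟩,⟨0,[]⟩⟩,⟨false,
  1,⟨1,[(3,1),(12,0),(0,1),(6,1),(3,0)]⟩,⟨1,[(0,1),(1,0),(11,0),(19,0)]⟩⟩,[.a ⟨true,0,⟨0,[(1,0),(14,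
  0),(0,0)]⟩,⟨0,[(0,0)]⟩⟩ ⟨true,0,⟨1,[(5,0),(25,0),(2,2)]⟩,⟨0,[(3,0),(28,0)]⟩⟩ ⟨false,1,⟨3,[(16,1),
  (0,3),(2,1),(3,1),(3,0),(2,1),(3,0)]⟩,⟨0,[(0,0),(10,0)]⟩⟩,.o ⟨false,1,⟨1,[(16,0),(0,1),(5,0),(0,
  0),(3,0)]⟩,⟨0,[(0,0),(1,0),(30,0)]⟩⟩,.o ⟨false,0,⟨0,[(11,0)]⟩,⟨1,[(24,1),(3,0),(6,0)]⟩⟩,.o ⟨false,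
  0,⟨0,[(23,0)]⟩,⟨0,[(20,0),(14,0)]⟩⟩]⟩)) (.Q [0,-1,0,-1,0,0,1,1,0,1,-1] (.p false [0,0,1] [1] (⟨0,
  [(26,0)]⟩,⟨0,[(25,0)]⟩) .k 1 (⟨0,[]⟩,⟨0,[]⟩) .k .k) (.Q [0,1,0,1,0,0,-1,-1,0,0,1] (.p true [0,0,
  1] [] (⟨0,[(27,0)]⟩,⟨0,[(26,0)]⟩) .k 0 (⟨0,[]⟩,⟨0,[]⟩) .k .k) (.R ⟨2,false,false,true,[0,1],[1,1,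
  -1],[1,1,1,1,0,0,0,-1],(⟨0,[]⟩,⟨0,[]⟩),(⟨0,[(27,0),(3,0)]⟩,⟨0,[(5,0)]⟩),⟨0,[]⟩,.k,.k,.k,.k,.k,.k,
  ⟨true,0,⟨0,[]⟩,⟨1,[(24,0),(0,0)]⟩⟩,⟨false,1,⟨0,[(21,0),(14,0)]⟩,⟨5,[(1,2),(9,2),(11,0),(0,0),(1,
  4),(5,0)]⟩⟩,⟨false,0,⟨0,[(26,0)]⟩,⟨9,[(1,1),(0,3),(3,3),(2,1),(6,1),(8,1),(10,0),(0,2)]⟩⟩,⟨true,0,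
  ⟨0,[(20,0)]⟩,⟨2,[(1,0),(9,0),(3,0),(7,0)]⟩⟩,⟨false,0,⟨0,[(4,0)]⟩,⟨9,[(1,5),(0,1),(3,1),(2,5),(6,
  0),(8,5),(10,2),(0,3)]⟩⟩,⟨false,1,⟨1,[(0,1),(28,0),(7,0)]⟩,⟨0,[(1,0)]⟩⟩,[.a ⟨true,0,⟨0,[(0,0)]⟩,
  ⟨0,[(1,0)]⟩⟩ ⟨false,0,⟨2,[(0,0),(3,1),(19,0),(7,0)]⟩,⟨0,[(1,0),(19,0),(14,0)]⟩⟩ ⟨true,0,⟨4,[(0,1),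
  (3,0),(2,0),(12,3),(0,0),(2,1)]⟩,⟨0,[(1,0)]⟩⟩,.o ⟨false,1,⟨1,[(0,1),(28,0),(7,0)]⟩,⟨2,[(1,0),(1,
  0),(5,0),(5,0)]⟩⟩,.o ⟨false,1,⟨3,[(16,0),(0,0),(18,1)]⟩,⟨4,[(3,2),(0,0),(2,0),(12,0),(0,0),(2,
  1)]⟩⟩,.e ⟨false,0,⟨0,[(4,0)]⟩,⟨9,[(1,5),(0,1),(3,1),(2,5),(6,0),(8,5),(10,2),(0,3)]⟩⟩ ⟨false,1,⟨1,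
  [(0,1),(28,0),(7,0)]⟩,⟨0,[(1,0)]⟩⟩]⟩) (.Q [0,1,0,-2,0,0,-2,-2,0,-1,2] (.p true [0,0,1] [1,0,-1]
  (⟨0,[(28,0)]⟩,⟨0,[(27,0)]⟩) .k 2 (⟨0,[(27,0)]⟩,⟨0,[(28,0)]⟩) .k (.r (-1) ⟨4,[(1,1),(4,3),(2,1),(6,
  0),(0,0),(7,1),(10,2)]⟩ ⟨0,[(26,1)]⟩)) (.R ⟨1,true,false,false,[1,0,-1],[0,1,1],[1,0,0,0,0,0,0,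
  -1],(⟨0,[(28,0)]⟩,⟨0,[(29,0)]⟩),(⟨0,[(29,0),(2,0)]⟩,⟨0,[(14,0)]⟩),⟨0,[(14,0)]⟩,.k,.k,.k,(.r (-1)
  ⟨5,[(0,1),(1,1),(14,0),(0,0),(6,1),(1,9),(9,3)]⟩ ⟨0,[(7,0)]⟩),(.r (-1) ⟨2,[(0,1),(1,1),(10,1),(13,
  3),(9,2)]⟩ ⟨0,[(15,1)]⟩),.k,⟨false,1,⟨2,[(0,0),(1,0),(10,0),(13,4),(9,2)]⟩,⟨0,[(7,0)]⟩⟩,⟨true,0,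
  ⟨0,[(1,0),(0,0),(2,1),(27,0)]⟩,⟨0,[(0,0),(7,0)]⟩⟩,⟨true,0,⟨0,[]⟩,⟨0,[(40,0)]⟩⟩,⟨false,0,⟨0,[(1,0),
  (9,0)]⟩,⟨3,[(0,1),(23,3),(5,0),(7,2)]⟩⟩,⟨false,1,⟨15,[(3,7),(1,7),(2,3),(8,4),(0,0),(19,1)]⟩,⟨0,
  [(36,0)]⟩⟩,⟨true,0,⟨2,[(1,0),(2,0),(6,3),(11,0)]⟩,⟨0,[(0,0)]⟩⟩,[]⟩) (.I [0,1,1,0,-1,0,0,1,1] (.I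
  [0,0,-1,-1,0,0,0,0,1] (.K ⟨0,[0,0,0,1],0,(-1),(⟨0,[(22,0)]⟩,⟨0,[(21,0)]⟩),.k,(.r 0 ⟨0,[(0,0)]⟩
  ⟨11,[(7,3),(2,3),(8,8),(0,2),(5,3),(0,3)]⟩),(.x 0 ⟨0,[(34,0)]⟩ ⟨7,[(11,3),(7,2),(0,2),(11,1)]⟩),
  .k,.k,[⟨0,[(22,0)]⟩,⟨0,[(21,0)]⟩,⟨7,[(19,4),(0,0),(1,7),(12,3),(3,1)]⟩,⟨0,[(1,0),(4,0),(0,0),(13,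
  0)]⟩]⟩) (.K ⟨0,[0,0,0,1],0,(-1),(⟨0,[(22,0)]⟩,⟨0,[(21,0)]⟩),.k,(.x 0 ⟨1,[(11,0),(12,0),(2,1),(0,
  0)]⟩ ⟨0,[(34,0),(4,0)]⟩),(.x 0 ⟨0,[(34,0)]⟩ ⟨7,[(11,3),(7,2),(0,2),(11,1)]⟩),.k,.k,[⟨0,[(22,0)]⟩,
  ⟨0,[(21,0)]⟩,⟨7,[(19,4),(0,0),(1,7),(12,3),(3,1)]⟩,⟨0,[(1,0),(4,0),(0,0),(13,0)]⟩]⟩)) (.I [1,-1,1,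
  1,0,0,0,0,1] (.Q [0,0,0,0,0,1,0,0,0,-1,0,1] (.p true [0,0,0,1] [1] (⟨0,[(22,0)]⟩,⟨0,[(21,0)]⟩) .k
  1 (⟨0,[]⟩,⟨0,[]⟩) .k .k) (.I [0,0,-1,0,1,0,0,1,-1] (.I [1,1,1,0,-1,0,0,-1,1] (.R ⟨0,false,false,
  true,[1,0,0,-1],[1,0,-1],[1,1,1,0,0,0,0,-1],(⟨0,[(24,0)]⟩,⟨0,[(25,0)]⟩),(⟨0,[(33,0)]⟩,⟨0,[(34,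
  0)]⟩),⟨0,[(2,0)]⟩,.k,.k,(.x (-1) ⟨7,[(14,3),(7,2),(0,2),(11,1)]⟩ ⟨0,[(37,0)]⟩),.k,.k,.k,⟨false,0,
  ⟨0,[]⟩,⟨3,[(22,0),(0,0),(18,1)]⟩⟩,⟨true,0,⟨0,[(24,0),(2,0)]⟩,⟨0,[(18,0),(6,0)]⟩⟩,⟨true,(-1),⟨0,
  [(0,0)]⟩,⟨0,[(1,0)]⟩⟩,⟨false,0,⟨2,[(0,1),(7,0),(15,2),(1,0),(0,1),(15,0)]⟩,⟨5,[(1,2),(2,2),(0,1),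
  (0,1),(2,0),(5,0),(9,5)]⟩⟩,⟨false,0,⟨0,[]⟩,⟨0,[]⟩⟩,⟨false,0,⟨0,[]⟩,⟨0,[]⟩⟩,[.o ⟨false,0,⟨0,[(26,
  0)]⟩,⟨7,[(21,3),(0,0),(0,0),(11,1),(7,3)]⟩⟩,.o ⟨false,1,⟨1,[(29,1),(5,0),(7,0)]⟩,⟨6,[(5,1),(0,0),
  (8,2),(5,0)]⟩⟩,.o ⟨false,1,⟨1,[(25,1),(9,0),(6,0)]⟩,⟨4,[(9,2),(0,0),(2,0),(10,4),(1,0),(0,0),(2,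
  1)]⟩⟩,.a ⟨true,0,⟨0,[(25,0)]⟩,⟨0,[(24,0)]⟩⟩ ⟨false,0,⟨1,[(0,0),(3,0)]⟩,⟨4,[(1,1),(4,0),(5,0),(10,
  0),(7,0),(11,1)]⟩⟩ ⟨true,0,⟨0,[(24,0),(1,0)]⟩,⟨6,[(5,1),(0,0),(8,2),(5,0),(3,6)]⟩⟩]⟩) (.R ⟨0,
  false,false,true,[1,0,0,-1],[1,0,-1],[1,0,0,0,0,0,0,0,-1],(⟨0,[(24,0)]⟩,⟨0,[(25,0)]⟩),(⟨0,[(33,
  0)]⟩,⟨0,[(34,0)]⟩),⟨0,[(2,0)]⟩,.k,.k,(.x (-1) ⟨7,[(14,3),(7,2),(0,2),(11,1)]⟩ ⟨0,[(37,0)]⟩),.k,.k,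
  .k,⟨false,1,⟨0,[(0,0)]⟩,⟨0,[(3,0),(28,0),(5,0),(2,0)]⟩⟩,⟨true,0,⟨0,[(24,0),(2,0)]⟩,⟨0,[(18,0),(6,
  0)]⟩⟩,⟨true,0,⟨0,[]⟩,⟨0,[(45,0)]⟩⟩,⟨false,0,⟨0,[(3,0),(20,0),(1,0),(14,0)]⟩,⟨0,[(0,0),(17,0),(6,
  0)]⟩⟩,⟨false,0,⟨0,[]⟩,⟨0,[]⟩⟩,⟨false,0,⟨0,[]⟩,⟨0,[]⟩⟩,[.o ⟨false,0,⟨0,[(26,0)]⟩,⟨7,[(21,3),(0,0),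
  (0,0),(11,1),(7,3)]⟩⟩,.o ⟨false,1,⟨1,[(29,1),(5,0),(7,0)]⟩,⟨6,[(5,1),(0,0),(8,2),(5,0)]⟩⟩,.o
  ⟨false,1,⟨1,[(25,1),(9,0),(6,0)]⟩,⟨4,[(9,2),(0,0),(2,0),(10,4),(1,0),(0,0),(2,1)]⟩⟩,.a ⟨true,0,⟨0,
  [(25,0)]⟩,⟨0,[(24,0)]⟩⟩ ⟨false,1,⟨1,[(0,0),(3,0)]⟩,⟨0,[(3,0),(37,0),(3,0)]⟩⟩ ⟨true,0,⟨0,[(24,0),
  (1,0)]⟩,⟨6,[(5,1),(0,0),(8,2),(5,0),(3,6)]⟩⟩]⟩)) (.R ⟨0,false,false,false,[1,0,0,-1],[1,0,-1],[0,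
  1,1],(⟨0,[(23,0)]⟩,⟨0,[(24,0)]⟩),(⟨0,[(32,0)]⟩,⟨0,[(33,0)]⟩),⟨0,[(1,0)]⟩,.k,.k,(.x (-1) ⟨7,[(13,
  3),(7,2),(0,2),(11,1)]⟩ ⟨0,[(36,0)]⟩),.k,.k,.k,⟨false,0,⟨1,[(11,0),(25,0),(2,0)]⟩,⟨7,[(0,1),(2,5),
  (3,1),(14,0),(18,0)]⟩⟩,⟨true,0,⟨0,[(23,0),(2,0)]⟩,⟨0,[(17,0),(6,0)]⟩⟩,⟨true,(-1),⟨1,[(0,1),(10,0),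
  (25,0),(2,0)]⟩,⟨1,[(21,0),(19,0)]⟩⟩,⟨false,0,⟨1,[(0,1),(22,1),(2,1),(14,0),(0,0)]⟩,⟨13,[(4,3),(0,
  1),(8,5),(5,1),(0,6),(2,13),(16,6)]⟩⟩,⟨false,0,⟨0,[]⟩,⟨0,[]⟩⟩,⟨false,0,⟨0,[]⟩,⟨0,[]⟩⟩,[.o ⟨false,
  1,⟨1,[(28,1),(5,0),(7,0)]⟩,⟨6,[(4,1),(0,0),(8,2),(5,0)]⟩⟩,.o ⟨false,1,⟨0,[(25,0),(16,0)]⟩,⟨0,[(27,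
  0)]⟩⟩,.o ⟨false,1,⟨1,[(24,1),(9,0),(6,0)]⟩,⟨3,[(0,1),(7,0),(3,0),(1,0),(6,0),(1,3),(10,0)]⟩⟩,.a
  ⟨true,0,⟨0,[(24,0)]⟩,⟨0,[(23,0)]⟩⟩ ⟨true,0,⟨0,[(44,0)]⟩,⟨0,[]⟩⟩ ⟨false,1,⟨0,[(23,0),(1,0),(16,
  0)]⟩,⟨6,[(4,1),(0,0),(8,2),(5,0),(3,6)]⟩⟩]⟩)) (.I [0,0,1,1,0,0,0,1,-1] (.I [0,0,0,-1,0,0,0,-1,1]
  (.R ⟨1,false,false,true,[1,0,0,-1],[1,-1,-1],[1,1,0,0,0,0,0,0,-1],(⟨0,[(24,0)]⟩,⟨0,[(25,0)]⟩),(⟨0,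
  [(19,0)]⟩,⟨0,[(34,0),(2,0)]⟩),⟨0,[(2,0)]⟩,.k,.k,(.x (-1) ⟨7,[(14,3),(7,2),(0,2),(11,1)]⟩ ⟨0,[(37,
  0)]⟩),(.r 0 ⟨0,[(1,0)]⟩ ⟨3,[(0,3),(21,0),(0,0),(18,1)]⟩),.k,.k,⟨true,0,⟨0,[(1,0)]⟩,⟨0,[(0,0)]⟩⟩,
  ⟨false,0,⟨0,[(24,0),(2,0)]⟩,⟨0,[(18,0),(6,0),(16,0)]⟩⟩,⟨false,0,⟨0,[]⟩,⟨3,[(22,0),(0,0),(19,1)]⟩⟩,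
  ⟨false,0,⟨0,[(0,0),(23,0),(2,0)]⟩,⟨1,[(1,0),(2,0),(0,0),(3,0),(15,1),(16,0)]⟩⟩,⟨true,0,⟨0,[(40,
  0)]⟩,⟨0,[(41,0)]⟩⟩,⟨false,0,⟨1,[(0,0),(2,0),(20,1),(1,0),(0,0)]⟩,⟨3,[(1,0),(2,0),(0,0),(0,1),(2,
  0),(12,0),(2,3),(16,1)]⟩⟩,[.o ⟨false,0,⟨0,[(26,0),(14,0)]⟩,⟨3,[(5,1),(16,0),(0,0),(11,0),(7,0)]⟩⟩,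
  .o ⟨false,1,⟨0,[(15,0),(13,0),(13,0)]⟩,⟨2,[(5,1),(9,0),(10,0)]⟩⟩,.o ⟨false,1,⟨1,[(25,1),(9,0),(6,
  0)]⟩,⟨4,[(9,2),(0,0),(2,0),(10,4),(1,0),(0,0),(2,1)]⟩⟩,.a ⟨true,0,⟨0,[(25,0)]⟩,⟨0,[(24,0)]⟩⟩
  ⟨false,1,⟨1,[(22,0),(19,0)]⟩,⟨2,[(0,0),(2,1),(2,0),(24,0)]⟩⟩ ⟨true,0,⟨0,[(24,0),(1,0),(14,0)]⟩,⟨2,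
  [(5,1),(9,0),(9,2),(0,0)]⟩⟩]⟩) (.R ⟨1,false,false,true,[1,0,0,-1],[1,-1,-1],[1,0,0,0,0,0,0,0,-1],
  (⟨0,[(24,0)]⟩,⟨0,[(25,0)]⟩),(⟨0,[(19,0)]⟩,⟨0,[(34,0),(2,0)]⟩),⟨0,[(2,0)]⟩,.k,.k,(.x (-1) ⟨7,[(14,
  3),(7,2),(0,2),(11,1)]⟩ ⟨0,[(37,0)]⟩),(.r 0 ⟨0,[(1,0)]⟩ ⟨1,[(23,0),(8,1),(8,1),(0,0)]⟩),.k,.k,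
  ⟨true,0,⟨0,[(0,0),(38,0)]⟩,⟨0,[(3,0),(28,0),(5,0),(2,1)]⟩⟩,⟨false,0,⟨0,[(24,0),(2,0)]⟩,⟨0,[(18,0),
  (6,0),(16,0)]⟩⟩,⟨true,0,⟨0,[]⟩,⟨0,[(45,0)]⟩⟩,⟨false,0,⟨0,[(3,0),(20,0),(1,0),(14,1)]⟩,⟨9,[(0,3),
  (3,3),(0,3),(0,1),(15,0),(2,9),(9,1),(6,2)]⟩⟩,⟨false,1,⟨9,[(4,5),(5,1),(2,3),(9,2),(18,0)]⟩,⟨0,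
  [(41,0)]⟩⟩,⟨false,0,⟨0,[(3,0),(20,0),(1,0),(14,0)]⟩,⟨9,[(0,1),(3,1),(0,1),(0,5),(15,2),(2,9),(9,
  0),(6,3)]⟩⟩,[.o ⟨false,0,⟨0,[(26,0),(14,0)]⟩,⟨3,[(5,1),(16,0),(0,0),(11,0),(7,0)]⟩⟩,.o ⟨false,1,
  ⟨0,[(15,0),(13,0),(13,0)]⟩,⟨2,[(5,1),(9,0),(10,0)]⟩⟩,.o ⟨false,1,⟨1,[(25,1),(9,0),(6,0)]⟩,⟨4,[(9,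
  2),(0,0),(2,0),(10,4),(1,0),(0,0),(2,1)]⟩⟩,.a ⟨true,0,⟨0,[(25,0)]⟩,⟨0,[(24,0)]⟩⟩ ⟨false,1,⟨3,[(0,
  1),(3,1),(36,1),(0,0),(0,0)]⟩,⟨0,[(3,0),(37,0),(3,0)]⟩⟩ ⟨true,0,⟨0,[(24,0),(1,0),(14,0)]⟩,⟨2,[(5,
  1),(9,0),(9,2),(0,0)]⟩⟩]⟩)) (.I [0,0,-1,-1,1,0,0,1,-1] (.R ⟨1,false,false,true,[1,0,0,-1],[1,0,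
  -1],[0,1,0,-1,0,0,0,0,-1],(⟨0,[(24,0)]⟩,⟨0,[(25,0)]⟩),(⟨0,[(33,0)]⟩,⟨0,[(34,0)]⟩),⟨0,[(2,0)]⟩,.k,
  .k,(.x (-1) ⟨7,[(14,3),(7,2),(0,2),(11,1)]⟩ ⟨0,[(37,0)]⟩),.k,(.r (-1) ⟨0,[(0,0)]⟩ ⟨3,[(1,0),(1,2),
  (6,0),(18,1),(0,1),(9,0)]⟩),.k,⟨false,1,⟨0,[(0,0)]⟩,⟨1,[(1,0),(1,0),(6,0),(29,0)]⟩⟩,⟨true,0,⟨0,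
  [(24,0),(2,0)]⟩,⟨0,[(18,0),(6,0)]⟩⟩,⟨false,0,⟨0,[(41,0)]⟩,⟨9,[(4,5),(5,1),(2,3),(9,2),(18,0)]⟩⟩,
  ⟨false,0,⟨3,[(1,1),(1,1),(20,3),(1,1),(0,1),(2,0),(0,0)]⟩,⟨1,[(0,0),(3,0),(0,0),(3,0),(15,1)]⟩⟩,
  ⟨true,0,⟨0,[(45,0)]⟩,⟨0,[]⟩⟩,⟨false,0,⟨0,[(3,0),(20,0),(1,0)]⟩,⟨6,[(0,3),(3,2),(0,0),(0,3),(8,0),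
  (2,0),(6,6)]⟩⟩,[.o ⟨false,0,⟨0,[(26,0)]⟩,⟨7,[(21,3),(0,0),(0,0),(11,1),(7,3)]⟩⟩,.o ⟨false,1,⟨1,
  [(29,1),(5,0),(7,0)]⟩,⟨6,[(5,1),(0,0),(8,2),(5,0)]⟩⟩,.o ⟨false,1,⟨1,[(25,1),(9,0),(6,0)]⟩,⟨4,[(9,
  2),(0,0),(2,0),(10,4),(1,0),(0,0),(2,1)]⟩⟩,.a ⟨true,0,⟨0,[(25,0)]⟩,⟨0,[(24,0)]⟩⟩ ⟨false,1,⟨1,[(0,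
  0),(0,0),(20,0)]⟩,⟨0,[(3,0)]⟩⟩ ⟨true,0,⟨0,[(24,0),(1,0)]⟩,⟨6,[(5,1),(0,0),(8,2),(5,0),(3,6)]⟩⟩]⟩)
  (.K ⟨0,[0,0,0,1],0,(-1),(⟨0,[(25,0)]⟩,⟨0,[(24,0)]⟩),.k,(.x 0 ⟨1,[(14,0),(12,0),(2,1),(0,0)]⟩ ⟨0,
  [(37,0),(4,0)]⟩),(.x 0 ⟨0,[(37,0)]⟩ ⟨7,[(14,3),(7,2),(0,2),(11,1)]⟩),.k,.k,[⟨0,[(25,0)]⟩,⟨0,[(24,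
  0)]⟩,⟨7,[(22,4),(0,0),(1,7),(12,3),(3,1)]⟩,⟨1,[(0,1),(8,1),(2,0),(11,1),(13,0),(2,0)]⟩]⟩)))) (.Q
  [0,1,1,0,0,0,0,0,1,0,0,-1] (.p false [0,0,0,1] [] (⟨0,[(22,0)]⟩,⟨0,[(21,0)]⟩) .k 0 (⟨0,[]⟩,⟨0,
  []⟩) .k .k) (.Q [0,1,-1,0,0,0,0,0,-1,0,0,1] (.p true [0,0,0,1] [] (⟨0,[(23,0)]⟩,⟨0,[(22,0)]⟩) .k
  0 (⟨0,[]⟩,⟨0,[]⟩) .k .k) (.K ⟨0,[0,0,0,1],0,0,(⟨0,[(24,0)]⟩,⟨0,[(23,0)]⟩),.k,(.r (-1) ⟨1,[(2,0),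
  (4,0),(14,0),(17,0)]⟩ ⟨3,[(2,3),(6,3),(2,1),(16,0),(0,0),(7,1)]⟩),(.x 0 ⟨0,[(36,0)]⟩ ⟨7,[(13,3),
  (7,2),(0,2),(11,1)]⟩),.k,.k,[⟨0,[(24,0)]⟩,⟨0,[(23,0)]⟩,⟨0,[(0,0)]⟩,⟨0,[(1,0)]⟩]⟩) (.Q [0,1,-1,-1,
  0,0,0,0,-1,-1,0,1] (.p true [0,0,0,1] [1] (⟨0,[(24,0)]⟩,⟨0,[(23,0)]⟩) .k 1 (⟨0,[]⟩,⟨0,[]⟩) .k .k)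
  (.R ⟨2,true,false,true,[0,1],[1,0,0,-1],[1,1,1,1],(⟨0,[]⟩,⟨0,[]⟩),(⟨0,[(24,0)]⟩,⟨0,[(25,0)]⟩),⟨0,
  []⟩,.k,.k,.k,(.x 0 ⟨0,[(37,0)]⟩ ⟨7,[(14,3),(7,2),(0,2),(11,1)]⟩),.k,.k,⟨true,0,⟨0,[(1,0),(23,0),
  (14,0)]⟩,⟨0,[(3,0),(35,0)]⟩⟩,⟨false,1,⟨1,[(25,1),(9,0),(6,0)]⟩,⟨0,[(24,0)]⟩⟩,⟨false,0,⟨0,[]⟩,⟨3,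
  [(22,0),(0,0),(19,1)]⟩⟩,⟨true,0,⟨0,[(0,0)]⟩,⟨3,[(1,2),(0,0),(13,1),(7,1),(0,1),(3,1)]⟩⟩,⟨true,0,
  ⟨0,[(40,0)]⟩,⟨0,[(41,0)]⟩⟩,⟨false,1,⟨10,[(0,4),(3,3),(8,1),(8,0),(2,5),(9,2),(4,0),(1,2)]⟩,⟨0,[(1,
  0),(22,0),(0,0)]⟩⟩,[]⟩) (.R ⟨1,true,false,false,[1,-1],[0,0,0,1],[1,0,-1,-1],(⟨0,[(36,0)]⟩,⟨0,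
  [(37,0)]⟩),(⟨0,[(25,0)]⟩,⟨0,[(24,0)]⟩),⟨0,[(14,0)]⟩,.k,.k,(.r (-1) ⟨0,[(3,0),(4,0),(32,0)]⟩ ⟨2,
  [(10,1),(2,1),(15,1),(0,1)]⟩),(.x (-1) ⟨7,[(14,3),(7,2),(0,2),(11,1)]⟩ ⟨0,[(37,0)]⟩),(.r (-1) ⟨1,
  [(3,2),(4,0),(32,0),(1,0)]⟩ ⟨3,[(1,0),(0,2),(7,3),(2,1),(11,3)]⟩),.k,⟨false,1,⟨1,[(3,1),(38,0),(0,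
  0)]⟩,⟨0,[(1,0),(23,0),(14,0)]⟩⟩,⟨true,0,⟨0,[(24,0)]⟩,⟨4,[(9,2),(0,0),(2,0),(11,4),(0,0),(0,0),(2,
  1)]⟩⟩,⟨true,0,⟨0,[]⟩,⟨0,[(45,0)]⟩⟩,⟨false,0,⟨0,[(0,0)]⟩,⟨1,[(3,1),(21,1),(9,0),(7,0)]⟩⟩,⟨false,1,
  ⟨9,[(4,5),(5,1),(2,3),(9,2),(18,0)]⟩,⟨0,[(41,0)]⟩⟩,⟨true,0,⟨0,[(0,0),(39,0)]⟩,⟨0,[(3,0),(5,0),(15,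
  0)]⟩⟩,[]⟩))) (.Q [0,0,0,0,0,1,0,0,0,-1,0,1] (.p true [0,0,0,1] [1] (⟨0,[(23,0)]⟩,⟨0,[(22,0)]⟩) .k
  1 (⟨0,[]⟩,⟨0,[]⟩) .k .k) (.R ⟨0,false,false,false,[1,0,0,-1],[0,1,1],[0,1,0,0,0,0,0,0,-1],(⟨0,
  [(23,0)]⟩,⟨0,[(24,0)]⟩),(⟨0,[(33,0),(2,0)]⟩,⟨0,[(18,0)]⟩),⟨0,[(0,0)]⟩,.k,.k,(.x (-1) ⟨7,[(13,3),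
  (7,2),(0,2),(11,1)]⟩ ⟨0,[(36,0)]⟩),(.r 0 ⟨1,[(1,0),(0,0),(5,0),(14,0),(7,1)]⟩ ⟨3,[(19,3),(1,0),(0,
  2)]⟩),.k,.k,⟨false,0,⟨0,[(1,0),(6,0),(14,0),(7,0),(5,0)]⟩,⟨7,[(12,3),(8,0),(0,4),(19,1)]⟩⟩,⟨true,
  0,⟨0,[(17,0),(5,0)]⟩,⟨0,[(24,0),(1,0)]⟩⟩,⟨true,0,⟨0,[(44,0)]⟩,⟨0,[]⟩⟩,⟨false,1,⟨15,[(4,3),(7,3),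
  (8,0),(0,8),(0,15),(5,7),(4,1),(7,3)]⟩,⟨0,[(1,0),(23,0),(14,0)]⟩⟩,⟨false,0,⟨0,[]⟩,⟨0,[]⟩⟩,⟨false,
  0,⟨0,[]⟩,⟨0,[]⟩⟩,[.o ⟨false,0,⟨2,[(4,1),(9,0),(10,0)]⟩,⟨0,[(14,0),(13,0),(13,0)]⟩⟩,.o ⟨false,1,⟨3,
  [(4,1),(16,0),(0,0),(11,0),(7,0)]⟩,⟨0,[(25,0),(14,0)]⟩⟩,.o ⟨false,1,⟨1,[(24,1),(9,0),(6,0)]⟩,⟨4,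
  [(8,2),(0,0),(2,0),(10,4),(1,0),(0,0),(2,1)]⟩⟩,.a ⟨true,0,⟨0,[(24,0)]⟩,⟨0,[(23,0)]⟩⟩ ⟨false,0,⟨2,
  [(1,1),(0,0),(1,0),(3,0),(14,1),(1,1)]⟩,⟨1,[(22,0),(6,0),(0,0),(11,0)]⟩⟩ ⟨true,0,⟨2,[(4,1),(9,0),
  (8,2),(1,0)]⟩,⟨0,[(24,0),(0,0),(14,0)]⟩⟩]⟩) (.R ⟨1,false,false,true,[1,0,0,-1],[1,0,-1],[0,1,0,-1,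
  0,0,0,0,-1],(⟨0,[(23,0)]⟩,⟨0,[(24,0)]⟩),(⟨0,[(32,0)]⟩,⟨0,[(33,0)]⟩),⟨0,[(0,0)]⟩,.k,.k,(.x (-1) ⟨7,
  [(13,3),(7,2),(0,2),(11,1)]⟩ ⟨0,[(36,0)]⟩),.k,(.r 0 ⟨1,[(1,1),(6,1),(2,0),(11,1),(13,0),(2,0)]⟩
  ⟨3,[(9,3),(11,0),(0,2),(6,1),(0,1)]⟩),.k,⟨false,0,⟨1,[(1,1),(6,1),(2,0),(11,1),(13,0),(2,0)]⟩,⟨3,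
  [(9,3),(11,0),(0,2)]⟩⟩,⟨true,0,⟨0,[(23,0),(2,0)]⟩,⟨0,[(17,0),(6,0)]⟩⟩,⟨false,0,⟨0,[(40,0)]⟩,⟨9,
  [(3,5),(5,1),(2,3),(9,2),(18,0)]⟩⟩,⟨false,1,⟨1,[(22,0),(0,1),(1,1),(3,0),(0,0),(11,0)]⟩,⟨6,[(1,6),
  (2,1),(0,0),(8,2),(5,0)]⟩⟩,⟨true,0,⟨0,[(44,0)]⟩,⟨0,[]⟩⟩,⟨false,1,⟨1,[(9,1),(12,0),(0,1),(6,1),(3,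
  0)]⟩,⟨4,[(1,3),(0,0),(2,2),(8,0),(5,0),(3,0)]⟩⟩,[.o ⟨false,0,⟨0,[(25,0)]⟩,⟨7,[(20,3),(0,0),(0,0),
  (11,1),(7,3)]⟩⟩,.o ⟨false,1,⟨1,[(28,1),(5,0),(7,0)]⟩,⟨6,[(4,1),(0,0),(8,2),(5,0)]⟩⟩,.o ⟨false,1,
  ⟨1,[(24,1),(9,0),(6,0)]⟩,⟨4,[(8,2),(0,0),(2,0),(10,4),(1,0),(0,0),(2,1)]⟩⟩,.a ⟨true,0,⟨0,[(24,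
  0)]⟩,⟨0,[(23,0)]⟩⟩ ⟨false,0,⟨1,[(1,0),(0,0),(5,0),(14,0)]⟩,⟨15,[(9,7),(2,3),(8,0),(0,8),(6,3),(0,
  3),(11,5)]⟩⟩ ⟨true,0,⟨0,[(23,0),(1,0)]⟩,⟨6,[(4,1),(0,0),(8,2),(5,0),(3,6)]⟩⟩]⟩))))))) (.I [0,0,2,
  0,-1,-2,1] (.Q [0,0,2,0,-1,0,1,0,0,0,-1] (.p false [0,0,1] [] (⟨0,[(28,0)]⟩,⟨0,[(27,0)]⟩) .k 0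
  (⟨0,[]⟩,⟨0,[]⟩) .k .k) (.K ⟨2,[0,-1,1],(-1),0,(⟨0,[(6,0)]⟩,⟨0,[(28,0),(3,0)]⟩),.k,(.x 1 ⟨0,[(1,
  0)]⟩ ⟨1,[(26,1),(1,1),(1,0),(1,3),(4,2)]⟩),.k,.k,.k,[⟨0,[(36,0)]⟩,⟨0,[(2,0),(16,0),(0,0)]⟩,⟨3,
  [(17,0),(0,0),(7,3),(10,1)]⟩,⟨0,[(0,0)]⟩]⟩) (.K ⟨0,[1,1,-1],1,0,(⟨0,[(28,0),(3,0)]⟩,⟨0,[(6,0)]⟩),
  .k,.k,(.x (-2) ⟨3,[(0,3),(16,0),(0,0),(9,3),(1,1),(1,7)]⟩ ⟨0,[(1,0)]⟩),.k,.k,[⟨0,[(1,0),(26,0),(3,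
  1)]⟩,⟨0,[(0,0)]⟩,⟨0,[(16,0),(7,0),(11,0)]⟩,⟨0,[(2,0)]⟩]⟩)) (.I [0,-1,1,0,0,0,0,0,1] (.Q [0,0,-2,0,
  1,0,-1,0,0,0,1] (.p true [0,0,1] [] (⟨0,[(29,0)]⟩,⟨0,[(28,0)]⟩) .k 0 (⟨0,[]⟩,⟨0,[]⟩) .k .k) (.Q
  [0,0,2,0,-1,0,1,0,0,1,-1] (.p false [0,0,1] [1] (⟨0,[(30,0)]⟩,⟨0,[(29,0)]⟩) .k 1 (⟨0,[]⟩,⟨0,[]⟩)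
  .k .k) (.K ⟨0,[1,1,-1],1,0,(⟨1,[(0,0),(2,0),(26,0)]⟩,⟨0,[(8,0)]⟩),.k,.k,(.r 0 ⟨7,[(0,1),(3,1),(2,
  9),(2,1),(8,0),(0,0),(6,3),(0,3)]⟩ ⟨1,[(1,1),(4,0),(11,0),(19,2)]⟩),.k,.k,[⟨0,[(0,0)]⟩,⟨0,[(1,
  0)]⟩,⟨35,[(0,9),(2,3),(14,17),(0,2),(0,2),(7,5),(2,3),(1,7),(1,17),(2,35)]⟩,⟨0,[(4,0)]⟩]⟩) (.Q [0,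
  0,0,0,0,-1,0,0,0,1,0,-1] (.p false [0,0,0,1] [1] (⟨0,[(22,0)]⟩,⟨0,[(21,0)]⟩) .k 1 (⟨0,[]⟩,⟨0,[]⟩)
  .k .k) (.I [0,-1,-1,-1,1,0,0,1,-1] (.R ⟨1,false,false,true,[1,0,0,-1],[1,0,-1],[0,0,0,-1,0,0,0,0,
  -1],(⟨0,[(23,0)]⟩,⟨0,[(24,0)]⟩),(⟨0,[(32,0)]⟩,⟨0,[(33,0)]⟩),⟨0,[(1,0)]⟩,.k,.k,(.x (-1) ⟨7,[(13,3),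
  (7,2),(0,2),(11,1)]⟩ ⟨0,[(36,0)]⟩),.k,(.r (-1) ⟨21,[(0,17),(13,1),(5,1),(0,2),(0,0),(7,3),(6,7),
  (2,1)]⟩ ⟨3,[(4,3),(4,2),(18,0),(0,0),(7,0),(1,0)]⟩),.k,⟨false,1,⟨0,[(0,0)]⟩,⟨0,[(4,0),(4,0),(27,
  0)]⟩⟩,⟨true,0,⟨0,[(23,0),(2,0)]⟩,⟨0,[(17,0),(6,0)]⟩⟩,⟨true,0,⟨0,[(40,0)]⟩,⟨0,[(39,0)]⟩⟩,⟨false,0,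
  ⟨0,[(4,0),(18,0),(1,0)]⟩,⟨1,[(0,1),(7,0),(0,0),(5,0),(1,0),(6,1)]⟩⟩,⟨false,1,⟨3,[(21,0),(0,0),(19,
  1)]⟩,⟨0,[]⟩⟩,⟨false,0,⟨0,[(4,0),(1,0),(16,0)]⟩,⟨0,[(0,0),(16,0),(6,0)]⟩⟩,[.o ⟨false,0,⟨0,[(25,
  0)]⟩,⟨7,[(20,3),(0,0),(0,0),(11,1),(7,3)]⟩⟩,.o ⟨false,1,⟨1,[(28,1),(5,0),(7,0)]⟩,⟨2,[(8,1),(6,0),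
  (4,0)]⟩⟩,.o ⟨false,1,⟨1,[(24,1),(9,0),(6,0)]⟩,⟨6,[(6,0),(1,3),(0,0),(2,0),(10,6),(2,1),(2,2)]⟩⟩,
  .a ⟨true,0,⟨0,[(24,0)]⟩,⟨0,[(23,0)]⟩⟩ ⟨false,1,⟨0,[(0,0),(30,0)]⟩,⟨0,[(4,0),(34,0)]⟩⟩ ⟨true,0,⟨0,
  [(23,0),(1,0)]⟩,⟨2,[(8,1),(6,0),(4,0),(3,2)]⟩⟩]⟩) (.Q [0,-1,-1,-2,1,0,0,0,-1,-1,0,1] (.p true [0,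
  0,0,1] [1] (⟨0,[(24,0)]⟩,⟨0,[(23,0)]⟩) .k 1 (⟨0,[]⟩,⟨0,[]⟩) .k .k) (.I [0,0,-1,-1,1,0,0,1,-1] (.R
  ⟨1,false,false,true,[1,0,0,-1],[1,0,-1],[0,1,0,-1,0,0,0,0,-1],(⟨0,[(25,0)]⟩,⟨0,[(26,0)]⟩),(⟨0,
  [(34,0)]⟩,⟨0,[(35,0)]⟩),⟨0,[(3,0)]⟩,.k,.k,(.x (-1) ⟨7,[(15,3),(7,2),(0,2),(11,1)]⟩ ⟨0,[(38,0)]⟩),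
  .k,(.r (-1) ⟨0,[(0,0)]⟩ ⟨3,[(2,0),(3,0),(4,2),(12,0),(6,0),(0,0)]⟩),.k,⟨false,1,⟨0,[(0,0)]⟩,⟨1,
  [(2,0),(6,0),(1,0)]⟩⟩,⟨true,0,⟨0,[(25,0),(2,0)]⟩,⟨0,[(19,0),(6,0)]⟩⟩,⟨false,0,⟨0,[(42,0)]⟩,⟨13,
  [(4,1),(6,5),(2,1),(2,1),(5,2),(0,2),(19,5)]⟩⟩,⟨false,0,⟨0,[(6,0),(18,0),(1,0)]⟩,⟨0,[(1,0),(15,
  0)]⟩⟩,⟨true,0,⟨0,[(46,0)]⟩,⟨0,[]⟩⟩,⟨false,0,⟨0,[(6,0),(1,0),(16,0)]⟩,⟨0,[(1,0),(16,0)]⟩⟩,[.o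
  ⟨false,0,⟨0,[(27,0)]⟩,⟨7,[(22,3),(0,0),(0,0),(11,1),(7,3)]⟩⟩,.o ⟨false,1,⟨1,[(30,1),(5,0),(7,0)]⟩,
  ⟨2,[(10,1),(6,0),(4,0)]⟩⟩,.o ⟨false,1,⟨1,[(26,1),(9,0),(6,0)]⟩,⟨6,[(8,0),(1,3),(0,0),(2,0),(10,6),
  (2,1),(2,2)]⟩⟩,.a ⟨true,0,⟨0,[(26,0)]⟩,⟨0,[(25,0)]⟩⟩ ⟨false,1,⟨15,[(1,7),(21,4),(0,0),(0,7),(13,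
  3),(3,1)]⟩,⟨2,[(2,0),(1,0),(1,1),(10,0),(22,1)]⟩⟩ ⟨true,0,⟨0,[(25,0),(1,0)]⟩,⟨2,[(10,1),(6,0),(4,
  0),(3,2)]⟩⟩]⟩) (.K ⟨0,[0,0,0,1],0,(-1),(⟨0,[(26,0)]⟩,⟨0,[(25,0)]⟩),.k,(.r 0 ⟨1,[(0,1),(3,0),(0,0),
  (16,0),(19,3)]⟩ ⟨15,[(2,3),(8,3),(2,3),(8,14),(0,4),(6,1),(0,1)]⟩),(.x 0 ⟨0,[(38,0)]⟩ ⟨7,[(15,3),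
  (7,2),(0,2),(11,1)]⟩),.k,.k,[⟨0,[(26,0)]⟩,⟨0,[(25,0)]⟩,⟨7,[(23,4),(0,0),(1,7),(12,3),(3,1)]⟩,⟨1,
  [(0,1),(9,1),(2,0),(11,1),(13,0),(2,0)]⟩]⟩)) (.K ⟨0,[0,0,0,1],0,(-1),(⟨0,[(25,0)]⟩,⟨0,[(24,0)]⟩),
  .k,(.x 0 ⟨1,[(14,0),(12,0),(2,1),(0,0)]⟩ ⟨1,[(6,0),(11,0),(15,0),(7,0)]⟩),(.x 0 ⟨0,[(37,0)]⟩ ⟨7,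
  [(14,3),(7,2),(0,2),(11,1)]⟩),.k,.k,[⟨0,[(25,0)]⟩,⟨0,[(24,0)]⟩,⟨7,[(22,4),(0,0),(1,7),(12,3),(3,
  1)]⟩,⟨0,[(0,0),(8,0),(31,0)]⟩]⟩))) (.I [1,-1,-1,0,1,0,0,0,-1] (.I [1,0,-2,-1,1,0,0,-1,-1] (.I [0,
  0,1,1,0,0,0,1,1] (.R ⟨0,false,false,false,[1,0,0,-1],[0,1,1],[1,0,0,0,0,0,0,0,-1],(⟨0,[(25,0)]⟩,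
  ⟨0,[(26,0)]⟩),(⟨0,[(35,0),(2,0)]⟩,⟨0,[(20,0)]⟩),⟨0,[(3,0)]⟩,.k,.k,(.x (-1) ⟨7,[(15,3),(7,2),(0,2),
  (11,1)]⟩ ⟨0,[(38,0)]⟩),(.r (-1) ⟨1,[(1,1),(29,0),(0,0)]⟩ ⟨0,[(0,0)]⟩),.k,.k,⟨false,1,⟨0,[(1,0)]⟩,
  ⟨0,[(0,0)]⟩⟩,⟨true,0,⟨0,[(19,0),(5,0)]⟩,⟨0,[(26,0),(1,0)]⟩⟩,⟨true,0,⟨0,[]⟩,⟨0,[(46,0)]⟩⟩,⟨false,0,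
  ⟨0,[(6,0),(3,0),(6,0),(7,0)]⟩,⟨0,[(1,0),(24,0),(1,0)]⟩⟩,⟨false,0,⟨0,[]⟩,⟨0,[]⟩⟩,⟨false,0,⟨0,[]⟩,
  ⟨0,[]⟩⟩,[.o ⟨false,0,⟨0,[(10,0),(6,0)]⟩,⟨13,[(1,9),(4,7),(9,3),(7,0),(2,3),(3,0),(0,10),(3,2)]⟩⟩,
  .o ⟨false,1,⟨15,[(17,7),(4,3),(0,0),(0,0),(11,5),(7,7)]⟩,⟨0,[(27,0),(14,0)]⟩⟩,.o ⟨false,1,⟨1,[(26,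
  1),(9,0),(6,0)]⟩,⟨6,[(8,0),(1,3),(0,0),(2,0),(10,6),(2,1),(2,2)]⟩⟩,.a ⟨true,0,⟨0,[(26,0)]⟩,⟨0,
  [(25,0)]⟩⟩ ⟨false,1,⟨0,[(2,0)]⟩,⟨0,[(6,0),(39,0)]⟩⟩ ⟨true,0,⟨0,[(10,0),(6,0),(7,0)]⟩,⟨0,[(26,0),
  (0,0),(14,0)]⟩⟩]⟩) (.R ⟨2,true,false,true,[0,1],[1,0,0,-1],[0,1,1],(⟨0,[]⟩,⟨0,[]⟩),(⟨0,[(25,0)]⟩,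
  ⟨0,[(26,0)]⟩),⟨0,[]⟩,.k,.k,.k,(.x 0 ⟨0,[(38,0)]⟩ ⟨7,[(15,3),(7,2),(0,2),(11,1)]⟩),.k,.k,⟨true,0,
  ⟨0,[(6,0),(39,0)]⟩,⟨0,[(0,0),(20,0)]⟩⟩,⟨false,1,⟨1,[(26,1),(9,0),(6,0)]⟩,⟨0,[(25,0)]⟩⟩,⟨false,0,
  ⟨0,[(42,0)]⟩,⟨13,[(4,1),(6,5),(2,1),(2,1),(5,2),(0,2),(19,5)]⟩⟩,⟨true,0,⟨1,[(0,1),(2,1),(6,0),(2,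
  0),(1,0),(23,0)]⟩,⟨0,[(6,0),(18,0),(15,0)]⟩⟩,⟨true,0,⟨0,[(46,0)]⟩,⟨0,[]⟩⟩,⟨false,1,⟨29,[(0,15),(3,
  9),(9,2),(2,4),(4,0),(0,6),(2,29),(2,2),(6,12)]⟩,⟨0,[(6,0),(18,0)]⟩⟩,[]⟩)) (.R ⟨0,false,false,
  false,[1,0,0,-1],[0,1,1],[0,1,0,0,0,0,0,0,-1],(⟨0,[(24,0)]⟩,⟨0,[(25,0)]⟩),(⟨0,[(34,0),(2,0)]⟩,⟨0,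
  [(19,0)]⟩),⟨0,[(2,0)]⟩,.k,.k,(.x (-1) ⟨7,[(14,3),(7,2),(0,2),(11,1)]⟩ ⟨0,[(37,0)]⟩),(.r (-1) ⟨1,
  [(22,0),(9,1),(8,1),(0,0)]⟩ ⟨28,[(0,10),(2,1),(8,1),(0,5),(2,1),(6,8),(14,2)]⟩),.k,.k,⟨false,1,⟨0,
  [(1,0),(30,0),(5,0),(2,0)]⟩,⟨19,[(0,15),(2,2),(0,0),(3,3),(7,1),(4,0),(21,7)]⟩⟩,⟨true,0,⟨0,[(18,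
  0),(5,0)]⟩,⟨0,[(25,0),(1,0)]⟩⟩,⟨true,0,⟨0,[(45,0)]⟩,⟨0,[]⟩⟩,⟨false,0,⟨17,[(0,13),(2,2),(4,3),(7,
  1),(1,16),(2,0),(2,17),(18,6)]⟩,⟨0,[(1,0),(23,0),(0,0),(14,0)]⟩⟩,⟨false,0,⟨0,[]⟩,⟨0,[]⟩⟩,⟨false,0,
  ⟨0,[]⟩,⟨0,[]⟩⟩,[.o ⟨false,0,⟨0,[(9,0),(6,0)]⟩,⟨0,[(15,0),(13,0),(13,0)]⟩⟩,.o ⟨false,1,⟨15,[(16,7),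
  (4,3),(0,0),(0,0),(11,5),(7,7)]⟩,⟨0,[(26,0),(14,0)]⟩⟩,.o ⟨false,1,⟨1,[(25,1),(9,0),(6,0)]⟩,⟨6,[(7,
  0),(1,3),(0,0),(2,0),(10,6),(2,1),(2,2)]⟩⟩,.a ⟨true,0,⟨0,[(25,0)]⟩,⟨0,[(24,0)]⟩⟩ ⟨false,1,⟨1,[(22,
  0),(19,0)]⟩,⟨0,[(5,0)]⟩⟩ ⟨true,0,⟨0,[(9,0),(6,0),(7,0)]⟩,⟨0,[(25,0),(0,0),(14,0)]⟩⟩]⟩)) (.R ⟨0,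
  false,false,false,[1,0,0,-1],[1,0,-1],[0,1,1],(⟨0,[(23,0)]⟩,⟨0,[(24,0)]⟩),(⟨0,[(32,0)]⟩,⟨0,[(33,
  0)]⟩),⟨0,[(1,0)]⟩,.k,.k,(.x (-1) ⟨7,[(13,3),(7,2),(0,2),(11,1)]⟩ ⟨0,[(36,0)]⟩),.k,.k,.k,⟨false,0,
  ⟨1,[(11,0),(25,0),(2,0)]⟩,⟨1,[(31,1),(9,0),(0,0)]⟩⟩,⟨true,0,⟨0,[(23,0),(2,0)]⟩,⟨0,[(17,0),(6,
  0)]⟩⟩,⟨true,(-1),⟨0,[(0,0)]⟩,⟨1,[(21,0),(19,0)]⟩⟩,⟨false,0,⟨0,[(0,0),(1,0),(20,0),(7,0),(6,1)]⟩,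
  ⟨1,[(2,0),(14,0),(2,0),(0,0),(2,1)]⟩⟩,⟨false,0,⟨0,[]⟩,⟨0,[]⟩⟩,⟨false,0,⟨0,[]⟩,⟨0,[]⟩⟩,[.o ⟨false,
  1,⟨1,[(28,1),(5,0),(7,0)]⟩,⟨2,[(8,1),(6,0),(4,0)]⟩⟩,.o ⟨false,1,⟨0,[(25,0),(16,0)]⟩,⟨0,[(27,0)]⟩⟩,
  .o ⟨false,1,⟨1,[(24,1),(9,0),(6,0)]⟩,⟨6,[(6,0),(1,3),(0,0),(2,0),(10,6),(2,1),(2,2)]⟩⟩,.a ⟨true,0,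
  ⟨0,[(24,0)]⟩,⟨0,[(23,0)]⟩⟩ ⟨true,0,⟨0,[(44,0)]⟩,⟨0,[]⟩⟩ ⟨false,1,⟨0,[(23,0),(1,0),(16,0)]⟩,⟨1,[(1,
  1),(11,0),(6,0)]⟩⟩]⟩)))) (.K ⟨2,[0,-1,1],(-1),0,(⟨0,[(7,0)]⟩,⟨0,[(29,0),(3,0)]⟩),.k,(.r (-1) ⟨1,
  [(2,1),(2,1),(1,1),(2,0),(6,0),(19,1)]⟩ ⟨5,[(6,7),(2,1),(15,1),(0,4),(0,2)]⟩),.k,.k,.k,[⟨0,[(37,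
  0)]⟩,⟨0,[(3,0),(16,0),(0,0)]⟩,⟨3,[(18,0),(0,0),(7,3),(10,1)]⟩,⟨0,[(0,0)]⟩]⟩)) (.Q [0,1,1,0,0,0,0,
  0,1,0,0,-1] (.p false [0,0,0,1] [] (⟨0,[(20,0)]⟩,⟨0,[(19,0)]⟩) .k 0 (⟨0,[]⟩,⟨0,[]⟩) .k .k) (.K ⟨0,
  [0,0,0,1],0,0,(⟨0,[(21,0)]⟩,⟨0,[(20,0)]⟩),.k,(.r (-1) ⟨1,[(19,0),(17,1),(0,0)]⟩ ⟨7,[(1,7),(4,3),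
  (2,1),(16,2),(0,2),(7,5)]⟩),(.x 0 ⟨0,[(33,0)]⟩ ⟨7,[(10,3),(7,2),(0,2),(11,1)]⟩),.k,.k,[⟨0,[(21,
  0)]⟩,⟨0,[(20,0)]⟩,⟨0,[(1,0),(19,0)]⟩,⟨0,[(0,0)]⟩]⟩) (.Q [0,0,0,0,0,-1,0,0,0,1,0,-1] (.p false [0,
  0,0,1] [1] (⟨0,[(21,0)]⟩,⟨0,[(20,0)]⟩) .k 1 (⟨0,[]⟩,⟨0,[]⟩) .k .k) (.R ⟨1,false,false,true,[1,0,0,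
  -1],[1,0,-1],[0,1,0,-1,0,0,0,0,-1],(⟨0,[(21,0)]⟩,⟨0,[(22,0)]⟩),(⟨0,[(30,0)]⟩,⟨0,[(31,0)]⟩),⟨0,[(0,
  0)]⟩,.k,.k,(.x (-1) ⟨7,[(11,3),(7,2),(0,2),(11,1)]⟩ ⟨0,[(34,0)]⟩),.k,(.r 0 ⟨1,[(1,1),(4,1),(2,0),
  (11,1),(13,0),(2,0)]⟩ ⟨3,[(7,3),(11,0),(0,2),(6,1),(0,1)]⟩),.k,⟨false,0,⟨1,[(1,1),(4,1),(2,0),(11,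
  1),(13,0),(2,0)]⟩,⟨3,[(7,3),(11,0),(0,2)]⟩⟩,⟨true,0,⟨0,[(21,0),(2,0)]⟩,⟨0,[(15,0),(6,0)]⟩⟩,⟨false,
  0,⟨0,[(38,0)]⟩,⟨5,[(4,1),(8,1),(5,0),(0,0),(19,3)]⟩⟩,⟨false,1,⟨1,[(20,0),(0,1),(1,1),(3,0),(0,0),
  (11,0)]⟩,⟨2,[(1,2),(4,1),(6,0),(4,0)]⟩⟩,⟨true,0,⟨0,[(42,0)]⟩,⟨0,[]⟩⟩,⟨false,1,⟨1,[(7,1),(12,0),(0,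
  1),(6,1),(3,0)]⟩,⟨1,[(1,1),(4,0),(11,0),(19,0)]⟩⟩,[.o ⟨false,0,⟨0,[(23,0)]⟩,⟨7,[(18,3),(0,0),(0,
  0),(11,1),(7,3)]⟩⟩,.o ⟨false,1,⟨1,[(26,1),(5,0),(7,0)]⟩,⟨2,[(6,1),(6,0),(4,0)]⟩⟩,.o ⟨false,1,⟨1,
  [(22,1),(9,0),(6,0)]⟩,⟨6,[(4,0),(1,3),(0,0),(2,0),(10,6),(2,1),(2,2)]⟩⟩,.a ⟨true,0,⟨0,[(22,0)]⟩,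
  ⟨0,[(21,0)]⟩⟩ ⟨false,0,⟨1,[(1,0),(0,0),(3,0),(14,0),(16,0)]⟩,⟨15,[(7,7),(2,3),(8,0),(0,8),(6,3),
  (0,3),(11,5)]⟩⟩ ⟨true,0,⟨0,[(21,0),(1,0)]⟩,⟨2,[(6,1),(6,0),(4,0),(3,2)]⟩⟩]⟩) (.R ⟨0,false,false,
  false,[1,0,0,-1],[0,1,1],[0,1,0,0,0,0,0,0,-1],(⟨0,[(21,0)]⟩,⟨0,[(22,0)]⟩),(⟨0,[(31,0),(2,0)]⟩,⟨0,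
  [(16,0)]⟩),⟨0,[(0,0)]⟩,.k,.k,(.x (-1) ⟨7,[(11,3),(7,2),(0,2),(11,1)]⟩ ⟨0,[(34,0)]⟩),(.r 0 ⟨1,[(1,
  0),(0,0),(3,0),(14,0),(7,1),(8,0)]⟩ ⟨3,[(17,3),(1,0),(0,2)]⟩),.k,.k,⟨false,0,⟨0,[(1,0),(4,0),(14,
  0),(7,0),(5,0)]⟩,⟨7,[(10,3),(8,0),(0,4),(19,1)]⟩⟩,⟨true,0,⟨0,[(15,0),(5,0)]⟩,⟨0,[(22,0),(1,0)]⟩⟩,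
  ⟨true,0,⟨0,[(42,0)]⟩,⟨0,[]⟩⟩,⟨false,1,⟨19,[(5,3),(4,5),(2,3),(4,1),(1,7),(0,19),(5,11),(4,2),(7,
  4)]⟩,⟨0,[(1,0),(21,0),(14,0)]⟩⟩,⟨false,0,⟨0,[]⟩,⟨0,[]⟩⟩,⟨false,0,⟨0,[]⟩,⟨0,[]⟩⟩,[.o ⟨false,0,⟨0,
  [(6,0),(6,0)]⟩,⟨0,[(12,0),(13,0),(13,0)]⟩⟩,.o ⟨false,1,⟨15,[(13,7),(4,3),(0,0),(0,0),(11,5),(7,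
  7)]⟩,⟨0,[(23,0),(14,0)]⟩⟩,.o ⟨false,1,⟨1,[(22,1),(9,0),(6,0)]⟩,⟨6,[(4,0),(1,3),(0,0),(2,0),(10,6),
  (2,1),(2,2)]⟩⟩,.a ⟨true,0,⟨0,[(22,0)]⟩,⟨0,[(21,0)]⟩⟩ ⟨false,0,⟨4,[(1,2),(0,1),(1,0),(1,2),(6,0),
  (7,2)]⟩,⟨1,[(20,0),(6,0),(0,0),(11,0)]⟩⟩ ⟨true,0,⟨0,[(6,0),(6,0),(7,0)]⟩,⟨0,[(22,0),(0,0),(14,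
  0)]⟩⟩]⟩)))))))))

theorem ok5 : chk (cU (-1) true 3) t5 r9 = true := by decide +kernel

noncomputable def t6 : Tre :=
  .Q [0,0,0,0,0,1,0,0,0,0,-1] (.ed true [1,-1,1] .k) t4 t5

theorem ok6 : chk (cU (-1) true 3) t6 l8 = true :=
  chk_Q (e' := [0,0,0,0,0,-1,0,0,0,0,1]) (by decide +kernel) (by decide +kernel) ok4 ok5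

noncomputable def l10 : List Con := (false, [0,0,0,1,0,0,0,0,0,1]) :: r8

noncomputable def r10 : List Con := (false, [0,0,0,-1,0,0,0,0,0,-1]) :: r8

noncomputable def t7 : Tre :=
  (.R ⟨1,false,false,false,[1,0,-1],[0,1],[0,1,0,-1,0,0,0,-1],(⟨0,[(22,0)]⟩,⟨0,[(23,0)]⟩),(⟨0,[(26,
  0)]⟩,⟨0,[(25,0)]⟩),⟨0,[(8,0)]⟩,.k,.k,.k,.k,(.r (-1) ⟨7,[(1,3),(9,0),(0,0),(17,11),(0,5)]⟩ ⟨4,[(2,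
  3),(15,1),(0,1),(1,0),(7,1)]⟩),.k,⟨true,0,⟨1,[(1,0),(25,0),(2,2)]⟩,⟨0,[(2,0),(18,0)]⟩⟩,⟨false,1,
  ⟨7,[(0,3),(0,3),(8,3),(0,0),(0,0),(18,5)]⟩,⟨0,[(16,0)]⟩⟩,⟨false,0,⟨0,[(30,0)]⟩,⟨0,[(29,0),(2,
  0)]⟩⟩,⟨true,0,⟨0,[(6,0)]⟩,⟨0,[(15,0),(14,0)]⟩⟩,⟨true,0,⟨0,[(34,0)]⟩,⟨0,[]⟩⟩,⟨true,0,⟨0,[(5,0)]⟩,
  ⟨0,[(15,0),(14,1)]⟩⟩,[.a ⟨true,0,⟨0,[(0,0)]⟩,⟨0,[(30,0)]⟩⟩ ⟨false,0,⟨1,[(1,0),(25,0),(2,0)]⟩,⟨7,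
  [(2,3),(8,0),(0,0),(18,3),(0,1)]⟩⟩ ⟨true,0,⟨8,[(0,3),(0,2),(3,3),(4,0),(8,2)]⟩,⟨0,[(16,0),(13,
  0)]⟩⟩,.o ⟨false,1,⟨0,[(29,0),(2,0)]⟩,⟨0,[(4,0)]⟩⟩,.o ⟨false,1,⟨1,[(20,1),(3,0),(6,0)]⟩,⟨0,[(7,
  0)]⟩⟩,.o ⟨false,0,⟨0,[(16,0)]⟩,⟨0,[(19,0),(11,0)]⟩⟩]⟩)

theorem ok7 : chk (cU (-1) true 3) t7 l10 = true := by decide +kernel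

noncomputable def l11 : List Con := (false, [0,0,0,0,0,-1,0,0,0,0,1]) :: r10

noncomputable def r11 : List Con := (false, [0,0,0,0,0,1,0,0,0,0,-1]) :: r10

noncomputable def t8 : Tre :=
  (.I [0,0,2,2,-1,0,0,-1] (.Q [0,1,0,1,0,0,-1,-1,0,0,1] (.p true [0,0,1] [] (⟨0,[(25,0)]⟩,⟨0,[(24,
  0)]⟩) .k 0 (⟨0,[]⟩,⟨0,[]⟩) .k .k) (.K ⟨2,[0,-1,1],(-1),0,(⟨0,[(2,0)]⟩,⟨0,[(25,0),(3,0)]⟩),.k,(.r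
  (-2) ⟨7,[(7,3),(5,3),(0,0),(0,0),(7,7),(9,11),(0,11),(0,1)]⟩ ⟨0,[(1,0)]⟩),.k,.k,.k,[⟨0,[(33,0)]⟩,
  ⟨0,[(0,0)]⟩,⟨3,[(14,0),(0,0),(7,3),(10,1)]⟩,⟨1,[(1,1),(1,0),(9,0),(19,2)]⟩]⟩) (.Q [0,1,-1,0,0,0,0,
  0,-1,0,0,1] (.p true [0,0,0,1] [] (⟨0,[(17,0)]⟩,⟨0,[(16,0)]⟩) .k 0 (⟨0,[]⟩,⟨0,[]⟩) .k .k) (.K ⟨0,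
  [0,0,0,1],0,0,(⟨0,[(18,0)]⟩,⟨0,[(17,0)]⟩),.k,(.r (-1) ⟨1,[(16,0),(17,1),(0,0)]⟩ ⟨4,[(0,0),(1,1),
  (1,0),(1,0),(8,1),(1,0)]⟩),(.x 0 ⟨0,[(30,0)]⟩ ⟨7,[(7,3),(7,2),(0,2),(11,1)]⟩),.k,.k,[⟨0,[(18,0)]⟩,
  ⟨0,[(17,0)]⟩,⟨0,[(0,0)]⟩,⟨1,[(1,0),(0,0),(5,0),(7,0),(0,1),(2,0),(10,0)]⟩]⟩) (.Q [0,1,1,0,-1,0,0,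
  0,1,0,0,-1] (.p false [0,0,0,1] [] (⟨0,[(18,0)]⟩,⟨0,[(17,0)]⟩) .k 0 (⟨0,[]⟩,⟨0,[]⟩) .k .k) (.K ⟨0,
  [0,0,0,1],0,(-1),(⟨0,[(19,0)]⟩,⟨0,[(18,0)]⟩),.k,(.x 0 ⟨1,[(8,0),(12,0),(2,1),(0,0)]⟩ ⟨0,[(31,0),
  (4,0)]⟩),(.x 0 ⟨0,[(31,0)]⟩ ⟨7,[(8,3),(7,2),(0,2),(11,1)]⟩),.k,.k,[⟨0,[(19,0)]⟩,⟨0,[(18,0)]⟩,⟨7,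
  [(16,4),(0,0),(1,7),(12,3),(3,1)]⟩,⟨0,[(0,0)]⟩]⟩) (.Q [0,0,0,0,0,-1,0,0,0,1,0,-1] (.p false [0,0,
  0,1] [1] (⟨0,[(19,0)]⟩,⟨0,[(18,0)]⟩) .k 1 (⟨0,[]⟩,⟨0,[]⟩) .k .k) (.I [1,0,-2,-1,1,0,0,0,-1] (.R
  ⟨1,false,false,true,[1,0,0,-1],[0,1],[1,1,0,0,0,0,0,0,-1],(⟨0,[(20,0)]⟩,⟨0,[(21,0)]⟩),(⟨0,[(33,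
  0)]⟩,⟨0,[(32,0)]⟩),⟨0,[(1,0)]⟩,.k,.k,(.x (-1) ⟨7,[(10,3),(7,2),(0,2),(11,1)]⟩ ⟨0,[(33,0)]⟩),(.x
  (-1) ⟨7,[(10,3),(7,2),(0,2),(11,1)]⟩ ⟨0,[(33,0)]⟩),(.r (-1) ⟨0,[(0,0),(36,0)]⟩ ⟨27,[(5,15),(3,7),
  (8,0),(0,14),(6,3),(0,3),(8,7)]⟩),.k,⟨false,1,⟨0,[(0,0)]⟩,⟨7,[(3,3),(1,1),(3,0),(2,0),(6,1),(1,3),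
  (0,0),(11,1)]⟩⟩,⟨true,0,⟨0,[(20,0)]⟩,⟨13,[(5,1),(1,4),(1,0),(1,0),(9,13),(1,3),(2,3),(4,1)]⟩⟩,
  ⟨false,0,⟨0,[]⟩,⟨3,[(18,0),(0,0),(19,1)]⟩⟩,⟨false,0,⟨3,[(3,1),(1,0),(6,0),(6,0),(0,2),(0,0),(5,0),
  (6,0)]⟩,⟨0,[(2,0),(4,0)]⟩⟩,⟨true,0,⟨0,[(36,0)]⟩,⟨0,[(37,0)]⟩⟩,⟨false,0,⟨0,[(3,0),(8,0),(12,0)]⟩,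
  ⟨0,[(2,0),(4,0),(29,0)]⟩⟩,[.o ⟨false,0,⟨0,[(36,0)]⟩,⟨0,[(11,0),(27,0)]⟩⟩,.o ⟨false,1,⟨3,[(18,0),
  (0,0),(16,3),(2,1)]⟩,⟨0,[(7,0)]⟩⟩,.o ⟨false,1,⟨1,[(21,1),(9,0),(6,0)]⟩,⟨9,[(3,3),(1,1),(1,0),(1,
  0),(1,4),(6,1),(1,5)]⟩⟩,.a ⟨true,0,⟨0,[(21,0)]⟩,⟨0,[(20,0)]⟩⟩ ⟨false,1,⟨1,[(18,0),(19,0)]⟩,⟨0,[(3,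
  0),(17,0)]⟩⟩ ⟨true,0,⟨0,[(20,0),(15,0)]⟩,⟨0,[(7,0),(13,0)]⟩⟩]⟩) (.R ⟨1,false,false,false,[1,0,0,
  -1],[1,-1],[0,0,0,-1,0,0,0,0,-1],(⟨0,[(20,0)]⟩,⟨0,[(21,0)]⟩),(⟨0,[(32,0)]⟩,⟨0,[(33,0)]⟩),⟨0,[(1,
  0)]⟩,.k,.k,(.x (-1) ⟨7,[(10,3),(7,2),(0,2),(11,1)]⟩ ⟨0,[(33,0)]⟩),(.r 0 ⟨0,[(2,0),(1,0),(0,0),(14,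
  0),(2,0),(10,0)]⟩ ⟨1,[(19,0),(17,1),(0,0)]⟩),.k,.k,⟨true,0,⟨0,[(2,0),(1,0),(0,0),(1,0),(12,0),(6,
  0),(6,0)]⟩,⟨0,[(0,0),(36,0),(0,0)]⟩⟩,⟨false,0,⟨9,[(3,3),(1,1),(1,0),(1,0),(1,4),(6,1),(1,5)]⟩,⟨0,
  [(21,0),(16,0)]⟩⟩,⟨true,0,⟨0,[(37,0)]⟩,⟨0,[(36,0)]⟩⟩,⟨false,0,⟨0,[(3,0),(33,0)]⟩,⟨0,[(2,0),(33,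
  0)]⟩⟩,⟨false,1,⟨3,[(18,0),(0,0),(19,1)]⟩,⟨0,[]⟩⟩,⟨false,0,⟨0,[(3,0)]⟩,⟨11,[(2,7),(15,2),(0,0),(1,
  3),(12,3)]⟩⟩,[.o ⟨false,0,⟨0,[(7,0)]⟩,⟨3,[(18,0),(0,0),(16,3),(2,1)]⟩⟩,.o ⟨false,1,⟨0,[(11,0),(27,
  0)]⟩,⟨0,[(36,0)]⟩⟩,.o ⟨false,1,⟨1,[(21,1),(9,0),(6,0)]⟩,⟨9,[(3,3),(1,1),(1,0),(1,0),(1,4),(6,1),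
  (1,5)]⟩⟩,.a ⟨true,0,⟨0,[(21,0)]⟩,⟨0,[(20,0)]⟩⟩ ⟨false,1,⟨0,[(2,0),(4,0),(12,0)]⟩,⟨9,[(0,1),(4,1),
  (3,0),(2,0),(6,3),(2,0)]⟩⟩ ⟨true,0,⟨0,[(7,0),(12,0)]⟩,⟨0,[(21,0),(14,0)]⟩⟩]⟩)) (.Q [0,1,1,-1,-1,0,
  0,0,1,0,0,-1] (.p false [0,0,0,1] [] (⟨0,[(20,0)]⟩,⟨0,[(19,0)]⟩) .k 0 (⟨0,[]⟩,⟨0,[]⟩) .k .k) (.R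
  ⟨2,true,false,true,[0,1],[0,0,0,1],[0,1,1],(⟨0,[]⟩,⟨0,[]⟩),(⟨0,[(21,0)]⟩,⟨0,[(20,0)]⟩),⟨0,[]⟩,.k,
  .k,.k,(.r 0 ⟨0,[(2,0),(1,0),(0,0),(14,0),(2,0),(10,0)]⟩ ⟨1,[(19,0),(17,1),(0,0)]⟩),.k,.k,⟨true,0,
  ⟨0,[(2,0),(1,0),(0,0),(1,0),(12,0),(6,0),(6,0)]⟩,⟨0,[(0,0),(7,0),(0,0),(11,0),(16,0)]⟩⟩,⟨false,0,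
  ⟨29,[(0,9),(2,7),(1,3),(1,1),(1,1),(8,8),(1,11),(10,4)]⟩,⟨0,[(21,0),(16,0)]⟩⟩,⟨false,0,⟨0,[(37,
  0)]⟩,⟨0,[(36,0),(2,0)]⟩⟩,⟨true,(-1),⟨0,[(0,0)]⟩,⟨0,[(2,0),(33,0)]⟩⟩,⟨true,0,⟨0,[(41,0)]⟩,⟨0,[]⟩⟩,
  ⟨false,0,⟨16,[(0,5),(2,4),(1,1),(3,0),(8,0),(0,3),(0,5),(10,2)]⟩,⟨0,[(2,0)]⟩⟩,[]⟩) (.I [0,0,0,-1,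
  0,0,0,0,1] (.R ⟨0,false,false,false,[1,0,0,-1],[1,-1],[1,0,0,0,0,0,0,0,-1],(⟨0,[(21,0)]⟩,⟨0,[(22,
  0)]⟩),(⟨0,[(33,0)]⟩,⟨0,[(34,0)]⟩),⟨0,[(2,0)]⟩,.k,.k,(.x (-1) ⟨7,[(11,3),(7,2),(0,2),(11,1)]⟩ ⟨0,
  [(34,0)]⟩),(.r 0 ⟨0,[(3,0),(1,0),(0,0),(14,0),(2,0),(10,0)]⟩ ⟨3,[(0,3),(18,0),(0,0),(18,1)]⟩),.k,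
  .k,⟨true,0,⟨0,[(3,0),(1,0),(0,0),(14,0),(2,0),(10,0)]⟩,⟨0,[(0,0)]⟩⟩,⟨false,0,⟨9,[(4,3),(1,1),(1,
  0),(1,0),(1,4),(6,1),(1,5)]⟩,⟨0,[(22,0),(16,0)]⟩⟩,⟨true,0,⟨0,[]⟩,⟨0,[(42,0)]⟩⟩,⟨false,0,⟨0,[(4,0),
  (33,0)]⟩,⟨15,[(1,11),(17,2),(0,0),(1,3),(12,3),(1,3)]⟩⟩,⟨false,0,⟨0,[]⟩,⟨0,[]⟩⟩,⟨false,0,⟨0,[]⟩,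
  ⟨0,[]⟩⟩,[.o ⟨false,0,⟨0,[(8,0)]⟩,⟨3,[(19,0),(0,0),(16,3),(2,1)]⟩⟩,.o ⟨false,1,⟨0,[(12,0),(27,0)]⟩,
  ⟨0,[(37,0)]⟩⟩,.o ⟨false,1,⟨1,[(22,1),(9,0),(6,0)]⟩,⟨9,[(4,3),(1,1),(1,0),(1,0),(1,4),(6,1),(1,
  5)]⟩⟩,.a ⟨true,0,⟨0,[(22,0)]⟩,⟨0,[(21,0)]⟩⟩ ⟨false,1,⟨0,[(1,0),(6,0),(12,0)]⟩,⟨27,[(0,15),(5,5),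
  (3,1),(9,5),(4,1),(1,4),(0,6)]⟩⟩ ⟨true,0,⟨0,[(8,0),(12,0)]⟩,⟨0,[(22,0),(14,0)]⟩⟩]⟩) (.R ⟨0,false,
  false,true,[1,0,0,-1],[0,1],[0,1],(⟨0,[(21,0)]⟩,⟨0,[(22,0)]⟩),(⟨0,[(34,0)]⟩,⟨0,[(33,0)]⟩),⟨0,[(2,
  0)]⟩,.k,.k,(.x (-1) ⟨7,[(11,3),(7,2),(0,2),(11,1)]⟩ ⟨0,[(34,0)]⟩),(.x (-1) ⟨7,[(11,3),(7,2),(0,2),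
  (11,1)]⟩ ⟨0,[(34,0)]⟩),.k,.k,⟨false,1,⟨0,[(38,0),(0,0)]⟩,⟨13,[(6,3),(3,1),(8,1),(0,1),(6,0),(0,0),
  (8,1)]⟩⟩,⟨true,0,⟨0,[(21,0)]⟩,⟨13,[(6,1),(1,4),(1,0),(1,0),(9,13),(1,3),(2,3),(4,1)]⟩⟩,⟨true,0,⟨0,
  [(4,0),(17,0),(12,0)]⟩,⟨0,[(0,0),(37,0)]⟩⟩,⟨false,0,⟨3,[(4,1),(1,0),(6,0),(6,0),(0,2),(0,0),(5,0),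
  (6,0)]⟩,⟨0,[(3,0),(4,0)]⟩⟩,⟨false,0,⟨0,[]⟩,⟨0,[]⟩⟩,⟨false,0,⟨0,[]⟩,⟨0,[]⟩⟩,[.o ⟨false,0,⟨0,[(37,
  0)]⟩,⟨0,[(12,0),(27,0)]⟩⟩,.o ⟨false,1,⟨3,[(19,0),(0,0),(16,3),(2,1)]⟩,⟨0,[(8,0)]⟩⟩,.o ⟨false,1,⟨1,
  [(22,1),(9,0),(6,0)]⟩,⟨9,[(4,3),(1,1),(1,0),(1,0),(1,4),(6,1),(1,5)]⟩⟩,.a ⟨true,0,⟨0,[(22,0)]⟩,⟨0,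
  [(21,0)]⟩⟩ ⟨false,1,⟨3,[(19,0),(0,0),(18,1)]⟩,⟨0,[(36,0)]⟩⟩ ⟨true,0,⟨0,[(21,0),(15,0)]⟩,⟨0,[(8,0),
  (13,0)]⟩⟩]⟩))))))) (.Q [0,1,-1,0,0,0,0,0,-1,0,0,1] (.p true [0,0,0,1] [] (⟨0,[(16,0)]⟩,⟨0,[(15,
  0)]⟩) .k 0 (⟨0,[]⟩,⟨0,[]⟩) .k .k) (.Q [0,1,1,0,0,0,0,0,1,0,0,-1] (.p false [0,0,0,1] [] (⟨0,[(17,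
  0)]⟩,⟨0,[(16,0)]⟩) .k 0 (⟨0,[]⟩,⟨0,[]⟩) .k .k) (.K ⟨0,[0,0,0,1],0,0,(⟨0,[(18,0)]⟩,⟨0,[(17,0)]⟩),
  .k,(.r (-1) ⟨19,[(2,7),(2,3),(9,0),(0,10)]⟩ ⟨4,[(1,4),(2,2),(0,5),(0,6),(10,4),(1,1),(3,1)]⟩),(.x
  0 ⟨0,[(30,0)]⟩ ⟨7,[(7,3),(7,2),(0,2),(11,1)]⟩),.k,.k,[⟨0,[(18,0)]⟩,⟨0,[(17,0)]⟩,⟨0,[(1,0)]⟩,⟨0,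
  [(0,0)]⟩]⟩) (.Q [0,0,0,0,0,1,0,0,0,-1,0,1] (.p true [0,0,0,1] [1] (⟨0,[(18,0)]⟩,⟨0,[(17,0)]⟩) .k
  1 (⟨0,[]⟩,⟨0,[]⟩) .k .k) (.R ⟨0,false,false,false,[1,0,0,-1],[0,1,1],[0,1,0,0,0,0,0,0,-1],(⟨0,
  [(18,0)]⟩,⟨0,[(19,0)]⟩),(⟨0,[(28,0),(2,0)]⟩,⟨0,[(13,0)]⟩),⟨0,[(0,0)]⟩,.k,.k,(.x (-1) ⟨7,[(8,3),(7,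
  2),(0,2),(11,1)]⟩ ⟨0,[(31,0)]⟩),(.r 0 ⟨2,[(1,2),(4,0),(2,1),(8,2),(1,0),(3,0)]⟩ ⟨3,[(14,3),(1,0),
  (0,2)]⟩),.k,.k,⟨false,0,⟨2,[(1,2),(3,0),(0,0),(2,0),(2,0),(5,2),(1,0),(11,1)]⟩,⟨7,[(7,3),(8,0),(0,
  4),(19,1)]⟩⟩,⟨true,0,⟨0,[(12,0),(5,0)]⟩,⟨0,[(19,0),(1,0)]⟩⟩,⟨true,0,⟨0,[(39,0)]⟩,⟨0,[]⟩⟩,⟨false,1,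
  ⟨19,[(7,5),(2,3),(1,3),(2,1),(1,9),(0,19),(5,7),(4,2),(7,6)]⟩,⟨0,[(1,0),(18,0),(14,0)]⟩⟩,⟨false,0,
  ⟨0,[]⟩,⟨0,[]⟩⟩,⟨false,0,⟨0,[]⟩,⟨0,[]⟩⟩,[.o ⟨false,0,⟨0,[(5,0),(4,0)]⟩,⟨19,[(3,3),(2,11),(9,2),(0,
  2),(7,19),(3,9)]⟩⟩,.o ⟨false,1,⟨15,[(10,7),(4,3),(0,0),(0,0),(11,5),(7,7)]⟩,⟨0,[(20,0),(14,0)]⟩⟩,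
  .o ⟨false,1,⟨1,[(19,1),(9,0),(6,0)]⟩,⟨4,[(5,2),(0,0),(0,1),(10,4),(1,1),(3,1)]⟩⟩,.a ⟨true,0,⟨0,
  [(19,0)]⟩,⟨0,[(18,0)]⟩⟩ ⟨false,0,⟨0,[(1,0),(3,0),(12,0),(15,0)]⟩,⟨1,[(17,0),(6,0),(0,0),(11,0)]⟩⟩
  ⟨true,0,⟨0,[(5,0),(4,0),(7,0)]⟩,⟨0,[(19,0),(0,0),(14,0)]⟩⟩]⟩) (.R ⟨1,false,false,false,[1,0,0,-1],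
  [0,1,1],[0,0,0,-1,0,0,0,0,-1],(⟨0,[(18,0)]⟩,⟨0,[(19,0)]⟩),(⟨0,[(28,0),(2,0)]⟩,⟨0,[(13,0)]⟩),⟨0,
  [(0,0)]⟩,.k,.k,(.x (-1) ⟨7,[(8,3),(7,2),(0,2),(11,1)]⟩ ⟨0,[(31,0)]⟩),(.r 0 ⟨2,[(1,2),(4,0),(2,1),
  (8,2),(1,0),(3,0)]⟩ ⟨3,[(14,3),(1,0),(0,2)]⟩),(.r 0 ⟨1,[(1,1),(3,1),(0,0),(11,1),(13,0),(2,0)]⟩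
  ⟨19,[(7,15),(8,4),(0,14),(5,7),(0,7),(1,3),(7,7)]⟩),.k,⟨false,0,⟨1,[(1,1),(3,1),(0,0),(11,1),(13,
  0),(2,0)]⟩,⟨7,[(7,3),(8,0),(0,4),(16,7),(2,1)]⟩⟩,⟨true,0,⟨0,[(12,0),(5,0)]⟩,⟨0,[(19,0),(1,0)]⟩⟩,
  ⟨true,0,⟨0,[(35,0)]⟩,⟨0,[(34,0)]⟩⟩,⟨false,1,⟨19,[(7,5),(2,3),(1,3),(2,1),(1,9),(0,19),(5,7),(4,2),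
  (7,6)]⟩,⟨0,[(1,0),(18,0),(14,0)]⟩⟩,⟨false,1,⟨3,[(16,0),(0,0),(19,1)]⟩,⟨0,[]⟩⟩,⟨false,1,⟨9,[(6,3),
  (0,5),(2,5),(1,1),(4,4),(0,9),(5,1),(4,2),(7,1)]⟩,⟨0,[(1,0),(18,0),(14,1)]⟩⟩,[.o ⟨false,0,⟨0,[(5,
  0),(4,0)]⟩,⟨19,[(3,3),(2,11),(9,2),(0,2),(7,19),(3,9)]⟩⟩,.o ⟨false,1,⟨15,[(10,7),(4,3),(0,0),(0,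
  0),(11,5),(7,7)]⟩,⟨0,[(20,0),(14,0)]⟩⟩,.o ⟨false,1,⟨1,[(19,1),(9,0),(6,0)]⟩,⟨4,[(5,2),(0,0),(0,1),
  (10,4),(1,1),(3,1)]⟩⟩,.a ⟨true,0,⟨0,[(19,0)]⟩,⟨0,[(18,0)]⟩⟩ ⟨false,0,⟨0,[(1,0),(3,0),(12,0)]⟩,⟨19,
  [(7,7),(8,4),(0,14),(5,3),(0,3),(1,11),(7,3)]⟩⟩ ⟨true,0,⟨0,[(5,0),(4,0),(7,0)]⟩,⟨0,[(19,0),(0,0),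
  (14,0)]⟩⟩]⟩))) (.I [0,0,2,1,-1,0,0,-2] (.I [0,0,-2,-2,1,0,0,1] (.Q [0,0,1,0,-1,0,1,1,1,1,-1,-1]
  (.p false [0,0,1] [1,0,0,-1] (⟨0,[(28,0)]⟩,⟨0,[(27,0)]⟩) .k 2 (⟨0,[(18,0)]⟩,⟨0,[(19,0)]⟩) .k (.x
  0 ⟨0,[(24,0),(3,0)]⟩ ⟨0,[(21,0),(5,0),(8,0)]⟩)) (.K ⟨0,[0,0,0,1],0,(-1),(⟨0,[(20,0)]⟩,⟨0,[(19,
  0)]⟩),.k,(.x 0 ⟨1,[(9,0),(12,0),(2,1),(0,0)]⟩ ⟨0,[(32,0),(4,0)]⟩),(.x 0 ⟨0,[(32,0)]⟩ ⟨7,[(9,3),(7,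
  2),(0,2),(11,1)]⟩),.k,.k,[⟨0,[(20,0)]⟩,⟨0,[(19,0)]⟩,⟨7,[(17,4),(0,0),(1,7),(12,3),(3,1)]⟩,⟨0,[(0,
  0),(20,0)]⟩]⟩) (.I [1,0,0,1,0,0,0,-1,1] (.Q [0,1,0,1,0,0,-1,-1,0,0,1] (.p true [0,0,1] [] (⟨0,
  [(30,0)]⟩,⟨0,[(29,0)]⟩) .k 0 (⟨0,[]⟩,⟨0,[]⟩) .k .k) (.Q [0,0,2,0,-1,0,1,0,0,0,-1] (.p false [0,0,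
  1] [] (⟨0,[(31,0)]⟩,⟨0,[(30,0)]⟩) .k 0 (⟨0,[]⟩,⟨0,[]⟩) .k .k) (.K ⟨2,[0,-1,1],(-1),0,(⟨0,[(8,0)]⟩,
  ⟨0,[(31,0),(3,0)]⟩),.k,(.r (-1) ⟨0,[(4,0)]⟩ ⟨15,[(1,3),(3,11),(5,3),(2,3),(5,4),(0,4),(11,1)]⟩),
  .k,.k,.k,[⟨0,[(39,0)]⟩,⟨0,[(1,0)]⟩,⟨47,[(1,23),(2,15),(6,3),(8,10),(0,10),(7,23),(11,9)]⟩,⟨0,[(0,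
  0)]⟩]⟩) (.Q [0,0,0,0,0,-1,0,0,0,1,0,-1] (.p false [0,0,0,1] [1] (⟨0,[(23,0)]⟩,⟨0,[(22,0)]⟩) .k 1
  (⟨0,[]⟩,⟨0,[]⟩) .k .k) (.I [0,0,-2,-2,1,0,0,0,-1] (.R ⟨1,false,false,true,[1,0,0,-1],[1,0,-1],[1,
  1,0,0,0,0,0,0,-1],(⟨0,[(24,0)]⟩,⟨0,[(25,0)]⟩),(⟨0,[(33,0)]⟩,⟨0,[(34,0)]⟩),⟨0,[(1,0)]⟩,.k,.k,(.x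
  (-1) ⟨7,[(14,3),(7,2),(0,2),(11,1)]⟩ ⟨0,[(37,0)]⟩),.k,(.r (-1) ⟨18,[(0,12),(5,2),(6,6),(1,0),(5,
  0),(0,2),(8,1),(6,2)]⟩ ⟨75,[(3,5),(0,15),(2,33),(5,3),(2,5),(6,29),(11,2),(7,0)]⟩),.k,⟨false,1,⟨1,
  [(0,1),(12,0),(2,0),(9,0)]⟩,⟨0,[(4,0),(36,0)]⟩⟩,⟨true,0,⟨0,[(24,0),(2,0)]⟩,⟨0,[(18,0),(6,0)]⟩⟩,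
  ⟨false,0,⟨0,[]⟩,⟨3,[(22,0),(0,0),(19,1)]⟩⟩,⟨false,0,⟨0,[(8,0),(20,0)]⟩,⟨0,[(0,0),(10,0),(0,0),(0,
  0),(2,0),(8,0)]⟩⟩,⟨true,0,⟨0,[(40,0)]⟩,⟨0,[(41,0)]⟩⟩,⟨false,0,⟨0,[(3,0),(4,0)]⟩,⟨0,[(0,0),(10,0),
  (4,0),(8,0),(13,0)]⟩⟩,[.o ⟨false,0,⟨0,[(26,0)]⟩,⟨7,[(21,3),(0,0),(0,0),(11,1),(7,3)]⟩⟩,.o ⟨false,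
  1,⟨7,[(5,3),(2,3),(13,0),(0,0),(5,3),(5,1)]⟩,⟨2,[(11,1),(4,0),(4,0)]⟩⟩,.o ⟨false,1,⟨1,[(25,1),(9,
  0),(6,0)]⟩,⟨9,[(7,1),(0,1),(2,1),(1,1),(1,3),(6,0),(1,7),(10,0)]⟩⟩,.a ⟨true,0,⟨0,[(25,0)]⟩,⟨0,
  [(24,0)]⟩⟩ ⟨false,1,⟨1,[(22,0),(19,0)]⟩,⟨0,[(8,0),(16,0)]⟩⟩ ⟨true,0,⟨0,[(24,0),(1,0)]⟩,⟨2,[(11,1),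
  (4,0),(4,0),(3,2)]⟩⟩]⟩) (.I [1,0,-2,-1,1,0,0,-1,-1] (.R ⟨1,false,false,false,[1,0,0,-1],[0,1,1],
  [1,1,0,0,0,0,0,0,-1],(⟨0,[(25,0)]⟩,⟨0,[(26,0)]⟩),(⟨0,[(35,0),(2,0)]⟩,⟨0,[(20,0)]⟩),⟨0,[(2,0)]⟩,.k,
  .k,(.x (-1) ⟨7,[(15,3),(7,2),(0,2),(11,1)]⟩ ⟨0,[(38,0)]⟩),(.r (-1) ⟨19,[(7,3),(5,11),(9,12),(0,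
  2)]⟩ ⟨31,[(1,17),(5,10),(6,8),(9,6),(4,2),(2,2),(6,2)]⟩),(.r (-1) ⟨0,[(0,0),(41,0)]⟩ ⟨5,[(1,1),(2,
  0),(9,0),(6,4),(2,1),(6,0)]⟩),.k,⟨false,1,⟨12,[(0,10),(6,0),(15,0),(6,2),(0,2),(7,4)]⟩,⟨2,[(1,2),
  (1,0),(3,1),(4,0),(4,0),(22,2)]⟩⟩,⟨true,0,⟨0,[(19,0),(5,0)]⟩,⟨0,[(26,0),(1,0)]⟩⟩,⟨false,0,⟨0,[]⟩,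
  ⟨3,[(23,0),(0,0),(19,1)]⟩⟩,⟨false,0,⟨0,[(9,0),(8,0)]⟩,⟨0,[(6,0),(35,0)]⟩⟩,⟨true,0,⟨0,[(41,0)]⟩,⟨0,
  [(42,0)]⟩⟩,⟨false,0,⟨0,[(9,0),(7,0)]⟩,⟨0,[(6,0),(35,1)]⟩⟩,[.o ⟨false,0,⟨0,[(12,0),(4,0)]⟩,⟨19,[(7,
  3),(5,11),(9,2),(0,2),(7,19),(3,9)]⟩⟩,.o ⟨false,1,⟨15,[(17,7),(4,3),(0,0),(0,0),(11,5),(7,7)]⟩,⟨0,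
  [(27,0),(14,0)]⟩⟩,.o ⟨false,1,⟨1,[(26,1),(9,0),(6,0)]⟩,⟨9,[(8,1),(0,1),(2,1),(1,1),(1,3),(6,0),(1,
  7),(10,0)]⟩⟩,.a ⟨true,0,⟨0,[(26,0)]⟩,⟨0,[(25,0)]⟩⟩ ⟨false,1,⟨1,[(23,0),(19,0)]⟩,⟨0,[(9,0),(16,
  0)]⟩⟩ ⟨true,0,⟨0,[(12,0),(4,0),(7,0)]⟩,⟨0,[(26,0),(0,0),(14,0)]⟩⟩]⟩) (.R ⟨1,false,false,false,[1,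
  0,0,-1],[1,-1],[0,1,0,-1,0,0,0,0,-1],(⟨0,[(25,0)]⟩,⟨0,[(26,0)]⟩),(⟨0,[(37,0)]⟩,⟨0,[(38,0)]⟩),⟨0,
  [(2,0)]⟩,.k,.k,(.x (-1) ⟨7,[(15,3),(7,2),(0,2),(11,1)]⟩ ⟨0,[(38,0)]⟩),(.r (-1) ⟨7,[(1,3),(21,8),
  (0,2)]⟩ ⟨2,[(0,2),(2,0),(3,1),(4,0),(0,2),(3,0)]⟩),.k,.k,⟨true,0,⟨3,[(0,1),(7,0),(14,2),(15,1),(2,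
  2)]⟩,⟨2,[(0,2),(2,1),(3,0),(4,1),(0,2),(3,1),(22,2)]⟩⟩,⟨false,0,⟨9,[(8,1),(0,1),(2,1),(1,1),(1,3),
  (6,0),(1,7),(10,0)]⟩,⟨0,[(26,0),(16,0)]⟩⟩,⟨false,0,⟨0,[(42,0)]⟩,⟨11,[(4,3),(12,3),(5,0),(0,0),(11,
  1),(7,7)]⟩⟩,⟨false,0,⟨0,[(9,0),(32,0)]⟩,⟨3,[(6,1),(10,1),(5,0),(2,1),(16,0)]⟩⟩,⟨true,0,⟨0,[(46,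
  0)]⟩,⟨0,[]⟩⟩,⟨false,0,⟨0,[(9,0)]⟩,⟨1,[(23,0),(2,1),(16,0)]⟩⟩,[.o ⟨false,0,⟨0,[(12,0)]⟩,⟨5,[(4,1),
  (12,1),(5,1),(0,1),(11,0),(7,0)]⟩⟩,.o ⟨false,1,⟨0,[(16,0),(27,0)]⟩,⟨0,[(41,0)]⟩⟩,.o ⟨false,1,⟨1,
  [(26,1),(9,0),(6,0)]⟩,⟨9,[(8,1),(0,1),(2,1),(1,1),(1,3),(6,0),(1,7),(10,0)]⟩⟩,.a ⟨true,0,⟨0,[(26,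
  0)]⟩,⟨0,[(25,0)]⟩⟩ ⟨false,1,⟨19,[(7,7),(5,3),(9,10),(0,0)]⟩,⟨1,[(0,0),(4,0),(38,0)]⟩⟩ ⟨true,0,⟨0,
  [(12,0),(12,0)]⟩,⟨0,[(26,0),(14,0)]⟩⟩]⟩))) (.I [0,0,-2,-1,1,0,0,0,-1] (.R ⟨0,false,false,true,[1,
  0,0,-1],[0,1],[0,1,0,0,0,0,0,0,-1],(⟨0,[(24,0)]⟩,⟨0,[(25,0)]⟩),(⟨0,[(37,0)]⟩,⟨0,[(36,0)]⟩),⟨0,[(1,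
  0)]⟩,.k,.k,(.x (-1) ⟨7,[(14,3),(7,2),(0,2),(11,1)]⟩ ⟨0,[(37,0)]⟩),(.x (-1) ⟨7,[(14,3),(7,2),(0,2),
  (11,1)]⟩ ⟨0,[(37,0)]⟩),.k,.k,⟨false,1,⟨0,[(0,0)]⟩,⟨16,[(4,3),(2,2),(0,6),(4,4),(9,2),(1,6),(12,
  5)]⟩⟩,⟨true,0,⟨0,[(24,0)]⟩,⟨5,[(7,0),(3,1),(1,0),(1,0),(9,5),(1,0),(2,0),(4,0)]⟩⟩,⟨true,0,⟨0,[(45,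
  0)]⟩,⟨0,[]⟩⟩,⟨false,0,⟨7,[(4,1),(2,0),(0,3),(7,0),(0,2),(5,0),(0,3),(6,3),(6,1)]⟩,⟨1,[(0,1),(0,1),
  (9,0),(0,0),(0,0),(0,0),(24,0)]⟩⟩,⟨false,0,⟨0,[]⟩,⟨0,[]⟩⟩,⟨false,0,⟨0,[]⟩,⟨0,[]⟩⟩,[.o ⟨false,0,⟨0,
  [(40,0)]⟩,⟨0,[(15,0),(27,0)]⟩⟩,.o ⟨false,1,⟨5,[(3,1),(12,1),(5,1),(0,1),(11,0),(7,0)]⟩,⟨0,[(11,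
  0)]⟩⟩,.o ⟨false,1,⟨1,[(25,1),(9,0),(6,0)]⟩,⟨9,[(7,1),(0,1),(2,1),(1,1),(1,3),(6,0),(1,7),(10,
  0)]⟩⟩,.a ⟨true,0,⟨0,[(25,0)]⟩,⟨0,[(24,0)]⟩⟩ ⟨false,1,⟨1,[(22,0),(19,0)]⟩,⟨0,[(8,0),(16,0)]⟩⟩
  ⟨true,0,⟨0,[(24,0),(15,0)]⟩,⟨0,[(11,0),(13,0)]⟩⟩]⟩) (.R ⟨0,false,false,false,[1,0,0,-1],[0,1,1],
  [0,1,0,0,0,0,0,0,-1],(⟨0,[(24,0)]⟩,⟨0,[(25,0)]⟩),(⟨0,[(34,0),(2,0)]⟩,⟨0,[(19,0)]⟩),⟨0,[(1,0)]⟩,.k,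
  .k,(.x (-1) ⟨7,[(14,3),(7,2),(0,2),(11,1)]⟩ ⟨0,[(37,0)]⟩),(.r (-1) ⟨19,[(6,3),(5,11),(9,12),(0,
  2)]⟩ ⟨54,[(0,32),(1,5),(3,12),(6,17),(2,5),(6,10),(11,2),(2,8)]⟩),.k,.k,⟨false,1,⟨39,[(6,7),(5,
  23),(9,20),(0,0),(14,19),(3,9)]⟩,⟨2,[(0,2),(1,1),(3,0),(4,1),(4,1),(22,2)]⟩⟩,⟨true,0,⟨0,[(18,0),
  (5,0)]⟩,⟨0,[(25,0),(1,0)]⟩⟩,⟨true,0,⟨0,[(45,0)]⟩,⟨0,[]⟩⟩,⟨false,0,⟨0,[(8,0),(8,0)]⟩,⟨0,[(5,0),(35,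
  0)]⟩⟩,⟨false,0,⟨0,[]⟩,⟨0,[]⟩⟩,⟨false,0,⟨0,[]⟩,⟨0,[]⟩⟩,[.o ⟨false,0,⟨0,[(11,0),(4,0)]⟩,⟨19,[(6,3),
  (5,11),(9,2),(0,2),(7,19),(3,9)]⟩⟩,.o ⟨false,1,⟨15,[(16,7),(4,3),(0,0),(0,0),(11,5),(7,7)]⟩,⟨0,
  [(26,0),(14,0)]⟩⟩,.o ⟨false,1,⟨1,[(25,1),(9,0),(6,0)]⟩,⟨9,[(7,1),(0,1),(2,1),(1,1),(1,3),(6,0),(1,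
  7),(10,0)]⟩⟩,.a ⟨true,0,⟨0,[(25,0)]⟩,⟨0,[(24,0)]⟩⟩ ⟨false,1,⟨1,[(22,0),(19,0)]⟩,⟨0,[(8,0),(16,
  0)]⟩⟩ ⟨true,0,⟨0,[(11,0),(4,0),(7,0)]⟩,⟨0,[(25,0),(0,0),(14,0)]⟩⟩]⟩)))) (.Q [0,0,0,0,0,1,0,0,0,-1,
  0,1] (.p true [0,0,0,1] [1] (⟨0,[(22,0)]⟩,⟨0,[(21,0)]⟩) .k 1 (⟨0,[]⟩,⟨0,[]⟩) .k .k) (.Q [0,1,-1,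
  -1,0,0,1,1,-1,0,-1,1] (.p false [0,0,1] [0,0,0,1] (⟨0,[(32,0)]⟩,⟨0,[(31,0)]⟩) .k 2 (⟨0,[(23,0)]⟩,
  ⟨0,[(22,0)]⟩) .k (.r (-1) ⟨9,[(4,2),(6,2),(8,5),(0,0),(4,0),(2,0),(6,0)]⟩ ⟨0,[(2,0),(36,0)]⟩))
  (.R ⟨0,false,false,true,[1,0,0,-1],[1,0,-1],[0,1,0,0,0,0,0,0,-1],(⟨0,[(23,0)]⟩,⟨0,[(24,0)]⟩),(⟨0,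
  [(32,0)]⟩,⟨0,[(33,0)]⟩),⟨0,[(1,0)]⟩,.k,.k,(.x (-1) ⟨7,[(13,3),(7,2),(0,2),(11,1)]⟩ ⟨0,[(36,0)]⟩),
  .k,.k,.k,⟨false,1,⟨1,[(0,0),(3,0),(5,0),(1,0),(10,1),(17,0)]⟩,⟨0,[(3,0),(36,0)]⟩⟩,⟨true,0,⟨0,[(23,
  0),(2,0)]⟩,⟨0,[(17,0),(6,0)]⟩⟩,⟨true,0,⟨0,[(44,0)]⟩,⟨0,[]⟩⟩,⟨false,0,⟨0,[(7,0),(20,0)]⟩,⟨1,[(0,0),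
  (1,0),(1,0),(10,0),(26,0)]⟩⟩,⟨false,0,⟨0,[]⟩,⟨0,[]⟩⟩,⟨false,0,⟨0,[]⟩,⟨0,[]⟩⟩,[.o ⟨false,0,⟨0,[(25,
  0)]⟩,⟨7,[(20,3),(0,0),(0,0),(11,1),(7,3)]⟩⟩,.o ⟨false,1,⟨7,[(4,3),(2,3),(13,0),(0,0),(5,3),(5,
  1)]⟩,⟨2,[(2,0),(7,0),(4,0),(11,0)]⟩⟩,.o ⟨false,1,⟨1,[(24,1),(9,0),(6,0)]⟩,⟨9,[(6,1),(0,1),(2,1),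
  (1,1),(1,3),(6,0),(1,7),(10,0)]⟩⟩,.a ⟨true,0,⟨0,[(24,0)]⟩,⟨0,[(23,0)]⟩⟩ ⟨false,1,⟨1,[(21,0),(19,
  0)]⟩,⟨0,[(7,0),(16,0)]⟩⟩ ⟨true,0,⟨0,[(23,0),(1,0)]⟩,⟨4,[(0,1),(1,1),(0,1),(8,0),(11,2),(2,
  0)]⟩⟩]⟩) (.R ⟨0,false,false,false,[1,0,0,-1],[0,1,1],[0,0,0,-1,0,0,0,0,-1],(⟨0,[(23,0)]⟩,⟨0,[(24,
  0)]⟩),(⟨0,[(33,0),(2,0)]⟩,⟨0,[(18,0)]⟩),⟨0,[(1,0)]⟩,.k,.k,(.x (-1) ⟨7,[(13,3),(7,2),(0,2),(11,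
  1)]⟩ ⟨0,[(36,0)]⟩),(.r (-1) ⟨19,[(5,3),(5,11),(9,12),(0,2)]⟩ ⟨1,[(0,0),(1,0),(4,0),(4,0),(11,1),
  (12,1)]⟩),.k,.k,⟨false,1,⟨1,[(2,1),(1,1),(6,0),(11,1),(13,0),(2,0)]⟩,⟨4,[(0,3),(0,1),(0,2),(0,0),
  (8,2),(0,0),(1,0),(8,1),(12,4)]⟩⟩,⟨true,0,⟨0,[(17,0),(5,0)]⟩,⟨0,[(24,0),(1,0)]⟩⟩,⟨true,0,⟨0,[(40,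
  0)]⟩,⟨0,[(39,0)]⟩⟩,⟨false,0,⟨0,[(0,0),(19,0)]⟩,⟨0,[(4,0),(35,0)]⟩⟩,⟨false,0,⟨0,[]⟩,⟨0,[]⟩⟩,⟨false,
  0,⟨0,[]⟩,⟨0,[]⟩⟩,[.o ⟨false,0,⟨0,[(10,0),(4,0)]⟩,⟨19,[(5,3),(5,11),(9,2),(0,2),(7,19),(3,9)]⟩⟩,.o
  ⟨false,1,⟨15,[(15,7),(4,3),(0,0),(0,0),(11,5),(7,7)]⟩,⟨0,[(25,0),(14,0)]⟩⟩,.o ⟨false,1,⟨1,[(24,1),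
  (9,0),(6,0)]⟩,⟨9,[(6,1),(0,1),(2,1),(1,1),(1,3),(6,0),(1,7),(10,0)]⟩⟩,.a ⟨true,0,⟨0,[(24,0)]⟩,⟨0,
  [(23,0)]⟩⟩ ⟨false,1,⟨0,[(2,0),(1,0),(18,0)]⟩,⟨16,[(3,3),(2,2),(0,6),(4,4),(9,2),(1,6),(12,5)]⟩⟩
  ⟨true,0,⟨0,[(10,0),(4,0),(7,0)]⟩,⟨0,[(24,0),(0,0),(14,0)]⟩⟩]⟩)) (.Q [0,1,-1,-1,0,0,1,1,-1,0,-1,1]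
  (.p false [0,0,1] [0,0,0,1] (⟨0,[(32,0)]⟩,⟨0,[(31,0)]⟩) .k 2 (⟨0,[(23,0)]⟩,⟨0,[(22,0)]⟩) .k (.r
  (-1) ⟨9,[(4,2),(6,2),(8,5),(0,0),(4,0),(2,0),(6,0)]⟩ ⟨0,[(2,0),(36,0)]⟩)) (.R ⟨1,false,false,true,
  [1,0,0,-1],[1,0,-1],[1,1,0,0,0,0,0,0,-1],(⟨0,[(23,0)]⟩,⟨0,[(24,0)]⟩),(⟨0,[(32,0)]⟩,⟨0,[(33,0)]⟩),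
  ⟨0,[(1,0)]⟩,.k,.k,(.x (-1) ⟨7,[(13,3),(7,2),(0,2),(11,1)]⟩ ⟨0,[(36,0)]⟩),.k,(.r (-1) ⟨3,[(0,0),(3,
  0),(0,1),(4,0),(1,0),(8,0),(1,1)]⟩ ⟨23,[(3,7),(2,9),(5,1),(8,0),(0,8),(16,1)]⟩),.k,⟨false,1,⟨1,
  [(0,0),(3,0),(5,0),(1,0),(10,1),(17,0)]⟩,⟨0,[(3,0),(36,0)]⟩⟩,⟨true,0,⟨0,[(23,0),(2,0)]⟩,⟨0,[(17,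
  0),(6,0)]⟩⟩,⟨false,0,⟨0,[]⟩,⟨3,[(21,0),(0,0),(19,1)]⟩⟩,⟨false,0,⟨0,[(7,0),(20,0)]⟩,⟨1,[(0,0),(1,
  0),(1,0),(10,0),(26,0)]⟩⟩,⟨true,0,⟨0,[(39,0)]⟩,⟨0,[(40,0)]⟩⟩,⟨false,0,⟨0,[(3,0),(19,0),(2,0)]⟩,⟨0,
  [(0,0),(41,0)]⟩⟩,[.o ⟨false,0,⟨0,[(25,0)]⟩,⟨7,[(20,3),(0,0),(0,0),(11,1),(7,3)]⟩⟩,.o ⟨false,1,⟨7,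
  [(4,3),(2,3),(13,0),(0,0),(5,3),(5,1)]⟩,⟨2,[(2,0),(7,0),(4,0),(11,0)]⟩⟩,.o ⟨false,1,⟨1,[(24,1),(9,
  0),(6,0)]⟩,⟨9,[(6,1),(0,1),(2,1),(1,1),(1,3),(6,0),(1,7),(10,0)]⟩⟩,.a ⟨true,0,⟨0,[(24,0)]⟩,⟨0,
  [(23,0)]⟩⟩ ⟨false,1,⟨1,[(21,0),(19,0)]⟩,⟨0,[(7,0),(16,0)]⟩⟩ ⟨true,0,⟨0,[(23,0),(1,0)]⟩,⟨4,[(0,1),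
  (1,1),(0,1),(8,0),(11,2),(2,0)]⟩⟩]⟩) (.R ⟨1,false,false,false,[1,0,0,-1],[0,1,1],[0,0,0,-1,0,0,0,
  0,-1],(⟨0,[(23,0)]⟩,⟨0,[(24,0)]⟩),(⟨0,[(33,0),(2,0)]⟩,⟨0,[(18,0)]⟩),⟨0,[(1,0)]⟩,.k,.k,(.x (-1) ⟨7,
  [(13,3),(7,2),(0,2),(11,1)]⟩ ⟨0,[(36,0)]⟩),(.r (-1) ⟨19,[(5,3),(5,11),(9,12),(0,2)]⟩ ⟨1,[(0,0),(1,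
  0),(4,0),(4,0),(11,1),(12,1)]⟩),(.r (-1) ⟨1,[(2,1),(1,1),(6,0),(11,1),(13,0),(2,0)]⟩ ⟨16,[(3,0),
  (2,4),(0,5),(4,13),(9,4),(1,5),(12,9)]⟩),.k,⟨false,1,⟨1,[(2,1),(1,1),(6,0),(11,1),(13,0),(2,0)]⟩,
  ⟨1,[(0,1),(1,0),(7,0),(1,0),(2,0),(8,1),(12,1)]⟩⟩,⟨true,0,⟨0,[(17,0),(5,0)]⟩,⟨0,[(24,0),(1,0)]⟩⟩,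
  ⟨true,0,⟨0,[(40,0)]⟩,⟨0,[(39,0)]⟩⟩,⟨false,0,⟨0,[(0,0),(19,0)]⟩,⟨0,[(4,0),(35,0)]⟩⟩,⟨false,1,⟨3,
  [(21,0),(0,0),(19,1)]⟩,⟨0,[]⟩⟩,⟨false,0,⟨0,[(7,0),(7,0)]⟩,⟨0,[(4,0),(35,1)]⟩⟩,[.o ⟨false,0,⟨0,
  [(10,0),(4,0)]⟩,⟨19,[(5,3),(5,11),(9,2),(0,2),(7,19),(3,9)]⟩⟩,.o ⟨false,1,⟨15,[(15,7),(4,3),(0,0),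
  (0,0),(11,5),(7,7)]⟩,⟨0,[(25,0),(14,0)]⟩⟩,.o ⟨false,1,⟨1,[(24,1),(9,0),(6,0)]⟩,⟨9,[(6,1),(0,1),(2,
  1),(1,1),(1,3),(6,0),(1,7),(10,0)]⟩⟩,.a ⟨true,0,⟨0,[(24,0)]⟩,⟨0,[(23,0)]⟩⟩ ⟨false,1,⟨0,[(2,0),(1,
  0),(18,0)]⟩,⟨16,[(3,3),(2,2),(0,6),(4,4),(9,2),(1,6),(12,5)]⟩⟩ ⟨true,0,⟨0,[(10,0),(4,0),(7,0)]⟩,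
  ⟨0,[(24,0),(0,0),(14,0)]⟩⟩]⟩)))) (.Q [0,-1,1,1,0,0,0,0,1,1,0,-1] (.p false [0,0,0,1] [1] (⟨0,[(21,
  0)]⟩,⟨0,[(20,0)]⟩) .k 1 (⟨0,[]⟩,⟨0,[]⟩) .k .k) (.Q [0,1,-1,-2,0,0,0,0,-1,-1,0,1] (.p true [0,0,0,
  1] [1] (⟨0,[(22,0)]⟩,⟨0,[(21,0)]⟩) .k 1 (⟨0,[]⟩,⟨0,[]⟩) .k .k) (.R ⟨1,true,false,false,[1,-1],[0,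
  0,0,1],[0,0,-1,-2],(⟨0,[(34,0)]⟩,⟨0,[(35,0)]⟩),(⟨0,[(23,0)]⟩,⟨0,[(22,0)]⟩),⟨0,[(12,0)]⟩,.k,.k,(.r
  (-1) ⟨9,[(4,7),(5,3),(9,0),(0,0)]⟩ ⟨3,[(5,1),(5,1),(8,0),(0,0),(16,1)]⟩),(.x (-1) ⟨7,[(12,3),(7,
  2),(0,2),(11,1)]⟩ ⟨0,[(35,0)]⟩),(.r (-1) ⟨3,[(2,1),(1,1),(5,1),(9,0),(19,0)]⟩ ⟨1,[(5,0),(5,0),(9,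
  0),(16,0)]⟩),.k,⟨false,1,⟨3,[(2,1),(1,1),(5,1),(9,0),(19,0)]⟩,⟨0,[(6,0),(7,0),(8,0),(0,0)]⟩⟩,
  ⟨true,0,⟨0,[(22,0)]⟩,⟨5,[(5,0),(3,1),(1,0),(1,0),(9,5),(1,0),(2,0),(4,0)]⟩⟩,⟨true,0,⟨0,[(39,0)]⟩,
  ⟨0,[(38,0)]⟩⟩,⟨false,0,⟨0,[(1,0)]⟩,⟨15,[(0,7),(2,7),(15,3),(0,0),(0,0),(11,1),(7,3)]⟩⟩,⟨false,1,
  ⟨3,[(20,0),(0,0),(19,1)]⟩,⟨0,[]⟩⟩,⟨true,0,⟨0,[(1,0),(36,0)]⟩,⟨0,[(0,0)]⟩⟩,[]⟩) (.R ⟨1,false,false,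
  true,[1,0,0,-1],[0,1],[1,1,0,0,0,0,0,0,-1],(⟨0,[(22,0)]⟩,⟨0,[(23,0)]⟩),(⟨0,[(35,0)]⟩,⟨0,[(34,
  0)]⟩),⟨1,[(0,1),(1,1),(6,0),(0,0),(1,0),(23,0)]⟩,.k,.k,(.x (-1) ⟨7,[(12,3),(7,2),(0,2),(11,1)]⟩
  ⟨0,[(35,0)]⟩),(.x (-1) ⟨7,[(12,3),(7,2),(0,2),(11,1)]⟩ ⟨0,[(35,0)]⟩),(.r (-1) ⟨3,[(2,1),(1,1),(5,
  1),(9,0),(19,0)]⟩ ⟨1,[(5,0),(5,0),(9,0),(16,0)]⟩),.k,⟨false,1,⟨5,[(2,3),(7,1),(9,0),(19,4)]⟩,⟨4,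
  [(0,1),(4,0),(0,0),(2,1),(1,0),(9,0),(1,2),(12,1)]⟩⟩,⟨true,0,⟨0,[(22,0)]⟩,⟨5,[(5,0),(3,1),(1,0),
  (1,0),(9,5),(1,0),(2,0),(4,0)]⟩⟩,⟨false,0,⟨0,[]⟩,⟨3,[(20,0),(0,0),(19,1)]⟩⟩,⟨false,0,⟨0,[(1,0),
  (41,0)]⟩,⟨2,[(2,1),(0,0),(5,2),(0,1),(0,0),(2,0),(8,1),(16,0),(0,0)]⟩⟩,⟨true,0,⟨0,[(38,0)]⟩,⟨0,
  [(39,0)]⟩⟩,⟨false,0,⟨0,[(1,0),(36,0)]⟩,⟨21,[(2,13),(0,7),(0,1),(4,17),(0,7),(8,3),(3,13),(16,0),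
  (0,10)]⟩⟩,[.o ⟨false,0,⟨0,[(38,0)]⟩,⟨0,[(13,0),(27,0)]⟩⟩,.o ⟨false,1,⟨19,[(0,3),(2,3),(10,3),(5,
  6),(0,6),(11,1),(4,3)]⟩,⟨0,[(9,0)]⟩⟩,.o ⟨false,1,⟨1,[(23,1),(9,0),(6,0)]⟩,⟨25,[(2,3),(2,5),(0,5),
  (4,3),(1,9),(6,0),(1,19),(10,4)]⟩⟩,.a ⟨true,0,⟨0,[(23,0)]⟩,⟨0,[(22,0)]⟩⟩ ⟨false,1,⟨1,[(20,0),(19,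
  0)]⟩,⟨0,[(6,0),(16,0)]⟩⟩ ⟨true,0,⟨0,[(22,0),(15,0)]⟩,⟨0,[(9,0),(13,0)]⟩⟩]⟩)) (.R ⟨2,true,false,
  true,[0,1],[1,0,0,-1],[0,1,1],(⟨0,[]⟩,⟨0,[]⟩),(⟨0,[(21,0)]⟩,⟨0,[(22,0)]⟩),⟨0,[]⟩,.k,.k,.k,(.x 0
  ⟨0,[(34,0)]⟩ ⟨7,[(11,3),(7,2),(0,2),(11,1)]⟩),.k,.k,⟨true,0,⟨6,[(4,0),(0,4),(6,0),(5,0),(1,0),(1,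
  4),(5,1),(6,1)]⟩,⟨1,[(1,1),(7,1),(0,0),(2,0),(9,0)]⟩⟩,⟨false,1,⟨1,[(22,1),(9,0),(6,0)]⟩,⟨0,[(21,
  0)]⟩⟩,⟨false,0,⟨0,[(38,0)]⟩,⟨0,[(37,0),(2,0)]⟩⟩,⟨true,0,⟨0,[(0,0)]⟩,⟨6,[(4,0),(0,4),(7,2),(6,0),
  (0,3),(0,1),(3,0),(1,1),(6,1)]⟩⟩,⟨true,0,⟨0,[(42,0)]⟩,⟨0,[]⟩⟩,⟨false,1,⟨4,[(0,1),(1,2),(10,0),(4,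
  0),(13,0),(7,0)]⟩,⟨0,[(5,0),(15,0),(0,0)]⟩⟩,[]⟩)))) (.Q [0,1,0,1,0,0,-1,-1,0,0,1] (.p true [0,0,
  1] [] (⟨0,[(28,0)]⟩,⟨0,[(27,0)]⟩) .k 0 (⟨0,[]⟩,⟨0,[]⟩) .k .k) (.K ⟨2,[0,-1,1],(-1),0,(⟨0,[(5,0)]⟩,
  ⟨0,[(28,0),(3,0)]⟩),.k,(.x 1 ⟨1,[(1,1),(3,1),(0,1),(2,0),(6,0),(19,1)]⟩ ⟨13,[(0,11),(3,7),(3,1),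
  (13,1),(5,13),(1,5),(1,27),(4,8),(0,4)]⟩),.k,.k,.k,[⟨0,[(36,0)]⟩,⟨0,[(0,0)]⟩,⟨47,[(0,23),(3,15),
  (3,3),(8,10),(0,10),(7,23),(11,9)]⟩,⟨1,[(1,1),(4,0),(9,0),(19,2)]⟩]⟩) (.I [0,0,1,1,0,0,0,0,-1]
  (.I [1,-1,1,1,0,0,0,0,1] (.Q [0,1,1,0,-1,0,0,0,1,0,0,-1] (.p false [0,0,0,1] [] (⟨0,[(22,0)]⟩,⟨0,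
  [(21,0)]⟩) .k 0 (⟨0,[]⟩,⟨0,[]⟩) .k .k) (.K ⟨0,[0,0,0,1],0,(-1),(⟨0,[(23,0)]⟩,⟨0,[(22,0)]⟩),.k,(.r
  (-1) ⟨19,[(7,7),(2,3),(9,0),(0,10)]⟩ ⟨0,[(2,0)]⟩),(.x 0 ⟨0,[(35,0)]⟩ ⟨7,[(12,3),(7,2),(0,2),(11,
  1)]⟩),.k,.k,[⟨0,[(23,0)]⟩,⟨0,[(22,0)]⟩,⟨7,[(20,4),(0,0),(1,7),(12,3),(3,1)]⟩,⟨0,[(0,0)]⟩]⟩) (.Q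
  [0,0,0,0,0,1,0,0,0,-1,0,1] (.p true [0,0,0,1] [1] (⟨0,[(23,0)]⟩,⟨0,[(22,0)]⟩) .k 1 (⟨0,[]⟩,⟨0,
  []⟩) .k .k) (.I [0,0,-2,-2,1,0,0,0,-1] (.R ⟨0,false,false,true,[1,0,0,-1],[1,0,-1],[0,1,0,0,0,0,0,
  0,-1],(⟨0,[(24,0)]⟩,⟨0,[(25,0)]⟩),(⟨0,[(33,0)]⟩,⟨0,[(34,0)]⟩),⟨0,[(1,0)]⟩,.k,.k,(.x (-1) ⟨7,[(14,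
  3),(7,2),(0,2),(11,1)]⟩ ⟨0,[(37,0)]⟩),.k,.k,.k,⟨false,1,⟨1,[(0,1),(12,0),(2,0),(9,0)]⟩,⟨1,[(3,0),
  (4,0),(3,0),(12,0),(12,0)]⟩⟩,⟨true,0,⟨0,[(24,0),(2,0)]⟩,⟨0,[(18,0),(6,0)]⟩⟩,⟨true,0,⟨0,[(45,0)]⟩,
  ⟨0,[]⟩⟩,⟨false,0,⟨0,[(8,0),(20,0)]⟩,⟨2,[(2,2),(2,0),(5,0),(4,0),(11,0)]⟩⟩,⟨false,0,⟨0,[]⟩,⟨0,[]⟩⟩,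
  ⟨false,0,⟨0,[]⟩,⟨0,[]⟩⟩,[.o ⟨false,0,⟨0,[(26,0)]⟩,⟨7,[(21,3),(0,0),(0,0),(11,1),(7,3)]⟩⟩,.o
  ⟨false,1,⟨1,[(29,1),(5,0),(7,0)]⟩,⟨2,[(5,0),(5,0),(4,0),(11,0)]⟩⟩,.o ⟨false,1,⟨1,[(25,1),(9,0),(6,
  0)]⟩,⟨1,[(4,0),(3,0),(6,0),(8,0)]⟩⟩,.a ⟨true,0,⟨0,[(25,0)]⟩,⟨0,[(24,0)]⟩⟩ ⟨false,1,⟨1,[(22,0),(19,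
  0)]⟩,⟨0,[(8,0),(16,0)]⟩⟩ ⟨true,0,⟨0,[(24,0),(1,0)]⟩,⟨1,[(1,1),(12,0),(6,0)]⟩⟩]⟩) (.R ⟨0,false,
  false,false,[1,0,0,-1],[1,-1],[0,0,0,-1,0,0,0,0,-1],(⟨0,[(24,0)]⟩,⟨0,[(25,0)]⟩),(⟨0,[(36,0)]⟩,⟨0,
  [(37,0)]⟩),⟨0,[(1,0)]⟩,.k,.k,(.x (-1) ⟨7,[(14,3),(7,2),(0,2),(11,1)]⟩ ⟨0,[(37,0)]⟩),(.r 0 ⟨0,[(4,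
  0)]⟩ ⟨19,[(9,7),(2,3),(9,0),(0,10)]⟩),.k,.k,⟨true,0,⟨0,[(4,0),(36,0)]⟩,⟨6,[(0,4),(8,3),(2,1),(10,
  0)]⟩⟩,⟨false,0,⟨1,[(4,0),(3,0),(6,0),(8,0)]⟩,⟨0,[(25,0),(16,0)]⟩⟩,⟨true,0,⟨0,[(41,0)]⟩,⟨0,[(40,
  0)]⟩⟩,⟨false,0,⟨0,[(8,0),(32,0)]⟩,⟨0,[(2,0),(37,0)]⟩⟩,⟨false,0,⟨0,[]⟩,⟨0,[]⟩⟩,⟨false,0,⟨0,[]⟩,⟨0,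
  []⟩⟩,[.o ⟨false,0,⟨0,[(11,0)]⟩,⟨3,[(22,0),(0,0),(16,3),(2,1)]⟩⟩,.o ⟨false,1,⟨0,[(15,0),(27,0)]⟩,
  ⟨0,[(40,0)]⟩⟩,.o ⟨false,1,⟨1,[(25,1),(9,0),(6,0)]⟩,⟨1,[(4,0),(3,0),(6,0),(8,0)]⟩⟩,.a ⟨true,0,⟨0,
  [(25,0)]⟩,⟨0,[(24,0)]⟩⟩ ⟨false,1,⟨0,[(2,0),(8,0),(12,0)]⟩,⟨4,[(0,0),(5,0),(13,0),(2,1)]⟩⟩ ⟨true,0,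
  ⟨0,[(11,0),(12,0)]⟩,⟨0,[(25,0),(14,0)]⟩⟩]⟩)) (.I [1,0,-1,0,1,0,0,1,-1] (.R ⟨1,false,false,true,[1,
  0,0,-1],[1,0,-1],[1,1,0,0,0,0,0,0,-1],(⟨0,[(24,0)]⟩,⟨0,[(25,0)]⟩),(⟨0,[(33,0)]⟩,⟨0,[(34,0)]⟩),⟨0,
  [(1,0)]⟩,.k,.k,(.x (-1) ⟨7,[(14,3),(7,2),(0,2),(11,1)]⟩ ⟨0,[(37,0)]⟩),.k,(.r (-1) ⟨0,[(0,0),(40,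
  0)]⟩ ⟨5,[(6,1),(0,1),(15,2),(18,0)]⟩),.k,⟨false,1,⟨0,[(0,0)]⟩,⟨1,[(3,0),(4,0),(3,0),(12,0),(12,
  0)]⟩⟩,⟨true,0,⟨0,[(24,0),(2,0)]⟩,⟨0,[(18,0),(6,0)]⟩⟩,⟨false,0,⟨0,[]⟩,⟨3,[(22,0),(0,0),(19,1)]⟩⟩,
  ⟨false,0,⟨0,[(8,0),(20,0)]⟩,⟨2,[(2,2),(2,0),(5,0),(4,0),(11,0)]⟩⟩,⟨true,0,⟨0,[(40,0)]⟩,⟨0,[(41,
  0)]⟩⟩,⟨false,0,⟨0,[(3,0),(20,0),(1,0)]⟩,⟨24,[(2,18),(2,11),(3,2),(2,0),(2,5),(5,5),(0,2),(2,5),(4,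
  0)]⟩⟩,[.o ⟨false,0,⟨0,[(26,0)]⟩,⟨7,[(21,3),(0,0),(0,0),(11,1),(7,3)]⟩⟩,.o ⟨false,1,⟨1,[(29,1),(5,
  0),(7,0)]⟩,⟨2,[(5,0),(5,0),(4,0),(11,0)]⟩⟩,.o ⟨false,1,⟨1,[(25,1),(9,0),(6,0)]⟩,⟨1,[(4,0),(3,0),
  (6,0),(8,0)]⟩⟩,.a ⟨true,0,⟨0,[(25,0)]⟩,⟨0,[(24,0)]⟩⟩ ⟨false,1,⟨1,[(22,0),(19,0)]⟩,⟨0,[(8,0),(16,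
  0)]⟩⟩ ⟨true,0,⟨0,[(24,0),(1,0)]⟩,⟨2,[(5,0),(5,0),(4,0),(8,2),(2,0)]⟩⟩]⟩) (.R ⟨2,true,false,true,
  [0,1],[0,0,0,1],[0,1,1],(⟨0,[]⟩,⟨0,[]⟩),(⟨0,[(25,0)]⟩,⟨0,[(24,0)]⟩),⟨0,[]⟩,.k,.k,.k,(.r 0 ⟨0,[(4,
  0)]⟩ ⟨19,[(9,7),(2,3),(9,0),(0,10)]⟩),.k,.k,⟨true,0,⟨0,[(4,0),(36,0)]⟩,⟨2,[(0,0),(2,1),(5,0),(28,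
  0)]⟩⟩,⟨false,0,⟨1,[(4,0),(3,0),(6,0),(8,0)]⟩,⟨0,[(25,0),(16,0)]⟩⟩,⟨false,0,⟨0,[(41,0)]⟩,⟨0,[(40,
  0),(2,0)]⟩⟩,⟨true,(-1),⟨0,[(0,0),(4,0),(18,0),(2,0),(10,0)]⟩,⟨0,[(2,0),(37,0)]⟩⟩,⟨true,0,⟨0,[(45,
  0)]⟩,⟨0,[]⟩⟩,⟨false,0,⟨0,[(8,0),(36,0)]⟩,⟨0,[(2,0)]⟩⟩,[]⟩)))) (.Q [0,1,-1,-1,0,0,0,0,-1,-1,0,1]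
  (.p true [0,0,0,1] [1] (⟨0,[(22,0)]⟩,⟨0,[(21,0)]⟩) .k 1 (⟨0,[]⟩,⟨0,[]⟩) .k .k) (.R ⟨2,true,false,
  true,[0,1],[1,0,0,-1],[0,1,1],(⟨0,[]⟩,⟨0,[]⟩),(⟨0,[(22,0)]⟩,⟨0,[(23,0)]⟩),⟨0,[]⟩,.k,.k,.k,(.x 0
  ⟨0,[(35,0)]⟩ ⟨7,[(12,3),(7,2),(0,2),(11,1)]⟩),.k,.k,⟨true,0,⟨6,[(5,0),(0,4),(6,0),(5,0),(1,0),(1,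
  4),(5,1),(6,1)]⟩,⟨0,[(1,0),(8,0),(0,0)]⟩⟩,⟨false,1,⟨1,[(23,1),(9,0),(6,0)]⟩,⟨0,[(22,0)]⟩⟩,⟨false,
  0,⟨0,[(39,0)]⟩,⟨0,[(38,0),(2,0)]⟩⟩,⟨true,0,⟨0,[(0,0)]⟩,⟨3,[(4,0),(1,1),(7,0),(6,0),(0,2),(0,0),(5,
  0),(6,0)]⟩⟩,⟨true,0,⟨0,[(43,0)]⟩,⟨0,[]⟩⟩,⟨false,1,⟨21,[(0,11),(3,3),(6,1),(8,4),(2,9),(9,4),(6,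
  10),(0,4)]⟩,⟨0,[(6,0),(15,0),(0,0)]⟩⟩,[]⟩) (.R ⟨1,true,false,false,[1,-1],[0,0,0,1],[0,0,-1,-2],
  (⟨0,[(34,0)]⟩,⟨0,[(35,0)]⟩),(⟨0,[(23,0)]⟩,⟨0,[(22,0)]⟩),⟨0,[(12,0)]⟩,.k,.k,(.r (-1) ⟨9,[(7,7),(2,
  3),(9,0),(0,0)]⟩ ⟨2,[(4,1),(13,1),(1,0),(0,0)]⟩),(.x (-1) ⟨7,[(12,3),(7,2),(0,2),(11,1)]⟩ ⟨0,[(35,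
  0)]⟩),(.r (-1) ⟨7,[(1,5),(5,3),(2,1),(9,0),(20,2)]⟩ ⟨11,[(4,7),(13,7),(1,0),(0,6)]⟩),.k,⟨false,1,
  ⟨7,[(1,5),(5,3),(2,1),(9,0),(20,2)]⟩,⟨0,[(6,0),(7,0),(8,0),(0,0)]⟩⟩,⟨true,0,⟨0,[(22,0)]⟩,⟨5,[(5,
  0),(3,1),(1,0),(1,0),(9,5),(1,0),(2,0),(4,0)]⟩⟩,⟨true,0,⟨0,[(39,0)]⟩,⟨0,[(38,0)]⟩⟩,⟨false,0,⟨0,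
  [(0,0)]⟩,⟨1,[(1,1),(21,1),(9,0),(7,0)]⟩⟩,⟨false,1,⟨3,[(20,0),(0,0),(19,1)]⟩,⟨0,[]⟩⟩,⟨true,0,⟨0,
  [(0,0),(37,0)]⟩,⟨0,[(1,0),(7,0),(13,0)]⟩⟩,[]⟩))) (.K ⟨0,[0,0,0,1],0,(-1),(⟨0,[(21,0)]⟩,⟨0,[(20,
  0)]⟩),.k,(.x 0 ⟨1,[(10,0),(12,0),(2,1),(0,0)]⟩ ⟨0,[(33,0),(4,0)]⟩),(.x 0 ⟨0,[(33,0)]⟩ ⟨7,[(10,3),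
  (7,2),(0,2),(11,1)]⟩),.k,.k,[⟨0,[(21,0)]⟩,⟨0,[(20,0)]⟩,⟨7,[(18,4),(0,0),(1,7),(12,3),(3,1)]⟩,⟨0,
  [(0,0),(0,0),(0,0),(17,0),(2,0),(10,0)]⟩]⟩)))) (.Q [0,0,0,0,0,-1,0,0,0,1,0,-1] (.p false [0,0,0,
  1] [1] (⟨0,[(18,0)]⟩,⟨0,[(17,0)]⟩) .k 1 (⟨0,[]⟩,⟨0,[]⟩) .k .k) (.I [0,0,-1,-1,0,0,0,0,1] (.Q [0,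
  -1,0,0,0,0,2,2,0,1,-2] (.p false [0,0,1] [1,0,-1] (⟨0,[(29,0)]⟩,⟨0,[(28,0)]⟩) .k 2 (⟨0,[(28,0)]⟩,
  ⟨0,[(29,0)]⟩) .k (.r (-1) ⟨21,[(2,7),(1,3),(3,7),(8,4),(0,4),(4,7),(2,7)]⟩ ⟨0,[(27,1)]⟩)) (.I [1,
  -1,-2,-1,1,0,0,1] (.R ⟨1,false,false,false,[1,0,0,-1],[0,1,1],[1,1,0,0,0,0,0,0,-1],(⟨0,[(21,0)]⟩,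
  ⟨0,[(22,0)]⟩),(⟨0,[(31,0),(2,0)]⟩,⟨0,[(16,0)]⟩),⟨0,[(3,0)]⟩,.k,.k,(.x (-1) ⟨7,[(11,3),(7,2),(0,2),
  (11,1)]⟩ ⟨0,[(34,0)]⟩),(.r (-1) ⟨19,[(6,3),(2,11),(9,12),(0,2)]⟩ ⟨1,[(2,0),(2,0),(11,1),(4,0),(14,
  0)]⟩),(.r (-1) ⟨1,[(4,0),(4,1),(9,0),(18,0)]⟩ ⟨0,[(5,0),(11,0),(4,0),(14,0)]⟩),.k,⟨false,1,⟨39,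
  [(6,7),(2,23),(9,20),(0,0),(14,19),(3,9)]⟩,⟨5,[(2,3),(2,1),(3,1),(0,4),(2,0),(8,1),(0,0)]⟩⟩,⟨true,
  0,⟨0,[(15,0),(5,0)]⟩,⟨0,[(22,0),(1,0)]⟩⟩,⟨false,0,⟨0,[]⟩,⟨3,[(19,0),(0,0),(19,1)]⟩⟩,⟨false,0,⟨0,
  [(5,0),(8,0)]⟩,⟨1,[(0,0),(8,0),(9,0),(2,1),(0,0),(0,0)]⟩⟩,⟨true,0,⟨0,[(37,0)]⟩,⟨0,[(38,0)]⟩⟩,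
  ⟨false,0,⟨0,[(5,0),(7,0)]⟩,⟨1,[(0,0),(7,0),(0,0),(9,0),(2,1),(0,0),(4,0),(9,0)]⟩⟩,[.o ⟨false,0,⟨0,
  [(8,0),(4,0)]⟩,⟨19,[(6,3),(2,11),(9,2),(0,2),(7,19),(3,9)]⟩⟩,.o ⟨false,1,⟨15,[(13,7),(4,3),(0,0),
  (0,0),(11,5),(7,7)]⟩,⟨0,[(23,0),(14,0)]⟩⟩,.o ⟨false,1,⟨1,[(22,1),(9,0),(6,0)]⟩,⟨4,[(8,2),(0,0),(0,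
  1),(10,4),(1,1),(3,1)]⟩⟩,.a ⟨true,0,⟨0,[(22,0)]⟩,⟨0,[(21,0)]⟩⟩ ⟨false,1,⟨1,[(19,0),(19,0)]⟩,⟨0,
  [(5,0),(16,0)]⟩⟩ ⟨true,0,⟨0,[(8,0),(4,0),(7,0)]⟩,⟨0,[(22,0),(0,0),(14,0)]⟩⟩]⟩) (.Q [0,1,1,0,-1,0,
  0,0,1,0,0,-1] (.p false [0,0,0,1] [] (⟨0,[(22,0)]⟩,⟨0,[(21,0)]⟩) .k 0 (⟨0,[]⟩,⟨0,[]⟩) .k .k) (.K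
  ⟨0,[0,0,0,1],0,(-1),(⟨0,[(23,0)]⟩,⟨0,[(22,0)]⟩),.k,(.r 0 ⟨0,[(3,0)]⟩ ⟨23,[(1,7),(9,3),(8,18),(0,
  6),(16,7),(2,5)]⟩),(.x 0 ⟨0,[(35,0)]⟩ ⟨7,[(12,3),(7,2),(0,2),(11,1)]⟩),.k,.k,[⟨0,[(23,0)]⟩,⟨0,
  [(22,0)]⟩,⟨7,[(20,4),(0,0),(1,7),(12,3),(3,1)]⟩,⟨0,[(0,0)]⟩]⟩) (.R ⟨1,false,false,false,[1,0,0,
  -1],[1,-1],[0,1,0,-1,0,0,0,0,-1],(⟨0,[(22,0)]⟩,⟨0,[(23,0)]⟩),(⟨0,[(34,0)]⟩,⟨0,[(35,0)]⟩),⟨0,[(4,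
  0)]⟩,.k,.k,(.x (-1) ⟨7,[(12,3),(7,2),(0,2),(11,1)]⟩ ⟨0,[(35,0)]⟩),(.r (-1) ⟨23,[(1,7),(9,3),(8,
  18),(0,6),(16,7),(2,5)]⟩ ⟨0,[(3,0)]⟩),.k,.k,⟨true,0,⟨1,[(1,1),(3,0),(14,0),(18,0)]⟩,⟨0,[(3,0),(6,
  0),(0,0)]⟩⟩,⟨false,0,⟨7,[(1,1),(4,1),(2,2),(1,0),(1,0),(6,0),(1,5),(10,0)]⟩,⟨0,[(23,0),(16,0)]⟩⟩,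
  ⟨false,0,⟨0,[(39,0)]⟩,⟨0,[(38,0),(2,0)]⟩⟩,⟨false,0,⟨0,[(6,0),(32,0)]⟩,⟨0,[(0,0),(37,0)]⟩⟩,⟨true,0,
  ⟨0,[(43,0)]⟩,⟨0,[]⟩⟩,⟨false,0,⟨0,[(6,0)]⟩,⟨11,[(0,7),(19,2),(0,0),(1,3),(12,3)]⟩⟩,[.o ⟨false,0,⟨0,
  [(9,0)]⟩,⟨3,[(20,0),(0,0),(16,3),(2,1)]⟩⟩,.o ⟨false,1,⟨0,[(13,0),(27,0)]⟩,⟨0,[(38,0)]⟩⟩,.o ⟨false,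
  1,⟨1,[(23,1),(9,0),(6,0)]⟩,⟨7,[(1,1),(4,1),(2,2),(1,0),(1,0),(6,0),(1,5),(10,0)]⟩⟩,.a ⟨true,0,⟨0,
  [(23,0)]⟩,⟨0,[(22,0)]⟩⟩ ⟨false,1,⟨19,[(7,7),(2,3),(9,10),(0,0)]⟩,⟨2,[(3,0),(2,1),(3,1),(0,1),(2,
  0),(8,1),(0,0)]⟩⟩ ⟨true,0,⟨0,[(9,0),(12,0)]⟩,⟨0,[(23,0),(14,0)]⟩⟩]⟩))) (.R ⟨1,false,false,false,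
  [1,0,0,-1],[0,1,1],[1,1,0,0,0,0,0,0,-1],(⟨0,[(20,0)]⟩,⟨0,[(21,0)]⟩),(⟨0,[(30,0),(2,0)]⟩,⟨0,[(15,
  0)]⟩),⟨0,[(2,0)]⟩,.k,.k,(.x (-1) ⟨7,[(10,3),(7,2),(0,2),(11,1)]⟩ ⟨0,[(33,0)]⟩),(.r (-1) ⟨19,[(5,
  3),(2,11),(9,12),(0,2)]⟩ ⟨1,[(1,0),(2,0),(11,1),(4,0),(14,0)]⟩),(.r (-1) ⟨1,[(3,0),(4,1),(9,0),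
  (18,0)]⟩ ⟨0,[(4,0),(11,0),(4,0),(14,0)]⟩),.k,⟨false,1,⟨39,[(5,7),(2,23),(9,20),(0,0),(14,19),(3,
  9)]⟩,⟨5,[(1,3),(2,1),(3,1),(0,4),(2,0),(8,1),(0,0)]⟩⟩,⟨true,0,⟨0,[(14,0),(5,0)]⟩,⟨0,[(21,0),(1,
  0)]⟩⟩,⟨false,0,⟨0,[]⟩,⟨3,[(18,0),(0,0),(19,1)]⟩⟩,⟨false,0,⟨0,[(4,0),(8,0)]⟩,⟨1,[(0,0),(2,0),(3,0),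
  (0,1),(0,0),(8,0),(2,1)]⟩⟩,⟨true,0,⟨0,[(36,0)]⟩,⟨0,[(37,0)]⟩⟩,⟨false,0,⟨0,[(4,0),(7,0)]⟩,⟨3,[(0,
  0),(2,1),(3,2),(0,2),(9,1),(2,3),(5,1),(7,0)]⟩⟩,[.o ⟨false,0,⟨0,[(7,0),(4,0)]⟩,⟨3,[(0,1),(10,1),
  (6,0),(0,0),(17,1),(1,1)]⟩⟩,.o ⟨false,1,⟨15,[(12,7),(4,3),(0,0),(0,0),(11,5),(7,7)]⟩,⟨1,[(0,0),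
  (10,0),(25,0)]⟩⟩,.o ⟨false,1,⟨1,[(21,1),(9,0),(6,0)]⟩,⟨2,[(0,0),(6,1),(1,0),(4,0),(5,2),(5,0)]⟩⟩,
  .a ⟨true,0,⟨0,[(21,0)]⟩,⟨0,[(20,0)]⟩⟩ ⟨false,1,⟨1,[(18,0),(19,0)]⟩,⟨0,[(4,0),(16,0)]⟩⟩ ⟨true,0,⟨0,
  [(7,0),(4,0),(7,0)]⟩,⟨1,[(0,0),(10,0),(9,1),(15,0)]⟩⟩]⟩)) (.R ⟨1,false,false,true,[1,0,0,-1],[0,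
  1],[1,1,0,0,0,0,0,0,-1],(⟨0,[(19,0)]⟩,⟨0,[(20,0)]⟩),(⟨0,[(32,0)]⟩,⟨0,[(31,0)]⟩),⟨0,[(1,0)]⟩,.k,.k,
  (.x (-1) ⟨7,[(9,3),(7,2),(0,2),(11,1)]⟩ ⟨0,[(32,0)]⟩),(.x (-1) ⟨7,[(9,3),(7,2),(0,2),(11,1)]⟩ ⟨0,
  [(32,0)]⟩),(.r (-1) ⟨0,[(0,0),(1,0),(4,0),(28,0)]⟩ ⟨4,[(3,4),(4,1),(11,4),(3,0),(0,0),(1,2),(7,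
  5)]⟩),.k,⟨false,1,⟨0,[(0,0),(1,0),(4,0)]⟩,⟨0,[(3,0),(16,0),(14,0)]⟩⟩,⟨true,0,⟨0,[(19,0)]⟩,⟨4,[(6,
  2),(0,0),(0,1),(11,4),(0,1),(3,1)]⟩⟩,⟨false,0,⟨0,[]⟩,⟨3,[(17,0),(0,0),(19,1)]⟩⟩,⟨false,0,⟨0,[(3,
  0),(8,0),(11,0)]⟩,⟨0,[(0,0),(1,0),(3,0),(0,1),(0,0),(11,0)]⟩⟩,⟨true,0,⟨0,[(35,0)]⟩,⟨0,[(36,0)]⟩⟩,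
  ⟨false,0,⟨0,[(3,0),(7,0),(12,0)]⟩,⟨0,[(0,0),(1,0),(3,0),(0,0),(12,0),(13,0)]⟩⟩,[.o ⟨false,0,⟨0,
  [(35,0)]⟩,⟨0,[(10,0),(27,0)]⟩⟩,.o ⟨false,1,⟨3,[(17,0),(0,0),(16,3),(2,1)]⟩,⟨0,[(6,0)]⟩⟩,.o ⟨false,
  1,⟨1,[(20,1),(9,0),(6,0)]⟩,⟨1,[(0,0),(2,0),(6,0),(8,0)]⟩⟩,.a ⟨true,0,⟨0,[(20,0)]⟩,⟨0,[(19,0)]⟩⟩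
  ⟨false,1,⟨1,[(17,0),(19,0)]⟩,⟨0,[(3,0),(16,0)]⟩⟩ ⟨true,0,⟨0,[(19,0),(15,0)]⟩,⟨0,[(6,0),(13,
  0)]⟩⟩]⟩)) (.Q [0,1,-1,-1,0,0,1,1,-1,0,-1,1] (.p false [0,0,1] [0,0,0,1] (⟨0,[(28,0)]⟩,⟨0,[(27,
  0)]⟩) .k 2 (⟨0,[(19,0)]⟩,⟨0,[(18,0)]⟩) .k (.x (-1) ⟨0,[(24,0),(3,0),(7,0)]⟩ ⟨0,[(21,0),(5,0)]⟩))
  (.R ⟨0,false,false,true,[1,0,0,-1],[0,1],[0,1,0,0,0,0,0,0,-1],(⟨0,[(19,0)]⟩,⟨0,[(20,0)]⟩),(⟨0,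
  [(32,0)]⟩,⟨0,[(31,0)]⟩),⟨0,[(1,0)]⟩,.k,.k,(.x (-1) ⟨7,[(9,3),(7,2),(0,2),(11,1)]⟩ ⟨0,[(32,0)]⟩),
  (.x (-1) ⟨7,[(9,3),(7,2),(0,2),(11,1)]⟩ ⟨0,[(32,0)]⟩),.k,.k,⟨false,1,⟨0,[(0,0),(1,0),(4,2),(0,1),
  (10,0),(1,0)]⟩,⟨0,[(3,0),(16,0),(14,0)]⟩⟩,⟨true,0,⟨0,[(19,0)]⟩,⟨1,[(1,1),(7,0),(12,0),(2,0)]⟩⟩,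
  ⟨true,0,⟨0,[(40,0)]⟩,⟨0,[]⟩⟩,⟨false,0,⟨0,[(3,0),(8,0),(11,0)]⟩,⟨3,[(0,3),(1,1),(4,9),(0,5),(13,3),
  (14,0),(0,0)]⟩⟩,⟨false,0,⟨0,[]⟩,⟨0,[]⟩⟩,⟨false,0,⟨0,[]⟩,⟨0,[]⟩⟩,[.o ⟨false,0,⟨0,[(35,0)]⟩,⟨0,[(10,
  0),(27,0)]⟩⟩,.o ⟨false,1,⟨3,[(17,0),(0,0),(16,3),(2,1)]⟩,⟨0,[(6,0)]⟩⟩,.o ⟨false,1,⟨1,[(20,1),(9,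
  0),(6,0)]⟩,⟨4,[(6,2),(0,0),(0,1),(10,4),(1,1),(3,1)]⟩⟩,.a ⟨true,0,⟨0,[(20,0)]⟩,⟨0,[(19,0)]⟩⟩
  ⟨false,1,⟨1,[(17,0),(19,0)]⟩,⟨0,[(3,0),(16,0)]⟩⟩ ⟨true,0,⟨0,[(19,0),(15,0)]⟩,⟨0,[(6,0),(13,
  0)]⟩⟩]⟩) (.I [0,0,1,0,0,0,0,2] (.I [1,-1,-1,0,1,0,0,0,-1] (.R ⟨0,false,false,true,[1,0,0,-1],[1,0,
  -1],[0,1,0,0,0,0,0,0,-1],(⟨0,[(21,0)]⟩,⟨0,[(22,0)]⟩),(⟨0,[(30,0)]⟩,⟨0,[(31,0)]⟩),⟨0,[(3,0)]⟩,.k,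
  .k,(.x (-1) ⟨7,[(11,3),(7,2),(0,2),(11,1)]⟩ ⟨0,[(34,0)]⟩),.k,.k,.k,⟨false,1,⟨1,[(0,1),(0,0),(33,
  0)]⟩,⟨5,[(2,0),(0,1),(1,4),(3,2),(1,0),(1,0),(8,3),(12,2)]⟩⟩,⟨true,0,⟨0,[(21,0),(2,0)]⟩,⟨0,[(15,
  0),(6,0)]⟩⟩,⟨true,0,⟨0,[(42,0)]⟩,⟨0,[]⟩⟩,⟨false,0,⟨0,[(5,0),(20,0)]⟩,⟨1,[(0,1),(2,1),(7,0),(6,
  0)]⟩⟩,⟨false,0,⟨0,[]⟩,⟨0,[]⟩⟩,⟨false,0,⟨0,[]⟩,⟨0,[]⟩⟩,[.o ⟨false,0,⟨0,[(23,0)]⟩,⟨7,[(18,3),(0,0),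
  (0,0),(11,1),(7,3)]⟩⟩,.o ⟨false,1,⟨1,[(26,1),(5,0),(7,0)]⟩,⟨2,[(8,1),(4,0),(4,0)]⟩⟩,.o ⟨false,1,
  ⟨1,[(22,1),(9,0),(6,0)]⟩,⟨4,[(8,2),(0,0),(0,1),(10,4),(1,1),(3,1)]⟩⟩,.a ⟨true,0,⟨0,[(22,0)]⟩,⟨0,
  [(21,0)]⟩⟩ ⟨false,1,⟨1,[(19,0),(19,0)]⟩,⟨0,[(5,0),(16,0)]⟩⟩ ⟨true,0,⟨0,[(21,0),(1,0)]⟩,⟨1,[(3,1),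
  (7,0),(6,0)]⟩⟩]⟩) (.R ⟨0,false,false,false,[1,0,0,-1],[1,0,-1],[0,1,1],(⟨0,[(21,0)]⟩,⟨0,[(22,
  0)]⟩),(⟨0,[(30,0)]⟩,⟨0,[(31,0)]⟩),⟨0,[(3,0)]⟩,.k,.k,(.x (-1) ⟨7,[(11,3),(7,2),(0,2),(11,1)]⟩ ⟨0,
  [(34,0)]⟩),.k,.k,.k,⟨false,0,⟨1,[(1,0),(33,0)]⟩,⟨3,[(9,1),(27,1),(1,0),(0,2)]⟩⟩,⟨true,0,⟨0,[(21,
  0),(2,0)]⟩,⟨0,[(15,0),(6,0)]⟩⟩,⟨true,(-1),⟨0,[(0,0)]⟩,⟨1,[(19,0),(19,0)]⟩⟩,⟨false,0,⟨0,[(2,0),(35,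
  0)]⟩,⟨1,[(3,1),(7,0),(6,0),(0,0),(19,0)]⟩⟩,⟨false,0,⟨0,[]⟩,⟨0,[]⟩⟩,⟨false,0,⟨0,[]⟩,⟨0,[]⟩⟩,[.o
  ⟨false,1,⟨1,[(26,1),(5,0),(7,0)]⟩,⟨2,[(8,1),(4,0),(4,0)]⟩⟩,.o ⟨false,1,⟨0,[(23,0),(16,0)]⟩,⟨0,
  [(25,0)]⟩⟩,.o ⟨false,1,⟨1,[(22,1),(9,0),(6,0)]⟩,⟨4,[(0,0),(1,0),(5,2),(1,0),(4,0),(3,0),(1,3),(1,
  0),(3,0)]⟩⟩,.a ⟨true,0,⟨0,[(22,0)]⟩,⟨0,[(21,0)]⟩⟩ ⟨true,0,⟨0,[(42,0)]⟩,⟨0,[]⟩⟩ ⟨false,1,⟨19,[(2,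
  19),(3,7),(2,3),(9,10),(0,0)]⟩,⟨1,[(3,1),(7,0),(6,0)]⟩⟩]⟩)) (.I [0,-1,-1,-1,1,0,0,0,-1] (.I [0,0,
  1,1,0,0,0,1,1] (.I [1,0,1,2,0,0,0,1,1] (.R ⟨0,false,false,false,[1,0,0,-1],[0,1,1],[0,0,0,-1,0,0,
  0,0,-1],(⟨0,[(23,0)]⟩,⟨0,[(24,0)]⟩),(⟨0,[(33,0),(2,0)]⟩,⟨0,[(18,0)]⟩),⟨0,[(5,0)]⟩,.k,.k,(.x (-1)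
  ⟨7,[(13,3),(7,2),(0,2),(11,1)]⟩ ⟨0,[(36,0)]⟩),(.r (-1) ⟨19,[(8,3),(2,11),(9,12),(0,2)]⟩ ⟨0,[(1,
  0)]⟩),.k,.k,⟨false,1,⟨1,[(2,1),(8,0),(25,0),(2,0)]⟩,⟨0,[(0,0)]⟩⟩,⟨true,0,⟨0,[(17,0),(5,0)]⟩,⟨0,
  [(24,0),(1,0)]⟩⟩,⟨true,0,⟨0,[(40,0)]⟩,⟨0,[(39,0)]⟩⟩,⟨false,0,⟨0,[(4,0),(15,0)]⟩,⟨0,[(2,0),(21,0),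
  (0,0)]⟩⟩,⟨false,0,⟨0,[]⟩,⟨0,[]⟩⟩,⟨false,0,⟨0,[]⟩,⟨0,[]⟩⟩,[.o ⟨false,0,⟨0,[(10,0),(4,0)]⟩,⟨4,[(2,
  1),(8,1),(2,0),(7,0),(5,0),(1,3),(3,1)]⟩⟩,.o ⟨false,1,⟨15,[(15,7),(4,3),(0,0),(0,0),(11,5),(7,
  7)]⟩,⟨0,[(25,0),(14,0)]⟩⟩,.o ⟨false,1,⟨1,[(24,1),(9,0),(6,0)]⟩,⟨6,[(3,0),(6,3),(1,1),(10,6),(1,1),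
  (0,0),(2,2)]⟩⟩,.a ⟨true,0,⟨0,[(24,0)]⟩,⟨0,[(23,0)]⟩⟩ ⟨false,1,⟨0,[(2,0)]⟩,⟨6,[(0,1),(0,3),(2,0),
  (6,1),(12,0),(3,0),(0,1)]⟩⟩ ⟨true,0,⟨0,[(10,0),(4,0),(7,0)]⟩,⟨0,[(24,0),(0,0),(14,0)]⟩⟩]⟩) (.R ⟨0,
  false,false,false,[1,0,0,-1],[0,1,1],[1,0,0,0,0,0,0,0,-1],(⟨0,[(23,0)]⟩,⟨0,[(24,0)]⟩),(⟨0,[(33,0),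
  (2,0)]⟩,⟨0,[(18,0)]⟩),⟨0,[(5,0)]⟩,.k,.k,(.x (-1) ⟨7,[(13,3),(7,2),(0,2),(11,1)]⟩ ⟨0,[(36,0)]⟩),
  (.r (-1) ⟨19,[(8,3),(2,11),(9,12),(0,2)]⟩ ⟨0,[(1,0)]⟩),.k,.k,⟨false,1,⟨2,[(0,0),(10,0),(9,0),(19,
  1)]⟩,⟨0,[(1,0)]⟩⟩,⟨true,0,⟨0,[(17,0),(5,0)]⟩,⟨0,[(24,0),(1,0)]⟩⟩,⟨true,0,⟨0,[]⟩,⟨0,[(44,0)]⟩⟩,
  ⟨false,0,⟨0,[(4,0),(15,0)]⟩,⟨0,[(2,0),(21,0),(0,0)]⟩⟩,⟨false,0,⟨0,[]⟩,⟨0,[]⟩⟩,⟨false,0,⟨0,[]⟩,⟨0,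
  []⟩⟩,[.o ⟨false,0,⟨0,[(10,0),(4,0)]⟩,⟨3,[(0,1),(21,0),(5,1),(1,1),(3,1),(7,0)]⟩⟩,.o ⟨false,1,⟨15,
  [(15,7),(4,3),(0,0),(0,0),(11,5),(7,7)]⟩,⟨0,[(25,0),(14,0)]⟩⟩,.o ⟨false,1,⟨1,[(24,1),(9,0),(6,
  0)]⟩,⟨9,[(0,0),(3,0),(5,4),(1,2),(4,0),(5,8),(1,3),(3,3)]⟩⟩,.a ⟨true,0,⟨0,[(24,0)]⟩,⟨0,[(23,0)]⟩⟩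
  ⟨false,1,⟨9,[(0,3),(1,3),(0,3),(8,5),(8,0),(19,4)]⟩,⟨3,[(1,2),(5,0),(3,0),(12,0),(3,0),(0,0),(10,
  1)]⟩⟩ ⟨true,0,⟨0,[(10,0),(4,0),(7,0)]⟩,⟨0,[(24,0),(0,0),(14,0)]⟩⟩]⟩)) (.R ⟨0,false,false,true,[1,
  0,0,-1],[0,1],[0,0,0,-1,0,0,0,0,-1],(⟨0,[(22,0)]⟩,⟨0,[(23,0)]⟩),(⟨0,[(35,0)]⟩,⟨0,[(34,0)]⟩),⟨0,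
  [(4,0)]⟩,.k,.k,(.x (-1) ⟨7,[(12,3),(7,2),(0,2),(11,1)]⟩ ⟨0,[(35,0)]⟩),(.x (-1) ⟨7,[(12,3),(7,2),
  (0,2),(11,1)]⟩ ⟨0,[(35,0)]⟩),.k,.k,⟨false,1,⟨2,[(0,2),(4,0),(1,0),(29,0),(3,0)]⟩,⟨0,[(3,0),(19,0),
  (2,0),(11,0)]⟩⟩,⟨true,0,⟨0,[(22,0)]⟩,⟨1,[(4,1),(7,0),(12,0),(2,0)]⟩⟩,⟨true,0,⟨0,[(39,0)]⟩,⟨0,[(38,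
  0)]⟩⟩,⟨false,0,⟨0,[(3,0),(15,0),(7,0)]⟩,⟨15,[(0,7),(0,7),(2,15),(0,1),(3,1),(1,1),(0,7),(20,2),(7,
  2)]⟩⟩,⟨false,0,⟨0,[]⟩,⟨0,[]⟩⟩,⟨false,0,⟨0,[]⟩,⟨0,[]⟩⟩,[.o ⟨false,0,⟨0,[(38,0)]⟩,⟨0,[(13,0),(27,
  0)]⟩⟩,.o ⟨false,1,⟨3,[(20,0),(0,0),(16,3),(2,1)]⟩,⟨0,[(9,0)]⟩⟩,.o ⟨false,1,⟨1,[(23,1),(9,0),(6,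
  0)]⟩,⟨2,[(0,0),(2,0),(7,0),(1,1),(8,1),(5,0)]⟩⟩,.a ⟨true,0,⟨0,[(23,0)]⟩,⟨0,[(22,0)]⟩⟩ ⟨false,1,⟨0,
  [(1,0)]⟩,⟨0,[(3,0),(19,0),(2,0)]⟩⟩ ⟨true,0,⟨0,[(22,0),(15,0)]⟩,⟨0,[(9,0),(13,0)]⟩⟩]⟩)) (.K ⟨0,[0,
  0,0,1],0,(-1),(⟨0,[(22,0)]⟩,⟨0,[(21,0)]⟩),.k,(.r 0 ⟨0,[(0,0),(0,1),(2,0),(2,2),(0,2),(1,0),(5,2),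
  (17,5)]⟩ ⟨10,[(2,2),(7,1),(8,8),(0,1),(1,2),(3,0),(0,3),(9,3)]⟩),(.x 0 ⟨0,[(34,0)]⟩ ⟨7,[(11,3),(7,
  2),(0,2),(11,1)]⟩),.k,.k,[⟨0,[(22,0)]⟩,⟨0,[(21,0)]⟩,⟨7,[(19,4),(0,0),(1,7),(12,3),(3,1)]⟩,⟨0,[(0,
  0),(7,0),(12,0)]⟩]⟩))))))))

theorem ok8 : chk (cU (-1) true 3) t8 l11 = true := by decide +kernel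

noncomputable def t9 : Tre :=
  (.I [0,0,-2,-2,1,0,0,1] (.Q [0,0,2,0,-1,0,1,0,0,-1,-1] (.p false [1,-1,1] [] (⟨0,[(25,0),(1,0)]⟩,
  ⟨0,[(1,0)]⟩) .k 0 (⟨0,[]⟩,⟨0,[]⟩) .k .k) (.Q [0,1,0,1,0,0,-1,-1,0,1,1] (.p true [1,-1,1] [] (⟨0,
  [(26,0),(1,0)]⟩,⟨0,[(2,0)]⟩) .k 0 (⟨0,[]⟩,⟨0,[]⟩) .k .k) (.K ⟨2,[1,-1,1],(-1),0,(⟨0,[(27,0),(1,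
  0)]⟩,⟨0,[(3,0)]⟩),.k,(.r (-1) ⟨0,[(2,0)]⟩ ⟨2,[(0,3),(0,2),(7,0),(18,0),(7,1)]⟩),.k,.k,.k,[⟨0,[(4,
  0)]⟩,⟨0,[(0,0)]⟩,⟨35,[(0,27),(1,11),(11,7),(0,4),(0,4),(7,23),(9,3),(1,13)]⟩,⟨0,[(1,0)]⟩]⟩) (.Q
  [0,1,-1,0,0,0,0,0,-1,0,0,1] (.p true [0,0,0,1] [] (⟨0,[(18,0)]⟩,⟨0,[(17,0)]⟩) .k 0 (⟨0,[]⟩,⟨0,
  []⟩) .k .k) (.K ⟨0,[0,0,0,1],0,0,(⟨0,[(19,0)]⟩,⟨0,[(18,0)]⟩),.k,(.r (-1) ⟨19,[(3,7),(2,3),(9,0),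
  (0,10)]⟩ ⟨21,[(0,9),(1,5),(3,13),(0,16),(2,0),(5,5),(1,9),(1,4),(2,1)]⟩),(.x 0 ⟨0,[(31,0)]⟩ ⟨7,
  [(8,3),(7,2),(0,2),(11,1)]⟩),.k,.k,[⟨0,[(19,0)]⟩,⟨0,[(18,0)]⟩,⟨0,[(0,0)]⟩,⟨1,[(2,0),(14,0),(0,1),
  (2,0),(10,0)]⟩]⟩) (.Q [0,1,1,0,-1,0,0,0,1,0,0,-1] (.p false [0,0,0,1] [] (⟨0,[(19,0)]⟩,⟨0,[(18,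
  0)]⟩) .k 0 (⟨0,[]⟩,⟨0,[]⟩) .k .k) (.K ⟨0,[0,0,0,1],0,(-1),(⟨0,[(20,0)]⟩,⟨0,[(19,0)]⟩),.k,(.x 0
  ⟨11,[(3,1),(5,5),(15,8),(0,10),(3,1)]⟩ ⟨0,[(32,0),(4,0)]⟩),(.x 0 ⟨0,[(32,0)]⟩ ⟨7,[(9,3),(7,2),(0,
  2),(11,1)]⟩),.k,.k,[⟨0,[(20,0)]⟩,⟨0,[(19,0)]⟩,⟨7,[(17,4),(0,0),(1,7),(12,3),(3,1)]⟩,⟨0,[(0,
  0)]⟩]⟩) (.Q [0,0,0,0,0,-1,0,0,0,1,0,-1] (.p false [0,0,0,1] [1] (⟨0,[(20,0)]⟩,⟨0,[(19,0)]⟩) .k 1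
  (⟨0,[]⟩,⟨0,[]⟩) .k .k) (.I [1,-1,1,0,0,0,0,0,-1] (.I [1,-1,-1,-1,1,0,0,1,-1] (.I [0,1,-1,-1,0,0,0,
  0,-1] (.R ⟨1,false,false,true,[1,0,0,-1],[0,1],[1,1,0,0,0,0,0,0,-1],(⟨0,[(23,0)]⟩,⟨0,[(24,0)]⟩),
  (⟨0,[(36,0)]⟩,⟨0,[(35,0)]⟩),⟨0,[(3,0)]⟩,.k,.k,(.x (-1) ⟨7,[(13,3),(7,2),(0,2),(11,1)]⟩ ⟨0,[(36,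
  0)]⟩),(.x (-1) ⟨7,[(13,3),(7,2),(0,2),(11,1)]⟩ ⟨0,[(36,0)]⟩),(.r (-1) ⟨9,[(0,2),(0,2),(6,4),(2,3),
  (9,1)]⟩ ⟨5,[(5,1),(1,1),(4,2),(2,2),(6,1),(1,1),(0,0),(2,3),(2,3)]⟩),.k,⟨false,1,⟨9,[(0,3),(0,3),
  (9,1),(9,0),(19,4)]⟩,⟨0,[(5,0),(18,0),(14,0)]⟩⟩,⟨true,0,⟨0,[(23,0)]⟩,⟨2,[(7,0),(16,2),(5,0),(3,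
  0)]⟩⟩,⟨false,0,⟨0,[]⟩,⟨3,[(21,0),(0,0),(19,1)]⟩⟩,⟨false,0,⟨0,[(5,0),(10,0),(11,0)]⟩,⟨0,[(4,0),(5,
  0)]⟩⟩,⟨true,0,⟨0,[(39,0)]⟩,⟨0,[(40,0)]⟩⟩,⟨false,0,⟨0,[(5,0),(9,0),(12,0)]⟩,⟨0,[(4,0),(5,0),(29,
  0)]⟩⟩,[.o ⟨false,0,⟨0,[(39,0)]⟩,⟨0,[(14,0),(27,0)]⟩⟩,.o ⟨false,1,⟨3,[(21,0),(0,0),(16,3),(2,1)]⟩,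
  ⟨0,[(10,0)]⟩⟩,.o ⟨false,1,⟨1,[(24,1),(9,0),(6,0)]⟩,⟨2,[(7,0),(15,2),(6,0),(3,0)]⟩⟩,.a ⟨true,0,⟨0,
  [(24,0)]⟩,⟨0,[(23,0)]⟩⟩ ⟨false,1,⟨1,[(21,0),(19,0)]⟩,⟨0,[(5,0),(18,0)]⟩⟩ ⟨true,0,⟨0,[(23,0),(15,
  0)]⟩,⟨0,[(10,0),(13,0)]⟩⟩]⟩) (.R ⟨1,false,false,true,[1,0,0,-1],[0,1],[0,1,0,-1,0,0,0,0,-1],(⟨0,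
  [(23,0)]⟩,⟨0,[(24,0)]⟩),(⟨0,[(36,0)]⟩,⟨0,[(35,0)]⟩),⟨0,[(3,0)]⟩,.k,.k,(.x (-1) ⟨7,[(13,3),(7,2),
  (0,2),(11,1)]⟩ ⟨0,[(36,0)]⟩),(.x (-1) ⟨7,[(13,3),(7,2),(0,2),(11,1)]⟩ ⟨0,[(36,0)]⟩),(.r (-1) ⟨1,
  [(1,0),(0,0),(5,0),(2,0),(25,0)]⟩ ⟨10,[(0,8),(6,0),(4,2),(2,0),(6,0),(5,6),(0,4),(9,4)]⟩),.k,
  ⟨false,1,⟨1,[(1,0),(0,0),(5,0),(2,0),(25,0)]⟩,⟨0,[(0,0),(38,0)]⟩⟩,⟨true,0,⟨0,[(23,0)]⟩,⟨2,[(7,0),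
  (16,2),(5,0),(3,0)]⟩⟩,⟨false,0,⟨0,[(40,0)]⟩,⟨0,[(39,0),(2,0)]⟩⟩,⟨false,0,⟨4,[(0,2),(6,0),(7,0),(6,
  0),(0,4),(4,0),(1,0),(6,0)]⟩,⟨0,[(4,0),(5,0)]⟩⟩,⟨true,0,⟨0,[(44,0)]⟩,⟨0,[]⟩⟩,⟨false,0,⟨0,[(0,0),
  (22,0),(15,0)]⟩,⟨0,[(4,0),(5,0),(29,0)]⟩⟩,[.o ⟨false,0,⟨0,[(39,0)]⟩,⟨0,[(14,0),(27,0)]⟩⟩,.o
  ⟨false,1,⟨3,[(21,0),(0,0),(16,3),(2,1)]⟩,⟨0,[(10,0)]⟩⟩,.o ⟨false,1,⟨1,[(24,1),(9,0),(6,0)]⟩,⟨2,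
  [(7,0),(15,2),(6,0),(3,0)]⟩⟩,.a ⟨true,0,⟨0,[(24,0)]⟩,⟨0,[(23,0)]⟩⟩ ⟨false,1,⟨19,[(8,7),(2,3),(9,
  10),(0,0)]⟩,⟨0,[(0,0)]⟩⟩ ⟨true,0,⟨0,[(23,0),(15,0)]⟩,⟨0,[(10,0),(13,0)]⟩⟩]⟩)) (.R ⟨1,false,false,
  false,[1,0,0,-1],[1,-1],[1,0,0,0,0,0,0,0,-1],(⟨0,[(22,0)]⟩,⟨0,[(23,0)]⟩),(⟨0,[(34,0)]⟩,⟨0,[(35,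
  0)]⟩),⟨0,[(2,0)]⟩,.k,.k,(.x (-1) ⟨7,[(12,3),(7,2),(0,2),(11,1)]⟩ ⟨0,[(35,0)]⟩),(.r 0 ⟨0,[(1,0),
  (36,0)]⟩ ⟨19,[(7,7),(2,3),(9,0),(0,10)]⟩),.k,.k,⟨true,0,⟨0,[(1,0),(36,0)]⟩,⟨1,[(0,0),(3,0),(2,0),
  (15,0),(15,0)]⟩⟩,⟨false,0,⟨2,[(6,0),(15,2),(6,0),(3,0)]⟩,⟨0,[(23,0),(16,0)]⟩⟩,⟨true,0,⟨0,[]⟩,⟨0,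
  [(43,0)]⟩⟩,⟨false,0,⟨0,[(4,0),(34,0)]⟩,⟨0,[(3,0),(34,0)]⟩⟩,⟨false,1,⟨0,[(38,0),(2,0)]⟩,⟨0,[(39,
  0)]⟩⟩,⟨false,0,⟨0,[(4,0)]⟩,⟨11,[(3,7),(16,2),(0,0),(1,3),(12,3)]⟩⟩,[.o ⟨false,0,⟨0,[(9,0)]⟩,⟨3,
  [(20,0),(0,0),(16,3),(2,1)]⟩⟩,.o ⟨false,1,⟨0,[(13,0),(27,0)]⟩,⟨0,[(38,0)]⟩⟩,.o ⟨false,1,⟨1,[(23,
  1),(9,0),(6,0)]⟩,⟨2,[(6,0),(15,2),(6,0),(3,0)]⟩⟩,.a ⟨true,0,⟨0,[(23,0)]⟩,⟨0,[(22,0)]⟩⟩ ⟨false,1,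
  ⟨0,[(1,0),(38,0)]⟩,⟨8,[(0,1),(3,0),(1,0),(12,0),(1,2),(1,0),(5,2),(7,0),(1,1)]⟩⟩ ⟨true,0,⟨0,[(9,
  0),(12,0)]⟩,⟨0,[(23,0),(14,0)]⟩⟩]⟩)) (.R ⟨1,false,false,true,[1,0,0,-1],[1,0,-1],[0,1,0,-1,0,0,0,
  0,-1],(⟨0,[(21,0)]⟩,⟨0,[(22,0)]⟩),(⟨0,[(30,0)]⟩,⟨0,[(31,0)]⟩),⟨0,[(1,0)]⟩,.k,.k,(.x (-1) ⟨7,[(11,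
  3),(7,2),(0,2),(11,1)]⟩ ⟨0,[(34,0)]⟩),.k,(.r (-1) ⟨0,[(2,0),(1,0),(16,0),(6,0),(6,0)]⟩ ⟨5,[(3,3),
  (1,0),(7,2),(6,0),(1,3),(0,1),(2,1),(2,4)]⟩),.k,⟨false,1,⟨0,[(2,0),(1,0),(16,0),(6,0),(6,0)]⟩,⟨1,
  [(0,0),(2,0),(5,1),(0,0),(2,0),(8,0),(0,0)]⟩⟩,⟨true,0,⟨0,[(21,0),(2,0)]⟩,⟨0,[(15,0),(6,0)]⟩⟩,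
  ⟨false,0,⟨0,[(38,0)]⟩,⟨0,[(37,0),(2,0)]⟩⟩,⟨false,0,⟨0,[(3,0),(22,0)]⟩,⟨6,[(2,6),(1,1),(8,0),(4,0),
  (6,1)]⟩⟩,⟨true,0,⟨0,[(42,0)]⟩,⟨0,[]⟩⟩,⟨false,0,⟨1,[(0,0),(2,0),(5,1),(0,1),(10,0),(1,0),(2,0)]⟩,
  ⟨2,[(2,2),(2,0),(0,0),(11,0),(19,0)]⟩⟩,[.o ⟨false,0,⟨0,[(23,0)]⟩,⟨7,[(18,3),(0,0),(0,0),(11,1),(7,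
  3)]⟩⟩,.o ⟨false,1,⟨1,[(26,1),(5,0),(7,0)]⟩,⟨6,[(4,1),(8,0),(4,0),(6,1)]⟩⟩,.o ⟨false,1,⟨1,[(0,0),
  (1,0),(19,0),(9,0)]⟩,⟨2,[(5,0),(15,2),(6,0),(3,0)]⟩⟩,.a ⟨true,0,⟨0,[(22,0)]⟩,⟨0,[(21,0)]⟩⟩ ⟨false,
  1,⟨19,[(6,7),(2,3),(9,10),(0,0)]⟩,⟨1,[(0,0),(2,0),(5,1),(0,1),(11,0)]⟩⟩ ⟨true,0,⟨0,[(21,0),(1,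
  0)]⟩,⟨6,[(4,1),(8,0),(4,0),(3,6),(2,1)]⟩⟩]⟩)) (.I [0,0,2,2,-1,0,0,-1,1] (.R ⟨0,false,false,false,
  [1,0,0,-1],[0,1,1],[0,0,0,-1,0,0,0,0,-1],(⟨0,[(21,0)]⟩,⟨0,[(22,0)]⟩),(⟨0,[(31,0),(2,0)]⟩,⟨0,[(16,
  0)]⟩),⟨0,[(1,0)]⟩,.k,.k,(.x (-1) ⟨7,[(11,3),(7,2),(0,2),(11,1)]⟩ ⟨0,[(34,0)]⟩),(.r (-1) ⟨19,[(6,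
  3),(2,11),(9,12),(0,2)]⟩ ⟨14,[(0,12),(5,11),(3,6),(1,0),(5,0),(1,0),(7,1),(6,2)]⟩),.k,.k,⟨false,1,
  ⟨1,[(2,1),(5,1),(0,0),(11,1),(13,0),(2,0)]⟩,⟨2,[(0,2),(5,1),(3,1),(24,0),(3,0)]⟩⟩,⟨true,0,⟨0,[(15,
  0),(5,0)]⟩,⟨0,[(22,0),(1,0)]⟩⟩,⟨true,0,⟨0,[(38,0)]⟩,⟨0,[(37,0)]⟩⟩,⟨false,0,⟨0,[(3,0),(10,0)]⟩,⟨0,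
  [(2,0),(20,0),(14,0)]⟩⟩,⟨false,0,⟨0,[]⟩,⟨0,[]⟩⟩,⟨false,0,⟨0,[]⟩,⟨0,[]⟩⟩,[.o ⟨false,0,⟨39,[(4,15),
  (0,1),(4,0),(2,26),(9,4),(8,1),(2,5)]⟩,⟨19,[(6,3),(2,11),(9,2),(0,2),(7,19),(3,9)]⟩⟩,.o ⟨false,1,
  ⟨15,[(13,7),(4,3),(0,0),(0,0),(11,5),(7,7)]⟩,⟨0,[(23,0),(14,0)]⟩⟩,.o ⟨false,1,⟨1,[(22,1),(9,0),(6,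
  0)]⟩,⟨2,[(5,0),(15,2),(6,0),(3,0)]⟩⟩,.a ⟨true,0,⟨0,[(22,0)]⟩,⟨0,[(21,0)]⟩⟩ ⟨false,1,⟨0,[(2,0),(5,
  0),(12,0)]⟩,⟨2,[(0,0),(16,0),(2,0)]⟩⟩ ⟨true,0,⟨39,[(4,15),(0,1),(4,0),(2,26),(7,39),(1,4),(8,1),
  (2,5)]⟩,⟨0,[(22,0),(0,0),(14,0)]⟩⟩]⟩) (.R ⟨0,false,false,true,[1,0,0,-1],[0,1],[0,1,0,0,0,0,0,0,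
  -1],(⟨0,[(21,0)]⟩,⟨0,[(22,0)]⟩),(⟨0,[(34,0)]⟩,⟨0,[(33,0)]⟩),⟨0,[(1,0)]⟩,.k,.k,(.x (-1) ⟨7,[(11,3),
  (7,2),(0,2),(11,1)]⟩ ⟨0,[(34,0)]⟩),(.x (-1) ⟨7,[(11,3),(7,2),(0,2),(11,1)]⟩ ⟨0,[(34,0)]⟩),.k,.k,
  ⟨false,1,⟨1,[(0,1),(8,1),(0,0),(2,0),(9,0)]⟩,⟨0,[(3,0),(18,0),(14,0)]⟩⟩,⟨true,0,⟨0,[(21,0)]⟩,⟨2,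
  [(5,0),(16,2),(5,0),(3,0)]⟩⟩,⟨true,0,⟨0,[(42,0)]⟩,⟨0,[]⟩⟩,⟨false,0,⟨0,[(3,0),(10,0),(11,0)]⟩,⟨0,
  [(2,0),(5,0)]⟩⟩,⟨false,0,⟨0,[]⟩,⟨0,[]⟩⟩,⟨false,0,⟨0,[]⟩,⟨0,[]⟩⟩,[.o ⟨false,0,⟨0,[(37,0)]⟩,⟨0,[(12,
  0),(27,0)]⟩⟩,.o ⟨false,1,⟨3,[(19,0),(0,0),(16,3),(2,1)]⟩,⟨0,[(8,0)]⟩⟩,.o ⟨false,1,⟨1,[(22,1),(9,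
  0),(6,0)]⟩,⟨2,[(5,0),(15,2),(6,0),(3,0)]⟩⟩,.a ⟨true,0,⟨0,[(22,0)]⟩,⟨0,[(21,0)]⟩⟩ ⟨false,1,⟨1,[(19,
  0),(19,0)]⟩,⟨0,[(3,0),(18,0)]⟩⟩ ⟨true,0,⟨0,[(21,0),(15,0)]⟩,⟨0,[(8,0),(13,0)]⟩⟩]⟩)))))) (.I [0,-1,
  1,0,0,0,0,0,1] (.Q [0,0,0,0,0,-1,0,0,0,1,0,-1] (.p false [0,0,0,1] [1] (⟨0,[(18,0)]⟩,⟨0,[(17,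
  0)]⟩) .k 1 (⟨0,[]⟩,⟨0,[]⟩) .k .k) (.I [1,0,-2,-1,1,0,0,0,-1] (.R ⟨1,false,false,true,[1,0,0,-1],
  [0,1],[1,1,0,0,0,0,0,0,-1],(⟨0,[(19,0)]⟩,⟨0,[(20,0)]⟩),(⟨0,[(32,0)]⟩,⟨0,[(31,0)]⟩),⟨0,[(1,0)]⟩,.k,
  .k,(.x (-1) ⟨7,[(9,3),(7,2),(0,2),(11,1)]⟩ ⟨0,[(32,0)]⟩),(.x (-1) ⟨7,[(9,3),(7,2),(0,2),(11,1)]⟩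
  ⟨0,[(32,0)]⟩),(.r (-1) ⟨0,[(0,0),(35,0)]⟩ ⟨4,[(2,4),(5,1),(15,0),(0,0),(1,2),(7,5)]⟩),.k,⟨false,1,
  ⟨0,[(0,0)]⟩,⟨0,[(2,0),(32,0)]⟩⟩,⟨true,0,⟨0,[(19,0)]⟩,⟨4,[(6,2),(0,0),(0,1),(11,4),(0,1),(3,1)]⟩⟩,
  ⟨false,0,⟨0,[]⟩,⟨3,[(17,0),(0,0),(19,1)]⟩⟩,⟨false,0,⟨0,[(2,0),(16,0),(15,0)]⟩,⟨0,[(0,0),(5,0),(0,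
  0),(0,0),(11,0)]⟩⟩,⟨true,0,⟨0,[(35,0)]⟩,⟨0,[(36,0)]⟩⟩,⟨false,0,⟨0,[(2,0),(8,0),(7,0),(1,0)]⟩,⟨0,
  [(0,0),(5,0),(13,0),(13,0)]⟩⟩,[.o ⟨false,0,⟨0,[(35,0)]⟩,⟨0,[(10,0),(27,0)]⟩⟩,.o ⟨false,1,⟨3,[(17,
  0),(0,0),(16,3),(2,1)]⟩,⟨0,[(6,0)]⟩⟩,.o ⟨false,1,⟨1,[(20,1),(9,0),(6,0)]⟩,⟨4,[(6,2),(0,0),(0,1),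
  (10,4),(1,1),(3,1)]⟩⟩,.a ⟨true,0,⟨0,[(20,0)]⟩,⟨0,[(19,0)]⟩⟩ ⟨false,1,⟨1,[(17,0),(19,0)]⟩,⟨0,[(2,
  0)]⟩⟩ ⟨true,0,⟨0,[(19,0),(15,0)]⟩,⟨0,[(6,0),(13,0)]⟩⟩]⟩) (.Q [0,-1,-1,-1,1,0,1,1,-1,-1,-1,1] (.p
  false [1,-1,1] [0,0,0,1] (⟨0,[(29,0),(1,0)]⟩,⟨0,[(5,0)]⟩) .k 2 (⟨0,[(20,0)]⟩,⟨0,[(19,0)]⟩) .k (.r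
  (-1) ⟨9,[(4,2),(3,2),(8,5),(0,0),(4,0),(2,0),(6,0)]⟩ ⟨3,[(0,1),(6,1),(10,0),(18,0)]⟩)) (.I [0,0,
  -2,-2,1,0,0,-1,-1] (.Q [0,0,-1,0,1,0,-1,-1,-1,-1,1,1] (.p true [0,0,1] [1,0,0,-1] (⟨0,[(31,0)]⟩,
  ⟨0,[(30,0)]⟩) .k 2 (⟨0,[(21,0)]⟩,⟨0,[(22,0)]⟩) .k (.r 0 ⟨1,[(2,1),(2,0),(0,0),(1,1),(4,0)]⟩ ⟨3,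
  [(19,2),(0,0),(8,3)]⟩)) (.R ⟨1,false,false,false,[1,0,0,-1],[0,1,1],[1,1,0,0,0,0,0,0,-1],(⟨0,[(22,
  0)]⟩,⟨0,[(23,0)]⟩),(⟨0,[(32,0),(2,0)]⟩,⟨0,[(17,0)]⟩),⟨0,[(4,0)]⟩,.k,.k,(.x (-1) ⟨7,[(12,3),(7,2),
  (0,2),(11,1)]⟩ ⟨0,[(35,0)]⟩),(.r (-1) ⟨5,[(1,1),(8,1),(9,2),(0,0)]⟩ ⟨4,[(3,2),(3,0),(3,1),(9,0),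
  (14,0),(3,0)]⟩),(.r (-1) ⟨0,[(1,0)]⟩ ⟨7,[(3,3),(7,3),(8,0),(0,2),(16,3)]⟩),.k,⟨false,1,⟨0,[(1,0),
  (36,0)]⟩,⟨1,[(3,1),(2,0),(0,0),(1,1),(0,1),(0,1),(2,0)]⟩⟩,⟨true,0,⟨0,[(16,0),(5,0)]⟩,⟨0,[(23,0),
  (1,0)]⟩⟩,⟨false,0,⟨0,[]⟩,⟨3,[(20,0),(0,0),(19,1)]⟩⟩,⟨false,0,⟨0,[(5,0),(3,0),(4,0),(7,0)]⟩,⟨2,[(0,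
  1),(0,0),(7,0),(13,0),(5,0)]⟩⟩,⟨true,0,⟨0,[(38,0)]⟩,⟨0,[(39,0)]⟩⟩,⟨false,0,⟨1,[(3,1),(5,1),(4,1),
  (7,1),(17,0),(0,0)]⟩,⟨2,[(0,0),(0,1),(7,1),(13,1),(5,1)]⟩⟩,[.o ⟨false,0,⟨0,[(9,0),(4,0)]⟩,⟨5,[(1,
  1),(8,1),(10,0),(7,5),(3,2)]⟩⟩,.o ⟨false,1,⟨15,[(14,7),(4,3),(0,0),(0,0),(11,5),(7,7)]⟩,⟨0,[(24,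
  0),(14,0)]⟩⟩,.o ⟨false,1,⟨1,[(23,1),(9,0),(6,0)]⟩,⟨3,[(3,1),(5,1),(10,0),(1,3),(10,0)]⟩⟩,.a ⟨true,
  0,⟨0,[(23,0)]⟩,⟨0,[(22,0)]⟩⟩ ⟨false,1,⟨1,[(20,0),(19,0)]⟩,⟨0,[(5,0)]⟩⟩ ⟨true,0,⟨0,[(9,0),(4,0),(7,
  0)]⟩,⟨0,[(23,0),(0,0),(14,0)]⟩⟩]⟩) (.K ⟨0,[0,0,0,1],0,(-1),(⟨0,[(23,0)]⟩,⟨0,[(22,0)]⟩),.k,(.r 0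
  ⟨1,[(0,0),(2,0),(2,1),(2,3),(0,0),(3,0),(8,0)]⟩ ⟨3,[(3,1),(16,3),(0,0),(16,1),(2,0)]⟩),(.x 0 ⟨0,
  [(35,0)]⟩ ⟨7,[(12,3),(7,2),(0,2),(11,1)]⟩),.k,.k,[⟨0,[(23,0)]⟩,⟨0,[(22,0)]⟩,⟨7,[(20,4),(0,0),(1,
  7),(12,3),(3,1)]⟩,⟨0,[(0,0),(23,0)]⟩]⟩)) (.R ⟨1,false,false,false,[1,0,0,-1],[0,1,1],[1,1,0,0,0,0,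
  0,0,-1],(⟨0,[(21,0)]⟩,⟨0,[(22,0)]⟩),(⟨0,[(31,0),(2,0)]⟩,⟨0,[(16,0)]⟩),⟨0,[(3,0)]⟩,.k,.k,(.x (-1)
  ⟨7,[(11,3),(7,2),(0,2),(11,1)]⟩ ⟨0,[(34,0)]⟩),(.r (-1) ⟨19,[(6,3),(2,11),(9,12),(0,2)]⟩ ⟨43,[(0,
  17),(5,4),(3,8),(9,12),(4,2),(2,2),(6,2)]⟩),(.x 0 ⟨1,[(0,1),(4,0),(2,2),(0,0),(1,0),(4,1),(2,0),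
  (4,0)]⟩ ⟨0,[(27,0),(3,0),(2,1),(4,0)]⟩),.k,⟨false,1,⟨39,[(6,7),(2,23),(9,20),(0,0),(14,19),(3,
  9)]⟩,⟨7,[(0,5),(3,1),(1,1),(32,0),(0,2)]⟩⟩,⟨true,0,⟨0,[(15,0),(5,0)]⟩,⟨0,[(22,0),(1,0)]⟩⟩,⟨false,
  0,⟨0,[]⟩,⟨3,[(19,0),(0,0),(19,1)]⟩⟩,⟨false,0,⟨9,[(0,5),(3,3),(3,1),(6,5),(2,1),(2,9),(17,2),(0,
  2)]⟩,⟨0,[(0,0),(4,0),(2,1),(0,0),(9,0),(2,0)]⟩⟩,⟨true,0,⟨0,[(37,0)]⟩,⟨0,[(38,0)]⟩⟩,⟨false,0,⟨1,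
  [(0,1),(14,1),(5,1),(17,0),(0,0)]⟩,⟨1,[(5,0),(2,2),(0,0),(9,0),(2,1),(5,0)]⟩⟩,[.o ⟨false,0,⟨0,[(8,
  0),(4,0)]⟩,⟨19,[(6,3),(2,11),(9,2),(0,2),(7,19),(3,9)]⟩⟩,.o ⟨false,1,⟨15,[(13,7),(4,3),(0,0),(0,
  0),(11,5),(7,7)]⟩,⟨0,[(23,0),(14,0)]⟩⟩,.o ⟨false,1,⟨1,[(22,1),(9,0),(6,0)]⟩,⟨3,[(2,1),(5,1),(10,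
  0),(1,3),(10,0)]⟩⟩,.a ⟨true,0,⟨0,[(22,0)]⟩,⟨0,[(21,0)]⟩⟩ ⟨false,1,⟨1,[(19,0),(19,0)]⟩,⟨0,[(4,
  0)]⟩⟩ ⟨true,0,⟨0,[(8,0),(4,0),(7,0)]⟩,⟨0,[(22,0),(0,0),(14,0)]⟩⟩]⟩)) (.I [0,0,-1,-1,0,0,0,0,1]
  (.K ⟨0,[0,0,0,1],0,(-1),(⟨0,[(22,0)]⟩,⟨0,[(21,0)]⟩),.k,(.r 0 ⟨0,[(0,0)]⟩ ⟨3,[(2,1),(16,3),(0,0),
  (16,1),(2,0)]⟩),(.x 0 ⟨0,[(34,0)]⟩ ⟨7,[(11,3),(7,2),(0,2),(11,1)]⟩),.k,.k,[⟨0,[(22,0)]⟩,⟨0,[(21,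
  0)]⟩,⟨7,[(19,4),(0,0),(1,7),(12,3),(3,1)]⟩,⟨2,[(1,2),(6,4),(4,0),(4,0)]⟩]⟩) (.K ⟨0,[0,0,0,1],0,
  (-1),(⟨0,[(22,0)]⟩,⟨0,[(21,0)]⟩),.k,(.x 0 ⟨1,[(11,0),(12,0),(2,1),(0,0)]⟩ ⟨0,[(34,0),(4,0)]⟩),(.x
  0 ⟨0,[(34,0)]⟩ ⟨7,[(11,3),(7,2),(0,2),(11,1)]⟩),.k,.k,[⟨0,[(22,0)]⟩,⟨0,[(21,0)]⟩,⟨7,[(19,4),(0,0),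
  (1,7),(12,3),(3,1)]⟩,⟨2,[(1,2),(6,4),(4,0),(4,0)]⟩]⟩)))) (.I [0,0,-2,-1,1,0,0,0,-1] (.R ⟨0,false,
  false,true,[1,0,0,-1],[0,1],[0,1,0,0,0,0,0,0,-1],(⟨0,[(19,0)]⟩,⟨0,[(20,0)]⟩),(⟨0,[(32,0)]⟩,⟨0,
  [(31,0)]⟩),⟨0,[(1,0)]⟩,.k,.k,(.x (-1) ⟨7,[(9,3),(7,2),(0,2),(11,1)]⟩ ⟨0,[(32,0)]⟩),(.x (-1) ⟨7,
  [(9,3),(7,2),(0,2),(11,1)]⟩ ⟨0,[(32,0)]⟩),.k,.k,⟨false,1,⟨0,[(0,0)]⟩,⟨0,[(2,0),(32,0)]⟩⟩,⟨true,0,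
  ⟨0,[(19,0)]⟩,⟨1,[(1,1),(7,0),(12,0),(2,0)]⟩⟩,⟨true,0,⟨0,[(40,0)]⟩,⟨0,[]⟩⟩,⟨false,0,⟨0,[(2,0),(16,
  0),(15,0)]⟩,⟨1,[(0,1),(0,1),(4,0),(0,0),(0,0),(0,0),(24,0)]⟩⟩,⟨false,0,⟨0,[]⟩,⟨0,[]⟩⟩,⟨false,0,⟨0,
  []⟩,⟨0,[]⟩⟩,[.o ⟨false,0,⟨0,[(35,0)]⟩,⟨0,[(10,0),(27,0)]⟩⟩,.o ⟨false,1,⟨3,[(17,0),(0,0),(16,3),(2,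
  1)]⟩,⟨0,[(6,0)]⟩⟩,.o ⟨false,1,⟨1,[(20,1),(9,0),(6,0)]⟩,⟨4,[(6,2),(0,0),(0,1),(10,4),(1,1),(3,
  1)]⟩⟩,.a ⟨true,0,⟨0,[(20,0)]⟩,⟨0,[(19,0)]⟩⟩ ⟨false,1,⟨1,[(17,0),(19,0)]⟩,⟨0,[(2,0)]⟩⟩ ⟨true,0,⟨0,
  [(19,0),(15,0)]⟩,⟨0,[(6,0),(13,0)]⟩⟩]⟩) (.R ⟨0,false,false,false,[1,0,0,-1],[0,1,1],[0,1,0,0,0,0,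
  0,0,-1],(⟨0,[(19,0)]⟩,⟨0,[(20,0)]⟩),(⟨0,[(29,0),(2,0)]⟩,⟨0,[(14,0)]⟩),⟨0,[(1,0)]⟩,.k,.k,(.x (-1)
  ⟨7,[(9,3),(7,2),(0,2),(11,1)]⟩ ⟨0,[(32,0)]⟩),(.r (-1) ⟨19,[(4,3),(2,11),(9,12),(0,2)]⟩ ⟨4,[(0,2),
  (3,0),(3,1),(9,0),(14,0),(3,0)]⟩),.k,.k,⟨false,1,⟨39,[(4,7),(2,23),(9,20),(0,0),(14,19),(3,9)]⟩,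
  ⟨1,[(0,1),(2,0),(0,0),(1,1),(0,1),(0,1),(2,0)]⟩⟩,⟨true,0,⟨0,[(13,0),(5,0)]⟩,⟨0,[(20,0),(1,0)]⟩⟩,
  ⟨true,0,⟨0,[(40,0)]⟩,⟨0,[]⟩⟩,⟨false,0,⟨0,[(2,0),(3,0),(4,0),(7,0)]⟩,⟨1,[(1,1),(1,0),(2,0),(0,0),
  (1,0),(7,0),(4,0)]⟩⟩,⟨false,0,⟨0,[]⟩,⟨0,[]⟩⟩,⟨false,0,⟨0,[]⟩,⟨0,[]⟩⟩,[.o ⟨false,0,⟨0,[(6,0),(4,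
  0)]⟩,⟨19,[(4,3),(2,11),(9,2),(0,2),(7,19),(3,9)]⟩⟩,.o ⟨false,1,⟨15,[(11,7),(4,3),(0,0),(0,0),(11,
  5),(7,7)]⟩,⟨0,[(21,0),(14,0)]⟩⟩,.o ⟨false,1,⟨1,[(20,1),(9,0),(6,0)]⟩,⟨3,[(0,1),(5,1),(10,0),(1,3),
  (10,0)]⟩⟩,.a ⟨true,0,⟨0,[(20,0)]⟩,⟨0,[(19,0)]⟩⟩ ⟨false,1,⟨1,[(17,0),(19,0)]⟩,⟨0,[(2,0)]⟩⟩ ⟨true,0,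
  ⟨0,[(6,0),(4,0),(7,0)]⟩,⟨0,[(20,0),(0,0),(14,0)]⟩⟩]⟩))) (.Q [0,1,1,0,0,0,0,0,1,0,0,-1] (.p false
  [0,0,0,1] [] (⟨0,[(18,0)]⟩,⟨0,[(17,0)]⟩) .k 0 (⟨0,[]⟩,⟨0,[]⟩) .k .k) (.K ⟨0,[0,0,0,1],0,0,(⟨0,
  [(19,0)]⟩,⟨0,[(18,0)]⟩),.k,(.r (-1) ⟨19,[(3,7),(2,3),(9,0),(0,10)]⟩ ⟨3,[(1,3),(5,1),(15,0),(0,0),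
  (1,2),(6,2)]⟩),(.x 0 ⟨0,[(31,0)]⟩ ⟨7,[(8,3),(7,2),(0,2),(11,1)]⟩),.k,.k,[⟨0,[(19,0)]⟩,⟨0,[(18,
  0)]⟩,⟨0,[(1,0),(17,0)]⟩,⟨0,[(0,0)]⟩]⟩) (.Q [0,0,0,0,0,1,0,0,0,-1,0,1] (.p true [0,0,0,1] [1] (⟨0,
  [(19,0)]⟩,⟨0,[(18,0)]⟩) .k 1 (⟨0,[]⟩,⟨0,[]⟩) .k .k) (.R ⟨0,false,false,false,[1,0,0,-1],[0,1,1],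
  [0,1,0,0,0,0,0,0,-1],(⟨0,[(19,0)]⟩,⟨0,[(20,0)]⟩),(⟨0,[(29,0),(2,0)]⟩,⟨0,[(14,0)]⟩),⟨0,[(0,0)]⟩,.k,
  .k,(.x (-1) ⟨7,[(9,3),(7,2),(0,2),(11,1)]⟩ ⟨0,[(32,0)]⟩),(.r 0 ⟨3,[(1,0),(0,2),(3,0),(0,1),(11,0),
  (14,1),(1,0)]⟩ ⟨3,[(15,3),(1,0),(0,2)]⟩),.k,.k,⟨false,0,⟨1,[(1,0),(0,0),(3,0),(0,0),(11,0),(13,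
  0)]⟩,⟨7,[(8,3),(8,0),(0,4),(19,1)]⟩⟩,⟨true,0,⟨0,[(13,0),(5,0)]⟩,⟨0,[(20,0),(1,0)]⟩⟩,⟨true,0,⟨0,
  [(40,0)]⟩,⟨0,[]⟩⟩,⟨false,1,⟨19,[(8,5),(2,3),(1,3),(2,1),(1,9),(0,19),(5,7),(4,2),(7,6)]⟩,⟨0,[(1,
  0),(19,0),(14,0)]⟩⟩,⟨false,0,⟨0,[]⟩,⟨0,[]⟩⟩,⟨false,0,⟨0,[]⟩,⟨0,[]⟩⟩,[.o ⟨false,0,⟨0,[(6,0),(4,
  0)]⟩,⟨19,[(4,3),(2,11),(9,2),(0,2),(7,19),(3,9)]⟩⟩,.o ⟨false,1,⟨15,[(11,7),(4,3),(0,0),(0,0),(11,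
  5),(7,7)]⟩,⟨0,[(21,0),(14,0)]⟩⟩,.o ⟨false,1,⟨1,[(20,1),(9,0),(6,0)]⟩,⟨4,[(6,2),(0,0),(0,1),(10,4),
  (1,1),(3,1)]⟩⟩,.a ⟨true,0,⟨0,[(20,0)]⟩,⟨0,[(19,0)]⟩⟩ ⟨false,0,⟨2,[(1,1),(0,0),(3,1),(4,0),(7,1),
  (1,0)]⟩,⟨1,[(18,0),(6,0),(0,0),(11,0)]⟩⟩ ⟨true,0,⟨0,[(6,0),(4,0),(7,0)]⟩,⟨0,[(20,0),(0,0),(14,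
  0)]⟩⟩]⟩) (.R ⟨1,false,false,false,[1,0,0,-1],[0,1,1],[0,0,0,-1,0,0,0,0,-1],(⟨0,[(19,0)]⟩,⟨0,[(20,
  0)]⟩),(⟨0,[(29,0),(2,0)]⟩,⟨0,[(14,0)]⟩),⟨0,[(0,0)]⟩,.k,.k,(.x (-1) ⟨7,[(9,3),(7,2),(0,2),(11,1)]⟩
  ⟨0,[(32,0)]⟩),(.r 0 ⟨3,[(1,0),(0,2),(3,0),(0,1),(11,0),(14,1),(1,0)]⟩ ⟨3,[(15,3),(1,0),(0,2)]⟩),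
  (.r 0 ⟨1,[(1,1),(4,1),(0,0),(11,1),(13,0),(2,0)]⟩ ⟨19,[(8,15),(8,4),(0,14),(5,7),(0,7),(1,3),(7,
  7)]⟩),.k,⟨false,0,⟨1,[(1,1),(4,1),(0,0),(11,1),(13,0),(2,0)]⟩,⟨7,[(8,3),(8,0),(0,4),(16,7),(2,
  1)]⟩⟩,⟨true,0,⟨0,[(13,0),(5,0)]⟩,⟨0,[(20,0),(1,0)]⟩⟩,⟨true,0,⟨0,[(36,0)]⟩,⟨0,[(35,0)]⟩⟩,⟨false,1,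
  ⟨19,[(8,5),(2,3),(1,3),(2,1),(1,9),(0,19),(5,7),(4,2),(7,6)]⟩,⟨0,[(1,0),(19,0),(14,0)]⟩⟩,⟨false,1,
  ⟨3,[(17,0),(0,0),(19,1)]⟩,⟨0,[]⟩⟩,⟨false,1,⟨9,[(7,3),(0,5),(2,5),(1,1),(4,4),(0,9),(5,1),(4,2),(7,
  1)]⟩,⟨0,[(1,0),(19,0),(14,1)]⟩⟩,[.o ⟨false,0,⟨0,[(6,0),(4,0)]⟩,⟨19,[(4,3),(2,11),(9,2),(0,2),(7,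
  19),(3,9)]⟩⟩,.o ⟨false,1,⟨15,[(11,7),(4,3),(0,0),(0,0),(11,5),(7,7)]⟩,⟨0,[(21,0),(14,0)]⟩⟩,.o
  ⟨false,1,⟨1,[(20,1),(9,0),(6,0)]⟩,⟨4,[(6,2),(0,0),(0,1),(10,4),(1,1),(3,1)]⟩⟩,.a ⟨true,0,⟨0,[(20,
  0)]⟩,⟨0,[(19,0)]⟩⟩ ⟨false,0,⟨0,[(1,0),(4,0),(12,0)]⟩,⟨19,[(8,7),(8,4),(0,14),(5,3),(0,3),(1,11),
  (7,3)]⟩⟩ ⟨true,0,⟨0,[(6,0),(4,0),(7,0)]⟩,⟨0,[(20,0),(0,0),(14,0)]⟩⟩]⟩))))) (.Q [0,1,0,1,0,0,-1,-1,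
  0,1,1] (.p true [1,-1,1] [] (⟨0,[(25,0),(1,0)]⟩,⟨0,[(1,0)]⟩) .k 0 (⟨0,[]⟩,⟨0,[]⟩) .k .k) (.K ⟨2,
  [1,-1,1],(-1),0,(⟨0,[(26,0),(1,0)]⟩,⟨0,[(2,0)]⟩),.k,(.x 1 ⟨1,[(1,1),(1,2),(2,1),(6,0),(12,1),(6,
  0)]⟩ ⟨3,[(2,3),(11,0),(0,0),(7,3),(5,3),(4,5)]⟩),.k,.k,.k,[⟨0,[(3,0)]⟩,⟨0,[(0,0)]⟩,⟨11,[(0,7),(12,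
  3),(0,0),(0,0),(7,11),(9,7),(0,5),(0,3)]⟩,⟨1,[(1,1),(1,2),(9,0),(19,0)]⟩]⟩) (.Q [0,1,-1,0,0,0,0,0,
  -1,0,0,1] (.p true [0,0,0,1] [] (⟨0,[(17,0)]⟩,⟨0,[(16,0)]⟩) .k 0 (⟨0,[]⟩,⟨0,[]⟩) .k .k) (.K ⟨0,[0,
  0,0,1],0,0,(⟨0,[(18,0)]⟩,⟨0,[(17,0)]⟩),.k,(.r (-1) ⟨1,[(16,0),(17,1),(0,0)]⟩ ⟨24,[(0,4),(0,1),(0,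
  9),(3,3),(1,0),(6,9),(1,4),(2,1)]⟩),(.x 0 ⟨0,[(30,0)]⟩ ⟨7,[(7,3),(7,2),(0,2),(11,1)]⟩),.k,.k,[⟨0,
  [(18,0)]⟩,⟨0,[(17,0)]⟩,⟨0,[(0,0)]⟩,⟨1,[(1,0),(0,0),(5,0),(7,0),(0,1),(6,0),(6,0)]⟩]⟩) (.Q [0,1,1,
  0,-1,0,0,0,1,0,0,-1] (.p false [0,0,0,1] [] (⟨0,[(18,0)]⟩,⟨0,[(17,0)]⟩) .k 0 (⟨0,[]⟩,⟨0,[]⟩) .k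
  .k) (.K ⟨0,[0,0,0,1],0,(-1),(⟨0,[(19,0)]⟩,⟨0,[(18,0)]⟩),.k,(.x 0 ⟨1,[(8,0),(12,0),(2,1),(0,0)]⟩
  ⟨0,[(31,0),(4,0)]⟩),(.x 0 ⟨0,[(31,0)]⟩ ⟨7,[(8,3),(7,2),(0,2),(11,1)]⟩),.k,.k,[⟨0,[(19,0)]⟩,⟨0,
  [(18,0)]⟩,⟨7,[(16,4),(0,0),(1,7),(12,3),(3,1)]⟩,⟨0,[(0,0)]⟩]⟩) (.Q [0,0,0,0,0,1,0,0,0,-1,0,1] (.p
  true [0,0,0,1] [1] (⟨0,[(19,0)]⟩,⟨0,[(18,0)]⟩) .k 1 (⟨0,[]⟩,⟨0,[]⟩) .k .k) (.I [1,1,1,0,-1,0,0,-1,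
  1] (.R ⟨0,false,false,false,[1,0,0,-1],[0,1,1],[0,0,0,-1,0,0,0,0,-1],(⟨0,[(20,0)]⟩,⟨0,[(21,0)]⟩),
  (⟨0,[(30,0),(2,0)]⟩,⟨0,[(15,0)]⟩),⟨0,[(1,0)]⟩,.k,.k,(.x (-1) ⟨7,[(10,3),(7,2),(0,2),(11,1)]⟩ ⟨0,
  [(33,0)]⟩),(.r (-1) ⟨7,[(8,3),(9,4),(0,0),(17,3),(0,1)]⟩ ⟨0,[(0,0),(8,0),(27,0),(0,0)]⟩),.k,.k,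
  ⟨false,1,⟨1,[(2,1),(4,1),(0,0),(11,1),(13,0),(2,0)]⟩,⟨0,[(0,0),(8,0),(28,0)]⟩⟩,⟨true,0,⟨0,[(14,0),
  (5,0)]⟩,⟨0,[(21,0),(1,0)]⟩⟩,⟨true,0,⟨0,[(37,0)]⟩,⟨0,[(36,0)]⟩⟩,⟨false,0,⟨0,[(3,0),(9,0)]⟩,⟨0,[(2,
  0),(19,0),(14,0)]⟩⟩,⟨false,0,⟨0,[]⟩,⟨0,[]⟩⟩,⟨false,0,⟨0,[]⟩,⟨0,[]⟩⟩,[.o ⟨false,0,⟨1,[(4,0),(7,0),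
  (23,0)]⟩,⟨0,[(11,0),(13,0),(13,0)]⟩⟩,.o ⟨false,1,⟨15,[(12,7),(4,3),(0,0),(0,0),(11,5),(7,7)]⟩,⟨0,
  [(22,0),(14,0)]⟩⟩,.o ⟨false,1,⟨1,[(21,1),(9,0),(6,0)]⟩,⟨24,[(3,9),(0,0),(0,4),(3,1),(1,12),(6,4),
  (1,14),(2,0)]⟩⟩,.a ⟨true,0,⟨0,[(21,0)]⟩,⟨0,[(20,0)]⟩⟩ ⟨false,1,⟨0,[(2,0),(4,0),(12,0)]⟩,⟨7,[(0,1),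
  (4,1),(3,1),(9,2),(18,0)]⟩⟩ ⟨true,0,⟨1,[(4,0),(7,0),(7,1),(15,0)]⟩,⟨0,[(21,0),(0,0),(14,0)]⟩⟩]⟩)
  (.R ⟨0,false,false,true,[1,0,0,-1],[0,1],[0,1,0,0,0,0,0,0,-1],(⟨0,[(20,0)]⟩,⟨0,[(21,0)]⟩),(⟨0,
  [(33,0)]⟩,⟨0,[(32,0)]⟩),⟨0,[(1,0)]⟩,.k,.k,(.x (-1) ⟨7,[(10,3),(7,2),(0,2),(11,1)]⟩ ⟨0,[(33,0)]⟩),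
  (.x (-1) ⟨7,[(10,3),(7,2),(0,2),(11,1)]⟩ ⟨0,[(33,0)]⟩),.k,.k,⟨false,1,⟨1,[(0,1),(7,0),(25,0),(2,
  0)]⟩,⟨7,[(3,3),(1,1),(3,0),(2,0),(6,1),(1,3),(0,0),(11,1)]⟩⟩,⟨true,0,⟨0,[(20,0)]⟩,⟨6,[(4,0),(0,0),
  (5,0),(9,6),(1,2),(2,1),(4,0)]⟩⟩,⟨true,0,⟨0,[(41,0)]⟩,⟨0,[]⟩⟩,⟨false,0,⟨3,[(3,1),(1,0),(6,0),(6,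
  0),(0,2),(0,0),(5,0),(6,0)]⟩,⟨0,[(2,0),(4,0)]⟩⟩,⟨false,0,⟨0,[]⟩,⟨0,[]⟩⟩,⟨false,0,⟨0,[]⟩,⟨0,[]⟩⟩,
  [.o ⟨false,0,⟨0,[(36,0)]⟩,⟨0,[(11,0),(27,0)]⟩⟩,.o ⟨false,1,⟨3,[(18,0),(0,0),(16,3),(2,1)]⟩,⟨0,[(7,
  0)]⟩⟩,.o ⟨false,1,⟨1,[(21,1),(9,0),(6,0)]⟩,⟨24,[(3,9),(0,0),(0,4),(3,1),(1,12),(6,4),(1,14),(2,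
  0)]⟩⟩,.a ⟨true,0,⟨0,[(21,0)]⟩,⟨0,[(20,0)]⟩⟩ ⟨false,1,⟨1,[(18,0),(19,0)]⟩,⟨0,[(3,0),(17,0)]⟩⟩
  ⟨true,0,⟨0,[(20,0),(15,0)]⟩,⟨0,[(7,0),(13,0)]⟩⟩]⟩)) (.I [0,0,1,1,0,0,0,1,-1] (.R ⟨1,false,false,
  true,[1,0,0,-1],[1,-1,-1],[1,1,0,0,0,0,0,0,-1],(⟨0,[(20,0)]⟩,⟨0,[(21,0)]⟩),(⟨0,[(15,0)]⟩,⟨0,[(30,
  0),(2,0)]⟩),⟨0,[(1,0)]⟩,.k,.k,(.x (-1) ⟨7,[(10,3),(7,2),(0,2),(11,1)]⟩ ⟨0,[(33,0)]⟩),(.r 0 ⟨0,[(0,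
  0)]⟩ ⟨7,[(8,3),(9,0),(0,4),(17,3),(0,1)]⟩),.k,.k,⟨true,0,⟨0,[(0,0)]⟩,⟨1,[(3,1),(4,0),(12,1),(12,
  0),(2,0)]⟩⟩,⟨false,0,⟨0,[(20,0),(2,0)]⟩,⟨0,[(14,0),(6,0),(16,0)]⟩⟩,⟨false,0,⟨0,[]⟩,⟨3,[(18,0),(0,
  0),(19,1)]⟩⟩,⟨false,0,⟨0,[(3,0),(21,0),(11,0)]⟩,⟨25,[(0,0),(1,24),(1,10),(0,0),(6,16),(8,0),(0,1),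
  (8,1),(2,3)]⟩⟩,⟨true,0,⟨0,[(36,0)]⟩,⟨0,[(37,0)]⟩⟩,⟨false,0,⟨0,[(3,0),(21,0)]⟩,⟨6,[(2,6),(1,1),(7,
  0),(4,0),(6,1)]⟩⟩,[.o ⟨false,0,⟨0,[(22,0),(14,0)]⟩,⟨15,[(12,7),(4,3),(0,0),(0,0),(11,5),(7,7)]⟩⟩,
  .o ⟨false,1,⟨0,[(11,0),(13,0),(13,0)]⟩,⟨1,[(4,0),(7,0),(23,0)]⟩⟩,.o ⟨false,1,⟨1,[(21,1),(9,0),(6,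
  0)]⟩,⟨5,[(0,0),(2,2),(1,0),(5,2),(6,0),(1,2)]⟩⟩,.a ⟨true,0,⟨0,[(21,0)]⟩,⟨0,[(20,0)]⟩⟩ ⟨false,1,⟨1,
  [(18,0),(19,0)]⟩,⟨0,[(3,0),(17,0)]⟩⟩ ⟨true,0,⟨0,[(20,0),(1,0),(14,0)]⟩,⟨1,[(4,0),(7,0),(8,1),(14,
  0)]⟩⟩]⟩) (.R ⟨1,false,false,false,[1,0,0,-1],[1,-1],[0,0,0,-1,0,0,0,0,-1],(⟨0,[(20,0)]⟩,⟨0,[(21,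
  0)]⟩),(⟨0,[(32,0)]⟩,⟨0,[(33,0)]⟩),⟨0,[(1,0)]⟩,.k,.k,(.x (-1) ⟨7,[(10,3),(7,2),(0,2),(11,1)]⟩ ⟨0,
  [(33,0)]⟩),(.r 0 ⟨0,[(2,0),(1,0),(0,0),(14,0),(6,0),(6,0)]⟩ ⟨1,[(19,0),(17,1),(0,0)]⟩),.k,.k,
  ⟨true,0,⟨0,[(2,0),(1,0),(0,0),(14,0),(6,0),(6,0),(2,0)]⟩,⟨21,[(0,19),(4,0),(3,8),(9,0),(4,2),(2,
  2),(6,2)]⟩⟩,⟨false,0,⟨24,[(3,9),(0,0),(0,4),(3,1),(1,12),(6,4),(1,14),(2,0)]⟩,⟨0,[(21,0),(16,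
  0)]⟩⟩,⟨true,0,⟨0,[(37,0)]⟩,⟨0,[(36,0)]⟩⟩,⟨false,0,⟨0,[(3,0),(33,0)]⟩,⟨0,[(2,0),(33,0)]⟩⟩,⟨false,1,
  ⟨3,[(18,0),(0,0),(19,1)]⟩,⟨0,[]⟩⟩,⟨false,0,⟨0,[(3,0)]⟩,⟨11,[(2,7),(15,2),(0,0),(1,3),(12,3)]⟩⟩,
  [.o ⟨false,0,⟨0,[(7,0)]⟩,⟨3,[(18,0),(0,0),(16,3),(2,1)]⟩⟩,.o ⟨false,1,⟨0,[(11,0),(27,0)]⟩,⟨0,[(36,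
  0)]⟩⟩,.o ⟨false,1,⟨1,[(21,1),(9,0),(6,0)]⟩,⟨24,[(3,9),(0,0),(0,4),(3,1),(1,12),(6,4),(1,14),(2,
  0)]⟩⟩,.a ⟨true,0,⟨0,[(21,0)]⟩,⟨0,[(20,0)]⟩⟩ ⟨false,1,⟨0,[(2,0),(4,0),(12,0)]⟩,⟨10,[(0,2),(4,3),(3,
  2),(9,3),(4,0),(2,0),(6,0)]⟩⟩ ⟨true,0,⟨0,[(7,0),(12,0)]⟩,⟨0,[(21,0),(14,0)]⟩⟩]⟩)))))))

theorem ok9 : chk (cU (-1) true 3) t9 r11 = true := by decide +kernel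

noncomputable def t10 : Tre :=
  .Q [0,0,0,0,0,-1,0,0,0,0,1] (.ed false [1,-1,1] .k) t8 t9

theorem ok10 : chk (cU (-1) true 3) t10 r10 = true :=
  chk_Q (e' := [0,0,0,0,0,1,0,0,0,0,-1]) (by decide +kernel) (by decide +kernel) ok8 ok9

noncomputable def t11 : Tre :=
  .Q [0,0,0,1,0,0,0,0,0,1] (.pp false [-1,1]) t7 t10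

theorem ok11 : chk (cU (-1) true 3) t11 r8 = true :=
  chk_Q (e' := [0,0,0,-1,0,0,0,0,0,-1]) (by decide +kernel) (by decide +kernel) ok7 ok10

noncomputable def t12 : Tre :=
  .I [0,0,1,1,0,0,0,2] t6 t11

theorem ok12 : chk (cU (-1) true 3) t12 r7 = true :=
  chk_I (e' := [1,0,-1,-1,0,0,0,-2]) (by decide +kernel) (by decide +kernel) ok6 ok11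

noncomputable def t13 : Tre :=
  .I [0,1,-2,-2,0,0,0,-2] t3 t12

theorem ok13 : chk (cU (-1) true 3) t13 r6 = true :=
  chk_I (e' := [1,-1,2,2,0,0,0,2]) (by decide +kernel) (by decide +kernel) ok3 ok12

noncomputable def t14 : Tre :=
  .Q [0,0,0,0,0,2,0,0,0,-1] (.pp true [-1,1]) t2 t13

theorem ok14 : chk (cU (-1) true 3) t14 l5 = true :=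
  chk_Q (e' := [0,0,0,0,0,-2,0,0,0,1]) (by decide +kernel) (by decide +kernel) ok2 ok13

noncomputable def t15 : Tre :=
  (.I [0,0,-1,-1,0,0,0,-2] (.R ⟨1,false,false,false,[1,0,-1],[0,1],[0,1,0,-1,0,0,0,-1],(⟨0,[(19,
  0)]⟩,⟨0,[(20,0)]⟩),(⟨0,[(23,0)]⟩,⟨0,[(22,0)]⟩),⟨0,[(5,0)]⟩,.k,.k,.k,.k,(.r (-1) ⟨7,[(0,3),(7,0),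
  (0,0),(17,11),(0,5)]⟩ ⟨1,[(1,0),(4,2),(5,0),(3,0)]⟩),.k,⟨true,0,⟨1,[(0,0),(23,0),(2,2)]⟩,⟨0,[(2,
  0),(10,0),(11,0)]⟩⟩,⟨false,1,⟨15,[(0,7),(0,7),(5,7),(0,2),(0,2),(14,3),(3,9)]⟩,⟨0,[(13,0)]⟩⟩,
  ⟨false,0,⟨0,[(27,0)]⟩,⟨3,[(1,3),(6,0),(0,0),(11,1)]⟩⟩,⟨true,0,⟨0,[(3,0)]⟩,⟨0,[(12,0),(14,0)]⟩⟩,
  ⟨true,0,⟨0,[(31,0)]⟩,⟨0,[]⟩⟩,⟨true,0,⟨0,[(2,0)]⟩,⟨0,[(12,0),(14,1)]⟩⟩,[.a ⟨true,0,⟨1,[(1,0),(1,0),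
  (11,0)]⟩,⟨0,[(27,0)]⟩⟩ ⟨false,0,⟨1,[(0,0),(23,0),(2,0)]⟩,⟨1,[(6,1),(21,0),(0,0)]⟩⟩ ⟨true,0,⟨5,[(0,
  1),(0,0),(0,1),(0,2),(11,0),(0,1)]⟩,⟨0,[(13,0),(13,0)]⟩⟩,.e ⟨true,0,⟨3,[(0,1),(15,0),(0,0),(9,
  1)]⟩,⟨0,[(6,0)]⟩⟩ ⟨true,0,⟨0,[(1,0),(2,0)]⟩,⟨0,[(13,0),(13,0),(3,0)]⟩⟩,.o ⟨false,1,⟨1,[(17,1),(3,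
  0),(6,0)]⟩,⟨0,[(4,0)]⟩⟩,.o ⟨false,0,⟨0,[(13,0)]⟩,⟨0,[(16,0),(11,0)]⟩⟩]⟩) (.R ⟨1,false,false,true,
  [1,0,-1],[1,-1],[1,0,0,0,0,0,0,-1],(⟨0,[(19,0)]⟩,⟨0,[(20,0)]⟩),(⟨0,[(22,0)]⟩,⟨0,[(23,0)]⟩),⟨0,[(5,
  0)]⟩,.k,.k,.k,.k,.k,.k,⟨true,0,⟨0,[(1,0),(2,0),(7,0),(12,0)]⟩,⟨1,[(0,0),(23,0),(2,2)]⟩⟩,⟨false,0,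
  ⟨0,[(4,0)]⟩,⟨0,[(17,0),(10,0)]⟩⟩,⟨true,0,⟨0,[]⟩,⟨0,[(31,0)]⟩⟩,⟨true,0,⟨0,[(14,0),(12,0)]⟩,⟨0,[(1,
  0),(10,0)]⟩⟩,⟨false,1,⟨3,[(1,3),(6,0),(0,0),(11,1)]⟩,⟨0,[(27,0)]⟩⟩,⟨true,0,⟨0,[(14,0)]⟩,⟨0,[(1,0),
  (10,0),(14,0)]⟩⟩,[.e ⟨true,0,⟨0,[(18,0)]⟩,⟨3,[(0,1),(15,0),(0,0),(9,1)]⟩⟩ ⟨true,0,⟨1,[(4,0),(11,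
  0),(7,0),(2,1)]⟩,⟨0,[(1,0),(11,0)]⟩⟩,.a ⟨true,0,⟨0,[(27,0)]⟩,⟨1,[(1,0),(1,0),(11,0)]⟩⟩ ⟨false,1,
  ⟨1,[(18,1),(9,0),(0,0)]⟩,⟨1,[(0,0),(23,0),(2,0)]⟩⟩ ⟨true,0,⟨0,[(4,0),(22,0)]⟩,⟨1,[(1,0),(4,0),(5,
  0),(4,0)]⟩⟩,.o ⟨false,1,⟨1,[(17,1),(3,0),(6,0)]⟩,⟨0,[(4,0)]⟩⟩,.o ⟨false,0,⟨0,[(13,0)]⟩,⟨0,[(16,0),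
  (11,0)]⟩⟩]⟩))

theorem ok15 : chk (cU (-1) true 3) t15 r5 = true := by decide +kernel

noncomputable def t16 : Tre :=
  .Q [0,1,0,-1,0,0,0,0,0,-1] (.pp true [-1,1]) t14 t15

theorem ok16 : chk (cU (-1) true 3) t16 r4 = true :=
  chk_Q (e' := [0,-1,0,1,0,0,0,0,0,1]) (by decide +kernel) (by decide +kernel) ok14 ok15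

noncomputable def t17 : Tre :=
  .Q [0,0,0,-2,0,0,-1,-1,0,-1,1] (.p true [0,0,1] [1] (⟨0,[(17,0)]⟩,⟨0,[(16,0)]⟩) .k 1 (⟨0,[]⟩,⟨0,
  []⟩) .k .k) t1 t16

theorem ok17 : chk (cU (-1) true 3) t17 l3 = true :=
  chk_Q (e' := [0,0,0,2,0,0,1,1,0,1,-1]) (by decide +kernel) (by decide +kernel) ok1 ok16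

noncomputable def t18 : Tre :=
  (.I [1,-1,0,-1,0,0,0,-1] (.R ⟨2,true,false,true,[0,1],[1,0,-1],[1,0,1,1],(⟨0,[]⟩,⟨0,[]⟩),(⟨0,[(17,
  0)]⟩,⟨0,[(18,0)]⟩),⟨0,[]⟩,.k,.k,.k,.k,.k,.k,⟨false,1,⟨1,[(4,1),(21,0),(0,0)]⟩,⟨0,[(0,0),(21,0)]⟩⟩,
  ⟨true,0,⟨0,[(11,0)]⟩,⟨1,[(5,0),(2,0),(0,0),(6,1)]⟩⟩,⟨true,0,⟨0,[]⟩,⟨0,[(29,0)]⟩⟩,⟨false,0,⟨0,[(1,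
  0)]⟩,⟨1,[(5,0),(2,0),(0,0),(14,1),(2,1)]⟩⟩,⟨false,1,⟨0,[(24,0),(2,0)]⟩,⟨0,[(25,0)]⟩⟩,⟨true,0,⟨0,
  [(10,0)]⟩,⟨1,[(5,0),(2,0),(0,0)]⟩⟩,[]⟩) (.R ⟨2,true,false,false,[0,1],[1,0,-1],[0,1,1],(⟨0,[]⟩,⟨0,
  []⟩),(⟨0,[(17,0)]⟩,⟨0,[(18,0)]⟩),⟨0,[]⟩,.k,.k,.k,.k,.k,.k,⟨false,0,⟨0,[(0,0),(24,0)]⟩,⟨1,[(16,1),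
  (9,0),(0,0)]⟩⟩,⟨true,0,⟨0,[(11,0)]⟩,⟨1,[(5,0),(2,0),(0,0),(6,1)]⟩⟩,⟨false,0,⟨0,[(25,0)]⟩,⟨0,[(24,
  0),(2,0)]⟩⟩,⟨true,0,⟨0,[(1,0)]⟩,⟨1,[(5,0),(2,0),(0,0),(14,1)]⟩⟩,⟨true,0,⟨0,[(29,0)]⟩,⟨0,[]⟩⟩,
  ⟨false,1,⟨0,[(10,0),(16,0)]⟩,⟨1,[(5,0),(2,0),(0,0)]⟩⟩,[]⟩))

theorem ok18 : chk (cU (-1) true 3) t18 r3 = true := by decide +kernel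

noncomputable def t19 : Tre :=
  .Q [0,0,0,1,0,0,1,1,0,1,-1] (.p false [0,0,1] [1] (⟨0,[(16,0)]⟩,⟨0,[(15,0)]⟩) .k 1 (⟨0,[]⟩,⟨0,
  []⟩) .k .k) t17 t18

theorem ok19 : chk (cU (-1) true 3) t19 r2 = true :=
  chk_Q (e' := [0,0,0,-1,0,0,-1,-1,0,-1,1]) (by decide +kernel) (by decide +kernel) ok17 ok18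

noncomputable def t20 : Tre :=
  .Q [0,0,0,0,0,0,-1,0,0,0,1] (.p true [0,0,1] [] (⟨0,[(15,0)]⟩,⟨0,[(14,0)]⟩) .k 0 (⟨0,[]⟩,⟨0,[]⟩)
  .k .k) t0 t19

theorem ok20 : chk (cU (-1) true 3) t20 l1 = true :=
  chk_Q (e' := [0,0,0,0,0,0,1,0,0,0,-1]) (by decide +kernel) (by decide +kernel) ok0 ok19

noncomputable def t21 : Tre :=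
  (.Q [0,0,0,1,0,0,0,0,0,1] (.pp false [-1,1]) (.K ⟨2,[-1,1,1],0,0,(⟨0,[(1,0)]⟩,⟨0,[(15,0),(2,0)]⟩),
  .k,.k,(.r 0 ⟨0,[(2,0),(18,0),(0,0)]⟩ ⟨0,[(14,0),(8,1),(0,0)]⟩),.k,.k,[⟨0,[(0,0)]⟩,⟨0,[(8,0),(14,
  0)]⟩,⟨1,[(9,1),(2,0),(0,0)]⟩,⟨1,[(3,0),(2,0),(0,0),(6,1)]⟩]⟩) (.Q [0,0,0,-1,0,0,-1,-1,0,-1,1] (.p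
  true [0,0,1] [1] (⟨0,[(16,0)]⟩,⟨0,[(15,0)]⟩) .k 1 (⟨0,[]⟩,⟨0,[]⟩) .k .k) (.I [0,1,-1,-1,0,0,0,-1]
  (.R ⟨2,true,false,true,[0,1],[1,0,-1],[1,0,1,1],(⟨0,[]⟩,⟨0,[]⟩),(⟨0,[(17,0)]⟩,⟨0,[(18,0)]⟩),⟨0,
  []⟩,.k,.k,.k,.k,.k,.k,⟨false,1,⟨1,[(4,1),(21,0),(0,0)]⟩,⟨0,[(0,0)]⟩⟩,⟨true,0,⟨0,[(11,0)]⟩,⟨1,[(5,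
  0),(2,0),(0,0),(6,1)]⟩⟩,⟨true,0,⟨0,[]⟩,⟨0,[(29,0)]⟩⟩,⟨false,0,⟨0,[(1,0)]⟩,⟨1,[(5,0),(2,0),(0,0),
  (14,1),(2,1)]⟩⟩,⟨false,1,⟨0,[(24,0),(2,0)]⟩,⟨0,[(25,0)]⟩⟩,⟨true,0,⟨0,[(10,0)]⟩,⟨1,[(5,0),(2,0),(0,
  0)]⟩⟩,[]⟩) (.R ⟨2,true,false,false,[0,1],[1,0,-1],[0,1,1],(⟨0,[]⟩,⟨0,[]⟩),(⟨0,[(17,0)]⟩,⟨0,[(18,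
  0)]⟩),⟨0,[]⟩,.k,.k,.k,.k,.k,.k,⟨false,0,⟨0,[(0,0),(21,0),(2,0)]⟩,⟨1,[(16,1),(9,0),(0,0)]⟩⟩,⟨true,
  0,⟨0,[(11,0)]⟩,⟨1,[(5,0),(2,0),(0,0),(6,1)]⟩⟩,⟨false,0,⟨0,[(25,0)]⟩,⟨0,[(24,0),(2,0)]⟩⟩,⟨true,0,
  ⟨0,[(1,0)]⟩,⟨1,[(5,0),(2,0),(0,0),(14,1)]⟩⟩,⟨true,0,⟨0,[(29,0)]⟩,⟨0,[]⟩⟩,⟨false,1,⟨0,[(10,0),(16,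
  0)]⟩,⟨1,[(5,0),(2,0),(0,0)]⟩⟩,[]⟩)) (.Q [0,0,-1,0,0,0,1,0,0,2,-1] (.p false [-1,1,1] [1] (⟨0,[(2,
  0)]⟩,⟨0,[(16,0),(2,0)]⟩) .k 1 (⟨0,[]⟩,⟨0,[]⟩) .k .k) (.R ⟨0,false,false,true,[-1,1,1],[0,1],[0,1,
  1],(⟨0,[(3,0)]⟩,⟨0,[(17,0),(2,0)]⟩),(⟨0,[(21,0)]⟩,⟨0,[(20,0)]⟩),⟨0,[(17,0)]⟩,.k,.k,.k,.k,.k,.k,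
  ⟨true,0,⟨0,[(25,0)]⟩,⟨0,[(23,0),(0,0)]⟩⟩,⟨false,1,⟨0,[(11,0),(14,0)]⟩,⟨1,[(0,0),(13,0)]⟩⟩,⟨false,
  0,⟨0,[(16,0),(8,0)]⟩,⟨1,[(4,1),(21,0),(0,0)]⟩⟩,⟨true,0,⟨0,[(10,0)]⟩,⟨3,[(0,0),(4,1),(9,0)]⟩⟩,
  ⟨false,0,⟨0,[]⟩,⟨0,[]⟩⟩,⟨false,0,⟨0,[]⟩,⟨0,[]⟩⟩,[.o ⟨false,0,⟨0,[(24,0)]⟩,⟨1,[(19,0),(5,1),(1,
  0)]⟩⟩,.o ⟨false,1,⟨3,[(6,0),(0,0),(16,3),(2,1)]⟩,⟨0,[(2,0)]⟩⟩,.a ⟨true,0,⟨0,[(0,0)]⟩,⟨0,[(11,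
  0)]⟩⟩ ⟨false,0,⟨1,[(14,0),(0,0)]⟩,⟨1,[(26,0),(0,0)]⟩⟩ ⟨true,0,⟨0,[(4,0),(5,0)]⟩,⟨0,[(0,0),(1,
  0)]⟩⟩,.o ⟨false,0,⟨1,[(0,0),(13,0)]⟩,⟨1,[(11,1),(7,0),(6,0)]⟩⟩]⟩) (.Q [0,1,-1,0,0,0,0,0,-1,0,0,1]
  (.p true [0,0,0,1] [] (⟨0,[(9,0)]⟩,⟨0,[(8,0)]⟩) .k 0 (⟨0,[]⟩,⟨0,[]⟩) .k .k) (.Q [0,1,1,0,0,0,0,0,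
  1,0,0,-1] (.p false [0,0,0,1] [] (⟨0,[(10,0)]⟩,⟨0,[(9,0)]⟩) .k 0 (⟨0,[]⟩,⟨0,[]⟩) .k .k) (.K ⟨0,[0,
  0,0,1],0,0,(⟨0,[(11,0)]⟩,⟨0,[(10,0)]⟩),.k,(.r (-1) ⟨1,[(9,0),(17,1),(0,0)]⟩ ⟨0,[(1,0),(0,0),(0,0),
  (6,0),(7,0),(6,0)]⟩),(.x 0 ⟨0,[(23,0)]⟩ ⟨3,[(8,0),(0,0),(11,1),(0,3)]⟩),.k,.k,[⟨0,[(11,0)]⟩,⟨0,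
  [(10,0)]⟩,⟨0,[(1,0)]⟩,⟨0,[(0,0)]⟩]⟩) (.Q [0,0,0,0,0,1,0,0,0,-1,0,1] (.p true [0,0,0,1] [1] (⟨0,
  [(11,0)]⟩,⟨0,[(10,0)]⟩) .k 1 (⟨0,[]⟩,⟨0,[]⟩) .k .k) (.R ⟨0,false,false,false,[1,0,0,-1],[-1,1,1],
  [0,1,0,0,0,0,0,0,-1],(⟨0,[(11,0)]⟩,⟨0,[(12,0)]⟩),(⟨0,[(6,0)]⟩,⟨0,[(20,0),(2,0)]⟩),⟨0,[(0,0)]⟩,.k,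
  .k,(.x (-1) ⟨3,[(9,0),(0,0),(11,1),(0,3)]⟩ ⟨0,[(24,0)]⟩),(.r 0 ⟨1,[(1,0),(0,0),(2,1),(5,1),(7,
  1)]⟩ ⟨3,[(7,3),(1,0),(0,2)]⟩),.k,.k,⟨false,0,⟨0,[(1,0),(3,0),(5,0),(7,0),(5,0)]⟩,⟨1,[(7,1),(2,0),
  (19,0)]⟩⟩,⟨true,0,⟨1,[(8,0),(2,2),(0,0),(6,1)]⟩,⟨0,[(3,0),(8,0)]⟩⟩,⟨true,0,⟨0,[(32,0)]⟩,⟨0,[]⟩⟩,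
  ⟨false,1,⟨1,[(4,1),(5,0),(0,1),(5,0),(0,0),(11,0)]⟩,⟨0,[(1,0),(3,0),(7,0)]⟩⟩,⟨false,0,⟨0,[]⟩,⟨0,
  []⟩⟩,⟨false,0,⟨0,[]⟩,⟨0,[]⟩⟩,[.o ⟨false,0,⟨0,[(4,0)]⟩,⟨1,[(5,1),(10,1),(5,0),(7,0)]⟩⟩,.o ⟨false,1,
  ⟨3,[(4,3),(4,0),(0,0),(19,1)]⟩,⟨0,[(5,0),(7,0)]⟩⟩,.o ⟨false,1,⟨1,[(12,1),(9,0),(6,0)]⟩,⟨1,[(3,0),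
  (7,1),(5,0)]⟩⟩,.a ⟨true,0,⟨0,[(12,0)]⟩,⟨0,[(11,0)]⟩⟩ ⟨false,0,⟨0,[(1,0),(3,0),(5,0),(15,0)]⟩,⟨1,
  [(10,0),(6,0),(0,0),(11,0)]⟩⟩ ⟨true,0,⟨0,[(4,0),(6,0)]⟩,⟨0,[(5,0),(6,0),(0,0)]⟩⟩]⟩) (.Q [0,0,-1,0,
  0,0,2,0,0,2,-2] (.p false [0,0,1] [2,-1,-1] (⟨0,[(21,0)]⟩,⟨0,[(20,0)]⟩) .k 2 (⟨0,[(20,0),(2,0)]⟩,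
  ⟨0,[(6,0)]⟩) .k (.r (-1) ⟨1,[(3,0),(4,1),(9,2),(10,1)]⟩ ⟨0,[(19,1)]⟩)) (.I [0,0,-2,-2,0,0,0,-1,
  -1] (.R ⟨1,false,false,false,[1,0,0,-1],[-1,1,1],[0,0,0,-1,0,0,0,0,-1],(⟨0,[(13,0)]⟩,⟨0,[(14,
  0)]⟩),(⟨0,[(8,0)]⟩,⟨0,[(22,0),(2,0)]⟩),⟨0,[(2,0)]⟩,.k,.k,(.x (-1) ⟨3,[(11,0),(0,0),(11,1),(0,3)]⟩
  ⟨0,[(26,0)]⟩),(.r 0 ⟨1,[(0,0),(2,0),(9,0),(1,0),(3,0)]⟩ ⟨3,[(9,3),(1,0),(0,2)]⟩),(.r 0 ⟨0,[(0,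
  0)]⟩ ⟨1,[(9,1),(2,0),(6,0),(0,0),(8,1),(2,0)]⟩),.k,⟨false,0,⟨0,[(0,0)]⟩,⟨1,[(9,1),(2,0),(16,1),(2,
  0)]⟩⟩,⟨true,0,⟨3,[(1,1),(11,3),(5,0),(0,0)]⟩,⟨0,[(5,0),(8,0)]⟩⟩,⟨true,0,⟨0,[(30,0)]⟩,⟨0,[(29,
  0)]⟩⟩,⟨false,1,⟨3,[(1,1),(7,3),(2,1),(0,3),(5,0),(0,0),(11,1)]⟩,⟨0,[(3,0),(3,0),(7,0)]⟩⟩,⟨false,1,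
  ⟨3,[(11,0),(0,0),(19,1)]⟩,⟨0,[]⟩⟩,⟨false,1,⟨1,[(6,1),(5,0),(0,1),(14,1),(0,1),(2,0)]⟩,⟨0,[(0,0),
  (4,0),(8,0)]⟩⟩,[.o ⟨false,0,⟨0,[(6,0)]⟩,⟨5,[(0,1),(6,1),(4,0),(2,3),(3,0),(0,2),(3,2),(7,1)]⟩⟩,.o
  ⟨false,1,⟨3,[(6,3),(4,0),(0,0),(19,1)]⟩,⟨0,[(7,0),(7,0)]⟩⟩,.o ⟨false,1,⟨1,[(14,1),(9,0),(6,0)]⟩,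
  ⟨1,[(5,0),(7,1),(5,0)]⟩⟩,.a ⟨true,0,⟨0,[(14,0)]⟩,⟨0,[(13,0)]⟩⟩ ⟨false,0,⟨0,[(3,0),(3,0),(5,0)]⟩,
  ⟨1,[(12,0),(6,0),(0,0),(8,1),(2,0)]⟩⟩ ⟨true,0,⟨0,[(6,0),(6,0)]⟩,⟨0,[(7,0),(6,0),(0,0)]⟩⟩]⟩) (.R
  ⟨1,false,false,false,[1,0,0,-1],[-1,1,1],[1,1,0,0,0,0,0,0,-1],(⟨0,[(13,0)]⟩,⟨0,[(14,0)]⟩),(⟨0,[(8,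
  0)]⟩,⟨0,[(22,0),(2,0)]⟩),⟨0,[(2,0)]⟩,.k,.k,(.x (-1) ⟨3,[(11,0),(0,0),(11,1),(0,3)]⟩ ⟨0,[(26,0)]⟩),
  (.r 0 ⟨1,[(3,0),(0,0),(2,1),(5,1),(7,1)]⟩ ⟨3,[(9,3),(1,0),(0,2)]⟩),(.x 0 ⟨0,[(0,0),(1,0),(0,0),(3,
  1),(7,0),(6,0),(2,0)]⟩ ⟨7,[(1,3),(6,7),(2,2),(0,2),(13,7),(4,1)]⟩),.k,⟨false,0,⟨1,[(1,0),(1,1),(3,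
  1),(5,1),(1,1),(11,0)]⟩,⟨1,[(9,1),(2,0),(19,0)]⟩⟩,⟨true,0,⟨3,[(1,1),(11,3),(5,0),(0,0)]⟩,⟨0,[(5,
  0),(8,0)]⟩⟩,⟨false,0,⟨0,[]⟩,⟨3,[(11,0),(0,0),(19,1)]⟩⟩,⟨false,1,⟨15,[(0,7),(0,5),(8,3),(0,1),(0,
  5),(0,15),(5,0),(0,4),(11,7)]⟩,⟨0,[(3,0),(3,0),(7,0)]⟩⟩,⟨true,0,⟨0,[(29,0)]⟩,⟨0,[(30,0)]⟩⟩,⟨false,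
  1,⟨7,[(0,7),(0,3),(9,0),(0,0),(0,7),(17,1),(0,3)]⟩,⟨0,[(3,0),(3,1),(10,0)]⟩⟩,[.o ⟨false,0,⟨0,[(6,
  0)]⟩,⟨1,[(7,1),(10,1),(5,0),(7,0)]⟩⟩,.o ⟨false,1,⟨3,[(6,3),(4,0),(0,0),(19,1)]⟩,⟨0,[(7,0),(7,
  0)]⟩⟩,.o ⟨false,1,⟨1,[(14,1),(9,0),(6,0)]⟩,⟨1,[(5,0),(7,1),(5,0)]⟩⟩,.a ⟨true,0,⟨0,[(14,0)]⟩,⟨0,
  [(13,0)]⟩⟩ ⟨false,0,⟨0,[(3,0),(3,0),(5,0),(15,0)]⟩,⟨1,[(12,0),(6,0),(0,0),(11,0)]⟩⟩ ⟨true,0,⟨0,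
  [(6,0),(6,0)]⟩,⟨0,[(7,0),(6,0),(0,0)]⟩⟩]⟩)) (.R ⟨1,false,false,true,[1,0,0,-1],[1,0,-1],[0,1,0,-1,
  0,0,0,0,-1],(⟨0,[(12,0)]⟩,⟨0,[(13,0)]⟩),(⟨0,[(21,0)]⟩,⟨0,[(22,0)]⟩),⟨0,[(1,0)]⟩,.k,.k,(.x (-1) ⟨3,
  [(10,0),(0,0),(11,1),(0,3)]⟩ ⟨0,[(25,0)]⟩),.k,(.r 0 ⟨1,[(0,0),(1,1),(3,0),(2,0),(2,1),(13,0),(2,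
  0)]⟩ ⟨1,[(11,0),(6,0),(0,0),(0,1),(7,1),(2,0)]⟩),.k,⟨false,0,⟨1,[(0,0),(1,1),(3,0),(2,0),(2,1),
  (13,0),(2,0)]⟩,⟨1,[(11,0),(8,1),(7,1),(2,0)]⟩⟩,⟨true,0,⟨1,[(4,0),(7,1),(6,0)]⟩,⟨0,[(5,0),(0,0),(6,
  0),(6,0)]⟩⟩,⟨false,0,⟨0,[(29,0)]⟩,⟨0,[(28,0),(2,0)]⟩⟩,⟨false,1,⟨1,[(11,0),(0,1),(1,1),(3,0),(0,0),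
  (11,0)]⟩,⟨0,[(2,0),(2,0),(0,0)]⟩⟩,⟨true,0,⟨0,[(33,0)]⟩,⟨0,[]⟩⟩,⟨false,1,⟨1,[(11,0),(0,1),(1,1),
  (12,1),(0,1),(2,0)]⟩,⟨1,[(2,1),(3,0),(2,0),(19,0)]⟩⟩,[.o ⟨false,0,⟨0,[(14,0)]⟩,⟨7,[(9,3),(0,0),(0,
  0),(11,1),(7,3)]⟩⟩,.o ⟨false,1,⟨1,[(17,1),(5,0),(7,0)]⟩,⟨0,[(5,0),(0,0)]⟩⟩,.o ⟨false,1,⟨1,[(13,1),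
  (9,0),(6,0)]⟩,⟨1,[(4,0),(7,1),(5,0)]⟩⟩,.a ⟨true,0,⟨0,[(13,0)]⟩,⟨0,[(12,0)]⟩⟩ ⟨false,0,⟨1,[(2,0),
  (0,0),(2,1),(5,1)]⟩,⟨1,[(11,0),(15,1),(0,1),(2,0)]⟩⟩ ⟨true,0,⟨0,[(12,0),(1,0)]⟩,⟨0,[(5,0),(0,0),
  (6,0)]⟩⟩]⟩)))) (.Q [0,-1,-1,1,1,0,1,1,-1,1,-1,1] (.p false [-1,1,1] [0,0,0,1] (⟨0,[(4,0)]⟩,⟨0,
  [(18,0),(2,0)]⟩) .k 2 (⟨0,[(10,0)]⟩,⟨0,[(9,0)]⟩) .k (.x (-1) ⟨0,[(15,0),(3,0),(7,0)]⟩ ⟨1,[(1,0),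
  (14,0),(1,1)]⟩)) (.Q [0,0,0,0,0,-1,0,0,0,1,0,-1] (.p false [0,0,0,1] [1] (⟨0,[(11,0)]⟩,⟨0,[(10,
  0)]⟩) .k 1 (⟨0,[]⟩,⟨0,[]⟩) .k .k) (.Q [0,-1,1,2,0,0,1,1,1,2,-1,-1] (.p false [-1,1,1] [1,0,0,-1]
  (⟨0,[(6,0)]⟩,⟨0,[(20,0),(2,0)]⟩) .k 2 (⟨0,[(11,0)]⟩,⟨0,[(12,0)]⟩) .k (.x 0 ⟨0,[(17,0),(3,0)]⟩ ⟨1,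
  [(3,0),(14,0),(1,1),(8,1)]⟩)) (.I [0,-1,-2,-2,1,0,0,0,-1] (.R ⟨1,false,false,true,[1,0,0,-1],[0,
  1],[0,0,0,-1,0,0,0,0,-1],(⟨0,[(13,0)]⟩,⟨0,[(14,0)]⟩),(⟨0,[(26,0)]⟩,⟨0,[(25,0)]⟩),⟨0,[(2,0)]⟩,.k,
  .k,(.x (-1) ⟨3,[(11,0),(0,0),(11,1),(0,3)]⟩ ⟨0,[(26,0)]⟩),(.x (-1) ⟨3,[(11,0),(0,0),(11,1),(0,
  3)]⟩ ⟨0,[(26,0)]⟩),(.r (-1) ⟨19,[(0,15),(10,2),(0,0),(14,7),(2,7)]⟩ ⟨1,[(1,1),(3,0),(8,1),(0,1),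
  (3,0)]⟩),.k,⟨false,1,⟨0,[(0,0)]⟩,⟨0,[(4,0),(9,0),(14,1)]⟩⟩,⟨true,0,⟨0,[(13,0)]⟩,⟨1,[(5,0),(8,1),
  (4,0)]⟩⟩,⟨true,0,⟨0,[(30,0)]⟩,⟨0,[(29,0)]⟩⟩,⟨false,0,⟨1,[(1,0),(2,0),(13,0),(15,0)]⟩,⟨1,[(0,0),(2,
  0),(1,0),(1,0),(6,0),(6,0)]⟩⟩,⟨false,1,⟨3,[(11,0),(0,0),(19,1)]⟩,⟨0,[]⟩⟩,⟨false,0,⟨0,[(1,0),(13,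
  0)]⟩,⟨1,[(0,1),(4,0),(8,1),(4,0)]⟩⟩,[.o ⟨false,0,⟨0,[(29,0)]⟩,⟨7,[(0,1),(6,3),(4,0),(6,1),(0,1),
  (3,1),(7,2)]⟩⟩,.o ⟨false,1,⟨3,[(11,0),(0,0),(16,3),(2,1)]⟩,⟨0,[(7,0)]⟩⟩,.o ⟨false,1,⟨1,[(14,1),(9,
  0),(6,0)]⟩,⟨1,[(5,0),(7,1),(5,0)]⟩⟩,.a ⟨true,0,⟨0,[(14,0)]⟩,⟨0,[(13,0)]⟩⟩ ⟨false,1,⟨3,[(0,1),(10,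
  0),(20,0)]⟩,⟨0,[(4,0),(9,0),(14,0)]⟩⟩ ⟨true,0,⟨0,[(13,0),(15,0)]⟩,⟨0,[(7,0),(6,0)]⟩⟩]⟩) (.I [1,1,
  -1,-1,0,0,0,0,-1] (.I [1,1,1,0,-1,0,0,0,1] (.R ⟨1,false,false,false,[1,0,0,-1],[1,-1],[1,1,1],(⟨0,
  [(15,0)]⟩,⟨0,[(16,0)]⟩),(⟨0,[(27,0)]⟩,⟨0,[(28,0)]⟩),⟨0,[(4,0)]⟩,.k,.k,(.x (-1) ⟨3,[(13,0),(0,0),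
  (11,1),(0,3)]⟩ ⟨0,[(28,0)]⟩),(.x (-1) ⟨0,[(28,0),(4,0)]⟩ ⟨1,[(7,0),(13,1),(0,0),(4,1)]⟩),.k,.k,
  ⟨true,(-1),⟨0,[(1,0),(0,0),(27,0)]⟩,⟨1,[(32,1),(0,0),(0,0)]⟩⟩,⟨false,0,⟨1,[(7,0),(7,1),(5,0)]⟩,⟨0,
  [(16,0),(16,0)]⟩⟩,⟨true,(-1),⟨0,[(0,0)]⟩,⟨1,[(13,0),(19,0)]⟩⟩,⟨false,0,⟨0,[(6,0),(25,0)]⟩,⟨0,[(5,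
  0),(11,0)]⟩⟩,⟨false,0,⟨3,[(2,1),(11,0),(19,0)]⟩,⟨0,[(1,0),(32,0)]⟩⟩,⟨false,0,⟨0,[(6,0)]⟩,⟨1,[(13,
  0),(2,1),(16,0)]⟩⟩,[.o ⟨false,0,⟨0,[(9,0)]⟩,⟨3,[(13,0),(0,0),(16,3),(2,1)]⟩⟩,.o ⟨false,1,⟨1,[(26,
  0),(5,1),(1,0)]⟩,⟨0,[(31,0)]⟩⟩,.o ⟨false,1,⟨1,[(16,1),(9,0),(6,0)]⟩,⟨1,[(7,0),(7,1),(5,0)]⟩⟩,.a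
  ⟨true,0,⟨0,[(16,0)]⟩,⟨0,[(15,0)]⟩⟩ ⟨false,0,⟨0,[]⟩,⟨3,[(13,0),(0,0),(19,1)]⟩⟩ ⟨true,0,⟨0,[(1,0),
  (4,0)]⟩,⟨0,[(16,0),(14,0)]⟩⟩]⟩) (.R ⟨1,false,false,true,[1,0,0,-1],[0,1],[0,0,1],(⟨0,[(15,0)]⟩,⟨0,
  [(16,0)]⟩),(⟨0,[(28,0)]⟩,⟨0,[(27,0)]⟩),⟨0,[(4,0)]⟩,.k,.k,(.x (-1) ⟨3,[(13,0),(0,0),(11,1),(0,3)]⟩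
  ⟨0,[(28,0)]⟩),(.x (-1) ⟨3,[(13,0),(0,0),(11,1),(0,3)]⟩ ⟨0,[(28,0)]⟩),(.r (-1) ⟨1,[(1,1),(30,1),(0,
  0),(0,0)]⟩ ⟨3,[(2,3),(10,0),(0,0),(19,1)]⟩),.k,⟨false,1,⟨1,[(32,1),(0,0),(0,0)]⟩,⟨0,[(31,0)]⟩⟩,
  ⟨true,0,⟨0,[(15,0)]⟩,⟨1,[(7,0),(8,1),(4,0)]⟩⟩,⟨false,0,⟨0,[(6,0),(9,0)]⟩,⟨1,[(13,0),(19,0)]⟩⟩,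
  ⟨false,0,⟨15,[(2,3),(0,3),(2,3),(6,0),(0,2),(0,7),(4,3)]⟩,⟨0,[(0,0),(8,0),(6,0)]⟩⟩,⟨true,0,⟨3,[(2,
  1),(11,0),(19,0)]⟩,⟨0,[(1,0)]⟩⟩,⟨false,0,⟨0,[(3,0),(13,0)]⟩,⟨0,[(1,0),(7,0),(6,0),(17,0)]⟩⟩,[.o
  ⟨false,0,⟨0,[(31,0)]⟩,⟨1,[(26,0),(5,1),(1,0)]⟩⟩,.o ⟨false,1,⟨3,[(13,0),(0,0),(16,3),(2,1)]⟩,⟨0,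
  [(9,0)]⟩⟩,.o ⟨false,1,⟨1,[(16,1),(9,0),(6,0)]⟩,⟨1,[(7,0),(7,1),(5,0)]⟩⟩,.a ⟨true,0,⟨0,[(16,0)]⟩,
  ⟨0,[(15,0)]⟩⟩ ⟨false,1,⟨3,[(13,0),(0,0),(19,1)]⟩,⟨0,[]⟩⟩ ⟨true,0,⟨0,[(15,0),(15,0)]⟩,⟨0,[(9,0),(6,
  0)]⟩⟩]⟩)) (.I [0,-1,-1,-1,1,0,0,1,-1] (.R ⟨1,false,false,true,[1,0,0,-1],[1,0,-1],[0,0,0,-1,0,0,0,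
  0,-1],(⟨0,[(15,0)]⟩,⟨0,[(16,0)]⟩),(⟨0,[(24,0)]⟩,⟨0,[(25,0)]⟩),⟨0,[(4,0)]⟩,.k,.k,(.x (-1) ⟨3,[(13,
  0),(0,0),(11,1),(0,3)]⟩ ⟨0,[(28,0)]⟩),.k,(.r (-1) ⟨23,[(0,19),(12,2),(0,0),(4,3),(2,3),(6,7),(2,
  3)]⟩ ⟨11,[(1,3),(0,3),(10,0),(0,2),(8,11)]⟩),.k,⟨false,1,⟨0,[(0,0)]⟩,⟨0,[(1,0),(21,0),(5,0)]⟩⟩,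
  ⟨true,0,⟨1,[(7,0),(7,1),(6,0)]⟩,⟨0,[(8,0),(0,0),(6,0),(6,0)]⟩⟩,⟨true,0,⟨0,[(32,0)]⟩,⟨0,[(31,0)]⟩⟩,
  ⟨false,0,⟨0,[(6,0),(13,0)]⟩,⟨0,[(5,0),(3,0)]⟩⟩,⟨false,1,⟨3,[(13,0),(0,0),(19,1)]⟩,⟨0,[]⟩⟩,⟨false,
  0,⟨0,[(1,0),(13,0),(1,0)]⟩,⟨0,[(5,0),(3,0),(22,0)]⟩⟩,[.o ⟨false,0,⟨0,[(17,0)]⟩,⟨7,[(12,3),(0,0),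
  (0,0),(11,1),(7,3)]⟩⟩,.o ⟨false,1,⟨1,[(20,1),(5,0),(7,0)]⟩,⟨0,[(8,0),(0,0)]⟩⟩,.o ⟨false,1,⟨1,[(16,
  1),(9,0),(6,0)]⟩,⟨1,[(7,0),(7,1),(5,0)]⟩⟩,.a ⟨true,0,⟨0,[(16,0)]⟩,⟨0,[(15,0)]⟩⟩ ⟨false,1,⟨0,[(0,
  0),(22,0)]⟩,⟨11,[(1,3),(0,3),(10,0),(0,2)]⟩⟩ ⟨true,0,⟨0,[(15,0),(1,0)]⟩,⟨0,[(8,0),(0,0),(6,
  0)]⟩⟩]⟩) (.I [0,0,-1,-1,1,0,0,1,-1] (.R ⟨1,false,false,true,[1,0,0,-1],[1,0,-1],[0,1,0,-1,0,0,0,0,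
  -1],(⟨0,[(16,0)]⟩,⟨0,[(17,0)]⟩),(⟨0,[(25,0)]⟩,⟨0,[(26,0)]⟩),⟨0,[(5,0)]⟩,.k,.k,(.x (-1) ⟨3,[(14,0),
  (0,0),(11,1),(0,3)]⟩ ⟨0,[(29,0)]⟩),.k,(.r (-1) ⟨0,[(0,0)]⟩ ⟨3,[(1,1),(0,1),(11,0),(0,0),(8,1)]⟩),
  .k,⟨false,1,⟨0,[(0,0)]⟩,⟨1,[(1,1),(32,0),(0,0)]⟩⟩,⟨true,0,⟨1,[(8,0),(7,1),(6,0)]⟩,⟨2,[(1,0),(4,0),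
  (3,1),(2,0),(3,1),(6,1)]⟩⟩,⟨false,0,⟨0,[(33,0)]⟩,⟨0,[(32,0),(2,0)]⟩⟩,⟨false,0,⟨0,[(7,0),(13,0)]⟩,
  ⟨0,[(6,0),(3,0)]⟩⟩,⟨true,0,⟨0,[(37,0)]⟩,⟨0,[]⟩⟩,⟨false,0,⟨0,[(2,0),(13,0),(1,0)]⟩,⟨0,[(6,0),(3,0),
  (22,0)]⟩⟩,[.o ⟨false,0,⟨0,[(18,0)]⟩,⟨7,[(13,3),(0,0),(0,0),(11,1),(7,3)]⟩⟩,.o ⟨false,1,⟨1,[(21,1),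
  (5,0),(7,0)]⟩,⟨0,[(9,0),(0,0)]⟩⟩,.o ⟨false,1,⟨1,[(17,1),(9,0),(6,0)]⟩,⟨1,[(8,0),(7,1),(5,0)]⟩⟩,.a
  ⟨true,0,⟨0,[(17,0)]⟩,⟨0,[(16,0)]⟩⟩ ⟨false,1,⟨0,[(0,0),(23,0)]⟩,⟨0,[(2,0)]⟩⟩ ⟨true,0,⟨0,[(16,0),(1,
  0)]⟩,⟨0,[(9,0),(0,0),(6,0)]⟩⟩]⟩) (.Q [0,1,1,0,-1,0,0,0,1,0,0,-1] (.p false [0,0,0,1] [] (⟨0,[(17,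
  0)]⟩,⟨0,[(16,0)]⟩) .k 0 (⟨0,[]⟩,⟨0,[]⟩) .k .k) (.K ⟨0,[0,0,0,1],0,(-1),(⟨0,[(18,0)]⟩,⟨0,[(17,
  0)]⟩),.k,(.x 0 ⟨1,[(9,0),(13,1),(0,0),(4,1)]⟩ ⟨0,[(30,0),(4,0)]⟩),(.x 0 ⟨0,[(30,0)]⟩ ⟨3,[(15,0),
  (0,0),(11,1),(0,3)]⟩),.k,.k,[⟨0,[(18,0)]⟩,⟨0,[(17,0)]⟩,⟨7,[(15,4),(0,0),(1,7),(12,3),(3,1)]⟩,⟨0,
  [(0,0)]⟩]⟩) (.R ⟨1,false,false,false,[1,0,0,-1],[-1,1,1],[0,0,0,-1,0,0,0,0,-1],(⟨0,[(17,0)]⟩,⟨0,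
  [(18,0)]⟩),(⟨0,[(12,0)]⟩,⟨0,[(26,0),(2,0)]⟩),⟨0,[(6,0)]⟩,.k,.k,(.x (-1) ⟨3,[(15,0),(0,0),(11,1),
  (0,3)]⟩ ⟨0,[(30,0)]⟩),(.r (-1) ⟨1,[(15,0),(9,1),(8,1),(0,0)]⟩ ⟨1,[(1,1),(7,0),(4,1),(9,2),(10,
  1)]⟩),(.r (-1) ⟨0,[(0,1),(0,0),(9,1),(5,1),(13,0),(2,0)]⟩ ⟨11,[(3,3),(0,3),(8,11),(1,0),(0,2)]⟩),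
  .k,⟨false,1,⟨0,[(0,1),(0,0),(9,1),(5,1),(13,0),(2,0)]⟩,⟨3,[(1,3),(7,0),(3,3),(0,1),(9,2),(10,
  3)]⟩⟩,⟨true,0,⟨1,[(14,0),(2,2),(0,0),(6,1)]⟩,⟨0,[(9,0),(8,0)]⟩⟩,⟨true,0,⟨0,[(34,0)]⟩,⟨0,[(33,
  0)]⟩⟩,⟨false,0,⟨0,[(5,0),(28,0)]⟩,⟨0,[(0,0),(10,0),(7,0)]⟩⟩,⟨false,1,⟨3,[(15,0),(0,0),(19,1)]⟩,⟨0,
  []⟩⟩,⟨false,0,⟨0,[(5,0)]⟩,⟨0,[(0,0),(10,1),(10,0)]⟩⟩,[.o ⟨false,0,⟨0,[(10,0)]⟩,⟨1,[(11,1),(10,1),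
  (5,0),(7,0)]⟩⟩,.o ⟨false,1,⟨23,[(5,7),(1,7),(6,3),(0,4),(0,4),(11,1),(7,3)]⟩,⟨0,[(11,0),(7,0)]⟩⟩,
  .o ⟨false,1,⟨1,[(18,1),(9,0),(6,0)]⟩,⟨1,[(9,0),(7,1),(5,0)]⟩⟩,.a ⟨true,0,⟨0,[(18,0)]⟩,⟨0,[(17,
  0)]⟩⟩ ⟨false,1,⟨0,[(0,0),(10,0),(5,0)]⟩,⟨11,[(3,3),(0,3),(10,0),(0,2)]⟩⟩ ⟨true,0,⟨0,[(10,0),(6,
  0)]⟩,⟨0,[(11,0),(6,0),(0,0)]⟩⟩]⟩)))))) (.R ⟨2,true,false,true,[0,1],[1,0,0,-1],[1,1,1,1],(⟨0,[]⟩,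
  ⟨0,[]⟩),(⟨0,[(12,0)]⟩,⟨0,[(13,0)]⟩),⟨0,[]⟩,.k,.k,.k,(.x 0 ⟨0,[(25,0)]⟩ ⟨3,[(10,0),(0,0),(11,1),(0,
  3)]⟩),.k,.k,⟨true,0,⟨0,[(3,0),(9,0),(14,0)]⟩,⟨0,[(0,0),(4,0),(6,0),(14,0)]⟩⟩,⟨false,1,⟨1,[(13,1),
  (9,0),(6,0)]⟩,⟨0,[(12,0)]⟩⟩,⟨false,0,⟨0,[]⟩,⟨3,[(10,0),(0,0),(19,1)]⟩⟩,⟨true,0,⟨0,[(0,0),(4,0)]⟩,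
  ⟨0,[(3,0),(1,0),(11,0)]⟩⟩,⟨true,0,⟨0,[(28,0)]⟩,⟨0,[(29,0)]⟩⟩,⟨false,1,⟨2,[(0,0),(1,1),(11,0),(8,
  0)]⟩,⟨0,[(3,0),(8,0),(0,0)]⟩⟩,[]⟩)) (.I [0,0,-2,-1,1,0,0,0,-1] (.Q [0,-1,-1,-1,1,0,0,0,-1,-1,0,1]
  (.p true [0,0,0,1] [1] (⟨0,[(13,0)]⟩,⟨0,[(12,0)]⟩) .k 1 (⟨0,[]⟩,⟨0,[]⟩) .k .k) (.R ⟨0,false,false,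
  true,[1,0,0,-1],[0,1],[0,1,0,0,0,0,0,0,-1],(⟨0,[(13,0)]⟩,⟨0,[(14,0)]⟩),(⟨0,[(26,0)]⟩,⟨0,[(25,
  0)]⟩),⟨0,[(2,0)]⟩,.k,.k,(.x (-1) ⟨3,[(11,0),(0,0),(11,1),(0,3)]⟩ ⟨0,[(26,0)]⟩),(.x (-1) ⟨3,[(11,
  0),(0,0),(11,1),(0,3)]⟩ ⟨0,[(26,0)]⟩),.k,.k,⟨false,1,⟨0,[(1,0)]⟩,⟨0,[(4,0),(9,0),(14,0)]⟩⟩,⟨true,
  0,⟨0,[(13,0)]⟩,⟨1,[(5,0),(8,1),(4,0)]⟩⟩,⟨true,0,⟨0,[(34,0)]⟩,⟨0,[]⟩⟩,⟨false,0,⟨0,[(4,0),(1,0),(11,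
  0)]⟩,⟨0,[(0,0)]⟩⟩,⟨false,0,⟨0,[]⟩,⟨0,[]⟩⟩,⟨false,0,⟨0,[]⟩,⟨0,[]⟩⟩,[.o ⟨false,0,⟨0,[(29,0)]⟩,⟨7,
  [(0,3),(3,3),(6,0),(0,0),(11,1),(5,3)]⟩⟩,.o ⟨false,1,⟨3,[(11,0),(0,0),(16,3),(2,1)]⟩,⟨0,[(7,0)]⟩⟩,
  .o ⟨false,1,⟨1,[(14,1),(9,0),(6,0)]⟩,⟨1,[(5,0),(7,1),(5,0)]⟩⟩,.a ⟨true,0,⟨0,[(14,0)]⟩,⟨0,[(13,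
  0)]⟩⟩ ⟨false,1,⟨1,[(11,0),(19,0)]⟩,⟨0,[(4,0),(9,0)]⟩⟩ ⟨true,0,⟨0,[(13,0),(15,0)]⟩,⟨0,[(7,0),(6,
  0)]⟩⟩]⟩) (.R ⟨0,false,false,true,[1,0,0,-1],[0,1],[0,1],(⟨0,[(13,0)]⟩,⟨0,[(14,0)]⟩),(⟨0,[(26,0)]⟩,
  ⟨0,[(25,0)]⟩),⟨0,[(2,0)]⟩,.k,.k,(.x (-1) ⟨3,[(11,0),(0,0),(11,1),(0,3)]⟩ ⟨0,[(26,0)]⟩),(.x (-1)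
  ⟨3,[(11,0),(0,0),(11,1),(0,3)]⟩ ⟨0,[(26,0)]⟩),.k,.k,⟨false,1,⟨0,[(30,0),(0,0)]⟩,⟨0,[(28,0),(0,
  0)]⟩⟩,⟨true,0,⟨0,[(13,0)]⟩,⟨1,[(5,0),(8,1),(4,0)]⟩⟩,⟨false,0,⟨1,[(0,0),(3,0),(2,0),(6,1),(16,0)]⟩,
  ⟨1,[(11,0),(20,0)]⟩⟩,⟨true,(-1),⟨0,[(0,0)]⟩,⟨3,[(1,1),(5,1),(3,0),(2,3),(9,0)]⟩⟩,⟨false,0,⟨0,[]⟩,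
  ⟨0,[]⟩⟩,⟨false,0,⟨0,[]⟩,⟨0,[]⟩⟩,[.o ⟨false,0,⟨0,[(29,0)]⟩,⟨1,[(24,0),(5,1),(1,0)]⟩⟩,.o ⟨false,1,
  ⟨3,[(11,0),(0,0),(16,3),(2,1)]⟩,⟨0,[(7,0)]⟩⟩,.o ⟨false,1,⟨1,[(14,1),(9,0),(6,0)]⟩,⟨1,[(0,0),(3,0),
  (2,0),(3,0)]⟩⟩,.a ⟨true,0,⟨0,[(14,0)]⟩,⟨0,[(13,0)]⟩⟩ ⟨false,1,⟨3,[(11,0),(0,0),(18,1)]⟩,⟨0,[(28,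
  0)]⟩⟩ ⟨true,0,⟨0,[(13,0),(15,0)]⟩,⟨0,[(7,0),(6,0)]⟩⟩]⟩)) (.I [0,-1,-1,-1,1,0,0,0,-1] (.I [1,-1,-1,
  -1,1,0,0,1,-1] (.R ⟨0,false,false,true,[1,0,0,-1],[1,0,-1],[1,0,0,-1,0,0,0,0,-1],(⟨0,[(14,0)]⟩,⟨0,
  [(15,0)]⟩),(⟨0,[(23,0)]⟩,⟨0,[(24,0)]⟩),⟨0,[(3,0)]⟩,.k,.k,(.x (-1) ⟨3,[(12,0),(0,0),(11,1),(0,3)]⟩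
  ⟨0,[(27,0)]⟩),.k,.k,.k,⟨false,1,⟨0,[(0,0)]⟩,⟨5,[(2,3),(10,0),(8,5),(5,1),(1,1),(1,2)]⟩⟩,⟨true,0,
  ⟨1,[(6,0),(7,1),(6,0)]⟩,⟨0,[(7,0),(0,0),(6,0),(6,0)]⟩⟩,⟨true,0,⟨0,[(31,0)]⟩,⟨0,[(30,0)]⟩⟩,⟨false,
  0,⟨0,[(5,0),(13,0)]⟩,⟨0,[(4,0),(3,0)]⟩⟩,⟨false,0,⟨0,[]⟩,⟨0,[]⟩⟩,⟨false,0,⟨0,[]⟩,⟨0,[]⟩⟩,[.o
  ⟨false,0,⟨0,[(16,0)]⟩,⟨7,[(11,3),(0,0),(0,0),(11,1),(7,3)]⟩⟩,.o ⟨false,1,⟨1,[(19,1),(5,0),(7,0)]⟩,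
  ⟨0,[(7,0),(0,0)]⟩⟩,.o ⟨false,1,⟨1,[(15,1),(9,0),(6,0)]⟩,⟨1,[(6,0),(7,1),(5,0)]⟩⟩,.a ⟨true,0,⟨0,
  [(15,0)]⟩,⟨0,[(14,0)]⟩⟩ ⟨false,1,⟨0,[(1,0)]⟩,⟨3,[(2,1),(10,0),(16,1),(2,0)]⟩⟩ ⟨true,0,⟨0,[(14,0),
  (1,0)]⟩,⟨0,[(7,0),(0,0),(6,0)]⟩⟩]⟩) (.I [0,0,-1,0,1,0,0,1,-1] (.R ⟨0,false,false,true,[1,0,0,-1],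
  [1,0,-1],[1,1,1,0,0,0,0,-1],(⟨0,[(15,0)]⟩,⟨0,[(16,0)]⟩),(⟨0,[(24,0)]⟩,⟨0,[(25,0)]⟩),⟨0,[(4,0)]⟩,
  .k,.k,(.x (-1) ⟨3,[(13,0),(0,0),(11,1),(0,3)]⟩ ⟨0,[(28,0)]⟩),.k,.k,.k,⟨false,0,⟨0,[]⟩,⟨3,[(13,0),
  (0,0),(18,1)]⟩⟩,⟨true,0,⟨1,[(7,0),(7,1),(6,0)]⟩,⟨2,[(1,0),(3,0),(3,1),(2,0),(3,1),(6,1)]⟩⟩,⟨true,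
  (-1),⟨0,[(1,0),(30,0)]⟩,⟨0,[(0,0)]⟩⟩,⟨false,0,⟨0,[(6,0),(13,0)]⟩,⟨0,[(5,0),(3,0)]⟩⟩,⟨false,0,⟨0,
  []⟩,⟨0,[]⟩⟩,⟨false,0,⟨0,[]⟩,⟨0,[]⟩⟩,[.o ⟨false,0,⟨0,[(17,0)]⟩,⟨7,[(12,3),(0,0),(0,0),(11,1),(7,
  3)]⟩⟩,.o ⟨false,1,⟨1,[(20,1),(5,0),(7,0)]⟩,⟨0,[(8,0),(0,0)]⟩⟩,.o ⟨false,1,⟨1,[(16,1),(9,0),(6,
  0)]⟩,⟨1,[(7,0),(7,1),(5,0)]⟩⟩,.a ⟨true,0,⟨0,[(16,0)]⟩,⟨0,[(15,0)]⟩⟩ ⟨false,0,⟨0,[(23,0)]⟩,⟨3,[(7,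
  0),(4,1),(9,2),(10,1),(0,1)]⟩⟩ ⟨true,0,⟨0,[(15,0),(1,0)]⟩,⟨0,[(8,0),(0,0),(6,0)]⟩⟩]⟩) (.Q [0,0,-1,
  -1,1,0,-1,-1,-1,-2,1,1] (.p true [-1,1,1] [1,0,0,-1] (⟨0,[(10,0)]⟩,⟨0,[(24,0),(2,0)]⟩) .k 2 (⟨0,
  [(15,0)]⟩,⟨0,[(16,0)]⟩) .k (.x 0 ⟨0,[(21,0),(3,0)]⟩ ⟨1,[(7,0),(14,0),(1,1),(8,1)]⟩)) (.R ⟨0,false,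
  false,false,[1,0,0,-1],[-1,1,1],[0,0,0,-1,0,0,0,0,-1],(⟨0,[(16,0)]⟩,⟨0,[(17,0)]⟩),(⟨0,[(11,0)]⟩,
  ⟨0,[(25,0),(2,0)]⟩),⟨0,[(5,0)]⟩,.k,.k,(.x (-1) ⟨3,[(14,0),(0,0),(11,1),(0,3)]⟩ ⟨0,[(29,0)]⟩),(.r
  (-1) ⟨2,[(3,2),(17,0),(0,0),(1,1),(5,0)]⟩ ⟨3,[(4,3),(3,0),(4,1),(9,2),(10,3)]⟩),.k,.k,⟨false,1,⟨0,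
  [(1,0),(1,1),(26,0)]⟩,⟨0,[(4,0),(7,0),(21,0)]⟩⟩,⟨true,0,⟨1,[(13,0),(2,2),(0,0),(6,1)]⟩,⟨0,[(8,0),
  (8,0)]⟩⟩,⟨true,0,⟨0,[(33,0)]⟩,⟨0,[(32,0)]⟩⟩,⟨false,0,⟨0,[(7,0),(1,0),(6,0),(0,0)]⟩,⟨0,[(0,0)]⟩⟩,
  ⟨false,0,⟨0,[]⟩,⟨0,[]⟩⟩,⟨false,0,⟨0,[]⟩,⟨0,[]⟩⟩,[.o ⟨false,0,⟨0,[(9,0)]⟩,⟨1,[(0,0),(6,0),(13,0),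
  (5,0),(5,0)]⟩⟩,.o ⟨false,1,⟨3,[(6,1),(0,1),(1,1),(4,0),(0,0)]⟩,⟨0,[(10,0),(7,0)]⟩⟩,.o ⟨false,1,⟨1,
  [(17,1),(9,0),(6,0)]⟩,⟨1,[(8,0),(7,1),(5,0)]⟩⟩,.a ⟨true,0,⟨0,[(17,0)]⟩,⟨0,[(16,0)]⟩⟩ ⟨false,1,⟨0,
  [(3,0)]⟩,⟨3,[(2,1),(9,1),(2,0),(19,0)]⟩⟩ ⟨true,0,⟨0,[(9,0),(6,0)]⟩,⟨0,[(10,0),(6,0),(0,0)]⟩⟩]⟩)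
  (.R ⟨0,false,false,false,[1,0,0,-1],[-1,1,1],[0,1,0,-1,0,0,0,0,-1],(⟨0,[(16,0)]⟩,⟨0,[(17,0)]⟩),
  (⟨0,[(11,0)]⟩,⟨0,[(25,0),(2,0)]⟩),⟨0,[(5,0)]⟩,.k,.k,(.x (-1) ⟨3,[(14,0),(0,0),(11,1),(0,3)]⟩ ⟨0,
  [(29,0)]⟩),(.r (-1) ⟨2,[(3,2),(17,0),(0,0),(1,1),(5,0)]⟩ ⟨3,[(0,1),(7,1),(3,1),(2,0),(1,1),(16,
  0)]⟩),.k,.k,⟨false,1,⟨0,[(3,0),(20,0),(5,0),(2,0)]⟩,⟨1,[(0,1),(0,1),(4,1),(1,2),(14,0),(10,1)]⟩⟩,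
  ⟨true,0,⟨6,[(0,1),(5,1),(6,0),(2,6),(5,0),(1,5),(5,0),(2,3)]⟩,⟨0,[(8,0),(8,0)]⟩⟩,⟨false,0,⟨0,[(33,
  0)]⟩,⟨0,[(32,0),(2,0)]⟩⟩,⟨true,(-1),⟨0,[(0,0)]⟩,⟨7,[(3,3),(2,1),(3,5),(3,0),(2,5),(0,9),(8,0),(2,
  1)]⟩⟩,⟨false,0,⟨0,[]⟩,⟨0,[]⟩⟩,⟨false,0,⟨0,[]⟩,⟨0,[]⟩⟩,[.o ⟨false,0,⟨0,[(9,0)]⟩,⟨5,[(3,1),(6,3),(4,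
  0),(2,5),(3,0),(0,0),(3,0),(7,1)]⟩⟩,.o ⟨false,1,⟨3,[(0,1),(5,1),(7,0),(0,0),(11,0),(7,0)]⟩,⟨0,
  [(10,0),(7,0)]⟩⟩,.o ⟨false,1,⟨1,[(17,1),(9,0),(6,0)]⟩,⟨1,[(8,0),(7,1),(5,0)]⟩⟩,.a ⟨true,0,⟨0,[(17,
  0)]⟩,⟨0,[(16,0)]⟩⟩ ⟨false,1,⟨11,[(3,7),(10,2),(0,0),(14,3),(2,3)]⟩,⟨1,[(4,1),(29,0),(0,0)]⟩⟩
  ⟨true,0,⟨1,[(0,1),(13,0),(19,0)]⟩,⟨0,[(10,0),(6,0),(0,0)]⟩⟩]⟩)))) (.R ⟨0,false,false,true,[1,0,0,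
  -1],[0,1],[1,1,2,1],(⟨0,[(13,0)]⟩,⟨0,[(14,0)]⟩),(⟨0,[(26,0)]⟩,⟨0,[(25,0)]⟩),⟨0,[(2,0)]⟩,.k,.k,(.x
  (-1) ⟨3,[(11,0),(0,0),(11,1),(0,3)]⟩ ⟨0,[(26,0)]⟩),(.x (-1) ⟨3,[(11,0),(0,0),(11,1),(0,3)]⟩ ⟨0,
  [(26,0)]⟩),.k,.k,⟨false,0,⟨0,[]⟩,⟨3,[(11,0),(0,0),(18,1)]⟩⟩,⟨true,0,⟨0,[(13,0)]⟩,⟨1,[(5,0),(8,1),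
  (4,0)]⟩⟩,⟨false,(-1),⟨0,[(1,0)]⟩,⟨1,[(11,0),(18,1),(0,1),(0,0)]⟩⟩,⟨true,(-1),⟨0,[(0,0),(12,0)]⟩,
  ⟨1,[(7,1),(3,0),(2,1),(16,0)]⟩⟩,⟨false,0,⟨0,[]⟩,⟨0,[]⟩⟩,⟨false,0,⟨0,[]⟩,⟨0,[]⟩⟩,[.o ⟨false,0,⟨0,
  [(29,0)]⟩,⟨1,[(24,0),(5,1),(1,0)]⟩⟩,.o ⟨false,1,⟨3,[(11,0),(0,0),(16,3),(2,1)]⟩,⟨0,[(7,0)]⟩⟩,.o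
  ⟨false,1,⟨1,[(14,1),(9,0),(6,0)]⟩,⟨1,[(5,0),(7,1),(5,0)]⟩⟩,.a ⟨true,0,⟨0,[(14,0)]⟩,⟨0,[(13,0)]⟩⟩
  ⟨false,0,⟨3,[(1,1),(9,0),(17,1),(2,0)]⟩,⟨1,[(30,1),(0,0),(0,0)]⟩⟩ ⟨true,0,⟨0,[(13,0),(15,0)]⟩,⟨0,
  [(7,0),(6,0)]⟩⟩]⟩)))) (.K ⟨0,[0,0,0,1],0,(-1),(⟨0,[(11,0)]⟩,⟨0,[(10,0)]⟩),.k,(.x 0 ⟨1,[(2,0),(13,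
  1),(0,0),(4,1)]⟩ ⟨0,[(23,0),(4,0)]⟩),(.x 0 ⟨0,[(23,0)]⟩ ⟨3,[(8,0),(0,0),(11,1),(0,3)]⟩),.k,.k,[⟨0,
  [(11,0)]⟩,⟨0,[(10,0)]⟩,⟨7,[(8,4),(0,0),(1,7),(12,3),(3,1)]⟩,⟨0,[(0,0),(2,0)]⟩]⟩))))))

theorem ok21 : chk (cU (-1) true 3) t21 r1 = true := by decide +kernel

noncomputable def t22 : Tre :=
  .Q [0,0,0,0,0,-1,0,0,0,1,-1] (.ed true [0,1,1] .k) t20 t21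

theorem ok22 : chk (cU (-1) true 3) t22 l0 = true :=
  chk_Q (e' := [0,0,0,0,0,1,0,0,0,-1,1]) (by decide +kernel) (by decide +kernel) ok20 ok21

noncomputable def t23 : Tre :=
  (.R ⟨2,true,false,true,[0,1],[1,0,-1],[0,0,1],(⟨0,[]⟩,⟨0,[]⟩),(⟨0,[(13,0)]⟩,⟨0,[(14,0)]⟩),⟨0,[]⟩,
  .k,.k,.k,.k,.k,.k,⟨false,1,⟨1,[(1,0),(5,0),(3,0),(10,0),(0,0)]⟩,⟨0,[(0,0),(19,0)]⟩⟩,⟨true,0,⟨0,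
  [(7,0)]⟩,⟨1,[(1,0),(2,0),(0,0),(6,1)]⟩⟩,⟨true,0,⟨0,[(21,0)]⟩,⟨0,[(20,0)]⟩⟩,⟨false,0,⟨0,[(0,0),(6,
  0)]⟩,⟨1,[(1,0),(2,0),(0,0),(14,1),(2,1)]⟩⟩,⟨false,1,⟨3,[(2,0),(0,0),(19,1)]⟩,⟨0,[]⟩⟩,⟨true,0,⟨0,
  [(6,0)]⟩,⟨1,[(1,0),(2,0),(0,0)]⟩⟩,[]⟩)

theorem ok23 : chk (cU (-1) true 3) t23 r0 = true := by decide +kernel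

noncomputable def t24 : Tre :=
  .I [0,0,1,1,0,0,0,1] t22 t23

theorem ok24 : chk (cU (-1) true 3) t24 base = true :=
  chk_I (e' := [1,0,-1,-1,0,0,0,-1]) (by decide +kernel) (by decide +kernel) ok22 ok23

theorem ok : chkB (cU (-1) true 3) (fax (fcU (-1)) false 35 (-1) 3 false (tU true)) t24 base = true :=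
  chkB_of (by decide +kernel) ok24

end Helper11.CT.Tm1_35_m1_m1_u
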