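import Pool.Agent.Helper11.CT.Cfg
import Pool.Agent.Helper11.CT.Cut

set_option autoImplicit false
set_option linter.all false

namespace Helper11.CT.Tm1_35_m1_m1_v

open Helper11.CT

noncomputable def base : List Con :=
  [(false,[0,0,0,0,0,0,2,0,0,1,-2]),
  (true,[0,0,0,0,1,0,0,0,-2]),
  (true,[0,0,0,0,1,0,0,0,2]),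
  (false,[0,0,0,0,0,0,0,0,0,1,0,-2]),
  (false,[0,0,0,0,0,0,0,0,0,0,0,1]),
  (false,[0,1,0,0,0,0,-1,-1,0,-1,1]),
  (false,[0,0,1,0,0,0,-1,0,0,-1,1]),
  (false,[0,1,0,0,0,0,1,1,0,0,-1]),
  (false,[0,1,0,0,0,0,-1,-1,0,0,1]),
  (false,[0,0,1,0,0,0,1,0,0,0,-1]),
  (false,[0,0,1,0,0,0,-1,0,0,0,1]),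
  (true,[0,0,0,0,0,0,0,-1]),
  (false,[0,0,0,0,0,0,0,0,0,1,-1]),
  (false,[0,0,0,0,0,0,0,0,0,0,1]),
  (false,[0,0,0,0,1,0,0,0,0,-2]),
  (false,[0,0,0,0,0,-1,0,0,0,1]),
  (true,[0,0,0,0,0,1]),
  (true,[0,2,-1]),
  (true,[1,-1,1]),
  (true,[0,1,0,1]),
  (true,[0,0,0,-1]),
  (true,[0,0,-2,0,1]),
  (true,[0,-2,0,0,1]),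
  (true,[-1,0,1]),
  (true,[-1,1])]

noncomputable def l0 : List Con := (false, [0,-1,0,-1,0,0,-1,-1,0,-1,1]) :: base

noncomputable def r0 : List Con := (false, [0,1,0,1,0,0,1,1,0,1,-1]) :: base

noncomputable def t0 : Tre :=
  (.I [1,0,-1,0,0,0,0,-1] (.R ⟨2,true,false,false,[0,1],[1,0,-1],[0,0,1],(⟨0,[]⟩,⟨0,[]⟩),(⟨0,[(14,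
  0)]⟩,⟨0,[(15,0)]⟩),⟨0,[]⟩,.k,.k,.k,.k,.k,.k,⟨false,1,⟨1,[(9,1),(2,1),(10,0),(0,0)]⟩,⟨0,[(0,0)]⟩⟩,
  ⟨true,0,⟨0,[(8,0)]⟩,⟨1,[(2,0),(11,0),(0,0)]⟩⟩,⟨true,0,⟨0,[(22,0)]⟩,⟨0,[(21,0)]⟩⟩,⟨false,0,⟨0,[(1,
  0)]⟩,⟨0,[(9,0),(4,0),(0,0),(5,0),(2,0)]⟩⟩,⟨false,1,⟨3,[(3,0),(0,0),(19,1)]⟩,⟨0,[]⟩⟩,⟨true,0,⟨0,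
  [(1,0),(19,0)]⟩,⟨0,[(9,0),(4,0),(0,0)]⟩⟩,[]⟩) (.I [0,0,-1,-1,0,0,0,-1] (.R ⟨2,true,false,false,[0,
  1],[1,0,-1],[1,0,1,1],(⟨0,[]⟩,⟨0,[]⟩),(⟨0,[(15,0)]⟩,⟨0,[(16,0)]⟩),⟨0,[]⟩,.k,.k,.k,.k,.k,.k,⟨false,
  1,⟨1,[(1,1),(20,1),(1,0),(0,0)]⟩,⟨0,[(0,0)]⟩⟩,⟨true,0,⟨0,[(9,0)]⟩,⟨1,[(3,0),(11,0),(0,0)]⟩⟩,⟨true,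
  0,⟨0,[]⟩,⟨0,[(27,0)]⟩⟩,⟨false,0,⟨0,[(2,0)]⟩,⟨1,[(1,1),(1,0),(11,0),(0,0),(5,1),(1,0),(0,0)]⟩⟩,
  ⟨false,1,⟨0,[(22,0),(2,0)]⟩,⟨0,[(23,0)]⟩⟩,⟨true,0,⟨0,[(2,0),(19,0)]⟩,⟨0,[(10,0),(4,0),(0,0)]⟩⟩,
  []⟩) (.I [1,0,-1,-1,0,0,0,-1] (.N [0,1,1] 0 ⟨0,[(1,0)]⟩ ⟨0,[(0,0)]⟩ .k) (.Q [0,0,0,0,0,1,0,0,0,-1,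
  1] (.ed false [0,1,1] .k) (.Q [0,1,0,1,0,0,1,1,0,2,-1] (.p false [-1,1,1] [1] (⟨0,[(0,0)]⟩,⟨0,
  [(17,0),(2,0)]⟩) .k 1 (⟨0,[]⟩,⟨0,[]⟩) .k .k) (.K ⟨1,[2,-1,-1],0,0,(⟨0,[(18,0),(2,0)]⟩,⟨0,[(1,
  0)]⟩),.k,(.r (-1) ⟨1,[(5,0),(0,0),(7,0),(11,2),(0,1)]⟩ ⟨0,[(3,0),(20,0),(0,0)]⟩),.k,.k,.k,[⟨1,[(0,
  2),(4,2),(0,0)]⟩,⟨1,[(3,1),(1,1),(5,0),(0,0),(0,0),(1,0)]⟩,⟨0,[(0,0)]⟩,⟨0,[(5,0)]⟩]⟩) (.I [0,0,-1,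
  -2] (.R ⟨2,true,false,false,[0,1],[1,-1],[1,0,1,1],(⟨0,[]⟩,⟨0,[]⟩),(⟨0,[(22,0)]⟩,⟨0,[(23,0)]⟩),⟨0,
  []⟩,.k,.k,.k,(.r 0 ⟨0,[(25,1),(0,1)]⟩ ⟨3,[(0,3),(7,0),(0,0),(18,1)]⟩),.k,.k,⟨true,0,⟨0,[(25,1),(0,
  1)]⟩,⟨0,[(0,0)]⟩⟩,⟨false,0,⟨5,[(1,1),(2,1),(7,0),(0,0),(0,0),(1,2)]⟩,⟨0,[(19,0),(0,0),(7,0)]⟩⟩,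
  ⟨true,0,⟨0,[]⟩,⟨0,[(31,0)]⟩⟩,⟨false,0,⟨2,[(0,2),(0,1),(2,1),(2,0),(17,0)]⟩,⟨0,[(19,0),(0,0),(5,1),
  (2,0)]⟩⟩,⟨false,1,⟨0,[(26,0),(2,0)]⟩,⟨0,[(27,0)]⟩⟩,⟨true,0,⟨6,[(0,1),(0,2),(11,0),(0,2),(1,0)]⟩,
  ⟨0,[(19,0),(0,0),(5,0)]⟩⟩,[]⟩) (.I [1,-1,-1,-1,0,0,0,-1,-1] (.I [0,0,-1,-1,0,0,0,0,-1] (.Q [0,0,0,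
  0,0,1,0,0,0,0,0,-1] (.p false [0,0,0,1] [] (⟨0,[(13,0)]⟩,⟨1,[(12,0),(8,0),(0,0)]⟩) .k 0 (⟨0,[]⟩,
  ⟨0,[]⟩) .k .k) (.R ⟨0,false,false,false,[0,0,0,1],[1,-1],[1,0,0,0,0,0,0,0,1],(⟨0,[(14,0)]⟩,⟨1,
  [(13,0),(8,0),(0,0)]⟩),(⟨0,[(25,0)]⟩,⟨0,[(26,0)]⟩),⟨0,[(0,0)]⟩,.k,.k,(.r (-1) ⟨1,[(12,0),(17,1),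
  (0,0)]⟩ ⟨1,[(1,1),(1,1),(15,0),(0,0)]⟩),(.r (-1) ⟨3,[(3,1),(7,0),(0,2),(6,0),(0,0)]⟩ ⟨0,[(1,0)]⟩),
  .k,.k,⟨false,1,⟨7,[(3,3),(7,0),(0,4),(18,1)]⟩,⟨0,[(1,0)]⟩⟩,⟨true,0,⟨6,[(3,0),(0,1),(9,6),(1,2),(0,
  1),(1,2)]⟩,⟨1,[(13,0),(8,0),(0,0)]⟩⟩,⟨true,0,⟨0,[]⟩,⟨0,[(34,0)]⟩⟩,⟨false,0,⟨1,[(2,1),(1,0),(2,0),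
  (0,0),(5,1),(2,0)]⟩,⟨7,[(3,3),(7,0),(0,4),(0,3),(8,3),(0,3),(7,1)]⟩⟩,⟨false,0,⟨0,[]⟩,⟨0,[]⟩⟩,
  ⟨false,0,⟨0,[]⟩,⟨0,[]⟩⟩,[.o ⟨false,0,⟨1,[(4,0),(12,0),(12,0)]⟩,⟨7,[(3,3),(7,2),(0,2),(18,1)]⟩⟩,.o
  ⟨false,1,⟨1,[(24,0),(5,1),(1,0)]⟩,⟨0,[(29,0)]⟩⟩,.a ⟨true,0,⟨1,[(13,0),(8,0),(0,0)]⟩,⟨0,[(14,0)]⟩⟩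
  ⟨false,1,⟨1,[(12,0),(19,0)]⟩,⟨3,[(1,3),(1,1),(15,0),(0,0)]⟩⟩ ⟨true,0,⟨1,[(4,0),(9,1),(2,0),(12,
  0)]⟩,⟨1,[(13,0),(8,0),(0,0),(5,1)]⟩⟩,.o ⟨false,0,⟨1,[(13,0),(2,0),(2,0)]⟩,⟨1,[(14,1),(9,0),(6,
  0)]⟩⟩]⟩) (.R ⟨1,false,false,false,[1,0,0,-1],[1,-1],[1,0,0,0,0,0,0,0,-1],(⟨1,[(13,0),(8,0),(0,
  0)]⟩,⟨0,[(14,0)]⟩),(⟨0,[(25,0)]⟩,⟨0,[(26,0)]⟩),⟨0,[(0,0),(12,0)]⟩,.k,.k,(.r 0 ⟨0,[(1,0)]⟩ ⟨3,[(3,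
  1),(7,0),(0,2),(6,0),(0,0)]⟩),(.r 0 ⟨1,[(1,1),(1,1),(15,0),(0,0)]⟩ ⟨1,[(12,0),(17,1),(0,0)]⟩),.k,
  .k,⟨false,0,⟨0,[(1,0),(1,0)]⟩,⟨1,[(12,0),(17,1),(0,0)]⟩⟩,⟨true,0,⟨1,[(13,0),(2,0),(2,0)]⟩,⟨0,[(14,
  0)]⟩⟩,⟨true,0,⟨0,[]⟩,⟨0,[(34,0)]⟩⟩,⟨false,1,⟨3,[(4,0),(7,1),(0,1),(3,0),(12,2),(1,1)]⟩,⟨0,[(1,0),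
  (1,0),(10,0)]⟩⟩,⟨false,1,⟨7,[(3,3),(7,0),(0,0),(18,1),(0,3)]⟩,⟨0,[(30,0)]⟩⟩,⟨false,1,⟨5,[(4,1),(2,
  1),(2,0),(1,2),(0,2),(17,0),(0,1)]⟩,⟨3,[(1,3),(1,1),(10,3),(4,0),(0,0)]⟩⟩,[.o ⟨false,0,⟨1,[(4,0),
  (12,0),(12,0)]⟩,⟨7,[(3,3),(7,2),(0,2),(18,1)]⟩⟩,.o ⟨false,1,⟨1,[(24,0),(5,1),(1,0)]⟩,⟨0,[(29,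
  0)]⟩⟩,.a ⟨true,0,⟨0,[(14,0)]⟩,⟨1,[(13,0),(8,0),(0,0)]⟩⟩ ⟨false,0,⟨0,[(2,0),(4,0)]⟩,⟨3,[(11,0),(0,
  2)]⟩⟩ ⟨true,0,⟨3,[(4,0),(8,1),(3,0),(12,2)]⟩,⟨0,[(14,0),(14,0)]⟩⟩,.o ⟨false,0,⟨6,[(3,0),(0,1),(9,
  6),(1,2),(0,1),(1,2)]⟩,⟨7,[(11,0),(0,0),(0,3),(10,1),(6,3)]⟩⟩]⟩)) (.Q [0,0,0,1,0,0,-1,-1,0,0,1]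
  (.p true [0,0,1] [] (⟨0,[(22,0)]⟩,⟨0,[(21,0)]⟩) .k 0 (⟨0,[]⟩,⟨0,[]⟩) .k .k) (.Q [0,0,0,0,0,1,0,0,
  0,0,0,-1] (.p false [0,0,0,1] [] (⟨0,[(14,0)]⟩,⟨1,[(13,0),(8,0),(0,0)]⟩) .k 0 (⟨0,[]⟩,⟨0,[]⟩) .k
  .k) (.R ⟨0,false,false,false,[0,0,0,1],[0,0,1],[0,1],(⟨0,[(15,0)]⟩,⟨1,[(14,0),(8,0),(0,0)]⟩),(⟨0,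
  [(24,0)]⟩,⟨0,[(23,0)]⟩),⟨0,[(0,0)]⟩,.k,.k,(.r (-1) ⟨1,[(13,0),(17,1),(0,0)]⟩ ⟨1,[(3,1),(4,1),(11,
  0),(0,0),(8,1)]⟩),.k,.k,.k,⟨false,0,⟨0,[(2,0),(0,0),(24,0)]⟩,⟨1,[(9,1),(22,0),(0,0)]⟩⟩,⟨true,0,⟨0,
  [(2,0),(0,0),(11,0),(2,0)]⟩,⟨1,[(14,0),(2,0),(3,0)]⟩⟩,⟨false,0,⟨0,[(3,0),(4,0),(26,0)]⟩,⟨1,[(13,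
  0),(19,0)]⟩⟩,⟨true,0,⟨0,[(3,0),(4,0),(6,0),(2,0)]⟩,⟨1,[(2,1),(7,1),(3,0),(8,0),(0,0),(3,1)]⟩⟩,
  ⟨false,0,⟨0,[]⟩,⟨0,[]⟩⟩,⟨false,0,⟨0,[]⟩,⟨0,[]⟩⟩,[.o ⟨false,1,⟨3,[(12,0),(0,0),(4,3),(14,1)]⟩,⟨2,
  [(1,0),(3,0),(10,0)]⟩⟩,.o ⟨false,1,⟨0,[(18,0),(14,0)]⟩,⟨0,[(16,0)]⟩⟩,.a ⟨true,0,⟨1,[(14,0),(8,0),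
  (0,0)]⟩,⟨0,[(15,0)]⟩⟩ ⟨true,0,⟨0,[(35,0)]⟩,⟨0,[]⟩⟩ ⟨false,1,⟨0,[(15,0),(2,0),(14,0)]⟩,⟨5,[(1,1),
  (8,1),(3,2),(1,0),(2,0)]⟩⟩,.o ⟨false,0,⟨1,[(14,0),(2,0),(2,0)]⟩,⟨1,[(15,1),(9,0),(6,0)]⟩⟩]⟩) (.R
  ⟨1,false,false,false,[1,0,0,-1],[1,0,-1],[0,1,0,-1,0,0,0,0,-1],(⟨1,[(14,0),(8,0),(0,0)]⟩,⟨0,[(15,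
  0)]⟩),(⟨0,[(23,0)]⟩,⟨0,[(24,0)]⟩),⟨0,[(0,0),(13,0)]⟩,.k,.k,(.x 0 ⟨1,[(0,1),(13,0),(2,0),(2,0)]⟩
  ⟨3,[(12,0),(0,0),(13,3),(4,1)]⟩),.k,(.r (-1) ⟨5,[(3,3),(5,9),(2,0),(15,1),(2,1),(0,4)]⟩ ⟨0,[(2,0),
  (19,0)]⟩),.k,⟨true,0,⟨0,[(3,0),(5,1),(18,0)]⟩,⟨0,[(2,1),(0,0)]⟩⟩,⟨false,1,⟨1,[(14,0),(2,0),(3,0),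
  (10,1)]⟩,⟨0,[(2,0),(0,0),(11,0),(2,0)]⟩⟩,⟨false,0,⟨0,[(31,0)]⟩,⟨7,[(4,3),(7,0),(0,0),(18,1),(0,
  3)]⟩⟩,⟨false,1,⟨7,[(1,3),(8,3),(1,0),(0,4),(0,3),(18,1)]⟩,⟨0,[(3,0),(4,0),(6,0),(2,0)]⟩⟩,⟨true,0,
  ⟨0,[(35,0)]⟩,⟨0,[]⟩⟩,⟨false,1,⟨7,[(1,5),(2,1),(0,1),(7,3),(0,3),(17,0),(0,2)]⟩,⟨0,[(3,0),(5,0),(5,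
  0),(2,0)]⟩⟩,[.o ⟨false,0,⟨2,[(1,0),(3,0),(10,0)]⟩,⟨3,[(12,0),(0,0),(4,3),(14,1)]⟩⟩,.o ⟨false,1,⟨3,
  [(1,1),(8,1),(1,0),(0,0),(11,0),(7,0)]⟩,⟨0,[(18,0)]⟩⟩,.a ⟨true,0,⟨0,[(15,0)]⟩,⟨1,[(14,0),(8,0),(0,
  0)]⟩⟩ ⟨false,0,⟨0,[(3,0),(14,0),(2,0)]⟩,⟨1,[(2,1),(29,0),(0,0)]⟩⟩ ⟨true,0,⟨5,[(1,1),(8,1),(3,2),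
  (1,0),(2,0)]⟩,⟨0,[(15,0),(2,0)]⟩⟩,.o ⟨false,0,⟨6,[(4,0),(0,1),(9,6),(1,2),(0,1),(1,2)]⟩,⟨7,[(12,
  0),(0,0),(0,3),(10,1),(6,3)]⟩⟩]⟩)) (.R ⟨2,true,false,true,[0,1],[0,0,1],[1,0,1,1],(⟨0,[]⟩,⟨0,[]⟩),
  (⟨0,[(23,0)]⟩,⟨0,[(22,0)]⟩),⟨0,[]⟩,.k,.k,.k,.k,.k,.k,⟨true,0,⟨1,[(1,0),(0,0),(0,0),(17,0),(6,0)]⟩,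
  ⟨0,[(0,0),(6,0),(1,0),(12,0),(0,0),(3,0)]⟩⟩,⟨false,0,⟨0,[(1,0),(0,0),(14,0)]⟩,⟨0,[(20,0),(10,
  0)]⟩⟩,⟨true,0,⟨0,[]⟩,⟨0,[(34,0)]⟩⟩,⟨false,0,⟨0,[(0,0)]⟩,⟨2,[(3,1),(5,0),(8,1),(3,0),(0,0),(7,0),
  (0,1)]⟩⟩,⟨false,1,⟨7,[(3,3),(7,0),(0,0),(18,1),(0,3)]⟩,⟨0,[(30,0)]⟩⟩,⟨true,0,⟨0,[(17,0)]⟩,⟨0,[(9,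
  0),(12,0),(0,0),(5,0)]⟩⟩,[]⟩))) (.I [0,0,1,1,0,0,0,0,-1] (.Q [0,0,0,0,0,0,-1,0,0,0,1] (.p true [0,
  0,1] [] (⟨0,[(22,0)]⟩,⟨0,[(21,0)]⟩) .k 0 (⟨0,[]⟩,⟨0,[]⟩) .k .k) (.Q [0,0,0,1,0,0,-1,-1,0,0,1] (.p
  true [0,0,1] [] (⟨0,[(23,0)]⟩,⟨0,[(22,0)]⟩) .k 0 (⟨0,[]⟩,⟨0,[]⟩) .k .k) (.R ⟨0,false,false,false,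
  [1,0,-1],[1,-1],[1,1],(⟨0,[(23,0)]⟩,⟨0,[(24,0)]⟩),(⟨0,[(26,0)]⟩,⟨0,[(27,0)]⟩),⟨0,[(6,0)]⟩,.k,.k,
  .k,.k,.k,.k,⟨false,0,⟨0,[(30,0)]⟩,⟨1,[(31,1),(0,0),(0,0)]⟩⟩,⟨true,0,⟨0,[(20,0)]⟩,⟨0,[(1,0)]⟩⟩,
  ⟨true,0,⟨0,[(1,0),(16,0)]⟩,⟨0,[(22,0)]⟩⟩,⟨false,1,⟨0,[(18,0),(12,0),(1,0)]⟩,⟨0,[(0,0)]⟩⟩,⟨false,0,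
  ⟨0,[]⟩,⟨0,[]⟩⟩,⟨false,0,⟨0,[]⟩,⟨0,[]⟩⟩,[.o ⟨false,0,⟨1,[(5,0),(12,0),(12,0)]⟩,⟨7,[(4,3),(7,2),(0,
  2),(18,1)]⟩⟩,.o ⟨false,1,⟨1,[(25,0),(5,1),(1,0)]⟩,⟨0,[(30,0)]⟩⟩,.a ⟨true,0,⟨0,[(1,0)]⟩,⟨1,[(11,0),
  (11,0),(0,0)]⟩⟩ ⟨false,0,⟨0,[]⟩,⟨3,[(12,0),(0,0),(19,1)]⟩⟩ ⟨true,0,⟨3,[(5,0),(5,1),(6,0),(12,2)]⟩,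
  ⟨1,[(0,0),(0,0),(6,0),(19,0)]⟩⟩,.o ⟨false,0,⟨0,[(17,0)]⟩,⟨7,[(11,3),(0,0),(0,0),(11,1),(6,
  3)]⟩⟩]⟩) (.R ⟨2,true,false,false,[0,1],[0,0,1],[1,1,1,1],(⟨0,[]⟩,⟨0,[]⟩),(⟨0,[(24,0)]⟩,⟨0,[(23,
  0)]⟩),⟨0,[]⟩,.k,.k,.k,.k,.k,.k,⟨false,0,⟨0,[(22,0),(7,0)]⟩,⟨1,[(0,1),(0,1),(30,0),(0,0)]⟩⟩,⟨true,
  0,⟨0,[(20,0)]⟩,⟨0,[(1,0)]⟩⟩,⟨false,0,⟨0,[]⟩,⟨3,[(12,0),(0,0),(19,1)]⟩⟩,⟨true,0,⟨0,[(0,0)]⟩,⟨0,[(1,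
  0),(20,0),(7,0)]⟩⟩,⟨true,0,⟨0,[(30,0)]⟩,⟨0,[(31,0)]⟩⟩,⟨false,1,⟨0,[(18,0),(14,0)]⟩,⟨0,[(1,0),(20,
  0)]⟩⟩,[]⟩)) (.Q [0,1,0,0,0,0,0,0,1,0,0,-1] (.p false [0,0,0,1] [] (⟨0,[(14,0)]⟩,⟨1,[(13,0),(8,0),
  (0,0)]⟩) .k 0 (⟨0,[]⟩,⟨0,[]⟩) .k .k) (.Q [0,1,0,0,0,0,0,0,-1,0,0,1] (.p true [0,0,0,1] [] (⟨0,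
  [(15,0)]⟩,⟨1,[(14,0),(8,0),(0,0)]⟩) .k 0 (⟨0,[]⟩,⟨0,[]⟩) .k .k) (.I [0,0,1,1,0,0,0,0,1] (.K ⟨2,[0,
  0,0,1],0,0,(⟨0,[(17,0)]⟩,⟨1,[(16,0),(8,0),(0,0)]⟩),.k,(.r (-1) ⟨1,[(15,0),(17,1),(0,0)]⟩ ⟨0,[(4,
  0)]⟩),(.r 0 ⟨0,[(0,0)]⟩ ⟨1,[(14,0),(18,1),(0,0)]⟩),.k,.k,[⟨0,[(3,0),(13,0)]⟩,⟨1,[(13,0),(2,0)]⟩,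
  ⟨1,[(17,1),(4,0),(0,0)]⟩,⟨1,[(16,0),(2,0),(2,0)]⟩,⟨0,[(1,0)]⟩,⟨0,[(2,0)]⟩]⟩) (.K ⟨2,[0,0,0,1],0,0,
  (⟨0,[(17,0)]⟩,⟨1,[(16,0),(8,0),(0,0)]⟩),.k,(.r (-1) ⟨0,[(0,0),(14,0)]⟩ ⟨0,[(4,0)]⟩),(.x (-1) ⟨3,
  [(14,0),(0,0),(13,3),(4,1)]⟩ ⟨6,[(6,0),(0,1),(11,2),(0,1),(1,2),(5,6)]⟩),.k,.k,[⟨0,[(3,0),(13,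
  0)]⟩,⟨1,[(13,0),(2,0)]⟩,⟨1,[(17,1),(4,0),(0,0)]⟩,⟨1,[(16,0),(2,0),(2,0)]⟩,⟨0,[(1,0)]⟩,⟨0,[(2,
  0)]⟩]⟩)) (.Q [0,0,0,0,0,1,0,0,0,0,0,-1] (.p false [0,0,0,1] [] (⟨0,[(16,0)]⟩,⟨1,[(15,0),(8,0),(0,
  0)]⟩) .k 0 (⟨0,[]⟩,⟨0,[]⟩) .k .k) (.R ⟨0,false,false,false,[0,0,0,1],[1,0,-1],[1,0,1],(⟨0,[(17,
  0)]⟩,⟨1,[(16,0),(8,0),(0,0)]⟩),(⟨0,[(25,0)]⟩,⟨0,[(26,0)]⟩),⟨0,[(0,0)]⟩,.k,.k,(.r (-1) ⟨1,[(15,0),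
  (17,1),(0,0)]⟩ ⟨0,[(4,0)]⟩),.k,.k,.k,⟨true,0,⟨0,[(11,0)]⟩,⟨0,[(24,0)]⟩⟩,⟨false,1,⟨0,[(17,0),(1,0),
  (14,0)]⟩,⟨1,[(13,0),(2,0)]⟩⟩,⟨true,0,⟨0,[(4,0),(28,0)]⟩,⟨0,[(1,0),(15,0),(12,0)]⟩⟩,⟨false,1,⟨5,
  [(6,1),(5,3),(1,2),(2,5),(0,1),(15,0),(0,1)]⟩,⟨0,[(1,0),(18,0),(4,0),(0,0)]⟩⟩,⟨false,0,⟨0,[]⟩,⟨0,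
  []⟩⟩,⟨false,0,⟨0,[]⟩,⟨0,[]⟩⟩,[.o ⟨false,0,⟨0,[(12,0),(19,0)]⟩,⟨3,[(14,0),(0,0),(4,3),(14,1)]⟩⟩,.o
  ⟨false,1,⟨0,[(18,0),(16,0)]⟩,⟨0,[(20,0)]⟩⟩,.a ⟨true,0,⟨1,[(16,0),(8,0),(0,0)]⟩,⟨0,[(17,0)]⟩⟩
  ⟨false,0,⟨0,[(31,0)]⟩,⟨3,[(14,0),(0,0),(18,1)]⟩⟩ ⟨true,0,⟨0,[(12,0),(4,0),(14,0)]⟩,⟨1,[(16,0),(3,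
  1),(4,0),(0,0)]⟩⟩,.o ⟨false,0,⟨1,[(16,0),(2,0),(2,0)]⟩,⟨1,[(17,1),(9,0),(6,0)]⟩⟩]⟩) (.R ⟨1,false,
  false,false,[0,0,0,1],[1,0,-1],[1,1,0,0,0,0,0,0,1],(⟨0,[(17,0)]⟩,⟨1,[(16,0),(8,0),(0,0)]⟩),(⟨0,
  [(25,0)]⟩,⟨0,[(26,0)]⟩),⟨0,[(0,0)]⟩,.k,.k,(.r (-1) ⟨1,[(15,0),(17,1),(0,0)]⟩ ⟨0,[(4,0)]⟩),.k,(.r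
  (-1) ⟨1,[(1,0),(3,0),(5,0),(5,0),(15,2),(0,1)]⟩ ⟨0,[(4,0),(19,0)]⟩),.k,⟨true,0,⟨0,[(1,0),(9,0),(5,
  0),(12,0)]⟩,⟨1,[(4,1),(7,1),(0,0),(11,0),(0,0)]⟩⟩,⟨false,1,⟨0,[(17,0),(1,0),(14,0)]⟩,⟨1,[(13,0),
  (2,0)]⟩⟩,⟨false,0,⟨0,[]⟩,⟨3,[(14,0),(0,0),(19,1)]⟩⟩,⟨false,1,⟨5,[(6,1),(5,3),(1,2),(2,5),(0,1),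
  (15,0),(0,1)]⟩,⟨0,[(1,0),(18,0),(4,0),(0,0)]⟩⟩,⟨true,0,⟨0,[(32,0)]⟩,⟨0,[(33,0)]⟩⟩,⟨false,1,⟨1,[(6,
  1),(5,1),(1,0),(2,1),(16,0)]⟩,⟨0,[(1,0),(18,0),(4,0),(0,0),(6,0)]⟩⟩,[.o ⟨false,0,⟨0,[(12,0),(19,
  0)]⟩,⟨3,[(14,0),(0,0),(4,3),(14,1)]⟩⟩,.o ⟨false,1,⟨0,[(18,0),(16,0)]⟩,⟨0,[(20,0)]⟩⟩,.a ⟨true,0,⟨1,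
  [(16,0),(8,0),(0,0)]⟩,⟨0,[(17,0)]⟩⟩ ⟨false,0,⟨1,[(1,0),(0,0),(14,1)]⟩,⟨1,[(14,0),(20,0)]⟩⟩ ⟨true,
  0,⟨0,[(12,0),(4,0),(14,0)]⟩,⟨1,[(16,0),(3,1),(4,0),(0,0)]⟩⟩,.o ⟨false,0,⟨1,[(16,0),(2,0),(2,0)]⟩,
  ⟨1,[(17,1),(9,0),(6,0)]⟩⟩]⟩))) (.I [0,0,0,1,0,0,0,0,-1] (.Q [0,0,0,0,0,1,0,0,0,0,0,-1] (.p false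
  [0,0,0,1] [] (⟨0,[(16,0)]⟩,⟨1,[(15,0),(8,0),(0,0)]⟩) .k 0 (⟨0,[]⟩,⟨0,[]⟩) .k .k) (.I [1,1,0,1,0,0,
  0,1,-1] (.R ⟨0,false,false,true,[0,0,0,1],[0,0,1],[0,0,0,-1,0,0,0,0,1],(⟨0,[(18,0)]⟩,⟨1,[(17,0),
  (8,0),(0,0)]⟩),(⟨0,[(27,0)]⟩,⟨0,[(26,0)]⟩),⟨0,[(1,0)]⟩,.k,.k,(.r (-1) ⟨1,[(16,0),(17,1),(0,0)]⟩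
  ⟨0,[(5,0)]⟩),.k,.k,.k,⟨false,1,⟨1,[(13,1),(0,0),(1,0),(9,0),(0,0),(7,0)]⟩,⟨0,[(0,0)]⟩⟩,⟨true,0,⟨0,
  [(4,0),(13,0)]⟩,⟨1,[(17,0),(2,0),(3,0)]⟩⟩,⟨true,0,⟨0,[(34,0)]⟩,⟨0,[(33,0)]⟩⟩,⟨false,0,⟨0,[(3,0),
  (17,0)]⟩,⟨5,[(7,1),(5,3),(2,2),(0,2),(4,1),(3,0),(0,0),(7,0),(0,1)]⟩⟩,⟨false,0,⟨0,[]⟩,⟨0,[]⟩⟩,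
  ⟨false,0,⟨0,[]⟩,⟨0,[]⟩⟩,[.o ⟨false,0,⟨0,[(21,0)]⟩,⟨0,[(19,0),(16,0)]⟩⟩,.o ⟨false,1,⟨3,[(15,0),(0,
  0),(4,3),(14,1)]⟩,⟨0,[(13,0),(19,0)]⟩⟩,.a ⟨true,0,⟨1,[(17,0),(8,0),(0,0)]⟩,⟨0,[(18,0)]⟩⟩ ⟨false,1,
  ⟨1,[(16,0),(17,1),(1,0)]⟩,⟨0,[(2,0)]⟩⟩ ⟨true,0,⟨0,[(18,0),(2,0)]⟩,⟨1,[(13,1),(3,0),(8,0),(0,0),(5,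
  1)]⟩⟩,.o ⟨false,0,⟨1,[(17,0),(2,0),(2,0)]⟩,⟨1,[(18,1),(9,0),(6,0)]⟩⟩]⟩) (.R ⟨2,true,false,true,[0,
  1],[0,0,0,1],[1,1,1,1],(⟨0,[]⟩,⟨0,[]⟩),(⟨0,[(18,0)]⟩,⟨1,[(17,0),(8,0),(0,0)]⟩),⟨0,[]⟩,.k,.k,.k,
  (.r 0 ⟨0,[(5,0)]⟩ ⟨1,[(16,0),(17,1),(0,0)]⟩),.k,.k,⟨false,0,⟨0,[(2,0)]⟩,⟨1,[(16,0),(17,1),(0,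
  0)]⟩⟩,⟨true,0,⟨1,[(17,0),(2,0),(2,0)]⟩,⟨0,[(18,0)]⟩⟩,⟨false,0,⟨0,[]⟩,⟨3,[(15,0),(0,0),(19,1)]⟩⟩,
  ⟨true,0,⟨3,[(0,1),(5,1),(1,0),(8,1),(3,0),(9,1),(2,2)]⟩,⟨0,[(3,0),(29,0)]⟩⟩,⟨true,0,⟨0,[(33,0)]⟩,
  ⟨0,[(34,0)]⟩⟩,⟨false,1,⟨7,[(15,0),(0,4),(0,3),(10,1)]⟩,⟨0,[(3,0)]⟩⟩,[]⟩)) (.R ⟨1,false,false,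
  false,[1,0,0,-1],[1,-1],[0,0,0,-1,0,0,0,0,-1],(⟨1,[(16,0),(8,0),(0,0)]⟩,⟨0,[(17,0)]⟩),(⟨0,[(28,
  0)]⟩,⟨0,[(29,0)]⟩),⟨0,[(0,0),(15,0)]⟩,.k,.k,(.x 0 ⟨1,[(0,1),(15,0),(2,0),(2,0)]⟩ ⟨3,[(14,0),(0,0),
  (13,3),(4,1)]⟩),(.r 0 ⟨0,[(4,0)]⟩ ⟨1,[(15,0),(17,1),(0,0)]⟩),.k,.k,⟨false,0,⟨0,[(1,0),(31,0)]⟩,⟨1,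
  [(15,0),(18,0)]⟩⟩,⟨true,0,⟨1,[(16,0),(2,0),(2,0)]⟩,⟨0,[(17,0)]⟩⟩,⟨true,0,⟨0,[(33,0)]⟩,⟨0,[(32,
  0)]⟩⟩,⟨false,1,⟨3,[(7,0),(7,1),(0,1),(3,0),(12,2),(1,1)]⟩,⟨0,[(2,0),(29,0)]⟩⟩,⟨false,1,⟨3,[(14,0),
  (0,0),(19,1)]⟩,⟨0,[]⟩⟩,⟨false,1,⟨7,[(3,1),(3,1),(2,1),(4,3),(0,3),(17,0),(0,2)]⟩,⟨0,[(2,0),(34,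
  0)]⟩⟩,[.o ⟨false,0,⟨1,[(7,0),(12,0),(12,0)]⟩,⟨7,[(6,3),(7,2),(0,2),(18,1)]⟩⟩,.o ⟨false,1,⟨1,[(27,
  0),(5,1),(1,0)]⟩,⟨0,[(32,0)]⟩⟩,.a ⟨true,0,⟨0,[(17,0)]⟩,⟨1,[(16,0),(8,0),(0,0)]⟩⟩ ⟨false,0,⟨3,[(2,
  3),(4,0),(8,1),(3,0),(12,2)]⟩,⟨7,[(6,3),(7,0),(0,4),(18,1)]⟩⟩ ⟨true,0,⟨3,[(7,0),(8,1),(3,0),(12,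
  2)]⟩,⟨0,[(17,0),(14,0)]⟩⟩,.o ⟨false,0,⟨6,[(6,0),(0,1),(9,6),(1,2),(0,1),(1,2)]⟩,⟨7,[(14,0),(0,0),
  (0,3),(10,1),(6,3)]⟩⟩]⟩)) (.K ⟨1,[1,0,0,-1],0,0,(⟨1,[(15,0),(8,0),(0,0)]⟩,⟨0,[(16,0)]⟩),.k,(.x 0
  ⟨6,[(5,0),(0,1),(11,2),(0,1),(1,2),(5,6)]⟩ ⟨3,[(13,0),(0,0),(13,3),(4,1)]⟩),(.r 0 ⟨0,[(3,0)]⟩ ⟨1,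
  [(14,0),(17,1),(0,0)]⟩),.k,.k,[⟨1,[(12,0),(2,0),(6,1)]⟩,⟨6,[(5,0),(0,1),(9,6),(1,2),(0,1),(1,2)]⟩,
  ⟨1,[(0,1),(14,0),(8,0),(0,0),(5,1)]⟩,⟨0,[(1,0)]⟩]⟩)))) (.Q [0,0,0,0,0,1,0,0,0,0,0,-1] (.p false
  [0,0,0,1] [] (⟨0,[(13,0)]⟩,⟨1,[(12,0),(8,0),(0,0)]⟩) .k 0 (⟨0,[]⟩,⟨0,[]⟩) .k .k) (.R ⟨0,false,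
  false,false,[0,0,0,1],[1,-1],[0,0,0,-1,0,0,0,0,1],(⟨0,[(14,0)]⟩,⟨1,[(13,0),(8,0),(0,0)]⟩),(⟨0,
  [(25,0)]⟩,⟨0,[(26,0)]⟩),⟨0,[(0,0)]⟩,.k,.k,(.x 0 ⟨6,[(3,0),(0,1),(11,2),(0,1),(1,2),(5,6)]⟩ ⟨3,
  [(11,0),(0,0),(13,3),(4,1)]⟩),(.r 0 ⟨1,[(1,0),(0,0),(0,0),(17,0),(6,0)]⟩ ⟨1,[(11,0),(18,1),(0,
  0)]⟩),.k,.k,⟨false,0,⟨3,[(1,2),(0,0),(0,0),(17,0),(6,0)]⟩,⟨1,[(11,0),(19,0)]⟩⟩,⟨true,0,⟨6,[(3,0),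
  (0,1),(9,6),(1,2),(0,1),(1,2)]⟩,⟨1,[(13,0),(8,0),(0,0)]⟩⟩,⟨true,0,⟨0,[(30,0)]⟩,⟨0,[(29,0)]⟩⟩,
  ⟨false,1,⟨1,[(4,0),(6,0),(2,1),(2,0),(12,0),(1,0)]⟩,⟨1,[(1,1),(1,1),(9,0),(8,0),(0,0)]⟩⟩,⟨false,0,
  ⟨0,[]⟩,⟨0,[]⟩⟩,⟨false,0,⟨0,[]⟩,⟨0,[]⟩⟩,[.o ⟨false,0,⟨1,[(4,0),(12,0),(12,0)]⟩,⟨7,[(3,3),(7,2),(0,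
  2),(18,1)]⟩⟩,.o ⟨false,1,⟨1,[(24,0),(5,1),(1,0)]⟩,⟨0,[(29,0)]⟩⟩,.a ⟨true,0,⟨1,[(13,0),(8,0),(0,
  0)]⟩,⟨0,[(14,0)]⟩⟩ ⟨false,0,⟨1,[(1,1),(2,1),(1,1),(3,0),(14,2),(0,2)]⟩,⟨7,[(3,3),(7,4),(0,0),(18,
  1)]⟩⟩ ⟨true,0,⟨1,[(4,0),(9,1),(2,0),(12,0)]⟩,⟨1,[(13,0),(8,0),(0,0),(5,1)]⟩⟩,.o ⟨false,0,⟨1,[(13,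
  0),(2,0),(2,0)]⟩,⟨1,[(14,1),(9,0),(6,0)]⟩⟩]⟩) (.R ⟨1,false,false,false,[0,0,0,1],[1,-1],[0,0,0,-1,
  0,0,0,0,1],(⟨0,[(14,0)]⟩,⟨1,[(13,0),(8,0),(0,0)]⟩),(⟨0,[(25,0)]⟩,⟨0,[(26,0)]⟩),⟨0,[(0,0)]⟩,.k,.k,
  (.x 0 ⟨1,[(0,1),(12,0),(2,0),(2,0)]⟩ ⟨3,[(11,0),(0,0),(13,3),(4,1)]⟩),(.r 0 ⟨1,[(1,0),(0,0),(0,0),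
  (17,0),(6,0)]⟩ ⟨1,[(11,0),(18,1),(0,0)]⟩),.k,.k,⟨false,0,⟨3,[(1,2),(0,0),(0,0),(17,0),(6,0)]⟩,⟨1,
  [(11,0),(19,0)]⟩⟩,⟨true,0,⟨6,[(3,0),(0,1),(9,6),(1,2),(0,1),(1,2)]⟩,⟨1,[(13,0),(8,0),(0,0)]⟩⟩,
  ⟨true,0,⟨0,[(30,0)]⟩,⟨0,[(29,0)]⟩⟩,⟨false,1,⟨1,[(4,0),(6,0),(2,1),(2,0),(12,0),(1,0)]⟩,⟨1,[(1,1),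
  (1,1),(9,0),(8,0),(0,0)]⟩⟩,⟨false,1,⟨3,[(11,0),(0,0),(19,1)]⟩,⟨0,[]⟩⟩,⟨false,1,⟨5,[(4,3),(2,3),(2,
  1),(0,2),(2,5),(16,1),(0,0)]⟩,⟨3,[(1,2),(0,0),(0,0),(9,1),(7,0),(0,1),(0,1),(4,0)]⟩⟩,[.o ⟨false,0,
  ⟨1,[(4,0),(12,0),(12,0)]⟩,⟨7,[(3,3),(7,2),(0,2),(18,1)]⟩⟩,.o ⟨false,1,⟨1,[(24,0),(5,1),(1,0)]⟩,⟨0,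
  [(29,0)]⟩⟩,.a ⟨true,0,⟨1,[(13,0),(8,0),(0,0)]⟩,⟨0,[(14,0)]⟩⟩ ⟨false,0,⟨1,[(0,5),(0,1),(2,1),(1,1),
  (3,0),(2,2),(12,5)]⟩,⟨7,[(3,3),(7,4),(0,0),(18,1)]⟩⟩ ⟨true,0,⟨1,[(4,0),(9,1),(2,0),(12,0)]⟩,⟨1,
  [(13,0),(8,0),(0,0),(5,1)]⟩⟩,.o ⟨false,0,⟨1,[(13,0),(2,0),(2,0)]⟩,⟨1,[(14,1),(9,0),(6,
  0)]⟩⟩]⟩)))))) (.Q [0,0,0,0,0,0,-1,0,0,0,1] (.p true [0,0,1] [] (⟨0,[(18,0)]⟩,⟨0,[(17,0)]⟩) .k 0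
  (⟨0,[]⟩,⟨0,[]⟩) .k .k) (.R ⟨2,true,false,true,[0,1],[0,1,1],[0,1,1],(⟨0,[]⟩,⟨0,[]⟩),(⟨0,[(19,0),
  (2,0)]⟩,⟨0,[(1,0)]⟩),⟨0,[]⟩,.k,.k,.k,.k,.k,.k,⟨true,0,⟨1,[(5,0),(0,0),(7,0),(11,0)]⟩,⟨0,[(3,0)]⟩⟩,
  ⟨false,1,⟨7,[(6,3),(0,0),(0,0),(11,1),(6,3)]⟩,⟨0,[(0,0)]⟩⟩,⟨false,0,⟨0,[(26,0)]⟩,⟨0,[(25,0),(2,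
  0)]⟩⟩,⟨true,0,⟨0,[(13,0)]⟩,⟨0,[(0,0),(16,0)]⟩⟩,⟨true,0,⟨0,[(30,0)]⟩,⟨0,[]⟩⟩,⟨false,1,⟨7,[(3,7),(2,
  3),(0,0),(0,0),(11,1),(6,3)]⟩,⟨0,[(5,0),(12,0),(0,0)]⟩⟩,[]⟩) (.Q [0,1,0,0,0,0,2,2,0,1,-2] (.p
  false [0,0,1] [1,0,-1] (⟨0,[(19,0)]⟩,⟨0,[(18,0)]⟩) .k 2 (⟨0,[(18,0)]⟩,⟨0,[(19,0)]⟩) .k (.r (-1)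
  ⟨0,[(4,1),(22,0)]⟩ ⟨0,[(17,1)]⟩)) (.I [0,1,-1,-1] (.R ⟨2,true,false,true,[0,1],[0,0,1],[0,1],(⟨0,
  []⟩,⟨0,[]⟩),(⟨0,[(21,0)]⟩,⟨0,[(20,0)]⟩),⟨0,[]⟩,.k,.k,.k,.k,.k,.k,⟨true,0,⟨0,[(19,0)]⟩,⟨0,[(6,
  0)]⟩⟩,⟨false,0,⟨0,[(2,0)]⟩,⟨0,[(18,0),(10,0)]⟩⟩,⟨true,0,⟨0,[(0,0)]⟩,⟨0,[(26,0),(0,0)]⟩⟩,⟨false,0,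
  ⟨0,[(1,0),(5,0)]⟩,⟨0,[(7,0),(12,0),(0,0),(5,1),(2,0)]⟩⟩,⟨false,1,⟨3,[(9,0),(0,0),(18,1)]⟩,⟨0,[(26,
  0)]⟩⟩,⟨true,0,⟨0,[(15,0)]⟩,⟨0,[(7,0),(12,0),(0,0),(5,0)]⟩⟩,[]⟩) (.R ⟨2,true,false,true,[0,1],[0,0,
  1],[1,0,1,1],(⟨0,[]⟩,⟨0,[]⟩),(⟨0,[(21,0)]⟩,⟨0,[(20,0)]⟩),⟨0,[]⟩,.k,.k,.k,.k,.k,.k,⟨true,0,⟨0,[(0,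
  0),(18,0)]⟩,⟨0,[(1,0),(3,0),(1,1),(12,0),(0,0),(3,0)]⟩⟩,⟨false,0,⟨0,[(2,0)]⟩,⟨0,[(18,0),(10,0)]⟩⟩,
  ⟨true,0,⟨0,[]⟩,⟨0,[(32,0)]⟩⟩,⟨false,0,⟨0,[(1,0),(5,0)]⟩,⟨1,[(0,1),(15,1),(12,0),(0,0)]⟩⟩,⟨false,1,
  ⟨0,[(27,0),(2,0)]⟩,⟨0,[(28,0)]⟩⟩,⟨true,0,⟨0,[(15,0)]⟩,⟨0,[(7,0),(12,0),(0,0),(5,0)]⟩⟩,[]⟩)) (.Q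
  [0,0,0,0,0,1,0,0,0,0,-1] (.ed true [1,-1,1] .k) (.Q [0,0,0,0,0,0,-1,0,0,1,1] (.p true [1,-1,1] []
  (⟨0,[(21,0),(1,0)]⟩,⟨0,[(0,0)]⟩) .k 0 (⟨0,[]⟩,⟨0,[]⟩) .k .k) (.R ⟨0,false,false,true,[0,1,-1],[0,
  1],[0,1],(⟨0,[(1,0)]⟩,⟨0,[(22,0),(1,0)]⟩),(⟨0,[(25,0)]⟩,⟨0,[(24,0)]⟩),⟨0,[(22,0)]⟩,.k,.k,.k,.k,.k,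
  .k,⟨false,1,⟨0,[(29,0),(0,0)]⟩,⟨8,[(0,0),(1,2),(3,5),(2,1),(8,2),(9,2)]⟩⟩,⟨true,0,⟨0,[(3,0)]⟩,⟨0,
  [(19,0)]⟩⟩,⟨false,1,⟨0,[(7,0),(21,0),(0,0)]⟩,⟨0,[(2,0),(3,0),(2,0)]⟩⟩,⟨true,0,⟨0,[(16,0)]⟩,⟨8,[(0,
  1),(1,2),(6,0),(7,2)]⟩⟩,⟨false,0,⟨0,[]⟩,⟨0,[]⟩⟩,⟨false,0,⟨0,[]⟩,⟨0,[]⟩⟩,[.o ⟨false,0,⟨0,[(28,0)]⟩,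
  ⟨1,[(23,0),(5,1),(1,0)]⟩⟩,.o ⟨false,1,⟨3,[(10,0),(0,0),(16,3),(2,1)]⟩,⟨0,[(8,0),(7,0)]⟩⟩,.o
  ⟨false,1,⟨1,[(0,1),(22,0),(6,0)]⟩,⟨0,[(3,1),(11,0)]⟩⟩,.a ⟨true,0,⟨0,[(0,0)]⟩,⟨0,[(3,0)]⟩⟩ ⟨false,
  1,⟨3,[(10,0),(0,0),(18,1)]⟩,⟨0,[(27,0)]⟩⟩ ⟨true,0,⟨0,[(3,0),(24,0)]⟩,⟨0,[(0,0),(7,0),(7,0)]⟩⟩]⟩)
  (.I [0,0,-1,-1,0,0,0,0,1] (.Q [0,0,0,1,0,0,-1,-1,0,0,1] (.p true [0,0,1] [] (⟨0,[(23,0)]⟩,⟨0,[(22,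
  0)]⟩) .k 0 (⟨0,[]⟩,⟨0,[]⟩) .k .k) (.Q [0,0,0,1,0,0,1,1,1,1,-1,-1] (.p false [0,0,1] [1,0,0,-1]
  (⟨0,[(24,0)]⟩,⟨0,[(23,0)]⟩) .k 2 (⟨1,[(14,0),(8,0),(0,0)]⟩,⟨0,[(15,0)]⟩) .k (.r 0 ⟨0,[(1,0),(6,
  0)]⟩ ⟨3,[(12,2),(0,0),(8,3)]⟩)) (.Q [0,0,0,0,0,1,0,0,0,0,0,-1] (.p false [0,0,0,1] [] (⟨0,[(16,
  0)]⟩,⟨1,[(15,0),(8,0),(0,0)]⟩) .k 0 (⟨0,[]⟩,⟨0,[]⟩) .k .k) (.R ⟨0,false,false,false,[0,0,0,1],[1,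
  -1],[1,0,0,0,0,0,0,0,1],(⟨0,[(17,0)]⟩,⟨1,[(16,0),(8,0),(0,0)]⟩),(⟨0,[(28,0)]⟩,⟨0,[(29,0)]⟩),⟨0,
  [(0,0)]⟩,.k,.k,(.r 0 ⟨0,[(3,0)]⟩ ⟨3,[(2,1),(7,1),(3,2),(0,0),(6,1)]⟩),(.r 0 ⟨2,[(1,1),(0,1),(0,0),
  (13,1),(1,1),(2,1)]⟩ ⟨1,[(14,0),(18,1),(0,0)]⟩),.k,.k,⟨false,0,⟨3,[(1,2),(0,0),(0,0),(0,0),(1,0),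
  (3,0),(6,2),(0,0)]⟩,⟨1,[(14,0),(18,1),(0,0)]⟩⟩,⟨true,0,⟨2,[(4,0),(12,2),(1,1),(2,0)]⟩,⟨1,[(16,0),
  (8,0),(0,0)]⟩⟩,⟨true,0,⟨0,[]⟩,⟨0,[(37,0)]⟩⟩,⟨false,1,⟨1,[(12,1),(1,0),(2,1),(2,1),(14,0)]⟩,⟨5,[(1,
  3),(0,3),(0,1),(9,0),(2,0),(6,1)]⟩⟩,⟨false,0,⟨0,[]⟩,⟨0,[]⟩⟩,⟨false,0,⟨0,[]⟩,⟨0,[]⟩⟩,[.o ⟨false,0,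
  ⟨0,[(12,0),(7,0)]⟩,⟨3,[(14,0),(0,0),(16,3),(2,1)]⟩⟩,.o ⟨false,1,⟨1,[(27,0),(5,1),(1,0)]⟩,⟨0,[(32,
  0)]⟩⟩,.a ⟨true,0,⟨1,[(16,0),(8,0),(0,0)]⟩,⟨0,[(17,0)]⟩⟩ ⟨false,0,⟨0,[(1,0),(10,0),(4,0)]⟩,⟨3,[(14,
  2),(0,0)]⟩⟩ ⟨true,0,⟨0,[(12,0),(4,0),(2,0)]⟩,⟨1,[(16,0),(8,0),(0,0),(5,1)]⟩⟩,.o ⟨false,0,⟨1,[(16,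
  0),(2,0),(2,0)]⟩,⟨1,[(17,1),(9,0),(6,0)]⟩⟩]⟩) (.R ⟨1,false,false,false,[0,0,0,1],[1,-1],[1,0,0,0,
  0,0,0,0,1],(⟨0,[(17,0)]⟩,⟨1,[(16,0),(8,0),(0,0)]⟩),(⟨0,[(28,0)]⟩,⟨0,[(29,0)]⟩),⟨0,[(0,0)]⟩,.k,.k,
  (.r 0 ⟨0,[(3,0)]⟩ ⟨3,[(2,1),(7,1),(3,2),(0,0),(6,1)]⟩),(.r 0 ⟨2,[(1,1),(0,1),(0,0),(13,1),(1,1),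
  (2,1)]⟩ ⟨1,[(14,0),(18,1),(0,0)]⟩),.k,.k,⟨false,0,⟨3,[(1,2),(0,0),(0,0),(0,0),(1,0),(3,0),(6,2),
  (0,0)]⟩,⟨1,[(14,0),(18,1),(0,0)]⟩⟩,⟨true,0,⟨2,[(4,0),(12,2),(1,1),(2,0)]⟩,⟨1,[(16,0),(8,0),(0,
  0)]⟩⟩,⟨true,0,⟨0,[]⟩,⟨0,[(37,0)]⟩⟩,⟨false,1,⟨1,[(12,1),(1,0),(2,1),(2,1),(14,0)]⟩,⟨5,[(1,3),(0,3),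
  (0,1),(9,0),(2,0),(6,1)]⟩⟩,⟨false,1,⟨0,[(32,0),(2,0)]⟩,⟨0,[(33,0)]⟩⟩,⟨false,1,⟨3,[(4,1),(5,1),(1,
  1),(1,1),(2,3),(16,0),(0,0)]⟩,⟨2,[(1,0),(0,0),(0,1),(9,0),(2,0),(6,1)]⟩⟩,[.o ⟨false,0,⟨0,[(12,0),
  (7,0)]⟩,⟨3,[(14,0),(0,0),(16,3),(2,1)]⟩⟩,.o ⟨false,1,⟨1,[(27,0),(5,1),(1,0)]⟩,⟨0,[(32,0)]⟩⟩,.a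
  ⟨true,0,⟨1,[(16,0),(8,0),(0,0)]⟩,⟨0,[(17,0)]⟩⟩ ⟨false,0,⟨0,[(1,0),(10,0),(4,0)]⟩,⟨3,[(14,2),(0,
  0)]⟩⟩ ⟨true,0,⟨0,[(12,0),(4,0),(2,0)]⟩,⟨1,[(16,0),(8,0),(0,0),(5,1)]⟩⟩,.o ⟨false,0,⟨1,[(16,0),(2,
  0),(2,0)]⟩,⟨1,[(17,1),(9,0),(6,0)]⟩⟩]⟩)) (.R ⟨1,true,false,true,[1,0,-1],[0,0,0,1],[0,0,0,-1,0,0,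
  0,-1],(⟨0,[(24,0)]⟩,⟨0,[(25,0)]⟩),(⟨0,[(16,0)]⟩,⟨1,[(15,0),(8,0),(0,0)]⟩),⟨0,[(7,0)]⟩,.k,.k,.k,.k,
  (.r (-1) ⟨1,[(11,0),(0,0),(0,0),(6,0),(11,0),(0,0)]⟩ ⟨1,[(1,0),(0,1),(6,2),(11,0)]⟩),.k,⟨false,1,
  ⟨1,[(0,1),(11,0),(2,0),(17,0),(0,0)]⟩,⟨0,[(2,0),(6,0),(21,0)]⟩⟩,⟨true,0,⟨1,[(12,0),(2,0)]⟩,⟨0,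
  [(16,0),(1,0)]⟩⟩,⟨true,0,⟨0,[(32,0)]⟩,⟨0,[(31,0)]⟩⟩,⟨false,0,⟨1,[(2,1),(6,1),(2,0),(2,0)]⟩,⟨3,[(0,
  1),(0,1),(11,0),(2,1),(9,0),(7,1)]⟩⟩,⟨false,1,⟨3,[(13,0),(0,0),(19,1)]⟩,⟨0,[]⟩⟩,⟨true,0,⟨1,[(2,1),
  (6,1),(2,0),(2,0),(15,1)]⟩,⟨0,[(0,0)]⟩⟩,[]⟩)) (.R ⟨2,true,false,true,[0,1],[0,0,1],[1,0,1,1],(⟨0,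
  []⟩,⟨0,[]⟩),(⟨0,[(24,0)]⟩,⟨0,[(23,0)]⟩),⟨0,[]⟩,.k,.k,.k,.k,.k,.k,⟨true,0,⟨0,[(4,0),(3,0),(2,0)]⟩,
  ⟨0,[(0,0),(7,0),(1,0),(12,0),(0,0),(3,0)]⟩⟩,⟨false,0,⟨0,[(5,0)]⟩,⟨0,[(21,0),(10,0)]⟩⟩,⟨true,0,⟨0,
  []⟩,⟨0,[(35,0)]⟩⟩,⟨false,0,⟨0,[(0,0)]⟩,⟨2,[(4,0),(14,0),(3,0),(0,0),(5,2),(2,2)]⟩⟩,⟨false,1,⟨0,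
  [(30,0),(2,0)]⟩,⟨0,[(31,0)]⟩⟩,⟨true,0,⟨0,[(18,0)]⟩,⟨2,[(4,0),(14,0),(3,0),(0,0)]⟩⟩,[]⟩)) (.Q [0,0,
  0,-1,0,0,1,1,0,0,-1] (.p false [0,0,1] [] (⟨0,[(23,0)]⟩,⟨0,[(22,0)]⟩) .k 0 (⟨0,[]⟩,⟨0,[]⟩) .k .k)
  (.R ⟨2,true,false,true,[0,1],[0,0,1],[1,0,1,1],(⟨0,[]⟩,⟨0,[]⟩),(⟨0,[(24,0)]⟩,⟨0,[(23,0)]⟩),⟨0,[]⟩,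
  .k,.k,.k,.k,.k,.k,⟨true,0,⟨0,[(4,0),(3,0),(2,0)]⟩,⟨0,[(0,0),(7,0),(1,0),(12,0),(0,0),(3,0)]⟩⟩,
  ⟨false,0,⟨0,[(5,0)]⟩,⟨0,[(21,0),(10,0)]⟩⟩,⟨true,0,⟨0,[]⟩,⟨0,[(35,0)]⟩⟩,⟨false,0,⟨0,[(0,0)]⟩,⟨2,
  [(4,0),(14,0),(3,0),(0,0),(5,2),(2,2)]⟩⟩,⟨false,1,⟨0,[(30,0),(2,0)]⟩,⟨0,[(31,0)]⟩⟩,⟨true,0,⟨0,
  [(18,0)]⟩,⟨2,[(4,0),(14,0),(3,0),(0,0)]⟩⟩,[]⟩) (.Q [0,0,0,0,0,0,1,1,-1,0,-1,1] (.p false [0,0,1]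
  [0,0,0,1] (⟨0,[(24,0)]⟩,⟨0,[(23,0)]⟩) .k 2 (⟨0,[(15,0)]⟩,⟨1,[(14,0),(8,0),(0,0)]⟩) .k (.x 0 ⟨2,
  [(2,0),(8,0),(12,2)]⟩ ⟨1,[(21,1),(1,1),(1,0),(6,0)]⟩)) (.Q [0,0,0,0,0,-1,0,0,0,1,0,-1] (.p false
  [0,0,0,1] [1] (⟨0,[(16,0)]⟩,⟨1,[(15,0),(8,0),(0,0)]⟩) .k 1 (⟨0,[]⟩,⟨0,[]⟩) .k .k) (.R ⟨1,false,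
  false,false,[1,0,0,-1],[1,-1],[0,0,0,-1,0,0,0,0,-1],(⟨1,[(16,0),(8,0),(0,0)]⟩,⟨0,[(17,0)]⟩),(⟨0,
  [(28,0)]⟩,⟨0,[(29,0)]⟩),⟨0,[(0,0)]⟩,.k,.k,(.x 0 ⟨2,[(4,0),(14,1),(2,0),(5,2)]⟩ ⟨3,[(14,0),(0,0),
  (13,3),(4,1)]⟩),(.r 0 ⟨0,[(0,3),(0,0),(0,0),(1,1),(4,1),(2,1),(4,2),(11,3),(0,0)]⟩ ⟨1,[(15,0),(17,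
  1),(0,0)]⟩),.k,.k,⟨false,0,⟨6,[(1,5),(1,0),(2,1),(5,0),(3,2),(4,0),(8,0)]⟩,⟨1,[(15,0),(18,0)]⟩⟩,
  ⟨true,0,⟨1,[(16,0),(2,0),(2,0)]⟩,⟨0,[(17,0)]⟩⟩,⟨true,0,⟨0,[(33,0)]⟩,⟨0,[(32,0)]⟩⟩,⟨false,1,⟨1,
  [(12,0),(2,0),(0,0),(3,0),(12,0),(1,0)]⟩,⟨0,[(1,0),(0,0)]⟩⟩,⟨false,1,⟨3,[(14,0),(0,0),(19,1)]⟩,⟨0,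
  []⟩⟩,⟨false,1,⟨7,[(4,1),(5,1),(1,1),(2,3),(0,3),(17,0),(0,2)]⟩,⟨2,[(1,2),(4,0),(14,0),(3,0),(0,
  0)]⟩⟩,[.o ⟨false,0,⟨0,[(12,0),(7,0)]⟩,⟨3,[(14,0),(0,0),(16,3),(2,1)]⟩⟩,.o ⟨false,1,⟨1,[(27,0),(5,
  1),(1,0)]⟩,⟨0,[(32,0)]⟩⟩,.a ⟨true,0,⟨0,[(17,0)]⟩,⟨1,[(16,0),(8,0),(0,0)]⟩⟩ ⟨false,0,⟨1,[(1,1),(10,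
  1),(3,0),(8,0),(0,0)]⟩,⟨1,[(15,0),(16,1),(2,0)]⟩⟩ ⟨true,0,⟨1,[(12,0),(3,0),(3,0),(12,0)]⟩,⟨0,[(17,
  0),(14,0)]⟩⟩,.o ⟨false,0,⟨2,[(4,0),(12,2),(1,1),(2,0)]⟩,⟨7,[(14,0),(0,0),(0,3),(10,1),(6,3)]⟩⟩]⟩)
  (.R ⟨0,false,false,false,[1,0,0,-1],[1,-1],[0,0,0,-1,0,0,0,0,-1],(⟨1,[(16,0),(8,0),(0,0)]⟩,⟨0,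
  [(17,0)]⟩),(⟨0,[(28,0)]⟩,⟨0,[(29,0)]⟩),⟨0,[(0,0)]⟩,.k,.k,(.x 0 ⟨2,[(4,0),(14,1),(2,0),(5,2)]⟩ ⟨3,
  [(14,0),(0,0),(13,3),(4,1)]⟩),(.r 0 ⟨1,[(1,1),(0,1),(1,3),(3,6),(0,3),(2,3),(3,0),(9,6),(2,6),(0,
  1)]⟩ ⟨1,[(15,0),(17,1),(0,0)]⟩),.k,.k,⟨false,0,⟨6,[(1,5),(1,0),(2,1),(5,0),(3,2),(4,0),(8,0)]⟩,⟨1,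
  [(15,0),(18,0)]⟩⟩,⟨true,0,⟨1,[(16,0),(2,0),(2,0)]⟩,⟨0,[(17,0)]⟩⟩,⟨true,0,⟨0,[(33,0)]⟩,⟨0,[(32,
  0)]⟩⟩,⟨false,1,⟨1,[(12,0),(2,0),(0,0),(3,0),(12,0),(1,0)]⟩,⟨0,[(1,0),(0,0)]⟩⟩,⟨false,0,⟨0,[]⟩,⟨0,
  []⟩⟩,⟨false,0,⟨0,[]⟩,⟨0,[]⟩⟩,[.o ⟨false,0,⟨0,[(12,0),(7,0)]⟩,⟨3,[(14,0),(0,0),(16,3),(2,1)]⟩⟩,.o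
  ⟨false,1,⟨1,[(27,0),(5,1),(1,0)]⟩,⟨0,[(32,0)]⟩⟩,.a ⟨true,0,⟨0,[(17,0)]⟩,⟨1,[(16,0),(8,0),(0,0)]⟩⟩
  ⟨false,0,⟨1,[(1,1),(10,1),(3,0),(8,0),(0,0)]⟩,⟨1,[(15,0),(16,1),(2,0)]⟩⟩ ⟨true,0,⟨1,[(12,0),(3,0),
  (3,0),(12,0)]⟩,⟨0,[(17,0),(14,0)]⟩⟩,.o ⟨false,0,⟨2,[(4,0),(12,2),(1,1),(2,0)]⟩,⟨7,[(14,0),(0,0),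
  (0,3),(10,1),(6,3)]⟩⟩]⟩)) (.Q [0,1,0,0,0,0,0,0,-1,0,0,1] (.p true [0,0,0,1] [] (⟨0,[(16,0)]⟩,⟨1,
  [(15,0),(8,0),(0,0)]⟩) .k 0 (⟨0,[]⟩,⟨0,[]⟩) .k .k) (.K ⟨2,[0,0,0,1],0,0,(⟨0,[(17,0)]⟩,⟨1,[(16,0),
  (8,0),(0,0)]⟩),.k,(.x 0 ⟨2,[(4,0),(14,1),(2,0),(5,2)]⟩ ⟨3,[(14,0),(0,0),(13,3),(4,1)]⟩),(.r 0 ⟨2,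
  [(1,2),(2,0),(5,2),(2,0),(3,2)]⟩ ⟨1,[(14,0),(18,1),(0,0)]⟩),.k,.k,[⟨2,[(4,0),(8,0),(3,2)]⟩,⟨1,
  [(13,0),(2,0)]⟩,⟨1,[(17,1),(4,0),(0,0)]⟩,⟨1,[(16,0),(2,0),(2,0)]⟩,⟨0,[(0,0)]⟩,⟨0,[(1,0),(18,
  0)]⟩]⟩) (.Q [0,0,0,0,0,1,0,0,0,0,0,-1] (.p false [0,0,0,1] [] (⟨0,[(17,0)]⟩,⟨1,[(16,0),(8,0),(0,
  0)]⟩) .k 0 (⟨0,[]⟩,⟨0,[]⟩) .k .k) (.R ⟨0,false,false,false,[0,0,0,1],[1,0,-1],[1,0,1],(⟨0,[(18,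
  0)]⟩,⟨1,[(17,0),(8,0),(0,0)]⟩),(⟨0,[(26,0)]⟩,⟨0,[(27,0)]⟩),⟨0,[(0,0)]⟩,.k,.k,(.x 0 ⟨2,[(5,0),(14,
  1),(2,0),(5,2)]⟩ ⟨3,[(15,0),(0,0),(13,3),(4,1)]⟩),.k,.k,.k,⟨true,0,⟨0,[(12,0)]⟩,⟨0,[(25,0)]⟩⟩,
  ⟨false,1,⟨0,[(18,0),(1,0),(14,0)]⟩,⟨1,[(14,0),(2,0)]⟩⟩,⟨true,0,⟨0,[(4,0),(29,0)]⟩,⟨0,[(1,0),(16,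
  0),(12,0)]⟩⟩,⟨false,1,⟨3,[(7,1),(7,1),(2,3),(9,0),(7,0)]⟩,⟨0,[(1,0),(19,0),(4,0),(0,0)]⟩⟩,⟨false,
  0,⟨0,[]⟩,⟨0,[]⟩⟩,⟨false,0,⟨0,[]⟩,⟨0,[]⟩⟩,[.o ⟨false,0,⟨3,[(5,0),(1,1),(12,0),(10,0)]⟩,⟨3,[(15,0),
  (0,0),(4,3),(14,1)]⟩⟩,.o ⟨false,1,⟨3,[(7,1),(7,0),(0,0),(11,0),(7,0)]⟩,⟨0,[(21,0)]⟩⟩,.a ⟨true,0,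
  ⟨1,[(17,0),(8,0),(0,0)]⟩,⟨0,[(18,0)]⟩⟩ ⟨false,0,⟨0,[(32,0)]⟩,⟨3,[(15,0),(0,0),(18,1)]⟩⟩ ⟨true,0,
  ⟨3,[(5,0),(1,1),(10,3),(1,0),(10,0)]⟩,⟨1,[(17,0),(3,1),(4,0),(0,0)]⟩⟩,.o ⟨false,0,⟨1,[(17,0),(2,
  0),(2,0)]⟩,⟨1,[(18,1),(9,0),(6,0)]⟩⟩]⟩) (.R ⟨1,false,false,false,[0,0,0,1],[1,-1],[1,0,0,0,0,0,0,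
  0,1],(⟨0,[(18,0)]⟩,⟨1,[(17,0),(8,0),(0,0)]⟩),(⟨0,[(29,0)]⟩,⟨0,[(30,0)]⟩),⟨0,[(0,0)]⟩,.k,.k,(.x 0
  ⟨2,[(5,0),(14,1),(2,0),(5,2)]⟩ ⟨3,[(15,0),(0,0),(13,3),(4,1)]⟩),(.r 0 ⟨1,[(1,0),(0,0),(8,0),(6,1),
  (4,0),(9,0)]⟩ ⟨1,[(15,0),(18,1),(0,0)]⟩),.k,.k,⟨false,0,⟨0,[(1,0),(16,0),(14,0)]⟩,⟨1,[(15,0),(18,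
  1),(0,0)]⟩⟩,⟨true,0,⟨2,[(5,0),(12,2),(1,1),(2,0)]⟩,⟨1,[(17,0),(8,0),(0,0)]⟩⟩,⟨true,0,⟨0,[]⟩,⟨0,
  [(38,0)]⟩⟩,⟨false,1,⟨1,[(13,1),(1,0),(2,1),(2,1),(14,0)]⟩,⟨0,[(1,0),(24,0),(0,0),(5,0)]⟩⟩,⟨false,
  1,⟨0,[(33,0),(2,0)]⟩,⟨0,[(34,0)]⟩⟩,⟨false,1,⟨3,[(5,1),(5,1),(1,1),(1,1),(2,3),(16,0),(0,0)]⟩,⟨1,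
  [(1,0),(0,0),(18,0),(4,1),(0,1)]⟩⟩,[.o ⟨false,0,⟨0,[(13,0),(7,0)]⟩,⟨3,[(15,0),(0,0),(16,3),(2,
  1)]⟩⟩,.o ⟨false,1,⟨1,[(28,0),(5,1),(1,0)]⟩,⟨0,[(33,0)]⟩⟩,.a ⟨true,0,⟨1,[(17,0),(8,0),(0,0)]⟩,⟨0,
  [(18,0)]⟩⟩ ⟨false,0,⟨0,[(1,0),(16,0)]⟩,⟨3,[(15,2),(0,0)]⟩⟩ ⟨true,0,⟨0,[(13,0),(4,0),(2,0)]⟩,⟨1,
  [(17,0),(8,0),(0,0),(5,1)]⟩⟩,.o ⟨false,0,⟨1,[(17,0),(2,0),(2,0)]⟩,⟨1,[(18,1),(9,0),(6,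
  0)]⟩⟩]⟩))))))) (.Q [0,0,0,-1,0,0,1,1,0,1,-1] (.p false [0,0,1] [1] (⟨0,[(21,0)]⟩,⟨0,[(20,0)]⟩) .k
  1 (⟨0,[]⟩,⟨0,[]⟩) .k .k) (.R ⟨2,true,false,false,[0,1],[1,1,-1],[0,1,1],(⟨0,[]⟩,⟨0,[]⟩),(⟨0,[(21,
  0),(3,0)]⟩,⟨0,[(1,0)]⟩),⟨0,[]⟩,.k,.k,.k,.k,.k,.k,⟨true,0,⟨0,[(0,0),(5,0),(1,0),(17,0)]⟩,⟨0,[(2,0),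
  (3,0),(2,0)]⟩⟩,⟨false,1,⟨0,[(15,0),(14,0)]⟩,⟨1,[(9,0),(11,0),(0,0)]⟩⟩,⟨false,0,⟨0,[(29,0)]⟩,⟨0,
  [(28,0),(2,0)]⟩⟩,⟨true,0,⟨0,[(8,0),(19,0)]⟩,⟨0,[(0,0),(27,0)]⟩⟩,⟨true,0,⟨0,[(33,0)]⟩,⟨0,[]⟩⟩,
  ⟨false,1,⟨3,[(2,1),(20,0),(4,3),(2,2)]⟩,⟨0,[(0,0)]⟩⟩,[]⟩) (.I [0,0,1,1,0,0,0,0,1] (.Q [0,0,0,-1,0,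
  0,-1,-1,-1,-1,1,1] (.p true [0,0,1] [1,0,0,-1] (⟨0,[(23,0)]⟩,⟨0,[(22,0)]⟩) .k 2 (⟨1,[(13,0),(8,0),
  (0,0)]⟩,⟨0,[(14,0)]⟩) .k (.x 0 ⟨0,[(4,0),(18,0)]⟩ ⟨1,[(20,1),(1,1),(1,0),(6,0)]⟩)) (.Q [0,0,0,0,0,
  0,-1,-1,-1,-1,1,1] (.p true [0,0,1] [1,0,0,-1] (⟨0,[(24,0)]⟩,⟨0,[(23,0)]⟩) .k 2 (⟨1,[(14,0),(8,0),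
  (0,0)]⟩,⟨0,[(15,0)]⟩) .k (.x 0 ⟨0,[(5,0),(18,0)]⟩ ⟨1,[(21,1),(1,1),(1,0),(6,0)]⟩)) (.Q [0,1,0,0,0,
  0,0,0,1,0,0,-1] (.p false [0,0,0,1] [] (⟨0,[(16,0)]⟩,⟨1,[(15,0),(8,0),(0,0)]⟩) .k 0 (⟨0,[]⟩,⟨0,
  []⟩) .k .k) (.K ⟨2,[0,0,0,1],0,0,(⟨0,[(17,0)]⟩,⟨1,[(16,0),(8,0),(0,0)]⟩),.k,(.r (-1) ⟨1,[(15,0),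
  (17,1),(0,0)]⟩ ⟨1,[(1,1),(8,1),(2,0),(2,0)]⟩),(.r 0 ⟨0,[(3,0)]⟩ ⟨1,[(14,0),(18,1),(0,0)]⟩),.k,.k,
  [⟨0,[(7,0),(9,0)]⟩,⟨1,[(13,0),(2,0)]⟩,⟨1,[(17,1),(4,0),(0,0)]⟩,⟨1,[(16,0),(2,0),(2,0)]⟩,⟨0,[(1,0),
  (18,0),(4,0),(0,0)]⟩,⟨0,[(0,0)]⟩]⟩) (.R ⟨1,false,false,false,[1,0,0,-1],[1,-1],[0,0,0,-1,0,0,0,0,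
  -1],(⟨1,[(16,0),(8,0),(0,0)]⟩,⟨0,[(17,0)]⟩),(⟨0,[(28,0)]⟩,⟨0,[(29,0)]⟩),⟨1,[(5,0),(2,0),(7,0)]⟩,
  .k,.k,(.r (-1) ⟨1,[(14,0),(18,1),(0,0)]⟩ ⟨0,[(3,0)]⟩),(.r 0 ⟨1,[(0,0),(0,0),(8,0),(5,0),(5,0),(9,
  0)]⟩ ⟨1,[(15,0),(17,1),(0,0)]⟩),.k,.k,⟨false,0,⟨1,[(0,0),(0,0),(14,0),(3,0)]⟩,⟨1,[(15,0),(18,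
  0)]⟩⟩,⟨true,0,⟨1,[(16,0),(2,0),(2,0)]⟩,⟨0,[(17,0)]⟩⟩,⟨true,0,⟨0,[(33,0)]⟩,⟨0,[(32,0)]⟩⟩,⟨false,1,
  ⟨1,[(12,0),(2,0),(0,0),(3,0),(12,0),(1,0)]⟩,⟨0,[(0,0),(31,0)]⟩⟩,⟨false,1,⟨3,[(14,0),(0,0),(19,
  1)]⟩,⟨0,[]⟩⟩,⟨false,1,⟨3,[(7,1),(2,1),(1,1),(2,1),(0,1),(17,0),(0,0)]⟩,⟨0,[(0,0),(36,0)]⟩⟩,[.o
  ⟨false,0,⟨0,[(12,0),(7,0)]⟩,⟨3,[(14,0),(0,0),(16,3),(2,1)]⟩⟩,.o ⟨false,1,⟨1,[(27,0),(5,1),(1,0)]⟩,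
  ⟨0,[(32,0)]⟩⟩,.a ⟨true,0,⟨0,[(17,0)]⟩,⟨1,[(16,0),(8,0),(0,0)]⟩⟩ ⟨false,0,⟨1,[(0,1),(11,0),(3,0),
  (3,0),(12,0)]⟩,⟨1,[(15,0),(16,1),(2,0)]⟩⟩ ⟨true,0,⟨1,[(12,0),(3,0),(3,0),(12,0)]⟩,⟨0,[(17,0),(14,
  0)]⟩⟩,.o ⟨false,0,⟨0,[(7,0),(9,0),(1,0)]⟩,⟨7,[(14,0),(0,0),(0,3),(10,1),(6,3)]⟩⟩]⟩)) (.I [0,1,-1,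
  0,0,0,0,-1] (.R ⟨1,false,false,false,[1,0,0,-1],[0,0,1],[0,1],(⟨1,[(16,0),(8,0),(0,0)]⟩,⟨0,[(17,
  0)]⟩),(⟨0,[(26,0)]⟩,⟨0,[(25,0)]⟩),⟨1,[(5,0),(2,0),(7,0)]⟩,.k,.k,(.r (-1) ⟨1,[(14,0),(18,1),(0,
  0)]⟩ ⟨0,[(3,0)]⟩),.k,(.r (-1) ⟨3,[(2,3),(10,1),(0,0),(0,0),(0,1),(17,1)]⟩ ⟨1,[(1,1),(2,0),(5,0),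
  (6,1),(1,0)]⟩),.k,⟨false,0,⟨0,[(0,0)]⟩,⟨1,[(11,1),(22,0),(0,0)]⟩⟩,⟨true,0,⟨1,[(13,0),(2,0)]⟩,⟨0,
  [(17,0),(1,0)]⟩⟩,⟨false,0,⟨3,[(1,2),(1,0),(0,0),(7,1),(4,2),(12,0)]⟩,⟨1,[(14,0),(20,0)]⟩⟩,⟨true,0,
  ⟨0,[(1,0)]⟩,⟨0,[(2,0),(29,0)]⟩⟩,⟨false,0,⟨0,[(1,0),(2,0),(12,0)]⟩,⟨1,[(14,0),(18,1),(1,0)]⟩⟩,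
  ⟨false,1,⟨0,[(1,0),(30,0),(2,0)]⟩,⟨0,[(2,0)]⟩⟩,[.o ⟨false,1,⟨3,[(14,0),(0,0),(4,3),(14,1)]⟩,⟨2,
  [(4,0),(7,0),(5,0)]⟩⟩,.o ⟨false,1,⟨0,[(20,0),(14,0)]⟩,⟨0,[(18,0)]⟩⟩,.a ⟨true,0,⟨0,[(17,0)]⟩,⟨1,
  [(16,0),(8,0),(0,0)]⟩⟩ ⟨true,0,⟨0,[(37,0)]⟩,⟨0,[]⟩⟩ ⟨false,1,⟨1,[(1,1),(12,0),(20,0)]⟩,⟨2,[(4,0),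
  (7,0),(4,2),(0,0)]⟩⟩,.o ⟨false,0,⟨0,[(7,0),(9,0),(1,0)]⟩,⟨7,[(14,0),(0,0),(0,3),(10,1),(6,
  3)]⟩⟩]⟩) (.R ⟨1,true,false,true,[1,0,-1],[0,0,0,1],[1,0,0,0,0,0,0,-1],(⟨0,[(25,0)]⟩,⟨0,[(26,0)]⟩),
  (⟨0,[(17,0)]⟩,⟨1,[(16,0),(8,0),(0,0)]⟩),⟨0,[(8,0)]⟩,.k,.k,.k,.k,(.r (-1) ⟨3,[(2,3),(10,1),(0,0),
  (0,0),(0,1),(17,1)]⟩ ⟨1,[(0,1),(0,0),(1,0),(0,0),(12,0),(12,0)]⟩),.k,⟨false,1,⟨1,[(0,1),(1,1),(1,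
  1),(8,1),(2,0),(8,0),(0,0),(7,1)]⟩,⟨2,[(0,1),(0,2),(2,0),(7,0),(4,2),(1,0),(10,2)]⟩⟩,⟨true,0,⟨1,
  [(13,0),(2,0)]⟩,⟨0,[(17,0),(1,0)]⟩⟩,⟨true,0,⟨0,[]⟩,⟨0,[(37,0)]⟩⟩,⟨false,0,⟨0,[(1,0)]⟩,⟨3,[(6,1),
  (7,1),(2,3),(9,0),(7,0)]⟩⟩,⟨false,1,⟨0,[(32,0),(2,0)]⟩,⟨0,[(33,0)]⟩⟩,⟨true,0,⟨0,[(1,0),(30,0)]⟩,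
  ⟨0,[(2,0)]⟩⟩,[]⟩))) (.R ⟨1,false,false,true,[1,0,0,-1],[0,0,1],[0,0,0,-1,0,0,0,0,-1],(⟨1,[(14,0),
  (8,0),(0,0)]⟩,⟨0,[(15,0)]⟩),(⟨0,[(24,0)]⟩,⟨0,[(23,0)]⟩),⟨1,[(3,0),(2,0),(7,0)]⟩,.k,.k,(.r (-1) ⟨1,
  [(12,0),(18,1),(0,0)]⟩ ⟨0,[(1,0)]⟩),.k,(.r (-1) ⟨1,[(10,0),(0,0),(0,0),(6,0),(11,0),(0,0)]⟩ ⟨0,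
  [(0,0),(14,0),(1,0)]⟩),.k,⟨false,1,⟨1,[(10,1),(0,0),(0,0),(10,0),(0,0),(7,0)]⟩,⟨0,[(0,0),(7,0),(1,
  0),(4,0),(12,0)]⟩⟩,⟨true,0,⟨1,[(11,0),(2,0)]⟩,⟨0,[(15,0),(1,0)]⟩⟩,⟨true,0,⟨0,[(31,0)]⟩,⟨0,[(30,
  0)]⟩⟩,⟨false,0,⟨0,[(0,0),(30,0)]⟩,⟨3,[(4,1),(7,1),(2,3),(9,0),(7,0)]⟩⟩,⟨false,1,⟨3,[(12,0),(0,0),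
  (19,1)]⟩,⟨0,[]⟩⟩,⟨false,0,⟨0,[(0,0)]⟩,⟨3,[(10,3),(1,2),(0,0),(1,3)]⟩⟩,[.o ⟨false,0,⟨0,[(18,0)]⟩,
  ⟨3,[(4,1),(7,0),(0,0),(11,0),(7,0)]⟩⟩,.o ⟨false,1,⟨3,[(12,0),(0,0),(4,3),(14,1)]⟩,⟨2,[(2,0),(7,0),
  (5,0)]⟩⟩,.a ⟨true,0,⟨0,[(15,0)]⟩,⟨1,[(14,0),(8,0),(0,0)]⟩⟩ ⟨false,1,⟨1,[(12,0),(18,1),(1,0)]⟩,⟨4,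
  [(0,3),(0,0),(0,1),(7,1),(4,3),(12,0)]⟩⟩ ⟨true,0,⟨1,[(14,0),(3,1),(4,0),(0,0)]⟩,⟨2,[(2,0),(7,0),
  (4,2),(0,0)]⟩⟩,.o ⟨false,0,⟨0,[(5,0),(9,0),(1,0)]⟩,⟨7,[(12,0),(0,0),(0,3),(10,1),(6,3)]⟩⟩]⟩)) (.R
  ⟨1,false,false,false,[1,0,0,-1],[1,-1],[0,0,0,-1,0,0,0,0,-1],(⟨1,[(13,0),(8,0),(0,0)]⟩,⟨0,[(14,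
  0)]⟩),(⟨0,[(25,0)]⟩,⟨0,[(26,0)]⟩),⟨1,[(2,0),(2,0),(7,0)]⟩,.k,.k,(.x 0 ⟨1,[(2,0),(2,0),(10,0),(2,
  0)]⟩ ⟨3,[(11,0),(0,0),(13,3),(4,1)]⟩),(.r 0 ⟨2,[(0,2),(2,1),(3,3),(2,1),(8,0),(0,0),(8,1)]⟩ ⟨0,
  [(0,0),(11,0)]⟩),.k,.k,⟨false,0,⟨5,[(0,5),(2,1),(3,3),(2,1),(8,0),(0,0),(8,1)]⟩,⟨1,[(12,0),(18,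
  0)]⟩⟩,⟨true,0,⟨1,[(13,0),(2,0),(2,0)]⟩,⟨0,[(14,0)]⟩⟩,⟨true,0,⟨0,[(30,0)]⟩,⟨0,[(29,0)]⟩⟩,⟨false,1,
  ⟨1,[(9,0),(2,0),(0,0),(3,0),(12,0),(1,0)]⟩,⟨1,[(0,1),(0,1),(5,1),(2,0),(3,1),(7,0),(0,0)]⟩⟩,
  ⟨false,1,⟨3,[(11,0),(0,0),(19,1)]⟩,⟨0,[]⟩⟩,⟨false,1,⟨3,[(4,1),(2,1),(1,1),(2,1),(0,1),(17,0),(0,
  0)]⟩,⟨5,[(0,5),(2,1),(3,3),(2,1),(3,5),(4,0),(0,0),(8,1)]⟩⟩,[.o ⟨false,0,⟨0,[(9,0),(7,0)]⟩,⟨3,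
  [(11,0),(0,0),(16,3),(2,1)]⟩⟩,.o ⟨false,1,⟨1,[(24,0),(5,1),(1,0)]⟩,⟨0,[(29,0)]⟩⟩,.a ⟨true,0,⟨0,
  [(14,0)]⟩,⟨1,[(13,0),(8,0),(0,0)]⟩⟩ ⟨false,0,⟨0,[(0,0),(1,0),(1,0),(0,0),(0,0),(2,0),(16,1)]⟩,⟨1,
  [(12,0),(16,1),(2,0)]⟩⟩ ⟨true,0,⟨1,[(9,0),(3,0),(3,0),(12,0)]⟩,⟨0,[(14,0),(14,0)]⟩⟩,.o ⟨false,0,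
  ⟨0,[(4,0),(9,0),(1,0)]⟩,⟨7,[(11,0),(0,0),(0,3),(10,1),(6,3)]⟩⟩]⟩))))))))))

theorem ok0 : chk (cU (-1) false 10) t0 l0 = true := by decide +kernel

noncomputable def l1 : List Con := (false, [0,0,0,0,0,0,-1,0,0,0,1]) :: r0

noncomputable def r1 : List Con := (false, [0,0,0,0,0,0,1,0,0,0,-1]) :: r0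

noncomputable def t1 : Tre :=
  (.Q [0,0,0,1,0,0,-1,-1,0,0,1] (.p true [0,0,1] [] (⟨0,[(15,0)]⟩,⟨0,[(14,0)]⟩) .k 0 (⟨0,[]⟩,⟨0,
  []⟩) .k .k) (.Q [0,0,0,0,0,-1,0,0,0,0,1] (.ed false [1,-1,1] .k) (.I [0,0,-2,-2,1,0,0,1] (.K ⟨0,
  [0,-1,1],0,0,(⟨0,[(1,0)]⟩,⟨0,[(17,0),(3,0)]⟩),.k,(.r (-1) ⟨0,[(0,0)]⟩ ⟨0,[(2,0),(11,0),(8,0),(0,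
  0)]⟩),.k,.k,.k,[⟨0,[(3,0)]⟩,⟨1,[(5,0),(11,0),(0,0)]⟩,⟨1,[(2,0),(10,0),(10,0)]⟩,⟨0,[(12,0),(12,
  0)]⟩]⟩) (.I [0,0,-2,0,1,2,-1] (.K ⟨0,[0,-1,1],0,0,(⟨0,[(2,0)]⟩,⟨0,[(18,0),(3,0)]⟩),.k,(.x 0 ⟨1,
  [(1,0),(0,1),(10,0),(1,0),(4,0),(0,1),(2,0),(1,1)]⟩ ⟨0,[(0,0)]⟩),.k,.k,.k,[⟨0,[(4,0)]⟩,⟨1,[(6,0),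
  (11,0),(0,0)]⟩,⟨1,[(3,0),(10,0),(10,0)]⟩,⟨0,[(13,0),(12,0)]⟩]⟩) (.I [0,0,2,0,-1,-2,1] (.K ⟨0,[0,
  -1,1],0,0,(⟨0,[(3,0)]⟩,⟨0,[(19,0),(3,0)]⟩),.k,(.x 1 ⟨0,[(0,0)]⟩ ⟨1,[(17,1),(1,1),(1,0),(1,3),(4,
  2)]⟩),.k,.k,.k,[⟨0,[(5,0)]⟩,⟨1,[(7,0),(11,0),(0,0)]⟩,⟨1,[(4,0),(10,0),(10,0)]⟩,⟨0,[(14,0),(12,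
  0)]⟩]⟩) (.Q [0,0,0,0,0,1,0,0,0,-1,1] (.ed false [0,1,1] .k) (.Q [0,1,0,-1,0,0,-1,-1,0,-2,1] (.p
  true [-1,1,1] [1] (⟨0,[(0,0)]⟩,⟨0,[(20,0),(2,0)]⟩) .k 1 (⟨0,[]⟩,⟨0,[]⟩) .k .k) (.I [0,0,2,2,-1,0,
  0,-1] (.K ⟨0,[0,-1,1],0,0,(⟨0,[(6,0)]⟩,⟨0,[(22,0),(3,0)]⟩),.k,(.r (-2) ⟨1,[(17,1),(2,1),(9,3),(0,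
  2),(0,0)]⟩ ⟨0,[(0,0)]⟩),.k,.k,.k,[⟨0,[(8,0)]⟩,⟨1,[(10,0),(11,0),(0,0)]⟩,⟨1,[(7,0),(10,0),(10,0)]⟩,
  ⟨0,[(17,0),(12,0)]⟩]⟩) (.Q [0,0,0,-1,0,0,1,0,0,0,-1] (.p false [0,0,1] [] (⟨0,[(23,0)]⟩,⟨0,[(22,
  0)]⟩) .k 0 (⟨0,[]⟩,⟨0,[]⟩) .k .k) (.Q [0,0,0,1,0,0,1,0,0,1,-1] (.p false [0,0,1] [1] (⟨0,[(24,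
  0)]⟩,⟨0,[(23,0)]⟩) .k 1 (⟨0,[]⟩,⟨0,[]⟩) .k .k) (.R ⟨0,false,false,true,[1,0,-1],[1,-1],[1,1,1],
  (⟨0,[(24,0)]⟩,⟨0,[(25,0)]⟩),(⟨0,[(27,0)]⟩,⟨0,[(28,0)]⟩),⟨0,[(4,0)]⟩,.k,.k,.k,.k,.k,.k,⟨false,0,⟨5,
  [(7,1),(3,1),(10,1),(3,0),(7,0)]⟩,⟨1,[(2,0),(20,0),(9,0)]⟩⟩,⟨true,0,⟨0,[(21,0)]⟩,⟨0,[(10,0)]⟩⟩,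
  ⟨false,0,⟨0,[(10,0),(8,0),(10,0)]⟩,⟨1,[(23,1),(9,0),(0,0)]⟩⟩,⟨true,0,⟨0,[(19,0),(12,0)]⟩,⟨0,[(9,
  0)]⟩⟩,⟨false,0,⟨0,[]⟩,⟨0,[]⟩⟩,⟨false,0,⟨0,[]⟩,⟨0,[]⟩⟩,[.o ⟨false,0,⟨1,[(3,0),(15,0),(12,0)]⟩,⟨3,
  [(9,1),(1,1),(14,0),(7,2)]⟩⟩,.a ⟨true,0,⟨0,[(32,0)]⟩,⟨0,[(0,0),(9,0)]⟩⟩ ⟨false,0,⟨0,[]⟩,⟨3,[(13,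
  0),(0,0),(18,1)]⟩⟩ ⟨true,0,⟨0,[(1,0)]⟩,⟨4,[(7,0),(1,0),(0,2),(0,1),(6,1),(3,0),(11,0)]⟩⟩,.e
  ⟨false,0,⟨1,[(21,0),(0,0)]⟩,⟨1,[(33,0),(0,0)]⟩⟩ ⟨false,0,⟨0,[(1,0)]⟩,⟨3,[(9,1),(0,3),(0,1),(14,0),
  (7,2)]⟩⟩,.o ⟨false,0,⟨0,[(18,0)]⟩,⟨7,[(12,3),(0,0),(0,0),(11,1),(6,3)]⟩⟩]⟩) (.R ⟨0,false,false,
  true,[1,0,-1],[0,1],[],(⟨0,[(24,0)]⟩,⟨0,[(25,0)]⟩),(⟨0,[(28,0)]⟩,⟨0,[(27,0)]⟩),⟨0,[(4,0)]⟩,.k,.k,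
  .k,.k,.k,.k,⟨true,1,⟨1,[(2,0),(20,0),(10,0)]⟩,⟨5,[(0,4),(5,1),(0,3),(3,2),(7,0),(2,0),(1,1),(3,3),
  (0,0)]⟩⟩,⟨false,1,⟨4,[(5,0),(6,2),(12,0),(1,1),(5,3)]⟩,⟨0,[(18,0)]⟩⟩,⟨false,1,⟨0,[(0,0),(10,0),
  (22,0)]⟩,⟨0,[(23,0)]⟩⟩,⟨true,0,⟨0,[(11,0)]⟩,⟨0,[(0,0),(22,0)]⟩⟩,⟨false,0,⟨0,[]⟩,⟨0,[]⟩⟩,⟨false,0,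
  ⟨0,[]⟩,⟨0,[]⟩⟩,[.o ⟨false,0,⟨0,[(31,0)]⟩,⟨15,[(0,1),(0,7),(0,1),(0,1),(18,3),(3,4),(7,8)]⟩⟩,.e
  ⟨false,1,⟨1,[(33,0),(0,0)]⟩,⟨0,[(36,0)]⟩⟩ ⟨false,1,⟨7,[(9,3),(1,3),(0,3),(0,0),(0,0),(18,3),(0,
  1)]⟩,⟨0,[(0,0)]⟩⟩,.a ⟨true,0,⟨0,[(10,0)]⟩,⟨1,[(12,0),(11,0),(0,0)]⟩⟩ ⟨false,1,⟨3,[(13,0),(0,0),
  (19,1)]⟩,⟨0,[]⟩⟩ ⟨true,0,⟨3,[(9,0),(1,1),(0,1),(7,0),(10,0)]⟩,⟨0,[(0,0)]⟩⟩,.o ⟨false,0,⟨0,[(18,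
  0)]⟩,⟨7,[(12,3),(0,0),(0,0),(11,1),(6,3)]⟩⟩]⟩)) (.R ⟨0,false,false,true,[1,0,-1],[1,-1],[1,1,1],
  (⟨0,[(23,0)]⟩,⟨0,[(24,0)]⟩),(⟨0,[(26,0)]⟩,⟨0,[(27,0)]⟩),⟨0,[(3,0)]⟩,.k,.k,.k,.k,.k,.k,⟨false,0,⟨5,
  [(6,1),(3,1),(10,1),(3,0),(7,0)]⟩,⟨1,[(1,0),(20,0),(9,0)]⟩⟩,⟨true,0,⟨0,[(20,0)]⟩,⟨0,[(9,0)]⟩⟩,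
  ⟨false,0,⟨0,[(9,0),(8,0),(10,0)]⟩,⟨1,[(22,1),(9,0),(0,0)]⟩⟩,⟨true,0,⟨0,[(18,0),(12,0)]⟩,⟨0,[(8,
  0)]⟩⟩,⟨false,0,⟨0,[]⟩,⟨0,[]⟩⟩,⟨false,0,⟨0,[]⟩,⟨0,[]⟩⟩,[.o ⟨false,0,⟨1,[(2,0),(15,0),(12,0)]⟩,⟨3,
  [(8,1),(1,1),(14,0),(7,2)]⟩⟩,.e ⟨false,0,⟨0,[]⟩,⟨3,[(12,0),(0,0),(18,1)]⟩⟩ ⟨false,1,⟨7,[(1,3),(9,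
  3),(0,0),(0,0),(8,3),(2,1)]⟩,⟨0,[(0,0)]⟩⟩,.a ⟨true,0,⟨0,[(9,0)]⟩,⟨1,[(11,0),(11,0),(0,0)]⟩⟩
  ⟨false,0,⟨1,[(20,0),(0,0)]⟩,⟨1,[(32,0),(0,0)]⟩⟩ ⟨true,0,⟨5,[(2,0),(8,1),(6,0),(1,1),(7,1),(2,4)]⟩,
  ⟨0,[(0,0)]⟩⟩,.o ⟨false,0,⟨0,[(17,0)]⟩,⟨7,[(11,3),(0,0),(0,0),(11,1),(6,3)]⟩⟩]⟩))) (.K ⟨1,[-1,1,1],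
  0,0,(⟨0,[(1,0)]⟩,⟨0,[(21,0),(2,0)]⟩),.k,.k,(.r 0 ⟨2,[(0,1),(3,0),(3,1),(6,3),(7,0)]⟩ ⟨0,[(20,0),
  (8,1),(0,0)]⟩),.k,.k,[⟨1,[(15,1),(2,0),(0,0)]⟩,⟨3,[(0,0),(8,1),(7,0),(11,0)]⟩,⟨0,[(14,0),(14,0)]⟩,
  ⟨0,[(0,0)]⟩]⟩)) (.K ⟨0,[1,-1,-1],0,0,(⟨0,[(0,0)]⟩,⟨0,[(21,0),(2,0)]⟩),.k,(.r (-1) ⟨0,[(19,0),(8,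
  1),(0,0)]⟩ ⟨0,[(3,0),(2,1),(8,1),(14,0)]⟩),.k,.k,.k,[⟨1,[(8,0),(11,0),(0,0)]⟩,⟨0,[(6,0)]⟩,⟨0,[(7,
  0)]⟩,⟨0,[(13,0),(14,0)]⟩]⟩))))) (.I [1,-1,-1,0,1,0,0,1] (.Q [0,-1,0,1,0,0,-1,-1,0,1,1] (.p true
  [1,-1,1] [] (⟨0,[(18,0),(1,0)]⟩,⟨0,[(1,0)]⟩) .k 0 (⟨0,[]⟩,⟨0,[]⟩) .k .k) (.I [0,0,-2,-2,1,0,0,1]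
  (.K ⟨1,[0,1,-1],0,0,(⟨0,[(3,0)]⟩,⟨0,[(20,0),(1,0)]⟩),.k,.k,(.r 0 ⟨0,[(4,0),(11,0),(8,0),(0,0)]⟩
  ⟨0,[(0,0)]⟩),.k,.k,[⟨1,[(16,2),(0,0)]⟩,⟨0,[(5,0)]⟩,⟨0,[(14,0),(12,0)]⟩,⟨0,[(1,0)]⟩]⟩) (.R ⟨0,
  false,false,true,[0,1,-1],[0,1],[0,1,1,0,0,0,0,-1],(⟨0,[(3,0)]⟩,⟨0,[(20,0),(1,0)]⟩),(⟨0,[(23,0)]⟩,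
  ⟨0,[(22,0)]⟩),⟨0,[(20,0)]⟩,.k,.k,.k,.k,.k,.k,⟨true,0,⟨0,[(18,0),(8,0)]⟩,⟨1,[(0,0),(1,0),(2,1),(8,
  1),(10,0)]⟩⟩,⟨false,1,⟨7,[(7,3),(0,0),(0,0),(11,1),(6,3)]⟩,⟨0,[(5,0)]⟩⟩,⟨false,0,⟨0,[(27,0)]⟩,⟨1,
  [(1,0),(4,0),(14,0),(7,0)]⟩⟩,⟨true,0,⟨0,[(14,0)]⟩,⟨1,[(1,0),(10,0),(14,0)]⟩⟩,⟨false,0,⟨0,[]⟩,⟨0,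
  []⟩⟩,⟨false,0,⟨0,[]⟩,⟨0,[]⟩⟩,[.o ⟨false,0,⟨0,[(26,0)]⟩,⟨1,[(21,0),(5,1),(1,0)]⟩⟩,.a ⟨true,0,⟨1,
  [(1,0),(4,0)]⟩,⟨0,[(27,0)]⟩⟩ ⟨false,0,⟨0,[(18,0)]⟩,⟨11,[(2,9),(5,0),(0,0),(4,1),(2,1),(6,3)]⟩⟩
  ⟨true,0,⟨4,[(0,1),(5,0),(0,0),(6,0),(1,0),(4,0),(7,0)]⟩,⟨0,[(5,0),(21,0)]⟩⟩,.e ⟨false,0,⟨1,[(16,
  0),(0,0),(0,1)]⟩,⟨0,[(2,0)]⟩⟩ ⟨false,0,⟨4,[(0,1),(5,0),(0,0),(6,0),(1,0),(4,0),(7,0)]⟩,⟨1,[(5,1),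
  (21,1),(0,0),(0,0)]⟩⟩,.o ⟨false,0,⟨0,[(5,0)]⟩,⟨7,[(7,3),(0,0),(0,0),(11,5)]⟩⟩]⟩)) (.Q [0,0,0,1,0,
  0,0,0,0,1] (.pp false [-1,1]) (.R ⟨0,false,false,false,[0,0,1],[1,-1,1],[0,1,0,0,0,0,0,1],(⟨0,
  [(20,0)]⟩,⟨0,[(19,0)]⟩),(⟨0,[(20,0),(1,0)]⟩,⟨0,[(3,0)]⟩),⟨0,[(3,0)]⟩,.k,.k,.k,.k,.k,.k,⟨false,0,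
  ⟨0,[(26,0)]⟩,⟨1,[(27,1),(0,0),(0,0)]⟩⟩,⟨true,0,⟨0,[(1,0),(2,0),(20,0)]⟩,⟨0,[(19,0),(0,0)]⟩⟩,⟨true,
  0,⟨0,[(31,0)]⟩,⟨0,[]⟩⟩,⟨false,1,⟨1,[(21,0),(5,1),(1,0)]⟩,⟨0,[(0,0)]⟩⟩,⟨false,0,⟨0,[]⟩,⟨0,[]⟩⟩,
  ⟨false,0,⟨0,[]⟩,⟨0,[]⟩⟩,[.o ⟨false,1,⟨3,[(1,3),(6,0),(0,0),(19,1)]⟩,⟨0,[(4,0)]⟩⟩,.o ⟨false,1,⟨0,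
  [(1,0),(27,0)]⟩,⟨1,[(4,0),(10,0),(10,0)]⟩⟩,.a ⟨true,0,⟨1,[(7,0),(11,0),(0,0)]⟩,⟨0,[(5,0)]⟩⟩ ⟨true,
  0,⟨1,[(1,0),(3,1),(0,0)]⟩,⟨0,[(18,0)]⟩⟩ ⟨false,1,⟨1,[(1,0),(0,0),(10,0),(13,0),(1,0)]⟩,⟨0,[(0,0),
  (17,0)]⟩⟩,.o ⟨false,0,⟨0,[(16,0)]⟩,⟨0,[(2,0),(9,0)]⟩⟩]⟩) (.R ⟨0,false,false,false,[0,0,1],[1,-1],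
  [1,1],(⟨0,[(20,0)]⟩,⟨0,[(19,0)]⟩),(⟨0,[(22,0)]⟩,⟨0,[(23,0)]⟩),⟨0,[(3,0)]⟩,.k,.k,.k,.k,.k,.k,
  ⟨false,0,⟨0,[(26,0)]⟩,⟨1,[(27,1),(0,0),(0,0)]⟩⟩,⟨true,0,⟨0,[(13,0)]⟩,⟨1,[(7,0),(11,0),(0,0)]⟩⟩,
  ⟨false,0,⟨0,[(18,0)]⟩,⟨3,[(1,0),(0,1),(3,0),(10,1),(11,1)]⟩⟩,⟨true,0,⟨0,[(0,0),(3,0),(22,0)]⟩,⟨0,
  [(6,0)]⟩⟩,⟨false,0,⟨0,[]⟩,⟨0,[]⟩⟩,⟨false,0,⟨0,[]⟩,⟨0,[]⟩⟩,[.o ⟨false,0,⟨0,[(0,0)]⟩,⟨3,[(4,1),(1,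
  1),(1,0),(0,0),(11,0),(7,0)]⟩⟩,.o ⟨false,1,⟨1,[(21,0),(5,1),(1,0)]⟩,⟨0,[(26,0)]⟩⟩,.a ⟨true,0,⟨1,
  [(7,0),(11,0),(0,0)]⟩,⟨0,[(5,0)]⟩⟩ ⟨false,0,⟨0,[]⟩,⟨3,[(8,0),(0,0),(19,1)]⟩⟩ ⟨true,0,⟨0,[(0,0),(4,
  0)]⟩,⟨3,[(4,0),(1,1),(0,1),(7,0),(10,0)]⟩⟩,.o ⟨false,0,⟨0,[(16,0)]⟩,⟨0,[(2,0),(9,0)]⟩⟩]⟩))) (.Q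
  [0,0,0,-1,0,0,1,0,0,0,-1] (.p false [0,0,1] [] (⟨0,[(18,0)]⟩,⟨0,[(17,0)]⟩) .k 0 (⟨0,[]⟩,⟨0,[]⟩)
  .k .k) (.R ⟨0,false,false,true,[0,0,1],[0,1],[1,1,1],(⟨0,[(19,0)]⟩,⟨0,[(18,0)]⟩),(⟨0,[(22,0)]⟩,⟨0,
  [(21,0)]⟩),⟨0,[(2,0)]⟩,.k,.k,.k,.k,.k,.k,⟨true,0,⟨0,[(26,0)]⟩,⟨0,[(24,0),(0,0)]⟩⟩,⟨false,1,⟨0,[(4,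
  0),(22,0)]⟩,⟨0,[(15,0)]⟩⟩,⟨true,(-1),⟨0,[(1,0)]⟩,⟨1,[(4,1),(8,1),(13,0),(0,0)]⟩⟩,⟨false,0,⟨0,[(3,
  0)]⟩,⟨0,[(13,0),(12,0),(1,0)]⟩⟩,⟨false,0,⟨0,[]⟩,⟨0,[]⟩⟩,⟨false,0,⟨0,[]⟩,⟨0,[]⟩⟩,[.o ⟨false,0,⟨0,
  [(25,0)]⟩,⟨1,[(20,0),(5,1),(1,0)]⟩⟩,.e ⟨false,0,⟨0,[]⟩,⟨3,[(7,0),(0,0),(18,1)]⟩⟩ ⟨false,1,⟨3,[(3,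
  1),(0,3),(0,1),(14,0),(6,1),(0,0)]⟩,⟨0,[(0,0)]⟩⟩,.a ⟨true,0,⟨1,[(6,0),(11,0),(0,0)]⟩,⟨0,[(4,0)]⟩⟩
  ⟨false,0,⟨1,[(15,0),(0,0)]⟩,⟨1,[(27,0),(0,0)]⟩⟩ ⟨true,0,⟨0,[(4,0),(20,0)]⟩,⟨0,[(0,0)]⟩⟩,.o ⟨false,
  0,⟨0,[(15,0)]⟩,⟨1,[(4,1),(15,0),(6,0)]⟩⟩]⟩) (.R ⟨0,false,false,true,[0,0,1],[0,1],[],(⟨0,[(19,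
  0)]⟩,⟨0,[(18,0)]⟩),(⟨0,[(22,0)]⟩,⟨0,[(21,0)]⟩),⟨0,[(2,0)]⟩,.k,.k,.k,.k,.k,.k,⟨true,1,⟨1,[(26,1),
  (0,0),(0,0)]⟩,⟨0,[(0,0),(0,0),(11,0),(10,0)]⟩⟩,⟨false,1,⟨0,[(4,0),(22,0)]⟩,⟨0,[(15,0)]⟩⟩,⟨true,0,
  ⟨0,[(17,0)]⟩,⟨0,[(4,0),(8,0)]⟩⟩,⟨false,0,⟨0,[(3,0)]⟩,⟨0,[(13,0),(12,0),(1,0)]⟩⟩,⟨false,0,⟨0,[]⟩,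
  ⟨0,[]⟩⟩,⟨false,0,⟨0,[]⟩,⟨0,[]⟩⟩,[.o ⟨false,0,⟨0,[(25,0)]⟩,⟨1,[(20,0),(5,1),(1,0)]⟩⟩,.a ⟨true,0,⟨1,
  [(0,1),(5,0),(11,0),(0,0)]⟩,⟨0,[(26,0)]⟩⟩ ⟨false,1,⟨1,[(27,0),(0,0)]⟩,⟨0,[(30,0)]⟩⟩ ⟨true,0,⟨0,
  [(0,0)]⟩,⟨0,[(15,0),(10,0)]⟩⟩,.e ⟨false,1,⟨3,[(7,0),(0,0),(19,1)]⟩,⟨0,[]⟩⟩ ⟨false,0,⟨0,[(0,0)]⟩,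
  ⟨7,[(6,3),(0,0),(0,0),(11,1),(5,7),(1,3)]⟩⟩,.o ⟨false,0,⟨0,[(15,0)]⟩,⟨1,[(4,1),(15,0),(6,
  0)]⟩⟩]⟩)))) (.R ⟨2,true,false,false,[0,1],[0,0,1],[1,1,1,1],(⟨0,[]⟩,⟨0,[]⟩),(⟨0,[(16,0)]⟩,⟨0,[(15,
  0)]⟩),⟨0,[]⟩,.k,.k,.k,.k,.k,.k,⟨false,0,⟨0,[(14,0),(7,0)]⟩,⟨1,[(0,1),(0,1),(22,0),(0,0)]⟩⟩,⟨true,
  0,⟨0,[(12,0)]⟩,⟨0,[(1,0)]⟩⟩,⟨false,0,⟨0,[]⟩,⟨3,[(4,0),(0,0),(19,1)]⟩⟩,⟨true,0,⟨0,[(0,0)]⟩,⟨0,[(1,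
  0),(12,0),(7,0)]⟩⟩,⟨true,0,⟨0,[(22,0)]⟩,⟨0,[(23,0)]⟩⟩,⟨false,1,⟨3,[(0,1),(1,1),(14,0),(7,2)]⟩,⟨0,
  [(1,0),(12,0)]⟩⟩,[]⟩))

theorem ok1 : chk (cU (-1) false 10) t1 l1 = true := by decide +kernel

noncomputable def l2 : List Con := (false, [0,-1,0,1,0,0,0,-1,0,1]) :: r1

noncomputable def r2 : List Con := (false, [0,1,0,-1,0,0,0,1,0,-1]) :: r1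

noncomputable def l3 : List Con := (false, [0,0,0,0,0,-1,0,0,0,1,-1]) :: l2

noncomputable def r3 : List Con := (false, [0,0,0,0,0,1,0,0,0,-1,1]) :: l2

noncomputable def l4 : List Con := (true, [0,0,2,2,0,0,0,1]) :: l3

noncomputable def r4 : List Con := (true, [1,0,-2,-2,0,0,0,-1]) :: l3

noncomputable def l5 : List Con := (false, [0,-1,0,-1,0,0,-1,-1,0,0,1]) :: l4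

noncomputable def r5 : List Con := (false, [0,1,0,1,0,0,1,1,0,0,-1]) :: l4

noncomputable def t2 : Tre :=
  (.K ⟨1,[1,-1,-1],0,0,(⟨0,[(2,0)]⟩,⟨0,[(19,0),(2,0)]⟩),.k,(.r (-1) ⟨3,[(0,3),(5,1),(13,0),(2,1),(2,
  3),(0,2)]⟩ ⟨0,[(1,0)]⟩),.k,.k,.k,[⟨1,[(0,0),(4,0),(0,0)]⟩,⟨1,[(12,1),(2,0),(0,0)]⟩,⟨0,[(5,0)]⟩,⟨0,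
  [(0,0)]⟩]⟩)

theorem ok2 : chk (cU (-1) false 10) t2 l5 = true := by decide +kernel

noncomputable def l6 : List Con := (true, [1,-1,-2,-1,1,0,0,-1]) :: r5

noncomputable def r6 : List Con := (true, [0,1,2,1,-1,0,0,1]) :: r5

noncomputable def l7 : List Con := (true, [1,0,-1,-1,1,0,0,1]) :: l6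

noncomputable def r7 : List Con := (true, [0,0,1,1,-1,0,0,-1]) :: l6

noncomputable def t3 : Tre :=
  (.I [0,0,0,1,0,0,0,-1] (.Q [0,0,-1,0,0,0,2,0,0,1,-2] (.p false [0,0,1] [1,0,-1] (⟨0,[(22,0)]⟩,⟨0,
  [(21,0)]⟩) .k 2 (⟨0,[(21,0)]⟩,⟨0,[(22,0)]⟩) .k (.x 0 ⟨0,[(7,1),(14,1)]⟩ ⟨0,[(15,1),(5,1),(8,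
  0)]⟩)) (.I [0,0,-1,-1,0,0,0,-2] (.K ⟨2,[0,1,1],0,0,(⟨0,[(24,0),(2,0)]⟩,⟨0,[(7,0)]⟩),.k,.k,(.r 0
  ⟨0,[(6,0)]⟩ ⟨0,[(0,0),(2,0)]⟩),.k,(.r (-1) ⟨0,[(3,0),(2,0)]⟩ ⟨0,[(0,0)]⟩),[⟨1,[(20,0),(0,0)]⟩,⟨0,
  [(1,0)]⟩,⟨1,[(20,0),(0,2)]⟩,⟨0,[(9,0)]⟩,⟨0,[(19,0),(11,0)]⟩,⟨0,[(5,0)]⟩]⟩) (.Q [0,0,0,0,0,-1,0,0,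
  0,0,1] (.ed false [1,-1,1] .k) (.R ⟨1,false,false,false,[0,0,1],[1,-1],[0,1,0,-1,0,0,0,1],(⟨0,
  [(25,0)]⟩,⟨0,[(24,0)]⟩),(⟨0,[(27,0)]⟩,⟨0,[(28,0)]⟩),⟨0,[(0,0)]⟩,.k,.k,.k,.k,.k,.k,⟨false,0,⟨1,[(1,
  0),(27,0),(2,0)]⟩,⟨7,[(5,3),(3,3),(3,0),(0,0),(11,1)]⟩⟩,⟨true,0,⟨0,[(18,0)]⟩,⟨1,[(12,0),(11,0),(0,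
  0)]⟩⟩,⟨false,0,⟨0,[(32,0)]⟩,⟨11,[(7,3),(1,3),(3,0),(0,0),(11,1),(6,3),(0,3)]⟩⟩,⟨false,1,⟨0,[(17,
  0),(14,0),(1,0)]⟩,⟨5,[(1,3),(0,2),(6,1),(14,0),(0,0),(3,0)]⟩⟩,⟨true,0,⟨0,[(36,0)]⟩,⟨0,[]⟩⟩,⟨false,
  1,⟨0,[(17,0),(16,0)]⟩,⟨1,[(1,0),(0,0),(21,0),(0,0),(6,0)]⟩⟩,[.a ⟨true,0,⟨0,[(32,0)]⟩,⟨2,[(1,0),(7,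
  1),(14,0),(0,0),(3,0)]⟩⟩ ⟨true,0,⟨1,[(1,0),(27,0),(2,2)]⟩,⟨0,[(3,0),(26,0)]⟩⟩ ⟨false,1,⟨0,[(18,0),
  (13,0),(0,0)]⟩,⟨3,[(6,0),(2,1),(1,0),(0,0)]⟩⟩,.o ⟨false,1,⟨1,[(26,0),(5,1),(1,0)]⟩,⟨0,[(31,0)]⟩⟩,
  .o ⟨false,0,⟨0,[(10,0)]⟩,⟨1,[(22,1),(3,0),(6,0)]⟩⟩,.o ⟨false,0,⟨0,[(21,0)]⟩,⟨0,[(18,0),(14,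
  0)]⟩⟩]⟩) (.Q [0,0,0,-1,0,0,-2,-1,0,0,2] (.p true [0,0,1] [0,1,-1] (⟨0,[(25,0)]⟩,⟨0,[(24,0)]⟩) .k
  2 (⟨0,[(0,0)]⟩,⟨0,[(25,0),(1,0)]⟩) .k (.r (-1) ⟨5,[(1,3),(2,3),(8,0),(0,0)]⟩ ⟨0,[(23,1)]⟩)) (.R
  ⟨0,false,false,false,[0,1,-1],[1,0,-1],[0,1,1,1,0,0,0,-1],(⟨0,[(1,0)]⟩,⟨0,[(26,0),(1,0)]⟩),(⟨0,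
  [(25,0)]⟩,⟨0,[(26,0)]⟩),⟨0,[(26,0)]⟩,.k,.k,.k,.k,.k,.k,⟨false,0,⟨0,[(32,0)]⟩,⟨2,[(5,0),(0,0),(26,
  0),(1,0)]⟩⟩,⟨true,0,⟨0,[(11,0),(7,0)]⟩,⟨10,[(0,7),(1,3),(0,3),(6,1),(1,1),(0,2)]⟩⟩,⟨true,0,⟨0,
  [(37,0)]⟩,⟨0,[]⟩⟩,⟨false,1,⟨1,[(27,0),(5,1),(1,0)]⟩,⟨8,[(0,1),(1,2),(0,0),(6,5),(1,1),(17,1)]⟩⟩,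
  ⟨false,0,⟨0,[]⟩,⟨0,[]⟩⟩,⟨false,0,⟨0,[]⟩,⟨0,[]⟩⟩,[.a ⟨true,0,⟨2,[(0,0),(9,0),(7,0)]⟩,⟨3,[(0,1),(1,
  2),(0,2),(9,0),(19,0)]⟩⟩ ⟨false,0,⟨3,[(4,1),(8,0),(4,0),(2,0),(10,1)]⟩,⟨0,[(2,0),(3,0),(26,0)]⟩⟩
  ⟨true,0,⟨0,[(11,0),(6,0),(12,0)]⟩,⟨0,[(0,0),(1,0),(0,0)]⟩⟩,.o ⟨false,1,⟨3,[(0,1),(9,1),(16,2),(7,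
  0)]⟩,⟨0,[(20,0)]⟩⟩,.o ⟨false,1,⟨23,[(0,11),(1,3),(5,3),(5,2),(0,2),(18,17)]⟩,⟨0,[(11,1),(7,0)]⟩⟩,
  .e ⟨false,0,⟨0,[(4,0)]⟩,⟨0,[(5,0),(25,0)]⟩⟩ ⟨false,1,⟨1,[(24,1),(2,0),(7,0)]⟩,⟨0,[(0,0),(1,0),(0,
  0)]⟩⟩]⟩) (.Q [0,1,0,-1,0,0,0,0,0,-1] (.pp true [-1,1]) (.R ⟨0,false,false,true,[0,0,1],[1,-1],[0,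
  1,1],(⟨0,[(27,0)]⟩,⟨0,[(26,0)]⟩),(⟨0,[(29,0)]⟩,⟨0,[(30,0)]⟩),⟨0,[(2,0)]⟩,.k,.k,.k,.k,.k,.k,⟨false,
  0,⟨4,[(9,1),(1,0),(7,0),(3,0)]⟩,⟨0,[(34,0),(0,0)]⟩⟩,⟨true,0,⟨0,[(20,0)]⟩,⟨1,[(14,0),(11,0),(0,
  0)]⟩⟩,⟨false,0,⟨1,[(23,0),(0,0),(0,1)]⟩,⟨0,[(3,0),(3,0)]⟩⟩,⟨true,0,⟨0,[(19,0),(14,0)]⟩,⟨5,[(3,3),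
  (0,2),(6,1),(14,0),(0,0),(3,0)]⟩⟩,⟨false,0,⟨0,[]⟩,⟨0,[]⟩⟩,⟨false,0,⟨0,[]⟩,⟨0,[]⟩⟩,[.o ⟨false,0,⟨0,
  [(0,0)]⟩,⟨11,[(9,3),(1,3),(3,0),(0,0),(11,1),(6,3),(0,3)]⟩⟩,.a ⟨true,0,⟨0,[(34,0)]⟩,⟨2,[(3,0),(7,
  1),(14,0),(0,0),(3,0)]⟩⟩ ⟨true,0,⟨1,[(23,0),(0,0)]⟩,⟨0,[]⟩⟩ ⟨false,1,⟨0,[(20,0),(13,0),(0,0)]⟩,⟨9,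
  [(1,0),(3,0),(5,3),(1,3),(0,1)]⟩⟩,.o ⟨false,0,⟨0,[(12,0)]⟩,⟨1,[(24,1),(3,0),(6,0)]⟩⟩,.o ⟨false,0,
  ⟨0,[(23,0)]⟩,⟨0,[(20,0),(14,0)]⟩⟩]⟩) (.R ⟨0,false,false,true,[0,1,-1],[0,1],[1,1],(⟨0,[(2,0)]⟩,⟨0,
  [(27,0),(1,0)]⟩),(⟨0,[(30,0)]⟩,⟨0,[(29,0)]⟩),⟨0,[(27,0)]⟩,.k,.k,.k,.k,.k,.k,⟨false,1,⟨0,[(34,0),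
  (0,0)]⟩,⟨4,[(9,1),(1,0),(7,0),(3,0)]⟩⟩,⟨true,0,⟨0,[(12,0)]⟩,⟨0,[(24,0)]⟩⟩,⟨false,1,⟨0,[(6,0)]⟩,⟨0,
  [(5,0),(26,0)]⟩⟩,⟨true,0,⟨0,[(21,0)]⟩,⟨0,[(0,0),(18,0),(14,0)]⟩⟩,⟨false,0,⟨0,[]⟩,⟨0,[]⟩⟩,⟨false,0,
  ⟨0,[]⟩,⟨0,[]⟩⟩,[.o ⟨false,0,⟨0,[(33,0)]⟩,⟨1,[(28,0),(5,1),(1,0)]⟩⟩,.a ⟨true,0,⟨2,[(0,1),(12,0),(8,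
  0)]⟩,⟨0,[(34,0)]⟩⟩ ⟨true,0,⟨0,[]⟩,⟨1,[(23,0),(0,0)]⟩⟩ ⟨false,0,⟨1,[(1,0),(3,0)]⟩,⟨0,[(24,0),(9,0),
  (0,0)]⟩⟩,.o ⟨false,1,⟨0,[(24,0),(10,0)]⟩,⟨0,[(12,1),(7,0)]⟩⟩,.e ⟨false,1,⟨3,[(15,0),(0,0),(18,
  1)]⟩,⟨0,[(0,1),(0,0),(17,0),(0,0),(13,2)]⟩⟩ ⟨false,0,⟨1,[(1,0),(3,0)]⟩,⟨2,[(6,0),(0,0),(16,2),(9,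
  0),(1,0)]⟩⟩]⟩))))) (.Q [0,1,0,-1,0,0,0,0,0,-1] (.pp true [-1,1]) (.Q [0,0,0,0,0,2,0,0,0,-1,1] (.p
  true [0,0,1] [1] (⟨0,[(24,0)]⟩,⟨0,[(23,0)]⟩) .k 1 (⟨0,[]⟩,⟨0,[]⟩) .k .k) (.Q [0,0,0,1,0,0,0,0,0,
  1] (.pp false [-1,1]) (.Q [0,0,0,0,0,0,-1,-1,0,0,1] (.p true [0,0,1] [] (⟨0,[(26,0)]⟩,⟨0,[(25,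
  0)]⟩) .k 0 (⟨0,[]⟩,⟨0,[]⟩) .k .k) (.R ⟨0,false,false,true,[1,-1,-1],[1,-1],[0,1,1],(⟨0,[(10,0)]⟩,
  ⟨1,[(1,0),(0,0),(24,0),(6,0)]⟩),(⟨0,[(29,0)]⟩,⟨0,[(30,0)]⟩),⟨0,[(2,0)]⟩,.k,.k,(.r (-1) ⟨5,[(3,0),
  (2,0),(0,4),(6,0),(7,1),(8,0),(2,4)]⟩ ⟨0,[(9,0)]⟩),.k,.k,.k,⟨false,0,⟨4,[(9,1),(1,0),(7,0),(3,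
  0)]⟩,⟨0,[(34,0),(0,0)]⟩⟩,⟨true,0,⟨0,[(12,0)]⟩,⟨0,[(24,0)]⟩⟩,⟨false,0,⟨1,[(9,0),(11,0),(2,0),(7,
  0)]⟩,⟨0,[(7,0)]⟩⟩,⟨true,0,⟨0,[(21,0)]⟩,⟨0,[(0,0)]⟩⟩,⟨false,0,⟨0,[]⟩,⟨0,[]⟩⟩,⟨false,0,⟨0,[]⟩,⟨0,
  []⟩⟩,[.o ⟨false,0,⟨0,[(3,0)]⟩,⟨11,[(9,3),(1,3),(3,0),(0,0),(11,1),(6,3),(0,3)]⟩⟩,.a ⟨true,0,⟨0,
  [(34,0)]⟩,⟨0,[(1,0)]⟩⟩ ⟨true,0,⟨1,[(23,0),(0,0)]⟩,⟨0,[]⟩⟩ ⟨false,1,⟨0,[(7,0),(13,0)]⟩,⟨6,[(1,1),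
  (2,2),(4,1),(1,0),(10,0)]⟩⟩,.o ⟨false,0,⟨0,[(20,0)]⟩,⟨7,[(14,3),(0,0),(0,0),(11,1),(6,3)]⟩⟩,.o
  ⟨false,0,⟨0,[(4,0),(18,0)]⟩,⟨0,[(7,0),(0,0)]⟩⟩]⟩) (.R ⟨0,false,false,false,[1,-1,-1],[1,-1],[0,0,
  1],(⟨0,[(10,0)]⟩,⟨1,[(1,0),(0,0),(24,0),(6,0)]⟩),(⟨0,[(29,0)]⟩,⟨0,[(30,0)]⟩),⟨0,[(2,0)]⟩,.k,.k,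
  (.r (-1) ⟨5,[(3,0),(2,0),(0,4),(6,0),(7,1),(8,0),(2,4)]⟩ ⟨0,[(9,0)]⟩),.k,.k,.k,⟨false,0,⟨4,[(9,1),
  (1,0),(7,0),(3,0)]⟩,⟨0,[(34,0),(0,0)]⟩⟩,⟨true,0,⟨0,[(12,0)]⟩,⟨0,[(24,0)]⟩⟩,⟨false,0,⟨2,[(0,1),(0,
  0),(2,0),(4,0),(22,2)]⟩,⟨18,[(3,1),(2,0),(0,15),(6,1),(0,0),(0,0),(5,3),(8,4)]⟩⟩,⟨true,0,⟨0,[(0,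
  0)]⟩,⟨0,[(22,0)]⟩⟩,⟨false,0,⟨0,[]⟩,⟨0,[]⟩⟩,⟨false,0,⟨0,[]⟩,⟨0,[]⟩⟩,[.a ⟨true,0,⟨0,[(34,0)]⟩,⟨0,
  [(1,0)]⟩⟩ ⟨true,0,⟨1,[(23,0),(0,0)]⟩,⟨0,[]⟩⟩ ⟨false,1,⟨0,[(7,0),(13,0)]⟩,⟨6,[(1,1),(2,2),(4,1),(1,
  0),(10,0)]⟩⟩,.o ⟨false,1,⟨0,[(3,0),(32,0)]⟩,⟨0,[(33,0)]⟩⟩,.o ⟨false,0,⟨0,[(20,0)]⟩,⟨7,[(14,3),(0,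
  0),(0,0),(11,1),(6,3)]⟩⟩,.o ⟨false,0,⟨0,[(4,0),(18,0)]⟩,⟨0,[(7,0),(0,0)]⟩⟩]⟩)) (.I [1,-1,-1,-1,0,
  0,0,-1,-1] (.Q [0,-1,0,-2,0,0,-1,-1,0,-1,1] (.p true [0,0,1] [1] (⟨0,[(27,0)]⟩,⟨0,[(26,0)]⟩) .k 1
  (⟨0,[]⟩,⟨0,[]⟩) .k .k) (.I [0,0,-1,-2,0,0,0,-1] (.R ⟨1,true,false,true,[1,0,-1],[0,1],[0,1,0,-1,0,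
  0,0,-1],(⟨0,[(28,0)]⟩,⟨0,[(29,0)]⟩),(⟨0,[(32,0)]⟩,⟨0,[(31,0)]⟩),⟨0,[(12,0)]⟩,.k,.k,.k,.k,(.r (-1)
  ⟨25,[(0,17),(7,3),(0,11),(7,4),(0,4),(14,5)]⟩ ⟨0,[(11,0)]⟩),.k,⟨true,0,⟨0,[(0,0)]⟩,⟨0,[(11,0)]⟩⟩,
  ⟨false,1,⟨0,[(9,0),(5,0)]⟩,⟨0,[(22,0)]⟩⟩,⟨false,0,⟨0,[(36,0)]⟩,⟨11,[(11,3),(1,3),(3,0),(0,0),(11,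
  1),(6,3),(0,3)]⟩⟩,⟨true,0,⟨0,[(15,0)]⟩,⟨1,[(1,0),(19,0)]⟩⟩,⟨true,0,⟨0,[(40,0)]⟩,⟨0,[]⟩⟩,⟨false,1,
  ⟨11,[(11,3),(1,3),(1,11),(1,0),(0,0),(11,1),(6,3),(0,3)]⟩,⟨0,[(1,0)]⟩⟩,[]⟩) (.Q [0,0,0,0,0,1,0,0,
  0,0,0,-1] (.p false [0,0,0,1] [] (⟨0,[(20,0)]⟩,⟨3,[(4,0),(14,1),(8,0),(2,1)]⟩) .k 0 (⟨0,[]⟩,⟨0,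
  []⟩) .k .k) (.R ⟨0,false,false,true,[0,0,0,1],[0,0,1],[1,0,0,0,0,0,0,0,1],(⟨0,[(21,0)]⟩,⟨3,[(5,0),
  (14,1),(8,0),(2,1)]⟩),(⟨0,[(30,0)]⟩,⟨0,[(29,0)]⟩),⟨0,[(0,0)]⟩,.k,.k,(.r (-1) ⟨1,[(19,0),(17,1),(0,
  0)]⟩ ⟨0,[(3,0),(8,0),(28,0)]⟩),.k,.k,.k,⟨false,1,⟨1,[(4,1),(9,1),(4,0),(18,0)]⟩,⟨0,[(3,0),(3,0),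
  (8,0),(7,0)]⟩⟩,⟨true,0,⟨0,[(15,0),(5,0)]⟩,⟨3,[(7,1),(12,1),(5,0),(0,0)]⟩⟩,⟨true,0,⟨0,[]⟩,⟨0,[(41,
  0)]⟩⟩,⟨false,0,⟨0,[(1,0),(1,0),(17,0),(2,0),(12,0)]⟩,⟨5,[(2,0),(4,1),(2,0),(3,2),(4,2),(0,2),(1,
  0),(8,0),(7,0)]⟩⟩,⟨false,0,⟨0,[]⟩,⟨0,[]⟩⟩,⟨false,0,⟨0,[]⟩,⟨0,[]⟩⟩,[.o ⟨false,0,⟨0,[(24,0)]⟩,⟨0,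
  [(22,0),(16,0)]⟩⟩,.o ⟨false,1,⟨23,[(9,15),(2,7),(4,11),(0,0),(0,0),(11,5)]⟩,⟨0,[(1,0),(0,0),(1,0),
  (9,0),(19,0)]⟩⟩,.a ⟨true,0,⟨3,[(5,0),(14,1),(8,0),(2,1)]⟩,⟨0,[(21,0)]⟩⟩ ⟨false,1,⟨1,[(19,0),(19,
  0)]⟩,⟨4,[(3,4),(3,0),(4,1),(3,0),(7,1),(2,0),(6,0)]⟩⟩ ⟨true,0,⟨0,[(21,0),(2,0)]⟩,⟨5,[(1,1),(0,3),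
  (4,0),(0,1),(5,1),(5,2),(13,2)]⟩⟩,.o ⟨false,0,⟨1,[(20,0),(2,0),(2,0)]⟩,⟨1,[(21,1),(9,0),(6,
  0)]⟩⟩]⟩) (.R ⟨1,false,false,false,[1,0,0,-1],[1,-1],[1,0,0,0,0,0,0,0,-1],(⟨3,[(5,0),(14,1),(8,0),
  (2,1)]⟩,⟨0,[(21,0)]⟩),(⟨0,[(32,0)]⟩,⟨0,[(33,0)]⟩),⟨0,[(0,0),(19,0)]⟩,.k,.k,(.x 0 ⟨1,[(0,1),(19,0),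
  (2,0),(2,0)]⟩ ⟨3,[(5,1),(12,0),(0,0),(9,1),(8,1)]⟩),(.r 0 ⟨0,[(3,0),(8,0),(28,0)]⟩ ⟨1,[(19,0),(17,
  1),(0,0)]⟩),.k,.k,⟨false,0,⟨1,[(1,0),(1,1),(8,0),(21,0)]⟩,⟨1,[(19,0),(17,1),(0,0)]⟩⟩,⟨true,0,⟨1,
  [(20,0),(2,0),(2,0)]⟩,⟨0,[(21,0)]⟩⟩,⟨true,0,⟨0,[]⟩,⟨0,[(41,0)]⟩⟩,⟨false,1,⟨9,[(2,1),(1,3),(4,1),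
  (7,0),(1,4),(0,4),(14,1),(3,2)]⟩,⟨1,[(1,0),(1,1),(8,0),(8,1),(12,0)]⟩⟩,⟨false,1,⟨5,[(1,1),(12,1),
  (3,0),(0,0),(11,0),(6,0),(0,1)]⟩,⟨0,[(37,0)]⟩⟩,⟨false,1,⟨5,[(1,1),(2,3),(5,0),(3,0),(4,2),(0,2),
  (18,1)]⟩,⟨4,[(3,4),(3,0),(4,1),(3,0),(4,4),(2,1),(2,0),(6,0)]⟩⟩,[.o ⟨false,0,⟨0,[(4,0)]⟩,⟨7,[(1,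
  1),(12,1),(3,2),(0,2),(11,0),(4,1),(1,0)]⟩⟩,.o ⟨false,1,⟨2,[(2,0),(6,0),(16,0),(4,0),(7,0)]⟩,⟨0,
  [(36,0)]⟩⟩,.a ⟨true,0,⟨0,[(21,0)]⟩,⟨3,[(5,0),(14,1),(8,0),(2,1)]⟩⟩ ⟨false,0,⟨0,[(1,0),(1,0),(33,
  0)]⟩,⟨3,[(18,0),(0,2)]⟩⟩ ⟨true,0,⟨1,[(2,0),(17,0),(3,0)]⟩,⟨0,[(21,0),(14,0)]⟩⟩,.o ⟨false,0,⟨3,[(4,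
  2),(3,0),(3,0),(8,3),(1,0),(2,0)]⟩,⟨7,[(18,0),(0,0),(0,3),(10,1),(6,3)]⟩⟩]⟩))) (.Q [0,0,0,0,0,1,0,
  0,0,0,0,-1] (.p false [0,0,0,1] [] (⟨0,[(19,0)]⟩,⟨3,[(3,0),(14,1),(8,0),(2,1)]⟩) .k 0 (⟨0,[]⟩,⟨0,
  []⟩) .k .k) (.Q [0,-1,0,-1,0,0,0,0,-1,-1,0,1] (.p true [0,0,0,1] [1] (⟨0,[(20,0)]⟩,⟨3,[(4,0),(14,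
  1),(8,0),(2,1)]⟩) .k 1 (⟨0,[]⟩,⟨0,[]⟩) .k .k) (.I [0,0,-1,-1,0,0,0,0,-1] (.R ⟨0,false,false,false,
  [0,0,0,1],[1,-1],[1,0,0,0,0,0,0,0,1],(⟨0,[(22,0)]⟩,⟨3,[(6,0),(14,1),(8,0),(2,1)]⟩),(⟨0,[(33,0)]⟩,
  ⟨0,[(34,0)]⟩),⟨0,[(2,0)]⟩,.k,.k,(.r (-1) ⟨0,[(0,0),(19,0)]⟩ ⟨6,[(0,2),(3,3),(8,5),(12,1),(0,1),(9,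
  1)]⟩),(.r (-1) ⟨9,[(13,3),(1,1),(3,1),(0,6),(5,1),(0,1),(4,0)]⟩ ⟨0,[(0,0)]⟩),.k,.k,⟨false,1,⟨15,
  [(13,3),(1,3),(3,0),(0,8),(11,1),(4,3),(1,3)]⟩,⟨0,[(0,0)]⟩⟩,⟨true,0,⟨3,[(5,2),(3,0),(3,0),(8,3),
  (1,0),(2,0)]⟩,⟨3,[(6,0),(14,1),(8,0),(2,1)]⟩⟩,⟨true,0,⟨0,[]⟩,⟨0,[(42,0)]⟩⟩,⟨false,0,⟨0,[(1,0)]⟩,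
  ⟨23,[(3,7),(4,3),(6,7),(3,4),(0,16),(0,11),(17,1)]⟩⟩,⟨false,0,⟨0,[]⟩,⟨0,[]⟩⟩,⟨false,0,⟨0,[]⟩,⟨0,
  []⟩⟩,[.o ⟨false,0,⟨0,[(5,0)]⟩,⟨15,[(13,3),(1,3),(3,4),(0,4),(11,1),(4,3),(1,3)]⟩⟩,.o ⟨false,1,⟨0,
  [(7,0),(32,0)]⟩,⟨0,[(37,0)]⟩⟩,.a ⟨true,0,⟨3,[(6,0),(14,1),(8,0),(2,1)]⟩,⟨0,[(22,0)]⟩⟩ ⟨false,1,⟨1,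
  [(20,0),(19,0)]⟩,⟨6,[(0,4),(3,1),(8,2),(12,0),(0,0),(9,0)]⟩⟩ ⟨true,0,⟨0,[(5,0),(16,0)]⟩,⟨1,[(3,0),
  (17,0),(4,0)]⟩⟩,.o ⟨false,0,⟨1,[(21,0),(2,0),(2,0)]⟩,⟨1,[(22,1),(9,0),(6,0)]⟩⟩]⟩) (.R ⟨0,false,
  false,false,[0,0,0,1],[1,-1,-1],[1,0,0,-1,0,0,0,0,1],(⟨0,[(22,0)]⟩,⟨3,[(6,0),(14,1),(8,0),(2,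
  1)]⟩),(⟨0,[(14,0)]⟩,⟨1,[(6,0),(23,0),(0,1)]⟩),⟨0,[(2,0)]⟩,.k,.k,(.r (-1) ⟨1,[(20,0),(17,1),(0,
  0)]⟩ ⟨16,[(1,3),(2,12),(8,15),(3,1),(3,1),(4,4),(0,2),(7,4)]⟩),(.r (-1) ⟨11,[(10,3),(2,7),(5,0),
  (0,6)]⟩ ⟨0,[(4,0),(37,0)]⟩),.k,.k,⟨false,1,⟨0,[(0,0),(9,0)]⟩,⟨0,[(4,0),(32,0)]⟩⟩,⟨true,0,⟨0,[(22,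
  0),(1,0)]⟩,⟨1,[(18,0),(2,0)]⟩⟩,⟨true,0,⟨0,[(38,0)]⟩,⟨0,[(37,0)]⟩⟩,⟨false,0,⟨1,[(1,0),(2,0),(3,0),
  (13,0),(6,0)]⟩,⟨1,[(12,0),(4,0),(2,0),(0,0),(18,0)]⟩⟩,⟨false,0,⟨0,[]⟩,⟨0,[]⟩⟩,⟨false,0,⟨0,[]⟩,⟨0,
  []⟩⟩,[.o ⟨false,0,⟨1,[(5,2),(2,0),(6,1),(19,0),(2,0)]⟩,⟨1,[(17,1),(14,0),(7,0)]⟩⟩,.o ⟨false,1,⟨0,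
  [(8,0),(2,0),(15,0)]⟩,⟨0,[(12,0)]⟩⟩,.a ⟨true,0,⟨3,[(6,0),(14,1),(8,0),(2,1)]⟩,⟨0,[(22,0)]⟩⟩
  ⟨false,1,⟨1,[(20,0),(17,1),(1,0)]⟩,⟨2,[(3,0),(0,2),(3,0),(3,0),(0,0),(23,0)]⟩⟩ ⟨true,0,⟨1,[(5,2),
  (2,0),(6,1),(6,1),(12,0),(2,0)]⟩,⟨1,[(12,0),(4,0),(3,0)]⟩⟩,.o ⟨false,0,⟨1,[(21,0),(2,0),(2,0)]⟩,
  ⟨1,[(22,1),(9,0),(6,0)]⟩⟩]⟩)) (.K ⟨2,[0,0,0,1],0,0,(⟨0,[(21,0)]⟩,⟨3,[(5,0),(14,1),(8,0),(2,1)]⟩),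
  .k,(.r (-1) ⟨1,[(19,0),(17,1),(0,0)]⟩ ⟨0,[(3,0),(8,0),(28,0)]⟩),(.x (-1) ⟨3,[(5,1),(12,0),(0,0),
  (9,1),(8,1)]⟩ ⟨3,[(4,2),(3,0),(3,0),(10,0),(2,0),(5,3)]⟩),.k,.k,[⟨0,[(15,0),(5,0)]⟩,⟨1,[(17,0),(2,
  0)]⟩,⟨1,[(21,1),(4,0),(0,0)]⟩,⟨1,[(20,0),(2,0),(2,0)]⟩,⟨1,[(3,1),(2,0),(5,0),(3,0),(4,1),(5,0),(6,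
  0)]⟩,⟨0,[(0,0),(3,0)]⟩]⟩)) (.I [0,0,0,0,1,0,0,1,1] (.R ⟨1,false,false,false,[0,0,0,1],[1,-1,-1],
  [0,0,0,-1,0,0,0,0,1],(⟨0,[(21,0)]⟩,⟨3,[(5,0),(14,1),(8,0),(2,1)]⟩),(⟨0,[(13,0)]⟩,⟨1,[(5,0),(23,0),
  (0,1)]⟩),⟨0,[(1,0)]⟩,.k,.k,(.r (-1) ⟨1,[(19,0),(17,1),(0,0)]⟩ ⟨0,[(3,0),(8,0),(28,0)]⟩),(.r (-1)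
  ⟨7,[(0,3),(11,3),(5,0),(0,2)]⟩ ⟨0,[(3,0),(37,0)]⟩),.k,.k,⟨false,1,⟨0,[(0,0)]⟩,⟨0,[(3,0),(32,0)]⟩⟩,
  ⟨true,0,⟨0,[(21,0),(1,0)]⟩,⟨1,[(17,0),(2,0)]⟩⟩,⟨true,0,⟨0,[(37,0)]⟩,⟨0,[(36,0)]⟩⟩,⟨false,0,⟨0,[(3,
  0),(17,0),(1,0)]⟩,⟨5,[(0,1),(1,1),(8,1),(5,0),(1,1),(0,2),(18,1)]⟩⟩,⟨false,1,⟨3,[(18,0),(0,0),(19,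
  1)]⟩,⟨0,[]⟩⟩,⟨false,0,⟨0,[(3,0),(0,0),(2,0),(3,0),(2,0),(6,0)]⟩,⟨1,[(0,1),(16,0),(2,0)]⟩⟩,[.o
  ⟨false,0,⟨1,[(4,2),(2,0),(6,1),(19,0),(2,0)]⟩,⟨13,[(0,3),(1,3),(8,5),(5,1),(0,1),(12,2),(7,4)]⟩⟩,
  .o ⟨false,1,⟨0,[(7,0),(2,0),(15,0)]⟩,⟨0,[(11,0)]⟩⟩,.a ⟨true,0,⟨3,[(5,0),(14,1),(8,0),(2,1)]⟩,⟨0,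
  [(21,0)]⟩⟩ ⟨false,1,⟨1,[(19,0),(17,1),(1,0)]⟩,⟨2,[(2,0),(0,2),(3,0),(3,0),(0,0),(23,0)]⟩⟩ ⟨true,0,
  ⟨1,[(4,2),(2,0),(6,1),(6,1),(12,0),(2,0)]⟩,⟨1,[(11,0),(4,0),(3,0)]⟩⟩,.o ⟨false,0,⟨1,[(20,0),(2,0),
  (2,0)]⟩,⟨1,[(21,1),(9,0),(6,0)]⟩⟩]⟩) (.R ⟨1,false,false,false,[1,0,0,-1],[1,0,-1],[1,1,0,0,0,0,0,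
  0,-1],(⟨3,[(5,0),(14,1),(8,0),(2,1)]⟩,⟨0,[(21,0)]⟩),(⟨0,[(29,0)]⟩,⟨0,[(30,0)]⟩),⟨0,[(1,0),(18,
  0)]⟩,.k,.k,(.x 0 ⟨1,[(1,1),(18,0),(2,0),(2,0)]⟩ ⟨3,[(5,1),(12,0),(0,0),(9,1),(8,1)]⟩),.k,(.r (-1)
  ⟨4,[(0,2),(8,6),(2,0),(5,0)]⟩ ⟨4,[(0,4),(11,1),(1,0),(4,4),(2,0),(3,0)]⟩),.k,⟨true,0,⟨9,[(0,7),(6,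
  4),(1,6),(2,0),(3,4),(1,0),(5,4)]⟩,⟨0,[(0,0),(18,0),(15,0)]⟩⟩,⟨false,1,⟨7,[(7,3),(10,0),(0,0),(0,
  3),(17,5)]⟩,⟨0,[(15,0),(5,0)]⟩⟩,⟨false,0,⟨0,[]⟩,⟨3,[(18,0),(0,0),(19,1)]⟩⟩,⟨false,1,⟨5,[(4,1),(2,
  1),(2,0),(3,2),(4,2),(0,2),(1,1),(16,1)]⟩,⟨0,[(0,0),(8,0),(1,0),(9,0),(13,0)]⟩⟩,⟨true,0,⟨0,[(36,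
  0)]⟩,⟨0,[(37,0)]⟩⟩,⟨false,1,⟨7,[(4,7),(2,5),(3,3),(2,11),(4,3),(0,3),(10,0),(6,2)]⟩,⟨0,[(0,0),(8,
  0),(11,0),(2,0),(10,0)]⟩⟩,[.o ⟨false,0,⟨3,[(0,3),(6,1),(11,1),(11,0),(6,0)]⟩,⟨23,[(9,15),(2,7),(4,
  11),(0,0),(0,0),(11,5)]⟩⟩,.o ⟨false,1,⟨0,[(22,0),(16,0)]⟩,⟨0,[(24,0)]⟩⟩,.a ⟨true,0,⟨0,[(21,0)]⟩,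
  ⟨3,[(5,0),(14,1),(8,0),(2,1)]⟩⟩ ⟨false,0,⟨4,[(0,2),(8,1),(2,0),(5,0)]⟩,⟨1,[(19,0),(19,0)]⟩⟩ ⟨true,
  0,⟨5,[(0,1),(6,1),(2,0),(3,0),(4,0),(0,2),(1,1)]⟩,⟨0,[(21,0),(2,0)]⟩⟩,.o ⟨false,0,⟨7,[(0,1),(3,3),
  (7,1),(6,0),(1,7),(1,1),(2,1),(4,0)]⟩,⟨7,[(18,0),(0,0),(0,3),(10,1),(6,3)]⟩⟩]⟩)))) (.I [0,0,1,1,0,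
  0,0,0,-1] (.I [0,1,-1,-1] (.Q [0,1,0,0,0,0,0,0,1,0,0,-1] (.p false [0,0,0,1] [] (⟨0,[(20,0)]⟩,⟨3,
  [(4,0),(14,1),(8,0),(2,1)]⟩) .k 0 (⟨0,[]⟩,⟨0,[]⟩) .k .k) (.K ⟨2,[0,0,0,1],0,0,(⟨0,[(21,0)]⟩,⟨3,
  [(5,0),(14,1),(8,0),(2,1)]⟩),.k,(.r (-1) ⟨3,[(1,0),(7,0),(0,0),(8,1),(17,0)]⟩ ⟨0,[(2,0)]⟩),(.r 0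
  ⟨0,[(3,0),(0,0),(9,0)]⟩ ⟨3,[(1,0),(7,0),(0,0),(7,1),(18,0)]⟩),.k,.k,[⟨0,[(15,0),(5,0)]⟩,⟨1,[(17,
  0),(2,0)]⟩,⟨1,[(21,1),(4,0),(0,0)]⟩,⟨1,[(20,0),(2,0),(2,0)]⟩,⟨0,[(1,0),(0,0),(18,0)]⟩,⟨0,[(0,
  0)]⟩]⟩) (.K ⟨1,[1,0,0,-1],0,0,(⟨3,[(5,0),(14,1),(8,0),(2,1)]⟩,⟨0,[(21,0)]⟩),.k,(.r (-1) ⟨3,[(1,0),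
  (7,0),(0,0),(7,1),(18,0)]⟩ ⟨0,[(3,0),(0,0),(9,0)]⟩),(.r 0 ⟨0,[(2,0)]⟩ ⟨3,[(1,0),(7,0),(0,0),(8,1),
  (17,0)]⟩),.k,.k,[⟨1,[(17,0),(2,0),(6,1)]⟩,⟨3,[(4,2),(3,0),(3,0),(8,3),(1,0),(2,0)]⟩,⟨1,[(1,1),(1,
  1),(0,0),(9,1),(5,0),(16,0)]⟩,⟨0,[(0,0)]⟩]⟩)) (.Q [0,1,0,0,0,0,0,0,-1,-1,0,1] (.p true [0,0,0,1]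
  [1] (⟨0,[(20,0)]⟩,⟨3,[(4,0),(14,1),(8,0),(2,1)]⟩) .k 1 (⟨0,[]⟩,⟨0,[]⟩) .k .k) (.Q [0,1,0,0,0,0,0,
  0,1,1,0,-1] (.p false [0,0,0,1] [1] (⟨0,[(21,0)]⟩,⟨3,[(5,0),(14,1),(8,0),(2,1)]⟩) .k 1 (⟨0,[]⟩,⟨0,
  []⟩) .k .k) (.K ⟨2,[1,0,0,-1],0,0,(⟨3,[(6,0),(14,1),(8,0),(2,1)]⟩,⟨0,[(22,0)]⟩),.k,(.r (-1) ⟨1,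
  [(19,0),(18,1),(0,0)]⟩ ⟨0,[(4,0),(0,0),(9,0)]⟩),(.r 0 ⟨0,[(3,0)]⟩ ⟨2,[(0,0),(4,0),(4,0),(0,0),(8,
  0),(1,0)]⟩),.k,.k,[⟨1,[(18,0),(2,0)]⟩,⟨0,[(16,0),(5,0)]⟩,⟨1,[(18,0),(2,0),(6,1)]⟩,⟨3,[(2,0),(2,2),
  (7,0),(8,3),(0,0),(3,0)]⟩,⟨0,[(0,0)]⟩,⟨0,[(1,0)]⟩]⟩) (.Q [0,0,0,0,0,1,0,0,0,0,0,-1] (.p false [0,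
  0,0,1] [] (⟨0,[(22,0)]⟩,⟨3,[(6,0),(14,1),(8,0),(2,1)]⟩) .k 0 (⟨0,[]⟩,⟨0,[]⟩) .k .k) (.R ⟨0,false,
  false,false,[0,0,0,1],[1,-1,-1],[0,0,-1,-1,0,0,0,-1],(⟨0,[(23,0)]⟩,⟨3,[(7,0),(14,1),(8,0),(2,
  1)]⟩),(⟨0,[(15,0)]⟩,⟨1,[(7,0),(23,0),(0,1)]⟩),⟨0,[(0,0)]⟩,.k,.k,(.r (-1) ⟨1,[(21,0),(17,1),(0,
  0)]⟩ ⟨0,[(4,0)]⟩),(.r (-1) ⟨11,[(11,3),(2,7),(5,0),(0,6)]⟩ ⟨1,[(1,1),(4,0),(9,1),(5,0),(13,1),(2,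
  2)]⟩),.k,.k,⟨false,1,⟨3,[(20,0),(0,0),(18,1)]⟩,⟨0,[]⟩⟩,⟨true,0,⟨0,[(23,0),(1,0)]⟩,⟨1,[(19,0),(2,
  0)]⟩⟩,⟨true,0,⟨1,[(1,1),(4,0),(9,1),(5,0),(13,1),(2,2)]⟩,⟨0,[(5,0)]⟩⟩,⟨false,0,⟨1,[(1,1),(4,0),(2,
  0),(6,1),(19,0),(2,2)]⟩,⟨1,[(13,0),(4,0),(2,0),(0,0),(18,0)]⟩⟩,⟨false,0,⟨0,[]⟩,⟨0,[]⟩⟩,⟨false,0,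
  ⟨0,[]⟩,⟨0,[]⟩⟩,[.o ⟨false,0,⟨1,[(6,2),(2,0),(6,1),(19,0),(2,0)]⟩,⟨1,[(18,1),(14,0),(7,0)]⟩⟩,.o
  ⟨false,1,⟨0,[(9,0),(2,0),(15,0)]⟩,⟨0,[(13,0)]⟩⟩,.a ⟨true,0,⟨3,[(7,0),(14,1),(8,0),(2,1)]⟩,⟨0,[(23,
  0)]⟩⟩ ⟨false,1,⟨1,[(12,1),(15,0),(0,0)]⟩,⟨3,[(1,3),(3,3),(1,0),(14,1),(8,0),(2,1)]⟩⟩ ⟨true,0,⟨1,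
  [(6,2),(2,0),(6,1),(6,1),(12,0),(2,0)]⟩,⟨1,[(13,0),(4,0),(3,0)]⟩⟩,.o ⟨false,0,⟨1,[(22,0),(2,0),(2,
  0)]⟩,⟨1,[(23,1),(9,0),(6,0)]⟩⟩]⟩) (.R ⟨1,false,false,false,[1,0,0,-1],[1,-1],[1,0,0,0,0,0,0,0,-1],
  (⟨3,[(7,0),(14,1),(8,0),(2,1)]⟩,⟨0,[(23,0)]⟩),(⟨0,[(34,0)]⟩,⟨0,[(35,0)]⟩),⟨0,[(0,0),(21,0)]⟩,.k,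
  .k,(.r (-1) ⟨43,[(1,3),(5,0),(3,11),(0,11),(7,19),(1,1),(8,0),(2,1),(1,7),(2,19)]⟩ ⟨0,[(5,0),(0,
  0),(9,0)]⟩),(.r 0 ⟨0,[(4,0)]⟩ ⟨1,[(21,0),(17,1),(0,0)]⟩),.k,.k,⟨false,0,⟨6,[(1,5),(2,0),(4,0),(6,
  1),(1,1),(3,2),(13,1),(1,1)]⟩,⟨1,[(21,0),(17,1),(0,0)]⟩⟩,⟨true,0,⟨1,[(22,0),(2,0),(2,0)]⟩,⟨0,[(23,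
  0)]⟩⟩,⟨true,0,⟨0,[]⟩,⟨0,[(43,0)]⟩⟩,⟨false,1,⟨1,[(6,0),(14,0),(0,0),(16,0),(1,0)]⟩,⟨1,[(1,1),(14,
  0),(1,0),(10,0),(6,0)]⟩⟩,⟨false,1,⟨11,[(14,3),(1,3),(3,0),(0,0),(11,1),(6,3),(0,3)]⟩,⟨0,[(39,
  0)]⟩⟩,⟨false,1,⟨3,[(3,1),(2,1),(14,1),(0,1),(17,0),(0,0)]⟩,⟨1,[(1,0),(0,0),(4,0),(23,0),(2,1)]⟩⟩,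
  [.o ⟨false,0,⟨0,[(6,0)]⟩,⟨15,[(14,3),(1,3),(3,4),(0,4),(11,1),(4,3),(1,3)]⟩⟩,.o ⟨false,1,⟨0,[(8,
  0),(32,0)]⟩,⟨0,[(38,0)]⟩⟩,.a ⟨true,0,⟨0,[(23,0)]⟩,⟨3,[(7,0),(14,1),(8,0),(2,1)]⟩⟩ ⟨false,0,⟨3,[(1,
  3),(5,0),(14,1),(8,0),(2,1)]⟩,⟨3,[(20,0),(0,2)]⟩⟩ ⟨true,0,⟨1,[(6,0),(15,0),(16,0)]⟩,⟨0,[(23,0),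
  (14,0)]⟩⟩,.o ⟨false,0,⟨4,[(1,0),(1,0),(1,0),(0,1),(16,3),(0,0),(0,0),(2,1)]⟩,⟨7,[(20,0),(0,0),(0,
  3),(10,1),(6,3)]⟩⟩]⟩))) (.Q [0,0,0,0,0,1,0,0,0,0,0,-1] (.p false [0,0,0,1] [] (⟨0,[(21,0)]⟩,⟨3,
  [(5,0),(14,1),(8,0),(2,1)]⟩) .k 0 (⟨0,[]⟩,⟨0,[]⟩) .k .k) (.R ⟨0,false,false,false,[0,0,0,1],[1,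
  -1],[0,0,0,-1,0,0,0,0,1],(⟨0,[(22,0)]⟩,⟨3,[(6,0),(14,1),(8,0),(2,1)]⟩),(⟨0,[(33,0)]⟩,⟨0,[(34,
  0)]⟩),⟨0,[(0,0)]⟩,.k,.k,(.r (-1) ⟨10,[(1,0),(3,0),(4,2),(0,2),(8,4),(1,0),(12,1),(2,3)]⟩ ⟨0,[(3,
  0)]⟩),(.r 0 ⟨6,[(1,2),(0,1),(1,3),(0,1),(3,2),(12,2),(0,0),(3,0)]⟩ ⟨1,[(19,0),(18,1),(0,0)]⟩),.k,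
  .k,⟨false,0,⟨1,[(1,1),(3,0),(6,0),(9,1),(0,0)]⟩,⟨1,[(19,0),(19,0)]⟩⟩,⟨true,0,⟨3,[(2,0),(2,2),(7,
  0),(8,3),(0,0),(3,0)]⟩,⟨3,[(6,0),(14,1),(8,0),(2,1)]⟩⟩,⟨true,0,⟨0,[(38,0)]⟩,⟨0,[(37,0)]⟩⟩,⟨false,
  1,⟨1,[(5,1),(13,0),(2,1),(17,0)]⟩,⟨0,[(1,0),(35,0)]⟩⟩,⟨false,0,⟨0,[]⟩,⟨0,[]⟩⟩,⟨false,0,⟨0,[]⟩,⟨0,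
  []⟩⟩,[.o ⟨false,0,⟨0,[(5,0)]⟩,⟨15,[(13,3),(1,3),(3,4),(0,4),(11,1),(4,3),(1,3)]⟩⟩,.o ⟨false,1,⟨0,
  [(7,0),(32,0)]⟩,⟨0,[(37,0)]⟩⟩,.a ⟨true,0,⟨3,[(6,0),(14,1),(8,0),(2,1)]⟩,⟨0,[(22,0)]⟩⟩ ⟨false,0,⟨0,
  [(1,0),(3,0),(16,0)]⟩,⟨15,[(13,3),(1,3),(3,8),(0,0),(11,1),(4,3),(1,3)]⟩⟩ ⟨true,0,⟨0,[(5,0),(16,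
  0)]⟩,⟨9,[(8,0),(6,1),(1,3),(3,4),(4,1),(8,0),(1,3)]⟩⟩,.o ⟨false,0,⟨1,[(21,0),(2,0),(2,0)]⟩,⟨1,
  [(22,1),(9,0),(6,0)]⟩⟩]⟩) (.R ⟨1,false,false,false,[0,0,0,1],[1,-1],[0,0,0,-1,0,0,0,0,1],(⟨0,[(22,
  0)]⟩,⟨3,[(6,0),(14,1),(8,0),(2,1)]⟩),(⟨0,[(33,0)]⟩,⟨0,[(34,0)]⟩),⟨0,[(0,0)]⟩,.k,.k,(.r (-1) ⟨10,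
  [(1,0),(3,0),(4,2),(0,2),(8,4),(1,0),(12,1),(2,3)]⟩ ⟨0,[(3,0)]⟩),(.r 0 ⟨6,[(1,2),(0,1),(1,3),(0,
  1),(3,2),(12,2),(0,0),(3,0)]⟩ ⟨1,[(19,0),(18,1),(0,0)]⟩),.k,.k,⟨false,0,⟨1,[(1,1),(3,0),(6,0),(9,
  1),(0,0)]⟩,⟨1,[(19,0),(19,0)]⟩⟩,⟨true,0,⟨3,[(2,0),(2,2),(7,0),(8,3),(0,0),(3,0)]⟩,⟨3,[(6,0),(14,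
  1),(8,0),(2,1)]⟩⟩,⟨true,0,⟨0,[(38,0)]⟩,⟨0,[(37,0)]⟩⟩,⟨false,1,⟨1,[(5,1),(13,0),(2,1),(17,0)]⟩,⟨0,
  [(1,0),(35,0)]⟩⟩,⟨false,1,⟨3,[(19,0),(0,0),(19,1)]⟩,⟨0,[]⟩⟩,⟨false,1,⟨1,[(2,1),(2,1),(13,0),(2,1),
  (16,0)]⟩,⟨9,[(1,7),(2,1),(13,0),(2,0),(4,1),(8,1),(2,1)]⟩⟩,[.o ⟨false,0,⟨0,[(5,0)]⟩,⟨15,[(13,3),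
  (1,3),(3,4),(0,4),(11,1),(4,3),(1,3)]⟩⟩,.o ⟨false,1,⟨0,[(7,0),(32,0)]⟩,⟨0,[(37,0)]⟩⟩,.a ⟨true,0,
  ⟨3,[(6,0),(14,1),(8,0),(2,1)]⟩,⟨0,[(22,0)]⟩⟩ ⟨false,0,⟨0,[(1,0),(3,0),(16,0)]⟩,⟨15,[(13,3),(1,3),
  (3,8),(0,0),(11,1),(4,3),(1,3)]⟩⟩ ⟨true,0,⟨0,[(5,0),(16,0)]⟩,⟨9,[(8,0),(6,1),(1,3),(3,4),(4,1),(8,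
  0),(1,3)]⟩⟩,.o ⟨false,0,⟨1,[(21,0),(2,0),(2,0)]⟩,⟨1,[(22,1),(9,0),(6,0)]⟩⟩]⟩)))) (.Q [0,0,0,0,0,1,
  0,0,0,0,0,-1] (.p false [0,0,0,1] [] (⟨0,[(19,0)]⟩,⟨3,[(3,0),(14,1),(8,0),(2,1)]⟩) .k 0 (⟨0,[]⟩,
  ⟨0,[]⟩) .k .k) (.R ⟨0,false,false,false,[0,0,0,1],[1,-1],[1,0,0,-1,0,0,0,0,1],(⟨0,[(20,0)]⟩,⟨3,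
  [(4,0),(14,1),(8,0),(2,1)]⟩),(⟨0,[(31,0)]⟩,⟨0,[(32,0)]⟩),⟨0,[(0,0)]⟩,.k,.k,(.x 0 ⟨3,[(3,2),(3,0),
  (3,0),(10,0),(2,0),(5,3)]⟩ ⟨3,[(4,1),(12,0),(0,0),(9,1),(8,1)]⟩),(.r 0 ⟨2,[(1,0),(0,1),(4,1),(26,
  1)]⟩ ⟨1,[(17,0),(18,1),(0,0)]⟩),.k,.k,⟨false,0,⟨2,[(1,1),(0,0),(4,0),(26,0)]⟩,⟨1,[(17,0),(19,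
  0)]⟩⟩,⟨true,0,⟨3,[(3,2),(3,0),(3,0),(8,3),(1,0),(2,0)]⟩,⟨3,[(4,0),(14,1),(8,0),(2,1)]⟩⟩,⟨true,0,
  ⟨0,[(36,0)]⟩,⟨0,[(35,0)]⟩⟩,⟨false,1,⟨1,[(3,1),(13,0),(2,1),(17,0)]⟩,⟨1,[(1,1),(9,0),(1,0),(5,0),
  (15,0)]⟩⟩,⟨false,0,⟨0,[]⟩,⟨0,[]⟩⟩,⟨false,0,⟨0,[]⟩,⟨0,[]⟩⟩,[.o ⟨false,0,⟨0,[(3,0)]⟩,⟨15,[(11,3),(1,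
  3),(3,4),(0,4),(11,1),(4,3),(1,3)]⟩⟩,.o ⟨false,1,⟨0,[(5,0),(32,0)]⟩,⟨0,[(35,0)]⟩⟩,.a ⟨true,0,⟨3,
  [(4,0),(14,1),(8,0),(2,1)]⟩,⟨0,[(20,0)]⟩⟩ ⟨false,0,⟨0,[(1,0),(32,0)]⟩,⟨15,[(11,3),(1,3),(3,8),(0,
  0),(11,1),(4,3),(1,3)]⟩⟩ ⟨true,0,⟨0,[(3,0),(16,0)]⟩,⟨9,[(6,0),(6,1),(1,3),(3,4),(4,1),(8,0),(1,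
  3)]⟩⟩,.o ⟨false,0,⟨1,[(19,0),(2,0),(2,0)]⟩,⟨1,[(20,1),(9,0),(6,0)]⟩⟩]⟩) (.Q [0,1,0,0,0,0,0,0,-1,0,
  0,1] (.p true [0,0,0,1] [] (⟨0,[(20,0)]⟩,⟨3,[(4,0),(14,1),(8,0),(2,1)]⟩) .k 0 (⟨0,[]⟩,⟨0,[]⟩) .k
  .k) (.K ⟨2,[0,0,0,1],0,0,(⟨0,[(21,0)]⟩,⟨3,[(5,0),(14,1),(8,0),(2,1)]⟩),.k,(.x 0 ⟨1,[(1,1),(18,0),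
  (2,0),(2,0)]⟩ ⟨3,[(5,1),(12,0),(0,0),(9,1),(8,1)]⟩),(.r 0 ⟨2,[(2,0),(0,1),(4,1),(26,1)]⟩ ⟨5,[(0,
  1),(3,0),(4,1),(0,1),(7,1),(1,0),(16,0)]⟩),.k,.k,[⟨0,[(15,0),(5,0)]⟩,⟨1,[(17,0),(2,0)]⟩,⟨1,[(21,
  1),(4,0),(0,0)]⟩,⟨1,[(20,0),(2,0),(2,0)]⟩,⟨0,[(0,0)]⟩,⟨1,[(2,0),(0,0),(2,0),(1,0),(11,0)]⟩]⟩) (.R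
  ⟨1,false,false,false,[0,0,0,1],[1,-1,-1],[1,1,0,0,0,0,0,0,1],(⟨0,[(21,0)]⟩,⟨3,[(5,0),(14,1),(8,0),
  (2,1)]⟩),(⟨0,[(13,0)]⟩,⟨1,[(5,0),(23,0),(0,1)]⟩),⟨0,[(1,0)]⟩,.k,.k,(.x 0 ⟨1,[(1,1),(18,0),(2,0),
  (2,0)]⟩ ⟨3,[(5,1),(12,0),(0,0),(9,1),(8,1)]⟩),(.r 0 ⟨0,[(2,0),(9,0)]⟩ ⟨5,[(6,0),(3,2),(6,0),(0,2),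
  (6,1),(2,0),(8,1)]⟩),.k,.k,⟨false,0,⟨4,[(2,3),(0,0),(3,2),(3,4),(2,1),(1,0)]⟩,⟨1,[(4,0),(5,0),(3,
  0),(3,0),(18,0)]⟩⟩,⟨true,0,⟨0,[(21,0),(1,0)]⟩,⟨1,[(17,0),(2,0)]⟩⟩,⟨false,0,⟨0,[]⟩,⟨3,[(18,0),(0,
  0),(19,1)]⟩⟩,⟨false,1,⟨1,[(4,0),(2,0),(2,0),(7,0),(2,1),(6,0),(6,0)]⟩,⟨0,[(0,0),(15,0)]⟩⟩,⟨true,0,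
  ⟨0,[(36,0)]⟩,⟨0,[(37,0)]⟩⟩,⟨false,1,⟨3,[(4,3),(2,1),(6,3),(3,1),(2,3),(9,0),(6,0)]⟩,⟨0,[(0,0),(15,
  0),(20,0)]⟩⟩,[.o ⟨false,0,⟨1,[(4,2),(2,0),(6,1),(19,0),(2,0)]⟩,⟨1,[(16,1),(14,0),(7,0)]⟩⟩,.o
  ⟨false,1,⟨0,[(7,0),(2,0),(15,0)]⟩,⟨0,[(11,0)]⟩⟩,.a ⟨true,0,⟨3,[(5,0),(14,1),(8,0),(2,1)]⟩,⟨0,[(21,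
  0)]⟩⟩ ⟨false,0,⟨6,[(0,1),(1,2),(0,1),(10,0),(6,1),(0,0),(3,0)]⟩,⟨1,[(18,0),(20,0)]⟩⟩ ⟨true,0,⟨1,
  [(4,2),(2,0),(6,1),(6,1),(12,0),(2,0)]⟩,⟨1,[(11,0),(4,0),(3,0)]⟩⟩,.o ⟨false,0,⟨1,[(20,0),(2,0),(2,
  0)]⟩,⟨1,[(21,1),(9,0),(6,0)]⟩⟩]⟩)))))) (.I [0,1,-1,-2,0,0,0,1] (.I [1,0,-1,-1,0,0,0,-1] (.R ⟨2,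
  true,false,false,[0,1],[1,0,-1],[0,1,1],(⟨0,[]⟩,⟨0,[]⟩),(⟨0,[(26,0)]⟩,⟨0,[(27,0)]⟩),⟨0,[]⟩,.k,.k,
  .k,.k,.k,.k,⟨false,0,⟨2,[(1,0),(2,0),(3,0),(4,0)]⟩,⟨7,[(7,3),(3,3),(3,0),(0,0),(11,1)]⟩⟩,⟨true,0,
  ⟨0,[(20,0)]⟩,⟨8,[(1,1),(9,2),(1,0),(0,4),(9,1)]⟩⟩,⟨false,0,⟨0,[(34,0)]⟩,⟨11,[(9,3),(1,3),(3,0),(0,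
  0),(11,1),(6,3),(0,3)]⟩⟩,⟨true,0,⟨0,[(0,0),(19,0)]⟩,⟨0,[(13,0)]⟩⟩,⟨true,0,⟨0,[(38,0)]⟩,⟨0,[]⟩⟩,
  ⟨false,1,⟨0,[(19,0),(16,0)]⟩,⟨0,[(1,0),(6,0),(2,0),(20,0)]⟩⟩,[]⟩) (.R ⟨1,false,false,false,[1,-1,
  -1],[1,-1],[1,1,-1,-1,0,0,0,-1],(⟨0,[(10,0)]⟩,⟨0,[(27,0),(2,0)]⟩),(⟨0,[(29,0)]⟩,⟨0,[(30,0)]⟩),⟨0,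
  [(2,0)]⟩,.k,.k,(.r (-1) ⟨1,[(1,0),(5,1),(14,0),(0,0)]⟩ ⟨0,[(9,0)]⟩),.k,.k,.k,⟨false,0,⟨0,[(1,0),
  (3,1)]⟩,⟨1,[(0,0),(5,0),(29,0)]⟩⟩,⟨true,0,⟨0,[(12,0)]⟩,⟨0,[(24,0)]⟩⟩,⟨false,0,⟨0,[]⟩,⟨3,[(15,0),
  (0,0),(19,1)]⟩⟩,⟨false,1,⟨0,[(21,0),(14,0)]⟩,⟨3,[(1,0),(2,0),(6,2),(7,1),(14,0)]⟩⟩,⟨true,0,⟨0,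
  [(33,0)]⟩,⟨0,[(34,0)]⟩⟩,⟨false,1,⟨0,[(8,0),(27,0)]⟩,⟨3,[(1,0),(2,0),(6,2),(7,1),(14,4)]⟩⟩,[.a
  ⟨true,0,⟨0,[(34,0)]⟩,⟨2,[(1,0),(2,0),(3,0),(2,2),(1,0)]⟩⟩ ⟨true,0,⟨0,[(1,0),(3,0),(19,0)]⟩,⟨0,[(0,
  0),(31,0)]⟩⟩ ⟨false,1,⟨5,[(1,1),(5,3),(0,1),(5,1),(13,0),(6,0)]⟩,⟨8,[(4,4),(4,1),(1,2),(1,1),(8,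
  0)]⟩⟩,.o ⟨false,1,⟨0,[(3,0),(32,0)]⟩,⟨0,[(33,0)]⟩⟩,.o ⟨false,0,⟨0,[(20,0)]⟩,⟨7,[(14,3),(0,0),(0,
  0),(11,1),(6,3)]⟩⟩,.o ⟨false,0,⟨0,[(4,0),(18,0)]⟩,⟨0,[(7,0),(0,0)]⟩⟩]⟩)) (.I [1,-1,2,2,0,0,0,1]
  (.I [0,1,-1,-2] (.Q [0,1,0,2,0,0,1,1,0,1,-1] (.p false [0,0,1] [1] (⟨0,[(28,0)]⟩,⟨0,[(27,0)]⟩) .k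
  1 (⟨0,[]⟩,⟨0,[]⟩) .k .k) (.Q [0,0,0,1,0,0,0,0,0,1] (.pp false [-1,1]) (.R ⟨1,false,false,false,[1,
  -1,-1],[1,-1],[0,1,-1,-2,0,0,0,-1],(⟨0,[(13,0)]⟩,⟨0,[(30,0),(2,0)]⟩),(⟨0,[(32,0)]⟩,⟨0,[(33,0)]⟩),
  ⟨0,[(5,0)]⟩,.k,.k,(.r (-1) ⟨9,[(2,5),(7,7),(7,0),(0,0),(5,1),(0,1)]⟩ ⟨0,[(12,0)]⟩),.k,.k,.k,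
  ⟨false,0,⟨0,[(2,0),(5,0)]⟩,⟨5,[(3,3),(5,1),(28,2),(0,0)]⟩⟩,⟨true,0,⟨0,[(15,0)]⟩,⟨0,[(27,0)]⟩⟩,
  ⟨false,0,⟨0,[(37,0)]⟩,⟨7,[(4,1),(7,1),(5,0),(0,0),(18,2),(0,2)]⟩⟩,⟨false,1,⟨0,[(24,0),(14,0)]⟩,⟨2,
  [(2,0),(4,0),(6,1),(7,0)]⟩⟩,⟨true,0,⟨0,[(41,0)]⟩,⟨0,[]⟩⟩,⟨false,1,⟨0,[(11,0),(27,0)]⟩,⟨1,[(2,0),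
  (4,0),(6,0),(13,0),(8,0)]⟩⟩,[.a ⟨true,0,⟨0,[(37,0)]⟩,⟨0,[(0,0)]⟩⟩ ⟨true,0,⟨0,[(2,0),(25,0)]⟩,⟨0,
  [(3,0)]⟩⟩ ⟨false,1,⟨0,[(10,0),(13,0)]⟩,⟨6,[(0,1),(6,2),(4,1),(1,0),(10,0)]⟩⟩,.o ⟨false,1,⟨0,[(6,
  0),(32,0)]⟩,⟨0,[(36,0)]⟩⟩,.o ⟨false,0,⟨0,[(23,0)]⟩,⟨7,[(17,3),(0,0),(0,0),(11,1),(6,3)]⟩⟩,.o
  ⟨false,0,⟨0,[(7,0),(18,0)]⟩,⟨0,[(10,0),(0,0)]⟩⟩]⟩) (.I [0,0,1,1,0,0,0,0,1] (.I [1,0,-1,0,0,0,0,-1,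
  1] (.I [1,-1,0,0,0,0,0,0,1] (.R ⟨1,false,false,false,[1,0,0,-1],[1,-1,-1],[0,0,0,-1,0,0,0,0,-1],
  (⟨1,[(23,0),(8,0),(0,0)]⟩,⟨0,[(24,0)]⟩),(⟨0,[(16,0)]⟩,⟨0,[(33,0),(2,0)]⟩),⟨1,[(8,0),(14,0),(9,
  0)]⟩,.k,.k,(.r (-1) ⟨3,[(5,0),(6,0),(0,0),(7,1)]⟩ ⟨0,[(2,0)]⟩),(.r (-1) ⟨11,[(12,3),(2,7),(5,6),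
  (0,0)]⟩ ⟨1,[(0,0),(0,0),(3,0),(25,0)]⟩),.k,.k,⟨false,1,⟨1,[(5,1),(0,1),(14,0),(19,0)]⟩,⟨0,[(1,
  0)]⟩⟩,⟨true,0,⟨3,[(10,1),(12,1),(5,0),(0,0)]⟩,⟨0,[(18,0),(5,0)]⟩⟩,⟨true,0,⟨0,[(40,0)]⟩,⟨0,[(39,
  0)]⟩⟩,⟨false,0,⟨1,[(0,1),(2,0),(1,0),(4,0),(6,0),(5,0),(7,0)]⟩,⟨1,[(14,1),(6,0),(2,1),(17,0)]⟩⟩,
  ⟨false,1,⟨3,[(21,0),(0,0),(19,1)]⟩,⟨0,[]⟩⟩,⟨false,0,⟨1,[(0,0),(0,0),(1,0),(6,0),(6,0),(5,0)]⟩,⟨1,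
  [(21,0),(2,1),(2,1),(14,0)]⟩⟩,[.o ⟨false,0,⟨2,[(3,2),(1,0),(4,0),(6,1),(7,0)]⟩,⟨47,[(4,23),(7,15),
  (2,7),(4,11),(0,0),(0,0),(11,17),(7,11)]⟩⟩,.o ⟨false,1,⟨0,[(10,0),(2,0),(15,0)]⟩,⟨0,[(14,0)]⟩⟩,.a
  ⟨true,0,⟨0,[(24,0)]⟩,⟨1,[(23,0),(8,0),(0,0)]⟩⟩ ⟨false,1,⟨1,[(21,0),(18,1),(1,0)]⟩,⟨15,[(0,6),(0,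
  6),(0,1),(1,3),(2,0),(2,3),(3,3)]⟩⟩ ⟨true,0,⟨1,[(3,0),(1,0),(4,0),(6,0),(5,0),(7,0)]⟩,⟨0,[(14,0),
  (9,0)]⟩⟩,.o ⟨false,0,⟨4,[(3,1),(2,0),(0,0),(1,1),(14,4),(1,0),(2,0)]⟩,⟨7,[(21,0),(0,0),(0,3),(10,
  1),(6,3)]⟩⟩]⟩) (.K ⟨2,[0,0,0,1],0,0,(⟨0,[(24,0)]⟩,⟨1,[(23,0),(8,0),(0,0)]⟩),.k,(.r (-1) ⟨3,[(5,0),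
  (6,0),(0,0),(8,1)]⟩ ⟨1,[(0,1),(2,0),(2,0),(10,0)]⟩),(.r 0 ⟨0,[(2,0)]⟩ ⟨3,[(5,0),(6,0),(0,0),(7,
  1)]⟩),.k,.k,[⟨0,[(18,0),(5,0)]⟩,⟨1,[(20,0),(2,0)]⟩,⟨1,[(24,1),(4,0),(0,0)]⟩,⟨1,[(23,0),(2,0),(2,
  0)]⟩,⟨0,[(0,0),(23,0)]⟩,⟨17,[(1,9),(0,7),(2,1),(3,3),(0,4),(12,8),(3,9),(9,0)]⟩]⟩)) (.Q [0,1,0,0,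
  0,0,0,0,1,0,0,-1] (.p false [0,0,0,1] [] (⟨0,[(23,0)]⟩,⟨1,[(22,0),(8,0),(0,0)]⟩) .k 0 (⟨0,[]⟩,⟨0,
  []⟩) .k .k) (.K ⟨2,[0,0,0,1],0,0,(⟨0,[(24,0)]⟩,⟨1,[(23,0),(8,0),(0,0)]⟩),.k,(.r (-1) ⟨3,[(5,0),(6,
  0),(0,0),(8,1)]⟩ ⟨0,[(1,0),(9,0)]⟩),(.r 0 ⟨0,[(2,0)]⟩ ⟨3,[(5,0),(6,0),(0,0),(7,1)]⟩),.k,.k,[⟨0,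
  [(18,0),(5,0)]⟩,⟨1,[(20,0),(2,0)]⟩,⟨1,[(24,1),(4,0),(0,0)]⟩,⟨1,[(23,0),(2,0),(2,0)]⟩,⟨0,[(1,0),(1,
  0),(13,0),(6,0),(12,0)]⟩,⟨0,[(0,0)]⟩]⟩) (.R ⟨1,false,false,false,[1,0,0,-1],[1,-1],[0,0,0,-1,0,0,
  0,0,-1],(⟨1,[(23,0),(8,0),(0,0)]⟩,⟨0,[(24,0)]⟩),(⟨0,[(35,0)]⟩,⟨0,[(36,0)]⟩),⟨1,[(8,0),(14,0),(9,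
  0)]⟩,.k,.k,(.r (-1) ⟨3,[(5,0),(6,0),(0,0),(7,1)]⟩ ⟨0,[(2,0)]⟩),(.r 0 ⟨0,[(1,0),(9,0)]⟩ ⟨3,[(5,0),
  (6,0),(0,0),(8,1)]⟩),.k,.k,⟨false,0,⟨19,[(0,17),(0,1),(7,3),(4,3),(5,0),(2,8),(1,5),(11,1)]⟩,⟨1,
  [(22,0),(18,0)]⟩⟩,⟨true,0,⟨1,[(23,0),(2,0),(2,0)]⟩,⟨0,[(24,0)]⟩⟩,⟨true,0,⟨0,[(40,0)]⟩,⟨0,[(39,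
  0)]⟩⟩,⟨false,1,⟨1,[(3,0),(18,0),(0,0),(16,0),(1,0)]⟩,⟨0,[(0,0),(38,0)]⟩⟩,⟨false,1,⟨3,[(21,0),(0,
  0),(19,1)]⟩,⟨0,[]⟩⟩,⟨false,1,⟨3,[(2,1),(0,1),(18,0),(0,1),(17,0),(0,1)]⟩,⟨5,[(0,4),(0,0),(22,0),
  (3,0),(0,0),(7,1)]⟩⟩,[.o ⟨false,0,⟨0,[(3,0)]⟩,⟨15,[(4,3),(2,3),(2,1),(10,5),(0,5),(11,0),(6,2)]⟩⟩,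
  .o ⟨false,1,⟨0,[(9,0),(32,0)]⟩,⟨0,[(39,0)]⟩⟩,.a ⟨true,0,⟨0,[(24,0)]⟩,⟨1,[(23,0),(8,0),(0,0)]⟩⟩
  ⟨false,0,⟨1,[(0,1),(2,0),(19,0),(16,0)]⟩,⟨15,[(4,3),(2,3),(2,1),(10,1),(0,9),(11,0),(6,2)]⟩⟩
  ⟨true,0,⟨1,[(3,0),(19,0),(16,0)]⟩,⟨0,[(24,0),(14,0)]⟩⟩,.o ⟨false,0,⟨4,[(3,1),(2,0),(0,0),(1,1),
  (14,4),(1,0),(2,0)]⟩,⟨7,[(21,0),(0,0),(0,3),(10,1),(6,3)]⟩⟩]⟩))) (.R ⟨1,false,false,false,[1,0,0,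
  -1],[1,-1],[1,0,0,0,0,0,0,0,-1],(⟨1,[(21,0),(8,0),(0,0)]⟩,⟨0,[(22,0)]⟩),(⟨0,[(33,0)]⟩,⟨0,[(34,
  0)]⟩),⟨1,[(6,0),(14,0),(9,0)]⟩,.k,.k,(.x 0 ⟨1,[(6,0),(17,0),(2,0),(3,0)]⟩ ⟨3,[(19,0),(0,0),(13,3),
  (4,1)]⟩),(.r 0 ⟨2,[(0,2),(4,0),(7,1),(12,0),(0,0)]⟩ ⟨3,[(3,0),(6,0),(0,0),(8,1)]⟩),.k,.k,⟨false,0,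
  ⟨5,[(0,5),(1,0),(2,2),(2,0),(3,0),(0,0),(23,0)]⟩,⟨3,[(3,0),(6,0),(0,0),(8,1)]⟩⟩,⟨true,0,⟨1,[(21,
  0),(2,0),(2,0)]⟩,⟨0,[(22,0)]⟩⟩,⟨true,0,⟨0,[]⟩,⟨0,[(42,0)]⟩⟩,⟨false,1,⟨1,[(1,0),(18,0),(0,0),(16,
  0),(1,0)]⟩,⟨5,[(0,5),(1,0),(2,2),(2,0),(3,0),(0,0),(8,5),(14,0)]⟩⟩,⟨false,1,⟨7,[(5,1),(7,1),(5,0),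
  (0,0),(18,2),(0,2)]⟩,⟨0,[(38,0)]⟩⟩,⟨false,1,⟨1,[(1,0),(2,0),(6,0),(8,0),(0,0)]⟩,⟨5,[(0,5),(4,0),
  (7,1),(8,5),(3,0),(0,0)]⟩⟩,[.o ⟨false,0,⟨0,[(1,0)]⟩,⟨15,[(2,3),(2,3),(2,1),(10,5),(0,5),(11,0),(6,
  2)]⟩⟩,.o ⟨false,1,⟨0,[(7,0),(32,0)]⟩,⟨0,[(37,0)]⟩⟩,.a ⟨true,0,⟨0,[(22,0)]⟩,⟨1,[(21,0),(8,0),(0,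
  0)]⟩⟩ ⟨false,0,⟨1,[(0,1),(0,0),(2,0),(10,0)]⟩,⟨3,[(19,0),(0,2)]⟩⟩ ⟨true,0,⟨1,[(1,0),(19,0),(16,
  0)]⟩,⟨0,[(22,0),(14,0)]⟩⟩,.o ⟨false,0,⟨4,[(1,1),(2,0),(0,0),(1,1),(14,4),(1,0),(2,0)]⟩,⟨7,[(19,0),
  (0,0),(0,3),(10,1),(6,3)]⟩⟩]⟩))) (.R ⟨1,true,false,true,[1,0,-1],[0,1],[0,1,0,-1,0,0,0,-1],(⟨0,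
  [(28,0)]⟩,⟨0,[(29,0)]⟩),(⟨0,[(32,0)]⟩,⟨0,[(31,0)]⟩),⟨0,[(12,0)]⟩,.k,.k,.k,.k,(.r (-1) ⟨9,[(1,5),
  (7,7),(7,0),(0,0),(5,1),(0,1)]⟩ ⟨0,[(11,0)]⟩),.k,⟨true,0,⟨0,[(0,0),(0,0),(8,0),(2,0)]⟩,⟨0,[(11,
  0)]⟩⟩,⟨false,1,⟨0,[(9,0),(5,0)]⟩,⟨0,[(22,0)]⟩⟩,⟨false,0,⟨0,[(36,0)]⟩,⟨7,[(3,1),(7,1),(5,0),(0,0),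
  (18,2),(0,2)]⟩⟩,⟨true,0,⟨0,[(15,0)]⟩,⟨1,[(0,0),(20,0)]⟩⟩,⟨true,0,⟨0,[(40,0)]⟩,⟨0,[]⟩⟩,⟨false,1,⟨7,
  [(3,1),(7,1),(3,7),(1,0),(0,0),(18,2),(0,2)]⟩,⟨0,[(0,0)]⟩⟩,[]⟩)) (.I [0,1,-1,-1,0,0,0,-1] (.Q [0,
  0,0,1,0,0,0,0,0,1] (.pp false [-1,1]) (.R ⟨1,false,false,false,[1,-1,-1],[1,-1],[0,1,-1,-2,0,0,0,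
  -1],(⟨0,[(13,0)]⟩,⟨0,[(30,0),(2,0)]⟩),(⟨0,[(32,0)]⟩,⟨0,[(33,0)]⟩),⟨0,[(5,0)]⟩,.k,.k,(.r (-1) ⟨9,
  [(1,5),(7,1),(0,5),(7,0),(0,0),(17,5)]⟩ ⟨0,[(12,0)]⟩),.k,.k,.k,⟨false,0,⟨0,[(1,0)]⟩,⟨5,[(3,3),(5,
  1),(28,2),(0,0)]⟩⟩,⟨true,0,⟨0,[(15,0)]⟩,⟨0,[(27,0)]⟩⟩,⟨false,0,⟨0,[(37,0)]⟩,⟨7,[(4,1),(7,1),(5,0),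
  (0,0),(18,2),(0,2)]⟩⟩,⟨false,1,⟨0,[(24,0),(14,0)]⟩,⟨1,[(1,0),(5,0),(6,0)]⟩⟩,⟨true,0,⟨0,[(41,0)]⟩,
  ⟨0,[]⟩⟩,⟨false,1,⟨0,[(11,0),(27,0)]⟩,⟨1,[(1,0),(5,0),(6,0),(22,1)]⟩⟩,[.a ⟨true,0,⟨0,[(37,0)]⟩,⟨0,
  [(0,0)]⟩⟩ ⟨true,0,⟨0,[(1,0),(35,0)]⟩,⟨0,[(3,0)]⟩⟩ ⟨false,1,⟨0,[(10,0),(13,0)]⟩,⟨6,[(0,1),(6,2),(4,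
  1),(1,0),(10,0)]⟩⟩,.o ⟨false,1,⟨0,[(6,0),(32,0)]⟩,⟨0,[(36,0)]⟩⟩,.o ⟨false,0,⟨0,[(23,0)]⟩,⟨7,[(17,
  3),(0,0),(0,0),(11,1),(6,3)]⟩⟩,.o ⟨false,0,⟨0,[(7,0),(18,0)]⟩,⟨0,[(10,0),(0,0)]⟩⟩]⟩) (.I [0,0,1,1,
  0,0,0,0,1] (.Q [0,-1,0,-1,0,0,-1,-1,-1,-1,1,1] (.p true [0,0,1] [1,0,0,-1] (⟨0,[(31,0)]⟩,⟨0,[(30,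
  0)]⟩) .k 2 (⟨1,[(21,0),(8,0),(0,0)]⟩,⟨0,[(22,0)]⟩) .k (.x 0 ⟨0,[(16,0),(14,0)]⟩ ⟨3,[(8,1),(10,0),
  (0,0),(9,3),(1,0),(6,0)]⟩)) (.I [0,1,0,0,0,0,0,0,1] (.K ⟨2,[1,0,0,-1],0,0,(⟨1,[(23,0),(8,0),(0,
  0)]⟩,⟨0,[(24,0)]⟩),.k,(.r (-1) ⟨7,[(1,1),(2,1),(7,3),(7,0),(0,2),(1,0),(17,0)]⟩ ⟨0,[(2,0)]⟩),(.r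
  0 ⟨17,[(1,17),(5,1),(6,4),(0,5),(3,8),(3,8),(5,3),(9,5)]⟩ ⟨2,[(0,0),(11,0),(0,0),(8,0),(17,0)]⟩),
  .k,.k,[⟨1,[(20,0),(2,0)]⟩,⟨0,[(18,0),(5,0)]⟩,⟨1,[(20,0),(2,0),(6,1)]⟩,⟨6,[(1,0),(0,0),(0,1),(2,1),
  (0,0),(1,3),(14,5),(4,0)]⟩,⟨1,[(0,1),(22,0),(8,0),(0,0)]⟩,⟨4,[(1,4),(12,2),(0,0),(11,0),(1,0),(7,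
  2)]⟩]⟩) (.R ⟨1,false,false,false,[1,0,0,-1],[1,-1],[1,0,0,0,0,0,0,0,-1],(⟨1,[(23,0),(8,0),(0,0)]⟩,
  ⟨0,[(24,0)]⟩),(⟨0,[(35,0)]⟩,⟨0,[(36,0)]⟩),⟨1,[(8,0),(14,0),(9,0)]⟩,.k,.k,(.r (-1) ⟨6,[(0,0),(3,1),
  (7,2),(0,0),(7,2),(18,0)]⟩ ⟨0,[(2,0)]⟩),(.r 0 ⟨4,[(0,4),(14,1),(12,1),(0,1),(7,0),(1,0)]⟩ ⟨1,[(22,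
  0),(17,1),(0,0)]⟩),.k,.k,⟨false,0,⟨0,[(0,0),(38,0)]⟩,⟨1,[(22,0),(17,1),(0,0)]⟩⟩,⟨true,0,⟨1,[(23,
  0),(2,0),(2,0)]⟩,⟨0,[(24,0)]⟩⟩,⟨true,0,⟨0,[]⟩,⟨0,[(44,0)]⟩⟩,⟨false,1,⟨1,[(3,0),(18,0),(0,0),(16,
  0),(1,0)]⟩,⟨0,[(0,0),(23,0),(14,0)]⟩⟩,⟨false,1,⟨7,[(7,1),(7,1),(5,0),(0,0),(18,2),(0,2)]⟩,⟨0,[(40,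
  0)]⟩⟩,⟨false,1,⟨7,[(3,3),(1,1),(16,3),(0,3),(17,0),(0,2)]⟩,⟨0,[(1,0),(17,0)]⟩⟩,[.o ⟨false,0,⟨0,
  [(3,0)]⟩,⟨19,[(7,3),(7,3),(5,6),(0,6),(16,3),(1,5)]⟩⟩,.o ⟨false,1,⟨0,[(9,0),(32,0)]⟩,⟨0,[(39,
  0)]⟩⟩,.a ⟨true,0,⟨0,[(24,0)]⟩,⟨1,[(23,0),(8,0),(0,0)]⟩⟩ ⟨false,0,⟨0,[(0,0)]⟩,⟨3,[(21,0),(0,2)]⟩⟩
  ⟨true,0,⟨1,[(3,0),(19,0),(16,0)]⟩,⟨0,[(24,0),(14,0)]⟩⟩,.o ⟨false,0,⟨6,[(1,0),(0,0),(0,1),(2,1),(0,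
  0),(1,3),(14,5),(4,0)]⟩,⟨7,[(21,0),(0,0),(0,3),(10,1),(6,3)]⟩⟩]⟩)) (.Q [0,-1,0,0,0,0,0,0,1,0,0,
  -1] (.p false [0,0,0,1] [] (⟨0,[(23,0)]⟩,⟨1,[(22,0),(8,0),(0,0)]⟩) .k 0 (⟨0,[]⟩,⟨0,[]⟩) .k .k)
  (.I [1,1,2,2,-1,0,0,1,1] (.R ⟨1,false,false,true,[1,0,0,-1],[0,1],[1,1,0,0,0,0,0,0,-1],(⟨1,[(24,
  0),(8,0),(0,0)]⟩,⟨0,[(25,0)]⟩),(⟨0,[(37,0)]⟩,⟨0,[(36,0)]⟩),⟨1,[(9,0),(14,0),(9,0)]⟩,.k,.k,(.r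
  (-1) ⟨1,[(22,0),(18,1),(0,0)]⟩ ⟨0,[(3,0)]⟩),(.r (-1) ⟨1,[(22,0),(18,1),(0,0)]⟩ ⟨0,[(3,0)]⟩),(.r
  (-2) ⟨19,[(5,7),(7,15),(0,7),(7,12),(0,2),(17,7)]⟩ ⟨0,[(0,0),(3,0),(13,0)]⟩),.k,⟨true,1,⟨1,[(22,
  0),(18,1),(0,0)]⟩,⟨0,[(0,0),(3,0),(13,0),(22,0)]⟩⟩,⟨false,1,⟨1,[(24,0),(8,0),(0,0),(7,1)]⟩,⟨13,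
  [(0,1),(3,7),(3,1),(13,0),(2,13),(1,3),(2,3),(4,0)]⟩⟩,⟨false,0,⟨0,[]⟩,⟨3,[(22,0),(0,0),(19,1)]⟩⟩,
  ⟨false,0,⟨3,[(1,1),(0,1),(8,0),(6,1),(14,0),(0,0),(3,0)]⟩,⟨1,[(4,1),(17,0),(2,1),(17,0)]⟩⟩,⟨true,
  0,⟨0,[(40,0)]⟩,⟨0,[(41,0)]⟩⟩,⟨false,0,⟨15,[(0,9),(0,3),(0,1),(15,9),(5,4),(1,0),(2,0),(12,9)]⟩,⟨1,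
  [(4,1),(17,0),(2,1),(15,1),(1,0)]⟩⟩,[.o ⟨false,0,⟨0,[(40,0)]⟩,⟨0,[(10,0),(32,0)]⟩⟩,.o ⟨false,1,
  ⟨19,[(8,3),(7,3),(5,6),(0,6),(16,3),(1,5)]⟩,⟨0,[(4,0)]⟩⟩,.a ⟨true,0,⟨0,[(25,0)]⟩,⟨1,[(24,0),(8,0),
  (0,0)]⟩⟩ ⟨false,1,⟨3,[(22,2),(0,0)]⟩,⟨0,[(1,0),(23,0)]⟩⟩ ⟨true,0,⟨9,[(11,0),(6,1),(1,3),(3,4),(4,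
  1),(8,0),(1,3)]⟩,⟨0,[(4,0),(20,0)]⟩⟩,.o ⟨false,0,⟨13,[(0,1),(3,7),(3,1),(13,0),(2,13),(1,3),(2,3),
  (4,0)]⟩,⟨7,[(22,0),(0,0),(0,3),(10,1),(6,3)]⟩⟩]⟩) (.R ⟨1,false,false,false,[1,0,0,-1],[1,-1,-1],
  [1,0,0,0,0,0,0,0,-1],(⟨1,[(24,0),(8,0),(0,0)]⟩,⟨0,[(25,0)]⟩),(⟨0,[(17,0)]⟩,⟨0,[(34,0),(2,0)]⟩),⟨1,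
  [(9,0),(14,0),(9,0)]⟩,.k,.k,(.r (-1) ⟨4,[(0,0),(4,0),(7,1),(8,1)]⟩ ⟨0,[(3,0)]⟩),(.r (-1) ⟨11,[(13,
  3),(2,7),(5,6),(0,0)]⟩ ⟨0,[(1,0),(3,0),(19,0)]⟩),.k,.k,⟨false,1,⟨3,[(0,1),(6,1),(3,1),(3,1),(4,1),
  (1,0),(19,0)]⟩,⟨0,[(1,0),(3,0),(19,0)]⟩⟩,⟨true,0,⟨3,[(11,1),(12,1),(5,0),(0,0)]⟩,⟨0,[(19,0),(5,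
  0)]⟩⟩,⟨true,0,⟨0,[]⟩,⟨0,[(45,0)]⟩⟩,⟨false,0,⟨1,[(1,1),(3,0),(5,0),(6,0),(22,1)]⟩,⟨1,[(15,1),(6,0),
  (2,1),(17,0)]⟩⟩,⟨false,1,⟨7,[(8,1),(7,1),(5,0),(0,0),(18,2),(0,2)]⟩,⟨0,[(41,0)]⟩⟩,⟨false,0,⟨1,[(1,
  1),(3,0),(5,0),(6,0)]⟩,⟨1,[(22,0),(2,1),(2,1),(14,0)]⟩⟩,[.o ⟨false,0,⟨1,[(4,1),(0,0),(5,0),(6,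
  0)]⟩,⟨1,[(20,1),(14,0),(7,0)]⟩⟩,.o ⟨false,1,⟨31,[(0,17),(7,1),(2,9),(11,8),(2,11),(8,4),(3,23)]⟩,
  ⟨0,[(15,0)]⟩⟩,.a ⟨true,0,⟨0,[(25,0)]⟩,⟨1,[(24,0),(8,0),(0,0)]⟩⟩ ⟨false,1,⟨1,[(22,0),(20,0)]⟩,⟨2,
  [(1,1),(1,0),(21,1),(12,0),(2,0)]⟩⟩ ⟨true,0,⟨1,[(4,0),(0,0),(5,0),(6,0),(5,0),(16,0)]⟩,⟨0,[(15,0),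
  (9,0)]⟩⟩,.o ⟨false,0,⟨4,[(4,1),(2,0),(0,0),(1,1),(14,4),(1,0),(2,0)]⟩,⟨7,[(22,0),(0,0),(0,3),(10,
  1),(6,3)]⟩⟩]⟩)) (.K ⟨2,[0,0,0,1],0,0,(⟨0,[(24,0)]⟩,⟨1,[(23,0),(8,0),(0,0)]⟩),.k,(.r (-1) ⟨1,[(22,
  0),(17,1),(0,0)]⟩ ⟨3,[(0,3),(2,1),(1,2),(17,1),(14,0)]⟩),(.r 0 ⟨0,[(2,0)]⟩ ⟨5,[(0,1),(2,0),(8,1),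
  (0,1),(7,1),(1,0),(16,0)]⟩),.k,.k,[⟨0,[(18,0),(5,0)]⟩,⟨1,[(20,0),(2,0)]⟩,⟨1,[(24,1),(4,0),(0,0)]⟩,
  ⟨1,[(23,0),(2,0),(2,0)]⟩,⟨0,[(0,0)]⟩,⟨1,[(1,1),(1,1),(0,0),(5,0),(6,0)]⟩]⟩))) (.R ⟨1,false,false,
  false,[1,0,0,-1],[1,-1],[1,0,0,0,0,0,0,0,-1],(⟨1,[(21,0),(8,0),(0,0)]⟩,⟨0,[(22,0)]⟩),(⟨0,[(33,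
  0)]⟩,⟨0,[(34,0)]⟩),⟨1,[(6,0),(14,0),(9,0)]⟩,.k,.k,(.x 0 ⟨1,[(6,0),(17,0),(2,0),(3,0)]⟩ ⟨3,[(19,0),
  (0,0),(13,3),(4,1)]⟩),(.r 0 ⟨2,[(0,2),(4,0),(7,1),(12,0),(0,0)]⟩ ⟨0,[(0,0),(19,0)]⟩),.k,.k,⟨false,
  0,⟨3,[(0,3),(2,0),(1,0),(7,0),(23,1)]⟩,⟨0,[(0,0),(19,0)]⟩⟩,⟨true,0,⟨1,[(21,0),(2,0),(2,0)]⟩,⟨0,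
  [(22,0)]⟩⟩,⟨true,0,⟨0,[]⟩,⟨0,[(42,0)]⟩⟩,⟨false,1,⟨1,[(1,0),(18,0),(0,0),(16,0),(1,0)]⟩,⟨3,[(0,3),
  (2,0),(1,0),(7,0),(8,3),(14,1)]⟩⟩,⟨false,1,⟨7,[(5,1),(7,1),(5,0),(0,0),(18,2),(0,2)]⟩,⟨0,[(38,
  0)]⟩⟩,⟨false,1,⟨7,[(1,3),(1,1),(16,3),(0,3),(17,0),(0,2)]⟩,⟨5,[(0,5),(4,0),(7,1),(8,5),(3,0),(0,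
  0)]⟩⟩,[.o ⟨false,0,⟨0,[(1,0)]⟩,⟨19,[(5,3),(7,3),(5,6),(0,6),(16,3),(1,5)]⟩⟩,.o ⟨false,1,⟨0,[(7,0),
  (32,0)]⟩,⟨0,[(37,0)]⟩⟩,.a ⟨true,0,⟨0,[(22,0)]⟩,⟨1,[(21,0),(8,0),(0,0)]⟩⟩ ⟨false,0,⟨1,[(0,1),(2,0),
  (32,0)]⟩,⟨3,[(19,0),(0,2)]⟩⟩ ⟨true,0,⟨1,[(1,0),(19,0),(16,0)]⟩,⟨0,[(22,0),(14,0)]⟩⟩,.o ⟨false,0,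
  ⟨4,[(1,1),(2,0),(0,0),(1,1),(14,4),(1,0),(2,0)]⟩,⟨7,[(19,0),(0,0),(0,3),(10,1),(6,3)]⟩⟩]⟩))) (.Q
  [0,0,0,1,0,0,-1,-1,0,0,1] (.p true [0,0,1] [] (⟨0,[(29,0)]⟩,⟨0,[(28,0)]⟩) .k 0 (⟨0,[]⟩,⟨0,[]⟩) .k
  .k) (.R ⟨1,false,false,true,[1,0,-1],[1,-1],[1,0,0,0,0,0,0,-1],(⟨0,[(29,0)]⟩,⟨0,[(30,0)]⟩),(⟨0,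
  [(32,0)]⟩,⟨0,[(33,0)]⟩),⟨0,[(13,0)]⟩,.k,.k,.k,.k,.k,.k,⟨true,0,⟨1,[(4,0),(23,0),(6,0)]⟩,⟨0,[(1,0),
  (32,0),(2,1)]⟩⟩,⟨false,0,⟨0,[(15,0)]⟩,⟨0,[(0,0),(8,0)]⟩⟩,⟨true,0,⟨0,[]⟩,⟨0,[(41,0)]⟩⟩,⟨true,0,⟨0,
  [(24,0),(12,0)]⟩,⟨0,[(0,0)]⟩⟩,⟨false,1,⟨7,[(4,1),(7,1),(5,0),(0,0),(18,2),(0,2)]⟩,⟨0,[(37,0)]⟩⟩,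
  ⟨true,0,⟨0,[(24,0)]⟩,⟨0,[(0,0),(36,0)]⟩⟩,[.o ⟨false,0,⟨0,[(6,0)]⟩,⟨7,[(4,1),(7,1),(5,0),(0,0),(18,
  2),(0,2)]⟩⟩,.a ⟨true,0,⟨0,[(37,0)]⟩,⟨1,[(1,0),(12,0),(14,0),(0,0),(3,0)]⟩⟩ ⟨false,1,⟨5,[(4,1),(5,
  3),(7,0),(0,0)]⟩,⟨0,[(1,0),(32,0),(2,0)]⟩⟩ ⟨true,0,⟨0,[(15,0),(21,0)]⟩,⟨4,[(0,0),(6,1),(4,0),(1,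
  0),(1,0),(10,0)]⟩⟩,.o ⟨false,1,⟨3,[(7,1),(10,0),(0,0),(11,0),(6,0)]⟩,⟨0,[(15,0)]⟩⟩,.o ⟨false,0,⟨0,
  [(23,0)]⟩,⟨7,[(17,3),(0,0),(0,0),(11,1),(6,3)]⟩⟩]⟩) (.Q [0,0,0,0,0,-1,0,0,0,0,1] (.ed false [1,-1,
  1] .k) (.R ⟨1,false,false,false,[0,0,1],[1,-1],[1,1,0,0,0,0,0,1],(⟨0,[(31,0)]⟩,⟨0,[(30,0)]⟩),(⟨0,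
  [(33,0)]⟩,⟨0,[(34,0)]⟩),⟨0,[(0,0)]⟩,.k,.k,.k,.k,.k,.k,⟨false,0,⟨0,[(2,0),(32,0)]⟩,⟨1,[(11,1),(15,
  0),(0,0)]⟩⟩,⟨true,0,⟨0,[(24,0)]⟩,⟨1,[(18,0),(11,0),(0,0)]⟩⟩,⟨false,0,⟨0,[]⟩,⟨3,[(19,0),(0,0),(19,
  1)]⟩⟩,⟨false,1,⟨0,[(8,0),(2,0),(15,0)]⟩,⟨0,[(1,0),(0,0),(12,0),(19,0)]⟩⟩,⟨true,0,⟨0,[(37,0)]⟩,⟨0,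
  [(38,0)]⟩⟩,⟨false,1,⟨0,[(23,0),(16,0)]⟩,⟨1,[(1,1),(0,0),(12,0),(14,0),(0,0),(3,0)]⟩⟩,[.a ⟨true,0,
  ⟨0,[(38,0)]⟩,⟨1,[(2,0),(12,0),(14,0),(0,0),(3,0)]⟩⟩ ⟨true,0,⟨3,[(1,1),(0,1),(5,0),(21,0),(0,0),(3,
  2)]⟩,⟨0,[(29,0),(6,0)]⟩⟩ ⟨false,1,⟨11,[(7,3),(0,5),(1,3),(0,3),(20,0),(6,2)]⟩,⟨3,[(12,0),(2,1),(1,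
  0),(0,0)]⟩⟩,.o ⟨false,1,⟨0,[(7,0),(32,0)]⟩,⟨0,[(37,0)]⟩⟩,.o ⟨false,0,⟨0,[(16,0)]⟩,⟨3,[(8,1),(10,
  0),(0,0),(11,0),(6,0)]⟩⟩,.o ⟨false,0,⟨0,[(27,0)]⟩,⟨3,[(8,1),(23,0),(6,2)]⟩⟩]⟩) (.R ⟨0,false,false,
  false,[0,0,1],[1,-1],[1,0,0,-1],(⟨0,[(31,0)]⟩,⟨0,[(30,0)]⟩),(⟨0,[(33,0)]⟩,⟨0,[(34,0)]⟩),⟨0,[(0,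
  0)]⟩,.k,.k,.k,.k,.k,.k,⟨false,0,⟨0,[]⟩,⟨3,[(19,0),(0,0),(18,1)]⟩⟩,⟨true,0,⟨0,[(24,0)]⟩,⟨1,[(18,0),
  (11,0),(0,0)]⟩⟩,⟨true,0,⟨0,[(29,0),(8,0)]⟩,⟨0,[(2,0),(32,0)]⟩⟩,⟨false,1,⟨0,[(8,0),(2,0),(15,0)]⟩,
  ⟨0,[(1,0),(0,0),(12,0),(19,0)]⟩⟩,⟨false,0,⟨0,[]⟩,⟨0,[]⟩⟩,⟨false,0,⟨0,[]⟩,⟨0,[]⟩⟩,[.a ⟨true,0,⟨0,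
  [(38,0)]⟩,⟨1,[(2,0),(12,0),(14,0),(0,0),(3,0)]⟩⟩ ⟨true,0,⟨0,[(38,0)]⟩,⟨5,[(5,0),(7,1),(12,0),(0,
  0)]⟩⟩ ⟨false,1,⟨11,[(7,3),(0,5),(1,3),(0,3),(20,0),(6,2)]⟩,⟨3,[(12,0),(2,1),(1,0),(0,0)]⟩⟩,.o
  ⟨false,1,⟨0,[(7,0),(32,0)]⟩,⟨0,[(37,0)]⟩⟩,.o ⟨false,0,⟨0,[(16,0)]⟩,⟨3,[(8,1),(10,0),(0,0),(11,0),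
  (6,0)]⟩⟩,.o ⟨false,0,⟨0,[(27,0)]⟩,⟨3,[(8,1),(23,0),(6,2)]⟩⟩]⟩))))) (.I [1,1,0,1,0,0,0,1] (.R ⟨1,
  false,false,true,[1,0,-1],[1,-1],[0,0,0,-1,0,0,0,-1],(⟨0,[(27,0)]⟩,⟨0,[(28,0)]⟩),(⟨0,[(30,0)]⟩,⟨0,
  [(31,0)]⟩),⟨0,[(11,0)]⟩,.k,.k,.k,.k,.k,.k,⟨true,0,⟨0,[(26,0),(6,0)]⟩,⟨0,[(0,0),(34,0)]⟩⟩,⟨false,0,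
  ⟨0,[(13,0)]⟩,⟨0,[(25,0),(10,0)]⟩⟩,⟨true,0,⟨0,[(35,0)]⟩,⟨0,[(34,0)]⟩⟩,⟨true,0,⟨0,[(22,0),(12,0)]⟩,
  ⟨1,[(0,0),(0,0),(0,0),(2,0),(6,0)]⟩⟩,⟨false,1,⟨3,[(16,0),(0,0),(19,1)]⟩,⟨0,[]⟩⟩,⟨true,0,⟨0,[(22,
  0)]⟩,⟨4,[(1,0),(3,1),(6,1),(10,0),(2,0)]⟩⟩,[.o ⟨false,0,⟨0,[(4,0)]⟩,⟨7,[(2,1),(7,1),(5,0),(0,0),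
  (18,2),(0,2)]⟩⟩,.a ⟨true,0,⟨0,[(35,0)]⟩,⟨1,[(0,0),(11,0),(14,0),(0,0)]⟩⟩ ⟨false,1,⟨1,[(8,1),(15,
  0),(0,0)]⟩,⟨0,[(0,0)]⟩⟩ ⟨true,0,⟨0,[(13,0),(21,0)]⟩,⟨8,[(5,4),(4,1),(1,2),(1,1),(8,0)]⟩⟩,.o
  ⟨false,1,⟨3,[(5,1),(10,0),(0,0),(11,0),(6,0)]⟩,⟨0,[(13,0)]⟩⟩,.o ⟨false,0,⟨0,[(21,0)]⟩,⟨7,[(15,3),
  (0,0),(0,0),(11,1),(6,3)]⟩⟩]⟩) (.Q [0,0,0,0,0,0,1,1,0,1,-1] (.p false [0,0,1] [1] (⟨0,[(28,0)]⟩,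
  ⟨0,[(27,0)]⟩) .k 1 (⟨0,[]⟩,⟨0,[]⟩) .k .k) (.I [0,-1,2,1,0,0,0,1] (.R ⟨1,false,false,false,[1,-1,
  -1],[1,-1],[0,0,1],(⟨0,[(13,0)]⟩,⟨0,[(30,0),(2,0)]⟩),(⟨0,[(32,0)]⟩,⟨0,[(33,0)]⟩),⟨0,[(5,0)]⟩,.k,
  .k,(.r (-1) ⟨19,[(2,5),(0,11),(5,3),(0,5),(7,4),(0,4)]⟩ ⟨0,[(12,0)]⟩),.k,.k,.k,⟨false,0,⟨5,[(4,0),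
  (7,1),(12,0),(0,0)]⟩,⟨4,[(3,0),(5,1),(0,0),(27,1)]⟩⟩,⟨true,0,⟨0,[(15,0)]⟩,⟨0,[(27,0)]⟩⟩,⟨false,0,
  ⟨0,[(0,0)]⟩,⟨63,[(3,7),(6,47),(6,3),(0,6),(0,6),(5,7),(5,1),(2,15)]⟩⟩,⟨false,1,⟨1,[(1,1),(29,0),
  (7,0)]⟩,⟨11,[(2,0),(0,1),(3,3),(6,4),(7,0),(2,2)]⟩⟩,⟨true,0,⟨0,[(12,0)]⟩,⟨0,[(3,0)]⟩⟩,⟨false,1,⟨0,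
  [(11,0),(27,0)]⟩,⟨7,[(2,2),(0,2),(3,0),(6,0),(10,0),(1,4)]⟩⟩,[.a ⟨true,0,⟨0,[(37,0)]⟩,⟨2,[(1,1),
  (1,0),(3,1),(3,1),(2,2)]⟩⟩ ⟨true,0,⟨1,[(26,0),(0,0)]⟩,⟨0,[]⟩⟩ ⟨false,1,⟨0,[(10,0),(13,0)]⟩,⟨8,[(7,
  4),(4,1),(1,2),(1,1),(8,0)]⟩⟩,.o ⟨false,1,⟨0,[(6,0),(32,0)]⟩,⟨0,[(36,0)]⟩⟩,.o ⟨false,0,⟨0,[(23,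
  0)]⟩,⟨7,[(17,3),(0,0),(0,0),(11,1),(6,3)]⟩⟩,.o ⟨false,0,⟨0,[(7,0),(18,0)]⟩,⟨0,[(10,0),(0,0)]⟩⟩]⟩)
  (.R ⟨2,true,false,false,[0,1],[1,0,-1],[0,1,1],(⟨0,[]⟩,⟨0,[]⟩),(⟨0,[(29,0)]⟩,⟨0,[(30,0)]⟩),⟨0,[]⟩,
  .k,.k,.k,.k,.k,.k,⟨false,0,⟨2,[(1,1),(1,0),(3,1),(3,1)]⟩,⟨5,[(4,1),(5,3),(7,0),(0,0)]⟩⟩,⟨true,0,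
  ⟨0,[(23,0)]⟩,⟨7,[(1,3),(0,0),(11,0),(2,2),(7,1)]⟩⟩,⟨false,0,⟨0,[(37,0)]⟩,⟨7,[(4,1),(7,1),(5,0),(0,
  0),(18,2),(0,2)]⟩⟩,⟨true,0,⟨1,[(0,0),(1,0),(20,1)]⟩,⟨0,[(16,0)]⟩⟩,⟨true,0,⟨0,[(41,0)]⟩,⟨0,[]⟩⟩,
  ⟨false,1,⟨0,[(22,0),(16,0)]⟩,⟨0,[(1,0)]⟩⟩,[]⟩)) (.Q [0,0,0,1,0,0,0,0,0,1] (.pp false [-1,1]) (.I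
  [0,0,-1,-1,0,0,0,-1] (.R ⟨1,false,false,true,[1,0,-1],[0,1],[0,1,0,-1,0,0,0,-1],(⟨0,[(30,0)]⟩,⟨0,
  [(31,0)]⟩),(⟨0,[(34,0)]⟩,⟨0,[(33,0)]⟩),⟨0,[(14,0)]⟩,.k,.k,.k,.k,(.r (-1) ⟨19,[(3,5),(0,11),(5,3),
  (0,5),(7,4),(0,4)]⟩ ⟨0,[(13,0)]⟩),.k,⟨true,0,⟨1,[(3,0),(0,0),(33,0)]⟩,⟨0,[(13,0)]⟩⟩,⟨false,1,⟨0,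
  [(11,0),(5,0)]⟩,⟨0,[(24,0)]⟩⟩,⟨false,0,⟨0,[(38,0)]⟩,⟨7,[(5,1),(7,1),(5,0),(0,0),(18,2),(0,2)]⟩⟩,
  ⟨true,0,⟨0,[(17,0)]⟩,⟨6,[(2,2),(0,2),(0,0),(2,1),(0,1)]⟩⟩,⟨true,0,⟨0,[(42,0)]⟩,⟨0,[]⟩⟩,⟨true,0,⟨0,
  [(1,0),(10,0)]⟩,⟨3,[(3,2),(0,0),(2,1),(0,1),(29,0)]⟩⟩,[.o ⟨false,0,⟨0,[(37,0)]⟩,⟨0,[(7,0),(32,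
  0)]⟩⟩,.a ⟨true,0,⟨0,[(1,0)]⟩,⟨0,[(38,0)]⟩⟩ ⟨false,0,⟨0,[(0,0)]⟩,⟨11,[(10,3),(2,7),(5,0),(0,0),(18,
  5)]⟩⟩ ⟨true,0,⟨3,[(12,0),(2,1),(1,0),(0,0)]⟩,⟨1,[(7,0),(0,0),(27,0),(1,0)]⟩⟩,.o ⟨false,1,⟨3,[(8,
  1),(10,0),(0,0),(11,0),(6,0)]⟩,⟨0,[(16,0)]⟩⟩,.o ⟨false,0,⟨0,[(24,0)]⟩,⟨7,[(18,3),(0,0),(0,0),(11,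
  1),(6,3)]⟩⟩]⟩) (.R ⟨1,false,false,true,[1,0,-1],[1,-1],[1,0,0,0,0,0,0,-1],(⟨0,[(30,0)]⟩,⟨0,[(31,
  0)]⟩),(⟨0,[(33,0)]⟩,⟨0,[(34,0)]⟩),⟨0,[(14,0)]⟩,.k,.k,.k,.k,.k,.k,⟨true,0,⟨5,[(3,1),(1,3),(21,0),
  (0,0)]⟩,⟨0,[(0,1),(3,0),(33,0)]⟩⟩,⟨false,0,⟨0,[(16,0)]⟩,⟨19,[(1,3),(6,7),(1,7),(4,3),(3,0),(0,0),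
  (5,3),(12,9)]⟩⟩,⟨true,0,⟨0,[]⟩,⟨0,[(42,0)]⟩⟩,⟨true,0,⟨0,[(25,0),(12,0)]⟩,⟨0,[(1,0),(0,0)]⟩⟩,
  ⟨false,1,⟨7,[(5,1),(7,1),(5,0),(0,0),(18,2),(0,2)]⟩,⟨0,[(38,0)]⟩⟩,⟨true,0,⟨0,[(25,0)]⟩,⟨12,[(2,0),
  (0,0),(0,1),(3,3),(6,4),(10,3)]⟩⟩,[.o ⟨false,0,⟨0,[(7,0)]⟩,⟨7,[(5,1),(7,1),(5,0),(0,0),(18,2),(0,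
  2)]⟩⟩,.a ⟨true,0,⟨0,[(38,0)]⟩,⟨0,[(1,0)]⟩⟩ ⟨false,1,⟨5,[(5,1),(5,3),(7,0),(0,0)]⟩,⟨0,[(0,1),(3,
  0)]⟩⟩ ⟨true,0,⟨0,[(3,0),(21,0)]⟩,⟨6,[(1,1),(6,2),(4,1),(1,0),(10,0)]⟩⟩,.o ⟨false,1,⟨3,[(8,1),(10,
  0),(0,0),(11,0),(6,0)]⟩,⟨0,[(16,0)]⟩⟩,.o ⟨false,0,⟨0,[(24,0)]⟩,⟨7,[(18,3),(0,0),(0,0),(11,1),(6,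
  3)]⟩⟩]⟩)) (.Q [0,-1,0,-2,0,0,-1,-1,0,-1,1] (.p true [0,0,1] [1] (⟨0,[(30,0)]⟩,⟨0,[(29,0)]⟩) .k 1
  (⟨0,[]⟩,⟨0,[]⟩) .k .k) (.R ⟨1,true,false,true,[1,0,-1],[0,1],[1,1,0,0,0,0,0,-1],(⟨0,[(30,0)]⟩,⟨0,
  [(31,0)]⟩),(⟨0,[(34,0)]⟩,⟨0,[(33,0)]⟩),⟨0,[(14,0)]⟩,.k,.k,.k,.k,(.r (-1) ⟨19,[(3,5),(0,11),(5,3),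
  (0,5),(7,4),(0,4)]⟩ ⟨0,[(13,0)]⟩),.k,⟨true,0,⟨1,[(1,0),(2,0),(10,0)]⟩,⟨1,[(13,0),(11,0),(2,0),(7,
  0)]⟩⟩,⟨false,1,⟨0,[(11,0),(5,0)]⟩,⟨0,[(24,0)]⟩⟩,⟨false,0,⟨0,[]⟩,⟨3,[(19,0),(0,0),(19,1)]⟩⟩,⟨true,
  0,⟨0,[(17,0)]⟩,⟨1,[(0,0),(22,0)]⟩⟩,⟨true,0,⟨0,[(37,0)]⟩,⟨0,[(38,0)]⟩⟩,⟨false,1,⟨7,[(5,1),(7,1),(3,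
  7),(1,0),(0,0),(18,2),(0,2)]⟩,⟨0,[(0,0)]⟩⟩,[]⟩) (.Q [0,-1,0,-2,0,0,0,0,-1,-1,0,1] (.p true [0,0,0,
  1] [1] (⟨0,[(22,0)]⟩,⟨1,[(21,0),(8,0),(0,0)]⟩) .k 1 (⟨0,[]⟩,⟨0,[]⟩) .k .k) (.I [0,-1,1,0,0,0,0,-1,
  1] (.R ⟨1,false,false,false,[1,0,0,-1],[1,0,-1],[1,1,0,0,0,0,0,0,-1],(⟨1,[(23,0),(8,0),(0,0)]⟩,⟨0,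
  [(24,0)]⟩),(⟨0,[(32,0)]⟩,⟨0,[(33,0)]⟩),⟨1,[(8,0),(14,0),(9,0)]⟩,.k,.k,(.x 0 ⟨1,[(8,0),(17,0),(2,
  0),(3,0)]⟩ ⟨3,[(21,0),(0,0),(13,3),(4,1)]⟩),.k,(.r (-1) ⟨37,[(1,23),(0,19),(3,3),(3,9),(1,21),(8,
  6),(1,11),(8,1),(0,1),(7,8)]⟩ ⟨0,[(0,0),(38,0)]⟩),.k,⟨true,0,⟨1,[(1,1),(0,1),(7,0),(12,0),(13,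
  0)]⟩,⟨0,[(0,0)]⟩⟩,⟨false,1,⟨7,[(10,3),(10,0),(0,0),(0,3),(17,5)]⟩,⟨0,[(18,0),(5,0)]⟩⟩,⟨false,0,⟨0,
  []⟩,⟨3,[(21,0),(0,0),(19,1)]⟩⟩,⟨false,1,⟨21,[(0,1),(3,9),(5,3),(2,2),(3,2),(4,9),(0,10),(4,3),(13,
  8)]⟩,⟨0,[(1,0),(0,0)]⟩⟩,⟨true,0,⟨0,[(39,0)]⟩,⟨0,[(40,0)]⟩⟩,⟨false,1,⟨3,[(0,1),(6,1),(2,1),(11,0),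
  (0,1),(17,2)]⟩,⟨0,[(1,0),(17,0)]⟩⟩,[.o ⟨false,0,⟨0,[(4,0)]⟩,⟨23,[(12,15),(2,7),(4,11),(0,0),(0,0),
  (11,5)]⟩⟩,.o ⟨false,1,⟨3,[(4,3),(16,0),(0,0),(19,1)]⟩,⟨0,[(27,0)]⟩⟩,.a ⟨true,0,⟨0,[(24,0)]⟩,⟨1,
  [(23,0),(8,0),(0,0)]⟩⟩ ⟨false,0,⟨5,[(1,5),(0,3),(1,1),(5,0),(6,1),(5,2),(13,0),(1,1)]⟩,⟨1,[(22,0),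
  (19,0)]⟩⟩ ⟨true,0,⟨25,[(4,13),(0,0),(0,1),(3,3),(6,4),(5,12),(4,3)]⟩,⟨0,[(24,0),(2,0)]⟩⟩,.o
  ⟨false,0,⟨8,[(0,0),(0,0),(1,3),(3,1),(1,3),(5,2),(8,7)]⟩,⟨7,[(21,0),(0,0),(0,3),(10,1),(6,
  3)]⟩⟩]⟩) (.R ⟨1,false,false,true,[1,0,0,-1],[0,0,1],[1,0,0,0,0,0,0,0,-1],(⟨1,[(23,0),(8,0),(0,
  0)]⟩,⟨0,[(24,0)]⟩),(⟨0,[(33,0)]⟩,⟨0,[(32,0)]⟩),⟨1,[(8,0),(14,0),(9,0)]⟩,.k,.k,(.r 0 ⟨0,[(0,0),(4,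
  0)]⟩ ⟨11,[(7,1),(7,3),(5,2),(0,8),(5,1),(0,1)]⟩),.k,(.r 0 ⟨12,[(0,6),(0,5),(4,3),(0,1),(9,2),(5,
  2),(7,10)]⟩ ⟨11,[(12,3),(2,7),(5,0),(0,6)]⟩),.k,⟨false,0,⟨0,[(0,0),(2,1),(13,1)]⟩,⟨3,[(9,0),(2,1),
  (2,0),(3,0),(2,1),(7,0),(6,0)]⟩⟩,⟨true,0,⟨1,[(20,0),(2,0)]⟩,⟨0,[(24,0),(1,0)]⟩⟩,⟨true,0,⟨0,[]⟩,⟨0,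
  [(44,0)]⟩⟩,⟨false,1,⟨5,[(12,1),(6,1),(0,0),(1,2),(0,2),(3,1),(10,1),(3,0)]⟩,⟨2,[(0,1),(0,0),(1,2),
  (0,0),(2,0),(2,0),(6,2),(6,1)]⟩⟩,⟨false,1,⟨7,[(7,1),(7,1),(5,0),(0,0),(18,2),(0,2)]⟩,⟨0,[(40,
  0)]⟩⟩,⟨false,1,⟨1,[(14,0),(4,0),(2,0),(0,0),(18,0)]⟩,⟨23,[(0,4),(0,18),(2,12),(2,0),(2,3),(6,11),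
  (6,4),(3,2)]⟩⟩,[.o ⟨false,0,⟨0,[(27,0)]⟩,⟨3,[(4,3),(16,0),(0,0),(19,1)]⟩⟩,.o ⟨false,1,⟨23,[(12,
  15),(2,7),(4,11),(0,0),(0,0),(11,5)]⟩,⟨0,[(4,0)]⟩⟩,.a ⟨true,0,⟨0,[(24,0)]⟩,⟨1,[(23,0),(8,0),(0,
  0)]⟩⟩ ⟨false,0,⟨0,[(0,0),(2,0),(13,0),(20,0)]⟩,⟨3,[(21,0),(0,2)]⟩⟩ ⟨true,0,⟨1,[(19,0),(3,0),(3,0),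
  (12,0)]⟩,⟨0,[(4,0),(19,0)]⟩⟩,.o ⟨false,0,⟨4,[(3,2),(3,0),(1,0),(5,0),(8,4),(1,0),(2,0)]⟩,⟨7,[(21,
  0),(0,0),(0,3),(10,1),(6,3)]⟩⟩]⟩)) (.Q [0,-1,0,-1,0,0,0,0,1,0,0,-1] (.p false [0,0,0,1] [] (⟨0,
  [(23,0)]⟩,⟨1,[(22,0),(8,0),(0,0)]⟩) .k 0 (⟨0,[]⟩,⟨0,[]⟩) .k .k) (.R ⟨1,false,false,true,[1,0,0,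
  -1],[0,0,1],[1,0,0,0,0,0,0,0,-1],(⟨1,[(23,0),(8,0),(0,0)]⟩,⟨0,[(24,0)]⟩),(⟨0,[(33,0)]⟩,⟨0,[(32,
  0)]⟩),⟨1,[(8,0),(14,0),(9,0)]⟩,.k,.k,(.r (-1) ⟨9,[(5,0),(0,1),(5,3),(0,0),(7,4)]⟩ ⟨14,[(0,8),(0,
  5),(5,2),(1,3),(5,4),(8,14),(0,1),(3,1)]⟩),.k,(.r (-1) ⟨15,[(5,1),(0,3),(6,5),(7,8),(0,0),(5,3),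
  (0,3)]⟩ ⟨5,[(0,4),(0,0),(0,0),(7,1),(3,2),(0,1),(8,5)]⟩),.k,⟨false,1,⟨1,[(3,1),(13,1),(3,0),(19,
  0)]⟩,⟨1,[(0,1),(9,0),(3,0),(4,0),(4,1),(12,0)]⟩⟩,⟨true,0,⟨1,[(20,0),(2,0)]⟩,⟨0,[(24,0),(1,0)]⟩⟩,
  ⟨true,0,⟨0,[]⟩,⟨0,[(44,0)]⟩⟩,⟨false,0,⟨0,[(0,0),(18,0)]⟩,⟨1,[(4,1),(16,0),(2,1),(17,0)]⟩⟩,⟨false,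
  1,⟨7,[(7,1),(7,1),(5,0),(0,0),(18,2),(0,2)]⟩,⟨0,[(40,0)]⟩⟩,⟨false,0,⟨0,[(0,0),(1,0)]⟩,⟨3,[(5,2),
  (4,1),(2,0),(7,1),(2,3),(9,0)]⟩⟩,[.o ⟨false,0,⟨0,[(27,0)]⟩,⟨3,[(4,3),(16,0),(0,0),(19,1)]⟩⟩,.o
  ⟨false,1,⟨23,[(12,15),(2,7),(4,11),(0,0),(0,0),(11,5)]⟩,⟨0,[(4,0)]⟩⟩,.a ⟨true,0,⟨0,[(24,0)]⟩,⟨1,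
  [(23,0),(8,0),(0,0)]⟩⟩ ⟨false,1,⟨1,[(21,0),(20,0)]⟩,⟨5,[(0,3),(0,1),(2,0),(4,0),(4,0),(9,5)]⟩⟩
  ⟨true,0,⟨1,[(19,0),(3,0),(3,0),(12,0)]⟩,⟨0,[(4,0),(19,0)]⟩⟩,.o ⟨false,0,⟨4,[(3,2),(3,0),(1,0),(5,
  0),(8,4),(1,0),(2,0)]⟩,⟨7,[(21,0),(0,0),(0,3),(10,1),(6,3)]⟩⟩]⟩) (.I [0,0,1,1,0,0,0,0,-1] (.K ⟨2,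
  [0,0,0,1],0,0,(⟨0,[(25,0)]⟩,⟨1,[(24,0),(8,0),(0,0)]⟩),.k,(.r (-1) ⟨9,[(6,0),(0,1),(5,3),(0,0),(8,
  4)]⟩ ⟨0,[(0,0)]⟩),(.r 0 ⟨0,[(2,0),(1,0),(20,0),(13,0)]⟩ ⟨9,[(6,0),(0,1),(5,3),(0,0),(7,4)]⟩),.k,
  .k,[⟨0,[(19,0),(5,0)]⟩,⟨1,[(21,0),(2,0)]⟩,⟨1,[(25,1),(4,0),(0,0)]⟩,⟨1,[(24,0),(2,0),(2,0)]⟩,⟨0,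
  [(1,0),(39,0)]⟩,⟨0,[(2,0),(1,0),(36,0)]⟩]⟩) (.K ⟨2,[0,0,0,1],0,0,(⟨0,[(25,0)]⟩,⟨1,[(24,0),(8,0),
  (0,0)]⟩),.k,(.x 0 ⟨1,[(9,0),(17,0),(2,0),(3,0)]⟩ ⟨3,[(22,0),(0,0),(13,3),(4,1)]⟩),(.r 0 ⟨2,[(0,2),
  (7,0),(7,1),(12,0),(0,0)]⟩ ⟨9,[(6,0),(0,1),(5,3),(0,0),(7,4)]⟩),.k,.k,[⟨0,[(19,0),(5,0)]⟩,⟨1,[(21,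
  0),(2,0)]⟩,⟨1,[(25,1),(4,0),(0,0)]⟩,⟨1,[(24,0),(2,0),(2,0)]⟩,⟨0,[(1,0),(39,0)]⟩,⟨3,[(0,1),(1,1),
  (7,1),(13,0),(2,0),(2,0)]⟩]⟩))))))))))) (.Q [0,1,0,-2,0,0,0,0,0,-1] (.pp true [-1,1]) (.R ⟨2,
  false,false,true,[0,1],[1,-1],[0,1],(⟨0,[]⟩,⟨0,[]⟩),(⟨0,[(27,0)]⟩,⟨0,[(28,0)]⟩),⟨0,[]⟩,.k,.k,.k,
  (.r 0 ⟨4,[(7,3),(1,1),(7,1),(3,1)]⟩ ⟨0,[(32,1),(0,0)]⟩),.k,.k,⟨true,0,⟨4,[(7,1),(1,0),(7,0),(3,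
  0)]⟩,⟨0,[(32,0)]⟩⟩,⟨false,0,⟨0,[(10,0),(7,0)]⟩,⟨2,[(1,1),(2,1),(0,0),(3,0),(19,1)]⟩⟩,⟨false,1,⟨21,
  [(0,1),(3,9),(0,5),(6,1),(0,2),(0,2),(5,3),(11,1)]⟩,⟨0,[(1,0),(8,0),(7,0)]⟩⟩,⟨true,0,⟨0,[(0,0)]⟩,
  ⟨0,[(1,0),(29,0)]⟩⟩,⟨false,1,⟨3,[(13,0),(0,0),(18,1)]⟩,⟨0,[(30,0)]⟩⟩,⟨false,1,⟨3,[(0,1),(12,0),(0,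
  0),(11,0),(7,0)]⟩,⟨0,[(1,0)]⟩⟩,[.e ⟨true,0,⟨0,[(36,0)]⟩,⟨0,[(30,0)]⟩⟩ ⟨true,0,⟨11,[(0,8),(1,0),(4,
  2),(9,1),(2,0),(0,4)]⟩,⟨0,[(1,0)]⟩⟩,.a ⟨true,0,⟨0,[(32,0)]⟩,⟨2,[(1,1),(9,0),(8,0)]⟩⟩ ⟨false,1,⟨3,
  [(13,0),(0,0),(18,1)]⟩,⟨0,[]⟩⟩ ⟨true,0,⟨1,[(0,0),(9,0),(7,0),(11,0)]⟩,⟨2,[(1,1),(9,0),(8,0)]⟩⟩,.o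
  ⟨false,1,⟨3,[(13,0),(0,0),(18,1)]⟩,⟨0,[(10,0),(7,0)]⟩⟩,.e ⟨false,1,⟨3,[(13,0),(0,0),(18,1)]⟩,⟨0,
  [(30,0)]⟩⟩ ⟨false,1,⟨3,[(0,1),(12,0),(0,0),(11,0),(7,0)]⟩,⟨0,[(1,0)]⟩⟩]⟩) (.I [1,1,0,1,0,0,0,1]
  (.R ⟨1,false,false,true,[1,0,-1],[1,-1],[0,0,0,-1,0,0,0,-1],(⟨0,[(25,0)]⟩,⟨0,[(26,0)]⟩),(⟨0,[(28,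
  0)]⟩,⟨0,[(29,0)]⟩),⟨0,[(9,0)]⟩,.k,.k,.k,.k,.k,.k,⟨true,0,⟨0,[(24,0),(6,0)]⟩,⟨0,[(0,0),(32,0)]⟩⟩,
  ⟨false,0,⟨0,[(11,0)]⟩,⟨11,[(2,3),(0,3),(1,3),(8,0),(0,0),(5,3),(12,5)]⟩⟩,⟨true,0,⟨0,[(33,0)]⟩,⟨0,
  [(32,0)]⟩⟩,⟨true,0,⟨0,[(20,0),(12,0)]⟩,⟨0,[(2,0),(15,0)]⟩⟩,⟨false,1,⟨3,[(14,0),(0,0),(19,1)]⟩,⟨0,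
  []⟩⟩,⟨true,0,⟨0,[(20,0)]⟩,⟨0,[(2,0),(15,0),(14,0)]⟩⟩,[.e ⟨true,0,⟨0,[(24,0),(8,0)]⟩,⟨0,[(0,0),(30,
  0)]⟩⟩ ⟨true,0,⟨1,[(11,0),(10,0),(7,0),(2,1)]⟩,⟨1,[(1,0),(1,0),(27,0)]⟩⟩,.a ⟨true,0,⟨0,[(33,0)]⟩,
  ⟨2,[(2,1),(9,0),(8,0)]⟩⟩ ⟨false,1,⟨1,[(6,1),(15,0),(0,0)]⟩,⟨0,[(0,0)]⟩⟩ ⟨true,0,⟨0,[(11,0),(21,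
  0)]⟩,⟨3,[(1,0),(1,0),(4,0),(12,0),(1,0)]⟩⟩,.o ⟨false,1,⟨3,[(3,1),(10,0),(0,0),(11,0),(6,0)]⟩,⟨0,
  [(11,0)]⟩⟩,.o ⟨false,0,⟨0,[(19,0)]⟩,⟨7,[(13,3),(0,0),(0,0),(11,1),(6,3)]⟩⟩]⟩) (.R ⟨1,false,false,
  false,[1,0,-1],[0,1],[0,1,0,-1,0,0,0,-1],(⟨0,[(25,0)]⟩,⟨0,[(26,0)]⟩),(⟨0,[(29,0)]⟩,⟨0,[(28,0)]⟩),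
  ⟨0,[(9,0)]⟩,.k,.k,.k,.k,(.r (-1) ⟨7,[(0,1),(5,5),(7,0),(0,0),(14,3),(2,7)]⟩ ⟨0,[(8,0)]⟩),.k,⟨true,
  0,⟨0,[(0,0),(29,0),(2,0)]⟩,⟨1,[(1,0),(1,0),(3,1),(23,2)]⟩⟩,⟨false,1,⟨0,[(6,0),(5,0)]⟩,⟨0,[(19,
  0)]⟩⟩,⟨false,0,⟨0,[(33,0)]⟩,⟨3,[(1,1),(12,0),(0,0),(11,0),(7,0)]⟩⟩,⟨true,0,⟨0,[(2,0),(17,0)]⟩,⟨0,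
  [(18,0),(14,0)]⟩⟩,⟨true,0,⟨0,[(37,0)]⟩,⟨0,[]⟩⟩,⟨true,0,⟨0,[(2,0),(4,0)]⟩,⟨0,[(18,0),(14,1)]⟩⟩,[.a
  ⟨true,0,⟨2,[(2,1),(9,0),(8,0)]⟩,⟨0,[(33,0)]⟩⟩ ⟨false,0,⟨0,[(0,0),(29,0)]⟩,⟨2,[(1,0),(1,0),(1,0),
  (1,1),(27,1)]⟩⟩ ⟨true,0,⟨5,[(1,0),(2,0),(5,0),(1,1),(0,1)]⟩,⟨0,[(19,0),(13,0)]⟩⟩,.e ⟨true,0,⟨3,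
  [(0,2),(20,0),(0,0),(7,0),(2,0)]⟩,⟨1,[(2,0),(0,0),(3,0),(12,0),(10,0)]⟩⟩ ⟨true,0,⟨0,[(2,0),(8,
  0)]⟩,⟨2,[(3,1),(14,0),(1,0),(1,0),(10,2),(3,0)]⟩⟩,.o ⟨false,1,⟨3,[(3,1),(10,0),(0,0),(11,0),(6,
  0)]⟩,⟨0,[(11,0)]⟩⟩,.o ⟨false,0,⟨0,[(19,0)]⟩,⟨7,[(13,3),(0,0),(0,0),(11,1),(6,3)]⟩⟩]⟩))))) (.R ⟨2,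
  true,false,true,[0,1],[0,0,1],[0,0,1],(⟨0,[]⟩,⟨0,[]⟩),(⟨0,[(22,0)]⟩,⟨0,[(21,0)]⟩),⟨0,[]⟩,.k,.k,.k,
  .k,.k,.k,⟨true,0,⟨0,[(20,0),(6,0)]⟩,⟨0,[(0,0),(27,0)]⟩⟩,⟨false,0,⟨0,[(7,0)]⟩,⟨0,[(19,0),(10,0)]⟩⟩,
  ⟨true,0,⟨0,[(29,0)]⟩,⟨0,[(28,0)]⟩⟩,⟨false,0,⟨0,[(0,0),(6,0)]⟩,⟨7,[(4,1),(1,3),(7,3),(2,1),(1,1),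
  (10,2),(0,4)]⟩⟩,⟨false,1,⟨3,[(10,0),(0,0),(19,1)]⟩,⟨0,[]⟩⟩,⟨true,0,⟨0,[(16,0)]⟩,⟨0,[(0,0),(5,0),
  (7,0)]⟩⟩,[]⟩))

theorem ok3 : chk (cU (-1) false 10) t3 l7 = true := by decide +kernel

noncomputable def t4 : Tre :=
  (.Q [0,0,0,1,0,0,0,0,0,1] (.pp false [-1,1]) (.R ⟨1,false,false,true,[1,0,-1],[0,1],[1,1,0,0,0,0,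
  0,-1],(⟨0,[(21,0)]⟩,⟨0,[(22,0)]⟩),(⟨0,[(25,0)]⟩,⟨0,[(24,0)]⟩),⟨0,[(5,0)]⟩,.k,.k,.k,.k,(.r (-1)
  ⟨15,[(2,13),(7,0),(0,0),(5,1),(0,1),(7,5),(2,17)]⟩ ⟨0,[(4,0)]⟩),.k,⟨true,0,⟨0,[(1,0),(27,1),(0,
  0)]⟩,⟨1,[(4,0),(11,0),(2,0),(7,0)]⟩⟩,⟨false,1,⟨0,[(2,0),(5,0)]⟩,⟨0,[(15,0)]⟩⟩,⟨false,0,⟨0,[]⟩,⟨3,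
  [(10,0),(0,0),(19,1)]⟩⟩,⟨true,0,⟨0,[(8,0)]⟩,⟨0,[(1,0),(13,0),(13,1),(0,0)]⟩⟩,⟨true,0,⟨0,[(28,0)]⟩,
  ⟨0,[(29,0)]⟩⟩,⟨true,0,⟨0,[(0,0),(2,0)]⟩,⟨0,[(1,0),(13,0),(13,2),(0,0)]⟩⟩,[.o ⟨false,0,⟨0,[(28,
  0)]⟩,⟨1,[(23,0),(5,1),(1,0)]⟩⟩,.a ⟨true,0,⟨0,[(0,0)]⟩,⟨0,[(29,0)]⟩⟩ ⟨false,0,⟨0,[(1,0),(27,0),(0,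
  0)]⟩,⟨1,[(16,1),(2,1),(10,0),(0,0)]⟩⟩ ⟨true,0,⟨3,[(3,0),(2,1),(1,0),(0,0)]⟩,⟨0,[(15,0),(13,0)]⟩⟩,
  .o ⟨false,1,⟨1,[(19,1),(3,0),(6,0)]⟩,⟨0,[(7,0)]⟩⟩,.o ⟨false,0,⟨0,[(15,0)]⟩,⟨7,[(9,3),(0,0),(0,0),
  (11,1),(6,3)]⟩⟩]⟩) (.Q [0,0,-1,0,0,0,2,0,0,1,-2] (.p false [0,0,1] [1,0,-1] (⟨0,[(22,0)]⟩,⟨0,[(21,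
  0)]⟩) .k 2 (⟨0,[(21,0)]⟩,⟨0,[(22,0)]⟩) .k (.r (-2) ⟨0,[(16,1),(2,1),(10,0),(0,0)]⟩ ⟨0,[(1,1),(27,
  1),(0,0)]⟩)) (.I [0,0,-1,0,0,1,2] (.K ⟨2,[0,1,1],0,0,(⟨0,[(24,0),(2,0)]⟩,⟨0,[(7,0)]⟩),.k,.k,(.r 0
  ⟨0,[(6,0)]⟩ ⟨15,[(4,13),(7,0),(0,0),(5,1),(0,1),(7,5),(2,17)]⟩),.k,(.x 0 ⟨0,[(0,0)]⟩ ⟨1,[(7,1),(9,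
  1),(3,1),(1,1),(1,0),(6,0)]⟩),[⟨1,[(20,0),(0,0)]⟩,⟨0,[(1,0)]⟩,⟨1,[(20,0),(0,2)]⟩,⟨0,[(9,0)]⟩,⟨0,
  [(19,0),(11,0)]⟩,⟨0,[(5,0)]⟩]⟩) (.K ⟨2,[0,1,1],0,0,(⟨0,[(24,0),(2,0)]⟩,⟨0,[(7,0)]⟩),.k,.k,(.r 0
  ⟨0,[(6,0)]⟩ ⟨15,[(4,13),(7,0),(0,0),(5,1),(0,1),(7,5),(2,17)]⟩),.k,(.r (-1) ⟨0,[(0,0),(4,0),(12,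
  0),(5,1),(2,0),(5,0)]⟩ ⟨2,[(1,0),(1,1),(0,1),(11,0),(2,0),(11,2)]⟩),[⟨1,[(20,0),(0,0)]⟩,⟨0,[(1,
  0)]⟩,⟨1,[(20,0),(0,2)]⟩,⟨0,[(9,0)]⟩,⟨0,[(19,0),(11,0)]⟩,⟨0,[(5,0)]⟩]⟩)) (.Q [0,0,0,1,0,0,1,1,-1,0,
  -1,1] (.p false [0,0,1] [0,0,0,1] (⟨0,[(23,0)]⟩,⟨0,[(22,0)]⟩) .k 2 (⟨0,[(14,0)]⟩,⟨1,[(13,0),(8,0),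
  (0,0)]⟩) .k (.x 0 ⟨0,[(8,0),(14,0)]⟩ ⟨3,[(0,1),(10,0),(0,0),(9,3),(1,0),(6,0)]⟩)) (.Q [0,0,0,0,0,
  1,0,0,0,0,0,-1] (.p false [0,0,0,1] [] (⟨0,[(15,0)]⟩,⟨1,[(14,0),(8,0),(0,0)]⟩) .k 0 (⟨0,[]⟩,⟨0,
  []⟩) .k .k) (.R ⟨0,false,false,true,[0,0,0,1],[0,1],[1,1,1,1],(⟨0,[(16,0)]⟩,⟨1,[(15,0),(8,0),(0,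
  0)]⟩),(⟨0,[(28,0)]⟩,⟨0,[(27,0)]⟩),⟨0,[(0,0)]⟩,.k,.k,(.r (-1) ⟨1,[(14,0),(17,1),(0,0)]⟩ ⟨19,[(1,3),
  (0,1),(1,7),(2,3),(5,7),(1,1),(5,0),(0,0)]⟩),(.r (-1) ⟨1,[(14,0),(17,1),(0,0)]⟩ ⟨19,[(1,3),(0,1),
  (1,7),(2,3),(5,7),(1,1),(5,0),(0,0)]⟩),.k,.k,⟨true,0,⟨0,[]⟩,⟨1,[(21,0),(0,0)]⟩⟩,⟨false,1,⟨0,[(16,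
  0),(16,0)]⟩,⟨1,[(15,0),(2,0),(2,0)]⟩⟩,⟨true,(-1),⟨1,[(1,1),(0,0),(1,1),(10,0),(13,0),(2,1)]⟩,⟨1,
  [(14,0),(17,1),(0,0)]⟩⟩,⟨false,0,⟨4,[(1,4),(0,1),(1,0),(0,0),(3,1),(10,0),(8,0),(2,1)]⟩,⟨1,[(3,0),
  (10,0),(0,0),(16,0),(1,0)]⟩⟩,⟨false,0,⟨0,[]⟩,⟨0,[]⟩⟩,⟨false,0,⟨0,[]⟩,⟨0,[]⟩⟩,[.o ⟨false,0,⟨0,[(31,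
  0)]⟩,⟨1,[(26,0),(5,1),(1,0)]⟩⟩,.o ⟨false,1,⟨15,[(7,3),(1,3),(3,4),(0,4),(11,1),(4,3),(1,3)]⟩,⟨0,
  [(3,0)]⟩⟩,.a ⟨true,0,⟨1,[(15,0),(8,0),(0,0)]⟩,⟨0,[(16,0)]⟩⟩ ⟨false,0,⟨4,[(7,1),(1,0),(7,0),(3,
  0)]⟩,⟨1,[(32,1),(0,0),(0,0)]⟩⟩ ⟨true,0,⟨0,[(16,0),(14,0)]⟩,⟨1,[(3,0),(11,0),(16,0)]⟩⟩,.o ⟨false,0,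
  ⟨1,[(15,0),(2,0),(2,0)]⟩,⟨1,[(16,1),(9,0),(6,0)]⟩⟩]⟩) (.R ⟨1,false,false,true,[0,0,0,1],[0,0,1],
  [1,0,0,0,0,0,0,0,1],(⟨0,[(16,0)]⟩,⟨1,[(15,0),(8,0),(0,0)]⟩),(⟨0,[(25,0)]⟩,⟨0,[(24,0)]⟩),⟨0,[(0,
  0)]⟩,.k,.k,(.r (-1) ⟨1,[(14,0),(17,1),(0,0)]⟩ ⟨19,[(1,3),(0,1),(1,7),(2,3),(5,7),(1,1),(5,0),(0,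
  0)]⟩),.k,(.r (-1) ⟨3,[(5,1),(6,0),(1,1),(2,0),(2,0),(11,1)]⟩ ⟨3,[(1,3),(0,1),(12,1),(5,0),(0,
  0)]⟩),.k,⟨false,1,⟨3,[(4,1),(0,1),(8,1),(18,0),(0,0)]⟩,⟨1,[(1,1),(0,0),(12,0),(13,0),(2,1)]⟩⟩,
  ⟨true,0,⟨0,[(10,0),(5,0)]⟩,⟨3,[(2,1),(12,1),(5,0),(0,0)]⟩⟩,⟨true,0,⟨0,[]⟩,⟨0,[(36,0)]⟩⟩,⟨false,0,
  ⟨0,[(1,0),(30,0)]⟩,⟨9,[(2,3),(1,1),(0,2),(3,0),(4,4),(0,4),(1,1),(5,1),(10,3)]⟩⟩,⟨false,1,⟨11,[(7,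
  3),(1,3),(3,0),(0,0),(11,1),(6,3),(0,3)]⟩,⟨0,[(32,0)]⟩⟩,⟨false,0,⟨0,[(1,0)]⟩,⟨1,[(2,0),(2,0),(8,
  0),(0,0),(7,0),(6,0),(1,0)]⟩⟩,[.o ⟨false,0,⟨0,[(19,0)]⟩,⟨0,[(17,0),(16,0)]⟩⟩,.o ⟨false,1,⟨3,[(13,
  0),(0,0),(4,3),(14,1)]⟩,⟨15,[(2,5),(0,3),(0,7),(0,3),(11,3),(8,0),(6,2)]⟩⟩,.a ⟨true,0,⟨1,[(15,0),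
  (8,0),(0,0)]⟩,⟨0,[(16,0)]⟩⟩ ⟨false,1,⟨1,[(14,0),(19,0)]⟩,⟨17,[(1,13),(0,6),(1,7),(0,5),(7,1),(1,
  6),(13,2),(2,15)]⟩⟩ ⟨true,0,⟨0,[(16,0),(2,0)]⟩,⟨5,[(2,1),(1,1),(0,1),(9,2),(1,0),(2,0)]⟩⟩,.o
  ⟨false,0,⟨1,[(15,0),(2,0),(2,0)]⟩,⟨1,[(16,1),(9,0),(6,0)]⟩⟩]⟩)) (.I [0,0,1,1,0,0,0,0,-1] (.Q [0,1,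
  0,0,0,0,0,0,-1,0,0,1] (.p true [0,0,0,1] [] (⟨0,[(16,0)]⟩,⟨1,[(15,0),(8,0),(0,0)]⟩) .k 0 (⟨0,[]⟩,
  ⟨0,[]⟩) .k .k) (.K ⟨2,[0,0,0,1],0,0,(⟨0,[(17,0)]⟩,⟨1,[(16,0),(8,0),(0,0)]⟩),.k,(.r (-1) ⟨1,[(15,
  0),(17,1),(0,0)]⟩ ⟨0,[(1,0)]⟩),(.x (-1) ⟨3,[(14,0),(0,0),(13,3),(4,1)]⟩ ⟨6,[(4,2),(0,0),(2,0),(10,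
  1),(2,1),(4,0),(0,6)]⟩),.k,.k,[⟨0,[(11,0),(5,0)]⟩,⟨1,[(13,0),(2,0)]⟩,⟨1,[(17,1),(4,0),(0,0)]⟩,⟨1,
  [(16,0),(2,0),(2,0)]⟩,⟨0,[(0,0)]⟩,⟨0,[(2,0),(4,0)]⟩]⟩) (.Q [0,0,0,0,0,1,0,0,0,0,0,-1] (.p false
  [0,0,0,1] [] (⟨0,[(17,0)]⟩,⟨1,[(16,0),(8,0),(0,0)]⟩) .k 0 (⟨0,[]⟩,⟨0,[]⟩) .k .k) (.R ⟨0,false,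
  false,false,[0,0,0,1],[1,-1],[1,0,1],(⟨0,[(18,0)]⟩,⟨1,[(17,0),(8,0),(0,0)]⟩),(⟨0,[(29,0)]⟩,⟨0,
  [(30,0)]⟩),⟨0,[(0,0)]⟩,.k,.k,(.r (-1) ⟨1,[(16,0),(17,1),(0,0)]⟩ ⟨0,[(2,0)]⟩),(.x (-1) ⟨3,[(15,0),
  (0,0),(13,3),(4,1)]⟩ ⟨6,[(5,2),(0,0),(2,0),(10,1),(2,1),(4,0),(0,6)]⟩),.k,.k,⟨false,0,⟨4,[(9,1),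
  (1,0),(7,0),(3,0)]⟩,⟨0,[(34,0),(0,0)]⟩⟩,⟨true,0,⟨6,[(5,2),(0,0),(2,0),(8,6),(1,1),(2,1),(4,0)]⟩,
  ⟨1,[(17,0),(8,0),(0,0)]⟩⟩,⟨true,0,⟨0,[(2,0),(31,0)]⟩,⟨0,[(1,0),(16,0),(12,0)]⟩⟩,⟨false,1,⟨1,[(5,
  1),(9,0),(2,1),(17,0)]⟩,⟨3,[(1,2),(1,0),(0,0),(6,1),(1,2),(17,0)]⟩⟩,⟨false,0,⟨0,[]⟩,⟨0,[]⟩⟩,
  ⟨false,0,⟨0,[]⟩,⟨0,[]⟩⟩,[.o ⟨false,0,⟨0,[(5,0)]⟩,⟨15,[(9,3),(1,3),(3,4),(0,4),(11,1),(4,3),(1,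
  3)]⟩⟩,.o ⟨false,1,⟨1,[(28,0),(5,1),(1,0)]⟩,⟨0,[(33,0)]⟩⟩,.a ⟨true,0,⟨1,[(17,0),(8,0),(0,0)]⟩,⟨0,
  [(18,0)]⟩⟩ ⟨false,0,⟨0,[(32,0)]⟩,⟨3,[(15,0),(0,0),(18,1)]⟩⟩ ⟨true,0,⟨0,[(5,0),(12,0)]⟩,⟨9,[(4,0),
  (6,1),(1,3),(3,4),(4,1),(8,0),(1,3)]⟩⟩,.o ⟨false,0,⟨1,[(17,0),(2,0),(2,0)]⟩,⟨1,[(18,1),(9,0),(6,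
  0)]⟩⟩]⟩) (.R ⟨1,false,false,false,[0,0,0,1],[1,-1],[0,0,0,-1,0,0,0,0,1],(⟨0,[(18,0)]⟩,⟨1,[(17,0),
  (8,0),(0,0)]⟩),(⟨0,[(29,0)]⟩,⟨0,[(30,0)]⟩),⟨0,[(0,0)]⟩,.k,.k,(.r (-1) ⟨1,[(16,0),(17,1),(0,0)]⟩
  ⟨0,[(2,0)]⟩),(.x (-1) ⟨3,[(15,0),(0,0),(13,3),(4,1)]⟩ ⟨6,[(5,2),(0,0),(2,0),(10,1),(2,1),(4,0),(0,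
  6)]⟩),.k,.k,⟨false,0,⟨17,[(1,10),(1,2),(0,0),(1,1),(6,0),(2,1),(1,13),(2,3),(9,2)]⟩,⟨1,[(15,0),
  (19,0)]⟩⟩,⟨true,0,⟨6,[(5,2),(0,0),(2,0),(8,6),(1,1),(2,1),(4,0)]⟩,⟨1,[(17,0),(8,0),(0,0)]⟩⟩,⟨true,
  0,⟨0,[(34,0)]⟩,⟨0,[(33,0)]⟩⟩,⟨false,1,⟨1,[(5,1),(9,0),(2,1),(17,0)]⟩,⟨3,[(1,2),(1,0),(0,0),(6,1),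
  (1,2),(17,0)]⟩⟩,⟨false,1,⟨3,[(15,0),(0,0),(19,1)]⟩,⟨0,[]⟩⟩,⟨false,1,⟨1,[(2,1),(2,1),(12,1),(16,0),
  (0,0)]⟩,⟨1,[(1,0),(1,0),(9,0),(12,0),(0,0)]⟩⟩,[.o ⟨false,0,⟨0,[(5,0)]⟩,⟨15,[(9,3),(1,3),(3,4),(0,
  4),(11,1),(4,3),(1,3)]⟩⟩,.o ⟨false,1,⟨1,[(28,0),(5,1),(1,0)]⟩,⟨0,[(33,0)]⟩⟩,.a ⟨true,0,⟨1,[(17,0),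
  (8,0),(0,0)]⟩,⟨0,[(18,0)]⟩⟩ ⟨false,0,⟨0,[(1,0),(16,0),(15,0)]⟩,⟨15,[(9,3),(1,3),(3,8),(0,0),(11,
  1),(4,3),(1,3)]⟩⟩ ⟨true,0,⟨0,[(5,0),(12,0)]⟩,⟨9,[(4,0),(6,1),(1,3),(3,4),(4,1),(8,0),(1,3)]⟩⟩,.o
  ⟨false,0,⟨1,[(17,0),(2,0),(2,0)]⟩,⟨1,[(18,1),(9,0),(6,0)]⟩⟩]⟩))) (.Q [0,0,0,0,0,1,0,0,0,0,0,-1]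
  (.p false [0,0,0,1] [] (⟨0,[(16,0)]⟩,⟨1,[(15,0),(8,0),(0,0)]⟩) .k 0 (⟨0,[]⟩,⟨0,[]⟩) .k .k) (.R ⟨0,
  false,false,false,[0,0,0,1],[1,-1],[0,0,-1,-1],(⟨0,[(17,0)]⟩,⟨1,[(16,0),(8,0),(0,0)]⟩),(⟨0,[(28,
  0)]⟩,⟨0,[(29,0)]⟩),⟨0,[(0,0)]⟩,.k,.k,(.x 0 ⟨6,[(4,2),(0,0),(2,0),(10,1),(2,1),(4,0),(0,6)]⟩ ⟨3,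
  [(14,0),(0,0),(13,3),(4,1)]⟩),(.r 0 ⟨4,[(1,0),(3,1),(2,1),(6,1)]⟩ ⟨1,[(14,0),(18,1),(0,0)]⟩),.k,
  .k,⟨false,1,⟨3,[(14,0),(0,0),(18,1)]⟩,⟨0,[]⟩⟩,⟨true,0,⟨6,[(4,2),(0,0),(2,0),(8,6),(1,1),(2,1),(4,
  0)]⟩,⟨1,[(16,0),(8,0),(0,0)]⟩⟩,⟨true,1,⟨1,[(14,0),(18,1),(0,0)]⟩,⟨9,[(1,7),(1,4),(1,10),(2,0),(3,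
  4),(2,0),(4,4)]⟩⟩,⟨false,1,⟨1,[(4,1),(9,0),(2,1),(17,0)]⟩,⟨1,[(1,1),(6,0),(1,0),(5,0),(15,0)]⟩⟩,
  ⟨false,0,⟨0,[]⟩,⟨0,[]⟩⟩,⟨false,0,⟨0,[]⟩,⟨0,[]⟩⟩,[.o ⟨false,0,⟨0,[(4,0)]⟩,⟨15,[(8,3),(1,3),(3,4),
  (0,4),(11,1),(4,3),(1,3)]⟩⟩,.o ⟨false,1,⟨1,[(27,0),(5,1),(1,0)]⟩,⟨0,[(32,0)]⟩⟩,.a ⟨true,0,⟨1,[(16,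
  0),(8,0),(0,0)]⟩,⟨0,[(17,0)]⟩⟩ ⟨false,1,⟨1,[(33,1),(0,0),(0,0)]⟩,⟨4,[(8,1),(1,0),(7,0),(3,0)]⟩⟩
  ⟨true,0,⟨0,[(4,0),(12,0)]⟩,⟨9,[(3,0),(6,1),(1,3),(3,4),(4,1),(8,0),(1,3)]⟩⟩,.o ⟨false,0,⟨1,[(16,
  0),(2,0),(2,0)]⟩,⟨1,[(17,1),(9,0),(6,0)]⟩⟩]⟩) (.R ⟨1,false,false,false,[0,0,0,1],[1,0,-1],[1,1,0,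
  0,0,0,0,0,1],(⟨0,[(17,0)]⟩,⟨1,[(16,0),(8,0),(0,0)]⟩),(⟨0,[(25,0)]⟩,⟨0,[(26,0)]⟩),⟨0,[(0,0)]⟩,.k,
  .k,(.x 0 ⟨6,[(4,2),(0,0),(2,0),(10,1),(2,1),(4,0),(0,6)]⟩ ⟨3,[(14,0),(0,0),(13,3),(4,1)]⟩),.k,(.r
  (-1) ⟨7,[(1,5),(1,3),(8,3),(2,0),(4,3),(12,5),(0,2),(0,3)]⟩ ⟨9,[(5,4),(2,0),(1,2),(3,4),(3,2),(3,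
  2)]⟩),.k,⟨true,0,⟨9,[(1,7),(1,4),(1,0),(2,0),(3,4),(2,0),(4,4)]⟩,⟨3,[(5,2),(0,0),(7,1),(16,2),(1,
  1)]⟩⟩,⟨false,1,⟨3,[(3,1),(13,3),(9,0),(6,2)]⟩,⟨1,[(13,0),(2,0)]⟩⟩,⟨false,0,⟨0,[]⟩,⟨3,[(14,0),(0,
  0),(19,1)]⟩⟩,⟨false,1,⟨3,[(3,1),(1,1),(0,1),(7,1),(2,3),(9,0),(7,0)]⟩,⟨1,[(1,1),(5,0),(4,0),(3,0),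
  (14,1)]⟩⟩,⟨true,0,⟨0,[(32,0)]⟩,⟨0,[(33,0)]⟩⟩,⟨false,1,⟨3,[(3,1),(1,3),(8,1),(2,3),(9,0),(6,2),(0,
  1)]⟩,⟨1,[(1,1),(10,0),(3,0),(3,0),(10,1),(1,0)]⟩⟩,[.o ⟨false,0,⟨15,[(3,5),(0,3),(0,7),(0,3),(11,
  3),(8,0),(6,2)]⟩,⟨3,[(14,0),(0,0),(4,3),(14,1)]⟩⟩,.o ⟨false,1,⟨0,[(18,0),(16,0)]⟩,⟨0,[(20,0)]⟩⟩,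
  .a ⟨true,0,⟨1,[(16,0),(8,0),(0,0)]⟩,⟨0,[(17,0)]⟩⟩ ⟨false,0,⟨4,[(1,2),(3,0),(2,0),(6,0)]⟩,⟨1,[(14,
  0),(20,0)]⟩⟩ ⟨true,0,⟨15,[(3,5),(0,3),(0,7),(0,3),(10,15),(0,3),(8,0),(6,2)]⟩,⟨1,[(12,0),(3,0),(3,
  0),(12,0)]⟩⟩,.o ⟨false,0,⟨1,[(16,0),(2,0),(2,0)]⟩,⟨1,[(17,1),(9,0),(6,0)]⟩⟩]⟩))))))

theorem ok4 : chk (cU (-1) false 10) t4 r7 = true := by decide +kernel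

noncomputable def t5 : Tre :=
  .I [1,0,-1,-1,1,0,0,1] t3 t4

theorem ok5 : chk (cU (-1) false 10) t5 l6 = true :=
  chk_I (e' := [0,0,1,1,-1,0,0,-1]) (by decide +kernel) (by decide +kernel) ok3 ok4

noncomputable def t6 : Tre :=
  (.Q [0,0,0,2,0,0,1,1,0,1,-1] (.p false [0,0,1] [1] (⟨0,[(20,0)]⟩,⟨0,[(19,0)]⟩) .k 1 (⟨0,[]⟩,⟨0,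
  []⟩) .k .k) (.R ⟨1,false,false,true,[1,0,-1],[0,1],[1,0,0,0,0,0,0,-1],(⟨0,[(20,0)]⟩,⟨0,[(21,0)]⟩),
  (⟨0,[(24,0)]⟩,⟨0,[(23,0)]⟩),⟨0,[(4,0)]⟩,.k,.k,.k,.k,(.r (-1) ⟨0,[(19,0),(8,1),(0,0)]⟩ ⟨0,[(3,
  0)]⟩),.k,⟨true,1,⟨1,[(19,1),(8,1),(0,0),(0,0)]⟩,⟨0,[(1,0)]⟩⟩,⟨false,1,⟨1,[(8,0),(11,0),(0,0),(7,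
  1)]⟩,⟨0,[(14,0)]⟩⟩,⟨true,0,⟨0,[]⟩,⟨0,[(32,0)]⟩⟩,⟨false,0,⟨0,[(0,0),(27,0)]⟩,⟨0,[(13,0),(14,0),(1,
  0)]⟩⟩,⟨false,1,⟨11,[(3,3),(1,3),(3,0),(0,0),(11,1),(6,3),(0,3)]⟩,⟨0,[(28,0)]⟩⟩,⟨false,0,⟨0,[(0,
  0)]⟩,⟨0,[(13,0),(14,1),(1,0)]⟩⟩,[.o ⟨false,0,⟨0,[(27,0)]⟩,⟨1,[(22,0),(5,1),(1,0)]⟩⟩,.a ⟨true,0,⟨1,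
  [(1,0),(3,0),(14,0),(0,0),(7,0)]⟩,⟨0,[(28,0)]⟩⟩ ⟨false,1,⟨1,[(19,1),(9,0),(0,0)]⟩,⟨0,[(1,0),(26,
  0),(0,0)]⟩⟩ ⟨true,0,⟨5,[(0,0),(4,1),(1,0),(0,1),(18,0)]⟩,⟨0,[(14,0),(13,0)]⟩⟩,.o ⟨false,1,⟨1,[(18,
  1),(3,0),(6,0)]⟩,⟨0,[(6,0)]⟩⟩,.o ⟨false,0,⟨0,[(14,0)]⟩,⟨7,[(8,3),(0,0),(0,0),(11,1),(6,3)]⟩⟩]⟩)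
  (.Q [0,0,0,1,0,0,-1,-1,0,0,1] (.p true [0,0,1] [] (⟨0,[(21,0)]⟩,⟨0,[(20,0)]⟩) .k 0 (⟨0,[]⟩,⟨0,
  []⟩) .k .k) (.R ⟨1,false,false,true,[1,0,-1],[1,-1],[1,0,0,0,0,0,0,-1],(⟨0,[(21,0)]⟩,⟨0,[(22,
  0)]⟩),(⟨0,[(24,0)]⟩,⟨0,[(25,0)]⟩),⟨0,[(5,0)]⟩,.k,.k,.k,.k,.k,.k,⟨true,0,⟨0,[(6,0),(0,0),(7,0)]⟩,
  ⟨0,[(2,0),(26,1),(0,0)]⟩⟩,⟨false,0,⟨0,[(7,0)]⟩,⟨0,[(19,0),(10,0)]⟩⟩,⟨true,0,⟨0,[]⟩,⟨0,[(33,0)]⟩⟩,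
  ⟨true,0,⟨0,[(16,0),(12,0)]⟩,⟨0,[(0,0)]⟩⟩,⟨false,1,⟨11,[(4,3),(1,3),(3,0),(0,0),(11,1),(6,3),(0,
  3)]⟩,⟨0,[(29,0)]⟩⟩,⟨true,0,⟨0,[(16,0)]⟩,⟨2,[(0,1),(0,0),(19,0),(0,0)]⟩⟩,[.o ⟨false,0,⟨0,[(1,0),(1,
  0)]⟩,⟨11,[(4,3),(1,3),(3,0),(0,0),(11,1),(6,3),(0,3)]⟩⟩,.a ⟨true,0,⟨0,[(29,0)]⟩,⟨1,[(2,0),(3,0),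
  (14,0),(0,0),(7,0)]⟩⟩ ⟨false,1,⟨23,[(1,7),(4,15),(2,3),(0,0),(0,0),(11,5),(6,11),(0,3)]⟩,⟨0,[(2,
  0),(26,0),(0,0)]⟩⟩ ⟨true,0,⟨0,[(7,0),(21,0)]⟩,⟨3,[(0,1),(1,1),(16,1),(10,0),(0,0)]⟩⟩,.o ⟨false,1,
  ⟨1,[(19,1),(3,0),(6,0)]⟩,⟨0,[(7,0)]⟩⟩,.o ⟨false,0,⟨0,[(15,0)]⟩,⟨7,[(9,3),(0,0),(0,0),(11,1),(6,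
  3)]⟩⟩]⟩) (.R ⟨2,true,false,true,[0,1],[0,0,1],[0,0,1],(⟨0,[]⟩,⟨0,[]⟩),(⟨0,[(22,0)]⟩,⟨0,[(21,0)]⟩),
  ⟨0,[]⟩,.k,.k,.k,.k,.k,.k,⟨true,0,⟨0,[(20,0),(6,0)]⟩,⟨0,[(2,0),(26,0),(0,0)]⟩⟩,⟨false,0,⟨0,[(7,
  0)]⟩,⟨0,[(19,0),(10,0)]⟩⟩,⟨true,0,⟨0,[(29,0)]⟩,⟨0,[(28,0)]⟩⟩,⟨false,0,⟨0,[(0,0)]⟩,⟨7,[(4,1),(1,3),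
  (7,3),(2,1),(1,1),(10,2),(0,4)]⟩⟩,⟨false,1,⟨3,[(10,0),(0,0),(19,1)]⟩,⟨0,[]⟩⟩,⟨true,0,⟨0,[(16,0)]⟩,
  ⟨0,[(1,0),(0,0),(3,0),(23,0)]⟩⟩,[]⟩)))

theorem ok6 : chk (cU (-1) false 10) t6 r6 = true := by decide +kernel

noncomputable def t7 : Tre :=
  .I [1,-1,-2,-1,1,0,0,-1] t5 t6

theorem ok7 : chk (cU (-1) false 10) t7 r5 = true :=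
  chk_I (e' := [0,1,2,1,-1,0,0,1]) (by decide +kernel) (by decide +kernel) ok5 ok6

noncomputable def t8 : Tre :=
  .Q [0,-1,0,-1,0,0,-1,-1,0,0,1] (.p true [0,0,1] [] (⟨0,[(18,0)]⟩,⟨0,[(17,0)]⟩) .k 0 (⟨0,[]⟩,⟨0,
  []⟩) .k .k) t2 t7

theorem ok8 : chk (cU (-1) false 10) t8 l4 = true :=
  chk_Q (e' := [0,1,0,1,0,0,1,1,0,0,-1]) (by decide +kernel) (by decide +kernel) ok2 ok7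

noncomputable def t9 : Tre :=
  (.Q [0,-1,0,-1,0,0,-1,-1,0,0,1] (.p true [0,0,1] [] (⟨0,[(18,0)]⟩,⟨0,[(17,0)]⟩) .k 0 (⟨0,[]⟩,⟨0,
  []⟩) .k .k) (.R ⟨2,true,false,true,[0,1],[0,1,1],[0,1,1],(⟨0,[]⟩,⟨0,[]⟩),(⟨0,[(19,0),(2,0)]⟩,⟨0,
  [(2,0)]⟩),⟨0,[]⟩,.k,.k,.k,.k,.k,.k,⟨false,0,⟨1,[(1,0),(15,0)]⟩,⟨1,[(5,1),(6,1),(14,0),(0,0)]⟩⟩,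
  ⟨true,0,⟨0,[(4,0)]⟩,⟨0,[(16,0)]⟩⟩,⟨false,0,⟨0,[(26,0)]⟩,⟨0,[(25,0),(2,0)]⟩⟩,⟨true,0,⟨0,[(13,0)]⟩,
  ⟨0,[(0,0),(24,0)]⟩⟩,⟨true,0,⟨0,[(30,0)]⟩,⟨0,[]⟩⟩,⟨false,1,⟨1,[(5,1),(14,0),(7,0)]⟩,⟨0,[(0,0)]⟩⟩,
  []⟩) (.R ⟨1,true,false,true,[1,0,-1],[0,1],[0,1,2,1],(⟨0,[(18,0)]⟩,⟨0,[(19,0)]⟩),(⟨0,[(22,0)]⟩,⟨0,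
  [(21,0)]⟩),⟨0,[(2,0)]⟩,.k,.k,.k,.k,(.x 0 ⟨0,[(2,0),(1,0),(7,1),(8,0)]⟩ ⟨0,[(4,0),(14,0),(2,1),(4,
  0)]⟩),.k,⟨true,0,⟨1,[(15,0),(0,0)]⟩,⟨0,[]⟩⟩,⟨false,1,⟨9,[(1,3),(1,1),(1,5),(0,1),(0,0),(0,0),(18,
  5),(0,1)]⟩,⟨0,[(12,0)]⟩⟩,⟨false,0,⟨0,[(0,0),(15,0),(7,0)]⟩,⟨11,[(1,7),(1,3),(3,0),(0,0),(11,1),(6,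
  3),(0,3)]⟩⟩,⟨true,0,⟨0,[(5,0)]⟩,⟨1,[(1,0),(9,0),(0,0),(11,0)]⟩⟩,⟨true,0,⟨3,[(0,5),(2,1),(8,1),(2,
  0),(0,4)]⟩,⟨0,[(1,0)]⟩⟩,⟨false,1,⟨0,[(5,0),(19,0),(2,0)]⟩,⟨0,[(1,0),(10,0),(11,0)]⟩⟩,[]⟩))

theorem ok9 : chk (cU (-1) false 10) t9 r4 = true := by decide +kernel

noncomputable def t10 : Tre :=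
  .I [0,0,2,2,0,0,0,1] t8 t9

theorem ok10 : chk (cU (-1) false 10) t10 l3 = true :=
  chk_I (e' := [1,0,-2,-2,0,0,0,-1]) (by decide +kernel) (by decide +kernel) ok8 ok9

noncomputable def t11 : Tre :=
  (.Q [0,-1,0,1,0,0,1,1,0,2,-1] (.p false [-1,1,1] [1] (⟨0,[(0,0)]⟩,⟨0,[(16,0),(2,0)]⟩) .k 1 (⟨0,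
  []⟩,⟨0,[]⟩) .k .k) (.K ⟨1,[-1,1,1],0,0,(⟨0,[(1,0)]⟩,⟨0,[(17,0),(2,0)]⟩),.k,.k,(.r 0 ⟨0,[(0,0),(2,
  0),(7,1),(12,0)]⟩ ⟨0,[(16,0),(8,1),(0,0)]⟩),.k,.k,[⟨1,[(11,1),(2,0),(0,0)]⟩,⟨3,[(0,0),(4,1),(7,0),
  (11,0)]⟩,⟨0,[(10,0),(14,0)]⟩,⟨0,[(0,0)]⟩]⟩) (.I [1,-1,0,-1,0,0,0,-1] (.Q [0,0,0,1,0,0,0,0,0,1]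
  (.pp false [-1,1]) (.Q [0,0,0,-1,0,0,-1,-1,0,-1,1] (.p true [0,0,1] [1] (⟨0,[(20,0)]⟩,⟨0,[(19,
  0)]⟩) .k 1 (⟨0,[]⟩,⟨0,[]⟩) .k .k) (.R ⟨0,false,false,true,[1,0,-1],[0,1],[0,1,2,1],(⟨0,[(20,0)]⟩,
  ⟨0,[(21,0)]⟩),(⟨0,[(24,0)]⟩,⟨0,[(23,0)]⟩),⟨0,[(4,0)]⟩,.k,.k,.k,.k,.k,.k,⟨true,0,⟨1,[(17,0),(0,
  0)]⟩,⟨0,[]⟩⟩,⟨false,1,⟨1,[(8,0),(11,0),(0,0),(7,1)]⟩,⟨0,[(14,0)]⟩⟩,⟨false,0,⟨0,[(7,0),(6,0),(11,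
  0)]⟩,⟨0,[(2,0),(26,0)]⟩⟩,⟨true,0,⟨0,[(7,0)]⟩,⟨0,[(0,0)]⟩⟩,⟨false,0,⟨0,[]⟩,⟨0,[]⟩⟩,⟨false,0,⟨0,[]⟩,
  ⟨0,[]⟩⟩,[.o ⟨false,0,⟨0,[(27,0)]⟩,⟨1,[(22,0),(5,1),(1,0)]⟩⟩,.a ⟨true,0,⟨0,[(1,0)]⟩,⟨0,[(28,0)]⟩⟩
  ⟨false,0,⟨0,[(26,0),(0,0)]⟩,⟨0,[(28,0),(0,0)]⟩⟩ ⟨true,0,⟨1,[(5,0),(0,0),(0,0)]⟩,⟨0,[(14,0),(13,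
  0)]⟩⟩,.o ⟨false,1,⟨1,[(18,1),(3,0),(6,0)]⟩,⟨0,[(6,0)]⟩⟩,.o ⟨false,0,⟨0,[(14,0)]⟩,⟨7,[(8,3),(0,0),
  (0,0),(11,1),(6,3)]⟩⟩]⟩) (.R ⟨0,false,false,false,[1,0,-1],[0,1],[0,0,2,1],(⟨0,[(20,0)]⟩,⟨0,[(21,
  0)]⟩),(⟨0,[(24,0)]⟩,⟨0,[(23,0)]⟩),⟨0,[(4,0)]⟩,.k,.k,.k,.k,.k,.k,⟨true,0,⟨1,[(17,0),(0,0)]⟩,⟨0,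
  []⟩⟩,⟨false,1,⟨1,[(8,0),(11,0),(0,0),(7,1)]⟩,⟨0,[(14,0)]⟩⟩,⟨false,0,⟨0,[(0,0),(13,0),(11,0)]⟩,⟨7,
  [(2,7),(6,0),(0,0),(14,3),(3,5)]⟩⟩,⟨true,0,⟨0,[(0,0)]⟩,⟨1,[(3,0),(12,0),(11,0)]⟩⟩,⟨false,0,⟨0,[]⟩,
  ⟨0,[]⟩⟩,⟨false,0,⟨0,[]⟩,⟨0,[]⟩⟩,[.a ⟨true,0,⟨0,[(1,0)]⟩,⟨0,[(28,0)]⟩⟩ ⟨false,0,⟨2,[(0,0),(4,0),(8,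
  1),(2,0),(9,0)]⟩,⟨0,[(28,0),(0,0)]⟩⟩ ⟨true,0,⟨2,[(0,0),(4,0),(2,0),(18,0)]⟩,⟨0,[(14,0),(13,0)]⟩⟩,
  .o ⟨false,1,⟨0,[(27,0),(2,0)]⟩,⟨1,[(3,0),(11,0),(12,0)]⟩⟩,.o ⟨false,1,⟨1,[(18,1),(3,0),(6,0)]⟩,⟨0,
  [(6,0)]⟩⟩,.o ⟨false,0,⟨0,[(14,0)]⟩,⟨7,[(8,3),(0,0),(0,0),(11,1),(6,3)]⟩⟩]⟩)) (.I [0,1,-2,-1,0,0,0,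
  -1] (.Q [0,0,0,-1,0,0,1,1,0,0,-1] (.p false [0,0,1] [] (⟨0,[(21,0)]⟩,⟨0,[(20,0)]⟩) .k 0 (⟨0,[]⟩,
  ⟨0,[]⟩) .k .k) (.I [0,0,-2,-2,0,0,0,-1] (.I [0,-1,0,0,1,0,0,1] (.K ⟨2,[-1,1,1],0,0,(⟨0,[(7,0)]⟩,
  ⟨0,[(23,0),(2,0)]⟩),.k,.k,(.r (-1) ⟨1,[(0,1),(19,0),(0,0),(7,1),(0,3)]⟩ ⟨0,[(1,0)]⟩),.k,(.r (-1)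
  ⟨0,[(0,0),(9,0),(6,0)]⟩ ⟨1,[(3,0),(1,0),(16,1)]⟩),[⟨0,[(9,0),(7,0)]⟩,⟨7,[(1,3),(0,3),(5,5),(1,5),
  (0,2),(11,0),(0,0)]⟩,⟨1,[(17,1),(2,0),(0,0)]⟩,⟨1,[(11,0),(11,0),(0,0)]⟩,⟨1,[(6,0),(12,0),(11,0)]⟩,
  ⟨0,[(10,0)]⟩]⟩) (.R ⟨2,true,false,false,[0,1],[0,0,1],[1,1,1,1],(⟨0,[]⟩,⟨0,[]⟩),(⟨0,[(24,0)]⟩,⟨0,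
  [(23,0)]⟩),⟨0,[]⟩,.k,.k,.k,.k,.k,.k,⟨true,(-1),⟨0,[(0,0),(28,0),(0,0)]⟩,⟨1,[(2,1),(18,1),(10,0),
  (0,0)]⟩⟩,⟨false,0,⟨0,[(9,0)]⟩,⟨0,[(21,0),(10,0)]⟩⟩,⟨false,0,⟨0,[]⟩,⟨3,[(12,0),(0,0),(19,1)]⟩⟩,
  ⟨true,0,⟨0,[(2,0)]⟩,⟨2,[(0,0),(7,0),(7,0),(4,1),(8,1),(1,0)]⟩⟩,⟨true,0,⟨0,[(30,0)]⟩,⟨0,[(31,0)]⟩⟩,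
  ⟨false,1,⟨0,[(18,0),(14,0)]⟩,⟨1,[(3,0),(4,0),(8,0),(3,0)]⟩⟩,[]⟩)) (.I [0,0,2,0,0,-2,-1] (.K ⟨2,
  [-1,1,1],0,0,(⟨0,[(7,0)]⟩,⟨0,[(23,0),(2,0)]⟩),.k,.k,(.x (-1) ⟨1,[(7,0),(3,0),(12,0),(2,2),(4,1)]⟩
  ⟨0,[(0,0)]⟩),.k,(.r (-1) ⟨0,[(1,0),(0,0),(18,0),(10,0)]⟩ ⟨1,[(3,0),(1,0),(16,1)]⟩),[⟨2,[(1,0),(2,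
  0),(1,0),(2,0),(19,0)]⟩,⟨3,[(2,3),(0,1),(4,3),(1,1),(0,0),(11,0),(0,0)]⟩,⟨1,[(17,1),(2,0),(0,0)]⟩,
  ⟨1,[(11,0),(11,0),(0,0)]⟩,⟨1,[(6,0),(12,0),(11,0)]⟩,⟨0,[(10,0)]⟩]⟩) (.R ⟨2,true,false,true,[0,1],
  [0,0,1],[0,1],(⟨0,[]⟩,⟨0,[]⟩),(⟨0,[(24,0)]⟩,⟨0,[(23,0)]⟩),⟨0,[]⟩,.k,.k,.k,.k,.k,.k,⟨true,0,⟨0,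
  [(22,0)]⟩,⟨2,[(0,0),(0,0),(0,1),(14,2),(5,0),(2,1)]⟩⟩,⟨false,0,⟨0,[(9,0)]⟩,⟨0,[(21,0),(10,0)]⟩⟩,
  ⟨true,0,⟨3,[(0,0),(1,1),(0,1),(13,2),(5,0),(2,1),(1,0)]⟩,⟨4,[(1,1),(6,0),(7,0),(3,0)]⟩⟩,⟨false,0,
  ⟨0,[(2,0)]⟩,⟨7,[(1,1),(6,3),(7,3),(2,1),(1,1),(10,2),(0,4)]⟩⟩,⟨false,1,⟨3,[(12,0),(0,0),(18,1)]⟩,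
  ⟨0,[(29,0)]⟩⟩,⟨true,0,⟨0,[(18,0)]⟩,⟨1,[(3,0),(4,0),(8,0),(3,0)]⟩⟩,[]⟩))) (.Q [0,0,-1,0,0,0,1,0,0,
  2,-1] (.p false [-1,1,1] [1] (⟨0,[(5,0)]⟩,⟨0,[(21,0),(2,0)]⟩) .k 1 (⟨0,[]⟩,⟨0,[]⟩) .k .k) (.R ⟨0,
  false,false,false,[-1,1,1],[0,0,1],[1,1,1,1,0,0,0,1],(⟨0,[(6,0)]⟩,⟨0,[(22,0),(2,0)]⟩),(⟨0,[(23,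
  0)]⟩,⟨0,[(22,0)]⟩),⟨0,[(22,0)]⟩,.k,.k,.k,.k,.k,.k,⟨false,0,⟨0,[(29,0)]⟩,⟨1,[(30,1),(0,0),(0,0)]⟩⟩,
  ⟨true,0,⟨0,[(8,0),(7,0)]⟩,⟨1,[(0,0),(19,0)]⟩⟩,⟨false,0,⟨0,[]⟩,⟨3,[(11,0),(0,0),(19,1)]⟩⟩,⟨true,0,
  ⟨0,[(3,0)]⟩,⟨5,[(0,0),(0,1),(7,3),(8,1),(1,0)]⟩⟩,⟨false,0,⟨0,[]⟩,⟨0,[]⟩⟩,⟨false,0,⟨0,[]⟩,⟨0,[]⟩⟩,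
  [.o ⟨false,1,⟨3,[(11,0),(0,0),(4,3),(14,1)]⟩,⟨0,[(1,0),(1,0)]⟩⟩,.o ⟨false,1,⟨0,[(17,0),(14,0)]⟩,
  ⟨0,[(15,0)]⟩⟩,.a ⟨true,0,⟨0,[(0,0)]⟩,⟨0,[(16,0)]⟩⟩ ⟨true,0,⟨0,[(9,0),(6,0)]⟩,⟨1,[(2,0),(1,0)]⟩⟩
  ⟨false,1,⟨0,[(16,0),(0,0),(14,0)]⟩,⟨3,[(0,0),(1,1),(4,1),(12,0)]⟩⟩,.o ⟨false,0,⟨1,[(0,0),(18,0)]⟩,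
  ⟨1,[(16,1),(7,0),(6,0)]⟩⟩]⟩) (.Q [0,1,0,0,0,0,0,0,1,1,0,-1] (.p false [0,0,0,1] [1] (⟨0,[(14,0)]⟩,
  ⟨1,[(13,0),(8,0),(0,0)]⟩) .k 1 (⟨0,[]⟩,⟨0,[]⟩) .k .k) (.I [0,0,1,1,0,0,0,0,1] (.I [0,0,1,1,0,0,0,
  0,-1] (.Q [0,1,0,0,0,0,0,0,-1,-1,0,1] (.p true [0,0,0,1] [1] (⟨0,[(17,0)]⟩,⟨1,[(16,0),(8,0),(0,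
  0)]⟩) .k 1 (⟨0,[]⟩,⟨0,[]⟩) .k .k) (.K ⟨2,[1,0,0,-1],0,0,(⟨1,[(17,0),(8,0),(0,0)]⟩,⟨0,[(18,0)]⟩),
  .k,(.r (-1) ⟨1,[(15,0),(18,1),(0,0)]⟩ ⟨0,[(2,0)]⟩),(.r 0 ⟨0,[(1,0)]⟩ ⟨1,[(16,0),(17,1),(0,0)]⟩),
  .k,.k,[⟨1,[(14,0),(2,0)]⟩,⟨0,[(12,0),(5,0)]⟩,⟨1,[(14,0),(2,0),(6,1)]⟩,⟨1,[(4,0),(13,1),(4,0)]⟩,⟨0,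
  [(3,0)]⟩,⟨0,[(0,0)]⟩]⟩) (.I [1,1,1,0,0,0,0,1,-1] (.K ⟨1,[0,0,0,1],0,0,(⟨0,[(19,0)]⟩,⟨1,[(18,0),(8,
  0),(0,0)]⟩),.k,(.r (-1) ⟨1,[(17,0),(17,1),(0,0)]⟩ ⟨0,[(2,0)]⟩),(.r 0 ⟨0,[(3,0)]⟩ ⟨1,[(16,0),(18,
  1),(0,0)]⟩),.k,.k,[⟨1,[(19,1),(4,0),(0,0)]⟩,⟨3,[(5,0),(12,1),(5,1),(0,0)]⟩,⟨1,[(0,0),(1,0),(4,0),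
  (11,1)]⟩,⟨0,[(1,0)]⟩]⟩) (.Q [0,1,0,-1,0,0,0,0,-1,-1,0,1] (.p true [0,0,0,1] [1] (⟨0,[(19,0)]⟩,⟨1,
  [(18,0),(8,0),(0,0)]⟩) .k 1 (⟨0,[]⟩,⟨0,[]⟩) .k .k) (.R ⟨2,true,false,true,[0,1],[1,0,0,-1],[1,1,1,
  1],(⟨0,[]⟩,⟨0,[]⟩),(⟨1,[(19,0),(8,0),(0,0)]⟩,⟨0,[(20,0)]⟩),⟨0,[]⟩,.k,.k,.k,(.r 0 ⟨0,[(4,0)]⟩ ⟨1,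
  [(17,0),(18,1),(0,0)]⟩),.k,.k,⟨false,0,⟨10,[(1,5),(0,3),(1,0),(1,5),(0,1),(7,7),(4,3),(12,0)]⟩,⟨1,
  [(17,0),(18,1),(0,0)]⟩⟩,⟨true,0,⟨1,[(6,0),(13,1),(4,0)]⟩,⟨1,[(19,0),(8,0),(0,0)]⟩⟩,⟨false,0,⟨0,
  []⟩,⟨3,[(17,0),(0,0),(19,1)]⟩⟩,⟨true,0,⟨0,[(0,0)]⟩,⟨0,[(2,0),(32,0)]⟩⟩,⟨true,0,⟨0,[(35,0)]⟩,⟨0,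
  [(36,0)]⟩⟩,⟨false,1,⟨1,[(17,0),(2,1),(9,0)]⟩,⟨0,[(2,0)]⟩⟩,[]⟩) (.Q [0,0,0,0,0,1,0,0,0,0,0,-1] (.p
  false [0,0,0,1] [] (⟨0,[(20,0)]⟩,⟨1,[(19,0),(8,0),(0,0)]⟩) .k 0 (⟨0,[]⟩,⟨0,[]⟩) .k .k) (.R ⟨0,
  false,false,false,[0,0,0,1],[1,-1],[1,0,0,0,0,0,0,0,1],(⟨0,[(21,0)]⟩,⟨1,[(20,0),(8,0),(0,0)]⟩),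
  (⟨0,[(32,0)]⟩,⟨0,[(33,0)]⟩),⟨0,[(0,0)]⟩,.k,.k,(.r (-1) ⟨1,[(19,0),(17,1),(0,0)]⟩ ⟨0,[(4,0)]⟩),(.r
  0 ⟨0,[(5,0)]⟩ ⟨1,[(18,0),(18,1),(0,0)]⟩),.k,.k,⟨false,0,⟨4,[(1,1),(0,1),(2,0),(1,1),(8,1),(4,1),
  (12,0)]⟩,⟨1,[(18,0),(18,1),(0,0)]⟩⟩,⟨true,0,⟨1,[(7,0),(13,1),(4,0)]⟩,⟨1,[(20,0),(8,0),(0,0)]⟩⟩,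
  ⟨true,0,⟨0,[]⟩,⟨0,[(41,0)]⟩⟩,⟨false,1,⟨1,[(10,1),(7,0),(2,1),(17,0)]⟩,⟨2,[(1,1),(4,0),(29,0)]⟩⟩,
  ⟨false,0,⟨0,[]⟩,⟨0,[]⟩⟩,⟨false,0,⟨0,[]⟩,⟨0,[]⟩⟩,[.o ⟨false,0,⟨0,[(10,0)]⟩,⟨3,[(18,0),(0,0),(16,3),
  (2,1)]⟩⟩,.o ⟨false,1,⟨1,[(31,0),(5,1),(1,0)]⟩,⟨0,[(36,0)]⟩⟩,.a ⟨true,0,⟨1,[(20,0),(8,0),(0,0)]⟩,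
  ⟨0,[(21,0)]⟩⟩ ⟨false,0,⟨0,[(1,0),(8,0),(10,0)]⟩,⟨3,[(18,2),(0,0)]⟩⟩ ⟨true,0,⟨0,[(10,0),(10,0)]⟩,
  ⟨3,[(8,0),(7,1),(3,1),(4,0),(10,0)]⟩⟩,.o ⟨false,0,⟨3,[(7,0),(12,1),(5,1),(0,0)]⟩,⟨1,[(21,1),(9,0),
  (6,0)]⟩⟩]⟩) (.R ⟨1,false,false,false,[0,0,0,1],[1,-1],[1,0,0,0,0,0,0,0,1],(⟨0,[(21,0)]⟩,⟨1,[(20,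
  0),(8,0),(0,0)]⟩),(⟨0,[(32,0)]⟩,⟨0,[(33,0)]⟩),⟨0,[(0,0)]⟩,.k,.k,(.r (-1) ⟨1,[(19,0),(17,1),(0,
  0)]⟩ ⟨0,[(4,0)]⟩),(.r 0 ⟨0,[(5,0)]⟩ ⟨1,[(18,0),(18,1),(0,0)]⟩),.k,.k,⟨false,0,⟨4,[(1,1),(0,1),(2,
  0),(1,1),(8,1),(4,1),(12,0)]⟩,⟨1,[(18,0),(18,1),(0,0)]⟩⟩,⟨true,0,⟨1,[(7,0),(13,1),(4,0)]⟩,⟨1,[(20,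
  0),(8,0),(0,0)]⟩⟩,⟨true,0,⟨0,[]⟩,⟨0,[(41,0)]⟩⟩,⟨false,1,⟨1,[(10,1),(7,0),(2,1),(17,0)]⟩,⟨2,[(1,1),
  (4,0),(29,0)]⟩⟩,⟨false,1,⟨0,[(36,0),(2,0)]⟩,⟨0,[(37,0)]⟩⟩,⟨false,1,⟨1,[(4,1),(5,1),(10,1),(16,0),
  (0,0)]⟩,⟨1,[(3,0),(2,0)]⟩⟩,[.o ⟨false,0,⟨0,[(10,0)]⟩,⟨3,[(18,0),(0,0),(16,3),(2,1)]⟩⟩,.o ⟨false,1,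
  ⟨1,[(31,0),(5,1),(1,0)]⟩,⟨0,[(36,0)]⟩⟩,.a ⟨true,0,⟨1,[(20,0),(8,0),(0,0)]⟩,⟨0,[(21,0)]⟩⟩ ⟨false,0,
  ⟨0,[(1,0),(8,0),(10,0)]⟩,⟨3,[(18,2),(0,0)]⟩⟩ ⟨true,0,⟨0,[(10,0),(10,0)]⟩,⟨3,[(8,0),(7,1),(3,1),(4,
  0),(10,0)]⟩⟩,.o ⟨false,0,⟨3,[(7,0),(12,1),(5,1),(0,0)]⟩,⟨1,[(21,1),(9,0),(6,0)]⟩⟩]⟩))))) (.Q [0,0,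
  0,0,0,1,0,0,0,0,0,-1] (.p false [0,0,0,1] [] (⟨0,[(17,0)]⟩,⟨1,[(16,0),(8,0),(0,0)]⟩) .k 0 (⟨0,[]⟩,
  ⟨0,[]⟩) .k .k) (.R ⟨0,false,false,false,[0,0,0,1],[1,-1],[1,0,0,-1,0,0,0,0,1],(⟨0,[(18,0)]⟩,⟨1,
  [(17,0),(8,0),(0,0)]⟩),(⟨0,[(29,0)]⟩,⟨0,[(30,0)]⟩),⟨0,[(0,0)]⟩,.k,.k,(.x 0 ⟨1,[(4,0),(18,0),(5,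
  1)]⟩ ⟨3,[(15,0),(0,0),(13,3),(4,1)]⟩),(.r 0 ⟨0,[(2,0)]⟩ ⟨0,[(1,0),(13,0)]⟩),.k,.k,⟨false,0,⟨1,[(1,
  0),(0,0)]⟩,⟨1,[(15,0),(19,0)]⟩⟩,⟨true,0,⟨1,[(4,0),(13,1),(4,0)]⟩,⟨1,[(17,0),(8,0),(0,0)]⟩⟩,⟨true,
  0,⟨0,[(34,0)]⟩,⟨0,[(33,0)]⟩⟩,⟨false,1,⟨1,[(7,1),(7,0),(2,1),(17,0)]⟩,⟨3,[(1,3),(2,2),(6,3),(1,3),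
  (3,1),(6,0)]⟩⟩,⟨false,0,⟨0,[]⟩,⟨0,[]⟩⟩,⟨false,0,⟨0,[]⟩,⟨0,[]⟩⟩,[.o ⟨false,0,⟨0,[(7,0)]⟩,⟨3,[(15,
  0),(0,0),(16,3),(2,1)]⟩⟩,.o ⟨false,1,⟨1,[(28,0),(5,1),(1,0)]⟩,⟨0,[(33,0)]⟩⟩,.a ⟨true,0,⟨1,[(17,0),
  (8,0),(0,0)]⟩,⟨0,[(18,0)]⟩⟩ ⟨false,0,⟨0,[(1,0),(30,0)]⟩,⟨1,[(15,0),(17,1),(2,0)]⟩⟩ ⟨true,0,⟨0,[(7,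
  0),(10,0)]⟩,⟨3,[(5,0),(7,1),(3,1),(4,0),(10,0)]⟩⟩,.o ⟨false,0,⟨3,[(4,0),(12,1),(5,1),(0,0)]⟩,⟨1,
  [(18,1),(9,0),(6,0)]⟩⟩]⟩) (.Q [0,1,0,0,0,0,0,0,-1,0,0,1] (.p true [0,0,0,1] [] (⟨0,[(18,0)]⟩,⟨1,
  [(17,0),(8,0),(0,0)]⟩) .k 0 (⟨0,[]⟩,⟨0,[]⟩) .k .k) (.K ⟨2,[0,0,0,1],0,0,(⟨0,[(19,0)]⟩,⟨1,[(18,0),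
  (8,0),(0,0)]⟩),.k,(.x 0 ⟨1,[(5,0),(18,0),(5,1)]⟩ ⟨3,[(16,0),(0,0),(13,3),(4,1)]⟩),(.r 0 ⟨0,[(3,
  0)]⟩ ⟨0,[(2,0),(13,0)]⟩),.k,.k,[⟨0,[(13,0),(5,0)]⟩,⟨1,[(15,0),(2,0)]⟩,⟨1,[(19,1),(4,0),(0,0)]⟩,⟨3,
  [(5,0),(12,1),(5,1),(0,0)]⟩,⟨0,[(0,0)]⟩,⟨6,[(2,2),(0,2),(0,0),(5,1),(7,2),(3,1),(11,1)]⟩]⟩) (.R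
  ⟨1,false,false,true,[1,0,0,-1],[0,0,1],[1,0,0,0,0,0,0,0,-1],(⟨1,[(18,0),(8,0),(0,0)]⟩,⟨0,[(19,
  0)]⟩),(⟨0,[(28,0)]⟩,⟨0,[(27,0)]⟩),⟨0,[(1,0),(16,0)]⟩,.k,.k,(.r (-1) ⟨0,[(2,0),(13,0)]⟩ ⟨0,[(3,
  0)]⟩),.k,(.r (-1) ⟨3,[(7,1),(1,1),(6,2),(0,0)]⟩ ⟨1,[(0,1),(4,0),(8,1),(4,1),(5,0)]⟩),.k,⟨false,1,
  ⟨1,[(8,1),(3,1),(3,0),(19,0)]⟩,⟨1,[(2,1),(2,0),(8,1),(10,0)]⟩⟩,⟨true,0,⟨1,[(15,0),(2,0)]⟩,⟨1,[(5,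
  0),(13,1),(5,0)]⟩⟩,⟨true,0,⟨0,[]⟩,⟨0,[(39,0)]⟩⟩,⟨false,0,⟨0,[(0,0),(13,0),(20,0)]⟩,⟨3,[(5,1),(0,
  1),(0,0),(1,0),(6,1),(2,3),(17,1)]⟩⟩,⟨false,1,⟨0,[(34,0),(2,0)]⟩,⟨0,[(35,0)]⟩⟩,⟨false,0,⟨0,[(0,0),
  (13,0)]⟩,⟨1,[(5,0),(1,0),(1,0),(6,0),(2,1),(5,0),(11,0)]⟩⟩,[.o ⟨false,0,⟨0,[(22,0)]⟩,⟨0,[(20,0),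
  (16,0)]⟩⟩,.o ⟨false,1,⟨3,[(16,0),(0,0),(4,3),(14,1)]⟩,⟨3,[(5,1),(0,1),(0,0),(1,0)]⟩⟩,.a ⟨true,0,
  ⟨0,[(19,0)]⟩,⟨1,[(18,0),(8,0),(0,0)]⟩⟩ ⟨false,1,⟨1,[(16,0),(20,0)]⟩,⟨1,[(2,0),(0,0)]⟩⟩ ⟨true,0,⟨1,
  [(14,0),(3,0),(3,0),(12,0)]⟩,⟨3,[(5,1),(0,1),(0,0),(1,0),(9,3)]⟩⟩,.o ⟨false,0,⟨1,[(5,0),(13,1),(4,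
  0)]⟩,⟨7,[(16,0),(0,0),(0,3),(10,1),(6,3)]⟩⟩]⟩)))) (.K ⟨2,[1,0,0,-1],0,0,(⟨1,[(15,0),(8,0),(0,0)]⟩,
  ⟨0,[(16,0)]⟩),.k,(.x 0 ⟨1,[(2,0),(18,0),(5,1)]⟩ ⟨3,[(13,0),(0,0),(13,3),(4,1)]⟩),(.r 0 ⟨1,[(0,1),
  (1,1),(6,1),(1,1),(9,0),(0,0)]⟩ ⟨0,[(0,0),(13,0)]⟩),.k,.k,[⟨1,[(12,0),(2,0)]⟩,⟨0,[(10,0),(5,0)]⟩,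
  ⟨1,[(12,0),(2,0),(6,1)]⟩,⟨1,[(2,0),(13,1),(4,0)]⟩,⟨0,[(1,0)]⟩,⟨1,[(0,1),(1,0),(13,1),(4,0),(9,
  1)]⟩]⟩)) (.Q [0,0,0,0,0,1,0,0,0,0,0,-1] (.p false [0,0,0,1] [] (⟨0,[(15,0)]⟩,⟨1,[(14,0),(8,0),(0,
  0)]⟩) .k 0 (⟨0,[]⟩,⟨0,[]⟩) .k .k) (.R ⟨0,false,false,false,[0,0,0,1],[2,-1,-1],[0,1,0,0,0,0,0,0,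
  1],(⟨0,[(16,0)]⟩,⟨1,[(15,0),(8,0),(0,0)]⟩),(⟨0,[(24,0),(2,0)]⟩,⟨0,[(8,0)]⟩),⟨0,[(0,0)]⟩,.k,.k,(.r
  (-1) ⟨1,[(14,0),(17,1),(0,0)]⟩ ⟨15,[(1,15),(7,1),(1,5),(3,7),(4,3),(0,6),(0,8),(8,7)]⟩),(.r (-1)
  ⟨1,[(2,0),(8,1),(2,0),(7,0),(11,0)]⟩ ⟨3,[(1,3),(2,1),(7,0),(2,1),(4,1),(3,0),(0,0),(6,1)]⟩),.k,.k,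
  ⟨false,1,⟨1,[(2,0),(8,1),(2,0),(7,0),(10,0)]⟩,⟨1,[(1,1),(2,0),(1,0),(8,0),(8,0),(0,0)]⟩⟩,⟨true,0,
  ⟨0,[(2,0),(13,0)]⟩,⟨1,[(12,0),(2,0),(8,1),(0,1)]⟩⟩,⟨true,0,⟨0,[(36,0)]⟩,⟨0,[]⟩⟩,⟨false,0,⟨1,[(1,
  1),(0,0),(1,0),(1,0),(15,0)]⟩,⟨1,[(11,1),(2,0),(0,0),(8,0),(0,0),(8,0)]⟩⟩,⟨false,0,⟨0,[]⟩,⟨0,[]⟩⟩,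
  ⟨false,0,⟨0,[]⟩,⟨0,[]⟩⟩,[.o ⟨false,0,⟨1,[(2,1),(1,0),(1,0)]⟩,⟨3,[(11,3),(1,0),(0,0),(19,1)]⟩⟩,.o
  ⟨false,1,⟨0,[(7,0),(26,0)]⟩,⟨0,[(11,0)]⟩⟩,.a ⟨true,0,⟨1,[(15,0),(8,0),(0,0)]⟩,⟨0,[(16,0)]⟩⟩
  ⟨false,1,⟨3,[(13,0),(0,2)]⟩,⟨1,[(1,1),(13,0),(8,0),(0,0)]⟩⟩ ⟨true,0,⟨1,[(2,1),(1,0),(1,0),(9,1)]⟩,
  ⟨1,[(11,1),(3,0),(8,0),(0,0)]⟩⟩,.o ⟨false,0,⟨3,[(2,0),(12,1),(5,1),(0,0)]⟩,⟨1,[(16,1),(9,0),(6,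
  0)]⟩⟩]⟩) (.R ⟨1,false,false,false,[0,0,0,1],[2,-1,-1],[1,1,0,0,0,0,0,0,1],(⟨0,[(16,0)]⟩,⟨1,[(15,
  0),(8,0),(0,0)]⟩),(⟨0,[(24,0),(2,0)]⟩,⟨0,[(8,0)]⟩),⟨0,[(0,0)]⟩,.k,.k,(.r (-1) ⟨1,[(14,0),(17,1),
  (0,0)]⟩ ⟨15,[(1,15),(7,1),(1,5),(3,7),(4,3),(0,6),(0,8),(8,7)]⟩),(.r (-1) ⟨1,[(2,0),(8,1),(2,0),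
  (7,0),(11,0)]⟩ ⟨3,[(1,3),(2,1),(7,0),(2,1),(4,1),(3,0),(0,0),(6,1)]⟩),.k,.k,⟨false,1,⟨1,[(2,0),(8,
  1),(2,0),(7,0),(10,0)]⟩,⟨1,[(1,1),(2,0),(1,0),(8,0),(8,0),(0,0)]⟩⟩,⟨true,0,⟨0,[(2,0),(13,0)]⟩,⟨1,
  [(12,0),(2,0),(8,1),(0,1)]⟩⟩,⟨false,0,⟨0,[]⟩,⟨3,[(13,0),(0,0),(19,1)]⟩⟩,⟨false,0,⟨1,[(1,1),(0,0),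
  (1,0),(1,0),(15,0)]⟩,⟨1,[(11,1),(2,0),(0,0),(8,0),(0,0),(8,0)]⟩⟩,⟨true,0,⟨0,[(31,0)]⟩,⟨0,[(32,
  0)]⟩⟩,⟨false,0,⟨3,[(1,3),(0,1),(0,1),(0,0),(1,0)]⟩,⟨1,[(11,1),(2,0),(0,0),(8,0),(0,0),(6,1),(1,
  0)]⟩⟩,[.o ⟨false,0,⟨1,[(2,1),(1,0),(1,0)]⟩,⟨3,[(11,3),(1,0),(0,0),(19,1)]⟩⟩,.o ⟨false,1,⟨0,[(7,0),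
  (26,0)]⟩,⟨0,[(11,0)]⟩⟩,.a ⟨true,0,⟨1,[(15,0),(8,0),(0,0)]⟩,⟨0,[(16,0)]⟩⟩ ⟨false,1,⟨3,[(13,0),(0,
  2)]⟩,⟨1,[(1,1),(13,0),(8,0),(0,0)]⟩⟩ ⟨true,0,⟨1,[(2,1),(1,0),(1,0),(9,1)]⟩,⟨1,[(11,1),(3,0),(8,0),
  (0,0)]⟩⟩,.o ⟨false,0,⟨3,[(2,0),(12,1),(5,1),(0,0)]⟩,⟨1,[(16,1),(9,0),(6,0)]⟩⟩]⟩))))) (.Q [0,0,-1,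
  0,0,0,2,0,0,2,-2] (.p false [0,0,1] [2,-1,-1] (⟨0,[(21,0)]⟩,⟨0,[(20,0)]⟩) .k 2 (⟨0,[(20,0),(2,
  0)]⟩,⟨0,[(4,0)]⟩) .k (.x 0 ⟨0,[(6,1),(14,1)]⟩ ⟨0,[(14,1),(5,1),(8,0)]⟩)) (.K ⟨2,[-1,1,1],0,0,(⟨0,
  [(5,0)]⟩,⟨0,[(21,0),(2,0)]⟩),.k,.k,(.r 0 ⟨0,[(1,0),(26,0)]⟩ ⟨7,[(3,7),(6,0),(0,0),(14,3),(2,7),(0,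
  5)]⟩),.k,(.r (-1) ⟨0,[(1,0),(14,0),(2,0),(10,0)]⟩ ⟨0,[(2,0),(0,0),(2,0),(19,0)]⟩),[⟨1,[(1,0),(2,
  0),(2,0)]⟩,⟨0,[(0,0)]⟩,⟨3,[(1,1),(2,1),(13,0),(0,2)]⟩,⟨3,[(0,1),(17,0),(0,0)]⟩,⟨1,[(4,0),(12,0),
  (11,0)]⟩,⟨0,[(8,0)]⟩]⟩) (.I [0,0,-1,-1,0,0,0,0,-1] (.Q [0,0,0,0,0,1,0,0,0,0,0,-1] (.p false [0,0,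
  0,1] [] (⟨0,[(14,0)]⟩,⟨1,[(13,0),(8,0),(0,0)]⟩) .k 0 (⟨0,[]⟩,⟨0,[]⟩) .k .k) (.I [0,1,1,0,-1,0,0,0,
  -1] (.R ⟨0,false,false,true,[0,0,0,1],[0,1],[0,1,1],(⟨0,[(16,0)]⟩,⟨1,[(15,0),(8,0),(0,0)]⟩),(⟨0,
  [(28,0)]⟩,⟨0,[(27,0)]⟩),⟨0,[(1,0)]⟩,.k,.k,(.r (-1) ⟨0,[(2,0),(11,0)]⟩ ⟨4,[(0,1),(1,0),(1,1),(4,1),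
  (3,0),(12,0),(4,1)]⟩),(.r (-1) ⟨0,[(2,0),(11,0)]⟩ ⟨4,[(0,1),(1,0),(1,1),(4,1),(3,0),(12,0),(4,
  1)]⟩),.k,.k,⟨true,0,⟨0,[(32,0)]⟩,⟨4,[(4,1),(4,0),(7,0),(3,0),(9,1)]⟩⟩,⟨false,1,⟨0,[(16,0),(16,
  0)]⟩,⟨7,[(4,1),(2,1),(7,3),(5,2),(0,0)]⟩⟩,⟨true,(-1),⟨0,[(0,0)]⟩,⟨1,[(14,0),(18,0)]⟩⟩,⟨false,0,⟨0,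
  [(2,0),(0,0),(5,0),(0,0),(0,0),(4,0)]⟩,⟨1,[(5,0),(8,0),(0,0),(16,0),(1,0)]⟩⟩,⟨false,0,⟨0,[]⟩,⟨0,
  []⟩⟩,⟨false,0,⟨0,[]⟩,⟨0,[]⟩⟩,[.o ⟨false,0,⟨0,[(31,0)]⟩,⟨1,[(26,0),(5,1),(1,0)]⟩⟩,.o ⟨false,1,⟨3,
  [(13,0),(0,0),(16,3),(2,1)]⟩,⟨0,[(5,0)]⟩⟩,.a ⟨true,0,⟨1,[(15,0),(8,0),(0,0)]⟩,⟨0,[(16,0)]⟩⟩
  ⟨false,0,⟨1,[(21,0),(0,0)]⟩,⟨1,[(33,0),(0,0)]⟩⟩ ⟨true,0,⟨0,[(16,0),(14,0)]⟩,⟨1,[(5,0),(9,0),(16,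
  0)]⟩⟩,.o ⟨false,0,⟨7,[(4,1),(2,1),(7,3),(5,2),(0,0)]⟩,⟨1,[(16,1),(9,0),(6,0)]⟩⟩]⟩) (.R ⟨0,false,
  false,false,[0,0,0,1],[2,-1,-1],[1,0,0,0,0,0,0,0,1],(⟨0,[(16,0)]⟩,⟨1,[(15,0),(8,0),(0,0)]⟩),(⟨0,
  [(24,0),(2,0)]⟩,⟨0,[(8,0)]⟩),⟨0,[(1,0)]⟩,.k,.k,(.r (-1) ⟨0,[(2,0),(11,0)]⟩ ⟨4,[(2,4),(1,3),(4,1),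
  (7,1),(3,1),(9,3)]⟩),(.r (-1) ⟨15,[(3,3),(0,7),(6,7),(1,2),(0,10),(18,1)]⟩ ⟨0,[(2,0),(20,0)]⟩),.k,
  .k,⟨false,1,⟨2,[(0,0),(2,0),(0,0),(6,1),(2,0),(18,0)]⟩,⟨0,[(2,0),(20,0)]⟩⟩,⟨true,0,⟨0,[(3,0),(6,
  0),(5,0)]⟩,⟨1,[(12,0),(2,0),(8,1),(0,1)]⟩⟩,⟨true,0,⟨0,[]⟩,⟨0,[(36,0)]⟩⟩,⟨false,0,⟨0,[(2,0),(0,0),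
  (1,0),(3,0),(0,0),(5,0)]⟩,⟨1,[(11,1),(2,0),(0,0),(8,0),(0,0),(8,0)]⟩⟩,⟨false,0,⟨0,[]⟩,⟨0,[]⟩⟩,
  ⟨false,0,⟨0,[]⟩,⟨0,[]⟩⟩,[.o ⟨false,0,⟨1,[(3,0),(1,3),(3,1),(19,0)]⟩,⟨3,[(11,3),(1,0),(0,0),(19,
  1)]⟩⟩,.o ⟨false,1,⟨0,[(7,0),(26,0)]⟩,⟨0,[(11,0)]⟩⟩,.a ⟨true,0,⟨1,[(15,0),(8,0),(0,0)]⟩,⟨0,[(16,
  0)]⟩⟩ ⟨false,1,⟨1,[(14,0),(19,0)]⟩,⟨4,[(2,4),(1,1),(4,0),(7,0),(3,0),(9,1)]⟩⟩ ⟨true,0,⟨1,[(3,0),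
  (1,3),(3,1),(6,1),(12,0)]⟩,⟨1,[(11,1),(3,0),(8,0),(0,0)]⟩⟩,.o ⟨false,0,⟨7,[(4,1),(2,1),(7,3),(5,
  2),(0,0)]⟩,⟨1,[(16,1),(9,0),(6,0)]⟩⟩]⟩)) (.R ⟨1,false,false,false,[1,0,0,-1],[1,-1],[0,0,0,-1,0,0,
  0,0,-1],(⟨1,[(14,0),(8,0),(0,0)]⟩,⟨0,[(15,0)]⟩),(⟨0,[(26,0)]⟩,⟨0,[(27,0)]⟩),⟨0,[(0,0),(13,0)]⟩,.k,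
  .k,(.r 0 ⟨0,[(1,0)]⟩ ⟨9,[(3,3),(4,1),(3,1),(0,6),(5,1),(0,1),(4,0),(4,3)]⟩),(.r 0 ⟨4,[(1,4),(1,3),
  (4,1),(7,1),(3,1),(9,3)]⟩ ⟨0,[(1,0),(11,0)]⟩),.k,.k,⟨false,0,⟨4,[(1,4),(1,1),(4,0),(7,0),(3,0),(9,
  1)]⟩,⟨1,[(13,0),(18,0)]⟩⟩,⟨true,0,⟨7,[(3,1),(2,1),(7,3),(5,2),(0,0)]⟩,⟨0,[(15,0)]⟩⟩,⟨true,0,⟨0,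
  [(31,0)]⟩,⟨0,[(30,0)]⟩⟩,⟨false,1,⟨1,[(4,0),(8,0),(0,0),(16,0),(1,0)]⟩,⟨0,[(1,0),(0,0),(5,0),(0,0),
  (0,0),(4,0)]⟩⟩,⟨false,1,⟨3,[(12,0),(0,0),(19,1)]⟩,⟨0,[]⟩⟩,⟨false,1,⟨1,[(3,0),(0,1),(3,0),(4,0),(0,
  0),(17,0)]⟩,⟨4,[(1,4),(1,1),(4,0),(6,4),(0,0),(3,0),(9,1)]⟩⟩,[.o ⟨false,0,⟨0,[(4,0)]⟩,⟨3,[(12,0),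
  (0,0),(16,3),(2,1)]⟩⟩,.o ⟨false,1,⟨1,[(25,0),(5,1),(1,0)]⟩,⟨0,[(30,0)]⟩⟩,.a ⟨true,0,⟨0,[(15,0)]⟩,
  ⟨1,[(14,0),(8,0),(0,0)]⟩⟩ ⟨false,0,⟨1,[(1,1),(1,0),(1,0)]⟩,⟨1,[(13,0),(16,1),(2,0)]⟩⟩ ⟨true,0,⟨1,
  [(4,0),(9,0),(16,0)]⟩,⟨0,[(15,0),(14,0)]⟩⟩,.o ⟨false,0,⟨1,[(3,0),(2,0),(2,0),(5,1)]⟩,⟨7,[(12,0),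
  (0,0),(0,3),(10,1),(6,3)]⟩⟩]⟩)) (.Q [0,1,0,0,0,0,0,0,-1,-1,0,1] (.p true [0,0,0,1] [1] (⟨0,[(14,
  0)]⟩,⟨1,[(13,0),(8,0),(0,0)]⟩) .k 1 (⟨0,[]⟩,⟨0,[]⟩) .k .k) (.Q [0,1,0,0,0,0,0,0,1,1,0,-1] (.p
  false [0,0,0,1] [1] (⟨0,[(15,0)]⟩,⟨1,[(14,0),(8,0),(0,0)]⟩) .k 1 (⟨0,[]⟩,⟨0,[]⟩) .k .k) (.K ⟨2,[1,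
  0,0,-1],0,0,(⟨1,[(15,0),(8,0),(0,0)]⟩,⟨0,[(16,0)]⟩),.k,(.x 0 ⟨1,[(4,0),(2,0),(2,0),(16,1)]⟩ ⟨3,
  [(13,0),(0,0),(13,3),(4,1)]⟩),(.r 0 ⟨1,[(1,1),(2,0),(4,0),(5,0)]⟩ ⟨1,[(14,0),(17,1),(0,0)]⟩),.k,
  .k,[⟨1,[(12,0),(2,0)]⟩,⟨0,[(10,0),(5,0)]⟩,⟨1,[(12,0),(2,0),(6,1)]⟩,⟨3,[(1,1),(0,1),(1,0),(0,1),(0,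
  0),(9,1)]⟩,⟨0,[(0,0)]⟩,⟨0,[(1,0)]⟩]⟩) (.Q [0,0,0,0,0,1,0,0,0,0,0,-1] (.p false [0,0,0,1] [] (⟨0,
  [(16,0)]⟩,⟨1,[(15,0),(8,0),(0,0)]⟩) .k 0 (⟨0,[]⟩,⟨0,[]⟩) .k .k) (.R ⟨0,false,false,true,[0,0,0,1],
  [0,0,1],[1,0,0,0,0,0,0,0,1],(⟨0,[(17,0)]⟩,⟨1,[(16,0),(8,0),(0,0)]⟩),(⟨0,[(26,0)]⟩,⟨0,[(25,0)]⟩),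
  ⟨0,[(0,0)]⟩,.k,.k,(.r (-1) ⟨1,[(15,0),(17,1),(0,0)]⟩ ⟨1,[(2,1),(2,0),(4,0),(5,0)]⟩),.k,.k,.k,
  ⟨false,1,⟨1,[(6,1),(3,1),(4,0),(18,0)]⟩,⟨1,[(1,1),(2,0),(7,1),(3,0),(8,0),(0,0),(3,0),(2,1)]⟩⟩,
  ⟨true,0,⟨0,[(11,0),(5,0)]⟩,⟨7,[(4,0),(0,0),(2,0),(7,3),(6,4)]⟩⟩,⟨true,0,⟨0,[]⟩,⟨0,[(37,0)]⟩⟩,
  ⟨false,0,⟨0,[(1,0),(10,0),(20,0)]⟩,⟨5,[(4,1),(2,1),(2,1),(4,2),(0,2),(1,0),(2,0),(12,0),(0,1)]⟩⟩,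
  ⟨false,0,⟨0,[]⟩,⟨0,[]⟩⟩,⟨false,0,⟨0,[]⟩,⟨0,[]⟩⟩,[.o ⟨false,0,⟨0,[(20,0)]⟩,⟨0,[(18,0),(16,0)]⟩⟩,.o
  ⟨false,1,⟨3,[(14,0),(0,0),(4,3),(14,1)]⟩,⟨1,[(4,0),(1,1),(3,1),(19,0)]⟩⟩,.a ⟨true,0,⟨1,[(16,0),(8,
  0),(0,0)]⟩,⟨0,[(17,0)]⟩⟩ ⟨false,1,⟨1,[(15,0),(19,0)]⟩,⟨1,[(1,0),(0,0),(13,0),(8,0),(0,0)]⟩⟩ ⟨true,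
  0,⟨0,[(17,0),(2,0)]⟩,⟨1,[(4,0),(2,0),(2,0),(5,0),(13,0)]⟩⟩,.o ⟨false,0,⟨7,[(5,1),(2,1),(7,3),(5,
  2),(0,0)]⟩,⟨1,[(17,1),(9,0),(6,0)]⟩⟩]⟩) (.R ⟨1,false,false,false,[1,0,0,-1],[1,-1],[1,0,0,0,0,0,0,
  0,-1],(⟨1,[(16,0),(8,0),(0,0)]⟩,⟨0,[(17,0)]⟩),(⟨0,[(28,0)]⟩,⟨0,[(29,0)]⟩),⟨0,[(0,0),(15,0)]⟩,.k,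
  .k,(.x 0 ⟨2,[(0,1),(4,0),(2,0),(7,0),(5,0),(5,0)]⟩ ⟨3,[(14,0),(0,0),(13,3),(4,1)]⟩),(.r 0 ⟨1,[(2,
  1),(2,0),(4,0),(5,0)]⟩ ⟨1,[(15,0),(17,1),(0,0)]⟩),.k,.k,⟨false,0,⟨3,[(1,2),(0,0),(1,0),(5,1),(1,
  1),(3,1),(13,0)]⟩,⟨1,[(15,0),(17,1),(0,0)]⟩⟩,⟨true,0,⟨7,[(5,1),(2,1),(7,3),(5,2),(0,0)]⟩,⟨0,[(17,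
  0)]⟩⟩,⟨true,0,⟨0,[]⟩,⟨0,[(37,0)]⟩⟩,⟨false,1,⟨1,[(6,0),(8,0),(0,0),(16,0),(1,0)]⟩,⟨1,[(1,1),(8,0),
  (1,0),(10,0),(6,0)]⟩⟩,⟨false,1,⟨0,[(32,0),(2,0)]⟩,⟨0,[(33,0)]⟩⟩,⟨false,1,⟨3,[(3,1),(2,1),(8,0),(0,
  1),(17,0),(0,1)]⟩,⟨1,[(1,0),(0,0),(22,1),(0,1)]⟩⟩,[.o ⟨false,0,⟨0,[(6,0)]⟩,⟨3,[(14,0),(0,0),(16,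
  3),(2,1)]⟩⟩,.o ⟨false,1,⟨1,[(27,0),(5,1),(1,0)]⟩,⟨0,[(32,0)]⟩⟩,.a ⟨true,0,⟨0,[(17,0)]⟩,⟨1,[(16,0),
  (8,0),(0,0)]⟩⟩ ⟨false,0,⟨1,[(1,1),(14,0),(8,0),(0,0)]⟩,⟨3,[(14,0),(0,2)]⟩⟩ ⟨true,0,⟨1,[(6,0),(9,
  0),(16,0)]⟩,⟨0,[(17,0),(14,0)]⟩⟩,.o ⟨false,0,⟨7,[(1,0),(0,0),(0,1),(1,1),(0,1),(1,1),(8,5),(4,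
  1)]⟩,⟨7,[(14,0),(0,0),(0,3),(10,1),(6,3)]⟩⟩]⟩))) (.Q [0,0,0,0,0,1,0,0,0,0,0,-1] (.p false [0,0,0,
  1] [] (⟨0,[(15,0)]⟩,⟨1,[(14,0),(8,0),(0,0)]⟩) .k 0 (⟨0,[]⟩,⟨0,[]⟩) .k .k) (.R ⟨0,false,false,
  false,[0,0,0,1],[1,-1],[0,0,0,-1,0,0,0,0,1],(⟨0,[(16,0)]⟩,⟨1,[(15,0),(8,0),(0,0)]⟩),(⟨0,[(27,0)]⟩,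
  ⟨0,[(28,0)]⟩),⟨0,[(0,0)]⟩,.k,.k,(.x 0 ⟨1,[(4,0),(2,0),(2,0),(16,1)]⟩ ⟨3,[(13,0),(0,0),(13,3),(4,
  1)]⟩),(.r 0 ⟨1,[(1,1),(2,0),(0,3),(3,0),(6,1),(10,0),(0,0),(2,3)]⟩ ⟨1,[(13,0),(18,1),(0,0)]⟩),.k,
  .k,⟨false,0,⟨0,[(1,0),(3,0),(10,0),(14,0)]⟩,⟨1,[(13,0),(19,0)]⟩⟩,⟨true,0,⟨1,[(4,0),(2,0),(2,0),(5,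
  1)]⟩,⟨1,[(15,0),(8,0),(0,0)]⟩⟩,⟨true,0,⟨0,[(32,0)]⟩,⟨0,[(31,0)]⟩⟩,⟨false,1,⟨1,[(5,1),(7,0),(2,1),
  (17,0)]⟩,⟨0,[(1,0),(29,0)]⟩⟩,⟨false,0,⟨0,[]⟩,⟨0,[]⟩⟩,⟨false,0,⟨0,[]⟩,⟨0,[]⟩⟩,[.o ⟨false,0,⟨0,[(5,
  0)]⟩,⟨3,[(13,0),(0,0),(16,3),(2,1)]⟩⟩,.o ⟨false,1,⟨1,[(26,0),(5,1),(1,0)]⟩,⟨0,[(31,0)]⟩⟩,.a ⟨true,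
  0,⟨1,[(15,0),(8,0),(0,0)]⟩,⟨0,[(16,0)]⟩⟩ ⟨false,0,⟨0,[(1,0),(3,0),(10,0)]⟩,⟨1,[(13,0),(17,1),(2,
  0)]⟩⟩ ⟨true,0,⟨0,[(5,0),(10,0)]⟩,⟨3,[(9,0),(1,0),(3,1),(6,0),(6,0),(1,1)]⟩⟩,.o ⟨false,0,⟨7,[(4,1),
  (2,1),(7,3),(5,2),(0,0)]⟩,⟨1,[(16,1),(9,0),(6,0)]⟩⟩]⟩) (.Q [0,-1,0,0,1,0,0,0,-1,-1,0,1] (.p true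
  [0,0,0,1] [1] (⟨0,[(16,0)]⟩,⟨1,[(15,0),(8,0),(0,0)]⟩) .k 1 (⟨0,[]⟩,⟨0,[]⟩) .k .k) (.R ⟨1,false,
  false,false,[0,0,0,1],[1,-1],[0,0,0,-1,0,0,0,0,1],(⟨0,[(17,0)]⟩,⟨1,[(16,0),(8,0),(0,0)]⟩),(⟨0,
  [(28,0)]⟩,⟨0,[(29,0)]⟩),⟨0,[(1,0)]⟩,.k,.k,(.x 0 ⟨2,[(1,1),(3,0),(2,0),(7,0),(5,0),(5,0)]⟩ ⟨3,[(14,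
  0),(0,0),(13,3),(4,1)]⟩),(.r 0 ⟨0,[(1,2),(0,0),(1,0),(1,3),(3,1),(1,1),(3,0),(12,2),(2,0)]⟩ ⟨1,
  [(14,0),(18,1),(0,0)]⟩),.k,.k,⟨false,0,⟨0,[(2,0),(3,0),(10,0),(14,0)]⟩,⟨1,[(14,0),(19,0)]⟩⟩,⟨true,
  0,⟨1,[(5,0),(2,0),(2,0),(5,1)]⟩,⟨1,[(16,0),(8,0),(0,0)]⟩⟩,⟨true,0,⟨0,[(33,0)]⟩,⟨0,[(32,0)]⟩⟩,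
  ⟨false,1,⟨0,[(0,0),(32,0)]⟩,⟨0,[(2,0),(29,0)]⟩⟩,⟨false,1,⟨3,[(14,0),(0,0),(19,1)]⟩,⟨0,[]⟩⟩,⟨false,
  1,⟨0,[(0,0)]⟩,⟨0,[(2,0),(34,0)]⟩⟩,[.o ⟨false,0,⟨0,[(6,0)]⟩,⟨3,[(14,0),(0,0),(16,3),(2,1)]⟩⟩,.o
  ⟨false,1,⟨1,[(27,0),(5,1),(1,0)]⟩,⟨0,[(32,0)]⟩⟩,.a ⟨true,0,⟨1,[(16,0),(8,0),(0,0)]⟩,⟨0,[(17,0)]⟩⟩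
  ⟨false,0,⟨0,[(2,0),(3,0),(10,0)]⟩,⟨1,[(14,0),(17,1),(2,0)]⟩⟩ ⟨true,0,⟨0,[(6,0),(10,0)]⟩,⟨3,[(10,
  0),(1,0),(3,1),(6,0),(6,0),(1,1)]⟩⟩,.o ⟨false,0,⟨7,[(5,1),(2,1),(7,3),(5,2),(0,0)]⟩,⟨1,[(17,1),(9,
  0),(6,0)]⟩⟩]⟩) (.R ⟨2,true,false,false,[0,1],[1,0,0,-1],[0,0,1],(⟨0,[]⟩,⟨0,[]⟩),(⟨1,[(0,0),(1,0),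
  (11,0)]⟩,⟨0,[(17,0)]⟩),⟨0,[]⟩,.k,.k,.k,(.r 0 ⟨1,[(0,11),(0,11),(2,3),(0,5),(0,25),(3,13),(1,7),(1,
  4),(14,11),(4,6)]⟩ ⟨1,[(14,0),(18,1),(0,0)]⟩),.k,.k,⟨false,0,⟨3,[(0,0),(1,0),(0,1),(2,1),(10,1),
  (16,0)]⟩,⟨1,[(14,0),(19,0)]⟩⟩,⟨true,0,⟨1,[(5,0),(2,0),(2,0),(5,1)]⟩,⟨1,[(0,0),(1,0),(11,0)]⟩⟩,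
  ⟨true,0,⟨0,[(33,0)]⟩,⟨0,[(32,0)]⟩⟩,⟨false,1,⟨1,[(6,1),(7,0),(2,1),(17,0)]⟩,⟨0,[(2,0),(29,0)]⟩⟩,
  ⟨false,1,⟨3,[(14,0),(0,0),(19,1)]⟩,⟨0,[]⟩⟩,⟨true,1,⟨1,[(14,0),(2,1),(9,0)]⟩,⟨0,[(0,0)]⟩⟩,
  []⟩)))))))) (.Q [0,0,0,1,0,0,1,1,0,1,-1] (.p false [0,0,1] [1] (⟨0,[(19,0)]⟩,⟨0,[(18,0)]⟩) .k 1
  (⟨0,[]⟩,⟨0,[]⟩) .k .k) (.R ⟨0,false,false,false,[1,0,-1],[0,1],[0,0,2,1],(⟨0,[(19,0)]⟩,⟨0,[(20,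
  0)]⟩),(⟨0,[(23,0)]⟩,⟨0,[(22,0)]⟩),⟨0,[(3,0)]⟩,.k,.k,.k,.k,.k,.k,⟨true,0,⟨1,[(16,0),(0,0)]⟩,⟨0,
  []⟩⟩,⟨false,1,⟨1,[(7,0),(11,0),(0,0),(7,1)]⟩,⟨0,[(13,0)]⟩⟩,⟨false,0,⟨0,[(1,0),(23,1)]⟩,⟨0,[(18,0),
  (8,0),(0,0)]⟩⟩,⟨true,0,⟨0,[(0,0)]⟩,⟨1,[(2,0),(12,0),(11,0)]⟩⟩,⟨false,0,⟨0,[]⟩,⟨0,[]⟩⟩,⟨false,0,⟨0,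
  []⟩,⟨0,[]⟩⟩,[.a ⟨true,0,⟨1,[(1,0),(2,0),(14,0),(0,0)]⟩,⟨0,[(27,0)]⟩⟩ ⟨false,0,⟨1,[(1,0),(2,0),(8,
  0),(2,0)]⟩,⟨0,[(27,0),(0,0)]⟩⟩ ⟨true,0,⟨2,[(0,0),(3,0),(2,0),(18,0)]⟩,⟨0,[(13,0),(13,0)]⟩⟩,.o
  ⟨false,1,⟨0,[(26,0),(2,0)]⟩,⟨1,[(2,0),(11,0),(12,0)]⟩⟩,.o ⟨false,1,⟨1,[(17,1),(3,0),(6,0)]⟩,⟨0,
  [(5,0)]⟩⟩,.o ⟨false,0,⟨0,[(13,0)]⟩,⟨7,[(7,3),(0,0),(0,0),(11,1),(6,3)]⟩⟩]⟩) (.R ⟨0,false,false,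
  true,[1,0,-1],[0,1],[1,1,1],(⟨0,[(19,0)]⟩,⟨0,[(20,0)]⟩),(⟨0,[(23,0)]⟩,⟨0,[(22,0)]⟩),⟨0,[(3,0)]⟩,
  .k,.k,.k,.k,.k,.k,⟨true,0,⟨0,[(27,0)]⟩,⟨1,[(1,0),(2,0),(8,0),(2,0)]⟩⟩,⟨false,1,⟨1,[(7,0),(11,0),
  (0,0),(7,1)]⟩,⟨0,[(13,0)]⟩⟩,⟨false,0,⟨0,[(1,0),(23,0),(1,0)]⟩,⟨1,[(18,1),(9,0),(0,0)]⟩⟩,⟨true,0,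
  ⟨0,[(6,0)]⟩,⟨0,[(0,0)]⟩⟩,⟨false,0,⟨0,[]⟩,⟨0,[]⟩⟩,⟨false,0,⟨0,[]⟩,⟨0,[]⟩⟩,[.o ⟨false,0,⟨0,[(26,
  0)]⟩,⟨1,[(21,0),(5,1),(1,0)]⟩⟩,.a ⟨true,0,⟨1,[(1,0),(2,0),(14,0),(0,0)]⟩,⟨0,[(27,0)]⟩⟩ ⟨false,0,
  ⟨0,[]⟩,⟨3,[(8,0),(0,0),(18,1)]⟩⟩ ⟨true,0,⟨1,[(1,0),(2,0),(2,0)]⟩,⟨0,[(13,0),(13,0)]⟩⟩,.o ⟨false,1,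
  ⟨1,[(17,1),(3,0),(6,0)]⟩,⟨0,[(5,0)]⟩⟩,.o ⟨false,0,⟨0,[(13,0)]⟩,⟨7,[(7,3),(0,0),(0,0),(11,1),(6,
  3)]⟩⟩]⟩))))

theorem ok11 : chk (cU (-1) false 10) t11 r3 = true := by decide +kernel

noncomputable def t12 : Tre :=
  .Q [0,0,0,0,0,-1,0,0,0,1,-1] (.ed true [0,1,1] .k) t10 t11

theorem ok12 : chk (cU (-1) false 10) t12 l2 = true :=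
  chk_Q (e' := [0,0,0,0,0,1,0,0,0,-1,1]) (by decide +kernel) (by decide +kernel) ok10 ok11

noncomputable def l8 : List Con := (false, [0,0,0,0,0,1,0,0,0,0,-1]) :: r2

noncomputable def r8 : List Con := (false, [0,0,0,0,0,-1,0,0,0,0,1]) :: r2

noncomputable def l9 : List Con := (true, [1,0,0,-1,0,0,0,1]) :: l8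

noncomputable def r9 : List Con := (true, [0,0,0,1,0,0,0,-1]) :: l8

noncomputable def t13 : Tre :=
  (.Q [0,0,0,0,0,0,-1,0,0,1,1] (.p true [1,-1,1] [] (⟨0,[(18,0),(1,0)]⟩,⟨0,[(1,0)]⟩) .k 0 (⟨0,[]⟩,
  ⟨0,[]⟩) .k .k) (.K ⟨0,[1,-1,1],0,0,(⟨0,[(19,0),(1,0)]⟩,⟨0,[(2,0)]⟩),.k,(.r (-1) ⟨0,[(1,0),(24,0),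
  (0,0)]⟩ ⟨0,[(17,0),(6,1),(0,1)]⟩),.k,.k,.k,[⟨0,[(0,0)]⟩,⟨0,[(4,0)]⟩,⟨0,[(0,0),(16,0),(7,0)]⟩,⟨0,
  [(3,0),(0,0)]⟩]⟩) (.Q [0,0,0,0,0,0,-1,-1,0,0,1] (.p true [0,0,1] [] (⟨0,[(19,0)]⟩,⟨0,[(18,0)]⟩)
  .k 0 (⟨0,[]⟩,⟨0,[]⟩) .k .k) (.R ⟨2,true,false,true,[0,1],[0,0,1],[0,0,1],(⟨0,[]⟩,⟨0,[]⟩),(⟨0,[(20,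
  0)]⟩,⟨0,[(19,0)]⟩),⟨0,[]⟩,.k,.k,.k,.k,.k,.k,⟨true,0,⟨0,[(18,0),(6,0)]⟩,⟨0,[(2,0),(23,0)]⟩⟩,⟨false,
  0,⟨0,[(5,0)]⟩,⟨0,[(17,0),(10,0)]⟩⟩,⟨true,0,⟨0,[(27,0)]⟩,⟨0,[(26,0)]⟩⟩,⟨false,0,⟨2,[(1,0),(0,2),(4,
  0)]⟩,⟨0,[(0,0),(25,0),(2,0)]⟩⟩,⟨false,1,⟨3,[(8,0),(0,0),(19,1)]⟩,⟨0,[]⟩⟩,⟨true,0,⟨0,[(14,0)]⟩,⟨0,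
  [(0,0)]⟩⟩,[]⟩) (.Q [0,0,0,1,0,0,1,1,0,1,-1] (.p false [0,0,1] [1] (⟨0,[(20,0)]⟩,⟨0,[(19,0)]⟩) .k
  1 (⟨0,[]⟩,⟨0,[]⟩) .k .k) (.Q [0,0,0,-1,0,0,0,0,0,-1] (.pp true [-1,1]) (.Q [0,0,0,0,0,1,0,0,0,-1,
  1] (.ed false [0,1,1] .k) (.I [0,0,-1,0,0,1,2] (.Q [0,0,-1,0,0,0,2,0,0,2,-2] (.p false [0,0,1] [2,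
  -1,-1] (⟨0,[(24,0)]⟩,⟨0,[(23,0)]⟩) .k 2 (⟨0,[(23,0),(2,0)]⟩,⟨0,[(1,0)]⟩) .k (.r (-1) ⟨1,[(3,1),(4,
  1),(12,1),(10,0),(0,0)]⟩ ⟨0,[(22,1)]⟩)) (.K ⟨2,[-1,1,1],0,0,(⟨0,[(2,0)]⟩,⟨0,[(24,0),(2,0)]⟩),.k,
  .k,(.r 0 ⟨0,[(4,0),(13,0),(11,0),(0,0)]⟩ ⟨0,[(23,0),(8,1),(0,0)]⟩),.k,(.x 0 ⟨0,[(1,0)]⟩ ⟨1,[(18,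
  3),(5,3),(1,0),(0,1),(5,0)]⟩),[⟨2,[(6,0),(11,1),(2,0)]⟩,⟨0,[(0,0)]⟩,⟨1,[(18,1),(2,0),(0,0)]⟩,⟨3,
  [(0,1),(20,0),(0,0)]⟩,⟨0,[(17,0),(14,0)]⟩,⟨0,[(11,0)]⟩]⟩) (.Q [0,-1,0,0,0,0,1,1,-1,0,-1,1] (.p
  false [0,0,1] [0,0,0,1] (⟨0,[(25,0)]⟩,⟨0,[(24,0)]⟩) .k 2 (⟨0,[(16,0)]⟩,⟨1,[(15,0),(8,0),(0,0)]⟩)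
  .k (.x 0 ⟨3,[(1,0),(4,0),(14,0),(3,1),(1,0)]⟩ ⟨7,[(0,3),(12,2),(0,2),(9,7),(8,1)]⟩)) (.R ⟨0,false,
  false,false,[0,0,0,1],[0,0,1],[1,0,0,0,0,0,0,0,1],(⟨0,[(17,0)]⟩,⟨1,[(16,0),(8,0),(0,0)]⟩),(⟨0,
  [(26,0)]⟩,⟨0,[(25,0)]⟩),⟨1,[(3,0),(5,0),(6,0)]⟩,.k,.k,(.r (-1) ⟨1,[(15,0),(17,1),(0,0)]⟩ ⟨1,[(0,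
  1),(15,0),(1,0),(4,0),(0,0),(6,0),(0,1)]⟩),.k,.k,.k,⟨false,1,⟨1,[(15,0),(8,1),(9,0)]⟩,⟨1,[(0,1),
  (0,0),(14,0),(8,0),(0,0),(3,0)]⟩⟩,⟨true,0,⟨2,[(7,0),(5,0),(3,2)]⟩,⟨7,[(1,1),(14,3),(5,0),(0,4)]⟩⟩,
  ⟨true,0,⟨0,[]⟩,⟨0,[(37,0)]⟩⟩,⟨false,0,⟨0,[(0,0)]⟩,⟨1,[(15,0),(0,0),(1,0),(2,0),(13,0)]⟩⟩,⟨false,0,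
  ⟨0,[]⟩,⟨0,[]⟩⟩,⟨false,0,⟨0,[]⟩,⟨0,[]⟩⟩,[.o ⟨false,0,⟨0,[(6,0)]⟩,⟨1,[(21,1),(5,0),(7,0)]⟩⟩,.o
  ⟨false,1,⟨0,[(20,0),(14,0)]⟩,⟨0,[(18,0)]⟩⟩,.a ⟨true,0,⟨1,[(16,0),(8,0),(0,0)]⟩,⟨0,[(17,0)]⟩⟩
  ⟨false,1,⟨1,[(15,0),(19,0)]⟩,⟨1,[(0,1),(15,0),(1,0),(2,0)]⟩⟩ ⟨true,0,⟨0,[(6,0),(10,0)]⟩,⟨1,[(16,
  0),(1,0),(2,0)]⟩⟩,.o ⟨false,0,⟨7,[(1,1),(14,3),(5,4),(0,0)]⟩,⟨1,[(17,1),(9,0),(6,0)]⟩⟩]⟩) (.Q [0,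
  -1,0,1,0,0,1,1,1,2,-1,-1] (.p false [-1,1,1] [1,0,0,-1] (⟨0,[(3,0)]⟩,⟨0,[(25,0),(2,0)]⟩) .k 2 (⟨1,
  [(16,0),(8,0),(0,0)]⟩,⟨0,[(17,0)]⟩) .k (.x 0 ⟨3,[(2,0),(4,0),(14,0),(3,1),(1,0)]⟩ ⟨7,[(1,3),(12,
  2),(0,2),(9,7),(8,1)]⟩)) (.I [0,-1,0,-1,0,0,0,1,1] (.R ⟨0,false,false,false,[0,0,0,1],[1,-1],[0,0,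
  0,-1,0,0,0,0,1],(⟨0,[(19,0)]⟩,⟨1,[(18,0),(8,0),(0,0)]⟩),(⟨0,[(30,0)]⟩,⟨0,[(31,0)]⟩),⟨1,[(5,0),(5,
  0),(6,0)]⟩,.k,.k,(.x 0 ⟨4,[(3,1),(5,0),(14,2),(5,4)]⟩ ⟨3,[(16,0),(0,0),(13,3),(4,1)]⟩),(.r 0 ⟨9,
  [(1,4),(0,4),(0,2),(5,3),(9,9),(4,1),(8,4),(0,4)]⟩ ⟨1,[(16,0),(18,1),(0,0)]⟩),.k,.k,⟨false,0,⟨2,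
  [(0,0),(0,0),(0,0),(6,0),(9,1),(0,0)]⟩,⟨1,[(16,0),(19,0)]⟩⟩,⟨true,0,⟨4,[(3,1),(5,0),(9,4),(4,2)]⟩,
  ⟨1,[(18,0),(8,0),(0,0)]⟩⟩,⟨true,0,⟨0,[(35,0)]⟩,⟨0,[(34,0)]⟩⟩,⟨false,1,⟨1,[(6,1),(9,0),(2,1),(17,
  0)]⟩,⟨0,[(1,0),(18,0)]⟩⟩,⟨false,0,⟨0,[]⟩,⟨0,[]⟩⟩,⟨false,0,⟨0,[]⟩,⟨0,[]⟩⟩,[.o ⟨false,0,⟨0,[(6,0)]⟩,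
  ⟨3,[(16,0),(0,0),(16,3),(2,1)]⟩⟩,.o ⟨false,1,⟨1,[(29,0),(5,1),(1,0)]⟩,⟨0,[(34,0)]⟩⟩,.a ⟨true,0,⟨1,
  [(18,0),(8,0),(0,0)]⟩,⟨0,[(19,0)]⟩⟩ ⟨false,0,⟨0,[(0,0),(25,0)]⟩,⟨1,[(16,0),(17,1),(2,0)]⟩⟩ ⟨true,
  0,⟨0,[(6,0),(12,0)]⟩,⟨1,[(7,0),(10,0),(4,0),(10,0)]⟩⟩,.o ⟨false,0,⟨7,[(3,1),(14,3),(5,4),(0,0)]⟩,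
  ⟨1,[(19,1),(9,0),(6,0)]⟩⟩]⟩) (.I [0,0,1,1,0,0,0,0,-1] (.K ⟨2,[0,0,0,1],0,0,(⟨0,[(20,0)]⟩,⟨1,[(19,
  0),(8,0),(0,0)]⟩),.k,(.r (-1) ⟨1,[(18,0),(17,1),(0,0)]⟩ ⟨0,[(0,0)]⟩),(.r 0 ⟨9,[(2,4),(0,4),(0,2),
  (5,3),(9,9),(4,1),(8,4),(0,4)]⟩ ⟨1,[(17,0),(18,1),(0,0)]⟩),.k,.k,[⟨2,[(10,0),(5,0),(3,2)]⟩,⟨1,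
  [(16,0),(2,0)]⟩,⟨1,[(20,1),(4,0),(0,0)]⟩,⟨7,[(4,1),(14,3),(5,4),(0,0)]⟩,⟨0,[(1,0),(9,0),(8,0)]⟩,
  ⟨3,[(2,0),(0,2),(6,0),(2,0),(9,0)]⟩]⟩) (.K ⟨2,[0,0,0,1],0,0,(⟨0,[(20,0)]⟩,⟨1,[(19,0),(8,0),(0,
  0)]⟩),.k,(.x 0 ⟨4,[(4,1),(5,0),(14,2),(5,4)]⟩ ⟨3,[(17,0),(0,0),(13,3),(4,1)]⟩),(.r 0 ⟨9,[(2,4),(0,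
  4),(0,2),(5,3),(9,9),(4,1),(8,4),(0,4)]⟩ ⟨0,[(0,0),(16,0)]⟩),.k,.k,[⟨2,[(10,0),(5,0),(3,2)]⟩,⟨1,
  [(16,0),(2,0)]⟩,⟨1,[(20,1),(4,0),(0,0)]⟩,⟨7,[(4,1),(14,3),(5,4),(0,0)]⟩,⟨0,[(1,0),(9,0),(8,0)]⟩,
  ⟨3,[(2,0),(0,2),(6,0),(2,0),(9,0)]⟩]⟩))) (.I [1,0,0,0,0,0,0,0,-1] (.K ⟨2,[0,0,0,1],0,0,(⟨0,[(19,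
  0)]⟩,⟨1,[(18,0),(8,0),(0,0)]⟩),.k,(.r (-1) ⟨1,[(17,0),(17,1),(0,0)]⟩ ⟨0,[(0,0),(32,0),(0,0)]⟩),
  (.x (-1) ⟨3,[(16,0),(0,0),(13,3),(4,1)]⟩ ⟨4,[(3,1),(5,0),(14,2),(5,4)]⟩),.k,.k,[⟨2,[(9,0),(5,0),
  (3,2)]⟩,⟨1,[(15,0),(2,0)]⟩,⟨1,[(19,1),(4,0),(0,0)]⟩,⟨7,[(3,1),(14,3),(5,4),(0,0)]⟩,⟨3,[(0,2),(0,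
  0),(12,1),(4,2),(3,0),(11,0)]⟩,⟨0,[(2,0),(5,0)]⟩]⟩) (.I [0,0,1,1,0,0,0,0,-1] (.K ⟨2,[0,0,0,1],0,0,
  (⟨0,[(20,0)]⟩,⟨1,[(19,0),(8,0),(0,0)]⟩),.k,(.r (-1) ⟨1,[(18,0),(17,1),(0,0)]⟩ ⟨0,[(0,0)]⟩),(.r 0
  ⟨0,[(0,0),(0,1)]⟩ ⟨1,[(17,0),(18,1),(0,0)]⟩),.k,.k,[⟨2,[(10,0),(5,0),(3,2)]⟩,⟨1,[(16,0),(2,0)]⟩,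
  ⟨1,[(20,1),(4,0),(0,0)]⟩,⟨7,[(4,1),(14,3),(5,4),(0,0)]⟩,⟨0,[(2,0),(5,0),(19,0),(0,0)]⟩,⟨3,[(1,1),
  (1,1),(6,0),(2,0),(1,0),(3,0)]⟩]⟩) (.K ⟨2,[1,0,0,-1],0,0,(⟨1,[(19,0),(8,0),(0,0)]⟩,⟨0,[(20,0)]⟩),
  .k,(.r (-1) ⟨0,[(0,0),(16,0)]⟩ ⟨0,[(1,0),(32,0),(0,0)]⟩),(.x (-1) ⟨3,[(17,0),(0,0),(13,3),(4,1)]⟩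
  ⟨4,[(4,1),(5,0),(14,2),(5,4)]⟩),.k,.k,[⟨1,[(16,0),(2,0)]⟩,⟨2,[(10,0),(5,0),(3,2)]⟩,⟨1,[(16,0),(2,
  0),(6,1)]⟩,⟨4,[(4,1),(5,0),(9,4),(4,2)]⟩,⟨3,[(0,1),(2,1),(11,1),(0,0),(2,0),(6,1)]⟩,⟨0,[(2,0),(5,
  0)]⟩]⟩)))))) (.Q [0,0,-1,0,0,0,2,0,0,2,-2] (.p false [0,0,1] [2,-1,-1] (⟨0,[(24,0)]⟩,⟨0,[(23,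
  0)]⟩) .k 2 (⟨0,[(23,0),(2,0)]⟩,⟨0,[(1,0)]⟩) .k (.r (-1) ⟨1,[(3,1),(4,1),(12,1),(10,0),(0,0)]⟩ ⟨0,
  [(22,1)]⟩)) (.K ⟨2,[-1,1,1],0,0,(⟨0,[(2,0)]⟩,⟨0,[(24,0),(2,0)]⟩),.k,.k,(.r 0 ⟨0,[(4,0),(13,0),(11,
  0),(0,0)]⟩ ⟨0,[(23,0),(8,1),(0,0)]⟩),.k,(.r 0 ⟨0,[(1,0),(0,0),(1,0),(0,0),(19,0)]⟩ ⟨3,[(13,0),(0,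
  0),(8,7),(8,3),(0,1)]⟩),[⟨2,[(6,0),(11,1),(2,0)]⟩,⟨0,[(0,0)]⟩,⟨1,[(18,1),(2,0),(0,0)]⟩,⟨3,[(0,1),
  (20,0),(0,0)]⟩,⟨0,[(17,0),(14,0)]⟩,⟨0,[(11,0)]⟩]⟩) (.Q [0,-1,0,-1,0,0,0,0,-1,-1,0,1] (.p true [0,
  0,0,1] [1] (⟨0,[(16,0)]⟩,⟨1,[(15,0),(8,0),(0,0)]⟩) .k 1 (⟨0,[]⟩,⟨0,[]⟩) .k .k) (.R ⟨0,false,false,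
  false,[0,0,0,1],[0,0,1],[1,0,0,0,0,0,0,0,1],(⟨0,[(17,0)]⟩,⟨1,[(16,0),(8,0),(0,0)]⟩),(⟨0,[(26,0)]⟩,
  ⟨0,[(25,0)]⟩),⟨1,[(3,0),(5,0),(6,0)]⟩,.k,.k,(.r (-1) ⟨1,[(15,0),(17,1),(0,0)]⟩ ⟨1,[(0,1),(4,0),
  (10,0),(6,0),(0,0),(6,0),(0,2)]⟩),.k,.k,.k,⟨false,1,⟨1,[(15,0),(8,1),(9,0)]⟩,⟨3,[(0,3),(0,0),(0,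
  0),(2,3),(10,1),(9,1),(2,0),(0,1)]⟩⟩,⟨true,0,⟨2,[(7,0),(5,0),(3,2)]⟩,⟨7,[(1,1),(14,3),(5,0),(0,
  4)]⟩⟩,⟨true,0,⟨0,[]⟩,⟨0,[(37,0)]⟩⟩,⟨false,0,⟨0,[(0,0),(4,0)]⟩,⟨1,[(15,0),(0,0),(1,0),(2,0),(13,
  0)]⟩⟩,⟨false,0,⟨0,[]⟩,⟨0,[]⟩⟩,⟨false,0,⟨0,[]⟩,⟨0,[]⟩⟩,[.o ⟨false,0,⟨0,[(6,0)]⟩,⟨1,[(21,1),(5,0),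
  (7,0)]⟩⟩,.o ⟨false,1,⟨0,[(20,0),(14,0)]⟩,⟨0,[(18,0)]⟩⟩,.a ⟨true,0,⟨1,[(16,0),(8,0),(0,0)]⟩,⟨0,
  [(17,0)]⟩⟩ ⟨false,1,⟨1,[(15,0),(19,0)]⟩,⟨1,[(0,1),(4,0),(10,0),(4,0),(10,0)]⟩⟩ ⟨true,0,⟨0,[(6,0),
  (10,0)]⟩,⟨1,[(16,0),(1,0),(2,0)]⟩⟩,.o ⟨false,0,⟨7,[(1,1),(14,3),(5,4),(0,0)]⟩,⟨1,[(17,1),(9,0),(6,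
  0)]⟩⟩]⟩) (.Q [0,1,0,0,0,0,0,0,-1,-1,0,1] (.p true [0,0,0,1] [1] (⟨0,[(17,0)]⟩,⟨1,[(16,0),(8,0),(0,
  0)]⟩) .k 1 (⟨0,[]⟩,⟨0,[]⟩) .k .k) (.I [0,0,1,1,0,0,0,1,1] (.K ⟨2,[1,0,0,-1],0,0,(⟨1,[(18,0),(8,0),
  (0,0)]⟩,⟨0,[(19,0)]⟩),.k,(.r (-1) ⟨1,[(16,0),(18,1),(0,0)]⟩ ⟨0,[(0,0),(25,0)]⟩),(.x (-1) ⟨3,[(16,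
  0),(0,0),(13,3),(4,1)]⟩ ⟨4,[(3,1),(5,0),(14,2),(5,4)]⟩),.k,.k,[⟨1,[(15,0),(2,0)]⟩,⟨2,[(9,0),(5,0),
  (3,2)]⟩,⟨1,[(15,0),(2,0),(6,1)]⟩,⟨4,[(3,1),(5,0),(9,4),(4,2)]⟩,⟨0,[(2,0),(32,0)]⟩,⟨0,[(1,0)]⟩]⟩)
  (.K ⟨2,[1,0,0,-1],0,0,(⟨1,[(18,0),(8,0),(0,0)]⟩,⟨0,[(19,0)]⟩),.k,(.x 0 ⟨4,[(3,1),(5,0),(14,2),(5,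
  4)]⟩ ⟨3,[(16,0),(0,0),(13,3),(4,1)]⟩),(.r 0 ⟨6,[(0,4),(0,1),(1,1),(3,4),(10,0),(6,0),(7,8),(0,
  6)]⟩ ⟨3,[(0,1),(9,1),(6,2),(18,0)]⟩),.k,.k,[⟨1,[(15,0),(2,0)]⟩,⟨2,[(9,0),(5,0),(3,2)]⟩,⟨1,[(15,0),
  (2,0),(6,1)]⟩,⟨4,[(3,1),(5,0),(9,4),(4,2)]⟩,⟨0,[(2,0),(32,0)]⟩,⟨0,[(1,0)]⟩]⟩)) (.I [0,0,-1,-1,0,0,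
  0,0,1] (.R ⟨0,false,false,false,[0,0,0,1],[0,0,1],[0,0,0,-1,0,0,0,0,1],(⟨0,[(19,0)]⟩,⟨1,[(18,0),
  (8,0),(0,0)]⟩),(⟨0,[(28,0)]⟩,⟨0,[(27,0)]⟩),⟨1,[(5,0),(5,0),(6,0)]⟩,.k,.k,(.r 0 ⟨0,[(0,0)]⟩ ⟨1,
  [(16,0),(7,0),(0,0),(8,1),(2,0)]⟩),.k,.k,.k,⟨false,0,⟨0,[(0,0),(25,0)]⟩,⟨3,[(3,1),(3,1),(6,1),(1,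
  1),(19,0),(0,0)]⟩⟩,⟨true,0,⟨2,[(9,0),(5,0),(3,2)]⟩,⟨7,[(3,1),(14,3),(5,0),(0,4)]⟩⟩,⟨true,0,⟨0,
  [(35,0)]⟩,⟨0,[(34,0)]⟩⟩,⟨false,1,⟨1,[(8,1),(7,0),(2,1),(17,0)]⟩,⟨0,[(1,0),(18,0)]⟩⟩,⟨false,0,⟨0,
  []⟩,⟨0,[]⟩⟩,⟨false,0,⟨0,[]⟩,⟨0,[]⟩⟩,[.o ⟨false,0,⟨0,[(8,0)]⟩,⟨1,[(23,1),(5,0),(7,0)]⟩⟩,.o ⟨false,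
  1,⟨0,[(22,0),(14,0)]⟩,⟨0,[(20,0)]⟩⟩,.a ⟨true,0,⟨1,[(18,0),(8,0),(0,0)]⟩,⟨0,[(19,0)]⟩⟩ ⟨false,0,⟨0,
  [(0,0),(32,0)]⟩,⟨1,[(16,0),(17,1),(2,0)]⟩⟩ ⟨true,0,⟨0,[(8,0),(10,0)]⟩,⟨1,[(18,0),(1,0),(2,0)]⟩⟩,
  .o ⟨false,0,⟨7,[(3,1),(14,3),(5,4),(0,0)]⟩,⟨1,[(19,1),(9,0),(6,0)]⟩⟩]⟩) (.R ⟨0,false,false,true,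
  [0,0,0,1],[1,0,-1],[0,1,0,0,0,0,0,0,1],(⟨0,[(19,0)]⟩,⟨1,[(18,0),(8,0),(0,0)]⟩),(⟨0,[(27,0)]⟩,⟨0,
  [(28,0)]⟩),⟨1,[(5,0),(5,0),(6,0)]⟩,.k,.k,(.x 0 ⟨4,[(3,1),(5,0),(14,2),(5,4)]⟩ ⟨3,[(16,0),(0,0),
  (13,3),(4,1)]⟩),.k,.k,.k,⟨true,0,⟨1,[(1,1),(1,0),(4,1),(10,1),(12,0)]⟩,⟨0,[(0,0),(25,0),(8,0)]⟩⟩,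
  ⟨false,1,⟨7,[(3,3),(12,0),(0,0),(1,7),(16,5)]⟩,⟨1,[(15,0),(2,0)]⟩⟩,⟨true,0,⟨0,[(39,0)]⟩,⟨0,[]⟩⟩,
  ⟨false,1,⟨1,[(16,0),(2,1),(0,1),(16,0)]⟩,⟨0,[(1,0),(6,0)]⟩⟩,⟨false,0,⟨0,[]⟩,⟨0,[]⟩⟩,⟨false,0,⟨0,
  []⟩,⟨0,[]⟩⟩,[.o ⟨false,0,⟨0,[(20,0)]⟩,⟨0,[(22,0),(14,0)]⟩⟩,.o ⟨false,1,⟨1,[(23,1),(5,0),(7,0)]⟩,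
  ⟨0,[(8,0)]⟩⟩,.a ⟨true,0,⟨1,[(18,0),(8,0),(0,0)]⟩,⟨0,[(19,0)]⟩⟩ ⟨false,0,⟨9,[(1,7),(0,1),(0,0),(5,
  3),(2,1),(6,9),(0,1),(11,0)]⟩,⟨1,[(16,0),(20,0)]⟩⟩ ⟨true,0,⟨0,[(19,0),(0,0)]⟩,⟨5,[(7,1),(0,1),(1,
  1),(4,0),(2,2)]⟩⟩,.o ⟨false,0,⟨7,[(3,1),(14,3),(5,4),(0,0)]⟩,⟨1,[(19,1),(9,0),(6,0)]⟩⟩]⟩))))))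
  (.Q [0,0,0,-1,0,0,-1,-1,0,0,1] (.p true [0,0,1] [] (⟨0,[(23,0)]⟩,⟨0,[(22,0)]⟩) .k 0 (⟨0,[]⟩,⟨0,
  []⟩) .k .k) (.R ⟨2,true,false,true,[0,1],[0,1,1],[1,0,1,1],(⟨0,[]⟩,⟨0,[]⟩),(⟨0,[(24,0),(2,0)]⟩,⟨0,
  [(1,0)]⟩),⟨0,[]⟩,.k,.k,.k,.k,.k,.k,⟨false,1,⟨1,[(22,1),(9,0),(0,0)]⟩,⟨0,[(6,0),(23,0)]⟩⟩,⟨true,0,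
  ⟨0,[(9,0)]⟩,⟨0,[(21,0)]⟩⟩,⟨true,0,⟨0,[]⟩,⟨0,[(35,0)]⟩⟩,⟨false,0,⟨0,[(4,0)]⟩,⟨0,[(19,0),(13,0)]⟩⟩,
  ⟨false,1,⟨0,[(30,0),(2,0)]⟩,⟨0,[(31,0)]⟩⟩,⟨true,0,⟨2,[(3,1),(1,0),(2,0),(21,1)]⟩,⟨0,[(0,0)]⟩⟩,
  []⟩) (.I [0,0,1,1,0,0,0,2] (.Q [0,0,-1,0,0,0,2,0,0,1,-2] (.p false [0,0,1] [1,0,-1] (⟨0,[(25,0)]⟩,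
  ⟨0,[(24,0)]⟩) .k 2 (⟨0,[(24,0)]⟩,⟨0,[(25,0)]⟩) .k (.r (-1) ⟨2,[(0,1),(6,1),(5,0),(0,0),(18,0)]⟩
  ⟨0,[(23,1)]⟩)) (.K ⟨2,[0,1,1],0,0,(⟨0,[(26,0),(2,0)]⟩,⟨0,[(3,0)]⟩),.k,.k,(.r 0 ⟨1,[(1,0),(29,2),
  (0,2)]⟩ ⟨0,[(24,0),(8,1),(0,0)]⟩),.k,(.r 0 ⟨0,[(1,0)]⟩ ⟨3,[(14,0),(0,0),(8,7),(8,3),(0,1)]⟩),[⟨1,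
  [(22,0),(0,0)]⟩,⟨0,[(0,0)]⟩,⟨1,[(22,0),(0,2)]⟩,⟨0,[(11,0)]⟩,⟨0,[(21,0),(11,0)]⟩,⟨1,[(2,0),(17,0),
  (11,0)]⟩]⟩) (.I [1,-1,0,0,0,0,0,1,-1] (.Q [0,0,0,0,0,-1,0,0,0,1,0,-1] (.p false [0,0,0,1] [1] (⟨0,
  [(18,0)]⟩,⟨1,[(17,0),(8,0),(0,0)]⟩) .k 1 (⟨0,[]⟩,⟨0,[]⟩) .k .k) (.R ⟨1,false,false,true,[1,0,0,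
  -1],[1,-1,-1],[1,1,0,0,0,0,0,0,-1],(⟨1,[(18,0),(8,0),(0,0)]⟩,⟨0,[(19,0)]⟩),(⟨0,[(5,0)]⟩,⟨0,[(28,
  0),(2,0)]⟩),⟨0,[(0,0)]⟩,.k,.k,(.x 0 ⟨2,[(9,0),(11,1),(2,0),(5,2)]⟩ ⟨3,[(16,0),(0,0),(13,3),(4,
  1)]⟩),(.r 0 ⟨1,[(1,1),(22,0),(0,0),(8,1)]⟩ ⟨1,[(17,0),(8,1),(8,1),(0,0)]⟩),.k,.k,⟨false,0,⟨0,[(1,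
  0),(32,0)]⟩,⟨1,[(17,0),(8,1),(8,1),(0,0)]⟩⟩,⟨true,0,⟨3,[(2,1),(15,1),(5,0),(0,0)]⟩,⟨2,[(9,0),(5,
  0),(3,2)]⟩⟩,⟨false,0,⟨0,[]⟩,⟨3,[(16,0),(0,0),(19,1)]⟩⟩,⟨false,1,⟨1,[(17,0),(0,0),(1,0),(2,0),(11,
  1),(1,0)]⟩,⟨0,[(1,0),(2,0),(14,0),(6,0)]⟩⟩,⟨true,0,⟨0,[(34,0)]⟩,⟨0,[(35,0)]⟩⟩,⟨false,1,⟨1,[(17,0),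
  (0,0),(1,0),(2,0),(13,0)]⟩,⟨2,[(1,2),(7,0),(5,0),(3,2)]⟩⟩,[.o ⟨false,0,⟨0,[(20,0),(14,0)]⟩,⟨3,[(4,
  1),(9,1),(14,0),(7,2)]⟩⟩,.o ⟨false,1,⟨1,[(23,1),(5,0),(5,1),(1,0)]⟩,⟨0,[(4,0)]⟩⟩,.a ⟨true,0,⟨0,
  [(19,0)]⟩,⟨1,[(18,0),(8,0),(0,0)]⟩⟩ ⟨false,0,⟨1,[(1,1),(13,0),(4,0),(2,0)]⟩,⟨1,[(17,0),(19,0)]⟩⟩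
  ⟨true,0,⟨1,[(18,0),(1,0),(2,0),(11,1)]⟩,⟨0,[(4,0),(14,0)]⟩⟩,.o ⟨false,0,⟨2,[(9,0),(9,2),(1,1),(2,
  0)]⟩,⟨7,[(16,0),(0,0),(0,3),(10,1),(6,3)]⟩⟩]⟩) (.R ⟨0,false,false,false,[0,0,0,1],[0,0,1],[0,1,0,
  0,0,0,0,0,1],(⟨0,[(19,0)]⟩,⟨1,[(18,0),(8,0),(0,0)]⟩),(⟨0,[(28,0)]⟩,⟨0,[(27,0)]⟩),⟨0,[(0,0),(17,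
  0)]⟩,.k,.k,(.r (-1) ⟨1,[(17,0),(17,1),(0,0)]⟩ ⟨1,[(1,1),(22,0),(0,0),(0,1),(7,1)]⟩),.k,.k,.k,
  ⟨false,1,⟨1,[(15,0),(1,0),(2,0),(2,0),(12,0)]⟩,⟨0,[(1,0)]⟩⟩,⟨true,0,⟨2,[(9,0),(5,0),(3,2)]⟩,⟨3,
  [(2,1),(15,1),(5,0),(0,0)]⟩⟩,⟨true,0,⟨0,[(39,0)]⟩,⟨0,[]⟩⟩,⟨false,0,⟨2,[(1,2),(7,0),(5,0),(3,2)]⟩,
  ⟨1,[(17,0),(0,0),(1,0),(2,0),(13,0)]⟩⟩,⟨false,0,⟨0,[]⟩,⟨0,[]⟩⟩,⟨false,0,⟨0,[]⟩,⟨0,[]⟩⟩,[.o ⟨false,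
  0,⟨0,[(8,0)]⟩,⟨1,[(23,1),(5,0),(7,0)]⟩⟩,.o ⟨false,1,⟨0,[(22,0),(14,0)]⟩,⟨0,[(20,0)]⟩⟩,.a ⟨true,0,
  ⟨1,[(18,0),(8,0),(0,0)]⟩,⟨0,[(19,0)]⟩⟩ ⟨false,1,⟨3,[(16,0),(0,2)]⟩,⟨0,[(1,0),(24,0)]⟩⟩ ⟨true,0,⟨0,
  [(8,0),(10,0)]⟩,⟨1,[(18,0),(1,0),(2,0)]⟩⟩,.o ⟨false,0,⟨1,[(18,0),(2,0),(2,0)]⟩,⟨1,[(19,1),(9,0),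
  (6,0)]⟩⟩]⟩)) (.Q [0,-1,0,1,0,0,1,1,1,1,-1,-1] (.p false [0,0,1] [1,0,0,-1] (⟨0,[(27,0)]⟩,⟨0,[(26,
  0)]⟩) .k 2 (⟨1,[(17,0),(8,0),(0,0)]⟩,⟨0,[(18,0)]⟩) .k (.x 0 ⟨2,[(8,0),(5,0),(12,2)]⟩ ⟨3,[(1,1),
  (13,0),(0,0),(9,3),(1,0),(6,0)]⟩)) (.Q [0,0,0,0,0,-1,0,0,0,1,0,-1] (.p false [0,0,0,1] [1] (⟨0,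
  [(19,0)]⟩,⟨1,[(18,0),(8,0),(0,0)]⟩) .k 1 (⟨0,[]⟩,⟨0,[]⟩) .k .k) (.R ⟨1,false,false,false,[1,0,0,
  -1],[0,0,1],[1,0,0,0,0,0,0,0,-1],(⟨1,[(19,0),(8,0),(0,0)]⟩,⟨0,[(20,0)]⟩),(⟨0,[(29,0)]⟩,⟨0,[(28,
  0)]⟩),⟨0,[(0,0)]⟩,.k,.k,(.r (-1) ⟨1,[(17,0),(18,1),(0,0)]⟩ ⟨2,[(1,0),(0,1),(0,0),(1,0),(14,0),(13,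
  1),(0,0)]⟩),.k,(.r (-1) ⟨1,[(17,0),(9,1),(8,1),(0,0)]⟩ ⟨1,[(1,0),(0,0),(1,0),(15,0),(1,0)]⟩),.k,
  ⟨false,1,⟨1,[(17,0),(9,1),(9,0)]⟩,⟨1,[(1,1),(1,0),(3,0),(12,1),(12,0),(2,0)]⟩⟩,⟨true,0,⟨1,[(16,0),
  (2,0)]⟩,⟨0,[(20,0),(1,0)]⟩⟩,⟨true,0,⟨0,[]⟩,⟨0,[(40,0)]⟩⟩,⟨false,0,⟨0,[(1,0),(34,0)]⟩,⟨1,[(17,0),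
  (2,1),(0,1),(16,0)]⟩⟩,⟨false,1,⟨0,[(35,0),(2,0)]⟩,⟨0,[(36,0)]⟩⟩,⟨false,0,⟨0,[(1,0)]⟩,⟨1,[(17,0),
  (2,1),(0,1),(14,1),(1,0)]⟩⟩,[.o ⟨false,0,⟨0,[(9,0)]⟩,⟨1,[(24,1),(5,0),(7,0)]⟩⟩,.o ⟨false,1,⟨0,
  [(23,0),(14,0)]⟩,⟨0,[(21,0)]⟩⟩,.a ⟨true,0,⟨0,[(20,0)]⟩,⟨1,[(19,0),(8,0),(0,0)]⟩⟩ ⟨false,1,⟨1,[(17,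
  0),(20,0)]⟩,⟨0,[(1,0),(18,0),(0,0),(14,0)]⟩⟩ ⟨true,0,⟨5,[(8,1),(0,1),(1,1),(4,0),(2,2)]⟩,⟨0,[(20,
  0),(0,0)]⟩⟩,.o ⟨false,0,⟨2,[(10,0),(9,2),(1,1),(2,0)]⟩,⟨7,[(17,0),(0,0),(0,3),(10,1),(6,3)]⟩⟩]⟩)
  (.R ⟨0,false,false,false,[1,0,0,-1],[0,0,1],[1,0,0,0,0,0,0,0,-1],(⟨1,[(19,0),(8,0),(0,0)]⟩,⟨0,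
  [(20,0)]⟩),(⟨0,[(29,0)]⟩,⟨0,[(28,0)]⟩),⟨0,[(0,0)]⟩,.k,.k,(.r (-1) ⟨1,[(17,0),(18,1),(0,0)]⟩ ⟨2,
  [(1,0),(0,1),(0,0),(1,0),(14,0),(13,1),(0,0)]⟩),.k,.k,.k,⟨false,1,⟨1,[(17,0),(9,1),(9,0)]⟩,⟨1,[(1,
  1),(1,0),(3,0),(12,1),(12,0),(2,0)]⟩⟩,⟨true,0,⟨1,[(16,0),(2,0)]⟩,⟨0,[(20,0),(1,0)]⟩⟩,⟨true,0,⟨0,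
  []⟩,⟨0,[(40,0)]⟩⟩,⟨false,0,⟨0,[(1,0),(34,0)]⟩,⟨1,[(17,0),(2,1),(0,1),(16,0)]⟩⟩,⟨false,0,⟨0,[]⟩,⟨0,
  []⟩⟩,⟨false,0,⟨0,[]⟩,⟨0,[]⟩⟩,[.o ⟨false,0,⟨0,[(9,0)]⟩,⟨1,[(24,1),(5,0),(7,0)]⟩⟩,.o ⟨false,1,⟨0,
  [(23,0),(14,0)]⟩,⟨0,[(21,0)]⟩⟩,.a ⟨true,0,⟨0,[(20,0)]⟩,⟨1,[(19,0),(8,0),(0,0)]⟩⟩ ⟨false,1,⟨1,[(17,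
  0),(20,0)]⟩,⟨0,[(1,0),(18,0),(0,0),(14,0)]⟩⟩ ⟨true,0,⟨5,[(8,1),(0,1),(1,1),(4,0),(2,2)]⟩,⟨0,[(20,
  0),(0,0)]⟩⟩,.o ⟨false,0,⟨2,[(10,0),(9,2),(1,1),(2,0)]⟩,⟨7,[(17,0),(0,0),(0,3),(10,1),(6,3)]⟩⟩]⟩))
  (.Q [0,1,0,1,0,0,1,1,1,1,-1,-1] (.p false [0,0,1] [1,0,0,-1] (⟨0,[(28,0)]⟩,⟨0,[(27,0)]⟩) .k 2 (⟨1,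
  [(18,0),(8,0),(0,0)]⟩,⟨0,[(19,0)]⟩) .k (.x 0 ⟨2,[(9,0),(5,0),(12,2)]⟩ ⟨3,[(2,1),(13,0),(0,0),(9,
  3),(1,0),(6,0)]⟩)) (.I [0,1,1,0,-1,0,0,-1,-1] (.Q [0,1,0,0,0,0,0,0,1,1,0,-1] (.p false [0,0,0,1]
  [1] (⟨0,[(21,0)]⟩,⟨1,[(20,0),(8,0),(0,0)]⟩) .k 1 (⟨0,[]⟩,⟨0,[]⟩) .k .k) (.K ⟨2,[1,0,0,-1],0,0,(⟨1,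
  [(21,0),(8,0),(0,0)]⟩,⟨0,[(22,0)]⟩),.k,(.x 0 ⟨2,[(12,0),(11,1),(2,0),(5,2)]⟩ ⟨3,[(19,0),(0,0),(13,
  3),(4,1)]⟩),(.r 0 ⟨5,[(1,3),(3,1),(1,1),(2,1),(8,0),(17,1),(2,2)]⟩ ⟨1,[(20,0),(17,1),(0,0)]⟩),.k,
  .k,[⟨1,[(18,0),(2,0)]⟩,⟨2,[(12,0),(5,0),(3,2)]⟩,⟨1,[(18,0),(2,0),(6,1)]⟩,⟨2,[(12,0),(9,2),(1,1),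
  (2,0)]⟩,⟨0,[(0,0)]⟩,⟨0,[(3,0),(3,0)]⟩]⟩) (.Q [0,1,0,-1,0,0,0,0,1,0,0,-1] (.p false [0,0,0,1] []
  (⟨0,[(22,0)]⟩,⟨1,[(21,0),(8,0),(0,0)]⟩) .k 0 (⟨0,[]⟩,⟨0,[]⟩) .k .k) (.R ⟨2,true,false,true,[0,1],
  [0,0,0,1],[1,1,1,1],(⟨0,[]⟩,⟨0,[]⟩),(⟨0,[(23,0)]⟩,⟨1,[(22,0),(8,0),(0,0)]⟩),⟨0,[]⟩,.k,.k,.k,(.r 0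
  ⟨29,[(1,3),(0,19),(3,1),(0,7),(3,3),(8,2),(1,1),(15,17),(2,16)]⟩ ⟨1,[(21,0),(17,1),(0,0)]⟩),.k,.k,
  ⟨false,0,⟨1,[(1,1),(9,0),(10,0),(4,0),(10,0)]⟩,⟨1,[(21,0),(17,1),(0,0)]⟩⟩,⟨true,0,⟨1,[(22,0),(2,
  0),(2,0)]⟩,⟨0,[(23,0)]⟩⟩,⟨false,0,⟨0,[]⟩,⟨3,[(20,0),(0,0),(19,1)]⟩⟩,⟨true,0,⟨0,[(0,0)]⟩,⟨0,[(1,0),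
  (9,0),(15,0)]⟩⟩,⟨true,0,⟨0,[(38,0)]⟩,⟨0,[(39,0)]⟩⟩,⟨false,1,⟨7,[(20,0),(0,4),(0,3),(10,1)]⟩,⟨0,
  [(1,0),(29,0),(0,0)]⟩⟩,[]⟩) (.Q [0,0,0,0,0,1,0,0,0,0,0,-1] (.p false [0,0,0,1] [] (⟨0,[(23,0)]⟩,
  ⟨1,[(22,0),(8,0),(0,0)]⟩) .k 0 (⟨0,[]⟩,⟨0,[]⟩) .k .k) (.R ⟨0,false,false,false,[0,0,0,1],[0,0,1],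
  [0,0,0,0,0,0,0,1],(⟨0,[(24,0)]⟩,⟨1,[(23,0),(8,0),(0,0)]⟩),(⟨0,[(33,0)]⟩,⟨0,[(32,0)]⟩),⟨0,[(0,0)]⟩,
  .k,.k,(.r (-1) ⟨1,[(22,0),(17,1),(0,0)]⟩ ⟨125,[(1,67),(1,19),(3,31),(0,9),(12,18),(1,33),(5,63),
  (4,0),(4,47)]⟩),.k,.k,.k,⟨false,1,⟨3,[(21,0),(0,0),(18,1)]⟩,⟨0,[]⟩⟩,⟨true,0,⟨2,[(14,0),(5,0),(3,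
  2)]⟩,⟨3,[(7,1),(15,1),(5,0),(0,0)]⟩⟩,⟨true,0,⟨45,[(1,16),(0,16),(0,3),(4,10),(6,27),(5,3),(1,16),
  (13,14)]⟩,⟨0,[(6,0)]⟩⟩,⟨false,0,⟨2,[(1,0),(0,1),(9,0),(2,1),(4,0)]⟩,⟨1,[(22,0),(0,0),(1,0),(2,0),
  (13,0)]⟩⟩,⟨false,0,⟨0,[]⟩,⟨0,[]⟩⟩,⟨false,0,⟨0,[]⟩,⟨0,[]⟩⟩,[.o ⟨false,0,⟨0,[(13,0)]⟩,⟨1,[(28,1),(5,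
  0),(7,0)]⟩⟩,.o ⟨false,1,⟨0,[(27,0),(14,0)]⟩,⟨0,[(25,0)]⟩⟩,.a ⟨true,0,⟨1,[(23,0),(8,0),(0,0)]⟩,⟨0,
  [(24,0)]⟩⟩ ⟨false,1,⟨5,[(8,1),(6,1),(5,0),(0,0),(18,0),(0,2)]⟩,⟨0,[(31,0)]⟩⟩ ⟨true,0,⟨0,[(13,0),
  (10,0)]⟩,⟨1,[(23,0),(1,0),(2,0)]⟩⟩,.o ⟨false,0,⟨1,[(23,0),(2,0),(2,0)]⟩,⟨1,[(24,1),(9,0),(6,
  0)]⟩⟩]⟩) (.R ⟨1,false,false,false,[0,0,0,1],[0,0,1],[0,0,0,-1,0,0,0,0,1],(⟨0,[(24,0)]⟩,⟨1,[(23,0),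
  (8,0),(0,0)]⟩),(⟨0,[(33,0)]⟩,⟨0,[(32,0)]⟩),⟨0,[(0,0)]⟩,.k,.k,(.r (-1) ⟨1,[(22,0),(17,1),(0,0)]⟩
  ⟨125,[(1,67),(1,19),(3,31),(0,9),(12,18),(1,33),(5,63),(4,0),(4,47)]⟩),.k,(.r (-1) ⟨1,[(22,0),(8,
  1),(8,1),(0,0)]⟩ ⟨62,[(1,19),(1,16),(3,1),(0,39),(12,12),(1,9),(5,3),(4,3),(4,2)]⟩),.k,⟨false,1,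
  ⟨1,[(22,0),(8,1),(8,1),(0,0)]⟩,⟨1,[(1,0),(0,0),(5,0),(14,0),(13,0)]⟩⟩,⟨true,0,⟨2,[(14,0),(5,0),(3,
  2)]⟩,⟨3,[(7,1),(15,1),(5,0),(0,0)]⟩⟩,⟨true,0,⟨0,[(40,0)]⟩,⟨0,[(39,0)]⟩⟩,⟨false,0,⟨2,[(1,0),(0,1),
  (9,0),(2,1),(4,0)]⟩,⟨1,[(22,0),(0,0),(1,0),(2,0),(13,0)]⟩⟩,⟨false,1,⟨3,[(21,0),(0,0),(19,1)]⟩,⟨0,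
  []⟩⟩,⟨false,0,⟨0,[(2,0),(9,0)]⟩,⟨1,[(22,0),(0,0),(1,0),(2,0),(11,1),(1,0)]⟩⟩,[.o ⟨false,0,⟨0,[(13,
  0)]⟩,⟨1,[(28,1),(5,0),(7,0)]⟩⟩,.o ⟨false,1,⟨0,[(27,0),(14,0)]⟩,⟨0,[(25,0)]⟩⟩,.a ⟨true,0,⟨1,[(23,
  0),(8,0),(0,0)]⟩,⟨0,[(24,0)]⟩⟩ ⟨false,1,⟨1,[(22,0),(17,1),(1,0)]⟩,⟨31,[(1,12),(0,12),(0,1),(4,0),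
  (12,1),(1,12),(13,2),(1,17)]⟩⟩ ⟨true,0,⟨0,[(13,0),(10,0)]⟩,⟨1,[(23,0),(1,0),(2,0)]⟩⟩,.o ⟨false,0,
  ⟨1,[(23,0),(2,0),(2,0)]⟩,⟨1,[(24,1),(9,0),(6,0)]⟩⟩]⟩)))) (.Q [0,1,0,0,0,0,-1,-1,-1,-1,1,1] (.p
  true [0,0,1] [1,0,0,-1] (⟨0,[(30,0)]⟩,⟨0,[(29,0)]⟩) .k 2 (⟨1,[(20,0),(8,0),(0,0)]⟩,⟨0,[(21,0)]⟩)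
  .k (.x 0 ⟨2,[(11,0),(5,0),(12,2)]⟩ ⟨3,[(4,1),(13,0),(0,0),(9,3),(1,0),(6,0)]⟩)) (.Q [0,1,0,0,0,0,
  0,0,1,0,0,-1] (.p false [0,0,0,1] [] (⟨0,[(22,0)]⟩,⟨1,[(21,0),(8,0),(0,0)]⟩) .k 0 (⟨0,[]⟩,⟨0,[]⟩)
  .k .k) (.I [0,0,1,1,0,0,0,0,1] (.K ⟨2,[0,0,0,1],0,0,(⟨0,[(24,0)]⟩,⟨1,[(23,0),(8,0),(0,0)]⟩),.k,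
  (.r (-1) ⟨1,[(22,0),(17,1),(0,0)]⟩ ⟨1,[(2,1),(6,0),(2,0),(10,0),(14,1)]⟩),(.r 0 ⟨0,[(0,0)]⟩ ⟨1,
  [(21,0),(18,1),(0,0)]⟩),.k,.k,[⟨2,[(14,0),(5,0),(3,2)]⟩,⟨1,[(20,0),(2,0)]⟩,⟨1,[(24,1),(4,0),(0,
  0)]⟩,⟨1,[(23,0),(2,0),(2,0)]⟩,⟨0,[(5,0),(6,0)]⟩,⟨0,[(1,0)]⟩]⟩) (.K ⟨2,[0,0,0,1],0,0,(⟨0,[(24,0)]⟩,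
  ⟨1,[(23,0),(8,0),(0,0)]⟩),.k,(.r (-1) ⟨0,[(0,0),(21,0)]⟩ ⟨1,[(2,1),(6,0),(2,0),(10,0),(14,1)]⟩),
  (.x (-1) ⟨3,[(21,0),(0,0),(13,3),(4,1)]⟩ ⟨2,[(14,0),(11,1),(2,0),(5,2)]⟩),.k,.k,[⟨2,[(14,0),(5,0),
  (3,2)]⟩,⟨1,[(20,0),(2,0)]⟩,⟨1,[(24,1),(4,0),(0,0)]⟩,⟨1,[(23,0),(2,0),(2,0)]⟩,⟨0,[(5,0),(6,0)]⟩,⟨0,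
  [(1,0)]⟩]⟩)) (.Q [0,1,0,-1,0,0,0,0,1,0,0,-1] (.p false [0,0,0,1] [] (⟨0,[(23,0)]⟩,⟨1,[(22,0),(8,
  0),(0,0)]⟩) .k 0 (⟨0,[]⟩,⟨0,[]⟩) .k .k) (.R ⟨2,true,false,true,[0,1],[0,0,0,1],[1,1,1,1],(⟨0,[]⟩,
  ⟨0,[]⟩),(⟨0,[(24,0)]⟩,⟨1,[(23,0),(8,0),(0,0)]⟩),⟨0,[]⟩,.k,.k,.k,(.r 0 ⟨7,[(1,3),(0,3),(5,0),(0,1),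
  (13,3),(5,1),(8,4),(0,4)]⟩ ⟨1,[(22,0),(17,1),(0,0)]⟩),.k,.k,⟨false,0,⟨1,[(1,1),(7,0),(13,0),(1,0),
  (13,0)]⟩,⟨1,[(22,0),(17,1),(0,0)]⟩⟩,⟨true,0,⟨1,[(23,0),(2,0),(2,0)]⟩,⟨0,[(24,0)]⟩⟩,⟨false,0,⟨0,
  []⟩,⟨3,[(21,0),(0,0),(19,1)]⟩⟩,⟨true,0,⟨0,[(0,0)]⟩,⟨0,[(1,0),(37,0)]⟩⟩,⟨true,0,⟨0,[(39,0)]⟩,⟨0,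
  [(40,0)]⟩⟩,⟨false,1,⟨7,[(21,0),(0,4),(0,3),(10,1)]⟩,⟨0,[(1,0)]⟩⟩,[]⟩) (.Q [0,0,0,0,0,-1,0,0,0,0,0,
  1] (.p true [0,0,0,1] [] (⟨0,[(24,0)]⟩,⟨1,[(23,0),(8,0),(0,0)]⟩) .k 0 (⟨0,[]⟩,⟨0,[]⟩) .k .k) (.R
  ⟨1,false,false,false,[0,0,0,1],[0,0,1],[0,0,0,-1,0,0,0,0,1],(⟨0,[(25,0)]⟩,⟨1,[(24,0),(8,0),(0,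
  0)]⟩),(⟨0,[(34,0)]⟩,⟨0,[(33,0)]⟩),⟨0,[(0,0)]⟩,.k,.k,(.r (-1) ⟨1,[(23,0),(17,1),(0,0)]⟩ ⟨19,[(1,
  11),(1,7),(4,1),(0,3),(14,9),(5,12),(0,0),(8,3)]⟩),.k,(.r (-1) ⟨1,[(23,0),(8,1),(8,1),(0,0)]⟩ ⟨13,
  [(1,7),(1,3),(2,1),(2,8),(8,0),(5,6),(3,0),(1,4)]⟩),.k,⟨false,1,⟨1,[(23,0),(8,1),(8,1),(0,0)]⟩,⟨9,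
  [(1,9),(6,0),(0,1),(0,1),(7,3),(5,4),(13,2)]⟩⟩,⟨true,0,⟨2,[(15,0),(5,0),(3,2)]⟩,⟨3,[(8,1),(15,1),
  (5,0),(0,0)]⟩⟩,⟨true,0,⟨0,[(41,0)]⟩,⟨0,[(40,0)]⟩⟩,⟨false,0,⟨0,[(2,0),(11,0)]⟩,⟨1,[(23,0),(0,0),(1,
  0),(2,0),(13,0)]⟩⟩,⟨false,1,⟨3,[(22,0),(0,0),(19,1)]⟩,⟨0,[]⟩⟩,⟨false,0,⟨0,[(2,0),(7,0)]⟩,⟨1,[(23,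
  0),(0,0),(1,0),(2,0),(11,1),(1,0)]⟩⟩,[.o ⟨false,0,⟨0,[(14,0)]⟩,⟨1,[(29,1),(5,0),(7,0)]⟩⟩,.o
  ⟨false,1,⟨0,[(28,0),(14,0)]⟩,⟨0,[(26,0)]⟩⟩,.a ⟨true,0,⟨1,[(24,0),(8,0),(0,0)]⟩,⟨0,[(25,0)]⟩⟩
  ⟨false,1,⟨1,[(23,0),(17,1),(1,0)]⟩,⟨1,[(1,0),(1,0),(6,0),(13,0)]⟩⟩ ⟨true,0,⟨0,[(14,0),(10,0)]⟩,⟨1,
  [(24,0),(1,0),(2,0)]⟩⟩,.o ⟨false,0,⟨1,[(24,0),(2,0),(2,0)]⟩,⟨1,[(25,1),(9,0),(6,0)]⟩⟩]⟩) (.R ⟨0,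
  false,false,false,[0,0,0,1],[0,0,1],[0,0,0,0,0,0,0,1],(⟨0,[(25,0)]⟩,⟨1,[(24,0),(8,0),(0,0)]⟩),(⟨0,
  [(34,0)]⟩,⟨0,[(33,0)]⟩),⟨0,[(0,0)]⟩,.k,.k,(.r (-1) ⟨1,[(23,0),(17,1),(0,0)]⟩ ⟨19,[(1,11),(1,7),(4,
  1),(0,3),(14,9),(5,12),(0,0),(8,3)]⟩),.k,.k,.k,⟨false,1,⟨3,[(22,0),(0,0),(18,1)]⟩,⟨0,[]⟩⟩,⟨true,0,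
  ⟨2,[(15,0),(5,0),(3,2)]⟩,⟨3,[(8,1),(15,1),(5,0),(0,0)]⟩⟩,⟨true,0,⟨3,[(1,0),(0,2),(6,0),(8,1),(5,
  1),(13,0)]⟩,⟨0,[(7,0)]⟩⟩,⟨false,0,⟨0,[(2,0),(11,0)]⟩,⟨1,[(23,0),(0,0),(1,0),(2,0),(13,0)]⟩⟩,
  ⟨false,0,⟨0,[]⟩,⟨0,[]⟩⟩,⟨false,0,⟨0,[]⟩,⟨0,[]⟩⟩,[.o ⟨false,0,⟨0,[(14,0)]⟩,⟨1,[(29,1),(5,0),(7,
  0)]⟩⟩,.o ⟨false,1,⟨0,[(28,0),(14,0)]⟩,⟨0,[(26,0)]⟩⟩,.a ⟨true,0,⟨1,[(24,0),(8,0),(0,0)]⟩,⟨0,[(25,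
  0)]⟩⟩ ⟨false,1,⟨7,[(4,1),(4,1),(6,1),(5,1),(0,0),(19,2)]⟩,⟨0,[(32,0)]⟩⟩ ⟨true,0,⟨0,[(14,0),(10,
  0)]⟩,⟨1,[(24,0),(1,0),(2,0)]⟩⟩,.o ⟨false,0,⟨1,[(24,0),(2,0),(2,0)]⟩,⟨1,[(25,1),(9,0),(6,
  0)]⟩⟩]⟩)))) (.K ⟨2,[0,0,0,1],0,0,(⟨0,[(22,0)]⟩,⟨1,[(21,0),(8,0),(0,0)]⟩),.k,(.x 0 ⟨2,[(12,0),(11,
  1),(2,0),(5,2)]⟩ ⟨3,[(19,0),(0,0),(13,3),(4,1)]⟩),(.r 0 ⟨1,[(0,0),(3,0),(0,0),(1,0),(14,0),(6,0),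
  (6,0),(0,0)]⟩ ⟨1,[(19,0),(18,1),(0,0)]⟩),.k,.k,[⟨2,[(12,0),(5,0),(3,2)]⟩,⟨1,[(18,0),(2,0)]⟩,⟨1,
  [(22,1),(4,0),(0,0)]⟩,⟨1,[(21,0),(2,0),(2,0)]⟩,⟨0,[(3,0),(6,0)]⟩,⟨17,[(0,7),(1,3),(1,5),(0,0),(9,
  3),(5,2),(1,9),(11,0)]⟩]⟩))) (.Q [0,0,0,0,0,1,0,0,0,0,0,-1] (.p false [0,0,0,1] [] (⟨0,[(20,0)]⟩,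
  ⟨1,[(19,0),(8,0),(0,0)]⟩) .k 0 (⟨0,[]⟩,⟨0,[]⟩) .k .k) (.R ⟨0,false,false,false,[0,0,0,1],[0,0,1],
  [0,0,0,0,0,0,0,1],(⟨0,[(21,0)]⟩,⟨1,[(20,0),(8,0),(0,0)]⟩),(⟨0,[(30,0)]⟩,⟨0,[(29,0)]⟩),⟨0,[(0,0)]⟩,
  .k,.k,(.r (-1) ⟨1,[(19,0),(17,1),(0,0)]⟩ ⟨3,[(1,3),(3,0),(3,1),(10,1),(5,1),(8,0),(0,4)]⟩),.k,.k,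
  .k,⟨false,1,⟨3,[(18,0),(0,0),(18,1)]⟩,⟨0,[]⟩⟩,⟨true,0,⟨2,[(11,0),(5,0),(3,2)]⟩,⟨3,[(4,1),(15,1),
  (5,0),(0,0)]⟩⟩,⟨true,0,⟨5,[(1,5),(3,1),(0,2),(2,0),(2,1),(3,1),(3,2),(13,1)]⟩,⟨0,[(3,0)]⟩⟩,⟨false,
  0,⟨0,[(1,0),(7,0),(0,0)]⟩,⟨1,[(19,0),(0,0),(1,0),(2,0),(13,0)]⟩⟩,⟨false,0,⟨0,[]⟩,⟨0,[]⟩⟩,⟨false,0,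
  ⟨0,[]⟩,⟨0,[]⟩⟩,[.o ⟨false,0,⟨0,[(10,0)]⟩,⟨1,[(25,1),(5,0),(7,0)]⟩⟩,.o ⟨false,1,⟨0,[(24,0),(14,
  0)]⟩,⟨0,[(22,0)]⟩⟩,.a ⟨true,0,⟨1,[(20,0),(8,0),(0,0)]⟩,⟨0,[(21,0)]⟩⟩ ⟨false,1,⟨5,[(5,1),(6,1),(5,
  0),(0,0),(18,0),(0,2)]⟩,⟨0,[(28,0)]⟩⟩ ⟨true,0,⟨0,[(10,0),(10,0)]⟩,⟨1,[(20,0),(1,0),(2,0)]⟩⟩,.o
  ⟨false,0,⟨1,[(20,0),(2,0),(2,0)]⟩,⟨1,[(21,1),(9,0),(6,0)]⟩⟩]⟩) (.R ⟨1,false,false,false,[0,0,0,1],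
  [0,0,1],[0,0,0,-1,0,0,0,0,1],(⟨0,[(21,0)]⟩,⟨1,[(20,0),(8,0),(0,0)]⟩),(⟨0,[(30,0)]⟩,⟨0,[(29,0)]⟩),
  ⟨0,[(0,0)]⟩,.k,.k,(.r (-1) ⟨1,[(19,0),(17,1),(0,0)]⟩ ⟨3,[(1,3),(3,0),(3,1),(10,1),(5,1),(8,0),(0,
  4)]⟩),.k,(.r (-1) ⟨3,[(1,1),(1,1),(13,0),(1,1),(0,0),(16,1),(0,1)]⟩ ⟨5,[(1,5),(3,3),(0,0),(2,0),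
  (6,1),(3,2),(5,1),(9,3)]⟩),.k,⟨false,1,⟨3,[(1,1),(1,1),(13,0),(1,1),(0,0),(16,1),(0,1)]⟩,⟨1,[(1,
  1),(2,0),(1,1),(2,1),(10,0),(13,0)]⟩⟩,⟨true,0,⟨2,[(11,0),(5,0),(3,2)]⟩,⟨3,[(4,1),(15,1),(5,0),(0,
  0)]⟩⟩,⟨true,0,⟨0,[(37,0)]⟩,⟨0,[(36,0)]⟩⟩,⟨false,0,⟨0,[(1,0),(7,0),(0,0)]⟩,⟨1,[(19,0),(0,0),(1,0),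
  (2,0),(13,0)]⟩⟩,⟨false,1,⟨3,[(18,0),(0,0),(19,1)]⟩,⟨0,[]⟩⟩,⟨false,0,⟨0,[(1,0),(4,0),(2,0)]⟩,⟨1,
  [(1,0),(0,0),(16,1),(0,1)]⟩⟩,[.o ⟨false,0,⟨0,[(10,0)]⟩,⟨1,[(25,1),(5,0),(7,0)]⟩⟩,.o ⟨false,1,⟨0,
  [(24,0),(14,0)]⟩,⟨0,[(22,0)]⟩⟩,.a ⟨true,0,⟨1,[(20,0),(8,0),(0,0)]⟩,⟨0,[(21,0)]⟩⟩ ⟨false,1,⟨1,[(19,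
  0),(17,1),(1,0)]⟩,⟨1,[(1,1),(4,0),(2,0),(10,0),(15,1)]⟩⟩ ⟨true,0,⟨0,[(10,0),(10,0)]⟩,⟨1,[(20,0),
  (1,0),(2,0)]⟩⟩,.o ⟨false,0,⟨1,[(20,0),(2,0),(2,0)]⟩,⟨1,[(21,1),(9,0),(6,0)]⟩⟩]⟩)))))) (.R ⟨1,true,
  false,false,[1,0,-1],[0,1],[1,1,0,0,0,0,0,-1],(⟨0,[(24,0)]⟩,⟨0,[(25,0)]⟩),(⟨0,[(28,0)]⟩,⟨0,[(27,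
  0)]⟩),⟨0,[(2,0)]⟩,.k,.k,.k,.k,(.r (-1) ⟨7,[(0,3),(12,0),(0,0),(17,11),(0,5)]⟩ ⟨0,[(1,0),(20,0),(7,
  0),(0,0)]⟩),.k,⟨true,0,⟨1,[(0,0),(28,0),(2,0)]⟩,⟨0,[(1,0),(20,0),(7,0)]⟩⟩,⟨false,1,⟨1,[(12,0),(11,
  0),(0,0),(7,1)]⟩,⟨0,[(18,0)]⟩⟩,⟨false,0,⟨0,[]⟩,⟨3,[(13,0),(0,0),(19,1)]⟩⟩,⟨true,0,⟨0,[(4,0)]⟩,⟨1,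
  [(0,0),(8,0),(7,0),(4,0)]⟩⟩,⟨true,0,⟨0,[(31,0)]⟩,⟨0,[(32,0)]⟩⟩,⟨false,1,⟨0,[(4,0),(26,0),(2,0)]⟩,
  ⟨0,[(0,0),(6,0),(10,0)]⟩⟩,[]⟩)))) (.R ⟨0,false,false,true,[0,1,-1],[0,1],[1,0,1],(⟨0,[(5,0)]⟩,⟨0,
  [(22,0),(1,0)]⟩),(⟨0,[(25,0)]⟩,⟨0,[(24,0)]⟩),⟨0,[(22,0)]⟩,.k,.k,.k,.k,.k,.k,⟨false,1,⟨1,[(29,1),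
  (0,0),(0,0)]⟩,⟨0,[(28,0)]⟩⟩,⟨true,0,⟨0,[(7,0)]⟩,⟨0,[(19,0)]⟩⟩,⟨true,0,⟨0,[(4,0)]⟩,⟨0,[(20,0),(7,
  0)]⟩⟩,⟨false,0,⟨0,[(2,0)]⟩,⟨0,[(17,0),(13,0)]⟩⟩,⟨false,0,⟨0,[]⟩,⟨0,[]⟩⟩,⟨false,0,⟨0,[]⟩,⟨0,[]⟩⟩,
  [.o ⟨false,0,⟨0,[(28,0)]⟩,⟨1,[(23,0),(5,1),(1,0)]⟩⟩,.a ⟨true,0,⟨0,[(0,0)]⟩,⟨0,[(29,0)]⟩⟩ ⟨true,0,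
  ⟨0,[(27,0)]⟩,⟨0,[(33,0)]⟩⟩ ⟨false,0,⟨0,[(0,0),(2,0)]⟩,⟨1,[(4,1),(12,1),(12,0),(0,0)]⟩⟩,.o ⟨false,
  1,⟨0,[(19,0),(10,0)]⟩,⟨2,[(3,1),(11,0),(2,1)]⟩⟩,.o ⟨false,1,⟨3,[(10,0),(0,0),(7,3),(10,1)]⟩,⟨0,
  [(3,0)]⟩⟩]⟩)) (.R ⟨2,true,false,false,[0,1],[1,0,-1],[0,1,1],(⟨0,[]⟩,⟨0,[]⟩),(⟨0,[(20,0)]⟩,⟨0,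
  [(21,0)]⟩),⟨0,[]⟩,.k,.k,.k,.k,.k,.k,⟨false,0,⟨0,[(3,0),(23,0)]⟩,⟨1,[(19,1),(9,0),(0,0)]⟩⟩,⟨true,0,
  ⟨0,[(14,0)]⟩,⟨1,[(8,0),(11,0),(0,0)]⟩⟩,⟨false,0,⟨0,[(28,0)]⟩,⟨0,[(27,0),(2,0)]⟩⟩,⟨true,0,⟨0,[(0,
  0)]⟩,⟨0,[(7,0)]⟩⟩,⟨true,0,⟨0,[(32,0)]⟩,⟨0,[]⟩⟩,⟨false,1,⟨0,[(13,0),(16,0)]⟩,⟨0,[(1,0),(18,0),(0,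
  0)]⟩⟩,[]⟩))))

theorem ok13 : chk (cU (-1) false 10) t13 l9 = true := by decide +kernel

noncomputable def t14 : Tre :=
  (.Q [0,0,0,0,0,0,-1,0,0,1,1] (.p true [1,-1,1] [] (⟨0,[(18,0),(1,0)]⟩,⟨0,[(1,0)]⟩) .k 0 (⟨0,[]⟩,
  ⟨0,[]⟩) .k .k) (.I [0,0,-2,0,1,2,-1] (.K ⟨0,[1,-1,1],0,0,(⟨0,[(20,0),(1,0)]⟩,⟨0,[(3,0)]⟩),.k,(.x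
  0 ⟨0,[(5,2),(7,1),(6,0),(1,1)]⟩ ⟨0,[(0,0)]⟩),.k,.k,.k,[⟨0,[(1,0)]⟩,⟨0,[(5,0)]⟩,⟨2,[(1,1),(0,1),(3,
  0),(8,1)]⟩,⟨0,[(4,0),(0,0)]⟩]⟩) (.I [0,0,-2,-2,1,0,0,1] (.K ⟨0,[1,-1,1],0,0,(⟨0,[(21,0),(1,0)]⟩,
  ⟨0,[(4,0)]⟩),.k,(.r (-1) ⟨0,[(0,0)]⟩ ⟨1,[(3,1),(13,0),(0,0),(7,1),(0,1)]⟩),.k,.k,.k,[⟨0,[(2,0)]⟩,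
  ⟨0,[(6,0)]⟩,⟨2,[(2,1),(0,1),(3,0),(8,1)]⟩,⟨0,[(5,0),(0,0)]⟩]⟩) (.I [0,0,2,2,-1,0,0,-1] (.K ⟨0,[1,
  -1,1],0,0,(⟨0,[(22,0),(1,0)]⟩,⟨0,[(5,0)]⟩),.k,(.r (-2) ⟨11,[(3,7),(2,11),(2,3),(0,2),(0,2),(17,
  11),(0,11),(0,5)]⟩ ⟨0,[(0,0)]⟩),.k,.k,.k,[⟨0,[(3,0)]⟩,⟨0,[(7,0)]⟩,⟨2,[(3,1),(0,1),(3,0),(8,1)]⟩,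
  ⟨0,[(6,0),(0,0)]⟩]⟩) (.Q [0,0,0,-1,0,0,1,1,0,0,-1] (.p false [0,0,1] [] (⟨0,[(22,0)]⟩,⟨0,[(21,
  0)]⟩) .k 0 (⟨0,[]⟩,⟨0,[]⟩) .k .k) (.R ⟨0,false,false,true,[0,0,1],[0,1],[1,0,1],(⟨0,[(23,0)]⟩,⟨0,
  [(22,0)]⟩),(⟨0,[(26,0)]⟩,⟨0,[(25,0)]⟩),⟨0,[(6,0)]⟩,.k,.k,.k,.k,.k,.k,⟨false,1,⟨1,[(1,0),(19,0),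
  (10,0)]⟩,⟨0,[(29,0)]⟩⟩,⟨true,1,⟨1,[(4,1),(19,0),(6,0)]⟩,⟨0,[(0,0),(1,0),(27,0)]⟩⟩,⟨false,0,⟨0,
  [(21,0),(6,0)]⟩,⟨1,[(0,1),(1,1),(1,1),(2,1),(23,2),(0,0)]⟩⟩,⟨true,0,⟨1,[(4,0),(0,0),(9,0),(13,
  0)]⟩,⟨0,[(0,0)]⟩⟩,⟨false,0,⟨0,[]⟩,⟨0,[]⟩⟩,⟨false,0,⟨0,[]⟩,⟨0,[]⟩⟩,[.o ⟨false,0,⟨0,[(29,0)]⟩,⟨1,
  [(24,0),(5,1),(1,0)]⟩⟩,.a ⟨true,0,⟨0,[(0,0),(1,0),(1,0),(26,0)]⟩,⟨0,[(30,0)]⟩⟩ ⟨true,0,⟨0,[(28,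
  0)]⟩,⟨0,[(34,0)]⟩⟩ ⟨false,1,⟨1,[(2,1),(1,1),(2,1),(23,2),(0,0)]⟩,⟨0,[(8,0),(21,0)]⟩⟩,.o ⟨false,0,
  ⟨0,[(8,0)]⟩,⟨0,[(4,0),(19,0)]⟩⟩,.o ⟨false,0,⟨0,[(19,0)]⟩,⟨0,[(16,0),(14,0)]⟩⟩]⟩) (.Q [0,0,0,-1,0,
  0,0,0,0,-1] (.pp true [-1,1]) (.R ⟨0,false,false,true,[0,1,-1],[0,1],[0,1],(⟨0,[(7,0)]⟩,⟨0,[(24,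
  0),(1,0)]⟩),(⟨0,[(27,0)]⟩,⟨0,[(26,0)]⟩),⟨0,[(24,0)]⟩,.k,.k,.k,.k,.k,.k,⟨false,1,⟨1,[(2,0),(19,0),
  (9,0)]⟩,⟨5,[(3,1),(6,1),(10,1),(3,0),(7,0)]⟩⟩,⟨true,0,⟨0,[(9,0)]⟩,⟨0,[(21,0)]⟩⟩,⟨false,1,⟨5,[(2,
  3),(7,1),(10,1),(3,0),(7,0)]⟩,⟨1,[(3,0),(18,0),(10,0)]⟩⟩,⟨true,0,⟨0,[(18,0)]⟩,⟨1,[(0,0),(0,0),(3,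
  0),(16,0)]⟩⟩,⟨false,0,⟨0,[]⟩,⟨0,[]⟩⟩,⟨false,0,⟨0,[]⟩,⟨0,[]⟩⟩,[.o ⟨false,0,⟨0,[(30,0)]⟩,⟨3,[(0,3),
  (11,0),(0,0),(19,1)]⟩⟩,.o ⟨false,1,⟨3,[(12,0),(0,0),(16,3),(2,1)]⟩,⟨0,[(0,0)]⟩⟩,.o ⟨false,1,⟨1,
  [(5,1),(19,0),(6,0)]⟩,⟨3,[(0,1),(2,0),(5,1),(8,0),(1,0),(4,0),(3,0)]⟩⟩,.a ⟨true,0,⟨0,[(5,0)]⟩,⟨0,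
  [(9,0)]⟩⟩ ⟨false,1,⟨3,[(12,0),(0,0),(18,1)]⟩,⟨0,[(29,0)]⟩⟩ ⟨true,0,⟨0,[(6,0),(11,0)]⟩,⟨0,[(0,0),
  (4,0)]⟩⟩]⟩) (.R ⟨0,false,false,false,[0,0,1],[0,1],[0,0,1,1],(⟨0,[(24,0)]⟩,⟨0,[(23,0)]⟩),(⟨0,[(27,
  0)]⟩,⟨0,[(26,0)]⟩),⟨0,[(7,0)]⟩,.k,.k,.k,.k,.k,.k,⟨false,1,⟨3,[(12,0),(0,0),(18,1)]⟩,⟨0,[]⟩⟩,⟨true,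
  1,⟨1,[(5,1),(19,0),(6,0)]⟩,⟨0,[(4,0),(2,0),(19,0)]⟩⟩,⟨false,0,⟨1,[(3,0),(18,0),(10,0)]⟩,⟨5,[(2,3),
  (7,1),(10,1),(3,0),(7,0)]⟩⟩,⟨true,0,⟨0,[(1,0)]⟩,⟨2,[(5,0),(2,2),(2,1)]⟩⟩,⟨false,0,⟨0,[]⟩,⟨0,[]⟩⟩,
  ⟨false,0,⟨0,[]⟩,⟨0,[]⟩⟩,[.a ⟨true,0,⟨0,[(0,0)]⟩,⟨0,[(31,0)]⟩⟩ ⟨true,0,⟨5,[(3,1),(6,1),(10,1),(3,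
  0),(7,0)]⟩,⟨0,[(31,0)]⟩⟩ ⟨false,1,⟨0,[(0,0),(16,0),(14,0)]⟩,⟨0,[(9,0),(21,0)]⟩⟩,.o ⟨false,1,⟨1,
  [(0,1),(24,0),(7,0)]⟩,⟨1,[(8,0),(0,0),(6,0),(14,0)]⟩⟩,.o ⟨false,0,⟨0,[(9,0)]⟩,⟨0,[(5,0),(19,0)]⟩⟩,
  .o ⟨false,0,⟨0,[(20,0)]⟩,⟨0,[(17,0),(14,0)]⟩⟩]⟩)))))) (.Q [0,0,0,0,0,0,-1,-1,0,0,1] (.p true [0,0,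
  1] [] (⟨0,[(19,0)]⟩,⟨0,[(18,0)]⟩) .k 0 (⟨0,[]⟩,⟨0,[]⟩) .k .k) (.Q [0,0,0,-1,0,0,1,1,0,0,-1] (.p
  false [0,0,1] [] (⟨0,[(20,0)]⟩,⟨0,[(19,0)]⟩) .k 0 (⟨0,[]⟩,⟨0,[]⟩) .k .k) (.R ⟨2,true,false,true,
  [0,1],[0,0,1],[1,0,1,1],(⟨0,[]⟩,⟨0,[]⟩),(⟨0,[(21,0)]⟩,⟨0,[(20,0)]⟩),⟨0,[]⟩,.k,.k,.k,.k,.k,.k,
  ⟨true,0,⟨0,[(3,0),(22,0)]⟩,⟨0,[(5,0),(14,0),(0,0)]⟩⟩,⟨false,0,⟨0,[(6,0)]⟩,⟨0,[(18,0),(10,0)]⟩⟩,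
  ⟨true,0,⟨0,[]⟩,⟨0,[(32,0)]⟩⟩,⟨false,0,⟨0,[(0,0)]⟩,⟨0,[(1,0),(25,0),(2,0)]⟩⟩,⟨false,1,⟨0,[(27,0),
  (2,0)]⟩,⟨0,[(28,0)]⟩⟩,⟨true,0,⟨0,[(15,0)]⟩,⟨0,[(1,0)]⟩⟩,[]⟩) (.Q [0,0,0,-1,0,0,0,0,0,-1] (.pp
  true [-1,1]) (.Q [0,-1,0,-1,0,0,-1,-1,0,0,1] (.p true [0,0,1] [] (⟨0,[(22,0)]⟩,⟨0,[(21,0)]⟩) .k 0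
  (⟨0,[]⟩,⟨0,[]⟩) .k .k) (.Q [0,0,0,0,0,-1,0,0,0,1,-1] (.ed true [0,1,1] .k) (.R ⟨2,false,false,
  true,[0,1],[0,1,1],[],(⟨0,[]⟩,⟨0,[]⟩),(⟨0,[(24,0),(2,0)]⟩,⟨0,[(0,0)]⟩),⟨0,[]⟩,.k,.k,.k,.k,.k,.k,
  ⟨false,1,⟨2,[(1,2),(3,0),(5,0),(20,2)]⟩,⟨0,[(10,0),(6,0)]⟩⟩,⟨true,0,⟨0,[(9,0)]⟩,⟨0,[(21,0)]⟩⟩,
  ⟨false,1,⟨1,[(31,1),(0,0),(0,0)]⟩,⟨0,[(29,0),(0,0)]⟩⟩,⟨true,0,⟨0,[(18,0)]⟩,⟨0,[(4,0)]⟩⟩,⟨false,1,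
  ⟨1,[(32,0),(0,0)]⟩,⟨1,[(20,0),(0,0)]⟩⟩,⟨false,1,⟨1,[(10,1),(14,0),(7,0)]⟩,⟨0,[(1,0)]⟩⟩,[.a ⟨true,
  0,⟨0,[(10,0)]⟩,⟨0,[(1,0)]⟩⟩ ⟨false,1,⟨3,[(12,0),(0,0),(18,1)]⟩,⟨0,[]⟩⟩ ⟨true,0,⟨2,[(5,0),(4,2),(6,
  1),(2,0)]⟩,⟨0,[(1,0)]⟩⟩,.o ⟨false,1,⟨1,[(10,1),(14,0),(7,0)]⟩,⟨1,[(1,0),(0,0),(13,0)]⟩⟩,.o ⟨false,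
  1,⟨3,[(12,0),(0,0),(18,1)]⟩,⟨2,[(5,0),(11,1),(2,0)]⟩⟩,.e ⟨false,1,⟨1,[(32,0),(0,0)]⟩,⟨1,[(20,0),
  (0,0)]⟩⟩ ⟨false,1,⟨1,[(10,1),(14,0),(7,0)]⟩,⟨0,[(1,0)]⟩⟩]⟩) (.Q [0,0,0,0,0,0,1,1,-1,0,-1,1] (.p
  false [0,0,1] [0,0,0,1] (⟨0,[(24,0)]⟩,⟨0,[(23,0)]⟩) .k 2 (⟨0,[(15,0)]⟩,⟨1,[(1,0),(8,0),(3,0)]⟩)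
  .k (.x 0 ⟨2,[(5,0),(5,0),(12,2)]⟩ ⟨1,[(21,1),(1,1),(1,0),(6,0)]⟩)) (.Q [0,0,-1,0,0,0,2,0,0,2,-2]
  (.p false [0,0,1] [2,-1,-1] (⟨0,[(25,0)]⟩,⟨0,[(24,0)]⟩) .k 2 (⟨0,[(24,0),(2,0)]⟩,⟨0,[(1,0)]⟩) .k
  (.x 0 ⟨2,[(6,1),(5,1),(12,5)]⟩ ⟨0,[(18,1),(5,1),(8,0)]⟩)) (.I [0,0,1,1,1,0,0,2] (.K ⟨2,[-1,1,1],0,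
  0,(⟨0,[(3,0)]⟩,⟨0,[(26,0),(2,0)]⟩),.k,.k,(.x (-1) ⟨7,[(1,3),(1,7),(11,0),(0,0),(13,7),(4,5)]⟩ ⟨0,
  [(8,0),(11,1),(5,0),(2,1)]⟩),.k,(.r (-1) ⟨0,[(0,0)]⟩ ⟨5,[(1,2),(2,7),(3,3),(0,1),(9,1),(11,2)]⟩),
  [⟨2,[(8,0),(11,1),(2,0)]⟩,⟨0,[(1,0)]⟩,⟨1,[(20,1),(2,0),(0,0)]⟩,⟨3,[(1,1),(21,0),(0,0)]⟩,⟨0,[(19,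
  0),(14,0)]⟩,⟨0,[(13,0)]⟩]⟩) (.K ⟨2,[-1,1,1],0,0,(⟨0,[(3,0)]⟩,⟨0,[(26,0),(2,0)]⟩),.k,.k,(.r (-1)
  ⟨3,[(6,1),(6,5),(10,3),(3,2),(3,3),(3,0)]⟩ ⟨1,[(0,1),(3,1),(6,1),(1,1),(21,0),(0,0)]⟩),.k,(.x 0
  ⟨2,[(0,1),(0,0),(1,2),(4,0),(2,0),(1,2),(13,2),(8,1)]⟩ ⟨1,[(20,3),(5,3),(1,0),(0,1),(5,0)]⟩),[⟨2,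
  [(8,0),(11,1),(2,0)]⟩,⟨0,[(1,0)]⟩,⟨1,[(20,1),(2,0),(0,0)]⟩,⟨3,[(1,1),(21,0),(0,0)]⟩,⟨0,[(19,0),
  (14,0)]⟩,⟨0,[(13,0)]⟩]⟩)) (.I [1,-1,0,0,0,0,0,0,-1] (.R ⟨0,false,false,true,[0,0,0,1],[0,0,1],[0,
  0,0,-1,0,0,0,0,1],(⟨0,[(18,0)]⟩,⟨1,[(4,0),(8,0),(3,0)]⟩),(⟨0,[(27,0)]⟩,⟨0,[(26,0)]⟩),⟨1,[(3,0),(6,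
  0),(6,0)]⟩,.k,.k,(.r (-1) ⟨1,[(16,0),(17,1),(0,0)]⟩ ⟨1,[(0,1),(22,0),(0,0),(8,1)]⟩),.k,.k,.k,
  ⟨false,1,⟨5,[(4,5),(3,1),(5,1),(1,2),(18,2)]⟩,⟨1,[(0,1),(0,0),(11,1),(17,0)]⟩⟩,⟨true,0,⟨2,[(8,0),
  (5,0),(3,2)]⟩,⟨7,[(1,1),(15,3),(5,0),(0,4)]⟩⟩,⟨true,0,⟨0,[(34,0)]⟩,⟨0,[(33,0)]⟩⟩,⟨false,0,⟨0,[(2,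
  0)]⟩,⟨3,[(4,1),(1,1),(9,1),(0,1),(10,0),(7,0)]⟩⟩,⟨false,0,⟨0,[]⟩,⟨0,[]⟩⟩,⟨false,0,⟨0,[]⟩,⟨0,[]⟩⟩,
  [.o ⟨false,0,⟨0,[(21,0)]⟩,⟨7,[(4,3),(1,3),(8,0),(0,0),(11,3),(7,1)]⟩⟩,.o ⟨false,1,⟨3,[(15,0),(0,
  0),(4,3),(14,1)]⟩,⟨3,[(1,0),(2,1),(1,1),(1,1),(22,0)]⟩⟩,.a ⟨true,0,⟨1,[(4,0),(8,0),(3,0)]⟩,⟨0,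
  [(18,0)]⟩⟩ ⟨false,1,⟨1,[(16,0),(17,1),(1,0)]⟩,⟨0,[(0,0),(32,0)]⟩⟩ ⟨true,0,⟨0,[(18,0),(2,0)]⟩,⟨15,
  [(1,0),(2,5),(1,5),(1,1),(8,7),(1,3),(11,0)]⟩⟩,.o ⟨false,0,⟨7,[(1,1),(15,3),(5,4),(0,0)]⟩,⟨1,[(18,
  1),(9,0),(6,0)]⟩⟩]⟩) (.K ⟨2,[1,0,0,-1],0,0,(⟨1,[(4,0),(8,0),(3,0)]⟩,⟨0,[(18,0)]⟩),.k,(.x 0 ⟨4,[(1,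
  1),(6,0),(14,2),(5,4)]⟩ ⟨3,[(15,0),(0,0),(13,3),(4,1)]⟩),(.r 0 ⟨7,[(1,1),(0,7),(3,7),(10,3),(5,4),
  (0,0)]⟩ ⟨1,[(16,0),(17,1),(0,0)]⟩),.k,.k,[⟨1,[(14,0),(2,0)]⟩,⟨2,[(8,0),(5,0),(3,2)]⟩,⟨1,[(14,0),
  (2,0),(6,1)]⟩,⟨4,[(1,1),(6,0),(9,4),(4,2)]⟩,⟨1,[(0,1),(3,0),(8,0),(3,0)]⟩,⟨0,[(2,0),(16,0)]⟩]⟩)))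
  (.Q [0,0,-1,0,0,0,1,0,0,2,-1] (.p false [-1,1,1] [1] (⟨0,[(1,0)]⟩,⟨0,[(24,0),(2,0)]⟩) .k 1 (⟨0,
  []⟩,⟨0,[]⟩) .k .k) (.R ⟨0,false,false,false,[-1,1,1],[0,1],[0,1],(⟨0,[(2,0)]⟩,⟨0,[(25,0),(2,0)]⟩),
  (⟨0,[(29,0)]⟩,⟨0,[(28,0)]⟩),⟨0,[(25,0)]⟩,.k,.k,.k,.k,.k,.k,⟨true,0,⟨0,[(0,0),(3,0),(0,0),(4,0)]⟩,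
  ⟨0,[(31,1),(0,0)]⟩⟩,⟨false,1,⟨0,[(19,0),(14,0)]⟩,⟨1,[(0,0),(21,0)]⟩⟩,⟨false,0,⟨0,[(0,0),(3,1),(0,
  0)]⟩,⟨0,[(12,0),(6,0),(15,0)]⟩⟩,⟨true,0,⟨0,[(4,0),(0,0)]⟩,⟨3,[(0,1),(9,1),(1,1),(9,0),(0,0)]⟩⟩,
  ⟨false,0,⟨0,[]⟩,⟨0,[]⟩⟩,⟨false,0,⟨0,[]⟩,⟨0,[]⟩⟩,[.o ⟨false,1,⟨3,[(5,1),(6,1),(1,0),(0,0),(11,0),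
  (7,0)]⟩,⟨0,[(4,0)]⟩⟩,.o ⟨false,1,⟨3,[(5,1),(6,1),(14,0),(7,2)]⟩,⟨3,[(4,0),(5,1),(2,0),(4,1),(14,
  0)]⟩⟩,.a ⟨true,0,⟨0,[(0,0)]⟩,⟨0,[(19,0)]⟩⟩ ⟨true,0,⟨0,[(37,0)]⟩,⟨0,[]⟩⟩ ⟨false,1,⟨3,[(5,1),(6,1),
  (6,3),(7,0),(7,2)]⟩,⟨0,[(0,0),(3,0)]⟩⟩,.o ⟨false,0,⟨1,[(0,0),(21,0)]⟩,⟨1,[(19,1),(7,0),(6,
  0)]⟩⟩]⟩) (.I [0,0,1,1,0,0,0,0,-1] (.Q [0,1,0,0,0,0,0,0,-1,0,0,1] (.p true [0,0,0,1] [] (⟨0,[(18,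
  0)]⟩,⟨1,[(4,0),(8,0),(3,0)]⟩) .k 0 (⟨0,[]⟩,⟨0,[]⟩) .k .k) (.K ⟨2,[0,0,0,1],0,0,(⟨0,[(19,0)]⟩,⟨1,
  [(5,0),(8,0),(3,0)]⟩),.k,(.r (-1) ⟨1,[(17,0),(17,1),(0,0)]⟩ ⟨0,[(1,0)]⟩),(.x (-1) ⟨3,[(16,0),(0,
  0),(13,3),(4,1)]⟩ ⟨1,[(2,0),(21,0),(5,1)]⟩),.k,.k,[⟨2,[(9,0),(5,0),(3,2)]⟩,⟨1,[(15,0),(2,0)]⟩,⟨1,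
  [(19,1),(4,0),(0,0)]⟩,⟨3,[(2,0),(15,1),(5,1),(0,0)]⟩,⟨0,[(0,0)]⟩,⟨0,[(3,0),(18,0)]⟩]⟩) (.R ⟨0,
  false,false,false,[0,0,0,1],[1,-1],[1,0,0,0,0,0,0,0,1],(⟨0,[(19,0)]⟩,⟨1,[(5,0),(8,0),(3,0)]⟩),(⟨0,
  [(30,0)]⟩,⟨0,[(31,0)]⟩),⟨1,[(4,0),(6,0),(6,0)]⟩,.k,.k,(.r (-1) ⟨1,[(17,0),(17,1),(0,0)]⟩ ⟨0,[(1,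
  0)]⟩),(.r 0 ⟨1,[(0,1),(18,1),(4,0),(0,0),(8,1)]⟩ ⟨1,[(16,0),(18,1),(0,0)]⟩),.k,.k,⟨false,0,⟨0,[(0,
  0),(18,0),(14,0)]⟩,⟨1,[(16,0),(18,1),(0,0)]⟩⟩,⟨true,0,⟨1,[(2,0),(16,1),(4,0)]⟩,⟨1,[(5,0),(8,0),(3,
  0)]⟩⟩,⟨true,0,⟨0,[]⟩,⟨0,[(39,0)]⟩⟩,⟨false,1,⟨1,[(6,1),(9,0),(2,1),(17,0)]⟩,⟨2,[(0,1),(2,0),(1,0),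
  (1,0),(6,2)]⟩⟩,⟨false,0,⟨0,[]⟩,⟨0,[]⟩⟩,⟨false,0,⟨0,[]⟩,⟨0,[]⟩⟩,[.o ⟨false,0,⟨0,[(6,0)]⟩,⟨3,[(7,1),
  (6,1),(1,0),(0,0),(11,0),(7,0)]⟩⟩,.o ⟨false,1,⟨1,[(29,0),(5,1),(1,0)]⟩,⟨0,[(34,0)]⟩⟩,.a ⟨true,0,
  ⟨1,[(5,0),(8,0),(3,0)]⟩,⟨0,[(19,0)]⟩⟩ ⟨false,0,⟨0,[(0,0),(18,0)]⟩,⟨3,[(16,2),(0,0)]⟩⟩ ⟨true,0,⟨0,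
  [(6,0),(12,0)]⟩,⟨3,[(7,0),(6,1),(3,1),(4,0),(10,0)]⟩⟩,.o ⟨false,0,⟨3,[(2,0),(15,1),(5,1),(0,0)]⟩,
  ⟨1,[(19,1),(9,0),(6,0)]⟩⟩]⟩)) (.I [1,-1,0,0,0,0,0,0,1] (.I [0,0,-1,-1,0,0,0,0,1] (.R ⟨0,false,
  false,false,[0,0,0,1],[1,-1],[1,0,0,0,0,0,0,0,1],(⟨0,[(20,0)]⟩,⟨1,[(6,0),(8,0),(3,0)]⟩),(⟨0,[(31,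
  0)]⟩,⟨0,[(32,0)]⟩),⟨1,[(5,0),(6,0),(6,0)]⟩,.k,.k,(.r 0 ⟨0,[(0,0)]⟩ ⟨3,[(8,1),(6,1),(1,1),(7,1),(0,
  1),(3,0),(7,0)]⟩),(.r 0 ⟨1,[(1,1),(23,0),(0,0),(8,1)]⟩ ⟨0,[(0,0),(16,0)]⟩),.k,.k,⟨false,0,⟨0,[(1,
  0),(33,0)]⟩,⟨0,[(0,0),(16,0)]⟩⟩,⟨true,0,⟨1,[(3,0),(16,1),(4,0)]⟩,⟨1,[(6,0),(8,0),(3,0)]⟩⟩,⟨true,0,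
  ⟨0,[]⟩,⟨0,[(40,0)]⟩⟩,⟨false,1,⟨1,[(7,1),(9,0),(2,1),(17,0)]⟩,⟨2,[(1,1),(2,0),(3,0),(6,1),(3,0)]⟩⟩,
  ⟨false,0,⟨0,[]⟩,⟨0,[]⟩⟩,⟨false,0,⟨0,[]⟩,⟨0,[]⟩⟩,[.o ⟨false,0,⟨0,[(7,0)]⟩,⟨3,[(8,1),(6,1),(1,0),(0,
  0),(11,0),(7,0)]⟩⟩,.o ⟨false,1,⟨1,[(30,0),(5,1),(1,0)]⟩,⟨0,[(35,0)]⟩⟩,.a ⟨true,0,⟨1,[(6,0),(8,0),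
  (3,0)]⟩,⟨0,[(20,0)]⟩⟩ ⟨false,0,⟨0,[(1,0)]⟩,⟨3,[(17,2),(0,0)]⟩⟩ ⟨true,0,⟨0,[(7,0),(12,0)]⟩,⟨3,[(8,
  0),(6,1),(3,1),(4,0),(10,0)]⟩⟩,.o ⟨false,0,⟨3,[(3,0),(15,1),(5,1),(0,0)]⟩,⟨1,[(20,1),(9,0),(6,
  0)]⟩⟩]⟩) (.R ⟨0,false,false,false,[0,0,0,1],[1,-1],[1,0,0,0,0,0,0,0,1],(⟨0,[(20,0)]⟩,⟨1,[(6,0),(8,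
  0),(3,0)]⟩),(⟨0,[(31,0)]⟩,⟨0,[(32,0)]⟩),⟨1,[(5,0),(6,0),(6,0)]⟩,.k,.k,(.x 0 ⟨1,[(3,0),(21,0),(5,
  1)]⟩ ⟨3,[(17,0),(0,0),(13,3),(4,1)]⟩),(.r 0 ⟨1,[(1,1),(23,0),(0,0),(8,1)]⟩ ⟨1,[(17,0),(18,1),(0,
  0)]⟩),.k,.k,⟨false,0,⟨0,[(1,0),(33,0)]⟩,⟨1,[(17,0),(18,1),(0,0)]⟩⟩,⟨true,0,⟨1,[(3,0),(16,1),(4,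
  0)]⟩,⟨1,[(6,0),(8,0),(3,0)]⟩⟩,⟨true,0,⟨0,[]⟩,⟨0,[(40,0)]⟩⟩,⟨false,1,⟨1,[(7,1),(9,0),(2,1),(17,
  0)]⟩,⟨2,[(1,1),(2,0),(3,0),(6,1),(3,0)]⟩⟩,⟨false,0,⟨0,[]⟩,⟨0,[]⟩⟩,⟨false,0,⟨0,[]⟩,⟨0,[]⟩⟩,[.o
  ⟨false,0,⟨0,[(7,0)]⟩,⟨3,[(8,1),(6,1),(1,0),(0,0),(11,0),(7,0)]⟩⟩,.o ⟨false,1,⟨1,[(30,0),(5,1),(1,
  0)]⟩,⟨0,[(35,0)]⟩⟩,.a ⟨true,0,⟨1,[(6,0),(8,0),(3,0)]⟩,⟨0,[(20,0)]⟩⟩ ⟨false,0,⟨0,[(1,0)]⟩,⟨3,[(17,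
  2),(0,0)]⟩⟩ ⟨true,0,⟨0,[(7,0),(12,0)]⟩,⟨3,[(8,0),(6,1),(3,1),(4,0),(10,0)]⟩⟩,.o ⟨false,0,⟨3,[(3,
  0),(15,1),(5,1),(0,0)]⟩,⟨1,[(20,1),(9,0),(6,0)]⟩⟩]⟩)) (.K ⟨2,[0,0,0,1],0,0,(⟨0,[(19,0)]⟩,⟨1,[(5,
  0),(8,0),(3,0)]⟩),.k,(.x 0 ⟨1,[(2,0),(21,0),(5,1)]⟩ ⟨3,[(16,0),(0,0),(13,3),(4,1)]⟩),(.r 0 ⟨1,[(1,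
  0),(0,0),(0,0),(6,0),(3,1),(4,0),(13,1)]⟩ ⟨1,[(16,0),(18,1),(0,0)]⟩),.k,.k,[⟨2,[(9,0),(5,0),(3,
  2)]⟩,⟨1,[(15,0),(2,0)]⟩,⟨1,[(19,1),(4,0),(0,0)]⟩,⟨3,[(2,0),(15,1),(5,1),(0,0)]⟩,⟨0,[(0,0),(18,
  0)]⟩,⟨0,[(3,0),(18,0)]⟩]⟩)))))) (.I [0,0,1,1,0,0,0,0,-1] (.Q [0,1,0,0,0,0,0,0,1,1,0,-1] (.p false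
  [0,0,0,1] [1] (⟨0,[(15,0)]⟩,⟨1,[(14,0),(8,0),(0,0)]⟩) .k 1 (⟨0,[]⟩,⟨0,[]⟩) .k .k) (.Q [0,1,0,0,0,
  0,0,0,-1,-1,0,1] (.p true [0,0,0,1] [1] (⟨0,[(16,0)]⟩,⟨1,[(15,0),(8,0),(0,0)]⟩) .k 1 (⟨0,[]⟩,⟨0,
  []⟩) .k .k) (.K ⟨2,[1,0,0,-1],0,0,(⟨1,[(16,0),(8,0),(0,0)]⟩,⟨0,[(17,0)]⟩),.k,(.x 0 ⟨2,[(7,0),(11,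
  1),(2,0),(5,2)]⟩ ⟨3,[(14,0),(0,0),(13,3),(4,1)]⟩),(.r 0 ⟨0,[(2,0)]⟩ ⟨1,[(15,0),(17,1),(0,0)]⟩),.k,
  .k,[⟨1,[(13,0),(2,0)]⟩,⟨2,[(7,0),(5,0),(3,2)]⟩,⟨1,[(13,0),(2,0),(6,1)]⟩,⟨2,[(7,0),(9,2),(1,1),(2,
  0)]⟩,⟨0,[(1,0)]⟩,⟨0,[(0,0)]⟩]⟩) (.Q [0,1,0,-1,0,0,0,0,-1,-1,0,1] (.p true [0,0,0,1] [1] (⟨0,[(17,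
  0)]⟩,⟨1,[(16,0),(8,0),(0,0)]⟩) .k 1 (⟨0,[]⟩,⟨0,[]⟩) .k .k) (.R ⟨2,true,false,true,[0,1],[1,0,0,
  -1],[1,1,1,1],(⟨0,[]⟩,⟨0,[]⟩),(⟨1,[(17,0),(8,0),(0,0)]⟩,⟨0,[(18,0)]⟩),⟨0,[]⟩,.k,.k,.k,(.r 0 ⟨2,
  [(1,2),(6,0),(9,2),(1,1),(2,0),(9,2)]⟩ ⟨1,[(15,0),(18,1),(0,0)]⟩),.k,.k,⟨false,0,⟨1,[(1,1),(2,0),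
  (1,1),(1,0),(2,0),(6,1)]⟩,⟨1,[(15,0),(18,1),(0,0)]⟩⟩,⟨true,0,⟨2,[(8,0),(9,2),(1,1),(2,0)]⟩,⟨1,
  [(17,0),(8,0),(0,0)]⟩⟩,⟨false,0,⟨0,[]⟩,⟨3,[(15,0),(0,0),(19,1)]⟩⟩,⟨true,0,⟨0,[(0,0)]⟩,⟨0,[(1,0),
  (31,0)]⟩⟩,⟨true,0,⟨0,[(33,0)]⟩,⟨0,[(34,0)]⟩⟩,⟨false,1,⟨1,[(15,0),(2,1),(9,0)]⟩,⟨0,[(1,0)]⟩⟩,[]⟩)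
  (.Q [0,0,0,0,0,1,0,0,0,0,0,-1] (.p false [0,0,0,1] [] (⟨0,[(18,0)]⟩,⟨1,[(17,0),(8,0),(0,0)]⟩) .k
  0 (⟨0,[]⟩,⟨0,[]⟩) .k .k) (.R ⟨0,false,false,false,[0,0,0,1],[1,-1],[1,0,0,0,0,0,0,0,1],(⟨0,[(19,
  0)]⟩,⟨1,[(18,0),(8,0),(0,0)]⟩),(⟨0,[(30,0)]⟩,⟨0,[(31,0)]⟩),⟨0,[(0,0)]⟩,.k,.k,(.r (-1) ⟨1,[(17,0),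
  (17,1),(0,0)]⟩ ⟨0,[(4,0)]⟩),(.r 0 ⟨2,[(1,1),(1,0),(5,0),(9,2),(1,1),(2,0),(9,0)]⟩ ⟨1,[(16,0),(18,
  1),(0,0)]⟩),.k,.k,⟨false,0,⟨3,[(1,3),(3,0),(3,0),(2,0),(6,3),(0,1)]⟩,⟨1,[(16,0),(18,1),(0,0)]⟩⟩,
  ⟨true,0,⟨2,[(9,0),(9,2),(1,1),(2,0)]⟩,⟨1,[(18,0),(8,0),(0,0)]⟩⟩,⟨true,0,⟨0,[]⟩,⟨0,[(39,0)]⟩⟩,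
  ⟨false,1,⟨1,[(6,1),(9,0),(2,1),(17,0)]⟩,⟨2,[(1,1),(1,0),(30,0)]⟩⟩,⟨false,0,⟨0,[]⟩,⟨0,[]⟩⟩,⟨false,
  0,⟨0,[]⟩,⟨0,[]⟩⟩,[.o ⟨false,0,⟨0,[(6,0)]⟩,⟨3,[(7,1),(6,1),(1,0),(0,0),(11,0),(7,0)]⟩⟩,.o ⟨false,1,
  ⟨1,[(29,0),(5,1),(1,0)]⟩,⟨0,[(34,0)]⟩⟩,.a ⟨true,0,⟨1,[(18,0),(8,0),(0,0)]⟩,⟨0,[(19,0)]⟩⟩ ⟨false,0,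
  ⟨0,[(1,0),(4,0),(12,0)]⟩,⟨3,[(16,2),(0,0)]⟩⟩ ⟨true,0,⟨0,[(6,0),(12,0)]⟩,⟨3,[(7,0),(6,1),(3,1),(4,
  0),(10,0)]⟩⟩,.o ⟨false,0,⟨1,[(18,0),(2,0),(2,0)]⟩,⟨1,[(19,1),(9,0),(6,0)]⟩⟩]⟩) (.R ⟨1,false,false,
  false,[0,0,0,1],[1,-1],[1,0,0,0,0,0,0,0,1],(⟨0,[(19,0)]⟩,⟨1,[(18,0),(8,0),(0,0)]⟩),(⟨0,[(30,0)]⟩,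
  ⟨0,[(31,0)]⟩),⟨0,[(0,0)]⟩,.k,.k,(.r (-1) ⟨1,[(17,0),(17,1),(0,0)]⟩ ⟨0,[(4,0)]⟩),(.r 0 ⟨2,[(1,1),
  (1,0),(5,0),(9,2),(1,1),(2,0),(9,0)]⟩ ⟨1,[(16,0),(18,1),(0,0)]⟩),.k,.k,⟨false,0,⟨3,[(1,3),(3,0),
  (3,0),(2,0),(6,3),(0,1)]⟩,⟨1,[(16,0),(18,1),(0,0)]⟩⟩,⟨true,0,⟨2,[(9,0),(9,2),(1,1),(2,0)]⟩,⟨1,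
  [(18,0),(8,0),(0,0)]⟩⟩,⟨true,0,⟨0,[]⟩,⟨0,[(39,0)]⟩⟩,⟨false,1,⟨1,[(6,1),(9,0),(2,1),(17,0)]⟩,⟨2,
  [(1,1),(1,0),(30,0)]⟩⟩,⟨false,1,⟨3,[(7,1),(6,1),(14,0),(7,2)]⟩,⟨0,[(35,0)]⟩⟩,⟨false,1,⟨1,[(4,1),
  (1,1),(12,1),(16,0),(0,0)]⟩,⟨1,[(2,0),(0,0)]⟩⟩,[.o ⟨false,0,⟨0,[(6,0)]⟩,⟨3,[(7,1),(6,1),(1,0),(0,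
  0),(11,0),(7,0)]⟩⟩,.o ⟨false,1,⟨1,[(29,0),(5,1),(1,0)]⟩,⟨0,[(34,0)]⟩⟩,.a ⟨true,0,⟨1,[(18,0),(8,0),
  (0,0)]⟩,⟨0,[(19,0)]⟩⟩ ⟨false,0,⟨0,[(1,0),(4,0),(12,0)]⟩,⟨3,[(16,2),(0,0)]⟩⟩ ⟨true,0,⟨0,[(6,0),(12,
  0)]⟩,⟨3,[(7,0),(6,1),(3,1),(4,0),(10,0)]⟩⟩,.o ⟨false,0,⟨1,[(18,0),(2,0),(2,0)]⟩,⟨1,[(19,1),(9,0),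
  (6,0)]⟩⟩]⟩)))) (.Q [0,1,0,-1,0,0,0,0,1,0,0,-1] (.p false [0,0,0,1] [] (⟨0,[(16,0)]⟩,⟨1,[(15,0),(8,
  0),(0,0)]⟩) .k 0 (⟨0,[]⟩,⟨0,[]⟩) .k .k) (.R ⟨2,true,false,true,[0,1],[0,0,0,1],[1,1,1,1],(⟨0,[]⟩,
  ⟨0,[]⟩),(⟨0,[(17,0)]⟩,⟨1,[(16,0),(8,0),(0,0)]⟩),⟨0,[]⟩,.k,.k,.k,(.r 0 ⟨0,[(2,0)]⟩ ⟨1,[(15,0),(17,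
  1),(0,0)]⟩),.k,.k,⟨false,0,⟨4,[(1,3),(0,0),(2,1),(6,1),(3,1),(13,0)]⟩,⟨1,[(15,0),(17,1),(0,0)]⟩⟩,
  ⟨true,0,⟨1,[(16,0),(2,0),(2,0)]⟩,⟨0,[(17,0)]⟩⟩,⟨false,0,⟨0,[]⟩,⟨3,[(14,0),(0,0),(19,1)]⟩⟩,⟨true,0,
  ⟨0,[(0,0)]⟩,⟨4,[(1,3),(0,0),(2,1),(6,1),(4,0),(7,1),(0,1),(3,0)]⟩⟩,⟨true,0,⟨0,[(32,0)]⟩,⟨0,[(33,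
  0)]⟩⟩,⟨false,1,⟨7,[(14,0),(0,4),(0,3),(10,1)]⟩,⟨0,[(1,0),(23,0),(0,0)]⟩⟩,[]⟩) (.Q [0,0,0,0,0,1,0,
  0,0,0,0,-1] (.p false [0,0,0,1] [] (⟨0,[(17,0)]⟩,⟨1,[(16,0),(8,0),(0,0)]⟩) .k 0 (⟨0,[]⟩,⟨0,[]⟩)
  .k .k) (.R ⟨0,false,false,true,[0,0,0,1],[0,0,1],[0,1,0,0,0,0,0,0,1],(⟨0,[(18,0)]⟩,⟨1,[(17,0),(8,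
  0),(0,0)]⟩),(⟨0,[(27,0)]⟩,⟨0,[(26,0)]⟩),⟨0,[(0,0)]⟩,.k,.k,(.r (-1) ⟨1,[(16,0),(17,1),(0,0)]⟩ ⟨0,
  [(3,0)]⟩),.k,.k,.k,⟨false,1,⟨1,[(16,0),(8,1),(9,0)]⟩,⟨1,[(1,1),(9,1),(5,0),(8,0),(0,0)]⟩⟩,⟨true,0,
  ⟨2,[(8,0),(5,0),(3,2)]⟩,⟨1,[(17,0),(2,0),(3,0)]⟩⟩,⟨true,0,⟨0,[(38,0)]⟩,⟨0,[]⟩⟩,⟨false,0,⟨2,[(1,2),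
  (9,1),(1,0),(0,0),(19,1)]⟩,⟨1,[(5,0),(0,0),(0,0),(8,0),(0,0),(18,0)]⟩⟩,⟨false,0,⟨0,[]⟩,⟨0,[]⟩⟩,
  ⟨false,0,⟨0,[]⟩,⟨0,[]⟩⟩,[.o ⟨false,0,⟨0,[(21,0)]⟩,⟨0,[(19,0),(16,0)]⟩⟩,.o ⟨false,1,⟨3,[(15,0),(0,
  0),(4,3),(14,1)]⟩,⟨0,[(5,0),(0,0)]⟩⟩,.a ⟨true,0,⟨1,[(17,0),(8,0),(0,0)]⟩,⟨0,[(18,0)]⟩⟩ ⟨false,1,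
  ⟨3,[(15,0),(0,2)]⟩,⟨1,[(1,0),(0,0),(14,0),(16,0)]⟩⟩ ⟨true,0,⟨0,[(18,0),(2,0)]⟩,⟨1,[(5,0),(0,0),(0,
  0),(9,0)]⟩⟩,.o ⟨false,0,⟨1,[(17,0),(2,0),(2,0)]⟩,⟨1,[(18,1),(9,0),(6,0)]⟩⟩]⟩) (.R ⟨1,false,false,
  true,[0,0,0,1],[0,0,1],[1,1,0,0,0,0,0,0,1],(⟨0,[(18,0)]⟩,⟨1,[(17,0),(8,0),(0,0)]⟩),(⟨0,[(27,0)]⟩,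
  ⟨0,[(26,0)]⟩),⟨0,[(0,0)]⟩,.k,.k,(.r (-1) ⟨1,[(16,0),(17,1),(0,0)]⟩ ⟨0,[(3,0)]⟩),.k,(.r (-1) ⟨1,
  [(16,0),(8,1),(8,1),(0,0)]⟩ ⟨7,[(1,5),(1,1),(7,3),(1,3),(3,2),(2,2),(3,0),(7,1)]⟩),.k,⟨false,1,⟨1,
  [(16,0),(8,1),(9,0)]⟩,⟨1,[(1,1),(9,1),(5,0),(8,0),(0,0)]⟩⟩,⟨true,0,⟨2,[(8,0),(5,0),(3,2)]⟩,⟨1,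
  [(17,0),(2,0),(3,0)]⟩⟩,⟨false,0,⟨0,[]⟩,⟨3,[(15,0),(0,0),(19,1)]⟩⟩,⟨false,0,⟨2,[(1,2),(9,1),(1,0),
  (0,0),(19,1)]⟩,⟨1,[(5,0),(0,0),(0,0),(8,0),(0,0),(18,0)]⟩⟩,⟨true,0,⟨0,[(33,0)]⟩,⟨0,[(34,0)]⟩⟩,
  ⟨false,0,⟨0,[(1,0),(19,0)]⟩,⟨1,[(5,0),(1,1),(8,0),(0,0),(16,0),(1,0)]⟩⟩,[.o ⟨false,0,⟨0,[(21,0)]⟩,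
  ⟨0,[(19,0),(16,0)]⟩⟩,.o ⟨false,1,⟨3,[(15,0),(0,0),(4,3),(14,1)]⟩,⟨0,[(5,0),(0,0)]⟩⟩,.a ⟨true,0,⟨1,
  [(17,0),(8,0),(0,0)]⟩,⟨0,[(18,0)]⟩⟩ ⟨false,1,⟨3,[(15,0),(0,2)]⟩,⟨1,[(1,0),(0,0),(14,0),(16,0)]⟩⟩
  ⟨true,0,⟨0,[(18,0),(2,0)]⟩,⟨1,[(5,0),(0,0),(0,0),(9,0)]⟩⟩,.o ⟨false,0,⟨1,[(17,0),(2,0),(2,0)]⟩,⟨1,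
  [(18,1),(9,0),(6,0)]⟩⟩]⟩)))) (.Q [0,1,0,0,0,0,0,0,-1,0,0,1] (.p true [0,0,0,1] [] (⟨0,[(15,0)]⟩,
  ⟨1,[(14,0),(8,0),(0,0)]⟩) .k 0 (⟨0,[]⟩,⟨0,[]⟩) .k .k) (.K ⟨2,[0,0,0,1],0,0,(⟨0,[(16,0)]⟩,⟨1,[(15,
  0),(8,0),(0,0)]⟩),.k,(.x 0 ⟨2,[(6,0),(11,1),(2,0),(5,2)]⟩ ⟨3,[(13,0),(0,0),(13,3),(4,1)]⟩),(.r 0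
  ⟨0,[(1,0),(28,1),(0,1)]⟩ ⟨0,[(1,0),(11,0)]⟩),.k,.k,[⟨2,[(6,0),(5,0),(3,2)]⟩,⟨1,[(12,0),(2,0)]⟩,⟨1,
  [(16,1),(4,0),(0,0)]⟩,⟨1,[(15,0),(2,0),(2,0)]⟩,⟨0,[(0,0)]⟩,⟨1,[(1,1),(13,0),(2,0),(2,0),(9,
  1)]⟩]⟩) (.Q [0,0,0,0,0,1,0,0,0,0,0,-1] (.p false [0,0,0,1] [] (⟨0,[(16,0)]⟩,⟨1,[(15,0),(8,0),(0,
  0)]⟩) .k 0 (⟨0,[]⟩,⟨0,[]⟩) .k .k) (.R ⟨0,false,false,false,[0,0,0,1],[1,-1],[1,0,0,0,0,0,0,0,1],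
  (⟨0,[(17,0)]⟩,⟨1,[(16,0),(8,0),(0,0)]⟩),(⟨0,[(28,0)]⟩,⟨0,[(29,0)]⟩),⟨0,[(0,0)]⟩,.k,.k,(.x 0 ⟨2,
  [(7,0),(11,1),(2,0),(5,2)]⟩ ⟨3,[(14,0),(0,0),(13,3),(4,1)]⟩),(.r 0 ⟨1,[(1,1),(15,1),(4,0),(0,0),
  (8,1)]⟩ ⟨0,[(2,0),(11,0)]⟩),.k,.k,⟨false,0,⟨0,[(1,0),(15,0),(14,0)]⟩,⟨0,[(2,0),(11,0)]⟩⟩,⟨true,0,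
  ⟨2,[(7,0),(9,2),(1,1),(2,0)]⟩,⟨1,[(16,0),(8,0),(0,0)]⟩⟩,⟨true,0,⟨0,[]⟩,⟨0,[(37,0)]⟩⟩,⟨false,1,⟨1,
  [(4,1),(9,0),(2,1),(17,0)]⟩,⟨5,[(1,3),(0,1),(2,3),(6,3),(0,0),(2,0),(6,1)]⟩⟩,⟨false,0,⟨0,[]⟩,⟨0,
  []⟩⟩,⟨false,0,⟨0,[]⟩,⟨0,[]⟩⟩,[.o ⟨false,0,⟨0,[(4,0)]⟩,⟨3,[(5,1),(6,1),(1,0),(0,0),(11,0),(7,0)]⟩⟩,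
  .o ⟨false,1,⟨1,[(27,0),(5,1),(1,0)]⟩,⟨0,[(32,0)]⟩⟩,.a ⟨true,0,⟨1,[(16,0),(8,0),(0,0)]⟩,⟨0,[(17,
  0)]⟩⟩ ⟨false,0,⟨0,[(1,0),(15,0)]⟩,⟨3,[(14,2),(0,0)]⟩⟩ ⟨true,0,⟨0,[(4,0),(12,0)]⟩,⟨3,[(5,0),(6,1),
  (3,1),(4,0),(10,0)]⟩⟩,.o ⟨false,0,⟨1,[(16,0),(2,0),(2,0)]⟩,⟨1,[(17,1),(9,0),(6,0)]⟩⟩]⟩) (.I [1,1,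
  0,0,0,0,0,1] (.R ⟨1,false,false,true,[0,0,0,1],[0,0,1],[1,1,0,0,0,0,0,0,1],(⟨0,[(18,0)]⟩,⟨1,[(17,
  0),(8,0),(0,0)]⟩),(⟨0,[(27,0)]⟩,⟨0,[(26,0)]⟩),⟨0,[(1,0)]⟩,.k,.k,(.x 0 ⟨2,[(8,0),(11,1),(2,0),(5,
  2)]⟩ ⟨3,[(15,0),(0,0),(13,3),(4,1)]⟩),.k,(.r 0 ⟨0,[(3,0),(21,0)]⟩ ⟨1,[(13,1),(1,0),(4,1),(15,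
  0)]⟩),.k,⟨false,0,⟨0,[(3,0),(5,0)]⟩,⟨1,[(0,1),(14,0),(20,0)]⟩⟩,⟨true,0,⟨2,[(8,0),(5,0),(3,2)]⟩,⟨1,
  [(17,0),(2,0),(3,0)]⟩⟩,⟨false,0,⟨0,[]⟩,⟨3,[(15,0),(0,0),(19,1)]⟩⟩,⟨false,1,⟨1,[(15,0),(2,1),(2,1),
  (14,0)]⟩,⟨0,[(2,0),(4,0)]⟩⟩,⟨true,0,⟨0,[(33,0)]⟩,⟨0,[(34,0)]⟩⟩,⟨false,1,⟨1,[(4,1),(10,0),(2,1),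
  (17,0)]⟩,⟨0,[(2,0),(4,0),(26,0)]⟩⟩,[.o ⟨false,0,⟨0,[(21,0)]⟩,⟨0,[(19,0),(16,0)]⟩⟩,.o ⟨false,1,⟨3,
  [(15,0),(0,0),(4,3),(14,1)]⟩,⟨0,[(5,0),(0,0)]⟩⟩,.a ⟨true,0,⟨1,[(17,0),(8,0),(0,0)]⟩,⟨0,[(18,0)]⟩⟩
  ⟨false,0,⟨3,[(2,1),(0,1),(14,1),(4,0),(0,0),(8,1)]⟩,⟨1,[(15,0),(20,0)]⟩⟩ ⟨true,0,⟨0,[(18,0),(2,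
  0)]⟩,⟨1,[(5,0),(0,0),(0,0),(9,0)]⟩⟩,.o ⟨false,0,⟨1,[(17,0),(2,0),(2,0)]⟩,⟨1,[(18,1),(9,0),(6,
  0)]⟩⟩]⟩) (.R ⟨1,false,false,true,[0,0,0,1],[0,0,1],[0,0,0,-1,0,0,0,0,1],(⟨0,[(18,0)]⟩,⟨1,[(17,0),
  (8,0),(0,0)]⟩),(⟨0,[(27,0)]⟩,⟨0,[(26,0)]⟩),⟨0,[(1,0)]⟩,.k,.k,(.x 0 ⟨2,[(8,0),(11,1),(2,0),(5,2)]⟩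
  ⟨3,[(15,0),(0,0),(13,3),(4,1)]⟩),.k,(.r 0 ⟨0,[(3,0),(21,0)]⟩ ⟨1,[(13,1),(1,0),(4,1),(15,0)]⟩),.k,
  ⟨false,0,⟨0,[(0,0),(2,0)]⟩,⟨1,[(13,1),(1,0),(4,1),(14,0)]⟩⟩,⟨true,0,⟨2,[(8,0),(5,0),(3,2)]⟩,⟨1,
  [(17,0),(2,0),(3,0)]⟩⟩,⟨true,0,⟨0,[(34,0)]⟩,⟨0,[(33,0)]⟩⟩,⟨false,1,⟨1,[(15,0),(2,1),(2,1),(14,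
  0)]⟩,⟨0,[(2,0),(4,0)]⟩⟩,⟨false,1,⟨3,[(15,0),(0,0),(19,1)]⟩,⟨0,[]⟩⟩,⟨false,1,⟨1,[(4,1),(10,0),(2,
  1),(17,0)]⟩,⟨0,[(2,0),(4,0),(26,0)]⟩⟩,[.o ⟨false,0,⟨0,[(21,0)]⟩,⟨0,[(19,0),(16,0)]⟩⟩,.o ⟨false,1,
  ⟨3,[(15,0),(0,0),(4,3),(14,1)]⟩,⟨0,[(5,0),(0,0)]⟩⟩,.a ⟨true,0,⟨1,[(17,0),(8,0),(0,0)]⟩,⟨0,[(18,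
  0)]⟩⟩ ⟨false,0,⟨0,[(0,0),(0,2),(0,0),(8,0),(5,0),(12,2)]⟩,⟨3,[(6,1),(6,1),(1,1),(12,0),(7,0)]⟩⟩
  ⟨true,0,⟨0,[(18,0),(2,0)]⟩,⟨1,[(5,0),(0,0),(0,0),(9,0)]⟩⟩,.o ⟨false,0,⟨1,[(17,0),(2,0),(2,0)]⟩,⟨1,
  [(18,1),(9,0),(6,0)]⟩⟩]⟩)))))) (.R ⟨0,false,false,true,[0,1,-1],[0,1],[1,0,1],(⟨0,[(5,0)]⟩,⟨0,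
  [(22,0),(1,0)]⟩),(⟨0,[(25,0)]⟩,⟨0,[(24,0)]⟩),⟨0,[(22,0)]⟩,.k,.k,.k,.k,.k,.k,⟨false,1,⟨1,[(29,1),
  (0,0),(0,0)]⟩,⟨0,[(28,0)]⟩⟩,⟨true,0,⟨0,[(7,0)]⟩,⟨0,[(19,0)]⟩⟩,⟨false,1,⟨0,[(6,0),(14,0),(0,0),(8,
  0)]⟩,⟨0,[(4,0)]⟩⟩,⟨true,0,⟨0,[(16,0)]⟩,⟨0,[(2,0)]⟩⟩,⟨false,0,⟨0,[]⟩,⟨0,[]⟩⟩,⟨false,0,⟨0,[]⟩,⟨0,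
  []⟩⟩,[.o ⟨false,0,⟨0,[(28,0)]⟩,⟨1,[(23,0),(5,1),(1,0)]⟩⟩,.a ⟨true,0,⟨0,[(0,0)]⟩,⟨0,[(29,0)]⟩⟩
  ⟨true,0,⟨0,[(27,0)]⟩,⟨0,[(33,0)]⟩⟩ ⟨false,0,⟨0,[(0,0),(2,0)]⟩,⟨0,[(19,0),(9,0),(0,0)]⟩⟩,.o ⟨false,
  1,⟨0,[(19,0),(10,0)]⟩,⟨2,[(3,1),(11,0),(2,1)]⟩⟩,.o ⟨false,1,⟨3,[(10,0),(0,0),(7,3),(10,1)]⟩,⟨0,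
  [(3,0)]⟩⟩]⟩))) (.Q [0,0,0,-1,0,0,0,0,0,-1] (.pp true [-1,1]) (.I [1,0,-1,-1,0,0,0,-1] (.R ⟨2,true,
  false,true,[0,1],[1,0,-1],[0,0,1],(⟨0,[]⟩,⟨0,[]⟩),(⟨0,[(21,0)]⟩,⟨0,[(22,0)]⟩),⟨0,[]⟩,.k,.k,.k,.k,
  .k,.k,⟨false,1,⟨1,[(2,1),(16,1),(10,0),(0,0)]⟩,⟨1,[(0,0),(3,0),(21,0)]⟩⟩,⟨true,0,⟨0,[(15,0)]⟩,⟨1,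
  [(9,0),(11,0),(0,0)]⟩⟩,⟨true,0,⟨0,[(29,0)]⟩,⟨0,[(28,0)]⟩⟩,⟨false,0,⟨0,[(0,0),(14,0)]⟩,⟨0,[(8,0),
  (22,0)]⟩⟩,⟨false,1,⟨3,[(10,0),(0,0),(19,1)]⟩,⟨0,[]⟩⟩,⟨true,0,⟨0,[(14,0)]⟩,⟨0,[(2,0),(18,0),(0,
  0)]⟩⟩,[]⟩) (.Q [0,0,0,-1,0,0,-1,-1,0,-1,1] (.p true [0,0,1] [1] (⟨0,[(22,0)]⟩,⟨0,[(21,0)]⟩) .k 1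
  (⟨0,[]⟩,⟨0,[]⟩) .k .k) (.I [1,1,-1,0,0,0,0,-1] (.R ⟨2,true,false,true,[0,1],[1,0,-1],[0,0,1],(⟨0,
  []⟩,⟨0,[]⟩),(⟨0,[(23,0)]⟩,⟨0,[(24,0)]⟩),⟨0,[]⟩,.k,.k,.k,.k,.k,.k,⟨false,1,⟨3,[(2,1),(5,1),(14,1),
  (0,1),(7,0),(0,2)]⟩,⟨0,[(0,0)]⟩⟩,⟨true,0,⟨0,[(17,0)]⟩,⟨1,[(11,0),(11,0),(0,0)]⟩⟩,⟨true,0,⟨0,[(31,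
  0)]⟩,⟨0,[(30,0)]⟩⟩,⟨false,0,⟨0,[(1,0)]⟩,⟨0,[(10,0),(22,0)]⟩⟩,⟨false,1,⟨3,[(12,0),(0,0),(19,1)]⟩,
  ⟨0,[]⟩⟩,⟨true,0,⟨0,[(16,0)]⟩,⟨0,[(4,0),(18,0),(0,0)]⟩⟩,[]⟩) (.R ⟨2,true,false,false,[0,1],[1,0,
  -1],[0,1,1],(⟨0,[]⟩,⟨0,[]⟩),(⟨0,[(23,0)]⟩,⟨0,[(24,0)]⟩),⟨0,[]⟩,.k,.k,.k,.k,.k,.k,⟨false,0,⟨0,[(0,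
  0),(27,0)]⟩,⟨1,[(22,1),(9,0),(0,0)]⟩⟩,⟨true,0,⟨0,[(17,0)]⟩,⟨1,[(11,0),(11,0),(0,0)]⟩⟩,⟨false,0,⟨0,
  [(31,0)]⟩,⟨0,[(30,0),(2,0)]⟩⟩,⟨true,0,⟨0,[(1,0)]⟩,⟨0,[(10,0)]⟩⟩,⟨true,0,⟨0,[(35,0)]⟩,⟨0,[]⟩⟩,
  ⟨false,1,⟨0,[(16,0),(16,0)]⟩,⟨0,[(4,0),(18,0),(0,0)]⟩⟩,[]⟩)) (.Q [0,0,0,0,0,1,0,0,0,-1,1] (.ed
  false [0,1,1] .k) (.I [0,0,-1,-1,0,0,0,-2] (.K ⟨2,[-1,1,1],0,0,(⟨0,[(1,0)]⟩,⟨0,[(24,0),(2,0)]⟩),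
  .k,.k,(.r 0 ⟨3,[(3,5),(3,1),(13,0),(0,0)]⟩ ⟨7,[(0,3),(12,0),(0,0),(17,11),(0,5)]⟩),.k,(.r (-1) ⟨7,
  [(3,7),(5,3),(1,3),(1,0),(0,0),(7,3),(10,1),(0,3)]⟩ ⟨0,[(0,0)]⟩),[⟨2,[(6,0),(11,1),(2,0)]⟩,⟨0,[(0,
  0),(1,1),(29,0)]⟩,⟨1,[(18,1),(2,0),(0,0)]⟩,⟨1,[(12,0),(11,0),(0,0)]⟩,⟨0,[(4,0),(15,0)]⟩,⟨0,[(11,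
  0)]⟩]⟩) (.I [0,0,-1,0,0,1,2] (.Q [0,0,-1,0,0,0,2,0,0,2,-2] (.p false [0,0,1] [2,-1,-1] (⟨0,[(26,
  0)]⟩,⟨0,[(25,0)]⟩) .k 2 (⟨0,[(25,0),(2,0)]⟩,⟨0,[(2,0)]⟩) .k (.r (-1) ⟨3,[(1,3),(12,0),(0,0),(17,
  3),(0,1)]⟩ ⟨0,[(24,1)]⟩)) (.K ⟨2,[-1,1,1],0,0,(⟨0,[(3,0)]⟩,⟨0,[(26,0),(2,0)]⟩),.k,.k,(.r 0 ⟨3,[(5,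
  5),(3,1),(13,0),(0,0)]⟩ ⟨0,[(25,0),(8,1),(0,0)]⟩),.k,(.x 0 ⟨0,[(1,0)]⟩ ⟨1,[(20,3),(5,3),(1,0),(0,
  1),(5,0)]⟩),[⟨2,[(8,0),(11,1),(2,0)]⟩,⟨0,[(0,0)]⟩,⟨1,[(20,1),(2,0),(0,0)]⟩,⟨3,[(0,1),(22,0),(0,
  0)]⟩,⟨0,[(6,0),(15,0)]⟩,⟨0,[(13,0)]⟩]⟩) (.I [1,1,1,0,-1,0,0,0,-1] (.Q [0,-1,0,0,0,0,1,1,-1,0,-1,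
  1] (.p false [0,0,1] [0,0,0,1] (⟨0,[(28,0)]⟩,⟨0,[(27,0)]⟩) .k 2 (⟨0,[(19,0)]⟩,⟨1,[(18,0),(8,0),(0,
  0)]⟩) .k (.x 0 ⟨3,[(2,0),(6,0),(14,0),(3,1),(1,0)]⟩ ⟨7,[(1,3),(14,2),(0,2),(9,7),(8,1)]⟩)) (.R ⟨0,
  false,false,true,[0,0,0,1],[0,1],[1,1,1],(⟨0,[(20,0)]⟩,⟨1,[(19,0),(8,0),(0,0)]⟩),(⟨0,[(32,0)]⟩,⟨0,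
  [(31,0)]⟩),⟨1,[(5,0),(6,0),(6,0)]⟩,.k,.k,(.r (-1) ⟨1,[(18,0),(17,1),(0,0)]⟩ ⟨3,[(1,1),(5,1),(3,1),
  (5,0),(20,0)]⟩),(.r (-1) ⟨1,[(18,0),(17,1),(0,0)]⟩ ⟨3,[(1,1),(5,1),(3,1),(5,0),(20,0)]⟩),.k,.k,
  ⟨true,0,⟨0,[(36,0)]⟩,⟨3,[(7,1),(3,1),(13,0),(0,0)]⟩⟩,⟨false,1,⟨0,[(20,0),(16,0)]⟩,⟨7,[(2,1),(16,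
  3),(5,4),(0,0)]⟩⟩,⟨true,(-1),⟨0,[(1,0)]⟩,⟨1,[(18,0),(18,0)]⟩⟩,⟨false,0,⟨3,[(0,1),(0,1),(0,0),(3,
  0),(4,2),(8,1),(5,0),(1,0),(0,0),(7,1)]⟩,⟨1,[(8,0),(9,0),(0,0),(16,0),(1,0)]⟩⟩,⟨false,0,⟨0,[]⟩,⟨0,
  []⟩⟩,⟨false,0,⟨0,[]⟩,⟨0,[]⟩⟩,[.o ⟨false,0,⟨0,[(35,0)]⟩,⟨1,[(30,0),(5,1),(1,0)]⟩⟩,.o ⟨false,1,⟨3,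
  [(17,0),(0,0),(16,3),(2,1)]⟩,⟨0,[(8,0)]⟩⟩,.a ⟨true,0,⟨1,[(19,0),(8,0),(0,0)]⟩,⟨0,[(20,0)]⟩⟩
  ⟨false,0,⟨1,[(25,0),(0,0)]⟩,⟨1,[(37,0),(0,0)]⟩⟩ ⟨true,0,⟨0,[(20,0),(14,0)]⟩,⟨1,[(8,0),(10,0),(16,
  0)]⟩⟩,.o ⟨false,0,⟨7,[(2,1),(16,3),(5,4),(0,0)]⟩,⟨1,[(20,1),(9,0),(6,0)]⟩⟩]⟩) (.K ⟨2,[0,0,0,1],0,
  0,(⟨0,[(20,0)]⟩,⟨1,[(19,0),(8,0),(0,0)]⟩),.k,(.r (-1) ⟨1,[(18,0),(17,1),(0,0)]⟩ ⟨3,[(1,1),(5,1),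
  (3,1),(5,0),(20,0)]⟩),(.x (-1) ⟨3,[(17,0),(0,0),(13,3),(4,1)]⟩ ⟨4,[(2,1),(7,0),(14,2),(5,4)]⟩),.k,
  .k,[⟨2,[(10,0),(5,0),(3,2)]⟩,⟨1,[(16,0),(2,0)]⟩,⟨1,[(20,1),(4,0),(0,0)]⟩,⟨7,[(2,1),(16,3),(5,4),
  (0,0)]⟩,⟨2,[(1,0),(15,0),(2,2),(12,0)]⟩,⟨0,[(0,0),(8,0)]⟩]⟩)) (.Q [0,0,0,-1,0,0,-1,-1,-1,-2,1,1]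
  (.p true [-1,1,1] [1,0,0,-1] (⟨0,[(4,0)]⟩,⟨0,[(27,0),(2,0)]⟩) .k 2 (⟨1,[(18,0),(8,0),(0,0)]⟩,⟨0,
  [(19,0)]⟩) .k (.x 0 ⟨3,[(2,0),(6,0),(14,0),(3,1),(1,0)]⟩ ⟨7,[(1,3),(14,2),(0,2),(9,7),(8,1)]⟩))
  (.R ⟨0,false,false,true,[0,0,0,1],[2,-1,-1],[1,0,0,0,0,0,0,0,1],(⟨0,[(20,0)]⟩,⟨1,[(19,0),(8,0),(0,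
  0)]⟩),(⟨0,[(28,0),(2,0)]⟩,⟨0,[(5,0)]⟩),⟨1,[(5,0),(6,0),(6,0)]⟩,.k,.k,(.r (-1) ⟨1,[(18,0),(17,1),
  (0,0)]⟩ ⟨3,[(0,3),(5,5),(4,1),(7,1),(5,0),(0,2)]⟩),(.x (-1) ⟨7,[(3,3),(13,2),(0,2),(13,3),(4,1)]⟩
  ⟨4,[(2,3),(7,1),(14,0),(2,4),(2,4)]⟩),.k,.k,⟨false,1,⟨5,[(1,3),(2,3),(6,1),(6,0),(19,0)]⟩,⟨1,[(0,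
  1),(2,0),(15,0),(8,1),(2,0),(1,0)]⟩⟩,⟨true,0,⟨4,[(2,3),(7,1),(9,4),(4,0)]⟩,⟨9,[(3,3),(12,2),(2,4),
  (6,3),(1,7),(2,3)]⟩⟩,⟨true,0,⟨0,[]⟩,⟨0,[(40,0)]⟩⟩,⟨false,0,⟨0,[(0,0)]⟩,⟨11,[(1,1),(1,1),(2,11),
  (11,4),(0,5),(6,3),(1,3),(2,1),(6,4)]⟩⟩,⟨false,0,⟨0,[]⟩,⟨0,[]⟩⟩,⟨false,0,⟨0,[]⟩,⟨0,[]⟩⟩,[.o
  ⟨false,0,⟨0,[(8,0),(12,0)]⟩,⟨0,[(15,0),(22,0)]⟩⟩,.o ⟨false,1,⟨7,[(0,7),(16,0),(0,4),(0,3),(10,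
  1)]⟩,⟨0,[(6,0)]⟩⟩,.a ⟨true,0,⟨1,[(19,0),(8,0),(0,0)]⟩,⟨0,[(20,0)]⟩⟩ ⟨false,1,⟨1,[(18,0),(19,0)]⟩,
  ⟨1,[(0,1),(5,1),(12,0),(8,0),(0,0)]⟩⟩ ⟨true,0,⟨0,[(8,0),(11,0),(0,0)]⟩,⟨1,[(6,1),(12,0),(8,0),(0,
  0)]⟩⟩,.o ⟨false,0,⟨7,[(2,1),(16,3),(5,4),(0,0)]⟩,⟨1,[(20,1),(9,0),(6,0)]⟩⟩]⟩) (.Q [0,-1,0,-1,0,0,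
  0,0,1,0,0,-1] (.p false [0,0,0,1] [] (⟨0,[(20,0)]⟩,⟨1,[(19,0),(8,0),(0,0)]⟩) .k 0 (⟨0,[]⟩,⟨0,[]⟩)
  .k .k) (.R ⟨0,false,false,false,[0,0,0,1],[1,-1],[0,0,0,-1,0,0,0,0,1],(⟨0,[(21,0)]⟩,⟨1,[(20,0),(8,
  0),(0,0)]⟩),(⟨0,[(32,0)]⟩,⟨0,[(33,0)]⟩),⟨1,[(6,0),(6,0),(6,0)]⟩,.k,.k,(.x 0 ⟨4,[(3,1),(7,0),(14,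
  2),(5,4)]⟩ ⟨3,[(18,0),(0,0),(13,3),(4,1)]⟩),(.r 0 ⟨19,[(0,4),(0,14),(1,10),(7,2),(0,9),(8,19),(0,
  4),(3,8)]⟩ ⟨1,[(18,0),(18,1),(0,0)]⟩),.k,.k,⟨false,0,⟨0,[(0,0),(20,0),(14,0)]⟩,⟨1,[(18,0),(19,
  0)]⟩⟩,⟨true,0,⟨4,[(3,1),(7,0),(9,4),(4,2)]⟩,⟨1,[(20,0),(8,0),(0,0)]⟩⟩,⟨true,0,⟨0,[(37,0)]⟩,⟨0,
  [(36,0)]⟩⟩,⟨false,1,⟨1,[(9,1),(8,0),(2,1),(17,0)]⟩,⟨1,[(0,1),(2,0),(3,1),(4,1),(16,1),(0,1),(3,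
  0)]⟩⟩,⟨false,0,⟨0,[]⟩,⟨0,[]⟩⟩,⟨false,0,⟨0,[]⟩,⟨0,[]⟩⟩,[.o ⟨false,0,⟨0,[(9,0)]⟩,⟨3,[(18,0),(0,0),
  (16,3),(2,1)]⟩⟩,.o ⟨false,1,⟨1,[(31,0),(5,1),(1,0)]⟩,⟨0,[(36,0)]⟩⟩,.a ⟨true,0,⟨1,[(20,0),(8,0),(0,
  0)]⟩,⟨0,[(21,0)]⟩⟩ ⟨false,0,⟨0,[(0,0),(20,0)]⟩,⟨1,[(18,0),(17,1),(2,0)]⟩⟩ ⟨true,0,⟨0,[(9,0),(11,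
  0)]⟩,⟨1,[(7,0),(12,0),(4,0),(10,0)]⟩⟩,.o ⟨false,0,⟨7,[(3,1),(16,3),(5,4),(0,0)]⟩,⟨1,[(21,1),(9,0),
  (6,0)]⟩⟩]⟩) (.I [0,0,1,1,0,0,0,0,-1] (.K ⟨2,[0,0,0,1],0,0,(⟨0,[(22,0)]⟩,⟨1,[(21,0),(8,0),(0,0)]⟩),
  .k,(.r (-1) ⟨1,[(20,0),(17,1),(0,0)]⟩ ⟨0,[(0,0)]⟩),(.r 0 ⟨4,[(2,4),(1,3),(7,1),(9,4),(4,0),(1,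
  4)]⟩ ⟨1,[(19,0),(18,1),(0,0)]⟩),.k,.k,[⟨2,[(12,0),(5,0),(3,2)]⟩,⟨1,[(18,0),(2,0)]⟩,⟨1,[(22,1),(4,
  0),(0,0)]⟩,⟨7,[(4,1),(16,3),(5,4),(0,0)]⟩,⟨0,[(1,0),(36,0)]⟩,⟨0,[(2,0),(7,0),(12,0)]⟩]⟩) (.K ⟨2,
  [1,0,0,-1],0,0,(⟨1,[(21,0),(8,0),(0,0)]⟩,⟨0,[(22,0)]⟩),.k,(.r (-1) ⟨0,[(0,0),(18,0)]⟩ ⟨2,[(0,0),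
  (1,1),(1,1),(8,1),(8,1),(4,1)]⟩),(.x (-1) ⟨3,[(19,0),(0,0),(13,3),(4,1)]⟩ ⟨4,[(4,1),(7,0),(14,2),
  (5,4)]⟩),.k,.k,[⟨1,[(18,0),(2,0)]⟩,⟨2,[(12,0),(5,0),(3,2)]⟩,⟨1,[(18,0),(2,0),(6,1)]⟩,⟨4,[(4,1),(7,
  0),(9,4),(4,2)]⟩,⟨9,[(0,3),(1,5),(12,1),(5,1),(1,1),(2,5),(0,2),(0,0)]⟩,⟨0,[(1,0),(8,0)]⟩]⟩))))))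
  (.Q [0,1,0,0,0,0,-1,-1,1,0,1,-1] (.p true [0,0,1] [0,0,0,1] (⟨0,[(26,0)]⟩,⟨0,[(25,0)]⟩) .k 2 (⟨0,
  [(17,0)]⟩,⟨1,[(16,0),(8,0),(0,0)]⟩) .k (.x 0 ⟨2,[(7,0),(5,0),(12,2)]⟩ ⟨2,[(0,0),(8,0),(4,0),(0,0),
  (7,0),(10,0)]⟩)) (.I [0,0,-1,-1,0,0,0,0,1] (.R ⟨0,false,false,false,[0,0,0,1],[0,0,1],[0,0,0,-1,0,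
  0,0,0,1],(⟨0,[(19,0)]⟩,⟨1,[(18,0),(8,0),(0,0)]⟩),(⟨0,[(28,0)]⟩,⟨0,[(27,0)]⟩),⟨1,[(4,0),(6,0),(6,
  0)]⟩,.k,.k,(.r 0 ⟨0,[(0,0)]⟩ ⟨3,[(6,1),(3,1),(5,2),(0,0),(6,0),(0,0)]⟩),.k,.k,.k,⟨false,0,⟨0,[(0,
  0),(25,0)]⟩,⟨3,[(3,1),(12,1),(17,1),(1,0),(0,0)]⟩⟩,⟨true,0,⟨2,[(9,0),(5,0),(3,2)]⟩,⟨1,[(18,0),(2,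
  0),(3,0)]⟩⟩,⟨true,0,⟨0,[(35,0)]⟩,⟨0,[(34,0)]⟩⟩,⟨false,1,⟨1,[(8,1),(7,0),(2,1),(17,0)]⟩,⟨2,[(0,1),
  (0,0),(0,0),(1,0),(5,1),(7,0),(9,0),(4,0)]⟩⟩,⟨false,0,⟨0,[]⟩,⟨0,[]⟩⟩,⟨false,0,⟨0,[]⟩,⟨0,[]⟩⟩,[.o
  ⟨false,0,⟨0,[(8,0)]⟩,⟨1,[(23,1),(5,0),(7,0)]⟩⟩,.o ⟨false,1,⟨0,[(22,0),(14,0)]⟩,⟨0,[(20,0)]⟩⟩,.a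
  ⟨true,0,⟨1,[(18,0),(8,0),(0,0)]⟩,⟨0,[(19,0)]⟩⟩ ⟨false,0,⟨0,[(0,0),(32,0)]⟩,⟨1,[(16,0),(17,1),(2,
  0)]⟩⟩ ⟨true,0,⟨0,[(8,0),(10,0)]⟩,⟨1,[(18,0),(1,0),(2,0)]⟩⟩,.o ⟨false,0,⟨1,[(18,0),(2,0),(2,0)]⟩,
  ⟨1,[(19,1),(9,0),(6,0)]⟩⟩]⟩) (.I [0,0,0,0,0,0,0,0,-1] (.R ⟨0,false,false,false,[0,0,0,1],[0,0,1],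
  [1,0,1],(⟨0,[(20,0)]⟩,⟨1,[(19,0),(8,0),(0,0)]⟩),(⟨0,[(29,0)]⟩,⟨0,[(28,0)]⟩),⟨1,[(5,0),(6,0),(6,
  0)]⟩,.k,.k,(.r (-1) ⟨1,[(18,0),(17,1),(0,0)]⟩ ⟨0,[(0,0),(2,0),(1,1),(0,1),(1,2),(2,1),(19,2),(0,
  1)]⟩),.k,.k,.k,⟨false,0,⟨0,[(27,0)]⟩,⟨7,[(4,3),(12,0),(0,0),(17,3),(0,5)]⟩⟩,⟨true,0,⟨2,[(10,0),(5,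
  0),(3,2)]⟩,⟨1,[(19,0),(2,0),(3,0)]⟩⟩,⟨false,0,⟨0,[(0,0),(33,0)]⟩,⟨1,[(18,0),(18,0)]⟩⟩,⟨true,0,⟨0,
  [(0,0),(8,0),(10,0)]⟩,⟨0,[(2,0)]⟩⟩,⟨false,0,⟨0,[]⟩,⟨0,[]⟩⟩,⟨false,0,⟨0,[]⟩,⟨0,[]⟩⟩,[.o ⟨false,0,
  ⟨0,[(9,0)]⟩,⟨1,[(24,1),(5,0),(7,0)]⟩⟩,.o ⟨false,1,⟨0,[(23,0),(14,0)]⟩,⟨0,[(21,0)]⟩⟩,.a ⟨true,0,⟨1,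
  [(19,0),(8,0),(0,0)]⟩,⟨0,[(20,0)]⟩⟩ ⟨false,0,⟨0,[(34,0)]⟩,⟨3,[(17,0),(0,0),(18,1)]⟩⟩ ⟨true,0,⟨0,
  [(9,0),(10,0)]⟩,⟨1,[(19,0),(1,0),(2,0)]⟩⟩,.o ⟨false,0,⟨1,[(19,0),(2,0),(2,0)]⟩,⟨1,[(20,1),(9,0),
  (6,0)]⟩⟩]⟩) (.Q [0,1,0,0,0,0,0,0,-1,0,0,1] (.p true [0,0,0,1] [] (⟨0,[(20,0)]⟩,⟨1,[(19,0),(8,0),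
  (0,0)]⟩) .k 0 (⟨0,[]⟩,⟨0,[]⟩) .k .k) (.K ⟨2,[0,0,0,1],0,0,(⟨0,[(21,0)]⟩,⟨1,[(20,0),(8,0),(0,0)]⟩),
  .k,(.x 0 ⟨2,[(11,0),(11,1),(2,0),(5,2)]⟩ ⟨3,[(18,0),(0,0),(13,3),(4,1)]⟩),(.r 0 ⟨3,[(1,3),(6,1),
  (3,1),(13,0),(0,0)]⟩ ⟨1,[(18,0),(18,1),(0,0)]⟩),.k,.k,[⟨2,[(11,0),(5,0),(3,2)]⟩,⟨1,[(17,0),(2,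
  0)]⟩,⟨1,[(21,1),(4,0),(0,0)]⟩,⟨1,[(20,0),(2,0),(2,0)]⟩,⟨0,[(0,0)]⟩,⟨15,[(1,7),(1,7),(1,0),(5,2),
  (2,0),(5,3),(3,4),(9,0)]⟩]⟩) (.R ⟨0,false,false,false,[0,0,0,1],[1,-1],[1,0,0,0,0,0,0,0,1],(⟨0,
  [(21,0)]⟩,⟨1,[(20,0),(8,0),(0,0)]⟩),(⟨0,[(32,0)]⟩,⟨0,[(33,0)]⟩),⟨1,[(6,0),(6,0),(6,0)]⟩,.k,.k,(.x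
  0 ⟨2,[(11,0),(11,1),(2,0),(5,2)]⟩ ⟨3,[(18,0),(0,0),(13,3),(4,1)]⟩),(.r 0 ⟨3,[(1,3),(6,1),(3,1),
  (13,0),(0,0)]⟩ ⟨1,[(18,0),(18,1),(0,0)]⟩),.k,.k,⟨false,0,⟨0,[(0,0),(20,0),(14,0)]⟩,⟨1,[(18,0),(18,
  1),(0,0)]⟩⟩,⟨true,0,⟨2,[(11,0),(9,2),(1,1),(2,0)]⟩,⟨1,[(20,0),(8,0),(0,0)]⟩⟩,⟨true,0,⟨0,[]⟩,⟨0,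
  [(41,0)]⟩⟩,⟨false,1,⟨1,[(9,1),(8,0),(2,1),(17,0)]⟩,⟨0,[(0,0),(6,0),(17,0)]⟩⟩,⟨false,0,⟨0,[]⟩,⟨0,
  []⟩⟩,⟨false,0,⟨0,[]⟩,⟨0,[]⟩⟩,[.o ⟨false,0,⟨0,[(9,0)]⟩,⟨3,[(18,0),(0,0),(16,3),(2,1)]⟩⟩,.o ⟨false,
  1,⟨1,[(31,0),(5,1),(1,0)]⟩,⟨0,[(36,0)]⟩⟩,.a ⟨true,0,⟨1,[(20,0),(8,0),(0,0)]⟩,⟨0,[(21,0)]⟩⟩ ⟨false,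
  0,⟨0,[(0,0),(20,0)]⟩,⟨3,[(18,2),(0,0)]⟩⟩ ⟨true,0,⟨0,[(9,0),(11,0)]⟩,⟨1,[(7,0),(12,0),(4,0),(10,
  0)]⟩⟩,.o ⟨false,0,⟨1,[(20,0),(2,0),(2,0)]⟩,⟨1,[(21,1),(9,0),(6,0)]⟩⟩]⟩)))) (.R ⟨0,false,false,
  false,[0,0,0,1],[0,0,1],[1,0,0,0,0,0,0,0,1],(⟨0,[(18,0)]⟩,⟨1,[(17,0),(8,0),(0,0)]⟩),(⟨0,[(27,0)]⟩,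
  ⟨0,[(26,0)]⟩),⟨1,[(3,0),(6,0),(6,0)]⟩,.k,.k,(.r (-1) ⟨1,[(16,0),(17,1),(0,0)]⟩ ⟨3,[(0,3),(8,1),(7,
  1),(1,1),(3,0),(0,2),(8,1)]⟩),.k,.k,.k,⟨false,1,⟨1,[(16,0),(8,1),(9,0)]⟩,⟨1,[(0,1),(0,0),(1,0),
  (13,0),(9,0),(3,0)]⟩⟩,⟨true,0,⟨2,[(8,0),(5,0),(3,2)]⟩,⟨1,[(17,0),(2,0),(3,0)]⟩⟩,⟨true,0,⟨0,[]⟩,⟨0,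
  [(38,0)]⟩⟩,⟨false,0,⟨0,[(0,0)]⟩,⟨1,[(16,0),(0,0),(1,0),(2,0),(13,0)]⟩⟩,⟨false,0,⟨0,[]⟩,⟨0,[]⟩⟩,
  ⟨false,0,⟨0,[]⟩,⟨0,[]⟩⟩,[.o ⟨false,0,⟨0,[(7,0)]⟩,⟨1,[(22,1),(5,0),(7,0)]⟩⟩,.o ⟨false,1,⟨0,[(21,0),
  (14,0)]⟩,⟨0,[(19,0)]⟩⟩,.a ⟨true,0,⟨1,[(17,0),(8,0),(0,0)]⟩,⟨0,[(18,0)]⟩⟩ ⟨false,1,⟨1,[(16,0),(19,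
  0)]⟩,⟨1,[(0,1),(16,0),(1,0),(2,0)]⟩⟩ ⟨true,0,⟨0,[(7,0),(10,0)]⟩,⟨1,[(17,0),(1,0),(2,0)]⟩⟩,.o
  ⟨false,0,⟨1,[(17,0),(2,0),(2,0)]⟩,⟨1,[(18,1),(9,0),(6,0)]⟩⟩]⟩)))) (.Q [0,0,0,-1,0,0,-1,-1,0,0,1]
  (.p true [0,0,1] [] (⟨0,[(24,0)]⟩,⟨0,[(23,0)]⟩) .k 0 (⟨0,[]⟩,⟨0,[]⟩) .k .k) (.R ⟨2,false,false,
  false,[0,1],[0,1,1],[],(⟨0,[]⟩,⟨0,[]⟩),(⟨0,[(25,0),(2,0)]⟩,⟨0,[(1,0)]⟩),⟨0,[]⟩,.k,.k,.k,.k,.k,.k,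
  ⟨false,1,⟨2,[(0,2),(5,0),(5,0),(20,2)]⟩,⟨0,[(3,0)]⟩⟩,⟨true,0,⟨0,[(10,0)]⟩,⟨0,[(22,0)]⟩⟩,⟨false,1,
  ⟨1,[(32,1),(0,0),(0,0)]⟩,⟨3,[(3,1),(3,1),(13,0),(0,0)]⟩⟩,⟨true,0,⟨0,[(5,0)]⟩,⟨0,[(20,0)]⟩⟩,⟨false,
  1,⟨1,[(33,0),(0,0)]⟩,⟨1,[(21,0),(0,0)]⟩⟩,⟨false,1,⟨1,[(2,1),(23,0),(7,0)]⟩,⟨0,[(0,0)]⟩⟩,[.a ⟨true,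
  0,⟨0,[(2,0)]⟩,⟨0,[(0,0)]⟩⟩ ⟨false,1,⟨3,[(13,0),(0,0),(18,1)]⟩,⟨0,[]⟩⟩ ⟨true,0,⟨2,[(2,0),(0,1),(2,
  0),(14,0)]⟩,⟨0,[(0,0)]⟩⟩,.o ⟨false,1,⟨1,[(2,1),(23,0),(7,0)]⟩,⟨6,[(0,3),(3,1),(4,0),(7,3),(3,0),
  (7,0)]⟩⟩,.o ⟨false,1,⟨3,[(13,0),(0,0),(18,1)]⟩,⟨2,[(6,0),(11,1),(2,0)]⟩⟩,.e ⟨false,1,⟨1,[(33,0),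
  (0,0)]⟩,⟨1,[(21,0),(0,0)]⟩⟩ ⟨false,1,⟨1,[(2,1),(23,0),(7,0)]⟩,⟨0,[(0,0)]⟩⟩]⟩) (.Q [0,0,-1,0,0,0,2,
  0,0,1,-2] (.p false [0,0,1] [1,0,-1] (⟨0,[(25,0)]⟩,⟨0,[(24,0)]⟩) .k 2 (⟨0,[(24,0)]⟩,⟨0,[(25,0)]⟩)
  .k (.r (-1) ⟨1,[(2,1),(6,1),(12,1),(10,0),(0,0)]⟩ ⟨0,[(23,1)]⟩)) (.I [0,0,1,1,0,0,0,2] (.K ⟨2,[0,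
  1,1],0,0,(⟨0,[(27,0),(2,0)]⟩,⟨0,[(3,0)]⟩),.k,.k,(.r 0 ⟨3,[(5,5),(3,1),(13,0),(0,0)]⟩ ⟨0,[(25,0),
  (8,1),(0,0)]⟩),.k,(.r 0 ⟨0,[(0,0)]⟩ ⟨3,[(15,0),(0,0),(8,7),(8,3),(0,1)]⟩),[⟨1,[(23,0),(0,0)]⟩,⟨0,
  [(1,0)]⟩,⟨1,[(23,0),(0,2)]⟩,⟨0,[(12,0)]⟩,⟨0,[(22,0),(11,0)]⟩,⟨1,[(2,0),(18,0),(11,0)]⟩]⟩) (.K ⟨2,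
  [0,1,1],0,0,(⟨0,[(27,0),(2,0)]⟩,⟨0,[(3,0)]⟩),.k,.k,(.r 0 ⟨3,[(5,5),(3,1),(13,0),(0,0)]⟩ ⟨7,[(0,3),
  (14,0),(0,0),(17,11),(0,5)]⟩),.k,(.x 0 ⟨1,[(0,0),(0,0),(0,1),(3,0),(20,3),(2,1)]⟩ ⟨1,[(3,1),(16,
  1),(3,1),(1,1),(1,0),(6,0)]⟩),[⟨1,[(23,0),(0,0)]⟩,⟨0,[(1,0)]⟩,⟨1,[(23,0),(0,2)]⟩,⟨0,[(12,0)]⟩,⟨0,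
  [(22,0),(11,0)]⟩,⟨1,[(2,0),(18,0),(11,0)]⟩]⟩)) (.I [0,0,0,0,0,0,0,0,-1] (.Q [0,-1,0,0,0,0,1,1,-1,
  0,-1,1] (.p false [0,0,1] [0,0,0,1] (⟨0,[(27,0)]⟩,⟨0,[(26,0)]⟩) .k 2 (⟨0,[(18,0)]⟩,⟨1,[(17,0),(8,
  0),(0,0)]⟩) .k (.x 0 ⟨2,[(8,0),(5,0),(12,2)]⟩ ⟨3,[(1,1),(13,0),(0,0),(9,3),(1,0),(6,0)]⟩)) (.Q [0,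
  0,0,0,0,1,0,0,0,0,0,-1] (.p false [0,0,0,1] [] (⟨0,[(19,0)]⟩,⟨1,[(18,0),(8,0),(0,0)]⟩) .k 0 (⟨0,
  []⟩,⟨0,[]⟩) .k .k) (.R ⟨0,false,false,false,[0,0,0,1],[0,0,1],[1,0,0,0,0,0,0,0,1],(⟨0,[(20,0)]⟩,
  ⟨1,[(19,0),(8,0),(0,0)]⟩),(⟨0,[(29,0)]⟩,⟨0,[(28,0)]⟩),⟨0,[(0,0)]⟩,.k,.k,(.r (-1) ⟨1,[(18,0),(17,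
  1),(0,0)]⟩ ⟨3,[(2,3),(4,1),(3,1),(13,0),(0,0)]⟩),.k,.k,.k,⟨false,1,⟨1,[(18,0),(8,1),(9,0)]⟩,⟨1,
  [(1,1),(1,0),(15,0),(13,0)]⟩⟩,⟨true,0,⟨2,[(10,0),(5,0),(3,2)]⟩,⟨3,[(3,1),(15,1),(5,0),(0,0)]⟩⟩,
  ⟨true,0,⟨0,[]⟩,⟨0,[(40,0)]⟩⟩,⟨false,0,⟨0,[(1,0)]⟩,⟨1,[(18,0),(0,0),(1,0),(2,0),(13,0)]⟩⟩,⟨false,0,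
  ⟨0,[]⟩,⟨0,[]⟩⟩,⟨false,0,⟨0,[]⟩,⟨0,[]⟩⟩,[.o ⟨false,0,⟨0,[(9,0)]⟩,⟨1,[(24,1),(5,0),(7,0)]⟩⟩,.o
  ⟨false,1,⟨0,[(23,0),(14,0)]⟩,⟨0,[(21,0)]⟩⟩,.a ⟨true,0,⟨1,[(19,0),(8,0),(0,0)]⟩,⟨0,[(20,0)]⟩⟩
  ⟨false,1,⟨1,[(18,0),(19,0)]⟩,⟨0,[(2,0)]⟩⟩ ⟨true,0,⟨0,[(9,0),(10,0)]⟩,⟨1,[(19,0),(1,0),(2,0)]⟩⟩,.o
  ⟨false,0,⟨1,[(19,0),(2,0),(2,0)]⟩,⟨1,[(20,1),(9,0),(6,0)]⟩⟩]⟩) (.Q [0,-1,0,1,0,0,1,1,-1,0,-1,1]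
  (.p false [0,0,1] [0,0,0,1] (⟨0,[(29,0)]⟩,⟨0,[(28,0)]⟩) .k 2 (⟨0,[(20,0)]⟩,⟨1,[(19,0),(8,0),(0,
  0)]⟩) .k (.r 0 ⟨1,[(1,1),(1,0),(15,0),(13,0)]⟩ ⟨3,[(17,0),(0,2),(8,3)]⟩)) (.R ⟨1,false,false,
  false,[0,0,0,1],[0,0,1],[1,0,0,0,0,0,0,0,1],(⟨0,[(21,0)]⟩,⟨1,[(20,0),(8,0),(0,0)]⟩),(⟨0,[(30,0)]⟩,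
  ⟨0,[(29,0)]⟩),⟨0,[(1,0)]⟩,.k,.k,(.r (-1) ⟨1,[(19,0),(17,1),(0,0)]⟩ ⟨3,[(3,3),(4,1),(3,1),(13,0),
  (0,0)]⟩),.k,(.r (-1) ⟨1,[(19,0),(8,1),(8,1),(0,0)]⟩ ⟨0,[(3,0),(4,0)]⟩),.k,⟨false,1,⟨1,[(19,0),(8,
  1),(9,0)]⟩,⟨1,[(2,1),(1,0),(15,0),(13,0)]⟩⟩,⟨true,0,⟨2,[(11,0),(5,0),(3,2)]⟩,⟨3,[(4,1),(15,1),(5,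
  0),(0,0)]⟩⟩,⟨true,0,⟨0,[]⟩,⟨0,[(41,0)]⟩⟩,⟨false,0,⟨0,[(2,0)]⟩,⟨1,[(19,0),(0,0),(1,0),(2,0),(13,
  0)]⟩⟩,⟨false,1,⟨0,[(36,0),(2,0)]⟩,⟨0,[(37,0)]⟩⟩,⟨false,0,⟨0,[(0,0)]⟩,⟨1,[(9,0),(9,0),(0,0),(4,1),
  (11,0),(1,0)]⟩⟩,[.o ⟨false,0,⟨0,[(10,0)]⟩,⟨1,[(25,1),(5,0),(7,0)]⟩⟩,.o ⟨false,1,⟨0,[(24,0),(14,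
  0)]⟩,⟨0,[(22,0)]⟩⟩,.a ⟨true,0,⟨1,[(20,0),(8,0),(0,0)]⟩,⟨0,[(21,0)]⟩⟩ ⟨false,1,⟨1,[(19,0),(19,0)]⟩,
  ⟨0,[(3,0)]⟩⟩ ⟨true,0,⟨0,[(10,0),(10,0)]⟩,⟨1,[(20,0),(1,0),(2,0)]⟩⟩,.o ⟨false,0,⟨1,[(20,0),(2,0),
  (2,0)]⟩,⟨1,[(21,1),(9,0),(6,0)]⟩⟩]⟩) (.R ⟨1,true,false,false,[1,0,-1],[1,0,0,-1],[1,0,0,0,0,0,0,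
  -1],(⟨0,[(29,0)]⟩,⟨0,[(30,0)]⟩),(⟨1,[(20,0),(8,0),(0,0)]⟩,⟨0,[(21,0)]⟩),⟨0,[(6,0)]⟩,.k,.k,.k,.k,
  (.r (-1) ⟨1,[(19,0),(8,1),(8,1),(0,0)]⟩ ⟨0,[(3,0),(4,0)]⟩),.k,⟨false,1,⟨1,[(19,0),(8,1),(9,0)]⟩,
  ⟨1,[(2,1),(1,0),(15,0),(13,0)]⟩⟩,⟨true,0,⟨2,[(11,0),(5,0),(3,2)]⟩,⟨3,[(4,1),(15,1),(5,0),(0,0)]⟩⟩,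
  ⟨true,0,⟨0,[]⟩,⟨0,[(41,0)]⟩⟩,⟨false,0,⟨0,[(2,0)]⟩,⟨1,[(19,0),(0,0),(1,0),(2,0),(13,0)]⟩⟩,⟨false,1,
  ⟨0,[(36,0),(2,0)]⟩,⟨0,[(37,0)]⟩⟩,⟨true,0,⟨0,[(2,0),(33,0)]⟩,⟨0,[(0,0)]⟩⟩,[]⟩))) (.K ⟨2,[0,0,0,1],
  0,0,(⟨0,[(19,0)]⟩,⟨1,[(18,0),(8,0),(0,0)]⟩),.k,(.r (-1) ⟨1,[(17,0),(17,1),(0,0)]⟩ ⟨3,[(1,3),(4,1),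
  (3,1),(13,0),(0,0)]⟩),(.r 0 ⟨0,[(0,0),(2,0),(15,0),(13,0)]⟩ ⟨1,[(16,0),(18,1),(0,0)]⟩),.k,.k,[⟨2,
  [(9,0),(5,0),(3,2)]⟩,⟨1,[(15,0),(2,0)]⟩,⟨1,[(19,1),(4,0),(0,0)]⟩,⟨1,[(18,0),(2,0),(2,0)]⟩,⟨0,[(1,
  0),(17,0),(19,0)]⟩,⟨0,[(0,0),(7,0)]⟩]⟩)) (.I [0,-1,0,-1,0,0,0,0,1] (.Q [0,0,0,0,0,1,0,0,0,0,0,-1]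
  (.p false [0,0,0,1] [] (⟨0,[(19,0)]⟩,⟨1,[(18,0),(8,0),(0,0)]⟩) .k 0 (⟨0,[]⟩,⟨0,[]⟩) .k .k) (.R ⟨0,
  false,false,false,[0,0,0,1],[1,-1],[0,0,0,-1,0,0,0,0,1],(⟨0,[(20,0)]⟩,⟨1,[(19,0),(8,0),(0,0)]⟩),
  (⟨0,[(31,0)]⟩,⟨0,[(32,0)]⟩),⟨0,[(0,0)]⟩,.k,.k,(.x 0 ⟨2,[(10,0),(11,1),(2,0),(5,2)]⟩ ⟨3,[(17,0),(0,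
  0),(13,3),(4,1)]⟩),(.r 0 ⟨3,[(2,3),(4,1),(3,1),(13,0),(0,0)]⟩ ⟨1,[(17,0),(18,1),(0,0)]⟩),.k,.k,
  ⟨false,0,⟨1,[(1,1),(1,0),(0,1),(0,2),(2,1),(2,1),(17,2),(2,2),(0,0)]⟩,⟨1,[(17,0),(19,0)]⟩⟩,⟨true,
  0,⟨2,[(10,0),(9,2),(1,1),(2,0)]⟩,⟨1,[(19,0),(8,0),(0,0)]⟩⟩,⟨true,0,⟨0,[(36,0)]⟩,⟨0,[(35,0)]⟩⟩,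
  ⟨false,1,⟨1,[(8,1),(8,0),(2,1),(17,0)]⟩,⟨1,[(1,1),(1,0),(2,1),(4,1),(7,0),(13,0)]⟩⟩,⟨false,0,⟨0,
  []⟩,⟨0,[]⟩⟩,⟨false,0,⟨0,[]⟩,⟨0,[]⟩⟩,[.o ⟨false,0,⟨0,[(8,0)]⟩,⟨3,[(17,0),(0,0),(16,3),(2,1)]⟩⟩,.o
  ⟨false,1,⟨1,[(30,0),(5,1),(1,0)]⟩,⟨0,[(35,0)]⟩⟩,.a ⟨true,0,⟨1,[(19,0),(8,0),(0,0)]⟩,⟨0,[(20,0)]⟩⟩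
  ⟨false,0,⟨0,[(1,0)]⟩,⟨1,[(17,0),(17,1),(2,0)]⟩⟩ ⟨true,0,⟨0,[(8,0),(11,0)]⟩,⟨1,[(6,0),(12,0),(4,0),
  (10,0)]⟩⟩,.o ⟨false,0,⟨1,[(19,0),(2,0),(2,0)]⟩,⟨1,[(20,1),(9,0),(6,0)]⟩⟩]⟩) (.I [0,0,1,1,0,0,0,-1,
  -1] (.R ⟨1,false,false,true,[0,0,0,1],[1,0,-1],[1,1,0,0,0,0,0,0,1],(⟨0,[(21,0)]⟩,⟨1,[(20,0),(8,0),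
  (0,0)]⟩),(⟨0,[(29,0)]⟩,⟨0,[(30,0)]⟩),⟨0,[(1,0)]⟩,.k,.k,(.x 0 ⟨2,[(11,0),(11,1),(2,0),(5,2)]⟩ ⟨3,
  [(18,0),(0,0),(13,3),(4,1)]⟩),.k,(.r (-1) ⟨7,[(2,5),(11,3),(1,3),(2,0),(7,3),(9,1),(0,5),(0,0)]⟩
  ⟨0,[(0,0)]⟩),.k,⟨true,0,⟨1,[(2,1),(1,0),(0,0),(1,0),(26,0)]⟩,⟨0,[(0,0),(36,0)]⟩⟩,⟨false,1,⟨3,[(4,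
  1),(16,3),(9,0),(6,2)]⟩,⟨1,[(17,0),(2,0)]⟩⟩,⟨false,0,⟨0,[]⟩,⟨3,[(18,0),(0,0),(19,1)]⟩⟩,⟨false,1,
  ⟨1,[(18,0),(2,1),(0,1),(16,0)]⟩,⟨1,[(2,1),(2,0),(1,0),(12,0)]⟩⟩,⟨true,0,⟨0,[(36,0)]⟩,⟨0,[(37,
  0)]⟩⟩,⟨false,1,⟨3,[(4,1),(7,3),(5,1),(2,3),(9,0),(6,0)]⟩,⟨1,[(2,1),(4,0),(2,0),(9,0),(16,0)]⟩⟩,
  [.o ⟨false,0,⟨0,[(22,0)]⟩,⟨0,[(24,0),(14,0)]⟩⟩,.o ⟨false,1,⟨1,[(25,1),(5,0),(7,0)]⟩,⟨0,[(10,0)]⟩⟩,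
  .a ⟨true,0,⟨1,[(20,0),(8,0),(0,0)]⟩,⟨0,[(21,0)]⟩⟩ ⟨false,0,⟨0,[(3,0)]⟩,⟨1,[(18,0),(20,0)]⟩⟩ ⟨true,
  0,⟨0,[(21,0),(0,0)]⟩,⟨1,[(7,0),(2,0),(9,0),(16,0)]⟩⟩,.o ⟨false,0,⟨1,[(20,0),(2,0),(2,0)]⟩,⟨1,[(21,
  1),(9,0),(6,0)]⟩⟩]⟩) (.R ⟨1,false,false,false,[0,0,0,1],[0,0,1],[0,0,0,-1,0,0,0,0,1],(⟨0,[(21,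
  0)]⟩,⟨1,[(20,0),(8,0),(0,0)]⟩),(⟨0,[(30,0)]⟩,⟨0,[(29,0)]⟩),⟨0,[(1,0)]⟩,.k,.k,(.r 0 ⟨0,[(0,0),(27,
  0)]⟩ ⟨3,[(8,1),(3,1),(5,2),(0,0),(6,0),(0,0)]⟩),.k,(.r 0 ⟨0,[(0,0),(27,1)]⟩ ⟨3,[(8,3),(9,2),(0,
  0)]⟩),.k,⟨false,0,⟨0,[(0,0),(27,1)]⟩,⟨1,[(8,1),(9,0),(19,0)]⟩⟩,⟨true,0,⟨2,[(11,0),(5,0),(3,2)]⟩,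
  ⟨3,[(4,1),(15,1),(5,0),(0,0)]⟩⟩,⟨true,0,⟨0,[(37,0)]⟩,⟨0,[(36,0)]⟩⟩,⟨false,1,⟨1,[(10,1),(7,0),(2,
  1),(17,0)]⟩,⟨3,[(0,0),(1,1),(0,0),(0,0),(7,2),(7,1),(1,0),(2,0)]⟩⟩,⟨false,1,⟨3,[(18,0),(0,0),(19,
  1)]⟩,⟨0,[]⟩⟩,⟨false,1,⟨1,[(5,1),(12,0),(2,1),(17,0)]⟩,⟨1,[(2,1),(17,0),(1,0),(2,0)]⟩⟩,[.o ⟨false,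
  0,⟨0,[(10,0)]⟩,⟨1,[(25,1),(5,0),(7,0)]⟩⟩,.o ⟨false,1,⟨0,[(24,0),(14,0)]⟩,⟨0,[(22,0)]⟩⟩,.a ⟨true,0,
  ⟨1,[(20,0),(8,0),(0,0)]⟩,⟨0,[(21,0)]⟩⟩ ⟨false,0,⟨0,[(2,0)]⟩,⟨1,[(18,0),(17,1),(2,0)]⟩⟩ ⟨true,0,⟨0,
  [(10,0),(10,0)]⟩,⟨1,[(20,0),(1,0),(2,0)]⟩⟩,.o ⟨false,0,⟨1,[(20,0),(2,0),(2,0)]⟩,⟨1,[(21,1),(9,0),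
  (6,0)]⟩⟩]⟩))) (.I [0,0,1,1,0,0,0,0,-1] (.K ⟨2,[0,0,0,1],0,0,(⟨0,[(20,0)]⟩,⟨1,[(19,0),(8,0),(0,
  0)]⟩),.k,(.r (-1) ⟨1,[(18,0),(17,1),(0,0)]⟩ ⟨0,[(0,0)]⟩),(.r 0 ⟨3,[(2,3),(4,1),(3,1),(13,0),(0,
  0)]⟩ ⟨1,[(17,0),(18,1),(0,0)]⟩),.k,.k,[⟨2,[(10,0),(5,0),(3,2)]⟩,⟨1,[(16,0),(2,0)]⟩,⟨1,[(20,1),(4,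
  0),(0,0)]⟩,⟨1,[(19,0),(2,0),(2,0)]⟩,⟨0,[(1,0),(18,0),(15,0)]⟩,⟨1,[(2,1),(16,0),(1,0),(1,0)]⟩]⟩)
  (.K ⟨2,[0,0,0,1],0,0,(⟨0,[(20,0)]⟩,⟨1,[(19,0),(8,0),(0,0)]⟩),.k,(.x 0 ⟨2,[(10,0),(11,1),(2,0),(5,
  2)]⟩ ⟨3,[(17,0),(0,0),(13,3),(4,1)]⟩),(.r 0 ⟨3,[(2,3),(4,1),(3,1),(13,0),(0,0)]⟩ ⟨0,[(0,0),(16,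
  0)]⟩),.k,.k,[⟨2,[(10,0),(5,0),(3,2)]⟩,⟨1,[(16,0),(2,0)]⟩,⟨1,[(20,1),(4,0),(0,0)]⟩,⟨1,[(19,0),(2,
  0),(2,0)]⟩,⟨0,[(1,0),(18,0),(15,0)]⟩,⟨1,[(2,1),(16,0),(1,0),(1,0)]⟩]⟩))))))))) (.R ⟨0,false,false,
  false,[0,1,-1],[0,1],[0,0,1,1],(⟨0,[(4,0)]⟩,⟨0,[(21,0),(1,0)]⟩),(⟨0,[(24,0)]⟩,⟨0,[(23,0)]⟩),⟨0,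
  [(21,0)]⟩,.k,.k,.k,.k,.k,.k,⟨false,1,⟨3,[(9,0),(0,0),(18,1)]⟩,⟨0,[]⟩⟩,⟨true,0,⟨0,[(6,0)]⟩,⟨0,[(18,
  0)]⟩⟩,⟨false,1,⟨0,[(0,0),(4,0),(24,0)]⟩,⟨0,[(19,0)]⟩⟩,⟨true,0,⟨0,[(1,0)]⟩,⟨0,[(16,0)]⟩⟩,⟨false,0,
  ⟨0,[]⟩,⟨0,[]⟩⟩,⟨false,0,⟨0,[]⟩,⟨0,[]⟩⟩,[.a ⟨true,0,⟨0,[(0,0)]⟩,⟨0,[(28,0)]⟩⟩ ⟨true,0,⟨0,[(26,0),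
  (0,0)]⟩,⟨0,[(28,0)]⟩⟩ ⟨false,0,⟨0,[(0,0),(1,0)]⟩,⟨0,[(18,0),(9,0),(0,0)]⟩⟩,.o ⟨false,1,⟨0,[(27,0),
  (2,0)]⟩,⟨5,[(2,0),(2,2),(2,0),(4,2),(14,2)]⟩⟩,.o ⟨false,1,⟨0,[(18,0),(10,0)]⟩,⟨2,[(2,1),(11,0),(2,
  1)]⟩⟩,.o ⟨false,1,⟨3,[(9,0),(0,0),(7,3),(10,1)]⟩,⟨0,[(2,0)]⟩⟩]⟩))))

theorem ok14 : chk (cU (-1) false 10) t14 r9 = true := by decide +kernel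

noncomputable def t15 : Tre :=
  .I [1,0,0,-1,0,0,0,1] t13 t14

theorem ok15 : chk (cU (-1) false 10) t15 l8 = true :=
  chk_I (e' := [0,0,0,1,0,0,0,-1]) (by decide +kernel) (by decide +kernel) ok13 ok14

noncomputable def l10 : List Con := (true, [0,0,0,-1,0,0,0,1]) :: r8

noncomputable def r10 : List Con := (true, [1,0,0,1,0,0,0,-1]) :: r8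

noncomputable def t16 : Tre :=
  (.Q [0,-1,0,-1,0,0,1,1,0,1,-1] (.p false [0,0,1] [1] (⟨0,[(18,0)]⟩,⟨0,[(17,0)]⟩) .k 1 (⟨0,[]⟩,⟨0,
  []⟩) .k .k) (.R ⟨2,true,false,true,[0,1],[1,1,-1],[0,1,1],(⟨0,[]⟩,⟨0,[]⟩),(⟨0,[(18,0),(3,0)]⟩,⟨0,
  [(2,0)]⟩),⟨0,[]⟩,.k,.k,.k,.k,.k,.k,⟨true,0,⟨0,[(1,0)]⟩,⟨0,[(17,0),(6,0),(0,0)]⟩⟩,⟨false,1,⟨0,[(12,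
  0),(14,0)]⟩,⟨1,[(6,0),(11,0),(0,0)]⟩⟩,⟨false,0,⟨0,[(26,0)]⟩,⟨0,[(25,0),(2,0)]⟩⟩,⟨true,0,⟨0,[(11,
  0)]⟩,⟨1,[(0,0),(4,0)]⟩⟩,⟨true,0,⟨0,[(30,0)]⟩,⟨0,[]⟩⟩,⟨false,1,⟨0,[(11,0),(13,0),(2,0)]⟩,⟨0,[(0,
  0)]⟩⟩,[]⟩) (.Q [0,0,0,0,0,0,-1,-1,0,0,1] (.p true [0,0,1] [] (⟨0,[(19,0)]⟩,⟨0,[(18,0)]⟩) .k 0 (⟨0,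
  []⟩,⟨0,[]⟩) .k .k) (.R ⟨2,true,false,true,[0,1],[0,0,1],[0,0,1],(⟨0,[]⟩,⟨0,[]⟩),(⟨0,[(20,0)]⟩,⟨0,
  [(19,0)]⟩),⟨0,[]⟩,.k,.k,.k,.k,.k,.k,⟨true,0,⟨0,[(18,0),(6,0)]⟩,⟨1,[(1,0),(0,1),(3,0)]⟩⟩,⟨false,0,
  ⟨0,[(5,0)]⟩,⟨0,[(17,0),(10,0)]⟩⟩,⟨true,0,⟨0,[(27,0)]⟩,⟨1,[(1,0),(4,0)]⟩⟩,⟨false,0,⟨0,[(2,0),(2,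
  0)]⟩,⟨1,[(0,1),(0,0),(4,0),(22,1)]⟩⟩,⟨false,1,⟨3,[(8,0),(0,0),(19,1)]⟩,⟨0,[]⟩⟩,⟨true,0,⟨0,[(14,
  0)]⟩,⟨0,[(0,0)]⟩⟩,[]⟩) (.Q [0,0,0,1,0,0,0,0,0,1] (.pp false [-1,1]) (.R ⟨1,false,false,false,[0,0,
  1],[1,-1],[0,1],(⟨0,[(21,0)]⟩,⟨0,[(20,0)]⟩),(⟨0,[(23,0)]⟩,⟨0,[(24,0)]⟩),⟨0,[(4,0)]⟩,.k,.k,.k,.k,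
  .k,.k,⟨false,0,⟨0,[(27,0)]⟩,⟨1,[(28,1),(0,0),(0,0)]⟩⟩,⟨true,0,⟨0,[(14,0)]⟩,⟨1,[(0,0),(7,0),(19,
  0)]⟩⟩,⟨false,0,⟨0,[(19,0)]⟩,⟨3,[(3,1),(3,1),(6,1),(14,0),(0,2)]⟩⟩,⟨false,1,⟨0,[(13,0),(14,0),(1,
  0)]⟩,⟨0,[(0,0),(0,0)]⟩⟩,⟨true,0,⟨3,[(0,0),(1,2),(5,1),(7,0)]⟩,⟨0,[(3,0)]⟩⟩,⟨false,1,⟨0,[(13,0),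
  (16,0)]⟩,⟨2,[(0,1),(0,0),(1,1),(4,0)]⟩⟩,[.a ⟨true,0,⟨0,[(28,0)]⟩,⟨0,[(0,0)]⟩⟩ ⟨true,0,⟨0,[(32,
  0)]⟩,⟨0,[(26,0)]⟩⟩ ⟨false,1,⟨1,[(3,1),(9,1),(15,0),(0,0)]⟩,⟨0,[(0,0),(5,0)]⟩⟩,.o ⟨false,1,⟨1,[(22,
  0),(5,1),(1,0)]⟩,⟨0,[(27,0)]⟩⟩,.o ⟨false,0,⟨0,[(6,0)]⟩,⟨1,[(18,1),(3,0),(6,0)]⟩⟩,.o ⟨false,0,⟨0,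
  [(17,0)]⟩,⟨0,[(14,0),(14,0)]⟩⟩]⟩) (.Q [0,0,0,-1,0,0,-1,-1,0,-1,1] (.p true [0,0,1] [1] (⟨0,[(21,
  0)]⟩,⟨0,[(20,0)]⟩) .k 1 (⟨0,[]⟩,⟨0,[]⟩) .k .k) (.R ⟨2,true,false,false,[0,1],[1,0,-1],[0,1,1],(⟨0,
  []⟩,⟨0,[]⟩),(⟨0,[(21,0)]⟩,⟨0,[(22,0)]⟩),⟨0,[]⟩,.k,.k,.k,.k,.k,.k,⟨false,0,⟨1,[(3,0),(0,1),(3,0)]⟩,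
  ⟨1,[(20,1),(9,0),(0,0)]⟩⟩,⟨true,0,⟨0,[(15,0)]⟩,⟨1,[(9,0),(11,0),(0,0)]⟩⟩,⟨false,0,⟨0,[(29,0)]⟩,⟨1,
  [(3,0),(4,0),(22,1)]⟩⟩,⟨true,0,⟨0,[(0,0)]⟩,⟨0,[(8,0)]⟩⟩,⟨true,0,⟨0,[(33,0)]⟩,⟨0,[]⟩⟩,⟨false,1,⟨0,
  [(14,0),(16,0)]⟩,⟨0,[(2,0),(18,0),(0,0)]⟩⟩,[]⟩) (.Q [0,0,0,0,0,-2,0,0,0,1,-1] (.p false [0,0,1]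
  [1] (⟨0,[(22,0)]⟩,⟨0,[(21,0)]⟩) .k 1 (⟨0,[]⟩,⟨0,[]⟩) .k .k) (.Q [0,0,0,-1,0,0,-1,-1,0,0,1] (.p
  true [0,0,1] [] (⟨0,[(23,0)]⟩,⟨0,[(22,0)]⟩) .k 0 (⟨0,[]⟩,⟨0,[]⟩) .k .k) (.R ⟨2,true,false,true,[0,
  1],[0,1,1],[0,0,1],(⟨0,[]⟩,⟨0,[]⟩),(⟨0,[(24,0),(2,0)]⟩,⟨1,[(1,0),(21,0)]⟩),⟨0,[]⟩,.k,.k,.k,.k,.k,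
  .k,⟨false,1,⟨5,[(0,3),(2,1),(7,1),(10,1),(9,2),(0,2)]⟩,⟨0,[(2,0),(2,0),(0,0)]⟩⟩,⟨true,0,⟨0,[(9,
  0)]⟩,⟨0,[(21,0)]⟩⟩,⟨true,0,⟨0,[(31,0)]⟩,⟨1,[(5,0),(4,0)]⟩⟩,⟨false,0,⟨0,[(4,0)]⟩,⟨0,[(19,0),(13,
  0)]⟩⟩,⟨false,1,⟨3,[(12,0),(0,0),(19,1)]⟩,⟨0,[]⟩⟩,⟨true,0,⟨1,[(4,1),(0,0),(4,0)]⟩,⟨0,[(0,0)]⟩⟩,
  []⟩) (.I [0,0,-1,0,0,1,2] (.Q [0,0,-1,0,0,0,2,0,0,1,-2] (.p false [0,0,1] [1,0,-1] (⟨0,[(25,0)]⟩,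
  ⟨0,[(24,0)]⟩) .k 2 (⟨0,[(24,0)]⟩,⟨0,[(25,0)]⟩) .k (.r (-1) ⟨1,[(1,0),(5,0),(1,0),(1,0),(10,1),(10,
  0),(0,0)]⟩ ⟨0,[(23,1)]⟩)) (.K ⟨2,[0,1,1],0,0,(⟨0,[(26,0),(2,0)]⟩,⟨1,[(3,0),(21,0)]⟩),.k,.k,(.r 0
  ⟨1,[(2,1),(4,0),(4,0),(10,1),(7,1)]⟩ ⟨0,[(24,0),(8,1),(0,0)]⟩),.k,(.x 0 ⟨0,[(1,0)]⟩ ⟨1,[(3,0),(15,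
  1),(3,1),(1,2),(1,0),(6,0)]⟩),[⟨1,[(22,0),(0,0)]⟩,⟨0,[(0,0)]⟩,⟨1,[(22,0),(0,2)]⟩,⟨0,[(11,0)]⟩,⟨0,
  [(21,0),(11,0)]⟩,⟨3,[(2,1),(4,0),(4,0),(7,1)]⟩]⟩) (.I [0,0,-1,-1,0,0,0,0,-1] (.R ⟨1,false,false,
  false,[1,0,0,-1],[0,0,1],[0,0,0,-1,0,0,0,0,-1],(⟨1,[(17,0),(8,0),(0,0)]⟩,⟨0,[(18,0)]⟩),(⟨0,[(27,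
  0)]⟩,⟨0,[(26,0)]⟩),⟨3,[(4,0),(5,0),(6,1),(11,0)]⟩,.k,.k,(.r 0 ⟨0,[(0,0)]⟩ ⟨1,[(8,0),(4,0),(2,0),
  (6,0),(0,0),(11,0)]⟩),.k,(.r 0 ⟨0,[(0,0),(24,0)]⟩ ⟨11,[(1,7),(1,1),(9,9),(2,5),(6,3),(4,0),(7,
  4)]⟩),.k,⟨false,0,⟨0,[(0,0),(24,0)]⟩,⟨3,[(1,1),(1,1),(9,1),(2,1),(18,0),(0,0)]⟩⟩,⟨true,0,⟨1,[(14,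
  0),(2,0)]⟩,⟨0,[(18,0),(1,0)]⟩⟩,⟨true,0,⟨0,[(34,0)]⟩,⟨1,[(8,0),(4,0)]⟩⟩,⟨false,1,⟨5,[(5,1),(1,1),
  (1,1),(4,0),(1,2),(0,2),(18,2)]⟩,⟨0,[(0,0),(7,0),(9,0),(13,0)]⟩⟩,⟨false,1,⟨3,[(15,0),(0,0),(19,
  1)]⟩,⟨0,[]⟩⟩,⟨false,1,⟨1,[(3,0),(1,0),(10,0),(0,0),(18,0)]⟩,⟨0,[(0,0),(17,0),(0,0),(12,0)]⟩⟩,[.o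
  ⟨false,0,⟨0,[(7,0)]⟩,⟨1,[(22,1),(5,0),(7,0)]⟩⟩,.o ⟨false,1,⟨0,[(21,0),(14,0)]⟩,⟨0,[(19,0)]⟩⟩,.a
  ⟨true,0,⟨0,[(18,0)]⟩,⟨1,[(17,0),(8,0),(0,0)]⟩⟩ ⟨false,0,⟨0,[(0,0),(31,0)]⟩,⟨1,[(8,0),(4,0),(2,0),
  (19,0)]⟩⟩ ⟨true,0,⟨5,[(5,1),(1,1),(1,1),(4,0),(2,2)]⟩,⟨0,[(18,0),(0,0)]⟩⟩,.o ⟨false,0,⟨4,[(3,0),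
  (2,1),(1,0),(9,4),(1,1),(2,1),(8,0)]⟩,⟨7,[(15,0),(0,0),(0,3),(10,1),(6,3)]⟩⟩]⟩) (.I [0,0,-1,-1,0,
  0,0,0,1] (.Q [0,0,0,-2,0,0,-1,-1,0,-1,1] (.p true [0,0,1] [1] (⟨0,[(28,0)]⟩,⟨0,[(27,0)]⟩) .k 1
  (⟨0,[]⟩,⟨0,[]⟩) .k .k) (.R ⟨1,true,false,false,[1,0,-1],[0,1],[0,1,0,-1,0,0,0,-1],(⟨0,[(28,0)]⟩,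
  ⟨0,[(29,0)]⟩),(⟨0,[(32,0)]⟩,⟨0,[(31,0)]⟩),⟨1,[(6,0),(21,0)]⟩,.k,.k,.k,.k,(.r (-1) ⟨15,[(0,15),(3,
  3),(11,3),(0,0),(0,0),(9,7),(2,3),(5,13)]⟩ ⟨1,[(5,1),(4,0),(4,0),(10,1),(7,1)]⟩),.k,⟨true,0,⟨3,
  [(0,3),(3,1),(1,0),(21,2),(4,1)]⟩,⟨1,[(3,0),(1,0),(1,1),(2,0),(23,2)]⟩⟩,⟨false,1,⟨15,[(4,3),(11,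
  3),(0,0),(0,0),(9,7),(2,3),(5,13)]⟩,⟨0,[(22,0)]⟩⟩,⟨false,0,⟨0,[(36,0)]⟩,⟨1,[(10,0),(4,0),(22,
  1)]⟩⟩,⟨true,0,⟨0,[(7,0)]⟩,⟨8,[(0,3),(12,0),(7,3),(2,1),(0,0),(7,0)]⟩⟩,⟨true,0,⟨0,[(40,0)]⟩,⟨0,
  []⟩⟩,⟨false,1,⟨1,[(7,1),(2,0),(4,0),(22,1)]⟩,⟨0,[(0,0)]⟩⟩,[]⟩) (.I [0,0,1,0,0,0,0,-1,-1] (.R ⟨1,
  false,false,false,[1,0,0,-1],[0,-1,1],[0,0,0,-1,0,0,0,0,-1],(⟨1,[(20,0),(8,0),(0,0)]⟩,⟨0,[(21,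
  0)]⟩),(⟨0,[(13,0)]⟩,⟨0,[(29,0),(3,0)]⟩),⟨3,[(7,0),(5,0),(6,1),(11,0)]⟩,.k,.k,(.r (-1) ⟨1,[(18,0),
  (18,1),(0,0)]⟩ ⟨0,[(1,3),(0,0),(1,5),(0,3),(1,7),(1,5),(18,3),(4,11)]⟩),(.x (-1) ⟨3,[(4,1),(24,3),
  (1,0),(1,3),(4,2)]⟩ ⟨0,[(13,0),(12,0)]⟩),.k,.k,⟨true,0,⟨0,[(0,0)]⟩,⟨7,[(1,1),(0,4),(0,2),(0,1),(1,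
  1),(5,3)]⟩⟩,⟨false,0,⟨1,[(17,0),(2,0)]⟩,⟨3,[(4,1),(16,3),(9,0),(6,2)]⟩⟩,⟨true,0,⟨0,[(37,0)]⟩,⟨1,
  [(11,0),(4,0)]⟩⟩,⟨false,0,⟨5,[(2,5),(5,1),(1,1),(1,1),(4,0),(2,2),(14,5)]⟩,⟨1,[(11,1),(6,0),(2,1),
  (17,0)]⟩⟩,⟨false,1,⟨3,[(18,0),(0,0),(19,1)]⟩,⟨0,[]⟩⟩,⟨false,0,⟨1,[(1,0),(0,1),(7,0),(9,0),(14,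
  1)]⟩,⟨1,[(18,0),(2,1),(0,1),(16,0)]⟩⟩,[.o ⟨false,0,⟨2,[(9,0),(0,0),(1,1),(4,0)]⟩,⟨3,[(11,3),(6,0),
  (0,0),(19,1)]⟩⟩,.o ⟨false,1,⟨7,[(12,3),(1,3),(2,3),(0,0),(0,0),(19,5)]⟩,⟨0,[(11,0)]⟩⟩,.a ⟨true,0,
  ⟨0,[(21,0)]⟩,⟨1,[(20,0),(8,0),(0,0)]⟩⟩ ⟨false,1,⟨1,[(18,0),(18,1),(1,0)]⟩,⟨3,[(1,1),(0,2),(0,0),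
  (7,1),(23,1)]⟩⟩ ⟨true,0,⟨1,[(12,1),(4,0),(2,0)]⟩,⟨0,[(11,0),(9,0)]⟩⟩,.o ⟨false,0,⟨4,[(6,0),(2,1),
  (1,0),(9,4),(1,1),(2,1),(8,0)]⟩,⟨7,[(18,0),(0,0),(0,3),(10,1),(6,3)]⟩⟩]⟩) (.R ⟨1,false,false,
  false,[1,0,0,-1],[0,0,1],[0,0,0,-1,0,0,0,0,-1],(⟨1,[(20,0),(8,0),(0,0)]⟩,⟨0,[(21,0)]⟩),(⟨0,[(30,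
  0)]⟩,⟨0,[(29,0)]⟩),⟨3,[(7,0),(5,0),(6,1),(11,0)]⟩,.k,.k,(.r (-1) ⟨1,[(18,0),(18,1),(0,0)]⟩ ⟨0,[(0,
  0),(0,3),(2,6),(0,4),(1,9),(1,6),(18,4),(4,14)]⟩),.k,(.r (-1) ⟨1,[(18,0),(9,1),(8,1),(0,0)]⟩ ⟨9,
  [(0,0),(0,1),(1,8),(0,1),(1,1),(5,4)]⟩),.k,⟨false,1,⟨1,[(18,0),(9,1),(8,1),(0,0)]⟩,⟨4,[(0,2),(0,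
  0),(1,1),(0,0),(1,0)]⟩⟩,⟨true,0,⟨1,[(17,0),(2,0)]⟩,⟨0,[(21,0),(1,0)]⟩⟩,⟨true,0,⟨0,[(37,0)]⟩,⟨1,
  [(11,0),(4,0)]⟩⟩,⟨false,0,⟨1,[(0,1),(16,0),(2,0),(14,1)]⟩,⟨1,[(18,0),(2,1),(0,1),(16,0)]⟩⟩,⟨false,
  1,⟨3,[(18,0),(0,0),(19,1)]⟩,⟨0,[]⟩⟩,⟨false,0,⟨1,[(0,0),(0,0),(0,0),(3,0),(13,0),(7,0),(6,1)]⟩,⟨1,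
  [(9,1),(8,0),(2,1),(3,1),(13,0)]⟩⟩,[.o ⟨false,0,⟨0,[(10,0)]⟩,⟨1,[(25,1),(5,0),(7,0)]⟩⟩,.o ⟨false,
  1,⟨0,[(24,0),(14,0)]⟩,⟨0,[(22,0)]⟩⟩,.a ⟨true,0,⟨0,[(21,0)]⟩,⟨1,[(20,0),(8,0),(0,0)]⟩⟩ ⟨false,1,⟨1,
  [(18,0),(18,1),(1,0)]⟩,⟨4,[(0,2),(0,0),(1,1),(7,0),(16,2),(6,0)]⟩⟩ ⟨true,0,⟨5,[(8,1),(1,1),(1,1),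
  (4,0),(2,2)]⟩,⟨0,[(21,0),(0,0)]⟩⟩,.o ⟨false,0,⟨4,[(6,0),(2,1),(1,0),(9,4),(1,1),(2,1),(8,0)]⟩,⟨7,
  [(18,0),(0,0),(0,3),(10,1),(6,3)]⟩⟩]⟩))) (.Q [0,-1,0,0,0,0,1,1,-1,0,-1,1] (.p false [0,0,1] [0,0,
  0,1] (⟨0,[(28,0)]⟩,⟨0,[(27,0)]⟩) .k 2 (⟨0,[(19,0)]⟩,⟨1,[(18,0),(8,0),(0,0)]⟩) .k (.x 0 ⟨2,[(3,0),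
  (7,0),(12,0)]⟩ ⟨3,[(2,1),(13,0),(0,0),(9,3),(1,0),(6,0)]⟩)) (.R ⟨1,false,false,true,[1,0,0,-1],[1,
  0,-1],[1,1,0,0,0,0,0,0,-1],(⟨1,[(19,0),(8,0),(0,0)]⟩,⟨0,[(20,0)]⟩),(⟨0,[(28,0)]⟩,⟨0,[(29,0)]⟩),⟨3,
  [(6,0),(5,0),(6,1),(11,0)]⟩,.k,.k,(.x 0 ⟨2,[(3,0),(2,0),(5,0),(12,1)]⟩ ⟨3,[(17,0),(0,0),(13,3),(4,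
  1)]⟩),.k,(.r (-1) ⟨1,[(11,1),(5,0),(19,0)]⟩ ⟨0,[(2,0),(24,0)]⟩),.k,⟨true,0,⟨1,[(0,1),(2,0),(15,0),
  (13,0)]⟩,⟨0,[(2,0),(24,0),(8,0)]⟩⟩,⟨false,1,⟨7,[(3,3),(13,0),(0,0),(0,3),(17,5)]⟩,⟨0,[(14,0),(5,
  0)]⟩⟩,⟨false,0,⟨0,[]⟩,⟨3,[(17,0),(0,0),(19,1)]⟩⟩,⟨false,1,⟨1,[(18,0),(0,0),(1,0),(2,0),(13,0)]⟩,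
  ⟨0,[(0,0)]⟩⟩,⟨true,0,⟨1,[(10,0),(4,0)]⟩,⟨0,[(36,0)]⟩⟩,⟨false,1,⟨3,[(2,1),(7,1),(7,0),(0,1),(4,1),
  (12,0),(0,1)]⟩,⟨0,[(0,0),(35,0)]⟩⟩,[.o ⟨false,0,⟨0,[(21,0)]⟩,⟨0,[(23,0),(14,0)]⟩⟩,.o ⟨false,1,⟨1,
  [(24,1),(5,0),(7,0)]⟩,⟨0,[(9,0)]⟩⟩,.a ⟨true,0,⟨0,[(20,0)]⟩,⟨1,[(19,0),(8,0),(0,0)]⟩⟩ ⟨false,0,⟨1,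
  [(0,1),(18,0),(1,0),(2,0)]⟩,⟨1,[(18,0),(19,0)]⟩⟩ ⟨true,0,⟨1,[(19,0),(1,0),(2,0)]⟩,⟨0,[(9,0),(10,
  0)]⟩⟩,.o ⟨false,0,⟨4,[(0,0),(1,0),(5,1),(1,0),(9,3),(1,1),(2,1)]⟩,⟨7,[(17,0),(0,0),(0,3),(10,1),
  (6,3)]⟩⟩]⟩) (.Q [0,0,0,-1,0,0,1,1,-1,0,-1,1] (.p false [0,0,1] [0,0,0,1] (⟨0,[(29,0)]⟩,⟨0,[(28,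
  0)]⟩) .k 2 (⟨0,[(20,0)]⟩,⟨1,[(19,0),(8,0),(0,0)]⟩) .k (.x 0 ⟨2,[(4,0),(7,0),(12,0)]⟩ ⟨3,[(3,1),
  (13,0),(0,0),(9,3),(1,0),(6,0)]⟩)) (.K ⟨2,[0,0,0,1],0,0,(⟨0,[(21,0)]⟩,⟨1,[(20,0),(8,0),(0,0)]⟩),
  .k,(.x 0 ⟨2,[(4,0),(2,0),(5,0),(12,1)]⟩ ⟨3,[(18,0),(0,0),(13,3),(4,1)]⟩),(.r 0 ⟨0,[(1,0),(4,0),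
  (14,0),(13,0)]⟩ ⟨1,[(18,0),(18,1),(0,0)]⟩),.k,.k,[⟨0,[(15,0),(5,0)]⟩,⟨1,[(17,0),(2,0)]⟩,⟨1,[(21,
  1),(4,0),(0,0)]⟩,⟨1,[(20,0),(2,0),(2,0)]⟩,⟨0,[(0,0),(10,0),(17,0),(0,0)]⟩,⟨0,[(1,0),(8,0)]⟩]⟩)
  (.R ⟨1,false,false,true,[1,0,0,-1],[1,-1,-1],[0,0,0,-1,0,0,0,0,-1],(⟨1,[(20,0),(8,0),(0,0)]⟩,⟨0,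
  [(21,0)]⟩),(⟨1,[(7,0),(21,0)]⟩,⟨0,[(30,0),(2,0)]⟩),⟨3,[(7,0),(5,0),(6,1),(11,0)]⟩,.k,.k,(.r (-1)
  ⟨1,[(18,0),(18,1),(0,0)]⟩ ⟨0,[(0,0),(3,4),(0,3),(0,2),(0,7),(1,2),(11,0),(6,1),(4,11)]⟩),(.x (-1)
  ⟨7,[(5,3),(12,2),(0,2),(13,3),(4,1)]⟩ ⟨1,[(7,0),(15,1),(5,0)]⟩),.k,.k,⟨false,1,⟨1,[(2,1),(9,1),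
  (25,0),(0,0)]⟩,⟨3,[(0,3),(4,1),(1,0),(1,3),(11,3),(7,2),(4,1)]⟩⟩,⟨true,0,⟨3,[(4,1),(15,1),(5,0),
  (0,0)]⟩,⟨0,[(15,0),(5,0)]⟩⟩,⟨true,0,⟨0,[(37,0)]⟩,⟨1,[(11,0),(4,0)]⟩⟩,⟨false,0,⟨0,[(0,0),(36,1)]⟩,
  ⟨1,[(6,1),(11,0),(2,1),(17,0)]⟩⟩,⟨false,1,⟨3,[(18,0),(0,0),(19,1)]⟩,⟨0,[]⟩⟩,⟨false,0,⟨0,[(0,0),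
  (36,0)]⟩,⟨1,[(10,1),(7,0),(2,1),(17,0)]⟩⟩,[.o ⟨false,0,⟨0,[(9,0),(15,0)]⟩,⟨3,[(6,1),(9,1),(14,0),
  (7,2)]⟩⟩,.o ⟨false,1,⟨1,[(25,1),(5,0),(5,1),(1,0)]⟩,⟨0,[(6,0)]⟩⟩,.a ⟨true,0,⟨0,[(21,0)]⟩,⟨1,[(20,
  0),(8,0),(0,0)]⟩⟩ ⟨false,1,⟨1,[(18,0),(18,1),(1,0)]⟩,⟨0,[(0,0),(9,0),(10,0)]⟩⟩ ⟨true,0,⟨1,[(9,0),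
  (10,0),(4,1),(11,0)]⟩,⟨0,[(6,0),(14,0)]⟩⟩,.o ⟨false,0,⟨4,[(6,0),(2,1),(1,0),(9,4),(1,1),(2,1),(8,
  0)]⟩,⟨7,[(18,0),(0,0),(0,3),(10,1),(6,3)]⟩⟩]⟩)))))) (.I [0,0,-1,-1,0,0,0,0,-1] (.R ⟨1,false,false,
  false,[1,0,0,-1],[0,0,1],[0,0,0,-1,0,0,0,0,-1],(⟨1,[(16,0),(8,0),(0,0)]⟩,⟨0,[(17,0)]⟩),(⟨0,[(26,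
  0)]⟩,⟨0,[(25,0)]⟩),⟨3,[(3,0),(5,0),(6,1),(11,0)]⟩,.k,.k,(.r 0 ⟨0,[(0,0)]⟩ ⟨1,[(7,0),(4,0),(2,0),
  (6,0),(0,0),(11,0)]⟩),.k,(.r 0 ⟨0,[(0,0),(23,0)]⟩ ⟨3,[(2,1),(9,1),(2,1),(7,3),(3,0),(7,0)]⟩),.k,
  ⟨false,0,⟨0,[(0,0),(23,0)]⟩,⟨1,[(2,1),(12,0),(7,1),(10,0)]⟩⟩,⟨true,0,⟨1,[(13,0),(2,0)]⟩,⟨0,[(17,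
  0),(1,0)]⟩⟩,⟨true,0,⟨0,[(33,0)]⟩,⟨1,[(7,0),(4,0)]⟩⟩,⟨false,1,⟨5,[(4,1),(1,1),(1,1),(4,0),(1,2),(0,
  2),(18,2)]⟩,⟨0,[(0,0),(6,0),(9,0),(13,0)]⟩⟩,⟨false,1,⟨3,[(14,0),(0,0),(19,1)]⟩,⟨0,[]⟩⟩,⟨false,1,
  ⟨1,[(2,0),(1,0),(10,0),(0,0),(18,0)]⟩,⟨0,[(0,0),(16,0),(0,0),(12,0)]⟩⟩,[.o ⟨false,0,⟨0,[(6,0)]⟩,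
  ⟨1,[(21,1),(5,0),(7,0)]⟩⟩,.o ⟨false,1,⟨0,[(20,0),(14,0)]⟩,⟨0,[(18,0)]⟩⟩,.a ⟨true,0,⟨0,[(17,0)]⟩,
  ⟨1,[(16,0),(8,0),(0,0)]⟩⟩ ⟨false,0,⟨0,[(0,0),(30,0)]⟩,⟨1,[(7,0),(4,0),(2,0),(19,0)]⟩⟩ ⟨true,0,⟨5,
  [(4,1),(1,1),(1,1),(4,0),(2,2)]⟩,⟨0,[(17,0),(0,0)]⟩⟩,.o ⟨false,0,⟨4,[(2,0),(2,1),(1,0),(9,4),(1,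
  1),(2,1),(8,0)]⟩,⟨7,[(14,0),(0,0),(0,3),(10,1),(6,3)]⟩⟩]⟩) (.Q [0,-1,0,1,0,0,1,1,1,1,-1,-1] (.p
  false [0,0,1] [1,0,0,-1] (⟨0,[(26,0)]⟩,⟨0,[(25,0)]⟩) .k 2 (⟨1,[(16,0),(8,0),(0,0)]⟩,⟨0,[(17,0)]⟩)
  .k (.x 0 ⟨0,[(11,0),(14,0)]⟩ ⟨7,[(1,3),(12,2),(0,2),(13,3),(4,1)]⟩)) (.R ⟨1,false,false,false,[1,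
  0,0,-1],[0,0,1],[0,0,0,-1,0,0,0,0,-1],(⟨1,[(17,0),(8,0),(0,0)]⟩,⟨0,[(18,0)]⟩),(⟨0,[(27,0)]⟩,⟨0,
  [(26,0)]⟩),⟨3,[(4,0),(5,0),(6,1),(11,0)]⟩,.k,.k,(.r (-1) ⟨1,[(15,0),(18,1),(0,0)]⟩ ⟨0,[(0,0),(1,
  0),(0,1),(0,2),(1,2),(1,0),(1,4),(7,0),(6,1),(4,11)]⟩),.k,(.r (-1) ⟨1,[(15,0),(9,1),(8,1),(0,0)]⟩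
  ⟨2,[(0,0),(0,1),(1,0),(4,0),(0,1),(8,0),(5,0)]⟩),.k,⟨false,1,⟨1,[(15,0),(9,1),(8,1),(0,0)]⟩,⟨0,
  [(0,0),(7,0),(0,0),(8,0)]⟩⟩,⟨true,0,⟨1,[(14,0),(2,0)]⟩,⟨0,[(18,0),(1,0)]⟩⟩,⟨true,0,⟨0,[(34,0)]⟩,
  ⟨1,[(8,0),(4,0)]⟩⟩,⟨false,0,⟨0,[(0,0),(33,0)]⟩,⟨1,[(15,0),(2,1),(0,1),(16,0)]⟩⟩,⟨false,1,⟨3,[(15,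
  0),(0,0),(19,1)]⟩,⟨0,[]⟩⟩,⟨false,0,⟨0,[(0,0)]⟩,⟨1,[(6,1),(8,0),(2,1),(3,1),(13,0)]⟩⟩,[.o ⟨false,0,
  ⟨0,[(7,0)]⟩,⟨1,[(22,1),(5,0),(7,0)]⟩⟩,.o ⟨false,1,⟨0,[(21,0),(14,0)]⟩,⟨0,[(19,0)]⟩⟩,.a ⟨true,0,⟨0,
  [(18,0)]⟩,⟨1,[(17,0),(8,0),(0,0)]⟩⟩ ⟨false,1,⟨1,[(15,0),(18,1),(1,0)]⟩,⟨0,[(0,0),(17,0),(0,0)]⟩⟩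
  ⟨true,0,⟨5,[(5,1),(1,1),(1,1),(4,0),(2,2)]⟩,⟨0,[(18,0),(0,0)]⟩⟩,.o ⟨false,0,⟨4,[(3,0),(2,1),(1,0),
  (9,4),(1,1),(2,1),(8,0)]⟩,⟨7,[(15,0),(0,0),(0,3),(10,1),(6,3)]⟩⟩]⟩) (.Q [0,-1,0,0,0,0,1,1,-1,0,-1,
  1] (.p false [0,0,1] [0,0,0,1] (⟨0,[(27,0)]⟩,⟨0,[(26,0)]⟩) .k 2 (⟨0,[(18,0)]⟩,⟨1,[(17,0),(8,0),(0,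
  0)]⟩) .k (.x 0 ⟨0,[(12,0),(14,0)]⟩ ⟨7,[(2,3),(12,2),(0,2),(13,3),(4,1)]⟩)) (.R ⟨1,false,false,
  true,[1,0,0,-1],[1,0,-1],[1,1,0,0,0,0,0,0,-1],(⟨1,[(18,0),(8,0),(0,0)]⟩,⟨0,[(19,0)]⟩),(⟨0,[(27,
  0)]⟩,⟨0,[(28,0)]⟩),⟨3,[(5,0),(5,0),(6,1),(11,0)]⟩,.k,.k,(.x 0 ⟨5,[(5,1),(5,1),(9,1),(2,2),(0,0)]⟩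
  ⟨3,[(16,0),(0,0),(13,3),(4,1)]⟩),.k,(.r (-1) ⟨1,[(10,1),(5,0),(19,0)]⟩ ⟨0,[(2,0),(23,0)]⟩),.k,
  ⟨true,0,⟨3,[(0,3),(2,0),(5,1),(0,1),(7,1),(9,1),(2,0),(0,0)]⟩,⟨0,[(2,0),(23,0),(8,0)]⟩⟩,⟨false,1,
  ⟨1,[(18,0),(2,0),(3,0),(10,1)]⟩,⟨0,[(13,0),(5,0)]⟩⟩,⟨false,0,⟨0,[]⟩,⟨3,[(16,0),(0,0),(19,1)]⟩⟩,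
  ⟨false,1,⟨1,[(17,0),(0,0),(1,0),(2,0),(13,0)]⟩,⟨0,[(0,0)]⟩⟩,⟨true,0,⟨1,[(9,0),(4,0)]⟩,⟨0,[(35,
  0)]⟩⟩,⟨false,1,⟨3,[(2,1),(6,1),(7,0),(0,1),(4,1),(12,0),(0,1)]⟩,⟨0,[(0,0),(34,0)]⟩⟩,[.o ⟨false,0,
  ⟨0,[(20,0)]⟩,⟨0,[(22,0),(14,0)]⟩⟩,.o ⟨false,1,⟨1,[(23,1),(5,0),(7,0)]⟩,⟨0,[(8,0)]⟩⟩,.a ⟨true,0,⟨0,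
  [(19,0)]⟩,⟨1,[(18,0),(8,0),(0,0)]⟩⟩ ⟨false,0,⟨3,[(0,2),(0,0),(7,0),(8,1),(4,0)]⟩,⟨1,[(17,0),(19,
  0)]⟩⟩ ⟨true,0,⟨1,[(18,0),(1,0),(2,0)]⟩,⟨0,[(8,0),(10,0)]⟩⟩,.o ⟨false,0,⟨4,[(0,0),(1,0),(4,1),(1,
  0),(9,3),(1,1),(2,1)]⟩,⟨7,[(16,0),(0,0),(0,3),(10,1),(6,3)]⟩⟩]⟩) (.I [0,0,1,1,0,0,0,0,-1] (.K ⟨2,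
  [0,0,0,1],0,0,(⟨0,[(20,0)]⟩,⟨1,[(19,0),(8,0),(0,0)]⟩),.k,(.r (-1) ⟨1,[(18,0),(17,1),(0,0)]⟩ ⟨0,
  [(0,0)]⟩),(.r 0 ⟨0,[(1,0),(3,0),(14,0),(13,0)]⟩ ⟨1,[(17,0),(18,1),(0,0)]⟩),.k,.k,[⟨0,[(14,0),(5,
  0)]⟩,⟨1,[(16,0),(2,0)]⟩,⟨1,[(20,1),(4,0),(0,0)]⟩,⟨1,[(19,0),(2,0),(2,0)]⟩,⟨0,[(2,0),(4,0)]⟩,⟨0,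
  [(1,0),(7,0)]⟩]⟩) (.K ⟨2,[0,0,0,1],0,0,(⟨0,[(20,0)]⟩,⟨1,[(19,0),(8,0),(0,0)]⟩),.k,(.x 0 ⟨5,[(6,1),
  (5,1),(9,1),(2,2),(0,0)]⟩ ⟨3,[(17,0),(0,0),(13,3),(4,1)]⟩),(.r 0 ⟨0,[(0,0),(3,1),(0,3),(0,1),(1,
  1),(3,5),(14,3),(4,11)]⟩ ⟨0,[(0,0),(16,0)]⟩),.k,.k,[⟨0,[(14,0),(5,0)]⟩,⟨1,[(16,0),(2,0)]⟩,⟨1,[(20,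
  1),(4,0),(0,0)]⟩,⟨1,[(19,0),(2,0),(2,0)]⟩,⟨0,[(2,0),(4,0)]⟩,⟨11,[(0,2),(0,7),(1,0),(1,3),(7,1),(5,
  1),(3,1),(1,1)]⟩]⟩))))))) (.Q [0,0,1,0,-1,0,2,0,0,1,-2] (.p false [0,0,1] [1,0,-1] (⟨0,[(23,0)]⟩,
  ⟨0,[(22,0)]⟩) .k 2 (⟨0,[(22,0)]⟩,⟨0,[(23,0)]⟩) .k (.r (-1) ⟨1,[(5,1),(3,1),(6,1),(14,0),(0,0)]⟩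
  ⟨0,[(21,1)]⟩)) (.K ⟨2,[1,1,-1],1,0,(⟨1,[(1,0),(21,2)]⟩,⟨0,[(7,0)]⟩),.k,.k,(.r 0 ⟨1,[(0,1),(4,2),
  (4,0),(10,1),(11,1)]⟩ ⟨0,[(6,0),(24,0),(0,0)]⟩),(.r 0 ⟨0,[(0,0),(4,0),(13,0),(13,0)]⟩ ⟨3,[(6,5),
  (3,1),(6,1),(14,2),(0,0)]⟩),.k,[⟨0,[(0,0)]⟩,⟨3,[(12,0),(0,0),(18,1)]⟩,⟨0,[(0,0),(20,0)]⟩,⟨1,[(21,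
  1),(3,0),(6,0)]⟩,⟨0,[(10,0),(20,1)]⟩,⟨0,[(5,0)]⟩]⟩) (.I [0,0,-1,-1,0,0,0,0,-1] (.Q [0,1,0,0,0,0,0,
  0,1,1,0,-1] (.p false [0,0,0,1] [1] (⟨0,[(16,0)]⟩,⟨3,[(2,0),(12,1),(8,0),(2,1)]⟩) .k 1 (⟨0,[]⟩,⟨0,
  []⟩) .k .k) (.K ⟨2,[1,0,0,-1],0,0,(⟨3,[(3,0),(12,1),(8,0),(2,1)]⟩,⟨0,[(17,0)]⟩),.k,(.r 0 ⟨0,[(1,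
  0)]⟩ ⟨1,[(7,0),(4,0),(2,0),(6,0),(0,0),(11,0)]⟩),(.r 0 ⟨0,[(1,0),(5,0),(4,0),(18,1)]⟩ ⟨0,[(1,0),
  (13,0)]⟩),.k,.k,[⟨1,[(13,0),(2,0)]⟩,⟨0,[(11,0),(5,0)]⟩,⟨1,[(13,0),(2,0),(6,1)]⟩,⟨2,[(5,0),(0,0),
  (0,0),(9,2),(1,0),(2,0),(8,0)]⟩,⟨0,[(0,0)]⟩,⟨3,[(1,3),(4,1),(0,2),(4,0),(4,3),(1,1),(2,1)]⟩]⟩)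
  (.Q [0,0,0,0,0,-2,0,0,0,1] (.pp false [-1,1]) (.R ⟨1,false,false,false,[1,0,0,-1],[1,-1],[1,0,0,0,
  0,0,0,0,-1],(⟨3,[(4,0),(12,1),(8,0),(2,1)]⟩,⟨0,[(18,0)]⟩),(⟨0,[(29,0)]⟩,⟨0,[(30,0)]⟩),⟨1,[(0,0),
  (16,0)]⟩,.k,.k,(.r 0 ⟨0,[(2,0)]⟩ ⟨1,[(8,0),(4,0),(2,0),(6,0),(0,0),(11,0)]⟩),(.r 0 ⟨1,[(1,1),(6,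
  0),(4,0),(0,0),(2,0),(6,1)]⟩ ⟨0,[(2,0),(13,0)]⟩),.k,.k,⟨false,0,⟨3,[(1,3),(3,1),(2,0),(4,0),(3,1),
  (4,1)]⟩,⟨0,[(2,0),(13,0)]⟩⟩,⟨true,0,⟨1,[(17,0),(2,0),(2,0)]⟩,⟨0,[(18,0)]⟩⟩,⟨true,0,⟨0,[]⟩,⟨0,[(38,
  0)]⟩⟩,⟨false,1,⟨1,[(6,0),(9,0),(0,0),(16,0),(1,0)]⟩,⟨0,[(1,0),(3,0),(16,0)]⟩⟩,⟨false,1,⟨1,[(8,0),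
  (4,0),(22,1)]⟩,⟨0,[(34,0)]⟩⟩,⟨false,1,⟨0,[(1,0),(14,0),(0,0)]⟩,⟨11,[(1,7),(0,3),(1,0),(8,3),(0,1),
  (3,3),(3,3),(1,3),(1,0),(2,1)]⟩⟩,[.o ⟨false,0,⟨0,[(6,0)]⟩,⟨3,[(8,1),(4,1),(1,0),(0,0),(19,1)]⟩⟩,
  .o ⟨false,1,⟨1,[(28,0),(5,1),(1,0)]⟩,⟨0,[(33,0)]⟩⟩,.a ⟨true,0,⟨0,[(18,0)]⟩,⟨3,[(4,0),(12,1),(8,0),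
  (2,1)]⟩⟩ ⟨false,0,⟨3,[(1,3),(2,0),(12,1),(8,0),(2,1)]⟩,⟨3,[(15,0),(0,2)]⟩⟩ ⟨true,0,⟨1,[(6,0),(10,
  0),(16,0)]⟩,⟨1,[(8,0),(4,0),(4,1)]⟩⟩,.o ⟨false,0,⟨2,[(6,0),(0,0),(0,0),(9,2),(1,0),(2,0),(8,0)]⟩,
  ⟨7,[(15,0),(0,0),(0,3),(10,1),(6,3)]⟩⟩]⟩) (.R ⟨0,false,false,false,[0,0,0,1],[1,-1],[1,0,0,0,0,0,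
  0,0,1],(⟨0,[(18,0)]⟩,⟨3,[(4,0),(12,1),(8,0),(2,1)]⟩),(⟨0,[(29,0)]⟩,⟨0,[(30,0)]⟩),⟨1,[(0,0),(16,
  0)]⟩,.k,.k,(.r (-1) ⟨0,[(2,0),(13,0)]⟩ ⟨1,[(1,1),(6,0),(4,0),(0,0),(2,0),(6,1)]⟩),(.r (-1) ⟨1,[(8,
  0),(4,0),(2,0),(6,0),(0,0),(11,0)]⟩ ⟨0,[(2,0)]⟩),.k,.k,⟨false,1,⟨1,[(8,0),(4,0),(2,0),(19,0)]⟩,⟨0,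
  [(2,0)]⟩⟩,⟨true,0,⟨2,[(6,0),(0,0),(0,0),(9,2),(1,0),(2,0),(8,0)]⟩,⟨3,[(4,0),(12,1),(8,0),(2,1)]⟩⟩,
  ⟨true,0,⟨0,[]⟩,⟨0,[(38,0)]⟩⟩,⟨false,0,⟨0,[(1,0),(32,0)]⟩,⟨3,[(5,1),(2,0),(4,0),(2,1),(0,1),(4,1),
  (13,1)]⟩⟩,⟨false,0,⟨0,[]⟩,⟨0,[]⟩⟩,⟨false,0,⟨0,[]⟩,⟨0,[]⟩⟩,[.o ⟨false,0,⟨0,[(6,0)]⟩,⟨3,[(8,1),(4,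
  1),(1,0),(0,0),(19,1)]⟩⟩,.o ⟨false,1,⟨1,[(28,0),(5,1),(1,0)]⟩,⟨0,[(33,0)]⟩⟩,.a ⟨true,0,⟨3,[(4,0),
  (12,1),(8,0),(2,1)]⟩,⟨0,[(18,0)]⟩⟩ ⟨false,1,⟨1,[(16,0),(19,0)]⟩,⟨5,[(1,3),(0,1),(10,1),(3,1),(4,
  1),(0,0),(0,0)]⟩⟩ ⟨true,0,⟨0,[(6,0),(11,0)]⟩,⟨3,[(5,1),(2,0),(4,0),(3,1),(4,1)]⟩⟩,.o ⟨false,0,⟨1,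
  [(17,0),(2,0),(2,0)]⟩,⟨1,[(18,1),(9,0),(6,0)]⟩⟩]⟩))) (.I [0,0,1,1,0,0,0,0,-1] (.I [1,1,0,1,0,0,0,
  0,1] (.Q [0,1,0,0,0,0,0,0,-1,0,0,1] (.p true [0,0,0,1] [] (⟨0,[(18,0)]⟩,⟨3,[(4,0),(12,1),(8,0),(2,
  1)]⟩) .k 0 (⟨0,[]⟩,⟨0,[]⟩) .k .k) (.K ⟨2,[0,0,0,1],0,0,(⟨0,[(19,0)]⟩,⟨3,[(5,0),(12,1),(8,0),(2,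
  1)]⟩),.k,(.r (-1) ⟨1,[(17,0),(17,1),(0,0)]⟩ ⟨0,[(2,0)]⟩),(.x (-1) ⟨3,[(5,1),(10,0),(0,0),(9,1),(8,
  1)]⟩ ⟨1,[(2,0),(0,0),(3,1),(22,1)]⟩),.k,.k,[⟨0,[(13,0),(5,0)]⟩,⟨1,[(15,0),(2,0)]⟩,⟨1,[(19,1),(4,
  0),(0,0)]⟩,⟨1,[(18,0),(2,0),(2,0)]⟩,⟨0,[(0,0)]⟩,⟨1,[(1,1),(5,0),(10,0),(16,0)]⟩]⟩) (.Q [0,0,0,0,0,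
  -1,0,0,0,1,0,-1] (.p false [0,0,0,1] [1] (⟨0,[(19,0)]⟩,⟨3,[(5,0),(12,1),(8,0),(2,1)]⟩) .k 1 (⟨0,
  []⟩,⟨0,[]⟩) .k .k) (.R ⟨1,false,false,false,[1,0,0,-1],[0,0,1],[0,0,0,-1,0,0,0,0,-1],(⟨3,[(6,0),
  (12,1),(8,0),(2,1)]⟩,⟨0,[(20,0)]⟩),(⟨0,[(29,0)]⟩,⟨0,[(28,0)]⟩),⟨0,[(0,0)]⟩,.k,.k,(.r (-1) ⟨1,[(17,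
  0),(18,1),(0,0)]⟩ ⟨0,[(1,3),(1,2),(7,1),(8,3),(6,1),(5,1)]⟩),.k,(.r (-1) ⟨1,[(17,0),(9,1),(8,1),
  (0,0)]⟩ ⟨2,[(1,0),(0,0),(1,0),(2,1),(3,0),(8,0),(1,1)]⟩),.k,⟨false,1,⟨1,[(17,0),(9,1),(8,1),(0,
  0)]⟩,⟨0,[(1,0),(5,0),(2,0),(0,0),(8,0)]⟩⟩,⟨true,0,⟨1,[(16,0),(2,0)]⟩,⟨0,[(20,0),(1,0)]⟩⟩,⟨true,0,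
  ⟨0,[(36,0)]⟩,⟨1,[(10,0),(4,0)]⟩⟩,⟨false,0,⟨7,[(1,7),(4,0),(0,3),(3,3),(4,1),(11,0),(2,1)]⟩,⟨1,
  [(17,0),(2,1),(0,1),(16,0)]⟩⟩,⟨false,1,⟨3,[(17,0),(0,0),(19,1)]⟩,⟨0,[]⟩⟩,⟨false,0,⟨0,[(1,0),(5,
  0)]⟩,⟨1,[(8,1),(8,0),(2,1),(3,1),(13,0)]⟩⟩,[.o ⟨false,0,⟨0,[(9,0)]⟩,⟨1,[(24,1),(5,0),(7,0)]⟩⟩,.o
  ⟨false,1,⟨0,[(23,0),(14,0)]⟩,⟨0,[(21,0)]⟩⟩,.a ⟨true,0,⟨0,[(20,0)]⟩,⟨3,[(6,0),(12,1),(8,0),(2,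
  1)]⟩⟩ ⟨false,1,⟨1,[(17,0),(18,1),(1,0)]⟩,⟨2,[(1,1),(0,0),(4,0),(2,0),(9,1)]⟩⟩ ⟨true,0,⟨5,[(7,1),
  (1,1),(1,1),(4,0),(2,2)]⟩,⟨0,[(20,0),(0,0)]⟩⟩,.o ⟨false,0,⟨1,[(3,0),(0,0),(3,1),(11,1)]⟩,⟨7,[(17,
  0),(0,0),(0,3),(10,1),(6,3)]⟩⟩]⟩) (.R ⟨0,false,false,false,[1,0,0,-1],[0,0,1],[1,0,0,-1,0,0,0,0,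
  -1],(⟨3,[(6,0),(12,1),(8,0),(2,1)]⟩,⟨0,[(20,0)]⟩),(⟨0,[(29,0)]⟩,⟨0,[(28,0)]⟩),⟨0,[(0,0)]⟩,.k,.k,
  (.r (-1) ⟨1,[(17,0),(18,1),(0,0)]⟩ ⟨0,[(0,3),(0,3),(1,2),(7,1),(0,3),(14,1),(0,3),(4,1)]⟩),.k,.k,
  .k,⟨false,1,⟨1,[(17,0),(9,1),(8,1),(0,0)]⟩,⟨0,[(1,0),(5,0),(2,0),(0,0),(8,0)]⟩⟩,⟨true,0,⟨1,[(16,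
  0),(2,0)]⟩,⟨0,[(20,0),(1,0)]⟩⟩,⟨true,0,⟨0,[(36,0)]⟩,⟨0,[(35,0)]⟩⟩,⟨false,0,⟨7,[(1,7),(4,0),(0,3),
  (3,3),(4,1),(11,0),(2,1)]⟩,⟨1,[(17,0),(2,1),(0,1),(16,0)]⟩⟩,⟨false,0,⟨0,[]⟩,⟨0,[]⟩⟩,⟨false,0,⟨0,
  []⟩,⟨0,[]⟩⟩,[.o ⟨false,0,⟨0,[(9,0)]⟩,⟨1,[(24,1),(5,0),(7,0)]⟩⟩,.o ⟨false,1,⟨0,[(23,0),(14,0)]⟩,⟨0,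
  [(21,0)]⟩⟩,.a ⟨true,0,⟨0,[(20,0)]⟩,⟨3,[(6,0),(12,1),(8,0),(2,1)]⟩⟩ ⟨false,1,⟨1,[(17,0),(18,1),(1,
  0)]⟩,⟨2,[(1,1),(0,0),(4,0),(2,0),(9,1)]⟩⟩ ⟨true,0,⟨5,[(7,1),(1,1),(1,1),(4,0),(2,2)]⟩,⟨0,[(20,0),
  (0,0)]⟩⟩,.o ⟨false,0,⟨1,[(3,0),(0,0),(3,1),(11,1)]⟩,⟨7,[(17,0),(0,0),(0,3),(10,1),(6,3)]⟩⟩]⟩)))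
  (.Q [0,0,0,0,0,1,0,0,0,0,0,-1] (.p false [0,0,0,1] [] (⟨0,[(18,0)]⟩,⟨3,[(4,0),(12,1),(8,0),(2,
  1)]⟩) .k 0 (⟨0,[]⟩,⟨0,[]⟩) .k .k) (.R ⟨0,false,false,false,[0,0,0,1],[0,-1,1],[1,0,0,0,0,0,0,0,1],
  (⟨0,[(19,0)]⟩,⟨3,[(5,0),(12,1),(8,0),(2,1)]⟩),(⟨0,[(11,0)]⟩,⟨1,[(5,0),(21,2)]⟩),⟨0,[(0,0)]⟩,.k,.k,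
  (.r (-1) ⟨1,[(17,0),(17,1),(0,0)]⟩ ⟨0,[(2,0)]⟩),(.r 0 ⟨0,[(3,0),(22,0)]⟩ ⟨1,[(10,1),(5,0),(19,
  0)]⟩),.k,.k,⟨true,0,⟨0,[(3,0),(22,0)]⟩,⟨3,[(1,2),(0,0),(3,0),(2,0),(0,3),(21,0)]⟩⟩,⟨false,0,⟨0,
  [(13,0),(5,0)]⟩,⟨7,[(4,3),(11,0),(0,0),(0,3),(17,1)]⟩⟩,⟨true,0,⟨0,[]⟩,⟨0,[(39,0)]⟩⟩,⟨false,0,⟨0,
  [(1,0),(6,0),(10,0)]⟩,⟨3,[(3,1),(5,1),(7,0),(0,1),(4,1),(12,0),(0,1)]⟩⟩,⟨false,0,⟨0,[]⟩,⟨0,[]⟩⟩,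
  ⟨false,0,⟨0,[]⟩,⟨0,[]⟩⟩,[.o ⟨false,0,⟨2,[(7,0),(0,0),(1,1),(4,0)]⟩,⟨3,[(9,3),(6,0),(0,0),(19,
  1)]⟩⟩,.o ⟨false,1,⟨7,[(10,3),(1,3),(2,3),(0,0),(0,0),(19,5)]⟩,⟨0,[(9,0)]⟩⟩,.a ⟨true,0,⟨3,[(5,0),
  (12,1),(8,0),(2,1)]⟩,⟨0,[(19,0)]⟩⟩ ⟨false,1,⟨1,[(17,0),(19,0)]⟩,⟨3,[(1,2),(0,0),(3,0),(2,0),(22,
  0)]⟩⟩ ⟨true,0,⟨2,[(7,0),(0,0),(1,1),(4,0),(3,2)]⟩,⟨3,[(5,0),(3,3),(8,1),(8,0),(2,1)]⟩⟩,.o ⟨false,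
  0,⟨1,[(18,0),(2,0),(2,0)]⟩,⟨1,[(19,1),(9,0),(6,0)]⟩⟩]⟩) (.R ⟨1,false,false,false,[1,0,0,-1],[1,
  -1],[0,0,0,-1,0,0,0,0,-1],(⟨3,[(5,0),(12,1),(8,0),(2,1)]⟩,⟨0,[(19,0)]⟩),(⟨0,[(30,0)]⟩,⟨0,[(31,
  0)]⟩),⟨0,[(0,0),(17,0)]⟩,.k,.k,(.x 0 ⟨1,[(0,1),(17,0),(2,0),(2,0)]⟩ ⟨3,[(5,1),(10,0),(0,0),(9,1),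
  (8,1)]⟩),(.r 0 ⟨0,[(2,0)]⟩ ⟨1,[(17,0),(17,1),(0,0)]⟩),.k,.k,⟨false,0,⟨3,[(1,2),(0,0),(3,0),(2,0),
  (22,0)]⟩,⟨1,[(17,0),(18,0)]⟩⟩,⟨true,0,⟨1,[(18,0),(2,0),(2,0)]⟩,⟨0,[(19,0)]⟩⟩,⟨true,0,⟨0,[(35,0)]⟩,
  ⟨1,[(9,0),(4,0)]⟩⟩,⟨false,1,⟨1,[(7,0),(9,0),(0,0),(16,0),(1,0)]⟩,⟨0,[(1,0),(4,0),(2,0),(9,0)]⟩⟩,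
  ⟨false,1,⟨3,[(16,0),(0,0),(19,1)]⟩,⟨0,[]⟩⟩,⟨false,1,⟨3,[(3,1),(3,1),(9,0),(0,1),(17,0),(0,1)]⟩,⟨3,
  [(1,2),(0,0),(3,0),(2,0),(9,3),(12,0)]⟩⟩,[.o ⟨false,0,⟨0,[(7,0)]⟩,⟨3,[(9,1),(4,1),(1,0),(0,0),(19,
  1)]⟩⟩,.o ⟨false,1,⟨1,[(29,0),(5,1),(1,0)]⟩,⟨0,[(34,0)]⟩⟩,.a ⟨true,0,⟨0,[(19,0)]⟩,⟨3,[(5,0),(12,1),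
  (8,0),(2,1)]⟩⟩ ⟨false,0,⟨0,[(1,0)]⟩,⟨1,[(9,0),(4,0),(2,0),(19,0)]⟩⟩ ⟨true,0,⟨1,[(7,0),(10,0),(16,
  0)]⟩,⟨1,[(9,0),(4,0),(4,1)]⟩⟩,.o ⟨false,0,⟨1,[(2,0),(0,0),(3,1),(11,1)]⟩,⟨7,[(16,0),(0,0),(0,3),
  (10,1),(6,3)]⟩⟩]⟩))) (.Q [0,0,0,0,0,1,0,0,0,0,0,-1] (.p false [0,0,0,1] [] (⟨0,[(17,0)]⟩,⟨3,[(3,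
  0),(12,1),(8,0),(2,1)]⟩) .k 0 (⟨0,[]⟩,⟨0,[]⟩) .k .k) (.R ⟨0,false,false,false,[0,0,0,1],[0,0,1],
  [1,0,0,-1,0,0,0,0,1],(⟨0,[(18,0)]⟩,⟨3,[(4,0),(12,1),(8,0),(2,1)]⟩),(⟨0,[(27,0)]⟩,⟨0,[(26,0)]⟩),⟨0,
  [(0,0)]⟩,.k,.k,(.x 0 ⟨2,[(6,0),(0,0),(0,0),(11,0),(2,0),(5,2),(2,0)]⟩ ⟨3,[(4,1),(10,0),(0,0),(9,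
  1),(8,1)]⟩),.k,.k,.k,⟨false,0,⟨0,[(1,0),(23,0)]⟩,⟨5,[(3,1),(1,5),(9,2),(4,1),(7,0)]⟩⟩,⟨true,0,⟨0,
  [(12,0),(5,0)]⟩,⟨1,[(17,0),(2,0),(3,0)]⟩⟩,⟨true,0,⟨0,[(34,0)]⟩,⟨0,[(33,0)]⟩⟩,⟨false,1,⟨1,[(7,1),
  (7,0),(2,1),(17,0)]⟩,⟨3,[(1,3),(2,0),(3,3),(8,1),(8,0),(2,1),(2,3)]⟩⟩,⟨false,0,⟨0,[]⟩,⟨0,[]⟩⟩,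
  ⟨false,0,⟨0,[]⟩,⟨0,[]⟩⟩,[.o ⟨false,0,⟨0,[(7,0)]⟩,⟨1,[(22,1),(5,0),(7,0)]⟩⟩,.o ⟨false,1,⟨0,[(21,0),
  (14,0)]⟩,⟨0,[(19,0)]⟩⟩,.a ⟨true,0,⟨3,[(4,0),(12,1),(8,0),(2,1)]⟩,⟨0,[(18,0)]⟩⟩ ⟨false,0,⟨0,[(1,0),
  (30,0)]⟩,⟨1,[(8,0),(4,0),(1,0),(20,0)]⟩⟩ ⟨true,0,⟨0,[(7,0),(10,0)]⟩,⟨1,[(17,0),(1,0),(2,0)]⟩⟩,.o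
  ⟨false,0,⟨1,[(17,0),(2,0),(2,0)]⟩,⟨1,[(18,1),(9,0),(6,0)]⟩⟩]⟩) (.Q [0,-1,0,0,0,0,0,0,1,0,0,-1]
  (.p false [0,0,0,1] [] (⟨0,[(18,0)]⟩,⟨3,[(4,0),(12,1),(8,0),(2,1)]⟩) .k 0 (⟨0,[]⟩,⟨0,[]⟩) .k .k)
  (.R ⟨1,false,false,false,[1,0,0,-1],[0,0,1],[0,0,0,-1,0,0,0,0,-1],(⟨3,[(5,0),(12,1),(8,0),(2,1)]⟩,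
  ⟨0,[(19,0)]⟩),(⟨0,[(28,0)]⟩,⟨0,[(27,0)]⟩),⟨0,[(1,0),(16,0)]⟩,.k,.k,(.r (-1) ⟨0,[(2,0),(13,0)]⟩ ⟨0,
  [(0,0),(0,6),(4,1),(0,2),(1,1),(8,2),(12,6),(1,0)]⟩),.k,(.r (-1) ⟨0,[(2,0),(13,0),(9,0)]⟩ ⟨1,[(2,
  0),(0,0),(2,1),(14,1)]⟩),.k,⟨false,1,⟨0,[(2,0),(13,0),(9,0)]⟩,⟨0,[(0,0),(5,0),(2,0),(0,0),(8,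
  0)]⟩⟩,⟨true,0,⟨1,[(15,0),(2,0)]⟩,⟨0,[(19,0),(1,0)]⟩⟩,⟨true,0,⟨0,[(35,0)]⟩,⟨1,[(9,0),(4,0)]⟩⟩,
  ⟨false,0,⟨5,[(0,3),(1,1),(3,3),(3,1),(4,0),(2,0),(14,1)]⟩,⟨1,[(16,0),(2,1),(0,1),(16,0)]⟩⟩,⟨false,
  1,⟨3,[(16,0),(0,0),(19,1)]⟩,⟨0,[]⟩⟩,⟨false,0,⟨0,[(0,0),(5,0)]⟩,⟨1,[(7,1),(8,0),(2,1),(3,1),(13,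
  0)]⟩⟩,[.o ⟨false,0,⟨0,[(8,0)]⟩,⟨1,[(23,1),(5,0),(7,0)]⟩⟩,.o ⟨false,1,⟨0,[(22,0),(14,0)]⟩,⟨0,[(20,
  0)]⟩⟩,.a ⟨true,0,⟨0,[(19,0)]⟩,⟨3,[(5,0),(12,1),(8,0),(2,1)]⟩⟩ ⟨false,1,⟨1,[(16,0),(18,1),(1,0)]⟩,
  ⟨3,[(0,1),(1,0),(0,0),(2,1),(2,1),(9,1)]⟩⟩ ⟨true,0,⟨5,[(6,1),(1,1),(1,1),(4,0),(2,2)]⟩,⟨0,[(19,0),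
  (0,0)]⟩⟩,.o ⟨false,0,⟨2,[(7,0),(0,0),(0,0),(9,2),(1,0),(2,0),(8,0)]⟩,⟨7,[(16,0),(0,0),(0,3),(10,
  1),(6,3)]⟩⟩]⟩) (.K ⟨2,[0,0,0,1],0,0,(⟨0,[(19,0)]⟩,⟨3,[(5,0),(12,1),(8,0),(2,1)]⟩),.k,(.x 0 ⟨1,[(1,
  1),(16,0),(2,0),(2,0)]⟩ ⟨3,[(5,1),(10,0),(0,0),(9,1),(8,1)]⟩),(.r 0 ⟨0,[(1,3),(0,0),(3,1),(0,1),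
  (1,1),(8,1),(12,3),(1,1)]⟩ ⟨0,[(2,0),(13,0)]⟩),.k,.k,[⟨0,[(13,0),(5,0)]⟩,⟨1,[(15,0),(2,0)]⟩,⟨1,
  [(19,1),(4,0),(0,0)]⟩,⟨1,[(18,0),(2,0),(2,0)]⟩,⟨0,[(0,0)]⟩,⟨3,[(2,1),(0,1),(5,0),(2,0),(5,1),(5,
  0),(7,0)]⟩]⟩)))))))))))

theorem ok16 : chk (cU (-1) false 10) t16 l10 = true := by decide +kernel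

noncomputable def t17 : Tre :=
  (.Q [0,0,0,0,0,0,1,1,0,1,-1] (.p false [0,0,1] [1] (⟨0,[(18,0)]⟩,⟨0,[(17,0)]⟩) .k 1 (⟨0,[]⟩,⟨0,
  []⟩) .k .k) (.Q [0,0,0,-1,0,0,-1,-1,0,-1,1] (.p true [0,0,1] [1] (⟨0,[(19,0)]⟩,⟨0,[(18,0)]⟩) .k 1
  (⟨0,[]⟩,⟨0,[]⟩) .k .k) (.I [1,1,-1,0,0,0,0,-1] (.R ⟨2,true,false,true,[0,1],[1,0,-1],[0,0,1],(⟨0,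
  []⟩,⟨0,[]⟩),(⟨0,[(20,0)]⟩,⟨0,[(21,0)]⟩),⟨0,[]⟩,.k,.k,.k,.k,.k,.k,⟨false,1,⟨1,[(2,1),(11,1),(14,0),
  (0,0)]⟩,⟨0,[(0,0)]⟩⟩,⟨true,0,⟨0,[(14,0)]⟩,⟨1,[(8,0),(11,0),(0,0)]⟩⟩,⟨true,0,⟨0,[(28,0)]⟩,⟨0,[(27,
  0)]⟩⟩,⟨false,0,⟨0,[(1,0)]⟩,⟨0,[(7,0),(22,0)]⟩⟩,⟨false,1,⟨3,[(9,0),(0,0),(19,1)]⟩,⟨0,[]⟩⟩,⟨true,0,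
  ⟨0,[(13,0)]⟩,⟨0,[(2,0)]⟩⟩,[]⟩) (.R ⟨2,true,false,false,[0,1],[1,0,-1],[0,1,1],(⟨0,[]⟩,⟨0,[]⟩),(⟨0,
  [(20,0)]⟩,⟨0,[(21,0)]⟩),⟨0,[]⟩,.k,.k,.k,.k,.k,.k,⟨false,0,⟨0,[(0,0),(24,0)]⟩,⟨1,[(19,1),(9,0),(0,
  0)]⟩⟩,⟨true,0,⟨0,[(14,0)]⟩,⟨1,[(8,0),(11,0),(0,0)]⟩⟩,⟨false,0,⟨0,[(28,0)]⟩,⟨0,[(27,0),(2,0)]⟩⟩,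
  ⟨true,0,⟨0,[(1,0)]⟩,⟨0,[(7,0)]⟩⟩,⟨true,0,⟨0,[(32,0)]⟩,⟨0,[]⟩⟩,⟨false,1,⟨0,[(13,0),(16,0)]⟩,⟨0,[(2,
  0)]⟩⟩,[]⟩)) (.Q [0,0,0,1,0,0,0,0,0,1] (.pp false [-1,1]) (.R ⟨1,false,false,false,[0,0,1],[1,-1],
  [0,1,0,-1,0,0,0,1],(⟨0,[(21,0)]⟩,⟨0,[(20,0)]⟩),(⟨0,[(23,0)]⟩,⟨0,[(24,0)]⟩),⟨0,[(4,0)]⟩,.k,.k,.k,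
  .k,.k,.k,⟨false,0,⟨0,[(0,0),(4,0)]⟩,⟨1,[(19,1),(9,0),(0,0)]⟩⟩,⟨true,0,⟨0,[(14,0)]⟩,⟨1,[(0,0),(7,
  0),(19,0)]⟩⟩,⟨false,0,⟨0,[(28,0)]⟩,⟨0,[(27,0),(2,0)]⟩⟩,⟨false,1,⟨0,[(13,0),(14,0),(1,0)]⟩,⟨0,[(1,
  0)]⟩⟩,⟨true,0,⟨0,[(32,0)]⟩,⟨0,[]⟩⟩,⟨false,1,⟨0,[(13,0),(16,0)]⟩,⟨0,[(2,0)]⟩⟩,[.a ⟨true,0,⟨0,[(28,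
  0)]⟩,⟨0,[(0,0)]⟩⟩ ⟨true,0,⟨0,[(0,0),(4,0),(22,0)]⟩,⟨0,[(3,0),(22,0)]⟩⟩ ⟨false,1,⟨0,[(14,0),(13,0),
  (0,0)]⟩,⟨2,[(0,0),(0,0),(1,0),(4,0)]⟩⟩,.o ⟨false,1,⟨1,[(22,0),(5,1),(1,0)]⟩,⟨0,[(27,0)]⟩⟩,.o
  ⟨false,0,⟨0,[(6,0)]⟩,⟨1,[(18,1),(3,0),(6,0)]⟩⟩,.o ⟨false,0,⟨0,[(17,0)]⟩,⟨0,[(14,0),(14,0)]⟩⟩]⟩)
  (.Q [0,0,0,0,0,1,0,0,0,-1,1] (.ed false [0,1,1] .k) (.Q [0,0,-1,0,0,0,2,0,0,2,-2] (.p false [0,0,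
  1] [2,-1,-1] (⟨0,[(22,0)]⟩,⟨0,[(21,0)]⟩) .k 2 (⟨0,[(21,0),(2,0)]⟩,⟨0,[(0,0)]⟩) .k (.r (-1) ⟨1,[(2,
  1),(3,1),(12,1),(10,0),(0,0)]⟩ ⟨0,[(20,1)]⟩)) (.I [0,0,-1,0,0,1,2] (.K ⟨2,[-1,1,1],0,0,(⟨0,[(2,
  0)]⟩,⟨0,[(23,0),(2,0)]⟩),.k,.k,(.r 0 ⟨0,[(4,0),(12,0),(11,0),(0,0)]⟩ ⟨0,[(22,0),(8,1),(0,0)]⟩),.k,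
  (.x 0 ⟨0,[(0,0)]⟩ ⟨1,[(17,3),(5,3),(1,0),(0,1),(5,0)]⟩),[⟨0,[(9,0),(7,0)]⟩,⟨0,[(1,0)]⟩,⟨1,[(17,1),
  (2,0),(0,0)]⟩,⟨3,[(1,1),(18,0),(0,0)]⟩,⟨0,[(3,0),(15,0)]⟩,⟨0,[(10,0)]⟩]⟩) (.K ⟨2,[-1,1,1],0,0,(⟨0,
  [(2,0)]⟩,⟨0,[(23,0),(2,0)]⟩),.k,.k,(.r 0 ⟨0,[(4,0),(12,0),(11,0),(0,0)]⟩ ⟨0,[(22,0),(8,1),(0,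
  0)]⟩),.k,(.r 0 ⟨1,[(0,1),(1,2),(0,0),(0,2),(0,0),(1,0)]⟩ ⟨3,[(12,0),(0,0),(8,7),(8,3),(0,1)]⟩),
  [⟨0,[(9,0),(7,0)]⟩,⟨0,[(1,0)]⟩,⟨1,[(17,1),(2,0),(0,0)]⟩,⟨3,[(1,1),(18,0),(0,0)]⟩,⟨0,[(3,0),(15,
  0)]⟩,⟨0,[(10,0)]⟩]⟩)) (.Q [0,1,0,0,0,0,0,0,1,0,0,-1] (.p false [0,0,0,1] [] (⟨0,[(14,0)]⟩,⟨1,[(13,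
  0),(8,0),(0,0)]⟩) .k 0 (⟨0,[]⟩,⟨0,[]⟩) .k .k) (.I [0,0,1,1,0,0,0,0,-1] (.I [0,0,1,1,0,0,0,0,1]
  (.Q [0,1,0,0,0,0,0,0,-1,0,0,1] (.p true [0,0,0,1] [] (⟨0,[(17,0)]⟩,⟨1,[(16,0),(8,0),(0,0)]⟩) .k 0
  (⟨0,[]⟩,⟨0,[]⟩) .k .k) (.K ⟨2,[0,0,0,1],0,0,(⟨0,[(18,0)]⟩,⟨1,[(17,0),(8,0),(0,0)]⟩),.k,(.r (-1)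
  ⟨1,[(16,0),(17,1),(0,0)]⟩ ⟨0,[(2,0)]⟩),(.r 0 ⟨0,[(1,0)]⟩ ⟨1,[(15,0),(18,1),(0,0)]⟩),.k,.k,[⟨0,
  [(12,0),(5,0)]⟩,⟨1,[(14,0),(2,0)]⟩,⟨1,[(18,1),(4,0),(0,0)]⟩,⟨7,[(4,1),(12,3),(5,4),(0,0)]⟩,⟨0,[(0,
  0)]⟩,⟨0,[(3,0)]⟩]⟩) (.Q [0,0,0,0,0,1,0,0,0,0,0,-1] (.p false [0,0,0,1] [] (⟨0,[(18,0)]⟩,⟨1,[(17,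
  0),(8,0),(0,0)]⟩) .k 0 (⟨0,[]⟩,⟨0,[]⟩) .k .k) (.R ⟨0,false,false,false,[0,0,0,1],[1,-1],[1,0,0,0,
  0,0,0,0,1],(⟨0,[(19,0)]⟩,⟨1,[(18,0),(8,0),(0,0)]⟩),(⟨0,[(30,0)]⟩,⟨0,[(31,0)]⟩),⟨0,[(0,0)]⟩,.k,.k,
  (.r (-1) ⟨1,[(17,0),(17,1),(0,0)]⟩ ⟨0,[(3,0)]⟩),(.r 0 ⟨0,[(2,0)]⟩ ⟨1,[(16,0),(18,1),(0,0)]⟩),.k,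
  .k,⟨false,0,⟨0,[(1,0),(17,0),(14,0)]⟩,⟨1,[(16,0),(18,1),(0,0)]⟩⟩,⟨true,0,⟨1,[(5,0),(7,0),(5,1),(4,
  0)]⟩,⟨1,[(18,0),(8,0),(0,0)]⟩⟩,⟨true,0,⟨0,[]⟩,⟨0,[(39,0)]⟩⟩,⟨false,1,⟨1,[(7,1),(8,0),(2,1),(17,
  0)]⟩,⟨0,[(1,0),(6,0),(14,0)]⟩⟩,⟨false,0,⟨0,[]⟩,⟨0,[]⟩⟩,⟨false,0,⟨0,[]⟩,⟨0,[]⟩⟩,[.o ⟨false,0,⟨0,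
  [(7,0)]⟩,⟨3,[(16,0),(0,0),(16,3),(2,1)]⟩⟩,.o ⟨false,1,⟨1,[(29,0),(5,1),(1,0)]⟩,⟨0,[(34,0)]⟩⟩,.a
  ⟨true,0,⟨1,[(18,0),(8,0),(0,0)]⟩,⟨0,[(19,0)]⟩⟩ ⟨false,0,⟨0,[(1,0),(17,0)]⟩,⟨3,[(16,2),(0,0)]⟩⟩
  ⟨true,0,⟨0,[(7,0),(11,0)]⟩,⟨1,[(8,0),(9,0),(4,0),(10,0)]⟩⟩,.o ⟨false,0,⟨7,[(5,1),(12,3),(5,4),(0,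
  0)]⟩,⟨1,[(19,1),(9,0),(6,0)]⟩⟩]⟩) (.R ⟨1,false,false,false,[0,0,0,1],[1,-1],[1,0,0,0,0,0,0,0,1],
  (⟨0,[(19,0)]⟩,⟨1,[(18,0),(8,0),(0,0)]⟩),(⟨0,[(30,0)]⟩,⟨0,[(31,0)]⟩),⟨0,[(0,0)]⟩,.k,.k,(.r (-1) ⟨1,
  [(17,0),(17,1),(0,0)]⟩ ⟨0,[(3,0)]⟩),(.r 0 ⟨0,[(2,0)]⟩ ⟨1,[(16,0),(18,1),(0,0)]⟩),.k,.k,⟨false,0,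
  ⟨0,[(1,0),(17,0),(14,0)]⟩,⟨1,[(16,0),(18,1),(0,0)]⟩⟩,⟨true,0,⟨1,[(5,0),(7,0),(5,1),(4,0)]⟩,⟨1,
  [(18,0),(8,0),(0,0)]⟩⟩,⟨true,0,⟨0,[]⟩,⟨0,[(39,0)]⟩⟩,⟨false,1,⟨1,[(7,1),(8,0),(2,1),(17,0)]⟩,⟨0,
  [(1,0),(6,0),(14,0)]⟩⟩,⟨false,1,⟨0,[(34,0),(2,0)]⟩,⟨0,[(35,0)]⟩⟩,⟨false,1,⟨1,[(3,1),(3,1),(11,1),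
  (16,0),(0,0)]⟩,⟨1,[(1,0),(2,0),(22,1),(0,1)]⟩⟩,[.o ⟨false,0,⟨0,[(7,0)]⟩,⟨3,[(16,0),(0,0),(16,3),
  (2,1)]⟩⟩,.o ⟨false,1,⟨1,[(29,0),(5,1),(1,0)]⟩,⟨0,[(34,0)]⟩⟩,.a ⟨true,0,⟨1,[(18,0),(8,0),(0,0)]⟩,
  ⟨0,[(19,0)]⟩⟩ ⟨false,0,⟨0,[(1,0),(17,0)]⟩,⟨3,[(16,2),(0,0)]⟩⟩ ⟨true,0,⟨0,[(7,0),(11,0)]⟩,⟨1,[(8,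
  0),(9,0),(4,0),(10,0)]⟩⟩,.o ⟨false,0,⟨7,[(5,1),(12,3),(5,4),(0,0)]⟩,⟨1,[(19,1),(9,0),(6,
  0)]⟩⟩]⟩))) (.K ⟨2,[0,0,0,1],0,0,(⟨0,[(17,0)]⟩,⟨1,[(16,0),(8,0),(0,0)]⟩),.k,(.r (-1) ⟨0,[(0,0),(14,
  0)]⟩ ⟨0,[(1,0)]⟩),(.x (-1) ⟨3,[(14,0),(0,0),(13,3),(4,1)]⟩ ⟨1,[(3,0),(7,0),(10,0),(5,1)]⟩),.k,.k,
  [⟨0,[(11,0),(5,0)]⟩,⟨1,[(13,0),(2,0)]⟩,⟨1,[(17,1),(4,0),(0,0)]⟩,⟨7,[(3,1),(12,3),(5,4),(0,0)]⟩,⟨1,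
  [(0,0),(0,0),(15,1),(19,1)]⟩,⟨0,[(2,0)]⟩]⟩)) (.Q [0,0,0,0,0,1,0,0,0,0,0,-1] (.p false [0,0,0,1]
  [] (⟨0,[(16,0)]⟩,⟨1,[(15,0),(8,0),(0,0)]⟩) .k 0 (⟨0,[]⟩,⟨0,[]⟩) .k .k) (.R ⟨0,false,false,false,
  [0,0,0,1],[1,-1],[1,0,0,-1,0,0,0,0,1],(⟨0,[(17,0)]⟩,⟨1,[(16,0),(8,0),(0,0)]⟩),(⟨0,[(28,0)]⟩,⟨0,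
  [(29,0)]⟩),⟨0,[(0,0)]⟩,.k,.k,(.x 0 ⟨1,[(3,0),(7,0),(10,0),(5,1)]⟩ ⟨3,[(14,0),(0,0),(13,3),(4,
  1)]⟩),(.r 0 ⟨6,[(1,0),(0,5),(0,1),(2,3),(1,3),(8,5),(13,5)]⟩ ⟨1,[(14,0),(18,1),(0,0)]⟩),.k,.k,
  ⟨false,0,⟨6,[(1,3),(0,2),(0,0),(2,1),(1,1),(8,2),(13,2)]⟩,⟨1,[(14,0),(19,0)]⟩⟩,⟨true,0,⟨1,[(3,0),
  (7,0),(5,1),(4,0)]⟩,⟨1,[(16,0),(8,0),(0,0)]⟩⟩,⟨true,0,⟨0,[(33,0)]⟩,⟨0,[(32,0)]⟩⟩,⟨false,1,⟨1,[(5,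
  1),(8,0),(2,1),(17,0)]⟩,⟨15,[(1,13),(0,1),(0,2),(2,14),(1,14),(7,6),(6,8),(7,1)]⟩⟩,⟨false,0,⟨0,
  []⟩,⟨0,[]⟩⟩,⟨false,0,⟨0,[]⟩,⟨0,[]⟩⟩,[.o ⟨false,0,⟨0,[(5,0)]⟩,⟨3,[(14,0),(0,0),(16,3),(2,1)]⟩⟩,.o
  ⟨false,1,⟨1,[(27,0),(5,1),(1,0)]⟩,⟨0,[(32,0)]⟩⟩,.a ⟨true,0,⟨1,[(16,0),(8,0),(0,0)]⟩,⟨0,[(17,0)]⟩⟩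
  ⟨false,0,⟨0,[(1,0),(29,0)]⟩,⟨1,[(14,0),(17,1),(2,0)]⟩⟩ ⟨true,0,⟨0,[(5,0),(11,0)]⟩,⟨1,[(6,0),(9,0),
  (4,0),(10,0)]⟩⟩,.o ⟨false,0,⟨7,[(3,1),(12,3),(5,4),(0,0)]⟩,⟨1,[(17,1),(9,0),(6,0)]⟩⟩]⟩) (.Q [0,0,
  0,-2,0,0,-1,-1,0,-2,1] (.p true [-1,1,1] [1] (⟨0,[(4,0)]⟩,⟨0,[(25,0),(2,0)]⟩) .k 1 (⟨0,[]⟩,⟨0,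
  []⟩) .k .k) (.I [1,1,-1,-1,0,0,0,-1] (.R ⟨1,true,false,false,[1,-1],[0,0,1],[1,1,-1,-1],(⟨0,[(30,
  0)]⟩,⟨0,[(31,0)]⟩),(⟨0,[(28,0)]⟩,⟨0,[(27,0)]⟩),⟨0,[(2,1),(15,0)]⟩,.k,.k,(.r (-1) ⟨0,[(35,1),(0,
  0)]⟩ ⟨3,[(5,1),(4,3),(3,3),(9,0),(0,0),(7,3)]⟩),.k,(.r (-1) ⟨1,[(0,1),(34,1),(0,0),(0,0)]⟩ ⟨3,[(5,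
  2),(2,0),(1,1),(3,4),(18,4)]⟩),.k,⟨true,0,⟨0,[(0,0)]⟩,⟨1,[(5,0),(2,0),(5,0),(18,2)]⟩⟩,⟨false,1,⟨1,
  [(15,0),(11,0),(0,0),(7,1)]⟩,⟨0,[(21,0)]⟩⟩,⟨false,0,⟨0,[]⟩,⟨3,[(16,0),(0,0),(19,1)]⟩⟩,⟨true,0,⟨0,
  [(8,0)]⟩,⟨8,[(1,3),(10,0),(10,5),(0,0),(7,0)]⟩⟩,⟨true,0,⟨0,[(34,0)]⟩,⟨0,[(35,0)]⟩⟩,⟨false,1,⟨0,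
  [(8,0),(25,0),(2,0)]⟩,⟨0,[(1,0),(25,0),(0,0)]⟩⟩,[]⟩) (.R ⟨1,false,false,false,[0,0,0,1],[1,-1],[1,
  0,0,0,0,0,0,0,1],(⟨0,[(19,0)]⟩,⟨1,[(18,0),(8,0),(0,0)]⟩),(⟨0,[(30,0)]⟩,⟨0,[(31,0)]⟩),⟨0,[(2,0)]⟩,
  .k,.k,(.x 0 ⟨2,[(2,1),(2,0),(12,0),(5,1),(5,0)]⟩ ⟨3,[(16,0),(0,0),(13,3),(4,1)]⟩),(.r 0 ⟨1,[(0,0),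
  (3,1),(5,0),(8,1),(13,0)]⟩ ⟨1,[(16,0),(18,1),(0,0)]⟩),.k,.k,⟨false,0,⟨2,[(0,1),(2,1),(0,0),(5,1),
  (8,0),(14,0)]⟩,⟨1,[(16,0),(18,1),(0,0)]⟩⟩,⟨true,0,⟨1,[(5,0),(7,0),(5,1),(4,0)]⟩,⟨1,[(18,0),(8,0),
  (0,0)]⟩⟩,⟨true,0,⟨0,[]⟩,⟨0,[(39,0)]⟩⟩,⟨false,1,⟨1,[(7,1),(8,0),(2,1),(17,0)]⟩,⟨4,[(0,1),(2,3),(0,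
  0),(3,2),(1,3),(7,1),(4,0),(1,1)]⟩⟩,⟨false,1,⟨0,[(34,0),(2,0)]⟩,⟨0,[(35,0)]⟩⟩,⟨false,1,⟨3,[(0,1),
  (6,3),(2,1),(5,1),(2,3),(16,0),(0,0)]⟩,⟨6,[(3,5),(0,0),(3,2),(1,2),(4,0),(2,2),(6,4),(7,0)]⟩⟩,[.o
  ⟨false,0,⟨0,[(7,0)]⟩,⟨3,[(16,0),(0,0),(16,3),(2,1)]⟩⟩,.o ⟨false,1,⟨23,[(1,7),(10,7),(2,3),(0,2),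
  (0,2),(11,1),(7,15)]⟩,⟨0,[(34,0)]⟩⟩,.a ⟨true,0,⟨1,[(18,0),(8,0),(0,0)]⟩,⟨0,[(19,0)]⟩⟩ ⟨false,0,⟨1,
  [(0,0),(2,1),(6,0),(22,0)]⟩,⟨3,[(16,2),(0,0)]⟩⟩ ⟨true,0,⟨0,[(7,0),(11,0)]⟩,⟨1,[(8,0),(9,0),(4,0),
  (10,0)]⟩⟩,.o ⟨false,0,⟨7,[(5,1),(12,3),(5,4),(0,0)]⟩,⟨1,[(19,1),(9,0),(6,0)]⟩⟩]⟩)) (.Q [0,-1,0,-1,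
  0,0,0,0,1,0,0,-1] (.p false [0,0,0,1] [] (⟨0,[(18,0)]⟩,⟨1,[(17,0),(8,0),(0,0)]⟩) .k 0 (⟨0,[]⟩,⟨0,
  []⟩) .k .k) (.R ⟨1,false,false,true,[0,0,0,1],[2,-1,-1],[1,1,0,0,0,0,0,0,1],(⟨0,[(19,0)]⟩,⟨1,[(18,
  0),(8,0),(0,0)]⟩),(⟨0,[(27,0),(2,0)]⟩,⟨0,[(6,0)]⟩),⟨0,[(2,0)]⟩,.k,.k,(.x 0 ⟨2,[(2,1),(2,0),(12,0),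
  (5,1),(5,0)]⟩ ⟨3,[(16,0),(0,0),(13,3),(4,1)]⟩),(.r 0 ⟨0,[(1,0),(1,0),(1,0),(18,0)]⟩ ⟨1,[(16,0),(9,
  1),(8,1),(0,0)]⟩),.k,.k,⟨false,0,⟨4,[(1,0),(1,4),(1,3),(2,5),(1,1),(13,0)]⟩,⟨1,[(16,0),(9,1),(8,
  1),(0,0)]⟩⟩,⟨true,0,⟨0,[(5,0),(7,0),(5,0)]⟩,⟨1,[(15,0),(2,0),(8,1),(0,1)]⟩⟩,⟨false,0,⟨0,[]⟩,⟨3,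
  [(16,0),(0,0),(19,1)]⟩⟩,⟨false,1,⟨1,[(7,1),(8,0),(2,1),(0,1),(16,0)]⟩,⟨0,[(0,0),(0,0)]⟩⟩,⟨true,0,
  ⟨0,[(34,0)]⟩,⟨0,[(35,0)]⟩⟩,⟨false,1,⟨5,[(5,1),(1,3),(2,3),(5,2),(2,5),(0,1),(8,0),(6,0),(0,0)]⟩,
  ⟨1,[(0,1),(0,0),(7,0),(17,0),(0,0)]⟩⟩,[.o ⟨false,0,⟨0,[(7,0),(12,0)]⟩,⟨0,[(14,0),(22,0)]⟩⟩,.o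
  ⟨false,1,⟨1,[(7,1),(15,1),(5,0),(7,0)]⟩,⟨0,[(8,0)]⟩⟩,.a ⟨true,0,⟨1,[(18,0),(8,0),(0,0)]⟩,⟨0,[(19,
  0)]⟩⟩ ⟨false,0,⟨3,[(0,0),(0,0),(1,1),(0,0),(0,0),(4,0),(8,1),(4,0)]⟩,⟨1,[(16,0),(20,0)]⟩⟩ ⟨true,0,
  ⟨0,[(7,0),(11,0),(0,0)]⟩,⟨1,[(1,0),(7,0),(8,0)]⟩⟩,.o ⟨false,0,⟨7,[(5,1),(12,3),(5,4),(0,0)]⟩,⟨1,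
  [(19,1),(9,0),(6,0)]⟩⟩]⟩) (.K ⟨2,[0,0,0,1],0,0,(⟨0,[(19,0)]⟩,⟨1,[(18,0),(8,0),(0,0)]⟩),.k,(.x 0
  ⟨2,[(2,1),(2,0),(12,0),(5,1),(5,0)]⟩ ⟨3,[(16,0),(0,0),(13,3),(4,1)]⟩),(.r 0 ⟨1,[(1,0),(1,0),(0,0),
  (0,0),(4,0),(8,0),(4,0),(8,0)]⟩ ⟨1,[(16,0),(18,1),(0,0)]⟩),.k,.k,[⟨0,[(13,0),(5,0)]⟩,⟨1,[(15,0),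
  (2,0)]⟩,⟨1,[(19,1),(4,0),(0,0)]⟩,⟨7,[(5,1),(12,3),(5,4),(0,0)]⟩,⟨0,[(0,0),(34,0)]⟩,⟨0,[(4,
  0)]⟩]⟩))))) (.Q [0,0,0,0,0,1,0,0,0,0,0,-1] (.p false [0,0,0,1] [] (⟨0,[(15,0)]⟩,⟨1,[(14,0),(8,0),
  (0,0)]⟩) .k 0 (⟨0,[]⟩,⟨0,[]⟩) .k .k) (.R ⟨0,false,false,false,[0,0,0,1],[0,0,1],[1,0,0,0,0,0,0,0,
  1],(⟨0,[(16,0)]⟩,⟨1,[(15,0),(8,0),(0,0)]⟩),(⟨0,[(25,0)]⟩,⟨0,[(24,0)]⟩),⟨0,[(0,0)]⟩,.k,.k,(.r (-1)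
  ⟨1,[(14,0),(17,1),(0,0)]⟩ ⟨7,[(1,7),(0,1),(12,3),(5,4),(0,0),(8,7)]⟩),.k,.k,.k,⟨false,1,⟨1,[(14,
  0),(8,1),(9,0)]⟩,⟨3,[(1,3),(0,0),(2,1),(3,1),(5,1),(13,0)]⟩⟩,⟨true,0,⟨0,[(10,0),(5,0)]⟩,⟨7,[(2,1),
  (12,3),(5,0),(0,4)]⟩⟩,⟨true,0,⟨0,[]⟩,⟨0,[(36,0)]⟩⟩,⟨false,0,⟨0,[(1,0),(2,0),(0,0)]⟩,⟨1,[(14,0),(0,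
  0),(1,0),(2,0),(13,0)]⟩⟩,⟨false,0,⟨0,[]⟩,⟨0,[]⟩⟩,⟨false,0,⟨0,[]⟩,⟨0,[]⟩⟩,[.o ⟨false,0,⟨0,[(4,0),
  (0,0)]⟩,⟨1,[(20,1),(5,0),(7,0)]⟩⟩,.o ⟨false,1,⟨1,[(6,1),(19,0),(7,0)]⟩,⟨0,[(17,0)]⟩⟩,.a ⟨true,0,
  ⟨1,[(15,0),(8,0),(0,0)]⟩,⟨0,[(16,0)]⟩⟩ ⟨false,1,⟨1,[(14,0),(19,0)]⟩,⟨1,[(1,1),(13,0),(1,0),(1,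
  0)]⟩⟩ ⟨true,0,⟨0,[(4,0),(0,0),(10,0)]⟩,⟨1,[(15,0),(1,0),(2,0)]⟩⟩,.o ⟨false,0,⟨7,[(2,1),(12,3),(5,
  4),(0,0)]⟩,⟨1,[(16,1),(9,0),(6,0)]⟩⟩]⟩) (.I [0,1,2,1,-1,0,0,1] (.I [0,0,2,2,-1,0,0,1,-1] (.R ⟨1,
  false,false,true,[1,0,0,-1],[2,-1,-1],[1,1,0,0,0,0,0,0,-1],(⟨1,[(17,0),(8,0),(0,0)]⟩,⟨0,[(18,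
  0)]⟩),(⟨0,[(26,0),(2,0)]⟩,⟨0,[(5,0)]⟩),⟨0,[(2,0),(14,0)]⟩,.k,.k,(.x 0 ⟨2,[(2,1),(1,0),(12,0),(5,
  1),(5,0)]⟩ ⟨3,[(15,0),(0,0),(13,3),(4,1)]⟩),(.r 0 ⟨2,[(0,0),(3,0),(2,0),(0,0),(6,0)]⟩ ⟨1,[(16,0),
  (8,1),(8,1),(0,0)]⟩),.k,.k,⟨false,0,⟨9,[(0,5),(2,3),(0,0),(3,1),(2,1),(5,1),(13,0),(3,5)]⟩,⟨1,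
  [(16,0),(8,1),(8,1),(0,0)]⟩⟩,⟨true,0,⟨31,[(0,1),(3,19),(1,5),(2,1),(6,0),(0,15),(5,7),(4,0)]⟩,⟨1,
  [(14,0),(3,1),(7,0),(0,0)]⟩⟩,⟨false,0,⟨0,[]⟩,⟨3,[(15,0),(0,0),(19,1)]⟩⟩,⟨false,1,⟨1,[(6,1),(9,0),
  (0,0),(1,0),(2,0),(13,0)]⟩,⟨0,[(3,0),(3,0)]⟩⟩,⟨true,0,⟨0,[(33,0)]⟩,⟨0,[(34,0)]⟩⟩,⟨false,1,⟨11,[(4,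
  1),(1,3),(2,3),(6,5),(0,5),(1,7),(8,0),(6,0),(0,3)]⟩,⟨0,[(3,0),(4,0)]⟩⟩,[.o ⟨false,0,⟨0,[(6,0),
  (12,0)]⟩,⟨0,[(13,0),(22,0)]⟩⟩,.o ⟨false,1,⟨1,[(6,1),(15,1),(5,0),(7,0)]⟩,⟨0,[(7,0)]⟩⟩,.a ⟨true,0,
  ⟨0,[(18,0)]⟩,⟨1,[(17,0),(8,0),(0,0)]⟩⟩ ⟨false,0,⟨15,[(0,1),(2,9),(2,3),(7,0),(0,1),(1,4),(1,1),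
  (11,3)]⟩,⟨1,[(16,0),(19,0)]⟩⟩ ⟨true,0,⟨1,[(6,1),(10,0),(1,0),(2,0)]⟩,⟨0,[(7,0),(10,0)]⟩⟩,.o
  ⟨false,0,⟨15,[(0,1),(3,3),(1,5),(2,1),(6,0),(1,15),(4,7),(4,0)]⟩,⟨7,[(15,0),(0,0),(0,3),(10,1),(6,
  3)]⟩⟩]⟩) (.R ⟨1,false,false,false,[1,0,0,-1],[1,-1],[0,0,0,-1,0,0,0,0,-1],(⟨1,[(17,0),(8,0),(0,
  0)]⟩,⟨0,[(18,0)]⟩),(⟨0,[(29,0)]⟩,⟨0,[(30,0)]⟩),⟨0,[(2,0),(14,0)]⟩,.k,.k,(.x 0 ⟨2,[(2,1),(1,0),(12,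
  0),(5,1),(5,0)]⟩ ⟨3,[(15,0),(0,0),(13,3),(4,1)]⟩),(.r 0 ⟨11,[(1,5),(1,3),(5,5),(5,3),(1,1),(10,0),
  (7,0)]⟩ ⟨9,[(0,3),(7,1),(2,1),(4,2),(7,1),(10,1),(0,0)]⟩),.k,.k,⟨false,0,⟨25,[(1,3),(1,19),(2,7),
  (2,3),(5,2),(1,9),(10,0),(2,7)]⟩,⟨1,[(16,0),(18,0)]⟩⟩,⟨true,0,⟨7,[(4,1),(12,3),(5,4),(0,0)]⟩,⟨0,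
  [(18,0)]⟩⟩,⟨true,0,⟨0,[(34,0)]⟩,⟨0,[(33,0)]⟩⟩,⟨false,1,⟨1,[(6,0),(9,0),(0,0),(16,0),(1,0)]⟩,⟨0,
  [(3,0),(29,0)]⟩⟩,⟨false,1,⟨3,[(15,0),(0,0),(19,1)]⟩,⟨0,[]⟩⟩,⟨false,1,⟨3,[(0,1),(3,1),(1,1),(0,3),
  (1,1),(6,0),(0,1),(14,1),(3,0)]⟩,⟨9,[(1,0),(1,7),(11,0),(2,1),(3,0),(0,0),(7,2),(2,0)]⟩⟩,[.o
  ⟨false,0,⟨0,[(6,0)]⟩,⟨3,[(15,0),(0,0),(16,3),(2,1)]⟩⟩,.o ⟨false,1,⟨11,[(0,1),(5,5),(4,1),(3,0),(7,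
  1),(0,1),(3,1),(7,6)]⟩,⟨0,[(33,0)]⟩⟩,.a ⟨true,0,⟨0,[(18,0)]⟩,⟨1,[(17,0),(8,0),(0,0)]⟩⟩ ⟨false,0,
  ⟨1,[(3,1),(2,0),(10,0),(16,0)]⟩,⟨1,[(16,0),(16,1),(2,0)]⟩⟩ ⟨true,0,⟨1,[(6,0),(10,0),(16,0)]⟩,⟨0,
  [(18,0),(14,0)]⟩⟩,.o ⟨false,0,⟨5,[(1,0),(2,0),(1,1),(2,0),(8,5),(4,1),(4,0),(3,0)]⟩,⟨7,[(15,0),(0,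
  0),(0,3),(10,1),(6,3)]⟩⟩]⟩)) (.I [0,-1,0,0,1,0,0,1,1] (.R ⟨1,false,false,true,[0,0,0,1],[2,-1,-1],
  [0,0,0,-1,0,0,0,0,1],(⟨0,[(18,0)]⟩,⟨1,[(17,0),(8,0),(0,0)]⟩),(⟨0,[(26,0),(2,0)]⟩,⟨0,[(5,0)]⟩),⟨0,
  [(2,0)]⟩,.k,.k,(.r (-1) ⟨2,[(0,0),(0,0),(14,0),(14,0),(2,1)]⟩ ⟨7,[(3,7),(0,1),(12,3),(5,4),(0,0),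
  (8,7)]⟩),(.x (-1) ⟨3,[(1,1),(3,2),(7,1),(0,0),(0,0),(0,0),(10,0),(2,0)]⟩ ⟨3,[(2,3),(1,2),(7,0),(4,
  1),(5,0),(2,3)]⟩),.k,.k,⟨false,1,⟨0,[(0,0)]⟩,⟨1,[(3,1),(2,0),(2,0),(7,0),(7,0),(5,1)]⟩⟩,⟨true,0,
  ⟨0,[(4,0),(7,0),(5,0)]⟩,⟨1,[(14,0),(2,0),(8,1),(0,1)]⟩⟩,⟨true,0,⟨0,[(34,0)]⟩,⟨0,[(33,0)]⟩⟩,⟨false,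
  0,⟨0,[(3,0),(2,0),(12,0)]⟩,⟨1,[(7,1),(8,0),(0,0),(8,0),(0,0),(8,0)]⟩⟩,⟨false,1,⟨3,[(15,0),(0,0),
  (19,1)]⟩,⟨0,[]⟩⟩,⟨false,0,⟨1,[(3,1),(0,0),(1,1),(2,1),(21,0)]⟩,⟨1,[(8,1),(7,0),(0,0),(8,0),(0,0),
  (8,0)]⟩⟩,[.o ⟨false,0,⟨0,[(6,0),(12,0)]⟩,⟨0,[(13,0),(22,0)]⟩⟩,.o ⟨false,1,⟨3,[(1,1),(4,1),(12,1),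
  (3,0),(0,2),(3,1)]⟩,⟨0,[(7,0)]⟩⟩,.a ⟨true,0,⟨1,[(17,0),(8,0),(0,0)]⟩,⟨0,[(18,0)]⟩⟩ ⟨false,1,⟨1,
  [(16,0),(17,1),(1,0)]⟩,⟨3,[(3,3),(0,0),(1,1),(0,1),(1,1),(7,1),(13,0),(1,1)]⟩⟩ ⟨true,0,⟨0,[(6,0),
  (11,0),(0,0)]⟩,⟨1,[(7,1),(9,0),(8,0),(0,0)]⟩⟩,.o ⟨false,0,⟨7,[(4,1),(12,3),(5,4),(0,0)]⟩,⟨1,[(18,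
  1),(9,0),(6,0)]⟩⟩]⟩) (.R ⟨1,false,false,true,[0,0,0,1],[2,-1,-1],[1,1,0,0,0,0,0,0,1],(⟨0,[(18,
  0)]⟩,⟨1,[(17,0),(8,0),(0,0)]⟩),(⟨0,[(26,0),(2,0)]⟩,⟨0,[(5,0)]⟩),⟨0,[(2,0)]⟩,.k,.k,(.r (-1) ⟨1,
  [(16,0),(17,1),(0,0)]⟩ ⟨2,[(0,0),(3,0),(2,0),(1,0),(3,0),(1,0),(16,1)]⟩),(.x (-1) ⟨3,[(1,1),(3,2),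
  (7,1),(0,0),(0,0),(0,0),(10,0),(2,0)]⟩ ⟨3,[(2,3),(1,2),(7,0),(4,1),(5,0),(2,3)]⟩),.k,.k,⟨false,1,
  ⟨3,[(4,1),(2,1),(5,1),(2,1),(18,0),(0,0)]⟩,⟨9,[(0,5),(0,4),(1,1),(7,0),(3,0),(1,0),(16,3)]⟩⟩,
  ⟨true,0,⟨0,[(4,0),(7,0),(5,0)]⟩,⟨1,[(14,0),(2,0),(8,1),(0,1)]⟩⟩,⟨false,0,⟨0,[]⟩,⟨3,[(15,0),(0,0),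
  (19,1)]⟩⟩,⟨false,0,⟨0,[(3,0),(2,0),(12,0)]⟩,⟨1,[(7,1),(8,0),(0,0),(8,0),(0,0),(8,0)]⟩⟩,⟨true,0,⟨0,
  [(33,0)]⟩,⟨0,[(34,0)]⟩⟩,⟨false,0,⟨3,[(0,1),(2,1),(0,1),(1,1),(2,1),(8,1),(9,0),(6,0)]⟩,⟨1,[(8,1),
  (7,0),(0,0),(8,0),(0,0),(8,0)]⟩⟩,[.o ⟨false,0,⟨0,[(6,0),(12,0)]⟩,⟨0,[(13,0),(22,0)]⟩⟩,.o ⟨false,1,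
  ⟨3,[(1,1),(4,1),(12,1),(3,0),(0,2),(3,1)]⟩,⟨0,[(7,0)]⟩⟩,.a ⟨true,0,⟨1,[(17,0),(8,0),(0,0)]⟩,⟨0,
  [(18,0)]⟩⟩ ⟨false,1,⟨3,[(15,0),(0,2)]⟩,⟨2,[(0,0),(0,0),(1,1),(0,0),(1,0),(0,1),(9,0),(14,0)]⟩⟩
  ⟨true,0,⟨0,[(6,0),(11,0),(0,0)]⟩,⟨1,[(7,1),(9,0),(8,0),(0,0)]⟩⟩,.o ⟨false,0,⟨7,[(4,1),(12,3),(5,
  4),(0,0)]⟩,⟨1,[(18,1),(9,0),(6,0)]⟩⟩]⟩)))))) (.Q [0,0,0,-1,0,0,-1,-1,0,0,1] (.p true [0,0,1] []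
  (⟨0,[(22,0)]⟩,⟨0,[(21,0)]⟩) .k 0 (⟨0,[]⟩,⟨0,[]⟩) .k .k) (.R ⟨2,false,false,false,[0,1],[0,1,1],[],
  (⟨0,[]⟩,⟨0,[]⟩),(⟨0,[(23,0),(2,0)]⟩,⟨0,[(1,0)]⟩),⟨0,[]⟩,.k,.k,.k,.k,.k,.k,⟨false,1,⟨2,[(0,1),(1,
  0),(7,0),(10,0),(9,2)]⟩,⟨0,[(3,0),(12,0)]⟩⟩,⟨true,0,⟨0,[(8,0)]⟩,⟨0,[(20,0)]⟩⟩,⟨false,1,⟨1,[(30,1),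
  (0,0),(0,0)]⟩,⟨0,[(28,0),(0,0)]⟩⟩,⟨true,0,⟨0,[(2,0),(0,0)]⟩,⟨0,[(18,0)]⟩⟩,⟨false,1,⟨1,[(31,0),(0,
  0)]⟩,⟨1,[(19,0),(0,0)]⟩⟩,⟨false,1,⟨1,[(3,1),(20,0),(7,0)]⟩,⟨0,[(0,0)]⟩⟩,[.a ⟨true,0,⟨0,[(3,0)]⟩,
  ⟨0,[(0,0)]⟩⟩ ⟨false,1,⟨3,[(11,0),(0,0),(18,1)]⟩,⟨0,[]⟩⟩ ⟨true,0,⟨0,[(3,0),(4,0),(7,0)]⟩,⟨0,[(0,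
  0)]⟩⟩,.o ⟨false,1,⟨1,[(3,1),(20,0),(7,0)]⟩,⟨6,[(0,3),(1,1),(4,0),(7,3),(3,0),(7,0)]⟩⟩,.o ⟨false,1,
  ⟨3,[(11,0),(0,0),(18,1)]⟩,⟨0,[(8,0),(7,0)]⟩⟩,.e ⟨false,1,⟨1,[(31,0),(0,0)]⟩,⟨1,[(19,0),(0,0)]⟩⟩
  ⟨false,1,⟨1,[(3,1),(20,0),(7,0)]⟩,⟨0,[(0,0)]⟩⟩]⟩) (.I [0,0,-1,-1,0,0,0,-2] (.K ⟨2,[0,1,1],0,0,(⟨0,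
  [(24,0),(2,0)]⟩,⟨0,[(2,0)]⟩),.k,.k,(.r 0 ⟨0,[(1,0),(19,0),(7,0),(0,0)]⟩ ⟨7,[(0,3),(11,0),(0,0),
  (17,11),(0,5)]⟩),.k,(.r (-1) ⟨7,[(1,5),(6,3),(1,5),(10,11),(3,0),(6,1),(0,4)]⟩ ⟨0,[(0,0)]⟩),[⟨1,
  [(20,0),(0,0)]⟩,⟨0,[(0,0),(0,0),(3,0)]⟩,⟨1,[(20,0),(0,2)]⟩,⟨0,[(9,0)]⟩,⟨0,[(19,0),(11,0)]⟩,⟨1,[(1,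
  0),(16,0),(11,0)]⟩]⟩) (.Q [0,0,-1,0,0,0,2,0,0,1,-2] (.p false [0,0,1] [1,0,-1] (⟨0,[(24,0)]⟩,⟨0,
  [(23,0)]⟩) .k 2 (⟨0,[(23,0)]⟩,⟨0,[(24,0)]⟩) .k (.r (-1) ⟨7,[(0,3),(4,3),(2,3),(3,0),(0,0),(7,3),
  (10,3),(0,1)]⟩ ⟨0,[(22,1)]⟩)) (.I [0,0,-1,0,0,1,2] (.K ⟨2,[0,1,1],0,0,(⟨0,[(26,0),(2,0)]⟩,⟨0,[(4,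
  0)]⟩),.k,.k,(.r 0 ⟨1,[(2,1),(5,1),(13,0),(0,0)]⟩ ⟨0,[(24,0),(8,1),(0,0)]⟩),.k,(.x 0 ⟨0,[(0,0)]⟩
  ⟨1,[(4,1),(14,1),(3,1),(1,1),(1,0),(6,0)]⟩),[⟨1,[(22,0),(0,0)]⟩,⟨0,[(1,0)]⟩,⟨1,[(22,0),(0,2)]⟩,⟨0,
  [(11,0)]⟩,⟨0,[(21,0),(11,0)]⟩,⟨1,[(3,0),(16,0),(11,0)]⟩]⟩) (.K ⟨2,[0,1,1],0,0,(⟨0,[(26,0),(2,0)]⟩,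
  ⟨0,[(4,0)]⟩),.k,.k,(.r 0 ⟨1,[(2,1),(5,1),(13,0),(0,0)]⟩ ⟨0,[(24,0),(8,1),(0,0)]⟩),.k,(.r 0 ⟨0,[(0,
  1),(0,0),(1,1),(1,0),(3,3),(19,5)]⟩ ⟨3,[(14,0),(0,0),(8,7),(8,3),(0,1)]⟩),[⟨1,[(22,0),(0,0)]⟩,⟨0,
  [(1,0)]⟩,⟨1,[(22,0),(0,2)]⟩,⟨0,[(11,0)]⟩,⟨0,[(21,0),(11,0)]⟩,⟨1,[(3,0),(16,0),(11,0)]⟩]⟩)) (.I [0,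
  0,1,1,0,0,0,0,1] (.Q [0,-1,0,1,0,0,1,1,1,1,-1,-1] (.p false [0,0,1] [1,0,0,-1] (⟨0,[(26,0)]⟩,⟨0,
  [(25,0)]⟩) .k 2 (⟨1,[(16,0),(8,0),(0,0)]⟩,⟨0,[(17,0)]⟩) .k (.x 0 ⟨0,[(11,0),(14,0)]⟩ ⟨3,[(1,1),
  (12,0),(0,0),(9,3),(1,0),(6,0)]⟩)) (.R ⟨1,false,false,false,[1,0,0,-1],[0,0,1],[1,0,0,0,0,0,0,0,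
  -1],(⟨1,[(17,0),(8,0),(0,0)]⟩,⟨0,[(18,0)]⟩),(⟨0,[(27,0)]⟩,⟨0,[(26,0)]⟩),⟨1,[(5,0),(4,0),(6,0)]⟩,
  .k,.k,(.r (-1) ⟨1,[(15,0),(18,1),(0,0)]⟩ ⟨0,[(1,0)]⟩),.k,(.r (-1) ⟨1,[(15,0),(9,1),(8,1),(0,0)]⟩
  ⟨14,[(0,4),(0,9),(0,2),(0,2),(4,0),(2,2),(6,4),(12,0)]⟩),.k,⟨false,1,⟨1,[(15,0),(9,1),(9,0)]⟩,⟨1,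
  [(0,1),(1,0),(3,0),(11,1),(12,0),(2,0)]⟩⟩,⟨true,0,⟨1,[(14,0),(2,0)]⟩,⟨0,[(18,0),(1,0)]⟩⟩,⟨true,0,
  ⟨0,[]⟩,⟨0,[(38,0)]⟩⟩,⟨false,0,⟨0,[(0,0),(33,0)]⟩,⟨1,[(15,0),(2,1),(0,1),(16,0)]⟩⟩,⟨false,1,⟨0,
  [(33,0),(2,0)]⟩,⟨0,[(34,0)]⟩⟩,⟨false,0,⟨0,[(0,0)]⟩,⟨1,[(6,1),(8,0),(2,1),(3,1),(13,0)]⟩⟩,[.o
  ⟨false,0,⟨1,[(4,0),(1,0),(1,0)]⟩,⟨1,[(22,1),(5,0),(7,0)]⟩⟩,.o ⟨false,1,⟨1,[(8,1),(19,0),(7,0)]⟩,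
  ⟨0,[(19,0)]⟩⟩,.a ⟨true,0,⟨0,[(18,0)]⟩,⟨1,[(17,0),(8,0),(0,0)]⟩⟩ ⟨false,1,⟨1,[(15,0),(20,0)]⟩,⟨0,
  [(0,0),(5,0),(11,0),(3,0)]⟩⟩ ⟨true,0,⟨3,[(4,0),(1,0),(1,2),(8,1)]⟩,⟨0,[(18,0),(0,0)]⟩⟩,.o ⟨false,
  0,⟨4,[(4,0),(1,1),(2,0),(8,4),(1,2),(2,1)]⟩,⟨7,[(15,0),(0,0),(0,3),(10,1),(6,3)]⟩⟩]⟩) (.Q [0,1,0,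
  0,0,0,-1,-1,1,0,1,-1] (.p true [0,0,1] [0,0,0,1] (⟨0,[(27,0)]⟩,⟨0,[(26,0)]⟩) .k 2 (⟨0,[(18,0)]⟩,
  ⟨1,[(17,0),(8,0),(0,0)]⟩) .k (.x 0 ⟨0,[(12,0),(14,0)]⟩ ⟨3,[(2,1),(12,0),(0,0),(9,3),(1,0),(6,
  0)]⟩)) (.I [0,0,1,1,0,0,0,0,-1] (.K ⟨2,[0,0,0,1],0,0,(⟨0,[(20,0)]⟩,⟨1,[(19,0),(8,0),(0,0)]⟩),.k,
  (.r (-1) ⟨1,[(18,0),(17,1),(0,0)]⟩ ⟨0,[(0,0)]⟩),(.r 0 ⟨0,[(3,0)]⟩ ⟨1,[(17,0),(18,1),(0,0)]⟩),.k,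
  .k,[⟨0,[(14,0),(5,0)]⟩,⟨1,[(16,0),(2,0)]⟩,⟨1,[(20,1),(4,0),(0,0)]⟩,⟨1,[(19,0),(2,0),(2,0)]⟩,⟨0,
  [(2,0),(6,0)]⟩,⟨1,[(1,1),(4,0),(1,0),(1,0)]⟩]⟩) (.K ⟨2,[0,0,0,1],0,0,(⟨0,[(20,0)]⟩,⟨1,[(19,0),(8,
  0),(0,0)]⟩),.k,(.x 0 ⟨1,[(7,0),(4,0),(9,0),(2,0)]⟩ ⟨3,[(17,0),(0,0),(13,3),(4,1)]⟩),(.r 0 ⟨0,[(3,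
  0)]⟩ ⟨0,[(0,0),(16,0)]⟩),.k,.k,[⟨0,[(14,0),(5,0)]⟩,⟨1,[(16,0),(2,0)]⟩,⟨1,[(20,1),(4,0),(0,0)]⟩,⟨1,
  [(19,0),(2,0),(2,0)]⟩,⟨0,[(2,0),(6,0)]⟩,⟨11,[(0,2),(0,7),(1,0),(2,3),(6,1),(5,1),(3,1),(1,
  1)]⟩]⟩)) (.R ⟨1,false,false,true,[1,0,0,-1],[1,0,-1],[1,1,0,0,0,0,0,0,-1],(⟨1,[(18,0),(8,0),(0,
  0)]⟩,⟨0,[(19,0)]⟩),(⟨0,[(27,0)]⟩,⟨0,[(28,0)]⟩),⟨1,[(6,0),(4,0),(6,0)]⟩,.k,.k,(.r (-1) ⟨1,[(16,0),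
  (18,1),(0,0)]⟩ ⟨0,[(2,0)]⟩),.k,(.r (-1) ⟨15,[(0,4),(0,0),(1,5),(5,7),(2,3),(3,4),(1,2),(16,10),(0,
  10)]⟩ ⟨0,[(2,0),(23,0)]⟩),.k,⟨true,0,⟨1,[(0,1),(2,0),(14,0),(13,0)]⟩,⟨0,[(2,0),(23,0),(8,0)]⟩⟩,
  ⟨false,1,⟨7,[(3,3),(12,0),(0,0),(0,3),(17,5)]⟩,⟨0,[(13,0),(5,0)]⟩⟩,⟨false,0,⟨0,[]⟩,⟨3,[(16,0),(0,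
  0),(19,1)]⟩⟩,⟨false,1,⟨1,[(17,0),(0,0),(1,0),(2,0),(13,0)]⟩,⟨0,[(0,0)]⟩⟩,⟨true,0,⟨0,[(34,0)]⟩,⟨0,
  [(35,0)]⟩⟩,⟨false,1,⟨7,[(3,3),(6,7),(5,0),(0,4),(0,3),(17,1)]⟩,⟨0,[(0,0),(34,0)]⟩⟩,[.o ⟨false,0,
  ⟨0,[(20,0)]⟩,⟨1,[(9,1),(19,0),(7,0)]⟩⟩,.o ⟨false,1,⟨1,[(23,1),(5,0),(7,0)]⟩,⟨1,[(5,0),(1,0),(1,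
  0)]⟩⟩,.a ⟨true,0,⟨0,[(19,0)]⟩,⟨1,[(18,0),(8,0),(0,0)]⟩⟩ ⟨false,0,⟨5,[(0,3),(0,1),(1,0),(6,1),(7,
  2),(13,0)]⟩,⟨1,[(17,0),(19,0)]⟩⟩ ⟨true,0,⟨1,[(18,0),(1,0),(2,0)]⟩,⟨1,[(5,0),(1,0),(1,0),(9,1)]⟩⟩,
  .o ⟨false,0,⟨1,[(0,0),(0,0),(0,1),(4,0)]⟩,⟨7,[(16,0),(0,0),(0,3),(10,1),(6,3)]⟩⟩]⟩))) (.Q [0,-1,0,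
  -1,0,0,0,0,-1,-1,0,1] (.p true [0,0,0,1] [1] (⟨0,[(17,0)]⟩,⟨1,[(16,0),(8,0),(0,0)]⟩) .k 1 (⟨0,[]⟩,
  ⟨0,[]⟩) .k .k) (.R ⟨1,false,false,false,[1,0,0,-1],[0,0,1],[0,0,0,-1,0,0,0,0,-1],(⟨1,[(17,0),(8,
  0),(0,0)]⟩,⟨0,[(18,0)]⟩),(⟨0,[(27,0)]⟩,⟨0,[(26,0)]⟩),⟨1,[(5,0),(4,0),(6,0)]⟩,.k,.k,(.x 0 ⟨1,[(5,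
  0),(4,0),(9,0),(2,0)]⟩ ⟨3,[(15,0),(0,0),(13,3),(4,1)]⟩),.k,(.r 0 ⟨0,[(1,0),(23,0)]⟩ ⟨11,[(3,7),(5,
  3),(5,2),(0,8),(6,1),(0,1)]⟩),.k,⟨false,0,⟨0,[(1,0),(23,0)]⟩,⟨3,[(3,1),(12,1),(16,1),(1,0),(0,
  0)]⟩⟩,⟨true,0,⟨1,[(14,0),(2,0)]⟩,⟨0,[(18,0),(1,0)]⟩⟩,⟨true,0,⟨0,[(34,0)]⟩,⟨0,[(33,0)]⟩⟩,⟨false,1,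
  ⟨3,[(4,0),(1,0),(1,2),(7,1),(0,1),(18,1)]⟩,⟨2,[(0,1),(0,0),(0,0),(6,1),(8,0),(3,0),(10,0)]⟩⟩,
  ⟨false,1,⟨3,[(15,0),(0,0),(19,1)]⟩,⟨0,[]⟩⟩,⟨false,1,⟨1,[(4,0),(2,0),(8,0),(0,0),(18,0)]⟩,⟨0,[(0,
  0),(21,0)]⟩⟩,[.o ⟨false,0,⟨1,[(4,0),(1,0),(1,0)]⟩,⟨1,[(22,1),(5,0),(7,0)]⟩⟩,.o ⟨false,1,⟨1,[(8,1),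
  (19,0),(7,0)]⟩,⟨0,[(19,0)]⟩⟩,.a ⟨true,0,⟨0,[(18,0)]⟩,⟨1,[(17,0),(8,0),(0,0)]⟩⟩ ⟨false,0,⟨1,[(0,1),
  (4,0),(4,0),(6,0),(12,1)]⟩,⟨1,[(16,0),(16,1),(2,0)]⟩⟩ ⟨true,0,⟨3,[(4,0),(1,0),(1,2),(8,1)]⟩,⟨0,
  [(18,0),(0,0)]⟩⟩,.o ⟨false,0,⟨4,[(4,0),(1,1),(2,0),(8,4),(1,2),(2,1)]⟩,⟨7,[(15,0),(0,0),(0,3),(10,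
  1),(6,3)]⟩⟩]⟩) (.K ⟨2,[0,0,0,1],0,0,(⟨0,[(18,0)]⟩,⟨1,[(17,0),(8,0),(0,0)]⟩),.k,(.r (-1) ⟨0,[(1,0),
  (14,0)]⟩ ⟨2,[(1,2),(1,1),(5,3),(13,1),(0,1)]⟩),(.x (-1) ⟨3,[(15,0),(0,0),(13,3),(4,1)]⟩ ⟨1,[(5,0),
  (4,0),(9,0),(2,0)]⟩),.k,.k,[⟨0,[(12,0),(5,0)]⟩,⟨1,[(14,0),(2,0)]⟩,⟨1,[(18,1),(4,0),(0,0)]⟩,⟨1,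
  [(17,0),(2,0),(2,0)]⟩,⟨1,[(1,1),(16,1),(4,0),(0,0),(8,1)]⟩,⟨0,[(0,0),(5,0)]⟩]⟩))))))))) (.Q [0,0,
  0,-1,0,0,1,1,0,1,-1] (.p false [0,0,1] [1] (⟨0,[(19,0)]⟩,⟨0,[(18,0)]⟩) .k 1 (⟨0,[]⟩,⟨0,[]⟩) .k
  .k) (.R ⟨2,true,false,false,[0,1],[1,1,-1],[0,1,1],(⟨0,[]⟩,⟨0,[]⟩),(⟨0,[(19,0),(3,0)]⟩,⟨0,[(3,
  0)]⟩),⟨0,[]⟩,.k,.k,.k,.k,.k,.k,⟨true,0,⟨0,[(4,0),(14,0),(0,0)]⟩,⟨0,[(2,0),(22,0)]⟩⟩,⟨false,1,⟨0,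
  [(13,0),(14,0)]⟩,⟨1,[(7,0),(11,0),(0,0)]⟩⟩,⟨false,0,⟨0,[(27,0)]⟩,⟨0,[(26,0),(2,0)]⟩⟩,⟨true,0,⟨0,
  [(1,0)]⟩,⟨1,[(0,0),(5,0),(24,0)]⟩⟩,⟨true,0,⟨0,[(31,0)]⟩,⟨0,[]⟩⟩,⟨false,1,⟨0,[(1,0),(24,0),(2,0)]⟩,
  ⟨0,[(0,0)]⟩⟩,[]⟩) (.Q [0,0,0,-1,0,0,0,0,0,-1] (.pp true [-1,1]) (.Q [0,1,0,0,0,0,0,0,1,1,0,-1]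
  (.p false [0,0,0,1] [1] (⟨0,[(12,0)]⟩,⟨1,[(11,0),(8,0),(0,0)]⟩) .k 1 (⟨0,[]⟩,⟨0,[]⟩) .k .k) (.I
  [0,1,-1,-1,0,0,0,0,-1] (.K ⟨2,[1,0,0,-1],0,0,(⟨1,[(13,0),(8,0),(0,0)]⟩,⟨0,[(14,0)]⟩),.k,(.x 0 ⟨1,
  [(3,0),(3,0),(11,0),(5,1),(2,0)]⟩ ⟨3,[(11,0),(0,0),(13,3),(4,1)]⟩),(.r 0 ⟨0,[(0,0),(2,0),(5,0),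
  (18,1)]⟩ ⟨1,[(12,0),(17,1),(0,0)]⟩),.k,.k,[⟨1,[(10,0),(2,0)]⟩,⟨0,[(8,0),(5,0)]⟩,⟨1,[(10,0),(2,0),
  (6,1)]⟩,⟨1,[(3,0),(3,0),(6,1),(4,0),(8,0)]⟩,⟨0,[(1,0)]⟩,⟨0,[(0,0),(2,0),(10,0),(2,0),(10,0)]⟩]⟩)
  (.Q [0,1,0,0,0,0,0,0,-1,0,0,1] (.p true [0,0,0,1] [] (⟨0,[(14,0)]⟩,⟨1,[(13,0),(8,0),(0,0)]⟩) .k 0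
  (⟨0,[]⟩,⟨0,[]⟩) .k .k) (.K ⟨2,[0,0,0,1],0,0,(⟨0,[(15,0)]⟩,⟨1,[(14,0),(8,0),(0,0)]⟩),.k,(.x 0 ⟨1,
  [(4,0),(3,0),(11,0),(5,1),(2,0)]⟩ ⟨3,[(12,0),(0,0),(13,3),(4,1)]⟩),(.r 0 ⟨0,[(1,0),(33,0)]⟩ ⟨1,
  [(12,0),(18,1),(0,0)]⟩),.k,.k,[⟨0,[(9,0),(5,0)]⟩,⟨1,[(11,0),(2,0)]⟩,⟨1,[(15,1),(4,0),(0,0)]⟩,⟨1,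
  [(14,0),(2,0),(2,0)]⟩,⟨0,[(0,0)]⟩,⟨2,[(1,1),(0,0),(0,1),(10,0),(13,1)]⟩]⟩) (.Q [0,1,0,-1,0,0,0,0,
  -1,-1,0,1] (.p true [0,0,0,1] [1] (⟨0,[(15,0)]⟩,⟨1,[(14,0),(8,0),(0,0)]⟩) .k 1 (⟨0,[]⟩,⟨0,[]⟩) .k
  .k) (.R ⟨2,true,false,true,[0,1],[1,0,0,-1],[1,1,1,1],(⟨0,[]⟩,⟨0,[]⟩),(⟨1,[(15,0),(8,0),(0,0)]⟩,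
  ⟨0,[(16,0)]⟩),⟨0,[]⟩,.k,.k,.k,(.r 0 ⟨0,[(2,0),(33,0)]⟩ ⟨1,[(13,0),(18,1),(0,0)]⟩),.k,.k,⟨false,0,
  ⟨2,[(1,1),(0,0),(2,0),(5,0),(4,1),(12,0)]⟩,⟨1,[(13,0),(18,1),(0,0)]⟩⟩,⟨true,0,⟨0,[(0,0),(1,0)]⟩,
  ⟨1,[(15,0),(8,0),(0,0)]⟩⟩,⟨false,0,⟨0,[]⟩,⟨3,[(13,0),(0,0),(19,1)]⟩⟩,⟨true,0,⟨0,[(0,0)]⟩,⟨3,[(1,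
  2),(1,0),(1,1),(5,1),(12,2),(0,2)]⟩⟩,⟨true,0,⟨0,[(31,0)]⟩,⟨0,[(32,0)]⟩⟩,⟨false,1,⟨1,[(13,0),(2,1),
  (9,0)]⟩,⟨0,[(1,0),(22,0),(0,0)]⟩⟩,[]⟩) (.Q [0,0,0,0,0,-1,0,0,0,1,0,-1] (.p false [0,0,0,1] [1]
  (⟨0,[(16,0)]⟩,⟨1,[(15,0),(8,0),(0,0)]⟩) .k 1 (⟨0,[]⟩,⟨0,[]⟩) .k .k) (.R ⟨1,false,false,true,[1,0,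
  0,-1],[0,0,1],[1,1,0,0,0,0,0,0,-1],(⟨1,[(16,0),(8,0),(0,0)]⟩,⟨0,[(17,0)]⟩),(⟨0,[(26,0)]⟩,⟨0,[(25,
  0)]⟩),⟨0,[(0,0)]⟩,.k,.k,(.r (-1) ⟨1,[(14,0),(18,1),(0,0)]⟩ ⟨0,[(3,0),(33,0)]⟩),.k,(.r (-1) ⟨1,
  [(14,0),(9,1),(8,1),(0,0)]⟩ ⟨1,[(1,0),(1,0),(6,0),(1,0),(4,0),(1,0)]⟩),.k,⟨false,1,⟨1,[(14,0),(9,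
  1),(9,0)]⟩,⟨0,[(1,0),(8,0),(6,0)]⟩⟩,⟨true,0,⟨1,[(13,0),(2,0)]⟩,⟨0,[(17,0),(1,0)]⟩⟩,⟨false,0,⟨0,
  []⟩,⟨3,[(14,0),(0,0),(19,1)]⟩⟩,⟨false,0,⟨0,[(2,0),(9,0),(20,0)]⟩,⟨1,[(7,1),(6,0),(2,1),(17,0)]⟩⟩,
  ⟨true,0,⟨0,[(32,0)]⟩,⟨0,[(33,0)]⟩⟩,⟨false,0,⟨0,[(2,0),(9,0)]⟩,⟨1,[(7,1),(6,0),(2,1),(15,1),(1,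
  0)]⟩⟩,[.o ⟨false,0,⟨0,[(20,0)]⟩,⟨3,[(7,3),(6,0),(0,0),(19,1)]⟩⟩,.o ⟨false,1,⟨3,[(14,0),(0,0),(4,
  3),(14,1)]⟩,⟨0,[(7,0)]⟩⟩,.a ⟨true,0,⟨0,[(17,0)]⟩,⟨1,[(16,0),(8,0),(0,0)]⟩⟩ ⟨false,1,⟨3,[(14,2),(0,
  0)]⟩,⟨0,[(2,0),(14,0)]⟩⟩ ⟨true,0,⟨5,[(10,1),(1,3),(0,0),(2,2),(16,1)]⟩,⟨0,[(7,0),(9,0)]⟩⟩,.o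
  ⟨false,0,⟨1,[(6,0),(3,0),(6,1),(4,0),(8,0)]⟩,⟨7,[(14,0),(0,0),(0,3),(10,1),(6,3)]⟩⟩]⟩) (.R ⟨0,
  false,false,true,[1,0,0,-1],[0,0,1],[0,1,0,0,0,0,0,0,-1],(⟨1,[(16,0),(8,0),(0,0)]⟩,⟨0,[(17,0)]⟩),
  (⟨0,[(26,0)]⟩,⟨0,[(25,0)]⟩),⟨0,[(0,0)]⟩,.k,.k,(.r (-1) ⟨1,[(14,0),(18,1),(0,0)]⟩ ⟨0,[(3,0),(33,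
  0)]⟩),.k,.k,.k,⟨false,1,⟨1,[(14,0),(9,1),(9,0)]⟩,⟨0,[(1,0),(8,0),(6,0)]⟩⟩,⟨true,0,⟨1,[(13,0),(2,
  0)]⟩,⟨0,[(17,0),(1,0)]⟩⟩,⟨true,0,⟨0,[(37,0)]⟩,⟨0,[]⟩⟩,⟨false,0,⟨0,[(2,0),(9,0),(20,0)]⟩,⟨1,[(7,1),
  (6,0),(2,1),(17,0)]⟩⟩,⟨false,0,⟨0,[]⟩,⟨0,[]⟩⟩,⟨false,0,⟨0,[]⟩,⟨0,[]⟩⟩,[.o ⟨false,0,⟨0,[(20,0)]⟩,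
  ⟨3,[(7,3),(6,0),(0,0),(19,1)]⟩⟩,.o ⟨false,1,⟨3,[(14,0),(0,0),(4,3),(14,1)]⟩,⟨0,[(7,0)]⟩⟩,.a ⟨true,
  0,⟨0,[(17,0)]⟩,⟨1,[(16,0),(8,0),(0,0)]⟩⟩ ⟨false,1,⟨3,[(14,2),(0,0)]⟩,⟨0,[(2,0),(14,0)]⟩⟩ ⟨true,0,
  ⟨5,[(10,1),(1,3),(0,0),(2,2),(16,1)]⟩,⟨0,[(7,0),(9,0)]⟩⟩,.o ⟨false,0,⟨1,[(6,0),(3,0),(6,1),(4,0),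
  (8,0)]⟩,⟨7,[(14,0),(0,0),(0,3),(10,1),(6,3)]⟩⟩]⟩))))) (.Q [0,1,0,-1,0,0,0,0,1,0,0,-1] (.p false
  [0,0,0,1] [] (⟨0,[(13,0)]⟩,⟨1,[(12,0),(8,0),(0,0)]⟩) .k 0 (⟨0,[]⟩,⟨0,[]⟩) .k .k) (.R ⟨2,true,
  false,true,[0,1],[0,0,0,1],[1,1,1,1],(⟨0,[]⟩,⟨0,[]⟩),(⟨0,[(14,0)]⟩,⟨1,[(13,0),(8,0),(0,0)]⟩),⟨0,
  []⟩,.k,.k,.k,(.r 0 ⟨7,[(1,7),(3,1),(3,3),(3,3),(4,1),(0,2),(0,4),(8,1)]⟩ ⟨1,[(12,0),(17,1),(0,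
  0)]⟩),.k,.k,⟨false,0,⟨5,[(1,5),(1,1),(5,3),(3,2),(4,1),(3,0),(0,0)]⟩,⟨1,[(12,0),(17,1),(0,0)]⟩⟩,
  ⟨true,0,⟨1,[(13,0),(2,0),(2,0)]⟩,⟨0,[(14,0)]⟩⟩,⟨false,0,⟨0,[]⟩,⟨3,[(11,0),(0,0),(19,1)]⟩⟩,⟨true,0,
  ⟨0,[(0,0)]⟩,⟨2,[(1,2),(1,0),(5,1),(8,0),(3,1),(0,1)]⟩⟩,⟨true,0,⟨0,[(29,0)]⟩,⟨0,[(30,0)]⟩⟩,⟨false,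
  1,⟨7,[(11,0),(0,4),(0,3),(10,1)]⟩,⟨0,[(1,0),(20,0),(0,0)]⟩⟩,[]⟩) (.Q [0,0,0,0,0,1,0,0,0,0,0,-1]
  (.p false [0,0,0,1] [] (⟨0,[(14,0)]⟩,⟨1,[(13,0),(8,0),(0,0)]⟩) .k 0 (⟨0,[]⟩,⟨0,[]⟩) .k .k) (.R ⟨0,
  false,false,true,[0,0,0,1],[0,0,1],[0,1,0,0,0,0,0,0,1],(⟨0,[(15,0)]⟩,⟨1,[(14,0),(8,0),(0,0)]⟩),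
  (⟨0,[(24,0)]⟩,⟨0,[(23,0)]⟩),⟨0,[(0,0)]⟩,.k,.k,(.r (-1) ⟨1,[(13,0),(17,1),(0,0)]⟩ ⟨7,[(1,7),(6,1),
  (5,3),(1,1),(3,4),(0,2),(8,1),(4,1)]⟩),.k,.k,.k,⟨false,1,⟨1,[(13,0),(8,1),(9,0)]⟩,⟨1,[(1,1),(6,1),
  (5,0),(8,0),(0,0)]⟩⟩,⟨true,0,⟨0,[(9,0),(5,0)]⟩,⟨1,[(14,0),(2,0),(3,0)]⟩⟩,⟨true,0,⟨0,[(35,0)]⟩,⟨0,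
  []⟩⟩,⟨false,0,⟨2,[(1,2),(6,1),(1,0),(0,0),(19,1)]⟩,⟨1,[(5,1),(7,0),(0,0),(8,0),(0,0),(8,0)]⟩⟩,
  ⟨false,0,⟨0,[]⟩,⟨0,[]⟩⟩,⟨false,0,⟨0,[]⟩,⟨0,[]⟩⟩,[.o ⟨false,0,⟨0,[(18,0)]⟩,⟨3,[(5,3),(6,0),(0,0),
  (19,1)]⟩⟩,.o ⟨false,1,⟨3,[(12,0),(0,0),(4,3),(14,1)]⟩,⟨0,[(5,0)]⟩⟩,.a ⟨true,0,⟨1,[(14,0),(8,0),(0,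
  0)]⟩,⟨0,[(15,0)]⟩⟩ ⟨false,1,⟨3,[(12,0),(0,2)]⟩,⟨1,[(1,0),(0,0),(11,0),(16,0)]⟩⟩ ⟨true,0,⟨0,[(15,
  0),(2,0)]⟩,⟨1,[(5,1),(8,0),(8,0),(0,0)]⟩⟩,.o ⟨false,0,⟨1,[(14,0),(2,0),(2,0)]⟩,⟨1,[(15,1),(9,0),
  (6,0)]⟩⟩]⟩) (.R ⟨1,false,false,false,[1,0,0,-1],[1,-1],[1,0,0,0,0,0,0,0,-1],(⟨1,[(14,0),(8,0),(0,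
  0)]⟩,⟨0,[(15,0)]⟩),(⟨0,[(26,0)]⟩,⟨0,[(27,0)]⟩),⟨0,[(0,0),(13,0)]⟩,.k,.k,(.x 0 ⟨1,[(0,1),(13,0),(2,
  0),(2,0)]⟩ ⟨3,[(12,0),(0,0),(13,3),(4,1)]⟩),(.r 0 ⟨7,[(1,7),(6,1),(5,3),(1,1),(3,4),(0,2),(8,1),
  (4,1)]⟩ ⟨1,[(13,0),(17,1),(0,0)]⟩),.k,.k,⟨false,0,⟨5,[(1,4),(0,0),(5,0),(5,2),(1,0),(3,0),(7,0),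
  (1,1)]⟩,⟨1,[(13,0),(17,1),(0,0)]⟩⟩,⟨true,0,⟨1,[(14,0),(2,0),(2,0)]⟩,⟨0,[(15,0)]⟩⟩,⟨true,0,⟨0,[]⟩,
  ⟨0,[(35,0)]⟩⟩,⟨false,1,⟨1,[(3,0),(9,0),(0,0),(16,0),(1,0)]⟩,⟨0,[(1,0),(33,0)]⟩⟩,⟨false,1,⟨0,[(30,
  0),(2,0)]⟩,⟨0,[(31,0)]⟩⟩,⟨false,1,⟨0,[(2,0),(10,0),(0,0)]⟩,⟨0,[(1,0),(29,0),(3,0)]⟩⟩,[.o ⟨false,0,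
  ⟨0,[(3,0)]⟩,⟨3,[(12,0),(0,0),(16,3),(2,1)]⟩⟩,.o ⟨false,1,⟨1,[(25,0),(5,1),(1,0)]⟩,⟨0,[(30,0)]⟩⟩,
  .a ⟨true,0,⟨0,[(15,0)]⟩,⟨1,[(14,0),(8,0),(0,0)]⟩⟩ ⟨false,0,⟨1,[(1,0),(0,0),(11,0),(16,0)]⟩,⟨3,
  [(12,0),(0,2)]⟩⟩ ⟨true,0,⟨1,[(3,0),(10,0),(16,0)]⟩,⟨0,[(15,0),(14,0)]⟩⟩,.o ⟨false,0,⟨1,[(4,0),(3,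
  0),(6,1),(4,0),(8,0)]⟩,⟨7,[(12,0),(0,0),(0,3),(10,1),(6,3)]⟩⟩]⟩)))) (.R ⟨1,false,false,false,[0,0,
  1],[1,-1],[0,1,0,-1,0,0,0,1],(⟨0,[(21,0)]⟩,⟨0,[(20,0)]⟩),(⟨0,[(23,0)]⟩,⟨0,[(24,0)]⟩),⟨0,[(4,0)]⟩,
  .k,.k,.k,.k,.k,.k,⟨false,0,⟨0,[(0,0),(4,0)]⟩,⟨1,[(19,1),(9,0),(0,0)]⟩⟩,⟨true,0,⟨0,[(14,0)]⟩,⟨1,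
  [(0,0),(7,0),(19,0)]⟩⟩,⟨false,0,⟨0,[(28,0)]⟩,⟨0,[(27,0),(2,0)]⟩⟩,⟨true,0,⟨0,[(2,0),(25,0)]⟩,⟨0,
  [(7,0)]⟩⟩,⟨true,0,⟨0,[(32,0)]⟩,⟨0,[]⟩⟩,⟨true,0,⟨0,[(2,0)]⟩,⟨0,[(7,0),(20,0)]⟩⟩,[.a ⟨true,0,⟨0,
  [(28,0)]⟩,⟨0,[(0,0)]⟩⟩ ⟨true,0,⟨0,[(0,0),(4,0),(22,0)]⟩,⟨0,[(3,0),(22,0)]⟩⟩ ⟨false,1,⟨3,[(2,1),(2,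
  1),(12,1),(9,1),(0,2),(0,0)]⟩,⟨0,[(0,0),(5,0)]⟩⟩,.o ⟨false,1,⟨1,[(22,0),(5,1),(1,0)]⟩,⟨0,[(27,
  0)]⟩⟩,.o ⟨false,0,⟨0,[(6,0)]⟩,⟨1,[(18,1),(3,0),(6,0)]⟩⟩,.o ⟨false,0,⟨0,[(17,0)]⟩,⟨0,[(14,0),(14,
  0)]⟩⟩]⟩))))

theorem ok17 : chk (cU (-1) false 10) t17 r10 = true := by decide +kernel

noncomputable def t18 : Tre :=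
  .I [0,0,0,-1,0,0,0,1] t16 t17

theorem ok18 : chk (cU (-1) false 10) t18 r8 = true :=
  chk_I (e' := [1,0,0,1,0,0,0,-1]) (by decide +kernel) (by decide +kernel) ok16 ok17

noncomputable def t19 : Tre :=
  .Q [0,0,0,0,0,1,0,0,0,0,-1] (.ed true [1,-1,1] .k) t15 t18

theorem ok19 : chk (cU (-1) false 10) t19 r2 = true :=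
  chk_Q (e' := [0,0,0,0,0,-1,0,0,0,0,1]) (by decide +kernel) (by decide +kernel) ok15 ok18

noncomputable def t20 : Tre :=
  .Q [0,-1,0,1,0,0,0,-1,0,1] (.pp false [-1,1]) t12 t19

theorem ok20 : chk (cU (-1) false 10) t20 r1 = true :=
  chk_Q (e' := [0,1,0,-1,0,0,0,1,0,-1]) (by decide +kernel) (by decide +kernel) ok12 ok19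

noncomputable def t21 : Tre :=
  .Q [0,0,0,0,0,0,-1,0,0,0,1] (.p true [0,0,1] [] (⟨0,[(14,0)]⟩,⟨0,[(13,0)]⟩) .k 0 (⟨0,[]⟩,⟨0,[]⟩)
  .k .k) t1 t20

theorem ok21 : chk (cU (-1) false 10) t21 r0 = true :=
  chk_Q (e' := [0,0,0,0,0,0,1,0,0,0,-1]) (by decide +kernel) (by decide +kernel) ok1 ok20

noncomputable def t22 : Tre :=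
  .Q [0,-1,0,-1,0,0,-1,-1,0,-1,1] (.p true [0,0,1] [1] (⟨0,[(13,0)]⟩,⟨0,[(12,0)]⟩) .k 1 (⟨0,[]⟩,⟨0,
  []⟩) .k .k) t0 t21

theorem ok22 : chk (cU (-1) false 10) t22 base = true :=
  chk_Q (e' := [0,1,0,1,0,0,1,1,0,1,-1]) (by decide +kernel) (by decide +kernel) ok0 ok21

theorem ok : chkB (cU (-1) false 10) (fax (fcU (-1)) false 35 (-1) 10 false (tU false)) t22 base = true :=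
  chkB_of (by decide +kernel) ok22

end Helper11.CT.Tm1_35_m1_m1_v
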