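import Pool.Agent.Helper11.CT.Cfg
import Pool.Agent.Helper11.CT.Cut

set_option autoImplicit false
set_option linter.all false

namespace Helper11.CT.Tm1_3_m1_1_v2

open Helper11.CT

noncomputable def base : List Con :=
  [(false,[0,0,0,0,0,-2,0,0,2,-2]),
  (false,[0,0,0,0,0,0,0,0,0,1]),
  (false,[0,1,0,0,0,-1,-1,0,1,-2]),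
  (false,[0,0,1,0,0,-1,0,0,1,-2]),
  (false,[0,1,0,0,0,1,1,0,-1]),
  (false,[0,1,0,0,0,-1,-1,0,1]),
  (false,[0,0,1,0,0,1,0,0,-1]),
  (false,[0,0,1,0,0,-1,0,0,1]),
  (true,[0,0,0,0,0,0,1]),
  (false,[0,0,0,0,0,0,0,0,-1,2]),
  (false,[0,0,0,0,0,0,0,0,1]),
  (false,[0,0,0,0,0,0,0,2,0,-4]),
  (false,[0,0,0,0,-1,0,0,0,0,2]),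
  (true,[0,0,0,0,1]),
  (true,[1,-1,1]),
  (true,[0,1,0,1]),
  (true,[0,0,0,-1]),
  (true,[0,0,-2,0,0,0,0,2]),
  (true,[0,-2,0,0,0,0,0,2]),
  (true,[-1,0,1]),
  (true,[-1,1])]

noncomputable def t0 : Tre :=
  (.Q [0,1,0,0,0,0,0,-1,0,1] (.p true [0,0,0,1] [] (⟨0,[(1,0)]⟩,⟨0,[(1,0)]⟩) .k 0 (⟨0,[]⟩,⟨0,[]⟩)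
  .k .k) (.K ⟨1,[0,0,0,1],0,0,(⟨0,[(2,0)]⟩,⟨0,[(2,0)]⟩),.k,(.r 0 ⟨1,[(17,1),(0,0)]⟩ ⟨1,[(7,0),(0,0),
  (7,1),(2,0)]⟩),(.r 0 ⟨1,[(7,0),(0,0),(7,1),(2,0)]⟩ ⟨1,[(17,1),(0,0)]⟩),.k,.k,[⟨1,[(7,0),(0,0),(1,
  0),(0,0)]⟩,⟨1,[(4,0),(2,0)]⟩,⟨0,[(0,0)]⟩,⟨1,[(10,0),(0,0),(7,0)]⟩]⟩) (.Q [0,-1,0,1,0,0,0,1,0,1]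
  (.p true [0,0,0,1] [] (⟨0,[(2,0)]⟩,⟨0,[(2,0)]⟩) .k 0 (⟨0,[]⟩,⟨0,[]⟩) .k .k) (.Q [0,0,0,-2,0,0,0,0,
  0,-2] (.pp true [-1,1]) (.Q [0,0,1,0,0,0,0,0,0,-2] (.pp true [-1,1]) (.Q [0,0,0,1,0,0,0,0,0,2]
  (.pp false [-1,1]) (.R ⟨2,false,false,false,[0,1],[1,-1],[],(⟨0,[]⟩,⟨0,[]⟩),(⟨0,[(17,0)]⟩,⟨0,[(18,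
  0)]⟩),⟨0,[]⟩,.k,.k,.k,(.r 0 ⟨0,[(0,1),(0,1)]⟩ ⟨0,[(21,1),(0,0)]⟩),.k,.k,⟨true,0,⟨0,[(0,0),(0,0)]⟩,
  ⟨0,[(21,0)]⟩⟩,⟨false,0,⟨0,[(1,0)]⟩,⟨0,[(0,0),(20,0),(0,0)]⟩⟩,⟨false,1,⟨1,[(21,1),(0,0),(0,0)]⟩,⟨0,
  [(0,0),(0,0)]⟩⟩,⟨true,0,⟨0,[(2,0)]⟩,⟨0,[(0,0),(19,0)]⟩⟩,⟨false,1,⟨1,[(22,0),(0,0)]⟩,⟨1,[(11,0),(0,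
  0)]⟩⟩,⟨false,1,⟨3,[(2,1),(13,0),(6,2),(1,1)]⟩,⟨0,[(0,0)]⟩⟩,[.a ⟨true,0,⟨0,[(21,0)]⟩,⟨0,[(0,0)]⟩⟩
  ⟨false,1,⟨1,[(22,0),(0,0),(1,1)]⟩,⟨0,[]⟩⟩ ⟨true,0,⟨1,[(2,0),(5,0),(2,0)]⟩,⟨0,[(0,0)]⟩⟩,.o ⟨false,
  1,⟨3,[(2,1),(13,0),(6,2),(1,1)]⟩,⟨0,[(20,0)]⟩⟩,.o ⟨false,1,⟨1,[(22,0),(0,0),(1,1)]⟩,⟨0,[(1,0)]⟩⟩,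
  .e ⟨false,1,⟨1,[(22,0),(0,0)]⟩,⟨1,[(11,0),(0,0)]⟩⟩ ⟨false,1,⟨3,[(2,1),(13,0),(6,2),(1,1)]⟩,⟨0,[(0,
  0)]⟩⟩]⟩) (.Q [0,0,0,0,1,0,0,0,0,-1] (.p false [0,0,0,1] [] (⟨0,[(6,0)]⟩,⟨0,[(6,0)]⟩) .k 0 (⟨0,[]⟩,
  ⟨0,[]⟩) .k .k) (.R ⟨0,false,false,false,[0,0,0,1],[1,-1],[1,0,0,0,0,0,0,1],(⟨0,[(7,0)]⟩,⟨0,[(7,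
  0)]⟩),(⟨0,[(18,0)]⟩,⟨0,[(19,0)]⟩),⟨0,[(0,0)]⟩,.k,.k,(.r 0 ⟨1,[(22,1),(0,0)]⟩ ⟨1,[(12,0),(0,0),(7,
  1),(2,0)]⟩),(.r 0 ⟨1,[(12,0),(0,0),(7,1),(2,0)]⟩ ⟨1,[(22,1),(0,0)]⟩),.k,.k,⟨false,0,⟨1,[(21,1),(2,
  0)]⟩,⟨1,[(22,1),(0,0)]⟩⟩,⟨true,0,⟨1,[(9,0),(2,0)]⟩,⟨0,[(7,0)]⟩⟩,⟨true,0,⟨0,[]⟩,⟨0,[(26,0)]⟩⟩,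
  ⟨false,1,⟨1,[(3,0),(20,0)]⟩,⟨0,[(4,0),(21,0)]⟩⟩,⟨false,0,⟨0,[]⟩,⟨0,[]⟩⟩,⟨false,0,⟨0,[]⟩,⟨0,[]⟩⟩,
  [.o ⟨false,0,⟨0,[(1,0)]⟩,⟨0,[(21,0),(2,0),(1,0)]⟩⟩,.o ⟨false,1,⟨3,[(3,1),(13,0),(6,2),(1,1)]⟩,⟨0,
  [(21,0)]⟩⟩,.a ⟨true,0,⟨0,[(7,0)]⟩,⟨0,[(7,0)]⟩⟩ ⟨false,0,⟨1,[(24,0)]⟩,⟨1,[(24,0),(1,1)]⟩⟩ ⟨true,0,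
  ⟨1,[(3,0)]⟩,⟨1,[(15,0),(0,0),(4,1)]⟩⟩,.o ⟨false,0,⟨1,[(9,0),(2,0)]⟩,⟨3,[(17,0),(5,1),(0,0),(1,
  1)]⟩⟩]⟩) (.R ⟨1,false,false,false,[0,0,0,1],[1,-1],[1,0,0,0,0,0,0,1],(⟨0,[(7,0)]⟩,⟨0,[(7,0)]⟩),
  (⟨0,[(18,0)]⟩,⟨0,[(19,0)]⟩),⟨0,[(0,0)]⟩,.k,.k,(.r 0 ⟨1,[(22,1),(0,0)]⟩ ⟨1,[(12,0),(0,0),(7,1),(2,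
  0)]⟩),(.r 0 ⟨1,[(12,0),(0,0),(7,1),(2,0)]⟩ ⟨1,[(22,1),(0,0)]⟩),.k,.k,⟨false,0,⟨1,[(21,1),(2,0)]⟩,
  ⟨1,[(22,1),(0,0)]⟩⟩,⟨true,0,⟨1,[(9,0),(2,0)]⟩,⟨0,[(7,0)]⟩⟩,⟨true,0,⟨0,[]⟩,⟨0,[(26,0)]⟩⟩,⟨false,1,
  ⟨1,[(3,0),(20,0)]⟩,⟨0,[(4,0),(21,0)]⟩⟩,⟨false,1,⟨0,[(21,0),(2,0)]⟩,⟨0,[(22,0)]⟩⟩,⟨false,1,⟨0,[(5,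
  0)]⟩,⟨1,[(15,0),(0,0),(7,0),(1,1)]⟩⟩,[.o ⟨false,0,⟨0,[(1,0)]⟩,⟨0,[(21,0),(2,0),(1,0)]⟩⟩,.o ⟨false,
  1,⟨3,[(3,1),(13,0),(6,2),(1,1)]⟩,⟨0,[(21,0)]⟩⟩,.a ⟨true,0,⟨0,[(7,0)]⟩,⟨0,[(7,0)]⟩⟩ ⟨false,0,⟨1,
  [(24,0)]⟩,⟨1,[(24,0),(1,1)]⟩⟩ ⟨true,0,⟨1,[(3,0)]⟩,⟨1,[(15,0),(0,0),(4,1)]⟩⟩,.o ⟨false,0,⟨1,[(9,0),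
  (2,0)]⟩,⟨3,[(17,0),(5,1),(0,0),(1,1)]⟩⟩]⟩))) (.R ⟨2,true,false,false,[0,1],[1,-1],[0,1,1],(⟨0,[]⟩,
  ⟨0,[]⟩),(⟨0,[(16,0)]⟩,⟨0,[(17,0)]⟩),⟨0,[]⟩,.k,.k,.k,(.r 0 ⟨0,[(18,1),(0,1)]⟩ ⟨0,[(20,1),(0,0)]⟩),
  .k,.k,⟨false,0,⟨1,[(10,0),(0,0),(7,1)]⟩,⟨1,[(0,1),(0,0),(1,1),(17,0)]⟩⟩,⟨true,0,⟨0,[(7,0),(2,0)]⟩,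
  ⟨0,[(0,0)]⟩⟩,⟨false,0,⟨0,[(20,0)]⟩,⟨0,[(19,0),(2,0)]⟩⟩,⟨true,0,⟨0,[(1,0)]⟩,⟨0,[(0,0),(17,0),(0,
  1)]⟩⟩,⟨true,0,⟨0,[(24,0)]⟩,⟨0,[]⟩⟩,⟨false,1,⟨3,[(1,1),(13,0),(6,2),(1,1)]⟩,⟨0,[(0,0),(17,0),(0,
  0)]⟩⟩,[]⟩)) (.Q [0,0,0,0,1,0,0,0,-1] (.ed true [1,-1,1] .k) (.Q [0,-1,0,1,0,-1,-1,0,1,2] (.p true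
  [1,-1,1] [] (⟨0,[(14,0),(1,0)]⟩,⟨0,[(0,0)]⟩) .k 0 (⟨0,[]⟩,⟨0,[]⟩) .k .k) (.K ⟨1,[0,1,-1],0,0,(⟨0,
  [(1,0)]⟩,⟨0,[(15,0),(1,0)]⟩),.k,.k,(.r 0 ⟨0,[(2,0),(4,0),(3,0),(7,0)]⟩ ⟨0,[(13,0),(7,1),(0,0)]⟩),
  .k,.k,[⟨1,[(11,2),(0,0)]⟩,⟨3,[(0,0),(4,0),(4,0),(2,1),(7,0)]⟩,⟨0,[(9,0),(11,0)]⟩,⟨0,[(0,0)]⟩]⟩)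
  (.Q [0,0,0,0,2,0,0,0,0,-2] (.pp true [-1,1]) (.R ⟨0,false,false,true,[0,0,0,1],[1,-1],[0,1,0,0,0,
  0,0,1],(⟨0,[(7,0)]⟩,⟨0,[(7,0)]⟩),(⟨0,[(18,0)]⟩,⟨0,[(19,0)]⟩),⟨1,[(0,0)]⟩,.k,.k,(.r 0 ⟨1,[(22,1),
  (0,0)]⟩ ⟨1,[(12,0),(0,0),(7,1),(2,0)]⟩),(.r 0 ⟨1,[(12,0),(0,0),(7,1),(2,0)]⟩ ⟨1,[(22,1),(0,0)]⟩),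
  .k,.k,⟨false,0,⟨1,[(21,1),(2,0)]⟩,⟨1,[(22,1),(0,0)]⟩⟩,⟨true,0,⟨1,[(9,0),(2,0)]⟩,⟨0,[(7,0)]⟩⟩,
  ⟨true,0,⟨0,[(26,0)]⟩,⟨0,[]⟩⟩,⟨false,1,⟨1,[(1,0),(9,0),(10,0),(1,0)]⟩,⟨0,[(4,0)]⟩⟩,⟨false,0,⟨0,[]⟩,
  ⟨0,[]⟩⟩,⟨false,0,⟨0,[]⟩,⟨0,[]⟩⟩,[.o ⟨false,0,⟨1,[(1,0),(6,0),(13,0)]⟩,⟨0,[(21,0),(2,0)]⟩⟩,.e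
  ⟨false,0,⟨1,[(23,0)]⟩,⟨1,[(24,0),(1,1)]⟩⟩ ⟨false,1,⟨1,[(1,0),(9,0),(10,0),(0,0),(0,0)]⟩,⟨1,[(3,
  0)]⟩⟩,.a ⟨true,0,⟨0,[(7,0)]⟩,⟨0,[(7,0)]⟩⟩ ⟨false,0,⟨1,[(24,0),(1,1)]⟩,⟨1,[(24,0)]⟩⟩ ⟨true,0,⟨1,
  [(1,0),(9,0),(10,0)]⟩,⟨1,[(3,0)]⟩⟩,.o ⟨false,0,⟨1,[(9,0),(2,0)]⟩,⟨3,[(17,0),(5,1),(0,0),(1,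
  1)]⟩⟩]⟩) (.R ⟨1,false,false,true,[0,0,0,1],[1,-1],[1,1,0,0,0,0,0,1],(⟨0,[(7,0)]⟩,⟨0,[(7,0)]⟩),(⟨0,
  [(18,0)]⟩,⟨0,[(19,0)]⟩),⟨1,[(0,0)]⟩,.k,.k,(.r 0 ⟨1,[(22,1),(0,0)]⟩ ⟨1,[(12,0),(0,0),(7,1),(2,
  0)]⟩),(.r 0 ⟨1,[(12,0),(0,0),(7,1),(2,0)]⟩ ⟨1,[(22,1),(0,0)]⟩),.k,.k,⟨false,0,⟨1,[(21,1),(2,0)]⟩,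
  ⟨1,[(22,1),(0,0)]⟩⟩,⟨true,0,⟨1,[(9,0),(2,0)]⟩,⟨0,[(7,0)]⟩⟩,⟨false,0,⟨0,[]⟩,⟨0,[(24,0),(1,0)]⟩⟩,
  ⟨false,1,⟨1,[(1,0),(9,0),(10,0),(1,0)]⟩,⟨0,[(4,0)]⟩⟩,⟨true,0,⟨0,[(21,0)]⟩,⟨0,[(22,0)]⟩⟩,⟨false,1,
  ⟨3,[(17,0),(6,0),(1,1)]⟩,⟨1,[(15,0),(0,0),(7,0)]⟩⟩,[.o ⟨false,0,⟨1,[(1,0),(6,0),(13,0)]⟩,⟨0,[(21,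
  0),(2,0)]⟩⟩,.e ⟨false,0,⟨1,[(23,0)]⟩,⟨1,[(24,0),(1,1)]⟩⟩ ⟨false,1,⟨1,[(1,0),(9,0),(10,0),(0,0),(0,
  0)]⟩,⟨1,[(3,0)]⟩⟩,.a ⟨true,0,⟨0,[(7,0)]⟩,⟨0,[(7,0)]⟩⟩ ⟨false,0,⟨1,[(24,0),(1,1)]⟩,⟨1,[(24,0)]⟩⟩
  ⟨true,0,⟨1,[(1,0),(9,0),(10,0)]⟩,⟨1,[(3,0)]⟩⟩,.o ⟨false,0,⟨1,[(9,0),(2,0)]⟩,⟨3,[(17,0),(5,1),(0,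
  0),(1,1)]⟩⟩]⟩))) (.Q [0,-1,0,-1,0,1,1,0,-1,2] (.p false [0,0,1] [1] (⟨0,[(14,0)]⟩,⟨0,[(13,0)]⟩)
  .k 1 (⟨0,[]⟩,⟨0,[]⟩) .k .k) (.K ⟨1,[0,-1,1],0,0,(⟨0,[(1,0)]⟩,⟨0,[(14,0),(3,0)]⟩),.k,(.r (-1) ⟨1,
  [(0,0),(4,0),(3,0),(11,2),(0,1)]⟩ ⟨0,[(2,0),(4,0),(3,0),(7,0)]⟩),.k,.k,.k,[⟨5,[(0,1),(1,0),(2,2),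
  (4,1)]⟩,⟨1,[(11,2),(0,0)]⟩,⟨1,[(2,0),(4,0),(2,0)]⟩,⟨0,[(0,0)]⟩]⟩) (.Q [0,0,0,0,0,-1,0,0,1,-2] (.p
  true [0,0,1] [1] (⟨0,[(15,0)]⟩,⟨0,[(14,0)]⟩) .k 1 (⟨0,[]⟩,⟨0,[]⟩) .k .k) (.Q [0,0,0,0,-2,0,0,0,0,
  2] (.pp false [-1,1]) (.Q [0,1,0,-1,0,0,0,0,0,-2] (.pp true [-1,1]) (.R ⟨1,false,false,true,[0,0,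
  0,1],[1,-1],[1,1,0,0,0,0,0,1],(⟨0,[(9,0)]⟩,⟨0,[(9,0)]⟩),(⟨0,[(20,0)]⟩,⟨0,[(21,0)]⟩),⟨1,[(1,0)]⟩,
  .k,.k,(.r 0 ⟨1,[(24,1),(0,0)]⟩ ⟨1,[(14,0),(0,0),(7,1),(2,0)]⟩),(.r 0 ⟨1,[(14,0),(0,0),(7,1),(2,
  0)]⟩ ⟨1,[(24,1),(0,0)]⟩),.k,.k,⟨false,0,⟨1,[(23,1),(2,0)]⟩,⟨1,[(24,1),(0,0)]⟩⟩,⟨true,0,⟨1,[(11,0),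
  (2,0)]⟩,⟨0,[(9,0)]⟩⟩,⟨false,0,⟨0,[]⟩,⟨0,[(26,0),(1,0)]⟩⟩,⟨false,1,⟨3,[(19,0),(4,3),(1,0),(1,1)]⟩,
  ⟨0,[(6,0)]⟩⟩,⟨true,0,⟨0,[(23,0)]⟩,⟨0,[(24,0)]⟩⟩,⟨false,1,⟨3,[(19,0),(6,0),(1,1)]⟩,⟨1,[(17,0),(0,
  0),(7,0)]⟩⟩,[.o ⟨false,0,⟨0,[(0,0)]⟩,⟨0,[(23,0),(2,0)]⟩⟩,.e ⟨false,0,⟨1,[(25,0)]⟩,⟨1,[(26,0),(1,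
  1)]⟩⟩ ⟨false,1,⟨3,[(19,0),(4,3),(0,1),(0,0),(1,1)]⟩,⟨1,[(5,0)]⟩⟩,.a ⟨true,0,⟨0,[(9,0)]⟩,⟨0,[(9,
  0)]⟩⟩ ⟨false,0,⟨1,[(26,0),(1,1)]⟩,⟨1,[(26,0)]⟩⟩ ⟨true,0,⟨1,[(0,0),(23,0),(3,0)]⟩,⟨1,[(5,0)]⟩⟩,.o
  ⟨false,0,⟨1,[(11,0),(2,0)]⟩,⟨3,[(19,0),(5,1),(0,0),(1,1)]⟩⟩]⟩) (.Q [0,0,0,0,0,-1,-1,0,1,-1] (.p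
  true [0,0,1] [0,0,0,1] (⟨0,[(18,0)]⟩,⟨0,[(17,0)]⟩) .k 2 (⟨0,[(9,0)]⟩,⟨0,[(9,0)]⟩) .k (.r (-1) ⟨3,
  [(12,1),(2,1),(0,1),(8,0),(0,0)]⟩ ⟨1,[(0,1),(9,1),(3,1),(9,1),(0,0)]⟩)) (.R ⟨1,false,false,true,
  [0,0,0,1],[1,0,-1],[0,1,0,-1,0,0,0,1],(⟨0,[(10,0)]⟩,⟨0,[(10,0)]⟩),(⟨0,[(18,0)]⟩,⟨0,[(19,0)]⟩),⟨1,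
  [(2,0)]⟩,.k,.k,(.r 0 ⟨1,[(25,1),(0,0)]⟩ ⟨1,[(15,0),(0,0),(7,1),(2,0)]⟩),.k,(.r 0 ⟨1,[(17,1),(7,1),
  (0,0)]⟩ ⟨5,[(4,1),(2,3),(6,3),(0,5),(11,0)]⟩),.k,⟨false,0,⟨1,[(17,1),(7,1),(0,0)]⟩,⟨1,[(0,1),(5,
  0),(8,1),(10,0)]⟩⟩,⟨true,0,⟨1,[(9,0)]⟩,⟨1,[(15,1),(2,0),(0,0)]⟩⟩,⟨false,0,⟨0,[(25,0)]⟩,⟨0,[(24,0),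
  (2,0)]⟩⟩,⟨false,1,⟨5,[(0,1),(13,3),(5,0),(6,1)]⟩,⟨0,[(1,0),(6,0),(4,0),(11,0)]⟩⟩,⟨true,0,⟨0,[(29,
  0)]⟩,⟨0,[]⟩⟩,⟨false,1,⟨2,[(4,1),(2,0),(6,0),(12,0)]⟩,⟨0,[(1,0),(6,0),(4,0),(11,1)]⟩⟩,[.o ⟨false,0,
  ⟨0,[(11,0)]⟩,⟨0,[(13,0),(13,0)]⟩⟩,.a ⟨true,0,⟨2,[(0,1),(0,0),(12,0),(10,0)]⟩,⟨0,[(1,0),(11,0),(11,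
  0)]⟩⟩ ⟨false,0,⟨1,[(25,1),(0,0)]⟩,⟨1,[(24,1),(2,0)]⟩⟩ ⟨true,0,⟨0,[(0,0)]⟩,⟨1,[(15,1),(1,1),(0,0),
  (0,0)]⟩⟩,.e ⟨false,0,⟨1,[(25,1),(1,0),(1,1)]⟩,⟨1,[(6,0),(1,1)]⟩⟩ ⟨false,0,⟨0,[(0,0)]⟩,⟨1,[(13,1),
  (4,0),(0,0),(7,1)]⟩⟩,.o ⟨false,0,⟨1,[(12,0),(2,0)]⟩,⟨3,[(20,0),(5,1),(0,0),(1,1)]⟩⟩]⟩) (.R ⟨1,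
  false,false,true,[0,0,0,1],[1,0,-1],[0,1,0,-1,0,0,0,1],(⟨0,[(10,0)]⟩,⟨0,[(10,0)]⟩),(⟨0,[(18,0)]⟩,
  ⟨0,[(19,0)]⟩),⟨1,[(2,0)]⟩,.k,.k,(.r 0 ⟨1,[(25,1),(0,0)]⟩ ⟨1,[(15,0),(0,0),(7,1),(2,0)]⟩),.k,(.r 0
  ⟨1,[(17,1),(7,1),(0,0)]⟩ ⟨5,[(4,1),(2,3),(6,3),(0,5),(11,0)]⟩),.k,⟨false,0,⟨1,[(17,1),(7,1),(0,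
  0)]⟩,⟨1,[(1,1),(9,1),(3,1),(10,0)]⟩⟩,⟨true,0,⟨1,[(9,0)]⟩,⟨1,[(15,1),(2,0),(0,0)]⟩⟩,⟨false,0,⟨0,
  [(25,0)]⟩,⟨0,[(24,0),(2,0)]⟩⟩,⟨false,1,⟨1,[(11,0),(2,0),(12,0)]⟩,⟨1,[(0,1),(26,0)]⟩⟩,⟨true,0,⟨0,
  [(29,0)]⟩,⟨0,[]⟩⟩,⟨false,1,⟨2,[(4,1),(2,0),(6,0),(12,0)]⟩,⟨1,[(0,1),(24,1),(1,0)]⟩⟩,[.o ⟨false,0,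
  ⟨0,[(11,0)]⟩,⟨0,[(13,0),(13,0)]⟩⟩,.e ⟨false,0,⟨1,[(25,1),(0,0)]⟩,⟨1,[(24,1),(2,0)]⟩⟩ ⟨false,1,⟨1,
  [(11,0),(2,0),(11,0),(0,0)]⟩,⟨0,[(0,0)]⟩⟩,.a ⟨true,0,⟨0,[(10,0)]⟩,⟨0,[(10,0)]⟩⟩ ⟨false,0,⟨1,[(25,
  1),(1,0),(1,1)]⟩,⟨1,[(6,0),(1,1)]⟩⟩ ⟨true,0,⟨1,[(11,0),(2,0)]⟩,⟨0,[(0,0)]⟩⟩,.o ⟨false,0,⟨1,[(12,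
  0),(2,0)]⟩,⟨3,[(20,0),(5,1),(0,0),(1,1)]⟩⟩]⟩))) (.Q [0,1,0,-1,0,0,0,0,0,-2] (.pp true [-1,1]) (.R
  ⟨0,false,false,true,[0,0,0,1],[1,-1],[0,1,0,0,0,0,0,1],(⟨0,[(9,0)]⟩,⟨0,[(9,0)]⟩),(⟨0,[(20,0)]⟩,⟨0,
  [(21,0)]⟩),⟨1,[(1,0)]⟩,.k,.k,(.r 0 ⟨1,[(24,1),(0,0)]⟩ ⟨1,[(14,0),(0,0),(7,1),(2,0)]⟩),(.r 0 ⟨1,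
  [(14,0),(0,0),(7,1),(2,0)]⟩ ⟨1,[(24,1),(0,0)]⟩),.k,.k,⟨false,0,⟨1,[(23,1),(2,0)]⟩,⟨1,[(24,1),(0,
  0)]⟩⟩,⟨true,0,⟨1,[(11,0),(2,0)]⟩,⟨0,[(9,0)]⟩⟩,⟨true,0,⟨0,[(28,0)]⟩,⟨0,[]⟩⟩,⟨false,1,⟨3,[(19,0),(4,
  3),(1,0),(1,1)]⟩,⟨0,[(6,0)]⟩⟩,⟨false,0,⟨0,[]⟩,⟨0,[]⟩⟩,⟨false,0,⟨0,[]⟩,⟨0,[]⟩⟩,[.o ⟨false,0,⟨0,[(0,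
  0)]⟩,⟨0,[(23,0),(2,0)]⟩⟩,.e ⟨false,0,⟨1,[(25,0)]⟩,⟨1,[(26,0),(1,1)]⟩⟩ ⟨false,1,⟨3,[(19,0),(4,3),
  (0,1),(0,0),(1,1)]⟩,⟨1,[(5,0)]⟩⟩,.a ⟨true,0,⟨0,[(9,0)]⟩,⟨0,[(9,0)]⟩⟩ ⟨false,0,⟨1,[(26,0),(1,1)]⟩,
  ⟨1,[(26,0)]⟩⟩ ⟨true,0,⟨1,[(0,0),(23,0),(3,0)]⟩,⟨1,[(5,0)]⟩⟩,.o ⟨false,0,⟨1,[(11,0),(2,0)]⟩,⟨3,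
  [(19,0),(5,1),(0,0),(1,1)]⟩⟩]⟩) (.R ⟨0,false,false,true,[1,0,-1],[1,-1],[1,0,1],(⟨0,[(17,0)]⟩,⟨0,
  [(18,0)]⟩),(⟨0,[(20,0)]⟩,⟨0,[(21,0)]⟩),⟨0,[(1,0),(2,0)]⟩,.k,.k,.k,.k,.k,.k,⟨false,0,⟨0,[(0,0),(1,
  0),(11,0)]⟩,⟨0,[(24,0),(0,0),(2,0)]⟩⟩,⟨true,0,⟨0,[(14,0)]⟩,⟨1,[(8,0),(8,0),(0,0)]⟩⟩,⟨false,0,⟨0,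
  [(16,0),(5,0)]⟩,⟨0,[(0,0),(9,0),(3,0),(9,0),(0,0)]⟩⟩,⟨true,0,⟨0,[(12,0),(11,0)]⟩,⟨0,[(0,0),(9,
  0)]⟩⟩,⟨false,0,⟨0,[]⟩,⟨0,[]⟩⟩,⟨false,0,⟨0,[]⟩,⟨0,[]⟩⟩,[.e ⟨false,0,⟨0,[]⟩,⟨1,[(25,0),(0,0),(1,
  1)]⟩⟩ ⟨false,1,⟨0,[(14,0),(9,0),(0,0),(2,0)]⟩,⟨0,[(0,0),(1,0)]⟩⟩,.a ⟨true,0,⟨0,[(24,0)]⟩,⟨1,[(5,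
  0),(11,0),(0,0)]⟩⟩ ⟨true,0,⟨0,[(22,0)]⟩,⟨0,[(28,0)]⟩⟩ ⟨false,1,⟨0,[(14,0),(9,0),(0,0)]⟩,⟨1,[(5,0),
  (2,0)]⟩⟩,.o ⟨false,0,⟨0,[(2,0)]⟩,⟨1,[(14,1),(10,0),(0,0),(1,1)]⟩⟩,.o ⟨false,0,⟨0,[(11,0)]⟩,⟨0,
  [(14,0),(10,0)]⟩⟩]⟩))) (.K ⟨0,[0,-1,1],0,0,(⟨0,[(2,0)]⟩,⟨0,[(15,0),(3,0)]⟩),.k,(.r (-1) ⟨0,[(14,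
  0),(7,1),(0,0)]⟩ ⟨2,[(1,1),(1,1),(7,0),(0,2),(7,2)]⟩),.k,.k,.k,[⟨1,[(6,0),(8,0),(0,0)]⟩,⟨0,[(0,
  0)]⟩,⟨2,[(1,0),(1,0),(7,1)]⟩,⟨0,[(10,0),(11,0)]⟩]⟩))))) (.R ⟨2,true,false,true,[0,1],[0,0,0,1],[1,
  1,1,1],(⟨0,[]⟩,⟨0,[]⟩),(⟨0,[(3,0)]⟩,⟨0,[(3,0)]⟩),⟨0,[]⟩,.k,.k,.k,(.r (-1) ⟨1,[(8,0),(0,0),(7,1),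
  (2,0)]⟩ ⟨1,[(18,1),(0,0)]⟩),.k,.k,⟨false,1,⟨1,[(17,1),(2,0)]⟩,⟨1,[(18,1),(0,0)]⟩⟩,⟨true,0,⟨1,[(5,
  0),(2,0)]⟩,⟨0,[(3,0)]⟩⟩,⟨false,0,⟨0,[]⟩,⟨0,[(20,0),(1,0)]⟩⟩,⟨true,(-1),⟨0,[(0,0)]⟩,⟨1,[(11,0),(0,
  0),(4,1),(2,0)]⟩⟩,⟨true,0,⟨0,[(17,0)]⟩,⟨0,[(18,0)]⟩⟩,⟨false,0,⟨3,[(13,0),(6,0),(1,1)]⟩,⟨1,[(11,0),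
  (0,0),(7,0)]⟩⟩,[]⟩)))

theorem ok0 : chk (cW (-1) 2) t0 base = true := by decide +kernel

theorem ok : chkB (cW (-1) 2) (fax (fcW (-1)) false 3 (-1) 2 true tW) t0 base = true :=
  chkB_of (by decide +kernel) ok0

end Helper11.CT.Tm1_3_m1_1_v2
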