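import Pool.Agent.Helper11.CT.Cfg
import Pool.Agent.Helper11.CT.Cut

set_option autoImplicit false
set_option linter.all false

namespace Helper11.CT.Tm1_3_m1_m1_v2

open Helper11.CT

noncomputable def base : List Con :=
  [(false,[0,0,0,0,0,-2,0,0,2,-2]),
  (false,[0,0,0,0,0,0,0,0,0,1]),
  (false,[0,1,0,0,0,-1,-1,0,1,-2]),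
  (false,[0,0,1,0,0,-1,0,0,1,-2]),
  (false,[0,1,0,0,0,1,1,0,-1]),
  (false,[0,1,0,0,0,-1,-1,0,1]),
  (false,[0,0,1,0,0,1,0,0,-1]),
  (false,[0,0,1,0,0,-1,0,0,1]),
  (true,[0,0,0,0,0,0,-1]),
  (false,[0,0,0,0,0,0,0,0,-1,2]),
  (false,[0,0,0,0,0,0,0,0,1]),
  (false,[0,0,0,0,0,0,0,2,0,-4]),
  (false,[0,0,0,0,-1,0,0,0,0,2]),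
  (true,[0,0,0,0,1]),
  (true,[1,-1,1]),
  (true,[0,1,0,1]),
  (true,[0,0,0,-1]),
  (true,[0,0,-2,0,0,0,0,2]),
  (true,[0,-2,0,0,0,0,0,2]),
  (true,[-1,0,1]),
  (true,[-1,1])]

noncomputable def t0 : Tre :=
  (.Q [0,-1,0,0,0,0,0,1,0,-1] (.p false [0,0,0,1] [] (⟨0,[(1,0)]⟩,⟨0,[(1,0)]⟩) .k 0 (⟨0,[]⟩,⟨0,[]⟩)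
  .k .k) (.Q [0,-1,0,1,0,0,0,1,0,1] (.p true [0,0,0,1] [] (⟨0,[(2,0)]⟩,⟨0,[(2,0)]⟩) .k 0 (⟨0,[]⟩,⟨0,
  []⟩) .k .k) (.Q [0,0,0,0,1,0,0,0,-1] (.ed true [1,-1,1] .k) (.Q [0,0,0,0,0,1,0,0,-1,2] (.p false
  [0,0,1] [1] (⟨0,[(13,0)]⟩,⟨0,[(12,0)]⟩) .k 1 (⟨0,[]⟩,⟨0,[]⟩) .k .k) (.R ⟨0,false,false,false,[0,0,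
  1],[0,0,0,1],[1],(⟨0,[(14,0)]⟩,⟨0,[(13,0)]⟩),(⟨0,[(5,0)]⟩,⟨0,[(5,0)]⟩),⟨0,[(1,0)]⟩,.k,.k,.k,.k,.k,
  .k,⟨false,1,⟨1,[(21,0)]⟩,⟨1,[(22,0),(1,1)]⟩⟩,⟨true,0,⟨1,[(4,0)]⟩,⟨3,[(0,1),(9,2),(0,0)]⟩⟩,⟨true,0,
  ⟨0,[(12,0)]⟩,⟨1,[(4,0),(3,1),(4,0),(0,0)]⟩⟩,⟨false,0,⟨1,[(4,0),(7,1),(9,0)]⟩,⟨1,[(8,1),(4,0),(0,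
  0),(7,0)]⟩⟩,⟨false,0,⟨0,[]⟩,⟨0,[]⟩⟩,⟨false,0,⟨0,[]⟩,⟨0,[]⟩⟩,[.o ⟨false,0,⟨3,[(15,0),(6,0),(1,1)]⟩,
  ⟨3,[(15,0),(6,0),(1,1)]⟩⟩,.o ⟨false,0,⟨0,[(3,0)]⟩,⟨3,[(15,0),(6,0),(1,5)]⟩⟩,.a ⟨true,0,⟨0,[(0,
  0)]⟩,⟨1,[(4,0),(8,0),(0,0)]⟩⟩ ⟨true,0,⟨0,[]⟩,⟨0,[(24,0)]⟩⟩ ⟨false,0,⟨1,[(4,0),(17,0)]⟩,⟨3,[(0,3),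
  (14,0),(6,0),(1,1)]⟩⟩,.o ⟨false,0,⟨0,[(10,0)]⟩,⟨2,[(4,0),(6,0),(3,0),(5,1)]⟩⟩]⟩) (.Q [0,0,0,0,1,0,
  0,0,0,-1] (.p false [0,0,0,1] [] (⟨0,[(5,0)]⟩,⟨0,[(5,0)]⟩) .k 0 (⟨0,[]⟩,⟨0,[]⟩) .k .k) (.R ⟨0,
  false,false,false,[0,0,0,1],[1,0,-1],[0,1,0,0,0,0,0,1],(⟨0,[(6,0)]⟩,⟨0,[(6,0)]⟩),(⟨0,[(14,0)]⟩,⟨0,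
  [(15,0)]⟩),⟨0,[(0,0)]⟩,.k,.k,(.r 0 ⟨1,[(21,1),(0,0)]⟩ ⟨1,[(11,0),(0,0),(7,1),(2,0)]⟩),.k,.k,.k,
  ⟨false,0,⟨1,[(5,0),(3,1),(4,0),(0,0),(6,0)]⟩,⟨1,[(13,1),(9,0)]⟩⟩,⟨true,0,⟨1,[(5,0)]⟩,⟨1,[(11,1),
  (2,0),(0,0)]⟩⟩,⟨true,0,⟨0,[(25,0)]⟩,⟨0,[]⟩⟩,⟨false,1,⟨1,[(5,0),(7,1),(9,0)]⟩,⟨1,[(9,1),(4,0),(0,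
  0),(7,0)]⟩⟩,⟨false,0,⟨0,[]⟩,⟨0,[]⟩⟩,⟨false,0,⟨0,[]⟩,⟨0,[]⟩⟩,[.o ⟨false,0,⟨0,[(1,0),(11,0)]⟩,⟨0,
  [(9,0),(13,0),(1,0)]⟩⟩,.o ⟨false,1,⟨0,[(7,0),(15,0)]⟩,⟨0,[(9,0)]⟩⟩,.a ⟨true,0,⟨0,[(6,0)]⟩,⟨0,[(6,
  0)]⟩⟩ ⟨false,0,⟨1,[(23,0),(1,1)]⟩,⟨1,[(23,0)]⟩⟩ ⟨true,0,⟨1,[(5,0),(7,1)]⟩,⟨1,[(9,1),(4,0),(0,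
  0)]⟩⟩,.o ⟨false,0,⟨1,[(8,0),(2,0)]⟩,⟨3,[(16,0),(5,1),(0,0),(1,1)]⟩⟩]⟩) (.Q [0,-1,0,-1,0,-1,-1,0,
  1] (.p true [0,0,1] [] (⟨0,[(15,0)]⟩,⟨0,[(14,0)]⟩) .k 0 (⟨0,[]⟩,⟨0,[]⟩) .k .k) (.R ⟨2,true,false,
  true,[0,1],[0,1,1],[1,1,1,1],(⟨0,[]⟩,⟨0,[]⟩),(⟨0,[(16,0),(2,0)]⟩,⟨0,[(1,1),(1,0)]⟩),⟨0,[]⟩,.k,.k,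
  .k,.k,.k,.k,⟨true,0,⟨0,[(14,0)]⟩,⟨1,[(6,0),(3,1),(4,0),(0,0),(3,1)]⟩⟩,⟨false,1,⟨0,[(12,0),(10,
  0)]⟩,⟨1,[(6,0),(8,0),(0,0)]⟩⟩,⟨false,0,⟨0,[]⟩,⟨0,[(24,0),(1,0)]⟩⟩,⟨true,0,⟨0,[(10,0)]⟩,⟨0,[(0,0),
  (20,0)]⟩⟩,⟨true,0,⟨0,[(21,0)]⟩,⟨0,[(22,0)]⟩⟩,⟨false,1,⟨0,[(10,0),(10,0),(2,0)]⟩,⟨0,[(0,0)]⟩⟩,[]⟩)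
  (.Q [0,0,0,1,0,0,0,0,0,2] (.pp false [-1,1]) (.R ⟨0,false,false,false,[0,0,1],[1,-1],[1,0,-1,-1],
  (⟨0,[(17,0)]⟩,⟨0,[(16,0)]⟩),(⟨0,[(19,0)]⟩,⟨0,[(20,0)]⟩),⟨0,[(4,0)]⟩,.k,.k,.k,.k,.k,.k,⟨true,0,⟨0,
  []⟩,⟨1,[(13,0),(0,0)]⟩⟩,⟨false,0,⟨0,[(3,0)]⟩,⟨0,[(13,0),(2,0),(0,0),(6,0)]⟩⟩,⟨false,1,⟨1,[(15,1),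
  (7,1),(0,0),(0,0)]⟩,⟨1,[(0,0),(0,0),(5,0),(3,0),(9,1)]⟩⟩,⟨true,0,⟨0,[(3,0),(11,0),(7,0)]⟩,⟨0,[(0,
  0),(10,0)]⟩⟩,⟨false,0,⟨0,[]⟩,⟨0,[]⟩⟩,⟨false,0,⟨0,[]⟩,⟨0,[]⟩⟩,[.a ⟨true,0,⟨0,[(23,0)]⟩,⟨0,[(0,
  0)]⟩⟩ ⟨false,1,⟨0,[(23,0),(0,0)]⟩,⟨0,[(21,0),(0,0)]⟩⟩ ⟨true,0,⟨0,[(3,0),(19,0)]⟩,⟨0,[(0,0),(12,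
  0)]⟩⟩,.o ⟨false,1,⟨1,[(18,0),(4,1),(1,0)]⟩,⟨0,[(22,0)]⟩⟩,.o ⟨false,1,⟨1,[(13,1),(10,0),(0,0),(1,
  1)]⟩,⟨0,[(3,0)]⟩⟩,.o ⟨false,0,⟨0,[(13,0)]⟩,⟨2,[(7,0),(6,0),(3,0),(5,1)]⟩⟩]⟩) (.R ⟨1,false,false,
  false,[0,0,0,1],[1,-1],[1,0,0,0,0,0,0,1],(⟨0,[(8,0)]⟩,⟨0,[(8,0)]⟩),(⟨0,[(19,0)]⟩,⟨0,[(20,0)]⟩),⟨0,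
  [(2,0)]⟩,.k,.k,(.r 0 ⟨1,[(23,1),(0,0)]⟩ ⟨1,[(13,0),(0,0),(7,1),(2,0)]⟩),(.r 0 ⟨1,[(13,0),(0,0),(7,
  1),(2,0)]⟩ ⟨1,[(23,1),(0,0)]⟩),.k,.k,⟨false,0,⟨1,[(22,1),(2,0)]⟩,⟨1,[(23,1),(0,0)]⟩⟩,⟨true,0,⟨1,
  [(10,0),(2,0)]⟩,⟨0,[(8,0)]⟩⟩,⟨true,0,⟨0,[]⟩,⟨0,[(27,0)]⟩⟩,⟨false,1,⟨1,[(0,0),(22,0),(1,0)]⟩,⟨0,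
  [(5,0),(21,0)]⟩⟩,⟨false,1,⟨0,[(22,0),(2,0)]⟩,⟨0,[(23,0)]⟩⟩,⟨false,1,⟨0,[(6,0)]⟩,⟨1,[(16,0),(0,0),
  (7,0),(1,1)]⟩⟩,[.o ⟨false,0,⟨0,[(0,0)]⟩,⟨0,[(22,0),(2,0),(1,0)]⟩⟩,.o ⟨false,1,⟨1,[(18,0),(4,1),(1,
  0)]⟩,⟨0,[(22,0)]⟩⟩,.a ⟨true,0,⟨0,[(8,0)]⟩,⟨0,[(8,0)]⟩⟩ ⟨false,0,⟨1,[(25,0)]⟩,⟨1,[(25,0),(1,1)]⟩⟩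
  ⟨true,0,⟨1,[(0,0),(22,0)]⟩,⟨1,[(16,0),(0,0),(4,1)]⟩⟩,.o ⟨false,0,⟨1,[(10,0),(2,0)]⟩,⟨3,[(18,0),(5,
  1),(0,0),(1,1)]⟩⟩]⟩))))) (.I [1,1,2,1,0,0,0,-2] (.Q [0,0,0,0,-1,0,0,0,0,1] (.p true [0,0,0,1] []
  (⟨0,[(5,0)]⟩,⟨0,[(5,0)]⟩) .k 0 (⟨0,[]⟩,⟨0,[]⟩) .k .k) (.Q [0,0,0,0,0,-1,-1,0,1,-2] (.p true [0,0,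
  1] [1] (⟨0,[(15,0)]⟩,⟨0,[(14,0)]⟩) .k 1 (⟨0,[]⟩,⟨0,[]⟩) .k .k) (.R ⟨1,false,false,false,[0,0,0,1],
  [1,0,-1],[1,1,0,0,0,0,0,1],(⟨0,[(7,0)]⟩,⟨0,[(7,0)]⟩),(⟨0,[(15,0)]⟩,⟨0,[(16,0)]⟩),⟨0,[(1,0)]⟩,.k,
  .k,(.r 0 ⟨1,[(22,1),(0,0)]⟩ ⟨1,[(12,0),(0,0),(7,1),(2,0)]⟩),.k,(.x 0 ⟨0,[(3,0),(8,0)]⟩ ⟨2,[(6,0),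
  (6,0),(1,2),(1,0),(1,2),(3,1)]⟩),.k,⟨false,0,⟨1,[(6,0),(3,1),(4,0),(0,0),(6,0)]⟩,⟨1,[(14,1),(9,
  0)]⟩⟩,⟨true,0,⟨1,[(6,0)]⟩,⟨1,[(12,1),(2,0),(0,0)]⟩⟩,⟨false,0,⟨0,[]⟩,⟨0,[(24,0),(1,0)]⟩⟩,⟨false,1,
  ⟨1,[(6,0),(7,1),(9,0)]⟩,⟨1,[(10,1),(4,0),(0,0),(7,0)]⟩⟩,⟨true,0,⟨0,[(21,0)]⟩,⟨0,[(22,0)]⟩⟩,⟨false,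
  1,⟨0,[(0,0),(3,0)]⟩,⟨1,[(10,1),(4,0),(0,0),(5,1),(1,0)]⟩⟩,[.o ⟨false,0,⟨0,[(0,0)]⟩,⟨0,[(10,0),(13,
  0),(1,0)]⟩⟩,.o ⟨false,1,⟨3,[(0,1),(10,1),(5,0),(6,2)]⟩,⟨0,[(10,0)]⟩⟩,.a ⟨true,0,⟨0,[(7,0)]⟩,⟨0,
  [(7,0)]⟩⟩ ⟨false,0,⟨1,[(24,0),(1,1)]⟩,⟨1,[(24,0)]⟩⟩ ⟨true,0,⟨1,[(6,0),(7,1)]⟩,⟨1,[(10,1),(4,0),(0,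
  0)]⟩⟩,.o ⟨false,0,⟨1,[(9,0),(2,0)]⟩,⟨3,[(17,0),(5,1),(0,0),(1,1)]⟩⟩]⟩) (.I [0,0,-2,-2,0,0,1,2]
  (.K ⟨0,[0,-1,1],0,0,(⟨0,[(4,0)]⟩,⟨0,[(16,0),(3,0)]⟩),.k,(.r (-1) ⟨0,[(0,0)]⟩ ⟨6,[(3,5),(1,7),(6,
  1),(0,1),(1,4),(2,1)]⟩),.k,.k,.k,[⟨1,[(7,0),(8,0),(0,0)]⟩,⟨0,[(1,0),(13,0)]⟩,⟨1,[(7,0),(7,1),(0,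
  0),(0,0),(4,1)]⟩,⟨0,[(11,0),(11,0)]⟩]⟩) (.R ⟨1,false,false,false,[0,0,1],[0,0,0,1],[1,1,0,0,0,0,
  1],(⟨0,[(17,0)]⟩,⟨0,[(16,0)]⟩),(⟨0,[(8,0)]⟩,⟨0,[(8,0)]⟩),⟨0,[(4,0)]⟩,.k,.k,.k,.k,(.r (-2) ⟨1,[(11,
  1),(2,1),(8,1),(0,1),(0,0)]⟩ ⟨1,[(0,0),(14,0)]⟩),.k,⟨false,1,⟨1,[(1,0),(5,0),(3,0),(12,0),(2,0)]⟩,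
  ⟨1,[(15,1),(9,0)]⟩⟩,⟨true,0,⟨1,[(7,0)]⟩,⟨1,[(13,1),(2,0),(0,0)]⟩⟩,⟨false,0,⟨0,[]⟩,⟨0,[(25,0),(1,
  0)]⟩⟩,⟨false,0,⟨1,[(7,0),(7,1),(9,0)]⟩,⟨1,[(1,0),(9,0),(13,0),(1,0)]⟩⟩,⟨true,0,⟨0,[(22,0)]⟩,⟨0,
  [(23,0)]⟩⟩,⟨false,0,⟨1,[(0,0),(6,0),(7,0),(8,0),(0,0)]⟩,⟨1,[(1,0),(9,0),(11,1),(1,0),(1,0)]⟩⟩,[.o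
  ⟨false,0,⟨3,[(18,0),(6,0),(1,1)]⟩,⟨3,[(18,0),(6,0),(1,1)]⟩⟩,.o ⟨false,0,⟨0,[(6,0)]⟩,⟨3,[(18,0),(6,
  0),(1,5)]⟩⟩,.a ⟨true,0,⟨0,[(1,0),(13,0)]⟩,⟨1,[(7,0),(8,0),(0,0)]⟩⟩ ⟨true,0,⟨1,[(1,0),(5,0),(3,0),
  (15,0)]⟩,⟨0,[(15,0)]⟩⟩ ⟨false,0,⟨1,[(7,0),(17,0)]⟩,⟨7,[(1,3),(10,1),(0,5),(1,1),(8,2),(0,0)]⟩⟩,.o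
  ⟨false,0,⟨0,[(13,0)]⟩,⟨2,[(7,0),(6,0),(3,0),(5,1)]⟩⟩]⟩))) (.Q [0,0,0,-2,0,0,0,0,0,-2] (.pp true
  [-1,1]) (.R ⟨0,false,false,true,[0,0,0,1],[0,1],[0,1,0,0,0,0,0,1],(⟨0,[(7,0)]⟩,⟨0,[(7,0)]⟩),(⟨0,
  [(19,0)]⟩,⟨0,[(18,0)]⟩),⟨0,[(1,0)]⟩,.k,.k,(.r 0 ⟨1,[(22,1),(0,0)]⟩ ⟨1,[(12,0),(0,0),(7,1),(2,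
  0)]⟩),(.r 0 ⟨1,[(22,1),(0,0)]⟩ ⟨1,[(12,0),(0,0),(7,1),(2,0)]⟩),.k,.k,⟨true,0,⟨1,[(22,1),(0,0)]⟩,
  ⟨1,[(2,1),(21,0)]⟩⟩,⟨false,1,⟨1,[(15,0),(0,0),(6,1)]⟩,⟨1,[(9,0),(2,0)]⟩⟩,⟨true,0,⟨0,[(26,0)]⟩,⟨0,
  []⟩⟩,⟨false,1,⟨0,[(4,0),(21,0)]⟩,⟨1,[(0,0),(23,0)]⟩⟩,⟨false,0,⟨0,[]⟩,⟨0,[]⟩⟩,⟨false,0,⟨0,[]⟩,⟨0,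
  []⟩⟩,[.o ⟨false,0,⟨0,[(21,0)]⟩,⟨3,[(0,1),(16,0),(6,2),(1,1)]⟩⟩,.e ⟨false,0,⟨1,[(23,0)]⟩,⟨1,[(24,
  0),(1,1)]⟩⟩ ⟨false,1,⟨1,[(4,1),(18,0),(2,1)]⟩,⟨1,[(0,0)]⟩⟩,.a ⟨true,0,⟨0,[(7,0)]⟩,⟨0,[(7,0)]⟩⟩
  ⟨false,0,⟨1,[(24,0),(1,1)]⟩,⟨1,[(24,0)]⟩⟩ ⟨true,0,⟨1,[(15,0),(0,0),(4,1)]⟩,⟨1,[(0,0)]⟩⟩,.o ⟨false,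
  0,⟨1,[(9,0),(2,0)]⟩,⟨3,[(17,0),(5,1),(0,0),(1,1)]⟩⟩]⟩) (.R ⟨0,false,false,true,[0,0,0,1],[0,1],[0,
  1,0,0,0,0,0,1],(⟨0,[(7,0)]⟩,⟨0,[(7,0)]⟩),(⟨0,[(19,0)]⟩,⟨0,[(18,0)]⟩),⟨0,[(1,0)]⟩,.k,.k,(.r 0 ⟨1,
  [(22,1),(0,0)]⟩ ⟨1,[(12,0),(0,0),(7,1),(2,0)]⟩),(.r 0 ⟨1,[(22,1),(0,0)]⟩ ⟨1,[(12,0),(0,0),(7,1),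
  (2,0)]⟩),.k,.k,⟨true,0,⟨1,[(22,1),(0,0)]⟩,⟨1,[(2,1),(21,0)]⟩⟩,⟨false,1,⟨1,[(15,0),(0,0),(6,1)]⟩,
  ⟨1,[(9,0),(2,0)]⟩⟩,⟨true,0,⟨0,[(26,0)]⟩,⟨0,[]⟩⟩,⟨false,1,⟨0,[(4,0),(21,0)]⟩,⟨0,[(5,0),(16,0)]⟩⟩,
  ⟨false,0,⟨0,[]⟩,⟨0,[]⟩⟩,⟨false,0,⟨0,[]⟩,⟨0,[]⟩⟩,[.o ⟨false,0,⟨0,[(21,0)]⟩,⟨1,[(17,0),(4,1),(1,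
  0)]⟩⟩,.a ⟨true,0,⟨1,[(0,0),(14,0),(0,0)]⟩,⟨0,[(22,0)]⟩⟩ ⟨false,0,⟨1,[(23,0)]⟩,⟨1,[(24,0),(1,1)]⟩⟩
  ⟨true,0,⟨1,[(0,0)]⟩,⟨1,[(9,0),(2,0),(9,1)]⟩⟩,.e ⟨false,0,⟨1,[(24,0),(1,1)]⟩,⟨1,[(24,0)]⟩⟩ ⟨false,
  0,⟨1,[(0,0)]⟩,⟨3,[(17,0),(4,3),(1,2),(1,1)]⟩⟩,.o ⟨false,0,⟨1,[(9,0),(2,0)]⟩,⟨3,[(17,0),(5,1),(0,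
  0),(1,1)]⟩⟩]⟩))) (.Q [0,0,0,0,0,1,0,0,-1,2] (.p false [0,0,1] [1] (⟨0,[(14,0)]⟩,⟨0,[(13,0)]⟩) .k
  1 (⟨0,[]⟩,⟨0,[]⟩) .k .k) (.K ⟨0,[0,-1,1],0,0,(⟨0,[(2,0)]⟩,⟨0,[(14,0),(3,0)]⟩),.k,(.r (-1) ⟨1,[(1,
  1),(3,0),(3,1),(4,0),(0,0),(5,1)]⟩ ⟨0,[(13,0),(5,1),(0,1)]⟩),.k,.k,.k,[⟨1,[(5,0),(8,0),(0,0)]⟩,⟨0,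
  [(0,0)]⟩,⟨1,[(5,0),(7,1),(0,0),(0,0),(4,1)]⟩,⟨0,[(9,0),(11,0)]⟩]⟩) (.Q [0,0,1,0,0,2,0,0,-2,2] (.p
  false [0,0,1] [1,0,-1] (⟨0,[(15,0)]⟩,⟨0,[(14,0)]⟩) .k 2 (⟨0,[(14,0)]⟩,⟨0,[(15,0)]⟩) .k (.r (-1)
  ⟨0,[(5,0),(3,1),(4,0),(0,0),(7,0)]⟩ ⟨0,[(13,1)]⟩)) (.K ⟨2,[1,1,-1],0,0,(⟨0,[(15,0),(3,0)]⟩,⟨0,[(3,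
  0)]⟩),.k,.k,(.r 0 ⟨0,[(14,0),(5,1),(0,1)]⟩ ⟨1,[(2,1),(3,0),(3,1),(4,0),(0,0),(5,1)]⟩),(.r 0 ⟨0,
  [(14,1),(5,0),(0,0)]⟩ ⟨0,[(2,0),(3,0),(3,1),(4,0),(0,0),(3,0)]⟩),.k,[⟨0,[(0,0)]⟩,⟨0,[(1,0)]⟩,⟨0,
  [(10,0),(4,0),(0,0),(5,0)]⟩,⟨0,[(1,0),(12,0),(6,0)]⟩]⟩) (.Q [0,0,0,0,-2,0,0,0,0,2] (.pp false [-1,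
  1]) (.R ⟨1,false,false,false,[0,0,0,1],[1,0,-1],[0,0,0,-1,0,0,0,1],(⟨0,[(8,0)]⟩,⟨0,[(8,0)]⟩),(⟨0,
  [(16,0)]⟩,⟨0,[(17,0)]⟩),⟨1,[(0,0)]⟩,.k,.k,(.r 0 ⟨1,[(3,0),(19,0),(3,0)]⟩ ⟨1,[(13,0),(0,0),(7,1),
  (2,0)]⟩),.k,(.r 0 ⟨1,[(1,0),(1,0),(7,1),(4,0),(0,0),(3,0),(1,0)]⟩ ⟨1,[(5,1),(3,0),(2,0),(0,1)]⟩),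
  .k,⟨false,0,⟨1,[(1,0),(1,0),(7,1),(4,0),(0,0),(3,0),(1,0)]⟩,⟨13,[(5,7),(6,1),(0,1),(1,11),(2,1),
  (3,5),(1,0)]⟩⟩,⟨true,0,⟨1,[(7,0)]⟩,⟨1,[(13,1),(2,0),(0,0)]⟩⟩,⟨true,0,⟨0,[(23,0)]⟩,⟨0,[(22,0)]⟩⟩,
  ⟨false,1,⟨1,[(7,0),(7,1),(9,0)]⟩,⟨1,[(11,1),(4,0),(0,0),(7,0)]⟩⟩,⟨false,1,⟨0,[(25,0),(1,0)]⟩,⟨0,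
  []⟩⟩,⟨false,1,⟨0,[(2,0),(2,0),(9,0)]⟩,⟨1,[(11,1),(4,0),(0,0),(5,1),(1,0)]⟩⟩,[.o ⟨false,0,⟨0,[(2,
  0),(12,0)]⟩,⟨0,[(11,0),(13,0),(1,0)]⟩⟩,.o ⟨false,1,⟨0,[(9,0),(15,0)]⟩,⟨0,[(11,0)]⟩⟩,.a ⟨true,0,⟨0,
  [(8,0)]⟩,⟨0,[(8,0)]⟩⟩ ⟨false,0,⟨1,[(23,1),(1,0)]⟩,⟨1,[(22,1),(2,0)]⟩⟩ ⟨true,0,⟨1,[(7,0),(7,1)]⟩,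
  ⟨1,[(11,1),(4,0),(0,0)]⟩⟩,.o ⟨false,0,⟨1,[(10,0),(2,0)]⟩,⟨3,[(18,0),(5,1),(0,0),(1,1)]⟩⟩]⟩) (.R
  ⟨0,false,false,false,[0,0,0,1],[1,0,-1],[0,1,0,0,0,0,0,1],(⟨0,[(8,0)]⟩,⟨0,[(8,0)]⟩),(⟨0,[(16,0)]⟩,
  ⟨0,[(17,0)]⟩),⟨1,[(0,0)]⟩,.k,.k,(.r 0 ⟨1,[(3,0),(19,0),(3,0)]⟩ ⟨1,[(13,0),(0,0),(7,1),(2,0)]⟩),.k,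
  .k,.k,⟨false,0,⟨5,[(1,1),(9,5),(2,1),(1,1),(0,1),(6,2)]⟩,⟨1,[(15,1),(9,0)]⟩⟩,⟨true,0,⟨1,[(7,0)]⟩,
  ⟨1,[(13,1),(2,0),(0,0)]⟩⟩,⟨true,0,⟨0,[(27,0)]⟩,⟨0,[]⟩⟩,⟨false,1,⟨1,[(7,0),(7,1),(9,0)]⟩,⟨1,[(11,
  1),(4,0),(0,0),(7,0)]⟩⟩,⟨false,0,⟨0,[]⟩,⟨0,[]⟩⟩,⟨false,0,⟨0,[]⟩,⟨0,[]⟩⟩,[.o ⟨false,0,⟨0,[(2,0),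
  (12,0)]⟩,⟨0,[(11,0),(13,0),(1,0)]⟩⟩,.o ⟨false,1,⟨0,[(9,0),(15,0)]⟩,⟨0,[(11,0)]⟩⟩,.a ⟨true,0,⟨0,
  [(8,0)]⟩,⟨0,[(8,0)]⟩⟩ ⟨false,0,⟨1,[(25,0),(1,1)]⟩,⟨1,[(25,0)]⟩⟩ ⟨true,0,⟨1,[(7,0),(7,1)]⟩,⟨1,[(11,
  1),(4,0),(0,0)]⟩⟩,.o ⟨false,0,⟨1,[(10,0),(2,0)]⟩,⟨3,[(18,0),(5,1),(0,0),(1,1)]⟩⟩]⟩)))))) (.R ⟨2,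
  true,false,true,[0,1],[0,0,0,1],[1,1,1,1],(⟨0,[]⟩,⟨0,[]⟩),(⟨0,[(3,0)]⟩,⟨0,[(3,0)]⟩),⟨0,[]⟩,.k,.k,
  .k,(.r (-1) ⟨1,[(8,0),(0,0),(7,1),(2,0)]⟩ ⟨1,[(18,1),(0,0)]⟩),.k,.k,⟨false,1,⟨1,[(17,1),(2,0)]⟩,
  ⟨1,[(18,1),(0,0)]⟩⟩,⟨true,0,⟨1,[(5,0),(2,0)]⟩,⟨0,[(3,0)]⟩⟩,⟨false,0,⟨0,[]⟩,⟨0,[(20,0),(1,0)]⟩⟩,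
  ⟨true,(-1),⟨0,[(0,0)]⟩,⟨1,[(11,0),(0,0),(4,1),(2,0)]⟩⟩,⟨true,0,⟨0,[(17,0)]⟩,⟨0,[(18,0)]⟩⟩,⟨false,
  0,⟨3,[(13,0),(6,0),(1,1)]⟩,⟨1,[(11,0),(0,0),(7,0)]⟩⟩,[]⟩)) (.K ⟨1,[0,0,0,1],0,0,(⟨0,[(2,0)]⟩,⟨0,
  [(2,0)]⟩),.k,(.r 0 ⟨1,[(17,1),(0,0)]⟩ ⟨1,[(7,0),(0,0),(7,1),(2,0)]⟩),(.r 0 ⟨1,[(7,0),(0,0),(7,1),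
  (2,0)]⟩ ⟨1,[(17,1),(0,0)]⟩),.k,.k,[⟨1,[(7,0),(0,0),(1,0),(0,0)]⟩,⟨1,[(4,0),(2,0)]⟩,⟨0,[(0,0)]⟩,⟨1,
  [(10,0),(0,0),(7,0)]⟩]⟩))

theorem ok0 : chk (cW (-1) 2) t0 base = true := by decide +kernel

theorem ok : chkB (cW (-1) 2) (fax (fcW (-1)) false 3 (-1) 2 false tW) t0 base = true :=
  chkB_of (by decide +kernel) ok0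

end Helper11.CT.Tm1_3_m1_m1_v2
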