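import Pool.Agent.Helper11.CT.Cfg
import Pool.Agent.Helper11.CT.Cut

set_option autoImplicit false
set_option linter.all false

namespace Helper11.CT.T1_1_m1_m1_u

open Helper11.CT

noncomputable def base : List Con :=
  [(false,[0,0,0,0,0,0,2,2,0,1,-2]),
  (true,[0,0,0,0,1,0,0,0,-2]),
  (true,[0,0,0,0,1,0,0,0,2]),
  (false,[0,0,0,0,0,0,0,0,0,1,0,-1]),
  (false,[0,0,0,0,0,0,0,0,0,0,0,1]),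
  (false,[0,1,0,0,0,0,-1,-1,0,-1,1]),
  (false,[0,0,1,0,0,0,-1,0,0,-1,1]),
  (false,[0,1,0,0,0,0,1,1,0,0,-1]),
  (false,[0,1,0,0,0,0,-1,-1,0,0,1]),
  (false,[0,0,1,0,0,0,1,0,0,0,-1]),
  (false,[0,0,1,0,0,0,-1,0,0,0,1]),
  (true,[0,0,0,0,0,0,0,-1]),
  (false,[0,0,0,0,0,0,0,0,0,1,-1]),
  (false,[0,0,0,0,0,0,0,0,0,0,1]),
  (false,[0,0,0,0,1,0,0,0,0,-2]),
  (false,[0,0,0,0,0,-1,0,0,0,1]),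
  (true,[0,0,0,0,0,1]),
  (true,[0,1,-1,-1]),
  (true,[0,1,0,-1]),
  (true,[0,0,0,1]),
  (true,[0,0,-2,0,1]),
  (true,[0,-2,0,0,1]),
  (true,[-1,0,1]),
  (true,[-1,1])]

noncomputable def t0 : Tre :=
  (.Q [0,0,0,0,0,1,0,0,0,-1,1] (.ed false [0,1,1] .k) (.K ⟨2,[-1,1,1],0,0,(⟨0,[(0,0)]⟩,⟨0,[(13,0),
  (2,0)]⟩),.k,.k,(.r 0 ⟨1,[(1,0),(5,0),(2,0),(0,1),(8,3)]⟩ ⟨0,[(12,0),(5,1),(3,0)]⟩),.k,.k,[⟨0,[(4,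
  0),(0,0),(14,0)]⟩,⟨0,[(7,0),(4,0),(5,0)]⟩,⟨1,[(7,1),(2,0),(0,0)]⟩,⟨1,[(1,0),(2,0),(0,0),(6,
  1)]⟩]⟩) (.Q [0,0,0,0,0,0,1,0,0,0,-1] (.p false [0,0,1] [] (⟨0,[(14,0)]⟩,⟨0,[(13,0)]⟩) .k 0 (⟨0,
  []⟩,⟨0,[]⟩) .k .k) (.K ⟨2,[0,1,1],0,0,(⟨0,[(15,0),(2,0)]⟩,⟨0,[(1,0)]⟩),.k,.k,(.r 0 ⟨1,[(2,0),(5,
  0),(2,0),(0,1),(8,3)]⟩ ⟨0,[(13,0),(5,1),(3,0)]⟩),.k,.k,[⟨0,[(21,0)]⟩,⟨0,[(12,0),(0,0),(5,0)]⟩,⟨1,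
  [(11,0),(0,2)]⟩,⟨0,[(0,0)]⟩]⟩) (.K ⟨0,[1,-1,-1],0,0,(⟨0,[(1,0)]⟩,⟨0,[(15,0),(2,0)]⟩),.k,(.r (-1)
  ⟨0,[(13,0),(5,1),(3,0)]⟩ ⟨1,[(2,0),(5,0),(2,0),(0,1),(8,3)]⟩),.k,.k,.k,[⟨1,[(2,0),(2,0),(0,0),(6,
  1)]⟩,⟨0,[(0,0)]⟩,⟨0,[(2,0),(7,0),(10,0)]⟩,⟨0,[(8,0),(4,0),(5,0)]⟩]⟩)))

theorem ok0 : chk (cU (-1) true 3) t0 base = true := by decide +kernel

theorem ok : chkB (cU (-1) true 3) (fax (fcU (-1)) true 1 (-1) 3 false (tU true)) t0 base = true :=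
  chkB_of (by decide +kernel) ok0

end Helper11.CT.T1_1_m1_m1_u
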