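import Pool.Agent.Helper11.CT.Cfg
import Pool.Agent.Helper11.CT.Cut

set_option autoImplicit false
set_option linter.all false

namespace Helper11.CT.T1_2_m1_1_v

open Helper11.CT

noncomputable def base : List Con :=
  [(false,[0,0,0,0,0,0,2,2,0,1,-2]),
  (true,[0,0,0,0,1,0,0,0,-2]),
  (true,[0,0,0,0,1,0,0,0,2]),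
  (false,[0,0,0,0,0,0,0,0,0,1,0,-2]),
  (false,[0,0,0,0,0,0,0,0,0,0,0,1]),
  (false,[0,1,0,0,0,0,-1,-1,0,-1,1]),
  (false,[0,0,1,0,0,0,-1,0,0,-1,1]),
  (false,[0,1,0,0,0,0,1,1,0,0,-1]),
  (false,[0,1,0,0,0,0,-1,-1,0,0,1]),
  (false,[0,0,1,0,0,0,1,0,0,0,-1]),
  (false,[0,0,1,0,0,0,-1,0,0,0,1]),
  (true,[0,0,0,0,0,0,0,1]),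
  (false,[0,0,0,0,0,0,0,0,0,1,-1]),
  (false,[0,0,0,0,0,0,0,0,0,0,1]),
  (false,[0,0,0,0,1,0,0,0,0,-2]),
  (false,[0,0,0,0,0,-1,0,0,0,1]),
  (true,[0,0,0,0,0,1]),
  (true,[1,-1,1,1]),
  (true,[0,1,-1]),
  (true,[0,1,0,-1]),
  (true,[0,0,0,1]),
  (true,[0,0,-2,0,1]),
  (true,[0,-2,0,0,1]),
  (true,[-1,0,1]),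
  (true,[-1,1])]

noncomputable def l0 : List Con := (false, [0,0,0,0,0,0,1,0,0,1,-1]) :: base

noncomputable def r0 : List Con := (false, [0,0,0,0,0,0,-1,0,0,-1,1]) :: base

noncomputable def t0 : Tre :=
  (.Q [0,-1,0,1,0,0,1,1,0,1,-1] (.p false [0,0,1] [1] (⟨0,[(14,0)]⟩,⟨0,[(13,0)]⟩) .k 1 (⟨0,[]⟩,⟨0,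
  []⟩) .k .k) (.R ⟨2,true,false,true,[0,1],[1,0,-1],[1,1,1],(⟨0,[]⟩,⟨0,[]⟩),(⟨0,[(14,0)]⟩,⟨0,[(15,
  0)]⟩),⟨0,[]⟩,.k,.k,.k,.k,.k,.k,⟨false,0,⟨0,[(13,0)]⟩,⟨1,[(1,1),(5,1),(15,0),(0,0)]⟩⟩,⟨true,0,⟨0,
  [(8,0)]⟩,⟨0,[(1,0)]⟩⟩,⟨true,0,⟨0,[(21,0)]⟩,⟨0,[(22,0)]⟩⟩,⟨false,1,⟨0,[(7,0),(13,0),(2,0)]⟩,⟨0,[(0,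
  0)]⟩⟩,⟨false,0,⟨0,[]⟩,⟨3,[(3,0),(0,0),(19,1)]⟩⟩,⟨true,0,⟨0,[(7,0)]⟩,⟨1,[(2,0),(11,0),(0,0)]⟩⟩,
  []⟩) (.Q [0,0,0,0,0,1,0,0,0,0,-1] (.ed true [1,-1,1] .k) (.Q [0,0,0,0,0,0,-2,-1,0,-1,2] (.p true
  [0,0,1] [1,0,-1] (⟨0,[(16,0)]⟩,⟨0,[(15,0)]⟩) .k 2 (⟨0,[(15,0)]⟩,⟨0,[(16,0)]⟩) .k (.r 0 ⟨0,[(14,
  1)]⟩ ⟨0,[(2,1),(5,1),(16,0)]⟩)) (.R ⟨0,false,false,false,[0,0,1],[1,0,-1],[0,1],(⟨0,[(17,0)]⟩,⟨0,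
  [(16,0)]⟩),(⟨0,[(16,0)]⟩,⟨0,[(17,0)]⟩),⟨0,[(1,0)]⟩,.k,.k,.k,.k,.k,.k,⟨false,0,⟨0,[(15,0),(6,0)]⟩,
  ⟨0,[(3,0),(5,0),(16,0)]⟩⟩,⟨true,0,⟨0,[(0,0),(14,0)]⟩,⟨0,[(3,0),(9,0)]⟩⟩,⟨true,0,⟨0,[(3,0),(5,0)]⟩,
  ⟨0,[(15,0)]⟩⟩,⟨false,1,⟨0,[(0,0),(2,0),(5,0),(16,0)]⟩,⟨0,[(4,0)]⟩⟩,⟨false,0,⟨0,[]⟩,⟨0,[]⟩⟩,⟨false,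
  0,⟨0,[]⟩,⟨0,[]⟩⟩,[.a ⟨true,0,⟨0,[(0,0),(2,0)]⟩,⟨1,[(4,0),(11,0),(0,0)]⟩⟩ ⟨false,0,⟨0,[(22,0)]⟩,⟨3,
  [(5,0),(0,0),(19,1)]⟩⟩ ⟨true,0,⟨0,[(0,0)]⟩,⟨3,[(3,1),(0,1),(8,2),(0,0)]⟩⟩,.o ⟨false,1,⟨0,[(9,0),
  (16,0)]⟩,⟨0,[(11,0)]⟩⟩,.e ⟨true,0,⟨0,[(28,0)]⟩,⟨0,[]⟩⟩ ⟨true,0,⟨0,[(0,0)]⟩,⟨0,[(3,0),(7,0)]⟩⟩,.o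
  ⟨false,0,⟨0,[(13,0)]⟩,⟨2,[(0,0),(13,0),(0,0),(2,0),(6,1)]⟩⟩]⟩) (.Q [0,-1,0,-1,1,0,2,1,0,0,-2] (.p
  false [0,0,1] [0,1,-1] (⟨0,[(17,0)]⟩,⟨0,[(16,0)]⟩) .k 2 (⟨0,[(1,0)]⟩,⟨0,[(17,0),(1,0)]⟩) .k (.r 0
  ⟨0,[(15,1)]⟩ ⟨0,[(3,1),(5,1),(16,0)]⟩)) (.Q [0,0,-1,0,0,0,0,0,0,1] (.pp false [-1,1]) (.I [0,1,-1,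
  -1,0,0,0,1] (.I [0,0,-2,-2,1,0,0,1] (.K ⟨1,[0,1,-1],0,0,(⟨0,[(5,0)]⟩,⟨0,[(21,0),(1,0)]⟩),.k,.k,
  (.r 0 ⟨0,[(16,0),(0,0),(7,0),(2,0)]⟩ ⟨0,[(0,0)]⟩),.k,.k,[⟨1,[(17,2),(0,0)]⟩,⟨0,[(2,0),(11,0)]⟩,⟨0,
  [(1,0),(15,0)]⟩,⟨0,[(2,1),(3,0),(18,1)]⟩]⟩) (.R ⟨0,false,false,false,[0,0,1],[0,1],[1,1,1],(⟨0,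
  [(21,0)]⟩,⟨0,[(20,0)]⟩),(⟨0,[(24,0)]⟩,⟨0,[(23,0)]⟩),⟨0,[(5,0)]⟩,.k,.k,.k,.k,.k,.k,⟨true,0,⟨0,[(27,
  0)]⟩,⟨0,[(0,0),(0,0),(28,0)]⟩⟩,⟨false,1,⟨0,[(2,0),(11,0),(14,0)]⟩,⟨0,[(17,0)]⟩⟩,⟨false,0,⟨5,[(0,
  1),(5,3),(0,3),(9,0),(0,0),(11,1)]⟩,⟨1,[(19,1),(9,0),(0,0)]⟩⟩,⟨true,0,⟨0,[(2,0),(10,0),(11,0)]⟩,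
  ⟨0,[(1,0),(15,0)]⟩⟩,⟨false,0,⟨0,[]⟩,⟨0,[]⟩⟩,⟨false,0,⟨0,[]⟩,⟨0,[]⟩⟩,[.o ⟨false,0,⟨0,[(28,0)]⟩,⟨1,
  [(22,0),(4,1),(2,0)]⟩⟩,.e ⟨false,0,⟨0,[]⟩,⟨3,[(9,0),(0,0),(18,1)]⟩⟩ ⟨false,1,⟨1,[(2,1),(11,1),(13,
  1),(0,0),(0,0)]⟩,⟨0,[(4,0),(1,0)]⟩⟩,.a ⟨true,0,⟨0,[(7,0)]⟩,⟨0,[(2,0),(11,0)]⟩⟩ ⟨false,0,⟨1,[(17,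
  0),(0,0)]⟩,⟨1,[(29,0),(0,0)]⟩⟩ ⟨true,0,⟨0,[(2,0),(11,0),(13,0)]⟩,⟨0,[(4,0),(1,0)]⟩⟩,.o ⟨false,0,
  ⟨0,[(17,0)]⟩,⟨0,[(14,0),(14,0)]⟩⟩]⟩)) (.R ⟨0,false,false,false,[0,0,1],[0,1],[1,1,1],(⟨0,[(20,
  0)]⟩,⟨0,[(19,0)]⟩),(⟨0,[(23,0)]⟩,⟨0,[(22,0)]⟩),⟨0,[(4,0)]⟩,.k,.k,.k,.k,.k,.k,⟨true,0,⟨0,[(26,0)]⟩,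
  ⟨0,[(0,0),(17,0)]⟩⟩,⟨false,1,⟨0,[(1,0),(11,0),(14,0)]⟩,⟨0,[(16,0)]⟩⟩,⟨false,0,⟨3,[(0,1),(4,1),(0,
  1),(9,0),(0,0)]⟩,⟨1,[(18,1),(9,0),(0,0)]⟩⟩,⟨true,0,⟨0,[(1,0),(10,0),(11,0)]⟩,⟨0,[(5,0),(1,0)]⟩⟩,
  ⟨false,0,⟨0,[]⟩,⟨0,[]⟩⟩,⟨false,0,⟨0,[]⟩,⟨0,[]⟩⟩,[.o ⟨false,0,⟨0,[(27,0)]⟩,⟨1,[(21,0),(4,1),(2,
  0)]⟩⟩,.e ⟨false,0,⟨0,[]⟩,⟨3,[(8,0),(0,0),(18,1)]⟩⟩ ⟨false,1,⟨1,[(1,1),(11,1),(13,1),(0,0),(0,0)]⟩,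
  ⟨0,[(3,0),(1,0)]⟩⟩,.a ⟨true,0,⟨0,[(6,0)]⟩,⟨0,[(1,0),(11,0)]⟩⟩ ⟨false,0,⟨1,[(16,0),(0,0)]⟩,⟨1,[(28,
  0),(0,0)]⟩⟩ ⟨true,0,⟨0,[(1,0),(11,0),(13,0)]⟩,⟨0,[(3,0),(1,0)]⟩⟩,.o ⟨false,0,⟨0,[(16,0)]⟩,⟨0,[(13,
  0),(14,0)]⟩⟩]⟩)) (.Q [0,0,0,0,0,1,0,0,0,-1,1] (.ed false [0,1,1] .k) (.Q [0,-1,0,1,0,0,1,1,0,2,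
  -1] (.p false [-1,1,1] [1] (⟨0,[(0,0)]⟩,⟨0,[(19,0),(2,0)]⟩) .k 1 (⟨0,[]⟩,⟨0,[]⟩) .k .k) (.R ⟨2,
  false,false,false,[0,1],[-1,1,1],[0,1],(⟨0,[]⟩,⟨0,[]⟩),(⟨0,[(1,0)]⟩,⟨0,[(20,0),(2,0)]⟩),⟨0,[]⟩,.k,
  .k,.k,.k,.k,.k,⟨false,1,⟨0,[(6,0),(0,0),(21,0)]⟩,⟨0,[(19,0),(5,0)]⟩⟩,⟨true,0,⟨0,[(7,0)]⟩,⟨0,[(14,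
  0)]⟩⟩,⟨false,1,⟨1,[(27,1),(1,0),(0,0)]⟩,⟨0,[(25,0)]⟩⟩,⟨true,0,⟨2,[(0,0),(7,0),(18,0)]⟩,⟨0,[(13,
  0)]⟩⟩,⟨true,0,⟨0,[(26,0)]⟩,⟨1,[(17,0),(0,0)]⟩⟩,⟨true,0,⟨1,[(0,0),(14,0),(12,0)]⟩,⟨0,[(6,0)]⟩⟩,[.o
  ⟨false,0,⟨1,[(0,0),(14,0),(12,0)]⟩,⟨1,[(6,1),(15,0),(7,0)]⟩⟩,.a ⟨true,0,⟨0,[(0,0)]⟩,⟨0,[(6,0)]⟩⟩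
  ⟨false,1,⟨3,[(9,0),(0,0),(18,1)]⟩,⟨0,[]⟩⟩ ⟨true,0,⟨5,[(0,1),(7,1),(8,0),(0,0),(6,3)]⟩,⟨0,[(6,
  0)]⟩⟩,.o ⟨false,1,⟨3,[(9,0),(0,0),(18,1)]⟩,⟨0,[(2,0)]⟩⟩,.e ⟨true,0,⟨0,[(26,0)]⟩,⟨1,[(17,0),(0,
  0)]⟩⟩ ⟨true,0,⟨1,[(0,0),(14,0),(12,0)]⟩,⟨0,[(6,0)]⟩⟩]⟩) (.K ⟨2,[-1,1,1],0,0,(⟨0,[(1,0)]⟩,⟨0,[(20,
  0),(2,0)]⟩),.k,.k,(.x (-1) ⟨0,[(1,0),(5,0),(16,0),(4,0)]⟩ ⟨0,[(0,0),(1,0),(16,0),(0,0),(2,1),(1,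
  0)]⟩),.k,.k,[⟨0,[(20,0),(0,0),(6,0)]⟩,⟨0,[(6,0)]⟩,⟨0,[(2,0),(15,0)]⟩,⟨0,[(7,0)]⟩]⟩)) (.Q [0,0,0,0,
  0,0,-1,-1,0,0,1] (.p true [0,0,1] [] (⟨0,[(20,0)]⟩,⟨0,[(19,0)]⟩) .k 0 (⟨0,[]⟩,⟨0,[]⟩) .k .k) (.R
  ⟨2,false,false,true,[0,1],[0,0,1],[0,1],(⟨0,[]⟩,⟨0,[]⟩),(⟨0,[(21,0)]⟩,⟨0,[(20,0)]⟩),⟨0,[]⟩,.k,.k,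
  .k,.k,.k,.k,⟨false,1,⟨1,[(0,1),(6,1),(14,0),(6,0)]⟩,⟨0,[(19,0)]⟩⟩,⟨true,0,⟨0,[(17,0)]⟩,⟨0,[(0,0),
  (18,0)]⟩⟩,⟨false,1,⟨1,[(27,1),(1,0),(0,0)]⟩,⟨0,[(25,0)]⟩⟩,⟨true,0,⟨0,[(6,0),(1,0)]⟩,⟨0,[(0,0),(27,
  0)]⟩⟩,⟨true,0,⟨0,[(26,0)]⟩,⟨1,[(17,0),(0,0)]⟩⟩,⟨true,0,⟨0,[(15,0)]⟩,⟨0,[(0,0)]⟩⟩,[.o ⟨false,0,⟨0,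
  [(15,0)]⟩,⟨1,[(0,1),(21,0),(7,0)]⟩⟩,.a ⟨true,0,⟨1,[(8,0),(11,0),(0,0)]⟩,⟨0,[(0,0)]⟩⟩ ⟨false,1,⟨3,
  [(9,0),(0,0),(18,1)]⟩,⟨0,[]⟩⟩ ⟨true,0,⟨3,[(2,1),(5,1),(8,0),(0,0)]⟩,⟨0,[(0,0)]⟩⟩,.o ⟨false,1,⟨3,
  [(9,0),(0,0),(18,1)]⟩,⟨0,[(2,0)]⟩⟩,.e ⟨true,0,⟨0,[(26,0)]⟩,⟨1,[(17,0),(0,0)]⟩⟩ ⟨true,0,⟨0,[(15,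
  0)]⟩,⟨0,[(0,0)]⟩⟩]⟩) (.Q [0,0,0,0,0,0,-1,0,0,0,1] (.p true [0,0,1] [] (⟨0,[(21,0)]⟩,⟨0,[(20,0)]⟩)
  .k 0 (⟨0,[]⟩,⟨0,[]⟩) .k .k) (.R ⟨0,false,false,true,[0,0,1],[1,-1],[0,1,-1,-1],(⟨0,[(22,0)]⟩,⟨0,
  [(21,0)]⟩),(⟨0,[(24,0)]⟩,⟨0,[(25,0)]⟩),⟨0,[(6,0)]⟩,.k,.k,.k,.k,.k,.k,⟨false,1,⟨3,[(10,0),(0,0),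
  (18,1)]⟩,⟨0,[]⟩⟩,⟨true,0,⟨0,[(15,0)]⟩,⟨0,[(8,0)]⟩⟩,⟨false,1,⟨1,[(7,1),(0,1),(21,0),(0,0)]⟩,⟨0,
  [(20,0),(5,0)]⟩⟩,⟨true,0,⟨0,[(7,0)]⟩,⟨1,[(9,0),(11,0),(0,0),(6,1)]⟩⟩,⟨false,0,⟨0,[]⟩,⟨0,[]⟩⟩,
  ⟨false,0,⟨0,[]⟩,⟨0,[]⟩⟩,[.o ⟨false,0,⟨0,[(1,0),(5,0)]⟩,⟨3,[(10,0),(0,0),(17,3),(1,1)]⟩⟩,.o ⟨false,
  1,⟨1,[(23,0),(4,1),(2,0)]⟩,⟨0,[(29,0)]⟩⟩,.a ⟨true,0,⟨0,[(8,0)]⟩,⟨0,[(0,0)]⟩⟩ ⟨false,1,⟨1,[(28,1),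
  (1,0),(0,0)]⟩,⟨0,[(26,0)]⟩⟩ ⟨true,0,⟨0,[(7,0),(12,0)]⟩,⟨0,[(8,0),(20,0)]⟩⟩,.o ⟨false,0,⟨0,[(18,
  0)]⟩,⟨1,[(0,1),(22,0),(6,0)]⟩⟩]⟩) (.K ⟨2,[0,1,1],0,0,(⟨0,[(22,0),(2,0)]⟩,⟨0,[(2,0)]⟩),.k,.k,(.x
  (-1) ⟨0,[(0,0),(21,0),(2,1),(4,0)]⟩ ⟨0,[(2,0),(0,0),(11,0),(8,0)]⟩),.k,.k,[⟨0,[(29,0)]⟩,⟨0,[(7,0),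
  (13,0),(0,0)]⟩,⟨1,[(18,0),(0,2)]⟩,⟨0,[(0,0)]⟩]⟩))))) (.I [0,-1,1,1] (.R ⟨0,false,false,false,[0,0,
  1],[0,1],[1,1,1],(⟨0,[(19,0)]⟩,⟨0,[(18,0)]⟩),(⟨0,[(22,0)]⟩,⟨0,[(21,0)]⟩),⟨0,[(3,0)]⟩,.k,.k,.k,.k,
  .k,.k,⟨true,0,⟨0,[(25,0)]⟩,⟨0,[(0,0)]⟩⟩,⟨false,1,⟨1,[(1,0),(15,0),(7,0),(1,1),(0,0)]⟩,⟨0,[(15,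
  0)]⟩⟩,⟨false,0,⟨1,[(1,0),(2,0),(0,0),(9,1),(12,0)]⟩,⟨1,[(17,1),(9,0),(0,0)]⟩⟩,⟨true,0,⟨3,[(0,1),
  (0,1),(3,1),(5,1),(15,0),(0,0)]⟩,⟨0,[(4,0),(1,0)]⟩⟩,⟨false,0,⟨0,[]⟩,⟨0,[]⟩⟩,⟨false,0,⟨0,[]⟩,⟨0,
  []⟩⟩,[.o ⟨false,0,⟨0,[(26,0)]⟩,⟨1,[(20,0),(4,1),(2,0)]⟩⟩,.e ⟨false,0,⟨0,[]⟩,⟨3,[(7,0),(0,0),(18,
  1)]⟩⟩ ⟨false,1,⟨2,[(0,1),(0,0),(14,0),(0,0),(9,2),(0,0)]⟩,⟨0,[(2,0),(1,0)]⟩⟩,.a ⟨true,0,⟨0,[(5,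
  0)]⟩,⟨1,[(1,0),(15,0),(7,0),(2,0)]⟩⟩ ⟨false,0,⟨1,[(15,0),(0,0)]⟩,⟨1,[(27,0),(0,0)]⟩⟩ ⟨true,0,⟨2,
  [(0,0),(0,0),(14,0),(0,0),(8,0),(0,0)]⟩,⟨0,[(2,0),(1,0)]⟩⟩,.o ⟨false,0,⟨0,[(15,0)]⟩,⟨0,[(12,0),
  (14,0)]⟩⟩]⟩) (.K ⟨1,[0,1,-1],0,0,(⟨0,[(3,0)]⟩,⟨0,[(19,0),(1,0)]⟩),.k,.k,(.r 0 ⟨0,[(14,0),(0,0),(7,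
  0),(2,0)]⟩ ⟨0,[(0,1),(16,0),(10,0)]⟩),.k,.k,[⟨1,[(15,2),(0,0)]⟩,⟨2,[(0,0),(0,0),(14,0),(0,0),(10,
  0)]⟩,⟨0,[(4,0),(1,0)]⟩,⟨0,[(1,0),(3,0),(22,0)]⟩]⟩)))) (.I [0,0,-2,-2,1,0,0,1] (.Q [0,0,0,0,0,0,-1,
  0,0,0,1] (.p true [0,0,1] [] (⟨0,[(17,0)]⟩,⟨0,[(16,0)]⟩) .k 0 (⟨0,[]⟩,⟨0,[]⟩) .k .k) (.K ⟨0,[0,-1,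
  1],0,0,(⟨0,[(2,0)]⟩,⟨0,[(17,0),(3,0)]⟩),.k,(.r (-1) ⟨0,[(1,0)]⟩ ⟨0,[(13,0),(0,0),(7,0),(2,0)]⟩),
  .k,.k,.k,[⟨0,[(0,0)]⟩,⟨0,[(4,0)]⟩,⟨0,[(13,0),(11,0)]⟩,⟨0,[(3,0),(1,0)]⟩]⟩) (.Q [0,0,0,0,0,1,0,0,0,
  -1,1] (.ed false [0,1,1] .k) (.Q [0,0,-1,0,0,0,1,0,0,2,-1] (.p false [-1,1,1] [1] (⟨0,[(0,0)]⟩,⟨0,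
  [(18,0),(2,0)]⟩) .k 1 (⟨0,[]⟩,⟨0,[]⟩) .k .k) (.R ⟨2,false,false,false,[0,1],[-1,1,1],[0,1],(⟨0,
  []⟩,⟨0,[]⟩),(⟨0,[(1,0)]⟩,⟨0,[(19,0),(2,0)]⟩),⟨0,[]⟩,.k,.k,.k,.k,.k,.k,⟨false,1,⟨0,[(5,0),(0,0),
  (21,0)]⟩,⟨0,[(18,0),(5,0)]⟩⟩,⟨true,0,⟨0,[(6,0)]⟩,⟨0,[(13,0)]⟩⟩,⟨false,1,⟨5,[(3,1),(1,1),(0,1),(1,
  0),(0,0),(18,0),(0,0)]⟩,⟨0,[(24,0)]⟩⟩,⟨true,0,⟨3,[(0,0),(6,1),(9,0)]⟩,⟨0,[(12,0)]⟩⟩,⟨true,0,⟨0,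
  [(25,0)]⟩,⟨1,[(16,0),(0,0)]⟩⟩,⟨true,0,⟨3,[(0,0),(6,1),(9,0),(9,3)]⟩,⟨0,[(5,0)]⟩⟩,[.o ⟨false,0,⟨3,
  [(0,0),(6,1),(9,0),(9,3)]⟩,⟨1,[(5,1),(15,0),(7,0)]⟩⟩,.a ⟨true,0,⟨0,[(0,0),(17,0),(5,0)]⟩,⟨0,[(5,
  0)]⟩⟩ ⟨false,1,⟨3,[(8,0),(0,0),(18,1)]⟩,⟨0,[]⟩⟩ ⟨true,0,⟨3,[(0,0),(6,1),(9,0),(6,3)]⟩,⟨0,[(5,
  0)]⟩⟩,.o ⟨false,1,⟨3,[(8,0),(0,0),(18,1)]⟩,⟨0,[(2,0),(10,0)]⟩⟩,.e ⟨true,0,⟨0,[(25,0)]⟩,⟨1,[(16,0),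
  (0,0)]⟩⟩ ⟨true,0,⟨3,[(0,0),(6,1),(9,0),(9,3)]⟩,⟨0,[(5,0)]⟩⟩]⟩) (.K ⟨2,[-1,1,1],0,0,(⟨0,[(1,0)]⟩,
  ⟨0,[(19,0),(2,0)]⟩),.k,.k,(.x (-1) ⟨0,[(1,0),(4,0),(16,0),(4,0)]⟩ ⟨1,[(0,2),(15,0),(2,1),(2,3)]⟩),
  .k,.k,[⟨0,[(19,0),(0,0),(6,0)]⟩,⟨0,[(5,0)]⟩,⟨1,[(0,0),(15,0),(0,1)]⟩,⟨0,[(6,0)]⟩]⟩)) (.K ⟨2,[0,1,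
  1],0,0,(⟨0,[(19,0),(2,0)]⟩,⟨0,[(0,0)]⟩),.k,.k,(.x (-1) ⟨0,[(1,0),(17,0),(2,1),(4,0)]⟩ ⟨1,[(0,2),
  (2,0),(8,2),(2,0)]⟩),.k,.k,[⟨0,[(26,0)]⟩,⟨0,[(4,0),(13,0),(0,0)]⟩,⟨1,[(15,0),(0,2)]⟩,⟨0,[(1,
  0)]⟩]⟩))) (.Q [0,0,0,0,0,1,0,0,0,-1,1] (.ed false [0,1,1] .k) (.K ⟨2,[-1,1,1],0,0,(⟨0,[(0,0)]⟩,⟨0,
  [(17,0),(2,0)]⟩),.k,.k,(.r 1 ⟨0,[(1,0),(14,1)]⟩ ⟨0,[(3,0),(0,0),(19,0),(1,0),(0,0)]⟩),.k,.k,[⟨0,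
  [(17,0),(0,0),(6,0)]⟩,⟨0,[(3,0)]⟩,⟨1,[(11,1),(2,0),(0,0)]⟩,⟨0,[(4,0)]⟩]⟩) (.Q [0,0,0,0,0,0,-1,0,0,
  0,1] (.p true [0,0,1] [] (⟨0,[(18,0)]⟩,⟨0,[(17,0)]⟩) .k 0 (⟨0,[]⟩,⟨0,[]⟩) .k .k) (.K ⟨0,[1,-1,-1],
  0,0,(⟨0,[(1,0)]⟩,⟨0,[(19,0),(2,0)]⟩),.k,(.r (-2) ⟨0,[(4,0),(0,0),(19,0),(1,0),(0,0)]⟩ ⟨0,[(2,0),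
  (14,1)]⟩),.k,.k,.k,[⟨0,[(5,0)]⟩,⟨0,[(0,0)]⟩,⟨0,[(6,0),(7,0),(11,0)]⟩,⟨0,[(4,0)]⟩]⟩) (.K ⟨2,[0,1,
  1],0,0,(⟨0,[(19,0),(2,0)]⟩,⟨0,[(1,0)]⟩),.k,.k,(.r 1 ⟨0,[(2,0),(14,1)]⟩ ⟨0,[(4,0),(0,0),(19,0),(1,
  0),(0,0)]⟩),.k,.k,[⟨0,[(26,0)]⟩,⟨0,[(4,0),(13,0),(0,0)]⟩,⟨1,[(15,0),(0,2)]⟩,⟨0,[(0,0)]⟩]⟩))))))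

theorem ok0 : chk (cU (-1) false 3) t0 l0 = true := by decide +kernel

noncomputable def l1 : List Con := (false, [0,0,0,0,0,0,1,1,0,0,-1]) :: r0

noncomputable def r1 : List Con := (false, [0,0,0,0,0,0,-1,-1,0,0,1]) :: r0

noncomputable def l2 : List Con := (false, [0,0,0,1,0,0,-1,-1,0,0,1]) :: l1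

noncomputable def r2 : List Con := (false, [0,0,0,-1,0,0,1,1,0,0,-1]) :: l1

noncomputable def t1 : Tre :=
  (.I [1,-1,0,0,0,0,0,1] (.R ⟨2,true,false,false,[0,1],[0,0,1],[1,0,1,0,0,0,0,1],(⟨0,[]⟩,⟨0,[]⟩),
  (⟨0,[(17,0)]⟩,⟨0,[(16,0)]⟩),⟨0,[]⟩,.k,.k,.k,.k,.k,.k,⟨false,0,⟨0,[]⟩,⟨3,[(5,0),(0,0),(18,1)]⟩⟩,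
  ⟨true,0,⟨0,[(13,0)]⟩,⟨0,[(0,0),(11,0)]⟩⟩,⟨true,0,⟨0,[(0,0),(22,0)]⟩,⟨0,[(1,0),(11,0),(8,0)]⟩⟩,
  ⟨false,1,⟨0,[(2,0),(20,0),(2,0)]⟩,⟨0,[(1,0)]⟩⟩,⟨false,0,⟨0,[(0,0)]⟩,⟨1,[(12,1),(0,1),(11,0),(0,
  0)]⟩⟩,⟨true,0,⟨0,[(2,0)]⟩,⟨0,[(12,0)]⟩⟩,[]⟩) (.R ⟨2,true,false,false,[0,1],[0,0,1],[1,1,1],(⟨0,
  []⟩,⟨0,[]⟩),(⟨0,[(17,0)]⟩,⟨0,[(16,0)]⟩),⟨0,[]⟩,.k,.k,.k,.k,.k,.k,⟨false,0,⟨0,[(0,0)]⟩,⟨1,[(15,1),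
  (9,0),(0,0)]⟩⟩,⟨true,0,⟨0,[(13,0)]⟩,⟨0,[(3,0),(12,0),(0,0)]⟩⟩,⟨true,0,⟨0,[(23,0)]⟩,⟨0,[(24,0)]⟩⟩,
  ⟨false,1,⟨0,[(2,0),(20,0),(2,0)]⟩,⟨0,[(1,0)]⟩⟩,⟨false,0,⟨0,[]⟩,⟨3,[(5,0),(0,0),(19,1)]⟩⟩,⟨true,0,
  ⟨0,[(2,0)]⟩,⟨0,[(12,0)]⟩⟩,[]⟩))

theorem ok1 : chk (cU (-1) false 3) t1 l2 = true := by decide +kernel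

noncomputable def l3 : List Con := (true, [1,0,-1,-1,0,0,0,1]) :: r2

noncomputable def r3 : List Con := (true, [0,0,1,1,0,0,0,-1]) :: r2

noncomputable def l4 : List Con := (true, [1,0,1,1,0,0,0,-1]) :: l3

noncomputable def r4 : List Con := (true, [0,0,-1,-1,0,0,0,1]) :: l3

noncomputable def t2 : Tre :=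
  (.N [0,-1,1] 0 ⟨0,[(1,0)]⟩ ⟨0,[(0,0)]⟩ .k)

theorem ok2 : chk (cU (-1) false 3) t2 l4 = true := by decide +kernel

noncomputable def l5 : List Con := (true, [1,-1,-1,-1,1]) :: r4

noncomputable def r5 : List Con := (true, [0,1,1,1,-1]) :: r4

noncomputable def t3 : Tre :=
  (.Q [0,0,0,0,0,1,0,0,0,0,-1] (.ed true [1,-1,1] .k) (.Q [0,0,-1,0,0,0,-1,0,0,1,1] (.p true [1,-1,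
  1] [] (⟨0,[(20,0),(1,0)]⟩,⟨0,[(0,0)]⟩) .k 0 (⟨0,[]⟩,⟨0,[]⟩) .k .k) (.R ⟨0,false,false,false,[0,1,
  -1],[0,1],[1,0,1,1],(⟨0,[(1,0)]⟩,⟨0,[(21,0),(1,0)]⟩),(⟨0,[(24,0)]⟩,⟨0,[(23,0)]⟩),⟨0,[(21,0)]⟩,.k,
  .k,.k,.k,.k,.k,⟨true,0,⟨0,[]⟩,⟨1,[(17,0),(0,0)]⟩⟩,⟨false,1,⟨0,[(17,0),(11,0)]⟩,⟨2,[(0,0),(6,0),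
  (10,0)]⟩⟩,⟨false,0,⟨0,[(3,0),(21,0)]⟩,⟨1,[(16,1),(0,1),(11,0),(0,0)]⟩⟩,⟨true,0,⟨0,[(6,0)]⟩,⟨0,
  [(16,0)]⟩⟩,⟨false,0,⟨0,[]⟩,⟨0,[]⟩⟩,⟨false,0,⟨0,[]⟩,⟨0,[]⟩⟩,[.o ⟨false,0,⟨0,[(28,0)]⟩,⟨3,[(2,1),
  (14,0),(0,0),(3,1),(4,1)]⟩⟩,.o ⟨false,1,⟨3,[(9,0),(0,0),(17,3),(1,1)]⟩,⟨0,[(5,0),(7,0)]⟩⟩,.a
  ⟨true,0,⟨0,[(0,0)]⟩,⟨0,[(17,0)]⟩⟩ ⟨false,0,⟨0,[(25,0)]⟩,⟨7,[(2,3),(6,0),(0,0),(16,3),(1,1)]⟩⟩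
  ⟨true,0,⟨0,[(17,0),(10,0)]⟩,⟨1,[(0,0),(2,0),(9,0),(13,0)]⟩⟩,.o ⟨false,0,⟨2,[(0,0),(6,0),(10,0)]⟩,
  ⟨1,[(17,1),(4,0),(6,0)]⟩⟩]⟩) (.I [0,0,-1,-1,0,0,0,1,-1] (.Q [0,0,0,0,0,0,1,1,1,1,-1,-1] (.p false
  [0,0,1] [1,0,0,-1] (⟨0,[(22,0)]⟩,⟨0,[(21,0)]⟩) .k 2 (⟨1,[(12,0),(8,0),(0,0)]⟩,⟨0,[(13,0)]⟩) .k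
  (.x (-1) ⟨3,[(10,0),(0,0),(6,3),(3,3),(7,1)]⟩ ⟨0,[(8,0),(12,0)]⟩)) (.I [1,0,0,0,0,0,0,0,-1] (.Q
  [0,0,0,0,0,1,0,0,0,0,0,-1] (.p false [0,0,0,1] [] (⟨0,[(15,0)]⟩,⟨1,[(14,0),(8,0),(0,0)]⟩) .k 0
  (⟨0,[]⟩,⟨0,[]⟩) .k .k) (.R ⟨0,false,false,false,[0,0,0,1],[1,0,-1],[1],(⟨0,[(16,0)]⟩,⟨1,[(15,0),
  (8,0),(0,0)]⟩),(⟨0,[(24,0)]⟩,⟨0,[(25,0)]⟩),⟨0,[(0,0)]⟩,.k,.k,(.r (-1) ⟨0,[(2,0),(3,0),(9,0),(0,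
  0)]⟩ ⟨0,[(1,0),(27,0),(6,0)]⟩),.k,.k,.k,⟨false,0,⟨0,[(7,0),(24,0)]⟩,⟨1,[(20,1),(0,1),(11,0),(0,
  0)]⟩⟩,⟨true,0,⟨0,[(11,0),(4,0)]⟩,⟨1,[(15,0),(5,1),(2,0),(0,0)]⟩⟩,⟨true,0,⟨0,[(1,0)]⟩,⟨0,[(2,0),
  (13,0),(0,0)]⟩⟩,⟨false,1,⟨0,[(1,0),(14,0),(0,0),(16,0)]⟩,⟨0,[(2,0)]⟩⟩,⟨false,0,⟨0,[]⟩,⟨0,[]⟩⟩,
  ⟨false,0,⟨0,[]⟩,⟨0,[]⟩⟩,[.o ⟨false,1,⟨1,[(20,1),(5,0),(7,0)]⟩,⟨0,[(10,0)]⟩⟩,.o ⟨false,1,⟨0,[(17,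
  0),(16,0)]⟩,⟨0,[(19,0)]⟩⟩,.a ⟨true,0,⟨1,[(15,0),(8,0),(0,0)]⟩,⟨0,[(16,0)]⟩⟩ ⟨true,0,⟨0,[]⟩,⟨0,
  [(36,0)]⟩⟩ ⟨false,1,⟨0,[(16,0),(0,0),(16,0)]⟩,⟨1,[(12,0),(2,0)]⟩⟩,.o ⟨false,0,⟨1,[(4,0),(10,0),(6,
  0)]⟩,⟨1,[(16,1),(9,0),(6,0)]⟩⟩]⟩) (.Q [0,-1,0,0,1,0,-1,-1,1,1,1,-1] (.p true [1,-1,1] [0,0,0,1]
  (⟨0,[(25,0),(1,0)]⟩,⟨0,[(5,0)]⟩) .k 2 (⟨0,[(16,0)]⟩,⟨1,[(15,0),(8,0),(0,0)]⟩) .k (.x (-1) ⟨3,[(13,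
  0),(0,0),(6,3),(3,3),(7,1)]⟩ ⟨0,[(11,0),(12,0)]⟩)) (.R ⟨1,false,false,true,[0,0,0,1],[1,-1,1],[0,
  1,0,0,0,0,0,0,1],(⟨0,[(17,0)]⟩,⟨1,[(16,0),(8,0),(0,0)]⟩),(⟨0,[(26,0),(1,0)]⟩,⟨0,[(6,0)]⟩),⟨0,[(1,
  0)]⟩,.k,.k,(.r (-1) ⟨0,[(3,0),(3,0),(9,0),(0,0)]⟩ ⟨0,[(2,0),(27,0),(6,0)]⟩),(.r (-1) ⟨3,[(0,1),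
  (14,0),(1,1),(3,1),(0,3),(4,0),(5,3)]⟩ ⟨0,[(4,0)]⟩),.k,.k,⟨false,1,⟨0,[(0,0),(4,0),(11,0),(13,0),
  (1,0)]⟩,⟨0,[(4,0)]⟩⟩,⟨true,0,⟨0,[(5,0),(11,0)]⟩,⟨1,[(12,1),(3,0),(8,2),(0,2)]⟩⟩,⟨true,0,⟨0,[(37,
  0)]⟩,⟨0,[]⟩⟩,⟨false,0,⟨0,[(4,0),(0,0),(11,0)]⟩,⟨0,[(0,0),(32,0)]⟩⟩,⟨false,0,⟨0,[(33,0)]⟩,⟨1,[(7,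
  1),(14,0),(0,0)]⟩⟩,⟨false,0,⟨0,[(4,0),(0,0),(11,0),(15,0)]⟩,⟨0,[(0,0)]⟩⟩,[.o ⟨false,0,⟨3,[(5,2),
  (2,2),(9,0),(1,1),(11,0)]⟩,⟨0,[(21,0),(11,0),(1,0)]⟩⟩,.o ⟨false,0,⟨0,[(5,0),(2,0)]⟩,⟨3,[(0,1),(13,
  0),(2,1),(3,1),(5,0),(5,3)]⟩⟩,.a ⟨true,0,⟨1,[(16,0),(8,0),(0,0)]⟩,⟨0,[(17,0)]⟩⟩ ⟨true,0,⟨0,[(3,0),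
  (13,0),(0,0)]⟩,⟨0,[(2,0)]⟩⟩ ⟨false,0,⟨0,[(5,0),(2,0),(8,0)]⟩,⟨0,[(0,0),(1,0),(30,0)]⟩⟩,.o ⟨false,
  0,⟨1,[(5,0),(10,0),(6,0)]⟩,⟨1,[(17,1),(9,0),(6,0)]⟩⟩]⟩) (.I [1,1,-1,-2,0,0,0,0,-1] (.Q [0,0,0,-1,
  0,0,0,0,-1,-1,0,1] (.p true [0,0,0,1] [1] (⟨0,[(18,0)]⟩,⟨1,[(17,0),(8,0),(0,0)]⟩) .k 1 (⟨0,[]⟩,⟨0,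
  []⟩) .k .k) (.R ⟨1,false,false,false,[0,0,0,1],[1,-1],[0,1,0,0,0,0,0,0,1],(⟨0,[(19,0)]⟩,⟨1,[(18,
  0),(8,0),(0,0)]⟩),(⟨0,[(30,0)]⟩,⟨0,[(31,0)]⟩),⟨0,[(3,0)]⟩,.k,.k,(.r (-1) ⟨0,[(5,0),(3,0),(9,0),(0,
  0)]⟩ ⟨5,[(2,1),(12,0),(0,1),(1,0),(4,3),(8,5)]⟩),(.r 0 ⟨0,[(5,0),(13,0),(0,0),(11,0)]⟩ ⟨11,[(1,3),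
  (7,3),(6,4),(0,0),(18,1)]⟩),.k,.k,⟨false,0,⟨0,[(5,0),(13,0),(0,0),(14,0)]⟩,⟨0,[(4,0),(4,0)]⟩⟩,
  ⟨true,0,⟨1,[(7,0),(11,1),(1,0)]⟩,⟨1,[(18,0),(8,0),(0,0)]⟩⟩,⟨true,0,⟨0,[(39,0)]⟩,⟨0,[]⟩⟩,⟨true,0,
  ⟨0,[(0,0)]⟩,⟨0,[(5,0),(17,0),(11,0)]⟩⟩,⟨false,0,⟨0,[(35,0)]⟩,⟨1,[(9,1),(14,0),(0,0)]⟩⟩,⟨true,0,⟨0,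
  [(0,0),(34,0)]⟩,⟨0,[(5,0),(17,0)]⟩⟩,[.o ⟨false,1,⟨3,[(9,1),(14,0),(0,0),(3,1),(4,1)]⟩,⟨0,[(35,
  0)]⟩⟩,.o ⟨false,1,⟨1,[(7,0),(1,1),(11,0)]⟩,⟨0,[(35,0),(3,0)]⟩⟩,.a ⟨true,0,⟨1,[(18,0),(8,0),(0,
  0)]⟩,⟨0,[(19,0)]⟩⟩ ⟨true,0,⟨0,[(5,0),(13,0),(0,0)]⟩,⟨0,[(4,0)]⟩⟩ ⟨false,1,⟨1,[(0,1),(16,0),(19,
  0)]⟩,⟨1,[(18,0),(8,0),(0,0),(6,1)]⟩⟩,.o ⟨false,0,⟨1,[(7,0),(10,0),(6,0)]⟩,⟨1,[(19,1),(9,0),(6,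
  0)]⟩⟩]⟩) (.R ⟨2,true,false,false,[0,1],[1,0,0,-1],[0,1,1,1],(⟨0,[]⟩,⟨0,[]⟩),(⟨1,[(18,0),(8,0),(0,
  0)]⟩,⟨0,[(19,0)]⟩),⟨0,[]⟩,.k,.k,.k,(.r 0 ⟨1,[(0,1),(6,0),(11,1),(1,0)]⟩ ⟨11,[(1,3),(7,3),(6,4),(0,
  0),(18,1)]⟩),.k,.k,⟨false,0,⟨1,[(0,0),(1,0),(14,0),(5,0),(11,0)]⟩,⟨0,[(4,0),(4,0)]⟩⟩,⟨true,0,⟨1,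
  [(7,0),(11,1),(1,0)]⟩,⟨1,[(18,0),(8,0),(0,0)]⟩⟩,⟨true,0,⟨0,[(39,0)]⟩,⟨0,[]⟩⟩,⟨false,1,⟨11,[(1,5),
  (0,1),(4,2),(8,1),(2,9),(0,1),(0,2),(7,0),(7,10)]⟩,⟨0,[(0,0)]⟩⟩,⟨false,0,⟨0,[(35,0)]⟩,⟨1,[(9,1),
  (14,0),(0,0)]⟩⟩,⟨true,0,⟨1,[(2,0),(1,0),(14,0),(0,0),(16,0)]⟩,⟨0,[(0,0),(33,0)]⟩⟩,[]⟩)) (.R ⟨1,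
  true,false,true,[0,0,0,1],[1,-1,1],[0,1,0,0,0,0,0,0,1],(⟨0,[(18,0)]⟩,⟨1,[(17,0),(8,0),(0,0)]⟩),
  (⟨0,[(27,0),(1,0)]⟩,⟨0,[(7,0)]⟩),⟨0,[(2,0)]⟩,.k,.k,(.r (-1) ⟨0,[(4,0),(3,0),(9,0),(0,0)]⟩ ⟨5,[(1,
  1),(12,0),(0,1),(1,0),(4,3),(8,5)]⟩),(.r (-1) ⟨7,[(0,3),(14,0),(0,2),(5,7),(0,7),(11,1),(0,1)]⟩
  ⟨0,[(5,0)]⟩),.k,.k,⟨false,1,⟨0,[(0,0),(7,0),(13,0),(0,0),(8,0)]⟩,⟨0,[(5,0)]⟩⟩,⟨true,0,⟨0,[(6,0),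
  (11,0)]⟩,⟨1,[(13,1),(3,0),(8,2),(0,2)]⟩⟩,⟨true,0,⟨0,[(38,0)]⟩,⟨0,[]⟩⟩,⟨false,0,⟨2,[(1,1),(1,0),(2,
  0),(1,1),(2,0),(6,0),(5,0)]⟩,⟨1,[(0,1),(7,1),(8,0),(4,1),(3,0),(0,0)]⟩⟩,⟨false,0,⟨0,[(34,0)]⟩,⟨1,
  [(8,1),(14,0),(0,0)]⟩⟩,⟨true,(-1),⟨0,[(1,0)]⟩,⟨1,[(16,0),(0,0),(4,1),(3,0),(0,0),(8,0)]⟩⟩,[]⟩))))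
  (.Q [0,0,0,0,0,1,0,0,0,0,0,-1] (.p false [0,0,0,1] [] (⟨0,[(15,0)]⟩,⟨1,[(14,0),(8,0),(0,0)]⟩) .k
  0 (⟨0,[]⟩,⟨0,[]⟩) .k .k) (.R ⟨0,false,false,false,[0,0,0,1],[1,-1],[0,1],(⟨0,[(16,0)]⟩,⟨1,[(15,0),
  (8,0),(0,0)]⟩),(⟨0,[(27,0)]⟩,⟨0,[(28,0)]⟩),⟨0,[(0,0)]⟩,.k,.k,(.r (-1) ⟨3,[(1,1),(4,1),(7,0),(16,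
  1),(1,0)]⟩ ⟨0,[(3,0),(16,0),(0,0),(7,0),(2,0)]⟩),(.r 0 ⟨0,[(1,0),(27,0),(6,0)]⟩ ⟨2,[(3,0),(2,1),
  (6,0),(6,0),(0,0),(8,0)]⟩),.k,.k,⟨false,0,⟨0,[(32,0),(3,0)]⟩,⟨0,[(6,0)]⟩⟩,⟨true,0,⟨1,[(4,0),(11,
  1),(1,0)]⟩,⟨1,[(15,0),(8,0),(0,0)]⟩⟩,⟨true,0,⟨0,[(3,0),(16,0),(0,0),(10,0)]⟩,⟨0,[(1,0)]⟩⟩,⟨false,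
  1,⟨0,[(3,0),(12,0),(0,0),(3,0),(12,0)]⟩,⟨1,[(1,1),(13,0),(8,0),(0,0),(6,1)]⟩⟩,⟨false,0,⟨0,[]⟩,⟨0,
  []⟩⟩,⟨false,0,⟨0,[]⟩,⟨0,[]⟩⟩,[.o ⟨false,1,⟨3,[(6,1),(14,0),(0,0),(3,1),(4,1)]⟩,⟨0,[(32,0)]⟩⟩,.o
  ⟨false,1,⟨1,[(4,0),(1,1),(11,0)]⟩,⟨0,[(32,0),(3,0)]⟩⟩,.a ⟨true,0,⟨1,[(15,0),(8,0),(0,0)]⟩,⟨0,[(16,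
  0)]⟩⟩ ⟨true,0,⟨0,[(36,0)]⟩,⟨0,[]⟩⟩ ⟨false,1,⟨1,[(4,0),(1,1),(9,1),(1,0)]⟩,⟨1,[(15,0),(8,0),(0,0),
  (6,1)]⟩⟩,.o ⟨false,0,⟨1,[(4,0),(10,0),(6,0)]⟩,⟨1,[(16,1),(9,0),(6,0)]⟩⟩]⟩) (.R ⟨1,false,false,
  false,[0,0,0,1],[1,-1],[0,0,0,0,0,0,0,0,1],(⟨0,[(16,0)]⟩,⟨1,[(15,0),(8,0),(0,0)]⟩),(⟨0,[(27,0)]⟩,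
  ⟨0,[(28,0)]⟩),⟨0,[(0,0)]⟩,.k,.k,(.r (-1) ⟨3,[(1,1),(4,1),(7,0),(16,1),(1,0)]⟩ ⟨0,[(3,0),(16,0),(0,
  0),(7,0),(2,0)]⟩),(.r 0 ⟨0,[(1,0),(27,0),(6,0)]⟩ ⟨2,[(3,0),(2,1),(6,0),(6,0),(0,0),(8,0)]⟩),.k,.k,
  ⟨false,0,⟨0,[(1,0),(30,0)]⟩,⟨2,[(3,0),(2,1),(6,0),(6,0),(0,0),(8,0)]⟩⟩,⟨true,0,⟨1,[(4,0),(11,1),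
  (1,0)]⟩,⟨1,[(15,0),(8,0),(0,0)]⟩⟩,⟨false,1,⟨3,[(13,0),(0,0),(19,1)]⟩,⟨0,[]⟩⟩,⟨false,1,⟨0,[(3,0),
  (12,0),(0,0),(3,0),(12,0)]⟩,⟨1,[(1,1),(13,0),(8,0),(0,0),(6,1)]⟩⟩,⟨true,0,⟨0,[(32,0)]⟩,⟨0,[(31,
  0)]⟩⟩,⟨false,1,⟨3,[(3,1),(0,1),(8,0),(2,3),(0,1),(14,1),(1,2)]⟩,⟨1,[(1,1),(13,0),(8,0),(0,0)]⟩⟩,
  [.o ⟨false,1,⟨3,[(6,1),(14,0),(0,0),(3,1),(4,1)]⟩,⟨0,[(32,0)]⟩⟩,.o ⟨false,1,⟨1,[(4,0),(1,1),(11,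
  0)]⟩,⟨0,[(32,0),(3,0)]⟩⟩,.a ⟨true,0,⟨1,[(15,0),(8,0),(0,0)]⟩,⟨0,[(16,0)]⟩⟩ ⟨true,0,⟨0,[(1,0)]⟩,⟨0,
  [(3,0),(16,0),(0,0),(10,0)]⟩⟩ ⟨false,1,⟨1,[(4,0),(1,1),(9,1),(1,0)]⟩,⟨1,[(15,0),(8,0),(0,0),(6,
  1)]⟩⟩,.o ⟨false,0,⟨1,[(4,0),(10,0),(6,0)]⟩,⟨1,[(16,1),(9,0),(6,0)]⟩⟩]⟩))) (.Q [0,0,0,0,0,1,0,0,0,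
  -1,0,1] (.p true [0,0,0,1] [1] (⟨0,[(14,0)]⟩,⟨1,[(13,0),(8,0),(0,0)]⟩) .k 1 (⟨0,[]⟩,⟨0,[]⟩) .k
  .k) (.R ⟨0,false,false,true,[0,0,0,1],[1,0,-1],[1,0,0,0,0,0,0,0,1],(⟨0,[(15,0)]⟩,⟨1,[(14,0),(8,0),
  (0,0)]⟩),(⟨0,[(23,0)]⟩,⟨0,[(24,0)]⟩),⟨0,[(0,0),(13,0)]⟩,.k,.k,(.x 0 ⟨1,[(3,0),(13,0),(8,1)]⟩ ⟨3,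
  [(12,0),(0,0),(13,3),(4,1)]⟩),.k,.k,.k,⟨false,1,⟨1,[(6,1),(6,0),(17,1),(1,0)]⟩,⟨1,[(1,1),(12,0),
  (5,1),(2,0),(0,0),(4,1)]⟩⟩,⟨true,0,⟨0,[(10,0),(4,0)]⟩,⟨1,[(14,0),(5,1),(2,0),(0,0)]⟩⟩,⟨true,0,⟨0,
  []⟩,⟨0,[(35,0)]⟩⟩,⟨false,0,⟨0,[(1,0)]⟩,⟨1,[(11,0),(1,0),(0,0),(18,0)]⟩⟩,⟨false,0,⟨0,[]⟩,⟨0,[]⟩⟩,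
  ⟨false,0,⟨0,[]⟩,⟨0,[]⟩⟩,[.o ⟨false,0,⟨0,[(16,0)]⟩,⟨7,[(11,3),(0,0),(0,0),(11,1),(7,3)]⟩⟩,.o
  ⟨false,1,⟨1,[(19,1),(5,0),(7,0)]⟩,⟨0,[(9,0)]⟩⟩,.a ⟨true,0,⟨1,[(14,0),(8,0),(0,0)]⟩,⟨0,[(15,0)]⟩⟩
  ⟨false,1,⟨1,[(13,0),(19,0)]⟩,⟨1,[(1,1),(9,0),(2,0)]⟩⟩ ⟨true,0,⟨0,[(15,0),(0,0)]⟩,⟨1,[(11,0),(2,
  0)]⟩⟩,.o ⟨false,0,⟨1,[(3,0),(10,0),(6,0)]⟩,⟨1,[(15,1),(9,0),(6,0)]⟩⟩]⟩) (.R ⟨1,false,false,false,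
  [1,0,0,-1],[1,-1,1],[0,1,0,0,0,0,0,0,-1],(⟨1,[(14,0),(8,0),(0,0)]⟩,⟨0,[(15,0)]⟩),(⟨0,[(24,0),(1,
  0)]⟩,⟨0,[(4,0)]⟩),⟨0,[(0,0)]⟩,.k,.k,(.x 0 ⟨1,[(3,0),(13,0),(8,1)]⟩ ⟨3,[(12,0),(0,0),(13,3),(4,
  1)]⟩),(.r 0 ⟨1,[(1,1),(12,0),(5,1),(2,0),(0,0),(6,1)]⟩ ⟨3,[(6,3),(5,0),(0,2)]⟩),.k,.k,⟨false,0,⟨1,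
  [(1,1),(12,0),(5,1),(2,0),(0,0),(4,1),(1,1)]⟩,⟨1,[(6,1),(6,0),(19,0)]⟩⟩,⟨true,0,⟨1,[(3,0),(10,0),
  (5,0)]⟩,⟨0,[(10,0),(4,0),(7,0),(0,0)]⟩⟩,⟨true,0,⟨0,[(35,0)]⟩,⟨0,[]⟩⟩,⟨false,1,⟨1,[(3,0),(2,0),(1,
  0),(4,0),(0,0),(18,0)]⟩,⟨0,[(1,0),(21,0),(0,0),(6,0)]⟩⟩,⟨false,0,⟨0,[(31,0)]⟩,⟨1,[(5,1),(14,0),(0,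
  0)]⟩⟩,⟨false,1,⟨1,[(3,0),(2,0),(2,0),(3,0),(0,0),(16,0),(1,0)]⟩,⟨0,[(1,0),(21,0),(0,0)]⟩⟩,[.o
  ⟨false,0,⟨0,[(3,0),(2,0)]⟩,⟨3,[(12,0),(0,0),(5,3),(11,3),(1,1)]⟩⟩,.o ⟨false,1,⟨1,[(8,1),(16,0),(7,
  0)]⟩,⟨0,[(19,0),(11,0)]⟩⟩,.a ⟨true,0,⟨0,[(15,0)]⟩,⟨1,[(14,0),(8,0),(0,0)]⟩⟩ ⟨false,0,⟨1,[(1,1),(9,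
  0),(2,0)]⟩,⟨1,[(13,0),(19,0)]⟩⟩ ⟨true,0,⟨1,[(3,0),(2,0),(1,0),(5,0)]⟩,⟨0,[(15,0),(3,0),(11,0)]⟩⟩,
  .o ⟨false,0,⟨1,[(3,0),(11,1),(1,0)]⟩,⟨7,[(12,0),(0,0),(0,3),(10,1),(6,3)]⟩⟩]⟩))) (.I [1,0,-1,0,0,
  0,0,0,1] (.Q [0,0,0,0,0,1,0,0,0,0,0,-1] (.p false [0,0,0,1] [] (⟨0,[(14,0)]⟩,⟨1,[(13,0),(8,0),(0,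
  0)]⟩) .k 0 (⟨0,[]⟩,⟨0,[]⟩) .k .k) (.R ⟨0,false,false,false,[0,0,0,1],[1,-1,1],[0,1,0,0,0,0,0,0,1],
  (⟨0,[(15,0)]⟩,⟨1,[(14,0),(8,0),(0,0)]⟩),(⟨0,[(24,0),(1,0)]⟩,⟨0,[(4,0)]⟩),⟨0,[(0,0)]⟩,.k,.k,(.x 0
  ⟨1,[(3,0),(13,0),(8,1)]⟩ ⟨3,[(12,0),(0,0),(13,3),(4,1)]⟩),(.r 0 ⟨0,[(1,0),(1,0),(12,0),(9,1),(0,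
  1),(0,0)]⟩ ⟨3,[(6,3),(5,2),(0,0)]⟩),.k,.k,⟨false,0,⟨0,[(2,0),(26,0)]⟩,⟨1,[(6,1),(5,0),(20,0)]⟩⟩,
  ⟨true,0,⟨0,[(3,0),(11,0)]⟩,⟨1,[(10,1),(3,0),(8,2),(0,2)]⟩⟩,⟨true,0,⟨0,[(35,0)]⟩,⟨0,[]⟩⟩,⟨false,1,
  ⟨1,[(3,1),(2,1),(5,0),(2,1),(17,0)]⟩,⟨1,[(1,1),(12,0),(4,1),(3,0),(0,0),(3,1)]⟩⟩,⟨false,0,⟨0,[]⟩,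
  ⟨0,[]⟩⟩,⟨false,0,⟨0,[]⟩,⟨0,[]⟩⟩,[.o ⟨false,0,⟨0,[(3,0),(2,0)]⟩,⟨3,[(12,0),(0,0),(5,3),(11,3),(1,
  1)]⟩⟩,.o ⟨false,1,⟨1,[(8,1),(16,0),(7,0)]⟩,⟨0,[(19,0),(11,0)]⟩⟩,.a ⟨true,0,⟨1,[(14,0),(8,0),(0,
  0)]⟩,⟨0,[(15,0)]⟩⟩ ⟨false,0,⟨2,[(1,1),(0,0),(5,0),(12,0)]⟩,⟨1,[(12,0),(20,0)]⟩⟩ ⟨true,0,⟨0,[(3,0),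
  (2,0),(8,0)]⟩,⟨1,[(14,0),(4,1),(3,0),(0,0),(6,1)]⟩⟩,.o ⟨false,0,⟨1,[(3,0),(10,0),(6,0)]⟩,⟨1,[(15,
  1),(9,0),(6,0)]⟩⟩]⟩) (.Q [0,0,0,0,0,0,-1,-1,1,0,1,-1] (.p true [0,0,1] [0,0,0,1] (⟨0,[(24,0)]⟩,⟨0,
  [(23,0)]⟩) .k 2 (⟨0,[(15,0)]⟩,⟨1,[(14,0),(8,0),(0,0)]⟩) .k (.x (-1) ⟨3,[(12,0),(0,0),(6,3),(3,3),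
  (7,1)]⟩ ⟨0,[(10,0),(12,0)]⟩)) (.R ⟨1,false,false,true,[1,0,0,-1],[1,0,-1],[0,0,0,0,0,0,0,0,-1],
  (⟨1,[(15,0),(8,0),(0,0)]⟩,⟨0,[(16,0)]⟩),(⟨0,[(24,0)]⟩,⟨0,[(25,0)]⟩),⟨0,[(1,0),(13,0)]⟩,.k,.k,(.x
  0 ⟨1,[(4,0),(13,0),(8,1)]⟩ ⟨3,[(13,0),(0,0),(13,3),(4,1)]⟩),.k,(.r (-1) ⟨3,[(7,3),(5,2),(0,0)]⟩
  ⟨0,[(1,3),(0,0),(1,0),(10,1),(1,0),(10,3),(0,0)]⟩),.k,⟨false,1,⟨1,[(7,1),(5,0),(18,1),(1,0)]⟩,⟨0,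
  [(2,0),(17,0),(0,0)]⟩⟩,⟨true,0,⟨1,[(11,1),(3,0),(8,0),(0,0)]⟩,⟨0,[(16,0),(4,0)]⟩⟩,⟨false,1,⟨3,
  [(13,0),(0,0),(19,1)]⟩,⟨0,[]⟩⟩,⟨false,0,⟨0,[(0,0)]⟩,⟨1,[(10,1),(2,0),(2,1),(17,0)]⟩⟩,⟨true,0,⟨0,
  [(32,0)]⟩,⟨0,[(31,0)]⟩⟩,⟨false,0,⟨0,[(0,0),(31,0)]⟩,⟨1,[(9,1),(3,0),(2,1),(17,0)]⟩⟩,[.o ⟨false,0,
  ⟨0,[(17,0)]⟩,⟨7,[(12,3),(0,0),(0,0),(11,1),(7,3)]⟩⟩,.o ⟨false,1,⟨1,[(20,1),(5,0),(7,0)]⟩,⟨0,[(10,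
  0)]⟩⟩,.a ⟨true,0,⟨0,[(16,0)]⟩,⟨1,[(15,0),(8,0),(0,0)]⟩⟩ ⟨false,1,⟨1,[(13,0),(20,0)]⟩,⟨2,[(2,1),(0,
  0),(5,0),(12,0)]⟩⟩ ⟨true,0,⟨1,[(15,0),(1,0),(2,0)]⟩,⟨0,[(10,0),(5,0)]⟩⟩,.o ⟨false,0,⟨1,[(4,0),(11,
  1),(1,0)]⟩,⟨7,[(13,0),(0,0),(0,3),(10,1),(6,3)]⟩⟩]⟩) (.R ⟨2,true,false,true,[0,1],[1,0,0,-1],[1,1,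
  1],(⟨0,[]⟩,⟨0,[]⟩),(⟨1,[(15,0),(8,0),(0,0)]⟩,⟨0,[(16,0)]⟩),⟨0,[]⟩,.k,.k,.k,(.r 0 ⟨0,[(3,0),(19,
  0)]⟩ ⟨1,[(0,1),(5,1),(8,0),(1,0),(2,0)]⟩),.k,.k,⟨false,0,⟨2,[(2,1),(0,0),(5,0),(12,0)]⟩,⟨1,[(13,
  0),(19,0)]⟩⟩,⟨true,0,⟨1,[(4,0),(11,1),(1,0)]⟩,⟨1,[(15,0),(8,0),(0,0)]⟩⟩,⟨true,0,⟨0,[(31,0)]⟩,⟨0,
  [(32,0)]⟩⟩,⟨false,1,⟨2,[(0,0),(3,0),(1,1),(6,0),(2,1),(0,0),(0,0),(12,0)]⟩,⟨1,[(2,1),(12,0),(8,0),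
  (0,0),(3,1)]⟩⟩,⟨false,0,⟨0,[]⟩,⟨3,[(13,0),(0,0),(19,1)]⟩⟩,⟨true,0,⟨0,[(0,0),(16,0)]⟩,⟨5,[(2,3),(0,
  1),(5,1),(5,2),(6,1),(1,2),(0,2)]⟩⟩,[]⟩))) (.Q [0,0,0,0,0,0,1,1,-1,0,-1,1] (.p false [0,0,1] [0,0,
  0,1] (⟨0,[(23,0)]⟩,⟨0,[(22,0)]⟩) .k 2 (⟨0,[(14,0)]⟩,⟨1,[(13,0),(8,0),(0,0)]⟩) .k (.r 0 ⟨0,[(0,0),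
  (4,0),(24,0)]⟩ ⟨3,[(1,1),(2,1),(7,0),(5,1),(0,1),(11,0)]⟩)) (.Q [0,0,0,0,0,1,0,0,0,0,0,-1] (.p
  false [0,0,0,1] [] (⟨0,[(15,0)]⟩,⟨1,[(14,0),(8,0),(0,0)]⟩) .k 0 (⟨0,[]⟩,⟨0,[]⟩) .k .k) (.R ⟨0,
  false,false,false,[0,0,0,1],[0,0,1],[0,1,1],(⟨0,[(16,0)]⟩,⟨1,[(15,0),(8,0),(0,0)]⟩),(⟨0,[(25,0)]⟩,
  ⟨0,[(24,0)]⟩),⟨0,[(0,0)]⟩,.k,.k,(.r (-1) ⟨2,[(3,0),(2,1),(0,0),(6,0),(15,0),(0,0)]⟩ ⟨0,[(2,0),(29,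
  0)]⟩),.k,.k,.k,⟨true,0,⟨0,[(20,0),(0,0)]⟩,⟨0,[(7,0),(21,0)]⟩⟩,⟨false,1,⟨0,[(16,0),(4,0),(11,0)]⟩,
  ⟨1,[(11,1),(3,0),(8,0),(0,0)]⟩⟩,⟨false,0,⟨0,[(2,0)]⟩,⟨1,[(3,1),(3,1),(25,0),(0,0)]⟩⟩,⟨true,0,⟨0,
  [(1,0)]⟩,⟨1,[(3,1),(3,1),(7,0),(1,0),(2,0)]⟩⟩,⟨false,0,⟨0,[]⟩,⟨0,[]⟩⟩,⟨false,0,⟨0,[]⟩,⟨0,[]⟩⟩,[.o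
  ⟨false,0,⟨0,[(10,0)]⟩,⟨1,[(20,1),(5,0),(7,0)]⟩⟩,.o ⟨false,1,⟨7,[(12,3),(0,0),(0,0),(11,1),(7,3)]⟩,
  ⟨0,[(17,0)]⟩⟩,.a ⟨true,0,⟨1,[(15,0),(8,0),(0,0)]⟩,⟨0,[(16,0)]⟩⟩ ⟨false,0,⟨1,[(21,0),(0,0)]⟩,⟨1,
  [(33,0),(0,0)]⟩⟩ ⟨true,0,⟨0,[(10,0),(5,0)]⟩,⟨1,[(15,0),(1,0),(2,0)]⟩⟩,.o ⟨false,0,⟨1,[(4,0),(10,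
  0),(6,0)]⟩,⟨1,[(16,1),(9,0),(6,0)]⟩⟩]⟩) (.Q [0,0,0,1,0,0,-1,-1,1,0,1,-1] (.p true [0,0,1] [0,0,0,
  1] (⟨0,[(25,0)]⟩,⟨0,[(24,0)]⟩) .k 2 (⟨0,[(16,0)]⟩,⟨1,[(15,0),(8,0),(0,0)]⟩) .k (.r 0 ⟨0,[(2,0),(4,
  0),(24,0)]⟩ ⟨3,[(3,1),(2,1),(7,0),(5,1),(0,1),(11,0)]⟩)) (.R ⟨1,true,false,false,[1,0,0,-1],[1,0,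
  -1],[0,1,0,0,0,0,0,0,-1],(⟨1,[(16,0),(8,0),(0,0)]⟩,⟨0,[(17,0)]⟩),(⟨0,[(25,0)]⟩,⟨0,[(26,0)]⟩),⟨0,
  [(1,0),(14,0)]⟩,.k,.k,(.r (-1) ⟨0,[(3,0),(3,0),(23,0)]⟩ ⟨0,[(4,0),(19,0)]⟩),.k,(.r (-1) ⟨3,[(8,3),
  (5,2),(0,0)]⟩ ⟨0,[(0,0),(0,2),(3,0),(10,0),(12,2)]⟩),.k,⟨false,0,⟨1,[(2,1),(5,0),(3,0),(3,0),(4,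
  0),(9,0),(1,0)]⟩,⟨0,[(4,0),(2,0)]⟩⟩,⟨true,0,⟨1,[(12,1),(3,0),(8,0),(0,0)]⟩,⟨0,[(17,0),(4,0)]⟩⟩,
  ⟨true,0,⟨0,[(37,0)]⟩,⟨0,[]⟩⟩,⟨false,1,⟨3,[(0,1),(3,1),(2,3),(8,0),(2,0),(3,0)]⟩,⟨0,[(2,0)]⟩⟩,
  ⟨false,0,⟨0,[(33,0)]⟩,⟨1,[(7,1),(14,0),(0,0)]⟩⟩,⟨true,0,⟨0,[(0,0)]⟩,⟨0,[(2,0),(29,0)]⟩⟩,[]⟩) (.R
  ⟨1,false,false,false,[1,0,0,-1],[1,0,-1],[0,1,0,0,0,0,0,0,-1],(⟨1,[(16,0),(8,0),(0,0)]⟩,⟨0,[(17,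
  0)]⟩),(⟨0,[(25,0)]⟩,⟨0,[(26,0)]⟩),⟨0,[(1,0),(14,0)]⟩,.k,.k,(.r (-1) ⟨5,[(0,1),(6,3),(6,1),(1,0),
  (1,0),(2,0),(9,1)]⟩ ⟨0,[(4,0),(19,0)]⟩),.k,(.x 0 ⟨0,[(5,0),(20,0),(1,0)]⟩ ⟨0,[(6,0),(16,0),(10,
  0)]⟩),.k,⟨false,0,⟨1,[(2,1),(5,0),(3,0),(3,0),(4,0),(9,0),(1,0)]⟩,⟨0,[(4,0),(2,0)]⟩⟩,⟨true,0,⟨1,
  [(12,1),(3,0),(8,0),(0,0)]⟩,⟨0,[(17,0),(4,0)]⟩⟩,⟨true,0,⟨0,[(37,0)]⟩,⟨0,[]⟩⟩,⟨false,1,⟨1,[(4,1),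
  (2,0),(0,0),(3,0),(3,0),(4,0),(13,0)]⟩,⟨0,[(2,0)]⟩⟩,⟨false,0,⟨0,[(33,0)]⟩,⟨1,[(7,1),(14,0),(0,
  0)]⟩⟩,⟨false,1,⟨1,[(4,1),(7,1),(3,0),(8,0),(0,0),(7,0),(0,0)]⟩,⟨0,[(0,0)]⟩⟩,[.o ⟨false,1,⟨1,[(21,
  1),(5,0),(7,0)]⟩,⟨0,[(11,0)]⟩⟩,.o ⟨false,1,⟨0,[(18,0),(16,0)]⟩,⟨0,[(20,0)]⟩⟩,.a ⟨true,0,⟨0,[(17,
  0)]⟩,⟨1,[(16,0),(8,0),(0,0)]⟩⟩ ⟨true,0,⟨0,[(3,0),(27,0)]⟩,⟨0,[(4,0),(3,0)]⟩⟩ ⟨false,1,⟨1,[(16,0),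
  (1,0),(2,0),(13,1)]⟩,⟨0,[(11,0),(5,0)]⟩⟩,.o ⟨false,0,⟨1,[(5,0),(11,1),(1,0)]⟩,⟨7,[(14,0),(0,0),(0,
  3),(10,1),(6,3)]⟩⟩]⟩))) (.K ⟨2,[0,0,0,1],0,0,(⟨0,[(15,0)]⟩,⟨1,[(14,0),(8,0),(0,0)]⟩),.k,(.r (-1)
  ⟨4,[(0,0),(4,2),(2,0),(4,1),(1,0),(13,1),(0,0)]⟩ ⟨0,[(1,0),(29,0)]⟩),(.r 0 ⟨0,[(2,0),(19,0)]⟩ ⟨0,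
  [(1,0),(3,0),(23,0)]⟩),.k,.k,[⟨0,[(0,0)]⟩,⟨0,[(1,0),(13,0),(13,0)]⟩,⟨1,[(15,1),(4,0),(0,0)]⟩,⟨1,
  [(3,0),(10,0),(6,0)]⟩]⟩))))) (.I [0,0,1,1,-1,0,0,1] (.Q [0,-1,0,1,0,0,1,1,0,1,-1] (.p false [0,0,
  1] [1] (⟨0,[(21,0)]⟩,⟨0,[(20,0)]⟩) .k 1 (⟨0,[]⟩,⟨0,[]⟩) .k .k) (.R ⟨2,true,false,true,[0,1],[1,0,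
  -1],[0,1,1,1],(⟨0,[]⟩,⟨0,[]⟩),(⟨0,[(21,0)]⟩,⟨0,[(22,0)]⟩),⟨0,[]⟩,.k,.k,.k,.k,.k,.k,⟨true,(-1),⟨0,
  [(1,0)]⟩,⟨0,[(3,0),(13,0),(0,0)]⟩⟩,⟨false,0,⟨0,[(8,0)]⟩,⟨0,[(18,0),(2,0),(0,0),(7,0)]⟩⟩,⟨true,0,
  ⟨0,[(33,0)]⟩,⟨0,[]⟩⟩,⟨false,1,⟨1,[(3,1),(10,1),(3,0),(0,0)]⟩,⟨0,[(0,0)]⟩⟩,⟨false,0,⟨0,[(29,0)]⟩,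
  ⟨1,[(3,1),(14,0),(0,0)]⟩⟩,⟨true,0,⟨0,[(14,0)]⟩,⟨1,[(9,0),(11,0),(0,0)]⟩⟩,[]⟩) (.Q [0,0,0,0,0,-1,0,
  0,0,1,-1] (.ed true [0,1,1] .k) (.Q [0,0,2,0,-1,0,-1,0,0,0,1] (.p true [0,0,1] [] (⟨0,[(23,0)]⟩,
  ⟨0,[(22,0)]⟩) .k 0 (⟨0,[]⟩,⟨0,[]⟩) .k .k) (.K ⟨2,[0,1,1],1,0,(⟨0,[(24,0),(2,0)]⟩,⟨0,[(1,0)]⟩),.k,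
  .k,(.r 1 ⟨0,[(3,0),(24,0),(6,0)]⟩ ⟨0,[(5,1),(13,0),(0,0),(8,0)]⟩),.k,.k,[⟨0,[(31,0)]⟩,⟨0,[(2,0),
  (20,0),(0,0)]⟩,⟨0,[(0,0)]⟩,⟨3,[(12,0),(0,0),(6,3),(11,1)]⟩]⟩) (.Q [0,1,0,1,0,0,-2,-2,0,-1,2] (.p
  true [0,0,1] [1,0,-1] (⟨0,[(24,0)]⟩,⟨0,[(23,0)]⟩) .k 2 (⟨0,[(23,0)]⟩,⟨0,[(24,0)]⟩) .k (.r 1 ⟨0,
  [(3,0),(2,0)]⟩ ⟨5,[(0,3),(11,0),(0,0),(5,11),(0,7),(12,5)]⟩)) (.Q [0,-1,0,0,0,0,2,2,0,1,-2] (.p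
  false [0,0,1] [1,0,-1] (⟨0,[(25,0)]⟩,⟨0,[(24,0)]⟩) .k 2 (⟨0,[(24,0)]⟩,⟨0,[(25,0)]⟩) .k (.r 1 ⟨0,
  [(4,0),(2,0)]⟩ ⟨5,[(1,3),(11,0),(0,0),(5,11),(0,7),(12,5)]⟩)) (.R ⟨1,true,false,true,[0,0,1],[1,0,
  -1],[0,1,0,0,0,0,0,1],(⟨0,[(26,0)]⟩,⟨0,[(25,0)]⟩),(⟨0,[(25,0)]⟩,⟨0,[(26,0)]⟩),⟨0,[(6,0)]⟩,.k,.k,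
  .k,.k,(.r 0 ⟨0,[(8,0),(15,0)]⟩ ⟨1,[(1,0),(0,0),(18,1),(0,2),(2,0),(0,0),(3,0),(4,0)]⟩),.k,⟨true,
  (-1),⟨0,[(5,0),(2,0)]⟩,⟨0,[(1,0),(5,0),(14,1),(2,0),(0,0)]⟩⟩,⟨false,0,⟨1,[(1,1),(3,0),(2,2),(26,
  0)]⟩,⟨5,[(2,3),(11,0),(0,0),(6,7),(2,5),(0,5)]⟩⟩,⟨true,0,⟨0,[(37,0)]⟩,⟨0,[]⟩⟩,⟨false,1,⟨7,[(1,3),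
  (2,3),(9,0),(0,0),(5,3),(13,5)]⟩,⟨0,[(0,0)]⟩⟩,⟨false,0,⟨0,[(33,0)]⟩,⟨1,[(7,1),(14,0),(0,0)]⟩⟩,
  ⟨true,0,⟨0,[(1,0)]⟩,⟨0,[(0,0),(31,0)]⟩⟩,[]⟩) (.Q [0,0,0,0,0,0,-1,-1,-1,-1,1,1] (.p true [0,0,1]
  [1,0,0,-1] (⟨0,[(26,0)]⟩,⟨0,[(25,0)]⟩) .k 2 (⟨1,[(16,0),(8,0),(0,0)]⟩,⟨0,[(17,0)]⟩) .k (.x (-1)
  ⟨2,[(2,0),(11,0),(0,0),(6,1),(3,2)]⟩ ⟨0,[(12,0),(12,0)]⟩)) (.R ⟨1,false,false,false,[1,0,0,-1],[0,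
  -1,1],[0,1,0,0,0,0,0,0,-1],(⟨1,[(17,0),(8,0),(0,0)]⟩,⟨0,[(18,0)]⟩),(⟨0,[(7,0)]⟩,⟨0,[(26,0),(3,
  0)]⟩),⟨1,[(4,0),(2,0),(9,0)]⟩,.k,.k,(.x 0 ⟨1,[(4,0),(2,0),(12,0),(2,0)]⟩ ⟨3,[(15,0),(0,0),(13,3),
  (4,1)]⟩),(.r 0 ⟨1,[(0,1),(16,0),(5,1),(2,0),(0,0),(6,1)]⟩ ⟨3,[(9,3),(5,0),(0,2)]⟩),.k,.k,⟨false,0,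
  ⟨1,[(0,1),(16,0),(5,1),(2,0),(0,0),(4,1),(1,1)]⟩,⟨1,[(9,1),(6,0),(19,0)]⟩⟩,⟨true,0,⟨1,[(17,0),(5,
  1),(2,0),(0,0)]⟩,⟨0,[(13,0),(4,0)]⟩⟩,⟨true,0,⟨0,[(38,0)]⟩,⟨0,[]⟩⟩,⟨false,1,⟨1,[(11,1),(4,0),(0,0),
  (8,0),(0,0),(8,0)]⟩,⟨0,[(0,0),(33,0)]⟩⟩,⟨false,0,⟨0,[(34,0)]⟩,⟨1,[(8,1),(14,0),(0,0)]⟩⟩,⟨false,1,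
  ⟨1,[(14,0),(1,0),(0,0),(18,0)]⟩,⟨0,[(0,0)]⟩⟩,[.o ⟨false,0,⟨0,[(11,0)]⟩,⟨3,[(2,1),(12,0),(0,0),(11,
  0),(5,1),(1,0)]⟩⟩,.o ⟨false,1,⟨3,[(11,3),(3,0),(0,0),(19,1)]⟩,⟨9,[(2,6),(0,1),(2,2),(12,0),(1,1),
  (1,0),(4,0)]⟩⟩,.a ⟨true,0,⟨0,[(18,0)]⟩,⟨1,[(17,0),(8,0),(0,0)]⟩⟩ ⟨false,0,⟨1,[(0,1),(13,0),(2,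
  0)]⟩,⟨1,[(16,0),(19,0)]⟩⟩ ⟨true,0,⟨1,[(11,1),(5,0),(8,0),(0,0)]⟩,⟨9,[(2,6),(0,1),(2,2),(11,9),(0,
  0),(1,1),(1,0),(4,0)]⟩⟩,.o ⟨false,0,⟨0,[(13,0),(4,0),(4,0)]⟩,⟨7,[(15,0),(0,0),(0,3),(10,1),(6,
  3)]⟩⟩]⟩) (.Q [0,0,0,0,0,0,1,1,-1,0,-1,1] (.p false [0,0,1] [0,0,0,1] (⟨0,[(27,0)]⟩,⟨0,[(26,0)]⟩)
  .k 2 (⟨0,[(18,0)]⟩,⟨1,[(17,0),(8,0),(0,0)]⟩) .k (.r 0 ⟨1,[(6,0),(2,0),(5,0)]⟩ ⟨2,[(0,0),(0,1),(1,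
  0),(12,0),(1,0),(4,1),(2,0),(0,0),(8,0)]⟩)) (.I [0,0,0,0,0,0,0,0,-1] (.R ⟨1,false,false,false,[1,
  0,0,-1],[1,0,-1],[0,0,0,0,0,0,0,0,-1],(⟨1,[(19,0),(8,0),(0,0)]⟩,⟨0,[(20,0)]⟩),(⟨0,[(28,0)]⟩,⟨0,
  [(29,0)]⟩),⟨1,[(6,0),(2,0),(9,0)]⟩,.k,.k,(.r (-1) ⟨3,[(0,1),(9,1),(6,0),(17,1),(1,0)]⟩ ⟨2,[(2,0),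
  (1,0),(3,0),(9,0),(1,0),(4,0),(7,0)]⟩),.k,(.r 0 ⟨0,[(0,0),(10,0)]⟩ ⟨11,[(5,3),(11,0),(0,6),(5,11),
  (0,7),(7,11)]⟩),.k,⟨false,0,⟨1,[(0,1),(7,0),(2,0),(25,0)]⟩,⟨2,[(2,0),(0,1),(1,0),(12,0),(1,0),(4,
  1),(2,0),(0,0),(8,0)]⟩⟩,⟨true,0,⟨7,[(4,1),(3,0),(2,2),(3,1),(3,3),(6,1),(11,0)]⟩,⟨0,[(20,0),(4,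
  0)]⟩⟩,⟨false,1,⟨3,[(17,0),(0,0),(19,1)]⟩,⟨0,[]⟩⟩,⟨false,1,⟨0,[(2,0),(0,0),(34,0)]⟩,⟨0,[(1,0)]⟩⟩,
  ⟨true,0,⟨0,[(36,0)]⟩,⟨0,[(35,0)]⟩⟩,⟨false,1,⟨0,[(2,0),(1,0),(33,0)]⟩,⟨0,[(0,0),(12,0),(6,0)]⟩⟩,
  [.o ⟨false,1,⟨3,[(3,1),(13,0),(0,0),(11,0),(7,0)]⟩,⟨0,[(14,0)]⟩⟩,.o ⟨false,1,⟨3,[(3,1),(26,0),(7,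
  2)]⟩,⟨0,[(23,0)]⟩⟩,.a ⟨true,0,⟨0,[(20,0)]⟩,⟨1,[(19,0),(8,0),(0,0)]⟩⟩ ⟨true,0,⟨0,[(0,0)]⟩,⟨3,[(2,
  1),(0,0),(3,0),(0,0),(9,0),(1,1),(4,0),(8,1)]⟩⟩ ⟨false,1,⟨7,[(3,3),(13,0),(0,0),(0,3),(18,5)]⟩,⟨0,
  [(14,0),(5,0)]⟩⟩,.o ⟨false,0,⟨0,[(15,0),(4,0),(4,0)]⟩,⟨7,[(17,0),(0,0),(0,3),(10,1),(6,3)]⟩⟩]⟩)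
  (.R ⟨1,false,false,false,[1,0,0,-1],[0,-1,1],[0,0,0,0,0,0,0,0,-1],(⟨1,[(19,0),(8,0),(0,0)]⟩,⟨0,
  [(20,0)]⟩),(⟨0,[(9,0)]⟩,⟨0,[(28,0),(3,0)]⟩),⟨1,[(6,0),(2,0),(9,0)]⟩,.k,.k,(.r (-1) ⟨13,[(1,5),(1,
  3),(1,1),(4,7),(0,1),(5,3),(1,2),(8,0),(0,0),(5,3)]⟩ ⟨2,[(0,0),(7,0),(9,0),(5,0),(0,0),(7,0),(2,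
  0)]⟩),(.r (-1) ⟨11,[(5,3),(11,6),(0,0),(5,11),(0,7),(7,11)]⟩ ⟨0,[(0,0),(10,0)]⟩),.k,.k,⟨false,1,
  ⟨1,[(4,0),(0,0),(11,0),(7,0),(2,0),(0,0),(3,0)]⟩,⟨0,[(0,0),(10,0)]⟩⟩,⟨true,0,⟨1,[(19,0),(5,1),(2,
  0),(0,0)]⟩,⟨0,[(15,0),(4,0)]⟩⟩,⟨false,1,⟨3,[(17,0),(0,0),(19,1)]⟩,⟨0,[]⟩⟩,⟨true,0,⟨1,[(0,1),(12,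
  1),(5,0),(8,0),(0,0)]⟩,⟨0,[(1,0),(2,0)]⟩⟩,⟨true,0,⟨0,[(36,0)]⟩,⟨0,[(35,0)]⟩⟩,⟨true,0,⟨0,[(2,0)]⟩,
  ⟨0,[(1,0),(1,0)]⟩⟩,[.o ⟨false,0,⟨0,[(13,0)]⟩,⟨3,[(4,1),(12,0),(0,0),(11,0),(5,1),(1,0)]⟩⟩,.o
  ⟨false,1,⟨3,[(13,3),(3,0),(0,0),(19,1)]⟩,⟨9,[(4,6),(0,1),(2,2),(12,0),(1,1),(1,0),(4,0)]⟩⟩,.a
  ⟨true,0,⟨0,[(20,0)]⟩,⟨1,[(19,0),(8,0),(0,0)]⟩⟩ ⟨false,1,⟨1,[(17,0),(20,0)]⟩,⟨0,[(0,0)]⟩⟩ ⟨true,0,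
  ⟨1,[(13,1),(5,0),(8,0),(0,0)]⟩,⟨9,[(4,6),(0,1),(2,2),(11,9),(0,0),(1,1),(1,0),(4,0)]⟩⟩,.o ⟨false,
  0,⟨0,[(15,0),(4,0),(4,0)]⟩,⟨7,[(17,0),(0,0),(0,3),(10,1),(6,3)]⟩⟩]⟩)) (.R ⟨1,false,false,true,[1,
  0,0,-1],[1,0,-1],[0,0,0,0,0,0,0,0,-1],(⟨1,[(18,0),(8,0),(0,0)]⟩,⟨0,[(19,0)]⟩),(⟨0,[(27,0)]⟩,⟨0,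
  [(28,0)]⟩),⟨1,[(5,0),(2,0),(9,0)]⟩,.k,.k,(.x 0 ⟨1,[(5,0),(2,0),(12,0),(2,0)]⟩ ⟨3,[(16,0),(0,0),
  (13,3),(4,1)]⟩),.k,(.r (-1) ⟨3,[(10,3),(5,2),(0,0)]⟩ ⟨0,[(0,0),(18,0),(4,0),(10,0)]⟩),.k,⟨false,1,
  ⟨1,[(7,0),(2,0),(5,0),(19,0),(0,0)]⟩,⟨0,[(0,0),(18,0),(4,0),(8,0)]⟩⟩,⟨true,0,⟨7,[(3,1),(3,0),(2,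
  2),(3,1),(3,3),(6,1),(11,0)]⟩,⟨0,[(19,0),(4,0)]⟩⟩,⟨false,1,⟨3,[(16,0),(0,0),(19,1)]⟩,⟨0,[]⟩⟩,
  ⟨false,0,⟨0,[(0,0)]⟩,⟨1,[(13,1),(2,0),(2,1),(17,0)]⟩⟩,⟨true,0,⟨0,[(35,0)]⟩,⟨0,[(34,0)]⟩⟩,⟨false,0,
  ⟨0,[(0,0),(34,0)]⟩,⟨1,[(12,1),(3,0),(2,1),(17,0)]⟩⟩,[.o ⟨false,0,⟨0,[(20,0)]⟩,⟨7,[(15,3),(0,0),(0,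
  0),(11,1),(7,3)]⟩⟩,.o ⟨false,1,⟨3,[(2,1),(13,0),(0,0),(11,0),(7,0)]⟩,⟨0,[(13,0)]⟩⟩,.a ⟨true,0,⟨0,
  [(19,0)]⟩,⟨1,[(18,0),(8,0),(0,0)]⟩⟩ ⟨false,1,⟨1,[(16,0),(20,0)]⟩,⟨7,[(0,5),(3,1),(2,2),(4,2),(4,
  0),(1,5),(4,0)]⟩⟩ ⟨true,0,⟨1,[(2,0),(15,0),(20,0)]⟩,⟨0,[(13,0),(5,0)]⟩⟩,.o ⟨false,0,⟨0,[(14,0),(4,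
  0),(4,0)]⟩,⟨7,[(16,0),(0,0),(0,3),(10,1),(6,3)]⟩⟩]⟩)))) (.Q [0,0,0,0,0,0,1,1,1,1,-1,-1] (.p false
  [0,0,1] [1,0,0,-1] (⟨0,[(25,0)]⟩,⟨0,[(24,0)]⟩) .k 2 (⟨1,[(15,0),(8,0),(0,0)]⟩,⟨0,[(16,0)]⟩) .k
  (.x (-1) ⟨2,[(1,0),(11,0),(0,0),(6,1),(3,2)]⟩ ⟨0,[(11,0),(12,0)]⟩)) (.I [1,-1,1,1,0,0,0,0,-1] (.I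
  [0,-1,1,0,0,0,0,0,-1] (.R ⟨1,false,false,true,[1,0,0,-1],[0,0,1],[0,0,0,0,0,0,0,0,-1],(⟨1,[(18,0),
  (8,0),(0,0)]⟩,⟨0,[(19,0)]⟩),(⟨0,[(28,0)]⟩,⟨0,[(27,0)]⟩),⟨1,[(5,0),(2,0),(9,0)]⟩,.k,.k,(.r (-1) ⟨2,
  [(0,0),(3,0),(4,0),(0,0),(5,0),(6,0),(10,0)]⟩ ⟨0,[(2,0),(16,0),(0,0),(11,0)]⟩),.k,(.r (-1) ⟨0,[(0,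
  0),(3,0),(1,0),(20,0),(0,0)]⟩ ⟨3,[(7,3),(8,0),(0,2)]⟩),.k,⟨true,1,⟨0,[(0,0),(3,0),(1,0),(20,0),(0,
  0),(3,0)]⟩,⟨0,[(2,0),(3,0),(0,0),(11,0)]⟩⟩,⟨false,1,⟨5,[(4,3),(11,0),(0,0),(0,2),(5,1),(2,2),(0,
  2)]⟩,⟨0,[(14,0),(4,0)]⟩⟩,⟨false,1,⟨3,[(16,0),(0,0),(19,1)]⟩,⟨0,[]⟩⟩,⟨false,0,⟨0,[(2,0)]⟩,⟨0,[(1,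
  0),(7,0),(9,0),(0,0)]⟩⟩,⟨true,0,⟨0,[(35,0)]⟩,⟨0,[(34,0)]⟩⟩,⟨false,0,⟨0,[(2,0),(32,0)]⟩,⟨0,[(0,0),
  (8,0),(9,0),(0,0)]⟩⟩,[.o ⟨false,0,⟨0,[(22,0)]⟩,⟨0,[(20,0),(16,0)]⟩⟩,.o ⟨false,0,⟨0,[(13,0)]⟩,⟨1,
  [(23,1),(5,0),(7,0)]⟩⟩,.a ⟨true,0,⟨0,[(19,0)]⟩,⟨1,[(18,0),(8,0),(0,0)]⟩⟩ ⟨true,0,⟨0,[(0,0),(32,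
  0)]⟩,⟨0,[(2,0),(16,0),(0,0)]⟩⟩ ⟨false,0,⟨1,[(15,0),(2,0)]⟩,⟨0,[(19,0),(0,0),(16,0)]⟩⟩,.o ⟨false,0,
  ⟨0,[(14,0),(4,0),(4,0)]⟩,⟨7,[(16,0),(0,0),(0,3),(10,1),(6,3)]⟩⟩]⟩) (.I [0,1,-1,0,0,0,0,0,1] (.R
  ⟨1,false,false,false,[1,0,0,-1],[0,-1,1],[1,0,0,-1,0,0,0,0,-1],(⟨1,[(19,0),(8,0),(0,0)]⟩,⟨0,[(20,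
  0)]⟩),(⟨0,[(9,0)]⟩,⟨0,[(28,0),(3,0)]⟩),⟨1,[(6,0),(2,0),(9,0)]⟩,.k,.k,(.r (-1) ⟨10,[(2,0),(1,0),(0,
  2),(1,4),(2,2),(0,2),(5,4),(10,3),(0,3)]⟩ ⟨2,[(0,0),(7,0),(9,0),(5,0),(0,0),(7,1)]⟩),(.x (-1) ⟨3,
  [(15,3),(1,0),(0,0),(9,3),(3,3),(4,1)]⟩ ⟨0,[(9,0),(15,0)]⟩),.k,.k,⟨false,1,⟨4,[(2,2),(2,1),(1,0),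
  (2,1),(6,0),(6,3),(0,2),(2,0),(0,0)]⟩,⟨1,[(0,1),(7,0),(2,0),(26,0)]⟩⟩,⟨true,0,⟨1,[(19,0),(5,1),(2,
  0),(0,0)]⟩,⟨0,[(15,0),(4,0)]⟩⟩,⟨false,1,⟨1,[(10,1),(14,0),(0,0)]⟩,⟨0,[(36,0)]⟩⟩,⟨true,0,⟨1,[(0,1),
  (3,1),(2,1),(11,0),(8,0),(0,0),(3,1)]⟩,⟨0,[(2,0),(17,0),(0,0),(12,0)]⟩⟩,⟨true,0,⟨0,[]⟩,⟨0,[(40,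
  0)]⟩⟩,⟨true,0,⟨0,[(3,0)]⟩,⟨0,[(2,0),(4,0),(12,0),(13,0)]⟩⟩,[.o ⟨false,0,⟨0,[(13,0)]⟩,⟨1,[(24,1),
  (5,0),(5,1),(1,0)]⟩⟩,.o ⟨false,1,⟨7,[(4,3),(5,3),(6,0),(0,0),(6,1),(0,1),(3,1)]⟩,⟨0,[(21,0),(14,
  0)]⟩⟩,.a ⟨true,0,⟨0,[(20,0)]⟩,⟨1,[(19,0),(8,0),(0,0)]⟩⟩ ⟨false,1,⟨0,[(2,0),(7,0),(24,0)]⟩,⟨0,[(0,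
  0),(32,0)]⟩⟩ ⟨true,0,⟨1,[(4,0),(14,0),(15,0)]⟩,⟨0,[(20,0),(0,0),(14,0)]⟩⟩,.o ⟨false,0,⟨0,[(15,0),
  (4,0),(4,0)]⟩,⟨7,[(17,0),(0,0),(0,3),(10,1),(6,3)]⟩⟩]⟩) (.R ⟨2,true,false,false,[0,1],[1,0,0,-1],
  [0,1,1,1],(⟨0,[]⟩,⟨0,[]⟩),(⟨1,[(19,0),(8,0),(0,0)]⟩,⟨0,[(20,0)]⟩),⟨0,[]⟩,.k,.k,.k,(.r 0 ⟨2,[(1,0),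
  (6,0),(9,0),(5,0),(0,0),(7,1)]⟩ ⟨2,[(0,0),(4,0),(4,0),(0,0),(5,0),(6,0),(10,0)]⟩),.k,.k,⟨false,0,
  ⟨3,[(1,1),(6,0),(9,0),(5,0),(0,0),(10,2),(3,0)]⟩,⟨1,[(0,1),(4,0),(4,0),(0,0),(12,0)]⟩⟩,⟨true,0,⟨0,
  [(15,0),(4,0),(4,0)]⟩,⟨1,[(19,0),(8,0),(0,0)]⟩⟩,⟨true,0,⟨0,[(40,0)]⟩,⟨0,[]⟩⟩,⟨false,1,⟨13,[(0,11),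
  (4,1),(1,3),(2,5),(0,1),(1,1),(3,0),(2,13),(9,4)]⟩,⟨1,[(1,1),(17,0),(8,0),(0,0),(3,1)]⟩⟩,⟨false,0,
  ⟨0,[(36,0)]⟩,⟨2,[(0,1),(9,1),(7,0),(16,0)]⟩⟩,⟨true,0,⟨0,[(0,0),(4,0),(1,0),(0,0),(11,0)]⟩,⟨0,[(3,
  0),(20,0)]⟩⟩,[]⟩))) (.Q [0,-1,0,0,1,0,-1,-1,-1,-1,1,1] (.p true [0,0,1] [1,0,0,-1] (⟨0,[(27,0)]⟩,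
  ⟨0,[(26,0)]⟩) .k 2 (⟨1,[(17,0),(8,0),(0,0)]⟩,⟨0,[(18,0)]⟩) .k (.x (-1) ⟨2,[(3,0),(11,0),(0,0),(6,
  1),(3,2)]⟩ ⟨0,[(13,0),(12,0)]⟩)) (.I [0,1,0,0,0,0,0,0,-1] (.R ⟨1,false,false,true,[1,0,0,-1],[0,
  -1,1],[0,1,0,0,0,0,0,0,-1],(⟨1,[(19,0),(8,0),(0,0)]⟩,⟨0,[(20,0)]⟩),(⟨0,[(9,0)]⟩,⟨0,[(28,0),(3,
  0)]⟩),⟨1,[(6,0),(2,0),(9,0)]⟩,.k,.k,(.r (-1) ⟨0,[(0,0),(9,0)]⟩ ⟨2,[(2,0),(5,0),(9,0),(5,0),(0,0),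
  (7,1),(2,0)]⟩),(.r (-1) ⟨11,[(5,3),(11,6),(0,0),(5,11),(0,7),(7,11)]⟩ ⟨1,[(2,1),(5,0),(2,0),(26,
  0)]⟩),.k,.k,⟨false,1,⟨5,[(0,3),(0,1),(3,3),(13,0),(4,3),(0,1),(2,0),(0,0),(3,5)]⟩,⟨1,[(2,1),(5,0),
  (2,0),(26,0)]⟩⟩,⟨true,0,⟨1,[(19,0),(5,1),(2,0),(0,0)]⟩,⟨0,[(15,0),(4,0)]⟩⟩,⟨true,0,⟨0,[(40,0)]⟩,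
  ⟨0,[]⟩⟩,⟨false,0,⟨3,[(2,3),(1,1),(14,1),(5,0),(0,0),(6,1)]⟩,⟨0,[(1,0),(34,0)]⟩⟩,⟨false,0,⟨0,[(36,
  0)]⟩,⟨1,[(10,1),(14,0),(0,0)]⟩⟩,⟨false,0,⟨0,[(3,0)]⟩,⟨0,[(1,0)]⟩⟩,[.o ⟨false,0,⟨1,[(13,0),(9,0),
  (11,0)]⟩,⟨0,[(21,0),(14,0),(1,0)]⟩⟩,.o ⟨false,0,⟨0,[(13,0)]⟩,⟨3,[(1,1),(16,0),(0,0),(1,0),(2,0),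
  (5,0),(5,3)]⟩⟩,.a ⟨true,0,⟨0,[(20,0)]⟩,⟨1,[(19,0),(8,0),(0,0)]⟩⟩ ⟨true,0,⟨0,[(0,0)]⟩,⟨0,[(2,0),
  (30,0)]⟩⟩ ⟨false,0,⟨1,[(4,0),(14,0),(15,0)]⟩,⟨0,[(20,0),(0,0),(14,0),(1,0)]⟩⟩,.o ⟨false,0,⟨0,[(15,
  0),(4,0),(4,0)]⟩,⟨7,[(17,0),(0,0),(0,3),(10,1),(6,3)]⟩⟩]⟩) (.R ⟨1,true,false,true,[1,0,-1],[0,0,0,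
  1],[0,1,0,0,0,0,0,-1],(⟨0,[(28,0)]⟩,⟨0,[(29,0)]⟩),(⟨0,[(20,0)]⟩,⟨1,[(19,0),(8,0),(0,0)]⟩),⟨0,[(6,
  0)]⟩,.k,.k,.k,.k,(.r (-2) ⟨11,[(5,3),(4,11),(6,6),(0,0),(5,11),(0,7)]⟩ ⟨6,[(0,2),(1,1),(5,7),(9,
  0),(5,0),(0,0),(10,0)]⟩),.k,⟨true,1,⟨1,[(1,1),(17,0),(5,1),(2,0),(0,0),(4,1)]⟩,⟨0,[(0,0),(7,0),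
  (26,0)]⟩⟩,⟨false,1,⟨5,[(5,3),(11,0),(0,0),(0,2),(5,1),(2,2),(0,2)]⟩,⟨0,[(15,0),(4,0)]⟩⟩,⟨true,0,
  ⟨0,[(40,0)]⟩,⟨0,[]⟩⟩,⟨false,0,⟨0,[(3,0)]⟩,⟨0,[(1,0)]⟩⟩,⟨false,0,⟨0,[(36,0)]⟩,⟨1,[(10,1),(14,0),(0,
  0)]⟩⟩,⟨true,(-1),⟨1,[(0,1),(7,1),(10,0),(5,1),(2,0),(0,0),(4,3)]⟩,⟨0,[(1,0),(33,0)]⟩⟩,[]⟩)) (.I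
  [0,0,-1,-1,1,0,0,0,-1] (.R ⟨1,false,false,true,[1,0,0,-1],[1,-1],[0,0,0,0,0,0,0,0,-1],(⟨1,[(19,0),
  (8,0),(0,0)]⟩,⟨0,[(20,0)]⟩),(⟨0,[(31,0)]⟩,⟨0,[(32,0)]⟩),⟨1,[(6,0),(2,0),(9,0)]⟩,.k,.k,(.r (-1) ⟨0,
  [(0,0)]⟩ ⟨4,[(1,0),(6,0),(9,1),(1,0),(0,0),(2,0),(0,0),(7,2),(2,0)]⟩),(.x (-1) ⟨3,[(17,0),(0,0),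
  (13,3),(4,1)]⟩ ⟨1,[(6,0),(2,0),(12,0),(2,0)]⟩),.k,.k,⟨false,1,⟨1,[(17,0),(18,1),(1,0)]⟩,⟨0,[(2,
  0)]⟩⟩,⟨true,0,⟨1,[(19,0),(2,0),(2,0)]⟩,⟨0,[(20,0)]⟩⟩,⟨false,1,⟨3,[(17,0),(0,0),(19,1)]⟩,⟨0,[]⟩⟩,
  ⟨false,0,⟨0,[(1,0),(5,0),(30,0)]⟩,⟨1,[(17,0),(2,1),(15,1),(1,0)]⟩⟩,⟨true,0,⟨0,[(36,0)]⟩,⟨0,[(35,
  0)]⟩⟩,⟨false,0,⟨0,[(1,0),(19,0),(16,0)]⟩,⟨1,[(17,0),(2,1),(17,0)]⟩⟩,[.o ⟨false,0,⟨0,[(13,0),(7,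
  0)]⟩,⟨3,[(17,0),(0,0),(17,3),(1,1)]⟩⟩,.o ⟨false,1,⟨3,[(10,1),(14,0),(0,0),(3,1),(4,1)]⟩,⟨0,[(36,
  0)]⟩⟩,.a ⟨true,0,⟨0,[(20,0)]⟩,⟨1,[(19,0),(8,0),(0,0)]⟩⟩ ⟨false,1,⟨1,[(17,0),(20,0)]⟩,⟨0,[(2,0),
  (30,0)]⟩⟩ ⟨true,0,⟨3,[(7,1),(5,0),(5,1),(3,0),(11,0)]⟩,⟨0,[(20,0),(15,0)]⟩⟩,.o ⟨false,0,⟨0,[(15,
  0),(4,0),(4,0)]⟩,⟨7,[(17,0),(0,0),(0,3),(10,1),(6,3)]⟩⟩]⟩) (.R ⟨1,false,false,true,[1,0,0,-1],[1,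
  -1],[0,1,-1,-1],(⟨1,[(19,0),(8,0),(0,0)]⟩,⟨0,[(20,0)]⟩),(⟨0,[(31,0)]⟩,⟨0,[(32,0)]⟩),⟨1,[(6,0),(2,
  0),(9,0)]⟩,.k,.k,(.x 0 ⟨1,[(6,0),(2,0),(12,0),(2,0)]⟩ ⟨3,[(17,0),(0,0),(13,3),(4,1)]⟩),(.r 0 ⟨0,
  [(0,0),(16,0)]⟩ ⟨7,[(2,1),(7,3),(7,2),(16,1),(1,0)]⟩),.k,.k,⟨false,1,⟨3,[(17,0),(0,0),(18,1)]⟩,⟨0,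
  []⟩⟩,⟨true,0,⟨1,[(19,0),(2,0),(2,0)]⟩,⟨0,[(20,0)]⟩⟩,⟨true,0,⟨0,[(2,0)]⟩,⟨0,[(0,0),(16,0)]⟩⟩,
  ⟨false,0,⟨2,[(0,1),(2,0),(3,1),(2,1),(2,0),(5,0)]⟩,⟨1,[(17,0),(2,1),(15,1),(1,0)]⟩⟩,⟨false,0,⟨1,
  [(0,1),(4,0),(4,0),(0,0),(12,0)]⟩,⟨1,[(17,0),(7,0),(0,0),(11,0)]⟩⟩,⟨false,0,⟨19,[(0,11),(1,5),(7,
  5),(7,0),(0,9),(10,4)]⟩,⟨1,[(17,0),(2,1),(17,0)]⟩⟩,[.o ⟨false,0,⟨0,[(13,0),(7,0)]⟩,⟨3,[(17,0),(0,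
  0),(17,3),(1,1)]⟩⟩,.o ⟨false,1,⟨3,[(10,1),(14,0),(0,0),(3,1),(4,1)]⟩,⟨0,[(36,0)]⟩⟩,.a ⟨true,0,⟨0,
  [(20,0)]⟩,⟨1,[(19,0),(8,0),(0,0)]⟩⟩ ⟨false,1,⟨7,[(10,3),(6,0),(0,0),(16,3),(1,1)]⟩,⟨0,[(33,0)]⟩⟩
  ⟨true,0,⟨3,[(7,1),(5,0),(5,1),(3,0),(11,0)]⟩,⟨0,[(20,0),(15,0)]⟩⟩,.o ⟨false,0,⟨0,[(15,0),(4,0),(4,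
  0)]⟩,⟨7,[(17,0),(0,0),(0,3),(10,1),(6,3)]⟩⟩]⟩)))) (.R ⟨1,false,false,false,[1,0,0,-1],[0,-1,1],[0,
  1,0,0,0,0,0,0,-1],(⟨1,[(16,0),(8,0),(0,0)]⟩,⟨0,[(17,0)]⟩),(⟨0,[(6,0)]⟩,⟨0,[(25,0),(3,0)]⟩),⟨1,[(3,
  0),(2,0),(9,0)]⟩,.k,.k,(.x 0 ⟨1,[(3,0),(2,0),(12,0),(2,0)]⟩ ⟨3,[(14,0),(0,0),(13,3),(4,1)]⟩),(.r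
  0 ⟨1,[(0,1),(15,0),(5,1),(2,0),(0,0),(6,1)]⟩ ⟨3,[(8,3),(5,0),(0,2)]⟩),.k,.k,⟨false,0,⟨1,[(0,1),
  (15,0),(5,1),(2,0),(0,0),(4,1),(1,1)]⟩,⟨1,[(8,1),(6,0),(19,0)]⟩⟩,⟨true,0,⟨1,[(16,0),(5,1),(2,0),
  (0,0)]⟩,⟨0,[(12,0),(4,0)]⟩⟩,⟨true,0,⟨0,[(37,0)]⟩,⟨0,[]⟩⟩,⟨false,1,⟨3,[(1,1),(5,1),(7,1),(0,1),(5,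
  0),(0,0)]⟩,⟨0,[(0,0),(32,0)]⟩⟩,⟨false,0,⟨0,[(33,0)]⟩,⟨1,[(7,1),(14,0),(0,0)]⟩⟩,⟨false,1,⟨1,[(13,
  0),(1,0),(0,0),(18,0)]⟩,⟨0,[(0,0)]⟩⟩,[.o ⟨false,0,⟨0,[(10,0)]⟩,⟨1,[(21,1),(5,0),(5,1),(1,0)]⟩⟩,.o
  ⟨false,1,⟨7,[(1,3),(5,3),(6,0),(0,0),(6,1),(0,1),(3,1)]⟩,⟨0,[(18,0),(14,0)]⟩⟩,.a ⟨true,0,⟨0,[(17,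
  0)]⟩,⟨1,[(16,0),(8,0),(0,0)]⟩⟩ ⟨false,0,⟨1,[(0,1),(12,0),(2,0)]⟩,⟨1,[(15,0),(19,0)]⟩⟩ ⟨true,0,⟨1,
  [(1,0),(14,0),(15,0)]⟩,⟨0,[(17,0),(0,0),(14,0)]⟩⟩,.o ⟨false,0,⟨0,[(12,0),(4,0),(4,0)]⟩,⟨7,[(14,0),
  (0,0),(0,3),(10,1),(6,3)]⟩⟩]⟩)))) (.Q [0,0,-2,0,1,0,1,0,0,2,-1] (.p false [-1,1,1] [1] (⟨0,[(0,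
  0)]⟩,⟨0,[(22,0),(2,0)]⟩) .k 1 (⟨0,[]⟩,⟨0,[]⟩) .k .k) (.Q [0,-1,0,1,0,0,1,1,0,2,-1] (.p false [-1,
  1,1] [1] (⟨0,[(1,0)]⟩,⟨0,[(23,0),(2,0)]⟩) .k 1 (⟨0,[]⟩,⟨0,[]⟩) .k .k) (.R ⟨2,false,false,false,[0,
  1],[-1,1,1],[1,0,1],(⟨0,[]⟩,⟨0,[]⟩),(⟨0,[(2,0)]⟩,⟨0,[(24,0),(2,0)]⟩),⟨0,[]⟩,.k,.k,.k,.k,.k,.k,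
  ⟨true,1,⟨0,[(6,0),(13,0),(0,0)]⟩,⟨0,[(4,0)]⟩⟩,⟨false,1,⟨11,[(1,7),(11,0),(0,0),(6,3),(4,1)]⟩,⟨0,
  [(11,0)]⟩⟩,⟨false,1,⟨1,[(6,1),(14,0),(0,0)]⟩,⟨0,[(32,0)]⟩⟩,⟨true,0,⟨2,[(0,0),(11,0),(18,0)]⟩,⟨0,
  [(17,0)]⟩⟩,⟨true,0,⟨0,[]⟩,⟨0,[(36,0)]⟩⟩,⟨true,0,⟨1,[(0,0),(18,0),(12,0)]⟩,⟨0,[(3,0)]⟩⟩,[.o ⟨false,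
  0,⟨1,[(0,0),(18,0),(12,0)]⟩,⟨1,[(3,1),(22,0),(7,0)]⟩⟩,.a ⟨true,0,⟨0,[(0,0)]⟩,⟨0,[(3,0)]⟩⟩ ⟨false,
  1,⟨3,[(13,0),(0,0),(19,1)]⟩,⟨0,[(30,0)]⟩⟩ ⟨true,0,⟨5,[(0,1),(11,1),(8,0),(0,0),(6,3)]⟩,⟨0,[(3,
  0)]⟩⟩,.o ⟨false,1,⟨3,[(13,0),(0,0),(18,1)]⟩,⟨0,[(11,0),(9,0)]⟩⟩,.e ⟨true,0,⟨0,[]⟩,⟨0,[(36,0)]⟩⟩
  ⟨true,0,⟨1,[(0,0),(18,0),(12,0)]⟩,⟨0,[(3,0)]⟩⟩]⟩) (.Q [0,0,2,0,-1,0,-1,0,0,-1,1] (.p true [0,0,1]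
  [1] (⟨0,[(25,0)]⟩,⟨0,[(24,0)]⟩) .k 1 (⟨0,[]⟩,⟨0,[]⟩) .k .k) (.K ⟨0,[-1,1,1],1,0,(⟨0,[(3,0)]⟩,⟨0,
  [(25,0),(2,0)]⟩),.k,.k,(.r 1 ⟨0,[(5,0),(24,0),(6,0)]⟩ ⟨11,[(2,7),(1,11),(2,11),(6,0),(0,0),(6,3),
  (4,1)]⟩),.k,.k,[⟨0,[(0,0)]⟩,⟨0,[(2,0)]⟩,⟨0,[(4,0)]⟩,⟨1,[(2,0),(2,0),(14,0),(9,0),(6,1)]⟩]⟩) (.Q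
  [0,1,0,1,-1,0,1,1,1,2,-1,-1] (.p false [-1,1,1] [1,0,0,-1] (⟨0,[(3,0)]⟩,⟨0,[(25,0),(2,0)]⟩) .k 2
  (⟨1,[(16,0),(8,0),(0,0)]⟩,⟨0,[(17,0)]⟩) .k (.x (-1) ⟨5,[(2,1),(11,0),(0,0),(6,3),(3,5),(0,1)]⟩ ⟨0,
  [(12,0),(12,0)]⟩)) (.Q [0,0,0,0,0,1,0,0,0,0,0,-1] (.p false [0,0,0,1] [] (⟨0,[(18,0)]⟩,⟨1,[(17,0),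
  (8,0),(0,0)]⟩) .k 0 (⟨0,[]⟩,⟨0,[]⟩) .k .k) (.R ⟨0,false,false,false,[0,0,0,1],[2,-1,-1],[1],(⟨0,
  [(19,0)]⟩,⟨1,[(18,0),(8,0),(0,0)]⟩),(⟨0,[(27,0),(2,0)]⟩,⟨0,[(5,0)]⟩),⟨0,[(0,0)]⟩,.k,.k,(.x 0 ⟨7,
  [(3,1),(3,1),(13,1),(2,3),(4,0),(0,7),(6,0)]⟩ ⟨3,[(16,0),(0,0),(13,3),(4,1)]⟩),(.r 1 ⟨0,[(1,0),(1,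
  0),(3,0),(11,0),(17,0)]⟩ ⟨11,[(4,7),(1,11),(9,6),(0,0),(6,3),(4,1),(7,5)]⟩),.k,.k,⟨true,(-1),⟨0,
  [(7,0)]⟩,⟨0,[(9,0),(13,0),(0,0)]⟩⟩,⟨false,0,⟨1,[(3,1),(3,1),(11,1),(16,0),(0,0)]⟩,⟨7,[(4,5),(11,
  0),(0,0),(0,3),(5,2),(0,0)]⟩⟩,⟨false,1,⟨1,[(16,0),(20,0)]⟩,⟨0,[(1,0),(1,0),(15,0),(17,0)]⟩⟩,⟨true,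
  1,⟨1,[(3,1),(12,0),(2,1),(17,0)]⟩,⟨0,[(1,0)]⟩⟩,⟨false,0,⟨0,[]⟩,⟨0,[]⟩⟩,⟨false,0,⟨0,[]⟩,⟨0,[]⟩⟩,
  [.o ⟨false,1,⟨1,[(6,1),(22,0),(7,0)]⟩,⟨23,[(1,3),(2,3),(2,3),(7,7),(0,2),(0,0),(1,3),(12,3),(2,
  11)]⟩⟩,.o ⟨false,1,⟨0,[(3,0),(33,0)]⟩,⟨7,[(1,3),(14,2),(0,0),(1,3),(2,3),(12,3)]⟩⟩,.a ⟨true,0,⟨1,
  [(18,0),(8,0),(0,0)]⟩,⟨0,[(19,0)]⟩⟩ ⟨true,0,⟨0,[]⟩,⟨0,[(39,0)]⟩⟩ ⟨false,1,⟨0,[(3,0),(15,0),(17,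
  0)]⟩,⟨1,[(1,1),(14,0),(20,0)]⟩⟩,.o ⟨false,0,⟨1,[(18,0),(2,0),(2,0)]⟩,⟨1,[(19,1),(9,0),(6,0)]⟩⟩]⟩)
  (.Q [0,1,0,-1,0,0,0,0,-1,-1,0,1] (.p true [0,0,0,1] [1] (⟨0,[(19,0)]⟩,⟨1,[(18,0),(8,0),(0,0)]⟩)
  .k 1 (⟨0,[]⟩,⟨0,[]⟩) .k .k) (.R ⟨1,false,false,true,[0,0,0,1],[1,-1],[0,1,0,0,0,0,0,0,1],(⟨0,[(20,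
  0)]⟩,⟨1,[(19,0),(8,0),(0,0)]⟩),(⟨0,[(31,0)]⟩,⟨0,[(32,0)]⟩),⟨0,[(1,0)]⟩,.k,.k,(.r (-1) ⟨10,[(2,0),
  (1,1),(0,1),(1,1),(2,4),(0,1),(1,0),(4,4),(1,0)]⟩ ⟨3,[(0,3),(4,0),(2,0),(10,1),(4,0),(8,4),(2,
  1)]⟩),(.r 0 ⟨4,[(2,0),(5,0),(9,1),(1,0),(0,1),(3,0),(7,2)]⟩ ⟨9,[(0,1),(3,0),(0,1),(1,0),(2,3),(0,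
  1),(5,3),(1,0)]⟩),.k,.k,⟨false,0,⟨0,[(2,0),(1,0),(15,0),(15,0),(1,0)]⟩,⟨9,[(0,1),(3,0),(0,1),(1,
  0),(2,3),(0,1),(5,3),(1,0)]⟩⟩,⟨true,0,⟨7,[(4,1),(3,1),(11,7),(1,1),(2,3),(4,0),(7,0)]⟩,⟨1,[(19,0),
  (8,0),(0,0)]⟩⟩,⟨true,0,⟨0,[(40,0)]⟩,⟨0,[]⟩⟩,⟨true,0,⟨0,[(0,0)]⟩,⟨0,[(2,0),(18,0),(16,0)]⟩⟩,⟨false,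
  0,⟨0,[(36,0)]⟩,⟨1,[(10,1),(14,0),(0,0)]⟩⟩,⟨true,0,⟨0,[(0,0),(35,0)]⟩,⟨0,[(2,0),(4,0),(30,0)]⟩⟩,
  [.o ⟨false,0,⟨3,[(4,1),(8,0),(9,0),(11,0)]⟩,⟨3,[(17,0),(0,0),(17,3),(1,1)]⟩⟩,.o ⟨false,1,⟨3,[(10,
  1),(14,0),(0,0),(3,1),(4,1)]⟩,⟨0,[(36,0)]⟩⟩,.a ⟨true,0,⟨1,[(19,0),(8,0),(0,0)]⟩,⟨0,[(20,0)]⟩⟩
  ⟨false,0,⟨0,[(2,0),(1,0),(15,0),(17,0)]⟩,⟨1,[(17,0),(20,0)]⟩⟩ ⟨true,0,⟨6,[(0,2),(1,0),(1,2),(8,1),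
  (4,0),(1,4)]⟩,⟨3,[(5,0),(2,0),(10,1),(4,0),(8,0),(2,1)]⟩⟩,.o ⟨false,0,⟨1,[(19,0),(2,0),(2,0)]⟩,⟨1,
  [(20,1),(9,0),(6,0)]⟩⟩]⟩) (.R ⟨1,false,false,false,[0,0,0,1],[0,-1,1],[0,1,0,0,0,0,0,0,1],(⟨0,
  [(20,0)]⟩,⟨1,[(19,0),(8,0),(0,0)]⟩),(⟨0,[(9,0)]⟩,⟨0,[(28,0),(3,0)]⟩),⟨0,[(1,0)]⟩,.k,.k,(.x 0 ⟨7,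
  [(4,1),(3,1),(13,1),(2,3),(4,0),(0,7),(6,0)]⟩ ⟨3,[(17,0),(0,0),(13,3),(4,1)]⟩),(.r 0 ⟨0,[(0,0),
  (19,0),(0,0),(3,0)]⟩ ⟨3,[(11,3),(5,2),(0,0)]⟩),.k,.k,⟨false,0,⟨2,[(0,1),(1,0),(0,0),(0,0),(15,2),
  (0,2),(3,1),(10,0)]⟩,⟨1,[(11,1),(5,0),(20,0)]⟩⟩,⟨true,0,⟨0,[(20,0),(4,0)]⟩,⟨3,[(8,0),(2,0),(3,1),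
  (3,1),(4,1),(13,0)]⟩⟩,⟨true,0,⟨0,[(40,0)]⟩,⟨0,[]⟩⟩,⟨false,1,⟨1,[(13,1),(3,0),(2,1),(17,0)]⟩,⟨0,
  [(0,0),(20,0)]⟩⟩,⟨false,0,⟨0,[(36,0)]⟩,⟨1,[(10,1),(14,0),(0,0)]⟩⟩,⟨false,1,⟨1,[(14,1),(2,0),(2,1),
  (17,0)]⟩,⟨0,[(0,0),(6,0)]⟩⟩,[.o ⟨false,0,⟨0,[(13,0)]⟩,⟨1,[(24,1),(5,0),(5,1),(1,0)]⟩⟩,.o ⟨false,1,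
  ⟨3,[(13,3),(3,0),(0,0),(19,1)]⟩,⟨0,[(21,0),(14,0)]⟩⟩,.a ⟨true,0,⟨1,[(19,0),(8,0),(0,0)]⟩,⟨0,[(20,
  0)]⟩⟩ ⟨false,0,⟨6,[(0,3),(1,0),(1,2),(8,1),(4,0),(1,4)]⟩,⟨1,[(17,0),(20,0)]⟩⟩ ⟨true,0,⟨0,[(13,0),
  (6,0)]⟩,⟨1,[(19,0),(1,0),(2,0),(11,1)]⟩⟩,.o ⟨false,0,⟨1,[(19,0),(2,0),(2,0)]⟩,⟨1,[(20,1),(9,0),(6,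
  0)]⟩⟩]⟩))) (.Q [0,0,0,-1,0,0,0,0,-1,-1,0,1] (.p true [0,0,0,1] [1] (⟨0,[(18,0)]⟩,⟨1,[(17,0),(8,0),
  (0,0)]⟩) .k 1 (⟨0,[]⟩,⟨0,[]⟩) .k .k) (.Q [0,0,0,0,0,-1,0,0,0,1,0,-1] (.p false [0,0,0,1] [1] (⟨0,
  [(19,0)]⟩,⟨1,[(18,0),(8,0),(0,0)]⟩) .k 1 (⟨0,[]⟩,⟨0,[]⟩) .k .k) (.I [1,-1,0,1,0,0,0,0,-1] (.R ⟨1,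
  false,false,false,[1,0,0,-1],[0,-1,1],[0,1,0,0,0,0,0,0,-1],(⟨1,[(20,0),(8,0),(0,0)]⟩,⟨0,[(21,
  0)]⟩),(⟨0,[(10,0)]⟩,⟨0,[(29,0),(3,0)]⟩),⟨0,[(1,0)]⟩,.k,.k,(.x 0 ⟨11,[(1,1),(1,1),(1,1),(3,3),(9,
  0),(3,1),(2,5),(4,0),(0,9)]⟩ ⟨3,[(18,0),(0,0),(13,3),(4,1)]⟩),(.r 0 ⟨0,[(0,0),(24,0),(0,0)]⟩ ⟨3,
  [(12,3),(5,0),(0,2)]⟩),.k,.k,⟨false,0,⟨0,[(0,0),(24,0),(0,0),(8,0)]⟩,⟨1,[(12,1),(6,0),(19,0)]⟩⟩,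
  ⟨true,0,⟨1,[(20,0),(5,1),(2,0),(0,0)]⟩,⟨0,[(16,0),(4,0)]⟩⟩,⟨true,0,⟨0,[(41,0)]⟩,⟨0,[]⟩⟩,⟨false,1,
  ⟨1,[(14,1),(4,0),(0,0),(8,0),(0,0),(8,0)]⟩,⟨0,[(0,0),(20,0),(0,0)]⟩⟩,⟨false,0,⟨0,[(37,0)]⟩,⟨1,
  [(11,1),(14,0),(0,0)]⟩⟩,⟨false,1,⟨1,[(17,0),(1,0),(0,0),(18,0)]⟩,⟨0,[(0,0),(7,0),(12,0)]⟩⟩,[.o
  ⟨false,0,⟨0,[(14,0)]⟩,⟨1,[(25,1),(5,0),(5,1),(1,0)]⟩⟩,.o ⟨false,1,⟨3,[(14,3),(3,0),(0,0),(19,1)]⟩,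
  ⟨0,[(22,0),(14,0)]⟩⟩,.a ⟨true,0,⟨0,[(21,0)]⟩,⟨1,[(20,0),(8,0),(0,0)]⟩⟩ ⟨false,0,⟨30,[(0,8),(1,15),
  (3,3),(2,6),(8,2),(1,7),(4,6),(0,2),(8,1)]⟩,⟨1,[(19,0),(19,0)]⟩⟩ ⟨true,0,⟨1,[(14,1),(5,0),(8,0),
  (0,0)]⟩,⟨0,[(21,0),(0,0),(14,0)]⟩⟩,.o ⟨false,0,⟨11,[(3,1),(1,1),(3,3),(9,0),(1,9),(1,1),(2,5),(4,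
  0)]⟩,⟨7,[(18,0),(0,0),(0,3),(10,1),(6,3)]⟩⟩]⟩) (.Q [0,-1,0,-1,1,0,0,0,1,0,0,-1] (.p false [0,0,0,
  1] [] (⟨0,[(21,0)]⟩,⟨1,[(20,0),(8,0),(0,0)]⟩) .k 0 (⟨0,[]⟩,⟨0,[]⟩) .k .k) (.R ⟨1,false,false,
  false,[1,0,0,-1],[1,-1],[1,0,0,-1,0,0,0,0,-1],(⟨1,[(21,0),(8,0),(0,0)]⟩,⟨0,[(22,0)]⟩),(⟨0,[(33,
  0)]⟩,⟨0,[(34,0)]⟩),⟨0,[(2,0)]⟩,.k,.k,(.r (-1) ⟨17,[(3,1),(2,2),(0,3),(1,0),(2,5),(0,3),(5,7),(1,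
  0),(15,1)]⟩ ⟨0,[(1,0),(33,0),(2,0)]⟩),(.r 0 ⟨11,[(3,3),(3,0),(2,4),(8,3),(1,1),(4,4),(0,3),(7,4),
  (2,5)]⟩ ⟨3,[(1,1),(10,1),(7,0),(18,0)]⟩),.k,.k,⟨false,0,⟨3,[(3,3),(3,0),(2,0),(10,1),(4,0),(8,0),
  (2,1)]⟩,⟨1,[(20,0),(18,0)]⟩⟩,⟨true,0,⟨1,[(21,0),(2,0),(2,0)]⟩,⟨0,[(22,0)]⟩⟩,⟨false,1,⟨1,[(12,1),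
  (14,0),(0,0)]⟩,⟨0,[(38,0)]⟩⟩,⟨false,1,⟨0,[(0,0)]⟩,⟨1,[(3,1),(3,0),(2,0),(15,0),(8,0),(2,1)]⟩⟩,
  ⟨true,0,⟨0,[]⟩,⟨0,[(42,0)]⟩⟩,⟨false,1,⟨0,[(0,0),(37,0)]⟩,⟨1,[(3,1),(3,0),(2,0),(15,0),(8,0)]⟩⟩,
  [.o ⟨false,1,⟨19,[(0,3),(3,3),(10,3),(3,2),(0,2),(11,5),(4,7)]⟩,⟨0,[(38,0)]⟩⟩,.o ⟨false,1,⟨5,[(0,
  1),(3,1),(10,1),(16,0),(7,0)]⟩,⟨0,[(38,0),(3,0)]⟩⟩,.a ⟨true,0,⟨0,[(22,0)]⟩,⟨1,[(21,0),(8,0),(0,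
  0)]⟩⟩ ⟨true,0,⟨1,[(3,1),(17,0),(8,0),(0,0)]⟩,⟨0,[(1,0),(36,1)]⟩⟩ ⟨false,1,⟨5,[(0,3),(2,1),(15,0),
  (1,1),(18,0)]⟩,⟨0,[(22,0),(15,0)]⟩⟩,.o ⟨false,0,⟨11,[(4,1),(1,1),(3,3),(9,0),(1,9),(1,1),(2,5),(4,
  0)]⟩,⟨7,[(19,0),(0,0),(0,3),(10,1),(6,3)]⟩⟩]⟩) (.R ⟨2,true,false,false,[0,1],[0,0,0,1],[1,0,1],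
  (⟨0,[]⟩,⟨0,[]⟩),(⟨0,[(22,0)]⟩,⟨1,[(21,0),(8,0),(0,0)]⟩),⟨0,[]⟩,.k,.k,.k,(.r 0 ⟨13,[(0,1),(9,3),(8,
  5),(1,0),(1,0),(2,2),(0,3),(7,5),(2,1)]⟩ ⟨3,[(1,1),(10,1),(7,0),(18,0)]⟩),.k,.k,⟨false,0,⟨5,[(0,
  1),(2,1),(15,0),(1,1),(18,0)]⟩,⟨1,[(20,0),(18,0)]⟩⟩,⟨true,0,⟨1,[(21,0),(2,0),(2,0)]⟩,⟨0,[(22,
  0)]⟩⟩,⟨false,1,⟨1,[(12,1),(14,0),(0,0)]⟩,⟨0,[(38,0)]⟩⟩,⟨true,1,⟨2,[(4,0),(10,0),(4,1),(0,1),(15,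
  0)]⟩,⟨0,[(0,0)]⟩⟩,⟨true,0,⟨0,[]⟩,⟨0,[(42,0)]⟩⟩,⟨false,1,⟨3,[(1,1),(3,1),(0,1),(3,1),(9,0),(0,1),
  (13,1),(4,2)]⟩,⟨7,[(0,3),(2,3),(3,1),(19,0),(0,2),(11,1)]⟩⟩,[]⟩))) (.Q [0,1,0,1,0,0,0,0,1,1,0,-1]
  (.p false [0,0,0,1] [1] (⟨0,[(20,0)]⟩,⟨1,[(19,0),(8,0),(0,0)]⟩) .k 1 (⟨0,[]⟩,⟨0,[]⟩) .k .k) (.R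
  ⟨0,false,false,true,[1,0,0,-1],[0,1],[1],(⟨1,[(20,0),(8,0),(0,0)]⟩,⟨0,[(21,0)]⟩),(⟨0,[(33,0)]⟩,⟨0,
  [(32,0)]⟩),⟨0,[(1,0)]⟩,.k,.k,(.x 0 ⟨7,[(5,1),(3,1),(13,1),(2,3),(4,0),(0,7),(6,0)]⟩ ⟨3,[(18,0),(0,
  0),(13,3),(4,1)]⟩),(.x 0 ⟨7,[(5,1),(3,1),(13,1),(2,3),(4,0),(0,7),(6,0)]⟩ ⟨3,[(18,0),(0,0),(13,3),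
  (4,1)]⟩),.k,.k,⟨true,1,⟨0,[(11,0)]⟩,⟨0,[(9,0),(15,0),(0,0)]⟩⟩,⟨false,1,⟨1,[(6,0),(9,0),(3,0),(17,
  0)]⟩,⟨11,[(3,1),(1,1),(3,3),(9,0),(1,9),(1,1),(2,5),(4,0)]⟩⟩,⟨false,1,⟨1,[(19,0),(19,0)]⟩,⟨3,[(2,
  3),(3,0),(2,0),(10,1),(4,0),(8,0),(2,1)]⟩⟩,⟨true,0,⟨0,[(0,0)]⟩,⟨0,[(2,0)]⟩⟩,⟨false,0,⟨0,[]⟩,⟨0,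
  []⟩⟩,⟨false,0,⟨0,[]⟩,⟨0,[]⟩⟩,[.o ⟨false,0,⟨0,[(37,0),(3,0)]⟩,⟨11,[(3,3),(1,1),(8,5),(4,1),(0,1),
  (10,0),(7,4)]⟩⟩,.o ⟨false,0,⟨0,[(37,0)]⟩,⟨23,[(3,7),(10,7),(3,2),(0,6),(0,3),(10,5),(4,7)]⟩⟩,.a
  ⟨true,0,⟨0,[(21,0)]⟩,⟨1,[(20,0),(8,0),(0,0)]⟩⟩ ⟨true,0,⟨0,[]⟩,⟨0,[(41,0)]⟩⟩ ⟨false,0,⟨3,[(6,0),(2,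
  0),(10,1),(4,0),(8,0),(2,1)]⟩,⟨3,[(3,1),(10,1),(4,0),(1,1),(17,0)]⟩⟩,.o ⟨false,0,⟨11,[(3,1),(1,1),
  (3,3),(9,0),(1,9),(1,1),(2,5),(4,0)]⟩,⟨7,[(18,0),(0,0),(0,3),(10,1),(6,3)]⟩⟩]⟩) (.R ⟨0,false,
  false,false,[1,0,0,-1],[0,1],[0,1,1],(⟨1,[(20,0),(8,0),(0,0)]⟩,⟨0,[(21,0)]⟩),(⟨0,[(33,0)]⟩,⟨0,
  [(32,0)]⟩),⟨0,[(1,0)]⟩,.k,.k,(.x 0 ⟨7,[(5,1),(3,1),(13,1),(2,3),(4,0),(0,7),(6,0)]⟩ ⟨3,[(18,0),(0,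
  0),(13,3),(4,1)]⟩),(.x 0 ⟨7,[(5,1),(3,1),(13,1),(2,3),(4,0),(0,7),(6,0)]⟩ ⟨3,[(18,0),(0,0),(13,3),
  (4,1)]⟩),.k,.k,⟨true,0,⟨0,[(36,0)]⟩,⟨0,[(34,0)]⟩⟩,⟨false,1,⟨1,[(6,0),(9,0),(3,0),(17,0)]⟩,⟨11,[(3,
  1),(1,1),(3,3),(9,0),(1,9),(1,1),(2,5),(4,0)]⟩⟩,⟨true,0,⟨1,[(9,0),(9,0),(5,0),(0,0),(9,0)]⟩,⟨3,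
  [(0,3),(5,0),(2,0),(10,1),(4,0),(9,2),(1,2)]⟩⟩,⟨false,1,⟨1,[(6,0),(9,0),(2,0),(0,0),(13,1)]⟩,⟨0,
  [(2,0)]⟩⟩,⟨false,0,⟨0,[]⟩,⟨0,[]⟩⟩,⟨false,0,⟨0,[]⟩,⟨0,[]⟩⟩,[.o ⟨false,0,⟨0,[(37,0)]⟩,⟨23,[(3,7),
  (10,7),(3,2),(0,6),(0,3),(10,5),(4,7)]⟩⟩,.o ⟨false,1,⟨3,[(18,0),(0,0),(17,3),(1,1)]⟩,⟨3,[(5,1),(8,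
  0),(9,0),(11,0)]⟩⟩,.a ⟨true,0,⟨0,[(21,0)]⟩,⟨1,[(20,0),(8,0),(0,0)]⟩⟩ ⟨false,0,⟨1,[(26,0),(0,0)]⟩,
  ⟨1,[(38,0),(0,0)]⟩⟩ ⟨true,0,⟨3,[(6,0),(2,0),(10,1),(4,0),(8,0),(2,1)]⟩,⟨3,[(5,1),(8,0),(6,3),(2,
  0),(11,0)]⟩⟩,.o ⟨false,0,⟨11,[(3,1),(1,1),(3,3),(9,0),(1,9),(1,1),(2,5),(4,0)]⟩,⟨7,[(18,0),(0,0),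
  (0,3),(10,1),(6,3)]⟩⟩]⟩))) (.I [0,1,-1,0,0,0,0,0,1] (.Q [0,0,0,0,0,1,0,0,0,0,0,-1] (.p false [0,0,
  0,1] [] (⟨0,[(20,0)]⟩,⟨1,[(19,0),(8,0),(0,0)]⟩) .k 0 (⟨0,[]⟩,⟨0,[]⟩) .k .k) (.R ⟨0,false,false,
  false,[0,0,0,1],[1,0,-1],[1,0,1],(⟨0,[(21,0)]⟩,⟨1,[(20,0),(8,0),(0,0)]⟩),(⟨0,[(29,0)]⟩,⟨0,[(30,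
  0)]⟩),⟨0,[(0,0)]⟩,.k,.k,(.r (-1) ⟨2,[(1,0),(9,1),(7,0),(16,0)]⟩ ⟨3,[(3,3),(2,2),(2,6),(10,1),(4,
  2),(0,3),(8,0),(1,0)]⟩),.k,.k,.k,⟨false,0,⟨0,[(28,0)]⟩,⟨0,[(5,0),(0,0),(27,0)]⟩⟩,⟨true,0,⟨0,[(16,
  0),(4,0)]⟩,⟨1,[(20,0),(5,1),(2,0),(0,0)]⟩⟩,⟨true,0,⟨1,[(3,1),(2,1),(1,1),(0,3),(10,0),(5,1),(2,0),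
  (0,0)]⟩,⟨0,[(1,0)]⟩⟩,⟨false,1,⟨1,[(3,1),(2,0),(2,0),(15,0),(8,0)]⟩,⟨0,[(2,0),(11,0)]⟩⟩,⟨false,0,
  ⟨0,[]⟩,⟨0,[]⟩⟩,⟨false,0,⟨0,[]⟩,⟨0,[]⟩⟩,[.o ⟨false,1,⟨1,[(25,1),(5,0),(7,0)]⟩,⟨0,[(15,0)]⟩⟩,.o
  ⟨false,1,⟨0,[(22,0),(16,0)]⟩,⟨0,[(24,0)]⟩⟩,.a ⟨true,0,⟨1,[(20,0),(8,0),(0,0)]⟩,⟨0,[(21,0)]⟩⟩
  ⟨true,0,⟨1,[(26,0),(0,0)]⟩,⟨0,[(35,0)]⟩⟩ ⟨false,1,⟨0,[(21,0),(0,0),(16,0)]⟩,⟨1,[(17,0),(2,0)]⟩⟩,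
  .o ⟨false,0,⟨1,[(20,0),(2,0),(2,0)]⟩,⟨1,[(21,1),(9,0),(6,0)]⟩⟩]⟩) (.Q [0,0,0,0,0,0,0,0,-1,-1,0,1]
  (.p true [0,0,0,1] [1] (⟨0,[(21,0)]⟩,⟨1,[(20,0),(8,0),(0,0)]⟩) .k 1 (⟨0,[]⟩,⟨0,[]⟩) .k .k) (.R ⟨2,
  true,false,false,[0,1],[1,0,0,-1],[0,1,1,1],(⟨0,[]⟩,⟨0,[]⟩),(⟨1,[(21,0),(8,0),(0,0)]⟩,⟨0,[(22,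
  0)]⟩),⟨0,[]⟩,.k,.k,.k,(.r 0 ⟨2,[(3,0),(6,0),(9,0),(1,0),(0,0),(3,0),(7,0)]⟩ ⟨13,[(4,1),(1,0),(0,
  3),(1,2),(2,1),(0,3),(1,1),(3,5),(1,0)]⟩),.k,.k,⟨false,0,⟨3,[(2,1),(7,0),(9,0),(5,0),(0,0),(10,2),
  (3,0)]⟩,⟨1,[(0,1),(11,1),(8,0),(8,0),(0,0)]⟩⟩,⟨true,0,⟨11,[(4,1),(1,1),(3,3),(9,0),(1,9),(1,1),(2,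
  5),(4,0)]⟩,⟨1,[(21,0),(8,0),(0,0)]⟩⟩,⟨true,0,⟨0,[(42,0)]⟩,⟨0,[]⟩⟩,⟨false,1,⟨3,[(4,1),(10,1),(3,0),
  (2,1),(17,0)]⟩,⟨0,[(3,0)]⟩⟩,⟨false,0,⟨0,[(38,0)]⟩,⟨1,[(12,1),(14,0),(0,0)]⟩⟩,⟨true,0,⟨0,[(0,0)]⟩,
  ⟨0,[(3,0),(33,0)]⟩⟩,[]⟩) (.I [1,1,0,-1,0,0,0,0,-1] (.R ⟨1,false,false,true,[1,0,0,-1],[0,-1,1],[1,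
  1,0,-1,0,0,0,0,-1],(⟨1,[(22,0),(8,0),(0,0)]⟩,⟨0,[(23,0)]⟩),(⟨0,[(12,0)]⟩,⟨0,[(31,0),(3,0)]⟩),⟨0,
  [(2,0),(19,0)]⟩,.k,.k,(.r (-1) ⟨3,[(0,1),(12,1),(6,0),(19,0)]⟩ ⟨2,[(4,0),(6,0),(9,0),(1,0),(0,0),
  (3,0),(7,0)]⟩),(.x (-1) ⟨3,[(18,3),(1,0),(0,0),(9,3),(3,3),(4,1)]⟩ ⟨0,[(12,0),(15,0)]⟩),.k,.k,
  ⟨false,1,⟨6,[(0,2),(4,3),(2,2),(13,1),(4,2),(0,3),(7,1),(2,4)]⟩,⟨1,[(3,1),(7,0),(2,0),(26,0)]⟩⟩,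
  ⟨true,0,⟨1,[(22,0),(5,1),(2,0),(0,0)]⟩,⟨0,[(18,0),(4,0)]⟩⟩,⟨true,0,⟨0,[(38,0)]⟩,⟨0,[(39,0)]⟩⟩,
  ⟨false,0,⟨0,[(1,0),(14,0)]⟩,⟨1,[(5,1),(2,0),(2,0),(15,0),(8,0),(2,1)]⟩⟩,⟨false,0,⟨0,[]⟩,⟨3,[(20,
  0),(0,0),(19,1)]⟩⟩,⟨false,0,⟨0,[(4,0),(11,0)]⟩,⟨1,[(5,1),(2,0),(2,0),(15,0),(8,0)]⟩⟩,[.o ⟨false,0,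
  ⟨1,[(16,0),(9,0),(11,0)]⟩,⟨0,[(24,0),(14,0),(1,0)]⟩⟩,.o ⟨false,0,⟨0,[(16,0)]⟩,⟨1,[(27,1),(5,0),(5,
  1),(1,0)]⟩⟩,.a ⟨true,0,⟨0,[(23,0)]⟩,⟨1,[(22,0),(8,0),(0,0)]⟩⟩ ⟨true,0,⟨0,[(0,0)]⟩,⟨0,[(3,0),(32,
  0)]⟩⟩ ⟨false,0,⟨1,[(16,1),(5,0),(8,0),(0,0)]⟩,⟨0,[(23,0),(0,0),(14,0),(1,0)]⟩⟩,.o ⟨false,0,⟨11,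
  [(5,1),(1,1),(3,3),(9,0),(1,9),(1,1),(2,5),(4,0)]⟩,⟨7,[(20,0),(0,0),(0,3),(10,1),(6,3)]⟩⟩]⟩) (.R
  ⟨1,false,false,false,[0,0,0,1],[1,0,-1],[0,0,0,0,0,0,0,0,1],(⟨0,[(23,0)]⟩,⟨1,[(22,0),(8,0),(0,
  0)]⟩),(⟨0,[(31,0)]⟩,⟨0,[(32,0)]⟩),⟨0,[(2,0)]⟩,.k,.k,(.r (-1) ⟨2,[(3,0),(9,1),(7,0),(16,0)]⟩ ⟨3,
  [(5,3),(2,2),(2,6),(10,1),(4,2),(0,3),(8,0),(1,0)]⟩),.k,(.x 0 ⟨0,[(12,0),(15,0)]⟩ ⟨3,[(18,3),(1,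
  0),(0,0),(9,3),(3,3),(4,1)]⟩),.k,⟨false,0,⟨5,[(0,1),(2,1),(7,1),(2,3),(6,0),(18,0)]⟩,⟨3,[(5,3),(2,
  2),(2,2),(10,1),(4,2),(0,3),(8,0),(1,0)]⟩⟩,⟨true,0,⟨0,[(18,0),(4,0)]⟩,⟨1,[(22,0),(5,1),(2,0),(0,
  0)]⟩⟩,⟨false,1,⟨3,[(20,0),(0,0),(19,1)]⟩,⟨0,[]⟩⟩,⟨false,1,⟨1,[(5,1),(2,0),(2,0),(15,0),(8,0)]⟩,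
  ⟨11,[(0,1),(0,7),(1,1),(7,0),(4,2),(2,3),(2,1),(5,0),(4,0)]⟩⟩,⟨true,0,⟨0,[(39,0)]⟩,⟨0,[(38,0)]⟩⟩,
  ⟨false,1,⟨1,[(5,1),(2,0),(2,0),(15,0),(8,0),(2,1)]⟩,⟨0,[(1,0),(14,0)]⟩⟩,[.o ⟨false,1,⟨1,[(27,1),
  (5,0),(7,0)]⟩,⟨0,[(17,0)]⟩⟩,.o ⟨false,1,⟨0,[(24,0),(16,0)]⟩,⟨0,[(26,0)]⟩⟩,.a ⟨true,0,⟨1,[(22,0),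
  (8,0),(0,0)]⟩,⟨0,[(23,0)]⟩⟩ ⟨true,0,⟨17,[(0,5),(0,7),(1,1),(3,3),(3,0),(4,2),(4,0),(1,7),(4,0)]⟩,
  ⟨1,[(5,1),(2,2),(1,2),(0,4),(10,0),(5,1),(8,0)]⟩⟩ ⟨false,1,⟨7,[(0,1),(4,3),(15,0),(1,3),(3,3),(11,
  1),(1,2)]⟩,⟨1,[(19,0),(2,0)]⟩⟩,.o ⟨false,0,⟨1,[(22,0),(2,0),(2,0)]⟩,⟨1,[(23,1),(9,0),(6,
  0)]⟩⟩]⟩)))) (.R ⟨2,true,false,false,[0,1],[1,0,0,-1],[0,1,1,1],(⟨0,[]⟩,⟨0,[]⟩),(⟨1,[(19,0),(8,0),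
  (0,0)]⟩,⟨0,[(20,0)]⟩),⟨0,[]⟩,.k,.k,.k,(.r 0 ⟨2,[(1,0),(6,0),(9,0),(1,0),(0,0),(3,0),(7,0)]⟩ ⟨13,
  [(2,1),(1,0),(0,3),(1,2),(2,1),(0,3),(1,1),(3,5),(1,0)]⟩),.k,.k,⟨false,0,⟨2,[(1,0),(6,0),(9,0),(1,
  0),(0,0),(3,0),(8,1),(1,0)]⟩,⟨3,[(0,1),(1,1),(0,0),(1,0),(5,1),(7,0)]⟩⟩,⟨true,0,⟨11,[(2,1),(1,1),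
  (3,3),(9,0),(1,9),(1,1),(2,5),(4,0)]⟩,⟨1,[(19,0),(8,0),(0,0)]⟩⟩,⟨true,0,⟨0,[(40,0)]⟩,⟨0,[]⟩⟩,
  ⟨false,1,⟨19,[(0,3),(1,11),(7,3),(2,3),(2,3),(0,2),(0,0),(1,7)]⟩,⟨0,[(1,0)]⟩⟩,⟨false,0,⟨0,[(36,
  0)]⟩,⟨2,[(0,1),(9,1),(7,0),(16,0)]⟩⟩,⟨true,0,⟨0,[(0,0),(2,0),(0,0),(3,0),(11,0)]⟩,⟨0,[(1,0),(33,
  0)]⟩⟩,[]⟩)))))) (.K ⟨2,[-1,1,1],1,0,(⟨0,[(1,0)]⟩,⟨0,[(23,0),(2,0)]⟩),.k,.k,(.r 1 ⟨0,[(3,0),(24,0),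
  (6,0)]⟩ ⟨0,[(5,1),(13,0),(0,0),(8,0)]⟩),.k,.k,[⟨0,[(23,0),(0,0),(6,0)]⟩,⟨0,[(2,0)]⟩,⟨0,[(0,0),(22,
  0),(0,0)]⟩,⟨3,[(12,0),(0,0),(6,3),(2,3),(0,3),(7,1)]⟩]⟩)))) (.I [0,0,-1,-1,1,0,0,-1] (.I [1,0,0,0,
  0,0,0,0,-1] (.Q [0,0,0,0,0,-1,0,0,0,0,0,1] (.p true [0,0,0,1] [] (⟨0,[(14,0)]⟩,⟨1,[(13,0),(8,0),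
  (0,0)]⟩) .k 0 (⟨0,[]⟩,⟨0,[]⟩) .k .k) (.Q [0,0,0,-1,0,0,0,0,-1,-1,0,1] (.p true [0,0,0,1] [1] (⟨0,
  [(15,0)]⟩,⟨1,[(14,0),(8,0),(0,0)]⟩) .k 1 (⟨0,[]⟩,⟨0,[]⟩) .k .k) (.R ⟨1,false,false,true,[0,0,0,1],
  [1,-1],[0,0,0,0,0,0,0,0,1],(⟨0,[(16,0)]⟩,⟨1,[(15,0),(8,0),(0,0)]⟩),(⟨0,[(27,0)]⟩,⟨0,[(28,0)]⟩),⟨0,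
  [(1,0)]⟩,.k,.k,(.r (-1) ⟨1,[(4,0),(2,0),(6,0)]⟩ ⟨0,[(2,0),(26,0),(6,0)]⟩),(.x (-1) ⟨3,[(13,0),(0,
  0),(13,3),(4,1)]⟩ ⟨1,[(1,1),(13,0),(2,0),(2,0)]⟩),.k,.k,⟨false,1,⟨1,[(14,0),(17,1),(1,0)]⟩,⟨1,[(0,
  1),(14,0),(8,0),(0,0),(4,1)]⟩⟩,⟨true,0,⟨0,[(11,0),(4,0),(4,0)]⟩,⟨1,[(15,0),(8,0),(0,0)]⟩⟩,⟨false,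
  1,⟨3,[(13,0),(0,0),(19,1)]⟩,⟨0,[]⟩⟩,⟨false,0,⟨0,[(0,0)]⟩,⟨1,[(14,0),(0,0),(8,0),(0,0),(6,1),(1,
  0)]⟩⟩,⟨true,0,⟨0,[(32,0)]⟩,⟨0,[(31,0)]⟩⟩,⟨false,0,⟨0,[(0,0),(31,0)]⟩,⟨1,[(14,0),(0,0),(8,0),(0,0),
  (8,0)]⟩⟩,[.o ⟨false,0,⟨0,[(9,0),(7,0)]⟩,⟨3,[(13,0),(0,0),(17,3),(1,1)]⟩⟩,.o ⟨false,1,⟨3,[(6,1),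
  (14,0),(0,0),(3,1),(4,1)]⟩,⟨0,[(32,0)]⟩⟩,.a ⟨true,0,⟨1,[(15,0),(8,0),(0,0)]⟩,⟨0,[(16,0)]⟩⟩ ⟨false,
  1,⟨1,[(14,0),(19,0)]⟩,⟨0,[(2,0)]⟩⟩ ⟨true,0,⟨0,[(9,0),(6,0),(0,0)]⟩,⟨1,[(15,0),(8,0),(0,0),(6,
  1)]⟩⟩,.o ⟨false,0,⟨1,[(15,0),(2,0),(2,0)]⟩,⟨1,[(16,1),(9,0),(6,0)]⟩⟩]⟩) (.Q [0,0,0,0,0,0,0,0,1,1,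
  0,-1] (.p false [0,0,0,1] [1] (⟨0,[(16,0)]⟩,⟨1,[(15,0),(8,0),(0,0)]⟩) .k 1 (⟨0,[]⟩,⟨0,[]⟩) .k .k)
  (.R ⟨2,false,false,true,[0,1],[1,0,0,-1],[0,1],(⟨0,[]⟩,⟨0,[]⟩),(⟨1,[(16,0),(8,0),(0,0)]⟩,⟨0,[(17,
  0)]⟩),⟨0,[]⟩,.k,.k,.k,(.r 0 ⟨0,[(1,0),(10,0),(4,0),(4,0)]⟩ ⟨1,[(5,0),(2,0),(5,0)]⟩),.k,.k,⟨false,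
  1,⟨1,[(15,0),(18,0)]⟩,⟨0,[(3,0)]⟩⟩,⟨true,0,⟨0,[(12,0),(4,0),(4,0)]⟩,⟨1,[(16,0),(8,0),(0,0)]⟩⟩,
  ⟨false,1,⟨7,[(7,3),(6,0),(0,0),(16,3),(1,1)]⟩,⟨0,[(30,0)]⟩⟩,⟨true,0,⟨0,[(3,0),(6,0),(6,0),(0,0)]⟩,
  ⟨0,[(1,0)]⟩⟩,⟨true,0,⟨0,[(31,0)]⟩,⟨1,[(22,0),(0,0)]⟩⟩,⟨true,0,⟨0,[(3,0),(7,0),(5,0),(0,0)]⟩,⟨0,
  [(0,0)]⟩⟩,[.o ⟨false,0,⟨0,[(3,0),(7,0),(5,0),(0,0)]⟩,⟨1,[(0,1),(26,0),(7,0)]⟩⟩,.a ⟨true,0,⟨0,[(3,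
  0),(13,0)]⟩,⟨0,[(0,0)]⟩⟩ ⟨false,1,⟨3,[(14,0),(0,0),(18,1)]⟩,⟨0,[]⟩⟩ ⟨true,0,⟨0,[(3,0),(8,0),(4,0),
  (4,0)]⟩,⟨0,[(0,0)]⟩⟩,.o ⟨false,1,⟨3,[(14,0),(0,0),(18,1)]⟩,⟨0,[(12,0),(9,0)]⟩⟩,.e ⟨true,0,⟨0,[(31,
  0)]⟩,⟨1,[(22,0),(0,0)]⟩⟩ ⟨true,0,⟨0,[(3,0),(7,0),(5,0),(0,0)]⟩,⟨0,[(0,0)]⟩⟩]⟩) (.R ⟨2,true,false,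
  true,[0,1],[1,0,0,-1],[0,1],(⟨0,[]⟩,⟨0,[]⟩),(⟨1,[(16,0),(8,0),(0,0)]⟩,⟨0,[(17,0)]⟩),⟨0,[]⟩,.k,.k,
  .k,(.r 0 ⟨0,[(1,0),(10,0),(4,0),(4,0)]⟩ ⟨1,[(5,0),(2,0),(5,0)]⟩),.k,.k,⟨false,1,⟨1,[(15,0),(18,
  0)]⟩,⟨0,[(3,0)]⟩⟩,⟨true,0,⟨0,[(12,0),(4,0),(4,0)]⟩,⟨1,[(16,0),(8,0),(0,0)]⟩⟩,⟨false,1,⟨7,[(7,3),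
  (6,0),(0,0),(16,3),(1,1)]⟩,⟨0,[(30,0)]⟩⟩,⟨true,0,⟨0,[(0,0),(31,0)]⟩,⟨0,[(1,0)]⟩⟩,⟨true,0,⟨0,[(31,
  0)]⟩,⟨1,[(22,0),(0,0)]⟩⟩,⟨false,0,⟨0,[(0,0)]⟩,⟨1,[(15,0),(0,0),(8,0),(0,0),(8,0)]⟩⟩,[]⟩))) (.Q [0,
  0,0,-1,0,0,0,0,-1,-1,0,1] (.p true [0,0,0,1] [1] (⟨0,[(15,0)]⟩,⟨1,[(14,0),(8,0),(0,0)]⟩) .k 1 (⟨0,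
  []⟩,⟨0,[]⟩) .k .k) (.R ⟨0,false,false,true,[0,0,0,1],[1,-1],[1,0,0,0,0,0,0,0,1],(⟨0,[(16,0)]⟩,⟨1,
  [(15,0),(8,0),(0,0)]⟩),(⟨0,[(27,0)]⟩,⟨0,[(28,0)]⟩),⟨0,[(1,0)]⟩,.k,.k,(.r (-1) ⟨1,[(4,0),(2,0),(6,
  0)]⟩ ⟨0,[(2,0),(26,0),(6,0)]⟩),(.x (-1) ⟨3,[(13,0),(0,0),(13,3),(4,1)]⟩ ⟨0,[(11,0),(9,0),(5,0)]⟩),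
  .k,.k,⟨false,1,⟨1,[(14,0),(17,1),(1,0)]⟩,⟨1,[(0,1),(14,0),(8,0),(0,0),(4,1)]⟩⟩,⟨true,0,⟨0,[(11,0),
  (4,0),(4,0)]⟩,⟨1,[(15,0),(8,0),(0,0)]⟩⟩,⟨true,0,⟨0,[]⟩,⟨0,[(36,0)]⟩⟩,⟨false,0,⟨0,[(0,0)]⟩,⟨1,[(14,
  0),(0,0),(8,0),(0,0),(6,1),(1,0)]⟩⟩,⟨false,0,⟨0,[]⟩,⟨0,[]⟩⟩,⟨false,0,⟨0,[]⟩,⟨0,[]⟩⟩,[.o ⟨false,0,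
  ⟨0,[(9,0),(7,0)]⟩,⟨3,[(13,0),(0,0),(17,3),(1,1)]⟩⟩,.o ⟨false,1,⟨3,[(6,1),(14,0),(0,0),(3,1),(4,
  1)]⟩,⟨0,[(32,0)]⟩⟩,.a ⟨true,0,⟨1,[(15,0),(8,0),(0,0)]⟩,⟨0,[(16,0)]⟩⟩ ⟨false,1,⟨1,[(14,0),(19,0)]⟩,
  ⟨1,[(0,1),(4,0),(9,0),(8,0),(3,0),(3,1)]⟩⟩ ⟨true,0,⟨0,[(9,0),(6,0),(0,0)]⟩,⟨1,[(15,0),(8,0),(0,0),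
  (6,1)]⟩⟩,.o ⟨false,0,⟨1,[(15,0),(2,0),(2,0)]⟩,⟨1,[(16,1),(9,0),(6,0)]⟩⟩]⟩) (.R ⟨0,false,false,
  false,[0,0,0,1],[1,0,-1],[1],(⟨0,[(16,0)]⟩,⟨1,[(15,0),(8,0),(0,0)]⟩),(⟨0,[(24,0)]⟩,⟨0,[(25,0)]⟩),
  ⟨0,[(1,0)]⟩,.k,.k,(.r (-1) ⟨1,[(4,0),(2,0),(6,0)]⟩ ⟨0,[(2,0),(26,0),(6,0)]⟩),.k,.k,.k,⟨false,0,⟨0,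
  [(7,0),(24,0)]⟩,⟨5,[(4,3),(8,0),(0,0),(5,1),(0,1),(7,1),(2,1)]⟩⟩,⟨true,0,⟨0,[(11,0),(4,0)]⟩,⟨1,
  [(15,0),(5,1),(2,0),(0,0)]⟩⟩,⟨true,0,⟨0,[(2,0)]⟩,⟨0,[(0,0),(8,0),(6,0),(0,0)]⟩⟩,⟨false,1,⟨0,[(2,
  0),(13,0),(0,0),(16,0)]⟩,⟨0,[(0,0),(8,0)]⟩⟩,⟨false,0,⟨0,[]⟩,⟨0,[]⟩⟩,⟨false,0,⟨0,[]⟩,⟨0,[]⟩⟩,[.o
  ⟨false,1,⟨1,[(20,1),(5,0),(7,0)]⟩,⟨0,[(10,0)]⟩⟩,.o ⟨false,1,⟨0,[(17,0),(16,0)]⟩,⟨0,[(19,0)]⟩⟩,.a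
  ⟨true,0,⟨1,[(15,0),(8,0),(0,0)]⟩,⟨0,[(16,0)]⟩⟩ ⟨true,0,⟨0,[]⟩,⟨0,[(36,0)]⟩⟩ ⟨false,1,⟨0,[(16,0),
  (0,0),(16,0)]⟩,⟨1,[(12,0),(2,0)]⟩⟩,.o ⟨false,0,⟨1,[(15,0),(2,0),(2,0)]⟩,⟨1,[(16,1),(9,0),(6,
  0)]⟩⟩]⟩))) (.Q [0,0,0,-1,0,0,0,0,1,0,0,-1] (.p false [0,0,0,1] [] (⟨0,[(14,0)]⟩,⟨1,[(13,0),(8,0),
  (0,0)]⟩) .k 0 (⟨0,[]⟩,⟨0,[]⟩) .k .k) (.Q [0,0,0,0,0,-1,0,0,0,1,0,-1] (.p false [0,0,0,1] [1] (⟨0,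
  [(15,0)]⟩,⟨1,[(14,0),(8,0),(0,0)]⟩) .k 1 (⟨0,[]⟩,⟨0,[]⟩) .k .k) (.R ⟨1,false,false,true,[1,0,0,
  -1],[1,-1],[0,0,0,0,0,0,0,0,-1],(⟨1,[(15,0),(8,0),(0,0)]⟩,⟨0,[(16,0)]⟩),(⟨0,[(27,0)]⟩,⟨0,[(28,
  0)]⟩),⟨0,[(0,0)]⟩,.k,.k,(.r (-1) ⟨1,[(4,0),(2,0),(5,0)]⟩ ⟨0,[(2,0),(26,0),(6,0)]⟩),(.x (-1) ⟨3,
  [(13,0),(0,0),(13,3),(4,1)]⟩ ⟨0,[(11,0),(9,0),(5,0)]⟩),.k,.k,⟨false,1,⟨1,[(13,0),(18,1),(1,0)]⟩,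
  ⟨0,[(1,0),(14,0),(13,0)]⟩⟩,⟨true,0,⟨1,[(15,0),(2,0),(2,0)]⟩,⟨0,[(16,0)]⟩⟩,⟨false,1,⟨3,[(13,0),(0,
  0),(19,1)]⟩,⟨0,[]⟩⟩,⟨false,0,⟨0,[(1,0)]⟩,⟨1,[(13,0),(2,1),(15,1),(1,0)]⟩⟩,⟨true,0,⟨0,[(32,0)]⟩,⟨0,
  [(31,0)]⟩⟩,⟨false,0,⟨0,[(1,0),(30,0)]⟩,⟨1,[(13,0),(2,1),(17,0)]⟩⟩,[.o ⟨false,0,⟨0,[(9,0),(7,0)]⟩,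
  ⟨3,[(13,0),(0,0),(17,3),(1,1)]⟩⟩,.o ⟨false,1,⟨3,[(6,1),(14,0),(0,0),(3,1),(4,1)]⟩,⟨0,[(32,0)]⟩⟩,
  .a ⟨true,0,⟨0,[(16,0)]⟩,⟨1,[(15,0),(8,0),(0,0)]⟩⟩ ⟨false,1,⟨1,[(13,0),(20,0)]⟩,⟨0,[(2,0)]⟩⟩ ⟨true,
  0,⟨1,[(9,0),(5,0),(1,0),(13,0)]⟩,⟨0,[(16,0),(15,0)]⟩⟩,.o ⟨false,0,⟨0,[(11,0),(4,0),(4,0)]⟩,⟨7,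
  [(13,0),(0,0),(0,3),(10,1),(6,3)]⟩⟩]⟩) (.R ⟨0,false,false,true,[1,0,0,-1],[1,-1],[1,0,0,0,0,0,0,0,
  -1],(⟨1,[(15,0),(8,0),(0,0)]⟩,⟨0,[(16,0)]⟩),(⟨0,[(27,0)]⟩,⟨0,[(28,0)]⟩),⟨0,[(0,0)]⟩,.k,.k,(.r
  (-1) ⟨1,[(4,0),(2,0),(5,0)]⟩ ⟨0,[(2,0),(26,0),(6,0)]⟩),(.x (-1) ⟨3,[(13,0),(0,0),(13,3),(4,1)]⟩
  ⟨0,[(11,0),(9,0),(5,0)]⟩),.k,.k,⟨false,1,⟨1,[(13,0),(18,1),(1,0)]⟩,⟨0,[(1,0),(14,0),(13,0)]⟩⟩,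
  ⟨true,0,⟨1,[(15,0),(2,0),(2,0)]⟩,⟨0,[(16,0)]⟩⟩,⟨true,0,⟨0,[]⟩,⟨0,[(36,0)]⟩⟩,⟨false,0,⟨0,[(1,0)]⟩,
  ⟨1,[(13,0),(2,1),(15,1),(1,0)]⟩⟩,⟨false,0,⟨0,[]⟩,⟨0,[]⟩⟩,⟨false,0,⟨0,[]⟩,⟨0,[]⟩⟩,[.o ⟨false,0,⟨0,
  [(9,0),(7,0)]⟩,⟨3,[(13,0),(0,0),(17,3),(1,1)]⟩⟩,.o ⟨false,1,⟨3,[(6,1),(14,0),(0,0),(3,1),(4,1)]⟩,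
  ⟨0,[(32,0)]⟩⟩,.a ⟨true,0,⟨0,[(16,0)]⟩,⟨1,[(15,0),(8,0),(0,0)]⟩⟩ ⟨false,1,⟨1,[(13,0),(20,0)]⟩,⟨0,
  [(2,0)]⟩⟩ ⟨true,0,⟨1,[(9,0),(5,0),(1,0),(13,0)]⟩,⟨0,[(16,0),(15,0)]⟩⟩,.o ⟨false,0,⟨0,[(11,0),(4,
  0),(4,0)]⟩,⟨7,[(13,0),(0,0),(0,3),(10,1),(6,3)]⟩⟩]⟩)) (.Q [0,0,0,0,0,0,0,0,1,0,0,-1] (.p false [0,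
  0,0,1] [] (⟨0,[(15,0)]⟩,⟨1,[(14,0),(8,0),(0,0)]⟩) .k 0 (⟨0,[]⟩,⟨0,[]⟩) .k .k) (.R ⟨2,true,false,
  false,[0,1],[0,0,0,1],[1,1,1],(⟨0,[]⟩,⟨0,[]⟩),(⟨0,[(16,0)]⟩,⟨1,[(15,0),(8,0),(0,0)]⟩),⟨0,[]⟩,.k,
  .k,.k,(.r 0 ⟨1,[(1,1),(13,0),(2,0),(2,0)]⟩ ⟨1,[(4,0),(2,0),(6,0)]⟩),.k,.k,⟨false,0,⟨1,[(1,1),(7,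
  0),(5,0),(1,0),(13,0)]⟩,⟨1,[(2,1),(30,0),(0,0)]⟩⟩,⟨true,0,⟨1,[(15,0),(2,0),(2,0)]⟩,⟨0,[(16,0)]⟩⟩,
  ⟨true,0,⟨0,[(31,0)]⟩,⟨0,[(32,0)]⟩⟩,⟨false,1,⟨1,[(0,1),(5,1),(14,0),(0,0)]⟩,⟨0,[(1,0)]⟩⟩,⟨false,0,
  ⟨0,[]⟩,⟨3,[(13,0),(0,0),(19,1)]⟩⟩,⟨true,0,⟨0,[(0,0)]⟩,⟨0,[(1,0),(29,0)]⟩⟩,[]⟩) (.R ⟨2,false,false,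
  true,[0,1],[0,0,0,1],[0,1],(⟨0,[]⟩,⟨0,[]⟩),(⟨0,[(16,0)]⟩,⟨1,[(15,0),(8,0),(0,0)]⟩),⟨0,[]⟩,.k,.k,
  .k,(.r 0 ⟨1,[(1,1),(13,0),(2,0),(2,0)]⟩ ⟨1,[(4,0),(2,0),(6,0)]⟩),.k,.k,⟨false,1,⟨1,[(13,0),(19,
  0)]⟩,⟨0,[(2,0)]⟩⟩,⟨true,0,⟨1,[(15,0),(2,0),(2,0)]⟩,⟨0,[(16,0)]⟩⟩,⟨false,1,⟨7,[(6,3),(6,0),(0,0),
  (16,3),(1,1)]⟩,⟨0,[(29,0)]⟩⟩,⟨true,0,⟨1,[(2,1),(6,0),(5,0),(1,0),(13,0)]⟩,⟨0,[(1,0)]⟩⟩,⟨true,0,⟨0,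
  [(30,0)]⟩,⟨1,[(21,0),(0,0)]⟩⟩,⟨true,0,⟨1,[(2,1),(12,0),(1,0),(1,0)]⟩,⟨0,[(0,0)]⟩⟩,[.o ⟨false,0,⟨1,
  [(2,1),(12,0),(1,0),(1,0)]⟩,⟨1,[(0,1),(25,0),(7,0)]⟩⟩,.a ⟨true,0,⟨1,[(2,1),(12,0),(8,0),(0,0)]⟩,
  ⟨0,[(0,0)]⟩⟩ ⟨false,1,⟨3,[(13,0),(0,0),(18,1)]⟩,⟨0,[]⟩⟩ ⟨true,0,⟨1,[(2,1),(12,0),(2,0),(2,0)]⟩,⟨0,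
  [(0,0)]⟩⟩,.o ⟨false,1,⟨3,[(13,0),(0,0),(18,1)]⟩,⟨0,[(11,0),(9,0)]⟩⟩,.e ⟨true,0,⟨0,[(30,0)]⟩,⟨1,
  [(21,0),(0,0)]⟩⟩ ⟨true,0,⟨1,[(2,1),(12,0),(1,0),(1,0)]⟩,⟨0,[(0,0)]⟩⟩]⟩)))) (.N [0,1,1] 1 ⟨0,[(0,
  0)]⟩ ⟨0,[(1,0)]⟩ .k))))

theorem ok3 : chk (cU (-1) false 3) t3 l5 = true := by decide +kernel

noncomputable def t4 : Tre :=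
  (.Q [0,-1,0,1,0,0,1,1,0,1,-1] (.p false [0,0,1] [1] (⟨0,[(19,0)]⟩,⟨0,[(18,0)]⟩) .k 1 (⟨0,[]⟩,⟨0,
  []⟩) .k .k) (.R ⟨2,true,false,true,[0,1],[1,0,-1],[1],(⟨0,[]⟩,⟨0,[]⟩),(⟨0,[(19,0)]⟩,⟨0,[(20,0)]⟩),
  ⟨0,[]⟩,.k,.k,.k,.k,.k,.k,⟨true,0,⟨0,[(2,0),(21,0)]⟩,⟨0,[(15,0),(0,0)]⟩⟩,⟨false,0,⟨0,[(6,0)]⟩,⟨0,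
  [(16,0),(2,0),(0,0),(7,0)]⟩⟩,⟨true,1,⟨1,[(26,1),(1,0),(0,0)]⟩,⟨0,[(1,0)]⟩⟩,⟨false,1,⟨0,[(12,0),
  (13,0),(2,0)]⟩,⟨0,[(0,0)]⟩⟩,⟨false,1,⟨1,[(28,0),(0,0)]⟩,⟨1,[(16,0),(0,0)]⟩⟩,⟨true,0,⟨0,[(12,0)]⟩,
  ⟨1,[(7,0),(11,0),(0,0)]⟩⟩,[]⟩) (.Q [0,0,0,0,0,1,0,0,0,-1,1] (.ed false [0,1,1] .k) (.Q [0,-1,0,1,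
  0,0,1,1,0,2,-1] (.p false [-1,1,1] [1] (⟨0,[(0,0)]⟩,⟨0,[(20,0),(2,0)]⟩) .k 1 (⟨0,[]⟩,⟨0,[]⟩) .k
  .k) (.R ⟨2,false,false,false,[0,1],[-1,1,1],[1,0,1],(⟨0,[]⟩,⟨0,[]⟩),(⟨0,[(1,0)]⟩,⟨0,[(21,0),(2,
  0)]⟩),⟨0,[]⟩,.k,.k,.k,.k,.k,.k,⟨true,1,⟨1,[(2,1),(15,1),(2,1),(0,1),(7,0),(0,0)]⟩,⟨0,[(3,0),(0,0),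
  (21,0)]⟩⟩,⟨false,1,⟨0,[(18,0),(2,0),(0,0),(7,0)]⟩,⟨0,[(8,0)]⟩⟩,⟨false,1,⟨0,[(28,0),(2,0)]⟩,⟨0,
  [(29,0)]⟩⟩,⟨true,0,⟨2,[(0,0),(8,0),(18,0)]⟩,⟨0,[(14,0)]⟩⟩,⟨true,0,⟨0,[]⟩,⟨0,[(33,0)]⟩⟩,⟨true,0,⟨1,
  [(0,0),(15,0),(12,0)]⟩,⟨0,[(2,0)]⟩⟩,[.o ⟨false,0,⟨1,[(0,0),(15,0),(12,0)]⟩,⟨1,[(2,1),(20,0),(7,
  0)]⟩⟩,.a ⟨true,0,⟨0,[(0,0)]⟩,⟨0,[(2,0)]⟩⟩ ⟨false,1,⟨3,[(10,0),(0,0),(19,1)]⟩,⟨0,[(27,0)]⟩⟩ ⟨true,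
  0,⟨5,[(0,1),(8,1),(8,0),(0,0),(6,3)]⟩,⟨0,[(2,0)]⟩⟩,.o ⟨false,1,⟨3,[(10,0),(0,0),(18,1)]⟩,⟨0,[(8,
  0),(9,0)]⟩⟩,.e ⟨true,0,⟨0,[]⟩,⟨0,[(33,0)]⟩⟩ ⟨true,0,⟨1,[(0,0),(15,0),(12,0)]⟩,⟨0,[(2,0)]⟩⟩]⟩) (.I
  [0,0,-1,-1,2,0,0,-2] (.Q [0,0,2,0,-1,0,-1,0,0,-1,1] (.p true [0,0,1] [1] (⟨0,[(23,0)]⟩,⟨0,[(22,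
  0)]⟩) .k 1 (⟨0,[]⟩,⟨0,[]⟩) .k .k) (.K ⟨2,[-1,1,1],1,0,(⟨0,[(3,0)]⟩,⟨0,[(23,0),(2,0)]⟩),.k,.k,(.r
  1 ⟨0,[(5,0),(16,0),(5,0)]⟩ ⟨0,[(1,0),(4,0)]⟩),.k,.k,[⟨0,[(23,0),(0,0),(6,0)]⟩,⟨0,[(4,0)]⟩,⟨0,[(0,
  0)]⟩,⟨7,[(1,3),(3,1),(5,3),(0,0),(0,0),(9,3),(0,3),(3,1)]⟩]⟩) (.Q [0,-1,0,1,0,0,0,0,-1,0,0,1] (.p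
  true [0,0,0,1] [] (⟨0,[(15,0)]⟩,⟨1,[(14,0),(8,0),(0,0)]⟩) .k 0 (⟨0,[]⟩,⟨0,[]⟩) .k .k) (.Q [0,1,0,
  0,0,0,0,0,1,1,0,-1] (.p false [0,0,0,1] [1] (⟨0,[(16,0)]⟩,⟨1,[(15,0),(8,0),(0,0)]⟩) .k 1 (⟨0,[]⟩,
  ⟨0,[]⟩) .k .k) (.K ⟨2,[1,0,0,-1],0,0,(⟨1,[(16,0),(8,0),(0,0)]⟩,⟨0,[(17,0)]⟩),.k,(.r (-1) ⟨17,[(1,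
  3),(0,0),(0,4),(2,2),(1,10),(1,1),(3,6),(1,1),(15,0)]⟩ ⟨1,[(7,0),(7,0),(14,0)]⟩),(.x (-1) ⟨3,[(14,
  0),(0,0),(13,3),(4,1)]⟩ ⟨7,[(4,1),(2,0),(2,1),(8,1),(2,1),(4,0),(0,7),(1,2)]⟩),.k,.k,[⟨0,[(1,0),
  (4,0)]⟩,⟨0,[(0,0)]⟩,⟨1,[(16,0),(5,0),(0,0),(1,0),(0,0)]⟩,⟨7,[(4,1),(2,0),(2,1),(6,7),(1,1),(2,1),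
  (4,0),(2,2)]⟩]⟩) (.R ⟨2,true,false,false,[0,1],[1,0,0,-1],[0,1],(⟨0,[]⟩,⟨0,[]⟩),(⟨1,[(16,0),(8,0),
  (0,0)]⟩,⟨0,[(17,0)]⟩),⟨0,[]⟩,.k,.k,.k,(.r 0 ⟨1,[(7,0),(7,0),(14,0)]⟩ ⟨17,[(0,2),(0,0),(0,0),(0,4),
  (4,10),(5,6),(1,1),(4,0),(10,2)]⟩),.k,.k,⟨false,1,⟨1,[(15,0),(18,0),(2,1)]⟩,⟨1,[(0,1),(15,0),(8,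
  0),(0,0)]⟩⟩,⟨true,0,⟨19,[(0,5),(3,1),(2,3),(2,1),(4,2),(1,13),(1,7),(2,7),(4,0)]⟩,⟨1,[(16,0),(8,
  0),(0,0)]⟩⟩,⟨false,1,⟨5,[(3,1),(4,3),(5,0),(0,0)]⟩,⟨0,[(30,0)]⟩⟩,⟨true,0,⟨0,[(0,0),(31,0)]⟩,⟨3,
  [(2,0),(4,2),(0,0),(6,1),(0,1),(4,0),(3,0),(0,0),(6,1)]⟩⟩,⟨true,0,⟨0,[(31,0)]⟩,⟨1,[(22,0),(0,
  0)]⟩⟩,⟨false,0,⟨0,[(0,0)]⟩,⟨13,[(2,3),(0,1),(3,0),(5,1),(1,6),(0,6),(6,7),(1,0),(0,0),(3,0)]⟩⟩,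
  []⟩)) (.I [0,-1,0,1,1,0,0,-1,-1] (.Q [0,0,0,0,0,1,0,0,0,-1,0,1] (.p true [0,0,0,1] [1] (⟨0,[(17,
  0)]⟩,⟨1,[(16,0),(8,0),(0,0)]⟩) .k 1 (⟨0,[]⟩,⟨0,[]⟩) .k .k) (.R ⟨0,false,false,true,[1,0,0,-1],[1,
  -1],[0,1,1],(⟨1,[(17,0),(8,0),(0,0)]⟩,⟨0,[(18,0)]⟩),(⟨0,[(29,0)]⟩,⟨0,[(30,0)]⟩),⟨0,[(0,0)]⟩,.k,.k,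
  (.r (-1) ⟨8,[(1,2),(1,0),(0,0),(2,2),(1,5),(1,1),(3,2),(10,1),(0,1)]⟩ ⟨1,[(8,0),(7,0),(14,0)]⟩),
  (.r 0 ⟨1,[(8,0),(6,0),(15,0)]⟩ ⟨2,[(2,0),(0,0),(3,0),(1,0),(6,0),(1,0),(17,0)]⟩),.k,.k,⟨false,0,
  ⟨3,[(8,1),(6,0),(0,0),(14,1)]⟩,⟨3,[(3,1),(3,1),(1,1),(25,0),(0,0)]⟩⟩,⟨true,0,⟨1,[(17,0),(2,0),(2,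
  0)]⟩,⟨0,[(18,0)]⟩⟩,⟨false,0,⟨0,[(2,0),(15,0),(12,0)]⟩,⟨0,[(1,0),(7,0)]⟩⟩,⟨true,0,⟨0,[(2,0)]⟩,⟨0,
  [(1,0),(6,0),(0,0),(8,0)]⟩⟩,⟨false,0,⟨0,[]⟩,⟨0,[]⟩⟩,⟨false,0,⟨0,[]⟩,⟨0,[]⟩⟩,[.o ⟨false,0,⟨3,[(5,
  1),(5,0),(9,0),(11,0)]⟩,⟨3,[(15,0),(0,0),(17,3),(1,1)]⟩⟩,.o ⟨false,1,⟨21,[(4,5),(0,1),(3,2),(1,
  10),(12,8),(3,8),(7,0)]⟩,⟨0,[(34,0)]⟩⟩,.a ⟨true,0,⟨0,[(18,0)]⟩,⟨1,[(17,0),(8,0),(0,0)]⟩⟩ ⟨false,0,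
  ⟨1,[(23,0),(0,0)]⟩,⟨1,[(35,0),(0,0)]⟩⟩ ⟨true,0,⟨7,[(5,1),(5,0),(5,3),(3,0),(11,4)]⟩,⟨0,[(18,0),
  (15,0)]⟩⟩,.o ⟨false,0,⟨7,[(5,1),(2,0),(2,1),(6,7),(1,1),(2,1),(4,0),(2,2)]⟩,⟨7,[(15,0),(0,0),(0,
  3),(10,1),(6,3)]⟩⟩]⟩) (.I [0,0,0,0,0,0,0,0,-1] (.R ⟨1,false,false,true,[1,0,0,-1],[1,-1],[0,1,0,0,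
  0,0,0,0,-1],(⟨1,[(18,0),(8,0),(0,0)]⟩,⟨0,[(19,0)]⟩),(⟨0,[(30,0)]⟩,⟨0,[(31,0)]⟩),⟨0,[(1,0)]⟩,.k,.k,
  (.r (-1) ⟨2,[(0,0),(4,0),(4,1),(5,0)]⟩ ⟨1,[(9,0),(7,0),(14,0)]⟩),(.r 0 ⟨1,[(9,0),(6,0),(15,0)]⟩
  ⟨2,[(3,0),(0,0),(3,0),(1,0),(6,0),(1,0),(17,0)]⟩),.k,.k,⟨false,0,⟨0,[(0,0),(34,0)]⟩,⟨2,[(3,0),(0,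
  0),(3,0),(1,0),(6,0),(1,0),(17,0)]⟩⟩,⟨true,0,⟨1,[(18,0),(2,0),(2,0)]⟩,⟨0,[(19,0)]⟩⟩,⟨true,0,⟨0,
  [(39,0)]⟩,⟨0,[]⟩⟩,⟨true,0,⟨0,[(3,0)]⟩,⟨0,[(0,0),(18,0),(15,0)]⟩⟩,⟨false,0,⟨0,[(35,0)]⟩,⟨0,[(34,0),
  (2,0)]⟩⟩,⟨true,0,⟨0,[(3,0),(31,0)]⟩,⟨0,[(0,0),(18,0)]⟩⟩,[.o ⟨false,0,⟨3,[(6,1),(5,0),(9,0),(11,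
  0)]⟩,⟨3,[(16,0),(0,0),(17,3),(1,1)]⟩⟩,.o ⟨false,1,⟨21,[(5,5),(0,1),(3,2),(1,10),(12,8),(3,8),(7,
  0)]⟩,⟨0,[(35,0)]⟩⟩,.a ⟨true,0,⟨0,[(19,0)]⟩,⟨1,[(18,0),(8,0),(0,0)]⟩⟩ ⟨false,0,⟨0,[(0,0)]⟩,⟨1,[(17,
  0),(19,0)]⟩⟩ ⟨true,0,⟨7,[(6,1),(5,0),(5,3),(3,0),(11,4)]⟩,⟨0,[(19,0),(15,0)]⟩⟩,.o ⟨false,0,⟨7,[(6,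
  1),(2,0),(2,1),(6,7),(1,1),(2,1),(4,0),(2,2)]⟩,⟨7,[(16,0),(0,0),(0,3),(10,1),(6,3)]⟩⟩]⟩) (.Q [0,0,
  0,0,0,0,0,0,1,0,0,-1] (.p false [0,0,0,1] [] (⟨0,[(19,0)]⟩,⟨1,[(18,0),(8,0),(0,0)]⟩) .k 0 (⟨0,[]⟩,
  ⟨0,[]⟩) .k .k) (.R ⟨2,true,false,true,[0,1],[0,0,0,1],[0,1],(⟨0,[]⟩,⟨0,[]⟩),(⟨0,[(20,0)]⟩,⟨1,[(19,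
  0),(8,0),(0,0)]⟩),⟨0,[]⟩,.k,.k,.k,(.r 0 ⟨1,[(10,0),(6,0),(15,0)]⟩ ⟨2,[(1,0),(4,0),(4,1),(6,0)]⟩),
  .k,.k,⟨false,1,⟨1,[(17,0),(19,0)]⟩,⟨0,[(1,0)]⟩⟩,⟨true,0,⟨1,[(19,0),(2,0),(2,0)]⟩,⟨0,[(20,0)]⟩⟩,
  ⟨false,1,⟨5,[(6,1),(4,3),(5,0),(0,0)]⟩,⟨0,[(33,0)]⟩⟩,⟨true,0,⟨0,[(4,0)]⟩,⟨0,[(3,0),(6,0),(0,0),(8,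
  0)]⟩⟩,⟨true,0,⟨0,[(34,0)]⟩,⟨1,[(25,0),(0,0)]⟩⟩,⟨false,0,⟨0,[(0,0)]⟩,⟨1,[(17,0),(2,1),(17,0)]⟩⟩,
  []⟩) (.R ⟨2,false,false,true,[0,1],[0,0,0,1],[0,1],(⟨0,[]⟩,⟨0,[]⟩),(⟨0,[(20,0)]⟩,⟨1,[(19,0),(8,0),
  (0,0)]⟩),⟨0,[]⟩,.k,.k,.k,(.r 0 ⟨1,[(10,0),(6,0),(15,0)]⟩ ⟨2,[(1,0),(4,0),(4,1),(6,0)]⟩),.k,.k,
  ⟨false,1,⟨1,[(17,0),(19,0)]⟩,⟨0,[(1,0)]⟩⟩,⟨true,0,⟨1,[(19,0),(2,0),(2,0)]⟩,⟨0,[(20,0)]⟩⟩,⟨false,1,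
  ⟨5,[(6,1),(4,3),(5,0),(0,0)]⟩,⟨0,[(33,0)]⟩⟩,⟨true,0,⟨0,[(4,0)]⟩,⟨0,[(0,0),(35,0)]⟩⟩,⟨true,0,⟨0,
  [(34,0)]⟩,⟨1,[(25,0),(0,0)]⟩⟩,⟨true,0,⟨5,[(1,1),(2,1),(5,1),(7,0),(0,1),(10,0),(3,1)]⟩,⟨0,[(0,
  0)]⟩⟩,[.o ⟨false,0,⟨5,[(1,1),(2,1),(5,1),(7,0),(0,1),(10,0),(3,1)]⟩,⟨1,[(0,1),(29,0),(7,0)]⟩⟩,.a
  ⟨true,0,⟨1,[(1,1),(17,0),(8,0),(0,0)]⟩,⟨0,[(0,0)]⟩⟩ ⟨false,1,⟨3,[(17,0),(0,0),(18,1)]⟩,⟨0,[]⟩⟩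
  ⟨true,0,⟨0,[(4,0),(28,0)]⟩,⟨0,[(0,0)]⟩⟩,.o ⟨false,1,⟨3,[(17,0),(0,0),(18,1)]⟩,⟨7,[(7,1),(2,0),(2,
  1),(8,1),(2,1),(4,0),(2,2)]⟩⟩,.e ⟨true,0,⟨0,[(34,0)]⟩,⟨1,[(25,0),(0,0)]⟩⟩ ⟨true,0,⟨5,[(1,1),(2,1),
  (5,1),(7,0),(0,1),(10,0),(3,1)]⟩,⟨0,[(0,0)]⟩⟩]⟩)))) (.Q [0,0,0,0,0,1,0,0,0,0,0,-1] (.p false [0,0,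
  0,1] [] (⟨0,[(17,0)]⟩,⟨1,[(16,0),(8,0),(0,0)]⟩) .k 0 (⟨0,[]⟩,⟨0,[]⟩) .k .k) (.R ⟨0,false,false,
  false,[0,0,0,1],[2,-1,-1],[1],(⟨0,[(18,0)]⟩,⟨1,[(17,0),(8,0),(0,0)]⟩),(⟨0,[(26,0),(2,0)]⟩,⟨0,[(6,
  0)]⟩),⟨0,[(0,0)]⟩,.k,.k,(.r (-1) ⟨5,[(1,1),(2,1),(4,1),(6,1),(18,0),(0,0)]⟩ ⟨1,[(8,0),(6,0),(15,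
  0)]⟩),(.r 1 ⟨0,[(1,0),(29,0),(2,0)]⟩ ⟨11,[(4,7),(4,3),(5,6),(0,0)]⟩),.k,.k,⟨true,(-1),⟨0,[(8,0),
  (0,0),(21,0)]⟩,⟨2,[(4,0),(2,0),(15,0),(2,0),(0,0),(5,0),(2,0)]⟩⟩,⟨false,0,⟨0,[(5,0),(3,0),(8,0),
  (12,0),(2,0)]⟩,⟨13,[(3,7),(0,3),(3,1),(5,3),(2,6),(6,1),(1,8),(0,8),(3,1)]⟩⟩,⟨false,1,⟨1,[(15,0),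
  (20,0)]⟩,⟨0,[(1,0),(1,0),(3,0),(23,1)]⟩⟩,⟨true,1,⟨1,[(5,1),(9,0),(2,1),(17,0)]⟩,⟨1,[(1,1),(1,1),
  (4,1),(8,0),(8,0),(0,0),(3,1)]⟩⟩,⟨false,0,⟨0,[]⟩,⟨0,[]⟩⟩,⟨false,0,⟨0,[]⟩,⟨0,[]⟩⟩,[.o ⟨false,1,⟨10,
  [(4,1),(0,7),(3,0),(14,2),(3,2),(7,3)]⟩,⟨1,[(14,0),(11,0),(0,0),(6,1)]⟩⟩,.o ⟨false,1,⟨0,[(5,0),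
  (30,0)]⟩,⟨2,[(3,1),(4,1),(5,0),(6,0),(2,1),(9,0)]⟩⟩,.a ⟨true,0,⟨1,[(17,0),(8,0),(0,0)]⟩,⟨0,[(18,
  0)]⟩⟩ ⟨true,0,⟨0,[]⟩,⟨0,[(38,0)]⟩⟩ ⟨false,1,⟨0,[(5,0),(12,0),(17,0)]⟩,⟨1,[(14,0),(2,0),(8,1),(0,
  1),(6,1)]⟩⟩,.o ⟨false,0,⟨1,[(17,0),(2,0),(2,0)]⟩,⟨1,[(18,1),(9,0),(6,0)]⟩⟩]⟩) (.Q [0,-1,0,0,0,0,1,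
  1,1,1,-1,-1] (.p false [0,0,1] [1,0,0,-1] (⟨0,[(27,0)]⟩,⟨0,[(26,0)]⟩) .k 2 (⟨1,[(17,0),(8,0),(0,
  0)]⟩,⟨0,[(18,0)]⟩) .k (.x (-1) ⟨11,[(3,3),(11,2),(0,2),(6,7),(3,11),(0,1)]⟩ ⟨0,[(13,0),(12,0)]⟩))
  (.R ⟨1,false,false,true,[1,0,0,-1],[1,-1],[0,0,0,0,0,0,0,0,-1],(⟨1,[(18,0),(8,0),(0,0)]⟩,⟨0,[(19,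
  0)]⟩),(⟨0,[(30,0)]⟩,⟨0,[(31,0)]⟩),⟨0,[(1,0),(16,0)]⟩,.k,.k,(.x 0 ⟨7,[(6,1),(2,0),(2,1),(8,1),(2,
  1),(4,0),(0,7),(1,2)]⟩ ⟨3,[(16,0),(0,0),(13,3),(4,1)]⟩),(.r 0 ⟨1,[(9,0),(6,0),(15,0)]⟩ ⟨5,[(2,1),
  (2,1),(4,1),(6,1),(18,0),(0,0)]⟩),.k,.k,⟨false,1,⟨1,[(16,0),(18,1),(1,0)]⟩,⟨1,[(0,0),(1,0),(1,0),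
  (3,0),(10,0),(0,0)]⟩⟩,⟨true,0,⟨1,[(18,0),(2,0),(2,0)]⟩,⟨0,[(19,0)]⟩⟩,⟨false,1,⟨3,[(16,0),(0,0),
  (19,1)]⟩,⟨0,[]⟩⟩,⟨false,0,⟨0,[(0,0),(7,0)]⟩,⟨1,[(16,0),(2,1),(15,1),(1,0)]⟩⟩,⟨true,0,⟨0,[(35,0)]⟩,
  ⟨0,[(34,0)]⟩⟩,⟨false,0,⟨0,[(0,0),(19,0)]⟩,⟨1,[(16,0),(2,1),(17,0)]⟩⟩,[.o ⟨false,0,⟨3,[(6,1),(5,0),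
  (9,0),(11,0)]⟩,⟨3,[(16,0),(0,0),(17,3),(1,1)]⟩⟩,.o ⟨false,1,⟨21,[(5,5),(0,1),(3,2),(1,10),(12,8),
  (3,8),(7,0)]⟩,⟨0,[(35,0)]⟩⟩,.a ⟨true,0,⟨0,[(19,0)]⟩,⟨1,[(18,0),(8,0),(0,0)]⟩⟩ ⟨false,1,⟨1,[(16,0),
  (20,0)]⟩,⟨0,[(0,0),(18,0),(0,0)]⟩⟩ ⟨true,0,⟨7,[(6,1),(5,0),(5,3),(3,0),(11,4)]⟩,⟨0,[(19,0),(15,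
  0)]⟩⟩,.o ⟨false,0,⟨7,[(6,1),(2,0),(2,1),(6,7),(1,1),(2,1),(4,0),(2,2)]⟩,⟨7,[(16,0),(0,0),(0,3),
  (10,1),(6,3)]⟩⟩]⟩) (.R ⟨1,false,false,true,[0,0,0,1],[1,0,-1],[0,1,0,0,0,0,0,0,1],(⟨0,[(19,0)]⟩,
  ⟨1,[(18,0),(8,0),(0,0)]⟩),(⟨0,[(27,0)]⟩,⟨0,[(28,0)]⟩),⟨0,[(1,0)]⟩,.k,.k,(.r (-1) ⟨5,[(2,1),(2,1),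
  (4,1),(6,1),(18,0),(0,0)]⟩ ⟨1,[(9,0),(6,0),(15,0)]⟩),.k,(.r 0 ⟨1,[(2,1),(33,0),(0,0)]⟩ ⟨7,[(5,3),
  (3,5),(6,4),(0,0),(14,5)]⟩),.k,⟨false,0,⟨1,[(2,1),(32,1),(0,0),(0,0)]⟩,⟨9,[(0,5),(3,1),(0,1),(10,
  1),(1,2),(5,3),(2,0),(0,0),(3,1),(4,1)]⟩⟩,⟨true,0,⟨0,[(14,0),(4,0)]⟩,⟨1,[(18,0),(5,1),(2,0),(0,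
  0)]⟩⟩,⟨true,0,⟨0,[(39,0)]⟩,⟨0,[]⟩⟩,⟨true,0,⟨0,[(0,0)]⟩,⟨9,[(2,5),(1,3),(8,1),(1,0),(1,1),(0,4),(5,
  1),(7,5)]⟩⟩,⟨false,0,⟨0,[(35,0)]⟩,⟨0,[(34,0),(2,0)]⟩⟩,⟨true,0,⟨0,[(0,0),(34,0)]⟩,⟨19,[(2,17),(1,
  3),(0,1),(9,2),(1,0),(0,9),(5,9),(2,2),(0,2),(8,8)]⟩⟩,[.o ⟨false,0,⟨0,[(20,0)]⟩,⟨7,[(15,3),(0,0),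
  (0,0),(11,1),(7,3)]⟩⟩,.o ⟨false,1,⟨4,[(5,1),(8,2),(8,0),(1,0),(3,0),(2,0),(2,0)]⟩,⟨0,[(13,0)]⟩⟩,
  .a ⟨true,0,⟨1,[(18,0),(8,0),(0,0)]⟩,⟨0,[(19,0)]⟩⟩ ⟨false,0,⟨0,[(2,0),(1,0),(3,0),(23,1)]⟩,⟨1,[(16,
  0),(20,0)]⟩⟩ ⟨true,0,⟨0,[(19,0),(0,0)]⟩,⟨1,[(15,0),(2,0)]⟩⟩,.o ⟨false,0,⟨1,[(18,0),(2,0),(2,0)]⟩,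
  ⟨1,[(19,1),(9,0),(6,0)]⟩⟩]⟩)))))) (.K ⟨2,[-1,1,1],1,0,(⟨0,[(2,0)]⟩,⟨0,[(22,0),(2,0)]⟩),.k,.k,(.x
  (-2) ⟨3,[(11,0),(0,0),(6,3),(3,3),(2,7),(4,5)]⟩ ⟨19,[(0,13),(0,27),(14,1),(2,9),(2,19),(1,0),(0,
  39),(1,13),(4,6)]⟩),.k,.k,[⟨0,[(22,0),(0,0),(6,0)]⟩,⟨0,[(3,0)]⟩,⟨5,[(0,3),(2,7),(15,2),(0,0),(1,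
  1),(0,1),(3,3),(4,1)]⟩,⟨3,[(11,0),(0,0),(6,3),(2,3),(0,3),(7,1)]⟩]⟩))) (.I [1,-1,0,1,1,0,0,-1]
  (.Q [0,1,0,2,-1,0,1,1,0,1,-1] (.p false [0,0,1] [1] (⟨0,[(22,0)]⟩,⟨0,[(21,0)]⟩) .k 1 (⟨0,[]⟩,⟨0,
  []⟩) .k .k) (.I [0,0,-2,-2,2,0,0,-1] (.Q [0,0,2,0,-1,0,-1,0,0,0,1] (.p true [0,0,1] [] (⟨0,[(24,
  0)]⟩,⟨0,[(23,0)]⟩) .k 0 (⟨0,[]⟩,⟨0,[]⟩) .k .k) (.K ⟨2,[0,1,1],1,0,(⟨0,[(25,0),(2,0)]⟩,⟨0,[(4,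
  0)]⟩),.k,.k,(.r 1 ⟨5,[(0,2),(1,3),(8,0),(0,0),(5,1),(7,0),(2,3)]⟩ ⟨0,[(1,0)]⟩),.k,.k,[⟨0,[(32,
  0)]⟩,⟨0,[(5,0),(18,0),(0,0)]⟩,⟨0,[(0,0)]⟩,⟨39,[(1,7),(1,15),(8,3),(0,2),(0,2),(4,15),(1,15),(4,
  1)]⟩]⟩) (.Q [0,0,0,0,0,1,0,0,0,0,-1] (.ed true [1,-1,1] .k) (.Q [0,0,-1,0,0,0,-1,0,0,1,1] (.p
  true [1,-1,1] [] (⟨0,[(26,0),(1,0)]⟩,⟨0,[(0,0)]⟩) .k 0 (⟨0,[]⟩,⟨0,[]⟩) .k .k) (.R ⟨0,false,false,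
  false,[0,1,-1],[0,1],[0,1,1],(⟨0,[(1,0)]⟩,⟨0,[(27,0),(1,0)]⟩),(⟨0,[(30,0)]⟩,⟨0,[(29,0)]⟩),⟨0,[(27,
  0)]⟩,.k,.k,.k,.k,.k,.k,⟨true,0,⟨0,[(33,0)]⟩,⟨0,[(31,0)]⟩⟩,⟨false,1,⟨5,[(2,3),(12,0),(0,0),(6,1)]⟩,
  ⟨2,[(0,0),(12,0),(10,0)]⟩⟩,⟨false,0,⟨1,[(9,0),(1,0),(12,0)]⟩,⟨0,[(5,0)]⟩⟩,⟨true,0,⟨0,[(12,0)]⟩,⟨0,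
  [(22,0)]⟩⟩,⟨false,0,⟨0,[]⟩,⟨0,[]⟩⟩,⟨false,0,⟨0,[]⟩,⟨0,[]⟩⟩,[.o ⟨false,0,⟨0,[(34,0)]⟩,⟨5,[(3,1),(7,
  1),(8,1),(2,0),(0,0),(3,1)]⟩⟩,.o ⟨false,1,⟨11,[(4,3),(0,3),(7,3),(1,2),(0,2),(19,5)]⟩,⟨4,[(7,2),
  (0,0),(2,2),(16,0),(3,0)]⟩⟩,.a ⟨true,0,⟨0,[(0,0)]⟩,⟨0,[(23,0)]⟩⟩ ⟨false,0,⟨1,[(23,0),(0,0)]⟩,⟨1,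
  [(35,0),(0,0)]⟩⟩ ⟨true,0,⟨7,[(4,1),(0,1),(2,0),(14,5),(4,0),(2,0)]⟩,⟨3,[(0,1),(6,0),(1,0),(3,0),
  (18,0),(0,1)]⟩⟩,.o ⟨false,0,⟨2,[(0,0),(12,0),(10,0)]⟩,⟨11,[(2,3),(12,0),(0,0),(6,7),(4,5)]⟩⟩]⟩)
  (.Q [0,0,0,0,0,0,-1,-1,-1,-1,1,1] (.p true [0,0,1] [1,0,0,-1] (⟨0,[(27,0)]⟩,⟨0,[(26,0)]⟩) .k 2
  (⟨1,[(17,0),(8,0),(0,0)]⟩,⟨0,[(18,0)]⟩) .k (.x (-1) ⟨2,[(2,0),(12,0),(0,0),(6,1),(3,2)]⟩ ⟨0,[(13,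
  0),(12,0)]⟩)) (.Q [0,1,0,0,0,0,0,0,1,1,0,-1] (.p false [0,0,0,1] [1] (⟨0,[(19,0)]⟩,⟨1,[(18,0),(8,
  0),(0,0)]⟩) .k 1 (⟨0,[]⟩,⟨0,[]⟩) .k .k) (.K ⟨2,[1,0,0,-1],0,0,(⟨1,[(19,0),(8,0),(0,0)]⟩,⟨0,[(20,
  0)]⟩),.k,(.r (-1) ⟨5,[(1,1),(3,1),(5,1),(4,0),(0,1),(1,0)]⟩ ⟨1,[(10,0),(7,0),(14,0)]⟩),(.x (-1)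
  ⟨3,[(17,0),(0,0),(13,3),(4,1)]⟩ ⟨1,[(2,0),(19,0),(8,1)]⟩),.k,.k,[⟨0,[(1,0)]⟩,⟨0,[(0,0)]⟩,⟨1,[(19,
  0),(5,0),(0,0),(1,0),(0,0)]⟩,⟨1,[(2,0),(17,1),(1,0)]⟩]⟩) (.R ⟨2,true,false,false,[0,1],[1,0,0,-1],
  [0,1],(⟨0,[]⟩,⟨0,[]⟩),(⟨1,[(19,0),(8,0),(0,0)]⟩,⟨0,[(20,0)]⟩),⟨0,[]⟩,.k,.k,.k,(.r 0 ⟨1,[(10,0),(7,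
  0),(14,0)]⟩ ⟨17,[(0,2),(0,0),(3,5),(0,0),(4,5),(5,6),(1,1),(8,0),(0,0),(5,1)]⟩),.k,.k,⟨false,1,⟨1,
  [(18,0),(18,0),(2,1)]⟩,⟨1,[(0,1),(18,0),(8,0),(0,0)]⟩⟩,⟨true,0,⟨1,[(2,0),(17,1),(1,0)]⟩,⟨1,[(19,
  0),(8,0),(0,0)]⟩⟩,⟨false,1,⟨5,[(5,1),(5,1),(5,0),(0,0)]⟩,⟨0,[(33,0)]⟩⟩,⟨true,0,⟨0,[(0,0),(34,0)]⟩,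
  ⟨1,[(6,0),(11,0),(0,0),(4,0)]⟩⟩,⟨true,0,⟨0,[(34,0)]⟩,⟨1,[(25,0),(0,0)]⟩⟩,⟨false,0,⟨0,[(0,0)]⟩,⟨3,
  [(17,0),(0,2),(0,1),(8,1),(0,1)]⟩⟩,[]⟩)) (.Q [0,0,0,-1,0,0,0,0,1,0,0,-1] (.p false [0,0,0,1] []
  (⟨0,[(19,0)]⟩,⟨1,[(18,0),(8,0),(0,0)]⟩) .k 0 (⟨0,[]⟩,⟨0,[]⟩) .k .k) (.Q [0,0,0,0,0,1,0,0,0,0,0,
  -1] (.p false [0,0,0,1] [] (⟨0,[(20,0)]⟩,⟨1,[(19,0),(8,0),(0,0)]⟩) .k 0 (⟨0,[]⟩,⟨0,[]⟩) .k .k)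
  (.R ⟨0,false,false,false,[0,0,0,1],[0,1],[1,0,1,1],(⟨0,[(21,0)]⟩,⟨1,[(20,0),(8,0),(0,0)]⟩),(⟨0,
  [(33,0)]⟩,⟨0,[(32,0)]⟩),⟨0,[(0,0)]⟩,.k,.k,(.r (-1) ⟨7,[(1,1),(4,1),(5,1),(6,2),(1,1),(16,0)]⟩ ⟨1,
  [(11,0),(6,0),(15,0)]⟩),(.r (-1) ⟨7,[(1,1),(4,1),(5,1),(6,2),(1,1),(16,0)]⟩ ⟨1,[(11,0),(6,0),(15,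
  0)]⟩),.k,.k,⟨true,0,⟨0,[]⟩,⟨1,[(26,0),(0,0)]⟩⟩,⟨false,1,⟨0,[(21,0),(16,0)]⟩,⟨1,[(20,0),(2,0),(2,
  0)]⟩⟩,⟨true,0,⟨1,[(11,0),(6,0),(15,0)]⟩,⟨0,[(1,0),(19,0),(13,0)]⟩⟩,⟨false,1,⟨5,[(7,1),(0,1),(7,1),
  (1,2),(2,5),(17,2)]⟩,⟨0,[(1,0)]⟩⟩,⟨false,0,⟨0,[]⟩,⟨0,[]⟩⟩,⟨false,0,⟨0,[]⟩,⟨0,[]⟩⟩,[.o ⟨false,0,⟨0,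
  [(37,0)]⟩,⟨5,[(6,1),(7,1),(8,1),(2,0),(0,0),(3,1)]⟩⟩,.o ⟨false,1,⟨11,[(7,3),(0,3),(7,3),(1,2),(0,
  2),(19,5)]⟩,⟨2,[(3,0),(6,1),(1,0),(11,0)]⟩⟩,.a ⟨true,0,⟨1,[(20,0),(8,0),(0,0)]⟩,⟨0,[(21,0)]⟩⟩
  ⟨false,0,⟨0,[(34,0)]⟩,⟨5,[(6,1),(5,1),(5,0),(0,0)]⟩⟩ ⟨true,0,⟨2,[(7,0),(0,0),(7,0),(4,2)]⟩,⟨3,
  [(10,1),(3,0),(5,1),(3,0),(11,0)]⟩⟩,.o ⟨false,0,⟨1,[(20,0),(2,0),(2,0)]⟩,⟨1,[(21,1),(9,0),(6,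
  0)]⟩⟩]⟩) (.I [0,0,-1,-1,1,0,0,0,-1] (.R ⟨1,false,false,false,[1,0,0,-1],[1,-1],[0,1,0,0,0,0,0,0,
  -1],(⟨1,[(21,0),(8,0),(0,0)]⟩,⟨0,[(22,0)]⟩),(⟨0,[(33,0)]⟩,⟨0,[(34,0)]⟩),⟨0,[(1,0),(19,0)]⟩,.k,.k,
  (.r (-1) ⟨0,[(0,0)]⟩ ⟨1,[(12,0),(7,0),(14,0)]⟩),(.r 0 ⟨1,[(12,0),(6,0),(15,0)]⟩ ⟨7,[(2,1),(4,1),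
  (5,1),(6,2),(1,1),(16,0)]⟩),.k,.k,⟨false,0,⟨1,[(8,0),(10,0),(3,0)]⟩,⟨1,[(2,1),(19,1),(16,0),(0,
  0)]⟩⟩,⟨true,0,⟨1,[(21,0),(2,0),(2,0)]⟩,⟨0,[(22,0)]⟩⟩,⟨true,0,⟨0,[(42,0)]⟩,⟨0,[]⟩⟩,⟨true,0,⟨0,[(2,
  0)]⟩,⟨1,[(8,0),(10,0),(2,1),(0,0)]⟩⟩,⟨false,0,⟨0,[(38,0)]⟩,⟨0,[(37,0),(2,0)]⟩⟩,⟨true,0,⟨2,[(2,2),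
  (5,0),(0,0),(7,0)]⟩,⟨0,[(0,0),(11,0),(9,0)]⟩⟩,[.o ⟨false,1,⟨5,[(7,1),(7,1),(8,1),(2,0),(0,0),(3,
  1)]⟩,⟨0,[(38,0)]⟩⟩,.o ⟨false,1,⟨3,[(11,1),(3,1),(16,0),(7,2)]⟩,⟨7,[(8,3),(10,0),(0,0),(5,3),(5,
  1)]⟩⟩,.a ⟨true,0,⟨0,[(22,0)]⟩,⟨1,[(21,0),(8,0),(0,0)]⟩⟩ ⟨true,0,⟨0,[(0,0),(11,0)]⟩,⟨2,[(2,2),(5,
  0),(0,0),(7,0),(4,2)]⟩⟩ ⟨false,1,⟨1,[(2,1),(16,0),(20,0)]⟩,⟨2,[(8,0),(0,0),(7,0),(4,2)]⟩⟩,.o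
  ⟨false,0,⟨1,[(4,0),(17,1),(1,0)]⟩,⟨7,[(19,0),(0,0),(0,3),(10,1),(6,3)]⟩⟩]⟩) (.R ⟨1,false,false,
  true,[1,0,0,-1],[1,-1],[1,1,0,-1,0,0,0,0,-1],(⟨1,[(21,0),(8,0),(0,0)]⟩,⟨0,[(22,0)]⟩),(⟨0,[(33,
  0)]⟩,⟨0,[(34,0)]⟩),⟨0,[(1,0),(19,0)]⟩,.k,.k,(.x 0 ⟨1,[(4,0),(19,0),(8,1)]⟩ ⟨3,[(19,0),(0,0),(13,
  3),(4,1)]⟩),(.r 0 ⟨1,[(12,0),(6,0),(15,0)]⟩ ⟨4,[(0,0),(6,1),(5,1),(6,1)]⟩),.k,.k,⟨false,1,⟨3,[(19,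
  2),(0,0)]⟩,⟨2,[(0,2),(5,1),(4,0),(1,1),(12,0),(3,0),(0,0),(8,0)]⟩⟩,⟨true,0,⟨1,[(21,0),(2,0),(2,
  0)]⟩,⟨0,[(22,0)]⟩⟩,⟨true,0,⟨0,[(37,0)]⟩,⟨0,[(38,0)]⟩⟩,⟨false,0,⟨0,[(2,0)]⟩,⟨5,[(8,1),(0,1),(7,1),
  (1,2),(2,5),(17,2)]⟩⟩,⟨false,0,⟨0,[]⟩,⟨3,[(19,0),(0,0),(19,1)]⟩⟩,⟨false,0,⟨13,[(0,5),(1,5),(17,0),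
  (0,3),(10,1),(6,2)]⟩,⟨1,[(19,0),(2,1),(17,0)]⟩⟩,[.o ⟨false,0,⟨2,[(4,0),(6,1),(1,0),(11,0)]⟩,⟨11,
  [(8,3),(0,3),(7,3),(1,2),(0,2),(19,5)]⟩⟩,.o ⟨false,1,⟨5,[(7,1),(7,1),(8,1),(2,0),(0,0),(3,1)]⟩,⟨0,
  [(38,0)]⟩⟩,.a ⟨true,0,⟨0,[(22,0)]⟩,⟨1,[(21,0),(8,0),(0,0)]⟩⟩ ⟨false,1,⟨1,[(19,0),(17,1),(2,0)]⟩,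
  ⟨1,[(0,1),(38,0),(0,0)]⟩⟩ ⟨true,0,⟨3,[(11,1),(3,0),(5,1),(3,0),(11,0)]⟩,⟨2,[(8,0),(0,0),(7,0),(4,
  2)]⟩⟩,.o ⟨false,0,⟨1,[(4,0),(17,1),(1,0)]⟩,⟨7,[(19,0),(0,0),(0,3),(10,1),(6,3)]⟩⟩]⟩))) (.Q [0,0,0,
  0,0,0,0,0,-1,0,0,1] (.p true [0,0,0,1] [] (⟨0,[(20,0)]⟩,⟨1,[(19,0),(8,0),(0,0)]⟩) .k 0 (⟨0,[]⟩,⟨0,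
  []⟩) .k .k) (.Q [0,0,0,0,0,1,0,0,0,0,0,-1] (.p false [0,0,0,1] [] (⟨0,[(21,0)]⟩,⟨1,[(20,0),(8,0),
  (0,0)]⟩) .k 0 (⟨0,[]⟩,⟨0,[]⟩) .k .k) (.R ⟨0,false,false,false,[0,0,0,1],[1,0,-1],[0,1,0,-1,0,0,0,
  0,1],(⟨0,[(22,0)]⟩,⟨1,[(21,0),(8,0),(0,0)]⟩),(⟨0,[(30,0)]⟩,⟨0,[(31,0)]⟩),⟨0,[(0,0)]⟩,.k,.k,(.r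
  (-1) ⟨2,[(3,0),(2,0),(4,1),(1,0),(6,0),(1,0),(7,0),(0,0),(8,0)]⟩ ⟨1,[(12,0),(6,0),(15,0)]⟩),.k,.k,
  .k,⟨false,0,⟨2,[(3,0),(7,0),(0,0),(0,2),(6,0),(1,0),(13,0)]⟩,⟨1,[(1,1),(4,0),(2,0),(1,0),(9,0),
  (13,1)]⟩⟩,⟨true,0,⟨0,[(17,0),(4,0)]⟩,⟨1,[(21,0),(5,1),(2,0),(0,0)]⟩⟩,⟨true,0,⟨0,[(37,0)]⟩,⟨2,[(8,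
  0),(0,0),(7,0)]⟩⟩,⟨false,1,⟨0,[(2,0),(8,0),(28,0)]⟩,⟨0,[(3,0)]⟩⟩,⟨false,0,⟨0,[]⟩,⟨0,[]⟩⟩,⟨false,0,
  ⟨0,[]⟩,⟨0,[]⟩⟩,[.o ⟨false,1,⟨4,[(7,0),(1,1),(7,0),(5,1),(4,1),(3,0)]⟩,⟨0,[(16,0)]⟩⟩,.o ⟨false,1,
  ⟨0,[(23,0),(16,0)]⟩,⟨0,[(25,0)]⟩⟩,.a ⟨true,0,⟨1,[(21,0),(8,0),(0,0)]⟩,⟨0,[(22,0)]⟩⟩ ⟨true,0,⟨0,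
  [(3,0),(7,0),(10,0)]⟩,⟨1,[(1,1),(4,0),(5,0),(4,0),(3,0),(13,0)]⟩⟩ ⟨false,1,⟨0,[(22,0),(0,0),(16,
  0)]⟩,⟨1,[(18,0),(2,0)]⟩⟩,.o ⟨false,0,⟨1,[(21,0),(2,0),(2,0)]⟩,⟨1,[(22,1),(9,0),(6,0)]⟩⟩]⟩) (.I [0,
  0,-1,-1,1,0,0,-1,-1] (.R ⟨1,false,false,false,[1,0,0,-1],[1,-1],[0,0,0,0,0,0,0,0,-1],(⟨1,[(22,0),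
  (8,0),(0,0)]⟩,⟨0,[(23,0)]⟩),(⟨0,[(34,0)]⟩,⟨0,[(35,0)]⟩),⟨0,[(1,0),(20,0)]⟩,.k,.k,(.r (-1) ⟨4,[(0,
  0),(7,0),(5,1),(5,1)]⟩ ⟨1,[(13,0),(7,0),(14,0)]⟩),(.r 0 ⟨1,[(13,0),(6,0),(15,0)]⟩ ⟨2,[(4,0),(2,0),
  (4,1),(1,0),(6,0),(1,0),(7,0),(0,0),(8,0)]⟩),.k,.k,⟨false,0,⟨1,[(2,1),(4,0),(5,0),(4,0),(3,0),(13,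
  0)]⟩,⟨2,[(4,0),(2,0),(4,1),(1,0),(6,0),(1,0),(7,0),(0,0),(8,0)]⟩⟩,⟨true,0,⟨1,[(22,0),(2,0),(2,
  0)]⟩,⟨0,[(23,0)]⟩⟩,⟨false,1,⟨3,[(20,0),(0,0),(19,1)]⟩,⟨0,[]⟩⟩,⟨false,1,⟨0,[(4,0),(7,0),(28,0)]⟩,
  ⟨0,[(3,0)]⟩⟩,⟨true,0,⟨0,[(39,0)]⟩,⟨0,[(38,0)]⟩⟩,⟨false,1,⟨0,[(4,0),(19,0),(16,0)]⟩,⟨0,[(2,0)]⟩⟩,
  [.o ⟨false,1,⟨5,[(8,1),(7,1),(8,1),(2,0),(0,0),(3,1)]⟩,⟨0,[(39,0)]⟩⟩,.o ⟨false,1,⟨3,[(12,1),(3,1),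
  (16,0),(7,2)]⟩,⟨7,[(9,3),(10,0),(0,0),(5,3),(5,1)]⟩⟩,.a ⟨true,0,⟨0,[(23,0)]⟩,⟨1,[(22,0),(8,0),(0,
  0)]⟩⟩ ⟨true,0,⟨0,[(0,0),(12,0),(0,0),(21,0)]⟩,⟨2,[(4,0),(7,0),(0,0),(7,0),(1,0),(13,0)]⟩⟩ ⟨false,
  1,⟨9,[(8,1),(3,1),(3,3),(5,4),(2,2),(2,0),(12,5)]⟩,⟨2,[(9,0),(0,0),(7,0),(4,2)]⟩⟩,.o ⟨false,0,⟨1,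
  [(5,0),(17,1),(1,0)]⟩,⟨7,[(20,0),(0,0),(0,3),(10,1),(6,3)]⟩⟩]⟩) (.R ⟨1,false,false,false,[1,0,0,
  -1],[1,-1],[1,1,0,-1,0,0,0,0,-1],(⟨1,[(22,0),(8,0),(0,0)]⟩,⟨0,[(23,0)]⟩),(⟨0,[(34,0)]⟩,⟨0,[(35,
  0)]⟩),⟨0,[(1,0),(20,0)]⟩,.k,.k,(.r (-1) ⟨53,[(2,15),(2,1),(1,3),(0,13),(3,5),(1,19),(5,18),(1,7),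
  (18,2)]⟩ ⟨1,[(13,0),(7,0),(14,0)]⟩),(.r 0 ⟨1,[(13,0),(6,0),(15,0)]⟩ ⟨0,[(0,0),(7,0)]⟩),.k,.k,
  ⟨false,0,⟨7,[(2,1),(9,0),(0,2),(2,0),(3,2),(1,0),(14,2),(0,0)]⟩,⟨0,[(0,0),(6,0),(4,0),(18,0),(0,
  0),(8,0)]⟩⟩,⟨true,0,⟨1,[(22,0),(2,0),(2,0)]⟩,⟨0,[(23,0)]⟩⟩,⟨true,0,⟨0,[(38,0)]⟩,⟨0,[(39,0)]⟩⟩,
  ⟨false,1,⟨0,[(4,0),(7,0),(28,0)]⟩,⟨0,[(3,0)]⟩⟩,⟨false,0,⟨0,[]⟩,⟨3,[(20,0),(0,0),(19,1)]⟩⟩,⟨false,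
  1,⟨11,[(0,1),(4,1),(1,1),(4,1),(5,1),(2,4),(0,5),(18,6)]⟩,⟨0,[(2,0)]⟩⟩,[.o ⟨false,1,⟨5,[(8,1),(7,
  1),(8,1),(2,0),(0,0),(3,1)]⟩,⟨0,[(39,0)]⟩⟩,.o ⟨false,1,⟨3,[(12,1),(3,1),(16,0),(7,2)]⟩,⟨7,[(9,3),
  (10,0),(0,0),(5,3),(5,1)]⟩⟩,.a ⟨true,0,⟨0,[(23,0)]⟩,⟨1,[(22,0),(8,0),(0,0)]⟩⟩ ⟨true,0,⟨7,[(2,5),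
  (9,2),(0,0),(2,2),(3,0),(1,2),(14,0),(0,2)]⟩,⟨1,[(0,1),(6,0),(2,0),(1,0),(18,0),(0,0)]⟩⟩ ⟨false,1,
  ⟨9,[(8,1),(3,1),(3,3),(5,4),(2,2),(2,0),(12,5)]⟩,⟨7,[(0,1),(2,1),(5,0),(0,1),(12,5),(0,0),(15,
  0)]⟩⟩,.o ⟨false,0,⟨1,[(5,0),(17,1),(1,0)]⟩,⟨7,[(20,0),(0,0),(0,3),(10,1),(6,3)]⟩⟩]⟩))) (.R ⟨2,
  true,false,false,[0,1],[0,0,0,1],[1,1,1],(⟨0,[]⟩,⟨0,[]⟩),(⟨0,[(21,0)]⟩,⟨1,[(20,0),(8,0),(0,0)]⟩),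
  ⟨0,[]⟩,.k,.k,.k,(.r 0 ⟨1,[(11,0),(6,0),(15,0)]⟩ ⟨2,[(0,0),(5,0),(5,0),(6,0),(1,0)]⟩),.k,.k,⟨false,
  0,⟨3,[(1,1),(8,0),(0,0),(2,0),(3,0),(1,0),(14,0),(0,0)]⟩,⟨1,[(0,1),(20,1),(16,0),(0,0)]⟩⟩,⟨true,0,
  ⟨1,[(20,0),(2,0),(2,0)]⟩,⟨0,[(21,0)]⟩⟩,⟨true,0,⟨0,[(36,0)]⟩,⟨0,[(37,0)]⟩⟩,⟨false,1,⟨0,[(0,0),(35,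
  0),(2,0)]⟩,⟨0,[(1,0)]⟩⟩,⟨false,0,⟨0,[]⟩,⟨3,[(18,0),(0,0),(19,1)]⟩⟩,⟨true,0,⟨0,[(0,0)]⟩,⟨0,[(1,0),
  (34,0)]⟩⟩,[]⟩))))) (.Q [0,-1,0,0,0,0,2,2,0,1,-2] (.p false [0,0,1] [1,0,-1] (⟨0,[(26,0)]⟩,⟨0,[(25,
  0)]⟩) .k 2 (⟨0,[(25,0)]⟩,⟨0,[(26,0)]⟩) .k (.r 1 ⟨0,[(7,0),(0,1),(21,0)]⟩ ⟨4,[(2,1),(1,3),(9,0),(0,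
  0),(5,3),(0,3)]⟩)) (.Q [0,-1,0,1,1,0,-2,-2,0,-1,2] (.p true [0,0,1] [1,0,-1] (⟨0,[(27,0)]⟩,⟨0,
  [(26,0)]⟩) .k 2 (⟨0,[(26,0)]⟩,⟨0,[(27,0)]⟩) .k (.r 1 ⟨0,[(8,0),(0,1),(21,0)]⟩ ⟨4,[(3,1),(1,3),(9,
  0),(0,0),(5,3),(0,3)]⟩)) (.Q [0,0,0,2,0,0,-1,-1,0,0,1] (.p true [0,0,1] [] (⟨0,[(28,0)]⟩,⟨0,[(27,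
  0)]⟩) .k 0 (⟨0,[]⟩,⟨0,[]⟩) .k .k) (.R ⟨1,true,false,true,[0,0,1],[1,0,-1],[0,1,0,0,0,0,0,1],(⟨0,
  [(29,0)]⟩,⟨0,[(28,0)]⟩),(⟨0,[(28,0)]⟩,⟨0,[(29,0)]⟩),⟨0,[(3,0)]⟩,.k,.k,.k,.k,(.r 0 ⟨0,[(11,0),(15,
  0)]⟩ ⟨0,[(7,0),(16,0),(0,0)]⟩),.k,⟨true,(-1),⟨0,[(10,0),(0,1),(21,0)]⟩,⟨0,[(7,0),(1,0),(15,0),(2,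
  0),(0,0)]⟩⟩,⟨false,0,⟨0,[(1,0),(8,0),(0,1)]⟩,⟨13,[(2,1),(2,7),(0,5),(0,3),(8,0),(8,15),(2,4),(0,
  4)]⟩⟩,⟨true,0,⟨0,[(40,0)]⟩,⟨0,[]⟩⟩,⟨false,1,⟨15,[(1,9),(3,1),(3,5),(7,0),(0,0),(5,3),(0,0),(0,
  2)]⟩,⟨0,[(2,0)]⟩⟩,⟨false,0,⟨0,[(36,0)]⟩,⟨0,[(35,0),(2,0)]⟩⟩,⟨true,0,⟨0,[(0,0),(8,0)]⟩,⟨0,[(2,0),
  (32,0)]⟩⟩,[]⟩) (.R ⟨1,true,false,false,[0,0,1],[1,0,-1],[0,0,0,0,0,0,0,1],(⟨0,[(29,0)]⟩,⟨0,[(28,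
  0)]⟩),(⟨0,[(28,0)]⟩,⟨0,[(29,0)]⟩),⟨0,[(3,0)]⟩,.k,.k,.k,.k,(.r 0 ⟨0,[(11,0),(15,0)]⟩ ⟨0,[(7,0),(16,
  0),(0,0)]⟩),.k,⟨true,(-1),⟨0,[(10,0),(0,1),(21,0)]⟩,⟨0,[(7,0),(1,0),(15,0),(2,0),(0,0)]⟩⟩,⟨false,
  0,⟨0,[(1,0),(8,0),(0,1)]⟩,⟨13,[(2,1),(2,7),(0,5),(0,3),(8,0),(8,15),(2,4),(0,4)]⟩⟩,⟨false,1,⟨3,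
  [(17,0),(0,0),(19,1)]⟩,⟨0,[]⟩⟩,⟨true,1,⟨15,[(1,9),(3,1),(3,5),(7,0),(0,0),(5,3),(0,0),(0,2)]⟩,⟨0,
  [(0,0),(5,0)]⟩⟩,⟨true,0,⟨0,[(36,0)]⟩,⟨0,[(35,0)]⟩⟩,⟨false,1,⟨0,[(1,0)]⟩,⟨3,[(0,1),(15,2),(11,0),
  (0,0)]⟩⟩,[]⟩)) (.Q [0,0,-1,0,0,0,-2,0,0,-1,2] (.p true [0,0,1] [1,0,-1] (⟨0,[(28,0)]⟩,⟨0,[(27,
  0)]⟩) .k 2 (⟨0,[(27,0)]⟩,⟨0,[(28,0)]⟩) .k (.r 1 ⟨0,[(9,0),(0,1),(21,0)]⟩ ⟨4,[(4,1),(1,3),(9,0),(0,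
  0),(5,3),(0,3)]⟩)) (.Q [0,-1,0,2,1,0,-2,-2,0,-1,2] (.p true [0,0,1] [1,0,-1] (⟨0,[(29,0)]⟩,⟨0,
  [(28,0)]⟩) .k 2 (⟨0,[(28,0)]⟩,⟨0,[(29,0)]⟩) .k (.r 1 ⟨0,[(0,0),(0,0),(31,0)]⟩ ⟨4,[(5,1),(1,3),(9,
  0),(0,0),(5,3),(0,3)]⟩)) (.R ⟨1,true,false,false,[0,0,1],[1,1,-1],[0,0,0,0,0,0,0,1],(⟨0,[(30,0)]⟩,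
  ⟨0,[(29,0)]⟩),(⟨0,[(29,0),(3,0)]⟩,⟨0,[(4,0)]⟩),⟨0,[(4,0)]⟩,.k,.k,.k,(.r 0 ⟨0,[(12,0),(15,0)]⟩ ⟨0,
  [(8,0),(16,0),(0,0)]⟩),(.r 0 ⟨0,[(12,1)]⟩ ⟨5,[(8,7),(2,3),(6,0),(0,0),(5,3),(0,5),(0,1)]⟩),.k,
  ⟨false,0,⟨6,[(1,2),(1,0),(1,0),(1,0),(4,8),(4,0)]⟩,⟨0,[(8,0),(16,0),(0,0)]⟩⟩,⟨true,0,⟨0,[(1,0)]⟩,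
  ⟨0,[(26,1),(2,0),(0,0)]⟩⟩,⟨false,1,⟨3,[(18,0),(0,0),(19,1)]⟩,⟨0,[]⟩⟩,⟨true,1,⟨5,[(0,3),(9,1),(7,
  0),(0,0),(5,1)]⟩,⟨0,[(2,0)]⟩⟩,⟨true,0,⟨0,[(37,0)]⟩,⟨0,[(36,0)]⟩⟩,⟨false,1,⟨0,[(0,0)]⟩,⟨0,[(2,0),
  (33,0),(2,0)]⟩⟩,[]⟩) (.Q [0,0,0,-2,0,0,0,0,-1,-1,0,1] (.p true [0,0,0,1] [1] (⟨0,[(21,0)]⟩,⟨1,
  [(20,0),(8,0),(0,0)]⟩) .k 1 (⟨0,[]⟩,⟨0,[]⟩) .k .k) (.R ⟨1,false,false,false,[1,0,0,-1],[0,1],[1,1,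
  0,-1,0,0,0,0,-1],(⟨1,[(21,0),(8,0),(0,0)]⟩,⟨0,[(22,0)]⟩),(⟨0,[(34,0)]⟩,⟨0,[(33,0)]⟩),⟨1,[(5,0),(4,
  0),(10,0)]⟩,.k,.k,(.r (-1) ⟨9,[(0,1),(6,1),(5,1),(5,3),(1,0),(8,0),(0,0),(7,1)]⟩ ⟨1,[(12,0),(7,0),
  (14,0)]⟩),(.r (-1) ⟨9,[(0,1),(6,1),(5,1),(5,3),(1,0),(8,0),(0,0),(7,1)]⟩ ⟨1,[(12,0),(7,0),(14,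
  0)]⟩),(.r (-1) ⟨1,[(0,1),(20,0),(8,0),(0,0),(7,1)]⟩ ⟨3,[(12,3),(6,0),(0,2),(14,3)]⟩),.k,⟨true,0,
  ⟨1,[(0,1),(20,0),(8,0),(0,0),(4,1)]⟩,⟨1,[(12,0),(7,0),(14,2)]⟩⟩,⟨false,1,⟨1,[(21,0),(8,0),(0,0),
  (7,1)]⟩,⟨3,[(0,1),(11,1),(7,0),(1,1),(9,0),(2,1)]⟩⟩,⟨true,0,⟨0,[(37,0)]⟩,⟨0,[(38,0)]⟩⟩,⟨false,1,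
  ⟨17,[(2,1),(5,5),(0,5),(10,8),(0,8),(6,1),(1,4),(0,4),(8,8)]⟩,⟨13,[(0,13),(1,1),(5,3),(0,3),(2,0),
  (19,0),(2,0)]⟩⟩,⟨false,0,⟨0,[]⟩,⟨3,[(19,0),(0,0),(19,1)]⟩⟩,⟨false,1,⟨17,[(2,3),(5,11),(0,11),(10,
  8),(0,8),(6,3),(1,0),(0,0),(8,8)]⟩,⟨0,[(0,0)]⟩⟩,[.o ⟨false,0,⟨0,[(38,0)]⟩,⟨25,[(0,3),(6,5),(7,5),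
  (4,1),(0,1),(5,2),(0,8),(3,11)]⟩⟩,.o ⟨false,1,⟨27,[(2,3),(5,7),(0,7),(9,6),(0,6),(11,1),(2,3),(4,
  11)]⟩,⟨2,[(1,0),(9,0),(11,0),(8,0)]⟩⟩,.a ⟨true,0,⟨0,[(22,0)]⟩,⟨1,[(21,0),(8,0),(0,0)]⟩⟩ ⟨false,0,
  ⟨19,[(0,17),(1,1),(5,4),(0,3),(9,0),(1,8),(4,0),(3,5),(0,5),(3,1)]⟩,⟨13,[(2,1),(5,3),(0,3),(10,6),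
  (11,0),(2,1),(4,5)]⟩⟩ ⟨true,0,⟨17,[(2,1),(5,5),(0,5),(11,8),(6,1),(1,4),(0,4)]⟩,⟨5,[(0,1),(2,1),
  (16,0),(1,3),(0,3),(8,0)]⟩⟩,.o ⟨false,0,⟨3,[(0,1),(11,1),(7,0),(1,1),(9,0),(2,1)]⟩,⟨7,[(19,0),(0,
  0),(0,3),(10,1),(6,3)]⟩⟩]⟩) (.I [0,0,1,1,-1,0,0,0,1] (.R ⟨1,false,false,true,[1,0,0,-1],[1,0,-1],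
  [0,0,0,0,0,0,0,0,-1],(⟨1,[(22,0),(8,0),(0,0)]⟩,⟨0,[(23,0)]⟩),(⟨0,[(31,0)]⟩,⟨0,[(32,0)]⟩),⟨1,[(6,
  0),(4,0),(10,0)]⟩,.k,.k,(.r (-2) ⟨11,[(8,3),(5,3),(5,10),(0,4)]⟩ ⟨0,[(0,0)]⟩),.k,(.r (-1) ⟨3,[(14,
  3),(5,2),(0,0)]⟩ ⟨8,[(0,6),(7,0),(1,3),(10,0),(5,3),(0,3)]⟩),.k,⟨false,1,⟨3,[(3,1),(1,1),(14,1),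
  (19,0),(0,0)]⟩,⟨0,[(0,0),(7,0),(4,0)]⟩⟩,⟨true,0,⟨5,[(3,1),(18,2),(2,0),(3,0)]⟩,⟨0,[(23,0),(4,
  0)]⟩⟩,⟨false,1,⟨3,[(20,0),(0,0),(19,1)]⟩,⟨0,[]⟩⟩,⟨false,0,⟨7,[(0,7),(2,1),(3,0),(0,1),(1,0),(1,4),
  (9,3),(8,2),(0,2),(8,1)]⟩,⟨3,[(5,1),(14,1),(2,3),(9,0),(7,0)]⟩⟩,⟨true,0,⟨0,[(39,0)]⟩,⟨0,[(38,
  0)]⟩⟩,⟨false,0,⟨41,[(0,37),(0,3),(1,13),(3,1),(0,9),(1,15),(11,18),(1,8),(2,6)]⟩,⟨1,[(16,1),(3,0),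
  (2,1),(17,0)]⟩⟩,[.o ⟨false,0,⟨0,[(24,0)]⟩,⟨7,[(19,3),(0,0),(0,0),(11,1),(7,3)]⟩⟩,.o ⟨false,1,⟨14,
  [(3,0),(4,2),(1,5),(13,5),(0,1),(3,4),(3,2)]⟩,⟨0,[(17,0)]⟩⟩,.a ⟨true,0,⟨0,[(23,0)]⟩,⟨1,[(22,0),(8,
  0),(0,0)]⟩⟩ ⟨false,1,⟨1,[(20,0),(20,0)]⟩,⟨4,[(0,2),(7,0),(5,0),(6,0)]⟩⟩ ⟨true,0,⟨1,[(22,0),(1,0),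
  (2,0)]⟩,⟨10,[(4,1),(0,2),(3,0),(13,10),(9,2)]⟩⟩,.o ⟨false,0,⟨0,[(18,0),(4,0),(4,0)]⟩,⟨7,[(20,0),
  (0,0),(0,3),(10,1),(6,3)]⟩⟩]⟩) (.I [0,0,1,1,0,0,0,-1,1] (.I [0,0,-1,-1,1,0,0,0,-1] (.Q [0,0,0,-1,
  0,0,0,0,1,0,0,-1] (.p false [0,0,0,1] [] (⟨0,[(25,0)]⟩,⟨1,[(24,0),(8,0),(0,0)]⟩) .k 0 (⟨0,[]⟩,⟨0,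
  []⟩) .k .k) (.R ⟨1,false,false,false,[1,0,0,-1],[1,-1],[0,1,0,0,0,0,0,0,-1],(⟨1,[(25,0),(8,0),(0,
  0)]⟩,⟨0,[(26,0)]⟩),(⟨0,[(37,0)]⟩,⟨0,[(38,0)]⟩),⟨1,[(9,0),(4,0),(10,0)]⟩,.k,.k,(.r (-1) ⟨0,[(1,
  0)]⟩ ⟨1,[(16,0),(7,0),(14,0)]⟩),(.r 0 ⟨1,[(16,0),(6,0),(15,0)]⟩ ⟨7,[(0,1),(10,1),(5,1),(6,2),(1,
  1),(16,0)]⟩),.k,.k,⟨false,0,⟨1,[(12,0),(10,0),(3,0)]⟩,⟨1,[(0,1),(25,1),(16,0),(0,0)]⟩⟩,⟨true,0,⟨1,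
  [(25,0),(2,0),(2,0)]⟩,⟨0,[(26,0)]⟩⟩,⟨true,0,⟨0,[(46,0)]⟩,⟨0,[]⟩⟩,⟨true,0,⟨0,[(0,0)]⟩,⟨1,[(12,0),
  (10,0),(2,1),(0,0)]⟩⟩,⟨false,0,⟨0,[(42,0)]⟩,⟨21,[(5,3),(5,5),(3,1),(12,1),(2,2),(0,6),(11,13)]⟩⟩,
  ⟨true,0,⟨21,[(0,17),(3,3),(1,1),(3,3),(5,4),(19,0),(2,4)]⟩,⟨0,[(1,0),(14,0),(9,0)]⟩⟩,[.o ⟨false,1,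
  ⟨5,[(11,1),(7,1),(8,1),(2,0),(0,0),(3,1)]⟩,⟨0,[(42,0)]⟩⟩,.o ⟨false,1,⟨3,[(15,1),(3,1),(16,0),(7,
  2)]⟩,⟨7,[(12,3),(10,0),(0,0),(5,3),(5,1)]⟩⟩,.a ⟨true,0,⟨0,[(26,0)]⟩,⟨1,[(25,0),(8,0),(0,0)]⟩⟩
  ⟨true,0,⟨0,[(1,0),(14,0)]⟩,⟨24,[(0,12),(1,9),(3,5),(0,0),(0,2),(1,1),(1,1),(11,0),(1,12)]⟩⟩
  ⟨false,1,⟨1,[(0,1),(22,0),(20,0)]⟩,⟨13,[(6,1),(5,3),(0,3),(2,0),(9,13),(9,0),(2,0)]⟩⟩,.o ⟨false,0,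
  ⟨0,[(21,0),(4,0),(4,0)]⟩,⟨13,[(1,3),(2,1),(19,0),(0,5),(10,3),(6,4)]⟩⟩]⟩) (.R ⟨2,true,false,false,
  [0,1],[0,0,0,1],[0,1,1,1],(⟨0,[]⟩,⟨0,[]⟩),(⟨0,[(26,0)]⟩,⟨1,[(25,0),(8,0),(0,0)]⟩),⟨0,[]⟩,.k,.k,.k,
  (.r 0 ⟨1,[(16,0),(6,0),(15,0)]⟩ ⟨2,[(2,0),(8,0),(5,1),(6,0)]⟩),.k,.k,⟨false,0,⟨1,[(12,0),(10,0),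
  (3,0)]⟩,⟨14,[(2,14),(2,10),(0,11),(3,7),(0,0),(3,5),(18,6),(0,6),(8,15)]⟩⟩,⟨true,0,⟨1,[(25,0),(2,
  0),(2,0)]⟩,⟨0,[(26,0)]⟩⟩,⟨true,0,⟨0,[(46,0)]⟩,⟨0,[]⟩⟩,⟨false,1,⟨3,[(2,1),(12,1),(1,1),(1,1),(4,0),
  (0,1),(18,2)]⟩,⟨0,[(0,0)]⟩⟩,⟨false,0,⟨0,[(42,0)]⟩,⟨21,[(5,3),(5,5),(3,1),(12,1),(2,2),(0,6),(11,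
  13)]⟩⟩,⟨true,0,⟨5,[(2,5),(2,3),(0,3),(3,2),(4,1),(5,0),(3,2),(13,3),(4,0)]⟩,⟨0,[(0,0),(40,0)]⟩⟩,
  []⟩)) (.R ⟨1,false,false,false,[1,0,0,-1],[1,-1],[0,1,0,0,0,0,0,0,-1],(⟨1,[(24,0),(8,0),(0,0)]⟩,
  ⟨0,[(25,0)]⟩),(⟨0,[(36,0)]⟩,⟨0,[(37,0)]⟩),⟨1,[(8,0),(4,0),(10,0)]⟩,.k,.k,(.x 0 ⟨1,[(8,0),(4,0),
  (13,0),(2,0)]⟩ ⟨3,[(22,0),(0,0),(13,3),(4,1)]⟩),(.r 0 ⟨1,[(15,0),(6,0),(15,0)]⟩ ⟨4,[(0,0),(9,1),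
  (5,1),(6,1)]⟩),.k,.k,⟨false,0,⟨1,[(11,0),(10,0),(3,0)]⟩,⟨9,[(0,7),(9,5),(5,5),(6,0),(19,4)]⟩⟩,
  ⟨true,0,⟨1,[(24,0),(2,0),(2,0)]⟩,⟨0,[(25,0)]⟩⟩,⟨true,0,⟨0,[(45,0)]⟩,⟨0,[]⟩⟩,⟨true,0,⟨19,[(0,17),
  (9,5),(3,9),(1,5),(1,9),(4,0),(0,9),(18,4)]⟩,⟨1,[(11,0),(10,0),(2,1),(0,0)]⟩⟩,⟨false,0,⟨0,[(41,
  0)]⟩,⟨21,[(4,3),(5,5),(3,1),(12,1),(2,2),(0,6),(11,13)]⟩⟩,⟨true,0,⟨19,[(0,17),(9,5),(5,5),(6,0),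
  (0,9),(10,4)]⟩,⟨0,[(2,0),(12,0),(9,0)]⟩⟩,[.o ⟨false,1,⟨5,[(10,1),(7,1),(8,1),(2,0),(0,0),(3,1)]⟩,
  ⟨0,[(41,0)]⟩⟩,.o ⟨false,1,⟨3,[(14,1),(3,1),(16,0),(7,2)]⟩,⟨7,[(11,3),(10,0),(0,0),(5,3),(5,1)]⟩⟩,
  .a ⟨true,0,⟨0,[(25,0)]⟩,⟨1,[(24,0),(8,0),(0,0)]⟩⟩ ⟨true,0,⟨0,[(2,0),(12,0)]⟩,⟨4,[(0,2),(9,0),(5,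
  0),(6,0)]⟩⟩ ⟨false,1,⟨9,[(10,1),(3,1),(3,3),(5,4),(2,2),(2,0),(12,5)]⟩,⟨13,[(5,1),(5,3),(0,3),(2,
  0),(9,13),(9,0),(2,0)]⟩⟩,.o ⟨false,0,⟨0,[(20,0),(4,0),(4,0)]⟩,⟨7,[(22,0),(0,0),(0,3),(10,1),(6,
  3)]⟩⟩]⟩)) (.Q [0,0,0,0,0,0,0,0,-1,-1,0,1] (.p true [0,0,0,1] [1] (⟨0,[(24,0)]⟩,⟨1,[(23,0),(8,0),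
  (0,0)]⟩) .k 1 (⟨0,[]⟩,⟨0,[]⟩) .k .k) (.R ⟨1,false,false,false,[1,0,0,-1],[1,-1],[0,0,0,0,0,0,0,0,
  -1],(⟨1,[(24,0),(8,0),(0,0)]⟩,⟨0,[(25,0)]⟩),(⟨0,[(36,0)]⟩,⟨0,[(37,0)]⟩),⟨1,[(8,0),(4,0),(10,0)]⟩,
  .k,.k,(.r (-1) ⟨2,[(1,0),(8,0),(11,0)]⟩ ⟨1,[(15,0),(7,0),(14,0)]⟩),(.r 0 ⟨1,[(15,0),(6,0),(15,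
  0)]⟩ ⟨23,[(3,9),(0,5),(4,3),(0,3),(3,15),(1,7),(6,6),(1,9),(17,10)]⟩),.k,.k,⟨false,0,⟨2,[(0,1),(0,
  0),(9,0),(0,0),(11,0),(4,0),(8,0)]⟩,⟨23,[(3,9),(0,5),(4,3),(0,3),(3,15),(1,7),(6,6),(1,9),(17,
  10)]⟩⟩,⟨true,0,⟨1,[(24,0),(2,0),(2,0)]⟩,⟨0,[(25,0)]⟩⟩,⟨false,1,⟨3,[(22,0),(0,0),(19,1)]⟩,⟨0,[]⟩⟩,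
  ⟨false,1,⟨11,[(3,9),(0,7),(4,0),(4,15),(5,2),(2,0),(0,0),(5,1),(12,17)]⟩,⟨15,[(0,13),(4,1),(5,4),
  (0,3),(9,0),(2,1),(3,0),(3,10),(0,10),(3,1)]⟩⟩,⟨true,0,⟨0,[(41,0)]⟩,⟨0,[(40,0)]⟩⟩,⟨false,1,⟨5,[(3,
  3),(0,1),(4,0),(4,3),(5,2),(2,0),(0,0),(5,1),(12,5)]⟩,⟨0,[(0,0),(32,0),(0,0)]⟩⟩,[.o ⟨false,1,⟨5,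
  [(10,1),(7,1),(8,1),(2,0),(0,0),(3,1)]⟩,⟨0,[(41,0)]⟩⟩,.o ⟨false,1,⟨3,[(14,1),(3,1),(16,0),(7,2)]⟩,
  ⟨7,[(11,3),(10,0),(0,0),(5,3),(5,1)]⟩⟩,.a ⟨true,0,⟨0,[(25,0)]⟩,⟨1,[(24,0),(8,0),(0,0)]⟩⟩ ⟨true,0,
  ⟨1,[(0,1),(23,0),(8,0),(0,0)]⟩,⟨6,[(3,0),(0,0),(9,1),(0,1),(7,2),(1,0),(13,1)]⟩⟩ ⟨false,1,⟨9,[(10,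
  1),(3,1),(3,3),(5,4),(2,2),(2,0),(12,5)]⟩,⟨1,[(0,0),(2,0),(21,1)]⟩⟩,.o ⟨false,0,⟨0,[(20,0),(4,0),
  (4,0)]⟩,⟨7,[(22,0),(0,0),(0,3),(10,1),(6,3)]⟩⟩]⟩) (.Q [0,0,0,0,0,0,0,0,1,0,0,-1] (.p false [0,0,0,
  1] [] (⟨0,[(25,0)]⟩,⟨1,[(24,0),(8,0),(0,0)]⟩) .k 0 (⟨0,[]⟩,⟨0,[]⟩) .k .k) (.R ⟨2,true,false,false,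
  [0,1],[0,0,0,1],[1,1,1],(⟨0,[]⟩,⟨0,[]⟩),(⟨0,[(26,0)]⟩,⟨1,[(25,0),(8,0),(0,0)]⟩),⟨0,[]⟩,.k,.k,.k,
  (.r 0 ⟨1,[(16,0),(6,0),(15,0)]⟩ ⟨2,[(0,0),(10,0),(5,0),(6,0),(1,0)]⟩),.k,.k,⟨false,0,⟨8,[(2,0),(2,
  0),(4,0),(4,0),(0,3),(6,3),(6,1),(9,0)]⟩,⟨9,[(0,5),(0,1),(4,1),(3,3),(13,0),(1,7),(17,4)]⟩⟩,⟨true,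
  0,⟨1,[(25,0),(2,0),(2,0)]⟩,⟨0,[(26,0)]⟩⟩,⟨true,0,⟨0,[(41,0)]⟩,⟨0,[(42,0)]⟩⟩,⟨false,1,⟨5,[(0,1),(4,
  0),(9,2),(3,0),(4,1),(0,1),(18,4)]⟩,⟨0,[(2,0),(10,0),(2,0),(9,0)]⟩⟩,⟨false,0,⟨0,[]⟩,⟨3,[(23,0),(0,
  0),(19,1)]⟩⟩,⟨true,0,⟨0,[(0,0)]⟩,⟨8,[(2,0),(2,0),(4,0),(4,0),(0,3),(6,3),(2,8),(3,1),(9,0)]⟩⟩,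
  []⟩) (.R ⟨2,false,false,false,[0,1],[0,0,0,1],[1,1,1],(⟨0,[]⟩,⟨0,[]⟩),(⟨0,[(26,0)]⟩,⟨1,[(0,0),(0,
  0),(23,0)]⟩),⟨0,[]⟩,.k,.k,.k,(.r 0 ⟨1,[(16,0),(6,0),(15,0)]⟩ ⟨47,[(1,9),(3,1),(4,7),(0,7),(3,11),
  (1,15),(6,18),(1,9),(17,6)]⟩),.k,.k,⟨false,0,⟨19,[(0,1),(4,1),(9,2),(0,6),(6,8),(1,0),(4,0),(9,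
  6)]⟩,⟨15,[(1,13),(3,5),(0,7),(3,15),(4,11),(8,0),(1,13),(12,23),(4,4)]⟩⟩,⟨true,0,⟨1,[(25,0),(2,0),
  (2,0)]⟩,⟨0,[(26,0)]⟩⟩,⟨true,0,⟨0,[(41,0)]⟩,⟨0,[(42,0)]⟩⟩,⟨false,1,⟨3,[(1,3),(13,1),(3,1),(16,0),
  (7,2)]⟩,⟨13,[(0,13),(5,1),(5,3),(0,3),(2,0),(19,0),(2,0)]⟩⟩,⟨false,0,⟨0,[]⟩,⟨3,[(23,0),(0,0),(19,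
  1)]⟩⟩,⟨false,1,⟨1,[(1,1),(34,0),(7,0)]⟩,⟨0,[(0,0)]⟩⟩,[.a ⟨true,0,⟨0,[(1,0)]⟩,⟨0,[(0,0)]⟩⟩ ⟨false,
  0,⟨0,[(46,0)]⟩,⟨1,[(43,0),(0,0)]⟩⟩ ⟨true,0,⟨0,[(1,0),(19,0),(9,0)]⟩,⟨0,[(0,0)]⟩⟩,.o ⟨false,1,⟨1,
  [(1,1),(34,0),(7,0)]⟩,⟨7,[(0,7),(6,1),(4,0),(14,4),(8,2)]⟩⟩,.o ⟨false,1,⟨3,[(23,0),(0,0),(18,1)]⟩,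
  ⟨0,[(21,0),(9,0)]⟩⟩,.e ⟨false,0,⟨0,[]⟩,⟨3,[(23,0),(0,0),(19,1)]⟩⟩ ⟨false,1,⟨1,[(1,1),(34,0),(7,
  0)]⟩,⟨0,[(0,0)]⟩⟩]⟩))))))) (.Q [0,0,0,-2,0,0,0,0,-1,-1,0,1] (.p true [0,0,0,1] [1] (⟨0,[(20,0)]⟩,
  ⟨1,[(19,0),(8,0),(0,0)]⟩) .k 1 (⟨0,[]⟩,⟨0,[]⟩) .k .k) (.R ⟨1,false,false,false,[1,0,0,-1],[0,1],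
  [1,1,0,-1,0,0,0,0,-1],(⟨1,[(20,0),(8,0),(0,0)]⟩,⟨0,[(21,0)]⟩),(⟨0,[(33,0)]⟩,⟨0,[(32,0)]⟩),⟨1,[(4,
  0),(4,0),(10,0)]⟩,.k,.k,(.r (-1) ⟨9,[(0,1),(5,1),(5,1),(5,3),(1,0),(8,0),(0,0),(7,1)]⟩ ⟨1,[(11,0),
  (7,0),(14,0)]⟩),(.r (-1) ⟨9,[(0,1),(5,1),(5,1),(5,3),(1,0),(8,0),(0,0),(7,1)]⟩ ⟨1,[(11,0),(7,0),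
  (14,0)]⟩),(.r (-1) ⟨1,[(0,1),(19,0),(8,0),(0,0),(7,1)]⟩ ⟨3,[(11,3),(6,0),(0,2),(14,3)]⟩),.k,⟨true,
  0,⟨1,[(0,1),(19,0),(8,0),(0,0),(4,1)]⟩,⟨1,[(11,0),(7,0),(14,2)]⟩⟩,⟨false,1,⟨1,[(20,0),(8,0),(0,0),
  (7,1)]⟩,⟨3,[(0,1),(10,1),(7,0),(1,1),(9,0),(2,1)]⟩⟩,⟨true,0,⟨0,[(36,0)]⟩,⟨0,[(37,0)]⟩⟩,⟨false,1,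
  ⟨1,[(7,0),(11,0),(0,0),(4,0),(13,1)]⟩,⟨2,[(0,2),(6,0),(0,0),(7,0)]⟩⟩,⟨false,0,⟨0,[]⟩,⟨3,[(18,0),
  (0,0),(19,1)]⟩⟩,⟨false,1,⟨5,[(7,4),(0,1),(7,1),(2,2),(0,2),(4,2),(13,5)]⟩,⟨0,[(0,0)]⟩⟩,[.o ⟨false,
  0,⟨0,[(37,0)]⟩,⟨5,[(6,1),(7,1),(8,1),(2,0),(0,0),(3,1)]⟩⟩,.o ⟨false,1,⟨11,[(7,3),(0,3),(7,3),(1,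
  2),(0,2),(19,5)]⟩,⟨2,[(2,0),(7,1),(20,0)]⟩⟩,.a ⟨true,0,⟨0,[(21,0)]⟩,⟨1,[(20,0),(8,0),(0,0)]⟩⟩
  ⟨false,0,⟨1,[(0,1),(6,0),(12,0),(4,0),(13,0)]⟩,⟨5,[(7,1),(0,1),(7,1),(2,2),(19,2)]⟩⟩ ⟨true,0,⟨1,
  [(7,0),(12,0),(4,0),(13,0)]⟩,⟨2,[(2,0),(7,1),(10,2),(9,0)]⟩⟩,.o ⟨false,0,⟨3,[(0,1),(10,1),(7,0),
  (1,1),(9,0),(2,1)]⟩,⟨7,[(18,0),(0,0),(0,3),(10,1),(6,3)]⟩⟩]⟩) (.Q [0,1,0,-1,0,0,-1,-1,1,0,1,-1]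
  (.p true [0,0,1] [0,0,0,1] (⟨0,[(30,0)]⟩,⟨0,[(29,0)]⟩) .k 2 (⟨0,[(21,0)]⟩,⟨1,[(20,0),(8,0),(0,
  0)]⟩) .k (.r 0 ⟨1,[(11,0),(0,1),(5,0),(15,0)]⟩ ⟨10,[(0,4),(0,3),(3,0),(0,0),(1,0),(1,8),(8,2),(1,
  4),(17,3)]⟩)) (.I [0,0,-1,-1,1,0,0,0,-1] (.Q [0,0,0,-1,0,0,0,0,1,0,0,-1] (.p false [0,0,0,1] []
  (⟨0,[(23,0)]⟩,⟨1,[(22,0),(8,0),(0,0)]⟩) .k 0 (⟨0,[]⟩,⟨0,[]⟩) .k .k) (.R ⟨1,false,false,false,[1,0,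
  0,-1],[1,-1],[0,1,0,0,0,0,0,0,-1],(⟨1,[(23,0),(8,0),(0,0)]⟩,⟨0,[(24,0)]⟩),(⟨0,[(35,0)]⟩,⟨0,[(36,
  0)]⟩),⟨1,[(7,0),(4,0),(10,0)]⟩,.k,.k,(.r (-1) ⟨0,[(1,0)]⟩ ⟨1,[(14,0),(7,0),(14,0)]⟩),(.r 0 ⟨1,
  [(14,0),(6,0),(15,0)]⟩ ⟨7,[(0,1),(8,1),(5,1),(6,2),(1,1),(16,0)]⟩),.k,.k,⟨false,0,⟨1,[(10,0),(10,
  0),(3,0)]⟩,⟨1,[(0,1),(23,1),(16,0),(0,0)]⟩⟩,⟨true,0,⟨1,[(23,0),(2,0),(2,0)]⟩,⟨0,[(24,0)]⟩⟩,⟨true,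
  0,⟨0,[(44,0)]⟩,⟨0,[]⟩⟩,⟨true,0,⟨0,[(0,0)]⟩,⟨1,[(10,0),(10,0),(2,1),(0,0)]⟩⟩,⟨false,0,⟨0,[(40,0)]⟩,
  ⟨12,[(4,0),(0,1),(3,2),(3,2),(3,1),(12,4),(11,8)]⟩⟩,⟨true,0,⟨4,[(0,3),(2,0),(4,0),(5,0),(4,0),(17,
  0)]⟩,⟨0,[(1,0),(12,0),(9,0)]⟩⟩,[.o ⟨false,1,⟨5,[(9,1),(7,1),(8,1),(2,0),(0,0),(3,1)]⟩,⟨0,[(40,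
  0)]⟩⟩,.o ⟨false,1,⟨3,[(13,1),(3,1),(16,0),(7,2)]⟩,⟨7,[(10,3),(10,0),(0,0),(5,3),(5,1)]⟩⟩,.a ⟨true,
  0,⟨0,[(24,0)]⟩,⟨1,[(23,0),(8,0),(0,0)]⟩⟩ ⟨true,0,⟨0,[(1,0),(12,0)]⟩,⟨4,[(0,3),(2,0),(4,0),(5,0),
  (4,0),(4,4),(12,0)]⟩⟩ ⟨false,1,⟨1,[(0,1),(20,0),(20,0)]⟩,⟨2,[(10,0),(0,0),(7,0),(4,2)]⟩⟩,.o
  ⟨false,0,⟨0,[(19,0),(4,0),(4,0)]⟩,⟨7,[(21,0),(0,0),(0,3),(10,1),(6,3)]⟩⟩]⟩) (.R ⟨1,false,false,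
  false,[1,0,0,-1],[0,-1,1],[1,0,0,-1,0,0,0,0,-1],(⟨1,[(23,0),(8,0),(0,0)]⟩,⟨0,[(24,0)]⟩),(⟨0,[(7,
  0)]⟩,⟨0,[(32,0),(3,0)]⟩),⟨1,[(7,0),(4,0),(10,0)]⟩,.k,.k,(.r (-1) ⟨0,[(1,0)]⟩ ⟨1,[(14,0),(7,0),(14,
  0)]⟩),(.x (-1) ⟨3,[(19,3),(1,0),(0,0),(9,3),(3,3),(4,1)]⟩ ⟨0,[(7,0),(21,0)]⟩),.k,.k,⟨false,1,⟨29,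
  [(0,11),(3,7),(4,3),(1,9),(1,13),(7,8),(1,5),(4,1),(13,2)]⟩,⟨0,[(2,0),(5,0),(5,0),(0,1),(8,0),(12,
  1)]⟩⟩,⟨true,0,⟨3,[(4,1),(18,1),(5,0),(0,0)]⟩,⟨0,[(19,0),(4,0)]⟩⟩,⟨false,1,⟨12,[(4,0),(0,1),(3,2),
  (3,2),(3,1),(12,4),(11,8)]⟩,⟨0,[(40,0)]⟩⟩,⟨true,0,⟨0,[(2,0),(3,0)]⟩,⟨0,[(0,0),(24,0)]⟩⟩,⟨true,0,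
  ⟨0,[]⟩,⟨0,[(44,0)]⟩⟩,⟨true,0,⟨10,[(2,6),(0,3),(1,0),(0,7),(27,0)]⟩,⟨0,[(0,0),(12,0)]⟩⟩,[.o ⟨false,
  0,⟨0,[(17,0)]⟩,⟨11,[(0,1),(2,1),(7,5),(7,5),(1,0),(0,0),(5,5),(5,3)]⟩⟩,.o ⟨false,1,⟨3,[(17,3),(3,
  0),(0,0),(19,1)]⟩,⟨2,[(10,0),(0,0),(7,0),(5,2)]⟩⟩,.a ⟨true,0,⟨0,[(24,0)]⟩,⟨1,[(23,0),(8,0),(0,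
  0)]⟩⟩ ⟨false,1,⟨3,[(0,1),(4,1),(7,3),(7,0),(1,0),(8,0),(0,0),(8,4)]⟩,⟨0,[(2,0),(5,0),(5,0),(0,0),
  (8,0),(12,1)]⟩⟩ ⟨true,0,⟨16,[(1,2),(0,2),(1,0),(0,8),(11,1),(5,6),(6,1),(11,5)]⟩,⟨2,[(10,0),(0,0),
  (7,0),(4,2),(0,2)]⟩⟩,.o ⟨false,0,⟨0,[(19,0),(4,0),(4,0)]⟩,⟨7,[(21,0),(0,0),(0,3),(10,1),(6,
  3)]⟩⟩]⟩)) (.R ⟨1,false,false,true,[1,0,0,-1],[0,1],[1,0,1],(⟨1,[(22,0),(8,0),(0,0)]⟩,⟨0,[(23,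
  0)]⟩),(⟨0,[(35,0)]⟩,⟨0,[(34,0)]⟩),⟨1,[(6,0),(4,0),(10,0)]⟩,.k,.k,(.x 0 ⟨1,[(6,0),(4,0),(13,0),(2,
  0)]⟩ ⟨3,[(20,0),(0,0),(13,3),(4,1)]⟩),(.x 0 ⟨1,[(6,0),(4,0),(13,0),(2,0)]⟩ ⟨3,[(20,0),(0,0),(13,
  3),(4,1)]⟩),(.r (-2) ⟨11,[(8,7),(5,7),(5,6),(0,0)]⟩ ⟨3,[(0,1),(12,2),(7,0),(14,2)]⟩),.k,⟨true,1,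
  ⟨12,[(3,0),(0,1),(3,2),(3,2),(3,1),(12,4),(11,8)]⟩,⟨0,[(13,0)]⟩⟩,⟨false,1,⟨1,[(22,0),(8,0),(0,0),
  (7,1)]⟩,⟨0,[(18,0),(4,0),(4,0)]⟩⟩,⟨false,0,⟨5,[(0,3),(0,1),(14,1),(6,1),(4,0),(0,0),(11,3)]⟩,⟨1,
  [(20,0),(19,0)]⟩⟩,⟨true,(-1),⟨1,[(0,1),(21,0),(8,0),(0,0),(4,1)]⟩,⟨3,[(12,1),(3,1),(3,1),(2,3),(9,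
  0),(7,0)]⟩⟩,⟨true,(-1),⟨0,[(0,0)]⟩,⟨3,[(8,0),(5,0),(5,1),(16,0),(0,0),(4,1)]⟩⟩,⟨true,(-1),⟨1,[(0,
  1),(8,0),(12,0),(4,0),(12,0)]⟩,⟨1,[(12,1),(3,1),(3,0),(2,1),(17,0)]⟩⟩,[.o ⟨false,0,⟨7,[(9,3),(10,
  0),(0,0),(5,3),(5,1)]⟩,⟨3,[(12,1),(3,1),(16,0),(7,2)]⟩⟩,.o ⟨false,0,⟨0,[(39,0)]⟩,⟨5,[(8,1),(7,1),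
  (8,1),(2,0),(0,0),(3,1)]⟩⟩,.a ⟨true,0,⟨0,[(23,0)]⟩,⟨1,[(22,0),(8,0),(0,0)]⟩⟩ ⟨true,0,⟨1,[(28,0),
  (0,0)]⟩,⟨0,[(37,0)]⟩⟩ ⟨false,0,⟨1,[(9,0),(12,0),(4,0),(13,0)]⟩,⟨3,[(12,1),(3,1),(6,3),(9,0),(7,
  2)]⟩⟩,.o ⟨false,0,⟨0,[(18,0),(4,0),(4,0)]⟩,⟨7,[(20,0),(0,0),(0,3),(10,1),(6,3)]⟩⟩]⟩)) (.R ⟨1,
  false,false,false,[1,0,0,-1],[1,-1],[0,0,0,0,0,0,0,0,-1],(⟨1,[(21,0),(8,0),(0,0)]⟩,⟨0,[(22,0)]⟩),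
  (⟨0,[(33,0)]⟩,⟨0,[(34,0)]⟩),⟨1,[(5,0),(4,0),(10,0)]⟩,.k,.k,(.r (-1) ⟨5,[(0,1),(6,1),(3,1),(1,1),
  (5,1),(1,0),(8,0),(0,0)]⟩ ⟨1,[(12,0),(7,0),(14,0)]⟩),(.r 0 ⟨1,[(12,0),(6,0),(15,0)]⟩ ⟨17,[(1,7),
  (0,5),(3,1),(0,1),(3,13),(1,15),(6,4),(1,7),(17,6)]⟩),.k,.k,⟨false,0,⟨1,[(0,1),(20,0),(1,0),(2,
  0)]⟩,⟨17,[(1,7),(0,5),(3,1),(0,1),(3,13),(1,15),(6,4),(1,7),(17,6)]⟩⟩,⟨true,0,⟨1,[(21,0),(2,0),(2,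
  0)]⟩,⟨0,[(22,0)]⟩⟩,⟨false,1,⟨3,[(19,0),(0,0),(19,1)]⟩,⟨0,[]⟩⟩,⟨false,1,⟨0,[(1,0),(1,0),(7,1),(28,
  1)]⟩,⟨0,[(0,0),(25,0)]⟩⟩,⟨true,0,⟨0,[(38,0)]⟩,⟨0,[(37,0)]⟩⟩,⟨false,1,⟨0,[(1,0),(9,0),(3,0),(24,
  0)]⟩,⟨0,[(0,0),(10,0),(18,0),(0,0)]⟩⟩,[.o ⟨false,1,⟨5,[(7,1),(7,1),(8,1),(2,0),(0,0),(3,1)]⟩,⟨0,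
  [(38,0)]⟩⟩,.o ⟨false,1,⟨3,[(11,1),(3,1),(16,0),(7,2)]⟩,⟨7,[(8,3),(10,0),(0,0),(5,3),(5,1)]⟩⟩,.a
  ⟨true,0,⟨0,[(22,0)]⟩,⟨1,[(21,0),(8,0),(0,0)]⟩⟩ ⟨true,0,⟨1,[(0,1),(10,1),(9,0),(8,0),(0,0)]⟩,⟨4,
  [(1,0),(1,0),(7,1),(0,0),(7,1),(1,0),(13,0)]⟩⟩ ⟨false,1,⟨9,[(7,1),(3,1),(3,3),(5,4),(2,2),(2,0),
  (12,5)]⟩,⟨2,[(0,0),(0,0),(20,2),(0,0)]⟩⟩,.o ⟨false,0,⟨0,[(17,0),(4,0),(4,0)]⟩,⟨7,[(19,0),(0,0),(0,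
  3),(10,1),(6,3)]⟩⟩]⟩))))) (.I [0,-1,2,2,0,0,0,-1] (.R ⟨1,true,false,false,[0,0,1],[0,1],[1,1,0,-1,
  0,0,0,1],(⟨0,[(28,0)]⟩,⟨0,[(27,0)]⟩),(⟨0,[(31,0)]⟩,⟨0,[(30,0)]⟩),⟨0,[(2,0)]⟩,.k,.k,.k,.k,(.r (-1)
  ⟨5,[(4,1),(5,7),(5,0),(0,0)]⟩ ⟨0,[(0,0),(38,0)]⟩),.k,⟨true,0,⟨0,[(10,0),(23,0)]⟩,⟨0,[(0,0)]⟩⟩,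
  ⟨false,1,⟨13,[(1,5),(3,3),(4,7),(14,5),(1,1),(0,1),(7,12),(0,4)]⟩,⟨0,[(24,0)]⟩⟩,⟨true,0,⟨0,[(34,
  0)]⟩,⟨0,[(35,0)]⟩⟩,⟨false,1,⟨5,[(1,1),(3,1),(0,1),(16,1),(1,1),(10,0),(0,4)]⟩,⟨0,[(12,0)]⟩⟩,
  ⟨false,0,⟨0,[]⟩,⟨3,[(16,0),(0,0),(19,1)]⟩⟩,⟨true,0,⟨0,[(1,0),(3,0),(31,0)]⟩,⟨0,[(12,0),(21,0)]⟩⟩,
  []⟩) (.Q [0,0,0,0,0,0,-1,-1,-1,-1,1,1] (.p true [0,0,1] [1,0,0,-1] (⟨0,[(28,0)]⟩,⟨0,[(27,0)]⟩) .k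
  2 (⟨1,[(18,0),(8,0),(0,0)]⟩,⟨0,[(19,0)]⟩) .k (.x (-1) ⟨2,[(3,0),(12,0),(0,0),(6,1),(3,2)]⟩ ⟨0,
  [(14,0),(12,0)]⟩)) (.R ⟨1,false,false,false,[1,0,0,-1],[0,-1,1],[0,1,0,0,0,0,0,0,-1],(⟨1,[(19,0),
  (8,0),(0,0)]⟩,⟨0,[(20,0)]⟩),(⟨0,[(3,0)]⟩,⟨0,[(28,0),(3,0)]⟩),⟨1,[(3,0),(4,0),(10,0)]⟩,.k,.k,(.r
  (-1) ⟨7,[(0,1),(0,1),(3,1),(10,0),(0,2),(1,0),(18,0)]⟩ ⟨1,[(10,0),(7,0),(14,0)]⟩),(.r 0 ⟨11,[(0,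
  9),(5,1),(0,3),(2,2),(6,0),(1,4),(5,7),(2,2),(0,2),(3,0)]⟩ ⟨3,[(11,3),(5,0),(0,2)]⟩),.k,.k,⟨false,
  0,⟨87,[(0,67),(1,28),(1,6),(0,20),(0,62),(0,3),(9,9),(1,33),(5,55)]⟩,⟨1,[(11,1),(6,0),(19,0)]⟩⟩,
  ⟨true,0,⟨1,[(19,0),(5,1),(2,0),(0,0)]⟩,⟨0,[(15,0),(4,0)]⟩⟩,⟨true,0,⟨0,[(40,0)]⟩,⟨0,[]⟩⟩,⟨false,1,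
  ⟨1,[(13,1),(4,0),(0,0),(8,0),(0,0),(8,0)]⟩,⟨2,[(0,2),(5,0),(0,0),(7,0)]⟩⟩,⟨false,0,⟨0,[(36,0)]⟩,
  ⟨0,[(35,0),(2,0)]⟩⟩,⟨false,1,⟨1,[(16,0),(1,0),(0,0),(18,0)]⟩,⟨0,[(0,0)]⟩⟩,[.o ⟨false,0,⟨0,[(13,
  0)]⟩,⟨35,[(2,11),(3,7),(0,19),(7,19),(1,8),(0,8),(11,5)]⟩⟩,.o ⟨false,1,⟨3,[(13,3),(3,0),(0,0),(19,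
  1)]⟩,⟨8,[(2,5),(3,3),(0,0),(7,0),(14,2)]⟩⟩,.a ⟨true,0,⟨0,[(20,0)]⟩,⟨1,[(19,0),(8,0),(0,0)]⟩⟩
  ⟨false,0,⟨1,[(0,1),(15,0),(2,0)]⟩,⟨1,[(18,0),(19,0)]⟩⟩ ⟨true,0,⟨1,[(13,1),(5,0),(8,0),(0,0)]⟩,⟨1,
  [(0,1),(5,0),(11,0),(2,0)]⟩⟩,.o ⟨false,0,⟨0,[(15,0),(4,0),(4,0)]⟩,⟨7,[(17,0),(0,0),(0,3),(10,1),
  (6,3)]⟩⟩]⟩) (.Q [0,0,0,0,0,0,-1,-1,1,0,1,-1] (.p true [0,0,1] [0,0,0,1] (⟨0,[(29,0)]⟩,⟨0,[(28,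
  0)]⟩) .k 2 (⟨0,[(20,0)]⟩,⟨1,[(19,0),(8,0),(0,0)]⟩) .k (.r 0 ⟨1,[(10,0),(0,1),(5,0),(15,0)]⟩ ⟨15,
  [(0,9),(1,9),(1,1),(0,1),(1,3),(10,2),(1,9),(4,7),(12,2)]⟩)) (.R ⟨1,false,false,true,[1,0,0,-1],
  [1,0,-1],[0,0,0,0,0,0,0,0,-1],(⟨1,[(20,0),(8,0),(0,0)]⟩,⟨0,[(21,0)]⟩),(⟨0,[(29,0)]⟩,⟨0,[(30,0)]⟩),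
  ⟨1,[(4,0),(4,0),(10,0)]⟩,.k,.k,(.x 0 ⟨1,[(4,0),(4,0),(13,0),(2,0)]⟩ ⟨3,[(18,0),(0,0),(13,3),(4,
  1)]⟩),.k,(.r (-1) ⟨3,[(12,3),(5,2),(0,0)]⟩ ⟨9,[(0,7),(4,1),(2,1),(2,4),(7,0),(1,7),(4,5),(7,2)]⟩),
  .k,⟨false,1,⟨5,[(7,1),(4,3),(3,1),(1,2),(19,0),(0,3)]⟩,⟨1,[(0,1),(4,0),(5,0),(9,1),(4,0),(9,0)]⟩⟩,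
  ⟨true,0,⟨7,[(3,1),(3,0),(4,2),(3,2),(3,3),(6,1),(6,0),(4,0)]⟩,⟨0,[(21,0),(4,0)]⟩⟩,⟨false,1,⟨3,
  [(18,0),(0,0),(19,1)]⟩,⟨0,[]⟩⟩,⟨false,0,⟨0,[(0,0)]⟩,⟨1,[(15,1),(2,0),(2,1),(17,0)]⟩⟩,⟨true,0,⟨0,
  [(37,0)]⟩,⟨0,[(36,0)]⟩⟩,⟨false,0,⟨2,[(0,2),(6,0),(0,0),(7,0)]⟩,⟨1,[(14,1),(3,0),(2,1),(17,0)]⟩⟩,
  [.o ⟨false,0,⟨0,[(22,0)]⟩,⟨7,[(17,3),(0,0),(0,0),(11,1),(7,3)]⟩⟩,.o ⟨false,1,⟨3,[(3,1),(14,0),(0,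
  0),(11,0),(7,0)]⟩,⟨0,[(15,0)]⟩⟩,.a ⟨true,0,⟨0,[(21,0)]⟩,⟨1,[(20,0),(8,0),(0,0)]⟩⟩ ⟨false,1,⟨1,
  [(18,0),(20,0)]⟩,⟨0,[(0,0),(14,0),(5,0)]⟩⟩ ⟨true,0,⟨1,[(3,0),(16,0),(20,0)]⟩,⟨0,[(15,0),(5,0)]⟩⟩,
  .o ⟨false,0,⟨0,[(16,0),(4,0),(4,0)]⟩,⟨7,[(18,0),(0,0),(0,3),(10,1),(6,3)]⟩⟩]⟩) (.Q [0,0,0,-1,0,0,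
  1,1,1,1,-1,-1] (.p false [0,0,1] [1,0,0,-1] (⟨0,[(30,0)]⟩,⟨0,[(29,0)]⟩) .k 2 (⟨1,[(20,0),(8,0),(0,
  0)]⟩,⟨0,[(21,0)]⟩) .k (.r 0 ⟨1,[(11,0),(0,1),(6,0),(14,0)]⟩ ⟨9,[(0,7),(2,5),(2,1),(1,3),(9,0),(1,
  3),(5,3),(2,1),(0,1),(8,0)]⟩)) (.R ⟨1,false,false,false,[1,0,0,-1],[0,-1,1],[1,0,0,-1,0,0,0,0,-1],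
  (⟨1,[(21,0),(8,0),(0,0)]⟩,⟨0,[(22,0)]⟩),(⟨0,[(5,0)]⟩,⟨0,[(30,0),(3,0)]⟩),⟨1,[(5,0),(4,0),(10,0)]⟩,
  .k,.k,(.r (-1) ⟨3,[(1,1),(1,0),(0,0),(2,0),(11,0),(1,0),(18,0)]⟩ ⟨1,[(12,0),(7,0),(14,0)]⟩),(.x
  (-1) ⟨3,[(17,3),(1,0),(0,0),(9,3),(3,3),(4,1)]⟩ ⟨0,[(5,0),(21,0)]⟩),.k,.k,⟨false,1,⟨9,[(1,7),(2,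
  5),(2,1),(1,3),(9,0),(1,3),(5,3),(2,1),(0,1),(8,0)]⟩,⟨0,[(0,0),(3,0),(1,0),(5,0),(0,1),(8,0),(12,
  1)]⟩⟩,⟨true,0,⟨1,[(21,0),(5,1),(2,0),(0,0)]⟩,⟨0,[(17,0),(4,0)]⟩⟩,⟨false,1,⟨0,[(37,0),(2,0)]⟩,⟨0,
  [(38,0)]⟩⟩,⟨true,0,⟨0,[(0,0)]⟩,⟨2,[(1,2),(2,2),(3,0),(0,0),(7,0)]⟩⟩,⟨true,0,⟨0,[]⟩,⟨0,[(42,0)]⟩⟩,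
  ⟨true,0,⟨0,[(2,0)]⟩,⟨0,[(1,0),(2,0)]⟩⟩,[.o ⟨false,0,⟨0,[(15,0)]⟩,⟨35,[(4,11),(3,7),(0,19),(7,19),
  (1,8),(0,8),(11,5)]⟩⟩,.o ⟨false,1,⟨3,[(15,3),(3,0),(0,0),(19,1)]⟩,⟨8,[(4,5),(3,3),(0,0),(7,0),(14,
  2)]⟩⟩,.a ⟨true,0,⟨0,[(22,0)]⟩,⟨1,[(21,0),(8,0),(0,0)]⟩⟩ ⟨false,1,⟨1,[(1,1),(9,1),(9,0),(8,0),(0,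
  0),(8,1)]⟩,⟨0,[(0,0),(3,0),(1,0),(5,0),(0,0),(8,0),(12,1)]⟩⟩ ⟨true,0,⟨1,[(15,1),(5,0),(8,0),(0,
  0)]⟩,⟨8,[(4,5),(3,3),(0,0),(7,0),(4,8),(9,2)]⟩⟩,.o ⟨false,0,⟨0,[(17,0),(4,0),(4,0)]⟩,⟨7,[(19,0),
  (0,0),(0,3),(10,1),(6,3)]⟩⟩]⟩) (.R ⟨1,true,false,false,[0,0,1],[1,0,0,-1],[1,1,0,-1,0,0,0,1],(⟨0,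
  [(31,0)]⟩,⟨0,[(30,0)]⟩),(⟨1,[(21,0),(8,0),(0,0)]⟩,⟨0,[(22,0)]⟩),⟨0,[(5,0)]⟩,.k,.k,.k,.k,(.r (-1)
  ⟨3,[(13,3),(5,0),(0,2)]⟩ ⟨1,[(0,1),(20,0),(5,1),(2,0),(0,0)]⟩),.k,⟨false,0,⟨1,[(3,0),(8,0),(0,0),
  (6,0)]⟩,⟨21,[(0,15),(0,5),(4,1),(0,1),(1,9),(11,10),(5,7),(2,4),(0,4),(8,5)]⟩⟩,⟨true,0,⟨0,[(17,0),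
  (4,0)]⟩,⟨1,[(21,0),(5,1),(2,0),(0,0)]⟩⟩,⟨true,0,⟨0,[(37,0)]⟩,⟨0,[(38,0)]⟩⟩,⟨false,1,⟨3,[(0,1),(10,
  1),(7,0),(2,1),(17,2)]⟩,⟨0,[(2,0)]⟩⟩,⟨false,0,⟨0,[]⟩,⟨3,[(19,0),(0,0),(19,1)]⟩⟩,⟨true,0,⟨0,[(0,
  0)]⟩,⟨0,[(2,0),(34,0)]⟩⟩,[]⟩)))))))) (.K ⟨2,[0,1,1],1,0,(⟨0,[(24,0),(2,0)]⟩,⟨0,[(3,0)]⟩),.k,.k,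
  (.x (-2) ⟨3,[(12,0),(0,0),(6,3),(3,3),(2,7),(4,5)]⟩ ⟨3,[(0,3),(2,3),(0,5),(3,1),(16,0),(0,3),(6,
  2)]⟩),.k,.k,[⟨0,[(31,0)]⟩,⟨0,[(4,0),(18,0),(0,0)]⟩,⟨9,[(0,7),(3,11),(3,3),(11,0),(0,2),(1,11),(0,
  11),(8,5)]⟩,⟨3,[(12,0),(0,0),(6,3),(11,1)]⟩]⟩)) (.K ⟨2,[0,1,1],1,0,(⟨0,[(23,0),(2,0)]⟩,⟨0,[(2,
  0)]⟩),.k,.k,(.r 1 ⟨0,[(4,0),(16,0),(5,0)]⟩ ⟨0,[(0,0),(18,0),(2,0),(0,0),(4,0),(2,0)]⟩),.k,.k,[⟨0,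
  [(30,0)]⟩,⟨0,[(3,0),(18,0),(0,0)]⟩,⟨0,[(0,0),(3,1),(0,0),(16,0),(0,0),(3,0)]⟩,⟨3,[(11,0),(0,0),(6,
  3),(11,1)]⟩]⟩)) (.I [0,0,-2,-2,2,0,0,-1] (.K ⟨2,[0,1,1],1,0,(⟨0,[(23,0),(2,0)]⟩,⟨0,[(2,0)]⟩),.k,
  .k,(.r 1 ⟨0,[(4,0),(16,0),(5,0)]⟩ ⟨0,[(0,0)]⟩),.k,.k,[⟨0,[(30,0)]⟩,⟨0,[(3,0),(18,0),(0,0)]⟩,⟨0,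
  [(1,0),(1,0),(18,0),(0,0),(3,1)]⟩,⟨3,[(11,0),(0,0),(6,3),(11,1)]⟩]⟩) (.K ⟨2,[0,1,1],1,0,(⟨0,[(23,
  0),(2,0)]⟩,⟨0,[(2,0)]⟩),.k,.k,(.x (-2) ⟨3,[(11,0),(0,0),(6,3),(3,3),(2,7),(4,5)]⟩ ⟨3,[(0,3),(1,3),
  (0,5),(3,1),(16,0),(0,3),(6,2)]⟩),.k,.k,[⟨0,[(30,0)]⟩,⟨0,[(3,0),(18,0),(0,0)]⟩,⟨2,[(0,1),(0,0),(1,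
  2),(15,0),(0,0),(1,2),(0,2),(8,1)]⟩,⟨3,[(11,0),(0,0),(6,3),(11,1)]⟩]⟩)))))

theorem ok4 : chk (cU (-1) false 3) t4 r5 = true := by decide +kernel

noncomputable def t5 : Tre :=
  .I [1,-1,-1,-1,1] t3 t4

theorem ok5 : chk (cU (-1) false 3) t5 r4 = true :=
  chk_I (e' := [0,1,1,1,-1]) (by decide +kernel) (by decide +kernel) ok3 ok4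

noncomputable def t6 : Tre :=
  .I [1,0,1,1,0,0,0,-1] t2 t5

theorem ok6 : chk (cU (-1) false 3) t6 l3 = true :=
  chk_I (e' := [0,0,-1,-1,0,0,0,1]) (by decide +kernel) (by decide +kernel) ok2 ok5

noncomputable def t7 : Tre :=
  (.Q [0,0,0,0,0,1,0,0,0,0,-1] (.ed true [1,-1,1] .k) (.Q [0,0,0,1,0,0,-1,-1,0,1,1] (.p true [1,-1,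
  1] [] (⟨0,[(18,0),(1,0)]⟩,⟨0,[(0,0)]⟩) .k 0 (⟨0,[]⟩,⟨0,[]⟩) .k .k) (.R ⟨2,false,false,true,[0,1],
  [0,1,-1],[0,1],(⟨0,[]⟩,⟨0,[]⟩),(⟨0,[(1,0)]⟩,⟨0,[(19,0),(1,0)]⟩),⟨0,[]⟩,.k,.k,.k,.k,.k,.k,⟨false,1,
  ⟨0,[(0,0),(2,1),(1,0),(21,0)]⟩,⟨0,[(2,0)]⟩⟩,⟨true,0,⟨0,[(0,0),(2,0),(1,0)]⟩,⟨0,[(15,0)]⟩⟩,⟨false,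
  1,⟨1,[(25,1),(1,0),(0,0)]⟩,⟨0,[(23,0)]⟩⟩,⟨true,0,⟨0,[(14,0)]⟩,⟨0,[(4,0)]⟩⟩,⟨true,0,⟨0,[(24,0)]⟩,
  ⟨1,[(15,0),(0,0)]⟩⟩,⟨true,0,⟨1,[(0,0),(10,0),(14,0),(3,0)]⟩,⟨0,[(3,0)]⟩⟩,[.o ⟨false,0,⟨1,[(0,0),
  (10,0),(14,0),(3,0)]⟩,⟨1,[(3,1),(16,0),(7,0)]⟩⟩,.a ⟨true,0,⟨0,[(0,0)]⟩,⟨0,[(3,0)]⟩⟩ ⟨false,1,⟨3,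
  [(7,0),(0,0),(18,1)]⟩,⟨0,[]⟩⟩ ⟨true,0,⟨1,[(0,0),(1,0),(9,0)]⟩,⟨0,[(3,0)]⟩⟩,.o ⟨false,1,⟨3,[(7,0),
  (0,0),(18,1)]⟩,⟨0,[(5,0),(9,0)]⟩⟩,.e ⟨true,0,⟨0,[(24,0)]⟩,⟨1,[(15,0),(0,0)]⟩⟩ ⟨true,0,⟨1,[(0,0),
  (10,0),(14,0),(3,0)]⟩,⟨0,[(3,0)]⟩⟩]⟩) (.Q [0,-1,0,-1,0,0,1,1,-1,-1,-1,1] (.p false [1,-1,1] [0,0,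
  0,1] (⟨0,[(19,0),(1,0)]⟩,⟨0,[(1,0)]⟩) .k 2 (⟨0,[(10,0)]⟩,⟨1,[(9,0),(8,0),(0,0)]⟩) .k (.x (-1) ⟨3,
  [(7,0),(0,0),(6,3),(3,3),(7,1)]⟩ ⟨0,[(5,0),(12,0)]⟩)) (.Q [0,0,0,0,0,1,0,0,0,0,0,-1] (.p false [0,
  0,0,1] [] (⟨0,[(11,0)]⟩,⟨1,[(10,0),(8,0),(0,0)]⟩) .k 0 (⟨0,[]⟩,⟨0,[]⟩) .k .k) (.R ⟨0,false,false,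
  false,[0,0,0,1],[1,-1,1],[1,0,0,0,0,0,0,0,1],(⟨0,[(12,0)]⟩,⟨1,[(11,0),(8,0),(0,0)]⟩),(⟨0,[(21,0),
  (1,0)]⟩,⟨0,[(3,0)]⟩),⟨0,[(0,0)]⟩,.k,.k,(.x 0 ⟨1,[(2,0),(1,0),(9,0),(8,1)]⟩ ⟨3,[(9,0),(0,0),(13,3),
  (4,1)]⟩),(.r (-1) ⟨3,[(4,3),(4,0),(0,2)]⟩ ⟨1,[(1,1),(5,1),(3,0),(8,2),(0,2),(4,1)]⟩),.k,.k,⟨false,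
  1,⟨1,[(4,1),(5,0),(18,0)]⟩,⟨1,[(1,1),(5,1),(3,0),(8,2),(0,2),(4,1)]⟩⟩,⟨true,0,⟨0,[(2,0),(1,0),(7,
  0)]⟩,⟨1,[(7,1),(3,0),(8,2),(0,2)]⟩⟩,⟨true,0,⟨0,[]⟩,⟨0,[(32,0)]⟩⟩,⟨false,0,⟨0,[(1,0)]⟩,⟨1,[(10,0),
  (0,0),(4,1),(3,0),(0,0),(6,1),(1,0)]⟩⟩,⟨false,0,⟨0,[]⟩,⟨0,[]⟩⟩,⟨false,0,⟨0,[]⟩,⟨0,[]⟩⟩,[.o ⟨false,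
  0,⟨0,[(2,0)]⟩,⟨3,[(9,0),(0,0),(5,3),(11,3),(1,1)]⟩⟩,.o ⟨false,1,⟨1,[(5,1),(16,0),(7,0)]⟩,⟨0,[(16,
  0),(11,0)]⟩⟩,.a ⟨true,0,⟨1,[(11,0),(8,0),(0,0)]⟩,⟨0,[(12,0)]⟩⟩ ⟨false,1,⟨1,[(10,0),(19,0)]⟩,⟨1,
  [(1,1),(9,0),(4,1),(3,0),(0,0),(6,1)]⟩⟩ ⟨true,0,⟨0,[(2,0),(9,0)]⟩,⟨1,[(11,0),(4,1),(3,0),(0,0),(6,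
  1)]⟩⟩,.o ⟨false,0,⟨1,[(11,0),(2,0),(2,0)]⟩,⟨1,[(12,1),(9,0),(6,0)]⟩⟩]⟩) (.R ⟨1,false,false,false,
  [0,0,0,1],[1,-1,1],[0,0,0,0,0,0,0,0,1],(⟨0,[(12,0)]⟩,⟨1,[(11,0),(8,0),(0,0)]⟩),(⟨0,[(21,0),(1,
  0)]⟩,⟨0,[(3,0)]⟩),⟨0,[(0,0)]⟩,.k,.k,(.x 0 ⟨1,[(0,1),(10,0),(2,0),(2,0)]⟩ ⟨3,[(9,0),(0,0),(13,3),
  (4,1)]⟩),(.r (-1) ⟨3,[(4,3),(4,0),(0,2)]⟩ ⟨1,[(1,1),(5,1),(3,0),(8,2),(0,2),(4,1)]⟩),.k,.k,⟨false,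
  1,⟨1,[(4,1),(5,0),(18,0)]⟩,⟨1,[(1,1),(5,1),(3,0),(8,2),(0,2),(4,1)]⟩⟩,⟨true,0,⟨0,[(2,0),(1,0),(7,
  0)]⟩,⟨1,[(7,1),(3,0),(8,2),(0,2)]⟩⟩,⟨false,1,⟨3,[(9,0),(0,0),(19,1)]⟩,⟨0,[]⟩⟩,⟨false,0,⟨0,[(1,
  0)]⟩,⟨1,[(10,0),(0,0),(4,1),(3,0),(0,0),(6,1),(1,0)]⟩⟩,⟨true,0,⟨0,[(28,0)]⟩,⟨0,[(27,0)]⟩⟩,⟨false,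
  0,⟨0,[(1,0),(26,0)]⟩,⟨1,[(10,0),(0,0),(4,1),(3,0),(0,0),(8,0)]⟩⟩,[.o ⟨false,0,⟨0,[(2,0)]⟩,⟨3,[(9,
  0),(0,0),(5,3),(11,3),(1,1)]⟩⟩,.o ⟨false,1,⟨1,[(5,1),(16,0),(7,0)]⟩,⟨0,[(16,0),(11,0)]⟩⟩,.a ⟨true,
  0,⟨1,[(11,0),(8,0),(0,0)]⟩,⟨0,[(12,0)]⟩⟩ ⟨false,1,⟨1,[(10,0),(19,0)]⟩,⟨1,[(1,1),(9,0),(4,1),(3,0),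
  (0,0),(6,1)]⟩⟩ ⟨true,0,⟨0,[(2,0),(9,0)]⟩,⟨1,[(11,0),(4,1),(3,0),(0,0),(6,1)]⟩⟩,.o ⟨false,0,⟨1,
  [(11,0),(2,0),(2,0)]⟩,⟨1,[(12,1),(9,0),(6,0)]⟩⟩]⟩)) (.I [1,0,1,2,-1] (.R ⟨2,true,false,true,[0,1],
  [1,-1],[0,1,0,-1],(⟨0,[]⟩,⟨0,[]⟩),(⟨0,[(23,0)]⟩,⟨0,[(24,0)]⟩),⟨0,[]⟩,.k,.k,.k,(.r 1 ⟨1,[(0,1),(16,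
  0),(0,0)]⟩ ⟨0,[(27,1),(1,0),(0,0)]⟩),.k,.k,⟨true,0,⟨1,[(17,0),(0,0)]⟩,⟨0,[]⟩⟩,⟨false,0,⟨1,[(2,0),
  (1,0),(9,0)]⟩,⟨0,[(20,0),(0,0),(7,0)]⟩⟩,⟨true,1,⟨1,[(27,3),(1,0),(0,0)]⟩,⟨0,[(0,0)]⟩⟩,⟨false,1,⟨1,
  [(2,0),(10,0),(13,2),(2,1)]⟩,⟨1,[(0,1),(19,1),(0,1),(7,0),(0,0)]⟩⟩,⟨false,1,⟨1,[(27,1),(1,0),(0,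
  0)]⟩,⟨0,[(25,0)]⟩⟩,⟨true,0,⟨1,[(2,0),(10,0),(13,0)]⟩,⟨9,[(0,3),(0,1),(6,0),(0,0),(2,1),(7,6),(0,
  6),(7,1),(0,0)]⟩⟩,[]⟩) (.I [1,0,0,0,0,0,0,0,1] (.I [1,-1,2,1,0,0,0,0,-1] (.Q [0,0,0,-1,0,0,0,0,1,
  0,0,-1] (.p false [0,0,0,1] [] (⟨0,[(14,0)]⟩,⟨1,[(13,0),(8,0),(0,0)]⟩) .k 0 (⟨0,[]⟩,⟨0,[]⟩) .k
  .k) (.Q [0,0,0,0,0,1,0,0,0,0,0,-1] (.p false [0,0,0,1] [] (⟨0,[(15,0)]⟩,⟨1,[(14,0),(8,0),(0,0)]⟩)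
  .k 0 (⟨0,[]⟩,⟨0,[]⟩) .k .k) (.R ⟨0,false,false,false,[0,0,0,1],[0,1],[1,0,1,1],(⟨0,[(16,0)]⟩,⟨1,
  [(15,0),(8,0),(0,0)]⟩),(⟨0,[(28,0)]⟩,⟨0,[(27,0)]⟩),⟨0,[(0,0)]⟩,.k,.k,(.r (-1) ⟨3,[(3,1),(0,1),(9,
  0),(18,0)]⟩ ⟨0,[(2,0),(27,0)]⟩),(.r (-1) ⟨3,[(3,1),(0,1),(9,0),(18,0)]⟩ ⟨0,[(2,0),(27,0)]⟩),.k,.k,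
  ⟨true,0,⟨0,[]⟩,⟨1,[(21,0),(0,0)]⟩⟩,⟨false,1,⟨0,[(16,0),(16,0)]⟩,⟨1,[(15,0),(2,0),(2,0)]⟩⟩,⟨true,0,
  ⟨0,[(2,0),(27,0)]⟩,⟨0,[(1,0),(14,0),(13,0)]⟩⟩,⟨false,1,⟨1,[(13,0),(2,1),(15,1),(1,0)]⟩,⟨0,[(1,
  0)]⟩⟩,⟨false,0,⟨0,[]⟩,⟨0,[]⟩⟩,⟨false,0,⟨0,[]⟩,⟨0,[]⟩⟩,[.o ⟨false,0,⟨0,[(32,0)]⟩,⟨3,[(4,1),(16,0),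
  (0,0),(3,1)]⟩⟩,.o ⟨false,1,⟨3,[(13,0),(0,0),(17,3),(1,1)]⟩,⟨1,[(6,0),(10,0),(13,0)]⟩⟩,.a ⟨true,0,
  ⟨1,[(15,0),(8,0),(0,0)]⟩,⟨0,[(16,0)]⟩⟩ ⟨false,0,⟨0,[(29,0)]⟩,⟨7,[(4,3),(8,0),(0,0),(18,1)]⟩⟩
  ⟨true,0,⟨0,[(16,0),(15,0)]⟩,⟨3,[(6,0),(8,1),(1,0),(13,2)]⟩⟩,.o ⟨false,0,⟨1,[(15,0),(2,0),(2,0)]⟩,
  ⟨1,[(16,1),(9,0),(6,0)]⟩⟩]⟩) (.R ⟨1,false,false,true,[1,0,0,-1],[1,-1],[0,0,0,0,0,0,0,0,-1],(⟨1,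
  [(15,0),(8,0),(0,0)]⟩,⟨0,[(16,0)]⟩),(⟨0,[(27,0)]⟩,⟨0,[(28,0)]⟩),⟨0,[(0,0),(14,0)]⟩,.k,.k,(.x 0 ⟨1,
  [(6,0),(1,0),(9,0),(8,1)]⟩ ⟨3,[(13,0),(0,0),(13,3),(4,1)]⟩),(.r 0 ⟨0,[(2,0),(27,0)]⟩ ⟨3,[(3,1),(0,
  1),(9,0),(18,0)]⟩),.k,.k,⟨false,1,⟨1,[(13,0),(18,1),(1,0)]⟩,⟨0,[(1,0),(14,0),(13,0)]⟩⟩,⟨true,0,⟨1,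
  [(15,0),(2,0),(2,0)]⟩,⟨0,[(16,0)]⟩⟩,⟨false,1,⟨3,[(13,0),(0,0),(19,1)]⟩,⟨0,[]⟩⟩,⟨false,0,⟨0,[(1,
  0)]⟩,⟨1,[(13,0),(2,1),(15,1),(1,0)]⟩⟩,⟨true,0,⟨0,[(32,0)]⟩,⟨0,[(31,0)]⟩⟩,⟨false,0,⟨0,[(1,0),(30,
  0)]⟩,⟨1,[(13,0),(2,1),(17,0)]⟩⟩,[.o ⟨false,0,⟨1,[(6,0),(10,0),(13,0)]⟩,⟨3,[(13,0),(0,0),(17,3),(1,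
  1)]⟩⟩,.o ⟨false,1,⟨3,[(4,1),(16,0),(0,0),(3,1)]⟩,⟨0,[(32,0)]⟩⟩,.a ⟨true,0,⟨0,[(16,0)]⟩,⟨1,[(15,0),
  (8,0),(0,0)]⟩⟩ ⟨false,1,⟨1,[(13,0),(20,0)]⟩,⟨0,[(3,0)]⟩⟩ ⟨true,0,⟨3,[(6,0),(8,1),(1,0),(13,2)]⟩,
  ⟨0,[(16,0),(15,0)]⟩⟩,.o ⟨false,0,⟨1,[(6,0),(1,0),(7,1),(1,0)]⟩,⟨7,[(13,0),(0,0),(0,3),(10,1),(6,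
  3)]⟩⟩]⟩)) (.Q [0,0,0,0,0,0,0,0,1,0,0,-1] (.p false [0,0,0,1] [] (⟨0,[(15,0)]⟩,⟨1,[(14,0),(8,0),(0,
  0)]⟩) .k 0 (⟨0,[]⟩,⟨0,[]⟩) .k .k) (.R ⟨2,true,false,true,[0,1],[0,0,0,1],[0,1],(⟨0,[]⟩,⟨0,[]⟩),
  (⟨0,[(16,0)]⟩,⟨1,[(15,0),(8,0),(0,0)]⟩),⟨0,[]⟩,.k,.k,.k,(.r 0 ⟨3,[(1,1),(0,1),(12,0),(1,0),(1,
  0)]⟩ ⟨3,[(3,1),(0,1),(9,0),(18,0)]⟩),.k,.k,⟨false,1,⟨1,[(13,0),(19,0)]⟩,⟨0,[(3,0)]⟩⟩,⟨true,0,⟨1,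
  [(15,0),(2,0),(2,0)]⟩,⟨0,[(16,0)]⟩⟩,⟨false,1,⟨7,[(4,3),(8,0),(0,0),(18,1)]⟩,⟨0,[(29,0)]⟩⟩,⟨true,0,
  ⟨0,[(0,0),(30,0)]⟩,⟨0,[(1,0)]⟩⟩,⟨true,0,⟨0,[(30,0)]⟩,⟨1,[(21,0),(0,0)]⟩⟩,⟨false,0,⟨0,[(0,0)]⟩,⟨1,
  [(13,0),(2,1),(17,0)]⟩⟩,[]⟩) (.R ⟨2,false,false,true,[0,1],[0,0,0,1],[0,1],(⟨0,[]⟩,⟨0,[]⟩),(⟨0,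
  [(16,0)]⟩,⟨1,[(15,0),(8,0),(0,0)]⟩),⟨0,[]⟩,.k,.k,.k,(.r 0 ⟨3,[(1,1),(0,1),(12,0),(1,0),(1,0)]⟩ ⟨3,
  [(3,1),(0,1),(9,0),(18,0)]⟩),.k,.k,⟨false,1,⟨1,[(13,0),(19,0)]⟩,⟨0,[(3,0)]⟩⟩,⟨true,0,⟨1,[(15,0),
  (2,0),(2,0)]⟩,⟨0,[(16,0)]⟩⟩,⟨false,1,⟨7,[(4,3),(8,0),(0,0),(18,1)]⟩,⟨0,[(29,0)]⟩⟩,⟨true,0,⟨3,[(3,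
  3),(2,0),(8,1),(1,0),(13,2)]⟩,⟨0,[(1,0)]⟩⟩,⟨true,0,⟨0,[(30,0)]⟩,⟨1,[(21,0),(0,0)]⟩⟩,⟨true,0,⟨0,
  [(5,0),(0,0)]⟩,⟨0,[(0,0)]⟩⟩,[.o ⟨false,0,⟨0,[(5,0),(0,0)]⟩,⟨1,[(0,1),(25,0),(7,0)]⟩⟩,.a ⟨true,0,
  ⟨1,[(3,1),(11,0),(8,0),(0,0)]⟩,⟨0,[(0,0)]⟩⟩ ⟨false,1,⟨3,[(13,0),(0,0),(18,1)]⟩,⟨0,[]⟩⟩ ⟨true,0,⟨1,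
  [(3,1),(11,0),(2,0),(2,0)]⟩,⟨0,[(0,0)]⟩⟩,.o ⟨false,1,⟨3,[(13,0),(0,0),(18,1)]⟩,⟨1,[(6,0),(1,0),(9,
  0)]⟩⟩,.e ⟨true,0,⟨0,[(30,0)]⟩,⟨1,[(21,0),(0,0)]⟩⟩ ⟨true,0,⟨0,[(5,0),(0,0)]⟩,⟨0,[(0,0)]⟩⟩]⟩))) (.I
  [1,-1,0,0,0,0,0,0,1] (.Q [0,0,0,0,0,1,0,0,0,0,0,-1] (.p false [0,0,0,1] [] (⟨0,[(15,0)]⟩,⟨1,[(14,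
  0),(8,0),(0,0)]⟩) .k 0 (⟨0,[]⟩,⟨0,[]⟩) .k .k) (.R ⟨0,false,false,true,[0,0,0,1],[1,0,-1],[0,1,0,
  -1,0,0,0,0,1],(⟨0,[(16,0)]⟩,⟨1,[(15,0),(8,0),(0,0)]⟩),(⟨0,[(24,0)]⟩,⟨0,[(25,0)]⟩),⟨0,[(0,0)]⟩,.k,
  .k,(.x 0 ⟨1,[(6,0),(1,0),(9,0),(8,1)]⟩ ⟨3,[(13,0),(0,0),(13,3),(4,1)]⟩),.k,.k,.k,⟨false,0,⟨1,[(1,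
  0),(0,0),(6,0),(1,0),(11,0),(0,0),(0,0)]⟩,⟨1,[(8,1),(4,0),(19,0)]⟩⟩,⟨true,0,⟨0,[(11,0),(4,0)]⟩,⟨1,
  [(15,0),(5,1),(2,0),(0,0)]⟩⟩,⟨true,0,⟨0,[(31,0)]⟩,⟨0,[(32,0)]⟩⟩,⟨false,1,⟨1,[(13,0),(2,1),(0,1),
  (16,0)]⟩,⟨1,[(1,1),(10,0),(2,0)]⟩⟩,⟨false,0,⟨0,[]⟩,⟨0,[]⟩⟩,⟨false,0,⟨0,[]⟩,⟨0,[]⟩⟩,[.o ⟨false,0,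
  ⟨0,[(17,0)]⟩,⟨7,[(12,3),(0,0),(0,0),(11,1),(7,3)]⟩⟩,.o ⟨false,1,⟨1,[(20,1),(5,0),(7,0)]⟩,⟨0,[(10,
  0)]⟩⟩,.a ⟨true,0,⟨1,[(15,0),(8,0),(0,0)]⟩,⟨0,[(16,0)]⟩⟩ ⟨false,0,⟨0,[(1,0),(29,0)]⟩,⟨1,[(13,0),
  (18,1),(1,0)]⟩⟩ ⟨true,0,⟨0,[(16,0),(0,0)]⟩,⟨1,[(12,0),(2,0)]⟩⟩,.o ⟨false,0,⟨1,[(15,0),(2,0),(2,
  0)]⟩,⟨1,[(16,1),(9,0),(6,0)]⟩⟩]⟩) (.R ⟨1,false,false,true,[0,0,0,1],[1,0,-1],[1,1,0,-1,0,0,0,0,1],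
  (⟨0,[(16,0)]⟩,⟨1,[(15,0),(8,0),(0,0)]⟩),(⟨0,[(24,0)]⟩,⟨0,[(25,0)]⟩),⟨0,[(0,0)]⟩,.k,.k,(.x 0 ⟨1,
  [(6,0),(1,0),(9,0),(8,1)]⟩ ⟨3,[(13,0),(0,0),(13,3),(4,1)]⟩),.k,(.r 0 ⟨1,[(1,0),(0,0),(6,0),(1,0),
  (11,0),(0,0),(0,0)]⟩ ⟨3,[(8,3),(4,2),(0,0)]⟩),.k,⟨false,0,⟨1,[(1,0),(0,0),(6,0),(1,0),(11,0),(0,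
  0),(0,0)]⟩,⟨1,[(8,1),(4,0),(19,0)]⟩⟩,⟨true,0,⟨0,[(11,0),(4,0)]⟩,⟨1,[(15,0),(5,1),(2,0),(0,0)]⟩⟩,
  ⟨true,0,⟨0,[(31,0)]⟩,⟨0,[(32,0)]⟩⟩,⟨false,1,⟨1,[(13,0),(2,1),(0,1),(16,0)]⟩,⟨1,[(1,1),(10,0),(2,
  0)]⟩⟩,⟨false,0,⟨0,[]⟩,⟨3,[(13,0),(0,0),(19,1)]⟩⟩,⟨false,1,⟨1,[(13,0),(2,1),(0,1),(14,1),(1,0)]⟩,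
  ⟨1,[(1,1),(7,1),(5,0),(8,0),(0,0)]⟩⟩,[.o ⟨false,0,⟨0,[(17,0)]⟩,⟨7,[(12,3),(0,0),(0,0),(11,1),(7,
  3)]⟩⟩,.o ⟨false,1,⟨1,[(20,1),(5,0),(7,0)]⟩,⟨0,[(10,0)]⟩⟩,.a ⟨true,0,⟨1,[(15,0),(8,0),(0,0)]⟩,⟨0,
  [(16,0)]⟩⟩ ⟨false,0,⟨0,[(1,0),(29,0)]⟩,⟨1,[(13,0),(18,1),(1,0)]⟩⟩ ⟨true,0,⟨0,[(16,0),(0,0)]⟩,⟨1,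
  [(12,0),(2,0)]⟩⟩,.o ⟨false,0,⟨1,[(15,0),(2,0),(2,0)]⟩,⟨1,[(16,1),(9,0),(6,0)]⟩⟩]⟩)) (.Q [0,1,0,0,
  0,0,0,0,-1,-1,0,1] (.p true [0,0,0,1] [1] (⟨0,[(15,0)]⟩,⟨1,[(14,0),(8,0),(0,0)]⟩) .k 1 (⟨0,[]⟩,⟨0,
  []⟩) .k .k) (.Q [0,0,0,0,0,1,0,0,0,0,0,-1] (.p false [0,0,0,1] [] (⟨0,[(16,0)]⟩,⟨1,[(15,0),(8,0),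
  (0,0)]⟩) .k 0 (⟨0,[]⟩,⟨0,[]⟩) .k .k) (.R ⟨0,false,false,true,[0,0,0,1],[1,0,-1],[0,1,1],(⟨0,[(17,
  0)]⟩,⟨1,[(16,0),(8,0),(0,0)]⟩),(⟨0,[(25,0)]⟩,⟨0,[(26,0)]⟩),⟨0,[(0,0)]⟩,.k,.k,(.r (-1) ⟨9,[(3,1),
  (1,3),(9,3),(18,0),(0,0)]⟩ ⟨0,[(2,0),(27,0)]⟩),.k,.k,.k,⟨false,0,⟨0,[(24,0)]⟩,⟨1,[(3,1),(5,1),(4,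
  0),(20,0)]⟩⟩,⟨true,0,⟨0,[(12,0),(4,0)]⟩,⟨1,[(16,0),(5,1),(2,0),(0,0)]⟩⟩,⟨true,0,⟨1,[(2,1),(19,0),
  (0,0)]⟩,⟨0,[(3,0),(26,0)]⟩⟩,⟨false,1,⟨1,[(14,0),(2,1),(0,1),(16,0)]⟩,⟨1,[(3,1),(6,1),(5,0),(8,0),
  (0,0),(3,3)]⟩⟩,⟨false,0,⟨0,[]⟩,⟨0,[]⟩⟩,⟨false,0,⟨0,[]⟩,⟨0,[]⟩⟩,[.o ⟨false,0,⟨0,[(18,0)]⟩,⟨7,[(13,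
  3),(0,0),(0,0),(11,1),(7,3)]⟩⟩,.o ⟨false,1,⟨1,[(21,1),(5,0),(7,0)]⟩,⟨0,[(11,0)]⟩⟩,.a ⟨true,0,⟨1,
  [(16,0),(8,0),(0,0)]⟩,⟨0,[(17,0)]⟩⟩ ⟨false,0,⟨1,[(22,0),(0,0)]⟩,⟨1,[(34,0),(0,0)]⟩⟩ ⟨true,0,⟨0,
  [(17,0),(0,0)]⟩,⟨1,[(13,0),(2,0)]⟩⟩,.o ⟨false,0,⟨1,[(16,0),(2,0),(2,0)]⟩,⟨1,[(17,1),(9,0),(6,
  0)]⟩⟩]⟩) (.I [0,0,-1,-1,1,0,0,0,-1] (.R ⟨2,true,false,true,[0,1],[1,0,0,-1],[1,1,1],(⟨0,[]⟩,⟨0,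
  []⟩),(⟨1,[(17,0),(8,0),(0,0)]⟩,⟨0,[(18,0)]⟩),⟨0,[]⟩,.k,.k,.k,(.r 0 ⟨4,[(5,3),(1,0),(2,0),(7,0),(1,
  0),(0,1),(9,2)]⟩ ⟨0,[(0,0)]⟩),.k,.k,⟨false,0,⟨0,[(5,0)]⟩,⟨1,[(15,0),(19,0)]⟩⟩,⟨true,0,⟨1,[(8,0),
  (1,0),(7,1),(1,0)]⟩,⟨1,[(17,0),(8,0),(0,0)]⟩⟩,⟨true,0,⟨0,[(33,0)]⟩,⟨0,[(34,0)]⟩⟩,⟨false,1,⟨3,[(2,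
  3),(3,1),(16,0),(0,0),(11,1)]⟩,⟨1,[(4,1),(12,0),(8,0),(0,0),(3,3)]⟩⟩,⟨false,0,⟨0,[]⟩,⟨3,[(15,0),
  (0,0),(19,1)]⟩⟩,⟨true,0,⟨0,[(2,0)]⟩,⟨1,[(5,1),(11,0),(8,0),(0,0)]⟩⟩,[]⟩) (.R ⟨2,true,false,true,
  [0,1],[1,0,0,-1],[1,1,1],(⟨0,[]⟩,⟨0,[]⟩),(⟨1,[(17,0),(8,0),(0,0)]⟩,⟨0,[(18,0)]⟩),⟨0,[]⟩,.k,.k,.k,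
  (.x (-1) ⟨3,[(15,0),(0,0),(13,3),(4,1)]⟩ ⟨1,[(1,1),(15,0),(2,0),(2,0)]⟩),.k,.k,⟨false,0,⟨0,[(5,
  0)]⟩,⟨1,[(15,0),(19,0)]⟩⟩,⟨true,0,⟨1,[(8,0),(1,0),(7,1),(1,0)]⟩,⟨1,[(17,0),(8,0),(0,0)]⟩⟩,⟨true,0,
  ⟨0,[(33,0)]⟩,⟨0,[(34,0)]⟩⟩,⟨false,1,⟨3,[(2,3),(3,1),(16,0),(0,0),(11,1)]⟩,⟨1,[(0,1),(16,0),(8,0),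
  (0,0),(7,0),(0,0)]⟩⟩,⟨false,0,⟨0,[]⟩,⟨3,[(15,0),(0,0),(19,1)]⟩⟩,⟨true,0,⟨0,[(2,0)]⟩,⟨13,[(0,5),(3,
  1),(1,1),(9,2),(0,6),(8,6),(0,6),(8,0)]⟩⟩,[]⟩))) (.R ⟨2,false,false,false,[0,1],[0,0,0,1],[1,0,1],
  (⟨0,[]⟩,⟨0,[]⟩),(⟨0,[(16,0)]⟩,⟨1,[(15,0),(8,0),(0,0)]⟩),⟨0,[]⟩,.k,.k,.k,(.r 0 ⟨0,[(1,0),(27,0)]⟩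
  ⟨9,[(2,1),(1,3),(9,3),(18,0),(0,0)]⟩),.k,.k,⟨false,1,⟨3,[(13,2),(0,0)]⟩,⟨0,[(2,0),(26,0)]⟩⟩,⟨true,
  0,⟨1,[(15,0),(2,0),(2,0)]⟩,⟨0,[(16,0)]⟩⟩,⟨false,1,⟨3,[(4,1),(16,0),(0,0),(11,1)]⟩,⟨0,[(32,0)]⟩⟩,
  ⟨true,0,⟨1,[(0,1),(5,0),(10,0),(13,0)]⟩,⟨0,[(1,0),(14,0),(15,0)]⟩⟩,⟨true,0,⟨0,[]⟩,⟨0,[(36,0)]⟩⟩,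
  ⟨true,0,⟨2,[(0,1),(4,0),(0,1),(10,0),(14,0)]⟩,⟨0,[(1,0),(14,0)]⟩⟩,[.o ⟨false,0,⟨2,[(0,1),(4,0),(0,
  1),(10,0),(14,0)]⟩,⟨1,[(13,0),(2,1),(9,0)]⟩⟩,.a ⟨true,0,⟨0,[(0,0)]⟩,⟨0,[(1,0),(14,0)]⟩⟩ ⟨false,1,
  ⟨3,[(13,0),(0,0),(19,1)]⟩,⟨0,[(30,0)]⟩⟩ ⟨true,0,⟨1,[(0,1),(5,0),(1,0),(9,0)]⟩,⟨0,[(1,0),(14,0)]⟩⟩,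
  .o ⟨false,1,⟨3,[(13,0),(0,0),(18,1)]⟩,⟨1,[(6,0),(1,0),(9,0)]⟩⟩,.e ⟨true,0,⟨0,[]⟩,⟨0,[(36,0)]⟩⟩
  ⟨true,0,⟨2,[(0,1),(4,0),(0,1),(10,0),(14,0)]⟩,⟨0,[(1,0),(14,0)]⟩⟩]⟩)))) (.I [0,0,1,0,0,0,0,0,1]
  (.Q [0,0,0,0,0,1,0,0,0,-1,0,1] (.p true [0,0,0,1] [1] (⟨0,[(14,0)]⟩,⟨1,[(13,0),(8,0),(0,0)]⟩) .k
  1 (⟨0,[]⟩,⟨0,[]⟩) .k .k) (.R ⟨0,false,false,false,[1,0,0,-1],[0,1,-1],[1,0,1],(⟨1,[(14,0),(8,0),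
  (0,0)]⟩,⟨0,[(15,0)]⟩),(⟨0,[(6,0)]⟩,⟨0,[(24,0),(1,0)]⟩),⟨0,[(0,0)]⟩,.k,.k,(.r (-1) ⟨3,[(2,1),(0,1),
  (8,0),(19,0)]⟩ ⟨0,[(1,0),(29,0)]⟩),(.x 0 ⟨0,[(5,0),(1,0),(16,0),(1,0)]⟩ ⟨0,[(6,0),(14,0),(10,
  0)]⟩),.k,.k,⟨true,0,⟨0,[(8,0),(1,0),(12,0),(0,0)]⟩,⟨0,[(7,0)]⟩⟩,⟨false,1,⟨1,[(10,1),(3,0),(8,2),
  (0,2),(7,1)]⟩,⟨0,[(5,0),(1,0),(7,0)]⟩⟩,⟨true,0,⟨0,[(1,0)]⟩,⟨0,[(2,0),(26,0)]⟩⟩,⟨false,1,⟨0,[(4,0),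
  (28,0)]⟩,⟨0,[(2,0),(2,0),(9,0)]⟩⟩,⟨false,0,⟨0,[]⟩,⟨0,[]⟩⟩,⟨false,0,⟨0,[]⟩,⟨0,[]⟩⟩,[.o ⟨false,1,⟨5,
  [(4,3),(7,1),(2,3),(0,1),(8,0),(5,1),(1,2)]⟩,⟨0,[(5,0)]⟩⟩,.o ⟨false,1,⟨0,[(19,0),(11,0),(1,0)]⟩,
  ⟨3,[(5,2),(10,0),(1,1),(11,0)]⟩⟩,.a ⟨true,0,⟨0,[(15,0)]⟩,⟨1,[(14,0),(8,0),(0,0)]⟩⟩ ⟨true,0,⟨1,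
  [(20,0),(0,0)]⟩,⟨0,[(29,0)]⟩⟩ ⟨false,1,⟨0,[(2,0),(1,0),(28,0)]⟩,⟨0,[(5,0),(9,0)]⟩⟩,.o ⟨false,0,⟨1,
  [(5,0),(1,0),(7,1),(1,0)]⟩,⟨7,[(12,0),(0,0),(0,3),(10,1),(6,3)]⟩⟩]⟩) (.Q [0,1,0,-1,0,0,0,0,1,0,0,
  -1] (.p false [0,0,0,1] [] (⟨0,[(15,0)]⟩,⟨1,[(14,0),(8,0),(0,0)]⟩) .k 0 (⟨0,[]⟩,⟨0,[]⟩) .k .k)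
  (.R ⟨1,false,false,true,[1,0,0,-1],[1,-1],[0,1,0,0,0,0,0,0,-1],(⟨1,[(15,0),(8,0),(0,0)]⟩,⟨0,[(16,
  0)]⟩),(⟨0,[(27,0)]⟩,⟨0,[(28,0)]⟩),⟨0,[(1,0)]⟩,.k,.k,(.r (-1) ⟨3,[(3,1),(0,1),(8,0),(19,0)]⟩ ⟨0,
  [(2,0),(29,0)]⟩),(.r 0 ⟨2,[(3,2),(4,0),(10,0),(2,0),(6,0),(2,0)]⟩ ⟨1,[(0,1),(15,1),(16,0),(0,
  0)]⟩),.k,.k,⟨false,0,⟨0,[(3,0),(28,0)]⟩,⟨1,[(0,1),(15,1),(16,0),(0,0)]⟩⟩,⟨true,0,⟨1,[(15,0),(2,0),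
  (2,0)]⟩,⟨0,[(16,0)]⟩⟩,⟨true,0,⟨0,[(36,0)]⟩,⟨0,[]⟩⟩,⟨true,0,⟨0,[(0,0)]⟩,⟨0,[(3,0),(12,0),(15,0)]⟩⟩,
  ⟨false,0,⟨0,[(32,0)]⟩,⟨3,[(4,1),(16,0),(0,0),(11,1)]⟩⟩,⟨true,0,⟨0,[(5,0),(0,0)]⟩,⟨0,[(3,0),(12,
  0)]⟩⟩,[.o ⟨false,0,⟨1,[(6,0),(10,0),(13,0)]⟩,⟨3,[(13,0),(0,0),(17,3),(1,1)]⟩⟩,.o ⟨false,1,⟨3,[(4,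
  1),(16,0),(0,0),(3,1)]⟩,⟨0,[(32,0)]⟩⟩,.a ⟨true,0,⟨0,[(16,0)]⟩,⟨1,[(15,0),(8,0),(0,0)]⟩⟩ ⟨false,0,
  ⟨0,[(3,0)]⟩,⟨1,[(14,0),(19,0)]⟩⟩ ⟨true,0,⟨3,[(6,0),(8,1),(1,0),(13,2)]⟩,⟨0,[(16,0),(15,0)]⟩⟩,.o
  ⟨false,0,⟨1,[(6,0),(1,0),(7,1),(1,0)]⟩,⟨7,[(13,0),(0,0),(0,3),(10,1),(6,3)]⟩⟩]⟩) (.R ⟨2,true,
  false,true,[0,1],[0,0,0,1],[1,1,1],(⟨0,[]⟩,⟨0,[]⟩),(⟨0,[(16,0)]⟩,⟨1,[(15,0),(8,0),(0,0)]⟩),⟨0,[]⟩,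
  .k,.k,.k,(.x (-1) ⟨3,[(13,0),(0,0),(13,3),(4,1)]⟩ ⟨1,[(6,0),(1,0),(9,0),(8,1)]⟩),.k,.k,⟨false,0,
  ⟨0,[(3,0)]⟩,⟨1,[(14,0),(18,0)]⟩⟩,⟨true,0,⟨1,[(15,0),(2,0),(2,0)]⟩,⟨0,[(16,0)]⟩⟩,⟨true,0,⟨0,[(31,
  0)]⟩,⟨0,[(32,0)]⟩⟩,⟨false,1,⟨3,[(2,1),(1,1),(9,0),(0,1),(10,0)]⟩,⟨0,[(0,0)]⟩⟩,⟨false,0,⟨0,[]⟩,⟨3,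
  [(13,0),(0,0),(19,1)]⟩⟩,⟨true,0,⟨0,[(5,0),(0,0)]⟩,⟨0,[(0,0),(30,0)]⟩⟩,[]⟩))) (.I [0,0,-1,-1,1,0,0,
  0,1] (.R ⟨2,true,false,true,[0,1],[0,0,0,1],[1,1,1],(⟨0,[]⟩,⟨0,[]⟩),(⟨0,[(15,0)]⟩,⟨1,[(14,0),(8,
  0),(0,0)]⟩),⟨0,[]⟩,.k,.k,.k,(.r 0 ⟨2,[(2,2),(4,0),(10,0),(2,0),(6,0),(2,0)]⟩ ⟨0,[(0,0)]⟩),.k,.k,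
  ⟨false,0,⟨0,[(2,0)]⟩,⟨1,[(13,0),(18,0)]⟩⟩,⟨true,0,⟨1,[(14,0),(2,0),(2,0)]⟩,⟨0,[(15,0)]⟩⟩,⟨true,0,
  ⟨0,[(30,0)]⟩,⟨0,[(31,0)]⟩⟩,⟨false,1,⟨13,[(3,5),(1,1),(7,6),(0,6),(1,1),(0,2),(2,2),(12,0)]⟩,⟨0,
  [(1,0),(13,0),(12,0)]⟩⟩,⟨false,0,⟨0,[]⟩,⟨3,[(12,0),(0,0),(19,1)]⟩⟩,⟨true,0,⟨0,[(4,0),(0,0)]⟩,⟨0,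
  [(2,0),(12,0)]⟩⟩,[]⟩) (.R ⟨2,true,false,false,[0,1],[0,0,0,1],[0,1],(⟨0,[]⟩,⟨0,[]⟩),(⟨0,[(15,0)]⟩,
  ⟨1,[(14,0),(8,0),(0,0)]⟩),⟨0,[]⟩,.k,.k,.k,(.x (-1) ⟨3,[(12,0),(0,0),(13,3),(4,1)]⟩ ⟨1,[(5,0),(1,
  0),(9,0),(8,1)]⟩),.k,.k,⟨false,0,⟨4,[(0,0),(0,1),(10,0),(16,3),(0,0)]⟩,⟨1,[(13,0),(19,0)]⟩⟩,⟨true,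
  0,⟨1,[(14,0),(2,0),(2,0)]⟩,⟨0,[(15,0)]⟩⟩,⟨false,1,⟨7,[(3,3),(8,0),(0,0),(18,1)]⟩,⟨0,[(28,0)]⟩⟩,
  ⟨true,1,⟨13,[(3,5),(1,1),(7,6),(0,6),(1,1),(0,2),(2,2),(12,0)]⟩,⟨0,[(0,0),(14,0),(13,0)]⟩⟩,⟨true,
  0,⟨0,[(29,0)]⟩,⟨1,[(20,0),(0,0)]⟩⟩,⟨false,1,⟨0,[(4,0),(0,0),(27,0)]⟩,⟨4,[(0,1),(0,0),(1,0),(8,0),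
  (2,4)]⟩⟩,[]⟩))))))) (.Q [0,0,0,2,0,0,-1,-1,0,0,1] (.p true [0,0,1] [] (⟨0,[(18,0)]⟩,⟨0,[(17,0)]⟩)
  .k 0 (⟨0,[]⟩,⟨0,[]⟩) .k .k) (.I [1,1,-1,-2,0,0,0,1] (.R ⟨1,true,false,false,[0,0,1],[0,1],[1,1,0,
  -1,0,0,0,1],(⟨0,[(20,0)]⟩,⟨0,[(19,0)]⟩),(⟨0,[(23,0)]⟩,⟨0,[(22,0)]⟩),⟨0,[(2,0)]⟩,.k,.k,.k,.k,(.r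
  (-1) ⟨1,[(0,1),(27,0),(0,0)]⟩ ⟨6,[(1,0),(1,8),(10,2),(2,1),(6,2)]⟩),.k,⟨true,0,⟨0,[(0,0)]⟩,⟨0,[(3,
  0),(20,0)]⟩⟩,⟨false,1,⟨1,[(0,1),(0,1),(26,0),(0,0)]⟩,⟨0,[(16,0)]⟩⟩,⟨true,0,⟨0,[(26,0)]⟩,⟨0,[(27,
  0)]⟩⟩,⟨false,1,⟨7,[(1,3),(6,0),(0,0),(5,3),(13,5)]⟩,⟨0,[(4,0)]⟩⟩,⟨false,0,⟨0,[]⟩,⟨3,[(8,0),(0,0),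
  (19,1)]⟩⟩,⟨true,0,⟨0,[(1,0)]⟩,⟨0,[(4,0),(21,0)]⟩⟩,[]⟩) (.I [0,0,-2,-2,1,0,0,1] (.R ⟨1,true,false,
  false,[0,0,1],[0,1],[1,0,1,1],(⟨0,[(21,0)]⟩,⟨0,[(20,0)]⟩),(⟨0,[(24,0)]⟩,⟨0,[(23,0)]⟩),⟨0,[(3,0)]⟩,
  .k,.k,.k,.k,(.r (-1) ⟨0,[(0,0)]⟩ ⟨1,[(1,0),(2,1),(10,0),(2,0)]⟩),.k,⟨true,0,⟨0,[]⟩,⟨1,[(17,0),(0,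
  0)]⟩⟩,⟨false,1,⟨0,[(0,0),(1,0)]⟩,⟨0,[(17,0)]⟩⟩,⟨true,0,⟨0,[(4,0)]⟩,⟨0,[(5,0),(1,0),(12,0),(0,0),
  (4,0)]⟩⟩,⟨false,1,⟨7,[(2,3),(6,0),(0,0),(5,3),(13,5)]⟩,⟨0,[(5,0)]⟩⟩,⟨false,0,⟨0,[(1,0)]⟩,⟨1,[(0,
  1),(16,0),(0,0)]⟩⟩,⟨true,0,⟨0,[(2,0)]⟩,⟨0,[(5,0),(21,0)]⟩⟩,[]⟩) (.R ⟨1,true,false,false,[0,0,1],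
  [0,1],[0,1,0,0,0,0,0,1],(⟨0,[(21,0)]⟩,⟨0,[(20,0)]⟩),(⟨0,[(24,0)]⟩,⟨0,[(23,0)]⟩),⟨0,[(3,0)]⟩,.k,.k,
  .k,.k,(.x 0 ⟨0,[(3,0),(3,0),(9,1),(5,0)]⟩ ⟨0,[(7,0),(12,0),(3,1),(4,0)]⟩),.k,⟨true,0,⟨0,[(5,0),(1,
  0),(12,0),(0,0),(4,0)]⟩,⟨0,[(0,0),(26,0),(2,0)]⟩⟩,⟨false,1,⟨0,[(7,0),(12,0),(0,0),(7,0)]⟩,⟨0,[(17,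
  0)]⟩⟩,⟨true,0,⟨0,[(32,0)]⟩,⟨0,[]⟩⟩,⟨false,1,⟨7,[(2,3),(6,0),(0,0),(5,3),(13,5)]⟩,⟨0,[(5,0)]⟩⟩,
  ⟨false,0,⟨0,[(28,0)]⟩,⟨0,[(27,0),(2,0)]⟩⟩,⟨true,0,⟨0,[(2,0)]⟩,⟨0,[(5,0),(21,0)]⟩⟩,[]⟩))) (.Q [0,0,
  0,0,0,-1,0,0,0,1,-1] (.ed true [0,1,1] .k) (.Q [0,1,0,1,0,0,-1,-1,1,0,1,-1] (.p true [0,0,1] [0,0,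
  0,1] (⟨0,[(20,0)]⟩,⟨0,[(19,0)]⟩) .k 2 (⟨0,[(11,0)]⟩,⟨1,[(10,0),(8,0),(0,0)]⟩) .k (.x (-1) ⟨3,[(8,
  0),(0,0),(6,3),(3,3),(7,1)]⟩ ⟨0,[(6,0),(12,0)]⟩)) (.I [0,0,0,0,0,0,0,0,-1] (.R ⟨1,false,false,
  false,[1,0,0,-1],[1,-1],[0,0,0,0,0,0,0,0,-1],(⟨1,[(12,0),(8,0),(0,0)]⟩,⟨0,[(13,0)]⟩),(⟨0,[(24,
  0)]⟩,⟨0,[(25,0)]⟩),⟨1,[(2,0),(1,0),(7,0)]⟩,.k,.k,(.r (-1) ⟨3,[(0,1),(2,1),(6,0),(6,1),(12,1),(0,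
  0)]⟩ ⟨0,[(1,0),(4,0),(6,0),(12,0)]⟩),(.r 0 ⟨2,[(0,2),(4,0),(10,0),(2,0),(6,0),(2,0)]⟩ ⟨1,[(1,1),
  (1,1),(9,1),(16,0),(0,0)]⟩),.k,.k,⟨false,0,⟨0,[(0,0),(28,0)]⟩,⟨1,[(1,1),(1,1),(9,1),(16,0),(0,
  0)]⟩⟩,⟨true,0,⟨1,[(12,0),(2,0),(2,0)]⟩,⟨0,[(13,0)]⟩⟩,⟨false,1,⟨3,[(10,0),(0,0),(19,1)]⟩,⟨0,[]⟩⟩,
  ⟨false,1,⟨0,[(1,0),(1,0),(27,0)]⟩,⟨0,[(0,0),(12,0),(15,0)]⟩⟩,⟨true,0,⟨0,[(29,0)]⟩,⟨0,[(28,0)]⟩⟩,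
  ⟨false,1,⟨0,[(1,0),(4,0),(24,0)]⟩,⟨0,[(0,0),(12,0)]⟩⟩,[.o ⟨false,1,⟨1,[(23,0),(4,1),(2,0)]⟩,⟨0,
  [(29,0)]⟩⟩,.o ⟨false,1,⟨3,[(3,1),(10,1),(8,0),(7,2)]⟩,⟨0,[(29,0),(3,0)]⟩⟩,.a ⟨true,0,⟨0,[(13,0)]⟩,
  ⟨1,[(12,0),(8,0),(0,0)]⟩⟩ ⟨true,0,⟨0,[(0,0)]⟩,⟨0,[(1,0),(4,0),(6,0)]⟩⟩ ⟨false,1,⟨7,[(3,1),(8,3),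
  (1,1),(8,0),(4,3),(2,6)]⟩,⟨0,[(13,0),(15,0)]⟩⟩,.o ⟨false,0,⟨0,[(8,0),(4,0),(4,0)]⟩,⟨7,[(10,0),(0,
  0),(0,3),(10,1),(6,3)]⟩⟩]⟩) (.Q [0,0,0,1,0,0,-1,-1,1,0,1,-1] (.p true [0,0,1] [0,0,0,1] (⟨0,[(22,
  0)]⟩,⟨0,[(21,0)]⟩) .k 2 (⟨0,[(13,0)]⟩,⟨1,[(12,0),(8,0),(0,0)]⟩) .k (.x (-1) ⟨3,[(10,0),(0,0),(6,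
  3),(3,3),(7,1)]⟩ ⟨0,[(8,0),(12,0)]⟩)) (.I [0,0,-1,-1,1,0,0,0,-1] (.R ⟨1,false,false,true,[1,0,0,
  -1],[1,-1],[0,0,0,0,0,0,0,0,-1],(⟨1,[(14,0),(8,0),(0,0)]⟩,⟨0,[(15,0)]⟩),(⟨0,[(26,0)]⟩,⟨0,[(27,
  0)]⟩),⟨1,[(4,0),(1,0),(7,0)]⟩,.k,.k,(.r (-1) ⟨0,[(0,0)]⟩ ⟨5,[(2,3),(0,1),(11,1),(2,1),(1,0),(0,0),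
  (6,3)]⟩),(.x (-1) ⟨3,[(12,0),(0,0),(13,3),(4,1)]⟩ ⟨1,[(4,0),(1,0),(10,0),(2,0)]⟩),.k,.k,⟨false,1,
  ⟨1,[(12,0),(18,1),(1,0)]⟩,⟨0,[(1,0),(3,0),(9,0),(13,0)]⟩⟩,⟨true,0,⟨1,[(14,0),(2,0),(2,0)]⟩,⟨0,
  [(15,0)]⟩⟩,⟨false,1,⟨3,[(12,0),(0,0),(19,1)]⟩,⟨0,[]⟩⟩,⟨false,0,⟨0,[(1,0),(3,0)]⟩,⟨1,[(12,0),(2,1),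
  (15,1),(1,0)]⟩⟩,⟨true,0,⟨0,[(31,0)]⟩,⟨0,[(30,0)]⟩⟩,⟨false,0,⟨0,[(1,0),(6,0)]⟩,⟨1,[(12,0),(2,1),
  (17,0)]⟩⟩,[.o ⟨false,0,⟨0,[(8,0),(7,0)]⟩,⟨3,[(12,0),(0,0),(17,3),(1,1)]⟩⟩,.o ⟨false,1,⟨1,[(25,0),
  (4,1),(2,0)]⟩,⟨0,[(31,0)]⟩⟩,.a ⟨true,0,⟨0,[(15,0)]⟩,⟨1,[(14,0),(8,0),(0,0)]⟩⟩ ⟨false,1,⟨1,[(12,0),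
  (20,0)]⟩,⟨0,[(2,0)]⟩⟩ ⟨true,0,⟨5,[(5,1),(8,2),(1,2),(1,0),(11,1)]⟩,⟨0,[(15,0),(15,0)]⟩⟩,.o ⟨false,
  0,⟨0,[(10,0),(4,0),(4,0)]⟩,⟨7,[(12,0),(0,0),(0,3),(10,1),(6,3)]⟩⟩]⟩) (.R ⟨1,false,false,true,[1,0,
  0,-1],[1,-1],[0,0,0,0,0,0,0,0,-1],(⟨1,[(14,0),(8,0),(0,0)]⟩,⟨0,[(15,0)]⟩),(⟨0,[(26,0)]⟩,⟨0,[(27,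
  0)]⟩),⟨1,[(4,0),(1,0),(7,0)]⟩,.k,.k,(.x 0 ⟨1,[(4,0),(1,0),(10,0),(2,0)]⟩ ⟨3,[(12,0),(0,0),(13,3),
  (4,1)]⟩),(.r 0 ⟨0,[(0,0),(11,0)]⟩ ⟨3,[(2,1),(2,1),(7,0),(5,1),(12,1),(0,0)]⟩),.k,.k,⟨false,1,⟨1,
  [(12,0),(18,1),(1,0)]⟩,⟨0,[(1,0),(3,0),(9,0),(13,0)]⟩⟩,⟨true,0,⟨1,[(14,0),(2,0),(2,0)]⟩,⟨0,[(15,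
  0)]⟩⟩,⟨false,1,⟨3,[(12,0),(0,0),(19,1)]⟩,⟨0,[]⟩⟩,⟨false,0,⟨0,[(1,0),(3,0)]⟩,⟨1,[(12,0),(2,1),(15,
  1),(1,0)]⟩⟩,⟨true,0,⟨0,[(31,0)]⟩,⟨0,[(30,0)]⟩⟩,⟨false,0,⟨7,[(0,1),(0,5),(3,3),(5,0),(2,0),(10,0),
  (6,0)]⟩,⟨1,[(12,0),(2,1),(17,0)]⟩⟩,[.o ⟨false,0,⟨0,[(8,0),(7,0)]⟩,⟨3,[(12,0),(0,0),(17,3),(1,
  1)]⟩⟩,.o ⟨false,1,⟨1,[(25,0),(4,1),(2,0)]⟩,⟨0,[(31,0)]⟩⟩,.a ⟨true,0,⟨0,[(15,0)]⟩,⟨1,[(14,0),(8,0),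
  (0,0)]⟩⟩ ⟨false,1,⟨1,[(12,0),(20,0)]⟩,⟨0,[(2,0)]⟩⟩ ⟨true,0,⟨5,[(5,1),(8,2),(1,2),(1,0),(11,1)]⟩,
  ⟨0,[(15,0),(15,0)]⟩⟩,.o ⟨false,0,⟨0,[(10,0),(4,0),(4,0)]⟩,⟨7,[(12,0),(0,0),(0,3),(10,1),(6,
  3)]⟩⟩]⟩)) (.R ⟨1,false,false,true,[1,0,0,-1],[1,0,-1],[1,0,0,-1,0,0,0,0,-1],(⟨1,[(13,0),(8,0),(0,
  0)]⟩,⟨0,[(14,0)]⟩),(⟨0,[(22,0)]⟩,⟨0,[(23,0)]⟩),⟨1,[(3,0),(1,0),(7,0)]⟩,.k,.k,(.r (-1) ⟨1,[(0,1),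
  (12,0),(1,0),(2,0),(12,0),(0,0)]⟩ ⟨5,[(1,3),(0,1),(11,1),(2,1),(1,0),(0,0),(6,3)]⟩),.k,(.r (-1)
  ⟨3,[(0,1),(3,0),(4,0),(1,0),(1,0),(6,1),(0,0),(9,2)]⟩ ⟨0,[(1,0),(4,0)]⟩),.k,⟨false,1,⟨1,[(0,1),(8,
  1),(3,0),(8,0),(0,0),(7,0),(0,0)]⟩,⟨0,[(1,0),(4,0),(21,0)]⟩⟩,⟨true,0,⟨1,[(9,1),(3,0),(8,0),(0,
  0)]⟩,⟨0,[(14,0),(4,0)]⟩⟩,⟨false,1,⟨0,[(29,0),(2,0)]⟩,⟨0,[(30,0)]⟩⟩,⟨true,0,⟨1,[(1,1),(11,0),(1,0),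
  (2,0)]⟩,⟨0,[(0,0),(29,0)]⟩⟩,⟨true,0,⟨0,[]⟩,⟨0,[(34,0)]⟩⟩,⟨true,0,⟨0,[(2,0)]⟩,⟨0,[(0,0)]⟩⟩,[.o
  ⟨false,0,⟨0,[(15,0)]⟩,⟨7,[(10,3),(0,0),(0,0),(11,1),(7,3)]⟩⟩,.o ⟨false,1,⟨1,[(18,1),(5,0),(7,0)]⟩,
  ⟨0,[(8,0)]⟩⟩,.a ⟨true,0,⟨0,[(14,0)]⟩,⟨1,[(13,0),(8,0),(0,0)]⟩⟩ ⟨false,1,⟨1,[(0,1),(12,0),(1,0),(2,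
  0),(13,1)]⟩,⟨0,[(1,0),(28,0)]⟩⟩ ⟨true,0,⟨1,[(13,0),(1,0),(2,0)]⟩,⟨0,[(8,0),(5,0)]⟩⟩,.o ⟨false,0,
  ⟨0,[(9,0),(4,0),(4,0)]⟩,⟨7,[(11,0),(0,0),(0,3),(10,1),(6,3)]⟩⟩]⟩))) (.R ⟨1,false,false,true,[1,0,
  0,-1],[1,0,-1],[1,1,0,-1,0,0,0,0,-1],(⟨1,[(11,0),(8,0),(0,0)]⟩,⟨0,[(12,0)]⟩),(⟨0,[(20,0)]⟩,⟨0,
  [(21,0)]⟩),⟨1,[(1,0),(1,0),(7,0)]⟩,.k,.k,(.x 0 ⟨1,[(1,0),(1,0),(10,0),(2,0)]⟩ ⟨3,[(9,0),(0,0),(13,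
  3),(4,1)]⟩),.k,(.r 0 ⟨1,[(0,1),(6,1),(3,0),(8,0),(0,0),(4,1)]⟩ ⟨3,[(4,3),(4,0),(0,2)]⟩),.k,⟨false,
  0,⟨1,[(0,1),(6,1),(3,0),(8,0),(0,0),(4,1)]⟩,⟨1,[(4,1),(5,0),(18,0)]⟩⟩,⟨true,0,⟨1,[(7,1),(3,0),(8,
  0),(0,0)]⟩,⟨0,[(12,0),(4,0)]⟩⟩,⟨true,0,⟨0,[(27,0)]⟩,⟨0,[(28,0)]⟩⟩,⟨false,1,⟨1,[(10,0),(0,0),(1,0),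
  (2,0),(13,0)]⟩,⟨0,[(0,0),(27,0)]⟩⟩,⟨false,0,⟨0,[]⟩,⟨3,[(9,0),(0,0),(19,1)]⟩⟩,⟨false,1,⟨1,[(10,0),
  (0,0),(1,0),(2,0),(11,1),(1,0)]⟩,⟨0,[(0,0)]⟩⟩,[.o ⟨false,0,⟨0,[(13,0)]⟩,⟨7,[(8,3),(0,0),(0,0),(11,
  1),(7,3)]⟩⟩,.o ⟨false,1,⟨1,[(16,1),(5,0),(7,0)]⟩,⟨0,[(6,0)]⟩⟩,.a ⟨true,0,⟨0,[(12,0)]⟩,⟨1,[(11,0),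
  (8,0),(0,0)]⟩⟩ ⟨false,0,⟨1,[(0,1),(10,0),(1,0),(2,0)]⟩,⟨1,[(10,0),(17,1),(1,0)]⟩⟩ ⟨true,0,⟨1,[(11,
  0),(1,0),(2,0)]⟩,⟨0,[(6,0),(5,0)]⟩⟩,.o ⟨false,0,⟨0,[(7,0),(4,0),(4,0)]⟩,⟨7,[(9,0),(0,0),(0,3),(10,
  1),(6,3)]⟩⟩]⟩)) (.Q [0,0,0,0,0,0,1,0,0,2,-1] (.p false [-1,1,1] [1] (⟨0,[(0,0)]⟩,⟨0,[(19,0),(2,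
  0)]⟩) .k 1 (⟨0,[]⟩,⟨0,[]⟩) .k .k) (.I [1,1,0,-1,0,0,0,-1] (.R ⟨0,false,false,true,[-1,1,1],[0,1],
  [0,0,1,1,0,0,0,1],(⟨0,[(2,0)]⟩,⟨0,[(21,0),(2,0)]⟩),(⟨0,[(25,0)]⟩,⟨0,[(24,0)]⟩),⟨0,[(21,0)]⟩,.k,.k,
  .k,.k,.k,.k,⟨false,1,⟨1,[(20,1),(9,0),(0,0)]⟩,⟨1,[(0,0),(4,0),(21,0)]⟩⟩,⟨true,0,⟨0,[(8,0)]⟩,⟨3,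
  [(1,1),(16,2),(0,0)]⟩⟩,⟨false,1,⟨3,[(10,0),(0,0),(19,1)]⟩,⟨0,[]⟩⟩,⟨true,0,⟨0,[(14,0)]⟩,⟨2,[(1,0),
  (7,0),(10,0)]⟩⟩,⟨false,0,⟨0,[]⟩,⟨0,[]⟩⟩,⟨false,0,⟨0,[]⟩,⟨0,[]⟩⟩,[.o ⟨false,0,⟨0,[(29,0),(3,0)]⟩,
  ⟨3,[(3,1),(10,1),(8,0),(7,2)]⟩⟩,.o ⟨false,0,⟨0,[(29,0)]⟩,⟨1,[(23,0),(4,1),(2,0)]⟩⟩,.o ⟨false,1,⟨1,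
  [(1,1),(21,0),(6,0)]⟩,⟨0,[(8,1),(9,0)]⟩⟩,.a ⟨true,0,⟨0,[(1,0)]⟩,⟨0,[(8,0)]⟩⟩ ⟨true,0,⟨0,[(20,0),
  (8,0)]⟩,⟨0,[(0,0)]⟩⟩ ⟨false,0,⟨0,[(8,0),(20,0)]⟩,⟨11,[(0,3),(0,7),(1,3),(6,0),(0,0),(11,1),(7,
  7)]⟩⟩]⟩) (.R ⟨0,false,false,true,[-1,1,1],[0,1],[0,1,1],(⟨0,[(2,0)]⟩,⟨0,[(21,0),(2,0)]⟩),(⟨0,[(25,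
  0)]⟩,⟨0,[(24,0)]⟩),⟨0,[(21,0)]⟩,.k,.k,.k,.k,.k,.k,⟨false,1,⟨1,[(28,1),(1,0),(0,0)]⟩,⟨0,[(29,0)]⟩⟩,
  ⟨true,0,⟨0,[(8,0)]⟩,⟨3,[(1,1),(16,2),(0,0)]⟩⟩,⟨false,1,⟨3,[(1,3),(1,1),(10,5),(8,0),(7,2)]⟩,⟨0,
  [(0,0)]⟩⟩,⟨true,0,⟨0,[(14,0)]⟩,⟨2,[(1,0),(7,0),(10,0)]⟩⟩,⟨false,0,⟨0,[]⟩,⟨0,[]⟩⟩,⟨false,0,⟨0,[]⟩,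
  ⟨0,[]⟩⟩,[.o ⟨false,0,⟨0,[(29,0),(3,0)]⟩,⟨3,[(3,1),(10,1),(8,0),(7,2)]⟩⟩,.o ⟨false,0,⟨0,[(29,0)]⟩,
  ⟨1,[(23,0),(4,1),(2,0)]⟩⟩,.o ⟨false,1,⟨1,[(1,1),(21,0),(6,0)]⟩,⟨0,[(8,1),(9,0)]⟩⟩,.a ⟨true,0,⟨0,
  [(1,0)]⟩,⟨0,[(8,0)]⟩⟩ ⟨true,0,⟨0,[(33,0)]⟩,⟨0,[]⟩⟩ ⟨false,0,⟨0,[(8,0),(20,0)]⟩,⟨3,[(1,3),(1,1),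
  (10,1),(8,0),(7,2)]⟩⟩]⟩)) (.Q [0,0,2,0,-1,0,-1,0,0,-1,1] (.p true [0,0,1] [1] (⟨0,[(21,0)]⟩,⟨0,
  [(20,0)]⟩) .k 1 (⟨0,[]⟩,⟨0,[]⟩) .k .k) (.Q [0,1,0,-1,0,0,-1,-1,0,-1,1] (.p true [0,0,1] [1] (⟨0,
  [(22,0)]⟩,⟨0,[(21,0)]⟩) .k 1 (⟨0,[]⟩,⟨0,[]⟩) .k .k) (.K ⟨2,[-1,1,1],1,0,(⟨0,[(3,0)]⟩,⟨0,[(22,0),
  (2,0)]⟩),.k,.k,(.r 1 ⟨1,[(1,1),(8,0),(11,0),(0,0),(6,3)]⟩ ⟨1,[(0,1),(3,1),(1,1),(15,1),(0,1),(7,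
  2),(0,0)]⟩),.k,.k,[⟨0,[(22,0),(0,0),(6,0)]⟩,⟨0,[(0,0)]⟩,⟨0,[(1,0)]⟩,⟨3,[(11,0),(0,0),(6,3),(2,3),
  (0,3),(7,1)]⟩]⟩) (.R ⟨2,true,false,true,[0,1],[1,0,-1],[0,1,1,1],(⟨0,[]⟩,⟨0,[]⟩),(⟨0,[(22,0)]⟩,⟨0,
  [(23,0)]⟩),⟨0,[]⟩,.k,.k,.k,.k,.k,.k,⟨true,(-1),⟨0,[(0,0),(0,0),(26,0)]⟩,⟨1,[(4,1),(1,1),(11,1),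
  (12,0),(0,0)]⟩⟩,⟨false,0,⟨0,[(9,0)]⟩,⟨0,[(19,0),(2,0),(0,0),(7,0)]⟩⟩,⟨true,0,⟨0,[(34,0)]⟩,⟨0,[]⟩⟩,
  ⟨false,1,⟨0,[(15,0),(13,0),(2,0)]⟩,⟨0,[(0,0)]⟩⟩,⟨false,0,⟨0,[(30,0)]⟩,⟨0,[(29,0),(2,0)]⟩⟩,⟨true,0,
  ⟨0,[(15,0)]⟩,⟨1,[(10,0),(11,0),(0,0)]⟩⟩,[]⟩)) (.I [0,0,-1,-1,0,0,0,0,1] (.Q [0,0,0,0,0,1,0,0,0,0,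
  0,-1] (.p false [0,0,0,1] [] (⟨0,[(14,0)]⟩,⟨1,[(13,0),(8,0),(0,0)]⟩) .k 0 (⟨0,[]⟩,⟨0,[]⟩) .k .k)
  (.R ⟨0,false,false,true,[0,0,0,1],[1,0,-1],[0,1,0,0,0,0,0,0,1],(⟨0,[(15,0)]⟩,⟨1,[(14,0),(8,0),(0,
  0)]⟩),(⟨0,[(23,0)]⟩,⟨0,[(24,0)]⟩),⟨0,[(0,0)]⟩,.k,.k,(.r 0 ⟨0,[(1,0)]⟩ ⟨11,[(7,3),(4,8),(0,2),(4,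
  3),(2,3),(6,3),(2,3)]⟩),.k,.k,.k,⟨false,0,⟨0,[(1,0),(20,0),(8,0)]⟩,⟨0,[(1,0),(5,0),(4,0)]⟩⟩,⟨true,
  0,⟨0,[(10,0),(4,0)]⟩,⟨1,[(14,0),(5,1),(2,0),(0,0)]⟩⟩,⟨true,0,⟨0,[(35,0)]⟩,⟨0,[]⟩⟩,⟨false,1,⟨1,
  [(12,0),(2,1),(0,1),(16,0)]⟩,⟨1,[(1,1),(9,0),(2,0),(13,1)]⟩⟩,⟨false,0,⟨0,[]⟩,⟨0,[]⟩⟩,⟨false,0,⟨0,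
  []⟩,⟨0,[]⟩⟩,[.o ⟨false,0,⟨0,[(16,0)]⟩,⟨7,[(11,3),(0,0),(0,0),(11,1),(7,3)]⟩⟩,.o ⟨false,1,⟨1,[(19,
  1),(5,0),(7,0)]⟩,⟨0,[(9,0)]⟩⟩,.a ⟨true,0,⟨1,[(14,0),(8,0),(0,0)]⟩,⟨0,[(15,0)]⟩⟩ ⟨false,0,⟨2,[(1,
  2),(5,0),(10,0),(2,0),(6,0),(2,0)]⟩,⟨1,[(12,0),(20,0)]⟩⟩ ⟨true,0,⟨0,[(15,0),(0,0)]⟩,⟨1,[(11,0),(2,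
  0)]⟩⟩,.o ⟨false,0,⟨1,[(14,0),(2,0),(2,0)]⟩,⟨1,[(15,1),(9,0),(6,0)]⟩⟩]⟩) (.R ⟨1,false,false,true,
  [0,0,0,1],[1,-1],[0,0,0,0,0,0,0,0,1],(⟨0,[(15,0)]⟩,⟨1,[(14,0),(8,0),(0,0)]⟩),(⟨0,[(26,0)]⟩,⟨0,
  [(27,0)]⟩),⟨0,[(0,0)]⟩,.k,.k,(.r 0 ⟨0,[(1,0)]⟩ ⟨11,[(7,3),(4,8),(0,2),(4,3),(2,3),(6,3),(2,3)]⟩),
  (.r 0 ⟨2,[(1,2),(5,1),(10,1),(2,1),(6,1),(2,1)]⟩ ⟨0,[(1,0),(10,0)]⟩),.k,.k,⟨false,0,⟨0,[(1,0),(26,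
  0),(2,0)]⟩,⟨1,[(12,0),(17,1),(1,0)]⟩⟩,⟨true,0,⟨2,[(3,0),(11,2),(1,0),(2,1)]⟩,⟨1,[(14,0),(8,0),(0,
  0)]⟩⟩,⟨false,1,⟨3,[(12,0),(0,0),(19,1)]⟩,⟨0,[]⟩⟩,⟨false,1,⟨3,[(5,1),(6,1),(2,3),(0,1),(8,0),(7,
  0)]⟩,⟨1,[(1,1),(12,0),(8,0),(0,0),(3,1),(2,1)]⟩⟩,⟨true,0,⟨0,[(31,0)]⟩,⟨0,[(30,0)]⟩⟩,⟨false,1,⟨1,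
  [(12,0),(2,1),(9,0)]⟩,⟨1,[(1,1),(12,0),(8,0),(0,0),(3,1)]⟩⟩,[.o ⟨false,0,⟨5,[(3,0),(1,2),(10,3),
  (1,0),(1,0),(8,0)]⟩,⟨3,[(12,0),(0,0),(17,3),(1,1)]⟩⟩,.o ⟨false,1,⟨1,[(25,0),(4,1),(2,0)]⟩,⟨0,[(31,
  0)]⟩⟩,.a ⟨true,0,⟨1,[(14,0),(8,0),(0,0)]⟩,⟨0,[(15,0)]⟩⟩ ⟨false,0,⟨0,[(1,0),(26,0)]⟩,⟨3,[(12,2),(0,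
  0)]⟩⟩ ⟨true,0,⟨5,[(3,0),(1,2),(9,5),(0,3),(1,0),(1,0),(8,0)]⟩,⟨1,[(14,0),(8,0),(0,0),(6,1)]⟩⟩,.o
  ⟨false,0,⟨1,[(14,0),(2,0),(2,0)]⟩,⟨1,[(15,1),(9,0),(6,0)]⟩⟩]⟩)) (.I [1,0,0,0,0,0,0,0,-1] (.Q [0,
  -1,0,1,0,0,0,0,-1,0,0,1] (.p true [0,0,0,1] [] (⟨0,[(15,0)]⟩,⟨1,[(14,0),(8,0),(0,0)]⟩) .k 0 (⟨0,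
  []⟩,⟨0,[]⟩) .k .k) (.Q [0,0,0,0,0,1,0,0,0,0,0,-1] (.p false [0,0,0,1] [] (⟨0,[(16,0)]⟩,⟨1,[(15,0),
  (8,0),(0,0)]⟩) .k 0 (⟨0,[]⟩,⟨0,[]⟩) .k .k) (.R ⟨0,false,false,false,[0,0,0,1],[0,-1,1],[1,0,0,0,0,
  0,0,0,1],(⟨0,[(17,0)]⟩,⟨1,[(16,0),(8,0),(0,0)]⟩),(⟨0,[(8,0)]⟩,⟨0,[(25,0),(3,0)]⟩),⟨0,[(0,0)]⟩,.k,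
  .k,(.x 0 ⟨2,[(5,0),(13,0),(2,1),(5,2)]⟩ ⟨3,[(14,0),(0,0),(13,3),(4,1)]⟩),(.r (-1) ⟨3,[(9,3),(4,0),
  (0,2)]⟩ ⟨1,[(1,1),(5,1),(4,1),(3,0),(8,0),(0,0),(4,1)]⟩),.k,.k,⟨false,1,⟨1,[(9,1),(5,0),(18,0)]⟩,
  ⟨1,[(1,1),(5,1),(4,1),(3,0),(8,0),(0,0),(4,1)]⟩⟩,⟨true,0,⟨0,[(17,0),(4,0)]⟩,⟨1,[(12,1),(3,0),(8,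
  0),(0,0)]⟩⟩,⟨true,0,⟨0,[]⟩,⟨0,[(37,0)]⟩⟩,⟨false,0,⟨0,[(1,0),(5,0)]⟩,⟨1,[(15,0),(0,0),(1,0),(2,0),
  (11,1),(1,0)]⟩⟩,⟨false,0,⟨0,[]⟩,⟨0,[]⟩⟩,⟨false,0,⟨0,[]⟩,⟨0,[]⟩⟩,[.o ⟨false,0,⟨0,[(10,0)]⟩,⟨1,[(21,
  1),(5,0),(5,1),(1,0)]⟩⟩,.o ⟨false,1,⟨15,[(7,7),(5,3),(0,2),(0,2),(11,1),(7,7)]⟩,⟨0,[(18,0),(14,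
  0)]⟩⟩,.a ⟨true,0,⟨1,[(16,0),(8,0),(0,0)]⟩,⟨0,[(17,0)]⟩⟩ ⟨false,1,⟨1,[(15,0),(19,0)]⟩,⟨1,[(1,1),(3,
  1),(1,1),(0,2),(0,1),(6,0),(8,2),(3,2),(1,1)]⟩⟩ ⟨true,0,⟨0,[(10,0),(6,0)]⟩,⟨1,[(16,0),(1,0),(2,0),
  (11,1)]⟩⟩,.o ⟨false,0,⟨1,[(16,0),(2,0),(2,0)]⟩,⟨1,[(17,1),(9,0),(6,0)]⟩⟩]⟩) (.R ⟨1,false,false,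
  true,[1,0,0,-1],[1,0,-1],[1,1,0,-1,0,0,0,0,-1],(⟨1,[(16,0),(8,0),(0,0)]⟩,⟨0,[(17,0)]⟩),(⟨0,[(25,
  0)]⟩,⟨0,[(26,0)]⟩),⟨0,[(0,0),(15,0)]⟩,.k,.k,(.x 0 ⟨2,[(5,0),(13,0),(2,1),(5,2)]⟩ ⟨3,[(14,0),(0,0),
  (13,3),(4,1)]⟩),.k,(.r 0 ⟨1,[(1,1),(5,1),(4,1),(3,0),(8,0),(0,0),(4,1)]⟩ ⟨3,[(9,3),(4,0),(0,2)]⟩),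
  .k,⟨false,0,⟨1,[(1,1),(5,1),(4,1),(3,0),(8,0),(0,0),(4,1)]⟩,⟨1,[(9,1),(5,0),(18,0)]⟩⟩,⟨true,0,⟨1,
  [(12,1),(3,0),(8,0),(0,0)]⟩,⟨0,[(17,0),(4,0)]⟩⟩,⟨true,0,⟨0,[(32,0)]⟩,⟨0,[(33,0)]⟩⟩,⟨false,1,⟨1,
  [(15,0),(0,0),(1,0),(2,0),(13,0)]⟩,⟨0,[(1,0),(8,0)]⟩⟩,⟨false,0,⟨0,[]⟩,⟨3,[(14,0),(0,0),(19,1)]⟩⟩,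
  ⟨false,1,⟨1,[(15,0),(0,0),(1,0),(2,0),(11,1),(1,0)]⟩,⟨0,[(1,0),(5,0)]⟩⟩,[.o ⟨false,0,⟨0,[(18,0)]⟩,
  ⟨7,[(13,3),(0,0),(0,0),(11,1),(7,3)]⟩⟩,.o ⟨false,1,⟨1,[(21,1),(5,0),(7,0)]⟩,⟨0,[(11,0)]⟩⟩,.a
  ⟨true,0,⟨0,[(17,0)]⟩,⟨1,[(16,0),(8,0),(0,0)]⟩⟩ ⟨false,0,⟨1,[(1,1),(5,1),(8,0),(1,0),(2,0)]⟩,⟨1,
  [(15,0),(17,1),(1,0)]⟩⟩ ⟨true,0,⟨1,[(16,0),(1,0),(2,0)]⟩,⟨0,[(11,0),(5,0)]⟩⟩,.o ⟨false,0,⟨2,[(5,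
  0),(11,2),(1,0),(2,1)]⟩,⟨7,[(14,0),(0,0),(0,3),(10,1),(6,3)]⟩⟩]⟩)) (.Q [0,0,0,0,0,1,0,0,0,0,0,-1]
  (.p false [0,0,0,1] [] (⟨0,[(16,0)]⟩,⟨1,[(15,0),(8,0),(0,0)]⟩) .k 0 (⟨0,[]⟩,⟨0,[]⟩) .k .k) (.R ⟨0,
  false,false,false,[0,0,0,1],[0,1],[1,0,1,1],(⟨0,[(17,0)]⟩,⟨1,[(16,0),(8,0),(0,0)]⟩),(⟨0,[(29,0)]⟩,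
  ⟨0,[(28,0)]⟩),⟨0,[(0,0)]⟩,.k,.k,(.r (-1) ⟨1,[(1,1),(15,1),(16,0),(0,0)]⟩ ⟨0,[(2,0),(2,0),(1,0),(0,
  1),(0,0),(15,1),(3,1),(3,1)]⟩),(.r (-1) ⟨1,[(1,1),(15,1),(16,0),(0,0)]⟩ ⟨0,[(2,0),(2,0),(1,0),(0,
  1),(0,0),(15,1),(3,1),(3,1)]⟩),.k,.k,⟨true,0,⟨0,[]⟩,⟨1,[(22,0),(0,0)]⟩⟩,⟨false,1,⟨0,[(17,0),(16,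
  0)]⟩,⟨1,[(16,0),(2,0),(2,0)]⟩⟩,⟨false,0,⟨0,[(2,0),(27,0)]⟩,⟨1,[(1,1),(15,1),(16,0),(0,0)]⟩⟩,⟨true,
  0,⟨0,[(2,0),(14,0),(15,0)]⟩,⟨0,[(1,0)]⟩⟩,⟨false,0,⟨0,[]⟩,⟨0,[]⟩⟩,⟨false,0,⟨0,[]⟩,⟨0,[]⟩⟩,[.o
  ⟨false,0,⟨0,[(33,0)]⟩,⟨1,[(27,0),(4,1),(2,0)]⟩⟩,.o ⟨false,1,⟨3,[(14,0),(0,0),(17,3),(1,1)]⟩,⟨5,
  [(5,0),(1,2),(10,3),(1,0),(1,0),(8,0)]⟩⟩,.a ⟨true,0,⟨1,[(16,0),(8,0),(0,0)]⟩,⟨0,[(17,0)]⟩⟩ ⟨false,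
  0,⟨0,[(30,0)]⟩,⟨1,[(32,1),(1,0),(0,0)]⟩⟩ ⟨true,0,⟨0,[(17,0),(15,0)]⟩,⟨5,[(7,1),(8,2),(1,2),(1,0),
  (11,1)]⟩⟩,.o ⟨false,0,⟨1,[(16,0),(2,0),(2,0)]⟩,⟨1,[(17,1),(9,0),(6,0)]⟩⟩]⟩) (.Q [0,0,0,2,0,0,-1,
  -1,-1,-1,1,1] (.p true [0,0,1] [1,0,0,-1] (⟨0,[(26,0)]⟩,⟨0,[(25,0)]⟩) .k 2 (⟨1,[(16,0),(8,0),(0,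
  0)]⟩,⟨0,[(17,0)]⟩) .k (.x (-1) ⟨11,[(4,3),(9,2),(0,2),(6,7),(3,11),(0,1)]⟩ ⟨0,[(12,0),(12,0)]⟩))
  (.R ⟨1,false,false,true,[1,0,0,-1],[1,-1],[0,1,0,0,0,0,0,0,-1],(⟨1,[(17,0),(8,0),(0,0)]⟩,⟨0,[(18,
  0)]⟩),(⟨0,[(29,0)]⟩,⟨0,[(30,0)]⟩),⟨0,[(1,0),(15,0)]⟩,.k,.k,(.r (-1) ⟨3,[(3,1),(4,1),(6,0),(6,1),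
  (12,1),(0,0)]⟩ ⟨0,[(2,0),(15,0),(12,0),(2,0)]⟩),(.r 0 ⟨0,[(0,0),(0,4),(4,0),(1,1),(1,0),(6,2),(12,
  4),(3,1)]⟩ ⟨1,[(2,1),(15,1),(16,0),(0,0)]⟩),.k,.k,⟨false,0,⟨3,[(0,1),(2,1),(10,0),(2,0)]⟩,⟨1,[(2,
  1),(15,1),(16,0),(0,0)]⟩⟩,⟨true,0,⟨1,[(17,0),(2,0),(2,0)]⟩,⟨0,[(18,0)]⟩⟩,⟨true,0,⟨0,[(38,0)]⟩,⟨0,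
  []⟩⟩,⟨true,0,⟨0,[(2,0)]⟩,⟨3,[(0,1),(2,1),(10,0),(3,1),(7,0),(0,0)]⟩⟩,⟨false,0,⟨0,[(34,0)]⟩,⟨0,
  [(33,0),(2,0)]⟩⟩,⟨true,0,⟨0,[(2,0),(31,0)]⟩,⟨0,[(3,0),(14,0)]⟩⟩,[.o ⟨false,0,⟨5,[(6,0),(1,2),(10,
  3),(1,0),(1,0),(8,0)]⟩,⟨3,[(4,1),(11,0),(17,1),(0,0),(0,1)]⟩⟩,.o ⟨false,1,⟨1,[(28,0),(4,1),(2,
  0)]⟩,⟨0,[(34,0)]⟩⟩,.a ⟨true,0,⟨0,[(18,0)]⟩,⟨1,[(17,0),(8,0),(0,0)]⟩⟩ ⟨false,0,⟨0,[(0,0),(0,0),(6,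
  0),(8,0),(12,0)]⟩,⟨1,[(16,0),(19,0)]⟩⟩ ⟨true,0,⟨5,[(8,1),(8,2),(1,2),(1,0),(11,1)]⟩,⟨0,[(18,0),
  (15,0)]⟩⟩,.o ⟨false,0,⟨2,[(6,0),(11,2),(1,0),(2,1)]⟩,⟨7,[(15,0),(0,0),(0,3),(10,1),(6,3)]⟩⟩]⟩)
  (.R ⟨1,false,false,false,[0,0,0,1],[1,0,-1],[1,1,0,-1,0,0,0,0,1],(⟨0,[(18,0)]⟩,⟨1,[(17,0),(8,0),
  (0,0)]⟩),(⟨0,[(26,0)]⟩,⟨0,[(27,0)]⟩),⟨0,[(1,0)]⟩,.k,.k,(.r (-1) ⟨3,[(0,1),(15,0),(1,1),(0,1),(15,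
  1),(0,0)]⟩ ⟨0,[(1,3),(1,0),(2,0),(1,0),(1,0),(6,1),(12,3),(3,1)]⟩),.k,(.r (-1) ⟨7,[(0,1),(7,1),(4,
  1),(2,2),(1,1),(5,1),(0,3),(9,4)]⟩ ⟨0,[(3,0),(6,0)]⟩),.k,⟨false,0,⟨0,[(0,0),(12,0),(4,0),(13,0),
  (1,0)]⟩,⟨1,[(3,1),(6,1),(24,0),(0,0)]⟩⟩,⟨true,0,⟨0,[(13,0),(4,0)]⟩,⟨1,[(17,0),(5,1),(2,0),(0,
  0)]⟩⟩,⟨true,0,⟨0,[(33,0)]⟩,⟨0,[(34,0)]⟩⟩,⟨false,1,⟨0,[(3,0),(14,0),(0,0),(16,0)]⟩,⟨0,[(0,0),(33,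
  1)]⟩⟩,⟨false,0,⟨0,[]⟩,⟨3,[(15,0),(0,0),(19,1)]⟩⟩,⟨false,1,⟨0,[(3,0),(14,0),(0,0),(14,0),(1,0)]⟩,
  ⟨0,[(0,0),(33,0)]⟩⟩,[.o ⟨false,1,⟨1,[(22,1),(5,0),(7,0)]⟩,⟨0,[(12,0)]⟩⟩,.o ⟨false,1,⟨0,[(19,0),
  (16,0)]⟩,⟨0,[(21,0)]⟩⟩,.a ⟨true,0,⟨1,[(17,0),(8,0),(0,0)]⟩,⟨0,[(18,0)]⟩⟩ ⟨true,0,⟨0,[(2,0),(15,
  0)]⟩,⟨0,[(3,0),(30,0)]⟩⟩ ⟨false,1,⟨0,[(18,0),(0,0),(16,0)]⟩,⟨1,[(14,0),(2,0)]⟩⟩,.o ⟨false,0,⟨1,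
  [(17,0),(2,0),(2,0)]⟩,⟨1,[(18,1),(9,0),(6,0)]⟩⟩]⟩)))) (.I [1,-1,2,1,0,0,0,0,-1] (.Q [0,0,0,0,0,0,
  -1,-1,1,0,1,-1] (.p true [0,0,1] [0,0,0,1] (⟨0,[(25,0)]⟩,⟨0,[(24,0)]⟩) .k 2 (⟨0,[(16,0)]⟩,⟨1,[(15,
  0),(8,0),(0,0)]⟩) .k (.x (-1) ⟨11,[(3,3),(9,2),(0,2),(6,7),(3,11),(0,1)]⟩ ⟨0,[(11,0),(12,0)]⟩))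
  (.Q [0,1,0,0,0,0,0,0,-1,0,0,1] (.p true [0,0,0,1] [] (⟨0,[(17,0)]⟩,⟨1,[(16,0),(8,0),(0,0)]⟩) .k 0
  (⟨0,[]⟩,⟨0,[]⟩) .k .k) (.K ⟨2,[0,0,0,1],0,0,(⟨0,[(18,0)]⟩,⟨1,[(17,0),(8,0),(0,0)]⟩),.k,(.r (-1)
  ⟨7,[(1,1),(6,3),(7,2),(1,1),(3,1),(12,3),(0,0)]⟩ ⟨0,[(2,0),(29,0)]⟩),(.x (-1) ⟨3,[(15,0),(0,0),
  (13,3),(4,1)]⟩ ⟨2,[(6,0),(13,0),(2,1),(5,2)]⟩),.k,.k,[⟨0,[(1,0)]⟩,⟨0,[(0,0)]⟩,⟨1,[(18,1),(4,0),(0,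
  0)]⟩,⟨1,[(17,0),(2,0),(2,0)]⟩]⟩) (.R ⟨2,true,false,false,[0,1],[0,0,0,1],[0,1],(⟨0,[]⟩,⟨0,[]⟩),
  (⟨0,[(18,0)]⟩,⟨1,[(17,0),(8,0),(0,0)]⟩),⟨0,[]⟩,.k,.k,.k,(.r 0 ⟨0,[(2,0),(29,0)]⟩ ⟨7,[(1,1),(6,3),
  (7,2),(1,1),(3,1),(12,3),(0,0)]⟩),.k,.k,⟨false,1,⟨1,[(15,0),(19,0),(2,1)]⟩,⟨0,[(0,0),(17,0)]⟩⟩,
  ⟨true,0,⟨1,[(17,0),(2,0),(2,0)]⟩,⟨0,[(18,0)]⟩⟩,⟨false,1,⟨1,[(33,1),(1,0),(0,0)]⟩,⟨0,[(31,0)]⟩⟩,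
  ⟨true,0,⟨3,[(0,0),(0,2),(6,1),(12,0)]⟩,⟨0,[(4,0),(13,0),(13,0)]⟩⟩,⟨true,0,⟨0,[(32,0)]⟩,⟨1,[(23,0),
  (0,0)]⟩⟩,⟨false,0,⟨0,[(0,0)]⟩,⟨3,[(15,2),(0,0),(1,3)]⟩⟩,[]⟩)) (.Q [0,0,0,-1,0,0,1,1,-1,0,-1,1]
  (.p false [0,0,1] [0,0,0,1] (⟨0,[(26,0)]⟩,⟨0,[(25,0)]⟩) .k 2 (⟨0,[(17,0)]⟩,⟨1,[(16,0),(8,0),(0,
  0)]⟩) .k (.r 0 ⟨1,[(0,1),(11,1),(3,0),(8,0),(0,0)]⟩ ⟨2,[(2,0),(1,0),(2,0),(1,1),(5,0),(2,0),(2,0),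
  (13,0)]⟩)) (.Q [0,0,0,0,0,1,0,0,0,0,0,-1] (.p false [0,0,0,1] [] (⟨0,[(18,0)]⟩,⟨1,[(17,0),(8,0),
  (0,0)]⟩) .k 0 (⟨0,[]⟩,⟨0,[]⟩) .k .k) (.R ⟨0,false,false,true,[0,0,0,1],[1,-1],[0,1,-1,-1],(⟨0,
  [(19,0)]⟩,⟨1,[(18,0),(8,0),(0,0)]⟩),(⟨0,[(30,0)]⟩,⟨0,[(31,0)]⟩),⟨0,[(0,0)]⟩,.k,.k,(.r (-1) ⟨3,[(4,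
  1),(4,1),(7,0),(5,1),(12,1),(0,0)]⟩ ⟨1,[(1,1),(5,1),(2,2),(0,1),(6,0),(8,2),(3,2),(3,1)]⟩),(.r 0
  ⟨2,[(4,2),(6,0),(10,0),(2,0),(6,0),(2,0)]⟩ ⟨1,[(1,1),(16,0),(1,0),(2,0),(12,0),(0,0)]⟩),.k,.k,
  ⟨false,1,⟨3,[(16,0),(0,0),(18,1)]⟩,⟨0,[]⟩⟩,⟨true,0,⟨2,[(7,0),(11,2),(1,0),(2,1)]⟩,⟨1,[(18,0),(8,
  0),(0,0)]⟩⟩,⟨false,1,⟨1,[(1,1),(16,0),(1,0),(2,0),(12,0),(0,0)]⟩,⟨0,[(4,0),(27,0)]⟩⟩,⟨true,0,⟨0,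
  [(1,0),(18,0)]⟩,⟨1,[(4,1),(13,0),(8,0),(0,0),(6,1)]⟩⟩,⟨false,0,⟨0,[]⟩,⟨0,[]⟩⟩,⟨false,0,⟨0,[]⟩,⟨0,
  []⟩⟩,[.o ⟨false,0,⟨5,[(7,0),(1,2),(10,3),(1,0),(1,0),(8,0)]⟩,⟨3,[(16,0),(0,0),(17,3),(1,1)]⟩⟩,.o
  ⟨false,1,⟨1,[(29,0),(4,1),(2,0)]⟩,⟨0,[(35,0)]⟩⟩,.a ⟨true,0,⟨1,[(18,0),(8,0),(0,0)]⟩,⟨0,[(19,0)]⟩⟩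
  ⟨false,1,⟨1,[(34,1),(1,0),(0,0)]⟩,⟨0,[(32,0)]⟩⟩ ⟨true,0,⟨5,[(7,0),(1,2),(9,5),(0,3),(1,0),(1,0),
  (8,0)]⟩,⟨1,[(18,0),(8,0),(0,0),(6,1)]⟩⟩,.o ⟨false,0,⟨1,[(18,0),(2,0),(2,0)]⟩,⟨1,[(19,1),(9,0),(6,
  0)]⟩⟩]⟩) (.R ⟨1,false,false,false,[0,0,0,1],[1,-1],[0,0,0,0,0,0,0,0,1],(⟨0,[(19,0)]⟩,⟨1,[(18,0),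
  (8,0),(0,0)]⟩),(⟨0,[(30,0)]⟩,⟨0,[(31,0)]⟩),⟨0,[(0,0)]⟩,.k,.k,(.r (-1) ⟨3,[(4,1),(4,1),(7,0),(5,1),
  (12,1),(0,0)]⟩ ⟨0,[(0,2),(0,0),(5,0),(3,0),(6,1),(12,2),(3,0)]⟩),(.r 0 ⟨2,[(4,2),(6,0),(10,0),(2,
  0),(6,0),(2,0)]⟩ ⟨1,[(1,1),(16,0),(1,0),(2,0),(12,0),(0,0)]⟩),.k,.k,⟨false,0,⟨0,[(4,0),(30,0)]⟩,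
  ⟨1,[(1,1),(16,0),(1,0),(2,0),(12,0),(0,0)]⟩⟩,⟨true,0,⟨2,[(7,0),(11,2),(1,0),(2,1)]⟩,⟨1,[(18,0),(8,
  0),(0,0)]⟩⟩,⟨false,1,⟨3,[(16,0),(0,0),(19,1)]⟩,⟨0,[]⟩⟩,⟨false,1,⟨0,[(1,0),(18,0),(16,0)]⟩,⟨1,[(4,
  1),(13,0),(8,0),(0,0),(6,1)]⟩⟩,⟨true,0,⟨0,[(35,0)]⟩,⟨0,[(34,0)]⟩⟩,⟨false,1,⟨0,[(2,0),(17,0),(16,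
  0)]⟩,⟨1,[(4,1),(13,0),(8,0),(0,0)]⟩⟩,[.o ⟨false,1,⟨1,[(29,0),(4,1),(2,0)]⟩,⟨0,[(35,0)]⟩⟩,.o
  ⟨false,1,⟨3,[(9,1),(10,1),(8,0),(7,2)]⟩,⟨0,[(35,0),(3,0)]⟩⟩,.a ⟨true,0,⟨1,[(18,0),(8,0),(0,0)]⟩,
  ⟨0,[(19,0)]⟩⟩ ⟨true,0,⟨0,[(4,0)]⟩,⟨3,[(1,1),(3,1),(12,0),(1,0),(2,0),(9,1)]⟩⟩ ⟨false,1,⟨3,[(9,1),
  (9,3),(0,1),(8,0),(7,2)]⟩,⟨1,[(18,0),(8,0),(0,0),(6,1)]⟩⟩,.o ⟨false,0,⟨1,[(18,0),(2,0),(2,0)]⟩,⟨1,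
  [(19,1),(9,0),(6,0)]⟩⟩]⟩)) (.R ⟨1,true,false,false,[0,0,1],[0,0,0,1],[0,1,0,0,0,0,0,1],(⟨0,[(27,
  0)]⟩,⟨0,[(26,0)]⟩),(⟨0,[(18,0)]⟩,⟨1,[(17,0),(8,0),(0,0)]⟩),⟨0,[(9,0)]⟩,.k,.k,.k,.k,(.r (-1) ⟨1,
  [(8,0),(4,0),(1,0),(9,0),(0,0),(0,0),(7,0)]⟩ ⟨0,[(3,0),(6,0)]⟩),.k,⟨false,0,⟨1,[(1,1),(11,1),(3,
  0),(8,0),(0,0),(4,1)]⟩,⟨2,[(0,1),(2,0),(1,0),(2,1),(1,1),(7,1),(0,0),(16,1)]⟩⟩,⟨true,0,⟨1,[(13,1),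
  (3,0),(8,0),(0,0)]⟩,⟨0,[(18,0),(4,0)]⟩⟩,⟨true,0,⟨0,[(38,0)]⟩,⟨0,[]⟩⟩,⟨false,1,⟨5,[(0,3),(7,1),(7,
  0),(0,0),(1,0),(2,2),(13,4)]⟩,⟨0,[(1,0)]⟩⟩,⟨false,0,⟨0,[(34,0)]⟩,⟨0,[(33,0),(2,0)]⟩⟩,⟨true,0,⟨0,
  [(0,0)]⟩,⟨0,[(1,0),(31,0)]⟩⟩,[]⟩))) (.Q [0,0,0,0,0,1,0,0,0,0,0,-1] (.p false [0,0,0,1] [] (⟨0,
  [(16,0)]⟩,⟨1,[(15,0),(8,0),(0,0)]⟩) .k 0 (⟨0,[]⟩,⟨0,[]⟩) .k .k) (.R ⟨0,false,false,false,[0,0,0,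
  1],[0,1],[1,0,1,1],(⟨0,[(17,0)]⟩,⟨1,[(16,0),(8,0),(0,0)]⟩),(⟨0,[(29,0)]⟩,⟨0,[(28,0)]⟩),⟨0,[(0,
  0)]⟩,.k,.k,(.x 0 ⟨2,[(5,0),(13,0),(2,1),(5,2)]⟩ ⟨3,[(14,0),(0,0),(13,3),(4,1)]⟩),(.x 0 ⟨2,[(5,0),
  (13,0),(2,1),(5,2)]⟩ ⟨3,[(14,0),(0,0),(13,3),(4,1)]⟩),.k,.k,⟨true,0,⟨0,[]⟩,⟨1,[(22,0),(0,0)]⟩⟩,
  ⟨false,1,⟨0,[(17,0),(16,0)]⟩,⟨1,[(16,0),(2,0),(2,0)]⟩⟩,⟨true,0,⟨0,[(3,0)]⟩,⟨1,[(1,0),(0,0),(29,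
  0)]⟩⟩,⟨false,1,⟨1,[(14,0),(2,1),(15,1),(1,0)]⟩,⟨1,[(1,1),(5,1),(8,0),(1,0),(2,0),(8,3)]⟩⟩,⟨false,
  0,⟨0,[]⟩,⟨0,[]⟩⟩,⟨false,0,⟨0,[]⟩,⟨0,[]⟩⟩,[.o ⟨false,0,⟨0,[(33,0)]⟩,⟨1,[(27,0),(4,1),(2,0)]⟩⟩,.o
  ⟨false,1,⟨3,[(14,0),(0,0),(17,3),(1,1)]⟩,⟨5,[(5,0),(1,2),(10,3),(1,0),(1,0),(8,0)]⟩⟩,.a ⟨true,0,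
  ⟨1,[(16,0),(8,0),(0,0)]⟩,⟨0,[(17,0)]⟩⟩ ⟨false,0,⟨0,[(30,0)]⟩,⟨1,[(32,1),(1,0),(0,0)]⟩⟩ ⟨true,0,⟨0,
  [(17,0),(15,0)]⟩,⟨5,[(7,1),(8,2),(1,2),(1,0),(11,1)]⟩⟩,.o ⟨false,0,⟨1,[(16,0),(2,0),(2,0)]⟩,⟨1,
  [(17,1),(9,0),(6,0)]⟩⟩]⟩) (.R ⟨1,false,false,true,[0,0,0,1],[1,0,-1],[1,1,0,-1,0,0,0,0,1],(⟨0,
  [(17,0)]⟩,⟨1,[(16,0),(8,0),(0,0)]⟩),(⟨0,[(25,0)]⟩,⟨0,[(26,0)]⟩),⟨0,[(0,0)]⟩,.k,.k,(.x 0 ⟨2,[(5,0),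
  (13,0),(2,1),(5,2)]⟩ ⟨3,[(14,0),(0,0),(13,3),(4,1)]⟩),.k,(.r 0 ⟨1,[(1,1),(5,0),(4,0),(11,0),(0,0),
  (0,0),(3,1)]⟩ ⟨3,[(9,3),(4,2),(0,0)]⟩),.k,⟨false,0,⟨1,[(1,1),(5,0),(4,0),(11,0),(0,0),(0,0),(3,
  1)]⟩,⟨1,[(9,1),(4,0),(19,0)]⟩⟩,⟨true,0,⟨0,[(12,0),(4,0)]⟩,⟨1,[(16,0),(5,1),(2,0),(0,0)]⟩⟩,⟨true,0,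
  ⟨0,[(32,0)]⟩,⟨0,[(33,0)]⟩⟩,⟨false,1,⟨1,[(14,0),(2,1),(0,1),(16,0)]⟩,⟨3,[(1,3),(5,1),(5,0),(2,1),
  (8,0),(0,0),(3,7)]⟩⟩,⟨false,0,⟨0,[]⟩,⟨3,[(14,0),(0,0),(19,1)]⟩⟩,⟨false,1,⟨1,[(14,0),(2,1),(0,1),
  (14,1),(1,0)]⟩,⟨1,[(1,1),(5,1),(8,0),(8,0),(0,0),(3,3)]⟩⟩,[.o ⟨false,0,⟨0,[(18,0)]⟩,⟨7,[(13,3),(0,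
  0),(0,0),(11,1),(7,3)]⟩⟩,.o ⟨false,1,⟨1,[(21,1),(5,0),(7,0)]⟩,⟨0,[(11,0)]⟩⟩,.a ⟨true,0,⟨1,[(16,0),
  (8,0),(0,0)]⟩,⟨0,[(17,0)]⟩⟩ ⟨false,0,⟨0,[(1,0),(5,0),(13,0),(8,1)]⟩,⟨1,[(14,0),(18,1),(1,0)]⟩⟩
  ⟨true,0,⟨0,[(17,0),(0,0)]⟩,⟨1,[(13,0),(2,0)]⟩⟩,.o ⟨false,0,⟨1,[(16,0),(2,0),(2,0)]⟩,⟨1,[(17,1),(9,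
  0),(6,0)]⟩⟩]⟩))))))))))

theorem ok7 : chk (cU (-1) false 3) t7 r3 = true := by decide +kernel

noncomputable def t8 : Tre :=
  .I [1,0,-1,-1,0,0,0,1] t6 t7

theorem ok8 : chk (cU (-1) false 3) t8 r2 = true :=
  chk_I (e' := [0,0,1,1,0,0,0,-1]) (by decide +kernel) (by decide +kernel) ok6 ok7

noncomputable def t9 : Tre :=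
  .Q [0,0,0,1,0,0,-1,-1,0,0,1] (.p true [0,0,1] [] (⟨0,[(15,0)]⟩,⟨0,[(14,0)]⟩) .k 0 (⟨0,[]⟩,⟨0,[]⟩)
  .k .k) t1 t8

theorem ok9 : chk (cU (-1) false 3) t9 l1 = true :=
  chk_Q (e' := [0,0,0,-1,0,0,1,1,0,0,-1]) (by decide +kernel) (by decide +kernel) ok1 ok8

noncomputable def t10 : Tre :=
  (.Q [0,1,0,-1,0,0,1,1,0,0,-1] (.p false [0,0,1] [] (⟨0,[(15,0)]⟩,⟨0,[(14,0)]⟩) .k 0 (⟨0,[]⟩,⟨0,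
  []⟩) .k .k) (.R ⟨2,false,false,true,[0,1],[0,0,1],[0,1],(⟨0,[]⟩,⟨0,[]⟩),(⟨0,[(16,0)]⟩,⟨0,[(15,
  0)]⟩),⟨0,[]⟩,.k,.k,.k,.k,.k,.k,⟨false,1,⟨0,[(1,0),(10,0),(11,0)]⟩,⟨0,[(14,0)]⟩⟩,⟨true,0,⟨0,[(12,
  0)]⟩,⟨0,[(1,0),(12,0)]⟩⟩,⟨false,1,⟨1,[(22,1),(1,0),(0,0)]⟩,⟨0,[(20,0)]⟩⟩,⟨true,0,⟨0,[(0,0)]⟩,⟨0,
  [(1,0),(21,0)]⟩⟩,⟨true,0,⟨0,[(21,0)]⟩,⟨1,[(12,0),(0,0)]⟩⟩,⟨true,0,⟨0,[(10,0)]⟩,⟨0,[(1,0)]⟩⟩,[.o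
  ⟨false,0,⟨0,[(10,0)]⟩,⟨0,[(8,0),(16,0)]⟩⟩,.a ⟨true,0,⟨1,[(3,0),(11,0),(0,0)]⟩,⟨0,[(1,0)]⟩⟩ ⟨false,
  1,⟨3,[(4,0),(0,0),(18,1)]⟩,⟨0,[]⟩⟩ ⟨true,0,⟨1,[(3,0),(5,0),(2,0)]⟩,⟨0,[(1,0)]⟩⟩,.o ⟨false,1,⟨3,
  [(4,0),(0,0),(18,1)]⟩,⟨0,[(2,0),(9,0)]⟩⟩,.e ⟨true,0,⟨0,[(21,0)]⟩,⟨1,[(12,0),(0,0)]⟩⟩ ⟨true,0,⟨0,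
  [(10,0)]⟩,⟨0,[(1,0)]⟩⟩]⟩) (.R ⟨2,true,false,true,[0,1],[0,0,1],[0,1,1,1],(⟨0,[]⟩,⟨0,[]⟩),(⟨0,[(16,
  0)]⟩,⟨0,[(15,0)]⟩),⟨0,[]⟩,.k,.k,.k,.k,.k,.k,⟨false,0,⟨0,[(0,0),(11,0),(8,0)]⟩,⟨1,[(14,1),(7,1),(1,
  0),(0,0)]⟩⟩,⟨true,0,⟨0,[(12,0)]⟩,⟨0,[(1,0),(12,0)]⟩⟩,⟨true,0,⟨0,[(27,0)]⟩,⟨0,[]⟩⟩,⟨false,1,⟨7,[(3,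
  3),(0,0),(0,0),(11,1),(4,7),(2,3)]⟩,⟨0,[(0,0)]⟩⟩,⟨false,0,⟨0,[(23,0)]⟩,⟨0,[(22,0),(2,0)]⟩⟩,⟨true,
  0,⟨0,[(10,0)]⟩,⟨0,[(1,0)]⟩⟩,[]⟩))

theorem ok10 : chk (cU (-1) false 3) t10 r1 = true := by decide +kernel

noncomputable def t11 : Tre :=
  .Q [0,0,0,0,0,0,1,1,0,0,-1] (.p false [0,0,1] [] (⟨0,[(14,0)]⟩,⟨0,[(13,0)]⟩) .k 0 (⟨0,[]⟩,⟨0,[]⟩)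
  .k .k) t9 t10

theorem ok11 : chk (cU (-1) false 3) t11 r0 = true :=
  chk_Q (e' := [0,0,0,0,0,0,-1,-1,0,0,1]) (by decide +kernel) (by decide +kernel) ok9 ok10

noncomputable def t12 : Tre :=
  .Q [0,0,0,0,0,0,1,0,0,1,-1] (.p false [0,0,1] [1] (⟨0,[(13,0)]⟩,⟨0,[(12,0)]⟩) .k 1 (⟨0,[]⟩,⟨0,
  []⟩) .k .k) t0 t11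

theorem ok12 : chk (cU (-1) false 3) t12 base = true :=
  chk_Q (e' := [0,0,0,0,0,0,-1,0,0,-1,1]) (by decide +kernel) (by decide +kernel) ok0 ok11

theorem ok : chkB (cU (-1) false 3) (fax (fcU (-1)) true 2 (-1) 3 true (tU false)) t12 base = true :=
  chkB_of (by decide +kernel) ok12

end Helper11.CT.T1_2_m1_1_v
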