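import Pool.Agent.Helper11.CT.T.T1_34_m1_m1_u_q

set_option autoImplicit false
set_option linter.all false

namespace Helper11.CT.T1_34_m1_m1_u

open Helper11.CT

noncomputable def t2 : Tre :=
  (.R ⟨0,false,false,false,[1,0,-1],[0,1],[1,1,1],(⟨0,[(18,0)]⟩,⟨0,[(19,0)]⟩),(⟨0,[(22,0)]⟩,⟨0,[(21,
  0)]⟩),⟨0,[(1,0)]⟩,.k,.k,.k,.k,.k,.k,⟨true,0,⟨0,[(24,0)]⟩,⟨2,[(0,0),(11,0),(2,0),(7,0),(1,1)]⟩⟩,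
  ⟨false,1,⟨2,[(0,0),(4,0),(0,1),(19,2)]⟩,⟨0,[(12,0)]⟩⟩,⟨false,0,⟨1,[(0,0),(4,0),(6,0),(0,1),(9,
  0)]⟩,⟨1,[(17,1),(8,0),(0,0)]⟩⟩,⟨true,0,⟨0,[(0,0),(12,0)]⟩,⟨0,[(2,0)]⟩⟩,⟨false,0,⟨0,[]⟩,⟨0,[]⟩⟩,
  ⟨false,0,⟨0,[]⟩,⟨0,[]⟩⟩,[.o ⟨false,0,⟨0,[(25,0)]⟩,⟨1,[(20,0),(3,1),(2,0)]⟩⟩,.a ⟨true,0,⟨0,[(0,
  0)]⟩,⟨0,[(24,0)]⟩⟩ ⟨false,0,⟨0,[]⟩,⟨3,[(7,0),(0,0),(17,1)]⟩⟩ ⟨true,0,⟨0,[(0,0),(3,0)]⟩,⟨0,[(12,0),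
  (11,0)]⟩⟩,.o ⟨false,1,⟨3,[(7,0),(0,0),(3,3),(13,1)]⟩,⟨0,[(4,0)]⟩⟩,.o ⟨false,0,⟨0,[(12,0)]⟩,⟨7,[(6,
  3),(0,0),(0,0),(11,1),(5,3)]⟩⟩]⟩)

theorem ok2 : chk (cU (-1) true 10) t2 l4 = true := by decide +kernel

noncomputable def t5 : Tre :=
  (.Q [0,1,0,-1,0,0,1,1,0,1,-1] (.p false [0,0,1] [1] (⟨0,[(24,0)]⟩,⟨0,[(23,0)]⟩) .k 1 (⟨0,[]⟩,⟨0,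
  []⟩) .k .k) (.K ⟨1,[1,1,-1],1,0,(⟨0,[(24,0),(3,0)]⟩,⟨0,[(9,0)]⟩),.k,.k,(.r 1 ⟨1,[(1,1),(0,0),(1,
  0),(26,3)]⟩ ⟨3,[(0,3),(4,0),(0,1),(4,1),(17,0),(2,4),(0,2)]⟩),.k,.k,[⟨0,[(1,0)]⟩,⟨7,[(5,3),(7,2),
  (0,2),(17,1)]⟩,⟨0,[(0,0)]⟩,⟨0,[(2,0)]⟩]⟩) (.Q [0,-1,0,2,0,0,0,0,0,1] (.pp false [-1,1]) (.I [0,0,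
  2,2,-1] (.R ⟨2,true,false,true,[0,1],[1,-1],[0,1,1,1],(⟨0,[]⟩,⟨0,[]⟩),(⟨0,[(29,0)]⟩,⟨0,[(30,0)]⟩),
  ⟨0,[]⟩,.k,.k,.k,(.r 1 ⟨0,[(0,0)]⟩ ⟨0,[(32,1),(1,0),(0,0)]⟩),.k,.k,⟨true,(-1),⟨0,[(0,0)]⟩,⟨0,[(31,
  0),(0,1),(1,0)]⟩⟩,⟨false,0,⟨7,[(0,0),(2,1),(3,0),(0,1),(19,2),(2,0)]⟩,⟨0,[(17,0),(0,0),(15,0)]⟩⟩,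
  ⟨true,0,⟨0,[(37,0)]⟩,⟨0,[]⟩⟩,⟨false,1,⟨0,[(8,0),(23,0),(2,0)]⟩,⟨0,[(1,0)]⟩⟩,⟨false,0,⟨0,[(33,0)]⟩,
  ⟨0,[(32,0),(2,0)]⟩⟩,⟨true,0,⟨0,[(8,0)]⟩,⟨3,[(1,2),(11,1),(0,0),(22,0)]⟩⟩,[]⟩) (.Q [0,0,0,0,0,-2,0,
  0,0,0,1] (.p true [0,0,1] [] (⟨0,[(27,0)]⟩,⟨0,[(26,0)]⟩) .k 0 (⟨0,[]⟩,⟨0,[]⟩) .k .k) (.R ⟨1,false,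
  false,false,[0,-1,1],[1,-1],[0,1,1],(⟨0,[(12,0)]⟩,⟨0,[(27,0),(3,0)]⟩),(⟨0,[(30,0)]⟩,⟨0,[(31,0)]⟩),
  ⟨0,[(0,0)]⟩,.k,.k,(.r (-2) ⟨1,[(1,0),(12,1),(7,1),(12,0),(0,1)]⟩ ⟨1,[(3,0),(0,1),(15,0),(13,2)]⟩),
  .k,.k,.k,⟨true,(-1),⟨0,[(3,0),(0,0),(9,0),(7,0),(11,0)]⟩,⟨1,[(1,0),(34,0)]⟩⟩,⟨false,1,⟨7,[(8,3),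
  (7,0),(0,0),(17,5)]⟩,⟨1,[(15,0),(2,0),(0,0)]⟩⟩,⟨false,(-1),⟨1,[(3,0),(0,1),(15,0),(13,0)]⟩,⟨5,[(1,
  5),(0,3),(5,1),(5,1),(7,5),(12,0),(0,4)]⟩⟩,⟨true,0,⟨1,[(3,0),(7,0)]⟩,⟨0,[(18,0),(0,0),(2,0)]⟩⟩,
  ⟨false,(-1),⟨1,[(3,0),(0,1),(15,0),(13,2)]⟩,⟨3,[(1,4),(0,1),(5,0),(5,1),(7,3),(9,0),(3,2)]⟩⟩,
  ⟨false,0,⟨0,[(3,0)]⟩,⟨4,[(1,2),(0,1),(1,2),(9,2),(1,0),(0,0),(4,4),(13,2)]⟩⟩,[.o ⟨false,1,⟨1,[(29,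
  0),(3,1),(2,0)]⟩,⟨0,[(34,0)]⟩⟩,.o ⟨false,1,⟨5,[(1,2),(2,1),(3,0),(20,2),(2,0),(3,1)]⟩,⟨0,[(34,0),
  (3,0)]⟩⟩,.o ⟨false,0,⟨0,[(24,0)]⟩,⟨7,[(8,3),(7,0),(0,0),(17,5)]⟩⟩,.a ⟨true,(-1),⟨0,[(4,0)]⟩,⟨0,
  [(1,0),(0,0),(0,0),(10,0),(7,0)]⟩⟩ ⟨true,0,⟨0,[(38,0)]⟩,⟨0,[]⟩⟩ ⟨false,2,⟨3,[(1,1),(4,1),(1,1),(7,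
  0),(18,1),(0,0)]⟩,⟨0,[(4,0),(29,0)]⟩⟩]⟩) (.R ⟨0,false,false,false,[0,-1,1],[1,-1],[0,1,1],(⟨0,
  [(12,0)]⟩,⟨0,[(27,0),(3,0)]⟩),(⟨0,[(30,0)]⟩,⟨0,[(31,0)]⟩),⟨0,[(0,0)]⟩,.k,.k,(.r (-2) ⟨1,[(1,0),
  (12,1),(7,1),(12,0),(0,1)]⟩ ⟨1,[(3,0),(0,1),(15,0),(13,2)]⟩),.k,.k,.k,⟨true,(-1),⟨0,[(3,0),(0,0),
  (9,0),(7,0),(11,0)]⟩,⟨1,[(1,0),(34,0)]⟩⟩,⟨false,1,⟨7,[(8,3),(7,0),(0,0),(17,5)]⟩,⟨1,[(15,0),(2,0),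
  (0,0)]⟩⟩,⟨false,(-1),⟨1,[(3,0),(0,1),(15,0),(13,0)]⟩,⟨5,[(1,5),(0,3),(5,1),(5,1),(7,5),(12,0),(0,
  4)]⟩⟩,⟨true,0,⟨1,[(3,0),(7,0)]⟩,⟨0,[(18,0),(0,0),(2,0)]⟩⟩,⟨false,0,⟨0,[]⟩,⟨0,[]⟩⟩,⟨false,0,⟨0,[]⟩,
  ⟨0,[]⟩⟩,[.o ⟨false,1,⟨1,[(29,0),(3,1),(2,0)]⟩,⟨0,[(34,0)]⟩⟩,.o ⟨false,1,⟨5,[(1,2),(2,1),(3,0),(20,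
  2),(2,0),(3,1)]⟩,⟨0,[(34,0),(3,0)]⟩⟩,.o ⟨false,0,⟨0,[(24,0)]⟩,⟨7,[(8,3),(7,0),(0,0),(17,5)]⟩⟩,.a
  ⟨true,(-1),⟨0,[(4,0)]⟩,⟨0,[(1,0),(0,0),(0,0),(10,0),(7,0)]⟩⟩ ⟨true,0,⟨0,[(38,0)]⟩,⟨0,[]⟩⟩ ⟨false,
  2,⟨3,[(1,1),(4,1),(1,1),(7,0),(18,1),(0,0)]⟩,⟨0,[(4,0),(29,0)]⟩⟩]⟩))) (.Q [0,0,0,0,0,-1,0,0,0,1,0,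
  -1] (.p false [0,0,0,1] [1] (⟨0,[(17,0)]⟩,⟨0,[(16,0)]⟩) .k 1 (⟨0,[]⟩,⟨0,[]⟩) .k .k) (.Q [0,-1,-1,
  0,1,0,0,0,-1,0,0,1] (.p true [0,0,0,1] [] (⟨0,[(18,0)]⟩,⟨0,[(17,0)]⟩) .k 0 (⟨0,[]⟩,⟨0,[]⟩) .k .k)
  (.I [1,-1,0,0,0,0,0,-1,1] (.Q [0,0,-1,-1,1,0,1,1,-1,0,-1,1] (.p false [0,0,1] [0,0,0,1] (⟨0,[(29,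
  0)]⟩,⟨0,[(28,0)]⟩) .k 2 (⟨0,[(20,0)]⟩,⟨0,[(19,0)]⟩) .k (.r (-1) ⟨5,[(1,3),(7,1),(7,0),(1,3),(3,5),
  (2,1),(10,0)]⟩ ⟨0,[(0,0),(38,0)]⟩)) (.R ⟨1,false,false,false,[1,0,0,-1],[1,0,-1],[0,1,0,0,0,0,0,0,
  -1],(⟨0,[(20,0)]⟩,⟨0,[(21,0)]⟩),(⟨0,[(29,0)]⟩,⟨0,[(30,0)]⟩),⟨0,[(3,0)]⟩,.k,.k,(.x (-1) ⟨3,[(18,0),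
  (0,0),(11,1),(0,3)]⟩ ⟨0,[(33,0)]⟩),.k,(.x 0 ⟨0,[(14,0),(0,0)]⟩ ⟨7,[(10,3),(7,2),(0,2),(9,7),(3,7),
  (3,1)]⟩),.k,⟨false,1,⟨0,[(0,0),(4,0),(10,0),(3,0),(3,0),(11,0)]⟩,⟨0,[(1,0)]⟩⟩,⟨true,0,⟨9,[(6,1),
  (3,5),(7,0),(0,0),(0,9)]⟩,⟨0,[(15,0),(5,0)]⟩⟩,⟨true,0,⟨0,[(40,0)]⟩,⟨0,[]⟩⟩,⟨false,0,⟨18,[(1,16),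
  (4,2),(3,10),(8,0),(0,18),(4,1),(0,1),(11,1)]⟩,⟨0,[(0,0),(35,0)]⟩⟩,⟨false,0,⟨0,[(36,0)]⟩,⟨0,[(35,
  0),(2,0)]⟩⟩,⟨false,0,⟨2,[(1,0),(3,1),(0,0),(3,0),(8,0),(0,2),(15,0)]⟩,⟨0,[(0,0)]⟩⟩,[.o ⟨false,0,
  ⟨1,[(5,0),(7,0)]⟩,⟨3,[(18,0),(0,0),(4,3),(13,1)]⟩⟩,.o ⟨false,1,⟨3,[(5,0),(7,0),(11,1),(5,0),(6,
  2)]⟩,⟨0,[(24,0)]⟩⟩,.o ⟨false,1,⟨1,[(21,1),(9,0),(5,0)]⟩,⟨2,[(6,0),(3,0),(4,0),(4,2),(10,0)]⟩⟩,.a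
  ⟨true,0,⟨0,[(21,0)]⟩,⟨0,[(20,0)]⟩⟩ ⟨false,1,⟨1,[(18,0),(18,0)]⟩,⟨1,[(1,1),(8,0),(9,1),(0,1),(2,1),
  (9,0)]⟩⟩ ⟨true,0,⟨1,[(5,0),(7,0),(6,1)]⟩,⟨0,[(21,0),(2,0)]⟩⟩]⟩) (.R ⟨1,true,false,false,[0,0,1],
  [0,0,0,1],[0,1,0,0,0,0,0,1],(⟨0,[(30,0)]⟩,⟨0,[(29,0)]⟩),(⟨0,[(21,0)]⟩,⟨0,[(20,0)]⟩),⟨0,[(14,0)]⟩,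
  .k,.k,.k,.k,(.r (-2) ⟨1,[(16,1),(1,0),(5,1),(12,0),(0,1)]⟩ ⟨0,[(0,0),(14,0),(5,0)]⟩),.k,⟨false,1,
  ⟨0,[(2,0),(2,0),(10,0),(3,0),(3,1)]⟩,⟨0,[(1,0)]⟩⟩,⟨true,0,⟨9,[(6,1),(3,5),(7,0),(0,0),(0,9)]⟩,⟨0,
  [(15,0),(5,0)]⟩⟩,⟨true,0,⟨0,[(40,0)]⟩,⟨0,[]⟩⟩,⟨false,0,⟨3,[(0,1),(12,1),(5,0),(0,1),(13,1),(3,
  0)]⟩,⟨0,[(2,0),(21,0)]⟩⟩,⟨false,0,⟨0,[(36,0)]⟩,⟨0,[(35,0),(2,0)]⟩⟩,⟨true,(-1),⟨0,[(0,0)]⟩,⟨0,[(2,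
  0),(21,0),(10,0)]⟩⟩,[]⟩)) (.Q [0,0,1,0,0,0,1,1,1,1,-1,-1] (.p false [0,0,1] [1,0,0,-1] (⟨0,[(29,
  0)]⟩,⟨0,[(28,0)]⟩) .k 2 (⟨0,[(19,0)]⟩,⟨0,[(20,0)]⟩) .k (.r (-1) ⟨0,[(7,0),(15,0),(2,0)]⟩ ⟨0,[(0,
  0),(2,0),(2,1),(9,0)]⟩)) (.I [1,1,-2,-2,1,0,0,0,-1] (.R ⟨1,false,false,false,[1,0,0,-1],[0,1],[1,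
  1,0,-1,0,0,0,0,-1],(⟨0,[(21,0)]⟩,⟨0,[(22,0)]⟩),(⟨0,[(34,0)]⟩,⟨0,[(33,0)]⟩),⟨0,[(4,0)]⟩,.k,.k,(.x
  (-1) ⟨3,[(19,0),(0,0),(11,1),(0,3)]⟩ ⟨0,[(34,0)]⟩),(.x (-1) ⟨3,[(19,0),(0,0),(11,1),(0,3)]⟩ ⟨0,
  [(34,0)]⟩),(.x 0 ⟨0,[(11,0),(4,1),(16,1)]⟩ ⟨3,[(19,0),(0,0),(13,7),(3,1)]⟩),.k,⟨false,1,⟨0,[(0,
  0)]⟩,⟨0,[(1,0),(4,0),(15,0),(14,0)]⟩⟩,⟨true,0,⟨0,[(21,0)]⟩,⟨2,[(7,0),(3,0),(4,0),(5,2),(9,0)]⟩⟩,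
  ⟨true,0,⟨0,[(36,0)]⟩,⟨0,[(37,0)]⟩⟩,⟨false,0,⟨0,[(1,0),(6,0)]⟩,⟨0,[(3,0),(8,0)]⟩⟩,⟨false,0,⟨0,[]⟩,
  ⟨3,[(19,0),(0,0),(18,1)]⟩⟩,⟨false,0,⟨0,[(1,0),(6,0),(28,0)]⟩,⟨0,[(3,0),(1,0)]⟩⟩,[.o ⟨false,0,⟨0,
  [(37,0)]⟩,⟨3,[(5,1),(13,0),(0,0),(11,0),(6,0)]⟩⟩,.o ⟨false,1,⟨3,[(19,0),(0,0),(16,3),(1,1)]⟩,⟨0,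
  [(12,0)]⟩⟩,.o ⟨false,1,⟨1,[(22,1),(9,0),(5,0)]⟩,⟨2,[(7,0),(3,0),(4,0),(4,2),(10,0)]⟩⟩,.a ⟨true,0,
  ⟨0,[(22,0)]⟩,⟨0,[(21,0)]⟩⟩ ⟨false,1,⟨3,[(0,1),(18,0),(19,0)]⟩,⟨0,[(1,0),(4,0),(15,0)]⟩⟩ ⟨true,0,
  ⟨0,[(21,0),(15,0)]⟩,⟨0,[(12,0),(9,0)]⟩⟩]⟩) (.R ⟨1,false,false,false,[1,0,0,-1],[0,1],[0,1,0,0,0,0,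
  0,0,-1],(⟨0,[(21,0)]⟩,⟨0,[(22,0)]⟩),(⟨0,[(34,0)]⟩,⟨0,[(33,0)]⟩),⟨0,[(4,0)]⟩,.k,.k,(.x (-1) ⟨3,
  [(19,0),(0,0),(11,1),(0,3)]⟩ ⟨0,[(34,0)]⟩),(.x (-1) ⟨3,[(19,0),(0,0),(11,1),(0,3)]⟩ ⟨0,[(34,0)]⟩),
  (.x 0 ⟨0,[(11,0),(4,1),(16,1)]⟩ ⟨3,[(19,0),(0,0),(13,7),(3,1)]⟩),.k,⟨false,1,⟨1,[(2,1),(2,1),(2,
  1),(9,0),(2,0),(0,0),(15,1)]⟩,⟨3,[(0,1),(19,0),(18,0)]⟩⟩,⟨true,0,⟨0,[(21,0)]⟩,⟨2,[(7,0),(3,0),(4,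
  0),(5,2),(9,0)]⟩⟩,⟨true,0,⟨0,[(41,0)]⟩,⟨0,[]⟩⟩,⟨false,0,⟨3,[(0,1),(19,0),(0,3),(17,0)]⟩,⟨0,[(3,0),
  (8,0)]⟩⟩,⟨false,0,⟨0,[(37,0)]⟩,⟨0,[(36,0),(2,0)]⟩⟩,⟨false,0,⟨5,[(0,3),(8,1),(9,0),(0,0),(0,5),(15,
  3)]⟩,⟨0,[(3,0),(1,0)]⟩⟩,[.o ⟨false,0,⟨0,[(37,0)]⟩,⟨3,[(5,1),(13,0),(0,0),(11,0),(6,0)]⟩⟩,.o
  ⟨false,1,⟨11,[(0,3),(8,7),(9,6),(0,0),(16,3)]⟩,⟨0,[(12,0)]⟩⟩,.o ⟨false,1,⟨1,[(22,1),(9,0),(5,0)]⟩,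
  ⟨2,[(7,0),(3,0),(4,0),(4,2),(10,0)]⟩⟩,.a ⟨true,0,⟨0,[(22,0)]⟩,⟨0,[(21,0)]⟩⟩ ⟨false,1,⟨1,[(19,0),
  (18,0)]⟩,⟨8,[(0,2),(4,1),(1,1),(1,3),(7,1),(2,0),(14,2)]⟩⟩ ⟨true,0,⟨0,[(21,0),(15,0)]⟩,⟨0,[(12,0),
  (9,0)]⟩⟩]⟩)) (.K ⟨0,[0,0,0,1],0,0,(⟨0,[(21,0)]⟩,⟨0,[(20,0)]⟩),.k,(.r (-1) ⟨0,[(8,0),(26,0)]⟩ ⟨6,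
  [(1,0),(3,0),(0,2),(3,0),(7,2),(17,5)]⟩),(.x 0 ⟨0,[(33,0)]⟩ ⟨3,[(18,0),(0,0),(11,1),(0,3)]⟩),.k,
  .k,[⟨0,[(21,0)]⟩,⟨0,[(20,0)]⟩,⟨0,[(0,0),(19,0),(0,0),(2,0)]⟩,⟨1,[(5,1),(0,0),(4,0),(4,0),(2,0),(0,
  1),(3,1)]⟩]⟩))) (.K ⟨0,[0,0,0,1],0,(-1),(⟨0,[(19,0)]⟩,⟨0,[(18,0)]⟩),.k,(.x 0 ⟨9,[(4,1),(3,5),(7,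
  0),(0,0),(6,9),(5,9)]⟩ ⟨0,[(31,0),(3,0)]⟩),(.x 0 ⟨0,[(31,0)]⟩ ⟨3,[(16,0),(0,0),(11,1),(0,3)]⟩),.k,
  .k,[⟨0,[(19,0)]⟩,⟨0,[(18,0)]⟩,⟨1,[(16,0),(2,1),(15,0),(2,1)]⟩,⟨0,[(0,0)]⟩]⟩)) (.Q [0,1,-1,0,0,0,0,
  0,-1,0,0,1] (.p true [0,0,0,1] [] (⟨0,[(18,0)]⟩,⟨0,[(17,0)]⟩) .k 0 (⟨0,[]⟩,⟨0,[]⟩) .k .k) (.K ⟨0,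
  [0,0,0,1],0,0,(⟨0,[(19,0)]⟩,⟨0,[(18,0)]⟩),.k,(.r (-1) ⟨0,[(6,0),(26,0)]⟩ ⟨13,[(0,1),(2,1),(0,5),
  (3,2),(7,5),(1,1),(3,1),(9,0),(1,11)]⟩),(.x 0 ⟨0,[(31,0)]⟩ ⟨3,[(16,0),(0,0),(11,1),(0,3)]⟩),.k,.k,
  [⟨0,[(19,0)]⟩,⟨0,[(18,0)]⟩,⟨0,[(0,0)]⟩,⟨1,[(3,1),(0,0),(4,0),(4,0),(2,0),(0,1),(3,1)]⟩]⟩) (.I [0,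
  1,-2,-1,1,0,0,0,-1] (.R ⟨0,false,false,false,[1,0,0,-1],[0,1],[0,1,0,0,0,0,0,0,-1],(⟨0,[(19,0)]⟩,
  ⟨0,[(20,0)]⟩),(⟨0,[(32,0)]⟩,⟨0,[(31,0)]⟩),⟨0,[(2,0)]⟩,.k,.k,(.x (-1) ⟨3,[(17,0),(0,0),(11,1),(0,
  3)]⟩ ⟨0,[(32,0)]⟩),(.x (-1) ⟨3,[(17,0),(0,0),(11,1),(0,3)]⟩ ⟨0,[(32,0)]⟩),.k,.k,⟨false,1,⟨0,[(0,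
  0)]⟩,⟨0,[(1,0),(18,0),(14,0)]⟩⟩,⟨true,0,⟨0,[(19,0)]⟩,⟨2,[(5,0),(3,0),(4,0),(5,2),(9,0)]⟩⟩,⟨true,0,
  ⟨0,[(39,0)]⟩,⟨0,[]⟩⟩,⟨false,0,⟨0,[(1,0),(17,0),(0,0),(14,0)]⟩,⟨8,[(0,6),(2,2),(0,3),(12,0),(2,8),
  (2,3),(6,0),(2,4)]⟩⟩,⟨false,0,⟨0,[]⟩,⟨0,[]⟩⟩,⟨false,0,⟨0,[]⟩,⟨0,[]⟩⟩,[.o ⟨false,0,⟨0,[(35,0)]⟩,⟨3,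
  [(3,1),(13,0),(0,0),(11,0),(6,0)]⟩⟩,.o ⟨false,1,⟨3,[(17,0),(0,0),(16,3),(1,1)]⟩,⟨0,[(10,0)]⟩⟩,.o
  ⟨false,1,⟨1,[(20,1),(9,0),(5,0)]⟩,⟨2,[(5,0),(3,0),(4,0),(4,2),(10,0)]⟩⟩,.a ⟨true,0,⟨0,[(20,0)]⟩,
  ⟨0,[(19,0)]⟩⟩ ⟨false,1,⟨1,[(17,0),(18,0)]⟩,⟨0,[(1,0),(18,0)]⟩⟩ ⟨true,0,⟨0,[(19,0),(15,0)]⟩,⟨0,
  [(10,0),(9,0)]⟩⟩]⟩) (.Q [0,1,1,0,-1,0,0,0,1,0,0,-1] (.p false [0,0,0,1] [] (⟨0,[(20,0)]⟩,⟨0,[(19,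
  0)]⟩) .k 0 (⟨0,[]⟩,⟨0,[]⟩) .k .k) (.K ⟨0,[0,0,0,1],0,(-1),(⟨0,[(21,0)]⟩,⟨0,[(20,0)]⟩),.k,(.x 0 ⟨9,
  [(6,1),(3,5),(7,0),(0,0),(6,9),(5,9)]⟩ ⟨0,[(33,0),(3,0)]⟩),(.x 0 ⟨0,[(33,0)]⟩ ⟨3,[(18,0),(0,0),
  (11,1),(0,3)]⟩),.k,.k,[⟨0,[(21,0)]⟩,⟨0,[(20,0)]⟩,⟨1,[(18,0),(2,1),(15,0),(2,1)]⟩,⟨0,[(0,0)]⟩]⟩)
  (.R ⟨0,false,false,true,[1,0,0,-1],[1,-1],[0,1,0,0,0,0,0,0,-1],(⟨0,[(20,0)]⟩,⟨0,[(21,0)]⟩),(⟨0,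
  [(32,0)]⟩,⟨0,[(33,0)]⟩),⟨0,[(3,0)]⟩,.k,.k,(.x (-1) ⟨3,[(18,0),(0,0),(11,1),(0,3)]⟩ ⟨0,[(33,0)]⟩),
  (.r 0 ⟨0,[(0,0),(4,1),(0,0),(9,0),(3,0),(3,1)]⟩ ⟨0,[(8,0),(26,0)]⟩),.k,.k,⟨true,0,⟨0,[(0,0),(4,1),
  (0,0),(9,0),(3,0),(3,1)]⟩,⟨0,[(1,0),(2,0),(15,0),(0,0),(15,0)]⟩⟩,⟨false,0,⟨2,[(6,0),(3,0),(4,0),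
  (4,2),(10,0)]⟩,⟨0,[(21,0),(15,0)]⟩⟩,⟨true,0,⟨0,[(40,0)]⟩,⟨0,[]⟩⟩,⟨false,0,⟨0,[(2,0),(32,0)]⟩,⟨0,
  [(0,0),(35,0)]⟩⟩,⟨false,0,⟨0,[]⟩,⟨0,[]⟩⟩,⟨false,0,⟨0,[]⟩,⟨0,[]⟩⟩,[.o ⟨false,0,⟨0,[(11,0)]⟩,⟨3,
  [(18,0),(0,0),(16,3),(1,1)]⟩⟩,.o ⟨false,1,⟨3,[(4,1),(13,0),(0,0),(11,0),(6,0)]⟩,⟨0,[(36,0)]⟩⟩,.o
  ⟨false,1,⟨1,[(21,1),(9,0),(5,0)]⟩,⟨2,[(6,0),(3,0),(4,0),(4,2),(10,0)]⟩⟩,.a ⟨true,0,⟨0,[(21,0)]⟩,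
  ⟨0,[(20,0)]⟩⟩ ⟨false,1,⟨1,[(18,0),(18,0)]⟩,⟨8,[(1,2),(2,0),(1,0),(1,1),(7,0),(2,1),(14,2)]⟩⟩
  ⟨true,0,⟨0,[(11,0),(8,0)]⟩,⟨0,[(21,0),(14,0)]⟩⟩]⟩)))))))

theorem ok5 : chk (cU (-1) true 10) t5 l9 = true := by decide +kernel

noncomputable def t16 : Tre :=
  (.Q [0,-1,0,1,0,0,0,0,0,1] (.pp false [-1,1]) (.R ⟨2,false,false,false,[0,1],[1,0,-1],[0,1,1,1],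
  (⟨0,[]⟩,⟨0,[]⟩),(⟨0,[(21,0)]⟩,⟨0,[(22,0)]⟩),⟨0,[]⟩,.k,.k,.k,.k,.k,.k,⟨false,0,⟨0,[(1,0)]⟩,⟨0,[(20,
  0),(5,0),(0,0),(1,0)]⟩⟩,⟨true,0,⟨0,[(15,0)]⟩,⟨2,[(0,0),(7,0),(0,1)]⟩⟩,⟨true,0,⟨0,[(32,0)]⟩,⟨0,
  []⟩⟩,⟨false,1,⟨0,[(5,0),(24,0)]⟩,⟨0,[(0,0),(15,0)]⟩⟩,⟨false,0,⟨0,[(28,0)]⟩,⟨0,[(27,0),(2,0)]⟩⟩,
  ⟨false,1,⟨0,[(14,0),(15,0)]⟩,⟨0,[(0,0),(1,0)]⟩⟩,[.a ⟨true,0,⟨0,[(0,0),(4,0)]⟩,⟨0,[(0,0),(1,0)]⟩⟩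
  ⟨false,0,⟨3,[(1,1),(7,0),(4,0),(2,0),(10,1)]⟩,⟨0,[(26,0),(0,0),(1,0)]⟩⟩ ⟨true,0,⟨0,[(15,0),(4,
  0)]⟩,⟨0,[(0,0),(1,0)]⟩⟩,.o ⟨false,1,⟨0,[(14,0),(15,0)]⟩,⟨0,[(16,0)]⟩⟩,.o ⟨false,1,⟨3,[(10,0),(0,
  0),(17,1)]⟩,⟨0,[(7,0),(7,0)]⟩⟩,.e ⟨false,0,⟨0,[(28,0)]⟩,⟨0,[(27,0),(2,0)]⟩⟩ ⟨false,1,⟨0,[(14,0),
  (15,0)]⟩,⟨0,[(0,0),(1,0)]⟩⟩]⟩) (.Q [0,0,0,0,0,0,1,1,0,1,-1] (.p false [0,0,1] [1] (⟨0,[(22,0)]⟩,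
  ⟨0,[(21,0)]⟩) .k 1 (⟨0,[]⟩,⟨0,[]⟩) .k .k) (.Q [0,0,0,0,0,0,-1,-1,0,0,1] (.p true [0,0,1] [] (⟨0,
  [(23,0)]⟩,⟨0,[(22,0)]⟩) .k 0 (⟨0,[]⟩,⟨0,[]⟩) .k .k) (.R ⟨2,false,false,false,[0,1],[1,0,-1],[0,1,
  1,1],(⟨0,[]⟩,⟨0,[]⟩),(⟨0,[(23,0)]⟩,⟨0,[(24,0)]⟩),⟨0,[]⟩,.k,.k,.k,.k,.k,.k,⟨false,0,⟨0,[(3,0)]⟩,⟨0,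
  [(22,0),(5,0),(0,0),(1,0)]⟩⟩,⟨true,0,⟨0,[(17,0)]⟩,⟨1,[(11,0),(2,0),(0,0)]⟩⟩,⟨true,0,⟨0,[(34,0)]⟩,
  ⟨0,[]⟩⟩,⟨false,1,⟨0,[(7,0),(24,0)]⟩,⟨0,[(1,0),(28,0)]⟩⟩,⟨false,0,⟨0,[(30,0)]⟩,⟨0,[(29,0),(2,0)]⟩⟩,
  ⟨false,1,⟨1,[(0,1),(24,0),(6,0)]⟩,⟨0,[(1,0)]⟩⟩,[.a ⟨true,0,⟨0,[(0,0)]⟩,⟨0,[(1,0)]⟩⟩ ⟨false,0,⟨3,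
  [(3,1),(7,0),(4,0),(2,0),(10,1)]⟩,⟨0,[(28,0),(0,0),(1,0)]⟩⟩ ⟨true,0,⟨0,[(17,0),(4,0)]⟩,⟨0,[(1,
  0)]⟩⟩,.o ⟨false,1,⟨1,[(0,1),(24,0),(6,0)]⟩,⟨0,[(18,0)]⟩⟩,.o ⟨false,1,⟨3,[(12,0),(0,0),(17,1)]⟩,⟨0,
  [(9,0),(7,0)]⟩⟩,.e ⟨false,0,⟨0,[(30,0)]⟩,⟨0,[(29,0),(2,0)]⟩⟩ ⟨false,1,⟨1,[(0,1),(24,0),(6,0)]⟩,⟨0,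
  [(1,0)]⟩⟩]⟩) (.Q [0,0,0,1,0,0,-1,-1,0,0,1] (.p true [0,0,1] [] (⟨0,[(24,0)]⟩,⟨0,[(23,0)]⟩) .k 0
  (⟨0,[]⟩,⟨0,[]⟩) .k .k) (.R ⟨2,true,false,true,[0,1],[0,0,1],[1,0,1],(⟨0,[]⟩,⟨0,[]⟩),(⟨0,[(25,0)]⟩,
  ⟨0,[(24,0)]⟩),⟨0,[]⟩,.k,.k,.k,.k,.k,.k,⟨true,0,⟨2,[(20,0),(0,0),(1,1),(5,1)]⟩,⟨1,[(1,0),(2,0),(6,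
  0)]⟩⟩,⟨false,0,⟨0,[(10,0)]⟩,⟨5,[(0,1),(5,1),(4,1),(8,1),(11,2),(0,0)]⟩⟩,⟨false,1,⟨0,[(30,0),(2,
  0)]⟩,⟨0,[(31,0)]⟩⟩,⟨true,0,⟨0,[(5,0)]⟩,⟨0,[(0,0)]⟩⟩,⟨true,0,⟨0,[]⟩,⟨0,[(35,0)]⟩⟩,⟨false,0,⟨0,[(1,
  0)]⟩,⟨0,[(20,0),(12,0)]⟩⟩,[]⟩) (.Q [0,1,-1,0,0,0,0,0,-1,0,0,1] (.p true [0,0,0,1] [] (⟨0,[(16,
  0)]⟩,⟨0,[(15,0)]⟩) .k 0 (⟨0,[]⟩,⟨0,[]⟩) .k .k) (.Q [0,1,1,0,0,0,0,0,1,0,0,-1] (.p false [0,0,0,1]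
  [] (⟨0,[(17,0)]⟩,⟨0,[(16,0)]⟩) .k 0 (⟨0,[]⟩,⟨0,[]⟩) .k .k) (.K ⟨0,[0,0,0,1],0,0,(⟨0,[(18,0)]⟩,⟨0,
  [(17,0)]⟩),.k,(.x 0 ⟨0,[(20,0),(2,0),(5,0)]⟩ ⟨0,[(30,0),(3,0)]⟩),(.x 0 ⟨0,[(30,0)]⟩ ⟨7,[(9,3),(1,
  3),(3,2),(0,2),(11,1)]⟩),.k,.k,[⟨0,[(18,0)]⟩,⟨0,[(17,0)]⟩,⟨0,[(1,0)]⟩,⟨0,[(0,0)]⟩]⟩) (.Q [0,0,0,0,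
  0,-1,0,0,0,1,0,-1] (.p false [0,0,0,1] [1] (⟨0,[(18,0)]⟩,⟨0,[(17,0)]⟩) .k 1 (⟨0,[]⟩,⟨0,[]⟩) .k
  .k) (.I [0,-1,-1,0,0,0,0,0,-1] (.R ⟨1,false,false,true,[1,0,0,-1],[1,0,-1],[0,1,0,0,0,0,0,0,-1],
  (⟨0,[(19,0)]⟩,⟨0,[(20,0)]⟩),(⟨0,[(28,0)]⟩,⟨0,[(29,0)]⟩),⟨0,[(1,0)]⟩,.k,.k,(.x (-1) ⟨7,[(11,3),(1,
  3),(3,2),(0,2),(11,1)]⟩ ⟨0,[(32,0)]⟩),.k,(.r 0 ⟨2,[(0,2),(3,1),(3,0),(6,1)]⟩ ⟨1,[(18,0),(5,1),(0,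
  1),(9,1),(1,0)]⟩),.k,⟨false,0,⟨2,[(0,2),(3,0),(3,1),(6,0)]⟩,⟨3,[(17,0),(0,2),(8,3)]⟩⟩,⟨true,0,⟨0,
  [(19,0),(2,0)]⟩,⟨0,[(14,0),(5,0)]⟩⟩,⟨true,0,⟨0,[(39,0)]⟩,⟨0,[]⟩⟩,⟨false,1,⟨5,[(18,2),(0,5),(2,3),
  (1,3),(0,1),(1,1),(2,0),(6,1)]⟩,⟨0,[(2,0),(2,0)]⟩⟩,⟨false,0,⟨0,[(35,0)]⟩,⟨0,[(34,0),(2,0)]⟩⟩,
  ⟨false,1,⟨5,[(18,2),(0,5),(2,3),(1,3),(0,1),(1,1),(2,0),(4,5),(1,1)]⟩,⟨0,[(2,0),(1,0)]⟩⟩,[.o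
  ⟨false,0,⟨0,[(21,0)]⟩,⟨3,[(10,1),(5,1),(13,0),(6,0)]⟩⟩,.o ⟨false,1,⟨1,[(24,1),(5,0),(6,0)]⟩,⟨0,
  [(5,0)]⟩⟩,.o ⟨false,1,⟨1,[(2,0),(0,0),(14,0),(11,0)]⟩,⟨0,[(14,0),(4,0),(2,0)]⟩⟩,.a ⟨true,0,⟨0,
  [(20,0)]⟩,⟨0,[(19,0)]⟩⟩ ⟨false,0,⟨3,[(0,2),(2,0),(15,0),(1,0),(1,0)]⟩,⟨1,[(18,0),(6,0),(0,0),(10,
  0)]⟩⟩ ⟨true,0,⟨0,[(19,0),(1,0)]⟩,⟨0,[(5,0),(14,0)]⟩⟩]⟩) (.R ⟨1,false,false,true,[1,0,0,-1],[0,1],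
  [0,0,0,0,0,0,0,0,-1],(⟨0,[(19,0)]⟩,⟨0,[(20,0)]⟩),(⟨0,[(32,0)]⟩,⟨0,[(31,0)]⟩),⟨0,[(1,0)]⟩,.k,.k,
  (.x (-1) ⟨7,[(11,3),(1,3),(3,2),(0,2),(11,1)]⟩ ⟨0,[(32,0)]⟩),(.x (-1) ⟨7,[(11,3),(1,3),(3,2),(0,
  2),(11,1)]⟩ ⟨0,[(32,0)]⟩),(.r (-1) ⟨7,[(2,5),(1,5),(7,5),(4,0),(1,5),(14,3),(1,4),(0,1)]⟩ ⟨3,[(0,
  3),(24,0),(0,0),(6,1),(1,7)]⟩),.k,⟨false,1,⟨3,[(2,3),(1,1),(7,1),(6,3),(10,0),(5,1),(0,0)]⟩,⟨0,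
  [(0,0),(34,0)]⟩⟩,⟨true,0,⟨0,[(19,0)]⟩,⟨0,[(14,0),(5,0),(1,0)]⟩⟩,⟨false,1,⟨3,[(17,0),(0,0),(18,
  1)]⟩,⟨0,[]⟩⟩,⟨true,0,⟨0,[(0,0),(18,0),(15,0)]⟩,⟨0,[(2,0),(4,0)]⟩⟩,⟨true,0,⟨0,[(35,0)]⟩,⟨0,[(34,
  0)]⟩⟩,⟨true,0,⟨0,[(0,0),(18,0),(15,1)]⟩,⟨0,[(2,0),(1,0),(7,0)]⟩⟩,[.o ⟨false,0,⟨3,[(8,1),(7,0),(4,
  0),(2,0),(10,1)]⟩,⟨3,[(4,1),(7,1),(17,0),(6,2)]⟩⟩,.o ⟨false,0,⟨0,[(35,0)]⟩,⟨1,[(30,0),(3,1),(2,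
  0)]⟩⟩,.o ⟨false,1,⟨1,[(2,0),(0,0),(14,0),(11,0)]⟩,⟨0,[(14,0),(4,0),(2,0)]⟩⟩,.a ⟨true,0,⟨0,[(20,
  0)]⟩,⟨0,[(19,0)]⟩⟩ ⟨true,0,⟨0,[(2,0),(4,0),(11,0),(15,0)]⟩,⟨0,[(0,0)]⟩⟩ ⟨false,0,⟨0,[(19,0),(15,
  0)]⟩,⟨3,[(4,1),(7,1),(7,3),(9,0),(6,2)]⟩⟩]⟩)) (.I [0,0,-1,0,0,0,0,1,-1] (.R ⟨0,false,false,true,
  [1,0,0,-1],[1,0,-1],[0,1,0,0,0,0,0,0,-1],(⟨0,[(19,0)]⟩,⟨0,[(20,0)]⟩),(⟨0,[(28,0)]⟩,⟨0,[(29,0)]⟩),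
  ⟨0,[(1,0)]⟩,.k,.k,(.x (-1) ⟨7,[(11,3),(1,3),(3,2),(0,2),(11,1)]⟩ ⟨0,[(32,0)]⟩),.k,.k,.k,⟨false,0,
  ⟨0,[(0,0)]⟩,⟨3,[(17,0),(0,2),(8,3)]⟩⟩,⟨true,0,⟨0,[(19,0),(2,0)]⟩,⟨0,[(14,0),(5,0)]⟩⟩,⟨true,0,⟨0,
  [(39,0)]⟩,⟨0,[]⟩⟩,⟨false,1,⟨5,[(18,2),(0,5),(2,3),(1,3),(0,1),(1,1),(2,0),(6,1)]⟩,⟨0,[(2,0),(2,
  0)]⟩⟩,⟨false,0,⟨0,[]⟩,⟨0,[]⟩⟩,⟨false,0,⟨0,[]⟩,⟨0,[]⟩⟩,[.o ⟨false,0,⟨0,[(21,0)]⟩,⟨3,[(10,1),(5,1),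
  (13,0),(6,0)]⟩⟩,.o ⟨false,1,⟨1,[(24,1),(5,0),(6,0)]⟩,⟨0,[(5,0)]⟩⟩,.o ⟨false,1,⟨1,[(2,0),(0,0),(14,
  0),(11,0)]⟩,⟨0,[(14,0),(4,0),(2,0)]⟩⟩,.a ⟨true,0,⟨0,[(20,0)]⟩,⟨0,[(19,0)]⟩⟩ ⟨false,0,⟨0,[(0,0),
  (26,0)]⟩,⟨1,[(18,0),(6,0),(0,0),(10,0)]⟩⟩ ⟨true,0,⟨0,[(19,0),(1,0)]⟩,⟨0,[(5,0),(14,0)]⟩⟩]⟩) (.R
  ⟨0,false,false,true,[1,0,0,-1],[0,1],[1,0,1],(⟨0,[(19,0)]⟩,⟨0,[(20,0)]⟩),(⟨0,[(32,0)]⟩,⟨0,[(31,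
  0)]⟩),⟨0,[(1,0)]⟩,.k,.k,(.x (-1) ⟨7,[(11,3),(1,3),(3,2),(0,2),(11,1)]⟩ ⟨0,[(32,0)]⟩),(.x (-1) ⟨7,
  [(11,3),(1,3),(3,2),(0,2),(11,1)]⟩ ⟨0,[(32,0)]⟩),.k,.k,⟨false,1,⟨3,[(2,1),(1,1),(7,1),(5,0),(0,1),
  (16,0),(0,1)]⟩,⟨3,[(8,1),(7,0),(4,0),(2,0),(10,1)]⟩⟩,⟨true,0,⟨0,[(19,0)]⟩,⟨0,[(14,0),(5,0),(1,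
  0)]⟩⟩,⟨false,1,⟨7,[(0,7),(9,3),(6,0),(0,0),(18,1)]⟩,⟨0,[(2,0),(4,0),(11,0),(15,0)]⟩⟩,⟨true,0,⟨0,
  [(0,0),(7,0),(10,0)]⟩,⟨0,[(2,0),(4,0)]⟩⟩,⟨false,0,⟨0,[]⟩,⟨0,[]⟩⟩,⟨false,0,⟨0,[]⟩,⟨0,[]⟩⟩,[.o
  ⟨false,0,⟨3,[(8,1),(7,0),(4,0),(2,0),(10,1)]⟩,⟨3,[(4,1),(7,1),(17,0),(6,2)]⟩⟩,.o ⟨false,0,⟨0,[(35,
  0)]⟩,⟨1,[(30,0),(3,1),(2,0)]⟩⟩,.o ⟨false,1,⟨1,[(2,0),(0,0),(14,0),(11,0)]⟩,⟨0,[(14,0),(4,0),(2,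
  0)]⟩⟩,.a ⟨true,0,⟨0,[(20,0)]⟩,⟨0,[(19,0)]⟩⟩ ⟨true,0,⟨0,[]⟩,⟨0,[(39,0)]⟩⟩ ⟨false,0,⟨0,[(19,0),(15,
  0)]⟩,⟨3,[(4,1),(7,1),(7,3),(9,0),(6,2)]⟩⟩]⟩)))) (.Q [0,-1,-1,1,1,0,0,0,-1,0,0,1] (.p true [0,0,0,
  1] [] (⟨0,[(17,0)]⟩,⟨0,[(16,0)]⟩) .k 0 (⟨0,[]⟩,⟨0,[]⟩) .k .k) (.Q [0,0,-1,0,0,0,2,0,0,1,-2] (.p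
  false [0,0,1] [1,0,-1] (⟨0,[(27,0)]⟩,⟨0,[(26,0)]⟩) .k 2 (⟨0,[(26,0)]⟩,⟨0,[(27,0)]⟩) .k (.r (-1)
  ⟨21,[(6,7),(0,3),(0,15),(4,3),(1,2),(0,2)]⟩ ⟨0,[(25,1)]⟩)) (.K ⟨2,[0,1,1],0,0,(⟨0,[(28,0),(2,0)]⟩,
  ⟨0,[(10,0)]⟩),.k,.k,(.r 0 ⟨3,[(7,3),(16,2),(0,2),(6,1),(1,3)]⟩ ⟨0,[(0,0),(10,0),(2,0),(17,0),(2,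
  0)]⟩),.k,(.r 0 ⟨2,[(3,0),(3,4),(6,0),(17,2)]⟩ ⟨1,[(26,3),(6,1),(1,0),(0,0)]⟩),[⟨1,[(24,0),(0,0)]⟩,
  ⟨0,[(0,0)]⟩,⟨1,[(24,0),(0,2)]⟩,⟨0,[(13,0)]⟩,⟨0,[(14,0),(11,0)]⟩,⟨0,[(7,0),(5,0)]⟩]⟩) (.I [1,1,0,
  -1,0,0,0,0,1] (.Q [0,0,0,0,0,-1,0,0,0,1,0,-1] (.p false [0,0,0,1] [1] (⟨0,[(20,0)]⟩,⟨0,[(19,0)]⟩)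
  .k 1 (⟨0,[]⟩,⟨0,[]⟩) .k .k) (.I [0,-1,-1,0,1,0,0,1,-1] (.R ⟨1,false,false,true,[1,0,0,-1],[1,0,
  -1],[0,0,0,0,0,0,0,0,-1],(⟨0,[(21,0)]⟩,⟨0,[(22,0)]⟩),(⟨0,[(30,0)]⟩,⟨0,[(31,0)]⟩),⟨0,[(1,0)]⟩,.k,
  .k,(.x (-1) ⟨7,[(13,3),(1,3),(3,2),(0,2),(11,1)]⟩ ⟨0,[(34,0)]⟩),.k,(.r (-1) ⟨0,[(0,0),(35,0)]⟩ ⟨2,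
  [(2,0),(2,1),(16,1),(3,0),(0,0),(1,1),(7,3)]⟩),.k,⟨false,1,⟨0,[(0,0)]⟩,⟨0,[(2,0),(26,0),(7,0)]⟩⟩,
  ⟨true,0,⟨0,[(21,0),(2,0)]⟩,⟨0,[(16,0),(5,0)]⟩⟩,⟨false,1,⟨3,[(19,0),(0,0),(18,1)]⟩,⟨0,[]⟩⟩,⟨false,
  0,⟨0,[(5,0),(20,0)]⟩,⟨0,[(4,0),(1,0)]⟩⟩,⟨true,0,⟨0,[(37,0)]⟩,⟨0,[(36,0)]⟩⟩,⟨false,0,⟨0,[(5,0),(20,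
  0),(10,0)]⟩,⟨0,[(0,0),(5,0),(15,0),(6,0)]⟩⟩,[.o ⟨false,0,⟨0,[(23,0)]⟩,⟨3,[(12,1),(5,1),(13,0),(6,
  0)]⟩⟩,.o ⟨false,1,⟨1,[(26,1),(5,0),(6,0)]⟩,⟨0,[(7,0)]⟩⟩,.o ⟨false,1,⟨1,[(22,1),(9,0),(5,0)]⟩,⟨0,
  [(16,0),(4,0),(2,0)]⟩⟩,.a ⟨true,0,⟨0,[(22,0)]⟩,⟨0,[(21,0)]⟩⟩ ⟨false,1,⟨0,[(0,0),(28,0)]⟩,⟨3,[(2,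
  0),(2,2),(4,0),(11,2),(3,0),(0,0)]⟩⟩ ⟨true,0,⟨0,[(21,0),(1,0)]⟩,⟨0,[(7,0),(14,0)]⟩⟩]⟩) (.I [0,0,1,
  1,0,0,0,1,-1] (.R ⟨1,false,false,true,[1,0,0,-1],[1,-1,-1],[0,1,0,0,0,0,0,0,-1],(⟨0,[(22,0)]⟩,⟨0,
  [(23,0)]⟩),(⟨0,[(14,0)]⟩,⟨0,[(32,0),(2,0)]⟩),⟨0,[(2,0)]⟩,.k,.k,(.x (-1) ⟨7,[(14,3),(1,3),(3,2),(0,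
  2),(11,1)]⟩ ⟨0,[(35,0)]⟩),(.r 0 ⟨0,[(0,0)]⟩ ⟨1,[(3,1),(26,1),(8,0),(0,0)]⟩),.k,.k,⟨true,0,⟨0,[(0,
  0)]⟩,⟨2,[(1,1),(1,0),(3,0),(10,0),(11,1),(5,1),(2,1)]⟩⟩,⟨false,0,⟨0,[(22,0),(2,0)]⟩,⟨0,[(17,0),(5,
  0),(15,0)]⟩⟩,⟨true,0,⟨0,[(42,0)]⟩,⟨0,[]⟩⟩,⟨false,0,⟨1,[(3,0),(2,0),(8,0),(6,0),(4,0),(8,0)]⟩,⟨0,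
  [(5,0),(2,0)]⟩⟩,⟨false,0,⟨0,[(38,0)]⟩,⟨0,[(37,0),(2,0)]⟩⟩,⟨false,0,⟨0,[(6,0),(20,0)]⟩,⟨0,[(5,0),
  (1,0)]⟩⟩,[.o ⟨false,0,⟨0,[(15,0)]⟩,⟨3,[(13,1),(5,1),(13,0),(4,3),(1,0)]⟩⟩,.o ⟨false,1,⟨3,[(15,3),
  (4,0),(0,0),(18,1)]⟩,⟨0,[(8,0),(29,0)]⟩⟩,.o ⟨false,1,⟨1,[(23,1),(9,0),(5,0)]⟩,⟨1,[(0,0),(5,0),(8,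
  0),(1,0),(4,0)]⟩⟩,.a ⟨true,0,⟨0,[(23,0)]⟩,⟨0,[(22,0)]⟩⟩ ⟨false,1,⟨1,[(20,0),(18,0)]⟩,⟨0,[(6,0),
  (16,0)]⟩⟩ ⟨true,0,⟨0,[(15,0),(6,0)]⟩,⟨0,[(8,0),(14,0),(14,0)]⟩⟩]⟩) (.Q [0,0,2,0,-1,0,1,0,0,0,-1]
  (.p false [0,0,1] [] (⟨0,[(32,0)]⟩,⟨0,[(31,0)]⟩) .k 0 (⟨0,[]⟩,⟨0,[]⟩) .k .k) (.Q [0,0,0,2,0,0,-1,
  -1,0,0,1] (.p true [0,0,1] [] (⟨0,[(33,0)]⟩,⟨0,[(32,0)]⟩) .k 0 (⟨0,[]⟩,⟨0,[]⟩) .k .k) (.R ⟨1,true,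
  false,false,[0,0,1],[0,1],[0,1,0,0,0,0,0,1],(⟨0,[(34,0)]⟩,⟨0,[(33,0)]⟩),(⟨0,[(37,0)]⟩,⟨0,[(36,
  0)]⟩),⟨0,[(18,0)]⟩,.k,.k,.k,.k,(.r (-2) ⟨1,[(2,1),(12,1),(6,0),(16,1),(1,0)]⟩ ⟨0,[(0,0),(0,0)]⟩),
  .k,⟨false,1,⟨2,[(9,1),(3,0),(6,1),(20,2)]⟩,⟨1,[(0,0),(0,0),(30,0),(9,0)]⟩⟩,⟨true,1,⟨3,[(0,0),(14,
  0),(4,1),(8,0),(11,1),(0,0)]⟩,⟨0,[(1,0)]⟩⟩,⟨true,0,⟨0,[(44,0)]⟩,⟨0,[]⟩⟩,⟨false,1,⟨7,[(0,3),(21,0),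
  (0,0),(5,3),(12,5)]⟩,⟨0,[(9,0)]⟩⟩,⟨false,0,⟨0,[(40,0)]⟩,⟨0,[(39,0),(2,0)]⟩⟩,⟨true,0,⟨0,[(0,0)]⟩,
  ⟨0,[(9,0),(29,0)]⟩⟩,[]⟩) (.Q [0,1,1,0,-1,0,0,0,1,1,0,-1] (.p false [0,0,0,1] [1] (⟨0,[(25,0)]⟩,⟨0,
  [(24,0)]⟩) .k 1 (⟨0,[]⟩,⟨0,[]⟩) .k .k) (.I [0,0,-1,-1,1,0,0,1,-1] (.R ⟨1,false,false,true,[1,0,0,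
  -1],[1,0,-1],[0,1,0,0,0,0,0,0,-1],(⟨0,[(26,0)]⟩,⟨0,[(27,0)]⟩),(⟨0,[(35,0)]⟩,⟨0,[(36,0)]⟩),⟨0,[(6,
  0)]⟩,.k,.k,(.x (-1) ⟨7,[(18,3),(1,3),(3,2),(0,2),(11,1)]⟩ ⟨0,[(39,0)]⟩),.k,(.r (-1) ⟨0,[(0,0)]⟩
  ⟨5,[(5,3),(19,0),(5,1),(0,1),(9,5),(1,2)]⟩),.k,⟨false,1,⟨0,[(0,0),(41,0)]⟩,⟨5,[(4,1),(0,1),(19,0),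
  (8,1),(7,1),(1,0)]⟩⟩,⟨true,0,⟨0,[(26,0),(2,0)]⟩,⟨0,[(21,0),(5,0)]⟩⟩,⟨true,0,⟨0,[(46,0)]⟩,⟨0,[]⟩⟩,
  ⟨false,0,⟨0,[(10,0),(20,0)]⟩,⟨0,[(9,0),(1,0)]⟩⟩,⟨false,0,⟨0,[(42,0)]⟩,⟨0,[(41,0),(2,0)]⟩⟩,⟨false,
  0,⟨0,[(10,0),(20,0),(10,0)]⟩,⟨0,[(2,0),(6,0)]⟩⟩,[.o ⟨false,0,⟨0,[(28,0)]⟩,⟨3,[(17,1),(5,1),(13,0),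
  (6,0)]⟩⟩,.o ⟨false,1,⟨1,[(31,1),(5,0),(6,0)]⟩,⟨0,[(12,0)]⟩⟩,.o ⟨false,1,⟨1,[(27,1),(9,0),(5,0)]⟩,
  ⟨2,[(3,0),(22,2),(2,0),(7,0)]⟩⟩,.a ⟨true,0,⟨0,[(27,0)]⟩,⟨0,[(26,0)]⟩⟩ ⟨false,1,⟨1,[(24,0),(18,
  0)]⟩,⟨8,[(4,0),(0,3),(9,0),(1,1),(7,1),(14,5)]⟩⟩ ⟨true,0,⟨0,[(26,0),(1,0)]⟩,⟨0,[(12,0),(14,
  0)]⟩⟩]⟩) (.R ⟨1,false,false,true,[1,0,0,-1],[0,1],[0,0,0,0,0,0,0,0,-1],(⟨0,[(26,0)]⟩,⟨0,[(27,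
  0)]⟩),(⟨0,[(39,0)]⟩,⟨0,[(38,0)]⟩),⟨0,[(6,0)]⟩,.k,.k,(.x (-1) ⟨7,[(18,3),(1,3),(3,2),(0,2),(11,
  1)]⟩ ⟨0,[(39,0)]⟩),(.x (-1) ⟨7,[(18,3),(1,3),(3,2),(0,2),(11,1)]⟩ ⟨0,[(39,0)]⟩),(.r (-2) ⟨7,[(2,
  3),(1,3),(17,3),(1,6),(0,0),(17,5),(0,1)]⟩ ⟨2,[(0,2),(2,0),(11,0),(1,0),(15,0),(8,1)]⟩),.k,⟨false,
  2,⟨7,[(2,1),(1,1),(17,1),(1,4),(15,1),(2,7),(0,2)]⟩,⟨3,[(0,3),(1,0),(12,2),(6,0)]⟩⟩,⟨true,0,⟨0,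
  [(26,0)]⟩,⟨2,[(3,0),(23,2),(1,0),(7,0)]⟩⟩,⟨false,1,⟨3,[(24,0),(0,0),(18,1)]⟩,⟨0,[]⟩⟩,⟨true,(-1),
  ⟨0,[(1,0),(40,0)]⟩,⟨1,[(2,0),(6,1),(4,0),(4,0)]⟩⟩,⟨true,0,⟨0,[(42,0)]⟩,⟨0,[(41,0)]⟩⟩,⟨true,(-1),
  ⟨0,[(1,0),(40,1)]⟩,⟨0,[(2,0),(6,0),(9,0)]⟩⟩,[.o ⟨false,0,⟨3,[(15,1),(7,0),(4,0),(2,0),(10,1)]⟩,⟨2,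
  [(2,0),(16,0),(17,0),(6,1)]⟩⟩,.o ⟨false,0,⟨0,[(42,0)]⟩,⟨11,[(2,3),(16,3),(4,2),(0,2),(11,3),(6,
  1)]⟩⟩,.o ⟨false,1,⟨1,[(27,1),(9,0),(5,0)]⟩,⟨2,[(3,0),(22,2),(2,0),(7,0)]⟩⟩,.a ⟨true,0,⟨0,[(27,
  0)]⟩,⟨0,[(26,0)]⟩⟩ ⟨true,1,⟨1,[(24,0),(18,0)]⟩,⟨1,[(0,1),(1,0),(12,0),(6,0)]⟩⟩ ⟨false,0,⟨0,[(26,
  0),(15,0)]⟩,⟨2,[(2,0),(16,0),(7,2),(9,0),(6,1)]⟩⟩]⟩)) (.R ⟨1,false,false,true,[1,0,0,-1],[1,-1],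
  [0,1,0,0,0,0,0,0,-1],(⟨0,[(25,0)]⟩,⟨0,[(26,0)]⟩),(⟨0,[(37,0)]⟩,⟨0,[(38,0)]⟩),⟨0,[(5,0)]⟩,.k,.k,
  (.x (-1) ⟨7,[(17,3),(1,3),(3,2),(0,2),(11,1)]⟩ ⟨0,[(38,0)]⟩),(.r 0 ⟨0,[(0,0),(1,0),(18,0),(3,0),
  (15,1)]⟩ ⟨15,[(1,3),(1,3),(17,3),(1,0),(0,6),(17,5),(0,1)]⟩),.k,.k,⟨true,0,⟨0,[(0,0),(1,0),(18,0),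
  (3,0),(15,1)]⟩,⟨7,[(1,0),(1,3),(0,2),(1,0),(9,2),(4,0),(17,0)]⟩⟩,⟨false,0,⟨2,[(2,0),(22,2),(2,0),
  (7,0)]⟩,⟨0,[(26,0),(15,0)]⟩⟩,⟨true,0,⟨0,[(45,0)]⟩,⟨0,[]⟩⟩,⟨false,0,⟨0,[(9,0),(30,0)]⟩,⟨0,[(8,
  0)]⟩⟩,⟨false,0,⟨0,[(41,0)]⟩,⟨0,[(40,0),(2,0)]⟩⟩,⟨false,0,⟨0,[(9,0),(35,0)]⟩,⟨0,[(0,0),(24,0),(0,
  0)]⟩⟩,[.o ⟨false,0,⟨0,[(13,0)]⟩,⟨3,[(23,0),(0,0),(16,3),(1,1)]⟩⟩,.o ⟨false,1,⟨11,[(1,3),(16,3),(4,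
  2),(0,2),(11,3),(6,1)]⟩,⟨0,[(41,0)]⟩⟩,.o ⟨false,1,⟨1,[(26,1),(9,0),(5,0)]⟩,⟨2,[(2,0),(22,2),(2,0),
  (7,0)]⟩⟩,.a ⟨true,0,⟨0,[(26,0)]⟩,⟨0,[(25,0)]⟩⟩ ⟨false,1,⟨1,[(23,0),(18,0)]⟩,⟨8,[(3,0),(0,3),(9,0),
  (1,1),(7,1),(14,5)]⟩⟩ ⟨true,0,⟨0,[(13,0),(11,0)]⟩,⟨0,[(26,0),(14,0)]⟩⟩]⟩))) (.I [1,1,1,0,-1,0,0,0,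
  1] (.Q [0,0,-2,0,1,0,0,0,0,-1,0,2] (.p true [0,0,0,1] [1,0,0,-1] (⟨0,[(25,0)]⟩,⟨0,[(24,0)]⟩) .k 2
  (⟨0,[(24,0)]⟩,⟨0,[(25,0)]⟩) .k (.r 0 ⟨14,[(0,9),(1,11),(12,5),(7,3),(14,1),(1,11)]⟩ ⟨0,[(22,
  0)]⟩)) (.R ⟨1,false,false,false,[1,0,0,-1],[0,0,0,1],[0,0,0,0,0,0,0,0,-1],(⟨0,[(25,0)]⟩,⟨0,[(26,
  0)]⟩),(⟨0,[(26,0)]⟩,⟨0,[(25,0)]⟩),⟨0,[(5,0)]⟩,.k,.k,(.x (-1) ⟨7,[(17,3),(1,3),(3,2),(0,2),(11,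
  1)]⟩ ⟨0,[(38,0)]⟩),.k,(.r (-2) ⟨11,[(2,3),(0,3),(11,3),(7,14),(0,0),(15,3),(2,3)]⟩ ⟨4,[(1,6),(0,
  0),(0,2),(7,0),(4,0),(22,2),(1,7)]⟩),.k,⟨true,1,⟨0,[(23,0)]⟩,⟨4,[(1,6),(0,0),(0,2),(7,0),(4,0),
  (22,2),(1,2)]⟩⟩,⟨false,0,⟨0,[(20,0),(4,1),(2,0)]⟩,⟨0,[(0,0)]⟩⟩,⟨false,1,⟨3,[(23,0),(0,0),(18,1)]⟩,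
  ⟨0,[]⟩⟩,⟨false,(-1),⟨2,[(1,2),(1,1),(3,0),(1,0),(1,1),(1,0),(11,4),(13,2),(1,2)]⟩,⟨0,[(0,0),(22,
  0)]⟩⟩,⟨true,0,⟨0,[(41,0)]⟩,⟨0,[(40,0)]⟩⟩,⟨false,(-1),⟨2,[(1,2),(1,1),(3,0),(1,0),(1,1),(1,0),(11,
  4),(13,2),(1,5)]⟩,⟨3,[(0,1),(2,0),(4,2),(1,2),(7,1),(2,0),(1,2),(2,0)]⟩⟩,[.o ⟨false,0,⟨7,[(1,2),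
  (7,2),(14,0),(0,4),(2,0),(2,0),(4,1)]⟩,⟨0,[(8,0),(4,0)]⟩⟩,.o ⟨false,0,⟨0,[(9,0)]⟩,⟨1,[(0,0),(22,
  0),(3,0),(1,0)]⟩⟩,.o ⟨false,1,⟨7,[(0,3),(22,0),(0,0),(11,1)]⟩,⟨0,[(20,0),(4,0),(2,0)]⟩⟩,.a ⟨true,
  0,⟨0,[(26,0)]⟩,⟨0,[(25,0)]⟩⟩ ⟨true,1,⟨1,[(23,0),(18,0)]⟩,⟨0,[(1,0)]⟩⟩ ⟨false,0,⟨0,[(9,0),(15,0)]⟩,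
  ⟨0,[(8,0),(4,0),(12,0)]⟩⟩]⟩) (.K ⟨0,[1,0,0,-1],1,1,(⟨0,[(25,0)]⟩,⟨0,[(26,0)]⟩),.k,(.x (-1) ⟨7,
  [(17,3),(1,3),(3,2),(0,2),(11,1)]⟩ ⟨0,[(38,0)]⟩),(.r 0 ⟨0,[(0,0),(0,0),(6,1),(4,0)]⟩ ⟨2,[(2,0),(0,
  0),(11,0),(8,0),(15,0),(2,0)]⟩),.k,.k,[⟨0,[(0,0),(25,0)]⟩,⟨0,[(26,0),(15,0)]⟩,⟨0,[(1,0),(23,0)]⟩,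
  ⟨0,[(8,0),(4,0),(31,0)]⟩]⟩)) (.R ⟨1,false,false,true,[1,0,0,-1],[1,0,-1],[0,1,0,0,0,0,0,0,-1],(⟨0,
  [(24,0)]⟩,⟨0,[(25,0)]⟩),(⟨0,[(33,0)]⟩,⟨0,[(34,0)]⟩),⟨0,[(4,0)]⟩,.k,.k,(.x (-1) ⟨7,[(16,3),(1,3),
  (3,2),(0,2),(11,1)]⟩ ⟨0,[(37,0)]⟩),.k,(.r (-1) ⟨2,[(0,2),(8,1),(3,0),(6,1)]⟩ ⟨5,[(3,3),(19,0),(5,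
  1),(0,1),(9,5),(1,2)]⟩),.k,⟨false,1,⟨2,[(0,2),(8,0),(3,1),(6,0)]⟩,⟨5,[(2,1),(0,1),(19,0),(8,1),(7,
  1),(1,0)]⟩⟩,⟨true,0,⟨0,[(24,0),(2,0)]⟩,⟨0,[(19,0),(5,0)]⟩⟩,⟨true,0,⟨0,[(44,0)]⟩,⟨0,[]⟩⟩,⟨false,0,
  ⟨0,[(8,0),(20,0)]⟩,⟨0,[(7,0),(1,0)]⟩⟩,⟨false,0,⟨0,[(40,0)]⟩,⟨0,[(39,0),(2,0)]⟩⟩,⟨false,0,⟨0,[(8,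
  0),(20,0),(10,0)]⟩,⟨0,[(0,0),(8,0),(15,0)]⟩⟩,[.o ⟨false,0,⟨0,[(26,0)]⟩,⟨3,[(15,1),(5,1),(13,0),(6,
  0)]⟩⟩,.o ⟨false,1,⟨1,[(29,1),(5,0),(6,0)]⟩,⟨0,[(10,0)]⟩⟩,.o ⟨false,1,⟨1,[(25,1),(9,0),(5,0)]⟩,⟨0,
  [(19,0),(4,0),(2,0)]⟩⟩,.a ⟨true,0,⟨0,[(25,0)]⟩,⟨0,[(24,0)]⟩⟩ ⟨false,1,⟨1,[(22,0),(18,0)]⟩,⟨8,[(2,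
  0),(0,3),(9,0),(1,1),(7,1),(14,5)]⟩⟩ ⟨true,0,⟨0,[(24,0),(1,0)]⟩,⟨0,[(10,0),(14,0)]⟩⟩]⟩))))) (.I
  [1,-1,-1,0,1,0,0,1,-1] (.R ⟨0,false,false,true,[1,0,0,-1],[1,0,-1],[1,0,0,0,0,0,0,0,-1],(⟨0,[(21,
  0)]⟩,⟨0,[(22,0)]⟩),(⟨0,[(30,0)]⟩,⟨0,[(31,0)]⟩),⟨0,[(1,0)]⟩,.k,.k,(.x (-1) ⟨7,[(13,3),(1,3),(3,2),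
  (0,2),(11,1)]⟩ ⟨0,[(34,0)]⟩),.k,.k,.k,⟨false,1,⟨0,[(0,0)]⟩,⟨0,[(2,0),(26,0),(7,0)]⟩⟩,⟨true,0,⟨0,
  [(21,0),(2,0)]⟩,⟨0,[(16,0),(5,0)]⟩⟩,⟨true,0,⟨0,[]⟩,⟨0,[(41,0)]⟩⟩,⟨false,0,⟨0,[(5,0),(20,0)]⟩,⟨0,
  [(4,0),(1,0)]⟩⟩,⟨false,0,⟨0,[]⟩,⟨0,[]⟩⟩,⟨false,0,⟨0,[]⟩,⟨0,[]⟩⟩,[.o ⟨false,0,⟨0,[(23,0)]⟩,⟨3,[(12,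
  1),(5,1),(13,0),(6,0)]⟩⟩,.o ⟨false,1,⟨1,[(26,1),(5,0),(6,0)]⟩,⟨0,[(7,0)]⟩⟩,.o ⟨false,1,⟨1,[(22,1),
  (9,0),(5,0)]⟩,⟨0,[(16,0),(4,0),(2,0)]⟩⟩,.a ⟨true,0,⟨0,[(22,0)]⟩,⟨0,[(21,0)]⟩⟩ ⟨false,1,⟨0,[(0,0),
  (28,0)]⟩,⟨3,[(2,0),(2,2),(4,0),(11,2),(3,0),(0,0)]⟩⟩ ⟨true,0,⟨0,[(21,0),(1,0)]⟩,⟨0,[(7,0),(14,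
  0)]⟩⟩]⟩) (.Q [0,1,1,0,-1,0,0,0,1,1,0,-1] (.p false [0,0,0,1] [1] (⟨0,[(22,0)]⟩,⟨0,[(21,0)]⟩) .k 1
  (⟨0,[]⟩,⟨0,[]⟩) .k .k) (.R ⟨0,false,false,true,[1,0,0,-1],[0,1],[1,0,1],(⟨0,[(22,0)]⟩,⟨0,[(23,
  0)]⟩),(⟨0,[(35,0)]⟩,⟨0,[(34,0)]⟩),⟨0,[(2,0)]⟩,.k,.k,(.x (-1) ⟨7,[(14,3),(1,3),(3,2),(0,2),(11,
  1)]⟩ ⟨0,[(35,0)]⟩),(.x (-1) ⟨7,[(14,3),(1,3),(3,2),(0,2),(11,1)]⟩ ⟨0,[(35,0)]⟩),.k,.k,⟨false,1,⟨3,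
  [(7,1),(10,1),(11,1),(5,1),(2,2),(0,0)]⟩,⟨3,[(11,1),(7,0),(4,0),(2,0),(10,1)]⟩⟩,⟨true,0,⟨0,[(22,
  0)]⟩,⟨0,[(17,0),(5,0),(1,0)]⟩⟩,⟨false,0,⟨0,[(6,0),(16,0)]⟩,⟨1,[(20,0),(18,0)]⟩⟩,⟨true,(-1),⟨0,[(0,
  0),(37,0)]⟩,⟨0,[(5,0),(1,0),(7,0)]⟩⟩,⟨false,0,⟨0,[]⟩,⟨0,[]⟩⟩,⟨false,0,⟨0,[]⟩,⟨0,[]⟩⟩,[.o ⟨false,0,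
  ⟨3,[(11,1),(7,0),(4,0),(2,0),(10,1)]⟩,⟨3,[(7,1),(7,1),(17,0),(6,2)]⟩⟩,.o ⟨false,0,⟨0,[(38,0)]⟩,⟨1,
  [(33,0),(3,1),(2,0)]⟩⟩,.o ⟨false,1,⟨1,[(23,1),(9,0),(5,0)]⟩,⟨0,[(17,0),(4,0),(2,0)]⟩⟩,.a ⟨true,0,
  ⟨0,[(23,0)]⟩,⟨0,[(22,0)]⟩⟩ ⟨true,0,⟨0,[]⟩,⟨0,[(42,0)]⟩⟩ ⟨false,0,⟨0,[(22,0),(15,0)]⟩,⟨3,[(7,1),(7,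
  1),(7,3),(9,0),(6,2)]⟩⟩]⟩) (.R ⟨0,false,false,true,[1,0,0,-1],[1,0,-1],[1,1,1,0,0,0,0,-1],(⟨0,
  [(22,0)]⟩,⟨0,[(23,0)]⟩),(⟨0,[(31,0)]⟩,⟨0,[(32,0)]⟩),⟨0,[(2,0)]⟩,.k,.k,(.x (-1) ⟨7,[(14,3),(1,3),
  (3,2),(0,2),(11,1)]⟩ ⟨0,[(35,0)]⟩),.k,.k,.k,⟨false,0,⟨0,[]⟩,⟨3,[(20,0),(0,0),(17,1)]⟩⟩,⟨true,0,⟨0,
  [(22,0),(2,0)]⟩,⟨0,[(17,0),(5,0)]⟩⟩,⟨true,(-1),⟨0,[(1,0)]⟩,⟨2,[(0,2),(6,0),(3,1),(6,0),(3,2)]⟩⟩,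
  ⟨false,0,⟨0,[(6,0),(20,0)]⟩,⟨0,[(5,0),(1,0)]⟩⟩,⟨false,0,⟨0,[]⟩,⟨0,[]⟩⟩,⟨false,0,⟨0,[]⟩,⟨0,[]⟩⟩,
  [.o ⟨false,0,⟨0,[(24,0)]⟩,⟨3,[(13,1),(5,1),(13,0),(6,0)]⟩⟩,.o ⟨false,1,⟨1,[(27,1),(5,0),(6,0)]⟩,
  ⟨0,[(8,0)]⟩⟩,.o ⟨false,1,⟨1,[(23,1),(9,0),(5,0)]⟩,⟨0,[(17,0),(4,0),(2,0)]⟩⟩,.a ⟨true,0,⟨0,[(23,
  0)]⟩,⟨0,[(22,0)]⟩⟩ ⟨false,0,⟨0,[(30,0)]⟩,⟨7,[(13,3),(6,0),(0,0),(18,1)]⟩⟩ ⟨true,0,⟨0,[(22,0),(1,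
  0)]⟩,⟨0,[(8,0),(14,0)]⟩⟩]⟩)))) (.Q [0,0,0,0,0,-1,0,0,0,1,0,-1] (.p false [0,0,0,1] [1] (⟨0,[(20,
  0)]⟩,⟨0,[(19,0)]⟩) .k 1 (⟨0,[]⟩,⟨0,[]⟩) .k .k) (.R ⟨1,false,false,false,[1,0,0,-1],[0,0,1],[1,0,0,
  -1,0,0,0,0,-1],(⟨0,[(20,0)]⟩,⟨0,[(21,0)]⟩),(⟨0,[(30,0)]⟩,⟨0,[(29,0)]⟩),⟨0,[(0,0)]⟩,.k,.k,(.x (-1)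
  ⟨7,[(12,3),(1,3),(3,2),(0,2),(11,1)]⟩ ⟨0,[(33,0)]⟩),.k,(.r (-1) ⟨4,[(1,0),(3,2),(10,2),(1,1),(9,
  7),(5,0),(2,2)]⟩ ⟨0,[(4,0),(4,0),(11,0)]⟩),.k,⟨true,0,⟨0,[(1,0),(3,0),(10,0),(11,1)]⟩,⟨0,[(4,0),
  (4,0),(11,0)]⟩⟩,⟨false,0,⟨0,[(15,0),(4,0)]⟩,⟨3,[(2,1),(18,3),(9,0),(5,2)]⟩⟩,⟨false,1,⟨0,[(35,0),
  (2,0)]⟩,⟨0,[(36,0)]⟩⟩,⟨false,0,⟨0,[(4,0),(2,0)]⟩,⟨0,[(3,0),(9,0)]⟩⟩,⟨true,0,⟨0,[]⟩,⟨0,[(40,0)]⟩⟩,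
  ⟨false,0,⟨0,[(4,0),(2,0),(28,0)]⟩,⟨3,[(1,0),(1,2),(1,1),(7,3),(2,1),(4,0),(6,1),(5,0),(2,0)]⟩⟩,
  [.o ⟨false,0,⟨0,[(6,0)]⟩,⟨1,[(25,1),(5,0),(6,0)]⟩⟩,.o ⟨false,1,⟨3,[(11,1),(5,1),(13,0),(6,0)]⟩,⟨0,
  [(22,0)]⟩⟩,.o ⟨false,1,⟨1,[(21,1),(9,0),(5,0)]⟩,⟨11,[(1,2),(2,2),(3,3),(0,0),(10,8),(1,0),(0,3),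
  (2,4)]⟩⟩,.a ⟨true,0,⟨0,[(21,0)]⟩,⟨0,[(20,0)]⟩⟩ ⟨false,1,⟨4,[(1,2),(3,3),(10,3),(1,0),(9,3),(5,2),
  (2,3)]⟩,⟨3,[(4,3),(4,1),(7,0),(3,3),(0,0),(2,0),(10,1)]⟩⟩ ⟨true,0,⟨0,[(6,0),(13,0)]⟩,⟨0,[(21,0),
  (0,0)]⟩⟩]⟩) (.R ⟨0,false,false,false,[1,0,0,-1],[0,1],[1,0,0,0,0,0,0,0,-1],(⟨0,[(20,0)]⟩,⟨0,[(21,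
  0)]⟩),(⟨0,[(33,0)]⟩,⟨0,[(32,0)]⟩),⟨0,[(0,0)]⟩,.k,.k,(.x (-1) ⟨7,[(12,3),(1,3),(3,2),(0,2),(11,
  1)]⟩ ⟨0,[(33,0)]⟩),(.x (-1) ⟨7,[(12,3),(1,3),(3,2),(0,2),(11,1)]⟩ ⟨0,[(33,0)]⟩),.k,.k,⟨false,1,⟨0,
  [(1,0),(3,0),(10,0),(11,0),(8,0)]⟩,⟨3,[(4,3),(4,1),(7,0),(3,3),(0,0),(2,0),(10,1)]⟩⟩,⟨true,0,⟨0,
  [(20,0)]⟩,⟨0,[(15,0),(5,0),(1,0)]⟩⟩,⟨true,0,⟨0,[]⟩,⟨0,[(40,0)]⟩⟩,⟨false,0,⟨0,[(4,0),(15,0),(0,0),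
  (14,0)]⟩,⟨0,[(3,0),(1,0),(7,0)]⟩⟩,⟨false,0,⟨0,[]⟩,⟨0,[]⟩⟩,⟨false,0,⟨0,[]⟩,⟨0,[]⟩⟩,[.o ⟨false,0,⟨0,
  [(36,0)]⟩,⟨1,[(31,0),(3,1),(2,0)]⟩⟩,.o ⟨false,1,⟨3,[(18,0),(0,0),(16,3),(1,1)]⟩,⟨0,[(8,0)]⟩⟩,.o
  ⟨false,1,⟨1,[(21,1),(9,0),(5,0)]⟩,⟨11,[(1,2),(2,2),(3,3),(0,0),(10,8),(1,0),(0,3),(2,4)]⟩⟩,.a
  ⟨true,0,⟨0,[(21,0)]⟩,⟨0,[(20,0)]⟩⟩ ⟨false,1,⟨9,[(1,3),(3,1),(10,1),(1,2),(9,1),(5,3),(2,6)]⟩,⟨0,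
  [(4,0),(16,0),(18,0)]⟩⟩ ⟨true,0,⟨0,[(20,0),(15,0)]⟩,⟨0,[(8,0),(12,0)]⟩⟩]⟩)))) (.I [0,0,1,1,0,0,0,
  0,-1] (.K ⟨0,[0,0,0,1],0,(-1),(⟨0,[(19,0)]⟩,⟨0,[(18,0)]⟩),.k,(.r (-1) ⟨3,[(1,1),(15,0),(1,1),(13,
  1),(1,2),(0,1)]⟩ ⟨0,[(0,0)]⟩),(.x 0 ⟨0,[(31,0)]⟩ ⟨7,[(10,3),(1,3),(3,2),(0,2),(11,1)]⟩),.k,.k,[⟨0,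
  [(19,0)]⟩,⟨0,[(18,0)]⟩,⟨1,[(16,0),(2,1),(15,0),(2,1)]⟩,⟨0,[(1,0),(32,0)]⟩]⟩) (.K ⟨0,[0,0,0,1],0,
  (-1),(⟨0,[(19,0)]⟩,⟨0,[(18,0)]⟩),.k,(.x 0 ⟨0,[(21,0),(2,0),(5,0)]⟩ ⟨0,[(31,0),(3,0)]⟩),(.x 0 ⟨0,
  [(31,0)]⟩ ⟨7,[(10,3),(1,3),(3,2),(0,2),(11,1)]⟩),.k,.k,[⟨0,[(19,0)]⟩,⟨0,[(18,0)]⟩,⟨1,[(16,0),(2,
  1),(15,0),(2,1)]⟩,⟨0,[(1,0),(32,0)]⟩]⟩)))))) (.Q [0,0,0,1,0,0,1,1,0,1,-1] (.p false [0,0,1] [1]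
  (⟨0,[(23,0)]⟩,⟨0,[(22,0)]⟩) .k 1 (⟨0,[]⟩,⟨0,[]⟩) .k .k) (.R ⟨2,true,false,false,[0,1],[1,0,-1],[0,
  1,1,1],(⟨0,[]⟩,⟨0,[]⟩),(⟨0,[(23,0)]⟩,⟨0,[(24,0)]⟩),⟨0,[]⟩,.k,.k,.k,.k,.k,.k,⟨false,0,⟨0,[(3,0)]⟩,
  ⟨0,[(22,0),(5,0),(0,0),(1,0)]⟩⟩,⟨true,0,⟨0,[(17,0)]⟩,⟨1,[(11,0),(2,0),(0,0)]⟩⟩,⟨true,0,⟨0,[(34,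
  0)]⟩,⟨0,[]⟩⟩,⟨false,1,⟨0,[(7,0),(24,0)]⟩,⟨0,[(0,0)]⟩⟩,⟨false,0,⟨0,[(30,0)]⟩,⟨0,[(29,0),(2,0)]⟩⟩,
  ⟨true,0,⟨0,[(1,0)]⟩,⟨0,[(0,0),(28,0)]⟩⟩,[]⟩) (.Q [0,1,1,0,-1,0,0,0,1,0,0,-1] (.p false [0,0,0,1]
  [] (⟨0,[(15,0)]⟩,⟨0,[(14,0)]⟩) .k 0 (⟨0,[]⟩,⟨0,[]⟩) .k .k) (.K ⟨0,[0,0,0,1],0,(-1),(⟨0,[(16,0)]⟩,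
  ⟨0,[(15,0)]⟩),.k,(.x 0 ⟨0,[(18,0),(2,0),(5,0)]⟩ ⟨0,[(28,0),(3,0)]⟩),(.x 0 ⟨0,[(28,0)]⟩ ⟨7,[(7,3),
  (1,3),(3,2),(0,2),(11,1)]⟩),.k,.k,[⟨0,[(16,0)]⟩,⟨0,[(15,0)]⟩,⟨1,[(13,0),(2,1),(15,0),(2,1)]⟩,⟨0,
  [(0,0)]⟩]⟩) (.Q [0,1,-1,0,0,0,0,0,-1,0,0,1] (.p true [0,0,0,1] [] (⟨0,[(16,0)]⟩,⟨0,[(15,0)]⟩) .k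
  0 (⟨0,[]⟩,⟨0,[]⟩) .k .k) (.Q [0,1,1,0,0,0,0,0,1,0,0,-1] (.p false [0,0,0,1] [] (⟨0,[(17,0)]⟩,⟨0,
  [(16,0)]⟩) .k 0 (⟨0,[]⟩,⟨0,[]⟩) .k .k) (.K ⟨0,[0,0,0,1],0,0,(⟨0,[(18,0)]⟩,⟨0,[(17,0)]⟩),.k,(.x 0
  ⟨0,[(20,0),(2,0),(5,0)]⟩ ⟨0,[(30,0),(3,0)]⟩),(.x 0 ⟨0,[(30,0)]⟩ ⟨7,[(9,3),(1,3),(3,2),(0,2),(11,
  1)]⟩),.k,.k,[⟨0,[(18,0)]⟩,⟨0,[(17,0)]⟩,⟨0,[(1,0)]⟩,⟨0,[(0,0)]⟩]⟩) (.Q [0,0,0,0,0,-1,0,0,0,1,0,-1]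
  (.p false [0,0,0,1] [1] (⟨0,[(18,0)]⟩,⟨0,[(17,0)]⟩) .k 1 (⟨0,[]⟩,⟨0,[]⟩) .k .k) (.I [0,0,-1,-1,0,
  0,0,1,-1] (.R ⟨1,false,false,false,[1,0,0,-1],[1,0,-1],[0,1,0,0,0,0,0,0,-1],(⟨0,[(19,0)]⟩,⟨0,[(20,
  0)]⟩),(⟨0,[(28,0)]⟩,⟨0,[(29,0)]⟩),⟨0,[(1,0)]⟩,.k,.k,(.x (-1) ⟨7,[(11,3),(1,3),(3,2),(0,2),(11,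
  1)]⟩ ⟨0,[(32,0)]⟩),.k,(.r 0 ⟨0,[(0,0)]⟩ ⟨1,[(18,0),(5,1),(0,1),(9,1),(1,0)]⟩),.k,⟨false,0,⟨3,[(0,
  2),(2,0),(4,1),(5,0),(4,0),(1,0),(13,0)]⟩,⟨1,[(18,0),(8,1),(9,0)]⟩⟩,⟨true,0,⟨0,[(19,0),(2,0)]⟩,⟨0,
  [(14,0),(5,0)]⟩⟩,⟨true,0,⟨0,[(39,0)]⟩,⟨0,[]⟩⟩,⟨false,1,⟨1,[(18,0),(0,1),(2,1),(4,1),(9,0)]⟩,⟨0,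
  [(2,0),(20,0)]⟩⟩,⟨false,0,⟨0,[(35,0)]⟩,⟨0,[(34,0),(2,0)]⟩⟩,⟨false,1,⟨1,[(18,0),(0,1),(2,1),(4,1),
  (7,1),(1,0)]⟩,⟨0,[(2,0),(6,0)]⟩⟩,[.o ⟨false,0,⟨0,[(6,0)]⟩,⟨11,[(10,3),(5,3),(0,2),(0,2),(4,3),(6,
  1)]⟩⟩,.o ⟨false,1,⟨3,[(6,1),(17,1),(5,0),(6,2)]⟩,⟨0,[(23,0)]⟩⟩,.o ⟨false,1,⟨1,[(2,0),(0,0),(14,0),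
  (11,0)]⟩,⟨0,[(14,0),(4,0),(2,0)]⟩⟩,.a ⟨true,0,⟨0,[(20,0)]⟩,⟨0,[(19,0)]⟩⟩ ⟨false,0,⟨1,[(0,0),(1,0),
  (11,0),(4,0),(1,0),(13,0)]⟩,⟨1,[(18,0),(6,0),(0,0),(10,0)]⟩⟩ ⟨true,0,⟨0,[(6,0),(12,0)]⟩,⟨0,[(20,
  0),(2,0)]⟩⟩]⟩) (.R ⟨1,false,false,false,[1,0,0,-1],[1,0,-1],[0,1,0,0,0,0,0,0,-1],(⟨0,[(19,0)]⟩,⟨0,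
  [(20,0)]⟩),(⟨0,[(28,0)]⟩,⟨0,[(29,0)]⟩),⟨0,[(1,0)]⟩,.k,.k,(.x (-1) ⟨7,[(11,3),(1,3),(3,2),(0,2),
  (11,1)]⟩ ⟨0,[(32,0)]⟩),.k,(.x 0 ⟨0,[(13,0),(0,0)]⟩ ⟨5,[(10,1),(11,1),(1,3),(3,5),(1,1),(1,5),(3,
  0),(0,0)]⟩),.k,⟨false,0,⟨0,[(2,0),(4,0),(0,0),(10,0)]⟩,⟨1,[(18,0),(8,1),(9,0)]⟩⟩,⟨true,0,⟨0,[(19,
  0),(2,0)]⟩,⟨0,[(14,0),(5,0)]⟩⟩,⟨true,0,⟨0,[(39,0)]⟩,⟨0,[]⟩⟩,⟨false,1,⟨3,[(0,1),(11,1),(5,0),(0,3),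
  (2,1),(14,2)]⟩,⟨0,[(2,0),(20,0)]⟩⟩,⟨false,0,⟨0,[(35,0)]⟩,⟨0,[(34,0),(2,0)]⟩⟩,⟨false,1,⟨7,[(0,3),
  (5,1),(11,1),(0,7),(2,3),(1,1),(5,0),(4,3),(1,4)]⟩,⟨0,[(2,0),(6,0)]⟩⟩,[.o ⟨false,0,⟨0,[(6,0)]⟩,
  ⟨11,[(10,3),(5,3),(0,2),(0,2),(4,3),(6,1)]⟩⟩,.o ⟨false,1,⟨3,[(6,1),(17,1),(5,0),(6,2)]⟩,⟨0,[(23,
  0)]⟩⟩,.o ⟨false,1,⟨1,[(2,0),(0,0),(14,0),(11,0)]⟩,⟨0,[(14,0),(4,0),(2,0)]⟩⟩,.a ⟨true,0,⟨0,[(20,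
  0)]⟩,⟨0,[(19,0)]⟩⟩ ⟨false,0,⟨0,[(2,0),(4,0),(11,0),(15,0)]⟩,⟨1,[(18,0),(6,0),(0,0),(10,0)]⟩⟩
  ⟨true,0,⟨0,[(6,0),(12,0)]⟩,⟨0,[(20,0),(2,0)]⟩⟩]⟩)) (.R ⟨0,false,false,false,[1,0,0,-1],[1,0,-1],
  [0,1,0,0,0,0,0,0,-1],(⟨0,[(18,0)]⟩,⟨0,[(19,0)]⟩),(⟨0,[(27,0)]⟩,⟨0,[(28,0)]⟩),⟨0,[(0,0)]⟩,.k,.k,
  (.x (-1) ⟨7,[(10,3),(1,3),(3,2),(0,2),(11,1)]⟩ ⟨0,[(31,0)]⟩),.k,.k,.k,⟨false,0,⟨0,[(1,0),(4,0),(0,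
  0),(10,0)]⟩,⟨1,[(17,0),(8,1),(9,0)]⟩⟩,⟨true,0,⟨0,[(18,0),(2,0)]⟩,⟨0,[(13,0),(5,0)]⟩⟩,⟨true,0,⟨0,
  [(38,0)]⟩,⟨0,[]⟩⟩,⟨false,1,⟨1,[(17,0),(0,1),(2,1),(4,1),(9,0)]⟩,⟨0,[(1,0),(20,0)]⟩⟩,⟨false,0,⟨0,
  []⟩,⟨0,[]⟩⟩,⟨false,0,⟨0,[]⟩,⟨0,[]⟩⟩,[.o ⟨false,0,⟨0,[(5,0)]⟩,⟨11,[(9,3),(5,3),(0,2),(0,2),(4,3),
  (6,1)]⟩⟩,.o ⟨false,1,⟨3,[(5,1),(17,1),(5,0),(6,2)]⟩,⟨0,[(22,0)]⟩⟩,.o ⟨false,1,⟨1,[(1,0),(0,0),(14,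
  0),(11,0)]⟩,⟨0,[(13,0),(4,0),(2,0)]⟩⟩,.a ⟨true,0,⟨0,[(19,0)]⟩,⟨0,[(18,0)]⟩⟩ ⟨false,0,⟨0,[(1,0),(4,
  0),(11,0),(15,0)]⟩,⟨1,[(17,0),(6,0),(0,0),(10,0)]⟩⟩ ⟨true,0,⟨0,[(5,0),(12,0)]⟩,⟨0,[(19,0),(2,
  0)]⟩⟩]⟩))) (.Q [0,0,0,0,0,-1,0,0,0,1,0,-1] (.p false [0,0,0,1] [1] (⟨0,[(17,0)]⟩,⟨0,[(16,0)]⟩) .k
  1 (⟨0,[]⟩,⟨0,[]⟩) .k .k) (.I [0,1,-2,-1,1,0,0,0,-1] (.R ⟨1,false,false,false,[1,0,0,-1],[0,1],[0,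
  1,0,0,0,0,0,0,-1],(⟨0,[(18,0)]⟩,⟨0,[(19,0)]⟩),(⟨0,[(31,0)]⟩,⟨0,[(30,0)]⟩),⟨0,[(1,0)]⟩,.k,.k,(.x
  (-1) ⟨7,[(10,3),(1,3),(3,2),(0,2),(11,1)]⟩ ⟨0,[(31,0)]⟩),(.x (-1) ⟨7,[(10,3),(1,3),(3,2),(0,2),
  (11,1)]⟩ ⟨0,[(31,0)]⟩),(.x 0 ⟨0,[(10,0),(1,0),(0,0),(7,0)]⟩ ⟨3,[(16,0),(0,0),(13,7),(3,1)]⟩),.k,
  ⟨false,1,⟨0,[(0,0)]⟩,⟨0,[(2,0),(16,0),(14,0)]⟩⟩,⟨true,0,⟨0,[(18,0)]⟩,⟨0,[(13,0),(5,0),(1,0)]⟩⟩,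
  ⟨true,0,⟨0,[(38,0)]⟩,⟨0,[]⟩⟩,⟨false,0,⟨0,[(2,0),(15,0),(0,0),(14,0)]⟩,⟨0,[(3,0),(2,0)]⟩⟩,⟨false,0,
  ⟨0,[(34,0)]⟩,⟨0,[(33,0),(2,0)]⟩⟩,⟨false,0,⟨0,[(2,0),(15,0),(0,0),(14,1)]⟩,⟨0,[(3,0),(0,0),(3,
  0)]⟩⟩,[.o ⟨false,0,⟨0,[(34,0)]⟩,⟨1,[(29,0),(3,1),(2,0)]⟩⟩,.o ⟨false,1,⟨3,[(16,0),(0,0),(16,3),(1,
  1)]⟩,⟨0,[(6,0)]⟩⟩,.o ⟨false,1,⟨1,[(19,1),(9,0),(5,0)]⟩,⟨0,[(13,0),(4,0),(2,0)]⟩⟩,.a ⟨true,0,⟨0,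
  [(19,0)]⟩,⟨0,[(18,0)]⟩⟩ ⟨false,1,⟨1,[(16,0),(18,0)]⟩,⟨0,[(2,0),(16,0)]⟩⟩ ⟨true,0,⟨0,[(18,0),(15,
  0)]⟩,⟨0,[(6,0),(12,0)]⟩⟩]⟩) (.R ⟨1,false,false,false,[1,0,0,-1],[1,0,-1],[0,1,0,0,0,0,0,0,-1],(⟨0,
  [(18,0)]⟩,⟨0,[(19,0)]⟩),(⟨0,[(27,0)]⟩,⟨0,[(28,0)]⟩),⟨0,[(1,0)]⟩,.k,.k,(.x (-1) ⟨7,[(10,3),(1,3),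
  (3,2),(0,2),(11,1)]⟩ ⟨0,[(31,0)]⟩),.k,(.x 0 ⟨0,[(12,0),(0,0)]⟩ ⟨5,[(9,1),(11,1),(1,3),(3,5),(1,1),
  (1,5),(3,0),(0,0)]⟩),.k,⟨false,1,⟨3,[(3,1),(0,1),(2,3),(0,1),(7,0),(1,1),(16,0)]⟩,⟨1,[(0,1),(3,1),
  (10,0),(2,0),(0,0),(15,1)]⟩⟩,⟨true,0,⟨0,[(18,0),(2,0)]⟩,⟨0,[(13,0),(5,0)]⟩⟩,⟨true,0,⟨0,[(38,0)]⟩,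
  ⟨0,[]⟩⟩,⟨false,0,⟨3,[(0,1),(1,1),(1,1),(13,1),(4,1),(11,0),(0,0)]⟩,⟨0,[(3,0),(18,0)]⟩⟩,⟨false,0,
  ⟨0,[(34,0)]⟩,⟨0,[(33,0),(2,0)]⟩⟩,⟨false,0,⟨3,[(0,1),(1,1),(2,1),(12,1),(4,1),(10,1),(0,0),(0,0)]⟩,
  ⟨0,[(3,0),(4,0)]⟩⟩,[.o ⟨false,0,⟨0,[(5,0)]⟩,⟨11,[(9,3),(5,3),(0,2),(0,2),(4,3),(6,1)]⟩⟩,.o ⟨false,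
  1,⟨3,[(5,1),(17,1),(5,0),(6,2)]⟩,⟨0,[(22,0)]⟩⟩,.o ⟨false,1,⟨1,[(19,1),(9,0),(5,0)]⟩,⟨3,[(0,1),(5,
  1),(9,0),(1,3),(10,0)]⟩⟩,.a ⟨true,0,⟨0,[(19,0)]⟩,⟨0,[(18,0)]⟩⟩ ⟨false,1,⟨1,[(16,0),(18,0)]⟩,⟨17,
  [(0,7),(3,1),(3,1),(5,3),(0,1),(1,4),(14,7),(2,2)]⟩⟩ ⟨true,0,⟨0,[(5,0),(12,0)]⟩,⟨0,[(19,0),(2,
  0)]⟩⟩]⟩)) (.I [1,0,-2,-1,1,0,0,0,-1] (.R ⟨0,false,false,false,[1,0,0,-1],[0,1],[1,0,0,0,0,0,0,0,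
  -1],(⟨0,[(18,0)]⟩,⟨0,[(19,0)]⟩),(⟨0,[(31,0)]⟩,⟨0,[(30,0)]⟩),⟨0,[(1,0)]⟩,.k,.k,(.x (-1) ⟨7,[(10,3),
  (1,3),(3,2),(0,2),(11,1)]⟩ ⟨0,[(31,0)]⟩),(.x (-1) ⟨7,[(10,3),(1,3),(3,2),(0,2),(11,1)]⟩ ⟨0,[(31,
  0)]⟩),.k,.k,⟨false,1,⟨0,[(0,0)]⟩,⟨3,[(2,3),(4,1),(7,0),(3,3),(0,0),(2,0),(10,1)]⟩⟩,⟨true,0,⟨0,
  [(18,0)]⟩,⟨0,[(13,0),(5,0),(1,0)]⟩⟩,⟨true,0,⟨0,[]⟩,⟨0,[(38,0)]⟩⟩,⟨false,0,⟨0,[(2,0),(15,0),(0,0),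
  (14,0)]⟩,⟨0,[(3,0),(2,0)]⟩⟩,⟨false,0,⟨0,[]⟩,⟨0,[]⟩⟩,⟨false,0,⟨0,[]⟩,⟨0,[]⟩⟩,[.o ⟨false,0,⟨0,[(34,
  0)]⟩,⟨1,[(29,0),(3,1),(2,0)]⟩⟩,.o ⟨false,1,⟨3,[(16,0),(0,0),(16,3),(1,1)]⟩,⟨0,[(6,0)]⟩⟩,.o ⟨false,
  1,⟨1,[(19,1),(9,0),(5,0)]⟩,⟨0,[(13,0),(4,0),(2,0)]⟩⟩,.a ⟨true,0,⟨0,[(19,0)]⟩,⟨0,[(18,0)]⟩⟩ ⟨false,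
  1,⟨5,[(0,3),(15,0),(15,1),(1,3),(1,0)]⟩,⟨0,[(2,0),(16,0),(18,0)]⟩⟩ ⟨true,0,⟨0,[(18,0),(15,0)]⟩,⟨0,
  [(6,0),(12,0)]⟩⟩]⟩) (.I [0,1,-2,-1,1,0,0,0,-1] (.R ⟨0,false,false,false,[1,0,0,-1],[0,1],[1,0,2,
  1],(⟨0,[(19,0)]⟩,⟨0,[(20,0)]⟩),(⟨0,[(32,0)]⟩,⟨0,[(31,0)]⟩),⟨0,[(2,0)]⟩,.k,.k,(.x (-1) ⟨7,[(11,3),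
  (1,3),(3,2),(0,2),(11,1)]⟩ ⟨0,[(32,0)]⟩),(.x (-1) ⟨7,[(11,3),(1,3),(3,2),(0,2),(11,1)]⟩ ⟨0,[(32,
  0)]⟩),.k,.k,⟨false,0,⟨0,[]⟩,⟨3,[(17,0),(0,0),(17,1)]⟩⟩,⟨true,0,⟨0,[(19,0)]⟩,⟨0,[(14,0),(5,0),(1,
  0)]⟩⟩,⟨true,(-1),⟨0,[(1,0)]⟩,⟨0,[(0,0)]⟩⟩,⟨false,0,⟨3,[(1,1),(16,0),(0,3),(13,1),(1,1),(0,0)]⟩,⟨0,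
  [(4,0),(2,0)]⟩⟩,⟨false,0,⟨0,[]⟩,⟨0,[]⟩⟩,⟨false,0,⟨0,[]⟩,⟨0,[]⟩⟩,[.o ⟨false,0,⟨0,[(35,0)]⟩,⟨1,[(30,
  0),(3,1),(2,0)]⟩⟩,.o ⟨false,1,⟨3,[(17,0),(0,0),(16,3),(1,1)]⟩,⟨0,[(7,0)]⟩⟩,.o ⟨false,1,⟨1,[(20,1),
  (9,0),(5,0)]⟩,⟨0,[(14,0),(4,0),(2,0)]⟩⟩,.a ⟨true,0,⟨0,[(20,0)]⟩,⟨0,[(19,0)]⟩⟩ ⟨false,0,⟨5,[(1,1),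
  (15,0),(15,1),(1,3),(1,0)]⟩,⟨1,[(34,1),(1,0),(0,0)]⟩⟩ ⟨true,0,⟨0,[(19,0),(15,0)]⟩,⟨0,[(7,0),(12,
  0)]⟩⟩]⟩) (.R ⟨0,false,false,false,[1,0,0,-1],[1,0,-1],[0,1,0,0,0,0,0,0,-1],(⟨0,[(19,0)]⟩,⟨0,[(20,
  0)]⟩),(⟨0,[(28,0)]⟩,⟨0,[(29,0)]⟩),⟨0,[(2,0)]⟩,.k,.k,(.x (-1) ⟨7,[(11,3),(1,3),(3,2),(0,2),(11,
  1)]⟩ ⟨0,[(32,0)]⟩),.k,.k,.k,⟨false,1,⟨3,[(4,1),(0,1),(2,3),(0,1),(7,0),(1,1),(16,0)]⟩,⟨1,[(0,1),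
  (4,1),(10,0),(2,0),(0,0),(15,1)]⟩⟩,⟨true,0,⟨0,[(19,0),(2,0)]⟩,⟨0,[(14,0),(5,0)]⟩⟩,⟨true,0,⟨0,[(39,
  0)]⟩,⟨0,[]⟩⟩,⟨false,0,⟨3,[(0,1),(2,1),(1,1),(13,1),(4,1),(11,0),(0,0)]⟩,⟨0,[(4,0),(18,0)]⟩⟩,
  ⟨false,0,⟨0,[]⟩,⟨0,[]⟩⟩,⟨false,0,⟨0,[]⟩,⟨0,[]⟩⟩,[.o ⟨false,0,⟨0,[(6,0)]⟩,⟨11,[(10,3),(5,3),(0,2),
  (0,2),(4,3),(6,1)]⟩⟩,.o ⟨false,1,⟨3,[(6,1),(17,1),(5,0),(6,2)]⟩,⟨0,[(23,0)]⟩⟩,.o ⟨false,1,⟨1,[(20,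
  1),(9,0),(5,0)]⟩,⟨3,[(0,1),(6,1),(9,0),(1,3),(10,0)]⟩⟩,.a ⟨true,0,⟨0,[(20,0)]⟩,⟨0,[(19,0)]⟩⟩
  ⟨false,1,⟨1,[(17,0),(18,0)]⟩,⟨17,[(0,7),(4,1),(3,1),(5,3),(0,1),(1,4),(14,7),(2,2)]⟩⟩ ⟨true,0,⟨0,
  [(6,0),(12,0)]⟩,⟨0,[(20,0),(2,0)]⟩⟩]⟩)))))))))

theorem ok16 : chk (cU (-1) true 10) t16 l12 = true := by decide +kernel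

noncomputable def t21 : Tre :=
  (.K ⟨2,[0,1,1],0,0,(⟨0,[(28,0),(2,0)]⟩,⟨0,[(10,0)]⟩),.k,.k,(.r 0 ⟨3,[(4,1),(19,2),(0,2),(8,5)]⟩
  ⟨0,[(7,0),(25,0),(1,0)]⟩),.k,(.r 0 ⟨0,[(0,0)]⟩ ⟨15,[(5,3),(0,3),(0,7),(8,4),(0,4),(5,3),(2,15),(8,
  5)]⟩),[⟨1,[(24,0),(0,0)]⟩,⟨0,[(5,0)]⟩,⟨1,[(24,0),(0,2)]⟩,⟨0,[(13,0)]⟩,⟨7,[(6,0),(0,1),(6,3),(0,0),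
  (7,4)]⟩,⟨0,[(22,0),(11,0)]⟩]⟩)

theorem ok21 : chk (cU (-1) true 10) t21 l19 = true := by decide +kernel

noncomputable def t23 : Tre :=
  (.Q [0,-1,0,1,0,0,0,0,0,1] (.pp false [-1,1]) (.R ⟨1,false,false,false,[1,-1],[0,1],[1,0,-1,-2],
  (⟨0,[(33,0)]⟩,⟨0,[(34,0)]⟩),(⟨0,[(34,0)]⟩,⟨0,[(33,0)]⟩),⟨0,[(13,0),(1,0)]⟩,.k,.k,(.x 0 ⟨2,[(6,1),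
  (8,3),(11,3)]⟩ ⟨0,[(34,1),(3,0)]⟩),(.x 0 ⟨2,[(6,1),(8,3),(11,3)]⟩ ⟨0,[(34,1),(3,0)]⟩),(.r (-2) ⟨6,
  [(2,5),(0,2),(15,0),(0,0),(15,5),(1,5)]⟩ ⟨1,[(1,1),(25,0),(0,0)]⟩),.k,⟨false,2,⟨6,[(2,5),(0,2),
  (15,0),(0,0),(15,5),(1,5)]⟩,⟨0,[(1,0)]⟩⟩,⟨true,1,⟨19,[(0,7),(4,3),(11,7),(1,0),(0,0),(9,7),(2,3),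
  (4,17)]⟩,⟨0,[(4,0)]⟩⟩,⟨false,1,⟨11,[(2,3),(7,3),(8,2),(0,2),(6,1),(0,1),(10,1)]⟩,⟨0,[(37,0)]⟩⟩,
  ⟨false,0,⟨2,[(0,2),(0,0),(36,0)]⟩,⟨7,[(2,3),(6,3),(9,0),(0,0),(6,3),(4,1)]⟩⟩,⟨true,0,⟨0,[]⟩,⟨0,
  [(41,0)]⟩⟩,⟨false,0,⟨2,[(0,2),(0,1),(36,1)]⟩,⟨15,[(2,11),(6,11),(9,0),(0,0),(6,11),(4,1)]⟩⟩,[.o
  ⟨false,0,⟨0,[(37,0)]⟩,⟨15,[(2,3),(6,3),(9,2),(0,2),(6,3),(4,5)]⟩⟩,.a ⟨true,0,⟨0,[(0,0)]⟩,⟨0,[(36,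
  0)]⟩⟩ ⟨true,1,⟨7,[(2,5),(0,1),(6,1),(8,0),(0,0)]⟩,⟨0,[(1,0),(34,0)]⟩⟩ ⟨false,1,⟨0,[(0,0),(37,0)]⟩,
  ⟨47,[(4,15),(4,11),(1,23),(7,2),(0,2),(5,11),(5,9)]⟩⟩,.o ⟨false,0,⟨2,[(4,0),(27,0)]⟩,⟨3,[(19,0),
  (0,0),(17,1)]⟩⟩,.o ⟨false,0,⟨11,[(4,7),(14,2),(0,2),(11,1)]⟩,⟨0,[(38,0)]⟩⟩]⟩) (.Q [0,0,1,0,0,0,0,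
  0,1,0,0,-1] (.p false [0,0,0,1] [] (⟨0,[(22,0)]⟩,⟨0,[(21,0)]⟩) .k 0 (⟨0,[]⟩,⟨0,[]⟩) .k .k) (.Q [0,
  1,-1,0,0,0,0,0,-1,0,0,1] (.p true [0,0,0,1] [] (⟨0,[(23,0)]⟩,⟨0,[(22,0)]⟩) .k 0 (⟨0,[]⟩,⟨0,[]⟩)
  .k .k) (.I [0,0,-1,-1,1,0,0,0,1] (.K ⟨0,[0,0,0,1],0,0,(⟨0,[(25,0)]⟩,⟨0,[(24,0)]⟩),.k,(.r (-1) ⟨0,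
  [(0,0)]⟩ ⟨23,[(1,1),(2,7),(2,2),(14,10),(1,2),(0,0),(12,0)]⟩),(.x 0 ⟨0,[(37,0)]⟩ ⟨7,[(16,3),(1,3),
  (3,2),(0,2),(11,1)]⟩),.k,.k,[⟨0,[(25,0)]⟩,⟨0,[(24,0)]⟩,⟨0,[(1,0)]⟩,⟨0,[(2,0),(41,0)]⟩]⟩) (.K ⟨0,
  [0,0,0,1],0,0,(⟨0,[(25,0)]⟩,⟨0,[(24,0)]⟩),.k,(.x 0 ⟨11,[(7,5),(1,1),(8,3),(3,2),(0,2),(6,3),(5,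
  5)]⟩ ⟨0,[(37,0),(3,0)]⟩),(.x 0 ⟨0,[(37,0)]⟩ ⟨7,[(16,3),(1,3),(3,2),(0,2),(11,1)]⟩),.k,.k,[⟨0,[(25,
  0)]⟩,⟨0,[(24,0)]⟩,⟨0,[(1,0)]⟩,⟨0,[(2,0),(41,0)]⟩]⟩)) (.I [1,-1,-1,-1,1,0,0,1,1] (.Q [0,-1,-1,0,1,
  0,0,0,-1,0,0,1] (.p true [0,0,0,1] [] (⟨0,[(25,0)]⟩,⟨0,[(24,0)]⟩) .k 0 (⟨0,[]⟩,⟨0,[]⟩) .k .k) (.Q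
  [0,0,0,0,0,2,0,0,0,0,-1] (.p false [0,0,1] [] (⟨0,[(35,0)]⟩,⟨0,[(34,0)]⟩) .k 0 (⟨0,[]⟩,⟨0,[]⟩) .k
  .k) (.Q [0,0,-1,0,1,0,-2,0,0,-1,2] (.p true [0,0,1] [1,0,-1] (⟨0,[(36,0)]⟩,⟨0,[(35,0)]⟩) .k 2 (⟨0,
  [(35,0)]⟩,⟨0,[(36,0)]⟩) .k (.r (-1) ⟨6,[(12,1),(4,3),(4,1),(1,0),(0,0),(4,1),(12,0)]⟩ ⟨0,[(34,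
  1)]⟩)) (.Q [0,0,0,1,0,0,-2,-2,0,-1,2] (.p true [0,0,1] [1,0,-1] (⟨0,[(37,0)]⟩,⟨0,[(36,0)]⟩) .k 2
  (⟨0,[(36,0)]⟩,⟨0,[(37,0)]⟩) .k (.r (-1) ⟨6,[(13,1),(4,3),(4,1),(1,0),(0,0),(4,1),(12,0)]⟩ ⟨0,[(35,
  1)]⟩)) (.R ⟨0,false,false,false,[0,-1,1],[1,0,-1],[],(⟨0,[(22,0)]⟩,⟨1,[(2,0),(25,0),(0,0),(7,
  0)]⟩),(⟨0,[(37,0)]⟩,⟨0,[(38,0)]⟩),⟨0,[(2,0)]⟩,.k,.k,(.r (-2) ⟨2,[(9,1),(8,0),(5,0),(1,0),(0,0),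
  (17,1)]⟩ ⟨5,[(8,4),(1,0),(0,0),(5,1),(7,0),(7,1)]⟩),(.x 0 ⟨2,[(12,0),(9,3),(11,3)]⟩ ⟨2,[(1,1),(0,
  1),(10,0),(23,1),(7,0)]⟩),.k,.k,⟨false,1,⟨13,[(14,1),(4,3),(4,1),(1,0),(0,0),(4,1),(12,7)]⟩,⟨0,
  [(36,0)]⟩⟩,⟨true,1,⟨0,[(1,0)]⟩,⟨1,[(11,1),(0,0),(2,0),(21,1),(2,0)]⟩⟩,⟨false,0,⟨14,[(8,5),(2,0),
  (5,2),(7,0),(7,1),(2,9),(9,6)]⟩,⟨15,[(9,3),(8,3),(0,3),(4,3),(1,0),(0,0),(17,5)]⟩⟩,⟨true,0,⟨0,[(0,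
  0)]⟩,⟨7,[(12,0),(1,3),(0,4),(2,7),(5,3),(12,1),(2,0),(1,1)]⟩⟩,⟨false,0,⟨0,[]⟩,⟨0,[]⟩⟩,⟨false,0,⟨0,
  []⟩,⟨0,[]⟩⟩,[.a ⟨true,0,⟨4,[(0,1),(16,0),(6,0),(3,1),(0,1)]⟩,⟨7,[(12,0),(1,3),(0,4),(8,3),(12,1),
  (2,0),(1,1)]⟩⟩ ⟨false,1,⟨3,[(26,0),(0,0),(17,1)]⟩,⟨0,[]⟩⟩ ⟨true,1,⟨7,[(0,1),(0,5),(8,1),(15,0),(0,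
  0)]⟩,⟨0,[(8,0),(5,0),(0,0),(1,1),(0,0),(5,0)]⟩⟩,.o ⟨false,1,⟨9,[(0,3),(15,1),(9,0),(0,0),(11,1),
  (6,5)]⟩,⟨0,[(32,0)]⟩⟩,.o ⟨false,0,⟨0,[(34,0)]⟩,⟨3,[(1,1),(37,0),(5,0)]⟩⟩,.o ⟨false,(-1),⟨0,[(7,0),
  (0,0),(5,0),(0,0),(1,1),(6,0)]⟩,⟨3,[(1,1),(24,0),(0,0),(11,0),(5,2)]⟩⟩]⟩) (.R ⟨0,false,false,true,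
  [0,-1,1],[1,0,-1],[0,1],(⟨0,[(22,0)]⟩,⟨1,[(2,0),(25,0),(0,0),(7,0)]⟩),(⟨0,[(37,0)]⟩,⟨0,[(38,0)]⟩),
  ⟨0,[(2,0)]⟩,.k,.k,(.r (-2) ⟨2,[(9,1),(8,0),(5,0),(1,0),(0,0),(17,1)]⟩ ⟨5,[(8,4),(1,0),(0,0),(5,1),
  (7,0),(7,1)]⟩),(.x 0 ⟨2,[(12,0),(9,3),(11,3)]⟩ ⟨2,[(1,1),(0,1),(10,0),(23,1),(7,0)]⟩),.k,.k,
  ⟨false,1,⟨13,[(14,1),(4,3),(4,1),(1,0),(0,0),(4,1),(12,7)]⟩,⟨0,[(36,0)]⟩⟩,⟨true,1,⟨0,[(1,0)]⟩,⟨1,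
  [(11,1),(0,0),(2,0),(21,1),(2,0)]⟩⟩,⟨false,0,⟨11,[(8,3),(17,0),(0,0),(5,3),(0,3),(1,7),(9,1)]⟩,⟨4,
  [(9,2),(4,0),(27,0),(2,1)]⟩⟩,⟨true,0,⟨1,[(1,0),(6,0),(1,0),(19,0),(2,0)]⟩,⟨0,[(0,0)]⟩⟩,⟨false,0,
  ⟨0,[]⟩,⟨0,[]⟩⟩,⟨false,0,⟨0,[]⟩,⟨0,[]⟩⟩,[.o ⟨false,0,⟨0,[(30,0)]⟩,⟨3,[(19,1),(5,1),(13,0),(6,0)]⟩⟩,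
  .a ⟨true,0,⟨9,[(1,2),(6,2),(1,4),(13,3),(3,2),(0,2),(12,1)]⟩,⟨3,[(0,0),(11,0),(1,0),(22,1),(2,
  0)]⟩⟩ ⟨false,1,⟨3,[(26,0),(0,0),(17,1)]⟩,⟨0,[]⟩⟩ ⟨true,1,⟨31,[(1,27),(6,3),(1,11),(15,0),(0,0),(5,
  7),(5,1),(6,3)]⟩,⟨23,[(0,20),(7,11),(1,6),(0,11),(0,4),(4,3),(6,3),(12,9),(2,4)]⟩⟩,.o ⟨false,0,⟨0,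
  [(34,0)]⟩,⟨3,[(1,1),(37,0),(5,0)]⟩⟩,.o ⟨false,(-1),⟨2,[(0,1),(7,1),(1,0),(0,0),(4,0),(0,0)]⟩,⟨3,
  [(1,1),(24,0),(0,0),(11,0),(5,2)]⟩⟩]⟩)) (.K ⟨2,[0,-1,1],(-1),0,(⟨0,[(21,0)]⟩,⟨1,[(1,0),(25,0),(0,
  0),(7,0)]⟩),.k,(.r (-2) ⟨2,[(8,1),(8,0),(5,0),(1,0),(0,0),(17,1)]⟩ ⟨7,[(0,0),(6,5),(2,0),(5,1),
  (15,1),(2,3)]⟩),.k,.k,(.x 0 ⟨2,[(11,0),(9,3),(11,3)]⟩ ⟨0,[(12,0),(27,1),(3,0)]⟩),[⟨3,[(25,0),(0,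
  0),(17,1)]⟩,⟨0,[(0,0)]⟩,⟨7,[(18,3),(6,0),(0,0),(5,7),(12,1)]⟩,⟨1,[(0,0),(9,0)]⟩,⟨2,[(7,0),(24,2),
  (11,0)]⟩,⟨0,[(17,0)]⟩]⟩)) (.Q [0,1,1,0,-1,0,0,0,1,1,0,-1] (.p false [0,0,0,1] [1] (⟨0,[(27,0)]⟩,
  ⟨0,[(26,0)]⟩) .k 1 (⟨0,[]⟩,⟨0,[]⟩) .k .k) (.I [0,0,1,1,0,0,0,0,-1] (.R ⟨2,false,false,true,[0,1],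
  [0,0,0,1],[0,1,1,1],(⟨0,[]⟩,⟨0,[]⟩),(⟨0,[(29,0)]⟩,⟨0,[(28,0)]⟩),⟨0,[]⟩,.k,.k,.k,(.r 0 ⟨0,[(0,0)]⟩
  ⟨11,[(4,1),(4,1),(0,1),(16,4),(15,3),(1,2)]⟩),.k,.k,⟨true,0,⟨0,[(0,0)]⟩,⟨6,[(1,2),(2,3),(2,2),(0,
  0),(1,0),(6,1),(11,2)]⟩⟩,⟨false,0,⟨2,[(11,0),(16,2),(10,0)]⟩,⟨0,[(29,0),(15,0)]⟩⟩,⟨true,0,⟨0,[(48,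
  0)]⟩,⟨0,[]⟩⟩,⟨false,0,⟨10,[(1,1),(4,8),(2,2),(1,0),(4,1),(0,0),(7,0)]⟩,⟨2,[(3,2),(4,0),(36,0)]⟩⟩,
  ⟨false,0,⟨0,[(44,0)]⟩,⟨11,[(9,3),(7,3),(8,2),(0,2),(6,1),(0,1),(10,1)]⟩⟩,⟨false,0,⟨0,[(6,0)]⟩,⟨0,
  [(3,0)]⟩⟩,[.a ⟨true,(-1),⟨0,[(1,0)]⟩,⟨0,[(3,0)]⟩⟩ ⟨false,0,⟨2,[(8,0),(36,0),(2,2)]⟩,⟨19,[(9,7),(0,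
  3),(15,0),(0,0),(17,3),(0,5)]⟩⟩ ⟨true,(-1),⟨2,[(1,2),(9,0),(27,0)]⟩,⟨0,[(3,0)]⟩⟩,.o ⟨false,0,⟨0,
  [(6,0)]⟩,⟨2,[(3,2),(3,2),(0,0),(36,0)]⟩⟩,.o ⟨false,1,⟨3,[(26,0),(0,0),(17,1)]⟩,⟨2,[(11,0),(27,
  0)]⟩⟩,.e ⟨false,0,⟨0,[(44,0)]⟩,⟨11,[(9,3),(7,3),(8,2),(0,2),(6,1),(0,1),(10,1)]⟩⟩ ⟨false,0,⟨0,[(6,
  0)]⟩,⟨0,[(3,0)]⟩⟩]⟩) (.R ⟨1,true,false,true,[1,-1],[0,0,0,1],[0,0,-1,-1],(⟨0,[(40,0)]⟩,⟨0,[(41,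
  0)]⟩),(⟨0,[(29,0)]⟩,⟨0,[(28,0)]⟩),⟨1,[(2,0),(17,0),(19,0)]⟩,.k,.k,(.r (-1) ⟨0,[(0,1),(25,0)]⟩ ⟨2,
  [(8,1),(17,0),(0,0),(6,0),(0,0)]⟩),(.x (-1) ⟨11,[(2,3),(17,3),(5,4),(0,4),(11,1)]⟩ ⟨0,[(41,0)]⟩),
  (.r (-2) ⟨27,[(9,15),(0,7),(15,18),(0,4),(15,15),(1,15)]⟩ ⟨10,[(0,4),(0,1),(6,8),(2,1),(15,1),(1,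
  1),(12,0)]⟩),.k,⟨false,2,⟨19,[(9,7),(0,3),(15,10),(0,0),(17,13),(0,5)]⟩,⟨4,[(0,2),(0,1),(5,0),(0,
  2),(20,1),(0,0),(1,0)]⟩⟩,⟨true,0,⟨0,[(28,0)]⟩,⟨2,[(11,0),(17,2),(9,0)]⟩⟩,⟨false,1,⟨3,[(26,0),(0,
  0),(18,1)]⟩,⟨0,[]⟩⟩,⟨true,(-1),⟨2,[(1,2),(6,0),(36,0)]⟩,⟨0,[(3,0),(3,0)]⟩⟩,⟨true,0,⟨0,[(44,0)]⟩,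
  ⟨0,[(43,0)]⟩⟩,⟨false,(-1),⟨0,[(0,0),(7,0),(19,0)]⟩,⟨7,[(3,7),(5,3),(6,3),(9,0),(0,0),(6,3),(4,
  1)]⟩⟩,[]⟩)) (.Q [0,0,0,0,0,-1,0,0,0,1,0,-1] (.p false [0,0,0,1] [1] (⟨0,[(28,0)]⟩,⟨0,[(27,0)]⟩)
  .k 1 (⟨0,[]⟩,⟨0,[]⟩) .k .k) (.I [0,0,0,0,0,0,0,0,1] (.R ⟨1,false,false,true,[1,0,0,-1],[1,-1],[1,
  1,0,-1,0,0,0,0,-1],(⟨0,[(29,0)]⟩,⟨0,[(30,0)]⟩),(⟨0,[(41,0)]⟩,⟨0,[(42,0)]⟩),⟨0,[(1,0)]⟩,.k,.k,(.x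
  (-1) ⟨11,[(3,3),(17,3),(5,4),(0,4),(11,1)]⟩ ⟨0,[(42,0)]⟩),(.r 0 ⟨2,[(2,0),(6,1),(8,0),(0,0),(5,0),
  (1,0),(1,0)]⟩ ⟨11,[(5,1),(4,1),(0,1),(16,4),(15,3),(1,2)]⟩),.k,.k,⟨true,0,⟨0,[(2,0),(6,0),(8,0),
  (0,0),(5,0),(3,0)]⟩,⟨0,[(0,0)]⟩⟩,⟨false,0,⟨2,[(12,0),(16,2),(10,0)]⟩,⟨0,[(30,0),(15,0)]⟩⟩,⟨true,0,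
  ⟨0,[(44,0)]⟩,⟨0,[(45,0)]⟩⟩,⟨false,0,⟨2,[(6,0),(0,1),(10,0),(0,0),(5,0)]⟩,⟨2,[(4,2),(4,0),(36,
  0)]⟩⟩,⟨false,0,⟨0,[]⟩,⟨3,[(27,0),(0,0),(18,1)]⟩⟩,⟨false,0,⟨0,[(7,0)]⟩,⟨0,[(4,0)]⟩⟩,[.o ⟨false,0,
  ⟨0,[(8,0)]⟩,⟨11,[(9,3),(17,2),(0,2),(17,3),(0,5)]⟩⟩,.o ⟨false,1,⟨15,[(10,3),(6,3),(9,2),(0,2),(6,
  3),(4,5)]⟩,⟨0,[(45,0)]⟩⟩,.o ⟨false,1,⟨1,[(30,1),(9,0),(5,0)]⟩,⟨2,[(12,0),(16,2),(10,0)]⟩⟩,.a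
  ⟨true,0,⟨0,[(30,0)]⟩,⟨0,[(29,0)]⟩⟩ ⟨false,1,⟨15,[(2,1),(5,1),(1,3),(0,1),(4,1),(8,3),(1,6),(1,1),
  (16,2)]⟩,⟨5,[(0,3),(8,1),(18,0),(14,1),(3,0)]⟩⟩ ⟨true,0,⟨0,[(8,0),(20,0)]⟩,⟨2,[(9,0),(20,2),(15,
  0)]⟩⟩]⟩) (.R ⟨1,false,false,true,[1,0,0,-1],[1,-1],[0,0,0,0,0,0,0,0,-1],(⟨0,[(29,0)]⟩,⟨0,[(30,
  0)]⟩),(⟨0,[(41,0)]⟩,⟨0,[(42,0)]⟩),⟨0,[(1,0)]⟩,.k,.k,(.x (-1) ⟨11,[(3,3),(17,3),(5,4),(0,4),(11,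
  1)]⟩ ⟨0,[(42,0)]⟩),(.r 0 ⟨8,[(0,0),(8,2),(2,0),(14,3),(1,0),(0,0)]⟩ ⟨11,[(5,1),(4,1),(0,1),(16,4),
  (15,3),(1,2)]⟩),.k,.k,⟨true,0,⟨8,[(0,3),(1,0),(6,2),(17,1),(1,0),(13,3)]⟩,⟨0,[(5,0),(3,0),(1,0),
  (7,0),(5,0)]⟩⟩,⟨false,0,⟨2,[(12,0),(16,2),(10,0)]⟩,⟨0,[(30,0),(15,0)]⟩⟩,⟨false,1,⟨3,[(27,0),(0,0),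
  (18,1)]⟩,⟨0,[]⟩⟩,⟨false,0,⟨2,[(6,0),(0,1),(10,0),(0,0),(5,0)]⟩,⟨2,[(4,2),(4,0),(36,0)]⟩⟩,⟨true,0,
  ⟨0,[(45,0)]⟩,⟨0,[(44,0)]⟩⟩,⟨false,0,⟨0,[(7,0)]⟩,⟨0,[(4,0)]⟩⟩,[.o ⟨false,0,⟨0,[(8,0)]⟩,⟨11,[(9,3),
  (17,2),(0,2),(17,3),(0,5)]⟩⟩,.o ⟨false,1,⟨15,[(10,3),(6,3),(9,2),(0,2),(6,3),(4,5)]⟩,⟨0,[(45,
  0)]⟩⟩,.o ⟨false,1,⟨1,[(30,1),(9,0),(5,0)]⟩,⟨2,[(12,0),(16,2),(10,0)]⟩⟩,.a ⟨true,0,⟨0,[(30,0)]⟩,⟨0,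
  [(29,0)]⟩⟩ ⟨false,1,⟨0,[(2,0),(26,0)]⟩,⟨0,[(7,0),(22,0)]⟩⟩ ⟨true,0,⟨0,[(8,0),(20,0)]⟩,⟨2,[(9,0),
  (20,2),(15,0)]⟩⟩]⟩)) (.I [0,0,0,0,0,0,0,0,1] (.R ⟨0,false,false,true,[1,0,0,-1],[1,-1],[1,1,0,-1,
  0,0,0,0,-1],(⟨0,[(29,0)]⟩,⟨0,[(30,0)]⟩),(⟨0,[(41,0)]⟩,⟨0,[(42,0)]⟩),⟨0,[(1,0)]⟩,.k,.k,(.x (-1)
  ⟨11,[(3,3),(17,3),(5,4),(0,4),(11,1)]⟩ ⟨0,[(42,0)]⟩),(.r 0 ⟨2,[(2,0),(6,1),(8,0),(0,0),(5,0),(1,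
  0),(1,0)]⟩ ⟨11,[(5,1),(4,1),(0,1),(16,4),(15,3),(1,2)]⟩),.k,.k,⟨true,0,⟨0,[(2,0),(6,0),(8,0),(0,
  0),(5,0),(3,0)]⟩,⟨0,[(0,0)]⟩⟩,⟨false,0,⟨2,[(12,0),(16,2),(10,0)]⟩,⟨0,[(30,0),(15,0)]⟩⟩,⟨true,0,⟨0,
  [(44,0)]⟩,⟨0,[(45,0)]⟩⟩,⟨false,0,⟨2,[(6,0),(0,1),(10,0),(0,0),(5,0)]⟩,⟨2,[(4,2),(4,0),(36,0)]⟩⟩,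
  ⟨false,0,⟨0,[]⟩,⟨0,[]⟩⟩,⟨false,0,⟨0,[]⟩,⟨0,[]⟩⟩,[.o ⟨false,0,⟨0,[(8,0)]⟩,⟨11,[(9,3),(17,2),(0,2),
  (17,3),(0,5)]⟩⟩,.o ⟨false,1,⟨15,[(10,3),(6,3),(9,2),(0,2),(6,3),(4,5)]⟩,⟨0,[(45,0)]⟩⟩,.o ⟨false,1,
  ⟨1,[(30,1),(9,0),(5,0)]⟩,⟨2,[(12,0),(16,2),(10,0)]⟩⟩,.a ⟨true,0,⟨0,[(30,0)]⟩,⟨0,[(29,0)]⟩⟩ ⟨false,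
  1,⟨15,[(2,1),(5,1),(1,3),(0,1),(4,1),(8,3),(1,6),(1,1),(16,2)]⟩,⟨5,[(0,3),(8,1),(18,0),(14,1),(3,
  0)]⟩⟩ ⟨true,0,⟨0,[(8,0),(20,0)]⟩,⟨2,[(9,0),(20,2),(15,0)]⟩⟩]⟩) (.R ⟨0,false,false,false,[1,0,0,
  -1],[0,1],[0,1],(⟨0,[(29,0)]⟩,⟨0,[(30,0)]⟩),(⟨0,[(42,0)]⟩,⟨0,[(41,0)]⟩),⟨0,[(1,0)]⟩,.k,.k,(.x
  (-1) ⟨11,[(3,3),(17,3),(5,4),(0,4),(11,1)]⟩ ⟨0,[(42,0)]⟩),(.x (-1) ⟨11,[(3,3),(17,3),(5,4),(0,4),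
  (11,1)]⟩ ⟨0,[(42,0)]⟩),.k,.k,⟨false,1,⟨0,[(44,0),(1,0)]⟩,⟨23,[(9,7),(2,0),(13,0),(9,1),(6,2),(3,
  8)]⟩⟩,⟨true,0,⟨0,[(29,0)]⟩,⟨2,[(12,0),(17,2),(9,0)]⟩⟩,⟨true,0,⟨12,[(5,10),(2,5),(0,11),(1,3),(4,
  8),(8,14),(2,0),(2,2)]⟩,⟨0,[(0,0)]⟩⟩,⟨false,0,⟨4,[(5,1),(0,0),(2,2),(8,1),(9,0),(0,4),(0,0)]⟩,⟨3,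
  [(2,2),(1,0),(12,0),(1,1),(14,0)]⟩⟩,⟨false,0,⟨0,[]⟩,⟨0,[]⟩⟩,⟨false,0,⟨0,[]⟩,⟨0,[]⟩⟩,[.o ⟨false,0,
  ⟨0,[(45,0)]⟩,⟨15,[(10,3),(6,3),(9,2),(0,2),(6,3),(4,5)]⟩⟩,.o ⟨false,1,⟨11,[(9,3),(17,2),(0,2),(17,
  3),(0,5)]⟩,⟨0,[(8,0)]⟩⟩,.o ⟨false,1,⟨1,[(30,1),(9,0),(5,0)]⟩,⟨2,[(12,0),(16,2),(10,0)]⟩⟩,.a ⟨true,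
  0,⟨0,[(30,0)]⟩,⟨0,[(29,0)]⟩⟩ ⟨false,1,⟨3,[(27,0),(0,0),(17,1)]⟩,⟨7,[(12,0),(13,0),(9,1),(6,2),(3,
  0)]⟩⟩ ⟨true,0,⟨2,[(9,0),(19,2),(16,0)]⟩,⟨0,[(8,0),(21,0)]⟩⟩]⟩))))) (.K ⟨0,[0,0,0,1],0,(-1),(⟨0,
  [(26,0)]⟩,⟨0,[(25,0)]⟩),.k,(.x 0 ⟨11,[(8,5),(1,1),(8,3),(3,2),(0,2),(6,3),(5,5)]⟩ ⟨0,[(38,0),(3,
  0)]⟩),(.x 0 ⟨0,[(38,0)]⟩ ⟨7,[(17,3),(1,3),(3,2),(0,2),(11,1)]⟩),.k,.k,[⟨0,[(26,0)]⟩,⟨0,[(25,0)]⟩,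
  ⟨1,[(23,0),(2,1),(15,0),(2,1)]⟩,⟨0,[(0,0)]⟩]⟩)) (.Q [0,0,0,0,0,-1,0,0,0,1,0,-1] (.p false [0,0,0,
  1] [1] (⟨0,[(25,0)]⟩,⟨0,[(24,0)]⟩) .k 1 (⟨0,[]⟩,⟨0,[]⟩) .k .k) (.I [0,0,-2,-2,1,0,0,0,-1] (.R ⟨1,
  false,false,false,[1,0,0,-1],[0,1],[0,0,0,0,0,0,0,0,-1],(⟨0,[(26,0)]⟩,⟨0,[(27,0)]⟩),(⟨0,[(39,0)]⟩,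
  ⟨0,[(38,0)]⟩),⟨0,[(1,0)]⟩,.k,.k,(.x (-1) ⟨7,[(18,3),(1,3),(3,2),(0,2),(11,1)]⟩ ⟨0,[(39,0)]⟩),(.x
  (-1) ⟨7,[(18,3),(1,3),(3,2),(0,2),(11,1)]⟩ ⟨0,[(39,0)]⟩),(.r (-1) ⟨0,[(0,0)]⟩ ⟨11,[(6,7),(17,0),
  (0,6),(6,3),(0,3)]⟩),.k,⟨false,1,⟨2,[(0,2),(5,0),(36,0)]⟩,⟨2,[(4,0),(1,0),(18,0),(1,0)]⟩⟩,⟨true,0,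
  ⟨0,[(26,0)]⟩,⟨2,[(9,0),(17,2),(9,0)]⟩⟩,⟨false,1,⟨3,[(24,0),(0,0),(18,1)]⟩,⟨0,[]⟩⟩,⟨false,0,⟨2,[(3,
  2),(2,0),(19,2),(0,2),(15,0)]⟩,⟨9,[(0,7),(1,1),(3,0),(5,0),(14,9),(9,4),(2,0)]⟩⟩,⟨true,0,⟨0,[(42,
  0)]⟩,⟨0,[(41,0)]⟩⟩,⟨false,0,⟨2,[(3,2),(2,1),(19,2),(0,2),(15,1)]⟩,⟨2,[(0,2),(8,0),(17,2),(9,0)]⟩⟩,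
  [.o ⟨false,0,⟨0,[(42,0)]⟩,⟨15,[(7,3),(6,3),(9,2),(0,2),(6,3),(4,5)]⟩⟩,.o ⟨false,1,⟨11,[(6,3),(17,
  2),(0,2),(17,3),(0,5)]⟩,⟨0,[(5,0)]⟩⟩,.o ⟨false,1,⟨1,[(27,1),(9,0),(5,0)]⟩,⟨2,[(9,0),(16,2),(10,
  0)]⟩⟩,.a ⟨true,0,⟨0,[(27,0)]⟩,⟨0,[(26,0)]⟩⟩ ⟨false,1,⟨11,[(0,5),(5,3),(17,2),(15,5),(2,6)]⟩,⟨0,
  [(4,0),(22,0)]⟩⟩ ⟨true,0,⟨2,[(6,0),(19,2),(16,0)]⟩,⟨0,[(5,0),(21,0)]⟩⟩]⟩) (.R ⟨1,false,false,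
  false,[1,0,0,-1],[0,1],[0,0,0,0,0,0,0,0,-1],(⟨0,[(26,0)]⟩,⟨0,[(27,0)]⟩),(⟨0,[(39,0)]⟩,⟨0,[(38,
  0)]⟩),⟨0,[(1,0)]⟩,.k,.k,(.x (-1) ⟨7,[(18,3),(1,3),(3,2),(0,2),(11,1)]⟩ ⟨0,[(39,0)]⟩),(.x (-1) ⟨7,
  [(18,3),(1,3),(3,2),(0,2),(11,1)]⟩ ⟨0,[(39,0)]⟩),(.x 0 ⟨2,[(9,0),(8,2),(1,2),(16,0)]⟩ ⟨3,[(24,0),
  (0,0),(13,7),(3,1)]⟩),.k,⟨false,1,⟨0,[(2,0),(4,0),(35,0)]⟩,⟨20,[(0,2),(5,4),(2,0),(13,0),(1,8),(7,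
  1)]⟩⟩,⟨true,0,⟨0,[(26,0)]⟩,⟨2,[(9,0),(17,2),(9,0)]⟩⟩,⟨false,1,⟨3,[(24,0),(0,0),(18,1)]⟩,⟨0,[]⟩⟩,
  ⟨false,0,⟨3,[(0,1),(24,0),(0,3),(13,1),(2,0)]⟩,⟨1,[(2,1),(4,1),(19,1),(9,0),(5,0)]⟩⟩,⟨true,0,⟨0,
  [(42,0)]⟩,⟨0,[(41,0)]⟩⟩,⟨false,0,⟨1,[(0,1),(25,1),(16,0),(0,0)]⟩,⟨11,[(2,9),(2,3),(1,13),(0,1),
  (15,0),(2,11),(9,3),(5,2)]⟩⟩,[.o ⟨false,0,⟨0,[(42,0)]⟩,⟨15,[(7,3),(6,3),(9,2),(0,2),(6,3),(4,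
  5)]⟩⟩,.o ⟨false,1,⟨11,[(6,3),(17,2),(0,2),(17,3),(0,5)]⟩,⟨0,[(5,0)]⟩⟩,.o ⟨false,1,⟨1,[(27,1),(9,
  0),(5,0)]⟩,⟨2,[(9,0),(16,2),(10,0)]⟩⟩,.a ⟨true,0,⟨0,[(27,0)]⟩,⟨0,[(26,0)]⟩⟩ ⟨false,1,⟨19,[(2,9),
  (4,5),(4,1),(11,4),(15,11),(2,18)]⟩,⟨19,[(0,5),(6,1),(1,2),(5,1),(6,5),(0,2),(1,6),(14,0)]⟩⟩
  ⟨true,0,⟨2,[(6,0),(19,2),(16,0)]⟩,⟨0,[(5,0),(21,0)]⟩⟩]⟩)) (.R ⟨0,false,false,false,[1,0,0,-1],[0,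
  1],[1,0,0,0,0,0,0,0,-1],(⟨0,[(25,0)]⟩,⟨0,[(26,0)]⟩),(⟨0,[(38,0)]⟩,⟨0,[(37,0)]⟩),⟨0,[(0,0)]⟩,.k,.k,
  (.x (-1) ⟨7,[(17,3),(1,3),(3,2),(0,2),(11,1)]⟩ ⟨0,[(38,0)]⟩),(.x (-1) ⟨7,[(17,3),(1,3),(3,2),(0,
  2),(11,1)]⟩ ⟨0,[(38,0)]⟩),.k,.k,⟨false,1,⟨0,[(1,0),(4,0),(35,0)]⟩,⟨2,[(3,0),(1,0),(18,0),(1,0)]⟩⟩,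
  ⟨true,0,⟨0,[(25,0)]⟩,⟨2,[(8,0),(17,2),(9,0)]⟩⟩,⟨true,0,⟨0,[]⟩,⟨0,[(45,0)]⟩⟩,⟨false,0,⟨2,[(2,2),(2,
  0),(19,2),(0,2),(15,0)]⟩,⟨1,[(1,1),(4,1),(19,1),(9,0),(5,0)]⟩⟩,⟨false,0,⟨0,[]⟩,⟨0,[]⟩⟩,⟨false,0,
  ⟨0,[]⟩,⟨0,[]⟩⟩,[.o ⟨false,0,⟨0,[(41,0)]⟩,⟨15,[(6,3),(6,3),(9,2),(0,2),(6,3),(4,5)]⟩⟩,.o ⟨false,1,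
  ⟨11,[(5,3),(17,2),(0,2),(17,3),(0,5)]⟩,⟨0,[(4,0)]⟩⟩,.o ⟨false,1,⟨1,[(26,1),(9,0),(5,0)]⟩,⟨2,[(8,
  0),(16,2),(10,0)]⟩⟩,.a ⟨true,0,⟨0,[(26,0)]⟩,⟨0,[(25,0)]⟩⟩ ⟨false,1,⟨19,[(1,9),(4,5),(4,1),(11,4),
  (15,11),(2,18)]⟩,⟨0,[(3,0),(22,0)]⟩⟩ ⟨true,0,⟨2,[(5,0),(19,2),(16,0)]⟩,⟨0,[(4,0),(21,0)]⟩⟩]⟩))))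
  (.Q [0,1,1,0,0,0,0,0,1,0,0,-1] (.p false [0,0,0,1] [] (⟨0,[(23,0)]⟩,⟨0,[(22,0)]⟩) .k 0 (⟨0,[]⟩,⟨0,
  []⟩) .k .k) (.K ⟨0,[0,0,0,1],0,0,(⟨0,[(24,0)]⟩,⟨0,[(23,0)]⟩),.k,(.x 0 ⟨11,[(6,5),(1,1),(8,3),(3,
  2),(0,2),(6,3),(5,5)]⟩ ⟨0,[(36,0),(3,0)]⟩),(.x 0 ⟨0,[(36,0)]⟩ ⟨7,[(15,3),(1,3),(3,2),(0,2),(11,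
  1)]⟩),.k,.k,[⟨0,[(24,0)]⟩,⟨0,[(23,0)]⟩,⟨0,[(1,0),(41,0)]⟩,⟨0,[(0,0)]⟩]⟩) (.R ⟨1,true,false,true,
  [1,-1],[0,0,0,1],[0,0,-1,-1],(⟨0,[(35,0)]⟩,⟨0,[(36,0)]⟩),(⟨0,[(24,0)]⟩,⟨0,[(23,0)]⟩),⟨0,[(15,0),
  (1,0)]⟩,.k,.k,(.r (-1) ⟨0,[(0,1),(1,1),(19,0),(0,1)]⟩ ⟨2,[(3,1),(17,0),(0,0),(6,0),(0,0)]⟩),(.x
  (-1) ⟨7,[(15,3),(1,3),(3,2),(0,2),(11,1)]⟩ ⟨0,[(36,0)]⟩),(.r (-1) ⟨10,[(0,0),(0,5),(0,6),(1,5),(0,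
  2),(15,1),(1,6),(16,2)]⟩ ⟨11,[(3,7),(17,0),(0,6),(6,3),(0,3)]⟩),.k,⟨false,1,⟨25,[(0,23),(1,5),(1,
  7),(0,3),(15,0),(1,23),(10,8),(5,7)]⟩,⟨1,[(3,0),(9,0),(8,0),(5,0)]⟩⟩,⟨true,0,⟨0,[(23,0)]⟩,⟨2,[(6,
  0),(17,2),(9,0)]⟩⟩,⟨false,1,⟨3,[(21,0),(0,0),(18,1)]⟩,⟨0,[]⟩⟩,⟨true,0,⟨1,[(3,0),(9,0),(8,0),(0,1),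
  (4,0)]⟩,⟨0,[(0,0),(1,0)]⟩⟩,⟨true,0,⟨0,[(39,0)]⟩,⟨0,[(38,0)]⟩⟩,⟨false,0,⟨5,[(3,3),(18,2),(0,5),(16,
  0)]⟩,⟨8,[(0,4),(0,1),(2,4),(6,2),(0,1),(8,0),(2,1),(4,2),(4,2)]⟩⟩,[]⟩))))

theorem ok23 : chk (cU (-1) true 10) t23 l21 = true := by decide +kernel

noncomputable def t58 : Tre :=
  (.R ⟨0,false,false,false,[1,-1,-1],[0,-1,1],[1],(⟨0,[(12,0)]⟩,⟨1,[(0,0),(19,0),(0,0),(8,0)]⟩),(⟨0,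
  [(14,0)]⟩,⟨0,[(29,0),(3,0)]⟩),⟨0,[(0,0)]⟩,.k,.k,(.r (-1) ⟨2,[(6,0),(1,0),(0,1),(7,0),(7,0),(11,
  1)]⟩ ⟨1,[(3,0),(19,0),(2,0),(0,1),(8,3)]⟩),.k,.k,.k,⟨false,0,⟨0,[(28,0),(7,0)]⟩,⟨7,[(6,3),(4,1),
  (6,0),(0,0),(20,1)]⟩⟩,⟨true,0,⟨0,[(17,0)]⟩,⟨0,[(7,0)]⟩⟩,⟨false,0,⟨0,[(4,0),(31,0)]⟩,⟨3,[(8,0),(0,
  1),(7,0),(0,0),(0,0),(5,0),(11,1)]⟩⟩,⟨true,0,⟨0,[(3,0)]⟩,⟨0,[(9,0),(6,0),(5,0),(13,1)]⟩⟩,⟨false,0,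
  ⟨0,[]⟩,⟨0,[]⟩⟩,⟨false,0,⟨0,[]⟩,⟨0,[]⟩⟩,[.a ⟨true,0,⟨4,[(2,2),(6,0),(6,0),(3,1),(0,1)]⟩,⟨0,[(9,0),
  (6,0),(19,2)]⟩⟩ ⟨true,0,⟨0,[]⟩,⟨1,[(26,0),(0,0)]⟩⟩ ⟨false,1,⟨3,[(3,0),(2,1),(10,2),(19,1)]⟩,⟨0,
  [(7,0),(20,0),(7,0)]⟩⟩,.o ⟨false,1,⟨9,[(2,5),(5,1),(9,0),(0,0),(11,1),(6,5)]⟩,⟨0,[(22,0),(13,
  0)]⟩⟩,.o ⟨false,0,⟨0,[(23,0)]⟩,⟨7,[(17,3),(0,0),(0,0),(11,1),(5,3)]⟩⟩,.o ⟨false,0,⟨1,[(23,1),(2,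
  0),(0,0)]⟩,⟨0,[(5,0),(11,0)]⟩⟩]⟩)

theorem ok58 : chk (cU (-1) true 10) t58 l39 = true := by decide +kernel

noncomputable def t60 : Tre :=
  (.Q [0,0,0,2,0,0,-2,-2,0,-1,2] (.p true [0,0,1] [1,0,-1] (⟨0,[(33,0)]⟩,⟨0,[(32,0)]⟩) .k 2 (⟨0,
  [(32,0)]⟩,⟨0,[(33,0)]⟩) .k (.r (-1) ⟨0,[(14,0),(28,0)]⟩ ⟨0,[(31,1)]⟩)) (.R ⟨1,false,false,false,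
  [0,-1,1],[1,0,-1],[1,0,0,0,0,0,0,-1],(⟨0,[(18,0)]⟩,⟨0,[(33,0),(3,0)]⟩),(⟨0,[(33,0)]⟩,⟨0,[(34,
  0)]⟩),⟨0,[(5,0)]⟩,.k,.k,(.r (-1) ⟨0,[(10,0)]⟩ ⟨3,[(0,3),(1,1),(4,1),(14,0),(0,0),(1,1),(4,1)]⟩),
  (.r (-1) ⟨3,[(3,0),(3,0),(2,0),(3,0),(0,1),(4,0)]⟩ ⟨7,[(0,3),(1,1),(18,1),(0,0),(0,0),(1,1),(4,1),
  (1,7)]⟩),(.x 0 ⟨0,[(5,0),(24,1),(3,0)]⟩ ⟨0,[(1,0)]⟩),.k,⟨true,0,⟨0,[]⟩,⟨7,[(2,1),(19,0),(0,0),(1,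
  1),(1,1)]⟩⟩,⟨false,1,⟨0,[(3,0)]⟩,⟨7,[(2,1),(18,5),(0,0),(0,0),(1,1),(4,1)]⟩⟩,⟨false,0,⟨3,[(0,2),
  (1,0),(10,1),(7,1),(3,0),(4,0),(11,0)]⟩,⟨3,[(3,0),(3,0),(2,0),(3,0),(0,1),(4,0)]⟩⟩,⟨false,1,⟨7,
  [(0,5),(11,1),(9,0),(0,0),(5,1),(12,5)]⟩,⟨0,[(6,0)]⟩⟩,⟨false,0,⟨5,[(0,5),(1,0),(18,4),(3,0),(4,0),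
  (7,1),(3,0)]⟩,⟨9,[(6,2),(3,5),(0,1),(0,0),(1,0),(0,3),(4,1)]⟩⟩,⟨true,0,⟨0,[(0,0)]⟩,⟨0,[(6,0),(32,
  0)]⟩⟩,[.a ⟨true,0,⟨2,[(0,0),(12,0),(6,0),(3,0),(0,0)]⟩,⟨1,[(7,0),(16,0),(0,0)]⟩⟩ ⟨true,0,⟨0,[(32,
  0)]⟩,⟨4,[(2,0),(4,0),(3,1),(3,0),(9,0),(2,0)]⟩⟩ ⟨false,1,⟨7,[(0,1),(2,4),(8,0),(0,1),(15,0),(11,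
  2)]⟩,⟨7,[(2,1),(4,3),(13,1),(0,0),(0,0),(1,1),(4,1)]⟩⟩,.o ⟨false,1,⟨11,[(0,3),(11,3),(9,0),(0,0),
  (11,1),(6,7)]⟩,⟨0,[(28,0)]⟩⟩,.o ⟨false,0,⟨0,[(30,0)]⟩,⟨7,[(3,3),(18,0),(0,0),(11,1)]⟩⟩,.o ⟨false,
  0,⟨7,[(2,3),(19,0),(0,0),(1,3),(4,3),(4,1)]⟩,⟨0,[(9,0)]⟩⟩]⟩) (.I [0,1,0,0,0,0,0,1,1] (.Q [0,0,0,0,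
  0,0,-1,-1,0,0,1,-1] (.p true [0,0,1] [0,0,0,1] (⟨0,[(35,0)]⟩,⟨0,[(34,0)]⟩) .k 2 (⟨0,[(26,0)]⟩,⟨0,
  [(25,0)]⟩) .k (.r (-1) ⟨2,[(0,0),(15,0),(6,1)]⟩ ⟨0,[(0,0),(13,0),(18,0),(7,0)]⟩)) (.R ⟨1,false,
  false,false,[1,0,0,-1],[1,0,-1],[0,0,0,0,0,0,0,0,-1],(⟨0,[(26,0)]⟩,⟨0,[(27,0)]⟩),(⟨0,[(35,0)]⟩,⟨0,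
  [(36,0)]⟩),⟨3,[(0,1),(5,0),(0,0),(1,0),(16,1)]⟩,.k,.k,(.x (-1) ⟨15,[(6,3),(0,3),(16,6),(0,6),(11,
  1)]⟩ ⟨0,[(39,0)]⟩),.k,(.r (-1) ⟨1,[(2,0),(2,0),(18,0)]⟩ ⟨4,[(1,2),(2,0),(20,0),(1,0),(0,0),(5,6),
  (5,1),(1,4)]⟩),.k,⟨false,1,⟨1,[(5,0),(3,0),(14,0)]⟩,⟨0,[(1,0),(13,0),(18,0),(7,0)]⟩⟩,⟨true,0,⟨0,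
  [(26,0),(2,0)]⟩,⟨0,[(21,0),(5,0)]⟩⟩,⟨false,1,⟨3,[(24,0),(0,0),(18,1)]⟩,⟨0,[]⟩⟩,⟨false,0,⟨0,[(0,0),
  (0,0),(32,0),(5,0)]⟩,⟨1,[(9,0),(1,0),(9,0),(2,0),(2,1)]⟩⟩,⟨true,0,⟨0,[(42,0)]⟩,⟨0,[(41,0)]⟩⟩,
  ⟨false,0,⟨0,[(0,0),(0,0),(32,0),(5,0),(1,0)]⟩,⟨1,[(2,0),(8,0),(9,0),(2,0),(2,1)]⟩⟩,[.e ⟨false,1,
  ⟨1,[(24,0),(18,0)]⟩,⟨0,[(1,0),(13,0),(26,0)]⟩⟩ ⟨false,0,⟨0,[(0,0)]⟩,⟨7,[(9,3),(14,0),(0,0),(1,7),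
  (9,1),(5,3)]⟩⟩,.o ⟨false,1,⟨0,[(28,0),(15,0)]⟩,⟨0,[(30,0)]⟩⟩,.o ⟨false,1,⟨1,[(27,1),(9,0),(5,0)]⟩,
  ⟨3,[(0,1),(3,0),(4,0),(16,0),(2,0),(7,0)]⟩⟩,.a ⟨true,0,⟨0,[(27,0)]⟩,⟨0,[(26,0)]⟩⟩ ⟨false,1,⟨1,[(5,
  0),(3,0),(5,1),(8,0),(17,1)]⟩,⟨4,[(1,2),(2,0),(20,0),(1,0),(0,0),(5,1),(5,1)]⟩⟩ ⟨true,0,⟨0,[(0,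
  0)]⟩,⟨0,[(27,0),(2,0)]⟩⟩]⟩) (.Q [0,0,0,0,0,-1,0,0,0,1,0,-1] (.p false [0,0,0,1] [1] (⟨0,[(27,0)]⟩,
  ⟨0,[(26,0)]⟩) .k 1 (⟨0,[]⟩,⟨0,[]⟩) .k .k) (.R ⟨1,false,false,false,[1,0,0,-1],[1,0,-1],[0,0,0,0,0,
  0,0,0,-1],(⟨0,[(27,0)]⟩,⟨0,[(28,0)]⟩),(⟨0,[(36,0)]⟩,⟨0,[(37,0)]⟩),⟨0,[(0,0)]⟩,.k,.k,(.x (-1) ⟨15,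
  [(7,3),(0,3),(16,6),(0,6),(11,1)]⟩ ⟨0,[(40,0)]⟩),.k,(.r (-1) ⟨1,[(3,0),(2,0),(18,0)]⟩ ⟨4,[(2,2),
  (2,0),(20,0),(1,0),(0,0),(5,6),(5,1),(1,4)]⟩),.k,⟨false,1,⟨1,[(6,0),(3,0),(14,0)]⟩,⟨0,[(2,0),(13,
  0),(18,0),(7,0)]⟩⟩,⟨true,0,⟨0,[(27,0),(2,0)]⟩,⟨0,[(22,0),(5,0)]⟩⟩,⟨false,1,⟨3,[(25,0),(0,0),(18,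
  1)]⟩,⟨0,[]⟩⟩,⟨false,0,⟨0,[(2,0),(13,0),(10,0),(1,0),(11,0),(1,0)]⟩,⟨1,[(1,1),(23,0),(18,0)]⟩⟩,
  ⟨true,0,⟨0,[(43,0)]⟩,⟨0,[(42,0)]⟩⟩,⟨false,0,⟨0,[(2,0),(13,0),(10,0),(1,0),(11,0),(1,1)]⟩,⟨17,[(1,
  15),(11,5),(1,1),(0,1),(7,1),(0,8),(2,1),(15,2)]⟩⟩,[.a ⟨true,0,⟨0,[(16,0),(6,0),(19,1)]⟩,⟨1,[(10,
  0),(16,0),(0,0)]⟩⟩ ⟨false,1,⟨1,[(25,0),(18,0)]⟩,⟨0,[(2,0),(13,0),(26,0)]⟩⟩ ⟨true,0,⟨4,[(5,0),(8,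
  0),(12,3),(1,3),(5,0),(5,0),(3,0)]⟩,⟨0,[(1,0)]⟩⟩,.o ⟨false,1,⟨0,[(29,0),(15,0)]⟩,⟨0,[(31,0)]⟩⟩,.o
  ⟨false,1,⟨1,[(28,1),(9,0),(5,0)]⟩,⟨0,[(5,0),(6,0)]⟩⟩,.e ⟨false,1,⟨1,[(6,0),(3,0),(5,1),(8,0),(17,
  1)]⟩,⟨4,[(2,2),(2,0),(20,0),(1,0),(0,0),(5,1),(5,1)]⟩⟩ ⟨false,1,⟨0,[(27,0),(1,0),(15,0)]⟩,⟨0,[(1,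
  0)]⟩⟩]⟩) (.R ⟨0,false,false,false,[1,0,0,-1],[1,0,-1],[1,0,0,0,0,0,0,0,-1],(⟨0,[(27,0)]⟩,⟨0,[(28,
  0)]⟩),(⟨0,[(36,0)]⟩,⟨0,[(37,0)]⟩),⟨0,[(0,0)]⟩,.k,.k,(.x (-1) ⟨15,[(7,3),(0,3),(16,6),(0,6),(11,
  1)]⟩ ⟨0,[(40,0)]⟩),.k,.k,.k,⟨false,1,⟨1,[(6,0),(3,0),(14,0)]⟩,⟨0,[(2,0),(13,0),(18,0),(7,0)]⟩⟩,
  ⟨true,0,⟨0,[(27,0),(2,0)]⟩,⟨5,[(0,3),(6,0),(0,0),(15,2),(3,1)]⟩⟩,⟨true,0,⟨0,[]⟩,⟨0,[(47,0)]⟩⟩,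
  ⟨false,0,⟨0,[(2,0),(13,0),(10,0),(1,0),(11,0),(1,0)]⟩,⟨1,[(1,1),(23,0),(18,0)]⟩⟩,⟨false,0,⟨0,[]⟩,
  ⟨0,[]⟩⟩,⟨false,0,⟨0,[]⟩,⟨0,[]⟩⟩,[.a ⟨true,0,⟨0,[(16,0),(6,0),(19,1)]⟩,⟨1,[(10,0),(16,0),(0,0)]⟩⟩
  ⟨false,1,⟨1,[(25,0),(18,0)]⟩,⟨0,[(2,0),(13,0),(26,0)]⟩⟩ ⟨true,0,⟨4,[(5,0),(8,0),(12,3),(1,3),(5,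
  0),(5,0),(3,0)]⟩,⟨0,[(1,0)]⟩⟩,.o ⟨false,1,⟨0,[(29,0),(15,0)]⟩,⟨0,[(31,0)]⟩⟩,.o ⟨false,1,⟨1,[(28,
  1),(9,0),(5,0)]⟩,⟨0,[(5,0),(6,0)]⟩⟩,.e ⟨false,1,⟨1,[(6,0),(3,0),(5,1),(8,0),(17,1)]⟩,⟨4,[(2,2),(2,
  0),(20,0),(1,0),(0,0),(5,1),(5,1)]⟩⟩ ⟨false,1,⟨0,[(27,0),(1,0),(15,0)]⟩,⟨0,[(1,0)]⟩⟩]⟩))) (.Q [0,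
  0,-1,-2,0,0,1,1,-1,0,-1,1] (.p false [0,0,1] [0,0,0,1] (⟨0,[(35,0)]⟩,⟨0,[(34,0)]⟩) .k 2 (⟨0,[(26,
  0)]⟩,⟨0,[(25,0)]⟩) .k (.x (-1) ⟨7,[(22,3),(0,0),(0,0),(10,7),(0,1),(5,3)]⟩ ⟨2,[(2,0),(0,0),(1,0),
  (20,0),(1,1)]⟩)) (.Q [0,0,0,0,0,0,1,1,0,0,-1,1] (.p false [0,0,1] [0,0,0,1] (⟨0,[(36,0)]⟩,⟨0,[(35,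
  0)]⟩) .k 2 (⟨0,[(27,0)]⟩,⟨0,[(26,0)]⟩) .k (.r 0 ⟨0,[(0,0),(25,0),(2,0),(12,1)]⟩ ⟨3,[(24,0),(0,2),
  (8,3)]⟩)) (.Q [0,1,1,0,0,0,0,0,1,0,0,-1] (.p false [0,0,0,1] [] (⟨0,[(28,0)]⟩,⟨0,[(27,0)]⟩) .k 0
  (⟨0,[]⟩,⟨0,[]⟩) .k .k) (.K ⟨0,[0,0,0,1],0,0,(⟨0,[(29,0)]⟩,⟨0,[(28,0)]⟩),.k,(.r (-1) ⟨11,[(14,3),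
  (1,0),(0,1),(7,0),(1,5),(5,0),(11,1)]⟩ ⟨8,[(2,1),(0,0),(2,2),(8,1),(10,2),(2,0),(0,0),(13,12)]⟩),
  (.x 0 ⟨0,[(41,0)]⟩ ⟨15,[(8,3),(0,3),(16,6),(0,6),(11,1)]⟩),.k,.k,[⟨0,[(29,0)]⟩,⟨0,[(28,0)]⟩,⟨0,
  [(2,0),(30,0),(10,1)]⟩,⟨0,[(0,0)]⟩]⟩) (.Q [0,0,0,1,0,0,1,1,0,1,-1,-1] (.p false [0,0,1] [1,0,0,
  -1] (⟨0,[(38,0)]⟩,⟨0,[(37,0)]⟩) .k 2 (⟨0,[(28,0)]⟩,⟨0,[(29,0)]⟩) .k (.r (-1) ⟨1,[(19,0),(7,0),(20,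
  0)]⟩ ⟨0,[(3,0),(44,0)]⟩)) (.Q [0,0,-1,0,0,0,0,0,-1,-1,0,1] (.p true [0,0,0,1] [1] (⟨0,[(30,0)]⟩,
  ⟨0,[(29,0)]⟩) .k 1 (⟨0,[]⟩,⟨0,[]⟩) .k .k) (.Q [0,0,0,0,0,-1,0,0,0,1,0,-1] (.p false [0,0,0,1] [1]
  (⟨0,[(31,0)]⟩,⟨0,[(30,0)]⟩) .k 1 (⟨0,[]⟩,⟨0,[]⟩) .k .k) (.R ⟨1,false,false,false,[1,0,0,-1],[1,0,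
  -1],[0,1,0,0,0,0,0,0,-1],(⟨0,[(31,0)]⟩,⟨0,[(32,0)]⟩),(⟨0,[(40,0)]⟩,⟨0,[(41,0)]⟩),⟨0,[(0,0)]⟩,.k,
  .k,(.x (-1) ⟨15,[(11,3),(0,3),(16,6),(0,6),(11,1)]⟩ ⟨0,[(44,0)]⟩),.k,(.x 0 ⟨1,[(12,0),(13,1),(14,
  0)]⟩ ⟨7,[(8,3),(0,1),(19,2),(0,2),(1,1),(1,1)]⟩),.k,⟨false,0,⟨0,[(1,0),(0,0),(24,0)]⟩,⟨1,[(30,0),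
  (8,1),(9,0)]⟩⟩,⟨true,0,⟨0,[(31,0),(2,0)]⟩,⟨0,[(26,0),(5,0)]⟩⟩,⟨true,0,⟨0,[(51,0)]⟩,⟨0,[]⟩⟩,⟨false,
  1,⟨9,[(9,1),(8,1),(11,4),(0,7),(1,7),(5,1),(5,1),(3,6)]⟩,⟨2,[(1,1),(1,0),(10,1),(21,0)]⟩⟩,⟨false,
  0,⟨0,[(47,0)]⟩,⟨23,[(7,3),(11,3),(0,3),(6,3),(1,4),(0,4),(18,13)]⟩⟩,⟨false,1,⟨9,[(9,1),(8,1),(11,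
  4),(0,7),(1,7),(5,1),(5,1),(1,9),(1,6)]⟩,⟨5,[(1,1),(1,0),(1,2),(8,1),(21,0)]⟩⟩,[.a ⟨true,0,⟨0,
  [(20,0),(6,0),(19,1)]⟩,⟨1,[(14,0),(16,0),(0,0)]⟩⟩ ⟨false,0,⟨0,[(1,0),(29,0),(19,0)]⟩,⟨1,[(30,0),
  (18,0)]⟩⟩ ⟨true,0,⟨4,[(9,0),(8,0),(12,3),(1,3),(5,0),(5,0),(3,0)]⟩,⟨0,[(4,0)]⟩⟩,.o ⟨false,1,⟨0,
  [(33,0),(15,0)]⟩,⟨0,[(35,0)]⟩⟩,.o ⟨false,1,⟨3,[(1,3),(27,0),(0,2)]⟩,⟨0,[(9,0),(6,0)]⟩⟩,.e ⟨false,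
  0,⟨0,[(1,0),(29,0)]⟩,⟨7,[(9,1),(19,0),(0,4),(1,1),(1,1),(14,3)]⟩⟩ ⟨false,1,⟨0,[(31,0),(1,0),(15,
  0)]⟩,⟨0,[(4,0)]⟩⟩]⟩) (.R ⟨0,false,false,false,[1,0,0,-1],[1,0,-1],[0,1,0,0,0,0,0,0,-1],(⟨0,[(31,
  0)]⟩,⟨0,[(32,0)]⟩),(⟨0,[(40,0)]⟩,⟨0,[(41,0)]⟩),⟨0,[(0,0)]⟩,.k,.k,(.x (-1) ⟨15,[(11,3),(0,3),(16,
  6),(0,6),(11,1)]⟩ ⟨0,[(44,0)]⟩),.k,.k,.k,⟨false,0,⟨0,[(1,0),(0,0),(24,0)]⟩,⟨1,[(30,0),(8,1),(9,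
  0)]⟩⟩,⟨true,0,⟨0,[(31,0),(2,0)]⟩,⟨0,[(26,0),(5,0)]⟩⟩,⟨true,0,⟨0,[(51,0)]⟩,⟨0,[]⟩⟩,⟨false,1,⟨9,[(9,
  1),(8,1),(11,4),(0,7),(1,7),(5,1),(5,1),(3,6)]⟩,⟨2,[(1,1),(1,0),(10,1),(21,0)]⟩⟩,⟨false,0,⟨0,[]⟩,
  ⟨0,[]⟩⟩,⟨false,0,⟨0,[]⟩,⟨0,[]⟩⟩,[.a ⟨true,0,⟨0,[(20,0),(6,0),(19,1)]⟩,⟨1,[(14,0),(16,0),(0,0)]⟩⟩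
  ⟨false,0,⟨0,[(1,0),(29,0),(19,0)]⟩,⟨1,[(30,0),(18,0)]⟩⟩ ⟨true,0,⟨4,[(9,0),(8,0),(12,3),(1,3),(5,
  0),(5,0),(3,0)]⟩,⟨0,[(4,0)]⟩⟩,.o ⟨false,1,⟨0,[(33,0),(15,0)]⟩,⟨0,[(35,0)]⟩⟩,.o ⟨false,1,⟨3,[(1,3),
  (27,0),(0,2)]⟩,⟨0,[(9,0),(6,0)]⟩⟩,.e ⟨false,0,⟨0,[(1,0),(29,0)]⟩,⟨7,[(9,1),(19,0),(0,4),(1,1),(1,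
  1),(14,3)]⟩⟩ ⟨false,1,⟨0,[(31,0),(1,0),(15,0)]⟩,⟨0,[(4,0)]⟩⟩]⟩)) (.Q [0,0,0,0,0,-1,0,0,0,1,0,-1]
  (.p false [0,0,0,1] [1] (⟨0,[(31,0)]⟩,⟨0,[(30,0)]⟩) .k 1 (⟨0,[]⟩,⟨0,[]⟩) .k .k) (.R ⟨1,false,
  false,true,[1,0,0,-1],[0,1],[0,0,0,0,0,0,0,0,-1],(⟨0,[(31,0)]⟩,⟨0,[(32,0)]⟩),(⟨0,[(44,0)]⟩,⟨0,
  [(43,0)]⟩),⟨0,[(0,0)]⟩,.k,.k,(.x (-1) ⟨15,[(11,3),(0,3),(16,6),(0,6),(11,1)]⟩ ⟨0,[(44,0)]⟩),(.x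
  (-1) ⟨15,[(11,3),(0,3),(16,6),(0,6),(11,1)]⟩ ⟨0,[(44,0)]⟩),(.r (-1) ⟨5,[(5,1),(0,1),(10,1),(1,1),
  (9,0),(1,1),(16,2)]⟩ ⟨1,[(9,0),(20,0),(1,0),(1,0),(12,3)]⟩),.k,⟨false,1,⟨23,[(2,3),(0,3),(2,17),
  (9,3),(0,13),(11,0),(18,3),(0,0)]⟩,⟨0,[(1,0),(2,0),(28,0),(13,0)]⟩⟩,⟨true,0,⟨0,[(31,0)]⟩,⟨5,[(4,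
  3),(4,0),(22,2),(0,3),(0,0),(7,0),(2,1)]⟩⟩,⟨false,1,⟨3,[(29,0),(0,0),(18,1)]⟩,⟨0,[]⟩⟩,⟨false,0,⟨0,
  [(1,0),(45,0)]⟩,⟨7,[(3,3),(1,1),(13,1),(9,0),(2,1),(9,2),(5,0),(0,2)]⟩⟩,⟨true,0,⟨0,[(47,0)]⟩,⟨0,
  [(46,0)]⟩⟩,⟨false,0,⟨0,[(1,0),(45,1)]⟩,⟨11,[(3,3),(1,5),(13,5),(9,0),(2,1),(9,2),(5,0),(0,6)]⟩⟩,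
  [.o ⟨false,0,⟨0,[(47,0),(3,0)]⟩,⟨20,[(7,2),(9,0),(1,5),(0,0),(21,8),(2,1),(3,10)]⟩⟩,.o ⟨false,0,
  ⟨0,[(47,0)]⟩,⟨23,[(7,3),(11,7),(9,4),(0,4),(11,9),(6,3)]⟩⟩,.o ⟨false,1,⟨1,[(32,1),(9,0),(5,0)]⟩,
  ⟨0,[(9,0),(6,0)]⟩⟩,.a ⟨true,0,⟨0,[(32,0)]⟩,⟨0,[(31,0)]⟩⟩ ⟨true,0,⟨0,[(2,0),(0,0),(20,0)]⟩,⟨0,[(1,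
  0),(2,0),(28,0)]⟩⟩ ⟨false,0,⟨0,[(31,0),(15,0)]⟩,⟨3,[(4,1),(14,1),(12,1),(9,0),(6,2)]⟩⟩]⟩) (.R ⟨0,
  false,false,true,[1,0,0,-1],[0,1],[0,1,1],(⟨0,[(31,0)]⟩,⟨0,[(32,0)]⟩),(⟨0,[(44,0)]⟩,⟨0,[(43,0)]⟩),
  ⟨0,[(0,0)]⟩,.k,.k,(.x (-1) ⟨15,[(11,3),(0,3),(16,6),(0,6),(11,1)]⟩ ⟨0,[(44,0)]⟩),(.x (-1) ⟨15,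
  [(11,3),(0,3),(16,6),(0,6),(11,1)]⟩ ⟨0,[(44,0)]⟩),.k,.k,⟨false,1,⟨11,[(17,3),(1,0),(0,1),(7,0),(0,
  2),(0,2),(5,0),(11,1)]⟩,⟨0,[(47,0)]⟩⟩,⟨true,0,⟨0,[(31,0)]⟩,⟨11,[(0,7),(8,2),(1,1),(0,1),(19,6),(1,
  2),(7,2)]⟩⟩,⟨true,0,⟨0,[(1,0),(2,0),(28,0)]⟩,⟨0,[(2,0),(0,0),(20,0)]⟩⟩,⟨false,0,⟨0,[(1,0),(45,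
  0)]⟩,⟨7,[(3,3),(1,1),(13,1),(9,0),(2,1),(9,2),(5,0),(0,2)]⟩⟩,⟨false,0,⟨0,[]⟩,⟨0,[]⟩⟩,⟨false,0,⟨0,
  []⟩,⟨0,[]⟩⟩,[.o ⟨false,0,⟨0,[(47,0),(3,0)]⟩,⟨20,[(7,2),(9,0),(1,5),(0,0),(21,8),(2,1),(3,10)]⟩⟩,
  .o ⟨false,0,⟨0,[(47,0)]⟩,⟨23,[(7,3),(11,7),(9,4),(0,4),(11,9),(6,3)]⟩⟩,.o ⟨false,1,⟨1,[(32,1),(9,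
  0),(5,0)]⟩,⟨0,[(9,0),(6,0)]⟩⟩,.a ⟨true,0,⟨0,[(32,0)]⟩,⟨0,[(31,0)]⟩⟩ ⟨true,0,⟨0,[(51,0)]⟩,⟨0,[]⟩⟩
  ⟨false,0,⟨0,[(31,0),(15,0)]⟩,⟨3,[(4,1),(14,1),(12,1),(9,0),(6,2)]⟩⟩]⟩))) (.Q [0,0,0,0,0,-1,0,0,0,
  1,0,-1] (.p false [0,0,0,1] [1] (⟨0,[(30,0)]⟩,⟨0,[(29,0)]⟩) .k 1 (⟨0,[]⟩,⟨0,[]⟩) .k .k) (.I [0,1,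
  -1,0,0,0,0,1,-1] (.R ⟨1,false,false,false,[1,0,0,-1],[1,0,-1],[0,1,0,0,0,0,0,0,-1],(⟨0,[(31,0)]⟩,
  ⟨0,[(32,0)]⟩),(⟨0,[(40,0)]⟩,⟨0,[(41,0)]⟩),⟨0,[(1,0)]⟩,.k,.k,(.x (-1) ⟨15,[(11,3),(0,3),(16,6),(0,
  6),(11,1)]⟩ ⟨0,[(44,0)]⟩),.k,(.x 0 ⟨1,[(12,0),(13,1),(14,0)]⟩ ⟨7,[(8,3),(0,1),(19,2),(0,2),(1,1),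
  (1,1)]⟩),.k,⟨false,0,⟨0,[(0,0)]⟩,⟨1,[(30,0),(8,1),(9,0)]⟩⟩,⟨true,0,⟨0,[(31,0),(2,0)]⟩,⟨0,[(26,0),
  (5,0)]⟩⟩,⟨true,0,⟨0,[(51,0)]⟩,⟨0,[]⟩⟩,⟨false,1,⟨9,[(9,1),(8,1),(11,4),(0,7),(1,7),(5,1),(5,1),(3,
  6)]⟩,⟨1,[(0,0),(2,0),(0,0),(21,0)]⟩⟩,⟨false,0,⟨0,[(47,0)]⟩,⟨23,[(7,3),(11,3),(0,3),(6,3),(1,4),(0,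
  4),(18,13)]⟩⟩,⟨false,1,⟨9,[(9,1),(8,1),(11,4),(0,7),(1,7),(5,1),(5,1),(1,9),(1,6)]⟩,⟨3,[(0,0),(2,
  0),(0,0),(0,1),(20,0)]⟩⟩,[.a ⟨true,0,⟨0,[(2,0),(28,0),(15,0)]⟩,⟨1,[(14,0),(16,0),(0,0)]⟩⟩ ⟨false,
  0,⟨0,[(0,0),(38,0)]⟩,⟨1,[(30,0),(18,0)]⟩⟩ ⟨true,0,⟨4,[(9,0),(8,0),(12,3),(1,3),(5,0),(5,0),(3,
  0)]⟩,⟨0,[(4,0)]⟩⟩,.o ⟨false,1,⟨0,[(33,0),(15,0)]⟩,⟨0,[(35,0)]⟩⟩,.o ⟨false,1,⟨1,[(32,1),(9,0),(5,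
  0)]⟩,⟨0,[(9,0),(6,0)]⟩⟩,.e ⟨false,0,⟨0,[(0,0),(19,0),(26,0)]⟩,⟨7,[(9,1),(19,0),(0,4),(1,1),(1,1),
  (14,3)]⟩⟩ ⟨false,1,⟨0,[(31,0),(1,0),(15,0)]⟩,⟨0,[(4,0)]⟩⟩]⟩) (.I [1,0,-1,-1,0,0,0,0,-1] (.Q [0,0,
  1,1,0,0,0,0,1,1,0,-1] (.p false [0,0,0,1] [1] (⟨0,[(33,0)]⟩,⟨0,[(32,0)]⟩) .k 1 (⟨0,[]⟩,⟨0,[]⟩) .k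
  .k) (.R ⟨1,false,false,true,[1,0,0,-1],[0,1],[1,0,0,-1,0,0,0,0,-1],(⟨0,[(33,0)]⟩,⟨0,[(34,0)]⟩),
  (⟨0,[(46,0)]⟩,⟨0,[(45,0)]⟩),⟨0,[(3,0)]⟩,.k,.k,(.x (-1) ⟨15,[(13,3),(0,3),(16,6),(0,6),(11,1)]⟩ ⟨0,
  [(46,0)]⟩),(.x (-1) ⟨15,[(13,3),(0,3),(16,6),(0,6),(11,1)]⟩ ⟨0,[(46,0)]⟩),(.r (-1) ⟨5,[(1,1),(6,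
  1),(10,3),(1,0),(8,0),(0,0),(6,0),(11,0)]⟩ ⟨1,[(11,0),(20,0),(1,0),(1,0),(12,3)]⟩),.k,⟨false,1,⟨0,
  [(8,0),(10,0)]⟩,⟨0,[(0,0),(5,0),(28,0),(13,0)]⟩⟩,⟨true,0,⟨0,[(33,0)]⟩,⟨3,[(4,1),(1,1),(4,0),(22,
  0),(1,0),(7,0),(4,1)]⟩⟩,⟨false,1,⟨23,[(9,3),(11,3),(0,3),(6,3),(1,4),(0,4),(18,13)]⟩,⟨0,[(49,
  0)]⟩⟩,⟨false,0,⟨0,[(0,0)]⟩,⟨5,[(4,1),(0,1),(1,1),(23,0),(12,1),(5,0),(0,1)]⟩⟩,⟨true,0,⟨0,[]⟩,⟨0,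
  [(53,0)]⟩⟩,⟨false,0,⟨0,[(0,0),(48,0)]⟩,⟨7,[(4,3),(2,3),(0,1),(10,1),(11,0),(12,1),(6,2)]⟩⟩,[.o
  ⟨false,0,⟨0,[(49,0),(3,0)]⟩,⟨20,[(9,2),(9,0),(1,5),(0,0),(21,8),(2,1),(3,10)]⟩⟩,.o ⟨false,0,⟨0,
  [(49,0)]⟩,⟨23,[(9,3),(11,7),(9,4),(0,4),(11,9),(6,3)]⟩⟩,.o ⟨false,1,⟨1,[(34,1),(9,0),(5,0)]⟩,⟨0,
  [(11,0),(6,0)]⟩⟩,.a ⟨true,0,⟨0,[(34,0)]⟩,⟨0,[(33,0)]⟩⟩ ⟨true,0,⟨0,[(1,0)]⟩,⟨0,[(0,0),(5,0),(28,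
  0)]⟩⟩ ⟨false,0,⟨0,[(33,0),(15,0)]⟩,⟨23,[(4,15),(1,7),(2,3),(21,2),(0,2),(11,5),(6,11)]⟩⟩]⟩) (.Q
  [0,0,1,2,0,0,0,0,1,1,0,-1] (.p false [0,0,0,1] [1] (⟨0,[(34,0)]⟩,⟨0,[(33,0)]⟩) .k 1 (⟨0,[]⟩,⟨0,
  []⟩) .k .k) (.R ⟨1,true,false,true,[1,0,0,-1],[0,1],[0,0,0,0,0,0,0,0,-1],(⟨0,[(34,0)]⟩,⟨0,[(35,
  0)]⟩),(⟨0,[(47,0)]⟩,⟨0,[(46,0)]⟩),⟨0,[(4,0)]⟩,.k,.k,(.x (-1) ⟨15,[(14,3),(0,3),(16,6),(0,6),(11,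
  1)]⟩ ⟨0,[(47,0)]⟩),(.x (-1) ⟨15,[(14,3),(0,3),(16,6),(0,6),(11,1)]⟩ ⟨0,[(47,0)]⟩),(.r (-1) ⟨5,[(2,
  1),(6,1),(10,3),(1,0),(8,0),(0,0),(6,0),(11,0)]⟩ ⟨4,[(0,3),(2,0),(3,1),(4,0),(22,2),(0,0),(0,1),
  (7,0),(4,1)]⟩),.k,⟨false,1,⟨1,[(2,1),(48,0),(0,0)]⟩,⟨0,[(0,0),(6,0),(19,0)]⟩⟩,⟨true,0,⟨0,[(34,
  0)]⟩,⟨3,[(5,1),(1,1),(4,0),(22,0),(1,0),(7,0),(4,1)]⟩⟩,⟨false,1,⟨3,[(32,0),(0,0),(18,1)]⟩,⟨0,[]⟩⟩,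
  ⟨true,0,⟨0,[(0,0),(48,0)]⟩,⟨0,[(1,0)]⟩⟩,⟨true,0,⟨0,[(50,0)]⟩,⟨0,[(49,0)]⟩⟩,⟨false,0,⟨0,[(0,0)]⟩,
  ⟨4,[(1,0),(3,1),(2,1),(11,0),(2,0),(8,0),(12,0),(6,1)]⟩⟩,[]⟩) (.R ⟨1,false,false,true,[1,0,0,-1],
  [0,1],[1,0,0,-1,0,0,0,0,-1],(⟨0,[(34,0)]⟩,⟨0,[(35,0)]⟩),(⟨0,[(47,0)]⟩,⟨0,[(46,0)]⟩),⟨0,[(4,0)]⟩,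
  .k,.k,(.x (-1) ⟨15,[(14,3),(0,3),(16,6),(0,6),(11,1)]⟩ ⟨0,[(47,0)]⟩),(.x (-1) ⟨15,[(14,3),(0,3),
  (16,6),(0,6),(11,1)]⟩ ⟨0,[(47,0)]⟩),(.r (-1) ⟨5,[(2,1),(6,1),(10,3),(1,0),(8,0),(0,0),(6,0),(11,
  0)]⟩ ⟨1,[(12,0),(20,0),(1,0),(1,0),(12,3)]⟩),.k,⟨false,1,⟨0,[(9,0),(10,0)]⟩,⟨0,[(3,0),(26,0),(7,
  0),(11,2)]⟩⟩,⟨true,0,⟨0,[(34,0)]⟩,⟨3,[(5,1),(1,1),(4,0),(22,0),(1,0),(7,0),(4,1)]⟩⟩,⟨false,1,⟨23,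
  [(10,3),(11,3),(0,3),(6,3),(1,4),(0,4),(18,13)]⟩,⟨0,[(50,0)]⟩⟩,⟨true,0,⟨0,[(3,0),(26,0),(3,0),(3,
  0),(11,1)]⟩,⟨0,[(1,0)]⟩⟩,⟨true,0,⟨0,[]⟩,⟨0,[(54,0)]⟩⟩,⟨true,0,⟨0,[(3,0),(26,0),(3,0),(3,0),(11,
  2)]⟩,⟨0,[(0,0)]⟩⟩,[.o ⟨false,0,⟨0,[(50,0),(3,0)]⟩,⟨20,[(10,2),(9,0),(1,5),(0,0),(21,8),(2,1),(3,
  10)]⟩⟩,.o ⟨false,0,⟨0,[(50,0)]⟩,⟨23,[(10,3),(11,7),(9,4),(0,4),(11,9),(6,3)]⟩⟩,.o ⟨false,1,⟨1,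
  [(35,1),(9,0),(5,0)]⟩,⟨0,[(12,0),(6,0)]⟩⟩,.a ⟨true,0,⟨0,[(35,0)]⟩,⟨0,[(34,0)]⟩⟩ ⟨true,0,⟨0,[(2,
  0)]⟩,⟨0,[(3,0),(26,0),(7,0),(11,1)]⟩⟩ ⟨false,0,⟨0,[(34,0),(15,0)]⟩,⟨23,[(5,15),(1,7),(2,3),(21,2),
  (0,2),(11,5),(6,11)]⟩⟩]⟩))) (.R ⟨1,false,false,true,[1,0,0,-1],[0,1],[1,1,0,-1,0,0,0,0,-1],(⟨0,
  [(32,0)]⟩,⟨0,[(33,0)]⟩),(⟨0,[(45,0)]⟩,⟨0,[(44,0)]⟩),⟨0,[(2,0)]⟩,.k,.k,(.r (-1) ⟨11,[(18,3),(1,0),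
  (0,1),(7,0),(0,5),(6,0),(11,1)]⟩ ⟨0,[(0,0)]⟩),(.r (-1) ⟨11,[(18,3),(1,0),(0,1),(7,0),(0,5),(6,0),
  (11,1)]⟩ ⟨0,[(0,0)]⟩),(.r (-1) ⟨5,[(6,1),(0,1),(10,1),(1,1),(9,0),(1,1),(16,2)]⟩ ⟨5,[(0,7),(9,0),
  (19,0),(2,0),(1,0),(12,3)]⟩),.k,⟨false,1,⟨5,[(6,1),(0,1),(10,1),(1,1),(9,0),(1,1),(16,2)]⟩,⟨0,[(0,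
  0),(47,0)]⟩⟩,⟨true,0,⟨0,[(32,0)]⟩,⟨7,[(0,1),(2,1),(1,5),(1,1),(2,0),(22,0),(0,1),(0,2),(7,0)]⟩⟩,
  ⟨true,0,⟨0,[(47,0)]⟩,⟨0,[(48,0)]⟩⟩,⟨false,0,⟨0,[(0,0),(31,0)]⟩,⟨5,[(3,1),(0,1),(1,1),(23,0),(12,
  1),(5,0),(0,1)]⟩⟩,⟨false,0,⟨0,[]⟩,⟨3,[(30,0),(0,0),(18,1)]⟩⟩,⟨false,0,⟨0,[(0,0),(31,0),(15,0)]⟩,
  ⟨7,[(3,3),(2,3),(0,1),(10,1),(11,0),(12,1),(6,2)]⟩⟩,[.o ⟨false,0,⟨0,[(48,0),(3,0)]⟩,⟨20,[(8,2),(9,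
  0),(1,5),(0,0),(21,8),(2,1),(3,10)]⟩⟩,.o ⟨false,0,⟨0,[(48,0)]⟩,⟨23,[(8,3),(11,7),(9,4),(0,4),(11,
  9),(6,3)]⟩⟩,.o ⟨false,1,⟨1,[(33,1),(9,0),(5,0)]⟩,⟨0,[(10,0),(6,0)]⟩⟩,.a ⟨true,0,⟨0,[(33,0)]⟩,⟨0,
  [(32,0)]⟩⟩ ⟨true,0,⟨1,[(4,0),(1,0),(25,1),(1,1),(1,0)]⟩,⟨0,[(0,0)]⟩⟩ ⟨false,0,⟨0,[(32,0),(15,0)]⟩,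
  ⟨23,[(3,15),(1,7),(2,3),(21,2),(0,2),(11,5),(6,11)]⟩⟩]⟩))) (.Q [0,1,1,0,0,0,1,1,1,1,-1,-1] (.p
  false [0,0,1] [1,0,0,-1] (⟨0,[(40,0)]⟩,⟨0,[(39,0)]⟩) .k 2 (⟨0,[(30,0)]⟩,⟨0,[(31,0)]⟩) .k (.r (-1)
  ⟨1,[(21,0),(7,0),(20,0)]⟩ ⟨0,[(5,0),(44,0)]⟩)) (.R ⟨0,false,false,true,[1,0,0,-1],[0,0,1],[1,1],
  (⟨0,[(31,0)]⟩,⟨0,[(32,0)]⟩),(⟨0,[(41,0)]⟩,⟨0,[(40,0)]⟩),⟨0,[(1,0)]⟩,.k,.k,(.x (-1) ⟨15,[(11,3),(0,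
  3),(16,6),(0,6),(11,1)]⟩ ⟨0,[(44,0)]⟩),.k,.k,.k,⟨true,0,⟨0,[(39,0)]⟩,⟨20,[(0,1),(3,4),(4,2),(4,4),
  (3,9),(3,1),(6,0)]⟩⟩,⟨false,0,⟨0,[(26,0),(4,0)]⟩,⟨7,[(10,3),(18,0),(0,0),(1,7),(9,1)]⟩⟩,⟨false,1,
  ⟨3,[(29,0),(0,2)]⟩,⟨0,[(3,0),(5,0),(6,0)]⟩⟩,⟨true,0,⟨0,[(0,0)]⟩,⟨0,[(3,0),(29,0)]⟩⟩,⟨false,0,⟨0,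
  []⟩,⟨0,[]⟩⟩,⟨false,0,⟨0,[]⟩,⟨0,[]⟩⟩,[.o ⟨false,0,⟨0,[(35,0)]⟩,⟨0,[(33,0),(15,0)]⟩⟩,.e ⟨true,0,⟨0,
  []⟩,⟨7,[(9,1),(19,0),(0,0),(1,1),(1,1)]⟩⟩ ⟨true,0,⟨37,[(0,1),(8,11),(4,9),(7,5),(6,0),(1,23),(3,
  3),(6,4)]⟩,⟨0,[(2,0),(44,0)]⟩⟩,.o ⟨false,1,⟨1,[(32,1),(9,0),(5,0)]⟩,⟨0,[(9,0),(6,0)]⟩⟩,.a ⟨true,0,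
  ⟨0,[(32,0)]⟩,⟨0,[(31,0)]⟩⟩ ⟨false,1,⟨3,[(29,0),(0,0),(17,1)]⟩,⟨5,[(9,0),(22,0),(1,0),(10,1),(3,
  0)]⟩⟩ ⟨true,0,⟨0,[(31,0),(3,0)]⟩,⟨0,[(2,0),(44,0)]⟩⟩]⟩) (.I [0,1,-1,0,0,0,0,1,-1] (.R ⟨0,false,
  false,false,[1,0,0,-1],[1,0,-1],[0,1,0,0,0,0,0,0,-1],(⟨0,[(32,0)]⟩,⟨0,[(33,0)]⟩),(⟨0,[(41,0)]⟩,⟨0,
  [(42,0)]⟩),⟨0,[(2,0)]⟩,.k,.k,(.x (-1) ⟨15,[(12,3),(0,3),(16,6),(0,6),(11,1)]⟩ ⟨0,[(45,0)]⟩),.k,.k,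
  .k,⟨false,0,⟨0,[(0,0)]⟩,⟨1,[(31,0),(8,1),(9,0)]⟩⟩,⟨true,0,⟨0,[(32,0),(2,0)]⟩,⟨5,[(2,3),(9,0),(0,
  0),(15,2),(3,1)]⟩⟩,⟨true,0,⟨0,[(52,0)]⟩,⟨0,[]⟩⟩,⟨false,1,⟨9,[(10,1),(8,1),(11,4),(0,7),(1,7),(5,
  1),(5,1),(3,6)]⟩,⟨1,[(0,0),(3,0),(0,0),(21,0)]⟩⟩,⟨false,0,⟨0,[]⟩,⟨0,[]⟩⟩,⟨false,0,⟨0,[]⟩,⟨0,[]⟩⟩,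
  [.a ⟨true,0,⟨0,[(3,0),(28,0),(15,0)]⟩,⟨1,[(15,0),(16,0),(0,0)]⟩⟩ ⟨false,0,⟨0,[(0,0),(39,0)]⟩,⟨1,
  [(31,0),(18,0)]⟩⟩ ⟨true,0,⟨4,[(10,0),(8,0),(12,3),(1,3),(5,0),(5,0),(3,0)]⟩,⟨0,[(5,0)]⟩⟩,.o
  ⟨false,1,⟨0,[(34,0),(15,0)]⟩,⟨0,[(36,0)]⟩⟩,.o ⟨false,1,⟨1,[(33,1),(9,0),(5,0)]⟩,⟨0,[(10,0),(6,
  0)]⟩⟩,.e ⟨false,0,⟨1,[(0,0),(0,0),(25,0),(4,0)]⟩,⟨7,[(10,1),(19,0),(0,4),(1,1),(1,1),(14,3)]⟩⟩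
  ⟨false,1,⟨0,[(32,0),(1,0),(15,0)]⟩,⟨0,[(5,0)]⟩⟩]⟩) (.R ⟨0,false,false,true,[1,0,0,-1],[0,1],[1,0,
  1],(⟨0,[(32,0)]⟩,⟨0,[(33,0)]⟩),(⟨0,[(45,0)]⟩,⟨0,[(44,0)]⟩),⟨0,[(2,0)]⟩,.k,.k,(.x (-1) ⟨15,[(12,3),
  (0,3),(16,6),(0,6),(11,1)]⟩ ⟨0,[(45,0)]⟩),(.x (-1) ⟨15,[(12,3),(0,3),(16,6),(0,6),(11,1)]⟩ ⟨0,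
  [(45,0)]⟩),.k,.k,⟨false,1,⟨11,[(18,3),(2,3),(8,0),(0,0),(17,1),(0,3)]⟩,⟨0,[(48,0),(3,0)]⟩⟩,⟨true,
  0,⟨0,[(32,0)]⟩,⟨11,[(2,7),(7,2),(1,1),(0,1),(19,6),(1,2),(7,2)]⟩⟩,⟨false,1,⟨7,[(10,1),(19,0),(0,
  4),(1,1),(1,1),(14,3)]⟩,⟨0,[(1,0),(30,0),(3,0)]⟩⟩,⟨true,0,⟨0,[(0,0),(27,0),(3,0),(3,0),(11,1)]⟩,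
  ⟨0,[(1,0),(20,0)]⟩⟩,⟨false,0,⟨0,[]⟩,⟨0,[]⟩⟩,⟨false,0,⟨0,[]⟩,⟨0,[]⟩⟩,[.o ⟨false,0,⟨0,[(48,0),(3,
  0)]⟩,⟨20,[(8,2),(9,0),(1,5),(0,0),(21,8),(2,1),(3,10)]⟩⟩,.o ⟨false,0,⟨0,[(48,0)]⟩,⟨23,[(8,3),(11,
  7),(9,4),(0,4),(11,9),(6,3)]⟩⟩,.o ⟨false,1,⟨1,[(33,1),(9,0),(5,0)]⟩,⟨0,[(10,0),(6,0)]⟩⟩,.a ⟨true,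
  0,⟨0,[(33,0)]⟩,⟨0,[(32,0)]⟩⟩ ⟨true,0,⟨0,[]⟩,⟨0,[(52,0)]⟩⟩ ⟨false,0,⟨0,[(32,0),(15,0)]⟩,⟨23,[(3,
  15),(1,7),(2,3),(21,2),(0,2),(11,5),(6,11)]⟩⟩]⟩)))))) (.Q [0,0,-1,-1,0,0,-1,-1,-1,-1,1,1] (.p
  true [0,0,1] [1,0,0,-1] (⟨0,[(37,0)]⟩,⟨0,[(36,0)]⟩) .k 2 (⟨0,[(27,0)]⟩,⟨0,[(28,0)]⟩) .k (.r (-1)
  ⟨1,[(18,0),(7,0),(20,0)]⟩ ⟨0,[(2,0),(44,0)]⟩)) (.I [0,1,-1,0,0,0,0,1,-1] (.R ⟨1,false,false,false,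
  [1,0,0,-1],[1,0,-1],[0,1,0,0,0,0,0,0,-1],(⟨0,[(29,0)]⟩,⟨0,[(30,0)]⟩),(⟨0,[(38,0)]⟩,⟨0,[(39,0)]⟩),
  ⟨3,[(2,1),(6,0),(0,0),(1,0),(16,1)]⟩,.k,.k,(.x (-1) ⟨15,[(9,3),(0,3),(16,6),(0,6),(11,1)]⟩ ⟨0,
  [(42,0)]⟩),.k,(.x 0 ⟨1,[(10,0),(13,1),(14,0)]⟩ ⟨7,[(6,3),(0,1),(19,2),(0,2),(1,1),(1,1)]⟩),.k,
  ⟨false,0,⟨0,[(0,0)]⟩,⟨1,[(28,0),(8,1),(9,0)]⟩⟩,⟨true,0,⟨4,[(2,2),(4,0),(8,1),(3,0),(8,0),(3,0)]⟩,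
  ⟨0,[(24,0),(5,0)]⟩⟩,⟨true,0,⟨0,[(49,0)]⟩,⟨0,[]⟩⟩,⟨false,1,⟨27,[(2,19),(4,7),(8,3),(10,0),(0,14),
  (5,7),(5,1),(6,17)]⟩,⟨0,[(1,0),(10,0),(32,0)]⟩⟩,⟨false,0,⟨0,[(45,0)]⟩,⟨23,[(5,3),(11,3),(0,3),(6,
  3),(1,4),(0,4),(18,13)]⟩⟩,⟨false,1,⟨27,[(2,19),(4,7),(8,3),(10,0),(0,14),(5,7),(5,1),(4,27),(1,
  17)]⟩,⟨0,[(1,0),(10,0)]⟩⟩,[.e ⟨false,0,⟨0,[(0,0),(36,0)]⟩,⟨1,[(28,0),(18,0)]⟩⟩ ⟨false,0,⟨0,[(2,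
  0)]⟩,⟨7,[(12,3),(14,0),(0,0),(1,7),(9,1),(5,3)]⟩⟩,.o ⟨false,1,⟨0,[(31,0),(15,0)]⟩,⟨0,[(33,0)]⟩⟩,
  .o ⟨false,1,⟨1,[(30,1),(9,0),(5,0)]⟩,⟨9,[(2,6),(4,2),(4,1),(7,0),(11,0),(0,0),(6,1)]⟩⟩,.a ⟨true,0,
  ⟨0,[(30,0)]⟩,⟨0,[(29,0)]⟩⟩ ⟨false,0,⟨0,[(0,0),(17,0),(26,0)]⟩,⟨7,[(7,1),(19,0),(0,4),(1,1),(1,1),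
  (14,3)]⟩⟩ ⟨true,0,⟨0,[(2,0)]⟩,⟨0,[(30,0),(2,0)]⟩⟩]⟩) (.R ⟨1,false,false,true,[1,0,0,-1],[0,1],[1,
  0,0,-1,0,0,0,0,-1],(⟨0,[(29,0)]⟩,⟨0,[(30,0)]⟩),(⟨0,[(42,0)]⟩,⟨0,[(41,0)]⟩),⟨3,[(2,1),(6,0),(0,0),
  (1,0),(16,1)]⟩,.k,.k,(.x (-1) ⟨15,[(9,3),(0,3),(16,6),(0,6),(11,1)]⟩ ⟨0,[(42,0)]⟩),(.x (-1) ⟨15,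
  [(9,3),(0,3),(16,6),(0,6),(11,1)]⟩ ⟨0,[(42,0)]⟩),(.r (-1) ⟨5,[(3,1),(0,1),(10,1),(1,1),(9,0),(1,
  1),(16,2)]⟩ ⟨1,[(7,0),(20,0),(1,0),(1,0),(12,3)]⟩),.k,⟨false,1,⟨0,[(4,0),(10,0)]⟩,⟨0,[(0,0),(24,
  0),(7,0),(11,2)]⟩⟩,⟨true,0,⟨0,[(29,0)]⟩,⟨0,[(24,0),(5,0),(1,0)]⟩⟩,⟨false,1,⟨23,[(5,3),(11,3),(0,
  3),(6,3),(1,4),(0,4),(18,13)]⟩,⟨0,[(45,0)]⟩⟩,⟨false,0,⟨0,[(0,0),(1,0),(9,0),(12,0),(19,1)]⟩,⟨9,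
  [(1,1),(1,3),(0,1),(9,1),(12,0),(2,3),(9,2),(6,3)]⟩⟩,⟨true,0,⟨0,[]⟩,⟨0,[(49,0)]⟩⟩,⟨false,0,⟨0,[(0,
  0),(1,0),(9,0),(12,0),(19,2)]⟩,⟨9,[(1,3),(1,5),(13,1),(9,0),(0,0),(11,1),(6,5)]⟩⟩,[.o ⟨false,0,⟨0,
  [(45,0),(3,0)]⟩,⟨20,[(5,2),(9,0),(1,5),(0,0),(21,8),(2,1),(3,10)]⟩⟩,.o ⟨false,0,⟨0,[(45,0)]⟩,⟨23,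
  [(5,3),(11,7),(9,4),(0,4),(11,9),(6,3)]⟩⟩,.o ⟨false,1,⟨1,[(30,1),(9,0),(5,0)]⟩,⟨9,[(2,6),(4,2),(4,
  1),(7,0),(11,0),(0,0),(6,1)]⟩⟩,.a ⟨true,0,⟨0,[(30,0)]⟩,⟨0,[(29,0)]⟩⟩ ⟨true,0,⟨0,[(1,0),(0,0),(9,
  0)]⟩,⟨0,[(0,0),(24,0),(7,0),(11,1)]⟩⟩ ⟨false,0,⟨0,[(29,0),(15,0)]⟩,⟨23,[(0,1),(2,3),(1,1),(11,5),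
  (10,0),(1,19),(1,1),(7,8),(6,13)]⟩⟩]⟩)) (.K ⟨0,[0,0,0,1],0,0,(⟨0,[(29,0)]⟩,⟨0,[(28,0)]⟩),.k,(.r
  (-1) ⟨11,[(14,3),(1,0),(0,1),(7,0),(1,5),(5,0),(11,1)]⟩ ⟨8,[(2,1),(0,0),(2,2),(8,1),(10,2),(2,0),
  (0,0),(13,12)]⟩),(.x 0 ⟨0,[(41,0)]⟩ ⟨15,[(8,3),(0,3),(16,6),(0,6),(11,1)]⟩),.k,.k,[⟨0,[(29,0)]⟩,
  ⟨0,[(28,0)]⟩,⟨0,[(2,0),(30,0),(10,1)]⟩,⟨0,[(0,0),(20,0)]⟩]⟩))) (.Q [0,1,-1,0,0,0,0,0,-1,0,0,1]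
  (.p true [0,0,0,1] [] (⟨0,[(27,0)]⟩,⟨0,[(26,0)]⟩) .k 0 (⟨0,[]⟩,⟨0,[]⟩) .k .k) (.K ⟨0,[0,0,0,1],0,
  0,(⟨0,[(28,0)]⟩,⟨0,[(27,0)]⟩),.k,(.r (-1) ⟨11,[(13,3),(1,0),(0,1),(7,0),(1,5),(5,0),(11,1)]⟩ ⟨6,
  [(0,1),(1,0),(2,1),(5,0),(13,1),(4,1),(12,6)]⟩),(.x 0 ⟨0,[(40,0)]⟩ ⟨15,[(7,3),(0,3),(16,6),(0,6),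
  (11,1)]⟩),.k,.k,[⟨0,[(28,0)]⟩,⟨0,[(27,0)]⟩,⟨0,[(0,0)]⟩,⟨2,[(1,2),(1,0),(11,0),(1,1)]⟩]⟩) (.I [0,0,
  0,0,0,0,0,0,-1] (.Q [0,-1,0,1,0,0,0,0,0,1,0,-1] (.p false [0,0,0,1] [1] (⟨0,[(29,0)]⟩,⟨0,[(28,
  0)]⟩) .k 1 (⟨0,[]⟩,⟨0,[]⟩) .k .k) (.R ⟨1,false,false,false,[1,0,0,-1],[0,1],[0,1,0,0,0,0,0,0,-1],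
  (⟨0,[(29,0)]⟩,⟨0,[(30,0)]⟩),(⟨0,[(42,0)]⟩,⟨0,[(41,0)]⟩),⟨3,[(0,1),(8,0),(0,0),(8,0),(2,0),(6,1)]⟩,
  .k,.k,(.x (-1) ⟨15,[(9,3),(0,3),(16,6),(0,6),(11,1)]⟩ ⟨0,[(42,0)]⟩),(.x (-1) ⟨15,[(9,3),(0,3),(16,
  6),(0,6),(11,1)]⟩ ⟨0,[(42,0)]⟩),(.r (-1) ⟨2,[(1,0),(2,1),(10,1),(28,1),(1,0)]⟩ ⟨3,[(3,3),(3,0),(4,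
  1),(17,4),(1,0),(7,0)]⟩),.k,⟨false,1,⟨0,[(1,0),(42,0),(1,0)]⟩,⟨0,[(2,0),(27,0),(14,0)]⟩⟩,⟨true,0,
  ⟨0,[(29,0)]⟩,⟨0,[(24,0),(5,0),(1,0)]⟩⟩,⟨true,0,⟨0,[(49,0)]⟩,⟨0,[]⟩⟩,⟨false,0,⟨3,[(0,1),(1,1),(0,
  1),(1,0),(23,0),(0,2)]⟩,⟨9,[(1,0),(2,4),(9,2),(0,1),(1,0),(1,3),(7,1),(2,9),(9,2)]⟩⟩,⟨false,0,⟨0,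
  [(45,0)]⟩,⟨23,[(5,3),(11,3),(0,3),(6,3),(1,4),(0,4),(18,13)]⟩⟩,⟨false,0,⟨2,[(0,1),(1,0),(0,1),(8,
  0),(17,1)]⟩,⟨23,[(1,5),(2,11),(0,1),(9,11),(1,7),(1,3),(7,2),(2,23),(9,8)]⟩⟩,[.o ⟨false,0,⟨0,[(45,
  0)]⟩,⟨23,[(5,3),(11,7),(9,4),(0,4),(11,9),(6,3)]⟩⟩,.a ⟨true,0,⟨0,[(0,0),(29,0)]⟩,⟨0,[(44,0)]⟩⟩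
  ⟨true,0,⟨0,[(1,0)]⟩,⟨2,[(2,1),(0,0),(15,0),(10,2),(13,0)]⟩⟩ ⟨false,0,⟨0,[(0,0)]⟩,⟨15,[(17,3),(1,
  7),(7,0),(0,0),(1,15),(3,3),(5,5),(5,7)]⟩⟩,.o ⟨false,1,⟨1,[(30,1),(9,0),(5,0)]⟩,⟨0,[(7,0),(6,
  0)]⟩⟩,.e ⟨false,1,⟨1,[(27,0),(18,0)]⟩,⟨0,[(2,0),(27,0)]⟩⟩ ⟨false,0,⟨0,[(0,0)]⟩,⟨23,[(5,3),(11,7),
  (9,4),(0,4),(1,23),(9,9),(6,3)]⟩⟩]⟩) (.Q [0,0,0,0,0,1,0,0,0,-1,0,1] (.p true [0,0,0,1] [1] (⟨0,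
  [(30,0)]⟩,⟨0,[(29,0)]⟩) .k 1 (⟨0,[]⟩,⟨0,[]⟩) .k .k) (.R ⟨0,false,false,false,[1,0,0,-1],[0,1],[0,
  1,0,0,0,0,0,0,-1],(⟨0,[(30,0)]⟩,⟨0,[(31,0)]⟩),(⟨0,[(43,0)]⟩,⟨0,[(42,0)]⟩),⟨0,[(0,0)]⟩,.k,.k,(.x
  (-1) ⟨15,[(10,3),(0,3),(16,6),(0,6),(11,1)]⟩ ⟨0,[(43,0)]⟩),(.x (-1) ⟨15,[(10,3),(0,3),(16,6),(0,
  6),(11,1)]⟩ ⟨0,[(43,0)]⟩),.k,.k,⟨false,1,⟨0,[(2,0),(42,0),(1,0)]⟩,⟨0,[(3,0),(27,0),(14,0)]⟩⟩,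
  ⟨true,0,⟨0,[(30,0)]⟩,⟨11,[(0,7),(7,2),(1,1),(0,1),(19,6),(1,2),(7,2)]⟩⟩,⟨true,0,⟨0,[(50,0)]⟩,⟨0,
  []⟩⟩,⟨false,0,⟨0,[(3,0),(26,0),(0,0),(14,0)]⟩,⟨17,[(0,7),(0,5),(3,5),(4,1),(0,1),(4,5),(11,5),(2,
  3),(9,2),(5,2)]⟩⟩,⟨false,0,⟨0,[]⟩,⟨0,[]⟩⟩,⟨false,0,⟨0,[]⟩,⟨0,[]⟩⟩,[.o ⟨false,0,⟨0,[(46,0)]⟩,⟨23,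
  [(6,3),(11,7),(9,4),(0,4),(11,9),(6,3)]⟩⟩,.e ⟨true,0,⟨0,[(2,0)]⟩,⟨3,[(1,0),(1,1),(0,1),(1,0),(24,
  2),(13,0)]⟩⟩ ⟨true,0,⟨11,[(4,1),(3,0),(4,0),(14,0),(1,9),(0,0),(5,0),(6,5),(1,7)]⟩,⟨0,[(1,0)]⟩⟩,
  .o ⟨false,1,⟨1,[(31,1),(9,0),(5,0)]⟩,⟨0,[(8,0),(6,0)]⟩⟩,.a ⟨true,0,⟨0,[(31,0)]⟩,⟨0,[(30,0)]⟩⟩
  ⟨false,1,⟨1,[(28,0),(18,0)]⟩,⟨0,[(3,0),(27,0)]⟩⟩ ⟨true,0,⟨0,[(30,0),(15,0)]⟩,⟨0,[(1,0)]⟩⟩]⟩) (.R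
  ⟨1,false,false,false,[1,0,0,-1],[0,1],[0,1,0,0,0,0,0,0,-1],(⟨0,[(30,0)]⟩,⟨0,[(31,0)]⟩),(⟨0,[(43,
  0)]⟩,⟨0,[(42,0)]⟩),⟨0,[(0,0)]⟩,.k,.k,(.x (-1) ⟨15,[(10,3),(0,3),(16,6),(0,6),(11,1)]⟩ ⟨0,[(43,
  0)]⟩),(.x (-1) ⟨15,[(10,3),(0,3),(16,6),(0,6),(11,1)]⟩ ⟨0,[(43,0)]⟩),(.r (-1) ⟨2,[(2,0),(2,1),(10,
  1),(28,1),(1,0)]⟩ ⟨3,[(4,3),(3,0),(4,1),(17,4),(1,0),(7,0)]⟩),.k,⟨false,1,⟨0,[(2,0),(42,0),(1,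
  0)]⟩,⟨0,[(3,0),(27,0),(14,0)]⟩⟩,⟨true,0,⟨0,[(30,0)]⟩,⟨5,[(1,3),(6,0),(22,2),(1,0),(7,0),(2,1),(1,
  3)]⟩⟩,⟨true,0,⟨0,[(50,0)]⟩,⟨0,[]⟩⟩,⟨false,0,⟨0,[(3,0),(26,0),(0,0),(14,0)]⟩,⟨21,[(1,9),(3,9),(7,
  1),(1,3),(0,5),(11,5),(2,11),(9,4),(5,0)]⟩⟩,⟨false,0,⟨0,[(46,0)]⟩,⟨23,[(6,3),(11,3),(0,3),(6,3),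
  (1,4),(0,4),(18,13)]⟩⟩,⟨false,0,⟨0,[(3,0),(26,0),(0,0),(14,1)]⟩,⟨3,[(1,3),(3,1),(10,1),(11,0),(19,
  0)]⟩⟩,[.o ⟨false,0,⟨0,[(46,0)]⟩,⟨23,[(6,3),(11,7),(9,4),(0,4),(11,9),(6,3)]⟩⟩,.e ⟨true,0,⟨0,[(2,
  0)]⟩,⟨3,[(1,0),(1,1),(0,1),(1,0),(24,2),(13,0)]⟩⟩ ⟨true,0,⟨11,[(4,1),(3,0),(4,0),(14,0),(1,9),(0,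
  0),(5,0),(6,5),(1,7)]⟩,⟨0,[(1,0)]⟩⟩,.o ⟨false,1,⟨1,[(31,1),(9,0),(5,0)]⟩,⟨0,[(8,0),(6,0)]⟩⟩,.a
  ⟨true,0,⟨0,[(31,0)]⟩,⟨0,[(30,0)]⟩⟩ ⟨false,1,⟨1,[(28,0),(18,0)]⟩,⟨0,[(3,0),(27,0)]⟩⟩ ⟨true,0,⟨0,
  [(30,0),(15,0)]⟩,⟨0,[(1,0)]⟩⟩]⟩))) (.Q [0,0,0,0,0,0,1,1,0,1,-1,-1] (.p false [0,0,1] [1,0,0,-1]
  (⟨0,[(38,0)]⟩,⟨0,[(37,0)]⟩) .k 2 (⟨0,[(28,0)]⟩,⟨0,[(29,0)]⟩) .k (.r (-1) ⟨1,[(19,0),(7,0),(20,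
  0)]⟩ ⟨0,[(3,0),(44,0)]⟩)) (.Q [0,0,0,0,0,-1,0,0,0,1,0,-1] (.p false [0,0,0,1] [1] (⟨0,[(30,0)]⟩,
  ⟨0,[(29,0)]⟩) .k 1 (⟨0,[]⟩,⟨0,[]⟩) .k .k) (.R ⟨1,false,false,true,[1,0,0,-1],[1,-1],[0,0,0,0,0,0,
  0,0,-1],(⟨0,[(30,0)]⟩,⟨0,[(31,0)]⟩),(⟨0,[(42,0)]⟩,⟨0,[(43,0)]⟩),⟨0,[(0,0)]⟩,.k,.k,(.x (-1) ⟨15,
  [(10,3),(0,3),(16,6),(0,6),(11,1)]⟩ ⟨0,[(43,0)]⟩),(.r 0 ⟨12,[(5,6),(2,2),(4,0),(3,3),(8,1),(1,2),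
  (2,2),(2,4),(11,14)]⟩ ⟨11,[(16,3),(1,0),(0,1),(7,0),(1,5),(5,0),(11,1)]⟩),.k,.k,⟨true,0,⟨7,[(5,5),
  (2,0),(4,1),(0,1),(2,1),(10,0),(2,0),(1,0),(12,7)]⟩,⟨0,[(2,0),(42,0)]⟩⟩,⟨false,0,⟨9,[(1,2),(1,0),
  (1,0),(2,1),(21,3),(1,1),(0,2),(7,1)]⟩,⟨0,[(31,0),(15,0)]⟩⟩,⟨false,1,⟨3,[(28,0),(0,0),(18,1)]⟩,⟨0,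
  []⟩⟩,⟨false,0,⟨9,[(2,0),(0,6),(4,0),(9,2),(1,2),(5,0),(2,0),(0,1)]⟩,⟨5,[(5,3),(15,1),(6,0),(2,5),
  (14,5),(0,2)]⟩⟩,⟨true,0,⟨0,[(46,0)]⟩,⟨0,[(45,0)]⟩⟩,⟨false,0,⟨29,[(2,0),(0,16),(0,9),(3,0),(9,2),
  (1,12),(5,0),(2,0),(0,1)]⟩,⟨5,[(5,3),(15,1),(6,0),(2,5),(15,2)]⟩⟩,[.e ⟨false,1,⟨1,[(28,0),(18,
  0)]⟩,⟨0,[(2,0)]⟩⟩ ⟨false,0,⟨0,[(1,0),(21,0)]⟩,⟨1,[(31,1),(14,1),(0,0),(0,0)]⟩⟩,.o ⟨false,1,⟨23,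
  [(6,3),(11,7),(9,4),(0,4),(11,9),(6,3)]⟩,⟨0,[(46,0)]⟩⟩,.o ⟨false,1,⟨1,[(31,1),(9,0),(5,0)]⟩,⟨9,
  [(1,2),(1,0),(1,0),(2,1),(21,3),(1,1),(0,2),(7,1)]⟩⟩,.a ⟨true,0,⟨0,[(31,0)]⟩,⟨0,[(30,0)]⟩⟩ ⟨false,
  1,⟨5,[(5,3),(15,1),(6,0),(18,2)]⟩,⟨3,[(2,1),(5,0),(20,0),(1,0),(1,0)]⟩⟩ ⟨true,0,⟨0,[(1,0),(21,
  0)]⟩,⟨0,[(31,0),(14,0)]⟩⟩]⟩) (.R ⟨1,false,false,false,[0,0,0,1],[0,0,1],[1,1,0,-1,0,0,0,0,1],(⟨0,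
  [(31,0)]⟩,⟨0,[(30,0)]⟩),(⟨0,[(40,0)]⟩,⟨0,[(39,0)]⟩),⟨2,[(0,0),(9,0),(0,0),(19,1)]⟩,.k,.k,(.r (-1)
  ⟨11,[(16,3),(1,0),(0,1),(7,0),(1,5),(5,0),(11,1)]⟩ ⟨12,[(5,6),(2,2),(4,0),(3,3),(8,1),(1,2),(2,2),
  (2,4),(11,14)]⟩),.k,(.r (-1) ⟨3,[(18,0),(0,1),(7,0),(1,1),(5,0),(11,1)]⟩ ⟨12,[(5,10),(2,0),(4,8),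
  (3,9),(8,4),(1,0),(2,0),(2,5),(11,17)]⟩),.k,⟨true,0,⟨1,[(2,1),(15,0),(8,0),(7,0)]⟩,⟨0,[(5,0),(7,
  0),(3,0),(28,0)]⟩⟩,⟨false,1,⟨5,[(0,3),(9,0),(0,0),(15,2),(3,1),(15,5)]⟩,⟨0,[(30,0),(2,0)]⟩⟩,⟨true,
  0,⟨0,[(45,0)]⟩,⟨0,[(46,0)]⟩⟩,⟨false,1,⟨11,[(0,3),(4,5),(4,0),(0,0),(1,8),(1,5),(12,2),(2,7),(16,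
  2)]⟩,⟨0,[(3,0),(31,0)]⟩⟩,⟨false,0,⟨0,[]⟩,⟨3,[(28,0),(0,0),(18,1)]⟩⟩,⟨false,1,⟨11,[(0,3),(4,5),(4,
  0),(0,0),(1,8),(1,5),(12,2),(2,7),(14,11),(1,2)]⟩,⟨14,[(2,0),(0,11),(4,0),(9,2),(0,3),(6,4),(2,0),
  (0,1),(4,7)]⟩⟩,[.a ⟨true,0,⟨1,[(13,0),(16,0),(0,0)]⟩,⟨0,[(2,0),(2,0),(20,0),(19,0)]⟩⟩ ⟨true,0,⟨0,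
  [(2,0),(42,0)]⟩,⟨41,[(0,3),(4,29),(2,5),(1,0),(0,0),(1,8),(0,11),(2,11),(10,5),(2,1),(14,41)]⟩⟩
  ⟨false,1,⟨5,[(0,3),(9,0),(0,0),(1,2),(17,1),(15,5)]⟩,⟨31,[(3,1),(0,11),(0,7),(2,3),(8,5),(0,11),
  (9,2),(1,13),(17,0)]⟩⟩,.o ⟨false,1,⟨7,[(13,3),(14,0),(0,0),(11,1),(6,3)]⟩,⟨0,[(32,0)]⟩⟩,.o ⟨false,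
  0,⟨9,[(1,2),(1,0),(1,0),(2,1),(21,3),(1,1),(0,2),(7,1)]⟩,⟨1,[(31,1),(9,0),(5,0)]⟩⟩,.o ⟨false,0,
  ⟨27,[(4,5),(3,15),(8,1),(0,5),(2,5),(6,2),(1,5),(10,6)]⟩,⟨3,[(0,3),(9,0),(0,0),(3,1),(11,0),(19,
  1)]⟩⟩]⟩)) (.R ⟨1,false,false,false,[0,0,0,1],[0,0,1],[0,1,0,0,0,0,0,0,1],(⟨0,[(30,0)]⟩,⟨0,[(29,
  0)]⟩),(⟨0,[(39,0)]⟩,⟨0,[(38,0)]⟩),⟨3,[(0,1),(8,0),(0,0),(1,0),(17,1)]⟩,.k,.k,(.r (-1) ⟨11,[(15,3),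
  (1,0),(0,1),(7,0),(1,5),(5,0),(11,1)]⟩ ⟨12,[(4,6),(2,2),(4,0),(3,3),(8,1),(1,2),(2,2),(2,4),(11,
  14)]⟩),.k,(.r (-1) ⟨3,[(17,0),(0,1),(7,0),(1,1),(5,0),(11,1)]⟩ ⟨12,[(4,10),(2,0),(4,8),(3,9),(8,
  4),(1,0),(2,0),(2,5),(11,17)]⟩),.k,⟨true,0,⟨1,[(1,1),(24,0),(4,0),(2,0)]⟩,⟨0,[(4,0),(7,0),(3,
  0)]⟩⟩,⟨false,1,⟨0,[(14,0),(11,0),(3,0)]⟩,⟨0,[(29,0),(2,0)]⟩⟩,⟨true,0,⟨0,[(49,0)]⟩,⟨0,[]⟩⟩,⟨false,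
  1,⟨23,[(4,15),(7,17),(1,11),(5,1),(6,3),(2,23),(9,2),(6,2)]⟩,⟨0,[(2,0),(31,0)]⟩⟩,⟨false,0,⟨0,[(45,
  0)]⟩,⟨23,[(5,3),(11,3),(0,3),(6,3),(1,4),(0,4),(18,13)]⟩⟩,⟨false,1,⟨23,[(4,15),(7,17),(1,11),(5,
  1),(6,3),(2,23),(9,2),(4,23),(1,2)]⟩,⟨14,[(1,0),(0,11),(4,0),(9,2),(0,3),(6,4),(2,0),(0,1),(4,
  7)]⟩⟩,[.a ⟨true,0,⟨1,[(12,0),(16,0),(0,0)]⟩,⟨0,[(0,0),(28,0)]⟩⟩ ⟨true,0,⟨0,[(1,0),(47,0)]⟩,⟨7,[(4,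
  5),(2,0),(4,1),(0,1),(2,1),(10,0),(2,0),(1,0)]⟩⟩ ⟨false,1,⟨1,[(12,0),(1,1),(11,0),(3,1)]⟩,⟨31,[(2,
  1),(0,11),(0,7),(2,3),(8,5),(0,11),(9,2),(1,13),(17,0)]⟩⟩,.o ⟨false,1,⟨7,[(12,3),(14,0),(0,0),(11,
  1),(6,3)]⟩,⟨0,[(31,0)]⟩⟩,.o ⟨false,0,⟨0,[(7,0),(6,0)]⟩,⟨1,[(30,1),(9,0),(5,0)]⟩⟩,.o ⟨false,0,⟨27,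
  [(3,5),(3,15),(8,1),(0,5),(2,5),(6,2),(1,5),(10,6)]⟩,⟨0,[(14,0),(9,0),(5,0)]⟩⟩]⟩)))))))

theorem ok60 : chk (cU (-1) true 10) t60 l42 = true := by decide +kernel

noncomputable def t74 : Tre :=
  (.K ⟨0,[1,1,-1],1,0,(⟨0,[(24,0),(3,0)]⟩,⟨0,[(9,0)]⟩),.k,.k,(.r 0 ⟨1,[(0,1),(19,1),(5,0),(4,3),(1,
  0)]⟩ ⟨0,[(1,0)]⟩),.k,.k,[⟨0,[(0,0)]⟩,⟨0,[(1,0),(2,0),(6,0),(19,3)]⟩,⟨0,[(5,0),(9,0),(0,0)]⟩,⟨0,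
  [(17,0),(13,0)]⟩]⟩)

theorem ok74 : chk (cU (-1) true 10) t74 r29 = true := by decide +kernel

noncomputable def t78 : Tre :=
  (.Q [0,-1,0,2,0,0,-1,-1,0,0,1] (.p true [0,0,1] [] (⟨0,[(30,0)]⟩,⟨0,[(29,0)]⟩) .k 0 (⟨0,[]⟩,⟨0,
  []⟩) .k .k) (.R ⟨1,false,false,false,[0,0,1],[0,1],[0,1,1],(⟨0,[(31,0)]⟩,⟨0,[(30,0)]⟩),(⟨0,[(34,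
  0)]⟩,⟨0,[(33,0)]⟩),⟨0,[(15,0)]⟩,.k,.k,.k,.k,(.x 0 ⟨1,[(13,0),(1,2),(8,0),(2,2)]⟩ ⟨0,[(3,0)]⟩),.k,
  ⟨true,0,⟨0,[(36,0)]⟩,⟨11,[(0,0),(6,4),(4,2),(3,0),(18,1),(3,1)]⟩⟩,⟨false,1,⟨0,[(6,0)]⟩,⟨0,[(27,
  0)]⟩⟩,⟨false,0,⟨9,[(7,1),(2,3),(8,0),(0,0),(5,3),(0,4),(0,0)]⟩,⟨3,[(1,0),(0,0),(2,0),(6,1),(3,
  0)]⟩⟩,⟨true,0,⟨1,[(0,0),(25,0)]⟩,⟨0,[(11,0)]⟩⟩,⟨false,0,⟨3,[(7,1),(11,0),(0,0),(8,1)]⟩,⟨6,[(4,2),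
  (0,0),(6,1),(22,0),(3,0)]⟩⟩,⟨false,0,⟨0,[(0,0)]⟩,⟨0,[(11,0),(24,0),(2,0)]⟩⟩,[.o ⟨false,0,⟨0,[(37,
  0)]⟩,⟨5,[(9,1),(1,1),(7,0),(0,0),(11,1),(6,1)]⟩⟩,.a ⟨true,0,⟨0,[(1,0)]⟩,⟨0,[(36,0)]⟩⟩ ⟨true,0,⟨1,
  [(27,0),(0,0)]⟩,⟨0,[]⟩⟩ ⟨false,1,⟨15,[(0,7),(5,7),(5,3),(6,0),(0,0),(18,1)]⟩,⟨1,[(11,0),(2,0),(3,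
  0)]⟩⟩,.o ⟨false,0,⟨0,[(16,0)]⟩,⟨19,[(6,3),(1,7),(10,4),(0,4),(11,5)]⟩⟩,.o ⟨false,0,⟨0,[(27,0)]⟩,
  ⟨4,[(6,2),(1,0),(23,1)]⟩⟩]⟩) (.Q [0,0,0,0,0,2,0,0,0,0,-1] (.p false [0,0,1] [] (⟨0,[(31,0)]⟩,⟨0,
  [(30,0)]⟩) .k 0 (⟨0,[]⟩,⟨0,[]⟩) .k .k) (.R ⟨0,false,false,true,[0,-1,1],[1,-1],[1],(⟨0,[(16,0)]⟩,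
  ⟨5,[(0,2),(1,1),(15,1),(0,0),(11,2)]⟩),(⟨0,[(34,0)]⟩,⟨0,[(35,0)]⟩),⟨0,[(0,0)]⟩,.k,.k,(.x 0 ⟨1,
  [(14,0),(1,2),(8,0),(2,2)]⟩ ⟨0,[(4,0)]⟩),.k,.k,.k,⟨true,0,⟨9,[(2,1),(5,3),(4,1),(19,0),(2,1),(3,
  0)]⟩,⟨0,[(37,0)]⟩⟩,⟨false,1,⟨4,[(7,2),(1,0),(23,1)]⟩,⟨2,[(2,0),(15,0),(0,1)]⟩⟩,⟨false,0,⟨1,[(8,0),
  (21,0),(9,0)]⟩,⟨35,[(5,13),(1,3),(4,5),(0,7),(4,1),(1,4),(0,4)]⟩⟩,⟨true,0,⟨0,[(24,0)]⟩,⟨0,[(2,0),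
  (9,0)]⟩⟩,⟨false,0,⟨0,[]⟩,⟨0,[]⟩⟩,⟨false,0,⟨0,[]⟩,⟨0,[]⟩⟩,[.a ⟨true,0,⟨0,[(37,0)]⟩,⟨0,[(2,0)]⟩⟩
  ⟨true,0,⟨0,[]⟩,⟨1,[(28,0),(0,0)]⟩⟩ ⟨false,1,⟨1,[(3,0),(3,0),(4,0),(2,0)]⟩,⟨0,[(2,0),(25,0)]⟩⟩,.o
  ⟨false,1,⟨15,[(1,3),(8,3),(9,2),(0,2),(11,5),(6,3)]⟩,⟨0,[(38,0)]⟩⟩,.o ⟨false,0,⟨0,[(28,0)]⟩,⟨4,
  [(7,2),(1,0),(23,1)]⟩⟩,.o ⟨false,0,⟨1,[(28,2),(0,0)]⟩,⟨0,[(3,0)]⟩⟩]⟩) (.Q [0,0,0,0,0,2,0,0,0,-1,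
  1] (.p true [0,0,1] [1] (⟨0,[(32,0)]⟩,⟨0,[(31,0)]⟩) .k 1 (⟨0,[]⟩,⟨0,[]⟩) .k .k) (.R ⟨0,false,
  false,true,[1,-1,-1],[1,-1],[0,1],(⟨0,[(15,0)]⟩,⟨5,[(0,2),(2,1),(15,1),(0,0),(12,2)]⟩),(⟨0,[(35,
  0)]⟩,⟨0,[(36,0)]⟩),⟨0,[(0,0)]⟩,.k,.k,(.r (-1) ⟨1,[(7,1),(3,0),(8,0),(7,0)]⟩ ⟨0,[(9,0),(4,0),(28,
  0)]⟩),.k,.k,.k,⟨false,0,⟨0,[(39,0)]⟩,⟨7,[(6,1),(0,1),(3,0),(8,0),(0,1),(0,1),(5,0)]⟩⟩,⟨true,0,⟨0,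
  [(18,0)]⟩,⟨0,[(30,0)]⟩⟩,⟨false,0,⟨2,[(3,0),(5,0),(0,0),(3,0),(12,1)]⟩,⟨3,[(7,1),(4,1),(8,0),(0,0),
  (8,1)]⟩⟩,⟨true,0,⟨0,[(27,0)]⟩,⟨0,[(3,0),(12,0)]⟩⟩,⟨false,0,⟨0,[]⟩,⟨0,[]⟩⟩,⟨false,0,⟨0,[]⟩,⟨0,[]⟩⟩,
  [.a ⟨true,0,⟨0,[(38,0)]⟩,⟨0,[(3,0)]⟩⟩ ⟨true,0,⟨0,[(43,0)]⟩,⟨3,[(29,0),(0,0),(6,1)]⟩⟩ ⟨false,1,⟨1,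
  [(13,0),(2,0),(3,0),(19,1)]⟩,⟨32,[(3,16),(0,0),(4,7),(0,15),(3,3),(22,2),(3,2)]⟩⟩,.o ⟨false,1,⟨15,
  [(2,3),(8,3),(9,2),(0,2),(11,5),(6,3)]⟩,⟨0,[(39,0)]⟩⟩,.o ⟨false,0,⟨0,[(26,0)]⟩,⟨7,[(20,3),(0,0),
  (0,0),(11,1),(5,3)]⟩⟩,.o ⟨false,0,⟨1,[(26,1),(2,0),(0,0)]⟩,⟨0,[(18,0),(21,0)]⟩⟩]⟩) (.I [1,1,-1,-1,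
  0,0,0,-1] (.R ⟨2,false,false,false,[0,1],[0,1,1],[1,1,1],(⟨0,[]⟩,⟨0,[]⟩),(⟨0,[(34,0),(2,0)]⟩,⟨0,
  [(16,0)]⟩),⟨0,[]⟩,.k,.k,.k,.k,.k,.k,⟨false,0,⟨0,[(0,0)]⟩,⟨7,[(4,3),(10,3),(6,0),(0,0),(11,1),(4,
  3)]⟩⟩,⟨true,0,⟨0,[(19,0)]⟩,⟨0,[(31,0)]⟩⟩,⟨true,0,⟨0,[(39,0)]⟩,⟨0,[(40,0)]⟩⟩,⟨false,1,⟨3,[(15,1),
  (5,1),(13,0),(6,0)]⟩,⟨6,[(0,1),(3,1),(4,0),(0,0),(0,1),(1,1),(15,1)]⟩⟩,⟨false,0,⟨0,[]⟩,⟨3,[(22,0),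
  (0,0),(18,1)]⟩⟩,⟨false,1,⟨1,[(4,0),(10,0),(5,0),(13,0),(4,0)]⟩,⟨4,[(0,0),(3,0),(6,0),(1,2),(6,1),
  (8,0)]⟩⟩,[.a ⟨true,0,⟨0,[(4,0),(23,0)]⟩,⟨4,[(0,0),(3,0),(6,0),(1,2),(6,1),(8,0)]⟩⟩ ⟨false,0,⟨0,
  [(44,0)]⟩,⟨1,[(41,0),(0,0)]⟩⟩ ⟨true,0,⟨1,[(10,0),(4,0),(3,0),(8,0)]⟩,⟨4,[(0,0),(3,0),(6,0),(1,2),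
  (6,1),(8,0)]⟩⟩,.o ⟨false,1,⟨1,[(4,0),(10,0),(5,0),(13,0),(4,0)]⟩,⟨0,[(17,0)]⟩⟩,.o ⟨false,1,⟨3,
  [(22,0),(0,0),(17,1)]⟩,⟨0,[(19,0),(7,0)]⟩⟩,.e ⟨false,0,⟨0,[]⟩,⟨3,[(22,0),(0,0),(18,1)]⟩⟩ ⟨false,1,
  ⟨1,[(4,0),(10,0),(5,0),(13,0),(4,0)]⟩,⟨4,[(0,0),(3,0),(6,0),(1,2),(6,1),(8,0)]⟩⟩]⟩) (.I [0,0,-2,
  -2,1,0,0,0,1] (.I [0,0,1,1,0,0,0,0,-1] (.I [0,0,0,0,0,0,0,0,1] (.Q [0,0,0,0,0,-1,0,0,0,0,0,1] (.p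
  true [0,0,0,1] [] (⟨0,[(28,0)]⟩,⟨0,[(27,0)]⟩) .k 0 (⟨0,[]⟩,⟨0,[]⟩) .k .k) (.I [0,-1,0,0,0,0,0,0,
  1] (.R ⟨1,false,false,true,[0,0,0,1],[0,-1,1],[0,0,0,0,0,0,0,0,1],(⟨0,[(30,0)]⟩,⟨0,[(29,0)]⟩),(⟨0,
  [(23,0)]⟩,⟨0,[(38,0),(3,0)]⟩),⟨0,[(1,0)]⟩,.k,.k,(.r (-1) ⟨7,[(4,3),(22,0),(0,2)]⟩ ⟨0,[(3,0)]⟩),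
  (.r 0 ⟨1,[(15,0),(12,0),(8,0)]⟩ ⟨0,[(3,0),(8,0)]⟩),.k,.k,⟨false,0,⟨1,[(0,1),(14,0),(21,0),(8,0)]⟩,
  ⟨4,[(3,0),(8,1),(1,0),(10,1),(1,1),(5,2)]⟩⟩,⟨true,0,⟨0,[(24,0),(5,0)]⟩,⟨0,[(29,0),(2,0)]⟩⟩,⟨false,
  1,⟨3,[(27,0),(0,0),(18,1)]⟩,⟨0,[]⟩⟩,⟨false,1,⟨0,[(3,0),(8,0),(11,0),(5,0)]⟩,⟨39,[(0,37),(9,3),(4,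
  19),(0,7),(11,0),(0,39),(1,19),(8,3),(6,10)]⟩⟩,⟨true,0,⟨0,[(45,0)]⟩,⟨0,[(44,0)]⟩⟩,⟨false,1,⟨0,[(3,
  0),(9,0),(16,0),(2,0)]⟩,⟨25,[(0,19),(14,7),(0,9),(1,11),(3,3),(5,2),(0,25),(1,1),(8,4)]⟩⟩,[.o
  ⟨false,0,⟨0,[(19,0)]⟩,⟨3,[(10,1),(4,1),(18,1),(5,0),(6,2)]⟩⟩,.a ⟨true,0,⟨0,[(8,0),(0,0)]⟩,⟨1,[(9,
  0),(4,0),(0,0),(6,0)]⟩⟩ ⟨true,0,⟨0,[(0,0)]⟩,⟨1,[(15,0),(3,0),(5,0),(1,0)]⟩⟩ ⟨false,1,⟨0,[(13,0),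
  (16,0),(2,0)]⟩,⟨19,[(10,1),(4,9),(0,3),(12,19),(1,7),(2,1),(5,2),(6,4)]⟩⟩,.o ⟨false,0,⟨0,[(24,0),
  (4,0),(2,0)]⟩,⟨1,[(30,1),(9,0),(5,0)]⟩⟩,.o ⟨false,0,⟨0,[(29,0),(2,0),(2,0)]⟩,⟨0,[(10,0),(13,0),(5,
  0)]⟩⟩]⟩) (.R ⟨1,false,false,true,[0,0,0,1],[1,-1,-1],[0,1,0,0,0,0,0,0,1],(⟨0,[(30,0)]⟩,⟨0,[(29,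
  0)]⟩),(⟨0,[(21,0)]⟩,⟨0,[(39,0),(2,0)]⟩),⟨0,[(1,0)]⟩,.k,.k,(.r (-1) ⟨7,[(4,3),(22,0),(0,2)]⟩ ⟨0,
  [(3,0)]⟩),(.r 0 ⟨0,[(2,0),(2,0),(43,0)]⟩ ⟨3,[(13,1),(3,0),(8,0),(0,1),(6,0),(2,1)]⟩),.k,.k,⟨true,
  0,⟨0,[(2,0),(2,0),(43,0)]⟩,⟨0,[(0,0),(17,0)]⟩⟩,⟨false,1,⟨4,[(14,2),(1,0),(13,4),(9,1)]⟩,⟨0,[(24,
  0),(4,0)]⟩⟩,⟨true,0,⟨0,[(49,0)]⟩,⟨0,[]⟩⟩,⟨false,1,⟨1,[(10,0),(7,0),(3,0),(4,0),(2,1)]⟩,⟨0,[(2,0),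
  (2,0),(18,0),(4,0)]⟩⟩,⟨false,0,⟨0,[(45,0)]⟩,⟨15,[(8,3),(9,3),(6,3),(1,2),(0,2),(18,9)]⟩⟩,⟨false,1,
  ⟨5,[(10,3),(4,0),(2,1),(8,2),(2,5),(0,1),(5,0)]⟩,⟨1,[(2,1),(2,0),(13,0),(4,0),(4,1),(13,0)]⟩⟩,[.o
  ⟨false,0,⟨0,[(22,0)]⟩,⟨1,[(9,0),(10,0),(5,0),(13,0),(4,0)]⟩⟩,.a ⟨true,0,⟨0,[(9,0),(7,0)]⟩,⟨0,[(9,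
  0),(23,0)]⟩⟩ ⟨true,0,⟨0,[(2,0)]⟩,⟨4,[(0,1),(2,0),(4,0),(6,0),(9,0),(1,0),(15,1)]⟩⟩ ⟨false,1,⟨2,
  [(10,1),(2,0),(3,0),(12,2),(6,1)]⟩,⟨8,[(5,2),(9,2),(4,1),(5,1),(2,8),(3,4),(6,0)]⟩⟩,.o ⟨false,0,
  ⟨0,[(24,0),(4,0),(2,0)]⟩,⟨1,[(30,1),(9,0),(5,0)]⟩⟩,.o ⟨false,0,⟨0,[(29,0),(2,0),(2,0)]⟩,⟨0,[(10,
  0),(13,0),(5,0)]⟩⟩]⟩)) (.R ⟨1,false,false,false,[1,0,0,-1],[1,0,-1],[0,0,0,0,0,0,0,0,-1],(⟨0,[(28,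
  0)]⟩,⟨0,[(29,0)]⟩),(⟨0,[(37,0)]⟩,⟨0,[(38,0)]⟩),⟨2,[(0,0),(4,0),(0,0),(21,1)]⟩,.k,.k,(.x (-1) ⟨15,
  [(5,3),(0,3),(19,6),(0,6),(11,1)]⟩ ⟨0,[(41,0)]⟩),.k,(.r (-1) ⟨0,[(2,0),(8,0)]⟩ ⟨1,[(14,0),(12,0),
  (8,0)]⟩),.k,⟨false,1,⟨2,[(2,2),(5,0),(0,0),(1,1),(20,0)]⟩,⟨0,[(3,0),(10,0)]⟩⟩,⟨true,0,⟨0,[(28,0),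
  (2,0)]⟩,⟨0,[(23,0),(5,0)]⟩⟩,⟨false,1,⟨3,[(26,0),(0,0),(18,1)]⟩,⟨0,[]⟩⟩,⟨false,0,⟨89,[(0,3),(0,89),
  (3,0),(0,0),(2,11),(4,29),(0,38),(1,59),(10,85),(10,17),(2,14)]⟩,⟨0,[(2,0),(9,0),(16,0),(2,0)]⟩⟩,
  ⟨true,0,⟨0,[(44,0)]⟩,⟨0,[(43,0)]⟩⟩,⟨false,0,⟨14,[(1,12),(7,6),(4,9),(0,3),(1,4),(9,0),(0,14),(10,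
  1),(2,4)]⟩,⟨0,[(2,0),(8,0),(11,0),(5,0)]⟩⟩,[.e ⟨false,1,⟨1,[(26,0),(18,0)]⟩,⟨0,[(1,0)]⟩⟩ ⟨false,0,
  ⟨5,[(0,3),(4,0),(0,0),(2,2),(4,2),(2,2),(6,2),(3,1)]⟩,⟨5,[(19,1),(5,1),(3,5),(2,1),(6,0),(5,2)]⟩⟩,
  .o ⟨false,1,⟨0,[(30,0),(15,0)]⟩,⟨0,[(32,0)]⟩⟩,.o ⟨false,1,⟨1,[(29,1),(9,0),(5,0)]⟩,⟨20,[(0,3),(4,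
  0),(0,0),(0,5),(6,5),(13,16),(2,5),(7,5),(2,2)]⟩⟩,.a ⟨true,0,⟨0,[(29,0)]⟩,⟨0,[(28,0)]⟩⟩ ⟨false,1,
  ⟨0,[(2,0),(9,0)]⟩,⟨6,[(1,2),(5,1),(6,1),(12,1),(7,1),(6,0)]⟩⟩ ⟨true,0,⟨5,[(0,3),(4,0),(0,0),(2,2),
  (4,2),(2,2),(6,2),(3,1)]⟩,⟨0,[(29,0),(2,0)]⟩⟩]⟩)) (.Q [0,1,-1,0,0,0,0,0,-1,0,0,1] (.p true [0,0,0,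
  1] [] (⟨0,[(28,0)]⟩,⟨0,[(27,0)]⟩) .k 0 (⟨0,[]⟩,⟨0,[]⟩) .k .k) (.K ⟨0,[0,0,0,1],0,0,(⟨0,[(29,0)]⟩,
  ⟨0,[(28,0)]⟩),.k,(.r (-1) ⟨7,[(3,3),(22,0),(0,2)]⟩ ⟨0,[(2,0)]⟩),(.x 0 ⟨0,[(41,0)]⟩ ⟨15,[(5,3),(0,
  3),(19,6),(0,6),(11,1)]⟩),.k,.k,[⟨0,[(29,0)]⟩,⟨0,[(28,0)]⟩,⟨0,[(0,0)]⟩,⟨0,[(3,0),(10,0),(13,0),(2,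
  0),(0,0)]⟩]⟩) (.I [0,0,0,0,0,0,0,0,-1] (.Q [0,0,0,0,0,0,-1,-1,0,0,1,-1] (.p true [0,0,1] [0,0,0,
  1] (⟨0,[(39,0)]⟩,⟨0,[(38,0)]⟩) .k 2 (⟨0,[(30,0)]⟩,⟨0,[(29,0)]⟩) .k (.r (-1) ⟨1,[(20,0),(6,0),(21,
  0)]⟩ ⟨0,[(4,0),(10,0)]⟩)) (.Q [0,0,0,0,0,-1,0,0,0,1,0,-1] (.p false [0,0,0,1] [1] (⟨0,[(31,0)]⟩,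
  ⟨0,[(30,0)]⟩) .k 1 (⟨0,[]⟩,⟨0,[]⟩) .k .k) (.R ⟨1,false,false,true,[1,0,0,-1],[1,0,-1],[0,1,0,0,0,
  0,0,0,-1],(⟨0,[(31,0)]⟩,⟨0,[(32,0)]⟩),(⟨0,[(40,0)]⟩,⟨0,[(41,0)]⟩),⟨0,[(0,0)]⟩,.k,.k,(.x (-1) ⟨15,
  [(8,3),(0,3),(19,6),(0,6),(11,1)]⟩ ⟨0,[(44,0)]⟩),.k,(.r (-1) ⟨23,[(4,9),(9,10),(1,0),(5,4),(4,1),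
  (1,6),(5,2)]⟩ ⟨1,[(17,0),(12,0),(8,0)]⟩),.k,⟨false,1,⟨5,[(4,3),(11,1),(5,1),(6,0),(5,1),(12,0)]⟩,
  ⟨0,[(6,0),(10,0)]⟩⟩,⟨true,0,⟨0,[(31,0),(2,0)]⟩,⟨0,[(26,0),(5,0)]⟩⟩,⟨true,0,⟨0,[(51,0)]⟩,⟨0,[]⟩⟩,
  ⟨false,0,⟨0,[(3,0),(32,0)]⟩,⟨2,[(4,2),(2,0),(7,0),(6,0),(3,2),(5,2),(15,0)]⟩⟩,⟨false,0,⟨0,[(47,
  0)]⟩,⟨15,[(10,3),(9,3),(6,3),(1,2),(0,2),(18,9)]⟩⟩,⟨false,0,⟨2,[(1,0),(1,0),(8,0),(4,1),(9,0),(2,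
  0),(0,0)]⟩,⟨12,[(4,10),(9,4),(0,2),(6,3),(3,12),(2,0),(2,12),(12,2)]⟩⟩,[.o ⟨false,0,⟨0,[(33,0)]⟩,
  ⟨3,[(22,1),(5,1),(13,0),(6,0)]⟩⟩,.a ⟨true,0,⟨0,[(11,0),(12,0)]⟩,⟨0,[(11,0),(9,0)]⟩⟩ ⟨true,0,⟨0,
  [(2,0)]⟩,⟨3,[(3,1),(13,0),(3,0),(5,0),(2,0),(1,1)]⟩⟩ ⟨false,0,⟨0,[(1,0)]⟩,⟨5,[(22,1),(5,1),(3,5),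
  (2,1),(6,0),(5,2)]⟩⟩,.o ⟨false,1,⟨1,[(32,1),(9,0),(5,0)]⟩,⟨1,[(1,0),(1,0),(1,0),(15,0)]⟩⟩,.e
  ⟨false,1,⟨1,[(29,0),(18,0)]⟩,⟨0,[(3,0),(28,0)]⟩⟩ ⟨false,0,⟨0,[(1,0)]⟩,⟨3,[(22,1),(5,1),(3,3),(9,
  0),(6,0)]⟩⟩]⟩) (.R ⟨0,false,false,true,[1,0,0,-1],[1,0,-1],[0,1,0,0,0,0,0,0,-1],(⟨0,[(31,0)]⟩,⟨0,
  [(32,0)]⟩),(⟨0,[(40,0)]⟩,⟨0,[(41,0)]⟩),⟨0,[(0,0)]⟩,.k,.k,(.x (-1) ⟨15,[(8,3),(0,3),(19,6),(0,6),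
  (11,1)]⟩ ⟨0,[(44,0)]⟩),.k,.k,.k,⟨false,1,⟨5,[(4,3),(11,1),(5,1),(6,0),(5,1),(12,0)]⟩,⟨0,[(6,0),
  (10,0)]⟩⟩,⟨true,0,⟨0,[(31,0),(2,0)]⟩,⟨0,[(26,0),(5,0)]⟩⟩,⟨true,0,⟨0,[(51,0)]⟩,⟨0,[]⟩⟩,⟨false,0,⟨0,
  [(3,0),(32,0)]⟩,⟨2,[(4,2),(2,0),(7,0),(6,0),(3,2),(5,2),(15,0)]⟩⟩,⟨false,0,⟨0,[]⟩,⟨0,[]⟩⟩,⟨false,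
  0,⟨0,[]⟩,⟨0,[]⟩⟩,[.o ⟨false,0,⟨0,[(33,0)]⟩,⟨3,[(22,1),(5,1),(13,0),(6,0)]⟩⟩,.a ⟨true,0,⟨0,[(11,0),
  (12,0)]⟩,⟨0,[(11,0),(9,0)]⟩⟩ ⟨true,0,⟨0,[(2,0)]⟩,⟨3,[(3,1),(13,0),(3,0),(5,0),(2,0),(1,1)]⟩⟩
  ⟨false,0,⟨0,[(1,0)]⟩,⟨5,[(22,1),(5,1),(3,5),(2,1),(6,0),(5,2)]⟩⟩,.o ⟨false,1,⟨1,[(32,1),(9,0),(5,
  0)]⟩,⟨1,[(1,0),(1,0),(1,0),(15,0)]⟩⟩,.e ⟨false,1,⟨1,[(29,0),(18,0)]⟩,⟨0,[(3,0),(28,0)]⟩⟩ ⟨false,0,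
  ⟨0,[(1,0)]⟩,⟨3,[(22,1),(5,1),(3,3),(9,0),(6,0)]⟩⟩]⟩)) (.Q [0,0,0,0,0,1,0,0,0,-1,0,1] (.p true [0,
  0,0,1] [1] (⟨0,[(31,0)]⟩,⟨0,[(30,0)]⟩) .k 1 (⟨0,[]⟩,⟨0,[]⟩) .k .k) (.R ⟨0,false,false,false,[1,0,
  0,-1],[0,1],[0,1,0,0,0,0,0,0,-1],(⟨0,[(31,0)]⟩,⟨0,[(32,0)]⟩),(⟨0,[(44,0)]⟩,⟨0,[(43,0)]⟩),⟨0,[(0,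
  0)]⟩,.k,.k,(.x (-1) ⟨15,[(8,3),(0,3),(19,6),(0,6),(11,1)]⟩ ⟨0,[(44,0)]⟩),(.x (-1) ⟨15,[(8,3),(0,
  3),(19,6),(0,6),(11,1)]⟩ ⟨0,[(44,0)]⟩),.k,.k,⟨false,1,⟨0,[(4,0),(41,0),(1,0)]⟩,⟨50,[(0,7),(0,21),
  (1,29),(2,6),(1,1),(0,1),(1,20),(0,7),(4,21),(0,6),(11,6)]⟩⟩,⟨true,0,⟨0,[(31,0)]⟩,⟨8,[(1,3),(15,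
  1),(1,1),(12,4),(1,2),(2,0),(4,1),(2,0)]⟩⟩,⟨true,0,⟨0,[(51,0)]⟩,⟨0,[]⟩⟩,⟨false,0,⟨5,[(3,3),(7,3),
  (5,0),(9,0),(2,0),(0,1),(3,0),(11,0)]⟩,⟨5,[(0,3),(0,1),(6,0),(0,0),(2,0),(2,1),(3,1),(6,0),(2,
  2)]⟩⟩,⟨false,0,⟨0,[]⟩,⟨0,[]⟩⟩,⟨false,0,⟨0,[]⟩,⟨0,[]⟩⟩,[.o ⟨false,0,⟨0,[(47,0)]⟩,⟨15,[(10,3),(8,3),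
  (9,2),(0,2),(11,5),(6,3)]⟩⟩,.e ⟨true,0,⟨0,[(2,0)]⟩,⟨6,[(1,0),(1,2),(6,0),(6,1),(9,1),(2,1),(1,
  1)]⟩⟩ ⟨true,0,⟨2,[(7,0),(9,0),(13,2),(17,0)]⟩,⟨0,[(1,0),(22,0)]⟩⟩,.o ⟨false,1,⟨1,[(32,1),(9,0),(5,
  0)]⟩,⟨3,[(3,0),(0,0),(5,0),(6,0),(13,2),(2,0),(7,0)]⟩⟩,.a ⟨true,0,⟨0,[(32,0)]⟩,⟨0,[(31,0)]⟩⟩
  ⟨false,1,⟨1,[(29,0),(18,0)]⟩,⟨0,[(3,0),(28,0)]⟩⟩ ⟨true,0,⟨0,[(31,0),(15,0)]⟩,⟨0,[(1,0),(22,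
  0)]⟩⟩]⟩) (.R ⟨1,false,false,false,[1,0,0,-1],[0,1],[0,1,0,0,0,0,0,0,-1],(⟨0,[(31,0)]⟩,⟨0,[(32,
  0)]⟩),(⟨0,[(44,0)]⟩,⟨0,[(43,0)]⟩),⟨0,[(0,0)]⟩,.k,.k,(.x (-1) ⟨15,[(8,3),(0,3),(19,6),(0,6),(11,
  1)]⟩ ⟨0,[(44,0)]⟩),(.x (-1) ⟨15,[(8,3),(0,3),(19,6),(0,6),(11,1)]⟩ ⟨0,[(44,0)]⟩),(.r (-1) ⟨3,[(4,
  3),(9,1),(0,1),(3,0),(8,0),(7,0)]⟩ ⟨1,[(17,1),(4,0),(7,0),(20,0)]⟩),.k,⟨false,1,⟨0,[(4,0),(41,0),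
  (1,0)]⟩,⟨8,[(1,3),(1,5),(2,0),(4,2),(0,1),(4,3),(0,0),(11,0),(1,1)]⟩⟩,⟨true,0,⟨0,[(31,0)]⟩,⟨8,[(1,
  3),(15,1),(1,1),(12,4),(1,2),(2,0),(4,1),(2,0)]⟩⟩,⟨true,0,⟨0,[(51,0)]⟩,⟨0,[]⟩⟩,⟨false,0,⟨5,[(3,3),
  (7,3),(5,0),(9,0),(2,0),(0,1),(3,0),(11,0)]⟩,⟨1,[(1,1),(10,0),(7,0),(3,0),(4,0)]⟩⟩,⟨false,0,⟨0,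
  [(47,0)]⟩,⟨15,[(10,3),(9,3),(6,3),(1,2),(0,2),(18,9)]⟩⟩,⟨false,0,⟨5,[(3,3),(7,3),(5,0),(9,0),(2,
  0),(0,1),(3,0),(11,6)]⟩,⟨10,[(1,10),(2,0),(7,2),(2,2),(3,7),(0,2),(8,4),(15,0)]⟩⟩,[.o ⟨false,0,⟨0,
  [(47,0)]⟩,⟨15,[(10,3),(8,3),(9,2),(0,2),(11,5),(6,3)]⟩⟩,.e ⟨true,0,⟨0,[(2,0)]⟩,⟨6,[(1,0),(1,2),(6,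
  0),(6,1),(9,1),(2,1),(1,1)]⟩⟩ ⟨true,0,⟨2,[(7,0),(9,0),(13,2),(17,0)]⟩,⟨0,[(1,0),(22,0)]⟩⟩,.o
  ⟨false,1,⟨1,[(32,1),(9,0),(5,0)]⟩,⟨3,[(3,0),(0,0),(5,0),(6,0),(13,2),(2,0),(7,0)]⟩⟩,.a ⟨true,0,⟨0,
  [(32,0)]⟩,⟨0,[(31,0)]⟩⟩ ⟨false,1,⟨1,[(29,0),(18,0)]⟩,⟨0,[(3,0),(28,0)]⟩⟩ ⟨true,0,⟨0,[(31,0),(15,
  0)]⟩,⟨0,[(1,0),(22,0)]⟩⟩]⟩))) (.N [0,0,0,1] 0 ⟨0,[(0,0)]⟩ ⟨0,[(2,0)]⟩ .k)))) (.Q [0,0,0,0,0,-1,0,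
  0,0,0,0,1] (.p true [0,0,0,1] [] (⟨0,[(27,0)]⟩,⟨0,[(26,0)]⟩) .k 0 (⟨0,[]⟩,⟨0,[]⟩) .k .k) (.R ⟨1,
  false,false,true,[0,0,0,1],[1,0,-1],[0,0,0,0,0,0,0,0,1],(⟨0,[(28,0)]⟩,⟨0,[(27,0)]⟩),(⟨0,[(36,0)]⟩,
  ⟨0,[(37,0)]⟩),⟨0,[(0,0)]⟩,.k,.k,(.x 0 ⟨3,[(4,0),(0,0),(24,0),(2,3),(0,2)]⟩ ⟨1,[(9,0),(12,0),(14,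
  0),(6,0)]⟩),.k,(.r (-1) ⟨18,[(1,4),(8,5),(1,0),(5,4),(4,1),(2,6),(4,2)]⟩ ⟨1,[(13,0),(11,0),(9,
  0)]⟩),.k,⟨true,0,⟨0,[(1,0),(1,0)]⟩,⟨3,[(13,1),(1,0),(8,0),(0,1),(6,0),(9,1)]⟩⟩,⟨false,1,⟨0,[(8,0),
  (19,0)]⟩,⟨0,[(27,0),(5,0)]⟩⟩,⟨false,1,⟨3,[(25,0),(0,0),(18,1)]⟩,⟨0,[]⟩⟩,⟨false,1,⟨5,[(8,3),(4,0),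
  (2,1),(8,2),(2,5),(0,1),(5,0)]⟩,⟨0,[(1,0),(1,0),(23,0),(5,0)]⟩⟩,⟨true,0,⟨0,[(43,0)]⟩,⟨0,[(42,
  0)]⟩⟩,⟨false,1,⟨1,[(8,1),(4,0),(11,0),(2,1),(6,0)]⟩,⟨8,[(1,4),(1,1),(2,0),(6,1),(3,7),(8,1),(0,8),
  (13,7)]⟩⟩,[.o ⟨false,0,⟨0,[(29,0)]⟩,⟨3,[(18,1),(5,1),(13,0),(6,0)]⟩⟩,.a ⟨true,0,⟨0,[(7,0),(12,
  0)]⟩,⟨0,[(7,0),(9,0)]⟩⟩ ⟨true,0,⟨14,[(1,12),(1,2),(3,3),(5,2),(12,0),(11,1),(2,3)]⟩,⟨1,[(13,0),(3,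
  0),(5,0),(1,0)]⟩⟩ ⟨false,1,⟨0,[(8,0),(19,0),(6,0)]⟩,⟨1,[(3,0),(13,0),(9,1),(5,0)]⟩⟩,.o ⟨false,0,
  ⟨0,[(22,0),(4,0),(2,0)]⟩,⟨1,[(28,1),(9,0),(5,0)]⟩⟩,.o ⟨false,0,⟨0,[(27,0),(2,0),(2,0)]⟩,⟨0,[(8,0),
  (13,0),(5,0)]⟩⟩]⟩) (.R ⟨0,false,false,true,[0,0,0,1],[1,0,-1],[0,1,1],(⟨0,[(28,0)]⟩,⟨0,[(27,0)]⟩),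
  (⟨0,[(36,0)]⟩,⟨0,[(37,0)]⟩),⟨0,[(0,0)]⟩,.k,.k,(.x 0 ⟨3,[(4,0),(0,0),(24,0),(2,3),(0,2)]⟩ ⟨1,[(9,
  0),(12,0),(14,0),(6,0)]⟩),.k,.k,.k,⟨true,0,⟨1,[(3,0),(13,0),(16,0)]⟩,⟨0,[(35,0)]⟩⟩,⟨false,1,⟨0,
  [(8,0),(19,0)]⟩,⟨0,[(27,0),(5,0)]⟩⟩,⟨true,0,⟨1,[(13,0),(3,0),(5,0),(1,0)]⟩,⟨0,[(1,0),(41,0)]⟩⟩,
  ⟨false,1,⟨5,[(8,3),(4,0),(2,1),(8,2),(2,5),(0,1),(5,0)]⟩,⟨0,[(1,0),(1,0),(23,0),(5,0)]⟩⟩,⟨false,0,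
  ⟨0,[]⟩,⟨0,[]⟩⟩,⟨false,0,⟨0,[]⟩,⟨0,[]⟩⟩,[.o ⟨false,0,⟨0,[(29,0)]⟩,⟨3,[(18,1),(5,1),(13,0),(6,0)]⟩⟩,
  .a ⟨true,0,⟨0,[(7,0),(12,0)]⟩,⟨0,[(7,0),(9,0)]⟩⟩ ⟨true,0,⟨1,[(33,0),(0,0)]⟩,⟨0,[]⟩⟩ ⟨false,1,⟨0,
  [(8,0),(19,0),(6,0)]⟩,⟨1,[(3,0),(13,0),(9,1),(5,0)]⟩⟩,.o ⟨false,0,⟨5,[(0,3),(3,0),(0,0),(21,1),(2,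
  2),(2,2)]⟩,⟨1,[(28,1),(9,0),(5,0)]⟩⟩,.o ⟨false,0,⟨0,[(27,0),(2,0),(2,0)]⟩,⟨0,[(8,0),(13,0),(5,
  0)]⟩⟩]⟩))) (.Q [0,1,1,-1,0,0,1,1,1,1,-1,-1] (.p false [0,0,1] [1,0,0,-1] (⟨0,[(35,0)]⟩,⟨0,[(34,
  0)]⟩) .k 2 (⟨0,[(25,0)]⟩,⟨0,[(26,0)]⟩) .k (.r (-1) ⟨1,[(16,0),(7,0),(20,0)]⟩ ⟨1,[(0,1),(8,1),(3,
  0),(8,0),(7,0)]⟩)) (.Q [0,1,1,0,0,0,0,0,1,0,0,-1] (.p false [0,0,0,1] [] (⟨0,[(27,0)]⟩,⟨0,[(26,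
  0)]⟩) .k 0 (⟨0,[]⟩,⟨0,[]⟩) .k .k) (.Q [0,1,-1,0,0,0,0,0,-1,0,0,1] (.p true [0,0,0,1] [] (⟨0,[(28,
  0)]⟩,⟨0,[(27,0)]⟩) .k 0 (⟨0,[]⟩,⟨0,[]⟩) .k .k) (.K ⟨0,[0,0,0,1],0,0,(⟨0,[(29,0)]⟩,⟨0,[(28,0)]⟩),
  .k,(.r (-1) ⟨7,[(11,1),(0,1),(3,0),(8,0),(1,3),(5,0)]⟩ ⟨7,[(3,3),(22,2),(0,0)]⟩),(.x 0 ⟨0,[(41,
  0)]⟩ ⟨15,[(5,3),(0,3),(19,6),(0,6),(11,1)]⟩),.k,.k,[⟨0,[(29,0)]⟩,⟨0,[(28,0)]⟩,⟨0,[(0,0)]⟩,⟨0,[(1,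
  0)]⟩]⟩) (.Q [0,0,0,1,0,0,1,1,0,1,-1,-1] (.p false [0,0,1] [1,0,0,-1] (⟨0,[(38,0)]⟩,⟨0,[(37,0)]⟩)
  .k 2 (⟨0,[(28,0)]⟩,⟨0,[(29,0)]⟩) .k (.r (-1) ⟨1,[(19,0),(7,0),(20,0)]⟩ ⟨1,[(3,1),(8,1),(3,0),(8,
  0),(7,0)]⟩)) (.R ⟨1,false,false,true,[1,0,0,-1],[0,1,1],[0,0,0,0,0,0,0,0,-1],(⟨0,[(29,0)]⟩,⟨0,
  [(30,0)]⟩),(⟨0,[(39,0),(2,0)]⟩,⟨0,[(21,0)]⟩),⟨3,[(0,3),(5,0),(0,0),(2,0),(4,0),(2,2),(6,2)]⟩,.k,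
  .k,(.x (-1) ⟨15,[(6,3),(0,3),(19,6),(0,6),(11,1)]⟩ ⟨0,[(42,0)]⟩),(.x (-1) ⟨9,[(6,6),(4,1),(4,3),
  (10,2),(0,2),(9,0),(1,1)]⟩ ⟨0,[(24,0),(14,0),(2,0)]⟩),(.r (-1) ⟨3,[(4,3),(7,1),(0,5),(3,2),(8,2),
  (7,2)]⟩ ⟨1,[(5,1),(9,0),(9,0),(2,0),(4,0),(11,0)]⟩),.k,⟨false,1,⟨1,[(4,1),(8,3),(3,0),(8,0),(7,
  0)]⟩,⟨0,[(1,0),(23,0),(4,0),(2,0),(11,1)]⟩⟩,⟨true,0,⟨0,[(24,0),(4,0)]⟩,⟨0,[(30,0),(1,0)]⟩⟩,⟨false,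
  1,⟨3,[(27,0),(0,0),(18,1)]⟩,⟨0,[]⟩⟩,⟨false,0,⟨9,[(0,3),(0,4),(1,0),(5,4),(5,1),(9,1),(2,1),(4,
  6)]⟩,⟨12,[(4,2),(5,8),(2,1),(3,3),(0,8),(8,4),(2,12),(12,2)]⟩⟩,⟨true,0,⟨0,[(45,0)]⟩,⟨0,[(44,0)]⟩⟩,
  ⟨false,0,⟨3,[(0,1),(0,1),(7,1),(5,0),(9,0),(2,0),(4,2),(11,2)]⟩,⟨12,[(4,4),(5,1),(2,11),(3,10),(0,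
  1),(8,3),(2,12),(12,4)]⟩⟩,[.o ⟨false,0,⟨0,[(33,0),(11,0)]⟩,⟨0,[(22,0),(24,0)]⟩⟩,.a ⟨true,0,⟨0,[(9,
  0),(23,0)]⟩,⟨0,[(9,0),(7,0)]⟩⟩ ⟨true,0,⟨1,[(4,1),(7,0),(0,0),(4,0)]⟩,⟨0,[(2,0),(27,0)]⟩⟩ ⟨false,0,
  ⟨0,[(0,0)]⟩,⟨3,[(14,1),(2,1),(12,3),(6,1),(2,0),(6,0)]⟩⟩,.o ⟨false,1,⟨1,[(30,1),(9,0),(5,0)]⟩,⟨13,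
  [(1,4),(0,0),(1,3),(3,1),(8,1),(9,0),(1,7),(10,2)]⟩⟩,.e ⟨false,1,⟨5,[(4,1),(8,3),(13,1),(18,0),(0,
  0)]⟩,⟨1,[(1,0),(0,0),(27,1)]⟩⟩ ⟨false,0,⟨0,[(0,0)]⟩,⟨0,[(22,0),(7,0),(16,0)]⟩⟩]⟩) (.Q [0,0,0,0,0,
  -1,0,0,0,1,0,-1] (.p false [0,0,0,1] [1] (⟨0,[(30,0)]⟩,⟨0,[(29,0)]⟩) .k 1 (⟨0,[]⟩,⟨0,[]⟩) .k .k)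
  (.R ⟨1,false,false,false,[1,0,0,-1],[0,1],[0,0,0,0,0,0,0,0,-1],(⟨0,[(30,0)]⟩,⟨0,[(31,0)]⟩),(⟨0,
  [(43,0)]⟩,⟨0,[(42,0)]⟩),⟨0,[(0,0)]⟩,.k,.k,(.x (-1) ⟨15,[(7,3),(0,3),(19,6),(0,6),(11,1)]⟩ ⟨0,[(43,
  0)]⟩),(.x (-1) ⟨15,[(7,3),(0,3),(19,6),(0,6),(11,1)]⟩ ⟨0,[(43,0)]⟩),(.r (-1) ⟨1,[(5,1),(7,1),(0,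
  1),(3,0),(8,0),(7,0)]⟩ ⟨0,[(5,0),(23,0)]⟩),.k,⟨false,1,⟨7,[(5,7),(7,5),(0,5),(3,2),(8,2),(7,2),
  (11,3)]⟩,⟨3,[(2,1),(13,0),(9,0),(2,0),(1,1),(2,0),(11,2)]⟩⟩,⟨true,0,⟨0,[(30,0)]⟩,⟨7,[(1,3),(4,2),
  (9,1),(3,2),(10,3),(4,0),(4,1)]⟩⟩,⟨false,1,⟨3,[(28,0),(0,0),(18,1)]⟩,⟨0,[]⟩⟩,⟨false,0,⟨1,[(2,0),
  (0,0),(6,1)]⟩,⟨7,[(1,3),(3,1),(5,1),(1,3),(11,5),(2,2),(2,3),(9,0)]⟩⟩,⟨true,0,⟨0,[(46,0)]⟩,⟨0,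
  [(45,0)]⟩⟩,⟨false,0,⟨1,[(2,0),(0,0),(6,1),(35,1)]⟩,⟨53,[(1,43),(3,11),(3,3),(3,39),(11,39),(2,20),
  (2,9),(9,4),(2,1)]⟩⟩,[.o ⟨false,0,⟨0,[(46,0)]⟩,⟨15,[(9,3),(8,3),(9,2),(0,2),(11,5),(6,3)]⟩⟩,.e
  ⟨true,0,⟨1,[(5,1),(7,0),(0,0),(4,0)]⟩,⟨0,[(3,0),(27,0)]⟩⟩ ⟨true,0,⟨5,[(2,0),(0,0),(1,1),(4,1),(19,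
  3),(17,1)]⟩,⟨0,[(1,0),(32,0)]⟩⟩,.o ⟨false,1,⟨1,[(31,1),(9,0),(5,0)]⟩,⟨13,[(2,4),(0,0),(1,3),(3,1),
  (8,1),(9,0),(1,7),(10,2)]⟩⟩,.a ⟨true,0,⟨0,[(31,0)]⟩,⟨0,[(30,0)]⟩⟩ ⟨false,1,⟨5,[(5,1),(8,3),(13,1),
  (18,0),(0,0)]⟩,⟨1,[(2,0),(0,0),(27,1)]⟩⟩ ⟨true,0,⟨0,[(30,0),(15,0)]⟩,⟨0,[(1,0),(32,0)]⟩⟩]⟩) (.R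
  ⟨0,false,false,false,[1,0,0,-1],[0,1],[1,0,0,0,0,0,0,0,-1],(⟨0,[(30,0)]⟩,⟨0,[(31,0)]⟩),(⟨0,[(43,
  0)]⟩,⟨0,[(42,0)]⟩),⟨0,[(0,0)]⟩,.k,.k,(.x (-1) ⟨15,[(7,3),(0,3),(19,6),(0,6),(11,1)]⟩ ⟨0,[(43,
  0)]⟩),(.x (-1) ⟨15,[(7,3),(0,3),(19,6),(0,6),(11,1)]⟩ ⟨0,[(43,0)]⟩),.k,.k,⟨false,1,⟨7,[(5,7),(7,
  5),(0,5),(3,2),(8,2),(7,2),(11,3)]⟩,⟨3,[(2,1),(13,0),(9,0),(2,0),(1,1),(2,0),(11,2)]⟩⟩,⟨true,0,⟨0,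
  [(30,0)]⟩,⟨5,[(0,3),(6,0),(0,0),(22,1),(1,2),(2,2)]⟩⟩,⟨true,0,⟨0,[]⟩,⟨0,[(50,0)]⟩⟩,⟨false,0,⟨1,
  [(2,0),(0,0),(6,1)]⟩,⟨5,[(0,3),(0,1),(5,0),(0,0),(2,0),(1,1),(11,2),(2,2)]⟩⟩,⟨false,0,⟨0,[]⟩,⟨0,
  []⟩⟩,⟨false,0,⟨0,[]⟩,⟨0,[]⟩⟩,[.o ⟨false,0,⟨0,[(46,0)]⟩,⟨15,[(9,3),(8,3),(9,2),(0,2),(11,5),(6,
  3)]⟩⟩,.e ⟨true,0,⟨1,[(5,1),(7,0),(0,0),(4,0)]⟩,⟨0,[(3,0),(27,0)]⟩⟩ ⟨true,0,⟨5,[(2,0),(0,0),(1,1),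
  (4,1),(19,3),(17,1)]⟩,⟨0,[(1,0),(32,0)]⟩⟩,.o ⟨false,1,⟨1,[(31,1),(9,0),(5,0)]⟩,⟨13,[(2,4),(0,0),
  (1,3),(3,1),(8,1),(9,0),(1,7),(10,2)]⟩⟩,.a ⟨true,0,⟨0,[(31,0)]⟩,⟨0,[(30,0)]⟩⟩ ⟨false,1,⟨5,[(5,1),
  (8,3),(13,1),(18,0),(0,0)]⟩,⟨14,[(0,3),(1,5),(1,2),(2,0),(0,0),(7,2),(9,2),(2,2),(1,4)]⟩⟩ ⟨true,0,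
  ⟨0,[(30,0),(15,0)]⟩,⟨0,[(1,0),(32,0)]⟩⟩]⟩)))) (.R ⟨1,true,false,false,[0,-1,1],[1,0,0,-1],[1,0,-1,
  -2,0,0,0,1],(⟨0,[(21,0)]⟩,⟨0,[(36,0),(3,0)]⟩),(⟨0,[(27,0)]⟩,⟨0,[(28,0)]⟩),⟨0,[(5,0)]⟩,.k,.k,(.x 0
  ⟨1,[(5,1),(27,2),(0,0)]⟩ ⟨0,[(9,0)]⟩),(.x 0 ⟨1,[(5,0),(27,2),(0,0),(2,0)]⟩ ⟨3,[(4,0),(3,0),(0,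
  2)]⟩),(.r (-2) ⟨3,[(10,3),(14,0),(0,2)]⟩ ⟨0,[(2,0),(32,0)]⟩),.k,⟨false,2,⟨3,[(10,3),(14,0),(0,
  2)]⟩,⟨0,[(0,0),(5,0),(1,0),(4,1),(13,0)]⟩⟩,⟨true,1,⟨0,[(8,0),(19,0)]⟩,⟨0,[(1,0),(0,0),(13,0)]⟩⟩,
  ⟨false,1,⟨17,[(1,3),(8,1),(4,3),(0,1),(8,2),(0,0),(1,3),(16,11)]⟩,⟨0,[(43,0)]⟩⟩,⟨true,0,⟨1,[(0,1),
  (7,0),(4,0),(15,0),(17,0)]⟩,⟨0,[(1,0)]⟩⟩,⟨true,0,⟨0,[]⟩,⟨0,[(47,0)]⟩⟩,⟨false,0,⟨0,[(0,0),(7,0),(4,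
  0)]⟩,⟨17,[(1,21),(8,1),(4,3),(0,1),(8,2),(0,0),(1,3),(16,11)]⟩⟩,[]⟩)) (.R ⟨1,false,false,false,[0,
  -1,1],[1,0,0,-1],[0,0,-1,-1,0,0,0,1],(⟨0,[(20,0)]⟩,⟨0,[(35,0),(3,0)]⟩),(⟨0,[(26,0)]⟩,⟨0,[(27,
  0)]⟩),⟨0,[(4,0)]⟩,.k,.k,(.x 0 ⟨1,[(4,1),(27,2),(0,0)]⟩ ⟨0,[(8,0)]⟩),(.r (-2) ⟨17,[(9,6),(1,1),(4,
  2),(0,3),(4,0),(1,6),(0,15)]⟩ ⟨0,[(0,0),(4,0),(6,0),(13,0)]⟩),(.r (-2) ⟨3,[(9,3),(14,0),(0,2)]⟩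
  ⟨0,[(1,0),(32,0)]⟩),.k,⟨false,2,⟨5,[(9,2),(1,0),(5,0),(6,0),(0,3),(4,0),(12,1)]⟩,⟨0,[(0,0),(4,0),
  (6,0),(13,0)]⟩⟩,⟨true,1,⟨0,[(7,0),(19,0)]⟩,⟨3,[(5,3),(6,3),(13,3),(5,0),(0,0),(6,1)]⟩⟩,⟨false,1,
  ⟨3,[(24,0),(0,0),(18,1)]⟩,⟨0,[]⟩⟩,⟨false,0,⟨0,[(0,0)]⟩,⟨15,[(5,7),(11,3),(6,0),(0,8),(0,15),(5,
  11),(0,3),(10,1)]⟩⟩,⟨true,0,⟨0,[(42,0)]⟩,⟨0,[(41,0)]⟩⟩,⟨false,0,⟨0,[(0,0),(41,0)]⟩,⟨1,[(5,1),(19,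
  0),(0,1),(5,0),(0,0),(10,0)]⟩⟩,[.o ⟨false,0,⟨0,[(0,0),(15,0)]⟩,⟨7,[(24,0),(0,4),(0,7),(2,3),(2,3),
  (4,1)]⟩⟩,.a ⟨true,0,⟨0,[(0,0),(4,0),(0,0)]⟩,⟨1,[(12,0),(3,0),(5,0),(2,0),(0,1)]⟩⟩ ⟨true,1,⟨6,[(9,
  2),(0,0),(6,1),(22,0),(3,0)]⟩,⟨0,[(12,0),(28,0)]⟩⟩ ⟨false,1,⟨2,[(0,2),(5,0),(0,0),(1,1),(20,0)]⟩,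
  ⟨3,[(12,1),(3,1),(8,1),(0,3),(5,2),(0,0),(7,1)]⟩⟩,.o ⟨false,0,⟨0,[(32,0)]⟩,⟨4,[(11,2),(1,0),(23,
  1)]⟩⟩,.o ⟨false,0,⟨1,[(32,2),(0,0)]⟩,⟨0,[(7,0)]⟩⟩]⟩)))))))

theorem ok78 : chk (cU (-1) true 10) t78 l49 = true := by decide +kernel

noncomputable def t79 : Tre :=
  (.Q [0,0,0,1,0,0,1,1,0,1,-1] (.p false [0,0,1] [1] (⟨0,[(30,0)]⟩,⟨0,[(29,0)]⟩) .k 1 (⟨0,[]⟩,⟨0,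
  []⟩) .k .k) (.Q [0,0,0,0,0,2,0,0,0,0,-1] (.p false [0,0,1] [] (⟨0,[(31,0)]⟩,⟨0,[(30,0)]⟩) .k 0
  (⟨0,[]⟩,⟨0,[]⟩) .k .k) (.R ⟨0,false,false,false,[0,-1,1],[1,-1,-1],[1],(⟨0,[(16,0)]⟩,⟨1,[(0,0),
  (21,0),(0,0),(7,0)]⟩),(⟨0,[(14,0)]⟩,⟨1,[(0,0),(31,2)]⟩),⟨0,[(0,0)]⟩,.k,.k,(.x 0 ⟨1,[(14,0),(1,2),
  (8,0),(2,2)]⟩ ⟨0,[(4,0)]⟩),.k,.k,.k,⟨true,0,⟨2,[(1,0),(6,0),(0,0),(3,0),(12,0)]⟩,⟨3,[(10,0),(0,1),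
  (7,0),(7,0)]⟩⟩,⟨false,1,⟨4,[(7,3),(1,2),(23,0)]⟩,⟨0,[(19,0)]⟩⟩,⟨false,0,⟨1,[(8,0),(21,0),(9,0)]⟩,
  ⟨35,[(5,13),(1,3),(4,5),(0,7),(4,1),(1,4),(0,4)]⟩⟩,⟨true,0,⟨0,[(3,0),(4,0),(2,0),(6,0)]⟩,⟨0,[(1,
  0),(10,0)]⟩⟩,⟨false,0,⟨0,[]⟩,⟨0,[]⟩⟩,⟨false,0,⟨0,[]⟩,⟨0,[]⟩⟩,[.a ⟨true,0,⟨3,[(7,0),(0,0),(2,2),(6,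
  2)]⟩,⟨0,[(1,0)]⟩⟩ ⟨true,0,⟨0,[]⟩,⟨1,[(28,0),(0,0)]⟩⟩ ⟨false,1,⟨3,[(3,3),(3,0),(0,0),(2,2),(6,2)]⟩,
  ⟨0,[(1,0),(26,0)]⟩⟩,.o ⟨false,1,⟨0,[(15,0),(24,0)]⟩,⟨0,[(26,0),(11,0)]⟩⟩,.o ⟨false,0,⟨0,[(28,0)]⟩,
  ⟨4,[(7,2),(1,0),(23,1)]⟩⟩,.o ⟨false,0,⟨1,[(28,2),(0,0)]⟩,⟨0,[(3,0)]⟩⟩]⟩) (.I [0,1,-1,0,0,0,0,-1]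
  (.R ⟨2,false,false,false,[0,1],[0,1,1],[0,1,1,1],(⟨0,[]⟩,⟨0,[]⟩),(⟨0,[(33,0),(2,0)]⟩,⟨0,[(15,
  0)]⟩),⟨0,[]⟩,.k,.k,.k,.k,.k,.k,⟨false,0,⟨0,[(0,0)]⟩,⟨7,[(14,3),(6,0),(0,0),(18,1)]⟩⟩,⟨true,0,⟨0,
  [(18,0)]⟩,⟨0,[(30,0)]⟩⟩,⟨true,0,⟨0,[(43,0)]⟩,⟨0,[]⟩⟩,⟨false,1,⟨3,[(14,1),(5,1),(13,0),(6,0)]⟩,⟨1,
  [(8,0),(0,0),(2,0),(6,0)]⟩⟩,⟨false,0,⟨0,[(39,0)]⟩,⟨0,[(38,0),(2,0)]⟩⟩,⟨false,1,⟨1,[(2,1),(31,0),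
  (6,0)]⟩,⟨3,[(8,0),(0,0),(2,2),(6,2)]⟩⟩,[.a ⟨true,0,⟨0,[(2,0)]⟩,⟨3,[(8,0),(0,0),(2,2),(6,2)]⟩⟩
  ⟨false,0,⟨0,[(39,0),(3,0)]⟩,⟨7,[(6,1),(0,1),(4,1),(8,0),(0,0),(18,1)]⟩⟩ ⟨true,0,⟨1,[(9,0),(4,0),
  (3,0),(8,0)]⟩,⟨3,[(8,0),(0,0),(2,2),(6,2)]⟩⟩,.o ⟨false,1,⟨1,[(2,1),(31,0),(6,0)]⟩,⟨0,[(16,0)]⟩⟩,
  .o ⟨false,1,⟨3,[(21,0),(0,0),(17,1)]⟩,⟨3,[(3,0),(5,0),(3,0),(12,0),(7,0),(2,0)]⟩⟩,.e ⟨false,0,⟨0,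
  [(39,0)]⟩,⟨0,[(38,0),(2,0)]⟩⟩ ⟨false,1,⟨1,[(2,1),(31,0),(6,0)]⟩,⟨3,[(8,0),(0,0),(2,2),(6,2)]⟩⟩]⟩)
  (.Q [0,0,0,1,0,0,-1,-1,0,-1,1] (.p true [0,0,1] [1] (⟨0,[(33,0)]⟩,⟨0,[(32,0)]⟩) .k 1 (⟨0,[]⟩,⟨0,
  []⟩) .k .k) (.Q [0,1,0,-1,0,0,2,2,0,1,-2] (.p false [0,0,1] [1,0,-1] (⟨0,[(34,0)]⟩,⟨0,[(33,0)]⟩)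
  .k 2 (⟨0,[(33,0)]⟩,⟨0,[(34,0)]⟩) .k (.r (-1) ⟨0,[(15,0),(28,0)]⟩ ⟨0,[(32,1)]⟩)) (.Q [0,0,0,0,0,0,
  1,1,0,1,-1] (.p false [0,0,1] [1] (⟨0,[(35,0)]⟩,⟨0,[(34,0)]⟩) .k 1 (⟨0,[]⟩,⟨0,[]⟩) .k .k) (.Q [0,
  -1,0,2,0,0,-1,-1,0,0,1] (.p true [0,0,1] [] (⟨0,[(36,0)]⟩,⟨0,[(35,0)]⟩) .k 0 (⟨0,[]⟩,⟨0,[]⟩) .k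
  .k) (.R ⟨1,false,false,false,[1,-1],[1,0,-1],[0,0,1],(⟨0,[(39,0)]⟩,⟨0,[(40,0)]⟩),(⟨0,[(36,0)]⟩,⟨0,
  [(37,0)]⟩),⟨1,[(5,0),(13,0),(19,0)]⟩,.k,.k,(.r (-1) ⟨3,[(10,1),(0,1),(3,0),(8,0),(7,0)]⟩ ⟨3,[(13,
  3),(4,1),(6,0),(0,0),(20,1)]⟩),.k,(.x 0 ⟨1,[(5,1),(27,2),(0,0)]⟩ ⟨0,[(9,0)]⟩),.k,⟨true,0,⟨5,[(2,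
  1),(1,0),(8,0),(0,0),(3,0),(11,0),(3,0)]⟩,⟨0,[(35,0)]⟩⟩,⟨false,1,⟨0,[(12,0)]⟩,⟨0,[(33,0)]⟩⟩,
  ⟨false,0,⟨15,[(13,7),(4,3),(14,6),(0,6),(6,1),(3,3)]⟩,⟨7,[(10,1),(0,1),(3,0),(8,0),(7,0),(11,
  3)]⟩⟩,⟨true,0,⟨1,[(0,0),(31,0)]⟩,⟨0,[(17,0)]⟩⟩,⟨false,0,⟨7,[(13,7),(4,3),(6,0),(0,0),(18,1)]⟩,⟨3,
  [(10,1),(0,1),(3,0),(8,0),(7,0)]⟩⟩,⟨false,0,⟨0,[(0,0)]⟩,⟨9,[(2,7),(12,5),(9,0),(0,0),(11,0),(6,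
  6)]⟩⟩,[.a ⟨true,0,⟨2,[(0,0),(15,0),(6,0),(8,0)]⟩,⟨0,[(1,0)]⟩⟩ ⟨true,0,⟨1,[(33,0),(0,0)]⟩,⟨0,[]⟩⟩
  ⟨false,1,⟨0,[(12,0),(22,0)]⟩,⟨4,[(2,1),(1,1),(8,0),(19,0),(4,0)]⟩⟩,.o ⟨false,1,⟨2,[(0,0),(14,0),
  (16,0),(5,0),(6,1)]⟩,⟨0,[(31,0)]⟩⟩,.o ⟨false,0,⟨8,[(4,1),(2,3),(5,1),(16,0),(2,0),(4,1),(2,0)]⟩,
  ⟨3,[(25,0),(0,0),(17,1)]⟩⟩,.o ⟨false,0,⟨0,[(30,0),(2,0)]⟩,⟨0,[(44,0)]⟩⟩]⟩) (.Q [0,1,-1,0,0,0,0,0,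
  -1,0,0,1] (.p true [0,0,0,1] [] (⟨0,[(28,0)]⟩,⟨0,[(27,0)]⟩) .k 0 (⟨0,[]⟩,⟨0,[]⟩) .k .k) (.Q [0,1,
  1,0,0,0,0,0,1,0,0,-1] (.p false [0,0,0,1] [] (⟨0,[(29,0)]⟩,⟨0,[(28,0)]⟩) .k 0 (⟨0,[]⟩,⟨0,[]⟩) .k
  .k) (.K ⟨0,[0,0,0,1],0,0,(⟨0,[(30,0)]⟩,⟨0,[(29,0)]⟩),.k,(.r (-1) ⟨7,[(12,1),(0,1),(3,0),(8,0),(1,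
  3),(5,0)]⟩ ⟨4,[(1,0),(3,0),(0,1),(8,1),(11,1),(1,0),(3,0)]⟩),(.x 0 ⟨0,[(42,0)]⟩ ⟨11,[(7,3),(13,3),
  (5,4),(0,4),(11,1)]⟩),.k,.k,[⟨0,[(30,0)]⟩,⟨0,[(29,0)]⟩,⟨0,[(1,0)]⟩,⟨0,[(0,0)]⟩]⟩) (.R ⟨1,false,
  false,false,[0,-1,1],[1,0,0,-1],[0,0,-1,-1,0,0,0,1],(⟨0,[(23,0)]⟩,⟨0,[(38,0),(3,0)]⟩),(⟨0,[(29,
  0)]⟩,⟨0,[(30,0)]⟩),⟨0,[(7,0)]⟩,.k,.k,(.x 0 ⟨1,[(7,1),(27,2),(0,0)]⟩ ⟨0,[(11,0)]⟩),(.r (-2) ⟨39,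
  [(4,3),(7,15),(1,3),(5,7),(4,3),(1,14),(0,34),(11,1)]⟩ ⟨0,[(0,0),(8,0),(5,0),(13,0)]⟩),(.r (-2)
  ⟨3,[(12,3),(14,0),(0,2)]⟩ ⟨4,[(0,2),(8,1),(5,5),(11,0),(1,2),(2,0),(0,0)]⟩),.k,⟨false,2,⟨13,[(4,
  1),(7,5),(1,3),(5,1),(6,1),(0,8),(11,0),(5,3)]⟩,⟨0,[(0,0),(8,0),(5,0),(13,0)]⟩⟩,⟨true,1,⟨0,[(10,
  0),(19,0)]⟩,⟨3,[(2,3),(12,3),(13,3),(5,0),(0,0),(6,1)]⟩⟩,⟨false,1,⟨3,[(27,0),(0,0),(18,1)]⟩,⟨0,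
  []⟩⟩,⟨false,0,⟨0,[(0,0),(4,0)]⟩,⟨15,[(2,7),(17,3),(6,0),(0,8),(0,15),(5,11),(0,3),(10,1)]⟩⟩,⟨true,
  0,⟨0,[(45,0)]⟩,⟨2,[(4,0),(12,0),(16,0)]⟩⟩,⟨false,0,⟨0,[(0,0),(9,0),(4,0)]⟩,⟨1,[(2,1),(25,0),(0,1),
  (5,0),(0,0),(10,0)]⟩⟩,[.o ⟨false,0,⟨1,[(0,1),(4,0),(3,0),(23,0)]⟩,⟨7,[(27,0),(0,4),(0,7),(2,3),(2,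
  3),(4,1)]⟩⟩,.a ⟨true,0,⟨0,[(0,0)]⟩,⟨3,[(4,0),(4,0),(5,1),(9,1),(2,1),(0,3)]⟩⟩ ⟨true,1,⟨6,[(12,2),
  (0,0),(6,1),(22,0),(3,0)]⟩,⟨2,[(4,0),(10,2),(1,0),(16,0)]⟩⟩ ⟨false,1,⟨0,[(0,0),(9,0)]⟩,⟨3,[(4,1),
  (10,1),(1,0),(10,1),(0,3),(2,0),(1,0),(0,2)]⟩⟩,.o ⟨false,0,⟨0,[(35,0)]⟩,⟨4,[(14,2),(1,0),(23,
  1)]⟩⟩,.o ⟨false,0,⟨1,[(35,2),(0,0)]⟩,⟨0,[(10,0)]⟩⟩]⟩)) (.I [0,-1,0,0,0,0,0,1,1] (.Q [0,0,0,0,0,-1,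
  0,0,0,0,0,1] (.p true [0,0,0,1] [] (⟨0,[(30,0)]⟩,⟨0,[(29,0)]⟩) .k 0 (⟨0,[]⟩,⟨0,[]⟩) .k .k) (.R ⟨1,
  false,false,true,[0,0,0,1],[1,0,-1],[0,0,0,0,0,0,0,0,1],(⟨0,[(31,0)]⟩,⟨0,[(30,0)]⟩),(⟨0,[(39,0)]⟩,
  ⟨0,[(40,0)]⟩),⟨0,[(0,0)]⟩,.k,.k,(.x 0 ⟨2,[(8,0),(13,0),(10,0),(2,2),(0,1)]⟩ ⟨1,[(12,0),(12,0),(14,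
  0),(6,0)]⟩),.k,(.r (-1) ⟨21,[(1,3),(3,2),(5,2),(1,7),(7,1),(4,2),(2,8)]⟩ ⟨1,[(16,0),(11,0),(9,
  0)]⟩),.k,⟨true,0,⟨0,[(1,0)]⟩,⟨11,[(5,1),(10,5),(1,4),(8,2),(0,5),(6,4)]⟩⟩,⟨false,1,⟨0,[(11,0),(19,
  0)]⟩,⟨0,[(30,0),(5,0)]⟩⟩,⟨false,1,⟨3,[(28,0),(0,0),(18,1)]⟩,⟨0,[]⟩⟩,⟨false,1,⟨7,[(6,2),(4,3),(6,
  0),(0,0),(8,3),(2,7),(6,2)]⟩,⟨0,[(2,0),(1,0)]⟩⟩,⟨true,0,⟨0,[(46,0)]⟩,⟨2,[(5,0),(12,0),(16,0)]⟩⟩,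
  ⟨false,1,⟨1,[(6,1),(21,0),(2,1),(15,0)]⟩,⟨47,[(1,14),(0,28),(2,28),(10,1),(2,22),(9,1),(0,18),(6,
  9),(6,4)]⟩⟩,[.o ⟨false,0,⟨0,[(32,0)]⟩,⟨3,[(21,1),(5,1),(13,0),(6,0)]⟩⟩,.a ⟨true,0,⟨1,[(15,0),(0,
  0),(2,0),(6,0)]⟩,⟨0,[(4,0)]⟩⟩ ⟨true,0,⟨0,[(1,0),(36,0)]⟩,⟨3,[(5,0),(4,0),(5,1),(9,1),(1,1)]⟩⟩
  ⟨false,1,⟨0,[(11,0),(19,0),(6,0)]⟩,⟨4,[(2,1),(2,1),(1,0),(8,0),(11,0),(1,2),(3,0)]⟩⟩,.o ⟨false,0,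
  ⟨7,[(2,1),(4,1),(2,3),(5,1),(11,0),(1,5),(10,0)]⟩,⟨1,[(31,1),(9,0),(5,0)]⟩⟩,.o ⟨false,0,⟨0,[(30,
  0),(2,0),(2,0)]⟩,⟨0,[(11,0),(13,0),(5,0)]⟩⟩]⟩) (.R ⟨0,false,false,true,[0,0,0,1],[1,0,-1],[1,0,0,
  0,0,0,0,0,1],(⟨0,[(31,0)]⟩,⟨0,[(30,0)]⟩),(⟨0,[(39,0)]⟩,⟨0,[(40,0)]⟩),⟨0,[(0,0)]⟩,.k,.k,(.x 0 ⟨2,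
  [(8,0),(13,0),(10,0),(2,2),(0,1)]⟩ ⟨1,[(12,0),(12,0),(14,0),(6,0)]⟩),.k,.k,.k,⟨true,0,⟨0,[(1,0)]⟩,
  ⟨11,[(5,1),(10,5),(1,4),(8,2),(0,5),(6,4)]⟩⟩,⟨false,1,⟨0,[(11,0),(19,0)]⟩,⟨0,[(30,0),(5,0)]⟩⟩,
  ⟨true,0,⟨0,[]⟩,⟨0,[(50,0)]⟩⟩,⟨false,1,⟨7,[(6,2),(4,3),(6,0),(0,0),(8,3),(2,7),(6,2)]⟩,⟨0,[(2,0),
  (1,0)]⟩⟩,⟨false,0,⟨0,[]⟩,⟨0,[]⟩⟩,⟨false,0,⟨0,[]⟩,⟨0,[]⟩⟩,[.o ⟨false,0,⟨0,[(32,0)]⟩,⟨3,[(21,1),(5,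
  1),(13,0),(6,0)]⟩⟩,.a ⟨true,0,⟨1,[(15,0),(0,0),(2,0),(6,0)]⟩,⟨0,[(4,0)]⟩⟩ ⟨true,0,⟨0,[(1,0),(36,
  0)]⟩,⟨3,[(5,0),(4,0),(5,1),(9,1),(1,1)]⟩⟩ ⟨false,1,⟨0,[(11,0),(19,0),(6,0)]⟩,⟨4,[(2,1),(2,1),(1,
  0),(8,0),(11,0),(1,2),(3,0)]⟩⟩,.o ⟨false,0,⟨9,[(0,2),(1,3),(2,0),(2,0),(1,2),(5,1),(5,0),(5,1),(1,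
  2),(2,1)]⟩,⟨1,[(31,1),(9,0),(5,0)]⟩⟩,.o ⟨false,0,⟨0,[(30,0),(2,0),(2,0)]⟩,⟨0,[(11,0),(13,0),(5,
  0)]⟩⟩]⟩)) (.Q [0,0,0,0,0,-1,0,0,0,1,0,-1] (.p false [0,0,0,1] [1] (⟨0,[(30,0)]⟩,⟨0,[(29,0)]⟩) .k
  1 (⟨0,[]⟩,⟨0,[]⟩) .k .k) (.R ⟨1,false,false,false,[1,0,0,-1],[0,1],[0,1,0,0,0,0,0,0,-1],(⟨0,[(30,
  0)]⟩,⟨0,[(31,0)]⟩),(⟨0,[(43,0)]⟩,⟨0,[(42,0)]⟩),⟨0,[(0,0)]⟩,.k,.k,(.x (-1) ⟨11,[(8,3),(13,3),(5,4),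
  (0,4),(11,1)]⟩ ⟨0,[(43,0)]⟩),(.x (-1) ⟨11,[(8,3),(13,3),(5,4),(0,4),(11,1)]⟩ ⟨0,[(43,0)]⟩),(.x 0
  ⟨14,[(3,1),(4,9),(7,1),(5,9),(10,5),(2,3),(4,1),(2,0)]⟩ ⟨15,[(12,7),(14,3),(0,2),(0,2),(10,7),(0,
  1),(1,15)]⟩),.k,⟨false,1,⟨2,[(1,2),(7,0),(1,0),(1,1)]⟩,⟨0,[(2,0),(28,0),(14,0)]⟩⟩,⟨true,0,⟨0,[(30,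
  0)]⟩,⟨6,[(3,0),(3,0),(2,1),(5,1),(14,6),(1,0),(7,1),(2,0)]⟩⟩,⟨true,0,⟨0,[(50,0)]⟩,⟨0,[]⟩⟩,⟨false,
  0,⟨2,[(2,2),(6,0),(2,0),(3,0),(23,0),(1,1)]⟩,⟨1,[(1,1),(3,0),(4,0),(0,1),(19,1),(12,1)]⟩⟩,⟨false,
  0,⟨0,[(46,0)]⟩,⟨15,[(3,3),(15,3),(6,3),(1,2),(0,2),(18,9)]⟩⟩,⟨false,0,⟨5,[(2,5),(6,3),(2,0),(2,2),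
  (0,3),(23,0),(1,1)]⟩,⟨3,[(1,3),(3,0),(4,2),(0,1),(1,1),(17,3),(12,3)]⟩⟩,[.o ⟨false,0,⟨0,[(46,0)]⟩,
  ⟨15,[(3,3),(14,3),(9,2),(0,2),(11,5),(6,3)]⟩⟩,.o ⟨false,1,⟨5,[(9,1),(5,1),(0,1),(11,0),(0,0),(11,
  0),(6,2)]⟩,⟨0,[(10,0)]⟩⟩,.o ⟨false,1,⟨1,[(31,1),(9,0),(5,0)]⟩,⟨7,[(2,1),(4,1),(2,3),(5,1),(11,0),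
  (1,5),(10,0)]⟩⟩,.a ⟨true,0,⟨0,[(31,0)]⟩,⟨0,[(30,0)]⟩⟩ ⟨false,1,⟨1,[(28,0),(18,0)]⟩,⟨0,[(2,0),(28,
  0)]⟩⟩ ⟨true,0,⟨0,[(30,0),(15,0)]⟩,⟨0,[(10,0),(20,0)]⟩⟩]⟩) (.R ⟨0,false,false,false,[1,0,0,-1],[0,
  1],[0,1,0,0,0,0,0,0,-1],(⟨0,[(30,0)]⟩,⟨0,[(31,0)]⟩),(⟨0,[(43,0)]⟩,⟨0,[(42,0)]⟩),⟨0,[(0,0)]⟩,.k,.k,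
  (.x (-1) ⟨11,[(8,3),(13,3),(5,4),(0,4),(11,1)]⟩ ⟨0,[(43,0)]⟩),(.x (-1) ⟨11,[(8,3),(13,3),(5,4),(0,
  4),(11,1)]⟩ ⟨0,[(43,0)]⟩),.k,.k,⟨false,1,⟨2,[(1,2),(7,0),(1,0),(1,1)]⟩,⟨0,[(2,0),(28,0),(14,0)]⟩⟩,
  ⟨true,0,⟨0,[(30,0)]⟩,⟨13,[(0,2),(2,3),(4,0),(7,3),(5,0),(8,10),(1,3),(7,3),(2,1)]⟩⟩,⟨true,0,⟨0,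
  [(50,0)]⟩,⟨0,[]⟩⟩,⟨false,0,⟨2,[(2,2),(6,0),(2,0),(3,0),(23,0),(1,1)]⟩,⟨3,[(0,2),(7,0),(1,1),(3,1),
  (7,0),(5,1),(2,0)]⟩⟩,⟨false,0,⟨0,[]⟩,⟨0,[]⟩⟩,⟨false,0,⟨0,[]⟩,⟨0,[]⟩⟩,[.o ⟨false,0,⟨0,[(46,0)]⟩,
  ⟨15,[(3,3),(14,3),(9,2),(0,2),(11,5),(6,3)]⟩⟩,.o ⟨false,1,⟨5,[(9,1),(5,1),(0,1),(11,0),(0,0),(11,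
  0),(6,2)]⟩,⟨0,[(10,0)]⟩⟩,.o ⟨false,1,⟨1,[(31,1),(9,0),(5,0)]⟩,⟨7,[(2,1),(4,1),(2,3),(5,1),(11,0),
  (1,5),(10,0)]⟩⟩,.a ⟨true,0,⟨0,[(31,0)]⟩,⟨0,[(30,0)]⟩⟩ ⟨false,1,⟨1,[(28,0),(18,0)]⟩,⟨0,[(2,0),(28,
  0)]⟩⟩ ⟨true,0,⟨0,[(30,0),(15,0)]⟩,⟨0,[(10,0),(20,0)]⟩⟩]⟩))))) (.Q [0,-1,-1,0,1,0,1,1,-1,0,-1,1]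
  (.p false [0,0,1] [0,0,0,1] (⟨0,[(36,0)]⟩,⟨0,[(35,0)]⟩) .k 2 (⟨0,[(27,0)]⟩,⟨0,[(26,0)]⟩) .k (.x
  (-1) ⟨7,[(23,3),(0,0),(0,0),(10,7),(0,1),(5,3)]⟩ ⟨0,[(29,0),(5,0)]⟩)) (.Q [0,1,-1,0,0,0,0,0,-1,0,
  0,1] (.p true [0,0,0,1] [] (⟨0,[(28,0)]⟩,⟨0,[(27,0)]⟩) .k 0 (⟨0,[]⟩,⟨0,[]⟩) .k .k) (.Q [0,1,1,0,0,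
  0,0,0,1,0,0,-1] (.p false [0,0,0,1] [] (⟨0,[(29,0)]⟩,⟨0,[(28,0)]⟩) .k 0 (⟨0,[]⟩,⟨0,[]⟩) .k .k)
  (.K ⟨0,[0,0,0,1],0,0,(⟨0,[(30,0)]⟩,⟨0,[(29,0)]⟩),.k,(.r (-1) ⟨7,[(12,1),(0,1),(3,0),(8,0),(1,3),
  (5,0)]⟩ ⟨4,[(1,0),(3,0),(0,1),(8,1),(11,1),(1,0),(3,0)]⟩),(.x 0 ⟨0,[(42,0)]⟩ ⟨11,[(7,3),(13,3),(5,
  4),(0,4),(11,1)]⟩),.k,.k,[⟨0,[(30,0)]⟩,⟨0,[(29,0)]⟩,⟨0,[(1,0)]⟩,⟨0,[(0,0)]⟩]⟩) (.R ⟨1,false,false,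
  false,[0,-1,1],[1,0,0,-1],[0,0,-1,-1,0,0,0,1],(⟨0,[(23,0)]⟩,⟨0,[(38,0),(3,0)]⟩),(⟨0,[(29,0)]⟩,⟨0,
  [(30,0)]⟩),⟨0,[(7,0)]⟩,.k,.k,(.x 0 ⟨1,[(7,1),(27,2),(0,0)]⟩ ⟨0,[(11,0)]⟩),(.r (-2) ⟨39,[(4,3),(7,
  15),(1,3),(5,7),(4,3),(1,14),(0,34),(11,1)]⟩ ⟨0,[(0,0),(8,0),(5,0),(13,0)]⟩),(.r (-2) ⟨3,[(12,3),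
  (14,0),(0,2)]⟩ ⟨4,[(0,2),(8,1),(5,5),(11,0),(1,2),(2,0),(0,0)]⟩),.k,⟨false,2,⟨13,[(4,1),(7,5),(1,
  3),(5,1),(6,1),(0,8),(11,0),(5,3)]⟩,⟨0,[(0,0),(8,0),(5,0),(13,0)]⟩⟩,⟨true,1,⟨0,[(10,0),(19,0)]⟩,
  ⟨13,[(4,10),(4,0),(5,13),(1,7),(11,13),(2,1),(2,1),(7,9)]⟩⟩,⟨false,1,⟨3,[(27,0),(0,0),(18,1)]⟩,⟨0,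
  []⟩⟩,⟨false,0,⟨0,[(0,0),(4,0)]⟩,⟨5,[(4,1),(12,1),(2,1),(7,2),(0,5),(5,4),(0,0),(10,0)]⟩⟩,⟨true,0,
  ⟨0,[(45,0)]⟩,⟨2,[(4,0),(12,0),(16,0)]⟩⟩,⟨false,0,⟨0,[(0,0),(9,0),(4,0)]⟩,⟨23,[(4,15),(12,15),(2,
  3),(7,11),(0,23),(5,12),(0,4),(6,5),(3,7)]⟩⟩,[.o ⟨false,0,⟨1,[(0,1),(4,0),(3,0),(23,0)]⟩,⟨7,[(27,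
  0),(0,4),(0,7),(2,3),(2,3),(4,1)]⟩⟩,.a ⟨true,0,⟨0,[(0,0)]⟩,⟨3,[(4,0),(4,0),(5,1),(9,1),(2,1),(0,
  3)]⟩⟩ ⟨true,1,⟨6,[(12,2),(0,0),(6,1),(22,0),(3,0)]⟩,⟨2,[(4,0),(10,2),(1,0),(16,0)]⟩⟩ ⟨false,1,⟨0,
  [(0,0),(9,0)]⟩,⟨3,[(4,1),(10,1),(1,0),(10,1),(0,3),(2,0),(1,0),(0,2)]⟩⟩,.o ⟨false,0,⟨0,[(35,0)]⟩,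
  ⟨4,[(14,2),(1,0),(23,1)]⟩⟩,.o ⟨false,0,⟨1,[(35,2),(0,0)]⟩,⟨0,[(10,0)]⟩⟩]⟩)) (.I [1,0,1,0,0,0,0,0,
  -1] (.I [1,-1,1,1,0,0,0,1,1] (.Q [0,0,0,0,0,-1,0,0,0,1,0,-1] (.p false [0,0,0,1] [1] (⟨0,[(31,
  0)]⟩,⟨0,[(30,0)]⟩) .k 1 (⟨0,[]⟩,⟨0,[]⟩) .k .k) (.I [1,0,0,-1,0,0,0,0,1] (.R ⟨1,false,false,true,
  [1,0,0,-1],[1,-1],[0,1,0,0,0,0,0,0,-1],(⟨0,[(32,0)]⟩,⟨0,[(33,0)]⟩),(⟨0,[(44,0)]⟩,⟨0,[(45,0)]⟩),⟨0,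
  [(1,0)]⟩,.k,.k,(.x (-1) ⟨11,[(10,3),(13,3),(5,4),(0,4),(11,1)]⟩ ⟨0,[(45,0)]⟩),(.r 0 ⟨0,[(3,0),(44,
  0)]⟩ ⟨7,[(15,1),(0,1),(3,0),(8,0),(1,3),(5,0)]⟩),.k,.k,⟨true,0,⟨0,[(3,0),(44,0)]⟩,⟨0,[(0,0)]⟩⟩,
  ⟨false,0,⟨4,[(3,0),(0,0),(4,0),(2,1),(5,0),(13,3),(10,0)]⟩,⟨0,[(33,0),(15,0)]⟩⟩,⟨true,0,⟨0,[(52,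
  0)]⟩,⟨0,[]⟩⟩,⟨false,0,⟨2,[(4,2),(2,0),(12,0),(16,0)]⟩,⟨4,[(3,0),(1,3),(11,3),(0,2),(2,0),(11,
  0)]⟩⟩,⟨false,0,⟨0,[(48,0)]⟩,⟨19,[(7,3),(12,3),(0,3),(6,3),(1,2),(0,2),(18,13)]⟩⟩,⟨false,0,⟨0,[(4,
  0),(47,0)]⟩,⟨4,[(3,1),(1,2),(11,2),(0,0),(2,1),(11,1)]⟩⟩,[.o ⟨false,0,⟨0,[(12,0)]⟩,⟨5,[(11,1),(5,
  1),(0,1),(11,0),(0,0),(11,0),(6,2)]⟩⟩,.o ⟨false,1,⟨19,[(7,3),(12,7),(9,2),(0,2),(11,7),(6,5)]⟩,⟨0,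
  [(48,0)]⟩⟩,.o ⟨false,1,⟨1,[(33,1),(9,0),(5,0)]⟩,⟨4,[(3,0),(0,0),(4,0),(2,1),(5,0),(13,3),(10,
  0)]⟩⟩,.a ⟨true,0,⟨0,[(33,0)]⟩,⟨0,[(32,0)]⟩⟩ ⟨false,1,⟨1,[(30,0),(18,0)]⟩,⟨23,[(0,11),(1,3),(15,3),
  (12,3),(6,0),(0,0),(6,9)]⟩⟩ ⟨true,0,⟨0,[(12,0),(19,0)]⟩,⟨0,[(33,0),(14,0)]⟩⟩]⟩) (.R ⟨1,false,
  false,false,[1,0,0,-1],[0,1],[0,0,0,0,0,0,0,0,-1],(⟨0,[(32,0)]⟩,⟨0,[(33,0)]⟩),(⟨0,[(45,0)]⟩,⟨0,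
  [(44,0)]⟩),⟨0,[(1,0)]⟩,.k,.k,(.x (-1) ⟨11,[(10,3),(13,3),(5,4),(0,4),(11,1)]⟩ ⟨0,[(45,0)]⟩),(.x
  (-1) ⟨11,[(10,3),(13,3),(5,4),(0,4),(11,1)]⟩ ⟨0,[(45,0)]⟩),(.r (-1) ⟨3,[(0,3),(14,3),(4,0),(0,1),
  (7,0),(7,0)]⟩ ⟨1,[(18,1),(4,0),(7,0),(20,0)]⟩),.k,⟨false,1,⟨3,[(0,3),(14,1),(0,1),(3,0),(8,0),(7,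
  0)]⟩,⟨2,[(2,0),(15,0),(12,0),(20,0)]⟩⟩,⟨true,0,⟨0,[(32,0)]⟩,⟨8,[(9,1),(2,3),(5,1),(14,8),(1,0),(2,
  0),(4,1),(2,0)]⟩⟩,⟨false,1,⟨3,[(30,0),(0,0),(18,1)]⟩,⟨0,[]⟩⟩,⟨false,0,⟨4,[(2,2),(13,0),(1,1),(2,
  0),(9,0),(0,4)]⟩,⟨0,[(5,0),(19,0)]⟩⟩,⟨true,0,⟨0,[(48,0)]⟩,⟨2,[(7,0),(12,0),(16,0)]⟩⟩,⟨false,0,⟨7,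
  [(2,5),(13,1),(1,5),(12,0),(0,7),(16,2)]⟩,⟨0,[(5,0),(14,0)]⟩⟩,[.o ⟨false,0,⟨0,[(48,0)]⟩,⟨19,[(7,
  3),(12,7),(9,2),(0,2),(11,7),(6,5)]⟩⟩,.o ⟨false,1,⟨5,[(11,1),(5,1),(0,1),(11,0),(0,0),(11,0),(6,
  2)]⟩,⟨0,[(12,0)]⟩⟩,.o ⟨false,1,⟨1,[(33,1),(9,0),(5,0)]⟩,⟨9,[(0,0),(2,2),(0,3),(7,2),(5,0),(13,5),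
  (2,0),(0,0),(6,0)]⟩⟩,.a ⟨true,0,⟨0,[(33,0)]⟩,⟨0,[(32,0)]⟩⟩ ⟨false,1,⟨3,[(0,1),(15,1),(13,0),(19,
  0)]⟩,⟨30,[(2,10),(4,5),(10,9),(1,5),(0,6),(6,5),(2,9)]⟩⟩ ⟨true,0,⟨0,[(32,0),(15,0)]⟩,⟨0,[(12,0),
  (20,0)]⟩⟩]⟩)) (.I [1,1,0,0,0,0,0,0,-1] (.R ⟨0,false,false,false,[1,0,0,-1],[0,1],[1,0,0,0,0,0,0,0,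
  -1],(⟨0,[(32,0)]⟩,⟨0,[(33,0)]⟩),(⟨0,[(45,0)]⟩,⟨0,[(44,0)]⟩),⟨0,[(1,0)]⟩,.k,.k,(.x (-1) ⟨11,[(10,
  3),(13,3),(5,4),(0,4),(11,1)]⟩ ⟨0,[(45,0)]⟩),(.x (-1) ⟨11,[(10,3),(13,3),(5,4),(0,4),(11,1)]⟩ ⟨0,
  [(45,0)]⟩),.k,.k,⟨false,1,⟨0,[(0,0),(15,0)]⟩,⟨2,[(2,0),(15,0),(12,0),(20,0)]⟩⟩,⟨true,0,⟨0,[(32,
  0)]⟩,⟨8,[(9,1),(2,3),(5,1),(14,8),(1,0),(2,0),(4,1),(2,0)]⟩⟩,⟨true,0,⟨0,[]⟩,⟨0,[(52,0)]⟩⟩,⟨false,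
  0,⟨4,[(2,2),(13,0),(1,1),(2,0),(9,0),(0,4)]⟩,⟨0,[(5,0),(19,0)]⟩⟩,⟨false,0,⟨0,[]⟩,⟨0,[]⟩⟩,⟨false,0,
  ⟨0,[]⟩,⟨0,[]⟩⟩,[.o ⟨false,0,⟨0,[(48,0)]⟩,⟨19,[(7,3),(12,7),(9,2),(0,2),(11,7),(6,5)]⟩⟩,.o ⟨false,
  1,⟨5,[(11,1),(5,1),(0,1),(11,0),(0,0),(11,0),(6,2)]⟩,⟨0,[(12,0)]⟩⟩,.o ⟨false,1,⟨1,[(33,1),(9,0),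
  (5,0)]⟩,⟨0,[(0,0),(3,0)]⟩⟩,.a ⟨true,0,⟨0,[(33,0)]⟩,⟨0,[(32,0)]⟩⟩ ⟨false,1,⟨4,[(0,0),(4,1),(2,1),
  (7,1),(13,0),(1,1),(13,0)]⟩,⟨30,[(2,10),(4,5),(10,9),(1,5),(0,6),(6,5),(2,9)]⟩⟩ ⟨true,0,⟨0,[(32,
  0),(15,0)]⟩,⟨0,[(12,0),(20,0)]⟩⟩]⟩) (.R ⟨0,false,false,true,[1,0,0,-1],[1,-1],[0,1,0,0,0,0,0,0,
  -1],(⟨0,[(32,0)]⟩,⟨0,[(33,0)]⟩),(⟨0,[(44,0)]⟩,⟨0,[(45,0)]⟩),⟨0,[(1,0)]⟩,.k,.k,(.x (-1) ⟨11,[(10,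
  3),(13,3),(5,4),(0,4),(11,1)]⟩ ⟨0,[(45,0)]⟩),(.r 0 ⟨0,[(3,0),(44,0)]⟩ ⟨7,[(15,1),(0,1),(3,0),(8,
  0),(1,3),(5,0)]⟩),.k,.k,⟨true,0,⟨0,[(3,0),(44,0)]⟩,⟨2,[(0,2),(6,0),(12,0),(16,0)]⟩⟩,⟨false,0,⟨4,
  [(3,0),(0,0),(4,0),(2,1),(5,0),(13,3),(10,0)]⟩,⟨0,[(33,0),(15,0)]⟩⟩,⟨true,0,⟨0,[(52,0)]⟩,⟨0,[]⟩⟩,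
  ⟨false,0,⟨2,[(4,2),(2,0),(12,0),(16,0)]⟩,⟨4,[(3,0),(1,3),(11,3),(0,2),(2,0),(11,0)]⟩⟩,⟨false,0,⟨0,
  []⟩,⟨0,[]⟩⟩,⟨false,0,⟨0,[]⟩,⟨0,[]⟩⟩,[.o ⟨false,0,⟨0,[(12,0)]⟩,⟨5,[(11,1),(5,1),(0,1),(11,0),(0,0),
  (11,0),(6,2)]⟩⟩,.o ⟨false,1,⟨19,[(7,3),(12,7),(9,2),(0,2),(11,7),(6,5)]⟩,⟨0,[(48,0)]⟩⟩,.o ⟨false,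
  1,⟨1,[(33,1),(9,0),(5,0)]⟩,⟨4,[(3,0),(0,0),(4,0),(2,1),(5,0),(13,3),(10,0)]⟩⟩,.a ⟨true,0,⟨0,[(33,
  0)]⟩,⟨0,[(32,0)]⟩⟩ ⟨false,1,⟨1,[(30,0),(18,0)]⟩,⟨18,[(0,9),(1,0),(4,2),(10,3),(1,2),(10,3),(7,2),
  (6,6)]⟩⟩ ⟨true,0,⟨0,[(12,0),(19,0)]⟩,⟨0,[(33,0),(14,0)]⟩⟩]⟩))) (.Q [0,0,0,0,0,-1,0,0,0,1,0,-1]
  (.p false [0,0,0,1] [1] (⟨0,[(31,0)]⟩,⟨0,[(30,0)]⟩) .k 1 (⟨0,[]⟩,⟨0,[]⟩) .k .k) (.R ⟨1,false,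
  false,false,[1,0,0,-1],[0,1],[0,0,0,0,0,0,0,0,-1],(⟨0,[(31,0)]⟩,⟨0,[(32,0)]⟩),(⟨0,[(44,0)]⟩,⟨0,
  [(43,0)]⟩),⟨0,[(0,0)]⟩,.k,.k,(.x (-1) ⟨11,[(9,3),(13,3),(5,4),(0,4),(11,1)]⟩ ⟨0,[(44,0)]⟩),(.x
  (-1) ⟨11,[(9,3),(13,3),(5,4),(0,4),(11,1)]⟩ ⟨0,[(44,0)]⟩),(.r (-1) ⟨4,[(1,2),(12,2),(0,0),(13,0),
  (15,0)]⟩ ⟨1,[(17,1),(4,0),(7,0),(20,0)]⟩),.k,⟨false,1,⟨14,[(1,7),(2,4),(7,4),(1,2),(0,0),(13,0),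
  (1,4),(13,0)]⟩,⟨3,[(3,1),(13,0),(9,0),(2,0),(1,1),(2,0),(11,2)]⟩⟩,⟨true,0,⟨0,[(31,0)]⟩,⟨8,[(8,1),
  (2,3),(5,1),(14,8),(1,0),(2,0),(4,1),(2,0)]⟩⟩,⟨false,1,⟨3,[(29,0),(0,0),(18,1)]⟩,⟨0,[]⟩⟩,⟨false,0,
  ⟨2,[(3,2),(6,0),(2,0),(3,0),(23,0),(1,1)]⟩,⟨0,[(4,0),(19,0)]⟩⟩,⟨true,0,⟨0,[(47,0)]⟩,⟨2,[(6,0),(12,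
  0),(16,0)]⟩⟩,⟨false,0,⟨5,[(3,5),(6,3),(2,0),(2,2),(0,3),(23,0),(1,1)]⟩,⟨0,[(4,0),(14,0)]⟩⟩,[.o
  ⟨false,0,⟨0,[(47,0)]⟩,⟨19,[(6,3),(12,7),(9,2),(0,2),(11,7),(6,5)]⟩⟩,.o ⟨false,1,⟨5,[(10,1),(5,1),
  (0,1),(11,0),(0,0),(11,0),(6,2)]⟩,⟨0,[(11,0)]⟩⟩,.o ⟨false,1,⟨1,[(32,1),(9,0),(5,0)]⟩,⟨4,[(2,0),(0,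
  0),(4,0),(2,1),(5,0),(13,3),(10,0)]⟩⟩,.a ⟨true,0,⟨0,[(32,0)]⟩,⟨0,[(31,0)]⟩⟩ ⟨false,1,⟨8,[(1,0),(2,
  3),(2,2),(4,0),(2,1),(13,1),(1,3),(13,1)]⟩,⟨7,[(3,3),(2,0),(4,0),(5,1),(9,1),(2,1),(1,3)]⟩⟩ ⟨true,
  0,⟨0,[(31,0),(15,0)]⟩,⟨0,[(11,0),(20,0)]⟩⟩]⟩) (.R ⟨0,false,false,false,[1,0,0,-1],[0,1],[1,0,0,0,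
  0,0,0,0,-1],(⟨0,[(31,0)]⟩,⟨0,[(32,0)]⟩),(⟨0,[(44,0)]⟩,⟨0,[(43,0)]⟩),⟨0,[(0,0)]⟩,.k,.k,(.x (-1)
  ⟨11,[(9,3),(13,3),(5,4),(0,4),(11,1)]⟩ ⟨0,[(44,0)]⟩),(.x (-1) ⟨11,[(9,3),(13,3),(5,4),(0,4),(11,
  1)]⟩ ⟨0,[(44,0)]⟩),.k,.k,⟨false,1,⟨14,[(1,7),(2,4),(7,4),(1,2),(0,0),(13,0),(1,4),(13,0)]⟩,⟨15,
  [(0,5),(2,5),(5,1),(0,3),(6,4),(5,1),(3,4),(2,4),(4,0),(11,6)]⟩⟩,⟨true,0,⟨0,[(31,0)]⟩,⟨8,[(8,1),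
  (2,3),(5,1),(14,8),(1,0),(2,0),(4,1),(2,0)]⟩⟩,⟨true,0,⟨0,[]⟩,⟨0,[(51,0)]⟩⟩,⟨false,0,⟨2,[(3,2),(6,
  0),(2,0),(3,0),(23,0),(1,1)]⟩,⟨0,[(4,0),(19,0)]⟩⟩,⟨false,0,⟨0,[]⟩,⟨0,[]⟩⟩,⟨false,0,⟨0,[]⟩,⟨0,[]⟩⟩,
  [.o ⟨false,0,⟨0,[(47,0)]⟩,⟨19,[(6,3),(12,7),(9,2),(0,2),(11,7),(6,5)]⟩⟩,.o ⟨false,1,⟨5,[(10,1),(5,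
  1),(0,1),(11,0),(0,0),(11,0),(6,2)]⟩,⟨0,[(11,0)]⟩⟩,.o ⟨false,1,⟨1,[(32,1),(9,0),(5,0)]⟩,⟨4,[(2,0),
  (0,0),(4,0),(2,1),(5,0),(13,3),(10,0)]⟩⟩,.a ⟨true,0,⟨0,[(32,0)]⟩,⟨0,[(31,0)]⟩⟩ ⟨false,1,⟨8,[(1,0),
  (2,3),(2,2),(4,0),(2,1),(13,1),(1,3),(13,1)]⟩,⟨7,[(3,3),(2,0),(4,0),(5,1),(9,1),(2,1),(1,3)]⟩⟩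
  ⟨true,0,⟨0,[(31,0),(15,0)]⟩,⟨0,[(11,0),(20,0)]⟩⟩]⟩))) (.Q [0,0,0,0,0,1,0,0,0,-1,0,1] (.p true [0,
  0,0,1] [1] (⟨0,[(30,0)]⟩,⟨0,[(29,0)]⟩) .k 1 (⟨0,[]⟩,⟨0,[]⟩) .k .k) (.R ⟨0,false,false,false,[1,0,
  0,-1],[1,0,-1],[0,1,0,0,0,0,0,0,-1],(⟨0,[(30,0)]⟩,⟨0,[(31,0)]⟩),(⟨0,[(39,0)]⟩,⟨0,[(40,0)]⟩),⟨0,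
  [(0,0)]⟩,.k,.k,(.x (-1) ⟨11,[(8,3),(13,3),(5,4),(0,4),(11,1)]⟩ ⟨0,[(43,0)]⟩),.k,.k,.k,⟨false,1,⟨1,
  [(9,0),(1,0),(14,0),(1,0),(5,0)]⟩,⟨5,[(1,3),(14,1),(2,3),(9,0),(18,0)]⟩⟩,⟨true,0,⟨0,[(30,0),(2,
  0)]⟩,⟨0,[(25,0),(5,0)]⟩⟩,⟨true,0,⟨0,[(50,0)]⟩,⟨0,[]⟩⟩,⟨false,0,⟨5,[(1,0),(0,4),(12,0),(0,0),(0,0),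
  (1,1),(10,0),(4,2),(8,0)]⟩,⟨0,[(3,0),(46,0)]⟩⟩,⟨false,0,⟨0,[]⟩,⟨0,[]⟩⟩,⟨false,0,⟨0,[]⟩,⟨0,[]⟩⟩,
  [.o ⟨false,0,⟨0,[(4,0)]⟩,⟨19,[(5,3),(3,3),(11,3),(5,3),(0,4),(0,4),(11,5)]⟩⟩,.o ⟨false,1,⟨5,[(6,
  1),(16,1),(11,1),(5,0),(6,4)]⟩,⟨0,[(34,0)]⟩⟩,.o ⟨false,1,⟨1,[(31,1),(9,0),(5,0)]⟩,⟨7,[(2,1),(4,1),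
  (2,3),(5,1),(11,0),(1,5),(10,0)]⟩⟩,.a ⟨true,0,⟨0,[(31,0)]⟩,⟨0,[(30,0)]⟩⟩ ⟨false,1,⟨1,[(28,0),(18,
  0)]⟩,⟨0,[(2,0),(28,0)]⟩⟩ ⟨true,0,⟨0,[(4,0),(25,0)]⟩,⟨0,[(31,0),(2,0)]⟩⟩]⟩) (.R ⟨1,false,false,
  false,[1,0,0,-1],[1,0,-1],[0,1,0,0,0,0,0,0,-1],(⟨0,[(30,0)]⟩,⟨0,[(31,0)]⟩),(⟨0,[(39,0)]⟩,⟨0,[(40,
  0)]⟩),⟨0,[(0,0)]⟩,.k,.k,(.x (-1) ⟨11,[(8,3),(13,3),(5,4),(0,4),(11,1)]⟩ ⟨0,[(43,0)]⟩),.k,(.x 0 ⟨1,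
  [(8,0),(16,1),(14,0)]⟩ ⟨3,[(12,1),(15,0),(0,0),(3,1),(2,0),(0,0),(1,1)]⟩),.k,⟨false,1,⟨1,[(9,0),
  (1,0),(14,0),(1,0),(5,0)]⟩,⟨5,[(1,3),(14,1),(2,3),(9,0),(18,0)]⟩⟩,⟨true,0,⟨0,[(30,0),(2,0)]⟩,⟨0,
  [(25,0),(5,0)]⟩⟩,⟨true,0,⟨0,[(50,0)]⟩,⟨0,[]⟩⟩,⟨false,0,⟨5,[(1,0),(0,4),(12,0),(0,0),(0,0),(1,1),
  (10,0),(4,2),(8,0)]⟩,⟨0,[(3,0),(46,0)]⟩⟩,⟨false,0,⟨0,[(46,0)]⟩,⟨19,[(5,3),(12,3),(0,3),(6,3),(1,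
  2),(0,2),(18,13)]⟩⟩,⟨false,0,⟨11,[(1,0),(0,10),(12,6),(0,6),(0,0),(1,1),(10,0),(4,2),(8,0)]⟩,⟨2,
  [(3,2),(1,0),(12,0),(16,0)]⟩⟩,[.o ⟨false,0,⟨0,[(4,0)]⟩,⟨19,[(5,3),(3,3),(11,3),(5,3),(0,4),(0,4),
  (11,5)]⟩⟩,.o ⟨false,1,⟨5,[(6,1),(16,1),(11,1),(5,0),(6,4)]⟩,⟨0,[(34,0)]⟩⟩,.o ⟨false,1,⟨1,[(31,1),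
  (9,0),(5,0)]⟩,⟨7,[(2,1),(4,1),(2,3),(5,1),(11,0),(1,5),(10,0)]⟩⟩,.a ⟨true,0,⟨0,[(31,0)]⟩,⟨0,[(30,
  0)]⟩⟩ ⟨false,1,⟨1,[(28,0),(18,0)]⟩,⟨0,[(2,0),(28,0)]⟩⟩ ⟨true,0,⟨0,[(4,0),(25,0)]⟩,⟨0,[(31,0),(2,
  0)]⟩⟩]⟩)))) (.Q [0,0,-1,-2,1,0,1,1,-1,0,-1,1] (.p false [0,0,1] [0,0,0,1] (⟨0,[(37,0)]⟩,⟨0,[(36,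
  0)]⟩) .k 2 (⟨0,[(28,0)]⟩,⟨0,[(27,0)]⟩) .k (.r (-1) ⟨1,[(18,0),(6,0),(21,0)]⟩ ⟨7,[(0,3),(2,1),(7,
  2),(1,0),(2,0),(5,1),(1,1),(1,1),(1,3)]⟩)) (.Q [0,1,1,0,-1,0,0,0,1,1,0,-1] (.p false [0,0,0,1]
  [1] (⟨0,[(29,0)]⟩,⟨0,[(28,0)]⟩) .k 1 (⟨0,[]⟩,⟨0,[]⟩) .k .k) (.Q [0,-1,-3,0,2,0,-1,0,-1,-1,1,1]
  (.p true [0,0,1] [1,0,0,-1] (⟨0,[(39,0)]⟩,⟨0,[(38,0)]⟩) .k 2 (⟨0,[(29,0)]⟩,⟨0,[(30,0)]⟩) .k (.r 0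
  ⟨0,[(0,0),(5,0),(3,0),(13,0),(5,0)]⟩ ⟨3,[(27,2),(0,0),(8,3)]⟩)) (.Q [0,-1,-1,0,1,0,0,0,-1,0,0,1]
  (.p true [0,0,0,1] [] (⟨0,[(31,0)]⟩,⟨0,[(30,0)]⟩) .k 0 (⟨0,[]⟩,⟨0,[]⟩) .k .k) (.R ⟨1,false,false,
  false,[0,-1,1],[1,0,0,-1],[0,0,-1,-1,0,0,0,1],(⟨0,[(25,0)]⟩,⟨0,[(40,0),(3,0)]⟩),(⟨0,[(31,0)]⟩,⟨0,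
  [(32,0)]⟩),⟨0,[(9,0)]⟩,.k,.k,(.x 0 ⟨1,[(9,1),(27,2),(0,0)]⟩ ⟨0,[(13,0)]⟩),(.r (-1) ⟨6,[(2,0),(3,
  0),(1,1),(3,1),(1,2),(15,2),(1,0)]⟩ ⟨1,[(17,0),(11,0),(9,0)]⟩),(.r (-1) ⟨13,[(2,6),(1,2),(1,1),(5,
  8),(1,12),(11,7),(3,1),(1,9),(12,5)]⟩ ⟨3,[(17,3),(11,2),(0,0)]⟩),.k,⟨false,1,⟨6,[(2,4),(3,2),(5,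
  7),(1,0),(0,1),(10,1),(3,0),(1,4),(12,2)]⟩,⟨1,[(17,0),(11,0),(9,0)]⟩⟩,⟨true,1,⟨0,[(12,0),(19,0)]⟩,
  ⟨3,[(2,0),(1,2),(1,2),(10,1),(2,0),(8,1),(7,0),(7,2)]⟩⟩,⟨false,1,⟨3,[(29,0),(0,0),(18,1)]⟩,⟨0,
  []⟩⟩,⟨false,1,⟨1,[(0,0),(0,0),(3,0),(11,0)]⟩,⟨41,[(2,41),(3,23),(7,1),(4,5),(0,1),(21,8),(2,3),(3,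
  30)]⟩⟩,⟨true,0,⟨0,[(47,0)]⟩,⟨2,[(6,0),(12,0),(16,0)]⟩⟩,⟨false,1,⟨0,[(1,0),(15,0)]⟩,⟨6,[(2,6),(3,
  4),(7,0),(4,2),(0,0),(21,0),(2,1),(3,4)]⟩⟩,[.o ⟨false,1,⟨4,[(1,2),(1,1),(7,1),(5,2),(17,0)]⟩,⟨1,
  [(2,1),(39,0),(6,0)]⟩⟩,.a ⟨true,1,⟨0,[(0,0)]⟩,⟨0,[(2,0)]⟩⟩ ⟨true,1,⟨6,[(14,2),(0,0),(6,1),(22,0),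
  (3,0)]⟩,⟨2,[(6,0),(10,2),(1,0),(16,0)]⟩⟩ ⟨false,2,⟨0,[(1,0)]⟩,⟨0,[(2,0),(34,0)]⟩⟩,.o ⟨false,0,⟨0,
  [(37,0)]⟩,⟨4,[(16,2),(1,0),(23,1)]⟩⟩,.o ⟨false,0,⟨1,[(37,2),(0,0)]⟩,⟨0,[(12,0)]⟩⟩]⟩) (.K ⟨0,[0,0,
  0,1],0,(-1),(⟨0,[(32,0)]⟩,⟨0,[(31,0)]⟩),.k,(.r 0 ⟨0,[(0,0),(14,0),(16,0)]⟩ ⟨7,[(17,3),(4,1),(6,6),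
  (0,2),(20,1)]⟩),(.x 0 ⟨0,[(44,0)]⟩ ⟨11,[(9,3),(13,3),(5,4),(0,4),(11,1)]⟩),.k,.k,[⟨0,[(32,0)]⟩,⟨0,
  [(31,0)]⟩,⟨11,[(1,3),(4,0),(3,0),(17,1),(0,3),(2,7),(3,2),(14,11)]⟩,⟨0,[(0,0)]⟩]⟩)) (.K ⟨0,[0,0,0,
  1],0,(-1),(⟨0,[(31,0)]⟩,⟨0,[(30,0)]⟩),.k,(.r 0 ⟨0,[(0,0),(10,0),(2,0),(16,0)]⟩ ⟨7,[(16,3),(4,1),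
  (6,6),(0,2),(20,1)]⟩),(.x 0 ⟨0,[(43,0)]⟩ ⟨11,[(8,3),(13,3),(5,4),(0,4),(11,1)]⟩),.k,.k,[⟨0,[(31,
  0)]⟩,⟨0,[(30,0)]⟩,⟨1,[(28,0),(2,1),(15,0),(2,1)]⟩,⟨0,[(0,0),(10,0)]⟩]⟩)) (.Q [0,0,0,0,0,-1,0,0,0,
  1,0,-1] (.p false [0,0,0,1] [1] (⟨0,[(30,0)]⟩,⟨0,[(29,0)]⟩) .k 1 (⟨0,[]⟩,⟨0,[]⟩) .k .k) (.R ⟨1,
  false,false,true,[1,0,0,-1],[0,-1,1],[0,1,0,0,0,0,0,0,-1],(⟨0,[(30,0)]⟩,⟨0,[(31,0)]⟩),(⟨0,[(24,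
  0)]⟩,⟨0,[(39,0),(3,0)]⟩),⟨0,[(0,0)]⟩,.k,.k,(.x (-1) ⟨11,[(8,3),(13,3),(5,4),(0,4),(11,1)]⟩ ⟨0,
  [(43,0)]⟩),(.r 0 ⟨1,[(16,0),(11,0),(9,0)]⟩ ⟨20,[(3,2),(1,2),(1,5),(1,1),(1,4),(1,9),(15,8),(1,
  2)]⟩),.k,.k,⟨true,0,⟨1,[(16,0),(11,0),(9,0)]⟩,⟨0,[(3,0),(1,0),(5,0),(19,0),(12,0)]⟩⟩,⟨false,0,⟨0,
  [(30,0),(5,0)]⟩,⟨0,[(11,0),(19,0)]⟩⟩,⟨true,0,⟨0,[(50,0)]⟩,⟨0,[]⟩⟩,⟨false,0,⟨0,[(3,0),(1,0),(42,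
  0)]⟩,⟨3,[(1,3),(13,2),(0,2),(2,0),(6,0)]⟩⟩,⟨false,0,⟨0,[(46,0)]⟩,⟨31,[(2,3),(2,3),(12,7),(0,3),(8,
  2),(0,4),(0,3),(6,3),(10,19)]⟩⟩,⟨false,0,⟨3,[(3,1),(1,1),(3,1),(19,0),(0,1),(10,0),(2,1)]⟩,⟨1,[(1,
  1),(13,0),(0,0),(2,0),(6,0)]⟩⟩,[.o ⟨false,0,⟨0,[(20,0)]⟩,⟨3,[(6,3),(21,0),(0,0),(18,1)]⟩⟩,.o
  ⟨false,1,⟨4,[(5,2),(12,0),(9,0),(0,0),(11,0),(6,1)]⟩,⟨0,[(6,0)]⟩⟩,.o ⟨false,1,⟨1,[(31,1),(9,0),(5,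
  0)]⟩,⟨9,[(3,1),(1,0),(1,1),(2,2),(5,1),(11,0),(1,7),(10,2),(2,1)]⟩⟩,.a ⟨true,0,⟨0,[(31,0)]⟩,⟨0,
  [(30,0)]⟩⟩ ⟨false,1,⟨1,[(28,0),(18,0)]⟩,⟨13,[(3,5),(1,0),(1,2),(1,0),(1,1),(13,4),(3,3),(1,5),(12,
  8)]⟩⟩ ⟨true,0,⟨1,[(5,0),(4,0),(19,1)]⟩,⟨0,[(6,0),(24,0)]⟩⟩]⟩) (.R ⟨0,false,false,true,[1,0,0,-1],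
  [0,1],[1,0,1],(⟨0,[(30,0)]⟩,⟨0,[(31,0)]⟩),(⟨0,[(43,0)]⟩,⟨0,[(42,0)]⟩),⟨0,[(0,0)]⟩,.k,.k,(.x (-1)
  ⟨11,[(8,3),(13,3),(5,4),(0,4),(11,1)]⟩ ⟨0,[(43,0)]⟩),(.x (-1) ⟨11,[(8,3),(13,3),(5,4),(0,4),(11,
  1)]⟩ ⟨0,[(43,0)]⟩),.k,.k,⟨false,1,⟨7,[(13,1),(0,1),(4,1),(8,0),(0,0),(18,1)]⟩,⟨0,[(46,0),(3,0)]⟩⟩,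
  ⟨true,0,⟨0,[(30,0)]⟩,⟨3,[(0,2),(7,0),(13,0),(8,0),(1,1),(2,1)]⟩⟩,⟨false,0,⟨99,[(0,35),(2,35),(1,
  10),(2,11),(0,13),(1,0),(2,2),(7,11),(2,0),(3,31),(14,71)]⟩,⟨1,[(28,0),(18,0)]⟩⟩,⟨true,(-1),⟨0,
  [(3,0),(5,0)]⟩,⟨1,[(1,0),(0,0),(29,0)]⟩⟩,⟨false,0,⟨0,[]⟩,⟨0,[]⟩⟩,⟨false,0,⟨0,[]⟩,⟨0,[]⟩⟩,[.o
  ⟨false,0,⟨0,[(46,0),(3,0)]⟩,⟨20,[(5,2),(7,1),(4,5),(0,1),(21,8),(2,3),(3,9)]⟩⟩,.o ⟨false,0,⟨0,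
  [(46,0)]⟩,⟨19,[(5,3),(12,7),(9,2),(0,2),(11,7),(6,5)]⟩⟩,.o ⟨false,1,⟨1,[(31,1),(9,0),(5,0)]⟩,⟨9,
  [(3,1),(1,0),(1,1),(2,2),(5,1),(11,0),(1,7),(10,2),(2,1)]⟩⟩,.a ⟨true,0,⟨0,[(31,0)]⟩,⟨0,[(30,0)]⟩⟩
  ⟨true,0,⟨0,[]⟩,⟨0,[(50,0)]⟩⟩ ⟨false,0,⟨0,[(30,0),(15,0)]⟩,⟨3,[(1,0),(0,0),(15,0),(10,0),(1,1),(9,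
  0),(2,1)]⟩⟩]⟩))) (.R ⟨1,false,false,false,[1,0,0,-1],[0,-1,1],[1,0,0,-1,0,0,0,0,-1],(⟨0,[(28,0)]⟩,
  ⟨0,[(29,0)]⟩),(⟨0,[(22,0)]⟩,⟨0,[(37,0),(3,0)]⟩),⟨2,[(0,1),(2,0),(2,0),(4,0),(5,0),(2,0),(5,0),(1,
  0)]⟩,.k,.k,(.x (-1) ⟨11,[(6,3),(13,3),(5,4),(0,4),(11,1)]⟩ ⟨0,[(41,0)]⟩),(.r 0 ⟨1,[(14,0),(11,0),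
  (9,0)]⟩ ⟨9,[(0,1),(2,0),(4,0),(2,5),(7,1),(7,3),(1,1)]⟩),.k,.k,⟨true,0,⟨21,[(3,0),(10,10),(1,3),
  (0,8),(6,3),(0,2),(0,10)]⟩,⟨35,[(0,27),(2,18),(1,11),(2,8),(0,9),(1,13),(15,3),(1,27),(12,7)]⟩⟩,
  ⟨false,0,⟨0,[(28,0),(5,0)]⟩,⟨0,[(9,0),(19,0)]⟩⟩,⟨false,1,⟨19,[(3,3),(12,3),(0,3),(6,3),(1,2),(0,
  2),(18,13)]⟩,⟨0,[(44,0)]⟩⟩,⟨false,0,⟨50,[(0,2),(0,27),(1,40),(8,15),(14,9),(0,19),(10,4),(2,51)]⟩,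
  ⟨1,[(4,1),(21,0),(2,1),(15,0)]⟩⟩,⟨true,0,⟨0,[]⟩,⟨0,[(48,0)]⟩⟩,⟨false,0,⟨16,[(0,7),(0,0),(1,12),(8,
  2),(14,3),(0,7),(10,1),(2,13)]⟩,⟨7,[(4,2),(4,3),(6,0),(0,0),(8,3),(2,7),(6,2)]⟩⟩,[.o ⟨false,1,⟨4,
  [(3,2),(12,0),(9,0),(0,0),(11,0),(6,1)]⟩,⟨0,[(4,0)]⟩⟩,.o ⟨false,1,⟨41,[(3,23),(7,1),(4,5),(0,1),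
  (21,8),(2,3),(3,30)]⟩,⟨0,[(4,0),(43,0)]⟩⟩,.o ⟨false,1,⟨1,[(29,1),(9,0),(5,0)]⟩,⟨9,[(1,1),(1,0),(1,
  1),(2,2),(5,1),(11,0),(1,7),(10,2),(2,1)]⟩⟩,.a ⟨true,0,⟨0,[(29,0)]⟩,⟨0,[(28,0)]⟩⟩ ⟨true,1,⟨7,[(11,
  1),(0,1),(3,0),(8,0),(0,3),(6,0)]⟩,⟨1,[(0,1),(2,0),(4,0),(20,1)]⟩⟩ ⟨false,1,⟨41,[(3,23),(7,1),(4,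
  5),(0,1),(10,41),(10,8),(2,3),(3,30)]⟩,⟨0,[(4,0),(24,0)]⟩⟩]⟩)))) (.R ⟨1,false,false,false,[0,-1,
  1],[1,-1,-1],[1],(⟨0,[(19,0)]⟩,⟨0,[(34,0),(3,0)]⟩),(⟨0,[(17,0)]⟩,⟨0,[(35,0),(2,0)]⟩),⟨0,[(3,0)]⟩,
  .k,.k,(.x 0 ⟨1,[(3,1),(27,2),(0,0)]⟩ ⟨0,[(7,0)]⟩),.k,(.r (-1) ⟨2,[(4,0),(3,1),(3,0),(3,0),(12,
  0)]⟩ ⟨3,[(11,1),(11,0),(0,0),(8,5)]⟩),.k,⟨true,0,⟨2,[(4,0),(6,0),(0,0),(3,0),(12,0)]⟩,⟨3,[(13,0),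
  (0,1),(7,0),(7,0)]⟩⟩,⟨false,1,⟨4,[(10,3),(1,2),(23,0)]⟩,⟨0,[(22,0)]⟩⟩,⟨false,0,⟨1,[(11,0),(21,0),
  (9,0)]⟩,⟨35,[(8,13),(1,3),(4,5),(0,7),(4,1),(1,4),(0,4)]⟩⟩,⟨true,0,⟨2,[(0,1),(12,0),(16,0)]⟩,⟨0,
  [(4,0),(10,0)]⟩⟩,⟨false,0,⟨1,[(11,1),(30,0),(0,0)]⟩,⟨8,[(8,4),(7,1),(22,0),(0,7),(2,1)]⟩⟩,⟨false,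
  0,⟨0,[(0,0)]⟩,⟨0,[(16,0),(5,0),(17,0)]⟩⟩,[.a ⟨true,0,⟨6,[(0,0),(13,3),(6,3),(3,0),(0,0),(3,0)]⟩,
  ⟨0,[(4,0)]⟩⟩ ⟨true,0,⟨0,[]⟩,⟨1,[(31,0),(0,0)]⟩⟩ ⟨false,1,⟨6,[(0,2),(5,0),(1,1),(1,3),(2,2)]⟩,⟨0,
  [(4,0),(26,0)]⟩⟩,.o ⟨false,1,⟨9,[(0,1),(12,5),(9,0),(0,0),(11,0),(6,6)]⟩,⟨0,[(29,0),(11,0)]⟩⟩,.o
  ⟨false,0,⟨0,[(31,0)]⟩,⟨4,[(10,2),(1,0),(23,1)]⟩⟩,.o ⟨false,0,⟨1,[(31,2),(0,0)]⟩,⟨0,[(6,0)]⟩⟩]⟩))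
  (.Q [0,0,0,0,0,2,0,0,0,-1,1] (.p true [0,0,1] [1] (⟨0,[(34,0)]⟩,⟨0,[(33,0)]⟩) .k 1 (⟨0,[]⟩,⟨0,
  []⟩) .k .k) (.R ⟨0,false,false,true,[1,-1,-1],[0,-1,1],[1,1],(⟨0,[(17,0)]⟩,⟨1,[(0,0),(24,0),(0,0),
  (8,0)]⟩),(⟨0,[(19,0)]⟩,⟨0,[(34,0),(3,0)]⟩),⟨0,[(0,0)]⟩,.k,.k,(.r (-1) ⟨1,[(9,1),(3,0),(8,0),(7,
  0)]⟩ ⟨0,[(11,0),(4,0),(28,0)]⟩),.k,.k,.k,⟨false,0,⟨1,[(11,0),(21,0),(8,0)]⟩,⟨35,[(8,13),(1,3),(4,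
  5),(0,7),(4,1),(1,4),(0,4)]⟩⟩,⟨true,0,⟨0,[(22,0)]⟩,⟨0,[(12,0)]⟩⟩,⟨false,0,⟨2,[(4,0),(6,0),(0,0),
  (3,0),(12,0)]⟩,⟨3,[(9,1),(4,1),(8,0),(0,0),(8,1)]⟩⟩,⟨true,0,⟨0,[(4,0),(10,0)]⟩,⟨0,[(6,0),(4,0),(2,
  0),(6,0)]⟩⟩,⟨false,0,⟨0,[]⟩,⟨0,[]⟩⟩,⟨false,0,⟨0,[]⟩,⟨0,[]⟩⟩,[.o ⟨false,0,⟨0,[(15,0)]⟩,⟨3,[(6,1),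
  (4,1),(18,1),(5,0),(6,2)]⟩⟩,.a ⟨true,0,⟨0,[(1,0)]⟩,⟨3,[(10,2),(0,2),(2,0),(6,0)]⟩⟩ ⟨true,0,⟨0,[]⟩,
  ⟨1,[(31,0),(0,0)]⟩⟩ ⟨false,1,⟨3,[(4,0),(3,1),(0,0),(12,2),(6,0),(12,0)]⟩,⟨20,[(6,6),(4,10),(0,12),
  (1,0),(12,0),(2,7),(12,3)]⟩⟩,.o ⟨false,0,⟨0,[(28,0)]⟩,⟨7,[(22,3),(0,0),(0,0),(11,1),(5,3)]⟩⟩,.o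
  ⟨false,0,⟨1,[(28,1),(2,0),(0,0)]⟩,⟨0,[(20,0),(21,0)]⟩⟩]⟩) (.Q [0,-1,1,-2,0,0,1,1,1,1,-1,-1] (.p
  false [0,0,1] [1,0,0,-1] (⟨0,[(35,0)]⟩,⟨0,[(34,0)]⟩) .k 2 (⟨0,[(25,0)]⟩,⟨0,[(26,0)]⟩) .k (.x 0 ⟨0,
  [(31,0),(3,0)]⟩ ⟨39,[(0,19),(6,19),(2,3),(1,7),(10,4),(0,4),(11,5)]⟩)) (.Q [0,-1,-1,1,1,0,1,1,-1,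
  0,-1,1] (.p false [0,0,1] [0,0,0,1] (⟨0,[(36,0)]⟩,⟨0,[(35,0)]⟩) .k 2 (⟨0,[(27,0)]⟩,⟨0,[(26,0)]⟩)
  .k (.x (-1) ⟨7,[(23,3),(0,0),(0,0),(10,7),(0,1),(5,3)]⟩ ⟨0,[(29,0),(5,0)]⟩)) (.I [0,0,1,1,0,0,0,0,
  -1] (.Q [0,0,0,0,0,0,-1,-1,0,-1,1,1] (.p true [0,0,1] [1,0,0,-1] (⟨0,[(38,0)]⟩,⟨0,[(37,0)]⟩) .k 2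
  (⟨0,[(28,0)]⟩,⟨0,[(29,0)]⟩) .k (.x 0 ⟨0,[(34,0),(3,0)]⟩ ⟨39,[(3,19),(6,19),(2,3),(1,7),(10,4),(0,
  4),(11,5)]⟩)) (.I [0,0,0,0,0,0,0,0,1] (.I [0,-1,-2,-1,1,0,0,1,1] (.Q [0,0,0,0,0,-1,0,0,0,0,0,1]
  (.p true [0,0,0,1] [] (⟨0,[(32,0)]⟩,⟨0,[(31,0)]⟩) .k 0 (⟨0,[]⟩,⟨0,[]⟩) .k .k) (.R ⟨1,false,false,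
  true,[0,0,0,1],[0,-1,1],[1,1,0,-1,0,0,0,0,1],(⟨0,[(33,0)]⟩,⟨0,[(32,0)]⟩),(⟨0,[(26,0)]⟩,⟨0,[(41,0),
  (3,0)]⟩),⟨0,[(0,0)]⟩,.k,.k,(.r (-1) ⟨7,[(15,1),(0,1),(3,0),(8,0),(1,3),(5,0)]⟩ ⟨0,[(4,0)]⟩),(.r 0
  ⟨1,[(18,0),(12,0),(8,0)]⟩ ⟨0,[(4,0),(10,0)]⟩),.k,.k,⟨false,0,⟨0,[(2,0),(37,0)]⟩,⟨2,[(4,2),(6,0),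
  (1,0),(1,1)]⟩⟩,⟨true,0,⟨0,[(27,0),(5,0)]⟩,⟨0,[(32,0),(2,0)]⟩⟩,⟨true,0,⟨0,[(47,0)]⟩,⟨0,[(48,0)]⟩⟩,
  ⟨false,1,⟨10,[(5,6),(2,2),(6,1),(4,3),(1,2),(6,0),(0,1),(2,3)]⟩,⟨14,[(2,12),(10,6),(4,9),(0,3),(1,
  4),(9,0),(0,14),(10,1),(2,4)]⟩⟩,⟨false,0,⟨0,[]⟩,⟨3,[(30,0),(0,0),(18,1)]⟩⟩,⟨false,1,⟨0,[(5,0),(41,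
  0)]⟩,⟨20,[(2,19),(3,0),(6,3),(4,7),(0,8),(1,13),(10,19),(10,3),(2,2)]⟩⟩,[.o ⟨false,0,⟨0,[(22,0)]⟩,
  ⟨3,[(13,1),(4,1),(18,1),(5,0),(6,2)]⟩⟩,.a ⟨true,0,⟨0,[(8,0)]⟩,⟨1,[(3,0),(13,0),(0,0),(13,0)]⟩⟩
  ⟨true,0,⟨1,[(1,0),(0,0),(5,0),(9,0),(1,0)]⟩,⟨0,[(4,0)]⟩⟩ ⟨false,1,⟨0,[(16,0),(16,0),(2,0)]⟩,⟨19,
  [(13,1),(4,9),(0,3),(12,19),(1,7),(2,1),(5,2),(6,4)]⟩⟩,.o ⟨false,0,⟨11,[(4,0),(1,0),(2,1),(2,4),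
  (5,2),(13,10),(2,0),(7,2),(2,0)]⟩,⟨3,[(3,1),(1,1),(6,1),(18,0),(17,0)]⟩⟩,.o ⟨false,0,⟨0,[(32,0),
  (2,0),(2,0)]⟩,⟨0,[(13,0),(13,0),(5,0)]⟩⟩]⟩) (.R ⟨1,false,false,true,[1,0,0,-1],[1,-1],[0,1,0,0,0,
  0,0,0,-1],(⟨0,[(32,0)]⟩,⟨0,[(33,0)]⟩),(⟨0,[(44,0)]⟩,⟨0,[(45,0)]⟩),⟨2,[(0,0),(6,0),(2,0),(21,1)]⟩,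
  .k,.k,(.x (-1) ⟨15,[(7,3),(2,3),(19,6),(0,6),(11,1)]⟩ ⟨0,[(45,0)]⟩),(.r 0 ⟨0,[(4,0)]⟩ ⟨7,[(15,1),
  (0,1),(3,0),(8,0),(1,3),(5,0)]⟩),.k,.k,⟨true,0,⟨0,[(4,0)]⟩,⟨1,[(1,0),(0,0),(5,0),(9,0),(1,0)]⟩⟩,
  ⟨false,0,⟨14,[(0,3),(3,2),(1,2),(0,0),(2,0),(1,2),(5,2),(13,7),(2,2),(7,2)]⟩,⟨0,[(33,0),(15,0)]⟩⟩,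
  ⟨true,0,⟨0,[(52,0)]⟩,⟨0,[]⟩⟩,⟨false,0,⟨18,[(0,7),(1,1),(3,10),(0,1),(2,1),(1,2),(5,2),(0,0),(11,
  2),(2,7),(0,0)]⟩,⟨4,[(4,1),(0,2),(11,2),(0,0),(2,1),(11,1)]⟩⟩,⟨false,0,⟨0,[(48,0)]⟩,⟨10,[(6,1),(8,
  0),(4,1),(0,0),(8,2),(0,1),(1,1),(16,4)]⟩⟩,⟨false,0,⟨14,[(0,11),(1,3),(3,2),(0,2),(2,2),(1,1),(5,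
  3),(12,3),(3,3),(0,0)]⟩,⟨2,[(4,0),(0,1),(11,0),(3,1),(6,0),(4,0)]⟩⟩,[.o ⟨false,0,⟨0,[(12,0)]⟩,⟨63,
  [(5,15),(11,15),(0,23),(4,3),(6,6),(0,14),(0,15),(10,7),(6,21)]⟩⟩,.o ⟨false,1,⟨4,[(5,0),(0,0),(13,
  1),(9,0),(0,0),(11,1)]⟩,⟨0,[(48,0)]⟩⟩,.o ⟨false,1,⟨3,[(3,1),(1,1),(6,1),(18,0),(17,0)]⟩,⟨14,[(0,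
  3),(3,2),(1,2),(0,0),(2,0),(1,2),(5,2),(13,7),(2,2),(7,2)]⟩⟩,.a ⟨true,0,⟨0,[(33,0)]⟩,⟨0,[(32,
  0)]⟩⟩ ⟨false,1,⟨1,[(30,0),(18,0)]⟩,⟨5,[(2,2),(0,0),(2,0),(2,0),(8,0),(12,0),(14,1)]⟩⟩ ⟨true,0,⟨0,
  [(12,0),(19,0)]⟩,⟨0,[(33,0),(14,0)]⟩⟩]⟩)) (.Q [0,0,0,0,0,-1,0,0,0,1,0,-1] (.p false [0,0,0,1] [1]
  (⟨0,[(32,0)]⟩,⟨0,[(31,0)]⟩) .k 1 (⟨0,[]⟩,⟨0,[]⟩) .k .k) (.R ⟨1,false,false,true,[1,0,0,-1],[1,-1],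
  [1,1,0,-1,0,0,0,0,-1],(⟨0,[(32,0)]⟩,⟨0,[(33,0)]⟩),(⟨0,[(44,0)]⟩,⟨0,[(45,0)]⟩),⟨0,[(0,0)]⟩,.k,.k,
  (.x (-1) ⟨15,[(7,3),(2,3),(19,6),(0,6),(11,1)]⟩ ⟨0,[(45,0)]⟩),(.r 0 ⟨0,[(4,0)]⟩ ⟨7,[(15,1),(0,1),
  (3,0),(8,0),(1,3),(5,0)]⟩),.k,.k,⟨true,0,⟨12,[(1,4),(6,0),(0,3),(5,0),(4,0),(9,3),(15,0)]⟩,⟨0,[(2,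
  0)]⟩⟩,⟨false,0,⟨13,[(1,0),(4,0),(2,2),(2,4),(5,2),(13,12),(2,0),(7,3),(2,0)]⟩,⟨0,[(33,0),(15,
  0)]⟩⟩,⟨true,0,⟨0,[(47,0)]⟩,⟨0,[(48,0)]⟩⟩,⟨false,0,⟨6,[(2,2),(3,3),(5,0),(5,0),(13,2),(1,2),(0,0),
  (7,0)]⟩,⟨7,[(1,0),(3,4),(11,4),(0,1),(2,1),(8,0),(2,2),(12,0)]⟩⟩,⟨false,0,⟨0,[]⟩,⟨3,[(30,0),(0,0),
  (18,1)]⟩⟩,⟨false,0,⟨11,[(2,8),(3,2),(5,1),(0,0),(4,3),(13,8),(2,2),(0,0),(6,2)]⟩,⟨15,[(1,2),(3,6),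
  (9,1),(1,6),(3,5),(8,2),(2,8),(12,2)]⟩⟩,[.o ⟨false,0,⟨0,[(12,0)]⟩,⟨63,[(5,15),(11,15),(0,23),(4,
  3),(6,6),(0,14),(0,15),(10,7),(6,21)]⟩⟩,.o ⟨false,1,⟨4,[(5,0),(0,0),(13,1),(9,0),(0,0),(11,1)]⟩,
  ⟨0,[(48,0)]⟩⟩,.o ⟨false,1,⟨3,[(3,1),(1,1),(6,1),(18,0),(17,0)]⟩,⟨13,[(1,0),(4,0),(2,2),(2,4),(5,
  2),(13,12),(2,0),(7,3),(2,0)]⟩⟩,.a ⟨true,0,⟨0,[(33,0)]⟩,⟨0,[(32,0)]⟩⟩ ⟨false,1,⟨7,[(15,1),(0,1),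
  (3,0),(8,0),(0,3),(6,0)]⟩,⟨4,[(2,4),(15,1),(4,0),(22,0),(1,0),(1,0)]⟩⟩ ⟨true,0,⟨0,[(12,0),(19,
  0)]⟩,⟨0,[(33,0),(14,0)]⟩⟩]⟩) (.R ⟨0,false,false,true,[1,0,0,-1],[1,-1],[1,1,0,-1,0,0,0,0,-1],(⟨0,
  [(32,0)]⟩,⟨0,[(33,0)]⟩),(⟨0,[(44,0)]⟩,⟨0,[(45,0)]⟩),⟨0,[(0,0)]⟩,.k,.k,(.x (-1) ⟨15,[(7,3),(2,3),
  (19,6),(0,6),(11,1)]⟩ ⟨0,[(45,0)]⟩),(.r 0 ⟨0,[(4,0)]⟩ ⟨7,[(15,1),(0,1),(3,0),(8,0),(1,3),(5,0)]⟩),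
  .k,.k,⟨true,0,⟨12,[(1,4),(6,0),(0,3),(5,0),(4,0),(9,3),(15,0)]⟩,⟨0,[(2,0)]⟩⟩,⟨false,0,⟨13,[(1,0),
  (4,0),(2,2),(2,4),(5,2),(13,12),(2,0),(7,3),(2,0)]⟩,⟨0,[(33,0),(15,0)]⟩⟩,⟨true,0,⟨0,[(47,0)]⟩,⟨0,
  [(48,0)]⟩⟩,⟨false,0,⟨6,[(2,2),(3,3),(5,0),(5,0),(13,2),(1,2),(0,0),(7,0)]⟩,⟨7,[(1,0),(3,4),(11,4),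
  (0,1),(2,1),(8,0),(2,2),(12,0)]⟩⟩,⟨false,0,⟨0,[]⟩,⟨0,[]⟩⟩,⟨false,0,⟨0,[]⟩,⟨0,[]⟩⟩,[.o ⟨false,0,⟨0,
  [(12,0)]⟩,⟨63,[(5,15),(11,15),(0,23),(4,3),(6,6),(0,14),(0,15),(10,7),(6,21)]⟩⟩,.o ⟨false,1,⟨4,
  [(5,0),(0,0),(13,1),(9,0),(0,0),(11,1)]⟩,⟨0,[(48,0)]⟩⟩,.o ⟨false,1,⟨3,[(3,1),(1,1),(6,1),(18,0),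
  (17,0)]⟩,⟨13,[(1,0),(4,0),(2,2),(2,4),(5,2),(13,12),(2,0),(7,3),(2,0)]⟩⟩,.a ⟨true,0,⟨0,[(33,0)]⟩,
  ⟨0,[(32,0)]⟩⟩ ⟨false,1,⟨7,[(15,1),(0,1),(3,0),(8,0),(0,3),(6,0)]⟩,⟨4,[(2,4),(15,1),(4,0),(22,0),
  (1,0),(1,0)]⟩⟩ ⟨true,0,⟨0,[(12,0),(19,0)]⟩,⟨0,[(33,0),(14,0)]⟩⟩]⟩))) (.Q [0,0,0,0,0,-1,0,0,0,1,0,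
  -1] (.p false [0,0,0,1] [1] (⟨0,[(31,0)]⟩,⟨0,[(30,0)]⟩) .k 1 (⟨0,[]⟩,⟨0,[]⟩) .k .k) (.R ⟨1,false,
  false,false,[1,0,0,-1],[0,1],[0,0,0,0,0,0,0,0,-1],(⟨0,[(31,0)]⟩,⟨0,[(32,0)]⟩),(⟨0,[(44,0)]⟩,⟨0,
  [(43,0)]⟩),⟨0,[(0,0)]⟩,.k,.k,(.x (-1) ⟨15,[(6,3),(2,3),(19,6),(0,6),(11,1)]⟩ ⟨0,[(44,0)]⟩),(.x
  (-1) ⟨15,[(6,3),(2,3),(19,6),(0,6),(11,1)]⟩ ⟨0,[(44,0)]⟩),(.r (-1) ⟨3,[(1,3),(12,1),(0,1),(3,0),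
  (8,0),(7,0)]⟩ ⟨1,[(17,1),(4,0),(7,0),(20,0)]⟩),.k,⟨false,1,⟨7,[(1,7),(12,1),(0,1),(3,0),(8,0),(7,
  0),(11,3)]⟩,⟨3,[(5,1),(6,1),(4,2),(9,0),(2,0),(1,1),(2,0),(11,2)]⟩⟩,⟨true,0,⟨0,[(31,0)]⟩,⟨4,[(2,
  0),(5,1),(2,1),(5,0),(14,3),(4,0),(4,0)]⟩⟩,⟨false,1,⟨3,[(29,0),(0,0),(18,1)]⟩,⟨0,[]⟩⟩,⟨false,0,⟨0,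
  [(5,0),(10,0),(0,0),(29,0)]⟩,⟨0,[(4,0),(14,0)]⟩⟩,⟨true,0,⟨0,[(47,0)]⟩,⟨0,[(46,0)]⟩⟩,⟨false,0,⟨0,
  [(5,0),(10,0),(0,0),(29,1)]⟩,⟨7,[(1,0),(2,6),(2,0),(6,0),(4,8),(0,0),(0,0),(10,0),(12,0)]⟩⟩,[.o
  ⟨false,0,⟨0,[(47,0)]⟩,⟨4,[(4,0),(0,0),(13,1),(9,0),(0,0),(11,1)]⟩⟩,.o ⟨false,1,⟨63,[(4,15),(11,
  15),(0,23),(4,3),(6,6),(0,14),(0,15),(10,7),(6,21)]⟩,⟨0,[(11,0)]⟩⟩,.o ⟨false,1,⟨3,[(2,1),(1,1),(6,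
  1),(18,0),(17,0)]⟩,⟨6,[(1,0),(3,0),(2,0),(2,1),(5,1),(13,5),(2,0),(7,1)]⟩⟩,.a ⟨true,0,⟨0,[(32,
  0)]⟩,⟨0,[(31,0)]⟩⟩ ⟨false,1,⟨13,[(1,5),(2,1),(7,1),(2,5),(1,1),(11,2),(1,1),(17,2)]⟩,⟨7,[(2,0),(2,
  3),(6,2),(4,4),(9,1),(2,1),(1,2),(2,1)]⟩⟩ ⟨true,0,⟨0,[(31,0),(15,0)]⟩,⟨0,[(11,0),(20,0)]⟩⟩]⟩) (.R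
  ⟨0,false,false,false,[1,0,0,-1],[0,1],[1,0,0,0,0,0,0,0,-1],(⟨0,[(31,0)]⟩,⟨0,[(32,0)]⟩),(⟨0,[(44,
  0)]⟩,⟨0,[(43,0)]⟩),⟨0,[(0,0)]⟩,.k,.k,(.x (-1) ⟨15,[(6,3),(2,3),(19,6),(0,6),(11,1)]⟩ ⟨0,[(44,
  0)]⟩),(.x (-1) ⟨15,[(6,3),(2,3),(19,6),(0,6),(11,1)]⟩ ⟨0,[(44,0)]⟩),.k,.k,⟨false,1,⟨7,[(1,7),(12,
  1),(0,1),(3,0),(8,0),(7,0),(11,3)]⟩,⟨21,[(0,7),(4,7),(0,1),(2,1),(2,1),(4,8),(9,6),(2,6),(4,0),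
  (11,26)]⟩⟩,⟨true,0,⟨0,[(31,0)]⟩,⟨5,[(0,3),(5,0),(2,0),(22,1),(1,2),(2,2)]⟩⟩,⟨true,0,⟨0,[]⟩,⟨0,
  [(51,0)]⟩⟩,⟨false,0,⟨0,[(5,0),(10,0),(0,0),(29,0)]⟩,⟨0,[(4,0),(14,0)]⟩⟩,⟨false,0,⟨0,[]⟩,⟨0,[]⟩⟩,
  ⟨false,0,⟨0,[]⟩,⟨0,[]⟩⟩,[.o ⟨false,0,⟨0,[(47,0)]⟩,⟨4,[(4,0),(0,0),(13,1),(9,0),(0,0),(11,1)]⟩⟩,.o
  ⟨false,1,⟨63,[(4,15),(11,15),(0,23),(4,3),(6,6),(0,14),(0,15),(10,7),(6,21)]⟩,⟨0,[(11,0)]⟩⟩,.o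
  ⟨false,1,⟨3,[(2,1),(1,1),(6,1),(18,0),(17,0)]⟩,⟨6,[(1,0),(3,0),(2,0),(2,1),(5,1),(13,5),(2,0),(7,
  1)]⟩⟩,.a ⟨true,0,⟨0,[(32,0)]⟩,⟨0,[(31,0)]⟩⟩ ⟨false,1,⟨13,[(1,5),(2,1),(7,1),(2,5),(1,1),(11,2),(1,
  1),(17,2)]⟩,⟨21,[(0,7),(4,7),(0,1),(2,1),(2,1),(4,8),(9,6),(2,6),(4,0),(11,4)]⟩⟩ ⟨true,0,⟨0,[(31,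
  0),(15,0)]⟩,⟨0,[(11,0),(20,0)]⟩⟩]⟩))) (.I [0,-1,0,0,0,0,0,-1,-1] (.R ⟨1,false,false,false,[1,0,0,
  -1],[0,1],[0,0,0,0,0,0,0,0,-1],(⟨0,[(30,0)]⟩,⟨0,[(31,0)]⟩),(⟨0,[(43,0)]⟩,⟨0,[(42,0)]⟩),⟨3,[(1,1),
  (3,0),(2,0),(2,0),(4,0),(2,0),(6,0),(3,1)]⟩,.k,.k,(.x (-1) ⟨15,[(5,3),(2,3),(19,6),(0,6),(11,1)]⟩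
  ⟨0,[(43,0)]⟩),(.x (-1) ⟨15,[(5,3),(2,3),(19,6),(0,6),(11,1)]⟩ ⟨0,[(43,0)]⟩),(.r (-1) ⟨1,[(0,1),
  (12,0),(1,0),(4,0),(24,0)]⟩ ⟨1,[(16,1),(4,0),(7,0),(20,0)]⟩),.k,⟨false,1,⟨0,[(0,0),(14,0),(4,0)]⟩,
  ⟨3,[(4,1),(6,1),(4,2),(9,0),(2,0),(1,1),(2,0),(11,2)]⟩⟩,⟨true,0,⟨0,[(30,0)]⟩,⟨8,[(7,1),(2,3),(5,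
  1),(14,8),(1,0),(2,0),(4,1),(2,0)]⟩⟩,⟨false,1,⟨3,[(28,0),(0,0),(18,1)]⟩,⟨0,[]⟩⟩,⟨false,0,⟨0,[(4,
  0),(10,0),(0,0),(29,0)]⟩,⟨0,[(3,0),(14,0)]⟩⟩,⟨true,0,⟨0,[(46,0)]⟩,⟨0,[(45,0)]⟩⟩,⟨false,0,⟨0,[(4,
  0),(10,0),(0,0),(29,1)]⟩,⟨6,[(0,0),(2,5),(2,0),(6,0),(4,7),(1,0),(10,0),(12,0)]⟩⟩,[.o ⟨false,0,⟨0,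
  [(46,0)]⟩,⟨4,[(3,0),(0,0),(13,1),(9,0),(0,0),(11,1)]⟩⟩,.o ⟨false,1,⟨63,[(3,15),(11,15),(0,23),(4,
  3),(6,6),(0,14),(0,15),(10,7),(6,21)]⟩,⟨0,[(10,0)]⟩⟩,.o ⟨false,1,⟨1,[(31,1),(9,0),(5,0)]⟩,⟨35,[(0,
  1),(0,13),(2,3),(11,9),(1,5),(9,0),(1,17),(2,11),(7,8)]⟩⟩,.a ⟨true,0,⟨0,[(31,0)]⟩,⟨0,[(30,0)]⟩⟩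
  ⟨false,1,⟨20,[(0,7),(0,2),(1,2),(7,2),(2,2),(0,2),(5,0),(6,4),(19,2)]⟩,⟨11,[(4,5),(5,0),(0,4),(4,
  7),(9,2),(2,2),(1,5),(2,1)]⟩⟩ ⟨true,0,⟨1,[(1,0),(13,0),(0,0),(13,0)]⟩,⟨0,[(10,0),(20,0)]⟩⟩]⟩) (.R
  ⟨1,false,false,true,[1,0,0,-1],[1,-1],[0,1,0,0,0,0,0,0,-1],(⟨0,[(30,0)]⟩,⟨0,[(31,0)]⟩),(⟨0,[(42,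
  0)]⟩,⟨0,[(43,0)]⟩),⟨3,[(1,1),(3,0),(2,0),(2,0),(4,0),(2,0),(6,0),(3,1)]⟩,.k,.k,(.x (-1) ⟨15,[(5,
  3),(2,3),(19,6),(0,6),(11,1)]⟩ ⟨0,[(43,0)]⟩),(.r 0 ⟨0,[(2,0)]⟩ ⟨7,[(13,1),(0,1),(3,0),(8,0),(1,3),
  (5,0)]⟩),.k,.k,⟨true,0,⟨0,[(2,0)]⟩,⟨0,[(0,0),(18,0)]⟩⟩,⟨false,0,⟨27,[(1,11),(2,1),(11,7),(1,5),(9,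
  0),(1,13),(2,7),(7,6),(2,1)]⟩,⟨0,[(31,0),(15,0)]⟩⟩,⟨true,0,⟨0,[(50,0)]⟩,⟨0,[]⟩⟩,⟨false,0,⟨19,[(0,
  1),(0,1),(2,15),(6,3),(4,5),(12,0),(0,1),(1,13),(8,0)]⟩,⟨4,[(2,1),(0,2),(11,2),(0,0),(2,1),(11,
  1)]⟩⟩,⟨false,0,⟨0,[(46,0)]⟩,⟨10,[(4,1),(8,0),(4,1),(0,0),(8,2),(0,1),(1,1),(16,4)]⟩⟩,⟨false,0,⟨9,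
  [(0,1),(0,1),(2,5),(6,3),(4,5),(12,0),(0,1),(1,3),(8,0)]⟩,⟨2,[(2,0),(0,1),(11,0),(3,1),(6,0),(4,
  0)]⟩⟩,[.o ⟨false,0,⟨0,[(10,0)]⟩,⟨63,[(3,15),(11,15),(0,23),(4,3),(6,6),(0,14),(0,15),(10,7),(6,
  21)]⟩⟩,.o ⟨false,1,⟨4,[(3,0),(0,0),(13,1),(9,0),(0,0),(11,1)]⟩,⟨0,[(46,0)]⟩⟩,.o ⟨false,1,⟨1,[(31,
  1),(9,0),(5,0)]⟩,⟨27,[(1,11),(2,1),(11,7),(1,5),(9,0),(1,13),(2,7),(7,6),(2,1)]⟩⟩,.a ⟨true,0,⟨0,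
  [(31,0)]⟩,⟨0,[(30,0)]⟩⟩ ⟨false,1,⟨1,[(28,0),(18,0)]⟩,⟨4,[(0,2),(15,0),(2,1),(9,0),(14,2)]⟩⟩ ⟨true,
  0,⟨0,[(10,0),(19,0)]⟩,⟨0,[(31,0),(14,0)]⟩⟩]⟩))) (.Q [0,1,1,0,-1,0,0,0,1,1,0,-1] (.p false [0,0,0,
  1] [1] (⟨0,[(29,0)]⟩,⟨0,[(28,0)]⟩) .k 1 (⟨0,[]⟩,⟨0,[]⟩) .k .k) (.R ⟨1,false,false,false,[0,-1,1],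
  [1,0,0,-1],[0,0,-1,-1,0,0,0,1],(⟨0,[(23,0)]⟩,⟨0,[(38,0),(3,0)]⟩),(⟨0,[(29,0)]⟩,⟨0,[(30,0)]⟩),⟨0,
  [(7,0)]⟩,.k,.k,(.x 0 ⟨1,[(7,1),(27,2),(0,0)]⟩ ⟨0,[(11,0)]⟩),(.r (-1) ⟨18,[(1,4),(10,5),(1,0),(5,
  4),(4,1),(2,6),(4,2)]⟩ ⟨1,[(15,0),(11,0),(9,0)]⟩),(.r (-1) ⟨37,[(1,23),(10,24),(1,0),(5,4),(4,1),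
  (2,6),(4,2)]⟩ ⟨3,[(15,3),(11,2),(0,0)]⟩),.k,⟨false,1,⟨17,[(1,11),(6,3),(1,3),(1,4),(1,2),(5,2),(7,
  2),(4,2)]⟩,⟨1,[(15,0),(11,0),(9,0)]⟩⟩,⟨true,1,⟨0,[(10,0),(19,0)]⟩,⟨3,[(0,2),(2,0),(11,2),(2,0),(0,
  2),(7,1),(15,1)]⟩⟩,⟨false,1,⟨3,[(27,0),(0,0),(18,1)]⟩,⟨0,[]⟩⟩,⟨false,1,⟨0,[(2,0),(7,0),(4,0),(2,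
  0),(6,0)]⟩,⟨19,[(0,5),(2,9),(16,1),(6,0),(0,2),(0,3),(3,5),(1,3)]⟩⟩,⟨true,0,⟨0,[(45,0)]⟩,⟨0,[(44,
  0)]⟩⟩,⟨false,1,⟨3,[(2,3),(7,3),(3,0),(0,4),(2,2),(6,2)]⟩,⟨7,[(0,1),(2,5),(15,1),(7,0),(0,0),(15,
  1)]⟩⟩,[.o ⟨false,1,⟨0,[(2,0),(19,0)]⟩,⟨1,[(0,1),(39,0),(6,0)]⟩⟩,.a ⟨true,1,⟨3,[(2,3),(11,0),(0,0),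
  (2,2),(6,2)]⟩,⟨0,[(0,0)]⟩⟩ ⟨true,1,⟨6,[(12,2),(0,0),(6,1),(22,0),(3,0)]⟩,⟨0,[(15,0),(28,0)]⟩⟩
  ⟨false,2,⟨3,[(2,3),(7,3),(3,0),(0,0),(2,2),(6,2)]⟩,⟨0,[(0,0),(34,0)]⟩⟩,.o ⟨false,0,⟨0,[(35,0)]⟩,
  ⟨4,[(14,2),(1,0),(23,1)]⟩⟩,.o ⟨false,0,⟨1,[(35,2),(0,0)]⟩,⟨0,[(10,0)]⟩⟩]⟩) (.Q [0,0,0,0,0,-1,0,0,
  0,0,0,1] (.p true [0,0,0,1] [] (⟨0,[(30,0)]⟩,⟨0,[(29,0)]⟩) .k 0 (⟨0,[]⟩,⟨0,[]⟩) .k .k) (.R ⟨1,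
  false,false,true,[0,0,0,1],[1,0,-1],[0,0,0,0,0,0,0,0,1],(⟨0,[(31,0)]⟩,⟨0,[(30,0)]⟩),(⟨0,[(39,0)]⟩,
  ⟨0,[(40,0)]⟩),⟨0,[(0,0)]⟩,.k,.k,(.x 0 ⟨3,[(5,0),(2,0),(24,0),(2,3),(0,2)]⟩ ⟨1,[(12,0),(12,0),(14,
  0),(6,0)]⟩),.k,(.r (-1) ⟨18,[(2,4),(10,5),(1,0),(5,4),(4,1),(2,6),(4,2)]⟩ ⟨1,[(16,0),(11,0),(9,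
  0)]⟩),.k,⟨true,0,⟨0,[(2,0),(4,0),(38,0)]⟩,⟨3,[(16,1),(1,0),(8,0),(0,1),(6,0),(9,1)]⟩⟩,⟨false,1,⟨0,
  [(11,0),(19,0)]⟩,⟨0,[(30,0),(5,0)]⟩⟩,⟨false,1,⟨3,[(28,0),(0,0),(18,1)]⟩,⟨0,[]⟩⟩,⟨false,1,⟨0,[(1,
  0),(33,0)]⟩,⟨0,[(4,0),(41,1)]⟩⟩,⟨true,0,⟨0,[(46,0)]⟩,⟨0,[(45,0)]⟩⟩,⟨false,1,⟨2,[(1,1),(1,0),(7,0),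
  (4,0),(18,2)]⟩,⟨0,[(4,0),(41,0)]⟩⟩,[.o ⟨false,0,⟨0,[(32,0)]⟩,⟨3,[(21,1),(5,1),(13,0),(6,0)]⟩⟩,.a
  ⟨true,0,⟨1,[(15,0),(0,0),(2,0),(6,0)]⟩,⟨1,[(6,0),(2,0)]⟩⟩ ⟨true,0,⟨10,[(2,8),(13,1),(4,0),(7,0),
  (14,4),(1,4)]⟩,⟨1,[(16,0),(3,0),(5,0),(1,0)]⟩⟩ ⟨false,1,⟨0,[(11,0),(19,0),(6,0)]⟩,⟨12,[(4,3),(2,
  2),(1,1),(6,2),(11,1),(1,8),(3,6),(6,0)]⟩⟩,.o ⟨false,0,⟨27,[(4,1),(2,5),(2,11),(5,7),(11,0),(1,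
  25),(2,1),(7,6),(2,1)]⟩,⟨1,[(31,1),(9,0),(5,0)]⟩⟩,.o ⟨false,0,⟨0,[(30,0),(2,0),(2,0)]⟩,⟨0,[(11,0),
  (13,0),(5,0)]⟩⟩]⟩) (.R ⟨0,false,false,true,[0,0,0,1],[1,0,-1],[0,1,1],(⟨0,[(31,0)]⟩,⟨0,[(30,0)]⟩),
  (⟨0,[(39,0)]⟩,⟨0,[(40,0)]⟩),⟨0,[(0,0)]⟩,.k,.k,(.x 0 ⟨3,[(5,0),(2,0),(24,0),(2,3),(0,2)]⟩ ⟨1,[(12,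
  0),(12,0),(14,0),(6,0)]⟩),.k,.k,.k,⟨true,0,⟨6,[(7,1),(1,0),(6,0),(0,0),(2,2),(0,0),(15,1)]⟩,⟨0,
  [(38,0)]⟩⟩,⟨false,1,⟨0,[(11,0),(19,0)]⟩,⟨0,[(30,0),(5,0)]⟩⟩,⟨true,0,⟨1,[(16,0),(3,0),(5,0),(1,
  0)]⟩,⟨0,[(2,0),(43,0)]⟩⟩,⟨false,1,⟨0,[(1,0),(33,0)]⟩,⟨160,[(0,87),(1,53),(1,72),(0,21),(2,21),(0,
  87),(6,55),(4,27),(7,16),(11,10),(2,29)]⟩⟩,⟨false,0,⟨0,[]⟩,⟨0,[]⟩⟩,⟨false,0,⟨0,[]⟩,⟨0,[]⟩⟩,[.o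
  ⟨false,0,⟨0,[(32,0)]⟩,⟨3,[(21,1),(5,1),(13,0),(6,0)]⟩⟩,.a ⟨true,0,⟨1,[(15,0),(0,0),(2,0),(6,0)]⟩,
  ⟨1,[(6,0),(2,0)]⟩⟩ ⟨true,0,⟨1,[(36,0),(0,0)]⟩,⟨0,[]⟩⟩ ⟨false,1,⟨0,[(11,0),(19,0),(6,0)]⟩,⟨50,[(0,
  7),(3,17),(0,1),(1,2),(0,1),(0,5),(6,14),(4,5),(6,8),(1,24),(3,26)]⟩⟩,.o ⟨false,0,⟨10,[(0,3),(3,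
  1),(0,0),(2,0),(1,0),(5,2),(3,0),(7,0),(1,4),(2,2),(7,1)]⟩,⟨1,[(31,1),(9,0),(5,0)]⟩⟩,.o ⟨false,0,
  ⟨0,[(30,0),(2,0),(2,0)]⟩,⟨0,[(11,0),(13,0),(5,0)]⟩⟩]⟩)))) (.Q [0,0,-1,-1,1,0,1,1,-1,0,-1,1] (.p
  false [0,0,1] [0,0,0,1] (⟨0,[(37,0)]⟩,⟨0,[(36,0)]⟩) .k 2 (⟨0,[(28,0)]⟩,⟨0,[(27,0)]⟩) .k (.r (-1)
  ⟨1,[(18,0),(6,0),(21,0)]⟩ ⟨3,[(0,1),(10,1),(1,1),(8,1),(3,0),(1,1),(15,0)]⟩)) (.Q [0,0,0,0,0,-1,0,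
  0,0,1,0,-1] (.p false [0,0,0,1] [1] (⟨0,[(29,0)]⟩,⟨0,[(28,0)]⟩) .k 1 (⟨0,[]⟩,⟨0,[]⟩) .k .k) (.Q
  [0,0,0,0,0,0,-1,-1,0,0,1,-1] (.p true [0,0,1] [0,0,0,1] (⟨0,[(39,0)]⟩,⟨0,[(38,0)]⟩) .k 2 (⟨0,[(30,
  0)]⟩,⟨0,[(29,0)]⟩) .k (.r (-1) ⟨1,[(20,0),(6,0),(21,0)]⟩ ⟨3,[(2,1),(10,1),(1,1),(8,1),(3,0),(1,1),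
  (15,0)]⟩)) (.R ⟨1,false,false,false,[1,0,0,-1],[1,0,-1],[0,1,0,0,0,0,0,0,-1],(⟨0,[(30,0)]⟩,⟨0,
  [(31,0)]⟩),(⟨0,[(39,0)]⟩,⟨0,[(40,0)]⟩),⟨0,[(1,0)]⟩,.k,.k,(.x (-1) ⟨15,[(5,3),(2,3),(19,6),(0,6),
  (11,1)]⟩ ⟨0,[(43,0)]⟩),.k,(.x 0 ⟨1,[(8,0),(16,1),(14,0)]⟩ ⟨3,[(12,1),(15,0),(0,0),(3,1),(2,0),(0,
  0),(1,1)]⟩),.k,⟨false,1,⟨1,[(9,0),(1,0),(14,0),(1,0),(5,0)]⟩,⟨6,[(3,4),(10,5),(1,1),(8,4),(3,0),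
  (1,4),(12,2),(1,6)]⟩⟩,⟨true,0,⟨0,[(30,0),(2,0)]⟩,⟨0,[(25,0),(5,0)]⟩⟩,⟨true,0,⟨0,[(50,0)]⟩,⟨0,[]⟩⟩,
  ⟨false,0,⟨5,[(0,2),(2,1),(7,0),(4,0),(12,1),(0,0),(13,3)]⟩,⟨0,[(2,0),(43,0)]⟩⟩,⟨false,0,⟨0,[(46,
  0)]⟩,⟨9,[(2,1),(1,1),(13,1),(9,0),(0,0),(5,1),(12,5)]⟩⟩,⟨false,0,⟨2,[(3,0),(7,1),(4,1),(12,0),(0,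
  1),(13,1)]⟩,⟨0,[(2,0)]⟩⟩,[.e ⟨false,1,⟨1,[(28,0),(18,0),(2,1)]⟩,⟨0,[(3,0),(5,0),(1,0),(13,0),(5,
  0),(12,0)]⟩⟩ ⟨false,0,⟨0,[(0,0)]⟩,⟨25,[(2,9),(6,9),(1,7),(9,1),(3,11),(3,4),(1,15),(2,1),(6,0)]⟩⟩,
  .o ⟨false,1,⟨0,[(32,0),(15,0)]⟩,⟨0,[(34,0)]⟩⟩,.o ⟨false,1,⟨1,[(31,1),(9,0),(5,0)]⟩,⟨19,[(0,9),(3,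
  1),(2,5),(8,5),(3,7),(7,0),(1,7),(10,4)]⟩⟩,.a ⟨true,0,⟨0,[(31,0)]⟩,⟨0,[(30,0)]⟩⟩ ⟨false,1,⟨1,[(28,
  0),(18,0)]⟩,⟨6,[(3,2),(3,1),(1,0),(1,0),(13,2),(3,1),(1,2),(12,3),(1,1)]⟩⟩ ⟨true,0,⟨0,[(0,0)]⟩,⟨0,
  [(31,0),(2,0)]⟩⟩]⟩) (.R ⟨1,false,false,false,[1,0,0,-1],[1,0,-1],[0,1,0,0,0,0,0,0,-1],(⟨0,[(30,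
  0)]⟩,⟨0,[(31,0)]⟩),(⟨0,[(39,0)]⟩,⟨0,[(40,0)]⟩),⟨0,[(1,0)]⟩,.k,.k,(.x (-1) ⟨15,[(5,3),(2,3),(19,6),
  (0,6),(11,1)]⟩ ⟨0,[(43,0)]⟩),.k,(.x 0 ⟨1,[(8,0),(16,1),(14,0)]⟩ ⟨3,[(12,1),(15,0),(0,0),(3,1),(2,
  0),(0,0),(1,1)]⟩),.k,⟨false,1,⟨1,[(9,0),(1,0),(14,0),(1,0),(5,0)]⟩,⟨17,[(0,9),(2,9),(10,22),(1,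
  16),(2,0),(9,3),(14,1)]⟩⟩,⟨true,0,⟨0,[(30,0),(2,0)]⟩,⟨0,[(0,0),(37,0)]⟩⟩,⟨true,0,⟨0,[(50,0)]⟩,⟨0,
  []⟩⟩,⟨false,0,⟨5,[(3,3),(7,1),(4,1),(12,0),(0,1),(13,1),(3,2)]⟩,⟨1,[(0,1),(27,0),(18,0)]⟩⟩,⟨false,
  0,⟨0,[(46,0)]⟩,⟨9,[(2,1),(1,1),(13,1),(9,0),(0,0),(5,1),(12,5)]⟩⟩,⟨false,0,⟨2,[(3,0),(7,1),(4,1),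
  (12,0),(0,1),(13,1)]⟩,⟨0,[(2,0)]⟩⟩,[.a ⟨true,0,⟨1,[(15,0),(0,0),(2,0),(6,0)]⟩,⟨1,[(6,0),(2,0)]⟩⟩
  ⟨false,1,⟨1,[(28,0),(18,0),(2,1)]⟩,⟨8,[(0,6),(2,6),(10,5),(14,0),(14,4),(1,12)]⟩⟩ ⟨true,0,⟨47,[(3,
  27),(7,5),(4,13),(0,3),(10,13),(1,19),(4,5),(5,4),(6,16)]⟩,⟨0,[(0,0)]⟩⟩,.o ⟨false,1,⟨0,[(32,0),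
  (15,0)]⟩,⟨0,[(34,0)]⟩⟩,.o ⟨false,1,⟨1,[(31,1),(9,0),(5,0)]⟩,⟨17,[(3,0),(0,0),(2,4),(2,6),(5,4),
  (11,0),(1,15),(10,4),(2,0)]⟩⟩,.e ⟨false,1,⟨1,[(28,0),(18,0)]⟩,⟨2,[(0,0),(2,0),(25,0),(14,1),(1,
  0)]⟩⟩ ⟨false,1,⟨0,[(30,0),(1,0),(15,0)]⟩,⟨0,[(0,0)]⟩⟩]⟩)) (.R ⟨0,false,false,true,[1,0,0,-1],[0,
  1],[1,0,1],(⟨0,[(29,0)]⟩,⟨0,[(30,0)]⟩),(⟨0,[(42,0)]⟩,⟨0,[(41,0)]⟩),⟨0,[(0,0)]⟩,.k,.k,(.x (-1) ⟨15,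
  [(4,3),(2,3),(19,6),(0,6),(11,1)]⟩ ⟨0,[(42,0)]⟩),(.x (-1) ⟨15,[(4,3),(2,3),(19,6),(0,6),(11,1)]⟩
  ⟨0,[(42,0)]⟩),.k,.k,⟨false,1,⟨7,[(12,1),(0,1),(4,1),(8,0),(0,0),(18,1)]⟩,⟨0,[(45,0),(3,0)]⟩⟩,
  ⟨true,0,⟨0,[(29,0)]⟩,⟨5,[(0,3),(3,0),(2,0),(22,1),(1,2),(2,2)]⟩⟩,⟨false,0,⟨33,[(0,11),(1,11),(1,
  2),(1,1),(0,2),(0,9),(1,0),(13,2),(3,10),(14,21),(1,1)]⟩,⟨1,[(27,0),(18,0)]⟩⟩,⟨true,(-1),⟨0,[(2,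
  0),(5,0),(36,0)]⟩,⟨6,[(0,3),(0,2),(2,0),(2,0),(1,0),(0,1),(7,1),(3,0),(4,1)]⟩⟩,⟨false,0,⟨0,[]⟩,⟨0,
  []⟩⟩,⟨false,0,⟨0,[]⟩,⟨0,[]⟩⟩,[.o ⟨false,0,⟨0,[(45,0),(3,0)]⟩,⟨26,[(1,2),(1,2),(8,1),(4,5),(0,1),
  (21,11),(2,3),(3,9)]⟩⟩,.o ⟨false,0,⟨0,[(45,0)]⟩,⟨27,[(1,3),(1,3),(13,7),(9,4),(0,4),(11,11),(6,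
  1)]⟩⟩,.o ⟨false,1,⟨1,[(30,1),(9,0),(5,0)]⟩,⟨17,[(2,0),(0,0),(2,4),(2,6),(5,4),(11,0),(1,15),(10,
  4),(2,0)]⟩⟩,.a ⟨true,0,⟨0,[(30,0)]⟩,⟨0,[(29,0)]⟩⟩ ⟨true,0,⟨0,[]⟩,⟨0,[(49,0)]⟩⟩ ⟨false,0,⟨0,[(29,
  0),(15,0)]⟩,⟨23,[(1,5),(10,1),(4,5),(0,1),(9,2),(1,17),(9,8),(2,9),(3,3)]⟩⟩]⟩)) (.K ⟨0,[0,0,0,1],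
  0,(-1),(⟨0,[(29,0)]⟩,⟨0,[(28,0)]⟩),.k,(.r 0 ⟨0,[(0,0),(10,0),(11,0),(5,0)]⟩ ⟨7,[(14,3),(4,1),(6,
  6),(0,2),(20,1)]⟩),(.x 0 ⟨0,[(41,0)]⟩ ⟨15,[(3,3),(2,3),(19,6),(0,6),(11,1)]⟩),.k,.k,[⟨0,[(29,0)]⟩,
  ⟨0,[(28,0)]⟩,⟨1,[(26,0),(2,1),(15,0),(2,1)]⟩,⟨0,[(0,0),(17,0)]⟩]⟩))) (.Q [0,-1,-1,1,0,0,-1,-1,-1,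
  -1,1,1] (.p true [0,0,1] [1,0,0,-1] (⟨0,[(36,0)]⟩,⟨0,[(35,0)]⟩) .k 2 (⟨0,[(26,0)]⟩,⟨0,[(27,0)]⟩)
  .k (.r (-1) ⟨1,[(17,0),(7,0),(20,0)]⟩ ⟨4,[(0,2),(1,0),(3,0),(5,0),(2,3),(0,1),(7,0),(1,2),(13,
  0)]⟩)) (.R ⟨1,false,false,false,[0,-1,1],[1,0,0,-1],[0,0,-1,-1,0,0,0,1],(⟨0,[(21,0)]⟩,⟨0,[(36,0),
  (3,0)]⟩),(⟨0,[(27,0)]⟩,⟨0,[(28,0)]⟩),⟨0,[(5,0)]⟩,.k,.k,(.x 0 ⟨1,[(5,1),(27,2),(0,0)]⟩ ⟨0,[(9,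
  0)]⟩),(.r (-2) ⟨17,[(10,6),(1,1),(4,2),(0,3),(4,0),(1,6),(0,15)]⟩ ⟨0,[(0,0),(2,0),(3,0),(5,0),(13,
  0)]⟩),(.r (-2) ⟨3,[(10,3),(14,0),(0,2)]⟩ ⟨33,[(0,19),(2,4),(0,4),(8,40),(0,0),(0,3),(1,20),(7,6),
  (1,19)]⟩),.k,⟨false,2,⟨5,[(10,2),(1,0),(5,0),(6,0),(0,3),(4,0),(12,1)]⟩,⟨0,[(0,0),(2,0),(3,0),(5,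
  0),(13,0)]⟩⟩,⟨true,1,⟨0,[(8,0),(19,0)]⟩,⟨6,[(3,2),(0,1),(8,6),(1,2),(1,4),(9,6),(5,1),(7,2)]⟩⟩,
  ⟨false,1,⟨3,[(25,0),(0,0),(18,1)]⟩,⟨0,[]⟩⟩,⟨false,0,⟨0,[(0,0)]⟩,⟨27,[(3,7),(11,7),(1,3),(0,11),(6,
  0),(0,14),(0,27),(5,25),(0,1)]⟩⟩,⟨true,0,⟨0,[(43,0)]⟩,⟨0,[(42,0)]⟩⟩,⟨false,0,⟨0,[(0,0),(42,0)]⟩,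
  ⟨21,[(3,13),(11,13),(1,1),(0,9),(7,10),(0,21),(5,19),(7,1),(3,0)]⟩⟩,[.o ⟨false,0,⟨0,[(0,0),(16,
  0)]⟩,⟨7,[(25,0),(0,4),(0,7),(2,3),(2,3),(4,1)]⟩⟩,.a ⟨true,0,⟨0,[(0,0),(2,0)]⟩,⟨1,[(13,0),(3,0),(5,
  0),(2,0),(0,1)]⟩⟩ ⟨true,1,⟨6,[(10,2),(0,0),(6,1),(22,0),(3,0)]⟩,⟨0,[(13,0),(28,0)]⟩⟩ ⟨false,1,⟨2,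
  [(0,2),(5,0),(1,0),(1,1)]⟩,⟨3,[(13,1),(3,1),(8,1),(0,3),(5,2),(0,0),(7,1)]⟩⟩,.o ⟨false,0,⟨0,[(33,
  0)]⟩,⟨4,[(12,2),(1,0),(23,1)]⟩⟩,.o ⟨false,0,⟨1,[(33,2),(0,0)]⟩,⟨0,[(8,0)]⟩⟩]⟩) (.Q [0,-1,1,-1,0,0,
  1,1,1,1,-1,-1] (.p false [0,0,1] [1,0,0,-1] (⟨0,[(37,0)]⟩,⟨0,[(36,0)]⟩) .k 2 (⟨0,[(27,0)]⟩,⟨0,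
  [(28,0)]⟩) .k (.r (-1) ⟨35,[(0,3),(0,3),(16,15),(4,3),(1,0),(0,18),(4,3)]⟩ ⟨4,[(1,2),(1,0),(3,0),
  (5,0),(2,3),(0,1),(7,0),(1,2),(13,0)]⟩)) (.Q [0,0,0,0,0,-1,0,0,0,0,0,1] (.p true [0,0,0,1] [] (⟨0,
  [(29,0)]⟩,⟨0,[(28,0)]⟩) .k 0 (⟨0,[]⟩,⟨0,[]⟩) .k .k) (.R ⟨1,false,false,true,[0,0,0,1],[1,1,-1],[0,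
  1,1],(⟨0,[(30,0)]⟩,⟨0,[(29,0)]⟩),(⟨0,[(38,0),(3,0)]⟩,⟨0,[(23,0)]⟩),⟨0,[(0,0)]⟩,.k,.k,(.r (-1) ⟨7,
  [(12,1),(0,1),(3,0),(8,0),(1,3),(5,0)]⟩ ⟨4,[(3,0),(2,1),(8,1),(3,0),(7,1),(1,0)]⟩),(.r (-1) ⟨11,
  [(1,5),(6,0),(1,6),(1,1),(12,2),(2,2),(1,5),(2,2)]⟩ ⟨1,[(15,0),(11,0),(9,0)]⟩),(.r (-2) ⟨3,[(12,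
  3),(14,0),(0,2)]⟩ ⟨0,[(3,0),(1,0),(3,0),(5,0),(13,0),(13,0)]⟩),.k,⟨false,1,⟨35,[(12,13),(1,3),(4,
  5),(0,7),(4,1),(1,4),(0,4)]⟩,⟨1,[(15,0),(21,0),(8,0)]⟩⟩,⟨true,1,⟨0,[(10,0),(19,0)]⟩,⟨16,[(1,3),(3,
  6),(0,1),(8,18),(1,6),(1,12),(7,1),(1,12),(13,6)]⟩⟩,⟨false,0,⟨10,[(3,2),(1,4),(0,5),(2,2),(5,3),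
  (1,1),(0,1),(8,3),(1,2)]⟩,⟨2,[(1,0),(8,0),(2,1),(1,0),(12,0),(1,0),(14,0)]⟩⟩,⟨false,1,⟨17,[(3,13),
  (9,1),(3,3),(9,4),(0,2),(1,3),(16,7)]⟩,⟨0,[(1,0)]⟩⟩,⟨false,0,⟨4,[(3,0),(2,1),(8,1),(3,0),(7,1),(1,
  0)]⟩,⟨2,[(1,0),(8,0),(2,0),(4,0),(9,0),(1,0)]⟩⟩,⟨true,0,⟨0,[(3,0)]⟩,⟨2,[(1,1),(0,0),(2,0),(11,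
  0)]⟩⟩,[.o ⟨false,0,⟨4,[(2,0),(0,0),(6,1),(4,1),(15,2)]⟩,⟨0,[(19,0),(27,0)]⟩⟩,.a ⟨true,0,⟨3,[(14,
  2),(0,2),(2,0),(6,0)]⟩,⟨0,[(5,0)]⟩⟩ ⟨true,0,⟨1,[(35,0),(0,0)]⟩,⟨0,[]⟩⟩ ⟨false,1,⟨5,[(3,3),(6,1),
  (2,2),(1,0),(2,0),(9,1),(1,1)]⟩,⟨16,[(1,5),(3,1),(0,2),(8,2),(1,1),(1,10),(7,2),(1,10),(13,1)]⟩⟩,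
  .o ⟨false,0,⟨21,[(1,1),(4,3),(2,9),(5,5),(11,0),(1,19),(2,1),(7,4),(2,1)]⟩,⟨1,[(30,1),(9,0),(5,
  0)]⟩⟩,.o ⟨false,0,⟨29,[(1,11),(0,5),(6,1),(5,13),(1,3),(9,8),(1,11),(2,13),(7,4)]⟩,⟨0,[(10,0),(13,
  0),(5,0)]⟩⟩]⟩) (.R ⟨1,false,false,false,[1,0,0,-1],[0,1],[0,0,0,0,0,0,0,0,-1],(⟨0,[(29,0)]⟩,⟨0,
  [(30,0)]⟩),(⟨0,[(42,0)]⟩,⟨0,[(41,0)]⟩),⟨2,[(0,0),(3,0),(2,0),(21,1)]⟩,.k,.k,(.x (-1) ⟨15,[(4,3),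
  (2,3),(19,6),(0,6),(11,1)]⟩ ⟨0,[(42,0)]⟩),(.x (-1) ⟨15,[(4,3),(2,3),(19,6),(0,6),(11,1)]⟩ ⟨0,[(42,
  0)]⟩),(.r (-1) ⟨35,[(0,15),(2,17),(0,3),(0,14),(1,3),(4,26),(4,2),(0,26),(0,5),(7,8),(1,1)]⟩ ⟨59,
  [(2,7),(0,7),(11,55),(4,23),(6,0),(0,30),(4,7),(2,7)]⟩),.k,⟨false,1,⟨23,[(0,7),(2,11),(0,1),(0,5),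
  (1,1),(4,14),(0,2),(4,8),(5,5),(2,5),(1,3)]⟩,⟨3,[(1,1),(8,1),(4,2),(9,0),(2,0),(1,1),(2,0),(11,
  0)]⟩⟩,⟨true,0,⟨0,[(29,0)]⟩,⟨8,[(6,1),(2,3),(5,1),(14,8),(1,0),(2,0),(4,1),(2,0)]⟩⟩,⟨false,1,⟨3,
  [(27,0),(0,0),(18,1)]⟩,⟨0,[]⟩⟩,⟨false,0,⟨0,[(1,0),(12,0),(0,0)]⟩,⟨24,[(3,6),(5,9),(2,11),(5,4),(5,
  6),(2,8),(2,17),(9,3),(2,5)]⟩⟩,⟨true,0,⟨0,[(45,0)]⟩,⟨0,[(44,0)]⟩⟩,⟨false,0,⟨0,[(1,0),(12,0),(0,0),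
  (29,0)]⟩,⟨49,[(3,7),(5,39),(2,27),(5,19),(5,7),(2,20),(2,41),(9,0),(2,13)]⟩⟩,[.o ⟨false,0,⟨0,[(45,
  0)]⟩,⟨5,[(17,1),(1,1),(7,0),(0,0),(11,1),(6,1)]⟩⟩,.o ⟨false,1,⟨5,[(8,1),(5,1),(0,1),(11,0),(0,0),
  (11,0),(6,2)]⟩,⟨0,[(9,0)]⟩⟩,.o ⟨false,1,⟨1,[(30,1),(9,0),(5,0)]⟩,⟨23,[(0,7),(0,5),(2,1),(2,1),(1,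
  5),(5,5),(11,2),(1,9),(2,5),(7,2)]⟩⟩,.a ⟨true,0,⟨0,[(30,0)]⟩,⟨0,[(29,0)]⟩⟩ ⟨false,1,⟨45,[(0,7),(2,
  7),(0,1),(2,1),(0,7),(1,1),(2,23),(10,1),(2,18),(15,13),(3,0)]⟩,⟨3,[(1,1),(7,0),(0,0),(4,1),(9,0),
  (2,0),(1,1)]⟩⟩ ⟨true,0,⟨0,[(29,0),(15,0)]⟩,⟨0,[(9,0),(20,0)]⟩⟩]⟩)) (.Q [0,-1,-1,2,0,0,-1,-1,-1,-1,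
  1,1] (.p true [0,0,1] [1,0,0,-1] (⟨0,[(38,0)]⟩,⟨0,[(37,0)]⟩) .k 2 (⟨0,[(28,0)]⟩,⟨0,[(29,0)]⟩) .k
  (.r (-1) ⟨35,[(1,3),(0,3),(16,15),(4,3),(1,0),(0,18),(4,3)]⟩ ⟨4,[(0,2),(13,0),(2,2),(0,1),(4,0),
  (2,0),(1,2),(13,0)]⟩)) (.R ⟨1,true,false,false,[0,-1,1],[1,0,0,-1],[1,0,-1,-2,0,0,0,1],(⟨0,[(23,
  0)]⟩,⟨0,[(38,0),(3,0)]⟩),(⟨0,[(29,0)]⟩,⟨0,[(30,0)]⟩),⟨0,[(7,0)]⟩,.k,.k,(.x 0 ⟨1,[(7,1),(27,2),(0,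
  0)]⟩ ⟨0,[(11,0)]⟩),(.x 0 ⟨1,[(7,0),(27,2),(0,0),(2,0)]⟩ ⟨3,[(4,0),(5,0),(0,2)]⟩),(.r (-2) ⟨3,[(12,
  3),(14,0),(0,2)]⟩ ⟨26,[(0,16),(4,8),(0,4),(8,31),(1,8),(1,16),(7,4),(1,16),(13,1)]⟩),.k,⟨false,2,
  ⟨3,[(12,3),(14,0),(0,2)]⟩,⟨0,[(0,0),(4,0),(3,0),(5,0),(13,0)]⟩⟩,⟨true,1,⟨0,[(10,0),(19,0)]⟩,⟨28,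
  [(2,3),(2,10),(0,1),(8,30),(1,10),(1,24),(7,1),(1,24),(13,18)]⟩⟩,⟨false,1,⟨5,[(5,1),(11,1),(9,0),
  (0,0),(18,3)]⟩,⟨0,[(45,0)]⟩⟩,⟨true,0,⟨4,[(0,2),(0,1),(3,0),(11,0)]⟩,⟨0,[(2,0)]⟩⟩,⟨true,0,⟨0,[]⟩,
  ⟨0,[(49,0)]⟩⟩,⟨false,0,⟨0,[(0,0)]⟩,⟨5,[(2,5),(2,1),(11,1),(9,0),(0,0),(18,3)]⟩⟩,[]⟩) (.K ⟨0,[0,0,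
  0,1],0,0,(⟨0,[(30,0)]⟩,⟨0,[(29,0)]⟩),.k,(.r (-1) ⟨7,[(12,1),(0,1),(3,0),(8,0),(1,3),(5,0)]⟩ ⟨4,
  [(3,0),(2,1),(8,1),(3,0),(7,1),(1,0)]⟩),(.x 0 ⟨0,[(42,0)]⟩ ⟨15,[(4,3),(2,3),(19,6),(0,6),(11,
  1)]⟩),.k,.k,[⟨0,[(30,0)]⟩,⟨0,[(29,0)]⟩,⟨0,[(1,0),(3,0)]⟩,⟨0,[(0,0),(9,0),(4,0)]⟩]⟩))))))))) (.I
  [1,-1,0,0,0,0,0,0,-1] (.Q [0,-1,-1,0,0,0,0,0,-1,0,0,1] (.p true [0,0,0,1] [] (⟨0,[(23,0)]⟩,⟨0,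
  [(22,0)]⟩) .k 0 (⟨0,[]⟩,⟨0,[]⟩) .k .k) (.Q [0,0,0,0,0,2,0,0,0,0,-1] (.p false [0,0,1] [] (⟨0,[(33,
  0)]⟩,⟨0,[(32,0)]⟩) .k 0 (⟨0,[]⟩,⟨0,[]⟩) .k .k) (.R ⟨0,false,false,true,[0,-1,1],[0,0,0,1],[1],(⟨0,
  [(18,0)]⟩,⟨1,[(0,0),(23,0),(0,0),(7,0)]⟩),(⟨0,[(25,0)]⟩,⟨0,[(24,0)]⟩),⟨0,[(0,0)]⟩,.k,.k,(.x 0 ⟨1,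
  [(16,0),(1,2),(8,0),(2,2)]⟩ ⟨0,[(6,0)]⟩),(.r (-1) ⟨31,[(2,9),(4,12),(1,2),(5,4),(4,5),(1,10),(5,
  8)]⟩ ⟨1,[(10,0),(12,0),(8,0)]⟩),.k,.k,⟨true,0,⟨0,[(2,0)]⟩,⟨1,[(10,0),(3,0),(5,0),(2,0)]⟩⟩,⟨false,
  1,⟨4,[(9,2),(1,0),(12,4),(10,1)]⟩,⟨0,[(19,0),(5,0)]⟩⟩,⟨false,0,⟨1,[(10,0),(21,0),(9,0)]⟩,⟨35,[(7,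
  13),(1,3),(4,5),(0,7),(4,1),(1,4),(0,4)]⟩⟩,⟨true,0,⟨1,[(4,0),(0,0),(4,1),(9,0),(2,0),(0,1)]⟩,⟨0,
  [(1,0),(12,0)]⟩⟩,⟨false,0,⟨0,[]⟩,⟨0,[]⟩⟩,⟨false,0,⟨0,[]⟩,⟨0,[]⟩⟩,[.a ⟨true,0,⟨1,[(10,0),(3,0),(5,
  0),(2,0),(0,1)]⟩,⟨0,[(1,0)]⟩⟩ ⟨true,0,⟨0,[]⟩,⟨1,[(30,0),(0,0)]⟩⟩ ⟨false,1,⟨5,[(4,0),(0,4),(4,1),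
  (9,2),(2,2),(0,5),(3,1)]⟩,⟨0,[(1,0),(28,0)]⟩⟩,.o ⟨false,1,⟨7,[(22,0),(0,4),(0,7),(2,3),(2,3),(4,
  1)]⟩,⟨2,[(1,2),(2,1),(0,0),(4,0),(17,0)]⟩⟩,.o ⟨false,0,⟨0,[(30,0)]⟩,⟨4,[(9,2),(1,0),(23,1)]⟩⟩,.o
  ⟨false,0,⟨1,[(30,2),(0,0)]⟩,⟨0,[(5,0)]⟩⟩]⟩) (.R ⟨1,false,false,false,[0,-1,1],[1,0,0,-1],[0,0,-1,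
  -1,0,0,0,1],(⟨0,[(18,0)]⟩,⟨0,[(33,0),(3,0)]⟩),(⟨0,[(24,0)]⟩,⟨0,[(25,0)]⟩),⟨0,[(0,0)]⟩,.k,.k,(.x 0
  ⟨1,[(0,1),(29,2),(0,0)]⟩ ⟨0,[(6,0)]⟩),(.r (-2) ⟨17,[(7,6),(1,1),(4,2),(0,3),(4,0),(1,6),(0,15)]⟩
  ⟨0,[(1,0),(2,0),(5,0),(13,0)]⟩),(.r (-2) ⟨3,[(7,3),(14,0),(0,2)]⟩ ⟨0,[(2,0),(7,0),(33,0)]⟩),.k,
  ⟨false,2,⟨5,[(7,2),(1,0),(5,0),(6,0),(0,3),(4,0),(12,1)]⟩,⟨0,[(1,0),(2,0),(5,0),(13,0)]⟩⟩,⟨true,1,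
  ⟨0,[(5,0),(19,0)]⟩,⟨0,[(10,0),(3,0),(9,0),(13,0),(0,0)]⟩⟩,⟨false,1,⟨3,[(22,0),(0,0),(18,1)]⟩,⟨0,
  []⟩⟩,⟨false,0,⟨2,[(1,2),(1,0),(1,1),(4,1)]⟩,⟨9,[(14,1),(0,3),(7,4),(0,9),(5,7),(7,1),(0,7),(2,
  0)]⟩⟩,⟨true,0,⟨0,[(40,0)]⟩,⟨0,[(39,0)]⟩⟩,⟨false,0,⟨0,[(1,0),(3,0),(4,0)]⟩,⟨9,[(14,5),(0,1),(7,4),
  (0,9),(5,3),(7,5),(0,13),(2,2)]⟩⟩,[.o ⟨false,0,⟨2,[(1,2),(2,1),(0,0),(4,0),(17,0)]⟩,⟨7,[(22,0),(0,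
  4),(0,7),(2,3),(2,3),(4,1)]⟩⟩,.a ⟨true,0,⟨0,[(1,0)]⟩,⟨1,[(10,0),(3,0),(5,0),(2,0),(0,1)]⟩⟩ ⟨true,
  1,⟨6,[(7,2),(0,0),(6,1),(22,0),(3,0)]⟩,⟨0,[(10,0),(28,0)]⟩⟩ ⟨false,1,⟨0,[(1,0),(3,0)]⟩,⟨3,[(10,1),
  (3,1),(8,1),(0,3),(5,2),(0,0),(7,1)]⟩⟩,.o ⟨false,0,⟨0,[(30,0)]⟩,⟨4,[(9,2),(1,0),(23,1)]⟩⟩,.o
  ⟨false,0,⟨1,[(30,2),(0,0)]⟩,⟨0,[(5,0)]⟩⟩]⟩)) (.Q [0,1,-1,0,0,0,0,0,-1,0,0,1] (.p true [0,0,0,1]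
  [] (⟨0,[(24,0)]⟩,⟨0,[(23,0)]⟩) .k 0 (⟨0,[]⟩,⟨0,[]⟩) .k .k) (.K ⟨0,[0,0,0,1],0,0,(⟨0,[(25,0)]⟩,⟨0,
  [(24,0)]⟩),.k,(.r (-1) ⟨7,[(7,1),(0,1),(3,0),(8,0),(1,3),(5,0)]⟩ ⟨27,[(0,2),(1,4),(7,13),(0,2),(3,
  3),(6,9),(1,2),(3,5)]⟩),(.x 0 ⟨0,[(37,0)]⟩ ⟨7,[(16,3),(1,3),(3,2),(0,2),(11,1)]⟩),.k,.k,[⟨0,[(25,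
  0)]⟩,⟨0,[(24,0)]⟩,⟨0,[(0,0)]⟩,⟨0,[(1,0)]⟩]⟩) (.Q [0,0,0,0,0,1,0,0,0,-1,0,1] (.p true [0,0,0,1]
  [1] (⟨0,[(25,0)]⟩,⟨0,[(24,0)]⟩) .k 1 (⟨0,[]⟩,⟨0,[]⟩) .k .k) (.R ⟨0,false,false,false,[1,0,0,-1],
  [0,1],[1,0,0,0,0,0,0,0,-1],(⟨0,[(25,0)]⟩,⟨0,[(26,0)]⟩),(⟨0,[(38,0)]⟩,⟨0,[(37,0)]⟩),⟨0,[(0,0)]⟩,.k,
  .k,(.x (-1) ⟨7,[(17,3),(1,3),(3,2),(0,2),(11,1)]⟩ ⟨0,[(38,0)]⟩),(.x (-1) ⟨7,[(17,3),(1,3),(3,2),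
  (0,2),(11,1)]⟩ ⟨0,[(38,0)]⟩),.k,.k,⟨false,1,⟨0,[(3,0),(36,0),(1,0)]⟩,⟨3,[(1,1),(9,0),(9,0),(2,0),
  (1,1),(2,0),(11,2)]⟩⟩,⟨true,0,⟨0,[(25,0)]⟩,⟨3,[(5,0),(5,0),(3,0),(10,3),(1,0),(7,0),(2,0)]⟩⟩,
  ⟨true,0,⟨0,[]⟩,⟨0,[(45,0)]⟩⟩,⟨false,0,⟨0,[(1,0),(23,0),(0,0),(14,0)]⟩,⟨7,[(3,1),(1,4),(0,0),(2,2),
  (10,0),(2,2),(2,7),(9,0)]⟩⟩,⟨false,0,⟨0,[]⟩,⟨0,[]⟩⟩,⟨false,0,⟨0,[]⟩,⟨0,[]⟩⟩,[.o ⟨false,0,⟨0,[(41,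
  0)]⟩,⟨5,[(13,1),(1,1),(7,0),(0,0),(11,1),(6,1)]⟩⟩,.o ⟨false,1,⟨3,[(23,0),(0,0),(16,3),(1,1)]⟩,⟨0,
  [(5,0)]⟩⟩,.o ⟨false,1,⟨1,[(26,1),(9,0),(5,0)]⟩,⟨0,[(2,0),(0,0)]⟩⟩,.a ⟨true,0,⟨0,[(26,0)]⟩,⟨0,[(25,
  0)]⟩⟩ ⟨false,1,⟨3,[(3,1),(19,0),(18,1),(0,0)]⟩,⟨3,[(1,1),(9,0),(3,0),(5,0),(2,0),(1,1)]⟩⟩ ⟨true,0,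
  ⟨0,[(25,0),(15,0)]⟩,⟨0,[(5,0),(20,0)]⟩⟩]⟩) (.R ⟨1,false,false,false,[1,0,0,-1],[0,1],[0,0,0,0,0,0,
  0,0,-1],(⟨0,[(25,0)]⟩,⟨0,[(26,0)]⟩),(⟨0,[(38,0)]⟩,⟨0,[(37,0)]⟩),⟨0,[(0,0)]⟩,.k,.k,(.x (-1) ⟨7,
  [(17,3),(1,3),(3,2),(0,2),(11,1)]⟩ ⟨0,[(38,0)]⟩),(.x (-1) ⟨7,[(17,3),(1,3),(3,2),(0,2),(11,1)]⟩
  ⟨0,[(38,0)]⟩),(.r (-1) ⟨3,[(3,3),(4,1),(4,0),(8,0),(7,0),(9,1),(1,1)]⟩ ⟨1,[(11,1),(4,0),(7,0),(20,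
  0)]⟩),.k,⟨false,1,⟨0,[(3,0),(36,0),(1,0)]⟩,⟨3,[(1,1),(9,0),(9,0),(2,0),(1,1),(2,0),(11,2)]⟩⟩,
  ⟨true,0,⟨0,[(25,0)]⟩,⟨3,[(5,0),(5,0),(3,0),(10,3),(1,0),(7,0),(2,0)]⟩⟩,⟨false,1,⟨3,[(23,0),(0,0),
  (18,1)]⟩,⟨0,[]⟩⟩,⟨false,0,⟨0,[(1,0),(23,0),(0,0),(14,0)]⟩,⟨7,[(3,1),(1,4),(0,0),(2,2),(10,0),(2,
  2),(2,7),(9,0)]⟩⟩,⟨true,0,⟨0,[(41,0)]⟩,⟨0,[(40,0)]⟩⟩,⟨false,0,⟨0,[(1,0),(23,0),(0,0),(14,1)]⟩,⟨7,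
  [(3,1),(1,5),(2,2),(0,0),(4,2),(8,2),(2,7),(9,0)]⟩⟩,[.o ⟨false,0,⟨0,[(41,0)]⟩,⟨5,[(13,1),(1,1),(7,
  0),(0,0),(11,1),(6,1)]⟩⟩,.o ⟨false,1,⟨3,[(23,0),(0,0),(16,3),(1,1)]⟩,⟨0,[(5,0)]⟩⟩,.o ⟨false,1,⟨1,
  [(26,1),(9,0),(5,0)]⟩,⟨0,[(2,0),(0,0)]⟩⟩,.a ⟨true,0,⟨0,[(26,0)]⟩,⟨0,[(25,0)]⟩⟩ ⟨false,1,⟨3,[(3,1),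
  (19,0),(18,1),(0,0)]⟩,⟨3,[(1,1),(9,0),(3,0),(5,0),(2,0),(1,1)]⟩⟩ ⟨true,0,⟨0,[(25,0),(15,0)]⟩,⟨0,
  [(5,0),(20,0)]⟩⟩]⟩)))) (.Q [0,0,0,0,0,-1,0,0,0,1,0,-1] (.p false [0,0,0,1] [1] (⟨0,[(23,0)]⟩,⟨0,
  [(22,0)]⟩) .k 1 (⟨0,[]⟩,⟨0,[]⟩) .k .k) (.I [0,0,1,1,0,0,0,0,-1] (.R ⟨1,false,false,false,[1,0,0,
  -1],[1,0,-1],[0,0,0,0,0,0,0,0,-1],(⟨0,[(24,0)]⟩,⟨0,[(25,0)]⟩),(⟨0,[(33,0)]⟩,⟨0,[(34,0)]⟩),⟨0,[(1,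
  0)]⟩,.k,.k,(.x (-1) ⟨7,[(16,3),(1,3),(3,2),(0,2),(11,1)]⟩ ⟨0,[(37,0)]⟩),.k,(.r (-1) ⟨0,[(0,0),(6,
  0)]⟩ ⟨1,[(10,0),(12,0),(8,0)]⟩),.k,⟨false,1,⟨0,[(0,0),(6,0),(32,0)]⟩,⟨1,[(2,1),(5,0),(1,0),(2,
  0)]⟩⟩,⟨true,0,⟨0,[(24,0),(2,0)]⟩,⟨0,[(19,0),(5,0)]⟩⟩,⟨false,1,⟨3,[(22,0),(0,0),(18,1)]⟩,⟨0,[]⟩⟩,
  ⟨false,0,⟨2,[(2,2),(0,1),(1,0),(4,0),(13,2),(13,2)]⟩,⟨0,[(0,0),(7,0),(16,0),(2,0)]⟩⟩,⟨true,0,⟨0,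
  [(40,0)]⟩,⟨0,[(39,0)]⟩⟩,⟨false,0,⟨2,[(2,2),(0,0),(1,1),(4,1),(13,2),(13,2)]⟩,⟨0,[(0,0),(6,0),(11,
  0),(5,0)]⟩⟩,[.o ⟨false,0,⟨2,[(3,1),(1,0),(4,0)]⟩,⟨11,[(15,3),(5,3),(0,2),(0,2),(4,3),(6,1)]⟩⟩,.o
  ⟨false,1,⟨0,[(26,0),(15,0)]⟩,⟨0,[(28,0)]⟩⟩,.o ⟨false,1,⟨1,[(25,1),(9,0),(5,0)]⟩,⟨3,[(4,0),(5,0),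
  (3,0),(9,3),(2,0),(7,0),(2,0)]⟩⟩,.a ⟨true,0,⟨0,[(25,0)]⟩,⟨0,[(24,0)]⟩⟩ ⟨false,1,⟨0,[(0,0),(7,0)]⟩,
  ⟨5,[(2,3),(7,0),(3,0),(8,0),(7,0),(6,2),(0,0)]⟩⟩ ⟨true,0,⟨2,[(3,1),(1,0),(4,0),(13,2)]⟩,⟨0,[(25,
  0),(2,0)]⟩⟩]⟩) (.Q [0,0,-1,-2,1,0,0,0,-1,-1,0,1] (.p true [0,0,0,1] [1] (⟨0,[(25,0)]⟩,⟨0,[(24,
  0)]⟩) .k 1 (⟨0,[]⟩,⟨0,[]⟩) .k .k) (.Q [0,-1,-1,0,1,0,-1,-1,-1,-1,1,1] (.p true [0,0,1] [1,0,0,-1]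
  (⟨0,[(35,0)]⟩,⟨0,[(34,0)]⟩) .k 2 (⟨0,[(25,0)]⟩,⟨0,[(26,0)]⟩) .k (.r 0 ⟨1,[(1,1),(10,0),(12,0),(0,
  0),(2,1),(9,0),(1,1)]⟩ ⟨3,[(23,2),(0,0),(8,3)]⟩)) (.R ⟨1,false,false,true,[1,0,0,-1],[0,-1,1],[0,
  1,0,0,0,0,0,0,-1],(⟨0,[(26,0)]⟩,⟨0,[(27,0)]⟩),(⟨0,[(20,0)]⟩,⟨0,[(35,0),(3,0)]⟩),⟨0,[(3,0)]⟩,.k,.k,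
  (.x (-1) ⟨7,[(18,3),(1,3),(3,2),(0,2),(11,1)]⟩ ⟨0,[(39,0)]⟩),(.r 0 ⟨1,[(12,0),(11,0),(9,0)]⟩ ⟨6,
  [(2,0),(1,1),(4,2),(7,1),(7,1)]⟩),.k,.k,⟨true,0,⟨1,[(12,0),(11,0),(9,0)]⟩,⟨1,[(2,1),(10,0),(12,0),
  (0,0),(2,1),(9,0)]⟩⟩,⟨false,0,⟨0,[(26,0),(5,0)]⟩,⟨0,[(7,0),(19,0)]⟩⟩,⟨true,0,⟨0,[(46,0)]⟩,⟨0,[]⟩⟩,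
  ⟨false,0,⟨0,[(4,0),(11,0),(9,0),(13,0)]⟩,⟨0,[(0,0),(41,0)]⟩⟩,⟨false,0,⟨0,[(42,0)]⟩,⟨0,[(41,0),(2,
  0)]⟩⟩,⟨false,0,⟨10,[(2,4),(9,5),(3,6),(0,2),(7,2),(0,10),(3,3),(9,3)]⟩,⟨0,[(0,0)]⟩⟩,[.o ⟨false,0,
  ⟨0,[(16,0)]⟩,⟨3,[(7,1),(4,1),(18,1),(5,0),(6,2)]⟩⟩,.o ⟨false,1,⟨3,[(16,3),(7,0),(0,0),(18,1)]⟩,⟨2,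
  [(5,0),(1,1),(4,1)]⟩⟩,.o ⟨false,1,⟨1,[(27,1),(9,0),(5,0)]⟩,⟨3,[(6,0),(5,0),(3,0),(9,3),(2,0),(7,
  0),(2,0)]⟩⟩,.a ⟨true,0,⟨0,[(27,0)]⟩,⟨0,[(26,0)]⟩⟩ ⟨false,1,⟨1,[(24,0),(18,0)]⟩,⟨0,[(4,0),(35,
  0)]⟩⟩ ⟨true,0,⟨0,[(16,0),(9,0)]⟩,⟨2,[(5,0),(1,1),(4,1),(14,2)]⟩⟩]⟩) (.K ⟨0,[0,0,0,1],0,(-1),(⟨0,
  [(27,0)]⟩,⟨0,[(26,0)]⟩),.k,(.r 0 ⟨0,[(0,0),(4,0),(3,0),(5,0),(11,0),(14,2)]⟩ ⟨7,[(12,3),(4,1),(6,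
  6),(0,2),(20,1)]⟩),(.x 0 ⟨0,[(39,0)]⟩ ⟨7,[(18,3),(1,3),(3,2),(0,2),(11,1)]⟩),.k,.k,[⟨0,[(27,0)]⟩,
  ⟨0,[(26,0)]⟩,⟨1,[(24,0),(2,1),(15,0),(2,1)]⟩,⟨2,[(0,2),(4,1),(1,0),(4,0)]⟩]⟩)) (.K ⟨0,[0,0,0,1],0,
  (-1),(⟨0,[(26,0)]⟩,⟨0,[(25,0)]⟩),.k,(.r 0 ⟨0,[(0,0),(3,0),(3,0),(5,0),(0,0),(10,0),(14,1)]⟩ ⟨7,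
  [(11,3),(4,1),(6,6),(0,2),(20,1)]⟩),(.x 0 ⟨0,[(38,0)]⟩ ⟨7,[(17,3),(1,3),(3,2),(0,2),(11,1)]⟩),.k,
  .k,[⟨0,[(26,0)]⟩,⟨0,[(25,0)]⟩,⟨1,[(23,0),(2,1),(15,0),(2,1)]⟩,⟨0,[(0,0),(3,0),(10,0)]⟩]⟩))) (.I
  [0,0,0,-1,0,0,0,-1,-1] (.R ⟨0,false,false,false,[1,0,0,-1],[0,1],[1,0,0,0,0,0,0,0,-1],(⟨0,[(24,
  0)]⟩,⟨0,[(25,0)]⟩),(⟨0,[(37,0)]⟩,⟨0,[(36,0)]⟩),⟨0,[(1,0)]⟩,.k,.k,(.x (-1) ⟨7,[(16,3),(1,3),(3,2),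
  (0,2),(11,1)]⟩ ⟨0,[(37,0)]⟩),(.x (-1) ⟨7,[(16,3),(1,3),(3,2),(0,2),(11,1)]⟩ ⟨0,[(37,0)]⟩),.k,.k,
  ⟨false,1,⟨0,[(0,0),(6,0),(32,1)]⟩,⟨4,[(2,2),(7,1),(4,0),(7,0),(14,0),(1,0)]⟩⟩,⟨true,0,⟨0,[(24,
  0)]⟩,⟨3,[(4,0),(5,0),(3,0),(10,3),(1,0),(7,0),(2,0)]⟩⟩,⟨true,0,⟨0,[]⟩,⟨0,[(44,0)]⟩⟩,⟨false,0,⟨0,
  [(2,0),(21,0),(13,0),(1,0)]⟩,⟨2,[(0,0),(3,0),(0,1),(8,0),(4,0),(2,0),(2,2),(12,0)]⟩⟩,⟨false,0,⟨0,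
  []⟩,⟨0,[]⟩⟩,⟨false,0,⟨0,[]⟩,⟨0,[]⟩⟩,[.o ⟨false,0,⟨0,[(40,0)]⟩,⟨5,[(12,1),(1,1),(7,0),(0,0),(11,1),
  (6,1)]⟩⟩,.o ⟨false,1,⟨3,[(22,0),(0,0),(16,3),(1,1)]⟩,⟨0,[(4,0)]⟩⟩,.o ⟨false,1,⟨1,[(25,1),(9,0),(5,
  0)]⟩,⟨3,[(4,0),(5,0),(3,0),(9,3),(2,0),(7,0),(2,0)]⟩⟩,.a ⟨true,0,⟨0,[(25,0)]⟩,⟨0,[(24,0)]⟩⟩
  ⟨false,1,⟨2,[(0,0),(6,0),(0,0),(13,0),(15,0),(1,3)]⟩,⟨5,[(2,3),(7,0),(3,0),(8,0),(7,0),(6,2),(0,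
  0)]⟩⟩ ⟨true,0,⟨0,[(24,0),(15,0)]⟩,⟨0,[(4,0),(20,0)]⟩⟩]⟩) (.I [1,-1,-1,0,1,0,0,0,-1] (.R ⟨0,false,
  false,false,[1,0,0,-1],[1,0,-1],[0,1,0,0,0,0,0,0,-1],(⟨0,[(25,0)]⟩,⟨0,[(26,0)]⟩),(⟨0,[(34,0)]⟩,⟨0,
  [(35,0)]⟩),⟨0,[(2,0)]⟩,.k,.k,(.x (-1) ⟨7,[(17,3),(1,3),(3,2),(0,2),(11,1)]⟩ ⟨0,[(38,0)]⟩),.k,.k,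
  .k,⟨false,1,⟨1,[(8,0),(12,0),(1,0),(5,0),(11,2)]⟩,⟨0,[(1,0),(12,0),(18,0)]⟩⟩,⟨true,0,⟨0,[(25,0),
  (2,0)]⟩,⟨0,[(20,0),(5,0)]⟩⟩,⟨true,0,⟨0,[(45,0)]⟩,⟨0,[]⟩⟩,⟨false,0,⟨20,[(1,8),(2,19),(1,0),(4,6),
  (2,2),(9,5),(0,20),(13,8)]⟩,⟨0,[(0,0),(25,0),(2,0)]⟩⟩,⟨false,0,⟨0,[]⟩,⟨0,[]⟩⟩,⟨false,0,⟨0,[]⟩,⟨0,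
  []⟩⟩,[.o ⟨false,0,⟨2,[(4,1),(1,0),(4,0)]⟩,⟨11,[(16,3),(5,3),(0,2),(0,2),(4,3),(6,1)]⟩⟩,.o ⟨false,
  1,⟨0,[(27,0),(15,0)]⟩,⟨0,[(29,0)]⟩⟩,.o ⟨false,1,⟨1,[(26,1),(9,0),(5,0)]⟩,⟨3,[(5,0),(5,0),(3,0),(9,
  3),(2,0),(7,0),(2,0)]⟩⟩,.a ⟨true,0,⟨0,[(26,0)]⟩,⟨0,[(25,0)]⟩⟩ ⟨false,1,⟨1,[(23,0),(18,0)]⟩,⟨0,[(3,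
  0),(35,0)]⟩⟩ ⟨true,0,⟨2,[(4,1),(1,0),(4,0),(13,2)]⟩,⟨0,[(26,0),(2,0)]⟩⟩]⟩) (.R ⟨0,false,false,
  true,[1,0,0,-1],[0,1],[1,0,1],(⟨0,[(25,0)]⟩,⟨0,[(26,0)]⟩),(⟨0,[(38,0)]⟩,⟨0,[(37,0)]⟩),⟨0,[(2,0)]⟩,
  .k,.k,(.x (-1) ⟨7,[(17,3),(1,3),(3,2),(0,2),(11,1)]⟩ ⟨0,[(38,0)]⟩),(.x (-1) ⟨7,[(17,3),(1,3),(3,
  2),(0,2),(11,1)]⟩ ⟨0,[(38,0)]⟩),.k,.k,⟨false,1,⟨7,[(8,1),(0,1),(4,1),(8,0),(0,0),(18,1)]⟩,⟨0,[(41,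
  0),(3,0)]⟩⟩,⟨true,0,⟨0,[(25,0)]⟩,⟨3,[(5,0),(5,0),(3,0),(10,3),(1,0),(7,0),(2,0)]⟩⟩,⟨false,0,⟨2,
  [(0,0),(23,0),(14,1)]⟩,⟨1,[(23,0),(18,0)]⟩⟩,⟨true,(-1),⟨0,[(0,0),(24,0),(15,0)]⟩,⟨1,[(2,1),(2,0),
  (3,0),(7,0),(1,0),(3,0)]⟩⟩,⟨false,0,⟨0,[]⟩,⟨0,[]⟩⟩,⟨false,0,⟨0,[]⟩,⟨0,[]⟩⟩,[.o ⟨false,0,⟨0,[(41,
  0),(3,0)]⟩,⟨23,[(8,1),(4,5),(0,1),(0,5),(20,8),(2,3),(3,12)]⟩⟩,.o ⟨false,0,⟨0,[(41,0)]⟩,⟨5,[(13,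
  1),(1,1),(7,0),(0,0),(11,1),(6,1)]⟩⟩,.o ⟨false,1,⟨1,[(26,1),(9,0),(5,0)]⟩,⟨3,[(5,0),(5,0),(3,0),
  (9,3),(2,0),(7,0),(2,0)]⟩⟩,.a ⟨true,0,⟨0,[(26,0)]⟩,⟨0,[(25,0)]⟩⟩ ⟨true,0,⟨0,[]⟩,⟨0,[(45,0)]⟩⟩
  ⟨false,0,⟨0,[(25,0),(15,0)]⟩,⟨23,[(8,1),(4,5),(0,1),(0,5),(10,23),(9,8),(2,3),(3,12)]⟩⟩]⟩))))))

theorem ok79 : chk (cU (-1) true 10) t79 r49 = true := by decide +kernel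

noncomputable def t87 : Tre :=
  (.Q [0,-1,0,2,0,0,-1,-1,0,0,1] (.p true [0,0,1] [] (⟨0,[(26,0)]⟩,⟨0,[(25,0)]⟩) .k 0 (⟨0,[]⟩,⟨0,
  []⟩) .k .k) (.R ⟨1,false,false,false,[0,0,1],[0,1],[1,1],(⟨0,[(27,0)]⟩,⟨0,[(26,0)]⟩),(⟨0,[(30,
  0)]⟩,⟨0,[(29,0)]⟩),⟨0,[(11,0)]⟩,.k,.k,.k,.k,(.r (-2) ⟨0,[(7,0),(5,0),(20,0),(0,0)]⟩ ⟨0,[(2,0),(3,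
  0),(6,0),(19,3)]⟩),.k,⟨false,1,⟨0,[(32,0),(1,0)]⟩,⟨11,[(0,0),(2,4),(4,2),(3,0),(18,1),(3,1)]⟩⟩,
  ⟨true,1,⟨5,[(0,0),(7,1),(4,1),(8,2),(11,2),(0,0)]⟩,⟨0,[(2,0)]⟩⟩,⟨false,0,⟨0,[(25,0)]⟩,⟨7,[(8,3),
  (6,0),(0,0),(18,1)]⟩⟩,⟨true,0,⟨1,[(0,0),(21,0)]⟩,⟨0,[(7,0)]⟩⟩,⟨false,0,⟨1,[(3,0),(21,0),(8,0)]⟩,
  ⟨4,[(6,0),(0,1),(0,1),(4,1),(21,2)]⟩⟩,⟨false,0,⟨0,[(0,0)]⟩,⟨0,[(7,0),(24,0),(2,0)]⟩⟩,[.o ⟨false,0,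
  ⟨0,[(33,0)]⟩,⟨5,[(5,1),(1,1),(7,0),(0,0),(11,1),(6,1)]⟩⟩,.a ⟨true,0,⟨0,[(1,0)]⟩,⟨0,[(32,0)]⟩⟩
  ⟨true,0,⟨0,[]⟩,⟨5,[(2,1),(12,0),(0,0),(7,1)]⟩⟩ ⟨false,1,⟨5,[(0,3),(7,1),(4,1),(20,2),(0,0)]⟩,⟨1,
  [(7,0),(2,0),(3,0)]⟩⟩,.o ⟨false,0,⟨0,[(12,0)]⟩,⟨3,[(4,1),(10,0),(0,0),(11,0),(5,0)]⟩⟩,.o ⟨false,0,
  ⟨0,[(23,0)]⟩,⟨3,[(4,1),(23,0),(5,2)]⟩⟩]⟩) (.I [0,0,2,3,-1] (.R ⟨1,false,false,false,[1,-1],[0,1],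
  [1,0,-1,-2],(⟨0,[(30,0)]⟩,⟨0,[(31,0)]⟩),(⟨0,[(31,0)]⟩,⟨0,[(30,0)]⟩),⟨0,[(10,0),(1,0)]⟩,.k,.k,(.x
  0 ⟨11,[(3,7),(6,11),(1,11),(3,2),(0,2),(3,7),(7,1)]⟩ ⟨0,[(31,1),(3,0)]⟩),(.x 0 ⟨11,[(3,7),(6,11),
  (1,11),(3,2),(0,2),(3,7),(7,1)]⟩ ⟨0,[(31,1),(3,0)]⟩),(.r (-2) ⟨15,[(1,11),(5,11),(6,11),(1,0),(0,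
  0),(17,23),(0,5)]⟩ ⟨5,[(0,5),(2,1),(12,0),(0,0),(7,1)]⟩),.k,⟨false,2,⟨15,[(1,11),(5,11),(6,11),(1,
  0),(0,0),(17,23),(0,5)]⟩,⟨0,[(0,0)]⟩⟩,⟨true,1,⟨2,[(2,1),(11,1),(0,0),(19,2)]⟩,⟨0,[(3,0),(17,0)]⟩⟩,
  ⟨false,1,⟨15,[(1,3),(5,3),(6,3),(1,2),(0,2),(18,9)]⟩,⟨0,[(34,0)]⟩⟩,⟨false,0,⟨2,[(0,0),(1,2),(32,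
  0)]⟩,⟨7,[(1,3),(4,3),(9,0),(0,0),(11,1),(6,3)]⟩⟩,⟨true,0,⟨0,[]⟩,⟨0,[(38,0)]⟩⟩,⟨false,0,⟨2,[(0,1),
  (1,2),(32,1)]⟩,⟨15,[(1,11),(4,11),(9,0),(0,0),(11,1),(6,11)]⟩⟩,[.o ⟨false,0,⟨0,[(34,0)]⟩,⟨15,[(1,
  3),(4,3),(9,2),(0,2),(11,5),(6,3)]⟩⟩,.a ⟨true,0,⟨0,[(2,0)]⟩,⟨0,[(33,0)]⟩⟩ ⟨true,1,⟨5,[(1,1),(5,5),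
  (1,1),(4,1),(20,2),(0,0)]⟩,⟨6,[(0,5),(2,0),(4,2),(5,0),(8,2)]⟩⟩ ⟨false,1,⟨0,[(2,0),(32,0)]⟩,⟨47,
  [(3,15),(2,11),(1,23),(7,2),(0,2),(3,15),(1,11),(5,9)]⟩⟩,.o ⟨false,0,⟨2,[(3,0),(17,0),(7,0)]⟩,⟨3,
  [(16,0),(0,0),(17,1)]⟩⟩,.o ⟨false,0,⟨11,[(3,7),(12,2),(0,2),(3,7),(7,1)]⟩,⟨0,[(35,0)]⟩⟩]⟩) (.Q [0,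
  0,0,0,0,2,0,0,0,-1,1] (.p true [0,0,1] [1] (⟨0,[(28,0)]⟩,⟨0,[(27,0)]⟩) .k 1 (⟨0,[]⟩,⟨0,[]⟩) .k
  .k) (.R ⟨0,false,false,true,[1,-1,-1],[1,-1],[0,1],(⟨0,[(11,0)]⟩,⟨5,[(0,2),(2,1),(11,1),(0,0),(12,
  2)]⟩),(⟨0,[(31,0)]⟩,⟨0,[(32,0)]⟩),⟨0,[(0,0)]⟩,.k,.k,(.r (-1) ⟨2,[(1,1),(25,2),(8,0)]⟩ ⟨0,[(5,0),
  (4,0),(28,0)]⟩),.k,.k,.k,⟨false,0,⟨0,[(35,0)]⟩,⟨11,[(1,3),(15,2),(0,2),(17,1)]⟩⟩,⟨true,0,⟨0,[(14,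
  0)]⟩,⟨0,[(26,0)]⟩⟩,⟨false,0,⟨2,[(3,0),(1,0),(0,0),(3,0),(12,1)]⟩,⟨5,[(1,1),(25,5),(8,0),(0,2)]⟩⟩,
  ⟨true,0,⟨0,[(23,0)]⟩,⟨0,[(3,0),(8,0)]⟩⟩,⟨false,0,⟨0,[]⟩,⟨0,[]⟩⟩,⟨false,0,⟨0,[]⟩,⟨0,[]⟩⟩,[.a ⟨true,
  0,⟨0,[(34,0)]⟩,⟨0,[(3,0)]⟩⟩ ⟨true,0,⟨0,[(39,0)]⟩,⟨3,[(4,0),(21,0),(6,0),(3,0)]⟩⟩ ⟨false,1,⟨1,[(9,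
  0),(2,0),(3,0),(19,1)]⟩,⟨9,[(3,4),(1,1),(0,4),(3,0),(22,0),(1,0),(1,0)]⟩⟩,.o ⟨false,1,⟨15,[(2,3),
  (4,3),(9,2),(0,2),(11,5),(6,3)]⟩,⟨0,[(35,0)]⟩⟩,.o ⟨false,0,⟨0,[(22,0)]⟩,⟨7,[(16,3),(0,0),(0,0),
  (11,1),(5,3)]⟩⟩,.o ⟨false,0,⟨5,[(4,1),(12,0),(0,0),(3,5),(3,1)]⟩,⟨0,[(14,0),(21,0)]⟩⟩]⟩) (.Q [0,0,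
  0,0,0,2,0,0,0,0,-1] (.p false [0,0,1] [] (⟨0,[(29,0)]⟩,⟨0,[(28,0)]⟩) .k 0 (⟨0,[]⟩,⟨0,[]⟩) .k .k)
  (.R ⟨0,false,false,true,[0,-1,1],[1,-1],[],(⟨0,[(14,0)]⟩,⟨5,[(0,2),(3,1),(11,1),(0,0),(11,2)]⟩),
  (⟨0,[(32,0)]⟩,⟨0,[(33,0)]⟩),⟨0,[(0,0)]⟩,.k,.k,(.r (-2) ⟨29,[(2,15),(7,5),(0,11),(4,5),(1,8),(0,8),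
  (17,13)]⟩ ⟨0,[(5,0),(3,0),(6,0),(19,3)]⟩),.k,.k,.k,⟨true,0,⟨4,[(6,1),(4,0),(22,0),(1,0),(1,0)]⟩,
  ⟨0,[(35,0)]⟩⟩,⟨false,1,⟨3,[(7,1),(23,0),(5,2)]⟩,⟨2,[(4,0),(11,0),(0,1)]⟩⟩,⟨false,0,⟨1,[(6,0),(21,
  0),(9,0)]⟩,⟨19,[(2,3),(7,3),(0,7),(4,3),(1,0),(0,0),(17,5)]⟩⟩,⟨true,0,⟨0,[(22,0)]⟩,⟨0,[(4,0),(5,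
  0)]⟩⟩,⟨false,0,⟨0,[]⟩,⟨0,[]⟩⟩,⟨false,0,⟨0,[]⟩,⟨0,[]⟩⟩,[.a ⟨true,0,⟨0,[(35,0)]⟩,⟨0,[(4,0)]⟩⟩
  ⟨false,1,⟨3,[(18,0),(0,0),(17,1)]⟩,⟨0,[]⟩⟩ ⟨true,1,⟨1,[(16,1),(14,0),(5,0)]⟩,⟨0,[(4,0),(0,0)]⟩⟩,
  .o ⟨false,1,⟨15,[(3,3),(4,3),(9,2),(0,2),(11,5),(6,3)]⟩,⟨0,[(36,0)]⟩⟩,.o ⟨false,0,⟨0,[(26,0)]⟩,⟨3,
  [(7,1),(23,0),(5,2)]⟩⟩,.o ⟨false,(-1),⟨0,[(5,0)]⟩,⟨3,[(7,1),(10,0),(0,0),(11,0),(5,4)]⟩⟩]⟩) (.I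
  [1,-1,1,0,0,0,0,1] (.Q [0,1,-1,0,0,0,0,0,-1,0,0,1] (.p true [0,0,0,1] [] (⟨0,[(22,0)]⟩,⟨0,[(21,
  0)]⟩) .k 0 (⟨0,[]⟩,⟨0,[]⟩) .k .k) (.Q [0,1,1,0,0,0,0,0,1,0,0,-1] (.p false [0,0,0,1] [] (⟨0,[(23,
  0)]⟩,⟨0,[(22,0)]⟩) .k 0 (⟨0,[]⟩,⟨0,[]⟩) .k .k) (.K ⟨0,[0,0,0,1],0,0,(⟨0,[(24,0)]⟩,⟨0,[(23,0)]⟩),
  .k,(.r (-1) ⟨5,[(5,1),(16,2),(17,0)]⟩ ⟨6,[(1,0),(0,0),(5,1),(0,0),(0,0),(10,2),(1,0),(15,4)]⟩),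
  (.x 0 ⟨0,[(36,0)]⟩ ⟨15,[(3,3),(0,3),(16,6),(0,6),(11,1)]⟩),.k,.k,[⟨0,[(24,0)]⟩,⟨0,[(23,0)]⟩,⟨0,
  [(1,0)]⟩,⟨0,[(0,0)]⟩]⟩) (.Q [0,0,0,0,0,1,0,0,0,-1,0,1] (.p true [0,0,0,1] [1] (⟨0,[(24,0)]⟩,⟨0,
  [(23,0)]⟩) .k 1 (⟨0,[]⟩,⟨0,[]⟩) .k .k) (.Q [0,0,0,-1,0,0,-1,-1,0,-1,1,1] (.p true [0,0,1] [1,0,0,
  -1] (⟨0,[(34,0)]⟩,⟨0,[(33,0)]⟩) .k 2 (⟨0,[(24,0)]⟩,⟨0,[(25,0)]⟩) .k (.r (-1) ⟨1,[(15,0),(7,0),(20,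
  0)]⟩ ⟨3,[(1,1),(8,0),(6,1),(1,1),(2,0),(1,1),(7,0)]⟩)) (.Q [0,1,1,1,0,0,1,1,1,1,-1,-1] (.p false
  [0,0,1] [1,0,0,-1] (⟨0,[(35,0)]⟩,⟨0,[(34,0)]⟩) .k 2 (⟨0,[(25,0)]⟩,⟨0,[(26,0)]⟩) .k (.r (-1) ⟨1,
  [(16,0),(7,0),(20,0)]⟩ ⟨3,[(2,1),(8,0),(6,1),(1,1),(2,0),(1,1),(7,0)]⟩)) (.R ⟨0,false,false,true,
  [1,0,0,-1],[0,1,1],[1,1],(⟨0,[(26,0)]⟩,⟨0,[(27,0)]⟩),(⟨0,[(36,0),(2,0)]⟩,⟨0,[(18,0)]⟩),⟨0,[(2,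
  0)]⟩,.k,.k,(.x (-1) ⟨15,[(6,3),(0,3),(16,6),(0,6),(11,1)]⟩ ⟨0,[(39,0)]⟩),(.r 0 ⟨0,[(3,0),(15,0),
  (1,0),(4,0)]⟩ ⟨11,[(0,3),(3,1),(7,3),(0,1),(3,5),(6,1),(0,6),(1,1),(9,0)]⟩),.k,.k,⟨false,1,⟨2,[(8,
  0),(25,2),(8,1)]⟩,⟨4,[(0,0),(3,0),(0,1),(6,0),(0,0),(3,0),(12,0),(11,1)]⟩⟩,⟨true,0,⟨0,[(21,0),(4,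
  0)]⟩,⟨0,[(27,0),(1,0)]⟩⟩,⟨false,1,⟨3,[(24,0),(0,2)]⟩,⟨2,[(3,2),(7,0),(14,2),(2,0),(7,0)]⟩⟩,⟨true,
  0,⟨0,[(0,0)]⟩,⟨0,[(3,0),(15,0)]⟩⟩,⟨false,0,⟨0,[]⟩,⟨0,[]⟩⟩,⟨false,0,⟨0,[]⟩,⟨0,[]⟩⟩,[.o ⟨false,0,⟨0,
  [(30,0),(11,0)]⟩,⟨0,[(19,0),(24,0)]⟩⟩,.e ⟨true,0,⟨0,[]⟩,⟨5,[(11,1),(12,0),(0,0),(7,1)]⟩⟩ ⟨true,0,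
  ⟨1,[(12,0),(4,0),(3,0),(4,1),(3,0)]⟩,⟨0,[(1,0)]⟩⟩,.o ⟨false,1,⟨1,[(27,1),(9,0),(5,0)]⟩,⟨2,[(11,0),
  (14,2),(2,0),(7,0)]⟩⟩,.a ⟨true,0,⟨0,[(27,0)]⟩,⟨0,[(26,0)]⟩⟩ ⟨false,1,⟨3,[(24,0),(0,0),(17,1)]⟩,⟨3,
  [(11,0),(21,0),(6,0),(3,0)]⟩⟩ ⟨true,0,⟨0,[(26,0),(3,0),(11,0)]⟩,⟨0,[(1,0)]⟩⟩]⟩) (.R ⟨0,false,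
  false,true,[1,0,0,-1],[0,1],[1,0,1],(⟨0,[(26,0)]⟩,⟨0,[(27,0)]⟩),(⟨0,[(39,0)]⟩,⟨0,[(38,0)]⟩),⟨0,
  [(2,0)]⟩,.k,.k,(.x (-1) ⟨15,[(6,3),(0,3),(16,6),(0,6),(11,1)]⟩ ⟨0,[(39,0)]⟩),(.x (-1) ⟨15,[(6,3),
  (0,3),(16,6),(0,6),(11,1)]⟩ ⟨0,[(39,0)]⟩),.k,.k,⟨false,1,⟨5,[(8,1),(34,0),(0,2)]⟩,⟨0,[(42,0),(3,
  0)]⟩⟩,⟨true,0,⟨0,[(26,0)]⟩,⟨2,[(11,0),(15,2),(1,0),(7,0)]⟩⟩,⟨false,1,⟨5,[(11,1),(12,0),(0,3),(7,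
  1),(10,2)]⟩,⟨0,[(0,0),(25,0),(3,0),(11,0)]⟩⟩,⟨true,0,⟨1,[(12,0),(9,0),(2,0),(0,1),(3,0),(11,0)]⟩,
  ⟨0,[(0,0),(29,0)]⟩⟩,⟨false,0,⟨0,[]⟩,⟨0,[]⟩⟩,⟨false,0,⟨0,[]⟩,⟨0,[]⟩⟩,[.o ⟨false,0,⟨0,[(42,0),(3,
  0)]⟩,⟨21,[(8,1),(0,3),(4,3),(22,8),(2,3),(3,10)]⟩⟩,.o ⟨false,0,⟨0,[(42,0)]⟩,⟨15,[(9,3),(4,3),(9,
  2),(0,2),(11,5),(6,3)]⟩⟩,.o ⟨false,1,⟨1,[(27,1),(9,0),(5,0)]⟩,⟨2,[(11,0),(14,2),(2,0),(7,0)]⟩⟩,.a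
  ⟨true,0,⟨0,[(27,0)]⟩,⟨0,[(26,0)]⟩⟩ ⟨true,0,⟨0,[]⟩,⟨0,[(46,0)]⟩⟩ ⟨false,0,⟨0,[(26,0),(15,0)]⟩,⟨2,
  [(1,0),(7,0),(17,1),(9,0),(6,1)]⟩⟩]⟩)) (.R ⟨0,false,false,true,[1,0,0,-1],[0,1,1],[1,1],(⟨0,[(25,
  0)]⟩,⟨0,[(26,0)]⟩),(⟨0,[(35,0),(2,0)]⟩,⟨0,[(17,0)]⟩),⟨0,[(1,0)]⟩,.k,.k,(.x (-1) ⟨15,[(5,3),(0,3),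
  (16,6),(0,6),(11,1)]⟩ ⟨0,[(38,0)]⟩),(.r 0 ⟨0,[(2,0),(15,0),(1,0),(4,0)]⟩ ⟨7,[(11,3),(4,5),(6,0),
  (0,4),(20,5)]⟩),.k,.k,⟨false,1,⟨2,[(7,0),(25,2),(8,1)]⟩,⟨2,[(0,0),(10,0),(0,0),(3,0),(9,0),(2,
  0)]⟩⟩,⟨true,0,⟨0,[(20,0),(4,0)]⟩,⟨0,[(26,0),(1,0)]⟩⟩,⟨false,1,⟨3,[(23,0),(0,2)]⟩,⟨2,[(2,2),(7,0),
  (14,2),(2,0),(7,0)]⟩⟩,⟨true,0,⟨1,[(0,1),(10,0),(3,0),(5,0),(2,0)]⟩,⟨0,[(2,0),(15,0)]⟩⟩,⟨false,0,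
  ⟨0,[]⟩,⟨0,[]⟩⟩,⟨false,0,⟨0,[]⟩,⟨0,[]⟩⟩,[.o ⟨false,0,⟨0,[(29,0),(11,0)]⟩,⟨0,[(18,0),(24,0)]⟩⟩,.a
  ⟨true,0,⟨0,[(0,0),(25,0)]⟩,⟨0,[(9,0),(3,0)]⟩⟩ ⟨true,0,⟨0,[]⟩,⟨5,[(10,1),(12,0),(0,0),(7,1)]⟩⟩
  ⟨false,0,⟨0,[(0,0)]⟩,⟨1,[(18,1),(7,1),(15,0),(0,0)]⟩⟩,.o ⟨false,1,⟨1,[(26,1),(9,0),(5,0)]⟩,⟨2,
  [(10,0),(14,2),(2,0),(7,0)]⟩⟩,.e ⟨false,1,⟨3,[(23,0),(0,0),(17,1)]⟩,⟨3,[(10,0),(21,0),(6,0),(3,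
  0)]⟩⟩ ⟨false,0,⟨0,[(0,0)]⟩,⟨0,[(18,0),(7,0),(16,0)]⟩⟩]⟩)) (.Q [0,0,1,0,0,0,0,0,1,1,0,-1] (.p
  false [0,0,0,1] [1] (⟨0,[(25,0)]⟩,⟨0,[(24,0)]⟩) .k 1 (⟨0,[]⟩,⟨0,[]⟩) .k .k) (.R ⟨1,false,false,
  true,[1,-1],[0,0,0,1],[0,0,-1,-1],(⟨0,[(37,0)]⟩,⟨0,[(38,0)]⟩),(⟨0,[(26,0)]⟩,⟨0,[(25,0)]⟩),⟨2,[(5,
  0),(0,0),(30,1)]⟩,.k,.k,(.r (-1) ⟨2,[(7,1),(34,0)]⟩ ⟨3,[(11,3),(4,1),(6,0),(0,0),(20,1)]⟩),(.x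
  (-1) ⟨15,[(5,3),(0,3),(16,6),(0,6),(11,1)]⟩ ⟨0,[(38,0)]⟩),(.r (-1) ⟨17,[(2,9),(0,5),(3,9),(5,1),
  (1,1),(7,0),(1,15),(10,6)]⟩ ⟨1,[(11,1),(4,0),(7,0),(20,0)]⟩),.k,⟨false,1,⟨5,[(2,5),(4,1),(17,5),
  (10,2),(5,0)]⟩,⟨1,[(11,0),(9,0),(2,0),(4,0),(11,0)]⟩⟩,⟨true,0,⟨0,[(25,0)]⟩,⟨2,[(10,0),(15,2),(1,
  0),(7,0)]⟩⟩,⟨false,1,⟨3,[(23,0),(0,0),(18,1)]⟩,⟨0,[]⟩⟩,⟨false,0,⟨0,[(0,0),(40,0)]⟩,⟨6,[(2,4),(4,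
  0),(0,0),(4,0),(9,0),(2,1),(9,2),(6,1)]⟩⟩,⟨true,0,⟨0,[(41,0)]⟩,⟨0,[(40,0)]⟩⟩,⟨false,0,⟨0,[(0,0),
  (40,1)]⟩,⟨20,[(2,16),(4,1),(0,8),(4,8),(9,1),(2,3),(9,5),(6,10)]⟩⟩,[.e ⟨false,1,⟨2,[(7,0),(34,
  1)]⟩,⟨7,[(11,3),(4,1),(6,0),(0,0),(20,1)]⟩⟩ ⟨false,1,⟨1,[(24,0),(0,1),(16,0),(2,1)]⟩,⟨2,[(2,2),(7,
  0),(17,0),(7,0)]⟩⟩,.a ⟨true,0,⟨0,[(0,0)]⟩,⟨1,[(2,0),(0,0)]⟩⟩ ⟨true,1,⟨5,[(7,1),(34,0),(0,2)]⟩,⟨0,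
  [(10,0),(10,0),(19,1)]⟩⟩ ⟨false,1,⟨1,[(24,0),(0,1),(16,0)]⟩,⟨5,[(2,2),(0,2),(6,1),(17,1),(7,1)]⟩⟩,
  .o ⟨false,0,⟨2,[(10,0),(17,0),(7,0)]⟩,⟨3,[(23,0),(0,0),(17,1)]⟩⟩,.o ⟨false,0,⟨11,[(10,7),(12,2),
  (0,2),(3,7),(7,1)]⟩,⟨0,[(42,0)]⟩⟩]⟩) (.Q [0,0,-1,-1,0,0,0,0,-1,-1,0,1] (.p true [0,0,0,1] [1] (⟨0,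
  [(26,0)]⟩,⟨0,[(25,0)]⟩) .k 1 (⟨0,[]⟩,⟨0,[]⟩) .k .k) (.Q [0,0,1,2,0,0,0,0,1,1,0,-1] (.p false [0,0,
  0,1] [1] (⟨0,[(27,0)]⟩,⟨0,[(26,0)]⟩) .k 1 (⟨0,[]⟩,⟨0,[]⟩) .k .k) (.R ⟨1,true,false,true,[1,0,0,
  -1],[0,1],[0,0,0,0,0,0,0,0,-1],(⟨0,[(27,0)]⟩,⟨0,[(28,0)]⟩),(⟨0,[(40,0)]⟩,⟨0,[(39,0)]⟩),⟨0,[(3,
  0)]⟩,.k,.k,(.x (-1) ⟨15,[(7,3),(0,3),(16,6),(0,6),(11,1)]⟩ ⟨0,[(40,0)]⟩),(.x (-1) ⟨15,[(7,3),(0,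
  3),(16,6),(0,6),(11,1)]⟩ ⟨0,[(40,0)]⟩),(.r (-1) ⟨11,[(2,5),(6,7),(15,2),(1,5),(16,0)]⟩ ⟨23,[(0,1),
  (4,1),(7,21),(0,1),(3,7),(6,0),(0,12),(4,5),(2,1)]⟩),.k,⟨false,1,⟨5,[(2,5),(6,1),(17,5),(16,0),(0,
  2)]⟩,⟨3,[(0,0),(1,0),(10,1),(9,1),(2,1),(4,1)]⟩⟩,⟨true,0,⟨0,[(27,0)]⟩,⟨2,[(12,0),(15,2),(1,0),(7,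
  0)]⟩⟩,⟨false,1,⟨3,[(25,0),(0,0),(18,1)]⟩,⟨0,[]⟩⟩,⟨true,0,⟨0,[(0,0),(41,0)]⟩,⟨0,[(1,0)]⟩⟩,⟨true,0,
  ⟨0,[(43,0)]⟩,⟨0,[(42,0)]⟩⟩,⟨false,0,⟨0,[(0,0)]⟩,⟨45,[(1,33),(7,5),(0,9),(4,9),(9,5),(2,11),(9,0),
  (6,32)]⟩⟩,[]⟩) (.R ⟨1,false,false,true,[1,0,0,-1],[0,1],[0,0,0,0,0,0,0,0,-1],(⟨0,[(27,0)]⟩,⟨0,
  [(28,0)]⟩),(⟨0,[(40,0)]⟩,⟨0,[(39,0)]⟩),⟨0,[(3,0)]⟩,.k,.k,(.x (-1) ⟨15,[(7,3),(0,3),(16,6),(0,6),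
  (11,1)]⟩ ⟨0,[(40,0)]⟩),(.x (-1) ⟨15,[(7,3),(0,3),(16,6),(0,6),(11,1)]⟩ ⟨0,[(40,0)]⟩),(.r (-1) ⟨11,
  [(2,5),(6,7),(15,2),(1,5),(16,0)]⟩ ⟨1,[(13,1),(4,0),(7,0),(20,0)]⟩),.k,⟨false,1,⟨5,[(2,5),(6,1),
  (17,5),(16,0),(0,2)]⟩,⟨1,[(13,0),(9,0),(2,0),(4,0),(11,0)]⟩⟩,⟨true,0,⟨0,[(27,0)]⟩,⟨2,[(12,0),(15,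
  2),(1,0),(7,0)]⟩⟩,⟨false,1,⟨3,[(25,0),(0,0),(18,1)]⟩,⟨0,[]⟩⟩,⟨true,0,⟨1,[(13,0),(9,0),(2,0),(0,1),
  (3,0),(11,0)]⟩,⟨0,[(1,0)]⟩⟩,⟨true,0,⟨0,[(43,0)]⟩,⟨0,[(42,0)]⟩⟩,⟨true,0,⟨1,[(13,0),(9,0),(2,0),(0,
  1),(3,0),(11,2)]⟩,⟨0,[(0,0)]⟩⟩,[.o ⟨false,0,⟨0,[(43,0),(3,0)]⟩,⟨21,[(9,1),(0,3),(4,3),(22,8),(2,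
  3),(3,10)]⟩⟩,.o ⟨false,0,⟨0,[(43,0)]⟩,⟨15,[(10,3),(4,3),(9,2),(0,2),(11,5),(6,3)]⟩⟩,.o ⟨false,1,
  ⟨3,[(2,3),(22,0),(0,2)]⟩,⟨2,[(12,0),(14,2),(2,0),(7,0)]⟩⟩,.a ⟨true,0,⟨0,[(28,0)]⟩,⟨0,[(27,0)]⟩⟩
  ⟨true,0,⟨0,[(2,0),(24,0)]⟩,⟨1,[(13,0),(3,0),(5,0),(2,0)]⟩⟩ ⟨false,0,⟨0,[(27,0),(15,0)]⟩,⟨35,[(0,
  5),(9,5),(1,1),(2,5),(10,2),(1,29),(1,1),(7,10),(6,23)]⟩⟩]⟩)) (.R ⟨2,true,false,false,[0,1],[1,0,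
  0,-1],[1,1,1],(⟨0,[]⟩,⟨0,[]⟩),(⟨0,[(26,0)]⟩,⟨0,[(27,0)]⟩),⟨0,[]⟩,.k,.k,.k,(.x 0 ⟨0,[(39,0)]⟩ ⟨15,
  [(6,3),(0,3),(16,6),(0,6),(11,1)]⟩),.k,.k,⟨true,0,⟨1,[(12,0),(3,0),(5,0),(2,0)]⟩,⟨16,[(1,11),(1,
  0),(7,1),(1,0),(10,1),(1,12),(13,7)]⟩⟩,⟨false,1,⟨3,[(1,3),(22,0),(0,2)]⟩,⟨0,[(26,0)]⟩⟩,⟨true,0,⟨0,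
  [(41,0)]⟩,⟨0,[(42,0)]⟩⟩,⟨false,1,⟨13,[(1,9),(6,1),(0,1),(4,1),(9,1),(2,3),(9,0),(6,8)]⟩,⟨0,[(0,
  0)]⟩⟩,⟨false,0,⟨0,[]⟩,⟨3,[(24,0),(0,0),(18,1)]⟩⟩,⟨true,0,⟨0,[(1,0)]⟩,⟨0,[(0,0),(40,0)]⟩⟩,[]⟩)))))
  (.Q [0,0,-1,0,1,0,0,0,-1,-1,0,1] (.p true [0,0,0,1] [1] (⟨0,[(23,0)]⟩,⟨0,[(22,0)]⟩) .k 1 (⟨0,[]⟩,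
  ⟨0,[]⟩) .k .k) (.I [1,0,0,0,0,0,0,0,1] (.I [1,-1,1,1,0,0,0,0,-1] (.Q [0,0,0,1,0,0,-1,-1,0,0,1,-1]
  (.p true [0,0,1] [0,0,0,1] (⟨0,[(35,0)]⟩,⟨0,[(34,0)]⟩) .k 2 (⟨0,[(26,0)]⟩,⟨0,[(25,0)]⟩) .k (.r
  (-1) ⟨1,[(16,0),(6,0),(21,0)]⟩ ⟨0,[(1,0),(31,0)]⟩)) (.I [0,0,0,1,0,0,0,-1,-1] (.Q [0,0,0,0,0,-1,0,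
  0,0,1,0,-1] (.p false [0,0,0,1] [1] (⟨0,[(28,0)]⟩,⟨0,[(27,0)]⟩) .k 1 (⟨0,[]⟩,⟨0,[]⟩) .k .k) (.R
  ⟨1,false,false,true,[1,0,0,-1],[1,-1],[0,0,0,0,0,0,0,0,-1],(⟨0,[(28,0)]⟩,⟨0,[(29,0)]⟩),(⟨0,[(40,
  0)]⟩,⟨0,[(41,0)]⟩),⟨0,[(0,0)]⟩,.k,.k,(.x (-1) ⟨15,[(8,3),(0,3),(16,6),(0,6),(11,1)]⟩ ⟨0,[(41,
  0)]⟩),(.r 0 ⟨3,[(3,1),(10,0),(9,0),(1,0),(5,0),(11,0)]⟩ ⟨5,[(10,1),(16,2),(17,0)]⟩),.k,.k,⟨true,0,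
  ⟨0,[(1,0),(5,0)]⟩,⟨0,[(4,0),(38,0)]⟩⟩,⟨false,0,⟨2,[(13,0),(14,2),(2,0),(7,0)]⟩,⟨0,[(29,0),(15,
  0)]⟩⟩,⟨false,1,⟨3,[(26,0),(0,0),(18,1)]⟩,⟨0,[]⟩⟩,⟨false,0,⟨0,[(6,0),(36,0)]⟩,⟨0,[(5,0),(6,0)]⟩⟩,
  ⟨true,0,⟨0,[(44,0)]⟩,⟨0,[(43,0)]⟩⟩,⟨false,0,⟨0,[(6,0),(41,0)]⟩,⟨2,[(3,0),(1,1),(4,0),(1,1),(16,
  0)]⟩⟩,[.e ⟨false,1,⟨1,[(26,0),(18,0)]⟩,⟨0,[(4,0)]⟩⟩ ⟨false,0,⟨0,[(2,0),(8,0)]⟩,⟨1,[(29,1),(14,1),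
  (0,0),(0,0)]⟩⟩,.o ⟨false,1,⟨15,[(11,3),(4,3),(9,2),(0,2),(11,5),(6,3)]⟩,⟨0,[(44,0)]⟩⟩,.o ⟨false,1,
  ⟨1,[(29,1),(9,0),(5,0)]⟩,⟨2,[(13,0),(14,2),(2,0),(7,0)]⟩⟩,.a ⟨true,0,⟨0,[(29,0)]⟩,⟨0,[(28,0)]⟩⟩
  ⟨false,1,⟨2,[(3,2),(6,0),(34,1)]⟩,⟨2,[(4,0),(8,0),(13,0),(7,0)]⟩⟩ ⟨true,0,⟨0,[(2,0),(8,0)]⟩,⟨0,
  [(29,0),(14,0)]⟩⟩]⟩) (.I [0,-1,-1,0,1,0,0,1,-1] (.Q [0,0,-2,0,1,0,0,0,0,-1,0,1] (.p true [0,0,0,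
  1] [1] (⟨0,[(30,0)]⟩,⟨0,[(29,0)]⟩) .k 1 (⟨0,[]⟩,⟨0,[]⟩) .k .k) (.R ⟨1,false,false,false,[0,0,0,1],
  [0,-1,1],[1,1,0,-1,0,0,0,0,1],(⟨0,[(31,0)]⟩,⟨0,[(30,0)]⟩),(⟨0,[(24,0)]⟩,⟨0,[(39,0),(3,0)]⟩),⟨2,
  [(2,0),(7,0),(0,0),(19,1)]⟩,.k,.k,(.r (-1) ⟨5,[(12,1),(16,2),(17,0)]⟩ ⟨3,[(5,1),(10,0),(9,0),(1,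
  0),(5,0),(11,0)]⟩),(.r 0 ⟨1,[(16,0),(12,0),(8,0)]⟩ ⟨17,[(1,11),(10,1),(7,5),(5,5),(1,2),(18,0)]⟩),
  .k,.k,⟨false,0,⟨1,[(6,1),(20,0),(4,0),(2,0)]⟩,⟨0,[(1,0)]⟩⟩,⟨true,0,⟨2,[(0,0),(14,0),(11,0),(3,
  1)]⟩,⟨0,[(30,0),(2,0)]⟩⟩,⟨true,0,⟨0,[(45,0)]⟩,⟨0,[(46,0)]⟩⟩,⟨false,1,⟨8,[(0,1),(0,8),(10,2),(2,4),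
  (11,1),(3,6)]⟩,⟨2,[(4,1),(3,0),(7,0),(9,0),(2,0)]⟩⟩,⟨false,0,⟨0,[]⟩,⟨3,[(28,0),(0,0),(18,1)]⟩⟩,
  ⟨false,1,⟨2,[(0,0),(0,2),(13,0),(11,0),(3,1)]⟩,⟨0,[(8,0),(26,0)]⟩⟩,[.a ⟨true,0,⟨0,[(13,0),(0,0)]⟩,
  ⟨0,[(4,0),(26,0)]⟩⟩ ⟨true,0,⟨0,[(6,0),(38,0)]⟩,⟨0,[(1,0),(0,0),(1,0),(5,0),(0,0),(3,0),(27,2)]⟩⟩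
  ⟨false,1,⟨0,[(0,0),(12,0),(0,0)]⟩,⟨15,[(4,7),(3,3),(7,3),(11,2),(0,0),(0,3),(2,3),(1,3)]⟩⟩,.o
  ⟨false,1,⟨7,[(13,3),(7,1),(5,1),(13,0),(6,4)]⟩,⟨0,[(32,0),(13,0)]⟩⟩,.o ⟨false,0,⟨2,[(15,0),(14,2),
  (2,0),(7,0)]⟩,⟨5,[(0,1),(6,1),(21,0),(1,1),(9,0)]⟩⟩,.o ⟨false,0,⟨7,[(8,3),(6,3),(12,2),(0,0),(0,
  3),(2,3),(16,3)]⟩,⟨0,[(0,0)]⟩⟩]⟩) (.I [1,0,0,0,0,0,0,0,-1] (.N [0,0,0,1] 0 ⟨0,[(7,0)]⟩ ⟨0,[(0,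
  0)]⟩ .k) (.R ⟨0,false,false,true,[1,0,0,-1],[1,-1],[1,0,0,0,0,0,0,0,-1],(⟨0,[(31,0)]⟩,⟨0,[(32,
  0)]⟩),(⟨0,[(43,0)]⟩,⟨0,[(44,0)]⟩),⟨0,[(3,0)]⟩,.k,.k,(.x (-1) ⟨15,[(11,3),(0,3),(16,6),(0,6),(11,
  1)]⟩ ⟨0,[(44,0)]⟩),(.r 0 ⟨3,[(6,1),(10,0),(9,0),(1,0),(5,0),(11,0)]⟩ ⟨5,[(13,1),(16,2),(17,0)]⟩),
  .k,.k,⟨true,0,⟨0,[(6,0)]⟩,⟨0,[(7,0),(38,0)]⟩⟩,⟨false,0,⟨1,[(1,0),(29,0),(10,0)]⟩,⟨0,[(32,0),(15,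
  0)]⟩⟩,⟨true,0,⟨0,[]⟩,⟨0,[(51,0)]⟩⟩,⟨false,0,⟨5,[(1,0),(7,3),(9,1),(1,1),(8,0),(0,0)]⟩,⟨0,[(8,0),
  (6,0)]⟩⟩,⟨false,0,⟨0,[]⟩,⟨0,[]⟩⟩,⟨false,0,⟨0,[]⟩,⟨0,[]⟩⟩,[.e ⟨false,1,⟨1,[(29,0),(18,0)]⟩,⟨0,[(0,
  0)]⟩⟩ ⟨false,0,⟨0,[(5,0),(8,0)]⟩,⟨13,[(3,7),(4,5),(2,1),(0,1),(2,11),(14,2),(16,1),(0,3),(0,0)]⟩⟩,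
  .o ⟨false,1,⟨15,[(14,3),(4,3),(9,2),(0,2),(11,5),(6,3)]⟩,⟨0,[(47,0)]⟩⟩,.o ⟨false,1,⟨13,[(3,7),(4,
  5),(2,1),(0,1),(17,2),(11,0),(5,3)]⟩,⟨1,[(1,0),(29,0),(10,0)]⟩⟩,.a ⟨true,0,⟨0,[(32,0)]⟩,⟨0,[(31,
  0)]⟩⟩ ⟨false,1,⟨11,[(2,5),(1,5),(8,1),(34,0),(0,2)]⟩,⟨6,[(1,0),(5,0),(8,1),(1,0),(11,2),(1,0)]⟩⟩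
  ⟨true,0,⟨0,[(5,0),(8,0)]⟩,⟨0,[(32,0),(14,0)]⟩⟩]⟩))) (.R ⟨0,false,false,true,[1,0,0,-1],[1,-1],[1,
  0,0,0,0,0,0,0,-1],(⟨0,[(29,0)]⟩,⟨0,[(30,0)]⟩),(⟨0,[(41,0)]⟩,⟨0,[(42,0)]⟩),⟨0,[(1,0)]⟩,.k,.k,(.x
  (-1) ⟨15,[(9,3),(0,3),(16,6),(0,6),(11,1)]⟩ ⟨0,[(42,0)]⟩),(.r 0 ⟨3,[(4,1),(10,0),(9,0),(1,0),(5,
  0),(11,0)]⟩ ⟨5,[(11,1),(16,2),(17,0)]⟩),.k,.k,⟨true,0,⟨0,[(4,0)]⟩,⟨17,[(0,5),(4,5),(5,1),(7,5),(5,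
  5),(2,2),(17,0)]⟩⟩,⟨false,0,⟨2,[(14,0),(14,2),(2,0),(7,0)]⟩,⟨0,[(30,0),(15,0)]⟩⟩,⟨true,0,⟨0,[]⟩,
  ⟨0,[(49,0)]⟩⟩,⟨false,0,⟨0,[(7,0),(36,0)]⟩,⟨0,[(6,0),(6,0)]⟩⟩,⟨false,0,⟨0,[]⟩,⟨0,[]⟩⟩,⟨false,0,⟨0,
  []⟩,⟨0,[]⟩⟩,[.e ⟨false,1,⟨1,[(27,0),(18,0)]⟩,⟨0,[(0,0),(7,0),(2,0),(33,2)]⟩⟩ ⟨false,0,⟨0,[(3,0),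
  (8,0)]⟩,⟨13,[(1,7),(4,5),(2,1),(0,1),(2,11),(14,2),(16,1),(0,3),(0,0)]⟩⟩,.o ⟨false,1,⟨15,[(12,3),
  (4,3),(9,2),(0,2),(11,5),(6,3)]⟩,⟨0,[(45,0)]⟩⟩,.o ⟨false,1,⟨13,[(1,7),(4,5),(2,1),(0,1),(17,2),
  (11,0),(5,3)]⟩,⟨2,[(14,0),(14,2),(2,0),(7,0)]⟩⟩,.a ⟨true,0,⟨0,[(30,0)]⟩,⟨0,[(29,0)]⟩⟩ ⟨false,1,⟨2,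
  [(4,2),(6,0),(34,1)]⟩,⟨4,[(0,0),(7,0),(5,0),(13,1),(7,0)]⟩⟩ ⟨true,0,⟨0,[(3,0),(8,0)]⟩,⟨0,[(30,0),
  (14,0)]⟩⟩]⟩))) (.Q [0,0,0,0,0,-1,0,0,0,1,0,-1] (.p false [0,0,0,1] [1] (⟨0,[(28,0)]⟩,⟨0,[(27,
  0)]⟩) .k 1 (⟨0,[]⟩,⟨0,[]⟩) .k .k) (.R ⟨1,false,false,true,[1,0,0,-1],[1,-1],[0,1,0,0,0,0,0,0,-1],
  (⟨0,[(28,0)]⟩,⟨0,[(29,0)]⟩),(⟨0,[(40,0)]⟩,⟨0,[(41,0)]⟩),⟨0,[(0,0)]⟩,.k,.k,(.x (-1) ⟨15,[(8,3),(0,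
  3),(16,6),(0,6),(11,1)]⟩ ⟨0,[(41,0)]⟩),(.r 0 ⟨3,[(3,1),(10,0),(9,0),(1,0),(5,0),(11,0)]⟩ ⟨5,[(10,
  1),(16,2),(17,0)]⟩),.k,.k,⟨true,0,⟨3,[(3,1),(10,0),(9,0),(1,0),(5,0),(11,0)]⟩,⟨7,[(1,3),(2,3),(11,
  0),(0,1),(7,0),(7,0)]⟩⟩,⟨false,0,⟨2,[(13,0),(14,2),(2,0),(7,0)]⟩,⟨0,[(29,0),(15,0)]⟩⟩,⟨true,0,⟨0,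
  [(48,0)]⟩,⟨0,[]⟩⟩,⟨false,0,⟨0,[(6,0),(36,0)]⟩,⟨0,[(5,0),(6,0)]⟩⟩,⟨false,0,⟨0,[(44,0)]⟩,⟨35,[(10,
  11),(2,7),(12,6),(0,6),(7,7),(10,17)]⟩⟩,⟨false,0,⟨0,[(6,0),(41,0)]⟩,⟨2,[(3,0),(1,1),(4,0),(1,1),
  (16,0)]⟩⟩,[.e ⟨false,1,⟨1,[(26,0),(18,0),(2,1)]⟩,⟨0,[(1,0),(15,0),(26,1)]⟩⟩ ⟨false,0,⟨0,[(2,0),(8,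
  0)]⟩,⟨1,[(29,1),(14,1),(0,0),(0,0)]⟩⟩,.o ⟨false,1,⟨15,[(11,3),(4,3),(9,2),(0,2),(11,5),(6,3)]⟩,⟨0,
  [(44,0)]⟩⟩,.o ⟨false,1,⟨1,[(29,1),(9,0),(5,0)]⟩,⟨2,[(13,0),(14,2),(2,0),(7,0)]⟩⟩,.a ⟨true,0,⟨0,
  [(29,0)]⟩,⟨0,[(28,0)]⟩⟩ ⟨false,1,⟨1,[(26,0),(18,0)]⟩,⟨6,[(1,2),(12,1),(2,0),(9,1),(14,2)]⟩⟩ ⟨true,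
  0,⟨0,[(2,0),(8,0)]⟩,⟨0,[(29,0),(14,0)]⟩⟩]⟩) (.R ⟨0,false,false,true,[1,0,0,-1],[1,-1],[0,1,0,0,0,
  0,0,0,-1],(⟨0,[(28,0)]⟩,⟨0,[(29,0)]⟩),(⟨0,[(40,0)]⟩,⟨0,[(41,0)]⟩),⟨0,[(0,0)]⟩,.k,.k,(.x (-1) ⟨15,
  [(8,3),(0,3),(16,6),(0,6),(11,1)]⟩ ⟨0,[(41,0)]⟩),(.r 0 ⟨3,[(3,1),(10,0),(9,0),(1,0),(5,0),(11,
  0)]⟩ ⟨5,[(10,1),(16,2),(17,0)]⟩),.k,.k,⟨true,0,⟨3,[(3,1),(10,0),(9,0),(1,0),(5,0),(11,0)]⟩,⟨7,[(1,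
  3),(2,3),(11,0),(0,1),(7,0),(7,0)]⟩⟩,⟨false,0,⟨2,[(13,0),(14,2),(2,0),(7,0)]⟩,⟨0,[(29,0),(15,
  0)]⟩⟩,⟨true,0,⟨0,[(48,0)]⟩,⟨0,[]⟩⟩,⟨false,0,⟨0,[(6,0),(36,0)]⟩,⟨0,[(5,0),(6,0)]⟩⟩,⟨false,0,⟨0,[]⟩,
  ⟨0,[]⟩⟩,⟨false,0,⟨0,[]⟩,⟨0,[]⟩⟩,[.e ⟨false,1,⟨1,[(26,0),(18,0),(2,1)]⟩,⟨0,[(1,0),(15,0),(26,1)]⟩⟩
  ⟨false,0,⟨0,[(2,0),(8,0)]⟩,⟨13,[(0,7),(4,5),(2,1),(0,1),(2,11),(14,2),(16,1),(0,3),(0,0)]⟩⟩,.o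
  ⟨false,1,⟨15,[(11,3),(4,3),(9,2),(0,2),(11,5),(6,3)]⟩,⟨0,[(44,0)]⟩⟩,.o ⟨false,1,⟨13,[(0,7),(4,5),
  (2,1),(0,1),(17,2),(11,0),(5,3)]⟩,⟨2,[(13,0),(14,2),(2,0),(7,0)]⟩⟩,.a ⟨true,0,⟨0,[(29,0)]⟩,⟨0,
  [(28,0)]⟩⟩ ⟨false,1,⟨1,[(26,0),(18,0)]⟩,⟨6,[(1,2),(12,1),(2,0),(9,1),(14,2)]⟩⟩ ⟨true,0,⟨0,[(2,0),
  (8,0)]⟩,⟨0,[(29,0),(14,0)]⟩⟩]⟩))) (.I [0,0,0,0,0,0,0,0,1] (.I [0,-1,1,1,0,0,0,0,-1] (.Q [0,-1,-2,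
  1,1,0,0,0,0,0,0,1] (.p true [0,0,0,1] [] (⟨0,[(29,0)]⟩,⟨0,[(28,0)]⟩) .k 0 (⟨0,[]⟩,⟨0,[]⟩) .k .k)
  (.I [1,-1,1,0,0,0,0,0,-1] (.Q [0,0,0,0,0,-1,0,0,0,0,0,1] (.p true [0,0,0,1] [] (⟨0,[(31,0)]⟩,⟨0,
  [(30,0)]⟩) .k 0 (⟨0,[]⟩,⟨0,[]⟩) .k .k) (.R ⟨1,false,false,false,[0,0,0,1],[0,1],[0,1,0,0,0,0,0,0,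
  1],(⟨0,[(32,0)]⟩,⟨0,[(31,0)]⟩),(⟨0,[(44,0)]⟩,⟨0,[(43,0)]⟩),⟨0,[(0,0)]⟩,.k,.k,(.r (-1) ⟨5,[(13,1),
  (16,2),(17,0)]⟩ ⟨3,[(6,1),(10,0),(9,0),(1,0),(5,0),(11,0)]⟩),(.r (-1) ⟨5,[(13,1),(16,2),(17,0)]⟩
  ⟨3,[(6,1),(10,0),(9,0),(1,0),(5,0),(11,0)]⟩),(.r (-1) ⟨2,[(4,2),(8,1),(34,0)]⟩ ⟨1,[(17,1),(4,0),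
  (6,0),(21,0)]⟩),.k,⟨false,1,⟨5,[(4,5),(8,0),(7,2),(14,2),(11,4)]⟩,⟨0,[(6,0)]⟩⟩,⟨true,1,⟨0,[(2,0),
  (43,0)]⟩,⟨0,[(16,0),(14,0),(2,0)]⟩⟩,⟨true,0,⟨0,[(51,0)]⟩,⟨0,[]⟩⟩,⟨false,1,⟨2,[(2,1),(3,0),(22,0),
  (2,0)]⟩,⟨0,[(9,0),(36,0)]⟩⟩,⟨false,0,⟨0,[(47,0)]⟩,⟨11,[(1,7),(11,3),(15,0),(0,4),(18,1)]⟩⟩,⟨false,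
  1,⟨2,[(2,1),(3,0),(22,0),(2,0),(14,2)]⟩,⟨18,[(9,14),(3,4),(0,3),(1,6),(2,3),(7,6),(2,1),(0,3)]⟩⟩,
  [.o ⟨false,0,⟨0,[(47,0)]⟩,⟨15,[(14,3),(4,3),(9,2),(0,2),(11,5),(6,3)]⟩⟩,.a ⟨true,0,⟨0,[(15,0)]⟩,
  ⟨0,[(46,0)]⟩⟩ ⟨true,0,⟨0,[(4,0)]⟩,⟨2,[(6,0),(9,0),(10,0),(1,0)]⟩⟩ ⟨false,1,⟨0,[(2,0)]⟩,⟨29,[(9,5),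
  (6,7),(2,5),(1,17),(7,2),(1,23),(2,7),(1,11),(5,4)]⟩⟩,.o ⟨false,0,⟨2,[(16,0),(14,2),(2,0),(7,0)]⟩,
  ⟨5,[(2,1),(2,1),(2,1),(21,0),(2,1),(8,0)]⟩⟩,.e ⟨false,1,⟨1,[(30,0),(17,0)]⟩,⟨0,[(1,0)]⟩⟩ ⟨false,1,
  ⟨0,[(2,0)]⟩,⟨1,[(9,1),(6,0),(10,0),(1,0),(16,0)]⟩⟩]⟩) (.R ⟨0,false,false,false,[0,0,0,1],[0,1],[0,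
  1,0,0,0,0,0,0,1],(⟨0,[(32,0)]⟩,⟨0,[(31,0)]⟩),(⟨0,[(44,0)]⟩,⟨0,[(43,0)]⟩),⟨0,[(0,0)]⟩,.k,.k,(.r
  (-1) ⟨5,[(13,1),(16,2),(17,0)]⟩ ⟨3,[(6,1),(10,0),(9,0),(1,0),(5,0),(11,0)]⟩),(.r (-1) ⟨5,[(13,1),
  (16,2),(17,0)]⟩ ⟨3,[(6,1),(10,0),(9,0),(1,0),(5,0),(11,0)]⟩),.k,.k,⟨false,1,⟨5,[(4,5),(8,0),(7,2),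
  (14,2),(11,4)]⟩,⟨0,[(6,0)]⟩⟩,⟨true,1,⟨0,[(2,0),(43,0)]⟩,⟨0,[(16,0),(14,0),(2,0)]⟩⟩,⟨true,0,⟨0,
  [(51,0)]⟩,⟨0,[]⟩⟩,⟨false,1,⟨2,[(2,1),(3,0),(22,0),(2,0)]⟩,⟨0,[(9,0),(36,0)]⟩⟩,⟨false,0,⟨0,[]⟩,⟨0,
  []⟩⟩,⟨false,0,⟨0,[]⟩,⟨0,[]⟩⟩,[.o ⟨false,0,⟨0,[(47,0)]⟩,⟨15,[(14,3),(4,3),(9,2),(0,2),(11,5),(6,
  3)]⟩⟩,.a ⟨true,0,⟨0,[(15,0)]⟩,⟨0,[(46,0)]⟩⟩ ⟨true,0,⟨0,[(4,0)]⟩,⟨2,[(6,0),(9,0),(10,0),(1,0)]⟩⟩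
  ⟨false,1,⟨0,[(2,0)]⟩,⟨29,[(9,5),(6,7),(2,5),(1,17),(7,2),(1,23),(2,7),(1,11),(5,4)]⟩⟩,.o ⟨false,0,
  ⟨2,[(16,0),(14,2),(2,0),(7,0)]⟩,⟨5,[(2,1),(2,1),(2,1),(21,0),(2,1),(8,0)]⟩⟩,.e ⟨false,1,⟨1,[(30,
  0),(17,0)]⟩,⟨0,[(1,0)]⟩⟩ ⟨false,1,⟨0,[(2,0)]⟩,⟨1,[(9,1),(6,0),(10,0),(1,0),(16,0)]⟩⟩]⟩)) (.Q [0,0,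
  0,0,0,-1,0,0,0,0,0,1] (.p true [0,0,0,1] [] (⟨0,[(31,0)]⟩,⟨0,[(30,0)]⟩) .k 0 (⟨0,[]⟩,⟨0,[]⟩) .k
  .k) (.R ⟨1,false,false,false,[0,0,0,1],[0,1],[1,0,0,-1,0,0,0,0,1],(⟨0,[(32,0)]⟩,⟨0,[(31,0)]⟩),(⟨0,
  [(44,0)]⟩,⟨0,[(43,0)]⟩),⟨0,[(0,0)]⟩,.k,.k,(.r (-1) ⟨5,[(13,1),(16,2),(17,0)]⟩ ⟨3,[(6,1),(10,0),(9,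
  0),(1,0),(5,0),(11,0)]⟩),(.r (-1) ⟨5,[(13,1),(16,2),(17,0)]⟩ ⟨3,[(6,1),(10,0),(9,0),(1,0),(5,0),
  (11,0)]⟩),(.r (-1) ⟨10,[(1,3),(0,1),(1,2),(4,1),(3,7),(16,0)]⟩ ⟨1,[(17,1),(4,0),(6,0),(21,0)]⟩),
  .k,⟨false,1,⟨10,[(1,3),(0,1),(1,2),(4,1),(3,7),(16,0)]⟩,⟨3,[(6,1),(10,0),(9,0),(1,0),(5,0),(11,
  4)]⟩⟩,⟨true,1,⟨0,[(2,0),(43,0)]⟩,⟨0,[(16,0),(14,0),(2,0)]⟩⟩,⟨false,1,⟨35,[(13,11),(2,7),(12,6),(0,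
  6),(7,7),(10,17)]⟩,⟨0,[(47,0)]⟩⟩,⟨false,1,⟨2,[(2,1),(3,0),(22,0),(2,0)]⟩,⟨0,[(9,0),(36,0)]⟩⟩,
  ⟨true,0,⟨0,[]⟩,⟨0,[(51,0)]⟩⟩,⟨false,1,⟨2,[(2,1),(3,0),(22,0),(2,0),(14,2)]⟩,⟨18,[(9,14),(3,4),(0,
  3),(1,6),(2,3),(7,6),(2,1),(0,3)]⟩⟩,[.o ⟨false,0,⟨0,[(47,0)]⟩,⟨15,[(14,3),(4,3),(9,2),(0,2),(11,
  5),(6,3)]⟩⟩,.a ⟨true,0,⟨0,[(15,0)]⟩,⟨0,[(46,0)]⟩⟩ ⟨true,0,⟨0,[(1,0),(8,0),(9,0)]⟩,⟨1,[(17,0),(9,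
  0),(1,0),(5,0),(11,0)]⟩⟩ ⟨false,1,⟨0,[(2,0)]⟩,⟨29,[(9,5),(6,7),(2,5),(1,17),(7,2),(1,23),(2,7),(1,
  11),(5,4)]⟩⟩,.o ⟨false,0,⟨2,[(16,0),(14,2),(2,0),(7,0)]⟩,⟨25,[(1,3),(0,5),(2,1),(2,9),(10,1),(10,
  2),(1,7),(9,6)]⟩⟩,.e ⟨false,1,⟨15,[(2,4),(1,2),(4,4),(3,6),(16,3),(14,2)]⟩,⟨3,[(6,1),(10,0),(9,0),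
  (1,0),(5,0),(11,0)]⟩⟩ ⟨false,1,⟨0,[(2,0)]⟩,⟨1,[(9,1),(6,0),(10,0),(1,0),(16,0)]⟩⟩]⟩) (.R ⟨0,false,
  false,false,[0,0,0,1],[0,1],[1,1,0,-1,0,0,0,0,1],(⟨0,[(32,0)]⟩,⟨0,[(31,0)]⟩),(⟨0,[(44,0)]⟩,⟨0,
  [(43,0)]⟩),⟨0,[(0,0)]⟩,.k,.k,(.r (-1) ⟨5,[(13,1),(16,2),(17,0)]⟩ ⟨3,[(6,1),(10,0),(9,0),(1,0),(5,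
  0),(11,0)]⟩),(.r (-1) ⟨5,[(13,1),(16,2),(17,0)]⟩ ⟨3,[(6,1),(10,0),(9,0),(1,0),(5,0),(11,0)]⟩),.k,
  .k,⟨false,1,⟨7,[(1,5),(11,4),(7,0),(7,0),(0,1),(5,0)]⟩,⟨0,[(6,0),(40,0)]⟩⟩,⟨true,1,⟨0,[(2,0),(43,
  0)]⟩,⟨0,[(16,0),(14,0),(2,0)]⟩⟩,⟨true,0,⟨0,[(46,0)]⟩,⟨0,[(47,0)]⟩⟩,⟨false,1,⟨2,[(2,1),(3,0),(22,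
  0),(2,0)]⟩,⟨0,[(9,0),(36,0)]⟩⟩,⟨false,0,⟨0,[]⟩,⟨0,[]⟩⟩,⟨false,0,⟨0,[]⟩,⟨0,[]⟩⟩,[.o ⟨false,0,⟨0,
  [(47,0)]⟩,⟨15,[(14,3),(4,3),(9,2),(0,2),(11,5),(6,3)]⟩⟩,.a ⟨true,0,⟨0,[(15,0)]⟩,⟨0,[(46,0)]⟩⟩
  ⟨true,0,⟨3,[(1,0),(2,2),(8,0),(2,0),(10,0),(17,0)]⟩,⟨3,[(6,1),(10,0),(9,0),(1,0),(5,0),(11,0)]⟩⟩
  ⟨false,1,⟨0,[(2,0)]⟩,⟨29,[(9,5),(6,7),(2,5),(1,17),(7,2),(1,23),(2,7),(1,11),(5,4)]⟩⟩,.o ⟨false,0,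
  ⟨2,[(16,0),(14,2),(2,0),(7,0)]⟩,⟨25,[(1,3),(0,5),(2,1),(2,9),(10,1),(10,2),(1,7),(9,6)]⟩⟩,.e
  ⟨false,1,⟨5,[(13,1),(16,2),(17,0)]⟩,⟨0,[(3,0)]⟩⟩ ⟨false,1,⟨0,[(2,0)]⟩,⟨1,[(9,1),(6,0),(10,0),(1,
  0),(16,0)]⟩⟩]⟩))) (.I [1,0,0,-1,0,0,0,0,1] (.Q [0,0,0,0,0,-1,0,0,0,0,0,1] (.p true [0,0,0,1] []
  (⟨0,[(31,0)]⟩,⟨0,[(30,0)]⟩) .k 0 (⟨0,[]⟩,⟨0,[]⟩) .k .k) (.R ⟨1,false,false,false,[0,0,0,1],[0,1],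
  [1,1,0,-1,0,0,0,0,1],(⟨0,[(32,0)]⟩,⟨0,[(31,0)]⟩),(⟨0,[(44,0)]⟩,⟨0,[(43,0)]⟩),⟨0,[(0,0)]⟩,.k,.k,
  (.r (-1) ⟨5,[(13,1),(16,2),(17,0)]⟩ ⟨3,[(6,1),(10,0),(9,0),(1,0),(5,0),(11,0)]⟩),(.r (-1) ⟨5,[(13,
  1),(16,2),(17,0)]⟩ ⟨3,[(6,1),(10,0),(9,0),(1,0),(5,0),(11,0)]⟩),(.r (-1) ⟨2,[(1,2),(11,0),(34,
  1)]⟩ ⟨1,[(17,1),(4,0),(6,0),(21,0)]⟩),.k,⟨false,1,⟨5,[(1,5),(11,0),(7,2),(14,2),(11,4)]⟩,⟨0,[(6,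
  0),(40,0)]⟩⟩,⟨true,1,⟨0,[(32,0),(15,0)]⟩,⟨9,[(2,6),(3,2),(2,2),(6,1),(0,1),(4,0),(15,1)]⟩⟩,⟨true,
  0,⟨0,[(46,0)]⟩,⟨0,[(47,0)]⟩⟩,⟨false,1,⟨0,[(8,0),(6,0)]⟩,⟨11,[(2,5),(6,5),(3,1),(16,2),(17,0)]⟩⟩,
  ⟨false,0,⟨0,[]⟩,⟨3,[(29,0),(0,0),(18,1)]⟩⟩,⟨false,1,⟨0,[(8,0),(6,0),(31,0)]⟩,⟨19,[(1,2),(0,12),(6,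
  6),(3,7),(16,4),(14,2)]⟩⟩,[.o ⟨false,0,⟨0,[(47,0)]⟩,⟨15,[(14,3),(4,3),(9,2),(0,2),(11,5),(6,3)]⟩⟩,
  .e ⟨true,0,⟨0,[(1,0)]⟩,⟨3,[(6,1),(10,0),(9,0),(1,0),(5,0),(11,0)]⟩⟩ ⟨true,1,⟨1,[(32,1),(14,1),(0,
  0),(0,0)]⟩,⟨0,[(2,0)]⟩⟩,.o ⟨false,0,⟨17,[(2,4),(3,0),(2,2),(7,1),(4,0),(6,0),(1,9),(10,4)]⟩,⟨1,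
  [(32,1),(9,0),(5,0)]⟩⟩,.a ⟨true,(-1),⟨0,[(2,0),(12,0)]⟩,⟨0,[(32,0),(15,0)]⟩⟩ ⟨false,1,⟨5,[(13,1),
  (16,2),(17,0)]⟩,⟨0,[(3,0)]⟩⟩ ⟨true,1,⟨0,[(32,0),(14,0),(0,0)]⟩,⟨0,[(2,0)]⟩⟩]⟩) (.R ⟨0,false,false,
  false,[0,0,0,1],[0,1],[1,1,0,-1,0,0,0,0,1],(⟨0,[(32,0)]⟩,⟨0,[(31,0)]⟩),(⟨0,[(44,0)]⟩,⟨0,[(43,
  0)]⟩),⟨0,[(0,0)]⟩,.k,.k,(.r (-1) ⟨5,[(13,1),(16,2),(17,0)]⟩ ⟨3,[(6,1),(10,0),(9,0),(1,0),(5,0),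
  (11,0)]⟩),(.r (-1) ⟨5,[(13,1),(16,2),(17,0)]⟩ ⟨3,[(6,1),(10,0),(9,0),(1,0),(5,0),(11,0)]⟩),.k,.k,
  ⟨false,1,⟨5,[(1,5),(11,0),(7,2),(14,2),(11,4)]⟩,⟨0,[(6,0),(40,0)]⟩⟩,⟨true,1,⟨0,[(32,0),(15,0)]⟩,
  ⟨9,[(2,6),(3,2),(2,2),(6,1),(0,1),(4,0),(15,1)]⟩⟩,⟨true,0,⟨0,[(46,0)]⟩,⟨0,[(47,0)]⟩⟩,⟨false,1,⟨0,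
  [(8,0),(6,0)]⟩,⟨11,[(2,5),(6,5),(3,1),(16,2),(17,0)]⟩⟩,⟨false,0,⟨0,[]⟩,⟨0,[]⟩⟩,⟨false,0,⟨0,[]⟩,⟨0,
  []⟩⟩,[.o ⟨false,0,⟨0,[(47,0)]⟩,⟨15,[(14,3),(4,3),(9,2),(0,2),(11,5),(6,3)]⟩⟩,.e ⟨true,0,⟨0,[(1,
  0)]⟩,⟨3,[(6,1),(10,0),(9,0),(1,0),(5,0),(11,0)]⟩⟩ ⟨true,1,⟨1,[(32,1),(14,1),(0,0),(0,0)]⟩,⟨0,[(2,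
  0)]⟩⟩,.o ⟨false,0,⟨17,[(2,4),(3,0),(2,2),(7,1),(4,0),(6,0),(1,9),(10,4)]⟩,⟨1,[(32,1),(9,0),(5,
  0)]⟩⟩,.a ⟨true,(-1),⟨0,[(2,0),(12,0)]⟩,⟨0,[(32,0),(15,0)]⟩⟩ ⟨false,1,⟨5,[(13,1),(16,2),(17,0)]⟩,
  ⟨0,[(3,0)]⟩⟩ ⟨true,1,⟨0,[(32,0),(14,0),(0,0)]⟩,⟨0,[(2,0)]⟩⟩]⟩)) (.Q [0,0,0,0,0,-1,0,0,0,0,0,1]
  (.p true [0,0,0,1] [] (⟨0,[(31,0)]⟩,⟨0,[(30,0)]⟩) .k 0 (⟨0,[]⟩,⟨0,[]⟩) .k .k) (.R ⟨1,false,false,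
  false,[0,0,0,1],[0,1],[0,1,0,0,0,0,0,0,1],(⟨0,[(32,0)]⟩,⟨0,[(31,0)]⟩),(⟨0,[(44,0)]⟩,⟨0,[(43,0)]⟩),
  ⟨0,[(0,0)]⟩,.k,.k,(.r (-1) ⟨5,[(13,1),(16,2),(17,0)]⟩ ⟨9,[(1,3),(14,0),(0,2),(4,0),(6,2),(5,0),(2,
  1)]⟩),(.r (-1) ⟨5,[(13,1),(16,2),(17,0)]⟩ ⟨9,[(1,3),(14,0),(0,2),(4,0),(6,2),(5,0),(2,1)]⟩),(.r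
  (-1) ⟨2,[(4,2),(8,1),(34,0)]⟩ ⟨1,[(17,1),(4,0),(6,0),(21,0)]⟩),.k,⟨false,1,⟨5,[(4,5),(8,0),(7,2),
  (14,2),(11,4)]⟩,⟨0,[(6,0)]⟩⟩,⟨true,1,⟨0,[(32,0),(15,0)]⟩,⟨9,[(2,6),(3,2),(2,2),(6,1),(0,1),(4,0),
  (15,1)]⟩⟩,⟨true,0,⟨0,[(51,0)]⟩,⟨0,[]⟩⟩,⟨false,1,⟨0,[(8,0),(6,0)]⟩,⟨11,[(2,5),(6,5),(3,1),(16,2),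
  (17,0)]⟩⟩,⟨false,0,⟨0,[(47,0)]⟩,⟨35,[(13,11),(2,7),(12,6),(0,6),(7,7),(10,17)]⟩⟩,⟨false,1,⟨0,[(8,
  0),(6,0),(31,0)]⟩,⟨15,[(2,10),(1,2),(4,4),(3,6),(16,3),(14,2)]⟩⟩,[.o ⟨false,0,⟨0,[(47,0)]⟩,⟨15,
  [(14,3),(4,3),(9,2),(0,2),(11,5),(6,3)]⟩⟩,.e ⟨true,0,⟨0,[(4,0)]⟩,⟨2,[(6,0),(9,0),(10,0),(1,0)]⟩⟩
  ⟨true,1,⟨1,[(32,1),(14,1),(0,0),(0,0)]⟩,⟨0,[(2,0)]⟩⟩,.o ⟨false,0,⟨17,[(2,4),(3,0),(2,2),(7,1),(4,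
  0),(6,0),(1,9),(10,4)]⟩,⟨1,[(32,1),(9,0),(5,0)]⟩⟩,.a ⟨true,(-1),⟨0,[(2,0),(12,0)]⟩,⟨0,[(32,0),(15,
  0)]⟩⟩ ⟨false,1,⟨1,[(30,0),(17,0)]⟩,⟨6,[(1,0),(0,0),(2,0),(0,5),(6,0),(6,0),(6,0),(17,0)]⟩⟩ ⟨true,
  1,⟨0,[(32,0),(14,0),(0,0)]⟩,⟨0,[(2,0)]⟩⟩]⟩) (.R ⟨0,false,false,false,[0,0,0,1],[0,1],[0,1,0,0,0,0,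
  0,0,1],(⟨0,[(32,0)]⟩,⟨0,[(31,0)]⟩),(⟨0,[(44,0)]⟩,⟨0,[(43,0)]⟩),⟨0,[(0,0)]⟩,.k,.k,(.r (-1) ⟨5,[(13,
  1),(16,2),(17,0)]⟩ ⟨9,[(1,3),(14,0),(0,2),(4,0),(6,2),(5,0),(2,1)]⟩),(.r (-1) ⟨5,[(13,1),(16,2),
  (17,0)]⟩ ⟨9,[(1,3),(14,0),(0,2),(4,0),(6,2),(5,0),(2,1)]⟩),.k,.k,⟨false,1,⟨5,[(4,5),(8,0),(7,2),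
  (14,2),(11,4)]⟩,⟨0,[(6,0)]⟩⟩,⟨true,1,⟨0,[(32,0),(15,0)]⟩,⟨9,[(2,6),(3,2),(2,2),(6,1),(0,1),(4,0),
  (15,1)]⟩⟩,⟨true,0,⟨0,[(51,0)]⟩,⟨0,[]⟩⟩,⟨false,1,⟨0,[(8,0),(6,0)]⟩,⟨11,[(2,5),(6,5),(3,1),(16,2),
  (17,0)]⟩⟩,⟨false,0,⟨0,[]⟩,⟨0,[]⟩⟩,⟨false,0,⟨0,[]⟩,⟨0,[]⟩⟩,[.o ⟨false,0,⟨0,[(47,0)]⟩,⟨15,[(14,3),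
  (4,3),(9,2),(0,2),(11,5),(6,3)]⟩⟩,.e ⟨true,0,⟨0,[(4,0)]⟩,⟨2,[(6,0),(9,0),(10,0),(1,0)]⟩⟩ ⟨true,1,
  ⟨1,[(32,1),(14,1),(0,0),(0,0)]⟩,⟨0,[(2,0)]⟩⟩,.o ⟨false,0,⟨17,[(2,4),(3,0),(2,2),(7,1),(4,0),(6,0),
  (1,9),(10,4)]⟩,⟨1,[(32,1),(9,0),(5,0)]⟩⟩,.a ⟨true,(-1),⟨0,[(2,0),(12,0)]⟩,⟨0,[(32,0),(15,0)]⟩⟩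
  ⟨false,1,⟨1,[(30,0),(17,0)]⟩,⟨6,[(1,0),(0,0),(2,0),(0,5),(6,0),(6,0),(6,0),(17,0)]⟩⟩ ⟨true,1,⟨0,
  [(32,0),(14,0),(0,0)]⟩,⟨0,[(2,0)]⟩⟩]⟩)))) (.Q [0,0,0,0,0,-1,0,0,0,0,0,1] (.p true [0,0,0,1] []
  (⟨0,[(29,0)]⟩,⟨0,[(28,0)]⟩) .k 0 (⟨0,[]⟩,⟨0,[]⟩) .k .k) (.R ⟨1,false,false,true,[0,0,0,1],[0,0,1],
  [1,0,0,-1,0,0,0,0,1],(⟨0,[(30,0)]⟩,⟨0,[(29,0)]⟩),(⟨0,[(39,0)]⟩,⟨0,[(38,0)]⟩),⟨0,[(0,0)]⟩,.k,.k,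
  (.r (-1) ⟨5,[(11,1),(16,2),(17,0)]⟩ ⟨3,[(4,1),(10,0),(9,0),(1,0),(5,0),(11,0)]⟩),.k,(.r 0 ⟨0,[(1,
  0),(16,0),(26,0)]⟩ ⟨7,[(15,3),(4,5),(6,4),(0,0),(20,5)]⟩),.k,⟨true,0,⟨0,[(2,0),(15,0)]⟩,⟨0,[(4,0),
  (20,0),(7,0),(11,0)]⟩⟩,⟨false,1,⟨0,[(24,0),(5,0),(15,0)]⟩,⟨0,[(29,0),(2,0)]⟩⟩,⟨false,1,⟨35,[(11,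
  11),(2,7),(12,6),(0,6),(7,7),(10,17)]⟩,⟨0,[(45,0)]⟩⟩,⟨false,1,⟨3,[(3,1),(2,1),(6,1),(13,0),(5,1),
  (12,0)]⟩,⟨10,[(1,0),(5,9),(5,4),(2,1),(1,3),(10,0),(1,3),(2,2)]⟩⟩,⟨true,0,⟨0,[]⟩,⟨0,[(49,0)]⟩⟩,
  ⟨false,1,⟨0,[(6,0),(6,0),(19,0)]⟩,⟨9,[(1,0),(5,8),(5,0),(2,1),(1,6),(6,2),(3,0),(4,2)]⟩⟩,[.o
  ⟨false,0,⟨0,[(33,0)]⟩,⟨0,[(31,0),(15,0)]⟩⟩,.a ⟨true,0,⟨0,[(13,0),(5,0)]⟩,⟨0,[(13,0),(8,0)]⟩⟩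
  ⟨true,0,⟨0,[(1,0),(41,0)]⟩,⟨1,[(15,0),(9,0),(1,0),(5,0),(11,0)]⟩⟩ ⟨false,1,⟨0,[(3,0),(41,0),(0,
  0)]⟩,⟨1,[(4,0),(2,0),(14,0),(6,0),(4,0)]⟩⟩,.o ⟨false,0,⟨2,[(14,0),(14,2),(2,0),(7,0)]⟩,⟨1,[(30,1),
  (9,0),(5,0)]⟩⟩,.e ⟨false,1,⟨5,[(2,5),(8,1),(34,0),(0,2)]⟩,⟨3,[(4,1),(10,0),(9,0),(1,0),(5,0),(11,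
  0)]⟩⟩ ⟨false,1,⟨0,[(3,0),(41,0),(0,0)]⟩,⟨28,[(7,19),(7,9),(0,5),(0,2),(0,13),(8,9),(1,8),(4,1),(1,
  11)]⟩⟩]⟩) (.R ⟨0,false,false,true,[0,0,0,1],[0,0,1],[1,0,0,0,0,0,0,0,1],(⟨0,[(30,0)]⟩,⟨0,[(29,
  0)]⟩),(⟨0,[(39,0)]⟩,⟨0,[(38,0)]⟩),⟨0,[(0,0)]⟩,.k,.k,(.r (-1) ⟨5,[(11,1),(16,2),(17,0)]⟩ ⟨3,[(4,1),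
  (10,0),(9,0),(1,0),(5,0),(11,0)]⟩),.k,.k,.k,⟨true,0,⟨0,[(2,0),(15,0),(26,0)]⟩,⟨0,[(4,0),(20,0),(7,
  0)]⟩⟩,⟨false,1,⟨0,[(24,0),(5,0),(15,0)]⟩,⟨0,[(29,0),(2,0)]⟩⟩,⟨true,0,⟨0,[]⟩,⟨0,[(49,0)]⟩⟩,⟨false,
  1,⟨3,[(3,1),(2,1),(6,1),(13,0),(5,1),(12,0)]⟩,⟨10,[(1,0),(5,9),(5,4),(2,1),(1,3),(10,0),(1,3),(2,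
  2)]⟩⟩,⟨false,0,⟨0,[]⟩,⟨0,[]⟩⟩,⟨false,0,⟨0,[]⟩,⟨0,[]⟩⟩,[.o ⟨false,0,⟨0,[(33,0)]⟩,⟨0,[(31,0),(15,
  0)]⟩⟩,.a ⟨true,0,⟨0,[(13,0),(5,0)]⟩,⟨0,[(13,0),(8,0)]⟩⟩ ⟨true,0,⟨0,[(1,0),(41,0),(1,0)]⟩,⟨1,[(15,
  0),(3,0),(5,0),(1,0)]⟩⟩ ⟨false,1,⟨0,[(3,0),(41,0),(0,0)]⟩,⟨1,[(4,0),(2,0),(14,0),(6,0),(4,0)]⟩⟩,
  .o ⟨false,0,⟨2,[(14,0),(14,2),(2,0),(7,0)]⟩,⟨1,[(30,1),(9,0),(5,0)]⟩⟩,.e ⟨false,1,⟨1,[(2,1),(43,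
  0),(0,0)]⟩,⟨2,[(4,0),(9,0),(10,0),(1,0)]⟩⟩ ⟨false,1,⟨0,[(3,0),(41,0),(0,0)]⟩,⟨28,[(7,19),(7,9),(0,
  5),(0,2),(0,13),(8,9),(1,8),(4,1),(1,11)]⟩⟩]⟩))) (.N [0,0,0,1] 0 ⟨0,[(3,0)]⟩ ⟨0,[(0,0)]⟩ .k)))
  (.Q [0,0,2,0,-1,0,0,0,0,1,0,-1] (.p false [0,0,0,1] [1] (⟨0,[(26,0)]⟩,⟨0,[(25,0)]⟩) .k 1 (⟨0,[]⟩,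
  ⟨0,[]⟩) .k .k) (.K ⟨0,[1,0,0,-1],1,1,(⟨0,[(26,0)]⟩,⟨0,[(27,0)]⟩),.k,(.x (-1) ⟨15,[(6,3),(0,3),(16,
  6),(0,6),(11,1)]⟩ ⟨0,[(39,0)]⟩),(.r 0 ⟨0,[(0,0),(2,0),(38,0)]⟩ ⟨5,[(8,1),(16,2),(17,0)]⟩),.k,.k,
  [⟨0,[(0,0)]⟩,⟨0,[(27,0),(15,0)]⟩,⟨0,[(0,0),(0,0),(40,0)]⟩,⟨0,[(3,0),(42,0)]⟩]⟩) (.I [0,0,1,2,0,0,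
  0,0,-1] (.Q [0,0,0,0,0,-1,0,0,0,0,0,1] (.p true [0,0,0,1] [] (⟨0,[(28,0)]⟩,⟨0,[(27,0)]⟩) .k 0 (⟨0,
  []⟩,⟨0,[]⟩) .k .k) (.R ⟨1,false,false,false,[0,0,0,1],[0,1],[1,0,0,-1,0,0,0,0,1],(⟨0,[(29,0)]⟩,⟨0,
  [(28,0)]⟩),(⟨0,[(41,0)]⟩,⟨0,[(40,0)]⟩),⟨0,[(0,0)]⟩,.k,.k,(.x 0 ⟨11,[(8,2),(0,2),(3,7),(12,3),(0,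
  3),(3,2),(3,4)]⟩ ⟨0,[(41,0),(3,0)]⟩),(.x 0 ⟨11,[(8,2),(0,2),(3,7),(12,3),(0,3),(3,2),(3,4)]⟩ ⟨0,
  [(41,0),(3,0)]⟩),(.r (-1) ⟨5,[(3,5),(6,1),(34,0),(0,2)]⟩ ⟨5,[(1,5),(11,1),(12,0),(0,0),(7,1)]⟩),
  .k,⟨false,1,⟨5,[(3,5),(6,1),(34,0),(0,2)]⟩,⟨0,[(1,0)]⟩⟩,⟨true,1,⟨0,[(29,0),(15,0)]⟩,⟨0,[(13,0),
  (14,0),(2,0)]⟩⟩,⟨false,1,⟨35,[(10,11),(2,7),(12,6),(0,6),(7,7),(10,17)]⟩,⟨0,[(44,0)]⟩⟩,⟨false,1,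
  ⟨0,[(5,0),(6,0)]⟩,⟨0,[(6,0),(36,0)]⟩⟩,⟨true,0,⟨0,[]⟩,⟨0,[(48,0)]⟩⟩,⟨false,1,⟨1,[(1,0),(0,0),(2,0),
  (6,1)]⟩,⟨18,[(6,14),(3,4),(0,3),(1,6),(2,3),(7,6),(2,1),(0,3)]⟩⟩,[.o ⟨false,0,⟨0,[(44,0)]⟩,⟨15,
  [(11,3),(4,3),(9,2),(0,2),(11,5),(6,3)]⟩⟩,.a ⟨true,0,⟨0,[(12,0)]⟩,⟨0,[(43,0)]⟩⟩ ⟨true,0,⟨0,[(3,0),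
  (38,0)]⟩,⟨8,[(1,6),(11,0),(4,3),(5,0),(1,0),(6,3)]⟩⟩ ⟨false,1,⟨0,[(2,0),(9,0)]⟩,⟨29,[(6,5),(6,7),
  (2,5),(1,17),(7,2),(1,23),(2,7),(1,11),(5,4)]⟩⟩,.o ⟨false,0,⟨2,[(13,0),(14,2),(2,0),(7,0)]⟩,⟨5,
  [(2,1),(2,1),(21,0),(1,1),(9,0)]⟩⟩,.o ⟨false,0,⟨27,[(1,3),(4,15),(6,11),(4,7),(7,8),(0,2),(0,11),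
  (2,11),(1,7)]⟩,⟨0,[(2,0)]⟩⟩]⟩) (.I [1,0,1,0,0,0,0,0,-1] (.R ⟨0,false,false,false,[0,0,0,1],[0,1],
  [1,0,1],(⟨0,[(30,0)]⟩,⟨0,[(29,0)]⟩),(⟨0,[(42,0)]⟩,⟨0,[(41,0)]⟩),⟨0,[(1,0)]⟩,.k,.k,(.x 0 ⟨11,[(9,
  2),(0,2),(3,7),(12,3),(0,3),(3,2),(3,4)]⟩ ⟨0,[(42,0),(3,0)]⟩),(.x 0 ⟨11,[(9,2),(0,2),(3,7),(12,3),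
  (0,3),(3,2),(3,4)]⟩ ⟨0,[(42,0),(3,0)]⟩),.k,.k,⟨false,1,⟨11,[(11,3),(15,2),(0,2),(17,1)]⟩,⟨0,[(45,
  0)]⟩⟩,⟨true,1,⟨0,[(30,0),(15,0)]⟩,⟨0,[(14,0),(14,0),(2,0)]⟩⟩,⟨true,0,⟨0,[(0,0)]⟩,⟨0,[(4,0),(40,
  0)]⟩⟩,⟨false,1,⟨0,[(6,0),(6,0)]⟩,⟨0,[(7,0),(36,0)]⟩⟩,⟨false,0,⟨0,[]⟩,⟨0,[]⟩⟩,⟨false,0,⟨0,[]⟩,⟨0,
  []⟩⟩,[.o ⟨false,0,⟨0,[(45,0)]⟩,⟨15,[(12,3),(4,3),(9,2),(0,2),(11,5),(6,3)]⟩⟩,.a ⟨true,0,⟨0,[(13,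
  0)]⟩,⟨0,[(44,0)]⟩⟩ ⟨true,0,⟨3,[(14,0),(21,0),(6,0),(3,0)]⟩,⟨0,[(49,0)]⟩⟩ ⟨false,1,⟨0,[(3,0),(9,
  0)]⟩,⟨29,[(7,5),(6,7),(2,5),(1,17),(7,2),(1,23),(2,7),(1,11),(5,4)]⟩⟩,.o ⟨false,0,⟨2,[(14,0),(14,
  2),(2,0),(7,0)]⟩,⟨5,[(3,1),(2,1),(21,0),(1,1),(9,0)]⟩⟩,.o ⟨false,0,⟨27,[(2,3),(4,15),(6,11),(4,7),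
  (7,8),(0,2),(0,11),(2,11),(1,7)]⟩,⟨0,[(3,0)]⟩⟩]⟩) (.Q [0,1,1,0,-1,0,0,0,1,0,0,-1] (.p false [0,0,
  0,1] [] (⟨0,[(30,0)]⟩,⟨0,[(29,0)]⟩) .k 0 (⟨0,[]⟩,⟨0,[]⟩) .k .k) (.K ⟨0,[0,0,0,1],0,(-1),(⟨0,[(31,
  0)]⟩,⟨0,[(30,0)]⟩),.k,(.x 0 ⟨11,[(10,2),(0,2),(3,7),(12,3),(0,3),(3,2),(3,4)]⟩ ⟨0,[(43,0),(3,
  0)]⟩),(.x 0 ⟨0,[(43,0)]⟩ ⟨15,[(10,3),(0,3),(16,6),(0,6),(11,1)]⟩),.k,.k,[⟨0,[(31,0)]⟩,⟨0,[(30,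
  0)]⟩,⟨1,[(28,0),(2,1),(15,0),(2,1)]⟩,⟨0,[(0,0)]⟩]⟩) (.R ⟨0,false,false,false,[0,0,0,1],[1,0,0,-1],
  [1,0,0,0,0,0,0,0,1],(⟨0,[(31,0)]⟩,⟨0,[(30,0)]⟩),(⟨0,[(30,0)]⟩,⟨0,[(31,0)]⟩),⟨0,[(2,0)]⟩,.k,.k,(.x
  0 ⟨11,[(10,2),(0,2),(3,7),(12,3),(0,3),(3,2),(3,4)]⟩ ⟨0,[(43,0),(3,0)]⟩),.k,.k,.k,⟨false,0,⟨0,[(1,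
  0),(4,0)]⟩,⟨0,[(28,0)]⟩⟩,⟨true,1,⟨0,[(4,0),(26,0)]⟩,⟨0,[(15,0),(14,1),(2,0)]⟩⟩,⟨true,0,⟨0,[]⟩,⟨0,
  [(50,0)]⟩⟩,⟨false,2,⟨0,[(0,0),(6,0)]⟩,⟨8,[(1,3),(3,7),(2,5),(0,2),(5,4),(0,3),(0,2),(12,11),(3,
  0)]⟩⟩,⟨false,0,⟨0,[]⟩,⟨0,[]⟩⟩,⟨false,0,⟨0,[]⟩,⟨0,[]⟩⟩,[.o ⟨false,1,⟨0,[(7,0)]⟩,⟨0,[(8,0),(41,
  0)]⟩⟩,.a ⟨true,1,⟨0,[(0,0)]⟩,⟨1,[(1,2),(1,0),(11,1),(10,1),(3,1)]⟩⟩ ⟨true,0,⟨1,[(1,0),(4,0),(37,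
  0)]⟩,⟨2,[(3,0),(11,0),(4,0),(5,0),(1,0),(6,0)]⟩⟩ ⟨false,2,⟨0,[(0,0),(3,0)]⟩,⟨15,[(2,3),(2,11),(2,
  3),(1,0),(0,0),(3,9),(0,5),(0,7),(12,23),(1,0),(1,6)]⟩⟩,.o ⟨false,0,⟨2,[(15,0),(14,2),(2,0),(7,
  0)]⟩,⟨5,[(4,1),(2,1),(21,0),(1,1),(9,0)]⟩⟩,.o ⟨false,0,⟨27,[(3,3),(4,15),(6,11),(4,7),(7,8),(0,2),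
  (0,11),(2,11),(1,7)]⟩,⟨0,[(4,0)]⟩⟩]⟩)))) (.Q [0,-1,-1,0,1,0,0,0,-1,0,0,1] (.p true [0,0,0,1] []
  (⟨0,[(28,0)]⟩,⟨0,[(27,0)]⟩) .k 0 (⟨0,[]⟩,⟨0,[]⟩) .k .k) (.Q [0,0,0,0,0,-1,0,0,0,0,0,1] (.p true
  [0,0,0,1] [] (⟨0,[(29,0)]⟩,⟨0,[(28,0)]⟩) .k 0 (⟨0,[]⟩,⟨0,[]⟩) .k .k) (.R ⟨1,false,false,false,[0,
  0,0,1],[1,0,0,-1],[0,0,0,0,0,0,0,0,1],(⟨0,[(30,0)]⟩,⟨0,[(29,0)]⟩),(⟨0,[(29,0)]⟩,⟨0,[(30,0)]⟩),⟨0,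
  [(0,0)]⟩,.k,.k,(.r 0 ⟨0,[(2,0),(42,0)]⟩ ⟨7,[(15,3),(4,1),(6,6),(0,2),(20,1)]⟩),.k,(.r 0 ⟨0,[(2,0),
  (2,0),(39,0)]⟩ ⟨7,[(15,3),(4,1),(6,8),(0,0),(20,1)]⟩),.k,⟨false,0,⟨0,[(2,0),(2,0),(39,1)]⟩,⟨0,
  [(27,0)]⟩⟩,⟨true,1,⟨0,[(3,0),(26,0)]⟩,⟨0,[(14,0),(14,1),(2,0)]⟩⟩,⟨false,1,⟨3,[(27,0),(0,0),(18,
  1)]⟩,⟨0,[]⟩⟩,⟨false,2,⟨0,[(1,0),(4,0)]⟩,⟨2,[(2,0),(1,2),(2,1),(0,0),(5,1),(0,0),(0,0),(12,3),(15,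
  2)]⟩⟩,⟨true,0,⟨0,[(45,0)]⟩,⟨0,[(44,0)]⟩⟩,⟨false,2,⟨0,[(1,0),(4,0),(38,0)]⟩,⟨2,[(2,0),(1,2),(2,1),
  (0,0),(5,1),(0,0),(0,0),(12,3)]⟩⟩,[.o ⟨false,1,⟨0,[(6,0)]⟩,⟨0,[(7,0),(41,0)]⟩⟩,.a ⟨true,1,⟨0,[(1,
  0)]⟩,⟨0,[(2,0),(11,0),(10,0),(3,0),(15,2)]⟩⟩ ⟨true,0,⟨1,[(2,0),(2,0),(37,0),(1,1)]⟩,⟨1,[(15,0),(3,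
  0),(5,0),(1,0)]⟩⟩ ⟨false,2,⟨0,[(1,0),(1,0)]⟩,⟨3,[(4,2),(2,0),(6,3),(1,1),(12,6),(1,0),(1,0),(11,
  2)]⟩⟩,.o ⟨false,0,⟨2,[(14,0),(14,2),(2,0),(7,0)]⟩,⟨5,[(3,1),(2,1),(21,0),(1,1),(9,0)]⟩⟩,.o ⟨false,
  0,⟨7,[(7,3),(6,3),(12,2),(0,0),(0,3),(2,3),(16,3)]⟩,⟨0,[(3,0)]⟩⟩]⟩) (.R ⟨0,false,false,false,[0,0,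
  0,1],[1,0,0,-1],[1,0,0,0,0,0,0,0,1],(⟨0,[(30,0)]⟩,⟨0,[(29,0)]⟩),(⟨0,[(29,0)]⟩,⟨0,[(30,0)]⟩),⟨0,
  [(0,0)]⟩,.k,.k,(.r 0 ⟨0,[(2,0),(42,0)]⟩ ⟨7,[(15,3),(4,1),(6,6),(0,2),(20,1)]⟩),.k,.k,.k,⟨false,0,
  ⟨0,[(2,0),(2,0),(39,1)]⟩,⟨0,[(27,0)]⟩⟩,⟨true,1,⟨0,[(3,0),(26,0)]⟩,⟨0,[(14,0),(14,1),(2,0)]⟩⟩,
  ⟨true,0,⟨0,[]⟩,⟨0,[(49,0)]⟩⟩,⟨false,2,⟨0,[(1,0),(4,0)]⟩,⟨8,[(0,3),(1,0),(1,11),(2,4),(0,6),(0,0),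
  (0,0),(3,1),(0,6),(0,0),(12,8)]⟩⟩,⟨false,0,⟨0,[]⟩,⟨0,[]⟩⟩,⟨false,0,⟨0,[]⟩,⟨0,[]⟩⟩,[.o ⟨false,1,⟨0,
  [(6,0)]⟩,⟨0,[(7,0),(41,0)]⟩⟩,.a ⟨true,1,⟨0,[(1,0)]⟩,⟨3,[(0,3),(1,0),(1,2),(4,0),(0,0),(2,2),(0,3),
  (10,3),(19,5)]⟩⟩ ⟨true,0,⟨1,[(2,0),(2,0),(37,0),(1,1)]⟩,⟨1,[(15,0),(3,0),(5,0),(1,0)]⟩⟩ ⟨false,2,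
  ⟨0,[(1,0),(1,0)]⟩,⟨15,[(0,3),(3,11),(2,3),(1,0),(0,0),(3,9),(0,5),(0,7),(12,23),(1,0),(1,6)]⟩⟩,.o
  ⟨false,0,⟨2,[(14,0),(14,2),(2,0),(7,0)]⟩,⟨5,[(3,1),(2,1),(21,0),(1,1),(9,0)]⟩⟩,.o ⟨false,0,⟨7,[(7,
  3),(6,3),(12,2),(0,0),(0,3),(2,3),(16,3)]⟩,⟨0,[(3,0)]⟩⟩]⟩)) (.K ⟨0,[0,0,0,1],0,(-1),(⟨0,[(29,0)]⟩,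
  ⟨0,[(28,0)]⟩),.k,(.r 0 ⟨2,[(0,0),(0,1),(0,0),(9,0)]⟩ ⟨7,[(14,3),(4,1),(6,6),(0,2),(20,1)]⟩),(.x 0
  ⟨0,[(41,0)]⟩ ⟨15,[(8,3),(0,3),(16,6),(0,6),(11,1)]⟩),.k,.k,[⟨0,[(29,0)]⟩,⟨0,[(28,0)]⟩,⟨1,[(26,0),
  (2,1),(15,0),(2,1)]⟩,⟨0,[(0,0)]⟩]⟩))))) (.Q [0,1,0,-1,0,0,0,0,0,-1,0,1] (.p true [0,0,0,1] [1]
  (⟨0,[(25,0)]⟩,⟨0,[(24,0)]⟩) .k 1 (⟨0,[]⟩,⟨0,[]⟩) .k .k) (.Q [0,0,0,0,0,-1,0,0,0,1,0,-1] (.p false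
  [0,0,0,1] [1] (⟨0,[(26,0)]⟩,⟨0,[(25,0)]⟩) .k 1 (⟨0,[]⟩,⟨0,[]⟩) .k .k) (.R ⟨1,false,false,false,[1,
  0,0,-1],[0,1],[0,1,0,0,0,0,0,0,-1],(⟨0,[(26,0)]⟩,⟨0,[(27,0)]⟩),(⟨0,[(39,0)]⟩,⟨0,[(38,0)]⟩),⟨0,[(0,
  0)]⟩,.k,.k,(.x (-1) ⟨15,[(6,3),(0,3),(16,6),(0,6),(11,1)]⟩ ⟨0,[(39,0)]⟩),(.x (-1) ⟨15,[(6,3),(0,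
  3),(16,6),(0,6),(11,1)]⟩ ⟨0,[(39,0)]⟩),(.r (-1) ⟨2,[(2,2),(5,1),(34,0)]⟩ ⟨1,[(12,1),(4,0),(7,0),
  (20,0)]⟩),.k,⟨false,1,⟨5,[(2,5),(5,0),(7,2),(14,2),(11,4)]⟩,⟨0,[(4,0),(22,0),(14,0)]⟩⟩,⟨true,0,⟨0,
  [(26,0)]⟩,⟨9,[(1,7),(10,3),(4,1),(9,1),(9,0),(2,1),(3,0)]⟩⟩,⟨true,0,⟨0,[(46,0)]⟩,⟨0,[]⟩⟩,⟨false,0,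
  ⟨5,[(4,3),(5,3),(1,0),(9,0),(2,0),(0,1),(3,0),(11,0)]⟩,⟨12,[(1,3),(0,1),(0,8),(4,2),(15,0),(15,
  1)]⟩⟩,⟨false,0,⟨0,[(42,0)]⟩,⟨35,[(8,11),(2,7),(12,6),(0,6),(7,7),(10,17)]⟩⟩,⟨false,0,⟨5,[(4,3),(5,
  3),(1,0),(9,0),(2,0),(0,1),(3,0),(11,6)]⟩,⟨12,[(1,7),(0,3),(0,4),(4,5),(15,1),(15,3)]⟩⟩,[.o
  ⟨false,0,⟨0,[(42,0)]⟩,⟨15,[(9,3),(4,3),(9,2),(0,2),(11,5),(6,3)]⟩⟩,.e ⟨true,0,⟨0,[(2,0)]⟩,⟨6,[(4,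
  2),(6,0),(0,0),(9,1),(2,1),(1,2),(2,0)]⟩⟩ ⟨true,0,⟨6,[(4,1),(5,1),(1,1),(4,0),(6,0),(1,4),(13,0),
  (1,0)]⟩,⟨0,[(1,0)]⟩⟩,.o ⟨false,1,⟨1,[(27,1),(9,0),(5,0)]⟩,⟨2,[(11,0),(14,2),(2,0),(7,0)]⟩⟩,.a
  ⟨true,0,⟨0,[(27,0)]⟩,⟨0,[(26,0)]⟩⟩ ⟨false,1,⟨1,[(24,0),(18,0)]⟩,⟨0,[(4,0),(22,0)]⟩⟩ ⟨true,0,⟨0,
  [(26,0),(15,0)]⟩,⟨0,[(1,0)]⟩⟩]⟩) (.R ⟨0,false,false,false,[1,0,0,-1],[0,1],[0,1,0,0,0,0,0,0,-1],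
  (⟨0,[(26,0)]⟩,⟨0,[(27,0)]⟩),(⟨0,[(39,0)]⟩,⟨0,[(38,0)]⟩),⟨0,[(0,0)]⟩,.k,.k,(.x (-1) ⟨15,[(6,3),(0,
  3),(16,6),(0,6),(11,1)]⟩ ⟨0,[(39,0)]⟩),(.x (-1) ⟨15,[(6,3),(0,3),(16,6),(0,6),(11,1)]⟩ ⟨0,[(39,
  0)]⟩),.k,.k,⟨false,1,⟨5,[(2,5),(5,0),(7,2),(14,2),(11,4)]⟩,⟨0,[(4,0),(22,0),(14,0)]⟩⟩,⟨true,0,⟨0,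
  [(26,0)]⟩,⟨9,[(1,7),(10,3),(4,1),(9,1),(9,0),(2,1),(3,0)]⟩⟩,⟨true,0,⟨0,[(46,0)]⟩,⟨0,[]⟩⟩,⟨false,0,
  ⟨5,[(4,3),(5,3),(1,0),(9,0),(2,0),(0,1),(3,0),(11,0)]⟩,⟨12,[(1,3),(0,1),(0,8),(4,2),(15,0),(15,
  1)]⟩⟩,⟨false,0,⟨0,[]⟩,⟨0,[]⟩⟩,⟨false,0,⟨0,[]⟩,⟨0,[]⟩⟩,[.o ⟨false,0,⟨0,[(42,0)]⟩,⟨15,[(9,3),(4,3),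
  (9,2),(0,2),(11,5),(6,3)]⟩⟩,.e ⟨true,0,⟨0,[(2,0)]⟩,⟨6,[(4,2),(6,0),(0,0),(9,1),(2,1),(1,2),(2,
  0)]⟩⟩ ⟨true,0,⟨6,[(4,1),(5,1),(1,1),(4,0),(6,0),(1,4),(13,0),(1,0)]⟩,⟨0,[(1,0)]⟩⟩,.o ⟨false,1,⟨13,
  [(0,7),(2,5),(2,1),(0,1),(17,2),(11,0),(5,3)]⟩,⟨2,[(11,0),(14,2),(2,0),(7,0)]⟩⟩,.a ⟨true,0,⟨0,
  [(27,0)]⟩,⟨0,[(26,0)]⟩⟩ ⟨false,1,⟨1,[(24,0),(18,0)]⟩,⟨0,[(4,0),(22,0)]⟩⟩ ⟨true,0,⟨0,[(26,0),(15,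
  0)]⟩,⟨0,[(1,0)]⟩⟩]⟩)) (.R ⟨1,false,false,false,[1,0,0,-1],[0,1],[0,1,0,0,0,0,0,0,-1],(⟨0,[(25,
  0)]⟩,⟨0,[(26,0)]⟩),(⟨0,[(38,0)]⟩,⟨0,[(37,0)]⟩),⟨3,[(0,1),(4,0),(0,0),(8,0),(2,0),(6,1)]⟩,.k,.k,
  (.x (-1) ⟨15,[(5,3),(0,3),(16,6),(0,6),(11,1)]⟩ ⟨0,[(38,0)]⟩),(.x (-1) ⟨15,[(5,3),(0,3),(16,6),(0,
  6),(11,1)]⟩ ⟨0,[(38,0)]⟩),(.r (-1) ⟨2,[(1,2),(5,1),(34,0)]⟩ ⟨1,[(11,1),(4,0),(7,0),(20,0)]⟩),.k,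
  ⟨false,1,⟨5,[(1,5),(5,0),(7,2),(14,2),(11,4)]⟩,⟨0,[(3,0),(22,0),(14,0)]⟩⟩,⟨true,0,⟨0,[(25,0)]⟩,⟨2,
  [(10,0),(15,2),(1,0),(7,0)]⟩⟩,⟨true,0,⟨0,[(45,0)]⟩,⟨0,[]⟩⟩,⟨false,0,⟨6,[(0,3),(2,2),(5,2),(0,0),
  (0,0),(9,1),(2,1),(4,0)]⟩,⟨6,[(1,0),(0,5),(4,0),(0,0),(4,0),(12,0),(12,0)]⟩⟩,⟨false,0,⟨0,[(41,
  0)]⟩,⟨35,[(7,11),(2,7),(12,6),(0,6),(7,7),(10,17)]⟩⟩,⟨false,0,⟨3,[(0,1),(2,1),(5,1),(1,0),(9,0),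
  (2,0),(4,0),(11,2)]⟩,⟨6,[(1,1),(0,4),(4,1),(0,1),(4,1),(12,1),(12,1)]⟩⟩,[.o ⟨false,0,⟨0,[(41,0)]⟩,
  ⟨15,[(8,3),(4,3),(9,2),(0,2),(11,5),(6,3)]⟩⟩,.a ⟨true,0,⟨0,[(9,0)]⟩,⟨0,[(40,0)]⟩⟩ ⟨true,0,⟨0,[(1,
  0)]⟩,⟨6,[(3,2),(6,0),(0,0),(9,1),(2,1),(1,2),(2,0)]⟩⟩ ⟨false,0,⟨0,[(0,0)]⟩,⟨3,[(2,1),(12,1),(2,1),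
  (5,0),(1,1),(15,0)]⟩⟩,.o ⟨false,1,⟨1,[(26,1),(9,0),(5,0)]⟩,⟨2,[(10,0),(14,2),(2,0),(7,0)]⟩⟩,.e
  ⟨false,1,⟨1,[(23,0),(18,0)]⟩,⟨0,[(3,0),(22,0)]⟩⟩ ⟨false,0,⟨0,[(0,0)]⟩,⟨15,[(8,3),(4,3),(9,2),(0,
  2),(1,15),(9,5),(6,3)]⟩⟩]⟩))) (.Q [0,1,1,0,-1,0,0,0,1,0,0,-1] (.p false [0,0,0,1] [] (⟨0,[(24,
  0)]⟩,⟨0,[(23,0)]⟩) .k 0 (⟨0,[]⟩,⟨0,[]⟩) .k .k) (.K ⟨0,[0,0,0,1],0,(-1),(⟨0,[(25,0)]⟩,⟨0,[(24,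
  0)]⟩),.k,(.x 0 ⟨11,[(4,2),(0,2),(3,7),(12,3),(0,3),(3,2),(3,4)]⟩ ⟨0,[(37,0),(3,0)]⟩),(.x 0 ⟨0,
  [(37,0)]⟩ ⟨15,[(4,3),(0,3),(16,6),(0,6),(11,1)]⟩),.k,.k,[⟨0,[(25,0)]⟩,⟨0,[(24,0)]⟩,⟨1,[(22,0),(2,
  1),(15,0),(2,1)]⟩,⟨0,[(0,0)]⟩]⟩) (.I [1,1,1,1,-1,0,0,0,1] (.R ⟨2,false,false,false,[0,1],[0,0,0,
  1],[1,1,1],(⟨0,[]⟩,⟨0,[]⟩),(⟨0,[(26,0)]⟩,⟨0,[(25,0)]⟩),⟨0,[]⟩,.k,.k,.k,(.x (-1) ⟨0,[(38,0),(3,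
  0)]⟩ ⟨11,[(5,2),(0,2),(3,7),(12,3),(0,3),(3,2),(3,4)]⟩),.k,.k,⟨true,0,⟨6,[(0,2),(9,1),(4,0),(5,1),
  (1,4),(6,0)]⟩,⟨2,[(0,2),(6,0),(31,2),(2,1)]⟩⟩,⟨false,0,⟨2,[(10,0),(14,2),(2,0),(7,0)]⟩,⟨0,[(26,0),
  (15,0)]⟩⟩,⟨true,0,⟨0,[(40,0)]⟩,⟨0,[(41,0)]⟩⟩,⟨false,0,⟨16,[(2,1),(0,14),(3,2),(0,1),(1,0),(2,1),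
  (18,0),(6,2)]⟩,⟨0,[(1,0),(39,0),(3,0)]⟩⟩,⟨false,0,⟨0,[]⟩,⟨3,[(23,0),(0,0),(18,1)]⟩⟩,⟨false,0,⟨0,
  [(3,0)]⟩,⟨0,[(1,0),(43,0)]⟩⟩,[.a ⟨true,(-1),⟨0,[(2,0)]⟩,⟨0,[(1,0),(43,0)]⟩⟩ ⟨false,0,⟨0,[(45,0)]⟩,
  ⟨1,[(42,0),(0,0)]⟩⟩ ⟨true,(-1),⟨2,[(2,2),(7,0),(17,0),(7,0)]⟩,⟨0,[(1,0),(43,0)]⟩⟩,.o ⟨false,0,⟨0,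
  [(3,0)]⟩,⟨0,[(1,0),(25,0),(1,0)]⟩⟩,.o ⟨false,1,⟨3,[(23,0),(0,0),(17,1)]⟩,⟨2,[(10,0),(17,0),(7,
  0)]⟩⟩,.e ⟨false,0,⟨0,[]⟩,⟨3,[(23,0),(0,0),(18,1)]⟩⟩ ⟨false,0,⟨0,[(3,0)]⟩,⟨0,[(1,0),(43,0)]⟩⟩]⟩)
  (.K ⟨1,[1,0,0,-1],1,1,(⟨0,[(25,0)]⟩,⟨0,[(26,0)]⟩),.k,(.x (-1) ⟨15,[(5,3),(0,3),(16,6),(0,6),(11,
  1)]⟩ ⟨0,[(38,0)]⟩),(.r 0 ⟨0,[(0,0),(9,0),(10,0),(19,2)]⟩ ⟨5,[(7,1),(16,2),(17,0)]⟩),.k,.k,[⟨0,[(0,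
  0),(1,0),(7,0),(10,0),(19,1)]⟩,⟨3,[(23,0),(0,0),(1,3),(9,1)]⟩,⟨0,[(2,0),(42,0)]⟩,⟨0,[(1,
  0)]⟩]⟩))))) (.R ⟨2,false,false,false,[0,1],[0,1,1],[0,1,1,1],(⟨0,[]⟩,⟨0,[]⟩),(⟨0,[(31,0),(2,0)]⟩,
  ⟨0,[(13,0)]⟩),⟨0,[]⟩,.k,.k,.k,.k,.k,.k,⟨false,0,⟨0,[(0,0)]⟩,⟨7,[(12,3),(6,0),(0,0),(18,1)]⟩⟩,
  ⟨true,0,⟨0,[(16,0)]⟩,⟨0,[(28,0)]⟩⟩,⟨true,0,⟨0,[(41,0)]⟩,⟨0,[]⟩⟩,⟨false,1,⟨3,[(12,1),(5,1),(13,0),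
  (6,0)]⟩,⟨2,[(0,0),(4,0),(2,0),(1,0),(15,0)]⟩⟩,⟨false,0,⟨0,[(37,0)]⟩,⟨35,[(3,11),(2,7),(12,6),(0,
  6),(7,7),(10,17)]⟩⟩,⟨false,1,⟨3,[(12,1),(5,1),(13,0),(4,3),(1,0)]⟩,⟨5,[(0,0),(4,0),(2,0),(1,3),(6,
  2),(8,0)]⟩⟩,[.a ⟨true,0,⟨0,[(5,0),(19,0)]⟩,⟨5,[(0,0),(4,0),(2,0),(1,3),(6,2),(8,0)]⟩⟩ ⟨false,0,⟨0,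
  [(37,0),(3,0)]⟩,⟨5,[(3,1),(34,0),(0,2)]⟩⟩ ⟨true,0,⟨1,[(7,0),(4,0),(3,0),(8,0)]⟩,⟨5,[(0,0),(4,0),
  (2,0),(1,3),(6,2),(8,0)]⟩⟩,.o ⟨false,1,⟨3,[(12,1),(5,1),(13,0),(4,3),(1,0)]⟩,⟨0,[(14,0)]⟩⟩,.o
  ⟨false,1,⟨3,[(19,0),(0,0),(17,1)]⟩,⟨2,[(6,0),(17,0),(7,0)]⟩⟩,.e ⟨false,0,⟨0,[(37,0)]⟩,⟨35,[(3,11),
  (2,7),(12,6),(0,6),(7,7),(10,17)]⟩⟩ ⟨false,1,⟨3,[(12,1),(5,1),(13,0),(4,3),(1,0)]⟩,⟨5,[(0,0),(4,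
  0),(2,0),(1,3),(6,2),(8,0)]⟩⟩]⟩))))))

theorem ok87 : chk (cU (-1) true 10) t87 l50 = true := by decide +kernel

noncomputable def t88 : Tre :=
  (.Q [0,1,-1,0,0,0,0,0,-1,0,0,1] (.p true [0,0,0,1] [] (⟨0,[(17,0)]⟩,⟨0,[(16,0)]⟩) .k 0 (⟨0,[]⟩,⟨0,
  []⟩) .k .k) (.Q [0,1,1,0,0,0,0,0,1,0,0,-1] (.p false [0,0,0,1] [] (⟨0,[(18,0)]⟩,⟨0,[(17,0)]⟩) .k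
  0 (⟨0,[]⟩,⟨0,[]⟩) .k .k) (.K ⟨0,[0,0,0,1],0,0,(⟨0,[(19,0)]⟩,⟨0,[(18,0)]⟩),.k,(.x 0 ⟨2,[(3,1),(6,
  0),(1,0),(3,0),(0,0),(3,1),(8,0)]⟩ ⟨0,[(31,0),(3,0)]⟩),(.x 0 ⟨0,[(31,0)]⟩ ⟨7,[(10,3),(1,3),(3,2),
  (0,2),(11,1)]⟩),.k,.k,[⟨0,[(19,0)]⟩,⟨0,[(18,0)]⟩,⟨0,[(1,0)]⟩,⟨0,[(0,0)]⟩]⟩) (.Q [0,0,0,0,0,1,0,0,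
  0,-1,0,1] (.p true [0,0,0,1] [1] (⟨0,[(19,0)]⟩,⟨0,[(18,0)]⟩) .k 1 (⟨0,[]⟩,⟨0,[]⟩) .k .k) (.R ⟨0,
  false,false,true,[1,0,0,-1],[0,1],[1,0,1],(⟨0,[(19,0)]⟩,⟨0,[(20,0)]⟩),(⟨0,[(32,0)]⟩,⟨0,[(31,0)]⟩),
  ⟨0,[(0,0)]⟩,.k,.k,(.x (-1) ⟨7,[(11,3),(1,3),(3,2),(0,2),(11,1)]⟩ ⟨0,[(32,0)]⟩),(.x (-1) ⟨7,[(11,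
  3),(1,3),(3,2),(0,2),(11,1)]⟩ ⟨0,[(32,0)]⟩),.k,.k,⟨false,1,⟨9,[(8,5),(0,1),(0,1),(4,1),(20,4),(0,
  2)]⟩,⟨0,[(35,0),(3,0)]⟩⟩,⟨true,0,⟨0,[(19,0)]⟩,⟨2,[(4,0),(15,2),(1,0),(7,0)]⟩⟩,⟨false,1,⟨5,[(4,1),
  (12,0),(0,3),(7,1),(10,2)]⟩,⟨0,[(1,0),(1,0),(15,0),(15,0)]⟩⟩,⟨true,0,⟨1,[(5,0),(9,0),(2,0),(0,1),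
  (3,0),(11,0)]⟩,⟨0,[(1,0),(1,0)]⟩⟩,⟨false,0,⟨0,[]⟩,⟨0,[]⟩⟩,⟨false,0,⟨0,[]⟩,⟨0,[]⟩⟩,[.o ⟨false,0,⟨0,
  [(35,0),(3,0)]⟩,⟨4,[(7,0),(0,1),(0,0),(0,0),(19,1),(6,1)]⟩⟩,.o ⟨false,0,⟨0,[(35,0)]⟩,⟨5,[(7,1),(1,
  1),(7,0),(0,0),(11,1),(6,1)]⟩⟩,.o ⟨false,1,⟨1,[(20,1),(9,0),(5,0)]⟩,⟨2,[(4,0),(14,2),(2,0),(7,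
  0)]⟩⟩,.a ⟨true,0,⟨0,[(20,0)]⟩,⟨0,[(19,0)]⟩⟩ ⟨true,0,⟨0,[]⟩,⟨0,[(39,0)]⟩⟩ ⟨false,0,⟨0,[(19,0),(15,
  0)]⟩,⟨4,[(7,0),(0,1),(0,0),(0,0),(9,4),(9,1),(6,1)]⟩⟩]⟩) (.Q [0,0,1,2,0,0,0,0,1,1,0,-1] (.p false
  [0,0,0,1] [1] (⟨0,[(20,0)]⟩,⟨0,[(19,0)]⟩) .k 1 (⟨0,[]⟩,⟨0,[]⟩) .k .k) (.R ⟨1,true,false,true,[1,0,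
  0,-1],[0,1],[1,0,0,-1,0,0,0,0,-1],(⟨0,[(20,0)]⟩,⟨0,[(21,0)]⟩),(⟨0,[(33,0)]⟩,⟨0,[(32,0)]⟩),⟨0,[(1,
  0)]⟩,.k,.k,(.x (-1) ⟨7,[(12,3),(1,3),(3,2),(0,2),(11,1)]⟩ ⟨0,[(33,0)]⟩),(.x (-1) ⟨7,[(12,3),(1,3),
  (3,2),(0,2),(11,1)]⟩ ⟨0,[(33,0)]⟩),(.r (-1) ⟨13,[(2,9),(5,7),(0,3),(0,7),(0,1),(6,1),(1,9),(10,0),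
  (5,8)]⟩ ⟨23,[(0,1),(2,1),(2,21),(0,1),(3,7),(6,0),(0,12),(4,5),(2,1)]⟩),.k,⟨false,1,⟨5,[(2,5),(1,
  1),(3,1),(0,3),(0,1),(0,1),(8,5),(10,0),(5,2)]⟩,⟨1,[(6,0),(9,0),(2,0),(4,0),(11,2)]⟩⟩,⟨true,0,⟨0,
  [(20,0)]⟩,⟨2,[(5,0),(15,2),(1,0),(7,0)]⟩⟩,⟨false,1,⟨0,[(35,0),(2,0)]⟩,⟨0,[(36,0)]⟩⟩,⟨true,0,⟨0,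
  [(0,0),(34,0)]⟩,⟨0,[(2,0),(1,0)]⟩⟩,⟨true,0,⟨0,[]⟩,⟨0,[(40,0)]⟩⟩,⟨false,0,⟨0,[(0,0)]⟩,⟨5,[(2,4),(0,
  0),(4,3),(1,3),(20,0),(6,4)]⟩⟩,[]⟩) (.R ⟨1,false,false,true,[1,0,0,-1],[0,1],[1,0,0,-1,0,0,0,0,
  -1],(⟨0,[(20,0)]⟩,⟨0,[(21,0)]⟩),(⟨0,[(33,0)]⟩,⟨0,[(32,0)]⟩),⟨0,[(1,0)]⟩,.k,.k,(.x (-1) ⟨7,[(12,3),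
  (1,3),(3,2),(0,2),(11,1)]⟩ ⟨0,[(33,0)]⟩),(.x (-1) ⟨7,[(12,3),(1,3),(3,2),(0,2),(11,1)]⟩ ⟨0,[(33,
  0)]⟩),(.r (-1) ⟨3,[(0,3),(17,0),(0,0),(0,3),(16,1)]⟩ ⟨1,[(6,1),(4,0),(7,0),(20,0)]⟩),.k,⟨false,1,
  ⟨1,[(0,1),(19,1),(16,0),(0,0)]⟩,⟨1,[(6,0),(9,0),(2,0),(4,0),(11,2)]⟩⟩,⟨true,0,⟨0,[(20,0)]⟩,⟨2,[(5,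
  0),(15,2),(1,0),(7,0)]⟩⟩,⟨false,1,⟨0,[(35,0),(2,0)]⟩,⟨0,[(36,0)]⟩⟩,⟨true,0,⟨1,[(6,0),(9,0),(2,0),
  (0,1),(3,0),(11,0)]⟩,⟨0,[(0,0),(35,0)]⟩⟩,⟨true,0,⟨0,[]⟩,⟨0,[(40,0)]⟩⟩,⟨true,0,⟨1,[(6,0),(9,0),(2,
  0),(0,1),(3,0),(11,2)]⟩,⟨0,[(0,0)]⟩⟩,[.o ⟨false,0,⟨0,[(36,0),(3,0)]⟩,⟨4,[(8,0),(0,1),(0,0),(0,0),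
  (19,1),(6,1)]⟩⟩,.o ⟨false,0,⟨0,[(36,0)]⟩,⟨5,[(8,1),(1,1),(7,0),(0,0),(11,1),(6,1)]⟩⟩,.o ⟨false,1,
  ⟨1,[(21,1),(9,0),(5,0)]⟩,⟨2,[(5,0),(14,2),(2,0),(7,0)]⟩⟩,.a ⟨true,0,⟨0,[(21,0)]⟩,⟨0,[(20,0)]⟩⟩
  ⟨true,0,⟨0,[(0,0),(19,0),(15,0)]⟩,⟨1,[(6,0),(9,0),(2,0),(4,0),(11,0)]⟩⟩ ⟨false,0,⟨0,[(20,0),(15,
  0)]⟩,⟨23,[(0,11),(4,3),(12,2),(0,8),(1,11),(1,3),(7,3),(6,11)]⟩⟩]⟩)))) (.Q [0,-1,-1,0,1,0,0,0,-1,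
  0,0,1] (.p true [0,0,0,1] [] (⟨0,[(18,0)]⟩,⟨0,[(17,0)]⟩) .k 0 (⟨0,[]⟩,⟨0,[]⟩) .k .k) (.Q [0,1,0,
  -1,0,0,2,2,0,1,-2] (.p false [0,0,1] [1,0,-1] (⟨0,[(28,0)]⟩,⟨0,[(27,0)]⟩) .k 2 (⟨0,[(27,0)]⟩,⟨0,
  [(28,0)]⟩) .k (.r (-1) ⟨0,[(9,0),(28,0)]⟩ ⟨0,[(26,1)]⟩)) (.Q [0,0,0,0,0,2,0,0,0,0,-1] (.p false
  [0,0,1] [] (⟨0,[(29,0)]⟩,⟨0,[(28,0)]⟩) .k 0 (⟨0,[]⟩,⟨0,[]⟩) .k .k) (.Q [0,-1,0,2,0,0,0,0,0,1]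
  (.pp false [-1,1]) (.Q [0,0,0,0,0,0,-2,-2,0,-1,2] (.p true [0,0,1] [1,0,-1] (⟨0,[(31,0)]⟩,⟨0,[(30,
  0)]⟩) .k 2 (⟨0,[(30,0)]⟩,⟨0,[(31,0)]⟩) .k (.r (-1) ⟨0,[(12,0),(28,0)]⟩ ⟨0,[(29,1)]⟩)) (.R ⟨0,
  false,false,false,[0,-1,1],[1,-1,-1],[],(⟨0,[(16,0)]⟩,⟨1,[(2,0),(19,0),(0,0),(7,0)]⟩),(⟨0,[(14,
  0)]⟩,⟨1,[(2,0),(29,2)]⟩),⟨0,[(2,0)]⟩,.k,.k,(.r (-2) ⟨15,[(3,7),(6,7),(2,3),(4,7),(1,0),(0,0),(17,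
  15),(0,9)]⟩ ⟨0,[(7,0),(3,0),(6,0),(19,3)]⟩),.k,.k,.k,⟨true,0,⟨8,[(1,1),(1,0),(4,2),(0,2),(3,2),
  (12,3)]⟩,⟨3,[(10,0),(0,1),(7,0),(7,0)]⟩⟩,⟨false,1,⟨0,[(9,0),(29,0)]⟩,⟨0,[(19,0)]⟩⟩,⟨false,0,⟨1,
  [(8,0),(21,0),(9,0)]⟩,⟨17,[(3,3),(6,3),(0,1),(1,7),(4,3),(20,8),(0,0)]⟩⟩,⟨true,0,⟨0,[(0,0)]⟩,⟨2,
  [(1,0),(1,1),(22,1)]⟩⟩,⟨false,0,⟨0,[]⟩,⟨0,[]⟩⟩,⟨false,0,⟨0,[]⟩,⟨0,[]⟩⟩,[.a ⟨true,0,⟨7,[(0,0),(0,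
  0),(9,4),(6,4),(8,0)]⟩,⟨2,[(1,1),(1,0),(22,0)]⟩⟩ ⟨false,1,⟨3,[(20,0),(0,0),(17,1)]⟩,⟨0,[]⟩⟩ ⟨true,
  1,⟨5,[(0,3),(9,1),(2,1),(4,1),(20,2),(0,0)]⟩,⟨2,[(1,1),(1,0),(3,2),(18,0)]⟩⟩,.o ⟨false,1,⟨15,[(0,
  3),(9,7),(9,0),(0,0),(11,1),(6,11)]⟩,⟨0,[(26,0),(11,0)]⟩⟩,.o ⟨false,0,⟨0,[(28,0)]⟩,⟨3,[(9,1),(23,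
  0),(5,2)]⟩⟩,.o ⟨false,(-1),⟨0,[(7,0)]⟩,⟨3,[(9,1),(10,0),(0,0),(11,0),(5,4)]⟩⟩]⟩) (.R ⟨0,false,
  false,true,[0,-1,1],[1,-1,-1],[0,1],(⟨0,[(16,0)]⟩,⟨1,[(2,0),(19,0),(0,0),(7,0)]⟩),(⟨0,[(14,0)]⟩,
  ⟨1,[(2,0),(29,2)]⟩),⟨0,[(2,0)]⟩,.k,.k,(.r (-2) ⟨15,[(3,7),(6,7),(2,3),(4,7),(1,0),(0,0),(17,15),
  (0,9)]⟩ ⟨0,[(7,0),(3,0),(6,0),(19,3)]⟩),.k,.k,.k,⟨true,0,⟨8,[(1,1),(1,0),(4,2),(0,2),(3,2),(12,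
  3)]⟩,⟨3,[(10,0),(0,1),(7,0),(7,0)]⟩⟩,⟨false,1,⟨0,[(9,0),(29,0)]⟩,⟨0,[(19,0)]⟩⟩,⟨false,0,⟨3,[(8,1),
  (11,0),(0,0),(8,1)]⟩,⟨0,[(0,0),(8,0),(1,0),(27,0)]⟩⟩,⟨true,0,⟨0,[(1,0),(13,1)]⟩,⟨0,[(0,0)]⟩⟩,
  ⟨false,0,⟨0,[]⟩,⟨0,[]⟩⟩,⟨false,0,⟨0,[]⟩,⟨0,[]⟩⟩,[.o ⟨false,0,⟨0,[(15,0)]⟩,⟨7,[(0,3),(0,3),(18,0),
  (0,0),(11,3),(6,1)]⟩⟩,.a ⟨true,0,⟨1,[(1,0),(8,0),(0,0),(6,0)]⟩,⟨2,[(1,1),(1,0),(22,0)]⟩⟩ ⟨false,1,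
  ⟨3,[(20,0),(0,0),(17,1)]⟩,⟨0,[]⟩⟩ ⟨true,1,⟨5,[(9,3),(0,1),(0,1),(15,1),(11,4),(0,0)]⟩,⟨2,[(0,0),
  (0,0),(1,0),(3,1),(0,0)]⟩⟩,.o ⟨false,0,⟨0,[(28,0)]⟩,⟨3,[(9,1),(23,0),(5,2)]⟩⟩,.o ⟨false,(-1),⟨0,
  [(7,0)]⟩,⟨3,[(9,1),(10,0),(0,0),(11,0),(5,4)]⟩⟩]⟩)) (.I [1,0,1,0,0,0,0,1,1] (.I [1,1,1,0,-1,0,0,0,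
  1] (.I [0,1,1,2,0,0,0,1,-1] (.R ⟨2,false,false,true,[0,1],[0,0,0,1],[0,1,1,1],(⟨0,[]⟩,⟨0,[]⟩),(⟨0,
  [(25,0)]⟩,⟨0,[(24,0)]⟩),⟨0,[]⟩,.k,.k,.k,(.r 0 ⟨0,[(0,0),(12,0)]⟩ ⟨17,[(2,3),(0,1),(1,1),(7,7),(6,
  3),(2,6),(17,10)]⟩),.k,.k,⟨true,0,⟨0,[(0,0),(12,0)]⟩,⟨17,[(1,10),(0,6),(0,0),(1,0),(7,12),(1,1),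
  (4,1),(20,8)]⟩⟩,⟨false,0,⟨2,[(9,0),(14,2),(2,0),(7,0)]⟩,⟨0,[(25,0),(15,0)]⟩⟩,⟨true,0,⟨0,[(44,0)]⟩,
  ⟨0,[]⟩⟩,⟨false,0,⟨0,[(7,0),(31,0)]⟩,⟨0,[(6,0),(33,0)]⟩⟩,⟨false,0,⟨0,[(40,0)]⟩,⟨19,[(5,3),(6,3),(0,
  3),(6,3),(1,2),(0,2),(18,13)]⟩⟩,⟨false,0,⟨0,[(7,0),(36,0)]⟩,⟨0,[(6,0)]⟩⟩,[.a ⟨true,(-1),⟨0,[(1,0),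
  (22,0)]⟩,⟨0,[(6,0)]⟩⟩ ⟨false,0,⟨3,[(0,0),(0,0),(8,0),(30,1),(2,1)]⟩,⟨17,[(5,1),(6,1),(0,9),(1,3),
  (4,1),(20,8),(0,4)]⟩⟩ ⟨true,(-1),⟨3,[(0,0),(0,2),(5,1),(0,0),(0,0),(7,0),(6,1)]⟩,⟨0,[(6,0)]⟩⟩,.o
  ⟨false,0,⟨0,[(7,0),(36,0)]⟩,⟨0,[(6,0),(1,0),(31,0)]⟩⟩,.o ⟨false,1,⟨3,[(22,0),(0,0),(17,1)]⟩,⟨2,
  [(9,0),(17,0),(7,0)]⟩⟩,.e ⟨false,0,⟨0,[(40,0)]⟩,⟨19,[(5,3),(6,3),(0,3),(6,3),(1,2),(0,2),(18,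
  13)]⟩⟩ ⟨false,0,⟨0,[(7,0),(36,0)]⟩,⟨0,[(6,0)]⟩⟩]⟩) (.Q [0,1,1,1,-1,0,-1,-1,1,0,1,-1] (.p true [0,
  0,1] [0,0,0,1] (⟨0,[(34,0)]⟩,⟨0,[(33,0)]⟩) .k 2 (⟨0,[(25,0)]⟩,⟨0,[(24,0)]⟩) .k (.r (-1) ⟨1,[(15,
  0),(6,0),(21,0)]⟩ ⟨3,[(0,0),(0,0),(8,0),(12,0),(8,1),(8,0)]⟩)) (.R ⟨0,false,false,true,[0,-1,1],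
  [0,0,0,1],[],(⟨0,[(19,0)]⟩,⟨1,[(5,0),(19,0),(0,0),(7,0)]⟩),(⟨0,[(26,0)]⟩,⟨0,[(25,0)]⟩),⟨0,[(5,
  0)]⟩,.k,.k,(.r (-2) ⟨25,[(1,9),(4,7),(6,7),(2,13),(4,7),(1,10),(0,5),(17,20)]⟩ ⟨0,[(10,0),(3,0),
  (6,0),(19,3)]⟩),(.r (-2) ⟨51,[(1,5),(4,9),(6,9),(2,23),(4,9),(1,42),(0,13),(17,22)]⟩ ⟨1,[(1,0),(0,
  0),(8,0),(29,1)]⟩),.k,.k,⟨true,1,⟨1,[(23,0),(19,0)]⟩,⟨0,[(2,0)]⟩⟩,⟨false,1,⟨3,[(12,1),(12,3),(10,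
  0),(5,2)]⟩,⟨0,[(20,0),(5,0)]⟩⟩,⟨false,0,⟨1,[(11,0),(21,0),(9,0)]⟩,⟨51,[(1,5),(4,9),(6,9),(2,23),
  (4,9),(1,3),(0,0),(17,22)]⟩⟩,⟨true,(-1),⟨0,[(0,0)]⟩,⟨0,[(7,0),(7,0)]⟩⟩,⟨false,0,⟨0,[]⟩,⟨0,[]⟩⟩,
  ⟨false,0,⟨0,[]⟩,⟨0,[]⟩⟩,[.a ⟨true,(-1),⟨0,[(2,0),(22,0)]⟩,⟨0,[(7,0)]⟩⟩ ⟨false,1,⟨3,[(23,0),(0,0),
  (17,1)]⟩,⟨0,[]⟩⟩ ⟨true,0,⟨31,[(0,26),(0,0),(2,6),(1,1),(9,11),(4,8),(2,1),(0,4),(16,12)]⟩,⟨0,[(7,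
  0),(2,0)]⟩⟩,.o ⟨false,0,⟨5,[(0,1),(7,3),(6,1),(7,0),(0,0)]⟩,⟨0,[(7,0),(1,0),(31,0)]⟩⟩,.o ⟨false,0,
  ⟨0,[(31,0)]⟩,⟨3,[(12,1),(23,0),(5,2)]⟩⟩,.o ⟨false,(-1),⟨0,[(10,0)]⟩,⟨3,[(12,1),(10,0),(0,0),(11,
  0),(5,4)]⟩⟩]⟩) (.Q [0,0,0,0,0,-1,0,0,0,0,0,1] (.p true [0,0,0,1] [] (⟨0,[(26,0)]⟩,⟨0,[(25,0)]⟩)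
  .k 0 (⟨0,[]⟩,⟨0,[]⟩) .k .k) (.R ⟨1,false,false,true,[0,0,0,1],[0,-1,1],[0,0,0,0,0,0,0,0,1],(⟨0,
  [(27,0)]⟩,⟨0,[(26,0)]⟩),(⟨0,[(20,0)]⟩,⟨1,[(6,0),(19,0),(0,0),(7,0)]⟩),⟨0,[(0,0)]⟩,.k,.k,(.x 0 ⟨2,
  [(11,1),(6,0),(1,0),(3,0),(0,0),(3,1),(8,0)]⟩ ⟨1,[(6,0),(29,0),(6,1)]⟩),(.r 1 ⟨1,[(2,0),(0,0),(8,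
  0),(29,1)]⟩ ⟨6,[(1,0),(5,0),(6,1),(2,2),(4,0),(1,4),(0,1),(0,0),(16,2)]⟩),.k,.k,⟨false,0,⟨5,[(2,
  3),(9,1),(12,0),(16,9),(1,0)]⟩,⟨0,[(1,0),(8,0),(11,0),(3,0),(15,1)]⟩⟩,⟨true,0,⟨0,[(21,0),(5,0)]⟩,
  ⟨0,[(26,0),(2,0)]⟩⟩,⟨false,1,⟨3,[(24,0),(0,0),(18,1)]⟩,⟨0,[]⟩⟩,⟨false,1,⟨0,[(1,0),(44,0)]⟩,⟨11,
  [(2,3),(6,5),(2,7),(0,5),(11,0),(0,5),(15,3),(0,5),(0,0)]⟩⟩,⟨true,0,⟨0,[(42,0)]⟩,⟨0,[(41,0)]⟩⟩,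
  ⟨false,1,⟨0,[(8,0),(21,0)]⟩,⟨5,[(2,1),(6,3),(2,1),(0,1),(12,1),(4,1),(11,0),(0,0)]⟩⟩,[.o ⟨false,0,
  ⟨0,[(16,0)]⟩,⟨7,[(12,3),(0,1),(14,3),(8,0),(5,4),(0,5)]⟩⟩,.a ⟨true,0,⟨0,[(1,0),(1,0),(22,0)]⟩,⟨0,
  [(15,0),(6,0),(19,2)]⟩⟩ ⟨true,0,⟨4,[(2,2),(0,0),(0,0),(12,0),(22,0),(1,5)]⟩,⟨1,[(12,0),(3,0),(5,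
  0),(1,0)]⟩⟩ ⟨false,1,⟨0,[(1,0),(1,0),(39,0)]⟩,⟨7,[(12,3),(0,1),(12,7),(1,3),(8,0),(5,0),(0,1)]⟩⟩,
  .o ⟨false,0,⟨2,[(11,0),(14,2),(2,0),(7,0)]⟩,⟨1,[(27,1),(9,0),(5,0)]⟩⟩,.o ⟨false,0,⟨8,[(4,2),(4,2),
  (1,4),(12,2),(1,5),(2,1),(1,2),(5,1)]⟩,⟨0,[(1,0),(0,0),(7,0),(11,0),(19,4)]⟩⟩]⟩) (.R ⟨0,false,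
  false,true,[0,0,0,1],[0,-1,1],[0,1,-1,-1,0,0,0,1],(⟨0,[(27,0)]⟩,⟨0,[(26,0)]⟩),(⟨0,[(20,0)]⟩,⟨1,
  [(6,0),(19,0),(0,0),(7,0)]⟩),⟨0,[(0,0)]⟩,.k,.k,(.x 0 ⟨2,[(11,1),(6,0),(1,0),(3,0),(0,0),(3,1),(8,
  0)]⟩ ⟨1,[(6,0),(29,0),(6,1)]⟩),(.r 1 ⟨1,[(2,0),(0,0),(8,0),(29,1)]⟩ ⟨6,[(1,0),(5,0),(6,1),(2,2),
  (4,0),(1,4),(0,1),(0,0),(16,2)]⟩),.k,.k,⟨false,1,⟨3,[(24,0),(0,0),(17,1)]⟩,⟨0,[]⟩⟩,⟨true,0,⟨0,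
  [(21,0),(5,0)]⟩,⟨0,[(26,0),(2,0)]⟩⟩,⟨true,1,⟨5,[(0,3),(0,3),(8,1),(7,1),(1,1),(1,5),(1,0),(5,1),
  (11,5),(0,0)]⟩,⟨1,[(2,0),(0,0),(8,0),(29,1)]⟩⟩,⟨false,1,⟨0,[(1,0),(44,0)]⟩,⟨11,[(2,3),(6,5),(2,7),
  (0,5),(11,0),(0,5),(15,3),(0,5),(0,0)]⟩⟩,⟨false,0,⟨0,[]⟩,⟨0,[]⟩⟩,⟨false,0,⟨0,[]⟩,⟨0,[]⟩⟩,[.o
  ⟨false,0,⟨0,[(16,0)]⟩,⟨7,[(12,3),(0,1),(14,3),(8,0),(5,4),(0,5)]⟩⟩,.a ⟨true,0,⟨0,[(1,0),(1,0),(22,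
  0)]⟩,⟨0,[(15,0),(6,0),(19,2)]⟩⟩ ⟨true,1,⟨163,[(1,15),(0,5),(4,25),(6,41),(2,71),(4,25),(2,4),(0,
  15),(16,70)]⟩,⟨3,[(11,0),(0,2),(2,0),(6,0)]⟩⟩ ⟨false,1,⟨0,[(1,0),(1,0),(39,0)]⟩,⟨7,[(12,3),(0,1),
  (12,7),(1,3),(8,0),(5,0),(0,1)]⟩⟩,.o ⟨false,0,⟨2,[(11,0),(14,2),(2,0),(7,0)]⟩,⟨1,[(27,1),(9,0),(5,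
  0)]⟩⟩,.o ⟨false,0,⟨8,[(4,2),(4,2),(1,4),(12,2),(1,5),(2,1),(1,2),(5,1)]⟩,⟨0,[(1,0),(0,0),(7,0),
  (11,0),(19,4)]⟩⟩]⟩)))) (.Q [0,0,0,0,0,0,-2,-2,0,-1,2] (.p true [0,0,1] [1,0,-1] (⟨0,[(33,0)]⟩,⟨0,
  [(32,0)]⟩) .k 2 (⟨0,[(32,0)]⟩,⟨0,[(33,0)]⟩) .k (.r (-1) ⟨0,[(14,0),(28,0)]⟩ ⟨0,[(31,1)]⟩)) (.Q [0,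
  0,0,1,0,0,1,1,0,1,-1] (.p false [0,0,1] [1] (⟨0,[(34,0)]⟩,⟨0,[(33,0)]⟩) .k 1 (⟨0,[]⟩,⟨0,[]⟩) .k
  .k) (.R ⟨0,false,false,false,[0,-1,1],[1,-1,-1],[],(⟨0,[(19,0)]⟩,⟨1,[(5,0),(19,0),(0,0),(7,0)]⟩),
  (⟨0,[(17,0)]⟩,⟨1,[(5,0),(29,2)]⟩),⟨0,[(5,0)]⟩,.k,.k,(.r (-2) ⟨15,[(6,7),(6,7),(2,3),(4,7),(1,0),
  (0,0),(17,15),(0,9)]⟩ ⟨0,[(10,0),(3,0),(6,0),(19,3)]⟩),.k,.k,.k,⟨true,0,⟨2,[(0,0),(10,0),(0,0),(3,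
  0),(12,0)]⟩,⟨3,[(13,0),(0,1),(7,0),(7,0)]⟩⟩,⟨false,1,⟨0,[(12,0),(29,0)]⟩,⟨0,[(22,0)]⟩⟩,⟨false,0,
  ⟨1,[(11,0),(21,0),(9,0)]⟩,⟨17,[(6,3),(6,3),(0,1),(1,7),(4,3),(20,8),(0,0)]⟩⟩,⟨true,0,⟨0,[(1,0)]⟩,
  ⟨1,[(0,0),(5,0),(22,0)]⟩⟩,⟨false,0,⟨0,[]⟩,⟨0,[]⟩⟩,⟨false,0,⟨0,[]⟩,⟨0,[]⟩⟩,[.a ⟨true,0,⟨3,[(1,0),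
  (12,1),(6,1),(3,0),(0,0)]⟩,⟨0,[(0,0)]⟩⟩ ⟨false,1,⟨3,[(23,0),(0,0),(17,1)]⟩,⟨0,[]⟩⟩ ⟨true,1,⟨5,[(1,
  3),(11,1),(2,1),(4,1),(20,2),(0,0)]⟩,⟨0,[(0,0),(9,0)]⟩⟩,.o ⟨false,1,⟨15,[(1,3),(11,7),(9,0),(0,0),
  (11,1),(6,11)]⟩,⟨0,[(29,0),(11,0)]⟩⟩,.o ⟨false,0,⟨0,[(31,0)]⟩,⟨3,[(12,1),(23,0),(5,2)]⟩⟩,.o
  ⟨false,(-1),⟨0,[(10,0)]⟩,⟨3,[(12,1),(10,0),(0,0),(11,0),(5,4)]⟩⟩]⟩) (.Q [0,0,0,0,0,-1,0,0,0,1,0,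
  -1] (.p false [0,0,0,1] [1] (⟨0,[(26,0)]⟩,⟨0,[(25,0)]⟩) .k 1 (⟨0,[]⟩,⟨0,[]⟩) .k .k) (.I [0,0,-2,
  -2,1,0,0,-1,-1] (.Q [0,-1,-1,-2,1,0,-1,-1,-1,-1,1,1] (.p true [0,0,1] [1,0,0,-1] (⟨0,[(37,0)]⟩,⟨0,
  [(36,0)]⟩) .k 2 (⟨0,[(27,0)]⟩,⟨0,[(28,0)]⟩) .k (.x 0 ⟨0,[(33,0),(3,0)]⟩ ⟨11,[(7,3),(6,5),(4,7),(5,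
  0),(0,0),(11,0),(5,8)]⟩)) (.R ⟨1,false,false,true,[1,0,0,-1],[0,1,1],[0,1,0,0,0,0,0,0,-1],(⟨0,
  [(28,0)]⟩,⟨0,[(29,0)]⟩),(⟨1,[(8,0),(29,2)]⟩,⟨0,[(20,0)]⟩),⟨0,[(2,0)]⟩,.k,.k,(.x (-1) ⟨7,[(20,3),
  (1,3),(3,2),(0,2),(11,1)]⟩ ⟨0,[(41,0)]⟩),(.r (-1) ⟨7,[(1,3),(24,2),(0,0),(8,3)]⟩ ⟨0,[(6,0),(37,
  0)]⟩),(.r (-1) ⟨0,[(1,0)]⟩ ⟨5,[(6,3),(7,3),(4,2),(7,0),(16,3),(3,2)]⟩),.k,⟨false,1,⟨0,[(1,0),(42,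
  0)]⟩,⟨0,[(6,0),(37,0)]⟩⟩,⟨true,0,⟨0,[(23,0),(4,0)]⟩,⟨0,[(29,0),(1,0)]⟩⟩,⟨true,0,⟨0,[(48,0)]⟩,⟨0,
  []⟩⟩,⟨false,0,⟨5,[(6,0),(2,2),(1,2),(2,0),(12,0),(0,2),(15,6)]⟩,⟨0,[(3,0),(6,0)]⟩⟩,⟨false,0,⟨0,
  [(44,0)]⟩,⟨17,[(0,1),(8,3),(6,3),(0,1),(8,1),(0,2),(0,1),(6,1),(10,10)]⟩⟩,⟨false,0,⟨5,[(6,0),(2,
  2),(1,2),(2,0),(12,0),(0,2),(15,12)]⟩,⟨0,[(0,0)]⟩⟩,[.o ⟨false,0,⟨0,[(32,0),(11,0)]⟩,⟨15,[(4,3),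
  (11,7),(9,0),(0,0),(11,1),(6,11)]⟩⟩,.o ⟨false,1,⟨11,[(19,3),(5,3),(0,2),(0,2),(4,3),(6,1),(4,
  11)]⟩,⟨0,[(3,0)]⟩⟩,.o ⟨false,1,⟨1,[(29,1),(9,0),(5,0)]⟩,⟨2,[(13,0),(14,2),(2,0),(7,0)]⟩⟩,.a ⟨true,
  0,⟨0,[(29,0)]⟩,⟨0,[(28,0)]⟩⟩ ⟨false,1,⟨1,[(26,0),(18,0)]⟩,⟨0,[(11,0),(17,0)]⟩⟩ ⟨true,0,⟨0,[(28,0),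
  (3,0),(11,0)]⟩,⟨0,[(3,0),(25,0)]⟩⟩]⟩) (.R ⟨1,true,false,true,[1,0,0,-1],[0,1,1],[0,1,0,0,0,0,0,0,
  -1],(⟨0,[(28,0)]⟩,⟨0,[(29,0)]⟩),(⟨1,[(8,0),(29,2)]⟩,⟨0,[(20,0)]⟩),⟨0,[(2,0)]⟩,.k,.k,(.x (-1) ⟨7,
  [(20,3),(1,3),(3,2),(0,2),(11,1)]⟩ ⟨0,[(41,0)]⟩),(.r (-1) ⟨7,[(1,3),(24,2),(0,0),(8,3)]⟩ ⟨0,[(6,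
  0),(37,0)]⟩),(.r (-1) ⟨0,[(1,0)]⟩ ⟨13,[(0,3),(5,1),(7,9),(0,1),(3,8),(7,3),(1,3),(9,0),(8,4)]⟩),
  .k,⟨false,1,⟨0,[(1,0),(42,0)]⟩,⟨0,[(6,0),(37,0)]⟩⟩,⟨true,0,⟨0,[(23,0),(4,0)]⟩,⟨0,[(29,0),(1,0)]⟩⟩,
  ⟨true,0,⟨0,[(48,0)]⟩,⟨0,[]⟩⟩,⟨false,0,⟨55,[(0,31),(8,7),(1,7),(1,7),(5,3),(6,6),(0,14),(0,15),(17,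
  13)]⟩,⟨0,[(3,0),(6,0)]⟩⟩,⟨false,0,⟨0,[(44,0)]⟩,⟨35,[(1,3),(7,7),(6,7),(0,3),(8,2),(0,4),(7,7),(10,
  23)]⟩⟩,⟨true,(-1),⟨0,[(0,0)]⟩,⟨0,[(10,0),(5,0)]⟩⟩,[]⟩)) (.R ⟨1,false,false,true,[1,0,0,-1],[1,-1],
  [0,1,0,0,0,0,0,0,-1],(⟨0,[(27,0)]⟩,⟨0,[(28,0)]⟩),(⟨0,[(39,0)]⟩,⟨0,[(40,0)]⟩),⟨0,[(1,0)]⟩,.k,.k,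
  (.x (-1) ⟨7,[(19,3),(1,3),(3,2),(0,2),(11,1)]⟩ ⟨0,[(40,0)]⟩),(.r 0 ⟨0,[(4,0),(7,0),(10,0),(19,
  1)]⟩ ⟨17,[(5,3),(0,1),(1,1),(7,7),(6,3),(2,6),(17,10)]⟩),.k,.k,⟨true,0,⟨0,[(4,0),(7,0),(10,0),(19,
  1)]⟩,⟨10,[(0,10),(7,3),(6,4),(0,13),(6,4),(0,0),(19,10)]⟩⟩,⟨false,0,⟨2,[(12,0),(14,2),(2,0),(7,
  0)]⟩,⟨0,[(28,0),(15,0)]⟩⟩,⟨true,0,⟨0,[(47,0)]⟩,⟨0,[]⟩⟩,⟨false,0,⟨0,[(10,0),(31,0)]⟩,⟨0,[(9,0),(33,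
  0)]⟩⟩,⟨false,0,⟨0,[(43,0)]⟩,⟨19,[(8,3),(6,3),(0,3),(6,3),(1,2),(0,2),(18,13)]⟩⟩,⟨false,0,⟨0,[(10,
  0),(36,0)]⟩,⟨0,[(9,0)]⟩⟩,[.o ⟨false,0,⟨0,[(11,0)]⟩,⟨3,[(25,0),(0,0),(16,3),(1,1)]⟩⟩,.o ⟨false,1,
  ⟨3,[(6,1),(18,0),(0,0),(11,0),(6,0)]⟩,⟨0,[(43,0)]⟩⟩,.o ⟨false,1,⟨1,[(28,1),(9,0),(5,0)]⟩,⟨2,[(12,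
  0),(14,2),(2,0),(7,0)]⟩⟩,.a ⟨true,0,⟨0,[(28,0)]⟩,⟨0,[(27,0)]⟩⟩ ⟨false,1,⟨1,[(25,0),(18,0)]⟩,⟨3,
  [(0,0),(4,0),(10,1),(9,0),(14,0)]⟩⟩ ⟨true,0,⟨0,[(11,0),(15,0)]⟩,⟨0,[(28,0),(14,0)]⟩⟩]⟩)) (.I [1,1,
  0,0,0,0,0,1,1] (.R ⟨0,false,false,true,[1,0,0,-1],[1,-1],[0,1,0,0,0,0,0,0,-1],(⟨0,[(27,0)]⟩,⟨0,
  [(28,0)]⟩),(⟨0,[(39,0)]⟩,⟨0,[(40,0)]⟩),⟨0,[(1,0)]⟩,.k,.k,(.x (-1) ⟨7,[(19,3),(1,3),(3,2),(0,2),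
  (11,1)]⟩ ⟨0,[(40,0)]⟩),(.r 0 ⟨0,[(4,0),(7,0),(10,0),(19,1)]⟩ ⟨45,[(0,7),(7,5),(6,5),(0,21),(1,3),
  (4,5),(2,18),(17,22)]⟩),.k,.k,⟨true,0,⟨0,[(4,0),(7,0),(10,0),(19,1)]⟩,⟨0,[(0,0),(15,0)]⟩⟩,⟨false,
  0,⟨2,[(12,0),(14,2),(2,0),(7,0)]⟩,⟨0,[(28,0),(15,0)]⟩⟩,⟨true,0,⟨0,[(47,0)]⟩,⟨0,[]⟩⟩,⟨false,0,⟨0,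
  [(10,0),(31,0)]⟩,⟨0,[(9,0),(33,0)]⟩⟩,⟨false,0,⟨0,[]⟩,⟨0,[]⟩⟩,⟨false,0,⟨0,[]⟩,⟨0,[]⟩⟩,[.o ⟨false,0,
  ⟨0,[(11,0)]⟩,⟨3,[(25,0),(0,0),(16,3),(1,1)]⟩⟩,.o ⟨false,1,⟨3,[(6,1),(18,0),(0,0),(11,0),(6,0)]⟩,
  ⟨0,[(43,0)]⟩⟩,.o ⟨false,1,⟨1,[(28,1),(9,0),(5,0)]⟩,⟨2,[(12,0),(14,2),(2,0),(7,0)]⟩⟩,.a ⟨true,0,⟨0,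
  [(28,0)]⟩,⟨0,[(27,0)]⟩⟩ ⟨false,1,⟨1,[(25,0),(18,0)]⟩,⟨0,[(10,0),(17,0)]⟩⟩ ⟨true,0,⟨0,[(11,0),(15,
  0)]⟩,⟨0,[(28,0),(14,0)]⟩⟩]⟩) (.R ⟨0,false,false,false,[1,0,0,-1],[0,1],[0,1,0,0,0,0,0,0,-1],(⟨0,
  [(27,0)]⟩,⟨0,[(28,0)]⟩),(⟨0,[(40,0)]⟩,⟨0,[(39,0)]⟩),⟨0,[(1,0)]⟩,.k,.k,(.x (-1) ⟨7,[(19,3),(1,3),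
  (3,2),(0,2),(11,1)]⟩ ⟨0,[(40,0)]⟩),(.x (-1) ⟨7,[(19,3),(1,3),(3,2),(0,2),(11,1)]⟩ ⟨0,[(40,0)]⟩),
  .k,.k,⟨false,1,⟨0,[(0,0),(22,0),(7,0),(12,0)]⟩,⟨0,[(10,0),(17,0),(14,0)]⟩⟩,⟨true,0,⟨0,[(27,0)]⟩,
  ⟨2,[(12,0),(15,2),(1,0),(7,0)]⟩⟩,⟨true,0,⟨0,[(47,0)]⟩,⟨0,[]⟩⟩,⟨false,0,⟨0,[(10,0),(16,0),(0,0),
  (14,0)]⟩,⟨0,[(9,0),(1,0)]⟩⟩,⟨false,0,⟨0,[]⟩,⟨0,[]⟩⟩,⟨false,0,⟨0,[]⟩,⟨0,[]⟩⟩,[.o ⟨false,0,⟨0,[(43,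
  0)]⟩,⟨3,[(6,1),(18,0),(0,0),(11,0),(6,0)]⟩⟩,.o ⟨false,1,⟨3,[(25,0),(0,0),(16,3),(1,1)]⟩,⟨0,[(11,
  0)]⟩⟩,.o ⟨false,1,⟨1,[(28,1),(9,0),(5,0)]⟩,⟨2,[(12,0),(14,2),(2,0),(7,0)]⟩⟩,.a ⟨true,0,⟨0,[(28,
  0)]⟩,⟨0,[(27,0)]⟩⟩ ⟨false,1,⟨1,[(25,0),(18,0)]⟩,⟨0,[(10,0),(17,0)]⟩⟩ ⟨true,0,⟨0,[(27,0),(15,0)]⟩,
  ⟨0,[(11,0),(16,0)]⟩⟩]⟩)))) (.R ⟨0,false,false,true,[0,-1,1],[1,-1,-1],[1,1,-1,-1,0,0,0,-1],(⟨0,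
  [(18,0)]⟩,⟨1,[(4,0),(19,0),(0,0),(7,0)]⟩),(⟨0,[(16,0)]⟩,⟨1,[(4,0),(29,2)]⟩),⟨0,[(4,0)]⟩,.k,.k,(.r
  (-2) ⟨15,[(5,7),(6,7),(2,3),(4,7),(1,0),(0,0),(17,15),(0,9)]⟩ ⟨0,[(9,0),(3,0),(6,0),(19,3)]⟩),.k,
  .k,.k,⟨true,0,⟨0,[]⟩,⟨5,[(9,1),(12,0),(0,0),(7,1)]⟩⟩,⟨false,1,⟨0,[(11,0),(29,0)]⟩,⟨0,[(21,0)]⟩⟩,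
  ⟨false,0,⟨0,[(32,1)]⟩,⟨0,[(15,0)]⟩⟩,⟨true,0,⟨0,[(13,0),(6,0),(5,0),(13,1)]⟩,⟨0,[(0,0)]⟩⟩,⟨false,0,
  ⟨0,[]⟩,⟨0,[]⟩⟩,⟨false,0,⟨0,[]⟩,⟨0,[]⟩⟩,[.o ⟨false,0,⟨0,[(17,0)]⟩,⟨7,[(0,3),(21,0),(0,0),(11,1),(4,
  7),(1,3)]⟩⟩,.a ⟨true,0,⟨0,[(13,0),(6,0),(19,0)]⟩,⟨1,[(0,0),(23,0),(0,0),(14,1)]⟩⟩ ⟨false,1,⟨3,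
  [(12,0),(0,1),(7,0),(7,0),(11,3)]⟩,⟨2,[(0,0),(9,0),(0,0),(3,0),(24,0),(3,0)]⟩⟩ ⟨true,1,⟨5,[(11,3),
  (0,1),(0,1),(15,1),(11,4),(0,0)]⟩,⟨3,[(0,2),(8,1),(0,1),(13,0),(0,0)]⟩⟩,.o ⟨false,0,⟨0,[(30,0)]⟩,
  ⟨3,[(11,1),(23,0),(5,2)]⟩⟩,.o ⟨false,(-1),⟨0,[(9,0)]⟩,⟨3,[(11,1),(10,0),(0,0),(11,0),(5,
  4)]⟩⟩]⟩))) (.Q [0,0,0,0,0,-1,0,0,0,1,0,-1] (.p false [0,0,0,1] [1] (⟨0,[(23,0)]⟩,⟨0,[(22,0)]⟩) .k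
  1 (⟨0,[]⟩,⟨0,[]⟩) .k .k) (.R ⟨1,false,false,false,[1,0,0,-1],[0,1],[0,0,0,0,0,0,0,0,-1],(⟨0,[(23,
  0)]⟩,⟨0,[(24,0)]⟩),(⟨0,[(36,0)]⟩,⟨0,[(35,0)]⟩),⟨0,[(0,0)]⟩,.k,.k,(.x (-1) ⟨7,[(15,3),(1,3),(3,2),
  (0,2),(11,1)]⟩ ⟨0,[(36,0)]⟩),(.x (-1) ⟨7,[(15,3),(1,3),(3,2),(0,2),(11,1)]⟩ ⟨0,[(36,0)]⟩),(.r
  (-1) ⟨2,[(1,2),(0,0),(1,0),(7,0),(1,0),(4,1),(17,0),(2,1)]⟩ ⟨1,[(9,1),(4,0),(7,0),(20,0)]⟩),.k,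
  ⟨false,1,⟨23,[(1,22),(2,4),(0,0),(5,5),(0,2),(1,10),(4,3),(3,0),(16,11)]⟩,⟨3,[(6,1),(2,0),(9,0),
  (2,0),(1,1),(2,0),(11,2)]⟩⟩,⟨true,0,⟨0,[(23,0)]⟩,⟨2,[(8,0),(15,2),(1,0),(7,0)]⟩⟩,⟨false,1,⟨3,[(21,
  0),(0,0),(18,1)]⟩,⟨0,[]⟩⟩,⟨false,0,⟨0,[(6,0),(16,0),(0,0),(14,0)]⟩,⟨0,[(5,0),(1,0)]⟩⟩,⟨true,0,⟨0,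
  [(39,0)]⟩,⟨0,[(38,0)]⟩⟩,⟨false,0,⟨0,[(6,0),(16,0),(0,0),(14,1)]⟩,⟨0,[(2,0),(2,0)]⟩⟩,[.o ⟨false,0,
  ⟨0,[(39,0)]⟩,⟨3,[(2,1),(18,0),(0,0),(11,0),(6,0)]⟩⟩,.o ⟨false,1,⟨3,[(21,0),(0,0),(16,3),(1,1)]⟩,
  ⟨0,[(7,0)]⟩⟩,.o ⟨false,1,⟨1,[(24,1),(9,0),(5,0)]⟩,⟨2,[(8,0),(14,2),(2,0),(7,0)]⟩⟩,.a ⟨true,0,⟨0,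
  [(24,0)]⟩,⟨0,[(23,0)]⟩⟩ ⟨false,1,⟨5,[(1,3),(12,1),(6,0),(18,0),(0,1)]⟩,⟨6,[(6,2),(1,0),(0,0),(9,
  1),(2,1),(1,2),(2,0)]⟩⟩ ⟨true,0,⟨0,[(23,0),(15,0)]⟩,⟨0,[(7,0),(16,0)]⟩⟩]⟩) (.R ⟨0,false,false,
  false,[1,0,0,-1],[0,1],[1,1,0,-1,0,0,0,0,-1],(⟨0,[(23,0)]⟩,⟨0,[(24,0)]⟩),(⟨0,[(36,0)]⟩,⟨0,[(35,
  0)]⟩),⟨0,[(0,0)]⟩,.k,.k,(.x (-1) ⟨7,[(15,3),(1,3),(3,2),(0,2),(11,1)]⟩ ⟨0,[(36,0)]⟩),(.x (-1) ⟨7,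
  [(15,3),(1,3),(3,2),(0,2),(11,1)]⟩ ⟨0,[(36,0)]⟩),.k,.k,⟨false,1,⟨47,[(1,33),(2,21),(0,7),(5,29),
  (2,9),(4,13),(1,2),(1,7),(16,26)]⟩,⟨0,[(6,0),(17,0),(14,1)]⟩⟩,⟨true,0,⟨0,[(23,0)]⟩,⟨2,[(8,0),(15,
  2),(1,0),(7,0)]⟩⟩,⟨true,0,⟨0,[(38,0)]⟩,⟨0,[(39,0)]⟩⟩,⟨false,0,⟨0,[(6,0),(16,0),(0,0),(14,0)]⟩,⟨0,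
  [(5,0),(1,0)]⟩⟩,⟨false,0,⟨0,[]⟩,⟨0,[]⟩⟩,⟨false,0,⟨0,[]⟩,⟨0,[]⟩⟩,[.o ⟨false,0,⟨0,[(39,0)]⟩,⟨3,[(2,
  1),(18,0),(0,0),(11,0),(6,0)]⟩⟩,.o ⟨false,1,⟨3,[(21,0),(0,0),(16,3),(1,1)]⟩,⟨0,[(7,0)]⟩⟩,.o
  ⟨false,1,⟨1,[(24,1),(9,0),(5,0)]⟩,⟨2,[(8,0),(14,2),(2,0),(7,0)]⟩⟩,.a ⟨true,0,⟨0,[(24,0)]⟩,⟨0,[(23,
  0)]⟩⟩ ⟨false,1,⟨5,[(1,0),(2,0),(0,0),(5,1),(0,0),(1,0),(6,1),(1,0),(16,1)]⟩,⟨0,[(6,0),(17,0),(14,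
  0)]⟩⟩ ⟨true,0,⟨0,[(23,0),(15,0)]⟩,⟨0,[(7,0),(16,0)]⟩⟩]⟩)))) (.I [0,0,-1,-1,1,0,0,1,-1] (.Q [0,0,0,
  1,0,0,1,1,0,1,-1,-1] (.p false [0,0,1] [1,0,0,-1] (⟨0,[(31,0)]⟩,⟨0,[(30,0)]⟩) .k 2 (⟨0,[(21,0)]⟩,
  ⟨0,[(22,0)]⟩) .k (.x 0 ⟨0,[(27,0),(3,0)]⟩ ⟨3,[(8,1),(21,3),(1,0),(5,2)]⟩)) (.I [0,1,0,-1,0,0,0,0,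
  -1] (.Q [0,0,0,0,0,-1,0,0,0,1,0,-1] (.p false [0,0,0,1] [1] (⟨0,[(24,0)]⟩,⟨0,[(23,0)]⟩) .k 1 (⟨0,
  []⟩,⟨0,[]⟩) .k .k) (.R ⟨1,false,false,false,[1,0,0,-1],[0,1],[0,1,0,0,0,0,0,0,-1],(⟨0,[(24,0)]⟩,
  ⟨0,[(25,0)]⟩),(⟨0,[(37,0)]⟩,⟨0,[(36,0)]⟩),⟨0,[(0,0)]⟩,.k,.k,(.x (-1) ⟨11,[(4,3),(11,3),(5,4),(0,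
  4),(11,1)]⟩ ⟨0,[(37,0)]⟩),(.x (-1) ⟨11,[(4,3),(11,3),(5,4),(0,4),(11,1)]⟩ ⟨0,[(37,0)]⟩),(.x 0 ⟨11,
  [(4,7),(4,3),(6,7),(5,0),(0,0),(3,3),(7,1)]⟩ ⟨3,[(22,0),(0,0),(13,7),(3,1)]⟩),.k,⟨false,1,⟨0,[(1,
  0),(39,0)]⟩,⟨0,[(7,0),(17,0),(14,0)]⟩⟩,⟨true,0,⟨0,[(24,0)]⟩,⟨2,[(9,0),(15,2),(1,0),(7,0)]⟩⟩,⟨true,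
  0,⟨0,[(44,0)]⟩,⟨0,[]⟩⟩,⟨false,0,⟨0,[(7,0),(16,0),(0,0),(14,0)]⟩,⟨0,[(6,0),(1,0)]⟩⟩,⟨false,0,⟨0,
  [(40,0)]⟩,⟨19,[(5,3),(6,3),(0,3),(6,3),(1,2),(0,2),(18,13)]⟩⟩,⟨false,0,⟨0,[(7,0),(16,0),(0,0),(14,
  1)]⟩,⟨1,[(3,0),(2,0),(1,1),(4,0),(11,0)]⟩⟩,[.o ⟨false,0,⟨0,[(40,0)]⟩,⟨19,[(5,3),(6,7),(9,2),(0,2),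
  (11,7),(6,5)]⟩⟩,.o ⟨false,1,⟨3,[(22,0),(0,0),(16,3),(1,1)]⟩,⟨0,[(8,0)]⟩⟩,.o ⟨false,1,⟨1,[(25,1),
  (9,0),(5,0)]⟩,⟨2,[(9,0),(14,2),(2,0),(7,0)]⟩⟩,.a ⟨true,0,⟨0,[(25,0)]⟩,⟨0,[(24,0)]⟩⟩ ⟨false,1,⟨1,
  [(22,0),(18,0)]⟩,⟨0,[(7,0),(17,0)]⟩⟩ ⟨true,0,⟨0,[(24,0),(15,0)]⟩,⟨0,[(8,0),(16,0)]⟩⟩]⟩) (.R ⟨0,
  false,false,false,[1,0,0,-1],[0,1],[0,1,0,0,0,0,0,0,-1],(⟨0,[(24,0)]⟩,⟨0,[(25,0)]⟩),(⟨0,[(37,0)]⟩,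
  ⟨0,[(36,0)]⟩),⟨0,[(0,0)]⟩,.k,.k,(.x (-1) ⟨11,[(4,3),(11,3),(5,4),(0,4),(11,1)]⟩ ⟨0,[(37,0)]⟩),(.x
  (-1) ⟨11,[(4,3),(11,3),(5,4),(0,4),(11,1)]⟩ ⟨0,[(37,0)]⟩),.k,.k,⟨false,1,⟨0,[(1,0),(39,0)]⟩,⟨0,
  [(7,0),(17,0),(14,0)]⟩⟩,⟨true,0,⟨0,[(24,0)]⟩,⟨2,[(9,0),(15,2),(1,0),(7,0)]⟩⟩,⟨true,0,⟨0,[(44,0)]⟩,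
  ⟨0,[]⟩⟩,⟨false,0,⟨0,[(7,0),(16,0),(0,0),(14,0)]⟩,⟨0,[(6,0),(1,0)]⟩⟩,⟨false,0,⟨0,[]⟩,⟨0,[]⟩⟩,
  ⟨false,0,⟨0,[]⟩,⟨0,[]⟩⟩,[.o ⟨false,0,⟨0,[(40,0)]⟩,⟨19,[(5,3),(6,7),(9,2),(0,2),(11,7),(6,5)]⟩⟩,.o
  ⟨false,1,⟨3,[(22,0),(0,0),(16,3),(1,1)]⟩,⟨0,[(8,0)]⟩⟩,.o ⟨false,1,⟨1,[(25,1),(9,0),(5,0)]⟩,⟨2,[(9,
  0),(14,2),(2,0),(7,0)]⟩⟩,.a ⟨true,0,⟨0,[(25,0)]⟩,⟨0,[(24,0)]⟩⟩ ⟨false,1,⟨1,[(22,0),(18,0)]⟩,⟨0,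
  [(7,0),(17,0)]⟩⟩ ⟨true,0,⟨0,[(24,0),(15,0)]⟩,⟨0,[(8,0),(16,0)]⟩⟩]⟩)) (.Q [0,0,0,0,0,-1,0,0,0,1,0,
  -1] (.p false [0,0,0,1] [1] (⟨0,[(24,0)]⟩,⟨0,[(23,0)]⟩) .k 1 (⟨0,[]⟩,⟨0,[]⟩) .k .k) (.R ⟨1,false,
  false,true,[1,0,0,-1],[1,-1],[0,1,0,0,0,0,0,0,-1],(⟨0,[(24,0)]⟩,⟨0,[(25,0)]⟩),(⟨0,[(36,0)]⟩,⟨0,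
  [(37,0)]⟩),⟨0,[(0,0)]⟩,.k,.k,(.x (-1) ⟨11,[(4,3),(11,3),(5,4),(0,4),(11,1)]⟩ ⟨0,[(37,0)]⟩),(.r 0
  ⟨0,[(3,0),(6,0)]⟩ ⟨49,[(1,7),(3,9),(6,9),(0,17),(1,3),(4,9),(2,20),(17,24)]⟩),.k,.k,⟨true,0,⟨0,
  [(3,0),(6,0)]⟩,⟨10,[(1,10),(3,3),(6,4),(0,2),(6,4),(0,0)]⟩⟩,⟨false,0,⟨2,[(9,0),(14,2),(2,0),(7,
  0)]⟩,⟨0,[(25,0),(15,0)]⟩⟩,⟨true,0,⟨0,[(44,0)]⟩,⟨0,[]⟩⟩,⟨false,0,⟨0,[(7,0),(31,0)]⟩,⟨0,[(6,0),(33,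
  0)]⟩⟩,⟨false,0,⟨0,[(40,0)]⟩,⟨19,[(5,3),(6,3),(0,3),(6,3),(1,2),(0,2),(18,13)]⟩⟩,⟨false,0,⟨0,[(7,
  0),(36,0)]⟩,⟨0,[(6,0)]⟩⟩,[.o ⟨false,0,⟨0,[(8,0)]⟩,⟨3,[(22,0),(0,0),(16,3),(1,1)]⟩⟩,.o ⟨false,1,
  ⟨19,[(5,3),(6,7),(9,2),(0,2),(11,7),(6,5)]⟩,⟨0,[(40,0)]⟩⟩,.o ⟨false,1,⟨1,[(25,1),(9,0),(5,0)]⟩,⟨2,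
  [(9,0),(14,2),(2,0),(7,0)]⟩⟩,.a ⟨true,0,⟨0,[(25,0)]⟩,⟨0,[(24,0)]⟩⟩ ⟨false,1,⟨1,[(22,0),(18,0)]⟩,
  ⟨28,[(1,12),(3,0),(3,7),(2,0),(0,0),(6,8),(2,7),(14,12)]⟩⟩ ⟨true,0,⟨0,[(2,0),(9,0)]⟩,⟨0,[(25,0),
  (14,0)]⟩⟩]⟩) (.R ⟨0,false,false,true,[1,0,0,-1],[1,-1],[0,1,0,0,0,0,0,0,-1],(⟨0,[(24,0)]⟩,⟨0,[(25,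
  0)]⟩),(⟨0,[(36,0)]⟩,⟨0,[(37,0)]⟩),⟨0,[(0,0)]⟩,.k,.k,(.x (-1) ⟨11,[(4,3),(11,3),(5,4),(0,4),(11,
  1)]⟩ ⟨0,[(37,0)]⟩),(.r 0 ⟨0,[(3,0),(6,0)]⟩ ⟨49,[(1,7),(3,9),(6,9),(0,17),(1,3),(4,9),(2,20),(17,
  24)]⟩),.k,.k,⟨true,0,⟨0,[(3,0),(6,0)]⟩,⟨10,[(1,10),(3,3),(6,4),(0,2),(6,4),(0,0)]⟩⟩,⟨false,0,⟨2,
  [(9,0),(14,2),(2,0),(7,0)]⟩,⟨0,[(25,0),(15,0)]⟩⟩,⟨true,0,⟨0,[(44,0)]⟩,⟨0,[]⟩⟩,⟨false,0,⟨0,[(7,0),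
  (31,0)]⟩,⟨0,[(6,0),(33,0)]⟩⟩,⟨false,0,⟨0,[]⟩,⟨0,[]⟩⟩,⟨false,0,⟨0,[]⟩,⟨0,[]⟩⟩,[.o ⟨false,0,⟨0,[(8,
  0)]⟩,⟨3,[(22,0),(0,0),(16,3),(1,1)]⟩⟩,.o ⟨false,1,⟨19,[(5,3),(6,7),(9,2),(0,2),(11,7),(6,5)]⟩,⟨0,
  [(40,0)]⟩⟩,.o ⟨false,1,⟨1,[(25,1),(9,0),(5,0)]⟩,⟨2,[(9,0),(14,2),(2,0),(7,0)]⟩⟩,.a ⟨true,0,⟨0,
  [(25,0)]⟩,⟨0,[(24,0)]⟩⟩ ⟨false,1,⟨1,[(22,0),(18,0)]⟩,⟨28,[(1,12),(3,0),(3,7),(2,0),(0,0),(6,8),(2,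
  7),(14,12)]⟩⟩ ⟨true,0,⟨0,[(2,0),(9,0)]⟩,⟨0,[(25,0),(14,0)]⟩⟩]⟩))) (.Q [0,0,0,0,0,-1,0,0,0,1,0,-1]
  (.p false [0,0,0,1] [1] (⟨0,[(23,0)]⟩,⟨0,[(22,0)]⟩) .k 1 (⟨0,[]⟩,⟨0,[]⟩) .k .k) (.I [1,-1,0,0,0,0,
  0,-1,-1] (.R ⟨1,false,false,false,[1,0,0,-1],[0,1],[0,1,0,0,0,0,0,0,-1],(⟨0,[(24,0)]⟩,⟨0,[(25,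
  0)]⟩),(⟨0,[(37,0)]⟩,⟨0,[(36,0)]⟩),⟨0,[(1,0)]⟩,.k,.k,(.x (-1) ⟨11,[(4,3),(11,3),(5,4),(0,4),(11,
  1)]⟩ ⟨0,[(37,0)]⟩),(.x (-1) ⟨11,[(4,3),(11,3),(5,4),(0,4),(11,1)]⟩ ⟨0,[(37,0)]⟩),(.x 0 ⟨11,[(4,7),
  (4,3),(6,7),(5,0),(0,0),(3,3),(7,1)]⟩ ⟨3,[(22,0),(0,0),(13,7),(3,1)]⟩),.k,⟨false,1,⟨0,[(0,0),(19,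
  0),(7,0),(12,0)]⟩,⟨0,[(7,0),(17,0),(14,0)]⟩⟩,⟨true,0,⟨0,[(24,0)]⟩,⟨2,[(9,0),(15,2),(1,0),(7,0)]⟩⟩,
  ⟨true,0,⟨0,[(44,0)]⟩,⟨0,[]⟩⟩,⟨false,0,⟨0,[(7,0),(16,0),(0,0),(14,0)]⟩,⟨0,[(6,0),(1,0)]⟩⟩,⟨false,0,
  ⟨0,[(40,0)]⟩,⟨19,[(5,3),(6,3),(0,3),(6,3),(1,2),(0,2),(18,13)]⟩⟩,⟨false,0,⟨0,[(7,0),(16,0),(0,0),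
  (14,1)]⟩,⟨2,[(2,0),(0,0),(2,1),(1,1),(4,0),(0,0)]⟩⟩,[.o ⟨false,0,⟨0,[(40,0)]⟩,⟨19,[(5,3),(6,7),(9,
  2),(0,2),(11,7),(6,5)]⟩⟩,.o ⟨false,1,⟨3,[(22,0),(0,0),(16,3),(1,1)]⟩,⟨0,[(8,0)]⟩⟩,.o ⟨false,1,⟨1,
  [(25,1),(9,0),(5,0)]⟩,⟨2,[(9,0),(14,2),(2,0),(7,0)]⟩⟩,.a ⟨true,0,⟨0,[(25,0)]⟩,⟨0,[(24,0)]⟩⟩
  ⟨false,1,⟨1,[(22,0),(18,0)]⟩,⟨0,[(7,0),(17,0)]⟩⟩ ⟨true,0,⟨0,[(24,0),(15,0)]⟩,⟨0,[(2,0),(25,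
  0)]⟩⟩]⟩) (.R ⟨1,false,false,true,[1,0,0,-1],[1,-1],[0,1,0,0,0,0,0,0,-1],(⟨0,[(24,0)]⟩,⟨0,[(25,
  0)]⟩),(⟨0,[(36,0)]⟩,⟨0,[(37,0)]⟩),⟨0,[(1,0)]⟩,.k,.k,(.x (-1) ⟨11,[(4,3),(11,3),(5,4),(0,4),(11,
  1)]⟩ ⟨0,[(37,0)]⟩),(.r 0 ⟨0,[(3,0),(6,0)]⟩ ⟨45,[(0,7),(4,5),(6,5),(0,21),(1,3),(4,5),(2,18),(17,
  22)]⟩),.k,.k,⟨true,0,⟨0,[(3,0),(6,0)]⟩,⟨0,[(0,0),(12,0)]⟩⟩,⟨false,0,⟨2,[(9,0),(14,2),(2,0),(7,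
  0)]⟩,⟨0,[(25,0),(15,0)]⟩⟩,⟨true,0,⟨0,[(44,0)]⟩,⟨0,[]⟩⟩,⟨false,0,⟨0,[(7,0),(31,0)]⟩,⟨0,[(6,0),(33,
  0)]⟩⟩,⟨false,0,⟨0,[(40,0)]⟩,⟨19,[(5,3),(6,3),(0,3),(6,3),(1,2),(0,2),(18,13)]⟩⟩,⟨false,0,⟨0,[(7,
  0),(36,0)]⟩,⟨0,[(6,0)]⟩⟩,[.o ⟨false,0,⟨0,[(8,0)]⟩,⟨3,[(22,0),(0,0),(16,3),(1,1)]⟩⟩,.o ⟨false,1,
  ⟨19,[(5,3),(6,7),(9,2),(0,2),(11,7),(6,5)]⟩,⟨0,[(40,0)]⟩⟩,.o ⟨false,1,⟨1,[(25,1),(9,0),(5,0)]⟩,⟨2,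
  [(9,0),(14,2),(2,0),(7,0)]⟩⟩,.a ⟨true,0,⟨0,[(25,0)]⟩,⟨0,[(24,0)]⟩⟩ ⟨false,1,⟨1,[(22,0),(18,0)]⟩,
  ⟨0,[(7,0),(17,0)]⟩⟩ ⟨true,0,⟨0,[(8,0),(15,0)]⟩,⟨0,[(25,0),(14,0)]⟩⟩]⟩)) (.I [0,0,0,0,0,0,0,-1,-1]
  (.I [0,1,-2,-1,1,0,0,0,-1] (.R ⟨0,false,false,false,[1,0,0,-1],[0,1],[0,1,0,0,0,0,0,0,-1],(⟨0,
  [(25,0)]⟩,⟨0,[(26,0)]⟩),(⟨0,[(38,0)]⟩,⟨0,[(37,0)]⟩),⟨0,[(2,0)]⟩,.k,.k,(.x (-1) ⟨11,[(5,3),(11,3),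
  (5,4),(0,4),(11,1)]⟩ ⟨0,[(38,0)]⟩),(.x (-1) ⟨11,[(5,3),(11,3),(5,4),(0,4),(11,1)]⟩ ⟨0,[(38,0)]⟩),
  .k,.k,⟨false,1,⟨0,[(0,0)]⟩,⟨0,[(8,0),(17,0),(14,0)]⟩⟩,⟨true,0,⟨0,[(25,0)]⟩,⟨2,[(10,0),(15,2),(1,
  0),(7,0)]⟩⟩,⟨true,0,⟨0,[(45,0)]⟩,⟨0,[]⟩⟩,⟨false,0,⟨0,[(8,0),(16,0),(0,0),(14,0)]⟩,⟨0,[(7,0),(1,
  0)]⟩⟩,⟨false,0,⟨0,[]⟩,⟨0,[]⟩⟩,⟨false,0,⟨0,[]⟩,⟨0,[]⟩⟩,[.o ⟨false,0,⟨0,[(41,0)]⟩,⟨19,[(6,3),(6,7),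
  (9,2),(0,2),(11,7),(6,5)]⟩⟩,.o ⟨false,1,⟨3,[(23,0),(0,0),(16,3),(1,1)]⟩,⟨0,[(9,0)]⟩⟩,.o ⟨false,1,
  ⟨1,[(26,1),(9,0),(5,0)]⟩,⟨2,[(10,0),(14,2),(2,0),(7,0)]⟩⟩,.a ⟨true,0,⟨0,[(26,0)]⟩,⟨0,[(25,0)]⟩⟩
  ⟨false,1,⟨1,[(23,0),(18,0)]⟩,⟨0,[(8,0),(17,0)]⟩⟩ ⟨true,0,⟨0,[(25,0),(15,0)]⟩,⟨0,[(3,0),(25,
  0)]⟩⟩]⟩) (.R ⟨0,false,false,true,[1,0,0,-1],[1,-1],[0,1,0,0,0,0,0,0,-1],(⟨0,[(25,0)]⟩,⟨0,[(26,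
  0)]⟩),(⟨0,[(37,0)]⟩,⟨0,[(38,0)]⟩),⟨0,[(2,0)]⟩,.k,.k,(.x (-1) ⟨11,[(5,3),(11,3),(5,4),(0,4),(11,
  1)]⟩ ⟨0,[(38,0)]⟩),(.r 0 ⟨0,[(4,0),(6,0)]⟩ ⟨7,[(3,1),(2,1),(1,1),(5,1),(6,1),(2,2),(17,4)]⟩),.k,
  .k,⟨true,0,⟨0,[(4,0),(6,0)]⟩,⟨10,[(0,10),(5,3),(6,4),(0,2),(6,4),(0,0),(19,10)]⟩⟩,⟨false,0,⟨2,
  [(10,0),(14,2),(2,0),(7,0)]⟩,⟨0,[(26,0),(15,0)]⟩⟩,⟨true,0,⟨0,[(45,0)]⟩,⟨0,[]⟩⟩,⟨false,0,⟨0,[(8,0),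
  (31,0)]⟩,⟨0,[(7,0),(33,0)]⟩⟩,⟨false,0,⟨0,[]⟩,⟨0,[]⟩⟩,⟨false,0,⟨0,[]⟩,⟨0,[]⟩⟩,[.o ⟨false,0,⟨0,[(9,
  0)]⟩,⟨3,[(23,0),(0,0),(16,3),(1,1)]⟩⟩,.o ⟨false,1,⟨19,[(6,3),(6,7),(9,2),(0,2),(11,7),(6,5)]⟩,⟨0,
  [(41,0)]⟩⟩,.o ⟨false,1,⟨1,[(26,1),(9,0),(5,0)]⟩,⟨2,[(10,0),(14,2),(2,0),(7,0)]⟩⟩,.a ⟨true,0,⟨0,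
  [(26,0)]⟩,⟨0,[(25,0)]⟩⟩ ⟨false,1,⟨1,[(23,0),(18,0)]⟩,⟨22,[(0,8),(5,0),(6,0),(0,4),(1,1),(4,0),(2,
  6),(14,4)]⟩⟩ ⟨true,0,⟨0,[(9,0),(15,0)]⟩,⟨0,[(26,0),(14,0)]⟩⟩]⟩)) (.R ⟨0,false,false,true,[1,0,0,
  -1],[1,-1],[0,1,0,0,0,0,0,0,-1],(⟨0,[(24,0)]⟩,⟨0,[(25,0)]⟩),(⟨0,[(36,0)]⟩,⟨0,[(37,0)]⟩),⟨0,[(1,
  0)]⟩,.k,.k,(.x (-1) ⟨11,[(4,3),(11,3),(5,4),(0,4),(11,1)]⟩ ⟨0,[(37,0)]⟩),(.r 0 ⟨0,[(3,0),(6,0)]⟩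
  ⟨45,[(0,7),(2,3),(1,5),(6,5),(0,17),(6,5),(2,20),(17,20)]⟩),.k,.k,⟨true,0,⟨0,[(3,0),(6,0)]⟩,⟨3,
  [(0,3),(11,0),(0,1),(7,0),(7,0)]⟩⟩,⟨false,0,⟨2,[(9,0),(14,2),(2,0),(7,0)]⟩,⟨0,[(25,0),(15,0)]⟩⟩,
  ⟨true,0,⟨0,[(44,0)]⟩,⟨0,[]⟩⟩,⟨false,0,⟨0,[(7,0),(31,0)]⟩,⟨0,[(6,0),(33,0)]⟩⟩,⟨false,0,⟨0,[]⟩,⟨0,
  []⟩⟩,⟨false,0,⟨0,[]⟩,⟨0,[]⟩⟩,[.o ⟨false,0,⟨0,[(8,0)]⟩,⟨3,[(22,0),(0,0),(16,3),(1,1)]⟩⟩,.o ⟨false,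
  1,⟨19,[(5,3),(6,7),(9,2),(0,2),(11,7),(6,5)]⟩,⟨0,[(40,0)]⟩⟩,.o ⟨false,1,⟨1,[(25,1),(9,0),(5,0)]⟩,
  ⟨2,[(9,0),(14,2),(2,0),(7,0)]⟩⟩,.a ⟨true,0,⟨0,[(25,0)]⟩,⟨0,[(24,0)]⟩⟩ ⟨false,1,⟨1,[(22,0),(18,
  0)]⟩,⟨25,[(0,11),(8,2),(0,3),(2,7),(9,6),(7,2),(6,8)]⟩⟩ ⟨true,0,⟨0,[(8,0),(15,0)]⟩,⟨0,[(25,0),(14,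
  0)]⟩⟩]⟩)))) (.Q [0,0,0,0,0,-1,0,0,0,1,0,-1] (.p false [0,0,0,1] [1] (⟨0,[(22,0)]⟩,⟨0,[(21,0)]⟩)
  .k 1 (⟨0,[]⟩,⟨0,[]⟩) .k .k) (.I [0,0,1,1,0,0,0,0,-1] (.R ⟨1,false,false,true,[1,0,0,-1],[1,-1],[0,
  1,0,0,0,0,0,0,-1],(⟨0,[(23,0)]⟩,⟨0,[(24,0)]⟩),(⟨0,[(35,0)]⟩,⟨0,[(36,0)]⟩),⟨0,[(1,0)]⟩,.k,.k,(.x
  (-1) ⟨11,[(3,3),(11,3),(5,4),(0,4),(11,1)]⟩ ⟨0,[(36,0)]⟩),(.r 0 ⟨0,[(0,0)]⟩ ⟨4,[(2,0),(1,0),(6,0),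
  (0,1),(1,0),(4,0),(2,1),(17,2)]⟩),.k,.k,⟨true,0,⟨0,[(0,0)]⟩,⟨0,[(2,0),(10,0),(5,0),(17,0),(2,
  0)]⟩⟩,⟨false,0,⟨2,[(8,0),(14,2),(2,0),(7,0)]⟩,⟨0,[(24,0),(15,0)]⟩⟩,⟨true,0,⟨0,[(43,0)]⟩,⟨0,[]⟩⟩,
  ⟨false,0,⟨0,[(6,0),(31,0)]⟩,⟨0,[(5,0),(33,0)]⟩⟩,⟨false,0,⟨0,[(39,0)]⟩,⟨19,[(4,3),(6,3),(0,3),(6,
  3),(1,2),(0,2),(18,13)]⟩⟩,⟨false,0,⟨0,[(6,0),(36,0)]⟩,⟨0,[(5,0)]⟩⟩,[.o ⟨false,0,⟨0,[(7,0)]⟩,⟨3,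
  [(21,0),(0,0),(16,3),(1,1)]⟩⟩,.o ⟨false,1,⟨19,[(4,3),(6,7),(9,2),(0,2),(11,7),(6,5)]⟩,⟨0,[(39,
  0)]⟩⟩,.o ⟨false,1,⟨1,[(24,1),(9,0),(5,0)]⟩,⟨2,[(8,0),(14,2),(2,0),(7,0)]⟩⟩,.a ⟨true,0,⟨0,[(24,
  0)]⟩,⟨0,[(23,0)]⟩⟩ ⟨false,1,⟨1,[(21,0),(18,0)]⟩,⟨18,[(2,8),(1,1),(6,1),(0,0),(1,3),(4,1),(2,4),
  (14,9)]⟩⟩ ⟨true,0,⟨0,[(7,0),(15,0)]⟩,⟨0,[(24,0),(14,0)]⟩⟩]⟩) (.R ⟨1,false,false,false,[1,0,0,-1],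
  [0,0,0,1],[0,0,0,0,0,0,0,0,-1],(⟨0,[(23,0)]⟩,⟨0,[(24,0)]⟩),(⟨0,[(24,0)]⟩,⟨0,[(23,0)]⟩),⟨0,[(1,
  0)]⟩,.k,.k,(.x (-1) ⟨11,[(3,3),(11,3),(5,4),(0,4),(11,1)]⟩ ⟨0,[(36,0)]⟩),.k,(.r (-2) ⟨19,[(4,3),
  (0,3),(5,7),(9,20),(0,2),(0,3),(16,7),(0,3)]⟩ ⟨2,[(0,1),(1,3),(1,0),(5,0),(3,0),(24,1)]⟩),.k,
  ⟨true,1,⟨0,[(21,0)]⟩,⟨6,[(0,5),(1,7),(1,1),(3,0),(1,1),(3,1),(15,0)]⟩⟩,⟨false,0,⟨2,[(8,0),(14,5),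
  (2,0),(7,0)]⟩,⟨0,[(0,0),(4,0),(1,0),(16,0),(14,1)]⟩⟩,⟨false,1,⟨3,[(21,0),(0,0),(18,1)]⟩,⟨0,[]⟩⟩,
  ⟨false,(-1),⟨6,[(0,7),(1,1),(3,3),(1,5),(1,2),(3,0),(8,9),(13,0),(1,5)]⟩,⟨0,[(5,1),(19,0),(1,
  0)]⟩⟩,⟨true,0,⟨0,[(39,0)]⟩,⟨0,[(38,0)]⟩⟩,⟨false,(-1),⟨6,[(0,7),(1,1),(3,3),(1,5),(1,2),(3,0),(8,
  9),(13,0),(1,12)]⟩,⟨0,[(5,1),(1,0),(35,0)]⟩⟩,[.o ⟨false,0,⟨0,[(6,0),(36,0)]⟩,⟨0,[(5,0),(1,0),(31,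
  0)]⟩⟩,.o ⟨false,0,⟨0,[(6,0)]⟩,⟨0,[(5,0),(19,0),(1,0)]⟩⟩,.o ⟨false,1,⟨1,[(24,1),(9,0),(5,0)]⟩,⟨2,
  [(8,0),(14,2),(2,0),(7,0)]⟩⟩,.a ⟨true,0,⟨0,[(24,0)]⟩,⟨0,[(23,0)]⟩⟩ ⟨true,1,⟨1,[(21,0),(18,0)]⟩,⟨0,
  [(0,0),(7,0),(10,0),(19,1)]⟩⟩ ⟨false,0,⟨0,[(6,0),(16,0)]⟩,⟨0,[(5,0),(1,0),(16,0),(14,0)]⟩⟩]⟩))
  (.I [0,0,1,1,0,0,0,0,-1] (.R ⟨0,false,false,true,[1,0,0,-1],[1,-1],[0,1,0,0,0,0,0,0,-1],(⟨0,[(23,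
  0)]⟩,⟨0,[(24,0)]⟩),(⟨0,[(35,0)]⟩,⟨0,[(36,0)]⟩),⟨0,[(1,0)]⟩,.k,.k,(.x (-1) ⟨11,[(3,3),(11,3),(5,4),
  (0,4),(11,1)]⟩ ⟨0,[(36,0)]⟩),(.r 0 ⟨0,[(0,0)]⟩ ⟨4,[(2,0),(1,0),(6,0),(0,1),(1,0),(4,0),(2,1),(17,
  2)]⟩),.k,.k,⟨true,0,⟨0,[(0,0)]⟩,⟨0,[(2,0),(10,0),(5,0),(17,0),(2,0)]⟩⟩,⟨false,0,⟨2,[(8,0),(14,2),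
  (2,0),(7,0)]⟩,⟨0,[(24,0),(15,0)]⟩⟩,⟨true,0,⟨0,[(43,0)]⟩,⟨0,[]⟩⟩,⟨false,0,⟨0,[(6,0),(31,0)]⟩,⟨0,
  [(5,0),(33,0)]⟩⟩,⟨false,0,⟨0,[]⟩,⟨0,[]⟩⟩,⟨false,0,⟨0,[]⟩,⟨0,[]⟩⟩,[.o ⟨false,0,⟨0,[(7,0)]⟩,⟨3,[(21,
  0),(0,0),(16,3),(1,1)]⟩⟩,.o ⟨false,1,⟨19,[(4,3),(6,7),(9,2),(0,2),(11,7),(6,5)]⟩,⟨0,[(39,0)]⟩⟩,.o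
  ⟨false,1,⟨1,[(24,1),(9,0),(5,0)]⟩,⟨2,[(8,0),(14,2),(2,0),(7,0)]⟩⟩,.a ⟨true,0,⟨0,[(24,0)]⟩,⟨0,[(23,
  0)]⟩⟩ ⟨false,1,⟨1,[(21,0),(18,0)]⟩,⟨18,[(2,8),(1,1),(6,1),(0,0),(1,3),(4,1),(2,4),(14,9)]⟩⟩ ⟨true,
  0,⟨0,[(7,0),(15,0)]⟩,⟨0,[(24,0),(14,0)]⟩⟩]⟩) (.R ⟨0,false,false,true,[1,0,0,-1],[0,1],[1,0,1],(⟨0,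
  [(23,0)]⟩,⟨0,[(24,0)]⟩),(⟨0,[(36,0)]⟩,⟨0,[(35,0)]⟩),⟨0,[(1,0)]⟩,.k,.k,(.x (-1) ⟨11,[(3,3),(11,3),
  (5,4),(0,4),(11,1)]⟩ ⟨0,[(36,0)]⟩),(.x (-1) ⟨11,[(3,3),(11,3),(5,4),(0,4),(11,1)]⟩ ⟨0,[(36,0)]⟩),
  .k,.k,⟨false,1,⟨9,[(0,0),(3,0),(0,0),(5,1),(0,3),(1,1),(8,0),(16,3),(0,2)]⟩,⟨0,[(39,0),(3,0)]⟩⟩,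
  ⟨true,0,⟨0,[(23,0)]⟩,⟨2,[(8,0),(15,2),(1,0),(7,0)]⟩⟩,⟨false,0,⟨37,[(0,7),(1,7),(5,6),(5,3),(7,10),
  (7,6),(6,16)]⟩,⟨1,[(21,0),(18,0)]⟩⟩,⟨true,(-1),⟨0,[(0,0),(7,0),(10,0),(3,0),(15,2)]⟩,⟨0,[(5,0),(1,
  0)]⟩⟩,⟨false,0,⟨0,[]⟩,⟨0,[]⟩⟩,⟨false,0,⟨0,[]⟩,⟨0,[]⟩⟩,[.o ⟨false,0,⟨0,[(39,0),(3,0)]⟩,⟨4,[(11,0),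
  (0,1),(0,0),(0,0),(19,1),(6,1)]⟩⟩,.o ⟨false,0,⟨0,[(39,0)]⟩,⟨19,[(4,3),(6,7),(9,2),(0,2),(11,7),(6,
  5)]⟩⟩,.o ⟨false,1,⟨1,[(24,1),(9,0),(5,0)]⟩,⟨2,[(8,0),(14,2),(2,0),(7,0)]⟩⟩,.a ⟨true,0,⟨0,[(24,
  0)]⟩,⟨0,[(23,0)]⟩⟩ ⟨true,0,⟨0,[]⟩,⟨0,[(43,0)]⟩⟩ ⟨false,0,⟨0,[(23,0),(15,0)]⟩,⟨19,[(0,1),(4,1),(5,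
  5),(1,5),(10,17),(9,6),(2,3),(3,10)]⟩⟩]⟩))))) (.I [0,1,-1,-1,1,0,0,1,-1] (.I [1,-1,0,0,0,0,0,-1,
  -1] (.Q [0,0,0,0,0,-1,0,0,0,1,0,-1] (.p false [0,0,0,1] [1] (⟨0,[(22,0)]⟩,⟨0,[(21,0)]⟩) .k 1 (⟨0,
  []⟩,⟨0,[]⟩) .k .k) (.R ⟨1,false,false,false,[1,0,0,-1],[0,1],[0,1,0,0,0,0,0,0,-1],(⟨0,[(22,0)]⟩,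
  ⟨0,[(23,0)]⟩),(⟨0,[(35,0)]⟩,⟨0,[(34,0)]⟩),⟨0,[(0,0)]⟩,.k,.k,(.x (-1) ⟨7,[(14,3),(1,3),(3,2),(0,2),
  (11,1)]⟩ ⟨0,[(35,0)]⟩),(.x (-1) ⟨7,[(14,3),(1,3),(3,2),(0,2),(11,1)]⟩ ⟨0,[(35,0)]⟩),(.x 0 ⟨2,[(7,
  0),(6,2),(1,2),(8,0),(7,0)]⟩ ⟨3,[(20,0),(0,0),(13,7),(3,1)]⟩),.k,⟨false,1,⟨0,[(1,0),(16,0),(7,0),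
  (12,0)]⟩,⟨0,[(5,0),(17,0),(14,0)]⟩⟩,⟨true,0,⟨0,[(22,0)]⟩,⟨2,[(7,0),(15,2),(1,0),(7,0)]⟩⟩,⟨true,0,
  ⟨0,[(42,0)]⟩,⟨0,[]⟩⟩,⟨false,0,⟨0,[(5,0),(16,0),(0,0),(14,0)]⟩,⟨0,[(4,0),(1,0)]⟩⟩,⟨false,0,⟨0,[(38,
  0)]⟩,⟨0,[(37,0),(2,0)]⟩⟩,⟨false,0,⟨0,[(5,0),(16,0),(0,0),(14,1)]⟩,⟨2,[(1,1),(2,0),(1,2),(4,0),(0,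
  0),(0,0),(4,0),(4,1),(15,0)]⟩⟩,[.o ⟨false,0,⟨0,[(38,0)]⟩,⟨5,[(10,1),(1,1),(7,0),(0,0),(11,1),(6,
  1)]⟩⟩,.o ⟨false,1,⟨3,[(20,0),(0,0),(16,3),(1,1)]⟩,⟨0,[(6,0)]⟩⟩,.o ⟨false,1,⟨1,[(23,1),(9,0),(5,
  0)]⟩,⟨2,[(7,0),(14,2),(2,0),(7,0)]⟩⟩,.a ⟨true,0,⟨0,[(23,0)]⟩,⟨0,[(22,0)]⟩⟩ ⟨false,1,⟨1,[(20,0),
  (18,0)]⟩,⟨0,[(5,0),(17,0)]⟩⟩ ⟨true,0,⟨0,[(22,0),(15,0)]⟩,⟨0,[(6,0),(16,0)]⟩⟩]⟩) (.R ⟨0,false,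
  false,false,[1,0,0,-1],[0,1],[0,1,0,0,0,0,0,0,-1],(⟨0,[(22,0)]⟩,⟨0,[(23,0)]⟩),(⟨0,[(35,0)]⟩,⟨0,
  [(34,0)]⟩),⟨0,[(0,0)]⟩,.k,.k,(.x (-1) ⟨7,[(14,3),(1,3),(3,2),(0,2),(11,1)]⟩ ⟨0,[(35,0)]⟩),(.x
  (-1) ⟨7,[(14,3),(1,3),(3,2),(0,2),(11,1)]⟩ ⟨0,[(35,0)]⟩),.k,.k,⟨false,1,⟨0,[(1,0),(16,0),(7,0),
  (12,0)]⟩,⟨0,[(5,0),(17,0),(14,0)]⟩⟩,⟨true,0,⟨0,[(22,0)]⟩,⟨2,[(7,0),(15,2),(1,0),(7,0)]⟩⟩,⟨true,0,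
  ⟨0,[(42,0)]⟩,⟨0,[]⟩⟩,⟨false,0,⟨0,[(5,0),(16,0),(0,0),(14,0)]⟩,⟨0,[(4,0),(1,0)]⟩⟩,⟨false,0,⟨0,[]⟩,
  ⟨0,[]⟩⟩,⟨false,0,⟨0,[]⟩,⟨0,[]⟩⟩,[.o ⟨false,0,⟨0,[(38,0)]⟩,⟨5,[(10,1),(1,1),(7,0),(0,0),(11,1),(6,
  1)]⟩⟩,.o ⟨false,1,⟨3,[(20,0),(0,0),(16,3),(1,1)]⟩,⟨0,[(6,0)]⟩⟩,.o ⟨false,1,⟨1,[(23,1),(9,0),(5,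
  0)]⟩,⟨2,[(7,0),(14,2),(2,0),(7,0)]⟩⟩,.a ⟨true,0,⟨0,[(23,0)]⟩,⟨0,[(22,0)]⟩⟩ ⟨false,1,⟨1,[(20,0),
  (18,0)]⟩,⟨0,[(5,0),(17,0)]⟩⟩ ⟨true,0,⟨0,[(22,0),(15,0)]⟩,⟨0,[(6,0),(16,0)]⟩⟩]⟩)) (.Q [0,0,0,0,0,
  -1,0,0,0,1,0,-1] (.p false [0,0,0,1] [1] (⟨0,[(22,0)]⟩,⟨0,[(21,0)]⟩) .k 1 (⟨0,[]⟩,⟨0,[]⟩) .k .k)
  (.R ⟨1,false,false,false,[1,0,0,-1],[1,0,-1],[0,1,0,0,0,0,0,0,-1],(⟨0,[(22,0)]⟩,⟨0,[(23,0)]⟩),(⟨0,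
  [(31,0)]⟩,⟨0,[(32,0)]⟩),⟨0,[(0,0)]⟩,.k,.k,(.x (-1) ⟨7,[(14,3),(1,3),(3,2),(0,2),(11,1)]⟩ ⟨0,[(35,
  0)]⟩),.k,(.x 0 ⟨0,[(16,0),(0,0)]⟩ ⟨55,[(2,15),(0,11),(5,15),(3,3),(6,6),(0,14),(9,55),(1,13),(1,
  55),(2,3)]⟩),.k,⟨false,1,⟨0,[(2,0),(35,0)]⟩,⟨0,[(1,0),(9,1),(26,1)]⟩⟩,⟨true,0,⟨0,[(22,0),(2,0)]⟩,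
  ⟨0,[(17,0),(5,0)]⟩⟩,⟨true,0,⟨0,[(42,0)]⟩,⟨0,[]⟩⟩,⟨false,0,⟨8,[(3,2),(1,6),(2,0),(2,1),(6,2),(2,0),
  (0,2),(0,0)]⟩,⟨0,[(4,0),(21,0)]⟩⟩,⟨false,0,⟨0,[(38,0)]⟩,⟨0,[(37,0),(2,0)]⟩⟩,⟨false,0,⟨21,[(1,2),
  (1,10),(1,10),(2,4),(4,0),(7,3),(0,10),(13,0),(1,0)]⟩,⟨0,[(4,0),(7,0)]⟩⟩,[.o ⟨false,0,⟨1,[(3,0),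
  (2,0)]⟩,⟨11,[(13,3),(5,3),(0,2),(0,2),(4,3),(6,1)]⟩⟩,.o ⟨false,1,⟨4,[(3,1),(6,0),(9,0),(0,0),(11,
  0),(6,1)]⟩,⟨0,[(26,0)]⟩⟩,.o ⟨false,1,⟨1,[(23,1),(9,0),(5,0)]⟩,⟨2,[(7,0),(14,2),(2,0),(7,0)]⟩⟩,.a
  ⟨true,0,⟨0,[(23,0)]⟩,⟨0,[(22,0)]⟩⟩ ⟨false,1,⟨1,[(20,0),(18,0)]⟩,⟨0,[(5,0),(17,0)]⟩⟩ ⟨true,0,⟨1,
  [(3,0),(2,0),(15,1)]⟩,⟨0,[(23,0),(2,0)]⟩⟩]⟩) (.R ⟨0,false,false,false,[1,0,0,-1],[1,0,-1],[0,1,0,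
  -1,0,0,0,0,-1],(⟨0,[(22,0)]⟩,⟨0,[(23,0)]⟩),(⟨0,[(31,0)]⟩,⟨0,[(32,0)]⟩),⟨0,[(0,0)]⟩,.k,.k,(.x (-1)
  ⟨7,[(14,3),(1,3),(3,2),(0,2),(11,1)]⟩ ⟨0,[(35,0)]⟩),.k,.k,.k,⟨false,1,⟨0,[(2,0)]⟩,⟨0,[(1,0),(9,1),
  (26,2)]⟩⟩,⟨true,0,⟨0,[(22,0),(2,0)]⟩,⟨0,[(17,0),(5,0)]⟩⟩,⟨true,0,⟨0,[(37,0)]⟩,⟨0,[(38,0)]⟩⟩,
  ⟨false,0,⟨8,[(3,2),(1,6),(2,0),(2,1),(6,2),(2,0),(0,2),(0,0)]⟩,⟨0,[(4,0),(21,0)]⟩⟩,⟨false,0,⟨0,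
  []⟩,⟨0,[]⟩⟩,⟨false,0,⟨0,[]⟩,⟨0,[]⟩⟩,[.o ⟨false,0,⟨1,[(3,0),(2,0)]⟩,⟨11,[(13,3),(5,3),(0,2),(0,2),
  (4,3),(6,1)]⟩⟩,.o ⟨false,1,⟨4,[(3,1),(6,0),(9,0),(0,0),(11,0),(6,1)]⟩,⟨0,[(26,0)]⟩⟩,.o ⟨false,1,
  ⟨1,[(23,1),(9,0),(5,0)]⟩,⟨2,[(7,0),(14,2),(2,0),(7,0)]⟩⟩,.a ⟨true,0,⟨0,[(23,0)]⟩,⟨0,[(22,0)]⟩⟩
  ⟨false,1,⟨3,[(2,1),(8,1),(8,0),(18,0)]⟩,⟨6,[(1,4),(1,1),(4,0),(10,1),(1,0),(14,4),(1,2)]⟩⟩ ⟨true,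
  0,⟨1,[(3,0),(2,0),(15,1)]⟩,⟨0,[(23,0),(2,0)]⟩⟩]⟩))) (.I [0,0,1,1,0,0,0,0,-1] (.R ⟨2,false,false,
  true,[0,1],[0,0,0,1],[0,1,1,1],(⟨0,[]⟩,⟨0,[]⟩),(⟨0,[(22,0)]⟩,⟨0,[(21,0)]⟩),⟨0,[]⟩,.k,.k,.k,(.r 0
  ⟨0,[(0,0)]⟩ ⟨8,[(1,0),(8,3),(0,2),(0,0),(4,2),(2,3),(17,4)]⟩),.k,.k,⟨true,0,⟨0,[(0,0)]⟩,⟨35,[(1,
  25),(8,13),(0,23),(0,7),(4,23),(2,4),(17,12)]⟩⟩,⟨false,0,⟨2,[(6,0),(14,2),(2,0),(7,0)]⟩,⟨0,[(22,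
  0),(15,0)]⟩⟩,⟨true,0,⟨0,[(41,0)]⟩,⟨0,[]⟩⟩,⟨false,0,⟨0,[(4,0),(31,0)]⟩,⟨0,[(3,0),(33,0)]⟩⟩,⟨false,
  0,⟨0,[(37,0)]⟩,⟨0,[(36,0),(2,0)]⟩⟩,⟨false,0,⟨0,[(4,0),(36,0)]⟩,⟨0,[(3,0)]⟩⟩,[.a ⟨true,(-1),⟨0,[(1,
  0),(15,0),(3,0),(3,0)]⟩,⟨0,[(3,0)]⟩⟩ ⟨false,0,⟨0,[(37,0),(3,0)]⟩,⟨9,[(10,5),(0,1),(0,1),(4,1),(20,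
  4),(0,2)]⟩⟩ ⟨true,(-1),⟨6,[(1,3),(2,2),(0,2),(0,0),(0,1),(0,0),(8,4),(3,3),(3,5)]⟩,⟨0,[(3,0)]⟩⟩,
  .o ⟨false,0,⟨0,[(4,0),(36,0)]⟩,⟨0,[(3,0),(1,0),(31,0)]⟩⟩,.o ⟨false,1,⟨3,[(19,0),(0,0),(17,1)]⟩,⟨2,
  [(6,0),(17,0),(7,0)]⟩⟩,.e ⟨false,0,⟨0,[(37,0)]⟩,⟨0,[(36,0),(2,0)]⟩⟩ ⟨false,0,⟨0,[(4,0),(36,0)]⟩,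
  ⟨0,[(3,0)]⟩⟩]⟩) (.Q [0,0,0,0,0,-1,0,0,0,0,0,1] (.p true [0,0,0,1] [] (⟨0,[(22,0)]⟩,⟨0,[(21,0)]⟩)
  .k 0 (⟨0,[]⟩,⟨0,[]⟩) .k .k) (.R ⟨1,false,false,false,[0,0,0,1],[1,0,0,-1],[0,0,0,0,0,0,0,0,1],(⟨0,
  [(23,0)]⟩,⟨0,[(22,0)]⟩),(⟨0,[(22,0)]⟩,⟨0,[(23,0)]⟩),⟨0,[(0,0)]⟩,.k,.k,(.x 0 ⟨2,[(7,1),(6,0),(1,0),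
  (3,0),(0,0),(3,1),(8,0)]⟩ ⟨0,[(35,0),(3,0)]⟩),.k,(.r 0 ⟨17,[(1,22),(0,4),(10,0),(4,2),(2,3),(4,2),
  (11,2)]⟩ ⟨7,[(8,3),(4,1),(6,8),(0,0),(20,1)]⟩),.k,⟨false,0,⟨17,[(1,22),(0,4),(10,0),(4,2),(2,3),
  (4,2),(11,20)]⟩,⟨0,[(20,0)]⟩⟩,⟨true,1,⟨0,[(1,0),(2,0),(1,0),(16,0),(14,1)]⟩,⟨0,[(7,0),(14,1),(2,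
  0)]⟩⟩,⟨false,1,⟨3,[(20,0),(0,0),(18,1)]⟩,⟨0,[]⟩⟩,⟨false,2,⟨0,[(4,1),(1,0),(31,0)]⟩,⟨0,[(2,0),(2,
  0),(12,0),(3,0),(3,0)]⟩⟩,⟨true,0,⟨0,[(38,0)]⟩,⟨0,[(37,0)]⟩⟩,⟨false,2,⟨0,[(4,1),(1,0),(31,1)]⟩,⟨0,
  [(2,0),(2,0),(6,0),(5,0),(3,0)]⟩⟩,[.o ⟨false,1,⟨0,[(4,0),(1,0),(31,0)]⟩,⟨0,[(5,0),(36,0)]⟩⟩,.a
  ⟨true,1,⟨0,[(4,0)]⟩,⟨0,[(2,0),(15,0),(3,0),(3,0)]⟩⟩ ⟨true,0,⟨17,[(1,7),(0,7),(10,3),(7,0),(18,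
  2)]⟩,⟨1,[(8,0),(3,0),(5,0),(1,0)]⟩⟩ ⟨false,2,⟨0,[(1,0),(2,1),(1,0),(31,1)]⟩,⟨6,[(2,3),(2,2),(0,2),
  (0,0),(0,1),(0,0),(8,4),(3,10),(3,5)]⟩⟩,.o ⟨false,0,⟨2,[(7,0),(14,2),(2,0),(7,0)]⟩,⟨1,[(23,1),(9,
  0),(5,0)]⟩⟩,.o ⟨false,0,⟨7,[(5,3),(1,3),(12,2),(0,0),(0,3),(2,3),(16,3)]⟩,⟨0,[(1,0),(2,0),(1,0),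
  (31,1)]⟩⟩]⟩) (.R ⟨0,false,false,false,[0,0,0,1],[1,0,0,-1],[0,0,0,0,0,0,0,0,-1],(⟨0,[(23,0)]⟩,⟨0,
  [(22,0)]⟩),(⟨0,[(22,0)]⟩,⟨0,[(23,0)]⟩),⟨0,[(0,0)]⟩,.k,.k,(.x 0 ⟨2,[(7,1),(6,0),(1,0),(3,0),(0,0),
  (3,1),(8,0)]⟩ ⟨0,[(35,0),(3,0)]⟩),.k,.k,.k,⟨false,1,⟨3,[(20,0),(0,0),(17,1)]⟩,⟨0,[]⟩⟩,⟨true,1,⟨0,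
  [(1,0),(2,0),(1,0),(16,0),(14,1)]⟩,⟨0,[(7,0),(14,1),(2,0)]⟩⟩,⟨true,1,⟨0,[(20,0)]⟩,⟨0,[(1,0),(0,0),
  (15,0),(7,0),(11,0)]⟩⟩,⟨false,2,⟨0,[(4,1),(1,0),(31,0)]⟩,⟨0,[(2,0),(2,0),(12,0),(3,0),(3,0)]⟩⟩,
  ⟨false,0,⟨0,[]⟩,⟨0,[]⟩⟩,⟨false,0,⟨0,[]⟩,⟨0,[]⟩⟩,[.o ⟨false,1,⟨0,[(4,0),(1,0),(31,0)]⟩,⟨0,[(5,0),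
  (36,0)]⟩⟩,.a ⟨true,1,⟨0,[(4,0)]⟩,⟨0,[(2,0),(15,0),(3,0),(3,0)]⟩⟩ ⟨true,1,⟨1,[(20,0),(19,0)]⟩,⟨0,
  [(2,0),(15,0),(7,0)]⟩⟩ ⟨false,2,⟨0,[(1,0),(2,1),(1,0),(31,1)]⟩,⟨6,[(2,3),(2,2),(0,2),(0,0),(0,1),
  (0,0),(8,4),(3,10),(3,5)]⟩⟩,.o ⟨false,0,⟨2,[(7,0),(14,2),(2,0),(7,0)]⟩,⟨1,[(23,1),(9,0),(5,0)]⟩⟩,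
  .o ⟨false,0,⟨7,[(5,3),(1,3),(12,2),(0,0),(0,3),(2,3),(16,3)]⟩,⟨0,[(1,0),(2,0),(1,0),(31,
  1)]⟩⟩]⟩))))) (.K ⟨0,[0,0,0,1],0,(-1),(⟨0,[(19,0)]⟩,⟨0,[(18,0)]⟩),.k,(.x 0 ⟨2,[(3,1),(6,0),(1,0),
  (3,0),(0,0),(3,1),(8,0)]⟩ ⟨0,[(31,0),(3,0)]⟩),(.x 0 ⟨0,[(31,0)]⟩ ⟨7,[(10,3),(1,3),(3,2),(0,2),(11,
  1)]⟩),.k,.k,[⟨0,[(19,0)]⟩,⟨0,[(18,0)]⟩,⟨1,[(16,0),(2,1),(15,0),(2,1)]⟩,⟨0,[(0,0)]⟩]⟩)))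

theorem ok88 : chk (cU (-1) true 10) t88 r50 = true := by decide +kernel

end Helper11.CT.T1_34_m1_m1_u
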