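import Pool.Agent.Helper11.CT.T.T1_34_m1_m1_u_q

set_option autoImplicit false
set_option linter.all false

namespace Helper11.CT.T1_34_m1_m1_u

open Helper11.CT

noncomputable def t3 : Tre :=
  (.Q [0,1,0,-1,0,0,-1,-1,0,-2,1] (.p true [-1,1,1] [1] (⟨0,[(2,0)]⟩,⟨0,[(19,0),(2,0)]⟩) .k 1 (⟨0,
  []⟩,⟨0,[]⟩) .k .k) (.I [0,0,-1,-1,0,0,0,-2] (.K ⟨2,[-1,1,1],0,0,(⟨0,[(4,0)]⟩,⟨0,[(21,0),(2,0)]⟩),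
  .k,.k,(.r 0 ⟨3,[(16,3),(1,0),(0,4),(6,1),(1,7)]⟩ ⟨3,[(0,1),(1,0),(0,1),(4,1),(17,2),(0,1),(1,
  3)]⟩),.k,(.r (-1) ⟨0,[(16,1),(2,1),(6,0),(1,0),(0,0)]⟩ ⟨0,[(0,0)]⟩),[⟨0,[(7,0),(7,0)]⟩,⟨0,[(2,
  0)]⟩,⟨1,[(15,1),(2,0),(0,0)]⟩,⟨3,[(2,1),(15,0),(0,0)]⟩,⟨0,[(5,0)]⟩,⟨0,[(12,0),(0,0),(2,0),(11,
  0)]⟩]⟩) (.I [0,0,1,1,0,0,0,2] (.K ⟨2,[-1,1,1],0,0,(⟨0,[(5,0)]⟩,⟨0,[(22,0),(2,0)]⟩),.k,.k,(.r 0 ⟨3,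
  [(1,1),(17,2),(0,2),(8,5)]⟩ ⟨0,[(2,0),(0,0),(5,0),(17,0),(2,0)]⟩),.k,(.r 0 ⟨0,[(0,0)]⟩ ⟨7,[(3,3),
  (2,7),(4,0),(0,0),(8,7),(8,1),(0,3)]⟩),[⟨3,[(1,0),(0,1),(16,1),(7,0),(1,0)]⟩,⟨0,[(3,0)]⟩,⟨1,[(16,
  1),(2,0),(0,0)]⟩,⟨3,[(3,1),(15,0),(0,0)]⟩,⟨0,[(6,0)]⟩,⟨1,[(1,0),(1,0),(25,0),(3,1)]⟩]⟩) (.I [0,0,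
  -1,0,0,1,2] (.K ⟨2,[-1,1,1],0,0,(⟨0,[(6,0)]⟩,⟨0,[(23,0),(2,0)]⟩),.k,.k,(.r 0 ⟨3,[(2,1),(17,2),(0,
  2),(8,5)]⟩ ⟨3,[(1,1),(2,0),(0,1),(4,1),(17,2),(0,1),(1,3)]⟩),.k,(.x 0 ⟨0,[(0,0)]⟩ ⟨1,[(17,3),(5,
  3),(1,0),(0,1),(4,0)]⟩),[⟨3,[(2,0),(0,1),(16,1),(7,0),(1,0)]⟩,⟨0,[(4,0)]⟩,⟨1,[(17,1),(2,0),(0,
  0)]⟩,⟨3,[(4,1),(15,0),(0,0)]⟩,⟨0,[(7,0)]⟩,⟨1,[(2,0),(1,0),(25,0),(3,1)]⟩]⟩) (.I [0,0,1,0,0,-1,-2]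
  (.K ⟨2,[-1,1,1],0,0,(⟨0,[(7,0)]⟩,⟨0,[(24,0),(2,0)]⟩),.k,.k,(.r 0 ⟨3,[(3,1),(17,2),(0,2),(8,5)]⟩
  ⟨3,[(2,1),(2,0),(0,1),(4,1),(17,2),(0,1),(1,3)]⟩),.k,(.x (-1) ⟨3,[(5,3),(1,3),(5,0),(0,0),(10,3),
  (0,1)]⟩ ⟨0,[(0,0)]⟩),[⟨3,[(3,0),(0,1),(16,1),(7,0),(1,0)]⟩,⟨0,[(5,0)]⟩,⟨1,[(18,1),(2,0),(0,0)]⟩,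
  ⟨3,[(5,1),(15,0),(0,0)]⟩,⟨0,[(8,0)]⟩,⟨1,[(3,0),(1,0),(25,0),(3,1)]⟩]⟩) (.I [0,1,0,1,0,0,0,1] (.Q
  [0,0,0,0,0,0,-1,-1,0,-1,1] (.p true [0,0,1] [1] (⟨0,[(26,0)]⟩,⟨0,[(25,0)]⟩) .k 1 (⟨0,[]⟩,⟨0,[]⟩)
  .k .k) (.R ⟨2,true,false,false,[0,1],[1,0,-1],[0,1,1,1],(⟨0,[]⟩,⟨0,[]⟩),(⟨0,[(26,0)]⟩,⟨0,[(27,
  0)]⟩),⟨0,[]⟩,.k,.k,.k,.k,.k,.k,⟨false,0,⟨0,[(1,0)]⟩,⟨3,[(4,1),(27,1),(1,0),(0,2)]⟩⟩,⟨true,0,⟨0,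
  [(20,0)]⟩,⟨3,[(7,1),(15,0),(0,0)]⟩⟩,⟨true,0,⟨0,[(37,0)]⟩,⟨0,[]⟩⟩,⟨false,1,⟨0,[(10,0),(24,0)]⟩,⟨1,
  [(5,0),(1,0),(25,0)]⟩⟩,⟨false,0,⟨0,[(33,0)]⟩,⟨0,[(32,0),(2,0)]⟩⟩,⟨true,0,⟨0,[(0,0)]⟩,⟨1,[(5,0),(1,
  0),(24,0),(4,0)]⟩⟩,[]⟩) (.R ⟨2,false,false,false,[0,1],[1,0,-1],[0,1,1,1],(⟨0,[]⟩,⟨0,[]⟩),(⟨0,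
  [(26,0)]⟩,⟨0,[(27,0)]⟩),⟨0,[]⟩,.k,.k,.k,.k,.k,.k,⟨false,0,⟨0,[(1,0)]⟩,⟨3,[(4,1),(27,1),(1,0),(0,
  2)]⟩⟩,⟨true,0,⟨0,[(20,0)]⟩,⟨3,[(7,1),(15,0),(0,0)]⟩⟩,⟨true,0,⟨0,[(37,0)]⟩,⟨0,[]⟩⟩,⟨false,1,⟨0,
  [(10,0),(24,0)]⟩,⟨1,[(5,0),(1,0),(25,0)]⟩⟩,⟨false,0,⟨0,[(33,0)]⟩,⟨0,[(32,0),(2,0)]⟩⟩,⟨false,1,⟨0,
  [(19,0),(15,0)]⟩,⟨0,[(0,0)]⟩⟩,[.a ⟨true,0,⟨1,[(3,0),(0,0),(22,1),(2,0),(2,0)]⟩,⟨0,[(0,0)]⟩⟩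
  ⟨false,0,⟨3,[(1,1),(12,0),(4,0),(2,0),(10,1)]⟩,⟨0,[(31,0),(0,0),(1,0)]⟩⟩ ⟨true,0,⟨0,[(20,0),(4,
  0)]⟩,⟨0,[(0,0)]⟩⟩,.o ⟨false,1,⟨0,[(19,0),(15,0)]⟩,⟨0,[(21,0)]⟩⟩,.o ⟨false,1,⟨3,[(15,0),(0,0),(17,
  1)]⟩,⟨3,[(5,0),(0,1),(16,1),(7,0),(1,0)]⟩⟩,.e ⟨false,0,⟨0,[(33,0)]⟩,⟨0,[(32,0),(2,0)]⟩⟩ ⟨false,1,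
  ⟨0,[(19,0),(15,0)]⟩,⟨0,[(0,0)]⟩⟩]⟩)) (.Q [0,-1,0,1,0,0,-1,-1,0,0,1] (.p true [0,0,1] [] (⟨0,[(26,
  0)]⟩,⟨0,[(25,0)]⟩) .k 0 (⟨0,[]⟩,⟨0,[]⟩) .k .k) (.I [1,-1,2,1,-1,0,0,-1] (.K ⟨1,[1,1,-1],1,0,(⟨0,
  [(27,0),(3,0)]⟩,⟨0,[(12,0)]⟩),.k,.k,(.r 1 ⟨0,[(0,0),(33,0),(3,0)]⟩ ⟨1,[(2,1),(3,1),(26,3),(1,2),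
  (0,0)]⟩),.k,.k,[⟨2,[(0,2),(1,0),(3,1),(1,1),(0,0),(4,0),(18,1)]⟩,⟨3,[(16,0),(0,0),(3,3),(13,1)]⟩,
  ⟨2,[(2,0),(3,1),(1,1),(0,0),(4,0),(18,1)]⟩,⟨0,[(1,0)]⟩]⟩) (.R ⟨0,false,false,false,[-1,1,1],[1,1,
  -1],[1,0,1,1,0,0,0,-1],(⟨0,[(10,0)]⟩,⟨0,[(27,0),(2,0)]⟩),(⟨0,[(27,0),(3,0)]⟩,⟨0,[(12,0)]⟩),⟨0,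
  [(27,0)]⟩,.k,.k,.k,.k,.k,.k,⟨true,0,⟨0,[]⟩,⟨1,[(24,0),(0,0)]⟩⟩,⟨false,1,⟨2,[(0,1),(0,2),(4,1),(0,
  2),(24,0),(2,0)]⟩,⟨1,[(8,1),(15,0),(0,0)]⟩⟩,⟨false,0,⟨5,[(1,3),(3,3),(7,0),(10,2),(7,0)]⟩,⟨9,[(0,
  3),(5,7),(9,0),(0,0),(15,3),(2,3)]⟩⟩,⟨true,0,⟨0,[(1,0),(5,0)]⟩,⟨0,[(6,0),(1,0),(24,0)]⟩⟩,⟨false,0,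
  ⟨0,[]⟩,⟨0,[]⟩⟩,⟨false,0,⟨0,[]⟩,⟨0,[]⟩⟩,[.o ⟨false,0,⟨1,[(1,0),(5,0),(26,1)]⟩,⟨6,[(0,4),(5,0),(17,
  6),(7,1),(0,2),(2,1)]⟩⟩,.a ⟨true,0,⟨0,[(1,0)]⟩,⟨2,[(2,0),(3,1),(1,1),(0,0),(4,0),(18,1)]⟩⟩ ⟨false,
  0,⟨0,[(1,0),(11,0)]⟩,⟨19,[(0,11),(5,3),(9,2),(0,2),(15,11),(2,1)]⟩⟩ ⟨true,0,⟨1,[(1,1),(4,0),(0,1),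
  (24,0),(1,0)]⟩,⟨7,[(6,3),(1,7),(15,0),(0,0),(6,1),(0,11)]⟩⟩,.o ⟨false,1,⟨7,[(8,3),(7,2),(0,2),(17,
  1)]⟩,⟨1,[(6,0),(0,1),(24,0),(1,0)]⟩⟩,.o ⟨false,0,⟨3,[(8,1),(15,0),(0,0)]⟩,⟨2,[(0,0),(0,0),(19,1),
  (7,1)]⟩⟩]⟩)) (.Q [0,1,-1,0,0,0,0,0,-1,0,0,1] (.p true [0,0,0,1] [] (⟨0,[(18,0)]⟩,⟨0,[(17,0)]⟩) .k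
  0 (⟨0,[]⟩,⟨0,[]⟩) .k .k) (.Q [0,1,1,0,0,0,0,0,1,0,0,-1] (.p false [0,0,0,1] [] (⟨0,[(19,0)]⟩,⟨0,
  [(18,0)]⟩) .k 0 (⟨0,[]⟩,⟨0,[]⟩) .k .k) (.K ⟨0,[0,0,0,1],0,0,(⟨0,[(20,0)]⟩,⟨0,[(19,0)]⟩),.k,(.x 0
  ⟨5,[(5,1),(7,3),(11,6),(0,2)]⟩ ⟨0,[(32,0),(3,0)]⟩),(.x 0 ⟨0,[(32,0)]⟩ ⟨3,[(17,0),(0,0),(11,1),(0,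
  3)]⟩),.k,.k,[⟨0,[(20,0)]⟩,⟨0,[(19,0)]⟩,⟨0,[(1,0)]⟩,⟨0,[(0,0)]⟩]⟩) (.Q [0,1,1,0,0,0,-1,-1,1,0,1,
  -1] (.p true [0,0,1] [0,0,0,1] (⟨0,[(29,0)]⟩,⟨0,[(28,0)]⟩) .k 2 (⟨0,[(20,0)]⟩,⟨0,[(19,0)]⟩) .k
  (.r 0 ⟨5,[(0,4),(0,0),(0,0),(4,3),(0,2),(10,5),(5,1)]⟩ ⟨3,[(17,0),(0,2),(8,3)]⟩)) (.Q [0,1,1,0,0,
  0,0,0,1,1,0,-1] (.p false [0,0,0,1] [1] (⟨0,[(21,0)]⟩,⟨0,[(20,0)]⟩) .k 1 (⟨0,[]⟩,⟨0,[]⟩) .k .k)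
  (.R ⟨0,false,false,false,[1,0,-1],[1,0,0,-1],[0,0,1,0,0,0,0,0,-1],(⟨0,[(30,0)]⟩,⟨0,[(31,0)]⟩),(⟨0,
  [(21,0)]⟩,⟨0,[(22,0)]⟩),⟨0,[(13,0)]⟩,.k,.k,.k,.k,.k,.k,⟨true,0,⟨1,[(27,0),(0,0)]⟩,⟨0,[]⟩⟩,⟨false,
  1,⟨0,[(16,0),(5,0),(15,0)]⟩,⟨0,[(21,0),(2,0)]⟩⟩,⟨false,0,⟨9,[(2,9),(1,2),(4,3),(0,0),(10,9),(2,7),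
  (2,5),(7,1)]⟩,⟨1,[(20,0),(8,1),(8,0)]⟩⟩,⟨true,0,⟨0,[(2,0),(22,0)]⟩,⟨0,[(1,0)]⟩⟩,⟨false,0,⟨0,[]⟩,
  ⟨0,[]⟩⟩,⟨false,0,⟨0,[]⟩,⟨0,[]⟩⟩,[.o ⟨false,0,⟨1,[(2,1),(7,0),(14,0),(11,0)]⟩,⟨1,[(0,1),(31,0),(6,
  0)]⟩⟩,.a ⟨true,0,⟨0,[(2,0)]⟩,⟨0,[(0,0)]⟩⟩ ⟨false,0,⟨3,[(2,3),(6,0),(0,1),(10,3),(5,1),(7,0),(1,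
  0)]⟩,⟨1,[(20,0),(17,0),(2,1)]⟩⟩ ⟨true,0,⟨0,[(2,0),(13,0)]⟩,⟨0,[(0,0),(23,0)]⟩⟩,.o ⟨false,1,⟨3,
  [(19,0),(0,0),(3,3),(13,1)]⟩,⟨0,[(16,0)]⟩⟩,.o ⟨false,0,⟨0,[(24,0)]⟩,⟨7,[(11,3),(7,0),(0,0),(11,3),
  (5,1)]⟩⟩]⟩) (.Q [0,0,0,0,0,1,0,0,0,-1,0,1] (.p true [0,0,0,1] [1] (⟨0,[(22,0)]⟩,⟨0,[(21,0)]⟩) .k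
  1 (⟨0,[]⟩,⟨0,[]⟩) .k .k) (.R ⟨0,false,false,true,[1,0,0,-1],[0,1],[1,0,1],(⟨0,[(22,0)]⟩,⟨0,[(23,
  0)]⟩),(⟨0,[(35,0)]⟩,⟨0,[(34,0)]⟩),⟨0,[(0,0)]⟩,.k,.k,(.x (-1) ⟨3,[(20,0),(0,0),(11,1),(0,3)]⟩ ⟨0,
  [(35,0)]⟩),(.x (-1) ⟨3,[(20,0),(0,0),(11,1),(0,3)]⟩ ⟨0,[(35,0)]⟩),.k,.k,⟨false,1,⟨2,[(5,0),(0,0),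
  (11,0),(17,0),(2,1),(0,0)]⟩,⟨0,[(38,0),(3,0)]⟩⟩,⟨true,0,⟨0,[(22,0)]⟩,⟨2,[(0,2),(7,0),(7,1),(11,
  1)]⟩⟩,⟨false,1,⟨1,[(21,0),(6,0),(0,0),(10,0)]⟩,⟨5,[(1,3),(2,1),(6,0),(10,5),(3,0),(11,0)]⟩⟩,⟨true,
  0,⟨1,[(2,1),(7,0),(1,0),(25,0)]⟩,⟨0,[(1,0),(35,0)]⟩⟩,⟨false,0,⟨0,[]⟩,⟨0,[]⟩⟩,⟨false,0,⟨0,[]⟩,⟨0,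
  []⟩⟩,[.o ⟨false,0,⟨0,[(38,0),(3,0)]⟩,⟨1,[(5,0),(5,0),(28,1)]⟩⟩,.o ⟨false,0,⟨0,[(38,0)]⟩,⟨1,[(33,
  0),(3,1),(2,0)]⟩⟩,.o ⟨false,1,⟨1,[(23,1),(9,0),(5,0)]⟩,⟨3,[(10,0),(0,1),(10,3),(5,1),(7,0),(1,
  0)]⟩⟩,.a ⟨true,0,⟨0,[(23,0)]⟩,⟨0,[(22,0)]⟩⟩ ⟨true,0,⟨0,[]⟩,⟨0,[(42,0)]⟩⟩ ⟨false,0,⟨0,[(22,0),(15,
  0)]⟩,⟨1,[(5,0),(5,0),(11,1),(16,1)]⟩⟩]⟩) (.R ⟨1,false,false,false,[1,0,0,-1],[1,0,-1],[0,1,0,0,0,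
  0,0,0,-1],(⟨0,[(22,0)]⟩,⟨0,[(23,0)]⟩),(⟨0,[(31,0)]⟩,⟨0,[(32,0)]⟩),⟨0,[(0,0)]⟩,.k,.k,(.x (-1) ⟨3,
  [(20,0),(0,0),(11,1),(0,3)]⟩ ⟨0,[(35,0)]⟩),.k,(.x 0 ⟨0,[(16,0),(0,0)]⟩ ⟨7,[(8,3),(11,2),(0,2),(13,
  11),(3,1)]⟩),.k,⟨false,0,⟨0,[(1,0),(16,0),(3,0),(3,0),(11,0)]⟩,⟨1,[(21,0),(8,1),(9,0)]⟩⟩,⟨true,0,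
  ⟨0,[(22,0),(2,0)]⟩,⟨0,[(17,0),(5,0)]⟩⟩,⟨true,0,⟨0,[(42,0)]⟩,⟨0,[]⟩⟩,⟨false,1,⟨0,[(2,0),(37,0)]⟩,
  ⟨2,[(1,1),(2,0),(0,0),(4,0),(1,0)]⟩⟩,⟨false,0,⟨0,[(38,0)]⟩,⟨0,[(37,0),(2,0)]⟩⟩,⟨false,1,⟨0,[(2,0),
  (35,0),(1,0)]⟩,⟨0,[(3,0),(1,0)]⟩⟩,[.o ⟨false,0,⟨0,[(1,0),(0,0)]⟩,⟨11,[(5,3),(4,3),(1,3),(7,2),(0,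
  2),(11,3),(6,1)]⟩⟩,.o ⟨false,1,⟨0,[(24,0),(15,0)]⟩,⟨0,[(26,0)]⟩⟩,.o ⟨false,1,⟨1,[(23,1),(9,0),(5,
  0)]⟩,⟨3,[(10,0),(0,1),(10,3),(5,1),(7,0),(1,0)]⟩⟩,.a ⟨true,0,⟨0,[(23,0)]⟩,⟨0,[(22,0)]⟩⟩ ⟨false,0,
  ⟨5,[(1,3),(2,1),(6,0),(10,5),(3,0),(11,0)]⟩,⟨1,[(21,0),(6,0),(0,0),(10,0)]⟩⟩ ⟨true,0,⟨0,[(1,0),(0,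
  0),(19,0)]⟩,⟨0,[(23,0),(2,0)]⟩⟩]⟩))) (.Q [0,0,0,0,0,-1,0,0,0,1,0,-1] (.p false [0,0,0,1] [1] (⟨0,
  [(21,0)]⟩,⟨0,[(20,0)]⟩) .k 1 (⟨0,[]⟩,⟨0,[]⟩) .k .k) (.I [0,0,-1,-1,0,0,0,1,-1] (.R ⟨1,false,false,
  false,[1,0,0,-1],[1,0,-1],[0,0,0,0,0,0,0,0,-1],(⟨0,[(22,0)]⟩,⟨0,[(23,0)]⟩),(⟨0,[(31,0)]⟩,⟨0,[(32,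
  0)]⟩),⟨0,[(1,0)]⟩,.k,.k,(.x (-1) ⟨3,[(20,0),(0,0),(11,1),(0,3)]⟩ ⟨0,[(35,0)]⟩),.k,(.r 0 ⟨0,[(0,
  0)]⟩ ⟨1,[(21,0),(5,1),(0,1),(9,1),(1,0)]⟩),.k,⟨false,0,⟨0,[(0,0),(37,0)]⟩,⟨3,[(20,0),(0,2),(8,
  3)]⟩⟩,⟨true,0,⟨0,[(22,0),(2,0)]⟩,⟨0,[(17,0),(5,0)]⟩⟩,⟨false,1,⟨3,[(20,0),(0,0),(18,1)]⟩,⟨0,[]⟩⟩,
  ⟨false,1,⟨1,[(21,0),(0,1),(2,1),(4,1),(9,0)]⟩,⟨2,[(2,1),(1,0),(21,0)]⟩⟩,⟨true,0,⟨0,[(38,0)]⟩,⟨0,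
  [(37,0)]⟩⟩,⟨false,1,⟨1,[(21,0),(0,1),(2,1),(4,1),(7,1),(1,0)]⟩,⟨0,[(2,0),(34,0)]⟩⟩,[.e ⟨false,0,
  ⟨0,[(2,0),(19,0),(1,0)]⟩,⟨3,[(20,0),(0,2)]⟩⟩ ⟨false,0,⟨1,[(1,0),(6,0),(0,0),(4,1),(7,0),(15,0)]⟩,
  ⟨11,[(2,7),(1,3),(15,2),(0,8),(4,3)]⟩⟩,.o ⟨false,1,⟨0,[(24,0),(15,0)]⟩,⟨0,[(26,0)]⟩⟩,.o ⟨false,1,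
  ⟨1,[(23,1),(9,0),(5,0)]⟩,⟨3,[(10,0),(0,1),(10,3),(5,1),(7,0),(1,0)]⟩⟩,.a ⟨true,0,⟨0,[(23,0)]⟩,⟨0,
  [(22,0)]⟩⟩ ⟨false,0,⟨1,[(0,1),(8,0),(26,0),(1,2)]⟩,⟨3,[(20,0),(0,2),(6,1),(0,1)]⟩⟩ ⟨true,0,⟨1,[(1,
  0),(6,0),(0,0),(4,1),(7,0),(15,0)]⟩,⟨0,[(23,0),(2,0)]⟩⟩]⟩) (.R ⟨1,false,false,false,[1,0,0,-1],[1,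
  0,-1],[0,1,0,0,0,0,0,0,-1],(⟨0,[(22,0)]⟩,⟨0,[(23,0)]⟩),(⟨0,[(31,0)]⟩,⟨0,[(32,0)]⟩),⟨0,[(1,0)]⟩,.k,
  .k,(.x (-1) ⟨3,[(20,0),(0,0),(11,1),(0,3)]⟩ ⟨0,[(35,0)]⟩),.k,(.x 0 ⟨0,[(16,0),(0,0)]⟩ ⟨7,[(8,3),
  (11,2),(0,2),(13,11),(3,1)]⟩),.k,⟨false,0,⟨1,[(2,1),(8,0),(6,1),(3,1),(3,0),(11,2)]⟩,⟨11,[(0,3),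
  (8,3),(10,0),(0,4),(18,5)]⟩⟩,⟨true,0,⟨0,[(22,0),(2,0)]⟩,⟨0,[(17,0),(5,0)]⟩⟩,⟨true,0,⟨0,[(42,0)]⟩,
  ⟨0,[]⟩⟩,⟨false,1,⟨3,[(0,1),(14,1),(5,0),(0,3),(2,1),(14,2)]⟩,⟨2,[(2,1),(1,0),(21,0)]⟩⟩,⟨false,0,
  ⟨0,[(38,0)]⟩,⟨0,[(37,0),(2,0)]⟩⟩,⟨false,1,⟨1,[(0,1),(21,1),(2,1),(13,0),(0,0)]⟩,⟨0,[(2,0),(34,
  0)]⟩⟩,[.e ⟨false,0,⟨5,[(2,1),(1,3),(6,2),(10,5),(3,0),(11,2)]⟩,⟨1,[(21,0),(18,0)]⟩⟩ ⟨false,0,⟨1,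
  [(1,0),(6,0),(0,0),(4,1),(7,0),(15,0)]⟩,⟨11,[(2,7),(1,3),(15,2),(0,8),(4,3)]⟩⟩,.o ⟨false,1,⟨0,
  [(24,0),(15,0)]⟩,⟨0,[(26,0)]⟩⟩,.o ⟨false,1,⟨1,[(23,1),(9,0),(5,0)]⟩,⟨3,[(10,0),(0,1),(10,3),(5,1),
  (7,0),(1,0)]⟩⟩,.a ⟨true,0,⟨0,[(23,0)]⟩,⟨0,[(22,0)]⟩⟩ ⟨false,0,⟨0,[(2,0),(19,0),(1,0)]⟩,⟨1,[(21,0),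
  (6,0),(0,0),(10,0)]⟩⟩ ⟨true,0,⟨1,[(1,0),(6,0),(0,0),(4,1),(7,0),(15,0)]⟩,⟨0,[(23,0),(2,0)]⟩⟩]⟩))
  (.R ⟨0,false,false,false,[1,0,0,-1],[-1,1,1],[0,1,0,0,0,0,0,0,-1],(⟨0,[(21,0)]⟩,⟨0,[(22,0)]⟩),(⟨0,
  [(13,0)]⟩,⟨0,[(30,0),(2,0)]⟩),⟨0,[(0,0)]⟩,.k,.k,(.x (-1) ⟨3,[(19,0),(0,0),(11,1),(0,3)]⟩ ⟨0,[(34,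
  0)]⟩),(.r 0 ⟨7,[(1,1),(0,2),(0,2),(1,1),(2,1),(1,3),(10,7),(5,1)]⟩ ⟨3,[(9,1),(9,0),(0,2),(6,0),(0,
  0),(8,1)]⟩),.k,.k,⟨false,0,⟨1,[(1,1),(6,0),(1,1),(0,0),(5,1),(3,1),(15,2)]⟩,⟨3,[(9,1),(10,1),(6,
  0),(0,0),(8,1),(1,1)]⟩⟩,⟨true,0,⟨3,[(11,1),(9,3),(5,0),(0,0)]⟩,⟨11,[(0,11),(6,3),(1,2),(0,5),(4,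
  7),(11,1),(7,2),(1,2)]⟩⟩,⟨true,0,⟨0,[(41,0)]⟩,⟨0,[]⟩⟩,⟨false,1,⟨1,[(9,0),(1,0),(8,0),(0,1),(5,0),
  (0,0),(8,0),(1,0)]⟩,⟨0,[(2,0),(7,0)]⟩⟩,⟨false,0,⟨0,[]⟩,⟨0,[]⟩⟩,⟨false,0,⟨0,[]⟩,⟨0,[]⟩⟩,[.o ⟨false,
  0,⟨1,[(9,0),(1,0),(25,0)]⟩,⟨1,[(14,1),(17,0),(6,0)]⟩⟩,.o ⟨false,1,⟨3,[(9,1),(1,1),(7,0),(0,0),(16,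
  1),(1,1)]⟩,⟨0,[(10,0)]⟩⟩,.o ⟨false,1,⟨1,[(22,1),(9,0),(5,0)]⟩,⟨3,[(9,0),(0,1),(10,3),(5,1),(7,0),
  (1,0)]⟩⟩,.a ⟨true,0,⟨0,[(22,0)]⟩,⟨0,[(21,0)]⟩⟩ ⟨false,0,⟨0,[(1,0),(19,0),(1,0)]⟩,⟨1,[(20,0),(6,0),
  (0,0),(10,0)]⟩⟩ ⟨true,0,⟨1,[(9,0),(1,0),(9,1),(15,0)]⟩,⟨0,[(10,0),(11,0)]⟩⟩]⟩)))) (.Q [0,0,0,0,0,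
  1,0,0,0,-1,0,1] (.p true [0,0,0,1] [1] (⟨0,[(19,0)]⟩,⟨0,[(18,0)]⟩) .k 1 (⟨0,[]⟩,⟨0,[]⟩) .k .k)
  (.I [0,1,-2,-1,1,0,0,0,-1] (.R ⟨0,false,false,false,[1,0,0,-1],[0,1],[0,1,0,0,0,0,0,0,-1],(⟨0,
  [(20,0)]⟩,⟨0,[(21,0)]⟩),(⟨0,[(33,0)]⟩,⟨0,[(32,0)]⟩),⟨0,[(1,0)]⟩,.k,.k,(.x (-1) ⟨3,[(18,0),(0,0),
  (11,1),(0,3)]⟩ ⟨0,[(33,0)]⟩),(.x (-1) ⟨3,[(18,0),(0,0),(11,1),(0,3)]⟩ ⟨0,[(33,0)]⟩),.k,.k,⟨false,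
  1,⟨0,[(0,0)]⟩,⟨0,[(2,0),(18,0),(14,0)]⟩⟩,⟨true,0,⟨0,[(20,0)]⟩,⟨2,[(1,2),(4,0),(7,1),(11,1)]⟩⟩,
  ⟨true,0,⟨0,[(40,0)]⟩,⟨0,[]⟩⟩,⟨false,0,⟨0,[(2,0),(17,0),(0,0),(14,0)]⟩,⟨15,[(0,13),(0,11),(1,0),(2,
  3),(2,0),(4,7),(0,7),(2,0),(2,3),(9,0),(2,7)]⟩⟩,⟨false,0,⟨0,[]⟩,⟨0,[]⟩⟩,⟨false,0,⟨0,[]⟩,⟨0,[]⟩⟩,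
  [.o ⟨false,0,⟨0,[(36,0)]⟩,⟨1,[(31,0),(3,1),(2,0)]⟩⟩,.o ⟨false,1,⟨3,[(18,0),(0,0),(16,3),(1,1)]⟩,
  ⟨0,[(11,0)]⟩⟩,.o ⟨false,1,⟨1,[(21,1),(9,0),(5,0)]⟩,⟨3,[(8,0),(0,1),(10,3),(5,1),(7,0),(1,0)]⟩⟩,.a
  ⟨true,0,⟨0,[(21,0)]⟩,⟨0,[(20,0)]⟩⟩ ⟨false,1,⟨1,[(18,0),(18,0)]⟩,⟨0,[(2,0),(18,0)]⟩⟩ ⟨true,0,⟨0,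
  [(20,0),(15,0)]⟩,⟨1,[(3,0),(5,0),(11,1)]⟩⟩]⟩) (.I [0,1,-1,-2,1,0,0,1,-1] (.Q [0,-1,-1,1,1,0,0,0,
  -1,0,0,1] (.p true [0,0,0,1] [] (⟨0,[(22,0)]⟩,⟨0,[(21,0)]⟩) .k 0 (⟨0,[]⟩,⟨0,[]⟩) .k .k) (.Q [0,0,
  -1,-1,1,0,-1,-1,-1,-2,1,1] (.p true [-1,1,1] [1,0,0,-1] (⟨0,[(14,0)]⟩,⟨0,[(31,0),(2,0)]⟩) .k 2
  (⟨0,[(22,0)]⟩,⟨0,[(23,0)]⟩) .k (.x 0 ⟨0,[(28,0),(3,0)]⟩ ⟨7,[(8,3),(11,0),(0,0),(13,3),(3,5)]⟩))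
  (.R ⟨0,false,false,false,[1,0,0,-1],[-1,1,1],[0,1,0,0,0,0,0,0,-1],(⟨0,[(23,0)]⟩,⟨0,[(24,0)]⟩),(⟨0,
  [(15,0)]⟩,⟨0,[(32,0),(2,0)]⟩),⟨0,[(4,0)]⟩,.k,.k,(.x (-1) ⟨3,[(21,0),(0,0),(11,1),(0,3)]⟩ ⟨0,[(36,
  0)]⟩),(.r (-1) ⟨9,[(2,1),(7,5),(10,4),(0,0),(17,0),(0,0)]⟩ ⟨3,[(3,1),(7,1),(10,0),(17,0),(2,1)]⟩),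
  .k,.k,⟨false,1,⟨0,[(2,0),(7,0),(28,1)]⟩,⟨12,[(3,8),(2,0),(4,5),(7,0),(2,1),(14,2),(2,6)]⟩⟩,⟨true,
  0,⟨3,[(13,1),(9,3),(5,0),(0,0)]⟩,⟨1,[(0,0),(2,0),(7,0),(0,0),(11,0)]⟩⟩,⟨true,0,⟨0,[(43,0)]⟩,⟨0,
  []⟩⟩,⟨false,0,⟨3,[(3,1),(7,1),(1,1),(8,0),(0,3),(17,0)]⟩,⟨0,[(0,0)]⟩⟩,⟨false,0,⟨0,[]⟩,⟨0,[]⟩⟩,
  ⟨false,0,⟨0,[]⟩,⟨0,[]⟩⟩,[.o ⟨false,0,⟨1,[(11,0),(1,0),(25,0)]⟩,⟨1,[(16,1),(17,0),(6,0)]⟩⟩,.o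
  ⟨false,1,⟨3,[(11,1),(1,1),(7,0),(0,0),(16,1),(1,1)]⟩,⟨0,[(12,0)]⟩⟩,.o ⟨false,1,⟨1,[(24,1),(9,0),
  (5,0)]⟩,⟨2,[(3,0),(1,0),(6,0),(8,0),(1,1),(3,0)]⟩⟩,.a ⟨true,0,⟨0,[(24,0)]⟩,⟨0,[(23,0)]⟩⟩ ⟨false,1,
  ⟨1,[(21,0),(18,0)]⟩,⟨15,[(3,5),(2,1),(0,1),(11,1),(2,4),(14,5),(2,0)]⟩⟩ ⟨true,0,⟨1,[(11,0),(1,0),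
  (9,1),(15,0)]⟩,⟨0,[(12,0),(11,0)]⟩⟩]⟩) (.K ⟨0,[0,0,0,1],0,(-1),(⟨0,[(24,0)]⟩,⟨0,[(23,0)]⟩),.k,(.x
  0 ⟨5,[(9,1),(7,3),(11,6),(0,2)]⟩ ⟨0,[(36,0),(3,0)]⟩),(.x 0 ⟨0,[(36,0)]⟩ ⟨3,[(21,0),(0,0),(11,1),
  (0,3)]⟩),.k,.k,[⟨0,[(24,0)]⟩,⟨0,[(23,0)]⟩,⟨15,[(1,9),(0,3),(10,1),(2,1),(4,0),(2,5),(3,1),(5,0),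
  (8,17)]⟩,⟨0,[(0,0),(11,0)]⟩]⟩)) (.K ⟨0,[0,0,0,1],0,(-1),(⟨0,[(23,0)]⟩,⟨0,[(22,0)]⟩),.k,(.x 0 ⟨5,
  [(8,1),(7,3),(11,6),(0,2)]⟩ ⟨0,[(35,0),(3,0)]⟩),(.x 0 ⟨0,[(35,0)]⟩ ⟨3,[(20,0),(0,0),(11,1),(0,
  3)]⟩),.k,.k,[⟨0,[(23,0)]⟩,⟨0,[(22,0)]⟩,⟨1,[(20,0),(2,1),(15,0),(2,1)]⟩,⟨0,[(0,0),(37,0)]⟩]⟩)) (.Q
  [0,0,-1,0,1,0,0,0,-1,-1,0,1] (.p true [0,0,0,1] [1] (⟨0,[(22,0)]⟩,⟨0,[(21,0)]⟩) .k 1 (⟨0,[]⟩,⟨0,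
  []⟩) .k .k) (.Q [0,0,-2,0,1,0,0,0,0,-1,0,2] (.p true [0,0,0,1] [1,0,0,-1] (⟨0,[(23,0)]⟩,⟨0,[(22,
  0)]⟩) .k 2 (⟨0,[(22,0)]⟩,⟨0,[(23,0)]⟩) .k (.r 0 ⟨3,[(1,0),(0,4),(2,2),(3,0),(8,2),(2,0),(17,4)]⟩
  ⟨0,[(20,0)]⟩)) (.R ⟨0,false,false,false,[1,0,0,-1],[0,0,0,1],[0,1,1],(⟨0,[(23,0)]⟩,⟨0,[(24,0)]⟩),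
  (⟨0,[(24,0)]⟩,⟨0,[(23,0)]⟩),⟨0,[(4,0)]⟩,.k,.k,(.x (-1) ⟨3,[(21,0),(0,0),(11,1),(0,3)]⟩ ⟨0,[(36,
  0)]⟩),.k,.k,.k,⟨true,0,⟨0,[(2,0),(3,0),(12,0),(1,0)]⟩,⟨1,[(2,0),(0,0),(2,0),(0,1),(3,0),(7,0),(20,
  1)]⟩⟩,⟨false,0,⟨2,[(3,0),(1,0),(6,0),(8,0),(1,4),(3,0)]⟩,⟨0,[(0,0)]⟩⟩,⟨true,(-1),⟨0,[(2,0),(3,0),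
  (12,0)]⟩,⟨1,[(21,0),(18,0)]⟩⟩,⟨false,(-1),⟨1,[(2,0),(0,2),(2,1),(0,1),(3,0),(0,0),(6,0),(3,3),(16,
  1)]⟩,⟨0,[(0,0),(20,0)]⟩⟩,⟨false,0,⟨0,[]⟩,⟨0,[]⟩⟩,⟨false,0,⟨0,[]⟩,⟨0,[]⟩⟩,[.o ⟨false,0,⟨0,[(5,0),
  (37,0)]⟩,⟨0,[(1,0)]⟩⟩,.o ⟨false,0,⟨0,[(5,0)]⟩,⟨0,[(1,0),(41,0)]⟩⟩,.o ⟨false,1,⟨5,[(0,1),(0,1),(20,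
  0),(11,0)]⟩,⟨2,[(3,0),(1,0),(6,0),(8,0),(1,1),(3,0)]⟩⟩,.a ⟨true,0,⟨0,[(24,0)]⟩,⟨0,[(23,0)]⟩⟩
  ⟨true,0,⟨0,[(43,0)]⟩,⟨0,[]⟩⟩ ⟨false,0,⟨0,[(5,0),(17,0)]⟩,⟨0,[(1,0),(22,0)]⟩⟩]⟩) (.K ⟨0,[1,0,0,-1],
  1,1,(⟨0,[(23,0)]⟩,⟨0,[(24,0)]⟩),.k,(.x (-1) ⟨3,[(21,0),(0,0),(11,1),(0,3)]⟩ ⟨0,[(36,0)]⟩),(.r 0
  ⟨0,[(0,0),(0,0),(22,0),(14,0)]⟩ ⟨15,[(3,1),(2,5),(0,5),(11,5),(2,6),(14,1),(2,10)]⟩),.k,.k,[⟨0,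
  [(0,0),(23,0)]⟩,⟨0,[(24,0),(15,0)]⟩,⟨0,[(2,0),(3,0),(12,0),(3,0)]⟩,⟨0,[(1,0),(41,0)]⟩]⟩)) (.K ⟨0,
  [0,0,0,1],0,(-1),(⟨0,[(23,0)]⟩,⟨0,[(22,0)]⟩),.k,(.x 0 ⟨5,[(8,1),(7,3),(11,6),(0,2)]⟩ ⟨0,[(35,0),
  (3,0)]⟩),(.x 0 ⟨0,[(35,0)]⟩ ⟨3,[(20,0),(0,0),(11,1),(0,3)]⟩),.k,.k,[⟨0,[(23,0)]⟩,⟨0,[(22,0)]⟩,⟨1,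
  [(20,0),(2,1),(15,0),(2,1)]⟩,⟨1,[(0,1),(10,0),(14,0),(11,0)]⟩]⟩)))) (.I [0,1,-2,-1,1,0,0,0,-1]
  (.R ⟨1,false,false,false,[1,0,0,-1],[0,1],[0,1,0,0,0,0,0,0,-1],(⟨0,[(20,0)]⟩,⟨0,[(21,0)]⟩),(⟨0,
  [(33,0)]⟩,⟨0,[(32,0)]⟩),⟨0,[(1,0)]⟩,.k,.k,(.x (-1) ⟨3,[(18,0),(0,0),(11,1),(0,3)]⟩ ⟨0,[(33,0)]⟩),
  (.x (-1) ⟨3,[(18,0),(0,0),(11,1),(0,3)]⟩ ⟨0,[(33,0)]⟩),(.x 0 ⟨2,[(6,1),(7,3),(0,2),(10,0)]⟩ ⟨3,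
  [(18,0),(0,0),(13,7),(3,1)]⟩),.k,⟨false,1,⟨0,[(0,0)]⟩,⟨0,[(2,0),(18,0),(14,0)]⟩⟩,⟨true,0,⟨0,[(20,
  0)]⟩,⟨3,[(8,0),(0,1),(11,3),(4,1),(7,0),(1,0)]⟩⟩,⟨true,0,⟨0,[(40,0)]⟩,⟨0,[]⟩⟩,⟨false,0,⟨0,[(2,0),
  (17,0),(0,0),(14,0)]⟩,⟨3,[(0,3),(7,0),(0,1),(5,1),(5,3),(12,2),(1,0)]⟩⟩,⟨false,0,⟨0,[(36,0)]⟩,⟨0,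
  [(35,0),(2,0)]⟩⟩,⟨false,0,⟨0,[(2,0),(17,0),(0,0),(14,1)]⟩,⟨1,[(0,1),(2,0),(5,0),(11,1),(12,1)]⟩⟩,
  [.o ⟨false,0,⟨0,[(36,0)]⟩,⟨1,[(31,0),(3,1),(2,0)]⟩⟩,.o ⟨false,1,⟨3,[(18,0),(0,0),(16,3),(1,1)]⟩,
  ⟨0,[(11,0)]⟩⟩,.o ⟨false,1,⟨1,[(21,1),(9,0),(5,0)]⟩,⟨3,[(8,0),(0,1),(10,3),(5,1),(7,0),(1,0)]⟩⟩,.a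
  ⟨true,0,⟨0,[(21,0)]⟩,⟨0,[(20,0)]⟩⟩ ⟨false,1,⟨1,[(18,0),(18,0)]⟩,⟨0,[(2,0),(18,0)]⟩⟩ ⟨true,0,⟨0,
  [(20,0),(15,0)]⟩,⟨1,[(3,0),(5,0),(11,1)]⟩⟩]⟩) (.Q [0,-1,-1,0,1,0,0,0,-1,0,0,1] (.p true [0,0,0,1]
  [] (⟨0,[(21,0)]⟩,⟨0,[(20,0)]⟩) .k 0 (⟨0,[]⟩,⟨0,[]⟩) .k .k) (.I [1,1,1,0,-1,0,0,0,1] (.R ⟨0,false,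
  false,false,[1,0,-1],[1,0,0,-1],[1,1,1],(⟨0,[(31,0)]⟩,⟨0,[(32,0)]⟩),(⟨0,[(22,0)]⟩,⟨0,[(23,0)]⟩),
  ⟨0,[(14,0)]⟩,.k,.k,.k,.k,.k,.k,⟨true,(-1),⟨0,[(0,0)]⟩,⟨1,[(20,0),(19,0)]⟩⟩,⟨false,1,⟨0,[(17,0),(5,
  0),(15,0)]⟩,⟨0,[(22,0),(2,0)]⟩⟩,⟨false,0,⟨11,[(5,3),(4,3),(17,0),(0,4),(6,1)]⟩,⟨1,[(30,1),(8,0),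
  (0,0)]⟩⟩,⟨true,1,⟨0,[(1,0),(24,0)]⟩,⟨1,[(0,1),(2,0),(4,0),(0,0),(4,1),(7,0),(15,0)]⟩⟩,⟨false,0,⟨0,
  []⟩,⟨0,[]⟩⟩,⟨false,0,⟨0,[]⟩,⟨0,[]⟩⟩,[.o ⟨false,1,⟨1,[(1,1),(9,0),(14,0),(11,0)]⟩,⟨7,[(0,2),(3,2),
  (16,0),(0,4),(2,0),(2,0),(4,1)]⟩⟩,.a ⟨true,1,⟨0,[(1,0)]⟩,⟨0,[(0,0),(21,0)]⟩⟩ ⟨false,0,⟨0,[]⟩,⟨3,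
  [(20,0),(0,0),(17,1)]⟩⟩ ⟨true,1,⟨0,[(1,0),(15,0)]⟩,⟨0,[(0,0),(21,0),(2,0)]⟩⟩,.o ⟨false,1,⟨3,[(20,
  0),(0,0),(3,3),(13,1)]⟩,⟨0,[(17,0)]⟩⟩,.o ⟨false,0,⟨0,[(25,0)]⟩,⟨7,[(12,3),(7,0),(0,0),(11,3),(5,
  1)]⟩⟩]⟩) (.Q [0,0,-1,-2,1,0,-1,-1,-1,-2,1,1] (.p true [-1,1,1] [1,0,0,-1] (⟨0,[(14,0)]⟩,⟨0,[(31,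
  0),(2,0)]⟩) .k 2 (⟨0,[(22,0)]⟩,⟨0,[(23,0)]⟩) .k (.x 0 ⟨0,[(28,0),(3,0)]⟩ ⟨7,[(8,3),(11,0),(0,0),
  (13,3),(3,5)]⟩)) (.R ⟨1,false,false,false,[1,0,0,-1],[-1,1,1],[0,1,0,0,0,0,0,0,-1],(⟨0,[(23,0)]⟩,
  ⟨0,[(24,0)]⟩),(⟨0,[(15,0)]⟩,⟨0,[(32,0),(2,0)]⟩),⟨0,[(4,0)]⟩,.k,.k,(.x (-1) ⟨3,[(21,0),(0,0),(11,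
  1),(0,3)]⟩ ⟨0,[(36,0)]⟩),(.r (-1) ⟨23,[(0,7),(9,7),(2,3),(7,10),(0,2),(0,7),(16,1)]⟩ ⟨3,[(3,1),(7,
  1),(10,0),(17,0),(2,1)]⟩),(.x 0 ⟨0,[(9,0),(7,0),(0,0)]⟩ ⟨7,[(8,3),(12,2),(0,2),(13,11),(3,1)]⟩),
  .k,⟨false,1,⟨0,[(1,0),(10,0),(0,0),(5,0),(19,0)]⟩,⟨12,[(3,8),(2,0),(4,5),(7,0),(2,1),(14,2),(2,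
  6)]⟩⟩,⟨true,0,⟨3,[(13,1),(9,3),(5,0),(0,0)]⟩,⟨1,[(2,0),(0,0),(7,0),(0,1),(11,0)]⟩⟩,⟨true,0,⟨0,
  [(43,0)]⟩,⟨0,[]⟩⟩,⟨false,0,⟨3,[(3,1),(7,1),(1,1),(8,0),(0,3),(17,0)]⟩,⟨0,[(2,0),(9,0)]⟩⟩,⟨false,0,
  ⟨0,[(39,0)]⟩,⟨0,[(38,0),(2,0)]⟩⟩,⟨false,0,⟨3,[(3,1),(7,1),(1,1),(8,0),(0,3),(15,3),(1,0)]⟩,⟨0,[(0,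
  0)]⟩⟩,[.o ⟨false,0,⟨1,[(11,0),(1,0),(25,0)]⟩,⟨1,[(16,1),(17,0),(6,0)]⟩⟩,.o ⟨false,1,⟨3,[(11,1),(1,
  1),(7,0),(0,0),(16,1),(1,1)]⟩,⟨0,[(12,0)]⟩⟩,.o ⟨false,1,⟨1,[(24,1),(9,0),(5,0)]⟩,⟨2,[(3,0),(1,0),
  (6,0),(8,0),(1,1),(3,0)]⟩⟩,.a ⟨true,0,⟨0,[(24,0)]⟩,⟨0,[(23,0)]⟩⟩ ⟨false,1,⟨1,[(21,0),(18,0)]⟩,⟨15,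
  [(3,5),(2,1),(0,1),(11,1),(2,4),(14,5),(2,0)]⟩⟩ ⟨true,0,⟨1,[(11,0),(1,0),(9,1),(15,0)]⟩,⟨0,[(12,
  0),(11,0)]⟩⟩]⟩) (.R ⟨1,true,false,false,[1,0,0,-1],[-1,1,1],[0,1,0,0,0,0,0,0,-1],(⟨0,[(23,0)]⟩,⟨0,
  [(24,0)]⟩),(⟨0,[(15,0)]⟩,⟨0,[(32,0),(2,0)]⟩),⟨0,[(4,0)]⟩,.k,.k,(.x (-1) ⟨3,[(21,0),(0,0),(11,1),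
  (0,3)]⟩ ⟨0,[(36,0)]⟩),(.r (-1) ⟨7,[(1,3),(8,3),(10,2),(0,0),(15,3)]⟩ ⟨5,[(0,0),(2,0),(7,2),(0,0),
  (9,1),(1,0),(14,0)]⟩),(.x 0 ⟨0,[(9,0),(7,0),(0,0)]⟩ ⟨7,[(8,3),(12,2),(0,2),(13,11),(3,1)]⟩),.k,
  ⟨false,1,⟨0,[(1,0),(10,0),(0,0),(5,0),(19,0)]⟩,⟨12,[(3,8),(2,0),(4,5),(7,0),(2,1),(14,2),(2,6)]⟩⟩,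
  ⟨true,0,⟨3,[(13,1),(9,3),(5,0),(0,0)]⟩,⟨1,[(2,0),(0,0),(7,0),(0,1),(11,0)]⟩⟩,⟨true,0,⟨0,[(43,0)]⟩,
  ⟨0,[]⟩⟩,⟨false,0,⟨11,[(0,3),(10,3),(1,3),(8,3),(0,7),(5,0),(0,0),(6,5)]⟩,⟨0,[(2,0),(9,0)]⟩⟩,
  ⟨false,0,⟨0,[(39,0)]⟩,⟨0,[(38,0),(2,0)]⟩⟩,⟨true,(-1),⟨0,[(0,0)]⟩,⟨1,[(2,1),(3,0),(5,0),(3,1)]⟩⟩,
  []⟩))) (.K ⟨0,[0,0,0,1],0,(-1),(⟨0,[(22,0)]⟩,⟨0,[(21,0)]⟩),.k,(.x 0 ⟨5,[(7,1),(7,3),(11,6),(0,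
  2)]⟩ ⟨0,[(34,0),(3,0)]⟩),(.x 0 ⟨0,[(34,0)]⟩ ⟨3,[(19,0),(0,0),(11,1),(0,3)]⟩),.k,.k,[⟨0,[(22,0)]⟩,
  ⟨0,[(21,0)]⟩,⟨1,[(19,0),(2,1),(15,0),(2,1)]⟩,⟨0,[(0,0)]⟩]⟩))))))))))) (.K ⟨1,[-1,1,1],0,0,(⟨0,[(3,
  0)]⟩,⟨0,[(20,0),(2,0)]⟩),.k,.k,(.x (-1) ⟨7,[(1,3),(1,7),(5,0),(0,0),(13,7),(3,5)]⟩ ⟨0,[(2,1),(11,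
  0),(5,0),(2,1),(1,0),(1,1)]⟩),.k,.k,[⟨1,[(14,1),(2,0),(0,0)]⟩,⟨3,[(1,1),(15,0),(0,0)]⟩,⟨0,[(4,
  0)]⟩,⟨0,[(0,0)]⟩]⟩))

theorem ok3 : chk (cU (-1) true 10) t3 l5 = true := by decide +kernel

noncomputable def t4 : Tre :=
  (.Q [0,1,1,0,0,0,0,0,1,0,0,-1] (.p false [0,0,0,1] [] (⟨0,[(13,0)]⟩,⟨0,[(12,0)]⟩) .k 0 (⟨0,[]⟩,⟨0,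
  []⟩) .k .k) (.K ⟨0,[0,0,0,1],0,0,(⟨0,[(14,0)]⟩,⟨0,[(13,0)]⟩),.k,(.x 0 ⟨0,[(16,0),(2,0),(5,0)]⟩ ⟨0,
  [(26,0),(3,0)]⟩),(.x 0 ⟨0,[(26,0)]⟩ ⟨3,[(11,0),(0,0),(11,1),(0,3)]⟩),.k,.k,[⟨0,[(14,0)]⟩,⟨0,[(13,
  0)]⟩,⟨0,[(1,0),(12,0),(15,0)]⟩,⟨0,[(0,0)]⟩]⟩) (.I [1,-1,0,0,0,0,0,-1] (.Q [0,1,1,0,0,0,-1,-1,1,0,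
  1,-1] (.p true [0,0,1] [0,0,0,1] (⟨0,[(24,0)]⟩,⟨0,[(23,0)]⟩) .k 2 (⟨0,[(15,0)]⟩,⟨0,[(14,0)]⟩) .k
  (.r 0 ⟨14,[(1,11),(0,0),(1,5),(7,0),(1,11),(3,14),(2,2),(6,1)]⟩ ⟨3,[(12,0),(0,2),(8,3)]⟩)) (.R ⟨0,
  false,false,false,[1,0,-1],[1,0,0,-1],[1,1,1],(⟨0,[(24,0)]⟩,⟨0,[(25,0)]⟩),(⟨0,[(15,0)]⟩,⟨0,[(16,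
  0)]⟩),⟨0,[(7,0)]⟩,.k,.k,.k,.k,.k,.k,⟨true,0,⟨0,[(3,0),(10,0)]⟩,⟨2,[(2,1),(0,0),(11,1),(10,0),(2,
  0)]⟩⟩,⟨false,1,⟨0,[(10,0),(5,0),(15,0)]⟩,⟨0,[(15,0),(2,0)]⟩⟩,⟨false,0,⟨1,[(5,0),(9,1),(0,1),(2,1),
  (9,0)]⟩,⟨1,[(23,1),(8,0),(0,0)]⟩⟩,⟨true,0,⟨0,[(2,0),(16,0)]⟩,⟨0,[(0,0)]⟩⟩,⟨false,0,⟨0,[]⟩,⟨0,[]⟩⟩,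
  ⟨false,0,⟨0,[]⟩,⟨0,[]⟩⟩,[.o ⟨false,0,⟨1,[(2,1),(1,0),(14,0),(11,0)]⟩,⟨5,[(5,1),(7,0),(0,3),(0,5),
  (5,3),(4,0)]⟩⟩,.a ⟨true,0,⟨0,[(2,0)]⟩,⟨0,[(3,0),(10,0),(0,0)]⟩⟩ ⟨false,0,⟨0,[]⟩,⟨3,[(13,0),(0,0),
  (17,1)]⟩⟩ ⟨true,0,⟨0,[(2,0),(7,0)]⟩,⟨3,[(0,1),(2,1),(1,0),(8,1),(0,1),(3,1),(2,1),(6,0)]⟩⟩,.o
  ⟨false,1,⟨7,[(5,3),(7,2),(0,2),(17,1)]⟩,⟨0,[(10,0)]⟩⟩,.o ⟨false,0,⟨0,[(18,0)]⟩,⟨7,[(12,3),(0,0),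
  (0,0),(11,1),(5,3)]⟩⟩]⟩) (.R ⟨0,false,false,false,[-1,1,1],[1,0,0,-1],[1,1,1],(⟨0,[(7,0)]⟩,⟨0,
  [(24,0),(2,0)]⟩),(⟨0,[(15,0)]⟩,⟨0,[(16,0)]⟩),⟨0,[(24,0)]⟩,.k,.k,.k,(.r (-1) ⟨1,[(14,0),(4,1),(2,
  1),(8,1),(1,0)]⟩ ⟨1,[(2,1),(1,0),(3,0),(3,0),(2,1)]⟩),.k,.k,⟨true,0,⟨0,[(3,0),(10,0)]⟩,⟨11,[(0,5),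
  (0,5),(1,1),(1,2),(7,1),(1,5),(13,0)]⟩⟩,⟨false,1,⟨7,[(0,1),(3,1),(0,3),(8,0),(1,5),(9,1),(4,1),(0,
  4)]⟩,⟨1,[(12,0),(2,2),(0,0)]⟩⟩,⟨false,0,⟨0,[(1,0),(28,0)]⟩,⟨4,[(0,1),(4,0),(8,0),(0,1),(3,2),(2,
  2),(8,4),(0,0),(0,2)]⟩⟩,⟨true,0,⟨0,[(2,0),(1,0)]⟩,⟨0,[(0,0),(2,1),(10,1),(0,1),(15,0)]⟩⟩,⟨false,0,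
  ⟨0,[]⟩,⟨0,[]⟩⟩,⟨false,0,⟨0,[]⟩,⟨0,[]⟩⟩,[.o ⟨false,0,⟨0,[(0,0),(16,0)]⟩,⟨5,[(5,1),(7,0),(0,3),(0,
  5),(5,3),(4,0)]⟩⟩,.a ⟨true,0,⟨0,[(2,0)]⟩,⟨0,[(3,0),(10,0),(0,0)]⟩⟩ ⟨false,0,⟨0,[]⟩,⟨3,[(13,0),(0,
  0),(17,1)]⟩⟩ ⟨true,0,⟨6,[(0,3),(0,2),(0,1),(0,0),(0,0),(0,4),(10,0),(9,0),(4,0)]⟩,⟨1,[(3,1),(8,0),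
  (1,1),(0,2),(0,0)]⟩⟩,.o ⟨false,1,⟨3,[(12,1),(0,0),(0,0),(0,1),(0,1),(15,1)]⟩,⟨0,[(5,0),(4,0)]⟩⟩,
  .o ⟨false,0,⟨1,[(12,0),(2,0),(0,0)]⟩,⟨7,[(5,3),(7,0),(0,0),(11,3),(5,1)]⟩⟩]⟩)) (.Q [0,0,0,0,0,0,
  -2,-2,0,-1,2] (.p true [0,0,1] [1,0,-1] (⟨0,[(24,0)]⟩,⟨0,[(23,0)]⟩) .k 2 (⟨0,[(23,0)]⟩,⟨0,[(24,
  0)]⟩) .k (.r (-1) ⟨0,[(0,1),(31,0)]⟩ ⟨0,[(22,1)]⟩)) (.Q [0,1,1,0,0,0,-1,-1,1,0,1,-1] (.p true [0,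
  0,1] [0,0,0,1] (⟨0,[(25,0)]⟩,⟨0,[(24,0)]⟩) .k 2 (⟨0,[(16,0)]⟩,⟨0,[(15,0)]⟩) .k (.r 0 ⟨8,[(1,2),(0,
  5),(0,0),(1,2),(7,0),(1,5),(3,5),(9,1)]⟩ ⟨3,[(13,0),(0,2),(8,3)]⟩)) (.R ⟨0,false,false,false,[1,0,
  -1],[1,0,0,-1],[1,1,1],(⟨0,[(25,0)]⟩,⟨0,[(26,0)]⟩),(⟨0,[(16,0)]⟩,⟨0,[(17,0)]⟩),⟨0,[(8,0)]⟩,.k,.k,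
  .k,.k,.k,.k,⟨true,0,⟨0,[(4,0),(10,0)]⟩,⟨2,[(3,1),(0,0),(11,1),(10,0),(2,0)]⟩⟩,⟨false,1,⟨0,[(11,0),
  (5,0),(15,0)]⟩,⟨0,[(16,0),(2,0)]⟩⟩,⟨false,0,⟨3,[(2,3),(19,0),(0,0),(6,1)]⟩,⟨1,[(24,1),(8,0),(0,
  0)]⟩⟩,⟨true,0,⟨0,[(3,0),(16,0)]⟩,⟨0,[(0,0)]⟩⟩,⟨false,0,⟨0,[]⟩,⟨0,[]⟩⟩,⟨false,0,⟨0,[]⟩,⟨0,[]⟩⟩,[.o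
  ⟨false,0,⟨1,[(3,1),(1,0),(14,0),(11,0)]⟩,⟨5,[(6,1),(7,0),(0,3),(0,5),(5,3),(4,0)]⟩⟩,.a ⟨true,0,⟨0,
  [(3,0)]⟩,⟨0,[(4,0),(10,0),(0,0)]⟩⟩ ⟨false,0,⟨0,[]⟩,⟨3,[(14,0),(0,0),(17,1)]⟩⟩ ⟨true,0,⟨0,[(3,0),
  (7,0)]⟩,⟨3,[(0,3),(1,3),(19,0),(0,0),(6,1)]⟩⟩,.o ⟨false,1,⟨7,[(6,3),(7,2),(0,2),(17,1)]⟩,⟨0,[(11,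
  0)]⟩⟩,.o ⟨false,0,⟨0,[(19,0)]⟩,⟨7,[(13,3),(0,0),(0,0),(11,1),(5,3)]⟩⟩]⟩) (.R ⟨0,false,false,true,
  [1,0,-1],[0,0,1],[1,1,1],(⟨0,[(25,0)]⟩,⟨0,[(26,0)]⟩),(⟨0,[(26,0)]⟩,⟨0,[(25,0)]⟩),⟨0,[(8,0)]⟩,.k,
  .k,.k,.k,.k,.k,⟨false,0,⟨0,[(24,0)]⟩,⟨1,[(2,1),(30,0),(0,0)]⟩⟩,⟨true,0,⟨0,[(13,0)]⟩,⟨0,[(6,0),(9,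
  0),(0,0)]⟩⟩,⟨false,0,⟨3,[(2,3),(19,0),(0,0),(6,1)]⟩,⟨1,[(24,1),(8,0),(0,0)]⟩⟩,⟨true,0,⟨0,[(0,0),
  (3,0),(10,0),(0,0),(3,0)]⟩,⟨0,[(1,0)]⟩⟩,⟨false,0,⟨0,[]⟩,⟨0,[]⟩⟩,⟨false,0,⟨0,[]⟩,⟨0,[]⟩⟩,[.o
  ⟨false,0,⟨0,[(20,0)]⟩,⟨7,[(1,3),(12,0),(0,0),(11,1),(6,3)]⟩⟩,.a ⟨true,0,⟨0,[(0,0),(3,0),(10,0),(0,
  0)]⟩,⟨1,[(1,0),(14,0),(0,0)]⟩⟩ ⟨false,0,⟨0,[]⟩,⟨3,[(14,0),(0,0),(17,1)]⟩⟩ ⟨true,0,⟨0,[(0,0),(3,0),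
  (6,0),(3,0),(0,0)]⟩,⟨1,[(1,0),(17,0),(3,0)]⟩⟩,.o ⟨false,1,⟨7,[(6,3),(7,2),(0,2),(17,1)]⟩,⟨0,[(11,
  0)]⟩⟩,.o ⟨false,0,⟨0,[(19,0)]⟩,⟨7,[(13,3),(0,0),(0,0),(11,1),(5,3)]⟩⟩]⟩)) (.R ⟨0,false,false,
  false,[-1,1,1],[1,0,0,-1],[0,0,1,0,0,0,0,0,-1],(⟨0,[(7,0)]⟩,⟨0,[(24,0),(2,0)]⟩),(⟨0,[(15,0)]⟩,⟨0,
  [(16,0)]⟩),⟨0,[(24,0)]⟩,.k,.k,.k,(.r (-1) ⟨3,[(0,1),(12,0),(0,2),(3,1),(3,1),(8,3)]⟩ ⟨1,[(2,1),(1,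
  0),(3,0),(3,0),(2,1)]⟩),.k,.k,⟨true,0,⟨1,[(21,0),(0,0)]⟩,⟨0,[]⟩⟩,⟨false,1,⟨3,[(2,1),(1,0),(0,1),
  (8,0),(1,1),(2,0),(6,0),(4,0),(0,1)]⟩,⟨1,[(12,0),(2,2),(0,0)]⟩⟩,⟨false,0,⟨11,[(2,8),(0,0),(0,2),
  (3,8),(3,5),(0,0),(1,8),(13,7)]⟩,⟨1,[(1,1),(12,0),(16,1),(1,0)]⟩⟩,⟨true,0,⟨0,[(2,0),(1,0)]⟩,⟨1,
  [(0,0),(2,1),(10,1),(0,2),(0,0),(14,1)]⟩⟩,⟨false,0,⟨0,[]⟩,⟨0,[]⟩⟩,⟨false,0,⟨0,[]⟩,⟨0,[]⟩⟩,[.o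
  ⟨false,0,⟨1,[(2,1),(1,0),(14,0),(11,0)]⟩,⟨5,[(5,1),(7,0),(0,3),(0,5),(5,3),(4,0)]⟩⟩,.a ⟨true,0,⟨0,
  [(2,0)]⟩,⟨0,[(3,0),(10,0),(0,0)]⟩⟩ ⟨false,0,⟨2,[(2,1),(0,0),(11,1),(10,0),(2,0)]⟩,⟨1,[(14,0),(17,
  0),(2,1)]⟩⟩ ⟨true,0,⟨0,[(2,0),(2,0),(4,0)]⟩,⟨1,[(3,1),(8,0),(1,1),(0,2),(0,0)]⟩⟩,.o ⟨false,1,⟨3,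
  [(12,1),(0,0),(0,0),(0,1),(0,1),(15,1)]⟩,⟨0,[(5,0),(4,0)]⟩⟩,.o ⟨false,0,⟨1,[(12,0),(2,0),(0,0)]⟩,
  ⟨7,[(5,3),(7,0),(0,0),(11,3),(5,1)]⟩⟩]⟩))))

theorem ok4 : chk (cU (-1) true 10) t4 l7 = true := by decide +kernel

noncomputable def t8 : Tre :=
  (.Q [0,0,0,0,0,0,1,1,0,1,-1] (.p false [0,0,1] [1] (⟨0,[(23,0)]⟩,⟨0,[(22,0)]⟩) .k 1 (⟨0,[]⟩,⟨0,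
  []⟩) .k .k) (.Q [0,0,0,0,0,0,-1,-1,0,0,1] (.p true [0,0,1] [] (⟨0,[(24,0)]⟩,⟨0,[(23,0)]⟩) .k 0
  (⟨0,[]⟩,⟨0,[]⟩) .k .k) (.R ⟨0,false,false,true,[-1,1,1],[0,0,1],[0,1,0,0,0,0,0,1],(⟨0,[(7,0)]⟩,⟨0,
  [(24,0),(2,0)]⟩),(⟨0,[(25,0)]⟩,⟨0,[(24,0)]⟩),⟨0,[(24,0)]⟩,.k,.k,.k,.k,.k,.k,⟨false,1,⟨3,[(13,0),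
  (0,0),(17,1)]⟩,⟨0,[]⟩⟩,⟨true,0,⟨1,[(5,0),(4,0),(10,0)]⟩,⟨0,[(15,0),(0,0)]⟩⟩,⟨false,1,⟨1,[(30,1),
  (1,0),(0,0)]⟩,⟨3,[(21,0),(0,0),(6,1),(1,3)]⟩⟩,⟨true,0,⟨0,[(6,0)]⟩,⟨0,[(15,0),(0,0),(14,0)]⟩⟩,
  ⟨false,0,⟨0,[]⟩,⟨0,[]⟩⟩,⟨false,0,⟨0,[]⟩,⟨0,[]⟩⟩,[.o ⟨false,0,⟨0,[(19,0)]⟩,⟨1,[(0,1),(25,0),(6,
  0)]⟩⟩,.a ⟨true,0,⟨0,[(1,0)]⟩,⟨0,[(0,0)]⟩⟩ ⟨false,1,⟨7,[(1,7),(3,3),(7,0),(0,0),(17,5)]⟩,⟨0,[(23,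
  0)]⟩⟩ ⟨true,0,⟨1,[(5,0),(13,1),(9,0)]⟩,⟨1,[(0,1),(11,0),(2,0),(0,0)]⟩⟩,.o ⟨false,1,⟨3,[(1,1),(1,
  1),(8,1),(0,0),(6,1),(11,0)]⟩,⟨0,[(5,0),(4,0)]⟩⟩,.o ⟨false,0,⟨1,[(12,0),(2,0),(0,0)]⟩,⟨7,[(5,3),
  (7,0),(0,0),(11,3),(5,1)]⟩⟩]⟩) (.Q [0,0,0,1,0,0,-1,-1,0,0,1] (.p true [0,0,1] [] (⟨0,[(25,0)]⟩,⟨0,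
  [(24,0)]⟩) .k 0 (⟨0,[]⟩,⟨0,[]⟩) .k .k) (.R ⟨2,true,false,true,[0,1],[0,0,1],[1,0,1],(⟨0,[]⟩,⟨0,
  []⟩),(⟨0,[(26,0)]⟩,⟨0,[(25,0)]⟩),⟨0,[]⟩,.k,.k,.k,.k,.k,.k,⟨true,0,⟨2,[(21,0),(0,0),(1,1),(5,1)]⟩,
  ⟨0,[(1,0),(10,0),(19,0)]⟩⟩,⟨false,0,⟨0,[(11,0)]⟩,⟨0,[(23,0),(9,0)]⟩⟩,⟨false,1,⟨0,[(31,0),(2,0)]⟩,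
  ⟨0,[(32,0)]⟩⟩,⟨true,0,⟨0,[(3,0)]⟩,⟨0,[(0,0)]⟩⟩,⟨true,0,⟨0,[]⟩,⟨0,[(36,0)]⟩⟩,⟨false,0,⟨0,[(1,0)]⟩,
  ⟨0,[(21,0),(12,0)]⟩⟩,[]⟩) (.I [0,-1,1,1,0,0,0,1,1] (.Q [0,1,1,0,-1,0,0,0,1,0,0,-1] (.p false [0,0,
  0,1] [] (⟨0,[(18,0)]⟩,⟨0,[(17,0)]⟩) .k 0 (⟨0,[]⟩,⟨0,[]⟩) .k .k) (.K ⟨0,[0,0,0,1],0,(-1),(⟨0,[(19,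
  0)]⟩,⟨0,[(18,0)]⟩),.k,(.x 0 ⟨0,[(21,0),(2,0),(5,0)]⟩ ⟨0,[(31,0),(3,0)]⟩),(.x 0 ⟨0,[(31,0)]⟩ ⟨3,
  [(16,0),(0,0),(11,1),(0,3)]⟩),.k,.k,[⟨0,[(19,0)]⟩,⟨0,[(18,0)]⟩,⟨1,[(16,0),(2,1),(15,0),(2,1)]⟩,⟨0,
  [(0,0)]⟩]⟩) (.Q [0,0,0,0,0,1,0,0,0,-1,0,1] (.p true [0,0,0,1] [1] (⟨0,[(19,0)]⟩,⟨0,[(18,0)]⟩) .k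
  1 (⟨0,[]⟩,⟨0,[]⟩) .k .k) (.I [0,1,0,-1,0,0,0,-1,-1] (.R ⟨0,false,false,false,[1,0,0,-1],[0,0,1],
  [0,1,0,-1,0,0,0,0,-1],(⟨0,[(20,0)]⟩,⟨0,[(21,0)]⟩),(⟨0,[(30,0)]⟩,⟨0,[(29,0)]⟩),⟨0,[(1,0)]⟩,.k,.k,
  (.x (-1) ⟨3,[(18,0),(0,0),(11,1),(0,3)]⟩ ⟨0,[(33,0)]⟩),.k,.k,.k,⟨true,0,⟨0,[(0,0)]⟩,⟨0,[(3,0)]⟩⟩,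
  ⟨false,0,⟨0,[(15,0),(4,0)]⟩,⟨7,[(2,1),(7,3),(8,0),(1,5),(15,4),(2,1)]⟩⟩,⟨true,0,⟨0,[(35,0)]⟩,⟨0,
  [(36,0)]⟩⟩,⟨false,0,⟨0,[(3,0),(0,0),(15,0),(7,0)]⟩,⟨0,[(2,0),(19,0)]⟩⟩,⟨false,0,⟨0,[]⟩,⟨0,[]⟩⟩,
  ⟨false,0,⟨0,[]⟩,⟨0,[]⟩⟩,[.o ⟨false,0,⟨0,[(5,0)]⟩,⟨1,[(25,1),(5,0),(6,0)]⟩⟩,.o ⟨false,1,⟨3,[(5,3),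
  (12,0),(0,0),(18,1)]⟩,⟨0,[(22,0)]⟩⟩,.o ⟨false,1,⟨1,[(21,1),(9,0),(5,0)]⟩,⟨1,[(10,0),(4,0),(4,1),
  (5,0)]⟩⟩,.a ⟨true,0,⟨0,[(21,0)]⟩,⟨0,[(20,0)]⟩⟩ ⟨false,1,⟨2,[(0,0),(3,0),(11,0),(1,0),(15,0),(2,
  1)]⟩,⟨0,[(3,0),(24,0)]⟩⟩ ⟨true,0,⟨0,[(5,0),(14,0)]⟩,⟨0,[(21,0),(0,0)]⟩⟩]⟩) (.I [0,0,-1,-1,1,0,0,1,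
  -1] (.R ⟨0,false,false,true,[1,0,0,-1],[1,0,-1],[0,1,0,-1,0,0,0,0,-1],(⟨0,[(21,0)]⟩,⟨0,[(22,0)]⟩),
  (⟨0,[(30,0)]⟩,⟨0,[(31,0)]⟩),⟨0,[(2,0)]⟩,.k,.k,(.x (-1) ⟨3,[(19,0),(0,0),(11,1),(0,3)]⟩ ⟨0,[(34,
  0)]⟩),.k,.k,.k,⟨false,1,⟨0,[(0,0)]⟩,⟨1,[(1,1),(16,0),(4,0),(2,0),(2,1)]⟩⟩,⟨true,0,⟨0,[(21,0),(2,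
  0)]⟩,⟨0,[(16,0),(5,0)]⟩⟩,⟨true,0,⟨0,[(36,0)]⟩,⟨0,[(37,0)]⟩⟩,⟨false,0,⟨0,[(4,0),(9,0),(6,0),(7,
  0)]⟩,⟨0,[(3,0),(2,0)]⟩⟩,⟨false,0,⟨0,[]⟩,⟨0,[]⟩⟩,⟨false,0,⟨0,[]⟩,⟨0,[]⟩⟩,[.o ⟨false,0,⟨0,[(23,0)]⟩,
  ⟨3,[(6,3),(12,0),(0,0),(18,1)]⟩⟩,.o ⟨false,1,⟨1,[(26,1),(5,0),(6,0)]⟩,⟨0,[(6,0)]⟩⟩,.o ⟨false,1,⟨1,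
  [(22,1),(9,0),(5,0)]⟩,⟨1,[(11,0),(4,0),(4,1),(5,0)]⟩⟩,.a ⟨true,0,⟨0,[(22,0)]⟩,⟨0,[(21,0)]⟩⟩
  ⟨false,1,⟨0,[(0,0),(28,0)]⟩,⟨0,[(4,0),(24,0)]⟩⟩ ⟨true,0,⟨0,[(21,0),(1,0)]⟩,⟨0,[(6,0),(15,0)]⟩⟩]⟩)
  (.R ⟨0,false,false,true,[1,0,0,-1],[0,1],[1,0,1],(⟨0,[(21,0)]⟩,⟨0,[(22,0)]⟩),(⟨0,[(34,0)]⟩,⟨0,
  [(33,0)]⟩),⟨0,[(2,0)]⟩,.k,.k,(.x (-1) ⟨3,[(19,0),(0,0),(11,1),(0,3)]⟩ ⟨0,[(34,0)]⟩),(.x (-1) ⟨3,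
  [(19,0),(0,0),(11,1),(0,3)]⟩ ⟨0,[(34,0)]⟩),.k,.k,⟨false,1,⟨3,[(3,0),(1,1),(3,0),(4,0),(2,0),(3,0),
  (7,0),(5,1),(2,1)]⟩,⟨0,[(37,0),(3,0)]⟩⟩,⟨true,0,⟨0,[(21,0)]⟩,⟨1,[(11,0),(4,0),(5,1),(4,0)]⟩⟩,
  ⟨false,0,⟨6,[(0,1),(3,0),(0,0),(11,0),(2,1),(14,3),(0,0)]⟩,⟨1,[(19,0),(18,0)]⟩⟩,⟨true,(-1),⟨0,[(0,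
  0),(5,0),(10,0),(3,0),(15,0)]⟩,⟨0,[(3,0),(8,0)]⟩⟩,⟨false,0,⟨0,[]⟩,⟨0,[]⟩⟩,⟨false,0,⟨0,[]⟩,⟨0,[]⟩⟩,
  [.o ⟨false,0,⟨0,[(37,0),(3,0)]⟩,⟨0,[(12,0),(26,0)]⟩⟩,.o ⟨false,0,⟨0,[(37,0)]⟩,⟨1,[(32,0),(3,1),(2,
  0)]⟩⟩,.o ⟨false,1,⟨1,[(22,1),(9,0),(5,0)]⟩,⟨1,[(11,0),(4,0),(4,1),(5,0)]⟩⟩,.a ⟨true,0,⟨0,[(22,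
  0)]⟩,⟨0,[(21,0)]⟩⟩ ⟨true,0,⟨0,[]⟩,⟨0,[(41,0)]⟩⟩ ⟨false,0,⟨0,[(21,0),(15,0)]⟩,⟨0,[(12,0),(9,0),(16,
  0)]⟩⟩]⟩))) (.I [0,0,-2,-2,1,0,0,-1,-1] (.R ⟨1,false,false,false,[1,0,0,-1],[0,1],[1,1,0,-1,0,0,0,
  0,-1],(⟨0,[(20,0)]⟩,⟨0,[(21,0)]⟩),(⟨0,[(33,0)]⟩,⟨0,[(32,0)]⟩),⟨0,[(1,0)]⟩,.k,.k,(.x (-1) ⟨3,[(18,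
  0),(0,0),(11,1),(0,3)]⟩ ⟨0,[(33,0)]⟩),(.x (-1) ⟨3,[(18,0),(0,0),(11,1),(0,3)]⟩ ⟨0,[(33,0)]⟩),(.x
  0 ⟨0,[(10,0),(4,1),(16,1)]⟩ ⟨3,[(18,0),(0,0),(13,7),(3,1)]⟩),.k,⟨false,1,⟨0,[(0,0),(4,0),(10,0),
  (19,0)]⟩,⟨0,[(3,0),(24,0),(7,0)]⟩⟩,⟨true,0,⟨0,[(20,0)]⟩,⟨1,[(10,0),(4,0),(5,1),(4,0)]⟩⟩,⟨true,0,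
  ⟨0,[(35,0)]⟩,⟨0,[(36,0)]⟩⟩,⟨false,0,⟨0,[(3,0),(16,0),(7,0)]⟩,⟨0,[(2,0),(8,0)]⟩⟩,⟨false,0,⟨0,[]⟩,
  ⟨3,[(18,0),(0,0),(18,1)]⟩⟩,⟨false,0,⟨0,[(3,0),(16,0),(7,0),(7,0)]⟩,⟨5,[(0,3),(3,3),(5,1),(7,0),(2,
  5),(9,0)]⟩⟩,[.o ⟨false,0,⟨0,[(36,0)]⟩,⟨1,[(31,0),(3,1),(2,0)]⟩⟩,.o ⟨false,1,⟨3,[(18,0),(0,0),(16,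
  3),(1,1)]⟩,⟨0,[(11,0)]⟩⟩,.o ⟨false,1,⟨1,[(21,1),(9,0),(5,0)]⟩,⟨1,[(10,0),(4,0),(4,1),(5,0)]⟩⟩,.a
  ⟨true,0,⟨0,[(21,0)]⟩,⟨0,[(20,0)]⟩⟩ ⟨false,1,⟨7,[(0,1),(3,1),(11,1),(1,2),(18,1),(0,0)]⟩,⟨0,[(3,0),
  (24,0)]⟩⟩ ⟨true,0,⟨0,[(20,0),(15,0)]⟩,⟨0,[(11,0),(9,0)]⟩⟩]⟩) (.I [1,-1,-1,-1,1,0,0,0,-1] (.R ⟨1,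
  false,false,true,[1,0,0,-1],[1,1,-1],[1,1,0,-1,0,0,0,0,-1],(⟨0,[(21,0)]⟩,⟨0,[(22,0)]⟩),(⟨0,[(30,
  0),(3,0)]⟩,⟨0,[(15,0)]⟩),⟨0,[(2,0)]⟩,.k,.k,(.x (-1) ⟨3,[(19,0),(0,0),(11,1),(0,3)]⟩ ⟨0,[(34,0)]⟩),
  (.r (-1) ⟨0,[(0,0),(5,0),(10,0),(19,0)]⟩ ⟨7,[(1,3),(17,0),(0,2),(8,11)]⟩),(.r (-2) ⟨11,[(0,11),(3,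
  3),(3,7),(8,7),(1,2),(0,0),(17,7)]⟩ ⟨0,[(1,0),(27,1)]⟩),.k,⟨true,1,⟨0,[(0,0),(5,0),(10,0)]⟩,⟨0,
  [(1,0),(27,1)]⟩⟩,⟨false,1,⟨7,[(11,3),(7,0),(0,0),(0,7),(16,5)]⟩,⟨0,[(16,0),(5,0)]⟩⟩,⟨true,0,⟨0,
  [(36,0)]⟩,⟨0,[(37,0)]⟩⟩,⟨false,0,⟨7,[(1,3),(7,1),(1,1),(8,0),(0,7),(1,3),(5,7),(9,0)]⟩,⟨0,[(3,0),
  (1,0)]⟩⟩,⟨false,0,⟨0,[]⟩,⟨3,[(19,0),(0,0),(18,1)]⟩⟩,⟨false,0,⟨2,[(1,1),(7,0),(11,2),(1,2),(5,1),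
  (7,1),(1,0)]⟩,⟨0,[(0,0),(4,0),(16,0)]⟩⟩,[.o ⟨false,0,⟨0,[(23,0),(13,0)]⟩,⟨3,[(5,3),(13,0),(0,0),
  (18,1)]⟩⟩,.o ⟨false,1,⟨1,[(26,1),(5,0),(4,1),(1,0)]⟩,⟨0,[(5,0)]⟩⟩,.o ⟨false,1,⟨1,[(22,1),(9,0),(5,
  0)]⟩,⟨1,[(11,0),(4,0),(4,1),(5,0)]⟩⟩,.a ⟨true,0,⟨0,[(22,0)]⟩,⟨0,[(21,0)]⟩⟩ ⟨false,1,⟨3,[(0,1),(18,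
  0),(16,1),(1,0)]⟩,⟨7,[(1,3),(7,1),(10,0),(8,3),(5,1),(3,0)]⟩⟩ ⟨true,0,⟨0,[(21,0),(1,0),(13,0)]⟩,
  ⟨0,[(5,0),(16,0)]⟩⟩]⟩) (.R ⟨1,false,false,true,[1,0,0,-1],[0,1],[1,0,0,-1,0,0,0,0,-1],(⟨0,[(21,
  0)]⟩,⟨0,[(22,0)]⟩),(⟨0,[(34,0)]⟩,⟨0,[(33,0)]⟩),⟨0,[(2,0)]⟩,.k,.k,(.x (-1) ⟨3,[(19,0),(0,0),(11,1),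
  (0,3)]⟩ ⟨0,[(34,0)]⟩),(.x (-1) ⟨3,[(19,0),(0,0),(11,1),(0,3)]⟩ ⟨0,[(34,0)]⟩),(.r (-2) ⟨3,[(3,1),
  (1,1),(8,1),(4,0),(1,1),(14,3),(1,2),(0,1)]⟩ ⟨0,[(1,0),(27,0)]⟩),.k,⟨false,2,⟨1,[(3,1),(1,1),(8,
  1),(6,1),(16,0),(0,0)]⟩,⟨0,[(0,0),(36,0)]⟩⟩,⟨true,0,⟨0,[(21,0)]⟩,⟨1,[(11,0),(4,0),(5,1),(4,0)]⟩⟩,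
  ⟨false,1,⟨0,[(36,0),(2,0)]⟩,⟨0,[(37,0)]⟩⟩,⟨true,(-1),⟨0,[(0,0),(20,0)]⟩,⟨0,[(3,0),(8,0)]⟩⟩,⟨true,
  0,⟨0,[]⟩,⟨0,[(41,0)]⟩⟩,⟨true,(-1),⟨0,[(0,0),(20,0),(15,0)]⟩,⟨0,[(3,0),(1,0),(8,0)]⟩⟩,[.o ⟨false,0,
  ⟨0,[(37,0),(3,0)]⟩,⟨0,[(12,0),(26,0)]⟩⟩,.o ⟨false,0,⟨0,[(37,0)]⟩,⟨1,[(32,0),(3,1),(2,0)]⟩⟩,.o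
  ⟨false,1,⟨1,[(22,1),(9,0),(5,0)]⟩,⟨1,[(11,0),(4,0),(4,1),(5,0)]⟩⟩,.a ⟨true,0,⟨0,[(22,0)]⟩,⟨0,[(21,
  0)]⟩⟩ ⟨true,1,⟨3,[(3,1),(1,1),(8,1),(4,0),(1,1),(16,0)]⟩,⟨0,[(0,0)]⟩⟩ ⟨false,0,⟨0,[(21,0),(15,
  0)]⟩,⟨0,[(12,0),(9,0),(16,0)]⟩⟩]⟩))))) (.Q [0,1,1,0,0,0,0,0,1,0,0,-1] (.p false [0,0,0,1] [] (⟨0,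
  [(18,0)]⟩,⟨0,[(17,0)]⟩) .k 0 (⟨0,[]⟩,⟨0,[]⟩) .k .k) (.Q [0,1,-1,0,0,0,0,0,-1,0,0,1] (.p true [0,0,
  0,1] [] (⟨0,[(19,0)]⟩,⟨0,[(18,0)]⟩) .k 0 (⟨0,[]⟩,⟨0,[]⟩) .k .k) (.K ⟨0,[0,0,0,1],0,0,(⟨0,[(20,
  0)]⟩,⟨0,[(19,0)]⟩),.k,(.r (-1) ⟨0,[(7,0),(26,0)]⟩ ⟨1,[(0,1),(8,0),(9,1),(5,1),(7,0),(1,1)]⟩),(.x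
  0 ⟨0,[(32,0)]⟩ ⟨3,[(17,0),(0,0),(11,1),(0,3)]⟩),.k,.k,[⟨0,[(20,0)]⟩,⟨0,[(19,0)]⟩,⟨0,[(0,0)]⟩,⟨0,
  [(1,0)]⟩]⟩) (.Q [0,0,0,0,0,1,0,0,0,-1,0,1] (.p true [0,0,0,1] [1] (⟨0,[(20,0)]⟩,⟨0,[(19,0)]⟩) .k
  1 (⟨0,[]⟩,⟨0,[]⟩) .k .k) (.R ⟨0,false,false,false,[1,0,0,-1],[0,1],[1,0,0,0,0,0,0,0,-1],(⟨0,[(20,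
  0)]⟩,⟨0,[(21,0)]⟩),(⟨0,[(33,0)]⟩,⟨0,[(32,0)]⟩),⟨0,[(0,0)]⟩,.k,.k,(.x (-1) ⟨3,[(18,0),(0,0),(11,1),
  (0,3)]⟩ ⟨0,[(33,0)]⟩),(.x (-1) ⟨3,[(18,0),(0,0),(11,1),(0,3)]⟩ ⟨0,[(33,0)]⟩),.k,.k,⟨false,1,⟨1,
  [(3,1),(2,1),(3,0),(23,0),(2,1)]⟩,⟨1,[(1,0),(0,0),(18,1),(14,1)]⟩⟩,⟨true,0,⟨0,[(20,0)]⟩,⟨1,[(10,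
  0),(4,0),(5,1),(4,0)]⟩⟩,⟨true,0,⟨0,[]⟩,⟨0,[(40,0)]⟩⟩,⟨false,0,⟨0,[(1,0),(18,0),(0,0),(14,0)]⟩,⟨3,
  [(3,1),(0,1),(5,0),(7,0),(2,3),(9,0),(2,0),(2,1)]⟩⟩,⟨false,0,⟨0,[]⟩,⟨0,[]⟩⟩,⟨false,0,⟨0,[]⟩,⟨0,
  []⟩⟩,[.o ⟨false,0,⟨0,[(36,0)]⟩,⟨1,[(31,0),(3,1),(2,0)]⟩⟩,.o ⟨false,1,⟨3,[(18,0),(0,0),(16,3),(1,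
  1)]⟩,⟨0,[(11,0)]⟩⟩,.o ⟨false,1,⟨1,[(21,1),(9,0),(5,0)]⟩,⟨1,[(10,0),(4,0),(4,1),(5,0)]⟩⟩,.a ⟨true,
  0,⟨0,[(21,0)]⟩,⟨0,[(20,0)]⟩⟩ ⟨false,1,⟨3,[(3,1),(2,1),(3,0),(7,0),(15,2),(1,1),(0,2)]⟩,⟨1,[(1,0),
  (0,0),(18,1)]⟩⟩ ⟨true,0,⟨0,[(20,0),(15,0)]⟩,⟨0,[(11,0),(9,0)]⟩⟩]⟩) (.R ⟨1,false,false,false,[1,0,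
  0,-1],[0,1],[0,0,0,0,0,0,0,0,-1],(⟨0,[(20,0)]⟩,⟨0,[(21,0)]⟩),(⟨0,[(33,0)]⟩,⟨0,[(32,0)]⟩),⟨0,[(0,
  0)]⟩,.k,.k,(.x (-1) ⟨3,[(18,0),(0,0),(11,1),(0,3)]⟩ ⟨0,[(33,0)]⟩),(.x (-1) ⟨3,[(18,0),(0,0),(11,
  1),(0,3)]⟩ ⟨0,[(33,0)]⟩),(.r (-1) ⟨3,[(3,3),(0,1),(1,1),(3,0),(5,1),(17,2),(2,3)]⟩ ⟨1,[(1,0),(0,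
  0),(18,1),(4,0),(0,0),(8,3)]⟩),.k,⟨false,1,⟨1,[(3,1),(2,1),(3,0),(23,0),(2,1)]⟩,⟨1,[(1,0),(0,0),
  (18,1),(14,1)]⟩⟩,⟨true,0,⟨0,[(20,0)]⟩,⟨1,[(10,0),(4,0),(5,1),(4,0)]⟩⟩,⟨false,1,⟨3,[(18,0),(0,0),
  (18,1)]⟩,⟨0,[]⟩⟩,⟨false,0,⟨0,[(1,0),(18,0),(0,0),(14,0)]⟩,⟨3,[(3,1),(0,1),(5,0),(7,0),(2,3),(9,0),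
  (2,0),(2,1)]⟩⟩,⟨true,0,⟨0,[(36,0)]⟩,⟨0,[(35,0)]⟩⟩,⟨false,0,⟨0,[(1,0),(18,0),(0,0),(14,1)]⟩,⟨23,
  [(3,15),(0,21),(4,5),(0,5),(5,3),(1,3),(2,23),(15,6),(0,12)]⟩⟩,[.o ⟨false,0,⟨0,[(36,0)]⟩,⟨1,[(31,
  0),(3,1),(2,0)]⟩⟩,.o ⟨false,1,⟨3,[(18,0),(0,0),(16,3),(1,1)]⟩,⟨0,[(11,0)]⟩⟩,.o ⟨false,1,⟨1,[(21,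
  1),(9,0),(5,0)]⟩,⟨1,[(10,0),(4,0),(4,1),(5,0)]⟩⟩,.a ⟨true,0,⟨0,[(21,0)]⟩,⟨0,[(20,0)]⟩⟩ ⟨false,1,
  ⟨3,[(3,1),(2,1),(3,0),(7,0),(15,2),(1,1),(0,2)]⟩,⟨1,[(1,0),(0,0),(18,1)]⟩⟩ ⟨true,0,⟨0,[(20,0),(15,
  0)]⟩,⟨0,[(11,0),(9,0)]⟩⟩]⟩))) (.Q [0,1,1,0,0,0,0,0,1,1,0,-1] (.p false [0,0,0,1] [1] (⟨0,[(19,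
  0)]⟩,⟨0,[(18,0)]⟩) .k 1 (⟨0,[]⟩,⟨0,[]⟩) .k .k) (.R ⟨0,false,false,true,[1,0,-1],[0,0,0,1],[1,1,0,
  0,0,0,0,0,1],(⟨0,[(28,0)]⟩,⟨0,[(29,0)]⟩),(⟨0,[(20,0)]⟩,⟨0,[(19,0)]⟩),⟨0,[(11,0)]⟩,.k,.k,.k,.k,.k,
  .k,⟨true,0,⟨0,[]⟩,⟨1,[(25,0),(0,0)]⟩⟩,⟨false,0,⟨0,[(14,0),(4,0)]⟩,⟨7,[(9,3),(7,0),(0,0),(1,7),(15,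
  5)]⟩⟩,⟨false,1,⟨7,[(5,7),(3,3),(7,0),(0,4),(17,1)]⟩,⟨0,[(2,0),(30,0),(1,0)]⟩⟩,⟨true,0,⟨0,[(0,0),
  (3,0)]⟩,⟨0,[(1,0),(19,0)]⟩⟩,⟨false,0,⟨0,[]⟩,⟨0,[]⟩⟩,⟨false,0,⟨0,[]⟩,⟨0,[]⟩⟩,[.a ⟨true,0,⟨0,[(0,
  0)]⟩,⟨0,[(1,0)]⟩⟩ ⟨false,1,⟨1,[(18,0),(17,0),(2,1)]⟩,⟨2,[(1,1),(0,0),(1,0),(4,0),(9,1),(5,0),(7,
  0),(1,0)]⟩⟩ ⟨true,0,⟨0,[(0,0),(13,0)]⟩,⟨0,[(1,0),(20,0)]⟩⟩,.o ⟨false,1,⟨1,[(0,1),(29,0),(6,0)]⟩,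
  ⟨1,[(1,1),(6,0),(14,0),(11,0)]⟩⟩,.o ⟨false,1,⟨7,[(9,3),(7,2),(0,2),(17,1)]⟩,⟨0,[(14,0)]⟩⟩,.o
  ⟨false,0,⟨0,[(22,0)]⟩,⟨7,[(16,3),(0,0),(0,0),(11,1),(5,3)]⟩⟩]⟩) (.Q [0,0,0,0,0,1,0,0,0,-1,0,1]
  (.p true [0,0,0,1] [1] (⟨0,[(20,0)]⟩,⟨0,[(19,0)]⟩) .k 1 (⟨0,[]⟩,⟨0,[]⟩) .k .k) (.R ⟨0,false,false,
  true,[1,0,0,-1],[1,0,-1],[0,1,0,0,0,0,0,0,-1],(⟨0,[(20,0)]⟩,⟨0,[(21,0)]⟩),(⟨0,[(29,0)]⟩,⟨0,[(30,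
  0)]⟩),⟨0,[(0,0)]⟩,.k,.k,(.x (-1) ⟨3,[(18,0),(0,0),(11,1),(0,3)]⟩ ⟨0,[(33,0)]⟩),.k,.k,.k,⟨false,0,
  ⟨0,[(1,0),(3,0),(10,0),(3,0),(15,0)]⟩,⟨3,[(18,0),(0,2),(8,3)]⟩⟩,⟨true,0,⟨0,[(20,0),(2,0)]⟩,⟨0,
  [(15,0),(5,0)]⟩⟩,⟨true,0,⟨0,[(40,0)]⟩,⟨0,[]⟩⟩,⟨false,1,⟨9,[(10,3),(8,4),(0,9),(4,7),(0,5),(1,1),
  (2,0),(6,3)]⟩,⟨0,[(2,0),(2,0)]⟩⟩,⟨false,0,⟨0,[]⟩,⟨0,[]⟩⟩,⟨false,0,⟨0,[]⟩,⟨0,[]⟩⟩,[.o ⟨false,0,⟨0,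
  [(22,0)]⟩,⟨3,[(5,3),(12,0),(0,0),(18,1)]⟩⟩,.o ⟨false,1,⟨1,[(25,1),(5,0),(6,0)]⟩,⟨0,[(5,0)]⟩⟩,.o
  ⟨false,1,⟨1,[(21,1),(9,0),(5,0)]⟩,⟨1,[(10,0),(4,0),(4,1),(5,0)]⟩⟩,.a ⟨true,0,⟨0,[(21,0)]⟩,⟨0,[(20,
  0)]⟩⟩ ⟨false,0,⟨3,[(1,2),(1,0),(12,0),(3,2),(3,0),(11,1)]⟩,⟨1,[(19,0),(6,0),(0,0),(10,0)]⟩⟩ ⟨true,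
  0,⟨0,[(20,0),(1,0)]⟩,⟨0,[(5,0),(15,0)]⟩⟩]⟩) (.R ⟨1,false,false,true,[1,0,0,-1],[1,0,-1],[0,1,0,0,
  0,0,0,0,-1],(⟨0,[(20,0)]⟩,⟨0,[(21,0)]⟩),(⟨0,[(29,0)]⟩,⟨0,[(30,0)]⟩),⟨0,[(0,0)]⟩,.k,.k,(.x (-1) ⟨3,
  [(18,0),(0,0),(11,1),(0,3)]⟩ ⟨0,[(33,0)]⟩),.k,(.r 0 ⟨0,[(1,0),(3,0),(10,0),(3,0)]⟩ ⟨1,[(19,0),(5,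
  1),(0,1),(9,1),(1,0)]⟩),.k,⟨false,0,⟨0,[(1,0),(3,0),(10,0),(3,0),(15,0)]⟩,⟨3,[(18,0),(0,2),(8,
  3)]⟩⟩,⟨true,0,⟨0,[(20,0),(2,0)]⟩,⟨0,[(15,0),(5,0)]⟩⟩,⟨true,0,⟨0,[(40,0)]⟩,⟨0,[]⟩⟩,⟨false,1,⟨9,
  [(10,3),(8,4),(0,9),(4,7),(0,5),(1,1),(2,0),(6,3)]⟩,⟨0,[(2,0),(2,0)]⟩⟩,⟨false,0,⟨0,[(36,0)]⟩,⟨0,
  [(35,0),(2,0)]⟩⟩,⟨false,1,⟨9,[(10,3),(8,4),(0,9),(4,7),(0,5),(1,1),(2,0),(4,9),(1,3)]⟩,⟨0,[(2,0),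
  (1,0)]⟩⟩,[.o ⟨false,0,⟨0,[(22,0)]⟩,⟨3,[(5,3),(12,0),(0,0),(18,1)]⟩⟩,.o ⟨false,1,⟨1,[(25,1),(5,0),
  (6,0)]⟩,⟨0,[(5,0)]⟩⟩,.o ⟨false,1,⟨1,[(21,1),(9,0),(5,0)]⟩,⟨1,[(10,0),(4,0),(4,1),(5,0)]⟩⟩,.a
  ⟨true,0,⟨0,[(21,0)]⟩,⟨0,[(20,0)]⟩⟩ ⟨false,0,⟨3,[(1,2),(1,0),(12,0),(3,2),(3,0),(11,1)]⟩,⟨1,[(19,
  0),(6,0),(0,0),(10,0)]⟩⟩ ⟨true,0,⟨0,[(20,0),(1,0)]⟩,⟨0,[(5,0),(15,0)]⟩⟩]⟩))))))) (.Q [0,0,0,-1,0,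
  0,-1,-1,0,-1,1] (.p true [0,0,1] [1] (⟨0,[(24,0)]⟩,⟨0,[(23,0)]⟩) .k 1 (⟨0,[]⟩,⟨0,[]⟩) .k .k) (.Q
  [0,0,0,1,0,0,1,1,0,2,-1] (.p false [-1,1,1] [1] (⟨0,[(7,0)]⟩,⟨0,[(24,0),(2,0)]⟩) .k 1 (⟨0,[]⟩,⟨0,
  []⟩) .k .k) (.R ⟨0,false,false,true,[1,0,-1],[2,-1,-1],[1,1,1],(⟨0,[(25,0)]⟩,⟨0,[(26,0)]⟩),(⟨0,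
  [(25,0),(2,0)]⟩,⟨0,[(8,0)]⟩),⟨0,[(8,0)]⟩,.k,.k,.k,.k,.k,.k,⟨false,0,⟨4,[(0,2),(5,2),(13,1),(1,0),
  (7,0),(1,1)]⟩,⟨1,[(1,1),(11,0),(2,0),(0,0),(15,1)]⟩⟩,⟨true,0,⟨1,[(6,0),(4,0),(10,0)]⟩,⟨0,[(16,0),
  (0,0)]⟩⟩,⟨false,0,⟨3,[(0,1),(2,1),(2,0),(12,1),(10,0)]⟩,⟨1,[(24,1),(8,0),(0,0)]⟩⟩,⟨true,0,⟨0,[(7,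
  0)]⟩,⟨0,[(0,0),(1,0)]⟩⟩,⟨false,0,⟨0,[]⟩,⟨0,[]⟩⟩,⟨false,0,⟨0,[]⟩,⟨0,[]⟩⟩,[.o ⟨false,0,⟨0,[(5,0)]⟩,
  ⟨1,[(0,1),(26,0),(6,0)]⟩⟩,.a ⟨true,0,⟨0,[(1,0)]⟩,⟨0,[(0,0)]⟩⟩ ⟨false,0,⟨0,[]⟩,⟨3,[(14,0),(0,0),
  (17,1)]⟩⟩ ⟨true,0,⟨0,[(1,0),(9,0)]⟩,⟨0,[(0,0),(18,0)]⟩⟩,.o ⟨false,1,⟨7,[(6,3),(7,2),(0,2),(17,
  1)]⟩,⟨0,[(11,0)]⟩⟩,.o ⟨false,0,⟨0,[(19,0)]⟩,⟨7,[(13,3),(0,0),(0,0),(11,1),(5,3)]⟩⟩]⟩) (.Q [0,0,0,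
  0,0,1,0,0,0,-1,0,1] (.p true [0,0,0,1] [1] (⟨0,[(17,0)]⟩,⟨0,[(16,0)]⟩) .k 1 (⟨0,[]⟩,⟨0,[]⟩) .k
  .k) (.Q [0,0,-1,-1,1,0,1,1,-1,0,-1,1] (.p false [0,0,1] [0,0,0,1] (⟨0,[(27,0)]⟩,⟨0,[(26,0)]⟩) .k
  2 (⟨0,[(18,0)]⟩,⟨0,[(17,0)]⟩) .k (.x (-1) ⟨7,[(14,3),(0,0),(0,0),(10,7),(0,1),(5,3)]⟩ ⟨0,[(20,0),
  (5,0)]⟩)) (.I [0,0,1,0,0,0,0,0,1] (.Q [0,1,-1,0,0,0,0,0,-1,0,0,1] (.p true [0,0,0,1] [] (⟨0,[(20,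
  0)]⟩,⟨0,[(19,0)]⟩) .k 0 (⟨0,[]⟩,⟨0,[]⟩) .k .k) (.K ⟨0,[0,0,0,1],0,0,(⟨0,[(21,0)]⟩,⟨0,[(20,0)]⟩),
  .k,(.r (-1) ⟨0,[(8,0),(26,0)]⟩ ⟨1,[(0,1),(9,0),(9,1),(5,1),(7,0),(1,1)]⟩),(.x 0 ⟨0,[(33,0)]⟩ ⟨3,
  [(18,0),(0,0),(11,1),(0,3)]⟩),.k,.k,[⟨0,[(21,0)]⟩,⟨0,[(20,0)]⟩,⟨0,[(0,0)]⟩,⟨1,[(1,1),(7,0),(10,1),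
  (3,0),(11,0)]⟩]⟩) (.I [0,1,-2,-1,1,0,0,0,-1] (.R ⟨0,false,false,false,[1,0,0,-1],[0,1],[0,1,0,0,0,
  0,0,0,-1],(⟨0,[(21,0)]⟩,⟨0,[(22,0)]⟩),(⟨0,[(34,0)]⟩,⟨0,[(33,0)]⟩),⟨0,[(4,0)]⟩,.k,.k,(.x (-1) ⟨3,
  [(19,0),(0,0),(11,1),(0,3)]⟩ ⟨0,[(34,0)]⟩),(.x (-1) ⟨3,[(19,0),(0,0),(11,1),(0,3)]⟩ ⟨0,[(34,0)]⟩),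
  .k,.k,⟨false,1,⟨0,[(0,0)]⟩,⟨0,[(1,0),(20,0),(14,0)]⟩⟩,⟨true,0,⟨0,[(21,0)]⟩,⟨1,[(11,0),(4,0),(5,1),
  (4,0)]⟩⟩,⟨true,0,⟨0,[(41,0)]⟩,⟨0,[]⟩⟩,⟨false,0,⟨0,[(1,0),(19,0),(0,0),(14,0)]⟩,⟨3,[(3,1),(1,1),
  (13,0),(2,1),(15,0)]⟩⟩,⟨false,0,⟨0,[]⟩,⟨0,[]⟩⟩,⟨false,0,⟨0,[]⟩,⟨0,[]⟩⟩,[.o ⟨false,0,⟨0,[(37,0)]⟩,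
  ⟨1,[(32,0),(3,1),(2,0)]⟩⟩,.o ⟨false,1,⟨3,[(19,0),(0,0),(16,3),(1,1)]⟩,⟨0,[(12,0)]⟩⟩,.o ⟨false,1,
  ⟨1,[(22,1),(9,0),(5,0)]⟩,⟨1,[(11,0),(4,0),(4,1),(5,0)]⟩⟩,.a ⟨true,0,⟨0,[(22,0)]⟩,⟨0,[(21,0)]⟩⟩
  ⟨false,1,⟨1,[(19,0),(18,0)]⟩,⟨0,[(1,0),(20,0)]⟩⟩ ⟨true,0,⟨0,[(21,0),(15,0)]⟩,⟨0,[(12,0),(9,
  0)]⟩⟩]⟩) (.Q [0,1,1,0,-1,0,0,0,1,0,0,-1] (.p false [0,0,0,1] [] (⟨0,[(22,0)]⟩,⟨0,[(21,0)]⟩) .k 0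
  (⟨0,[]⟩,⟨0,[]⟩) .k .k) (.K ⟨0,[0,0,0,1],0,(-1),(⟨0,[(23,0)]⟩,⟨0,[(22,0)]⟩),.k,(.x 0 ⟨0,[(25,0),(2,
  0),(5,0)]⟩ ⟨0,[(35,0),(3,0)]⟩),(.x 0 ⟨0,[(35,0)]⟩ ⟨3,[(20,0),(0,0),(11,1),(0,3)]⟩),.k,.k,[⟨0,[(23,
  0)]⟩,⟨0,[(22,0)]⟩,⟨1,[(20,0),(2,1),(15,0),(2,1)]⟩,⟨0,[(0,0)]⟩]⟩) (.I [1,0,-2,-2,1,0,0,-1,-1] (.R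
  ⟨0,false,false,true,[1,0,0,-1],[-1,1,1],[1,1,0,-1,0,0,0,0,-1],(⟨0,[(23,0)]⟩,⟨0,[(24,0)]⟩),(⟨0,
  [(15,0)]⟩,⟨0,[(32,0),(2,0)]⟩),⟨0,[(6,0)]⟩,.k,.k,(.x (-1) ⟨3,[(21,0),(0,0),(11,1),(0,3)]⟩ ⟨0,[(36,
  0)]⟩),(.r (-1) ⟨7,[(0,3),(20,2),(0,0),(8,3)]⟩ ⟨0,[(2,0),(24,0),(2,0),(9,0)]⟩),.k,.k,⟨false,1,⟨0,
  [(0,0)]⟩,⟨0,[(2,0),(24,0),(2,0),(8,0),(0,0)]⟩⟩,⟨true,0,⟨1,[(20,0),(2,2),(0,0)]⟩,⟨0,[(13,0),(4,0),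
  (5,0)]⟩⟩,⟨true,0,⟨0,[(38,0)]⟩,⟨0,[(39,0)]⟩⟩,⟨false,0,⟨2,[(1,0),(0,1),(19,0),(0,5),(0,1),(2,2),(11,
  0)]⟩,⟨0,[(1,0),(5,0)]⟩⟩,⟨false,0,⟨0,[]⟩,⟨0,[]⟩⟩,⟨false,0,⟨0,[]⟩,⟨0,[]⟩⟩,[.o ⟨false,0,⟨0,[(23,0),
  (0,0),(2,0),(11,0)]⟩,⟨1,[(8,1),(25,0),(6,0)]⟩⟩,.o ⟨false,1,⟨11,[(1,7),(0,3),(18,2),(0,4),(0,11),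
  (0,3),(2,11),(11,7)]⟩,⟨0,[(7,0)]⟩⟩,.o ⟨false,1,⟨1,[(24,1),(9,0),(5,0)]⟩,⟨2,[(2,0),(0,0),(8,0),(8,
  0),(1,1),(3,0)]⟩⟩,.a ⟨true,0,⟨0,[(24,0)]⟩,⟨0,[(23,0)]⟩⟩ ⟨false,1,⟨31,[(0,9),(4,9),(5,1),(1,3),(5,
  1),(1,6),(1,9),(10,0),(5,1)]⟩,⟨3,[(2,1),(19,0),(16,1),(1,0)]⟩⟩ ⟨true,0,⟨0,[(23,1),(0,0),(2,0),(11,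
  0)]⟩,⟨0,[(7,0),(16,0)]⟩⟩]⟩) (.Q [0,1,1,1,-1,0,0,0,1,1,0,-1] (.p false [0,0,0,1] [1] (⟨0,[(24,0)]⟩,
  ⟨0,[(23,0)]⟩) .k 1 (⟨0,[]⟩,⟨0,[]⟩) .k .k) (.R ⟨0,false,false,true,[1,0,0,-1],[0,1],[1,0,1],(⟨0,
  [(24,0)]⟩,⟨0,[(25,0)]⟩),(⟨0,[(37,0)]⟩,⟨0,[(36,0)]⟩),⟨0,[(7,0)]⟩,.k,.k,(.x (-1) ⟨3,[(22,0),(0,0),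
  (11,1),(0,3)]⟩ ⟨0,[(37,0)]⟩),(.x (-1) ⟨3,[(22,0),(0,0),(11,1),(0,3)]⟩ ⟨0,[(37,0)]⟩),.k,.k,⟨false,
  1,⟨5,[(6,0),(2,1),(1,0),(0,0),(7,1),(0,0),(2,0),(13,3),(2,3)]⟩,⟨0,[(40,0),(3,0)]⟩⟩,⟨true,0,⟨0,
  [(24,0)]⟩,⟨21,[(1,3),(4,1),(1,5),(5,3),(7,0),(2,19),(4,11),(4,0)]⟩⟩,⟨false,0,⟨4,[(3,1),(8,0),(10,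
  0),(14,1),(0,1)]⟩,⟨1,[(22,0),(18,0)]⟩⟩,⟨true,(-1),⟨0,[(0,0)]⟩,⟨1,[(2,0),(3,0),(6,0)]⟩⟩,⟨false,0,
  ⟨0,[]⟩,⟨0,[]⟩⟩,⟨false,0,⟨0,[]⟩,⟨0,[]⟩⟩,[.o ⟨false,0,⟨0,[(40,0),(3,0)]⟩,⟨3,[(4,1),(1,1),(2,1),(25,
  0),(6,0)]⟩⟩,.o ⟨false,0,⟨0,[(40,0)]⟩,⟨1,[(35,0),(3,1),(2,0)]⟩⟩,.o ⟨false,1,⟨1,[(25,1),(9,0),(5,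
  0)]⟩,⟨13,[(0,3),(0,0),(1,0),(0,5),(3,3),(2,2),(7,0),(2,5),(1,3)]⟩⟩,.a ⟨true,0,⟨0,[(25,0)]⟩,⟨0,
  [(24,0)]⟩⟩ ⟨true,0,⟨0,[]⟩,⟨0,[(44,0)]⟩⟩ ⟨false,0,⟨0,[(24,0),(15,0)]⟩,⟨3,[(6,1),(2,1),(13,0),(1,1),
  (9,0),(2,1)]⟩⟩]⟩) (.R ⟨0,false,false,false,[1,0,0,-1],[1,0,-1],[0,1,0,0,0,0,0,0,-1],(⟨0,[(24,0)]⟩,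
  ⟨0,[(25,0)]⟩),(⟨0,[(33,0)]⟩,⟨0,[(34,0)]⟩),⟨0,[(7,0)]⟩,.k,.k,(.x (-1) ⟨3,[(22,0),(0,0),(11,1),(0,
  3)]⟩ ⟨0,[(37,0)]⟩),.k,.k,.k,⟨false,1,⟨0,[(0,0),(19,0),(3,0),(3,0),(11,1)]⟩,⟨1,[(3,1),(5,1),(11,0),
  (2,0),(0,0),(15,1)]⟩⟩,⟨true,0,⟨0,[(24,0),(2,0)]⟩,⟨0,[(19,0),(5,0)]⟩⟩,⟨true,0,⟨0,[(44,0)]⟩,⟨0,[]⟩⟩,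
  ⟨false,0,⟨3,[(3,0),(0,1),(4,0),(0,0),(1,0),(11,1),(4,1),(8,0)]⟩,⟨0,[(2,0),(25,0)]⟩⟩,⟨false,0,⟨0,
  []⟩,⟨0,[]⟩⟩,⟨false,0,⟨0,[]⟩,⟨0,[]⟩⟩,[.o ⟨false,0,⟨0,[(10,0)]⟩,⟨3,[(22,0),(0,0),(4,3),(13,1)]⟩⟩,.o
  ⟨false,1,⟨3,[(10,1),(18,1),(5,0),(6,2)]⟩,⟨0,[(28,0)]⟩⟩,.o ⟨false,1,⟨1,[(25,1),(9,0),(5,0)]⟩,⟨3,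
  [(1,0),(2,0),(3,0),(6,0),(6,0),(1,2),(5,0)]⟩⟩,.a ⟨true,0,⟨0,[(25,0)]⟩,⟨0,[(24,0)]⟩⟩ ⟨false,1,⟨1,
  [(22,0),(18,0)]⟩,⟨4,[(3,1),(8,0),(10,0),(14,1),(0,1)]⟩⟩ ⟨true,0,⟨0,[(10,0),(13,0)]⟩,⟨0,[(25,0),(2,
  0)]⟩⟩]⟩)))))) (.Q [0,0,-1,-1,0,0,1,1,-1,0,-1,1] (.p false [0,0,1] [0,0,0,1] (⟨0,[(29,0)]⟩,⟨0,[(28,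
  0)]⟩) .k 2 (⟨0,[(20,0)]⟩,⟨0,[(19,0)]⟩) .k (.r 0 ⟨1,[(0,1),(8,0),(9,1),(0,1),(2,1),(9,0)]⟩ ⟨3,[(17,
  0),(0,2),(8,3)]⟩)) (.I [1,-1,-1,0,0,0,0,0,-1] (.R ⟨0,false,false,false,[1,0,0,-1],[1,0,-1],[0,1,0,
  0,0,0,0,0,-1],(⟨0,[(21,0)]⟩,⟨0,[(22,0)]⟩),(⟨0,[(30,0)]⟩,⟨0,[(31,0)]⟩),⟨0,[(4,0)]⟩,.k,.k,(.x (-1)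
  ⟨3,[(19,0),(0,0),(11,1),(0,3)]⟩ ⟨0,[(34,0)]⟩),.k,.k,.k,⟨false,0,⟨0,[(0,0),(16,0),(7,0),(11,0)]⟩,
  ⟨1,[(20,0),(8,1),(9,0)]⟩⟩,⟨true,0,⟨0,[(21,0),(2,0)]⟩,⟨0,[(16,0),(5,0)]⟩⟩,⟨true,0,⟨0,[(41,0)]⟩,⟨0,
  []⟩⟩,⟨false,1,⟨5,[(11,2),(8,2),(0,5),(4,1),(0,1),(1,3),(5,0),(3,2)]⟩,⟨0,[(1,0),(35,0)]⟩⟩,⟨false,0,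
  ⟨0,[]⟩,⟨0,[]⟩⟩,⟨false,0,⟨0,[]⟩,⟨0,[]⟩⟩,[.o ⟨false,0,⟨0,[(7,0)]⟩,⟨3,[(19,0),(0,0),(4,3),(13,1)]⟩⟩,
  .o ⟨false,1,⟨3,[(7,1),(18,1),(5,0),(6,2)]⟩,⟨0,[(25,0)]⟩⟩,.o ⟨false,1,⟨1,[(22,1),(9,0),(5,0)]⟩,⟨1,
  [(11,0),(4,0),(4,1),(5,0)]⟩⟩,.a ⟨true,0,⟨0,[(22,0)]⟩,⟨0,[(21,0)]⟩⟩ ⟨false,0,⟨0,[(0,0),(4,0),(2,0),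
  (6,1),(14,1),(3,1),(2,1)]⟩,⟨1,[(20,0),(6,0),(0,0),(10,0)]⟩⟩ ⟨true,0,⟨0,[(7,0),(13,0)]⟩,⟨0,[(22,0),
  (2,0)]⟩⟩]⟩) (.R ⟨0,false,false,true,[1,0,0,-1],[0,1],[1,0,1],(⟨0,[(21,0)]⟩,⟨0,[(22,0)]⟩),(⟨0,[(34,
  0)]⟩,⟨0,[(33,0)]⟩),⟨0,[(4,0)]⟩,.k,.k,(.x (-1) ⟨3,[(19,0),(0,0),(11,1),(0,3)]⟩ ⟨0,[(34,0)]⟩),(.x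
  (-1) ⟨3,[(19,0),(0,0),(11,1),(0,3)]⟩ ⟨0,[(34,0)]⟩),.k,.k,⟨false,1,⟨3,[(1,0),(1,0),(2,1),(2,1),(11,
  1),(17,0)]⟩,⟨0,[(37,0),(3,0)]⟩⟩,⟨true,0,⟨0,[(21,0)]⟩,⟨1,[(11,0),(4,0),(5,1),(4,0)]⟩⟩,⟨false,1,⟨0,
  [(0,0),(38,0)]⟩,⟨0,[(1,0),(3,0),(9,0),(5,0),(8,0),(3,0),(2,1)]⟩⟩,⟨true,0,⟨0,[(0,0),(20,0),(15,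
  0)]⟩,⟨0,[(1,0),(5,0)]⟩⟩,⟨false,0,⟨0,[]⟩,⟨0,[]⟩⟩,⟨false,0,⟨0,[]⟩,⟨0,[]⟩⟩,[.o ⟨false,0,⟨0,[(37,0),
  (3,0)]⟩,⟨0,[(12,0),(26,0)]⟩⟩,.o ⟨false,0,⟨0,[(37,0)]⟩,⟨1,[(32,0),(3,1),(2,0)]⟩⟩,.o ⟨false,1,⟨1,
  [(22,1),(9,0),(5,0)]⟩,⟨1,[(11,0),(4,0),(4,1),(5,0)]⟩⟩,.a ⟨true,0,⟨0,[(22,0)]⟩,⟨0,[(21,0)]⟩⟩ ⟨true,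
  0,⟨0,[]⟩,⟨0,[(41,0)]⟩⟩ ⟨false,0,⟨0,[(21,0),(15,0)]⟩,⟨3,[(3,1),(2,1),(13,0),(1,1),(9,0),(2,
  1)]⟩⟩]⟩)) (.K ⟨0,[0,0,0,1],0,0,(⟨0,[(21,0)]⟩,⟨0,[(20,0)]⟩),.k,(.r (-1) ⟨0,[(8,0),(26,0)]⟩ ⟨0,[(1,
  0),(24,0),(0,0),(8,0)]⟩),(.x 0 ⟨0,[(33,0)]⟩ ⟨3,[(18,0),(0,0),(11,1),(0,3)]⟩),.k,.k,[⟨0,[(21,0)]⟩,
  ⟨0,[(20,0)]⟩,⟨0,[(1,0),(19,0),(18,0)]⟩,⟨0,[(0,0),(6,0)]⟩]⟩))) (.K ⟨0,[0,0,0,1],0,(-1),(⟨0,[(19,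
  0)]⟩,⟨0,[(18,0)]⟩),.k,(.x 0 ⟨0,[(21,0),(2,0),(5,0)]⟩ ⟨0,[(31,0),(3,0)]⟩),(.x 0 ⟨0,[(31,0)]⟩ ⟨3,
  [(16,0),(0,0),(11,1),(0,3)]⟩),.k,.k,[⟨0,[(19,0)]⟩,⟨0,[(18,0)]⟩,⟨1,[(16,0),(2,1),(15,0),(2,1)]⟩,⟨0,
  [(0,0),(4,0)]⟩]⟩)) (.Q [0,0,1,1,-1,0,0,0,1,1,0,-1] (.p false [0,0,0,1] [1] (⟨0,[(18,0)]⟩,⟨0,[(17,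
  0)]⟩) .k 1 (⟨0,[]⟩,⟨0,[]⟩) .k .k) (.K ⟨0,[0,0,0,1],0,(-1),(⟨0,[(19,0)]⟩,⟨0,[(18,0)]⟩),.k,(.x 0 ⟨0,
  [(21,0),(2,0),(5,0)]⟩ ⟨0,[(31,0),(3,0)]⟩),(.x 0 ⟨0,[(31,0)]⟩ ⟨3,[(16,0),(0,0),(11,1),(0,3)]⟩),.k,
  .k,[⟨0,[(19,0)]⟩,⟨0,[(18,0)]⟩,⟨1,[(16,0),(2,1),(15,0),(2,1)]⟩,⟨0,[(0,0),(8,0)]⟩]⟩) (.I [1,1,1,0,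
  -1,0,0,0,1] (.Q [0,1,1,0,-1,0,0,0,1,0,0,-1] (.p false [0,0,0,1] [] (⟨0,[(20,0)]⟩,⟨0,[(19,0)]⟩) .k
  0 (⟨0,[]⟩,⟨0,[]⟩) .k .k) (.K ⟨0,[0,0,0,1],0,(-1),(⟨0,[(21,0)]⟩,⟨0,[(20,0)]⟩),.k,(.x 0 ⟨0,[(23,0),
  (2,0),(5,0)]⟩ ⟨0,[(33,0),(3,0)]⟩),(.x 0 ⟨0,[(33,0)]⟩ ⟨3,[(18,0),(0,0),(11,1),(0,3)]⟩),.k,.k,[⟨0,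
  [(21,0)]⟩,⟨0,[(20,0)]⟩,⟨1,[(18,0),(2,1),(15,0),(2,1)]⟩,⟨0,[(0,0)]⟩]⟩) (.R ⟨0,false,false,false,[1,
  0,-1],[1,0,0,-1],[1,1,1],(⟨0,[(29,0)]⟩,⟨0,[(30,0)]⟩),(⟨0,[(20,0)]⟩,⟨0,[(21,0)]⟩),⟨0,[(12,0)]⟩,.k,
  .k,.k,.k,.k,.k,⟨true,(-1),⟨0,[(1,0)]⟩,⟨1,[(18,0),(19,0)]⟩⟩,⟨false,1,⟨0,[(15,0),(5,0),(15,0)]⟩,⟨0,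
  [(20,0),(2,0)]⟩⟩,⟨false,0,⟨1,[(10,0),(9,1),(0,1),(2,1),(9,0)]⟩,⟨1,[(28,1),(8,0),(0,0)]⟩⟩,⟨true,1,
  ⟨0,[(0,0),(23,0)]⟩,⟨0,[(1,0),(4,0),(13,0)]⟩⟩,⟨false,0,⟨0,[]⟩,⟨0,[]⟩⟩,⟨false,0,⟨0,[]⟩,⟨0,[]⟩⟩,[.o
  ⟨false,1,⟨0,[(2,0),(33,0)]⟩,⟨5,[(1,3),(17,0),(0,5),(10,2),(2,1)]⟩⟩,.a ⟨true,1,⟨0,[(0,0)]⟩,⟨0,[(1,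
  0),(18,0)]⟩⟩ ⟨false,0,⟨0,[]⟩,⟨3,[(18,0),(0,0),(17,1)]⟩⟩ ⟨true,1,⟨0,[(0,0),(14,0)]⟩,⟨0,[(1,0),(18,
  0),(2,0)]⟩⟩,.o ⟨false,1,⟨7,[(10,3),(7,2),(0,2),(17,1)]⟩,⟨0,[(15,0)]⟩⟩,.o ⟨false,0,⟨0,[(23,0)]⟩,⟨7,
  [(17,3),(0,0),(0,0),(11,1),(5,3)]⟩⟩]⟩)) (.Q [0,1,-1,0,0,0,0,0,-1,0,0,1] (.p true [0,0,0,1] [] (⟨0,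
  [(20,0)]⟩,⟨0,[(19,0)]⟩) .k 0 (⟨0,[]⟩,⟨0,[]⟩) .k .k) (.Q [0,1,1,0,0,0,0,0,1,0,0,-1] (.p false [0,0,
  0,1] [] (⟨0,[(21,0)]⟩,⟨0,[(20,0)]⟩) .k 0 (⟨0,[]⟩,⟨0,[]⟩) .k .k) (.K ⟨0,[0,0,0,1],0,0,(⟨0,[(22,
  0)]⟩,⟨0,[(21,0)]⟩),.k,(.r (-1) ⟨0,[(9,0),(26,0)]⟩ ⟨1,[(1,1),(9,0),(9,1),(5,1),(7,0),(1,1)]⟩),(.x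
  0 ⟨0,[(34,0)]⟩ ⟨3,[(19,0),(0,0),(11,1),(0,3)]⟩),.k,.k,[⟨0,[(22,0)]⟩,⟨0,[(21,0)]⟩,⟨0,[(1,0)]⟩,⟨0,
  [(0,0)]⟩]⟩) (.Q [0,1,1,0,0,0,0,0,1,1,0,-1] (.p false [0,0,0,1] [1] (⟨0,[(22,0)]⟩,⟨0,[(21,0)]⟩) .k
  1 (⟨0,[]⟩,⟨0,[]⟩) .k .k) (.R ⟨0,false,false,false,[1,0,-1],[1,0,0,-1],[0,0,1,0,0,0,0,0,-1],(⟨0,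
  [(31,0)]⟩,⟨0,[(32,0)]⟩),(⟨0,[(22,0)]⟩,⟨0,[(23,0)]⟩),⟨0,[(14,0)]⟩,.k,.k,.k,.k,.k,.k,⟨true,0,⟨1,
  [(28,0),(0,0)]⟩,⟨0,[]⟩⟩,⟨false,1,⟨0,[(2,0),(7,0),(6,0)]⟩,⟨0,[(22,0),(2,0)]⟩⟩,⟨false,0,⟨1,[(2,1),
  (9,0),(9,1),(3,1),(9,2)]⟩,⟨1,[(21,0),(8,1),(8,0)]⟩⟩,⟨true,0,⟨0,[(1,0),(24,0)]⟩,⟨0,[(0,0),(7,0)]⟩⟩,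
  ⟨false,0,⟨0,[]⟩,⟨0,[]⟩⟩,⟨false,0,⟨0,[]⟩,⟨0,[]⟩⟩,[.o ⟨false,0,⟨3,[(1,2),(0,0),(3,1),(19,1),(11,
  1)]⟩,⟨1,[(0,1),(32,0),(6,0)]⟩⟩,.a ⟨true,0,⟨0,[(1,0)]⟩,⟨0,[(0,0)]⟩⟩ ⟨false,0,⟨1,[(1,1),(10,0),(4,
  0),(4,1),(5,0)]⟩,⟨1,[(21,0),(17,0),(2,1)]⟩⟩ ⟨true,0,⟨0,[(1,0),(15,0)]⟩,⟨0,[(0,0),(24,0)]⟩⟩,.o
  ⟨false,1,⟨7,[(12,3),(7,2),(0,2),(17,1)]⟩,⟨0,[(17,0)]⟩⟩,.o ⟨false,0,⟨0,[(25,0)]⟩,⟨7,[(19,3),(0,0),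
  (0,0),(11,1),(5,3)]⟩⟩]⟩) (.I [0,0,-1,-1,0,0,0,1,-1] (.R ⟨1,false,false,false,[1,0,0,-1],[1,0,-1],
  [0,0,0,0,0,0,0,0,-1],(⟨0,[(23,0)]⟩,⟨0,[(24,0)]⟩),(⟨0,[(32,0)]⟩,⟨0,[(33,0)]⟩),⟨0,[(6,0)]⟩,.k,.k,
  (.x (-1) ⟨3,[(21,0),(0,0),(11,1),(0,3)]⟩ ⟨0,[(36,0)]⟩),.k,(.r 0 ⟨0,[(0,0)]⟩ ⟨1,[(22,0),(5,1),(0,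
  1),(9,1),(1,0)]⟩),.k,⟨false,0,⟨0,[(0,0),(38,0)]⟩,⟨3,[(21,0),(0,2),(8,3)]⟩⟩,⟨true,0,⟨0,[(23,0),(2,
  0)]⟩,⟨0,[(18,0),(5,0)]⟩⟩,⟨false,1,⟨3,[(21,0),(0,0),(18,1)]⟩,⟨0,[]⟩⟩,⟨false,1,⟨5,[(13,2),(8,2),(0,
  5),(4,1),(0,1),(1,3),(5,0),(3,2)]⟩,⟨0,[(2,0),(24,0)]⟩⟩,⟨true,0,⟨0,[(39,0)]⟩,⟨0,[(38,0)]⟩⟩,⟨false,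
  1,⟨5,[(13,2),(8,2),(0,5),(4,1),(0,1),(1,3),(5,0),(1,5),(1,2)]⟩,⟨0,[(2,0),(7,0)]⟩⟩,[.o ⟨false,0,⟨0,
  [(9,0)]⟩,⟨3,[(21,0),(0,0),(4,3),(13,1)]⟩⟩,.o ⟨false,1,⟨3,[(9,1),(18,1),(5,0),(6,2)]⟩,⟨0,[(27,
  0)]⟩⟩,.o ⟨false,1,⟨1,[(3,0),(7,0),(12,0),(9,0)]⟩,⟨1,[(13,0),(4,0),(4,1),(5,0)]⟩⟩,.a ⟨true,0,⟨0,
  [(24,0)]⟩,⟨0,[(23,0)]⟩⟩ ⟨false,0,⟨0,[(1,0),(21,0)]⟩,⟨3,[(21,0),(0,2),(6,1),(0,1)]⟩⟩ ⟨true,0,⟨0,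
  [(9,0),(13,0)]⟩,⟨0,[(24,0),(2,0)]⟩⟩]⟩) (.R ⟨1,false,false,false,[1,0,0,-1],[1,0,-1],[0,1,0,0,0,0,
  0,0,-1],(⟨0,[(23,0)]⟩,⟨0,[(24,0)]⟩),(⟨0,[(32,0)]⟩,⟨0,[(33,0)]⟩),⟨0,[(6,0)]⟩,.k,.k,(.x (-1) ⟨3,
  [(21,0),(0,0),(11,1),(0,3)]⟩ ⟨0,[(36,0)]⟩),.k,(.x 0 ⟨0,[(17,0),(0,0)]⟩ ⟨7,[(13,3),(7,2),(0,2),(9,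
  7),(3,7),(3,1)]⟩),.k,⟨false,0,⟨0,[(1,0),(17,0),(3,0),(3,0),(11,0)]⟩,⟨1,[(22,0),(8,1),(9,0)]⟩⟩,
  ⟨true,0,⟨0,[(23,0),(2,0)]⟩,⟨0,[(18,0),(5,0)]⟩⟩,⟨true,0,⟨0,[(43,0)]⟩,⟨0,[]⟩⟩,⟨false,1,⟨7,[(0,3),(7,
  3),(12,0),(0,2),(0,7),(2,3),(14,3)]⟩,⟨0,[(2,0),(24,0)]⟩⟩,⟨false,0,⟨0,[(39,0)]⟩,⟨0,[(38,0),(2,
  0)]⟩⟩,⟨false,1,⟨3,[(0,3),(10,1),(1,1),(7,0),(1,3),(17,0)]⟩,⟨0,[(2,0),(7,0)]⟩⟩,[.o ⟨false,0,⟨0,[(9,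
  0)]⟩,⟨3,[(21,0),(0,0),(4,3),(13,1)]⟩⟩,.o ⟨false,1,⟨3,[(9,1),(18,1),(5,0),(6,2)]⟩,⟨0,[(27,0)]⟩⟩,.o
  ⟨false,1,⟨1,[(3,0),(7,0),(12,0),(9,0)]⟩,⟨1,[(13,0),(4,0),(4,1),(5,0)]⟩⟩,.a ⟨true,0,⟨0,[(24,0)]⟩,
  ⟨0,[(23,0)]⟩⟩ ⟨false,0,⟨5,[(1,3),(1,1),(8,0),(10,5),(3,0),(11,0)]⟩,⟨1,[(22,0),(6,0),(0,0),(10,
  0)]⟩⟩ ⟨true,0,⟨0,[(9,0),(13,0)]⟩,⟨0,[(24,0),(2,0)]⟩⟩]⟩)))) (.I [0,0,-2,-2,1,0,0,0,-1] (.R ⟨1,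
  false,false,false,[1,0,0,-1],[0,1],[0,0,0,0,0,0,0,0,-1],(⟨0,[(21,0)]⟩,⟨0,[(22,0)]⟩),(⟨0,[(34,0)]⟩,
  ⟨0,[(33,0)]⟩),⟨0,[(4,0)]⟩,.k,.k,(.x (-1) ⟨3,[(19,0),(0,0),(11,1),(0,3)]⟩ ⟨0,[(34,0)]⟩),(.x (-1)
  ⟨3,[(19,0),(0,0),(11,1),(0,3)]⟩ ⟨0,[(34,0)]⟩),(.r (-1) ⟨0,[(0,0)]⟩ ⟨1,[(1,1),(20,1),(4,0),(0,0),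
  (8,3),(3,1)]⟩),.k,⟨false,1,⟨0,[(0,0),(36,0)]⟩,⟨0,[(1,0),(20,0),(14,0),(3,0)]⟩⟩,⟨true,0,⟨0,[(21,
  0)]⟩,⟨1,[(11,0),(4,0),(5,1),(4,0)]⟩⟩,⟨false,1,⟨3,[(19,0),(0,0),(18,1)]⟩,⟨0,[]⟩⟩,⟨false,0,⟨0,[(1,
  0),(19,0),(0,0),(14,0)]⟩,⟨0,[(3,0)]⟩⟩,⟨true,0,⟨0,[(37,0)]⟩,⟨0,[(36,0)]⟩⟩,⟨false,0,⟨0,[(1,0),(19,
  0),(0,0),(14,1)]⟩,⟨3,[(0,0),(2,2),(2,0),(1,0),(13,0),(12,0),(0,0)]⟩⟩,[.o ⟨false,0,⟨0,[(37,0)]⟩,⟨1,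
  [(32,0),(3,1),(2,0)]⟩⟩,.o ⟨false,1,⟨3,[(19,0),(0,0),(16,3),(1,1)]⟩,⟨0,[(12,0)]⟩⟩,.o ⟨false,1,⟨1,
  [(22,1),(9,0),(5,0)]⟩,⟨1,[(11,0),(4,0),(4,1),(5,0)]⟩⟩,.a ⟨true,0,⟨0,[(22,0)]⟩,⟨0,[(21,0)]⟩⟩
  ⟨false,1,⟨0,[(2,0)]⟩,⟨0,[(1,0),(20,0),(18,0)]⟩⟩ ⟨true,0,⟨0,[(21,0),(15,0)]⟩,⟨0,[(12,0),(9,
  0)]⟩⟩]⟩) (.I [0,-1,0,0,0,0,0,-1,1] (.R ⟨1,false,false,false,[1,0,0,-1],[1,0,-1],[0,1,0,0,0,0,0,0,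
  -1],(⟨0,[(22,0)]⟩,⟨0,[(23,0)]⟩),(⟨0,[(31,0)]⟩,⟨0,[(32,0)]⟩),⟨0,[(5,0)]⟩,.k,.k,(.x (-1) ⟨3,[(20,0),
  (0,0),(11,1),(0,3)]⟩ ⟨0,[(35,0)]⟩),.k,(.x 0 ⟨0,[(16,0),(0,0)]⟩ ⟨7,[(12,3),(7,2),(0,2),(9,7),(3,7),
  (3,1)]⟩),.k,⟨false,1,⟨0,[(3,0),(14,0),(7,0),(11,0)]⟩,⟨0,[(0,0)]⟩⟩,⟨true,0,⟨0,[(22,0),(2,0)]⟩,⟨0,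
  [(17,0),(5,0)]⟩⟩,⟨true,0,⟨0,[(42,0)]⟩,⟨0,[]⟩⟩,⟨false,0,⟨3,[(0,1),(1,1),(9,0),(9,1),(4,1),(8,0)]⟩,
  ⟨0,[(3,0),(19,0),(2,0)]⟩⟩,⟨false,0,⟨0,[(38,0)]⟩,⟨0,[(37,0),(2,0)]⟩⟩,⟨false,0,⟨9,[(0,1),(0,4),(0,
  0),(5,6),(1,1),(1,0),(9,8),(4,0),(12,2)]⟩,⟨0,[(3,0),(5,0),(13,0)]⟩⟩,[.o ⟨false,0,⟨0,[(8,0)]⟩,⟨3,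
  [(20,0),(0,0),(4,3),(13,1)]⟩⟩,.o ⟨false,1,⟨3,[(8,1),(18,1),(5,0),(6,2)]⟩,⟨0,[(26,0)]⟩⟩,.o ⟨false,
  1,⟨1,[(23,1),(9,0),(5,0)]⟩,⟨15,[(1,1),(0,1),(3,3),(5,2),(7,1),(1,13),(3,3),(1,5),(7,0)]⟩⟩,.a
  ⟨true,0,⟨0,[(23,0)]⟩,⟨0,[(22,0)]⟩⟩ ⟨false,1,⟨1,[(20,0),(18,0)]⟩,⟨0,[(2,0),(20,0)]⟩⟩ ⟨true,0,⟨0,
  [(8,0),(13,0)]⟩,⟨0,[(23,0),(2,0)]⟩⟩]⟩) (.R ⟨1,false,false,false,[1,0,0,-1],[0,1],[0,1,0,0,0,0,0,0,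
  -1],(⟨0,[(22,0)]⟩,⟨0,[(23,0)]⟩),(⟨0,[(35,0)]⟩,⟨0,[(34,0)]⟩),⟨0,[(5,0)]⟩,.k,.k,(.x (-1) ⟨3,[(20,0),
  (0,0),(11,1),(0,3)]⟩ ⟨0,[(35,0)]⟩),(.x (-1) ⟨3,[(20,0),(0,0),(11,1),(0,3)]⟩ ⟨0,[(35,0)]⟩),(.x 0
  ⟨0,[(12,0),(4,1),(16,1)]⟩ ⟨3,[(20,0),(0,0),(13,7),(3,1)]⟩),.k,⟨false,1,⟨1,[(0,1),(6,1),(11,0),(2,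
  0),(0,0),(15,1)]⟩,⟨7,[(1,3),(8,1),(10,0),(14,1),(3,0)]⟩⟩,⟨true,0,⟨0,[(22,0)]⟩,⟨13,[(1,3),(2,3),(1,
  1),(2,1),(2,2),(10,9),(4,5),(7,0)]⟩⟩,⟨true,0,⟨0,[(42,0)]⟩,⟨0,[]⟩⟩,⟨false,0,⟨7,[(1,3),(8,1),(10,0),
  (0,7),(13,1),(3,0)]⟩,⟨0,[(4,0)]⟩⟩,⟨false,0,⟨0,[(38,0)]⟩,⟨0,[(37,0),(2,0)]⟩⟩,⟨false,0,⟨2,[(1,1),(8,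
  0),(11,2),(15,1),(1,0)]⟩,⟨0,[(3,0),(3,0),(1,0),(13,0)]⟩⟩,[.o ⟨false,0,⟨0,[(38,0)]⟩,⟨1,[(33,0),(3,
  1),(2,0)]⟩⟩,.o ⟨false,1,⟨5,[(1,1),(8,3),(9,2),(17,1),(1,0)]⟩,⟨0,[(13,0)]⟩⟩,.o ⟨false,1,⟨1,[(23,1),
  (9,0),(5,0)]⟩,⟨6,[(0,1),(0,0),(0,2),(3,0),(4,0),(8,0),(1,3),(5,1)]⟩⟩,.a ⟨true,0,⟨0,[(23,0)]⟩,⟨0,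
  [(22,0)]⟩⟩ ⟨false,1,⟨1,[(20,0),(18,0)]⟩,⟨0,[(2,0),(20,0)]⟩⟩ ⟨true,0,⟨0,[(22,0),(15,0)]⟩,⟨0,[(13,
  0),(9,0)]⟩⟩]⟩)))))))) (.I [0,1,0,1,0,0,0,1] (.R ⟨2,true,false,false,[0,1],[1,0,-1],[0,1,1,1],(⟨0,
  []⟩,⟨0,[]⟩),(⟨0,[(25,0)]⟩,⟨0,[(26,0)]⟩),⟨0,[]⟩,.k,.k,.k,.k,.k,.k,⟨false,0,⟨0,[(0,0)]⟩,⟨0,[(24,0),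
  (5,0),(0,0),(1,0)]⟩⟩,⟨true,0,⟨0,[(19,0)]⟩,⟨1,[(13,0),(2,0),(0,0)]⟩⟩,⟨true,0,⟨0,[(36,0)]⟩,⟨0,[]⟩⟩,
  ⟨false,1,⟨0,[(9,0),(24,0)]⟩,⟨0,[(1,0)]⟩⟩,⟨false,0,⟨0,[(32,0)]⟩,⟨0,[(31,0),(2,0)]⟩⟩,⟨true,0,⟨0,[(2,
  0)]⟩,⟨0,[(1,0),(29,0)]⟩⟩,[]⟩) (.I [0,1,-1,0,0,0,0,-1] (.R ⟨2,true,false,true,[0,1],[1,0,-1],[1,0,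
  1],(⟨0,[]⟩,⟨0,[]⟩),(⟨0,[(26,0)]⟩,⟨0,[(27,0)]⟩),⟨0,[]⟩,.k,.k,.k,.k,.k,.k,⟨false,1,⟨5,[(2,3),(1,1),
  (2,1),(5,1),(20,0),(0,4)]⟩,⟨0,[(0,0)]⟩⟩,⟨true,0,⟨0,[(20,0)]⟩,⟨1,[(14,0),(2,0),(0,0)]⟩⟩,⟨false,1,
  ⟨0,[(32,0),(2,0)]⟩,⟨0,[(33,0)]⟩⟩,⟨true,0,⟨0,[(10,0)]⟩,⟨0,[(2,0)]⟩⟩,⟨true,0,⟨0,[]⟩,⟨0,[(37,0)]⟩⟩,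
  ⟨false,0,⟨0,[(3,0)]⟩,⟨15,[(2,11),(1,3),(8,7),(0,3),(0,0),(0,0),(18,13)]⟩⟩,[]⟩) (.Q [0,0,0,0,0,1,0,
  0,0,-1,0,1] (.p true [0,0,0,1] [1] (⟨0,[(18,0)]⟩,⟨0,[(17,0)]⟩) .k 1 (⟨0,[]⟩,⟨0,[]⟩) .k .k) (.I [0,
  0,1,1,0,0,0,0,1] (.Q [0,1,-1,0,0,0,0,0,-1,0,0,1] (.p true [0,0,0,1] [] (⟨0,[(20,0)]⟩,⟨0,[(19,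
  0)]⟩) .k 0 (⟨0,[]⟩,⟨0,[]⟩) .k .k) (.K ⟨0,[0,0,0,1],0,0,(⟨0,[(21,0)]⟩,⟨0,[(20,0)]⟩),.k,(.r (-1) ⟨0,
  [(8,0),(26,0)]⟩ ⟨1,[(0,1),(9,0),(9,1),(5,1),(7,0),(1,1)]⟩),(.r 0 ⟨0,[(1,0)]⟩ ⟨37,[(0,3),(2,5),(0,
  17),(2,11),(2,1),(5,7),(1,16),(1,3),(16,20)]⟩),.k,.k,[⟨0,[(21,0)]⟩,⟨0,[(20,0)]⟩,⟨0,[(0,0)]⟩,⟨0,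
  [(1,0),(9,0),(8,0)]⟩]⟩) (.I [0,1,-2,-1,1,0,0,0,-1] (.R ⟨0,false,false,false,[1,0,0,-1],[0,1],[0,1,
  0,0,0,0,0,0,-1],(⟨0,[(21,0)]⟩,⟨0,[(22,0)]⟩),(⟨0,[(34,0)]⟩,⟨0,[(33,0)]⟩),⟨0,[(3,0)]⟩,.k,.k,(.r
  (-1) ⟨8,[(0,4),(3,0),(0,1),(2,0),(8,0),(1,1),(19,1)]⟩ ⟨0,[(2,0)]⟩),(.r (-1) ⟨8,[(0,4),(3,0),(0,1),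
  (2,0),(8,0),(1,1),(19,1)]⟩ ⟨0,[(2,0)]⟩),.k,.k,⟨false,1,⟨0,[(0,0)]⟩,⟨0,[(1,0),(20,0),(14,0)]⟩⟩,
  ⟨true,0,⟨0,[(21,0)]⟩,⟨1,[(11,0),(4,0),(5,1),(4,0)]⟩⟩,⟨true,0,⟨0,[(41,0)]⟩,⟨0,[]⟩⟩,⟨false,0,⟨0,[(1,
  0),(19,0),(0,0),(14,0)]⟩,⟨1,[(0,1),(10,0),(4,1),(5,1),(12,0)]⟩⟩,⟨false,0,⟨0,[]⟩,⟨0,[]⟩⟩,⟨false,0,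
  ⟨0,[]⟩,⟨0,[]⟩⟩,[.o ⟨false,0,⟨0,[(37,0)]⟩,⟨1,[(32,0),(3,1),(2,0)]⟩⟩,.o ⟨false,1,⟨2,[(2,0),(6,0),(9,
  0),(17,1),(1,0)]⟩,⟨0,[(12,0)]⟩⟩,.o ⟨false,1,⟨1,[(22,1),(9,0),(5,0)]⟩,⟨1,[(11,0),(4,0),(4,1),(5,
  0)]⟩⟩,.a ⟨true,0,⟨0,[(22,0)]⟩,⟨0,[(21,0)]⟩⟩ ⟨false,1,⟨1,[(19,0),(18,0)]⟩,⟨0,[(1,0),(20,0)]⟩⟩
  ⟨true,0,⟨0,[(21,0),(15,0)]⟩,⟨0,[(12,0),(9,0)]⟩⟩]⟩) (.I [0,1,-1,-1,1,0,0,1,-1] (.Q [0,0,-1,0,1,0,1,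
  1,-1,0,-1,1] (.p false [0,0,1] [0,0,0,1] (⟨0,[(32,0)]⟩,⟨0,[(31,0)]⟩) .k 2 (⟨0,[(23,0)]⟩,⟨0,[(22,
  0)]⟩) .k (.r (-1) ⟨9,[(0,3),(4,1),(1,3),(4,1),(7,3),(0,0),(18,0)]⟩ ⟨4,[(1,4),(4,0),(8,1),(3,1),(7,
  1),(9,1),(1,4)]⟩)) (.R ⟨0,false,false,false,[1,0,0,-1],[1,0,-1],[0,1,0,-1,0,0,0,0,-1],(⟨0,[(23,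
  0)]⟩,⟨0,[(24,0)]⟩),(⟨0,[(32,0)]⟩,⟨0,[(33,0)]⟩),⟨0,[(5,0)]⟩,.k,.k,(.r (-1) ⟨3,[(1,1),(5,1),(13,0),
  (18,0)]⟩ ⟨0,[(4,0)]⟩),.k,.k,.k,⟨false,1,⟨0,[(1,0)]⟩,⟨0,[(2,0),(28,0),(8,0)]⟩⟩,⟨true,0,⟨0,[(23,0),
  (2,0)]⟩,⟨0,[(18,0),(5,0)]⟩⟩,⟨true,0,⟨0,[(38,0)]⟩,⟨0,[(39,0)]⟩⟩,⟨false,0,⟨7,[(2,1),(0,3),(3,1),(1,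
  1),(1,1),(1,0),(9,3),(4,3),(8,0)]⟩,⟨0,[(0,0)]⟩⟩,⟨false,0,⟨0,[]⟩,⟨0,[]⟩⟩,⟨false,0,⟨0,[]⟩,⟨0,[]⟩⟩,
  [.o ⟨false,0,⟨0,[(9,0)]⟩,⟨11,[(1,3),(6,5),(1,1),(11,1),(6,3),(4,2),(6,2)]⟩⟩,.o ⟨false,1,⟨3,[(9,1),
  (18,1),(5,0),(6,2)]⟩,⟨0,[(27,0)]⟩⟩,.o ⟨false,1,⟨1,[(24,1),(9,0),(5,0)]⟩,⟨2,[(2,0),(0,0),(8,0),(8,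
  0),(1,1),(3,0)]⟩⟩,.a ⟨true,0,⟨0,[(24,0)]⟩,⟨0,[(23,0)]⟩⟩ ⟨false,1,⟨3,[(1,1),(5,1),(13,0),(18,0)]⟩,
  ⟨4,[(2,1),(1,1),(6,0),(27,0),(1,0)]⟩⟩ ⟨true,0,⟨0,[(9,0),(13,0)]⟩,⟨0,[(24,0),(2,0)]⟩⟩]⟩) (.K ⟨0,[0,
  0,0,1],0,(-1),(⟨0,[(24,0)]⟩,⟨0,[(23,0)]⟩),.k,(.x 0 ⟨0,[(26,0),(2,0),(5,0)]⟩ ⟨0,[(36,0),(3,0)]⟩),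
  (.r 0 ⟨0,[(4,0)]⟩ ⟨3,[(1,1),(5,1),(13,0),(18,0)]⟩),.k,.k,[⟨0,[(24,0)]⟩,⟨0,[(23,0)]⟩,⟨1,[(21,0),(2,
  1),(15,0),(2,1)]⟩,⟨0,[(0,0),(26,0)]⟩]⟩)) (.Q [0,0,1,1,-1,0,0,0,1,1,0,-1] (.p false [0,0,0,1] [1]
  (⟨0,[(23,0)]⟩,⟨0,[(22,0)]⟩) .k 1 (⟨0,[]⟩,⟨0,[]⟩) .k .k) (.R ⟨0,false,false,false,[1,0,0,-1],[0,1],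
  [1,0,2,1],(⟨0,[(23,0)]⟩,⟨0,[(24,0)]⟩),(⟨0,[(36,0)]⟩,⟨0,[(35,0)]⟩),⟨0,[(5,0)]⟩,.k,.k,(.x (-1) ⟨3,
  [(21,0),(0,0),(11,1),(0,3)]⟩ ⟨0,[(36,0)]⟩),(.x (-1) ⟨3,[(21,0),(0,0),(11,1),(0,3)]⟩ ⟨0,[(36,0)]⟩),
  .k,.k,⟨false,0,⟨0,[]⟩,⟨3,[(21,0),(0,0),(17,1)]⟩⟩,⟨true,0,⟨0,[(23,0)]⟩,⟨1,[(13,0),(4,0),(5,1),(4,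
  0)]⟩⟩,⟨false,(-1),⟨0,[(2,0)]⟩,⟨1,[(21,0),(16,1),(1,1),(0,0)]⟩⟩,⟨true,(-1),⟨0,[(0,0)]⟩,⟨1,[(14,1),
  (6,0),(2,1),(15,0)]⟩⟩,⟨false,0,⟨0,[]⟩,⟨0,[]⟩⟩,⟨false,0,⟨0,[]⟩,⟨0,[]⟩⟩,[.o ⟨false,0,⟨0,[(39,0)]⟩,
  ⟨1,[(34,0),(3,1),(2,0)]⟩⟩,.o ⟨false,1,⟨2,[(4,0),(6,0),(9,0),(17,1),(1,0)]⟩,⟨0,[(14,0)]⟩⟩,.o
  ⟨false,1,⟨1,[(24,1),(9,0),(5,0)]⟩,⟨1,[(0,0),(2,0),(10,0),(6,0)]⟩⟩,.a ⟨true,0,⟨0,[(24,0)]⟩,⟨0,[(23,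
  0)]⟩⟩ ⟨false,0,⟨3,[(2,1),(18,0),(17,1),(1,0)]⟩,⟨1,[(38,1),(1,0),(0,0)]⟩⟩ ⟨true,0,⟨0,[(23,0),(15,
  0)]⟩,⟨0,[(14,0),(9,0)]⟩⟩]⟩) (.R ⟨0,false,false,true,[1,0,0,-1],[0,1],[1,0,1],(⟨0,[(23,0)]⟩,⟨0,
  [(24,0)]⟩),(⟨0,[(36,0)]⟩,⟨0,[(35,0)]⟩),⟨0,[(5,0)]⟩,.k,.k,(.r (-1) ⟨0,[(0,0),(22,0)]⟩ ⟨0,[(4,0)]⟩),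
  (.r (-1) ⟨0,[(0,0),(22,0)]⟩ ⟨0,[(4,0)]⟩),.k,.k,⟨false,1,⟨7,[(6,1),(0,3),(2,1),(8,1),(20,4),(0,
  2)]⟩,⟨0,[(39,0),(3,0)]⟩⟩,⟨true,0,⟨0,[(23,0)]⟩,⟨11,[(0,1),(1,3),(9,1),(0,1),(7,0),(2,9),(2,1),(1,
  3),(4,0)]⟩⟩,⟨false,0,⟨2,[(2,0),(3,0),(0,0),(14,0)]⟩,⟨1,[(21,0),(18,0)]⟩⟩,⟨true,(-1),⟨0,[(1,0),(17,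
  0),(3,0),(3,0),(11,0)]⟩,⟨0,[(0,0)]⟩⟩,⟨false,0,⟨0,[]⟩,⟨0,[]⟩⟩,⟨false,0,⟨0,[]⟩,⟨0,[]⟩⟩,[.o ⟨false,0,
  ⟨0,[(39,0),(3,0)]⟩,⟨0,[(14,0),(26,0)]⟩⟩,.o ⟨false,0,⟨0,[(39,0)]⟩,⟨1,[(34,0),(3,1),(2,0)]⟩⟩,.o
  ⟨false,1,⟨1,[(24,1),(9,0),(5,0)]⟩,⟨2,[(2,0),(0,0),(8,0),(8,0),(1,1),(3,0)]⟩⟩,.a ⟨true,0,⟨0,[(24,
  0)]⟩,⟨0,[(23,0)]⟩⟩ ⟨true,0,⟨0,[]⟩,⟨0,[(43,0)]⟩⟩ ⟨false,0,⟨0,[(23,0),(15,0)]⟩,⟨2,[(0,1),(13,0),(7,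
  0),(1,0),(12,1)]⟩⟩]⟩))))) (.Q [0,0,-1,-1,0,0,0,0,-1,-1,0,1] (.p true [0,0,0,1] [1] (⟨0,[(20,0)]⟩,
  ⟨0,[(19,0)]⟩) .k 1 (⟨0,[]⟩,⟨0,[]⟩) .k .k) (.Q [0,-1,-1,0,0,0,0,0,-1,0,0,1] (.p true [0,0,0,1] []
  (⟨0,[(21,0)]⟩,⟨0,[(20,0)]⟩) .k 0 (⟨0,[]⟩,⟨0,[]⟩) .k .k) (.I [0,1,1,0,0,0,0,0,1] (.R ⟨0,false,
  false,true,[1,0,0,-1],[0,1],[1,0,1],(⟨0,[(22,0)]⟩,⟨0,[(23,0)]⟩),(⟨0,[(35,0)]⟩,⟨0,[(34,0)]⟩),⟨0,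
  [(4,0)]⟩,.k,.k,(.x (-1) ⟨3,[(20,0),(0,0),(11,1),(0,3)]⟩ ⟨0,[(35,0)]⟩),(.x (-1) ⟨3,[(20,0),(0,0),
  (11,1),(0,3)]⟩ ⟨0,[(35,0)]⟩),.k,.k,⟨false,1,⟨1,[(3,0),(6,0),(26,0),(2,0)]⟩,⟨0,[(38,0),(3,0)]⟩⟩,
  ⟨true,0,⟨0,[(22,0)]⟩,⟨1,[(12,0),(4,0),(5,1),(4,0)]⟩⟩,⟨false,1,⟨0,[(0,0),(39,0)]⟩,⟨0,[(3,0),(34,
  0)]⟩⟩,⟨true,0,⟨0,[(0,0),(21,0),(15,0)]⟩,⟨0,[(2,0)]⟩⟩,⟨false,0,⟨0,[]⟩,⟨0,[]⟩⟩,⟨false,0,⟨0,[]⟩,⟨0,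
  []⟩⟩,[.o ⟨false,0,⟨0,[(38,0),(3,0)]⟩,⟨0,[(13,0),(26,0)]⟩⟩,.o ⟨false,0,⟨0,[(38,0)]⟩,⟨1,[(33,0),(3,
  1),(2,0)]⟩⟩,.o ⟨false,1,⟨1,[(23,1),(9,0),(5,0)]⟩,⟨1,[(12,0),(4,0),(4,1),(5,0)]⟩⟩,.a ⟨true,0,⟨0,
  [(23,0)]⟩,⟨0,[(22,0)]⟩⟩ ⟨true,0,⟨0,[]⟩,⟨0,[(42,0)]⟩⟩ ⟨false,0,⟨0,[(22,0),(15,0)]⟩,⟨0,[(0,0),(1,0),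
  (37,0)]⟩⟩]⟩) (.R ⟨0,false,false,false,[1,0,0,-1],[1,0,-1],[1,1,0,-1,0,0,0,0,-1],(⟨0,[(22,0)]⟩,⟨0,
  [(23,0)]⟩),(⟨0,[(31,0)]⟩,⟨0,[(32,0)]⟩),⟨0,[(4,0)]⟩,.k,.k,(.x (-1) ⟨3,[(20,0),(0,0),(11,1),(0,3)]⟩
  ⟨0,[(35,0)]⟩),.k,.k,.k,⟨false,0,⟨0,[(0,0),(17,0),(7,0)]⟩,⟨1,[(21,0),(8,1),(7,1),(1,0)]⟩⟩,⟨true,0,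
  ⟨0,[(22,0),(2,0)]⟩,⟨0,[(17,0),(5,0)]⟩⟩,⟨true,0,⟨0,[(37,0)]⟩,⟨0,[(38,0)]⟩⟩,⟨false,1,⟨5,[(12,2),(8,
  2),(0,5),(4,1),(0,1),(1,3),(5,0),(3,2)]⟩,⟨0,[(2,0),(4,0)]⟩⟩,⟨false,0,⟨0,[]⟩,⟨0,[]⟩⟩,⟨false,0,⟨0,
  []⟩,⟨0,[]⟩⟩,[.o ⟨false,0,⟨0,[(8,0)]⟩,⟨3,[(7,1),(1,1),(10,0),(0,0),(11,0),(6,0)]⟩⟩,.o ⟨false,1,⟨3,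
  [(8,1),(18,1),(5,0),(6,2)]⟩,⟨0,[(26,0)]⟩⟩,.o ⟨false,1,⟨1,[(23,1),(9,0),(5,0)]⟩,⟨1,[(12,0),(4,0),
  (4,1),(5,0)]⟩⟩,.a ⟨true,0,⟨0,[(23,0)]⟩,⟨0,[(22,0)]⟩⟩ ⟨false,0,⟨0,[(3,0)]⟩,⟨1,[(21,0),(6,0),(0,0),
  (8,1),(1,0)]⟩⟩ ⟨true,0,⟨0,[(8,0),(13,0)]⟩,⟨0,[(23,0),(2,0)]⟩⟩]⟩)) (.K ⟨0,[0,0,0,1],0,0,(⟨0,[(22,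
  0)]⟩,⟨0,[(21,0)]⟩),.k,(.r (-1) ⟨0,[(9,0),(26,0)]⟩ ⟨0,[(2,0),(24,0),(0,0),(8,1)]⟩),(.x 0 ⟨0,[(34,
  0)]⟩ ⟨3,[(19,0),(0,0),(11,1),(0,3)]⟩),.k,.k,[⟨0,[(22,0)]⟩,⟨0,[(21,0)]⟩,⟨0,[(1,0),(4,0),(19,0)]⟩,
  ⟨0,[(0,0)]⟩]⟩)) (.K ⟨0,[0,0,0,1],0,0,(⟨0,[(21,0)]⟩,⟨0,[(20,0)]⟩),.k,(.r (-1) ⟨0,[(8,0),(26,0)]⟩
  ⟨0,[(1,0),(24,0),(0,0),(8,1)]⟩),(.x 0 ⟨0,[(33,0)]⟩ ⟨3,[(18,0),(0,0),(11,1),(0,3)]⟩),.k,.k,[⟨0,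
  [(21,0)]⟩,⟨0,[(20,0)]⟩,⟨0,[(1,0),(19,0),(14,0),(3,0)]⟩,⟨0,[(0,0),(10,0)]⟩]⟩))) (.Q [0,0,-1,-2,1,0,
  0,0,-1,-1,0,1] (.p true [0,0,0,1] [1] (⟨0,[(19,0)]⟩,⟨0,[(18,0)]⟩) .k 1 (⟨0,[]⟩,⟨0,[]⟩) .k .k) (.I
  [0,0,1,1,0,0,0,-1,1] (.Q [0,1,-1,0,0,0,0,0,-1,0,0,1] (.p true [0,0,0,1] [] (⟨0,[(21,0)]⟩,⟨0,[(20,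
  0)]⟩) .k 0 (⟨0,[]⟩,⟨0,[]⟩) .k .k) (.Q [0,1,1,0,0,0,0,0,1,0,0,-1] (.p false [0,0,0,1] [] (⟨0,[(22,
  0)]⟩,⟨0,[(21,0)]⟩) .k 0 (⟨0,[]⟩,⟨0,[]⟩) .k .k) (.K ⟨0,[0,0,0,1],0,0,(⟨0,[(23,0)]⟩,⟨0,[(22,0)]⟩),
  .k,(.r (-1) ⟨0,[(10,0),(26,0)]⟩ ⟨1,[(1,1),(10,0),(9,1),(5,1),(7,0),(1,1)]⟩),(.x 0 ⟨0,[(35,0)]⟩ ⟨3,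
  [(20,0),(0,0),(11,1),(0,3)]⟩),.k,.k,[⟨0,[(23,0)]⟩,⟨0,[(22,0)]⟩,⟨0,[(1,0)]⟩,⟨0,[(0,0)]⟩]⟩) (.Q [0,
  1,1,0,0,0,0,0,1,1,0,-1] (.p false [0,0,0,1] [1] (⟨0,[(23,0)]⟩,⟨0,[(22,0)]⟩) .k 1 (⟨0,[]⟩,⟨0,[]⟩)
  .k .k) (.R ⟨0,false,false,false,[1,0,-1],[1,0,0,-1],[0,0,1,0,0,0,0,0,-1],(⟨0,[(32,0)]⟩,⟨0,[(33,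
  0)]⟩),(⟨0,[(23,0)]⟩,⟨0,[(24,0)]⟩),⟨0,[(15,0)]⟩,.k,.k,.k,.k,.k,.k,⟨true,0,⟨1,[(29,0),(0,0)]⟩,⟨0,
  []⟩⟩,⟨false,1,⟨0,[(2,0),(8,0),(6,0)]⟩,⟨0,[(23,0),(2,0)]⟩⟩,⟨false,0,⟨3,[(1,2),(0,0),(3,2),(6,1),(9,
  3),(3,0),(1,2)]⟩,⟨1,[(22,0),(8,1),(8,0)]⟩⟩,⟨true,0,⟨0,[(1,0),(25,0)]⟩,⟨0,[(0,0),(8,0)]⟩⟩,⟨false,0,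
  ⟨0,[]⟩,⟨0,[]⟩⟩,⟨false,0,⟨0,[]⟩,⟨0,[]⟩⟩,[.o ⟨false,0,⟨1,[(1,1),(10,0),(14,0),(11,0)]⟩,⟨1,[(0,1),
  (33,0),(6,0)]⟩⟩,.a ⟨true,0,⟨0,[(1,0)]⟩,⟨0,[(0,0)]⟩⟩ ⟨false,0,⟨1,[(1,1),(11,0),(4,0),(4,1),(5,0)]⟩,
  ⟨1,[(22,0),(17,0),(2,1)]⟩⟩ ⟨true,0,⟨0,[(1,0),(16,0)]⟩,⟨0,[(0,0),(25,0)]⟩⟩,.o ⟨false,1,⟨7,[(13,3),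
  (7,2),(0,2),(17,1)]⟩,⟨0,[(18,0)]⟩⟩,.o ⟨false,0,⟨0,[(26,0)]⟩,⟨7,[(20,3),(0,0),(0,0),(11,1),(5,
  3)]⟩⟩]⟩) (.R ⟨1,false,false,false,[1,0,0,-1],[1,0,-1],[0,1,0,0,0,0,0,0,-1],(⟨0,[(23,0)]⟩,⟨0,[(24,
  0)]⟩),(⟨0,[(32,0)]⟩,⟨0,[(33,0)]⟩),⟨0,[(5,0)]⟩,.k,.k,(.x (-1) ⟨3,[(21,0),(0,0),(11,1),(0,3)]⟩ ⟨0,
  [(36,0)]⟩),.k,(.r (-1) ⟨51,[(1,15),(2,5),(1,23),(3,27),(2,7),(5,11),(1,14),(1,21),(16,30)]⟩ ⟨0,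
  [(3,0)]⟩),.k,⟨false,0,⟨0,[(0,0),(18,0),(3,0),(3,0),(11,0)]⟩,⟨1,[(22,0),(8,1),(9,0)]⟩⟩,⟨true,0,⟨0,
  [(23,0),(2,0)]⟩,⟨0,[(18,0),(5,0)]⟩⟩,⟨true,0,⟨0,[(43,0)]⟩,⟨0,[]⟩⟩,⟨false,1,⟨3,[(3,1),(12,1),(5,0),
  (0,3),(2,1),(14,2)]⟩,⟨0,[(1,0),(25,0)]⟩⟩,⟨false,0,⟨0,[(39,0)]⟩,⟨0,[(38,0),(2,0)]⟩⟩,⟨false,1,⟨3,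
  [(3,3),(7,1),(1,1),(7,0),(1,3),(17,0)]⟩,⟨0,[(1,0),(8,0)]⟩⟩,[.o ⟨false,0,⟨0,[(9,0)]⟩,⟨3,[(8,1),(1,
  1),(10,0),(0,0),(11,0),(6,0)]⟩⟩,.o ⟨false,1,⟨3,[(9,1),(18,1),(5,0),(6,2)]⟩,⟨0,[(27,0)]⟩⟩,.o
  ⟨false,1,⟨1,[(2,0),(8,0),(12,0),(9,0)]⟩,⟨1,[(13,0),(4,0),(4,1),(5,0)]⟩⟩,.a ⟨true,0,⟨0,[(24,0)]⟩,
  ⟨0,[(23,0)]⟩⟩ ⟨false,0,⟨5,[(0,3),(1,1),(9,0),(10,5),(3,0),(11,0)]⟩,⟨1,[(22,0),(6,0),(0,0),(10,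
  0)]⟩⟩ ⟨true,0,⟨0,[(9,0),(13,0)]⟩,⟨0,[(24,0),(2,0)]⟩⟩]⟩))) (.I [0,0,-2,-2,1,0,0,0,-1] (.R ⟨1,false,
  false,false,[1,0,0,-1],[0,1],[0,0,0,0,0,0,0,0,-1],(⟨0,[(22,0)]⟩,⟨0,[(23,0)]⟩),(⟨0,[(35,0)]⟩,⟨0,
  [(34,0)]⟩),⟨0,[(4,0)]⟩,.k,.k,(.x (-1) ⟨3,[(20,0),(0,0),(11,1),(0,3)]⟩ ⟨0,[(35,0)]⟩),(.x (-1) ⟨3,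
  [(20,0),(0,0),(11,1),(0,3)]⟩ ⟨0,[(35,0)]⟩),(.r (-1) ⟨0,[(0,0)]⟩ ⟨0,[(2,0),(4,0),(17,0)]⟩),.k,
  ⟨false,1,⟨0,[(0,0),(37,0)]⟩,⟨2,[(1,1),(0,0),(15,0),(4,1),(2,0),(11,2)]⟩⟩,⟨true,0,⟨0,[(22,0)]⟩,⟨1,
  [(12,0),(4,0),(5,1),(4,0)]⟩⟩,⟨false,1,⟨3,[(20,0),(0,0),(18,1)]⟩,⟨0,[]⟩⟩,⟨false,0,⟨0,[(1,0),(20,0),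
  (0,0),(14,0)]⟩,⟨0,[(3,0),(34,0)]⟩⟩,⟨true,0,⟨0,[(38,0)]⟩,⟨0,[(37,0)]⟩⟩,⟨false,0,⟨0,[(1,0),(20,0),
  (0,0),(14,1)]⟩,⟨0,[(3,0)]⟩⟩,[.o ⟨false,0,⟨0,[(38,0)]⟩,⟨5,[(1,1),(1,1),(16,0),(0,0),(11,1),(3,
  1)]⟩⟩,.o ⟨false,1,⟨3,[(20,0),(0,0),(16,3),(1,1)]⟩,⟨0,[(13,0)]⟩⟩,.o ⟨false,1,⟨1,[(23,1),(9,0),(5,
  0)]⟩,⟨1,[(12,0),(4,0),(4,1),(5,0)]⟩⟩,.a ⟨true,0,⟨0,[(23,0)]⟩,⟨0,[(22,0)]⟩⟩ ⟨false,1,⟨3,[(0,1),(19,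
  0),(15,1),(1,3),(0,0)]⟩,⟨2,[(1,1),(0,0),(15,0),(4,1),(2,0)]⟩⟩ ⟨true,0,⟨0,[(22,0),(15,0)]⟩,⟨0,[(13,
  0),(9,0)]⟩⟩]⟩) (.Q [0,-1,-1,0,1,0,0,0,-1,0,0,1] (.p true [0,0,0,1] [] (⟨0,[(23,0)]⟩,⟨0,[(22,0)]⟩)
  .k 0 (⟨0,[]⟩,⟨0,[]⟩) .k .k) (.I [1,1,-1,-1,1,0,0,1,-1] (.R ⟨1,false,false,false,[1,0,0,-1],[1,0,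
  -1],[1,1,0,-1,0,0,0,0,-1],(⟨0,[(24,0)]⟩,⟨0,[(25,0)]⟩),(⟨0,[(33,0)]⟩,⟨0,[(34,0)]⟩),⟨0,[(6,0)]⟩,.k,
  .k,(.x (-1) ⟨3,[(22,0),(0,0),(11,1),(0,3)]⟩ ⟨0,[(37,0)]⟩),.k,(.x 0 ⟨0,[(18,0),(0,0)]⟩ ⟨7,[(14,3),
  (7,2),(0,2),(9,7),(3,7),(3,1)]⟩),.k,⟨false,1,⟨0,[(0,0)]⟩,⟨0,[(2,0),(5,0),(32,0)]⟩⟩,⟨true,0,⟨0,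
  [(24,0),(2,0)]⟩,⟨0,[(19,0),(5,0)]⟩⟩,⟨true,0,⟨0,[(39,0)]⟩,⟨0,[(40,0)]⟩⟩,⟨false,0,⟨2,[(2,0),(0,0),
  (4,1),(3,0),(1,0),(9,1),(4,0)]⟩,⟨0,[(1,0),(26,0)]⟩⟩,⟨false,0,⟨0,[]⟩,⟨3,[(22,0),(0,0),(18,1)]⟩⟩,
  ⟨false,0,⟨5,[(2,2),(0,0),(6,4),(1,1),(11,4),(4,0),(8,0),(3,0)]⟩,⟨0,[(5,0),(3,0)]⟩⟩,[.o ⟨false,0,
  ⟨0,[(10,0)]⟩,⟨11,[(0,3),(8,5),(1,1),(11,1),(6,3),(4,2),(6,2)]⟩⟩,.o ⟨false,1,⟨3,[(10,1),(18,1),(5,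
  0),(6,2)]⟩,⟨0,[(28,0)]⟩⟩,.o ⟨false,1,⟨1,[(25,1),(9,0),(5,0)]⟩,⟨1,[(14,0),(4,0),(4,1),(5,0)]⟩⟩,.a
  ⟨true,0,⟨0,[(25,0)]⟩,⟨0,[(24,0)]⟩⟩ ⟨false,1,⟨3,[(5,1),(16,0),(1,1),(16,0)]⟩,⟨7,[(2,3),(9,1),(10,
  0),(14,1),(3,0)]⟩⟩ ⟨true,0,⟨0,[(10,0),(13,0)]⟩,⟨0,[(25,0),(2,0)]⟩⟩]⟩) (.R ⟨0,false,false,false,[1,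
  0,-1],[1,0,0,-1],[1,1,1],(⟨0,[(33,0)]⟩,⟨0,[(34,0)]⟩),(⟨0,[(24,0)]⟩,⟨0,[(25,0)]⟩),⟨0,[(16,0)]⟩,.k,
  .k,.k,.k,.k,.k,⟨true,(-1),⟨0,[(0,0),(19,0),(7,0)]⟩,⟨1,[(22,0),(19,0)]⟩⟩,⟨false,1,⟨0,[(19,0),(5,0),
  (15,0)]⟩,⟨0,[(24,0),(2,0)]⟩⟩,⟨false,0,⟨1,[(7,0),(20,0),(2,0)]⟩,⟨1,[(32,1),(8,0),(0,0)]⟩⟩,⟨true,1,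
  ⟨0,[(1,0),(26,0)]⟩,⟨1,[(0,1),(12,0),(6,1),(3,1),(3,0),(11,0)]⟩⟩,⟨false,0,⟨0,[]⟩,⟨0,[]⟩⟩,⟨false,0,
  ⟨0,[]⟩,⟨0,[]⟩⟩,[.o ⟨false,1,⟨1,[(1,1),(11,0),(14,0),(11,0)]⟩,⟨7,[(2,1),(0,3),(11,1),(7,0),(0,3),
  (10,0),(3,1)]⟩⟩,.a ⟨true,1,⟨0,[(1,0)]⟩,⟨0,[(0,0),(19,0),(3,0),(3,0)]⟩⟩ ⟨false,0,⟨0,[]⟩,⟨3,[(22,0),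
  (0,0),(17,1)]⟩⟩ ⟨true,1,⟨0,[(1,0),(17,0)]⟩,⟨1,[(0,0),(1,0),(8,0),(2,0),(5,0),(3,1),(14,0)]⟩⟩,.o
  ⟨false,1,⟨7,[(14,3),(7,2),(0,2),(17,1)]⟩,⟨0,[(19,0)]⟩⟩,.o ⟨false,0,⟨0,[(27,0)]⟩,⟨7,[(21,3),(0,0),
  (0,0),(11,1),(5,3)]⟩⟩]⟩)) (.K ⟨0,[0,0,0,1],0,(-1),(⟨0,[(24,0)]⟩,⟨0,[(23,0)]⟩),.k,(.x 0 ⟨0,[(26,0),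
  (2,0),(5,0)]⟩ ⟨0,[(36,0),(3,0)]⟩),(.x 0 ⟨0,[(36,0)]⟩ ⟨3,[(21,0),(0,0),(11,1),(0,3)]⟩),.k,.k,[⟨0,
  [(24,0)]⟩,⟨0,[(23,0)]⟩,⟨1,[(21,0),(2,1),(15,0),(2,1)]⟩,⟨0,[(0,0)]⟩]⟩)))) (.R ⟨1,false,false,false,
  [1,0,0,-1],[1,0,-1],[1,0,0,-1,0,0,0,0,-1],(⟨0,[(20,0)]⟩,⟨0,[(21,0)]⟩),(⟨0,[(29,0)]⟩,⟨0,[(30,0)]⟩),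
  ⟨0,[(2,0)]⟩,.k,.k,(.x (-1) ⟨3,[(18,0),(0,0),(11,1),(0,3)]⟩ ⟨0,[(33,0)]⟩),.k,(.x 0 ⟨0,[(14,0),(0,
  0)]⟩ ⟨7,[(10,3),(7,2),(0,2),(9,7),(3,7),(3,1)]⟩),.k,⟨false,0,⟨0,[(0,0)]⟩,⟨3,[(18,0),(0,2),(8,3),
  (7,3)]⟩⟩,⟨true,0,⟨0,[(20,0),(2,0)]⟩,⟨0,[(15,0),(5,0)]⟩⟩,⟨false,1,⟨0,[(35,0),(2,0)]⟩,⟨0,[(36,0)]⟩⟩,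
  ⟨false,1,⟨5,[(10,2),(8,2),(0,5),(4,1),(0,1),(1,3),(5,0),(3,2)]⟩,⟨0,[(0,0),(14,0),(5,0),(14,0)]⟩⟩,
  ⟨true,0,⟨0,[]⟩,⟨0,[(40,0)]⟩⟩,⟨false,1,⟨5,[(10,2),(8,2),(0,5),(4,1),(0,1),(1,3),(5,0),(1,5),(1,
  2)]⟩,⟨0,[(0,0),(14,0),(5,0)]⟩⟩,[.o ⟨false,0,⟨0,[(6,0)]⟩,⟨3,[(5,1),(1,1),(10,0),(0,0),(11,0),(6,
  0)]⟩⟩,.o ⟨false,1,⟨3,[(6,1),(18,1),(5,0),(6,2)]⟩,⟨0,[(24,0)]⟩⟩,.o ⟨false,1,⟨1,[(21,1),(9,0),(5,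
  0)]⟩,⟨1,[(10,0),(4,0),(4,1),(5,0)]⟩⟩,.a ⟨true,0,⟨0,[(21,0)]⟩,⟨0,[(20,0)]⟩⟩ ⟨false,0,⟨0,[(0,0),(3,
  0),(31,0)]⟩,⟨3,[(18,0),(0,2),(6,1),(0,1),(8,3)]⟩⟩ ⟨true,0,⟨0,[(6,0),(13,0)]⟩,⟨0,[(21,0),(2,
  0)]⟩⟩]⟩)) (.Q [0,0,1,1,-1,0,0,0,1,1,0,-1] (.p false [0,0,0,1] [1] (⟨0,[(20,0)]⟩,⟨0,[(19,0)]⟩) .k
  1 (⟨0,[]⟩,⟨0,[]⟩) .k .k) (.R ⟨1,false,false,true,[1,0,0,-1],[0,1],[0,0,0,0,0,0,0,0,-1],(⟨0,[(20,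
  0)]⟩,⟨0,[(21,0)]⟩),(⟨0,[(33,0)]⟩,⟨0,[(32,0)]⟩),⟨0,[(2,0)]⟩,.k,.k,(.x (-1) ⟨3,[(18,0),(0,0),(11,1),
  (0,3)]⟩ ⟨0,[(33,0)]⟩),(.x (-1) ⟨3,[(18,0),(0,0),(11,1),(0,3)]⟩ ⟨0,[(33,0)]⟩),(.r (-2) ⟨1,[(4,0),
  (2,0),(8,0),(1,0),(16,0),(1,1),(0,0)]⟩ ⟨1,[(1,1),(8,0),(4,0),(5,1),(4,0)]⟩),.k,⟨false,2,⟨7,[(3,1),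
  (0,3),(2,1),(8,1),(1,3),(18,8),(0,2)]⟩,⟨1,[(0,0),(0,0),(7,0),(11,1),(2,0)]⟩⟩,⟨true,0,⟨0,[(20,0)]⟩,
  ⟨1,[(10,0),(4,0),(5,1),(4,0)]⟩⟩,⟨false,1,⟨3,[(18,0),(0,0),(18,1)]⟩,⟨0,[]⟩⟩,⟨false,(-1),⟨0,[(0,
  0)]⟩,⟨1,[(11,1),(6,0),(2,1),(15,0),(0,1)]⟩⟩,⟨true,0,⟨0,[(36,0)]⟩,⟨0,[(35,0)]⟩⟩,⟨false,(-1),⟨0,[(1,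
  0)]⟩,⟨9,[(4,5),(2,5),(2,1),(0,5),(4,1),(1,4),(2,9),(15,5),(0,8)]⟩⟩,[.o ⟨false,0,⟨0,[(36,0),(3,
  0)]⟩,⟨0,[(11,0),(26,0)]⟩⟩,.o ⟨false,0,⟨0,[(36,0)]⟩,⟨1,[(31,0),(3,1),(2,0)]⟩⟩,.o ⟨false,1,⟨1,[(21,
  1),(9,0),(5,0)]⟩,⟨5,[(0,1),(9,0),(0,1),(6,0),(1,3),(5,1),(4,0),(2,0)]⟩⟩,.a ⟨true,0,⟨0,[(21,0)]⟩,
  ⟨0,[(20,0)]⟩⟩ ⟨true,1,⟨1,[(18,0),(18,0)]⟩,⟨0,[(0,0),(10,0),(9,0)]⟩⟩ ⟨false,0,⟨3,[(1,1),(16,0),(1,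
  1),(16,0)]⟩,⟨0,[(11,0),(9,0),(16,0)]⟩⟩]⟩) (.R ⟨1,true,false,true,[1,0,0,-1],[0,1],[0,0,0,0,0,0,0,
  0,-1],(⟨0,[(20,0)]⟩,⟨0,[(21,0)]⟩),(⟨0,[(33,0)]⟩,⟨0,[(32,0)]⟩),⟨0,[(2,0)]⟩,.k,.k,(.x (-1) ⟨3,[(18,
  0),(0,0),(11,1),(0,3)]⟩ ⟨0,[(33,0)]⟩),(.x (-1) ⟨3,[(18,0),(0,0),(11,1),(0,3)]⟩ ⟨0,[(33,0)]⟩),(.r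
  (-2) ⟨1,[(0,2),(7,0),(11,2),(14,0)]⟩ ⟨1,[(1,1),(8,0),(4,0),(5,1),(4,0)]⟩),.k,⟨false,2,⟨1,[(0,1),
  (19,1),(16,0),(0,0)]⟩,⟨0,[(1,0),(9,0),(9,0)]⟩⟩,⟨true,0,⟨0,[(20,0)]⟩,⟨1,[(10,0),(4,0),(5,1),(4,
  0)]⟩⟩,⟨false,1,⟨3,[(18,0),(0,0),(18,1)]⟩,⟨0,[]⟩⟩,⟨true,(-1),⟨0,[(1,0),(33,0)]⟩,⟨0,[(0,0)]⟩⟩,⟨true,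
  0,⟨0,[(36,0)]⟩,⟨0,[(35,0)]⟩⟩,⟨false,(-1),⟨0,[(1,0)]⟩,⟨0,[(0,0),(34,0),(2,0)]⟩⟩,[]⟩))))))))

theorem ok8 : chk (cU (-1) true 10) t8 r8 = true := by decide +kernel

noncomputable def t20 : Tre :=
  (.K ⟨2,[0,1,1],0,0,(⟨0,[(26,0),(2,0)]⟩,⟨0,[(8,0)]⟩),.k,.k,(.r 0 ⟨3,[(2,1),(19,2),(0,2),(8,5)]⟩ ⟨0,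
  [(5,0),(25,0),(1,0)]⟩),.k,(.x (-1) ⟨3,[(3,3),(10,0),(0,0),(10,7),(0,1),(1,3)]⟩ ⟨0,[(0,0)]⟩),[⟨1,
  [(22,0),(0,0)]⟩,⟨0,[(3,0)]⟩,⟨1,[(22,0),(0,2)]⟩,⟨0,[(11,0)]⟩,⟨7,[(4,0),(0,1),(6,3),(0,0),(7,4)]⟩,
  ⟨0,[(20,0),(11,0)]⟩]⟩)

theorem ok20 : chk (cU (-1) true 10) t20 l17 = true := by decide +kernel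

noncomputable def t31 : Tre :=
  (.R ⟨1,false,false,false,[0,0,1],[0,1],[0,1,1],(⟨0,[(29,0)]⟩,⟨0,[(28,0)]⟩),(⟨0,[(32,0)]⟩,⟨0,[(31,
  0)]⟩),⟨0,[(13,0)]⟩,.k,.k,.k,.k,(.x 0 ⟨2,[(4,0),(8,4),(11,4)]⟩ ⟨1,[(0,0),(0,1),(2,0),(1,0),(14,0),
  (10,4),(2,1)]⟩),.k,⟨true,0,⟨0,[(34,0)]⟩,⟨19,[(0,7),(4,3),(19,8),(0,0),(6,5)]⟩⟩,⟨false,1,⟨0,[(2,0),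
  (19,0)]⟩,⟨0,[(25,0)]⟩⟩,⟨false,0,⟨2,[(24,1),(0,1),(1,0),(5,0)]⟩,⟨20,[(1,2),(0,9),(2,5),(4,2),(19,
  4),(2,8)]⟩⟩,⟨true,0,⟨1,[(0,0),(23,0)]⟩,⟨0,[(9,0)]⟩⟩,⟨false,0,⟨1,[(0,0),(23,0),(0,1)]⟩,⟨23,[(1,11),
  (0,1),(7,5),(19,0),(2,5),(3,2)]⟩⟩,⟨false,0,⟨0,[(0,0)]⟩,⟨0,[(9,0),(24,0),(2,0)]⟩⟩,[.o ⟨false,0,⟨0,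
  [(35,0)]⟩,⟨5,[(7,1),(1,1),(7,0),(0,0),(11,1),(6,1)]⟩⟩,.a ⟨true,0,⟨0,[(0,0),(4,0),(0,0),(1,0),(6,
  0)]⟩,⟨0,[(34,0)]⟩⟩ ⟨true,0,⟨1,[(25,0),(0,0)]⟩,⟨0,[]⟩⟩ ⟨false,1,⟨17,[(0,8),(1,7),(7,5),(11,5),(1,
  2),(5,0),(6,2)]⟩,⟨1,[(9,0),(2,0),(3,0)]⟩⟩,.o ⟨false,0,⟨0,[(14,0)]⟩,⟨17,[(2,1),(7,5),(11,5),(1,11),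
  (5,6),(6,2)]⟩⟩,.o ⟨false,0,⟨0,[(25,0)]⟩,⟨2,[(2,1),(19,2),(7,0)]⟩⟩]⟩)

theorem ok31 : chk (cU (-1) true 10) t31 l24 = true := by decide +kernel

noncomputable def t34 : Tre :=
  (.Q [0,0,0,0,0,2,0,0,0,0,-1] (.p false [0,0,1] [] (⟨0,[(32,0)]⟩,⟨0,[(31,0)]⟩) .k 0 (⟨0,[]⟩,⟨0,
  []⟩) .k .k) (.R ⟨0,false,false,false,[0,-1,1],[1,-1,-1],[1],(⟨0,[(17,0)]⟩,⟨0,[(32,0),(3,0)]⟩),(⟨0,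
  [(15,0)]⟩,⟨0,[(33,0),(2,0)]⟩),⟨0,[(0,0)]⟩,.k,.k,(.x 0 ⟨2,[(8,0),(8,4),(11,4)]⟩ ⟨1,[(0,1),(2,0),(2,
  0),(23,0)]⟩),.k,.k,.k,⟨true,0,⟨3,[(9,1),(19,0),(0,0),(8,1)]⟩,⟨3,[(11,0),(0,1),(7,0),(7,0)]⟩⟩,
  ⟨false,1,⟨0,[(3,0),(26,0)]⟩,⟨0,[(20,0)]⟩⟩,⟨false,0,⟨2,[(28,0),(0,0),(1,1),(5,1),(1,2)]⟩,⟨20,[(3,
  0),(1,7),(0,0),(6,2),(0,4),(4,1),(1,2),(0,2)]⟩⟩,⟨true,0,⟨0,[(1,0)]⟩,⟨3,[(7,0),(1,1),(0,0),(2,1),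
  (13,1),(4,1),(2,0)]⟩⟩,⟨false,0,⟨0,[]⟩,⟨0,[]⟩⟩,⟨false,0,⟨0,[]⟩,⟨0,[]⟩⟩,[.a ⟨true,0,⟨3,[(1,0),(10,
  1),(6,1),(3,0),(0,0)]⟩,⟨3,[(7,0),(1,1),(0,0),(21,1),(2,0),(3,1)]⟩⟩ ⟨true,0,⟨0,[]⟩,⟨1,[(29,0),(0,
  0)]⟩⟩ ⟨false,1,⟨14,[(1,11),(1,4),(1,6),(0,1),(7,0),(4,0)]⟩,⟨3,[(9,1),(10,3),(8,0),(0,0),(8,1)]⟩⟩,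
  .o ⟨false,1,⟨15,[(1,3),(9,7),(9,0),(0,0),(11,1),(6,11)]⟩,⟨0,[(27,0),(11,0)]⟩⟩,.o ⟨false,0,⟨0,[(29,
  0)]⟩,⟨5,[(3,3),(17,0),(0,0),(3,1)]⟩⟩,.o ⟨false,0,⟨1,[(29,2),(0,0)]⟩,⟨0,[(3,0)]⟩⟩]⟩) (.Q [0,1,-1,0,
  0,0,0,0,-1,0,0,1] (.p true [0,0,0,1] [] (⟨0,[(24,0)]⟩,⟨0,[(23,0)]⟩) .k 0 (⟨0,[]⟩,⟨0,[]⟩) .k .k)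
  (.Q [0,-1,-1,0,0,0,0,0,-1,0,0,1] (.p true [0,0,0,1] [] (⟨0,[(25,0)]⟩,⟨0,[(24,0)]⟩) .k 0 (⟨0,[]⟩,
  ⟨0,[]⟩) .k .k) (.Q [0,0,0,0,0,1,0,0,0,-1,0,1] (.p true [0,0,0,1] [1] (⟨0,[(26,0)]⟩,⟨0,[(25,0)]⟩)
  .k 1 (⟨0,[]⟩,⟨0,[]⟩) .k .k) (.I [0,1,-1,0,0,0,0,1,-1] (.R ⟨0,false,false,false,[1,0,0,-1],[1,0,
  -1],[0,1,0,0,0,0,0,0,-1],(⟨0,[(27,0)]⟩,⟨0,[(28,0)]⟩),(⟨0,[(36,0)]⟩,⟨0,[(37,0)]⟩),⟨0,[(1,0)]⟩,.k,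
  .k,(.x (-1) ⟨11,[(4,3),(14,3),(5,4),(0,4),(11,1)]⟩ ⟨0,[(40,0)]⟩),.k,.k,.k,⟨false,0,⟨0,[(0,0)]⟩,⟨1,
  [(26,0),(8,1),(9,0)]⟩⟩,⟨true,0,⟨0,[(27,0),(2,0)]⟩,⟨0,[(22,0),(5,0)]⟩⟩,⟨true,0,⟨0,[(47,0)]⟩,⟨0,
  []⟩⟩,⟨false,1,⟨1,[(5,0),(20,0),(0,1),(2,0),(2,0),(11,0)]⟩,⟨0,[(2,0),(28,0)]⟩⟩,⟨false,0,⟨0,[]⟩,⟨0,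
  []⟩⟩,⟨false,0,⟨0,[]⟩,⟨0,[]⟩⟩,[.a ⟨true,0,⟨1,[(5,0),(21,0),(0,0)]⟩,⟨7,[(11,0),(1,3),(0,4),(8,3),
  (12,1),(2,0),(1,1)]⟩⟩ ⟨false,0,⟨0,[(0,0),(34,0)]⟩,⟨1,[(26,0),(18,0)]⟩⟩ ⟨true,0,⟨1,[(5,0),(21,1),
  (2,0),(2,0)]⟩,⟨5,[(1,4),(2,1),(7,0),(0,3),(0,4),(1,1),(6,1),(4,0)]⟩⟩,.o ⟨false,1,⟨7,[(5,3),(19,0),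
  (0,0),(11,1),(6,3)]⟩,⟨0,[(31,0)]⟩⟩,.o ⟨false,1,⟨2,[(10,0),(17,2),(9,1)]⟩,⟨0,[(22,0),(4,0),(2,
  0)]⟩⟩,.e ⟨false,0,⟨1,[(0,1),(4,0),(8,0),(26,0)]⟩,⟨1,[(26,0),(6,0),(0,0),(10,0)]⟩⟩ ⟨false,1,⟨7,[(5,
  3),(19,0),(0,0),(0,7),(10,1),(6,3)]⟩,⟨5,[(1,4),(2,1),(7,0),(0,3),(0,4),(1,1),(6,1),(4,0)]⟩⟩]⟩)
  (.Q [0,0,1,1,0,0,0,0,1,1,0,-1] (.p false [0,0,0,1] [1] (⟨0,[(28,0)]⟩,⟨0,[(27,0)]⟩) .k 1 (⟨0,[]⟩,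
  ⟨0,[]⟩) .k .k) (.R ⟨0,false,false,false,[1,0,0,-1],[0,1],[1,1],(⟨0,[(28,0)]⟩,⟨0,[(29,0)]⟩),(⟨0,
  [(41,0)]⟩,⟨0,[(40,0)]⟩),⟨0,[(2,0)]⟩,.k,.k,(.x (-1) ⟨11,[(5,3),(14,3),(5,4),(0,4),(11,1)]⟩ ⟨0,[(41,
  0)]⟩),(.x (-1) ⟨11,[(5,3),(14,3),(5,4),(0,4),(11,1)]⟩ ⟨0,[(41,0)]⟩),.k,.k,⟨false,1,⟨47,[(11,31),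
  (4,11),(1,23),(7,2),(0,2),(5,11),(5,9)]⟩,⟨3,[(34,0),(0,0),(6,1),(1,3)]⟩⟩,⟨true,0,⟨0,[(28,0)]⟩,⟨6,
  [(2,4),(2,1),(7,0),(15,1),(1,1),(2,3)]⟩⟩,⟨false,1,⟨3,[(26,0),(0,2)]⟩,⟨0,[(3,0),(19,0),(4,0),(2,
  0)]⟩⟩,⟨true,0,⟨0,[(0,0)]⟩,⟨0,[(3,0),(17,0),(10,0)]⟩⟩,⟨false,0,⟨0,[]⟩,⟨0,[]⟩⟩,⟨false,0,⟨0,[]⟩,⟨0,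
  []⟩⟩,[.o ⟨false,0,⟨0,[(44,0)]⟩,⟨15,[(9,3),(6,3),(9,2),(0,2),(11,5),(6,3)]⟩⟩,.e ⟨true,0,⟨0,[]⟩,⟨1,
  [(34,0),(0,0)]⟩⟩ ⟨true,0,⟨3,[(28,3),(5,0),(0,0),(6,1),(1,3)]⟩,⟨7,[(2,4),(2,1),(7,0),(1,0),(2,3),
  (2,3),(7,2)]⟩⟩,.o ⟨false,1,⟨2,[(11,0),(17,2),(9,1)]⟩,⟨0,[(23,0),(4,0),(2,0)]⟩⟩,.a ⟨true,0,⟨0,[(29,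
  0)]⟩,⟨0,[(28,0)]⟩⟩ ⟨false,1,⟨11,[(11,3),(14,2),(0,2),(11,1)]⟩,⟨3,[(34,0),(0,0),(6,1)]⟩⟩ ⟨true,0,
  ⟨0,[(28,0),(15,0)]⟩,⟨7,[(2,4),(2,1),(7,0),(1,0),(2,3),(2,3),(7,2)]⟩⟩]⟩) (.R ⟨0,false,false,true,
  [1,0,0,-1],[0,1],[1,0,1],(⟨0,[(28,0)]⟩,⟨0,[(29,0)]⟩),(⟨0,[(41,0)]⟩,⟨0,[(40,0)]⟩),⟨0,[(2,0)]⟩,.k,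
  .k,(.x (-1) ⟨11,[(5,3),(14,3),(5,4),(0,4),(11,1)]⟩ ⟨0,[(41,0)]⟩),(.x (-1) ⟨11,[(5,3),(14,3),(5,4),
  (0,4),(11,1)]⟩ ⟨0,[(41,0)]⟩),.k,.k,⟨false,1,⟨19,[(7,3),(2,7),(15,0),(0,0),(18,9)]⟩,⟨0,[(44,0),(3,
  0)]⟩⟩,⟨true,0,⟨0,[(28,0)]⟩,⟨6,[(2,4),(2,1),(7,0),(15,1),(1,1),(2,3)]⟩⟩,⟨false,1,⟨11,[(1,7),(17,3),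
  (6,2),(0,4),(6,1),(0,1)]⟩,⟨0,[(0,0),(27,0),(15,0)]⟩⟩,⟨true,0,⟨0,[(1,0),(22,0),(3,0),(3,0),(11,
  1)]⟩,⟨0,[(0,0)]⟩⟩,⟨false,0,⟨0,[]⟩,⟨0,[]⟩⟩,⟨false,0,⟨0,[]⟩,⟨0,[]⟩⟩,[.o ⟨false,0,⟨0,[(44,0),(3,0)]⟩,
  ⟨14,[(9,2),(0,0),(5,2),(0,0),(21,5),(2,1),(3,7)]⟩⟩,.o ⟨false,0,⟨0,[(44,0)]⟩,⟨15,[(9,3),(6,3),(9,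
  2),(0,2),(11,5),(6,3)]⟩⟩,.o ⟨false,1,⟨2,[(11,0),(17,2),(9,1)]⟩,⟨0,[(23,0),(4,0),(2,0)]⟩⟩,.a ⟨true,
  0,⟨0,[(29,0)]⟩,⟨0,[(28,0)]⟩⟩ ⟨true,0,⟨0,[]⟩,⟨0,[(48,0)]⟩⟩ ⟨false,0,⟨0,[(28,0),(15,0)]⟩,⟨17,[(0,1),
  (8,3),(6,3),(10,0),(1,15),(9,5),(2,1),(3,10)]⟩⟩]⟩))) (.I [0,0,1,1,0,0,0,-1,1] (.Q [0,0,0,0,0,0,1,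
  1,0,0,-1,1] (.p false [0,0,1] [0,0,0,1] (⟨0,[(37,0)]⟩,⟨0,[(36,0)]⟩) .k 2 (⟨0,[(28,0)]⟩,⟨0,[(27,
  0)]⟩) .k (.r 0 ⟨0,[(2,0),(24,0),(2,0),(0,0)]⟩ ⟨2,[(0,0),(5,0),(18,0),(0,1)]⟩)) (.I [0,1,-1,0,0,0,
  0,1,-1] (.R ⟨1,false,false,false,[1,0,0,-1],[1,0,-1],[0,1,0,0,0,0,0,0,-1],(⟨0,[(29,0)]⟩,⟨0,[(30,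
  0)]⟩),(⟨0,[(38,0)]⟩,⟨0,[(39,0)]⟩),⟨0,[(3,0)]⟩,.k,.k,(.x (-1) ⟨11,[(6,3),(14,3),(5,4),(0,4),(11,
  1)]⟩ ⟨0,[(42,0)]⟩),.k,(.r (-1) ⟨66,[(0,12),(9,2),(0,28),(8,10),(4,2),(1,26),(15,3)]⟩ ⟨0,[(2,0)]⟩),
  .k,⟨false,0,⟨0,[(0,0)]⟩,⟨11,[(2,3),(5,3),(18,0),(0,4),(18,5)]⟩⟩,⟨true,0,⟨0,[(29,0),(2,0)]⟩,⟨7,[(1,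
  5),(0,1),(1,0),(0,0),(2,1),(26,1)]⟩⟩,⟨true,0,⟨0,[(49,0)]⟩,⟨0,[]⟩⟩,⟨false,1,⟨31,[(2,15),(4,3),(9,
  7),(9,0),(0,8),(0,31),(2,15),(7,1),(6,19)]⟩,⟨0,[(4,0),(28,0)]⟩⟩,⟨false,0,⟨0,[(45,0)]⟩,⟨15,[(10,3),
  (7,3),(6,3),(1,2),(0,2),(18,9)]⟩⟩,⟨false,1,⟨3,[(2,3),(4,1),(12,1),(8,3),(10,0),(6,0)]⟩,⟨0,[(4,0),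
  (14,0)]⟩⟩,[.a ⟨true,0,⟨1,[(7,0),(21,0),(0,0)]⟩,⟨0,[(1,0),(27,0)]⟩⟩ ⟨false,0,⟨0,[(0,0),(36,0)]⟩,⟨1,
  [(28,0),(18,0)]⟩⟩ ⟨true,0,⟨1,[(7,0),(21,1),(2,0),(2,0)]⟩,⟨0,[(1,0)]⟩⟩,.o ⟨false,1,⟨7,[(7,3),(19,
  0),(0,0),(11,1),(6,3)]⟩,⟨0,[(33,0)]⟩⟩,.o ⟨false,1,⟨2,[(12,0),(17,2),(9,1)]⟩,⟨0,[(24,0),(4,0),(2,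
  0)]⟩⟩,.e ⟨false,0,⟨1,[(0,1),(6,0),(8,0),(26,0)]⟩,⟨1,[(28,0),(6,0),(0,0),(10,0)]⟩⟩ ⟨false,1,⟨7,[(7,
  3),(19,0),(0,0),(0,7),(10,1),(6,3)]⟩,⟨0,[(1,0)]⟩⟩]⟩) (.I [1,0,-1,-1,0,0,0,0,-1] (.Q [0,0,1,1,0,0,
  0,0,1,1,0,-1] (.p false [0,0,0,1] [1] (⟨0,[(31,0)]⟩,⟨0,[(30,0)]⟩) .k 1 (⟨0,[]⟩,⟨0,[]⟩) .k .k) (.R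
  ⟨1,false,false,true,[1,0,0,-1],[0,1],[1,0,0,-1,0,0,0,0,-1],(⟨0,[(31,0)]⟩,⟨0,[(32,0)]⟩),(⟨0,[(44,
  0)]⟩,⟨0,[(43,0)]⟩),⟨0,[(5,0)]⟩,.k,.k,(.x (-1) ⟨11,[(8,3),(14,3),(5,4),(0,4),(11,1)]⟩ ⟨0,[(44,
  0)]⟩),(.x (-1) ⟨11,[(8,3),(14,3),(5,4),(0,4),(11,1)]⟩ ⟨0,[(44,0)]⟩),(.r (-1) ⟨2,[(1,0),(8,0),(2,
  1),(15,0)]⟩ ⟨3,[(4,3),(12,1),(19,0),(0,0),(8,1)]⟩),.k,⟨false,1,⟨17,[(1,15),(8,3),(2,7),(15,0),(19,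
  8)]⟩,⟨0,[(0,0),(2,0),(29,0),(13,0)]⟩⟩,⟨true,0,⟨0,[(31,0)]⟩,⟨1,[(3,1),(5,0),(24,0),(2,0)]⟩⟩,⟨false,
  1,⟨15,[(12,3),(7,3),(6,3),(1,2),(0,2),(18,9)]⟩,⟨0,[(47,0)]⟩⟩,⟨false,0,⟨0,[(0,0)]⟩,⟨33,[(6,23),(3,
  1),(1,5),(0,3),(5,5),(9,4),(2,9),(9,13),(6,10)]⟩⟩,⟨true,0,⟨0,[]⟩,⟨0,[(51,0)]⟩⟩,⟨false,0,⟨0,[(0,0),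
  (46,0)]⟩,⟨50,[(6,40),(3,1),(1,22),(0,3),(5,22),(9,4),(2,9),(9,13),(6,27)]⟩⟩,[.o ⟨false,0,⟨0,[(47,
  0),(3,0)]⟩,⟨14,[(12,2),(0,0),(5,2),(0,0),(21,5),(2,1),(3,7)]⟩⟩,.o ⟨false,0,⟨0,[(47,0)]⟩,⟨15,[(12,
  3),(6,3),(9,2),(0,2),(11,5),(6,3)]⟩⟩,.o ⟨false,1,⟨2,[(14,0),(17,2),(9,1)]⟩,⟨0,[(26,0),(4,0),(2,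
  0)]⟩⟩,.a ⟨true,0,⟨0,[(32,0)]⟩,⟨0,[(31,0)]⟩⟩ ⟨true,0,⟨0,[(1,0)]⟩,⟨0,[(0,0),(2,0),(29,0)]⟩⟩ ⟨false,
  0,⟨0,[(31,0),(15,0)]⟩,⟨3,[(3,1),(15,1),(12,1),(9,0),(6,2)]⟩⟩]⟩) (.Q [0,0,-1,-2,0,0,0,0,-1,-1,0,1]
  (.p true [0,0,0,1] [1] (⟨0,[(32,0)]⟩,⟨0,[(31,0)]⟩) .k 1 (⟨0,[]⟩,⟨0,[]⟩) .k .k) (.R ⟨1,false,false,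
  true,[1,0,0,-1],[0,1],[1,0,0,-1,0,0,0,0,-1],(⟨0,[(32,0)]⟩,⟨0,[(33,0)]⟩),(⟨0,[(45,0)]⟩,⟨0,[(44,
  0)]⟩),⟨0,[(6,0)]⟩,.k,.k,(.x (-1) ⟨11,[(9,3),(14,3),(5,4),(0,4),(11,1)]⟩ ⟨0,[(45,0)]⟩),(.x (-1)
  ⟨11,[(9,3),(14,3),(5,4),(0,4),(11,1)]⟩ ⟨0,[(45,0)]⟩),(.r (-1) ⟨2,[(2,0),(8,0),(2,1),(15,0)]⟩ ⟨3,
  [(5,3),(12,1),(19,0),(0,0),(8,1)]⟩),.k,⟨false,1,⟨17,[(2,15),(8,3),(2,7),(15,0),(19,8)]⟩,⟨0,[(3,0),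
  (24,0),(7,0),(11,2)]⟩⟩,⟨true,0,⟨0,[(32,0)]⟩,⟨2,[(1,0),(2,0),(0,0),(27,0),(1,1),(2,0)]⟩⟩,⟨false,1,
  ⟨15,[(13,3),(7,3),(6,3),(1,2),(0,2),(18,9)]⟩,⟨0,[(48,0)]⟩⟩,⟨true,0,⟨0,[(3,0),(24,0),(3,0),(3,0),
  (11,1)]⟩,⟨0,[(1,0)]⟩⟩,⟨true,0,⟨0,[]⟩,⟨0,[(52,0)]⟩⟩,⟨true,0,⟨0,[(3,0),(24,0),(3,0),(3,0),(11,2)]⟩,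
  ⟨0,[(0,0)]⟩⟩,[.o ⟨false,0,⟨0,[(48,0),(3,0)]⟩,⟨14,[(13,2),(0,0),(5,2),(0,0),(21,5),(2,1),(3,7)]⟩⟩,
  .o ⟨false,0,⟨0,[(48,0)]⟩,⟨15,[(13,3),(6,3),(9,2),(0,2),(11,5),(6,3)]⟩⟩,.o ⟨false,1,⟨2,[(15,0),(17,
  2),(9,1)]⟩,⟨0,[(27,0),(4,0),(2,0)]⟩⟩,.a ⟨true,0,⟨0,[(33,0)]⟩,⟨0,[(32,0)]⟩⟩ ⟨true,0,⟨0,[(2,0)]⟩,⟨0,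
  [(3,0),(24,0),(7,0),(11,1)]⟩⟩ ⟨false,0,⟨0,[(32,0),(15,0)]⟩,⟨7,[(0,1),(12,0),(6,0),(10,0),(1,5),(1,
  0),(2,0),(4,1),(6,4)]⟩⟩]⟩) (.R ⟨1,true,false,true,[1,0,0,-1],[0,1],[0,0,0,0,0,0,0,0,-1],(⟨0,[(32,
  0)]⟩,⟨0,[(33,0)]⟩),(⟨0,[(45,0)]⟩,⟨0,[(44,0)]⟩),⟨0,[(6,0)]⟩,.k,.k,(.x (-1) ⟨11,[(9,3),(14,3),(5,4),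
  (0,4),(11,1)]⟩ ⟨0,[(45,0)]⟩),(.x (-1) ⟨11,[(9,3),(14,3),(5,4),(0,4),(11,1)]⟩ ⟨0,[(45,0)]⟩),(.r
  (-1) ⟨2,[(2,0),(8,0),(2,1),(15,0)]⟩ ⟨7,[(0,1),(4,7),(1,0),(0,0),(9,3),(16,1),(2,1)]⟩),.k,⟨false,1,
  ⟨5,[(2,5),(12,1),(27,0),(6,2)]⟩,⟨0,[(0,0),(3,0),(20,0)]⟩⟩,⟨true,0,⟨0,[(32,0)]⟩,⟨2,[(1,0),(2,0),(0,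
  0),(27,0),(1,1),(2,0)]⟩⟩,⟨false,1,⟨3,[(30,0),(0,0),(18,1)]⟩,⟨0,[]⟩⟩,⟨true,0,⟨0,[(0,0),(46,0)]⟩,⟨0,
  [(1,0)]⟩⟩,⟨true,0,⟨0,[(48,0)]⟩,⟨0,[(47,0)]⟩⟩,⟨false,0,⟨0,[(0,0)]⟩,⟨79,[(1,59),(9,3),(1,19),(0,7),
  (5,19),(9,10),(0,0),(1,19),(16,59)]⟩⟩,[]⟩))) (.R ⟨1,false,false,true,[1,0,0,-1],[0,1],[1,1,0,-1,0,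
  0,0,0,-1],(⟨0,[(30,0)]⟩,⟨0,[(31,0)]⟩),(⟨0,[(43,0)]⟩,⟨0,[(42,0)]⟩),⟨0,[(4,0)]⟩,.k,.k,(.r (-1) ⟨19,
  [(9,3),(2,7),(15,10),(0,0)]⟩ ⟨0,[(0,0)]⟩),(.r (-1) ⟨19,[(9,3),(2,7),(15,10),(0,0)]⟩ ⟨0,[(0,0)]⟩),
  (.r (-1) ⟨61,[(5,23),(3,19),(0,11),(0,17),(0,27),(5,5),(9,18),(1,23),(10,2)]⟩ ⟨3,[(3,3),(12,1),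
  (19,0),(0,0),(8,1)]⟩),.k,⟨false,1,⟨61,[(5,23),(3,19),(0,11),(0,17),(0,27),(5,5),(9,18),(1,23),(10,
  2)]⟩,⟨0,[(0,0),(45,0)]⟩⟩,⟨true,0,⟨0,[(30,0)]⟩,⟨1,[(2,1),(5,0),(24,0),(2,0)]⟩⟩,⟨true,0,⟨0,[(45,
  0)]⟩,⟨0,[(46,0)]⟩⟩,⟨false,0,⟨0,[(0,0),(29,0)]⟩,⟨33,[(5,23),(3,1),(1,5),(0,3),(5,5),(9,4),(2,9),(9,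
  13),(6,10)]⟩⟩,⟨false,0,⟨0,[]⟩,⟨3,[(28,0),(0,0),(18,1)]⟩⟩,⟨false,0,⟨0,[(0,0),(29,0),(15,0)]⟩,⟨50,
  [(5,40),(3,1),(1,22),(0,3),(5,22),(9,4),(2,9),(9,13),(6,27)]⟩⟩,[.o ⟨false,0,⟨0,[(46,0),(3,0)]⟩,
  ⟨14,[(11,2),(0,0),(5,2),(0,0),(21,5),(2,1),(3,7)]⟩⟩,.o ⟨false,0,⟨0,[(46,0)]⟩,⟨15,[(11,3),(6,3),(9,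
  2),(0,2),(11,5),(6,3)]⟩⟩,.o ⟨false,1,⟨2,[(13,0),(17,2),(9,1)]⟩,⟨0,[(25,0),(4,0),(2,0)]⟩⟩,.a ⟨true,
  0,⟨0,[(31,0)]⟩,⟨0,[(30,0)]⟩⟩ ⟨true,0,⟨0,[(5,0),(17,0),(6,0),(3,0)]⟩,⟨0,[(0,0)]⟩⟩ ⟨false,0,⟨0,[(30,
  0),(15,0)]⟩,⟨3,[(2,1),(15,1),(12,1),(9,0),(6,2)]⟩⟩]⟩))) (.I [0,1,-1,0,0,0,0,1,-1] (.R ⟨1,false,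
  false,false,[1,0,0,-1],[1,0,-1],[0,1,0,0,0,0,0,0,-1],(⟨0,[(29,0)]⟩,⟨0,[(30,0)]⟩),(⟨0,[(38,0)]⟩,⟨0,
  [(39,0)]⟩),⟨0,[(3,0)]⟩,.k,.k,(.x (-1) ⟨11,[(6,3),(14,3),(5,4),(0,4),(11,1)]⟩ ⟨0,[(42,0)]⟩),.k,(.r
  (-1) ⟨66,[(0,12),(9,2),(0,28),(8,10),(4,2),(1,26),(15,3)]⟩ ⟨0,[(2,0)]⟩),.k,⟨false,0,⟨0,[(0,0)]⟩,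
  ⟨11,[(2,3),(5,3),(18,0),(0,4),(18,5)]⟩⟩,⟨true,0,⟨0,[(29,0),(2,0)]⟩,⟨0,[(24,0),(5,0)]⟩⟩,⟨true,0,⟨0,
  [(49,0)]⟩,⟨0,[]⟩⟩,⟨false,1,⟨15,[(1,3),(0,7),(14,3),(9,0),(0,4),(0,11),(2,7),(14,9)]⟩,⟨0,[(4,0),
  (28,0)]⟩⟩,⟨false,0,⟨0,[(45,0)]⟩,⟨15,[(10,3),(7,3),(6,3),(1,2),(0,2),(18,9)]⟩⟩,⟨false,1,⟨7,[(1,7),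
  (0,7),(17,3),(6,0),(0,0),(18,1)]⟩,⟨0,[(4,0),(14,0)]⟩⟩,[.e ⟨false,0,⟨0,[(0,0),(36,0)]⟩,⟨1,[(28,0),
  (18,0)]⟩⟩ ⟨false,0,⟨0,[(1,0)]⟩,⟨3,[(5,1),(10,1),(3,1),(7,0),(1,1),(9,0)]⟩⟩,.o ⟨false,1,⟨7,[(7,3),
  (19,0),(0,0),(11,1),(6,3)]⟩,⟨0,[(33,0)]⟩⟩,.o ⟨false,1,⟨2,[(12,0),(17,2),(9,1)]⟩,⟨5,[(1,5),(13,1),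
  (3,1),(4,0),(10,2),(7,0)]⟩⟩,.a ⟨true,0,⟨0,[(30,0)]⟩,⟨0,[(29,0)]⟩⟩ ⟨false,0,⟨1,[(0,0),(0,0),(2,0),
  (19,0)]⟩,⟨1,[(28,0),(6,0),(0,0),(10,0)]⟩⟩ ⟨true,0,⟨0,[(1,0)]⟩,⟨0,[(30,0),(2,0)]⟩⟩]⟩) (.R ⟨1,false,
  false,true,[1,0,0,-1],[0,1],[0,0,0,0,0,0,0,0,-1],(⟨0,[(29,0)]⟩,⟨0,[(30,0)]⟩),(⟨0,[(42,0)]⟩,⟨0,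
  [(41,0)]⟩),⟨0,[(3,0)]⟩,.k,.k,(.x (-1) ⟨11,[(6,3),(14,3),(5,4),(0,4),(11,1)]⟩ ⟨0,[(42,0)]⟩),(.x
  (-1) ⟨11,[(6,3),(14,3),(5,4),(0,4),(11,1)]⟩ ⟨0,[(42,0)]⟩),(.r (-1) ⟨73,[(1,23),(2,23),(3,19),(0,
  5),(0,23),(0,39),(0,2),(3,2),(10,24)]⟩ ⟨3,[(2,3),(12,1),(19,0),(0,0),(8,1)]⟩),.k,⟨false,1,⟨17,[(1,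
  8),(2,9),(4,2),(1,8),(4,5),(10,3),(1,0),(10,1),(2,3)]⟩,⟨0,[(0,0),(24,0),(7,0),(11,1)]⟩⟩,⟨true,0,
  ⟨0,[(29,0)]⟩,⟨0,[(24,0),(5,0),(1,0)]⟩⟩,⟨false,1,⟨3,[(27,0),(0,0),(18,1)]⟩,⟨0,[]⟩⟩,⟨false,0,⟨0,[(0,
  0),(0,0),(13,0),(0,0),(8,0),(19,0)]⟩,⟨33,[(4,23),(3,1),(1,5),(0,3),(5,5),(9,4),(2,9),(9,13),(6,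
  10)]⟩⟩,⟨true,0,⟨0,[(45,0)]⟩,⟨0,[(44,0)]⟩⟩,⟨false,0,⟨0,[(0,0),(0,0),(13,0),(0,0),(8,0),(19,1)]⟩,
  ⟨50,[(4,40),(3,1),(1,22),(0,3),(5,22),(9,4),(2,9),(9,13),(6,27)]⟩⟩,[.o ⟨false,0,⟨0,[(45,0),(3,
  0)]⟩,⟨14,[(10,2),(0,0),(5,2),(0,0),(21,5),(2,1),(3,7)]⟩⟩,.o ⟨false,0,⟨0,[(45,0)]⟩,⟨15,[(10,3),(6,
  3),(9,2),(0,2),(11,5),(6,3)]⟩⟩,.o ⟨false,1,⟨2,[(12,0),(17,2),(9,1)]⟩,⟨5,[(1,5),(13,1),(3,1),(4,0),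
  (10,2),(7,0)]⟩⟩,.a ⟨true,0,⟨0,[(30,0)]⟩,⟨0,[(29,0)]⟩⟩ ⟨true,0,⟨0,[(1,0),(2,0),(28,0)]⟩,⟨0,[(0,0),
  (24,0),(7,0),(11,0)]⟩⟩ ⟨false,0,⟨0,[(29,0),(15,0)]⟩,⟨17,[(0,0),(3,0),(5,3),(0,0),(5,3),(12,16),(9,
  6),(2,1),(3,9)]⟩⟩]⟩))) (.Q [0,0,0,0,0,0,-1,-1,0,0,1,-1] (.p true [0,0,1] [0,0,0,1] (⟨0,[(37,0)]⟩,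
  ⟨0,[(36,0)]⟩) .k 2 (⟨0,[(28,0)]⟩,⟨0,[(27,0)]⟩) .k (.r 0 ⟨4,[(0,2),(1,0),(0,0),(9,0),(13,1),(2,1),
  (2,1),(9,1)]⟩ ⟨3,[(25,0),(0,2),(8,3)]⟩)) (.R ⟨1,false,false,false,[1,0,0,-1],[1,0,-1],[1,0,0,-1,0,
  0,0,0,-1],(⟨0,[(28,0)]⟩,⟨0,[(29,0)]⟩),(⟨0,[(37,0)]⟩,⟨0,[(38,0)]⟩),⟨0,[(2,0)]⟩,.k,.k,(.x (-1) ⟨11,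
  [(5,3),(14,3),(5,4),(0,4),(11,1)]⟩ ⟨0,[(41,0)]⟩),.k,(.x 0 ⟨4,[(5,2),(6,0),(10,1),(10,0)]⟩ ⟨23,
  [(11,3),(1,11),(12,8),(0,8),(11,1),(1,35)]⟩),.k,⟨false,0,⟨0,[(1,0)]⟩,⟨3,[(26,0),(0,2),(8,3),(7,
  3)]⟩⟩,⟨true,0,⟨0,[(28,0),(2,0)]⟩,⟨0,[(23,0),(5,0)]⟩⟩,⟨false,1,⟨15,[(9,3),(7,3),(6,3),(1,2),(0,2),
  (18,9)]⟩,⟨0,[(44,0)]⟩⟩,⟨false,1,⟨1,[(0,1),(26,0),(6,0),(0,0),(10,0)]⟩,⟨0,[(3,0),(28,0)]⟩⟩,⟨true,0,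
  ⟨0,[]⟩,⟨0,[(48,0)]⟩⟩,⟨false,1,⟨1,[(0,1),(26,0),(6,0),(0,0),(8,1),(1,0)]⟩,⟨0,[(3,0),(14,0)]⟩⟩,[.e
  ⟨false,0,⟨7,[(0,1),(0,5),(1,0),(0,0),(2,1),(26,1)]⟩,⟨3,[(26,0),(0,2),(16,3)]⟩⟩ ⟨false,0,⟨0,[(0,
  0)]⟩,⟨3,[(4,1),(10,1),(3,1),(7,0),(1,1),(9,0)]⟩⟩,.o ⟨false,1,⟨7,[(6,3),(19,0),(0,0),(11,1),(6,
  3)]⟩,⟨0,[(32,0)]⟩⟩,.o ⟨false,1,⟨2,[(11,0),(17,2),(9,1)]⟩,⟨5,[(0,5),(13,1),(3,1),(4,0),(10,2),(7,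
  0)]⟩⟩,.a ⟨true,0,⟨0,[(29,0)]⟩,⟨0,[(28,0)]⟩⟩ ⟨false,0,⟨1,[(1,1),(4,0),(8,0),(26,0)]⟩,⟨3,[(26,0),(0,
  2),(6,1),(0,1),(8,3)]⟩⟩ ⟨true,0,⟨0,[(0,0)]⟩,⟨0,[(29,0),(2,0)]⟩⟩]⟩) (.R ⟨1,false,false,false,[1,0,
  0,-1],[1,0,-1],[1,0,0,-1,0,0,0,0,-1],(⟨0,[(28,0)]⟩,⟨0,[(29,0)]⟩),(⟨0,[(37,0)]⟩,⟨0,[(38,0)]⟩),⟨0,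
  [(2,0)]⟩,.k,.k,(.x (-1) ⟨11,[(5,3),(14,3),(5,4),(0,4),(11,1)]⟩ ⟨0,[(41,0)]⟩),.k,(.x 0 ⟨4,[(5,2),
  (6,0),(10,1),(10,0)]⟩ ⟨23,[(11,3),(1,11),(12,8),(0,8),(11,1),(1,35)]⟩),.k,⟨false,0,⟨0,[(1,0)]⟩,⟨3,
  [(26,0),(0,2),(8,3),(7,3)]⟩⟩,⟨true,0,⟨0,[(28,0),(2,0)]⟩,⟨0,[(23,0),(5,0)]⟩⟩,⟨false,1,⟨15,[(9,3),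
  (7,3),(6,3),(1,2),(0,2),(18,9)]⟩,⟨0,[(44,0)]⟩⟩,⟨false,1,⟨1,[(6,0),(20,0),(0,1),(2,0),(2,0),(11,
  0)]⟩,⟨0,[(3,0),(28,0)]⟩⟩,⟨true,0,⟨0,[]⟩,⟨0,[(48,0)]⟩⟩,⟨false,1,⟨1,[(6,0),(20,0),(0,1),(2,0),(2,0),
  (9,1),(1,0)]⟩,⟨0,[(3,0),(14,0)]⟩⟩,[.a ⟨true,0,⟨1,[(6,0),(21,0),(0,0)]⟩,⟨0,[(0,0),(27,0)]⟩⟩ ⟨false,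
  0,⟨9,[(1,7),(1,0),(0,0),(1,1),(0,1),(15,1),(4,1),(5,1)]⟩,⟨3,[(26,0),(0,2),(16,3)]⟩⟩ ⟨true,0,⟨1,
  [(6,0),(21,1),(2,0),(2,0)]⟩,⟨0,[(0,0)]⟩⟩,.o ⟨false,1,⟨7,[(6,3),(19,0),(0,0),(11,1),(6,3)]⟩,⟨0,
  [(32,0)]⟩⟩,.o ⟨false,1,⟨2,[(11,0),(17,2),(9,1)]⟩,⟨0,[(23,0),(4,0),(2,0)]⟩⟩,.e ⟨false,0,⟨1,[(1,1),
  (4,0),(8,0),(26,0)]⟩,⟨3,[(26,0),(0,2),(6,1),(0,1),(8,3)]⟩⟩ ⟨false,1,⟨7,[(6,3),(19,0),(0,0),(0,7),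
  (10,1),(6,3)]⟩,⟨0,[(0,0)]⟩⟩]⟩)))) (.K ⟨0,[0,0,0,1],0,0,(⟨0,[(26,0)]⟩,⟨0,[(25,0)]⟩),.k,(.r (-1)
  ⟨19,[(4,3),(2,7),(15,0),(0,10)]⟩ ⟨1,[(1,1),(18,0),(4,1),(2,1),(2,0),(7,0),(1,1)]⟩),(.x 0 ⟨0,[(38,
  0)]⟩ ⟨11,[(2,3),(14,3),(5,4),(0,4),(11,1)]⟩),.k,.k,[⟨0,[(26,0)]⟩,⟨0,[(25,0)]⟩,⟨0,[(1,0)]⟩,⟨0,[(0,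
  0)]⟩]⟩)) (.I [1,-1,1,0,0,0,0,0,-1] (.I [0,-1,1,1,0,0,0,1,1] (.Q [0,0,0,0,0,-1,0,0,0,0,0,1] (.p
  true [0,0,0,1] [] (⟨0,[(27,0)]⟩,⟨0,[(26,0)]⟩) .k 0 (⟨0,[]⟩,⟨0,[]⟩) .k .k) (.R ⟨1,false,false,
  false,[0,0,0,1],[0,-1,1],[0,1,0,0,0,0,0,0,1],(⟨0,[(28,0)]⟩,⟨0,[(27,0)]⟩),(⟨0,[(21,0)]⟩,⟨0,[(36,0),
  (3,0)]⟩),⟨0,[(0,0)]⟩,.k,.k,(.r (-1) ⟨19,[(6,3),(2,7),(15,0),(0,10)]⟩ ⟨0,[(2,0),(40,0),(3,0)]⟩),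
  (.r 0 ⟨1,[(1,1),(22,0),(4,0),(2,0),(2,1)]⟩ ⟨23,[(2,9),(4,3),(1,8),(0,3),(2,3),(3,6),(5,2),(1,
  6)]⟩),.k,.k,⟨false,0,⟨0,[(1,0),(12,0),(14,0),(2,0)]⟩,⟨57,[(2,55),(4,13),(1,33),(0,6),(2,9),(0,6),
  (3,1),(6,0)]⟩⟩,⟨true,0,⟨0,[(22,0),(5,0)]⟩,⟨0,[(27,0),(2,0)]⟩⟩,⟨true,0,⟨0,[(47,0)]⟩,⟨0,[]⟩⟩,⟨false,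
  1,⟨4,[(2,4),(4,0),(1,2),(3,0),(0,2),(13,4),(9,0)]⟩,⟨0,[(3,0),(28,0),(10,0)]⟩⟩,⟨false,0,⟨0,[(43,
  0)]⟩,⟨15,[(8,3),(7,3),(6,3),(1,2),(0,2),(18,9)]⟩⟩,⟨false,1,⟨23,[(2,21),(4,15),(5,3),(0,17),(2,3),
  (0,5),(6,0),(2,23),(9,0)]⟩,⟨0,[(3,0),(28,0)]⟩⟩,[.a ⟨true,0,⟨0,[(13,0),(0,0),(1,0),(6,0)]⟩,⟨1,[(5,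
  0),(21,0),(0,0),(14,1)]⟩⟩ ⟨true,0,⟨0,[(1,0),(12,0),(8,0),(5,0)]⟩,⟨0,[(2,0)]⟩⟩ ⟨false,1,⟨4,[(7,0),
  (1,2),(3,0),(0,2),(13,4),(9,0)]⟩,⟨1,[(5,0),(21,1),(2,0),(2,0),(9,1)]⟩⟩,.o ⟨false,1,⟨7,[(8,3),(9,
  1),(5,1),(13,0),(6,4)]⟩,⟨0,[(29,0),(13,0)]⟩⟩,.o ⟨false,0,⟨1,[(2,0),(0,0),(23,0),(1,0),(1,0)]⟩,⟨2,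
  [(10,0),(17,2),(9,1)]⟩⟩,.o ⟨false,0,⟨0,[(27,0),(2,0),(2,0)]⟩,⟨0,[(7,0),(14,0),(5,0)]⟩⟩]⟩) (.R ⟨0,
  false,false,false,[0,0,0,1],[0,-1,1],[0,1,0,0,0,0,0,0,1],(⟨0,[(28,0)]⟩,⟨0,[(27,0)]⟩),(⟨0,[(21,
  0)]⟩,⟨0,[(36,0),(3,0)]⟩),⟨0,[(0,0)]⟩,.k,.k,(.r (-1) ⟨19,[(6,3),(2,7),(15,0),(0,10)]⟩ ⟨0,[(2,0),
  (40,0),(3,0)]⟩),(.r 0 ⟨1,[(1,1),(22,0),(4,0),(2,0),(2,1)]⟩ ⟨23,[(2,9),(4,3),(1,8),(0,3),(2,3),(3,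
  6),(5,2),(1,6)]⟩),.k,.k,⟨false,0,⟨0,[(1,0),(12,0),(14,0),(2,0)]⟩,⟨57,[(2,55),(4,13),(1,33),(0,6),
  (2,9),(0,6),(3,1),(6,0)]⟩⟩,⟨true,0,⟨0,[(22,0),(5,0)]⟩,⟨0,[(27,0),(2,0)]⟩⟩,⟨true,0,⟨0,[(47,0)]⟩,⟨0,
  []⟩⟩,⟨false,1,⟨4,[(2,4),(4,0),(1,2),(3,0),(0,2),(13,4),(9,0)]⟩,⟨0,[(3,0),(28,0),(10,0)]⟩⟩,⟨false,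
  0,⟨0,[]⟩,⟨0,[]⟩⟩,⟨false,0,⟨0,[]⟩,⟨0,[]⟩⟩,[.a ⟨true,0,⟨0,[(13,0),(0,0),(1,0),(6,0)]⟩,⟨1,[(5,0),(21,
  0),(0,0),(14,1)]⟩⟩ ⟨true,0,⟨0,[(1,0),(12,0),(8,0),(5,0)]⟩,⟨0,[(2,0)]⟩⟩ ⟨false,1,⟨4,[(7,0),(1,2),
  (3,0),(0,2),(13,4),(9,0)]⟩,⟨1,[(5,0),(21,1),(2,0),(2,0),(9,1)]⟩⟩,.o ⟨false,1,⟨7,[(8,3),(9,1),(5,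
  1),(13,0),(6,4)]⟩,⟨0,[(29,0),(13,0)]⟩⟩,.o ⟨false,0,⟨6,[(0,4),(3,1),(7,0),(14,1),(2,1),(2,3)]⟩,⟨2,
  [(10,0),(17,2),(9,1)]⟩⟩,.o ⟨false,0,⟨0,[(27,0),(2,0),(2,0)]⟩,⟨0,[(7,0),(14,0),(5,0)]⟩⟩]⟩)) (.Q [0,
  1,0,-1,0,0,0,0,0,-1,0,1] (.p true [0,0,0,1] [1] (⟨0,[(27,0)]⟩,⟨0,[(26,0)]⟩) .k 1 (⟨0,[]⟩,⟨0,[]⟩)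
  .k .k) (.Q [0,0,0,0,0,-1,0,0,0,1,0,-1] (.p false [0,0,0,1] [1] (⟨0,[(28,0)]⟩,⟨0,[(27,0)]⟩) .k 1
  (⟨0,[]⟩,⟨0,[]⟩) .k .k) (.R ⟨1,false,false,false,[1,0,0,-1],[0,1],[0,1,0,0,0,0,0,0,-1],(⟨0,[(28,
  0)]⟩,⟨0,[(29,0)]⟩),(⟨0,[(41,0)]⟩,⟨0,[(40,0)]⟩),⟨0,[(0,0)]⟩,.k,.k,(.x (-1) ⟨11,[(5,3),(14,3),(5,4),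
  (0,4),(11,1)]⟩ ⟨0,[(41,0)]⟩),(.x (-1) ⟨11,[(5,3),(14,3),(5,4),(0,4),(11,1)]⟩ ⟨0,[(41,0)]⟩),(.r
  (-1) ⟨21,[(2,7),(0,7),(3,3),(0,1),(1,15),(0,0),(3,0),(10,2)]⟩ ⟨2,[(4,2),(9,0),(14,2),(3,1),(0,1),
  (9,4),(3,0)]⟩),.k,⟨false,1,⟨2,[(2,0),(5,0),(2,0),(6,0),(7,0),(16,0)]⟩,⟨0,[(4,0),(24,0),(14,0)]⟩⟩,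
  ⟨true,0,⟨0,[(28,0)]⟩,⟨2,[(1,1),(27,0),(1,0),(2,0),(7,0),(1,1)]⟩⟩,⟨true,0,⟨0,[(48,0)]⟩,⟨0,[]⟩⟩,
  ⟨false,0,⟨0,[(4,0),(23,0),(0,0),(14,0)]⟩,⟨4,[(1,4),(1,2),(4,1),(2,0),(3,0),(10,0),(19,0)]⟩⟩,
  ⟨false,0,⟨0,[(44,0)]⟩,⟨15,[(9,3),(7,3),(6,3),(1,2),(0,2),(18,9)]⟩⟩,⟨false,0,⟨0,[(4,0),(23,0),(0,
  0),(14,1)]⟩,⟨29,[(1,29),(1,13),(4,5),(1,9),(0,2),(3,2),(1,9),(8,7),(19,2)]⟩⟩,[.o ⟨false,0,⟨0,[(44,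
  0)]⟩,⟨15,[(9,3),(6,3),(9,2),(0,2),(11,5),(6,3)]⟩⟩,.e ⟨true,0,⟨1,[(2,1),(11,0),(27,0),(1,0)]⟩,⟨0,
  [(4,0),(24,0),(18,0)]⟩⟩ ⟨true,0,⟨3,[(28,3),(5,0),(0,0),(6,1),(1,3)]⟩,⟨0,[(1,0)]⟩⟩,.o ⟨false,1,⟨2,
  [(11,0),(17,2),(9,1)]⟩,⟨1,[(3,0),(0,0),(23,0),(1,0),(1,0)]⟩⟩,.a ⟨true,0,⟨0,[(29,0)]⟩,⟨0,[(28,
  0)]⟩⟩ ⟨false,1,⟨5,[(11,1),(14,2),(12,0)]⟩,⟨0,[(4,0),(24,0)]⟩⟩ ⟨true,0,⟨0,[(28,0),(15,0)]⟩,⟨0,[(1,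
  0)]⟩⟩]⟩) (.R ⟨0,false,false,false,[1,0,0,-1],[0,1],[0,1,0,0,0,0,0,0,-1],(⟨0,[(28,0)]⟩,⟨0,[(29,
  0)]⟩),(⟨0,[(41,0)]⟩,⟨0,[(40,0)]⟩),⟨0,[(0,0)]⟩,.k,.k,(.x (-1) ⟨11,[(5,3),(14,3),(5,4),(0,4),(11,
  1)]⟩ ⟨0,[(41,0)]⟩),(.x (-1) ⟨11,[(5,3),(14,3),(5,4),(0,4),(11,1)]⟩ ⟨0,[(41,0)]⟩),.k,.k,⟨false,1,
  ⟨2,[(2,0),(5,0),(2,0),(6,0),(7,0),(16,0)]⟩,⟨0,[(4,0),(24,0),(14,0)]⟩⟩,⟨true,0,⟨0,[(28,0)]⟩,⟨6,[(0,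
  4),(4,1),(7,0),(15,1),(1,1),(2,3)]⟩⟩,⟨true,0,⟨0,[(48,0)]⟩,⟨0,[]⟩⟩,⟨false,0,⟨0,[(4,0),(23,0),(0,0),
  (14,0)]⟩,⟨4,[(1,4),(1,2),(4,1),(2,0),(3,0),(10,0),(19,0)]⟩⟩,⟨false,0,⟨0,[]⟩,⟨0,[]⟩⟩,⟨false,0,⟨0,
  []⟩,⟨0,[]⟩⟩,[.o ⟨false,0,⟨0,[(44,0)]⟩,⟨15,[(9,3),(6,3),(9,2),(0,2),(11,5),(6,3)]⟩⟩,.e ⟨true,0,⟨1,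
  [(2,1),(11,0),(27,0),(1,0)]⟩,⟨0,[(4,0),(24,0),(18,0)]⟩⟩ ⟨true,0,⟨3,[(28,3),(5,0),(0,0),(6,1),(1,
  3)]⟩,⟨0,[(1,0)]⟩⟩,.o ⟨false,1,⟨2,[(11,0),(17,2),(9,1)]⟩,⟨1,[(3,0),(0,0),(23,0),(1,0),(1,0)]⟩⟩,.a
  ⟨true,0,⟨0,[(29,0)]⟩,⟨0,[(28,0)]⟩⟩ ⟨false,1,⟨5,[(11,1),(14,2),(12,0)]⟩,⟨0,[(4,0),(24,0)]⟩⟩ ⟨true,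
  0,⟨0,[(28,0),(15,0)]⟩,⟨0,[(1,0)]⟩⟩]⟩)) (.R ⟨1,false,false,false,[1,0,0,-1],[0,1],[0,1,0,0,0,0,0,0,
  -1],(⟨0,[(27,0)]⟩,⟨0,[(28,0)]⟩),(⟨0,[(40,0)]⟩,⟨0,[(39,0)]⟩),⟨4,[(0,1),(3,1),(7,0),(1,0),(2,0),(2,
  0),(6,2)]⟩,.k,.k,(.x (-1) ⟨11,[(4,3),(14,3),(5,4),(0,4),(11,1)]⟩ ⟨0,[(40,0)]⟩),(.x (-1) ⟨11,[(4,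
  3),(14,3),(5,4),(0,4),(11,1)]⟩ ⟨0,[(40,0)]⟩),(.r (-1) ⟨21,[(1,7),(0,7),(3,3),(0,1),(1,15),(0,0),
  (3,0),(10,2)]⟩ ⟨2,[(3,2),(9,0),(14,2),(3,1),(0,1),(9,4),(3,0)]⟩),.k,⟨false,1,⟨2,[(1,0),(5,0),(2,
  0),(6,0),(7,0),(16,0)]⟩,⟨0,[(3,0),(24,0),(14,0)]⟩⟩,⟨true,0,⟨0,[(27,0)]⟩,⟨0,[(22,0),(5,0),(1,0)]⟩⟩,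
  ⟨true,0,⟨0,[(47,0)]⟩,⟨0,[]⟩⟩,⟨false,0,⟨2,[(0,1),(2,2),(9,0),(0,0),(13,1),(3,1)]⟩,⟨26,[(1,9),(0,
  12),(4,6),(1,6),(4,1),(2,2),(7,1),(2,26),(9,10)]⟩⟩,⟨false,0,⟨0,[(43,0)]⟩,⟨15,[(8,3),(7,3),(6,3),
  (1,2),(0,2),(18,9)]⟩⟩,⟨false,0,⟨2,[(0,1),(2,2),(9,0),(0,0),(13,1),(3,1),(10,2)]⟩,⟨10,[(1,4),(0,5),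
  (5,0),(0,5),(5,0),(0,0),(11,10),(9,4)]⟩⟩,[.o ⟨false,0,⟨0,[(43,0)]⟩,⟨15,[(8,3),(6,3),(9,2),(0,2),
  (11,5),(6,3)]⟩⟩,.a ⟨true,0,⟨0,[(0,0),(27,0)]⟩,⟨0,[(42,0)]⟩⟩ ⟨true,0,⟨1,[(1,1),(11,0),(27,0),(1,
  0)]⟩,⟨0,[(3,0),(24,0),(18,0)]⟩⟩ ⟨false,0,⟨0,[(0,0)]⟩,⟨47,[(10,15),(4,11),(1,23),(7,2),(0,2),(1,
  47),(3,11),(5,25)]⟩⟩,.o ⟨false,1,⟨2,[(10,0),(17,2),(9,1)]⟩,⟨1,[(2,0),(0,0),(23,0),(1,0),(1,0)]⟩⟩,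
  .e ⟨false,1,⟨5,[(10,1),(14,2),(12,0)]⟩,⟨0,[(3,0),(24,0)]⟩⟩ ⟨false,0,⟨0,[(0,0)]⟩,⟨15,[(8,3),(6,3),
  (9,2),(0,2),(1,15),(9,5),(6,3)]⟩⟩]⟩))) (.Q [0,0,0,0,0,-1,0,0,0,1,0,-1] (.p false [0,0,0,1] [1]
  (⟨0,[(26,0)]⟩,⟨0,[(25,0)]⟩) .k 1 (⟨0,[]⟩,⟨0,[]⟩) .k .k) (.Q [0,0,0,0,0,0,-1,-1,0,0,1,-1] (.p true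
  [0,0,1] [0,0,0,1] (⟨0,[(36,0)]⟩,⟨0,[(35,0)]⟩) .k 2 (⟨0,[(27,0)]⟩,⟨0,[(26,0)]⟩) .k (.r (-1) ⟨91,
  [(6,3),(2,3),(2,19),(3,11),(0,19),(4,7),(1,54),(0,8)]⟩ ⟨1,[(1,0),(0,0),(24,0),(6,1)]⟩)) (.I [0,0,
  -1,-1,1,0,0,1,-1] (.R ⟨1,false,false,false,[1,0,0,-1],[1,0,-1],[0,0,0,0,0,0,0,0,-1],(⟨0,[(28,0)]⟩,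
  ⟨0,[(29,0)]⟩),(⟨0,[(37,0)]⟩,⟨0,[(38,0)]⟩),⟨0,[(2,0)]⟩,.k,.k,(.x (-1) ⟨11,[(5,3),(14,3),(5,4),(0,
  4),(11,1)]⟩ ⟨0,[(41,0)]⟩),.k,(.r (-1) ⟨0,[(0,0)]⟩ ⟨3,[(3,0),(0,2),(24,2),(3,1),(0,1),(1,1),(7,
  3)]⟩),.k,⟨false,1,⟨0,[(0,0),(43,0)]⟩,⟨1,[(3,0),(0,0),(24,0),(6,1)]⟩⟩,⟨true,0,⟨0,[(28,0),(2,0)]⟩,
  ⟨0,[(23,0),(5,0)]⟩⟩,⟨false,1,⟨3,[(26,0),(0,0),(18,1)]⟩,⟨0,[]⟩⟩,⟨false,0,⟨3,[(3,0),(0,2),(1,0),(21,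
  0),(4,1),(8,1)]⟩,⟨2,[(0,0),(7,0),(5,0),(0,0),(7,1),(2,0),(2,2)]⟩⟩,⟨true,0,⟨0,[(44,0)]⟩,⟨0,[(43,
  0)]⟩⟩,⟨false,0,⟨3,[(3,0),(0,2),(1,0),(21,0),(4,1),(8,1),(1,3)]⟩,⟨0,[(0,0),(22,0),(5,0)]⟩⟩,[.e
  ⟨false,1,⟨5,[(11,1),(14,2),(12,0)]⟩,⟨1,[(3,0),(0,0),(24,0)]⟩⟩ ⟨false,0,⟨0,[(1,0)]⟩,⟨2,[(11,0),(7,
  0),(5,0),(3,2),(2,0),(6,0)]⟩⟩,.o ⟨false,1,⟨7,[(6,3),(19,0),(0,0),(11,1),(6,3)]⟩,⟨0,[(32,0)]⟩⟩,.o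
  ⟨false,1,⟨2,[(11,0),(17,2),(9,1)]⟩,⟨5,[(1,5),(12,1),(3,1),(4,0),(10,2),(7,0)]⟩⟩,.a ⟨true,0,⟨0,
  [(29,0)]⟩,⟨0,[(28,0)]⟩⟩ ⟨false,1,⟨1,[(0,1),(5,0),(8,0),(26,0),(1,1)]⟩,⟨1,[(3,0),(0,0),(24,0),(4,
  0),(0,0)]⟩⟩ ⟨true,0,⟨0,[(1,0)]⟩,⟨0,[(29,0),(2,0)]⟩⟩]⟩) (.R ⟨1,false,false,false,[1,0,0,-1],[1,0,
  -1],[0,1,0,0,0,0,0,0,-1],(⟨0,[(28,0)]⟩,⟨0,[(29,0)]⟩),(⟨0,[(37,0)]⟩,⟨0,[(38,0)]⟩),⟨0,[(2,0)]⟩,.k,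
  .k,(.x (-1) ⟨11,[(5,3),(14,3),(5,4),(0,4),(11,1)]⟩ ⟨0,[(41,0)]⟩),.k,(.x 0 ⟨4,[(5,2),(6,0),(10,1),
  (10,0)]⟩ ⟨23,[(11,3),(1,11),(12,8),(0,8),(11,1),(1,35)]⟩),.k,⟨false,1,⟨3,[(8,0),(2,0),(2,0),(9,0),
  (1,1),(5,1),(15,0)]⟩,⟨21,[(0,10),(2,0),(4,3),(2,1),(3,1),(1,10),(9,4),(14,5)]⟩⟩,⟨true,0,⟨0,[(28,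
  0),(2,0)]⟩,⟨0,[(23,0),(5,0)]⟩⟩,⟨true,0,⟨0,[(48,0)]⟩,⟨0,[]⟩⟩,⟨false,0,⟨6,[(0,0),(3,3),(1,2),(17,0),
  (2,0),(0,2),(13,1)]⟩,⟨5,[(8,2),(5,1),(0,2),(2,1),(4,0),(2,2),(2,5),(12,0)]⟩⟩,⟨false,0,⟨0,[(44,
  0)]⟩,⟨15,[(9,3),(7,3),(6,3),(1,2),(0,2),(18,9)]⟩⟩,⟨false,0,⟨5,[(0,3),(0,5),(12,1),(12,0),(18,2)]⟩,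
  ⟨1,[(8,0),(0,0),(4,0),(0,0),(1,0),(8,0),(2,1)]⟩⟩,[.e ⟨false,1,⟨5,[(11,1),(14,2),(12,0),(8,5)]⟩,⟨0,
  [(3,0),(38,0)]⟩⟩ ⟨false,0,⟨0,[(1,0)]⟩,⟨2,[(11,0),(7,0),(5,0),(3,2),(2,0),(6,0)]⟩⟩,.o ⟨false,1,⟨7,
  [(6,3),(19,0),(0,0),(11,1),(6,3)]⟩,⟨0,[(32,0)]⟩⟩,.o ⟨false,1,⟨2,[(11,0),(17,2),(9,1)]⟩,⟨5,[(1,5),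
  (12,1),(3,1),(4,0),(10,2),(7,0)]⟩⟩,.a ⟨true,0,⟨0,[(29,0)]⟩,⟨0,[(28,0)]⟩⟩ ⟨false,1,⟨5,[(11,1),(14,
  2),(12,0)]⟩,⟨71,[(0,25),(8,8),(0,2),(3,6),(9,8),(2,22),(14,44)]⟩⟩ ⟨true,0,⟨0,[(1,0)]⟩,⟨0,[(29,0),
  (2,0)]⟩⟩]⟩)) (.I [0,0,-1,-1,1,0,0,1,-1] (.R ⟨1,false,false,false,[1,0,0,-1],[1,0,-1],[0,0,0,0,0,0,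
  0,0,-1],(⟨0,[(28,0)]⟩,⟨0,[(29,0)]⟩),(⟨0,[(37,0)]⟩,⟨0,[(38,0)]⟩),⟨0,[(2,0)]⟩,.k,.k,(.x (-1) ⟨11,
  [(5,3),(14,3),(5,4),(0,4),(11,1)]⟩ ⟨0,[(41,0)]⟩),.k,(.r (-1) ⟨0,[(0,0)]⟩ ⟨3,[(3,0),(0,2),(24,2),
  (3,1),(0,1),(1,1),(7,3)]⟩),.k,⟨false,1,⟨0,[(0,0),(43,0)]⟩,⟨1,[(3,0),(0,0),(24,0),(6,1)]⟩⟩,⟨true,0,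
  ⟨0,[(28,0),(2,0)]⟩,⟨0,[(23,0),(5,0)]⟩⟩,⟨false,1,⟨3,[(26,0),(0,0),(18,1)]⟩,⟨0,[]⟩⟩,⟨false,0,⟨3,[(3,
  0),(0,2),(1,0),(21,0),(4,1),(8,1)]⟩,⟨5,[(1,5),(9,1),(14,2),(12,0)]⟩⟩,⟨true,0,⟨0,[(44,0)]⟩,⟨0,[(43,
  0)]⟩⟩,⟨false,0,⟨3,[(3,0),(0,2),(1,0),(21,0),(4,1),(8,1),(1,3)]⟩,⟨19,[(1,19),(5,3),(2,7),(15,10),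
  (0,0)]⟩⟩,[.a ⟨true,0,⟨1,[(6,0),(21,0),(0,0)]⟩,⟨0,[(1,0),(26,0)]⟩⟩ ⟨false,1,⟨5,[(11,1),(14,2),(12,
  0)]⟩,⟨1,[(3,0),(0,0),(24,0)]⟩⟩ ⟨true,0,⟨1,[(6,0),(21,1),(2,0),(2,0)]⟩,⟨0,[(1,0)]⟩⟩,.o ⟨false,1,⟨7,
  [(6,3),(19,0),(0,0),(11,1),(6,3)]⟩,⟨0,[(32,0)]⟩⟩,.o ⟨false,1,⟨2,[(11,0),(17,2),(9,1)]⟩,⟨0,[(23,0),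
  (4,0),(2,0)]⟩⟩,.e ⟨false,1,⟨1,[(0,1),(5,0),(8,0),(26,0),(1,1)]⟩,⟨1,[(3,0),(0,0),(24,0),(4,0),(0,
  0)]⟩⟩ ⟨false,1,⟨7,[(6,3),(19,0),(0,0),(0,7),(10,1),(6,3)]⟩,⟨0,[(1,0)]⟩⟩]⟩) (.R ⟨1,false,false,
  false,[1,0,0,-1],[1,0,-1],[0,1,0,0,0,0,0,0,-1],(⟨0,[(28,0)]⟩,⟨0,[(29,0)]⟩),(⟨0,[(37,0)]⟩,⟨0,[(38,
  0)]⟩),⟨0,[(2,0)]⟩,.k,.k,(.x (-1) ⟨11,[(5,3),(14,3),(5,4),(0,4),(11,1)]⟩ ⟨0,[(41,0)]⟩),.k,(.x 0 ⟨4,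
  [(5,2),(6,0),(10,1),(10,0)]⟩ ⟨23,[(11,3),(1,11),(12,8),(0,8),(11,1),(1,35)]⟩),.k,⟨false,1,⟨3,[(8,
  0),(2,0),(2,0),(9,0),(1,1),(5,1),(15,0)]⟩,⟨21,[(0,10),(2,0),(4,3),(2,1),(3,1),(1,10),(9,4),(14,
  5)]⟩⟩,⟨true,0,⟨0,[(28,0),(2,0)]⟩,⟨9,[(0,1),(0,5),(5,1),(17,1),(0,0),(2,3),(9,0)]⟩⟩,⟨true,0,⟨0,
  [(48,0)]⟩,⟨0,[]⟩⟩,⟨false,0,⟨6,[(0,0),(3,3),(1,2),(17,0),(2,0),(0,2),(13,1)]⟩,⟨5,[(1,5),(9,1),(14,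
  2),(12,0)]⟩⟩,⟨false,0,⟨0,[(44,0)]⟩,⟨15,[(9,3),(7,3),(6,3),(1,2),(0,2),(18,9)]⟩⟩,⟨false,0,⟨11,[(0,
  3),(3,5),(1,5),(7,1),(12,0),(0,5),(15,5),(1,2)]⟩,⟨19,[(1,19),(5,3),(2,7),(15,10),(0,0)]⟩⟩,[.a
  ⟨true,0,⟨1,[(6,0),(21,0),(0,0)]⟩,⟨0,[(1,0),(26,0)]⟩⟩ ⟨false,1,⟨5,[(11,1),(14,2),(12,0),(8,5)]⟩,⟨0,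
  [(3,0),(38,0)]⟩⟩ ⟨true,0,⟨1,[(6,0),(21,1),(2,0),(2,0)]⟩,⟨0,[(1,0)]⟩⟩,.o ⟨false,1,⟨7,[(6,3),(19,0),
  (0,0),(11,1),(6,3)]⟩,⟨0,[(32,0)]⟩⟩,.o ⟨false,1,⟨2,[(11,0),(17,2),(9,1)]⟩,⟨0,[(23,0),(4,0),(2,
  0)]⟩⟩,.e ⟨false,1,⟨5,[(11,1),(14,2),(12,0)]⟩,⟨71,[(0,25),(8,8),(0,2),(3,6),(9,8),(2,22),(14,
  44)]⟩⟩ ⟨false,1,⟨7,[(6,3),(19,0),(0,0),(0,7),(10,1),(6,3)]⟩,⟨0,[(1,0)]⟩⟩]⟩))) (.R ⟨0,false,false,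
  false,[1,0,0,-1],[1,0,-1],[0,1,0,0,0,0,0,0,-1],(⟨0,[(26,0)]⟩,⟨0,[(27,0)]⟩),(⟨0,[(35,0)]⟩,⟨0,[(36,
  0)]⟩),⟨0,[(0,0)]⟩,.k,.k,(.x (-1) ⟨11,[(3,3),(14,3),(5,4),(0,4),(11,1)]⟩ ⟨0,[(39,0)]⟩),.k,.k,.k,
  ⟨false,1,⟨3,[(6,0),(2,0),(2,0),(9,0),(1,1),(5,1),(15,0)]⟩,⟨0,[(1,0),(32,0),(5,0)]⟩⟩,⟨true,0,⟨0,
  [(26,0),(2,0)]⟩,⟨0,[(21,0),(5,0)]⟩⟩,⟨true,0,⟨0,[(46,0)]⟩,⟨0,[]⟩⟩,⟨false,0,⟨3,[(1,0),(0,2),(1,0),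
  (21,0),(4,1),(8,1)]⟩,⟨29,[(0,9),(2,3),(2,8),(1,0),(2,1),(0,6),(0,18),(2,4),(0,4),(6,14),(2,19)]⟩⟩,
  ⟨false,0,⟨0,[]⟩,⟨0,[]⟩⟩,⟨false,0,⟨0,[]⟩,⟨0,[]⟩⟩,[.a ⟨true,0,⟨1,[(4,0),(21,0),(0,0)]⟩,⟨7,[(10,0),
  (1,3),(0,4),(8,3),(12,1),(2,0),(1,1)]⟩⟩ ⟨false,1,⟨5,[(9,1),(14,2),(12,0),(8,5)]⟩,⟨0,[(1,0),(38,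
  0)]⟩⟩ ⟨true,0,⟨1,[(4,0),(21,1),(2,0),(2,0)]⟩,⟨5,[(0,4),(2,1),(7,0),(0,3),(0,4),(1,1),(6,1),(4,
  0)]⟩⟩,.o ⟨false,1,⟨7,[(4,3),(19,0),(0,0),(11,1),(6,3)]⟩,⟨0,[(30,0)]⟩⟩,.o ⟨false,1,⟨2,[(9,0),(17,
  2),(9,1)]⟩,⟨0,[(21,0),(4,0),(2,0)]⟩⟩,.e ⟨false,1,⟨5,[(9,1),(14,2),(12,0)]⟩,⟨0,[(2,0),(24,0)]⟩⟩
  ⟨false,1,⟨7,[(4,3),(19,0),(0,0),(0,7),(10,1),(6,3)]⟩,⟨5,[(0,4),(2,1),(7,0),(0,3),(0,4),(1,1),(6,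
  1),(4,0)]⟩⟩]⟩)))))

theorem ok34 : chk (cU (-1) true 10) t34 r27 = true := by decide +kernel

noncomputable def t37 : Tre :=
  (.I [0,0,-2,0,1,2,-1] (.K ⟨0,[1,1,-1],1,0,(⟨1,[(0,0),(0,0),(28,0)]⟩,⟨0,[(15,0)]⟩),.k,.k,(.x (-1)
  ⟨0,[(0,0)]⟩ ⟨2,[(6,0),(8,4),(11,4)]⟩),.k,.k,[⟨0,[(1,0)]⟩,⟨0,[(4,0),(19,0)]⟩,⟨91,[(1,53),(2,37),(2,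
  5),(3,67),(0,5),(4,29),(1,4),(0,4)]⟩,⟨0,[(23,0),(13,0)]⟩]⟩) (.K ⟨2,[0,1,1],0,0,(⟨0,[(31,0),(2,
  0)]⟩,⟨0,[(13,0)]⟩),.k,.k,(.r 0 ⟨3,[(1,1),(5,1),(11,0),(0,0),(3,1),(12,5)]⟩ ⟨32,[(3,2),(0,19),(4,
  23),(0,11),(7,11),(13,3),(6,5)]⟩),.k,(.r 0 ⟨0,[(0,1),(2,1),(2,0),(27,4),(2,4)]⟩ ⟨23,[(4,7),(4,7),
  (0,7),(7,3),(0,6),(0,6),(8,31),(2,1)]⟩),[⟨5,[(1,1),(17,0),(0,0),(3,1)]⟩,⟨0,[(8,0)]⟩,⟨5,[(1,1),(17,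
  0),(0,0),(3,1),(3,5)]⟩,⟨0,[(16,0)]⟩,⟨37,[(1,5),(2,3),(4,9),(0,5),(6,11),(1,0),(0,0),(5,21)]⟩,⟨0,
  [(25,0),(11,0)]⟩]⟩))

theorem ok37 : chk (cU (-1) true 10) t37 r25 = true := by decide +kernel

noncomputable def t45 : Tre :=
  (.R ⟨1,false,false,false,[1,-1],[1,0,-1],[0,0,1],(⟨0,[(32,0)]⟩,⟨0,[(33,0)]⟩),(⟨0,[(29,0)]⟩,⟨0,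
  [(30,0)]⟩),⟨0,[(12,0),(1,0)]⟩,.k,.k,(.r (-1) ⟨5,[(6,3),(1,0),(0,1),(7,0),(7,0),(11,1)]⟩ ⟨0,[(0,0),
  (23,0),(1,0),(0,0)]⟩),.k,(.r (-1) ⟨0,[(6,0)]⟩ ⟨1,[(0,1),(25,2),(0,0),(12,1)]⟩),.k,⟨true,0,⟨1,[(4,
  0),(19,0),(2,0)]⟩,⟨0,[(28,0)]⟩⟩,⟨false,1,⟨3,[(0,1),(0,0),(3,0),(0,0),(9,1),(20,1)]⟩,⟨0,[(26,0)]⟩⟩,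
  ⟨false,0,⟨1,[(0,0),(3,0),(21,1),(0,0)]⟩,⟨11,[(6,3),(1,0),(0,1),(7,0),(7,0),(11,7)]⟩⟩,⟨true,0,⟨1,
  [(0,0),(24,0)]⟩,⟨0,[(10,0)]⟩⟩,⟨false,0,⟨1,[(0,1),(3,0),(19,0),(1,1),(0,0)]⟩,⟨5,[(6,3),(1,0),(0,1),
  (7,0),(7,0),(11,1)]⟩⟩,⟨false,0,⟨0,[(0,0)]⟩,⟨0,[(10,0),(24,0),(2,0)]⟩⟩,[.a ⟨true,0,⟨2,[(0,0),(8,0),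
  (6,0),(8,0)]⟩,⟨0,[(1,0)]⟩⟩ ⟨true,0,⟨1,[(26,0),(0,0)]⟩,⟨0,[]⟩⟩ ⟨false,1,⟨7,[(0,2),(5,1),(2,1),(15,
  4),(11,5)]⟩,⟨1,[(4,0),(19,0),(1,0)]⟩⟩,.o ⟨false,1,⟨7,[(3,3),(14,0),(0,0),(11,1),(6,3)]⟩,⟨0,[(24,
  0)]⟩⟩,.o ⟨false,0,⟨0,[(15,0),(7,0)]⟩,⟨3,[(18,0),(0,0),(17,1)]⟩⟩,.o ⟨false,0,⟨0,[(23,0),(2,0)]⟩,⟨0,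
  [(37,0)]⟩⟩]⟩)

theorem ok45 : chk (cU (-1) true 10) t45 l34 = true := by decide +kernel

noncomputable def t48 : Tre :=
  (.I [1,-1,0,0,0,0,0,-1,1] (.I [0,0,-1,-1,1,0,0,1,-1] (.I [0,0,0,0,0,0,0,0,1] (.Q [0,0,0,0,0,0,-1,
  -1,0,0,1,-1] (.p true [0,0,1] [0,0,0,1] (⟨0,[(35,0)]⟩,⟨0,[(34,0)]⟩) .k 2 (⟨0,[(26,0)]⟩,⟨0,[(25,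
  0)]⟩) .k (.r (-1) ⟨1,[(16,0),(6,0),(21,0)]⟩ ⟨3,[(0,1),(1,1),(19,0),(4,0),(2,0)]⟩)) (.Q [0,0,0,0,0,
  -1,0,0,0,1,0,-1] (.p false [0,0,0,1] [1] (⟨0,[(27,0)]⟩,⟨0,[(26,0)]⟩) .k 1 (⟨0,[]⟩,⟨0,[]⟩) .k .k)
  (.R ⟨1,false,false,false,[1,0,0,-1],[1,0,-1],[0,0,0,0,0,0,0,0,-1],(⟨0,[(27,0)]⟩,⟨0,[(28,0)]⟩),(⟨0,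
  [(36,0)]⟩,⟨0,[(37,0)]⟩),⟨0,[(0,0)]⟩,.k,.k,(.x (-1) ⟨15,[(5,3),(0,3),(18,6),(0,6),(11,1)]⟩ ⟨0,[(40,
  0)]⟩),.k,(.r (-1) ⟨0,[(3,0)]⟩ ⟨3,[(2,1),(1,1),(27,1),(0,2),(0,0),(8,3)]⟩),.k,⟨false,1,⟨0,[(3,0),
  (39,0)]⟩,⟨3,[(2,1),(1,1),(19,0),(4,0),(2,0)]⟩⟩,⟨true,0,⟨0,[(27,0),(2,0)]⟩,⟨0,[(22,0),(5,0)]⟩⟩,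
  ⟨false,1,⟨3,[(25,0),(0,0),(18,1)]⟩,⟨0,[]⟩⟩,⟨false,0,⟨0,[(4,0),(22,0),(2,0)]⟩,⟨0,[(3,0),(18,0),(5,
  0),(14,0)]⟩⟩,⟨true,0,⟨0,[(43,0)]⟩,⟨1,[(7,0),(24,0)]⟩⟩,⟨false,0,⟨0,[(4,0),(22,0),(2,0),(12,0)]⟩,⟨0,
  [(3,0),(18,0),(5,0)]⟩⟩,[.e ⟨false,1,⟨1,[(25,0),(18,0)]⟩,⟨0,[(2,0)]⟩⟩ ⟨false,0,⟨0,[(1,0)]⟩,⟨5,[(18,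
  1),(5,1),(3,5),(2,1),(6,0),(5,2)]⟩⟩,.o ⟨false,1,⟨7,[(10,3),(14,0),(0,0),(11,1),(6,3)]⟩,⟨0,[(31,
  0)]⟩⟩,.o ⟨false,1,⟨1,[(28,1),(9,0),(5,0)]⟩,⟨1,[(1,1),(9,0),(19,0),(1,0)]⟩⟩,.a ⟨true,0,⟨0,[(28,
  0)]⟩,⟨0,[(27,0)]⟩⟩ ⟨false,1,⟨0,[(3,0),(12,0),(26,1)]⟩,⟨1,[(2,1),(30,0),(0,0)]⟩⟩ ⟨true,0,⟨0,[(1,
  0)]⟩,⟨0,[(28,0),(2,0)]⟩⟩]⟩) (.R ⟨0,false,false,false,[1,0,0,-1],[1,0,-1],[1,0,0,0,0,0,0,0,-1],(⟨0,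
  [(27,0)]⟩,⟨0,[(28,0)]⟩),(⟨0,[(36,0)]⟩,⟨0,[(37,0)]⟩),⟨0,[(0,0)]⟩,.k,.k,(.x (-1) ⟨15,[(5,3),(0,3),
  (18,6),(0,6),(11,1)]⟩ ⟨0,[(40,0)]⟩),.k,.k,.k,⟨false,1,⟨0,[(3,0),(39,0)]⟩,⟨3,[(2,1),(1,1),(19,0),
  (4,0),(2,0)]⟩⟩,⟨true,0,⟨0,[(27,0),(2,0)]⟩,⟨5,[(0,3),(4,0),(0,0),(17,2),(3,1)]⟩⟩,⟨true,0,⟨0,[]⟩,⟨0,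
  [(47,0)]⟩⟩,⟨false,0,⟨0,[(4,0),(22,0),(2,0)]⟩,⟨3,[(0,3),(4,0),(0,0),(1,3),(3,1),(11,0),(0,1)]⟩⟩,
  ⟨false,0,⟨0,[]⟩,⟨0,[]⟩⟩,⟨false,0,⟨0,[]⟩,⟨0,[]⟩⟩,[.e ⟨false,1,⟨1,[(25,0),(18,0)]⟩,⟨0,[(2,0)]⟩⟩
  ⟨false,0,⟨0,[(1,0)]⟩,⟨5,[(18,1),(5,1),(3,5),(2,1),(6,0),(5,2)]⟩⟩,.o ⟨false,1,⟨7,[(10,3),(14,0),(0,
  0),(11,1),(6,3)]⟩,⟨0,[(31,0)]⟩⟩,.o ⟨false,1,⟨1,[(28,1),(9,0),(5,0)]⟩,⟨1,[(1,1),(9,0),(19,0),(1,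
  0)]⟩⟩,.a ⟨true,0,⟨0,[(28,0)]⟩,⟨0,[(27,0)]⟩⟩ ⟨false,1,⟨0,[(3,0),(12,0),(26,1)]⟩,⟨1,[(2,1),(30,0),
  (0,0)]⟩⟩ ⟨true,0,⟨0,[(1,0)]⟩,⟨0,[(28,0),(2,0)]⟩⟩]⟩)) (.Q [0,0,0,0,0,1,0,0,0,-1,0,1] (.p true [0,0,
  0,1] [1] (⟨0,[(27,0)]⟩,⟨0,[(26,0)]⟩) .k 1 (⟨0,[]⟩,⟨0,[]⟩) .k .k) (.R ⟨0,false,false,false,[1,0,0,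
  -1],[1,0,-1],[1,0,0,0,0,0,0,0,-1],(⟨0,[(27,0)]⟩,⟨0,[(28,0)]⟩),(⟨0,[(36,0)]⟩,⟨0,[(37,0)]⟩),⟨0,[(0,
  0)]⟩,.k,.k,(.x (-1) ⟨15,[(5,3),(0,3),(18,6),(0,6),(11,1)]⟩ ⟨0,[(40,0)]⟩),.k,.k,.k,⟨false,1,⟨0,[(3,
  0),(39,0)]⟩,⟨3,[(2,1),(1,1),(19,0),(4,0),(2,0)]⟩⟩,⟨true,0,⟨0,[(27,0),(2,0)]⟩,⟨5,[(0,3),(4,0),(0,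
  0),(17,2),(3,1)]⟩⟩,⟨true,0,⟨0,[]⟩,⟨0,[(47,0)]⟩⟩,⟨false,0,⟨0,[(4,0),(22,0),(2,0)]⟩,⟨1,[(1,1),(23,
  0),(18,0)]⟩⟩,⟨false,0,⟨0,[]⟩,⟨0,[]⟩⟩,⟨false,0,⟨0,[]⟩,⟨0,[]⟩⟩,[.a ⟨true,0,⟨1,[(10,0),(16,0),(0,
  0)]⟩,⟨0,[(8,0)]⟩⟩ ⟨false,1,⟨1,[(25,0),(18,0)]⟩,⟨0,[(2,0)]⟩⟩ ⟨true,0,⟨1,[(10,0),(16,1),(2,0),(2,
  0)]⟩,⟨0,[(1,0)]⟩⟩,.o ⟨false,1,⟨7,[(10,3),(14,0),(0,0),(11,1),(6,3)]⟩,⟨0,[(31,0)]⟩⟩,.o ⟨false,1,⟨1,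
  [(28,1),(9,0),(5,0)]⟩,⟨0,[(22,0),(4,0),(2,0)]⟩⟩,.e ⟨false,1,⟨0,[(3,0),(12,0),(26,1)]⟩,⟨1,[(2,1),
  (30,0),(0,0)]⟩⟩ ⟨false,1,⟨7,[(10,3),(14,0),(0,0),(0,7),(10,1),(6,3)]⟩,⟨0,[(1,0)]⟩⟩]⟩) (.R ⟨1,
  false,false,false,[1,0,0,-1],[1,0,-1],[0,0,0,0,0,0,0,0,-1],(⟨0,[(27,0)]⟩,⟨0,[(28,0)]⟩),(⟨0,[(36,
  0)]⟩,⟨0,[(37,0)]⟩),⟨0,[(0,0)]⟩,.k,.k,(.x (-1) ⟨15,[(5,3),(0,3),(18,6),(0,6),(11,1)]⟩ ⟨0,[(40,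
  0)]⟩),.k,(.r (-1) ⟨0,[(3,0)]⟩ ⟨3,[(2,1),(1,1),(27,1),(0,2),(0,0),(8,3)]⟩),.k,⟨false,1,⟨0,[(3,0),
  (39,0)]⟩,⟨3,[(2,1),(1,1),(19,0),(4,0),(2,0)]⟩⟩,⟨true,0,⟨0,[(27,0),(2,0)]⟩,⟨0,[(22,0),(5,0)]⟩⟩,
  ⟨false,1,⟨3,[(25,0),(0,0),(18,1)]⟩,⟨0,[]⟩⟩,⟨false,0,⟨0,[(4,0),(22,0),(2,0)]⟩,⟨1,[(1,1),(23,0),(18,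
  0)]⟩⟩,⟨true,0,⟨0,[(43,0)]⟩,⟨1,[(7,0),(24,0)]⟩⟩,⟨false,0,⟨0,[(4,0),(22,0),(2,0),(12,0)]⟩,⟨17,[(1,
  15),(11,5),(1,1),(0,1),(7,1),(0,8),(2,1),(15,2)]⟩⟩,[.a ⟨true,0,⟨1,[(10,0),(16,0),(0,0)]⟩,⟨0,[(8,
  0)]⟩⟩ ⟨false,1,⟨1,[(25,0),(18,0)]⟩,⟨0,[(2,0)]⟩⟩ ⟨true,0,⟨1,[(10,0),(16,1),(2,0),(2,0)]⟩,⟨0,[(1,
  0)]⟩⟩,.o ⟨false,1,⟨7,[(10,3),(14,0),(0,0),(11,1),(6,3)]⟩,⟨0,[(31,0)]⟩⟩,.o ⟨false,1,⟨1,[(28,1),(9,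
  0),(5,0)]⟩,⟨0,[(22,0),(4,0),(2,0)]⟩⟩,.e ⟨false,1,⟨0,[(3,0),(12,0),(26,1)]⟩,⟨1,[(2,1),(30,0),(0,
  0)]⟩⟩ ⟨false,1,⟨7,[(10,3),(14,0),(0,0),(0,7),(10,1),(6,3)]⟩,⟨0,[(1,0)]⟩⟩]⟩))) (.Q [0,0,0,0,0,-1,0,
  0,0,0,0,1] (.p true [0,0,0,1] [] (⟨0,[(26,0)]⟩,⟨0,[(25,0)]⟩) .k 0 (⟨0,[]⟩,⟨0,[]⟩) .k .k) (.R ⟨1,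
  false,false,false,[0,0,0,1],[0,0,1],[0,1,0,0,0,0,0,0,1],(⟨0,[(27,0)]⟩,⟨0,[(26,0)]⟩),(⟨0,[(36,0)]⟩,
  ⟨0,[(35,0)]⟩),⟨0,[(0,0)]⟩,.k,.k,(.r (-1) ⟨11,[(12,3),(1,0),(0,1),(7,0),(1,5),(5,0),(11,1)]⟩ ⟨1,
  [(1,1),(30,0),(0,0),(8,1)]⟩),.k,(.r (-1) ⟨3,[(14,0),(0,1),(7,0),(1,1),(5,0),(11,1)]⟩ ⟨1,[(1,1),(8,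
  0),(19,0),(2,0),(8,1)]⟩),.k,⟨true,0,⟨0,[(3,0),(42,1)]⟩,⟨0,[(1,0),(8,0)]⟩⟩,⟨false,1,⟨0,[(11,0),(11,
  0),(3,0)]⟩,⟨0,[(26,0),(2,0)]⟩⟩,⟨true,0,⟨0,[(46,0)]⟩,⟨0,[]⟩⟩,⟨false,1,⟨2,[(1,2),(5,0),(3,1),(5,0),
  (3,1),(1,0),(3,2),(12,0)]⟩,⟨0,[(3,0),(22,0),(2,0),(16,0)]⟩⟩,⟨false,0,⟨0,[(42,0)]⟩,⟨15,[(6,3),(8,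
  3),(6,3),(1,2),(0,2),(18,9)]⟩⟩,⟨false,1,⟨2,[(1,2),(5,0),(3,1),(5,0),(3,1),(1,0),(3,2),(12,0),(1,
  2)]⟩,⟨1,[(3,1),(2,0),(19,1),(2,1),(1,0)]⟩⟩,[.a ⟨true,0,⟨0,[(7,0)]⟩,⟨1,[(9,0),(16,0),(0,0)]⟩⟩
  ⟨true,0,⟨0,[(3,0),(18,0),(7,0),(11,0)]⟩,⟨3,[(1,3),(30,0),(0,0),(6,1)]⟩⟩ ⟨false,1,⟨0,[(7,0),(3,0),
  (9,0),(5,0)]⟩,⟨1,[(9,0),(16,1),(2,0),(2,0)]⟩⟩,.o ⟨false,1,⟨3,[(17,1),(5,1),(13,0),(6,0)]⟩,⟨0,[(28,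
  0)]⟩⟩,.o ⟨false,0,⟨0,[(21,0),(4,0),(2,0)]⟩,⟨1,[(27,1),(9,0),(5,0)]⟩⟩,.o ⟨false,0,⟨0,[(26,0),(2,0),
  (2,0)]⟩,⟨0,[(11,0),(9,0),(5,0)]⟩⟩]⟩) (.R ⟨0,false,false,false,[0,0,0,1],[0,0,1],[1],(⟨0,[(27,0)]⟩,
  ⟨0,[(26,0)]⟩),(⟨0,[(36,0)]⟩,⟨0,[(35,0)]⟩),⟨0,[(0,0)]⟩,.k,.k,(.r (-1) ⟨11,[(12,3),(1,0),(0,1),(7,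
  0),(1,5),(5,0),(11,1)]⟩ ⟨1,[(1,1),(30,0),(0,0),(8,1)]⟩),.k,.k,.k,⟨true,0,⟨0,[(34,0)]⟩,⟨1,[(10,0),
  (19,0),(2,0)]⟩⟩,⟨false,1,⟨0,[(11,0),(11,0),(3,0)]⟩,⟨0,[(26,0),(2,0)]⟩⟩,⟨true,0,⟨0,[(1,0)]⟩,⟨0,[(3,
  0),(18,0),(7,0),(11,0)]⟩⟩,⟨false,1,⟨2,[(1,2),(5,0),(3,1),(5,0),(3,1),(1,0),(3,2),(12,0)]⟩,⟨0,[(3,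
  0),(22,0),(2,0),(16,0)]⟩⟩,⟨false,0,⟨0,[]⟩,⟨0,[]⟩⟩,⟨false,0,⟨0,[]⟩,⟨0,[]⟩⟩,[.a ⟨true,0,⟨0,[(7,0)]⟩,
  ⟨1,[(9,0),(16,0),(0,0)]⟩⟩ ⟨true,0,⟨0,[]⟩,⟨1,[(32,0),(0,0)]⟩⟩ ⟨false,1,⟨0,[(7,0),(3,0),(9,0),(5,
  0)]⟩,⟨1,[(9,0),(16,1),(2,0),(2,0)]⟩⟩,.o ⟨false,1,⟨3,[(17,1),(5,1),(13,0),(6,0)]⟩,⟨0,[(28,0)]⟩⟩,.o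
  ⟨false,0,⟨5,[(0,3),(3,0),(0,0),(20,1),(2,2),(2,2)]⟩,⟨1,[(27,1),(9,0),(5,0)]⟩⟩,.o ⟨false,0,⟨0,[(26,
  0),(2,0),(2,0)]⟩,⟨0,[(11,0),(9,0),(5,0)]⟩⟩]⟩))) (.Q [0,0,0,0,0,-1,0,0,0,1,0,-1] (.p false [0,0,0,
  1] [1] (⟨0,[(25,0)]⟩,⟨0,[(24,0)]⟩) .k 1 (⟨0,[]⟩,⟨0,[]⟩) .k .k) (.Q [0,0,0,0,0,0,-1,-1,0,0,1,-1]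
  (.p true [0,0,1] [0,0,0,1] (⟨0,[(35,0)]⟩,⟨0,[(34,0)]⟩) .k 2 (⟨0,[(26,0)]⟩,⟨0,[(25,0)]⟩) .k (.r
  (-1) ⟨1,[(16,0),(6,0),(21,0)]⟩ ⟨5,[(1,1),(0,1),(10,0),(8,0),(1,0),(5,0),(11,0)]⟩)) (.Q [0,-1,-3,0,
  2,0,-1,0,-1,-1,1,1] (.p true [0,0,1] [1,0,0,-1] (⟨0,[(36,0)]⟩,⟨0,[(35,0)]⟩) .k 2 (⟨0,[(26,0)]⟩,⟨0,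
  [(27,0)]⟩) .k (.r 0 ⟨5,[(2,5),(4,2),(3,0),(0,2),(0,1),(3,1),(12,1)]⟩ ⟨3,[(24,2),(0,0),(8,3)]⟩))
  (.Q [0,0,-1,-1,1,0,1,1,-1,0,-1,1] (.p false [0,0,1] [0,0,0,1] (⟨0,[(37,0)]⟩,⟨0,[(36,0)]⟩) .k 2
  (⟨0,[(28,0)]⟩,⟨0,[(27,0)]⟩) .k (.r (-1) ⟨1,[(18,0),(6,0),(21,0)]⟩ ⟨5,[(3,1),(0,1),(10,0),(8,0),(1,
  0),(5,0),(11,0)]⟩)) (.R ⟨1,false,false,false,[1,0,0,-1],[1,0,-1],[0,1,0,0,0,0,0,0,-1],(⟨0,[(28,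
  0)]⟩,⟨0,[(29,0)]⟩),(⟨0,[(37,0)]⟩,⟨0,[(38,0)]⟩),⟨0,[(3,0)]⟩,.k,.k,(.x (-1) ⟨15,[(6,3),(0,3),(18,6),
  (0,6),(11,1)]⟩ ⟨0,[(41,0)]⟩),.k,(.x 0 ⟨1,[(7,0),(15,1),(14,0)]⟩ ⟨9,[(13,1),(1,3),(10,2),(0,2),(9,
  9),(1,1),(1,9)]⟩),.k,⟨false,1,⟨1,[(9,0),(3,0),(10,0),(1,0),(5,0),(11,0)]⟩,⟨0,[(5,0)]⟩⟩,⟨true,0,⟨0,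
  [(28,0),(2,0)]⟩,⟨0,[(23,0),(5,0)]⟩⟩,⟨true,0,⟨0,[(48,0)]⟩,⟨0,[]⟩⟩,⟨false,0,⟨6,[(2,5),(1,1),(0,0),
  (2,0),(3,0),(2,0),(11,1),(0,0),(13,2)]⟩,⟨0,[(0,0),(43,0)]⟩⟩,⟨false,0,⟨0,[(44,0)]⟩,⟨15,[(8,3),(8,
  3),(6,3),(1,2),(0,2),(18,9)]⟩⟩,⟨false,0,⟨7,[(2,5),(1,5),(14,1),(7,0),(0,1),(2,1),(12,1),(1,2)]⟩,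
  ⟨0,[(0,0)]⟩⟩,[.e ⟨false,1,⟨1,[(26,0),(18,0),(2,1)]⟩,⟨7,[(4,5),(0,1),(3,0),(3,0),(0,2),(4,1),(22,
  1)]⟩⟩ ⟨false,0,⟨0,[(2,0)]⟩,⟨5,[(1,1),(7,0),(9,0),(3,1),(1,0),(1,0),(1,3),(2,2)]⟩⟩,.o ⟨false,1,⟨7,
  [(11,3),(14,0),(0,0),(11,1),(6,3)]⟩,⟨0,[(32,0)]⟩⟩,.o ⟨false,1,⟨1,[(29,1),(9,0),(5,0)]⟩,⟨1,[(2,1),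
  (9,0),(19,0),(1,0)]⟩⟩,.a ⟨true,0,⟨0,[(29,0)]⟩,⟨0,[(28,0)]⟩⟩ ⟨false,1,⟨1,[(26,0),(18,0)]⟩,⟨9,[(4,
  2),(0,0),(2,0),(3,2),(11,0),(2,2),(14,3)]⟩⟩ ⟨true,0,⟨0,[(2,0)]⟩,⟨0,[(29,0),(2,0)]⟩⟩]⟩) (.K ⟨0,[0,
  0,0,1],0,(-1),(⟨0,[(29,0)]⟩,⟨0,[(28,0)]⟩),.k,(.r 0 ⟨0,[(4,0),(9,0)]⟩ ⟨3,[(26,2),(0,0),(6,1),(0,1),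
  (8,3)]⟩),(.x 0 ⟨0,[(41,0)]⟩ ⟨15,[(6,3),(0,3),(18,6),(0,6),(11,1)]⟩),.k,.k,[⟨0,[(29,0)]⟩,⟨0,[(28,
  0)]⟩,⟨5,[(1,1),(7,0),(15,0),(0,1),(2,3),(3,0),(14,6)]⟩,⟨0,[(0,0),(17,0)]⟩]⟩)) (.K ⟨0,[0,0,0,1],0,
  (-1),(⟨0,[(28,0)]⟩,⟨0,[(27,0)]⟩),.k,(.r 0 ⟨0,[(3,0),(9,0)]⟩ ⟨3,[(25,2),(0,0),(6,1),(0,1),(8,3)]⟩),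
  (.x 0 ⟨0,[(40,0)]⟩ ⟨15,[(5,3),(0,3),(18,6),(0,6),(11,1)]⟩),.k,.k,[⟨0,[(28,0)]⟩,⟨0,[(27,0)]⟩,⟨1,
  [(25,0),(2,1),(15,0),(2,1)]⟩,⟨0,[(0,0),(11,0)]⟩]⟩)) (.R ⟨1,false,false,false,[1,0,0,-1],[1,0,-1],
  [0,1,0,0,0,0,0,0,-1],(⟨0,[(26,0)]⟩,⟨0,[(27,0)]⟩),(⟨0,[(35,0)]⟩,⟨0,[(36,0)]⟩),⟨0,[(1,0)]⟩,.k,.k,
  (.x (-1) ⟨15,[(4,3),(0,3),(18,6),(0,6),(11,1)]⟩ ⟨0,[(39,0)]⟩),.k,(.x 0 ⟨1,[(5,0),(15,1),(14,0)]⟩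
  ⟨9,[(11,1),(1,3),(10,2),(0,2),(9,9),(1,1),(1,9)]⟩),.k,⟨false,1,⟨1,[(7,0),(3,0),(10,0),(1,0),(5,0),
  (11,0)]⟩,⟨0,[(3,0)]⟩⟩,⟨true,0,⟨0,[(26,0),(2,0)]⟩,⟨0,[(21,0),(5,0)]⟩⟩,⟨true,0,⟨0,[(46,0)]⟩,⟨0,[]⟩⟩,
  ⟨false,0,⟨0,[(3,0),(22,0),(2,0)]⟩,⟨1,[(0,1),(23,0),(18,0)]⟩⟩,⟨false,0,⟨0,[(42,0)]⟩,⟨15,[(6,3),(8,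
  3),(6,3),(1,2),(0,2),(18,9)]⟩⟩,⟨false,0,⟨41,[(2,37),(6,1),(1,5),(1,15),(11,1),(0,41),(10,8),(4,3),
  (1,20)]⟩,⟨17,[(0,15),(11,5),(1,1),(0,1),(7,1),(0,8),(2,1),(15,2)]⟩⟩,[.a ⟨true,0,⟨1,[(9,0),(16,0),
  (0,0)]⟩,⟨0,[(7,0)]⟩⟩ ⟨false,1,⟨1,[(24,0),(18,0),(2,1)]⟩,⟨7,[(2,5),(0,1),(3,0),(3,0),(0,2),(4,1),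
  (22,1)]⟩⟩ ⟨true,0,⟨1,[(9,0),(16,1),(2,0),(2,0)]⟩,⟨0,[(0,0)]⟩⟩,.o ⟨false,1,⟨7,[(9,3),(14,0),(0,0),
  (11,1),(6,3)]⟩,⟨0,[(30,0)]⟩⟩,.o ⟨false,1,⟨1,[(27,1),(9,0),(5,0)]⟩,⟨0,[(21,0),(4,0),(2,0)]⟩⟩,.e
  ⟨false,1,⟨1,[(24,0),(18,0)]⟩,⟨9,[(2,2),(0,0),(2,0),(3,2),(11,0),(2,2),(14,3)]⟩⟩ ⟨false,1,⟨7,[(9,
  3),(14,0),(0,0),(0,7),(10,1),(6,3)]⟩,⟨0,[(0,0)]⟩⟩]⟩)) (.Q [0,0,0,0,0,0,1,1,0,0,-1,1] (.p false [0,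
  0,1] [0,0,0,1] (⟨0,[(35,0)]⟩,⟨0,[(34,0)]⟩) .k 2 (⟨0,[(26,0)]⟩,⟨0,[(25,0)]⟩) .k (.r (-1) ⟨1,[(16,
  0),(6,0),(21,0)]⟩ ⟨5,[(1,1),(0,1),(10,0),(8,0),(1,0),(5,0),(11,0)]⟩)) (.R ⟨0,false,false,false,[1,
  0,0,-1],[1,0,-1],[0,1,0,0,0,0,0,0,-1],(⟨0,[(26,0)]⟩,⟨0,[(27,0)]⟩),(⟨0,[(35,0)]⟩,⟨0,[(36,0)]⟩),⟨0,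
  [(1,0)]⟩,.k,.k,(.x (-1) ⟨15,[(4,3),(0,3),(18,6),(0,6),(11,1)]⟩ ⟨0,[(39,0)]⟩),.k,.k,.k,⟨false,1,⟨1,
  [(7,0),(3,0),(10,0),(1,0),(5,0),(11,0)]⟩,⟨0,[(3,0)]⟩⟩,⟨true,0,⟨0,[(26,0),(2,0)]⟩,⟨5,[(1,3),(2,0),
  (0,0),(17,2),(3,1)]⟩⟩,⟨true,0,⟨0,[(46,0)]⟩,⟨0,[]⟩⟩,⟨false,0,⟨0,[(3,0),(22,0),(2,0)]⟩,⟨1,[(0,1),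
  (23,0),(18,0)]⟩⟩,⟨false,0,⟨0,[]⟩,⟨0,[]⟩⟩,⟨false,0,⟨0,[]⟩,⟨0,[]⟩⟩,[.a ⟨true,0,⟨1,[(9,0),(16,0),(0,
  0)]⟩,⟨0,[(7,0)]⟩⟩ ⟨false,1,⟨1,[(24,0),(18,0),(2,1)]⟩,⟨7,[(2,5),(0,1),(3,0),(3,0),(0,2),(4,1),(22,
  1)]⟩⟩ ⟨true,0,⟨1,[(9,0),(16,1),(2,0),(2,0)]⟩,⟨0,[(0,0)]⟩⟩,.o ⟨false,1,⟨7,[(9,3),(14,0),(0,0),(11,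
  1),(6,3)]⟩,⟨0,[(30,0)]⟩⟩,.o ⟨false,1,⟨1,[(27,1),(9,0),(5,0)]⟩,⟨0,[(21,0),(4,0),(2,0)]⟩⟩,.e ⟨false,
  1,⟨1,[(24,0),(18,0)]⟩,⟨9,[(2,2),(0,0),(2,0),(3,2),(11,0),(2,2),(14,3)]⟩⟩ ⟨false,1,⟨7,[(9,3),(14,
  0),(0,0),(0,7),(10,1),(6,3)]⟩,⟨0,[(0,0)]⟩⟩]⟩) (.R ⟨0,false,false,false,[1,0,0,-1],[1,0,-1],[0,1,0,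
  0,0,0,0,0,-1],(⟨0,[(26,0)]⟩,⟨0,[(27,0)]⟩),(⟨0,[(35,0)]⟩,⟨0,[(36,0)]⟩),⟨0,[(1,0)]⟩,.k,.k,(.x (-1)
  ⟨15,[(4,3),(0,3),(18,6),(0,6),(11,1)]⟩ ⟨0,[(39,0)]⟩),.k,.k,.k,⟨false,1,⟨1,[(7,0),(3,0),(10,0),(1,
  0),(5,0),(11,0)]⟩,⟨0,[(3,0)]⟩⟩,⟨true,0,⟨0,[(26,0),(2,0)]⟩,⟨5,[(1,3),(2,0),(0,0),(17,2),(3,1)]⟩⟩,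
  ⟨true,0,⟨0,[(46,0)]⟩,⟨0,[]⟩⟩,⟨false,0,⟨6,[(0,5),(1,1),(0,0),(2,0),(3,0),(2,0),(11,1),(0,0),(13,
  2)]⟩,⟨3,[(1,3),(2,0),(0,0),(1,3),(3,1),(11,0),(0,1)]⟩⟩,⟨false,0,⟨0,[]⟩,⟨0,[]⟩⟩,⟨false,0,⟨0,[]⟩,⟨0,
  []⟩⟩,[.e ⟨false,1,⟨1,[(24,0),(18,0),(2,1)]⟩,⟨7,[(2,5),(0,1),(3,0),(3,0),(0,2),(4,1),(22,1)]⟩⟩
  ⟨false,0,⟨0,[(0,0)]⟩,⟨5,[(17,1),(5,1),(3,5),(2,1),(6,0),(5,2)]⟩⟩,.o ⟨false,1,⟨7,[(9,3),(14,0),(0,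
  0),(11,1),(6,3)]⟩,⟨0,[(30,0)]⟩⟩,.o ⟨false,1,⟨1,[(27,1),(9,0),(5,0)]⟩,⟨1,[(0,1),(9,0),(19,0),(1,
  0)]⟩⟩,.a ⟨true,0,⟨0,[(27,0)]⟩,⟨0,[(26,0)]⟩⟩ ⟨false,1,⟨1,[(24,0),(18,0)]⟩,⟨9,[(2,2),(0,0),(2,0),(3,
  2),(11,0),(2,2),(14,3)]⟩⟩ ⟨true,0,⟨0,[(0,0)]⟩,⟨0,[(27,0),(2,0)]⟩⟩]⟩)))) (.Q [0,0,0,2,0,0,2,2,0,1,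
  -2] (.p false [0,0,1] [1,0,-1] (⟨0,[(33,0)]⟩,⟨0,[(32,0)]⟩) .k 2 (⟨0,[(32,0)]⟩,⟨0,[(33,0)]⟩) .k
  (.r (-1) ⟨2,[(0,1),(13,1),(7,0)]⟩ ⟨0,[(31,1)]⟩)) (.I [0,0,1,0,0,-1,-2] (.R ⟨1,false,false,false,
  [1,0,-1],[0,1,1],[1,0,1],(⟨0,[(34,0)]⟩,⟨0,[(35,0)]⟩),(⟨0,[(35,0),(2,0)]⟩,⟨0,[(17,0)]⟩),⟨0,[(17,
  0)]⟩,.k,.k,.k,(.x 0 ⟨0,[(0,0)]⟩ ⟨1,[(22,1),(12,3),(0,0),(1,1),(3,0)]⟩),(.r (-1) ⟨1,[(13,0),(0,1),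
  (7,0),(7,0),(11,1)]⟩ ⟨0,[(1,0),(26,0),(3,0)]⟩),.k,⟨true,0,⟨3,[(13,0),(0,1),(7,0),(7,0)]⟩,⟨1,[(1,
  0),(26,0),(3,0)]⟩⟩,⟨false,1,⟨0,[(22,0),(19,0)]⟩,⟨0,[(12,0)]⟩⟩,⟨false,0,⟨0,[(9,0)]⟩,⟨3,[(23,0),(0,
  0),(8,3),(8,1)]⟩⟩,⟨false,1,⟨7,[(1,3),(14,3),(5,3),(0,0),(0,0),(18,1)]⟩,⟨0,[(7,0)]⟩⟩,⟨false,0,⟨1,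
  [(1,0),(10,0),(26,0)]⟩,⟨3,[(13,0),(0,1),(7,0),(0,0),(0,0),(5,0),(11,1)]⟩⟩,⟨true,0,⟨0,[(1,0)]⟩,⟨4,
  [(7,1),(5,2),(0,0),(6,0),(8,1)]⟩⟩,[.a ⟨true,0,⟨1,[(1,0),(23,0),(0,0)]⟩,⟨2,[(7,0),(6,0),(6,0),(3,
  0),(0,0)]⟩⟩ ⟨false,0,⟨0,[]⟩,⟨3,[(23,0),(0,0),(17,1)]⟩⟩ ⟨true,0,⟨1,[(1,0),(20,0)]⟩,⟨5,[(7,1),(4,0),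
  (0,1),(14,0),(3,2),(6,0)]⟩⟩,.o ⟨false,1,⟨7,[(1,3),(21,0),(0,0),(11,1),(6,3)]⟩,⟨0,[(18,0)]⟩⟩,.o
  ⟨false,1,⟨9,[(10,1),(1,3),(10,2),(0,2),(11,1)]⟩,⟨0,[(20,0)]⟩⟩,.o ⟨false,0,⟨0,[(28,0)]⟩,⟨7,[(22,3),
  (0,0),(0,0),(11,1),(5,3)]⟩⟩]⟩) (.I [0,0,-1,0,0,1,2] (.R ⟨1,false,false,false,[1,0,-1],[0,1,1],[1,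
  0,1],(⟨0,[(35,0)]⟩,⟨0,[(36,0)]⟩),(⟨0,[(36,0),(2,0)]⟩,⟨0,[(18,0)]⟩),⟨0,[(18,0)]⟩,.k,.k,.k,(.x (-1)
  ⟨3,[(4,1),(8,3),(10,0),(0,0),(9,5),(1,1)]⟩ ⟨0,[(0,0)]⟩),(.r (-1) ⟨1,[(14,0),(0,1),(7,0),(7,0),(11,
  1)]⟩ ⟨0,[(2,0),(26,0),(3,0)]⟩),.k,⟨true,0,⟨3,[(14,0),(0,1),(7,0),(7,0)]⟩,⟨1,[(2,0),(26,0),(3,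
  0)]⟩⟩,⟨false,1,⟨0,[(23,0),(19,0)]⟩,⟨0,[(13,0)]⟩⟩,⟨false,0,⟨0,[(10,0)]⟩,⟨3,[(24,0),(0,0),(8,3),(8,
  1)]⟩⟩,⟨false,1,⟨7,[(2,3),(14,3),(5,3),(0,0),(0,0),(18,1)]⟩,⟨0,[(8,0)]⟩⟩,⟨false,0,⟨1,[(2,0),(10,0),
  (26,0)]⟩,⟨3,[(14,0),(0,1),(7,0),(0,0),(0,0),(5,0),(11,1)]⟩⟩,⟨true,0,⟨0,[(2,0)]⟩,⟨4,[(8,1),(5,2),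
  (0,0),(6,0),(8,1)]⟩⟩,[.a ⟨true,0,⟨1,[(2,0),(23,0),(0,0)]⟩,⟨2,[(8,0),(6,0),(6,0),(3,0),(0,0)]⟩⟩
  ⟨false,0,⟨0,[]⟩,⟨3,[(24,0),(0,0),(17,1)]⟩⟩ ⟨true,0,⟨1,[(2,0),(20,0)]⟩,⟨5,[(8,1),(4,0),(0,1),(14,
  0),(3,2),(6,0)]⟩⟩,.o ⟨false,1,⟨7,[(2,3),(21,0),(0,0),(11,1),(6,3)]⟩,⟨0,[(19,0)]⟩⟩,.o ⟨false,1,⟨9,
  [(11,1),(1,3),(10,2),(0,2),(11,1)]⟩,⟨0,[(21,0)]⟩⟩,.o ⟨false,0,⟨0,[(29,0)]⟩,⟨7,[(23,3),(0,0),(0,0),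
  (11,1),(5,3)]⟩⟩]⟩) (.I [0,0,1,1,0,0,0,2] (.R ⟨1,false,false,false,[1,0,-1],[0,1,1],[1,0,1],(⟨0,
  [(36,0)]⟩,⟨0,[(37,0)]⟩),(⟨0,[(37,0),(2,0)]⟩,⟨0,[(19,0)]⟩),⟨0,[(19,0)]⟩,.k,.k,.k,(.r (-1) ⟨3,[(9,
  3),(14,3),(0,0),(0,0),(17,1)]⟩ ⟨0,[(0,0)]⟩),(.r (-1) ⟨1,[(15,0),(0,1),(7,0),(7,0),(11,1)]⟩ ⟨1,[(0,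
  1),(2,0),(6,0),(22,0),(0,0)]⟩),.k,⟨true,0,⟨3,[(15,0),(0,1),(7,0),(7,0)]⟩,⟨3,[(0,1),(2,0),(6,0),
  (22,0),(0,0)]⟩⟩,⟨false,1,⟨0,[(24,0),(19,0)]⟩,⟨0,[(14,0)]⟩⟩,⟨false,0,⟨0,[(11,0)]⟩,⟨3,[(25,0),(0,0),
  (8,3),(8,1)]⟩⟩,⟨false,1,⟨7,[(3,3),(14,3),(5,3),(0,0),(0,0),(18,1)]⟩,⟨0,[(9,0)]⟩⟩,⟨false,0,⟨3,[(0,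
  1),(2,0),(6,0),(30,1)]⟩,⟨3,[(15,0),(0,1),(7,0),(0,0),(0,0),(5,0),(11,1)]⟩⟩,⟨true,0,⟨0,[(3,0)]⟩,⟨4,
  [(9,1),(5,2),(0,0),(6,0),(8,1)]⟩⟩,[.a ⟨true,0,⟨1,[(3,0),(23,0),(0,0)]⟩,⟨2,[(9,0),(6,0),(6,0),(3,
  0),(0,0)]⟩⟩ ⟨false,0,⟨0,[]⟩,⟨3,[(25,0),(0,0),(17,1)]⟩⟩ ⟨true,0,⟨1,[(3,0),(20,0)]⟩,⟨5,[(9,1),(4,0),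
  (0,1),(14,0),(3,2),(6,0)]⟩⟩,.o ⟨false,1,⟨7,[(3,3),(21,0),(0,0),(11,1),(6,3)]⟩,⟨0,[(20,0)]⟩⟩,.o
  ⟨false,1,⟨9,[(12,1),(1,3),(10,2),(0,2),(11,1)]⟩,⟨0,[(22,0)]⟩⟩,.o ⟨false,0,⟨0,[(30,0)]⟩,⟨7,[(24,3),
  (0,0),(0,0),(11,1),(5,3)]⟩⟩]⟩) (.I [0,0,1,1,0,0,0,-1,1] (.Q [0,1,-1,0,0,0,0,0,-1,0,0,1] (.p true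
  [0,0,0,1] [] (⟨0,[(29,0)]⟩,⟨0,[(28,0)]⟩) .k 0 (⟨0,[]⟩,⟨0,[]⟩) .k .k) (.Q [0,1,1,0,0,0,0,0,1,0,0,
  -1] (.p false [0,0,0,1] [] (⟨0,[(30,0)]⟩,⟨0,[(29,0)]⟩) .k 0 (⟨0,[]⟩,⟨0,[]⟩) .k .k) (.K ⟨0,[0,0,0,
  1],0,0,(⟨0,[(31,0)]⟩,⟨0,[(30,0)]⟩),.k,(.r (-1) ⟨19,[(3,3),(12,7),(11,0),(0,10)]⟩ ⟨13,[(1,3),(4,6),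
  (0,9),(5,10),(16,3),(4,1),(0,9),(7,7)]⟩),(.x 0 ⟨0,[(43,0)]⟩ ⟨15,[(8,3),(0,3),(18,6),(0,6),(11,
  1)]⟩),.k,.k,[⟨0,[(31,0)]⟩,⟨0,[(30,0)]⟩,⟨0,[(1,0)]⟩,⟨0,[(0,0)]⟩]⟩) (.Q [0,0,0,0,0,1,0,0,0,-1,0,1]
  (.p true [0,0,0,1] [1] (⟨0,[(31,0)]⟩,⟨0,[(30,0)]⟩) .k 1 (⟨0,[]⟩,⟨0,[]⟩) .k .k) (.I [0,1,-1,0,0,0,
  0,1,-1] (.R ⟨0,false,false,false,[1,0,0,-1],[0,1,1],[0,1,0,0,0,0,0,0,-1],(⟨0,[(32,0)]⟩,⟨0,[(33,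
  0)]⟩),(⟨0,[(42,0),(2,0)]⟩,⟨0,[(24,0)]⟩),⟨0,[(1,0)]⟩,.k,.k,(.x (-1) ⟨15,[(10,3),(0,3),(18,6),(0,6),
  (11,1)]⟩ ⟨0,[(45,0)]⟩),(.r 0 ⟨1,[(0,0),(4,1),(3,0),(36,0)]⟩ ⟨3,[(8,1),(21,0),(0,2),(3,1),(3,1)]⟩),
  .k,.k,⟨false,0,⟨0,[(0,0),(4,0)]⟩,⟨0,[(4,0),(18,0)]⟩⟩,⟨true,0,⟨0,[(27,0),(4,0)]⟩,⟨0,[(33,0),(1,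
  0)]⟩⟩,⟨true,0,⟨0,[(52,0)]⟩,⟨0,[]⟩⟩,⟨false,1,⟨6,[(4,2),(3,1),(14,2),(7,1),(0,6),(5,2),(4,0),(2,0),
  (3,0)]⟩,⟨0,[(2,0),(22,0)]⟩⟩,⟨false,0,⟨0,[]⟩,⟨0,[]⟩⟩,⟨false,0,⟨0,[]⟩,⟨0,[]⟩⟩,[.a ⟨true,0,⟨1,[(8,0),
  (23,0),(0,0)]⟩,⟨2,[(14,0),(6,0),(6,0),(3,0),(0,0)]⟩⟩ ⟨false,0,⟨0,[(0,0),(39,0)]⟩,⟨1,[(31,0),(18,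
  0)]⟩⟩ ⟨true,0,⟨1,[(8,0),(23,1),(2,0),(2,0)]⟩,⟨8,[(1,7),(8,1),(0,1),(2,2),(6,2),(6,2),(4,0)]⟩⟩,.o
  ⟨false,1,⟨7,[(8,3),(21,0),(0,0),(11,1),(6,3)]⟩,⟨0,[(25,0)]⟩⟩,.o ⟨false,1,⟨1,[(2,0),(0,0),(27,0),
  (11,0)]⟩,⟨0,[(27,0),(4,0),(2,0)]⟩⟩,.e ⟨false,0,⟨3,[(0,3),(4,1),(2,0),(6,0),(30,1)]⟩,⟨1,[(31,0),(6,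
  0),(0,0),(10,0)]⟩⟩ ⟨false,1,⟨7,[(8,3),(21,0),(0,0),(0,7),(10,1),(6,3)]⟩,⟨8,[(1,7),(8,1),(0,1),(2,
  2),(6,2),(6,2),(4,0)]⟩⟩]⟩) (.Q [0,0,1,1,0,0,0,0,1,1,0,-1] (.p false [0,0,0,1] [1] (⟨0,[(33,0)]⟩,
  ⟨0,[(32,0)]⟩) .k 1 (⟨0,[]⟩,⟨0,[]⟩) .k .k) (.R ⟨0,false,false,false,[1,0,0,-1],[0,1],[1,1],(⟨0,
  [(33,0)]⟩,⟨0,[(34,0)]⟩),(⟨0,[(46,0)]⟩,⟨0,[(45,0)]⟩),⟨0,[(2,0)]⟩,.k,.k,(.x (-1) ⟨15,[(11,3),(0,3),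
  (18,6),(0,6),(11,1)]⟩ ⟨0,[(46,0)]⟩),(.x (-1) ⟨15,[(11,3),(0,3),(18,6),(0,6),(11,1)]⟩ ⟨0,[(46,
  0)]⟩),.k,.k,⟨false,1,⟨1,[(13,0),(24,0),(11,1)]⟩,⟨3,[(9,1),(6,1),(22,0),(0,0),(6,1)]⟩⟩,⟨true,0,⟨0,
  [(33,0)]⟩,⟨6,[(2,4),(4,0),(4,1),(21,1),(1,1),(2,3)]⟩⟩,⟨false,1,⟨3,[(31,0),(0,2)]⟩,⟨0,[(3,0),(24,
  0),(4,0),(2,0)]⟩⟩,⟨true,0,⟨0,[(0,0)]⟩,⟨0,[(3,0),(22,0),(10,0)]⟩⟩,⟨false,0,⟨0,[]⟩,⟨0,[]⟩⟩,⟨false,0,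
  ⟨0,[]⟩,⟨0,[]⟩⟩,[.o ⟨false,0,⟨0,[(49,0)]⟩,⟨15,[(13,3),(7,3),(9,2),(0,2),(11,5),(6,3)]⟩⟩,.e ⟨true,0,
  ⟨0,[]⟩,⟨1,[(39,0),(0,0)]⟩⟩ ⟨true,0,⟨3,[(9,1),(6,1),(16,3),(5,0),(0,0),(6,1)]⟩,⟨5,[(2,3),(8,0),(0,
  0),(10,2),(2,2),(7,1)]⟩⟩,.o ⟨false,1,⟨1,[(3,0),(0,0),(27,0),(11,0)]⟩,⟨0,[(28,0),(4,0),(2,0)]⟩⟩,.a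
  ⟨true,0,⟨0,[(34,0)]⟩,⟨0,[(33,0)]⟩⟩ ⟨false,1,⟨3,[(31,0),(0,0),(17,1)]⟩,⟨3,[(39,0),(0,0),(6,1)]⟩⟩
  ⟨true,0,⟨1,[(9,0),(6,0),(16,1)]⟩,⟨5,[(2,3),(8,0),(0,0),(10,2),(2,2),(7,1)]⟩⟩]⟩) (.R ⟨0,false,
  false,true,[1,0,0,-1],[0,1],[1,0,1],(⟨0,[(33,0)]⟩,⟨0,[(34,0)]⟩),(⟨0,[(46,0)]⟩,⟨0,[(45,0)]⟩),⟨0,
  [(2,0)]⟩,.k,.k,(.x (-1) ⟨15,[(11,3),(0,3),(18,6),(0,6),(11,1)]⟩ ⟨0,[(46,0)]⟩),(.x (-1) ⟨15,[(11,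
  3),(0,3),(18,6),(0,6),(11,1)]⟩ ⟨0,[(46,0)]⟩),.k,.k,⟨false,1,⟨19,[(6,3),(12,7),(11,0),(0,0),(18,
  9)]⟩,⟨1,[(9,0),(25,0),(2,0)]⟩⟩,⟨true,0,⟨0,[(33,0)]⟩,⟨6,[(2,4),(4,0),(4,1),(21,1),(1,1),(2,3)]⟩⟩,
  ⟨false,1,⟨11,[(1,7),(22,3),(6,2),(0,4),(6,1),(0,1)]⟩,⟨1,[(0,1),(8,0),(6,0),(16,1)]⟩⟩,⟨true,0,⟨0,
  [(1,0),(7,0),(19,0),(3,0),(1,0)]⟩,⟨0,[(0,0)]⟩⟩,⟨false,0,⟨0,[]⟩,⟨0,[]⟩⟩,⟨false,0,⟨0,[]⟩,⟨0,[]⟩⟩,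
  [.o ⟨false,0,⟨1,[(9,0),(25,0),(2,0)]⟩,⟨14,[(13,2),(5,0),(1,2),(0,0),(21,5),(2,1),(3,7)]⟩⟩,.o
  ⟨false,0,⟨0,[(49,0)]⟩,⟨15,[(13,3),(7,3),(9,2),(0,2),(11,5),(6,3)]⟩⟩,.o ⟨false,1,⟨1,[(3,0),(0,0),
  (27,0),(11,0)]⟩,⟨0,[(28,0),(4,0),(2,0)]⟩⟩,.a ⟨true,0,⟨0,[(34,0)]⟩,⟨0,[(33,0)]⟩⟩ ⟨true,0,⟨0,[]⟩,⟨0,
  [(53,0)]⟩⟩ ⟨false,0,⟨1,[(9,0),(6,0),(16,1)]⟩,⟨17,[(0,1),(12,3),(7,3),(10,0),(1,15),(9,5),(2,1),(3,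
  10)]⟩⟩]⟩))) (.Q [0,0,0,0,0,0,-1,-1,0,0,1,-1] (.p true [0,0,1] [0,0,0,1] (⟨0,[(41,0)]⟩,⟨0,[(40,
  0)]⟩) .k 2 (⟨0,[(32,0)]⟩,⟨0,[(31,0)]⟩) .k (.r 0 ⟨0,[(1,0),(29,0),(2,0),(0,0)]⟩ ⟨2,[(3,0),(0,0),
  (24,0),(0,1)]⟩)) (.I [0,1,-1,0,0,0,0,1,-1] (.R ⟨1,false,false,false,[1,0,0,-1],[1,0,-1],[0,1,0,0,
  0,0,0,0,-1],(⟨0,[(33,0)]⟩,⟨0,[(34,0)]⟩),(⟨0,[(42,0)]⟩,⟨0,[(43,0)]⟩),⟨0,[(2,0)]⟩,.k,.k,(.x (-1)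
  ⟨15,[(11,3),(0,3),(18,6),(0,6),(11,1)]⟩ ⟨0,[(46,0)]⟩),.k,(.r (-1) ⟨9,[(0,0),(9,0),(6,0),(1,4),(4,
  0),(6,3)]⟩ ⟨0,[(5,0)]⟩),.k,⟨false,0,⟨0,[(0,0)]⟩,⟨11,[(5,3),(0,3),(24,0),(0,4),(18,5)]⟩⟩,⟨true,0,
  ⟨0,[(33,0),(2,0)]⟩,⟨0,[(28,0),(5,0)]⟩⟩,⟨true,0,⟨0,[(53,0)]⟩,⟨0,[]⟩⟩,⟨false,1,⟨1,[(1,1),(30,0),(6,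
  0),(0,0),(10,0)]⟩,⟨0,[(3,0),(33,0)]⟩⟩,⟨false,0,⟨0,[(49,0)]⟩,⟨15,[(13,3),(8,3),(6,3),(1,2),(0,2),
  (18,9)]⟩⟩,⟨false,1,⟨7,[(1,7),(3,7),(18,3),(6,0),(0,0),(18,1)]⟩,⟨0,[(3,0),(19,0)]⟩⟩,[.e ⟨false,0,
  ⟨1,[(0,0),(0,0),(2,0),(23,0)]⟩,⟨1,[(32,0),(18,0)]⟩⟩ ⟨false,0,⟨0,[(1,0)]⟩,⟨23,[(3,3),(0,3),(4,7),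
  (9,7),(10,3),(0,2),(0,6),(1,15),(9,5)]⟩⟩,.o ⟨false,1,⟨7,[(16,3),(14,0),(0,0),(11,1),(6,3)]⟩,⟨0,
  [(37,0)]⟩⟩,.o ⟨false,1,⟨1,[(3,0),(0,0),(27,0),(11,0)]⟩,⟨3,[(1,3),(7,0),(3,0),(3,0),(18,0),(2,
  1)]⟩⟩,.a ⟨true,0,⟨0,[(34,0)]⟩,⟨0,[(33,0)]⟩⟩ ⟨false,0,⟨1,[(0,0),(0,0),(1,0),(24,0)]⟩,⟨1,[(32,0),(6,
  0),(0,0),(10,0)]⟩⟩ ⟨true,0,⟨0,[(1,0)]⟩,⟨0,[(34,0),(2,0)]⟩⟩]⟩) (.R ⟨1,false,false,true,[1,0,0,-1],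
  [0,1],[0,0,0,0,0,0,0,0,-1],(⟨0,[(33,0)]⟩,⟨0,[(34,0)]⟩),(⟨0,[(46,0)]⟩,⟨0,[(45,0)]⟩),⟨0,[(2,0)]⟩,.k,
  .k,(.x (-1) ⟨15,[(11,3),(0,3),(18,6),(0,6),(11,1)]⟩ ⟨0,[(46,0)]⟩),(.x (-1) ⟨15,[(11,3),(0,3),(18,
  6),(0,6),(11,1)]⟩ ⟨0,[(46,0)]⟩),(.r (-1) ⟨22,[(1,5),(1,5),(2,7),(3,2),(2,2),(5,15),(8,2),(2,6)]⟩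
  ⟨1,[(5,1),(3,0),(26,0),(3,0)]⟩),.k,⟨false,1,⟨5,[(1,2),(1,3),(14,0),(0,2),(8,3),(2,0),(1,0),(17,
  0)]⟩,⟨0,[(0,0),(8,0),(19,0),(5,0)]⟩⟩,⟨true,0,⟨0,[(33,0)]⟩,⟨0,[(28,0),(5,0),(1,0)]⟩⟩,⟨false,1,⟨3,
  [(31,0),(0,0),(18,1)]⟩,⟨0,[]⟩⟩,⟨false,0,⟨0,[(0,0),(0,0),(7,0),(19,0)]⟩,⟨33,[(3,23),(2,1),(6,5),(5,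
  3),(1,5),(9,4),(2,9),(9,13),(6,10)]⟩⟩,⟨true,0,⟨0,[(49,0)]⟩,⟨1,[(13,0),(24,0)]⟩⟩,⟨false,0,⟨1,[(0,
  1),(0,1),(7,2),(6,0),(12,1)]⟩,⟨50,[(3,40),(2,1),(6,22),(5,3),(1,22),(9,4),(2,9),(9,13),(6,27)]⟩⟩,
  [.o ⟨false,0,⟨1,[(9,0),(25,0),(2,0)]⟩,⟨14,[(13,2),(5,0),(1,2),(0,0),(21,5),(2,1),(3,7)]⟩⟩,.o
  ⟨false,0,⟨0,[(49,0)]⟩,⟨15,[(13,3),(7,3),(9,2),(0,2),(11,5),(6,3)]⟩⟩,.o ⟨false,1,⟨1,[(3,0),(0,0),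
  (27,0),(11,0)]⟩,⟨3,[(1,3),(7,0),(3,0),(3,0),(18,0),(2,1)]⟩⟩,.a ⟨true,0,⟨0,[(34,0)]⟩,⟨0,[(33,0)]⟩⟩
  ⟨true,0,⟨0,[(1,0),(1,0),(33,0)]⟩,⟨1,[(0,1),(8,0),(19,1),(5,0),(1,0)]⟩⟩ ⟨false,0,⟨1,[(9,0),(6,0),
  (16,1)]⟩,⟨15,[(3,1),(9,3),(7,3),(10,0),(1,13),(9,5),(2,1),(3,8)]⟩⟩]⟩)) (.I [0,1,-1,0,0,0,0,1,-1]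
  (.R ⟨1,false,false,false,[1,0,0,-1],[1,0,-1],[0,1,0,0,0,0,0,0,-1],(⟨0,[(33,0)]⟩,⟨0,[(34,0)]⟩),(⟨0,
  [(42,0)]⟩,⟨0,[(43,0)]⟩),⟨0,[(2,0)]⟩,.k,.k,(.x (-1) ⟨15,[(11,3),(0,3),(18,6),(0,6),(11,1)]⟩ ⟨0,
  [(46,0)]⟩),.k,(.r (-1) ⟨9,[(0,0),(9,0),(6,0),(1,4),(4,0),(6,3)]⟩ ⟨0,[(5,0)]⟩),.k,⟨false,0,⟨0,[(0,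
  0)]⟩,⟨11,[(5,3),(0,3),(24,0),(0,4),(18,5)]⟩⟩,⟨true,0,⟨0,[(33,0),(2,0)]⟩,⟨7,[(1,5),(1,0),(0,0),(0,
  1),(0,1),(32,1)]⟩⟩,⟨true,0,⟨0,[(53,0)]⟩,⟨0,[]⟩⟩,⟨false,1,⟨23,[(5,11),(9,3),(5,3),(9,0),(0,6),(0,
  23),(2,11),(7,1),(6,13)]⟩,⟨1,[(0,0),(0,0),(1,0),(24,0)]⟩⟩,⟨false,0,⟨0,[(49,0)]⟩,⟨15,[(13,3),(8,3),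
  (6,3),(1,2),(0,2),(18,9)]⟩⟩,⟨false,1,⟨19,[(5,19),(12,3),(1,7),(10,0),(0,0),(0,19),(10,3),(6,9)]⟩,
  ⟨0,[(3,0),(19,0)]⟩⟩,[.a ⟨true,0,⟨1,[(16,0),(16,0),(0,0)]⟩,⟨0,[(14,0)]⟩⟩ ⟨false,0,⟨0,[(0,0),(40,
  0)]⟩,⟨1,[(32,0),(18,0)]⟩⟩ ⟨true,0,⟨1,[(16,0),(16,1),(2,0),(2,0)]⟩,⟨0,[(1,0)]⟩⟩,.o ⟨false,1,⟨7,
  [(16,3),(14,0),(0,0),(11,1),(6,3)]⟩,⟨0,[(37,0)]⟩⟩,.o ⟨false,1,⟨1,[(3,0),(0,0),(27,0),(11,0)]⟩,⟨0,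
  [(28,0),(4,0),(2,0)]⟩⟩,.e ⟨false,0,⟨3,[(0,3),(5,1),(2,0),(6,0),(30,1)]⟩,⟨1,[(32,0),(6,0),(0,0),
  (10,0)]⟩⟩ ⟨false,1,⟨7,[(16,3),(14,0),(0,0),(0,7),(10,1),(6,3)]⟩,⟨0,[(1,0)]⟩⟩]⟩) (.I [0,0,-1,0,0,0,
  0,0,-1] (.Q [0,0,1,1,0,0,0,0,1,1,0,-1] (.p false [0,0,0,1] [1] (⟨0,[(35,0)]⟩,⟨0,[(34,0)]⟩) .k 1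
  (⟨0,[]⟩,⟨0,[]⟩) .k .k) (.R ⟨1,false,false,true,[1,0,0,-1],[0,1],[0,0,0,0,0,0,0,0,-1],(⟨0,[(35,
  0)]⟩,⟨0,[(36,0)]⟩),(⟨0,[(48,0)]⟩,⟨0,[(47,0)]⟩),⟨0,[(4,0)]⟩,.k,.k,(.x (-1) ⟨15,[(13,3),(0,3),(18,
  6),(0,6),(11,1)]⟩ ⟨0,[(48,0)]⟩),(.x (-1) ⟨15,[(13,3),(0,3),(18,6),(0,6),(11,1)]⟩ ⟨0,[(48,0)]⟩),
  (.r (-1) ⟨42,[(1,11),(3,2),(2,12),(6,2),(5,28),(1,2),(0,2),(8,13),(1,2)]⟩ ⟨1,[(7,1),(3,0),(26,0),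
  (3,0)]⟩),.k,⟨false,1,⟨19,[(1,17),(6,3),(12,7),(11,0),(18,0),(0,9)]⟩,⟨0,[(0,0),(2,0),(33,0)]⟩⟩,
  ⟨true,0,⟨0,[(35,0)]⟩,⟨1,[(3,1),(14,0),(19,0),(2,0)]⟩⟩,⟨false,1,⟨3,[(33,0),(0,0),(18,1)]⟩,⟨0,[]⟩⟩,
  ⟨false,0,⟨0,[(0,0)]⟩,⟨55,[(3,17),(1,35),(2,3),(12,7),(1,17),(9,9),(2,1),(9,18),(6,18)]⟩⟩,⟨true,0,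
  ⟨0,[(51,0)]⟩,⟨1,[(15,0),(24,0)]⟩⟩,⟨false,0,⟨1,[(0,1),(10,0),(6,0)]⟩,⟨40,[(3,9),(1,30),(2,1),(6,
  12),(5,3),(1,22),(9,4),(12,8),(6,22)]⟩⟩,[.o ⟨false,0,⟨1,[(11,0),(25,0),(2,0)]⟩,⟨14,[(15,2),(5,0),
  (1,2),(0,0),(21,5),(2,1),(3,7)]⟩⟩,.o ⟨false,0,⟨0,[(51,0)]⟩,⟨15,[(15,3),(7,3),(9,2),(0,2),(11,5),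
  (6,3)]⟩⟩,.o ⟨false,1,⟨1,[(5,0),(0,0),(27,0),(11,0)]⟩,⟨0,[(30,0),(4,0),(2,0)]⟩⟩,.a ⟨true,0,⟨0,[(36,
  0)]⟩,⟨0,[(35,0)]⟩⟩ ⟨true,0,⟨0,[(1,0)]⟩,⟨0,[(0,0),(2,0),(24,0)]⟩⟩ ⟨false,0,⟨1,[(11,0),(6,0),(16,
  1)]⟩,⟨3,[(3,1),(19,1),(12,1),(9,0),(6,2)]⟩⟩]⟩) (.Q [0,0,-1,-2,0,0,0,0,-1,-1,0,1] (.p true [0,0,0,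
  1] [1] (⟨0,[(36,0)]⟩,⟨0,[(35,0)]⟩) .k 1 (⟨0,[]⟩,⟨0,[]⟩) .k .k) (.R ⟨1,false,false,true,[1,0,0,-1],
  [0,1],[0,0,0,0,0,0,0,0,-1],(⟨0,[(36,0)]⟩,⟨0,[(37,0)]⟩),(⟨0,[(49,0)]⟩,⟨0,[(48,0)]⟩),⟨0,[(5,0)]⟩,.k,
  .k,(.x (-1) ⟨15,[(14,3),(0,3),(18,6),(0,6),(11,1)]⟩ ⟨0,[(49,0)]⟩),(.x (-1) ⟨15,[(14,3),(0,3),(18,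
  6),(0,6),(11,1)]⟩ ⟨0,[(49,0)]⟩),(.r (-1) ⟨5,[(0,0),(1,0),(6,1),(12,3),(11,1),(1,0)]⟩ ⟨1,[(8,1),(3,
  0),(26,0),(3,0)]⟩),.k,⟨false,1,⟨19,[(2,17),(6,3),(12,7),(11,0),(18,0),(0,9)]⟩,⟨0,[(3,0),(8,0),(19,
  0),(5,0)]⟩⟩,⟨true,0,⟨0,[(36,0)]⟩,⟨2,[(1,0),(2,0),(3,0),(28,0),(1,1),(2,0)]⟩⟩,⟨false,1,⟨3,[(34,0),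
  (0,0),(18,1)]⟩,⟨0,[]⟩⟩,⟨true,0,⟨0,[(3,0),(8,0),(19,0),(3,0),(1,0)]⟩,⟨0,[(1,0)]⟩⟩,⟨true,0,⟨0,[(52,
  0)]⟩,⟨1,[(16,0),(24,0)]⟩⟩,⟨true,0,⟨1,[(3,1),(8,2),(6,0),(12,1),(3,1),(1,1)]⟩,⟨0,[(0,0)]⟩⟩,[.o
  ⟨false,0,⟨1,[(12,0),(25,0),(2,0)]⟩,⟨14,[(16,2),(5,0),(1,2),(0,0),(21,5),(2,1),(3,7)]⟩⟩,.o ⟨false,
  0,⟨0,[(52,0)]⟩,⟨15,[(16,3),(7,3),(9,2),(0,2),(11,5),(6,3)]⟩⟩,.o ⟨false,1,⟨1,[(6,0),(0,0),(27,0),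
  (11,0)]⟩,⟨0,[(31,0),(4,0),(2,0)]⟩⟩,.a ⟨true,0,⟨0,[(37,0)]⟩,⟨0,[(36,0)]⟩⟩ ⟨true,0,⟨0,[(2,0)]⟩,⟨1,
  [(3,1),(8,0),(19,1),(5,0),(1,0)]⟩⟩ ⟨false,0,⟨1,[(12,0),(6,0),(16,1)]⟩,⟨3,[(4,1),(19,1),(12,1),(9,
  0),(6,2)]⟩⟩]⟩) (.R ⟨1,true,false,true,[1,0,0,-1],[0,1],[0,0,0,0,0,0,0,0,-1],(⟨0,[(36,0)]⟩,⟨0,[(37,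
  0)]⟩),(⟨0,[(49,0)]⟩,⟨0,[(48,0)]⟩),⟨0,[(5,0)]⟩,.k,.k,(.x (-1) ⟨15,[(14,3),(0,3),(18,6),(0,6),(11,
  1)]⟩ ⟨0,[(49,0)]⟩),(.x (-1) ⟨15,[(14,3),(0,3),(18,6),(0,6),(11,1)]⟩ ⟨0,[(49,0)]⟩),(.r (-1) ⟨42,
  [(2,11),(3,2),(2,12),(6,2),(5,28),(1,2),(0,2),(8,13),(1,2)]⟩ ⟨1,[(8,1),(3,0),(26,0),(3,0)]⟩),.k,
  ⟨false,1,⟨19,[(2,17),(6,3),(12,7),(11,0),(18,0),(0,9)]⟩,⟨0,[(0,0),(3,0),(24,0)]⟩⟩,⟨true,0,⟨0,[(36,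
  0)]⟩,⟨2,[(1,0),(2,0),(3,0),(28,0),(1,1),(2,0)]⟩⟩,⟨false,1,⟨3,[(34,0),(0,0),(18,1)]⟩,⟨0,[]⟩⟩,⟨true,
  0,⟨1,[(0,1),(15,0),(24,0)]⟩,⟨0,[(1,0)]⟩⟩,⟨true,0,⟨0,[(52,0)]⟩,⟨1,[(16,0),(24,0)]⟩⟩,⟨false,0,⟨0,
  [(0,0)]⟩,⟨79,[(1,59),(7,3),(6,19),(5,7),(1,19),(9,10),(0,0),(1,19),(16,59)]⟩⟩,[]⟩))) (.R ⟨1,false,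
  false,true,[1,0,0,-1],[0,1],[0,1,0,0,0,0,0,0,-1],(⟨0,[(34,0)]⟩,⟨0,[(35,0)]⟩),(⟨0,[(47,0)]⟩,⟨0,
  [(46,0)]⟩),⟨0,[(3,0)]⟩,.k,.k,(.x (-1) ⟨15,[(12,3),(0,3),(18,6),(0,6),(11,1)]⟩ ⟨0,[(47,0)]⟩),(.x
  (-1) ⟨15,[(12,3),(0,3),(18,6),(0,6),(11,1)]⟩ ⟨0,[(47,0)]⟩),(.r (-1) ⟨61,[(4,23),(2,19),(6,17),(4,
  11),(0,27),(1,5),(9,18),(1,23),(10,2)]⟩ ⟨1,[(6,1),(3,0),(26,0),(3,0)]⟩),.k,⟨false,1,⟨9,[(4,1),(2,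
  3),(2,0),(0,1),(7,2),(0,3),(8,0),(2,2),(1,1)]⟩,⟨1,[(0,1),(9,0),(6,0)]⟩⟩,⟨true,0,⟨0,[(34,0)]⟩,⟨1,
  [(2,1),(14,0),(19,0),(2,0)]⟩⟩,⟨true,0,⟨0,[(54,0)]⟩,⟨0,[]⟩⟩,⟨false,0,⟨1,[(0,1),(9,0),(6,0),(16,
  1)]⟩,⟨55,[(2,17),(1,35),(2,3),(12,7),(1,17),(9,9),(2,1),(9,18),(6,18)]⟩⟩,⟨false,0,⟨0,[(50,0)]⟩,
  ⟨15,[(14,3),(8,3),(6,3),(1,2),(0,2),(18,9)]⟩⟩,⟨false,0,⟨0,[(0,0),(9,0),(6,0),(16,0)]⟩,⟨40,[(2,9),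
  (1,30),(2,1),(6,12),(5,3),(1,22),(9,4),(12,8),(6,22)]⟩⟩,[.o ⟨false,0,⟨1,[(10,0),(25,0),(2,0)]⟩,
  ⟨14,[(14,2),(5,0),(1,2),(0,0),(21,5),(2,1),(3,7)]⟩⟩,.o ⟨false,0,⟨0,[(50,0)]⟩,⟨15,[(14,3),(7,3),(9,
  2),(0,2),(11,5),(6,3)]⟩⟩,.o ⟨false,1,⟨1,[(4,0),(0,0),(27,0),(11,0)]⟩,⟨0,[(29,0),(4,0),(2,0)]⟩⟩,.a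
  ⟨true,0,⟨0,[(35,0)]⟩,⟨0,[(34,0)]⟩⟩ ⟨true,0,⟨0,[(4,0),(29,0),(1,0),(1,0)]⟩,⟨0,[(0,0)]⟩⟩ ⟨false,0,
  ⟨1,[(10,0),(6,0),(16,1)]⟩,⟨3,[(2,1),(19,1),(12,1),(9,0),(6,2)]⟩⟩]⟩)))))) (.Q [0,1,0,-1,0,0,0,0,0,
  -1,0,1] (.p true [0,0,0,1] [1] (⟨0,[(30,0)]⟩,⟨0,[(29,0)]⟩) .k 1 (⟨0,[]⟩,⟨0,[]⟩) .k .k) (.Q [0,0,0,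
  1,0,0,1,1,0,1,-1,-1] (.p false [0,0,1] [1,0,0,-1] (⟨0,[(40,0)]⟩,⟨0,[(39,0)]⟩) .k 2 (⟨0,[(30,0)]⟩,
  ⟨0,[(31,0)]⟩) .k (.r (-1) ⟨2,[(7,0),(13,0),(7,1)]⟩ ⟨3,[(3,1),(2,0),(0,3),(5,0),(24,3),(5,1)]⟩))
  (.R ⟨1,false,false,false,[1,0,0,-1],[0,1],[0,1,0,0,0,0,0,0,-1],(⟨0,[(31,0)]⟩,⟨0,[(32,0)]⟩),(⟨0,
  [(44,0)]⟩,⟨0,[(43,0)]⟩),⟨4,[(0,2),(3,0),(0,0),(4,1),(9,0),(6,0),(3,1)]⟩,.k,.k,(.x (-1) ⟨15,[(9,3),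
  (0,3),(18,6),(0,6),(11,1)]⟩ ⟨0,[(44,0)]⟩),(.x (-1) ⟨15,[(9,3),(0,3),(18,6),(0,6),(11,1)]⟩ ⟨0,[(44,
  0)]⟩),(.r (-1) ⟨5,[(4,3),(3,3),(8,3),(11,0),(15,1),(2,0)]⟩ ⟨1,[(3,1),(3,0),(26,0),(3,0)]⟩),.k,
  ⟨false,1,⟨15,[(4,5),(3,9),(2,2),(5,1),(11,2),(6,2),(11,10)]⟩,⟨1,[(2,1),(4,0),(6,0),(17,1)]⟩⟩,
  ⟨true,0,⟨0,[(31,0)]⟩,⟨2,[(1,1),(5,0),(6,0),(17,0),(1,0),(2,0),(7,0)]⟩⟩,⟨true,0,⟨0,[(51,0)]⟩,⟨0,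
  []⟩⟩,⟨false,0,⟨1,[(2,1),(4,0),(6,0),(16,1),(0,1)]⟩,⟨76,[(1,60),(2,25),(2,15),(0,8),(7,31),(0,10),
  (11,33),(2,15),(12,34)]⟩⟩,⟨false,0,⟨0,[(47,0)]⟩,⟨15,[(11,3),(8,3),(6,3),(1,2),(0,2),(18,9)]⟩⟩,
  ⟨false,0,⟨0,[(2,0),(4,0),(6,0),(16,0),(0,0)]⟩,⟨76,[(1,70),(2,28),(2,5),(0,12),(7,11),(0,32),(11,
  31),(2,5),(12,41)]⟩⟩,[.o ⟨false,0,⟨0,[(47,0)]⟩,⟨15,[(11,3),(7,3),(9,2),(0,2),(11,5),(6,3)]⟩⟩,.e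
  ⟨true,0,⟨3,[(4,1),(2,0),(0,3),(5,0),(30,1)]⟩,⟨12,[(1,1),(0,7),(0,4),(3,1),(3,0),(15,4),(4,5)]⟩⟩
  ⟨true,0,⟨3,[(7,1),(6,1),(16,3),(5,0),(0,0),(6,1)]⟩,⟨0,[(1,0)]⟩⟩,.o ⟨false,1,⟨1,[(32,1),(9,0),(5,
  0)]⟩,⟨4,[(0,3),(13,0),(4,1),(11,0),(2,1),(2,1),(7,0)]⟩⟩,.a ⟨true,0,⟨0,[(32,0)]⟩,⟨0,[(31,0)]⟩⟩
  ⟨false,1,⟨1,[(29,0),(18,0)]⟩,⟨0,[(2,0),(29,0)]⟩⟩ ⟨true,0,⟨1,[(7,0),(6,0),(16,1)]⟩,⟨0,[(1,0)]⟩⟩]⟩)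
  (.I [0,1,0,0,0,0,0,0,1] (.R ⟨1,false,false,false,[0,0,0,1],[0,0,1],[0,1,0,0,0,0,0,0,1],(⟨0,[(33,
  0)]⟩,⟨0,[(32,0)]⟩),(⟨0,[(42,0)]⟩,⟨0,[(41,0)]⟩),⟨3,[(1,1),(6,0),(1,0),(0,0),(21,1)]⟩,.k,.k,(.r
  (-1) ⟨19,[(5,3),(12,7),(11,0),(0,10)]⟩ ⟨5,[(8,2),(0,5),(5,2),(21,1),(0,1),(1,3),(5,3)]⟩),.k,(.r
  (-1) ⟨19,[(5,11),(12,3),(11,2),(0,12)]⟩ ⟨3,[(8,1),(0,3),(5,1),(22,0),(0,0),(6,1)]⟩),.k,⟨true,0,⟨7,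
  [(0,5),(3,1),(0,1),(23,0),(4,0),(2,0)]⟩,⟨0,[(9,0),(36,0)]⟩⟩,⟨false,1,⟨0,[(17,0),(11,0),(3,0)]⟩,⟨0,
  [(32,0),(2,0)]⟩⟩,⟨true,0,⟨0,[(52,0)]⟩,⟨0,[]⟩⟩,⟨false,1,⟨4,[(1,3),(3,1),(2,4),(0,0),(7,0),(0,1),
  (11,1),(2,0),(12,2)]⟩,⟨0,[(3,0),(33,0)]⟩⟩,⟨false,0,⟨0,[(48,0)]⟩,⟨15,[(12,3),(8,3),(6,3),(1,2),(0,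
  2),(18,9)]⟩⟩,⟨false,1,⟨14,[(1,6),(3,5),(2,14),(0,2),(7,7),(0,0),(11,5),(2,7),(12,8)]⟩,⟨10,[(3,6),
  (0,3),(9,0),(5,2),(0,1),(6,5),(3,3)]⟩⟩,[.a ⟨true,0,⟨0,[(13,0)]⟩,⟨1,[(15,0),(16,0),(0,0)]⟩⟩ ⟨true,
  0,⟨0,[(0,0)]⟩,⟨0,[(9,0),(30,0),(5,0)]⟩⟩ ⟨false,1,⟨8,[(2,1),(2,1),(2,4),(8,4),(0,2),(10,1),(3,6),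
  (16,0)]⟩,⟨1,[(15,0),(16,1),(2,0),(2,0)]⟩⟩,.o ⟨false,1,⟨3,[(23,1),(5,1),(13,0),(6,0)]⟩,⟨0,[(34,
  0)]⟩⟩,.o ⟨false,0,⟨2,[(3,1),(5,1),(5,0),(11,0),(4,0),(5,0)]⟩,⟨1,[(33,1),(9,0),(5,0)]⟩⟩,.o ⟨false,
  0,⟨0,[(32,0),(2,0),(2,0)]⟩,⟨0,[(17,0),(9,0),(5,0)]⟩⟩]⟩) (.Q [0,0,0,0,0,-1,0,0,0,1,0,-1] (.p false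
  [0,0,0,1] [1] (⟨0,[(33,0)]⟩,⟨0,[(32,0)]⟩) .k 1 (⟨0,[]⟩,⟨0,[]⟩) .k .k) (.R ⟨1,false,false,false,[1,
  0,0,-1],[0,1],[0,1,0,0,0,0,0,0,-1],(⟨0,[(33,0)]⟩,⟨0,[(34,0)]⟩),(⟨0,[(46,0)]⟩,⟨0,[(45,0)]⟩),⟨0,[(0,
  0)]⟩,.k,.k,(.x (-1) ⟨15,[(11,3),(0,3),(18,6),(0,6),(11,1)]⟩ ⟨0,[(46,0)]⟩),(.x (-1) ⟨15,[(11,3),(0,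
  3),(18,6),(0,6),(11,1)]⟩ ⟨0,[(46,0)]⟩),(.r (-1) ⟨3,[(1,0),(4,1),(3,0),(8,2),(11,0)]⟩ ⟨1,[(5,1),(3,
  0),(26,0),(3,0)]⟩),.k,⟨false,1,⟨15,[(6,5),(3,9),(2,2),(5,1),(11,2),(6,2),(11,10)]⟩,⟨1,[(4,1),(4,
  0),(6,0),(17,1)]⟩⟩,⟨true,0,⟨0,[(33,0)]⟩,⟨1,[(2,1),(6,0),(26,0),(2,0)]⟩⟩,⟨true,0,⟨0,[(53,0)]⟩,⟨0,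
  []⟩⟩,⟨false,0,⟨1,[(4,1),(4,0),(6,0),(16,1),(0,1)]⟩,⟨3,[(1,1),(1,3),(27,0),(18,1),(0,0)]⟩⟩,⟨false,
  0,⟨0,[(49,0)]⟩,⟨15,[(13,3),(8,3),(6,3),(1,2),(0,2),(18,9)]⟩⟩,⟨false,0,⟨0,[(4,0),(4,0),(6,0),(16,
  0),(0,0)]⟩,⟨9,[(1,3),(1,9),(2,1),(12,3),(11,2),(19,2)]⟩⟩,[.o ⟨false,0,⟨0,[(49,0)]⟩,⟨15,[(13,3),(7,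
  3),(9,2),(0,2),(11,5),(6,3)]⟩⟩,.e ⟨true,0,⟨1,[(1,0),(8,0),(30,0)]⟩,⟨12,[(3,1),(0,7),(0,4),(3,1),
  (3,0),(15,4),(4,5)]⟩⟩ ⟨true,0,⟨3,[(1,1),(3,1),(3,0),(10,0),(12,3),(13,0)]⟩,⟨0,[(3,0)]⟩⟩,.o ⟨false,
  1,⟨1,[(34,1),(9,0),(5,0)]⟩,⟨4,[(1,0),(2,2),(5,1),(22,1),(1,1),(3,1)]⟩⟩,.a ⟨true,0,⟨0,[(34,0)]⟩,⟨0,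
  [(33,0)]⟩⟩ ⟨false,1,⟨1,[(31,0),(18,0)]⟩,⟨0,[(4,0),(29,0)]⟩⟩ ⟨true,0,⟨1,[(9,0),(6,0),(16,1)]⟩,⟨0,
  [(3,0)]⟩⟩]⟩) (.R ⟨0,false,false,false,[1,0,0,-1],[0,1],[0,1,0,0,0,0,0,0,-1],(⟨0,[(33,0)]⟩,⟨0,[(34,
  0)]⟩),(⟨0,[(46,0)]⟩,⟨0,[(45,0)]⟩),⟨0,[(0,0)]⟩,.k,.k,(.x (-1) ⟨15,[(11,3),(0,3),(18,6),(0,6),(11,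
  1)]⟩ ⟨0,[(46,0)]⟩),(.x (-1) ⟨15,[(11,3),(0,3),(18,6),(0,6),(11,1)]⟩ ⟨0,[(46,0)]⟩),.k,.k,⟨false,1,
  ⟨15,[(6,5),(3,9),(2,2),(5,1),(11,2),(6,2),(11,10)]⟩,⟨1,[(4,1),(4,0),(6,0),(17,1)]⟩⟩,⟨true,0,⟨0,
  [(33,0)]⟩,⟨6,[(0,4),(6,0),(4,1),(21,1),(1,1),(2,3)]⟩⟩,⟨true,0,⟨0,[(53,0)]⟩,⟨0,[]⟩⟩,⟨false,0,⟨1,
  [(4,1),(4,0),(6,0),(16,1),(0,1)]⟩,⟨3,[(1,1),(1,3),(27,0),(18,1),(0,0)]⟩⟩,⟨false,0,⟨0,[]⟩,⟨0,[]⟩⟩,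
  ⟨false,0,⟨0,[]⟩,⟨0,[]⟩⟩,[.o ⟨false,0,⟨0,[(49,0)]⟩,⟨15,[(13,3),(7,3),(9,2),(0,2),(11,5),(6,3)]⟩⟩,
  .e ⟨true,0,⟨1,[(1,0),(8,0),(30,0)]⟩,⟨12,[(3,1),(0,7),(0,4),(3,1),(3,0),(15,4),(4,5)]⟩⟩ ⟨true,0,⟨3,
  [(1,1),(3,1),(3,0),(10,0),(12,3),(13,0)]⟩,⟨0,[(3,0)]⟩⟩,.o ⟨false,1,⟨1,[(34,1),(9,0),(5,0)]⟩,⟨4,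
  [(1,0),(2,2),(5,1),(22,1),(1,1),(3,1)]⟩⟩,.a ⟨true,0,⟨0,[(34,0)]⟩,⟨0,[(33,0)]⟩⟩ ⟨false,1,⟨1,[(31,
  0),(18,0)]⟩,⟨0,[(4,0),(29,0)]⟩⟩ ⟨true,0,⟨1,[(9,0),(6,0),(16,1)]⟩,⟨0,[(3,0)]⟩⟩]⟩)))) (.R ⟨1,false,
  false,false,[1,0,0,-1],[0,1],[0,1,0,0,0,0,0,0,-1],(⟨0,[(30,0)]⟩,⟨0,[(31,0)]⟩),(⟨0,[(43,0)]⟩,⟨0,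
  [(42,0)]⟩),⟨3,[(0,1),(7,0),(0,0),(10,0),(2,0),(6,1)]⟩,.k,.k,(.x (-1) ⟨15,[(8,3),(0,3),(18,6),(0,
  6),(11,1)]⟩ ⟨0,[(43,0)]⟩),(.x (-1) ⟨15,[(8,3),(0,3),(18,6),(0,6),(11,1)]⟩ ⟨0,[(43,0)]⟩),(.r (-1)
  ⟨76,[(0,2),(2,52),(2,2),(0,44),(7,5),(0,54),(11,15),(2,2),(12,20)]⟩ ⟨1,[(2,1),(3,0),(26,0),(3,
  0)]⟩),.k,⟨false,1,⟨15,[(3,5),(3,9),(2,2),(5,1),(11,2),(6,2),(11,10)]⟩,⟨1,[(1,1),(4,0),(6,0),(17,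
  1)]⟩⟩,⟨true,0,⟨0,[(30,0)]⟩,⟨0,[(25,0),(5,0),(1,0)]⟩⟩,⟨true,0,⟨0,[(50,0)]⟩,⟨0,[]⟩⟩,⟨false,0,⟨7,[(0,
  5),(0,4),(0,2),(3,0),(4,0),(14,2),(4,2)]⟩,⟨11,[(7,5),(2,1),(4,5),(3,7),(5,3),(2,2),(2,11),(9,
  2)]⟩⟩,⟨false,0,⟨0,[(46,0)]⟩,⟨15,[(10,3),(8,3),(6,3),(1,2),(0,2),(18,9)]⟩⟩,⟨false,0,⟨4,[(0,3),(0,
  2),(0,1),(3,2),(6,1),(12,1),(4,1)]⟩,⟨3,[(7,1),(2,1),(4,1),(3,3),(8,0),(2,3),(9,0)]⟩⟩,[.o ⟨false,0,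
  ⟨0,[(46,0)]⟩,⟨15,[(10,3),(7,3),(9,2),(0,2),(11,5),(6,3)]⟩⟩,.a ⟨true,0,⟨0,[(0,0),(30,0)]⟩,⟨0,[(45,
  0)]⟩⟩ ⟨true,0,⟨3,[(3,1),(2,0),(0,3),(5,0),(30,1)]⟩,⟨2,[(1,1),(0,0),(23,0),(4,1),(2,0)]⟩⟩ ⟨false,0,
  ⟨0,[(0,0)]⟩,⟨1,[(10,0),(20,1),(3,0),(5,0),(5,0)]⟩⟩,.o ⟨false,1,⟨1,[(31,1),(9,0),(5,0)]⟩,⟨1,[(0,0),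
  (0,0),(5,0),(15,0),(12,0)]⟩⟩,.e ⟨false,1,⟨1,[(28,0),(18,0)]⟩,⟨0,[(1,0),(29,0)]⟩⟩ ⟨false,0,⟨0,[(0,
  0)]⟩,⟨15,[(10,3),(7,3),(9,2),(0,2),(1,15),(9,5),(6,3)]⟩⟩]⟩))) (.Q [0,0,0,0,0,0,-1,-1,0,0,1,-1]
  (.p true [0,0,1] [0,0,0,1] (⟨0,[(38,0)]⟩,⟨0,[(37,0)]⟩) .k 2 (⟨0,[(29,0)]⟩,⟨0,[(28,0)]⟩) .k (.r 0
  ⟨5,[(0,1),(3,0),(0,3),(5,0),(30,1)]⟩ ⟨3,[(26,0),(0,2),(8,3)]⟩)) (.Q [0,0,0,0,0,-1,0,0,0,1,0,-1]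
  (.p false [0,0,0,1] [1] (⟨0,[(30,0)]⟩,⟨0,[(29,0)]⟩) .k 1 (⟨0,[]⟩,⟨0,[]⟩) .k .k) (.R ⟨1,false,
  false,false,[1,0,0,-1],[1,0,-1],[1,0,0,-1,0,0,0,0,-1],(⟨0,[(30,0)]⟩,⟨0,[(31,0)]⟩),(⟨0,[(39,0)]⟩,
  ⟨0,[(40,0)]⟩),⟨0,[(0,0)]⟩,.k,.k,(.x (-1) ⟨15,[(8,3),(0,3),(18,6),(0,6),(11,1)]⟩ ⟨0,[(43,0)]⟩),.k,
  (.x 0 ⟨4,[(5,0),(3,2),(15,1),(10,0)]⟩ ⟨4,[(4,1),(10,0),(12,1),(0,1),(9,0),(3,6)]⟩),.k,⟨false,0,⟨0,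
  [(2,0)]⟩,⟨3,[(6,1),(6,1),(14,0),(0,2),(8,3)]⟩⟩,⟨true,0,⟨0,[(30,0),(2,0)]⟩,⟨0,[(25,0),(5,0)]⟩⟩,
  ⟨false,1,⟨15,[(10,3),(8,3),(6,3),(1,2),(0,2),(18,9)]⟩,⟨0,[(46,0)]⟩⟩,⟨false,1,⟨1,[(1,1),(27,0),(6,
  0),(0,0),(10,0)]⟩,⟨1,[(2,1),(3,0),(6,0),(11,1),(5,1)]⟩⟩,⟨true,0,⟨0,[]⟩,⟨0,[(50,0)]⟩⟩,⟨false,1,⟨1,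
  [(1,1),(4,0),(6,0),(15,0),(6,0),(0,0),(10,0)]⟩,⟨0,[(2,0),(22,0),(5,0)]⟩⟩,[.e ⟨false,0,⟨11,[(2,7),
  (0,5),(2,0),(0,3),(5,0),(30,1)]⟩,⟨3,[(6,1),(6,1),(14,0),(0,2)]⟩⟩ ⟨false,0,⟨0,[(1,0)]⟩,⟨23,[(6,7),
  (9,7),(10,3),(0,2),(0,2),(1,23),(9,5),(5,3)]⟩⟩,.o ⟨false,1,⟨7,[(13,3),(14,0),(0,0),(11,1),(6,3)]⟩,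
  ⟨0,[(34,0)]⟩⟩,.o ⟨false,1,⟨1,[(31,1),(9,0),(5,0)]⟩,⟨3,[(1,3),(4,0),(3,0),(3,0),(18,0),(2,1)]⟩⟩,.a
  ⟨true,0,⟨0,[(31,0)]⟩,⟨0,[(30,0)]⟩⟩ ⟨false,0,⟨3,[(2,3),(0,1),(2,0),(6,0),(30,1)]⟩,⟨3,[(6,1),(6,1),
  (14,0),(0,2),(6,1),(0,1)]⟩⟩ ⟨true,0,⟨0,[(1,0)]⟩,⟨0,[(31,0),(2,0)]⟩⟩]⟩) (.R ⟨0,false,false,false,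
  [1,0,0,-1],[1,0,-1],[0,1,0,0,0,0,0,0,-1],(⟨0,[(30,0)]⟩,⟨0,[(31,0)]⟩),(⟨0,[(39,0)]⟩,⟨0,[(40,0)]⟩),
  ⟨0,[(0,0)]⟩,.k,.k,(.x (-1) ⟨15,[(8,3),(0,3),(18,6),(0,6),(11,1)]⟩ ⟨0,[(43,0)]⟩),.k,.k,.k,⟨false,0,
  ⟨1,[(2,1),(3,0),(25,0),(2,0)]⟩,⟨1,[(29,0),(8,1),(9,0)]⟩⟩,⟨true,0,⟨0,[(30,0),(2,0)]⟩,⟨5,[(0,3),(7,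
  0),(0,0),(17,2),(3,1)]⟩⟩,⟨true,0,⟨0,[(50,0)]⟩,⟨0,[]⟩⟩,⟨false,1,⟨1,[(1,1),(27,0),(6,0),(0,0),(10,
  0)]⟩,⟨11,[(0,7),(1,7),(0,5),(2,6),(0,3),(0,1),(0,1),(3,0),(17,3),(12,1)]⟩⟩,⟨false,0,⟨0,[]⟩,⟨0,
  []⟩⟩,⟨false,0,⟨0,[]⟩,⟨0,[]⟩⟩,[.e ⟨false,0,⟨3,[(2,1),(0,1),(2,1),(0,1),(5,0),(18,0),(2,0)]⟩,⟨1,
  [(29,0),(18,0)]⟩⟩ ⟨false,0,⟨0,[(1,0)]⟩,⟨23,[(6,7),(9,7),(10,3),(0,2),(0,2),(1,23),(9,5),(5,3)]⟩⟩,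
  .o ⟨false,1,⟨7,[(13,3),(14,0),(0,0),(11,1),(6,3)]⟩,⟨0,[(34,0)]⟩⟩,.o ⟨false,1,⟨1,[(31,1),(9,0),(5,
  0)]⟩,⟨3,[(1,3),(4,0),(3,0),(3,0),(18,0),(2,1)]⟩⟩,.a ⟨true,0,⟨0,[(31,0)]⟩,⟨0,[(30,0)]⟩⟩ ⟨false,0,
  ⟨11,[(2,7),(0,5),(2,6),(0,3),(5,6),(30,1)]⟩,⟨1,[(29,0),(6,0),(0,0),(10,0)]⟩⟩ ⟨true,0,⟨0,[(1,0)]⟩,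
  ⟨0,[(31,0),(2,0)]⟩⟩]⟩)) (.Q [0,0,0,0,0,1,0,0,0,-1,0,1] (.p true [0,0,0,1] [1] (⟨0,[(30,0)]⟩,⟨0,
  [(29,0)]⟩) .k 1 (⟨0,[]⟩,⟨0,[]⟩) .k .k) (.R ⟨0,false,false,false,[1,0,0,-1],[1,0,-1],[1,0,0,0,0,0,
  0,0,-1],(⟨0,[(30,0)]⟩,⟨0,[(31,0)]⟩),(⟨0,[(39,0)]⟩,⟨0,[(40,0)]⟩),⟨0,[(0,0)]⟩,.k,.k,(.x (-1) ⟨15,
  [(8,3),(0,3),(18,6),(0,6),(11,1)]⟩ ⟨0,[(43,0)]⟩),.k,.k,.k,⟨false,0,⟨1,[(2,1),(3,0),(6,0)]⟩,⟨3,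
  [(28,0),(0,2),(8,3)]⟩⟩,⟨true,0,⟨0,[(30,0),(2,0)]⟩,⟨5,[(0,3),(7,0),(0,0),(17,2),(3,1)]⟩⟩,⟨true,0,
  ⟨0,[]⟩,⟨0,[(50,0)]⟩⟩,⟨false,1,⟨1,[(13,0),(15,0),(0,1),(2,0),(2,0),(11,0)]⟩,⟨11,[(0,7),(1,7),(0,5),
  (2,6),(0,3),(0,1),(0,1),(3,0),(17,3),(12,1)]⟩⟩,⟨false,0,⟨0,[]⟩,⟨0,[]⟩⟩,⟨false,0,⟨0,[]⟩,⟨0,[]⟩⟩,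
  [.a ⟨true,0,⟨1,[(13,0),(16,0),(0,0)]⟩,⟨0,[(11,0)]⟩⟩ ⟨false,0,⟨11,[(2,7),(0,5),(2,6),(0,3),(5,6),
  (30,1)]⟩,⟨3,[(28,0),(0,2)]⟩⟩ ⟨true,0,⟨1,[(13,0),(16,1),(2,0),(2,0)]⟩,⟨0,[(1,0)]⟩⟩,.o ⟨false,1,⟨7,
  [(13,3),(14,0),(0,0),(11,1),(6,3)]⟩,⟨0,[(34,0)]⟩⟩,.o ⟨false,1,⟨1,[(31,1),(9,0),(5,0)]⟩,⟨0,[(25,0),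
  (4,0),(2,0)]⟩⟩,.e ⟨false,0,⟨3,[(2,3),(0,1),(2,2),(6,2),(30,1)]⟩,⟨3,[(28,0),(0,2),(6,1),(0,1)]⟩⟩
  ⟨false,1,⟨7,[(13,3),(14,0),(0,0),(0,7),(10,1),(6,3)]⟩,⟨0,[(1,0)]⟩⟩]⟩) (.R ⟨1,false,false,false,[1,
  0,0,-1],[1,0,-1],[1,0,0,-1,0,0,0,0,-1],(⟨0,[(30,0)]⟩,⟨0,[(31,0)]⟩),(⟨0,[(39,0)]⟩,⟨0,[(40,0)]⟩),⟨0,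
  [(0,0)]⟩,.k,.k,(.x (-1) ⟨15,[(8,3),(0,3),(18,6),(0,6),(11,1)]⟩ ⟨0,[(43,0)]⟩),.k,(.x 0 ⟨4,[(5,0),
  (3,2),(15,1),(10,0)]⟩ ⟨4,[(4,1),(10,0),(12,1),(0,1),(9,0),(3,6)]⟩),.k,⟨false,0,⟨0,[(2,0)]⟩,⟨3,[(6,
  1),(6,1),(14,0),(0,2),(8,3)]⟩⟩,⟨true,0,⟨0,[(30,0),(2,0)]⟩,⟨0,[(25,0),(5,0)]⟩⟩,⟨false,1,⟨15,[(10,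
  3),(8,3),(6,3),(1,2),(0,2),(18,9)]⟩,⟨0,[(46,0)]⟩⟩,⟨false,1,⟨1,[(13,0),(15,0),(0,1),(2,0),(2,0),
  (11,0)]⟩,⟨11,[(1,11),(0,7),(0,5),(2,6),(0,3),(5,6),(30,1)]⟩⟩,⟨true,0,⟨0,[]⟩,⟨0,[(50,0)]⟩⟩,⟨false,
  1,⟨1,[(6,0),(6,1),(15,0),(0,1),(2,0),(2,0),(11,0)]⟩,⟨11,[(1,11),(0,7),(0,5),(2,0),(0,3),(5,0),(30,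
  1)]⟩⟩,[.a ⟨true,0,⟨1,[(13,0),(16,0),(0,0)]⟩,⟨0,[(11,0)]⟩⟩ ⟨false,0,⟨11,[(2,7),(0,5),(2,0),(0,3),
  (5,0),(30,1)]⟩,⟨3,[(6,1),(6,1),(14,0),(0,2)]⟩⟩ ⟨true,0,⟨1,[(13,0),(16,1),(2,0),(2,0)]⟩,⟨0,[(1,
  0)]⟩⟩,.o ⟨false,1,⟨7,[(13,3),(14,0),(0,0),(11,1),(6,3)]⟩,⟨0,[(34,0)]⟩⟩,.o ⟨false,1,⟨1,[(31,1),(9,
  0),(5,0)]⟩,⟨0,[(25,0),(4,0),(2,0)]⟩⟩,.e ⟨false,0,⟨3,[(2,3),(0,1),(2,0),(6,0),(30,1)]⟩,⟨3,[(6,1),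
  (6,1),(14,0),(0,2),(6,1),(0,1)]⟩⟩ ⟨false,1,⟨7,[(13,3),(14,0),(0,0),(0,7),(10,1),(6,3)]⟩,⟨0,[(1,
  0)]⟩⟩]⟩))))))) (.Q [0,1,-1,0,0,0,0,0,-1,0,0,1] (.p true [0,0,0,1] [] (⟨0,[(25,0)]⟩,⟨0,[(24,0)]⟩)
  .k 0 (⟨0,[]⟩,⟨0,[]⟩) .k .k) (.Q [0,1,1,0,0,0,0,0,1,0,0,-1] (.p false [0,0,0,1] [] (⟨0,[(26,0)]⟩,
  ⟨0,[(25,0)]⟩) .k 0 (⟨0,[]⟩,⟨0,[]⟩) .k .k) (.K ⟨0,[0,0,0,1],0,0,(⟨0,[(27,0)]⟩,⟨0,[(26,0)]⟩),.k,(.r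
  (-1) ⟨5,[(2,0),(9,1),(10,0),(1,2),(17,0)]⟩ ⟨6,[(1,1),(1,4),(5,1),(16,1),(4,0),(0,4),(7,3),(1,
  6)]⟩),(.x 0 ⟨0,[(39,0)]⟩ ⟨15,[(4,3),(0,3),(18,6),(0,6),(11,1)]⟩),.k,.k,[⟨0,[(27,0)]⟩,⟨0,[(26,0)]⟩,
  ⟨0,[(1,0)]⟩,⟨0,[(0,0)]⟩]⟩) (.Q [0,0,0,0,0,-1,0,0,0,1,0,-1] (.p false [0,0,0,1] [1] (⟨0,[(27,0)]⟩,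
  ⟨0,[(26,0)]⟩) .k 1 (⟨0,[]⟩,⟨0,[]⟩) .k .k) (.Q [0,0,0,0,0,0,-1,-1,0,0,1,-1] (.p true [0,0,1] [0,0,
  0,1] (⟨0,[(37,0)]⟩,⟨0,[(36,0)]⟩) .k 2 (⟨0,[(28,0)]⟩,⟨0,[(27,0)]⟩) .k (.r 0 ⟨0,[(1,0),(25,0),(2,0),
  (0,0)]⟩ ⟨3,[(25,0),(0,2),(8,3)]⟩)) (.I [0,1,-1,0,0,0,0,1,-1] (.R ⟨1,false,false,false,[1,0,0,-1],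
  [1,0,-1],[0,1,0,0,0,0,0,0,-1],(⟨0,[(29,0)]⟩,⟨0,[(30,0)]⟩),(⟨0,[(38,0)]⟩,⟨0,[(39,0)]⟩),⟨0,[(2,0)]⟩,
  .k,.k,(.x (-1) ⟨15,[(7,3),(0,3),(18,6),(0,6),(11,1)]⟩ ⟨0,[(42,0)]⟩),.k,(.x 0 ⟨1,[(8,0),(15,1),(14,
  0)]⟩ ⟨9,[(14,1),(1,3),(10,2),(0,2),(9,9),(1,1),(1,9)]⟩),.k,⟨false,0,⟨0,[(0,0)]⟩,⟨1,[(28,0),(8,1),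
  (9,0)]⟩⟩,⟨true,0,⟨0,[(29,0),(2,0)]⟩,⟨0,[(24,0),(5,0)]⟩⟩,⟨true,0,⟨0,[(49,0)]⟩,⟨0,[]⟩⟩,⟨false,1,⟨1,
  [(1,1),(26,0),(6,0),(0,0),(10,0)]⟩,⟨0,[(3,0),(29,0)]⟩⟩,⟨false,0,⟨0,[(45,0)]⟩,⟨15,[(5,3),(3,3),(0,
  3),(16,2),(0,2),(18,9)]⟩⟩,⟨false,1,⟨1,[(1,1),(26,0),(6,0),(0,0),(8,1),(1,0)]⟩,⟨0,[(3,0),(15,0)]⟩⟩,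
  [.e ⟨false,0,⟨1,[(0,0),(0,0),(2,0),(19,0)]⟩,⟨1,[(28,0),(18,0)]⟩⟩ ⟨false,0,⟨0,[(1,0)]⟩,⟨5,[(3,2),
  (0,2),(15,1),(5,1),(1,2),(4,1),(6,0)]⟩⟩,.o ⟨false,1,⟨7,[(12,3),(14,0),(0,0),(11,1),(6,3)]⟩,⟨0,
  [(33,0)]⟩⟩,.o ⟨false,1,⟨1,[(3,0),(0,0),(23,0),(11,0)]⟩,⟨1,[(1,1),(11,0),(19,0),(1,0)]⟩⟩,.a ⟨true,
  0,⟨0,[(30,0)]⟩,⟨0,[(29,0)]⟩⟩ ⟨false,0,⟨1,[(0,0),(0,0),(1,0),(20,0)]⟩,⟨1,[(28,0),(6,0),(0,0),(10,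
  0)]⟩⟩ ⟨true,0,⟨0,[(1,0)]⟩,⟨0,[(30,0),(2,0)]⟩⟩]⟩) (.I [0,1,-2,-1,0,0,0,-1,-1] (.Q [0,0,0,-1,0,0,-1,
  -1,0,-1,1,1] (.p true [0,0,1] [1,0,0,-1] (⟨0,[(40,0)]⟩,⟨0,[(39,0)]⟩) .k 2 (⟨0,[(30,0)]⟩,⟨0,[(31,
  0)]⟩) .k (.r (-1) ⟨2,[(7,0),(13,0),(7,1)]⟩ ⟨1,[(2,1),(1,0),(0,0),(30,1)]⟩)) (.R ⟨1,false,false,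
  false,[1,0,0,-1],[0,1,1],[0,1,0,0,0,0,0,0,-1],(⟨0,[(31,0)]⟩,⟨0,[(32,0)]⟩),(⟨0,[(41,0),(2,0)]⟩,⟨0,
  [(23,0)]⟩),⟨0,[(4,0)]⟩,.k,.k,(.x (-1) ⟨15,[(9,3),(0,3),(18,6),(0,6),(11,1)]⟩ ⟨0,[(44,0)]⟩),(.r 0
  ⟨31,[(1,25),(4,3),(0,2),(0,1),(5,0),(16,3),(5,7),(7,15)]⟩ ⟨11,[(22,3),(6,0),(0,6),(4,3),(1,3),(0,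
  7),(8,11)]⟩),(.r (-1) ⟨11,[(1,7),(5,3),(9,3),(10,3),(0,2),(0,0),(18,3)]⟩ ⟨0,[(2,0),(9,0),(5,0),
  (16,0),(11,1)]⟩),.k,⟨false,0,⟨0,[(1,0)]⟩,⟨2,[(2,0),(19,1),(7,0),(6,0),(0,0),(8,2)]⟩⟩,⟨true,0,⟨0,
  [(26,0),(4,0)]⟩,⟨0,[(32,0),(1,0)]⟩⟩,⟨true,0,⟨0,[(51,0)]⟩,⟨0,[]⟩⟩,⟨false,1,⟨3,[(22,1),(3,0),(3,1),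
  (0,3),(5,2),(7,0),(1,3)]⟩,⟨1,[(0,0),(0,0),(3,0),(28,0)]⟩⟩,⟨false,0,⟨0,[(47,0)]⟩,⟨15,[(7,3),(3,3),
  (0,3),(16,2),(0,2),(18,9)]⟩⟩,⟨false,1,⟨3,[(22,1),(3,0),(3,1),(0,3),(5,2),(7,0),(1,7)]⟩,⟨0,[(5,0),
  (13,0)]⟩⟩,[.a ⟨true,0,⟨0,[(12,0),(34,0)]⟩,⟨1,[(7,0),(23,0),(0,0)]⟩⟩ ⟨false,0,⟨1,[(1,0),(6,0),(38,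
  0)]⟩,⟨1,[(30,0),(18,0)]⟩⟩ ⟨true,0,⟨1,[(15,0),(15,1),(3,0),(1,0),(9,1)]⟩,⟨0,[(0,0)]⟩⟩,.o ⟨false,1,
  ⟨3,[(22,1),(5,1),(13,0),(4,3),(1,0)]⟩,⟨0,[(24,0)]⟩⟩,.o ⟨false,1,⟨1,[(5,0),(0,0),(23,0),(11,0)]⟩,
  ⟨1,[(3,1),(11,0),(19,0),(1,0)]⟩⟩,.e ⟨false,0,⟨0,[(1,0),(13,0),(31,0)]⟩,⟨11,[(2,7),(19,3),(6,2),(0,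
  4),(6,1),(0,1)]⟩⟩ ⟨false,1,⟨3,[(22,1),(5,1),(2,3),(10,0),(4,3),(1,0)]⟩,⟨0,[(0,0)]⟩⟩]⟩) (.R ⟨1,
  false,false,false,[1,0,0,-1],[0,1,1],[0,1,0,0,0,0,0,0,-1],(⟨0,[(31,0)]⟩,⟨0,[(32,0)]⟩),(⟨0,[(41,0),
  (2,0)]⟩,⟨0,[(23,0)]⟩),⟨0,[(4,0)]⟩,.k,.k,(.x (-1) ⟨15,[(9,3),(0,3),(18,6),(0,6),(11,1)]⟩ ⟨0,[(44,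
  0)]⟩),(.r 0 ⟨31,[(1,25),(4,3),(0,2),(0,1),(5,0),(16,3),(5,7),(7,15)]⟩ ⟨11,[(22,3),(6,0),(0,6),(4,
  3),(1,3),(0,7),(8,11)]⟩),(.r (-1) ⟨11,[(1,7),(5,3),(9,3),(10,3),(0,2),(0,0),(18,3)]⟩ ⟨0,[(2,0),(9,
  0),(5,0),(16,0),(11,1)]⟩),.k,⟨false,0,⟨0,[(1,0)]⟩,⟨2,[(2,0),(19,1),(7,0),(6,0),(0,0),(8,2)]⟩⟩,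
  ⟨true,0,⟨0,[(26,0),(4,0)]⟩,⟨0,[(32,0),(1,0)]⟩⟩,⟨true,0,⟨0,[(51,0)]⟩,⟨0,[]⟩⟩,⟨false,1,⟨11,[(0,11),
  (1,7),(19,3),(6,2),(0,4),(6,1),(0,1)]⟩,⟨0,[(5,0),(18,0)]⟩⟩,⟨false,0,⟨0,[(47,0)]⟩,⟨15,[(7,3),(3,3),
  (0,3),(16,2),(0,2),(18,9)]⟩⟩,⟨false,1,⟨11,[(0,11),(1,7),(19,3),(6,2),(0,4),(6,1),(0,1),(8,11)]⟩,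
  ⟨0,[(5,0),(13,0)]⟩⟩,[.e ⟨false,0,⟨1,[(1,0),(6,0),(38,0)]⟩,⟨1,[(30,0),(18,0)]⟩⟩ ⟨false,0,⟨0,[(0,
  0)]⟩,⟨3,[(5,0),(0,2),(0,1),(22,1),(11,0),(6,0)]⟩⟩,.o ⟨false,1,⟨3,[(22,1),(5,1),(13,0),(4,3),(1,
  0)]⟩,⟨0,[(24,0)]⟩⟩,.o ⟨false,1,⟨1,[(5,0),(0,0),(23,0),(11,0)]⟩,⟨10,[(0,3),(2,5),(7,1),(19,0),(2,
  4),(2,4),(7,0)]⟩⟩,.a ⟨true,0,⟨0,[(32,0)]⟩,⟨0,[(31,0)]⟩⟩ ⟨false,0,⟨1,[(0,0),(0,0),(3,0),(28,0)]⟩,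
  ⟨11,[(2,7),(19,3),(6,2),(0,4),(6,1),(0,1)]⟩⟩ ⟨true,0,⟨0,[(0,0)]⟩,⟨0,[(24,0),(7,0)]⟩⟩]⟩)) (.Q [0,0,
  1,1,0,0,0,0,1,1,0,-1] (.p false [0,0,0,1] [1] (⟨0,[(31,0)]⟩,⟨0,[(30,0)]⟩) .k 1 (⟨0,[]⟩,⟨0,[]⟩) .k
  .k) (.R ⟨1,false,false,true,[1,0,0,-1],[0,1],[0,0,0,0,0,0,0,0,-1],(⟨0,[(31,0)]⟩,⟨0,[(32,0)]⟩),(⟨0,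
  [(44,0)]⟩,⟨0,[(43,0)]⟩),⟨0,[(4,0)]⟩,.k,.k,(.x (-1) ⟨15,[(9,3),(0,3),(18,6),(0,6),(11,1)]⟩ ⟨0,[(44,
  0)]⟩),(.x (-1) ⟨15,[(9,3),(0,3),(18,6),(0,6),(11,1)]⟩ ⟨0,[(44,0)]⟩),(.r (-1) ⟨7,[(3,3),(1,2),(0,
  0),(10,5),(1,1),(6,1),(1,1),(0,1)]⟩ ⟨1,[(1,1),(26,0),(4,0),(2,0),(10,1)]⟩),.k,⟨false,1,⟨5,[(5,3),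
  (10,1),(0,1),(2,1),(5,1),(2,0),(1,3),(10,0)]⟩,⟨0,[(2,0),(24,0),(7,0),(11,1)]⟩⟩,⟨true,0,⟨0,[(31,
  0)]⟩,⟨0,[(26,0),(5,0),(1,0)]⟩⟩,⟨false,1,⟨3,[(29,0),(0,0),(18,1)]⟩,⟨0,[]⟩⟩,⟨false,0,⟨0,[(0,0)]⟩,
  ⟨11,[(5,6),(0,4),(0,1),(3,3),(30,4),(6,6)]⟩⟩,⟨true,0,⟨0,[(47,0)]⟩,⟨1,[(11,0),(24,0)]⟩⟩,⟨false,0,
  ⟨0,[(0,0),(46,0)]⟩,⟨2,[(5,1),(0,0),(0,0),(3,1),(30,0),(6,1)]⟩⟩,[.o ⟨false,0,⟨0,[(47,0),(3,0)]⟩,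
  ⟨20,[(7,2),(3,5),(5,0),(2,0),(21,8),(2,1),(3,10)]⟩⟩,.o ⟨false,0,⟨0,[(47,0)]⟩,⟨15,[(11,3),(7,3),(9,
  2),(0,2),(11,5),(6,3)]⟩⟩,.o ⟨false,1,⟨1,[(5,0),(0,0),(23,0),(11,0)]⟩,⟨1,[(3,1),(11,0),(19,0),(1,
  0)]⟩⟩,.a ⟨true,0,⟨0,[(32,0)]⟩,⟨0,[(31,0)]⟩⟩ ⟨true,0,⟨0,[(3,0),(1,0),(29,0)]⟩,⟨0,[(2,0),(24,0),(7,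
  0),(11,0)]⟩⟩ ⟨false,0,⟨0,[(31,0),(15,0)]⟩,⟨20,[(7,2),(3,5),(5,0),(2,0),(11,20),(9,8),(2,1),(3,
  10)]⟩⟩]⟩) (.Q [0,0,1,2,0,0,0,0,1,1,0,-1] (.p false [0,0,0,1] [1] (⟨0,[(32,0)]⟩,⟨0,[(31,0)]⟩) .k 1
  (⟨0,[]⟩,⟨0,[]⟩) .k .k) (.R ⟨1,true,false,true,[1,0,0,-1],[0,1],[0,0,0,0,0,0,0,0,-1],(⟨0,[(32,0)]⟩,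
  ⟨0,[(33,0)]⟩),(⟨0,[(45,0)]⟩,⟨0,[(44,0)]⟩),⟨0,[(5,0)]⟩,.k,.k,(.x (-1) ⟨15,[(10,3),(0,3),(18,6),(0,
  6),(11,1)]⟩ ⟨0,[(45,0)]⟩),(.x (-1) ⟨15,[(10,3),(0,3),(18,6),(0,6),(11,1)]⟩ ⟨0,[(45,0)]⟩),(.r (-1)
  ⟨3,[(1,1),(6,0),(9,1),(10,0),(0,0),(1,1),(16,0)]⟩ ⟨1,[(0,0),(1,0),(30,0),(0,0),(3,0),(9,0)]⟩),.k,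
  ⟨false,1,⟨11,[(1,2),(4,4),(10,4),(0,2),(2,2),(5,4),(2,1),(1,7),(17,1)]⟩,⟨0,[(3,0),(24,0),(7,0),
  (11,1)]⟩⟩,⟨true,0,⟨0,[(32,0)]⟩,⟨1,[(1,0),(0,0),(30,0),(0,0),(3,0)]⟩⟩,⟨false,1,⟨3,[(30,0),(0,0),
  (18,1)]⟩,⟨0,[]⟩⟩,⟨true,0,⟨1,[(0,1),(11,0),(24,0)]⟩,⟨0,[(1,0)]⟩⟩,⟨true,0,⟨0,[(48,0)]⟩,⟨1,[(12,0),
  (24,0)]⟩⟩,⟨false,0,⟨0,[(0,0)]⟩,⟨51,[(1,43),(6,9),(3,15),(5,3),(10,1),(0,8),(0,4),(1,7),(16,33)]⟩⟩,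
  []⟩) (.R ⟨1,false,false,true,[1,0,0,-1],[0,1],[0,0,0,0,0,0,0,0,-1],(⟨0,[(32,0)]⟩,⟨0,[(33,0)]⟩),
  (⟨0,[(45,0)]⟩,⟨0,[(44,0)]⟩),⟨0,[(5,0)]⟩,.k,.k,(.x (-1) ⟨15,[(10,3),(0,3),(18,6),(0,6),(11,1)]⟩ ⟨0,
  [(45,0)]⟩),(.x (-1) ⟨15,[(10,3),(0,3),(18,6),(0,6),(11,1)]⟩ ⟨0,[(45,0)]⟩),(.r (-1) ⟨11,[(0,5),(7,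
  1),(9,3),(10,1),(0,2),(1,5),(16,4)]⟩ ⟨1,[(2,1),(26,0),(4,0),(2,0),(10,1)]⟩),.k,⟨false,1,⟨11,[(0,
  5),(5,3),(10,6),(9,0),(1,2),(0,0),(1,9),(17,3)]⟩,⟨0,[(3,0),(24,0),(7,0),(11,1)]⟩⟩,⟨true,0,⟨0,[(32,
  0)]⟩,⟨1,[(1,0),(0,0),(30,0),(0,0),(3,0)]⟩⟩,⟨false,1,⟨3,[(30,0),(0,0),(18,1)]⟩,⟨0,[]⟩⟩,⟨true,0,⟨0,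
  [(3,0),(24,0),(3,0),(3,0),(11,1)]⟩,⟨0,[(1,0)]⟩⟩,⟨true,0,⟨0,[(48,0)]⟩,⟨1,[(12,0),(24,0)]⟩⟩,⟨true,0,
  ⟨0,[(3,0),(24,0),(3,0),(3,0),(11,2)]⟩,⟨0,[(0,0)]⟩⟩,[.o ⟨false,0,⟨0,[(48,0),(3,0)]⟩,⟨20,[(8,2),(3,
  5),(5,0),(2,0),(21,8),(2,1),(3,10)]⟩⟩,.o ⟨false,0,⟨0,[(48,0)]⟩,⟨15,[(12,3),(7,3),(9,2),(0,2),(11,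
  5),(6,3)]⟩⟩,.o ⟨false,1,⟨1,[(6,0),(0,0),(23,0),(11,0)]⟩,⟨1,[(4,1),(11,0),(19,0),(1,0)]⟩⟩,.a ⟨true,
  0,⟨0,[(33,0)]⟩,⟨0,[(32,0)]⟩⟩ ⟨true,0,⟨0,[(1,0),(30,0),(15,0)]⟩,⟨0,[(3,0),(24,0),(7,0),(11,0)]⟩⟩
  ⟨false,0,⟨0,[(32,0),(15,0)]⟩,⟨9,[(0,5),(1,1),(0,1),(26,1),(0,2),(1,3),(9,1),(6,2)]⟩⟩]⟩))))) (.I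
  [0,1,-1,0,0,0,0,1,-1] (.R ⟨1,false,false,false,[1,0,0,-1],[1,0,-1],[0,1,0,0,0,0,0,0,-1],(⟨0,[(29,
  0)]⟩,⟨0,[(30,0)]⟩),(⟨0,[(38,0)]⟩,⟨0,[(39,0)]⟩),⟨0,[(2,0)]⟩,.k,.k,(.x (-1) ⟨15,[(7,3),(0,3),(18,6),
  (0,6),(11,1)]⟩ ⟨0,[(42,0)]⟩),.k,(.x 0 ⟨1,[(8,0),(15,1),(14,0)]⟩ ⟨9,[(14,1),(1,3),(10,2),(0,2),(9,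
  9),(1,1),(1,9)]⟩),.k,⟨false,0,⟨0,[(0,0)]⟩,⟨1,[(28,0),(8,1),(9,0)]⟩⟩,⟨true,0,⟨0,[(29,0),(2,0)]⟩,⟨0,
  [(24,0),(5,0)]⟩⟩,⟨true,0,⟨0,[(49,0)]⟩,⟨0,[]⟩⟩,⟨false,1,⟨1,[(12,0),(15,0),(0,1),(2,0),(2,0),(11,
  0)]⟩,⟨1,[(0,0),(0,0),(1,0),(20,0)]⟩⟩,⟨false,0,⟨0,[(45,0)]⟩,⟨15,[(5,3),(3,3),(0,3),(16,2),(0,2),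
  (18,9)]⟩⟩,⟨false,1,⟨1,[(12,0),(15,0),(0,1),(2,0),(2,0),(9,1),(1,0)]⟩,⟨0,[(3,0),(15,0)]⟩⟩,[.a
  ⟨true,0,⟨1,[(12,0),(16,0),(0,0)]⟩,⟨0,[(10,0)]⟩⟩ ⟨false,0,⟨0,[(0,0),(36,0)]⟩,⟨1,[(28,0),(18,0)]⟩⟩
  ⟨true,0,⟨1,[(12,0),(16,1),(2,0),(2,0)]⟩,⟨0,[(1,0)]⟩⟩,.o ⟨false,1,⟨7,[(12,3),(14,0),(0,0),(11,1),
  (6,3)]⟩,⟨0,[(33,0)]⟩⟩,.o ⟨false,1,⟨1,[(3,0),(0,0),(23,0),(11,0)]⟩,⟨0,[(24,0),(4,0),(2,0)]⟩⟩,.e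
  ⟨false,0,⟨0,[(0,0),(17,0),(26,0)]⟩,⟨1,[(28,0),(6,0),(0,0),(10,0)]⟩⟩ ⟨false,1,⟨7,[(12,3),(14,0),(0,
  0),(0,7),(10,1),(6,3)]⟩,⟨0,[(1,0)]⟩⟩]⟩) (.I [1,0,-1,-1,0,0,0,0,-1] (.Q [0,0,1,1,0,0,0,0,1,1,0,-1]
  (.p false [0,0,0,1] [1] (⟨0,[(31,0)]⟩,⟨0,[(30,0)]⟩) .k 1 (⟨0,[]⟩,⟨0,[]⟩) .k .k) (.R ⟨1,false,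
  false,true,[1,0,0,-1],[0,1],[1,0,0,-1,0,0,0,0,-1],(⟨0,[(31,0)]⟩,⟨0,[(32,0)]⟩),(⟨0,[(44,0)]⟩,⟨0,
  [(43,0)]⟩),⟨0,[(4,0)]⟩,.k,.k,(.x (-1) ⟨15,[(9,3),(0,3),(18,6),(0,6),(11,1)]⟩ ⟨0,[(44,0)]⟩),(.x
  (-1) ⟨15,[(9,3),(0,3),(18,6),(0,6),(11,1)]⟩ ⟨0,[(44,0)]⟩),(.r (-1) ⟨3,[(1,1),(5,0),(9,1),(10,0),
  (0,0),(18,0)]⟩ ⟨4,[(0,3),(1,0),(0,1),(28,1),(0,0),(0,2),(2,1),(9,5)]⟩),.k,⟨false,1,⟨9,[(1,7),(15,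
  3),(2,3),(8,0),(18,1),(0,2)]⟩,⟨0,[(0,0),(2,0),(29,0),(13,0)]⟩⟩,⟨true,0,⟨0,[(31,0)]⟩,⟨1,[(3,1),(10,
  0),(19,0),(2,0)]⟩⟩,⟨false,1,⟨15,[(7,3),(3,3),(0,3),(16,2),(0,2),(18,9)]⟩,⟨0,[(47,0)]⟩⟩,⟨false,0,
  ⟨0,[(0,0)]⟩,⟨11,[(5,6),(0,4),(0,1),(3,3),(30,4),(6,6)]⟩⟩,⟨true,0,⟨0,[]⟩,⟨0,[(51,0)]⟩⟩,⟨false,0,⟨0,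
  [(0,0),(46,0)]⟩,⟨2,[(5,1),(0,0),(0,0),(3,1),(30,0),(6,1)]⟩⟩,[.o ⟨false,0,⟨0,[(47,0),(3,0)]⟩,⟨20,
  [(7,2),(3,5),(5,0),(2,0),(21,8),(2,1),(3,10)]⟩⟩,.o ⟨false,0,⟨0,[(47,0)]⟩,⟨15,[(11,3),(7,3),(9,2),
  (0,2),(11,5),(6,3)]⟩⟩,.o ⟨false,1,⟨1,[(5,0),(0,0),(23,0),(11,0)]⟩,⟨0,[(26,0),(4,0),(2,0)]⟩⟩,.a
  ⟨true,0,⟨0,[(32,0)]⟩,⟨0,[(31,0)]⟩⟩ ⟨true,0,⟨0,[(1,0)]⟩,⟨0,[(0,0),(2,0),(29,0)]⟩⟩ ⟨false,0,⟨0,[(31,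
  0),(15,0)]⟩,⟨7,[(3,1),(3,1),(3,1),(20,5),(9,2),(6,4)]⟩⟩]⟩) (.Q [0,0,-1,-2,0,0,0,0,-1,-1,0,1] (.p
  true [0,0,0,1] [1] (⟨0,[(32,0)]⟩,⟨0,[(31,0)]⟩) .k 1 (⟨0,[]⟩,⟨0,[]⟩) .k .k) (.R ⟨1,false,false,
  true,[1,0,0,-1],[0,1],[1,0,0,-1,0,0,0,0,-1],(⟨0,[(32,0)]⟩,⟨0,[(33,0)]⟩),(⟨0,[(45,0)]⟩,⟨0,[(44,
  0)]⟩),⟨0,[(5,0)]⟩,.k,.k,(.x (-1) ⟨15,[(10,3),(0,3),(18,6),(0,6),(11,1)]⟩ ⟨0,[(45,0)]⟩),(.x (-1)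
  ⟨15,[(10,3),(0,3),(18,6),(0,6),(11,1)]⟩ ⟨0,[(45,0)]⟩),(.r (-1) ⟨3,[(2,1),(5,0),(9,1),(10,0),(0,0),
  (18,0)]⟩ ⟨0,[(3,0),(32,0),(2,0),(8,1)]⟩),.k,⟨false,1,⟨9,[(2,7),(15,3),(2,3),(8,0),(18,1),(0,2)]⟩,
  ⟨0,[(3,0),(24,0),(7,0),(11,2)]⟩⟩,⟨true,0,⟨0,[(32,0)]⟩,⟨1,[(4,1),(10,0),(19,0),(2,0)]⟩⟩,⟨false,1,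
  ⟨15,[(8,3),(3,3),(0,3),(16,2),(0,2),(18,9)]⟩,⟨0,[(48,0)]⟩⟩,⟨true,0,⟨0,[(3,0),(24,0),(3,0),(3,0),
  (11,1)]⟩,⟨0,[(1,0)]⟩⟩,⟨true,0,⟨0,[]⟩,⟨0,[(52,0)]⟩⟩,⟨true,0,⟨0,[(3,0),(24,0),(3,0),(3,0),(11,2)]⟩,
  ⟨0,[(0,0)]⟩⟩,[.o ⟨false,0,⟨0,[(48,0),(3,0)]⟩,⟨20,[(8,2),(3,5),(5,0),(2,0),(21,8),(2,1),(3,10)]⟩⟩,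
  .o ⟨false,0,⟨0,[(48,0)]⟩,⟨15,[(12,3),(7,3),(9,2),(0,2),(11,5),(6,3)]⟩⟩,.o ⟨false,1,⟨1,[(6,0),(0,
  0),(23,0),(11,0)]⟩,⟨0,[(27,0),(4,0),(2,0)]⟩⟩,.a ⟨true,0,⟨0,[(33,0)]⟩,⟨0,[(32,0)]⟩⟩ ⟨true,0,⟨0,[(2,
  0)]⟩,⟨0,[(3,0),(24,0),(7,0),(11,1)]⟩⟩ ⟨false,0,⟨0,[(32,0),(15,0)]⟩,⟨27,[(0,3),(2,1),(8,5),(7,3),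
  (10,0),(1,23),(1,1),(7,8),(6,17)]⟩⟩]⟩) (.R ⟨1,true,false,true,[1,0,0,-1],[0,1],[0,0,0,0,0,0,0,0,
  -1],(⟨0,[(32,0)]⟩,⟨0,[(33,0)]⟩),(⟨0,[(45,0)]⟩,⟨0,[(44,0)]⟩),⟨0,[(5,0)]⟩,.k,.k,(.x (-1) ⟨15,[(10,
  3),(0,3),(18,6),(0,6),(11,1)]⟩ ⟨0,[(45,0)]⟩),(.x (-1) ⟨15,[(10,3),(0,3),(18,6),(0,6),(11,1)]⟩ ⟨0,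
  [(45,0)]⟩),(.r (-1) ⟨3,[(2,1),(5,0),(9,1),(10,0),(0,0),(18,0)]⟩ ⟨4,[(0,3),(2,0),(0,1),(28,1),(0,
  0),(0,2),(2,1),(9,1)]⟩),.k,⟨false,1,⟨1,[(2,1),(46,0),(0,0)]⟩,⟨0,[(0,0),(3,0),(20,0)]⟩⟩,⟨true,0,⟨0,
  [(32,0)]⟩,⟨1,[(4,1),(10,0),(19,0),(2,0)]⟩⟩,⟨false,1,⟨3,[(30,0),(0,0),(18,1)]⟩,⟨0,[]⟩⟩,⟨true,0,⟨1,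
  [(0,1),(11,0),(24,0)]⟩,⟨0,[(1,0)]⟩⟩,⟨true,0,⟨0,[(48,0)]⟩,⟨1,[(12,0),(24,0)]⟩⟩,⟨false,0,⟨0,[(0,
  0)]⟩,⟨51,[(1,43),(6,9),(3,15),(5,3),(10,1),(0,8),(0,4),(1,7),(16,33)]⟩⟩,[]⟩))) (.R ⟨1,false,false,
  true,[1,0,0,-1],[0,1],[1,1,0,-1,0,0,0,0,-1],(⟨0,[(30,0)]⟩,⟨0,[(31,0)]⟩),(⟨0,[(43,0)]⟩,⟨0,[(42,
  0)]⟩),⟨0,[(3,0)]⟩,.k,.k,(.r (-1) ⟨5,[(6,0),(9,1),(10,0),(0,2),(18,0)]⟩ ⟨0,[(0,0)]⟩),(.r (-1) ⟨5,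
  [(6,0),(9,1),(10,0),(0,2),(18,0)]⟩ ⟨0,[(0,0)]⟩),(.r (-1) ⟨3,[(4,1),(10,0),(0,1),(1,1),(6,0),(1,0),
  (0,0),(1,1)]⟩ ⟨1,[(0,1),(35,0),(0,0),(8,1)]⟩),.k,⟨false,1,⟨3,[(4,1),(10,0),(0,1),(1,1),(6,0),(1,
  0),(0,0),(1,1)]⟩,⟨0,[(0,0),(45,0)]⟩⟩,⟨true,0,⟨0,[(30,0)]⟩,⟨1,[(2,1),(10,0),(19,0),(2,0)]⟩⟩,⟨true,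
  0,⟨1,[(10,0),(24,0)]⟩,⟨0,[(46,0)]⟩⟩,⟨false,0,⟨0,[(0,0),(29,0)]⟩,⟨11,[(4,6),(0,4),(0,1),(3,3),(30,
  4),(6,6)]⟩⟩,⟨false,0,⟨0,[]⟩,⟨3,[(28,0),(0,0),(18,1)]⟩⟩,⟨false,0,⟨0,[(0,0),(29,0),(15,0)]⟩,⟨2,[(4,
  1),(0,0),(0,0),(3,1),(30,0),(6,1)]⟩⟩,[.o ⟨false,0,⟨0,[(46,0),(3,0)]⟩,⟨20,[(6,2),(3,5),(5,0),(2,0),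
  (21,8),(2,1),(3,10)]⟩⟩,.o ⟨false,0,⟨0,[(46,0)]⟩,⟨15,[(10,3),(7,3),(9,2),(0,2),(11,5),(6,3)]⟩⟩,.o
  ⟨false,1,⟨1,[(4,0),(0,0),(23,0),(11,0)]⟩,⟨0,[(25,0),(4,0),(2,0)]⟩⟩,.a ⟨true,0,⟨0,[(31,0)]⟩,⟨0,
  [(30,0)]⟩⟩ ⟨true,0,⟨0,[(4,0),(18,0),(6,0),(3,0)]⟩,⟨0,[(0,0)]⟩⟩ ⟨false,0,⟨0,[(30,0),(15,0)]⟩,⟨7,
  [(2,1),(3,1),(3,1),(20,5),(9,2),(6,4)]⟩⟩]⟩)))) (.Q [0,1,1,-1,0,0,-1,-1,1,0,1,-1] (.p true [0,0,1]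
  [0,0,0,1] (⟨0,[(37,0)]⟩,⟨0,[(36,0)]⟩) .k 2 (⟨0,[(28,0)]⟩,⟨0,[(27,0)]⟩) .k (.r 0 ⟨0,[(1,0),(25,0),
  (2,0),(0,0)]⟩ ⟨3,[(25,0),(0,2),(8,3)]⟩)) (.Q [0,0,0,-1,0,0,1,1,0,1,-1] (.p false [0,0,1] [1] (⟨0,
  [(38,0)]⟩,⟨0,[(37,0)]⟩) .k 1 (⟨0,[]⟩,⟨0,[]⟩) .k .k) (.Q [0,1,1,1,0,0,1,1,1,1,-1,-1] (.p false [0,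
  0,1] [1,0,0,-1] (⟨0,[(39,0)]⟩,⟨0,[(38,0)]⟩) .k 2 (⟨0,[(29,0)]⟩,⟨0,[(30,0)]⟩) .k (.r (-1) ⟨2,[(6,
  0),(13,0),(7,1)]⟩ ⟨1,[(3,0),(2,0),(5,0),(11,0),(4,0),(5,0),(1,0)]⟩)) (.R ⟨0,false,false,true,[1,0,
  0,-1],[0,1,1],[1,1],(⟨0,[(30,0)]⟩,⟨0,[(31,0)]⟩),(⟨0,[(40,0),(2,0)]⟩,⟨0,[(22,0)]⟩),⟨0,[(3,0)]⟩,.k,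
  .k,(.x (-1) ⟨15,[(8,3),(0,3),(18,6),(0,6),(11,1)]⟩ ⟨0,[(43,0)]⟩),(.r 0 ⟨0,[(4,0),(18,0),(1,0),(4,
  0)]⟩ ⟨15,[(0,7),(20,3),(6,2),(0,6),(1,7),(1,7),(12,7),(1,1)]⟩),.k,.k,⟨false,1,⟨1,[(6,0),(20,0),
  (19,1)]⟩,⟨3,[(0,0),(6,0),(6,1),(16,0),(1,0),(12,2)]⟩⟩,⟨true,0,⟨0,[(25,0),(4,0)]⟩,⟨0,[(31,0),(1,
  0)]⟩⟩,⟨false,1,⟨3,[(28,0),(0,2)]⟩,⟨0,[(4,0),(20,0),(4,0),(2,0)]⟩⟩,⟨true,0,⟨0,[(0,0)]⟩,⟨0,[(4,0),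
  (18,0)]⟩⟩,⟨false,0,⟨0,[]⟩,⟨0,[]⟩⟩,⟨false,0,⟨0,[]⟩,⟨0,[]⟩⟩,[.o ⟨false,0,⟨0,[(34,0),(11,0)]⟩,⟨7,[(6,
  3),(21,0),(0,0),(11,1),(6,3)]⟩⟩,.e ⟨true,0,⟨0,[]⟩,⟨1,[(36,0),(0,0)]⟩⟩ ⟨true,0,⟨1,[(0,0),(6,0),(17,
  0),(4,0),(13,0),(1,0)]⟩,⟨5,[(3,3),(2,2),(1,0),(0,0),(21,1)]⟩⟩,.o ⟨false,1,⟨1,[(4,0),(0,0),(23,0),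
  (11,0)]⟩,⟨0,[(25,0),(4,0),(2,0)]⟩⟩,.a ⟨true,0,⟨0,[(31,0)]⟩,⟨0,[(30,0)]⟩⟩ ⟨false,1,⟨3,[(28,0),(0,
  0),(17,1)]⟩,⟨3,[(36,0),(0,0),(6,1)]⟩⟩ ⟨true,0,⟨0,[(30,0),(3,0),(11,0)]⟩,⟨5,[(3,3),(2,2),(1,0),(0,
  0),(21,1)]⟩⟩]⟩) (.R ⟨0,false,false,true,[1,0,0,-1],[0,1],[1,0,1],(⟨0,[(30,0)]⟩,⟨0,[(31,0)]⟩),(⟨0,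
  [(43,0)]⟩,⟨0,[(42,0)]⟩),⟨0,[(3,0)]⟩,.k,.k,(.x (-1) ⟨15,[(8,3),(0,3),(18,6),(0,6),(11,1)]⟩ ⟨0,[(43,
  0)]⟩),(.x (-1) ⟨15,[(8,3),(0,3),(18,6),(0,6),(11,1)]⟩ ⟨0,[(43,0)]⟩),.k,.k,⟨false,1,⟨5,[(6,0),(9,
  1),(10,0),(19,0),(0,2)]⟩,⟨0,[(46,0),(3,0)]⟩⟩,⟨true,0,⟨0,[(30,0)]⟩,⟨5,[(3,3),(4,0),(0,0),(21,1),(1,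
  2),(2,2)]⟩⟩,⟨false,1,⟨1,[(29,0),(6,0),(0,0),(10,0)]⟩,⟨0,[(0,0),(29,0),(3,0),(11,0)]⟩⟩,⟨true,0,⟨0,
  [(2,0),(8,0),(34,1)]⟩,⟨0,[(0,0),(33,0)]⟩⟩,⟨false,0,⟨0,[]⟩,⟨0,[]⟩⟩,⟨false,0,⟨0,[]⟩,⟨0,[]⟩⟩,[.o
  ⟨false,0,⟨0,[(46,0),(3,0)]⟩,⟨20,[(6,2),(3,5),(5,0),(2,0),(21,8),(2,1),(3,10)]⟩⟩,.o ⟨false,0,⟨0,
  [(46,0)]⟩,⟨15,[(10,3),(7,3),(9,2),(0,2),(11,5),(6,3)]⟩⟩,.o ⟨false,1,⟨1,[(4,0),(0,0),(23,0),(11,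
  0)]⟩,⟨0,[(25,0),(4,0),(2,0)]⟩⟩,.a ⟨true,0,⟨0,[(31,0)]⟩,⟨0,[(30,0)]⟩⟩ ⟨true,0,⟨0,[]⟩,⟨0,[(50,0)]⟩⟩
  ⟨false,0,⟨0,[(30,0),(15,0)]⟩,⟨29,[(0,1),(5,3),(3,9),(18,0),(1,27),(9,11),(2,1),(3,16)]⟩⟩]⟩)) (.R
  ⟨0,false,false,true,[1,0,0,-1],[0,1],[1,0,1],(⟨0,[(29,0)]⟩,⟨0,[(30,0)]⟩),(⟨0,[(42,0)]⟩,⟨0,[(41,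
  0)]⟩),⟨0,[(2,0)]⟩,.k,.k,(.x (-1) ⟨15,[(7,3),(0,3),(18,6),(0,6),(11,1)]⟩ ⟨0,[(42,0)]⟩),(.x (-1)
  ⟨15,[(7,3),(0,3),(18,6),(0,6),(11,1)]⟩ ⟨0,[(42,0)]⟩),.k,.k,⟨false,1,⟨5,[(5,0),(9,1),(10,0),(19,0),
  (0,2)]⟩,⟨0,[(45,0),(3,0)]⟩⟩,⟨true,0,⟨0,[(29,0)]⟩,⟨5,[(2,3),(4,0),(0,0),(21,1),(1,2),(2,2)]⟩⟩,
  ⟨false,1,⟨1,[(28,0),(6,0),(0,0),(10,0)]⟩,⟨0,[(0,0),(2,0),(15,0),(9,0)]⟩⟩,⟨true,0,⟨0,[(1,0),(8,0),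
  (34,1)]⟩,⟨0,[(0,0),(2,0),(5,0)]⟩⟩,⟨false,0,⟨0,[]⟩,⟨0,[]⟩⟩,⟨false,0,⟨0,[]⟩,⟨0,[]⟩⟩,[.o ⟨false,0,⟨0,
  [(45,0),(3,0)]⟩,⟨20,[(5,2),(3,5),(5,0),(2,0),(21,8),(2,1),(3,10)]⟩⟩,.o ⟨false,0,⟨0,[(45,0)]⟩,⟨15,
  [(9,3),(7,3),(9,2),(0,2),(11,5),(6,3)]⟩⟩,.o ⟨false,1,⟨1,[(3,0),(0,0),(23,0),(11,0)]⟩,⟨0,[(24,0),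
  (4,0),(2,0)]⟩⟩,.a ⟨true,0,⟨0,[(30,0)]⟩,⟨0,[(29,0)]⟩⟩ ⟨true,0,⟨0,[]⟩,⟨0,[(49,0)]⟩⟩ ⟨false,0,⟨0,
  [(29,0),(15,0)]⟩,⟨20,[(5,2),(3,5),(5,0),(2,0),(11,20),(9,8),(2,1),(3,10)]⟩⟩]⟩)) (.I [0,1,-2,-1,0,
  0,0,-1,-1] (.R ⟨0,false,false,false,[1,0,0,-1],[0,1,1],[0,1,0,0,0,0,0,0,-1],(⟨0,[(29,0)]⟩,⟨0,[(30,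
  0)]⟩),(⟨0,[(39,0),(2,0)]⟩,⟨0,[(21,0)]⟩),⟨0,[(2,0)]⟩,.k,.k,(.x (-1) ⟨15,[(7,3),(0,3),(18,6),(0,6),
  (11,1)]⟩ ⟨0,[(42,0)]⟩),(.r 0 ⟨31,[(0,25),(3,3),(0,2),(0,1),(5,0),(16,3),(5,7),(7,15)]⟩ ⟨11,[(20,
  3),(6,0),(0,6),(4,3),(1,3),(0,7),(8,11)]⟩),.k,.k,⟨false,0,⟨0,[(0,0)]⟩,⟨5,[(13,1),(6,1),(7,2),(6,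
  1),(0,1),(8,5),(1,0)]⟩⟩,⟨true,0,⟨0,[(24,0),(4,0)]⟩,⟨0,[(30,0),(1,0)]⟩⟩,⟨true,0,⟨0,[(49,0)]⟩,⟨0,
  []⟩⟩,⟨false,1,⟨3,[(20,1),(3,0),(3,1),(0,3),(5,2),(7,0),(1,3)]⟩,⟨5,[(1,1),(1,2),(0,0),(7,1),(4,
  3)]⟩⟩,⟨false,0,⟨0,[]⟩,⟨0,[]⟩⟩,⟨false,0,⟨0,[]⟩,⟨0,[]⟩⟩,[.a ⟨true,0,⟨0,[(10,0),(34,0)]⟩,⟨1,[(5,0),
  (23,0),(0,0)]⟩⟩ ⟨false,0,⟨1,[(0,0),(5,0),(38,0)]⟩,⟨1,[(28,0),(18,0)]⟩⟩ ⟨true,0,⟨1,[(13,0),(15,1),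
  (3,0),(1,0),(9,1)]⟩,⟨5,[(2,3),(2,2),(1,0),(0,0),(21,1)]⟩⟩,.o ⟨false,1,⟨3,[(20,1),(5,1),(13,0),(4,
  3),(1,0)]⟩,⟨0,[(22,0)]⟩⟩,.o ⟨false,1,⟨1,[(3,0),(0,0),(23,0),(11,0)]⟩,⟨0,[(24,0),(4,0),(2,0)]⟩⟩,.e
  ⟨false,0,⟨1,[(0,0),(0,0),(27,0),(2,0)]⟩,⟨1,[(28,0),(6,0),(0,0),(10,0)]⟩⟩ ⟨false,1,⟨3,[(20,1),(5,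
  1),(2,3),(10,0),(4,3),(1,0)]⟩,⟨5,[(2,3),(2,2),(1,0),(0,0),(21,1)]⟩⟩]⟩) (.I [1,1,1,0,0,0,0,0,1]
  (.R ⟨0,false,false,true,[1,0,0,-1],[0,1],[1,0,1],(⟨0,[(30,0)]⟩,⟨0,[(31,0)]⟩),(⟨0,[(43,0)]⟩,⟨0,
  [(42,0)]⟩),⟨0,[(3,0)]⟩,.k,.k,(.x (-1) ⟨15,[(8,3),(0,3),(18,6),(0,6),(11,1)]⟩ ⟨0,[(43,0)]⟩),(.x
  (-1) ⟨15,[(8,3),(0,3),(18,6),(0,6),(11,1)]⟩ ⟨0,[(43,0)]⟩),.k,.k,⟨false,1,⟨5,[(6,0),(9,1),(10,0),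
  (19,0),(0,2)]⟩,⟨0,[(46,0),(3,0)]⟩⟩,⟨true,0,⟨0,[(30,0)]⟩,⟨5,[(3,3),(4,0),(0,0),(21,1),(1,2),(2,
  2)]⟩⟩,⟨false,1,⟨0,[(0,0),(47,0)]⟩,⟨0,[(2,0),(20,0),(6,0)]⟩⟩,⟨true,0,⟨0,[(0,0),(29,0),(15,0)]⟩,⟨0,
  [(2,0),(15,0)]⟩⟩,⟨false,0,⟨0,[]⟩,⟨0,[]⟩⟩,⟨false,0,⟨0,[]⟩,⟨0,[]⟩⟩,[.o ⟨false,0,⟨0,[(46,0),(3,0)]⟩,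
  ⟨20,[(6,2),(3,5),(5,0),(2,0),(21,8),(2,1),(3,10)]⟩⟩,.o ⟨false,0,⟨0,[(46,0)]⟩,⟨15,[(10,3),(7,3),(9,
  2),(0,2),(11,5),(6,3)]⟩⟩,.o ⟨false,1,⟨1,[(4,0),(0,0),(23,0),(11,0)]⟩,⟨0,[(25,0),(4,0),(2,0)]⟩⟩,.a
  ⟨true,0,⟨0,[(31,0)]⟩,⟨0,[(30,0)]⟩⟩ ⟨true,0,⟨0,[]⟩,⟨0,[(50,0)]⟩⟩ ⟨false,0,⟨0,[(30,0),(15,0)]⟩,⟨20,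
  [(6,2),(3,5),(5,0),(2,0),(11,20),(9,8),(2,1),(3,10)]⟩⟩]⟩) (.Q [0,0,0,0,0,0,-1,-1,0,0,1,-1] (.p
  true [0,0,1] [0,0,0,1] (⟨0,[(40,0)]⟩,⟨0,[(39,0)]⟩) .k 2 (⟨0,[(31,0)]⟩,⟨0,[(30,0)]⟩) .k (.r 0 ⟨2,
  [(0,0),(6,1),(6,0)]⟩ ⟨3,[(28,0),(0,2),(8,3)]⟩)) (.R ⟨0,false,false,false,[1,0,0,-1],[1,0,-1],[0,1,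
  0,0,0,0,0,0,-1],(⟨0,[(31,0)]⟩,⟨0,[(32,0)]⟩),(⟨0,[(40,0)]⟩,⟨0,[(41,0)]⟩),⟨0,[(4,0)]⟩,.k,.k,(.x
  (-1) ⟨15,[(9,3),(0,3),(18,6),(0,6),(11,1)]⟩ ⟨0,[(44,0)]⟩),.k,.k,.k,⟨false,0,⟨0,[(1,0),(25,0),(7,
  0),(11,0)]⟩,⟨1,[(30,0),(8,1),(9,0)]⟩⟩,⟨true,0,⟨0,[(31,0),(2,0)]⟩,⟨5,[(4,3),(4,0),(0,0),(17,2),(3,
  1)]⟩⟩,⟨true,0,⟨0,[(51,0)]⟩,⟨0,[]⟩⟩,⟨false,1,⟨5,[(0,3),(1,1),(4,0),(6,0),(14,0),(0,2),(0,1),(5,1),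
  (11,1)]⟩,⟨2,[(3,1),(2,0),(4,0)]⟩⟩,⟨false,0,⟨0,[]⟩,⟨0,[]⟩⟩,⟨false,0,⟨0,[]⟩,⟨0,[]⟩⟩,[.e ⟨false,0,⟨2,
  [(0,1),(0,0),(4,1),(28,1)]⟩,⟨1,[(30,0),(18,0)]⟩⟩ ⟨false,0,⟨0,[(0,0)]⟩,⟨11,[(3,7),(2,3),(4,3),(17,
  2),(0,8)]⟩⟩,.o ⟨false,1,⟨7,[(14,3),(14,0),(0,0),(11,1),(6,3)]⟩,⟨0,[(35,0)]⟩⟩,.o ⟨false,1,⟨1,[(5,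
  0),(0,0),(23,0),(11,0)]⟩,⟨1,[(0,1),(14,0),(19,0),(1,0)]⟩⟩,.a ⟨true,0,⟨0,[(32,0)]⟩,⟨0,[(31,0)]⟩⟩
  ⟨false,0,⟨2,[(0,0),(0,1),(4,0),(28,0)]⟩,⟨3,[(2,1),(4,0),(20,0),(0,0),(0,1),(18,0)]⟩⟩ ⟨true,0,⟨0,
  [(0,0)]⟩,⟨0,[(32,0),(2,0)]⟩⟩]⟩) (.R ⟨0,false,false,false,[1,0,0,-1],[1,0,-1],[0,1,0,0,0,0,0,0,-1],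
  (⟨0,[(31,0)]⟩,⟨0,[(32,0)]⟩),(⟨0,[(40,0)]⟩,⟨0,[(41,0)]⟩),⟨0,[(4,0)]⟩,.k,.k,(.x (-1) ⟨15,[(9,3),(0,
  3),(18,6),(0,6),(11,1)]⟩ ⟨0,[(44,0)]⟩),.k,.k,.k,⟨false,0,⟨0,[(1,0),(25,0),(7,0),(11,0)]⟩,⟨1,[(30,
  0),(8,1),(9,0)]⟩⟩,⟨true,0,⟨0,[(31,0),(2,0)]⟩,⟨5,[(4,3),(4,0),(0,0),(17,2),(3,1)]⟩⟩,⟨true,0,⟨0,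
  [(51,0)]⟩,⟨0,[]⟩⟩,⟨false,1,⟨11,[(2,3),(4,1),(6,5),(14,0),(0,4),(0,11),(5,3),(4,1),(6,3)]⟩,⟨2,[(3,
  1),(2,0),(4,0)]⟩⟩,⟨false,0,⟨0,[]⟩,⟨0,[]⟩⟩,⟨false,0,⟨0,[]⟩,⟨0,[]⟩⟩,[.a ⟨true,0,⟨1,[(14,0),(16,0),
  (0,0)]⟩,⟨0,[(12,0)]⟩⟩ ⟨false,0,⟨1,[(1,0),(4,0),(24,0),(1,0),(1,0)]⟩,⟨1,[(30,0),(18,0)]⟩⟩ ⟨true,0,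
  ⟨1,[(14,0),(16,1),(2,0),(2,0)]⟩,⟨0,[(0,0)]⟩⟩,.o ⟨false,1,⟨7,[(14,3),(14,0),(0,0),(11,1),(6,3)]⟩,
  ⟨0,[(35,0)]⟩⟩,.o ⟨false,1,⟨1,[(5,0),(0,0),(23,0),(11,0)]⟩,⟨0,[(26,0),(4,0),(2,0)]⟩⟩,.e ⟨false,0,
  ⟨3,[(1,2),(4,0),(24,0),(1,0),(1,0)]⟩,⟨3,[(2,1),(4,0),(20,0),(0,0),(0,1),(18,0)]⟩⟩ ⟨false,1,⟨7,
  [(14,3),(14,0),(0,0),(0,7),(10,1),(6,3)]⟩,⟨0,[(0,0)]⟩⟩]⟩))))))) (.Q [0,1,0,-1,0,0,0,0,0,-1,0,1]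
  (.p true [0,0,0,1] [1] (⟨0,[(26,0)]⟩,⟨0,[(25,0)]⟩) .k 1 (⟨0,[]⟩,⟨0,[]⟩) .k .k) (.Q [0,0,0,0,0,-1,
  0,0,0,1,0,-1] (.p false [0,0,0,1] [1] (⟨0,[(27,0)]⟩,⟨0,[(26,0)]⟩) .k 1 (⟨0,[]⟩,⟨0,[]⟩) .k .k) (.R
  ⟨1,false,false,false,[1,0,0,-1],[0,1],[0,1,0,0,0,0,0,0,-1],(⟨0,[(27,0)]⟩,⟨0,[(28,0)]⟩),(⟨0,[(40,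
  0)]⟩,⟨0,[(39,0)]⟩),⟨0,[(0,0)]⟩,.k,.k,(.x (-1) ⟨15,[(5,3),(0,3),(18,6),(0,6),(11,1)]⟩ ⟨0,[(40,
  0)]⟩),(.x (-1) ⟨15,[(5,3),(0,3),(18,6),(0,6),(11,1)]⟩ ⟨0,[(40,0)]⟩),(.r (-1) ⟨5,[(3,0),(0,5),(8,
  1),(2,5),(7,0),(19,3)]⟩ ⟨1,[(2,1),(25,1),(4,0),(0,0),(8,3),(3,1)]⟩),.k,⟨false,1,⟨1,[(3,0),(0,1),
  (19,0),(19,1)]⟩,⟨0,[(2,0),(25,0),(14,0)]⟩⟩,⟨true,0,⟨0,[(27,0)]⟩,⟨2,[(1,1),(26,0),(1,0),(2,0),(7,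
  0),(1,1)]⟩⟩,⟨true,0,⟨0,[(47,0)]⟩,⟨0,[]⟩⟩,⟨false,0,⟨0,[(2,0),(24,0),(0,0),(14,0)]⟩,⟨9,[(1,4),(2,1),
  (7,4),(0,0),(2,2),(5,4),(2,3),(2,4),(12,1)]⟩⟩,⟨false,0,⟨0,[(43,0)]⟩,⟨15,[(3,3),(3,3),(0,3),(16,2),
  (0,2),(18,9)]⟩⟩,⟨false,0,⟨0,[(2,0),(24,0),(0,0),(14,1)]⟩,⟨19,[(1,14),(2,3),(7,4),(0,6),(2,10),(5,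
  4),(2,7),(2,4),(12,3)]⟩⟩,[.o ⟨false,0,⟨0,[(43,0)]⟩,⟨15,[(7,3),(7,3),(9,2),(0,2),(11,5),(6,3)]⟩⟩,
  .e ⟨true,0,⟨0,[(4,0),(11,0),(26,0)]⟩,⟨0,[(2,0),(25,0),(18,0)]⟩⟩ ⟨true,0,⟨3,[(27,3),(5,0),(0,0),(6,
  1),(1,3)]⟩,⟨0,[(1,0)]⟩⟩,.o ⟨false,1,⟨1,[(28,1),(9,0),(5,0)]⟩,⟨2,[(2,1),(1,1),(5,0),(11,0),(4,0),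
  (5,0)]⟩⟩,.a ⟨true,0,⟨0,[(28,0)]⟩,⟨0,[(27,0)]⟩⟩ ⟨false,1,⟨1,[(25,0),(18,0)]⟩,⟨0,[(2,0),(25,0)]⟩⟩
  ⟨true,0,⟨0,[(27,0),(15,0)]⟩,⟨0,[(1,0)]⟩⟩]⟩) (.R ⟨0,false,false,false,[1,0,0,-1],[0,1],[0,1,0,0,0,
  0,0,0,-1],(⟨0,[(27,0)]⟩,⟨0,[(28,0)]⟩),(⟨0,[(40,0)]⟩,⟨0,[(39,0)]⟩),⟨0,[(0,0)]⟩,.k,.k,(.x (-1) ⟨15,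
  [(5,3),(0,3),(18,6),(0,6),(11,1)]⟩ ⟨0,[(40,0)]⟩),(.x (-1) ⟨15,[(5,3),(0,3),(18,6),(0,6),(11,1)]⟩
  ⟨0,[(40,0)]⟩),.k,.k,⟨false,1,⟨1,[(3,0),(0,1),(19,0),(19,1)]⟩,⟨0,[(2,0),(25,0),(14,0)]⟩⟩,⟨true,0,
  ⟨0,[(27,0)]⟩,⟨5,[(0,3),(4,0),(0,0),(21,1),(1,2),(2,2)]⟩⟩,⟨true,0,⟨0,[(47,0)]⟩,⟨0,[]⟩⟩,⟨false,0,⟨0,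
  [(2,0),(24,0),(0,0),(14,0)]⟩,⟨15,[(0,11),(0,3),(3,2),(0,2),(5,3),(0,3),(2,3),(5,1),(1,0),(0,7)]⟩⟩,
  ⟨false,0,⟨0,[]⟩,⟨0,[]⟩⟩,⟨false,0,⟨0,[]⟩,⟨0,[]⟩⟩,[.o ⟨false,0,⟨0,[(43,0)]⟩,⟨15,[(7,3),(7,3),(9,2),
  (0,2),(11,5),(6,3)]⟩⟩,.e ⟨true,0,⟨0,[(4,0),(11,0),(26,0)]⟩,⟨0,[(2,0),(25,0),(18,0)]⟩⟩ ⟨true,0,⟨3,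
  [(27,3),(5,0),(0,0),(6,1),(1,3)]⟩,⟨0,[(1,0)]⟩⟩,.o ⟨false,1,⟨1,[(28,1),(9,0),(5,0)]⟩,⟨2,[(2,1),(1,
  1),(5,0),(11,0),(4,0),(5,0)]⟩⟩,.a ⟨true,0,⟨0,[(28,0)]⟩,⟨0,[(27,0)]⟩⟩ ⟨false,1,⟨1,[(25,0),(18,0)]⟩,
  ⟨0,[(2,0),(25,0)]⟩⟩ ⟨true,0,⟨0,[(27,0),(15,0)]⟩,⟨0,[(1,0)]⟩⟩]⟩)) (.R ⟨1,false,false,false,[1,0,0,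
  -1],[0,1],[0,1,0,0,0,0,0,0,-1],(⟨0,[(26,0)]⟩,⟨0,[(27,0)]⟩),(⟨0,[(39,0)]⟩,⟨0,[(38,0)]⟩),⟨3,[(0,1),
  (3,0),(0,0),(10,0),(2,0),(6,1)]⟩,.k,.k,(.x (-1) ⟨15,[(4,3),(0,3),(18,6),(0,6),(11,1)]⟩ ⟨0,[(39,
  0)]⟩),(.x (-1) ⟨15,[(4,3),(0,3),(18,6),(0,6),(11,1)]⟩ ⟨0,[(39,0)]⟩),(.r (-1) ⟨5,[(2,0),(0,5),(8,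
  1),(2,5),(7,0),(19,3)]⟩ ⟨1,[(1,1),(25,1),(4,0),(0,0),(8,3),(3,1)]⟩),.k,⟨false,1,⟨1,[(2,0),(0,1),
  (19,0),(19,1)]⟩,⟨0,[(1,0),(25,0),(14,0)]⟩⟩,⟨true,0,⟨0,[(26,0)]⟩,⟨0,[(21,0),(5,0),(1,0)]⟩⟩,⟨true,0,
  ⟨0,[(46,0)]⟩,⟨0,[]⟩⟩,⟨false,0,⟨1,[(0,0),(0,1),(5,0),(19,0),(3,0),(10,0)]⟩,⟨11,[(3,5),(2,1),(4,5),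
  (3,7),(5,3),(2,2),(2,11),(9,2)]⟩⟩,⟨false,0,⟨0,[(42,0)]⟩,⟨15,[(2,3),(3,3),(0,3),(16,2),(0,2),(18,
  9)]⟩⟩,⟨false,0,⟨1,[(0,0),(0,1),(5,0),(19,0),(3,0),(10,2)]⟩,⟨3,[(3,1),(2,1),(4,1),(3,3),(8,0),(2,
  3),(9,0)]⟩⟩,[.o ⟨false,0,⟨0,[(42,0)]⟩,⟨15,[(6,3),(7,3),(9,2),(0,2),(11,5),(6,3)]⟩⟩,.a ⟨true,0,⟨0,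
  [(0,0),(26,0)]⟩,⟨0,[(41,0)]⟩⟩ ⟨true,0,⟨0,[(3,0),(11,0),(26,0)]⟩,⟨0,[(1,0),(25,0),(18,0)]⟩⟩ ⟨false,
  0,⟨0,[(0,0)]⟩,⟨1,[(6,0),(20,1),(3,0),(5,0),(5,0)]⟩⟩,.o ⟨false,1,⟨1,[(27,1),(9,0),(5,0)]⟩,⟨1,[(0,
  0),(0,0),(1,0),(15,0),(12,0)]⟩⟩,.e ⟨false,1,⟨1,[(24,0),(18,0)]⟩,⟨0,[(1,0),(25,0)]⟩⟩ ⟨false,0,⟨0,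
  [(0,0)]⟩,⟨15,[(6,3),(7,3),(9,2),(0,2),(1,15),(9,5),(6,3)]⟩⟩]⟩)))))

theorem ok48 : chk (cU (-1) true 10) t48 r36 = true := by decide +kernel

noncomputable def t54 : Tre :=
  (.R ⟨1,false,false,false,[1,0,-1],[0,0,1],[1,0,1],(⟨0,[(27,0)]⟩,⟨0,[(28,0)]⟩),(⟨0,[(28,0)]⟩,⟨0,
  [(27,0)]⟩),⟨0,[(10,0)]⟩,.k,.k,.k,.k,(.r (-1) ⟨3,[(6,0),(0,1),(7,0),(0,0),(0,0),(5,0),(2,3),(8,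
  1)]⟩ ⟨0,[(0,0),(4,0)]⟩),.k,⟨false,0,⟨0,[(26,0)]⟩,⟨1,[(9,0),(25,0),(2,0)]⟩⟩,⟨true,0,⟨0,[(15,0)]⟩,
  ⟨0,[(5,0)]⟩⟩,⟨false,0,⟨0,[(2,0)]⟩,⟨3,[(16,0),(0,0),(8,3),(8,1)]⟩⟩,⟨false,1,⟨0,[(9,0),(5,0)]⟩,⟨0,
  [(1,0)]⟩⟩,⟨false,0,⟨0,[(2,0),(31,0)]⟩,⟨3,[(6,0),(0,1),(7,0),(0,0),(0,0),(5,0),(11,1)]⟩⟩,⟨true,0,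
  ⟨0,[(0,0)]⟩,⟨1,[(1,0),(4,0),(16,0)]⟩⟩,[.a ⟨true,0,⟨2,[(0,1),(6,0),(6,0),(3,0),(0,0)]⟩,⟨1,[(1,0),
  (16,0),(0,0)]⟩⟩ ⟨false,0,⟨0,[]⟩,⟨3,[(16,0),(0,0),(17,1)]⟩⟩ ⟨true,0,⟨6,[(0,3),(6,1),(0,0),(5,0),(0,
  2)]⟩,⟨1,[(1,0),(19,0),(3,0)]⟩⟩,.o ⟨false,1,⟨3,[(9,1),(5,1),(13,0),(6,0)]⟩,⟨0,[(20,0)]⟩⟩,.o ⟨false,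
  1,⟨9,[(3,1),(1,3),(10,2),(0,2),(11,1)]⟩,⟨0,[(13,0)]⟩⟩,.o ⟨false,0,⟨0,[(21,0)]⟩,⟨7,[(15,3),(0,0),
  (0,0),(11,1),(5,3)]⟩⟩]⟩)

theorem ok54 : chk (cU (-1) true 10) t54 r32 = true := by decide +kernel

noncomputable def t59 : Tre :=
  (.Q [0,0,0,2,0,0,-2,-2,0,-1,2] (.p true [0,0,1] [1,0,-1] (⟨0,[(31,0)]⟩,⟨0,[(30,0)]⟩) .k 2 (⟨0,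
  [(30,0)]⟩,⟨0,[(31,0)]⟩) .k (.r (-1) ⟨0,[(12,0),(28,0)]⟩ ⟨0,[(29,1)]⟩)) (.R ⟨1,true,false,false,[0,
  0,1],[1,1,-1],[0,1,0,0,0,0,0,1],(⟨0,[(32,0)]⟩,⟨0,[(31,0)]⟩),(⟨0,[(31,0),(3,0)]⟩,⟨0,[(16,0)]⟩),⟨0,
  [(16,0)]⟩,.k,.k,.k,(.r (-1) ⟨10,[(5,3),(1,2),(0,2),(0,0),(2,0),(0,4),(4,3)]⟩ ⟨3,[(0,1),(0,1),(18,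
  0),(0,0),(8,3)]⟩),(.r (-2) ⟨3,[(8,3),(4,1),(6,0),(0,0),(20,1)]⟩ ⟨0,[(0,0),(0,0)]⟩),.k,⟨false,1,⟨0,
  [(5,0),(1,0),(10,0)]⟩,⟨1,[(0,0),(0,0),(28,1),(9,0)]⟩⟩,⟨true,1,⟨6,[(0,1),(6,3),(1,0),(3,1),(4,3),
  (21,0)]⟩,⟨0,[(1,0)]⟩⟩,⟨true,0,⟨0,[(42,0)]⟩,⟨0,[]⟩⟩,⟨false,1,⟨7,[(0,5),(9,1),(9,0),(0,0),(5,1),(12,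
  5)]⟩,⟨0,[(4,0)]⟩⟩,⟨false,0,⟨0,[(38,0)]⟩,⟨19,[(1,3),(6,3),(1,3),(7,3),(1,2),(0,2),(18,13)]⟩⟩,⟨true,
  0,⟨0,[(0,0)]⟩,⟨0,[(4,0),(32,0)]⟩⟩,[]⟩) (.Q [0,1,-1,0,0,0,0,0,-1,0,0,1] (.p true [0,0,0,1] [] (⟨0,
  [(23,0)]⟩,⟨0,[(22,0)]⟩) .k 0 (⟨0,[]⟩,⟨0,[]⟩) .k .k) (.Q [0,1,1,0,0,0,0,0,1,0,0,-1] (.p false [0,0,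
  0,1] [] (⟨0,[(24,0)]⟩,⟨0,[(23,0)]⟩) .k 0 (⟨0,[]⟩,⟨0,[]⟩) .k .k) (.K ⟨0,[0,0,0,1],0,0,(⟨0,[(25,
  0)]⟩,⟨0,[(24,0)]⟩),.k,(.r (-1) ⟨11,[(10,3),(1,0),(0,1),(7,0),(1,5),(5,0),(11,1)]⟩ ⟨3,[(1,1),(1,0),
  (15,0),(2,0),(1,1),(2,2),(10,0),(1,3)]⟩),(.x 0 ⟨0,[(37,0)]⟩ ⟨15,[(4,3),(0,3),(16,6),(0,6),(11,
  1)]⟩),.k,.k,[⟨0,[(25,0)]⟩,⟨0,[(24,0)]⟩,⟨0,[(1,0)]⟩,⟨0,[(0,0)]⟩]⟩) (.Q [0,0,0,1,0,0,-1,-1,0,-1,1,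
  1] (.p true [0,0,1] [1,0,0,-1] (⟨0,[(34,0)]⟩,⟨0,[(33,0)]⟩) .k 2 (⟨0,[(24,0)]⟩,⟨0,[(25,0)]⟩) .k
  (.r (-1) ⟨1,[(15,0),(7,0),(20,0)]⟩ ⟨8,[(0,4),(2,1),(15,2),(2,1),(1,4),(1,6),(5,1),(5,0)]⟩)) (.Q
  [0,0,0,0,0,-1,0,0,0,1,0,-1] (.p false [0,0,0,1] [1] (⟨0,[(26,0)]⟩,⟨0,[(25,0)]⟩) .k 1 (⟨0,[]⟩,⟨0,
  []⟩) .k .k) (.I [0,1,-1,0,0,0,0,1,-1] (.R ⟨1,false,false,false,[1,0,0,-1],[1,0,-1],[0,1,0,0,0,0,0,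
  0,-1],(⟨0,[(27,0)]⟩,⟨0,[(28,0)]⟩),(⟨0,[(36,0)]⟩,⟨0,[(37,0)]⟩),⟨0,[(1,0)]⟩,.k,.k,(.x (-1) ⟨15,[(7,
  3),(0,3),(16,6),(0,6),(11,1)]⟩ ⟨0,[(40,0)]⟩),.k,(.x 0 ⟨1,[(8,0),(13,1),(14,0)]⟩ ⟨9,[(12,1),(1,3),
  (10,2),(0,2),(9,9),(1,1),(1,9)]⟩),.k,⟨false,0,⟨0,[(0,0)]⟩,⟨1,[(26,0),(8,1),(9,0)]⟩⟩,⟨true,0,⟨0,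
  [(27,0),(2,0)]⟩,⟨0,[(22,0),(5,0)]⟩⟩,⟨true,0,⟨0,[(47,0)]⟩,⟨0,[]⟩⟩,⟨false,1,⟨1,[(26,0),(0,1),(2,1),
  (4,1),(9,0)]⟩,⟨0,[(3,0),(27,0)]⟩⟩,⟨false,0,⟨0,[(43,0)]⟩,⟨23,[(5,3),(9,3),(0,3),(6,3),(1,4),(0,4),
  (18,13)]⟩⟩,⟨false,1,⟨9,[(2,9),(3,1),(19,4),(0,19),(2,3),(7,3),(2,1),(3,2)]⟩,⟨0,[(3,0),(13,0)]⟩⟩,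
  [.a ⟨true,0,⟨2,[(2,1),(13,0),(6,0),(3,1)]⟩,⟨1,[(10,0),(16,0),(0,0)]⟩⟩ ⟨false,0,⟨0,[(0,0),(34,0)]⟩,
  ⟨1,[(26,0),(18,0)]⟩⟩ ⟨true,0,⟨0,[(27,0),(2,0),(4,0)]⟩,⟨1,[(2,1),(2,0),(4,0)]⟩⟩,.o ⟨false,1,⟨0,
  [(29,0),(15,0)]⟩,⟨0,[(31,0)]⟩⟩,.o ⟨false,1,⟨1,[(28,1),(9,0),(5,0)]⟩,⟨0,[(22,0),(4,0),(2,0)]⟩⟩,.e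
  ⟨false,0,⟨0,[(0,0),(15,0),(26,0)]⟩,⟨7,[(6,1),(18,0),(0,4),(3,1),(3,1),(10,3)]⟩⟩ ⟨false,1,⟨0,[(27,
  0),(1,0),(15,0)]⟩,⟨1,[(2,1),(2,0),(4,0)]⟩⟩]⟩) (.I [0,0,1,1,0,0,0,0,1] (.R ⟨1,false,false,true,[1,
  0,0,-1],[0,1],[1,1,0,-1,0,0,0,0,-1],(⟨0,[(28,0)]⟩,⟨0,[(29,0)]⟩),(⟨0,[(41,0)]⟩,⟨0,[(40,0)]⟩),⟨0,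
  [(2,0)]⟩,.k,.k,(.r (-1) ⟨11,[(14,3),(1,0),(0,1),(7,0),(0,5),(6,0),(11,1)]⟩ ⟨0,[(0,0)]⟩),(.r (-1)
  ⟨11,[(14,3),(1,0),(0,1),(7,0),(0,5),(6,0),(11,1)]⟩ ⟨0,[(0,0)]⟩),(.r (-1) ⟨3,[(4,1),(8,0),(0,1),(1,
  1),(6,0),(1,0),(0,0),(1,1)]⟩ ⟨4,[(0,6),(6,0),(7,0),(10,0),(17,2)]⟩),.k,⟨false,1,⟨3,[(4,1),(8,0),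
  (0,1),(1,1),(6,0),(1,0),(0,0),(1,1)]⟩,⟨0,[(0,0),(43,0)]⟩⟩,⟨true,0,⟨0,[(28,0)]⟩,⟨3,[(3,1),(2,0),(0,
  0),(21,1),(1,1),(7,0)]⟩⟩,⟨true,0,⟨0,[(43,0)]⟩,⟨0,[(44,0)]⟩⟩,⟨false,0,⟨0,[(0,0),(27,0)]⟩,⟨53,[(4,
  33),(1,3),(7,9),(1,7),(0,9),(8,9),(2,19),(9,24),(6,8)]⟩⟩,⟨false,0,⟨0,[]⟩,⟨3,[(26,0),(0,0),(18,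
  1)]⟩⟩,⟨false,0,⟨0,[(0,0),(27,0),(15,0)]⟩,⟨26,[(4,18),(1,6),(7,3),(1,13),(0,3),(8,3),(2,7),(9,9),
  (6,8)]⟩⟩,[.o ⟨false,0,⟨0,[(44,0),(3,0)]⟩,⟨20,[(6,2),(7,0),(1,5),(0,0),(21,8),(2,1),(3,10)]⟩⟩,.o
  ⟨false,0,⟨0,[(44,0)]⟩,⟨23,[(6,3),(9,7),(9,4),(0,4),(11,9),(6,3)]⟩⟩,.o ⟨false,1,⟨1,[(29,1),(9,0),
  (5,0)]⟩,⟨0,[(23,0),(4,0),(2,0)]⟩⟩,.a ⟨true,0,⟨0,[(29,0)]⟩,⟨0,[(28,0)]⟩⟩ ⟨true,0,⟨0,[(4,0),(16,0),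
  (6,0),(3,0)]⟩,⟨0,[(0,0)]⟩⟩ ⟨false,0,⟨0,[(28,0),(15,0)]⟩,⟨25,[(1,0),(2,0),(1,3),(7,0),(1,7),(12,
  24),(9,10),(2,1),(3,13)]⟩⟩]⟩) (.I [0,1,1,1,-1,0,0,-1,-1] (.R ⟨1,false,false,false,[1,0,0,-1],[0,
  -1,1],[0,1,0,0,0,0,0,0,-1],(⟨0,[(29,0)]⟩,⟨0,[(30,0)]⟩),(⟨0,[(23,0)]⟩,⟨0,[(38,0),(3,0)]⟩),⟨0,[(3,
  0)]⟩,.k,.k,(.x (-1) ⟨15,[(9,3),(0,3),(16,6),(0,6),(11,1)]⟩ ⟨0,[(42,0)]⟩),(.r 0 ⟨1,[(0,0),(1,0),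
  (24,0),(17,0)]⟩ ⟨0,[(2,0),(9,0),(1,0),(10,0)]⟩),.k,.k,⟨true,(-1),⟨0,[(0,0)]⟩,⟨13,[(7,2),(7,3),(0,
  2),(3,1),(7,6),(14,4),(3,0)]⟩⟩,⟨false,0,⟨0,[(29,0),(5,0)]⟩,⟨0,[(14,0),(15,0)]⟩⟩,⟨true,0,⟨0,[(49,
  0)]⟩,⟨0,[]⟩⟩,⟨false,1,⟨1,[(7,0),(20,0),(0,1),(2,0),(2,0),(11,0)]⟩,⟨1,[(0,0),(3,0),(0,0),(8,0)]⟩⟩,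
  ⟨false,0,⟨0,[(45,0)]⟩,⟨23,[(7,3),(9,3),(0,3),(6,3),(1,4),(0,4),(18,13)]⟩⟩,⟨false,1,⟨3,[(8,1),(11,
  1),(7,1),(0,3),(10,0),(6,0)]⟩,⟨2,[(0,0),(3,0),(0,1),(8,0),(2,0)]⟩⟩,[.a ⟨true,0,⟨1,[(7,0),(21,0),
  (0,0)]⟩,⟨0,[(4,0),(24,0)]⟩⟩ ⟨false,0,⟨2,[(0,0),(0,0),(4,0),(7,0),(14,0),(3,0)]⟩,⟨1,[(28,0),(18,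
  0)]⟩⟩ ⟨true,0,⟨1,[(7,0),(21,1),(2,0),(2,0)]⟩,⟨0,[(4,0)]⟩⟩,.o ⟨false,1,⟨7,[(7,3),(19,0),(0,0),(11,
  1),(6,3)]⟩,⟨0,[(31,0),(13,0)]⟩⟩,.o ⟨false,1,⟨1,[(30,1),(9,0),(5,0)]⟩,⟨0,[(24,0),(4,0),(2,0)]⟩⟩,.e
  ⟨false,0,⟨0,[(1,0),(43,0)]⟩,⟨23,[(2,15),(5,1),(11,7),(6,6),(0,10),(3,1),(3,1)]⟩⟩ ⟨false,1,⟨7,[(7,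
  3),(19,0),(0,0),(0,7),(10,1),(6,3)]⟩,⟨0,[(4,0)]⟩⟩]⟩) (.Q [0,0,1,1,0,0,0,0,1,1,0,-1] (.p false [0,
  0,0,1] [1] (⟨0,[(30,0)]⟩,⟨0,[(29,0)]⟩) .k 1 (⟨0,[]⟩,⟨0,[]⟩) .k .k) (.R ⟨1,false,false,true,[1,0,0,
  -1],[0,1],[1,0,0,-1,0,0,0,0,-1],(⟨0,[(30,0)]⟩,⟨0,[(31,0)]⟩),(⟨0,[(43,0)]⟩,⟨0,[(42,0)]⟩),⟨0,[(4,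
  0)]⟩,.k,.k,(.x (-1) ⟨15,[(10,3),(0,3),(16,6),(0,6),(11,1)]⟩ ⟨0,[(43,0)]⟩),(.x (-1) ⟨15,[(10,3),(0,
  3),(16,6),(0,6),(11,1)]⟩ ⟨0,[(43,0)]⟩),(.r (-1) ⟨7,[(2,3),(13,3),(1,0),(0,1),(7,0),(0,1),(6,0),
  (11,1)]⟩ ⟨7,[(0,7),(4,7),(3,2),(3,0),(7,1),(11,1),(0,1),(6,0)]⟩),.k,⟨false,1,⟨9,[(2,7),(13,3),(2,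
  3),(8,0),(18,1),(0,2)]⟩,⟨0,[(0,0),(4,0),(28,0)]⟩⟩,⟨true,0,⟨0,[(30,0)]⟩,⟨3,[(5,1),(2,0),(0,0),(21,
  1),(1,1),(7,0)]⟩⟩,⟨false,1,⟨23,[(8,3),(9,3),(0,3),(6,3),(1,4),(0,4),(18,13)]⟩,⟨0,[(46,0)]⟩⟩,
  ⟨false,0,⟨0,[(0,0)]⟩,⟨53,[(6,33),(1,3),(7,9),(1,7),(0,9),(8,9),(2,19),(9,24),(6,8)]⟩⟩,⟨true,0,⟨0,
  []⟩,⟨0,[(50,0)]⟩⟩,⟨false,0,⟨0,[(0,0),(45,0)]⟩,⟨26,[(6,18),(1,6),(7,3),(1,13),(0,3),(8,3),(2,7),(9,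
  9),(6,8)]⟩⟩,[.o ⟨false,0,⟨0,[(46,0),(3,0)]⟩,⟨20,[(8,2),(7,0),(1,5),(0,0),(21,8),(2,1),(3,10)]⟩⟩,
  .o ⟨false,0,⟨0,[(46,0)]⟩,⟨23,[(8,3),(9,7),(9,4),(0,4),(11,9),(6,3)]⟩⟩,.o ⟨false,1,⟨1,[(31,1),(9,
  0),(5,0)]⟩,⟨0,[(25,0),(4,0),(2,0)]⟩⟩,.a ⟨true,0,⟨0,[(31,0)]⟩,⟨0,[(30,0)]⟩⟩ ⟨true,0,⟨0,[(2,0)]⟩,⟨0,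
  [(0,0),(4,0),(14,0)]⟩⟩ ⟨false,0,⟨0,[(30,0),(15,0)]⟩,⟨73,[(1,1),(1,1),(2,3),(1,11),(9,23),(12,69),
  (9,30),(2,3),(3,40)]⟩⟩]⟩) (.Q [0,0,1,2,0,0,0,0,1,1,0,-1] (.p false [0,0,0,1] [1] (⟨0,[(31,0)]⟩,⟨0,
  [(30,0)]⟩) .k 1 (⟨0,[]⟩,⟨0,[]⟩) .k .k) (.R ⟨1,true,false,true,[1,0,0,-1],[0,1],[0,0,0,0,0,0,0,0,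
  -1],(⟨0,[(31,0)]⟩,⟨0,[(32,0)]⟩),(⟨0,[(44,0)]⟩,⟨0,[(43,0)]⟩),⟨0,[(5,0)]⟩,.k,.k,(.x (-1) ⟨15,[(11,
  3),(0,3),(16,6),(0,6),(11,1)]⟩ ⟨0,[(44,0)]⟩),(.x (-1) ⟨15,[(11,3),(0,3),(16,6),(0,6),(11,1)]⟩ ⟨0,
  [(44,0)]⟩),(.r (-1) ⟨7,[(3,3),(13,3),(1,0),(0,1),(7,0),(0,1),(6,0),(11,1)]⟩ ⟨35,[(0,23),(5,23),(3,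
  15),(11,7),(6,0),(0,6),(3,15),(0,7)]⟩),.k,⟨false,1,⟨1,[(3,1),(44,0),(0,0)]⟩,⟨3,[(0,2),(3,0),(1,2),
  (14,3),(5,0)]⟩⟩,⟨true,0,⟨0,[(31,0)]⟩,⟨3,[(6,1),(2,0),(0,0),(21,1),(1,1),(7,0)]⟩⟩,⟨false,1,⟨3,[(29,
  0),(0,0),(18,1)]⟩,⟨0,[]⟩⟩,⟨true,0,⟨0,[(0,0),(45,0)]⟩,⟨0,[(1,0)]⟩⟩,⟨true,0,⟨0,[(47,0)]⟩,⟨0,[(46,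
  0)]⟩⟩,⟨false,0,⟨0,[(0,0)]⟩,⟨25,[(1,21),(7,3),(7,1),(1,7),(0,1),(8,4),(0,2),(1,3),(16,15)]⟩⟩,[]⟩)
  (.R ⟨1,false,false,true,[1,0,0,-1],[0,1],[1,0,0,-1,0,0,0,0,-1],(⟨0,[(31,0)]⟩,⟨0,[(32,0)]⟩),(⟨0,
  [(44,0)]⟩,⟨0,[(43,0)]⟩),⟨0,[(5,0)]⟩,.k,.k,(.x (-1) ⟨15,[(11,3),(0,3),(16,6),(0,6),(11,1)]⟩ ⟨0,
  [(44,0)]⟩),(.x (-1) ⟨15,[(11,3),(0,3),(16,6),(0,6),(11,1)]⟩ ⟨0,[(44,0)]⟩),(.r (-1) ⟨7,[(3,3),(13,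
  3),(1,0),(0,1),(7,0),(0,1),(6,0),(11,1)]⟩ ⟨1,[(10,0),(19,0),(3,0),(3,0),(8,3)]⟩),.k,⟨false,1,⟨9,
  [(3,7),(13,3),(2,3),(8,0),(18,1),(0,2)]⟩,⟨0,[(4,0),(22,0),(7,0),(11,2)]⟩⟩,⟨true,0,⟨0,[(31,0)]⟩,⟨3,
  [(6,1),(2,0),(0,0),(21,1),(1,1),(7,0)]⟩⟩,⟨false,1,⟨23,[(9,3),(9,3),(0,3),(6,3),(1,4),(0,4),(18,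
  13)]⟩,⟨0,[(47,0)]⟩⟩,⟨true,0,⟨0,[(4,0),(22,0),(3,0),(3,0),(11,1)]⟩,⟨0,[(1,0)]⟩⟩,⟨true,0,⟨0,[]⟩,⟨0,
  [(51,0)]⟩⟩,⟨true,0,⟨0,[(4,0),(22,0),(3,0),(3,0),(11,2)]⟩,⟨0,[(0,0)]⟩⟩,[.o ⟨false,0,⟨0,[(47,0),(3,
  0)]⟩,⟨20,[(9,2),(7,0),(1,5),(0,0),(21,8),(2,1),(3,10)]⟩⟩,.o ⟨false,0,⟨0,[(47,0)]⟩,⟨23,[(9,3),(9,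
  7),(9,4),(0,4),(11,9),(6,3)]⟩⟩,.o ⟨false,1,⟨1,[(32,1),(9,0),(5,0)]⟩,⟨0,[(26,0),(4,0),(2,0)]⟩⟩,.a
  ⟨true,0,⟨0,[(32,0)]⟩,⟨0,[(31,0)]⟩⟩ ⟨true,0,⟨0,[(3,0)]⟩,⟨0,[(4,0),(22,0),(7,0),(11,1)]⟩⟩ ⟨false,0,
  ⟨0,[(31,0),(15,0)]⟩,⟨39,[(0,3),(3,1),(4,5),(9,9),(10,0),(1,35),(1,1),(7,14),(6,23)]⟩⟩]⟩)))))) (.Q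
  [0,1,1,0,0,0,1,1,1,1,-1,-1] (.p false [0,0,1] [1,0,0,-1] (⟨0,[(36,0)]⟩,⟨0,[(35,0)]⟩) .k 2 (⟨0,
  [(26,0)]⟩,⟨0,[(27,0)]⟩) .k (.r (-1) ⟨1,[(17,0),(7,0),(20,0)]⟩ ⟨8,[(2,4),(2,1),(15,2),(2,1),(1,4),
  (1,6),(5,1),(5,0)]⟩)) (.Q [0,0,0,0,0,0,-1,-1,0,-1,1,1] (.p true [0,0,1] [1,0,0,-1] (⟨0,[(37,0)]⟩,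
  ⟨0,[(36,0)]⟩) .k 2 (⟨0,[(27,0)]⟩,⟨0,[(28,0)]⟩) .k (.r (-1) ⟨1,[(18,0),(7,0),(20,0)]⟩ ⟨8,[(3,4),(2,
  1),(15,2),(2,1),(1,4),(1,6),(5,1),(5,0)]⟩)) (.R ⟨0,false,false,true,[1,0,0,-1],[0,0,1],[1,1],(⟨0,
  [(28,0)]⟩,⟨0,[(29,0)]⟩),(⟨0,[(38,0)]⟩,⟨0,[(37,0)]⟩),⟨0,[(2,0)]⟩,.k,.k,(.x (-1) ⟨15,[(8,3),(0,3),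
  (16,6),(0,6),(11,1)]⟩ ⟨0,[(41,0)]⟩),.k,.k,.k,⟨true,0,⟨0,[(36,0)]⟩,⟨25,[(1,1),(5,4),(3,6),(3,13),
  (3,3),(6,0),(2,1),(2,1)]⟩⟩,⟨false,0,⟨0,[(23,0),(4,0)]⟩,⟨83,[(3,71),(1,11),(7,3),(0,31),(4,19),(4,
  7),(1,8),(0,14),(11,3)]⟩⟩,⟨false,1,⟨3,[(26,0),(0,2)]⟩,⟨0,[(4,0),(18,0),(4,0),(2,0)]⟩⟩,⟨true,0,⟨0,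
  [(1,0)]⟩,⟨0,[(4,0),(25,0)]⟩⟩,⟨false,0,⟨0,[]⟩,⟨0,[]⟩⟩,⟨false,0,⟨0,[]⟩,⟨0,[]⟩⟩,[.o ⟨false,0,⟨0,[(32,
  0)]⟩,⟨0,[(30,0),(15,0)]⟩⟩,.e ⟨true,0,⟨0,[]⟩,⟨7,[(7,1),(18,0),(0,0),(3,1),(3,1)]⟩⟩ ⟨true,0,⟨13,[(1,
  1),(5,2),(3,4),(0,1),(13,0),(1,11),(2,3),(7,1)]⟩,⟨0,[(0,0)]⟩⟩,.o ⟨false,1,⟨1,[(29,1),(9,0),(5,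
  0)]⟩,⟨0,[(23,0),(4,0),(2,0)]⟩⟩,.a ⟨true,0,⟨0,[(29,0)]⟩,⟨0,[(28,0)]⟩⟩ ⟨false,1,⟨3,[(26,0),(0,0),
  (17,1)]⟩,⟨5,[(7,0),(23,0),(3,0),(6,1),(3,0)]⟩⟩ ⟨true,0,⟨0,[(28,0),(3,0)]⟩,⟨0,[(0,0)]⟩⟩]⟩) (.R ⟨0,
  false,false,true,[1,0,0,-1],[0,0,1],[1,1],(⟨0,[(28,0)]⟩,⟨0,[(29,0)]⟩),(⟨0,[(38,0)]⟩,⟨0,[(37,0)]⟩),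
  ⟨0,[(2,0)]⟩,.k,.k,(.x (-1) ⟨15,[(8,3),(0,3),(16,6),(0,6),(11,1)]⟩ ⟨0,[(41,0)]⟩),.k,.k,.k,⟨true,0,
  ⟨0,[(36,0)]⟩,⟨25,[(1,1),(5,4),(3,6),(3,13),(3,3),(6,0),(2,1),(2,1)]⟩⟩,⟨false,0,⟨0,[(23,0),(4,0)]⟩,
  ⟨83,[(3,71),(1,11),(7,3),(0,31),(4,19),(4,7),(1,8),(0,14),(11,3)]⟩⟩,⟨false,1,⟨3,[(26,0),(0,2)]⟩,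
  ⟨10,[(0,7),(3,8),(2,0),(18,0),(1,0),(1,7),(0,1),(10,4)]⟩⟩,⟨true,0,⟨0,[(1,0)]⟩,⟨0,[(4,0),(25,0)]⟩⟩,
  ⟨false,0,⟨0,[]⟩,⟨0,[]⟩⟩,⟨false,0,⟨0,[]⟩,⟨0,[]⟩⟩,[.o ⟨false,0,⟨0,[(32,0)]⟩,⟨0,[(30,0),(15,0)]⟩⟩,.a
  ⟨true,0,⟨1,[(11,0),(16,0),(0,0)]⟩,⟨2,[(3,1),(13,0),(6,0),(3,1)]⟩⟩ ⟨true,0,⟨0,[]⟩,⟨7,[(7,1),(18,0),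
  (0,0),(3,1),(3,1)]⟩⟩ ⟨false,0,⟨0,[(0,0)]⟩,⟨11,[(3,9),(10,1),(1,1),(0,1),(8,2),(0,2),(1,1),(15,
  3)]⟩⟩,.o ⟨false,1,⟨1,[(29,1),(9,0),(5,0)]⟩,⟨4,[(0,1),(6,0),(20,2),(1,1),(0,1),(7,0),(2,0)]⟩⟩,.e
  ⟨false,1,⟨3,[(26,0),(0,0),(17,1)]⟩,⟨5,[(7,0),(23,0),(3,0),(6,1),(3,0)]⟩⟩ ⟨false,0,⟨0,[(0,0)]⟩,⟨5,
  [(3,3),(12,1),(9,0),(0,0),(1,1),(16,3)]⟩⟩]⟩)) (.I [0,1,-1,0,0,0,0,1,-1] (.R ⟨0,false,false,false,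
  [1,0,0,-1],[1,0,-1],[0,1,0,0,0,0,0,0,-1],(⟨0,[(28,0)]⟩,⟨0,[(29,0)]⟩),(⟨0,[(37,0)]⟩,⟨0,[(38,0)]⟩),
  ⟨0,[(2,0)]⟩,.k,.k,(.x (-1) ⟨15,[(8,3),(0,3),(16,6),(0,6),(11,1)]⟩ ⟨0,[(41,0)]⟩),.k,.k,.k,⟨false,0,
  ⟨0,[(0,0)]⟩,⟨1,[(27,0),(8,1),(9,0)]⟩⟩,⟨true,0,⟨0,[(28,0),(2,0)]⟩,⟨0,[(23,0),(5,0)]⟩⟩,⟨true,0,⟨0,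
  [(48,0)]⟩,⟨0,[]⟩⟩,⟨false,1,⟨1,[(27,0),(0,1),(2,1),(4,1),(9,0)]⟩,⟨2,[(1,1),(3,0),(5,1),(20,0)]⟩⟩,
  ⟨false,0,⟨0,[]⟩,⟨0,[]⟩⟩,⟨false,0,⟨0,[]⟩,⟨0,[]⟩⟩,[.a ⟨true,0,⟨2,[(3,1),(13,0),(6,0),(3,1)]⟩,⟨1,
  [(11,0),(16,0),(0,0)]⟩⟩ ⟨false,0,⟨0,[(0,0),(35,0)]⟩,⟨1,[(27,0),(18,0)]⟩⟩ ⟨true,0,⟨0,[(28,0),(2,0),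
  (4,0)]⟩,⟨5,[(2,3),(5,0),(0,0),(1,2),(17,1)]⟩⟩,.o ⟨false,1,⟨0,[(30,0),(15,0)]⟩,⟨0,[(32,0)]⟩⟩,.o
  ⟨false,1,⟨1,[(29,1),(9,0),(5,0)]⟩,⟨0,[(23,0),(4,0),(2,0)]⟩⟩,.e ⟨false,0,⟨1,[(0,0),(0,0),(21,0),(4,
  0)]⟩,⟨7,[(7,1),(18,0),(0,4),(3,1),(3,1),(10,3)]⟩⟩ ⟨false,1,⟨0,[(28,0),(1,0),(15,0)]⟩,⟨5,[(2,3),(5,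
  0),(0,0),(1,2),(17,1)]⟩⟩]⟩) (.R ⟨0,false,false,true,[1,0,0,-1],[0,1],[1,0,1],(⟨0,[(28,0)]⟩,⟨0,
  [(29,0)]⟩),(⟨0,[(41,0)]⟩,⟨0,[(40,0)]⟩),⟨0,[(2,0)]⟩,.k,.k,(.x (-1) ⟨15,[(8,3),(0,3),(16,6),(0,6),
  (11,1)]⟩ ⟨0,[(41,0)]⟩),(.x (-1) ⟨15,[(8,3),(0,3),(16,6),(0,6),(11,1)]⟩ ⟨0,[(41,0)]⟩),.k,.k,⟨false,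
  1,⟨11,[(14,3),(2,3),(8,0),(0,0),(17,1),(0,3)]⟩,⟨0,[(44,0),(3,0)]⟩⟩,⟨true,0,⟨0,[(28,0)]⟩,⟨11,[(2,
  3),(4,2),(0,0),(0,0),(19,7),(1,5),(7,2)]⟩⟩,⟨false,1,⟨7,[(7,1),(18,0),(0,4),(3,1),(3,1),(10,3)]⟩,
  ⟨0,[(1,0),(26,0),(3,0)]⟩⟩,⟨true,0,⟨0,[(0,0),(23,0),(3,0),(3,0),(11,1)]⟩,⟨0,[(1,0),(16,0)]⟩⟩,
  ⟨false,0,⟨0,[]⟩,⟨0,[]⟩⟩,⟨false,0,⟨0,[]⟩,⟨0,[]⟩⟩,[.o ⟨false,0,⟨0,[(44,0),(3,0)]⟩,⟨20,[(6,2),(7,0),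
  (1,5),(0,0),(21,8),(2,1),(3,10)]⟩⟩,.o ⟨false,0,⟨0,[(44,0)]⟩,⟨23,[(6,3),(9,7),(9,4),(0,4),(11,9),
  (6,3)]⟩⟩,.o ⟨false,1,⟨1,[(29,1),(9,0),(5,0)]⟩,⟨0,[(23,0),(4,0),(2,0)]⟩⟩,.a ⟨true,0,⟨0,[(29,0)]⟩,
  ⟨0,[(28,0)]⟩⟩ ⟨true,0,⟨0,[]⟩,⟨0,[(48,0)]⟩⟩ ⟨false,0,⟨0,[(28,0),(15,0)]⟩,⟨31,[(1,1),(4,5),(9,9),
  (10,0),(1,29),(9,12),(2,1),(3,17)]⟩⟩]⟩)))) (.Q [0,0,0,0,0,-1,0,0,0,1,0,-1] (.p false [0,0,0,1]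
  [1] (⟨0,[(26,0)]⟩,⟨0,[(25,0)]⟩) .k 1 (⟨0,[]⟩,⟨0,[]⟩) .k .k) (.I [0,1,1,1,-1,0,0,-1,-1] (.R ⟨1,
  false,false,false,[1,0,0,-1],[0,-1,1],[0,1,0,0,0,0,0,0,-1],(⟨0,[(27,0)]⟩,⟨0,[(28,0)]⟩),(⟨0,[(21,
  0)]⟩,⟨0,[(36,0),(3,0)]⟩),⟨0,[(1,0)]⟩,.k,.k,(.x (-1) ⟨15,[(7,3),(0,3),(16,6),(0,6),(11,1)]⟩ ⟨0,
  [(40,0)]⟩),(.x (-1) ⟨0,[(12,0),(23,0),(3,0)]⟩ ⟨3,[(6,1),(1,1),(16,0),(0,0),(3,1),(2,1),(3,1)]⟩),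
  .k,.k,⟨true,(-1),⟨0,[(0,0)]⟩,⟨13,[(5,2),(7,3),(0,2),(3,1),(7,6),(14,4),(3,0)]⟩⟩,⟨false,0,⟨0,[(27,
  0),(5,0)]⟩,⟨0,[(12,0),(15,0)]⟩⟩,⟨true,0,⟨0,[(47,0)]⟩,⟨0,[]⟩⟩,⟨false,1,⟨7,[(2,7),(3,1),(18,0),(0,
  4),(3,1),(3,1),(10,3)]⟩,⟨0,[(3,0),(25,0),(13,0)]⟩⟩,⟨false,0,⟨0,[(43,0)]⟩,⟨23,[(5,3),(9,3),(0,3),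
  (6,3),(1,4),(0,4),(18,13)]⟩⟩,⟨false,1,⟨3,[(6,1),(11,1),(7,1),(0,3),(10,0),(6,0)]⟩,⟨0,[(3,0),(25,
  0)]⟩⟩,[.e ⟨false,0,⟨1,[(0,0),(1,0),(1,0),(7,0)]⟩,⟨1,[(26,0),(18,0)]⟩⟩ ⟨false,0,⟨0,[(2,0)]⟩,⟨1,[(0,
  1),(11,1),(13,0),(1,1),(16,0)]⟩⟩,.o ⟨false,1,⟨7,[(5,3),(19,0),(0,0),(11,1),(6,3)]⟩,⟨0,[(29,0),(13,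
  0)]⟩⟩,.o ⟨false,1,⟨1,[(28,1),(9,0),(5,0)]⟩,⟨0,[(22,0),(4,0),(2,0)]⟩⟩,.a ⟨true,0,⟨0,[(28,0)]⟩,⟨0,
  [(27,0)]⟩⟩ ⟨false,0,⟨1,[(0,0),(1,0),(0,0),(8,0)]⟩,⟨7,[(6,1),(18,0),(0,4),(3,1),(3,1),(10,3)]⟩⟩
  ⟨true,0,⟨0,[(2,0)]⟩,⟨0,[(28,0),(0,0),(13,0)]⟩⟩]⟩) (.Q [0,0,1,1,0,0,0,0,1,1,0,-1] (.p false [0,0,0,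
  1] [1] (⟨0,[(28,0)]⟩,⟨0,[(27,0)]⟩) .k 1 (⟨0,[]⟩,⟨0,[]⟩) .k .k) (.R ⟨1,false,false,true,[1,0,0,-1],
  [0,1],[0,0,0,0,0,0,0,0,-1],(⟨0,[(28,0)]⟩,⟨0,[(29,0)]⟩),(⟨0,[(41,0)]⟩,⟨0,[(40,0)]⟩),⟨0,[(2,0)]⟩,.k,
  .k,(.x (-1) ⟨15,[(8,3),(0,3),(16,6),(0,6),(11,1)]⟩ ⟨0,[(41,0)]⟩),(.x (-1) ⟨15,[(8,3),(0,3),(16,6),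
  (0,6),(11,1)]⟩ ⟨0,[(41,0)]⟩),(.r (-1) ⟨11,[(3,5),(0,4),(0,0),(8,1),(1,5),(0,1),(8,2),(18,6)]⟩ ⟨3,
  [(0,1),(6,0),(19,0),(1,1),(1,2),(2,0),(9,5)]⟩),.k,⟨false,1,⟨3,[(3,1),(0,1),(8,1),(3,1),(8,0),(18,
  0)]⟩,⟨0,[(1,0),(5,0),(16,0),(5,0),(13,2)]⟩⟩,⟨true,0,⟨0,[(28,0)]⟩,⟨0,[(23,0),(5,0),(1,0)]⟩⟩,⟨false,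
  1,⟨3,[(26,0),(0,0),(18,1)]⟩,⟨0,[]⟩⟩,⟨false,0,⟨0,[(0,0)]⟩,⟨53,[(4,33),(1,3),(7,9),(1,7),(0,9),(8,
  9),(2,19),(9,24),(6,8)]⟩⟩,⟨true,0,⟨0,[(44,0)]⟩,⟨0,[(43,0)]⟩⟩,⟨false,0,⟨0,[(0,0),(43,0)]⟩,⟨26,[(4,
  18),(1,6),(7,3),(1,13),(0,3),(8,3),(2,7),(9,9),(6,8)]⟩⟩,[.o ⟨false,0,⟨0,[(44,0),(3,0)]⟩,⟨20,[(6,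
  2),(7,0),(1,5),(0,0),(21,8),(2,1),(3,10)]⟩⟩,.o ⟨false,0,⟨0,[(44,0)]⟩,⟨23,[(6,3),(9,7),(9,4),(0,4),
  (11,9),(6,3)]⟩⟩,.o ⟨false,1,⟨1,[(29,1),(9,0),(5,0)]⟩,⟨0,[(23,0),(4,0),(2,0)]⟩⟩,.a ⟨true,0,⟨0,[(29,
  0)]⟩,⟨0,[(28,0)]⟩⟩ ⟨true,0,⟨0,[(3,0),(0,0),(25,0),(13,0)]⟩,⟨0,[(1,0),(5,0),(16,0),(5,0),(13,1)]⟩⟩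
  ⟨false,0,⟨0,[(28,0),(15,0)]⟩,⟨63,[(1,1),(2,1),(1,9),(9,19),(0,1),(11,61),(9,26),(2,3),(3,
  34)]⟩⟩]⟩) (.R ⟨1,false,false,false,[1,0,0,-1],[1,0,-1],[0,1,0,0,0,0,0,0,-1],(⟨0,[(28,0)]⟩,⟨0,[(29,
  0)]⟩),(⟨0,[(37,0)]⟩,⟨0,[(38,0)]⟩),⟨0,[(2,0)]⟩,.k,.k,(.x (-1) ⟨15,[(8,3),(0,3),(16,6),(0,6),(11,
  1)]⟩ ⟨0,[(41,0)]⟩),.k,(.r (-1) ⟨44,[(0,2),(2,10),(1,7),(7,3),(0,14),(0,3),(2,0),(0,8),(6,16)]⟩ ⟨0,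
  [(1,0),(5,0),(9,0),(6,0),(5,0),(13,3)]⟩),.k,⟨false,0,⟨0,[(0,0),(2,0),(20,0),(19,2)]⟩,⟨1,[(27,0),
  (8,1),(9,0)]⟩⟩,⟨true,0,⟨0,[(28,0),(2,0)]⟩,⟨0,[(23,0),(5,0)]⟩⟩,⟨true,0,⟨0,[(48,0)]⟩,⟨0,[]⟩⟩,⟨false,
  1,⟨1,[(27,0),(0,1),(2,1),(4,1),(9,0)]⟩,⟨0,[(4,0),(27,0)]⟩⟩,⟨false,0,⟨0,[(44,0)]⟩,⟨23,[(6,3),(9,3),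
  (0,3),(6,3),(1,4),(0,4),(18,13)]⟩⟩,⟨false,1,⟨1,[(27,0),(0,1),(2,1),(4,1),(7,1),(1,0)]⟩,⟨3,[(0,1),
  (3,0),(0,0),(0,0),(4,0)]⟩⟩,[.a ⟨true,0,⟨0,[(17,0),(6,0),(19,1)]⟩,⟨1,[(11,0),(16,0),(0,0)]⟩⟩
  ⟨false,0,⟨2,[(0,1),(4,0),(22,2),(1,0),(1,0),(11,1)]⟩,⟨1,[(27,0),(18,0)]⟩⟩ ⟨true,0,⟨0,[(28,0),(2,
  0),(4,0)]⟩,⟨0,[(0,0),(0,0),(5,0),(16,0),(19,2)]⟩⟩,.o ⟨false,1,⟨0,[(30,0),(15,0)]⟩,⟨0,[(32,0)]⟩⟩,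
  .o ⟨false,1,⟨1,[(29,1),(9,0),(5,0)]⟩,⟨0,[(23,0),(4,0),(2,0)]⟩⟩,.e ⟨false,0,⟨0,[(0,0),(27,0),(15,
  0)]⟩,⟨7,[(7,1),(18,0),(0,4),(3,1),(3,1),(10,3)]⟩⟩ ⟨false,1,⟨0,[(28,0),(1,0),(15,0)]⟩,⟨0,[(0,0),(0,
  0),(5,0),(16,0),(19,2)]⟩⟩]⟩))) (.I [1,-1,-2,-1,1,0,0,1] (.I [0,1,-1,0,0,0,0,1,-1] (.R ⟨0,false,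
  false,false,[1,0,0,-1],[1,0,-1],[0,1,0,0,0,0,0,0,-1],(⟨0,[(28,0)]⟩,⟨0,[(29,0)]⟩),(⟨0,[(37,0)]⟩,⟨0,
  [(38,0)]⟩),⟨0,[(2,0)]⟩,.k,.k,(.x (-1) ⟨15,[(8,3),(0,3),(16,6),(0,6),(11,1)]⟩ ⟨0,[(41,0)]⟩),.k,.k,
  .k,⟨false,0,⟨0,[(0,0)]⟩,⟨1,[(27,0),(8,1),(9,0)]⟩⟩,⟨true,0,⟨0,[(28,0),(2,0)]⟩,⟨0,[(23,0),(5,0)]⟩⟩,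
  ⟨true,0,⟨0,[(48,0)]⟩,⟨0,[]⟩⟩,⟨false,1,⟨1,[(27,0),(0,1),(2,1),(4,1),(9,0)]⟩,⟨0,[(4,0),(27,0)]⟩⟩,
  ⟨false,0,⟨0,[]⟩,⟨0,[]⟩⟩,⟨false,0,⟨0,[]⟩,⟨0,[]⟩⟩,[.a ⟨true,0,⟨0,[(17,0),(6,0),(19,1)]⟩,⟨1,[(11,0),
  (16,0),(0,0)]⟩⟩ ⟨false,0,⟨0,[(0,0),(35,0)]⟩,⟨1,[(27,0),(18,0)]⟩⟩ ⟨true,0,⟨0,[(28,0),(2,0),(4,0)]⟩,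
  ⟨5,[(2,3),(5,0),(0,0),(1,2),(17,1)]⟩⟩,.o ⟨false,1,⟨0,[(30,0),(15,0)]⟩,⟨0,[(32,0)]⟩⟩,.o ⟨false,1,
  ⟨1,[(29,1),(9,0),(5,0)]⟩,⟨0,[(23,0),(4,0),(2,0)]⟩⟩,.e ⟨false,0,⟨0,[(0,0),(16,0),(26,0)]⟩,⟨7,[(7,
  1),(18,0),(0,4),(3,1),(3,1),(10,3)]⟩⟩ ⟨false,1,⟨0,[(28,0),(1,0),(15,0)]⟩,⟨5,[(2,3),(5,0),(0,0),(1,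
  2),(17,1)]⟩⟩]⟩) (.R ⟨0,false,false,true,[1,0,0,-1],[1,0,-1],[0,1,0,0,0,0,0,-1],(⟨0,[(28,0)]⟩,⟨0,
  [(29,0)]⟩),(⟨0,[(37,0)]⟩,⟨0,[(38,0)]⟩),⟨0,[(2,0)]⟩,.k,.k,(.x (-1) ⟨15,[(8,3),(0,3),(16,6),(0,6),
  (11,1)]⟩ ⟨0,[(41,0)]⟩),.k,.k,.k,⟨false,1,⟨3,[(26,0),(0,0),(17,1)]⟩,⟨0,[]⟩⟩,⟨true,0,⟨0,[(28,0),(2,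
  0)]⟩,⟨0,[(23,0),(5,0)]⟩⟩,⟨false,1,⟨3,[(26,0),(0,2),(8,3)]⟩,⟨0,[(3,0),(0,0),(26,0),(12,0)]⟩⟩,⟨true,
  0,⟨0,[(0,0),(2,0),(20,0),(5,0),(13,1)]⟩,⟨0,[(4,0),(27,0)]⟩⟩,⟨false,0,⟨0,[]⟩,⟨0,[]⟩⟩,⟨false,0,⟨0,
  []⟩,⟨0,[]⟩⟩,[.o ⟨false,0,⟨0,[(30,0)]⟩,⟨7,[(11,3),(14,0),(0,0),(11,1),(6,3)]⟩⟩,.e ⟨true,0,⟨0,[(36,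
  0)]⟩,⟨4,[(7,0),(3,0),(3,1),(3,0),(12,0),(2,0)]⟩⟩ ⟨true,0,⟨0,[(28,0),(2,0),(4,0)]⟩,⟨5,[(2,3),(5,0),
  (0,0),(1,2),(17,1)]⟩⟩,.o ⟨false,1,⟨1,[(29,1),(9,0),(5,0)]⟩,⟨0,[(23,0),(4,0),(2,0)]⟩⟩,.a ⟨true,0,
  ⟨0,[(29,0)]⟩,⟨0,[(28,0)]⟩⟩ ⟨false,1,⟨3,[(26,0),(0,0),(8,3),(8,1)]⟩,⟨0,[(12,0)]⟩⟩ ⟨true,0,⟨0,[(28,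
  0),(1,0)]⟩,⟨5,[(2,3),(5,0),(0,0),(1,2),(17,1)]⟩⟩]⟩)) (.R ⟨0,false,false,false,[1,0,0,-1],[0,-1,1],
  [0,1,0,0,0,0,0,0,-1],(⟨0,[(27,0)]⟩,⟨0,[(28,0)]⟩),(⟨0,[(21,0)]⟩,⟨0,[(36,0),(3,0)]⟩),⟨0,[(1,0)]⟩,.k,
  .k,(.x (-1) ⟨15,[(7,3),(0,3),(16,6),(0,6),(11,1)]⟩ ⟨0,[(40,0)]⟩),(.x (-1) ⟨0,[(12,0),(23,0),(3,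
  0)]⟩ ⟨3,[(6,1),(1,1),(16,0),(0,0),(3,1),(2,1),(3,1)]⟩),.k,.k,⟨true,(-1),⟨0,[(0,1),(1,0),(0,0),(8,
  0)]⟩,⟨13,[(5,2),(7,3),(0,2),(3,1),(7,6),(14,4),(3,0)]⟩⟩,⟨false,0,⟨0,[(27,0),(5,0)]⟩,⟨0,[(12,0),
  (15,0)]⟩⟩,⟨true,0,⟨0,[(47,0)]⟩,⟨0,[]⟩⟩,⟨false,1,⟨7,[(2,7),(3,1),(18,0),(0,4),(3,1),(3,1),(10,3)]⟩,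
  ⟨0,[(0,0),(2,0),(8,0)]⟩⟩,⟨false,0,⟨0,[]⟩,⟨0,[]⟩⟩,⟨false,0,⟨0,[]⟩,⟨0,[]⟩⟩,[.e ⟨false,0,⟨1,[(0,1),
  (1,1),(0,0),(0,0),(7,1)]⟩,⟨1,[(26,0),(18,0)]⟩⟩ ⟨false,0,⟨0,[(2,0)]⟩,⟨7,[(0,3),(11,7),(12,0),(0,0),
  (1,7),(6,3),(7,3),(1,1)]⟩⟩,.o ⟨false,1,⟨7,[(5,3),(19,0),(0,0),(11,1),(6,3)]⟩,⟨0,[(0,0),(11,0)]⟩⟩,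
  .o ⟨false,1,⟨1,[(28,1),(9,0),(5,0)]⟩,⟨3,[(0,1),(1,1),(9,0),(14,1),(2,0),(7,0),(2,0)]⟩⟩,.a ⟨true,0,
  ⟨0,[(28,0)]⟩,⟨0,[(27,0)]⟩⟩ ⟨false,0,⟨0,[(0,0),(1,0),(0,0),(8,0)]⟩,⟨7,[(6,1),(18,0),(0,4),(3,1),(3,
  1),(10,3)]⟩⟩ ⟨true,0,⟨0,[(2,0)]⟩,⟨0,[(0,0),(11,0),(15,0)]⟩⟩]⟩))))) (.I [1,0,0,0,0,0,0,0,1] (.I [0,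
  0,-1,-1,0,0,0,0,1] (.Q [0,0,0,-1,0,0,1,1,0,1,-1,-1] (.p false [0,0,1] [1,0,0,-1] (⟨0,[(35,0)]⟩,⟨0,
  [(34,0)]⟩) .k 2 (⟨0,[(25,0)]⟩,⟨0,[(26,0)]⟩) .k (.r 0 ⟨1,[(0,0),(0,0),(6,0),(3,0),(28,0)]⟩ ⟨3,[(23,
  2),(0,0),(8,3)]⟩)) (.Q [0,0,0,0,0,-1,0,0,0,1,0,-1] (.p false [0,0,0,1] [1] (⟨0,[(27,0)]⟩,⟨0,[(26,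
  0)]⟩) .k 1 (⟨0,[]⟩,⟨0,[]⟩) .k .k) (.R ⟨1,false,false,false,[1,0,0,-1],[0,-1,1],[0,1,0,0,0,0,0,0,
  -1],(⟨0,[(27,0)]⟩,⟨0,[(28,0)]⟩),(⟨0,[(21,0)]⟩,⟨0,[(36,0),(3,0)]⟩),⟨0,[(0,0)]⟩,.k,.k,(.x (-1) ⟨15,
  [(7,3),(0,3),(16,6),(0,6),(11,1)]⟩ ⟨0,[(40,0)]⟩),(.x (-1) ⟨0,[(12,0),(23,0),(3,0)]⟩ ⟨3,[(6,1),(1,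
  1),(16,0),(0,0),(3,1),(2,1),(3,1)]⟩),.k,.k,⟨true,0,⟨1,[(6,0),(18,0),(3,0),(2,0),(10,1)]⟩,⟨0,[(2,
  0),(8,0)]⟩⟩,⟨false,0,⟨0,[(27,0),(5,0)]⟩,⟨0,[(12,0),(15,0)]⟩⟩,⟨true,0,⟨0,[(47,0)]⟩,⟨0,[]⟩⟩,⟨false,
  0,⟨14,[(2,2),(1,7),(0,5),(0,1),(4,2),(14,1),(0,6),(6,0),(6,1)]⟩,⟨1,[(12,0),(3,0),(8,0),(2,1),(0,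
  0),(13,2)]⟩⟩,⟨false,0,⟨0,[(43,0)]⟩,⟨23,[(5,3),(9,3),(0,3),(6,3),(1,4),(0,4),(18,13)]⟩⟩,⟨false,0,
  ⟨11,[(3,3),(0,5),(1,0),(3,4),(0,1),(14,0),(0,5),(13,1)]⟩,⟨1,[(12,0),(3,0),(8,0),(2,1),(0,0),(13,
  0)]⟩⟩,[.e ⟨false,1,⟨1,[(25,0),(18,0),(2,1)]⟩,⟨1,[(2,0),(0,0),(37,0),(1,0)]⟩⟩ ⟨false,0,⟨0,[(1,0)]⟩,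
  ⟨3,[(12,1),(15,3),(3,1),(2,1),(2,0),(4,3),(1,0)]⟩⟩,.o ⟨false,1,⟨7,[(5,3),(19,0),(0,0),(11,1),(6,
  3)]⟩,⟨0,[(29,0),(13,0)]⟩⟩,.o ⟨false,1,⟨1,[(28,1),(9,0),(5,0)]⟩,⟨0,[(22,0),(4,0),(2,0)]⟩⟩,.a ⟨true,
  0,⟨0,[(28,0)]⟩,⟨0,[(27,0)]⟩⟩ ⟨false,1,⟨1,[(25,0),(18,0)]⟩,⟨5,[(3,3),(2,0),(7,0),(11,0),(14,2)]⟩⟩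
  ⟨true,0,⟨0,[(1,0)]⟩,⟨0,[(28,0),(0,0),(13,0)]⟩⟩]⟩) (.R ⟨0,false,false,false,[1,0,0,-1],[0,-1,1],[0,
  1,0,0,0,0,0,0,-1],(⟨0,[(27,0)]⟩,⟨0,[(28,0)]⟩),(⟨0,[(21,0)]⟩,⟨0,[(36,0),(3,0)]⟩),⟨0,[(0,0)]⟩,.k,.k,
  (.x (-1) ⟨15,[(7,3),(0,3),(16,6),(0,6),(11,1)]⟩ ⟨0,[(40,0)]⟩),(.x (-1) ⟨0,[(12,0),(23,0),(3,0)]⟩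
  ⟨3,[(6,1),(1,1),(16,0),(0,0),(3,1),(2,1),(3,1)]⟩),.k,.k,⟨true,0,⟨1,[(6,0),(18,0),(3,0),(2,0),(10,
  1)]⟩,⟨0,[(2,0),(8,0)]⟩⟩,⟨false,0,⟨0,[(27,0),(5,0)]⟩,⟨0,[(12,0),(15,0)]⟩⟩,⟨true,0,⟨0,[(47,0)]⟩,⟨0,
  []⟩⟩,⟨false,0,⟨14,[(2,2),(1,7),(0,5),(0,1),(4,2),(14,1),(0,6),(6,0),(6,1)]⟩,⟨1,[(12,0),(3,0),(8,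
  0),(2,1),(0,0),(13,2)]⟩⟩,⟨false,0,⟨0,[]⟩,⟨0,[]⟩⟩,⟨false,0,⟨0,[]⟩,⟨0,[]⟩⟩,[.e ⟨false,1,⟨1,[(25,0),
  (18,0),(2,1)]⟩,⟨1,[(2,0),(0,0),(37,0),(1,0)]⟩⟩ ⟨false,0,⟨0,[(1,0)]⟩,⟨3,[(12,1),(15,3),(3,1),(2,1),
  (2,0),(4,3),(1,0)]⟩⟩,.o ⟨false,1,⟨7,[(5,3),(19,0),(0,0),(11,1),(6,3)]⟩,⟨0,[(29,0),(13,0)]⟩⟩,.o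
  ⟨false,1,⟨1,[(28,1),(9,0),(5,0)]⟩,⟨0,[(22,0),(4,0),(2,0)]⟩⟩,.a ⟨true,0,⟨0,[(28,0)]⟩,⟨0,[(27,0)]⟩⟩
  ⟨false,1,⟨1,[(25,0),(18,0)]⟩,⟨5,[(3,3),(2,0),(7,0),(11,0),(14,2)]⟩⟩ ⟨true,0,⟨0,[(1,0)]⟩,⟨0,[(28,
  0),(0,0),(13,0)]⟩⟩]⟩)) (.Q [0,0,0,0,0,-1,0,0,0,1,0,-1] (.p false [0,0,0,1] [1] (⟨0,[(27,0)]⟩,⟨0,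
  [(26,0)]⟩) .k 1 (⟨0,[]⟩,⟨0,[]⟩) .k .k) (.R ⟨1,false,false,false,[1,0,0,-1],[1,0,-1],[0,1,0,0,0,0,
  0,0,-1],(⟨0,[(27,0)]⟩,⟨0,[(28,0)]⟩),(⟨0,[(36,0)]⟩,⟨0,[(37,0)]⟩),⟨0,[(0,0)]⟩,.k,.k,(.x (-1) ⟨15,
  [(7,3),(0,3),(16,6),(0,6),(11,1)]⟩ ⟨0,[(40,0)]⟩),.k,(.x 0 ⟨1,[(8,0),(13,1),(14,0)]⟩ ⟨9,[(12,1),(1,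
  3),(10,2),(0,2),(9,9),(1,1),(1,9)]⟩),.k,⟨false,1,⟨1,[(10,0),(1,0),(10,0),(1,0),(17,0),(3,0)]⟩,⟨1,
  [(2,0),(0,0),(31,1),(5,0),(1,0)]⟩⟩,⟨true,0,⟨0,[(27,0),(2,0)]⟩,⟨0,[(22,0),(5,0)]⟩⟩,⟨true,0,⟨0,[(47,
  0)]⟩,⟨0,[]⟩⟩,⟨false,0,⟨7,[(1,2),(0,0),(1,6),(9,0),(1,1),(10,3),(4,2),(8,0)]⟩,⟨1,[(10,0),(1,0),(9,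
  0),(2,0),(2,1)]⟩⟩,⟨false,0,⟨0,[(43,0)]⟩,⟨23,[(5,3),(9,3),(0,3),(6,3),(1,4),(0,4),(18,13)]⟩⟩,
  ⟨false,0,⟨0,[(1,0),(2,0),(22,0)]⟩,⟨1,[(5,0),(6,0),(9,0),(2,0),(2,1)]⟩⟩,[.a ⟨true,0,⟨2,[(1,1),(14,
  0),(6,0),(3,1)]⟩,⟨1,[(10,0),(16,0),(0,0)]⟩⟩ ⟨false,1,⟨1,[(25,0),(18,0),(2,1)]⟩,⟨1,[(2,0),(0,0),
  (37,0),(1,0)]⟩⟩ ⟨true,0,⟨7,[(4,1),(1,0),(7,2),(10,0),(1,5),(1,3),(5,3),(5,0)]⟩,⟨1,[(1,1),(3,0),(4,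
  0)]⟩⟩,.o ⟨false,1,⟨0,[(29,0),(15,0)]⟩,⟨0,[(31,0)]⟩⟩,.o ⟨false,1,⟨1,[(28,1),(9,0),(5,0)]⟩,⟨0,[(22,
  0),(4,0),(2,0)]⟩⟩,.e ⟨false,1,⟨1,[(25,0),(18,0)]⟩,⟨5,[(3,3),(2,0),(7,0),(11,0),(14,2)]⟩⟩ ⟨false,1,
  ⟨0,[(27,0),(1,0),(15,0)]⟩,⟨1,[(1,1),(3,0),(4,0)]⟩⟩]⟩) (.R ⟨0,false,false,false,[1,0,0,-1],[1,0,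
  -1],[0,1,0,0,0,0,0,0,-1],(⟨0,[(27,0)]⟩,⟨0,[(28,0)]⟩),(⟨0,[(36,0)]⟩,⟨0,[(37,0)]⟩),⟨0,[(0,0)]⟩,.k,
  .k,(.x (-1) ⟨15,[(7,3),(0,3),(16,6),(0,6),(11,1)]⟩ ⟨0,[(40,0)]⟩),.k,.k,.k,⟨false,1,⟨1,[(10,0),(1,
  0),(10,0),(1,0),(17,0),(3,0)]⟩,⟨1,[(2,0),(0,0),(31,1),(5,0),(1,0)]⟩⟩,⟨true,0,⟨0,[(27,0),(2,0)]⟩,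
  ⟨5,[(0,3),(6,0),(0,0),(15,2),(3,1)]⟩⟩,⟨true,0,⟨0,[(47,0)]⟩,⟨0,[]⟩⟩,⟨false,0,⟨7,[(1,2),(0,0),(1,6),
  (9,0),(1,1),(10,3),(4,2),(8,0)]⟩,⟨5,[(0,3),(6,0),(0,0),(1,2),(14,2),(2,1),(15,2)]⟩⟩,⟨false,0,⟨0,
  []⟩,⟨0,[]⟩⟩,⟨false,0,⟨0,[]⟩,⟨0,[]⟩⟩,[.a ⟨true,0,⟨2,[(1,1),(14,0),(6,0),(3,1)]⟩,⟨1,[(10,0),(16,0),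
  (0,0)]⟩⟩ ⟨false,1,⟨1,[(25,0),(18,0),(2,1)]⟩,⟨1,[(2,0),(0,0),(37,0),(1,0)]⟩⟩ ⟨true,0,⟨7,[(4,1),(1,
  0),(7,2),(10,0),(1,5),(1,3),(5,3),(5,0)]⟩,⟨5,[(0,3),(6,0),(0,0),(1,2),(17,1)]⟩⟩,.o ⟨false,1,⟨0,
  [(29,0),(15,0)]⟩,⟨0,[(31,0)]⟩⟩,.o ⟨false,1,⟨1,[(28,1),(9,0),(5,0)]⟩,⟨0,[(22,0),(4,0),(2,0)]⟩⟩,.e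
  ⟨false,1,⟨1,[(25,0),(18,0)]⟩,⟨5,[(3,3),(2,0),(7,0),(11,0),(14,2)]⟩⟩ ⟨false,1,⟨0,[(27,0),(1,0),(15,
  0)]⟩,⟨5,[(0,3),(6,0),(0,0),(1,2),(17,1)]⟩⟩]⟩))) (.Q [0,0,0,0,0,0,1,1,0,0,-1,1] (.p false [0,0,1]
  [0,0,0,1] (⟨0,[(35,0)]⟩,⟨0,[(34,0)]⟩) .k 2 (⟨0,[(26,0)]⟩,⟨0,[(25,0)]⟩) .k (.r (-1) ⟨1,[(16,0),(6,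
  0),(21,0)]⟩ ⟨0,[(1,0),(31,0)]⟩)) (.Q [0,0,0,0,0,-1,0,0,0,1,0,-1] (.p false [0,0,0,1] [1] (⟨0,[(27,
  0)]⟩,⟨0,[(26,0)]⟩) .k 1 (⟨0,[]⟩,⟨0,[]⟩) .k .k) (.R ⟨1,false,false,false,[1,0,0,-1],[1,0,-1],[0,0,
  0,0,0,0,0,0,-1],(⟨0,[(27,0)]⟩,⟨0,[(28,0)]⟩),(⟨0,[(36,0)]⟩,⟨0,[(37,0)]⟩),⟨0,[(0,0)]⟩,.k,.k,(.x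
  (-1) ⟨15,[(7,3),(0,3),(16,6),(0,6),(11,1)]⟩ ⟨0,[(40,0)]⟩),.k,(.r (-1) ⟨0,[(2,0),(10,0)]⟩ ⟨2,[(3,
  0),(2,0),(7,0),(11,0),(8,2),(7,2)]⟩),.k,⟨false,1,⟨3,[(2,3),(7,0),(1,1),(0,1),(13,0),(0,0)]⟩,⟨0,
  [(3,0),(31,0)]⟩⟩,⟨true,0,⟨0,[(27,0),(2,0)]⟩,⟨0,[(22,0),(5,0)]⟩⟩,⟨false,1,⟨3,[(25,0),(0,0),(18,
  1)]⟩,⟨0,[]⟩⟩,⟨false,0,⟨2,[(3,0),(0,1),(9,0),(1,1),(10,0),(4,0),(10,1)]⟩,⟨1,[(1,1),(23,0),(18,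
  0)]⟩⟩,⟨true,0,⟨0,[(43,0)]⟩,⟨0,[(42,0)]⟩⟩,⟨false,0,⟨2,[(3,0),(0,1),(9,0),(1,1),(10,0),(4,0),(10,
  4)]⟩,⟨17,[(1,15),(11,5),(1,1),(0,1),(7,1),(0,8),(2,1),(15,2)]⟩⟩,[.a ⟨true,0,⟨0,[(16,0),(6,0),(19,
  1)]⟩,⟨1,[(10,0),(16,0),(0,0)]⟩⟩ ⟨false,1,⟨1,[(25,0),(18,0)]⟩,⟨0,[(3,0)]⟩⟩ ⟨true,0,⟨6,[(2,2),(1,2),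
  (9,0),(1,1),(3,0),(6,3),(1,1),(2,1)]⟩,⟨0,[(1,0)]⟩⟩,.o ⟨false,1,⟨0,[(29,0),(15,0)]⟩,⟨0,[(31,0)]⟩⟩,
  .o ⟨false,1,⟨1,[(28,1),(9,0),(5,0)]⟩,⟨0,[(22,0),(4,0),(2,0)]⟩⟩,.e ⟨false,1,⟨1,[(2,1),(7,0),(1,1),
  (3,1),(10,0),(0,0)]⟩,⟨2,[(3,0),(2,0),(7,0),(11,0)]⟩⟩ ⟨false,1,⟨0,[(27,0),(1,0),(15,0)]⟩,⟨0,[(1,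
  0)]⟩⟩]⟩) (.I [0,0,0,0,0,0,0,1,1] (.R ⟨0,false,false,false,[1,0,0,-1],[1,0,-1],[1,0,0,0,0,0,0,0,
  -1],(⟨0,[(28,0)]⟩,⟨0,[(29,0)]⟩),(⟨0,[(37,0)]⟩,⟨0,[(38,0)]⟩),⟨0,[(1,0)]⟩,.k,.k,(.x (-1) ⟨15,[(8,3),
  (0,3),(16,6),(0,6),(11,1)]⟩ ⟨0,[(41,0)]⟩),.k,.k,.k,⟨false,1,⟨3,[(3,3),(7,0),(1,1),(0,1),(13,0),(0,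
  0)]⟩,⟨0,[(4,0),(31,0)]⟩⟩,⟨true,0,⟨0,[(28,0),(2,0)]⟩,⟨5,[(1,3),(6,0),(0,0),(15,2),(3,1)]⟩⟩,⟨true,0,
  ⟨0,[]⟩,⟨0,[(48,0)]⟩⟩,⟨false,0,⟨2,[(4,0),(0,1),(9,0),(1,1),(10,0),(4,0),(10,1)]⟩,⟨1,[(2,1),(23,0),
  (18,0)]⟩⟩,⟨false,0,⟨0,[]⟩,⟨0,[]⟩⟩,⟨false,0,⟨0,[]⟩,⟨0,[]⟩⟩,[.a ⟨true,0,⟨0,[(17,0),(6,0),(19,1)]⟩,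
  ⟨1,[(11,0),(16,0),(0,0)]⟩⟩ ⟨false,1,⟨1,[(26,0),(18,0)]⟩,⟨0,[(0,0),(5,0),(9,0),(0,1),(6,0),(19,
  6)]⟩⟩ ⟨true,0,⟨6,[(3,2),(1,2),(9,0),(1,1),(3,0),(6,3),(1,1),(2,1)]⟩,⟨0,[(2,0)]⟩⟩,.o ⟨false,1,⟨0,
  [(30,0),(15,0)]⟩,⟨0,[(32,0)]⟩⟩,.o ⟨false,1,⟨1,[(29,1),(9,0),(5,0)]⟩,⟨0,[(23,0),(4,0),(2,0)]⟩⟩,.e
  ⟨false,1,⟨1,[(3,1),(7,0),(1,1),(3,1),(10,0),(0,0)]⟩,⟨2,[(4,0),(2,0),(7,0),(11,0)]⟩⟩ ⟨false,1,⟨0,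
  [(28,0),(1,0),(15,0)]⟩,⟨0,[(2,0)]⟩⟩]⟩) (.R ⟨1,false,false,false,[0,0,0,1],[0,-1,1],[0,1,0,0,0,0,0,
  0,1],(⟨0,[(29,0)]⟩,⟨0,[(28,0)]⟩),(⟨0,[(22,0)]⟩,⟨0,[(37,0),(3,0)]⟩),⟨2,[(1,0),(6,0),(0,0),(19,1)]⟩,
  .k,.k,(.r (-1) ⟨11,[(14,3),(1,0),(0,1),(7,0),(1,5),(5,0),(11,1)]⟩ ⟨0,[(0,0),(5,1),(8,0),(0,0),(0,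
  1),(6,0),(19,9)]⟩),(.r 0 ⟨2,[(4,0),(2,0),(7,0),(11,0),(8,2),(7,2)]⟩ ⟨0,[(3,0),(10,0)]⟩),.k,.k,
  ⟨false,0,⟨1,[(4,1),(20,0),(4,0),(2,0),(10,1)]⟩,⟨3,[(0,3),(10,0),(0,3),(0,1),(0,1),(13,0),(0,0)]⟩⟩,
  ⟨true,0,⟨5,[(1,3),(6,0),(0,0),(15,2),(3,1)]⟩,⟨0,[(28,0),(2,0)]⟩⟩,⟨true,0,⟨0,[(48,0)]⟩,⟨0,[]⟩⟩,
  ⟨false,1,⟨3,[(0,1),(1,3),(11,1),(11,0),(15,1),(2,0)]⟩,⟨0,[(5,0),(27,0),(10,0)]⟩⟩,⟨false,0,⟨0,[(44,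
  0)]⟩,⟨23,[(6,3),(9,3),(0,3),(6,3),(1,4),(0,4),(18,13)]⟩⟩,⟨false,1,⟨3,[(0,1),(1,1),(8,1),(1,1),(12,
  0),(2,1),(12,1),(2,0)]⟩,⟨0,[(5,0),(27,0)]⟩⟩,[.a ⟨true,0,⟨1,[(6,0),(21,0),(0,0)]⟩,⟨0,[(17,0),(6,0),
  (19,2)]⟩⟩ ⟨true,0,⟨0,[(4,0),(43,0)]⟩,⟨0,[(0,0),(11,0)]⟩⟩ ⟨false,1,⟨8,[(2,7),(11,2),(1,0),(0,0),(7,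
  0),(3,0),(15,5)]⟩,⟨4,[(0,1),(2,0),(1,2),(9,0),(12,1),(1,0),(2,1),(10,3)]⟩⟩,.o ⟨false,1,⟨7,[(6,3),
  (19,0),(0,0),(11,1),(6,3)]⟩,⟨0,[(30,0),(13,0)]⟩⟩,.o ⟨false,0,⟨1,[(0,0),(4,0),(22,0),(2,0),(0,0)]⟩,
  ⟨1,[(29,1),(9,0),(5,0)]⟩⟩,.o ⟨false,0,⟨0,[(28,0),(2,0),(2,0)]⟩,⟨3,[(1,3),(6,0),(0,0),(3,1),(11,0),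
  (19,1)]⟩⟩]⟩))) (.R ⟨1,false,false,false,[1,0,0,-1],[1,0,-1],[0,0,0,0,0,0,0,0,-1],(⟨0,[(26,0)]⟩,⟨0,
  [(27,0)]⟩),(⟨0,[(35,0)]⟩,⟨0,[(36,0)]⟩),⟨3,[(0,1),(5,0),(0,0),(1,0),(16,1)]⟩,.k,.k,(.x (-1) ⟨15,
  [(6,3),(0,3),(16,6),(0,6),(11,1)]⟩ ⟨0,[(39,0)]⟩),.k,(.r (-1) ⟨0,[(1,0),(10,0)]⟩ ⟨2,[(2,0),(2,0),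
  (7,0),(11,0),(8,2),(7,2)]⟩),.k,⟨false,1,⟨3,[(1,3),(7,0),(1,1),(0,1),(13,0),(0,0)]⟩,⟨0,[(2,0),(31,
  0)]⟩⟩,⟨true,0,⟨0,[(26,0),(2,0)]⟩,⟨0,[(21,0),(5,0)]⟩⟩,⟨false,1,⟨3,[(24,0),(0,0),(18,1)]⟩,⟨0,[]⟩⟩,
  ⟨false,0,⟨1,[(0,0),(1,0),(0,0),(27,0),(8,0)]⟩,⟨1,[(9,0),(1,0),(9,0),(2,0),(2,1)]⟩⟩,⟨true,0,⟨0,
  [(42,0)]⟩,⟨0,[(41,0)]⟩⟩,⟨false,0,⟨1,[(0,0),(1,0),(0,0),(27,0),(8,0),(1,1)]⟩,⟨1,[(4,0),(6,0),(9,0),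
  (2,0),(2,1)]⟩⟩,[.e ⟨false,1,⟨1,[(24,0),(18,0)]⟩,⟨0,[(2,0)]⟩⟩ ⟨false,0,⟨0,[(0,0)]⟩,⟨7,[(9,3),(14,
  0),(0,0),(1,7),(9,1),(5,3)]⟩⟩,.o ⟨false,1,⟨0,[(28,0),(15,0)]⟩,⟨0,[(30,0)]⟩⟩,.o ⟨false,1,⟨1,[(27,
  1),(9,0),(5,0)]⟩,⟨1,[(0,0),(0,0),(1,0),(12,0)]⟩⟩,.a ⟨true,0,⟨0,[(27,0)]⟩,⟨0,[(26,0)]⟩⟩ ⟨false,1,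
  ⟨1,[(1,1),(7,0),(1,1),(3,1),(10,0),(0,0)]⟩,⟨2,[(2,0),(2,0),(7,0),(11,0)]⟩⟩ ⟨true,0,⟨0,[(0,0)]⟩,⟨0,
  [(27,0),(2,0)]⟩⟩]⟩))) (.Q [0,1,0,-1,0,0,0,0,0,-1,0,1] (.p true [0,0,0,1] [1] (⟨0,[(25,0)]⟩,⟨0,
  [(24,0)]⟩) .k 1 (⟨0,[]⟩,⟨0,[]⟩) .k .k) (.Q [0,0,0,0,0,-1,0,0,0,1,0,-1] (.p false [0,0,0,1] [1]
  (⟨0,[(26,0)]⟩,⟨0,[(25,0)]⟩) .k 1 (⟨0,[]⟩,⟨0,[]⟩) .k .k) (.R ⟨1,false,false,false,[1,0,0,-1],[0,1],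
  [0,1,0,0,0,0,0,0,-1],(⟨0,[(26,0)]⟩,⟨0,[(27,0)]⟩),(⟨0,[(39,0)]⟩,⟨0,[(38,0)]⟩),⟨0,[(0,0)]⟩,.k,.k,
  (.x (-1) ⟨15,[(6,3),(0,3),(16,6),(0,6),(11,1)]⟩ ⟨0,[(39,0)]⟩),(.x (-1) ⟨15,[(6,3),(0,3),(16,6),(0,
  6),(11,1)]⟩ ⟨0,[(39,0)]⟩),(.r (-1) ⟨5,[(2,5),(9,3),(1,0),(0,1),(7,0),(7,0),(11,1)]⟩ ⟨1,[(5,0),(19,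
  0),(3,0),(3,0),(8,3)]⟩),.k,⟨false,1,⟨0,[(2,0),(38,0),(1,0)]⟩,⟨0,[(3,0),(23,0),(14,0)]⟩⟩,⟨true,0,
  ⟨0,[(26,0)]⟩,⟨4,[(1,1),(3,0),(21,2),(1,1),(7,0),(2,0),(1,1)]⟩⟩,⟨true,0,⟨0,[(46,0)]⟩,⟨0,[]⟩⟩,
  ⟨false,0,⟨0,[(3,0),(22,0),(0,0),(14,0)]⟩,⟨9,[(1,5),(0,3),(1,0),(6,4),(3,1),(5,2),(2,2),(2,3),(16,
  1)]⟩⟩,⟨false,0,⟨0,[(42,0)]⟩,⟨23,[(4,3),(9,3),(0,3),(6,3),(1,4),(0,4),(18,13)]⟩⟩,⟨false,0,⟨0,[(3,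
  0),(22,0),(0,0),(14,1)]⟩,⟨8,[(1,6),(0,0),(1,1),(6,3),(0,0),(2,4),(8,3),(2,1),(12,0)]⟩⟩,[.o ⟨false,
  0,⟨0,[(42,0)]⟩,⟨23,[(4,3),(9,7),(9,4),(0,4),(11,9),(6,3)]⟩⟩,.e ⟨true,0,⟨0,[(2,0)]⟩,⟨4,[(1,0),(1,
  2),(1,0),(16,1),(2,0),(1,1),(14,2)]⟩⟩ ⟨true,0,⟨15,[(3,1),(1,1),(18,0),(1,13),(6,3),(6,5),(1,15),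
  (1,0)]⟩,⟨0,[(1,0)]⟩⟩,.o ⟨false,1,⟨1,[(27,1),(9,0),(5,0)]⟩,⟨5,[(2,1),(0,1),(1,0),(20,3),(1,0),(0,
  1),(0,0),(6,0)]⟩⟩,.a ⟨true,0,⟨0,[(27,0)]⟩,⟨0,[(26,0)]⟩⟩ ⟨false,1,⟨1,[(24,0),(18,0)]⟩,⟨0,[(3,0),
  (23,0)]⟩⟩ ⟨true,0,⟨0,[(26,0),(15,0)]⟩,⟨0,[(1,0)]⟩⟩]⟩) (.R ⟨0,false,false,false,[1,0,0,-1],[0,1],
  [0,1,0,0,0,0,0,0,-1],(⟨0,[(26,0)]⟩,⟨0,[(27,0)]⟩),(⟨0,[(39,0)]⟩,⟨0,[(38,0)]⟩),⟨0,[(0,0)]⟩,.k,.k,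
  (.x (-1) ⟨15,[(6,3),(0,3),(16,6),(0,6),(11,1)]⟩ ⟨0,[(39,0)]⟩),(.x (-1) ⟨15,[(6,3),(0,3),(16,6),(0,
  6),(11,1)]⟩ ⟨0,[(39,0)]⟩),.k,.k,⟨false,1,⟨0,[(2,0),(38,0),(1,0)]⟩,⟨0,[(3,0),(23,0),(14,0)]⟩⟩,
  ⟨true,0,⟨0,[(26,0)]⟩,⟨11,[(0,3),(4,2),(0,0),(0,0),(19,7),(1,5),(7,2)]⟩⟩,⟨true,0,⟨0,[(46,0)]⟩,⟨0,
  []⟩⟩,⟨false,0,⟨0,[(3,0),(22,0),(0,0),(14,0)]⟩,⟨11,[(0,7),(0,2),(4,1),(0,1),(3,2),(0,2),(2,2),(5,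
  2),(2,5),(2,0)]⟩⟩,⟨false,0,⟨0,[]⟩,⟨0,[]⟩⟩,⟨false,0,⟨0,[]⟩,⟨0,[]⟩⟩,[.o ⟨false,0,⟨0,[(42,0)]⟩,⟨23,
  [(4,3),(9,7),(9,4),(0,4),(11,9),(6,3)]⟩⟩,.e ⟨true,0,⟨0,[(2,0)]⟩,⟨4,[(1,0),(1,2),(1,0),(16,1),(2,
  0),(1,1),(14,2)]⟩⟩ ⟨true,0,⟨15,[(3,1),(1,1),(18,0),(1,13),(6,3),(6,5),(1,15),(1,0)]⟩,⟨0,[(1,0)]⟩⟩,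
  .o ⟨false,1,⟨1,[(27,1),(9,0),(5,0)]⟩,⟨5,[(2,1),(0,1),(1,0),(20,3),(1,0),(0,1),(0,0),(6,0)]⟩⟩,.a
  ⟨true,0,⟨0,[(27,0)]⟩,⟨0,[(26,0)]⟩⟩ ⟨false,1,⟨1,[(24,0),(18,0)]⟩,⟨0,[(3,0),(23,0)]⟩⟩ ⟨true,0,⟨0,
  [(26,0),(15,0)]⟩,⟨0,[(1,0)]⟩⟩]⟩)) (.R ⟨1,false,false,false,[1,0,0,-1],[0,1],[0,1,0,0,0,0,0,0,-1],
  (⟨0,[(25,0)]⟩,⟨0,[(26,0)]⟩),(⟨0,[(38,0)]⟩,⟨0,[(37,0)]⟩),⟨3,[(0,1),(4,0),(0,0),(8,0),(2,0),(6,1)]⟩,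
  .k,.k,(.x (-1) ⟨15,[(5,3),(0,3),(16,6),(0,6),(11,1)]⟩ ⟨0,[(38,0)]⟩),(.x (-1) ⟨15,[(5,3),(0,3),(16,
  6),(0,6),(11,1)]⟩ ⟨0,[(38,0)]⟩),(.r (-1) ⟨5,[(1,5),(9,3),(1,0),(0,1),(7,0),(7,0),(11,1)]⟩ ⟨1,[(4,
  0),(19,0),(3,0),(3,0),(8,3)]⟩),.k,⟨false,1,⟨0,[(1,0),(38,0),(1,0)]⟩,⟨0,[(2,0),(23,0),(14,0)]⟩⟩,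
  ⟨true,0,⟨0,[(25,0)]⟩,⟨0,[(20,0),(5,0),(1,0)]⟩⟩,⟨true,0,⟨0,[(45,0)]⟩,⟨0,[]⟩⟩,⟨false,0,⟨4,[(0,3),(1,
  2),(1,0),(16,1),(2,0),(1,1),(14,2)]⟩,⟨27,[(1,17),(8,5),(0,7),(1,3),(0,3),(5,9),(2,4),(2,27),(9,
  8)]⟩⟩,⟨false,0,⟨0,[(41,0)]⟩,⟨23,[(3,3),(9,3),(0,3),(6,3),(1,4),(0,4),(18,13)]⟩⟩,⟨false,0,⟨4,[(0,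
  3),(1,2),(1,0),(16,1),(2,0),(1,1),(14,7)]⟩,⟨39,[(1,29),(1,1),(7,19),(1,11),(0,11),(5,7),(2,4),(2,
  39),(9,14)]⟩⟩,[.o ⟨false,0,⟨0,[(41,0)]⟩,⟨23,[(3,3),(9,7),(9,4),(0,4),(11,9),(6,3)]⟩⟩,.a ⟨true,0,
  ⟨0,[(0,0),(25,0)]⟩,⟨0,[(40,0)]⟩⟩ ⟨true,0,⟨0,[(1,0)]⟩,⟨5,[(2,3),(1,0),(16,1),(2,0),(1,3),(0,0),(1,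
  0),(11,1)]⟩⟩ ⟨false,0,⟨0,[(0,0)]⟩,⟨15,[(13,3),(1,7),(7,0),(0,0),(1,15),(3,3),(5,5),(5,7)]⟩⟩,.o
  ⟨false,1,⟨1,[(26,1),(9,0),(5,0)]⟩,⟨5,[(1,1),(0,1),(1,0),(20,3),(1,0),(0,1),(0,0),(6,0)]⟩⟩,.e
  ⟨false,1,⟨1,[(23,0),(18,0)]⟩,⟨0,[(2,0),(23,0)]⟩⟩ ⟨false,0,⟨0,[(0,0)]⟩,⟨23,[(3,3),(9,7),(9,4),(0,
  4),(1,23),(9,9),(6,3)]⟩⟩]⟩)))))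

theorem ok59 : chk (cU (-1) true 10) t59 l40 = true := by decide +kernel

noncomputable def t76 : Tre :=
  (.I [0,-1,0,0,0,0,0,0,-1] (.Q [0,1,0,-1,0,0,2,2,0,1,-2] (.p false [0,0,1] [1,0,-1] (⟨0,[(27,0)]⟩,
  ⟨0,[(26,0)]⟩) .k 2 (⟨0,[(26,0)]⟩,⟨0,[(27,0)]⟩) .k (.r (-1) ⟨0,[(8,0),(28,0)]⟩ ⟨0,[(25,1)]⟩)) (.Q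
  [0,0,2,0,-1,0,1,0,0,1,-1] (.p false [0,0,1] [1] (⟨0,[(28,0)]⟩,⟨0,[(27,0)]⟩) .k 1 (⟨0,[]⟩,⟨0,[]⟩)
  .k .k) (.K ⟨0,[1,1,-1],1,0,(⟨0,[(28,0),(3,0)]⟩,⟨0,[(13,0)]⟩),.k,.k,(.r 1 ⟨0,[(3,0),(4,0),(26,1)]⟩
  ⟨9,[(1,7),(2,9),(2,5),(9,0),(0,0),(11,0),(6,6)]⟩),.k,.k,[⟨0,[(0,0)]⟩,⟨0,[(4,0)]⟩,⟨3,[(1,1),(13,1),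
  (0,0),(2,0),(0,0)]⟩,⟨0,[(21,0),(13,0)]⟩]⟩) (.Q [0,-1,0,2,0,0,-1,-1,0,0,1] (.p true [0,0,1] [] (⟨0,
  [(29,0)]⟩,⟨0,[(28,0)]⟩) .k 0 (⟨0,[]⟩,⟨0,[]⟩) .k .k) (.R ⟨1,true,false,false,[0,0,1],[0,1],[1,0,0,
  -1,0,0,0,1],(⟨0,[(30,0)]⟩,⟨0,[(29,0)]⟩),(⟨0,[(33,0)]⟩,⟨0,[(32,0)]⟩),⟨0,[(14,0)]⟩,.k,.k,.k,.k,(.r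
  (-2) ⟨9,[(2,7),(2,9),(2,5),(9,0),(0,0),(11,0),(6,6)]⟩ ⟨0,[(4,0),(4,0),(26,1)]⟩),.k,⟨true,1,⟨1,[(2,
  0),(2,0),(2,0),(0,0),(1,0)]⟩,⟨0,[(4,0),(4,0),(26,1)]⟩⟩,⟨false,1,⟨0,[(5,0)]⟩,⟨0,[(26,0)]⟩⟩,⟨false,
  1,⟨19,[(2,3),(5,3),(0,3),(6,3),(1,2),(0,2),(18,13)]⟩,⟨0,[(36,0)]⟩⟩,⟨true,0,⟨1,[(0,0),(24,0)]⟩,⟨0,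
  [(10,0)]⟩⟩,⟨true,0,⟨0,[]⟩,⟨0,[(40,0)]⟩⟩,⟨false,0,⟨0,[(0,0)]⟩,⟨9,[(2,7),(5,5),(9,0),(0,0),(11,0),
  (6,6)]⟩⟩,[]⟩) (.I [0,1,-1,0,0,0,0,-1] (.Q [0,1,-1,0,0,0,0,0,-1,0,0,1] (.p true [0,0,0,1] [] (⟨0,
  [(22,0)]⟩,⟨0,[(21,0)]⟩) .k 0 (⟨0,[]⟩,⟨0,[]⟩) .k .k) (.Q [0,1,1,0,0,0,0,0,1,0,0,-1] (.p false [0,0,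
  0,1] [] (⟨0,[(23,0)]⟩,⟨0,[(22,0)]⟩) .k 0 (⟨0,[]⟩,⟨0,[]⟩) .k .k) (.K ⟨0,[0,0,0,1],0,0,(⟨0,[(24,
  0)]⟩,⟨0,[(23,0)]⟩),.k,(.r (-1) ⟨5,[(3,1),(4,1),(3,1),(9,2),(17,0)]⟩ ⟨9,[(6,1),(0,2),(1,1),(4,0),
  (6,3),(17,2)]⟩),(.x 0 ⟨0,[(36,0)]⟩ ⟨7,[(15,3),(1,3),(3,2),(0,2),(11,1)]⟩),.k,.k,[⟨0,[(24,0)]⟩,⟨0,
  [(23,0)]⟩,⟨0,[(1,0)]⟩,⟨0,[(0,0)]⟩]⟩) (.Q [0,0,0,0,0,2,0,0,0,0,-1] (.p false [0,0,1] [] (⟨0,[(33,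
  0)]⟩,⟨0,[(32,0)]⟩) .k 0 (⟨0,[]⟩,⟨0,[]⟩) .k .k) (.R ⟨0,false,false,false,[0,-1,1],[1,0,0,-1],[0,0,
  0,0,0,0,0,0,-1],(⟨0,[(18,0)]⟩,⟨1,[(0,0),(23,0),(0,0),(7,0)]⟩),(⟨0,[(24,0)]⟩,⟨0,[(25,0)]⟩),⟨0,[(0,
  0)]⟩,.k,.k,(.r (-2) ⟨3,[(4,3),(4,3),(12,0),(0,0),(18,1)]⟩ ⟨0,[(8,0),(4,0),(26,1)]⟩),(.r (-2) ⟨15,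
  [(4,7),(4,7),(5,3),(6,4),(0,12),(18,1)]⟩ ⟨1,[(1,1),(2,1),(0,1),(2,0),(1,2),(2,0),(10,1)]⟩),.k,.k,
  ⟨false,1,⟨3,[(22,0),(0,0),(17,1)]⟩,⟨0,[]⟩⟩,⟨true,1,⟨0,[(5,0),(19,0)]⟩,⟨3,[(4,1),(3,2),(1,0),(2,0),
  (10,3),(5,1),(7,1)]⟩⟩,⟨true,(-1),⟨1,[(1,1),(2,1),(0,1),(2,0),(1,2),(2,0),(10,1)]⟩,⟨1,[(5,0),(0,0),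
  (13,0),(2,0)]⟩⟩,⟨false,0,⟨1,[(1,1),(3,1),(2,0),(1,0),(2,0)]⟩,⟨15,[(4,7),(10,3),(6,0),(0,8),(0,15),
  (5,11),(0,3),(10,1)]⟩⟩,⟨false,0,⟨0,[]⟩,⟨0,[]⟩⟩,⟨false,0,⟨0,[]⟩,⟨0,[]⟩⟩,[.o ⟨false,0,⟨0,[(1,0),(2,
  0),(0,0),(4,0)]⟩,⟨7,[(22,0),(0,4),(0,7),(2,3),(2,3),(4,1)]⟩⟩,.a ⟨true,0,⟨0,[(1,0)]⟩,⟨3,[(4,0),(3,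
  1),(14,1),(0,3),(4,0)]⟩⟩ ⟨true,0,⟨0,[(7,0)]⟩,⟨3,[(4,0),(3,1),(14,1),(5,0)]⟩⟩ ⟨false,1,⟨0,[(1,0),
  (3,0)]⟩,⟨3,[(4,0),(3,1),(14,1),(0,3),(4,0),(0,3)]⟩⟩,.o ⟨false,0,⟨0,[(30,0)]⟩,⟨4,[(9,2),(1,0),(23,
  1)]⟩⟩,.o ⟨false,0,⟨1,[(30,2),(0,0)]⟩,⟨0,[(5,0)]⟩⟩]⟩) (.R ⟨1,false,false,false,[0,-1,1],[1,0,0,-1],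
  [0,0,-1,-1,0,0,0,1],(⟨0,[(18,0)]⟩,⟨0,[(33,0),(3,0)]⟩),(⟨0,[(24,0)]⟩,⟨0,[(25,0)]⟩),⟨0,[(0,0)]⟩,.k,
  .k,(.r (-2) ⟨3,[(4,3),(4,3),(12,0),(0,0),(18,1)]⟩ ⟨0,[(3,0),(4,0),(29,0),(1,0)]⟩),(.r (-2) ⟨15,
  [(4,7),(4,7),(5,3),(6,4),(0,12),(18,1)]⟩ ⟨1,[(1,1),(2,1),(0,1),(2,0),(1,2),(2,0),(10,1)]⟩),(.r
  (-2) ⟨1,[(4,1),(4,1),(13,0),(18,0)]⟩ ⟨21,[(2,0),(0,4),(1,0),(1,14),(0,7),(1,17),(11,2),(1,0),(3,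
  0)]⟩),.k,⟨false,2,⟨15,[(4,7),(4,7),(5,3),(6,0),(0,8),(17,7),(0,1)]⟩,⟨1,[(1,1),(2,1),(0,1),(2,0),
  (1,2),(2,0),(10,1)]⟩⟩,⟨true,1,⟨0,[(5,0),(19,0)]⟩,⟨3,[(4,1),(3,2),(1,0),(2,0),(10,3),(5,1),(7,
  1)]⟩⟩,⟨false,1,⟨3,[(22,0),(0,0),(18,1)]⟩,⟨0,[]⟩⟩,⟨false,0,⟨1,[(1,1),(3,1),(2,0),(1,0),(2,0)]⟩,⟨15,
  [(4,7),(10,3),(6,0),(0,8),(0,15),(5,11),(0,3),(10,1)]⟩⟩,⟨true,0,⟨0,[(40,0)]⟩,⟨1,[(4,0),(24,0)]⟩⟩,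
  ⟨false,0,⟨0,[(1,0),(3,0),(4,0)]⟩,⟨1,[(4,1),(18,0),(0,1),(5,0),(0,0),(10,0)]⟩⟩,[.o ⟨false,0,⟨0,[(1,
  0),(2,0),(0,0),(4,0)]⟩,⟨7,[(22,0),(0,4),(0,7),(2,3),(2,3),(4,1)]⟩⟩,.a ⟨true,0,⟨0,[(1,0)]⟩,⟨3,[(4,
  0),(3,1),(14,1),(0,3),(4,0)]⟩⟩ ⟨true,1,⟨3,[(4,0),(0,0),(0,0),(2,1),(3,0),(1,0),(22,1)]⟩,⟨3,[(8,1),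
  (1,1),(1,0),(8,0),(7,0)]⟩⟩ ⟨false,1,⟨0,[(1,0),(3,0)]⟩,⟨3,[(4,0),(3,1),(14,1),(0,3),(4,0),(0,3)]⟩⟩,
  .o ⟨false,0,⟨0,[(30,0)]⟩,⟨4,[(9,2),(1,0),(23,1)]⟩⟩,.o ⟨false,0,⟨1,[(30,2),(0,0)]⟩,⟨0,[(5,
  0)]⟩⟩]⟩))) (.Q [0,0,0,0,0,-1,0,0,0,1,0,-1] (.p false [0,0,0,1] [1] (⟨0,[(23,0)]⟩,⟨0,[(22,0)]⟩) .k
  1 (⟨0,[]⟩,⟨0,[]⟩) .k .k) (.R ⟨1,false,false,false,[1,0,0,-1],[0,1],[0,0,0,0,0,0,0,0,-1],(⟨0,[(23,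
  0)]⟩,⟨0,[(24,0)]⟩),(⟨0,[(36,0)]⟩,⟨0,[(35,0)]⟩),⟨0,[(0,0)]⟩,.k,.k,(.x (-1) ⟨7,[(15,3),(1,3),(3,2),
  (0,2),(11,1)]⟩ ⟨0,[(36,0)]⟩),(.x (-1) ⟨7,[(15,3),(1,3),(3,2),(0,2),(11,1)]⟩ ⟨0,[(36,0)]⟩),(.r
  (-1) ⟨17,[(2,5),(0,13),(2,11),(1,13),(3,7),(8,2),(18,0)]⟩ ⟨11,[(7,3),(1,7),(4,3),(6,0),(0,6),(16,
  3)]⟩),.k,⟨false,1,⟨17,[(2,5),(0,7),(2,11),(1,7),(3,1),(8,2),(18,6)]⟩,⟨2,[(1,0),(5,0),(14,0),(1,0),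
  (14,1)]⟩⟩,⟨true,0,⟨0,[(23,0)]⟩,⟨0,[(18,0),(5,0),(1,0)]⟩⟩,⟨false,1,⟨3,[(21,0),(0,0),(18,1)]⟩,⟨0,
  []⟩⟩,⟨false,0,⟨0,[(1,0),(21,0),(0,0),(14,0)]⟩,⟨9,[(2,1),(0,3),(0,3),(1,3),(5,1),(8,2),(2,9),(9,
  2)]⟩⟩,⟨true,0,⟨0,[(39,0)]⟩,⟨1,[(3,0),(24,0)]⟩⟩,⟨false,0,⟨0,[(1,0),(21,0),(0,0),(14,1)]⟩,⟨69,[(2,
  1),(0,43),(0,33),(1,23),(4,9),(0,31),(8,22),(2,69),(9,12)]⟩⟩,[.o ⟨false,0,⟨0,[(39,0)]⟩,⟨15,[(3,3),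
  (7,3),(9,2),(0,2),(11,5),(6,3)]⟩⟩,.o ⟨false,1,⟨3,[(21,0),(0,0),(16,3),(1,1)]⟩,⟨1,[(3,1),(0,1),(2,
  0),(1,0),(2,0)]⟩⟩,.o ⟨false,1,⟨1,[(24,1),(9,0),(5,0)]⟩,⟨22,[(1,6),(1,1),(2,4),(0,7),(3,1),(9,0),
  (1,15),(10,6)]⟩⟩,.a ⟨true,0,⟨0,[(24,0)]⟩,⟨0,[(23,0)]⟩⟩ ⟨false,1,⟨3,[(6,1),(14,0),(18,1),(0,0)]⟩,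
  ⟨12,[(1,4),(1,0),(3,3),(4,0),(6,0),(2,3),(1,4)]⟩⟩ ⟨true,0,⟨0,[(23,0),(15,0)]⟩,⟨1,[(3,1),(0,1),(2,
  0),(1,0),(2,0),(11,1)]⟩⟩]⟩) (.R ⟨0,false,false,false,[1,0,0,-1],[0,1],[1,1,0,-1,0,0,0,0,-1],(⟨0,
  [(23,0)]⟩,⟨0,[(24,0)]⟩),(⟨0,[(36,0)]⟩,⟨0,[(35,0)]⟩),⟨0,[(0,0)]⟩,.k,.k,(.x (-1) ⟨7,[(15,3),(1,3),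
  (3,2),(0,2),(11,1)]⟩ ⟨0,[(36,0)]⟩),(.x (-1) ⟨7,[(15,3),(1,3),(3,2),(0,2),(11,1)]⟩ ⟨0,[(36,0)]⟩),
  .k,.k,⟨false,1,⟨28,[(2,17),(0,23),(2,10),(1,19),(3,5),(6,3),(1,8)]⟩,⟨0,[(1,0),(22,0),(14,1)]⟩⟩,
  ⟨true,0,⟨0,[(23,0)]⟩,⟨6,[(0,1),(2,1),(5,1),(5,0),(1,0),(6,4),(1,1),(7,1),(2,0)]⟩⟩,⟨true,0,⟨1,[(3,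
  0),(24,0)]⟩,⟨0,[(39,0)]⟩⟩,⟨false,0,⟨0,[(1,0),(21,0),(0,0),(14,0)]⟩,⟨9,[(2,1),(0,3),(0,3),(1,3),(5,
  1),(8,2),(2,9),(9,2)]⟩⟩,⟨false,0,⟨0,[]⟩,⟨0,[]⟩⟩,⟨false,0,⟨0,[]⟩,⟨0,[]⟩⟩,[.o ⟨false,0,⟨0,[(39,0)]⟩,
  ⟨15,[(3,3),(7,3),(9,2),(0,2),(11,5),(6,3)]⟩⟩,.o ⟨false,1,⟨3,[(21,0),(0,0),(16,3),(1,1)]⟩,⟨1,[(3,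
  1),(0,1),(2,0),(1,0),(2,0)]⟩⟩,.o ⟨false,1,⟨1,[(24,1),(9,0),(5,0)]⟩,⟨22,[(1,6),(1,1),(2,4),(0,7),
  (3,1),(9,0),(1,15),(10,6)]⟩⟩,.a ⟨true,0,⟨0,[(24,0)]⟩,⟨0,[(23,0)]⟩⟩ ⟨false,1,⟨5,[(3,1),(4,1),(3,1),
  (8,2),(18,0)]⟩,⟨0,[(1,0),(22,0),(14,0)]⟩⟩ ⟨true,0,⟨0,[(23,0),(15,0)]⟩,⟨1,[(0,1),(12,0),(1,0),(0,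
  0),(0,0)]⟩⟩]⟩))) (.Q [0,1,-1,0,0,0,0,0,-1,0,0,1] (.p true [0,0,0,1] [] (⟨0,[(22,0)]⟩,⟨0,[(21,
  0)]⟩) .k 0 (⟨0,[]⟩,⟨0,[]⟩) .k .k) (.Q [0,1,1,0,0,0,0,0,1,0,0,-1] (.p false [0,0,0,1] [] (⟨0,[(23,
  0)]⟩,⟨0,[(22,0)]⟩) .k 0 (⟨0,[]⟩,⟨0,[]⟩) .k .k) (.K ⟨0,[0,0,0,1],0,0,(⟨0,[(24,0)]⟩,⟨0,[(23,0)]⟩),
  .k,(.r (-1) ⟨5,[(3,1),(4,1),(3,1),(9,2),(17,0)]⟩ ⟨9,[(6,1),(0,2),(1,1),(4,0),(6,3),(17,2)]⟩),(.x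
  0 ⟨0,[(36,0)]⟩ ⟨7,[(15,3),(1,3),(3,2),(0,2),(11,1)]⟩),.k,.k,[⟨0,[(24,0)]⟩,⟨0,[(23,0)]⟩,⟨0,[(1,
  0)]⟩,⟨0,[(0,0)]⟩]⟩) (.Q [0,0,0,0,0,-2,0,0,0,0,1] (.p true [0,0,1] [] (⟨0,[(33,0)]⟩,⟨0,[(32,0)]⟩)
  .k 0 (⟨0,[]⟩,⟨0,[]⟩) .k .k) (.R ⟨1,false,false,false,[0,-1,1],[1,0,0,-1],[0,0,-1,-1,0,0,0,1],(⟨0,
  [(18,0)]⟩,⟨0,[(33,0),(3,0)]⟩),(⟨0,[(24,0)]⟩,⟨0,[(25,0)]⟩),⟨0,[(0,0)]⟩,.k,.k,(.r (-2) ⟨3,[(4,3),(4,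
  3),(12,0),(0,0),(18,1)]⟩ ⟨0,[(8,0),(4,0),(26,1)]⟩),(.r (-2) ⟨15,[(4,7),(4,7),(5,3),(6,4),(0,12),
  (18,1)]⟩ ⟨1,[(1,1),(2,1),(0,1),(2,0),(1,2),(2,0),(10,1)]⟩),(.r (-2) ⟨1,[(4,1),(4,1),(13,0),(18,
  0)]⟩ ⟨10,[(2,1),(4,6),(0,0),(1,10),(6,0),(4,0),(1,1),(1,0),(1,1)]⟩),.k,⟨false,2,⟨15,[(4,7),(4,7),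
  (5,3),(6,0),(0,8),(17,7),(0,1)]⟩,⟨1,[(1,1),(2,1),(0,1),(2,0),(1,2),(2,0),(10,1)]⟩⟩,⟨true,1,⟨0,[(5,
  0),(19,0)]⟩,⟨3,[(4,1),(3,2),(1,0),(2,0),(10,3),(5,1),(7,1)]⟩⟩,⟨false,1,⟨3,[(22,0),(0,0),(18,1)]⟩,
  ⟨0,[]⟩⟩,⟨false,0,⟨1,[(1,1),(3,1),(2,0),(1,0),(2,0)]⟩,⟨15,[(4,7),(10,3),(6,0),(0,8),(0,15),(5,11),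
  (0,3),(10,1)]⟩⟩,⟨true,0,⟨0,[(40,0)]⟩,⟨1,[(4,0),(24,0)]⟩⟩,⟨false,0,⟨0,[(1,0),(3,0),(4,0)]⟩,⟨1,[(4,
  1),(18,0),(0,1),(5,0),(0,0),(10,0)]⟩⟩,[.o ⟨false,0,⟨0,[(1,0),(2,0),(0,0),(4,0)]⟩,⟨7,[(22,0),(0,4),
  (0,7),(2,3),(2,3),(4,1)]⟩⟩,.a ⟨true,0,⟨0,[(1,0)]⟩,⟨3,[(4,0),(3,1),(14,1),(0,3),(4,0)]⟩⟩ ⟨true,1,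
  ⟨3,[(4,0),(0,0),(0,0),(2,1),(3,0),(1,0),(22,1)]⟩,⟨3,[(8,1),(1,1),(1,0),(8,0),(7,0)]⟩⟩ ⟨false,1,⟨0,
  [(1,0),(3,0)]⟩,⟨3,[(4,0),(3,1),(14,1),(0,3),(4,0),(0,3)]⟩⟩,.o ⟨false,0,⟨0,[(30,0)]⟩,⟨4,[(9,2),(1,
  0),(23,1)]⟩⟩,.o ⟨false,0,⟨1,[(30,2),(0,0)]⟩,⟨0,[(5,0)]⟩⟩]⟩) (.R ⟨0,false,false,false,[0,-1,1],[1,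
  0,0,-1],[0,0,0,0,0,0,0,0,-1],(⟨0,[(18,0)]⟩,⟨1,[(0,0),(23,0),(0,0),(7,0)]⟩),(⟨0,[(24,0)]⟩,⟨0,[(25,
  0)]⟩),⟨0,[(0,0)]⟩,.k,.k,(.r (-2) ⟨3,[(4,3),(4,3),(12,0),(0,0),(18,1)]⟩ ⟨0,[(8,0),(4,0),(26,1)]⟩),
  (.r (-2) ⟨15,[(4,7),(4,7),(5,3),(6,4),(0,12),(18,1)]⟩ ⟨1,[(1,1),(2,1),(0,1),(2,0),(1,2),(2,0),(10,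
  1)]⟩),.k,.k,⟨false,1,⟨3,[(22,0),(0,0),(17,1)]⟩,⟨0,[]⟩⟩,⟨true,1,⟨0,[(5,0),(19,0)]⟩,⟨3,[(4,1),(3,2),
  (1,0),(2,0),(10,3),(5,1),(7,1)]⟩⟩,⟨true,(-1),⟨1,[(1,1),(2,1),(0,1),(2,0),(1,2),(2,0),(10,1)]⟩,⟨1,
  [(5,0),(0,0),(13,0),(2,0)]⟩⟩,⟨false,0,⟨1,[(1,1),(3,1),(2,0),(1,0),(2,0)]⟩,⟨15,[(4,7),(10,3),(6,0),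
  (0,8),(0,15),(5,11),(0,3),(10,1)]⟩⟩,⟨false,0,⟨0,[]⟩,⟨0,[]⟩⟩,⟨false,0,⟨0,[]⟩,⟨0,[]⟩⟩,[.o ⟨false,0,
  ⟨0,[(1,0),(2,0),(0,0),(4,0)]⟩,⟨7,[(22,0),(0,4),(0,7),(2,3),(2,3),(4,1)]⟩⟩,.a ⟨true,0,⟨0,[(1,0)]⟩,
  ⟨3,[(4,0),(3,1),(14,1),(0,3),(4,0)]⟩⟩ ⟨true,0,⟨0,[(7,0)]⟩,⟨3,[(4,0),(3,1),(14,1),(5,0)]⟩⟩ ⟨false,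
  1,⟨0,[(1,0),(3,0)]⟩,⟨3,[(4,0),(3,1),(14,1),(0,3),(4,0),(0,3)]⟩⟩,.o ⟨false,0,⟨0,[(30,0)]⟩,⟨4,[(9,
  2),(1,0),(23,1)]⟩⟩,.o ⟨false,0,⟨1,[(30,2),(0,0)]⟩,⟨0,[(5,0)]⟩⟩]⟩))) (.Q [0,0,0,0,0,-1,0,0,0,1,0,
  -1] (.p false [0,0,0,1] [1] (⟨0,[(23,0)]⟩,⟨0,[(22,0)]⟩) .k 1 (⟨0,[]⟩,⟨0,[]⟩) .k .k) (.R ⟨1,false,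
  false,false,[1,0,0,-1],[0,1],[0,0,0,0,0,0,0,0,-1],(⟨0,[(23,0)]⟩,⟨0,[(24,0)]⟩),(⟨0,[(36,0)]⟩,⟨0,
  [(35,0)]⟩),⟨0,[(0,0)]⟩,.k,.k,(.x (-1) ⟨7,[(15,3),(1,3),(3,2),(0,2),(11,1)]⟩ ⟨0,[(36,0)]⟩),(.x
  (-1) ⟨7,[(15,3),(1,3),(3,2),(0,2),(11,1)]⟩ ⟨0,[(36,0)]⟩),(.r (-1) ⟨1,[(3,0),(2,1),(1,1),(2,0),(8,
  0)]⟩ ⟨11,[(7,3),(1,7),(4,3),(6,0),(0,6),(16,3)]⟩),.k,⟨false,1,⟨1,[(3,0),(2,1),(21,0),(11,1)]⟩,⟨2,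
  [(1,0),(5,0),(14,0),(1,0),(14,1)]⟩⟩,⟨true,0,⟨0,[(23,0)]⟩,⟨0,[(18,0),(5,0),(1,0)]⟩⟩,⟨false,1,⟨3,
  [(21,0),(0,0),(18,1)]⟩,⟨0,[]⟩⟩,⟨false,0,⟨0,[(1,0),(21,0),(0,0),(14,0)]⟩,⟨17,[(3,4),(0,8),(1,5),(4,
  2),(0,1),(5,6),(2,5),(2,17),(9,2)]⟩⟩,⟨true,0,⟨0,[(39,0)]⟩,⟨1,[(3,0),(24,0)]⟩⟩,⟨false,0,⟨0,[(1,0),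
  (21,0),(0,0),(14,1)]⟩,⟨17,[(3,10),(0,8),(1,5),(4,2),(0,7),(5,0),(2,5),(2,17),(9,2)]⟩⟩,[.o ⟨false,
  0,⟨0,[(39,0)]⟩,⟨15,[(3,3),(7,3),(9,2),(0,2),(11,5),(6,3)]⟩⟩,.o ⟨false,1,⟨3,[(21,0),(0,0),(16,3),
  (1,1)]⟩,⟨1,[(3,1),(0,1),(2,0),(1,0),(2,0)]⟩⟩,.o ⟨false,1,⟨1,[(24,1),(9,0),(5,0)]⟩,⟨22,[(1,6),(1,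
  1),(2,4),(0,7),(3,1),(9,0),(1,15),(10,6)]⟩⟩,.a ⟨true,0,⟨0,[(24,0)]⟩,⟨0,[(23,0)]⟩⟩ ⟨false,1,⟨3,[(6,
  1),(14,0),(18,1),(0,0)]⟩,⟨12,[(1,4),(1,0),(3,3),(4,0),(6,0),(2,3),(1,4)]⟩⟩ ⟨true,0,⟨0,[(23,0),(15,
  0)]⟩,⟨1,[(3,1),(0,1),(2,0),(1,0),(2,0),(11,1)]⟩⟩]⟩) (.R ⟨0,false,false,false,[1,0,0,-1],[0,1],[1,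
  0,0,0,0,0,0,0,-1],(⟨0,[(23,0)]⟩,⟨0,[(24,0)]⟩),(⟨0,[(36,0)]⟩,⟨0,[(35,0)]⟩),⟨0,[(0,0)]⟩,.k,.k,(.x
  (-1) ⟨7,[(15,3),(1,3),(3,2),(0,2),(11,1)]⟩ ⟨0,[(36,0)]⟩),(.x (-1) ⟨7,[(15,3),(1,3),(3,2),(0,2),
  (11,1)]⟩ ⟨0,[(36,0)]⟩),.k,.k,⟨false,1,⟨1,[(3,0),(2,1),(21,0),(11,1)]⟩,⟨2,[(1,0),(5,0),(14,0),(1,
  0),(14,1)]⟩⟩,⟨true,0,⟨0,[(23,0)]⟩,⟨6,[(0,1),(2,1),(5,1),(5,0),(1,0),(6,4),(1,1),(7,1),(2,0)]⟩⟩,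
  ⟨true,0,⟨0,[]⟩,⟨0,[(43,0)]⟩⟩,⟨false,0,⟨0,[(1,0),(21,0),(0,0),(14,0)]⟩,⟨17,[(3,4),(0,8),(1,5),(4,
  2),(0,1),(5,6),(2,5),(2,17),(9,2)]⟩⟩,⟨false,0,⟨0,[]⟩,⟨0,[]⟩⟩,⟨false,0,⟨0,[]⟩,⟨0,[]⟩⟩,[.o ⟨false,0,
  ⟨0,[(39,0)]⟩,⟨15,[(3,3),(7,3),(9,2),(0,2),(11,5),(6,3)]⟩⟩,.o ⟨false,1,⟨3,[(21,0),(0,0),(16,3),(1,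
  1)]⟩,⟨1,[(3,1),(0,1),(2,0),(1,0),(2,0)]⟩⟩,.o ⟨false,1,⟨1,[(24,1),(9,0),(5,0)]⟩,⟨22,[(1,6),(1,1),
  (2,4),(0,7),(3,1),(9,0),(1,15),(10,6)]⟩⟩,.a ⟨true,0,⟨0,[(24,0)]⟩,⟨0,[(23,0)]⟩⟩ ⟨false,1,⟨3,[(6,1),
  (14,0),(18,1),(0,0)]⟩,⟨12,[(1,4),(1,0),(3,3),(4,0),(6,0),(2,3),(1,4)]⟩⟩ ⟨true,0,⟨0,[(23,0),(15,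
  0)]⟩,⟨1,[(0,1),(12,0),(1,0),(0,0),(0,0)]⟩⟩]⟩)))))) (.Q [0,0,2,0,-1,0,1,0,0,1,-1] (.p false [0,0,
  1] [1] (⟨0,[(28,0)]⟩,⟨0,[(27,0)]⟩) .k 1 (⟨0,[]⟩,⟨0,[]⟩) .k .k) (.K ⟨0,[1,1,-1],1,0,(⟨0,[(28,0),(3,
  0)]⟩,⟨0,[(13,0)]⟩),.k,.k,(.r 1 ⟨0,[(0,0),(0,0),(7,0),(25,1)]⟩ ⟨0,[(4,0),(4,0),(24,0),(2,0)]⟩),.k,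
  .k,[⟨0,[(0,0)]⟩,⟨0,[(4,0)]⟩,⟨0,[(9,0),(9,0),(0,0)]⟩,⟨0,[(21,0),(13,0)]⟩]⟩) (.I [1,-1,1,1,0,0,0,1]
  (.Q [0,1,-1,0,0,0,0,0,-1,0,0,1] (.p true [0,0,0,1] [] (⟨0,[(21,0)]⟩,⟨0,[(20,0)]⟩) .k 0 (⟨0,[]⟩,⟨0,
  []⟩) .k .k) (.Q [0,1,1,-1,0,0,1,1,1,1,-1,-1] (.p false [0,0,1] [1,0,0,-1] (⟨0,[(31,0)]⟩,⟨0,[(30,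
  0)]⟩) .k 2 (⟨0,[(21,0)]⟩,⟨0,[(22,0)]⟩) .k (.r (-1) ⟨1,[(12,0),(7,0),(20,0)]⟩ ⟨7,[(0,1),(3,3),(2,
  0),(6,1),(1,1),(2,0),(1,1),(7,4)]⟩)) (.K ⟨0,[0,0,0,1],0,0,(⟨0,[(23,0)]⟩,⟨0,[(22,0)]⟩),.k,(.r (-1)
  ⟨1,[(7,0),(3,0),(0,0),(8,0)]⟩ ⟨6,[(2,0),(2,0),(0,1),(1,0),(11,2),(17,1)]⟩),(.x 0 ⟨0,[(35,0)]⟩ ⟨7,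
  [(14,3),(1,3),(3,2),(0,2),(11,1)]⟩),.k,.k,[⟨0,[(23,0)]⟩,⟨0,[(22,0)]⟩,⟨0,[(1,0)]⟩,⟨1,[(0,1),(2,0),
  (0,0),(3,0),(3,0)]⟩]⟩) (.Q [0,1,1,0,0,0,0,0,1,0,0,-1] (.p false [0,0,0,1] [] (⟨0,[(23,0)]⟩,⟨0,
  [(22,0)]⟩) .k 0 (⟨0,[]⟩,⟨0,[]⟩) .k .k) (.K ⟨0,[0,0,0,1],0,0,(⟨0,[(24,0)]⟩,⟨0,[(23,0)]⟩),.k,(.r
  (-1) ⟨1,[(8,0),(3,0),(0,0),(8,0)]⟩ ⟨8,[(1,0),(1,1),(3,1),(1,1),(11,3),(1,0),(3,0)]⟩),(.x 0 ⟨0,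
  [(36,0)]⟩ ⟨7,[(15,3),(1,3),(3,2),(0,2),(11,1)]⟩),.k,.k,[⟨0,[(24,0)]⟩,⟨0,[(23,0)]⟩,⟨0,[(2,0)]⟩,⟨0,
  [(0,0)]⟩]⟩) (.Q [0,-1,0,2,0,0,-1,-1,0,0,1] (.p true [0,0,1] [] (⟨0,[(33,0)]⟩,⟨0,[(32,0)]⟩) .k 0
  (⟨0,[]⟩,⟨0,[]⟩) .k .k) (.R ⟨1,true,false,false,[0,0,1],[0,1],[1,0,0,-1,0,0,0,1],(⟨0,[(34,0)]⟩,⟨0,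
  [(33,0)]⟩),(⟨0,[(37,0)]⟩,⟨0,[(36,0)]⟩),⟨0,[(18,0)]⟩,.k,.k,.k,.k,(.r (-2) ⟨0,[(9,0),(4,0),(24,0),
  (2,0)]⟩ ⟨0,[(8,0),(4,0),(26,1)]⟩),.k,⟨true,1,⟨9,[(9,4),(3,6),(0,8),(0,3),(4,3),(21,0)]⟩,⟨0,[(8,0),
  (4,0),(26,1)]⟩⟩,⟨false,1,⟨0,[(9,0)]⟩,⟨0,[(30,0)]⟩⟩,⟨false,1,⟨0,[(39,0),(2,0)]⟩,⟨0,[(40,0)]⟩⟩,
  ⟨true,0,⟨1,[(0,0),(28,0)]⟩,⟨0,[(14,0)]⟩⟩,⟨true,0,⟨0,[]⟩,⟨0,[(44,0)]⟩⟩,⟨false,0,⟨0,[(0,0)]⟩,⟨0,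
  [(14,0),(24,0),(2,0)]⟩⟩,[]⟩) (.Q [0,0,0,0,0,-2,0,0,0,0,1] (.p true [0,0,1] [] (⟨0,[(34,0)]⟩,⟨0,
  [(33,0)]⟩) .k 0 (⟨0,[]⟩,⟨0,[]⟩) .k .k) (.R ⟨1,false,false,false,[0,-1,1],[1,0,0,-1],[1,0,-1,-2,0,
  0,0,1],(⟨0,[(19,0)]⟩,⟨0,[(34,0),(3,0)]⟩),(⟨0,[(25,0)]⟩,⟨0,[(26,0)]⟩),⟨0,[(0,0)]⟩,.k,.k,(.r (-2)
  ⟨3,[(1,3),(8,3),(12,0),(0,0),(18,1)]⟩ ⟨0,[(9,0),(4,0),(26,1)]⟩),(.r (-2) ⟨15,[(1,7),(8,7),(5,3),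
  (6,4),(0,12),(18,1)]⟩ ⟨0,[(1,0),(1,0),(7,0),(13,0)]⟩),(.r (-2) ⟨1,[(1,1),(8,1),(13,0),(18,0)]⟩
  ⟨10,[(4,1),(3,6),(0,0),(1,10),(6,0),(4,0),(1,1),(1,0),(1,1)]⟩),.k,⟨false,2,⟨1,[(1,1),(8,1),(13,0),
  (18,0)]⟩,⟨0,[(3,0),(7,0),(3,0),(9,0)]⟩⟩,⟨true,1,⟨0,[(6,0),(19,0)]⟩,⟨3,[(1,1),(7,2),(1,0),(2,0),
  (10,3),(5,1),(7,1)]⟩⟩,⟨false,1,⟨15,[(1,3),(12,3),(6,3),(1,2),(0,2),(18,9)]⟩,⟨0,[(41,0)]⟩⟩,⟨false,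
  0,⟨0,[(3,0)]⟩,⟨15,[(1,7),(14,3),(6,0),(0,8),(0,15),(5,11),(0,3),(10,1)]⟩⟩,⟨true,0,⟨0,[]⟩,⟨0,[(45,
  0)]⟩⟩,⟨false,0,⟨0,[(3,0),(37,0)]⟩,⟨1,[(1,1),(22,0),(0,1),(5,0),(0,0),(10,0)]⟩⟩,[.o ⟨false,0,⟨0,
  [(3,0),(11,0)]⟩,⟨7,[(23,0),(0,4),(0,7),(2,3),(2,3),(4,1)]⟩⟩,.a ⟨true,0,⟨0,[(2,0)]⟩,⟨1,[(9,0),(14,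
  0),(0,1),(14,0)]⟩⟩ ⟨true,1,⟨0,[(1,0),(8,0),(28,0)]⟩,⟨0,[(11,0),(33,0)]⟩⟩ ⟨false,1,⟨0,[(2,0),(3,
  0)]⟩,⟨1,[(9,0),(14,0),(0,1),(5,1),(8,0)]⟩⟩,.o ⟨false,0,⟨0,[(31,0)]⟩,⟨4,[(10,2),(1,0),(23,1)]⟩⟩,.o
  ⟨false,0,⟨1,[(31,2),(0,0)]⟩,⟨0,[(6,0)]⟩⟩]⟩) (.R ⟨0,false,false,false,[0,-1,1],[1,0,0,-1],[0,0,0,0,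
  0,0,0,0,-1],(⟨0,[(19,0)]⟩,⟨1,[(0,0),(24,0),(0,0),(7,0)]⟩),(⟨0,[(25,0)]⟩,⟨0,[(26,0)]⟩),⟨0,[(0,0)]⟩,
  .k,.k,(.r (-2) ⟨3,[(1,3),(8,3),(12,0),(0,0),(18,1)]⟩ ⟨0,[(9,0),(4,0),(26,1)]⟩),(.r (-2) ⟨15,[(1,
  7),(8,7),(5,3),(6,4),(0,12),(18,1)]⟩ ⟨0,[(1,0),(1,0),(7,0),(13,0)]⟩),.k,.k,⟨false,1,⟨3,[(23,0),(0,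
  0),(17,1)]⟩,⟨0,[]⟩⟩,⟨true,1,⟨0,[(6,0),(19,0)]⟩,⟨3,[(1,1),(7,2),(1,0),(2,0),(10,3),(5,1),(7,1)]⟩⟩,
  ⟨true,(-1),⟨0,[(1,0),(1,0),(7,0),(13,0)]⟩,⟨0,[(1,0),(0,0),(3,0),(2,0),(14,0),(0,0)]⟩⟩,⟨false,0,⟨0,
  [(3,0)]⟩,⟨15,[(1,7),(14,3),(6,0),(0,8),(0,15),(5,11),(0,3),(10,1)]⟩⟩,⟨false,0,⟨0,[]⟩,⟨0,[]⟩⟩,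
  ⟨false,0,⟨0,[]⟩,⟨0,[]⟩⟩,[.o ⟨false,0,⟨0,[(3,0),(11,0)]⟩,⟨7,[(23,0),(0,4),(0,7),(2,3),(2,3),(4,
  1)]⟩⟩,.a ⟨true,0,⟨0,[(2,0)]⟩,⟨1,[(9,0),(14,0),(0,1),(14,0)]⟩⟩ ⟨true,0,⟨0,[(8,0)]⟩,⟨1,[(9,0),(14,
  0),(15,0)]⟩⟩ ⟨false,1,⟨0,[(2,0),(3,0)]⟩,⟨1,[(9,0),(14,0),(0,1),(5,1),(8,0)]⟩⟩,.o ⟨false,0,⟨0,[(31,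
  0)]⟩,⟨4,[(10,2),(1,0),(23,1)]⟩⟩,.o ⟨false,0,⟨1,[(31,2),(0,0)]⟩,⟨0,[(6,0)]⟩⟩]⟩))))) (.Q [0,-1,0,2,
  0,0,-1,-1,0,0,1] (.p true [0,0,1] [] (⟨0,[(31,0)]⟩,⟨0,[(30,0)]⟩) .k 0 (⟨0,[]⟩,⟨0,[]⟩) .k .k) (.R
  ⟨1,true,false,false,[0,0,1],[0,1],[1,0,0,-1,0,0,0,1],(⟨0,[(32,0)]⟩,⟨0,[(31,0)]⟩),(⟨0,[(35,0)]⟩,⟨0,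
  [(34,0)]⟩),⟨0,[(16,0)]⟩,.k,.k,.k,.k,(.r (-2) ⟨0,[(7,0),(4,0),(24,0),(2,0)]⟩ ⟨0,[(6,0),(4,0),(26,
  1)]⟩),.k,⟨true,1,⟨9,[(7,4),(3,6),(0,8),(0,3),(4,3),(21,0)]⟩,⟨0,[(6,0),(4,0),(26,1)]⟩⟩,⟨false,1,⟨0,
  [(7,0)]⟩,⟨0,[(28,0)]⟩⟩,⟨false,1,⟨0,[(37,0),(2,0)]⟩,⟨0,[(38,0)]⟩⟩,⟨true,0,⟨1,[(0,0),(26,0)]⟩,⟨0,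
  [(12,0)]⟩⟩,⟨true,0,⟨0,[]⟩,⟨0,[(42,0)]⟩⟩,⟨false,0,⟨0,[(0,0)]⟩,⟨0,[(12,0),(24,0),(2,0)]⟩⟩,[]⟩) (.Q
  [0,0,0,0,0,-1,0,0,0,1,0,-1] (.p false [0,0,0,1] [1] (⟨0,[(23,0)]⟩,⟨0,[(22,0)]⟩) .k 1 (⟨0,[]⟩,⟨0,
  []⟩) .k .k) (.R ⟨1,false,false,false,[1,0,0,-1],[0,1],[0,0,0,0,0,0,0,0,-1],(⟨0,[(23,0)]⟩,⟨0,[(24,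
  0)]⟩),(⟨0,[(36,0)]⟩,⟨0,[(35,0)]⟩),⟨0,[(0,0)]⟩,.k,.k,(.x (-1) ⟨7,[(15,3),(1,3),(3,2),(0,2),(11,
  1)]⟩ ⟨0,[(36,0)]⟩),(.x (-1) ⟨7,[(15,3),(1,3),(3,2),(0,2),(11,1)]⟩ ⟨0,[(36,0)]⟩),(.r (-1) ⟨1,[(1,
  0),(4,1),(1,1),(2,0),(8,0)]⟩ ⟨11,[(7,3),(1,7),(4,3),(6,0),(0,6),(16,3)]⟩),.k,⟨false,1,⟨0,[(6,0),
  (31,0),(1,0)]⟩,⟨2,[(2,0),(4,0),(14,0),(1,0),(14,1)]⟩⟩,⟨true,0,⟨0,[(23,0)]⟩,⟨0,[(18,0),(5,0),(1,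
  0)]⟩⟩,⟨false,1,⟨3,[(21,0),(0,0),(18,1)]⟩,⟨0,[]⟩⟩,⟨false,0,⟨0,[(2,0),(20,0),(0,0),(14,0)]⟩,⟨17,[(1,
  4),(2,8),(1,5),(4,2),(0,1),(5,6),(2,5),(2,17),(9,2)]⟩⟩,⟨true,0,⟨0,[(39,0)]⟩,⟨0,[(38,0)]⟩⟩,⟨false,
  0,⟨0,[(2,0),(20,0),(0,0),(14,1)]⟩,⟨17,[(1,10),(2,8),(1,5),(4,2),(0,7),(5,0),(2,5),(2,17),(9,2)]⟩⟩,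
  [.o ⟨false,0,⟨0,[(39,0)]⟩,⟨15,[(1,3),(9,3),(9,2),(0,2),(11,5),(6,3)]⟩⟩,.o ⟨false,1,⟨3,[(21,0),(0,
  0),(16,3),(1,1)]⟩,⟨0,[(5,0),(7,1)]⟩⟩,.o ⟨false,1,⟨1,[(24,1),(9,0),(5,0)]⟩,⟨22,[(1,1),(0,6),(3,4),
  (0,7),(3,1),(9,0),(1,15),(10,6)]⟩⟩,.a ⟨true,0,⟨0,[(24,0)]⟩,⟨0,[(23,0)]⟩⟩ ⟨false,1,⟨3,[(6,1),(14,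
  0),(18,1),(0,0)]⟩,⟨12,[(1,0),(0,4),(4,3),(4,0),(6,0),(2,3),(1,4)]⟩⟩ ⟨true,0,⟨0,[(23,0),(15,0)]⟩,
  ⟨0,[(5,0),(7,1),(10,0)]⟩⟩]⟩) (.R ⟨0,false,false,false,[1,0,0,-1],[0,1],[1,0,0,0,0,0,0,0,-1],(⟨0,
  [(23,0)]⟩,⟨0,[(24,0)]⟩),(⟨0,[(36,0)]⟩,⟨0,[(35,0)]⟩),⟨0,[(0,0)]⟩,.k,.k,(.x (-1) ⟨7,[(15,3),(1,3),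
  (3,2),(0,2),(11,1)]⟩ ⟨0,[(36,0)]⟩),(.x (-1) ⟨7,[(15,3),(1,3),(3,2),(0,2),(11,1)]⟩ ⟨0,[(36,0)]⟩),
  .k,.k,⟨false,1,⟨0,[(6,0),(31,0),(1,0)]⟩,⟨2,[(2,0),(4,0),(14,0),(1,0),(14,1)]⟩⟩,⟨true,0,⟨0,[(23,
  0)]⟩,⟨6,[(0,1),(0,1),(7,1),(5,0),(1,0),(6,4),(1,1),(7,1),(2,0)]⟩⟩,⟨true,0,⟨0,[]⟩,⟨0,[(43,0)]⟩⟩,
  ⟨false,0,⟨0,[(2,0),(20,0),(0,0),(14,0)]⟩,⟨17,[(1,4),(2,8),(1,5),(4,2),(0,1),(5,6),(2,5),(2,17),(9,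
  2)]⟩⟩,⟨false,0,⟨0,[]⟩,⟨0,[]⟩⟩,⟨false,0,⟨0,[]⟩,⟨0,[]⟩⟩,[.o ⟨false,0,⟨0,[(39,0)]⟩,⟨15,[(1,3),(9,3),
  (9,2),(0,2),(11,5),(6,3)]⟩⟩,.o ⟨false,1,⟨3,[(21,0),(0,0),(16,3),(1,1)]⟩,⟨0,[(5,0),(7,1)]⟩⟩,.o
  ⟨false,1,⟨1,[(24,1),(9,0),(5,0)]⟩,⟨22,[(1,1),(0,6),(3,4),(0,7),(3,1),(9,0),(1,15),(10,6)]⟩⟩,.a
  ⟨true,0,⟨0,[(24,0)]⟩,⟨0,[(23,0)]⟩⟩ ⟨false,1,⟨3,[(6,1),(14,0),(18,1),(0,0)]⟩,⟨12,[(1,0),(0,4),(4,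
  3),(4,0),(6,0),(2,3),(1,4)]⟩⟩ ⟨true,0,⟨0,[(23,0),(15,0)]⟩,⟨1,[(0,1),(12,0),(1,0),(0,0),(0,
  0)]⟩⟩]⟩)))) (.Q [0,-1,0,2,0,0,-1,-1,0,0,1] (.p true [0,0,1] [] (⟨0,[(30,0)]⟩,⟨0,[(29,0)]⟩) .k 0
  (⟨0,[]⟩,⟨0,[]⟩) .k .k) (.R ⟨1,true,false,false,[0,0,1],[0,1],[1,0,0,-1,0,0,0,1],(⟨0,[(31,0)]⟩,⟨0,
  [(30,0)]⟩),(⟨0,[(34,0)]⟩,⟨0,[(33,0)]⟩),⟨0,[(15,0)]⟩,.k,.k,.k,.k,(.r (-2) ⟨0,[(6,0),(4,0),(24,0),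
  (2,0)]⟩ ⟨0,[(1,0),(3,0),(29,0),(1,1)]⟩),.k,⟨true,1,⟨9,[(6,4),(3,6),(0,8),(0,3),(4,3),(21,0)]⟩,⟨0,
  [(1,0),(3,0),(29,0),(1,1)]⟩⟩,⟨false,1,⟨0,[(6,0)]⟩,⟨0,[(27,0)]⟩⟩,⟨false,1,⟨0,[(36,0),(2,0)]⟩,⟨0,
  [(37,0)]⟩⟩,⟨true,0,⟨1,[(0,0),(25,0)]⟩,⟨0,[(11,0)]⟩⟩,⟨true,0,⟨0,[]⟩,⟨0,[(41,0)]⟩⟩,⟨false,0,⟨0,[(0,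
  0)]⟩,⟨0,[(11,0),(24,0),(2,0)]⟩⟩,[]⟩) (.Q [0,1,1,0,0,0,0,0,1,0,0,-1] (.p false [0,0,0,1] [] (⟨0,
  [(22,0)]⟩,⟨0,[(21,0)]⟩) .k 0 (⟨0,[]⟩,⟨0,[]⟩) .k .k) (.Q [0,1,-1,0,0,0,0,0,-1,0,0,1] (.p true [0,0,
  0,1] [] (⟨0,[(23,0)]⟩,⟨0,[(22,0)]⟩) .k 0 (⟨0,[]⟩,⟨0,[]⟩) .k .k) (.K ⟨0,[0,0,0,1],0,0,(⟨0,[(24,
  0)]⟩,⟨0,[(23,0)]⟩),.k,(.r (-1) ⟨5,[(2,1),(5,1),(3,1),(9,2),(17,0)]⟩ ⟨9,[(6,1),(0,2),(1,1),(4,0),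
  (6,3),(17,2)]⟩),(.x 0 ⟨0,[(36,0)]⟩ ⟨7,[(15,3),(1,3),(3,2),(0,2),(11,1)]⟩),.k,.k,[⟨0,[(24,0)]⟩,⟨0,
  [(23,0)]⟩,⟨0,[(0,0)]⟩,⟨0,[(1,0)]⟩]⟩) (.Q [0,0,0,0,0,-1,0,0,0,1,0,-1] (.p false [0,0,0,1] [1] (⟨0,
  [(24,0)]⟩,⟨0,[(23,0)]⟩) .k 1 (⟨0,[]⟩,⟨0,[]⟩) .k .k) (.R ⟨1,false,false,false,[1,0,0,-1],[0,1],[0,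
  0,0,0,0,0,0,0,-1],(⟨0,[(24,0)]⟩,⟨0,[(25,0)]⟩),(⟨0,[(37,0)]⟩,⟨0,[(36,0)]⟩),⟨0,[(0,0)]⟩,.k,.k,(.x
  (-1) ⟨7,[(16,3),(1,3),(3,2),(0,2),(11,1)]⟩ ⟨0,[(37,0)]⟩),(.x (-1) ⟨7,[(16,3),(1,3),(3,2),(0,2),
  (11,1)]⟩ ⟨0,[(37,0)]⟩),(.r (-1) ⟨5,[(3,3),(0,1),(2,3),(1,3),(3,1),(8,0),(18,0)]⟩ ⟨11,[(8,3),(1,7),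
  (4,3),(6,0),(0,6),(16,3)]⟩),.k,⟨false,1,⟨5,[(3,1),(0,1),(2,3),(1,1),(12,0),(18,2)]⟩,⟨2,[(1,0),(6,
  0),(14,0),(1,0),(14,1)]⟩⟩,⟨true,0,⟨0,[(24,0)]⟩,⟨0,[(19,0),(5,0),(1,0)]⟩⟩,⟨false,1,⟨3,[(22,0),(0,
  0),(18,1)]⟩,⟨0,[]⟩⟩,⟨false,0,⟨0,[(1,0),(22,0),(0,0),(14,0)]⟩,⟨17,[(3,5),(0,3),(0,5),(1,7),(5,1),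
  (8,4),(2,17),(9,5),(5,0)]⟩⟩,⟨true,0,⟨0,[(40,0)]⟩,⟨0,[(39,0)]⟩⟩,⟨false,0,⟨0,[(1,0),(22,0),(0,0),
  (14,1)]⟩,⟨57,[(3,35),(0,1),(0,27),(1,19),(4,7),(0,25),(8,18),(2,57),(9,10)]⟩⟩,[.o ⟨false,0,⟨0,
  [(40,0)]⟩,⟨15,[(3,3),(8,3),(9,2),(0,2),(11,5),(6,3)]⟩⟩,.o ⟨false,1,⟨3,[(22,0),(0,0),(16,3),(1,
  1)]⟩,⟨0,[(6,0),(7,1)]⟩⟩,.o ⟨false,1,⟨1,[(25,1),(9,0),(5,0)]⟩,⟨0,[(2,0),(4,0)]⟩⟩,.a ⟨true,0,⟨0,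
  [(25,0)]⟩,⟨0,[(24,0)]⟩⟩ ⟨false,1,⟨3,[(7,1),(14,0),(18,1),(0,0)]⟩,⟨12,[(1,4),(1,0),(4,3),(4,0),(6,
  0),(2,3),(1,4)]⟩⟩ ⟨true,0,⟨0,[(24,0),(15,0)]⟩,⟨0,[(6,0),(7,1),(10,0)]⟩⟩]⟩) (.R ⟨0,false,false,
  false,[1,0,0,-1],[0,1],[1,0,0,0,0,0,0,0,-1],(⟨0,[(24,0)]⟩,⟨0,[(25,0)]⟩),(⟨0,[(37,0)]⟩,⟨0,[(36,
  0)]⟩),⟨0,[(0,0)]⟩,.k,.k,(.x (-1) ⟨7,[(16,3),(1,3),(3,2),(0,2),(11,1)]⟩ ⟨0,[(37,0)]⟩),(.x (-1) ⟨7,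
  [(16,3),(1,3),(3,2),(0,2),(11,1)]⟩ ⟨0,[(37,0)]⟩),.k,.k,⟨false,1,⟨5,[(3,1),(0,1),(2,3),(1,1),(12,
  0),(18,2)]⟩,⟨2,[(1,0),(6,0),(14,0),(1,0),(14,1)]⟩⟩,⟨true,0,⟨0,[(24,0)]⟩,⟨6,[(0,1),(2,1),(6,1),(5,
  0),(1,0),(6,4),(1,1),(7,1),(2,0)]⟩⟩,⟨true,0,⟨0,[]⟩,⟨0,[(44,0)]⟩⟩,⟨false,0,⟨0,[(1,0),(22,0),(0,0),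
  (14,0)]⟩,⟨17,[(3,5),(0,3),(0,5),(1,7),(5,1),(8,4),(2,17),(9,5),(5,0)]⟩⟩,⟨false,0,⟨0,[]⟩,⟨0,[]⟩⟩,
  ⟨false,0,⟨0,[]⟩,⟨0,[]⟩⟩,[.o ⟨false,0,⟨0,[(40,0)]⟩,⟨15,[(3,3),(8,3),(9,2),(0,2),(11,5),(6,3)]⟩⟩,.o
  ⟨false,1,⟨3,[(22,0),(0,0),(16,3),(1,1)]⟩,⟨0,[(6,0),(7,1)]⟩⟩,.o ⟨false,1,⟨1,[(25,1),(9,0),(5,0)]⟩,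
  ⟨0,[(2,0),(4,0)]⟩⟩,.a ⟨true,0,⟨0,[(25,0)]⟩,⟨0,[(24,0)]⟩⟩ ⟨false,1,⟨3,[(7,1),(14,0),(18,1),(0,0)]⟩,
  ⟨12,[(1,4),(1,0),(4,3),(4,0),(6,0),(2,3),(1,4)]⟩⟩ ⟨true,0,⟨0,[(24,0),(15,0)]⟩,⟨1,[(0,1),(13,0),(1,
  0),(0,0),(0,0)]⟩⟩]⟩))) (.Q [0,0,0,0,0,-2,0,0,0,0,1] (.p true [0,0,1] [] (⟨0,[(32,0)]⟩,⟨0,[(31,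
  0)]⟩) .k 0 (⟨0,[]⟩,⟨0,[]⟩) .k .k) (.R ⟨1,false,false,false,[0,-1,1],[1,0,0,-1],[0,0,-1,-1,0,0,0,
  1],(⟨0,[(17,0)]⟩,⟨0,[(32,0),(3,0)]⟩),(⟨0,[(23,0)]⟩,⟨0,[(24,0)]⟩),⟨0,[(0,0)]⟩,.k,.k,(.r (-2) ⟨3,
  [(2,3),(5,3),(12,0),(0,0),(18,1)]⟩ ⟨0,[(3,0),(3,0),(29,0),(1,1)]⟩),(.r (-2) ⟨15,[(2,7),(5,7),(5,
  3),(6,4),(0,12),(18,1)]⟩ ⟨0,[(1,0),(3,0),(3,0),(3,1),(9,0)]⟩),(.r (-2) ⟨1,[(2,1),(5,1),(13,0),(18,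
  0)]⟩ ⟨24,[(1,2),(1,4),(0,2),(1,13),(0,8),(1,22),(11,3),(1,2),(3,2)]⟩),.k,⟨false,2,⟨15,[(2,7),(5,
  7),(5,3),(6,0),(0,8),(17,7),(0,1)]⟩,⟨0,[(1,0),(3,0),(3,0),(3,1),(9,0)]⟩⟩,⟨true,1,⟨0,[(4,0),(19,
  0)]⟩,⟨3,[(2,1),(4,2),(1,0),(2,0),(10,3),(5,1),(7,1)]⟩⟩,⟨false,1,⟨3,[(21,0),(0,0),(18,1)]⟩,⟨0,[]⟩⟩,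
  ⟨false,0,⟨1,[(1,1),(2,0),(0,0),(3,0),(3,0)]⟩,⟨15,[(2,7),(11,3),(6,0),(0,8),(0,15),(5,11),(0,3),
  (10,1)]⟩⟩,⟨true,0,⟨0,[(39,0)]⟩,⟨0,[(38,0)]⟩⟩,⟨false,0,⟨0,[(1,0),(2,0),(4,0)]⟩,⟨1,[(2,1),(19,0),(0,
  1),(5,0),(0,0),(10,0)]⟩⟩,[.o ⟨false,0,⟨1,[(1,1),(2,0),(0,0),(3,0),(3,2)]⟩,⟨7,[(21,0),(0,4),(0,7),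
  (2,3),(2,3),(4,1)]⟩⟩,.a ⟨true,0,⟨0,[(1,0)]⟩,⟨1,[(7,0),(14,0),(0,1),(14,0)]⟩⟩ ⟨true,1,⟨7,[(1,1),(0,
  3),(1,1),(3,1),(5,1),(7,0),(0,1),(13,3),(2,0)]⟩,⟨3,[(7,1),(1,1),(1,0),(8,0),(7,0)]⟩⟩ ⟨false,1,⟨0,
  [(1,0),(2,0)]⟩,⟨1,[(7,0),(14,0),(0,1),(5,1),(8,0)]⟩⟩,.o ⟨false,0,⟨0,[(29,0)]⟩,⟨4,[(8,2),(1,0),(23,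
  1)]⟩⟩,.o ⟨false,0,⟨1,[(29,2),(0,0)]⟩,⟨0,[(4,0)]⟩⟩]⟩) (.R ⟨0,false,false,false,[0,-1,1],[1,0,0,-1],
  [0,0,0,0,0,0,0,0,-1],(⟨0,[(17,0)]⟩,⟨0,[(32,0),(3,0)]⟩),(⟨0,[(23,0)]⟩,⟨0,[(24,0)]⟩),⟨0,[(0,0)]⟩,.k,
  .k,(.r (-2) ⟨3,[(2,3),(5,3),(12,0),(0,0),(18,1)]⟩ ⟨0,[(3,0),(3,0),(29,0),(1,1)]⟩),(.r (-2) ⟨15,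
  [(2,7),(5,7),(5,3),(6,4),(0,12),(18,1)]⟩ ⟨0,[(1,0),(3,0),(3,0),(3,1),(9,0)]⟩),.k,.k,⟨false,1,⟨3,
  [(21,0),(0,0),(17,1)]⟩,⟨0,[]⟩⟩,⟨true,1,⟨0,[(4,0),(19,0)]⟩,⟨3,[(2,1),(4,2),(1,0),(2,0),(10,3),(5,
  1),(7,1)]⟩⟩,⟨true,(-1),⟨0,[(1,0),(3,0),(3,0),(3,1),(9,0)]⟩,⟨0,[(1,0),(0,0),(1,0),(2,0),(14,0),(0,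
  0)]⟩⟩,⟨false,0,⟨1,[(1,1),(2,0),(0,0),(3,0),(3,0)]⟩,⟨15,[(2,7),(11,3),(6,0),(0,8),(0,15),(5,11),(0,
  3),(10,1)]⟩⟩,⟨false,0,⟨0,[]⟩,⟨0,[]⟩⟩,⟨false,0,⟨0,[]⟩,⟨0,[]⟩⟩,[.o ⟨false,0,⟨1,[(1,1),(2,0),(0,0),
  (3,0),(3,2)]⟩,⟨7,[(21,0),(0,4),(0,7),(2,3),(2,3),(4,1)]⟩⟩,.a ⟨true,0,⟨0,[(1,0)]⟩,⟨1,[(7,0),(14,0),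
  (0,1),(14,0)]⟩⟩ ⟨true,0,⟨0,[(6,0)]⟩,⟨1,[(7,0),(14,0),(15,0)]⟩⟩ ⟨false,1,⟨0,[(1,0),(2,0)]⟩,⟨1,[(7,
  0),(14,0),(0,1),(5,1),(8,0)]⟩⟩,.o ⟨false,0,⟨0,[(29,0)]⟩,⟨4,[(8,2),(1,0),(23,1)]⟩⟩,.o ⟨false,0,⟨1,
  [(29,2),(0,0)]⟩,⟨0,[(4,0)]⟩⟩]⟩))))))) (.Q [0,1,0,1,0,0,2,2,0,1,-2] (.p false [0,0,1] [1,0,-1] (⟨0,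
  [(27,0)]⟩,⟨0,[(26,0)]⟩) .k 2 (⟨0,[(26,0)]⟩,⟨0,[(27,0)]⟩) .k (.r (-1) ⟨0,[(8,0),(28,0)]⟩ ⟨0,[(25,
  1)]⟩)) (.Q [0,0,2,0,-1,0,1,0,0,1,-1] (.p false [0,0,1] [1] (⟨0,[(28,0)]⟩,⟨0,[(27,0)]⟩) .k 1 (⟨0,
  []⟩,⟨0,[]⟩) .k .k) (.K ⟨0,[1,1,-1],1,0,(⟨0,[(28,0),(3,0)]⟩,⟨0,[(13,0)]⟩),.k,.k,(.r 1 ⟨0,[(3,0),(4,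
  0),(26,1)]⟩ ⟨0,[(4,0),(4,0),(24,0),(2,0)]⟩),.k,.k,[⟨0,[(0,0)]⟩,⟨0,[(4,0)]⟩,⟨0,[(9,0),(9,0),(0,
  0)]⟩,⟨0,[(21,0),(13,0)]⟩]⟩) (.Q [0,-1,0,2,0,0,-1,-1,0,0,1] (.p true [0,0,1] [] (⟨0,[(29,0)]⟩,⟨0,
  [(28,0)]⟩) .k 0 (⟨0,[]⟩,⟨0,[]⟩) .k .k) (.R ⟨1,true,false,false,[0,0,1],[0,1],[1,0,0,-1,0,0,0,1],
  (⟨0,[(30,0)]⟩,⟨0,[(29,0)]⟩),(⟨0,[(33,0)]⟩,⟨0,[(32,0)]⟩),⟨0,[(14,0)]⟩,.k,.k,.k,.k,(.r (-2) ⟨0,[(5,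
  0),(4,0),(24,0),(2,0)]⟩ ⟨0,[(4,0),(4,0),(26,1)]⟩),.k,⟨true,1,⟨9,[(5,4),(3,6),(0,8),(0,3),(4,3),
  (21,0)]⟩,⟨0,[(4,0),(4,0),(26,1)]⟩⟩,⟨false,1,⟨0,[(5,0)]⟩,⟨0,[(26,0)]⟩⟩,⟨false,1,⟨0,[(35,0),(2,0)]⟩,
  ⟨0,[(36,0)]⟩⟩,⟨true,0,⟨1,[(0,0),(24,0)]⟩,⟨0,[(10,0)]⟩⟩,⟨true,0,⟨0,[]⟩,⟨0,[(40,0)]⟩⟩,⟨false,0,⟨0,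
  [(0,0)]⟩,⟨0,[(10,0),(24,0),(2,0)]⟩⟩,[]⟩) (.Q [0,1,1,0,-1,0,0,0,1,0,0,-1] (.p false [0,0,0,1] []
  (⟨0,[(21,0)]⟩,⟨0,[(20,0)]⟩) .k 0 (⟨0,[]⟩,⟨0,[]⟩) .k .k) (.K ⟨0,[0,0,0,1],0,(-1),(⟨0,[(22,0)]⟩,⟨0,
  [(21,0)]⟩),.k,(.x 0 ⟨0,[(24,0),(2,0),(5,0)]⟩ ⟨0,[(34,0),(3,0)]⟩),(.x 0 ⟨0,[(34,0)]⟩ ⟨7,[(13,3),(1,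
  3),(3,2),(0,2),(11,1)]⟩),.k,.k,[⟨0,[(22,0)]⟩,⟨0,[(21,0)]⟩,⟨1,[(19,0),(2,1),(15,0),(2,1)]⟩,⟨0,[(0,
  0)]⟩]⟩) (.Q [0,0,0,0,0,-1,0,0,0,1,0,-1] (.p false [0,0,0,1] [1] (⟨0,[(22,0)]⟩,⟨0,[(21,0)]⟩) .k 1
  (⟨0,[]⟩,⟨0,[]⟩) .k .k) (.I [1,1,-2,-2,1,0,0,0,-1] (.I [1,0,0,-1,0,0,0,0,1] (.R ⟨1,false,false,
  true,[1,0,0,-1],[1,-1],[0,1,0,0,0,0,0,0,-1],(⟨0,[(24,0)]⟩,⟨0,[(25,0)]⟩),(⟨0,[(36,0)]⟩,⟨0,[(37,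
  0)]⟩),⟨0,[(2,0)]⟩,.k,.k,(.x (-1) ⟨7,[(16,3),(1,3),(3,2),(0,2),(11,1)]⟩ ⟨0,[(37,0)]⟩),(.r 0 ⟨0,[(1,
  0),(6,0),(29,0),(1,1)]⟩ ⟨7,[(0,3),(0,1),(21,2),(17,1),(0,0)]⟩),.k,.k,⟨true,0,⟨0,[(1,0),(6,0),(29,
  0),(1,1)]⟩,⟨0,[(0,0)]⟩⟩,⟨false,0,⟨0,[(19,0),(4,0),(2,0)]⟩,⟨0,[(25,0),(15,0)]⟩⟩,⟨true,0,⟨0,[(44,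
  0)]⟩,⟨0,[]⟩⟩,⟨false,0,⟨0,[(0,0),(18,0),(4,0),(2,0)]⟩,⟨0,[(3,0),(36,0)]⟩⟩,⟨false,0,⟨0,[(40,0)]⟩,
  ⟨15,[(4,3),(8,3),(6,3),(1,2),(0,2),(18,9)]⟩⟩,⟨false,0,⟨3,[(0,3),(4,0),(4,1),(13,3),(2,0),(0,1),(6,
  0),(2,0)]⟩,⟨0,[(3,0)]⟩⟩,[.o ⟨false,0,⟨1,[(4,1),(0,1),(2,0),(1,0),(2,0)]⟩,⟨19,[(6,3),(2,7),(0,7),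
  (11,2),(0,2),(11,1),(6,11)]⟩⟩,.o ⟨false,1,⟨15,[(4,3),(7,3),(9,2),(0,2),(11,5),(6,3)]⟩,⟨0,[(40,
  0)]⟩⟩,.o ⟨false,1,⟨1,[(25,1),(9,0),(5,0)]⟩,⟨0,[(19,0),(4,0),(2,0)]⟩⟩,.a ⟨true,0,⟨0,[(25,0)]⟩,⟨0,
  [(24,0)]⟩⟩ ⟨false,1,⟨1,[(22,0),(18,0)]⟩,⟨6,[(0,4),(9,1),(4,0),(7,0),(14,2),(1,0)]⟩⟩ ⟨true,0,⟨1,
  [(4,1),(0,1),(2,0),(1,0),(2,0),(10,1)]⟩,⟨0,[(25,0),(14,0)]⟩⟩]⟩) (.R ⟨1,false,false,false,[1,0,0,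
  -1],[0,1],[1,1,0,-1,0,0,0,0,-1],(⟨0,[(24,0)]⟩,⟨0,[(25,0)]⟩),(⟨0,[(37,0)]⟩,⟨0,[(36,0)]⟩),⟨0,[(2,
  0)]⟩,.k,.k,(.x (-1) ⟨7,[(16,3),(1,3),(3,2),(0,2),(11,1)]⟩ ⟨0,[(37,0)]⟩),(.x (-1) ⟨7,[(16,3),(1,3),
  (3,2),(0,2),(11,1)]⟩ ⟨0,[(37,0)]⟩),(.r (-1) ⟨0,[(0,0),(3,0),(4,0),(3,0)]⟩ ⟨35,[(6,7),(3,31),(0,7),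
  (3,7),(6,2),(0,20)]⟩),.k,⟨false,1,⟨0,[(1,0)]⟩,⟨0,[(7,0),(30,0),(1,1)]⟩⟩,⟨true,0,⟨0,[(24,0)]⟩,⟨0,
  [(19,0),(5,0),(1,0)]⟩⟩,⟨true,0,⟨1,[(4,0),(24,0)]⟩,⟨0,[(40,0)]⟩⟩,⟨false,0,⟨0,[(7,0),(16,0),(13,0),
  (1,0)]⟩,⟨11,[(0,5),(2,5),(0,4),(0,2),(6,2),(0,1),(5,0),(5,5),(9,2)]⟩⟩,⟨false,0,⟨0,[]⟩,⟨3,[(22,0),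
  (0,0),(18,1)]⟩⟩,⟨false,0,⟨0,[(7,0),(16,0),(13,0),(1,1)]⟩,⟨24,[(0,10),(2,13),(0,16),(0,6),(6,9),(0,
  6),(11,10),(9,3),(2,2)]⟩⟩,[.o ⟨false,0,⟨0,[(40,0)]⟩,⟨15,[(4,3),(7,3),(9,2),(0,2),(11,5),(6,3)]⟩⟩,
  .o ⟨false,1,⟨19,[(6,3),(2,7),(0,7),(11,2),(0,2),(11,1),(6,11)]⟩,⟨1,[(4,1),(0,1),(2,0),(1,0),(2,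
  0)]⟩⟩,.o ⟨false,1,⟨1,[(25,1),(9,0),(5,0)]⟩,⟨0,[(19,0),(4,0),(2,0)]⟩⟩,.a ⟨true,0,⟨0,[(25,0)]⟩,⟨0,
  [(24,0)]⟩⟩ ⟨false,1,⟨3,[(1,1),(20,0),(19,0)]⟩,⟨0,[(7,0),(30,0),(1,0)]⟩⟩ ⟨true,0,⟨0,[(24,0),(15,
  0)]⟩,⟨1,[(4,1),(0,1),(2,0),(1,0),(2,0),(11,1)]⟩⟩]⟩)) (.R ⟨1,false,false,true,[1,0,0,-1],[0,-1,1],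
  [1,1,0,-1,0,0,0,0,-1],(⟨0,[(23,0)]⟩,⟨0,[(24,0)]⟩),(⟨0,[(17,0)]⟩,⟨0,[(32,0),(3,0)]⟩),⟨0,[(1,0)]⟩,
  .k,.k,(.x (-1) ⟨7,[(15,3),(1,3),(3,2),(0,2),(11,1)]⟩ ⟨0,[(36,0)]⟩),(.r 0 ⟨1,[(9,0),(11,0),(9,0)]⟩
  ⟨27,[(0,9),(2,23),(4,23),(5,1),(7,8),(14,5),(2,2)]⟩),.k,.k,⟨true,0,⟨7,[(7,1),(1,1),(1,0),(0,3),(7,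
  0),(0,3),(6,0)]⟩,⟨0,[(0,0),(2,0),(4,0)]⟩⟩,⟨false,0,⟨0,[(23,0),(5,0)]⟩,⟨0,[(4,0),(19,0)]⟩⟩,⟨true,0,
  ⟨1,[(3,0),(24,0)]⟩,⟨0,[(39,0)]⟩⟩,⟨false,0,⟨33,[(0,11),(2,29),(1,1),(16,10),(0,33),(10,0),(2,9)]⟩,
  ⟨1,[(2,1),(1,1),(2,0),(1,0),(2,0)]⟩⟩,⟨false,0,⟨0,[]⟩,⟨3,[(21,0),(0,0),(18,1)]⟩⟩,⟨false,0,⟨16,[(0,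
  6),(2,8),(1,3),(16,4),(0,16),(10,1),(2,2)]⟩,⟨0,[(2,0),(1,0),(2,0),(4,0)]⟩⟩,[.o ⟨false,0,⟨0,[(13,
  0)]⟩,⟨3,[(4,1),(4,1),(18,1),(5,0),(6,2)]⟩⟩,.o ⟨false,1,⟨7,[(3,3),(10,1),(5,1),(0,1),(0,1),(11,0),
  (6,0)]⟩,⟨1,[(4,1),(2,0),(1,0),(2,0)]⟩⟩,.o ⟨false,1,⟨1,[(24,1),(9,0),(5,0)]⟩,⟨0,[(18,0),(4,0),(2,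
  0)]⟩⟩,.a ⟨true,0,⟨0,[(24,0)]⟩,⟨0,[(23,0)]⟩⟩ ⟨false,1,⟨5,[(3,1),(4,1),(3,1),(8,2),(18,0)]⟩,⟨3,[(0,
  1),(21,0),(18,0)]⟩⟩ ⟨true,0,⟨0,[(13,0),(9,0)]⟩,⟨1,[(4,1),(2,0),(1,0),(2,0),(11,1)]⟩⟩]⟩)) (.I [0,0,
  0,0,0,0,0,0,1] (.R ⟨0,false,false,false,[1,0,0,-1],[1,0,-1],[0,1,0,0,0,0,0,0,-1],(⟨0,[(23,0)]⟩,⟨0,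
  [(24,0)]⟩),(⟨0,[(32,0)]⟩,⟨0,[(33,0)]⟩),⟨0,[(1,0)]⟩,.k,.k,(.x (-1) ⟨7,[(15,3),(1,3),(3,2),(0,2),
  (11,1)]⟩ ⟨0,[(36,0)]⟩),.k,.k,.k,⟨false,1,⟨1,[(4,0),(0,0),(13,0),(1,0)]⟩,⟨0,[(0,0),(11,0),(26,
  0)]⟩⟩,⟨true,0,⟨0,[(23,0),(2,0)]⟩,⟨0,[(18,0),(5,0)]⟩⟩,⟨true,0,⟨0,[(43,0)]⟩,⟨0,[]⟩⟩,⟨false,0,⟨5,[(0,
  5),(3,0),(4,1),(0,1),(1,3),(10,5),(2,0),(7,0),(2,0)]⟩,⟨0,[(2,0),(24,0)]⟩⟩,⟨false,0,⟨0,[]⟩,⟨0,[]⟩⟩,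
  ⟨false,0,⟨0,[]⟩,⟨0,[]⟩⟩,[.o ⟨false,0,⟨0,[(4,0),(2,0),(4,0)]⟩,⟨43,[(3,3),(1,7),(8,11),(5,11),(0,
  10),(0,10),(11,9)]⟩⟩,.o ⟨false,1,⟨0,[(25,0),(15,0)]⟩,⟨0,[(27,0)]⟩⟩,.o ⟨false,1,⟨1,[(24,1),(9,0),
  (5,0)]⟩,⟨0,[(18,0),(4,0),(2,0)]⟩⟩,.a ⟨true,0,⟨0,[(24,0)]⟩,⟨0,[(23,0)]⟩⟩ ⟨false,1,⟨1,[(21,0),(18,
  0)]⟩,⟨20,[(0,12),(2,0),(3,3),(4,0),(6,0),(2,3),(14,12)]⟩⟩ ⟨true,0,⟨0,[(4,0),(2,0),(4,0),(10,0)]⟩,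
  ⟨0,[(24,0),(2,0)]⟩⟩]⟩) (.R ⟨0,false,false,false,[1,0,0,-1],[0,1],[1,0,0,0,0,0,0,0,-1],(⟨0,[(23,
  0)]⟩,⟨0,[(24,0)]⟩),(⟨0,[(36,0)]⟩,⟨0,[(35,0)]⟩),⟨0,[(1,0)]⟩,.k,.k,(.x (-1) ⟨7,[(15,3),(1,3),(3,2),
  (0,2),(11,1)]⟩ ⟨0,[(36,0)]⟩),(.x (-1) ⟨7,[(15,3),(1,3),(3,2),(0,2),(11,1)]⟩ ⟨0,[(36,0)]⟩),.k,.k,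
  ⟨false,1,⟨2,[(0,2),(2,0),(4,0),(3,0),(27,1)]⟩,⟨4,[(6,2),(2,1),(4,0),(7,0),(14,0),(1,0)]⟩⟩,⟨true,0,
  ⟨0,[(23,0)]⟩,⟨6,[(1,1),(1,1),(5,1),(5,0),(1,0),(6,4),(1,1),(7,1),(2,0)]⟩⟩,⟨true,0,⟨0,[]⟩,⟨0,[(43,
  0)]⟩⟩,⟨false,0,⟨0,[(6,0),(16,0),(13,0),(1,0)]⟩,⟨3,[(0,1),(1,1),(0,0),(0,0),(6,0),(6,0),(5,1),(9,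
  0)]⟩⟩,⟨false,0,⟨0,[]⟩,⟨0,[]⟩⟩,⟨false,0,⟨0,[]⟩,⟨0,[]⟩⟩,[.o ⟨false,0,⟨0,[(39,0)]⟩,⟨15,[(3,3),(7,3),
  (9,2),(0,2),(11,5),(6,3)]⟩⟩,.o ⟨false,1,⟨19,[(5,3),(2,7),(0,7),(11,2),(0,2),(11,1),(6,11)]⟩,⟨1,
  [(3,1),(0,1),(2,0),(1,0),(2,0)]⟩⟩,.o ⟨false,1,⟨1,[(24,1),(9,0),(5,0)]⟩,⟨0,[(18,0),(4,0),(2,0)]⟩⟩,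
  .a ⟨true,0,⟨0,[(24,0)]⟩,⟨0,[(23,0)]⟩⟩ ⟨false,1,⟨1,[(0,1),(39,0),(0,0)]⟩,⟨12,[(3,0),(2,4),(0,3),(4,
  0),(6,0),(2,3),(14,4)]⟩⟩ ⟨true,0,⟨0,[(23,0),(15,0)]⟩,⟨1,[(1,1),(11,0),(1,0),(0,0),(0,
  0)]⟩⟩]⟩)))))) (.Q [0,-1,0,2,0,0,-1,-1,0,0,1] (.p true [0,0,1] [] (⟨0,[(28,0)]⟩,⟨0,[(27,0)]⟩) .k 0
  (⟨0,[]⟩,⟨0,[]⟩) .k .k) (.R ⟨1,true,false,false,[0,0,1],[0,1],[1,0,0,-1,0,0,0,1],(⟨0,[(29,0)]⟩,⟨0,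
  [(28,0)]⟩),(⟨0,[(32,0)]⟩,⟨0,[(31,0)]⟩),⟨0,[(13,0)]⟩,.k,.k,.k,.k,(.r (-2) ⟨0,[(4,0),(4,0),(24,0),
  (2,0)]⟩ ⟨0,[(3,0),(4,0),(26,1)]⟩),.k,⟨true,1,⟨9,[(4,4),(3,6),(0,8),(0,3),(4,3),(21,0)]⟩,⟨0,[(3,0),
  (4,0),(26,1)]⟩⟩,⟨false,1,⟨0,[(4,0)]⟩,⟨0,[(25,0)]⟩⟩,⟨false,1,⟨0,[(34,0),(2,0)]⟩,⟨0,[(35,0)]⟩⟩,
  ⟨true,0,⟨1,[(0,0),(23,0)]⟩,⟨0,[(9,0)]⟩⟩,⟨true,0,⟨0,[]⟩,⟨0,[(39,0)]⟩⟩,⟨false,0,⟨0,[(0,0)]⟩,⟨0,[(9,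
  0),(24,0),(2,0)]⟩⟩,[]⟩) (.Q [0,0,2,0,-1,0,1,0,0,1,-1] (.p false [0,0,1] [1] (⟨0,[(29,0)]⟩,⟨0,[(28,
  0)]⟩) .k 1 (⟨0,[]⟩,⟨0,[]⟩) .k .k) (.K ⟨0,[1,1,-1],1,0,(⟨0,[(29,0),(3,0)]⟩,⟨0,[(14,0)]⟩),.k,.k,(.r
  1 ⟨0,[(0,0),(0,0),(0,0),(33,4)]⟩ ⟨3,[(1,3),(3,3),(12,0),(0,0),(18,1)]⟩),.k,.k,[⟨0,[(0,0)]⟩,⟨0,[(5,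
  0)]⟩,⟨0,[(0,0),(4,0),(4,0)]⟩,⟨0,[(22,0),(13,0)]⟩]⟩) (.I [0,-1,-1,0,1,0,0,0,-1] (.Q [0,0,0,0,0,-1,
  0,0,0,1,0,-1] (.p false [0,0,0,1] [1] (⟨0,[(22,0)]⟩,⟨0,[(21,0)]⟩) .k 1 (⟨0,[]⟩,⟨0,[]⟩) .k .k) (.I
  [1,-1,1,0,0,0,0,0,-1] (.R ⟨1,false,false,false,[1,0,0,-1],[1,0,-1],[0,0,0,0,0,0,0,0,-1],(⟨0,[(23,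
  0)]⟩,⟨0,[(24,0)]⟩),(⟨0,[(32,0)]⟩,⟨0,[(33,0)]⟩),⟨0,[(1,0)]⟩,.k,.k,(.x (-1) ⟨7,[(15,3),(1,3),(3,2),
  (0,2),(11,1)]⟩ ⟨0,[(36,0)]⟩),.k,(.r (-1) ⟨0,[(0,0),(7,0),(4,0)]⟩ ⟨1,[(9,0),(12,0),(8,0)]⟩),.k,
  ⟨false,1,⟨0,[(0,0),(7,0),(18,0)]⟩,⟨0,[(6,0),(5,0),(26,0)]⟩⟩,⟨true,0,⟨0,[(23,0),(2,0)]⟩,⟨0,[(18,0),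
  (5,0)]⟩⟩,⟨false,1,⟨3,[(21,0),(0,0),(18,1)]⟩,⟨0,[]⟩⟩,⟨false,0,⟨1,[(3,0),(1,0),(0,1),(2,0),(3,0),(9,
  1),(13,1)]⟩,⟨0,[(2,0),(21,0),(2,0)]⟩⟩,⟨true,0,⟨0,[(39,0)]⟩,⟨0,[(38,0)]⟩⟩,⟨false,0,⟨3,[(3,2),(1,0),
  (0,3),(2,2),(3,0),(9,3),(13,3)]⟩,⟨0,[(2,0),(10,0),(10,0)]⟩⟩,[.o ⟨false,0,⟨1,[(3,0),(1,0),(3,0),(3,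
  0)]⟩,⟨11,[(14,3),(5,3),(0,2),(0,2),(4,3),(6,1)]⟩⟩,.o ⟨false,1,⟨9,[(5,3),(2,1),(0,1),(11,1),(0,1),
  (11,2),(6,2)]⟩,⟨0,[(27,0)]⟩⟩,.o ⟨false,1,⟨1,[(24,1),(9,0),(5,0)]⟩,⟨0,[(18,0),(4,0),(2,0)]⟩⟩,.a
  ⟨true,0,⟨0,[(24,0)]⟩,⟨0,[(23,0)]⟩⟩ ⟨false,1,⟨0,[(2,0)]⟩,⟨12,[(4,0),(1,4),(0,3),(4,0),(6,0),(2,3),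
  (14,4)]⟩⟩ ⟨true,0,⟨1,[(3,0),(1,0),(3,0),(3,0),(9,1)]⟩,⟨0,[(24,0),(2,0)]⟩⟩]⟩) (.R ⟨1,false,false,
  true,[1,0,0,-1],[1,-1],[0,1,0,0,0,0,0,0,-1],(⟨0,[(23,0)]⟩,⟨0,[(24,0)]⟩),(⟨0,[(35,0)]⟩,⟨0,[(36,
  0)]⟩),⟨0,[(1,0)]⟩,.k,.k,(.x (-1) ⟨7,[(15,3),(1,3),(3,2),(0,2),(11,1)]⟩ ⟨0,[(36,0)]⟩),(.r 0 ⟨0,[(2,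
  0),(4,0)]⟩ ⟨5,[(4,1),(3,1),(3,1),(9,2),(17,0)]⟩),.k,.k,⟨true,0,⟨0,[(2,0),(4,0)]⟩,⟨7,[(0,4),(3,1),
  (1,2),(5,1),(6,1),(17,4)]⟩⟩,⟨false,0,⟨0,[(18,0),(4,0),(2,0)]⟩,⟨0,[(24,0),(15,0)]⟩⟩,⟨true,0,⟨0,
  [(43,0)]⟩,⟨0,[]⟩⟩,⟨false,0,⟨7,[(0,4),(3,3),(1,2),(2,1),(1,1),(11,7),(2,1),(7,1),(2,6)]⟩,⟨0,[(2,0),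
  (21,0),(14,0)]⟩⟩,⟨false,0,⟨0,[(39,0)]⟩,⟨15,[(4,3),(7,3),(6,3),(1,2),(0,2),(18,9)]⟩⟩,⟨false,0,⟨2,
  [(0,1),(3,0),(1,0),(2,0),(13,2),(2,0),(7,0),(2,1)]⟩,⟨0,[(2,0),(21,0)]⟩⟩,[.o ⟨false,0,⟨1,[(3,0),(1,
  0),(3,0),(3,2)]⟩,⟨3,[(21,0),(0,0),(16,3),(1,1)]⟩⟩,.o ⟨false,1,⟨15,[(4,3),(6,3),(9,2),(0,2),(11,5),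
  (6,3)]⟩,⟨0,[(39,0)]⟩⟩,.o ⟨false,1,⟨1,[(24,1),(9,0),(5,0)]⟩,⟨0,[(18,0),(4,0),(2,0)]⟩⟩,.a ⟨true,0,
  ⟨0,[(24,0)]⟩,⟨0,[(23,0)]⟩⟩ ⟨false,1,⟨1,[(21,0),(18,0)]⟩,⟨0,[(6,0),(30,0)]⟩⟩ ⟨true,0,⟨1,[(3,0),(1,
  0),(3,0),(3,2),(9,1)]⟩,⟨0,[(24,0),(14,0)]⟩⟩]⟩)) (.I [1,0,0,-1,0,0,0,0,1] (.R ⟨0,false,false,true,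
  [1,0,0,-1],[1,-1],[0,1,0,0,0,0,0,0,-1],(⟨0,[(23,0)]⟩,⟨0,[(24,0)]⟩),(⟨0,[(35,0)]⟩,⟨0,[(36,0)]⟩),⟨0,
  [(1,0)]⟩,.k,.k,(.x (-1) ⟨7,[(15,3),(1,3),(3,2),(0,2),(11,1)]⟩ ⟨0,[(36,0)]⟩),(.r 0 ⟨0,[(2,0),(4,
  0)]⟩ ⟨5,[(4,1),(3,1),(3,1),(9,2),(17,0)]⟩),.k,.k,⟨true,0,⟨0,[(2,0),(4,0)]⟩,⟨0,[(0,0)]⟩⟩,⟨false,0,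
  ⟨0,[(18,0),(4,0),(2,0)]⟩,⟨0,[(24,0),(15,0)]⟩⟩,⟨true,0,⟨0,[(43,0)]⟩,⟨0,[]⟩⟩,⟨false,0,⟨0,[(0,0),(17,
  0),(4,0),(2,0)]⟩,⟨0,[(2,0),(21,0),(14,0)]⟩⟩,⟨false,0,⟨0,[]⟩,⟨0,[]⟩⟩,⟨false,0,⟨0,[]⟩,⟨0,[]⟩⟩,[.o
  ⟨false,0,⟨1,[(3,0),(1,0),(3,0),(3,2)]⟩,⟨3,[(21,0),(0,0),(16,3),(1,1)]⟩⟩,.o ⟨false,1,⟨15,[(4,3),(6,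
  3),(9,2),(0,2),(11,5),(6,3)]⟩,⟨0,[(39,0)]⟩⟩,.o ⟨false,1,⟨1,[(24,1),(9,0),(5,0)]⟩,⟨0,[(18,0),(4,0),
  (2,0)]⟩⟩,.a ⟨true,0,⟨0,[(24,0)]⟩,⟨0,[(23,0)]⟩⟩ ⟨false,1,⟨1,[(21,0),(18,0)]⟩,⟨6,[(0,4),(8,1),(4,0),
  (7,0),(14,2),(1,0)]⟩⟩ ⟨true,0,⟨1,[(3,0),(1,0),(3,0),(3,2),(9,1)]⟩,⟨0,[(24,0),(14,0)]⟩⟩]⟩) (.R ⟨0,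
  false,false,false,[1,0,0,-1],[0,1],[1,0,0,0,0,0,0,0,-1],(⟨0,[(23,0)]⟩,⟨0,[(24,0)]⟩),(⟨0,[(36,0)]⟩,
  ⟨0,[(35,0)]⟩),⟨0,[(1,0)]⟩,.k,.k,(.x (-1) ⟨7,[(15,3),(1,3),(3,2),(0,2),(11,1)]⟩ ⟨0,[(36,0)]⟩),(.x
  (-1) ⟨7,[(15,3),(1,3),(3,2),(0,2),(11,1)]⟩ ⟨0,[(36,0)]⟩),.k,.k,⟨false,1,⟨2,[(0,2),(3,1),(3,1),(3,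
  1),(27,0)]⟩,⟨4,[(6,2),(2,1),(4,0),(7,0),(14,0),(1,0)]⟩⟩,⟨true,0,⟨0,[(23,0)]⟩,⟨6,[(1,1),(2,1),(4,
  1),(5,0),(1,0),(6,4),(1,1),(7,1),(2,0)]⟩⟩,⟨true,0,⟨0,[]⟩,⟨0,[(43,0)]⟩⟩,⟨false,0,⟨0,[(6,0),(16,0),
  (13,0),(1,0)]⟩,⟨11,[(0,5),(1,5),(0,2),(0,4),(6,2),(0,1),(5,0),(5,11),(9,2)]⟩⟩,⟨false,0,⟨0,[]⟩,⟨0,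
  []⟩⟩,⟨false,0,⟨0,[]⟩,⟨0,[]⟩⟩,[.o ⟨false,0,⟨0,[(39,0)]⟩,⟨15,[(4,3),(6,3),(9,2),(0,2),(11,5),(6,
  3)]⟩⟩,.o ⟨false,1,⟨3,[(21,0),(0,0),(16,3),(1,1)]⟩,⟨1,[(3,0),(1,0),(3,0),(3,2)]⟩⟩,.o ⟨false,1,⟨1,
  [(24,1),(9,0),(5,0)]⟩,⟨0,[(18,0),(4,0),(2,0)]⟩⟩,.a ⟨true,0,⟨0,[(24,0)]⟩,⟨0,[(23,0)]⟩⟩ ⟨false,1,⟨0,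
  [(2,0)]⟩,⟨12,[(4,0),(1,4),(0,3),(4,0),(6,0),(2,3),(14,4)]⟩⟩ ⟨true,0,⟨0,[(23,0),(15,0)]⟩,⟨1,[(1,1),
  (11,0),(1,0),(0,0),(0,0)]⟩⟩]⟩))) (.Q [0,0,0,0,0,1,0,0,0,-1,0,1] (.p true [0,0,0,1] [1] (⟨0,[(22,
  0)]⟩,⟨0,[(21,0)]⟩) .k 1 (⟨0,[]⟩,⟨0,[]⟩) .k .k) (.R ⟨0,false,false,true,[1,0,0,-1],[0,1],[1,0,1],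
  (⟨0,[(22,0)]⟩,⟨0,[(23,0)]⟩),(⟨0,[(35,0)]⟩,⟨0,[(34,0)]⟩),⟨0,[(0,0)]⟩,.k,.k,(.x (-1) ⟨7,[(14,3),(1,
  3),(3,2),(0,2),(11,1)]⟩ ⟨0,[(35,0)]⟩),(.x (-1) ⟨7,[(14,3),(1,3),(3,2),(0,2),(11,1)]⟩ ⟨0,[(35,
  0)]⟩),.k,.k,⟨false,1,⟨5,[(3,1),(3,1),(3,1),(27,0),(0,2)]⟩,⟨0,[(38,0),(3,0)]⟩⟩,⟨true,0,⟨0,[(22,
  0)]⟩,⟨6,[(0,1),(2,1),(4,1),(5,0),(1,0),(6,4),(1,1),(7,1),(2,0)]⟩⟩,⟨false,0,⟨2,[(1,0),(19,0),(14,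
  1)]⟩,⟨1,[(20,0),(18,0)]⟩⟩,⟨true,(-1),⟨0,[(1,0),(20,0),(15,0)]⟩,⟨5,[(0,5),(1,2),(0,1),(7,1),(2,2),
  (1,2),(0,0),(2,2)]⟩⟩,⟨false,0,⟨0,[]⟩,⟨0,[]⟩⟩,⟨false,0,⟨0,[]⟩,⟨0,[]⟩⟩,[.o ⟨false,0,⟨0,[(38,0),(3,
  0)]⟩,⟨4,[(3,1),(0,0),(28,1),(6,2)]⟩⟩,.o ⟨false,0,⟨0,[(38,0)]⟩,⟨15,[(3,3),(6,3),(9,2),(0,2),(11,5),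
  (6,3)]⟩⟩,.o ⟨false,1,⟨1,[(23,1),(9,0),(5,0)]⟩,⟨0,[(17,0),(4,0),(2,0)]⟩⟩,.a ⟨true,0,⟨0,[(23,0)]⟩,
  ⟨0,[(22,0)]⟩⟩ ⟨true,0,⟨0,[]⟩,⟨0,[(42,0)]⟩⟩ ⟨false,0,⟨0,[(22,0),(15,0)]⟩,⟨4,[(3,1),(0,0),(18,4),(9,
  1),(6,2)]⟩⟩]⟩) (.R ⟨1,false,false,false,[1,0,0,-1],[0,-1,1],[0,0,0,0,0,0,0,0,-1],(⟨0,[(22,0)]⟩,⟨0,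
  [(23,0)]⟩),(⟨0,[(16,0)]⟩,⟨0,[(31,0),(3,0)]⟩),⟨0,[(0,0)]⟩,.k,.k,(.x (-1) ⟨7,[(14,3),(1,3),(3,2),(0,
  2),(11,1)]⟩ ⟨0,[(35,0)]⟩),(.r 0 ⟨1,[(8,0),(11,0),(9,0)]⟩ ⟨23,[(1,9),(1,11),(3,11),(5,5),(7,6),(14,
  7),(2,8)]⟩),.k,.k,⟨true,0,⟨1,[(8,0),(11,0),(9,0)]⟩,⟨0,[(1,0),(5,0),(4,0),(23,0)]⟩⟩,⟨false,0,⟨0,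
  [(22,0),(5,0)]⟩,⟨0,[(2,0),(20,0)]⟩⟩,⟨false,1,⟨3,[(20,0),(0,0),(18,1)]⟩,⟨0,[]⟩⟩,⟨false,0,⟨7,[(1,5),
  (0,2),(0,3),(9,1),(3,0),(1,2),(1,0),(0,7),(13,7)]⟩,⟨1,[(2,1),(5,0),(11,0),(2,1),(6,0)]⟩⟩,⟨true,0,
  ⟨0,[(38,0)]⟩,⟨0,[(37,0)]⟩⟩,⟨false,0,⟨11,[(1,9),(0,2),(10,5),(3,8),(1,2),(1,0),(0,11),(13,7)]⟩,⟨9,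
  [(2,5),(1,1),(3,0),(8,1),(2,4),(2,9),(0,1),(5,2)]⟩⟩,[.o ⟨false,1,⟨7,[(3,3),(9,1),(5,1),(0,1),(0,
  1),(11,0),(6,0)]⟩,⟨3,[(2,2),(1,0),(3,2),(3,0)]⟩⟩,.o ⟨false,1,⟨7,[(3,3),(9,1),(5,1),(13,0),(6,4)]⟩,
  ⟨1,[(2,0),(5,0),(15,0),(17,0)]⟩⟩,.o ⟨false,1,⟨1,[(23,1),(9,0),(5,0)]⟩,⟨0,[(17,0),(4,0),(2,0)]⟩⟩,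
  .a ⟨true,0,⟨0,[(23,0)]⟩,⟨0,[(22,0)]⟩⟩ ⟨true,1,⟨1,[(20,0),(18,0)]⟩,⟨0,[(1,0)]⟩⟩ ⟨false,1,⟨7,[(3,3),
  (9,1),(5,1),(2,7),(10,0),(6,4)]⟩,⟨3,[(2,2),(1,0),(3,2),(3,0),(10,3)]⟩⟩]⟩)))))))

theorem ok76 : chk (cU (-1) true 10) t76 l45 = true := by decide +kernel

noncomputable def t96 : Tre :=
  (.Q [0,-1,0,1,0,0,-1,-1,0,0,1] (.p true [0,0,1] [] (⟨0,[(19,0)]⟩,⟨0,[(18,0)]⟩) .k 0 (⟨0,[]⟩,⟨0,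
  []⟩) .k .k) (.Q [0,1,0,-1,0,0,1,1,0,1,-1] (.p false [0,0,1] [1] (⟨0,[(20,0)]⟩,⟨0,[(19,0)]⟩) .k 1
  (⟨0,[]⟩,⟨0,[]⟩) .k .k) (.K ⟨1,[1,1,-1],1,0,(⟨0,[(20,0),(3,0)]⟩,⟨0,[(5,0)]⟩),.k,.k,(.r 1 ⟨0,[(2,0),
  (12,0),(2,0),(6,0),(1,1)]⟩ ⟨1,[(0,1),(6,1),(14,0),(2,1),(2,2)]⟩),.k,.k,[⟨0,[(0,0),(1,0),(4,0),(7,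
  0),(9,1),(1,1)]⟩,⟨3,[(9,0),(0,0),(3,3),(13,1)]⟩,⟨0,[(0,0)]⟩,⟨0,[(1,0)]⟩]⟩) (.Q [0,1,1,0,-1,0,0,0,
  1,0,0,-1] (.p false [0,0,0,1] [] (⟨0,[(12,0)]⟩,⟨0,[(11,0)]⟩) .k 0 (⟨0,[]⟩,⟨0,[]⟩) .k .k) (.I [0,0,
  1,1,0,0,0,0,-1] (.K ⟨0,[0,0,0,1],0,(-1),(⟨0,[(14,0)]⟩,⟨0,[(13,0)]⟩),.k,(.r (-1) ⟨2,[(1,0),(10,0),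
  (1,0),(12,1),(0,2),(1,2)]⟩ ⟨0,[(0,0)]⟩),(.x 0 ⟨0,[(26,0)]⟩ ⟨7,[(5,3),(1,3),(3,2),(0,2),(11,1)]⟩),
  .k,.k,[⟨0,[(14,0)]⟩,⟨0,[(13,0)]⟩,⟨1,[(11,0),(2,1),(15,0),(2,1)]⟩,⟨0,[(1,0)]⟩]⟩) (.K ⟨0,[0,0,0,1],
  0,(-1),(⟨0,[(14,0)]⟩,⟨0,[(13,0)]⟩),.k,(.x 0 ⟨0,[(16,0),(2,0),(5,0)]⟩ ⟨0,[(26,0),(3,0)]⟩),(.x 0 ⟨0,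
  [(26,0)]⟩ ⟨7,[(5,3),(1,3),(3,2),(0,2),(11,1)]⟩),.k,.k,[⟨0,[(14,0)]⟩,⟨0,[(13,0)]⟩,⟨1,[(11,0),(2,1),
  (15,0),(2,1)]⟩,⟨0,[(1,0)]⟩]⟩)) (.Q [0,1,0,2,0,0,2,2,0,1,-2] (.p false [0,0,1] [1,0,-1] (⟨0,[(22,
  0)]⟩,⟨0,[(21,0)]⟩) .k 2 (⟨0,[(21,0)]⟩,⟨0,[(22,0)]⟩) .k (.r (-1) ⟨0,[(8,1),(7,1),(9,1),(1,1),(0,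
  0)]⟩ ⟨0,[(20,1)]⟩)) (.R ⟨1,true,false,true,[1,0,-1],[0,1,1],[0,1,0,0,0,0,0,-1],(⟨0,[(22,0)]⟩,⟨0,
  [(23,0)]⟩),(⟨0,[(23,0),(2,0)]⟩,⟨0,[(5,0)]⟩),⟨0,[(5,0)]⟩,.k,.k,.k,(.r 0 ⟨0,[(4,0),(22,0),(0,0),(1,
  0)]⟩ ⟨0,[(0,0),(8,0),(6,0),(14,0)]⟩),(.r (-1) ⟨1,[(4,1),(22,1),(0,3),(1,2),(0,0)]⟩ ⟨4,[(0,5),(2,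
  1),(5,3),(6,5),(10,3)]⟩),.k,⟨true,0,⟨0,[(4,0),(22,0),(0,0),(1,0)]⟩,⟨0,[(0,0),(8,0),(6,0),(10,
  0)]⟩⟩,⟨false,1,⟨0,[(10,0),(19,0)]⟩,⟨2,[(0,0),(1,2),(6,4),(6,0),(0,0),(9,1)]⟩⟩,⟨true,0,⟨0,[(33,
  0)]⟩,⟨0,[]⟩⟩,⟨false,1,⟨0,[(0,0),(27,0),(2,0)]⟩,⟨0,[(2,0),(1,0),(4,1),(7,0),(9,1),(2,0)]⟩⟩,⟨false,
  0,⟨0,[(29,0)]⟩,⟨0,[(28,0),(2,0)]⟩⟩,⟨true,0,⟨0,[(0,0)]⟩,⟨1,[(2,0),(1,1),(1,0),(2,3),(7,1),(9,3),(2,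
  1)]⟩⟩,[]⟩) (.Q [0,-1,0,3,0,0,0,0,0,1] (.pp false [-1,1]) (.R ⟨1,true,false,false,[1,-1],[0,1],[0,
  0,-1,-1],(⟨0,[(26,0)]⟩,⟨0,[(27,0)]⟩),(⟨0,[(27,0)]⟩,⟨0,[(26,0)]⟩),⟨0,[(6,0),(1,0)]⟩,.k,.k,(.r (-2)
  ⟨0,[(29,1),(1,0),(0,0)]⟩ ⟨0,[(0,0),(2,0),(1,0),(4,1),(7,2),(9,1)]⟩),(.r (-2) ⟨0,[(29,1),(1,0),(0,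
  0)]⟩ ⟨0,[(0,0),(2,0),(1,0),(4,1),(7,2),(9,1)]⟩),(.r (-2) ⟨1,[(1,1),(8,1),(0,0),(2,0),(0,0),(2,3),
  (9,1),(2,3)]⟩ ⟨0,[(0,0),(4,0),(11,0),(0,1),(2,0),(6,0)]⟩),.k,⟨false,2,⟨0,[(28,0),(0,1),(1,1)]⟩,⟨0,
  [(0,0),(2,0),(1,0),(4,1),(7,2),(9,1)]⟩⟩,⟨true,1,⟨0,[(14,0),(0,0),(15,0)]⟩,⟨3,[(0,0),(4,3),(4,2),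
  (6,4),(0,7),(9,6)]⟩⟩,⟨false,1,⟨3,[(12,0),(0,0),(18,1)]⟩,⟨0,[]⟩⟩,⟨true,0,⟨4,[(0,3),(9,1),(0,0),(22,
  1)]⟩,⟨0,[(1,0),(16,1)]⟩⟩,⟨true,0,⟨0,[(30,0)]⟩,⟨0,[(29,0)]⟩⟩,⟨false,0,⟨0,[(0,0)]⟩,⟨0,[(1,0),(16,1),
  (10,0),(2,0)]⟩⟩,[]⟩) (.Q [0,1,-1,0,0,0,0,0,-1,0,0,1] (.p true [0,0,0,1] [] (⟨0,[(15,0)]⟩,⟨0,[(14,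
  0)]⟩) .k 0 (⟨0,[]⟩,⟨0,[]⟩) .k .k) (.K ⟨0,[0,0,0,1],0,0,(⟨0,[(16,0)]⟩,⟨0,[(15,0)]⟩),.k,(.x 0 ⟨0,
  [(18,0),(2,0),(5,0)]⟩ ⟨0,[(28,0),(3,0)]⟩),(.x 0 ⟨0,[(28,0)]⟩ ⟨7,[(7,3),(1,3),(3,2),(0,2),(11,
  1)]⟩),.k,.k,[⟨0,[(16,0)]⟩,⟨0,[(15,0)]⟩,⟨0,[(0,0)]⟩,⟨1,[(4,0),(1,0),(4,0),(2,0),(0,1),(2,0),(0,2),
  (9,0)]⟩]⟩) (.Q [0,0,0,0,0,1,0,0,0,-1,0,1] (.p true [0,0,0,1] [1] (⟨0,[(16,0)]⟩,⟨0,[(15,0)]⟩) .k 1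
  (⟨0,[]⟩,⟨0,[]⟩) .k .k) (.Q [0,1,-1,1,0,0,-1,-1,-1,-1,1,1] (.p true [0,0,1] [1,0,0,-1] (⟨0,[(26,
  0)]⟩,⟨0,[(25,0)]⟩) .k 2 (⟨0,[(16,0)]⟩,⟨0,[(17,0)]⟩) .k (.r (-1) ⟨0,[(1,0),(15,0),(2,0),(2,0),(9,
  0)]⟩ ⟨0,[(4,0),(0,0),(1,0),(4,0),(3,0),(3,1),(9,0)]⟩)) (.R ⟨0,false,false,false,[1,0,0,-1],[0,1],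
  [0,1,0,0,0,0,0,0,-1],(⟨0,[(17,0)]⟩,⟨0,[(18,0)]⟩),(⟨0,[(30,0)]⟩,⟨0,[(29,0)]⟩),⟨0,[(1,0)]⟩,.k,.k,
  (.x (-1) ⟨7,[(9,3),(1,3),(3,2),(0,2),(11,1)]⟩ ⟨0,[(30,0)]⟩),(.x (-1) ⟨7,[(9,3),(1,3),(3,2),(0,2),
  (11,1)]⟩ ⟨0,[(30,0)]⟩),.k,.k,⟨false,1,⟨1,[(0,0),(2,0),(1,0),(11,1),(3,0),(12,0)]⟩,⟨0,[(2,0),(15,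
  0),(14,0)]⟩⟩,⟨true,0,⟨0,[(17,0)]⟩,⟨0,[(12,0),(5,0),(1,0)]⟩⟩,⟨true,0,⟨0,[(37,0)]⟩,⟨0,[]⟩⟩,⟨false,0,
  ⟨0,[(2,0),(14,0),(0,0),(14,0)]⟩,⟨4,[(0,0),(2,1),(1,3),(15,0),(6,0)]⟩⟩,⟨false,0,⟨0,[]⟩,⟨0,[]⟩⟩,
  ⟨false,0,⟨0,[]⟩,⟨0,[]⟩⟩,[.o ⟨false,0,⟨0,[(33,0)]⟩,⟨11,[(3,3),(11,2),(0,2),(11,3),(6,1)]⟩⟩,.o
  ⟨false,1,⟨3,[(15,0),(0,0),(16,3),(1,1)]⟩,⟨6,[(3,2),(2,1),(12,1),(1,3)]⟩⟩,.o ⟨false,1,⟨1,[(18,1),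
  (9,0),(5,0)]⟩,⟨31,[(2,13),(0,0),(2,2),(1,6),(6,6),(1,17),(2,13),(0,16),(9,3)]⟩⟩,.a ⟨true,0,⟨0,
  [(18,0)]⟩,⟨0,[(17,0)]⟩⟩ ⟨false,1,⟨1,[(15,0),(18,0)]⟩,⟨0,[(2,0),(15,0)]⟩⟩ ⟨true,0,⟨0,[(17,0),(15,
  0)]⟩,⟨12,[(0,1),(2,5),(2,2),(1,0),(7,0),(1,10),(1,1),(0,6)]⟩⟩]⟩) (.R ⟨0,false,false,true,[1,0,0,
  -1],[0,0,1],[0,1,0,0,0,0,0,0,-1],(⟨0,[(17,0)]⟩,⟨0,[(18,0)]⟩),(⟨0,[(27,0)]⟩,⟨0,[(26,0)]⟩),⟨0,[(1,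
  0)]⟩,.k,.k,(.x (-1) ⟨7,[(9,3),(1,3),(3,2),(0,2),(11,1)]⟩ ⟨0,[(30,0)]⟩),.k,.k,.k,⟨true,0,⟨0,[(5,0),
  (0,0),(1,0),(4,0),(3,0),(3,1),(9,0)]⟩,⟨0,[(0,0),(5,0),(6,0),(4,0),(2,0),(11,0)]⟩⟩,⟨false,0,⟨0,
  [(12,0),(4,0)]⟩,⟨0,[(18,0),(1,0),(13,0)]⟩⟩,⟨true,0,⟨0,[(37,0)]⟩,⟨0,[]⟩⟩,⟨false,0,⟨0,[(0,0),(32,0),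
  (3,0)]⟩,⟨1,[(5,1),(0,0),(3,0)]⟩⟩,⟨false,0,⟨0,[]⟩,⟨0,[]⟩⟩,⟨false,0,⟨0,[]⟩,⟨0,[]⟩⟩,[.o ⟨false,0,⟨0,
  [(21,0)]⟩,⟨7,[(4,1),(2,3),(7,1),(0,1),(11,2),(6,0)]⟩⟩,.o ⟨false,1,⟨3,[(15,0),(0,0),(4,3),(13,1)]⟩,
  ⟨1,[(6,0),(3,0)]⟩⟩,.o ⟨false,1,⟨1,[(18,1),(9,0),(5,0)]⟩,⟨31,[(2,13),(0,0),(2,2),(1,6),(6,6),(1,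
  17),(2,13),(0,16),(9,3)]⟩⟩,.a ⟨true,0,⟨0,[(18,0)]⟩,⟨0,[(17,0)]⟩⟩ ⟨false,1,⟨1,[(15,0),(18,0)]⟩,⟨0,
  [(2,0),(15,0)]⟩⟩ ⟨true,0,⟨0,[(17,0),(3,0)]⟩,⟨1,[(6,0),(3,0),(7,1)]⟩⟩]⟩)) (.I [0,0,-1,-1,1,0,0,1,
  -1] (.R ⟨1,false,false,false,[1,0,0,-1],[1,0,-1],[0,0,0,0,0,0,0,0,-1],(⟨0,[(17,0)]⟩,⟨0,[(18,0)]⟩),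
  (⟨0,[(26,0)]⟩,⟨0,[(27,0)]⟩),⟨0,[(1,0)]⟩,.k,.k,(.x (-1) ⟨7,[(9,3),(1,3),(3,2),(0,2),(11,1)]⟩ ⟨0,
  [(30,0)]⟩),.k,(.r (-1) ⟨0,[(0,0)]⟩ ⟨9,[(2,1),(4,1),(0,3),(7,3),(1,1),(4,4),(0,2),(8,7)]⟩),.k,
  ⟨false,1,⟨0,[(0,0),(32,0)]⟩,⟨3,[(2,1),(5,1),(7,0),(1,1),(15,0)]⟩⟩,⟨true,0,⟨0,[(17,0),(2,0)]⟩,⟨0,
  [(12,0),(5,0)]⟩⟩,⟨false,1,⟨3,[(15,0),(0,0),(18,1)]⟩,⟨0,[]⟩⟩,⟨false,0,⟨12,[(2,10),(1,1),(2,3),(0,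
  0),(7,0),(0,1),(4,2),(1,1)]⟩,⟨0,[(5,0),(15,0)]⟩⟩,⟨true,0,⟨0,[(33,0)]⟩,⟨0,[(32,0)]⟩⟩,⟨false,0,⟨1,
  [(2,1),(4,0),(14,0),(10,0)]⟩,⟨0,[(0,0),(11,0),(5,0)]⟩⟩,[.o ⟨false,0,⟨1,[(6,0),(3,0)]⟩,⟨3,[(15,0),
  (0,0),(4,3),(13,1)]⟩⟩,.o ⟨false,1,⟨7,[(4,1),(2,3),(7,1),(0,1),(11,2),(6,0)]⟩,⟨0,[(21,0)]⟩⟩,.o
  ⟨false,1,⟨1,[(18,1),(9,0),(5,0)]⟩,⟨31,[(2,13),(0,0),(2,2),(1,6),(6,6),(1,17),(2,13),(0,16),(9,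
  3)]⟩⟩,.a ⟨true,0,⟨0,[(18,0)]⟩,⟨0,[(17,0)]⟩⟩ ⟨false,1,⟨2,[(0,1),(4,0),(0,1),(7,0),(2,0)]⟩,⟨4,[(2,
  2),(5,0),(7,0),(1,2),(2,1),(2,1)]⟩⟩ ⟨true,0,⟨1,[(6,0),(3,0),(6,1)]⟩,⟨0,[(18,0),(2,0)]⟩⟩]⟩) (.R ⟨1,
  false,false,true,[1,0,0,-1],[1,-1],[1,1,0,-1,0,0,0,0,-1],(⟨0,[(17,0)]⟩,⟨0,[(18,0)]⟩),(⟨0,[(29,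
  0)]⟩,⟨0,[(30,0)]⟩),⟨0,[(1,0)]⟩,.k,.k,(.x (-1) ⟨7,[(9,3),(1,3),(3,2),(0,2),(11,1)]⟩ ⟨0,[(30,0)]⟩),
  (.r 0 ⟨0,[(5,0),(0,0),(1,0),(4,1),(3,0),(3,2),(9,1),(1,1)]⟩ ⟨2,[(2,0),(0,0),(12,0),(0,0),(0,1),
  (15,1)]⟩),.k,.k,⟨true,0,⟨0,[(5,0),(0,0),(1,0),(4,1),(3,0),(3,2),(9,1),(1,0)]⟩,⟨0,[(0,0),(12,0),(7,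
  0),(9,0),(2,0)]⟩⟩,⟨false,0,⟨31,[(2,13),(0,0),(2,2),(1,6),(6,6),(1,17),(2,13),(0,16),(9,3)]⟩,⟨0,
  [(18,0),(15,0)]⟩⟩,⟨true,0,⟨0,[(32,0)]⟩,⟨0,[(33,0)]⟩⟩,⟨false,0,⟨0,[(2,0),(29,0)]⟩,⟨0,[(5,0),(27,
  0)]⟩⟩,⟨false,0,⟨0,[]⟩,⟨3,[(15,0),(0,0),(18,1)]⟩⟩,⟨false,0,⟨0,[(2,0),(34,0)]⟩,⟨0,[(5,0)]⟩⟩,[.o
  ⟨false,0,⟨6,[(3,2),(2,1),(12,1),(1,3)]⟩,⟨3,[(15,0),(0,0),(16,3),(1,1)]⟩⟩,.o ⟨false,1,⟨11,[(3,3),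
  (11,2),(0,2),(11,3),(6,1)]⟩,⟨0,[(33,0)]⟩⟩,.o ⟨false,1,⟨1,[(18,1),(9,0),(5,0)]⟩,⟨31,[(2,13),(0,0),
  (2,2),(1,6),(6,6),(1,17),(2,13),(0,16),(9,3)]⟩⟩,.a ⟨true,0,⟨0,[(18,0)]⟩,⟨0,[(17,0)]⟩⟩ ⟨false,1,⟨2,
  [(3,0),(1,0),(9,0),(1,0),(16,0)]⟩,⟨0,[(2,0),(15,0),(14,0)]⟩⟩ ⟨true,0,⟨6,[(3,2),(2,1),(10,6),(1,1),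
  (1,3)]⟩,⟨0,[(18,0),(14,0)]⟩⟩]⟩)))))))) (.Q [0,0,1,0,-1,0,2,0,0,1,-2] (.p false [0,0,1] [1,0,-1]
  (⟨0,[(20,0)]⟩,⟨0,[(19,0)]⟩) .k 2 (⟨0,[(19,0)]⟩,⟨0,[(20,0)]⟩) .k (.r (-1) ⟨0,[(6,1),(7,1),(9,1),(1,
  1),(0,0)]⟩ ⟨0,[(18,1)]⟩)) (.K ⟨2,[1,1,-1],1,0,(⟨0,[(20,0),(3,0)]⟩,⟨0,[(5,0)]⟩),.k,.k,(.r 1 ⟨7,[(0,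
  3),(1,3),(11,3),(2,0),(0,4),(6,1),(1,15)]⟩ ⟨0,[(1,0),(5,0),(20,0),(0,0)]⟩),(.r 1 ⟨3,[(2,3),(14,0),
  (0,0),(6,1),(1,3)]⟩ ⟨1,[(7,1),(7,3),(2,1),(6,1),(2,2),(0,0)]⟩),.k,[⟨0,[(0,0)]⟩,⟨3,[(9,0),(0,0),
  (17,1)]⟩,⟨0,[(0,0),(17,0)]⟩,⟨3,[(9,0),(0,0),(3,3),(13,1)]⟩,⟨0,[(1,0),(9,0),(0,0)]⟩,⟨0,[(13,0),(13,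
  0)]⟩]⟩) (.Q [0,0,-1,0,0,0,2,0,0,1,-2] (.p false [0,0,1] [1,0,-1] (⟨0,[(21,0)]⟩,⟨0,[(20,0)]⟩) .k 2
  (⟨0,[(20,0)]⟩,⟨0,[(21,0)]⟩) .k (.r (-1) ⟨0,[(0,0),(10,0),(0,0),(2,1),(9,0)]⟩ ⟨0,[(19,1)]⟩)) (.K
  ⟨2,[0,1,1],0,0,(⟨0,[(22,0),(2,0)]⟩,⟨0,[(4,0)]⟩),.k,.k,(.r 0 ⟨3,[(16,3),(1,0),(0,4),(6,1),(1,7)]⟩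
  ⟨0,[(0,0),(4,0),(2,0),(17,0),(2,0)]⟩),.k,(.r (-1) ⟨1,[(1,0),(10,0),(0,0),(2,3),(2,1),(6,0),(1,1),
  (1,0)]⟩ ⟨7,[(0,3),(2,5),(1,3),(2,3),(17,5),(2,4),(0,0)]⟩),[⟨1,[(18,0),(0,0)]⟩,⟨0,[(0,0)]⟩,⟨1,[(18,
  0),(0,2)]⟩,⟨0,[(7,0)]⟩,⟨2,[(3,0),(4,1),(8,0),(9,0),(2,0)]⟩,⟨0,[(16,0),(11,0)]⟩]⟩) (.Q [0,1,-1,0,0,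
  0,0,0,-1,0,0,1] (.p true [0,0,0,1] [] (⟨0,[(13,0)]⟩,⟨0,[(12,0)]⟩) .k 0 (⟨0,[]⟩,⟨0,[]⟩) .k .k) (.K
  ⟨0,[0,0,0,1],0,0,(⟨0,[(14,0)]⟩,⟨0,[(13,0)]⟩),.k,(.x 0 ⟨2,[(1,1),(3,0),(1,0),(11,3),(5,0)]⟩ ⟨0,
  [(26,0),(3,0)]⟩),(.x 0 ⟨0,[(26,0)]⟩ ⟨7,[(5,3),(1,3),(3,2),(0,2),(11,1)]⟩),.k,.k,[⟨0,[(14,0)]⟩,⟨0,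
  [(13,0)]⟩,⟨0,[(0,0)]⟩,⟨1,[(1,0),(0,0),(1,1),(7,0),(0,1),(3,3),(9,1)]⟩]⟩) (.Q [0,-1,-1,1,1,0,0,0,
  -1,0,0,1] (.p true [0,0,0,1] [] (⟨0,[(14,0)]⟩,⟨0,[(13,0)]⟩) .k 0 (⟨0,[]⟩,⟨0,[]⟩) .k .k) (.I [0,0,
  -1,-1,0,0,0,-1,-1] (.Q [0,0,0,0,0,-1,0,0,0,1,0,-1] (.p false [0,0,0,1] [1] (⟨0,[(16,0)]⟩,⟨0,[(15,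
  0)]⟩) .k 1 (⟨0,[]⟩,⟨0,[]⟩) .k .k) (.R ⟨1,false,false,false,[1,0,0,-1],[0,1],[0,0,0,0,0,0,0,0,-1],
  (⟨0,[(16,0)]⟩,⟨0,[(17,0)]⟩),(⟨0,[(29,0)]⟩,⟨0,[(28,0)]⟩),⟨0,[(0,0)]⟩,.k,.k,(.x (-1) ⟨7,[(8,3),(1,
  3),(3,2),(0,2),(11,1)]⟩ ⟨0,[(29,0)]⟩),(.x (-1) ⟨7,[(8,3),(1,3),(3,2),(0,2),(11,1)]⟩ ⟨0,[(29,0)]⟩),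
  (.r (-1) ⟨1,[(1,1),(3,0),(0,1),(9,0),(0,0),(12,0),(2,0)]⟩ ⟨9,[(3,5),(3,1),(7,1),(1,5),(2,3),(1,4),
  (0,8),(8,19)]⟩),.k,⟨false,1,⟨1,[(1,1),(3,0),(10,0),(0,0),(2,1),(9,0),(2,0)]⟩,⟨4,[(3,2),(3,0),(7,
  0),(1,2),(2,1),(2,1),(8,4)]⟩⟩,⟨true,0,⟨0,[(16,0)]⟩,⟨0,[(11,0),(5,0),(1,0)]⟩⟩,⟨false,1,⟨3,[(14,0),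
  (0,0),(18,1)]⟩,⟨0,[]⟩⟩,⟨false,0,⟨0,[(3,0),(12,0),(0,0),(14,0)]⟩,⟨5,[(1,3),(0,1),(1,0),(0,0),(0,3),
  (10,3),(9,1),(6,0)]⟩⟩,⟨true,0,⟨0,[(32,0)]⟩,⟨0,[(31,0)]⟩⟩,⟨false,0,⟨0,[(3,0),(12,0),(0,0),(14,1)]⟩,
  ⟨3,[(1,3),(2,0),(0,0),(0,3),(10,3),(9,0),(6,1)]⟩⟩,[.o ⟨false,0,⟨0,[(32,0)]⟩,⟨1,[(27,0),(3,1),(2,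
  0)]⟩⟩,.o ⟨false,1,⟨3,[(14,0),(0,0),(16,3),(1,1)]⟩,⟨0,[(5,0),(0,0),(0,0),(12,0),(9,0)]⟩⟩,.o ⟨false,
  1,⟨1,[(17,1),(9,0),(5,0)]⟩,⟨9,[(1,0),(1,4),(3,1),(6,1),(1,4),(2,4),(0,4),(9,0),(1,0)]⟩⟩,.a ⟨true,
  0,⟨0,[(17,0)]⟩,⟨0,[(16,0)]⟩⟩ ⟨false,1,⟨4,[(1,1),(0,0),(2,0),(8,0),(1,0),(3,1),(9,2),(1,0),(0,1)]⟩,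
  ⟨4,[(3,2),(3,0),(7,0),(1,2),(2,1),(2,1)]⟩⟩ ⟨true,0,⟨0,[(16,0),(15,0)]⟩,⟨0,[(5,0),(0,0),(0,0),(9,
  0),(2,0),(9,0)]⟩⟩]⟩) (.R ⟨0,false,false,false,[1,0,0,-1],[0,1],[1,0,0,0,0,0,0,0,-1],(⟨0,[(16,0)]⟩,
  ⟨0,[(17,0)]⟩),(⟨0,[(29,0)]⟩,⟨0,[(28,0)]⟩),⟨0,[(0,0)]⟩,.k,.k,(.x (-1) ⟨7,[(8,3),(1,3),(3,2),(0,2),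
  (11,1)]⟩ ⟨0,[(29,0)]⟩),(.x (-1) ⟨7,[(8,3),(1,3),(3,2),(0,2),(11,1)]⟩ ⟨0,[(29,0)]⟩),.k,.k,⟨false,1,
  ⟨1,[(1,1),(3,0),(10,0),(0,0),(2,1),(9,0),(2,0)]⟩,⟨4,[(3,2),(3,0),(7,0),(1,2),(2,1),(2,1),(8,4)]⟩⟩,
  ⟨true,0,⟨0,[(16,0)]⟩,⟨0,[(11,0),(5,0),(1,0)]⟩⟩,⟨true,0,⟨0,[]⟩,⟨0,[(36,0)]⟩⟩,⟨false,0,⟨0,[(3,0),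
  (12,0),(0,0),(14,0)]⟩,⟨5,[(1,3),(0,1),(1,0),(0,0),(0,3),(10,3),(9,1),(6,0)]⟩⟩,⟨false,0,⟨0,[]⟩,⟨0,
  []⟩⟩,⟨false,0,⟨0,[]⟩,⟨0,[]⟩⟩,[.o ⟨false,0,⟨0,[(32,0)]⟩,⟨1,[(27,0),(3,1),(2,0)]⟩⟩,.o ⟨false,1,⟨3,
  [(14,0),(0,0),(16,3),(1,1)]⟩,⟨0,[(5,0),(0,0),(0,0),(12,0),(9,0)]⟩⟩,.o ⟨false,1,⟨1,[(17,1),(9,0),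
  (5,0)]⟩,⟨9,[(1,0),(1,4),(3,1),(6,1),(1,4),(2,4),(0,4),(9,0),(1,0)]⟩⟩,.a ⟨true,0,⟨0,[(17,0)]⟩,⟨0,
  [(16,0)]⟩⟩ ⟨false,1,⟨4,[(1,1),(0,0),(2,0),(8,0),(1,0),(3,1),(9,2),(1,0),(0,1)]⟩,⟨4,[(3,2),(3,0),
  (7,0),(1,2),(2,1),(2,1)]⟩⟩ ⟨true,0,⟨0,[(16,0),(15,0)]⟩,⟨1,[(0,1),(5,0),(1,0),(0,0),(0,0)]⟩⟩]⟩))
  (.Q [0,0,0,0,0,1,0,0,0,-1,0,1] (.p true [0,0,0,1] [1] (⟨0,[(16,0)]⟩,⟨0,[(15,0)]⟩) .k 1 (⟨0,[]⟩,⟨0,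
  []⟩) .k .k) (.I [1,1,-1,-1,1,0,0,1,-1] (.R ⟨0,false,false,false,[1,0,0,-1],[1,0,-1],[1,1,0,-1,0,0,
  0,0,-1],(⟨0,[(17,0)]⟩,⟨0,[(18,0)]⟩),(⟨0,[(26,0)]⟩,⟨0,[(27,0)]⟩),⟨0,[(1,0)]⟩,.k,.k,(.x (-1) ⟨7,[(9,
  3),(1,3),(3,2),(0,2),(11,1)]⟩ ⟨0,[(30,0)]⟩),.k,.k,.k,⟨false,1,⟨0,[(0,0)]⟩,⟨0,[(2,0),(5,0),(22,0),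
  (2,0)]⟩⟩,⟨true,0,⟨0,[(17,0),(2,0)]⟩,⟨0,[(12,0),(5,0)]⟩⟩,⟨true,0,⟨0,[(32,0)]⟩,⟨0,[(33,0)]⟩⟩,⟨false,
  0,⟨3,[(4,1),(0,0),(0,0),(1,1),(7,0),(0,1),(13,1)]⟩,⟨0,[(3,0),(3,0)]⟩⟩,⟨false,0,⟨0,[]⟩,⟨0,[]⟩⟩,
  ⟨false,0,⟨0,[]⟩,⟨0,[]⟩⟩,[.o ⟨false,0,⟨0,[(6,0),(1,0),(12,0),(9,0)]⟩,⟨3,[(0,1),(1,1),(11,1),(13,0),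
  (6,0)]⟩⟩,.o ⟨false,1,⟨0,[(19,0),(15,0)]⟩,⟨0,[(21,0)]⟩⟩,.o ⟨false,1,⟨1,[(18,1),(9,0),(5,0)]⟩,⟨7,
  [(4,1),(3,1),(6,0),(1,5),(2,3),(0,3),(6,0),(2,1)]⟩⟩,.a ⟨true,0,⟨0,[(18,0)]⟩,⟨0,[(17,0)]⟩⟩ ⟨false,
  1,⟨3,[(0,3),(7,1),(22,1),(2,0),(0,0)]⟩,⟨5,[(2,3),(5,1),(7,0),(14,3),(1,1),(0,0)]⟩⟩ ⟨true,0,⟨0,[(6,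
  0),(1,0),(8,0),(3,0),(9,0)]⟩,⟨0,[(18,0),(2,0)]⟩⟩]⟩) (.R ⟨0,false,false,true,[1,0,0,-1],[0,1],[1,0,
  1],(⟨0,[(17,0)]⟩,⟨0,[(18,0)]⟩),(⟨0,[(30,0)]⟩,⟨0,[(29,0)]⟩),⟨0,[(1,0)]⟩,.k,.k,(.x (-1) ⟨7,[(9,3),
  (1,3),(3,2),(0,2),(11,1)]⟩ ⟨0,[(30,0)]⟩),(.x (-1) ⟨7,[(9,3),(1,3),(3,2),(0,2),(11,1)]⟩ ⟨0,[(30,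
  0)]⟩),.k,.k,⟨false,1,⟨0,[(31,0),(0,0),(1,0)]⟩,⟨0,[(33,0),(3,0)]⟩⟩,⟨true,0,⟨0,[(17,0)]⟩,⟨0,[(12,0),
  (5,0),(1,0)]⟩⟩,⟨false,0,⟨12,[(0,3),(1,0),(4,2),(5,1),(2,3),(7,0),(6,6)]⟩,⟨1,[(15,0),(18,0)]⟩⟩,
  ⟨true,(-1),⟨0,[(0,0),(12,0),(3,0),(3,0),(11,0)]⟩,⟨0,[(3,0),(2,0),(0,1),(0,0),(22,0)]⟩⟩,⟨false,0,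
  ⟨0,[]⟩,⟨0,[]⟩⟩,⟨false,0,⟨0,[]⟩,⟨0,[]⟩⟩,[.o ⟨false,0,⟨0,[(33,0),(3,0)]⟩,⟨3,[(7,1),(2,1),(17,0),(2,
  1),(2,0),(0,1)]⟩⟩,.o ⟨false,0,⟨0,[(33,0)]⟩,⟨1,[(28,0),(3,1),(2,0)]⟩⟩,.o ⟨false,1,⟨1,[(18,1),(9,0),
  (5,0)]⟩,⟨7,[(4,1),(3,1),(6,0),(1,5),(2,3),(0,3),(6,0),(2,1)]⟩⟩,.a ⟨true,0,⟨0,[(18,0)]⟩,⟨0,[(17,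
  0)]⟩⟩ ⟨true,0,⟨0,[]⟩,⟨0,[(37,0)]⟩⟩ ⟨false,0,⟨0,[(17,0),(15,0)]⟩,⟨3,[(7,1),(2,1),(7,3),(9,0),(2,1),
  (2,0),(0,1)]⟩⟩]⟩)) (.I [1,1,-1,-1,1,0,0,1,-1] (.I [0,0,1,1,0,0,0,1,1] (.Q [0,-1,-1,-1,1,0,-1,-1,
  -1,-1,1,1] (.p true [0,0,1] [1,0,0,-1] (⟨0,[(28,0)]⟩,⟨0,[(27,0)]⟩) .k 2 (⟨0,[(18,0)]⟩,⟨0,[(19,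
  0)]⟩) .k (.r (-1) ⟨9,[(1,1),(1,5),(4,1),(5,1),(2,2),(17,1),(0,2)]⟩ ⟨0,[(1,0),(7,0),(22,0),(1,
  0)]⟩)) (.R ⟨1,false,false,true,[1,0,0,-1],[0,0,1],[1,1,0,-1,0,0,0,0,-1],(⟨0,[(19,0)]⟩,⟨0,[(20,
  0)]⟩),(⟨0,[(29,0)]⟩,⟨0,[(28,0)]⟩),⟨0,[(3,0)]⟩,.k,.k,(.x (-1) ⟨7,[(11,3),(1,3),(3,2),(0,2),(11,
  1)]⟩ ⟨0,[(32,0)]⟩),.k,(.r (-1) ⟨3,[(0,1),(11,1),(3,1),(0,0),(1,1),(16,0)]⟩ ⟨0,[(1,0)]⟩),.k,⟨true,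
  0,⟨0,[(2,0),(7,0),(22,0)]⟩,⟨0,[(1,0)]⟩⟩,⟨false,0,⟨0,[(14,0),(4,0)]⟩,⟨3,[(8,1),(11,3),(9,0),(5,
  0)]⟩⟩,⟨true,0,⟨0,[(34,0)]⟩,⟨0,[(35,0)]⟩⟩,⟨false,0,⟨3,[(4,1),(1,1),(2,1),(6,0),(2,2),(0,0)]⟩,⟨0,
  [(0,0),(34,0)]⟩⟩,⟨false,0,⟨0,[]⟩,⟨3,[(17,0),(0,0),(18,1)]⟩⟩,⟨false,0,⟨2,[(4,1),(1,0),(9,0),(2,1),
  (3,0),(11,0)]⟩,⟨0,[(0,0)]⟩⟩,[.o ⟨false,0,⟨0,[(23,0)]⟩,⟨0,[(21,0),(15,0)]⟩⟩,.o ⟨false,1,⟨3,[(2,1),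
  (1,1),(11,1),(13,0),(6,0)]⟩,⟨0,[(8,0),(1,0),(12,0),(9,0)]⟩⟩,.o ⟨false,1,⟨1,[(20,1),(9,0),(5,0)]⟩,
  ⟨7,[(6,1),(3,1),(6,0),(1,5),(2,3),(0,3),(6,0),(2,1)]⟩⟩,.a ⟨true,0,⟨0,[(20,0)]⟩,⟨0,[(19,0)]⟩⟩
  ⟨false,1,⟨1,[(0,0),(1,0),(11,0),(4,0)]⟩,⟨5,[(4,3),(5,1),(7,0),(14,3),(1,1),(0,0)]⟩⟩ ⟨true,0,⟨0,
  [(19,0),(3,0)]⟩,⟨0,[(8,0),(1,0),(9,0),(2,0),(9,0)]⟩⟩]⟩) (.R ⟨1,true,false,true,[1,0,-1],[0,0,0,1],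
  [1,1,0,-1,0,0,0,-1],(⟨0,[(28,0)]⟩,⟨0,[(29,0)]⟩),(⟨0,[(20,0)]⟩,⟨0,[(19,0)]⟩),⟨0,[(11,0)]⟩,.k,.k,.k,
  .k,(.r (-1) ⟨0,[(2,0),(7,0),(26,0)]⟩ ⟨0,[(1,0)]⟩),.k,⟨true,0,⟨0,[(2,0),(7,0),(22,0)]⟩,⟨0,[(1,
  0)]⟩⟩,⟨false,0,⟨0,[(14,0),(4,0)]⟩,⟨3,[(8,1),(11,3),(9,0),(5,0)]⟩⟩,⟨true,0,⟨0,[(34,0)]⟩,⟨0,[(35,
  0)]⟩⟩,⟨false,0,⟨11,[(0,3),(3,1),(4,5),(8,2),(0,7),(5,1),(7,3),(3,0)]⟩,⟨0,[(5,0),(2,0),(0,0),(0,0),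
  (22,0)]⟩⟩,⟨false,0,⟨0,[]⟩,⟨3,[(17,0),(0,0),(18,1)]⟩⟩,⟨true,(-1),⟨0,[(0,0)]⟩,⟨3,[(2,1),(2,1),(2,0),
  (0,0),(0,1),(1,2),(7,1),(12,2),(2,0)]⟩⟩,[]⟩)) (.R ⟨1,false,false,true,[1,0,0,-1],[1,-1],[0,0,0,0,
  0,0,0,0,-1],(⟨0,[(18,0)]⟩,⟨0,[(19,0)]⟩),(⟨0,[(30,0)]⟩,⟨0,[(31,0)]⟩),⟨0,[(2,0)]⟩,.k,.k,(.x (-1) ⟨7,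
  [(10,3),(1,3),(3,2),(0,2),(11,1)]⟩ ⟨0,[(31,0)]⟩),(.r 0 ⟨9,[(0,1),(5,4),(2,3),(6,3),(1,4),(0,4),(2,
  9),(9,6),(1,11)]⟩ ⟨2,[(0,0),(4,1),(2,0),(5,0),(2,0),(1,1),(15,1)]⟩),.k,.k,⟨true,0,⟨9,[(0,5),(5,4),
  (2,1),(6,1),(1,4),(0,4),(2,9),(9,10),(1,15)]⟩,⟨0,[(3,0),(4,0),(0,0),(4,0),(17,0),(2,0)]⟩⟩,⟨false,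
  0,⟨7,[(5,1),(3,1),(6,0),(1,5),(2,3),(0,3),(6,0),(2,1)]⟩,⟨0,[(19,0),(15,0)]⟩⟩,⟨false,1,⟨3,[(16,0),
  (0,0),(18,1)]⟩,⟨0,[]⟩⟩,⟨false,0,⟨0,[(5,0),(27,0)]⟩,⟨0,[(4,0)]⟩⟩,⟨true,0,⟨0,[(34,0)]⟩,⟨0,[(33,
  0)]⟩⟩,⟨false,0,⟨0,[(5,0),(32,0)]⟩,⟨7,[(0,1),(0,1),(2,3),(14,3),(12,1),(2,0),(0,0)]⟩⟩,[.o ⟨false,0,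
  ⟨0,[(7,0),(0,0),(0,0),(12,0),(9,0)]⟩,⟨3,[(16,0),(0,0),(16,3),(1,1)]⟩⟩,.o ⟨false,1,⟨1,[(29,0),(3,
  1),(2,0)]⟩,⟨0,[(34,0)]⟩⟩,.o ⟨false,1,⟨1,[(19,1),(9,0),(5,0)]⟩,⟨7,[(5,1),(3,1),(6,0),(1,5),(2,3),
  (0,3),(6,0),(2,1)]⟩⟩,.a ⟨true,0,⟨0,[(19,0)]⟩,⟨0,[(18,0)]⟩⟩ ⟨false,1,⟨5,[(0,1),(0,1),(14,0),(15,3),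
  (1,3),(0,2)]⟩,⟨15,[(3,7),(5,3),(7,3),(6,0),(0,0),(6,5),(0,7)]⟩⟩ ⟨true,0,⟨11,[(0,3),(4,3),(0,2),(0,
  2),(0,7),(0,3),(8,7),(3,3),(6,0)]⟩,⟨0,[(19,0),(14,0)]⟩⟩]⟩)) (.R ⟨1,false,false,false,[1,0,0,-1],
  [1,-1],[0,0,0,0,0,0,0,0,-1],(⟨0,[(17,0)]⟩,⟨0,[(18,0)]⟩),(⟨0,[(29,0)]⟩,⟨0,[(30,0)]⟩),⟨0,[(1,0)]⟩,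
  .k,.k,(.x (-1) ⟨7,[(9,3),(1,3),(3,2),(0,2),(11,1)]⟩ ⟨0,[(30,0)]⟩),(.r 0 ⟨0,[(3,0),(1,0),(2,0),(8,
  0),(3,1),(9,0)]⟩ ⟨7,[(0,1),(6,1),(5,1),(2,2),(14,3),(0,5),(1,6)]⟩),.k,.k,⟨true,0,⟨0,[(3,0),(1,0),
  (2,0),(8,0),(3,1),(9,0)]⟩,⟨7,[(0,5),(6,5),(5,5),(2,0),(14,3),(0,1),(1,4)]⟩⟩,⟨false,0,⟨7,[(4,1),(3,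
  1),(6,0),(1,5),(2,3),(0,3),(6,0),(2,1)]⟩,⟨0,[(18,0),(15,0)]⟩⟩,⟨false,1,⟨3,[(15,0),(0,0),(18,1)]⟩,
  ⟨0,[]⟩⟩,⟨false,0,⟨2,[(0,0),(3,1),(2,1),(2,0),(2,0),(3,0),(13,1),(2,0)]⟩,⟨0,[(3,0),(33,0)]⟩⟩,⟨true,
  0,⟨0,[(33,0)]⟩,⟨0,[(32,0)]⟩⟩,⟨false,0,⟨0,[(4,0)]⟩,⟨0,[(3,0),(28,0)]⟩⟩,[.o ⟨false,1,⟨1,[(28,0),(3,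
  1),(2,0)]⟩,⟨0,[(33,0)]⟩⟩,.o ⟨false,1,⟨3,[(7,1),(2,1),(17,0),(2,1),(2,0),(0,1)]⟩,⟨0,[(33,0),(3,
  0)]⟩⟩,.o ⟨false,1,⟨1,[(18,1),(9,0),(5,0)]⟩,⟨7,[(4,1),(3,1),(6,0),(1,5),(2,3),(0,3),(6,0),(2,1)]⟩⟩,
  .a ⟨true,0,⟨0,[(18,0)]⟩,⟨0,[(17,0)]⟩⟩ ⟨true,1,⟨1,[(15,0),(18,0)]⟩,⟨0,[(0,0),(12,0),(7,0)]⟩⟩
  ⟨false,1,⟨3,[(7,1),(2,1),(6,3),(10,0),(2,1),(2,0),(0,1)]⟩,⟨0,[(18,0),(14,0)]⟩⟩]⟩)))) (.I [0,0,1,1,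
  0,0,0,0,-1] (.K ⟨0,[0,0,0,1],0,(-1),(⟨0,[(16,0)]⟩,⟨0,[(15,0)]⟩),.k,(.r (-1) ⟨3,[(1,1),(12,0),(1,
  1),(13,1),(1,2),(0,1)]⟩ ⟨0,[(0,0)]⟩),(.x 0 ⟨0,[(28,0)]⟩ ⟨7,[(7,3),(1,3),(3,2),(0,2),(11,1)]⟩),.k,
  .k,[⟨0,[(16,0)]⟩,⟨0,[(15,0)]⟩,⟨1,[(13,0),(2,1),(15,0),(2,1)]⟩,⟨0,[(1,0),(29,0)]⟩]⟩) (.K ⟨0,[0,0,0,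
  1],0,(-1),(⟨0,[(16,0)]⟩,⟨0,[(15,0)]⟩),.k,(.x 0 ⟨2,[(3,1),(3,0),(1,0),(11,3),(5,0)]⟩ ⟨0,[(28,0),(3,
  0)]⟩),(.x 0 ⟨0,[(28,0)]⟩ ⟨7,[(7,3),(1,3),(3,2),(0,2),(11,1)]⟩),.k,.k,[⟨0,[(16,0)]⟩,⟨0,[(15,0)]⟩,
  ⟨1,[(13,0),(2,1),(15,0),(2,1)]⟩,⟨0,[(1,0),(29,0)]⟩]⟩)))))))

theorem ok96 : chk (cU (-1) true 10) t96 r10 = true := by decide +kernel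

noncomputable def t101 : Tre :=
  (.Q [0,0,0,0,0,-1,0,0,0,1,-1] (.ed true [0,1,1] .k) (.R ⟨1,false,false,false,[1,0,-1],[1,-1],[0,0,
  0,0,0,0,0,-1],(⟨0,[(15,0)]⟩,⟨0,[(16,0)]⟩),(⟨0,[(18,0)]⟩,⟨0,[(19,0)]⟩),⟨0,[(0,0)]⟩,.k,.k,.k,.k,.k,
  .k,⟨false,0,⟨0,[(14,0),(7,0)]⟩,⟨0,[(2,0),(7,0),(9,0),(2,0)]⟩⟩,⟨true,0,⟨0,[(12,0)]⟩,⟨0,[(1,0)]⟩⟩,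
  ⟨false,1,⟨3,[(4,0),(0,0),(18,1)]⟩,⟨0,[]⟩⟩,⟨false,1,⟨1,[(10,1),(9,1),(0,1),(1,0),(0,0)]⟩,⟨0,[(1,0),
  (12,0),(7,0)]⟩⟩,⟨true,0,⟨0,[(22,0)]⟩,⟨0,[(21,0)]⟩⟩,⟨false,1,⟨0,[(10,0),(13,0)]⟩,⟨0,[(1,0),(12,
  0)]⟩⟩,[.o ⟨false,1,⟨1,[(17,0),(3,1),(2,0)]⟩,⟨0,[(22,0)]⟩⟩,.o ⟨false,1,⟨1,[(17,0),(2,1),(0,1),(1,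
  0)]⟩,⟨0,[(22,0),(3,0)]⟩⟩,.a ⟨true,0,⟨0,[(1,0)]⟩,⟨1,[(3,0),(2,0),(0,0)]⟩⟩ ⟨true,0,⟨0,[(14,0)]⟩,⟨0,
  [(1,0),(8,0)]⟩⟩ ⟨false,1,⟨3,[(3,1),(13,0),(2,1),(0,3),(1,0),(0,1)]⟩,⟨0,[(1,0),(20,0)]⟩⟩,.o ⟨false,
  0,⟨0,[(9,0)]⟩,⟨7,[(3,3),(0,0),(0,0),(11,1),(5,3)]⟩⟩]⟩) (.R ⟨0,false,false,false,[1,0,-1],[1,-1],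
  [0,1],(⟨0,[(15,0)]⟩,⟨0,[(16,0)]⟩),(⟨0,[(18,0)]⟩,⟨0,[(19,0)]⟩),⟨0,[(0,0)]⟩,.k,.k,.k,.k,.k,.k,
  ⟨false,0,⟨0,[(22,0),(3,0)]⟩,⟨0,[(20,0),(0,0),(1,0)]⟩⟩,⟨true,0,⟨0,[(12,0)]⟩,⟨0,[(1,0)]⟩⟩,⟨true,0,
  ⟨0,[(1,0),(8,0)]⟩,⟨0,[(14,0)]⟩⟩,⟨false,1,⟨1,[(10,1),(9,1),(0,1),(1,0),(0,0)]⟩,⟨0,[(1,0),(12,0),(7,
  0)]⟩⟩,⟨false,0,⟨0,[]⟩,⟨0,[]⟩⟩,⟨false,0,⟨0,[]⟩,⟨0,[]⟩⟩,[.o ⟨false,1,⟨1,[(17,0),(3,1),(2,0)]⟩,⟨0,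
  [(22,0)]⟩⟩,.o ⟨false,1,⟨1,[(17,0),(2,1),(0,1),(1,0)]⟩,⟨0,[(22,0),(3,0)]⟩⟩,.a ⟨true,0,⟨0,[(1,0)]⟩,
  ⟨1,[(3,0),(2,0),(0,0)]⟩⟩ ⟨true,0,⟨0,[(26,0)]⟩,⟨0,[]⟩⟩ ⟨false,1,⟨3,[(3,1),(13,0),(2,1),(0,3),(1,0),
  (0,1)]⟩,⟨0,[(1,0),(20,0)]⟩⟩,.o ⟨false,0,⟨0,[(9,0)]⟩,⟨7,[(3,3),(0,0),(0,0),(11,1),(5,3)]⟩⟩]⟩))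

theorem ok101 : chk (cU (-1) true 10) t101 r0 = true := by decide +kernel

end Helper11.CT.T1_34_m1_m1_u
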