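import Pool.Agent.Helper11.CT.T.T1_34_m1_m1_u_q

set_option autoImplicit false
set_option linter.all false

namespace Helper11.CT.T1_34_m1_m1_u

open Helper11.CT

noncomputable def t6 : Tre :=
  (.I [0,0,2,2,-1] (.Q [0,-1,0,2,0,0,0,0,0,1] (.pp false [-1,1]) (.R ⟨2,true,false,true,[0,1],[1,
  -1],[0,1,1,1],(⟨0,[]⟩,⟨0,[]⟩),(⟨0,[(28,0)]⟩,⟨0,[(29,0)]⟩),⟨0,[]⟩,.k,.k,.k,(.r 1 ⟨0,[(1,0)]⟩ ⟨0,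
  [(31,1),(1,0),(0,0)]⟩),.k,.k,⟨true,(-1),⟨0,[(1,0)]⟩,⟨0,[(30,0),(0,1),(1,0)]⟩⟩,⟨false,0,⟨5,[(1,0),
  (4,0),(0,1),(14,1),(4,0),(2,0)]⟩,⟨0,[(16,0),(0,0),(15,0)]⟩⟩,⟨true,0,⟨0,[(36,0)]⟩,⟨0,[]⟩⟩,⟨false,1,
  ⟨0,[(7,0),(23,0),(2,0)]⟩,⟨0,[(0,0)]⟩⟩,⟨false,0,⟨0,[(32,0)]⟩,⟨0,[(31,0),(2,0)]⟩⟩,⟨true,0,⟨0,[(7,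
  0)]⟩,⟨3,[(0,2),(11,1),(0,0),(22,0)]⟩⟩,[]⟩) (.Q [0,-1,1,0,0,0,0,0,1,0,0,-1] (.p false [0,0,0,1] []
  (⟨0,[(17,0)]⟩,⟨0,[(16,0)]⟩) .k 0 (⟨0,[]⟩,⟨0,[]⟩) .k .k) (.Q [0,1,1,0,-1,0,0,0,1,0,0,-1] (.p false
  [0,0,0,1] [] (⟨0,[(18,0)]⟩,⟨0,[(17,0)]⟩) .k 0 (⟨0,[]⟩,⟨0,[]⟩) .k .k) (.K ⟨0,[0,0,0,1],0,(-1),(⟨0,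
  [(19,0)]⟩,⟨0,[(18,0)]⟩),.k,(.r (-1) ⟨0,[(6,0),(26,0)]⟩ ⟨1,[(3,0),(12,0)]⟩),(.x 0 ⟨0,[(31,0)]⟩ ⟨3,
  [(16,0),(0,0),(11,1),(0,3)]⟩),.k,.k,[⟨0,[(19,0)]⟩,⟨0,[(18,0)]⟩,⟨1,[(16,0),(2,1),(15,0),(2,1)]⟩,⟨0,
  [(0,0)]⟩]⟩) (.Q [0,0,0,0,0,1,0,0,0,-1,0,1] (.p true [0,0,0,1] [1] (⟨0,[(19,0)]⟩,⟨0,[(18,0)]⟩) .k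
  1 (⟨0,[]⟩,⟨0,[]⟩) .k .k) (.I [1,0,2,1,-1,0,0,0,1] (.I [0,-1,0,1,0,0,0,-1,1] (.I [1,1,-1,-1,1,0,0,
  1,-1] (.R ⟨0,false,false,false,[1,0,0,-1],[1,0,-1],[1,1,0,-1,0,0,0,0,-1],(⟨0,[(22,0)]⟩,⟨0,[(23,
  0)]⟩),(⟨0,[(31,0)]⟩,⟨0,[(32,0)]⟩),⟨0,[(3,0)]⟩,.k,.k,(.x (-1) ⟨3,[(20,0),(0,0),(11,1),(0,3)]⟩ ⟨0,
  [(35,0)]⟩),.k,.k,.k,⟨false,1,⟨0,[(0,0)]⟩,⟨0,[(1,0)]⟩⟩,⟨true,0,⟨4,[(2,0),(2,0),(6,1),(5,0),(1,0),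
  (1,3)]⟩,⟨0,[(17,0),(5,0)]⟩⟩,⟨true,0,⟨0,[(37,0)]⟩,⟨0,[(38,0)]⟩⟩,⟨false,0,⟨3,[(1,0),(3,2),(3,0),(5,
  0),(2,0),(3,0),(4,0),(8,0)]⟩,⟨0,[(4,0),(21,0)]⟩⟩,⟨false,0,⟨0,[]⟩,⟨0,[]⟩⟩,⟨false,0,⟨0,[]⟩,⟨0,[]⟩⟩,
  [.o ⟨false,0,⟨1,[(9,0),(1,0)]⟩,⟨3,[(20,0),(0,0),(4,3),(13,1)]⟩⟩,.o ⟨false,1,⟨2,[(9,0),(5,0),(11,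
  0),(5,0),(6,1)]⟩,⟨0,[(26,0)]⟩⟩,.o ⟨false,1,⟨1,[(23,1),(9,0),(5,0)]⟩,⟨3,[(5,1),(1,0),(5,1),(6,0),
  (1,1)]⟩⟩,.a ⟨true,0,⟨0,[(23,0)]⟩,⟨0,[(22,0)]⟩⟩ ⟨false,1,⟨3,[(4,1),(1,1),(13,0),(1,1),(16,0)]⟩,⟨3,
  [(2,1),(4,0),(2,1),(29,0)]⟩⟩ ⟨true,0,⟨1,[(9,0),(1,0),(10,1)]⟩,⟨0,[(23,0),(2,0)]⟩⟩]⟩) (.R ⟨0,false,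
  false,false,[1,0,0,-1],[1,0,-1],[0,1,0,0,0,0,0,0,-1],(⟨0,[(22,0)]⟩,⟨0,[(23,0)]⟩),(⟨0,[(31,0)]⟩,⟨0,
  [(32,0)]⟩),⟨0,[(3,0)]⟩,.k,.k,(.x (-1) ⟨3,[(20,0),(0,0),(11,1),(0,3)]⟩ ⟨0,[(35,0)]⟩),.k,.k,.k,
  ⟨false,1,⟨3,[(4,1),(2,0),(0,1),(9,1),(1,0),(1,1),(3,3)]⟩,⟨13,[(0,9),(3,2),(1,3),(3,6),(7,1),(0,0),
  (2,2),(7,3)]⟩⟩,⟨true,0,⟨4,[(2,0),(2,0),(6,1),(5,0),(1,0),(1,3)]⟩,⟨0,[(17,0),(5,0)]⟩⟩,⟨true,0,⟨0,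
  [(42,0)]⟩,⟨0,[]⟩⟩,⟨false,0,⟨3,[(0,0),(4,2),(3,0),(5,0),(2,0),(3,0),(4,0),(12,0)]⟩,⟨0,[(4,0),(21,
  0)]⟩⟩,⟨false,0,⟨0,[]⟩,⟨0,[]⟩⟩,⟨false,0,⟨0,[]⟩,⟨0,[]⟩⟩,[.o ⟨false,0,⟨1,[(9,0),(1,0)]⟩,⟨3,[(20,0),
  (0,0),(4,3),(13,1)]⟩⟩,.o ⟨false,1,⟨2,[(9,0),(5,0),(11,0),(5,0),(6,1)]⟩,⟨0,[(26,0)]⟩⟩,.o ⟨false,1,
  ⟨1,[(23,1),(9,0),(5,0)]⟩,⟨3,[(5,1),(1,0),(5,1),(6,0),(1,1)]⟩⟩,.a ⟨true,0,⟨0,[(23,0)]⟩,⟨0,[(22,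
  0)]⟩⟩ ⟨false,1,⟨1,[(20,0),(18,0)]⟩,⟨16,[(2,7),(3,1),(3,6),(7,3),(0,1),(1,0),(14,7)]⟩⟩ ⟨true,0,⟨1,
  [(9,0),(1,0),(10,1)]⟩,⟨0,[(23,0),(2,0)]⟩⟩]⟩)) (.R ⟨0,false,false,false,[1,0,0,-1],[1,0,-1],[1,0,0,
  0,0,0,0,0,-1],(⟨0,[(21,0)]⟩,⟨0,[(22,0)]⟩),(⟨0,[(30,0)]⟩,⟨0,[(31,0)]⟩),⟨0,[(2,0)]⟩,.k,.k,(.x (-1)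
  ⟨3,[(19,0),(0,0),(11,1),(0,3)]⟩ ⟨0,[(34,0)]⟩),.k,.k,.k,⟨false,1,⟨3,[(0,1),(2,1),(2,0),(0,1),(13,
  1),(3,1),(13,0)]⟩,⟨1,[(1,1),(3,1),(2,1),(9,0),(2,0),(0,0),(15,1)]⟩⟩,⟨true,0,⟨4,[(1,0),(2,0),(6,1),
  (5,0),(1,0),(1,3)]⟩,⟨0,[(16,0),(5,0)]⟩⟩,⟨true,0,⟨0,[]⟩,⟨0,[(41,0)]⟩⟩,⟨false,0,⟨1,[(4,1),(3,0),(8,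
  0),(11,0)]⟩,⟨0,[(3,0),(21,0)]⟩⟩,⟨false,0,⟨0,[]⟩,⟨0,[]⟩⟩,⟨false,0,⟨0,[]⟩,⟨0,[]⟩⟩,[.o ⟨false,0,⟨1,
  [(8,0),(1,0)]⟩,⟨3,[(19,0),(0,0),(4,3),(13,1)]⟩⟩,.o ⟨false,1,⟨2,[(8,0),(5,0),(11,0),(5,0),(6,1)]⟩,
  ⟨0,[(25,0)]⟩⟩,.o ⟨false,1,⟨1,[(22,1),(9,0),(5,0)]⟩,⟨3,[(4,1),(1,0),(5,1),(6,0),(1,1)]⟩⟩,.a ⟨true,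
  0,⟨0,[(22,0)]⟩,⟨0,[(21,0)]⟩⟩ ⟨false,1,⟨6,[(0,1),(2,2),(3,2),(0,1),(7,4),(2,0),(1,2),(13,1)]⟩,⟨11,
  [(1,3),(18,3),(6,0),(0,0),(6,1),(0,3)]⟩⟩ ⟨true,0,⟨1,[(8,0),(1,0),(10,1)]⟩,⟨0,[(22,0),(2,0)]⟩⟩]⟩))
  (.R ⟨0,false,false,false,[1,0,0,-1],[0,1],[1,0,0,0,0,0,0,0,-1],(⟨0,[(20,0)]⟩,⟨0,[(21,0)]⟩),(⟨0,
  [(33,0)]⟩,⟨0,[(32,0)]⟩),⟨0,[(1,0)]⟩,.k,.k,(.x (-1) ⟨3,[(18,0),(0,0),(11,1),(0,3)]⟩ ⟨0,[(33,0)]⟩),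
  (.x (-1) ⟨3,[(18,0),(0,0),(11,1),(0,3)]⟩ ⟨0,[(33,0)]⟩),.k,.k,⟨false,1,⟨0,[(0,0)]⟩,⟨1,[(5,0),(13,
  0)]⟩⟩,⟨true,0,⟨0,[(20,0)]⟩,⟨7,[(4,1),(0,1),(4,0),(10,7),(4,1),(4,1),(2,0)]⟩⟩,⟨true,0,⟨0,[]⟩,⟨0,
  [(40,0)]⟩⟩,⟨false,0,⟨1,[(3,0),(1,0),(2,0),(11,1),(0,0)]⟩,⟨0,[(2,0),(8,0)]⟩⟩,⟨false,0,⟨0,[]⟩,⟨0,
  []⟩⟩,⟨false,0,⟨0,[]⟩,⟨0,[]⟩⟩,[.o ⟨false,0,⟨0,[(36,0)]⟩,⟨3,[(4,1),(13,0),(0,0),(11,0),(6,0)]⟩⟩,.o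
  ⟨false,1,⟨1,[(5,0),(2,1),(9,0)]⟩,⟨0,[(11,0)]⟩⟩,.o ⟨false,1,⟨1,[(21,1),(9,0),(5,0)]⟩,⟨3,[(3,1),(1,
  0),(5,1),(6,0),(1,1)]⟩⟩,.a ⟨true,0,⟨0,[(21,0)]⟩,⟨0,[(20,0)]⟩⟩ ⟨false,1,⟨1,[(0,1),(4,0),(32,0)]⟩,
  ⟨3,[(3,1),(1,0),(13,0),(1,1),(13,1)]⟩⟩ ⟨true,0,⟨1,[(5,0),(14,1),(16,0)]⟩,⟨0,[(11,0),(9,0)]⟩⟩]⟩))
  (.I [0,1,-2,-2,1,0,0,1,1] (.Q [0,0,0,1,0,0,1,1,0,2,-1] (.p false [-1,1,1] [1] (⟨0,[(12,0)]⟩,⟨0,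
  [(29,0),(2,0)]⟩) .k 1 (⟨0,[]⟩,⟨0,[]⟩) .k .k) (.R ⟨0,false,false,true,[1,0,-1],[2,-1,-1],[1,1,1],
  (⟨0,[(30,0)]⟩,⟨0,[(31,0)]⟩),(⟨0,[(30,0),(2,0)]⟩,⟨0,[(13,0)]⟩),⟨0,[(13,0)]⟩,.k,.k,.k,.k,.k,.k,
  ⟨false,0,⟨3,[(0,1),(5,0),(4,1),(13,1),(13,0)]⟩,⟨1,[(5,1),(2,1),(9,0),(2,0),(0,0),(15,1)]⟩⟩,⟨true,
  0,⟨7,[(5,1),(0,1),(4,0),(15,1),(4,1),(2,0)]⟩,⟨0,[(21,0),(0,0)]⟩⟩,⟨false,0,⟨7,[(0,3),(4,1),(5,2),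
  (13,3),(2,1),(6,2)]⟩,⟨1,[(29,1),(8,0),(0,0)]⟩⟩,⟨true,0,⟨0,[(12,0)]⟩,⟨7,[(0,3),(5,0),(1,1),(17,1),
  (11,0)]⟩⟩,⟨false,0,⟨0,[]⟩,⟨0,[]⟩⟩,⟨false,0,⟨0,[]⟩,⟨0,[]⟩⟩,[.o ⟨false,0,⟨0,[(10,0)]⟩,⟨1,[(0,1),(31,
  0),(6,0)]⟩⟩,.a ⟨true,0,⟨0,[(5,0),(2,0)]⟩,⟨0,[(0,0)]⟩⟩ ⟨false,0,⟨0,[]⟩,⟨3,[(19,0),(0,0),(17,1)]⟩⟩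
  ⟨true,0,⟨0,[(5,0),(2,0),(7,0)]⟩,⟨0,[(0,0),(23,0)]⟩⟩,.o ⟨false,1,⟨4,[(7,0),(3,1),(7,1),(0,1)]⟩,⟨0,
  [(16,0)]⟩⟩,.o ⟨false,0,⟨0,[(24,0)]⟩,⟨7,[(18,3),(0,0),(0,0),(11,1),(5,3)]⟩⟩]⟩) (.I [1,0,0,1,0,0,0,
  0,-1] (.R ⟨1,false,false,true,[1,0,0,-1],[1,-1],[0,0,0,0,0,0,0,0,-1],(⟨0,[(22,0)]⟩,⟨0,[(23,0)]⟩),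
  (⟨0,[(34,0)]⟩,⟨0,[(35,0)]⟩),⟨0,[(3,0)]⟩,.k,.k,(.x (-1) ⟨3,[(20,0),(0,0),(11,1),(0,3)]⟩ ⟨0,[(35,
  0)]⟩),(.r 0 ⟨1,[(7,0),(12,0)]⟩ ⟨3,[(2,1),(18,0),(8,1),(9,0)]⟩),.k,.k,⟨true,0,⟨3,[(0,1),(6,0),(12,
  0),(15,1)]⟩,⟨1,[(2,1),(3,1),(0,1),(1,1),(9,0),(2,0),(0,0)]⟩⟩,⟨false,0,⟨3,[(5,1),(1,0),(5,1),(6,0),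
  (1,1)]⟩,⟨0,[(23,0),(15,0)]⟩⟩,⟨false,1,⟨3,[(20,0),(0,0),(18,1)]⟩,⟨0,[]⟩⟩,⟨false,0,⟨0,[(5,0),(31,
  0)]⟩,⟨1,[(4,1),(2,0),(31,0)]⟩⟩,⟨true,0,⟨0,[(38,0)]⟩,⟨0,[(37,0)]⟩⟩,⟨false,0,⟨0,[(5,0),(36,0)]⟩,⟨0,
  [(4,0)]⟩⟩,[.o ⟨false,0,⟨0,[(13,0)]⟩,⟨1,[(7,0),(2,1),(9,0)]⟩⟩,.o ⟨false,1,⟨3,[(6,1),(13,0),(0,0),
  (11,0),(6,0)]⟩,⟨0,[(38,0)]⟩⟩,.o ⟨false,1,⟨1,[(23,1),(9,0),(5,0)]⟩,⟨3,[(5,1),(1,0),(5,1),(6,0),(1,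
  1)]⟩⟩,.a ⟨true,0,⟨0,[(23,0)]⟩,⟨0,[(22,0)]⟩⟩ ⟨false,1,⟨7,[(0,3),(3,1),(1,1),(13,0),(1,1),(13,3),(2,
  4)]⟩,⟨3,[(5,1),(1,0),(13,0),(1,1),(13,1)]⟩⟩ ⟨true,0,⟨0,[(13,0),(8,0)]⟩,⟨1,[(7,0),(15,1),(15,
  0)]⟩⟩]⟩) (.R ⟨1,false,false,true,[1,0,0,-1],[1,-1],[0,1,0,0,0,0,0,0,-1],(⟨0,[(22,0)]⟩,⟨0,[(23,
  0)]⟩),(⟨0,[(34,0)]⟩,⟨0,[(35,0)]⟩),⟨0,[(3,0)]⟩,.k,.k,(.x (-1) ⟨3,[(20,0),(0,0),(11,1),(0,3)]⟩ ⟨0,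
  [(35,0)]⟩),(.r 0 ⟨1,[(7,0),(12,0)]⟩ ⟨3,[(2,1),(18,0),(8,1),(9,0)]⟩),.k,.k,⟨true,0,⟨1,[(7,0),(12,
  0)]⟩,⟨0,[(0,0)]⟩⟩,⟨false,0,⟨3,[(5,1),(1,0),(5,1),(6,0),(1,1)]⟩,⟨0,[(23,0),(15,0)]⟩⟩,⟨true,0,⟨0,
  [(42,0)]⟩,⟨0,[]⟩⟩,⟨false,0,⟨0,[(5,0),(31,0)]⟩,⟨1,[(4,1),(2,0),(31,0)]⟩⟩,⟨false,0,⟨0,[(38,0)]⟩,⟨0,
  [(37,0),(2,0)]⟩⟩,⟨false,0,⟨0,[(5,0),(36,0)]⟩,⟨0,[(4,0)]⟩⟩,[.o ⟨false,0,⟨0,[(13,0)]⟩,⟨1,[(7,0),(2,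
  1),(9,0)]⟩⟩,.o ⟨false,1,⟨3,[(6,1),(13,0),(0,0),(11,0),(6,0)]⟩,⟨0,[(38,0)]⟩⟩,.o ⟨false,1,⟨1,[(23,
  1),(9,0),(5,0)]⟩,⟨3,[(5,1),(1,0),(5,1),(6,0),(1,1)]⟩⟩,.a ⟨true,0,⟨0,[(23,0)]⟩,⟨0,[(22,0)]⟩⟩
  ⟨false,1,⟨1,[(20,0),(18,0)]⟩,⟨3,[(0,1),(6,0),(13,0),(14,1)]⟩⟩ ⟨true,0,⟨0,[(13,0),(8,0)]⟩,⟨1,[(7,
  0),(15,1),(15,0)]⟩⟩]⟩))) (.I [1,0,0,-1,0,0,0,-1,-1] (.I [0,0,1,1,0,0,0,1,1] (.R ⟨1,false,false,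
  true,[1,0,0,-1],[0,0,1],[1,1,0,-1,0,0,0,0,-1],(⟨0,[(22,0)]⟩,⟨0,[(23,0)]⟩),(⟨0,[(32,0)]⟩,⟨0,[(31,
  0)]⟩),⟨0,[(3,0)]⟩,.k,.k,(.x (-1) ⟨3,[(20,0),(0,0),(11,1),(0,3)]⟩ ⟨0,[(35,0)]⟩),.k,(.r (-1) ⟨3,[(1,
  3),(18,0),(0,0),(17,1)]⟩ ⟨0,[(0,0)]⟩),.k,⟨true,0,⟨0,[(1,0)]⟩,⟨0,[(0,0)]⟩⟩,⟨false,0,⟨0,[(17,0),(4,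
  0)]⟩,⟨4,[(8,2),(3,0),(7,0),(0,0),(1,4)]⟩⟩,⟨true,0,⟨0,[(37,0)]⟩,⟨0,[(38,0)]⟩⟩,⟨false,0,⟨0,[(5,0),
  (16,0),(0,0),(2,0)]⟩,⟨1,[(4,1),(4,0),(1,0)]⟩⟩,⟨false,0,⟨0,[]⟩,⟨3,[(20,0),(0,0),(18,1)]⟩⟩,⟨false,0,
  ⟨5,[(0,3),(4,1),(1,0),(11,1),(2,3),(3,1),(12,0)]⟩,⟨1,[(1,0),(2,0),(3,0),(6,0),(7,0),(12,0)]⟩⟩,[.o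
  ⟨false,0,⟨0,[(26,0)]⟩,⟨2,[(9,0),(5,0),(11,0),(5,0),(6,1)]⟩⟩,.o ⟨false,1,⟨3,[(20,0),(0,0),(4,3),
  (13,1)]⟩,⟨1,[(9,0),(1,0)]⟩⟩,.o ⟨false,1,⟨1,[(23,1),(9,0),(5,0)]⟩,⟨3,[(5,1),(1,0),(5,1),(6,0),(1,
  1)]⟩⟩,.a ⟨true,0,⟨0,[(23,0)]⟩,⟨0,[(22,0)]⟩⟩ ⟨false,1,⟨3,[(4,1),(1,1),(13,0),(1,1),(16,0)]⟩,⟨1,[(5,
  0),(1,0),(2,0),(12,0)]⟩⟩ ⟨true,0,⟨0,[(22,0),(3,0)]⟩,⟨1,[(9,0),(1,0),(11,1)]⟩⟩]⟩) (.R ⟨1,false,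
  false,true,[1,0,0,-1],[0,0,1],[0,0,0,0,0,0,0,0,-1],(⟨0,[(22,0)]⟩,⟨0,[(23,0)]⟩),(⟨0,[(32,0)]⟩,⟨0,
  [(31,0)]⟩),⟨0,[(3,0)]⟩,.k,.k,(.x (-1) ⟨3,[(20,0),(0,0),(11,1),(0,3)]⟩ ⟨0,[(35,0)]⟩),.k,(.x (-1)
  ⟨19,[(8,3),(3,7),(7,2),(0,2),(9,19),(1,9),(0,19)]⟩ ⟨1,[(14,0),(4,0),(12,0),(2,0)]⟩),.k,⟨true,0,⟨2,
  [(0,1),(1,0),(37,0)]⟩,⟨1,[(5,0),(1,0),(2,0),(7,1),(4,0),(2,1)]⟩⟩,⟨false,0,⟨0,[(17,0),(4,0)]⟩,⟨4,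
  [(8,2),(3,0),(7,0),(0,0),(1,4)]⟩⟩,⟨false,1,⟨3,[(20,0),(0,0),(18,1)]⟩,⟨0,[]⟩⟩,⟨false,0,⟨0,[(5,0),
  (16,0),(0,0),(2,0)]⟩,⟨1,[(4,1),(4,0),(1,0)]⟩⟩,⟨true,0,⟨0,[(38,0)]⟩,⟨0,[(37,0)]⟩⟩,⟨false,0,⟨1,[(5,
  0),(1,0),(2,0),(11,1),(0,0),(2,1)]⟩,⟨3,[(0,1),(3,2),(5,0),(1,0),(2,1),(7,0),(12,0)]⟩⟩,[.o ⟨false,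
  0,⟨0,[(26,0)]⟩,⟨2,[(9,0),(5,0),(11,0),(5,0),(6,1)]⟩⟩,.o ⟨false,1,⟨3,[(20,0),(0,0),(4,3),(13,1)]⟩,
  ⟨1,[(9,0),(1,0)]⟩⟩,.o ⟨false,1,⟨1,[(23,1),(9,0),(5,0)]⟩,⟨3,[(5,1),(1,0),(5,1),(6,0),(1,1)]⟩⟩,.a
  ⟨true,0,⟨0,[(23,0)]⟩,⟨0,[(22,0)]⟩⟩ ⟨false,1,⟨21,[(0,3),(1,1),(1,5),(3,5),(11,4),(1,5),(3,5),(9,9),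
  (2,6)]⟩,⟨3,[(5,1),(1,0),(13,0),(1,1),(13,1)]⟩⟩ ⟨true,0,⟨0,[(22,0),(3,0)]⟩,⟨1,[(9,0),(1,0),(11,
  1)]⟩⟩]⟩)) (.R ⟨1,false,false,true,[1,0,0,-1],[0,0,1],[0,1,0,0,0,0,0,0,-1],(⟨0,[(21,0)]⟩,⟨0,[(22,
  0)]⟩),(⟨0,[(31,0)]⟩,⟨0,[(30,0)]⟩),⟨0,[(2,0)]⟩,.k,.k,(.x (-1) ⟨3,[(19,0),(0,0),(11,1),(0,3)]⟩ ⟨0,
  [(34,0)]⟩),.k,(.r (-1) ⟨3,[(3,1),(1,1),(13,0),(1,1),(7,3),(8,0)]⟩ ⟨4,[(0,2),(5,0),(13,0),(4,1),(2,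
  1),(6,0)]⟩),.k,⟨true,0,⟨0,[(1,0),(3,0),(15,0),(0,0),(15,0)]⟩,⟨9,[(0,7),(5,0),(13,0),(4,1),(2,1),
  (6,5),(0,9)]⟩⟩,⟨false,0,⟨0,[(16,0),(4,0)]⟩,⟨4,[(7,2),(3,0),(7,0),(0,0),(1,4)]⟩⟩,⟨true,0,⟨0,[(41,
  0)]⟩,⟨0,[]⟩⟩,⟨false,0,⟨8,[(0,3),(3,4),(12,3),(0,4),(2,3),(3,4),(2,1),(6,1)]⟩,⟨1,[(3,1),(4,0),(1,
  0)]⟩⟩,⟨false,0,⟨0,[(37,0)]⟩,⟨0,[(36,0),(2,0)]⟩⟩,⟨false,0,⟨0,[(0,0),(20,0),(5,0)]⟩,⟨0,[(3,0),(1,0),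
  (2,0)]⟩⟩,[.o ⟨false,0,⟨0,[(25,0)]⟩,⟨2,[(8,0),(5,0),(11,0),(5,0),(6,1)]⟩⟩,.o ⟨false,1,⟨3,[(19,0),
  (0,0),(4,3),(13,1)]⟩,⟨1,[(8,0),(1,0)]⟩⟩,.o ⟨false,1,⟨1,[(22,1),(9,0),(5,0)]⟩,⟨3,[(4,1),(1,0),(5,
  1),(6,0),(1,1)]⟩⟩,.a ⟨true,0,⟨0,[(22,0)]⟩,⟨0,[(21,0)]⟩⟩ ⟨false,1,⟨1,[(19,0),(18,0)]⟩,⟨0,[(4,0),
  (17,0)]⟩⟩ ⟨true,0,⟨0,[(21,0),(3,0)]⟩,⟨1,[(8,0),(1,0),(11,1)]⟩⟩]⟩))))) (.K ⟨0,[0,0,0,1],0,0,(⟨0,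
  [(18,0)]⟩,⟨0,[(17,0)]⟩),.k,(.r (-1) ⟨0,[(5,0),(26,0)]⟩ ⟨1,[(2,0),(12,0)]⟩),(.x 0 ⟨0,[(30,0)]⟩ ⟨3,
  [(15,0),(0,0),(11,1),(0,3)]⟩),.k,.k,[⟨0,[(18,0)]⟩,⟨0,[(17,0)]⟩,⟨0,[(0,0)]⟩,⟨1,[(2,0),(5,1),(7,0),
  (0,1)]⟩]⟩))) (.Q [0,0,0,1,0,0,1,1,0,2,-1] (.p false [-1,1,1] [1] (⟨0,[(7,0)]⟩,⟨0,[(24,0),(2,0)]⟩)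
  .k 1 (⟨0,[]⟩,⟨0,[]⟩) .k .k) (.Q [0,0,0,-1,0,0,-1,-1,0,-1,1] (.p true [0,0,1] [1] (⟨0,[(26,0)]⟩,⟨0,
  [(25,0)]⟩) .k 1 (⟨0,[]⟩,⟨0,[]⟩) .k .k) (.R ⟨0,false,false,true,[1,0,-1],[2,-1,-1],[1,1,1],(⟨0,
  [(26,0)]⟩,⟨0,[(27,0)]⟩),(⟨0,[(26,0),(2,0)]⟩,⟨0,[(9,0)]⟩),⟨0,[(9,0)]⟩,.k,.k,.k,.k,.k,.k,⟨false,0,
  ⟨4,[(1,2),(5,2),(13,1),(1,0),(7,0),(1,1)]⟩,⟨1,[(2,0),(22,1),(8,0)]⟩⟩,⟨true,0,⟨1,[(7,0),(4,0),(10,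
  0)]⟩,⟨0,[(17,0),(0,0)]⟩⟩,⟨false,0,⟨3,[(1,0),(5,0),(5,0),(7,2),(2,0),(6,1)]⟩,⟨1,[(25,1),(8,0),(0,
  0)]⟩⟩,⟨true,0,⟨0,[(8,0)]⟩,⟨3,[(1,1),(2,0),(17,0),(10,0)]⟩⟩,⟨false,0,⟨0,[]⟩,⟨0,[]⟩⟩,⟨false,0,⟨0,
  []⟩,⟨0,[]⟩⟩,[.o ⟨false,0,⟨0,[(6,0)]⟩,⟨1,[(1,1),(26,0),(6,0)]⟩⟩,.a ⟨true,0,⟨0,[(0,0)]⟩,⟨0,[(1,
  0)]⟩⟩ ⟨false,0,⟨0,[]⟩,⟨3,[(15,0),(0,0),(17,1)]⟩⟩ ⟨true,0,⟨0,[(0,0),(11,0)]⟩,⟨0,[(1,0),(18,0)]⟩⟩,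
  .o ⟨false,1,⟨4,[(3,0),(3,1),(7,1),(0,1)]⟩,⟨0,[(12,0)]⟩⟩,.o ⟨false,0,⟨0,[(20,0)]⟩,⟨7,[(14,3),(0,0),
  (0,0),(11,1),(5,3)]⟩⟩]⟩) (.I [0,1,0,1,0,0,0,1] (.R ⟨2,true,false,false,[0,1],[1,0,-1],[0,1,1,1],
  (⟨0,[]⟩,⟨0,[]⟩),(⟨0,[(27,0)]⟩,⟨0,[(28,0)]⟩),⟨0,[]⟩,.k,.k,.k,.k,.k,.k,⟨false,0,⟨0,[(0,0)]⟩,⟨1,[(3,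
  0),(22,1),(9,0)]⟩⟩,⟨true,0,⟨0,[(21,0)]⟩,⟨1,[(15,0),(2,0),(0,0)]⟩⟩,⟨true,0,⟨0,[(38,0)]⟩,⟨0,[]⟩⟩,
  ⟨false,1,⟨0,[(11,0),(24,0)]⟩,⟨0,[(1,0)]⟩⟩,⟨false,0,⟨0,[(34,0)]⟩,⟨0,[(33,0),(2,0)]⟩⟩,⟨true,0,⟨1,
  [(5,0),(1,0)]⟩,⟨1,[(2,0),(19,0),(10,0)]⟩⟩,[]⟩) (.R ⟨0,false,false,false,[-1,1,1],[1,1,-1],[1,0,1,
  1,0,0,0,-1],(⟨0,[(10,0)]⟩,⟨0,[(27,0),(2,0)]⟩),(⟨0,[(27,0),(3,0)]⟩,⟨0,[(12,0)]⟩),⟨0,[(27,0)]⟩,.k,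
  .k,.k,.k,.k,.k,⟨true,0,⟨0,[]⟩,⟨1,[(24,0),(0,0)]⟩⟩,⟨false,1,⟨9,[(4,7),(3,5),(7,0),(0,0)]⟩,⟨4,[(0,
  1),(1,2),(12,3),(7,0),(9,0)]⟩⟩,⟨false,0,⟨1,[(0,0),(4,0),(7,0),(12,1)]⟩,⟨1,[(2,1),(0,0),(4,1),(13,
  1),(13,0)]⟩⟩,⟨true,0,⟨0,[(5,0),(1,0)]⟩,⟨0,[(0,0),(0,1),(12,0),(7,0)]⟩⟩,⟨false,0,⟨0,[]⟩,⟨0,[]⟩⟩,
  ⟨false,0,⟨0,[]⟩,⟨0,[]⟩⟩,[.o ⟨false,0,⟨1,[(5,0),(1,0),(26,1)]⟩,⟨0,[(22,0),(10,0),(2,0)]⟩⟩,.a ⟨true,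
  0,⟨0,[(5,0)]⟩,⟨0,[(0,0),(0,0),(12,0),(7,0)]⟩⟩ ⟨false,0,⟨0,[(5,0),(7,0)]⟩,⟨59,[(2,19),(0,29),(0,7),
  (3,15),(5,19),(1,10),(0,10),(4,39)]⟩⟩ ⟨true,0,⟨0,[(5,0),(2,0),(4,0)]⟩,⟨0,[(0,0),(1,0),(19,0),(10,
  0)]⟩⟩,.o ⟨false,1,⟨7,[(2,1),(0,0),(2,1),(8,3),(0,1),(0,0),(5,1),(11,1)]⟩,⟨0,[(8,0),(4,0)]⟩⟩,.o
  ⟨false,0,⟨9,[(0,1),(1,2),(12,3),(7,0),(9,0)]⟩,⟨19,[(4,3),(3,7),(7,2),(0,2),(11,9)]⟩⟩]⟩))) (.Q [0,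
  0,0,0,0,2,0,0,0,-1] (.pp true [-1,1]) (.Q [0,1,0,-1,0,0,1,1,0,1,-1] (.p false [0,0,1] [1] (⟨0,
  [(27,0)]⟩,⟨0,[(26,0)]⟩) .k 1 (⟨0,[]⟩,⟨0,[]⟩) .k .k) (.R ⟨0,false,false,true,[1,-1],[0,-1,1],[1],
  (⟨0,[(30,0)]⟩,⟨0,[(31,0)]⟩),(⟨0,[(12,0)]⟩,⟨0,[(27,0),(3,0)]⟩),⟨0,[(1,0)]⟩,.k,.k,(.x 0 ⟨0,[(8,0),
  (4,0),(10,0),(5,1)]⟩ ⟨0,[(31,1),(3,0)]⟩),.k,.k,.k,⟨false,0,⟨0,[(5,0),(7,0)]⟩,⟨4,[(0,4),(3,2),(3,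
  0),(7,0),(0,0)]⟩⟩,⟨true,0,⟨1,[(15,0),(2,0),(0,0)]⟩,⟨0,[(21,0)]⟩⟩,⟨false,0,⟨3,[(24,0),(0,0),(6,1),
  (1,3)]⟩,⟨3,[(3,1),(12,0),(0,0)]⟩⟩,⟨true,0,⟨0,[(0,0),(33,0)]⟩,⟨1,[(5,0),(1,0)]⟩⟩,⟨false,0,⟨0,[]⟩,
  ⟨0,[]⟩⟩,⟨false,0,⟨0,[]⟩,⟨0,[]⟩⟩,[.a ⟨true,0,⟨0,[(0,0)]⟩,⟨0,[(5,0)]⟩⟩ ⟨true,0,⟨0,[]⟩,⟨1,[(24,0),(0,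
  0)]⟩⟩ ⟨false,1,⟨0,[(0,0),(34,0)]⟩,⟨9,[(2,1),(2,7),(2,2),(15,5),(7,0),(1,3)]⟩⟩,.o ⟨false,1,⟨1,[(0,
  1),(28,0),(6,0)]⟩,⟨1,[(5,0),(1,0),(26,1)]⟩⟩,.o ⟨false,0,⟨1,[(8,0),(4,0),(10,0)]⟩,⟨3,[(16,0),(0,0),
  (17,1)]⟩⟩,.o ⟨false,0,⟨0,[(21,0),(2,0)]⟩,⟨0,[(35,0)]⟩⟩]⟩) (.Q [0,0,1,-1,0,0,1,1,1,1,-1,-1] (.p
  false [0,0,1] [1,0,0,-1] (⟨0,[(28,0)]⟩,⟨0,[(27,0)]⟩) .k 2 (⟨0,[(18,0)]⟩,⟨0,[(19,0)]⟩) .k (.x 0 ⟨0,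
  [(24,0),(3,0)]⟩ ⟨4,[(4,2),(3,0),(7,0),(0,0),(9,4)]⟩)) (.I [1,-1,-1,0,1,0,0,0,-1] (.Q [0,0,1,1,-1,
  0,-1,-1,1,0,1,-1] (.p true [0,0,1] [0,0,0,1] (⟨0,[(30,0)]⟩,⟨0,[(29,0)]⟩) .k 2 (⟨0,[(21,0)]⟩,⟨0,
  [(20,0)]⟩) .k (.x (-1) ⟨7,[(17,3),(0,0),(0,0),(10,7),(0,1),(5,3)]⟩ ⟨0,[(23,0),(5,0)]⟩)) (.R ⟨1,
  true,false,false,[0,0,1],[0,0,0,1],[0,1,0,0,0,0,0,1],(⟨0,[(31,0)]⟩,⟨0,[(30,0)]⟩),(⟨0,[(22,0)]⟩,⟨0,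
  [(21,0)]⟩),⟨0,[(15,0)]⟩,.k,.k,.k,.k,(.r (-2) ⟨1,[(1,0),(7,0),(7,1),(1,0),(5,1),(13,0)]⟩ ⟨0,[(0,0),
  (15,0),(5,0)]⟩),.k,⟨false,1,⟨0,[(1,0),(15,0),(7,0),(11,0)]⟩,⟨10,[(0,6),(2,0),(1,1),(0,2),(2,3),(8,
  4),(3,6),(6,0),(5,2)]⟩⟩,⟨true,0,⟨4,[(0,0),(1,0),(8,1),(7,0),(1,2),(6,0)]⟩,⟨0,[(16,0),(5,0)]⟩⟩,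
  ⟨true,0,⟨0,[(41,0)]⟩,⟨0,[]⟩⟩,⟨false,0,⟨13,[(0,9),(1,3),(3,0),(7,3),(11,3),(8,1),(3,8)]⟩,⟨0,[(1,0),
  (20,0),(2,0)]⟩⟩,⟨false,0,⟨0,[(37,0)]⟩,⟨0,[(36,0),(2,0)]⟩⟩,⟨true,(-1),⟨0,[(0,0)]⟩,⟨1,[(6,0),(12,0),
  (2,1),(2,1)]⟩⟩,[]⟩) (.Q [0,0,0,0,0,1,0,0,0,-1,0,1] (.p true [0,0,0,1] [1] (⟨0,[(22,0)]⟩,⟨0,[(21,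
  0)]⟩) .k 1 (⟨0,[]⟩,⟨0,[]⟩) .k .k) (.I [1,0,-2,-1,1,0,0,0,-1] (.R ⟨0,false,false,false,[1,0,0,-1],
  [0,1],[1,0,0,0,0,0,0,0,-1],(⟨0,[(23,0)]⟩,⟨0,[(24,0)]⟩),(⟨0,[(36,0)]⟩,⟨0,[(35,0)]⟩),⟨0,[(1,0)]⟩,.k,
  .k,(.x (-1) ⟨3,[(21,0),(0,0),(11,1),(0,3)]⟩ ⟨0,[(36,0)]⟩),(.x (-1) ⟨3,[(21,0),(0,0),(11,1),(0,
  3)]⟩ ⟨0,[(36,0)]⟩),.k,.k,⟨false,1,⟨0,[(0,0)]⟩,⟨1,[(4,1),(0,0),(18,1),(0,0),(13,2)]⟩⟩,⟨true,0,⟨0,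
  [(23,0)]⟩,⟨1,[(13,0),(4,0),(5,1),(4,0)]⟩⟩,⟨true,0,⟨0,[]⟩,⟨0,[(43,0)]⟩⟩,⟨false,0,⟨0,[(4,0),(5,0),
  (28,0)]⟩,⟨1,[(2,0),(0,0),(8,0),(11,0)]⟩⟩,⟨false,0,⟨0,[]⟩,⟨0,[]⟩⟩,⟨false,0,⟨0,[]⟩,⟨0,[]⟩⟩,[.o
  ⟨false,0,⟨0,[(39,0)]⟩,⟨15,[(2,3),(1,3),(11,7),(4,0),(0,0),(11,5),(6,3)]⟩⟩,.o ⟨false,1,⟨3,[(21,0),
  (0,0),(16,3),(1,1)]⟩,⟨0,[(14,0)]⟩⟩,.o ⟨false,1,⟨1,[(24,1),(9,0),(5,0)]⟩,⟨1,[(13,0),(4,0),(4,1),(5,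
  0)]⟩⟩,.a ⟨true,0,⟨0,[(24,0)]⟩,⟨0,[(23,0)]⟩⟩ ⟨false,1,⟨0,[(3,0)]⟩,⟨1,[(4,1),(0,0),(18,1),(0,0),(13,
  0)]⟩⟩ ⟨true,0,⟨0,[(23,0),(15,0)]⟩,⟨0,[(14,0),(9,0)]⟩⟩]⟩) (.R ⟨0,false,false,false,[1,0,0,-1],[1,0,
  -1],[0,1,0,0,0,0,0,0,-1],(⟨0,[(23,0)]⟩,⟨0,[(24,0)]⟩),(⟨0,[(32,0)]⟩,⟨0,[(33,0)]⟩),⟨0,[(1,0)]⟩,.k,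
  .k,(.x (-1) ⟨3,[(21,0),(0,0),(11,1),(0,3)]⟩ ⟨0,[(36,0)]⟩),.k,.k,.k,⟨false,1,⟨0,[(3,0),(15,0),(7,
  0),(11,0)]⟩,⟨1,[(0,1),(4,0),(2,1),(1,0),(9,0)]⟩⟩,⟨true,0,⟨0,[(23,0),(2,0)]⟩,⟨0,[(18,0),(5,0)]⟩⟩,
  ⟨true,0,⟨0,[(43,0)]⟩,⟨0,[]⟩⟩,⟨false,0,⟨4,[(0,0),(3,1),(2,1),(2,3),(5,0),(5,0),(0,2),(13,0)]⟩,⟨0,
  [(2,0),(36,0)]⟩⟩,⟨false,0,⟨0,[]⟩,⟨0,[]⟩⟩,⟨false,0,⟨0,[]⟩,⟨0,[]⟩⟩,[.o ⟨false,0,⟨2,[(5,0),(1,0),(20,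
  0)]⟩,⟨3,[(21,0),(0,0),(4,3),(13,1)]⟩⟩,.o ⟨false,1,⟨11,[(5,1),(1,1),(20,7),(5,2),(6,8)]⟩,⟨0,[(27,
  0)]⟩⟩,.o ⟨false,1,⟨1,[(24,1),(9,0),(5,0)]⟩,⟨1,[(13,0),(4,0),(4,1),(5,0)]⟩⟩,.a ⟨true,0,⟨0,[(24,
  0)]⟩,⟨0,[(23,0)]⟩⟩ ⟨false,1,⟨1,[(21,0),(18,0)]⟩,⟨3,[(0,1),(7,0),(13,0),(14,1)]⟩⟩ ⟨true,0,⟨2,[(5,
  0),(1,0),(15,2),(4,0)]⟩,⟨0,[(24,0),(2,0)]⟩⟩]⟩)) (.I [1,0,1,0,0,0,0,1,1] (.Q [0,0,1,2,-1,0,-1,-1,1,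
  0,1,-1] (.p true [0,0,1] [0,0,0,1] (⟨0,[(33,0)]⟩,⟨0,[(32,0)]⟩) .k 2 (⟨0,[(24,0)]⟩,⟨0,[(23,0)]⟩)
  .k (.x (-1) ⟨7,[(20,3),(0,0),(0,0),(10,7),(0,1),(5,3)]⟩ ⟨0,[(26,0),(5,0)]⟩)) (.I [0,0,1,1,-1,0,0,
  -1,1] (.R ⟨1,true,false,false,[1,0,0,-1],[1,1,-1],[0,1,0,0,0,0,0,0,-1],(⟨0,[(25,0)]⟩,⟨0,[(26,
  0)]⟩),(⟨0,[(34,0),(3,0)]⟩,⟨0,[(19,0)]⟩),⟨0,[(3,0)]⟩,.k,.k,(.x (-1) ⟨3,[(23,0),(0,0),(11,1),(0,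
  3)]⟩ ⟨0,[(38,0)]⟩),(.r (-2) ⟨13,[(2,3),(1,5),(1,3),(4,5),(1,3),(7,3),(1,10),(0,0),(0,1)]⟩ ⟨0,[(0,
  0)]⟩),(.r (-2) ⟨3,[(4,1),(0,1),(0,1),(3,0),(0,1),(9,1),(1,0)]⟩ ⟨1,[(0,2),(1,0),(20,0),(17,0)]⟩),
  .k,⟨true,1,⟨0,[(5,0),(15,0),(7,0)]⟩,⟨3,[(0,3),(30,0),(0,0),(6,1)]⟩⟩,⟨false,1,⟨4,[(11,2),(3,0),(7,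
  0),(0,0),(0,4)]⟩,⟨0,[(20,0),(5,0)]⟩⟩,⟨true,0,⟨0,[(45,0)]⟩,⟨0,[]⟩⟩,⟨false,0,⟨3,[(1,2),(4,0),(11,0),
  (11,0),(12,2)]⟩,⟨0,[(4,0)]⟩⟩,⟨false,0,⟨0,[(41,0)]⟩,⟨0,[(40,0),(2,0)]⟩⟩,⟨true,(-1),⟨0,[(1,0)]⟩,⟨0,
  [(4,0),(35,0)]⟩⟩,[]⟩) (.R ⟨1,true,false,false,[1,0,0,-1],[1,1,-1],[0,1,0,0,0,0,0,0,-1],(⟨0,[(25,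
  0)]⟩,⟨0,[(26,0)]⟩),(⟨0,[(34,0),(3,0)]⟩,⟨0,[(19,0)]⟩),⟨0,[(3,0)]⟩,.k,.k,(.x (-1) ⟨3,[(23,0),(0,0),
  (11,1),(0,3)]⟩ ⟨0,[(38,0)]⟩),(.x 0 ⟨0,[(19,0),(0,0)]⟩ ⟨19,[(8,9),(2,5),(3,1),(7,6),(0,6),(7,9),(1,
  19)]⟩),(.r (-2) ⟨3,[(0,3),(9,1),(12,0),(0,0)]⟩ ⟨0,[(1,0),(24,0),(4,0)]⟩),.k,⟨true,1,⟨0,[(0,0),(44,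
  0)]⟩,⟨1,[(1,1),(14,0),(5,0),(3,1),(12,1),(0,0)]⟩⟩,⟨false,1,⟨4,[(11,2),(3,0),(7,0),(0,0),(0,4)]⟩,
  ⟨0,[(20,0),(5,0)]⟩⟩,⟨true,0,⟨0,[(45,0)]⟩,⟨0,[]⟩⟩,⟨false,0,⟨3,[(1,2),(4,0),(11,0),(11,0),(12,2)]⟩,
  ⟨0,[(4,0)]⟩⟩,⟨false,0,⟨0,[(41,0)]⟩,⟨0,[(40,0),(2,0)]⟩⟩,⟨true,(-1),⟨0,[(1,0)]⟩,⟨0,[(4,0),(35,0)]⟩⟩,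
  []⟩)) (.I [0,0,-2,-1,1,0,0,0,-1] (.R ⟨1,false,false,true,[1,0,0,-1],[-1,1,1],[0,1,0,0,0,0,0,0,-1],
  (⟨0,[(25,0)]⟩,⟨0,[(26,0)]⟩),(⟨0,[(17,0)]⟩,⟨0,[(34,0),(2,0)]⟩),⟨0,[(3,0)]⟩,.k,.k,(.x (-1) ⟨3,[(23,
  0),(0,0),(11,1),(0,3)]⟩ ⟨0,[(38,0)]⟩),(.r (-1) ⟨1,[(10,0),(12,0),(9,1)]⟩ ⟨0,[(2,0),(38,0)]⟩),(.r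
  (-1) ⟨1,[(0,1),(8,1),(12,0),(2,2),(0,2)]⟩ ⟨1,[(2,1),(28,0),(0,0),(8,3)]⟩),.k,⟨false,1,⟨0,[(0,0),
  (32,0)]⟩,⟨0,[(2,0),(38,0)]⟩⟩,⟨true,0,⟨1,[(22,0),(2,2),(0,0)]⟩,⟨0,[(15,0),(4,0),(5,0)]⟩⟩,⟨true,0,
  ⟨0,[(45,0)]⟩,⟨0,[]⟩⟩,⟨false,0,⟨1,[(2,1),(19,0),(2,2),(0,0),(14,1)]⟩,⟨0,[(5,0),(3,0),(16,0)]⟩⟩,
  ⟨false,0,⟨0,[(41,0)]⟩,⟨3,[(1,0),(4,0),(11,0),(11,0),(12,2)]⟩⟩,⟨false,0,⟨1,[(2,1),(19,0),(2,2),(0,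
  0),(14,3)]⟩,⟨0,[(1,0),(7,0),(2,0)]⟩⟩,[.o ⟨false,0,⟨0,[(25,0),(0,0),(2,0),(11,0)]⟩,⟨3,[(9,1),(8,1),
  (17,0),(6,2)]⟩⟩,.o ⟨false,1,⟨3,[(2,1),(1,1),(17,0),(0,0),(0,0),(0,2),(0,0),(14,5)]⟩,⟨0,[(9,0)]⟩⟩,
  .o ⟨false,1,⟨1,[(26,1),(9,0),(5,0)]⟩,⟨2,[(3,1),(4,0),(6,0),(9,0),(5,1)]⟩⟩,.a ⟨true,0,⟨0,[(26,0)]⟩,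
  ⟨0,[(25,0)]⟩⟩ ⟨false,1,⟨1,[(23,0),(18,0)]⟩,⟨0,[(6,0),(0,0),(18,0)]⟩⟩ ⟨true,0,⟨0,[(25,1),(0,0),(2,
  0),(11,0)]⟩,⟨0,[(9,0),(16,0)]⟩⟩]⟩) (.R ⟨1,false,false,false,[1,0,0,-1],[1,0,-1],[0,1,0,0,0,0,0,0,
  -1],(⟨0,[(25,0)]⟩,⟨0,[(26,0)]⟩),(⟨0,[(34,0)]⟩,⟨0,[(35,0)]⟩),⟨0,[(3,0)]⟩,.k,.k,(.x (-1) ⟨3,[(23,0),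
  (0,0),(11,1),(0,3)]⟩ ⟨0,[(38,0)]⟩),.k,(.x 0 ⟨0,[(19,0),(0,0)]⟩ ⟨19,[(8,9),(2,5),(3,1),(7,6),(0,6),
  (7,9),(1,19)]⟩),.k,⟨false,1,⟨0,[(5,0),(15,0),(7,0),(11,0)]⟩,⟨1,[(0,1),(6,0),(2,1),(1,0),(9,0)]⟩⟩,
  ⟨true,0,⟨13,[(0,1),(5,1),(8,6),(7,1),(1,11),(4,1),(8,0)]⟩,⟨0,[(20,0),(5,0)]⟩⟩,⟨true,0,⟨0,[(45,
  0)]⟩,⟨0,[]⟩⟩,⟨false,0,⟨4,[(0,0),(5,1),(2,1),(2,3),(5,0),(5,0),(0,2),(13,0)]⟩,⟨0,[(4,0),(36,0)]⟩⟩,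
  ⟨false,0,⟨0,[(41,0)]⟩,⟨3,[(1,0),(4,0),(11,0),(11,0),(12,2)]⟩⟩,⟨false,0,⟨11,[(0,5),(6,7),(1,1),(14,
  2),(0,11),(4,1),(12,2)]⟩,⟨0,[(4,0)]⟩⟩,[.o ⟨false,0,⟨2,[(7,0),(1,0),(20,0)]⟩,⟨3,[(23,0),(0,0),(4,
  3),(13,1)]⟩⟩,.o ⟨false,1,⟨11,[(7,1),(1,1),(20,7),(5,2),(6,8)]⟩,⟨0,[(29,0)]⟩⟩,.o ⟨false,1,⟨1,[(26,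
  1),(9,0),(5,0)]⟩,⟨2,[(3,1),(4,0),(6,0),(9,0),(5,1)]⟩⟩,.a ⟨true,0,⟨0,[(26,0)]⟩,⟨0,[(25,0)]⟩⟩
  ⟨false,1,⟨1,[(23,0),(18,0)]⟩,⟨3,[(0,1),(9,0),(13,0),(14,1)]⟩⟩ ⟨true,0,⟨2,[(7,0),(1,0),(15,2),(4,
  0)]⟩,⟨0,[(26,0),(2,0)]⟩⟩]⟩))) (.R ⟨1,false,false,false,[1,0,0,-1],[0,1],[0,0,0,0,0,0,0,0,-1],(⟨0,
  [(23,0)]⟩,⟨0,[(24,0)]⟩),(⟨0,[(36,0)]⟩,⟨0,[(35,0)]⟩),⟨0,[(1,0)]⟩,.k,.k,(.x (-1) ⟨3,[(21,0),(0,0),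
  (11,1),(0,3)]⟩ ⟨0,[(36,0)]⟩),(.x (-1) ⟨3,[(21,0),(0,0),(11,1),(0,3)]⟩ ⟨0,[(36,0)]⟩),(.r (-1) ⟨4,
  [(0,3),(1,0),(5,2),(0,0),(9,2),(3,0),(3,2),(9,2)]⟩ ⟨5,[(4,5),(0,1),(4,0),(2,1),(10,5),(3,2),(0,3),
  (9,14)]⟩),.k,⟨false,1,⟨4,[(0,2),(1,1),(5,0),(0,1),(9,0),(3,1),(3,0),(9,0)]⟩,⟨1,[(4,1),(0,0),(18,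
  1),(0,0),(13,2)]⟩⟩,⟨true,0,⟨0,[(23,0)]⟩,⟨1,[(13,0),(4,0),(5,1),(4,0)]⟩⟩,⟨false,1,⟨3,[(21,0),(0,0),
  (18,1)]⟩,⟨0,[]⟩⟩,⟨false,0,⟨0,[(4,0),(5,0),(28,0)]⟩,⟨1,[(2,0),(0,0),(8,0),(11,0)]⟩⟩,⟨true,0,⟨0,
  [(39,0)]⟩,⟨0,[(38,0)]⟩⟩,⟨false,0,⟨0,[(4,0),(5,0),(28,1)]⟩,⟨6,[(0,0),(1,5),(4,1),(0,0),(7,2),(2,0),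
  (4,0),(12,1)]⟩⟩,[.o ⟨false,0,⟨0,[(39,0)]⟩,⟨15,[(2,3),(1,3),(11,7),(4,0),(0,0),(11,5),(6,3)]⟩⟩,.o
  ⟨false,1,⟨3,[(21,0),(0,0),(16,3),(1,1)]⟩,⟨0,[(14,0)]⟩⟩,.o ⟨false,1,⟨1,[(24,1),(9,0),(5,0)]⟩,⟨2,
  [(1,1),(4,0),(6,0),(9,0),(5,1)]⟩⟩,.a ⟨true,0,⟨0,[(24,0)]⟩,⟨0,[(23,0)]⟩⟩ ⟨false,1,⟨0,[(0,0),(4,1),
  (1,1),(1,0),(7,6),(9,4),(4,6),(3,6),(0,1)]⟩,⟨1,[(4,1),(0,0),(18,1),(0,0),(13,0)]⟩⟩ ⟨true,0,⟨0,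
  [(23,0),(15,0)]⟩,⟨0,[(14,0),(9,0)]⟩⟩]⟩)))) (.Q [0,1,1,0,-1,0,0,0,1,0,0,-1] (.p false [0,0,0,1] []
  (⟨0,[(21,0)]⟩,⟨0,[(20,0)]⟩) .k 0 (⟨0,[]⟩,⟨0,[]⟩) .k .k) (.K ⟨0,[0,0,0,1],0,(-1),(⟨0,[(22,0)]⟩,⟨0,
  [(21,0)]⟩),.k,(.x 0 ⟨0,[(24,0),(2,0),(5,0)]⟩ ⟨0,[(34,0),(3,0)]⟩),(.x 0 ⟨0,[(34,0)]⟩ ⟨3,[(19,0),(0,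
  0),(11,1),(0,3)]⟩),.k,.k,[⟨0,[(22,0)]⟩,⟨0,[(21,0)]⟩,⟨1,[(19,0),(2,1),(15,0),(2,1)]⟩,⟨0,[(0,
  0)]⟩]⟩) (.R ⟨1,true,false,false,[0,0,1],[0,0,0,1],[0,1,0,0,0,0,0,1],(⟨0,[(31,0)]⟩,⟨0,[(30,0)]⟩),
  (⟨0,[(22,0)]⟩,⟨0,[(21,0)]⟩),⟨0,[(15,0)]⟩,.k,.k,.k,.k,(.r (-2) ⟨59,[(0,39),(1,39),(4,31),(3,3),(5,
  19),(1,38),(0,8),(4,19)]⟩ ⟨1,[(1,1),(1,0),(4,0),(9,0)]⟩),.k,⟨false,1,⟨0,[(0,0),(2,0),(13,0),(3,0),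
  (3,1)]⟩,⟨2,[(1,1),(1,0),(2,0),(1,0),(0,0),(8,0),(10,0),(5,0)]⟩⟩,⟨true,0,⟨0,[(21,0),(2,0)]⟩,⟨0,
  [(16,0),(5,0)]⟩⟩,⟨true,0,⟨0,[(41,0)]⟩,⟨0,[]⟩⟩,⟨false,0,⟨2,[(2,2),(0,0),(1,0),(2,2),(17,0)]⟩,⟨0,
  [(0,0),(24,0)]⟩⟩,⟨false,0,⟨0,[(37,0)]⟩,⟨0,[(36,0),(2,0)]⟩⟩,⟨true,(-1),⟨0,[(1,0),(1,0),(17,0)]⟩,⟨1,
  [(6,0),(12,0),(2,1),(2,1)]⟩⟩,[]⟩))) (.Q [0,1,-1,0,0,0,0,0,-1,0,0,1] (.p true [0,0,0,1] [] (⟨0,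
  [(20,0)]⟩,⟨0,[(19,0)]⟩) .k 0 (⟨0,[]⟩,⟨0,[]⟩) .k .k) (.Q [0,1,1,0,0,0,0,0,1,0,0,-1] (.p false [0,0,
  0,1] [] (⟨0,[(21,0)]⟩,⟨0,[(20,0)]⟩) .k 0 (⟨0,[]⟩,⟨0,[]⟩) .k .k) (.K ⟨0,[0,0,0,1],0,0,(⟨0,[(22,
  0)]⟩,⟨0,[(21,0)]⟩),.k,(.r (-1) ⟨1,[(6,0),(13,0)]⟩ ⟨1,[(1,1),(9,0),(9,1),(5,1),(7,0),(1,1)]⟩),(.x
  0 ⟨0,[(34,0)]⟩ ⟨3,[(19,0),(0,0),(11,1),(0,3)]⟩),.k,.k,[⟨0,[(22,0)]⟩,⟨0,[(21,0)]⟩,⟨0,[(1,0)]⟩,⟨0,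
  [(0,0)]⟩]⟩) (.Q [0,0,0,0,0,-1,0,0,0,1,0,-1] (.p false [0,0,0,1] [1] (⟨0,[(22,0)]⟩,⟨0,[(21,0)]⟩)
  .k 1 (⟨0,[]⟩,⟨0,[]⟩) .k .k) (.I [0,0,-2,-1,0,0,0,-1,-1] (.Q [0,0,-1,-1,0,0,1,1,-1,0,-1,1] (.p
  false [0,0,1] [0,0,0,1] (⟨0,[(33,0)]⟩,⟨0,[(32,0)]⟩) .k 2 (⟨0,[(24,0)]⟩,⟨0,[(23,0)]⟩) .k (.r 0 ⟨1,
  [(2,0),(0,0),(9,0),(9,1),(3,1),(9,0)]⟩ ⟨3,[(21,0),(0,2),(8,3)]⟩)) (.Q [0,-1,-1,-2,0,0,-1,-1,-1,-2,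
  1,1] (.p true [-1,1,1] [1,0,0,-1] (⟨0,[(16,0)]⟩,⟨0,[(33,0),(2,0)]⟩) .k 2 (⟨0,[(24,0)]⟩,⟨0,[(25,
  0)]⟩) .k (.r (-1) ⟨0,[(12,0),(15,0),(2,0)]⟩ ⟨1,[(1,0),(3,0),(18,0),(5,1),(0,0)]⟩)) (.R ⟨1,false,
  false,true,[1,0,0,-1],[-1,1,1],[0,1,0,0,0,0,0,0,-1],(⟨0,[(25,0)]⟩,⟨0,[(26,0)]⟩),(⟨0,[(17,0)]⟩,⟨0,
  [(34,0),(2,0)]⟩),⟨0,[(3,0)]⟩,.k,.k,(.x (-1) ⟨3,[(23,0),(0,0),(11,1),(0,3)]⟩ ⟨0,[(38,0)]⟩),(.r 0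
  ⟨8,[(0,1),(1,4),(2,1),(19,3),(4,1),(0,3),(7,0)]⟩ ⟨1,[(24,0),(4,1),(2,1),(8,1),(1,0)]⟩),(.x 0 ⟨3,
  [(7,1),(1,1),(5,2),(4,1),(8,3),(4,3),(2,7),(1,0)]⟩ ⟨3,[(8,1),(13,1),(0,0),(0,0),(10,3),(2,3),(3,
  1)]⟩),.k,⟨false,0,⟨0,[(2,0)]⟩,⟨1,[(24,0),(4,1),(2,1),(8,1),(1,0)]⟩⟩,⟨true,0,⟨1,[(22,0),(2,2),(0,
  0)]⟩,⟨0,[(15,0),(4,0),(5,0)]⟩⟩,⟨true,0,⟨0,[(45,0)]⟩,⟨0,[]⟩⟩,⟨false,1,⟨1,[(22,0),(1,0),(0,2),(0,0),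
  (2,1),(2,1),(8,1),(1,0)]⟩,⟨6,[(0,4),(0,0),(4,0),(0,2),(21,0)]⟩⟩,⟨false,0,⟨0,[(41,0)]⟩,⟨0,[(40,0),
  (2,0)]⟩⟩,⟨false,1,⟨1,[(22,0),(1,0),(0,2),(0,0),(2,1),(2,1),(8,3),(1,0)]⟩,⟨0,[(0,0)]⟩⟩,[.o ⟨false,
  0,⟨0,[(25,0),(0,0),(2,0),(11,0)]⟩,⟨3,[(9,1),(8,1),(17,0),(6,2)]⟩⟩,.o ⟨false,1,⟨3,[(23,0),(0,0),(0,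
  3),(0,3),(2,3),(11,3),(1,1)]⟩,⟨0,[(9,0)]⟩⟩,.o ⟨false,1,⟨1,[(5,0),(7,0),(12,0),(9,0)]⟩,⟨2,[(3,1),
  (4,0),(6,0),(9,0),(5,1)]⟩⟩,.a ⟨true,0,⟨0,[(26,0)]⟩,⟨0,[(25,0)]⟩⟩ ⟨false,0,⟨1,[(1,0),(1,1),(2,0),
  (1,0)]⟩,⟨1,[(24,0),(6,0),(0,0),(10,0)]⟩⟩ ⟨true,0,⟨0,[(25,1),(0,0),(2,0),(11,0)]⟩,⟨0,[(9,0),(16,
  0)]⟩⟩]⟩) (.R ⟨1,true,false,false,[1,0,0,-1],[1,1,-1],[0,1,0,0,0,0,0,0,-1],(⟨0,[(25,0)]⟩,⟨0,[(26,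
  0)]⟩),(⟨0,[(34,0),(3,0)]⟩,⟨0,[(19,0)]⟩),⟨0,[(3,0)]⟩,.k,.k,(.x (-1) ⟨3,[(23,0),(0,0),(11,1),(0,
  3)]⟩ ⟨0,[(38,0)]⟩),(.r (-1) ⟨12,[(0,3),(0,8),(8,5),(0,0),(3,5),(7,3),(1,4),(17,1)]⟩ ⟨0,[(0,1),(1,
  0),(6,1),(16,1),(12,0)]⟩),(.r (-1) ⟨51,[(0,5),(0,45),(8,34),(0,7),(3,21),(7,5),(1,39),(17,2)]⟩ ⟨3,
  [(0,3),(6,1),(1,1),(5,0),(10,3),(4,1),(1,3),(5,0)]⟩),.k,⟨true,0,⟨2,[(0,0),(0,2),(0,0),(0,1),(3,0),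
  (0,0),(6,0),(5,1),(7,0)]⟩,⟨0,[(0,0),(8,0),(16,0),(6,0),(5,0)]⟩⟩,⟨false,1,⟨4,[(11,2),(3,0),(7,0),
  (0,0),(0,4)]⟩,⟨0,[(20,0),(5,0)]⟩⟩,⟨true,0,⟨0,[(45,0)]⟩,⟨0,[]⟩⟩,⟨false,1,⟨23,[(0,9),(6,3),(7,13),
  (8,6),(0,13),(4,1),(2,27),(2,0),(6,15)]⟩,⟨0,[(1,0)]⟩⟩,⟨false,0,⟨0,[(41,0)]⟩,⟨0,[(40,0),(2,0)]⟩⟩,
  ⟨true,0,⟨0,[(0,0),(8,0),(2,0)]⟩,⟨0,[(1,0),(38,0)]⟩⟩,[]⟩)) (.R ⟨1,true,false,false,[0,0,1],[0,0,0,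
  1],[0,1,0,0,0,0,0,1],(⟨0,[(34,0)]⟩,⟨0,[(33,0)]⟩),(⟨0,[(25,0)]⟩,⟨0,[(24,0)]⟩),⟨0,[(18,0)]⟩,.k,.k,
  .k,.k,(.r (-1) ⟨31,[(3,17),(5,8),(0,1),(3,7),(5,13),(1,6),(1,17),(3,31),(13,13)]⟩ ⟨0,[(0,0),(18,
  0),(5,0)]⟩),.k,⟨false,0,⟨1,[(2,1),(0,1),(2,0),(0,0),(12,1),(7,2),(11,0)]⟩,⟨1,[(23,0),(8,1),(9,
  0)]⟩⟩,⟨true,0,⟨0,[(24,0),(2,0)]⟩,⟨0,[(19,0),(5,0)]⟩⟩,⟨true,0,⟨0,[(44,0)]⟩,⟨0,[]⟩⟩,⟨false,1,⟨0,[(0,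
  0),(38,0),(2,0)]⟩,⟨0,[(3,0),(24,0)]⟩⟩,⟨false,0,⟨0,[(40,0)]⟩,⟨0,[(39,0),(2,0)]⟩⟩,⟨true,0,⟨0,[(0,
  0)]⟩,⟨0,[(3,0),(24,0),(10,0)]⟩⟩,[]⟩)) (.Q [0,0,1,1,0,0,-1,-1,1,0,1,-1] (.p true [0,0,1] [0,0,0,1]
  (⟨0,[(33,0)]⟩,⟨0,[(32,0)]⟩) .k 2 (⟨0,[(24,0)]⟩,⟨0,[(23,0)]⟩) .k (.r 0 ⟨1,[(2,0),(0,0),(9,0),(9,1),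
  (3,1),(9,0)]⟩ ⟨3,[(21,0),(0,2),(8,3)]⟩)) (.R ⟨1,true,false,false,[0,0,1],[0,0,0,1],[0,1,0,0,0,0,0,
  1],(⟨0,[(34,0)]⟩,⟨0,[(33,0)]⟩),(⟨0,[(25,0)]⟩,⟨0,[(24,0)]⟩),⟨0,[(18,0)]⟩,.k,.k,.k,.k,(.r (-1) ⟨2,
  [(1,0),(1,1),(5,1),(4,0),(7,0),(1,1),(3,1)]⟩ ⟨0,[(0,0),(18,0),(5,0)]⟩),.k,⟨false,0,⟨1,[(2,1),(0,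
  1),(2,0),(0,0),(12,1),(7,2),(11,0)]⟩,⟨1,[(23,0),(8,1),(9,0)]⟩⟩,⟨true,0,⟨0,[(24,0),(2,0)]⟩,⟨0,[(19,
  0),(5,0)]⟩⟩,⟨true,0,⟨0,[(44,0)]⟩,⟨0,[]⟩⟩,⟨false,1,⟨0,[(0,0),(38,0),(2,0)]⟩,⟨0,[(3,0),(24,0)]⟩⟩,
  ⟨false,0,⟨0,[(40,0)]⟩,⟨0,[(39,0),(2,0)]⟩⟩,⟨true,0,⟨0,[(0,0)]⟩,⟨0,[(3,0),(24,0),(10,0)]⟩⟩,[]⟩) (.R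
  ⟨1,false,false,false,[1,0,0,-1],[1,0,-1],[0,1,0,0,0,0,0,0,-1],(⟨0,[(24,0)]⟩,⟨0,[(25,0)]⟩),(⟨0,
  [(33,0)]⟩,⟨0,[(34,0)]⟩),⟨0,[(2,0)]⟩,.k,.k,(.x (-1) ⟨3,[(22,0),(0,0),(11,1),(0,3)]⟩ ⟨0,[(37,0)]⟩),
  .k,(.x 0 ⟨0,[(18,0),(0,0)]⟩ ⟨19,[(7,9),(2,5),(3,1),(7,6),(0,6),(7,9),(1,19)]⟩),.k,⟨false,0,⟨1,[(0,
  1),(1,1),(3,0),(0,0),(12,1),(7,0),(11,2)]⟩,⟨1,[(23,0),(8,1),(9,0)]⟩⟩,⟨true,0,⟨0,[(24,0),(2,0)]⟩,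
  ⟨0,[(19,0),(5,0)]⟩⟩,⟨true,0,⟨0,[(44,0)]⟩,⟨0,[]⟩⟩,⟨false,1,⟨5,[(14,2),(8,2),(0,5),(4,1),(0,1),(1,
  3),(5,0),(3,2)]⟩,⟨0,[(0,0),(39,0)]⟩⟩,⟨false,0,⟨0,[(40,0)]⟩,⟨0,[(39,0),(2,0)]⟩⟩,⟨false,1,⟨3,[(1,1),
  (4,1),(16,0),(0,3),(4,1),(2,1),(2,0),(6,1)]⟩,⟨0,[(0,0)]⟩⟩,[.o ⟨false,0,⟨2,[(6,0),(1,0),(20,0)]⟩,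
  ⟨3,[(22,0),(0,0),(4,3),(13,1)]⟩⟩,.o ⟨false,1,⟨11,[(6,1),(1,1),(20,7),(5,2),(6,8)]⟩,⟨0,[(28,0)]⟩⟩,
  .o ⟨false,1,⟨1,[(4,0),(7,0),(12,0),(9,0)]⟩,⟨2,[(2,1),(4,0),(6,0),(9,0),(5,1)]⟩⟩,.a ⟨true,0,⟨0,
  [(25,0)]⟩,⟨0,[(24,0)]⟩⟩ ⟨false,0,⟨1,[(0,0),(1,1),(2,0),(1,0)]⟩,⟨1,[(23,0),(6,0),(0,0),(10,0)]⟩⟩
  ⟨true,0,⟨2,[(6,0),(1,0),(15,2),(4,0)]⟩,⟨0,[(25,0),(2,0)]⟩⟩]⟩))) (.R ⟨0,false,false,false,[1,0,0,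
  -1],[1,0,-1],[0,1,0,0,0,0,0,0,-1],(⟨0,[(22,0)]⟩,⟨0,[(23,0)]⟩),(⟨0,[(31,0)]⟩,⟨0,[(32,0)]⟩),⟨0,[(0,
  0)]⟩,.k,.k,(.x (-1) ⟨3,[(20,0),(0,0),(11,1),(0,3)]⟩ ⟨0,[(35,0)]⟩),.k,.k,.k,⟨false,0,⟨0,[(1,0),(2,
  0),(13,0),(3,0),(3,1)]⟩,⟨1,[(21,0),(8,1),(9,0)]⟩⟩,⟨true,0,⟨0,[(22,0),(2,0)]⟩,⟨0,[(17,0),(5,0)]⟩⟩,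
  ⟨true,0,⟨0,[(42,0)]⟩,⟨0,[]⟩⟩,⟨false,1,⟨5,[(12,2),(8,2),(0,5),(4,1),(0,1),(1,3),(5,0),(3,2)]⟩,⟨0,
  [(1,0),(24,0)]⟩⟩,⟨false,0,⟨0,[]⟩,⟨0,[]⟩⟩,⟨false,0,⟨0,[]⟩,⟨0,[]⟩⟩,[.o ⟨false,0,⟨2,[(4,0),(1,0),(20,
  0)]⟩,⟨3,[(20,0),(0,0),(4,3),(13,1)]⟩⟩,.o ⟨false,1,⟨11,[(4,1),(1,1),(20,7),(5,2),(6,8)]⟩,⟨0,[(26,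
  0)]⟩⟩,.o ⟨false,1,⟨1,[(2,0),(7,0),(12,0),(9,0)]⟩,⟨1,[(12,0),(4,0),(4,1),(5,0)]⟩⟩,.a ⟨true,0,⟨0,
  [(23,0)]⟩,⟨0,[(22,0)]⟩⟩ ⟨false,0,⟨2,[(1,1),(1,0),(2,0),(15,2),(3,1)]⟩,⟨1,[(21,0),(6,0),(0,0),(10,
  0)]⟩⟩ ⟨true,0,⟨2,[(4,0),(1,0),(15,2),(4,0)]⟩,⟨0,[(23,0),(2,0)]⟩⟩]⟩))) (.Q [0,0,0,0,0,-1,0,0,0,1,0,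
  -1] (.p false [0,0,0,1] [1] (⟨0,[(21,0)]⟩,⟨0,[(20,0)]⟩) .k 1 (⟨0,[]⟩,⟨0,[]⟩) .k .k) (.R ⟨1,false,
  false,false,[1,0,0,-1],[0,1],[0,0,0,0,0,0,0,0,-1],(⟨0,[(21,0)]⟩,⟨0,[(22,0)]⟩),(⟨0,[(34,0)]⟩,⟨0,
  [(33,0)]⟩),⟨0,[(0,0)]⟩,.k,.k,(.x (-1) ⟨3,[(19,0),(0,0),(11,1),(0,3)]⟩ ⟨0,[(34,0)]⟩),(.x (-1) ⟨3,
  [(19,0),(0,0),(11,1),(0,3)]⟩ ⟨0,[(34,0)]⟩),(.r (-1) ⟨0,[(2,0),(3,0),(14,0),(3,0),(9,0),(0,0)]⟩ ⟨1,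
  [(1,1),(20,1),(4,0),(0,0),(8,3),(3,1)]⟩),.k,⟨false,1,⟨5,[(2,3),(3,4),(12,0),(1,3),(3,3),(9,1)]⟩,
  ⟨0,[(1,0),(20,0),(14,0),(3,0)]⟩⟩,⟨true,0,⟨0,[(21,0)]⟩,⟨1,[(11,0),(4,0),(5,1),(4,0)]⟩⟩,⟨false,1,⟨3,
  [(19,0),(0,0),(18,1)]⟩,⟨0,[]⟩⟩,⟨false,0,⟨0,[(1,0),(19,0),(0,0),(14,0)]⟩,⟨5,[(2,1),(3,2),(5,1),(6,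
  1),(2,3),(2,1),(6,0),(2,1)]⟩⟩,⟨true,0,⟨0,[(37,0)]⟩,⟨0,[(36,0)]⟩⟩,⟨false,0,⟨0,[(1,0),(19,0),(0,0),
  (14,1)]⟩,⟨2,[(2,0),(3,1),(5,1),(6,0),(2,1),(2,0),(9,1),(0,0)]⟩⟩,[.o ⟨false,0,⟨0,[(37,0)]⟩,⟨1,[(32,
  0),(3,1),(2,0)]⟩⟩,.o ⟨false,1,⟨3,[(19,0),(0,0),(16,3),(1,1)]⟩,⟨0,[(12,0)]⟩⟩,.o ⟨false,1,⟨1,[(22,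
  1),(9,0),(5,0)]⟩,⟨2,[(0,1),(3,0),(6,0),(9,0),(5,1)]⟩⟩,.a ⟨true,0,⟨0,[(22,0)]⟩,⟨0,[(21,0)]⟩⟩
  ⟨false,1,⟨5,[(2,1),(3,0),(12,1),(1,1),(3,1),(9,3),(2,2)]⟩,⟨0,[(1,0),(20,0),(18,0)]⟩⟩ ⟨true,0,⟨0,
  [(21,0),(15,0)]⟩,⟨0,[(12,0),(9,0)]⟩⟩]⟩) (.R ⟨0,false,false,false,[1,0,0,-1],[0,1],[1,0,0,0,0,0,0,
  0,-1],(⟨0,[(21,0)]⟩,⟨0,[(22,0)]⟩),(⟨0,[(34,0)]⟩,⟨0,[(33,0)]⟩),⟨0,[(0,0)]⟩,.k,.k,(.x (-1) ⟨3,[(19,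
  0),(0,0),(11,1),(0,3)]⟩ ⟨0,[(34,0)]⟩),(.x (-1) ⟨3,[(19,0),(0,0),(11,1),(0,3)]⟩ ⟨0,[(34,0)]⟩),.k,
  .k,⟨false,1,⟨5,[(2,3),(3,4),(12,0),(1,3),(3,3),(9,1)]⟩,⟨0,[(1,0),(20,0),(14,0),(3,0)]⟩⟩,⟨true,0,
  ⟨0,[(21,0)]⟩,⟨1,[(11,0),(4,0),(5,1),(4,0)]⟩⟩,⟨true,0,⟨0,[]⟩,⟨0,[(41,0)]⟩⟩,⟨false,0,⟨0,[(1,0),(19,
  0),(0,0),(14,0)]⟩,⟨5,[(2,1),(3,2),(5,1),(6,1),(2,3),(2,1),(6,0),(2,1)]⟩⟩,⟨false,0,⟨0,[]⟩,⟨0,[]⟩⟩,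
  ⟨false,0,⟨0,[]⟩,⟨0,[]⟩⟩,[.o ⟨false,0,⟨0,[(37,0)]⟩,⟨1,[(32,0),(3,1),(2,0)]⟩⟩,.o ⟨false,1,⟨3,[(19,
  0),(0,0),(16,3),(1,1)]⟩,⟨0,[(12,0)]⟩⟩,.o ⟨false,1,⟨1,[(22,1),(9,0),(5,0)]⟩,⟨1,[(11,0),(4,0),(4,1),
  (5,0)]⟩⟩,.a ⟨true,0,⟨0,[(22,0)]⟩,⟨0,[(21,0)]⟩⟩ ⟨false,1,⟨5,[(2,1),(3,0),(12,1),(1,1),(3,1),(9,3),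
  (2,2)]⟩,⟨0,[(1,0),(20,0),(18,0)]⟩⟩ ⟨true,0,⟨0,[(21,0),(15,0)]⟩,⟨0,[(12,0),(9,0)]⟩⟩]⟩))))) (.Q [0,
  0,0,0,0,1,0,0,0,-1,0,1] (.p true [0,0,0,1] [1] (⟨0,[(18,0)]⟩,⟨0,[(17,0)]⟩) .k 1 (⟨0,[]⟩,⟨0,[]⟩)
  .k .k) (.Q [0,0,-1,0,0,0,1,1,-1,0,-1,1] (.p false [0,0,1] [0,0,0,1] (⟨0,[(28,0)]⟩,⟨0,[(27,0)]⟩)
  .k 2 (⟨0,[(19,0)]⟩,⟨0,[(18,0)]⟩) .k (.x (-1) ⟨7,[(15,3),(0,0),(0,0),(10,7),(0,1),(5,3)]⟩ ⟨0,[(21,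
  0),(5,0)]⟩)) (.Q [0,1,1,1,0,0,0,0,1,1,0,-1] (.p false [0,0,0,1] [1] (⟨0,[(20,0)]⟩,⟨0,[(19,0)]⟩)
  .k 1 (⟨0,[]⟩,⟨0,[]⟩) .k .k) (.R ⟨0,false,false,true,[1,0,0,-1],[0,1],[1,0,1],(⟨0,[(20,0)]⟩,⟨0,
  [(21,0)]⟩),(⟨0,[(33,0)]⟩,⟨0,[(32,0)]⟩),⟨0,[(2,0)]⟩,.k,.k,(.x (-1) ⟨7,[(3,3),(14,2),(0,2),(11,1)]⟩
  ⟨0,[(33,0)]⟩),(.x (-1) ⟨7,[(3,3),(14,2),(0,2),(11,1)]⟩ ⟨0,[(33,0)]⟩),.k,.k,⟨false,1,⟨1,[(5,0),(32,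
  0)]⟩,⟨0,[(36,0),(3,0)]⟩⟩,⟨true,0,⟨0,[(20,0)]⟩,⟨2,[(2,1),(0,0),(6,0),(10,0),(4,1)]⟩⟩,⟨false,1,⟨1,
  [(19,0),(6,0),(0,0),(10,0)]⟩,⟨1,[(1,1),(5,0),(1,0),(10,1)]⟩⟩,⟨true,0,⟨0,[(0,0)]⟩,⟨0,[(1,0),(2,0),
  (15,0),(0,0)]⟩⟩,⟨false,0,⟨0,[]⟩,⟨0,[]⟩⟩,⟨false,0,⟨0,[]⟩,⟨0,[]⟩⟩,[.o ⟨false,0,⟨0,[(36,0),(3,0)]⟩,
  ⟨3,[(5,1),(4,0),(15,1),(4,0),(2,0),(3,0)]⟩⟩,.o ⟨false,0,⟨0,[(36,0)]⟩,⟨1,[(31,0),(3,1),(2,0)]⟩⟩,.o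
  ⟨false,1,⟨1,[(21,1),(9,0),(5,0)]⟩,⟨1,[(10,0),(4,0),(4,1),(5,0)]⟩⟩,.a ⟨true,0,⟨0,[(21,0)]⟩,⟨0,[(20,
  0)]⟩⟩ ⟨true,0,⟨0,[]⟩,⟨0,[(40,0)]⟩⟩ ⟨false,0,⟨0,[(20,0),(15,0)]⟩,⟨3,[(5,1),(4,0),(10,3),(4,1),(4,
  0),(2,0),(3,0)]⟩⟩]⟩) (.R ⟨0,false,false,false,[1,0,0,-1],[1,0,-1],[0,1,0,0,0,0,0,0,-1],(⟨0,[(20,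
  0)]⟩,⟨0,[(21,0)]⟩),(⟨0,[(29,0)]⟩,⟨0,[(30,0)]⟩),⟨0,[(2,0)]⟩,.k,.k,(.x (-1) ⟨7,[(3,3),(14,2),(0,2),
  (11,1)]⟩ ⟨0,[(33,0)]⟩),.k,.k,.k,⟨false,0,⟨0,[(0,0),(15,0),(3,0),(3,0),(11,1)]⟩,⟨1,[(19,0),(8,1),
  (9,0)]⟩⟩,⟨true,0,⟨0,[(20,0),(2,0)]⟩,⟨0,[(15,0),(5,0)]⟩⟩,⟨true,0,⟨0,[(40,0)]⟩,⟨0,[]⟩⟩,⟨false,1,⟨5,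
  [(10,2),(8,2),(0,5),(4,1),(0,1),(1,3),(5,0),(3,2)]⟩,⟨0,[(1,0)]⟩⟩,⟨false,0,⟨0,[]⟩,⟨0,[]⟩⟩,⟨false,0,
  ⟨0,[]⟩,⟨0,[]⟩⟩,[.o ⟨false,0,⟨1,[(7,0),(1,0)]⟩,⟨3,[(18,0),(0,0),(4,3),(13,1)]⟩⟩,.o ⟨false,1,⟨9,[(4,
  1),(2,1),(17,5),(5,2),(6,6)]⟩,⟨0,[(24,0)]⟩⟩,.o ⟨false,1,⟨1,[(21,1),(9,0),(5,0)]⟩,⟨1,[(10,0),(4,0),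
  (4,1),(5,0)]⟩⟩,.a ⟨true,0,⟨0,[(21,0)]⟩,⟨0,[(20,0)]⟩⟩ ⟨false,0,⟨1,[(0,0),(0,0),(18,1),(1,0),(13,
  0)]⟩,⟨1,[(19,0),(6,0),(0,0),(10,0)]⟩⟩ ⟨true,0,⟨1,[(7,0),(1,0),(10,1)]⟩,⟨0,[(21,0),(2,0)]⟩⟩]⟩))
  (.Q [0,1,-1,0,0,0,0,0,-1,0,0,1] (.p true [0,0,0,1] [] (⟨0,[(20,0)]⟩,⟨0,[(19,0)]⟩) .k 0 (⟨0,[]⟩,⟨0,
  []⟩) .k .k) (.K ⟨0,[0,0,0,1],0,0,(⟨0,[(21,0)]⟩,⟨0,[(20,0)]⟩),.k,(.r (-1) ⟨1,[(5,0),(13,0)]⟩ ⟨1,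
  [(0,1),(9,0),(9,1),(5,1),(7,0),(1,1)]⟩),(.x 0 ⟨0,[(33,0)]⟩ ⟨7,[(3,3),(14,2),(0,2),(11,1)]⟩),.k,.k,
  [⟨0,[(21,0)]⟩,⟨0,[(20,0)]⟩,⟨0,[(0,0)]⟩,⟨0,[(1,0),(22,0)]⟩]⟩) (.I [0,1,-2,-1,1,0,0,0,-1] (.R ⟨0,
  false,false,false,[1,0,0,-1],[0,1],[0,1,0,0,0,0,0,0,-1],(⟨0,[(21,0)]⟩,⟨0,[(22,0)]⟩),(⟨0,[(34,0)]⟩,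
  ⟨0,[(33,0)]⟩),⟨0,[(3,0)]⟩,.k,.k,(.x (-1) ⟨7,[(4,3),(14,2),(0,2),(11,1)]⟩ ⟨0,[(34,0)]⟩),(.x (-1)
  ⟨7,[(4,3),(14,2),(0,2),(11,1)]⟩ ⟨0,[(34,0)]⟩),.k,.k,⟨false,1,⟨0,[(0,0)]⟩,⟨0,[(1,0),(20,0),(14,
  0)]⟩⟩,⟨true,0,⟨0,[(21,0)]⟩,⟨2,[(3,1),(0,0),(6,0),(10,0),(4,1)]⟩⟩,⟨true,0,⟨0,[(41,0)]⟩,⟨0,[]⟩⟩,
  ⟨false,0,⟨0,[(1,0),(19,0),(0,0),(14,0)]⟩,⟨9,[(0,1),(2,9),(0,4),(0,1),(0,2),(0,0),(8,0),(2,3),(5,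
  1),(9,1)]⟩⟩,⟨false,0,⟨0,[]⟩,⟨0,[]⟩⟩,⟨false,0,⟨0,[]⟩,⟨0,[]⟩⟩,[.o ⟨false,0,⟨0,[(37,0)]⟩,⟨1,[(32,0),
  (3,1),(2,0)]⟩⟩,.o ⟨false,1,⟨3,[(19,0),(0,0),(16,3),(1,1)]⟩,⟨0,[(12,0)]⟩⟩,.o ⟨false,1,⟨1,[(22,1),
  (9,0),(5,0)]⟩,⟨1,[(11,0),(4,0),(4,1),(5,0)]⟩⟩,.a ⟨true,0,⟨0,[(22,0)]⟩,⟨0,[(21,0)]⟩⟩ ⟨false,1,⟨1,
  [(19,0),(18,0)]⟩,⟨0,[(1,0),(20,0)]⟩⟩ ⟨true,0,⟨0,[(21,0),(15,0)]⟩,⟨0,[(12,0),(9,0)]⟩⟩]⟩) (.Q [0,1,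
  1,1,-1,0,0,0,1,1,0,-1] (.p false [0,0,0,1] [1] (⟨0,[(22,0)]⟩,⟨0,[(21,0)]⟩) .k 1 (⟨0,[]⟩,⟨0,[]⟩)
  .k .k) (.Q [0,0,-1,-1,1,0,0,0,-1,-1,0,1] (.p true [0,0,0,1] [1] (⟨0,[(23,0)]⟩,⟨0,[(22,0)]⟩) .k 1
  (⟨0,[]⟩,⟨0,[]⟩) .k .k) (.R ⟨0,false,false,true,[1,0,0,-1],[0,1],[1,0,1],(⟨0,[(23,0)]⟩,⟨0,[(24,
  0)]⟩),(⟨0,[(36,0)]⟩,⟨0,[(35,0)]⟩),⟨0,[(5,0)]⟩,.k,.k,(.x (-1) ⟨7,[(6,3),(14,2),(0,2),(11,1)]⟩ ⟨0,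
  [(36,0)]⟩),(.x (-1) ⟨7,[(6,3),(14,2),(0,2),(11,1)]⟩ ⟨0,[(36,0)]⟩),.k,.k,⟨false,1,⟨1,[(8,0),(32,
  0)]⟩,⟨0,[(39,0),(3,0)]⟩⟩,⟨true,0,⟨0,[(23,0)]⟩,⟨2,[(5,1),(0,0),(6,0),(10,0),(4,1)]⟩⟩,⟨false,0,⟨9,
  [(2,3),(5,0),(13,2),(14,3),(0,1)]⟩,⟨1,[(21,0),(18,0)]⟩⟩,⟨true,(-1),⟨0,[(1,0)]⟩,⟨0,[(0,0)]⟩⟩,
  ⟨false,0,⟨0,[]⟩,⟨0,[]⟩⟩,⟨false,0,⟨0,[]⟩,⟨0,[]⟩⟩,[.o ⟨false,0,⟨0,[(39,0),(3,0)]⟩,⟨3,[(8,1),(4,0),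
  (15,1),(4,0),(2,0),(3,0)]⟩⟩,.o ⟨false,0,⟨0,[(39,0)]⟩,⟨1,[(34,0),(3,1),(2,0)]⟩⟩,.o ⟨false,1,⟨1,
  [(24,1),(9,0),(5,0)]⟩,⟨4,[(1,0),(0,0),(0,1),(3,0),(6,0),(6,1),(1,1),(3,0)]⟩⟩,.a ⟨true,0,⟨0,[(24,
  0)]⟩,⟨0,[(23,0)]⟩⟩ ⟨true,0,⟨0,[]⟩,⟨0,[(43,0)]⟩⟩ ⟨false,0,⟨0,[(23,0),(15,0)]⟩,⟨2,[(0,1),(13,0),(7,
  0),(1,0),(12,1)]⟩⟩]⟩) (.K ⟨0,[0,0,0,1],0,(-1),(⟨0,[(24,0)]⟩,⟨0,[(23,0)]⟩),.k,(.x 0 ⟨1,[(6,0),(19,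
  0),(2,1),(0,0)]⟩ ⟨0,[(36,0),(3,0)]⟩),(.x 0 ⟨0,[(36,0)]⟩ ⟨7,[(6,3),(14,2),(0,2),(11,1)]⟩),.k,.k,
  [⟨0,[(24,0)]⟩,⟨0,[(23,0)]⟩,⟨1,[(21,0),(2,1),(15,0),(2,1)]⟩,⟨0,[(0,0),(13,0)]⟩]⟩)) (.R ⟨0,false,
  false,false,[1,0,0,-1],[1,0,-1],[0,1,0,0,0,0,0,0,-1],(⟨0,[(22,0)]⟩,⟨0,[(23,0)]⟩),(⟨0,[(31,0)]⟩,⟨0,
  [(32,0)]⟩),⟨0,[(4,0)]⟩,.k,.k,(.x (-1) ⟨7,[(5,3),(14,2),(0,2),(11,1)]⟩ ⟨0,[(35,0)]⟩),.k,.k,.k,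
  ⟨false,1,⟨0,[(0,0),(17,0),(3,0),(3,0),(11,1)]⟩,⟨1,[(1,1),(5,0),(22,1),(8,0)]⟩⟩,⟨true,0,⟨0,[(22,0),
  (2,0)]⟩,⟨0,[(17,0),(5,0)]⟩⟩,⟨true,0,⟨0,[(42,0)]⟩,⟨0,[]⟩⟩,⟨false,0,⟨10,[(1,1),(0,1),(0,6),(2,0),(0,
  1),(1,2),(12,1),(13,1)]⟩,⟨0,[(0,0),(21,0),(0,0),(2,0),(11,0)]⟩⟩,⟨false,0,⟨0,[]⟩,⟨0,[]⟩⟩,⟨false,0,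
  ⟨0,[]⟩,⟨0,[]⟩⟩,[.o ⟨false,0,⟨1,[(9,0),(1,0)]⟩,⟨3,[(20,0),(0,0),(4,3),(13,1)]⟩⟩,.o ⟨false,1,⟨9,[(6,
  1),(2,1),(17,5),(5,2),(6,6)]⟩,⟨0,[(26,0)]⟩⟩,.o ⟨false,1,⟨1,[(23,1),(9,0),(5,0)]⟩,⟨2,[(1,0),(0,0),
  (8,0),(8,0),(1,1),(3,0)]⟩⟩,.a ⟨true,0,⟨0,[(23,0)]⟩,⟨0,[(22,0)]⟩⟩ ⟨false,1,⟨1,[(20,0),(18,0)]⟩,⟨9,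
  [(1,3),(5,0),(13,2),(14,3),(0,1)]⟩⟩ ⟨true,0,⟨1,[(9,0),(1,0),(10,1)]⟩,⟨0,[(23,0),(2,0)]⟩⟩]⟩)))))
  (.I [1,-1,-1,-1,1,0,0,0,-1] (.I [0,0,2,2,0,0,0,1,1] (.I [0,0,0,1,0,0,0,-1,1] (.I [0,0,-1,-1,1,0,0,
  1,-1] (.Q [0,-1,1,0,0,0,-1,-1,1,0,1,-1] (.p true [0,0,1] [0,0,0,1] (⟨0,[(32,0)]⟩,⟨0,[(31,0)]⟩) .k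
  2 (⟨0,[(23,0)]⟩,⟨0,[(22,0)]⟩) .k (.x (-1) ⟨7,[(19,3),(0,0),(0,0),(10,7),(0,1),(5,3)]⟩ ⟨0,[(25,0),
  (5,0)]⟩)) (.R ⟨1,false,false,false,[1,0,0,-1],[1,0,-1],[1,0,0,-1,0,0,0,0,-1],(⟨0,[(23,0)]⟩,⟨0,
  [(24,0)]⟩),(⟨0,[(32,0)]⟩,⟨0,[(33,0)]⟩),⟨0,[(5,0)]⟩,.k,.k,(.x (-1) ⟨7,[(6,3),(14,2),(0,2),(11,1)]⟩
  ⟨0,[(36,0)]⟩),.k,(.r (-1) ⟨0,[(1,0)]⟩ ⟨4,[(0,0),(1,2),(0,0),(20,0),(3,0),(0,1),(1,0)]⟩),.k,⟨false,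
  1,⟨0,[(1,0)]⟩,⟨0,[(2,0)]⟩⟩,⟨true,0,⟨0,[(23,0),(2,0)]⟩,⟨0,[(18,0),(5,0)]⟩⟩,⟨false,1,⟨0,[(38,0),(2,
  0)]⟩,⟨0,[(39,0)]⟩⟩,⟨false,0,⟨0,[(0,0)]⟩,⟨0,[(1,0),(16,0),(5,0),(14,0)]⟩⟩,⟨true,0,⟨0,[]⟩,⟨0,[(43,
  0)]⟩⟩,⟨false,0,⟨0,[(0,0),(38,0)]⟩,⟨0,[(1,0),(16,0),(5,0)]⟩⟩,[.o ⟨false,0,⟨1,[(10,0),(1,0)]⟩,⟨13,
  [(1,7),(1,3),(16,5),(1,1),(4,1),(6,2),(6,0)]⟩⟩,.o ⟨false,1,⟨9,[(7,1),(2,1),(17,5),(5,2),(6,6)]⟩,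
  ⟨0,[(27,0)]⟩⟩,.o ⟨false,1,⟨1,[(24,1),(9,0),(5,0)]⟩,⟨1,[(13,0),(4,0),(4,1),(5,0)]⟩⟩,.a ⟨true,0,⟨0,
  [(24,0)]⟩,⟨0,[(23,0)]⟩⟩ ⟨false,1,⟨0,[(4,0)]⟩,⟨2,[(0,0),(1,0),(0,0),(20,0),(2,0)]⟩⟩ ⟨true,0,⟨1,
  [(10,0),(1,0),(10,1)]⟩,⟨0,[(24,0),(2,0)]⟩⟩]⟩) (.R ⟨1,true,false,false,[0,0,1],[0,0,0,1],[1,0,0,-1,
  0,0,0,1],(⟨0,[(33,0)]⟩,⟨0,[(32,0)]⟩),(⟨0,[(24,0)]⟩,⟨0,[(23,0)]⟩),⟨0,[(17,0)]⟩,.k,.k,.k,.k,(.r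
  (-1) ⟨0,[(1,0)]⟩ ⟨1,[(2,1),(26,0),(0,0)]⟩),.k,⟨false,1,⟨0,[(1,0)]⟩,⟨0,[(2,0)]⟩⟩,⟨true,0,⟨0,[(23,
  0),(2,0)]⟩,⟨0,[(18,0),(5,0)]⟩⟩,⟨false,1,⟨0,[(38,0),(2,0)]⟩,⟨0,[(39,0)]⟩⟩,⟨true,0,⟨6,[(2,4),(0,1),
  (3,2),(8,0),(2,2),(3,6),(13,2),(0,1)]⟩,⟨0,[(0,0)]⟩⟩,⟨true,0,⟨0,[]⟩,⟨0,[(43,0)]⟩⟩,⟨false,0,⟨1,[(2,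
  1),(10,0),(9,1),(13,0)]⟩,⟨3,[(0,1),(0,1),(6,0),(15,1),(4,1),(11,0)]⟩⟩,[]⟩)) (.R ⟨1,false,false,
  false,[1,0,0,-1],[1,0,-1],[0,1,0,0,0,0,0,0,-1],(⟨0,[(22,0)]⟩,⟨0,[(23,0)]⟩),(⟨0,[(31,0)]⟩,⟨0,[(32,
  0)]⟩),⟨0,[(4,0)]⟩,.k,.k,(.x (-1) ⟨7,[(5,3),(14,2),(0,2),(11,1)]⟩ ⟨0,[(35,0)]⟩),.k,(.x 0 ⟨0,[(16,
  0),(0,0)]⟩ ⟨4,[(8,0),(3,1),(7,1),(0,1),(9,4),(3,4)]⟩),.k,⟨false,1,⟨0,[(3,0),(14,0),(7,0),(11,1)]⟩,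
  ⟨1,[(0,1),(6,0),(32,0)]⟩⟩,⟨true,0,⟨0,[(22,0),(2,0)]⟩,⟨0,[(17,0),(5,0)]⟩⟩,⟨true,0,⟨0,[(42,0)]⟩,⟨0,
  []⟩⟩,⟨false,0,⟨14,[(0,4),(5,3),(2,2),(2,1),(2,2),(2,0),(2,4),(0,14),(13,7)]⟩,⟨0,[(3,0),(19,0),(2,
  0),(11,0)]⟩⟩,⟨false,0,⟨0,[(38,0)]⟩,⟨0,[(37,0),(2,0)]⟩⟩,⟨false,0,⟨1,[(0,0),(0,0),(10,0),(9,1),(17,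
  0)]⟩,⟨0,[(3,0),(19,0),(2,0)]⟩⟩,[.o ⟨false,0,⟨1,[(9,0),(1,0)]⟩,⟨3,[(20,0),(0,0),(4,3),(13,1)]⟩⟩,.o
  ⟨false,1,⟨9,[(6,1),(2,1),(17,5),(5,2),(6,6)]⟩,⟨0,[(26,0)]⟩⟩,.o ⟨false,1,⟨1,[(23,1),(9,0),(5,0)]⟩,
  ⟨1,[(12,0),(4,0),(4,1),(5,0)]⟩⟩,.a ⟨true,0,⟨0,[(23,0)]⟩,⟨0,[(22,0)]⟩⟩ ⟨false,1,⟨1,[(20,0),(18,
  0)]⟩,⟨4,[(0,1),(9,0),(7,1),(2,0),(4,1),(9,3)]⟩⟩ ⟨true,0,⟨1,[(9,0),(1,0),(10,1)]⟩,⟨0,[(23,0),(2,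
  0)]⟩⟩]⟩)) (.Q [0,0,-1,-1,0,0,-1,-1,-1,-1,1,1] (.p true [0,0,1] [1,0,0,-1] (⟨0,[(31,0)]⟩,⟨0,[(30,
  0)]⟩) .k 2 (⟨0,[(21,0)]⟩,⟨0,[(22,0)]⟩) .k (.r (-1) ⟨0,[(1,0),(4,0)]⟩ ⟨0,[(0,0),(28,1),(7,0)]⟩))
  (.Q [0,1,1,0,0,0,0,0,1,0,0,-1] (.p false [0,0,0,1] [] (⟨0,[(23,0)]⟩,⟨0,[(22,0)]⟩) .k 0 (⟨0,[]⟩,⟨0,
  []⟩) .k .k) (.K ⟨0,[0,0,0,1],0,0,(⟨0,[(24,0)]⟩,⟨0,[(23,0)]⟩),.k,(.r (-1) ⟨1,[(8,0),(13,0)]⟩ ⟨1,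
  [(2,1),(7,0),(17,0),(0,1),(9,2)]⟩),(.x 0 ⟨0,[(36,0)]⟩ ⟨7,[(6,3),(14,2),(0,2),(11,1)]⟩),.k,.k,[⟨0,
  [(24,0)]⟩,⟨0,[(23,0)]⟩,⟨0,[(1,0),(21,0),(0,0),(2,0),(11,0)]⟩,⟨0,[(0,0)]⟩]⟩) (.Q [0,1,1,0,0,0,0,0,
  1,1,0,-1] (.p false [0,0,0,1] [1] (⟨0,[(24,0)]⟩,⟨0,[(23,0)]⟩) .k 1 (⟨0,[]⟩,⟨0,[]⟩) .k .k) (.R ⟨0,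
  false,false,false,[1,0,-1],[1,0,0,-1],[0,0,1,0,0,0,0,0,-1],(⟨0,[(33,0)]⟩,⟨0,[(34,0)]⟩),(⟨0,[(24,
  0)]⟩,⟨0,[(25,0)]⟩),⟨0,[(16,0)]⟩,.k,.k,.k,.k,.k,.k,⟨true,0,⟨1,[(30,0),(0,0)]⟩,⟨0,[]⟩⟩,⟨false,1,⟨0,
  [(19,0),(5,0),(15,0)]⟩,⟨0,[(24,0),(2,0)]⟩⟩,⟨false,0,⟨5,[(3,6),(0,0),(6,1),(18,1),(7,1),(1,2)]⟩,⟨1,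
  [(23,0),(8,1),(8,0)]⟩⟩,⟨true,0,⟨0,[(1,0),(26,0)]⟩,⟨1,[(0,1),(10,0),(1,0)]⟩⟩,⟨false,0,⟨0,[]⟩,⟨0,
  []⟩⟩,⟨false,0,⟨0,[]⟩,⟨0,[]⟩⟩,[.o ⟨false,0,⟨1,[(1,1),(11,0),(14,0),(11,0)]⟩,⟨1,[(0,1),(34,0),(6,
  0)]⟩⟩,.a ⟨true,0,⟨0,[(1,0)]⟩,⟨0,[(0,0)]⟩⟩ ⟨false,0,⟨0,[(3,0),(7,0),(7,0)]⟩,⟨1,[(23,0),(17,0),(2,
  1)]⟩⟩ ⟨true,0,⟨0,[(1,0),(17,0)]⟩,⟨0,[(0,0),(26,0)]⟩⟩,.o ⟨false,1,⟨4,[(10,0),(3,1),(7,1),(0,1)]⟩,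
  ⟨0,[(19,0)]⟩⟩,.o ⟨false,0,⟨0,[(27,0)]⟩,⟨7,[(21,3),(0,0),(0,0),(11,1),(5,3)]⟩⟩]⟩) (.Q [0,0,-1,-1,0,
  0,1,1,-1,0,-1,1] (.p false [0,0,1] [0,0,0,1] (⟨0,[(34,0)]⟩,⟨0,[(33,0)]⟩) .k 2 (⟨0,[(25,0)]⟩,⟨0,
  [(24,0)]⟩) .k (.r 0 ⟨0,[(3,0),(36,0)]⟩ ⟨3,[(22,0),(0,2),(8,3)]⟩)) (.R ⟨1,false,false,false,[1,0,0,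
  -1],[1,0,-1],[0,1,0,0,0,0,0,0,-1],(⟨0,[(25,0)]⟩,⟨0,[(26,0)]⟩),(⟨0,[(34,0)]⟩,⟨0,[(35,0)]⟩),⟨0,[(7,
  0)]⟩,.k,.k,(.x (-1) ⟨7,[(8,3),(14,2),(0,2),(11,1)]⟩ ⟨0,[(38,0)]⟩),.k,(.x 0 ⟨0,[(19,0),(0,0)]⟩ ⟨4,
  [(11,0),(3,1),(7,1),(0,1),(9,4),(3,4)]⟩),.k,⟨false,0,⟨0,[(1,0),(19,0),(3,0),(3,0),(11,0)]⟩,⟨1,
  [(24,0),(8,1),(9,0)]⟩⟩,⟨true,0,⟨0,[(25,0),(2,0)]⟩,⟨0,[(20,0),(5,0)]⟩⟩,⟨true,0,⟨0,[(45,0)]⟩,⟨0,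
  []⟩⟩,⟨false,1,⟨5,[(5,1),(9,0),(2,3),(5,1),(0,5),(7,3),(5,0),(3,3)]⟩,⟨0,[(0,0),(40,0)]⟩⟩,⟨false,0,
  ⟨0,[(41,0)]⟩,⟨0,[(40,0),(2,0)]⟩⟩,⟨false,1,⟨21,[(5,7),(6,5),(2,5),(8,6),(0,21),(4,3),(2,19),(2,4),
  (6,9)]⟩,⟨0,[(0,0)]⟩⟩,[.o ⟨false,0,⟨1,[(12,0),(1,0)]⟩,⟨3,[(23,0),(0,0),(4,3),(13,1)]⟩⟩,.o ⟨false,1,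
  ⟨9,[(9,1),(2,1),(17,5),(5,2),(6,6)]⟩,⟨0,[(29,0)]⟩⟩,.o ⟨false,1,⟨1,[(26,1),(9,0),(5,0)]⟩,⟨1,[(15,
  0),(4,0),(4,1),(5,0)]⟩⟩,.a ⟨true,0,⟨0,[(26,0)]⟩,⟨0,[(25,0)]⟩⟩ ⟨false,0,⟨0,[(1,0),(23,0),(19,0)]⟩,
  ⟨1,[(24,0),(6,0),(0,0),(10,0)]⟩⟩ ⟨true,0,⟨1,[(12,0),(1,0),(10,1)]⟩,⟨0,[(26,0),(2,0)]⟩⟩]⟩) (.R ⟨1,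
  true,false,false,[0,0,1],[0,0,0,1],[0,1,0,0,0,0,0,1],(⟨0,[(35,0)]⟩,⟨0,[(34,0)]⟩),(⟨0,[(26,0)]⟩,⟨0,
  [(25,0)]⟩),⟨0,[(19,0)]⟩,.k,.k,.k,.k,(.r (-1) ⟨7,[(4,5),(0,1),(4,2),(12,1),(18,2)]⟩ ⟨0,[(0,0),(19,
  0),(5,0)]⟩),.k,⟨false,0,⟨0,[(1,0),(19,0),(3,0),(3,0),(11,0)]⟩,⟨1,[(24,0),(8,1),(9,0)]⟩⟩,⟨true,0,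
  ⟨0,[(25,0),(2,0)]⟩,⟨0,[(20,0),(5,0)]⟩⟩,⟨true,0,⟨0,[(45,0)]⟩,⟨0,[]⟩⟩,⟨false,1,⟨0,[(0,0),(39,0),(2,
  0)]⟩,⟨0,[(2,0),(26,0)]⟩⟩,⟨false,0,⟨0,[(41,0)]⟩,⟨0,[(40,0),(2,0)]⟩⟩,⟨true,0,⟨0,[(0,0)]⟩,⟨0,[(2,0),
  (26,0),(10,0)]⟩⟩,[]⟩)))) (.Q [0,1,-1,0,0,0,0,0,-1,0,0,1] (.p true [0,0,0,1] [] (⟨0,[(23,0)]⟩,⟨0,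
  [(22,0)]⟩) .k 0 (⟨0,[]⟩,⟨0,[]⟩) .k .k) (.K ⟨0,[0,0,0,1],0,0,(⟨0,[(24,0)]⟩,⟨0,[(23,0)]⟩),.k,(.r
  (-1) ⟨1,[(8,0),(13,0)]⟩ ⟨13,[(0,7),(1,6),(0,0),(6,7),(2,3),(9,7),(5,15),(9,10)]⟩),(.x 0 ⟨0,[(36,
  0)]⟩ ⟨7,[(6,3),(14,2),(0,2),(11,1)]⟩),.k,.k,[⟨0,[(24,0)]⟩,⟨0,[(23,0)]⟩,⟨0,[(0,0)]⟩,⟨0,[(1,0),(14,
  0)]⟩]⟩) (.R ⟨1,false,false,false,[1,0,0,-1],[0,1],[1,0,0,-1,0,0,0,0,-1],(⟨0,[(23,0)]⟩,⟨0,[(24,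
  0)]⟩),(⟨0,[(36,0)]⟩,⟨0,[(35,0)]⟩),⟨0,[(5,0)]⟩,.k,.k,(.x (-1) ⟨7,[(6,3),(14,2),(0,2),(11,1)]⟩ ⟨0,
  [(36,0)]⟩),(.x (-1) ⟨7,[(6,3),(14,2),(0,2),(11,1)]⟩ ⟨0,[(36,0)]⟩),(.r (-1) ⟨1,[(2,1),(5,0),(22,1),
  (8,0)]⟩ ⟨0,[(3,0),(27,0)]⟩),.k,⟨false,1,⟨1,[(2,1),(5,0),(22,1),(8,0)]⟩,⟨1,[(1,1),(8,0),(1,0),(11,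
  1),(14,1)]⟩⟩,⟨true,0,⟨0,[(23,0)]⟩,⟨1,[(13,0),(4,0),(5,1),(4,0)]⟩⟩,⟨false,1,⟨0,[(38,0),(2,0)]⟩,⟨0,
  [(39,0)]⟩⟩,⟨false,0,⟨1,[(0,0),(0,0),(8,0),(12,0),(0,0)]⟩,⟨7,[(2,1),(4,1),(0,1),(0,1),(8,3),(2,2),
  (2,7),(9,0)]⟩⟩,⟨true,0,⟨0,[]⟩,⟨0,[(43,0)]⟩⟩,⟨false,0,⟨0,[(1,0),(8,0)]⟩,⟨0,[(4,0),(9,0),(9,0)]⟩⟩,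
  [.o ⟨false,0,⟨0,[(39,0)]⟩,⟨1,[(34,0),(3,1),(2,0)]⟩⟩,.o ⟨false,1,⟨11,[(3,3),(6,3),(0,1),(8,1),(0,
  2),(12,0),(5,2),(0,2)]⟩,⟨0,[(14,0)]⟩⟩,.o ⟨false,1,⟨1,[(24,1),(9,0),(5,0)]⟩,⟨1,[(13,0),(4,0),(4,1),
  (5,0)]⟩⟩,.a ⟨true,0,⟨0,[(24,0)]⟩,⟨0,[(23,0)]⟩⟩ ⟨false,1,⟨0,[(4,0)]⟩,⟨1,[(1,1),(8,0),(1,0),(11,
  1)]⟩⟩ ⟨true,0,⟨0,[(23,0),(15,0)]⟩,⟨0,[(14,0),(9,0)]⟩⟩]⟩)))) (.I [0,-1,-1,0,0,0,0,0,-1] (.Q [0,-1,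
  -1,-2,0,0,-1,-1,-1,-2,1,1] (.p true [-1,1,1] [1,0,0,-1] (⟨0,[(13,0)]⟩,⟨0,[(30,0),(2,0)]⟩) .k 2
  (⟨0,[(21,0)]⟩,⟨0,[(22,0)]⟩) .k (.r (-1) ⟨0,[(9,0),(15,0),(2,0)]⟩ ⟨0,[(0,0),(25,0),(0,0)]⟩)) (.R
  ⟨1,false,false,true,[1,0,0,-1],[-1,1,1],[1,1,0,-1,0,0,0,0,-1],(⟨0,[(22,0)]⟩,⟨0,[(23,0)]⟩),(⟨0,
  [(14,0)]⟩,⟨0,[(31,0),(2,0)]⟩),⟨0,[(4,0)]⟩,.k,.k,(.x (-1) ⟨7,[(5,3),(14,2),(0,2),(11,1)]⟩ ⟨0,[(35,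
  0)]⟩),(.r 0 ⟨1,[(1,0),(0,0),(24,0),(0,0)]⟩ ⟨1,[(21,0),(4,1),(2,1),(8,1),(1,0)]⟩),(.x 0 ⟨0,[(5,0),
  (6,0),(4,0),(13,0)]⟩ ⟨3,[(14,1),(4,1),(0,0),(0,0),(10,1),(2,5),(3,1)]⟩),.k,⟨false,0,⟨0,[(2,0)]⟩,
  ⟨1,[(21,0),(4,1),(2,1),(8,3),(1,0)]⟩⟩,⟨true,0,⟨1,[(19,0),(2,2),(0,0)]⟩,⟨0,[(12,0),(4,0),(5,0)]⟩⟩,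
  ⟨true,0,⟨0,[(37,0)]⟩,⟨0,[(38,0)]⟩⟩,⟨false,1,⟨1,[(19,0),(1,0),(0,2),(0,0),(2,1),(2,1),(8,1),(1,
  0)]⟩,⟨0,[(0,0),(37,0)]⟩⟩,⟨false,0,⟨0,[]⟩,⟨3,[(20,0),(0,0),(18,1)]⟩⟩,⟨false,1,⟨1,[(19,0),(1,0),(0,
  2),(0,0),(2,1),(2,1),(8,3),(1,0)]⟩,⟨0,[(0,0)]⟩⟩,[.o ⟨false,0,⟨0,[(22,0),(0,0),(2,0),(11,0)]⟩,⟨3,
  [(6,1),(8,1),(17,0),(6,2)]⟩⟩,.o ⟨false,1,⟨3,[(20,0),(0,0),(0,3),(0,3),(2,3),(11,3),(1,1)]⟩,⟨0,[(6,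
  0)]⟩⟩,.o ⟨false,1,⟨1,[(23,1),(9,0),(5,0)]⟩,⟨1,[(12,0),(4,0),(4,1),(5,0)]⟩⟩,.a ⟨true,0,⟨0,[(23,
  0)]⟩,⟨0,[(22,0)]⟩⟩ ⟨false,0,⟨0,[(1,0),(35,0)]⟩,⟨1,[(21,0),(6,0),(0,0),(8,1),(1,0)]⟩⟩ ⟨true,0,⟨0,
  [(22,1),(0,0),(2,0),(11,0)]⟩,⟨0,[(6,0),(16,0)]⟩⟩]⟩) (.R ⟨1,true,false,true,[1,0,0,-1],[-1,1,1],[1,
  1,0,-1,0,0,0,0,-1],(⟨0,[(22,0)]⟩,⟨0,[(23,0)]⟩),(⟨0,[(14,0)]⟩,⟨0,[(31,0),(2,0)]⟩),⟨0,[(4,0)]⟩,.k,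
  .k,(.x (-1) ⟨7,[(5,3),(14,2),(0,2),(11,1)]⟩ ⟨0,[(35,0)]⟩),(.r 0 ⟨1,[(1,0),(0,0),(24,0),(0,0)]⟩ ⟨7,
  [(0,3),(11,3),(7,0),(0,2),(1,3),(2,3),(13,3)]⟩),(.x 0 ⟨0,[(5,0),(6,0),(4,0),(13,0)]⟩ ⟨3,[(14,1),
  (4,1),(0,0),(0,0),(10,1),(2,5),(3,1)]⟩),.k,⟨false,0,⟨0,[(2,0)]⟩,⟨25,[(0,21),(7,1),(1,3),(1,11),
  (10,21),(2,3),(6,8),(4,7),(1,10)]⟩⟩,⟨true,0,⟨1,[(19,0),(2,2),(0,0)]⟩,⟨0,[(12,0),(4,0),(5,0)]⟩⟩,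
  ⟨true,0,⟨0,[(37,0)]⟩,⟨0,[(38,0)]⟩⟩,⟨false,1,⟨0,[(0,0),(36,0),(2,0)]⟩,⟨0,[(1,0),(4,0),(16,0)]⟩⟩,
  ⟨false,0,⟨0,[]⟩,⟨3,[(20,0),(0,0),(18,1)]⟩⟩,⟨true,0,⟨0,[(0,0)]⟩,⟨4,[(1,1),(0,2),(3,1),(5,1),(0,1),
  (9,4),(4,0)]⟩⟩,[]⟩)) (.R ⟨1,false,false,true,[1,0,0,-1],[0,1],[0,0,0,0,0,0,0,0,-1],(⟨0,[(21,0)]⟩,
  ⟨0,[(22,0)]⟩),(⟨0,[(34,0)]⟩,⟨0,[(33,0)]⟩),⟨0,[(3,0)]⟩,.k,.k,(.x (-1) ⟨7,[(4,3),(14,2),(0,2),(11,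
  1)]⟩ ⟨0,[(34,0)]⟩),(.x (-1) ⟨7,[(4,3),(14,2),(0,2),(11,1)]⟩ ⟨0,[(34,0)]⟩),(.r (-1) ⟨5,[(1,1),(0,
  3),(3,0),(10,1),(7,1),(12,0)]⟩ ⟨3,[(0,3),(26,0),(0,0),(6,1),(1,7)]⟩),.k,⟨false,1,⟨1,[(1,0),(0,0),
  (4,0),(13,0),(0,0),(2,0),(9,0),(1,0)]⟩,⟨0,[(0,0),(36,0)]⟩⟩,⟨true,0,⟨0,[(21,0)]⟩,⟨1,[(11,0),(4,0),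
  (5,1),(4,0)]⟩⟩,⟨false,1,⟨3,[(19,0),(0,0),(18,1)]⟩,⟨0,[]⟩⟩,⟨true,0,⟨0,[(0,0),(20,0),(15,0)]⟩,⟨1,
  [(1,1),(9,0),(10,1),(2,1),(9,0),(1,1)]⟩⟩,⟨true,0,⟨0,[(37,0)]⟩,⟨0,[(36,0)]⟩⟩,⟨true,0,⟨0,[(0,0),(20,
  0),(15,1)]⟩,⟨1,[(1,1),(9,0),(10,1),(2,1),(9,0)]⟩⟩,[.o ⟨false,0,⟨0,[(37,0),(3,0)]⟩,⟨3,[(6,1),(4,0),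
  (15,1),(4,0),(2,0),(3,0)]⟩⟩,.o ⟨false,0,⟨0,[(37,0)]⟩,⟨1,[(32,0),(3,1),(2,0)]⟩⟩,.o ⟨false,1,⟨1,
  [(22,1),(9,0),(5,0)]⟩,⟨1,[(11,0),(4,0),(4,1),(5,0)]⟩⟩,.a ⟨true,0,⟨0,[(22,0)]⟩,⟨0,[(21,0)]⟩⟩ ⟨true,
  0,⟨1,[(1,1),(9,0),(9,1),(0,1),(2,1),(9,0),(1,3)]⟩,⟨0,[(0,0)]⟩⟩ ⟨false,0,⟨0,[(21,0),(15,0)]⟩,⟨3,
  [(6,1),(4,0),(10,3),(4,1),(4,0),(2,0),(3,0)]⟩⟩]⟩))) (.Q [0,0,-1,-2,1,0,0,0,-1,-1,0,1] (.p true [0,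
  0,0,1] [1] (⟨0,[(20,0)]⟩,⟨0,[(19,0)]⟩) .k 1 (⟨0,[]⟩,⟨0,[]⟩) .k .k) (.R ⟨1,false,false,true,[1,0,0,
  -1],[0,1],[1,0,0,-1,0,0,0,0,-1],(⟨0,[(20,0)]⟩,⟨0,[(21,0)]⟩),(⟨0,[(33,0)]⟩,⟨0,[(32,0)]⟩),⟨0,[(2,
  0)]⟩,.k,.k,(.x (-1) ⟨7,[(3,3),(14,2),(0,2),(11,1)]⟩ ⟨0,[(33,0)]⟩),(.x (-1) ⟨7,[(3,3),(14,2),(0,2),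
  (11,1)]⟩ ⟨0,[(33,0)]⟩),(.r (-2) ⟨3,[(5,3),(12,2),(0,0)]⟩ ⟨3,[(1,5),(16,0),(15,1),(1,1),(1,0)]⟩),
  .k,⟨false,2,⟨1,[(5,1),(12,0),(19,0)]⟩,⟨0,[(1,0),(34,0)]⟩⟩,⟨true,0,⟨0,[(20,0)]⟩,⟨1,[(10,0),(4,0),
  (5,1),(4,0)]⟩⟩,⟨false,1,⟨0,[(35,0),(2,0)]⟩,⟨0,[(36,0)]⟩⟩,⟨true,(-1),⟨0,[(1,0),(18,0)]⟩,⟨0,[(0,0),
  (35,0)]⟩⟩,⟨true,0,⟨0,[]⟩,⟨0,[(40,0)]⟩⟩,⟨true,(-1),⟨0,[(1,0),(18,0),(15,0)]⟩,⟨0,[(0,0)]⟩⟩,[.o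
  ⟨false,0,⟨0,[(36,0),(3,0)]⟩,⟨3,[(5,1),(4,0),(15,1),(4,0),(2,0),(3,0)]⟩⟩,.o ⟨false,0,⟨0,[(36,0)]⟩,
  ⟨1,[(31,0),(3,1),(2,0)]⟩⟩,.o ⟨false,1,⟨1,[(21,1),(9,0),(5,0)]⟩,⟨1,[(10,0),(4,0),(4,1),(5,0)]⟩⟩,.a
  ⟨true,0,⟨0,[(21,0)]⟩,⟨0,[(20,0)]⟩⟩ ⟨true,1,⟨1,[(5,0),(12,0)]⟩,⟨0,[(1,0)]⟩⟩ ⟨false,0,⟨0,[(20,0),
  (15,0)]⟩,⟨3,[(0,1),(18,0),(1,1),(9,0),(2,1)]⟩⟩]⟩) (.I [1,0,1,0,0,0,0,-1,-1] (.R ⟨1,false,false,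
  false,[1,0,0,-1],[0,-1,1],[1,0,0,-1,0,0,0,0,-1],(⟨0,[(21,0)]⟩,⟨0,[(22,0)]⟩),(⟨0,[(15,0)]⟩,⟨0,[(30,
  0),(3,0)]⟩),⟨0,[(3,0)]⟩,.k,.k,(.x (-1) ⟨7,[(4,3),(14,2),(0,2),(11,1)]⟩ ⟨0,[(34,0)]⟩),(.r 0 ⟨0,[(0,
  0),(36,0)]⟩ ⟨13,[(1,3),(4,5),(0,1),(1,9),(1,0),(5,9),(4,3),(2,13),(9,6)]⟩),.k,.k,⟨true,0,⟨0,[(0,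
  0)]⟩,⟨1,[(1,1),(4,1),(4,0),(10,1),(2,1),(9,0)]⟩⟩,⟨false,0,⟨0,[(21,0),(5,0)]⟩,⟨0,[(7,0),(14,0)]⟩⟩,
  ⟨false,1,⟨0,[(36,0),(2,0)]⟩,⟨0,[(37,0)]⟩⟩,⟨false,0,⟨9,[(1,7),(4,6),(13,0),(0,1),(3,9),(9,15),(0,
  11)]⟩,⟨3,[(7,1),(0,0),(1,0),(8,1),(2,3),(6,1),(7,3)]⟩⟩,⟨true,0,⟨0,[]⟩,⟨0,[(41,0)]⟩⟩,⟨false,0,⟨4,
  [(1,2),(4,1),(13,0),(0,1),(3,4),(9,5),(0,1)]⟩,⟨3,[(7,1),(0,0),(1,0),(8,1),(2,3),(6,1)]⟩⟩,[.o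
  ⟨false,1,⟨0,[(25,0),(10,0),(2,0)]⟩,⟨1,[(8,0),(1,0),(26,1)]⟩⟩,.o ⟨false,1,⟨3,[(6,0),(18,3),(9,1),
  (0,1),(2,2)]⟩,⟨0,[(23,0),(13,0)]⟩⟩,.o ⟨false,1,⟨1,[(22,1),(9,0),(5,0)]⟩,⟨21,[(1,1),(3,3),(5,5),(7,
  0),(1,19),(3,3),(1,11),(4,0),(2,1)]⟩⟩,.a ⟨true,0,⟨0,[(22,0)]⟩,⟨0,[(21,0)]⟩⟩ ⟨true,1,⟨1,[(6,0),(12,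
  0)]⟩,⟨0,[(2,0)]⟩⟩ ⟨false,1,⟨3,[(6,0),(14,3),(3,3),(9,1),(0,1),(2,2)]⟩,⟨1,[(8,0),(1,0),(11,1),(14,
  1)]⟩⟩]⟩) (.R ⟨1,true,false,true,[1,0,0,-1],[0,1],[1,0,0,-1,0,0,0,0,-1],(⟨0,[(21,0)]⟩,⟨0,[(22,
  0)]⟩),(⟨0,[(34,0)]⟩,⟨0,[(33,0)]⟩),⟨0,[(3,0)]⟩,.k,.k,(.x (-1) ⟨7,[(4,3),(14,2),(0,2),(11,1)]⟩ ⟨0,
  [(34,0)]⟩),(.x (-1) ⟨7,[(4,3),(14,2),(0,2),(11,1)]⟩ ⟨0,[(34,0)]⟩),(.r (-2) ⟨3,[(6,3),(12,2),(0,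
  0)]⟩ ⟨3,[(1,1),(0,1),(8,0),(10,1),(4,1),(7,0),(1,1)]⟩),.k,⟨false,2,⟨1,[(6,1),(12,0),(19,0)]⟩,⟨0,
  [(2,0),(34,0)]⟩⟩,⟨true,0,⟨0,[(21,0)]⟩,⟨1,[(11,0),(4,0),(5,1),(4,0)]⟩⟩,⟨false,1,⟨0,[(36,0),(2,0)]⟩,
  ⟨0,[(37,0)]⟩⟩,⟨true,(-1),⟨0,[(1,0),(34,0)]⟩,⟨3,[(0,1),(4,1),(0,0),(9,1),(2,2),(2,3)]⟩⟩,⟨true,0,⟨0,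
  []⟩,⟨0,[(41,0)]⟩⟩,⟨false,(-1),⟨0,[(1,0)]⟩,⟨3,[(6,3),(4,0),(7,1),(2,3),(4,1),(4,0),(2,0),(3,0)]⟩⟩,
  []⟩))))))))

theorem ok6 : chk (cU (-1) true 10) t6 r9 = true := by decide +kernel

noncomputable def t15 : Tre :=
  (.Q [0,-1,0,1,0,0,0,0,0,1] (.pp false [-1,1]) (.R ⟨1,false,false,true,[1,0,-1],[1,-1],[1,1,-1,-1],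
  (⟨0,[(20,0)]⟩,⟨0,[(21,0)]⟩),(⟨0,[(23,0)]⟩,⟨0,[(24,0)]⟩),⟨0,[(3,0)]⟩,.k,.k,.k,.k,.k,.k,⟨true,0,⟨0,
  []⟩,⟨1,[(17,0),(0,0)]⟩⟩,⟨false,0,⟨0,[(6,0)]⟩,⟨9,[(1,1),(0,3),(4,1),(8,5),(11,4),(0,0)]⟩⟩,⟨false,1,
  ⟨0,[(7,0),(7,0),(9,0),(2,0)]⟩,⟨0,[(1,0),(15,0)]⟩⟩,⟨false,1,⟨3,[(2,1),(5,1),(13,0),(3,3),(2,0)]⟩,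
  ⟨0,[(1,0)]⟩⟩,⟨false,1,⟨1,[(2,0),(25,0),(2,0)]⟩,⟨2,[(16,0),(0,0),(1,1),(5,1)]⟩⟩,⟨true,0,⟨0,[(15,
  0)]⟩,⟨1,[(1,0),(5,0),(11,0)]⟩⟩,[.a ⟨true,0,⟨0,[(26,0)]⟩,⟨0,[(0,0)]⟩⟩ ⟨false,1,⟨0,[(26,0),(1,0)]⟩,
  ⟨2,[(0,0),(13,0),(2,0),(7,0),(1,1)]⟩⟩ ⟨true,0,⟨0,[(6,0),(19,0)]⟩,⟨0,[(0,0),(13,0)]⟩⟩,.o ⟨false,1,
  ⟨1,[(22,0),(3,1),(2,0)]⟩,⟨0,[(27,0)]⟩⟩,.o ⟨false,1,⟨11,[(1,1),(0,5),(1,1),(11,7),(5,4),(6,0)]⟩,⟨0,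
  [(6,0)]⟩⟩,.o ⟨false,0,⟨0,[(14,0)]⟩,⟨7,[(8,3),(0,0),(0,0),(11,1),(5,3)]⟩⟩]⟩) (.Q [0,0,1,0,0,0,-2,0,
  0,-1,2] (.p true [0,0,1] [1,0,-1] (⟨0,[(21,0)]⟩,⟨0,[(20,0)]⟩) .k 2 (⟨0,[(20,0)]⟩,⟨0,[(21,0)]⟩) .k
  (.r (-1) ⟨0,[(2,0),(28,0)]⟩ ⟨0,[(19,1)]⟩)) (.Q [0,0,2,0,-1,0,1,0,0,1,-1] (.p false [0,0,1] [1]
  (⟨0,[(22,0)]⟩,⟨0,[(21,0)]⟩) .k 1 (⟨0,[]⟩,⟨0,[]⟩) .k .k) (.Q [0,1,0,-1,0,0,1,1,0,1,-1] (.p false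
  [0,0,1] [1] (⟨0,[(23,0)]⟩,⟨0,[(22,0)]⟩) .k 1 (⟨0,[]⟩,⟨0,[]⟩) .k .k) (.K ⟨1,[1,1,-1],1,0,(⟨0,[(23,
  0),(3,0)]⟩,⟨0,[(8,0)]⟩),.k,.k,(.r 1 ⟨0,[(1,0),(1,0),(0,0),(25,1)]⟩ ⟨11,[(0,7),(2,7),(1,1),(4,7),
  (17,1),(2,12),(0,8)]⟩),.k,.k,[⟨0,[(1,0)]⟩,⟨3,[(2,1),(9,0),(0,0),(11,0),(5,0)]⟩,⟨0,[(0,0)]⟩,⟨0,[(4,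
  0)]⟩]⟩) (.Q [0,1,0,1,0,0,2,2,0,1,-2] (.p false [0,0,1] [1,0,-1] (⟨0,[(24,0)]⟩,⟨0,[(23,0)]⟩) .k 2
  (⟨0,[(23,0)]⟩,⟨0,[(24,0)]⟩) .k (.r (-1) ⟨0,[(5,0),(28,0)]⟩ ⟨0,[(22,1)]⟩)) (.Q [0,1,1,0,-1,0,0,0,1,
  0,0,-1] (.p false [0,0,0,1] [] (⟨0,[(16,0)]⟩,⟨0,[(15,0)]⟩) .k 0 (⟨0,[]⟩,⟨0,[]⟩) .k .k) (.K ⟨0,[0,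
  0,0,1],0,(-1),(⟨0,[(17,0)]⟩,⟨0,[(16,0)]⟩),.k,(.r (-1) ⟨2,[(0,0),(14,0),(1,0),(12,1),(0,2),(1,2)]⟩
  ⟨1,[(1,0),(0,1),(0,0),(8,0),(1,0)]⟩),(.x 0 ⟨0,[(29,0)]⟩ ⟨7,[(8,3),(1,3),(3,2),(0,2),(11,1)]⟩),.k,
  .k,[⟨0,[(17,0)]⟩,⟨0,[(16,0)]⟩,⟨1,[(14,0),(2,1),(15,0),(2,1)]⟩,⟨0,[(0,0)]⟩]⟩) (.Q [0,-1,0,2,0,0,0,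
  0,0,1] (.pp false [-1,1]) (.R ⟨2,true,false,true,[0,1],[1,-1],[0,1,1,1],(⟨0,[]⟩,⟨0,[]⟩),(⟨0,[(29,
  0)]⟩,⟨0,[(30,0)]⟩),⟨0,[]⟩,.k,.k,.k,(.r 1 ⟨0,[(2,0),(0,1),(0,0),(8,0)]⟩ ⟨0,[(32,1),(1,0),(0,0)]⟩),
  .k,.k,⟨true,(-1),⟨0,[(2,0),(0,1),(0,0),(8,0)]⟩,⟨0,[(31,0),(0,1),(1,0)]⟩⟩,⟨false,0,⟨9,[(2,0),(0,1),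
  (0,2),(1,2),(13,2),(7,2),(2,0)]⟩,⟨0,[(17,0),(0,0),(15,0)]⟩⟩,⟨true,0,⟨0,[(37,0)]⟩,⟨0,[]⟩⟩,⟨false,1,
  ⟨0,[(6,0),(25,0),(2,0)]⟩,⟨0,[(0,0)]⟩⟩,⟨false,0,⟨0,[(33,0)]⟩,⟨0,[(32,0),(2,0)]⟩⟩,⟨true,0,⟨0,[(6,
  0)]⟩,⟨12,[(0,8),(1,0),(10,5),(0,2),(7,1)]⟩⟩,[]⟩) (.R ⟨1,true,false,false,[1,-1],[0,1],[0,0,-1,-1],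
  (⟨0,[(29,0)]⟩,⟨0,[(30,0)]⟩),(⟨0,[(30,0)]⟩,⟨0,[(29,0)]⟩),⟨0,[(9,0),(1,0)]⟩,.k,.k,(.r (-2) ⟨0,[(32,
  1),(1,0),(0,0)]⟩ ⟨0,[(2,0),(0,1),(0,0),(8,0)]⟩),(.r (-2) ⟨0,[(32,1),(1,0),(0,0)]⟩ ⟨0,[(2,0),(0,1),
  (0,0),(8,0)]⟩),(.r (-2) ⟨1,[(0,1),(12,1),(0,0),(2,0),(0,0),(12,1),(2,3)]⟩ ⟨0,[(4,0),(15,0),(12,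
  2)]⟩),.k,⟨false,2,⟨3,[(0,1),(12,3),(0,1),(16,1),(2,6),(0,0)]⟩,⟨0,[(2,0),(0,1),(0,0),(8,0)]⟩⟩,
  ⟨true,1,⟨0,[(17,0),(0,0),(15,0)]⟩,⟨8,[(0,5),(1,3),(0,7),(0,8),(0,0),(14,6),(10,0)]⟩⟩,⟨false,1,⟨3,
  [(15,0),(0,0),(18,1)]⟩,⟨0,[]⟩⟩,⟨true,0,⟨4,[(2,3),(4,5),(9,0),(0,0),(3,1)]⟩,⟨0,[(0,0)]⟩⟩,⟨true,0,
  ⟨0,[(33,0)]⟩,⟨0,[(32,0)]⟩⟩,⟨false,0,⟨0,[(2,0),(4,1)]⟩,⟨0,[(0,0),(31,0),(2,0)]⟩⟩,[]⟩))) (.Q [0,1,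
  -1,0,0,0,0,0,-1,0,0,1] (.p true [0,0,0,1] [] (⟨0,[(16,0)]⟩,⟨0,[(15,0)]⟩) .k 0 (⟨0,[]⟩,⟨0,[]⟩) .k
  .k) (.K ⟨0,[0,0,0,1],0,0,(⟨0,[(17,0)]⟩,⟨0,[(16,0)]⟩),.k,(.x 0 ⟨2,[(4,1),(3,0),(1,0),(11,3),(5,
  0)]⟩ ⟨0,[(29,0),(3,0)]⟩),(.x 0 ⟨0,[(29,0)]⟩ ⟨7,[(8,3),(1,3),(3,2),(0,2),(11,1)]⟩),.k,.k,[⟨0,[(17,
  0)]⟩,⟨0,[(16,0)]⟩,⟨0,[(0,0)]⟩,⟨1,[(2,1),(0,0),(1,0),(6,0),(2,0),(0,1),(3,1)]⟩]⟩) (.Q [0,-1,0,2,0,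
  0,0,0,0,1] (.pp false [-1,1]) (.I [0,0,2,2,-1] (.R ⟨2,true,false,true,[0,1],[1,-1],[0,1,1,1],(⟨0,
  []⟩,⟨0,[]⟩),(⟨0,[(30,0)]⟩,⟨0,[(31,0)]⟩),⟨0,[]⟩,.k,.k,.k,(.r 1 ⟨0,[(0,0)]⟩ ⟨0,[(33,1),(1,0),(0,
  0)]⟩),.k,.k,⟨true,(-1),⟨0,[(0,0)]⟩,⟨0,[(32,0),(0,1),(1,0)]⟩⟩,⟨false,0,⟨5,[(0,0),(4,0),(1,1),(13,
  0),(7,1),(2,0)]⟩,⟨0,[(18,0),(0,0),(15,0)]⟩⟩,⟨true,0,⟨0,[(38,0)]⟩,⟨0,[]⟩⟩,⟨false,1,⟨0,[(7,0),(25,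
  0),(2,0)]⟩,⟨0,[(1,0)]⟩⟩,⟨false,0,⟨0,[(34,0)]⟩,⟨0,[(33,0),(2,0)]⟩⟩,⟨true,0,⟨0,[(7,0)]⟩,⟨3,[(1,2),
  (12,1),(0,0),(22,0)]⟩⟩,[]⟩) (.Q [0,0,0,0,0,2,0,0,0,0,-1] (.p false [0,0,1] [] (⟨0,[(28,0)]⟩,⟨0,
  [(27,0)]⟩) .k 0 (⟨0,[]⟩,⟨0,[]⟩) .k .k) (.R ⟨0,false,false,false,[0,-1,1],[1,-1],[0,1,1],(⟨0,[(13,
  0)]⟩,⟨1,[(0,0),(18,0),(0,0),(7,0)]⟩),(⟨0,[(31,0)]⟩,⟨0,[(32,0)]⟩),⟨0,[(0,0)]⟩,.k,.k,(.r (-2) ⟨9,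
  [(1,8),(8,3),(4,1),(1,2),(0,2),(4,1),(12,0)]⟩ ⟨1,[(5,0),(0,1),(14,0),(13,2)]⟩),.k,.k,.k,⟨true,
  (-1),⟨0,[(5,0),(0,0),(8,0),(7,0),(11,0)]⟩,⟨1,[(1,0),(35,0)]⟩⟩,⟨false,1,⟨3,[(7,1),(22,0),(5,2)]⟩,
  ⟨1,[(16,0),(2,0),(0,0)]⟩⟩,⟨false,(-1),⟨1,[(5,0),(0,1),(14,0),(13,0)]⟩,⟨7,[(1,3),(8,3),(6,0),(0,0),
  (17,3),(0,1)]⟩⟩,⟨true,0,⟨1,[(5,0),(6,0)]⟩,⟨0,[(19,0),(0,0),(2,0)]⟩⟩,⟨false,0,⟨0,[]⟩,⟨0,[]⟩⟩,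
  ⟨false,0,⟨0,[]⟩,⟨0,[]⟩⟩,[.o ⟨false,1,⟨1,[(30,0),(3,1),(2,0)]⟩,⟨0,[(35,0)]⟩⟩,.o ⟨false,1,⟨3,[(1,0),
  (28,1),(2,1),(0,1),(2,0)]⟩,⟨0,[(35,0),(3,0)]⟩⟩,.o ⟨false,0,⟨0,[(25,0)]⟩,⟨3,[(7,1),(22,0),(5,2)]⟩⟩,
  .a ⟨true,(-1),⟨0,[(6,0)]⟩,⟨0,[(1,0),(0,0),(2,0),(9,0),(7,0)]⟩⟩ ⟨true,0,⟨0,[(39,0)]⟩,⟨0,[]⟩⟩
  ⟨false,2,⟨7,[(1,1),(2,3),(5,3),(6,0),(0,0),(11,1),(5,5)]⟩,⟨0,[(6,0),(28,0)]⟩⟩]⟩) (.R ⟨1,false,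
  false,false,[0,-1,1],[1,-1],[0,1,1],(⟨0,[(13,0)]⟩,⟨0,[(28,0),(3,0)]⟩),(⟨0,[(31,0)]⟩,⟨0,[(32,0)]⟩),
  ⟨0,[(0,0)]⟩,.k,.k,(.r (-2) ⟨9,[(1,8),(8,3),(4,1),(1,2),(0,2),(4,1),(12,0)]⟩ ⟨1,[(5,0),(0,1),(14,
  0),(13,2)]⟩),.k,.k,.k,⟨true,(-1),⟨0,[(5,0),(0,0),(8,0),(7,0),(11,0)]⟩,⟨1,[(1,0),(35,0)]⟩⟩,⟨false,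
  1,⟨3,[(7,1),(22,0),(5,2)]⟩,⟨1,[(16,0),(2,0),(0,0)]⟩⟩,⟨false,(-1),⟨1,[(5,0),(0,1),(14,0),(13,0)]⟩,
  ⟨7,[(1,3),(8,3),(6,0),(0,0),(17,3),(0,1)]⟩⟩,⟨true,0,⟨1,[(5,0),(6,0)]⟩,⟨0,[(19,0),(0,0),(2,0)]⟩⟩,
  ⟨false,(-1),⟨1,[(5,0),(0,1),(14,0),(13,2)]⟩,⟨7,[(1,7),(8,3),(6,0),(0,0),(18,1)]⟩⟩,⟨false,0,⟨0,[(5,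
  0)]⟩,⟨7,[(1,1),(4,1),(3,3),(4,3),(0,4),(0,1),(0,1),(0,0),(0,0)]⟩⟩,[.o ⟨false,1,⟨1,[(30,0),(3,1),
  (2,0)]⟩,⟨0,[(35,0)]⟩⟩,.o ⟨false,1,⟨3,[(1,0),(28,1),(2,1),(0,1),(2,0)]⟩,⟨0,[(35,0),(3,0)]⟩⟩,.o
  ⟨false,0,⟨0,[(25,0)]⟩,⟨3,[(7,1),(22,0),(5,2)]⟩⟩,.a ⟨true,(-1),⟨0,[(6,0)]⟩,⟨0,[(1,0),(0,0),(2,0),
  (9,0),(7,0)]⟩⟩ ⟨true,0,⟨0,[(39,0)]⟩,⟨0,[]⟩⟩ ⟨false,2,⟨7,[(1,1),(2,3),(5,3),(6,0),(0,0),(11,1),(5,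
  5)]⟩,⟨0,[(6,0),(28,0)]⟩⟩]⟩))) (.Q [0,-1,0,3,0,0,0,0,0,1] (.pp false [-1,1]) (.I [0,0,2,2,-1] (.R
  ⟨1,true,false,false,[1,-1],[0,1],[0,0,-1,-1],(⟨0,[(31,0)]⟩,⟨0,[(32,0)]⟩),(⟨0,[(32,0)]⟩,⟨0,[(31,
  0)]⟩),⟨0,[(11,0),(1,0)]⟩,.k,.k,(.r (-2) ⟨0,[(34,1),(1,0),(0,0)]⟩ ⟨0,[(0,0)]⟩),(.r (-2) ⟨0,[(34,1),
  (1,0),(0,0)]⟩ ⟨0,[(0,0)]⟩),(.r (-2) ⟨1,[(2,1),(12,1),(0,0),(2,0),(0,0),(12,1),(2,3)]⟩ ⟨3,[(0,5),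
  (16,0),(0,0)]⟩),.k,⟨false,2,⟨3,[(2,1),(12,3),(0,1),(16,1),(2,6),(0,0)]⟩,⟨0,[(0,0)]⟩⟩,⟨true,1,⟨0,
  [(19,0),(0,0),(15,0)]⟩,⟨7,[(0,5),(1,5),(3,2),(15,2),(7,0),(2,2)]⟩⟩,⟨false,1,⟨3,[(17,0),(0,0),(18,
  1)]⟩,⟨0,[]⟩⟩,⟨true,0,⟨4,[(1,3),(13,1),(0,0),(22,1)]⟩,⟨0,[(2,0)]⟩⟩,⟨true,0,⟨0,[(35,0)]⟩,⟨0,[(34,
  0)]⟩⟩,⟨false,0,⟨0,[(1,0)]⟩,⟨0,[(2,0),(31,0),(2,0)]⟩⟩,[]⟩) (.I [0,0,2,3,-1] (.R ⟨1,true,false,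
  false,[1,-1],[0,1],[1,0,-1,-2],(⟨0,[(32,0)]⟩,⟨0,[(33,0)]⟩),(⟨0,[(33,0)]⟩,⟨0,[(32,0)]⟩),⟨0,[(12,0),
  (1,0)]⟩,.k,.k,(.x 0 ⟨0,[(12,0),(1,0),(8,0),(2,0)]⟩ ⟨0,[(33,1),(3,0)]⟩),(.x 0 ⟨0,[(12,0),(1,0),(8,
  0),(2,0)]⟩ ⟨0,[(33,1),(3,0)]⟩),(.r (-2) ⟨3,[(1,5),(16,0),(0,0)]⟩ ⟨7,[(0,7),(6,1),(0,1),(9,0),(0,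
  0),(6,1)]⟩),.k,⟨false,2,⟨3,[(1,5),(16,0),(0,0)]⟩,⟨0,[(0,0)]⟩⟩,⟨true,1,⟨2,[(1,1),(0,1),(13,1),(0,
  0),(19,0)]⟩,⟨19,[(0,11),(2,17),(3,8),(15,8),(7,0),(2,8)]⟩⟩,⟨false,1,⟨19,[(1,3),(1,3),(3,3),(8,3),
  (1,2),(0,2),(18,13)]⟩,⟨0,[(36,0)]⟩⟩,⟨true,0,⟨4,[(2,3),(13,1),(0,0),(22,1)]⟩,⟨0,[(3,0)]⟩⟩,⟨true,0,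
  ⟨0,[]⟩,⟨0,[(40,0)]⟩⟩,⟨false,0,⟨0,[(2,0)]⟩,⟨19,[(1,3),(1,23),(3,3),(8,3),(1,2),(0,2),(18,13)]⟩⟩,
  []⟩) (.Q [0,0,0,0,0,2,0,0,0,0,-1] (.p false [0,0,1] [] (⟨0,[(30,0)]⟩,⟨0,[(29,0)]⟩) .k 0 (⟨0,[]⟩,
  ⟨0,[]⟩) .k .k) (.R ⟨0,false,false,false,[0,-1,1],[1,-1],[0,1,1],(⟨0,[(15,0)]⟩,⟨1,[(0,0),(20,0),(0,
  0),(7,0)]⟩),(⟨0,[(33,0)]⟩,⟨0,[(34,0)]⟩),⟨0,[(0,0)]⟩,.k,.k,(.r (-2) ⟨9,[(1,5),(10,3),(4,1),(1,2),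
  (0,2),(4,1),(12,3)]⟩ ⟨6,[(3,2),(3,4),(0,6),(14,4),(1,2)]⟩),.k,.k,.k,⟨true,(-1),⟨6,[(3,1),(3,7),(0,
  6),(8,6),(5,0),(1,8)]⟩,⟨5,[(1,1),(36,0),(0,2)]⟩⟩,⟨false,1,⟨3,[(9,1),(22,0),(5,2)]⟩,⟨1,[(18,0),(2,
  0),(0,0)]⟩⟩,⟨false,(-1),⟨6,[(3,0),(3,3),(0,6),(14,3),(1,0)]⟩,⟨23,[(1,7),(10,11),(6,2),(0,2),(17,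
  15),(0,5)]⟩⟩,⟨true,0,⟨1,[(7,0),(6,0)]⟩,⟨0,[(21,0),(0,0),(2,0)]⟩⟩,⟨false,0,⟨0,[]⟩,⟨0,[]⟩⟩,⟨false,0,
  ⟨0,[]⟩,⟨0,[]⟩⟩,[.o ⟨false,1,⟨3,[(4,1),(14,0),(0,0),(11,0),(6,0)]⟩,⟨0,[(37,0)]⟩⟩,.o ⟨false,1,⟨3,
  [(4,1),(27,0),(6,2)]⟩,⟨2,[(3,0),(19,0),(1,0),(15,1)]⟩⟩,.o ⟨false,0,⟨0,[(27,0)]⟩,⟨3,[(9,1),(22,0),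
  (5,2)]⟩⟩,.a ⟨true,(-1),⟨0,[(8,0)]⟩,⟨0,[(1,0),(1,0),(3,0),(9,0),(7,0)]⟩⟩ ⟨true,0,⟨0,[(41,0)]⟩,⟨0,
  []⟩⟩ ⟨false,2,⟨11,[(1,3),(7,5),(22,2),(5,10),(0,5)]⟩,⟨6,[(3,1),(3,0),(0,6),(14,0),(1,1)]⟩⟩]⟩) (.R
  ⟨1,false,false,false,[0,-1,1],[1,-1],[0,1,1],(⟨0,[(15,0)]⟩,⟨0,[(30,0),(3,0)]⟩),(⟨0,[(33,0)]⟩,⟨0,
  [(34,0)]⟩),⟨0,[(0,0)]⟩,.k,.k,(.r (-2) ⟨9,[(1,5),(10,3),(4,1),(1,2),(0,2),(4,1),(12,3)]⟩ ⟨6,[(3,2),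
  (3,4),(0,6),(14,4),(1,2)]⟩),.k,.k,.k,⟨true,(-1),⟨6,[(3,1),(3,7),(0,6),(8,6),(5,0),(1,8)]⟩,⟨5,[(1,
  1),(36,0),(0,2)]⟩⟩,⟨false,1,⟨3,[(9,1),(22,0),(5,2)]⟩,⟨1,[(18,0),(2,0),(0,0)]⟩⟩,⟨false,(-1),⟨6,[(3,
  0),(3,3),(0,6),(14,3),(1,0)]⟩,⟨23,[(1,7),(10,11),(6,2),(0,2),(17,15),(0,5)]⟩⟩,⟨true,0,⟨1,[(7,0),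
  (6,0)]⟩,⟨0,[(21,0),(0,0),(2,0)]⟩⟩,⟨false,(-1),⟨6,[(3,2),(3,4),(0,6),(14,4),(1,2)]⟩,⟨23,[(1,15),
  (10,11),(6,2),(0,2),(17,7),(0,5)]⟩⟩,⟨false,0,⟨0,[(7,0)]⟩,⟨11,[(1,1),(6,1),(3,5),(4,5),(0,7),(0,2),
  (0,2),(0,1),(0,1)]⟩⟩,[.o ⟨false,1,⟨3,[(4,1),(14,0),(0,0),(11,0),(6,0)]⟩,⟨0,[(37,0)]⟩⟩,.o ⟨false,1,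
  ⟨3,[(4,1),(27,0),(6,2)]⟩,⟨2,[(3,0),(19,0),(1,0),(15,1)]⟩⟩,.o ⟨false,0,⟨0,[(27,0)]⟩,⟨3,[(9,1),(22,
  0),(5,2)]⟩⟩,.a ⟨true,(-1),⟨0,[(8,0)]⟩,⟨0,[(1,0),(1,0),(3,0),(9,0),(7,0)]⟩⟩ ⟨true,0,⟨0,[(41,0)]⟩,
  ⟨0,[]⟩⟩ ⟨false,2,⟨11,[(1,3),(7,5),(22,2),(5,10),(0,5)]⟩,⟨6,[(3,1),(3,0),(0,6),(14,0),(1,
  1)]⟩⟩]⟩)))) (.Q [0,1,1,0,-1,0,0,0,1,0,0,-1] (.p false [0,0,0,1] [] (⟨0,[(19,0)]⟩,⟨0,[(18,0)]⟩) .k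
  0 (⟨0,[]⟩,⟨0,[]⟩) .k .k) (.K ⟨0,[0,0,0,1],0,(-1),(⟨0,[(20,0)]⟩,⟨0,[(19,0)]⟩),.k,(.x 0 ⟨2,[(7,1),
  (3,0),(1,0),(11,3),(5,0)]⟩ ⟨0,[(32,0),(3,0)]⟩),(.x 0 ⟨0,[(32,0)]⟩ ⟨7,[(11,3),(1,3),(3,2),(0,2),
  (11,1)]⟩),.k,.k,[⟨0,[(20,0)]⟩,⟨0,[(19,0)]⟩,⟨1,[(17,0),(2,1),(15,0),(2,1)]⟩,⟨0,[(0,0)]⟩]⟩) (.Q [0,
  0,0,0,0,-1,0,0,0,1,0,-1] (.p false [0,0,0,1] [1] (⟨0,[(20,0)]⟩,⟨0,[(19,0)]⟩) .k 1 (⟨0,[]⟩,⟨0,[]⟩)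
  .k .k) (.I [0,0,0,0,0,0,0,0,-1] (.R ⟨1,false,false,false,[1,0,0,-1],[0,1],[0,1,0,0,0,0,0,0,-1],
  (⟨0,[(21,0)]⟩,⟨0,[(22,0)]⟩),(⟨0,[(34,0)]⟩,⟨0,[(33,0)]⟩),⟨0,[(1,0)]⟩,.k,.k,(.x (-1) ⟨7,[(13,3),(1,
  3),(3,2),(0,2),(11,1)]⟩ ⟨0,[(34,0)]⟩),(.x (-1) ⟨7,[(13,3),(1,3),(3,2),(0,2),(11,1)]⟩ ⟨0,[(34,
  0)]⟩),(.x 0 ⟨9,[(7,1),(0,2),(1,1),(2,9),(1,9),(8,2),(0,1),(6,2),(2,0)]⟩ ⟨3,[(19,0),(0,0),(13,7),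
  (3,1)]⟩),.k,⟨false,1,⟨0,[(0,0),(35,0),(1,0)]⟩,⟨0,[(5,0),(16,0),(14,0)]⟩⟩,⟨true,0,⟨0,[(21,0)]⟩,⟨9,
  [(7,1),(0,2),(1,1),(11,9),(1,2),(0,1),(6,2),(2,0)]⟩⟩,⟨true,0,⟨0,[(41,0)]⟩,⟨0,[]⟩⟩,⟨false,0,⟨0,[(5,
  0),(15,0),(0,0),(14,0)]⟩,⟨0,[(2,0),(7,0)]⟩⟩,⟨false,0,⟨0,[(37,0)]⟩,⟨9,[(2,1),(0,2),(4,0),(8,0),(1,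
  0),(0,1),(0,1),(17,5)]⟩⟩,⟨false,0,⟨0,[(5,0),(15,0),(0,0),(14,1)]⟩,⟨0,[(2,0),(1,0)]⟩⟩,[.o ⟨false,0,
  ⟨0,[(37,0)]⟩,⟨11,[(3,3),(15,2),(0,2),(11,3),(6,1)]⟩⟩,.o ⟨false,1,⟨3,[(19,0),(0,0),(16,3),(1,1)]⟩,
  ⟨0,[(10,0)]⟩⟩,.o ⟨false,1,⟨1,[(22,1),(9,0),(5,0)]⟩,⟨6,[(0,0),(4,0),(1,0),(0,1),(1,0),(10,5),(2,1),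
  (0,0),(6,1)]⟩⟩,.a ⟨true,0,⟨0,[(22,0)]⟩,⟨0,[(21,0)]⟩⟩ ⟨false,1,⟨1,[(19,0),(18,0)]⟩,⟨0,[(5,0),(16,
  0)]⟩⟩ ⟨true,0,⟨0,[(21,0),(15,0)]⟩,⟨0,[(10,0),(11,0)]⟩⟩]⟩) (.Q [0,1,1,0,-1,0,0,0,1,1,0,-1] (.p
  false [0,0,0,1] [1] (⟨0,[(22,0)]⟩,⟨0,[(21,0)]⟩) .k 1 (⟨0,[]⟩,⟨0,[]⟩) .k .k) (.R ⟨1,true,false,
  false,[0,0,1],[0,0,0,1],[0,1,0,0,0,0,0,1],(⟨0,[(32,0)]⟩,⟨0,[(31,0)]⟩),(⟨0,[(23,0)]⟩,⟨0,[(22,0)]⟩),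
  ⟨0,[(16,0)]⟩,.k,.k,.k,.k,(.r (-2) ⟨11,[(3,1),(0,1),(8,5),(6,7),(0,2),(0,1),(14,5),(1,4)]⟩ ⟨0,[(0,
  0),(7,0),(8,0),(5,0)]⟩),.k,⟨false,1,⟨0,[(3,0),(4,0),(9,0),(3,0),(3,1)]⟩,⟨2,[(0,0),(0,1),(5,0),(0,
  0),(8,0),(1,0),(3,0),(12,0),(2,0)]⟩⟩,⟨true,0,⟨0,[(22,0),(2,0)]⟩,⟨0,[(17,0),(5,0)]⟩⟩,⟨true,0,⟨0,
  [(42,0)]⟩,⟨0,[]⟩⟩,⟨false,0,⟨36,[(0,0),(5,29),(0,8),(1,1),(2,8),(8,2),(0,5),(4,9),(1,1)]⟩,⟨0,[(3,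
  0),(22,0)]⟩⟩,⟨false,0,⟨0,[(38,0)]⟩,⟨9,[(3,1),(0,2),(4,0),(8,0),(1,0),(0,1),(0,1),(17,5)]⟩⟩,⟨true,
  (-1),⟨0,[(0,0),(7,0)]⟩,⟨0,[(3,0),(22,0),(10,0)]⟩⟩,[]⟩) (.I [0,1,-2,-1,1,0,0,0,-1] (.R ⟨1,false,
  false,false,[1,0,0,-1],[0,1],[0,1,0,0,0,0,0,0,-1],(⟨0,[(23,0)]⟩,⟨0,[(24,0)]⟩),(⟨0,[(36,0)]⟩,⟨0,
  [(35,0)]⟩),⟨0,[(3,0)]⟩,.k,.k,(.x (-1) ⟨7,[(15,3),(1,3),(3,2),(0,2),(11,1)]⟩ ⟨0,[(36,0)]⟩),(.x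
  (-1) ⟨7,[(15,3),(1,3),(3,2),(0,2),(11,1)]⟩ ⟨0,[(36,0)]⟩),(.x 0 ⟨9,[(9,1),(0,2),(1,1),(2,9),(1,9),
  (8,2),(0,1),(6,2),(2,0)]⟩ ⟨3,[(21,0),(0,0),(13,7),(3,1)]⟩),.k,⟨false,1,⟨0,[(0,0)]⟩,⟨4,[(2,2),(6,
  1),(0,1),(3,0),(7,0),(14,0),(1,2)]⟩⟩,⟨true,0,⟨0,[(23,0)]⟩,⟨9,[(9,1),(0,2),(1,1),(11,9),(1,2),(0,
  1),(6,2),(2,0)]⟩⟩,⟨true,0,⟨0,[(43,0)]⟩,⟨0,[]⟩⟩,⟨false,0,⟨18,[(2,7),(4,6),(2,5),(2,7),(0,3),(5,0),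
  (1,1),(0,11),(15,10)]⟩,⟨19,[(0,3),(0,11),(4,7),(14,2),(0,0),(1,7)]⟩⟩,⟨false,0,⟨0,[(39,0)]⟩,⟨9,[(4,
  1),(0,2),(4,0),(8,0),(1,0),(0,1),(0,1),(17,5)]⟩⟩,⟨false,0,⟨18,[(2,7),(4,6),(2,5),(2,7),(0,3),(5,
  0),(1,1),(0,11),(15,29)]⟩,⟨31,[(0,3),(0,11),(2,11),(0,19),(15,2),(0,0),(1,7)]⟩⟩,[.o ⟨false,0,⟨0,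
  [(39,0)]⟩,⟨11,[(5,3),(15,2),(0,2),(11,3),(6,1)]⟩⟩,.o ⟨false,1,⟨3,[(21,0),(0,0),(16,3),(1,1)]⟩,⟨0,
  [(12,0)]⟩⟩,.o ⟨false,1,⟨1,[(24,1),(9,0),(5,0)]⟩,⟨7,[(7,1),(1,1),(0,1),(1,1),(8,0),(1,5),(2,1),(0,
  1),(6,0)]⟩⟩,.a ⟨true,0,⟨0,[(24,0)]⟩,⟨0,[(23,0)]⟩⟩ ⟨false,1,⟨1,[(21,0),(18,0)]⟩,⟨5,[(2,3),(7,0),
  (11,0),(3,0),(10,2)]⟩⟩ ⟨true,0,⟨0,[(23,0),(15,0)]⟩,⟨0,[(12,0),(11,0)]⟩⟩]⟩) (.R ⟨1,false,false,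
  true,[1,0,0,-1],[1,-1],[0,1,0,0,0,0,0,0,-1],(⟨0,[(23,0)]⟩,⟨0,[(24,0)]⟩),(⟨0,[(35,0)]⟩,⟨0,[(36,
  0)]⟩),⟨0,[(3,0)]⟩,.k,.k,(.x (-1) ⟨7,[(15,3),(1,3),(3,2),(0,2),(11,1)]⟩ ⟨0,[(36,0)]⟩),(.r 0 ⟨0,[(1,
  0),(7,0),(0,0),(8,0),(3,0),(3,0),(11,0)]⟩ ⟨5,[(2,1),(2,1),(16,1),(0,1),(0,1),(15,2),(0,0)]⟩),.k,
  .k,⟨true,0,⟨0,[(1,0),(7,0),(0,0),(8,0),(3,0),(3,0),(11,0)]⟩,⟨1,[(0,0),(1,0),(2,0),(17,0),(0,0),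
  (15,0)]⟩⟩,⟨false,0,⟨7,[(7,1),(1,1),(0,1),(1,1),(8,0),(1,5),(2,1),(0,1),(6,0)]⟩,⟨0,[(24,0),(15,
  0)]⟩⟩,⟨true,0,⟨0,[(43,0)]⟩,⟨0,[]⟩⟩,⟨false,0,⟨0,[(7,0),(30,0)]⟩,⟨0,[(4,0),(34,0)]⟩⟩,⟨false,0,⟨0,
  [(39,0)]⟩,⟨9,[(4,1),(0,2),(4,0),(8,0),(1,0),(0,1),(0,1),(17,5)]⟩⟩,⟨false,0,⟨0,[(7,0),(35,0)]⟩,⟨0,
  [(4,0)]⟩⟩,[.o ⟨false,0,⟨0,[(12,0)]⟩,⟨3,[(21,0),(0,0),(16,3),(1,1)]⟩⟩,.o ⟨false,1,⟨11,[(5,3),(15,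
  2),(0,2),(11,3),(6,1)]⟩,⟨0,[(39,0)]⟩⟩,.o ⟨false,1,⟨1,[(24,1),(9,0),(5,0)]⟩,⟨7,[(7,1),(1,1),(0,1),
  (1,1),(8,0),(1,5),(2,1),(0,1),(6,0)]⟩⟩,.a ⟨true,0,⟨0,[(24,0)]⟩,⟨0,[(23,0)]⟩⟩ ⟨false,1,⟨1,[(21,0),
  (18,0)]⟩,⟨17,[(0,3),(1,3),(2,0),(4,0),(8,0),(2,4),(14,7)]⟩⟩ ⟨true,0,⟨0,[(12,0),(10,0)]⟩,⟨0,[(24,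
  0),(14,0)]⟩⟩]⟩)))) (.I [1,0,0,0,0,0,0,0,-1] (.R ⟨0,false,false,false,[1,0,0,-1],[0,1],[0,1,0,0,0,
  0,0,0,-1],(⟨0,[(21,0)]⟩,⟨0,[(22,0)]⟩),(⟨0,[(34,0)]⟩,⟨0,[(33,0)]⟩),⟨0,[(1,0)]⟩,.k,.k,(.x (-1) ⟨7,
  [(13,3),(1,3),(3,2),(0,2),(11,1)]⟩ ⟨0,[(34,0)]⟩),(.x (-1) ⟨7,[(13,3),(1,3),(3,2),(0,2),(11,1)]⟩
  ⟨0,[(34,0)]⟩),.k,.k,⟨false,1,⟨0,[(0,0),(35,0),(1,0)]⟩,⟨0,[(5,0),(16,0),(14,0)]⟩⟩,⟨true,0,⟨0,[(21,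
  0)]⟩,⟨9,[(7,1),(0,2),(1,1),(11,9),(1,2),(0,1),(6,2),(2,0)]⟩⟩,⟨true,0,⟨0,[(41,0)]⟩,⟨0,[]⟩⟩,⟨false,
  0,⟨0,[(5,0),(15,0),(0,0),(14,0)]⟩,⟨0,[(2,0),(7,0)]⟩⟩,⟨false,0,⟨0,[]⟩,⟨0,[]⟩⟩,⟨false,0,⟨0,[]⟩,⟨0,
  []⟩⟩,[.o ⟨false,0,⟨0,[(37,0)]⟩,⟨11,[(3,3),(15,2),(0,2),(11,3),(6,1)]⟩⟩,.o ⟨false,1,⟨3,[(19,0),(0,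
  0),(16,3),(1,1)]⟩,⟨0,[(10,0)]⟩⟩,.o ⟨false,1,⟨1,[(22,1),(9,0),(5,0)]⟩,⟨6,[(0,0),(4,0),(1,0),(0,1),
  (1,0),(10,5),(2,1),(0,0),(6,1)]⟩⟩,.a ⟨true,0,⟨0,[(22,0)]⟩,⟨0,[(21,0)]⟩⟩ ⟨false,1,⟨1,[(19,0),(18,
  0)]⟩,⟨0,[(5,0),(16,0)]⟩⟩ ⟨true,0,⟨0,[(21,0),(15,0)]⟩,⟨0,[(10,0),(11,0)]⟩⟩]⟩) (.I [1,0,1,0,0,0,0,0,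
  -1] (.R ⟨0,false,false,true,[1,0,0,-1],[1,-1],[1,1,0,-1,0,0,0,0,-1],(⟨0,[(22,0)]⟩,⟨0,[(23,0)]⟩),
  (⟨0,[(34,0)]⟩,⟨0,[(35,0)]⟩),⟨0,[(2,0)]⟩,.k,.k,(.x (-1) ⟨7,[(14,3),(1,3),(3,2),(0,2),(11,1)]⟩ ⟨0,
  [(35,0)]⟩),(.r 0 ⟨0,[(0,0),(37,0)]⟩ ⟨5,[(1,1),(2,1),(16,1),(0,1),(0,1),(15,2),(0,0)]⟩),.k,.k,
  ⟨true,0,⟨0,[(0,0)]⟩,⟨0,[(1,0)]⟩⟩,⟨false,0,⟨5,[(0,2),(5,2),(1,0),(2,0),(10,2),(1,0),(1,1)]⟩,⟨0,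
  [(23,0),(15,0)]⟩⟩,⟨true,0,⟨0,[(37,0)]⟩,⟨0,[(38,0)]⟩⟩,⟨false,0,⟨0,[(6,0),(30,0)]⟩,⟨0,[(3,0),(34,
  0)]⟩⟩,⟨false,0,⟨0,[]⟩,⟨0,[]⟩⟩,⟨false,0,⟨0,[]⟩,⟨0,[]⟩⟩,[.o ⟨false,0,⟨0,[(11,0)]⟩,⟨3,[(20,0),(0,0),
  (16,3),(1,1)]⟩⟩,.o ⟨false,1,⟨11,[(4,3),(15,2),(0,2),(11,3),(6,1)]⟩,⟨0,[(38,0)]⟩⟩,.o ⟨false,1,⟨1,
  [(23,1),(9,0),(5,0)]⟩,⟨5,[(0,2),(5,2),(1,0),(2,0),(10,2),(1,0),(1,1)]⟩⟩,.a ⟨true,0,⟨0,[(23,0)]⟩,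
  ⟨0,[(22,0)]⟩⟩ ⟨false,1,⟨2,[(3,0),(0,0),(15,0),(1,0),(16,0)]⟩,⟨4,[(1,2),(6,1),(0,1),(3,0),(7,0),
  (14,0),(1,2)]⟩⟩ ⟨true,0,⟨0,[(11,0),(10,0)]⟩,⟨0,[(23,0),(14,0)]⟩⟩]⟩) (.R ⟨0,false,false,true,[1,0,
  0,-1],[1,-1],[1,1,-1,-1],(⟨0,[(22,0)]⟩,⟨0,[(23,0)]⟩),(⟨0,[(34,0)]⟩,⟨0,[(35,0)]⟩),⟨0,[(2,0)]⟩,.k,
  .k,(.x (-1) ⟨7,[(14,3),(1,3),(3,2),(0,2),(11,1)]⟩ ⟨0,[(35,0)]⟩),(.r 0 ⟨0,[(3,0),(4,1),(0,0),(8,0),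
  (3,0),(3,1)]⟩ ⟨5,[(0,1),(2,1),(0,1),(16,2),(0,1),(16,0)]⟩),.k,.k,⟨true,0,⟨0,[]⟩,⟨7,[(9,1),(0,1),
  (9,0),(0,0),(6,1)]⟩⟩,⟨false,0,⟨7,[(6,1),(1,1),(0,1),(1,1),(8,0),(1,5),(2,1),(0,1),(6,0)]⟩,⟨0,[(23,
  0),(15,0)]⟩⟩,⟨true,0,⟨0,[(0,0),(36,0)]⟩,⟨0,[(3,0),(4,1),(0,0),(8,0),(3,0),(3,1)]⟩⟩,⟨false,0,⟨0,
  [(6,0),(30,0)]⟩,⟨0,[(3,0),(34,0)]⟩⟩,⟨false,0,⟨0,[]⟩,⟨0,[]⟩⟩,⟨false,0,⟨0,[]⟩,⟨0,[]⟩⟩,[.o ⟨false,0,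
  ⟨0,[(11,0)]⟩,⟨3,[(20,0),(0,0),(16,3),(1,1)]⟩⟩,.o ⟨false,1,⟨11,[(4,3),(15,2),(0,2),(11,3),(6,1)]⟩,
  ⟨0,[(38,0)]⟩⟩,.o ⟨false,1,⟨1,[(23,1),(9,0),(5,0)]⟩,⟨7,[(6,1),(1,1),(0,1),(1,1),(8,0),(1,5),(2,1),
  (0,1),(6,0)]⟩⟩,.a ⟨true,0,⟨0,[(23,0)]⟩,⟨0,[(22,0)]⟩⟩ ⟨false,1,⟨2,[(0,0),(2,0),(0,0),(17,0),(16,
  1)]⟩,⟨2,[(9,0),(0,0),(1,1),(0,0),(14,2),(9,0)]⟩⟩ ⟨true,0,⟨0,[(11,0),(10,0)]⟩,⟨0,[(23,0),(14,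
  0)]⟩⟩]⟩)))))))))) (.Q [0,-1,0,0,0,0,-2,-2,0,-1,2] (.p true [0,0,1] [1,0,-1] (⟨0,[(23,0)]⟩,⟨0,[(22,
  0)]⟩) .k 2 (⟨0,[(22,0)]⟩,⟨0,[(23,0)]⟩) .k (.r (-1) ⟨0,[(4,0),(28,0)]⟩ ⟨0,[(21,1)]⟩)) (.Q [0,0,0,
  -1,0,0,-1,-1,0,-1,1] (.p true [0,0,1] [1] (⟨0,[(24,0)]⟩,⟨0,[(23,0)]⟩) .k 1 (⟨0,[]⟩,⟨0,[]⟩) .k .k)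
  (.I [0,0,1,1,0,0,0,1,1] (.Q [0,0,0,0,0,-1,0,0,0,1,0,-1] (.p false [0,0,0,1] [1] (⟨0,[(17,0)]⟩,⟨0,
  [(16,0)]⟩) .k 1 (⟨0,[]⟩,⟨0,[]⟩) .k .k) (.I [0,-1,-2,-1,1,0,0,-1,-1] (.R ⟨1,false,false,true,[1,0,
  0,-1],[0,1,1],[0,0,0,0,0,0,0,0,-1],(⟨0,[(18,0)]⟩,⟨0,[(19,0)]⟩),(⟨0,[(28,0),(2,0)]⟩,⟨0,[(10,0)]⟩),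
  ⟨0,[(1,0)]⟩,.k,.k,(.x (-1) ⟨7,[(10,3),(1,3),(3,2),(0,2),(11,1)]⟩ ⟨0,[(31,0)]⟩),(.r (-1) ⟨7,[(0,3),
  (15,2),(0,0),(8,3),(6,3)]⟩ ⟨0,[(2,0)]⟩),(.r (-1) ⟨0,[(0,0),(32,0)]⟩ ⟨1,[(2,1),(21,0),(0,0),(8,
  1)]⟩),.k,⟨false,1,⟨0,[(0,0)]⟩,⟨0,[(2,0),(35,0)]⟩⟩,⟨true,0,⟨0,[(13,0),(4,0)]⟩,⟨0,[(19,0),(1,0)]⟩⟩,
  ⟨false,1,⟨3,[(16,0),(0,0),(18,1)]⟩,⟨0,[]⟩⟩,⟨false,0,⟨0,[(2,0),(10,0),(4,0)]⟩,⟨2,[(0,0),(2,1),(1,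
  0),(10,0),(2,2),(12,0)]⟩⟩,⟨true,0,⟨0,[(34,0)]⟩,⟨0,[(33,0)]⟩⟩,⟨false,0,⟨0,[(2,0),(10,0),(4,0),(15,
  0)]⟩,⟨8,[(0,6),(2,3),(2,0),(0,3),(1,0),(4,2),(1,0),(2,8),(12,3)]⟩⟩,[.o ⟨false,0,⟨0,[(22,0),(11,
  0)]⟩,⟨3,[(3,3),(12,0),(0,0),(18,1)]⟩⟩,.o ⟨false,1,⟨8,[(2,5),(6,0),(5,3),(0,2),(5,0),(6,1),(4,2),
  (0,2)]⟩,⟨0,[(3,0)]⟩⟩,.o ⟨false,1,⟨1,[(19,1),(9,0),(5,0)]⟩,⟨0,[(13,0),(4,0),(2,0)]⟩⟩,.a ⟨true,0,⟨0,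
  [(19,0)]⟩,⟨0,[(18,0)]⟩⟩ ⟨false,1,⟨1,[(0,1),(5,0),(11,0),(0,0),(2,1),(9,0),(1,1)]⟩,⟨1,[(2,1),(0,1),
  (11,0),(2,0),(0,0)]⟩⟩ ⟨true,0,⟨0,[(18,0),(3,0),(11,0)]⟩,⟨0,[(3,0),(15,0)]⟩⟩]⟩) (.I [0,0,-1,-1,1,0,
  0,1,-1] (.I [1,0,0,0,0,0,0,-1,1] (.R ⟨1,false,false,false,[1,0,0,-1],[1,0,-1],[0,0,0,0,0,0,0,0,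
  -1],(⟨0,[(20,0)]⟩,⟨0,[(21,0)]⟩),(⟨0,[(29,0)]⟩,⟨0,[(30,0)]⟩),⟨0,[(3,0)]⟩,.k,.k,(.x (-1) ⟨7,[(12,3),
  (1,3),(3,2),(0,2),(11,1)]⟩ ⟨0,[(33,0)]⟩),.k,(.r (-1) ⟨0,[(1,0)]⟩ ⟨11,[(0,5),(1,1),(7,4),(8,1),(5,
  2),(0,7),(9,4)]⟩),.k,⟨false,1,⟨0,[(1,0),(34,0)]⟩,⟨0,[(0,0)]⟩⟩,⟨true,0,⟨0,[(20,0),(2,0)]⟩,⟨0,[(15,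
  0),(5,0)]⟩⟩,⟨false,1,⟨3,[(18,0),(0,0),(18,1)]⟩,⟨0,[]⟩⟩,⟨false,0,⟨51,[(0,23),(1,17),(2,17),(0,13),
  (0,5),(11,4),(0,51),(10,6),(2,27)]⟩,⟨0,[(1,0),(13,0),(5,0),(14,0)]⟩⟩,⟨true,0,⟨0,[(36,0)]⟩,⟨0,[(35,
  0)]⟩⟩,⟨false,0,⟨18,[(0,9),(1,8),(3,3),(0,2),(2,9),(4,1),(4,18),(10,5),(2,6)]⟩,⟨0,[(1,0),(13,0),(5,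
  0)]⟩⟩,[.o ⟨false,0,⟨1,[(6,0),(2,0),(26,0)]⟩,⟨11,[(11,3),(5,3),(0,2),(0,2),(4,3),(6,1)]⟩⟩,.o
  ⟨false,1,⟨3,[(6,1),(11,0),(0,0),(11,0),(6,0)]⟩,⟨0,[(24,0)]⟩⟩,.o ⟨false,1,⟨1,[(21,1),(9,0),(5,0)]⟩,
  ⟨0,[(15,0),(4,0),(2,0)]⟩⟩,.a ⟨true,0,⟨0,[(21,0)]⟩,⟨0,[(20,0)]⟩⟩ ⟨false,1,⟨0,[(1,0),(8,0),(4,0)]⟩,
  ⟨7,[(0,1),(1,1),(16,1),(6,0),(0,0),(6,1),(0,1)]⟩⟩ ⟨true,0,⟨1,[(6,0),(2,0),(10,1),(15,0)]⟩,⟨0,[(21,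
  0),(2,0)]⟩⟩]⟩) (.R ⟨1,false,false,false,[1,0,0,-1],[1,0,-1],[1,0,0,-1,0,0,0,0,-1],(⟨0,[(20,0)]⟩,
  ⟨0,[(21,0)]⟩),(⟨0,[(29,0)]⟩,⟨0,[(30,0)]⟩),⟨0,[(3,0)]⟩,.k,.k,(.x (-1) ⟨7,[(12,3),(1,3),(3,2),(0,2),
  (11,1)]⟩ ⟨0,[(33,0)]⟩),.k,(.r (-1) ⟨0,[(1,0)]⟩ ⟨2,[(2,0),(7,0),(8,0),(6,0),(1,2),(7,0)]⟩),.k,
  ⟨false,1,⟨0,[(1,0)]⟩,⟨0,[(2,0),(3,0),(10,0),(19,0)]⟩⟩,⟨true,0,⟨0,[(20,0),(2,0)]⟩,⟨0,[(15,0),(5,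
  0)]⟩⟩,⟨false,1,⟨0,[(35,0),(2,0)]⟩,⟨0,[(36,0)]⟩⟩,⟨false,0,⟨3,[(2,1),(2,1),(0,1),(8,1),(3,0),(0,3),
  (13,1),(2,0)]⟩,⟨17,[(0,11),(10,1),(5,7),(0,2),(2,17),(2,1),(6,3),(5,8)]⟩⟩,⟨true,0,⟨0,[]⟩,⟨0,[(40,
  0)]⟩⟩,⟨false,0,⟨0,[(4,0),(1,0),(8,0),(4,0)]⟩,⟨0,[(1,0),(13,0),(5,0)]⟩⟩,[.o ⟨false,0,⟨1,[(6,0),(2,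
  0),(26,0)]⟩,⟨11,[(11,3),(5,3),(0,2),(0,2),(4,3),(6,1)]⟩⟩,.o ⟨false,1,⟨3,[(6,1),(11,0),(0,0),(11,
  0),(6,0)]⟩,⟨0,[(24,0)]⟩⟩,.o ⟨false,1,⟨1,[(21,1),(9,0),(5,0)]⟩,⟨0,[(15,0),(4,0),(2,0)]⟩⟩,.a ⟨true,
  0,⟨0,[(21,0)]⟩,⟨0,[(20,0)]⟩⟩ ⟨false,1,⟨5,[(0,1),(0,3),(3,1),(0,1),(10,2),(2,0),(0,0),(12,1),(2,
  1)]⟩,⟨2,[(2,0),(7,0),(8,0),(6,0),(9,0)]⟩⟩ ⟨true,0,⟨1,[(6,0),(2,0),(10,1),(15,0)]⟩,⟨0,[(21,0),(2,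
  0)]⟩⟩]⟩)) (.Q [0,0,1,1,-1,0,-1,-1,1,0,1,-1] (.p true [0,0,1] [0,0,0,1] (⟨0,[(29,0)]⟩,⟨0,[(28,
  0)]⟩) .k 2 (⟨0,[(20,0)]⟩,⟨0,[(19,0)]⟩) .k (.r (-1) ⟨1,[(10,0),(6,0),(21,0)]⟩ ⟨3,[(0,1),(3,1),(11,
  0),(1,0),(0,0),(0,0),(15,0)]⟩)) (.Q [0,1,1,0,-1,0,0,0,1,0,0,-1] (.p false [0,0,0,1] [] (⟨0,[(21,
  0)]⟩,⟨0,[(20,0)]⟩) .k 0 (⟨0,[]⟩,⟨0,[]⟩) .k .k) (.K ⟨0,[0,0,0,1],0,(-1),(⟨0,[(22,0)]⟩,⟨0,[(21,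
  0)]⟩),.k,(.x 0 ⟨2,[(9,1),(3,0),(1,0),(11,3),(5,0)]⟩ ⟨0,[(34,0),(3,0)]⟩),(.x 0 ⟨0,[(34,0)]⟩ ⟨7,
  [(13,3),(1,3),(3,2),(0,2),(11,1)]⟩),.k,.k,[⟨0,[(22,0)]⟩,⟨0,[(21,0)]⟩,⟨1,[(19,0),(2,1),(15,0),(2,
  1)]⟩,⟨0,[(0,0)]⟩]⟩) (.R ⟨1,false,false,false,[1,0,0,-1],[1,0,-1],[0,0,0,0,0,0,0,-1],(⟨0,[(21,0)]⟩,
  ⟨0,[(22,0)]⟩),(⟨0,[(30,0)]⟩,⟨0,[(31,0)]⟩),⟨0,[(4,0)]⟩,.k,.k,(.x (-1) ⟨7,[(13,3),(1,3),(3,2),(0,2),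
  (11,1)]⟩ ⟨0,[(34,0)]⟩),.k,(.r (-2) ⟨7,[(12,3),(6,4),(0,0),(15,7),(1,3),(0,1)]⟩ ⟨0,[(1,0),(14,0),
  (5,0)]⟩),.k,⟨false,1,⟨3,[(19,0),(0,0),(17,1)]⟩,⟨0,[]⟩⟩,⟨true,0,⟨0,[(21,0),(2,0)]⟩,⟨0,[(16,0),(5,
  0)]⟩⟩,⟨false,0,⟨0,[(2,0),(32,0),(0,0),(1,0)]⟩,⟨1,[(12,0),(6,0),(21,0)]⟩⟩,⟨false,0,⟨7,[(1,3),(4,3),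
  (13,1),(0,3),(5,0),(0,0),(6,1),(3,1)]⟩,⟨0,[(0,0),(24,0)]⟩⟩,⟨false,0,⟨1,[(2,1),(35,0),(0,0)]⟩,⟨2,
  [(0,0),(9,0),(1,0),(4,0),(1,0),(1,0),(3,0),(9,0),(0,0)]⟩⟩,⟨true,(-1),⟨0,[(1,0)]⟩,⟨0,[(0,0),(24,0),
  (10,0)]⟩⟩,[.o ⟨false,0,⟨1,[(7,0),(2,0),(26,0)]⟩,⟨11,[(12,3),(5,3),(0,2),(0,2),(4,3),(6,1)]⟩⟩,.o
  ⟨false,1,⟨3,[(7,1),(11,0),(0,0),(11,0),(6,0)]⟩,⟨0,[(25,0)]⟩⟩,.o ⟨false,1,⟨1,[(22,1),(9,0),(5,0)]⟩,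
  ⟨25,[(1,5),(1,3),(6,9),(8,4),(1,19),(3,1),(1,3),(4,4),(2,7)]⟩⟩,.a ⟨true,0,⟨0,[(22,0)]⟩,⟨0,[(21,
  0)]⟩⟩ ⟨false,1,⟨1,[(29,1),(8,0),(0,0)]⟩,⟨3,[(0,0),(2,0),(5,0),(7,0),(3,0),(3,2),(9,1)]⟩⟩ ⟨true,0,
  ⟨4,[(1,1),(4,1),(1,0),(10,0),(1,2),(7,0)]⟩,⟨0,[(22,0),(2,0)]⟩⟩]⟩)) (.I [0,1,-1,0,1,0,0,1,-1] (.R
  ⟨1,false,false,false,[1,0,0,-1],[1,0,-1],[0,1,0,0,0,0,0,0,-1],(⟨0,[(21,0)]⟩,⟨0,[(22,0)]⟩),(⟨0,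
  [(30,0)]⟩,⟨0,[(31,0)]⟩),⟨0,[(4,0)]⟩,.k,.k,(.x (-1) ⟨7,[(13,3),(1,3),(3,2),(0,2),(11,1)]⟩ ⟨0,[(34,
  0)]⟩),.k,(.x 0 ⟨0,[(15,0),(0,0)]⟩ ⟨9,[(8,1),(0,3),(9,2),(0,2),(9,9),(1,1),(1,9)]⟩),.k,⟨false,1,⟨0,
  [(0,0)]⟩,⟨0,[(2,0),(32,0),(0,0),(1,0)]⟩⟩,⟨true,0,⟨0,[(21,0),(2,0)]⟩,⟨0,[(16,0),(5,0)]⟩⟩,⟨true,0,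
  ⟨0,[(41,0)]⟩,⟨0,[]⟩⟩,⟨false,0,⟨91,[(2,41),(3,41),(0,3),(0,5),(0,17),(10,24),(0,91),(10,10),(2,
  43)]⟩,⟨0,[(1,0),(35,0)]⟩⟩,⟨false,0,⟨0,[(37,0)]⟩,⟨0,[(36,0),(2,0)]⟩⟩,⟨false,0,⟨3,[(2,1),(2,1),(1,
  1),(13,3),(10,0),(6,0)]⟩,⟨0,[(1,0)]⟩⟩,[.o ⟨false,0,⟨1,[(7,0),(2,0),(26,0)]⟩,⟨11,[(12,3),(5,3),(0,
  2),(0,2),(4,3),(6,1)]⟩⟩,.o ⟨false,1,⟨3,[(7,1),(11,0),(0,0),(11,0),(6,0)]⟩,⟨0,[(25,0)]⟩⟩,.o ⟨false,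
  1,⟨1,[(22,1),(9,0),(5,0)]⟩,⟨0,[(16,0),(4,0),(2,0)]⟩⟩,.a ⟨true,0,⟨0,[(22,0)]⟩,⟨0,[(21,0)]⟩⟩ ⟨false,
  1,⟨1,[(19,0),(18,0)]⟩,⟨5,[(2,3),(9,1),(7,0),(14,3),(0,3),(1,0)]⟩⟩ ⟨true,0,⟨1,[(7,0),(2,0),(10,1),
  (15,0)]⟩,⟨0,[(22,0),(2,0)]⟩⟩]⟩) (.R ⟨1,false,false,true,[1,0,0,-1],[0,1],[1,0,0,-1,0,0,0,0,-1],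
  (⟨0,[(21,0)]⟩,⟨0,[(22,0)]⟩),(⟨0,[(34,0)]⟩,⟨0,[(33,0)]⟩),⟨0,[(4,0)]⟩,.k,.k,(.x (-1) ⟨7,[(13,3),(1,
  3),(3,2),(0,2),(11,1)]⟩ ⟨0,[(34,0)]⟩),(.x (-1) ⟨7,[(13,3),(1,3),(3,2),(0,2),(11,1)]⟩ ⟨0,[(34,
  0)]⟩),(.r (-2) ⟨3,[(1,3),(4,3),(12,0),(0,0),(0,3),(16,1)]⟩ ⟨7,[(2,4),(0,3),(1,0),(13,0),(15,1),(1,
  5)]⟩),.k,⟨false,2,⟨1,[(1,1),(4,1),(14,1),(16,0),(0,0)]⟩,⟨0,[(0,0),(16,0),(7,0),(11,2)]⟩⟩,⟨true,0,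
  ⟨0,[(21,0)]⟩,⟨0,[(16,0),(5,0),(1,0)]⟩⟩,⟨false,1,⟨0,[(36,0),(2,0)]⟩,⟨0,[(37,0)]⟩⟩,⟨true,(-1),⟨0,
  [(0,0),(16,0),(3,0),(3,0),(11,1)]⟩,⟨1,[(1,1),(5,0),(2,0),(26,0)]⟩⟩,⟨true,0,⟨0,[]⟩,⟨0,[(41,0)]⟩⟩,
  ⟨true,(-1),⟨0,[(0,0),(16,0),(3,0),(3,0),(11,2)]⟩,⟨0,[(1,0),(4,0)]⟩⟩,[.o ⟨false,0,⟨0,[(37,0),(3,
  0)]⟩,⟨0,[(10,0),(28,0)]⟩⟩,.o ⟨false,0,⟨0,[(37,0)]⟩,⟨1,[(32,0),(3,1),(2,0)]⟩⟩,.o ⟨false,1,⟨1,[(22,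
  1),(9,0),(5,0)]⟩,⟨0,[(16,0),(4,0),(2,0)]⟩⟩,.a ⟨true,0,⟨0,[(22,0)]⟩,⟨0,[(21,0)]⟩⟩ ⟨true,1,⟨3,[(1,
  1),(4,1),(12,0),(1,1),(16,0)]⟩,⟨0,[(0,0),(16,0),(7,0),(11,1)]⟩⟩ ⟨false,0,⟨0,[(21,0),(15,0)]⟩,⟨3,
  [(1,1),(4,1),(13,0),(1,1),(9,0),(2,1)]⟩⟩]⟩))))) (.I [1,0,-2,-1,1,0,0,0,-1] (.I [1,-1,-2,-1,1,0,0,
  -1,-1] (.R ⟨0,false,false,true,[1,0,0,-1],[0,1,1],[1,0,0,0,0,0,0,0,-1],(⟨0,[(19,0)]⟩,⟨0,[(20,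
  0)]⟩),(⟨0,[(29,0),(2,0)]⟩,⟨0,[(11,0)]⟩),⟨0,[(2,0)]⟩,.k,.k,(.x (-1) ⟨7,[(11,3),(1,3),(3,2),(0,2),
  (11,1)]⟩ ⟨0,[(32,0)]⟩),(.r (-1) ⟨7,[(0,3),(16,2),(0,0),(8,3),(6,3)]⟩ ⟨0,[(3,0)]⟩),.k,.k,⟨false,1,
  ⟨0,[(0,0)]⟩,⟨0,[(3,0),(35,0)]⟩⟩,⟨true,0,⟨0,[(14,0),(4,0)]⟩,⟨0,[(20,0),(1,0)]⟩⟩,⟨true,0,⟨0,[]⟩,⟨0,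
  [(39,0)]⟩⟩,⟨false,0,⟨0,[(3,0),(10,0),(4,0)]⟩,⟨0,[(0,0),(19,0),(1,0)]⟩⟩,⟨false,0,⟨0,[]⟩,⟨0,[]⟩⟩,
  ⟨false,0,⟨0,[]⟩,⟨0,[]⟩⟩,[.o ⟨false,0,⟨0,[(23,0),(11,0)]⟩,⟨3,[(4,3),(12,0),(0,0),(18,1)]⟩⟩,.o
  ⟨false,1,⟨8,[(3,5),(6,0),(5,3),(0,2),(5,0),(6,1),(4,2),(0,2)]⟩,⟨0,[(4,0)]⟩⟩,.o ⟨false,1,⟨1,[(20,
  1),(9,0),(5,0)]⟩,⟨0,[(14,0),(4,0),(2,0)]⟩⟩,.a ⟨true,0,⟨0,[(20,0)]⟩,⟨0,[(19,0)]⟩⟩ ⟨false,1,⟨4,[(0,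
  1),(0,0),(8,0),(6,0),(15,0),(1,2)]⟩,⟨1,[(3,1),(0,1),(11,0),(2,0),(0,0)]⟩⟩ ⟨true,0,⟨0,[(19,0),(3,
  0),(11,0)]⟩,⟨0,[(4,0),(15,0)]⟩⟩]⟩) (.R ⟨0,false,false,true,[1,0,0,-1],[0,1,1],[0,1,0,0,0,0,0,0,
  -1],(⟨0,[(19,0)]⟩,⟨0,[(20,0)]⟩),(⟨0,[(29,0),(2,0)]⟩,⟨0,[(11,0)]⟩),⟨0,[(2,0)]⟩,.k,.k,(.x (-1) ⟨7,
  [(11,3),(1,3),(3,2),(0,2),(11,1)]⟩ ⟨0,[(32,0)]⟩),(.r (-1) ⟨3,[(1,1),(15,0),(9,3),(6,1),(2,0)]⟩ ⟨0,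
  [(3,0)]⟩),.k,.k,⟨false,1,⟨0,[(1,0),(25,0)]⟩,⟨0,[(3,0)]⟩⟩,⟨true,0,⟨0,[(14,0),(4,0)]⟩,⟨0,[(20,0),(1,
  0)]⟩⟩,⟨true,0,⟨0,[(39,0)]⟩,⟨0,[]⟩⟩,⟨false,0,⟨0,[(3,0),(10,0),(4,0)]⟩,⟨5,[(1,3),(2,1),(0,1),(11,0),
  (2,5),(9,0),(2,1)]⟩⟩,⟨false,0,⟨0,[]⟩,⟨0,[]⟩⟩,⟨false,0,⟨0,[]⟩,⟨0,[]⟩⟩,[.o ⟨false,0,⟨0,[(23,0),(11,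
  0)]⟩,⟨3,[(4,3),(12,0),(0,0),(18,1)]⟩⟩,.o ⟨false,1,⟨8,[(3,5),(6,0),(5,3),(0,2),(5,0),(6,1),(4,2),
  (0,2)]⟩,⟨0,[(4,0)]⟩⟩,.o ⟨false,1,⟨1,[(20,1),(9,0),(5,0)]⟩,⟨0,[(14,0),(4,0),(2,0)]⟩⟩,.a ⟨true,0,⟨0,
  [(20,0)]⟩,⟨0,[(19,0)]⟩⟩ ⟨false,1,⟨1,[(17,0),(18,0)]⟩,⟨1,[(0,1),(3,1),(11,0),(2,0),(0,0),(12,1),(2,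
  1)]⟩⟩ ⟨true,0,⟨0,[(19,0),(3,0),(11,0)]⟩,⟨0,[(4,0),(15,0)]⟩⟩]⟩)) (.I [1,-1,-1,0,1,0,0,0,-1] (.I [1,
  -1,0,1,0,0,0,-1,1] (.R ⟨0,false,false,false,[1,0,0,-1],[1,0,-1],[0,1,0,-1,0,0,0,0,-1],(⟨0,[(20,
  0)]⟩,⟨0,[(21,0)]⟩),(⟨0,[(29,0)]⟩,⟨0,[(30,0)]⟩),⟨0,[(3,0)]⟩,.k,.k,(.x (-1) ⟨7,[(12,3),(1,3),(3,2),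
  (0,2),(11,1)]⟩ ⟨0,[(33,0)]⟩),.k,.k,.k,⟨false,1,⟨0,[(1,0),(14,0),(7,0)]⟩,⟨0,[(0,0)]⟩⟩,⟨true,0,⟨0,
  [(20,0),(2,0)]⟩,⟨0,[(15,0),(5,0)]⟩⟩,⟨true,0,⟨0,[(35,0)]⟩,⟨0,[(36,0)]⟩⟩,⟨false,0,⟨12,[(0,4),(1,2),
  (1,0),(0,8),(2,1),(10,1),(0,12),(10,0),(2,3)]⟩,⟨0,[(1,0),(19,0),(2,0)]⟩⟩,⟨false,0,⟨0,[]⟩,⟨0,[]⟩⟩,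
  ⟨false,0,⟨0,[]⟩,⟨0,[]⟩⟩,[.o ⟨false,0,⟨1,[(6,0),(2,0),(26,0)]⟩,⟨11,[(11,3),(5,3),(0,2),(0,2),(4,3),
  (6,1)]⟩⟩,.o ⟨false,1,⟨3,[(6,1),(11,0),(0,0),(11,0),(6,0)]⟩,⟨0,[(24,0)]⟩⟩,.o ⟨false,1,⟨1,[(21,1),
  (9,0),(5,0)]⟩,⟨0,[(15,0),(4,0),(2,0)]⟩⟩,.a ⟨true,0,⟨0,[(21,0)]⟩,⟨0,[(20,0)]⟩⟩ ⟨false,1,⟨0,[(1,0),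
  (33,0)]⟩,⟨2,[(0,0),(1,0),(1,0),(33,0)]⟩⟩ ⟨true,0,⟨1,[(6,0),(2,0),(10,1),(15,0)]⟩,⟨0,[(21,0),(2,
  0)]⟩⟩]⟩) (.R ⟨0,false,false,false,[1,0,0,-1],[1,0,-1],[1,0,0,0,0,0,0,0,-1],(⟨0,[(20,0)]⟩,⟨0,[(21,
  0)]⟩),(⟨0,[(29,0)]⟩,⟨0,[(30,0)]⟩),⟨0,[(3,0)]⟩,.k,.k,(.x (-1) ⟨7,[(12,3),(1,3),(3,2),(0,2),(11,
  1)]⟩ ⟨0,[(33,0)]⟩),.k,.k,.k,⟨false,1,⟨7,[(0,3),(0,1),(9,1),(6,0),(17,3),(0,2)]⟩,⟨1,[(2,1),(2,1),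
  (11,0),(2,0),(0,0),(15,1)]⟩⟩,⟨true,0,⟨0,[(20,0),(2,0)]⟩,⟨0,[(15,0),(5,0)]⟩⟩,⟨true,0,⟨0,[]⟩,⟨0,
  [(40,0)]⟩⟩,⟨false,0,⟨18,[(2,8),(2,8),(0,4),(0,2),(7,2),(3,4),(0,18),(10,0),(2,6)]⟩,⟨0,[(1,0),(19,
  0),(2,0)]⟩⟩,⟨false,0,⟨0,[]⟩,⟨0,[]⟩⟩,⟨false,0,⟨0,[]⟩,⟨0,[]⟩⟩,[.o ⟨false,0,⟨1,[(6,0),(2,0),(26,0)]⟩,
  ⟨11,[(11,3),(5,3),(0,2),(0,2),(4,3),(6,1)]⟩⟩,.o ⟨false,1,⟨3,[(6,1),(11,0),(0,0),(11,0),(6,0)]⟩,⟨0,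
  [(24,0)]⟩⟩,.o ⟨false,1,⟨1,[(21,1),(9,0),(5,0)]⟩,⟨0,[(15,0),(4,0),(2,0)]⟩⟩,.a ⟨true,0,⟨0,[(21,0)]⟩,
  ⟨0,[(20,0)]⟩⟩ ⟨false,1,⟨0,[(1,0)]⟩,⟨11,[(2,3),(16,3),(6,0),(0,0),(6,1),(0,3)]⟩⟩ ⟨true,0,⟨1,[(6,0),
  (2,0),(10,1),(15,0)]⟩,⟨0,[(21,0),(2,0)]⟩⟩]⟩)) (.R ⟨0,false,false,false,[1,0,0,-1],[0,0,0,1],[0,1,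
  1],(⟨0,[(19,0)]⟩,⟨0,[(20,0)]⟩),(⟨0,[(20,0)]⟩,⟨0,[(19,0)]⟩),⟨0,[(2,0)]⟩,.k,.k,(.x (-1) ⟨7,[(11,3),
  (1,3),(3,2),(0,2),(11,1)]⟩ ⟨0,[(32,0)]⟩),.k,.k,.k,⟨true,0,⟨0,[(0,0),(16,0)]⟩,⟨0,[(0,0),(32,0),(2,
  0)]⟩⟩,⟨false,0,⟨0,[(14,0),(4,1),(2,0)]⟩,⟨0,[(6,0),(7,0),(5,1)]⟩⟩,⟨true,(-1),⟨0,[(0,0)]⟩,⟨1,[(17,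
  0),(18,0)]⟩⟩,⟨false,(-1),⟨17,[(0,33),(5,11),(7,11),(3,0),(0,35),(10,2),(2,25)]⟩,⟨0,[(6,0),(7,0),
  (2,0),(2,1)]⟩⟩,⟨false,0,⟨0,[]⟩,⟨0,[]⟩⟩,⟨false,0,⟨0,[]⟩,⟨0,[]⟩⟩,[.o ⟨false,0,⟨5,[(0,3),(17,0),(0,
  5),(10,2),(2,1)]⟩,⟨1,[(2,1),(3,0),(4,0),(1,0),(0,0),(2,0)]⟩⟩,.o ⟨false,0,⟨8,[(0,6),(5,2),(7,2),(3,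
  0),(0,8),(10,2),(2,7)]⟩,⟨1,[(6,0),(7,0),(2,0),(2,1),(0,0),(1,0)]⟩⟩,.o ⟨false,1,⟨1,[(20,1),(9,0),
  (5,0)]⟩,⟨0,[(14,0),(4,0),(2,0)]⟩⟩,.a ⟨true,0,⟨0,[(20,0)]⟩,⟨0,[(19,0)]⟩⟩ ⟨true,0,⟨0,[(39,0)]⟩,⟨0,
  []⟩⟩ ⟨false,0,⟨8,[(0,6),(5,2),(7,2),(3,0),(0,17),(10,2),(2,7)]⟩,⟨1,[(2,1),(3,0),(4,0),(1,0),(0,0),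
  (2,0),(2,1)]⟩⟩]⟩)))) (.I [0,0,1,1,-1,0,0,0,-1] (.K ⟨0,[0,0,0,1],0,0,(⟨0,[(18,0)]⟩,⟨0,[(17,0)]⟩),
  .k,(.r (-2) ⟨3,[(15,0),(0,2),(15,3),(1,1),(0,1)]⟩ ⟨0,[(0,0)]⟩),(.x 0 ⟨0,[(30,0)]⟩ ⟨7,[(9,3),(1,3),
  (3,2),(0,2),(11,1)]⟩),.k,.k,[⟨0,[(18,0)]⟩,⟨0,[(17,0)]⟩,⟨2,[(0,1),(0,0),(11,0),(4,2),(2,0),(12,1),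
  (2,0)]⟩,⟨0,[(0,0),(5,0),(9,0),(0,0)]⟩]⟩) (.Q [0,1,1,0,0,0,0,0,1,0,0,-1] (.p false [0,0,0,1] []
  (⟨0,[(18,0)]⟩,⟨0,[(17,0)]⟩) .k 0 (⟨0,[]⟩,⟨0,[]⟩) .k .k) (.Q [0,1,-1,0,0,0,0,0,-1,0,0,1] (.p true
  [0,0,0,1] [] (⟨0,[(19,0)]⟩,⟨0,[(18,0)]⟩) .k 0 (⟨0,[]⟩,⟨0,[]⟩) .k .k) (.K ⟨0,[0,0,0,1],0,0,(⟨0,
  [(20,0)]⟩,⟨0,[(19,0)]⟩),.k,(.x 0 ⟨0,[(22,0),(2,0),(5,0)]⟩ ⟨0,[(32,0),(3,0)]⟩),(.x 0 ⟨0,[(32,0)]⟩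
  ⟨7,[(11,3),(1,3),(3,2),(0,2),(11,1)]⟩),.k,.k,[⟨0,[(20,0)]⟩,⟨0,[(19,0)]⟩,⟨0,[(0,0)]⟩,⟨0,[(1,
  0)]⟩]⟩) (.Q [0,0,0,0,0,-1,0,0,0,1,0,-1] (.p false [0,0,0,1] [1] (⟨0,[(20,0)]⟩,⟨0,[(19,0)]⟩) .k 1
  (⟨0,[]⟩,⟨0,[]⟩) .k .k) (.R ⟨1,false,false,false,[1,0,0,-1],[0,1],[0,0,0,0,0,0,0,0,-1],(⟨0,[(20,
  0)]⟩,⟨0,[(21,0)]⟩),(⟨0,[(33,0)]⟩,⟨0,[(32,0)]⟩),⟨0,[(0,0)]⟩,.k,.k,(.x (-1) ⟨7,[(12,3),(1,3),(3,2),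
  (0,2),(11,1)]⟩ ⟨0,[(33,0)]⟩),(.x (-1) ⟨7,[(12,3),(1,3),(3,2),(0,2),(11,1)]⟩ ⟨0,[(33,0)]⟩),(.r
  (-1) ⟨3,[(1,0),(1,0),(0,5),(2,0),(3,1),(4,0),(3,0),(0,1),(2,1)]⟩ ⟨1,[(1,0),(0,0),(18,1),(4,0),(0,
  0),(8,3)]⟩),.k,⟨false,1,⟨11,[(4,9),(6,3),(4,1),(1,0),(5,1),(12,6)]⟩,⟨1,[(1,0),(0,0),(18,1),(14,
  1)]⟩⟩,⟨true,0,⟨0,[(20,0)]⟩,⟨0,[(15,0),(5,0),(1,0)]⟩⟩,⟨false,1,⟨3,[(18,0),(0,0),(18,1)]⟩,⟨0,[]⟩⟩,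
  ⟨false,0,⟨0,[(1,0),(18,0),(0,0),(14,0)]⟩,⟨5,[(4,3),(4,1),(1,1),(6,0),(2,5),(9,1),(5,0)]⟩⟩,⟨true,0,
  ⟨0,[(36,0)]⟩,⟨0,[(35,0)]⟩⟩,⟨false,0,⟨0,[(1,0),(18,0),(0,0),(14,1)]⟩,⟨6,[(3,0),(0,5),(4,6),(1,2),
  (6,0),(2,6),(16,1)]⟩⟩,[.o ⟨false,0,⟨0,[(36,0)]⟩,⟨1,[(31,0),(3,1),(2,0)]⟩⟩,.o ⟨false,1,⟨3,[(18,0),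
  (0,0),(16,3),(1,1)]⟩,⟨0,[(9,0)]⟩⟩,.o ⟨false,1,⟨1,[(21,1),(9,0),(5,0)]⟩,⟨0,[(15,0),(4,0),(2,0)]⟩⟩,
  .a ⟨true,0,⟨0,[(21,0)]⟩,⟨0,[(20,0)]⟩⟩ ⟨false,1,⟨9,[(4,3),(6,1),(6,2),(15,3),(1,3),(0,4)]⟩,⟨1,[(1,
  0),(0,0),(18,1)]⟩⟩ ⟨true,0,⟨0,[(20,0),(15,0)]⟩,⟨0,[(9,0),(11,0)]⟩⟩]⟩) (.R ⟨0,false,false,false,[1,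
  0,0,-1],[0,1],[1,0,0,0,0,0,0,0,-1],(⟨0,[(20,0)]⟩,⟨0,[(21,0)]⟩),(⟨0,[(33,0)]⟩,⟨0,[(32,0)]⟩),⟨0,[(0,
  0)]⟩,.k,.k,(.x (-1) ⟨7,[(12,3),(1,3),(3,2),(0,2),(11,1)]⟩ ⟨0,[(33,0)]⟩),(.x (-1) ⟨7,[(12,3),(1,3),
  (3,2),(0,2),(11,1)]⟩ ⟨0,[(33,0)]⟩),.k,.k,⟨false,1,⟨11,[(4,9),(6,3),(4,1),(1,0),(5,1),(12,6)]⟩,⟨1,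
  [(1,0),(0,0),(18,1),(14,1)]⟩⟩,⟨true,0,⟨0,[(20,0)]⟩,⟨0,[(15,0),(5,0),(1,0)]⟩⟩,⟨true,0,⟨0,[]⟩,⟨0,
  [(40,0)]⟩⟩,⟨false,0,⟨0,[(1,0),(18,0),(0,0),(14,0)]⟩,⟨5,[(4,3),(4,1),(1,1),(6,0),(2,5),(9,1),(5,
  0)]⟩⟩,⟨false,0,⟨0,[]⟩,⟨0,[]⟩⟩,⟨false,0,⟨0,[]⟩,⟨0,[]⟩⟩,[.o ⟨false,0,⟨0,[(36,0)]⟩,⟨1,[(31,0),(3,1),
  (2,0)]⟩⟩,.o ⟨false,1,⟨3,[(18,0),(0,0),(16,3),(1,1)]⟩,⟨0,[(9,0)]⟩⟩,.o ⟨false,1,⟨1,[(21,1),(9,0),(5,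
  0)]⟩,⟨0,[(15,0),(4,0),(2,0)]⟩⟩,.a ⟨true,0,⟨0,[(21,0)]⟩,⟨0,[(20,0)]⟩⟩ ⟨false,1,⟨9,[(4,3),(6,1),(6,
  2),(15,3),(1,3),(0,4)]⟩,⟨1,[(1,0),(0,0),(18,1)]⟩⟩ ⟨true,0,⟨0,[(20,0),(15,0)]⟩,⟨0,[(9,0),(11,
  0)]⟩⟩]⟩))) (.Q [0,0,-1,-1,0,0,1,1,-1,0,-1,1] (.p false [0,0,1] [0,0,0,1] (⟨0,[(28,0)]⟩,⟨0,[(27,
  0)]⟩) .k 2 (⟨0,[(19,0)]⟩,⟨0,[(18,0)]⟩) .k (.r 0 ⟨0,[(0,0),(17,0),(2,0),(0,0)]⟩ ⟨3,[(16,0),(0,2),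
  (8,3)]⟩)) (.Q [0,0,0,0,0,-1,0,0,0,1,0,-1] (.p false [0,0,0,1] [1] (⟨0,[(20,0)]⟩,⟨0,[(19,0)]⟩) .k
  1 (⟨0,[]⟩,⟨0,[]⟩) .k .k) (.I [0,-1,-1,0,0,0,0,0,-1] (.R ⟨1,false,false,false,[1,0,0,-1],[1,0,-1],
  [0,1,0,0,0,0,0,0,-1],(⟨0,[(21,0)]⟩,⟨0,[(22,0)]⟩),(⟨0,[(30,0)]⟩,⟨0,[(31,0)]⟩),⟨0,[(1,0)]⟩,.k,.k,
  (.x (-1) ⟨7,[(13,3),(1,3),(3,2),(0,2),(11,1)]⟩ ⟨0,[(34,0)]⟩),.k,(.x 0 ⟨0,[(15,0),(0,0)]⟩ ⟨9,[(8,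
  1),(0,3),(9,2),(0,2),(9,9),(1,1),(1,9)]⟩),.k,⟨false,0,⟨0,[(0,0),(16,0),(7,0),(11,0)]⟩,⟨1,[(20,0),
  (8,1),(9,0)]⟩⟩,⟨true,0,⟨0,[(21,0),(2,0)]⟩,⟨0,[(16,0),(5,0)]⟩⟩,⟨true,0,⟨0,[(41,0)]⟩,⟨0,[]⟩⟩,⟨false,
  1,⟨7,[(7,3),(11,0),(0,4),(0,7),(2,3),(2,3),(11,1)]⟩,⟨0,[(2,0),(34,0)]⟩⟩,⟨false,0,⟨0,[(37,0)]⟩,⟨0,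
  [(36,0),(2,0)]⟩⟩,⟨false,1,⟨7,[(11,7),(7,0),(0,4),(0,7),(2,3),(2,3),(4,1)]⟩,⟨0,[(2,0)]⟩⟩,[.o
  ⟨false,0,⟨1,[(7,0),(2,0),(26,0)]⟩,⟨11,[(12,3),(5,3),(0,2),(0,2),(4,3),(6,1)]⟩⟩,.o ⟨false,1,⟨3,[(7,
  1),(11,0),(0,0),(11,0),(6,0)]⟩,⟨0,[(25,0)]⟩⟩,.o ⟨false,1,⟨1,[(22,1),(9,0),(5,0)]⟩,⟨0,[(16,0),(4,
  0),(2,0)]⟩⟩,.a ⟨true,0,⟨0,[(22,0)]⟩,⟨0,[(21,0)]⟩⟩ ⟨false,0,⟨0,[(0,0),(40,0)]⟩,⟨1,[(20,0),(6,0),(0,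
  0),(10,0)]⟩⟩ ⟨true,0,⟨1,[(7,0),(2,0),(10,1),(15,0)]⟩,⟨0,[(22,0),(2,0)]⟩⟩]⟩) (.R ⟨1,false,false,
  true,[1,0,0,-1],[0,1],[0,0,0,0,0,0,0,0,-1],(⟨0,[(21,0)]⟩,⟨0,[(22,0)]⟩),(⟨0,[(34,0)]⟩,⟨0,[(33,
  0)]⟩),⟨0,[(1,0)]⟩,.k,.k,(.x (-1) ⟨7,[(13,3),(1,3),(3,2),(0,2),(11,1)]⟩ ⟨0,[(34,0)]⟩),(.x (-1) ⟨7,
  [(13,3),(1,3),(3,2),(0,2),(11,1)]⟩ ⟨0,[(34,0)]⟩),(.r (-1) ⟨23,[(2,4),(1,7),(0,24),(2,4),(3,9),(6,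
  0),(1,4),(14,9)]⟩ ⟨3,[(0,3),(26,0),(0,0),(6,1),(1,7)]⟩),.k,⟨false,1,⟨1,[(2,0),(2,0),(2,0),(12,0),
  (17,0)]⟩,⟨0,[(0,0),(36,0)]⟩⟩,⟨true,0,⟨0,[(21,0)]⟩,⟨0,[(16,0),(5,0),(1,0)]⟩⟩,⟨false,1,⟨3,[(19,0),
  (0,0),(18,1)]⟩,⟨0,[]⟩⟩,⟨true,0,⟨0,[(0,0),(20,0),(15,0)]⟩,⟨0,[(3,0),(6,0)]⟩⟩,⟨true,0,⟨0,[(37,0)]⟩,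
  ⟨0,[(36,0)]⟩⟩,⟨true,0,⟨0,[(0,0),(20,0),(15,1)]⟩,⟨0,[(2,0),(3,0)]⟩⟩,[.o ⟨false,0,⟨0,[(37,0),(3,
  0)]⟩,⟨0,[(10,0),(28,0)]⟩⟩,.o ⟨false,0,⟨0,[(37,0)]⟩,⟨1,[(32,0),(3,1),(2,0)]⟩⟩,.o ⟨false,1,⟨1,[(22,
  1),(9,0),(5,0)]⟩,⟨0,[(16,0),(4,0),(2,0)]⟩⟩,.a ⟨true,0,⟨0,[(22,0)]⟩,⟨0,[(21,0)]⟩⟩ ⟨true,0,⟨0,[(3,
  0),(6,0),(10,0),(15,0)]⟩,⟨0,[(0,0)]⟩⟩ ⟨false,0,⟨0,[(21,0),(15,0)]⟩,⟨5,[(2,1),(1,1),(1,1),(15,3),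
  (1,1),(2,1),(4,0),(6,2)]⟩⟩]⟩)) (.I [1,-1,-1,0,0,0,0,0,-1] (.R ⟨0,false,false,false,[1,0,0,-1],[1,
  0,-1],[0,1,0,0,0,0,0,0,-1],(⟨0,[(21,0)]⟩,⟨0,[(22,0)]⟩),(⟨0,[(30,0)]⟩,⟨0,[(31,0)]⟩),⟨0,[(1,0)]⟩,.k,
  .k,(.x (-1) ⟨7,[(13,3),(1,3),(3,2),(0,2),(11,1)]⟩ ⟨0,[(34,0)]⟩),.k,.k,.k,⟨false,0,⟨0,[(0,0),(16,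
  0),(7,0),(11,0)]⟩,⟨1,[(20,0),(8,1),(9,0)]⟩⟩,⟨true,0,⟨0,[(21,0),(2,0)]⟩,⟨0,[(16,0),(5,0)]⟩⟩,⟨true,
  0,⟨0,[(41,0)]⟩,⟨0,[]⟩⟩,⟨false,1,⟨7,[(7,3),(11,0),(0,4),(0,7),(2,3),(2,3),(11,1)]⟩,⟨0,[(2,0),(34,
  0)]⟩⟩,⟨false,0,⟨0,[]⟩,⟨0,[]⟩⟩,⟨false,0,⟨0,[]⟩,⟨0,[]⟩⟩,[.o ⟨false,0,⟨1,[(7,0),(2,0),(26,0)]⟩,⟨11,
  [(12,3),(5,3),(0,2),(0,2),(4,3),(6,1)]⟩⟩,.o ⟨false,1,⟨3,[(7,1),(11,0),(0,0),(11,0),(6,0)]⟩,⟨0,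
  [(25,0)]⟩⟩,.o ⟨false,1,⟨1,[(22,1),(9,0),(5,0)]⟩,⟨0,[(16,0),(4,0),(2,0)]⟩⟩,.a ⟨true,0,⟨0,[(22,0)]⟩,
  ⟨0,[(21,0)]⟩⟩ ⟨false,0,⟨0,[(0,0),(40,0)]⟩,⟨1,[(20,0),(6,0),(0,0),(10,0)]⟩⟩ ⟨true,0,⟨1,[(7,0),(2,
  0),(10,1),(15,0)]⟩,⟨0,[(22,0),(2,0)]⟩⟩]⟩) (.R ⟨0,false,false,true,[1,0,0,-1],[0,1],[1,0,1],(⟨0,
  [(21,0)]⟩,⟨0,[(22,0)]⟩),(⟨0,[(34,0)]⟩,⟨0,[(33,0)]⟩),⟨0,[(1,0)]⟩,.k,.k,(.x (-1) ⟨7,[(13,3),(1,3),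
  (3,2),(0,2),(11,1)]⟩ ⟨0,[(34,0)]⟩),(.x (-1) ⟨7,[(13,3),(1,3),(3,2),(0,2),(11,1)]⟩ ⟨0,[(34,0)]⟩),
  .k,.k,⟨false,1,⟨11,[(2,0),(1,5),(0,4),(2,0),(3,1),(8,0),(13,1),(3,2)]⟩,⟨0,[(37,0),(3,0)]⟩⟩,⟨true,
  0,⟨0,[(21,0)]⟩,⟨0,[(16,0),(5,0),(1,0)]⟩⟩,⟨false,1,⟨0,[(0,0),(38,0)]⟩,⟨0,[(3,0),(6,0),(10,0),(15,
  0)]⟩⟩,⟨true,0,⟨0,[(0,0),(20,0),(15,0)]⟩,⟨0,[(3,0),(6,0)]⟩⟩,⟨false,0,⟨0,[]⟩,⟨0,[]⟩⟩,⟨false,0,⟨0,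
  []⟩,⟨0,[]⟩⟩,[.o ⟨false,0,⟨0,[(37,0),(3,0)]⟩,⟨0,[(10,0),(28,0)]⟩⟩,.o ⟨false,0,⟨0,[(37,0)]⟩,⟨1,[(32,
  0),(3,1),(2,0)]⟩⟩,.o ⟨false,1,⟨1,[(22,1),(9,0),(5,0)]⟩,⟨0,[(16,0),(4,0),(2,0)]⟩⟩,.a ⟨true,0,⟨0,
  [(22,0)]⟩,⟨0,[(21,0)]⟩⟩ ⟨true,0,⟨0,[]⟩,⟨0,[(41,0)]⟩⟩ ⟨false,0,⟨0,[(21,0),(15,0)]⟩,⟨5,[(2,1),(1,1),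
  (1,1),(15,3),(1,1),(2,1),(4,0),(6,2)]⟩⟩]⟩))) (.Q [0,1,1,0,0,0,0,0,1,1,0,-1] (.p false [0,0,0,1]
  [1] (⟨0,[(20,0)]⟩,⟨0,[(19,0)]⟩) .k 1 (⟨0,[]⟩,⟨0,[]⟩) .k .k) (.R ⟨1,false,false,true,[0,0,1],[0,0,
  0,1],[0,1],(⟨0,[(30,0)]⟩,⟨0,[(29,0)]⟩),(⟨0,[(21,0)]⟩,⟨0,[(20,0)]⟩),⟨0,[(14,0)]⟩,.k,.k,.k,.k,(.r
  (-1) ⟨5,[(4,3),(6,3),(4,1),(1,0),(5,1),(12,0)]⟩ ⟨0,[(1,0),(13,0),(5,0)]⟩),.k,⟨false,0,⟨0,[(2,0),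
  (6,0),(10,0),(15,0)]⟩,⟨3,[(18,0),(0,2)]⟩⟩,⟨true,0,⟨0,[(20,0),(2,0)]⟩,⟨0,[(15,0),(5,0)]⟩⟩,⟨false,0,
  ⟨0,[(28,0)]⟩,⟨7,[(11,3),(6,0),(0,0),(18,1)]⟩⟩,⟨true,0,⟨1,[(0,0),(0,0),(11,0)]⟩,⟨0,[(2,0),(21,
  0)]⟩⟩,⟨false,0,⟨0,[(28,0),(7,0)]⟩,⟨6,[(3,0),(0,0),(6,3),(22,1),(0,4),(2,1)]⟩⟩,⟨false,0,⟨0,[(1,
  0)]⟩,⟨7,[(2,7),(0,1),(5,2),(1,3),(5,2),(0,0),(7,1),(8,2),(2,0)]⟩⟩,[.a ⟨true,0,⟨0,[(0,0)]⟩,⟨0,[(2,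
  0)]⟩⟩ ⟨true,0,⟨0,[(40,0)]⟩,⟨3,[(26,0),(0,0),(6,1)]⟩⟩ ⟨false,1,⟨19,[(0,19),(6,11),(0,3),(9,2),(0,
  2),(11,1)]⟩,⟨0,[(2,0),(12,0)]⟩⟩,.o ⟨false,1,⟨1,[(0,1),(30,0),(6,0)]⟩,⟨0,[(2,0),(6,0),(26,0)]⟩⟩,.o
  ⟨false,0,⟨0,[(15,0)]⟩,⟨9,[(7,1),(0,3),(9,2),(0,2),(11,1)]⟩⟩,.o ⟨false,0,⟨0,[(26,0)]⟩,⟨19,[(7,11),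
  (0,3),(9,2),(0,2),(11,1)]⟩⟩]⟩) (.R ⟨1,true,false,false,[0,0,1],[0,0,0,1],[0,1,0,0,0,0,0,1],(⟨0,
  [(30,0)]⟩,⟨0,[(29,0)]⟩),(⟨0,[(21,0)]⟩,⟨0,[(20,0)]⟩),⟨0,[(14,0)]⟩,.k,.k,.k,.k,(.r (-1) ⟨5,[(4,3),
  (6,3),(4,1),(1,0),(5,1),(12,0)]⟩ ⟨0,[(1,0),(13,0),(5,0)]⟩),.k,⟨false,0,⟨0,[(0,0),(15,0),(3,0),(3,
  0),(11,0)]⟩,⟨1,[(19,0),(8,1),(9,0)]⟩⟩,⟨true,0,⟨0,[(20,0),(2,0)]⟩,⟨0,[(15,0),(5,0)]⟩⟩,⟨true,0,⟨0,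
  [(40,0)]⟩,⟨0,[]⟩⟩,⟨false,1,⟨0,[(1,0),(33,0),(2,0)]⟩,⟨0,[(2,0),(21,0)]⟩⟩,⟨false,0,⟨0,[(36,0)]⟩,⟨0,
  [(35,0),(2,0)]⟩⟩,⟨true,0,⟨0,[(1,0)]⟩,⟨0,[(2,0),(21,0),(10,0)]⟩⟩,[]⟩)))))) (.I [0,1,0,1,0,0,0,1]
  (.R ⟨2,true,false,false,[0,1],[1,0,-1],[0,1,1,1],(⟨0,[]⟩,⟨0,[]⟩),(⟨0,[(25,0)]⟩,⟨0,[(26,0)]⟩),⟨0,
  []⟩,.k,.k,.k,.k,.k,.k,⟨false,0,⟨0,[(0,0)]⟩,⟨3,[(2,1),(10,1),(16,1),(0,3),(1,2),(0,0)]⟩⟩,⟨true,0,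
  ⟨0,[(19,0)]⟩,⟨1,[(13,0),(2,0),(0,0)]⟩⟩,⟨true,0,⟨0,[(36,0)]⟩,⟨0,[]⟩⟩,⟨false,1,⟨0,[(9,0),(24,0)]⟩,
  ⟨0,[(1,0)]⟩⟩,⟨false,0,⟨0,[(32,0)]⟩,⟨0,[(31,0),(2,0)]⟩⟩,⟨true,0,⟨1,[(2,0),(2,0),(26,0)]⟩,⟨0,[(1,0),
  (29,0)]⟩⟩,[]⟩) (.R ⟨1,false,false,false,[1,-1],[1,-1,-1],[1],(⟨0,[(28,0)]⟩,⟨0,[(29,0)]⟩),(⟨0,[(8,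
  0)]⟩,⟨0,[(26,0),(2,0)]⟩),⟨0,[(8,0),(1,0)]⟩,.k,.k,(.r (-1) ⟨0,[(0,1),(0,0),(1,0),(8,0),(7,0)]⟩ ⟨0,
  [(22,0),(0,0),(8,1)]⟩),.k,.k,.k,⟨true,0,⟨0,[(1,0),(17,0)]⟩,⟨4,[(0,2),(8,0),(3,0),(7,0),(9,0)]⟩⟩,
  ⟨false,1,⟨9,[(6,1),(0,3),(4,1),(8,5),(11,4),(0,0)]⟩,⟨0,[(11,0)]⟩⟩,⟨false,0,⟨2,[(1,0),(4,0),(12,0),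
  (2,0),(7,0),(1,0)]⟩,⟨1,[(31,1),(1,0),(0,0)]⟩⟩,⟨true,0,⟨4,[(0,0),(5,1),(5,0),(8,1)]⟩,⟨0,[(20,0)]⟩⟩,
  ⟨false,0,⟨2,[(1,0),(4,0),(12,0),(2,0),(7,0),(1,3)]⟩,⟨5,[(0,3),(6,1),(23,7),(1,2),(0,0)]⟩⟩,⟨false,
  0,⟨0,[(6,0)]⟩,⟨3,[(7,1),(5,1),(13,0),(3,3),(2,0)]⟩⟩,[.a ⟨true,0,⟨4,[(0,2),(5,0),(5,2),(8,0)]⟩,⟨0,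
  [(1,0)]⟩⟩ ⟨true,0,⟨0,[]⟩,⟨1,[(22,0),(0,0)]⟩⟩ ⟨false,1,⟨4,[(0,2),(5,0),(5,2),(8,0),(11,4)]⟩,⟨2,[(1,
  0),(17,0),(0,1),(1,0),(7,0),(1,1)]⟩⟩,.o ⟨false,1,⟨0,[(9,0),(24,0)]⟩,⟨0,[(20,0),(11,0)]⟩⟩,.o
  ⟨false,0,⟨0,[(11,0),(7,0)]⟩,⟨3,[(14,0),(0,0),(17,1)]⟩⟩,.o ⟨false,0,⟨0,[(19,0),(2,0)]⟩,⟨0,[(33,
  0)]⟩⟩]⟩))) (.I [1,-1,0,0,0,0,0,-1] (.R ⟨1,false,false,true,[1,0,-1],[0,-1,1],[1,1,-1,-1,0,0,0,1],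
  (⟨0,[(24,0)]⟩,⟨0,[(25,0)]⟩),(⟨0,[(9,0)]⟩,⟨0,[(24,0),(3,0)]⟩),⟨0,[(7,0)]⟩,.k,.k,.k,(.r 0 ⟨1,[(5,0),
  (14,0),(0,1),(1,1),(7,0)]⟩ ⟨0,[(1,0),(0,0),(8,0),(17,0)]⟩),.k,.k,⟨true,0,⟨0,[]⟩,⟨1,[(21,0),(0,
  0)]⟩⟩,⟨false,0,⟨0,[(12,0)]⟩,⟨14,[(2,9),(0,4),(1,1),(0,3),(4,1),(8,5),(12,0)]⟩⟩,⟨false,1,⟨0,[(1,0),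
  (0,0),(8,0),(17,0)]⟩,⟨0,[(5,0),(15,0),(1,0)]⟩⟩,⟨false,1,⟨0,[(1,0),(28,0),(2,0)]⟩,⟨0,[(4,0),(0,
  1)]⟩⟩,⟨false,1,⟨4,[(1,4),(0,3),(0,0),(1,1),(0,0),(4,1),(17,1)]⟩,⟨3,[(0,4),(19,2),(0,2),(7,0)]⟩⟩,
  ⟨true,0,⟨0,[(1,0)]⟩,⟨0,[(5,0),(2,0)]⟩⟩,[.a ⟨true,0,⟨0,[(0,0),(0,0),(9,0)]⟩,⟨0,[(5,0)]⟩⟩ ⟨false,1,
  ⟨0,[(0,0),(0,0),(0,0),(8,0)]⟩,⟨0,[(5,0),(15,0)]⟩⟩ ⟨true,0,⟨0,[(0,0),(0,0),(28,0)]⟩,⟨0,[(5,0),(12,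
  0)]⟩⟩,.o ⟨false,1,⟨3,[(1,1),(24,0),(3,3),(2,2)]⟩,⟨0,[(4,0),(0,0),(25,0)]⟩⟩,.o ⟨false,1,⟨9,[(2,1),
  (0,3),(9,2),(0,2),(11,1)]⟩,⟨0,[(10,0)]⟩⟩,.o ⟨false,0,⟨0,[(18,0)]⟩,⟨7,[(12,3),(0,0),(0,0),(11,1),
  (5,3)]⟩⟩]⟩) (.R ⟨2,true,false,false,[0,1],[1,0,-1],[1,1,1],(⟨0,[]⟩,⟨0,[]⟩),(⟨0,[(24,0)]⟩,⟨0,[(25,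
  0)]⟩),⟨0,[]⟩,.k,.k,.k,.k,.k,.k,⟨false,0,⟨0,[(0,0)]⟩,⟨1,[(23,1),(8,0),(0,0)]⟩⟩,⟨true,0,⟨0,[(18,
  0)]⟩,⟨1,[(12,0),(2,0),(0,0)]⟩⟩,⟨true,0,⟨0,[(30,0)]⟩,⟨0,[(31,0)]⟩⟩,⟨false,1,⟨0,[(8,0),(24,0)]⟩,⟨0,
  [(1,0),(3,0)]⟩⟩,⟨false,0,⟨0,[]⟩,⟨3,[(13,0),(0,0),(18,1)]⟩⟩,⟨true,0,⟨0,[(4,0),(0,0)]⟩,⟨2,[(1,1),
  (13,0),(0,0),(3,0)]⟩⟩,[]⟩)))) (.K ⟨2,[0,1,1],0,0,(⟨0,[(22,0),(2,0)]⟩,⟨0,[(4,0)]⟩),.k,.k,(.r 0 ⟨3,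
  [(16,3),(1,0),(0,4),(6,1),(1,7)]⟩ ⟨0,[(0,0),(4,0),(2,0),(17,0),(2,0)]⟩),.k,(.r (-1) ⟨5,[(3,3),(6,
  0),(0,0),(4,3),(1,0),(0,4),(8,5)]⟩ ⟨1,[(0,2),(0,1),(0,2),(2,0),(2,1),(17,0)]⟩),[⟨1,[(18,0),(0,
  0)]⟩,⟨0,[(0,0)]⟩,⟨1,[(18,0),(0,2)]⟩,⟨0,[(7,0)]⟩,⟨0,[(8,0),(11,0)]⟩,⟨0,[(16,0),(11,0)]⟩]⟩)))

theorem ok15 : chk (cU (-1) true 10) t15 l11 = true := by decide +kernel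

noncomputable def t19 : Tre :=
  (.K ⟨2,[0,1,1],0,0,(⟨0,[(25,0),(2,0)]⟩,⟨0,[(7,0)]⟩),.k,.k,(.r 0 ⟨3,[(1,1),(19,2),(0,2),(8,5)]⟩ ⟨0,
  [(4,0),(25,0),(1,0)]⟩),.k,(.x 0 ⟨0,[(0,0)]⟩ ⟨5,[(6,1),(0,5),(10,7),(1,3),(3,5),(1,1),(5,0),(0,
  0)]⟩),[⟨1,[(21,0),(0,0)]⟩,⟨0,[(2,0)]⟩,⟨1,[(21,0),(0,2)]⟩,⟨0,[(10,0)]⟩,⟨7,[(3,0),(0,1),(6,3),(0,0),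
  (7,4)]⟩,⟨0,[(19,0),(11,0)]⟩]⟩)

theorem ok19 : chk (cU (-1) true 10) t19 l16 = true := by decide +kernel

noncomputable def t25 : Tre :=
  (.Q [0,0,0,0,0,2,0,0,0,0,-1] (.p false [0,0,1] [] (⟨0,[(31,0)]⟩,⟨0,[(30,0)]⟩) .k 0 (⟨0,[]⟩,⟨0,
  []⟩) .k .k) (.Q [0,0,0,1,0,0,-2,-2,0,-1,2] (.p true [0,0,1] [1,0,-1] (⟨0,[(32,0)]⟩,⟨0,[(31,0)]⟩)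
  .k 2 (⟨0,[(31,0)]⟩,⟨0,[(32,0)]⟩) .k (.r (-1) ⟨6,[(8,1),(4,3),(4,1),(1,0),(0,0),(4,1),(12,0)]⟩ ⟨0,
  [(30,1)]⟩)) (.R ⟨0,false,false,false,[0,-1,1],[1,0,-1],[1],(⟨0,[(17,0)]⟩,⟨1,[(1,0),(21,0),(0,0),
  (7,0)]⟩),(⟨0,[(32,0)]⟩,⟨0,[(33,0)]⟩),⟨0,[(1,0)]⟩,.k,.k,(.r (-1) ⟨0,[(2,0),(6,0),(0,0),(1,0),(6,
  0)]⟩ ⟨1,[(0,0),(19,0),(8,1),(0,1),(8,2)]⟩),(.r (-1) ⟨2,[(3,1),(5,2),(30,0)]⟩ ⟨1,[(0,1),(19,1),(8,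
  0),(0,0)]⟩),.k,.k,⟨false,1,⟨13,[(9,1),(4,3),(4,1),(1,0),(0,0),(4,1),(12,7)]⟩,⟨0,[(31,0)]⟩⟩,⟨true,
  1,⟨4,[(0,2),(1,1),(6,0),(4,1),(4,1),(20,0)]⟩,⟨1,[(6,1),(0,0),(2,0),(21,1),(2,0)]⟩⟩,⟨false,0,⟨7,
  [(0,3),(5,0),(13,4),(9,1),(6,2),(1,3),(1,0)]⟩,⟨19,[(3,3),(9,3),(0,7),(4,3),(1,0),(0,0),(17,5)]⟩⟩,
  ⟨true,0,⟨0,[(0,0)]⟩,⟨7,[(7,0),(1,3),(0,4),(2,7),(5,3),(12,1),(2,0),(1,1)]⟩⟩,⟨false,0,⟨0,[]⟩,⟨0,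
  []⟩⟩,⟨false,0,⟨0,[]⟩,⟨0,[]⟩⟩,[.a ⟨true,0,⟨4,[(0,1),(11,0),(6,0),(3,1),(0,1)]⟩,⟨7,[(7,0),(1,3),(0,
  4),(8,3),(12,1),(2,0),(1,1)]⟩⟩ ⟨true,0,⟨0,[]⟩,⟨1,[(29,0),(0,0)]⟩⟩ ⟨false,1,⟨1,[(0,0),(1,1),(20,0),
  (0,0),(14,0)]⟩,⟨7,[(4,0),(1,0),(2,2),(3,0),(6,8),(9,2)]⟩⟩,.o ⟨false,1,⟨9,[(0,3),(10,1),(9,0),(0,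
  0),(11,1),(6,5)]⟩,⟨0,[(27,0)]⟩⟩,.o ⟨false,0,⟨0,[(29,0)]⟩,⟨7,[(0,1),(1,3),(6,1),(11,0),(0,0),(11,
  0),(5,0)]⟩⟩,.o ⟨false,0,⟨1,[(29,2),(0,0)]⟩,⟨0,[(2,0),(36,0)]⟩⟩]⟩) (.R ⟨0,false,false,true,[0,-1,
  1],[1,0,-1],[0,1,0,0,0,0,0,-1],(⟨0,[(17,0)]⟩,⟨1,[(1,0),(21,0),(0,0),(7,0)]⟩),(⟨0,[(32,0)]⟩,⟨0,
  [(33,0)]⟩),⟨0,[(1,0)]⟩,.k,.k,(.r (-1) ⟨4,[(0,2),(1,4),(9,0),(6,0),(3,1),(0,1)]⟩ ⟨3,[(6,1),(13,1),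
  (7,3),(0,0),(0,0),(8,7),(1,1)]⟩),(.r (-1) ⟨2,[(3,1),(5,2),(30,0)]⟩ ⟨2,[(6,0),(13,0),(7,1),(2,3),
  (7,2),(1,0)]⟩),.k,.k,⟨false,1,⟨3,[(21,0),(0,0),(17,1)]⟩,⟨0,[]⟩⟩,⟨true,1,⟨0,[(2,0),(27,0),(8,0)]⟩,
  ⟨1,[(6,1),(0,0),(2,0),(21,1),(2,0)]⟩⟩,⟨false,0,⟨2,[(6,0),(13,0),(7,1),(2,3),(7,2),(1,0)]⟩,⟨1,[(0,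
  0),(1,1),(6,0),(13,0),(0,0),(12,0)]⟩⟩,⟨true,0,⟨3,[(1,0),(3,1),(2,1),(16,3),(7,4),(5,5)]⟩,⟨0,[(0,
  0)]⟩⟩,⟨false,0,⟨0,[]⟩,⟨0,[]⟩⟩,⟨false,0,⟨0,[]⟩,⟨0,[]⟩⟩,[.o ⟨false,0,⟨0,[(25,0)]⟩,⟨3,[(14,1),(5,1),
  (13,0),(6,0)]⟩⟩,.a ⟨true,0,⟨3,[(1,0),(3,1),(2,1),(24,4),(5,1)]⟩,⟨3,[(0,0),(6,0),(1,0),(22,1),(2,
  0)]⟩⟩ ⟨true,0,⟨0,[(31,0)]⟩,⟨23,[(0,3),(5,3),(2,5),(4,1),(4,1),(1,0),(0,0),(7,5)]⟩⟩ ⟨false,1,⟨3,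
  [(1,0),(0,3),(2,1),(2,1),(24,4),(5,5)]⟩,⟨7,[(0,1),(8,1),(10,5),(8,2),(0,2)]⟩⟩,.o ⟨false,0,⟨0,[(29,
  0)]⟩,⟨4,[(2,2),(6,0),(18,1),(5,0),(4,1),(1,0)]⟩⟩,.o ⟨false,0,⟨1,[(29,2),(0,0)]⟩,⟨0,[(2,0),(36,
  0)]⟩⟩]⟩)) (.Q [0,1,-1,0,0,0,0,0,-1,0,0,1] (.p true [0,0,0,1] [] (⟨0,[(23,0)]⟩,⟨0,[(22,0)]⟩) .k 0
  (⟨0,[]⟩,⟨0,[]⟩) .k .k) (.Q [0,1,1,0,0,0,0,0,1,0,0,-1] (.p false [0,0,0,1] [] (⟨0,[(24,0)]⟩,⟨0,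
  [(23,0)]⟩) .k 0 (⟨0,[]⟩,⟨0,[]⟩) .k .k) (.K ⟨0,[0,0,0,1],0,0,(⟨0,[(25,0)]⟩,⟨0,[(24,0)]⟩),.k,(.r
  (-1) ⟨5,[(4,1),(18,2),(17,0)]⟩ ⟨7,[(1,1),(5,2),(14,2),(1,2),(0,0),(12,0),(1,7)]⟩),(.x 0 ⟨0,[(37,
  0)]⟩ ⟨11,[(2,3),(13,3),(5,4),(0,4),(11,1)]⟩),.k,.k,[⟨0,[(25,0)]⟩,⟨0,[(24,0)]⟩,⟨0,[(1,0)]⟩,⟨0,[(0,
  0)]⟩]⟩) (.Q [0,0,0,0,0,-1,0,0,0,1,0,-1] (.p false [0,0,0,1] [1] (⟨0,[(25,0)]⟩,⟨0,[(24,0)]⟩) .k 1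
  (⟨0,[]⟩,⟨0,[]⟩) .k .k) (.R ⟨1,false,false,true,[1,0,0,-1],[0,1],[0,0,0,0,0,0,0,0,-1],(⟨0,[(25,
  0)]⟩,⟨0,[(26,0)]⟩),(⟨0,[(38,0)]⟩,⟨0,[(37,0)]⟩),⟨0,[(0,0)]⟩,.k,.k,(.x (-1) ⟨11,[(3,3),(13,3),(5,4),
  (0,4),(11,1)]⟩ ⟨0,[(38,0)]⟩),(.x (-1) ⟨11,[(3,3),(13,3),(5,4),(0,4),(11,1)]⟩ ⟨0,[(38,0)]⟩),(.r
  (-1) ⟨77,[(1,31),(2,29),(0,25),(1,14),(0,0),(4,0),(1,30),(7,22),(1,31)]⟩ ⟨3,[(8,1),(13,0),(1,1),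
  (0,0),(0,0),(5,1),(8,7)]⟩),.k,⟨false,1,⟨14,[(1,10),(2,5),(0,2),(6,2),(10,1),(1,10),(10,3),(2,1)]⟩,
  ⟨1,[(8,0),(3,0),(8,1),(2,0),(16,3)]⟩⟩,⟨true,0,⟨0,[(25,0)]⟩,⟨2,[(8,0),(17,2),(9,0)]⟩⟩,⟨false,1,⟨3,
  [(23,0),(0,0),(18,1)]⟩,⟨0,[]⟩⟩,⟨true,0,⟨1,[(8,0),(3,0),(8,1),(2,0),(0,1),(15,3)]⟩,⟨0,[(1,0),(2,0),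
  (3,0),(3,0),(8,0),(19,0)]⟩⟩,⟨true,0,⟨0,[(41,0)]⟩,⟨0,[(40,0)]⟩⟩,⟨true,0,⟨1,[(8,0),(3,0),(8,1),(2,
  0),(0,1),(15,5)]⟩,⟨0,[(1,0),(2,0),(3,0),(3,0),(8,0)]⟩⟩,[.o ⟨false,0,⟨0,[(41,0),(3,0)]⟩,⟨17,[(5,5),
  (2,3),(27,6),(6,8)]⟩⟩,.o ⟨false,0,⟨0,[(41,0)]⟩,⟨35,[(5,11),(2,7),(14,8),(0,8),(11,13)]⟩⟩,.o
  ⟨false,1,⟨1,[(26,1),(9,0),(5,0)]⟩,⟨2,[(8,0),(16,2),(10,0)]⟩⟩,.a ⟨true,0,⟨0,[(26,0)]⟩,⟨0,[(25,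
  0)]⟩⟩ ⟨true,0,⟨0,[(1,0),(2,0),(3,0),(3,0),(8,0),(3,0),(15,1)]⟩,⟨1,[(8,0),(3,0),(8,1),(2,0),(16,
  1)]⟩⟩ ⟨false,0,⟨0,[(25,0),(15,0)]⟩,⟨17,[(5,5),(2,3),(17,17),(9,6),(6,8)]⟩⟩]⟩) (.R ⟨0,false,false,
  true,[1,0,0,-1],[0,1],[1,0,1],(⟨0,[(25,0)]⟩,⟨0,[(26,0)]⟩),(⟨0,[(38,0)]⟩,⟨0,[(37,0)]⟩),⟨0,[(0,0)]⟩,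
  .k,.k,(.x (-1) ⟨11,[(3,3),(13,3),(5,4),(0,4),(11,1)]⟩ ⟨0,[(38,0)]⟩),(.x (-1) ⟨11,[(3,3),(13,3),(5,
  4),(0,4),(11,1)]⟩ ⟨0,[(38,0)]⟩),.k,.k,⟨false,1,⟨5,[(5,1),(36,0),(0,2)]⟩,⟨0,[(41,0),(3,0)]⟩⟩,⟨true,
  0,⟨0,[(25,0)]⟩,⟨2,[(8,0),(17,2),(9,0)]⟩⟩,⟨false,1,⟨1,[(24,0),(6,0),(0,0),(10,0)]⟩,⟨0,[(1,0),(2,0),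
  (3,0),(3,0),(8,0),(3,0),(15,1)]⟩⟩,⟨true,0,⟨1,[(8,0),(3,0),(8,1),(2,0),(0,1),(15,3)]⟩,⟨0,[(1,0),(2,
  0),(3,0),(3,0),(8,0),(19,0)]⟩⟩,⟨false,0,⟨0,[]⟩,⟨0,[]⟩⟩,⟨false,0,⟨0,[]⟩,⟨0,[]⟩⟩,[.o ⟨false,0,⟨0,
  [(41,0),(3,0)]⟩,⟨17,[(5,5),(2,3),(27,6),(6,8)]⟩⟩,.o ⟨false,0,⟨0,[(41,0)]⟩,⟨35,[(5,11),(2,7),(14,
  8),(0,8),(11,13)]⟩⟩,.o ⟨false,1,⟨1,[(26,1),(9,0),(5,0)]⟩,⟨2,[(8,0),(16,2),(10,0)]⟩⟩,.a ⟨true,0,⟨0,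
  [(26,0)]⟩,⟨0,[(25,0)]⟩⟩ ⟨true,0,⟨0,[]⟩,⟨0,[(45,0)]⟩⟩ ⟨false,0,⟨0,[(25,0),(15,0)]⟩,⟨17,[(5,5),(2,
  3),(17,17),(9,6),(6,8)]⟩⟩]⟩))) (.Q [0,-1,-1,1,1,0,-1,-1,-1,-1,1,1] (.p true [0,0,1] [1,0,0,-1]
  (⟨0,[(33,0)]⟩,⟨0,[(32,0)]⟩) .k 2 (⟨0,[(23,0)]⟩,⟨0,[(24,0)]⟩) .k (.x 0 ⟨0,[(29,0),(3,0)]⟩ ⟨7,[(8,
  3),(12,0),(0,0),(13,3),(3,5)]⟩)) (.Q [0,1,1,0,-1,0,0,0,1,1,0,-1] (.p false [0,0,0,1] [1] (⟨0,[(25,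
  0)]⟩,⟨0,[(24,0)]⟩) .k 1 (⟨0,[]⟩,⟨0,[]⟩) .k .k) (.R ⟨1,false,false,false,[0,-1,1],[1,0,0,-1],[1,0,
  -1,-2,0,0,0,1],(⟨0,[(19,0)]⟩,⟨0,[(34,0),(3,0)]⟩),(⟨0,[(25,0)]⟩,⟨0,[(26,0)]⟩),⟨0,[(3,0)]⟩,.k,.k,
  (.r (-1) ⟨0,[(4,0),(6,0),(0,0),(1,0),(6,0)]⟩ ⟨3,[(8,1),(13,1),(7,3),(0,0),(0,0),(8,7),(1,1)]⟩),
  (.r (-1) ⟨4,[(0,0),(3,1),(0,0),(0,0),(4,1),(0,0),(11,1),(1,0)]⟩ ⟨1,[(0,1),(0,1),(6,0),(3,0),(10,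
  0)]⟩),(.r (-1) ⟨32,[(0,19),(1,8),(1,34),(1,15),(4,5),(0,14),(2,4),(8,1),(1,28)]⟩ ⟨9,[(0,7),(0,7),
  (6,5),(13,5),(0,4),(6,1),(1,1),(8,11),(1,0)]⟩),.k,⟨false,1,⟨32,[(0,19),(1,8),(1,34),(1,15),(4,5),
  (0,14),(2,4),(8,1),(1,28)]⟩,⟨1,[(0,1),(0,1),(6,0),(3,0),(10,0),(17,1)]⟩⟩,⟨true,1,⟨0,[(4,0),(21,0),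
  (14,0)]⟩,⟨1,[(0,1),(7,0),(13,0),(0,0),(15,0)]⟩⟩,⟨false,1,⟨11,[(5,3),(17,0),(0,0),(6,3),(0,3),(10,
  5)]⟩,⟨0,[(41,0)]⟩⟩,⟨false,1,⟨0,[(1,0)]⟩,⟨17,[(0,12),(1,2),(3,7),(8,1),(0,3),(5,2),(1,0),(0,1),(5,
  9)]⟩⟩,⟨true,0,⟨0,[]⟩,⟨0,[(45,0)]⟩⟩,⟨false,1,⟨0,[(1,0),(39,0)]⟩,⟨0,[(0,0),(5,0),(24,0)]⟩⟩,[.o
  ⟨false,1,⟨0,[(1,0),(13,0)]⟩,⟨7,[(0,3),(1,3),(20,0),(0,0),(11,1)]⟩⟩,.a ⟨true,1,⟨0,[(1,0),(9,0),(0,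
  0),(1,0),(6,0)]⟩,⟨0,[(0,0)]⟩⟩ ⟨true,1,⟨0,[(6,0)]⟩,⟨3,[(0,1),(6,1),(0,2),(3,0),(8,1),(1,0),(2,1),
  (14,11)]⟩⟩ ⟨false,2,⟨7,[(1,7),(2,7),(4,0),(1,3),(0,4),(8,3),(12,1),(2,0),(1,1)]⟩,⟨0,[(0,0),(30,
  0)]⟩⟩,.o ⟨false,0,⟨0,[(31,0)]⟩,⟨7,[(1,1),(2,3),(6,1),(12,0),(0,1),(1,1),(8,0)]⟩⟩,.o ⟨false,0,⟨1,
  [(31,2),(0,0)]⟩,⟨0,[(4,0),(36,0)]⟩⟩]⟩) (.Q [0,0,0,1,0,0,1,1,0,1,-1,-1] (.p false [0,0,1] [1,0,0,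
  -1] (⟨0,[(35,0)]⟩,⟨0,[(34,0)]⟩) .k 2 (⟨0,[(25,0)]⟩,⟨0,[(26,0)]⟩) .k (.x 0 ⟨0,[(31,0),(3,0)]⟩ ⟨7,
  [(10,3),(12,0),(0,0),(13,3),(3,5)]⟩)) (.I [0,0,-1,-1,1,0,0,1,-1] (.I [0,1,-2,-1,1,0,0,0,-1] (.R
  ⟨1,false,false,false,[1,0,0,-1],[0,1],[0,1,0,0,0,0,0,0,-1],(⟨0,[(28,0)]⟩,⟨0,[(29,0)]⟩),(⟨0,[(41,
  0)]⟩,⟨0,[(40,0)]⟩),⟨4,[(2,2),(3,1),(3,0),(2,0),(3,0),(6,0),(3,1)]⟩,.k,.k,(.x (-1) ⟨11,[(6,3),(13,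
  3),(5,4),(0,4),(11,1)]⟩ ⟨0,[(41,0)]⟩),(.x (-1) ⟨11,[(6,3),(13,3),(5,4),(0,4),(11,1)]⟩ ⟨0,[(41,
  0)]⟩),(.x 0 ⟨14,[(6,11),(4,0),(1,5),(11,2),(8,5),(4,0)]⟩ ⟨3,[(26,0),(0,0),(13,7),(3,1)]⟩),.k,
  ⟨false,1,⟨0,[(0,0)]⟩,⟨0,[(5,0),(23,0),(14,0)]⟩⟩,⟨true,0,⟨0,[(28,0)]⟩,⟨2,[(11,0),(17,2),(9,0)]⟩⟩,
  ⟨true,0,⟨0,[(48,0)]⟩,⟨0,[]⟩⟩,⟨false,0,⟨0,[(5,0),(22,0),(0,0),(14,0)]⟩,⟨27,[(0,3),(2,19),(12,7),(1,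
  7),(7,2),(0,0),(1,7)]⟩⟩,⟨false,0,⟨0,[(44,0)]⟩,⟨11,[(8,3),(17,0),(0,0),(6,3),(0,3),(10,5)]⟩⟩,
  ⟨false,0,⟨0,[(5,0),(22,0),(0,0),(14,1)]⟩,⟨11,[(1,2),(1,6),(4,0),(7,4),(0,2),(0,4),(7,0),(2,4)]⟩⟩,
  [.o ⟨false,0,⟨0,[(44,0)]⟩,⟨35,[(8,11),(2,7),(14,8),(0,8),(11,13)]⟩⟩,.o ⟨false,1,⟨3,[(26,0),(0,0),
  (16,3),(1,1)]⟩,⟨0,[(7,0),(3,0),(3,0),(8,0),(19,0)]⟩⟩,.o ⟨false,1,⟨1,[(29,1),(9,0),(5,0)]⟩,⟨2,[(11,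
  0),(16,2),(10,0)]⟩⟩,.a ⟨true,0,⟨0,[(29,0)]⟩,⟨0,[(28,0)]⟩⟩ ⟨false,1,⟨1,[(26,0),(18,0)]⟩,⟨0,[(5,0),
  (23,0)]⟩⟩ ⟨true,0,⟨0,[(28,0),(15,0)]⟩,⟨0,[(7,0),(3,0),(3,0),(8,0),(4,0),(14,0)]⟩⟩]⟩) (.R ⟨1,false,
  false,false,[1,0,0,-1],[0,1,1],[0,1,0,0,0,0,0,0,-1],(⟨0,[(28,0)]⟩,⟨0,[(29,0)]⟩),(⟨0,[(38,0),(2,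
  0)]⟩,⟨0,[(20,0)]⟩),⟨4,[(2,2),(3,1),(3,0),(2,0),(3,0),(6,0),(3,1)]⟩,.k,.k,(.x (-1) ⟨11,[(6,3),(13,
  3),(5,4),(0,4),(11,1)]⟩ ⟨0,[(41,0)]⟩),(.r (-1) ⟨23,[(8,3),(1,11),(15,14),(0,2),(17,1)]⟩ ⟨3,[(0,1),
  (13,1),(12,0),(17,0),(2,1)]⟩),(.r (-1) ⟨0,[(1,0),(8,0)]⟩ ⟨13,[(0,5),(13,9),(11,0),(0,4),(5,5),(0,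
  5),(9,11)]⟩),.k,⟨false,1,⟨8,[(2,0),(1,0),(2,3),(2,1),(4,6),(8,4),(1,3),(3,2),(2,1)]⟩,⟨7,[(0,5),
  (13,1),(4,1),(7,0),(17,2)]⟩⟩,⟨true,0,⟨5,[(11,0),(3,2),(12,5),(10,0)]⟩,⟨0,[(29,0),(1,0)]⟩⟩,⟨true,0,
  ⟨0,[(48,0)]⟩,⟨0,[]⟩⟩,⟨false,0,⟨24,[(0,9),(1,18),(2,2),(3,1),(9,1),(5,2),(1,5),(0,2),(13,3)]⟩,⟨4,
  [(3,0),(0,1),(3,0),(7,1),(9,0),(2,1),(3,0)]⟩⟩,⟨false,0,⟨0,[(44,0)]⟩,⟨11,[(8,3),(17,0),(0,0),(6,3),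
  (0,3),(10,5)]⟩⟩,⟨false,0,⟨9,[(0,5),(1,11),(1,1),(22,2),(18,0)]⟩,⟨3,[(3,0),(0,0),(3,0),(7,1),(0,0),
  (6,0),(1,0),(2,1)]⟩⟩,[.e ⟨false,1,⟨1,[(26,0),(18,0),(2,1)]⟩,⟨2,[(0,2),(7,0),(36,1)]⟩⟩ ⟨false,0,⟨0,
  [(2,0)]⟩,⟨3,[(4,1),(3,0),(7,0),(4,0),(5,0),(1,1)]⟩⟩,.o ⟨false,1,⟨29,[(0,1),(1,13),(0,9),(0,3),(9,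
  9),(10,9),(1,5),(11,4),(6,6)]⟩,⟨0,[(21,0)]⟩⟩,.o ⟨false,1,⟨1,[(29,1),(9,0),(5,0)]⟩,⟨2,[(11,0),(16,
  2),(10,0)]⟩⟩,.a ⟨true,0,⟨0,[(29,0)]⟩,⟨0,[(28,0)]⟩⟩ ⟨false,1,⟨1,[(26,0),(18,0)]⟩,⟨29,[(0,11),(7,3),
  (2,0),(13,0),(1,8),(7,1),(6,8)]⟩⟩ ⟨true,0,⟨0,[(2,0)]⟩,⟨0,[(21,0),(7,0)]⟩⟩]⟩)) (.R ⟨1,false,false,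
  true,[0,0,0,1],[1,0,-1],[0,0,0,0,0,0,0,0,1],(⟨0,[(28,0)]⟩,⟨0,[(27,0)]⟩),(⟨0,[(36,0)]⟩,⟨0,[(37,
  0)]⟩),⟨4,[(0,2),(1,2),(2,1),(6,0),(0,1),(0,2),(1,0),(6,3),(4,1)]⟩,.k,.k,(.r 0 ⟨0,[(0,0),(5,0),(6,
  0),(0,0),(1,0),(6,0)]⟩ ⟨11,[(0,7),(12,3),(11,14),(0,4)]⟩),.k,(.r (-1) ⟨2,[(0,0),(6,1),(5,1),(12,
  0),(17,0)]⟩ ⟨0,[(0,0),(24,0)]⟩),.k,⟨true,0,⟨0,[(0,0),(5,0),(6,0),(0,0),(8,0),(17,0)]⟩,⟨1,[(10,0),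
  (3,0),(10,0),(6,1)]⟩⟩,⟨false,1,⟨0,[(6,0),(21,0),(14,0)]⟩,⟨0,[(27,0),(5,0)]⟩⟩,⟨false,1,⟨3,[(25,0),
  (0,0),(18,1)]⟩,⟨0,[]⟩⟩,⟨false,1,⟨0,[(2,0),(29,0)]⟩,⟨1,[(0,0),(3,0),(3,0),(4,0),(10,0),(2,0)]⟩⟩,
  ⟨true,0,⟨0,[(43,0)]⟩,⟨0,[(42,0)]⟩⟩,⟨false,1,⟨0,[(3,0),(43,0)]⟩,⟨29,[(0,18),(3,2),(3,14),(4,4),(3,
  23),(6,2),(1,3),(0,26),(13,17)]⟩⟩,[.o ⟨false,0,⟨0,[(29,0)]⟩,⟨3,[(18,1),(5,1),(13,0),(6,0)]⟩⟩,.a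
  ⟨true,0,⟨4,[(0,1),(2,1),(12,0),(6,2),(3,1)]⟩,⟨7,[(11,0),(1,3),(0,4),(8,3),(12,1),(2,0),(1,1)]⟩⟩
  ⟨true,0,⟨4,[(0,4),(7,2),(4,0),(27,0),(2,1)]⟩,⟨1,[(10,0),(3,0),(8,1),(1,0),(17,1)]⟩⟩ ⟨false,1,⟨41,
  [(0,9),(2,11),(2,17),(2,3),(16,0),(1,29),(0,11),(14,20)]⟩,⟨8,[(1,0),(8,1),(2,0),(3,1),(0,1),(5,1),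
  (2,7),(5,1)]⟩⟩,.o ⟨false,0,⟨2,[(10,0),(16,2),(10,0)]⟩,⟨1,[(28,1),(9,0),(5,0)]⟩⟩,.o ⟨false,0,⟨11,
  [(10,7),(14,2),(0,2),(0,11),(10,1)]⟩,⟨1,[(0,0),(1,0),(3,0),(21,0),(2,0),(12,0)]⟩⟩]⟩)) (.I [0,-1,0,
  0,0,0,0,0,1] (.R ⟨1,false,false,true,[0,0,0,1],[1,1,-1],[0,0,0,0,0,0,0,0,1],(⟨0,[(28,0)]⟩,⟨0,[(27,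
  0)]⟩),(⟨0,[(36,0),(3,0)]⟩,⟨0,[(21,0)]⟩),⟨4,[(1,1),(3,1),(6,0),(0,0),(0,1),(13,2),(14,0)]⟩,.k,.k,
  (.x 0 ⟨23,[(5,3),(4,13),(1,1),(12,6),(0,6),(6,3),(5,13)]⟩ ⟨0,[(40,0),(3,0)]⟩),(.r (-1) ⟨29,[(0,
  11),(6,9),(5,11),(3,5),(5,5),(2,8),(17,10)]⟩ ⟨1,[(9,0),(0,0),(14,0),(1,0),(0,0),(14,2)]⟩),(.r
  (-1) ⟨2,[(0,2),(5,0),(0,0),(5,0),(0,0),(2,0),(5,1),(20,0)]⟩ ⟨1,[(10,0),(13,0),(0,0),(6,1),(8,0),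
  (1,3)]⟩),.k,⟨false,1,⟨7,[(0,7),(5,7),(4,0),(1,3),(0,4),(8,3),(12,1),(2,0),(1,1)]⟩,⟨1,[(10,0),(3,
  0),(10,0),(6,1),(10,1)]⟩⟩,⟨true,1,⟨0,[(6,0),(21,0),(14,0)]⟩,⟨1,[(10,1),(13,0),(2,2),(0,0)]⟩⟩,
  ⟨false,1,⟨3,[(25,0),(0,0),(18,1)]⟩,⟨0,[]⟩⟩,⟨false,1,⟨0,[(3,0),(43,0)]⟩,⟨72,[(0,70),(7,28),(1,29),
  (2,11),(3,19),(5,6),(0,29),(1,0),(0,72)]⟩⟩,⟨true,0,⟨0,[(43,0)]⟩,⟨0,[(42,0)]⟩⟩,⟨false,1,⟨0,[(3,0),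
  (39,0),(3,0)]⟩,⟨6,[(0,6),(6,0),(0,0),(1,1),(6,5),(5,2),(0,1),(2,6),(13,3)]⟩⟩,[.o ⟨false,0,⟨0,[(29,
  0),(13,0)]⟩,⟨7,[(8,3),(9,1),(5,1),(8,3),(4,0),(6,0)]⟩⟩,.a ⟨true,0,⟨1,[(9,0),(2,0),(24,1),(2,0),(2,
  2)]⟩,⟨0,[(13,0),(0,0),(1,0),(6,0)]⟩⟩ ⟨true,0,⟨0,[(0,0)]⟩,⟨1,[(10,0),(3,0),(8,1),(1,0),(17,1)]⟩⟩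
  ⟨false,1,⟨4,[(0,0),(2,0),(2,1),(2,0),(18,3),(0,1),(13,6),(0,1)]⟩,⟨7,[(8,2),(1,2),(2,0),(3,2),(6,
  2),(2,7),(6,0)]⟩⟩,.o ⟨false,0,⟨2,[(10,0),(16,2),(10,0)]⟩,⟨1,[(28,1),(9,0),(5,0)]⟩⟩,.o ⟨false,0,
  ⟨11,[(10,7),(14,2),(0,2),(0,11),(10,1)]⟩,⟨7,[(0,0),(0,1),(0,0),(3,5),(7,2),(13,4),(2,1),(6,0),(4,
  7)]⟩⟩]⟩) (.I [0,1,0,0,0,0,0,0,1] (.R ⟨1,false,false,false,[0,0,0,1],[0,-1,1],[0,1,0,0,0,0,0,0,1],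
  (⟨0,[(29,0)]⟩,⟨0,[(28,0)]⟩),(⟨0,[(22,0)]⟩,⟨0,[(37,0),(3,0)]⟩),⟨4,[(2,1),(3,1),(6,0),(0,0),(0,1),
  (13,2),(14,0)]⟩,.k,.k,(.r (-1) ⟨5,[(8,1),(18,2),(17,0)]⟩ ⟨3,[(1,1),(9,0),(14,0),(1,0),(0,0),(12,
  0),(1,3)]⟩),(.r 0 ⟨5,[(0,0),(4,2),(5,0),(13,0),(1,0),(1,2),(3,1),(2,3),(7,5)]⟩ ⟨4,[(1,3),(1,0),(5,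
  2),(4,0),(13,0),(16,0)]⟩),.k,.k,⟨false,0,⟨0,[(0,0),(35,0),(7,0)]⟩,⟨7,[(1,7),(5,7),(4,0),(1,3),(0,
  4),(8,3),(12,1),(2,0),(1,9)]⟩⟩,⟨true,0,⟨5,[(11,0),(3,2),(13,5),(9,0)]⟩,⟨0,[(28,0),(2,0)]⟩⟩,⟨true,
  0,⟨0,[(48,0)]⟩,⟨0,[]⟩⟩,⟨false,1,⟨6,[(1,3),(0,0),(0,2),(5,3),(4,1),(0,3),(13,2),(12,1)]⟩,⟨0,[(5,0),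
  (27,0),(10,0)]⟩⟩,⟨false,0,⟨0,[(44,0)]⟩,⟨11,[(8,3),(17,0),(0,0),(6,3),(0,3),(10,5)]⟩⟩,⟨false,1,⟨19,
  [(1,3),(1,15),(5,3),(2,2),(1,7),(0,6),(13,3),(7,5),(2,2),(1,1)]⟩,⟨0,[(5,0),(27,0)]⟩⟩,[.a ⟨true,0,
  ⟨0,[(14,0),(0,0),(1,0),(6,0)]⟩,⟨1,[(10,0),(2,0),(24,1),(2,0),(2,2)]⟩⟩ ⟨true,0,⟨0,[(0,0)]⟩,⟨0,[(1,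
  0),(40,0)]⟩⟩ ⟨false,1,⟨2,[(7,1),(7,1),(2,0),(0,0),(9,2)]⟩,⟨2,[(4,0),(0,0),(5,0),(16,2),(1,0),(2,
  0),(10,1)]⟩⟩,.o ⟨false,1,⟨7,[(9,3),(9,1),(5,1),(8,3),(4,0),(6,0)]⟩,⟨0,[(30,0),(13,0)]⟩⟩,.o ⟨false,
  0,⟨2,[(11,0),(16,2),(10,0)]⟩,⟨0,[(0,0),(2,0)]⟩⟩,.o ⟨false,0,⟨11,[(11,7),(14,2),(0,2),(0,11),(10,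
  1)]⟩,⟨5,[(7,5),(3,0),(3,2),(13,5),(9,0),(4,5)]⟩⟩]⟩) (.Q [0,0,0,0,0,-1,0,0,0,1,0,-1] (.p false [0,
  0,0,1] [1] (⟨0,[(29,0)]⟩,⟨0,[(28,0)]⟩) .k 1 (⟨0,[]⟩,⟨0,[]⟩) .k .k) (.R ⟨1,false,false,false,[1,0,
  0,-1],[0,1],[0,0,0,0,0,0,0,0,-1],(⟨0,[(29,0)]⟩,⟨0,[(30,0)]⟩),(⟨0,[(42,0)]⟩,⟨0,[(41,0)]⟩),⟨0,[(0,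
  0)]⟩,.k,.k,(.x (-1) ⟨11,[(7,3),(13,3),(5,4),(0,4),(11,1)]⟩ ⟨0,[(42,0)]⟩),(.x (-1) ⟨11,[(7,3),(13,
  3),(5,4),(0,4),(11,1)]⟩ ⟨0,[(42,0)]⟩),(.r (-1) ⟨5,[(1,2),(0,2),(6,3),(36,1)]⟩ ⟨3,[(12,1),(13,0),
  (1,1),(0,0),(0,0),(5,1),(8,7)]⟩),.k,⟨false,1,⟨5,[(1,2),(0,2),(6,1),(36,3)]⟩,⟨3,[(6,1),(5,0),(3,0),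
  (8,1),(2,0),(1,1),(14,5)]⟩⟩,⟨true,0,⟨0,[(29,0)]⟩,⟨2,[(12,0),(17,2),(9,0)]⟩⟩,⟨false,1,⟨3,[(27,0),
  (0,0),(18,1)]⟩,⟨0,[]⟩⟩,⟨false,0,⟨0,[(6,0),(22,0),(0,0),(14,0)]⟩,⟨0,[(4,0),(39,0)]⟩⟩,⟨true,0,⟨0,
  [(45,0)]⟩,⟨0,[(44,0)]⟩⟩,⟨false,0,⟨0,[(6,0),(22,0),(0,0),(14,1)]⟩,⟨23,[(1,0),(1,11),(0,10),(4,7),
  (2,0),(6,11),(7,5),(2,0)]⟩⟩,[.o ⟨false,0,⟨0,[(45,0)]⟩,⟨35,[(9,11),(2,7),(14,8),(0,8),(11,13)]⟩⟩,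
  .o ⟨false,1,⟨3,[(27,0),(0,0),(16,3),(1,1)]⟩,⟨0,[(8,0),(3,0),(3,0),(8,0),(19,0)]⟩⟩,.o ⟨false,1,⟨1,
  [(30,1),(9,0),(5,0)]⟩,⟨2,[(12,0),(16,2),(10,0)]⟩⟩,.a ⟨true,0,⟨0,[(30,0)]⟩,⟨0,[(29,0)]⟩⟩ ⟨false,1,
  ⟨3,[(1,1),(25,0),(18,1),(0,0)]⟩,⟨3,[(6,1),(5,0),(3,0),(8,1),(2,0),(1,1),(14,1)]⟩⟩ ⟨true,0,⟨0,[(29,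
  0),(15,0)]⟩,⟨0,[(3,0),(29,0)]⟩⟩]⟩) (.R ⟨0,false,false,false,[1,0,0,-1],[0,1],[1,1,0,-1,0,0,0,0,
  -1],(⟨0,[(29,0)]⟩,⟨0,[(30,0)]⟩),(⟨0,[(42,0)]⟩,⟨0,[(41,0)]⟩),⟨0,[(0,0)]⟩,.k,.k,(.x (-1) ⟨11,[(7,3),
  (13,3),(5,4),(0,4),(11,1)]⟩ ⟨0,[(42,0)]⟩),(.x (-1) ⟨11,[(7,3),(13,3),(5,4),(0,4),(11,1)]⟩ ⟨0,[(42,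
  0)]⟩),.k,.k,⟨false,1,⟨2,[(2,2),(6,1),(36,0)]⟩,⟨0,[(6,0),(23,0),(14,1)]⟩⟩,⟨true,0,⟨0,[(29,0)]⟩,⟨2,
  [(12,0),(17,2),(9,0)]⟩⟩,⟨true,0,⟨0,[(44,0)]⟩,⟨0,[(45,0)]⟩⟩,⟨false,0,⟨0,[(6,0),(22,0),(0,0),(14,
  0)]⟩,⟨0,[(4,0),(39,0)]⟩⟩,⟨false,0,⟨0,[]⟩,⟨0,[]⟩⟩,⟨false,0,⟨0,[]⟩,⟨0,[]⟩⟩,[.o ⟨false,0,⟨0,[(45,
  0)]⟩,⟨35,[(9,11),(2,7),(14,8),(0,8),(11,13)]⟩⟩,.o ⟨false,1,⟨3,[(27,0),(0,0),(16,3),(1,1)]⟩,⟨0,[(8,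
  0),(3,0),(3,0),(8,0),(19,0)]⟩⟩,.o ⟨false,1,⟨1,[(30,1),(9,0),(5,0)]⟩,⟨2,[(12,0),(16,2),(10,0)]⟩⟩,
  .a ⟨true,0,⟨0,[(30,0)]⟩,⟨0,[(29,0)]⟩⟩ ⟨false,1,⟨5,[(9,1),(17,2),(18,0)]⟩,⟨0,[(6,0),(23,0),(14,
  0)]⟩⟩ ⟨true,0,⟨0,[(29,0),(15,0)]⟩,⟨0,[(3,0),(29,0)]⟩⟩]⟩)))))) (.Q [0,0,0,0,0,-1,0,0,0,0,0,1] (.p
  true [0,0,0,1] [] (⟨0,[(25,0)]⟩,⟨0,[(24,0)]⟩) .k 0 (⟨0,[]⟩,⟨0,[]⟩) .k .k) (.R ⟨1,false,false,true,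
  [0,0,0,1],[1,0,-1],[0,0,0,0,0,0,0,0,1],(⟨0,[(26,0)]⟩,⟨0,[(25,0)]⟩),(⟨0,[(34,0)]⟩,⟨0,[(35,0)]⟩),⟨0,
  [(0,0)]⟩,.k,.k,(.r 0 ⟨1,[(1,1),(2,1),(2,0),(18,1),(12,0),(1,2)]⟩ ⟨3,[(23,2),(0,0),(6,1),(0,1),(8,
  3)]⟩),.k,(.r (-1) ⟨8,[(1,2),(2,2),(0,0),(10,2),(7,2),(1,2),(15,1)]⟩ ⟨1,[(7,0),(0,0),(14,0),(1,0),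
  (0,0),(14,2)]⟩),.k,⟨true,0,⟨0,[(1,0),(2,0),(21,0),(12,0),(1,1)]⟩,⟨1,[(8,0),(3,0),(10,0),(6,1)]⟩⟩,
  ⟨false,1,⟨0,[(4,0),(21,0),(14,0)]⟩,⟨0,[(25,0),(5,0)]⟩⟩,⟨false,1,⟨3,[(23,0),(0,0),(18,1)]⟩,⟨0,[]⟩⟩,
  ⟨false,1,⟨3,[(4,1),(2,0),(15,1),(2,3),(0,1),(11,0),(1,2)]⟩,⟨5,[(1,1),(0,1),(8,1),(0,1),(11,0),(0,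
  1),(13,1),(3,0)]⟩⟩,⟨true,0,⟨0,[(41,0)]⟩,⟨0,[(40,0)]⟩⟩,⟨false,1,⟨3,[(4,1),(2,0),(15,1),(2,3),(0,1),
  (11,0),(1,6)]⟩,⟨0,[(1,0),(41,0)]⟩⟩,[.o ⟨false,0,⟨0,[(27,0)]⟩,⟨3,[(16,1),(5,1),(13,0),(6,0)]⟩⟩,.a
  ⟨true,0,⟨1,[(7,0),(2,0),(24,1),(2,0),(2,0)]⟩,⟨7,[(9,0),(1,3),(0,4),(8,3),(12,1),(2,0),(1,1)]⟩⟩
  ⟨true,0,⟨2,[(1,1),(0,0),(1,1),(2,0),(18,2),(12,1),(1,4)]⟩,⟨1,[(8,0),(3,0),(8,1),(1,0),(17,1)]⟩⟩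
  ⟨false,1,⟨5,[(4,3),(2,1),(18,5),(0,1),(13,5),(0,0),(0,0)]⟩,⟨2,[(1,0),(0,0),(8,0),(10,0),(0,0),(1,
  0)]⟩⟩,.o ⟨false,0,⟨2,[(8,0),(16,2),(10,0)]⟩,⟨1,[(26,1),(9,0),(5,0)]⟩⟩,.o ⟨false,0,⟨11,[(8,7),(14,
  2),(0,2),(0,11),(10,1)]⟩,⟨5,[(4,5),(3,0),(3,2),(13,5),(9,0),(4,5)]⟩⟩]⟩) (.R ⟨0,false,false,false,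
  [0,0,0,1],[1,0,-1],[0,0,1],(⟨0,[(26,0)]⟩,⟨0,[(25,0)]⟩),(⟨0,[(34,0)]⟩,⟨0,[(35,0)]⟩),⟨0,[(0,0)]⟩,.k,
  .k,(.r 0 ⟨1,[(1,1),(2,1),(2,0),(18,1),(12,0),(1,2)]⟩ ⟨3,[(23,2),(0,0),(6,1),(0,1),(8,3)]⟩),.k,.k,
  .k,⟨true,0,⟨79,[(1,11),(6,11),(2,15),(3,3),(0,15),(6,6),(0,0),(1,11),(5,15)]⟩,⟨0,[(33,0)]⟩⟩,
  ⟨false,1,⟨0,[(4,0),(21,0),(14,0)]⟩,⟨0,[(25,0),(5,0)]⟩⟩,⟨false,1,⟨1,[(23,0),(7,0),(0,0),(10,0)]⟩,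
  ⟨1,[(1,1),(2,1),(2,0),(18,1),(12,0),(1,4)]⟩⟩,⟨true,1,⟨3,[(4,1),(2,0),(15,1),(2,3),(0,1),(11,0),(1,
  2)]⟩,⟨0,[(1,0),(39,0)]⟩⟩,⟨false,0,⟨0,[]⟩,⟨0,[]⟩⟩,⟨false,0,⟨0,[]⟩,⟨0,[]⟩⟩,[.a ⟨true,0,⟨1,[(7,0),(2,
  0),(24,1),(2,0),(2,0)]⟩,⟨7,[(9,0),(1,3),(0,4),(8,3),(12,1),(2,0),(1,1)]⟩⟩ ⟨true,0,⟨1,[(31,0),(0,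
  0)]⟩,⟨0,[]⟩⟩ ⟨false,1,⟨5,[(4,3),(2,1),(18,5),(0,1),(13,5),(0,0),(0,0)]⟩,⟨2,[(1,0),(0,0),(8,0),(10,
  0),(0,0),(1,0)]⟩⟩,.o ⟨false,1,⟨0,[(27,0),(15,0)]⟩,⟨0,[(29,0)]⟩⟩,.o ⟨false,0,⟨2,[(8,0),(16,2),(10,
  0)]⟩,⟨1,[(26,1),(9,0),(5,0)]⟩⟩,.o ⟨false,0,⟨11,[(8,7),(14,2),(0,2),(0,11),(10,1)]⟩,⟨5,[(4,5),(3,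
  0),(3,2),(13,5),(9,0),(4,5)]⟩⟩]⟩)))))

theorem ok25 : chk (cU (-1) true 10) t25 r22 = true := by decide +kernel

noncomputable def t33 : Tre :=
  (.Q [0,0,0,1,0,0,-2,-2,0,-1,2] (.p true [0,0,1] [1,0,-1] (⟨0,[(32,0)]⟩,⟨0,[(31,0)]⟩) .k 2 (⟨0,
  [(31,0)]⟩,⟨0,[(32,0)]⟩) .k (.r (-1) ⟨45,[(2,3),(2,3),(2,19),(3,11),(0,19),(4,7),(1,8),(0,8)]⟩ ⟨0,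
  [(30,1)]⟩)) (.R ⟨1,false,false,true,[0,0,1],[1,0,-1],[1,1,0,0,0,0,0,-1],(⟨0,[(33,0)]⟩,⟨0,[(32,
  0)]⟩),(⟨0,[(32,0)]⟩,⟨0,[(33,0)]⟩),⟨0,[(17,0)]⟩,.k,.k,.k,.k,(.r (-1) ⟨11,[(3,0),(1,4),(0,0),(2,2),
  (3,2),(0,4),(4,1)]⟩ ⟨1,[(0,1),(19,1),(8,0),(0,0)]⟩),.k,⟨true,0,⟨0,[]⟩,⟨1,[(29,0),(0,0)]⟩⟩,⟨false,
  1,⟨0,[(3,0),(26,0)]⟩,⟨0,[(20,0)]⟩⟩,⟨false,0,⟨0,[(31,1)]⟩,⟨0,[(14,0)]⟩⟩,⟨true,0,⟨1,[(0,0),(15,0),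
  (11,0)]⟩,⟨0,[(1,0)]⟩⟩,⟨false,0,⟨0,[(0,0),(19,0)]⟩,⟨20,[(4,4),(0,2),(8,16),(4,4),(17,5),(3,0)]⟩⟩,
  ⟨false,0,⟨0,[(0,0)]⟩,⟨11,[(1,9),(2,3),(14,3),(0,1),(0,0),(0,0),(18,9)]⟩⟩,[.o ⟨false,0,⟨0,[(25,
  0)]⟩,⟨7,[(1,3),(19,0),(0,0),(11,1),(6,3)]⟩⟩,.a ⟨true,0,⟨4,[(0,1),(11,0),(6,0),(3,1),(0,1)]⟩,⟨1,
  [(1,0),(21,0),(0,0)]⟩⟩ ⟨true,0,⟨0,[(31,0)]⟩,⟨19,[(4,3),(4,7),(19,2),(0,6),(6,1)]⟩⟩ ⟨false,1,⟨7,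
  [(0,3),(2,3),(15,3),(1,0),(0,0),(18,1)]⟩,⟨1,[(1,0),(18,0)]⟩⟩,.o ⟨false,0,⟨0,[(18,0)]⟩,⟨2,[(3,0),
  (17,0),(0,0),(3,1)]⟩⟩,.o ⟨false,0,⟨0,[(29,0)]⟩,⟨5,[(3,3),(17,0),(0,0),(3,1)]⟩⟩]⟩) (.Q [0,0,0,0,0,
  -2,0,0,0,0,1] (.p true [0,0,1] [] (⟨0,[(33,0)]⟩,⟨0,[(32,0)]⟩) .k 0 (⟨0,[]⟩,⟨0,[]⟩) .k .k) (.Q [0,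
  0,2,0,-1,0,2,0,0,1,-2] (.p false [0,0,1] [1,0,-1] (⟨0,[(34,0)]⟩,⟨0,[(33,0)]⟩) .k 2 (⟨0,[(33,0)]⟩,
  ⟨0,[(34,0)]⟩) .k (.r (-1) ⟨45,[(4,3),(2,3),(2,19),(3,11),(0,19),(4,7),(1,8),(0,8)]⟩ ⟨0,[(32,
  1)]⟩)) (.Q [0,0,0,2,0,0,-2,-2,0,-1,2] (.p true [0,0,1] [1,0,-1] (⟨0,[(35,0)]⟩,⟨0,[(34,0)]⟩) .k 2
  (⟨0,[(34,0)]⟩,⟨0,[(35,0)]⟩) .k (.r (-1) ⟨45,[(5,3),(2,3),(2,19),(3,11),(0,19),(4,7),(1,8),(0,8)]⟩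
  ⟨0,[(33,1)]⟩)) (.R ⟨1,true,false,false,[0,0,1],[1,1,-1],[0,1,0,0,0,0,0,1],(⟨0,[(36,0)]⟩,⟨0,[(35,
  0)]⟩),(⟨0,[(35,0),(3,0)]⟩,⟨0,[(20,0)]⟩),⟨0,[(20,0)]⟩,.k,.k,.k,(.r (-1) ⟨11,[(6,0),(1,4),(0,0),(2,
  2),(3,2),(0,4),(4,1)]⟩ ⟨2,[(0,1),(0,1),(3,0),(18,0),(0,0)]⟩),(.r (-2) ⟨20,[(6,1),(1,15),(0,1),(6,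
  5),(0,9),(4,3),(1,5),(0,5)]⟩ ⟨0,[(0,0),(0,0)]⟩),.k,⟨false,1,⟨0,[(4,0),(1,0),(15,0)]⟩,⟨11,[(0,7),
  (0,7),(3,3),(18,0),(0,0),(18,5)]⟩⟩,⟨true,1,⟨0,[(6,0),(26,0)]⟩,⟨0,[(1,0)]⟩⟩,⟨true,0,⟨0,[(46,0)]⟩,
  ⟨0,[]⟩⟩,⟨false,1,⟨7,[(0,5),(13,1),(9,0),(0,0),(5,1),(12,5)]⟩,⟨0,[(3,0)]⟩⟩,⟨false,0,⟨0,[(42,0)]⟩,
  ⟨15,[(7,3),(7,3),(6,3),(1,2),(0,2),(18,9)]⟩⟩,⟨true,0,⟨0,[(0,0)]⟩,⟨0,[(3,0),(37,0)]⟩⟩,[]⟩) (.I [0,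
  -1,0,1,0,0,0,-1,1] (.I [0,0,-1,-1,0,0,0,-1,1] (.Q [0,0,0,1,0,0,1,1,0,1,-1,-1] (.p false [0,0,1]
  [1,0,0,-1] (⟨0,[(38,0)]⟩,⟨0,[(37,0)]⟩) .k 2 (⟨0,[(28,0)]⟩,⟨0,[(29,0)]⟩) .k (.r 0 ⟨0,[(0,0),(13,
  0)]⟩ ⟨31,[(1,7),(1,3),(3,7),(18,26),(0,6),(5,7),(5,1)]⟩)) (.Q [0,0,-1,-2,1,0,-1,-1,-1,-1,1,1] (.p
  true [0,0,1] [1,0,0,-1] (⟨0,[(39,0)]⟩,⟨0,[(38,0)]⟩) .k 2 (⟨0,[(29,0)]⟩,⟨0,[(30,0)]⟩) .k (.r 0 ⟨0,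
  [(1,0),(13,0)]⟩ ⟨31,[(2,7),(1,3),(3,7),(18,26),(0,6),(5,7),(5,1)]⟩)) (.R ⟨1,false,false,false,[1,
  0,0,-1],[0,1,1],[0,1,0,0,0,0,0,0,-1],(⟨0,[(30,0)]⟩,⟨0,[(31,0)]⟩),(⟨0,[(40,0),(2,0)]⟩,⟨0,[(22,
  0)]⟩),⟨4,[(1,2),(4,1),(2,0),(5,0),(3,0),(6,0),(3,1)]⟩,.k,.k,(.x (-1) ⟨11,[(6,3),(15,3),(5,4),(0,
  4),(11,1)]⟩ ⟨0,[(43,0)]⟩),(.r (-1) ⟨19,[(9,11),(2,3),(15,12),(0,2)]⟩ ⟨5,[(2,1),(0,1),(1,0),(10,5),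
  (12,0),(2,0),(2,0)]⟩),(.x 0 ⟨11,[(5,1),(0,6),(8,8),(1,0),(4,0),(18,1)]⟩ ⟨23,[(13,3),(0,11),(13,8),
  (0,8),(11,1),(1,35)]⟩),.k,⟨false,1,⟨1,[(13,0),(3,0),(5,1),(4,0)]⟩,⟨18,[(2,7),(0,8),(1,0),(10,17),
  (12,0),(3,0),(3,0),(6,4)]⟩⟩,⟨true,0,⟨17,[(1,5),(2,0),(0,2),(3,3),(7,1),(12,11),(10,2)]⟩,⟨0,[(31,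
  0),(1,0)]⟩⟩,⟨true,0,⟨0,[(50,0)]⟩,⟨0,[]⟩⟩,⟨false,0,⟨4,[(1,3),(0,1),(0,0),(1,0),(10,1),(12,0),(0,0),
  (2,0),(10,1)]⟩,⟨0,[(0,0),(45,0)]⟩⟩,⟨false,0,⟨0,[(46,0)]⟩,⟨59,[(0,7),(3,9),(0,1),(12,11),(9,6),(0,
  10),(0,7),(6,3),(10,35)]⟩⟩,⟨false,0,⟨6,[(1,5),(1,4),(1,0),(10,2),(12,0),(0,0),(2,0),(10,0)]⟩,⟨0,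
  [(0,0)]⟩⟩,[.e ⟨false,1,⟨5,[(13,1),(14,2),(12,0),(8,5)]⟩,⟨1,[(2,1),(13,0),(27,0),(1,0)]⟩⟩ ⟨false,0,
  ⟨0,[(1,0)]⟩,⟨4,[(0,2),(2,0),(6,0),(18,0),(1,1),(0,0)]⟩⟩,.o ⟨false,1,⟨71,[(3,47),(4,35),(4,7),(2,
  23),(11,26),(0,2),(11,21),(6,11)]⟩,⟨0,[(23,0)]⟩⟩,.o ⟨false,1,⟨2,[(13,0),(17,2),(9,1)]⟩,⟨14,[(1,5),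
  (3,2),(3,1),(8,1),(11,8),(2,9),(7,2),(2,0)]⟩⟩,.a ⟨true,0,⟨0,[(31,0)]⟩,⟨0,[(30,0)]⟩⟩ ⟨false,1,⟨5,
  [(13,1),(14,2),(12,0)]⟩,⟨37,[(2,17),(0,5),(1,6),(10,11),(12,6),(3,6),(3,6),(6,15)]⟩⟩ ⟨true,0,⟨0,
  [(1,0)]⟩,⟨0,[(23,0),(7,0)]⟩⟩]⟩) (.R ⟨1,true,false,false,[1,0,0,-1],[0,1,1],[0,1,0,0,0,0,0,0,-1],
  (⟨0,[(30,0)]⟩,⟨0,[(31,0)]⟩),(⟨0,[(40,0),(2,0)]⟩,⟨0,[(22,0)]⟩),⟨34,[(0,1),(0,9),(2,1),(1,13),(2,6),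
  (0,0),(4,6),(2,0),(0,0),(8,0),(1,22)]⟩,.k,.k,(.x (-1) ⟨11,[(6,3),(15,3),(5,4),(0,4),(11,1)]⟩ ⟨0,
  [(43,0)]⟩),(.r (-1) ⟨19,[(9,11),(2,3),(15,12),(0,2)]⟩ ⟨2,[(0,0),(15,0),(12,0),(1,0),(1,0)]⟩),(.x
  0 ⟨11,[(5,1),(0,6),(8,8),(1,0),(4,0),(18,1)]⟩ ⟨23,[(13,3),(0,11),(13,8),(0,8),(11,1),(1,35)]⟩),.k,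
  ⟨false,1,⟨1,[(13,0),(3,0),(5,1),(4,0)]⟩,⟨8,[(0,0),(1,2),(0,2),(12,6),(12,0),(1,0),(1,0),(10,2)]⟩⟩,
  ⟨true,0,⟨17,[(1,5),(2,0),(0,2),(3,3),(7,1),(12,11),(10,2)]⟩,⟨0,[(31,0),(1,0)]⟩⟩,⟨true,0,⟨0,[(50,
  0)]⟩,⟨0,[]⟩⟩,⟨false,0,⟨47,[(0,27),(3,3),(0,5),(15,5),(7,9),(0,19),(10,4),(2,7),(3,12)]⟩,⟨5,[(9,1),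
  (0,2),(7,1),(9,2),(2,5),(1,0),(10,0)]⟩⟩,⟨false,0,⟨0,[(46,0)]⟩,⟨23,[(4,3),(13,3),(0,3),(6,3),(1,4),
  (0,4),(18,13)]⟩⟩,⟨true,(-1),⟨0,[(0,0)]⟩,⟨5,[(13,1),(4,5),(9,2),(2,5),(9,0)]⟩⟩,[]⟩)) (.Q [0,0,0,0,
  0,-1,0,0,0,1,0,-1] (.p false [0,0,0,1] [1] (⟨0,[(30,0)]⟩,⟨0,[(29,0)]⟩) .k 1 (⟨0,[]⟩,⟨0,[]⟩) .k
  .k) (.R ⟨1,false,false,false,[1,0,0,-1],[1,0,-1],[1,1,0,-1,0,0,0,0,-1],(⟨0,[(30,0)]⟩,⟨0,[(31,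
  0)]⟩),(⟨0,[(39,0)]⟩,⟨0,[(40,0)]⟩),⟨0,[(0,0)]⟩,.k,.k,(.x (-1) ⟨11,[(6,3),(15,3),(5,4),(0,4),(11,
  1)]⟩ ⟨0,[(43,0)]⟩),.k,(.x 0 ⟨19,[(5,2),(0,11),(7,3),(2,1),(9,0),(13,2)]⟩ ⟨23,[(13,3),(1,11),(12,
  8),(0,8),(11,1),(1,35)]⟩),.k,⟨false,1,⟨23,[(10,4),(1,0),(0,4),(2,2),(3,14),(0,0),(4,9),(1,11)]⟩,
  ⟨0,[(3,0)]⟩⟩,⟨true,0,⟨0,[(30,0),(2,0)]⟩,⟨0,[(25,0),(5,0)]⟩⟩,⟨true,0,⟨0,[(45,0)]⟩,⟨0,[(46,0)]⟩⟩,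
  ⟨false,0,⟨21,[(2,7),(0,11),(1,0),(12,1),(10,0),(0,21),(2,20),(3,0),(6,5)]⟩,⟨1,[(8,0),(1,0),(14,0),
  (2,0),(2,1)]⟩⟩,⟨false,0,⟨0,[]⟩,⟨3,[(28,0),(0,0),(18,1)]⟩⟩,⟨false,0,⟨0,[(3,0),(26,0),(2,0)]⟩,⟨9,
  [(1,1),(2,3),(3,1),(1,3),(6,1),(10,4),(2,7),(9,0)]⟩⟩,[.a ⟨true,0,⟨1,[(9,0),(5,0),(24,1),(2,0),(2,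
  0)]⟩,⟨1,[(8,0),(21,0),(0,0)]⟩⟩ ⟨false,1,⟨47,[(13,15),(4,11),(1,23),(7,26),(0,2),(5,11),(5,1)]⟩,⟨1,
  [(2,1),(13,0),(27,0),(1,2)]⟩⟩ ⟨true,0,⟨0,[(30,0),(2,0),(4,0)]⟩,⟨0,[(1,0),(6,0),(37,0)]⟩⟩,.o
  ⟨false,1,⟨0,[(32,0),(15,0)]⟩,⟨0,[(34,0)]⟩⟩,.o ⟨false,1,⟨2,[(13,0),(17,2),(9,1)]⟩,⟨0,[(25,0),(4,0),
  (2,0)]⟩⟩,.e ⟨false,1,⟨19,[(9,3),(2,7),(15,10),(0,0)]⟩,⟨37,[(2,1),(0,25),(1,4),(10,13),(12,4),(3,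
  4),(3,4),(6,5)]⟩⟩ ⟨false,1,⟨0,[(30,0),(1,0),(15,0)]⟩,⟨0,[(1,0),(6,0),(37,0)]⟩⟩]⟩) (.R ⟨0,false,
  false,false,[1,0,0,-1],[1,0,-1],[1,1,0,-1,0,0,0,0,-1],(⟨0,[(30,0)]⟩,⟨0,[(31,0)]⟩),(⟨0,[(39,0)]⟩,
  ⟨0,[(40,0)]⟩),⟨0,[(0,0)]⟩,.k,.k,(.x (-1) ⟨11,[(6,3),(15,3),(5,4),(0,4),(11,1)]⟩ ⟨0,[(43,0)]⟩),.k,
  .k,.k,⟨false,1,⟨23,[(10,4),(1,0),(0,4),(2,2),(3,14),(0,0),(4,9),(1,11)]⟩,⟨0,[(3,0)]⟩⟩,⟨true,0,⟨0,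
  [(30,0),(2,0)]⟩,⟨23,[(0,4),(4,3),(0,1),(8,0),(1,8),(13,18),(9,3)]⟩⟩,⟨true,0,⟨0,[(45,0)]⟩,⟨0,[(46,
  0)]⟩⟩,⟨false,0,⟨21,[(2,7),(0,11),(1,0),(12,1),(10,0),(0,21),(2,20),(3,0),(6,5)]⟩,⟨39,[(0,4),(5,1),
  (1,19),(1,15),(4,0),(1,8),(10,19),(2,34),(9,3)]⟩⟩,⟨false,0,⟨0,[]⟩,⟨0,[]⟩⟩,⟨false,0,⟨0,[]⟩,⟨0,[]⟩⟩,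
  [.a ⟨true,0,⟨1,[(9,0),(5,0),(24,1),(2,0),(2,0)]⟩,⟨1,[(8,0),(21,0),(0,0)]⟩⟩ ⟨false,1,⟨47,[(13,15),
  (4,11),(1,23),(7,26),(0,2),(5,11),(5,1)]⟩,⟨1,[(2,1),(13,0),(27,0),(1,2)]⟩⟩ ⟨true,0,⟨0,[(30,0),(2,
  0),(4,0)]⟩,⟨7,[(0,4),(5,1),(1,3),(6,0),(1,0),(13,2)]⟩⟩,.o ⟨false,1,⟨0,[(32,0),(15,0)]⟩,⟨0,[(34,
  0)]⟩⟩,.o ⟨false,1,⟨2,[(13,0),(17,2),(9,1)]⟩,⟨0,[(25,0),(4,0),(2,0)]⟩⟩,.e ⟨false,1,⟨19,[(9,3),(2,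
  7),(15,10),(0,0)]⟩,⟨37,[(2,1),(0,25),(1,4),(10,13),(12,4),(3,4),(3,4),(6,5)]⟩⟩ ⟨false,1,⟨0,[(30,
  0),(1,0),(15,0)]⟩,⟨7,[(0,4),(5,1),(1,3),(6,0),(1,0),(13,2)]⟩⟩]⟩))) (.Q [0,0,0,0,0,-1,0,0,0,0,0,1]
  (.p true [0,0,0,1] [] (⟨0,[(29,0)]⟩,⟨0,[(28,0)]⟩) .k 0 (⟨0,[]⟩,⟨0,[]⟩) .k .k) (.R ⟨1,false,false,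
  false,[0,0,0,1],[0,-1,1],[0,1,0,0,0,0,0,0,1],(⟨0,[(30,0)]⟩,⟨0,[(29,0)]⟩),(⟨0,[(23,0)]⟩,⟨0,[(38,0),
  (3,0)]⟩),⟨0,[(0,0)]⟩,.k,.k,(.r (-1) ⟨19,[(8,3),(2,7),(15,0),(0,10)]⟩ ⟨0,[(1,0),(35,0)]⟩),(.r 0
  ⟨10,[(1,0),(0,7),(1,3),(10,1),(12,1),(5,7),(5,1)]⟩ ⟨2,[(1,0),(9,1),(15,0)]⟩),.k,.k,⟨false,0,⟨0,
  [(2,0),(46,1)]⟩,⟨29,[(1,27),(7,5),(1,19),(0,2),(3,2),(1,17),(8,0),(15,5)]⟩⟩,⟨true,0,⟨0,[(24,0),(5,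
  0)]⟩,⟨0,[(29,0),(2,0)]⟩⟩,⟨true,0,⟨0,[(49,0)]⟩,⟨0,[]⟩⟩,⟨false,1,⟨3,[(1,1),(1,1),(5,2),(6,0),(1,1),
  (5,0),(2,0),(2,3),(12,0)]⟩,⟨7,[(2,5),(1,0),(10,1),(12,0),(0,7),(1,4),(0,3),(1,0)]⟩⟩,⟨false,0,⟨0,
  [(45,0)]⟩,⟨23,[(3,3),(13,3),(0,3),(6,3),(1,4),(0,4),(18,13)]⟩⟩,⟨false,1,⟨3,[(1,1),(1,0),(5,2),(6,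
  1),(7,0),(2,0),(2,3),(12,1)]⟩,⟨6,[(2,4),(1,0),(10,0),(1,0),(4,2),(2,0),(2,0),(0,6),(2,3)]⟩⟩,[.a
  ⟨true,0,⟨1,[(3,0),(25,0),(0,0)]⟩,⟨1,[(8,0),(5,0),(24,1),(2,0),(2,2)]⟩⟩ ⟨true,0,⟨0,[(2,0),(22,0),
  (7,0)]⟩,⟨0,[(1,0),(16,0)]⟩⟩ ⟨false,1,⟨23,[(7,5),(1,5),(1,11),(0,0),(3,8),(13,23),(9,4)]⟩,⟨13,[(1,
  5),(0,7),(1,0),(22,0),(1,13),(1,10),(0,3),(1,0),(8,1)]⟩⟩,.o ⟨false,1,⟨7,[(3,3),(23,0),(0,0),(11,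
  1),(6,3)]⟩,⟨0,[(31,0),(13,0)]⟩⟩,.o ⟨false,0,⟨0,[(24,0),(4,0),(2,0)]⟩,⟨2,[(12,0),(17,2),(9,1)]⟩⟩,
  .o ⟨false,0,⟨7,[(4,3),(22,0),(0,0),(0,7),(2,7),(7,1)]⟩,⟨0,[(9,0),(14,0),(5,0)]⟩⟩]⟩) (.R ⟨0,false,
  false,false,[0,0,0,1],[1,1,-1],[0,1,0,0,0,0,0,0,1],(⟨0,[(30,0)]⟩,⟨0,[(29,0)]⟩),(⟨0,[(38,0),(3,
  0)]⟩,⟨0,[(23,0)]⟩),⟨0,[(0,0)]⟩,.k,.k,(.r (-1) ⟨19,[(8,3),(2,7),(15,0),(0,10)]⟩ ⟨0,[(1,0),(35,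
  0)]⟩),(.r (-1) ⟨7,[(2,1),(8,4),(3,1),(3,0),(5,0),(2,2)]⟩ ⟨0,[(1,0),(35,1)]⟩),.k,.k,⟨false,1,⟨19,
  [(2,17),(6,7),(1,2),(0,7),(2,5),(3,22),(5,14),(2,0)]⟩,⟨2,[(1,3),(0,0),(5,1),(28,1),(5,0)]⟩⟩,⟨true,
  1,⟨0,[(9,0),(20,0)]⟩,⟨0,[(4,0),(24,0),(2,0)]⟩⟩,⟨true,0,⟨0,[(49,0)]⟩,⟨0,[]⟩⟩,⟨false,1,⟨16,[(1,21),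
  (0,8),(5,13),(0,14),(17,1),(2,16),(0,1),(11,4)]⟩,⟨31,[(0,9),(1,15),(0,14),(0,7),(0,3),(4,2),(3,1),
  (0,13),(1,12),(10,7),(0,21)]⟩⟩,⟨false,0,⟨0,[]⟩,⟨0,[]⟩⟩,⟨false,0,⟨0,[]⟩,⟨0,[]⟩⟩,[.a ⟨true,0,⟨1,[(8,
  0),(5,0),(24,1),(2,0),(2,2)]⟩,⟨1,[(3,0),(25,0),(0,0)]⟩⟩ ⟨true,0,⟨0,[(2,0),(22,0),(7,0)]⟩,⟨0,[(1,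
  0),(16,0)]⟩⟩ ⟨false,1,⟨19,[(2,5),(5,3),(0,15),(2,0),(3,0),(10,2),(2,19),(0,5),(13,17)]⟩,⟨11,[(3,
  1),(0,3),(5,3),(9,1),(8,11),(2,3),(7,0),(6,0)]⟩⟩,.o ⟨false,1,⟨11,[(2,11),(6,3),(17,6),(0,0),(3,
  7)]⟩,⟨0,[(19,0)]⟩⟩,.o ⟨false,0,⟨14,[(0,4),(3,3),(0,1),(8,0),(14,9),(2,5),(7,3)]⟩,⟨2,[(12,0),(17,
  2),(9,1)]⟩⟩,.o ⟨false,0,⟨7,[(4,3),(22,0),(0,0),(0,7),(2,7),(7,1)]⟩,⟨0,[(9,0),(14,0),(5,0)]⟩⟩]⟩)))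
  (.Q [0,0,1,2,0,0,1,1,1,1,-1,-1] (.p false [0,0,1] [1,0,0,-1] (⟨0,[(37,0)]⟩,⟨0,[(36,0)]⟩) .k 2 (⟨0,
  [(27,0)]⟩,⟨0,[(28,0)]⟩) .k (.r (-1) ⟨111,[(0,19),(6,3),(2,3),(2,19),(4,23),(6,6),(0,72),(4,3)]⟩
  ⟨7,[(0,5),(1,0),(3,5),(18,0),(3,0),(2,0),(8,3),(1,11)]⟩)) (.Q [0,1,-1,0,0,0,0,0,-1,0,0,1] (.p
  true [0,0,0,1] [] (⟨0,[(29,0)]⟩,⟨0,[(28,0)]⟩) .k 0 (⟨0,[]⟩,⟨0,[]⟩) .k .k) (.K ⟨0,[0,0,0,1],0,0,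
  (⟨0,[(30,0)]⟩,⟨0,[(29,0)]⟩),.k,(.r (-1) ⟨19,[(8,3),(2,7),(15,0),(0,10)]⟩ ⟨6,[(0,1),(1,0),(1,1),
  (22,1),(1,1),(1,0),(0,2),(10,1),(1,7)]⟩),(.x 0 ⟨0,[(42,0)]⟩ ⟨11,[(5,3),(15,3),(5,4),(0,4),(11,
  1)]⟩),.k,.k,[⟨0,[(30,0)]⟩,⟨0,[(29,0)]⟩,⟨0,[(0,0)]⟩,⟨0,[(1,0),(15,0)]⟩]⟩) (.Q [0,1,0,-1,0,0,0,0,0,
  -1,0,1] (.p true [0,0,0,1] [1] (⟨0,[(30,0)]⟩,⟨0,[(29,0)]⟩) .k 1 (⟨0,[]⟩,⟨0,[]⟩) .k .k) (.Q [0,0,0,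
  1,0,0,1,1,0,1,-1,-1] (.p false [0,0,1] [1,0,0,-1] (⟨0,[(40,0)]⟩,⟨0,[(39,0)]⟩) .k 2 (⟨0,[(30,0)]⟩,
  ⟨0,[(31,0)]⟩) .k (.r (-1) ⟨111,[(3,19),(6,3),(2,3),(2,19),(4,23),(6,6),(0,72),(4,3)]⟩ ⟨7,[(3,5),
  (1,0),(3,5),(18,0),(3,0),(2,0),(8,3),(1,11)]⟩)) (.R ⟨1,false,false,false,[1,0,0,-1],[0,1],[0,1,0,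
  0,0,0,0,0,-1],(⟨0,[(31,0)]⟩,⟨0,[(32,0)]⟩),(⟨0,[(44,0)]⟩,⟨0,[(43,0)]⟩),⟨4,[(0,2),(6,1),(2,0),(5,0),
  (3,0),(6,0),(3,1)]⟩,.k,.k,(.x (-1) ⟨11,[(7,3),(15,3),(5,4),(0,4),(11,1)]⟩ ⟨0,[(44,0)]⟩),(.x (-1)
  ⟨11,[(7,3),(15,3),(5,4),(0,4),(11,1)]⟩ ⟨0,[(44,0)]⟩),(.r (-1) ⟨21,[(4,11),(5,3),(0,5),(1,7),(0,2),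
  (3,2),(1,11),(8,4)]⟩ ⟨15,[(3,5),(2,5),(23,4),(1,5),(1,11),(1,5),(8,1),(1,19),(1,0)]⟩),.k,⟨false,1,
  ⟨19,[(4,5),(6,3),(2,8),(3,4),(2,3),(2,9),(4,6)]⟩,⟨0,[(2,0),(29,0),(14,0)]⟩⟩,⟨true,0,⟨0,[(31,0)]⟩,
  ⟨4,[(1,1),(4,0),(25,2),(1,1),(7,0),(2,0),(1,1)]⟩⟩,⟨true,0,⟨0,[(51,0)]⟩,⟨0,[]⟩⟩,⟨false,0,⟨0,[(2,0),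
  (28,0),(0,0),(14,0)]⟩,⟨41,[(1,30),(2,3),(6,21),(1,0),(4,10),(1,4),(8,18),(2,10),(12,14)]⟩⟩,⟨false,
  0,⟨0,[(47,0)]⟩,⟨23,[(5,3),(13,3),(0,3),(6,3),(1,4),(0,4),(18,13)]⟩⟩,⟨false,0,⟨0,[(2,0),(28,0),(0,
  0),(14,1)]⟩,⟨6,[(1,5),(2,0),(6,1),(1,1),(4,0),(1,2),(8,2),(2,0),(12,1)]⟩⟩,[.o ⟨false,0,⟨0,[(47,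
  0)]⟩,⟨15,[(12,3),(6,3),(9,2),(0,2),(11,5),(6,3)]⟩⟩,.e ⟨true,0,⟨1,[(4,1),(5,0),(34,0),(1,2)]⟩,⟨13,
  [(1,3),(0,8),(0,2),(2,0),(20,1),(2,0),(1,7),(3,2)]⟩⟩ ⟨true,0,⟨13,[(3,1),(2,0),(22,0),(1,11),(2,0),
  (1,1),(1,0),(6,7),(1,9)]⟩,⟨0,[(1,0)]⟩⟩,.o ⟨false,1,⟨2,[(14,0),(17,2),(9,1)]⟩,⟨13,[(0,6),(1,4),(1,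
  0),(1,1),(3,1),(13,3),(4,1),(1,1),(2,6)]⟩⟩,.a ⟨true,0,⟨0,[(32,0)]⟩,⟨0,[(31,0)]⟩⟩ ⟨false,1,⟨5,[(14,
  1),(14,2),(12,0)]⟩,⟨0,[(2,0),(29,0)]⟩⟩ ⟨true,0,⟨0,[(31,0),(15,0)]⟩,⟨0,[(1,0)]⟩⟩]⟩) (.I [0,1,0,0,0,
  0,0,0,1] (.R ⟨1,false,false,false,[0,0,0,1],[0,0,1],[0,1,0,0,0,0,0,0,1],(⟨0,[(33,0)]⟩,⟨0,[(32,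
  0)]⟩),(⟨0,[(42,0)]⟩,⟨0,[(41,0)]⟩),⟨4,[(1,1),(6,1),(1,0),(6,0),(1,0),(13,2),(14,1)]⟩,.k,.k,(.r
  (-1) ⟨19,[(11,3),(2,7),(15,0),(0,10)]⟩ ⟨3,[(5,1),(1,0),(22,0),(3,0),(2,0),(8,1),(1,5)]⟩),.k,(.r
  (-1) ⟨19,[(11,11),(2,3),(15,2),(0,12)]⟩ ⟨7,[(5,5),(1,0),(10,0),(11,0),(4,0),(3,0),(6,2),(1,12)]⟩),
  .k,⟨true,0,⟨0,[(0,0),(39,0)]⟩,⟨0,[(5,0),(40,0),(1,0)]⟩⟩,⟨false,1,⟨1,[(15,0),(3,0),(13,1),(9,0)]⟩,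
  ⟨0,[(32,0),(2,0)]⟩⟩,⟨true,0,⟨0,[(52,0)]⟩,⟨0,[]⟩⟩,⟨false,1,⟨10,[(2,1),(2,2),(4,3),(1,6),(6,4),(10,
  3),(2,8),(12,7),(1,4)]⟩,⟨0,[(3,0),(33,0)]⟩⟩,⟨false,0,⟨0,[(48,0)]⟩,⟨23,[(6,3),(13,3),(0,3),(6,3),
  (1,4),(0,4),(18,13)]⟩⟩,⟨false,1,⟨10,[(2,1),(2,2),(4,3),(1,6),(6,4),(10,3),(2,8),(12,7),(1,15)]⟩,
  ⟨15,[(3,13),(3,0),(12,2),(0,3),(6,5),(2,0),(0,1),(4,8)]⟩⟩,[.a ⟨true,0,⟨1,[(10,0),(21,0),(0,0)]⟩,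
  ⟨1,[(11,0),(5,0),(24,1),(2,0),(2,0)]⟩⟩ ⟨true,0,⟨0,[(0,0)]⟩,⟨7,[(5,5),(1,0),(3,1),(18,0),(3,0),(2,
  0),(8,7),(1,7)]⟩⟩ ⟨false,1,⟨3,[(10,1),(1,1),(2,0),(3,0),(13,3),(9,0)]⟩,⟨9,[(3,1),(3,0),(22,0),(1,
  7),(1,6),(0,1),(1,2),(8,3)]⟩⟩,.o ⟨false,1,⟨7,[(10,3),(19,0),(0,0),(11,1),(6,3)]⟩,⟨0,[(34,0)]⟩⟩,.o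
  ⟨false,0,⟨0,[(27,0),(4,0),(2,0)]⟩,⟨2,[(15,0),(17,2),(9,1)]⟩⟩,.o ⟨false,0,⟨2,[(3,0),(0,0),(2,0),
  (12,0),(9,0),(1,0),(2,1)]⟩,⟨0,[(12,0),(14,0),(5,0)]⟩⟩]⟩) (.Q [0,0,0,0,0,-1,0,0,0,1,0,-1] (.p
  false [0,0,0,1] [1] (⟨0,[(33,0)]⟩,⟨0,[(32,0)]⟩) .k 1 (⟨0,[]⟩,⟨0,[]⟩) .k .k) (.R ⟨1,false,false,
  false,[1,0,0,-1],[0,1],[0,1,0,0,0,0,0,0,-1],(⟨0,[(33,0)]⟩,⟨0,[(34,0)]⟩),(⟨0,[(46,0)]⟩,⟨0,[(45,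
  0)]⟩),⟨0,[(0,0)]⟩,.k,.k,(.x (-1) ⟨11,[(9,3),(15,3),(5,4),(0,4),(11,1)]⟩ ⟨0,[(46,0)]⟩),(.x (-1)
  ⟨11,[(9,3),(15,3),(5,4),(0,4),(11,1)]⟩ ⟨0,[(46,0)]⟩),(.r (-1) ⟨97,[(1,23),(4,23),(5,43),(0,5),(1,
  63),(0,2),(3,2),(10,24)]⟩ ⟨15,[(5,5),(2,5),(23,4),(1,5),(1,11),(1,5),(8,1),(1,19),(1,0)]⟩),.k,
  ⟨false,1,⟨19,[(6,5),(6,3),(2,8),(3,4),(2,3),(2,9),(4,6)]⟩,⟨0,[(4,0),(29,0),(14,0)]⟩⟩,⟨true,0,⟨0,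
  [(33,0)]⟩,⟨4,[(3,1),(4,0),(25,2),(1,1),(7,0),(2,0),(1,1)]⟩⟩,⟨true,0,⟨0,[(53,0)]⟩,⟨0,[]⟩⟩,⟨false,0,
  ⟨0,[(4,0),(28,0),(0,0),(14,0)]⟩,⟨15,[(1,5),(1,15),(9,3),(2,1),(3,1),(10,4),(19,4)]⟩⟩,⟨false,0,⟨0,
  [(49,0)]⟩,⟨23,[(7,3),(13,3),(0,3),(6,3),(1,4),(0,4),(18,13)]⟩⟩,⟨false,0,⟨0,[(4,0),(28,0),(0,0),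
  (14,1)]⟩,⟨9,[(1,3),(1,9),(8,1),(2,3),(15,2),(19,2)]⟩⟩,[.o ⟨false,0,⟨0,[(49,0)]⟩,⟨15,[(14,3),(6,3),
  (9,2),(0,2),(11,5),(6,3)]⟩⟩,.e ⟨true,0,⟨19,[(1,11),(4,5),(1,0),(11,1),(10,0),(3,2),(2,2),(10,5)]⟩,
  ⟨7,[(2,2),(0,0),(0,2),(0,2),(2,0),(20,1),(2,0),(1,1)]⟩⟩ ⟨true,0,⟨1,[(1,0),(3,0),(27,0),(4,0),(8,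
  0)]⟩,⟨0,[(3,0)]⟩⟩,.o ⟨false,1,⟨2,[(16,0),(17,2),(9,1)]⟩,⟨9,[(1,1),(2,2),(0,0),(0,1),(1,1),(24,5),
  (1,2),(0,1),(7,1)]⟩⟩,.a ⟨true,0,⟨0,[(34,0)]⟩,⟨0,[(33,0)]⟩⟩ ⟨false,1,⟨5,[(16,1),(14,2),(12,0)]⟩,⟨0,
  [(4,0),(29,0)]⟩⟩ ⟨true,0,⟨0,[(33,0),(15,0)]⟩,⟨0,[(3,0)]⟩⟩]⟩) (.R ⟨0,false,false,false,[1,0,0,-1],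
  [0,1],[0,1,0,0,0,0,0,0,-1],(⟨0,[(33,0)]⟩,⟨0,[(34,0)]⟩),(⟨0,[(46,0)]⟩,⟨0,[(45,0)]⟩),⟨0,[(0,0)]⟩,.k,
  .k,(.x (-1) ⟨11,[(9,3),(15,3),(5,4),(0,4),(11,1)]⟩ ⟨0,[(46,0)]⟩),(.x (-1) ⟨11,[(9,3),(15,3),(5,4),
  (0,4),(11,1)]⟩ ⟨0,[(46,0)]⟩),.k,.k,⟨false,1,⟨19,[(6,5),(6,3),(2,8),(3,4),(2,3),(2,9),(4,6)]⟩,⟨0,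
  [(4,0),(29,0),(14,0)]⟩⟩,⟨true,0,⟨0,[(33,0)]⟩,⟨14,[(0,4),(7,3),(0,1),(8,0),(15,9),(1,5),(7,3)]⟩⟩,
  ⟨true,0,⟨0,[(53,0)]⟩,⟨0,[]⟩⟩,⟨false,0,⟨0,[(4,0),(28,0),(0,0),(14,0)]⟩,⟨15,[(1,5),(1,15),(9,3),(2,
  1),(3,1),(10,4),(19,4)]⟩⟩,⟨false,0,⟨0,[]⟩,⟨0,[]⟩⟩,⟨false,0,⟨0,[]⟩,⟨0,[]⟩⟩,[.o ⟨false,0,⟨0,[(49,
  0)]⟩,⟨15,[(14,3),(6,3),(9,2),(0,2),(11,5),(6,3)]⟩⟩,.e ⟨true,0,⟨19,[(1,11),(4,5),(1,0),(11,1),(10,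
  0),(3,2),(2,2),(10,5)]⟩,⟨7,[(2,2),(0,0),(0,2),(0,2),(2,0),(20,1),(2,0),(1,1)]⟩⟩ ⟨true,0,⟨1,[(1,0),
  (3,0),(27,0),(4,0),(8,0)]⟩,⟨0,[(3,0)]⟩⟩,.o ⟨false,1,⟨2,[(16,0),(17,2),(9,1)]⟩,⟨9,[(1,1),(2,2),(0,
  0),(0,1),(1,1),(24,5),(1,2),(0,1),(7,1)]⟩⟩,.a ⟨true,0,⟨0,[(34,0)]⟩,⟨0,[(33,0)]⟩⟩ ⟨false,1,⟨5,[(16,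
  1),(14,2),(12,0)]⟩,⟨0,[(4,0),(29,0)]⟩⟩ ⟨true,0,⟨0,[(33,0),(15,0)]⟩,⟨0,[(3,0)]⟩⟩]⟩)))) (.R ⟨1,
  false,false,false,[1,0,0,-1],[0,1],[0,1,0,0,0,0,0,0,-1],(⟨0,[(30,0)]⟩,⟨0,[(31,0)]⟩),(⟨0,[(43,0)]⟩,
  ⟨0,[(42,0)]⟩),⟨4,[(0,1),(5,1),(8,0),(1,0),(2,0),(2,0),(6,2)]⟩,.k,.k,(.x (-1) ⟨11,[(6,3),(15,3),(5,
  4),(0,4),(11,1)]⟩ ⟨0,[(43,0)]⟩),(.x (-1) ⟨11,[(6,3),(15,3),(5,4),(0,4),(11,1)]⟩ ⟨0,[(43,0)]⟩),(.r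
  (-1) ⟨21,[(3,11),(5,3),(0,5),(1,7),(0,2),(3,2),(1,11),(8,4)]⟩ ⟨15,[(2,5),(2,5),(23,4),(1,5),(1,
  11),(1,5),(8,1),(1,19),(1,0)]⟩),.k,⟨false,1,⟨19,[(3,5),(6,3),(2,8),(3,4),(2,3),(2,9),(4,6)]⟩,⟨0,
  [(1,0),(29,0),(14,0)]⟩⟩,⟨true,0,⟨0,[(30,0)]⟩,⟨0,[(25,0),(5,0),(1,0)]⟩⟩,⟨true,0,⟨0,[(50,0)]⟩,⟨0,
  []⟩⟩,⟨false,0,⟨13,[(0,9),(0,8),(0,2),(2,0),(20,1),(2,0),(1,7),(3,2)]⟩,⟨4,[(3,2),(5,0),(0,1),(6,0),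
  (1,0),(8,0),(2,4),(9,1),(2,0)]⟩⟩,⟨false,0,⟨0,[(46,0)]⟩,⟨23,[(4,3),(13,3),(0,3),(6,3),(1,4),(0,4),
  (18,13)]⟩⟩,⟨false,0,⟨2,[(0,1),(0,1),(0,0),(28,1),(3,0),(10,1)]⟩,⟨39,[(3,25),(0,5),(4,7),(0,11),(1,
  3),(6,25),(8,6),(2,39),(9,16)]⟩⟩,[.o ⟨false,0,⟨0,[(46,0)]⟩,⟨15,[(11,3),(6,3),(9,2),(0,2),(11,5),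
  (6,3)]⟩⟩,.a ⟨true,0,⟨0,[(0,0),(30,0)]⟩,⟨0,[(45,0)]⟩⟩ ⟨true,0,⟨1,[(3,1),(5,0),(34,0),(1,2)]⟩,⟨7,
  [(1,4),(0,0),(2,0),(20,1),(2,0),(1,5),(0,1),(1,0)]⟩⟩ ⟨false,0,⟨0,[(0,0)]⟩,⟨47,[(13,15),(4,11),(1,
  23),(7,2),(0,2),(1,47),(3,11),(5,25)]⟩⟩,.o ⟨false,1,⟨2,[(13,0),(17,2),(9,1)]⟩,⟨3,[(0,0),(0,0),(1,
  0),(1,0),(24,1),(1,0),(0,0),(7,0)]⟩⟩,.e ⟨false,1,⟨5,[(13,1),(14,2),(12,0)]⟩,⟨0,[(1,0),(29,0)]⟩⟩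
  ⟨false,0,⟨0,[(0,0)]⟩,⟨15,[(11,3),(6,3),(9,2),(0,2),(1,15),(9,5),(6,3)]⟩⟩]⟩))) (.Q [0,0,0,1,0,0,-1,
  -1,0,-1,1,1] (.p true [0,0,1] [1,0,0,-1] (⟨0,[(38,0)]⟩,⟨0,[(37,0)]⟩) .k 2 (⟨0,[(28,0)]⟩,⟨0,[(29,
  0)]⟩) .k (.r (-1) ⟨111,[(1,19),(6,3),(2,3),(2,19),(4,23),(6,6),(0,72),(4,3)]⟩ ⟨7,[(0,3),(2,1),(3,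
  0),(15,1),(2,1),(1,3),(1,1),(11,0),(1,8)]⟩)) (.Q [0,0,0,0,0,-1,0,0,0,1,0,-1] (.p false [0,0,0,1]
  [1] (⟨0,[(30,0)]⟩,⟨0,[(29,0)]⟩) .k 1 (⟨0,[]⟩,⟨0,[]⟩) .k .k) (.I [0,1,-1,0,0,0,0,1,-1] (.R ⟨1,
  false,false,false,[1,0,0,-1],[1,0,-1],[0,1,0,0,0,0,0,0,-1],(⟨0,[(31,0)]⟩,⟨0,[(32,0)]⟩),(⟨0,[(40,
  0)]⟩,⟨0,[(41,0)]⟩),⟨0,[(1,0)]⟩,.k,.k,(.x (-1) ⟨11,[(7,3),(15,3),(5,4),(0,4),(11,1)]⟩ ⟨0,[(44,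
  0)]⟩),.k,(.x 0 ⟨19,[(6,2),(0,11),(7,3),(2,1),(9,0),(13,2)]⟩ ⟨23,[(14,3),(1,11),(12,8),(0,8),(11,
  1),(1,35)]⟩),.k,⟨false,0,⟨0,[(0,0)]⟩,⟨1,[(30,0),(8,1),(9,0)]⟩⟩,⟨true,0,⟨0,[(31,0),(2,0)]⟩,⟨5,[(2,
  1),(2,0),(0,0),(11,1),(13,3),(9,0)]⟩⟩,⟨true,0,⟨0,[(51,0)]⟩,⟨0,[]⟩⟩,⟨false,1,⟨1,[(30,0),(0,1),(2,
  1),(4,1),(9,0)]⟩,⟨2,[(0,1),(1,1),(0,0),(5,1),(8,0),(26,0)]⟩⟩,⟨false,0,⟨0,[(47,0)]⟩,⟨23,[(5,3),(13,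
  3),(0,3),(6,3),(1,4),(0,4),(18,13)]⟩⟩,⟨false,1,⟨9,[(2,9),(3,1),(23,4),(0,19),(2,3),(7,3),(2,1),(3,
  2)]⟩,⟨5,[(0,1),(1,1),(0,3),(5,4),(8,0),(26,0)]⟩⟩,[.a ⟨true,0,⟨2,[(2,1),(17,0),(6,0),(3,1)]⟩,⟨1,
  [(9,0),(21,0),(0,0)]⟩⟩ ⟨false,0,⟨11,[(0,9),(5,0),(3,3),(18,0),(3,0),(2,0),(10,3)]⟩,⟨1,[(30,0),(18,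
  0)]⟩⟩ ⟨true,0,⟨0,[(31,0),(2,0),(4,0)]⟩,⟨1,[(2,1),(2,0),(3,0)]⟩⟩,.o ⟨false,1,⟨0,[(33,0),(15,0)]⟩,
  ⟨0,[(35,0)]⟩⟩,.o ⟨false,1,⟨2,[(14,0),(17,2),(9,1)]⟩,⟨0,[(26,0),(4,0),(2,0)]⟩⟩,.e ⟨false,0,⟨1,[(0,
  1),(9,0),(34,0),(1,0)]⟩,⟨7,[(6,1),(22,0),(0,4),(3,1),(3,1),(10,3)]⟩⟩ ⟨false,1,⟨0,[(31,0),(1,0),
  (15,0)]⟩,⟨1,[(2,1),(2,0),(3,0)]⟩⟩]⟩) (.I [0,0,1,1,0,0,0,0,1] (.R ⟨1,false,false,true,[1,0,0,-1],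
  [0,1],[1,1,0,-1,0,0,0,0,-1],(⟨0,[(32,0)]⟩,⟨0,[(33,0)]⟩),(⟨0,[(45,0)]⟩,⟨0,[(44,0)]⟩),⟨0,[(2,0)]⟩,
  .k,.k,(.r (-1) ⟨19,[(11,3),(2,7),(15,10),(0,0)]⟩ ⟨0,[(0,0)]⟩),(.r (-1) ⟨19,[(11,3),(2,7),(15,10),
  (0,0)]⟩ ⟨0,[(0,0)]⟩),(.r (-1) ⟨34,[(4,14),(6,1),(0,2),(1,18),(4,8),(10,9),(1,14),(10,2)]⟩ ⟨5,[(0,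
  7),(6,0),(22,0),(4,0),(3,0),(8,3)]⟩),.k,⟨false,1,⟨34,[(4,14),(6,1),(0,2),(1,18),(4,8),(10,9),(1,
  14),(10,2)]⟩,⟨0,[(0,0),(47,0)]⟩⟩,⟨true,0,⟨0,[(32,0)]⟩,⟨3,[(3,1),(2,0),(0,0),(25,1),(1,1),(7,0)]⟩⟩,
  ⟨true,0,⟨0,[(47,0)]⟩,⟨0,[(48,0)]⟩⟩,⟨false,0,⟨0,[(0,0),(31,0)]⟩,⟨41,[(3,13),(0,27),(5,20),(1,5),(6,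
  2),(10,6),(12,8),(2,0),(3,19)]⟩⟩,⟨false,0,⟨0,[]⟩,⟨3,[(30,0),(0,0),(18,1)]⟩⟩,⟨false,0,⟨0,[(0,0),
  (31,0),(15,0)]⟩,⟨29,[(4,23),(1,5),(3,5),(4,1),(14,2),(2,5),(9,9),(6,14)]⟩⟩,[.o ⟨false,0,⟨0,[(48,
  0),(3,0)]⟩,⟨20,[(6,2),(7,0),(5,5),(0,0),(21,8),(2,1),(3,10)]⟩⟩,.o ⟨false,0,⟨0,[(48,0)]⟩,⟨15,[(13,
  3),(6,3),(9,2),(0,2),(11,5),(6,3)]⟩⟩,.o ⟨false,1,⟨2,[(15,0),(17,2),(9,1)]⟩,⟨0,[(27,0),(4,0),(2,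
  0)]⟩⟩,.a ⟨true,0,⟨0,[(33,0)]⟩,⟨0,[(32,0)]⟩⟩ ⟨true,0,⟨0,[(4,0),(27,0),(3,0),(11,0)]⟩,⟨0,[(0,0)]⟩⟩
  ⟨false,0,⟨0,[(32,0),(15,0)]⟩,⟨23,[(4,1),(1,3),(13,5),(10,0),(1,21),(9,9),(2,1),(3,12)]⟩⟩]⟩) (.Q
  [0,0,1,1,0,0,0,0,1,1,0,-1] (.p false [0,0,0,1] [1] (⟨0,[(33,0)]⟩,⟨0,[(32,0)]⟩) .k 1 (⟨0,[]⟩,⟨0,
  []⟩) .k .k) (.R ⟨1,false,false,true,[1,0,0,-1],[0,1],[1,0,0,-1,0,0,0,0,-1],(⟨0,[(33,0)]⟩,⟨0,[(34,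
  0)]⟩),(⟨0,[(46,0)]⟩,⟨0,[(45,0)]⟩),⟨0,[(3,0)]⟩,.k,.k,(.x (-1) ⟨11,[(9,3),(15,3),(5,4),(0,4),(11,
  1)]⟩ ⟨0,[(46,0)]⟩),(.x (-1) ⟨11,[(9,3),(15,3),(5,4),(0,4),(11,1)]⟩ ⟨0,[(46,0)]⟩),(.r (-1) ⟨2,[(1,
  0),(10,0),(2,1),(15,0)]⟩ ⟨19,[(0,15),(3,15),(3,7),(10,7),(11,0),(0,2),(11,3)]⟩),.k,⟨false,1,⟨17,
  [(1,15),(10,3),(2,7),(15,0),(19,8)]⟩,⟨0,[(0,0),(3,0),(32,0)]⟩⟩,⟨true,0,⟨0,[(33,0)]⟩,⟨3,[(4,1),(2,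
  0),(0,0),(25,1),(1,1),(7,0)]⟩⟩,⟨false,1,⟨23,[(7,3),(13,3),(0,3),(6,3),(1,4),(0,4),(18,13)]⟩,⟨0,
  [(49,0)]⟩⟩,⟨false,0,⟨0,[(0,0)]⟩,⟨31,[(1,0),(2,10),(0,20),(5,15),(1,3),(6,1),(10,4),(12,6),(6,
  15)]⟩⟩,⟨true,0,⟨0,[]⟩,⟨0,[(53,0)]⟩⟩,⟨false,0,⟨0,[(0,0),(48,0)]⟩,⟨29,[(5,23),(1,5),(3,5),(4,1),(14,
  2),(2,5),(9,9),(6,14)]⟩⟩,[.o ⟨false,0,⟨0,[(49,0),(3,0)]⟩,⟨20,[(7,2),(7,0),(5,5),(0,0),(21,8),(2,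
  1),(3,10)]⟩⟩,.o ⟨false,0,⟨0,[(49,0)]⟩,⟨15,[(14,3),(6,3),(9,2),(0,2),(11,5),(6,3)]⟩⟩,.o ⟨false,1,
  ⟨2,[(16,0),(17,2),(9,1)]⟩,⟨0,[(28,0),(4,0),(2,0)]⟩⟩,.a ⟨true,0,⟨0,[(34,0)]⟩,⟨0,[(33,0)]⟩⟩ ⟨true,0,
  ⟨0,[(1,0)]⟩,⟨0,[(0,0),(3,0),(18,0)]⟩⟩ ⟨false,0,⟨0,[(33,0),(15,0)]⟩,⟨23,[(5,1),(1,3),(13,5),(10,0),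
  (1,21),(9,9),(2,1),(3,12)]⟩⟩]⟩) (.Q [0,0,-1,-2,0,0,0,0,-1,-1,0,1] (.p true [0,0,0,1] [1] (⟨0,[(34,
  0)]⟩,⟨0,[(33,0)]⟩) .k 1 (⟨0,[]⟩,⟨0,[]⟩) .k .k) (.R ⟨1,false,false,true,[1,0,0,-1],[0,1],[1,0,0,-1,
  0,0,0,0,-1],(⟨0,[(34,0)]⟩,⟨0,[(35,0)]⟩),(⟨0,[(47,0)]⟩,⟨0,[(46,0)]⟩),⟨0,[(4,0)]⟩,.k,.k,(.x (-1)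
  ⟨11,[(10,3),(15,3),(5,4),(0,4),(11,1)]⟩ ⟨0,[(47,0)]⟩),(.x (-1) ⟨11,[(10,3),(15,3),(5,4),(0,4),(11,
  1)]⟩ ⟨0,[(47,0)]⟩),(.r (-1) ⟨2,[(2,0),(10,0),(2,1),(15,0)]⟩ ⟨19,[(3,7),(5,7),(10,7),(11,0),(0,6),
  (3,7),(1,7),(10,31)]⟩),.k,⟨false,1,⟨17,[(2,15),(10,3),(2,7),(15,0),(19,8)]⟩,⟨0,[(3,0),(26,0),(7,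
  0),(11,2)]⟩⟩,⟨true,0,⟨0,[(34,0)]⟩,⟨29,[(0,5),(4,7),(3,9),(10,3),(12,2),(1,15),(1,11),(7,6)]⟩⟩,
  ⟨false,1,⟨23,[(8,3),(13,3),(0,3),(6,3),(1,4),(0,4),(18,13)]⟩,⟨0,[(50,0)]⟩⟩,⟨true,0,⟨0,[(3,0),(26,
  0),(3,0),(3,0),(11,1)]⟩,⟨0,[(1,0)]⟩⟩,⟨true,0,⟨0,[]⟩,⟨0,[(54,0)]⟩⟩,⟨true,0,⟨0,[(3,0),(26,0),(3,0),
  (3,0),(11,2)]⟩,⟨0,[(0,0)]⟩⟩,[.o ⟨false,0,⟨0,[(50,0),(3,0)]⟩,⟨20,[(8,2),(7,0),(5,5),(0,0),(21,8),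
  (2,1),(3,10)]⟩⟩,.o ⟨false,0,⟨0,[(50,0)]⟩,⟨15,[(15,3),(6,3),(9,2),(0,2),(11,5),(6,3)]⟩⟩,.o ⟨false,
  1,⟨2,[(17,0),(17,2),(9,1)]⟩,⟨0,[(29,0),(4,0),(2,0)]⟩⟩,.a ⟨true,0,⟨0,[(35,0)]⟩,⟨0,[(34,0)]⟩⟩ ⟨true,
  0,⟨0,[(2,0)]⟩,⟨0,[(3,0),(26,0),(7,0),(11,1)]⟩⟩ ⟨false,0,⟨0,[(34,0),(15,0)]⟩,⟨15,[(0,3),(8,1),(12,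
  3),(2,1),(7,1),(1,11),(9,4),(6,8)]⟩⟩]⟩) (.R ⟨1,true,false,true,[1,0,0,-1],[0,1],[0,0,0,0,0,0,0,0,
  -1],(⟨0,[(34,0)]⟩,⟨0,[(35,0)]⟩),(⟨0,[(47,0)]⟩,⟨0,[(46,0)]⟩),⟨0,[(4,0)]⟩,.k,.k,(.x (-1) ⟨11,[(10,
  3),(15,3),(5,4),(0,4),(11,1)]⟩ ⟨0,[(47,0)]⟩),(.x (-1) ⟨11,[(10,3),(15,3),(5,4),(0,4),(11,1)]⟩ ⟨0,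
  [(47,0)]⟩),(.r (-1) ⟨2,[(2,0),(10,0),(2,1),(15,0)]⟩ ⟨13,[(0,7),(4,7),(3,5),(10,3),(11,0),(0,3),(3,
  3),(7,0)]⟩),.k,⟨false,1,⟨5,[(2,5),(14,1),(27,0),(6,2)]⟩,⟨3,[(0,2),(2,0),(1,2),(18,3),(5,0)]⟩⟩,
  ⟨true,0,⟨0,[(34,0)]⟩,⟨3,[(5,1),(2,0),(0,0),(25,1),(1,1),(7,0)]⟩⟩,⟨false,1,⟨3,[(32,0),(0,0),(18,
  1)]⟩,⟨0,[]⟩⟩,⟨true,0,⟨0,[(0,0),(48,0)]⟩,⟨0,[(1,0)]⟩⟩,⟨true,0,⟨0,[(50,0)]⟩,⟨0,[(49,0)]⟩⟩,⟨false,0,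
  ⟨0,[(0,0)]⟩,⟨15,[(1,7),(4,7),(1,3),(23,2),(0,2),(11,1),(6,7)]⟩⟩,[]⟩))))) (.I [0,1,-1,-1,0,0,0,1,
  -1] (.R ⟨0,false,false,false,[1,0,0,-1],[1,0,-1],[0,1,0,-1,0,0,0,0,-1],(⟨0,[(31,0)]⟩,⟨0,[(32,
  0)]⟩),(⟨0,[(40,0)]⟩,⟨0,[(41,0)]⟩),⟨0,[(1,0)]⟩,.k,.k,(.x (-1) ⟨11,[(7,3),(15,3),(5,4),(0,4),(11,
  1)]⟩ ⟨0,[(44,0)]⟩),.k,.k,.k,⟨false,0,⟨0,[(0,0)]⟩,⟨1,[(30,0),(8,1),(7,1),(1,0)]⟩⟩,⟨true,0,⟨0,[(31,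
  0),(2,0)]⟩,⟨23,[(1,4),(4,3),(0,1),(8,0),(1,8),(13,18),(9,3)]⟩⟩,⟨true,0,⟨0,[(46,0)]⟩,⟨0,[(47,0)]⟩⟩,
  ⟨false,1,⟨1,[(30,0),(0,1),(2,1),(4,1),(9,0)]⟩,⟨1,[(0,1),(1,1),(6,0),(8,0),(26,0)]⟩⟩,⟨false,0,⟨0,
  []⟩,⟨0,[]⟩⟩,⟨false,0,⟨0,[]⟩,⟨0,[]⟩⟩,[.a ⟨true,0,⟨2,[(2,1),(17,0),(6,0),(3,1)]⟩,⟨1,[(9,0),(21,0),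
  (0,0)]⟩⟩ ⟨false,0,⟨11,[(0,9),(5,0),(3,3),(18,0),(3,0),(2,0),(10,1)]⟩,⟨1,[(30,0),(16,1),(1,0)]⟩⟩
  ⟨true,0,⟨0,[(31,0),(2,0),(4,0)]⟩,⟨7,[(1,4),(5,1),(1,3),(6,0),(1,0),(13,2)]⟩⟩,.o ⟨false,1,⟨0,[(33,
  0),(15,0)]⟩,⟨0,[(35,0)]⟩⟩,.o ⟨false,1,⟨2,[(14,0),(17,2),(9,1)]⟩,⟨0,[(26,0),(4,0),(2,0)]⟩⟩,.e
  ⟨false,0,⟨1,[(0,1),(9,0),(34,0),(1,0)]⟩,⟨7,[(6,1),(22,0),(0,4),(3,1),(3,1),(8,7),(1,3)]⟩⟩ ⟨false,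
  1,⟨0,[(31,0),(1,0),(15,0)]⟩,⟨7,[(1,4),(5,1),(1,3),(6,0),(1,0),(13,2)]⟩⟩]⟩) (.Q [0,1,1,0,0,0,1,1,1,
  1,-1,-1] (.p false [0,0,1] [1,0,0,-1] (⟨0,[(41,0)]⟩,⟨0,[(40,0)]⟩) .k 2 (⟨0,[(31,0)]⟩,⟨0,[(32,
  0)]⟩) .k (.r (-1) ⟨111,[(4,19),(6,3),(2,3),(2,19),(4,23),(6,6),(0,72),(4,3)]⟩ ⟨7,[(3,3),(2,1),(3,
  0),(15,1),(2,1),(1,3),(1,1),(11,0),(1,8)]⟩)) (.R ⟨0,false,false,true,[1,0,0,-1],[0,0,1],[1,1],(⟨0,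
  [(32,0)]⟩,⟨0,[(33,0)]⟩),(⟨0,[(42,0)]⟩,⟨0,[(41,0)]⟩),⟨0,[(2,0)]⟩,.k,.k,(.x (-1) ⟨11,[(8,3),(15,3),
  (5,4),(0,4),(11,1)]⟩ ⟨0,[(45,0)]⟩),.k,.k,.k,⟨true,0,⟨0,[(40,0)]⟩,⟨6,[(7,0),(5,0),(4,1),(4,0),(11,
  0),(3,1)]⟩⟩,⟨false,0,⟨0,[(27,0),(4,0)]⟩,⟨33,[(3,9),(0,1),(7,15),(10,5),(4,5),(1,3),(0,4),(1,21),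
  (9,2)]⟩⟩,⟨false,1,⟨3,[(30,0),(0,2)]⟩,⟨1,[(4,1),(13,0),(8,1),(4,1),(13,0),(1,2)]⟩⟩,⟨true,0,⟨0,[(0,
  0)]⟩,⟨0,[(4,0),(43,1)]⟩⟩,⟨false,0,⟨0,[]⟩,⟨0,[]⟩⟩,⟨false,0,⟨0,[]⟩,⟨0,[]⟩⟩,[.o ⟨false,0,⟨0,[(36,
  0)]⟩,⟨0,[(34,0),(15,0)]⟩⟩,.e ⟨true,0,⟨0,[]⟩,⟨7,[(7,1),(22,0),(0,0),(3,1),(3,1)]⟩⟩ ⟨true,0,⟨35,[(0,
  3),(5,4),(0,9),(2,0),(7,9),(11,1),(1,31),(10,7),(2,1)]⟩,⟨14,[(1,2),(0,4),(0,6),(0,2),(3,1),(2,0),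
  (5,0),(10,2)]⟩⟩,.o ⟨false,1,⟨2,[(15,0),(17,2),(9,1)]⟩,⟨0,[(27,0),(4,0),(2,0)]⟩⟩,.a ⟨true,0,⟨0,
  [(33,0)]⟩,⟨0,[(32,0)]⟩⟩ ⟨false,1,⟨11,[(15,3),(14,2),(0,2),(11,1)]⟩,⟨5,[(7,0),(27,0),(3,0),(6,1),
  (3,0)]⟩⟩ ⟨true,0,⟨0,[(32,0),(3,0)]⟩,⟨14,[(1,2),(0,4),(0,6),(0,2),(3,1),(2,0),(5,0),(10,2)]⟩⟩]⟩)
  (.R ⟨0,false,false,true,[1,0,0,-1],[0,1],[1,0,1],(⟨0,[(32,0)]⟩,⟨0,[(33,0)]⟩),(⟨0,[(45,0)]⟩,⟨0,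
  [(44,0)]⟩),⟨0,[(2,0)]⟩,.k,.k,(.x (-1) ⟨11,[(8,3),(15,3),(5,4),(0,4),(11,1)]⟩ ⟨0,[(45,0)]⟩),(.x
  (-1) ⟨11,[(8,3),(15,3),(5,4),(0,4),(11,1)]⟩ ⟨0,[(45,0)]⟩),.k,.k,⟨false,1,⟨19,[(11,3),(2,7),(15,0),
  (0,0),(18,9)]⟩,⟨0,[(48,0),(3,0)]⟩⟩,⟨true,0,⟨0,[(32,0)]⟩,⟨14,[(2,4),(4,3),(0,1),(8,0),(15,9),(1,5),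
  (7,3)]⟩⟩,⟨false,1,⟨7,[(7,1),(22,0),(0,4),(3,1),(3,1),(10,3)]⟩,⟨0,[(0,0),(31,0),(3,0)]⟩⟩,⟨true,0,
  ⟨0,[(1,0),(26,0),(3,0),(3,0),(11,0)]⟩,⟨0,[(0,0),(21,0)]⟩⟩,⟨false,0,⟨0,[]⟩,⟨0,[]⟩⟩,⟨false,0,⟨0,[]⟩,
  ⟨0,[]⟩⟩,[.o ⟨false,0,⟨0,[(48,0),(3,0)]⟩,⟨20,[(6,2),(7,0),(5,5),(0,0),(21,8),(2,1),(3,10)]⟩⟩,.o
  ⟨false,0,⟨0,[(48,0)]⟩,⟨15,[(13,3),(6,3),(9,2),(0,2),(11,5),(6,3)]⟩⟩,.o ⟨false,1,⟨2,[(15,0),(17,2),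
  (9,1)]⟩,⟨0,[(27,0),(4,0),(2,0)]⟩⟩,.a ⟨true,0,⟨0,[(33,0)]⟩,⟨0,[(32,0)]⟩⟩ ⟨true,0,⟨0,[]⟩,⟨0,[(52,
  0)]⟩⟩ ⟨false,0,⟨0,[(32,0),(15,0)]⟩,⟨23,[(4,1),(1,3),(13,5),(10,0),(1,21),(9,9),(2,1),(3,
  12)]⟩⟩]⟩)))) (.I [0,1,-1,0,0,0,0,1,-1] (.R ⟨1,false,false,false,[1,0,0,-1],[0,1,1],[0,1,0,0,0,0,0,
  0,-1],(⟨0,[(30,0)]⟩,⟨0,[(31,0)]⟩),(⟨0,[(40,0),(2,0)]⟩,⟨0,[(22,0)]⟩),⟨4,[(1,1),(4,1),(2,0),(5,0),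
  (14,2),(15,2)]⟩,.k,.k,(.x (-1) ⟨11,[(6,3),(15,3),(5,4),(0,4),(11,1)]⟩ ⟨0,[(43,0)]⟩),(.r 0 ⟨10,[(0,
  7),(1,0),(2,0),(3,8),(18,0),(1,0),(2,0),(10,3)]⟩ ⟨15,[(5,1),(10,7),(11,4),(0,12),(3,1),(3,1),(8,
  7)]⟩),(.x 0 ⟨11,[(5,1),(0,6),(8,8),(1,0),(4,0),(18,1)]⟩ ⟨23,[(13,3),(0,11),(13,8),(0,8),(11,1),(1,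
  35)]⟩),.k,⟨false,0,⟨0,[(0,0),(8,0)]⟩,⟨15,[(5,1),(10,7),(11,0),(0,8),(3,1),(3,1),(8,7),(1,7)]⟩⟩,
  ⟨true,0,⟨0,[(25,0),(4,0)]⟩,⟨0,[(31,0),(1,0)]⟩⟩,⟨true,0,⟨0,[(50,0)]⟩,⟨0,[]⟩⟩,⟨false,1,⟨3,[(5,0),
  (10,1),(10,0),(1,1),(0,3),(10,0),(4,1),(1,1)]⟩,⟨0,[(2,0),(43,0)]⟩⟩,⟨false,0,⟨0,[(46,0)]⟩,⟨23,[(4,
  3),(13,3),(0,3),(6,3),(1,4),(0,4),(18,13)]⟩⟩,⟨false,1,⟨3,[(5,0),(10,1),(10,0),(1,1),(0,3),(10,0),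
  (4,5),(1,1)]⟩,⟨0,[(2,0)]⟩⟩,[.e ⟨false,0,⟨11,[(0,9),(4,0),(3,3),(18,0),(3,0),(2,0),(10,3)]⟩,⟨1,
  [(29,0),(18,0)]⟩⟩ ⟨false,0,⟨0,[(1,0),(44,1)]⟩,⟨17,[(2,7),(6,1),(0,3),(17,1),(0,5),(1,9),(3,5),(5,
  2),(6,2)]⟩⟩,.o ⟨false,1,⟨7,[(8,3),(19,0),(0,0),(11,1),(4,7),(1,3)]⟩,⟨0,[(23,0)]⟩⟩,.o ⟨false,1,⟨2,
  [(13,0),(17,2),(9,1)]⟩,⟨0,[(25,0),(4,0),(2,0)]⟩⟩,.a ⟨true,0,⟨0,[(31,0)]⟩,⟨0,[(30,0)]⟩⟩ ⟨false,0,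
  ⟨1,[(0,1),(8,0),(34,0),(1,0)]⟩,⟨7,[(5,1),(22,0),(0,4),(3,1),(3,1),(10,3)]⟩⟩ ⟨true,0,⟨0,[(1,0),(44,
  1)]⟩,⟨0,[(23,0),(7,0)]⟩⟩]⟩) (.R ⟨1,false,false,true,[1,0,0,-1],[0,1],[0,0,0,0,0,0,0,0,-1],(⟨0,
  [(30,0)]⟩,⟨0,[(31,0)]⟩),(⟨0,[(43,0)]⟩,⟨0,[(42,0)]⟩),⟨4,[(1,1),(4,1),(2,0),(5,0),(14,2),(15,2)]⟩,
  .k,.k,(.x (-1) ⟨11,[(6,3),(15,3),(5,4),(0,4),(11,1)]⟩ ⟨0,[(43,0)]⟩),(.x (-1) ⟨11,[(6,3),(15,3),(5,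
  4),(0,4),(11,1)]⟩ ⟨0,[(43,0)]⟩),(.r (-1) ⟨37,[(1,11),(0,11),(6,7),(0,5),(1,15),(0,2),(3,2),(10,
  12)]⟩ ⟨5,[(0,3),(4,1),(10,3),(12,0),(5,3),(5,0),(4,7)]⟩),.k,⟨false,1,⟨5,[(2,1),(0,1),(6,3),(2,0),
  (3,2),(10,0),(1,1),(13,3)]⟩,⟨0,[(0,0),(25,0),(7,0),(11,1)]⟩⟩,⟨true,0,⟨0,[(30,0)]⟩,⟨0,[(25,0),(5,
  0),(1,0)]⟩⟩,⟨false,1,⟨3,[(28,0),(0,0),(18,1)]⟩,⟨0,[]⟩⟩,⟨false,0,⟨0,[(0,0),(0,0),(24,0),(19,2)]⟩,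
  ⟨27,[(2,13),(5,6),(1,9),(6,4),(10,6),(2,13),(9,7),(2,10),(3,2)]⟩⟩,⟨true,0,⟨0,[(46,0)]⟩,⟨0,[(45,
  0)]⟩⟩,⟨false,0,⟨0,[(0,0),(0,0),(24,0),(19,3)]⟩,⟨29,[(2,23),(1,5),(3,5),(4,1),(14,2),(2,5),(9,9),
  (6,14)]⟩⟩,[.o ⟨false,0,⟨0,[(46,0),(3,0)]⟩,⟨20,[(4,2),(7,0),(5,5),(0,0),(21,8),(2,1),(3,10)]⟩⟩,.o
  ⟨false,0,⟨0,[(46,0)]⟩,⟨15,[(11,3),(6,3),(9,2),(0,2),(11,5),(6,3)]⟩⟩,.o ⟨false,1,⟨2,[(13,0),(17,2),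
  (9,1)]⟩,⟨0,[(25,0),(4,0),(2,0)]⟩⟩,.a ⟨true,0,⟨0,[(31,0)]⟩,⟨0,[(30,0)]⟩⟩ ⟨true,0,⟨0,[(1,0),(0,0),
  (43,2)]⟩,⟨0,[(0,0),(25,0),(7,0),(11,0)]⟩⟩ ⟨false,0,⟨0,[(30,0),(15,0)]⟩,⟨23,[(0,3),(1,3),(8,5),(6,
  1),(2,1),(9,19),(9,8),(6,12)]⟩⟩]⟩)))))) (.Q [0,0,0,2,0,0,-2,-2,0,-1,2] (.p true [0,0,1] [1,0,-1]
  (⟨0,[(35,0)]⟩,⟨0,[(34,0)]⟩) .k 2 (⟨0,[(34,0)]⟩,⟨0,[(35,0)]⟩) .k (.r (-1) ⟨93,[(0,7),(7,7),(2,39),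
  (3,27),(0,39),(4,11),(1,18),(0,18)]⟩ ⟨0,[(33,1)]⟩)) (.R ⟨1,false,false,false,[0,-1,1],[1,0,-1],[0,
  0,1],(⟨0,[(20,0)]⟩,⟨0,[(35,0),(3,0)]⟩),(⟨0,[(35,0)]⟩,⟨0,[(36,0)]⟩),⟨0,[(2,0)]⟩,.k,.k,(.r (-1) ⟨1,
  [(1,1),(0,1),(0,3),(1,0),(5,0),(2,1),(0,1),(23,4),(2,6)]⟩ ⟨5,[(0,4),(11,1),(10,4),(8,4),(0,4)]⟩),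
  (.r (-1) ⟨22,[(1,1),(6,8),(0,1),(2,4),(3,6),(0,9),(4,2)]⟩ ⟨5,[(0,2),(22,2),(7,3),(0,3),(1,1),(5,
  1)]⟩),(.x 0 ⟨0,[(2,0),(29,1),(3,0)]⟩ ⟨0,[(1,0),(9,0),(1,0),(25,2)]⟩),.k,⟨true,0,⟨19,[(7,3),(4,7),
  (19,2),(0,6),(6,1)]⟩,⟨0,[(34,0)]⟩⟩,⟨false,1,⟨0,[(1,0)]⟩,⟨1,[(23,1),(8,0),(0,0)]⟩⟩,⟨false,0,⟨3,[(0,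
  1),(22,1),(8,2),(0,2),(6,1)]⟩,⟨12,[(1,0),(2,1),(1,2),(1,5),(0,1),(6,0),(0,0)]⟩⟩,⟨false,1,⟨7,[(0,
  5),(13,1),(9,0),(0,0),(5,1),(12,5)]⟩,⟨0,[(3,0)]⟩⟩,⟨false,0,⟨11,[(0,9),(11,3),(10,9),(8,6),(0,6),
  (6,5)]⟩,⟨0,[(8,0)]⟩⟩,⟨true,0,⟨0,[(0,0)]⟩,⟨0,[(3,0),(37,0)]⟩⟩,[.a ⟨true,0,⟨2,[(0,0),(14,0),(6,0),
  (3,0),(0,0)]⟩,⟨1,[(4,0),(21,0),(0,0)]⟩⟩ ⟨true,0,⟨1,[(32,0),(0,0)]⟩,⟨0,[]⟩⟩ ⟨false,1,⟨11,[(0,1),(0,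
  9),(3,3),(18,0),(0,0)]⟩,⟨1,[(4,0),(18,0),(8,0),(0,0)]⟩⟩,.o ⟨false,1,⟨11,[(0,3),(13,3),(9,0),(0,0),
  (11,1),(6,7)]⟩,⟨0,[(30,0)]⟩⟩,.o ⟨false,0,⟨0,[(32,0)]⟩,⟨7,[(1,3),(22,0),(0,0),(11,1)]⟩⟩,.o ⟨false,
  0,⟨1,[(32,2),(0,0)]⟩,⟨0,[(6,0)]⟩⟩]⟩) (.Q [0,-1,1,-1,0,0,-1,-1,1,0,1,-1] (.p true [0,0,1] [0,0,0,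
  1] (⟨0,[(36,0)]⟩,⟨0,[(35,0)]⟩) .k 2 (⟨0,[(27,0)]⟩,⟨0,[(26,0)]⟩) .k (.x (-1) ⟨39,[(2,7),(6,7),(0,
  15),(12,3),(0,12),(0,12),(11,5)]⟩ ⟨3,[(11,1),(20,0),(0,0),(5,1)]⟩)) (.Q [0,1,-1,0,0,0,0,0,-1,0,0,
  1] (.p true [0,0,0,1] [] (⟨0,[(28,0)]⟩,⟨0,[(27,0)]⟩) .k 0 (⟨0,[]⟩,⟨0,[]⟩) .k .k) (.K ⟨0,[0,0,0,1],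
  0,0,(⟨0,[(29,0)]⟩,⟨0,[(28,0)]⟩),.k,(.r (-1) ⟨19,[(7,3),(2,7),(15,0),(0,10)]⟩ ⟨1,[(0,1),(22,0),(4,
  1),(2,1),(2,0),(7,0),(1,1)]⟩),(.x 0 ⟨0,[(41,0)]⟩ ⟨11,[(4,3),(15,3),(5,4),(0,4),(11,1)]⟩),.k,.k,
  [⟨0,[(29,0)]⟩,⟨0,[(28,0)]⟩,⟨0,[(0,0)]⟩,⟨0,[(1,0),(30,0),(11,0),(3,0)]⟩]⟩) (.I [0,-1,0,0,0,0,0,-1,
  1] (.Q [0,0,0,1,0,0,1,1,0,1,-1,-1] (.p false [0,0,1] [1,0,0,-1] (⟨0,[(39,0)]⟩,⟨0,[(38,0)]⟩) .k 2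
  (⟨0,[(29,0)]⟩,⟨0,[(30,0)]⟩) .k (.x 0 ⟨0,[(35,0),(3,0)]⟩ ⟨7,[(12,3),(1,3),(12,0),(0,0),(11,1),(1,
  3)]⟩)) (.I [0,0,0,0,0,0,0,0,1] (.R ⟨1,false,false,false,[1,0,0,-1],[0,1,1],[0,0,0,0,0,0,0,0,-1],
  (⟨0,[(31,0)]⟩,⟨0,[(32,0)]⟩),(⟨0,[(41,0),(2,0)]⟩,⟨0,[(23,0)]⟩),⟨4,[(1,2),(5,1),(2,0),(5,0),(3,0),
  (6,0),(3,1)]⟩,.k,.k,(.x (-1) ⟨11,[(7,3),(15,3),(5,4),(0,4),(11,1)]⟩ ⟨0,[(44,0)]⟩),(.r (-1) ⟨19,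
  [(10,11),(2,3),(15,12),(0,2)]⟩ ⟨3,[(0,2),(1,0),(14,2),(18,0),(0,0),(9,0)]⟩),(.r (-1) ⟨1,[(5,0),(0,
  0),(3,1),(18,0)]⟩ ⟨3,[(0,0),(1,2),(14,4),(18,2),(0,2),(9,2)]⟩),.k,⟨false,1,⟨5,[(5,0),(0,2),(3,3),
  (7,1),(10,2)]⟩,⟨3,[(0,2),(1,0),(14,2),(18,0),(0,0),(9,0)]⟩⟩,⟨true,0,⟨9,[(1,5),(8,2),(1,0),(7,0),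
  (10,3),(5,2)]⟩,⟨0,[(32,0),(1,0)]⟩⟩,⟨false,1,⟨3,[(29,0),(0,0),(18,1)]⟩,⟨0,[]⟩⟩,⟨false,0,⟨2,[(1,1),
  (0,1),(1,0),(12,1),(10,0)]⟩,⟨5,[(10,1),(0,2),(7,1),(9,2),(2,5),(1,0),(10,0)]⟩⟩,⟨true,0,⟨0,[(47,
  0)]⟩,⟨0,[(46,0)]⟩⟩,⟨false,0,⟨3,[(1,3),(0,3),(14,1),(19,0),(0,0),(8,1)]⟩,⟨9,[(5,0),(0,0),(4,3),(7,
  5),(0,5),(8,4),(2,9)]⟩⟩,[.e ⟨false,1,⟨5,[(14,1),(14,2),(12,0)]⟩,⟨0,[(0,0)]⟩⟩ ⟨false,0,⟨0,[(1,0)]⟩,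
  ⟨5,[(6,1),(3,1),(8,1),(9,0),(0,0),(1,5),(9,0),(6,0)]⟩⟩,.o ⟨false,1,⟨7,[(9,3),(19,0),(0,0),(11,1),
  (4,7),(1,3)]⟩,⟨0,[(24,0)]⟩⟩,.o ⟨false,1,⟨2,[(14,0),(17,2),(9,1)]⟩,⟨8,[(1,5),(8,1),(8,1),(11,2),(2,
  6),(2,2),(7,0)]⟩⟩,.a ⟨true,0,⟨0,[(32,0)]⟩,⟨0,[(31,0)]⟩⟩ ⟨false,1,⟨1,[(6,0),(11,0),(10,0),(15,0)]⟩,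
  ⟨1,[(0,1),(36,0),(0,0)]⟩⟩ ⟨true,0,⟨0,[(1,0)]⟩,⟨0,[(24,0),(7,0)]⟩⟩]⟩) (.I [1,0,0,0,0,0,0,0,1] (.N
  [0,0,0,1] 0 ⟨0,[(0,0)]⟩ ⟨0,[(1,0)]⟩ .k) (.R ⟨1,false,false,true,[1,0,0,-1],[0,1,1],[0,1,0,0,0,0,0,
  0,-1],(⟨0,[(32,0)]⟩,⟨0,[(33,0)]⟩),(⟨0,[(42,0),(2,0)]⟩,⟨0,[(24,0)]⟩),⟨4,[(2,2),(5,1),(2,0),(5,0),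
  (3,0),(6,0),(3,1)]⟩,.k,.k,(.x (-1) ⟨11,[(8,3),(15,3),(5,4),(0,4),(11,1)]⟩ ⟨0,[(45,0)]⟩),(.r (-1)
  ⟨19,[(11,11),(2,3),(15,12),(0,2)]⟩ ⟨0,[(3,0),(14,0),(33,0)]⟩),(.r (-1) ⟨4,[(0,0),(10,3),(2,2),(15,
  1)]⟩ ⟨2,[(3,2),(14,3),(18,1),(0,1),(9,1),(3,0)]⟩),.k,⟨false,1,⟨39,[(0,5),(10,23),(0,9),(1,7),(0,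
  4),(3,4),(10,16)]⟩,⟨0,[(3,0),(14,0),(33,0)]⟩⟩,⟨true,0,⟨19,[(0,0),(1,11),(2,0),(0,0),(4,6),(1,0),
  (18,6),(5,5)]⟩,⟨0,[(33,0),(1,0)]⟩⟩,⟨true,0,⟨0,[(52,0)]⟩,⟨0,[]⟩⟩,⟨false,0,⟨3,[(2,1),(0,1),(0,1),(5,
  0),(7,1),(10,0),(7,1),(14,1)]⟩,⟨3,[(0,1),(6,1),(13,3),(8,0),(2,3),(9,0)]⟩⟩,⟨false,0,⟨0,[(48,0)]⟩,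
  ⟨23,[(6,3),(13,3),(0,3),(6,3),(1,4),(0,4),(18,13)]⟩⟩,⟨false,0,⟨2,[(2,2),(0,2),(14,1),(18,0),(0,0),
  (9,0),(3,1)]⟩,⟨22,[(0,8),(11,11),(1,3),(5,10),(0,15),(8,6),(2,22),(12,8)]⟩⟩,[.o ⟨false,0,⟨0,[(36,
  0),(11,0)]⟩,⟨0,[(25,0),(24,0)]⟩⟩,.a ⟨true,0,⟨0,[(2,0),(30,0)]⟩,⟨3,[(11,1),(5,0),(10,1),(13,1),(2,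
  0),(0,0)]⟩⟩ ⟨true,0,⟨0,[(0,0)]⟩,⟨8,[(3,5),(1,2),(12,3),(3,0),(10,2),(4,1),(13,7)]⟩⟩ ⟨false,0,⟨0,
  [(2,0)]⟩,⟨5,[(7,1),(3,1),(8,1),(9,0),(0,0),(1,5),(9,0),(6,0)]⟩⟩,.o ⟨false,1,⟨2,[(15,0),(17,2),(9,
  1)]⟩,⟨2,[(0,0),(1,1),(2,0),(19,0),(9,0),(2,0)]⟩⟩,.e ⟨false,1,⟨5,[(15,1),(14,2),(12,0)]⟩,⟨13,[(3,
  9),(1,3),(0,0),(11,5),(14,3),(1,0),(2,2)]⟩⟩ ⟨false,0,⟨0,[(2,0)]⟩,⟨0,[(25,0),(7,0),(16,0)]⟩⟩]⟩)))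
  (.I [1,-1,1,0,0,0,0,0,-1] (.R ⟨1,false,false,false,[0,0,0,1],[0,-1,1],[0,1,0,0,0,0,0,0,1],(⟨0,
  [(32,0)]⟩,⟨0,[(31,0)]⟩),(⟨0,[(25,0)]⟩,⟨0,[(40,0),(3,0)]⟩),⟨4,[(1,1),(5,1),(1,0),(6,0),(1,0),(13,
  2),(14,1)]⟩,.k,.k,(.r (-1) ⟨19,[(10,3),(2,7),(15,0),(0,10)]⟩ ⟨0,[(0,0),(46,0),(3,0)]⟩),(.r 0 ⟨2,
  [(2,2),(14,0),(18,1),(0,1),(9,1),(3,0)]⟩ ⟨1,[(5,0),(0,0),(22,0)]⟩),.k,.k,⟨false,0,⟨0,[(2,0),(44,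
  0),(3,1)]⟩,⟨35,[(0,33),(5,2),(2,6),(1,7),(1,17),(0,3),(7,1),(6,0)]⟩⟩,⟨true,0,⟨0,[(26,0),(5,0)]⟩,
  ⟨0,[(31,0),(2,0)]⟩⟩,⟨true,0,⟨0,[(51,0)]⟩,⟨0,[]⟩⟩,⟨false,1,⟨8,[(0,2),(0,4),(7,5),(1,3),(1,1),(4,2),
  (10,2),(2,3),(12,2)]⟩,⟨0,[(3,0),(32,0),(10,0)]⟩⟩,⟨false,0,⟨0,[(47,0)]⟩,⟨99,[(1,19),(2,19),(0,19),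
  (4,3),(2,7),(15,30),(0,20),(18,39)]⟩⟩,⟨false,1,⟨13,[(0,7),(8,6),(1,9),(6,4),(10,2),(2,13),(9,0),
  (2,2)]⟩,⟨0,[(3,0),(32,0)]⟩⟩,[.a ⟨true,0,⟨1,[(5,0),(25,0),(0,0)]⟩,⟨0,[(1,0),(29,0),(15,1)]⟩⟩ ⟨true,
  0,⟨0,[(2,0),(24,0),(7,0),(11,0)]⟩,⟨0,[(0,0)]⟩⟩ ⟨false,1,⟨23,[(9,5),(1,5),(1,11),(0,0),(3,8),(13,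
  23),(9,4)]⟩,⟨1,[(0,0),(2,0),(27,0),(1,0),(2,0),(10,1)]⟩⟩,.o ⟨false,1,⟨7,[(5,3),(23,0),(0,0),(11,
  1),(6,3)]⟩,⟨0,[(33,0),(13,0)]⟩⟩,.o ⟨false,0,⟨1,[(0,0),(2,0),(27,0),(1,0),(1,0)]⟩,⟨2,[(14,0),(17,
  2),(9,1)]⟩⟩,.o ⟨false,0,⟨0,[(31,0),(2,0),(2,0)]⟩,⟨0,[(11,0),(14,0),(5,0)]⟩⟩]⟩) (.Q [0,0,0,0,0,1,0,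
  0,0,-1,0,1] (.p true [0,0,0,1] [1] (⟨0,[(32,0)]⟩,⟨0,[(31,0)]⟩) .k 1 (⟨0,[]⟩,⟨0,[]⟩) .k .k) (.R ⟨0,
  false,false,false,[1,0,0,-1],[1,0,-1],[1,0,0,0,0,0,0,0,-1],(⟨0,[(32,0)]⟩,⟨0,[(33,0)]⟩),(⟨0,[(41,
  0)]⟩,⟨0,[(42,0)]⟩),⟨0,[(0,0)]⟩,.k,.k,(.x (-1) ⟨11,[(8,3),(15,3),(5,4),(0,4),(11,1)]⟩ ⟨0,[(45,
  0)]⟩),.k,.k,.k,⟨false,1,⟨1,[(7,0),(2,0),(19,0)]⟩,⟨2,[(1,0),(1,1),(33,0),(0,0)]⟩⟩,⟨true,0,⟨0,[(32,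
  0),(2,0)]⟩,⟨0,[(27,0),(5,0)]⟩⟩,⟨true,0,⟨0,[]⟩,⟨0,[(52,0)]⟩⟩,⟨false,0,⟨0,[(5,0),(42,0)]⟩,⟨39,[(0,
  4),(7,1),(1,19),(1,15),(4,0),(1,8),(10,19),(2,34),(9,3)]⟩⟩,⟨false,0,⟨0,[]⟩,⟨0,[]⟩⟩,⟨false,0,⟨0,
  []⟩,⟨0,[]⟩⟩,[.a ⟨true,0,⟨0,[(2,0),(29,0),(15,0)]⟩,⟨1,[(10,0),(21,0),(0,0)]⟩⟩ ⟨false,1,⟨5,[(15,1),
  (14,2),(12,0)]⟩,⟨20,[(1,9),(1,7),(1,2),(7,0),(4,4),(14,2),(4,1)]⟩⟩ ⟨true,0,⟨0,[(32,0),(2,0),(4,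
  0)]⟩,⟨7,[(0,4),(7,1),(1,3),(6,0),(1,0),(13,2)]⟩⟩,.o ⟨false,1,⟨0,[(34,0),(15,0)]⟩,⟨0,[(36,0)]⟩⟩,.o
  ⟨false,1,⟨2,[(15,0),(17,2),(9,1)]⟩,⟨0,[(27,0),(4,0),(2,0)]⟩⟩,.e ⟨false,1,⟨1,[(7,0),(11,0),(10,0),
  (15,0)]⟩,⟨7,[(1,3),(1,1),(1,1),(12,1),(14,1),(4,4),(0,2)]⟩⟩ ⟨false,1,⟨4,[(5,1),(1,0),(22,0),(1,2),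
  (4,0),(2,1),(2,0),(4,1),(1,1)]⟩,⟨7,[(0,4),(7,1),(1,3),(6,0),(1,0),(13,2)]⟩⟩]⟩) (.R ⟨1,false,false,
  false,[1,0,0,-1],[1,0,-1],[0,0,0,0,0,0,0,0,-1],(⟨0,[(32,0)]⟩,⟨0,[(33,0)]⟩),(⟨0,[(41,0)]⟩,⟨0,[(42,
  0)]⟩),⟨0,[(0,0)]⟩,.k,.k,(.x (-1) ⟨11,[(8,3),(15,3),(5,4),(0,4),(11,1)]⟩ ⟨0,[(45,0)]⟩),.k,(.r (-1)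
  ⟨1,[(6,0),(0,0),(22,0)]⟩ ⟨8,[(1,0),(1,7),(14,2),(18,6),(0,6),(9,5)]⟩),.k,⟨false,1,⟨1,[(7,0),(2,0),
  (19,0)]⟩,⟨2,[(1,0),(1,1),(33,0),(0,0)]⟩⟩,⟨true,0,⟨0,[(32,0),(2,0)]⟩,⟨0,[(27,0),(5,0)]⟩⟩,⟨false,1,
  ⟨3,[(30,0),(0,0),(18,1)]⟩,⟨0,[]⟩⟩,⟨false,0,⟨0,[(5,0),(42,0)]⟩,⟨1,[(10,0),(1,0),(14,0),(2,0),(2,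
  1)]⟩⟩,⟨true,0,⟨0,[(48,0)]⟩,⟨0,[(47,0)]⟩⟩,⟨false,0,⟨0,[(5,0),(42,1)]⟩,⟨29,[(2,13),(7,17),(1,3),(1,
  7),(4,5),(10,14),(2,15),(9,2)]⟩⟩,[.a ⟨true,0,⟨0,[(2,0),(29,0),(15,0)]⟩,⟨1,[(10,0),(21,0),(0,0)]⟩⟩
  ⟨false,1,⟨5,[(15,1),(14,2),(12,0)]⟩,⟨20,[(1,9),(1,7),(1,2),(7,0),(4,4),(14,2),(4,1)]⟩⟩ ⟨true,0,⟨0,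
  [(32,0),(2,0),(4,0)]⟩,⟨0,[(2,0),(7,0),(37,0)]⟩⟩,.o ⟨false,1,⟨0,[(34,0),(15,0)]⟩,⟨0,[(36,0)]⟩⟩,.o
  ⟨false,1,⟨2,[(15,0),(17,2),(9,1)]⟩,⟨0,[(27,0),(4,0),(2,0)]⟩⟩,.e ⟨false,1,⟨1,[(7,0),(11,0),(10,0),
  (15,0)]⟩,⟨7,[(1,3),(1,1),(1,1),(12,1),(14,1),(4,4),(0,2)]⟩⟩ ⟨false,1,⟨4,[(5,1),(1,0),(22,0),(1,2),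
  (4,0),(2,1),(2,0),(4,1),(1,1)]⟩,⟨0,[(2,0),(7,0),(37,0)]⟩⟩]⟩)))) (.Q [0,1,0,-1,0,0,0,0,0,-1,0,1]
  (.p true [0,0,0,1] [1] (⟨0,[(30,0)]⟩,⟨0,[(29,0)]⟩) .k 1 (⟨0,[]⟩,⟨0,[]⟩) .k .k) (.Q [0,0,0,0,0,-1,
  0,0,0,1,0,-1] (.p false [0,0,0,1] [1] (⟨0,[(31,0)]⟩,⟨0,[(30,0)]⟩) .k 1 (⟨0,[]⟩,⟨0,[]⟩) .k .k) (.R
  ⟨1,false,false,false,[1,0,0,-1],[0,1],[0,1,0,0,0,0,0,0,-1],(⟨0,[(31,0)]⟩,⟨0,[(32,0)]⟩),(⟨0,[(44,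
  0)]⟩,⟨0,[(43,0)]⟩),⟨0,[(0,0)]⟩,.k,.k,(.x (-1) ⟨11,[(7,3),(15,3),(5,4),(0,4),(11,1)]⟩ ⟨0,[(44,
  0)]⟩),(.x (-1) ⟨11,[(7,3),(15,3),(5,4),(0,4),(11,1)]⟩ ⟨0,[(44,0)]⟩),(.r (-1) ⟨13,[(2,7),(7,3),(0,
  1),(1,7),(0,0),(3,0),(1,7),(8,2)]⟩ ⟨2,[(3,2),(13,0),(14,2),(3,1),(0,1),(9,4),(3,0)]⟩),.k,⟨false,1,
  ⟨19,[(2,5),(7,4),(0,3),(2,8),(4,0),(1,8),(2,3),(4,6)]⟩,⟨0,[(3,0),(28,0),(14,0)]⟩⟩,⟨true,0,⟨0,[(31,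
  0)]⟩,⟨2,[(1,1),(30,0),(1,0),(2,0),(7,0),(1,1)]⟩⟩,⟨true,0,⟨0,[(51,0)]⟩,⟨0,[]⟩⟩,⟨false,0,⟨0,[(3,0),
  (27,0),(0,0),(14,0)]⟩,⟨19,[(1,14),(0,1),(8,9),(1,0),(4,4),(1,2),(8,8),(2,4),(12,6)]⟩⟩,⟨false,0,⟨0,
  [(47,0)]⟩,⟨23,[(5,3),(13,3),(0,3),(6,3),(1,4),(0,4),(18,13)]⟩⟩,⟨false,0,⟨0,[(3,0),(27,0),(0,0),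
  (14,1)]⟩,⟨39,[(1,34),(0,5),(8,9),(1,12),(4,4),(1,18),(8,16),(2,4),(12,10)]⟩⟩,[.o ⟨false,0,⟨0,[(47,
  0)]⟩,⟨15,[(12,3),(6,3),(9,2),(0,2),(11,5),(6,3)]⟩⟩,.e ⟨true,0,⟨1,[(2,1),(7,0),(34,0),(1,0)]⟩,⟨0,
  [(3,0),(28,0),(18,0)]⟩⟩ ⟨true,0,⟨3,[(31,3),(5,0),(0,0),(6,1),(1,3)]⟩,⟨0,[(1,0)]⟩⟩,.o ⟨false,1,⟨2,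
  [(14,0),(17,2),(9,1)]⟩,⟨0,[(26,0),(4,0),(2,0)]⟩⟩,.a ⟨true,0,⟨0,[(32,0)]⟩,⟨0,[(31,0)]⟩⟩ ⟨false,1,
  ⟨5,[(14,1),(14,2),(12,0)]⟩,⟨0,[(3,0),(28,0)]⟩⟩ ⟨true,0,⟨0,[(31,0),(15,0)]⟩,⟨0,[(1,0)]⟩⟩]⟩) (.R ⟨0,
  false,false,false,[1,0,0,-1],[0,1],[0,1,0,0,0,0,0,0,-1],(⟨0,[(31,0)]⟩,⟨0,[(32,0)]⟩),(⟨0,[(44,0)]⟩,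
  ⟨0,[(43,0)]⟩),⟨0,[(0,0)]⟩,.k,.k,(.x (-1) ⟨11,[(7,3),(15,3),(5,4),(0,4),(11,1)]⟩ ⟨0,[(44,0)]⟩),(.x
  (-1) ⟨11,[(7,3),(15,3),(5,4),(0,4),(11,1)]⟩ ⟨0,[(44,0)]⟩),.k,.k,⟨false,1,⟨19,[(2,5),(7,4),(0,3),
  (2,8),(4,0),(1,8),(2,3),(4,6)]⟩,⟨0,[(3,0),(28,0),(14,0)]⟩⟩,⟨true,0,⟨0,[(31,0)]⟩,⟨6,[(0,4),(6,1),
  (8,0),(15,1),(1,1),(2,3)]⟩⟩,⟨true,0,⟨0,[(51,0)]⟩,⟨0,[]⟩⟩,⟨false,0,⟨0,[(3,0),(27,0),(0,0),(14,0)]⟩,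
  ⟨19,[(1,14),(0,1),(8,9),(1,0),(4,4),(1,2),(8,8),(2,4),(12,6)]⟩⟩,⟨false,0,⟨0,[]⟩,⟨0,[]⟩⟩,⟨false,0,
  ⟨0,[]⟩,⟨0,[]⟩⟩,[.o ⟨false,0,⟨0,[(47,0)]⟩,⟨15,[(12,3),(6,3),(9,2),(0,2),(11,5),(6,3)]⟩⟩,.e ⟨true,0,
  ⟨1,[(2,1),(7,0),(34,0),(1,0)]⟩,⟨0,[(3,0),(28,0),(18,0)]⟩⟩ ⟨true,0,⟨3,[(31,3),(5,0),(0,0),(6,1),(1,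
  3)]⟩,⟨0,[(1,0)]⟩⟩,.o ⟨false,1,⟨2,[(14,0),(17,2),(9,1)]⟩,⟨0,[(26,0),(4,0),(2,0)]⟩⟩,.a ⟨true,0,⟨0,
  [(32,0)]⟩,⟨0,[(31,0)]⟩⟩ ⟨false,1,⟨5,[(14,1),(14,2),(12,0)]⟩,⟨0,[(3,0),(28,0)]⟩⟩ ⟨true,0,⟨0,[(31,
  0),(15,0)]⟩,⟨0,[(1,0)]⟩⟩]⟩)) (.R ⟨1,false,false,false,[1,0,0,-1],[0,1],[0,1,0,0,0,0,0,0,-1],(⟨0,
  [(30,0)]⟩,⟨0,[(31,0)]⟩),(⟨0,[(43,0)]⟩,⟨0,[(42,0)]⟩),⟨4,[(0,1),(5,1),(8,0),(1,0),(2,0),(2,0),(6,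
  2)]⟩,.k,.k,(.x (-1) ⟨11,[(6,3),(15,3),(5,4),(0,4),(11,1)]⟩ ⟨0,[(43,0)]⟩),(.x (-1) ⟨11,[(6,3),(15,
  3),(5,4),(0,4),(11,1)]⟩ ⟨0,[(43,0)]⟩),(.r (-1) ⟨13,[(1,7),(7,3),(0,1),(1,7),(0,0),(3,0),(1,7),(8,
  2)]⟩ ⟨2,[(2,2),(13,0),(14,2),(3,1),(0,1),(9,4),(3,0)]⟩),.k,⟨false,1,⟨19,[(1,5),(7,4),(0,3),(2,8),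
  (4,0),(1,8),(2,3),(4,6)]⟩,⟨0,[(2,0),(28,0),(14,0)]⟩⟩,⟨true,0,⟨0,[(30,0)]⟩,⟨0,[(25,0),(5,0),(1,
  0)]⟩⟩,⟨true,0,⟨0,[(50,0)]⟩,⟨0,[]⟩⟩,⟨false,0,⟨2,[(0,1),(1,2),(5,0),(22,1),(3,1),(10,0)]⟩,⟨14,[(1,
  8),(2,1),(4,1),(0,5),(6,0),(1,8),(8,2),(2,14),(9,5)]⟩⟩,⟨false,0,⟨0,[(46,0)]⟩,⟨23,[(4,3),(13,3),(0,
  3),(6,3),(1,4),(0,4),(18,13)]⟩⟩,⟨false,0,⟨2,[(0,1),(1,2),(5,0),(22,1),(3,1),(10,3)]⟩,⟨3,[(1,1),(8,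
  1),(0,1),(7,3),(8,0),(2,3),(9,0)]⟩⟩,[.o ⟨false,0,⟨0,[(46,0)]⟩,⟨15,[(11,3),(6,3),(9,2),(0,2),(11,
  5),(6,3)]⟩⟩,.a ⟨true,0,⟨0,[(0,0),(30,0)]⟩,⟨0,[(45,0)]⟩⟩ ⟨true,0,⟨1,[(1,1),(7,0),(34,0),(1,0)]⟩,⟨0,
  [(2,0),(28,0),(18,0)]⟩⟩ ⟨false,0,⟨0,[(0,0)]⟩,⟨47,[(13,15),(4,11),(1,23),(7,2),(0,2),(1,47),(3,11),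
  (5,25)]⟩⟩,.o ⟨false,1,⟨2,[(13,0),(17,2),(9,1)]⟩,⟨1,[(0,0),(0,0),(0,0),(20,0),(12,0)]⟩⟩,.e ⟨false,
  1,⟨5,[(13,1),(14,2),(12,0)]⟩,⟨0,[(2,0),(28,0)]⟩⟩ ⟨false,0,⟨0,[(0,0)]⟩,⟨15,[(11,3),(6,3),(9,2),(0,
  2),(1,15),(9,5),(6,3)]⟩⟩]⟩)))) (.Q [0,1,1,0,0,0,0,0,1,0,0,-1] (.p false [0,0,0,1] [] (⟨0,[(28,
  0)]⟩,⟨0,[(27,0)]⟩) .k 0 (⟨0,[]⟩,⟨0,[]⟩) .k .k) (.K ⟨0,[0,0,0,1],0,0,(⟨0,[(29,0)]⟩,⟨0,[(28,0)]⟩),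
  .k,(.r (-1) ⟨19,[(7,3),(2,7),(15,0),(0,10)]⟩ ⟨2,[(1,2),(26,2),(2,2),(1,0),(0,0),(1,1),(5,1)]⟩),
  (.x 0 ⟨0,[(41,0)]⟩ ⟨11,[(4,3),(15,3),(5,4),(0,4),(11,1)]⟩),.k,.k,[⟨0,[(29,0)]⟩,⟨0,[(28,0)]⟩,⟨3,
  [(1,3),(5,1),(5,0),(10,1),(13,1),(2,0),(0,0)]⟩,⟨0,[(0,0)]⟩]⟩) (.Q [0,0,0,-1,0,0,-1,-1,0,-1,1,1]
  (.p true [0,0,1] [1,0,0,-1] (⟨0,[(38,0)]⟩,⟨0,[(37,0)]⟩) .k 2 (⟨0,[(28,0)]⟩,⟨0,[(29,0)]⟩) .k (.r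
  (-1) ⟨187,[(3,7),(7,7),(2,39),(3,27),(0,39),(4,11),(1,18),(0,112)]⟩ ⟨0,[(0,0),(27,0),(1,0),(3,
  0)]⟩)) (.Q [0,0,0,0,0,-1,0,0,0,1,0,-1] (.p false [0,0,0,1] [1] (⟨0,[(30,0)]⟩,⟨0,[(29,0)]⟩) .k 1
  (⟨0,[]⟩,⟨0,[]⟩) .k .k) (.I [0,1,-1,0,0,0,0,1,-1] (.R ⟨1,false,false,false,[1,0,0,-1],[1,0,-1],[0,
  1,0,0,0,0,0,0,-1],(⟨0,[(31,0)]⟩,⟨0,[(32,0)]⟩),(⟨0,[(40,0)]⟩,⟨0,[(41,0)]⟩),⟨0,[(1,0)]⟩,.k,.k,(.x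
  (-1) ⟨11,[(7,3),(15,3),(5,4),(0,4),(11,1)]⟩ ⟨0,[(44,0)]⟩),.k,(.x 0 ⟨4,[(7,2),(7,0),(10,1),(10,
  0)]⟩ ⟨23,[(14,3),(1,11),(12,8),(0,8),(11,1),(1,35)]⟩),.k,⟨false,0,⟨0,[(0,0)]⟩,⟨1,[(30,0),(8,1),(9,
  0)]⟩⟩,⟨true,0,⟨0,[(31,0),(2,0)]⟩,⟨0,[(26,0),(5,0)]⟩⟩,⟨true,0,⟨0,[(51,0)]⟩,⟨0,[]⟩⟩,⟨false,1,⟨1,
  [(30,0),(0,1),(2,1),(4,1),(9,0)]⟩,⟨0,[(3,0),(31,0)]⟩⟩,⟨false,0,⟨0,[(47,0)]⟩,⟨23,[(5,3),(13,3),(0,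
  3),(6,3),(1,4),(0,4),(18,13)]⟩⟩,⟨false,1,⟨1,[(30,0),(0,1),(2,1),(4,1),(7,1),(1,0)]⟩,⟨0,[(3,0),(17,
  0)]⟩⟩,[.a ⟨true,0,⟨1,[(10,0),(5,0),(24,1),(2,0),(2,0)]⟩,⟨1,[(9,0),(21,0),(0,0)]⟩⟩ ⟨false,0,⟨0,[(0,
  0),(38,0)]⟩,⟨1,[(30,0),(18,0)]⟩⟩ ⟨true,0,⟨0,[(31,0),(2,0),(4,0)]⟩,⟨0,[(2,0),(6,0),(37,0)]⟩⟩,.o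
  ⟨false,1,⟨0,[(33,0),(15,0)]⟩,⟨0,[(35,0)]⟩⟩,.o ⟨false,1,⟨11,[(2,5),(1,5),(9,1),(15,2),(11,3),(6,
  2)]⟩,⟨0,[(26,0),(4,0),(2,0)]⟩⟩,.e ⟨false,0,⟨1,[(0,1),(9,0),(34,0),(1,0)]⟩,⟨1,[(30,0),(6,0),(0,0),
  (10,0)]⟩⟩ ⟨false,1,⟨0,[(31,0),(1,0),(15,0)]⟩,⟨0,[(2,0),(6,0),(37,0)]⟩⟩]⟩) (.I [0,0,-1,0,0,0,0,0,
  -1] (.Q [0,0,1,1,0,0,0,0,1,1,0,-1] (.p false [0,0,0,1] [1] (⟨0,[(33,0)]⟩,⟨0,[(32,0)]⟩) .k 1 (⟨0,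
  []⟩,⟨0,[]⟩) .k .k) (.R ⟨1,false,false,true,[1,0,0,-1],[0,1],[0,0,0,0,0,0,0,0,-1],(⟨0,[(33,0)]⟩,⟨0,
  [(34,0)]⟩),(⟨0,[(46,0)]⟩,⟨0,[(45,0)]⟩),⟨0,[(3,0)]⟩,.k,.k,(.x (-1) ⟨11,[(9,3),(15,3),(5,4),(0,4),
  (11,1)]⟩ ⟨0,[(46,0)]⟩),(.x (-1) ⟨11,[(9,3),(15,3),(5,4),(0,4),(11,1)]⟩ ⟨0,[(46,0)]⟩),(.r (-1) ⟨60,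
  [(1,17),(3,2),(1,2),(4,18),(2,40),(5,5),(0,2),(8,19),(1,2)]⟩ ⟨0,[(0,0),(1,0),(3,0),(29,0)]⟩),.k,
  ⟨false,1,⟨69,[(1,61),(10,13),(0,1),(1,27),(0,0),(3,0),(10,3),(19,34)]⟩,⟨0,[(0,0),(3,0),(32,0),(11,
  0)]⟩⟩,⟨true,0,⟨0,[(33,0)]⟩,⟨2,[(2,0),(1,1),(1,0),(12,0),(8,0),(7,0),(2,0)]⟩⟩,⟨false,1,⟨3,[(31,0),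
  (0,0),(18,1)]⟩,⟨0,[]⟩⟩,⟨false,0,⟨0,[(0,0)]⟩,⟨163,[(4,69),(0,91),(0,1),(0,19),(7,27),(4,13),(10,
  34),(12,63),(6,36)]⟩⟩,⟨true,0,⟨0,[(49,0)]⟩,⟨0,[(48,0)]⟩⟩,⟨false,0,⟨0,[(0,0),(48,0)]⟩,⟨16,[(4,7),
  (0,8),(1,4),(7,3),(5,1),(0,3),(8,3),(12,5),(6,2)]⟩⟩,[.o ⟨false,0,⟨1,[(0,0),(5,0),(28,0)]⟩,⟨20,[(7,
  2),(7,0),(5,5),(0,0),(21,8),(2,1),(3,10)]⟩⟩,.o ⟨false,0,⟨0,[(49,0)]⟩,⟨15,[(14,3),(6,3),(9,2),(0,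
  2),(11,5),(6,3)]⟩⟩,.o ⟨false,1,⟨11,[(4,5),(1,5),(9,1),(15,2),(11,3),(6,2)]⟩,⟨0,[(28,0),(4,0),(2,
  0)]⟩⟩,.a ⟨true,0,⟨0,[(34,0)]⟩,⟨0,[(33,0)]⟩⟩ ⟨true,0,⟨0,[(1,0)]⟩,⟨0,[(0,0),(3,0),(32,0)]⟩⟩ ⟨false,
  0,⟨0,[(33,0),(15,0)]⟩,⟨15,[(4,7),(2,3),(23,0),(0,0),(1,7),(9,5),(6,7)]⟩⟩]⟩) (.Q [0,0,1,2,0,0,0,0,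
  1,1,0,-1] (.p false [0,0,0,1] [1] (⟨0,[(34,0)]⟩,⟨0,[(33,0)]⟩) .k 1 (⟨0,[]⟩,⟨0,[]⟩) .k .k) (.R ⟨1,
  true,false,true,[1,0,0,-1],[0,1],[0,0,0,0,0,0,0,0,-1],(⟨0,[(34,0)]⟩,⟨0,[(35,0)]⟩),(⟨0,[(47,0)]⟩,
  ⟨0,[(46,0)]⟩),⟨0,[(4,0)]⟩,.k,.k,(.x (-1) ⟨11,[(10,3),(15,3),(5,4),(0,4),(11,1)]⟩ ⟨0,[(47,0)]⟩),
  (.x (-1) ⟨11,[(10,3),(15,3),(5,4),(0,4),(11,1)]⟩ ⟨0,[(47,0)]⟩),(.r (-1) ⟨60,[(2,17),(3,2),(1,2),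
  (4,18),(2,40),(5,5),(0,2),(8,19),(1,2)]⟩ ⟨2,[(0,1),(2,1),(3,0),(12,0),(14,0),(0,0),(0,0),(2,0)]⟩),
  .k,⟨false,1,⟨69,[(2,61),(10,13),(0,1),(1,27),(0,0),(3,0),(10,3),(19,34)]⟩,⟨0,[(0,0),(4,0),(32,
  0)]⟩⟩,⟨true,0,⟨0,[(34,0)]⟩,⟨2,[(3,0),(1,1),(1,0),(12,0),(8,0),(7,0),(2,0)]⟩⟩,⟨false,1,⟨3,[(32,0),
  (0,0),(18,1)]⟩,⟨0,[]⟩⟩,⟨true,0,⟨0,[(0,0),(48,0)]⟩,⟨0,[(1,0)]⟩⟩,⟨true,0,⟨0,[(50,0)]⟩,⟨0,[(49,0)]⟩⟩,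
  ⟨false,0,⟨0,[(0,0)]⟩,⟨117,[(1,67),(3,49),(2,27),(4,9),(2,19),(5,5),(9,24),(12,10),(6,61)]⟩⟩,[]⟩)
  (.R ⟨1,false,false,true,[1,0,0,-1],[0,1],[0,0,0,0,0,0,0,0,-1],(⟨0,[(34,0)]⟩,⟨0,[(35,0)]⟩),(⟨0,
  [(47,0)]⟩,⟨0,[(46,0)]⟩),⟨0,[(4,0)]⟩,.k,.k,(.x (-1) ⟨11,[(10,3),(15,3),(5,4),(0,4),(11,1)]⟩ ⟨0,
  [(47,0)]⟩),(.x (-1) ⟨11,[(10,3),(15,3),(5,4),(0,4),(11,1)]⟩ ⟨0,[(47,0)]⟩),(.r (-1) ⟨5,[(0,0),(1,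
  0),(10,1),(2,3),(15,1),(1,0)]⟩ ⟨2,[(3,2),(16,1),(18,0),(0,0),(9,3),(3,1)]⟩),.k,⟨false,1,⟨69,[(2,
  61),(10,13),(0,1),(1,27),(0,0),(3,0),(10,3),(19,34)]⟩,⟨0,[(3,0),(26,0),(7,0),(11,1)]⟩⟩,⟨true,0,⟨0,
  [(34,0)]⟩,⟨2,[(3,0),(1,1),(1,0),(12,0),(8,0),(7,0),(2,0)]⟩⟩,⟨false,1,⟨3,[(32,0),(0,0),(18,1)]⟩,⟨0,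
  []⟩⟩,⟨true,0,⟨0,[(3,0),(26,0),(3,0),(3,0),(11,1)]⟩,⟨0,[(1,0)]⟩⟩,⟨true,0,⟨0,[(50,0)]⟩,⟨0,[(49,
  0)]⟩⟩,⟨true,0,⟨0,[(3,0),(26,0),(3,0),(3,0),(11,2)]⟩,⟨0,[(0,0)]⟩⟩,[.o ⟨false,0,⟨0,[(50,0),(3,0)]⟩,
  ⟨20,[(8,2),(7,0),(5,5),(0,0),(21,8),(2,1),(3,10)]⟩⟩,.o ⟨false,0,⟨0,[(50,0)]⟩,⟨15,[(15,3),(6,3),(9,
  2),(0,2),(11,5),(6,3)]⟩⟩,.o ⟨false,1,⟨11,[(5,5),(1,5),(9,1),(15,2),(11,3),(6,2)]⟩,⟨0,[(29,0),(4,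
  0),(2,0)]⟩⟩,.a ⟨true,0,⟨0,[(35,0)]⟩,⟨0,[(34,0)]⟩⟩ ⟨true,0,⟨0,[(2,0)]⟩,⟨0,[(3,0),(26,0),(7,0),(11,
  0)]⟩⟩ ⟨false,0,⟨0,[(34,0),(15,0)]⟩,⟨15,[(5,7),(2,3),(23,0),(0,0),(1,7),(9,5),(6,7)]⟩⟩]⟩))) (.R ⟨1,
  false,false,true,[1,0,0,-1],[0,1],[0,1,0,0,0,0,0,0,-1],(⟨0,[(32,0)]⟩,⟨0,[(33,0)]⟩),(⟨0,[(45,0)]⟩,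
  ⟨0,[(44,0)]⟩),⟨0,[(2,0)]⟩,.k,.k,(.x (-1) ⟨11,[(8,3),(15,3),(5,4),(0,4),(11,1)]⟩ ⟨0,[(45,0)]⟩),(.x
  (-1) ⟨11,[(8,3),(15,3),(5,4),(0,4),(11,1)]⟩ ⟨0,[(45,0)]⟩),(.r (-1) ⟨5,[(4,1),(1,0),(4,1),(0,1),(0,
  0),(0,1),(5,0),(9,1),(1,1)]⟩ ⟨1,[(0,0),(0,0),(16,0),(18,0),(0,0),(9,2)]⟩),.k,⟨false,1,⟨11,[(4,2),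
  (0,0),(5,2),(0,4),(0,1),(0,2),(4,0),(10,3),(1,3)]⟩,⟨0,[(0,0),(47,0)]⟩⟩,⟨true,0,⟨0,[(32,0)]⟩,⟨2,
  [(1,0),(1,1),(1,0),(12,0),(8,0),(7,0),(2,0)]⟩⟩,⟨true,0,⟨0,[(52,0)]⟩,⟨0,[]⟩⟩,⟨false,0,⟨0,[(0,0),
  (31,0),(15,0)]⟩,⟨163,[(3,69),(0,91),(0,1),(0,19),(7,27),(4,13),(10,34),(12,63),(6,36)]⟩⟩,⟨false,0,
  ⟨0,[(48,0)]⟩,⟨23,[(6,3),(13,3),(0,3),(6,3),(1,4),(0,4),(18,13)]⟩⟩,⟨false,0,⟨0,[(0,0),(31,0),(15,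
  1)]⟩,⟨16,[(3,7),(0,8),(1,4),(7,3),(5,1),(0,3),(8,3),(12,5),(6,2)]⟩⟩,[.o ⟨false,0,⟨0,[(48,0),(3,
  0)]⟩,⟨20,[(6,2),(7,0),(5,5),(0,0),(21,8),(2,1),(3,10)]⟩⟩,.o ⟨false,0,⟨0,[(48,0)]⟩,⟨15,[(13,3),(6,
  3),(9,2),(0,2),(11,5),(6,3)]⟩⟩,.o ⟨false,1,⟨11,[(3,5),(1,5),(9,1),(15,2),(11,3),(6,2)]⟩,⟨0,[(27,
  0),(4,0),(2,0)]⟩⟩,.a ⟨true,0,⟨0,[(33,0)]⟩,⟨0,[(32,0)]⟩⟩ ⟨true,0,⟨0,[(4,0),(27,0),(1,0),(1,0)]⟩,⟨0,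
  [(0,0)]⟩⟩ ⟨false,0,⟨0,[(32,0),(15,0)]⟩,⟨15,[(3,7),(2,3),(23,0),(0,0),(1,7),(9,5),(6,7)]⟩⟩]⟩)))
  (.Q [0,1,1,0,0,0,-1,-1,1,0,1,-1] (.p true [0,0,1] [0,0,0,1] (⟨0,[(40,0)]⟩,⟨0,[(39,0)]⟩) .k 2 (⟨0,
  [(31,0)]⟩,⟨0,[(30,0)]⟩) .k (.r 0 ⟨0,[(2,0),(27,0),(2,0),(0,0)]⟩ ⟨3,[(28,0),(0,2),(8,3)]⟩)) (.R ⟨0,
  false,false,true,[1,0,0,-1],[1,0,-1],[1,1],(⟨0,[(31,0)]⟩,⟨0,[(32,0)]⟩),(⟨0,[(40,0)]⟩,⟨0,[(41,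
  0)]⟩),⟨0,[(1,0)]⟩,.k,.k,(.x (-1) ⟨11,[(7,3),(15,3),(5,4),(0,4),(11,1)]⟩ ⟨0,[(44,0)]⟩),.k,.k,.k,
  ⟨false,1,⟨14,[(6,1),(4,0),(2,2),(7,4),(6,1),(0,1),(4,4)]⟩,⟨0,[(39,0)]⟩⟩,⟨true,0,⟨0,[(31,0),(2,
  0)]⟩,⟨0,[(26,0),(5,0)]⟩⟩,⟨false,1,⟨3,[(29,0),(0,2)]⟩,⟨0,[(3,0),(22,0),(4,0),(2,0)]⟩⟩,⟨true,0,⟨0,
  [(0,0)]⟩,⟨0,[(3,0),(31,0)]⟩⟩,⟨false,0,⟨0,[]⟩,⟨0,[]⟩⟩,⟨false,0,⟨0,[]⟩,⟨0,[]⟩⟩,[.o ⟨false,0,⟨0,[(33,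
  0)]⟩,⟨7,[(9,3),(19,0),(0,0),(11,1),(6,3)]⟩⟩,.e ⟨true,0,⟨0,[]⟩,⟨1,[(37,0),(0,0)]⟩⟩ ⟨true,0,⟨0,[(31,
  0),(2,0),(4,0)]⟩,⟨7,[(1,4),(5,1),(1,3),(6,0),(1,0),(13,2)]⟩⟩,.o ⟨false,1,⟨11,[(2,5),(1,5),(9,1),
  (15,2),(11,3),(6,2)]⟩,⟨0,[(26,0),(4,0),(2,0)]⟩⟩,.a ⟨true,0,⟨0,[(32,0)]⟩,⟨0,[(31,0)]⟩⟩ ⟨false,1,
  ⟨11,[(14,3),(14,2),(0,2),(11,1)]⟩,⟨3,[(37,0),(0,0),(6,1)]⟩⟩ ⟨true,0,⟨0,[(31,0),(1,0)]⟩,⟨7,[(1,4),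
  (5,1),(1,3),(6,0),(1,0),(13,2)]⟩⟩]⟩) (.Q [0,1,1,1,0,0,0,0,1,1,0,-1] (.p false [0,0,0,1] [1] (⟨0,
  [(32,0)]⟩,⟨0,[(31,0)]⟩) .k 1 (⟨0,[]⟩,⟨0,[]⟩) .k .k) (.R ⟨0,false,false,true,[1,0,0,-1],[0,1],[1,0,
  1],(⟨0,[(32,0)]⟩,⟨0,[(33,0)]⟩),(⟨0,[(45,0)]⟩,⟨0,[(44,0)]⟩),⟨0,[(2,0)]⟩,.k,.k,(.x (-1) ⟨11,[(8,3),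
  (15,3),(5,4),(0,4),(11,1)]⟩ ⟨0,[(45,0)]⟩),(.x (-1) ⟨11,[(8,3),(15,3),(5,4),(0,4),(11,1)]⟩ ⟨0,[(45,
  0)]⟩),.k,.k,⟨false,1,⟨19,[(11,3),(2,7),(15,0),(0,0),(18,9)]⟩,⟨2,[(0,0),(4,0),(28,0),(13,0)]⟩⟩,
  ⟨true,0,⟨0,[(32,0)]⟩,⟨6,[(2,4),(5,1),(8,0),(15,1),(1,1),(2,3)]⟩⟩,⟨false,1,⟨1,[(31,0),(6,0),(0,0),
  (10,0)]⟩,⟨0,[(1,0),(30,0),(1,0)]⟩⟩,⟨true,0,⟨0,[(0,0)]⟩,⟨0,[(1,0),(23,0)]⟩⟩,⟨false,0,⟨0,[]⟩,⟨0,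
  []⟩⟩,⟨false,0,⟨0,[]⟩,⟨0,[]⟩⟩,[.o ⟨false,0,⟨2,[(0,0),(4,0),(28,0),(13,0)]⟩,⟨20,[(6,2),(7,0),(5,5),
  (0,0),(21,8),(2,1),(3,10)]⟩⟩,.o ⟨false,0,⟨0,[(48,0)]⟩,⟨15,[(13,3),(6,3),(9,2),(0,2),(11,5),(6,
  3)]⟩⟩,.o ⟨false,1,⟨11,[(3,5),(1,5),(9,1),(15,2),(11,3),(6,2)]⟩,⟨0,[(27,0),(4,0),(2,0)]⟩⟩,.a ⟨true,
  0,⟨0,[(33,0)]⟩,⟨0,[(32,0)]⟩⟩ ⟨true,0,⟨0,[]⟩,⟨0,[(52,0)]⟩⟩ ⟨false,0,⟨0,[(32,0),(15,0)]⟩,⟨15,[(3,7),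
  (2,3),(23,0),(0,0),(1,7),(9,5),(6,7)]⟩⟩]⟩) (.R ⟨0,false,false,false,[1,0,0,-1],[1,0,-1],[0,1,0,0,
  0,0,0,0,-1],(⟨0,[(32,0)]⟩,⟨0,[(33,0)]⟩),(⟨0,[(41,0)]⟩,⟨0,[(42,0)]⟩),⟨0,[(2,0)]⟩,.k,.k,(.x (-1)
  ⟨11,[(8,3),(15,3),(5,4),(0,4),(11,1)]⟩ ⟨0,[(45,0)]⟩),.k,.k,.k,⟨false,0,⟨0,[(0,0),(27,0),(3,0),(3,
  0),(11,1)]⟩,⟨1,[(31,0),(8,1),(9,0)]⟩⟩,⟨true,0,⟨0,[(32,0),(2,0)]⟩,⟨0,[(27,0),(5,0)]⟩⟩,⟨true,0,⟨0,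
  [(52,0)]⟩,⟨0,[]⟩⟩,⟨false,1,⟨1,[(31,0),(0,1),(2,1),(4,1),(9,0)]⟩,⟨5,[(0,0),(0,0),(2,0),(0,2),(0,
  0)]⟩⟩,⟨false,0,⟨0,[]⟩,⟨0,[]⟩⟩,⟨false,0,⟨0,[]⟩,⟨0,[]⟩⟩,[.a ⟨true,0,⟨1,[(11,0),(5,0),(24,1),(2,0),
  (2,0)]⟩,⟨1,[(10,0),(21,0),(0,0)]⟩⟩ ⟨false,0,⟨2,[(0,0),(4,1),(19,0),(6,2),(1,0)]⟩,⟨1,[(31,0),(18,
  0)]⟩⟩ ⟨true,0,⟨0,[(32,0),(2,0),(4,0)]⟩,⟨7,[(2,4),(5,1),(1,3),(6,0),(1,0),(13,2)]⟩⟩,.o ⟨false,1,⟨0,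
  [(34,0),(15,0)]⟩,⟨0,[(36,0)]⟩⟩,.o ⟨false,1,⟨11,[(3,5),(1,5),(9,1),(15,2),(11,3),(6,2)]⟩,⟨0,[(27,
  0),(4,0),(2,0)]⟩⟩,.e ⟨false,0,⟨2,[(0,1),(4,0),(26,2),(1,0),(13,0)]⟩,⟨1,[(31,0),(6,0),(0,0),(10,
  0)]⟩⟩ ⟨false,1,⟨0,[(32,0),(1,0),(15,0)]⟩,⟨7,[(2,4),(5,1),(1,3),(6,0),(1,0),(13,2)]⟩⟩]⟩)))) (.I [0,
  1,-1,-1,0,0,0,1,-1] (.R ⟨1,false,false,false,[1,0,0,-1],[0,1,1],[0,1,0,0,0,0,0,0,-1],(⟨0,[(30,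
  0)]⟩,⟨0,[(31,0)]⟩),(⟨0,[(40,0),(2,0)]⟩,⟨0,[(22,0)]⟩),⟨4,[(1,2),(4,1),(2,0),(5,0),(3,0),(6,0),(3,
  1)]⟩,.k,.k,(.x (-1) ⟨11,[(6,3),(15,3),(5,4),(0,4),(11,1)]⟩ ⟨0,[(43,0)]⟩),(.r 0 ⟨4,[(0,3),(0,0),(0,
  0),(6,1),(22,0),(5,4),(5,1)]⟩ ⟨3,[(16,1),(11,0),(0,2),(6,0),(0,0),(8,1)]⟩),(.x 0 ⟨4,[(6,2),(8,3),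
  (9,1),(10,0)]⟩ ⟨23,[(13,3),(0,11),(13,8),(0,8),(11,1),(1,35)]⟩),.k,⟨false,0,⟨0,[(0,0),(8,0),(36,
  0)]⟩,⟨3,[(16,1),(12,1),(6,0),(0,0),(8,1),(1,1)]⟩⟩,⟨true,0,⟨0,[(25,0),(4,0)]⟩,⟨0,[(31,0),(1,0)]⟩⟩,
  ⟨true,0,⟨0,[(50,0)]⟩,⟨0,[]⟩⟩,⟨false,1,⟨1,[(1,1),(27,0),(6,0),(0,0),(10,0)]⟩,⟨0,[(2,0),(20,0)]⟩⟩,
  ⟨false,0,⟨0,[(46,0)]⟩,⟨23,[(4,3),(13,3),(0,3),(6,3),(1,4),(0,4),(18,13)]⟩⟩,⟨false,1,⟨1,[(1,1),(27,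
  0),(6,0),(0,0),(8,1),(1,0)]⟩,⟨0,[(2,0),(15,0)]⟩⟩,[.e ⟨false,0,⟨3,[(0,1),(0,0),(0,0),(0,0),(26,0),
  (1,1),(5,1)]⟩,⟨1,[(29,0),(18,0)]⟩⟩ ⟨false,0,⟨0,[(1,0)]⟩,⟨5,[(5,1),(3,1),(8,1),(9,0),(0,0),(1,5),
  (9,0),(6,0)]⟩⟩,.o ⟨false,1,⟨7,[(1,1),(1,1),(12,1),(10,1),(1,0),(11,1),(4,1),(1,4)]⟩,⟨0,[(23,0)]⟩⟩,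
  .o ⟨false,1,⟨2,[(13,0),(17,2),(9,1)]⟩,⟨8,[(1,5),(7,1),(8,1),(11,2),(2,6),(2,2),(7,0)]⟩⟩,.a ⟨true,
  0,⟨0,[(31,0)]⟩,⟨0,[(30,0)]⟩⟩ ⟨false,0,⟨4,[(0,1),(0,2),(0,2),(6,0),(22,2),(11,0)]⟩,⟨1,[(29,0),(6,
  0),(0,0),(10,0)]⟩⟩ ⟨true,0,⟨0,[(1,0)]⟩,⟨0,[(23,0),(7,0)]⟩⟩]⟩) (.R ⟨1,false,false,true,[1,0,0,-1],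
  [0,1],[0,0,0,0,0,0,0,0,-1],(⟨0,[(30,0)]⟩,⟨0,[(31,0)]⟩),(⟨0,[(43,0)]⟩,⟨0,[(42,0)]⟩),⟨4,[(1,2),(4,
  1),(2,0),(5,0),(3,0),(6,0),(3,1)]⟩,.k,.k,(.x (-1) ⟨11,[(6,3),(15,3),(5,4),(0,4),(11,1)]⟩ ⟨0,[(43,
  0)]⟩),(.x (-1) ⟨11,[(6,3),(15,3),(5,4),(0,4),(11,1)]⟩ ⟨0,[(43,0)]⟩),(.r (-1) ⟨2,[(1,0),(0,0),(6,
  0),(2,1),(5,0),(9,0)]⟩ ⟨9,[(0,10),(0,0),(1,0),(12,6),(15,0),(2,3),(0,2),(13,4)]⟩),.k,⟨false,1,⟨14,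
  [(1,6),(0,6),(6,0),(0,5),(1,4),(5,0),(0,8),(8,3)]⟩,⟨0,[(0,0),(25,0),(7,0),(11,0)]⟩⟩,⟨true,0,⟨0,
  [(30,0)]⟩,⟨0,[(25,0),(5,0),(1,0)]⟩⟩,⟨false,1,⟨3,[(28,0),(0,0),(18,1)]⟩,⟨0,[]⟩⟩,⟨false,0,⟨0,[(0,0),
  (0,0),(24,0)]⟩,⟨157,[(2,107),(1,17),(4,9),(2,19),(5,35),(9,24),(2,49),(9,69),(6,42)]⟩⟩,⟨true,0,⟨0,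
  [(46,0)]⟩,⟨0,[(45,0)]⟩⟩,⟨false,0,⟨0,[(0,0),(0,0),(24,0),(19,0)]⟩,⟨78,[(2,58),(1,22),(4,3),(2,7),
  (5,45),(9,9),(2,19),(9,27),(6,32)]⟩⟩,[.o ⟨false,0,⟨0,[(46,0),(3,0)]⟩,⟨20,[(4,2),(7,0),(5,5),(0,0),
  (21,8),(2,1),(3,10)]⟩⟩,.o ⟨false,0,⟨0,[(46,0)]⟩,⟨15,[(11,3),(6,3),(9,2),(0,2),(11,5),(6,3)]⟩⟩,.o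
  ⟨false,1,⟨2,[(13,0),(17,2),(9,1)]⟩,⟨8,[(1,5),(7,1),(8,1),(11,2),(2,6),(2,2),(7,0)]⟩⟩,.a ⟨true,0,
  ⟨0,[(31,0)]⟩,⟨0,[(30,0)]⟩⟩ ⟨true,0,⟨0,[(1,0),(0,0),(20,0)]⟩,⟨0,[(0,0),(25,0),(7,0)]⟩⟩ ⟨false,0,⟨0,
  [(30,0),(15,0)]⟩,⟨20,[(4,2),(7,0),(5,5),(0,0),(11,20),(9,8),(2,1),(3,10)]⟩⟩]⟩))))))) (.R ⟨0,false,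
  false,true,[0,-1,1],[1,-1,-1],[1,1],(⟨0,[(18,0)]⟩,⟨1,[(0,0),(23,0),(0,0),(7,0)]⟩),(⟨0,[(16,0)]⟩,
  ⟨1,[(0,0),(33,2)]⟩),⟨0,[(0,0)]⟩,.k,.k,(.r (-1) ⟨2,[(1,2),(1,0),(0,2),(4,0),(3,0),(4,1),(1,0),(16,
  2)]⟩ ⟨3,[(29,3),(0,4),(0,0),(6,1),(1,7)]⟩),.k,.k,.k,⟨true,0,⟨3,[(10,1),(19,0),(0,0),(8,1)]⟩,⟨3,
  [(12,0),(0,1),(7,0),(7,0)]⟩⟩,⟨false,1,⟨0,[(4,0),(26,0)]⟩,⟨0,[(21,0)]⟩⟩,⟨false,0,⟨2,[(29,1),(0,1),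
  (1,0),(5,0),(1,2)]⟩,⟨35,[(2,0),(1,1),(1,17),(0,0),(7,7),(22,6),(3,6)]⟩⟩,⟨true,0,⟨3,[(0,0),(2,1),
  (5,1),(16,3),(7,4),(5,1)]⟩,⟨0,[(2,0)]⟩⟩,⟨false,0,⟨0,[]⟩,⟨0,[]⟩⟩,⟨false,0,⟨0,[]⟩,⟨0,[]⟩⟩,[.o
  ⟨false,0,⟨0,[(17,0)]⟩,⟨7,[(2,3),(19,0),(0,0),(11,1),(4,7),(1,3)]⟩⟩,.a ⟨true,0,⟨7,[(0,0),(2,3),(5,
  1),(10,3),(13,4),(3,1)]⟩,⟨3,[(2,0),(5,0),(1,0),(22,1),(2,0),(3,2)]⟩⟩ ⟨true,0,⟨0,[]⟩,⟨1,[(30,0),(0,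
  0)]⟩⟩ ⟨false,1,⟨7,[(0,0),(2,3),(0,7),(4,1),(10,3),(13,4),(3,1)]⟩,⟨3,[(10,1),(10,3),(8,0),(0,0),(8,
  1)]⟩⟩,.o ⟨false,0,⟨0,[(30,0)]⟩,⟨5,[(4,3),(17,0),(0,0),(3,1)]⟩⟩,.o ⟨false,0,⟨1,[(30,2),(0,0)]⟩,⟨0,
  [(4,0)]⟩⟩]⟩)))

theorem ok33 : chk (cU (-1) true 10) t33 l27 = true := by decide +kernel

noncomputable def t46 : Tre :=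
  (.R ⟨0,false,false,false,[0,-1,1],[1,-1,-1],[1],(⟨0,[(15,0)]⟩,⟨1,[(0,0),(20,0),(0,0),(7,0)]⟩),(⟨0,
  [(13,0)]⟩,⟨0,[(31,0),(2,0)]⟩),⟨0,[(0,0)]⟩,.k,.k,(.r (-1) ⟨0,[(7,0)]⟩ ⟨3,[(26,3),(0,4),(0,0),(6,1),
  (1,7)]⟩),.k,.k,.k,⟨true,0,⟨1,[(5,0),(19,0),(2,0),(8,1)]⟩,⟨3,[(9,0),(0,1),(7,0),(7,0)]⟩⟩,⟨false,1,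
  ⟨0,[(6,0),(21,0)]⟩,⟨0,[(18,0)]⟩⟩,⟨false,0,⟨2,[(26,0),(0,0),(1,1),(5,1),(1,2)]⟩,⟨7,[(7,3),(4,1),(6,
  0),(0,0),(20,1)]⟩⟩,⟨true,0,⟨0,[(4,0)]⟩,⟨0,[(2,0),(22,0)]⟩⟩,⟨false,0,⟨0,[]⟩,⟨0,[]⟩⟩,⟨false,0,⟨0,
  []⟩,⟨0,[]⟩⟩,[.a ⟨true,0,⟨2,[(3,0),(6,0),(6,0),(3,0),(0,0)]⟩,⟨0,[(2,0),(34,0)]⟩⟩ ⟨true,0,⟨0,[]⟩,⟨1,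
  [(27,0),(0,0)]⟩⟩ ⟨false,1,⟨3,[(4,2),(1,1),(0,1),(13,0),(0,0)]⟩,⟨0,[(2,0),(24,0),(9,0)]⟩⟩,.o
  ⟨false,1,⟨11,[(3,3),(5,3),(9,0),(0,0),(11,1),(6,7)]⟩,⟨0,[(25,0),(11,0)]⟩⟩,.o ⟨false,0,⟨0,[(27,
  0)]⟩,⟨19,[(6,11),(1,3),(10,2),(0,2),(11,1)]⟩⟩,.o ⟨false,0,⟨1,[(27,2),(0,0)]⟩,⟨0,[(6,0)]⟩⟩]⟩)

theorem ok46 : chk (cU (-1) true 10) t46 l35 = true := by decide +kernel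

noncomputable def t47 : Tre :=
  (.I [0,0,-1,-1,0,0,0,-2] (.R ⟨0,false,false,true,[1,-1,-1],[0,0,1],[1,1],(⟨0,[(15,0)]⟩,⟨0,[(33,0),
  (2,0)]⟩),(⟨0,[(33,0)]⟩,⟨0,[(32,0)]⟩),⟨0,[(1,0)]⟩,.k,.k,(.r (-1) ⟨4,[(0,3),(8,2),(11,0),(0,0)]⟩ ⟨1,
  [(7,0),(19,0),(1,0),(0,1),(8,3)]⟩),(.r 0 ⟨0,[(0,0)]⟩ ⟨5,[(14,3),(6,0),(0,0),(4,3),(1,0),(0,4),(8,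
  5)]⟩),.k,.k,⟨true,0,⟨0,[(31,0)]⟩,⟨1,[(7,0),(19,0),(2,0)]⟩⟩,⟨false,1,⟨0,[(20,0),(19,0)]⟩,⟨0,[(10,
  0)]⟩⟩,⟨false,0,⟨1,[(7,0),(19,0),(2,0),(8,1)]⟩,⟨19,[(0,11),(8,3),(11,2),(0,2),(18,9)]⟩⟩,⟨true,0,⟨0,
  [(4,0),(22,0),(11,0)]⟩,⟨0,[(5,0)]⟩⟩,⟨false,0,⟨0,[]⟩,⟨0,[]⟩⟩,⟨false,0,⟨0,[]⟩,⟨0,[]⟩⟩,[.o ⟨false,0,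
  ⟨0,[(27,0)]⟩,⟨7,[(6,3),(14,0),(0,0),(11,1),(6,3)]⟩⟩,.a ⟨true,0,⟨0,[(4,0)]⟩,⟨1,[(6,0),(16,0),(0,
  0)]⟩⟩ ⟨true,0,⟨0,[]⟩,⟨1,[(29,0),(0,0)]⟩⟩ ⟨false,1,⟨0,[(4,0),(3,0),(11,0)]⟩,⟨1,[(6,0),(19,0),(3,
  0)]⟩⟩,.o ⟨false,0,⟨0,[(26,0)]⟩,⟨7,[(20,3),(0,0),(0,0),(11,1),(5,3)]⟩⟩,.o ⟨false,0,⟨1,[(26,1),(2,
  0),(0,0)]⟩,⟨0,[(8,0),(11,0)]⟩⟩]⟩) (.Q [0,0,0,-1,0,0,1,1,0,1,-1] (.p false [0,0,1] [1] (⟨0,[(33,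
  0)]⟩,⟨0,[(32,0)]⟩) .k 1 (⟨0,[]⟩,⟨0,[]⟩) .k .k) (.R ⟨0,false,false,true,[1,-1,-1],[0,-1,1],[1,1],
  (⟨0,[(16,0)]⟩,⟨0,[(34,0),(2,0)]⟩),(⟨0,[(18,0)]⟩,⟨0,[(33,0),(3,0)]⟩),⟨0,[(2,0)]⟩,.k,.k,(.r (-1) ⟨2,
  [(10,0),(1,0),(0,1),(7,0),(7,0),(11,1)]⟩ ⟨3,[(1,1),(28,2),(0,2),(8,5)]⟩),.k,.k,.k,⟨false,0,⟨0,
  [(32,0),(7,0)]⟩,⟨4,[(1,0),(8,2),(11,0),(0,0)]⟩⟩,⟨true,0,⟨0,[(21,0)]⟩,⟨0,[(11,0)]⟩⟩,⟨false,0,⟨3,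
  [(1,1),(28,0),(0,0),(8,1)]⟩,⟨3,[(13,3),(8,0),(0,0),(17,1)]⟩⟩,⟨true,0,⟨0,[(5,0),(22,0)]⟩,⟨0,[(7,
  0)]⟩⟩,⟨false,0,⟨0,[]⟩,⟨0,[]⟩⟩,⟨false,0,⟨0,[]⟩,⟨0,[]⟩⟩,[.o ⟨false,0,⟨0,[(14,0)]⟩,⟨7,[(7,3),(14,0),
  (0,0),(11,1),(4,7),(1,3)]⟩⟩,.a ⟨true,0,⟨0,[(0,0)]⟩,⟨1,[(7,0),(16,0),(0,0),(14,1)]⟩⟩ ⟨true,0,⟨0,
  []⟩,⟨1,[(30,0),(0,0)]⟩⟩ ⟨false,1,⟨1,[(5,0),(3,0),(0,0),(10,1)]⟩,⟨1,[(7,0),(19,0),(3,0),(8,1)]⟩⟩,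
  .o ⟨false,0,⟨0,[(27,0)]⟩,⟨7,[(21,3),(0,0),(0,0),(11,1),(5,3)]⟩⟩,.o ⟨false,0,⟨1,[(27,1),(2,0),(0,
  0)]⟩,⟨0,[(9,0),(11,0)]⟩⟩]⟩) (.I [0,0,1,0,0,-1,-2] (.R ⟨0,false,false,true,[1,-1,-1],[0,0,1],[1,1],
  (⟨0,[(17,0)]⟩,⟨0,[(35,0),(2,0)]⟩),(⟨0,[(35,0)]⟩,⟨0,[(34,0)]⟩),⟨0,[(3,0)]⟩,.k,.k,(.r (-1) ⟨2,[(11,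
  0),(1,0),(0,1),(7,0),(7,0),(11,1)]⟩ ⟨3,[(2,1),(28,2),(0,2),(8,5)]⟩),(.x 0 ⟨0,[(0,0)]⟩ ⟨7,[(3,3),
  (18,7),(0,0),(0,0),(10,11),(0,1),(5,3)]⟩),.k,.k,⟨true,0,⟨0,[(33,0)]⟩,⟨5,[(2,1),(2,0),(3,0),(21,0),
  (0,1)]⟩⟩,⟨false,1,⟨0,[(22,0),(19,0)]⟩,⟨0,[(12,0)]⟩⟩,⟨false,0,⟨3,[(2,1),(28,0),(0,0),(8,1)]⟩,⟨3,
  [(14,3),(8,0),(0,0),(17,1)]⟩⟩,⟨true,0,⟨0,[(6,0),(22,0),(11,0)]⟩,⟨0,[(7,0)]⟩⟩,⟨false,0,⟨0,[]⟩,⟨0,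
  []⟩⟩,⟨false,0,⟨0,[]⟩,⟨0,[]⟩⟩,[.o ⟨false,0,⟨0,[(29,0)]⟩,⟨7,[(8,3),(14,0),(0,0),(11,1),(6,3)]⟩⟩,.a
  ⟨true,0,⟨0,[(6,0)]⟩,⟨1,[(8,0),(16,0),(0,0)]⟩⟩ ⟨true,0,⟨0,[]⟩,⟨1,[(31,0),(0,0)]⟩⟩ ⟨false,1,⟨0,[(6,
  0),(3,0),(11,0)]⟩,⟨1,[(8,0),(19,0),(3,0)]⟩⟩,.o ⟨false,0,⟨0,[(28,0)]⟩,⟨7,[(22,3),(0,0),(0,0),(11,
  1),(5,3)]⟩⟩,.o ⟨false,0,⟨1,[(28,1),(2,0),(0,0)]⟩,⟨0,[(10,0),(11,0)]⟩⟩]⟩) (.I [0,0,-1,0,0,1,2] (.R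
  ⟨0,false,false,true,[1,-1,-1],[0,0,1],[1,1],(⟨0,[(18,0)]⟩,⟨0,[(36,0),(2,0)]⟩),(⟨0,[(36,0)]⟩,⟨0,
  [(35,0)]⟩),⟨0,[(4,0)]⟩,.k,.k,(.r (-1) ⟨2,[(12,0),(1,0),(0,1),(7,0),(7,0),(11,1)]⟩ ⟨3,[(3,1),(28,
  2),(0,2),(8,5)]⟩),(.x (-1) ⟨3,[(13,3),(4,3),(5,0),(0,0),(9,3),(1,1)]⟩ ⟨0,[(0,0)]⟩),.k,.k,⟨true,0,
  ⟨0,[(34,0)]⟩,⟨5,[(3,1),(2,0),(3,0),(21,0),(0,1)]⟩⟩,⟨false,1,⟨0,[(23,0),(19,0)]⟩,⟨0,[(13,0)]⟩⟩,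
  ⟨false,0,⟨3,[(3,1),(28,0),(0,0),(8,1)]⟩,⟨3,[(15,3),(8,0),(0,0),(17,1)]⟩⟩,⟨true,0,⟨0,[(7,0),(22,0),
  (11,0)]⟩,⟨0,[(8,0)]⟩⟩,⟨false,0,⟨0,[]⟩,⟨0,[]⟩⟩,⟨false,0,⟨0,[]⟩,⟨0,[]⟩⟩,[.o ⟨false,0,⟨0,[(30,0)]⟩,
  ⟨7,[(9,3),(14,0),(0,0),(11,1),(6,3)]⟩⟩,.a ⟨true,0,⟨0,[(7,0)]⟩,⟨1,[(9,0),(16,0),(0,0)]⟩⟩ ⟨true,0,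
  ⟨0,[]⟩,⟨1,[(32,0),(0,0)]⟩⟩ ⟨false,1,⟨0,[(7,0),(3,0),(11,0)]⟩,⟨1,[(9,0),(19,0),(3,0)]⟩⟩,.o ⟨false,
  0,⟨0,[(29,0)]⟩,⟨7,[(23,3),(0,0),(0,0),(11,1),(5,3)]⟩⟩,.o ⟨false,0,⟨1,[(29,1),(2,0),(0,0)]⟩,⟨0,
  [(11,0),(11,0)]⟩⟩]⟩) (.I [0,0,1,1,0,0,0,2] (.R ⟨0,false,false,true,[1,-1,-1],[0,0,1],[1,1],(⟨0,
  [(19,0)]⟩,⟨0,[(37,0),(2,0)]⟩),(⟨0,[(37,0)]⟩,⟨0,[(36,0)]⟩),⟨0,[(5,0)]⟩,.k,.k,(.r (-1) ⟨2,[(13,0),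
  (1,0),(0,1),(7,0),(7,0),(11,1)]⟩ ⟨3,[(0,1),(32,2),(0,2),(8,5)]⟩),(.r (-1) ⟨3,[(9,3),(14,3),(0,0),
  (0,0),(17,1)]⟩ ⟨0,[(0,0)]⟩),.k,.k,⟨true,0,⟨0,[(35,0)]⟩,⟨5,[(0,1),(6,0),(3,0),(21,0),(0,1)]⟩⟩,
  ⟨false,1,⟨0,[(24,0),(19,0)]⟩,⟨0,[(14,0)]⟩⟩,⟨false,0,⟨3,[(0,1),(32,0),(0,0),(8,1)]⟩,⟨3,[(16,3),(8,
  0),(0,0),(17,1)]⟩⟩,⟨true,0,⟨0,[(8,0),(22,0),(11,0)]⟩,⟨0,[(9,0)]⟩⟩,⟨false,0,⟨0,[]⟩,⟨0,[]⟩⟩,⟨false,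
  0,⟨0,[]⟩,⟨0,[]⟩⟩,[.o ⟨false,0,⟨0,[(31,0)]⟩,⟨7,[(10,3),(14,0),(0,0),(11,1),(6,3)]⟩⟩,.a ⟨true,0,⟨0,
  [(8,0)]⟩,⟨1,[(10,0),(16,0),(0,0)]⟩⟩ ⟨true,0,⟨0,[]⟩,⟨1,[(33,0),(0,0)]⟩⟩ ⟨false,1,⟨0,[(8,0),(3,0),
  (11,0)]⟩,⟨1,[(10,0),(19,0),(3,0)]⟩⟩,.o ⟨false,0,⟨0,[(30,0)]⟩,⟨7,[(24,3),(0,0),(0,0),(11,1),(5,
  3)]⟩⟩,.o ⟨false,0,⟨1,[(30,1),(2,0),(0,0)]⟩,⟨0,[(12,0),(11,0)]⟩⟩]⟩) (.I [0,0,0,0,0,0,0,0,-1] (.Q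
  [0,0,-1,-2,0,0,1,1,-1,0,-1,1] (.p false [0,0,1] [0,0,0,1] (⟨0,[(38,0)]⟩,⟨0,[(37,0)]⟩) .k 2 (⟨0,
  [(29,0)]⟩,⟨0,[(28,0)]⟩) .k (.x (-1) ⟨39,[(3,15),(3,7),(17,3),(0,12),(0,12),(11,1),(5,11)]⟩ ⟨3,[(2,
  1),(31,0),(0,0),(5,1)]⟩)) (.Q [0,0,0,0,0,-1,0,0,0,1,0,-1] (.p false [0,0,0,1] [1] (⟨0,[(30,0)]⟩,
  ⟨0,[(29,0)]⟩) .k 1 (⟨0,[]⟩,⟨0,[]⟩) .k .k) (.I [0,1,-1,0,0,0,0,1,-1] (.R ⟨1,false,false,false,[1,0,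
  0,-1],[1,0,-1],[0,1,0,0,0,0,0,0,-1],(⟨0,[(31,0)]⟩,⟨0,[(32,0)]⟩),(⟨0,[(40,0)]⟩,⟨0,[(41,0)]⟩),⟨0,
  [(1,0)]⟩,.k,.k,(.x (-1) ⟨11,[(10,3),(12,3),(5,4),(0,4),(11,1)]⟩ ⟨0,[(44,0)]⟩),.k,(.x 0 ⟨4,[(6,0),
  (3,2),(15,1),(10,0)]⟩ ⟨4,[(5,1),(10,0),(12,1),(0,1),(9,0),(3,6)]⟩),.k,⟨false,0,⟨0,[(0,0)]⟩,⟨1,
  [(30,0),(8,1),(9,0)]⟩⟩,⟨true,0,⟨0,[(31,0),(2,0)]⟩,⟨0,[(26,0),(5,0)]⟩⟩,⟨true,0,⟨0,[(51,0)]⟩,⟨0,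
  []⟩⟩,⟨false,1,⟨1,[(14,0),(15,0),(0,1),(2,0),(2,0),(11,0)]⟩,⟨0,[(2,0),(44,1)]⟩⟩,⟨false,0,⟨0,[(47,
  0)]⟩,⟨15,[(11,3),(8,3),(6,3),(1,2),(0,2),(18,9)]⟩⟩,⟨false,1,⟨1,[(7,1),(22,0),(0,1),(5,0),(0,0),
  (10,0)]⟩,⟨0,[(2,0),(44,0)]⟩⟩,[.e ⟨false,0,⟨4,[(0,3),(2,0),(0,0),(2,0),(20,0),(7,0)]⟩,⟨1,[(30,0),
  (18,0)]⟩⟩ ⟨false,0,⟨2,[(1,2),(2,0),(0,0),(1,0),(1,1)]⟩,⟨5,[(22,1),(5,1),(3,5),(2,1),(6,0),(5,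
  2)]⟩⟩,.o ⟨false,1,⟨7,[(14,3),(14,0),(0,0),(11,1),(6,3)]⟩,⟨0,[(35,0)]⟩⟩,.o ⟨false,1,⟨1,[(32,1),(9,
  0),(5,0)]⟩,⟨0,[(26,0),(4,0),(2,0)]⟩⟩,.a ⟨true,0,⟨0,[(32,0)]⟩,⟨0,[(31,0)]⟩⟩ ⟨false,0,⟨1,[(0,1),(3,
  0),(40,0),(1,0)]⟩,⟨1,[(30,0),(6,0),(0,0),(10,0)]⟩⟩ ⟨true,0,⟨2,[(1,2),(2,0),(0,0),(1,0),(1,1)]⟩,⟨0,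
  [(32,0),(2,0)]⟩⟩]⟩) (.Q [0,1,1,0,0,0,0,0,1,0,0,-1] (.p false [0,0,0,1] [] (⟨0,[(32,0)]⟩,⟨0,[(31,
  0)]⟩) .k 0 (⟨0,[]⟩,⟨0,[]⟩) .k .k) (.K ⟨0,[0,0,0,1],0,0,(⟨0,[(33,0)]⟩,⟨0,[(32,0)]⟩),.k,(.r (-1)
  ⟨19,[(5,3),(12,7),(11,0),(0,10)]⟩ ⟨1,[(4,1),(33,0),(0,0),(8,1)]⟩),(.x 0 ⟨0,[(45,0)]⟩ ⟨11,[(11,3),
  (12,3),(5,4),(0,4),(11,1)]⟩),.k,.k,[⟨0,[(33,0)]⟩,⟨0,[(32,0)]⟩,⟨0,[(3,0),(33,0),(10,1)]⟩,⟨0,[(0,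
  0)]⟩]⟩) (.Q [0,0,1,2,0,0,0,0,1,1,0,-1] (.p false [0,0,0,1] [1] (⟨0,[(33,0)]⟩,⟨0,[(32,0)]⟩) .k 1
  (⟨0,[]⟩,⟨0,[]⟩) .k .k) (.R ⟨1,true,false,true,[1,0,0,-1],[0,1],[0,0,0,0,0,0,0,0,-1],(⟨0,[(33,0)]⟩,
  ⟨0,[(34,0)]⟩),(⟨0,[(46,0)]⟩,⟨0,[(45,0)]⟩),⟨0,[(3,0)]⟩,.k,.k,(.x (-1) ⟨11,[(12,3),(12,3),(5,4),(0,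
  4),(11,1)]⟩ ⟨0,[(46,0)]⟩),(.x (-1) ⟨11,[(12,3),(12,3),(5,4),(0,4),(11,1)]⟩ ⟨0,[(46,0)]⟩),(.r (-1)
  ⟨42,[(4,14),(1,12),(11,11),(0,16),(1,2),(0,2),(8,13),(1,14)]⟩ ⟨10,[(0,7),(1,2),(6,3),(0,1),(23,7),
  (1,3),(0,2),(1,4)]⟩),.k,⟨false,1,⟨14,[(1,6),(2,5),(1,2),(11,6),(9,0),(2,0),(1,12),(10,2),(6,3)]⟩,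
  ⟨1,[(0,0),(1,0),(6,0),(19,0),(4,0),(2,1)]⟩⟩,⟨true,0,⟨0,[(33,0)]⟩,⟨0,[(28,0),(5,0),(1,0)]⟩⟩,⟨false,
  1,⟨3,[(31,0),(0,0),(18,1)]⟩,⟨0,[]⟩⟩,⟨true,0,⟨1,[(0,1),(12,0),(24,0)]⟩,⟨0,[(4,0),(4,0)]⟩⟩,⟨true,0,
  ⟨0,[(49,0)]⟩,⟨1,[(13,0),(24,0)]⟩⟩,⟨false,0,⟨0,[(0,0)]⟩,⟨43,[(4,33),(1,1),(8,13),(2,3),(2,1),(9,4),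
  (2,9),(9,11),(6,22)]⟩⟩,[]⟩) (.R ⟨1,false,false,true,[1,0,0,-1],[0,1],[0,0,0,0,0,0,0,0,-1],(⟨0,
  [(33,0)]⟩,⟨0,[(34,0)]⟩),(⟨0,[(46,0)]⟩,⟨0,[(45,0)]⟩),⟨0,[(3,0)]⟩,.k,.k,(.x (-1) ⟨11,[(12,3),(12,3),
  (5,4),(0,4),(11,1)]⟩ ⟨0,[(46,0)]⟩),(.x (-1) ⟨11,[(12,3),(12,3),(5,4),(0,4),(11,1)]⟩ ⟨0,[(46,0)]⟩),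
  (.r (-1) ⟨5,[(0,0),(3,0),(1,1),(11,0),(0,2),(11,1),(1,1)]⟩ ⟨2,[(2,2),(7,1),(27,0),(0,0),(9,3),(3,
  1)]⟩),.k,⟨false,1,⟨14,[(1,6),(2,5),(1,2),(11,6),(9,0),(2,0),(1,12),(10,2),(6,3)]⟩,⟨0,[(2,0),(26,
  0),(7,0),(11,1)]⟩⟩,⟨true,0,⟨0,[(33,0)]⟩,⟨0,[(28,0),(5,0),(1,0)]⟩⟩,⟨false,1,⟨3,[(31,0),(0,0),(18,
  1)]⟩,⟨0,[]⟩⟩,⟨true,0,⟨0,[(2,0),(26,0),(3,0),(3,0),(11,1)]⟩,⟨2,[(0,1),(0,0),(7,0),(27,0)]⟩⟩,⟨true,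
  0,⟨0,[(49,0)]⟩,⟨1,[(13,0),(24,0)]⟩⟩,⟨true,0,⟨0,[(2,0),(26,0),(3,0),(3,0),(11,2)]⟩,⟨0,[(0,0)]⟩⟩,
  [.o ⟨false,0,⟨0,[(49,0),(3,0)]⟩,⟨14,[(13,2),(5,0),(1,2),(0,0),(21,5),(2,1),(3,7)]⟩⟩,.o ⟨false,0,
  ⟨0,[(49,0)]⟩,⟨15,[(13,3),(7,3),(9,2),(0,2),(11,5),(6,3)]⟩⟩,.o ⟨false,1,⟨1,[(34,1),(9,0),(5,0)]⟩,
  ⟨0,[(28,0),(4,0),(2,0)]⟩⟩,.a ⟨true,0,⟨0,[(34,0)]⟩,⟨0,[(33,0)]⟩⟩ ⟨true,0,⟨2,[(0,0),(0,1),(7,1),(23,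
  2),(3,1)]⟩,⟨0,[(2,0),(26,0),(7,0),(11,0)]⟩⟩ ⟨false,0,⟨0,[(33,0),(15,0)]⟩,⟨19,[(2,1),(1,3),(8,1),
  (7,3),(10,0),(1,15),(1,1),(7,6),(6,11)]⟩⟩]⟩)))) (.I [0,1,1,0,0,0,0,0,1] (.R ⟨0,false,false,true,
  [1,0,0,-1],[0,1],[1,0,1],(⟨0,[(31,0)]⟩,⟨0,[(32,0)]⟩),(⟨0,[(44,0)]⟩,⟨0,[(43,0)]⟩),⟨0,[(1,0)]⟩,.k,
  .k,(.x (-1) ⟨11,[(10,3),(12,3),(5,4),(0,4),(11,1)]⟩ ⟨0,[(44,0)]⟩),(.x (-1) ⟨11,[(10,3),(12,3),(5,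
  4),(0,4),(11,1)]⟩ ⟨0,[(44,0)]⟩),.k,.k,⟨false,1,⟨19,[(4,3),(12,7),(11,0),(0,0),(18,9)]⟩,⟨0,[(47,0),
  (3,0)]⟩⟩,⟨true,0,⟨0,[(31,0)]⟩,⟨6,[(1,4),(3,0),(4,1),(21,1),(1,1),(2,3)]⟩⟩,⟨false,1,⟨0,[(0,0),(48,
  0)]⟩,⟨0,[(2,0),(4,0),(23,0),(15,0)]⟩⟩,⟨true,0,⟨0,[(0,0),(30,0),(15,0)]⟩,⟨0,[(2,0),(4,0)]⟩⟩,⟨false,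
  0,⟨0,[]⟩,⟨0,[]⟩⟩,⟨false,0,⟨0,[]⟩,⟨0,[]⟩⟩,[.o ⟨false,0,⟨0,[(47,0),(3,0)]⟩,⟨14,[(11,2),(5,0),(1,2),
  (0,0),(21,5),(2,1),(3,7)]⟩⟩,.o ⟨false,0,⟨0,[(47,0)]⟩,⟨15,[(11,3),(7,3),(9,2),(0,2),(11,5),(6,
  3)]⟩⟩,.o ⟨false,1,⟨1,[(32,1),(9,0),(5,0)]⟩,⟨0,[(26,0),(4,0),(2,0)]⟩⟩,.a ⟨true,0,⟨0,[(32,0)]⟩,⟨0,
  [(31,0)]⟩⟩ ⟨true,0,⟨0,[]⟩,⟨0,[(51,0)]⟩⟩ ⟨false,0,⟨0,[(31,0),(15,0)]⟩,⟨15,[(2,1),(8,1),(7,3),(10,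
  0),(1,13),(9,5),(2,1),(3,8)]⟩⟩]⟩) (.R ⟨0,false,false,false,[1,0,0,-1],[0,1,1],[0,1,0,0,0,0,0,0,
  -1],(⟨0,[(31,0)]⟩,⟨0,[(32,0)]⟩),(⟨0,[(41,0),(2,0)]⟩,⟨0,[(23,0)]⟩),⟨0,[(1,0)]⟩,.k,.k,(.x (-1) ⟨11,
  [(10,3),(12,3),(5,4),(0,4),(11,1)]⟩ ⟨0,[(44,0)]⟩),(.r 0 ⟨7,[(0,2),(1,0),(0,3),(0,3),(16,0),(2,0),
  (6,0),(4,0)]⟩ ⟨3,[(8,1),(20,0),(0,2),(6,0),(0,0),(8,1)]⟩),.k,.k,⟨false,0,⟨0,[(0,0),(3,0),(22,0),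
  (7,0),(11,0)]⟩,⟨3,[(8,1),(21,1),(6,0),(0,0),(8,1),(1,1)]⟩⟩,⟨true,0,⟨0,[(26,0),(4,0)]⟩,⟨0,[(32,0),
  (1,0)]⟩⟩,⟨true,0,⟨0,[(51,0)]⟩,⟨0,[]⟩⟩,⟨false,1,⟨5,[(8,2),(19,1),(1,2),(0,5),(5,1),(4,0),(2,0),(1,
  2),(1,1)]⟩,⟨3,[(0,0),(1,2),(4,1),(6,1),(17,0),(3,0)]⟩⟩,⟨false,0,⟨0,[]⟩,⟨0,[]⟩⟩,⟨false,0,⟨0,[]⟩,⟨0,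
  []⟩⟩,[.a ⟨true,0,⟨0,[(12,0),(34,0)]⟩,⟨2,[(13,0),(6,0),(6,0),(3,0),(0,0)]⟩⟩ ⟨false,0,⟨0,[(0,0),(50,
  1)]⟩,⟨1,[(30,0),(18,0)]⟩⟩ ⟨true,0,⟨1,[(8,0),(17,0),(4,1),(5,0),(9,0)]⟩,⟨5,[(1,4),(2,0),(0,0),(4,
  1),(2,0),(6,1),(6,1),(4,0)]⟩⟩,.o ⟨false,1,⟨3,[(22,1),(5,1),(13,0),(4,3),(1,0)]⟩,⟨0,[(24,0)]⟩⟩,.o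
  ⟨false,1,⟨1,[(32,1),(9,0),(5,0)]⟩,⟨0,[(26,0),(4,0),(2,0)]⟩⟩,.e ⟨false,0,⟨0,[(0,0),(50,0)]⟩,⟨1,
  [(30,0),(6,0),(0,0),(10,0)]⟩⟩ ⟨false,1,⟨3,[(22,1),(5,1),(2,3),(10,0),(4,3),(1,0)]⟩,⟨5,[(1,4),(2,
  0),(0,0),(4,1),(2,0),(6,1),(6,1),(4,0)]⟩⟩]⟩))) (.Q [0,1,-1,0,0,0,0,0,-1,0,0,1] (.p true [0,0,0,1]
  [] (⟨0,[(30,0)]⟩,⟨0,[(29,0)]⟩) .k 0 (⟨0,[]⟩,⟨0,[]⟩) .k .k) (.K ⟨0,[0,0,0,1],0,0,(⟨0,[(31,0)]⟩,⟨0,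
  [(30,0)]⟩),.k,(.r (-1) ⟨19,[(3,3),(12,7),(11,0),(0,10)]⟩ ⟨9,[(0,3),(0,3),(0,9),(4,1),(28,4),(0,0),
  (6,1)]⟩),(.x 0 ⟨0,[(43,0)]⟩ ⟨11,[(9,3),(12,3),(5,4),(0,4),(11,1)]⟩),.k,.k,[⟨0,[(31,0)]⟩,⟨0,[(30,
  0)]⟩,⟨0,[(0,0)]⟩,⟨0,[(1,0),(8,0)]⟩]⟩) (.Q [0,0,0,0,0,1,0,0,0,-1,0,1] (.p true [0,0,0,1] [1] (⟨0,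
  [(31,0)]⟩,⟨0,[(30,0)]⟩) .k 1 (⟨0,[]⟩,⟨0,[]⟩) .k .k) (.R ⟨0,false,false,false,[1,0,0,-1],[0,1],[1,
  0,0,0,0,0,0,0,-1],(⟨0,[(31,0)]⟩,⟨0,[(32,0)]⟩),(⟨0,[(44,0)]⟩,⟨0,[(43,0)]⟩),⟨0,[(0,0)]⟩,.k,.k,(.x
  (-1) ⟨11,[(10,3),(12,3),(5,4),(0,4),(11,1)]⟩ ⟨0,[(44,0)]⟩),(.x (-1) ⟨11,[(10,3),(12,3),(5,4),(0,
  4),(11,1)]⟩ ⟨0,[(44,0)]⟩),.k,.k,⟨false,1,⟨9,[(3,7),(0,1),(12,3),(11,0),(18,4)]⟩,⟨1,[(1,0),(0,0),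
  (29,1),(2,0)]⟩⟩,⟨true,0,⟨0,[(31,0)]⟩,⟨6,[(0,4),(4,0),(4,1),(21,1),(1,1),(2,3)]⟩⟩,⟨true,0,⟨0,[]⟩,
  ⟨0,[(51,0)]⟩⟩,⟨false,0,⟨0,[(1,0),(29,0),(0,0),(14,0)]⟩,⟨9,[(3,7),(0,1),(12,3),(11,0),(2,9),(9,
  4)]⟩⟩,⟨false,0,⟨0,[]⟩,⟨0,[]⟩⟩,⟨false,0,⟨0,[]⟩,⟨0,[]⟩⟩,[.o ⟨false,0,⟨0,[(47,0)]⟩,⟨15,[(11,3),(7,3),
  (9,2),(0,2),(11,5),(6,3)]⟩⟩,.o ⟨false,1,⟨3,[(29,0),(0,0),(16,3),(1,1)]⟩,⟨0,[(7,0),(3,0)]⟩⟩,.o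
  ⟨false,1,⟨1,[(32,1),(9,0),(5,0)]⟩,⟨7,[(1,3),(0,1),(0,5),(17,2),(2,0),(6,1),(2,0),(2,0)]⟩⟩,.a
  ⟨true,0,⟨0,[(32,0)]⟩,⟨0,[(31,0)]⟩⟩ ⟨false,1,⟨1,[(3,1),(44,0),(0,0)]⟩,⟨1,[(1,0),(0,0),(8,0),(20,
  1)]⟩⟩ ⟨true,0,⟨0,[(31,0),(15,0)]⟩,⟨7,[(0,4),(3,0),(0,0),(4,1),(10,3),(2,2),(7,2),(2,0)]⟩⟩]⟩) (.R
  ⟨1,false,false,false,[1,0,0,-1],[0,1],[0,0,0,0,0,0,0,0,-1],(⟨0,[(31,0)]⟩,⟨0,[(32,0)]⟩),(⟨0,[(44,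
  0)]⟩,⟨0,[(43,0)]⟩),⟨0,[(0,0)]⟩,.k,.k,(.x (-1) ⟨11,[(10,3),(12,3),(5,4),(0,4),(11,1)]⟩ ⟨0,[(44,
  0)]⟩),(.x (-1) ⟨11,[(10,3),(12,3),(5,4),(0,4),(11,1)]⟩ ⟨0,[(44,0)]⟩),(.r (-1) ⟨4,[(3,2),(0,1),(12,
  3),(11,0)]⟩ ⟨5,[(1,0),(0,4),(5,1),(23,5),(2,0),(1,3)]⟩),.k,⟨false,1,⟨9,[(3,7),(0,1),(12,3),(11,0),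
  (18,4)]⟩,⟨1,[(1,0),(0,0),(29,1),(2,0)]⟩⟩,⟨true,0,⟨0,[(31,0)]⟩,⟨0,[(26,0),(5,0),(1,0)]⟩⟩,⟨false,1,
  ⟨3,[(29,0),(0,0),(18,1)]⟩,⟨0,[]⟩⟩,⟨false,0,⟨0,[(1,0),(29,0),(0,0),(14,0)]⟩,⟨9,[(3,7),(0,1),(12,3),
  (11,0),(2,9),(9,4)]⟩⟩,⟨true,0,⟨0,[(47,0)]⟩,⟨1,[(11,0),(24,0)]⟩⟩,⟨false,0,⟨0,[(1,0),(29,0),(0,0),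
  (14,1)]⟩,⟨59,[(3,45),(0,3),(6,9),(5,27),(1,9),(0,19),(8,6),(2,59),(9,24)]⟩⟩,[.o ⟨false,0,⟨0,[(47,
  0)]⟩,⟨15,[(11,3),(7,3),(9,2),(0,2),(11,5),(6,3)]⟩⟩,.o ⟨false,1,⟨3,[(29,0),(0,0),(16,3),(1,1)]⟩,⟨0,
  [(7,0),(3,0)]⟩⟩,.o ⟨false,1,⟨1,[(32,1),(9,0),(5,0)]⟩,⟨7,[(1,3),(0,1),(0,5),(17,2),(2,0),(6,1),(2,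
  0),(2,0)]⟩⟩,.a ⟨true,0,⟨0,[(32,0)]⟩,⟨0,[(31,0)]⟩⟩ ⟨false,1,⟨1,[(3,1),(44,0),(0,0)]⟩,⟨1,[(1,0),(0,
  0),(8,0),(20,1)]⟩⟩ ⟨true,0,⟨0,[(31,0),(15,0)]⟩,⟨0,[(7,0),(3,0),(20,0)]⟩⟩]⟩)))) (.I [0,1,-2,-1,1,0,
  0,0,-1] (.Q [0,0,0,0,0,-1,0,0,0,1,0,-1] (.p false [0,0,0,1] [1] (⟨0,[(30,0)]⟩,⟨0,[(29,0)]⟩) .k 1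
  (⟨0,[]⟩,⟨0,[]⟩) .k .k) (.R ⟨1,false,false,false,[1,0,0,-1],[0,1],[0,1,0,0,0,0,0,0,-1],(⟨0,[(30,
  0)]⟩,⟨0,[(31,0)]⟩),(⟨0,[(43,0)]⟩,⟨0,[(42,0)]⟩),⟨0,[(0,0)]⟩,.k,.k,(.x (-1) ⟨11,[(9,3),(12,3),(5,4),
  (0,4),(11,1)]⟩ ⟨0,[(43,0)]⟩),(.x (-1) ⟨11,[(9,3),(12,3),(5,4),(0,4),(11,1)]⟩ ⟨0,[(43,0)]⟩),(.x 0
  ⟨4,[(4,1),(4,3),(15,0),(10,2)]⟩ ⟨3,[(28,0),(0,0),(13,7),(3,1)]⟩),.k,⟨false,1,⟨0,[(1,0)]⟩,⟨3,[(2,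
  3),(33,0),(0,0),(6,1),(1,3)]⟩⟩,⟨true,0,⟨0,[(30,0)]⟩,⟨0,[(25,0),(5,0),(1,0)]⟩⟩,⟨true,0,⟨0,[(50,
  0)]⟩,⟨0,[]⟩⟩,⟨false,0,⟨3,[(2,3),(27,3),(5,0),(0,0),(6,1),(1,3)]⟩,⟨1,[(1,1),(4,1),(3,0),(3,0),(10,
  0),(5,1),(12,0)]⟩⟩,⟨false,0,⟨0,[(46,0)]⟩,⟨15,[(10,3),(8,3),(6,3),(1,2),(0,2),(18,9)]⟩⟩,⟨false,0,
  ⟨3,[(2,3),(27,3),(5,0),(0,0),(6,1),(1,7)]⟩,⟨0,[(1,0),(4,0),(3,0),(20,0),(12,0)]⟩⟩,[.o ⟨false,0,⟨0,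
  [(46,0)]⟩,⟨15,[(10,3),(7,3),(9,2),(0,2),(11,5),(6,3)]⟩⟩,.o ⟨false,1,⟨3,[(28,0),(0,0),(16,3),(1,
  1)]⟩,⟨0,[(6,0),(3,0)]⟩⟩,.o ⟨false,1,⟨1,[(31,1),(9,0),(5,0)]⟩,⟨0,[(25,0),(4,0),(2,0)]⟩⟩,.a ⟨true,0,
  ⟨0,[(31,0)]⟩,⟨0,[(30,0)]⟩⟩ ⟨false,1,⟨1,[(28,0),(18,0)]⟩,⟨3,[(2,3),(33,0),(0,0),(6,1)]⟩⟩ ⟨true,0,
  ⟨0,[(30,0),(15,0)]⟩,⟨0,[(6,0),(3,0),(20,0)]⟩⟩]⟩) (.R ⟨0,false,false,false,[1,0,0,-1],[0,1],[0,1,0,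
  0,0,0,0,0,-1],(⟨0,[(30,0)]⟩,⟨0,[(31,0)]⟩),(⟨0,[(43,0)]⟩,⟨0,[(42,0)]⟩),⟨0,[(0,0)]⟩,.k,.k,(.x (-1)
  ⟨11,[(9,3),(12,3),(5,4),(0,4),(11,1)]⟩ ⟨0,[(43,0)]⟩),(.x (-1) ⟨11,[(9,3),(12,3),(5,4),(0,4),(11,
  1)]⟩ ⟨0,[(43,0)]⟩),.k,.k,⟨false,1,⟨0,[(1,0)]⟩,⟨3,[(2,3),(33,0),(0,0),(6,1),(1,3)]⟩⟩,⟨true,0,⟨0,
  [(30,0)]⟩,⟨6,[(0,4),(3,0),(4,1),(21,1),(1,1),(2,3)]⟩⟩,⟨true,0,⟨0,[(50,0)]⟩,⟨0,[]⟩⟩,⟨false,0,⟨3,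
  [(2,3),(27,3),(5,0),(0,0),(6,1),(1,3)]⟩,⟨69,[(0,69),(2,13),(0,7),(4,25),(5,3),(0,27),(5,9),(2,19),
  (2,34),(12,2)]⟩⟩,⟨false,0,⟨0,[]⟩,⟨0,[]⟩⟩,⟨false,0,⟨0,[]⟩,⟨0,[]⟩⟩,[.o ⟨false,0,⟨0,[(46,0)]⟩,⟨15,
  [(10,3),(7,3),(9,2),(0,2),(11,5),(6,3)]⟩⟩,.o ⟨false,1,⟨3,[(28,0),(0,0),(16,3),(1,1)]⟩,⟨0,[(6,0),
  (3,0)]⟩⟩,.o ⟨false,1,⟨1,[(31,1),(9,0),(5,0)]⟩,⟨0,[(25,0),(4,0),(2,0)]⟩⟩,.a ⟨true,0,⟨0,[(31,0)]⟩,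
  ⟨0,[(30,0)]⟩⟩ ⟨false,1,⟨1,[(28,0),(18,0)]⟩,⟨3,[(2,3),(33,0),(0,0),(6,1)]⟩⟩ ⟨true,0,⟨0,[(30,0),(15,
  0)]⟩,⟨3,[(0,2),(8,0),(10,1),(1,0),(0,1),(7,0)]⟩⟩]⟩)) (.Q [0,0,0,0,0,-1,0,0,0,1,0,-1] (.p false [0,
  0,0,1] [1] (⟨0,[(30,0)]⟩,⟨0,[(29,0)]⟩) .k 1 (⟨0,[]⟩,⟨0,[]⟩) .k .k) (.Q [0,0,-1,-1,1,0,1,1,-1,0,-1,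
  1] (.p false [0,0,1] [0,0,0,1] (⟨0,[(40,0)]⟩,⟨0,[(39,0)]⟩) .k 2 (⟨0,[(31,0)]⟩,⟨0,[(30,0)]⟩) .k
  (.r (-1) ⟨19,[(7,7),(8,3),(11,12),(0,2)]⟩ ⟨5,[(1,0),(0,2),(0,1),(2,0),(20,0),(1,0),(5,0)]⟩)) (.R
  ⟨1,false,false,false,[1,0,0,-1],[1,0,-1],[0,1,0,0,0,0,0,0,-1],(⟨0,[(31,0)]⟩,⟨0,[(32,0)]⟩),(⟨0,
  [(40,0)]⟩,⟨0,[(41,0)]⟩),⟨0,[(1,0)]⟩,.k,.k,(.x (-1) ⟨11,[(10,3),(12,3),(5,4),(0,4),(11,1)]⟩ ⟨0,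
  [(44,0)]⟩),.k,(.x 0 ⟨4,[(6,0),(3,2),(15,1),(10,0)]⟩ ⟨4,[(5,1),(10,0),(12,1),(0,1),(9,0),(3,6)]⟩),
  .k,⟨false,1,⟨1,[(12,0),(3,0),(10,0),(1,0),(5,0),(11,0)]⟩,⟨21,[(2,15),(1,11),(12,1),(12,2),(17,7),
  (0,2)]⟩⟩,⟨true,0,⟨0,[(31,0),(2,0)]⟩,⟨0,[(26,0),(5,0)]⟩⟩,⟨true,0,⟨0,[(51,0)]⟩,⟨0,[]⟩⟩,⟨false,0,⟨13,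
  [(2,7),(10,5),(2,1),(3,1),(9,2),(0,13),(10,2),(2,1)]⟩,⟨0,[(0,0),(46,0)]⟩⟩,⟨false,0,⟨0,[(47,0)]⟩,
  ⟨15,[(11,3),(8,3),(6,3),(1,2),(0,2),(18,9)]⟩⟩,⟨false,0,⟨24,[(2,14),(1,0),(2,10),(6,5),(1,1),(13,
  4),(0,24),(10,2),(6,4)]⟩,⟨0,[(0,0)]⟩⟩,[.e ⟨false,1,⟨1,[(29,0),(18,0),(2,1)]⟩,⟨21,[(2,19),(1,3),
  (12,7),(12,0),(17,9),(0,0)]⟩⟩ ⟨false,0,⟨2,[(1,2),(2,0),(0,0),(1,0),(1,1)]⟩,⟨5,[(0,1),(7,1),(7,2),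
  (9,0),(1,2),(1,0),(1,3)]⟩⟩,.o ⟨false,1,⟨7,[(14,3),(14,0),(0,0),(11,1),(6,3)]⟩,⟨0,[(35,0)]⟩⟩,.o
  ⟨false,1,⟨1,[(32,1),(9,0),(5,0)]⟩,⟨0,[(26,0),(4,0),(2,0)]⟩⟩,.a ⟨true,0,⟨0,[(32,0)]⟩,⟨0,[(31,0)]⟩⟩
  ⟨false,1,⟨1,[(29,0),(18,0)]⟩,⟨42,[(2,14),(8,2),(5,0),(2,3),(6,2),(2,13),(14,14)]⟩⟩ ⟨true,0,⟨2,[(1,
  2),(2,0),(0,0),(1,0),(1,1)]⟩,⟨0,[(32,0),(2,0)]⟩⟩]⟩) (.K ⟨0,[0,0,0,1],0,(-1),(⟨0,[(32,0)]⟩,⟨0,[(31,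
  0)]⟩),.k,(.r 0 ⟨9,[(0,4),(1,4),(1,3),(1,0),(9,1),(0,7),(5,0),(8,4),(2,4),(4,0)]⟩ ⟨27,[(2,7),(5,3),
  (20,26),(0,8),(5,7),(0,7),(9,15)]⟩),(.x 0 ⟨0,[(44,0)]⟩ ⟨11,[(10,3),(12,3),(5,4),(0,4),(11,1)]⟩),
  .k,.k,[⟨0,[(32,0)]⟩,⟨0,[(31,0)]⟩,⟨1,[(29,0),(2,1),(15,0),(2,1)]⟩,⟨0,[(0,0),(20,0)]⟩]⟩)) (.R ⟨0,
  false,false,false,[1,0,0,-1],[1,1,-1],[0,1,0,0,0,0,0,0,-1],(⟨0,[(30,0)]⟩,⟨0,[(31,0)]⟩),(⟨0,[(39,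
  0),(3,0)]⟩,⟨0,[(24,0)]⟩),⟨0,[(0,0)]⟩,.k,.k,(.x (-1) ⟨11,[(9,3),(12,3),(5,4),(0,4),(11,1)]⟩ ⟨0,
  [(43,0)]⟩),(.x 0 ⟨4,[(5,0),(3,2),(15,1),(10,0)]⟩ ⟨4,[(4,1),(10,0),(12,1),(0,1),(9,0),(3,6)]⟩),.k,
  .k,⟨true,1,⟨3,[(11,0),(3,0),(0,0),(9,1),(1,1),(5,1)]⟩,⟨0,[(1,0),(36,0)]⟩⟩,⟨false,1,⟨19,[(15,11),
  (1,3),(10,2),(0,2),(0,19),(10,1)]⟩,⟨0,[(25,0),(5,0)]⟩⟩,⟨true,0,⟨0,[(50,0)]⟩,⟨0,[]⟩⟩,⟨false,0,⟨24,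
  [(1,14),(1,0),(2,10),(6,5),(1,1),(13,4),(0,24),(10,2),(6,4)]⟩,⟨3,[(0,2),(8,0),(1,1),(4,1),(5,0),
  (2,1),(2,1),(2,0)]⟩⟩,⟨false,0,⟨0,[]⟩,⟨0,[]⟩⟩,⟨false,0,⟨0,[]⟩,⟨0,[]⟩⟩,[.o ⟨false,0,⟨0,[(6,0)]⟩,⟨7,
  [(10,3),(10,1),(5,1),(0,1),(0,1),(11,0),(6,0)]⟩⟩,.o ⟨false,1,⟨3,[(6,3),(21,0),(0,0),(18,1)]⟩,⟨0,
  [(20,0)]⟩⟩,.o ⟨false,1,⟨1,[(31,1),(9,0),(5,0)]⟩,⟨0,[(25,0),(4,0),(2,0)]⟩⟩,.a ⟨true,0,⟨0,[(31,0)]⟩,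
  ⟨0,[(30,0)]⟩⟩ ⟨false,1,⟨1,[(28,0),(18,0)]⟩,⟨42,[(1,14),(8,2),(5,0),(2,3),(6,2),(2,13),(14,14)]⟩⟩
  ⟨true,0,⟨0,[(6,0),(23,0)]⟩,⟨0,[(20,0),(10,0)]⟩⟩]⟩)))))))))

theorem ok47 : chk (cU (-1) true 10) t47 l36 = true := by decide +kernel

noncomputable def t52 : Tre :=
  (.I [1,-1,1,0,0,0,0,0,1] (.Q [0,0,0,0,0,-1,0,0,0,1,0,-1] (.p false [0,0,0,1] [1] (⟨0,[(21,0)]⟩,⟨0,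
  [(20,0)]⟩) .k 1 (⟨0,[]⟩,⟨0,[]⟩) .k .k) (.I [0,0,-2,-2,1,0,0,0,-1] (.R ⟨1,false,false,false,[1,0,0,
  -1],[0,1],[0,1,0,0,0,0,0,0,-1],(⟨0,[(22,0)]⟩,⟨0,[(23,0)]⟩),(⟨0,[(35,0)]⟩,⟨0,[(34,0)]⟩),⟨0,[(1,
  0)]⟩,.k,.k,(.x (-1) ⟨7,[(14,3),(1,3),(3,2),(0,2),(11,1)]⟩ ⟨0,[(35,0)]⟩),(.x (-1) ⟨7,[(14,3),(1,3),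
  (3,2),(0,2),(11,1)]⟩ ⟨0,[(35,0)]⟩),(.r (-1) ⟨0,[(0,0)]⟩ ⟨1,[(2,1),(25,0),(0,0),(8,3),(3,1)]⟩),.k,
  ⟨false,1,⟨0,[(0,0),(37,0),(3,0)]⟩,⟨0,[(2,0),(35,0)]⟩⟩,⟨true,0,⟨0,[(22,0)]⟩,⟨0,[(17,0),(5,0),(1,
  0)]⟩⟩,⟨true,0,⟨0,[(42,0)]⟩,⟨0,[]⟩⟩,⟨false,0,⟨0,[(2,0),(19,0),(15,0)]⟩,⟨11,[(0,5),(2,7),(2,3),(0,
  1),(9,5),(2,2),(2,11),(2,3),(6,0)]⟩⟩,⟨false,0,⟨0,[(38,0)]⟩,⟨0,[(37,0),(2,0)]⟩⟩,⟨false,0,⟨0,[(2,0),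
  (19,0),(15,1)]⟩,⟨5,[(0,3),(2,3),(8,3),(7,0),(2,5),(9,0),(2,1)]⟩⟩,[.o ⟨false,0,⟨0,[(38,0)]⟩,⟨5,
  [(10,1),(1,1),(7,0),(0,0),(11,1),(6,1)]⟩⟩,.o ⟨false,1,⟨3,[(20,0),(0,0),(16,3),(1,1)]⟩,⟨0,[(3,0),
  (8,0)]⟩⟩,.o ⟨false,1,⟨1,[(23,1),(9,0),(5,0)]⟩,⟨0,[(17,0),(4,0),(2,0)]⟩⟩,.a ⟨true,0,⟨0,[(23,0)]⟩,
  ⟨0,[(22,0)]⟩⟩ ⟨false,1,⟨1,[(20,0),(18,0)]⟩,⟨0,[(2,0)]⟩⟩ ⟨true,0,⟨0,[(22,0),(15,0)]⟩,⟨0,[(3,0),(8,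
  0),(10,0)]⟩⟩]⟩) (.Q [0,-1,-1,0,1,0,0,0,-1,0,0,1] (.p true [0,0,0,1] [] (⟨0,[(23,0)]⟩,⟨0,[(22,
  0)]⟩) .k 0 (⟨0,[]⟩,⟨0,[]⟩) .k .k) (.R ⟨1,false,false,false,[1,0,0,-1],[1,0,-1],[0,1,0,0,0,0,0,0,
  -1],(⟨0,[(23,0)]⟩,⟨0,[(24,0)]⟩),(⟨0,[(32,0)]⟩,⟨0,[(33,0)]⟩),⟨0,[(2,0)]⟩,.k,.k,(.x (-1) ⟨7,[(15,3),
  (1,3),(3,2),(0,2),(11,1)]⟩ ⟨0,[(36,0)]⟩),.k,(.x 0 ⟨0,[(17,0),(0,0)]⟩ ⟨9,[(8,1),(1,3),(10,2),(0,2),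
  (9,9),(1,1),(1,9)]⟩),.k,⟨false,1,⟨1,[(9,0),(9,0),(1,0),(5,0),(11,2)]⟩,⟨11,[(1,11),(7,3),(1,0),(0,
  13),(7,0),(7,0),(11,7)]⟩⟩,⟨true,0,⟨0,[(23,0),(2,0)]⟩,⟨0,[(18,0),(5,0)]⟩⟩,⟨true,0,⟨0,[(43,0)]⟩,⟨0,
  []⟩⟩,⟨false,0,⟨0,[(3,0),(0,0),(18,0)]⟩,⟨0,[(0,0),(26,0)]⟩⟩,⟨false,0,⟨0,[(39,0)]⟩,⟨0,[(38,0),(2,
  0)]⟩⟩,⟨false,0,⟨5,[(1,3),(1,1),(2,1),(1,1),(3,1),(10,5),(10,0),(6,0)]⟩,⟨0,[(0,0),(12,0)]⟩⟩,[.o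
  ⟨false,0,⟨0,[(4,0)]⟩,⟨11,[(14,3),(5,3),(0,2),(0,2),(4,3),(6,1)]⟩⟩,.o ⟨false,1,⟨7,[(6,3),(14,0),(0,
  0),(11,1),(6,3)]⟩,⟨0,[(27,0)]⟩⟩,.o ⟨false,1,⟨1,[(24,1),(9,0),(5,0)]⟩,⟨0,[(18,0),(4,0),(2,0)]⟩⟩,.a
  ⟨true,0,⟨0,[(24,0)]⟩,⟨0,[(23,0)]⟩⟩ ⟨false,1,⟨1,[(21,0),(18,0)]⟩,⟨0,[(3,0)]⟩⟩ ⟨true,0,⟨0,[(4,0),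
  (18,0)]⟩,⟨0,[(24,0),(2,0)]⟩⟩]⟩) (.K ⟨0,[0,0,0,1],0,(-1),(⟨0,[(24,0)]⟩,⟨0,[(23,0)]⟩),.k,(.r 0 ⟨0,
  [(0,0),(8,0),(2,0),(11,0),(14,1)]⟩ ⟨7,[(1,3),(19,8),(0,2)]⟩),(.x 0 ⟨0,[(36,0)]⟩ ⟨7,[(15,3),(1,3),
  (3,2),(0,2),(11,1)]⟩),.k,.k,[⟨0,[(24,0)]⟩,⟨0,[(23,0)]⟩,⟨1,[(21,0),(2,1),(15,0),(2,1)]⟩,⟨0,[(0,
  0)]⟩]⟩))) (.I [0,0,0,0,0,0,0,0,1] (.Q [0,0,-1,0,1,0,1,1,-1,0,-1,1] (.p false [0,0,1] [0,0,0,1]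
  (⟨0,[(32,0)]⟩,⟨0,[(31,0)]⟩) .k 2 (⟨0,[(23,0)]⟩,⟨0,[(22,0)]⟩) .k (.r (-1) ⟨1,[(13,0),(6,0),(21,
  0)]⟩ ⟨0,[(0,0),(29,0)]⟩)) (.R ⟨0,false,false,false,[1,0,0,-1],[1,0,-1],[0,1,0,0,0,0,0,0,-1],(⟨0,
  [(23,0)]⟩,⟨0,[(24,0)]⟩),(⟨0,[(32,0)]⟩,⟨0,[(33,0)]⟩),⟨0,[(2,0)]⟩,.k,.k,(.x (-1) ⟨7,[(15,3),(1,3),
  (3,2),(0,2),(11,1)]⟩ ⟨0,[(36,0)]⟩),.k,.k,.k,⟨false,1,⟨1,[(9,0),(9,0),(1,0),(5,0),(11,2)]⟩,⟨0,[(1,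
  0),(10,0),(26,0)]⟩⟩,⟨true,0,⟨0,[(23,0),(2,0)]⟩,⟨0,[(18,0),(5,0)]⟩⟩,⟨true,0,⟨0,[(43,0)]⟩,⟨0,[]⟩⟩,
  ⟨false,0,⟨0,[(3,0),(0,0),(18,0)]⟩,⟨0,[(0,0)]⟩⟩,⟨false,0,⟨0,[]⟩,⟨0,[]⟩⟩,⟨false,0,⟨0,[]⟩,⟨0,[]⟩⟩,
  [.o ⟨false,0,⟨0,[(4,0)]⟩,⟨11,[(14,3),(5,3),(0,2),(0,2),(4,3),(6,1)]⟩⟩,.o ⟨false,1,⟨7,[(6,3),(14,
  0),(0,0),(11,1),(6,3)]⟩,⟨0,[(27,0)]⟩⟩,.o ⟨false,1,⟨1,[(24,1),(9,0),(5,0)]⟩,⟨0,[(18,0),(4,0),(2,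
  0)]⟩⟩,.a ⟨true,0,⟨0,[(24,0)]⟩,⟨0,[(23,0)]⟩⟩ ⟨false,1,⟨1,[(21,0),(18,0)]⟩,⟨0,[(3,0)]⟩⟩ ⟨true,0,⟨0,
  [(4,0),(18,0)]⟩,⟨0,[(24,0),(2,0)]⟩⟩]⟩) (.K ⟨0,[0,0,0,1],0,(-1),(⟨0,[(24,0)]⟩,⟨0,[(23,0)]⟩),.k,(.r
  0 ⟨0,[(0,0),(8,0),(8,0),(5,0),(14,0)]⟩ ⟨3,[(21,2),(0,0),(6,1),(0,1),(8,3)]⟩),(.x 0 ⟨0,[(36,0)]⟩
  ⟨7,[(15,3),(1,3),(3,2),(0,2),(11,1)]⟩),.k,.k,[⟨0,[(24,0)]⟩,⟨0,[(23,0)]⟩,⟨1,[(21,0),(2,1),(15,0),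
  (2,1)]⟩,⟨0,[(0,0),(26,0)]⟩]⟩)) (.R ⟨0,false,false,false,[1,0,0,-1],[0,1],[0,1,0,0,0,0,0,0,-1],(⟨0,
  [(22,0)]⟩,⟨0,[(23,0)]⟩),(⟨0,[(35,0)]⟩,⟨0,[(34,0)]⟩),⟨0,[(1,0)]⟩,.k,.k,(.x (-1) ⟨7,[(14,3),(1,3),
  (3,2),(0,2),(11,1)]⟩ ⟨0,[(35,0)]⟩),(.x (-1) ⟨7,[(14,3),(1,3),(3,2),(0,2),(11,1)]⟩ ⟨0,[(35,0)]⟩),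
  .k,.k,⟨false,1,⟨0,[(0,0),(36,0),(1,0)]⟩,⟨0,[(2,0),(35,0)]⟩⟩,⟨true,0,⟨0,[(22,0)]⟩,⟨0,[(17,0),(5,0),
  (1,0)]⟩⟩,⟨true,0,⟨0,[(42,0)]⟩,⟨0,[]⟩⟩,⟨false,0,⟨0,[(2,0),(19,0),(15,0)]⟩,⟨27,[(0,17),(6,5),(0,7),
  (1,3),(0,3),(5,9),(2,4),(2,27),(9,8)]⟩⟩,⟨false,0,⟨0,[]⟩,⟨0,[]⟩⟩,⟨false,0,⟨0,[]⟩,⟨0,[]⟩⟩,[.o
  ⟨false,0,⟨0,[(38,0)]⟩,⟨5,[(10,1),(1,1),(7,0),(0,0),(11,1),(6,1)]⟩⟩,.o ⟨false,1,⟨3,[(20,0),(0,0),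
  (16,3),(1,1)]⟩,⟨0,[(3,0),(8,0)]⟩⟩,.o ⟨false,1,⟨1,[(23,1),(9,0),(5,0)]⟩,⟨0,[(17,0),(4,0),(2,0)]⟩⟩,
  .a ⟨true,0,⟨0,[(23,0)]⟩,⟨0,[(22,0)]⟩⟩ ⟨false,1,⟨1,[(20,0),(18,0)]⟩,⟨0,[(2,0)]⟩⟩ ⟨true,0,⟨0,[(22,
  0),(15,0)]⟩,⟨0,[(3,0),(8,0),(10,0)]⟩⟩]⟩))) (.Q [0,1,1,0,0,0,0,0,1,0,0,-1] (.p false [0,0,0,1] []
  (⟨0,[(21,0)]⟩,⟨0,[(20,0)]⟩) .k 0 (⟨0,[]⟩,⟨0,[]⟩) .k .k) (.K ⟨0,[0,0,0,1],0,0,(⟨0,[(22,0)]⟩,⟨0,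
  [(21,0)]⟩),.k,(.r (-1) ⟨11,[(7,3),(1,0),(0,1),(7,0),(1,5),(5,0),(11,1)]⟩ ⟨3,[(1,3),(25,2),(0,2),
  (6,1),(1,3)]⟩),(.x 0 ⟨0,[(34,0)]⟩ ⟨7,[(13,3),(1,3),(3,2),(0,2),(11,1)]⟩),.k,.k,[⟨0,[(22,0)]⟩,⟨0,
  [(21,0)]⟩,⟨0,[(1,0),(20,0)]⟩,⟨0,[(0,0)]⟩]⟩) (.I [0,1,1,0,0,0,0,0,1] (.Q [0,0,0,0,0,1,0,0,0,-1,0,
  1] (.p true [0,0,0,1] [1] (⟨0,[(23,0)]⟩,⟨0,[(22,0)]⟩) .k 1 (⟨0,[]⟩,⟨0,[]⟩) .k .k) (.R ⟨0,false,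
  false,true,[1,0,0,-1],[0,1],[1,0,1],(⟨0,[(23,0)]⟩,⟨0,[(24,0)]⟩),(⟨0,[(36,0)]⟩,⟨0,[(35,0)]⟩),⟨0,
  [(0,0)]⟩,.k,.k,(.x (-1) ⟨7,[(15,3),(1,3),(3,2),(0,2),(11,1)]⟩ ⟨0,[(36,0)]⟩),(.x (-1) ⟨7,[(15,3),
  (1,3),(3,2),(0,2),(11,1)]⟩ ⟨0,[(36,0)]⟩),.k,.k,⟨false,1,⟨11,[(9,3),(2,3),(8,0),(0,0),(17,1),(0,
  3)]⟩,⟨0,[(39,0),(3,0)]⟩⟩,⟨true,0,⟨0,[(23,0)]⟩,⟨0,[(18,0),(5,0),(1,0)]⟩⟩,⟨false,1,⟨0,[(1,0),(39,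
  0)]⟩,⟨0,[(2,0),(1,0),(18,0),(3,0)]⟩⟩,⟨true,0,⟨0,[(1,0),(21,0),(15,0)]⟩,⟨0,[(2,0),(1,0),(8,0)]⟩⟩,
  ⟨false,0,⟨0,[]⟩,⟨0,[]⟩⟩,⟨false,0,⟨0,[]⟩,⟨0,[]⟩⟩,[.o ⟨false,0,⟨0,[(39,0),(3,0)]⟩,⟨23,[(9,1),(1,5),
  (0,1),(0,5),(20,8),(2,3),(3,12)]⟩⟩,.o ⟨false,0,⟨0,[(39,0)]⟩,⟨5,[(11,1),(1,1),(7,0),(0,0),(11,1),
  (6,1)]⟩⟩,.o ⟨false,1,⟨1,[(24,1),(9,0),(5,0)]⟩,⟨0,[(18,0),(4,0),(2,0)]⟩⟩,.a ⟨true,0,⟨0,[(24,0)]⟩,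
  ⟨0,[(23,0)]⟩⟩ ⟨true,0,⟨0,[]⟩,⟨0,[(43,0)]⟩⟩ ⟨false,0,⟨0,[(23,0),(15,0)]⟩,⟨23,[(9,1),(1,5),(0,1),(0,
  5),(10,23),(9,8),(2,3),(3,12)]⟩⟩]⟩) (.Q [0,1,1,1,0,0,1,1,1,1,-1,-1] (.p false [0,0,1] [1,0,0,-1]
  (⟨0,[(33,0)]⟩,⟨0,[(32,0)]⟩) .k 2 (⟨0,[(23,0)]⟩,⟨0,[(24,0)]⟩) .k (.r (-1) ⟨1,[(14,0),(7,0),(20,
  0)]⟩ ⟨2,[(3,2),(24,0),(0,0),(1,1),(5,1)]⟩)) (.R ⟨1,false,false,true,[1,0,0,-1],[0,0,1],[0,1,1,0,0,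
  0,0,1],(⟨0,[(24,0)]⟩,⟨0,[(25,0)]⟩),(⟨0,[(34,0)]⟩,⟨0,[(33,0)]⟩),⟨0,[(1,0)]⟩,.k,.k,(.x (-1) ⟨7,[(16,
  3),(1,3),(3,2),(0,2),(11,1)]⟩ ⟨0,[(37,0)]⟩),.k,(.r 0 ⟨0,[(4,0),(8,0)]⟩ ⟨7,[(2,7),(12,3),(6,0),(0,
  0),(16,7),(1,1)]⟩),.k,⟨true,0,⟨1,[(30,0),(0,0)]⟩,⟨0,[]⟩⟩,⟨false,0,⟨0,[(19,0),(4,0)]⟩,⟨19,[(9,11),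
  (1,3),(10,2),(0,2),(1,19),(9,1)]⟩⟩,⟨false,1,⟨7,[(2,7),(12,3),(6,0),(0,0),(18,1)]⟩,⟨0,[(3,0),(1,0),
  (13,0),(4,0)]⟩⟩,⟨false,1,⟨7,[(0,3),(1,3),(11,3),(7,0),(0,0),(0,3),(17,5)]⟩,⟨0,[(3,0),(1,0)]⟩⟩,
  ⟨false,1,⟨7,[(2,7),(12,3),(6,0),(0,0),(16,7),(1,1)]⟩,⟨1,[(3,1),(1,1),(7,0),(0,0),(4,0),(4,1)]⟩⟩,
  ⟨true,0,⟨0,[(0,0)]⟩,⟨0,[(3,0),(13,0)]⟩⟩,[.o ⟨false,0,⟨0,[(28,0)]⟩,⟨7,[(7,3),(14,0),(0,0),(11,1),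
  (6,3)]⟩⟩,.o ⟨false,1,⟨11,[(15,3),(5,3),(0,2),(0,2),(4,3),(6,1)]⟩,⟨0,[(5,0)]⟩⟩,.o ⟨false,1,⟨1,[(25,
  1),(9,0),(5,0)]⟩,⟨0,[(19,0),(4,0),(2,0)]⟩⟩,.a ⟨true,0,⟨0,[(25,0)]⟩,⟨0,[(24,0)]⟩⟩ ⟨false,1,⟨3,[(15,
  1),(6,0),(0,0),(20,1)]⟩,⟨0,[(13,0),(26,0)]⟩⟩ ⟨true,0,⟨0,[(24,0),(3,0)]⟩,⟨0,[(5,0),(19,0)]⟩⟩]⟩)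
  (.R ⟨1,false,false,true,[1,0,0,-1],[0,1],[0,0,0,0,0,0,0,0,-1],(⟨0,[(24,0)]⟩,⟨0,[(25,0)]⟩),(⟨0,
  [(37,0)]⟩,⟨0,[(36,0)]⟩),⟨0,[(1,0)]⟩,.k,.k,(.x (-1) ⟨7,[(16,3),(1,3),(3,2),(0,2),(11,1)]⟩ ⟨0,[(37,
  0)]⟩),(.x (-1) ⟨7,[(16,3),(1,3),(3,2),(0,2),(11,1)]⟩ ⟨0,[(37,0)]⟩),(.r (-1) ⟨23,[(4,11),(5,15),(1,
  0),(0,13),(7,0),(0,5),(6,0),(11,1)]⟩ ⟨3,[(2,3),(27,0),(0,0),(6,1),(1,7)]⟩),.k,⟨false,1,⟨5,[(0,1),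
  (2,0),(0,2),(4,0),(0,1),(8,2),(4,2),(17,2)]⟩,⟨0,[(2,0),(37,0)]⟩⟩,⟨true,0,⟨0,[(24,0)]⟩,⟨0,[(19,0),
  (5,0),(1,0)]⟩⟩,⟨false,1,⟨3,[(22,0),(0,0),(18,1)]⟩,⟨0,[]⟩⟩,⟨true,0,⟨0,[(2,0),(21,0),(15,0)]⟩,⟨0,
  [(0,0),(27,0)]⟩⟩,⟨true,0,⟨0,[(40,0)]⟩,⟨0,[(39,0)]⟩⟩,⟨true,0,⟨0,[(2,0),(21,0),(15,1)]⟩,⟨0,[(0,0),
  (13,0)]⟩⟩,[.o ⟨false,0,⟨0,[(40,0),(3,0)]⟩,⟨23,[(10,1),(1,5),(0,1),(0,5),(20,8),(2,3),(3,12)]⟩⟩,.o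
  ⟨false,0,⟨0,[(40,0)]⟩,⟨5,[(12,1),(1,1),(7,0),(0,0),(11,1),(6,1)]⟩⟩,.o ⟨false,1,⟨1,[(25,1),(9,0),
  (5,0)]⟩,⟨0,[(19,0),(4,0),(2,0)]⟩⟩,.a ⟨true,0,⟨0,[(25,0)]⟩,⟨0,[(24,0)]⟩⟩ ⟨true,0,⟨0,[(0,0),(23,0),
  (3,0),(11,0)]⟩,⟨0,[(2,0)]⟩⟩ ⟨false,0,⟨0,[(24,0),(15,0)]⟩,⟨15,[(0,1),(11,3),(1,5),(8,0),(1,13),(9,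
  4),(2,1),(3,9)]⟩⟩]⟩))) (.Q [0,0,0,0,0,-1,0,0,0,1,0,-1] (.p false [0,0,0,1] [1] (⟨0,[(23,0)]⟩,⟨0,
  [(22,0)]⟩) .k 1 (⟨0,[]⟩,⟨0,[]⟩) .k .k) (.R ⟨1,false,false,false,[1,0,0,-1],[1,0,-1],[0,1,0,0,0,0,
  0,0,-1],(⟨0,[(23,0)]⟩,⟨0,[(24,0)]⟩),(⟨0,[(32,0)]⟩,⟨0,[(33,0)]⟩),⟨0,[(0,0)]⟩,.k,.k,(.x (-1) ⟨7,
  [(15,3),(1,3),(3,2),(0,2),(11,1)]⟩ ⟨0,[(36,0)]⟩),.k,(.x 0 ⟨0,[(17,0),(0,0)]⟩ ⟨9,[(8,1),(1,3),(10,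
  2),(0,2),(9,9),(1,1),(1,9)]⟩),.k,⟨false,0,⟨0,[(1,0),(17,0),(7,0),(11,0)]⟩,⟨1,[(22,0),(8,1),(9,
  0)]⟩⟩,⟨true,0,⟨0,[(23,0),(2,0)]⟩,⟨0,[(18,0),(5,0)]⟩⟩,⟨true,0,⟨0,[(43,0)]⟩,⟨0,[]⟩⟩,⟨false,1,⟨1,[(6,
  0),(15,0),(0,1),(2,0),(2,0),(11,0)]⟩,⟨0,[(2,0),(24,0)]⟩⟩,⟨false,0,⟨0,[(39,0)]⟩,⟨0,[(38,0),(2,
  0)]⟩⟩,⟨false,1,⟨1,[(6,0),(15,0),(0,1),(2,0),(2,0),(9,1),(1,0)]⟩,⟨0,[(2,0),(10,0)]⟩⟩,[.o ⟨false,0,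
  ⟨0,[(4,0)]⟩,⟨11,[(14,3),(5,3),(0,2),(0,2),(4,3),(6,1)]⟩⟩,.o ⟨false,1,⟨7,[(6,3),(14,0),(0,0),(11,
  1),(6,3)]⟩,⟨0,[(27,0)]⟩⟩,.o ⟨false,1,⟨1,[(24,1),(9,0),(5,0)]⟩,⟨0,[(18,0),(4,0),(2,0)]⟩⟩,.a ⟨true,
  0,⟨0,[(24,0)]⟩,⟨0,[(23,0)]⟩⟩ ⟨false,0,⟨1,[(1,0),(1,0)]⟩,⟨1,[(22,0),(6,0),(0,0),(10,0)]⟩⟩ ⟨true,0,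
  ⟨0,[(4,0),(18,0)]⟩,⟨0,[(24,0),(2,0)]⟩⟩]⟩) (.R ⟨0,false,false,false,[1,0,0,-1],[1,0,-1],[0,1,0,0,0,
  0,0,0,-1],(⟨0,[(23,0)]⟩,⟨0,[(24,0)]⟩),(⟨0,[(32,0)]⟩,⟨0,[(33,0)]⟩),⟨0,[(0,0)]⟩,.k,.k,(.x (-1) ⟨7,
  [(15,3),(1,3),(3,2),(0,2),(11,1)]⟩ ⟨0,[(36,0)]⟩),.k,.k,.k,⟨false,0,⟨0,[(1,0),(17,0),(7,0),(11,
  0)]⟩,⟨1,[(22,0),(8,1),(9,0)]⟩⟩,⟨true,0,⟨0,[(23,0),(2,0)]⟩,⟨0,[(18,0),(5,0)]⟩⟩,⟨true,0,⟨0,[(43,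
  0)]⟩,⟨0,[]⟩⟩,⟨false,1,⟨1,[(6,0),(15,0),(0,1),(2,0),(2,0),(11,0)]⟩,⟨0,[(2,0),(24,0)]⟩⟩,⟨false,0,⟨0,
  []⟩,⟨0,[]⟩⟩,⟨false,0,⟨0,[]⟩,⟨0,[]⟩⟩,[.o ⟨false,0,⟨0,[(4,0)]⟩,⟨11,[(14,3),(5,3),(0,2),(0,2),(4,3),
  (6,1)]⟩⟩,.o ⟨false,1,⟨7,[(6,3),(14,0),(0,0),(11,1),(6,3)]⟩,⟨0,[(27,0)]⟩⟩,.o ⟨false,1,⟨1,[(24,1),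
  (9,0),(5,0)]⟩,⟨0,[(18,0),(4,0),(2,0)]⟩⟩,.a ⟨true,0,⟨0,[(24,0)]⟩,⟨0,[(23,0)]⟩⟩ ⟨false,0,⟨1,[(1,0),
  (1,0)]⟩,⟨1,[(22,0),(6,0),(0,0),(10,0)]⟩⟩ ⟨true,0,⟨0,[(4,0),(18,0)]⟩,⟨0,[(24,0),(2,0)]⟩⟩]⟩)))))

theorem ok52 : chk (cU (-1) true 10) t52 r33 = true := by decide +kernel

noncomputable def t56 : Tre :=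
  (.R ⟨1,false,false,true,[0,0,1],[1,0,-1],[1,1,0,0,0,0,0,-1],(⟨0,[(28,0)]⟩,⟨0,[(27,0)]⟩),(⟨0,[(27,
  0)]⟩,⟨0,[(28,0)]⟩),⟨0,[(12,0)]⟩,.k,.k,.k,.k,(.r (-1) ⟨10,[(1,3),(1,2),(0,2),(0,0),(2,0),(0,4),(4,
  3)]⟩ ⟨1,[(0,1),(14,1),(8,0),(0,0)]⟩),.k,⟨true,0,⟨0,[]⟩,⟨1,[(24,0),(0,0)]⟩⟩,⟨false,1,⟨0,[(3,0),(21,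
  0)]⟩,⟨0,[(15,0)]⟩⟩,⟨false,0,⟨0,[(26,1)]⟩,⟨0,[(9,0)]⟩⟩,⟨true,0,⟨1,[(0,0),(10,0),(11,0)]⟩,⟨0,[(1,
  0)]⟩⟩,⟨false,0,⟨0,[(0,0),(14,0)]⟩,⟨4,[(4,0),(3,0),(0,3),(4,0),(17,1),(0,0)]⟩⟩,⟨false,0,⟨0,[(0,
  0)]⟩,⟨0,[(1,0),(31,0),(2,0)]⟩⟩,[.o ⟨false,0,⟨0,[(20,0)]⟩,⟨7,[(1,3),(14,0),(0,0),(11,1),(6,3)]⟩⟩,
  .a ⟨true,0,⟨4,[(0,1),(6,0),(6,0),(3,1),(0,1)]⟩,⟨1,[(1,0),(16,0),(0,0)]⟩⟩ ⟨true,0,⟨0,[(26,0)]⟩,⟨1,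
  [(1,0),(19,0),(3,0)]⟩⟩ ⟨false,1,⟨59,[(0,7),(2,35),(1,11),(0,3),(9,0),(0,0),(5,39),(12,21)]⟩,⟨1,
  [(1,0),(13,0)]⟩⟩,.o ⟨false,0,⟨0,[(13,0)]⟩,⟨9,[(3,1),(1,3),(10,2),(0,2),(11,1)]⟩⟩,.o ⟨false,0,⟨0,
  [(24,0)]⟩,⟨19,[(3,11),(1,3),(10,2),(0,2),(11,1)]⟩⟩]⟩)

theorem ok56 : chk (cU (-1) true 10) t56 l37 = true := by decide +kernel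

noncomputable def t62 : Tre :=
  (.Q [0,0,0,0,0,0,-1,-1,0,0,1,-1] (.p true [0,0,1] [0,0,0,1] (⟨0,[(34,0)]⟩,⟨0,[(33,0)]⟩) .k 2 (⟨0,
  [(25,0)]⟩,⟨0,[(24,0)]⟩) .k (.x (-1) ⟨7,[(21,3),(0,0),(0,0),(10,7),(0,1),(5,3)]⟩ ⟨2,[(0,0),(1,0),
  (1,0),(20,0),(1,1)]⟩)) (.I [0,0,0,0,0,0,0,0,-1] (.Q [0,0,1,1,0,0,1,1,1,1,-1,-1] (.p false [0,0,1]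
  [1,0,0,-1] (⟨0,[(36,0)]⟩,⟨0,[(35,0)]⟩) .k 2 (⟨0,[(26,0)]⟩,⟨0,[(27,0)]⟩) .k (.r (-1) ⟨1,[(17,0),(7,
  0),(20,0)]⟩ ⟨0,[(0,0),(33,0)]⟩)) (.Q [0,1,-1,0,0,0,0,0,-1,0,0,1] (.p true [0,0,0,1] [] (⟨0,[(28,
  0)]⟩,⟨0,[(27,0)]⟩) .k 0 (⟨0,[]⟩,⟨0,[]⟩) .k .k) (.K ⟨0,[0,0,0,1],0,0,(⟨0,[(29,0)]⟩,⟨0,[(28,0)]⟩),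
  .k,(.r (-1) ⟨11,[(14,3),(1,0),(0,1),(7,0),(1,5),(5,0),(11,1)]⟩ ⟨6,[(0,1),(1,0),(3,1),(19,1),(4,1),
  (10,0),(1,6)]⟩),(.x 0 ⟨0,[(41,0)]⟩ ⟨15,[(8,3),(0,3),(16,6),(0,6),(11,1)]⟩),.k,.k,[⟨0,[(29,0)]⟩,⟨0,
  [(28,0)]⟩,⟨0,[(0,0)]⟩,⟨0,[(1,0),(19,0)]⟩]⟩) (.I [1,0,1,1,0,0,0,1,1] (.R ⟨1,false,false,true,[1,0,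
  0,-1],[0,1,1],[0,1,0,0,0,0,0,0,-1],(⟨0,[(29,0)]⟩,⟨0,[(30,0)]⟩),(⟨0,[(39,0),(2,0)]⟩,⟨0,[(21,0)]⟩),
  ⟨3,[(4,1),(4,0),(0,0),(1,0),(16,1)]⟩,.k,.k,(.x (-1) ⟨15,[(9,3),(0,3),(16,6),(0,6),(11,1)]⟩ ⟨0,
  [(42,0)]⟩),(.x (-1) ⟨5,[(5,0),(3,3),(6,1),(10,1),(0,1),(11,0)]⟩ ⟨0,[(24,0),(14,0),(2,0)]⟩),(.r
  (-1) ⟨2,[(3,2),(11,0),(1,0),(0,1),(7,0),(7,0),(11,1)]⟩ ⟨11,[(0,13),(6,2),(19,0),(2,2),(1,0),(1,1),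
  (5,0),(4,9),(1,0)]⟩),.k,⟨false,1,⟨3,[(3,3),(13,0),(0,1),(7,0),(7,0),(11,3)]⟩,⟨0,[(0,0)]⟩⟩,⟨true,0,
  ⟨0,[(24,0),(4,0)]⟩,⟨0,[(30,0),(1,0)]⟩⟩,⟨true,0,⟨0,[(49,0)]⟩,⟨0,[]⟩⟩,⟨false,0,⟨0,[(2,0)]⟩,⟨3,[(3,
  1),(4,1),(9,3),(8,0),(2,3),(9,0)]⟩⟩,⟨false,0,⟨0,[(45,0)]⟩,⟨10,[(7,1),(7,2),(1,1),(0,0),(8,1),(0,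
  1),(1,1),(16,5)]⟩⟩,⟨false,0,⟨0,[(2,0),(42,0)]⟩,⟨22,[(3,8),(10,11),(0,3),(1,10),(0,15),(8,6),(2,
  22),(12,8)]⟩⟩,[.o ⟨false,0,⟨0,[(33,0),(11,0)]⟩,⟨0,[(22,0),(24,0)]⟩⟩,.a ⟨true,0,⟨1,[(12,0),(16,0),
  (0,0),(14,1)]⟩,⟨1,[(4,0),(13,0),(6,0),(4,0)]⟩⟩ ⟨true,0,⟨0,[(3,0)]⟩,⟨7,[(0,5),(5,0),(10,1),(0,1),
  (9,0),(8,1),(0,1),(3,1)]⟩⟩ ⟨false,0,⟨0,[(4,0),(7,0),(32,0)]⟩,⟨7,[(14,3),(2,3),(9,0),(0,0),(1,7),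
  (6,3),(9,1)]⟩⟩,.o ⟨false,1,⟨1,[(30,1),(9,0),(5,0)]⟩,⟨9,[(4,6),(2,2),(4,1),(7,0),(11,0),(0,0),(6,
  1)]⟩⟩,.e ⟨false,1,⟨1,[(27,0),(18,0)]⟩,⟨0,[(0,0),(17,0)]⟩⟩ ⟨false,0,⟨0,[(4,0),(7,0),(32,0)]⟩,⟨0,
  [(22,0),(7,0),(16,0)]⟩⟩]⟩) (.R ⟨1,false,false,true,[1,0,0,-1],[0,1,1],[1,0,0,-1,0,0,0,0,-1],(⟨0,
  [(29,0)]⟩,⟨0,[(30,0)]⟩),(⟨0,[(39,0),(2,0)]⟩,⟨0,[(21,0)]⟩),⟨3,[(4,1),(4,0),(0,0),(1,0),(16,1)]⟩,.k,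
  .k,(.x (-1) ⟨15,[(9,3),(0,3),(16,6),(0,6),(11,1)]⟩ ⟨0,[(42,0)]⟩),(.x (-1) ⟨5,[(5,0),(3,3),(6,1),
  (10,1),(0,1),(11,0)]⟩ ⟨0,[(24,0),(14,0),(2,0)]⟩),(.r (-1) ⟨11,[(0,15),(14,3),(11,2),(0,4)]⟩ ⟨0,
  [(2,0),(27,0),(1,0),(12,0)]⟩),.k,⟨false,1,⟨5,[(0,7),(14,1),(12,0),(18,2)]⟩,⟨0,[(1,0),(23,0),(4,0),
  (2,0),(11,2)]⟩⟩,⟨true,0,⟨0,[(24,0),(4,0)]⟩,⟨0,[(30,0),(1,0)]⟩⟩,⟨false,1,⟨10,[(7,1),(7,2),(1,1),(0,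
  0),(8,1),(0,1),(1,1),(16,5)]⟩,⟨0,[(45,0)]⟩⟩,⟨false,0,⟨0,[(2,0)]⟩,⟨21,[(0,19),(7,3),(7,5),(5,1),(4,
  0),(2,21),(9,4),(6,11)]⟩⟩,⟨true,0,⟨0,[]⟩,⟨0,[(49,0)]⟩⟩,⟨false,0,⟨0,[(2,0),(42,0)]⟩,⟨73,[(0,47),(7,
  17),(6,11),(1,37),(9,12),(2,73),(9,8),(2,33),(3,21)]⟩⟩,[.o ⟨false,0,⟨0,[(33,0),(11,0)]⟩,⟨0,[(22,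
  0),(24,0)]⟩⟩,.a ⟨true,0,⟨1,[(12,0),(16,0),(0,0),(14,1)]⟩,⟨1,[(4,0),(13,0),(6,0),(4,0)]⟩⟩ ⟨true,0,
  ⟨0,[(0,0),(12,0)]⟩,⟨0,[(2,0),(27,0),(0,0)]⟩⟩ ⟨false,0,⟨0,[(4,0),(7,0),(32,0)]⟩,⟨7,[(14,3),(2,3),
  (9,0),(0,0),(1,7),(6,3),(9,1)]⟩⟩,.o ⟨false,1,⟨1,[(30,1),(9,0),(5,0)]⟩,⟨9,[(4,6),(2,2),(4,1),(7,0),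
  (11,0),(0,0),(6,1)]⟩⟩,.e ⟨false,1,⟨4,[(0,2),(14,0),(4,0),(6,0),(19,1)]⟩,⟨1,[(1,0),(0,0),(27,1),(0,
  0),(13,0)]⟩⟩ ⟨false,0,⟨0,[(4,0),(7,0),(32,0)]⟩,⟨0,[(22,0),(7,0),(16,0)]⟩⟩]⟩))) (.I [0,1,-1,0,0,0,
  0,1,-1] (.R ⟨1,false,false,false,[1,0,0,-1],[1,0,-1],[0,1,0,0,0,0,0,0,-1],(⟨0,[(28,0)]⟩,⟨0,[(29,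
  0)]⟩),(⟨0,[(37,0)]⟩,⟨0,[(38,0)]⟩),⟨3,[(3,1),(4,0),(0,0),(1,0),(16,1)]⟩,.k,.k,(.x (-1) ⟨15,[(8,3),
  (0,3),(16,6),(0,6),(11,1)]⟩ ⟨0,[(41,0)]⟩),.k,(.x 0 ⟨1,[(5,0),(39,0)]⟩ ⟨7,[(4,3),(1,1),(19,2),(0,
  2),(1,1),(1,1)]⟩),.k,⟨false,0,⟨0,[(0,0)]⟩,⟨1,[(27,0),(8,1),(9,0)]⟩⟩,⟨true,0,⟨4,[(3,2),(2,0),(8,1),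
  (3,0),(8,0),(3,0)]⟩,⟨0,[(23,0),(5,0)]⟩⟩,⟨true,0,⟨0,[(48,0)]⟩,⟨0,[]⟩⟩,⟨false,1,⟨27,[(3,19),(2,7),
  (8,3),(10,0),(0,14),(5,7),(5,1),(6,17)]⟩,⟨0,[(1,0),(9,0),(32,0)]⟩⟩,⟨false,0,⟨0,[(44,0)]⟩,⟨10,[(6,
  1),(7,2),(1,1),(0,0),(8,1),(0,1),(1,1),(16,5)]⟩⟩,⟨false,1,⟨27,[(3,19),(2,7),(8,3),(10,0),(0,14),
  (5,7),(5,1),(4,27),(1,17)]⟩,⟨0,[(1,0),(9,0)]⟩⟩,[.e ⟨false,0,⟨0,[(0,0),(35,0)]⟩,⟨1,[(27,0),(18,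
  0)]⟩⟩ ⟨false,0,⟨0,[(3,0)]⟩,⟨7,[(11,3),(14,0),(0,0),(1,7),(9,1),(5,3)]⟩⟩,.o ⟨false,1,⟨0,[(30,0),
  (15,0)]⟩,⟨0,[(32,0)]⟩⟩,.o ⟨false,1,⟨1,[(29,1),(9,0),(5,0)]⟩,⟨9,[(3,6),(2,2),(4,1),(7,0),(11,0),(0,
  0),(6,1)]⟩⟩,.a ⟨true,0,⟨0,[(29,0)]⟩,⟨0,[(28,0)]⟩⟩ ⟨false,0,⟨0,[(0,0),(16,0),(26,0)]⟩,⟨7,[(6,1),
  (19,0),(0,4),(1,1),(1,1),(14,3)]⟩⟩ ⟨true,0,⟨0,[(3,0)]⟩,⟨0,[(29,0),(2,0)]⟩⟩]⟩) (.R ⟨1,false,false,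
  true,[1,0,0,-1],[0,1],[0,0,0,0,0,0,0,0,-1],(⟨0,[(28,0)]⟩,⟨0,[(29,0)]⟩),(⟨0,[(41,0)]⟩,⟨0,[(40,
  0)]⟩),⟨3,[(3,1),(4,0),(0,0),(1,0),(16,1)]⟩,.k,.k,(.x (-1) ⟨15,[(8,3),(0,3),(16,6),(0,6),(11,1)]⟩
  ⟨0,[(41,0)]⟩),(.x (-1) ⟨15,[(8,3),(0,3),(16,6),(0,6),(11,1)]⟩ ⟨0,[(41,0)]⟩),(.r (-1) ⟨4,[(1,1),(0,
  0),(0,1),(10,3),(10,1),(0,0)]⟩ ⟨1,[(6,0),(20,0),(1,0),(1,0),(12,3)]⟩),.k,⟨false,1,⟨6,[(1,1),(0,4),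
  (8,1),(1,1),(0,0),(2,2),(10,1),(13,1),(2,3)]⟩,⟨0,[(0,0),(23,0),(7,0),(11,1)]⟩⟩,⟨true,0,⟨0,[(28,
  0)]⟩,⟨0,[(23,0),(5,0),(1,0)]⟩⟩,⟨false,1,⟨3,[(26,0),(0,0),(18,1)]⟩,⟨0,[]⟩⟩,⟨false,0,⟨0,[(0,0),(2,
  0),(7,0),(12,0),(19,1)]⟩,⟨19,[(1,15),(9,6),(2,1),(10,0),(0,1),(2,3),(9,5),(6,9)]⟩⟩,⟨true,0,⟨0,
  [(44,0)]⟩,⟨0,[(43,0)]⟩⟩,⟨false,0,⟨0,[(0,0),(2,0),(7,0),(12,0),(19,2)]⟩,⟨52,[(1,44),(8,26),(3,3),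
  (1,12),(8,1),(0,3),(2,7),(9,11),(6,32)]⟩⟩,[.o ⟨false,0,⟨0,[(44,0),(3,0)]⟩,⟨35,[(10,5),(3,1),(1,
  11),(0,1),(21,14),(2,3),(3,18)]⟩⟩,.o ⟨false,0,⟨0,[(44,0)]⟩,⟨4,[(10,0),(5,1),(9,0),(0,0),(11,1),(6,
  0)]⟩⟩,.o ⟨false,1,⟨1,[(29,1),(9,0),(5,0)]⟩,⟨9,[(3,6),(2,2),(4,1),(7,0),(11,0),(0,0),(6,1)]⟩⟩,.a
  ⟨true,0,⟨0,[(29,0)]⟩,⟨0,[(28,0)]⟩⟩ ⟨true,0,⟨0,[(1,0),(1,0),(7,0),(32,0)]⟩,⟨0,[(0,0),(23,0),(7,0),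
  (11,0)]⟩⟩ ⟨false,0,⟨0,[(28,0),(15,0)]⟩,⟨17,[(1,1),(8,3),(5,5),(10,0),(1,15),(9,6),(2,1),(3,
  9)]⟩⟩]⟩))) (.I [0,0,-1,-1,1,0,0,1,-1] (.R ⟨1,false,false,false,[1,0,0,-1],[1,0,-1],[0,0,0,0,0,0,0,
  0,-1],(⟨0,[(27,0)]⟩,⟨0,[(28,0)]⟩),(⟨0,[(36,0)]⟩,⟨0,[(37,0)]⟩),⟨3,[(2,1),(4,0),(0,0),(1,0),(16,
  1)]⟩,.k,.k,(.x (-1) ⟨15,[(7,3),(0,3),(16,6),(0,6),(11,1)]⟩ ⟨0,[(40,0)]⟩),.k,(.r (-1) ⟨0,[(0,0)]⟩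
  ⟨6,[(1,2),(3,1),(20,1),(1,1),(0,1),(5,4),(5,0),(1,6)]⟩),.k,⟨false,1,⟨1,[(6,0),(3,0),(14,0)]⟩,⟨0,
  [(1,0),(33,0)]⟩⟩,⟨true,0,⟨4,[(2,2),(2,0),(8,1),(3,0),(8,0),(3,0)]⟩,⟨0,[(22,0),(5,0)]⟩⟩,⟨false,1,
  ⟨3,[(25,0),(0,0),(18,1)]⟩,⟨0,[]⟩⟩,⟨false,0,⟨7,[(1,5),(0,6),(2,0),(8,0),(11,0),(8,0),(5,3)]⟩,⟨1,
  [(10,0),(1,0),(9,0),(2,0),(2,1)]⟩⟩,⟨true,0,⟨0,[(43,0)]⟩,⟨0,[(42,0)]⟩⟩,⟨false,0,⟨7,[(1,5),(0,6),(2,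
  0),(8,0),(11,0),(8,0),(5,3),(1,7)]⟩,⟨0,[(0,0),(21,0),(5,0)]⟩⟩,[.e ⟨false,1,⟨1,[(25,0),(18,0)]⟩,⟨0,
  [(1,0)]⟩⟩ ⟨false,0,⟨0,[(2,0)]⟩,⟨7,[(10,3),(14,0),(0,0),(1,7),(9,1),(5,3)]⟩⟩,.o ⟨false,1,⟨0,[(29,
  0),(15,0)]⟩,⟨0,[(31,0)]⟩⟩,.o ⟨false,1,⟨1,[(28,1),(9,0),(5,0)]⟩,⟨9,[(2,6),(2,2),(4,1),(7,0),(11,0),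
  (0,0),(6,1)]⟩⟩,.a ⟨true,0,⟨0,[(28,0)]⟩,⟨0,[(27,0)]⟩⟩ ⟨false,1,⟨1,[(6,0),(3,0),(5,1),(8,0),(17,
  1)]⟩,⟨3,[(1,1),(3,0),(20,0),(1,0),(1,0)]⟩⟩ ⟨true,0,⟨0,[(2,0)]⟩,⟨0,[(28,0),(2,0)]⟩⟩]⟩) (.R ⟨1,
  false,false,false,[1,0,0,-1],[1,0,-1],[0,0,0,0,0,0,0,0,-1],(⟨0,[(27,0)]⟩,⟨0,[(28,0)]⟩),(⟨0,[(36,
  0)]⟩,⟨0,[(37,0)]⟩),⟨3,[(2,1),(4,0),(0,0),(1,0),(16,1)]⟩,.k,.k,(.x (-1) ⟨15,[(7,3),(0,3),(16,6),(0,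
  6),(11,1)]⟩ ⟨0,[(40,0)]⟩),.k,(.x 0 ⟨1,[(4,0),(39,0)]⟩ ⟨7,[(3,3),(1,1),(19,2),(0,2),(1,1),(1,1)]⟩),
  .k,⟨false,1,⟨1,[(6,0),(3,0),(14,0)]⟩,⟨7,[(0,3),(14,0),(0,1),(7,0),(1,1),(5,0),(11,1)]⟩⟩,⟨true,0,
  ⟨4,[(2,2),(2,0),(8,1),(3,0),(8,0),(3,0)]⟩,⟨0,[(22,0),(5,0)]⟩⟩,⟨false,1,⟨3,[(25,0),(0,0),(18,1)]⟩,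
  ⟨0,[]⟩⟩,⟨false,0,⟨37,[(0,2),(0,20),(0,33),(2,3),(8,2),(0,0),(7,0),(2,6),(14,19)]⟩,⟨1,[(10,0),(1,
  0),(9,0),(2,0),(2,1)]⟩⟩,⟨true,0,⟨0,[(43,0)]⟩,⟨0,[(42,0)]⟩⟩,⟨false,0,⟨14,[(0,10),(1,13),(2,0),(8,
  0),(3,4),(7,1),(16,3),(1,4)]⟩,⟨3,[(9,1),(2,1),(3,0),(0,0),(4,0),(2,1),(2,3)]⟩⟩,[.e ⟨false,1,⟨1,
  [(25,0),(18,0)]⟩,⟨0,[(1,0)]⟩⟩ ⟨false,0,⟨0,[(2,0)]⟩,⟨7,[(10,3),(14,0),(0,0),(1,7),(9,1),(5,3)]⟩⟩,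
  .o ⟨false,1,⟨0,[(29,0),(15,0)]⟩,⟨0,[(31,0)]⟩⟩,.o ⟨false,1,⟨1,[(28,1),(9,0),(5,0)]⟩,⟨9,[(2,6),(2,
  2),(4,1),(7,0),(11,0),(0,0),(6,1)]⟩⟩,.a ⟨true,0,⟨0,[(28,0)]⟩,⟨0,[(27,0)]⟩⟩ ⟨false,1,⟨1,[(6,0),(3,
  0),(5,1),(8,0),(17,1)]⟩,⟨17,[(0,3),(4,2),(5,2),(2,1),(0,0),(1,1),(8,6),(1,2)]⟩⟩ ⟨true,0,⟨0,[(2,
  0)]⟩,⟨0,[(28,0),(2,0)]⟩⟩]⟩))) (.Q [0,-1,1,0,0,0,-1,-1,1,0,1,-1] (.p true [0,0,1] [0,0,0,1] (⟨0,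
  [(35,0)]⟩,⟨0,[(34,0)]⟩) .k 2 (⟨0,[(26,0)]⟩,⟨0,[(25,0)]⟩) .k (.x (-1) ⟨7,[(22,3),(0,0),(0,0),(10,
  7),(0,1),(5,3)]⟩ ⟨2,[(1,0),(1,0),(1,0),(20,0),(1,1)]⟩)) (.Q [0,0,0,0,0,-1,0,0,0,1,0,-1] (.p false
  [0,0,0,1] [1] (⟨0,[(27,0)]⟩,⟨0,[(26,0)]⟩) .k 1 (⟨0,[]⟩,⟨0,[]⟩) .k .k) (.I [1,0,0,0,0,0,0,0,1] (.I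
  [0,0,-1,-1,1,0,0,1,-1] (.R ⟨1,false,false,false,[1,0,0,-1],[1,0,-1],[0,0,0,0,0,0,0,0,-1],(⟨0,[(29,
  0)]⟩,⟨0,[(30,0)]⟩),(⟨0,[(38,0)]⟩,⟨0,[(39,0)]⟩),⟨0,[(2,0)]⟩,.k,.k,(.x (-1) ⟨15,[(9,3),(0,3),(16,6),
  (0,6),(11,1)]⟩ ⟨0,[(42,0)]⟩),.k,(.r (-1) ⟨0,[(0,0)]⟩ ⟨4,[(1,1),(1,0),(3,0),(20,0),(1,1),(0,0),(3,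
  0),(1,2),(7,4)]⟩),.k,⟨false,1,⟨1,[(8,0),(3,0),(14,0)]⟩,⟨0,[(1,0),(35,0)]⟩⟩,⟨true,0,⟨0,[(29,0),(2,
  0)]⟩,⟨0,[(4,0),(32,0)]⟩⟩,⟨false,1,⟨3,[(27,0),(0,0),(18,1)]⟩,⟨0,[]⟩⟩,⟨false,0,⟨0,[(3,0)]⟩,⟨1,[(4,
  1),(22,0),(18,0)]⟩⟩,⟨true,0,⟨0,[(45,0)]⟩,⟨0,[(44,0)]⟩⟩,⟨false,0,⟨0,[(3,0),(41,0)]⟩,⟨17,[(4,15),
  (10,5),(1,1),(0,1),(7,1),(0,8),(2,1),(15,2)]⟩⟩,[.a ⟨true,0,⟨0,[(18,0),(6,0),(19,1)]⟩,⟨1,[(12,0),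
  (16,0),(0,0)]⟩⟩ ⟨false,1,⟨1,[(27,0),(18,0)]⟩,⟨0,[(1,0)]⟩⟩ ⟨true,0,⟨6,[(3,1),(3,0),(8,0),(10,0),(1,
  3),(1,3),(5,0),(5,0)]⟩,⟨0,[(4,0)]⟩⟩,.o ⟨false,1,⟨0,[(31,0),(15,0)]⟩,⟨0,[(33,0)]⟩⟩,.o ⟨false,1,⟨1,
  [(30,1),(9,0),(5,0)]⟩,⟨0,[(7,0),(6,0)]⟩⟩,.e ⟨false,1,⟨1,[(8,0),(3,0),(5,1),(8,0),(17,1)]⟩,⟨3,[(1,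
  1),(5,0),(20,0),(1,0),(1,0)]⟩⟩ ⟨false,1,⟨1,[(3,1),(23,0),(18,0)]⟩,⟨0,[(4,0)]⟩⟩]⟩) (.R ⟨1,false,
  false,false,[1,0,0,-1],[1,0,-1],[0,0,0,0,0,0,0,0,-1],(⟨0,[(29,0)]⟩,⟨0,[(30,0)]⟩),(⟨0,[(38,0)]⟩,⟨0,
  [(39,0)]⟩),⟨0,[(2,0)]⟩,.k,.k,(.x (-1) ⟨15,[(9,3),(0,3),(16,6),(0,6),(11,1)]⟩ ⟨0,[(42,0)]⟩),.k,(.x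
  0 ⟨1,[(6,0),(39,0)]⟩ ⟨7,[(5,3),(1,1),(19,2),(0,2),(1,1),(1,1)]⟩),.k,⟨false,1,⟨1,[(8,0),(3,0),(14,
  0)]⟩,⟨7,[(0,3),(16,0),(0,1),(7,0),(1,1),(5,0),(11,1)]⟩⟩,⟨true,0,⟨0,[(29,0),(2,0)]⟩,⟨0,[(4,0),(32,
  0)]⟩⟩,⟨false,1,⟨3,[(27,0),(0,0),(18,1)]⟩,⟨0,[]⟩⟩,⟨false,0,⟨0,[(3,0)]⟩,⟨1,[(4,1),(22,0),(18,0)]⟩⟩,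
  ⟨true,0,⟨0,[(45,0)]⟩,⟨0,[(44,0)]⟩⟩,⟨false,0,⟨0,[(3,0),(41,0)]⟩,⟨17,[(4,15),(10,5),(1,1),(0,1),(7,
  1),(0,8),(2,1),(15,2)]⟩⟩,[.a ⟨true,0,⟨8,[(0,5),(4,0),(2,1),(9,2),(6,2),(1,2),(11,1),(1,1)]⟩,⟨1,
  [(12,0),(16,0),(0,0)]⟩⟩ ⟨false,1,⟨1,[(27,0),(18,0)]⟩,⟨0,[(1,0)]⟩⟩ ⟨true,0,⟨14,[(0,0),(2,4),(3,1),
  (8,1),(1,0),(8,2),(1,7),(1,7),(11,0)]⟩,⟨0,[(4,0)]⟩⟩,.o ⟨false,1,⟨0,[(31,0),(15,0)]⟩,⟨0,[(33,0)]⟩⟩,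
  .o ⟨false,1,⟨1,[(30,1),(9,0),(5,0)]⟩,⟨0,[(7,0),(6,0)]⟩⟩,.e ⟨false,1,⟨1,[(8,0),(3,0),(5,1),(8,0),
  (17,1)]⟩,⟨37,[(0,7),(3,5),(2,6),(5,4),(2,3),(0,2),(7,1),(2,14),(1,0)]⟩⟩ ⟨false,1,⟨1,[(3,1),(23,0),
  (18,0)]⟩,⟨0,[(4,0)]⟩⟩]⟩)) (.R ⟨1,false,false,false,[1,0,0,-1],[0,1],[0,1,0,0,0,0,0,0,-1],(⟨0,[(28,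
  0)]⟩,⟨0,[(29,0)]⟩),(⟨0,[(41,0)]⟩,⟨0,[(40,0)]⟩),⟨0,[(1,0)]⟩,.k,.k,(.x (-1) ⟨15,[(8,3),(0,3),(16,6),
  (0,6),(11,1)]⟩ ⟨0,[(41,0)]⟩),(.x (-1) ⟨15,[(8,3),(0,3),(16,6),(0,6),(11,1)]⟩ ⟨0,[(41,0)]⟩),(.r
  (-1) ⟨5,[(0,5),(13,3),(1,0),(0,1),(7,0),(7,0),(11,1)]⟩ ⟨1,[(6,0),(20,0),(1,0),(1,0),(12,3)]⟩),.k,
  ⟨false,1,⟨0,[(0,0),(42,0),(1,0)]⟩,⟨0,[(2,0),(0,0),(40,0)]⟩⟩,⟨true,0,⟨0,[(28,0)]⟩,⟨5,[(3,3),(2,0),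
  (22,2),(0,3),(0,0),(7,0),(2,1)]⟩⟩,⟨true,0,⟨0,[(48,0)]⟩,⟨0,[]⟩⟩,⟨false,0,⟨1,[(2,1),(8,0),(16,0),(0,
  0),(14,1)]⟩,⟨1,[(3,1),(9,0),(3,0),(3,0),(4,0)]⟩⟩,⟨false,0,⟨0,[(44,0)]⟩,⟨10,[(6,1),(7,2),(1,1),(0,
  0),(8,1),(0,1),(1,1),(16,5)]⟩⟩,⟨false,0,⟨1,[(2,1),(8,0),(16,0),(0,0),(14,3)]⟩,⟨22,[(0,0),(2,22),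
  (9,8),(0,2),(1,13),(0,11),(8,10),(15,0)]⟩⟩,[.o ⟨false,0,⟨0,[(44,0)]⟩,⟨4,[(10,0),(5,1),(9,0),(0,0),
  (11,1),(6,0)]⟩⟩,.e ⟨true,0,⟨0,[(0,0)]⟩,⟨0,[(2,0),(0,0),(44,0)]⟩⟩ ⟨true,0,⟨5,[(6,0),(21,4),(6,0),
  (6,1),(1,5),(1,0)]⟩,⟨0,[(3,0),(17,0)]⟩⟩,.o ⟨false,1,⟨1,[(29,1),(9,0),(5,0)]⟩,⟨0,[(6,0),(6,0)]⟩⟩,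
  .a ⟨true,0,⟨0,[(29,0)]⟩,⟨0,[(28,0)]⟩⟩ ⟨false,1,⟨1,[(26,0),(18,0)]⟩,⟨0,[(2,0),(0,0)]⟩⟩ ⟨true,0,⟨0,
  [(28,0),(15,0)]⟩,⟨0,[(3,0),(17,0)]⟩⟩]⟩)) (.I [0,0,0,0,0,0,0,0,1] (.R ⟨0,false,false,false,[1,0,0,
  -1],[1,0,-1],[1,0,0,0,0,0,0,0,-1],(⟨0,[(28,0)]⟩,⟨0,[(29,0)]⟩),(⟨0,[(37,0)]⟩,⟨0,[(38,0)]⟩),⟨0,[(1,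
  0)]⟩,.k,.k,(.x (-1) ⟨15,[(8,3),(0,3),(16,6),(0,6),(11,1)]⟩ ⟨0,[(41,0)]⟩),.k,.k,.k,⟨false,1,⟨1,[(7,
  0),(3,0),(14,0)]⟩,⟨0,[(0,0),(35,0)]⟩⟩,⟨true,0,⟨0,[(28,0),(2,0)]⟩,⟨9,[(1,5),(3,0),(2,1),(16,3),(3,
  3),(15,0)]⟩⟩,⟨true,0,⟨0,[]⟩,⟨0,[(48,0)]⟩⟩,⟨false,0,⟨0,[(2,0)]⟩,⟨1,[(3,1),(22,0),(18,0)]⟩⟩,⟨false,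
  0,⟨0,[]⟩,⟨0,[]⟩⟩,⟨false,0,⟨0,[]⟩,⟨0,[]⟩⟩,[.a ⟨true,0,⟨0,[(17,0),(6,0),(19,1)]⟩,⟨1,[(11,0),(16,0),
  (0,0)]⟩⟩ ⟨false,1,⟨1,[(26,0),(18,0)]⟩,⟨0,[(0,0)]⟩⟩ ⟨true,0,⟨6,[(2,1),(3,0),(8,0),(10,0),(1,3),(1,
  3),(5,0),(5,0)]⟩,⟨0,[(3,0)]⟩⟩,.o ⟨false,1,⟨0,[(30,0),(15,0)]⟩,⟨0,[(32,0)]⟩⟩,.o ⟨false,1,⟨1,[(29,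
  1),(9,0),(5,0)]⟩,⟨0,[(6,0),(6,0)]⟩⟩,.e ⟨false,1,⟨1,[(7,0),(3,0),(5,1),(8,0),(17,1)]⟩,⟨37,[(0,15),
  (0,5),(3,0),(0,9),(1,1),(6,5),(11,10),(1,3)]⟩⟩ ⟨false,1,⟨1,[(2,1),(23,0),(18,0)]⟩,⟨0,[(3,0)]⟩⟩]⟩)
  (.I [1,0,0,-1,0,0,0,0,-1] (.R ⟨0,false,false,false,[1,0,0,-1],[0,1],[1,1,0,-1,0,0,0,0,-1],(⟨0,
  [(29,0)]⟩,⟨0,[(30,0)]⟩),(⟨0,[(42,0)]⟩,⟨0,[(41,0)]⟩),⟨0,[(2,0)]⟩,.k,.k,(.x (-1) ⟨15,[(9,3),(0,3),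
  (16,6),(0,6),(11,1)]⟩ ⟨0,[(42,0)]⟩),(.x (-1) ⟨15,[(9,3),(0,3),(16,6),(0,6),(11,1)]⟩ ⟨0,[(42,0)]⟩),
  .k,.k,⟨false,1,⟨0,[(0,0),(43,0),(1,0)]⟩,⟨0,[(3,0),(0,0),(40,1)]⟩⟩,⟨true,0,⟨0,[(29,0)]⟩,⟨11,[(2,5),
  (3,0),(0,1),(1,1),(20,7),(1,3),(7,2)]⟩⟩,⟨true,0,⟨0,[(44,0)]⟩,⟨0,[(45,0)]⟩⟩,⟨false,0,⟨1,[(3,1),(8,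
  0),(16,0),(0,0),(14,1)]⟩,⟨17,[(2,5),(1,11),(1,0),(2,1),(4,7),(2,5),(0,5),(8,8),(18,1)]⟩⟩,⟨false,0,
  ⟨0,[]⟩,⟨0,[]⟩⟩,⟨false,0,⟨0,[]⟩,⟨0,[]⟩⟩,[.o ⟨false,0,⟨0,[(45,0)]⟩,⟨4,[(11,0),(5,1),(9,0),(0,0),(11,
  1),(6,0)]⟩⟩,.e ⟨true,0,⟨0,[(0,0)]⟩,⟨0,[(3,0),(0,0),(40,0),(3,0)]⟩⟩ ⟨true,0,⟨5,[(7,0),(21,4),(6,0),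
  (6,1),(1,5),(1,0)]⟩,⟨0,[(4,0),(17,0)]⟩⟩,.o ⟨false,1,⟨1,[(30,1),(9,0),(5,0)]⟩,⟨0,[(7,0),(6,0)]⟩⟩,
  .a ⟨true,0,⟨0,[(30,0)]⟩,⟨0,[(29,0)]⟩⟩ ⟨false,1,⟨11,[(15,3),(1,0),(0,1),(7,0),(0,5),(6,0),(11,1)]⟩,
  ⟨0,[(3,0),(0,0),(40,0)]⟩⟩ ⟨true,0,⟨0,[(29,0),(15,0)]⟩,⟨0,[(4,0),(17,0)]⟩⟩]⟩) (.R ⟨1,false,false,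
  false,[0,0,0,1],[0,0,1],[0,1,0,0,0,0,0,0,1],(⟨0,[(30,0)]⟩,⟨0,[(29,0)]⟩),(⟨0,[(39,0)]⟩,⟨0,[(38,
  0)]⟩),⟨2,[(2,0),(6,0),(0,0),(19,1)]⟩,.k,.k,(.r (-1) ⟨11,[(15,3),(1,0),(0,1),(7,0),(1,5),(5,0),(11,
  1)]⟩ ⟨37,[(1,15),(0,5),(3,0),(0,9),(1,1),(6,5),(10,10),(2,3),(14,37)]⟩),.k,(.r (-1) ⟨3,[(17,0),(0,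
  1),(7,0),(1,1),(5,0),(11,1)]⟩ ⟨6,[(1,4),(2,0),(2,0),(4,2),(3,3),(10,0),(17,6)]⟩),.k,⟨true,0,⟨1,
  [(0,1),(16,0),(8,0),(7,0)]⟩,⟨0,[(1,0),(11,0)]⟩⟩,⟨false,1,⟨9,[(2,5),(3,0),(2,1),(16,3),(3,3),(15,
  10)]⟩,⟨0,[(29,0),(2,0)]⟩⟩,⟨true,0,⟨0,[(49,0)]⟩,⟨0,[]⟩⟩,⟨false,1,⟨1,[(1,1),(2,1),(41,0),(0,0)]⟩,⟨6,
  [(0,0),(2,3),(3,0),(17,0),(2,0),(0,1),(1,2)]⟩⟩,⟨false,0,⟨0,[(45,0)]⟩,⟨10,[(7,1),(7,2),(1,1),(0,0),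
  (8,1),(0,1),(1,1),(16,5)]⟩⟩,⟨false,1,⟨1,[(1,1),(2,1),(40,1),(0,0),(0,0)]⟩,⟨28,[(0,3),(2,16),(3,3),
  (3,0),(5,12),(0,0),(6,4),(2,3),(0,7)]⟩⟩,[.a ⟨true,0,⟨1,[(12,0),(16,0),(0,0)]⟩,⟨0,[(18,0),(6,0),
  (19,1)]⟩⟩ ⟨true,0,⟨0,[(0,0),(43,0)]⟩,⟨75,[(1,53),(0,5),(3,0),(0,9),(1,1),(6,5),(10,10),(2,3),(12,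
  37)]⟩⟩ ⟨false,1,⟨0,[(4,0),(41,0)]⟩,⟨13,[(1,2),(1,6),(3,1),(8,0),(10,1),(1,4),(1,5),(2,0)]⟩⟩,.o
  ⟨false,1,⟨7,[(12,3),(14,0),(0,0),(11,1),(6,3)]⟩,⟨0,[(31,0)]⟩⟩,.o ⟨false,0,⟨0,[(7,0),(6,0)]⟩,⟨1,
  [(30,1),(9,0),(5,0)]⟩⟩,.o ⟨false,0,⟨27,[(7,15),(8,7),(10,2),(0,2),(0,11),(10,9)]⟩,⟨5,[(2,5),(3,0),
  (2,1),(4,1),(31,4)]⟩⟩]⟩)))) (.Q [0,1,1,0,0,0,0,0,1,0,0,-1] (.p false [0,0,0,1] [] (⟨0,[(27,0)]⟩,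
  ⟨0,[(26,0)]⟩) .k 0 (⟨0,[]⟩,⟨0,[]⟩) .k .k) (.K ⟨0,[0,0,0,1],0,0,(⟨0,[(28,0)]⟩,⟨0,[(27,0)]⟩),.k,(.r
  (-1) ⟨11,[(13,3),(1,0),(0,1),(7,0),(1,5),(5,0),(11,1)]⟩ ⟨2,[(1,0),(3,0),(8,0),(1,0),(8,0),(17,
  3)]⟩),(.x 0 ⟨0,[(40,0)]⟩ ⟨15,[(7,3),(0,3),(16,6),(0,6),(11,1)]⟩),.k,.k,[⟨0,[(28,0)]⟩,⟨0,[(27,0)]⟩,
  ⟨0,[(1,0),(14,0),(6,0),(19,1)]⟩,⟨0,[(0,0)]⟩]⟩) (.I [0,0,-1,0,0,0,0,0,-1] (.Q [0,0,0,0,0,1,0,0,0,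
  -1,0,1] (.p true [0,0,0,1] [1] (⟨0,[(29,0)]⟩,⟨0,[(28,0)]⟩) .k 1 (⟨0,[]⟩,⟨0,[]⟩) .k .k) (.I [0,1,
  -1,0,0,0,0,1,-1] (.R ⟨0,false,false,false,[1,0,0,-1],[1,0,-1],[0,1,0,0,0,0,0,0,-1],(⟨0,[(30,0)]⟩,
  ⟨0,[(31,0)]⟩),(⟨0,[(39,0)]⟩,⟨0,[(40,0)]⟩),⟨0,[(1,0)]⟩,.k,.k,(.x (-1) ⟨15,[(10,3),(0,3),(16,6),(0,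
  6),(11,1)]⟩ ⟨0,[(43,0)]⟩),.k,.k,.k,⟨false,0,⟨0,[(0,0)]⟩,⟨1,[(29,0),(8,1),(9,0)]⟩⟩,⟨true,0,⟨0,[(30,
  0),(2,0)]⟩,⟨9,[(1,5),(5,0),(2,1),(16,3),(3,3),(15,0)]⟩⟩,⟨true,0,⟨0,[(50,0)]⟩,⟨0,[]⟩⟩,⟨false,1,⟨9,
  [(8,1),(8,1),(11,4),(0,7),(1,7),(5,1),(5,1),(3,6)]⟩,⟨1,[(0,0),(2,0),(1,0),(19,0)]⟩⟩,⟨false,0,⟨0,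
  []⟩,⟨0,[]⟩⟩,⟨false,0,⟨0,[]⟩,⟨0,[]⟩⟩,[.a ⟨true,0,⟨0,[(19,0),(6,0),(19,1)]⟩,⟨1,[(13,0),(16,0),(0,
  0)]⟩⟩ ⟨false,0,⟨3,[(0,1),(1,1),(24,0),(4,0),(2,0)]⟩,⟨1,[(29,0),(18,0)]⟩⟩ ⟨true,0,⟨4,[(8,0),(8,0),
  (12,3),(1,3),(5,0),(5,0),(3,0)]⟩,⟨0,[(5,0)]⟩⟩,.o ⟨false,1,⟨0,[(32,0),(15,0)]⟩,⟨0,[(34,0)]⟩⟩,.o
  ⟨false,1,⟨1,[(31,1),(9,0),(5,0)]⟩,⟨0,[(8,0),(6,0)]⟩⟩,.e ⟨false,0,⟨0,[(2,0)]⟩,⟨7,[(8,1),(19,0),(0,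
  4),(1,1),(1,1),(14,3)]⟩⟩ ⟨false,1,⟨0,[(30,0),(1,0),(15,0)]⟩,⟨0,[(5,0)]⟩⟩]⟩) (.I [1,0,1,2,0,0,0,0,
  1] (.R ⟨0,false,false,true,[1,0,0,-1],[1,0,-1],[0,1,0,0,0,0,0,-1],(⟨0,[(31,0)]⟩,⟨0,[(32,0)]⟩),(⟨0,
  [(40,0)]⟩,⟨0,[(41,0)]⟩),⟨0,[(2,0)]⟩,.k,.k,(.x (-1) ⟨15,[(11,3),(0,3),(16,6),(0,6),(11,1)]⟩ ⟨0,
  [(44,0)]⟩),.k,.k,.k,⟨false,1,⟨3,[(29,0),(0,0),(17,1)]⟩,⟨0,[]⟩⟩,⟨true,0,⟨0,[(31,0),(2,0)]⟩,⟨9,[(2,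
  5),(5,0),(2,1),(16,3),(3,3),(15,0)]⟩⟩,⟨false,1,⟨3,[(29,0),(0,2),(8,3)]⟩,⟨0,[(3,0),(11,0)]⟩⟩,⟨true,
  0,⟨0,[(0,0),(18,0),(11,0)]⟩,⟨0,[(4,0),(30,0)]⟩⟩,⟨false,0,⟨0,[]⟩,⟨0,[]⟩⟩,⟨false,0,⟨0,[]⟩,⟨0,[]⟩⟩,
  [.o ⟨false,0,⟨0,[(33,0)]⟩,⟨7,[(14,3),(14,0),(0,0),(11,1),(6,3)]⟩⟩,.e ⟨true,0,⟨0,[(39,0)]⟩,⟨22,[(0,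
  0),(4,0),(0,3),(2,4),(4,2),(3,7),(3,4),(4,1),(7,1)]⟩⟩ ⟨true,0,⟨51,[(1,9),(7,5),(8,7),(10,4),(1,
  45),(1,41),(8,0),(2,15)]⟩,⟨0,[(6,0)]⟩⟩,.o ⟨false,1,⟨1,[(32,1),(9,0),(5,0)]⟩,⟨0,[(9,0),(6,0)]⟩⟩,.a
  ⟨true,0,⟨0,[(32,0)]⟩,⟨0,[(31,0)]⟩⟩ ⟨false,1,⟨3,[(29,0),(0,0),(8,3),(8,1)]⟩,⟨0,[(15,0)]⟩⟩ ⟨true,0,
  ⟨0,[(31,0),(1,0)]⟩,⟨0,[(6,0)]⟩⟩]⟩) (.Q [0,-1,-1,-1,0,0,-1,-1,-1,-1,1,1] (.p true [0,0,1] [1,0,0,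
  -1] (⟨0,[(41,0)]⟩,⟨0,[(40,0)]⟩) .k 2 (⟨0,[(31,0)]⟩,⟨0,[(32,0)]⟩) .k (.r (-1) ⟨1,[(22,0),(7,0),(20,
  0)]⟩ ⟨4,[(3,1),(0,0),(4,0),(19,0),(3,0),(5,3)]⟩)) (.R ⟨0,false,false,true,[1,0,0,-1],[0,1],[1,0,
  1],(⟨0,[(32,0)]⟩,⟨0,[(33,0)]⟩),(⟨0,[(45,0)]⟩,⟨0,[(44,0)]⟩),⟨0,[(3,0)]⟩,.k,.k,(.x (-1) ⟨15,[(12,3),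
  (0,3),(16,6),(0,6),(11,1)]⟩ ⟨0,[(45,0)]⟩),(.x (-1) ⟨15,[(12,3),(0,3),(16,6),(0,6),(11,1)]⟩ ⟨0,
  [(45,0)]⟩),.k,.k,⟨false,1,⟨11,[(18,3),(2,3),(8,0),(0,0),(17,1),(0,3)]⟩,⟨0,[(48,0),(3,0)]⟩⟩,⟨true,
  0,⟨0,[(32,0)]⟩,⟨11,[(3,5),(5,0),(0,1),(1,1),(20,7),(1,3),(7,2)]⟩⟩,⟨false,1,⟨63,[(2,43),(4,3),(2,
  3),(12,19),(6,18),(0,28),(3,3),(3,3)]⟩,⟨0,[(4,0)]⟩⟩,⟨true,0,⟨0,[(2,0),(25,0),(3,0),(3,0),(11,1)]⟩,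
  ⟨0,[(0,0),(35,0)]⟩⟩,⟨false,0,⟨0,[]⟩,⟨0,[]⟩⟩,⟨false,0,⟨0,[]⟩,⟨0,[]⟩⟩,[.o ⟨false,0,⟨0,[(48,0),(3,
  0)]⟩,⟨35,[(14,5),(3,1),(1,11),(0,1),(21,14),(2,3),(3,18)]⟩⟩,.o ⟨false,0,⟨0,[(48,0)]⟩,⟨4,[(14,0),
  (5,1),(9,0),(0,0),(11,1),(6,0)]⟩⟩,.o ⟨false,1,⟨1,[(33,1),(9,0),(5,0)]⟩,⟨0,[(10,0),(6,0)]⟩⟩,.a
  ⟨true,0,⟨0,[(33,0)]⟩,⟨0,[(32,0)]⟩⟩ ⟨true,0,⟨0,[]⟩,⟨0,[(52,0)]⟩⟩ ⟨false,0,⟨0,[(32,0),(15,0)]⟩,⟨3,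
  [(7,1),(12,1),(12,1),(9,0),(6,2)]⟩⟩]⟩) (.Q [0,0,0,-1,0,0,-1,-1,0,-1,1,1] (.p true [0,0,1] [1,0,0,
  -1] (⟨0,[(42,0)]⟩,⟨0,[(41,0)]⟩) .k 2 (⟨0,[(32,0)]⟩,⟨0,[(33,0)]⟩) .k (.r (-1) ⟨191,[(0,23),(5,23),
  (4,3),(7,7),(3,71),(4,23),(1,6),(0,102),(11,5)]⟩ ⟨4,[(4,1),(0,0),(4,0),(19,0),(3,0),(5,3)]⟩)) (.R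
  ⟨0,false,false,true,[1,0,0,-1],[0,1,1],[0,1,1,1,0,0,0,1],(⟨0,[(33,0)]⟩,⟨0,[(34,0)]⟩),(⟨0,[(43,0),
  (2,0)]⟩,⟨0,[(25,0)]⟩),⟨0,[(4,0)]⟩,.k,.k,(.x (-1) ⟨15,[(13,3),(0,3),(16,6),(0,6),(11,1)]⟩ ⟨0,[(46,
  0)]⟩),(.r 0 ⟨1,[(2,0),(2,0),(35,1)]⟩ ⟨15,[(1,7),(22,3),(6,2),(0,6),(1,7),(1,7),(12,7),(1,1)]⟩),.k,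
  .k,⟨false,1,⟨3,[(31,0),(0,0),(17,1)]⟩,⟨0,[]⟩⟩,⟨true,0,⟨0,[(28,0),(4,0)]⟩,⟨0,[(34,0),(1,0)]⟩⟩,
  ⟨false,1,⟨15,[(1,7),(22,3),(6,2),(0,6),(1,7),(1,7),(12,7),(1,1)]⟩,⟨0,[(5,0),(16,0)]⟩⟩,⟨true,0,⟨0,
  [(1,0)]⟩,⟨0,[(6,0),(19,0)]⟩⟩,⟨false,0,⟨0,[]⟩,⟨0,[]⟩⟩,⟨false,0,⟨0,[]⟩,⟨0,[]⟩⟩,[.o ⟨false,0,⟨0,[(37,
  0),(11,0)]⟩,⟨0,[(26,0),(24,0)]⟩⟩,.e ⟨true,0,⟨5,[(1,0),(5,0),(0,0),(2,0),(5,0),(2,1),(3,0),(24,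
  4)]⟩,⟨3,[(21,0),(0,1),(7,0),(7,0)]⟩⟩ ⟨true,0,⟨12,[(1,10),(3,8),(5,1),(12,0),(6,0),(15,4),(1,1)]⟩,
  ⟨0,[(0,0)]⟩⟩,.o ⟨false,1,⟨1,[(34,1),(9,0),(5,0)]⟩,⟨0,[(11,0),(6,0)]⟩⟩,.a ⟨true,0,⟨0,[(34,0)]⟩,⟨0,
  [(33,0)]⟩⟩ ⟨false,1,⟨35,[(1,5),(5,5),(4,1),(7,3),(3,11),(6,10),(0,10),(16,29)]⟩,⟨0,[(22,0)]⟩⟩
  ⟨true,0,⟨0,[(1,0),(3,0)]⟩,⟨0,[(0,0)]⟩⟩]⟩) (.R ⟨0,false,false,true,[1,0,0,-1],[0,1,1],[0,1,1,1,0,0,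
  0,1],(⟨0,[(33,0)]⟩,⟨0,[(34,0)]⟩),(⟨0,[(43,0),(2,0)]⟩,⟨0,[(25,0)]⟩),⟨0,[(4,0)]⟩,.k,.k,(.x (-1) ⟨15,
  [(13,3),(0,3),(16,6),(0,6),(11,1)]⟩ ⟨0,[(46,0)]⟩),(.r 0 ⟨1,[(2,0),(2,0),(35,1)]⟩ ⟨15,[(1,7),(22,
  3),(6,2),(0,6),(1,7),(1,7),(12,7),(1,1)]⟩),.k,.k,⟨false,1,⟨3,[(31,0),(0,0),(17,1)]⟩,⟨0,[]⟩⟩,⟨true,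
  0,⟨0,[(28,0),(4,0)]⟩,⟨0,[(34,0),(1,0)]⟩⟩,⟨false,1,⟨15,[(1,7),(22,3),(6,2),(0,6),(1,7),(1,7),(12,
  7),(1,1)]⟩,⟨0,[(5,0),(16,0)]⟩⟩,⟨true,0,⟨0,[(1,0)]⟩,⟨0,[(6,0),(19,0)]⟩⟩,⟨false,0,⟨0,[]⟩,⟨0,[]⟩⟩,
  ⟨false,0,⟨0,[]⟩,⟨0,[]⟩⟩,[.o ⟨false,0,⟨0,[(37,0),(11,0)]⟩,⟨0,[(26,0),(24,0)]⟩⟩,.a ⟨true,0,⟨0,[(1,
  0),(4,0)]⟩,⟨2,[(3,0),(2,0),(15,0),(6,1),(3,0),(1,0)]⟩⟩ ⟨true,0,⟨5,[(1,0),(5,0),(0,0),(2,0),(5,0),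
  (2,1),(3,0),(24,4)]⟩,⟨3,[(21,0),(0,1),(7,0),(7,0)]⟩⟩ ⟨false,0,⟨0,[(0,0)]⟩,⟨3,[(3,0),(2,0),(11,1),
  (2,1),(9,0),(0,0),(1,2),(6,0)]⟩⟩,.o ⟨false,1,⟨1,[(34,1),(9,0),(5,0)]⟩,⟨0,[(11,0),(6,0)]⟩⟩,.e
  ⟨false,1,⟨35,[(1,5),(5,5),(4,1),(7,3),(3,11),(6,10),(0,10),(16,29)]⟩,⟨0,[(22,0)]⟩⟩ ⟨false,0,⟨0,
  [(0,0)]⟩,⟨0,[(26,0),(7,0),(16,0)]⟩⟩]⟩))))) (.Q [0,0,-1,0,0,0,0,0,-1,-1,0,1] (.p true [0,0,0,1]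
  [1] (⟨0,[(30,0)]⟩,⟨0,[(29,0)]⟩) .k 1 (⟨0,[]⟩,⟨0,[]⟩) .k .k) (.I [0,1,-1,0,0,0,0,1,-1] (.R ⟨1,
  false,false,false,[1,0,0,-1],[1,0,-1],[0,1,0,0,0,0,0,0,-1],(⟨0,[(31,0)]⟩,⟨0,[(32,0)]⟩),(⟨0,[(40,
  0)]⟩,⟨0,[(41,0)]⟩),⟨0,[(2,0)]⟩,.k,.k,(.x (-1) ⟨15,[(11,3),(0,3),(16,6),(0,6),(11,1)]⟩ ⟨0,[(44,
  0)]⟩),.k,(.x 0 ⟨1,[(8,0),(39,0)]⟩ ⟨7,[(7,3),(1,1),(19,2),(0,2),(1,1),(1,1)]⟩),.k,⟨false,0,⟨0,[(0,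
  0)]⟩,⟨1,[(30,0),(8,1),(9,0)]⟩⟩,⟨true,0,⟨0,[(31,0),(2,0)]⟩,⟨0,[(6,0),(32,0)]⟩⟩,⟨true,0,⟨0,[(51,
  0)]⟩,⟨0,[]⟩⟩,⟨false,1,⟨9,[(9,1),(8,1),(11,4),(0,7),(1,7),(5,1),(5,1),(3,6)]⟩,⟨2,[(1,0),(2,0),(0,
  0),(8,0)]⟩⟩,⟨false,0,⟨0,[(47,0)]⟩,⟨10,[(9,1),(7,2),(1,1),(0,0),(8,1),(0,1),(1,1),(16,5)]⟩⟩,⟨false,
  1,⟨9,[(9,1),(8,1),(11,4),(0,7),(1,7),(5,1),(5,1),(1,9),(1,6)]⟩,⟨3,[(1,0),(2,1),(0,0),(7,1),(5,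
  0)]⟩⟩,[.a ⟨true,0,⟨0,[(20,0),(6,0),(19,1)]⟩,⟨1,[(14,0),(16,0),(0,0)]⟩⟩ ⟨false,0,⟨3,[(0,1),(2,1),
  (24,0),(4,0),(2,0)]⟩,⟨1,[(30,0),(18,0)]⟩⟩ ⟨true,0,⟨4,[(9,0),(8,0),(12,3),(1,3),(5,0),(5,0),(3,
  0)]⟩,⟨0,[(6,0)]⟩⟩,.o ⟨false,1,⟨0,[(33,0),(15,0)]⟩,⟨0,[(35,0)]⟩⟩,.o ⟨false,1,⟨3,[(1,3),(27,0),(0,
  2)]⟩,⟨0,[(9,0),(6,0)]⟩⟩,.e ⟨false,0,⟨0,[(3,0)]⟩,⟨7,[(9,1),(19,0),(0,4),(1,1),(1,1),(14,3)]⟩⟩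
  ⟨false,1,⟨0,[(31,0),(1,0),(15,0)]⟩,⟨0,[(6,0)]⟩⟩]⟩) (.Q [0,0,1,1,0,0,0,0,1,1,0,-1] (.p false [0,0,
  0,1] [1] (⟨0,[(32,0)]⟩,⟨0,[(31,0)]⟩) .k 1 (⟨0,[]⟩,⟨0,[]⟩) .k .k) (.R ⟨2,true,false,false,[0,1],[1,
  0,0,-1],[1,1,1],(⟨0,[]⟩,⟨0,[]⟩),(⟨0,[(32,0)]⟩,⟨0,[(33,0)]⟩),⟨0,[]⟩,.k,.k,.k,(.x 0 ⟨0,[(45,0)]⟩
  ⟨15,[(12,3),(0,3),(16,6),(0,6),(11,1)]⟩),.k,.k,⟨true,0,⟨0,[(0,0),(6,0),(17,0)]⟩,⟨20,[(2,0),(1,14),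
  (0,0),(4,1),(8,0),(10,1),(15,9)]⟩⟩,⟨false,1,⟨3,[(2,3),(27,0),(0,2)]⟩,⟨0,[(32,0)]⟩⟩,⟨true,0,⟨0,
  [(47,0)]⟩,⟨0,[(48,0)]⟩⟩,⟨false,1,⟨51,[(2,35),(4,9),(10,7),(1,17),(8,3),(0,7),(2,5),(9,0),(6,34)]⟩,
  ⟨0,[(0,0)]⟩⟩,⟨false,0,⟨0,[]⟩,⟨3,[(30,0),(0,0),(18,1)]⟩⟩,⟨true,0,⟨0,[(2,0)]⟩,⟨0,[(0,0),(46,0)]⟩⟩,
  []⟩) (.Q [0,0,1,2,0,0,0,0,1,1,0,-1] (.p false [0,0,0,1] [1] (⟨0,[(33,0)]⟩,⟨0,[(32,0)]⟩) .k 1 (⟨0,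
  []⟩,⟨0,[]⟩) .k .k) (.R ⟨1,true,false,true,[1,0,0,-1],[0,1],[0,0,0,0,0,0,0,0,-1],(⟨0,[(33,0)]⟩,⟨0,
  [(34,0)]⟩),(⟨0,[(46,0)]⟩,⟨0,[(45,0)]⟩),⟨0,[(4,0)]⟩,.k,.k,(.x (-1) ⟨15,[(13,3),(0,3),(16,6),(0,6),
  (11,1)]⟩ ⟨0,[(46,0)]⟩),(.x (-1) ⟨15,[(13,3),(0,3),(16,6),(0,6),(11,1)]⟩ ⟨0,[(46,0)]⟩),(.r (-1)
  ⟨11,[(5,5),(13,7),(1,1),(0,3),(7,1),(0,2),(6,1),(11,0)]⟩ ⟨4,[(0,4),(1,0),(0,0),(4,1),(2,0),(22,2),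
  (0,0),(0,1),(7,0)]⟩),.k,⟨false,1,⟨11,[(5,9),(13,3),(2,3),(8,0),(18,2),(0,3)]⟩,⟨0,[(0,0),(7,0),(17,
  0)]⟩⟩,⟨true,0,⟨0,[(33,0)]⟩,⟨4,[(2,0),(0,0),(4,1),(2,0),(22,2),(0,0),(0,1),(7,0)]⟩⟩,⟨false,1,⟨3,
  [(31,0),(0,0),(18,1)]⟩,⟨0,[]⟩⟩,⟨true,0,⟨0,[(0,0),(47,0)]⟩,⟨0,[(1,0)]⟩⟩,⟨true,0,⟨0,[(49,0)]⟩,⟨0,
  [(48,0)]⟩⟩,⟨false,0,⟨0,[(0,0)]⟩,⟨4,[(1,2),(6,1),(10,0),(1,1),(0,0),(8,0),(19,2)]⟩⟩,[]⟩) (.R ⟨1,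
  false,false,true,[1,0,0,-1],[0,1],[0,0,0,0,0,0,0,0,-1],(⟨0,[(33,0)]⟩,⟨0,[(34,0)]⟩),(⟨0,[(46,0)]⟩,
  ⟨0,[(45,0)]⟩),⟨0,[(4,0)]⟩,.k,.k,(.x (-1) ⟨15,[(13,3),(0,3),(16,6),(0,6),(11,1)]⟩ ⟨0,[(46,0)]⟩),
  (.x (-1) ⟨15,[(13,3),(0,3),(16,6),(0,6),(11,1)]⟩ ⟨0,[(46,0)]⟩),(.r (-1) ⟨11,[(5,5),(13,7),(1,1),
  (0,3),(7,1),(0,2),(6,1),(11,0)]⟩ ⟨1,[(11,0),(20,0),(1,0),(1,0),(12,3)]⟩),.k,⟨false,1,⟨11,[(5,9),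
  (13,3),(2,3),(8,0),(18,2),(0,3)]⟩,⟨0,[(2,0),(26,0),(7,0),(11,1)]⟩⟩,⟨true,0,⟨0,[(33,0)]⟩,⟨4,[(2,0),
  (0,0),(4,1),(2,0),(22,2),(0,0),(0,1),(7,0)]⟩⟩,⟨false,1,⟨3,[(31,0),(0,0),(18,1)]⟩,⟨0,[]⟩⟩,⟨true,0,
  ⟨0,[(2,0),(26,0),(3,0),(3,0),(11,1)]⟩,⟨0,[(1,0)]⟩⟩,⟨true,0,⟨0,[(49,0)]⟩,⟨0,[(48,0)]⟩⟩,⟨true,0,⟨0,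
  [(2,0),(26,0),(3,0),(3,0),(11,2)]⟩,⟨0,[(0,0)]⟩⟩,[.o ⟨false,0,⟨0,[(49,0),(3,0)]⟩,⟨35,[(15,5),(3,1),
  (1,11),(0,1),(21,14),(2,3),(3,18)]⟩⟩,.o ⟨false,0,⟨0,[(49,0)]⟩,⟨4,[(15,0),(5,1),(9,0),(0,0),(11,1),
  (6,0)]⟩⟩,.o ⟨false,1,⟨3,[(3,3),(27,0),(0,2)]⟩,⟨0,[(11,0),(6,0)]⟩⟩,.a ⟨true,0,⟨0,[(34,0)]⟩,⟨0,[(33,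
  0)]⟩⟩ ⟨true,0,⟨0,[(5,0)]⟩,⟨0,[(2,0),(26,0),(7,0),(11,0)]⟩⟩ ⟨false,0,⟨0,[(33,0),(15,0)]⟩,⟨3,[(8,1),
  (12,1),(12,1),(9,0),(6,2)]⟩⟩]⟩)))) (.R ⟨1,false,false,true,[1,0,0,-1],[0,1],[0,0,0,0,0,0,0,0,-1],
  (⟨0,[(30,0)]⟩,⟨0,[(31,0)]⟩),(⟨0,[(43,0)]⟩,⟨0,[(42,0)]⟩),⟨0,[(1,0)]⟩,.k,.k,(.x (-1) ⟨15,[(10,3),(0,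
  3),(16,6),(0,6),(11,1)]⟩ ⟨0,[(43,0)]⟩),(.x (-1) ⟨15,[(10,3),(0,3),(16,6),(0,6),(11,1)]⟩ ⟨0,[(43,
  0)]⟩),(.r (-1) ⟨11,[(2,5),(13,7),(1,1),(0,3),(7,1),(0,2),(6,1),(11,0)]⟩ ⟨1,[(8,0),(20,0),(1,0),(1,
  0),(12,3)]⟩),.k,⟨false,1,⟨11,[(2,9),(13,3),(2,3),(8,0),(18,2),(0,3)]⟩,⟨0,[(0,0),(4,0),(26,0),(13,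
  0)]⟩⟩,⟨true,0,⟨0,[(30,0)]⟩,⟨5,[(5,3),(2,0),(22,2),(0,3),(0,0),(7,0),(2,1)]⟩⟩,⟨false,1,⟨3,[(28,0),
  (0,0),(18,1)]⟩,⟨0,[]⟩⟩,⟨false,0,⟨0,[(0,0),(45,0)]⟩,⟨4,[(3,2),(1,0),(10,0),(1,0),(0,0),(8,0),(2,0),
  (9,1),(6,0)]⟩⟩,⟨true,0,⟨0,[(46,0)]⟩,⟨0,[(45,0)]⟩⟩,⟨false,0,⟨0,[(0,0),(45,1)]⟩,⟨11,[(3,7),(1,3),(6,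
  1),(3,1),(1,7),(0,1),(8,1),(12,2),(6,4)]⟩⟩,[.o ⟨false,0,⟨0,[(46,0),(3,0)]⟩,⟨35,[(12,5),(3,1),(1,
  11),(0,1),(21,14),(2,3),(3,18)]⟩⟩,.o ⟨false,0,⟨0,[(46,0)]⟩,⟨4,[(12,0),(5,1),(9,0),(0,0),(11,1),(6,
  0)]⟩⟩,.o ⟨false,1,⟨1,[(31,1),(9,0),(5,0)]⟩,⟨0,[(8,0),(6,0)]⟩⟩,.a ⟨true,0,⟨0,[(31,0)]⟩,⟨0,[(30,
  0)]⟩⟩ ⟨true,0,⟨0,[(2,0)]⟩,⟨0,[(0,0),(4,0),(26,0)]⟩⟩ ⟨false,0,⟨0,[(30,0),(15,0)]⟩,⟨3,[(5,1),(12,1),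
  (12,1),(9,0),(6,2)]⟩⟩]⟩))) (.Q [0,0,0,0,0,1,0,0,0,-1,0,1] (.p true [0,0,0,1] [1] (⟨0,[(29,0)]⟩,⟨0,
  [(28,0)]⟩) .k 1 (⟨0,[]⟩,⟨0,[]⟩) .k .k) (.R ⟨0,false,false,true,[1,0,0,-1],[0,1],[1,0,1],(⟨0,[(29,
  0)]⟩,⟨0,[(30,0)]⟩),(⟨0,[(42,0)]⟩,⟨0,[(41,0)]⟩),⟨0,[(0,0)]⟩,.k,.k,(.x (-1) ⟨15,[(9,3),(0,3),(16,6),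
  (0,6),(11,1)]⟩ ⟨0,[(42,0)]⟩),(.x (-1) ⟨15,[(9,3),(0,3),(16,6),(0,6),(11,1)]⟩ ⟨0,[(42,0)]⟩),.k,.k,
  ⟨false,1,⟨11,[(15,3),(2,3),(8,0),(0,0),(17,1),(0,3)]⟩,⟨0,[(45,0),(3,0)]⟩⟩,⟨true,0,⟨0,[(29,0)]⟩,
  ⟨11,[(0,5),(5,0),(0,1),(1,1),(20,7),(1,3),(7,2)]⟩⟩,⟨true,0,⟨0,[(1,0)]⟩,⟨0,[(2,0),(26,0),(1,0),(1,
  0)]⟩⟩,⟨false,0,⟨0,[(1,0),(27,0),(15,0)]⟩,⟨4,[(2,2),(1,0),(10,0),(1,0),(0,0),(8,0),(2,0),(9,1),(6,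
  0)]⟩⟩,⟨false,0,⟨0,[]⟩,⟨0,[]⟩⟩,⟨false,0,⟨0,[]⟩,⟨0,[]⟩⟩,[.o ⟨false,0,⟨0,[(45,0),(3,0)]⟩,⟨35,[(11,5),
  (3,1),(1,11),(0,1),(21,14),(2,3),(3,18)]⟩⟩,.o ⟨false,0,⟨0,[(45,0)]⟩,⟨4,[(11,0),(5,1),(9,0),(0,0),
  (11,1),(6,0)]⟩⟩,.o ⟨false,1,⟨1,[(30,1),(9,0),(5,0)]⟩,⟨0,[(7,0),(6,0)]⟩⟩,.a ⟨true,0,⟨0,[(30,0)]⟩,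
  ⟨0,[(29,0)]⟩⟩ ⟨true,0,⟨0,[]⟩,⟨0,[(49,0)]⟩⟩ ⟨false,0,⟨0,[(29,0),(15,0)]⟩,⟨3,[(4,1),(12,1),(12,1),
  (9,0),(6,2)]⟩⟩]⟩) (.R ⟨1,false,false,true,[1,0,0,-1],[0,1],[0,1,0,0,0,0,0,0,-1],(⟨0,[(29,0)]⟩,⟨0,
  [(30,0)]⟩),(⟨0,[(42,0)]⟩,⟨0,[(41,0)]⟩),⟨0,[(0,0)]⟩,.k,.k,(.x (-1) ⟨15,[(9,3),(0,3),(16,6),(0,6),
  (11,1)]⟩ ⟨0,[(42,0)]⟩),(.x (-1) ⟨15,[(9,3),(0,3),(16,6),(0,6),(11,1)]⟩ ⟨0,[(42,0)]⟩),(.r (-1) ⟨3,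
  [(2,1),(11,0),(0,1),(1,1),(6,0),(1,0),(0,0),(1,1)]⟩ ⟨1,[(7,0),(20,0),(1,0),(1,0),(12,3)]⟩),.k,
  ⟨false,1,⟨19,[(2,7),(0,1),(10,10),(0,3),(1,5),(6,0),(1,6),(0,4),(1,9)]⟩,⟨0,[(1,0),(43,0)]⟩⟩,⟨true,
  0,⟨0,[(29,0)]⟩,⟨5,[(4,3),(2,0),(22,2),(0,3),(0,0),(7,0),(2,1)]⟩⟩,⟨true,0,⟨0,[(49,0)]⟩,⟨0,[]⟩⟩,
  ⟨false,0,⟨0,[(1,0),(27,0),(15,0)]⟩,⟨4,[(2,2),(1,0),(10,0),(1,0),(0,0),(8,0),(2,0),(9,1),(6,0)]⟩⟩,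
  ⟨false,0,⟨0,[(45,0)]⟩,⟨10,[(7,1),(7,2),(1,1),(0,0),(8,1),(0,1),(1,1),(16,5)]⟩⟩,⟨false,0,⟨0,[(1,0),
  (27,0),(15,1)]⟩,⟨11,[(2,7),(1,3),(6,1),(3,1),(1,7),(0,1),(8,1),(12,2),(6,4)]⟩⟩,[.o ⟨false,0,⟨0,
  [(45,0),(3,0)]⟩,⟨35,[(11,5),(3,1),(1,11),(0,1),(21,14),(2,3),(3,18)]⟩⟩,.o ⟨false,0,⟨0,[(45,0)]⟩,
  ⟨4,[(11,0),(5,1),(9,0),(0,0),(11,1),(6,0)]⟩⟩,.o ⟨false,1,⟨1,[(30,1),(9,0),(5,0)]⟩,⟨0,[(7,0),(6,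
  0)]⟩⟩,.a ⟨true,0,⟨0,[(30,0)]⟩,⟨0,[(29,0)]⟩⟩ ⟨true,0,⟨0,[(2,0),(26,0),(1,0),(1,0)]⟩,⟨0,[(1,0)]⟩⟩
  ⟨false,0,⟨0,[(29,0),(15,0)]⟩,⟨3,[(4,1),(12,1),(12,1),(9,0),(6,2)]⟩⟩]⟩))))))

theorem ok62 : chk (cU (-1) true 10) t62 r43 = true := by decide +kernel

noncomputable def t83 : Tre :=
  (.I [0,0,2,0,-1,-2,1] (.K ⟨0,[1,1,-1],1,0,(⟨0,[(28,0),(3,0)]⟩,⟨0,[(13,0)]⟩),.k,.k,(.x (-2) ⟨3,[(4,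
  3),(12,0),(0,0),(9,3),(1,1),(1,7)]⟩ ⟨0,[(0,0)]⟩),.k,.k,[⟨0,[(0,0),(27,0),(3,1)]⟩,⟨0,[(4,0)]⟩,⟨0,
  [(9,0),(9,0),(0,0)]⟩,⟨0,[(21,0),(13,0)]⟩]⟩) (.Q [0,0,0,0,0,2,0,0,0,-1,1] (.p true [0,0,1] [1] (⟨0,
  [(29,0)]⟩,⟨0,[(28,0)]⟩) .k 1 (⟨0,[]⟩,⟨0,[]⟩) .k .k) (.Q [0,-1,0,1,0,0,0,0,0,1] (.pp false [-1,1])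
  (.R ⟨0,false,false,true,[1,-1,-1],[1,-1],[0,1],(⟨0,[(13,0)]⟩,⟨5,[(0,1),(0,2),(15,1),(0,0),(12,
  2)]⟩),(⟨0,[(33,0)]⟩,⟨0,[(34,0)]⟩),⟨0,[(1,0)]⟩,.k,.k,(.r (-1) ⟨1,[(5,1),(3,0),(8,0),(7,0)]⟩ ⟨0,[(7,
  0),(4,0),(28,0)]⟩),.k,.k,.k,⟨false,0,⟨0,[(37,0)]⟩,⟨7,[(4,1),(0,1),(3,0),(8,0),(0,1),(0,1),(5,
  0)]⟩⟩,⟨true,0,⟨0,[(16,0)]⟩,⟨0,[(28,0)]⟩⟩,⟨false,0,⟨2,[(0,0),(6,0),(0,0),(3,0),(12,1)]⟩,⟨3,[(5,1),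
  (4,1),(8,0),(0,0),(8,1)]⟩⟩,⟨true,0,⟨0,[(25,0)]⟩,⟨2,[(0,1),(5,0),(0,0),(1,1)]⟩⟩,⟨false,0,⟨0,[]⟩,⟨0,
  []⟩⟩,⟨false,0,⟨0,[]⟩,⟨0,[]⟩⟩,[.a ⟨true,0,⟨0,[(36,0)]⟩,⟨0,[(0,0)]⟩⟩ ⟨true,0,⟨0,[(41,0)]⟩,⟨3,[(27,
  0),(0,0),(6,1)]⟩⟩ ⟨false,1,⟨1,[(11,0),(2,0),(3,0),(19,1)]⟩,⟨14,[(0,6),(5,0),(0,3),(0,6),(3,1),(22,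
  1),(3,0)]⟩⟩,.o ⟨false,1,⟨5,[(9,1),(1,1),(7,0),(0,0),(11,1),(6,1)]⟩,⟨0,[(37,0)]⟩⟩,.o ⟨false,0,⟨0,
  [(24,0)]⟩,⟨7,[(18,3),(0,0),(0,0),(11,1),(5,3)]⟩⟩,.o ⟨false,0,⟨1,[(24,1),(2,0),(0,0)]⟩,⟨0,[(16,0),
  (21,0)]⟩⟩]⟩) (.Q [0,0,0,1,0,0,2,2,0,1,-2] (.p false [0,0,1] [1,0,-1] (⟨0,[(31,0)]⟩,⟨0,[(30,0)]⟩)
  .k 2 (⟨0,[(30,0)]⟩,⟨0,[(31,0)]⟩) .k (.r (-1) ⟨0,[(12,0),(28,0)]⟩ ⟨0,[(29,1)]⟩)) (.R ⟨0,false,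
  false,false,[1,-1,-1],[0,0,1],[0,1],(⟨0,[(14,0)]⟩,⟨1,[(2,0),(19,0),(0,0),(8,0)]⟩),(⟨0,[(32,0)]⟩,
  ⟨0,[(31,0)]⟩),⟨0,[(2,0)]⟩,.k,.k,(.r (-1) ⟨1,[(6,1),(3,0),(8,0),(7,0)]⟩ ⟨9,[(0,7),(7,5),(0,7),(10,
  2),(0,2)]⟩),(.r (-1) ⟨3,[(6,1),(3,0),(8,0),(0,0),(0,0),(5,0),(2,5)]⟩ ⟨0,[(0,0),(8,0)]⟩),.k,.k,
  ⟨true,0,⟨1,[(19,0),(4,0),(2,0)]⟩,⟨0,[(0,0),(8,0),(1,0)]⟩⟩,⟨false,1,⟨0,[(19,0),(19,0)]⟩,⟨0,[(9,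
  0)]⟩⟩,⟨false,0,⟨9,[(0,5),(7,1),(0,5),(10,0),(0,0)]⟩,⟨3,[(6,1),(4,1),(8,0),(0,0),(8,1)]⟩⟩,⟨true,0,
  ⟨0,[(0,0)]⟩,⟨3,[(7,2),(0,2),(1,3),(0,0),(6,0)]⟩⟩,⟨false,0,⟨0,[]⟩,⟨0,[]⟩⟩,⟨false,0,⟨0,[]⟩,⟨0,[]⟩⟩,
  [.a ⟨true,0,⟨2,[(0,1),(10,0),(6,0),(3,0),(0,0)]⟩,⟨1,[(7,0),(0,0),(2,0),(6,0)]⟩⟩ ⟨true,0,⟨0,[(42,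
  0)]⟩,⟨3,[(28,0),(0,0),(6,1)]⟩⟩ ⟨false,1,⟨4,[(0,1),(4,0),(13,2),(19,3)]⟩,⟨6,[(8,0),(0,4),(1,1),(12,
  1),(2,1),(12,0)]⟩⟩,.o ⟨false,1,⟨3,[(13,1),(5,1),(13,0),(6,0)]⟩,⟨0,[(24,0)]⟩⟩,.o ⟨false,0,⟨0,[(25,
  0)]⟩,⟨7,[(19,3),(0,0),(0,0),(11,1),(5,3)]⟩⟩,.o ⟨false,0,⟨1,[(25,1),(2,0),(0,0)]⟩,⟨0,[(17,0),(21,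
  0)]⟩⟩]⟩) (.R ⟨0,false,false,true,[1,-1,-1],[0,-1,1],[1,1],(⟨0,[(14,0)]⟩,⟨1,[(2,0),(19,0),(0,0),(8,
  0)]⟩),(⟨0,[(16,0)]⟩,⟨0,[(31,0),(3,0)]⟩),⟨0,[(2,0)]⟩,.k,.k,(.r (-1) ⟨1,[(6,1),(3,0),(8,0),(7,0)]⟩
  ⟨0,[(8,0),(4,0),(28,0)]⟩),.k,.k,.k,⟨false,0,⟨1,[(8,0),(21,0),(8,0)]⟩,⟨35,[(5,13),(1,3),(4,5),(0,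
  7),(4,1),(1,4),(0,4)]⟩⟩,⟨true,0,⟨0,[(19,0)]⟩,⟨0,[(9,0)]⟩⟩,⟨false,0,⟨2,[(4,0),(4,0),(3,0),(12,0),
  (4,0),(3,1),(2,2)]⟩,⟨7,[(0,3),(5,3),(12,3),(0,0),(0,0),(18,1)]⟩⟩,⟨true,0,⟨0,[(4,0),(0,0),(20,0),
  (4,0),(3,1),(2,1)]⟩,⟨0,[(0,0),(37,0)]⟩⟩,⟨false,0,⟨0,[]⟩,⟨0,[]⟩⟩,⟨false,0,⟨0,[]⟩,⟨0,[]⟩⟩,[.o
  ⟨false,0,⟨0,[(12,0)]⟩,⟨19,[(0,3),(6,11),(0,11),(11,0),(0,0),(11,7),(6,9)]⟩⟩,.a ⟨true,0,⟨0,[(4,0),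
  (0,0),(25,0),(3,1),(2,0)]⟩,⟨9,[(0,1),(2,0),(3,4),(0,5),(23,0),(1,1)]⟩⟩ ⟨true,0,⟨0,[]⟩,⟨1,[(28,0),
  (0,0)]⟩⟩ ⟨false,1,⟨0,[(5,0),(13,0),(18,0)]⟩,⟨19,[(0,3),(6,7),(0,11),(0,11),(10,0),(0,0),(11,1)]⟩⟩,
  .o ⟨false,0,⟨0,[(25,0)]⟩,⟨7,[(19,3),(0,0),(0,0),(11,1),(5,3)]⟩⟩,.o ⟨false,0,⟨1,[(25,1),(2,0),(0,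
  0)]⟩,⟨0,[(17,0),(21,0)]⟩⟩]⟩))) (.I [0,1,-1,0,0,0,0,-1] (.R ⟨2,false,false,false,[0,1],[0,1,1],[0,
  1,1,1],(⟨0,[]⟩,⟨0,[]⟩),(⟨0,[(31,0),(2,0)]⟩,⟨0,[(13,0)]⟩),⟨0,[]⟩,.k,.k,.k,.k,.k,.k,⟨false,0,⟨0,[(0,
  0)]⟩,⟨7,[(12,3),(6,0),(0,0),(18,1)]⟩⟩,⟨true,0,⟨0,[(16,0)]⟩,⟨0,[(28,0)]⟩⟩,⟨true,0,⟨0,[(41,0)]⟩,⟨0,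
  []⟩⟩,⟨false,1,⟨3,[(12,1),(5,1),(13,0),(6,0)]⟩,⟨1,[(6,0),(0,0),(2,0),(6,0)]⟩⟩,⟨false,0,⟨0,[(37,
  0)]⟩,⟨0,[(36,0),(2,0)]⟩⟩,⟨false,1,⟨3,[(12,1),(5,1),(13,0),(4,3),(1,0)]⟩,⟨3,[(6,0),(0,0),(2,2),(6,
  2)]⟩⟩,[.a ⟨true,0,⟨0,[(3,0),(0,0),(25,0),(3,1),(2,2)]⟩,⟨3,[(6,0),(0,0),(2,2),(6,2)]⟩⟩ ⟨false,0,⟨0,
  [(37,0),(3,0)]⟩,⟨7,[(4,1),(0,1),(4,1),(8,0),(0,0),(18,1)]⟩⟩ ⟨true,0,⟨1,[(7,0),(4,0),(3,0),(8,0)]⟩,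
  ⟨3,[(6,0),(0,0),(2,2),(6,2)]⟩⟩,.o ⟨false,1,⟨3,[(12,1),(5,1),(13,0),(4,3),(1,0)]⟩,⟨0,[(14,0)]⟩⟩,.o
  ⟨false,1,⟨3,[(19,0),(0,0),(17,1)]⟩,⟨0,[(16,0),(7,0)]⟩⟩,.e ⟨false,0,⟨0,[(37,0)]⟩,⟨0,[(36,0),(2,
  0)]⟩⟩ ⟨false,1,⟨3,[(12,1),(5,1),(13,0),(4,3),(1,0)]⟩,⟨3,[(6,0),(0,0),(2,2),(6,2)]⟩⟩]⟩) (.Q [0,0,1,
  0,0,0,-1,-1,1,0,1,-1] (.p true [0,0,1] [0,0,0,1] (⟨0,[(31,0)]⟩,⟨0,[(30,0)]⟩) .k 2 (⟨0,[(22,0)]⟩,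
  ⟨0,[(21,0)]⟩) .k (.x (-1) ⟨7,[(18,3),(0,0),(0,0),(10,7),(0,1),(5,3)]⟩ ⟨0,[(24,0),(5,0)]⟩)) (.Q [0,
  1,-1,0,0,0,0,0,-1,0,0,1] (.p true [0,0,0,1] [] (⟨0,[(23,0)]⟩,⟨0,[(22,0)]⟩) .k 0 (⟨0,[]⟩,⟨0,[]⟩)
  .k .k) (.K ⟨0,[0,0,0,1],0,0,(⟨0,[(24,0)]⟩,⟨0,[(23,0)]⟩),.k,(.r (-1) ⟨7,[(6,1),(0,1),(3,0),(8,0),
  (1,3),(5,0)]⟩ ⟨3,[(0,1),(1,1),(6,1),(11,0),(1,1),(10,0)]⟩),(.x 0 ⟨0,[(36,0)]⟩ ⟨11,[(3,3),(13,3),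
  (3,4),(0,4),(11,1)]⟩),.k,.k,[⟨0,[(24,0)]⟩,⟨0,[(23,0)]⟩,⟨0,[(0,0)]⟩,⟨0,[(1,0),(25,0)]⟩]⟩) (.I [0,
  -1,0,0,0,0,0,0,1] (.Q [0,0,-2,0,1,0,-1,0,0,-1,1,1] (.p true [0,0,1] [1,0,0,-1] (⟨0,[(34,0)]⟩,⟨0,
  [(33,0)]⟩) .k 2 (⟨0,[(24,0)]⟩,⟨0,[(25,0)]⟩) .k (.x 0 ⟨0,[(30,0),(3,0)]⟩ ⟨39,[(4,19),(0,19),(3,3),
  (1,7),(10,4),(0,4),(11,5)]⟩)) (.R ⟨1,false,false,true,[0,0,0,1],[1,1,-1],[0,0,0,0,0,0,0,0,1],(⟨0,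
  [(26,0)]⟩,⟨0,[(25,0)]⟩),(⟨0,[(34,0),(3,0)]⟩,⟨0,[(19,0)]⟩),⟨3,[(0,0),(4,0),(1,0),(18,2)]⟩,.k,.k,
  (.x 0 ⟨7,[(5,1),(1,1),(15,0),(0,0),(3,1),(2,4),(0,4)]⟩ ⟨1,[(6,0),(13,0),(14,0),(6,0)]⟩),(.r (-1)
  ⟨31,[(1,9),(6,12),(1,2),(5,4),(4,5),(2,10),(4,8)]⟩ ⟨1,[(11,0),(11,0),(9,0)]⟩),(.r (-1) ⟨1,[(1,1),
  (6,0),(1,0),(4,0),(24,0)]⟩ ⟨3,[(11,3),(11,2),(0,0)]⟩),.k,⟨false,1,⟨0,[(1,0),(6,0),(32,0)]⟩,⟨3,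
  [(11,1),(10,0),(0,1),(3,0),(2,0),(14,1)]⟩⟩,⟨true,1,⟨0,[(0,0)]⟩,⟨0,[(11,0),(3,0),(9,0),(13,0),(0,
  0)]⟩⟩,⟨false,1,⟨3,[(23,0),(0,0),(18,1)]⟩,⟨0,[]⟩⟩,⟨false,1,⟨1,[(0,1),(10,0),(11,0),(9,0)]⟩,⟨2,[(1,
  1),(0,0),(1,0),(10,1),(5,0),(0,0),(2,1),(13,0)]⟩⟩,⟨true,0,⟨0,[(41,0)]⟩,⟨0,[(40,0)]⟩⟩,⟨false,1,⟨1,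
  [(0,1),(10,1),(11,0),(18,0)]⟩,⟨4,[(1,3),(0,0),(11,0),(0,5),(5,2),(0,0),(2,3),(13,3)]⟩⟩,[.o ⟨false,
  0,⟨0,[(27,0),(13,0)]⟩,⟨0,[(15,0),(27,0)]⟩⟩,.a ⟨true,0,⟨3,[(10,2),(0,2),(2,0),(6,0)]⟩,⟨0,[(7,0),(0,
  0),(25,0),(3,1),(2,0)]⟩⟩ ⟨true,0,⟨0,[(1,0)]⟩,⟨1,[(11,0),(3,0),(5,0),(1,0)]⟩⟩ ⟨false,1,⟨1,[(0,1),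
  (10,0),(21,0),(8,0)]⟩,⟨2,[(4,0),(10,1),(9,2),(5,0),(7,0),(0,0)]⟩⟩,.o ⟨false,0,⟨0,[(20,0),(4,0),(2,
  0)]⟩,⟨15,[(0,7),(21,3),(0,0),(0,0),(1,7),(9,5)]⟩⟩,.o ⟨false,0,⟨0,[(25,0),(2,0),(2,0)]⟩,⟨0,[(0,0),
  (19,0)]⟩⟩]⟩) (.I [0,0,1,1,0,0,0,0,-1] (.Q [0,0,0,0,0,-1,0,0,0,1,0,-1] (.p false [0,0,0,1] [1] (⟨0,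
  [(27,0)]⟩,⟨0,[(26,0)]⟩) .k 1 (⟨0,[]⟩,⟨0,[]⟩) .k .k) (.R ⟨1,false,false,true,[1,0,0,-1],[1,-1],[0,
  1,0,0,0,0,0,0,-1],(⟨0,[(27,0)]⟩,⟨0,[(28,0)]⟩),(⟨0,[(39,0)]⟩,⟨0,[(40,0)]⟩),⟨0,[(0,0)]⟩,.k,.k,(.x
  (-1) ⟨11,[(7,3),(13,3),(3,4),(0,4),(11,1)]⟩ ⟨0,[(40,0)]⟩),(.r 0 ⟨0,[(1,0)]⟩ ⟨7,[(10,1),(0,1),(3,
  0),(8,0),(1,3),(5,0)]⟩),.k,.k,⟨true,0,⟨0,[(1,0)]⟩,⟨0,[(3,0),(38,0)]⟩⟩,⟨false,0,⟨4,[(2,1),(11,0),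
  (12,2),(10,1)]⟩,⟨0,[(28,0),(15,0)]⟩⟩,⟨true,0,⟨0,[(47,0)]⟩,⟨0,[]⟩⟩,⟨false,0,⟨9,[(2,1),(1,5),(0,1),
  (4,0),(4,1),(1,2),(5,0),(2,0)]⟩,⟨0,[(1,0),(9,0),(16,0),(14,0)]⟩⟩,⟨false,0,⟨0,[(43,0)]⟩,⟨0,[(42,0),
  (2,0)]⟩⟩,⟨false,0,⟨1,[(4,0),(0,0),(25,0)]⟩,⟨0,[(1,0),(9,0),(16,0)]⟩⟩,[.e ⟨false,1,⟨1,[(25,0),(18,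
  0),(2,1)]⟩,⟨0,[(3,0)]⟩⟩ ⟨false,0,⟨0,[(2,0),(7,0),(18,0),(13,0)]⟩,⟨1,[(28,1),(14,1),(0,0),(0,0)]⟩⟩,
  .o ⟨false,1,⟨5,[(15,1),(1,1),(7,0),(0,0),(11,1),(6,1)]⟩,⟨0,[(43,0)]⟩⟩,.o ⟨false,1,⟨1,[(28,1),(9,
  0),(5,0)]⟩,⟨4,[(2,1),(11,0),(12,2),(10,1)]⟩⟩,.a ⟨true,0,⟨0,[(28,0)]⟩,⟨0,[(27,0)]⟩⟩ ⟨false,1,⟨1,
  [(25,0),(18,0)]⟩,⟨3,[(2,0),(0,1),(22,0),(1,0),(1,0),(10,0)]⟩⟩ ⟨true,0,⟨0,[(2,0),(7,0),(18,0),(13,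
  0)]⟩,⟨0,[(28,0),(14,0)]⟩⟩]⟩) (.R ⟨0,false,false,true,[1,0,0,-1],[1,-1],[0,1,0,0,0,0,0,0,-1],(⟨0,
  [(27,0)]⟩,⟨0,[(28,0)]⟩),(⟨0,[(39,0)]⟩,⟨0,[(40,0)]⟩),⟨0,[(0,0)]⟩,.k,.k,(.x (-1) ⟨11,[(7,3),(13,3),
  (3,4),(0,4),(11,1)]⟩ ⟨0,[(40,0)]⟩),(.r 0 ⟨0,[(1,0)]⟩ ⟨7,[(10,1),(0,1),(3,0),(8,0),(1,3),(5,0)]⟩),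
  .k,.k,⟨true,0,⟨0,[(1,0)]⟩,⟨0,[(3,0),(38,0)]⟩⟩,⟨false,0,⟨4,[(2,1),(11,0),(12,2),(10,1)]⟩,⟨0,[(28,
  0),(15,0)]⟩⟩,⟨true,0,⟨0,[(47,0)]⟩,⟨0,[]⟩⟩,⟨false,0,⟨9,[(2,1),(1,5),(0,1),(4,0),(4,1),(1,2),(5,0),
  (2,0)]⟩,⟨0,[(1,0),(9,0),(16,0),(14,0)]⟩⟩,⟨false,0,⟨0,[]⟩,⟨0,[]⟩⟩,⟨false,0,⟨0,[]⟩,⟨0,[]⟩⟩,[.e
  ⟨false,1,⟨1,[(25,0),(18,0),(2,1)]⟩,⟨0,[(3,0)]⟩⟩ ⟨false,0,⟨0,[(2,0),(7,0),(18,0),(13,0)]⟩,⟨1,[(28,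
  1),(14,1),(0,0),(0,0)]⟩⟩,.o ⟨false,1,⟨5,[(15,1),(1,1),(7,0),(0,0),(11,1),(6,1)]⟩,⟨0,[(43,0)]⟩⟩,.o
  ⟨false,1,⟨1,[(28,1),(9,0),(5,0)]⟩,⟨4,[(2,1),(11,0),(12,2),(10,1)]⟩⟩,.a ⟨true,0,⟨0,[(28,0)]⟩,⟨0,
  [(27,0)]⟩⟩ ⟨false,1,⟨1,[(25,0),(18,0)]⟩,⟨27,[(0,3),(1,6),(0,11),(3,0),(1,0),(4,3),(11,7),(1,2),
  (12,7)]⟩⟩ ⟨true,0,⟨0,[(2,0),(7,0),(18,0),(13,0)]⟩,⟨0,[(28,0),(14,0)]⟩⟩]⟩)) (.Q [0,0,1,0,-1,0,0,0,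
  1,1,0,-1] (.p false [0,0,0,1] [1] (⟨0,[(27,0)]⟩,⟨0,[(26,0)]⟩) .k 1 (⟨0,[]⟩,⟨0,[]⟩) .k .k) (.Q [0,
  0,-2,-1,2,0,0,0,-2,-1,0,2] (.p true [0,0,0,1] [1,0,0,-1] (⟨0,[(28,0)]⟩,⟨0,[(27,0)]⟩) .k 2 (⟨0,
  [(27,0)]⟩,⟨0,[(28,0)]⟩) .k (.r 0 ⟨14,[(0,1),(0,11),(1,3),(9,3),(0,1),(11,5),(1,1),(2,3),(11,3)]⟩
  ⟨0,[(25,0)]⟩)) (.R ⟨2,false,false,false,[0,1],[0,0,0,1],[1,1,1],(⟨0,[]⟩,⟨0,[]⟩),(⟨0,[(29,0)]⟩,⟨0,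
  [(28,0)]⟩),⟨0,[]⟩,.k,.k,.k,(.x (-1) ⟨1,[(9,0),(13,0),(14,0),(6,0)]⟩ ⟨7,[(8,1),(1,1),(15,0),(0,0),
  (3,1),(2,4),(0,4)]⟩),.k,.k,⟨true,0,⟨1,[(14,0),(3,0),(5,0),(1,0)]⟩,⟨0,[(4,0)]⟩⟩,⟨false,0,⟨4,[(3,1),
  (11,0),(12,2),(10,1)]⟩,⟨0,[(29,0),(15,0)]⟩⟩,⟨true,0,⟨0,[(43,0)]⟩,⟨0,[(44,0)]⟩⟩,⟨false,0,⟨36,[(1,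
  1),(0,2),(0,6),(1,27),(5,6),(4,8),(1,1),(8,1),(14,9)]⟩,⟨5,[(0,0),(12,1),(11,0),(0,1),(2,3),(14,
  6)]⟩⟩,⟨false,0,⟨0,[]⟩,⟨3,[(26,0),(0,0),(18,1)]⟩⟩,⟨false,0,⟨0,[(5,0)]⟩,⟨5,[(0,0),(12,1),(11,0),(0,
  1),(2,3),(14,0)]⟩⟩,[.a ⟨true,(-1),⟨0,[(1,0)]⟩,⟨5,[(0,0),(12,1),(11,0),(0,1),(2,3),(14,0)]⟩⟩
  ⟨false,0,⟨0,[(48,0)]⟩,⟨1,[(45,0),(0,0)]⟩⟩ ⟨true,(-1),⟨0,[(1,0),(21,0),(7,0)]⟩,⟨5,[(0,0),(12,1),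
  (11,0),(0,1),(2,3),(14,0)]⟩⟩,.o ⟨false,0,⟨0,[(5,0)]⟩,⟨1,[(0,0),(29,0),(1,0),(11,0)]⟩⟩,.o ⟨false,1,
  ⟨3,[(26,0),(0,0),(17,1)]⟩,⟨0,[(23,0),(7,0)]⟩⟩,.e ⟨false,0,⟨0,[]⟩,⟨3,[(26,0),(0,0),(18,1)]⟩⟩
  ⟨false,0,⟨0,[(5,0)]⟩,⟨5,[(0,0),(12,1),(11,0),(0,1),(2,3),(14,0)]⟩⟩]⟩) (.K ⟨0,[0,0,0,1],0,(-1),(⟨0,
  [(29,0)]⟩,⟨0,[(28,0)]⟩),.k,(.r 0 ⟨1,[(0,0),(10,1),(4,0),(0,1),(0,0),(10,1),(14,5)]⟩ ⟨7,[(14,3),(4,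
  1),(6,6),(0,2),(20,1)]⟩),(.x 0 ⟨0,[(41,0)]⟩ ⟨11,[(8,3),(13,3),(3,4),(0,4),(11,1)]⟩),.k,.k,[⟨0,
  [(29,0)]⟩,⟨0,[(28,0)]⟩,⟨1,[(26,0),(2,1),(15,0),(2,1)]⟩,⟨1,[(0,0),(17,0),(11,0)]⟩]⟩)) (.Q [0,0,0,0,
  0,-1,0,0,0,0,0,1] (.p true [0,0,0,1] [] (⟨0,[(28,0)]⟩,⟨0,[(27,0)]⟩) .k 0 (⟨0,[]⟩,⟨0,[]⟩) .k .k)
  (.R ⟨1,false,false,true,[0,0,0,1],[0,-1,1],[0,0,0,0,0,0,0,0,1],(⟨0,[(29,0)]⟩,⟨0,[(28,0)]⟩),(⟨0,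
  [(22,0)]⟩,⟨1,[(3,0),(5,0),(19,0),(7,0)]⟩),⟨0,[(0,0)]⟩,.k,.k,(.x 0 ⟨7,[(8,1),(1,1),(15,0),(0,0),(3,
  1),(2,4),(0,4)]⟩ ⟨1,[(9,0),(13,0),(14,0),(6,0)]⟩),(.x (-1) ⟨3,[(9,1),(16,0),(0,0),(3,1),(2,0),(0,
  0),(1,1)]⟩ ⟨0,[(22,0),(0,0)]⟩),.k,.k,⟨false,0,⟨1,[(4,1),(9,0),(21,0),(8,0)]⟩,⟨1,[(11,0),(12,0),(1,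
  0),(5,0),(11,0)]⟩⟩,⟨true,0,⟨0,[(23,0),(5,0)]⟩,⟨4,[(3,0),(11,2),(12,3),(10,0)]⟩⟩,⟨false,1,⟨3,[(26,
  0),(0,0),(18,1)]⟩,⟨0,[]⟩⟩,⟨false,1,⟨0,[(1,0),(1,0),(7,0),(17,0),(14,0)]⟩,⟨9,[(4,0),(0,6),(0,1),(6,
  5),(0,5),(0,0),(1,1),(10,0)]⟩⟩,⟨true,0,⟨0,[(44,0)]⟩,⟨0,[(43,0)]⟩⟩,⟨false,1,⟨0,[(1,0),(1,0),(7,0),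
  (17,0),(14,1)]⟩,⟨4,[(4,0),(0,1),(0,1),(6,0),(0,0),(0,0),(1,1),(10,0)]⟩⟩,[.o ⟨false,0,⟨0,[(18,0)]⟩,
  ⟨3,[(13,1),(0,1),(15,1),(8,0),(6,2)]⟩⟩,.a ⟨true,0,⟨0,[(3,0),(7,0),(17,0),(14,0)]⟩,⟨3,[(13,2),(0,
  2),(2,0),(6,0)]⟩⟩ ⟨true,0,⟨0,[(4,0)]⟩,⟨1,[(14,0),(3,0),(5,0),(1,0)]⟩⟩ ⟨false,1,⟨0,[(12,0),(16,0),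
  (2,0)]⟩,⟨59,[(6,9),(6,13),(0,29),(0,7),(10,4),(1,49),(1,19),(8,10),(2,9)]⟩⟩,.o ⟨false,0,⟨4,[(3,1),
  (11,0),(12,2),(10,1)]⟩,⟨5,[(1,3),(0,1),(24,0),(1,1),(9,0),(4,1)]⟩⟩,.o ⟨false,0,⟨31,[(3,19),(2,11),
  (12,3),(6,8),(0,2),(3,11),(0,3),(6,3)]⟩,⟨0,[(1,0),(0,0),(41,0)]⟩⟩]⟩) (.R ⟨0,false,false,true,[0,0,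
  0,1],[0,-1,1],[0,1,1],(⟨0,[(29,0)]⟩,⟨0,[(28,0)]⟩),(⟨0,[(22,0)]⟩,⟨1,[(3,0),(5,0),(19,0),(7,0)]⟩),
  ⟨0,[(0,0)]⟩,.k,.k,(.x 0 ⟨7,[(8,1),(1,1),(15,0),(0,0),(3,1),(2,4),(0,4)]⟩ ⟨1,[(9,0),(13,0),(14,0),
  (6,0)]⟩),(.x (-1) ⟨3,[(9,1),(16,0),(0,0),(3,1),(2,0),(0,0),(1,1)]⟩ ⟨0,[(22,0),(0,0)]⟩),.k,.k,
  ⟨false,0,⟨3,[(14,1),(11,0),(0,0),(8,1)]⟩,⟨0,[(11,0),(32,0)]⟩⟩,⟨true,0,⟨0,[(23,0),(5,0)]⟩,⟨4,[(3,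
  0),(11,2),(12,3),(10,0)]⟩⟩,⟨true,0,⟨1,[(14,0),(3,0),(5,0),(1,0)]⟩,⟨0,[(2,0),(41,0)]⟩⟩,⟨false,1,⟨0,
  [(1,0),(1,0),(7,0),(17,0),(14,0)]⟩,⟨9,[(4,0),(0,6),(0,1),(6,5),(0,5),(0,0),(1,1),(10,0)]⟩⟩,⟨false,
  0,⟨0,[]⟩,⟨0,[]⟩⟩,⟨false,0,⟨0,[]⟩,⟨0,[]⟩⟩,[.o ⟨false,0,⟨0,[(18,0)]⟩,⟨3,[(13,1),(0,1),(15,1),(8,0),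
  (6,2)]⟩⟩,.a ⟨true,0,⟨0,[(3,0),(7,0),(17,0),(14,0)]⟩,⟨3,[(13,2),(0,2),(2,0),(6,0)]⟩⟩ ⟨true,0,⟨1,
  [(34,0),(0,0)]⟩,⟨0,[]⟩⟩ ⟨false,1,⟨0,[(12,0),(16,0),(2,0)]⟩,⟨59,[(6,9),(6,13),(0,29),(0,7),(10,4),
  (1,49),(1,19),(8,10),(2,9)]⟩⟩,.o ⟨false,0,⟨4,[(3,1),(11,0),(12,2),(10,1)]⟩,⟨5,[(1,3),(0,1),(24,0),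
  (1,1),(9,0),(4,1)]⟩⟩,.o ⟨false,0,⟨31,[(3,19),(2,11),(12,3),(6,8),(0,2),(3,11),(0,3),(6,3)]⟩,⟨0,
  [(1,0),(0,0),(41,0)]⟩⟩]⟩))))) (.I [0,1,0,0,0,0,0,0,1] (.Q [0,0,-2,0,1,0,-1,0,0,-1,1,1] (.p true
  [0,0,1] [1,0,0,-1] (⟨0,[(35,0)]⟩,⟨0,[(34,0)]⟩) .k 2 (⟨0,[(25,0)]⟩,⟨0,[(26,0)]⟩) .k (.r (-1) ⟨7,
  [(0,3),(15,3),(6,0),(0,2)]⟩ ⟨1,[(1,1),(7,0),(1,0),(2,0)]⟩)) (.R ⟨1,false,false,false,[0,0,0,1],[0,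
  -1,1],[0,1,0,0,0,0,0,0,1],(⟨0,[(27,0)]⟩,⟨0,[(26,0)]⟩),(⟨0,[(20,0)]⟩,⟨0,[(35,0),(3,0)]⟩),⟨3,[(0,0),
  (5,0),(1,0),(18,2)]⟩,.k,.k,(.r (-1) ⟨7,[(9,1),(0,1),(3,0),(8,0),(1,3),(5,0)]⟩ ⟨2,[(2,0),(2,0),(6,
  0),(11,0),(17,0)]⟩),(.r 0 ⟨1,[(12,0),(12,0),(8,0)]⟩ ⟨4,[(2,2),(2,0),(3,1),(0,0),(6,0),(6,0)]⟩),.k,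
  .k,⟨false,0,⟨1,[(1,1),(10,0),(21,0),(8,0)]⟩,⟨0,[(2,0),(2,0),(4,0)]⟩⟩,⟨true,0,⟨0,[(21,0),(5,0)]⟩,
  ⟨0,[(26,0),(2,0)]⟩⟩,⟨true,0,⟨0,[(46,0)]⟩,⟨0,[]⟩⟩,⟨false,1,⟨0,[(2,0),(2,0),(4,0),(10,0),(5,0)]⟩,⟨0,
  [(4,0),(37,0)]⟩⟩,⟨false,0,⟨0,[(42,0)]⟩,⟨0,[(41,0),(2,0)]⟩⟩,⟨false,1,⟨0,[(2,0),(2,0),(4,0),(10,0),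
  (5,0),(14,0)]⟩,⟨0,[(4,0)]⟩⟩,[.a ⟨true,0,⟨0,[(8,0),(0,0),(25,0),(3,1),(2,0)]⟩,⟨3,[(11,2),(0,2),(2,
  0),(6,0)]⟩⟩ ⟨true,0,⟨0,[(1,0)]⟩,⟨0,[(2,0),(37,0)]⟩⟩ ⟨false,1,⟨0,[(10,0),(16,0),(2,0)]⟩,⟨59,[(4,9),
  (6,13),(0,29),(0,7),(10,4),(1,49),(1,19),(8,10),(2,9)]⟩⟩,.o ⟨false,1,⟨0,[(16,0),(27,0)]⟩,⟨0,[(28,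
  0),(13,0)]⟩⟩,.o ⟨false,0,⟨0,[(2,0),(0,0)]⟩,⟨15,[(0,7),(22,3),(0,0),(0,0),(1,7),(9,5)]⟩⟩,.o ⟨false,
  0,⟨0,[(26,0),(2,0),(2,0)]⟩,⟨0,[(0,0),(20,0)]⟩⟩]⟩) (.I [1,0,0,0,0,0,0,0,1] (.Q [0,0,0,0,0,-1,0,0,0,
  1,0,-1] (.p false [0,0,0,1] [1] (⟨0,[(28,0)]⟩,⟨0,[(27,0)]⟩) .k 1 (⟨0,[]⟩,⟨0,[]⟩) .k .k) (.R ⟨1,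
  false,false,true,[1,0,0,-1],[1,-1],[0,0,0,0,0,0,0,0,-1],(⟨0,[(28,0)]⟩,⟨0,[(29,0)]⟩),(⟨0,[(40,0)]⟩,
  ⟨0,[(41,0)]⟩),⟨0,[(0,0)]⟩,.k,.k,(.x (-1) ⟨11,[(8,3),(13,3),(3,4),(0,4),(11,1)]⟩ ⟨0,[(41,0)]⟩),(.r
  0 ⟨2,[(4,0),(2,0),(6,0),(11,0),(17,0)]⟩ ⟨7,[(11,1),(0,1),(3,0),(8,0),(1,3),(5,0)]⟩),.k,.k,⟨true,0,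
  ⟨0,[(4,0),(37,0),(1,0)]⟩,⟨0,[(1,0),(41,0)]⟩⟩,⟨false,0,⟨4,[(2,1),(12,0),(12,2),(10,1)]⟩,⟨0,[(29,0),
  (15,0)]⟩⟩,⟨false,1,⟨3,[(26,0),(0,0),(18,1)]⟩,⟨0,[]⟩⟩,⟨false,0,⟨9,[(2,1),(2,5),(0,1),(4,0),(4,1),
  (1,2),(5,0),(2,0)]⟩,⟨2,[(4,0),(7,1),(13,0),(2,2),(12,0),(1,4)]⟩⟩,⟨true,0,⟨0,[(44,0)]⟩,⟨0,[(43,
  0)]⟩⟩,⟨false,0,⟨1,[(5,0),(0,0),(25,0)]⟩,⟨2,[(4,0),(7,1),(13,0),(2,2),(12,0),(1,1)]⟩⟩,[.e ⟨false,1,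
  ⟨1,[(26,0),(18,0)]⟩,⟨0,[(1,0)]⟩⟩ ⟨false,0,⟨0,[(2,0),(8,0),(18,0),(13,0)]⟩,⟨1,[(29,1),(14,1),(0,0),
  (0,0)]⟩⟩,.o ⟨false,1,⟨5,[(16,1),(1,1),(7,0),(0,0),(11,1),(6,1)]⟩,⟨0,[(44,0)]⟩⟩,.o ⟨false,1,⟨1,
  [(29,1),(9,0),(5,0)]⟩,⟨4,[(2,1),(12,0),(12,2),(10,1)]⟩⟩,.a ⟨true,0,⟨0,[(29,0)]⟩,⟨0,[(28,0)]⟩⟩
  ⟨false,1,⟨2,[(4,0),(7,1),(13,0),(15,0),(1,1)]⟩,⟨2,[(1,0),(0,0),(24,0),(1,0),(1,0)]⟩⟩ ⟨true,0,⟨0,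
  [(2,0),(8,0),(18,0),(13,0)]⟩,⟨0,[(29,0),(14,0)]⟩⟩]⟩) (.R ⟨1,false,false,false,[0,0,0,1],[0,-1,1],
  [1,1,0,-1,0,0,0,0,1],(⟨0,[(29,0)]⟩,⟨0,[(28,0)]⟩),(⟨0,[(22,0)]⟩,⟨0,[(37,0),(3,0)]⟩),⟨2,[(0,0),(7,
  0),(1,0),(2,0),(15,1)]⟩,.k,.k,(.r (-1) ⟨7,[(11,1),(0,1),(3,0),(8,0),(1,3),(5,0)]⟩ ⟨2,[(4,0),(2,0),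
  (6,0),(11,0),(17,0)]⟩),(.r 0 ⟨1,[(14,0),(12,0),(8,0)]⟩ ⟨4,[(4,2),(2,0),(3,1),(0,0),(6,0),(6,0)]⟩),
  .k,.k,⟨false,0,⟨0,[(3,0),(32,0)]⟩,⟨0,[(4,0),(2,0),(4,0),(31,0)]⟩⟩,⟨true,0,⟨0,[(23,0),(5,0)]⟩,⟨4,
  [(2,0),(12,2),(12,3),(10,0)]⟩⟩,⟨true,0,⟨0,[(43,0)]⟩,⟨0,[(44,0)]⟩⟩,⟨false,1,⟨22,[(0,11),(3,20),(2,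
  20),(0,2),(1,2),(1,24),(12,8),(0,0),(2,10),(2,1),(11,1)]⟩,⟨0,[(6,0),(37,0)]⟩⟩,⟨false,0,⟨0,[]⟩,⟨3,
  [(26,0),(0,0),(18,1)]⟩⟩,⟨false,1,⟨22,[(0,11),(3,20),(2,20),(0,2),(1,2),(1,24),(12,8),(0,0),(2,10),
  (2,1),(11,24)]⟩,⟨0,[(6,0)]⟩⟩,[.a ⟨true,0,⟨0,[(2,0),(8,0),(17,0),(14,0)]⟩,⟨3,[(13,2),(0,2),(2,0),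
  (6,0)]⟩⟩ ⟨true,0,⟨0,[(1,0),(41,0)]⟩,⟨0,[(4,0),(37,0),(1,0)]⟩⟩ ⟨false,1,⟨0,[(12,0),(16,0),(2,0)]⟩,
  ⟨59,[(6,9),(6,13),(0,29),(0,7),(10,4),(1,49),(1,19),(8,10),(2,9)]⟩⟩,.o ⟨false,1,⟨0,[(18,0),(27,
  0)]⟩,⟨0,[(30,0),(13,0)]⟩⟩,.o ⟨false,0,⟨4,[(2,1),(12,0),(12,2),(10,1)]⟩,⟨1,[(29,1),(9,0),(5,0)]⟩⟩,
  .o ⟨false,0,⟨31,[(2,19),(3,11),(12,3),(6,8),(0,2),(3,11),(0,3),(6,3)]⟩,⟨3,[(0,3),(7,0),(1,0),(1,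
  1),(0,0),(16,0),(1,0),(11,1),(0,1)]⟩⟩]⟩)) (.Q [0,0,0,0,0,-1,0,0,0,1,0,-1] (.p false [0,0,0,1] [1]
  (⟨0,[(28,0)]⟩,⟨0,[(27,0)]⟩) .k 1 (⟨0,[]⟩,⟨0,[]⟩) .k .k) (.R ⟨1,false,false,true,[1,0,0,-1],[0,0,
  1],[0,1,0,0,0,0,0,0,-1],(⟨0,[(28,0)]⟩,⟨0,[(29,0)]⟩),(⟨0,[(38,0)]⟩,⟨0,[(37,0)]⟩),⟨0,[(0,0)]⟩,.k,.k,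
  (.x (-1) ⟨11,[(8,3),(13,3),(3,4),(0,4),(11,1)]⟩ ⟨0,[(41,0)]⟩),.k,(.r (-1) ⟨3,[(12,1),(3,0),(8,0),
  (0,1),(6,0),(2,1)]⟩ ⟨0,[(3,0),(3,0),(36,0)]⟩),.k,⟨true,0,⟨0,[(1,0),(34,0)]⟩,⟨0,[(3,0),(3,0)]⟩⟩,
  ⟨false,0,⟨0,[(23,0),(4,0)]⟩,⟨4,[(13,2),(1,0),(13,4),(9,1)]⟩⟩,⟨true,0,⟨0,[(48,0)]⟩,⟨0,[]⟩⟩,⟨false,
  0,⟨2,[(3,1),(1,0),(1,1),(17,0),(2,1),(3,0)]⟩,⟨2,[(1,2),(10,0),(0,1),(0,0),(2,0),(11,2),(0,0),(8,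
  0),(2,0)]⟩⟩,⟨false,0,⟨0,[(44,0)]⟩,⟨0,[(43,0),(2,0)]⟩⟩,⟨false,0,⟨2,[(3,1),(1,0),(1,1),(17,0),(2,1),
  (3,0),(11,2)]⟩,⟨4,[(1,4),(11,2),(1,0),(1,4),(11,4),(9,1)]⟩⟩,[.o ⟨false,0,⟨0,[(32,0)]⟩,⟨0,[(30,0),
  (15,0)]⟩⟩,.a ⟨true,0,⟨0,[(2,0),(8,0),(17,0),(14,1)]⟩,⟨1,[(13,0),(0,0),(2,0),(6,0)]⟩⟩ ⟨true,0,⟨0,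
  [(1,0)]⟩,⟨6,[(2,0),(0,2),(3,1),(6,0),(1,0),(10,1),(1,0),(12,0)]⟩⟩ ⟨false,0,⟨0,[(2,0),(8,0),(32,
  1)]⟩,⟨3,[(13,1),(15,3),(0,1),(5,1),(2,0),(6,0)]⟩⟩,.o ⟨false,1,⟨1,[(29,1),(9,0),(5,0)]⟩,⟨4,[(2,1),
  (12,0),(12,2),(10,1)]⟩⟩,.e ⟨false,1,⟨1,[(26,0),(18,0)]⟩,⟨0,[(3,0),(38,0)]⟩⟩ ⟨false,0,⟨0,[(2,0),(8,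
  0),(32,1)]⟩,⟨0,[(29,0),(0,0),(15,0)]⟩⟩]⟩) (.R ⟨0,false,false,true,[1,0,0,-1],[0,0,1],[0,1,0,0,0,0,
  0,0,-1],(⟨0,[(28,0)]⟩,⟨0,[(29,0)]⟩),(⟨0,[(38,0)]⟩,⟨0,[(37,0)]⟩),⟨0,[(0,0)]⟩,.k,.k,(.x (-1) ⟨11,
  [(8,3),(13,3),(3,4),(0,4),(11,1)]⟩ ⟨0,[(41,0)]⟩),.k,.k,.k,⟨true,0,⟨0,[(1,0),(34,0)]⟩,⟨0,[(3,0),(3,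
  0)]⟩⟩,⟨false,0,⟨0,[(23,0),(4,0)]⟩,⟨4,[(13,2),(1,0),(13,4),(9,1)]⟩⟩,⟨true,0,⟨0,[(48,0)]⟩,⟨0,[]⟩⟩,
  ⟨false,0,⟨2,[(3,1),(1,0),(1,1),(17,0),(2,1),(3,0)]⟩,⟨38,[(0,7),(0,38),(6,1),(1,1),(2,37),(0,11),
  (2,23),(11,30),(0,2),(8,14),(2,8)]⟩⟩,⟨false,0,⟨0,[]⟩,⟨0,[]⟩⟩,⟨false,0,⟨0,[]⟩,⟨0,[]⟩⟩,[.o ⟨false,0,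
  ⟨0,[(32,0)]⟩,⟨0,[(30,0),(15,0)]⟩⟩,.a ⟨true,0,⟨0,[(2,0),(8,0),(17,0),(14,1)]⟩,⟨1,[(13,0),(0,0),(2,
  0),(6,0)]⟩⟩ ⟨true,0,⟨0,[(1,0)]⟩,⟨23,[(0,3),(1,6),(0,7),(4,0),(1,0),(4,3),(11,7),(1,2),(12,3)]⟩⟩
  ⟨false,0,⟨0,[(2,0),(8,0),(32,1)]⟩,⟨3,[(13,1),(15,3),(0,1),(5,1),(2,0),(6,0)]⟩⟩,.o ⟨false,1,⟨1,
  [(29,1),(9,0),(5,0)]⟩,⟨4,[(2,1),(12,0),(12,2),(10,1)]⟩⟩,.e ⟨false,1,⟨1,[(26,0),(18,0)]⟩,⟨0,[(3,0),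
  (38,0)]⟩⟩ ⟨false,0,⟨0,[(2,0),(8,0),(32,1)]⟩,⟨0,[(29,0),(0,0),(15,0)]⟩⟩]⟩)))) (.Q [0,-1,0,1,0,0,0,
  0,0,1,0,-1] (.p false [0,0,0,1] [1] (⟨0,[(26,0)]⟩,⟨0,[(25,0)]⟩) .k 1 (⟨0,[]⟩,⟨0,[]⟩) .k .k) (.R
  ⟨1,false,false,false,[1,0,0,-1],[0,1],[0,1,0,0,0,0,0,0,-1],(⟨0,[(26,0)]⟩,⟨0,[(27,0)]⟩),(⟨0,[(39,
  0)]⟩,⟨0,[(38,0)]⟩),⟨11,[(0,3),(5,2),(1,2),(0,1),(1,0),(14,7),(1,2),(1,0)]⟩,.k,.k,(.x (-1) ⟨11,[(6,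
  3),(13,3),(3,4),(0,4),(11,1)]⟩ ⟨0,[(39,0)]⟩),(.x (-1) ⟨11,[(6,3),(13,3),(3,4),(0,4),(11,1)]⟩ ⟨0,
  [(39,0)]⟩),(.r (-1) ⟨1,[(2,1),(6,0),(0,0),(4,0)]⟩ ⟨1,[(12,1),(4,0),(7,0),(20,0)]⟩),.k,⟨false,1,⟨7,
  [(2,7),(6,1),(0,1),(3,0),(8,0),(7,0),(11,3)]⟩,⟨0,[(3,0),(23,0),(14,0)]⟩⟩,⟨true,0,⟨0,[(26,0)]⟩,⟨0,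
  [(21,0),(5,0),(1,0)]⟩⟩,⟨true,0,⟨0,[(46,0)]⟩,⟨0,[]⟩⟩,⟨false,0,⟨3,[(0,3),(2,1),(8,0),(3,0),(5,0),(2,
  0),(1,1)]⟩,⟨11,[(1,3),(0,5),(6,1),(0,3),(3,1),(6,1),(2,0),(2,11),(9,4)]⟩⟩,⟨false,0,⟨0,[(42,0)]⟩,
  ⟨0,[(41,0),(2,0)]⟩⟩,⟨false,0,⟨3,[(0,3),(2,1),(8,0),(9,0),(2,0),(1,1),(2,0),(11,2)]⟩,⟨3,[(1,1),(7,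
  1),(4,1),(6,1),(2,0),(2,3),(9,0)]⟩⟩,[.o ⟨false,0,⟨0,[(42,0)]⟩,⟨5,[(14,1),(1,1),(7,0),(0,0),(11,1),
  (6,1)]⟩⟩,.a ⟨true,0,⟨0,[(0,0),(26,0)]⟩,⟨0,[(41,0)]⟩⟩ ⟨true,0,⟨0,[(1,0),(4,0),(1,0),(0,0),(4,0),
  (24,3),(2,3)]⟩,⟨3,[(3,1),(8,0),(3,0),(5,0),(2,0),(1,1)]⟩⟩ ⟨false,0,⟨0,[(0,0)]⟩,⟨15,[(14,3),(1,7),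
  (7,0),(0,0),(1,15),(3,3),(5,5),(5,7)]⟩⟩,.o ⟨false,1,⟨1,[(27,1),(9,0),(5,0)]⟩,⟨0,[(2,0),(0,0)]⟩⟩,
  .e ⟨false,1,⟨1,[(24,0),(18,0)]⟩,⟨0,[(3,0),(23,0)]⟩⟩ ⟨false,0,⟨0,[(0,0)]⟩,⟨5,[(14,1),(1,1),(7,0),
  (0,0),(1,5),(9,1),(6,1)]⟩⟩]⟩) (.Q [0,0,0,0,0,-1,0,0,0,1,0,-1] (.p false [0,0,0,1] [1] (⟨0,[(27,
  0)]⟩,⟨0,[(26,0)]⟩) .k 1 (⟨0,[]⟩,⟨0,[]⟩) .k .k) (.R ⟨1,false,false,false,[1,0,0,-1],[0,1],[0,1,0,0,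
  0,0,0,0,-1],(⟨0,[(27,0)]⟩,⟨0,[(28,0)]⟩),(⟨0,[(40,0)]⟩,⟨0,[(39,0)]⟩),⟨0,[(0,0)]⟩,.k,.k,(.x (-1)
  ⟨11,[(7,3),(13,3),(3,4),(0,4),(11,1)]⟩ ⟨0,[(40,0)]⟩),(.x (-1) ⟨11,[(7,3),(13,3),(3,4),(0,4),(11,
  1)]⟩ ⟨0,[(40,0)]⟩),(.r (-1) ⟨1,[(3,1),(6,0),(0,0),(4,0)]⟩ ⟨1,[(13,1),(4,0),(7,0),(20,0)]⟩),.k,
  ⟨false,1,⟨7,[(3,7),(6,1),(0,1),(3,0),(8,0),(7,0),(11,3)]⟩,⟨0,[(4,0),(23,0),(14,0)]⟩⟩,⟨true,0,⟨0,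
  [(27,0)]⟩,⟨8,[(1,3),(4,1),(6,1),(14,4),(1,0),(2,0),(4,1),(2,0)]⟩⟩,⟨true,0,⟨0,[(47,0)]⟩,⟨0,[]⟩⟩,
  ⟨false,0,⟨0,[(4,0),(22,0),(0,0),(14,0)]⟩,⟨5,[(1,3),(0,1),(8,1),(13,1),(2,1),(9,0),(5,0)]⟩⟩,⟨false,
  0,⟨0,[(43,0)]⟩,⟨0,[(42,0),(2,0)]⟩⟩,⟨false,0,⟨0,[(4,0),(22,0),(0,0),(14,1)]⟩,⟨7,[(1,7),(0,1),(7,1),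
  (0,1),(4,1),(8,2),(19,0)]⟩⟩,[.o ⟨false,0,⟨0,[(43,0)]⟩,⟨5,[(15,1),(1,1),(7,0),(0,0),(11,1),(6,
  1)]⟩⟩,.e ⟨true,0,⟨0,[(2,0),(4,0),(1,0),(0,0),(4,0),(24,3),(2,3)]⟩,⟨3,[(4,1),(8,0),(3,0),(5,0),(2,
  0),(1,1)]⟩⟩ ⟨true,0,⟨4,[(13,1),(4,0),(8,4),(13,0),(1,0),(1,0)]⟩,⟨0,[(1,0)]⟩⟩,.o ⟨false,1,⟨1,[(28,
  1),(9,0),(5,0)]⟩,⟨0,[(3,0),(0,0)]⟩⟩,.a ⟨true,0,⟨0,[(28,0)]⟩,⟨0,[(27,0)]⟩⟩ ⟨false,1,⟨1,[(25,0),(18,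
  0)]⟩,⟨0,[(4,0),(23,0)]⟩⟩ ⟨true,0,⟨0,[(27,0),(15,0)]⟩,⟨0,[(1,0)]⟩⟩]⟩) (.R ⟨0,false,false,false,[1,
  0,0,-1],[0,1],[1,0,0,0,0,0,0,0,-1],(⟨0,[(27,0)]⟩,⟨0,[(28,0)]⟩),(⟨0,[(40,0)]⟩,⟨0,[(39,0)]⟩),⟨0,[(0,
  0)]⟩,.k,.k,(.x (-1) ⟨11,[(7,3),(13,3),(3,4),(0,4),(11,1)]⟩ ⟨0,[(40,0)]⟩),(.x (-1) ⟨11,[(7,3),(13,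
  3),(3,4),(0,4),(11,1)]⟩ ⟨0,[(40,0)]⟩),.k,.k,⟨false,1,⟨0,[(3,0),(7,0)]⟩,⟨3,[(4,1),(8,0),(9,0),(2,
  0),(1,1),(2,0),(11,2)]⟩⟩,⟨true,0,⟨0,[(27,0)]⟩,⟨8,[(1,3),(4,1),(6,1),(14,4),(1,0),(2,0),(4,1),(2,
  0)]⟩⟩,⟨true,0,⟨0,[]⟩,⟨0,[(47,0)]⟩⟩,⟨false,0,⟨0,[(4,0),(22,0),(0,0),(14,0)]⟩,⟨5,[(1,3),(0,1),(8,1),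
  (13,1),(2,1),(9,0),(5,0)]⟩⟩,⟨false,0,⟨0,[]⟩,⟨0,[]⟩⟩,⟨false,0,⟨0,[]⟩,⟨0,[]⟩⟩,[.o ⟨false,0,⟨0,[(43,
  0)]⟩,⟨5,[(15,1),(1,1),(7,0),(0,0),(11,1),(6,1)]⟩⟩,.e ⟨true,0,⟨0,[(2,0)]⟩,⟨1,[(13,0),(3,0),(5,0),
  (2,0)]⟩⟩ ⟨true,0,⟨4,[(13,1),(4,0),(8,4),(13,0),(1,0),(1,0)]⟩,⟨0,[(1,0)]⟩⟩,.o ⟨false,1,⟨1,[(28,1),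
  (9,0),(5,0)]⟩,⟨0,[(3,0),(0,0)]⟩⟩,.a ⟨true,0,⟨0,[(28,0)]⟩,⟨0,[(27,0)]⟩⟩ ⟨false,1,⟨3,[(2,1),(22,0),
  (18,1),(0,0)]⟩,⟨3,[(4,1),(8,0),(3,0),(5,0),(2,0),(1,1)]⟩⟩ ⟨true,0,⟨0,[(27,0),(15,0)]⟩,⟨0,[(1,
  0)]⟩⟩]⟩)))))) (.Q [0,1,1,0,0,0,0,0,1,0,0,-1] (.p false [0,0,0,1] [] (⟨0,[(23,0)]⟩,⟨0,[(22,0)]⟩)
  .k 0 (⟨0,[]⟩,⟨0,[]⟩) .k .k) (.K ⟨0,[0,0,0,1],0,0,(⟨0,[(24,0)]⟩,⟨0,[(23,0)]⟩),.k,(.r (-1) ⟨7,[(6,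
  1),(0,1),(3,0),(8,0),(1,3),(5,0)]⟩ ⟨9,[(1,1),(7,4),(0,0),(3,0),(6,3),(1,1),(2,0),(0,0)]⟩),(.x 0
  ⟨0,[(36,0)]⟩ ⟨11,[(3,3),(13,3),(3,4),(0,4),(11,1)]⟩),.k,.k,[⟨0,[(24,0)]⟩,⟨0,[(23,0)]⟩,⟨0,[(1,0),
  (26,0)]⟩,⟨0,[(0,0)]⟩]⟩) (.I [0,1,1,1,-1,0,0,0,-1] (.Q [0,0,-2,0,1,0,-1,0,0,-1,1,1] (.p true [0,0,
  1] [1,0,0,-1] (⟨0,[(34,0)]⟩,⟨0,[(33,0)]⟩) .k 2 (⟨0,[(24,0)]⟩,⟨0,[(25,0)]⟩) .k (.r (-1) ⟨1,[(15,0),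
  (7,0),(20,0)]⟩ ⟨3,[(0,1),(7,0),(4,0),(8,0),(9,2)]⟩)) (.R ⟨1,false,false,true,[0,0,0,1],[1,0,-1],
  [1,0,0,-1,0,0,0,0,1],(⟨0,[(26,0)]⟩,⟨0,[(25,0)]⟩),(⟨0,[(34,0)]⟩,⟨0,[(35,0)]⟩),⟨3,[(0,0),(4,0),(1,
  0),(18,2)]⟩,.k,.k,(.r (-1) ⟨7,[(8,1),(0,1),(3,0),(8,0),(1,3),(5,0)]⟩ ⟨4,[(1,0),(9,1),(4,0),(6,
  1)]⟩),.k,(.r (-2) ⟨17,[(8,6),(1,1),(4,2),(0,3),(4,0),(1,6),(0,15)]⟩ ⟨1,[(1,1),(7,0),(1,0),(2,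
  0)]⟩),.k,⟨true,1,⟨7,[(4,2),(3,2),(7,0),(7,3),(14,2),(0,1)]⟩,⟨0,[(1,0),(31,0)]⟩⟩,⟨false,1,⟨0,[(0,
  0)]⟩,⟨0,[(25,0),(5,0)]⟩⟩,⟨false,1,⟨0,[(40,0),(2,0)]⟩,⟨0,[(41,0)]⟩⟩,⟨false,0,⟨0,[(2,0),(24,0)]⟩,⟨3,
  [(16,1),(3,0),(3,1),(0,3),(5,2),(7,0)]⟩⟩,⟨true,0,⟨0,[]⟩,⟨0,[(45,0)]⟩⟩,⟨false,0,⟨1,[(0,0),(0,0),(0,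
  0),(6,0),(1,0),(15,0)]⟩,⟨5,[(4,1),(10,3),(8,2),(0,5),(5,1),(7,1),(0,1),(2,2)]⟩⟩,[.o ⟨false,0,⟨0,
  [(27,0)]⟩,⟨3,[(16,1),(5,1),(13,0),(6,0)]⟩⟩,.a ⟨true,0,⟨1,[(10,0),(0,0),(2,0),(6,0)]⟩,⟨0,[(7,0),(0,
  0),(25,0),(3,1),(2,1)]⟩⟩ ⟨true,1,⟨5,[(8,0),(5,0),(9,2),(14,1),(0,2),(2,1)]⟩,⟨0,[(1,0)]⟩⟩ ⟨false,1,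
  ⟨0,[(0,0),(32,0)]⟩,⟨1,[(4,0),(20,1),(3,0),(1,0)]⟩⟩,.o ⟨false,0,⟨0,[(20,0),(4,0),(2,0)]⟩,⟨15,[(0,
  7),(21,3),(0,0),(0,0),(1,7),(9,5)]⟩⟩,.o ⟨false,0,⟨0,[(25,0),(2,0),(2,0)]⟩,⟨0,[(0,0),(19,0)]⟩⟩]⟩)
  (.Q [0,0,0,0,0,-1,0,0,0,1,0,-1] (.p false [0,0,0,1] [1] (⟨0,[(26,0)]⟩,⟨0,[(25,0)]⟩) .k 1 (⟨0,[]⟩,
  ⟨0,[]⟩) .k .k) (.Q [0,0,1,0,0,0,0,0,1,1,0,-1] (.p false [0,0,0,1] [1] (⟨0,[(27,0)]⟩,⟨0,[(26,0)]⟩)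
  .k 1 (⟨0,[]⟩,⟨0,[]⟩) .k .k) (.R ⟨1,false,false,true,[1,0,0,-1],[0,1],[0,0,0,0,0,0,0,0,-1],(⟨0,
  [(27,0)]⟩,⟨0,[(28,0)]⟩),(⟨0,[(40,0)]⟩,⟨0,[(39,0)]⟩),⟨0,[(1,0)]⟩,.k,.k,(.x (-1) ⟨11,[(7,3),(13,3),
  (3,4),(0,4),(11,1)]⟩ ⟨0,[(40,0)]⟩),(.x (-1) ⟨11,[(7,3),(13,3),(3,4),(0,4),(11,1)]⟩ ⟨0,[(40,0)]⟩),
  (.r (-1) ⟨15,[(5,7),(4,1),(0,9),(3,8),(8,0),(0,3),(1,7),(4,0)]⟩ ⟨19,[(3,7),(9,15),(4,7),(6,0),(0,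
  14)]⟩),.k,⟨false,1,⟨17,[(2,0),(0,8),(0,0),(5,0),(0,22),(3,0),(9,3),(15,1)]⟩,⟨0,[(3,0),(22,0)]⟩⟩,
  ⟨true,0,⟨0,[(27,0)]⟩,⟨15,[(5,5),(7,5),(1,3),(1,3),(8,2),(1,9),(1,5),(7,2),(2,3)]⟩⟩,⟨false,1,⟨3,
  [(25,0),(0,0),(18,1)]⟩,⟨0,[]⟩⟩,⟨false,0,⟨0,[(0,0),(42,0)]⟩,⟨17,[(4,5),(0,7),(5,1),(3,7),(9,1),(2,
  3),(9,4),(6,8)]⟩⟩,⟨true,0,⟨0,[(43,0)]⟩,⟨0,[(42,0)]⟩⟩,⟨false,0,⟨0,[(0,0),(42,1)]⟩,⟨0,[(5,0),(9,0),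
  (29,0)]⟩⟩,[.o ⟨false,0,⟨0,[(43,0),(3,0)]⟩,⟨23,[(10,1),(4,5),(0,1),(0,5),(20,8),(2,3),(3,12)]⟩⟩,.o
  ⟨false,0,⟨0,[(43,0)]⟩,⟨5,[(15,1),(1,1),(7,0),(0,0),(11,1),(6,1)]⟩⟩,.o ⟨false,1,⟨1,[(28,1),(9,0),
  (5,0)]⟩,⟨4,[(2,1),(11,0),(12,2),(10,1)]⟩⟩,.a ⟨true,0,⟨0,[(28,0)]⟩,⟨0,[(27,0)]⟩⟩ ⟨true,0,⟨0,[(3,0),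
  (7,0)]⟩,⟨1,[(13,0),(3,0),(5,0),(2,0)]⟩⟩ ⟨false,0,⟨0,[(27,0),(15,0)]⟩,⟨23,[(10,1),(4,5),(0,1),(0,
  5),(10,23),(9,8),(2,3),(3,12)]⟩⟩]⟩) (.R ⟨1,false,false,true,[0,0,0,1],[0,-1,1],[0,0,0,0,0,0,0,0,
  1],(⟨0,[(28,0)]⟩,⟨0,[(27,0)]⟩),(⟨0,[(21,0)]⟩,⟨1,[(2,0),(5,0),(19,0),(7,0)]⟩),⟨3,[(0,0),(3,0),(2,
  0),(1,0),(13,0),(2,0),(1,1),(14,0)]⟩,.k,.k,(.r (-1) ⟨7,[(10,1),(0,1),(3,0),(8,0),(1,3),(5,0)]⟩ ⟨4,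
  [(3,0),(9,1),(4,0),(6,1)]⟩),(.r 0 ⟨1,[(13,0),(12,0),(8,0)]⟩ ⟨4,[(3,0),(6,2),(7,0),(6,1)]⟩),.k,.k,
  ⟨false,1,⟨1,[(13,0),(12,0),(8,0),(8,0),(0,0)]⟩,⟨0,[(3,0),(6,0)]⟩⟩,⟨true,0,⟨0,[(22,0),(5,0)]⟩,⟨4,
  [(2,0),(11,2),(12,3),(10,0)]⟩⟩,⟨false,1,⟨3,[(25,0),(0,0),(18,1)]⟩,⟨0,[]⟩⟩,⟨false,0,⟨0,[(4,0),(12,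
  0)]⟩,⟨19,[(12,1),(0,9),(0,3),(11,9),(0,19),(1,9),(8,2),(6,14)]⟩⟩,⟨true,0,⟨0,[(43,0)]⟩,⟨0,[(42,
  0)]⟩⟩,⟨false,0,⟨0,[(5,0)]⟩,⟨29,[(2,1),(10,9),(0,5),(5,19),(5,14),(0,27),(10,1),(6,24)]⟩⟩,[.o
  ⟨false,0,⟨0,[(17,0)]⟩,⟨3,[(12,1),(0,1),(15,1),(8,0),(6,2)]⟩⟩,.a ⟨true,0,⟨0,[(2,0),(7,0),(17,0),
  (14,0)]⟩,⟨3,[(12,2),(0,2),(2,0),(6,0)]⟩⟩ ⟨true,1,⟨1,[(26,0),(18,0)]⟩,⟨1,[(0,0),(1,0),(0,0),(19,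
  0)]⟩⟩ ⟨false,1,⟨7,[(0,1),(4,3),(4,3),(13,1),(1,2),(1,1),(15,0)]⟩,⟨19,[(12,1),(0,9),(0,3),(12,19),
  (1,9),(8,2),(6,4)]⟩⟩,.o ⟨false,0,⟨4,[(2,1),(11,0),(12,2),(10,1)]⟩,⟨3,[(0,3),(24,0),(0,2)]⟩⟩,.o
  ⟨false,0,⟨19,[(2,15),(11,7),(10,4),(0,4),(0,3),(10,5)]⟩,⟨1,[(0,1),(25,0),(17,0)]⟩⟩]⟩)) (.R ⟨0,
  false,false,false,[1,0,0,-1],[1,0,-1],[1,1,0,-1,0,0,0,0,-1],(⟨0,[(26,0)]⟩,⟨0,[(27,0)]⟩),(⟨0,[(35,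
  0)]⟩,⟨0,[(36,0)]⟩),⟨0,[(0,0)]⟩,.k,.k,(.x (-1) ⟨11,[(6,3),(13,3),(3,4),(0,4),(11,1)]⟩ ⟨0,[(39,
  0)]⟩),.k,.k,.k,⟨false,0,⟨0,[(2,0),(6,0)]⟩,⟨1,[(12,0),(12,0),(8,0),(8,0),(0,0)]⟩⟩,⟨true,0,⟨4,[(1,
  0),(11,2),(12,3),(10,0)]⟩,⟨0,[(21,0),(5,0)]⟩⟩,⟨true,0,⟨0,[(41,0)]⟩,⟨0,[(42,0)]⟩⟩,⟨false,1,⟨29,[(1,
  1),(10,9),(0,5),(5,19),(5,14),(0,27),(10,1),(6,24)]⟩,⟨0,[(4,0)]⟩⟩,⟨false,0,⟨0,[]⟩,⟨0,[]⟩⟩,⟨false,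
  0,⟨0,[]⟩,⟨0,[]⟩⟩,[.a ⟨true,0,⟨1,[(11,0),(0,0),(2,0),(6,0)]⟩,⟨0,[(1,0),(7,0),(17,0),(14,1)]⟩⟩
  ⟨false,0,⟨2,[(2,0),(1,1),(9,1),(11,1),(16,0)]⟩,⟨1,[(25,0),(16,1),(1,0)]⟩⟩ ⟨true,0,⟨14,[(1,0),(10,
  4),(0,2),(5,9),(6,13),(10,0),(6,4)]⟩,⟨3,[(0,3),(0,2),(4,0),(1,0),(0,3),(17,2),(14,7)]⟩⟩,.o ⟨false,
  1,⟨0,[(28,0),(15,0)]⟩,⟨0,[(30,0)]⟩⟩,.o ⟨false,1,⟨1,[(27,1),(9,0),(5,0)]⟩,⟨4,[(1,1),(11,0),(12,2),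
  (10,1)]⟩⟩,.e ⟨false,0,⟨3,[(1,0),(0,2),(0,0),(5,0),(0,2),(3,0)]⟩,⟨15,[(12,7),(4,3),(6,2),(0,10),
  (18,5)]⟩⟩ ⟨false,1,⟨0,[(26,0),(1,0),(15,0)]⟩,⟨3,[(0,3),(0,2),(4,0),(1,0),(0,3),(17,2),(14,
  7)]⟩⟩]⟩))) (.Q [0,0,0,0,0,1,0,0,0,-1,0,1] (.p true [0,0,0,1] [1] (⟨0,[(25,0)]⟩,⟨0,[(24,0)]⟩) .k 1
  (⟨0,[]⟩,⟨0,[]⟩) .k .k) (.Q [0,0,1,1,0,0,0,0,1,1,0,-1] (.p false [0,0,0,1] [1] (⟨0,[(26,0)]⟩,⟨0,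
  [(25,0)]⟩) .k 1 (⟨0,[]⟩,⟨0,[]⟩) .k .k) (.R ⟨0,false,false,false,[1,0,0,-1],[0,1],[1,1],(⟨0,[(26,
  0)]⟩,⟨0,[(27,0)]⟩),(⟨0,[(39,0)]⟩,⟨0,[(38,0)]⟩),⟨0,[(1,0)]⟩,.k,.k,(.x (-1) ⟨11,[(6,3),(13,3),(3,4),
  (0,4),(11,1)]⟩ ⟨0,[(39,0)]⟩),(.x (-1) ⟨11,[(6,3),(13,3),(3,4),(0,4),(11,1)]⟩ ⟨0,[(39,0)]⟩),.k,.k,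
  ⟨false,1,⟨0,[(41,0),(1,0)]⟩,⟨4,[(12,1),(4,0),(22,0),(1,0),(1,0)]⟩⟩,⟨true,0,⟨0,[(26,0)]⟩,⟨8,[(1,3),
  (4,0),(1,0),(18,4),(1,3),(2,2),(4,0)]⟩⟩,⟨false,1,⟨3,[(24,0),(0,2)]⟩,⟨0,[(3,0),(17,0),(4,0),(2,
  0)]⟩⟩,⟨true,0,⟨0,[(0,0)]⟩,⟨0,[(4,0),(14,0)]⟩⟩,⟨false,0,⟨0,[]⟩,⟨0,[]⟩⟩,⟨false,0,⟨0,[]⟩,⟨0,[]⟩⟩,[.o
  ⟨false,0,⟨0,[(42,0)]⟩,⟨5,[(14,1),(1,1),(7,0),(0,0),(11,1),(6,1)]⟩⟩,.e ⟨true,0,⟨0,[]⟩,⟨1,[(32,0),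
  (0,0)]⟩⟩ ⟨true,0,⟨4,[(12,1),(4,0),(8,4),(13,0),(1,0),(1,0)]⟩,⟨6,[(1,3),(2,1),(1,0),(1,0),(7,1),(2,
  3),(2,0),(2,0),(1,0)]⟩⟩,.o ⟨false,1,⟨1,[(27,1),(9,0),(5,0)]⟩,⟨0,[(21,0),(4,0),(2,0)]⟩⟩,.a ⟨true,0,
  ⟨0,[(27,0)]⟩,⟨0,[(26,0)]⟩⟩ ⟨false,1,⟨3,[(24,0),(0,0),(17,1)]⟩,⟨3,[(32,0),(0,0),(6,1)]⟩⟩ ⟨true,0,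
  ⟨0,[(26,0),(15,0)]⟩,⟨6,[(1,3),(2,1),(1,0),(1,0),(7,1),(2,3),(2,0),(2,0),(1,0)]⟩⟩]⟩) (.R ⟨0,false,
  false,true,[1,0,0,-1],[0,1],[1,0,1],(⟨0,[(26,0)]⟩,⟨0,[(27,0)]⟩),(⟨0,[(39,0)]⟩,⟨0,[(38,0)]⟩),⟨0,
  [(1,0)]⟩,.k,.k,(.x (-1) ⟨11,[(6,3),(13,3),(3,4),(0,4),(11,1)]⟩ ⟨0,[(39,0)]⟩),(.x (-1) ⟨11,[(6,3),
  (13,3),(3,4),(0,4),(11,1)]⟩ ⟨0,[(39,0)]⟩),.k,.k,⟨false,1,⟨5,[(2,1),(6,0),(0,0),(4,0),(8,0),(19,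
  0)]⟩,⟨0,[(42,0),(3,0)]⟩⟩,⟨true,0,⟨0,[(26,0)]⟩,⟨8,[(1,3),(4,0),(1,0),(18,4),(1,3),(2,2),(4,0)]⟩⟩,
  ⟨false,1,⟨1,[(25,0),(6,0),(0,0),(10,0)]⟩,⟨0,[(0,0),(25,0),(15,0)]⟩⟩,⟨true,0,⟨1,[(12,0),(9,0),(2,
  0),(0,1),(3,0),(11,0)]⟩,⟨0,[(0,0)]⟩⟩,⟨false,0,⟨0,[]⟩,⟨0,[]⟩⟩,⟨false,0,⟨0,[]⟩,⟨0,[]⟩⟩,[.o ⟨false,0,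
  ⟨0,[(42,0),(3,0)]⟩,⟨23,[(9,1),(4,5),(0,1),(0,5),(20,8),(2,3),(3,12)]⟩⟩,.o ⟨false,0,⟨0,[(42,0)]⟩,
  ⟨5,[(14,1),(1,1),(7,0),(0,0),(11,1),(6,1)]⟩⟩,.o ⟨false,1,⟨1,[(27,1),(9,0),(5,0)]⟩,⟨0,[(21,0),(4,
  0),(2,0)]⟩⟩,.a ⟨true,0,⟨0,[(27,0)]⟩,⟨0,[(26,0)]⟩⟩ ⟨true,0,⟨0,[]⟩,⟨0,[(46,0)]⟩⟩ ⟨false,0,⟨0,[(26,
  0),(15,0)]⟩,⟨34,[(0,1),(0,7),(0,1),(3,1),(1,1),(5,10),(1,8),(0,0),(9,24),(9,7),(6,25)]⟩⟩]⟩)) (.I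
  [1,0,1,0,0,0,0,0,1] (.R ⟨1,false,false,true,[1,0,0,-1],[0,1],[0,1,0,0,0,0,0,0,-1],(⟨0,[(26,0)]⟩,
  ⟨0,[(27,0)]⟩),(⟨0,[(39,0)]⟩,⟨0,[(38,0)]⟩),⟨0,[(1,0)]⟩,.k,.k,(.x (-1) ⟨11,[(6,3),(13,3),(3,4),(0,
  4),(11,1)]⟩ ⟨0,[(39,0)]⟩),(.x (-1) ⟨11,[(6,3),(13,3),(3,4),(0,4),(11,1)]⟩ ⟨0,[(39,0)]⟩),(.r (-1)
  ⟨15,[(4,7),(4,1),(0,9),(3,8),(8,0),(0,3),(1,7),(4,0)]⟩ ⟨1,[(12,1),(4,0),(7,0),(20,0)]⟩),.k,⟨false,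
  1,⟨3,[(4,1),(5,1),(8,1),(4,0),(1,1),(16,0)]⟩,⟨0,[(0,0),(41,0)]⟩⟩,⟨true,0,⟨0,[(26,0)]⟩,⟨10,[(0,2),
  (3,2),(7,2),(1,1),(1,1),(10,7),(1,2),(7,2),(2,1)]⟩⟩,⟨true,0,⟨0,[(46,0)]⟩,⟨0,[]⟩⟩,⟨false,0,⟨0,[(0,
  0),(25,0),(15,0)]⟩,⟨6,[(2,0),(0,2),(0,2),(9,2),(9,0),(2,0),(9,1),(6,2)]⟩⟩,⟨false,0,⟨0,[(42,0)]⟩,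
  ⟨0,[(41,0),(2,0)]⟩⟩,⟨false,0,⟨0,[(0,0),(25,0),(15,1)]⟩,⟨0,[(4,0),(9,0),(29,0)]⟩⟩,[.o ⟨false,0,⟨0,
  [(42,0),(3,0)]⟩,⟨23,[(9,1),(4,5),(0,1),(0,5),(20,8),(2,3),(3,12)]⟩⟩,.o ⟨false,0,⟨0,[(42,0)]⟩,⟨5,
  [(14,1),(1,1),(7,0),(0,0),(11,1),(6,1)]⟩⟩,.o ⟨false,1,⟨1,[(27,1),(9,0),(5,0)]⟩,⟨0,[(21,0),(4,0),
  (2,0)]⟩⟩,.a ⟨true,0,⟨0,[(27,0)]⟩,⟨0,[(26,0)]⟩⟩ ⟨true,0,⟨0,[(4,0),(21,0),(1,0)]⟩,⟨0,[(0,0)]⟩⟩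
  ⟨false,0,⟨0,[(26,0),(15,0)]⟩,⟨11,[(2,0),(1,0),(9,3),(1,2),(10,10),(9,3),(2,1),(3,6)]⟩⟩]⟩) (.Q [0,
  0,1,1,0,0,0,0,1,1,0,-1] (.p false [0,0,0,1] [1] (⟨0,[(27,0)]⟩,⟨0,[(26,0)]⟩) .k 1 (⟨0,[]⟩,⟨0,[]⟩)
  .k .k) (.R ⟨1,false,false,true,[1,0,0,-1],[0,1],[0,0,0,0,0,0,0,0,-1],(⟨0,[(27,0)]⟩,⟨0,[(28,0)]⟩),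
  (⟨0,[(40,0)]⟩,⟨0,[(39,0)]⟩),⟨0,[(2,0)]⟩,.k,.k,(.x (-1) ⟨11,[(7,3),(13,3),(3,4),(0,4),(11,1)]⟩ ⟨0,
  [(40,0)]⟩),(.x (-1) ⟨11,[(7,3),(13,3),(3,4),(0,4),(11,1)]⟩ ⟨0,[(40,0)]⟩),(.r (-1) ⟨15,[(1,7),(8,
  9),(0,1),(3,2),(0,3),(7,2),(0,3),(6,2)]⟩ ⟨1,[(13,1),(4,0),(7,0),(20,0)]⟩),.k,⟨false,1,⟨8,[(1,4),
  (8,0),(0,5),(4,0),(8,1),(15,0)]⟩,⟨1,[(13,0),(9,0),(2,0),(4,0),(11,0)]⟩⟩,⟨true,0,⟨0,[(27,0)]⟩,⟨15,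
  [(5,5),(7,5),(1,3),(1,3),(8,2),(1,9),(1,5),(7,2),(2,3)]⟩⟩,⟨false,1,⟨3,[(25,0),(0,0),(18,1)]⟩,⟨0,
  []⟩⟩,⟨false,0,⟨0,[(0,0)]⟩,⟨6,[(3,0),(0,2),(0,2),(9,2),(9,0),(2,0),(9,1),(6,2)]⟩⟩,⟨true,0,⟨0,[(43,
  0)]⟩,⟨0,[(42,0)]⟩⟩,⟨false,0,⟨0,[(0,0),(42,0)]⟩,⟨0,[(5,0),(9,0),(29,0)]⟩⟩,[.o ⟨false,0,⟨0,[(43,0),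
  (3,0)]⟩,⟨23,[(10,1),(4,5),(0,1),(0,5),(20,8),(2,3),(3,12)]⟩⟩,.o ⟨false,0,⟨0,[(43,0)]⟩,⟨5,[(15,1),
  (1,1),(7,0),(0,0),(11,1),(6,1)]⟩⟩,.o ⟨false,1,⟨1,[(28,1),(9,0),(5,0)]⟩,⟨0,[(22,0),(4,0),(2,0)]⟩⟩,
  .a ⟨true,0,⟨0,[(28,0)]⟩,⟨0,[(27,0)]⟩⟩ ⟨true,0,⟨0,[(1,0)]⟩,⟨1,[(13,0),(3,0),(5,0),(2,0)]⟩⟩ ⟨false,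
  0,⟨0,[(27,0),(15,0)]⟩,⟨11,[(3,0),(1,0),(9,3),(1,2),(10,10),(9,3),(2,1),(3,6)]⟩⟩]⟩) (.R ⟨1,false,
  false,false,[1,0,0,-1],[0,-1,1],[0,1,0,0,0,0,0,0,-1],(⟨0,[(27,0)]⟩,⟨0,[(28,0)]⟩),(⟨0,[(21,0)]⟩,⟨0,
  [(36,0),(3,0)]⟩),⟨0,[(2,0)]⟩,.k,.k,(.x (-1) ⟨11,[(7,3),(13,3),(3,4),(0,4),(11,1)]⟩ ⟨0,[(40,0)]⟩),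
  (.r 1 ⟨0,[(0,0),(12,0),(13,0)]⟩ ⟨17,[(10,6),(1,1),(4,2),(0,3),(4,0),(1,6),(0,15)]⟩),.k,.k,⟨true,
  (-1),⟨0,[(1,0),(11,0),(28,0)]⟩,⟨4,[(3,2),(2,2),(11,0),(7,0),(15,1)]⟩⟩,⟨false,0,⟨0,[(27,0),(5,0)]⟩,
  ⟨0,[(0,0),(2,0),(19,0),(19,2)]⟩⟩,⟨true,0,⟨0,[(47,0)]⟩,⟨0,[]⟩⟩,⟨false,1,⟨5,[(6,1),(10,3),(8,2),(0,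
  5),(5,1),(7,1),(0,1),(2,2)]⟩,⟨0,[(0,0),(11,0),(0,0)]⟩⟩,⟨false,0,⟨0,[(43,0)]⟩,⟨0,[(42,0),(2,0)]⟩⟩,
  ⟨false,1,⟨3,[(18,1),(3,0),(3,1),(0,3),(5,2),(7,0)]⟩,⟨0,[(4,0),(24,0)]⟩⟩,[.a ⟨true,0,⟨0,[(9,0),(0,
  0),(25,0),(3,1),(2,0)]⟩,⟨3,[(12,2),(0,2),(2,0),(6,0)]⟩⟩ ⟨false,0,⟨0,[(1,0),(45,0)]⟩,⟨1,[(26,0),
  (18,0)]⟩⟩ ⟨true,0,⟨2,[(6,0),(10,1),(9,2),(5,0),(7,0),(0,0)]⟩,⟨0,[(0,0),(2,0),(9,0),(9,0),(19,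
  1)]⟩⟩,.o ⟨false,1,⟨0,[(17,0),(27,0)]⟩,⟨0,[(29,0),(13,0)]⟩⟩,.o ⟨false,1,⟨1,[(28,1),(9,0),(5,0)]⟩,
  ⟨0,[(22,0),(4,0),(2,0)]⟩⟩,.e ⟨false,0,⟨0,[(1,0)]⟩,⟨1,[(26,0),(6,0),(0,0),(10,0)]⟩⟩ ⟨false,1,⟨0,
  [(17,0),(9,0),(17,0)]⟩,⟨0,[(0,0),(2,0),(9,0),(9,0),(19,1)]⟩⟩]⟩))))))))))

theorem ok83 : chk (cU (-1) true 10) t83 r47 = true := by decide +kernel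

end Helper11.CT.T1_34_m1_m1_u
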