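import Pool.Agent.Helper11.CT.T.T1_34_m1_m1_u_p0
import Pool.Agent.Helper11.CT.T.T1_34_m1_m1_u_p1
import Pool.Agent.Helper11.CT.T.T1_34_m1_m1_u_p2
import Pool.Agent.Helper11.CT.T.T1_34_m1_m1_u_p3

set_option autoImplicit false
set_option linter.all false

namespace Helper11.CT.T1_34_m1_m1_u

open Helper11.CT

noncomputable def t7 : Tre :=
  .Q [0,0,2,0,-1,0,1,0,0,1,-1] (.p false [0,0,1] [1] (⟨0,[(23,0)]⟩,⟨0,[(22,0)]⟩) .k 1 (⟨0,[]⟩,⟨0,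
  []⟩) .k .k) t5 t6

theorem ok7 : chk (cU (-1) true 10) t7 l8 = true :=
  chk_Q (e' := [0,0,-2,0,1,0,-1,0,0,-1,1]) (by decide +kernel) (by decide +kernel) ok5 ok6

noncomputable def t9 : Tre :=
  .Q [0,-1,0,1,0,0,-1,-1,0,0,1] (.p true [0,0,1] [] (⟨0,[(22,0)]⟩,⟨0,[(21,0)]⟩) .k 0 (⟨0,[]⟩,⟨0,
  []⟩) .k .k) t7 t8

theorem ok9 : chk (cU (-1) true 10) t9 r7 = true :=
  chk_Q (e' := [0,1,0,-1,0,0,1,1,0,0,-1]) (by decide +kernel) (by decide +kernel) ok7 ok8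

noncomputable def t10 : Tre :=
  .I [1,1,1,0,-1,0,0,0,-1] t4 t9

theorem ok10 : chk (cU (-1) true 10) t10 l6 = true :=
  chk_I (e' := [0,-1,-1,0,1,0,0,0,1]) (by decide +kernel) (by decide +kernel) ok4 ok9

noncomputable def t12 : Tre :=
  .Q [0,1,0,-1,0,0,-1,-1,0,-2,1] (.p true [-1,1,1] [1] (⟨0,[(2,0)]⟩,⟨0,[(19,0),(2,0)]⟩) .k 1 (⟨0,
  []⟩,⟨0,[]⟩) .k .k) t10 t11

theorem ok12 : chk (cU (-1) true 10) t12 r5 = true :=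
  chk_Q (e' := [0,-1,0,1,0,0,1,1,0,2,-1]) (by decide +kernel) (by decide +kernel) ok10 ok11

noncomputable def t13 : Tre :=
  .Q [0,0,-1,0,0,0,2,0,0,2,-2] (.p false [0,0,1] [2,-1,-1] (⟨0,[(19,0)]⟩,⟨0,[(18,0)]⟩) .k 2 (⟨0,
  [(18,0),(2,0)]⟩,⟨0,[(1,0)]⟩) .k (.r (-1) ⟨0,[(5,1),(7,1),(9,1),(1,1),(0,0)]⟩ ⟨0,[(17,1)]⟩)) t3 t12

theorem ok13 : chk (cU (-1) true 10) t13 r4 = true :=
  chk_Q (e' := [0,0,1,0,0,0,-2,0,0,-2,2]) (by decide +kernel) (by decide +kernel) ok3 ok12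

noncomputable def t14 : Tre :=
  .Q [0,-1,0,1,0,0,0,0,0,1] (.pp false [-1,1]) t2 t13

theorem ok14 : chk (cU (-1) true 10) t14 l3 = true :=
  chk_Q (e' := [0,1,0,-1,0,0,0,0,0,-1]) (by decide +kernel) (by decide +kernel) ok2 ok13

noncomputable def t26 : Tre :=
  .Q [0,0,2,1,-1,0,1,0,0,1,-1] (.p false [0,0,1] [1] (⟨0,[(30,0)]⟩,⟨0,[(29,0)]⟩) .k 1 (⟨0,[]⟩,⟨0,
  []⟩) .k .k) t24 t25

theorem ok26 : chk (cU (-1) true 10) t26 r21 = true :=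
  chk_Q (e' := [0,0,-2,-1,1,0,-1,0,0,-1,1]) (by decide +kernel) (by decide +kernel) ok24 ok25

noncomputable def t27 : Tre :=
  .I [0,0,2,3,-1] t23 t26

theorem ok27 : chk (cU (-1) true 10) t27 r20 = true :=
  chk_I (e' := [1,0,-2,-3,1]) (by decide +kernel) (by decide +kernel) ok23 ok26

noncomputable def t28 : Tre :=
  .I [0,1,1,2,-1,0,0,-1] t22 t27

theorem ok28 : chk (cU (-1) true 10) t28 r19 = true :=
  chk_I (e' := [1,-1,-1,-2,1,0,0,1]) (by decide +kernel) (by decide +kernel) ok22 ok27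

noncomputable def t29 : Tre :=
  .I [0,0,1,1,0,0,0,2] t21 t28

theorem ok29 : chk (cU (-1) true 10) t29 l18 = true :=
  chk_I (e' := [1,0,-1,-1,0,0,0,-2]) (by decide +kernel) (by decide +kernel) ok21 ok28

noncomputable def t35 : Tre :=
  .Q [0,0,0,0,0,0,2,2,0,1,-2] (.p false [0,0,1] [1,0,-1] (⟨0,[(31,0)]⟩,⟨0,[(30,0)]⟩) .k 2 (⟨0,[(30,
  0)]⟩,⟨0,[(31,0)]⟩) .k (.r (-1) ⟨45,[(1,3),(2,3),(2,19),(3,11),(0,19),(4,7),(1,8),(0,8)]⟩ ⟨0,[(29,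
  1)]⟩)) t33 t34

theorem ok35 : chk (cU (-1) true 10) t35 r26 = true :=
  chk_Q (e' := [0,0,0,0,0,0,-2,-2,0,-1,2]) (by decide +kernel) (by decide +kernel) ok33 ok34

noncomputable def t36 : Tre :=
  .I [0,0,1,1,0,0,0,2] t32 t35

theorem ok36 : chk (cU (-1) true 10) t36 l25 = true :=
  chk_I (e' := [1,0,-1,-1,0,0,0,-2]) (by decide +kernel) (by decide +kernel) ok32 ok35

noncomputable def t38 : Tre :=
  .Q [0,0,-2,0,1,0,-1,0,0,-1,1] (.p true [0,0,1] [1] (⟨0,[(29,0)]⟩,⟨0,[(28,0)]⟩) .k 1 (⟨0,[]⟩,⟨0,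
  []⟩) .k .k) t36 t37

theorem ok38 : chk (cU (-1) true 10) t38 r24 = true :=
  chk_Q (e' := [0,0,2,0,-1,0,1,0,0,1,-1]) (by decide +kernel) (by decide +kernel) ok36 ok37

noncomputable def t39 : Tre :=
  .Q [0,-1,0,2,0,0,-1,-1,0,0,1] (.p true [0,0,1] [] (⟨0,[(28,0)]⟩,⟨0,[(27,0)]⟩) .k 0 (⟨0,[]⟩,⟨0,
  []⟩) .k .k) t31 t38

theorem ok39 : chk (cU (-1) true 10) t39 r23 = true :=
  chk_Q (e' := [0,1,0,-2,0,0,1,1,0,0,-1]) (by decide +kernel) (by decide +kernel) ok31 ok38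

noncomputable def t40 : Tre :=
  .I [0,0,2,2,-1,0,0,-1] t30 t39

theorem ok40 : chk (cU (-1) true 10) t40 r18 = true :=
  chk_I (e' := [1,0,-2,-2,1,0,0,1]) (by decide +kernel) (by decide +kernel) ok30 ok39

noncomputable def t41 : Tre :=
  .Q [0,0,3,0,-1,0,0,0,0,-1] (.pp true [-1,1]) t29 t40

theorem ok41 : chk (cU (-1) true 10) t41 r17 = true :=
  chk_Q (e' := [0,0,-3,0,1,0,0,0,0,1]) (by decide +kernel) (by decide +kernel) ok29 ok40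

noncomputable def t42 : Tre :=
  .I [0,0,1,0,0,-1,-2] t20 t41

theorem ok42 : chk (cU (-1) true 10) t42 r16 = true :=
  chk_I (e' := [1,0,-1,0,0,1,2]) (by decide +kernel) (by decide +kernel) ok20 ok41

noncomputable def t43 : Tre :=
  .I [0,0,-1,0,0,1,2] t19 t42

theorem ok43 : chk (cU (-1) true 10) t43 r15 = true :=
  chk_I (e' := [1,0,1,0,0,-1,-2]) (by decide +kernel) (by decide +kernel) ok19 ok42

noncomputable def t44 : Tre :=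
  .I [0,0,-1,-1,0,0,0,-2] t18 t43

theorem ok44 : chk (cU (-1) true 10) t44 l14 = true :=
  chk_I (e' := [1,0,1,1,0,0,0,2]) (by decide +kernel) (by decide +kernel) ok18 ok43

noncomputable def t49 : Tre :=
  .Q [0,0,0,0,0,2,0,0,0,-1,1] (.p true [0,0,1] [1] (⟨0,[(31,0)]⟩,⟨0,[(30,0)]⟩) .k 1 (⟨0,[]⟩,⟨0,[]⟩)
  .k .k) t47 t48

theorem ok49 : chk (cU (-1) true 10) t49 r35 = true :=
  chk_Q (e' := [0,0,0,0,0,-2,0,0,0,1,-1]) (by decide +kernel) (by decide +kernel) ok47 ok48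

noncomputable def t50 : Tre :=
  .Q [0,0,0,0,0,2,0,0,0,0,-1] (.p false [0,0,1] [] (⟨0,[(30,0)]⟩,⟨0,[(29,0)]⟩) .k 0 (⟨0,[]⟩,⟨0,[]⟩)
  .k .k) t46 t49

theorem ok50 : chk (cU (-1) true 10) t50 r34 = true :=
  chk_Q (e' := [0,0,0,0,0,-2,0,0,0,0,1]) (by decide +kernel) (by decide +kernel) ok46 ok49

noncomputable def t51 : Tre :=
  .Q [0,-1,0,2,0,0,-1,-1,0,0,1] (.p true [0,0,1] [] (⟨0,[(29,0)]⟩,⟨0,[(28,0)]⟩) .k 0 (⟨0,[]⟩,⟨0,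
  []⟩) .k .k) t45 t50

theorem ok51 : chk (cU (-1) true 10) t51 l33 = true :=
  chk_Q (e' := [0,1,0,-2,0,0,1,1,0,0,-1]) (by decide +kernel) (by decide +kernel) ok45 ok50

noncomputable def t53 : Tre :=
  .Q [0,0,0,0,0,0,1,1,0,1,-1] (.p false [0,0,1] [1] (⟨0,[(28,0)]⟩,⟨0,[(27,0)]⟩) .k 1 (⟨0,[]⟩,⟨0,
  []⟩) .k .k) t51 t52

theorem ok53 : chk (cU (-1) true 10) t53 l32 = true :=
  chk_Q (e' := [0,0,0,0,0,0,-1,-1,0,-1,1]) (by decide +kernel) (by decide +kernel) ok51 ok52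

noncomputable def t55 : Tre :=
  .Q [0,0,0,-1,0,0,-2,-2,0,-1,2] (.p true [0,0,1] [1,0,-1] (⟨0,[(27,0)]⟩,⟨0,[(26,0)]⟩) .k 2 (⟨0,
  [(26,0)]⟩,⟨0,[(27,0)]⟩) .k (.r (-1) ⟨0,[(8,0),(28,0)]⟩ ⟨0,[(25,1)]⟩)) t53 t54

theorem ok55 : chk (cU (-1) true 10) t55 l31 = true :=
  chk_Q (e' := [0,0,0,1,0,0,2,2,0,1,-2]) (by decide +kernel) (by decide +kernel) ok53 ok54

noncomputable def t63 : Tre :=
  .I [0,0,2,0,-1,-2,2] t61 t62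

theorem ok63 : chk (cU (-1) true 10) t63 r42 = true :=
  chk_I (e' := [1,0,-2,0,1,2,-2]) (by decide +kernel) (by decide +kernel) ok61 ok62

noncomputable def t64 : Tre :=
  .I [0,0,-2,0,1,2,-2] t60 t63

theorem ok64 : chk (cU (-1) true 10) t64 l41 = true :=
  chk_I (e' := [1,0,2,0,-1,-2,2]) (by decide +kernel) (by decide +kernel) ok60 ok63

noncomputable def t66 : Tre :=
  .Q [0,0,3,0,-1,0,1,0,0,1,-1,-1] (.p false [0,0,1] [1,0,0,-1] (⟨0,[(31,0)]⟩,⟨0,[(30,0)]⟩) .k 2 (⟨0,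
  [(21,0)]⟩,⟨0,[(22,0)]⟩) .k (.x 0 ⟨0,[(27,0),(3,0)]⟩ ⟨7,[(0,3),(18,0),(0,0),(9,7),(1,1)]⟩)) t64 t65

theorem ok66 : chk (cU (-1) true 10) t66 r40 = true :=
  chk_Q (e' := [0,0,-3,0,1,0,-1,0,0,-1,1,1]) (by decide +kernel) (by decide +kernel) ok64 ok65

noncomputable def t67 : Tre :=
  .Q [0,0,2,0,-1,0,2,0,0,1,-2] (.p false [0,0,1] [1,0,-1] (⟨0,[(30,0)]⟩,⟨0,[(29,0)]⟩) .k 2 (⟨0,[(29,
  0)]⟩,⟨0,[(30,0)]⟩) .k (.r (-1) ⟨0,[(11,0),(28,0)]⟩ ⟨0,[(28,1)]⟩)) t59 t66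

theorem ok67 : chk (cU (-1) true 10) t67 r39 = true :=
  chk_Q (e' := [0,0,-2,0,1,0,-2,0,0,-1,2]) (by decide +kernel) (by decide +kernel) ok59 ok66

noncomputable def t68 : Tre :=
  .Q [0,0,0,0,0,2,0,0,0,-1,1] (.p true [0,0,1] [1] (⟨0,[(29,0)]⟩,⟨0,[(28,0)]⟩) .k 1 (⟨0,[]⟩,⟨0,[]⟩)
  .k .k) t58 t67

theorem ok68 : chk (cU (-1) true 10) t68 r38 = true :=
  chk_Q (e' := [0,0,0,0,0,-2,0,0,0,1,-1]) (by decide +kernel) (by decide +kernel) ok58 ok67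

noncomputable def t69 : Tre :=
  .Q [0,0,0,0,0,2,0,0,0,0,-1] (.p false [0,0,1] [] (⟨0,[(28,0)]⟩,⟨0,[(27,0)]⟩) .k 0 (⟨0,[]⟩,⟨0,[]⟩)
  .k .k) t57 t68

theorem ok69 : chk (cU (-1) true 10) t69 r37 = true :=
  chk_Q (e' := [0,0,0,0,0,-2,0,0,0,0,1]) (by decide +kernel) (by decide +kernel) ok57 ok68

noncomputable def t70 : Tre :=
  .Q [0,0,0,1,0,0,-2,-2,0,-1,2] (.p true [0,0,1] [1,0,-1] (⟨0,[(27,0)]⟩,⟨0,[(26,0)]⟩) .k 2 (⟨0,[(26,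
  0)]⟩,⟨0,[(27,0)]⟩) .k (.r (-1) ⟨0,[(8,0),(28,0)]⟩ ⟨0,[(25,1)]⟩)) t56 t69

theorem ok70 : chk (cU (-1) true 10) t70 r31 = true :=
  chk_Q (e' := [0,0,0,-1,0,0,2,2,0,1,-2]) (by decide +kernel) (by decide +kernel) ok56 ok69

noncomputable def t71 : Tre :=
  .Q [0,0,0,0,0,0,-2,-2,0,-1,2] (.p true [0,0,1] [1,0,-1] (⟨0,[(26,0)]⟩,⟨0,[(25,0)]⟩) .k 2 (⟨0,[(25,
  0)]⟩,⟨0,[(26,0)]⟩) .k (.r (-1) ⟨0,[(7,0),(28,0)]⟩ ⟨0,[(24,1)]⟩)) t55 t70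

theorem ok71 : chk (cU (-1) true 10) t71 l30 = true :=
  chk_Q (e' := [0,0,0,0,0,0,2,2,0,1,-2]) (by decide +kernel) (by decide +kernel) ok55 ok70

noncomputable def t73 : Tre :=
  .I [1,-1,1,0,0,0,0,1] t71 t72

theorem ok73 : chk (cU (-1) true 10) t73 l29 = true :=
  chk_I (e' := [0,1,-1,0,0,0,0,-1]) (by decide +kernel) (by decide +kernel) ok71 ok72

noncomputable def t75 : Tre :=
  .Q [0,0,-2,0,1,0,-1,0,0,-1,1] (.p true [0,0,1] [1] (⟨0,[(24,0)]⟩,⟨0,[(23,0)]⟩) .k 1 (⟨0,[]⟩,⟨0,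
  []⟩) .k .k) t73 t74

theorem ok75 : chk (cU (-1) true 10) t75 l28 = true :=
  chk_Q (e' := [0,0,2,0,-1,0,1,0,0,1,-1]) (by decide +kernel) (by decide +kernel) ok73 ok74

noncomputable def t80 : Tre :=
  .Q [0,-1,0,1,0,0,0,0,0,1] (.pp false [-1,1]) t78 t79

theorem ok80 : chk (cU (-1) true 10) t80 l48 = true :=
  chk_Q (e' := [0,1,0,-1,0,0,0,0,0,-1]) (by decide +kernel) (by decide +kernel) ok78 ok79

noncomputable def t82 : Tre :=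
  .Q [0,0,-2,0,1,0,-1,0,0,-1,1] (.p true [0,0,1] [1] (⟨0,[(28,0)]⟩,⟨0,[(27,0)]⟩) .k 1 (⟨0,[]⟩,⟨0,
  []⟩) .k .k) t80 t81

theorem ok82 : chk (cU (-1) true 10) t82 l47 = true :=
  chk_Q (e' := [0,0,2,0,-1,0,1,0,0,1,-1]) (by decide +kernel) (by decide +kernel) ok80 ok81

noncomputable def t84 : Tre :=
  .I [0,0,-2,0,1,2,-1] t82 t83

theorem ok84 : chk (cU (-1) true 10) t84 r46 = true :=
  chk_I (e' := [1,0,2,0,-1,-2,1]) (by decide +kernel) (by decide +kernel) ok82 ok83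

noncomputable def t85 : Tre :=
  .I [0,0,2,2,-1,0,0,-1] t77 t84

theorem ok85 : chk (cU (-1) true 10) t85 r45 = true :=
  chk_I (e' := [1,0,-2,-2,1,0,0,1]) (by decide +kernel) (by decide +kernel) ok77 ok84

noncomputable def t86 : Tre :=
  .I [1,1,2,1,-1] t76 t85

theorem ok86 : chk (cU (-1) true 10) t86 l44 = true :=
  chk_I (e' := [0,-1,-2,-1,1]) (by decide +kernel) (by decide +kernel) ok76 ok85

noncomputable def t89 : Tre :=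
  .Q [0,-1,0,1,0,0,0,0,0,1] (.pp false [-1,1]) t87 t88

theorem ok89 : chk (cU (-1) true 10) t89 r44 = true :=
  chk_Q (e' := [0,1,0,-1,0,0,0,0,0,-1]) (by decide +kernel) (by decide +kernel) ok87 ok88

noncomputable def t90 : Tre :=
  .Q [0,0,-2,0,1,0,-1,0,0,0,1] (.p true [0,0,1] [] (⟨0,[(24,0)]⟩,⟨0,[(23,0)]⟩) .k 0 (⟨0,[]⟩,⟨0,[]⟩)
  .k .k) t86 t89

theorem ok90 : chk (cU (-1) true 10) t90 r28 = true :=
  chk_Q (e' := [0,0,2,0,-1,0,1,0,0,0,-1]) (by decide +kernel) (by decide +kernel) ok86 ok89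

noncomputable def t91 : Tre :=
  .I [0,0,-2,-2,1,0,0,1] t75 t90

theorem ok91 : chk (cU (-1) true 10) t91 r14 = true :=
  chk_I (e' := [1,0,2,2,-1,0,0,-1]) (by decide +kernel) (by decide +kernel) ok75 ok90

noncomputable def t92 : Tre :=
  .Q [0,0,-1,0,0,0,2,0,0,1,-2] (.p false [0,0,1] [1,0,-1] (⟨0,[(22,0)]⟩,⟨0,[(21,0)]⟩) .k 2 (⟨0,[(21,
  0)]⟩,⟨0,[(22,0)]⟩) .k (.r (-1) ⟨0,[(3,0),(28,0)]⟩ ⟨0,[(20,1)]⟩)) t44 t91

theorem ok92 : chk (cU (-1) true 10) t92 r13 = true :=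
  chk_Q (e' := [0,0,1,0,0,0,-2,0,0,-1,2]) (by decide +kernel) (by decide +kernel) ok44 ok91

noncomputable def t93 : Tre :=
  .Q [0,-1,0,2,0,0,1,1,0,1,-1] (.p false [0,0,1] [1] (⟨0,[(21,0)]⟩,⟨0,[(20,0)]⟩) .k 1 (⟨0,[]⟩,⟨0,
  []⟩) .k .k) t17 t92

theorem ok93 : chk (cU (-1) true 10) t93 r12 = true :=
  chk_Q (e' := [0,1,0,-2,0,0,-1,-1,0,-1,1]) (by decide +kernel) (by decide +kernel) ok17 ok92

noncomputable def t94 : Tre :=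
  .I [0,1,0,1,0,0,0,1] t16 t93

theorem ok94 : chk (cU (-1) true 10) t94 r11 = true :=
  chk_I (e' := [1,-1,0,-1,0,0,0,-1]) (by decide +kernel) (by decide +kernel) ok16 ok93

noncomputable def t95 : Tre :=
  .Q [0,-1,0,1,0,0,-1,-1,0,0,1] (.p true [0,0,1] [] (⟨0,[(19,0)]⟩,⟨0,[(18,0)]⟩) .k 0 (⟨0,[]⟩,⟨0,
  []⟩) .k .k) t15 t94

theorem ok95 : chk (cU (-1) true 10) t95 l10 = true :=
  chk_Q (e' := [0,1,0,-1,0,0,1,1,0,0,-1]) (by decide +kernel) (by decide +kernel) ok15 ok94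

noncomputable def t97 : Tre :=
  .I [0,-1,0,0,1,0,0,2] t95 t96

theorem ok97 : chk (cU (-1) true 10) t97 r3 = true :=
  chk_I (e' := [1,1,0,0,-1,0,0,-2]) (by decide +kernel) (by decide +kernel) ok95 ok96

noncomputable def t98 : Tre :=
  .Q [0,0,0,0,0,1,0,0,0,-1,1] (.ed false [0,1,1] .k) t14 t97

theorem ok98 : chk (cU (-1) true 10) t98 r2 = true :=
  chk_Q (e' := [0,0,0,0,0,-1,0,0,0,1,-1]) (by decide +kernel) (by decide +kernel) ok14 ok97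

noncomputable def t99 : Tre :=
  .Q [0,-1,0,1,0,0,1,1,0,1,-1] (.p false [0,0,1] [1] (⟨0,[(16,0)]⟩,⟨0,[(15,0)]⟩) .k 1 (⟨0,[]⟩,⟨0,
  []⟩) .k .k) t1 t98

theorem ok99 : chk (cU (-1) true 10) t99 r1 = true :=
  chk_Q (e' := [0,1,0,-1,0,0,-1,-1,0,-1,1]) (by decide +kernel) (by decide +kernel) ok1 ok98

noncomputable def t100 : Tre :=
  .Q [0,0,0,0,0,1,0,0,0,0,-1] (.ed true [1,-1,1] .k) t0 t99

theorem ok100 : chk (cU (-1) true 10) t100 l0 = true :=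
  chk_Q (e' := [0,0,0,0,0,-1,0,0,0,0,1]) (by decide +kernel) (by decide +kernel) ok0 ok99

noncomputable def t102 : Tre :=
  .Q [0,0,0,0,0,0,1,0,0,0,-1] (.p false [0,0,1] [] (⟨0,[(14,0)]⟩,⟨0,[(13,0)]⟩) .k 0 (⟨0,[]⟩,⟨0,[]⟩)
  .k .k) t100 t101

theorem ok102 : chk (cU (-1) true 10) t102 base = true :=
  chk_Q (e' := [0,0,0,0,0,0,-1,0,0,0,1]) (by decide +kernel) (by decide +kernel) ok100 ok101

theorem ok : chkB (cU (-1) true 10) (fax (fcU (-1)) true 34 (-1) 10 false (tU true)) t102 base = true :=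
  chkB_of (by decide +kernel) ok102

end Helper11.CT.T1_34_m1_m1_u
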