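import Pool.Agent.Helper11.CT.T.T1_34_m1_m1_u_q

set_option autoImplicit false
set_option linter.all false

namespace Helper11.CT.T1_34_m1_m1_u

open Helper11.CT

noncomputable def t0 : Tre :=
  (.I [1,-1,2,3,-1] (.Q [0,-1,0,1,0,0,0,0,0,1] (.pp false [-1,1]) (.R ⟨2,false,false,true,[0,1],[1,
  -1],[0,1,1,1],(⟨0,[]⟩,⟨0,[]⟩),(⟨0,[(20,0)]⟩,⟨0,[(21,0)]⟩),⟨0,[]⟩,.k,.k,.k,(.r 1 ⟨0,[(1,0),(21,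
  0)]⟩ ⟨0,[(23,1),(1,0),(0,0)]⟩),.k,.k,⟨true,(-1),⟨0,[(1,0),(21,0)]⟩,⟨0,[(22,0),(0,1),(1,0)]⟩⟩,
  ⟨false,0,⟨0,[(3,0),(7,0)]⟩,⟨2,[(0,1),(3,1),(0,0),(19,2)]⟩⟩,⟨true,0,⟨0,[(28,0)]⟩,⟨0,[]⟩⟩,⟨false,1,
  ⟨1,[(19,0),(2,1),(0,3),(1,0)]⟩,⟨2,[(0,2),(0,0),(23,0),(2,0)]⟩⟩,⟨false,0,⟨0,[(24,0)]⟩,⟨0,[(23,0),
  (2,0)]⟩⟩,⟨false,1,⟨1,[(19,0),(3,1),(2,0)]⟩,⟨0,[(0,0)]⟩⟩,[.a ⟨true,0,⟨0,[(23,0)]⟩,⟨0,[(0,0)]⟩⟩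
  ⟨false,0,⟨2,[(1,0),(23,0),(2,3)]⟩,⟨0,[(22,0),(0,0),(1,0)]⟩⟩ ⟨true,0,⟨0,[(3,0),(7,0),(11,0)]⟩,⟨0,
  [(0,0)]⟩⟩,.o ⟨false,1,⟨1,[(19,0),(3,1),(2,0)]⟩,⟨0,[(24,0)]⟩⟩,.o ⟨false,1,⟨3,[(6,0),(0,0),(17,1)]⟩,
  ⟨0,[(3,0),(7,0)]⟩⟩,.e ⟨false,0,⟨0,[(24,0)]⟩,⟨0,[(23,0),(2,0)]⟩⟩ ⟨false,1,⟨1,[(19,0),(3,1),(2,0)]⟩,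
  ⟨0,[(0,0)]⟩⟩]⟩) (.Q [0,-1,0,2,0,0,0,0,0,1] (.pp false [-1,1]) (.R ⟨2,true,false,true,[0,1],[1,-1],
  [0,1,1,1],(⟨0,[]⟩,⟨0,[]⟩),(⟨0,[(21,0)]⟩,⟨0,[(22,0)]⟩),⟨0,[]⟩,.k,.k,.k,(.r 1 ⟨0,[(2,0),(21,0)]⟩ ⟨0,
  [(24,1),(1,0),(0,0)]⟩),.k,.k,⟨true,(-1),⟨0,[(2,0),(21,0)]⟩,⟨0,[(23,0),(0,1),(1,0)]⟩⟩,⟨false,0,⟨6,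
  [(1,2),(0,0),(9,1),(2,1),(4,0),(2,0)]⟩,⟨0,[(9,0),(0,0),(15,0)]⟩⟩,⟨true,0,⟨0,[(29,0)]⟩,⟨0,[]⟩⟩,
  ⟨false,1,⟨0,[(1,0),(22,0),(2,0)]⟩,⟨0,[(0,0)]⟩⟩,⟨false,0,⟨0,[(25,0)]⟩,⟨0,[(24,0),(2,0)]⟩⟩,⟨true,0,
  ⟨0,[(1,0)]⟩,⟨3,[(0,2),(4,1),(0,0),(22,0)]⟩⟩,[]⟩) (.I [0,0,-1,-1,1,0,0,0,1] (.I [1,-1,1,0,0,0,0,0,
  1] (.Q [0,1,1,0,-1,0,0,0,1,0,0,-1] (.p false [0,0,0,1] [] (⟨0,[(12,0)]⟩,⟨0,[(11,0)]⟩) .k 0 (⟨0,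
  []⟩,⟨0,[]⟩) .k .k) (.K ⟨0,[0,0,0,1],0,(-1),(⟨0,[(13,0)]⟩,⟨0,[(12,0)]⟩),.k,(.r (-1) ⟨0,[(2,0)]⟩ ⟨1,
  [(5,0),(4,0),(16,0)]⟩),(.x 0 ⟨0,[(25,0)]⟩ ⟨3,[(10,0),(0,0),(11,1),(0,3)]⟩),.k,.k,[⟨0,[(13,0)]⟩,⟨0,
  [(12,0)]⟩,⟨1,[(10,0),(2,1),(15,0),(2,1)]⟩,⟨0,[(0,0)]⟩]⟩) (.Q [0,0,0,0,0,2,0,0,0,-1] (.pp true [-1,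
  1]) (.Q [0,1,-1,0,0,0,0,0,-1,0,0,1] (.p true [0,0,0,1] [] (⟨0,[(14,0)]⟩,⟨0,[(13,0)]⟩) .k 0 (⟨0,
  []⟩,⟨0,[]⟩) .k .k) (.K ⟨0,[0,0,0,1],0,0,(⟨0,[(15,0)]⟩,⟨0,[(14,0)]⟩),.k,(.r (-1) ⟨0,[(4,0)]⟩ ⟨1,
  [(7,0),(4,0),(16,0)]⟩),(.x 0 ⟨0,[(27,0)]⟩ ⟨3,[(12,0),(0,0),(11,1),(0,3)]⟩),.k,.k,[⟨0,[(15,0)]⟩,⟨0,
  [(14,0)]⟩,⟨0,[(0,0)]⟩,⟨1,[(5,0),(0,0),(0,0),(5,0),(0,1),(19,0)]⟩]⟩) (.I [1,0,0,0,0,0,0,0,-1] (.Q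
  [0,0,0,0,0,1,0,0,0,-1,0,1] (.p true [0,0,0,1] [1] (⟨0,[(16,0)]⟩,⟨0,[(15,0)]⟩) .k 1 (⟨0,[]⟩,⟨0,
  []⟩) .k .k) (.R ⟨0,false,false,false,[1,0,0,-1],[0,1],[0,1,0,0,0,0,0,0,-1],(⟨0,[(16,0)]⟩,⟨0,[(17,
  0)]⟩),(⟨0,[(29,0)]⟩,⟨0,[(28,0)]⟩),⟨0,[(0,0)]⟩,.k,.k,(.x (-1) ⟨3,[(14,0),(0,0),(11,1),(0,3)]⟩ ⟨0,
  [(29,0)]⟩),(.x (-1) ⟨3,[(14,0),(0,0),(11,1),(0,3)]⟩ ⟨0,[(29,0)]⟩),.k,.k,⟨false,1,⟨0,[(1,0),(29,0),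
  (1,0)]⟩,⟨5,[(5,3),(3,1),(5,0),(17,0)]⟩⟩,⟨true,0,⟨0,[(16,0)]⟩,⟨18,[(7,5),(1,3),(7,18),(1,4),(2,4),
  (4,3),(2,0)]⟩⟩,⟨true,0,⟨0,[(36,0)]⟩,⟨0,[]⟩⟩,⟨false,0,⟨5,[(5,3),(3,1),(5,0),(0,5),(16,0)]⟩,⟨0,[(4,
  0),(3,0)]⟩⟩,⟨false,0,⟨0,[]⟩,⟨0,[]⟩⟩,⟨false,0,⟨0,[]⟩,⟨0,[]⟩⟩,[.o ⟨false,0,⟨0,[(32,0)]⟩,⟨3,[(7,1),
  (6,0),(0,0),(11,0),(6,0)]⟩⟩,.o ⟨false,1,⟨2,[(9,0),(4,0),(0,0),(17,0),(0,0)]⟩,⟨0,[(8,0)]⟩⟩,.o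
  ⟨false,1,⟨1,[(17,1),(9,0),(5,0)]⟩,⟨17,[(2,1),(4,5),(1,3),(4,0),(1,15),(2,3),(2,3),(4,2)]⟩⟩,.a
  ⟨true,0,⟨0,[(17,0)]⟩,⟨0,[(16,0)]⟩⟩ ⟨false,1,⟨1,[(14,0),(18,0)]⟩,⟨0,[(5,0)]⟩⟩ ⟨true,0,⟨2,[(9,0),(6,
  2),(16,0),(2,0)]⟩,⟨0,[(8,0),(8,0)]⟩⟩]⟩) (.R ⟨1,false,false,false,[1,0,0,-1],[0,1],[0,1,0,0,0,0,0,
  0,-1],(⟨0,[(16,0)]⟩,⟨0,[(17,0)]⟩),(⟨0,[(29,0)]⟩,⟨0,[(28,0)]⟩),⟨0,[(0,0)]⟩,.k,.k,(.x (-1) ⟨3,[(14,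
  0),(0,0),(11,1),(0,3)]⟩ ⟨0,[(29,0)]⟩),(.x (-1) ⟨3,[(14,0),(0,0),(11,1),(0,3)]⟩ ⟨0,[(29,0)]⟩),(.x
  0 ⟨4,[(7,5),(1,3),(17,1),(0,9),(1,0),(2,1)]⟩ ⟨3,[(14,0),(0,0),(13,7),(3,1)]⟩),.k,⟨false,1,⟨0,[(1,
  0),(29,0),(1,0)]⟩,⟨5,[(5,3),(3,1),(5,0),(17,0)]⟩⟩,⟨true,0,⟨0,[(16,0)]⟩,⟨18,[(7,5),(1,3),(7,18),(1,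
  4),(2,4),(4,3),(2,0)]⟩⟩,⟨true,0,⟨0,[(36,0)]⟩,⟨0,[]⟩⟩,⟨false,0,⟨5,[(5,3),(3,1),(5,0),(0,5),(16,
  0)]⟩,⟨0,[(4,0),(3,0)]⟩⟩,⟨false,0,⟨0,[(32,0)]⟩,⟨0,[(31,0),(2,0)]⟩⟩,⟨false,0,⟨2,[(5,0),(3,1),(5,0),
  (0,2),(16,0)]⟩,⟨0,[(4,0),(2,0)]⟩⟩,[.o ⟨false,0,⟨0,[(32,0)]⟩,⟨3,[(7,1),(6,0),(0,0),(11,0),(6,0)]⟩⟩,
  .o ⟨false,1,⟨2,[(9,0),(4,0),(0,0),(17,0),(0,0)]⟩,⟨0,[(8,0)]⟩⟩,.o ⟨false,1,⟨1,[(17,1),(9,0),(5,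
  0)]⟩,⟨17,[(2,1),(4,5),(1,3),(4,0),(1,15),(2,3),(2,3),(4,2)]⟩⟩,.a ⟨true,0,⟨0,[(17,0)]⟩,⟨0,[(16,
  0)]⟩⟩ ⟨false,1,⟨1,[(14,0),(18,0)]⟩,⟨0,[(5,0)]⟩⟩ ⟨true,0,⟨2,[(9,0),(6,2),(16,0),(2,0)]⟩,⟨0,[(8,0),
  (8,0)]⟩⟩]⟩)) (.Q [0,0,0,0,0,-1,0,0,0,1,0,-1] (.p false [0,0,0,1] [1] (⟨0,[(16,0)]⟩,⟨0,[(15,0)]⟩)
  .k 1 (⟨0,[]⟩,⟨0,[]⟩) .k .k) (.R ⟨1,false,false,true,[1,0,0,-1],[1,-1],[1,1,0,-1,0,0,0,0,-1],(⟨0,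
  [(16,0)]⟩,⟨0,[(17,0)]⟩),(⟨0,[(28,0)]⟩,⟨0,[(29,0)]⟩),⟨0,[(0,0)]⟩,.k,.k,(.x (-1) ⟨3,[(14,0),(0,0),
  (11,1),(0,3)]⟩ ⟨0,[(29,0)]⟩),(.r 0 ⟨1,[(9,0),(4,0),(16,0)]⟩ ⟨0,[(6,0)]⟩),.k,.k,⟨true,0,⟨2,[(4,0),
  (2,2),(1,1),(4,0),(1,2),(0,1)]⟩,⟨0,[(1,0)]⟩⟩,⟨false,0,⟨17,[(2,1),(4,5),(1,3),(4,0),(1,15),(2,3),
  (2,3),(4,2)]⟩,⟨0,[(17,0),(15,0)]⟩⟩,⟨true,0,⟨0,[(31,0)]⟩,⟨0,[(32,0)]⟩⟩,⟨false,0,⟨0,[(2,0),(28,0)]⟩,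
  ⟨2,[(4,2),(4,0),(23,0),(2,0)]⟩⟩,⟨false,0,⟨0,[]⟩,⟨3,[(14,0),(0,0),(18,1)]⟩⟩,⟨false,0,⟨0,[(2,0),(33,
  0)]⟩,⟨0,[(4,0)]⟩⟩,[.o ⟨false,0,⟨0,[(8,0)]⟩,⟨2,[(9,0),(4,0),(0,0),(17,0),(0,0)]⟩⟩,.o ⟨false,1,⟨3,
  [(7,1),(6,0),(0,0),(11,0),(6,0)]⟩,⟨0,[(32,0)]⟩⟩,.o ⟨false,1,⟨1,[(17,1),(9,0),(5,0)]⟩,⟨17,[(2,1),
  (4,5),(1,3),(4,0),(1,15),(2,3),(2,3),(4,2)]⟩⟩,.a ⟨true,0,⟨0,[(17,0)]⟩,⟨0,[(16,0)]⟩⟩ ⟨false,1,⟨3,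
  [(4,1),(2,1),(6,0),(1,1),(16,0)]⟩,⟨5,[(1,1),(3,1),(3,1),(5,0),(18,0)]⟩⟩ ⟨true,0,⟨0,[(8,0),(7,0)]⟩,
  ⟨2,[(9,0),(7,2),(15,0),(2,0)]⟩⟩]⟩) (.R ⟨0,false,false,true,[1,0,0,-1],[1,-1],[1,1,0,-1,0,0,0,0,
  -1],(⟨0,[(16,0)]⟩,⟨0,[(17,0)]⟩),(⟨0,[(28,0)]⟩,⟨0,[(29,0)]⟩),⟨0,[(0,0)]⟩,.k,.k,(.x (-1) ⟨3,[(14,0),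
  (0,0),(11,1),(0,3)]⟩ ⟨0,[(29,0)]⟩),(.r 0 ⟨1,[(9,0),(4,0),(16,0)]⟩ ⟨0,[(6,0)]⟩),.k,.k,⟨true,0,⟨2,
  [(4,0),(2,2),(1,1),(4,0),(1,2),(0,1)]⟩,⟨0,[(1,0)]⟩⟩,⟨false,0,⟨17,[(2,1),(4,5),(1,3),(4,0),(1,15),
  (2,3),(2,3),(4,2)]⟩,⟨0,[(17,0),(15,0)]⟩⟩,⟨true,0,⟨0,[(31,0)]⟩,⟨0,[(32,0)]⟩⟩,⟨false,0,⟨0,[(2,0),
  (28,0)]⟩,⟨2,[(4,2),(4,0),(23,0),(2,0)]⟩⟩,⟨false,0,⟨0,[]⟩,⟨0,[]⟩⟩,⟨false,0,⟨0,[]⟩,⟨0,[]⟩⟩,[.o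
  ⟨false,0,⟨0,[(8,0)]⟩,⟨2,[(9,0),(4,0),(0,0),(17,0),(0,0)]⟩⟩,.o ⟨false,1,⟨3,[(7,1),(6,0),(0,0),(11,
  0),(6,0)]⟩,⟨0,[(32,0)]⟩⟩,.o ⟨false,1,⟨1,[(17,1),(9,0),(5,0)]⟩,⟨17,[(2,1),(4,5),(1,3),(4,0),(1,15),
  (2,3),(2,3),(4,2)]⟩⟩,.a ⟨true,0,⟨0,[(17,0)]⟩,⟨0,[(16,0)]⟩⟩ ⟨false,1,⟨3,[(4,1),(2,1),(6,0),(1,1),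
  (16,0)]⟩,⟨5,[(1,1),(3,1),(3,1),(5,0),(18,0)]⟩⟩ ⟨true,0,⟨0,[(8,0),(7,0)]⟩,⟨2,[(9,0),(7,2),(15,0),
  (2,0)]⟩⟩]⟩)))) (.R ⟨1,true,false,false,[1,-1],[0,1],[0,0,-1,-1],(⟨0,[(25,0)]⟩,⟨0,[(26,0)]⟩),(⟨0,
  [(26,0)]⟩,⟨0,[(25,0)]⟩),⟨0,[(0,0)]⟩,.k,.k,(.r (-2) ⟨3,[(1,1),(1,3),(0,1),(6,0),(1,1),(16,0)]⟩ ⟨0,
  [(6,0),(21,0)]⟩),(.r (-2) ⟨3,[(1,1),(1,3),(0,1),(6,0),(1,1),(16,0)]⟩ ⟨0,[(6,0),(21,0)]⟩),(.r (-2)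
  ⟨4,[(1,0),(1,0),(0,6),(8,6),(0,5),(12,2),(2,7)]⟩ ⟨1,[(6,1),(12,0),(0,0),(12,1)]⟩),.k,⟨false,2,⟨4,
  [(1,1),(1,1),(0,3),(8,3),(0,1),(12,0),(2,5)]⟩,⟨0,[(6,0),(21,0)]⟩⟩,⟨true,1,⟨0,[(13,0),(0,0),(15,
  0)]⟩,⟨3,[(4,3),(1,3),(12,0),(0,0),(6,1),(0,3)]⟩⟩,⟨false,1,⟨3,[(11,0),(0,0),(18,1)]⟩,⟨0,[]⟩⟩,⟨true,
  0,⟨2,[(6,1),(6,2),(0,2),(15,1),(2,1)]⟩,⟨0,[(4,0)]⟩⟩,⟨true,0,⟨0,[(29,0)]⟩,⟨0,[(28,0)]⟩⟩,⟨false,0,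
  ⟨0,[(6,0),(6,0),(0,0),(15,0)]⟩,⟨0,[(4,0),(23,0),(2,0)]⟩⟩,[]⟩))) (.K ⟨0,[0,0,0,1],0,0,(⟨0,[(12,
  0)]⟩,⟨0,[(11,0)]⟩),.k,(.r (-1) ⟨0,[(1,0)]⟩ ⟨1,[(4,0),(4,0),(16,0)]⟩),(.x 0 ⟨0,[(24,0)]⟩ ⟨3,[(9,0),
  (0,0),(11,1),(0,3)]⟩),.k,.k,[⟨0,[(12,0)]⟩,⟨0,[(11,0)]⟩,⟨0,[(0,0),(11,0)]⟩,⟨1,[(2,0),(0,0),(0,0),
  (5,0),(0,1),(19,0)]⟩]⟩)) (.K ⟨0,[0,0,0,1],0,0,(⟨0,[(11,0)]⟩,⟨0,[(10,0)]⟩),.k,(.x 0 ⟨0,[(13,0),(2,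
  0),(5,0)]⟩ ⟨0,[(23,0),(3,0)]⟩),(.x 0 ⟨0,[(23,0)]⟩ ⟨3,[(8,0),(0,0),(11,1),(0,3)]⟩),.k,.k,[⟨0,[(11,
  0)]⟩,⟨0,[(10,0)]⟩,⟨0,[(0,0),(10,0),(13,0),(1,0)]⟩,⟨1,[(1,0),(0,0),(0,0),(5,0),(0,1),(19,
  0)]⟩]⟩)))) (.Q [0,1,1,0,0,0,0,0,1,0,0,-1] (.p false [0,0,0,1] [] (⟨0,[(8,0)]⟩,⟨0,[(7,0)]⟩) .k 0
  (⟨0,[]⟩,⟨0,[]⟩) .k .k) (.Q [0,0,0,0,0,0,-1,0,0,1,1] (.p true [1,-1,1] [] (⟨0,[(18,0),(1,0)]⟩,⟨0,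
  [(2,0)]⟩) .k 0 (⟨0,[]⟩,⟨0,[]⟩) .k .k) (.Q [0,0,0,0,0,0,-1,-1,0,0,1] (.p true [0,0,1] [] (⟨0,[(19,
  0)]⟩,⟨0,[(18,0)]⟩) .k 0 (⟨0,[]⟩,⟨0,[]⟩) .k .k) (.R ⟨0,false,false,true,[0,1,-1],[0,1],[1,0,1],(⟨0,
  [(4,0)]⟩,⟨0,[(20,0),(1,0)]⟩),(⟨0,[(23,0)]⟩,⟨0,[(22,0)]⟩),⟨0,[(20,0)]⟩,.k,.k,.k,.k,.k,.k,⟨false,1,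
  ⟨2,[(3,0),(20,0),(2,0),(0,0)]⟩,⟨0,[(26,0),(3,0)]⟩⟩,⟨true,0,⟨0,[(5,0)]⟩,⟨0,[(17,0)]⟩⟩,⟨false,1,⟨5,
  [(1,2),(1,1),(9,2),(0,5),(9,4),(2,1),(0,1)]⟩,⟨0,[(18,0),(7,0)]⟩⟩,⟨true,0,⟨0,[(14,0)]⟩,⟨0,[(0,
  0)]⟩⟩,⟨false,0,⟨0,[]⟩,⟨0,[]⟩⟩,⟨false,0,⟨0,[]⟩,⟨0,[]⟩⟩,[.o ⟨false,0,⟨0,[(26,0),(3,0)]⟩,⟨8,[(3,2),
  (9,0),(2,0),(4,3),(2,3),(3,1)]⟩⟩,.o ⟨false,0,⟨0,[(26,0)]⟩,⟨11,[(3,3),(4,0),(0,0),(3,3),(2,3),(4,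
  3),(6,1)]⟩⟩,.o ⟨false,1,⟨1,[(1,1),(19,0),(5,0)]⟩,⟨0,[(5,1),(7,0)]⟩⟩,.a ⟨true,0,⟨0,[(1,0)]⟩,⟨0,[(5,
  0)]⟩⟩ ⟨true,0,⟨0,[]⟩,⟨0,[(30,0)]⟩⟩ ⟨false,0,⟨0,[(5,0),(20,0)]⟩,⟨0,[(6,0),(21,0)]⟩⟩]⟩) (.R ⟨0,
  false,false,false,[0,1,-1],[0,1],[1,1],(⟨0,[(4,0)]⟩,⟨0,[(20,0),(1,0)]⟩),(⟨0,[(23,0)]⟩,⟨0,[(22,
  0)]⟩),⟨0,[(20,0)]⟩,.k,.k,.k,.k,.k,.k,⟨false,1,⟨2,[(3,0),(23,1),(2,1)]⟩,⟨3,[(16,0),(0,0),(6,1),(1,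
  3)]⟩⟩,⟨true,0,⟨0,[(5,0)]⟩,⟨0,[(17,0)]⟩⟩,⟨false,1,⟨5,[(0,5),(0,3),(1,1),(9,1),(7,0),(5,1),(0,0)]⟩,
  ⟨2,[(15,0),(0,0),(1,1),(5,1),(1,2)]⟩⟩,⟨true,0,⟨0,[(0,0)]⟩,⟨0,[(15,0)]⟩⟩,⟨false,0,⟨0,[]⟩,⟨0,[]⟩⟩,
  ⟨false,0,⟨0,[]⟩,⟨0,[]⟩⟩,[.o ⟨false,0,⟨0,[(26,0)]⟩,⟨11,[(3,3),(4,0),(0,0),(3,3),(2,3),(4,3),(6,
  1)]⟩⟩,.e ⟨true,0,⟨0,[]⟩,⟨1,[(16,0),(0,0)]⟩⟩ ⟨true,0,⟨1,[(5,0),(10,0),(7,0),(1,1)]⟩,⟨0,[(6,0)]⟩⟩,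
  .o ⟨false,1,⟨1,[(1,1),(19,0),(5,0)]⟩,⟨0,[(5,1),(7,0)]⟩⟩,.a ⟨true,0,⟨0,[(1,0)]⟩,⟨0,[(5,0)]⟩⟩
  ⟨false,1,⟨3,[(8,0),(0,0),(17,1)]⟩,⟨3,[(16,0),(0,0),(6,1)]⟩⟩ ⟨true,0,⟨0,[(5,0),(20,0)]⟩,⟨0,[(6,
  0)]⟩⟩]⟩)) (.Q [0,1,-1,0,0,0,0,0,-1,0,0,1] (.p true [0,0,0,1] [] (⟨0,[(10,0)]⟩,⟨0,[(9,0)]⟩) .k 0
  (⟨0,[]⟩,⟨0,[]⟩) .k .k) (.K ⟨0,[0,0,0,1],0,0,(⟨0,[(11,0)]⟩,⟨0,[(10,0)]⟩),.k,(.x 0 ⟨0,[(13,0),(2,0),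
  (5,0)]⟩ ⟨0,[(23,0),(3,0)]⟩),(.x 0 ⟨0,[(23,0)]⟩ ⟨3,[(8,0),(0,0),(11,1),(0,3)]⟩),.k,.k,[⟨0,[(11,
  0)]⟩,⟨0,[(10,0)]⟩,⟨0,[(0,0)]⟩,⟨0,[(2,0)]⟩]⟩) (.Q [0,-1,-1,0,1,0,0,0,-1,0,0,1] (.p true [0,0,0,1]
  [] (⟨0,[(11,0)]⟩,⟨0,[(10,0)]⟩) .k 0 (⟨0,[]⟩,⟨0,[]⟩) .k .k) (.Q [0,0,0,0,0,1,0,0,0,-1,0,1] (.p
  true [0,0,0,1] [1] (⟨0,[(12,0)]⟩,⟨0,[(11,0)]⟩) .k 1 (⟨0,[]⟩,⟨0,[]⟩) .k .k) (.I [0,1,-2,-1,1,0,0,0,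
  -1] (.R ⟨0,false,false,false,[1,0,0,-1],[0,1],[0,1,0,0,0,0,0,0,-1],(⟨0,[(13,0)]⟩,⟨0,[(14,0)]⟩),
  (⟨0,[(26,0)]⟩,⟨0,[(25,0)]⟩),⟨0,[(1,0)]⟩,.k,.k,(.x (-1) ⟨3,[(11,0),(0,0),(11,1),(0,3)]⟩ ⟨0,[(26,
  0)]⟩),(.x (-1) ⟨3,[(11,0),(0,0),(11,1),(0,3)]⟩ ⟨0,[(26,0)]⟩),.k,.k,⟨false,1,⟨0,[(0,0)]⟩,⟨0,[(3,0),
  (10,0),(14,0)]⟩⟩,⟨true,0,⟨0,[(13,0)]⟩,⟨2,[(4,0),(9,2),(1,1),(2,0)]⟩⟩,⟨true,0,⟨0,[(33,0)]⟩,⟨0,[]⟩⟩,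
  ⟨false,0,⟨0,[(3,0),(9,0),(0,0),(14,0)]⟩,⟨0,[(2,0),(1,0),(4,0)]⟩⟩,⟨false,0,⟨0,[]⟩,⟨0,[]⟩⟩,⟨false,0,
  ⟨0,[]⟩,⟨0,[]⟩⟩,[.o ⟨false,0,⟨0,[(29,0)]⟩,⟨11,[(6,3),(4,0),(0,0),(3,3),(2,3),(4,3),(6,1)]⟩⟩,.o
  ⟨false,1,⟨3,[(11,0),(0,0),(16,3),(1,1)]⟩,⟨0,[(4,0),(4,0)]⟩⟩,.o ⟨false,1,⟨1,[(14,1),(9,0),(5,0)]⟩,
  ⟨2,[(4,0),(8,2),(2,1),(2,0)]⟩⟩,.a ⟨true,0,⟨0,[(14,0)]⟩,⟨0,[(13,0)]⟩⟩ ⟨false,1,⟨1,[(11,0),(18,0)]⟩,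
  ⟨0,[(3,0),(10,0)]⟩⟩ ⟨true,0,⟨0,[(13,0),(15,0)]⟩,⟨0,[(4,0),(4,0),(4,0)]⟩⟩]⟩) (.I [0,0,1,1,0,0,0,0,
  -1] (.R ⟨0,false,false,true,[1,0,0,-1],[1,-1],[0,1,0,0,0,0,0,0,-1],(⟨0,[(14,0)]⟩,⟨0,[(15,0)]⟩),
  (⟨0,[(26,0)]⟩,⟨0,[(27,0)]⟩),⟨0,[(2,0)]⟩,.k,.k,(.x (-1) ⟨3,[(12,0),(0,0),(11,1),(0,3)]⟩ ⟨0,[(27,
  0)]⟩),(.r 0 ⟨0,[(0,0)]⟩ ⟨15,[(1,1),(5,5),(5,6),(14,1),(2,4)]⟩),.k,.k,⟨true,0,⟨0,[(0,0)]⟩,⟨2,[(1,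
  2),(5,1),(23,0),(2,0)]⟩⟩,⟨false,0,⟨2,[(0,0),(3,0),(0,0),(8,1),(2,0),(11,0)]⟩,⟨0,[(15,0),(15,0)]⟩⟩,
  ⟨true,0,⟨0,[(34,0)]⟩,⟨0,[]⟩⟩,⟨false,0,⟨0,[(4,0),(24,0)]⟩,⟨0,[(3,0),(26,0)]⟩⟩,⟨false,0,⟨0,[]⟩,⟨0,
  []⟩⟩,⟨false,0,⟨0,[]⟩,⟨0,[]⟩⟩,[.o ⟨false,0,⟨0,[(5,0),(4,0)]⟩,⟨3,[(12,0),(0,0),(16,3),(1,1)]⟩⟩,.o
  ⟨false,1,⟨11,[(7,3),(4,0),(0,0),(3,3),(2,3),(4,3),(6,1)]⟩,⟨0,[(30,0)]⟩⟩,.o ⟨false,1,⟨1,[(15,1),(9,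
  0),(5,0)]⟩,⟨2,[(0,0),(3,0),(0,0),(8,1),(2,0),(11,0)]⟩⟩,.a ⟨true,0,⟨0,[(15,0)]⟩,⟨0,[(14,0)]⟩⟩
  ⟨false,1,⟨1,[(12,0),(18,0)]⟩,⟨27,[(1,11),(5,3),(5,7),(6,0),(0,0),(6,9)]⟩⟩ ⟨true,0,⟨0,[(5,0),(4,0),
  (3,0)]⟩,⟨0,[(15,0),(14,0)]⟩⟩]⟩) (.Q [0,1,1,1,-1,0,0,0,1,1,0,-1] (.p false [0,0,0,1] [1] (⟨0,[(15,
  0)]⟩,⟨0,[(14,0)]⟩) .k 1 (⟨0,[]⟩,⟨0,[]⟩) .k .k) (.R ⟨0,false,false,true,[1,0,0,-1],[0,1],[1,0,1],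
  (⟨0,[(15,0)]⟩,⟨0,[(16,0)]⟩),(⟨0,[(28,0)]⟩,⟨0,[(27,0)]⟩),⟨0,[(3,0)]⟩,.k,.k,(.x (-1) ⟨3,[(13,0),(0,
  0),(11,1),(0,3)]⟩ ⟨0,[(28,0)]⟩),(.x (-1) ⟨3,[(13,0),(0,0),(11,1),(0,3)]⟩ ⟨0,[(28,0)]⟩),.k,.k,
  ⟨false,1,⟨2,[(8,0),(20,0),(2,0),(0,0)]⟩,⟨0,[(31,0),(3,0)]⟩⟩,⟨true,0,⟨0,[(15,0)]⟩,⟨2,[(6,0),(9,2),
  (1,1),(2,0)]⟩⟩,⟨false,0,⟨27,[(2,11),(5,3),(5,7),(6,0),(0,0),(6,9)]⟩,⟨1,[(13,0),(18,0)]⟩⟩,⟨true,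
  (-1),⟨0,[(0,0)]⟩,⟨0,[(4,0),(1,0),(4,0)]⟩⟩,⟨false,0,⟨0,[]⟩,⟨0,[]⟩⟩,⟨false,0,⟨0,[]⟩,⟨0,[]⟩⟩,[.o
  ⟨false,0,⟨0,[(31,0),(3,0)]⟩,⟨8,[(8,2),(9,0),(2,0),(4,3),(2,3),(3,1)]⟩⟩,.o ⟨false,0,⟨0,[(31,0)]⟩,
  ⟨11,[(8,3),(4,0),(0,0),(3,3),(2,3),(4,3),(6,1)]⟩⟩,.o ⟨false,1,⟨1,[(16,1),(9,0),(5,0)]⟩,⟨2,[(6,0),
  (8,2),(2,1),(2,0)]⟩⟩,.a ⟨true,0,⟨0,[(16,0)]⟩,⟨0,[(15,0)]⟩⟩ ⟨true,0,⟨0,[]⟩,⟨0,[(35,0)]⟩⟩ ⟨false,0,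
  ⟨0,[(15,0),(15,0)]⟩,⟨8,[(8,2),(7,8),(1,0),(2,0),(4,3),(2,3),(3,1)]⟩⟩]⟩) (.Q [0,0,0,0,0,0,1,1,0,0,
  -1,1] (.p false [0,0,1] [0,0,0,1] (⟨0,[(25,0)]⟩,⟨0,[(24,0)]⟩) .k 2 (⟨0,[(16,0)]⟩,⟨0,[(15,0)]⟩) .k
  (.r (-1) ⟨0,[(4,0),(10,0),(2,0),(0,0)]⟩ ⟨9,[(1,3),(0,1),(9,0),(1,1),(2,0),(2,0),(2,7),(7,1)]⟩))
  (.Q [0,0,0,0,0,0,1,1,0,0,-1] (.p false [0,0,1] [] (⟨0,[(26,0)]⟩,⟨0,[(25,0)]⟩) .k 0 (⟨0,[]⟩,⟨0,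
  []⟩) .k .k) (.R ⟨0,false,false,true,[1,0,0,-1],[1,0,-1],[0,1,0,0,0,0,0,0,-1],(⟨0,[(17,0)]⟩,⟨0,
  [(18,0)]⟩),(⟨0,[(26,0)]⟩,⟨0,[(27,0)]⟩),⟨0,[(5,0)]⟩,.k,.k,(.x (-1) ⟨3,[(15,0),(0,0),(11,1),(0,3)]⟩
  ⟨0,[(30,0)]⟩),.k,.k,.k,⟨false,1,⟨0,[(0,0),(1,0),(10,0),(3,0),(15,1)]⟩,⟨9,[(3,3),(0,1),(9,0),(1,1),
  (2,0),(2,0),(2,7),(7,1)]⟩⟩,⟨true,0,⟨0,[(17,0),(2,0)]⟩,⟨2,[(8,0),(5,0),(3,2)]⟩⟩,⟨true,0,⟨0,[(37,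
  0)]⟩,⟨0,[]⟩⟩,⟨false,0,⟨0,[(7,0),(14,0)]⟩,⟨0,[(0,0),(5,0)]⟩⟩,⟨false,0,⟨0,[]⟩,⟨0,[]⟩⟩,⟨false,0,⟨0,
  []⟩,⟨0,[]⟩⟩,[.o ⟨false,0,⟨0,[(19,0)]⟩,⟨3,[(0,3),(14,0),(0,0),(18,1)]⟩⟩,.o ⟨false,1,⟨1,[(22,1),(5,
  0),(6,0)]⟩,⟨0,[(0,0)]⟩⟩,.o ⟨false,1,⟨1,[(18,1),(9,0),(5,0)]⟩,⟨2,[(8,0),(8,2),(2,1),(2,0)]⟩⟩,.a
  ⟨true,0,⟨0,[(18,0)]⟩,⟨0,[(17,0)]⟩⟩ ⟨false,1,⟨1,[(15,0),(18,0)]⟩,⟨27,[(4,11),(5,3),(5,7),(6,0),(0,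
  0),(6,9)]⟩⟩ ⟨true,0,⟨0,[(17,0),(1,0)]⟩,⟨0,[(1,0)]⟩⟩]⟩) (.R ⟨0,false,false,true,[0,1,-1],[1,0,-1],
  [1,1],(⟨0,[(11,0)]⟩,⟨0,[(27,0),(1,0)]⟩),(⟨0,[(26,0)]⟩,⟨0,[(27,0)]⟩),⟨0,[(27,0)]⟩,.k,.k,.k,.k,.k,
  .k,⟨false,1,⟨0,[(1,0),(15,0),(2,0),(13,0)]⟩,⟨0,[(25,0)]⟩⟩,⟨true,0,⟨2,[(8,0),(11,1),(2,0)]⟩,⟨0,
  [(17,0),(0,0)]⟩⟩,⟨false,1,⟨0,[(13,0),(7,0),(9,0),(2,0)]⟩,⟨3,[(4,1),(10,0),(9,3),(7,1),(1,0)]⟩⟩,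
  ⟨true,0,⟨0,[(8,0),(4,0)]⟩,⟨0,[(17,0),(0,0),(14,0)]⟩⟩,⟨false,0,⟨0,[]⟩,⟨0,[]⟩⟩,⟨false,0,⟨0,[]⟩,⟨0,
  []⟩⟩,[.o ⟨false,0,⟨0,[(19,0)]⟩,⟨0,[(21,0),(13,0)]⟩⟩,.a ⟨true,0,⟨0,[(0,0)]⟩,⟨0,[(1,0),(15,0)]⟩⟩
  ⟨true,0,⟨0,[]⟩,⟨1,[(23,0),(0,0)]⟩⟩ ⟨false,0,⟨0,[(0,0),(7,0)]⟩,⟨0,[(1,0),(15,0),(6,0),(9,0)]⟩⟩,.o
  ⟨false,1,⟨0,[(24,0),(9,0)]⟩,⟨2,[(8,1),(11,0),(2,1)]⟩⟩,.o ⟨false,1,⟨3,[(15,0),(0,0),(7,3),(9,1)]⟩,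
  ⟨0,[(8,0)]⟩⟩]⟩)) (.R ⟨0,false,false,false,[1,0,0,-1],[1,0,-1],[0,1,0,0,0,0,0,0,-1],(⟨0,[(16,0)]⟩,
  ⟨0,[(17,0)]⟩),(⟨0,[(25,0)]⟩,⟨0,[(26,0)]⟩),⟨0,[(4,0)]⟩,.k,.k,(.x (-1) ⟨3,[(14,0),(0,0),(11,1),(0,
  3)]⟩ ⟨0,[(29,0)]⟩),.k,.k,.k,⟨false,1,⟨0,[(1,0),(10,0),(3,0),(3,0),(11,1)]⟩,⟨3,[(2,1),(0,1),(20,3),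
  (8,0),(0,0)]⟩⟩,⟨true,0,⟨0,[(16,0),(2,0)]⟩,⟨2,[(7,0),(5,0),(3,2)]⟩⟩,⟨true,0,⟨0,[(36,0)]⟩,⟨0,[]⟩⟩,
  ⟨false,0,⟨6,[(0,3),(1,0),(0,0),(2,2),(8,0),(5,2),(8,2)]⟩,⟨0,[(5,0),(14,0)]⟩⟩,⟨false,0,⟨0,[]⟩,⟨0,
  []⟩⟩,⟨false,0,⟨0,[]⟩,⟨0,[]⟩⟩,[.e ⟨false,1,⟨1,[(14,0),(18,0),(2,1)]⟩,⟨3,[(2,1),(0,1),(29,0),(0,
  0)]⟩⟩ ⟨false,0,⟨0,[(0,0)]⟩,⟨4,[(2,0),(0,0),(1,3),(9,0),(1,0),(2,4),(12,0)]⟩⟩,.o ⟨false,1,⟨0,[(18,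
  0),(15,0)]⟩,⟨0,[(20,0)]⟩⟩,.o ⟨false,1,⟨1,[(17,1),(9,0),(5,0)]⟩,⟨2,[(7,0),(8,2),(2,1),(2,0)]⟩⟩,.a
  ⟨true,0,⟨0,[(17,0)]⟩,⟨0,[(16,0)]⟩⟩ ⟨false,1,⟨1,[(14,0),(18,0)]⟩,⟨27,[(3,11),(5,3),(5,7),(6,0),(0,
  0),(6,9)]⟩⟩ ⟨true,0,⟨0,[(0,0)]⟩,⟨0,[(17,0),(2,0)]⟩⟩]⟩))))) (.I [0,1,-2,-1,1,0,0,0,-1] (.R ⟨1,
  false,false,false,[1,0,0,-1],[0,1],[0,1,0,0,0,0,0,0,-1],(⟨0,[(13,0)]⟩,⟨0,[(14,0)]⟩),(⟨0,[(26,0)]⟩,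
  ⟨0,[(25,0)]⟩),⟨0,[(1,0)]⟩,.k,.k,(.x (-1) ⟨3,[(11,0),(0,0),(11,1),(0,3)]⟩ ⟨0,[(26,0)]⟩),(.x (-1)
  ⟨3,[(11,0),(0,0),(11,1),(0,3)]⟩ ⟨0,[(26,0)]⟩),(.x 0 ⟨0,[(4,0),(11,0),(8,1)]⟩ ⟨3,[(11,0),(0,0),(13,
  7),(3,1)]⟩),.k,⟨false,1,⟨0,[(0,0)]⟩,⟨0,[(3,0),(10,0),(14,0)]⟩⟩,⟨true,0,⟨0,[(13,0)]⟩,⟨2,[(4,0),(9,
  2),(1,1),(2,0)]⟩⟩,⟨true,0,⟨0,[(33,0)]⟩,⟨0,[]⟩⟩,⟨false,0,⟨0,[(3,0),(9,0),(0,0),(14,0)]⟩,⟨0,[(2,0),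
  (1,0),(4,0)]⟩⟩,⟨false,0,⟨0,[(29,0)]⟩,⟨2,[(6,0),(12,0),(0,0),(10,1)]⟩⟩,⟨false,0,⟨0,[(3,0),(9,0),(0,
  0),(14,1)]⟩,⟨0,[(0,0),(3,0),(4,0),(4,0),(12,0)]⟩⟩,[.o ⟨false,0,⟨0,[(29,0)]⟩,⟨11,[(6,3),(4,0),(0,
  0),(3,3),(2,3),(4,3),(6,1)]⟩⟩,.o ⟨false,1,⟨3,[(11,0),(0,0),(16,3),(1,1)]⟩,⟨0,[(4,0),(4,0)]⟩⟩,.o
  ⟨false,1,⟨1,[(14,1),(9,0),(5,0)]⟩,⟨2,[(4,0),(8,2),(2,1),(2,0)]⟩⟩,.a ⟨true,0,⟨0,[(14,0)]⟩,⟨0,[(13,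
  0)]⟩⟩ ⟨false,1,⟨1,[(11,0),(18,0)]⟩,⟨0,[(3,0),(10,0)]⟩⟩ ⟨true,0,⟨0,[(13,0),(15,0)]⟩,⟨0,[(4,0),(4,
  0),(4,0)]⟩⟩]⟩) (.I [0,0,1,1,0,0,0,0,-1] (.R ⟨1,false,false,true,[1,0,0,-1],[1,-1],[0,1,0,0,0,0,0,
  0,-1],(⟨0,[(14,0)]⟩,⟨0,[(15,0)]⟩),(⟨0,[(26,0)]⟩,⟨0,[(27,0)]⟩),⟨0,[(2,0)]⟩,.k,.k,(.x (-1) ⟨3,[(12,
  0),(0,0),(11,1),(0,3)]⟩ ⟨0,[(27,0)]⟩),(.r 0 ⟨0,[(0,0)]⟩ ⟨15,[(1,1),(5,5),(5,6),(14,1),(2,4)]⟩),.k,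
  .k,⟨true,0,⟨0,[(0,0)]⟩,⟨2,[(1,2),(5,1),(23,0),(2,0)]⟩⟩,⟨false,0,⟨2,[(0,0),(3,0),(0,0),(8,1),(2,0),
  (11,0)]⟩,⟨0,[(15,0),(15,0)]⟩⟩,⟨true,0,⟨0,[(34,0)]⟩,⟨0,[]⟩⟩,⟨false,0,⟨0,[(4,0),(24,0)]⟩,⟨0,[(3,0),
  (26,0)]⟩⟩,⟨false,0,⟨0,[(30,0)]⟩,⟨2,[(7,0),(12,0),(0,0),(10,1)]⟩⟩,⟨false,0,⟨1,[(4,0),(1,0)]⟩,⟨0,
  [(3,0)]⟩⟩,[.o ⟨false,0,⟨0,[(5,0),(4,0)]⟩,⟨3,[(12,0),(0,0),(16,3),(1,1)]⟩⟩,.o ⟨false,1,⟨11,[(7,3),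
  (4,0),(0,0),(3,3),(2,3),(4,3),(6,1)]⟩,⟨0,[(30,0)]⟩⟩,.o ⟨false,1,⟨1,[(15,1),(9,0),(5,0)]⟩,⟨2,[(0,
  0),(3,0),(0,0),(8,1),(2,0),(11,0)]⟩⟩,.a ⟨true,0,⟨0,[(15,0)]⟩,⟨0,[(14,0)]⟩⟩ ⟨false,1,⟨1,[(12,0),
  (18,0)]⟩,⟨27,[(1,11),(5,3),(5,7),(6,0),(0,0),(6,9)]⟩⟩ ⟨true,0,⟨0,[(5,0),(4,0),(3,0)]⟩,⟨0,[(15,0),
  (14,0)]⟩⟩]⟩) (.Q [0,1,1,0,-1,0,0,0,1,1,0,-2] (.p false [0,0,0,1] [1,0,0,-1] (⟨0,[(15,0)]⟩,⟨0,[(14,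
  0)]⟩) .k 2 (⟨0,[(14,0)]⟩,⟨0,[(15,0)]⟩) .k (.r 0 ⟨4,[(0,3),(0,1),(11,1),(16,1),(3,1)]⟩ ⟨0,[(12,
  0)]⟩)) (.R ⟨1,false,false,true,[1,0,0,-1],[0,0,0,1],[0,1,0,0,0,0,0,0,-1],(⟨0,[(15,0)]⟩,⟨0,[(16,
  0)]⟩),(⟨0,[(16,0)]⟩,⟨0,[(15,0)]⟩),⟨0,[(3,0)]⟩,.k,.k,(.x (-1) ⟨3,[(13,0),(0,0),(11,1),(0,3)]⟩ ⟨0,
  [(28,0)]⟩),.k,(.r (-2) ⟨5,[(8,1),(4,6),(0,0),(17,0),(0,0)]⟩ ⟨0,[(1,0),(0,0),(28,0),(3,0)]⟩),.k,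
  ⟨true,1,⟨0,[(13,0)]⟩,⟨0,[(1,0),(0,0),(32,0)]⟩⟩,⟨false,0,⟨1,[(0,0),(4,0),(7,0),(1,0)]⟩,⟨0,[(1,0),
  (2,0),(1,0),(4,0),(4,0),(14,1)]⟩⟩,⟨true,0,⟨0,[(35,0)]⟩,⟨0,[]⟩⟩,⟨false,(-1),⟨27,[(0,27),(1,11),(5,
  3),(5,7),(6,0),(0,0),(6,9)]⟩,⟨0,[(4,1),(1,0),(4,0),(19,0)]⟩⟩,⟨false,0,⟨0,[(31,0)]⟩,⟨2,[(8,0),(12,
  0),(0,0),(10,1)]⟩⟩,⟨false,(-1),⟨3,[(0,2),(1,1),(2,0),(8,0),(0,0),(15,1)]⟩,⟨0,[(4,1),(1,0),(4,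
  0)]⟩⟩,[.e ⟨false,1,⟨1,[(13,0),(18,0),(2,1)]⟩,⟨3,[(1,1),(0,1),(29,0),(0,0)]⟩⟩ ⟨false,(-1),⟨0,[(0,
  0)]⟩,⟨1,[(4,1),(11,1),(9,0),(5,0)]⟩⟩,.o ⟨false,0,⟨1,[(5,0),(1,0)]⟩,⟨0,[(4,0),(1,0),(4,0),(19,
  0)]⟩⟩,.o ⟨false,1,⟨1,[(16,1),(9,0),(5,0)]⟩,⟨8,[(0,2),(4,2),(0,0),(6,2),(4,1),(2,0)]⟩⟩,.a ⟨true,0,
  ⟨0,[(16,0)]⟩,⟨0,[(15,0)]⟩⟩ ⟨false,1,⟨1,[(13,0),(18,0)]⟩,⟨27,[(2,11),(5,3),(5,7),(6,0),(0,0),(6,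
  9)]⟩⟩ ⟨true,(-1),⟨0,[(0,0)]⟩,⟨0,[(4,0),(1,0),(4,0),(4,0),(14,0)]⟩⟩]⟩) (.Q [0,1,1,0,-1,0,0,0,1,1,0,
  -1] (.p false [0,0,0,1] [1] (⟨0,[(16,0)]⟩,⟨0,[(15,0)]⟩) .k 1 (⟨0,[]⟩,⟨0,[]⟩) .k .k) (.R ⟨1,false,
  false,true,[1,0,0,-1],[0,0,0,1],[0,1,0,0,0,0,0,0,-1],(⟨0,[(16,0)]⟩,⟨0,[(17,0)]⟩),(⟨0,[(17,0)]⟩,⟨0,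
  [(16,0)]⟩),⟨0,[(4,0)]⟩,.k,.k,(.x (-1) ⟨3,[(14,0),(0,0),(11,1),(0,3)]⟩ ⟨0,[(29,0)]⟩),.k,(.r (-2)
  ⟨5,[(9,1),(4,6),(0,0),(17,0),(0,0)]⟩ ⟨18,[(0,4),(1,15),(0,14),(11,0),(1,4),(0,4),(1,4),(11,19)]⟩),
  .k,⟨true,1,⟨0,[(14,0)]⟩,⟨18,[(0,4),(1,15),(0,14),(11,0),(1,4),(0,4),(1,4),(11,0)]⟩⟩,⟨false,0,⟨2,
  [(0,0),(5,0),(0,0),(6,0),(1,3),(2,0)]⟩,⟨2,[(1,1),(0,1),(14,1),(0,0),(1,0),(11,1),(0,0)]⟩⟩,⟨true,0,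
  ⟨0,[(36,0)]⟩,⟨0,[]⟩⟩,⟨false,(-1),⟨0,[(0,0),(5,0)]⟩,⟨1,[(1,1),(12,0),(18,0)]⟩⟩,⟨false,0,⟨0,[(32,
  0)]⟩,⟨2,[(9,0),(12,0),(0,0),(10,1)]⟩⟩,⟨false,(-1),⟨0,[(0,0),(5,0),(25,0)]⟩,⟨0,[(1,0),(0,0),(11,
  0)]⟩⟩,[.a ⟨true,(-1),⟨0,[(0,0)]⟩,⟨0,[(5,0)]⟩⟩ ⟨false,1,⟨1,[(14,0),(18,0),(2,1)]⟩,⟨3,[(2,1),(0,1),
  (29,0),(0,0)]⟩⟩ ⟨true,(-1),⟨2,[(0,3),(5,0),(0,0),(6,0),(1,0),(2,0)]⟩,⟨0,[(1,0)]⟩⟩,.o ⟨false,0,⟨1,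
  [(6,0),(1,0)]⟩,⟨3,[(1,1),(5,1),(4,1),(1,0),(17,1),(0,0)]⟩⟩,.o ⟨false,1,⟨15,[(1,7),(0,1),(12,2),(2,
  3),(1,3),(6,1),(4,1),(0,2)]⟩,⟨2,[(0,0),(5,0),(0,0),(6,0),(1,0),(2,0)]⟩⟩,.e ⟨false,1,⟨1,[(14,0),
  (18,0)]⟩,⟨27,[(3,11),(5,3),(5,7),(6,0),(0,0),(6,9)]⟩⟩ ⟨false,0,⟨1,[(6,0),(1,0),(7,1)]⟩,⟨0,[(1,
  0)]⟩⟩]⟩) (.Q [0,0,0,0,0,0,1,1,0,1,-1] (.p false [0,0,1] [1] (⟨0,[(26,0)]⟩,⟨0,[(25,0)]⟩) .k 1 (⟨0,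
  []⟩,⟨0,[]⟩) .k .k) (.Q [0,0,0,0,0,0,-1,-1,0,0,1] (.p true [0,0,1] [] (⟨0,[(27,0)]⟩,⟨0,[(26,0)]⟩)
  .k 0 (⟨0,[]⟩,⟨0,[]⟩) .k .k) (.R ⟨0,false,false,true,[0,1,-1],[1,0,-1],[1,1],(⟨0,[(12,0)]⟩,⟨0,[(28,
  0),(1,0)]⟩),(⟨0,[(27,0)]⟩,⟨0,[(28,0)]⟩),⟨0,[(28,0)]⟩,.k,.k,.k,.k,.k,.k,⟨false,1,⟨0,[(1,0),(19,0),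
  (13,0)]⟩,⟨0,[(26,0)]⟩⟩,⟨true,0,⟨2,[(9,0),(11,1),(2,0)]⟩,⟨0,[(18,0),(0,0)]⟩⟩,⟨false,1,⟨3,[(1,3),(0,
  0),(1,0),(6,0),(6,0),(2,3),(13,1)]⟩,⟨3,[(5,1),(10,0),(9,3),(7,1),(1,0)]⟩⟩,⟨true,0,⟨0,[(9,0),(4,
  0)]⟩,⟨0,[(18,0),(0,0),(14,0)]⟩⟩,⟨false,0,⟨0,[]⟩,⟨0,[]⟩⟩,⟨false,0,⟨0,[]⟩,⟨0,[]⟩⟩,[.o ⟨false,0,⟨0,
  [(20,0)]⟩,⟨1,[(1,1),(27,0),(6,0)]⟩⟩,.a ⟨true,0,⟨0,[(0,0)]⟩,⟨0,[(1,0)]⟩⟩ ⟨true,0,⟨0,[]⟩,⟨1,[(24,0),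
  (0,0)]⟩⟩ ⟨false,0,⟨0,[(0,0),(8,0)]⟩,⟨0,[(1,0),(23,0),(9,0)]⟩⟩,.o ⟨false,1,⟨0,[(25,0),(9,0)]⟩,⟨2,
  [(9,1),(11,0),(2,1)]⟩⟩,.o ⟨false,1,⟨3,[(16,0),(0,0),(7,3),(9,1)]⟩,⟨0,[(9,0)]⟩⟩]⟩) (.Q [0,0,0,-1,0,
  0,1,1,0,0,-1] (.p false [0,0,1] [] (⟨0,[(28,0)]⟩,⟨0,[(27,0)]⟩) .k 0 (⟨0,[]⟩,⟨0,[]⟩) .k .k) (.R ⟨1,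
  false,false,true,[1,0,0,-1],[1,0,-1],[0,1,0,0,0,0,0,0,-1],(⟨0,[(19,0)]⟩,⟨0,[(20,0)]⟩),(⟨0,[(28,
  0)]⟩,⟨0,[(29,0)]⟩),⟨0,[(7,0)]⟩,.k,.k,(.x (-1) ⟨3,[(17,0),(0,0),(11,1),(0,3)]⟩ ⟨0,[(32,0)]⟩),.k,
  (.r (-1) ⟨0,[(1,0),(1,0),(11,0),(3,0)]⟩ ⟨2,[(6,0),(11,0),(5,0),(0,0),(1,1),(7,1)]⟩),.k,⟨false,1,
  ⟨0,[(1,0),(1,0),(11,0),(3,0),(15,0)]⟩,⟨9,[(5,3),(0,1),(9,0),(1,1),(2,0),(2,0),(2,7),(7,1)]⟩⟩,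
  ⟨true,0,⟨0,[(19,0),(2,0)]⟩,⟨2,[(10,0),(5,0),(3,2)]⟩⟩,⟨true,0,⟨0,[(39,0)]⟩,⟨0,[]⟩⟩,⟨false,0,⟨0,[(9,
  0),(14,0)]⟩,⟨0,[(2,0),(0,0)]⟩⟩,⟨false,0,⟨0,[(35,0)]⟩,⟨2,[(12,0),(12,0),(0,0),(10,1)]⟩⟩,⟨false,0,
  ⟨0,[(9,0),(14,0),(10,0)]⟩,⟨0,[(0,0),(7,0)]⟩⟩,[.o ⟨false,0,⟨0,[(21,0)]⟩,⟨1,[(2,1),(27,0),(6,0)]⟩⟩,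
  .o ⟨false,1,⟨1,[(24,1),(5,0),(6,0)]⟩,⟨0,[(1,0)]⟩⟩,.o ⟨false,1,⟨15,[(4,7),(0,1),(12,2),(2,3),(1,3),
  (6,1),(4,1),(0,2)]⟩,⟨2,[(10,0),(8,2),(2,1),(2,0)]⟩⟩,.a ⟨true,0,⟨0,[(20,0)]⟩,⟨0,[(19,0)]⟩⟩ ⟨false,
  1,⟨1,[(17,0),(18,0)]⟩,⟨27,[(6,11),(5,3),(5,7),(6,0),(0,0),(6,9)]⟩⟩ ⟨true,0,⟨0,[(19,0),(1,0)]⟩,⟨0,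
  [(1,0),(18,0)]⟩⟩]⟩) (.R ⟨2,true,false,true,[0,1],[0,0,1],[1,0,1],(⟨0,[]⟩,⟨0,[]⟩),(⟨0,[(29,0)]⟩,⟨0,
  [(28,0)]⟩),⟨0,[]⟩,.k,.k,.k,.k,.k,.k,⟨true,0,⟨2,[(24,0),(0,0),(1,1),(5,1)]⟩,⟨0,[(1,0),(13,0),(19,
  0)]⟩⟩,⟨false,0,⟨0,[(14,0)]⟩,⟨0,[(26,0),(9,0)]⟩⟩,⟨false,1,⟨2,[(12,0),(12,0),(0,0),(10,1)]⟩,⟨0,[(35,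
  0)]⟩⟩,⟨true,0,⟨0,[(1,0),(32,0)]⟩,⟨0,[(0,0)]⟩⟩,⟨true,0,⟨0,[]⟩,⟨0,[(39,0)]⟩⟩,⟨false,0,⟨0,[(1,0)]⟩,
  ⟨0,[(24,0),(12,0)]⟩⟩,[]⟩))) (.Q [0,0,-1,-1,1,0,1,1,-1,0,-1,1] (.p false [0,0,1] [0,0,0,1] (⟨0,
  [(27,0)]⟩,⟨0,[(26,0)]⟩) .k 2 (⟨0,[(18,0)]⟩,⟨0,[(17,0)]⟩) .k (.r (-1) ⟨0,[(6,0),(10,0),(2,0),(0,
  0)]⟩ ⟨9,[(3,3),(0,1),(9,0),(1,1),(2,0),(2,0),(2,7),(7,1)]⟩)) (.R ⟨1,false,false,false,[1,0,0,-1],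
  [1,0,-1],[0,1,0,0,0,0,0,0,-1],(⟨0,[(18,0)]⟩,⟨0,[(19,0)]⟩),(⟨0,[(27,0)]⟩,⟨0,[(28,0)]⟩),⟨0,[(6,0)]⟩,
  .k,.k,(.x (-1) ⟨3,[(16,0),(0,0),(11,1),(0,3)]⟩ ⟨0,[(31,0)]⟩),.k,(.x 0 ⟨0,[(9,0),(18,0),(1,0)]⟩ ⟨3,
  [(12,3),(3,0),(0,0),(7,3),(9,1)]⟩),.k,⟨false,1,⟨0,[(2,0),(11,0),(3,0),(3,0),(11,0)]⟩,⟨3,[(4,1),(0,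
  1),(20,3),(8,0),(0,0)]⟩⟩,⟨true,0,⟨0,[(18,0),(2,0)]⟩,⟨2,[(9,0),(5,0),(3,2)]⟩⟩,⟨true,0,⟨0,[(38,0)]⟩,
  ⟨0,[]⟩⟩,⟨false,0,⟨4,[(1,1),(2,0),(0,0),(2,2),(9,1),(4,2),(8,0),(3,0)]⟩,⟨0,[(7,0),(14,0)]⟩⟩,⟨false,
  0,⟨0,[(34,0)]⟩,⟨2,[(11,0),(12,0),(0,0),(10,1)]⟩⟩,⟨false,0,⟨3,[(1,1),(3,1),(2,1),(9,1),(4,1),(10,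
  1),(0,0),(0,0)]⟩,⟨0,[(0,0)]⟩⟩,[.o ⟨false,0,⟨0,[(1,0)]⟩,⟨3,[(16,0),(0,0),(4,3),(13,1)]⟩⟩,.o ⟨false,
  1,⟨3,[(1,1),(21,1),(5,0),(6,2)]⟩,⟨0,[(22,0)]⟩⟩,.o ⟨false,1,⟨15,[(3,7),(0,1),(12,2),(2,3),(1,3),(6,
  1),(4,1),(0,2)]⟩,⟨2,[(9,0),(8,2),(2,1),(2,0)]⟩⟩,.a ⟨true,0,⟨0,[(19,0)]⟩,⟨0,[(18,0)]⟩⟩ ⟨false,1,⟨1,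
  [(16,0),(18,0)]⟩,⟨27,[(5,11),(5,3),(5,7),(6,0),(0,0),(6,9)]⟩⟩ ⟨true,0,⟨0,[(1,0),(16,0)]⟩,⟨0,[(19,
  0),(2,0)]⟩⟩]⟩) (.R ⟨1,true,false,false,[1,0,0,-1],[1,0,-1],[0,1,0,0,0,0,0,0,-1],(⟨0,[(18,0)]⟩,⟨0,
  [(19,0)]⟩),(⟨0,[(27,0)]⟩,⟨0,[(28,0)]⟩),⟨0,[(6,0)]⟩,.k,.k,(.x (-1) ⟨3,[(16,0),(0,0),(11,1),(0,3)]⟩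
  ⟨0,[(31,0)]⟩),.k,(.r (-2) ⟨1,[(14,1),(1,0),(5,1),(12,0),(0,1)]⟩ ⟨2,[(0,2),(8,0),(5,0),(3,2)]⟩),.k,
  ⟨false,1,⟨0,[(2,0),(11,0),(3,0),(3,0),(11,0)]⟩,⟨21,[(0,7),(2,3),(0,11),(0,3),(9,3),(1,0),(8,13),
  (9,6)]⟩⟩,⟨true,0,⟨0,[(18,0),(2,0)]⟩,⟨2,[(9,0),(5,0),(3,2)]⟩⟩,⟨true,0,⟨0,[(38,0)]⟩,⟨0,[]⟩⟩,⟨false,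
  0,⟨6,[(0,2),(7,3),(2,0),(11,3),(8,1),(3,1)]⟩,⟨0,[(7,0),(14,0)]⟩⟩,⟨false,0,⟨0,[(34,0)]⟩,⟨2,[(11,0),
  (12,0),(0,0),(10,1)]⟩⟩,⟨true,(-1),⟨0,[(0,0)]⟩,⟨2,[(7,0),(3,0),(4,0),(2,1),(2,2)]⟩⟩,[]⟩))))))))
  (.K ⟨0,[0,0,0,1],0,(-1),(⟨0,[(12,0)]⟩,⟨0,[(11,0)]⟩),.k,(.x 0 ⟨0,[(14,0),(2,0),(5,0)]⟩ ⟨0,[(24,0),
  (3,0)]⟩),(.x 0 ⟨0,[(24,0)]⟩ ⟨3,[(9,0),(0,0),(11,1),(0,3)]⟩),.k,.k,[⟨0,[(12,0)]⟩,⟨0,[(11,0)]⟩,⟨1,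
  [(9,0),(2,1),(15,0),(2,1)]⟩,⟨0,[(0,0)]⟩]⟩)))) (.Q [0,0,0,0,0,0,-1,-1,0,0,1] (.p true [0,0,1] []
  (⟨0,[(18,0)]⟩,⟨0,[(17,0)]⟩) .k 0 (⟨0,[]⟩,⟨0,[]⟩) .k .k) (.Q [0,0,0,0,0,0,-1,0,0,1,1] (.p true [1,
  -1,1] [] (⟨0,[(19,0),(1,0)]⟩,⟨0,[(3,0)]⟩) .k 0 (⟨0,[]⟩,⟨0,[]⟩) .k .k) (.R ⟨0,false,false,true,[0,
  1,-1],[0,1],[1,0,1],(⟨0,[(4,0)]⟩,⟨0,[(20,0),(1,0)]⟩),(⟨0,[(23,0)]⟩,⟨0,[(22,0)]⟩),⟨0,[(20,0)]⟩,.k,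
  .k,.k,.k,.k,.k,⟨false,1,⟨2,[(3,0),(20,0),(2,0),(0,0)]⟩,⟨0,[(26,0),(3,0)]⟩⟩,⟨true,0,⟨0,[(5,0)]⟩,⟨0,
  [(17,0)]⟩⟩,⟨false,1,⟨5,[(0,2),(2,1),(9,2),(0,5),(9,4),(2,1),(0,1)]⟩,⟨0,[(18,0),(7,0)]⟩⟩,⟨true,0,
  ⟨0,[(14,0)]⟩,⟨0,[(1,0)]⟩⟩,⟨false,0,⟨0,[]⟩,⟨0,[]⟩⟩,⟨false,0,⟨0,[]⟩,⟨0,[]⟩⟩,[.o ⟨false,0,⟨0,[(26,0),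
  (3,0)]⟩,⟨8,[(3,2),(9,0),(2,0),(4,3),(2,3),(3,1)]⟩⟩,.o ⟨false,0,⟨0,[(26,0)]⟩,⟨11,[(3,3),(4,0),(0,
  0),(3,3),(2,3),(4,3),(6,1)]⟩⟩,.o ⟨false,1,⟨1,[(0,1),(20,0),(5,0)]⟩,⟨0,[(5,1),(7,0)]⟩⟩,.a ⟨true,0,
  ⟨0,[(0,0)]⟩,⟨0,[(5,0)]⟩⟩ ⟨true,0,⟨0,[]⟩,⟨0,[(30,0)]⟩⟩ ⟨false,0,⟨0,[(5,0),(20,0)]⟩,⟨2,[(0,0),(2,0),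
  (9,0),(3,0),(10,1)]⟩⟩]⟩) (.I [0,1,1,0,0,0,0,0,1] (.Q [0,0,0,0,0,1,0,0,0,-1,0,1] (.p true [0,0,0,
  1] [1] (⟨0,[(12,0)]⟩,⟨0,[(11,0)]⟩) .k 1 (⟨0,[]⟩,⟨0,[]⟩) .k .k) (.R ⟨0,false,false,true,[1,0,0,-1],
  [0,1],[1,0,1],(⟨0,[(12,0)]⟩,⟨0,[(13,0)]⟩),(⟨0,[(25,0)]⟩,⟨0,[(24,0)]⟩),⟨0,[(0,0)]⟩,.k,.k,(.x (-1)
  ⟨3,[(10,0),(0,0),(11,1),(0,3)]⟩ ⟨0,[(25,0)]⟩),(.x (-1) ⟨3,[(10,0),(0,0),(11,1),(0,3)]⟩ ⟨0,[(25,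
  0)]⟩),.k,.k,⟨false,1,⟨2,[(5,0),(20,0),(2,0),(0,0)]⟩,⟨0,[(28,0),(3,0)]⟩⟩,⟨true,0,⟨0,[(12,0)]⟩,⟨2,
  [(2,0),(10,2),(1,1),(2,0)]⟩⟩,⟨false,1,⟨0,[(1,0),(28,0)]⟩,⟨0,[(2,0),(1,0),(3,0),(3,0),(15,0)]⟩⟩,
  ⟨true,0,⟨0,[(1,0),(10,0),(15,0)]⟩,⟨0,[(2,0),(1,0),(3,0)]⟩⟩,⟨false,0,⟨0,[]⟩,⟨0,[]⟩⟩,⟨false,0,⟨0,
  []⟩,⟨0,[]⟩⟩,[.o ⟨false,0,⟨0,[(28,0),(3,0)]⟩,⟨8,[(5,2),(9,0),(2,0),(4,3),(2,3),(3,1)]⟩⟩,.o ⟨false,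
  0,⟨0,[(28,0)]⟩,⟨11,[(5,3),(4,0),(0,0),(3,3),(2,3),(4,3),(6,1)]⟩⟩,.o ⟨false,1,⟨1,[(13,1),(9,0),(5,
  0)]⟩,⟨2,[(2,0),(9,2),(2,1),(2,0)]⟩⟩,.a ⟨true,0,⟨0,[(13,0)]⟩,⟨0,[(12,0)]⟩⟩ ⟨true,0,⟨0,[]⟩,⟨0,[(32,
  0)]⟩⟩ ⟨false,0,⟨0,[(12,0),(15,0)]⟩,⟨8,[(5,2),(7,8),(1,0),(2,0),(4,3),(2,3),(3,1)]⟩⟩]⟩) (.Q [0,-1,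
  0,1,0,0,-1,-1,0,1,1] (.p true [1,-1,1] [] (⟨0,[(22,0),(1,0)]⟩,⟨0,[(6,0)]⟩) .k 0 (⟨0,[]⟩,⟨0,[]⟩)
  .k .k) (.Q [0,1,1,0,0,0,-1,-1,1,0,1,-1] (.p true [0,0,1] [0,0,0,1] (⟨0,[(23,0)]⟩,⟨0,[(22,0)]⟩) .k
  2 (⟨0,[(14,0)]⟩,⟨0,[(13,0)]⟩) .k (.r 0 ⟨0,[(5,0),(7,0),(2,0),(0,0)]⟩ ⟨3,[(11,0),(0,2),(8,3)]⟩))
  (.R ⟨0,false,false,true,[0,0,1],[0,0,0,1],[0,1],(⟨0,[(24,0)]⟩,⟨0,[(23,0)]⟩),(⟨0,[(15,0)]⟩,⟨0,[(14,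
  0)]⟩),⟨0,[(8,0)]⟩,.k,.k,.k,.k,.k,.k,⟨false,0,⟨0,[(4,0),(1,0),(3,0),(3,0),(15,0)]⟩,⟨3,[(12,0),(0,
  2)]⟩⟩,⟨true,0,⟨0,[(14,0),(2,0)]⟩,⟨2,[(4,0),(6,0),(3,2)]⟩⟩,⟨false,0,⟨0,[(22,0)]⟩,⟨0,[(18,0),(2,0),
  (6,0),(2,0)]⟩⟩,⟨true,0,⟨0,[(0,0)]⟩,⟨0,[(6,0),(11,0)]⟩⟩,⟨false,0,⟨0,[]⟩,⟨0,[]⟩⟩,⟨false,0,⟨0,[]⟩,⟨0,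
  []⟩⟩,[.a ⟨true,0,⟨0,[(3,0),(10,0)]⟩,⟨0,[(6,0)]⟩⟩ ⟨true,0,⟨0,[(34,0)]⟩,⟨3,[(20,0),(0,0),(6,1)]⟩⟩
  ⟨false,1,⟨3,[(0,1),(12,0),(0,1),(2,1),(0,1),(2,1),(9,2)]⟩,⟨2,[(4,0),(1,2),(4,0)]⟩⟩,.o ⟨false,1,⟨7,
  [(12,0),(0,4),(0,7),(2,3),(2,3),(4,1)]⟩,⟨0,[(4,0),(1,0),(3,0),(19,0)]⟩⟩,.o ⟨false,0,⟨0,[(9,0)]⟩,
  ⟨3,[(12,0),(0,0),(3,3),(13,1)]⟩⟩,.o ⟨false,0,⟨0,[(20,0)]⟩,⟨0,[(17,0),(13,0)]⟩⟩]⟩) (.R ⟨0,false,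
  false,false,[0,1,-1],[1,0,0,-1],[1,0,1],(⟨0,[(8,0)]⟩,⟨0,[(24,0),(1,0)]⟩),(⟨0,[(14,0)]⟩,⟨0,[(15,
  0)]⟩),⟨0,[(24,0)]⟩,.k,.k,.k,(.r 0 ⟨0,[(1,0),(1,0),(0,0)]⟩ ⟨21,[(0,11),(6,3),(2,9),(1,4),(1,11),(2,
  11),(0,9),(12,6),(0,5)]⟩),.k,.k,⟨false,1,⟨3,[(12,0),(0,2)]⟩,⟨0,[(0,0),(13,0),(1,0)]⟩⟩,⟨true,0,⟨0,
  [(4,0),(10,0)]⟩,⟨0,[(14,0),(6,0)]⟩⟩,⟨false,1,⟨13,[(0,5),(6,1),(2,7),(2,2),(0,5),(2,5),(0,7),(9,3),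
  (3,8)]⟩,⟨0,[(22,0),(7,0)]⟩⟩,⟨true,0,⟨0,[(0,0),(3,0),(5,0)]⟩,⟨1,[(1,0),(1,1),(10,1),(1,0),(13,
  0)]⟩⟩,⟨false,0,⟨0,[]⟩,⟨0,[]⟩⟩,⟨false,0,⟨0,[]⟩,⟨0,[]⟩⟩,[.o ⟨false,0,⟨0,[(0,0),(15,0)]⟩,⟨7,[(12,0),
  (0,4),(0,7),(2,3),(2,3),(4,1)]⟩⟩,.a ⟨true,0,⟨0,[(6,0)]⟩,⟨0,[(3,0),(10,0)]⟩⟩ ⟨true,0,⟨3,[(20,0),(0,
  0),(6,1)]⟩,⟨0,[(34,0)]⟩⟩ ⟨false,0,⟨0,[(4,0),(1,0)]⟩,⟨3,[(10,3),(1,0),(0,2),(0,3),(15,3)]⟩⟩,.o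
  ⟨false,1,⟨0,[(21,0),(9,0)]⟩,⟨2,[(4,1),(12,0),(2,1)]⟩⟩,.o ⟨false,1,⟨3,[(12,0),(0,0),(7,3),(9,1)]⟩,
  ⟨0,[(4,0)]⟩⟩]⟩)) (.R ⟨0,false,false,false,[0,1,-1],[1,0,0,-1],[1,0,1],(⟨0,[(7,0)]⟩,⟨0,[(23,0),(1,
  0)]⟩),(⟨0,[(13,0)]⟩,⟨0,[(14,0)]⟩),⟨0,[(23,0)]⟩,.k,.k,.k,(.x (-1) ⟨3,[(7,3),(3,0),(0,0),(7,3),(9,
  1)]⟩ ⟨0,[(3,0),(19,0),(1,0)]⟩),.k,.k,⟨false,1,⟨3,[(11,0),(0,2)]⟩,⟨1,[(0,0),(4,1),(7,1),(1,0),(13,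
  0)]⟩⟩,⟨true,0,⟨0,[(3,0),(10,0)]⟩,⟨0,[(13,0),(6,0)]⟩⟩,⟨false,1,⟨1,[(9,1),(7,1),(9,1),(2,0),(0,0)]⟩,
  ⟨0,[(21,0),(7,0)]⟩⟩,⟨true,0,⟨0,[(0,0),(4,0)]⟩,⟨0,[(2,0),(1,0),(8,0),(15,0)]⟩⟩,⟨false,0,⟨0,[]⟩,⟨0,
  []⟩⟩,⟨false,0,⟨0,[]⟩,⟨0,[]⟩⟩,[.o ⟨false,0,⟨1,[(0,0),(4,1),(9,0),(13,0)]⟩,⟨7,[(11,0),(0,4),(0,7),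
  (2,3),(2,3),(4,1)]⟩⟩,.a ⟨true,0,⟨0,[(5,0)]⟩,⟨0,[(2,0),(10,0)]⟩⟩ ⟨true,0,⟨3,[(19,0),(0,0),(6,1)]⟩,
  ⟨0,[(33,0)]⟩⟩ ⟨false,0,⟨0,[(3,0),(1,0)]⟩,⟨3,[(9,3),(1,0),(0,2),(0,3),(15,3)]⟩⟩,.o ⟨false,1,⟨0,
  [(20,0),(9,0)]⟩,⟨2,[(3,1),(12,0),(2,1)]⟩⟩,.o ⟨false,1,⟨3,[(11,0),(0,0),(7,3),(9,1)]⟩,⟨0,[(3,
  0)]⟩⟩]⟩))) (.Q [0,0,0,0,0,0,-1,-1,0,-1,1] (.p true [0,0,1] [1] (⟨0,[(21,0)]⟩,⟨0,[(20,0)]⟩) .k 1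
  (⟨0,[]⟩,⟨0,[]⟩) .k .k) (.Q [0,0,0,0,0,1,0,0,0,-1,0,1] (.p true [0,0,0,1] [1] (⟨0,[(13,0)]⟩,⟨0,
  [(12,0)]⟩) .k 1 (⟨0,[]⟩,⟨0,[]⟩) .k .k) (.R ⟨0,false,false,false,[1,0,0,-1],[1,0,-1],[0,1,0,0,0,0,
  0,0,-1],(⟨0,[(13,0)]⟩,⟨0,[(14,0)]⟩),(⟨0,[(22,0)]⟩,⟨0,[(23,0)]⟩),⟨0,[(0,0)]⟩,.k,.k,(.x (-1) ⟨3,
  [(11,0),(0,0),(11,1),(0,3)]⟩ ⟨0,[(26,0)]⟩),.k,.k,.k,⟨false,0,⟨0,[(2,0),(6,0),(7,0),(11,0)]⟩,⟨1,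
  [(12,0),(8,1),(9,0)]⟩⟩,⟨true,0,⟨0,[(13,0),(2,0)]⟩,⟨2,[(3,0),(6,0),(3,2)]⟩⟩,⟨true,0,⟨0,[(33,0)]⟩,
  ⟨0,[]⟩⟩,⟨false,1,⟨1,[(12,0),(0,1),(2,1),(4,1),(9,0)]⟩,⟨0,[(5,0),(11,0)]⟩⟩,⟨false,0,⟨0,[]⟩,⟨0,[]⟩⟩,
  ⟨false,0,⟨0,[]⟩,⟨0,[]⟩⟩,[.o ⟨false,0,⟨0,[(1,0)]⟩,⟨3,[(11,0),(0,0),(4,3),(13,1)]⟩⟩,.o ⟨false,1,⟨3,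
  [(1,1),(16,1),(5,0),(6,2)]⟩,⟨0,[(17,0)]⟩⟩,.o ⟨false,1,⟨1,[(14,1),(9,0),(5,0)]⟩,⟨2,[(3,0),(9,2),(2,
  1),(2,0)]⟩⟩,.a ⟨true,0,⟨0,[(14,0)]⟩,⟨0,[(13,0)]⟩⟩ ⟨false,0,⟨0,[(2,0),(30,0)]⟩,⟨1,[(12,0),(6,0),(0,
  0),(10,0)]⟩⟩ ⟨true,0,⟨0,[(1,0),(11,0)]⟩,⟨0,[(14,0),(2,0)]⟩⟩]⟩) (.Q [0,0,-1,-1,0,0,1,1,-1,0,-1,1]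
  (.p false [0,0,1] [0,0,0,1] (⟨0,[(23,0)]⟩,⟨0,[(22,0)]⟩) .k 2 (⟨0,[(14,0)]⟩,⟨0,[(13,0)]⟩) .k (.r 0
  ⟨0,[(2,0),(14,0),(2,0)]⟩ ⟨3,[(11,0),(0,2),(8,3)]⟩)) (.R ⟨1,false,false,false,[1,0,0,-1],[1,0,-1],
  [0,1,0,0,0,0,0,0,-1],(⟨0,[(14,0)]⟩,⟨0,[(15,0)]⟩),(⟨0,[(23,0)]⟩,⟨0,[(24,0)]⟩),⟨0,[(1,0)]⟩,.k,.k,
  (.x (-1) ⟨3,[(12,0),(0,0),(11,1),(0,3)]⟩ ⟨0,[(27,0)]⟩),.k,(.x 0 ⟨0,[(4,0),(19,0),(1,0)]⟩ ⟨3,[(8,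
  3),(3,0),(0,0),(7,3),(9,1)]⟩),.k,⟨false,0,⟨0,[(3,0),(6,0),(7,0),(11,0)]⟩,⟨1,[(13,0),(8,1),(9,
  0)]⟩⟩,⟨true,0,⟨0,[(14,0),(2,0)]⟩,⟨2,[(4,0),(6,0),(3,2)]⟩⟩,⟨true,0,⟨0,[(34,0)]⟩,⟨0,[]⟩⟩,⟨false,1,
  ⟨1,[(13,0),(0,1),(2,1),(4,1),(9,0)]⟩,⟨0,[(0,0),(29,0)]⟩⟩,⟨false,0,⟨0,[(30,0)]⟩,⟨2,[(7,0),(12,0),
  (0,0),(10,1)]⟩⟩,⟨false,1,⟨1,[(13,0),(0,1),(2,1),(4,1),(7,1),(1,0)]⟩,⟨0,[(0,0)]⟩⟩,[.o ⟨false,0,⟨0,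
  [(2,0)]⟩,⟨3,[(12,0),(0,0),(4,3),(13,1)]⟩⟩,.o ⟨false,1,⟨3,[(2,1),(16,1),(5,0),(6,2)]⟩,⟨0,[(18,
  0)]⟩⟩,.o ⟨false,1,⟨1,[(15,1),(9,0),(5,0)]⟩,⟨2,[(4,0),(9,2),(2,1),(2,0)]⟩⟩,.a ⟨true,0,⟨0,[(15,0)]⟩,
  ⟨0,[(14,0)]⟩⟩ ⟨false,0,⟨0,[(3,0),(30,0)]⟩,⟨1,[(13,0),(6,0),(0,0),(10,0)]⟩⟩ ⟨true,0,⟨0,[(2,0),(11,
  0)]⟩,⟨0,[(15,0),(2,0)]⟩⟩]⟩) (.R ⟨1,true,false,false,[1,0,0,-1],[1,0,-1],[0,1,0,0,0,0,0,0,-1],(⟨0,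
  [(14,0)]⟩,⟨0,[(15,0)]⟩),(⟨0,[(23,0)]⟩,⟨0,[(24,0)]⟩),⟨0,[(1,0)]⟩,.k,.k,(.x (-1) ⟨3,[(12,0),(0,0),
  (11,1),(0,3)]⟩ ⟨0,[(27,0)]⟩),.k,(.r (-1) ⟨5,[(3,3),(6,5),(1,0),(5,5),(12,0),(0,3)]⟩ ⟨2,[(0,2),(3,
  0),(6,0),(3,2)]⟩),.k,⟨false,0,⟨0,[(3,0),(6,0),(7,0),(11,0)]⟩,⟨1,[(13,0),(8,1),(9,0)]⟩⟩,⟨true,0,⟨0,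
  [(14,0),(2,0)]⟩,⟨2,[(4,0),(6,0),(3,2)]⟩⟩,⟨true,0,⟨0,[(34,0)]⟩,⟨0,[]⟩⟩,⟨false,1,⟨2,[(0,2),(6,0),
  (12,0),(0,0),(10,1)]⟩,⟨0,[(6,0),(11,0)]⟩⟩,⟨false,0,⟨0,[(30,0)]⟩,⟨2,[(7,0),(12,0),(0,0),(10,1)]⟩⟩,
  ⟨true,0,⟨0,[(0,0)]⟩,⟨0,[(6,0),(11,0),(10,0)]⟩⟩,[]⟩))) (.R ⟨0,false,false,true,[0,1,-1],[1,0,-1],
  [1,1],(⟨0,[(6,0)]⟩,⟨0,[(22,0),(1,0)]⟩),(⟨0,[(21,0)]⟩,⟨0,[(22,0)]⟩),⟨0,[(22,0)]⟩,.k,.k,.k,.k,.k,.k,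
  ⟨false,1,⟨0,[(0,0),(14,0),(13,0)]⟩,⟨0,[(20,0)]⟩⟩,⟨true,0,⟨2,[(2,0),(12,1),(2,0)]⟩,⟨0,[(12,0),(0,
  0)]⟩⟩,⟨false,1,⟨5,[(0,5),(0,1),(3,1),(5,0),(3,5),(13,2)]⟩,⟨2,[(17,0),(0,0),(1,1),(5,1),(1,2)]⟩⟩,
  ⟨true,0,⟨0,[(2,0),(5,0)]⟩,⟨0,[(12,0),(0,0),(14,0)]⟩⟩,⟨false,0,⟨0,[]⟩,⟨0,[]⟩⟩,⟨false,0,⟨0,[]⟩,⟨0,
  []⟩⟩,[.o ⟨false,0,⟨0,[(14,0)]⟩,⟨1,[(0,1),(22,0),(6,0)]⟩⟩,.a ⟨true,0,⟨0,[(3,0)]⟩,⟨0,[(0,0)]⟩⟩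
  ⟨true,0,⟨0,[]⟩,⟨1,[(18,0),(0,0)]⟩⟩ ⟨false,0,⟨0,[(2,0),(0,0)]⟩,⟨0,[(0,0),(18,0),(9,0)]⟩⟩,.o ⟨false,
  1,⟨0,[(19,0),(9,0)]⟩,⟨2,[(2,1),(12,0),(2,1)]⟩⟩,.o ⟨false,1,⟨3,[(10,0),(0,0),(7,3),(9,1)]⟩,⟨0,[(2,
  0)]⟩⟩]⟩)))) (.Q [0,0,0,0,0,0,-1,0,0,1,1] (.p true [1,-1,1] [] (⟨0,[(19,0),(1,0)]⟩,⟨0,[(3,0)]⟩) .k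
  0 (⟨0,[]⟩,⟨0,[]⟩) .k .k) (.R ⟨0,false,false,false,[0,1,-1],[0,1],[1,1],(⟨0,[(4,0)]⟩,⟨0,[(20,0),(1,
  0)]⟩),(⟨0,[(23,0)]⟩,⟨0,[(22,0)]⟩),⟨0,[(20,0)]⟩,.k,.k,.k,.k,.k,.k,⟨false,1,⟨2,[(3,0),(23,1),(2,
  1)]⟩,⟨3,[(16,0),(0,0),(6,1),(1,3)]⟩⟩,⟨true,0,⟨0,[(5,0)]⟩,⟨0,[(17,0)]⟩⟩,⟨false,1,⟨5,[(0,3),(0,5),
  (1,1),(9,1),(7,0),(5,1),(0,0)]⟩,⟨2,[(15,0),(0,0),(1,1),(5,1),(1,2)]⟩⟩,⟨true,0,⟨0,[(1,0)]⟩,⟨0,[(15,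
  0)]⟩⟩,⟨false,0,⟨0,[]⟩,⟨0,[]⟩⟩,⟨false,0,⟨0,[]⟩,⟨0,[]⟩⟩,[.o ⟨false,0,⟨0,[(26,0)]⟩,⟨11,[(3,3),(4,0),
  (0,0),(3,3),(2,3),(4,3),(6,1)]⟩⟩,.e ⟨true,0,⟨0,[]⟩,⟨1,[(16,0),(0,0)]⟩⟩ ⟨true,0,⟨1,[(5,0),(10,0),
  (7,0),(1,1)]⟩,⟨0,[(6,0)]⟩⟩,.o ⟨false,1,⟨1,[(0,1),(20,0),(5,0)]⟩,⟨0,[(5,1),(7,0)]⟩⟩,.a ⟨true,0,⟨0,
  [(0,0)]⟩,⟨0,[(5,0)]⟩⟩ ⟨false,1,⟨3,[(8,0),(0,0),(17,1)]⟩,⟨3,[(16,0),(0,0),(6,1)]⟩⟩ ⟨true,0,⟨0,[(5,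
  0),(20,0)]⟩,⟨0,[(6,0)]⟩⟩]⟩) (.Q [0,0,0,1,0,0,-1,-1,0,0,1] (.p true [0,0,1] [] (⟨0,[(20,0)]⟩,⟨0,
  [(19,0)]⟩) .k 0 (⟨0,[]⟩,⟨0,[]⟩) .k .k) (.R ⟨2,true,false,true,[0,1],[0,0,1],[1,0,1],(⟨0,[]⟩,⟨0,
  []⟩),(⟨0,[(21,0)]⟩,⟨0,[(20,0)]⟩),⟨0,[]⟩,.k,.k,.k,.k,.k,.k,⟨true,0,⟨2,[(16,0),(0,0),(1,1),(5,1)]⟩,
  ⟨0,[(2,0),(4,0),(19,0)]⟩⟩,⟨false,0,⟨0,[(6,0)]⟩,⟨0,[(18,0),(9,0)]⟩⟩,⟨false,1,⟨2,[(4,0),(12,0),(0,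
  0),(10,1)]⟩,⟨0,[(27,0)]⟩⟩,⟨true,0,⟨0,[(2,0),(23,0)]⟩,⟨0,[(0,0)]⟩⟩,⟨true,0,⟨0,[]⟩,⟨0,[(31,0)]⟩⟩,
  ⟨false,0,⟨0,[(2,0)]⟩,⟨0,[(16,0),(12,0)]⟩⟩,[]⟩) (.Q [0,0,0,1,0,0,-1,-1,0,1,1] (.p true [1,-1,1] []
  (⟨0,[(21,0),(1,0)]⟩,⟨0,[(5,0)]⟩) .k 0 (⟨0,[]⟩,⟨0,[]⟩) .k .k) (.R ⟨2,false,false,false,[0,1],[0,1,
  -1],[1,1,1],(⟨0,[]⟩,⟨0,[]⟩),(⟨0,[(6,0)]⟩,⟨0,[(22,0),(1,0)]⟩),⟨0,[]⟩,.k,.k,.k,.k,.k,.k,⟨true,0,⟨0,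
  [(3,0),(4,0)]⟩,⟨5,[(0,5),(1,4),(12,0),(2,1),(7,2)]⟩⟩,⟨false,1,⟨0,[(19,0),(9,0)]⟩,⟨0,[(7,0)]⟩⟩,
  ⟨true,0,⟨0,[(27,0)]⟩,⟨0,[(28,0)]⟩⟩,⟨false,1,⟨0,[(17,0),(12,0)]⟩,⟨0,[(3,0)]⟩⟩,⟨false,0,⟨0,[]⟩,⟨3,
  [(10,0),(0,0),(18,1)]⟩⟩,⟨false,1,⟨1,[(0,1),(22,0),(6,0)]⟩,⟨0,[(1,0)]⟩⟩,[.a ⟨true,0,⟨0,[(0,0)]⟩,⟨0,
  [(1,0)]⟩⟩ ⟨false,0,⟨0,[(32,0)]⟩,⟨1,[(29,0),(0,0)]⟩⟩ ⟨true,0,⟨2,[(0,2),(1,0),(12,1),(2,0)]⟩,⟨0,[(1,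
  0)]⟩⟩,.o ⟨false,1,⟨1,[(0,1),(22,0),(6,0)]⟩,⟨0,[(2,0),(0,0),(4,0)]⟩⟩,.o ⟨false,1,⟨3,[(10,0),(0,0),
  (17,1)]⟩,⟨2,[(2,0),(12,1),(2,0)]⟩⟩,.e ⟨false,0,⟨0,[]⟩,⟨3,[(10,0),(0,0),(18,1)]⟩⟩ ⟨false,1,⟨1,[(0,
  1),(22,0),(6,0)]⟩,⟨0,[(1,0)]⟩⟩]⟩) (.Q [0,0,0,0,0,1,0,0,0,-1,0,1] (.p true [0,0,0,1] [1] (⟨0,[(13,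
  0)]⟩,⟨0,[(12,0)]⟩) .k 1 (⟨0,[]⟩,⟨0,[]⟩) .k .k) (.R ⟨0,false,false,true,[1,0,0,-1],[1,0,-1],[0,1,0,
  0,0,0,0,0,-1],(⟨0,[(13,0)]⟩,⟨0,[(14,0)]⟩),(⟨0,[(22,0)]⟩,⟨0,[(23,0)]⟩),⟨0,[(0,0)]⟩,.k,.k,(.x (-1)
  ⟨3,[(11,0),(0,0),(11,1),(0,3)]⟩ ⟨0,[(26,0)]⟩),.k,.k,.k,⟨false,0,⟨0,[(1,0),(3,0),(3,0),(3,0),(15,
  1)]⟩,⟨3,[(11,0),(0,2),(8,3)]⟩⟩,⟨true,0,⟨0,[(13,0),(2,0)]⟩,⟨2,[(3,0),(6,0),(3,2)]⟩⟩,⟨true,0,⟨0,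
  [(33,0)]⟩,⟨0,[]⟩⟩,⟨false,1,⟨5,[(12,2),(0,5),(2,3),(1,3),(0,1),(1,1),(2,0),(6,1)]⟩,⟨0,[(4,0),(0,
  0)]⟩⟩,⟨false,0,⟨0,[]⟩,⟨0,[]⟩⟩,⟨false,0,⟨0,[]⟩,⟨0,[]⟩⟩,[.o ⟨false,0,⟨0,[(15,0)]⟩,⟨3,[(4,3),(6,0),
  (0,0),(18,1)]⟩⟩,.o ⟨false,1,⟨1,[(18,1),(5,0),(6,0)]⟩,⟨0,[(4,0)]⟩⟩,.o ⟨false,1,⟨1,[(14,1),(9,0),(5,
  0)]⟩,⟨2,[(3,0),(9,2),(2,1),(2,0)]⟩⟩,.a ⟨true,0,⟨0,[(14,0)]⟩,⟨0,[(13,0)]⟩⟩ ⟨false,0,⟨2,[(1,0),(3,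
  2),(7,2),(1,1),(1,0),(11,0)]⟩,⟨1,[(12,0),(6,0),(0,0),(10,0)]⟩⟩ ⟨true,0,⟨0,[(13,0),(1,0)]⟩,⟨0,[(4,
  0),(9,0)]⟩⟩]⟩) (.R ⟨1,false,false,true,[1,0,0,-1],[1,0,-1],[0,1,0,0,0,0,0,0,-1],(⟨0,[(13,0)]⟩,⟨0,
  [(14,0)]⟩),(⟨0,[(22,0)]⟩,⟨0,[(23,0)]⟩),⟨0,[(0,0)]⟩,.k,.k,(.x (-1) ⟨3,[(11,0),(0,0),(11,1),(0,3)]⟩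
  ⟨0,[(26,0)]⟩),.k,(.r 0 ⟨0,[(1,0),(3,0),(3,0),(3,0),(15,0)]⟩ ⟨1,[(12,0),(5,1),(0,1),(9,1),(1,0)]⟩),
  .k,⟨false,0,⟨0,[(1,0),(3,0),(3,0),(3,0),(15,1)]⟩,⟨3,[(11,0),(0,2),(8,3)]⟩⟩,⟨true,0,⟨0,[(13,0),(2,
  0)]⟩,⟨2,[(3,0),(6,0),(3,2)]⟩⟩,⟨true,0,⟨0,[(33,0)]⟩,⟨0,[]⟩⟩,⟨false,1,⟨5,[(12,2),(0,5),(2,3),(1,3),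
  (0,1),(1,1),(2,0),(6,1)]⟩,⟨0,[(4,0),(0,0)]⟩⟩,⟨false,0,⟨0,[(29,0)]⟩,⟨2,[(6,0),(12,0),(0,0),(10,
  1)]⟩⟩,⟨false,1,⟨5,[(12,2),(0,5),(2,3),(1,3),(0,1),(1,1),(2,0),(4,5),(1,1)]⟩,⟨0,[(2,0),(2,0)]⟩⟩,
  [.o ⟨false,0,⟨0,[(15,0)]⟩,⟨3,[(4,3),(6,0),(0,0),(18,1)]⟩⟩,.o ⟨false,1,⟨1,[(18,1),(5,0),(6,0)]⟩,⟨0,
  [(4,0)]⟩⟩,.o ⟨false,1,⟨1,[(14,1),(9,0),(5,0)]⟩,⟨2,[(3,0),(9,2),(2,1),(2,0)]⟩⟩,.a ⟨true,0,⟨0,[(14,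
  0)]⟩,⟨0,[(13,0)]⟩⟩ ⟨false,0,⟨2,[(1,0),(3,2),(7,2),(1,1),(1,0),(11,0)]⟩,⟨1,[(12,0),(6,0),(0,0),(10,
  0)]⟩⟩ ⟨true,0,⟨0,[(13,0),(1,0)]⟩,⟨0,[(4,0),(9,0)]⟩⟩]⟩))))))))

theorem ok0 : chk (cU (-1) true 10) t0 l1 = true := by decide +kernel

noncomputable def t1 : Tre :=
  (.Q [0,0,0,1,0,0,-1,-1,0,0,1] (.p true [0,0,1] [] (⟨0,[(17,0)]⟩,⟨0,[(16,0)]⟩) .k 0 (⟨0,[]⟩,⟨0,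
  []⟩) .k .k) (.Q [0,-1,0,1,0,0,0,0,0,1] (.pp false [-1,1]) (.R ⟨1,false,false,true,[0,0,1],[1,-1],
  [0,1],(⟨0,[(19,0)]⟩,⟨0,[(18,0)]⟩),(⟨0,[(21,0)]⟩,⟨0,[(22,0)]⟩),⟨0,[(3,0)]⟩,.k,.k,.k,.k,.k,.k,
  ⟨false,0,⟨0,[(25,0)]⟩,⟨1,[(24,1),(1,0),(0,0)]⟩⟩,⟨true,0,⟨0,[(12,0)]⟩,⟨2,[(0,0),(4,0),(0,1)]⟩⟩,
  ⟨false,0,⟨0,[(17,0)]⟩,⟨1,[(2,1),(2,1),(14,0),(6,0)]⟩⟩,⟨false,1,⟨1,[(5,1),(11,1),(2,0),(6,0)]⟩,⟨0,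
  [(2,0)]⟩⟩,⟨false,0,⟨0,[(17,0),(7,0)]⟩,⟨1,[(5,1),(7,1),(9,1),(2,0),(0,0)]⟩⟩,⟨true,0,⟨0,[(11,0)]⟩,
  ⟨0,[(2,0),(21,0)]⟩⟩,[.a ⟨true,0,⟨0,[(24,0)]⟩,⟨0,[(0,0)]⟩⟩ ⟨true,0,⟨0,[(29,0)]⟩,⟨3,[(15,0),(0,0),
  (6,1)]⟩⟩ ⟨false,1,⟨1,[(5,1),(14,0),(5,0)]⟩,⟨0,[(0,0),(3,0)]⟩⟩,.o ⟨false,1,⟨1,[(20,0),(3,1),(2,
  0)]⟩,⟨0,[(25,0)]⟩⟩,.o ⟨false,0,⟨0,[(4,0)]⟩,⟨3,[(7,0),(0,0),(3,3),(13,1)]⟩⟩,.o ⟨false,0,⟨0,[(15,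
  0)]⟩,⟨0,[(12,0),(13,0)]⟩⟩]⟩) (.R ⟨2,true,false,true,[0,1],[0,0,1],[1,0,1],(⟨0,[]⟩,⟨0,[]⟩),(⟨0,
  [(19,0)]⟩,⟨0,[(18,0)]⟩),⟨0,[]⟩,.k,.k,.k,.k,.k,.k,⟨true,0,⟨2,[(14,0),(0,0),(1,1),(5,1)]⟩,⟨0,[(0,0),
  (1,0),(2,0),(19,0)]⟩⟩,⟨false,0,⟨0,[(4,0)]⟩,⟨0,[(16,0),(9,0)]⟩⟩,⟨false,1,⟨0,[(24,0),(2,0)]⟩,⟨0,
  [(25,0)]⟩⟩,⟨true,0,⟨0,[(0,0),(1,0),(21,0)]⟩,⟨0,[(1,0)]⟩⟩,⟨true,0,⟨0,[]⟩,⟨0,[(29,0)]⟩⟩,⟨false,0,⟨0,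
  [(0,0),(1,0)]⟩,⟨0,[(14,0),(12,0)]⟩⟩,[]⟩)) (.Q [0,0,0,0,0,1,0,0,0,-1,1] (.ed false [0,1,1] .k) (.I
  [0,0,0,1,0,0,0,1] (.R ⟨2,true,false,true,[0,1],[1,0,-1],[0,1,1,1],(⟨0,[]⟩,⟨0,[]⟩),(⟨0,[(19,0)]⟩,
  ⟨0,[(20,0)]⟩),⟨0,[]⟩,.k,.k,.k,.k,.k,.k,⟨false,0,⟨0,[(0,0)]⟩,⟨1,[(18,1),(6,1),(1,0),(0,0)]⟩⟩,⟨true,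
  0,⟨0,[(13,0)]⟩,⟨1,[(7,0),(2,0),(0,0)]⟩⟩,⟨true,0,⟨0,[(30,0)]⟩,⟨0,[]⟩⟩,⟨false,1,⟨1,[(6,1),(11,1),(2,
  0),(6,0)]⟩,⟨0,[(3,0)]⟩⟩,⟨false,0,⟨0,[(26,0)]⟩,⟨0,[(25,0),(2,0)]⟩⟩,⟨true,0,⟨0,[(12,0)]⟩,⟨0,[(3,0),
  (21,0)]⟩⟩,[]⟩) (.Q [0,0,-1,0,0,0,1,0,0,2,-1] (.p false [-1,1,1] [1] (⟨0,[(1,0)]⟩,⟨0,[(19,0),(2,
  0)]⟩) .k 1 (⟨0,[]⟩,⟨0,[]⟩) .k .k) (.R ⟨0,false,false,false,[-1,1,1],[0,1],[0,1,1,1,0,0,0,1],(⟨0,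
  [(2,0)]⟩,⟨0,[(20,0),(2,0)]⟩),(⟨0,[(24,0)]⟩,⟨0,[(23,0)]⟩),⟨0,[(20,0)]⟩,.k,.k,.k,.k,.k,.k,⟨true,0,
  ⟨0,[(3,0),(3,0),(19,1)]⟩,⟨2,[(16,0),(0,0),(1,1),(5,1)]⟩⟩,⟨false,1,⟨0,[(14,0),(13,0)]⟩,⟨1,[(0,0),
  (16,0)]⟩⟩,⟨true,0,⟨0,[(31,0)]⟩,⟨0,[]⟩⟩,⟨false,1,⟨0,[(13,0),(15,0)]⟩,⟨2,[(0,0),(2,0),(0,0),(10,0),
  (2,0)]⟩⟩,⟨false,0,⟨0,[]⟩,⟨0,[]⟩⟩,⟨false,0,⟨0,[]⟩,⟨0,[]⟩⟩,[.o ⟨false,0,⟨0,[(27,0)]⟩,⟨1,[(22,0),(3,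
  1),(2,0)]⟩⟩,.o ⟨false,1,⟨3,[(9,0),(0,0),(16,3),(1,1)]⟩,⟨0,[(3,0),(9,0)]⟩⟩,.a ⟨true,0,⟨0,[(0,0)]⟩,
  ⟨0,[(14,0)]⟩⟩ ⟨false,0,⟨1,[(4,0),(9,0),(0,0),(2,0),(8,0)]⟩,⟨1,[(1,1),(26,0),(0,0)]⟩⟩ ⟨true,0,⟨0,
  [(14,0),(12,0)]⟩,⟨0,[(0,0),(2,0),(9,0)]⟩⟩,.o ⟨false,0,⟨1,[(0,0),(16,0)]⟩,⟨1,[(14,1),(7,0),(5,
  0)]⟩⟩]⟩) (.Q [0,1,-1,0,0,0,0,0,-1,0,0,1] (.p true [0,0,0,1] [] (⟨0,[(12,0)]⟩,⟨0,[(11,0)]⟩) .k 0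
  (⟨0,[]⟩,⟨0,[]⟩) .k .k) (.Q [0,1,1,0,0,0,0,0,1,0,0,-1] (.p false [0,0,0,1] [] (⟨0,[(13,0)]⟩,⟨0,
  [(12,0)]⟩) .k 0 (⟨0,[]⟩,⟨0,[]⟩) .k .k) (.K ⟨0,[0,0,0,1],0,0,(⟨0,[(14,0)]⟩,⟨0,[(13,0)]⟩),.k,(.x 0
  ⟨0,[(16,0),(2,0),(5,0)]⟩ ⟨0,[(26,0),(3,0)]⟩),(.x 0 ⟨0,[(26,0)]⟩ ⟨3,[(11,0),(0,0),(11,1),(0,3)]⟩),
  .k,.k,[⟨0,[(14,0)]⟩,⟨0,[(13,0)]⟩,⟨0,[(1,0)]⟩,⟨0,[(0,0)]⟩]⟩) (.Q [0,1,1,0,0,0,0,0,1,1,0,-1] (.p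
  false [0,0,0,1] [1] (⟨0,[(14,0)]⟩,⟨0,[(13,0)]⟩) .k 1 (⟨0,[]⟩,⟨0,[]⟩) .k .k) (.R ⟨0,false,false,
  true,[1,0,-1],[0,0,0,1],[1,1,0,0,0,0,0,0,1],(⟨0,[(23,0)]⟩,⟨0,[(24,0)]⟩),(⟨0,[(15,0)]⟩,⟨0,[(14,
  0)]⟩),⟨0,[(5,0)]⟩,.k,.k,.k,.k,.k,.k,⟨true,0,⟨0,[]⟩,⟨1,[(20,0),(0,0)]⟩⟩,⟨false,0,⟨0,[(9,0),(4,0)]⟩,
  ⟨0,[(15,0),(1,0),(13,0)]⟩⟩,⟨false,1,⟨1,[(7,1),(2,1),(2,0),(11,0)]⟩,⟨1,[(1,1),(1,0),(10,1),(5,0),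
  (1,1)]⟩⟩,⟨true,0,⟨0,[(0,0),(5,0),(23,0)]⟩,⟨0,[(1,0),(14,0)]⟩⟩,⟨false,0,⟨0,[]⟩,⟨0,[]⟩⟩,⟨false,0,⟨0,
  []⟩,⟨0,[]⟩⟩,[.a ⟨true,0,⟨0,[(0,0)]⟩,⟨0,[(1,0)]⟩⟩ ⟨false,1,⟨1,[(13,0),(17,0),(2,1)]⟩,⟨1,[(1,1),(1,
  0),(10,1),(5,0)]⟩⟩ ⟨true,0,⟨0,[(0,0),(8,0)]⟩,⟨0,[(1,0),(15,0)]⟩⟩,.o ⟨false,1,⟨1,[(0,1),(24,0),(6,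
  0)]⟩,⟨0,[(1,0),(4,0),(9,0),(13,0)]⟩⟩,.o ⟨false,1,⟨3,[(12,0),(0,0),(3,3),(13,1)]⟩,⟨0,[(9,0)]⟩⟩,.o
  ⟨false,0,⟨0,[(17,0)]⟩,⟨7,[(11,3),(0,0),(0,0),(11,1),(5,3)]⟩⟩]⟩) (.Q [0,0,0,0,0,-1,0,0,0,1,0,-1]
  (.p false [0,0,0,1] [1] (⟨0,[(15,0)]⟩,⟨0,[(14,0)]⟩) .k 1 (⟨0,[]⟩,⟨0,[]⟩) .k .k) (.R ⟨1,false,
  false,true,[1,0,0,-1],[1,0,-1],[0,1,0,0,0,0,0,0,-1],(⟨0,[(15,0)]⟩,⟨0,[(16,0)]⟩),(⟨0,[(24,0)]⟩,⟨0,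
  [(25,0)]⟩),⟨0,[(0,0)]⟩,.k,.k,(.x (-1) ⟨3,[(13,0),(0,0),(11,1),(0,3)]⟩ ⟨0,[(28,0)]⟩),.k,(.r 0 ⟨0,
  [(1,0),(5,0),(3,0),(3,0),(15,0)]⟩ ⟨1,[(14,0),(5,1),(0,1),(9,1),(1,0)]⟩),.k,⟨false,0,⟨0,[(1,0),(5,
  0),(3,0),(3,0),(15,1)]⟩,⟨3,[(13,0),(0,2),(8,3)]⟩⟩,⟨true,0,⟨0,[(15,0),(2,0)]⟩,⟨0,[(10,0),(5,0)]⟩⟩,
  ⟨true,0,⟨0,[(35,0)]⟩,⟨0,[]⟩⟩,⟨false,1,⟨5,[(14,2),(0,5),(2,3),(1,3),(0,1),(1,1),(2,0),(6,1)]⟩,⟨3,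
  [(1,1),(0,0),(0,0),(3,1),(0,1)]⟩⟩,⟨false,0,⟨0,[(31,0)]⟩,⟨0,[(30,0),(2,0)]⟩⟩,⟨false,1,⟨5,[(14,2),
  (0,5),(2,3),(1,3),(0,1),(1,1),(2,0),(4,5),(1,1)]⟩,⟨0,[(2,0),(4,0)]⟩⟩,[.o ⟨false,0,⟨0,[(17,0)]⟩,⟨0,
  [(19,0),(13,0)]⟩⟩,.o ⟨false,1,⟨1,[(20,1),(5,0),(6,0)]⟩,⟨0,[(7,0),(23,0)]⟩⟩,.o ⟨false,1,⟨5,[(1,1),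
  (1,3),(10,2),(11,1),(6,0)]⟩,⟨1,[(4,0),(10,1),(5,0)]⟩⟩,.a ⟨true,0,⟨0,[(16,0)]⟩,⟨0,[(15,0)]⟩⟩
  ⟨false,0,⟨3,[(1,2),(1,0),(11,3),(1,0),(1,0)]⟩,⟨1,[(14,0),(6,0),(0,0),(10,0)]⟩⟩ ⟨true,0,⟨0,[(15,0),
  (1,0)]⟩,⟨0,[(7,0),(8,0),(14,0)]⟩⟩]⟩) (.R ⟨0,false,false,true,[1,0,0,-1],[1,0,-1],[0,1,0,0,0,0,0,0,
  -1],(⟨0,[(15,0)]⟩,⟨0,[(16,0)]⟩),(⟨0,[(24,0)]⟩,⟨0,[(25,0)]⟩),⟨0,[(0,0)]⟩,.k,.k,(.x (-1) ⟨3,[(13,0),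
  (0,0),(11,1),(0,3)]⟩ ⟨0,[(28,0)]⟩),.k,.k,.k,⟨false,0,⟨0,[(1,0),(5,0),(3,0),(3,0),(15,1)]⟩,⟨3,[(13,
  0),(0,2),(8,3)]⟩⟩,⟨true,0,⟨0,[(15,0),(2,0)]⟩,⟨0,[(10,0),(5,0)]⟩⟩,⟨true,0,⟨0,[(35,0)]⟩,⟨0,[]⟩⟩,
  ⟨false,1,⟨5,[(14,2),(0,5),(2,3),(1,3),(0,1),(1,1),(2,0),(6,1)]⟩,⟨3,[(1,1),(0,0),(0,0),(3,1),(0,
  1)]⟩⟩,⟨false,0,⟨0,[]⟩,⟨0,[]⟩⟩,⟨false,0,⟨0,[]⟩,⟨0,[]⟩⟩,[.o ⟨false,0,⟨0,[(17,0)]⟩,⟨0,[(19,0),(13,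
  0)]⟩⟩,.o ⟨false,1,⟨1,[(20,1),(5,0),(6,0)]⟩,⟨0,[(7,0),(23,0)]⟩⟩,.o ⟨false,1,⟨5,[(1,1),(1,3),(10,2),
  (11,1),(6,0)]⟩,⟨1,[(4,0),(10,1),(5,0)]⟩⟩,.a ⟨true,0,⟨0,[(16,0)]⟩,⟨0,[(15,0)]⟩⟩ ⟨false,0,⟨3,[(1,2),
  (1,0),(11,3),(1,0),(1,0)]⟩,⟨1,[(14,0),(6,0),(0,0),(10,0)]⟩⟩ ⟨true,0,⟨0,[(15,0),(1,0)]⟩,⟨0,[(7,0),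
  (8,0),(14,0)]⟩⟩]⟩)))) (.Q [0,0,0,0,0,1,0,0,0,-1,0,1] (.p true [0,0,0,1] [1] (⟨0,[(13,0)]⟩,⟨0,[(12,
  0)]⟩) .k 1 (⟨0,[]⟩,⟨0,[]⟩) .k .k) (.I [0,1,-2,-1,1,0,0,0,-1] (.R ⟨0,false,false,false,[1,0,0,-1],
  [0,1],[0,1,0,0,0,0,0,0,-1],(⟨0,[(14,0)]⟩,⟨0,[(15,0)]⟩),(⟨0,[(27,0)]⟩,⟨0,[(26,0)]⟩),⟨0,[(1,0)]⟩,.k,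
  .k,(.x (-1) ⟨3,[(12,0),(0,0),(11,1),(0,3)]⟩ ⟨0,[(27,0)]⟩),(.x (-1) ⟨3,[(12,0),(0,0),(11,1),(0,
  3)]⟩ ⟨0,[(27,0)]⟩),.k,.k,⟨false,1,⟨0,[(0,0)]⟩,⟨0,[(2,0),(12,0),(14,0)]⟩⟩,⟨true,0,⟨0,[(14,0)]⟩,⟨1,
  [(3,0),(11,1),(4,0)]⟩⟩,⟨true,0,⟨0,[(34,0)]⟩,⟨0,[]⟩⟩,⟨false,0,⟨0,[(2,0),(4,0),(11,0)]⟩,⟨1,[(0,1),
  (2,0),(5,0),(5,1),(12,0)]⟩⟩,⟨false,0,⟨0,[]⟩,⟨0,[]⟩⟩,⟨false,0,⟨0,[]⟩,⟨0,[]⟩⟩,[.o ⟨false,0,⟨0,[(30,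
  0)]⟩,⟨1,[(25,0),(3,1),(2,0)]⟩⟩,.o ⟨false,1,⟨3,[(12,0),(0,0),(16,3),(1,1)]⟩,⟨0,[(6,0),(9,0)]⟩⟩,.o
  ⟨false,1,⟨1,[(15,1),(9,0),(5,0)]⟩,⟨1,[(3,0),(10,1),(5,0)]⟩⟩,.a ⟨true,0,⟨0,[(15,0)]⟩,⟨0,[(14,0)]⟩⟩
  ⟨false,1,⟨1,[(12,0),(18,0)]⟩,⟨0,[(2,0),(12,0)]⟩⟩ ⟨true,0,⟨0,[(14,0),(15,0)]⟩,⟨0,[(6,0),(8,0),(0,
  0)]⟩⟩]⟩) (.I [0,1,1,0,-1,0,0,0,1] (.R ⟨0,false,false,false,[1,0,0,-1],[1,0,-1],[0,1,1],(⟨0,[(15,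
  0)]⟩,⟨0,[(16,0)]⟩),(⟨0,[(24,0)]⟩,⟨0,[(25,0)]⟩),⟨0,[(2,0)]⟩,.k,.k,(.x (-1) ⟨3,[(13,0),(0,0),(11,1),
  (0,3)]⟩ ⟨0,[(28,0)]⟩),.k,.k,.k,⟨false,0,⟨0,[(7,0),(3,0),(19,1)]⟩,⟨1,[(23,1),(8,0),(0,0)]⟩⟩,⟨true,
  0,⟨0,[(15,0),(2,0)]⟩,⟨0,[(10,0),(5,0)]⟩⟩,⟨true,(-1),⟨0,[(0,0)]⟩,⟨1,[(13,0),(18,0)]⟩⟩,⟨false,0,⟨3,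
  [(1,1),(1,1),(1,0),(5,0),(3,1),(1,1),(2,0),(8,1),(2,1)]⟩,⟨1,[(7,1),(5,0),(2,1),(14,1),(0,0)]⟩⟩,
  ⟨false,0,⟨0,[]⟩,⟨0,[]⟩⟩,⟨false,0,⟨0,[]⟩,⟨0,[]⟩⟩,[.o ⟨false,1,⟨1,[(20,1),(5,0),(6,0)]⟩,⟨0,[(7,0),
  (23,0)]⟩⟩,.o ⟨false,1,⟨0,[(17,0),(15,0)]⟩,⟨0,[(19,0)]⟩⟩,.o ⟨false,1,⟨1,[(16,1),(9,0),(5,0)]⟩,⟨1,
  [(4,0),(10,1),(5,0)]⟩⟩,.a ⟨true,0,⟨0,[(16,0)]⟩,⟨0,[(15,0)]⟩⟩ ⟨true,0,⟨0,[(35,0)]⟩,⟨0,[]⟩⟩ ⟨false,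
  1,⟨0,[(15,0),(1,0),(15,0)]⟩,⟨0,[(7,0),(8,0),(14,0)]⟩⟩]⟩) (.R ⟨0,false,false,true,[1,0,0,-1],[1,0,
  -1],[0,1,0,0,0,0,0,0,-1],(⟨0,[(15,0)]⟩,⟨0,[(16,0)]⟩),(⟨0,[(24,0)]⟩,⟨0,[(25,0)]⟩),⟨0,[(2,0)]⟩,.k,
  .k,(.x (-1) ⟨3,[(13,0),(0,0),(11,1),(0,3)]⟩ ⟨0,[(28,0)]⟩),.k,.k,.k,⟨false,1,⟨0,[(0,0),(6,0),(3,0),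
  (19,1)]⟩,⟨3,[(1,3),(3,1),(6,0),(4,0),(2,0),(9,1),(1,3)]⟩⟩,⟨true,0,⟨0,[(15,0),(2,0)]⟩,⟨0,[(10,0),
  (5,0)]⟩⟩,⟨true,0,⟨0,[(35,0)]⟩,⟨0,[]⟩⟩,⟨false,0,⟨0,[(3,0),(16,0)]⟩,⟨0,[(0,0),(6,0),(8,0),(14,0)]⟩⟩,
  ⟨false,0,⟨0,[]⟩,⟨0,[]⟩⟩,⟨false,0,⟨0,[]⟩,⟨0,[]⟩⟩,[.o ⟨false,0,⟨0,[(17,0)]⟩,⟨0,[(19,0),(13,0)]⟩⟩,.o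
  ⟨false,1,⟨1,[(20,1),(5,0),(6,0)]⟩,⟨0,[(7,0),(23,0)]⟩⟩,.o ⟨false,1,⟨1,[(16,1),(9,0),(5,0)]⟩,⟨1,[(4,
  0),(10,1),(5,0)]⟩⟩,.a ⟨true,0,⟨0,[(16,0)]⟩,⟨0,[(15,0)]⟩⟩ ⟨false,1,⟨1,[(13,0),(18,0)]⟩,⟨15,[(1,5),
  (3,1),(1,1),(3,1),(2,4),(14,5),(2,0)]⟩⟩ ⟨true,0,⟨0,[(15,0),(1,0)]⟩,⟨0,[(7,0),(8,0),(14,0)]⟩⟩]⟩)))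
  (.I [0,1,-2,-1,1,0,0,0,-1] (.R ⟨1,false,false,false,[1,0,0,-1],[0,1],[0,1,0,0,0,0,0,0,-1],(⟨0,
  [(14,0)]⟩,⟨0,[(15,0)]⟩),(⟨0,[(27,0)]⟩,⟨0,[(26,0)]⟩),⟨0,[(1,0)]⟩,.k,.k,(.x (-1) ⟨3,[(12,0),(0,0),
  (11,1),(0,3)]⟩ ⟨0,[(27,0)]⟩),(.x (-1) ⟨3,[(12,0),(0,0),(11,1),(0,3)]⟩ ⟨0,[(27,0)]⟩),(.x 0 ⟨0,[(3,
  0),(5,0),(16,1)]⟩ ⟨3,[(12,0),(0,0),(13,7),(3,1)]⟩),.k,⟨false,1,⟨0,[(0,0)]⟩,⟨0,[(2,0),(12,0),(14,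
  0)]⟩⟩,⟨true,0,⟨0,[(14,0)]⟩,⟨1,[(3,0),(11,1),(4,0)]⟩⟩,⟨true,0,⟨0,[(34,0)]⟩,⟨0,[]⟩⟩,⟨false,0,⟨0,[(2,
  0),(4,0),(11,0)]⟩,⟨1,[(0,1),(2,0),(5,0),(5,1),(12,0)]⟩⟩,⟨false,0,⟨0,[(30,0)]⟩,⟨0,[(29,0),(2,0)]⟩⟩,
  ⟨false,0,⟨0,[(2,0),(4,0),(11,0),(10,0)]⟩,⟨1,[(0,1),(2,0),(0,0),(1,0),(8,1),(12,0)]⟩⟩,[.o ⟨false,0,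
  ⟨0,[(30,0)]⟩,⟨1,[(25,0),(3,1),(2,0)]⟩⟩,.o ⟨false,1,⟨3,[(12,0),(0,0),(16,3),(1,1)]⟩,⟨0,[(6,0),(9,
  0)]⟩⟩,.o ⟨false,1,⟨1,[(15,1),(9,0),(5,0)]⟩,⟨1,[(3,0),(10,1),(5,0)]⟩⟩,.a ⟨true,0,⟨0,[(15,0)]⟩,⟨0,
  [(14,0)]⟩⟩ ⟨false,1,⟨1,[(12,0),(18,0)]⟩,⟨0,[(2,0),(12,0)]⟩⟩ ⟨true,0,⟨0,[(14,0),(15,0)]⟩,⟨0,[(6,0),
  (8,0),(0,0)]⟩⟩]⟩) (.Q [0,1,1,0,-1,0,0,0,1,0,0,-1] (.p false [0,0,0,1] [] (⟨0,[(15,0)]⟩,⟨0,[(14,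
  0)]⟩) .k 0 (⟨0,[]⟩,⟨0,[]⟩) .k .k) (.K ⟨0,[0,0,0,1],0,(-1),(⟨0,[(16,0)]⟩,⟨0,[(15,0)]⟩),.k,(.x 0 ⟨0,
  [(18,0),(2,0),(5,0)]⟩ ⟨0,[(28,0),(3,0)]⟩),(.x 0 ⟨0,[(28,0)]⟩ ⟨3,[(13,0),(0,0),(11,1),(0,3)]⟩),.k,
  .k,[⟨0,[(16,0)]⟩,⟨0,[(15,0)]⟩,⟨1,[(13,0),(2,1),(15,0),(2,1)]⟩,⟨0,[(0,0)]⟩]⟩) (.I [0,0,-1,-1,1,0,0,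
  1,-1] (.R ⟨1,false,false,true,[1,0,0,-1],[1,0,-1],[0,1,0,0,0,0,0,0,-1],(⟨0,[(16,0)]⟩,⟨0,[(17,
  0)]⟩),(⟨0,[(25,0)]⟩,⟨0,[(26,0)]⟩),⟨0,[(3,0)]⟩,.k,.k,(.x (-1) ⟨3,[(14,0),(0,0),(11,1),(0,3)]⟩ ⟨0,
  [(29,0)]⟩),.k,(.r (-1) ⟨0,[(0,0)]⟩ ⟨2,[(2,0),(12,0),(5,0),(0,0),(1,1),(7,1)]⟩),.k,⟨false,1,⟨0,[(0,
  0),(31,0)]⟩,⟨3,[(2,3),(3,1),(6,0),(4,0),(2,0),(9,1),(1,3)]⟩⟩,⟨true,0,⟨0,[(16,0),(2,0)]⟩,⟨0,[(11,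
  0),(5,0)]⟩⟩,⟨true,0,⟨0,[(36,0)]⟩,⟨0,[]⟩⟩,⟨false,0,⟨0,[(4,0),(16,0)]⟩,⟨0,[(1,0),(6,0),(23,0)]⟩⟩,
  ⟨false,0,⟨0,[(32,0)]⟩,⟨0,[(31,0),(2,0)]⟩⟩,⟨false,0,⟨0,[(4,0),(16,0),(10,0)]⟩,⟨0,[(1,0),(6,0)]⟩⟩,
  [.o ⟨false,0,⟨0,[(18,0)]⟩,⟨0,[(20,0),(13,0)]⟩⟩,.o ⟨false,1,⟨1,[(21,1),(5,0),(6,0)]⟩,⟨0,[(8,0),(23,
  0)]⟩⟩,.o ⟨false,1,⟨1,[(17,1),(9,0),(5,0)]⟩,⟨1,[(5,0),(10,1),(5,0)]⟩⟩,.a ⟨true,0,⟨0,[(17,0)]⟩,⟨0,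
  [(16,0)]⟩⟩ ⟨false,1,⟨1,[(14,0),(18,0)]⟩,⟨15,[(2,5),(3,1),(1,1),(3,1),(2,4),(14,5),(2,0)]⟩⟩ ⟨true,
  0,⟨0,[(16,0),(1,0)]⟩,⟨0,[(8,0),(8,0),(14,0)]⟩⟩]⟩) (.R ⟨0,false,false,true,[1,0,-1],[0,0,0,1],[],
  (⟨0,[(25,0)]⟩,⟨0,[(26,0)]⟩),(⟨0,[(17,0)]⟩,⟨0,[(16,0)]⟩),⟨0,[(7,0)]⟩,.k,.k,.k,.k,.k,.k,⟨true,1,⟨1,
  [(14,0),(19,0)]⟩,⟨0,[(0,0),(7,0),(3,0),(19,0)]⟩⟩,⟨false,0,⟨0,[(11,0),(4,0)]⟩,⟨0,[(17,0),(1,0),(13,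
  0)]⟩⟩,⟨false,1,⟨1,[(9,1),(2,1),(14,0),(6,0)]⟩,⟨0,[(24,0)]⟩⟩,⟨true,(-1),⟨0,[(0,0),(7,1),(3,0),(3,
  0),(15,1)]⟩,⟨0,[(1,0),(16,0)]⟩⟩,⟨false,0,⟨0,[]⟩,⟨0,[]⟩⟩,⟨false,0,⟨0,[]⟩,⟨0,[]⟩⟩,[.a ⟨true,(-1),⟨0,
  [(0,0),(7,0),(3,0),(3,0),(15,0)]⟩,⟨0,[(1,0)]⟩⟩ ⟨false,1,⟨3,[(14,0),(0,0),(17,1)]⟩,⟨0,[]⟩⟩ ⟨true,
  (-1),⟨1,[(0,1),(7,0),(7,1),(3,0),(10,0)]⟩,⟨0,[(1,0),(17,0)]⟩⟩,.o ⟨false,0,⟨0,[(4,0),(31,0)]⟩,⟨0,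
  [(1,0),(6,0),(9,0),(13,0)]⟩⟩,.o ⟨false,1,⟨3,[(14,0),(0,0),(3,3),(13,1)]⟩,⟨0,[(11,0)]⟩⟩,.o ⟨false,
  0,⟨0,[(19,0)]⟩,⟨7,[(13,3),(0,0),(0,0),(11,1),(5,3)]⟩⟩]⟩)))))))) (.K ⟨1,[0,1,1],0,0,(⟨0,[(19,0),(2,
  0)]⟩,⟨0,[(0,0)]⟩),.k,.k,(.x (-1) ⟨0,[(4,0),(14,0),(2,1),(3,0)]⟩ ⟨1,[(0,2),(2,0),(8,2),(2,0)]⟩),.k,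
  .k,[⟨1,[(15,0),(0,2)]⟩,⟨0,[(4,0)]⟩,⟨0,[(5,0),(11,0)]⟩,⟨0,[(2,0)]⟩]⟩)))

theorem ok1 : chk (cU (-1) true 10) t1 l2 = true := by decide +kernel

noncomputable def t11 : Tre :=
  (.K ⟨1,[-1,1,1],0,0,(⟨0,[(3,0)]⟩,⟨0,[(20,0),(2,0)]⟩),.k,.k,(.x (-1) ⟨1,[(3,0),(4,0),(12,0),(2,2),
  (3,1)]⟩ ⟨1,[(1,2),(4,2),(10,0),(2,1),(2,3)]⟩),.k,.k,[⟨1,[(14,1),(2,0),(0,0)]⟩,⟨3,[(0,0),(6,0),(0,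
  1),(10,0)]⟩,⟨0,[(4,0)]⟩,⟨0,[(0,0)]⟩]⟩)

theorem ok11 : chk (cU (-1) true 10) t11 r6 = true := by decide +kernel

noncomputable def t17 : Tre :=
  (.R ⟨1,false,false,false,[1,0,-1],[0,1],[1,1,1],(⟨0,[(21,0)]⟩,⟨0,[(22,0)]⟩),(⟨0,[(25,0)]⟩,⟨0,[(24,
  0)]⟩),⟨0,[(4,0)]⟩,.k,.k,.k,.k,(.r (-1) ⟨0,[(1,0),(25,0),(1,0)]⟩ ⟨1,[(0,1),(14,1),(2,0),(0,0),(12,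
  1)]⟩),.k,⟨true,0,⟨0,[(27,0)]⟩,⟨5,[(0,2),(14,2),(1,0),(0,0),(1,1),(5,1)]⟩⟩,⟨false,1,⟨1,[(9,0),(2,
  0),(0,0),(15,1)]⟩,⟨0,[(15,0)]⟩⟩,⟨false,0,⟨4,[(0,1),(1,2),(5,0),(6,1),(3,1),(6,0)]⟩,⟨1,[(20,1),(8,
  0),(0,0)]⟩⟩,⟨true,0,⟨4,[(0,3),(1,0),(5,1),(0,0),(22,0)]⟩,⟨0,[(5,0)]⟩⟩,⟨false,0,⟨1,[(0,0),(14,0),
  (0,0),(2,0)]⟩,⟨3,[(1,3),(8,0),(0,0),(17,1)]⟩⟩,⟨false,0,⟨0,[(0,0)]⟩,⟨0,[(5,0),(21,0),(2,0)]⟩⟩,[.o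
  ⟨false,0,⟨0,[(28,0)]⟩,⟨1,[(23,0),(3,1),(2,0)]⟩⟩,.a ⟨true,0,⟨0,[(0,0),(0,0),(6,0),(19,0)]⟩,⟨0,[(27,
  0)]⟩⟩ ⟨false,0,⟨0,[]⟩,⟨3,[(10,0),(0,0),(17,1)]⟩⟩ ⟨true,0,⟨3,[(0,2),(0,1),(7,0),(7,0)]⟩,⟨0,[(15,0),
  (11,0)]⟩⟩,.o ⟨false,1,⟨5,[(3,1),(11,1),(1,3),(5,1),(5,0),(0,0)]⟩,⟨0,[(7,0)]⟩⟩,.o ⟨false,0,⟨0,[(15,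
  0)]⟩,⟨7,[(9,3),(0,0),(0,0),(11,1),(5,3)]⟩⟩]⟩)

theorem ok17 : chk (cU (-1) true 10) t17 l13 = true := by decide +kernel

noncomputable def t18 : Tre :=
  (.K ⟨2,[0,1,1],0,0,(⟨0,[(24,0),(2,0)]⟩,⟨0,[(6,0)]⟩),.k,.k,(.r 0 ⟨3,[(18,3),(1,0),(0,4),(6,1),(1,
  7)]⟩ ⟨2,[(0,3),(3,0),(0,1),(4,0),(20,0)]⟩),.k,(.r (-1) ⟨5,[(5,3),(6,0),(0,0),(4,3),(1,0),(0,4),(8,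
  5)]⟩ ⟨0,[(0,0)]⟩),[⟨1,[(20,0),(0,0)]⟩,⟨0,[(1,0)]⟩,⟨1,[(20,0),(0,2)]⟩,⟨0,[(9,0)]⟩,⟨7,[(2,0),(0,1),
  (6,3),(0,0),(7,4)]⟩,⟨0,[(18,0),(11,0)]⟩]⟩)

theorem ok18 : chk (cU (-1) true 10) t18 l15 = true := by decide +kernel

noncomputable def t22 : Tre :=
  (.R ⟨1,false,false,true,[1,-1],[1,0,-1],[1,0,-1,-2],(⟨0,[(31,0)]⟩,⟨0,[(32,0)]⟩),(⟨0,[(28,0)]⟩,⟨0,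
  [(29,0)]⟩),⟨0,[(11,0),(1,0)]⟩,.k,.k,(.r (-2) ⟨0,[(34,1),(1,0),(0,0)]⟩ ⟨0,[(0,0),(4,0),(2,0)]⟩),.k,
  (.r (-2) ⟨0,[(9,0),(5,0),(20,0),(0,0)]⟩ ⟨7,[(0,7),(1,0),(13,0),(9,1),(6,2),(3,0)]⟩),.k,⟨false,2,
  ⟨4,[(8,3),(0,2),(0,2),(4,2),(20,4),(0,1)]⟩,⟨0,[(0,0)]⟩⟩,⟨true,1,⟨0,[(26,0),(9,0)]⟩,⟨0,[(0,0),(4,
  0),(2,1),(0,0)]⟩⟩,⟨false,1,⟨0,[(34,0),(2,0)]⟩,⟨0,[(35,0)]⟩⟩,⟨false,0,⟨9,[(0,5),(0,1),(2,4),(24,9),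
  (2,4),(0,2),(2,5)]⟩,⟨0,[(9,0),(27,0)]⟩⟩,⟨true,0,⟨0,[]⟩,⟨0,[(39,0)]⟩⟩,⟨false,0,⟨1,[(0,1),(3,0),(24,
  1),(2,0),(0,0),(2,1)]⟩,⟨4,[(8,2),(0,5),(0,0),(4,0),(21,3)]⟩⟩,[.o ⟨false,0,⟨0,[(21,0)]⟩,⟨3,[(10,1),
  (5,1),(13,0),(6,0)]⟩⟩,.a ⟨true,0,⟨9,[(0,1),(0,3),(2,4),(24,9),(2,4),(0,0),(2,1)]⟩,⟨7,[(3,0),(1,3),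
  (0,4),(8,3),(12,1),(2,0),(1,1)]⟩⟩ ⟨true,1,⟨9,[(8,11),(0,3),(0,3),(4,3),(20,4),(0,0)]⟩,⟨10,[(0,8),
  (1,1),(2,4),(9,0),(0,1),(7,0),(1,1)]⟩⟩ ⟨false,1,⟨9,[(0,1),(0,3),(2,4),(24,9),(2,4),(0,0),(2,11)]⟩,
  ⟨14,[(2,3),(2,2),(3,2),(0,2),(5,5),(13,0)]⟩⟩,.o ⟨false,0,⟨2,[(2,0),(27,0)]⟩,⟨3,[(17,0),(0,0),(17,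
  1)]⟩⟩,.o ⟨false,0,⟨11,[(2,7),(14,2),(0,2),(11,1)]⟩,⟨0,[(36,0)]⟩⟩]⟩)

theorem ok22 : chk (cU (-1) true 10) t22 l20 = true := by decide +kernel

noncomputable def t24 : Tre :=
  (.Q [0,0,-2,0,1,0,-1,0,0,0,1] (.p true [0,0,1] [] (⟨0,[(31,0)]⟩,⟨0,[(30,0)]⟩) .k 0 (⟨0,[]⟩,⟨0,
  []⟩) .k .k) (.I [1,0,2,1,-1,0,0,-1] (.K ⟨0,[1,1,-1],1,0,(⟨0,[(32,0),(3,0)]⟩,⟨0,[(17,0)]⟩),.k,.k,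
  (.r 1 ⟨0,[(0,0),(38,0)]⟩ ⟨8,[(1,2),(1,4),(9,2),(0,2),(6,2),(0,2),(17,0)]⟩),.k,.k,[⟨0,[(0,0),(8,0),
  (0,0),(1,0),(6,0)]⟩,⟨0,[(1,0)]⟩,⟨6,[(2,0),(4,1),(5,4),(0,0),(4,2),(12,3),(2,1)]⟩,⟨0,[(25,0),(13,
  0)]⟩]⟩) (.Q [0,0,2,0,-1,0,1,0,0,1,-1] (.p false [0,0,1] [1] (⟨0,[(33,0)]⟩,⟨0,[(32,0)]⟩) .k 1 (⟨0,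
  []⟩,⟨0,[]⟩) .k .k) (.K ⟨0,[1,1,-1],1,0,(⟨0,[(33,0),(3,0)]⟩,⟨0,[(18,0)]⟩),.k,.k,(.x (-1) ⟨1,[(1,1),
  (4,0),(2,0),(27,4),(2,2)]⟩ ⟨2,[(9,0),(8,4),(11,4)]⟩),.k,.k,[⟨0,[(0,0)]⟩,⟨0,[(2,0)]⟩,⟨10,[(0,0),(7,
  2),(1,0),(3,6),(0,0),(4,4),(0,0),(11,5),(2,2)]⟩,⟨0,[(26,0),(13,0)]⟩]⟩) (.Q [0,1,1,0,0,0,0,0,1,0,0,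
  -1] (.p false [0,0,0,1] [] (⟨0,[(25,0)]⟩,⟨0,[(24,0)]⟩) .k 0 (⟨0,[]⟩,⟨0,[]⟩) .k .k) (.Q [0,1,-1,0,
  0,0,0,0,-1,0,0,1] (.p true [0,0,0,1] [] (⟨0,[(26,0)]⟩,⟨0,[(25,0)]⟩) .k 0 (⟨0,[]⟩,⟨0,[]⟩) .k .k)
  (.K ⟨0,[0,0,0,1],0,0,(⟨0,[(27,0)]⟩,⟨0,[(26,0)]⟩),.k,(.r (-1) ⟨5,[(6,1),(18,2),(17,0)]⟩ ⟨7,[(0,1),
  (4,0),(3,1),(14,2),(1,1),(2,0),(10,0),(1,6)]⟩),(.x 0 ⟨0,[(39,0)]⟩ ⟨7,[(18,3),(1,3),(3,2),(0,2),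
  (11,1)]⟩),.k,.k,[⟨0,[(27,0)]⟩,⟨0,[(26,0)]⟩,⟨0,[(0,0)]⟩,⟨0,[(1,0)]⟩]⟩) (.I [1,1,0,-1,0,0,0,0,1]
  (.Q [0,0,0,0,0,2,0,0,0,0,-1] (.p false [0,0,1] [] (⟨0,[(37,0)]⟩,⟨0,[(36,0)]⟩) .k 0 (⟨0,[]⟩,⟨0,
  []⟩) .k .k) (.Q [0,0,0,1,0,0,-2,-2,0,-1,2] (.p true [0,0,1] [1,0,-1] (⟨0,[(38,0)]⟩,⟨0,[(37,0)]⟩)
  .k 2 (⟨0,[(37,0)]⟩,⟨0,[(38,0)]⟩) .k (.r (-1) ⟨37,[(6,7),(7,15),(3,11),(0,15),(4,3),(1,6),(0,6)]⟩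
  ⟨0,[(36,1)]⟩)) (.R ⟨0,false,false,false,[0,-1,1],[1,0,-1],[1],(⟨0,[(23,0)]⟩,⟨0,[(38,0),(3,0)]⟩),
  (⟨0,[(38,0)]⟩,⟨0,[(39,0)]⟩),⟨0,[(1,0)]⟩,.k,.k,(.x 0 ⟨2,[(14,0),(8,4),(11,4)]⟩ ⟨0,[(1,0),(5,0)]⟩),
  (.r (-1) ⟨5,[(6,2),(2,0),(5,1),(3,0),(0,1),(4,0)]⟩ ⟨4,[(0,3),(7,1),(2,0),(14,1),(0,0),(0,0),(6,
  1)]⟩),.k,.k,⟨false,1,⟨11,[(7,3),(12,3),(6,0),(0,0),(4,3),(12,1)]⟩,⟨0,[(37,0)]⟩⟩,⟨true,1,⟨0,[(7,0),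
  (24,0)]⟩,⟨6,[(8,5),(0,1),(2,2),(3,2),(9,0)]⟩⟩,⟨false,0,⟨7,[(0,3),(7,3),(7,0),(9,0),(13,0),(2,0),
  (3,2)]⟩,⟨7,[(6,2),(2,0),(9,0),(0,1),(4,0),(1,0),(0,0)]⟩⟩,⟨true,0,⟨0,[(0,0)]⟩,⟨2,[(8,0),(0,0),(5,
  1),(0,1),(2,1),(5,0)]⟩⟩,⟨false,0,⟨0,[]⟩,⟨0,[]⟩⟩,⟨false,0,⟨0,[]⟩,⟨0,[]⟩⟩,[.a ⟨true,0,⟨4,[(0,1),(17,
  0),(6,0),(3,1),(0,1)]⟩,⟨0,[(6,0),(1,0)]⟩⟩ ⟨true,0,⟨0,[]⟩,⟨31,[(8,5),(0,1),(2,5),(14,4),(0,4),(7,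
  5)]⟩⟩ ⟨false,1,⟨4,[(0,1),(4,2),(1,1),(10,0),(6,0)]⟩,⟨16,[(8,7),(1,0),(8,5),(0,4),(5,8),(0,0),(0,
  0),(6,1)]⟩⟩,.o ⟨false,1,⟨9,[(0,3),(16,1),(9,0),(0,0),(11,1),(6,5)]⟩,⟨0,[(33,0)]⟩⟩,.o ⟨false,0,⟨0,
  [(35,0)]⟩,⟨2,[(7,1),(24,0),(7,0)]⟩⟩,.o ⟨false,0,⟨19,[(8,5),(0,1),(2,5),(14,4),(0,4),(6,13)]⟩,⟨0,
  [(5,0)]⟩⟩]⟩) (.R ⟨0,false,false,true,[0,-1,1],[1,0,-1],[0,1,0,0,0,0,0,-1],(⟨0,[(23,0)]⟩,⟨0,[(38,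
  0),(3,0)]⟩),(⟨0,[(38,0)]⟩,⟨0,[(39,0)]⟩),⟨0,[(1,0)]⟩,.k,.k,(.r (-1) ⟨1,[(0,0),(4,0),(0,0),(11,0),
  (6,0)]⟩ ⟨1,[(8,1),(25,1),(5,0),(4,1),(1,0)]⟩),(.r (-1) ⟨5,[(6,2),(2,0),(5,1),(3,0),(0,1),(4,0)]⟩
  ⟨3,[(8,1),(25,1),(2,5),(2,0),(4,1),(1,0)]⟩),.k,.k,⟨false,1,⟨3,[(27,0),(0,0),(17,1)]⟩,⟨0,[]⟩⟩,
  ⟨true,1,⟨0,[(7,0),(24,0)]⟩,⟨2,[(0,0),(7,1),(2,0),(0,0),(13,0)]⟩⟩,⟨false,0,⟨3,[(8,1),(25,1),(2,5),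
  (2,0),(4,1),(1,0)]⟩,⟨2,[(0,0),(4,0),(0,1),(8,0),(9,0),(17,1)]⟩⟩,⟨true,0,⟨1,[(11,0),(2,0),(16,1),
  (7,1),(2,0),(2,2)]⟩,⟨0,[(0,0)]⟩⟩,⟨false,0,⟨0,[]⟩,⟨0,[]⟩⟩,⟨false,0,⟨0,[]⟩,⟨0,[]⟩⟩,[.o ⟨false,0,⟨0,
  [(31,0)]⟩,⟨3,[(20,1),(5,1),(13,0),(6,0)]⟩⟩,.a ⟨true,0,⟨1,[(11,0),(2,0),(24,1),(2,0),(2,0)]⟩,⟨1,
  [(0,0),(6,0),(0,0)]⟩⟩ ⟨true,0,⟨0,[(37,0)]⟩,⟨23,[(0,3),(11,3),(2,5),(4,1),(4,1),(1,0),(0,0),(7,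
  5)]⟩⟩ ⟨false,1,⟨1,[(5,1),(5,0),(2,0),(24,1),(2,0),(2,0)]⟩,⟨19,[(0,7),(7,5),(6,1),(10,5),(0,2),(0,
  2),(6,5)]⟩⟩,.o ⟨false,0,⟨0,[(35,0)]⟩,⟨2,[(7,1),(24,0),(7,0)]⟩⟩,.o ⟨false,0,⟨19,[(8,5),(0,1),(2,5),
  (14,4),(0,4),(6,13)]⟩,⟨0,[(5,0)]⟩⟩]⟩)) (.I [0,0,-1,-1,0,0,0,0,1] (.Q [0,0,0,0,0,-1,0,0,0,0,0,1]
  (.p true [0,0,0,1] [] (⟨0,[(30,0)]⟩,⟨0,[(29,0)]⟩) .k 0 (⟨0,[]⟩,⟨0,[]⟩) .k .k) (.R ⟨1,false,false,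
  true,[0,0,0,1],[1,0,-1],[0,0,0,0,0,0,0,0,1],(⟨0,[(31,0)]⟩,⟨0,[(30,0)]⟩),(⟨0,[(39,0)]⟩,⟨0,[(40,
  0)]⟩),⟨0,[(0,0)]⟩,.k,.k,(.r 0 ⟨0,[(1,0)]⟩ ⟨11,[(9,3),(18,10),(0,4),(3,3),(12,7)]⟩),.k,(.r (-1)
  ⟨18,[(1,2),(1,5),(3,6),(2,0),(10,5),(7,4)]⟩ ⟨3,[(9,1),(2,0),(15,1),(3,1),(11,0),(1,2)]⟩),.k,⟨true,
  0,⟨1,[(1,1),(14,0),(27,0),(1,0)]⟩,⟨3,[(9,1),(13,1),(3,0),(0,1),(3,0),(2,0)]⟩⟩,⟨false,1,⟨0,[(6,0),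
  (24,0)]⟩,⟨0,[(30,0),(5,0)]⟩⟩,⟨false,1,⟨3,[(28,0),(0,0),(18,1)]⟩,⟨0,[]⟩⟩,⟨false,1,⟨3,[(6,1),(5,0),
  (15,1),(2,3),(0,1),(11,0),(1,0)]⟩,⟨8,[(1,2),(2,5),(4,3),(7,1),(2,0),(0,3),(8,2)]⟩⟩,⟨true,0,⟨0,
  [(46,0)]⟩,⟨0,[(45,0)]⟩⟩,⟨false,1,⟨3,[(6,1),(5,0),(15,1),(2,3),(0,1),(11,0),(1,4)]⟩,⟨17,[(1,5),(2,
  11),(4,10),(1,8),(5,0),(2,4),(0,1),(8,5)]⟩⟩,[.o ⟨false,0,⟨0,[(32,0)]⟩,⟨3,[(21,1),(5,1),(13,0),(6,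
  0)]⟩⟩,.a ⟨true,0,⟨1,[(12,0),(2,0),(24,1),(2,0),(2,0)]⟩,⟨0,[(7,0),(1,0)]⟩⟩ ⟨true,0,⟨9,[(1,7),(7,0),
  (19,0),(3,0),(10,4),(1,6)]⟩,⟨1,[(13,0),(3,0),(8,1),(1,0),(17,1)]⟩⟩ ⟨false,1,⟨0,[(6,0),(24,0),(6,
  0)]⟩,⟨10,[(4,1),(8,1),(2,2),(3,2),(0,0),(5,3),(0,0),(1,8)]⟩⟩,.o ⟨false,0,⟨2,[(13,0),(16,2),(10,
  0)]⟩,⟨1,[(31,1),(9,0),(5,0)]⟩⟩,.o ⟨false,0,⟨3,[(5,1),(7,1),(14,0),(1,1),(17,0)]⟩,⟨5,[(6,5),(6,0),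
  (3,2),(13,5),(9,0)]⟩⟩]⟩) (.R ⟨0,false,false,true,[0,0,0,1],[1,0,-1],[0,1,1],(⟨0,[(31,0)]⟩,⟨0,[(30,
  0)]⟩),(⟨0,[(39,0)]⟩,⟨0,[(40,0)]⟩),⟨0,[(0,0)]⟩,.k,.k,(.r 0 ⟨0,[(1,0)]⟩ ⟨11,[(9,3),(18,10),(0,4),(3,
  3),(12,7)]⟩),.k,.k,.k,⟨true,0,⟨81,[(9,13),(3,13),(2,11),(3,5),(0,25),(4,19),(1,0),(0,0)]⟩,⟨0,[(38,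
  0)]⟩⟩,⟨false,1,⟨0,[(6,0),(24,0)]⟩,⟨0,[(30,0),(5,0)]⟩⟩,⟨true,0,⟨1,[(13,0),(3,0),(8,1),(1,0),(17,
  1)]⟩,⟨0,[(1,0),(44,0)]⟩⟩,⟨false,1,⟨3,[(6,1),(5,0),(15,1),(2,3),(0,1),(11,0),(1,0)]⟩,⟨8,[(1,2),(2,
  5),(4,3),(7,1),(2,0),(0,3),(8,2)]⟩⟩,⟨false,0,⟨0,[]⟩,⟨0,[]⟩⟩,⟨false,0,⟨0,[]⟩,⟨0,[]⟩⟩,[.o ⟨false,0,
  ⟨0,[(32,0)]⟩,⟨3,[(21,1),(5,1),(13,0),(6,0)]⟩⟩,.a ⟨true,0,⟨1,[(12,0),(2,0),(24,1),(2,0),(2,0)]⟩,⟨0,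
  [(7,0),(1,0)]⟩⟩ ⟨true,0,⟨31,[(9,5),(0,1),(2,5),(14,4),(0,4),(7,5)]⟩,⟨0,[]⟩⟩ ⟨false,1,⟨0,[(6,0),
  (24,0),(6,0)]⟩,⟨10,[(4,1),(8,1),(2,2),(3,2),(0,0),(5,3),(0,0),(1,8)]⟩⟩,.o ⟨false,0,⟨2,[(13,0),(16,
  2),(10,0)]⟩,⟨1,[(31,1),(9,0),(5,0)]⟩⟩,.o ⟨false,0,⟨3,[(5,1),(7,1),(14,0),(1,1),(17,0)]⟩,⟨5,[(6,5),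
  (6,0),(3,2),(13,5),(9,0)]⟩⟩]⟩)) (.I [0,-1,0,0,0,0,0,0,1] (.Q [0,0,0,0,0,-1,0,0,0,0,0,1] (.p true
  [0,0,0,1] [] (⟨0,[(31,0)]⟩,⟨0,[(30,0)]⟩) .k 0 (⟨0,[]⟩,⟨0,[]⟩) .k .k) (.R ⟨1,false,false,true,[0,0,
  0,1],[0,-1,1],[0,0,0,0,0,0,0,0,1],(⟨0,[(32,0)]⟩,⟨0,[(31,0)]⟩),(⟨0,[(25,0)]⟩,⟨0,[(40,0),(3,0)]⟩),
  ⟨0,[(0,0)]⟩,.k,.k,(.x 0 ⟨23,[(3,3),(10,13),(1,1),(12,6),(0,6),(6,3),(5,13)]⟩ ⟨0,[(44,0),(3,0)]⟩),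
  (.x (-1) ⟨19,[(9,3),(6,7),(12,6),(0,6),(9,3),(1,1),(1,27)]⟩ ⟨9,[(3,5),(10,0),(0,1),(2,0),(9,1),
  (13,0)]⟩),.k,.k,⟨false,0,⟨0,[(1,0),(37,0),(7,0)]⟩,⟨1,[(8,0),(18,0),(1,0),(5,0)]⟩⟩,⟨true,0,⟨5,[(14,
  0),(3,2),(13,5),(9,0)]⟩,⟨0,[(31,0),(2,0)]⟩⟩,⟨false,1,⟨3,[(29,0),(0,0),(18,1)]⟩,⟨0,[]⟩⟩,⟨false,1,
  ⟨1,[(8,1),(5,0),(3,0),(10,0),(2,1)]⟩,⟨1,[(1,0),(3,0),(25,0),(1,0),(2,0),(8,0),(1,1)]⟩⟩,⟨true,0,⟨0,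
  [(47,0)]⟩,⟨0,[(46,0)]⟩⟩,⟨false,1,⟨35,[(7,17),(6,0),(2,11),(0,20),(2,11),(7,17),(2,35),(9,0),(2,
  5)]⟩,⟨1,[(1,0),(3,0),(25,0),(1,0),(2,0),(8,0)]⟩⟩,[.o ⟨false,0,⟨0,[(21,0)]⟩,⟨0,[(33,0),(13,0),(1,
  0)]⟩⟩,.a ⟨true,0,⟨0,[(17,0),(0,0),(1,0),(6,0)]⟩,⟨1,[(13,0),(2,0),(24,1),(2,0),(2,2)]⟩⟩ ⟨true,0,⟨0,
  [(1,0)]⟩,⟨0,[(2,0),(43,0)]⟩⟩ ⟨false,1,⟨6,[(7,0),(0,4),(9,2),(2,1),(10,6),(9,0),(2,0)]⟩,⟨2,[(2,0),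
  (2,0),(25,1),(1,1),(2,0),(8,0),(1,1)]⟩⟩,.o ⟨false,0,⟨2,[(14,0),(16,2),(10,0)]⟩,⟨1,[(32,1),(9,0),
  (5,0)]⟩⟩,.o ⟨false,0,⟨3,[(6,1),(7,1),(14,0),(1,1),(17,0)]⟩,⟨5,[(7,5),(6,0),(3,2),(13,5),(9,
  0)]⟩⟩]⟩) (.R ⟨0,false,false,true,[0,0,0,1],[1,1,-1],[0,1,0,-1,0,0,0,0,1],(⟨0,[(32,0)]⟩,⟨0,[(31,
  0)]⟩),(⟨0,[(40,0),(3,0)]⟩,⟨0,[(25,0)]⟩),⟨0,[(0,0)]⟩,.k,.k,(.x 0 ⟨23,[(3,3),(10,13),(1,1),(12,6),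
  (0,6),(6,3),(5,13)]⟩ ⟨0,[(44,0),(3,0)]⟩),(.r (-1) ⟨16,[(1,1),(2,6),(3,7),(3,0),(9,3),(7,3)]⟩ ⟨0,
  [(2,0),(36,0)]⟩),.k,.k,⟨false,1,⟨5,[(1,3),(2,1),(3,4),(2,0),(9,0),(5,0)]⟩,⟨0,[(2,0),(36,0),(7,
  0)]⟩⟩,⟨true,1,⟨0,[(7,0),(24,0)]⟩,⟨4,[(10,2),(0,0),(2,2),(16,4),(5,1)]⟩⟩,⟨true,0,⟨0,[(46,0)]⟩,⟨0,
  [(47,0)]⟩⟩,⟨false,1,⟨0,[(2,0),(4,0),(24,0),(6,0)]⟩,⟨1,[(1,0),(3,0),(4,0),(1,0),(8,0),(9,0)]⟩⟩,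
  ⟨false,0,⟨0,[]⟩,⟨0,[]⟩⟩,⟨false,0,⟨0,[]⟩,⟨0,[]⟩⟩,[.o ⟨false,0,⟨0,[(33,0),(13,0)]⟩,⟨7,[(12,3),(9,1),
  (5,1),(8,3),(4,0),(6,0)]⟩⟩,.a ⟨true,0,⟨1,[(13,0),(2,0),(24,1),(2,0),(2,2)]⟩,⟨0,[(17,0),(0,0),(1,
  0),(6,0)]⟩⟩ ⟨true,0,⟨8,[(1,5),(2,2),(5,0),(0,0),(7,0),(1,0),(5,0)]⟩,⟨0,[(2,0)]⟩⟩ ⟨false,1,⟨0,[(7,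
  0),(24,0),(6,0),(7,0)]⟩,⟨39,[(6,1),(3,6),(1,14),(1,12),(6,16),(0,3),(5,7),(0,0),(1,37)]⟩⟩,.o
  ⟨false,0,⟨2,[(14,0),(16,2),(10,0)]⟩,⟨1,[(32,1),(9,0),(5,0)]⟩⟩,.o ⟨false,0,⟨3,[(6,1),(7,1),(14,0),
  (1,1),(17,0)]⟩,⟨5,[(7,5),(6,0),(3,2),(13,5),(9,0)]⟩⟩]⟩)) (.Q [0,0,0,1,0,0,1,1,0,1,-1,-1] (.p
  false [0,0,1] [1,0,0,-1] (⟨0,[(40,0)]⟩,⟨0,[(39,0)]⟩) .k 2 (⟨0,[(30,0)]⟩,⟨0,[(31,0)]⟩) .k (.r (-1)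
  ⟨75,[(8,7),(7,15),(3,11),(0,15),(4,3),(1,6),(0,44)]⟩ ⟨1,[(0,1),(11,0),(31,0),(1,0)]⟩)) (.R ⟨1,
  false,false,true,[1,0,0,-1],[1,-1],[0,0,0,0,0,0,0,0,-1],(⟨0,[(31,0)]⟩,⟨0,[(32,0)]⟩),(⟨0,[(43,0)]⟩,
  ⟨0,[(44,0)]⟩),⟨4,[(0,2),(2,1),(9,0),(2,0),(3,0),(6,0),(3,1)]⟩,.k,.k,(.x (-1) ⟨11,[(3,3),(19,3),(5,
  4),(0,4),(11,1)]⟩ ⟨0,[(44,0)]⟩),(.r 0 ⟨1,[(1,1),(1,5),(3,1),(6,1),(1,2),(0,0),(0,3),(1,1),(23,14),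
  (2,2)]⟩ ⟨5,[(11,1),(18,2),(17,0)]⟩),.k,.k,⟨true,0,⟨0,[(1,0),(43,0),(1,0)]⟩,⟨0,[(4,0)]⟩⟩,⟨false,0,
  ⟨2,[(14,0),(16,2),(10,0)]⟩,⟨0,[(32,0),(15,0)]⟩⟩,⟨false,1,⟨3,[(29,0),(0,0),(18,1)]⟩,⟨0,[]⟩⟩,⟨false,
  0,⟨3,[(4,0),(0,1),(0,0),(4,0),(2,0),(16,0)]⟩,⟨1,[(2,1),(4,0),(1,0),(8,0),(13,1),(12,0)]⟩⟩,⟨true,0,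
  ⟨0,[(47,0)]⟩,⟨0,[(46,0)]⟩⟩,⟨false,0,⟨1,[(5,0),(0,0)]⟩,⟨2,[(1,0),(5,0),(1,0),(8,0),(10,0),(2,2),
  (12,1)]⟩⟩,[.o ⟨false,0,⟨0,[(7,0),(6,0),(3,0),(8,0)]⟩,⟨3,[(29,0),(0,0),(16,3),(1,1)]⟩⟩,.o ⟨false,1,
  ⟨35,[(11,11),(2,7),(14,8),(0,8),(11,13)]⟩,⟨0,[(47,0)]⟩⟩,.o ⟨false,1,⟨1,[(32,1),(9,0),(5,0)]⟩,⟨2,
  [(14,0),(16,2),(10,0)]⟩⟩,.a ⟨true,0,⟨0,[(32,0)]⟩,⟨0,[(31,0)]⟩⟩ ⟨false,1,⟨2,[(1,0),(5,0),(1,0),(8,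
  0),(10,0),(15,1)]⟩,⟨15,[(4,2),(0,4),(4,1),(3,1),(2,0),(12,3),(1,4),(3,1)]⟩⟩ ⟨true,0,⟨0,[(0,0),(18,
  0)]⟩,⟨0,[(32,0),(14,0)]⟩⟩]⟩) (.R ⟨1,false,false,false,[0,0,0,1],[0,-1,1],[1,1,0,-1,0,0,0,0,1],(⟨0,
  [(32,0)]⟩,⟨0,[(31,0)]⟩),(⟨0,[(25,0)]⟩,⟨0,[(40,0),(3,0)]⟩),⟨4,[(0,1),(2,1),(12,0),(0,0),(0,1),(13,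
  2),(14,0)]⟩,.k,.k,(.r (-1) ⟨5,[(11,1),(18,2),(17,0)]⟩ ⟨1,[(1,1),(1,5),(3,1),(6,1),(1,2),(0,0),(0,
  3),(1,1),(23,14),(2,2)]⟩),(.r 0 ⟨4,[(0,0),(4,0),(4,1),(19,1),(2,0),(5,2),(7,3)]⟩ ⟨8,[(1,4),(6,3),
  (3,2),(4,0),(11,1),(15,0)]⟩),.k,.k,⟨false,0,⟨9,[(4,5),(5,1),(2,2),(4,0),(11,1),(2,2),(2,0),(10,
  6)]⟩,⟨2,[(1,2),(5,0),(0,0),(0,0),(7,0),(0,0),(26,2)]⟩⟩,⟨true,0,⟨5,[(14,0),(3,2),(13,5),(9,0)]⟩,⟨0,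
  [(31,0),(2,0)]⟩⟩,⟨true,0,⟨0,[(46,0)]⟩,⟨0,[(47,0)]⟩⟩,⟨false,1,⟨6,[(1,4),(5,2),(0,2),(9,2),(2,3),(7,
  0),(2,6),(12,7)]⟩,⟨0,[(5,0),(30,0),(10,0)]⟩⟩,⟨false,0,⟨0,[]⟩,⟨3,[(29,0),(0,0),(18,1)]⟩⟩,⟨false,1,
  ⟨20,[(1,10),(5,14),(0,0),(8,6),(0,14),(2,5),(7,4),(2,20),(12,18)]⟩,⟨0,[(5,0),(30,0)]⟩⟩,[.a ⟨true,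
  0,⟨0,[(17,0),(0,0),(1,0),(6,0)]⟩,⟨1,[(13,0),(2,0),(24,1),(2,0),(2,2)]⟩⟩ ⟨true,0,⟨0,[(4,0)]⟩,⟨0,
  [(1,0),(43,0),(1,0)]⟩⟩ ⟨false,1,⟨6,[(7,0),(0,4),(9,2),(2,1),(10,6),(9,0),(2,0)]⟩,⟨2,[(2,0),(2,0),
  (25,1),(1,1),(2,0),(8,0),(1,1)]⟩⟩,.o ⟨false,1,⟨7,[(12,3),(9,1),(5,1),(8,3),(4,0),(6,0)]⟩,⟨0,[(33,
  0),(13,0)]⟩⟩,.o ⟨false,0,⟨2,[(14,0),(16,2),(10,0)]⟩,⟨1,[(32,1),(9,0),(5,0)]⟩⟩,.o ⟨false,0,⟨3,[(6,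
  1),(7,1),(14,0),(1,1),(17,0)]⟩,⟨5,[(7,5),(6,0),(3,2),(13,5),(9,0)]⟩⟩]⟩))))) (.Q [0,0,0,0,0,-1,0,0,
  0,1,0,-1] (.p false [0,0,0,1] [1] (⟨0,[(28,0)]⟩,⟨0,[(27,0)]⟩) .k 1 (⟨0,[]⟩,⟨0,[]⟩) .k .k) (.R ⟨1,
  false,false,false,[1,0,0,-1],[0,1],[0,0,0,0,0,0,0,0,-1],(⟨0,[(28,0)]⟩,⟨0,[(29,0)]⟩),(⟨0,[(41,0)]⟩,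
  ⟨0,[(40,0)]⟩),⟨0,[(0,0)]⟩,.k,.k,(.x (-1) ⟨7,[(20,3),(1,3),(3,2),(0,2),(11,1)]⟩ ⟨0,[(41,0)]⟩),(.x
  (-1) ⟨7,[(20,3),(1,3),(3,2),(0,2),(11,1)]⟩ ⟨0,[(41,0)]⟩),(.r (-1) ⟨42,[(1,28),(2,8),(3,26),(1,4),
  (4,8),(2,9),(5,18),(1,6)]⟩ ⟨11,[(7,7),(18,0),(0,6),(3,7),(12,15)]⟩),.k,⟨false,1,⟨42,[(1,22),(2,
  18),(3,13),(1,0),(4,18),(2,1),(5,20),(1,9)]⟩,⟨1,[(2,0),(0,0),(25,1),(14,1)]⟩⟩,⟨true,0,⟨0,[(28,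
  0)]⟩,⟨2,[(11,0),(17,2),(9,0)]⟩⟩,⟨false,1,⟨3,[(26,0),(0,0),(18,1)]⟩,⟨0,[]⟩⟩,⟨false,0,⟨0,[(2,0),(3,
  0),(0,0)]⟩,⟨97,[(1,51),(2,19),(3,23),(1,9),(5,15),(1,35),(7,22),(2,97),(9,30)]⟩⟩,⟨true,0,⟨0,[(44,
  0)]⟩,⟨0,[(43,0)]⟩⟩,⟨false,0,⟨0,[(2,0),(3,0),(0,0),(36,0)]⟩,⟨53,[(1,35),(6,29),(2,1),(4,17),(1,17),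
  (7,8),(2,53),(9,16)]⟩⟩,[.o ⟨false,0,⟨0,[(44,0)]⟩,⟨35,[(8,11),(2,7),(14,8),(0,8),(11,13)]⟩⟩,.o
  ⟨false,1,⟨3,[(26,0),(0,0),(16,3),(1,1)]⟩,⟨0,[(4,0),(6,0),(3,0),(8,0)]⟩⟩,.o ⟨false,1,⟨1,[(29,1),(9,
  0),(5,0)]⟩,⟨2,[(11,0),(16,2),(10,0)]⟩⟩,.a ⟨true,0,⟨0,[(29,0)]⟩,⟨0,[(28,0)]⟩⟩ ⟨false,1,⟨11,[(1,5),
  (6,1),(17,2),(18,3),(0,2)]⟩,⟨1,[(2,0),(0,0),(25,1)]⟩⟩ ⟨true,0,⟨0,[(28,0),(15,0)]⟩,⟨0,[(4,0),(6,0),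
  (3,0),(8,0),(4,0)]⟩⟩]⟩) (.R ⟨0,false,false,false,[1,0,0,-1],[0,1],[1,1,0,-1,0,0,0,0,-1],(⟨0,[(28,
  0)]⟩,⟨0,[(29,0)]⟩),(⟨0,[(41,0)]⟩,⟨0,[(40,0)]⟩),⟨0,[(0,0)]⟩,.k,.k,(.x (-1) ⟨7,[(20,3),(1,3),(3,2),
  (0,2),(11,1)]⟩ ⟨0,[(41,0)]⟩),(.x (-1) ⟨7,[(20,3),(1,3),(3,2),(0,2),(11,1)]⟩ ⟨0,[(41,0)]⟩),.k,.k,
  ⟨false,1,⟨42,[(1,14),(2,17),(3,10),(1,9),(4,17),(2,19),(5,37),(1,13)]⟩,⟨0,[(2,0),(26,0),(14,1)]⟩⟩,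
  ⟨true,0,⟨0,[(28,0)]⟩,⟨2,[(11,0),(17,2),(9,0)]⟩⟩,⟨true,0,⟨0,[(43,0)]⟩,⟨0,[(44,0)]⟩⟩,⟨false,0,⟨0,
  [(2,0),(3,0),(0,0)]⟩,⟨97,[(1,51),(2,19),(3,23),(1,9),(5,15),(1,35),(7,22),(2,97),(9,30)]⟩⟩,⟨false,
  0,⟨0,[]⟩,⟨0,[]⟩⟩,⟨false,0,⟨0,[]⟩,⟨0,[]⟩⟩,[.o ⟨false,0,⟨0,[(44,0)]⟩,⟨35,[(8,11),(2,7),(14,8),(0,8),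
  (11,13)]⟩⟩,.o ⟨false,1,⟨3,[(26,0),(0,0),(16,3),(1,1)]⟩,⟨0,[(4,0),(6,0),(3,0),(8,0)]⟩⟩,.o ⟨false,1,
  ⟨1,[(29,1),(9,0),(5,0)]⟩,⟨2,[(11,0),(16,2),(10,0)]⟩⟩,.a ⟨true,0,⟨0,[(29,0)]⟩,⟨0,[(28,0)]⟩⟩ ⟨false,
  1,⟨5,[(8,1),(17,2),(18,0)]⟩,⟨0,[(2,0),(26,0),(14,0)]⟩⟩ ⟨true,0,⟨0,[(28,0),(15,0)]⟩,⟨3,[(0,2),(12,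
  0),(1,0),(2,1),(2,1),(0,1),(6,0)]⟩⟩]⟩)))) (.I [1,1,1,0,-1,0,0,0,-1] (.Q [0,0,0,0,0,-1,0,0,0,0,0,
  1] (.p true [0,0,0,1] [] (⟨0,[(27,0)]⟩,⟨0,[(26,0)]⟩) .k 0 (⟨0,[]⟩,⟨0,[]⟩) .k .k) (.R ⟨1,false,
  false,true,[0,0,0,1],[1,0,-1],[0,0,0,0,0,0,0,0,1],(⟨0,[(28,0)]⟩,⟨0,[(27,0)]⟩),(⟨0,[(36,0)]⟩,⟨0,
  [(37,0)]⟩),⟨0,[(0,0)]⟩,.k,.k,(.r (-1) ⟨5,[(7,1),(18,2),(17,0)]⟩ ⟨11,[(1,1),(4,2),(18,4),(4,2),(10,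
  0),(1,8)]⟩),.k,(.r (-2) ⟨7,[(4,2),(2,0),(9,0),(0,1),(4,0),(1,2),(0,6)]⟩ ⟨1,[(1,1),(7,0),(31,0),(1,
  2)]⟩),.k,⟨true,1,⟨23,[(3,0),(0,3),(0,0),(7,3),(0,0),(3,5),(7,11),(14,8)]⟩,⟨0,[(1,0),(33,0)]⟩⟩,
  ⟨false,1,⟨0,[(3,0),(24,0)]⟩,⟨0,[(27,0),(5,0)]⟩⟩,⟨false,1,⟨3,[(25,0),(0,0),(18,1)]⟩,⟨0,[]⟩⟩,⟨false,
  0,⟨0,[(2,0),(26,0)]⟩,⟨11,[(10,3),(7,5),(5,5),(1,5),(0,11),(10,0),(6,2)]⟩⟩,⟨true,0,⟨0,[(43,0)]⟩,⟨0,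
  [(42,0)]⟩⟩,⟨false,0,⟨0,[(2,0),(26,0),(13,0)]⟩,⟨25,[(6,1),(1,13),(1,7),(7,5),(5,5),(1,12),(0,25),
  (5,11),(11,2)]⟩⟩,[.o ⟨false,0,⟨0,[(29,0)]⟩,⟨3,[(18,1),(5,1),(13,0),(6,0)]⟩⟩,.a ⟨true,0,⟨1,[(9,0),
  (2,0),(24,1),(2,0),(2,0)]⟩,⟨0,[(4,0),(1,0)]⟩⟩ ⟨true,1,⟨1,[(26,0),(18,0)]⟩,⟨0,[(1,0)]⟩⟩ ⟨false,1,
  ⟨0,[(3,0),(24,0),(6,0)]⟩,⟨14,[(10,3),(2,2),(3,2),(0,2),(5,5),(2,14),(10,0)]⟩⟩,.o ⟨false,0,⟨2,[(10,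
  0),(16,2),(10,0)]⟩,⟨1,[(28,1),(9,0),(5,0)]⟩⟩,.o ⟨false,0,⟨11,[(10,7),(14,2),(0,2),(0,11),(10,1)]⟩,
  ⟨5,[(3,5),(6,0),(3,2),(13,5),(9,0)]⟩⟩]⟩) (.R ⟨0,false,false,false,[0,0,0,1],[1,0,-1],[0,0,1],(⟨0,
  [(28,0)]⟩,⟨0,[(27,0)]⟩),(⟨0,[(36,0)]⟩,⟨0,[(37,0)]⟩),⟨0,[(0,0)]⟩,.k,.k,(.r (-1) ⟨5,[(7,1),(18,2),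
  (17,0)]⟩ ⟨11,[(1,1),(4,2),(18,4),(4,2),(10,0),(1,8)]⟩),.k,.k,.k,⟨true,0,⟨81,[(6,13),(3,13),(2,11),
  (3,5),(0,25),(4,19),(1,0),(0,0)]⟩,⟨0,[(35,0)]⟩⟩,⟨false,1,⟨0,[(3,0),(24,0)]⟩,⟨0,[(27,0),(5,0)]⟩⟩,
  ⟨false,0,⟨2,[(1,0),(23,0),(15,1)]⟩,⟨1,[(26,0),(17,0)]⟩⟩,⟨true,0,⟨0,[(2,0),(26,0)]⟩,⟨2,[(0,2),(0,
  0),(4,0),(5,0),(0,0),(0,1),(2,0),(3,1),(1,0),(2,1)]⟩⟩,⟨false,0,⟨0,[]⟩,⟨0,[]⟩⟩,⟨false,0,⟨0,[]⟩,⟨0,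
  []⟩⟩,[.a ⟨true,0,⟨1,[(9,0),(2,0),(24,1),(2,0),(2,0)]⟩,⟨0,[(4,0),(1,0)]⟩⟩ ⟨true,0,⟨31,[(6,5),(0,1),
  (2,5),(14,4),(0,4),(7,5)]⟩,⟨0,[]⟩⟩ ⟨false,1,⟨0,[(3,0),(24,0),(6,0)]⟩,⟨14,[(10,3),(2,2),(3,2),(0,
  2),(5,5),(2,14),(10,0)]⟩⟩,.o ⟨false,1,⟨0,[(29,0),(15,0)]⟩,⟨0,[(31,0)]⟩⟩,.o ⟨false,0,⟨2,[(10,0),
  (16,2),(10,0)]⟩,⟨1,[(28,1),(9,0),(5,0)]⟩⟩,.o ⟨false,0,⟨11,[(10,7),(14,2),(0,2),(0,11),(10,1)]⟩,⟨5,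
  [(3,5),(6,0),(3,2),(13,5),(9,0)]⟩⟩]⟩)) (.Q [0,0,0,0,0,1,0,0,0,-1,0,1] (.p true [0,0,0,1] [1] (⟨0,
  [(27,0)]⟩,⟨0,[(26,0)]⟩) .k 1 (⟨0,[]⟩,⟨0,[]⟩) .k .k) (.R ⟨0,false,false,true,[1,0,0,-1],[0,1],[1,0,
  1],(⟨0,[(27,0)]⟩,⟨0,[(28,0)]⟩),(⟨0,[(40,0)]⟩,⟨0,[(39,0)]⟩),⟨0,[(0,0)]⟩,.k,.k,(.x (-1) ⟨7,[(19,3),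
  (1,3),(3,2),(0,2),(11,1)]⟩ ⟨0,[(40,0)]⟩),(.x (-1) ⟨7,[(19,3),(1,3),(3,2),(0,2),(11,1)]⟩ ⟨0,[(40,
  0)]⟩),.k,.k,⟨false,1,⟨5,[(7,1),(36,0),(0,2)]⟩,⟨0,[(43,0),(3,0)]⟩⟩,⟨true,0,⟨0,[(27,0)]⟩,⟨2,[(10,0),
  (17,2),(9,0)]⟩⟩,⟨false,1,⟨31,[(6,5),(0,1),(2,5),(14,4),(0,20),(7,5),(10,15)]⟩,⟨0,[(2,0),(0,0),(6,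
  0),(3,0),(8,0),(3,0),(15,0)]⟩⟩,⟨true,0,⟨1,[(10,0),(3,0),(8,1),(2,0),(0,1),(15,3)]⟩,⟨0,[(2,0),(0,
  0),(6,0),(3,0),(8,0)]⟩⟩,⟨false,0,⟨0,[]⟩,⟨0,[]⟩⟩,⟨false,0,⟨0,[]⟩,⟨0,[]⟩⟩,[.o ⟨false,0,⟨0,[(43,0),
  (3,0)]⟩,⟨17,[(7,5),(2,3),(27,6),(6,8)]⟩⟩,.o ⟨false,0,⟨0,[(43,0)]⟩,⟨35,[(7,11),(2,7),(14,8),(0,8),
  (11,13)]⟩⟩,.o ⟨false,1,⟨1,[(28,1),(9,0),(5,0)]⟩,⟨2,[(10,0),(16,2),(10,0)]⟩⟩,.a ⟨true,0,⟨0,[(28,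
  0)]⟩,⟨0,[(27,0)]⟩⟩ ⟨true,0,⟨0,[]⟩,⟨0,[(47,0)]⟩⟩ ⟨false,0,⟨0,[(27,0),(15,0)]⟩,⟨17,[(7,5),(2,3),(17,
  17),(9,6),(6,8)]⟩⟩]⟩) (.I [0,0,-2,-2,1,0,0,1] (.Q [0,0,-1,-2,0,0,0,0,-1,-1,0,1] (.p true [0,0,0,
  1] [1] (⟨0,[(29,0)]⟩,⟨0,[(28,0)]⟩) .k 1 (⟨0,[]⟩,⟨0,[]⟩) .k .k) (.R ⟨1,false,false,true,[1,0,0,-1],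
  [0,1],[0,0,0,0,0,0,0,0,-1],(⟨0,[(29,0)]⟩,⟨0,[(30,0)]⟩),(⟨0,[(42,0)]⟩,⟨0,[(41,0)]⟩),⟨0,[(2,0)]⟩,.k,
  .k,(.x (-1) ⟨7,[(21,3),(1,3),(3,2),(0,2),(11,1)]⟩ ⟨0,[(42,0)]⟩),(.x (-1) ⟨7,[(21,3),(1,3),(3,2),
  (0,2),(11,1)]⟩ ⟨0,[(42,0)]⟩),(.r (-1) ⟨30,[(0,12),(4,4),(1,4),(1,11),(6,4),(10,8),(1,12)]⟩ ⟨11,
  [(8,7),(18,0),(0,6),(3,7),(12,15)]⟩),.k,⟨false,1,⟨16,[(0,3),(3,4),(0,9),(3,2),(6,4),(10,3),(1,8),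
  (13,5)]⟩,⟨1,[(12,0),(3,0),(8,1),(2,0),(16,3)]⟩⟩,⟨true,0,⟨0,[(29,0)]⟩,⟨2,[(12,0),(17,2),(9,0)]⟩⟩,
  ⟨false,1,⟨3,[(27,0),(0,0),(18,1)]⟩,⟨0,[]⟩⟩,⟨true,0,⟨1,[(12,0),(3,0),(8,1),(2,0),(0,1),(15,3)]⟩,⟨0,
  [(0,0),(44,0)]⟩⟩,⟨true,0,⟨0,[(45,0)]⟩,⟨0,[(44,0)]⟩⟩,⟨true,0,⟨1,[(12,0),(3,0),(8,1),(2,0),(0,1),
  (15,5)]⟩,⟨0,[(0,0)]⟩⟩,[.o ⟨false,0,⟨0,[(45,0),(3,0)]⟩,⟨17,[(9,5),(2,3),(27,6),(6,8)]⟩⟩,.o ⟨false,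
  0,⟨0,[(45,0)]⟩,⟨35,[(9,11),(2,7),(14,8),(0,8),(11,13)]⟩⟩,.o ⟨false,1,⟨1,[(30,1),(9,0),(5,0)]⟩,⟨2,
  [(12,0),(16,2),(10,0)]⟩⟩,.a ⟨true,0,⟨0,[(30,0)]⟩,⟨0,[(29,0)]⟩⟩ ⟨true,0,⟨0,[(0,0),(28,0),(15,1)]⟩,
  ⟨1,[(12,0),(3,0),(8,1),(2,0),(16,1)]⟩⟩ ⟨false,0,⟨0,[(29,0),(15,0)]⟩,⟨23,[(0,11),(11,3),(14,2),(0,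
  8),(1,11),(9,3),(6,11)]⟩⟩]⟩) (.R ⟨1,true,false,true,[1,0,0,-1],[0,1],[0,0,0,0,0,0,0,0,-1],(⟨0,
  [(29,0)]⟩,⟨0,[(30,0)]⟩),(⟨0,[(42,0)]⟩,⟨0,[(41,0)]⟩),⟨0,[(2,0)]⟩,.k,.k,(.x (-1) ⟨7,[(21,3),(1,3),
  (3,2),(0,2),(11,1)]⟩ ⟨0,[(42,0)]⟩),(.x (-1) ⟨7,[(21,3),(1,3),(3,2),(0,2),(11,1)]⟩ ⟨0,[(42,0)]⟩),
  (.r (-1) ⟨89,[(4,43),(0,23),(3,37),(1,11),(5,9),(1,33),(7,22),(1,43),(10,4)]⟩ ⟨2,[(0,2),(11,0),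
  (17,2),(9,0)]⟩),.k,⟨false,1,⟨26,[(4,22),(0,5),(3,8),(6,2),(10,1),(1,22),(10,9),(2,1)]⟩,⟨1,[(12,0),
  (3,0),(8,1),(2,0),(16,3)]⟩⟩,⟨true,0,⟨0,[(29,0)]⟩,⟨2,[(12,0),(17,2),(9,0)]⟩⟩,⟨false,1,⟨3,[(27,0),
  (0,0),(18,1)]⟩,⟨0,[]⟩⟩,⟨true,0,⟨0,[(0,0),(43,0)]⟩,⟨0,[(4,0),(0,0),(6,0),(3,0),(8,0)]⟩⟩,⟨true,0,⟨0,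
  [(45,0)]⟩,⟨0,[(44,0)]⟩⟩,⟨false,0,⟨0,[(0,0)]⟩,⟨5,[(4,3),(4,3),(2,1),(14,0),(2,1),(9,1),(6,0)]⟩⟩,
  []⟩)) (.R ⟨1,false,false,false,[1,0,0,-1],[0,-1,1],[0,1,0,0,0,0,0,0,-1],(⟨0,[(28,0)]⟩,⟨0,[(29,
  0)]⟩),(⟨0,[(22,0)]⟩,⟨0,[(37,0),(3,0)]⟩),⟨0,[(1,0)]⟩,.k,.k,(.x (-1) ⟨7,[(20,3),(1,3),(3,2),(0,2),
  (11,1)]⟩ ⟨0,[(41,0)]⟩),(.r 1 ⟨0,[(0,0),(2,0),(0,0),(6,0),(3,0),(8,0),(3,0)]⟩ ⟨7,[(5,2),(2,0),(9,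
  0),(0,1),(4,0),(1,2),(0,6)]⟩),.k,.k,⟨true,(-1),⟨0,[(0,0),(2,0),(17,0),(6,0),(3,0)]⟩,⟨1,[(8,0),(5,
  0),(12,0),(14,0)]⟩⟩,⟨false,0,⟨0,[(28,0),(5,0)]⟩,⟨0,[(4,0),(24,0)]⟩⟩,⟨true,0,⟨0,[(48,0)]⟩,⟨0,[]⟩⟩,
  ⟨false,1,⟨25,[(7,1),(1,13),(1,7),(7,5),(5,5),(1,12),(0,25),(5,11),(11,2)]⟩,⟨1,[(0,0),(2,1),(0,0),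
  (25,0),(17,0)]⟩⟩,⟨false,0,⟨0,[(44,0)]⟩,⟨15,[(7,1),(0,5),(2,1),(14,2),(0,2),(7,1),(10,7)]⟩⟩,⟨false,
  1,⟨11,[(11,3),(7,5),(5,5),(1,5),(0,11),(10,0),(6,2)]⟩,⟨0,[(3,0),(26,0)]⟩⟩,[.a ⟨true,0,⟨0,[(14,0),
  (0,0),(1,0),(6,0)]⟩,⟨3,[(0,2),(5,2),(10,0),(6,0)]⟩⟩ ⟨false,0,⟨0,[(3,0),(24,0),(1,0),(1,0)]⟩,⟨1,
  [(27,0),(18,0)]⟩⟩ ⟨true,0,⟨10,[(7,1),(1,3),(1,2),(6,4),(0,0),(5,0),(2,10),(5,1)]⟩,⟨1,[(0,1),(2,1),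
  (0,1),(6,0),(3,0),(8,1),(2,0)]⟩⟩,.o ⟨false,1,⟨7,[(9,3),(9,1),(5,1),(8,3),(4,0),(6,0)]⟩,⟨1,[(0,0),
  (3,0),(25,0),(17,0)]⟩⟩,.o ⟨false,1,⟨1,[(29,1),(9,0),(5,0)]⟩,⟨2,[(11,0),(16,2),(10,0)]⟩⟩,.e ⟨false,
  0,⟨1,[(0,0),(2,1),(0,1),(6,0),(3,0),(2,0),(5,0),(3,1)]⟩,⟨31,[(7,5),(0,1),(2,5),(14,4),(0,20),(7,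
  5),(10,15)]⟩⟩ ⟨false,1,⟨7,[(9,3),(9,1),(5,1),(2,7),(5,3),(4,0),(6,0)]⟩,⟨1,[(0,1),(2,1),(0,1),(6,
  0),(3,0),(8,1),(2,0)]⟩⟩]⟩))))))) (.Q [0,-1,0,2,0,0,-1,-1,0,0,1] (.p true [0,0,1] [] (⟨0,[(32,0)]⟩,
  ⟨0,[(31,0)]⟩) .k 0 (⟨0,[]⟩,⟨0,[]⟩) .k .k) (.R ⟨1,false,false,false,[0,0,1],[0,1],[1,1],(⟨0,[(33,
  0)]⟩,⟨0,[(32,0)]⟩),(⟨0,[(36,0)]⟩,⟨0,[(35,0)]⟩),⟨0,[(17,0)]⟩,.k,.k,.k,.k,(.r (-2) ⟨29,[(3,15),(9,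
  5),(0,11),(4,5),(1,8),(0,8),(17,13)]⟩ ⟨1,[(0,0),(0,0),(0,0),(22,0),(13,0)]⟩),.k,⟨false,1,⟨2,[(3,
  0),(36,1),(2,2)]⟩,⟨41,[(0,11),(1,11),(3,1),(2,5),(24,4),(2,5),(3,8)]⟩⟩,⟨true,1,⟨11,[(0,2),(2,1),
  (10,5),(13,8),(11,3)]⟩,⟨0,[(1,0)]⟩⟩,⟨false,0,⟨0,[(31,0)]⟩,⟨7,[(14,3),(6,0),(0,0),(18,1)]⟩⟩,⟨true,
  0,⟨1,[(0,0),(27,0)]⟩,⟨0,[(13,0)]⟩⟩,⟨false,0,⟨1,[(0,0),(19,0),(4,0)]⟩,⟨87,[(2,7),(1,47),(1,7),(7,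
  19),(6,12),(0,12),(7,7),(10,9)]⟩⟩,⟨false,0,⟨0,[(0,0)]⟩,⟨19,[(2,1),(0,3),(0,9),(1,1),(6,9),(7,4),
  (0,4),(6,7)]⟩⟩,[.o ⟨false,0,⟨0,[(39,0)]⟩,⟨35,[(3,11),(2,7),(14,8),(0,8),(11,13)]⟩⟩,.a ⟨true,0,⟨0,
  [(0,0),(8,0),(0,0),(1,0),(6,0)]⟩,⟨0,[(38,0)]⟩⟩ ⟨true,0,⟨0,[]⟩,⟨31,[(2,5),(0,1),(2,5),(14,4),(0,4),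
  (7,5)]⟩⟩ ⟨false,1,⟨11,[(0,8),(2,1),(10,5),(13,2),(11,3)]⟩,⟨1,[(13,0),(2,0),(3,0)]⟩⟩,.o ⟨false,0,
  ⟨0,[(18,0)]⟩,⟨23,[(0,2),(2,1),(10,9),(11,3),(1,16),(5,9),(6,1)]⟩⟩,.o ⟨false,0,⟨0,[(29,0)]⟩,⟨0,
  [(26,0),(13,0)]⟩⟩]⟩) (.Q [0,1,-1,0,0,0,0,0,-1,0,0,1] (.p true [0,0,0,1] [] (⟨0,[(24,0)]⟩,⟨0,[(23,
  0)]⟩) .k 0 (⟨0,[]⟩,⟨0,[]⟩) .k .k) (.Q [0,1,1,0,0,0,0,0,1,0,0,-1] (.p false [0,0,0,1] [] (⟨0,[(25,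
  0)]⟩,⟨0,[(24,0)]⟩) .k 0 (⟨0,[]⟩,⟨0,[]⟩) .k .k) (.K ⟨0,[0,0,0,1],0,0,(⟨0,[(26,0)]⟩,⟨0,[(25,0)]⟩),
  .k,(.r (-1) ⟨5,[(5,1),(18,2),(17,0)]⟩ ⟨7,[(1,1),(2,0),(3,1),(14,2),(1,1),(2,0),(10,0),(1,6)]⟩),
  (.x 0 ⟨0,[(38,0)]⟩ ⟨7,[(17,3),(1,3),(3,2),(0,2),(11,1)]⟩),.k,.k,[⟨0,[(26,0)]⟩,⟨0,[(25,0)]⟩,⟨0,[(1,
  0)]⟩,⟨0,[(0,0)]⟩]⟩) (.Q [0,0,0,0,0,1,0,0,0,-1,0,1] (.p true [0,0,0,1] [1] (⟨0,[(26,0)]⟩,⟨0,[(25,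
  0)]⟩) .k 1 (⟨0,[]⟩,⟨0,[]⟩) .k .k) (.Q [0,1,1,0,0,0,-1,-1,1,0,1,-1] (.p true [0,0,1] [0,0,0,1] (⟨0,
  [(36,0)]⟩,⟨0,[(35,0)]⟩) .k 2 (⟨0,[(27,0)]⟩,⟨0,[(26,0)]⟩) .k (.r 0 ⟨5,[(1,5),(7,0),(2,2),(6,2),(6,
  5),(3,2),(6,0)]⟩ ⟨3,[(24,0),(0,2),(8,3)]⟩)) (.R ⟨0,false,false,true,[1,0,0,-1],[1,0,-1],[1,1],(⟨0,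
  [(27,0)]⟩,⟨0,[(28,0)]⟩),(⟨0,[(36,0)]⟩,⟨0,[(37,0)]⟩),⟨0,[(1,0)]⟩,.k,.k,(.x (-1) ⟨7,[(19,3),(1,3),
  (3,2),(0,2),(11,1)]⟩ ⟨0,[(40,0)]⟩),.k,.k,.k,⟨false,1,⟨13,[(13,1),(4,3),(4,1),(1,0),(0,0),(4,1),
  (12,7)]⟩,⟨0,[(35,0)]⟩⟩,⟨true,0,⟨0,[(27,0),(2,0)]⟩,⟨4,[(5,0),(8,1),(13,4),(9,0)]⟩⟩,⟨false,1,⟨3,
  [(25,0),(0,2)]⟩,⟨2,[(2,2),(7,0),(16,2),(10,0)]⟩⟩,⟨true,0,⟨0,[(0,0)]⟩,⟨0,[(2,0),(28,0)]⟩⟩,⟨false,0,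
  ⟨0,[]⟩,⟨0,[]⟩⟩,⟨false,0,⟨0,[]⟩,⟨0,[]⟩⟩,[.o ⟨false,0,⟨0,[(29,0)]⟩,⟨3,[(18,1),(5,1),(13,0),(6,0)]⟩⟩,
  .e ⟨true,0,⟨0,[]⟩,⟨31,[(6,5),(0,1),(2,5),(14,4),(0,4),(7,5)]⟩⟩ ⟨true,0,⟨9,[(0,1),(9,0),(14,0),(1,
  7),(1,6),(2,0),(8,4)]⟩,⟨13,[(1,8),(0,3),(1,1),(0,1),(6,2),(0,5),(0,8),(6,5),(1,1),(2,1),(1,0)]⟩⟩,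
  .o ⟨false,1,⟨1,[(2,0),(0,0),(22,0),(11,0)]⟩,⟨2,[(10,0),(16,2),(10,0)]⟩⟩,.a ⟨true,0,⟨0,[(28,0)]⟩,
  ⟨0,[(27,0)]⟩⟩ ⟨false,1,⟨3,[(25,0),(0,0),(17,1)]⟩,⟨21,[(6,2),(0,0),(2,2),(23,2),(6,5),(3,4)]⟩⟩
  ⟨true,0,⟨0,[(27,0),(1,0)]⟩,⟨13,[(1,8),(0,3),(1,1),(0,1),(6,2),(0,5),(0,8),(6,5),(1,1),(2,1),(1,
  0)]⟩⟩]⟩) (.R ⟨0,false,false,true,[1,0,0,-1],[0,1],[1,0,1],(⟨0,[(27,0)]⟩,⟨0,[(28,0)]⟩),(⟨0,[(40,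
  0)]⟩,⟨0,[(39,0)]⟩),⟨0,[(1,0)]⟩,.k,.k,(.x (-1) ⟨7,[(19,3),(1,3),(3,2),(0,2),(11,1)]⟩ ⟨0,[(40,0)]⟩),
  (.x (-1) ⟨7,[(19,3),(1,3),(3,2),(0,2),(11,1)]⟩ ⟨0,[(40,0)]⟩),.k,.k,⟨false,1,⟨5,[(7,1),(36,0),(0,
  2)]⟩,⟨0,[(43,0),(3,0)]⟩⟩,⟨true,0,⟨0,[(27,0)]⟩,⟨2,[(10,0),(17,2),(9,0)]⟩⟩,⟨false,1,⟨31,[(6,5),(0,
  1),(2,5),(14,4),(0,20),(7,5),(10,15)]⟩,⟨0,[(0,0),(26,0),(1,0)]⟩⟩,⟨true,0,⟨3,[(5,0),(0,0),(16,1),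
  (2,1),(0,3),(1,0),(1,0),(11,4)]⟩,⟨0,[(0,0),(19,0)]⟩⟩,⟨false,0,⟨0,[]⟩,⟨0,[]⟩⟩,⟨false,0,⟨0,[]⟩,⟨0,
  []⟩⟩,[.o ⟨false,0,⟨0,[(43,0),(3,0)]⟩,⟨17,[(7,5),(2,3),(27,6),(6,8)]⟩⟩,.o ⟨false,0,⟨0,[(43,0)]⟩,
  ⟨35,[(7,11),(2,7),(14,8),(0,8),(11,13)]⟩⟩,.o ⟨false,1,⟨1,[(2,0),(0,0),(22,0),(11,0)]⟩,⟨2,[(10,0),
  (16,2),(10,0)]⟩⟩,.a ⟨true,0,⟨0,[(28,0)]⟩,⟨0,[(27,0)]⟩⟩ ⟨true,0,⟨0,[]⟩,⟨0,[(47,0)]⟩⟩ ⟨false,0,⟨0,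
  [(27,0),(15,0)]⟩,⟨17,[(7,5),(2,3),(17,17),(9,6),(6,8)]⟩⟩]⟩)) (.Q [0,0,1,0,0,0,0,0,1,1,0,-1] (.p
  false [0,0,0,1] [1] (⟨0,[(27,0)]⟩,⟨0,[(26,0)]⟩) .k 1 (⟨0,[]⟩,⟨0,[]⟩) .k .k) (.R ⟨1,false,false,
  true,[1,-1],[0,0,0,1],[0,0,-1,-1],(⟨0,[(39,0)]⟩,⟨0,[(40,0)]⟩),(⟨0,[(28,0)]⟩,⟨0,[(27,0)]⟩),⟨0,[(19,
  0),(1,0)]⟩,.k,.k,(.r (-1) ⟨2,[(7,1),(36,0)]⟩ ⟨2,[(6,1),(18,0),(0,0),(3,1),(12,3)]⟩),(.x (-1) ⟨7,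
  [(19,3),(1,3),(3,2),(0,2),(11,1)]⟩ ⟨0,[(40,0)]⟩),(.r (-1) ⟨13,[(2,7),(0,3),(3,7),(9,1),(2,1),(4,
  0),(1,11),(10,4)]⟩ ⟨11,[(6,7),(18,0),(0,6),(3,7),(12,15)]⟩),.k,⟨false,1,⟨5,[(2,5),(4,1),(19,5),
  (10,2),(5,0)]⟩,⟨3,[(5,0),(0,0),(16,1),(2,1),(2,0),(1,0),(11,4)]⟩⟩,⟨true,0,⟨0,[(27,0)]⟩,⟨2,[(10,0),
  (17,2),(9,0)]⟩⟩,⟨false,1,⟨3,[(25,0),(0,0),(18,1)]⟩,⟨0,[]⟩⟩,⟨false,0,⟨0,[(0,0),(42,0)]⟩,⟨17,[(2,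
  11),(4,5),(2,1),(14,2),(2,5),(9,7),(6,2)]⟩⟩,⟨true,0,⟨0,[(43,0)]⟩,⟨0,[(42,0)]⟩⟩,⟨false,0,⟨0,[(0,0),
  (42,1)]⟩,⟨5,[(2,3),(4,3),(2,1),(14,0),(2,1),(9,1),(6,0)]⟩⟩,[.e ⟨false,1,⟨2,[(7,0),(36,1)]⟩,⟨5,[(6,
  1),(18,0),(0,0),(3,1),(12,3)]⟩⟩ ⟨false,1,⟨1,[(26,0),(0,1),(16,0),(2,1)]⟩,⟨2,[(2,2),(7,0),(27,
  0)]⟩⟩,.a ⟨true,0,⟨0,[(0,0)]⟩,⟨1,[(2,0),(0,0)]⟩⟩ ⟨true,1,⟨5,[(7,1),(36,0),(0,2)]⟩,⟨0,[(5,0),(17,0),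
  (19,1)]⟩⟩ ⟨false,1,⟨1,[(26,0),(0,1),(16,0)]⟩,⟨5,[(2,2),(0,2),(6,1),(27,1)]⟩⟩,.o ⟨false,0,⟨2,[(10,
  0),(27,0)]⟩,⟨3,[(25,0),(0,0),(17,1)]⟩⟩,.o ⟨false,0,⟨11,[(10,7),(14,2),(0,2),(11,1)]⟩,⟨0,[(44,
  0)]⟩⟩]⟩) (.Q [0,0,1,1,0,0,0,0,1,1,0,-1] (.p false [0,0,0,1] [1] (⟨0,[(28,0)]⟩,⟨0,[(27,0)]⟩) .k 1
  (⟨0,[]⟩,⟨0,[]⟩) .k .k) (.R ⟨2,true,false,false,[0,1],[1,0,0,-1],[1,1,1],(⟨0,[]⟩,⟨0,[]⟩),(⟨0,[(28,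
  0)]⟩,⟨0,[(29,0)]⟩),⟨0,[]⟩,.k,.k,.k,(.x 0 ⟨0,[(41,0)]⟩ ⟨7,[(20,3),(1,3),(3,2),(0,2),(11,1)]⟩),.k,
  .k,⟨true,0,⟨3,[(6,0),(0,0),(16,1),(2,1),(2,0),(1,0),(11,0)]⟩,⟨8,[(1,5),(1,0),(7,0),(14,0),(1,6),
  (13,3)]⟩⟩,⟨false,1,⟨1,[(3,0),(0,0),(22,0),(11,0)]⟩,⟨0,[(28,0)]⟩⟩,⟨true,0,⟨0,[(43,0)]⟩,⟨0,[(44,
  0)]⟩⟩,⟨false,1,⟨17,[(3,11),(4,5),(2,1),(14,2),(2,5),(9,7),(6,2)]⟩,⟨0,[(0,0)]⟩⟩,⟨false,0,⟨0,[]⟩,⟨3,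
  [(26,0),(0,0),(18,1)]⟩⟩,⟨true,0,⟨0,[(1,0)]⟩,⟨0,[(0,0),(42,0)]⟩⟩,[]⟩) (.Q [0,0,1,2,0,0,0,0,1,1,0,
  -1] (.p false [0,0,0,1] [1] (⟨0,[(29,0)]⟩,⟨0,[(28,0)]⟩) .k 1 (⟨0,[]⟩,⟨0,[]⟩) .k .k) (.R ⟨1,true,
  false,true,[1,0,0,-1],[0,1],[0,0,0,0,0,0,0,0,-1],(⟨0,[(29,0)]⟩,⟨0,[(30,0)]⟩),(⟨0,[(42,0)]⟩,⟨0,
  [(41,0)]⟩),⟨0,[(3,0)]⟩,.k,.k,(.x (-1) ⟨7,[(21,3),(1,3),(3,2),(0,2),(11,1)]⟩ ⟨0,[(42,0)]⟩),(.x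
  (-1) ⟨7,[(21,3),(1,3),(3,2),(0,2),(11,1)]⟩ ⟨0,[(42,0)]⟩),(.r (-1) ⟨11,[(2,5),(6,7),(17,2),(1,5),
  (16,0)]⟩ ⟨2,[(0,2),(11,0),(17,2),(9,0)]⟩),.k,⟨false,1,⟨5,[(4,5),(4,1),(19,5),(10,2),(5,0)]⟩,⟨2,
  [(0,1),(1,0),(4,0),(17,0),(2,0),(1,0),(0,0),(1,0)]⟩⟩,⟨true,0,⟨0,[(29,0)]⟩,⟨2,[(12,0),(17,2),(9,
  0)]⟩⟩,⟨false,1,⟨3,[(27,0),(0,0),(18,1)]⟩,⟨0,[]⟩⟩,⟨true,0,⟨0,[(0,0),(43,0)]⟩,⟨0,[(1,0)]⟩⟩,⟨true,0,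
  ⟨0,[(45,0)]⟩,⟨0,[(44,0)]⟩⟩,⟨false,0,⟨0,[(0,0)]⟩,⟨53,[(1,35),(7,23),(2,9),(14,8),(2,17),(9,3),(6,
  26)]⟩⟩,[]⟩) (.R ⟨1,false,false,true,[1,0,0,-1],[0,1],[0,0,0,0,0,0,0,0,-1],(⟨0,[(29,0)]⟩,⟨0,[(30,
  0)]⟩),(⟨0,[(42,0)]⟩,⟨0,[(41,0)]⟩),⟨0,[(3,0)]⟩,.k,.k,(.x (-1) ⟨7,[(21,3),(1,3),(3,2),(0,2),(11,
  1)]⟩ ⟨0,[(42,0)]⟩),(.x (-1) ⟨7,[(21,3),(1,3),(3,2),(0,2),(11,1)]⟩ ⟨0,[(42,0)]⟩),(.r (-1) ⟨11,[(2,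
  5),(6,7),(17,2),(1,5),(16,0)]⟩ ⟨11,[(8,7),(18,0),(0,6),(3,7),(12,15)]⟩),.k,⟨false,1,⟨5,[(4,5),(4,
  1),(19,5),(10,2),(5,0)]⟩,⟨3,[(7,0),(0,0),(16,1),(2,1),(2,0),(1,0),(11,4)]⟩⟩,⟨true,0,⟨0,[(29,0)]⟩,
  ⟨2,[(12,0),(17,2),(9,0)]⟩⟩,⟨false,1,⟨3,[(27,0),(0,0),(18,1)]⟩,⟨0,[]⟩⟩,⟨true,0,⟨3,[(7,0),(0,0),(16,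
  1),(2,1),(0,3),(1,0),(1,0),(11,4)]⟩,⟨0,[(1,0)]⟩⟩,⟨true,0,⟨0,[(45,0)]⟩,⟨0,[(44,0)]⟩⟩,⟨true,0,⟨3,
  [(7,0),(0,0),(16,1),(2,1),(0,3),(1,0),(1,0),(11,8)]⟩,⟨0,[(0,0)]⟩⟩,[.o ⟨false,0,⟨0,[(45,0),(3,0)]⟩,
  ⟨17,[(9,5),(2,3),(27,6),(6,8)]⟩⟩,.o ⟨false,0,⟨0,[(45,0)]⟩,⟨35,[(9,11),(2,7),(14,8),(0,8),(11,
  13)]⟩⟩,.o ⟨false,1,⟨1,[(4,0),(0,0),(22,0),(11,0)]⟩,⟨2,[(12,0),(16,2),(10,0)]⟩⟩,.a ⟨true,0,⟨0,[(30,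
  0)]⟩,⟨0,[(29,0)]⟩⟩ ⟨true,0,⟨0,[(2,0),(26,0)]⟩,⟨3,[(7,0),(0,0),(16,1),(2,1),(2,0),(1,0),(11,0)]⟩⟩
  ⟨false,0,⟨0,[(29,0),(15,0)]⟩,⟨23,[(0,11),(11,3),(14,2),(0,8),(1,11),(9,3),(6,11)]⟩⟩]⟩)))))) (.Q
  [0,-1,-1,0,1,0,0,0,-1,0,0,1] (.p true [0,0,0,1] [] (⟨0,[(25,0)]⟩,⟨0,[(24,0)]⟩) .k 0 (⟨0,[]⟩,⟨0,
  []⟩) .k .k) (.Q [0,0,0,0,0,2,0,0,0,0,-1] (.p false [0,0,1] [] (⟨0,[(35,0)]⟩,⟨0,[(34,0)]⟩) .k 0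
  (⟨0,[]⟩,⟨0,[]⟩) .k .k) (.Q [0,0,0,1,0,0,-2,-2,0,-1,2] (.p true [0,0,1] [1,0,-1] (⟨0,[(36,0)]⟩,⟨0,
  [(35,0)]⟩) .k 2 (⟨0,[(35,0)]⟩,⟨0,[(36,0)]⟩) .k (.r (-1) ⟨6,[(12,1),(4,3),(4,1),(1,0),(0,0),(4,1),
  (12,0)]⟩ ⟨0,[(34,1)]⟩)) (.R ⟨0,false,false,false,[0,-1,1],[1,0,-1],[],(⟨0,[(21,0)]⟩,⟨1,[(1,0),(25,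
  0),(0,0),(7,0)]⟩),(⟨0,[(36,0)]⟩,⟨0,[(37,0)]⟩),⟨0,[(1,0)]⟩,.k,.k,(.r (-2) ⟨29,[(7,15),(9,5),(0,11),
  (4,5),(1,8),(0,8),(17,13)]⟩ ⟨1,[(0,0),(4,0),(0,0),(36,1)]⟩),(.r (-1) ⟨2,[(7,1),(5,2),(30,0)]⟩ ⟨4,
  [(0,3),(5,1),(2,0),(14,1),(0,0),(0,0),(6,1)]⟩),.k,.k,⟨false,1,⟨13,[(13,1),(4,3),(4,1),(1,0),(0,0),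
  (4,1),(12,7)]⟩,⟨19,[(0,3),(5,1),(2,5),(14,1),(0,0),(0,0),(6,1)]⟩⟩,⟨true,1,⟨2,[(0,2),(6,1),(5,2),
  (30,0)]⟩,⟨4,[(5,2),(0,2),(0,0),(16,1)]⟩⟩,⟨false,0,⟨7,[(0,3),(5,3),(7,0),(9,0),(13,0),(2,0),(3,
  2)]⟩,⟨19,[(7,3),(9,3),(0,7),(4,3),(1,0),(0,0),(17,5)]⟩⟩,⟨true,0,⟨0,[(0,0)]⟩,⟨3,[(4,1),(6,0),(1,1),
  (0,0),(2,1),(18,1),(2,0)]⟩⟩,⟨false,0,⟨0,[]⟩,⟨0,[]⟩⟩,⟨false,0,⟨0,[]⟩,⟨0,[]⟩⟩,[.a ⟨true,0,⟨4,[(0,1),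
  (15,0),(6,0),(3,1),(0,1)]⟩,⟨7,[(11,0),(1,3),(0,4),(8,3),(12,1),(2,0),(1,1)]⟩⟩ ⟨false,1,⟨3,[(25,0),
  (0,0),(17,1)]⟩,⟨0,[]⟩⟩ ⟨true,1,⟨23,[(0,19),(6,3),(10,7),(4,7),(1,0),(0,0),(11,1),(5,7)]⟩,⟨5,[(5,
  4),(0,0),(6,2),(0,4),(8,3),(17,1)]⟩⟩,.o ⟨false,1,⟨9,[(0,3),(14,1),(9,0),(0,0),(11,1),(6,5)]⟩,⟨0,
  [(31,0)]⟩⟩,.o ⟨false,0,⟨0,[(33,0)]⟩,⟨11,[(0,5),(6,3),(5,5),(24,2),(5,4)]⟩⟩,.o ⟨false,(-1),⟨0,[(5,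
  0)]⟩,⟨5,[(0,1),(17,1),(4,1),(1,0),(0,0),(11,1),(5,5)]⟩⟩]⟩) (.Q [0,0,-1,0,1,0,-2,0,0,-1,2] (.p
  true [0,0,1] [1,0,-1] (⟨0,[(37,0)]⟩,⟨0,[(36,0)]⟩) .k 2 (⟨0,[(36,0)]⟩,⟨0,[(37,0)]⟩) .k (.r (-1) ⟨6,
  [(13,1),(4,3),(4,1),(1,0),(0,0),(4,1),(12,0)]⟩ ⟨0,[(35,1)]⟩)) (.R ⟨0,false,false,true,[0,-1,1],[1,
  -1,-1],[1,1,-1,-1,0,0,0,-1],(⟨0,[(22,0)]⟩,⟨1,[(2,0),(25,0),(0,0),(7,0)]⟩),(⟨0,[(20,0)]⟩,⟨0,[(38,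
  0),(2,0)]⟩),⟨0,[(2,0)]⟩,.k,.k,(.r (-2) ⟨29,[(8,15),(9,5),(0,11),(4,5),(1,8),(0,8),(17,13)]⟩ ⟨1,
  [(6,1),(3,0),(2,0),(24,1),(2,0),(2,4)]⟩),.k,.k,.k,⟨true,0,⟨0,[]⟩,⟨31,[(7,5),(0,1),(2,5),(14,4),(0,
  4),(7,5)]⟩⟩,⟨false,1,⟨0,[(0,0)]⟩,⟨0,[(25,0)]⟩⟩,⟨false,0,⟨0,[(36,1)]⟩,⟨0,[(19,0)]⟩⟩,⟨true,0,⟨1,
  [(10,0),(2,0),(16,1),(7,1),(2,0),(2,0)]⟩,⟨1,[(1,0),(12,0),(0,0)]⟩⟩,⟨false,0,⟨0,[]⟩,⟨0,[]⟩⟩,⟨false,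
  0,⟨0,[]⟩,⟨0,[]⟩⟩,[.o ⟨false,0,⟨0,[(21,0)]⟩,⟨7,[(14,3),(0,3),(10,0),(0,0),(11,1),(4,3),(1,3)]⟩⟩,.a
  ⟨true,0,⟨3,[(10,1),(2,0),(10,1),(13,1),(2,0),(0,0)]⟩,⟨3,[(12,0),(1,1),(0,0),(21,1),(2,0),(3,1)]⟩⟩
  ⟨false,1,⟨23,[(8,3),(1,11),(15,2),(0,2),(17,13)]⟩,⟨11,[(7,1),(6,5),(11,0),(0,0),(3,1),(12,3)]⟩⟩
  ⟨true,1,⟨17,[(0,12),(7,0),(1,2),(5,4),(0,1),(15,4),(12,3)]⟩,⟨1,[(6,0),(0,0),(6,0),(0,0)]⟩⟩,.o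
  ⟨false,0,⟨0,[(34,0)]⟩,⟨3,[(0,1),(38,0),(5,0)]⟩⟩,.o ⟨false,(-1),⟨0,[(6,0)]⟩,⟨3,[(0,1),(25,0),(0,0),
  (11,0),(5,2)]⟩⟩]⟩) (.K ⟨2,[0,-1,1],(-1),0,(⟨0,[(22,0)]⟩,⟨1,[(2,0),(25,0),(0,0),(7,0)]⟩),.k,(.r
  (-2) ⟨29,[(8,15),(9,5),(0,11),(4,5),(1,8),(0,8),(17,13)]⟩ ⟨1,[(6,1),(3,0),(2,0),(24,1),(2,0),(2,
  4)]⟩),.k,.k,(.r (-1) ⟨2,[(8,1),(5,2),(30,0)]⟩ ⟨3,[(7,1),(25,1),(2,5),(2,0),(4,1),(1,0)]⟩),[⟨3,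
  [(26,0),(0,0),(17,1)]⟩,⟨0,[(0,0)]⟩,⟨7,[(19,3),(6,0),(0,0),(5,7),(12,1)]⟩,⟨0,[(6,0)]⟩,⟨0,[(33,0),
  (10,0)]⟩,⟨0,[(18,0)]⟩]⟩))) (.I [0,0,-2,-2,1,0,0,0,-1] (.Q [0,1,-1,1,0,0,0,0,-1,0,0,1] (.p true [0,
  0,0,1] [] (⟨0,[(28,0)]⟩,⟨0,[(27,0)]⟩) .k 0 (⟨0,[]⟩,⟨0,[]⟩) .k .k) (.Q [0,0,0,0,0,-1,0,0,0,1,0,-1]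
  (.p false [0,0,0,1] [1] (⟨0,[(29,0)]⟩,⟨0,[(28,0)]⟩) .k 1 (⟨0,[]⟩,⟨0,[]⟩) .k .k) (.R ⟨1,false,
  false,false,[1,0,0,-1],[1,-1],[1,0,-1,-1],(⟨0,[(29,0)]⟩,⟨0,[(30,0)]⟩),(⟨0,[(41,0)]⟩,⟨0,[(42,0)]⟩),
  ⟨0,[(0,0)]⟩,.k,.k,(.x (-1) ⟨11,[(3,3),(17,3),(5,4),(0,4),(11,1)]⟩ ⟨0,[(42,0)]⟩),(.r 0 ⟨7,[(1,1),
  (6,0),(3,1),(14,2),(1,1),(2,0),(10,0),(1,4)]⟩ ⟨5,[(9,1),(18,2),(17,0)]⟩),.k,.k,⟨true,0,⟨0,[]⟩,⟨31,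
  [(8,5),(0,1),(2,5),(14,4),(0,4),(7,5)]⟩⟩,⟨false,0,⟨2,[(12,0),(16,2),(10,0)]⟩,⟨0,[(30,0),(15,0)]⟩⟩,
  ⟨false,1,⟨2,[(5,2),(3,0),(20,2),(15,1)]⟩,⟨7,[(1,1),(6,0),(3,1),(14,2),(1,1),(2,0),(10,0),(1,4)]⟩⟩,
  ⟨true,0,⟨0,[(5,0),(38,0)]⟩,⟨0,[(1,0)]⟩⟩,⟨false,1,⟨0,[(5,0),(24,0),(15,0)]⟩,⟨30,[(1,5),(0,2),(5,3),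
  (3,9),(12,3),(1,10),(1,5),(13,4)]⟩⟩,⟨false,0,⟨0,[(5,0)]⟩,⟨5,[(1,1),(2,3),(22,0),(0,0),(15,1)]⟩⟩,
  [.o ⟨false,1,⟨35,[(9,11),(2,7),(14,8),(0,8),(11,13)]⟩,⟨0,[(45,0)]⟩⟩,.o ⟨false,1,⟨17,[(9,5),(2,3),
  (27,6),(6,8)]⟩,⟨0,[(45,0),(3,0)]⟩⟩,.o ⟨false,1,⟨1,[(30,1),(9,0),(5,0)]⟩,⟨2,[(12,0),(16,2),(10,
  0)]⟩⟩,.a ⟨true,0,⟨0,[(30,0)]⟩,⟨0,[(29,0)]⟩⟩ ⟨true,1,⟨2,[(9,0),(36,1)]⟩,⟨0,[(7,0),(17,0),(19,1)]⟩⟩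
  ⟨false,1,⟨5,[(5,3),(3,1),(17,1),(1,1),(10,0),(6,0)]⟩,⟨0,[(30,0),(14,0)]⟩⟩]⟩) (.R ⟨0,false,false,
  false,[1,0,0,-1],[1,-1],[1,0,-1,-1],(⟨0,[(29,0)]⟩,⟨0,[(30,0)]⟩),(⟨0,[(41,0)]⟩,⟨0,[(42,0)]⟩),⟨0,
  [(0,0)]⟩,.k,.k,(.x (-1) ⟨11,[(3,3),(17,3),(5,4),(0,4),(11,1)]⟩ ⟨0,[(42,0)]⟩),(.r 0 ⟨7,[(1,1),(6,
  0),(3,1),(14,2),(1,1),(2,0),(10,0),(1,4)]⟩ ⟨5,[(9,1),(18,2),(17,0)]⟩),.k,.k,⟨true,0,⟨0,[]⟩,⟨31,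
  [(8,5),(0,1),(2,5),(14,4),(0,4),(7,5)]⟩⟩,⟨false,0,⟨2,[(12,0),(16,2),(10,0)]⟩,⟨0,[(30,0),(15,0)]⟩⟩,
  ⟨false,1,⟨2,[(5,2),(3,0),(20,2),(15,1)]⟩,⟨7,[(1,1),(6,0),(3,1),(14,2),(1,1),(2,0),(10,0),(1,4)]⟩⟩,
  ⟨true,0,⟨0,[(5,0),(38,0)]⟩,⟨0,[(1,0)]⟩⟩,⟨false,0,⟨0,[]⟩,⟨0,[]⟩⟩,⟨false,0,⟨0,[]⟩,⟨0,[]⟩⟩,[.o
  ⟨false,1,⟨35,[(9,11),(2,7),(14,8),(0,8),(11,13)]⟩,⟨0,[(45,0)]⟩⟩,.o ⟨false,1,⟨17,[(9,5),(2,3),(27,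
  6),(6,8)]⟩,⟨0,[(45,0),(3,0)]⟩⟩,.o ⟨false,1,⟨1,[(30,1),(9,0),(5,0)]⟩,⟨2,[(12,0),(16,2),(10,0)]⟩⟩,
  .a ⟨true,0,⟨0,[(30,0)]⟩,⟨0,[(29,0)]⟩⟩ ⟨true,1,⟨2,[(9,0),(36,1)]⟩,⟨0,[(7,0),(17,0),(19,1)]⟩⟩
  ⟨false,1,⟨5,[(5,3),(3,1),(17,1),(1,1),(10,0),(6,0)]⟩,⟨0,[(30,0),(14,0)]⟩⟩]⟩)) (.Q [0,0,2,0,-1,0,0,
  0,0,1,0,-1] (.p false [0,0,0,1] [1] (⟨0,[(29,0)]⟩,⟨0,[(28,0)]⟩) .k 1 (⟨0,[]⟩,⟨0,[]⟩) .k .k) (.I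
  [1,1,0,0,0,0,0,0,1] (.I [1,0,0,0,0,0,0,0,1] (.Q [0,1,0,-1,0,0,0,0,0,0,0,-1] (.p false [0,0,0,1]
  [] (⟨0,[(32,0)]⟩,⟨0,[(31,0)]⟩) .k 0 (⟨0,[]⟩,⟨0,[]⟩) .k .k) (.Q [0,0,0,0,0,-1,0,0,0,1,0,-1] (.p
  false [0,0,0,1] [1] (⟨0,[(33,0)]⟩,⟨0,[(32,0)]⟩) .k 1 (⟨0,[]⟩,⟨0,[]⟩) .k .k) (.R ⟨1,false,false,
  true,[1,0,0,-1],[1,-1],[0,0,0,0,0,0,0,0,-1],(⟨0,[(33,0)]⟩,⟨0,[(34,0)]⟩),(⟨0,[(45,0)]⟩,⟨0,[(46,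
  0)]⟩),⟨0,[(0,0)]⟩,.k,.k,(.x (-1) ⟨11,[(7,3),(17,3),(5,4),(0,4),(11,1)]⟩ ⟨0,[(46,0)]⟩),(.r 0 ⟨2,
  [(4,0),(1,0),(9,0),(14,0),(2,0),(14,4)]⟩ ⟨5,[(13,1),(18,2),(17,0)]⟩),.k,.k,⟨true,0,⟨1,[(4,0),(1,
  1),(9,0),(17,0),(12,0),(1,5)]⟩,⟨3,[(2,0),(0,2),(7,0),(1,0),(15,0)]⟩⟩,⟨false,0,⟨1,[(4,0),(28,0),
  (10,0)]⟩,⟨0,[(34,0),(15,0)]⟩⟩,⟨false,1,⟨3,[(31,0),(0,0),(18,1)]⟩,⟨0,[]⟩⟩,⟨false,0,⟨34,[(1,12),(1,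
  2),(0,3),(0,17),(4,0),(5,2),(4,0),(10,6)]⟩,⟨0,[(8,0),(40,0)]⟩⟩,⟨true,0,⟨0,[(49,0)]⟩,⟨0,[(48,0)]⟩⟩,
  ⟨false,0,⟨3,[(3,1),(0,0),(4,1),(23,0),(10,0)]⟩,⟨0,[(8,0)]⟩⟩,[.e ⟨false,1,⟨1,[(31,0),(18,0)]⟩,⟨0,
  [(2,0)]⟩⟩ ⟨false,0,⟨0,[(1,0)]⟩,⟨0,[(2,0),(5,0),(40,0)]⟩⟩,.o ⟨false,1,⟨35,[(13,11),(2,7),(14,8),(0,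
  8),(11,13)]⟩,⟨0,[(49,0)]⟩⟩,.o ⟨false,1,⟨1,[(34,1),(9,0),(5,0)]⟩,⟨1,[(4,0),(28,0),(10,0)]⟩⟩,.a
  ⟨true,0,⟨0,[(34,0)]⟩,⟨0,[(33,0)]⟩⟩ ⟨false,1,⟨3,[(6,1),(24,0),(15,1),(1,3),(0,0)]⟩,⟨4,[(2,0),(1,0),
  (11,0),(15,1),(1,0)]⟩⟩ ⟨true,0,⟨0,[(1,0)]⟩,⟨0,[(34,0),(14,0)]⟩⟩]⟩) (.R ⟨0,false,false,true,[1,0,0,
  -1],[0,0,0,1],[1,0,1],(⟨0,[(33,0)]⟩,⟨0,[(34,0)]⟩),(⟨0,[(34,0)]⟩,⟨0,[(33,0)]⟩),⟨0,[(0,0)]⟩,.k,.k,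
  (.x (-1) ⟨11,[(7,3),(17,3),(5,4),(0,4),(11,1)]⟩ ⟨0,[(46,0)]⟩),.k,.k,.k,⟨true,0,⟨16,[(0,4),(3,9),
  (1,11),(0,1),(0,4),(2,1),(4,4),(1,0),(28,5),(1,23)]⟩,⟨0,[(0,4),(0,0),(0,0),(1,3),(2,1),(5,3),(4,
  0),(1,0),(28,12)]⟩⟩,⟨false,0,⟨1,[(4,0),(28,2),(10,0)]⟩,⟨3,[(0,4),(6,1),(10,0),(1,0),(13,2),(15,
  3)]⟩⟩,⟨false,0,⟨9,[(2,5),(1,0),(11,0),(15,1),(1,0),(12,4)]⟩,⟨1,[(31,0),(18,0)]⟩⟩,⟨true,(-1),⟨0,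
  [(1,0),(0,1),(1,0),(44,0)]⟩,⟨1,[(0,4),(3,1),(1,3),(0,1),(10,0),(1,0),(13,0),(14,7)]⟩⟩,⟨false,0,⟨0,
  []⟩,⟨0,[]⟩⟩,⟨false,0,⟨0,[]⟩,⟨0,[]⟩⟩,[.o ⟨false,0,⟨1,[(3,1),(0,0),(28,0),(10,0)]⟩,⟨12,[(0,9),(5,9),
  (0,3),(0,2),(2,1),(6,1),(1,0),(23,1),(2,4),(1,19)]⟩⟩,.o ⟨false,0,⟨3,[(3,1),(0,0),(4,1),(23,0),(10,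
  0)]⟩,⟨31,[(0,19),(5,9),(0,7),(0,11),(9,3),(1,3),(10,4),(3,5),(1,5),(6,4),(4,19)]⟩⟩,.o ⟨false,1,⟨1,
  [(34,1),(9,0),(5,0)]⟩,⟨1,[(4,0),(28,0),(10,0)]⟩⟩,.a ⟨true,0,⟨0,[(34,0)]⟩,⟨0,[(33,0)]⟩⟩ ⟨true,0,⟨0,
  []⟩,⟨0,[(53,0)]⟩⟩ ⟨false,0,⟨3,[(3,1),(0,0),(4,1),(23,4),(10,0)]⟩,⟨64,[(0,74),(5,9),(0,29),(0,54),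
  (2,1),(6,14),(1,13),(23,1),(2,4),(1,19)]⟩⟩]⟩)) (.Q [0,0,0,0,0,-1,0,0,0,1,0,-1] (.p false [0,0,0,
  1] [1] (⟨0,[(33,0)]⟩,⟨0,[(32,0)]⟩) .k 1 (⟨0,[]⟩,⟨0,[]⟩) .k .k) (.R ⟨1,false,false,true,[1,0,0,-1],
  [1,-1],[0,0,0,0,0,0,0,0,-1],(⟨0,[(33,0)]⟩,⟨0,[(34,0)]⟩),(⟨0,[(45,0)]⟩,⟨0,[(46,0)]⟩),⟨0,[(0,0)]⟩,
  .k,.k,(.x (-1) ⟨11,[(7,3),(17,3),(5,4),(0,4),(11,1)]⟩ ⟨0,[(46,0)]⟩),(.r 0 ⟨6,[(1,1),(2,1),(1,0),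
  (4,1),(7,0),(11,2),(3,1),(13,5)]⟩ ⟨5,[(13,1),(18,2),(17,0)]⟩),.k,.k,⟨true,0,⟨6,[(1,2),(2,2),(1,4),
  (9,2),(14,0),(15,1),(1,13)]⟩,⟨3,[(2,0),(0,2),(7,0),(1,0),(15,0)]⟩⟩,⟨false,0,⟨1,[(4,0),(28,0),(10,
  0)]⟩,⟨0,[(34,0),(15,0)]⟩⟩,⟨false,1,⟨3,[(31,0),(0,0),(18,1)]⟩,⟨0,[]⟩⟩,⟨false,0,⟨5,[(4,0),(4,3),(11,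
  1),(1,1),(8,0),(0,0)]⟩,⟨0,[(8,0),(40,0)]⟩⟩,⟨true,0,⟨0,[(49,0)]⟩,⟨0,[(48,0)]⟩⟩,⟨false,0,⟨3,[(3,1),
  (0,0),(4,1),(23,0),(10,0)]⟩,⟨0,[(8,0)]⟩⟩,[.a ⟨true,0,⟨0,[(48,0)]⟩,⟨0,[(1,0),(31,0)]⟩⟩ ⟨false,1,⟨1,
  [(31,0),(18,0)]⟩,⟨0,[(2,0)]⟩⟩ ⟨true,0,⟨15,[(4,7),(16,3),(1,7),(7,0),(0,0),(0,7),(4,3),(5,5)]⟩,⟨0,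
  [(1,0)]⟩⟩,.o ⟨false,1,⟨35,[(13,11),(2,7),(14,8),(0,8),(11,13)]⟩,⟨0,[(49,0)]⟩⟩,.o ⟨false,1,⟨1,[(34,
  1),(9,0),(5,0)]⟩,⟨1,[(4,0),(28,0),(10,0)]⟩⟩,.e ⟨false,1,⟨3,[(6,1),(24,0),(15,1),(1,3),(0,0)]⟩,⟨4,
  [(2,0),(1,0),(11,0),(15,1),(1,0)]⟩⟩ ⟨false,1,⟨8,[(5,1),(4,0),(2,0),(7,0),(9,2),(0,1),(0,6),(10,
  2)]⟩,⟨0,[(1,0)]⟩⟩]⟩) (.I [0,0,0,0,0,0,0,0,1] (.R ⟨0,false,false,true,[1,0,0,-1],[1,-1],[],(⟨0,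
  [(34,0)]⟩,⟨0,[(35,0)]⟩),(⟨0,[(46,0)]⟩,⟨0,[(47,0)]⟩),⟨0,[(1,0)]⟩,.k,.k,(.x (-1) ⟨11,[(8,3),(17,3),
  (5,4),(0,4),(11,1)]⟩ ⟨0,[(47,0)]⟩),(.r 0 ⟨6,[(2,1),(2,1),(1,0),(4,1),(7,0),(11,2),(3,1),(13,5)]⟩
  ⟨5,[(14,1),(18,2),(17,0)]⟩),.k,.k,⟨true,0,⟨3,[(13,0),(23,0),(10,0),(1,2),(1,0)]⟩,⟨0,[(49,0)]⟩⟩,
  ⟨false,0,⟨1,[(5,0),(28,0),(10,0)]⟩,⟨0,[(35,0),(15,0)]⟩⟩,⟨true,0,⟨0,[(0,0)]⟩,⟨0,[(7,0),(4,0),(17,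
  0),(19,2)]⟩⟩,⟨false,0,⟨5,[(5,0),(4,3),(11,1),(1,1),(8,0),(0,0)]⟩,⟨0,[(9,0),(40,0)]⟩⟩,⟨false,0,⟨0,
  []⟩,⟨0,[]⟩⟩,⟨false,0,⟨0,[]⟩,⟨0,[]⟩⟩,[.a ⟨true,0,⟨0,[(49,0)]⟩,⟨0,[(2,0),(31,0)]⟩⟩ ⟨false,1,⟨3,[(32,
  0),(0,0),(17,1)]⟩,⟨0,[]⟩⟩ ⟨true,0,⟨15,[(5,7),(16,3),(1,7),(7,0),(0,0),(0,7),(4,3),(5,5)]⟩,⟨0,[(2,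
  0)]⟩⟩,.o ⟨false,1,⟨35,[(14,11),(2,7),(14,8),(0,8),(11,13)]⟩,⟨0,[(50,0)]⟩⟩,.o ⟨false,1,⟨1,[(35,1),
  (9,0),(5,0)]⟩,⟨1,[(5,0),(28,0),(10,0)]⟩⟩,.e ⟨false,1,⟨1,[(51,0),(0,0)]⟩,⟨31,[(13,5),(0,1),(2,5),
  (14,4),(0,4),(7,5)]⟩⟩ ⟨false,1,⟨8,[(6,1),(4,0),(2,0),(7,0),(9,2),(0,1),(0,6),(10,2)]⟩,⟨0,[(2,
  0)]⟩⟩]⟩) (.N [0,0,0,1] 0 ⟨0,[(3,0)]⟩ ⟨0,[(0,0)]⟩ .k)))) (.Q [0,0,0,0,0,-1,0,0,0,1,0,-1] (.p false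
  [0,0,0,1] [1] (⟨0,[(32,0)]⟩,⟨0,[(31,0)]⟩) .k 1 (⟨0,[]⟩,⟨0,[]⟩) .k .k) (.Q [0,0,0,1,0,0,1,1,0,1,-1,
  -1] (.p false [0,0,1] [1,0,0,-1] (⟨0,[(42,0)]⟩,⟨0,[(41,0)]⟩) .k 2 (⟨0,[(32,0)]⟩,⟨0,[(33,0)]⟩) .k
  (.r (-1) ⟨7,[(2,3),(20,3),(6,0),(0,2)]⟩ ⟨0,[(1,0),(38,0)]⟩)) (.R ⟨1,false,false,true,[1,0,0,-1],
  [0,1,1],[0,1,0,0,0,0,0,0,-1],(⟨0,[(33,0)]⟩,⟨0,[(34,0)]⟩),(⟨0,[(43,0),(2,0)]⟩,⟨0,[(25,0)]⟩),⟨0,[(1,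
  0)]⟩,.k,.k,(.x (-1) ⟨11,[(7,3),(17,3),(5,4),(0,4),(11,1)]⟩ ⟨0,[(46,0)]⟩),(.r (-1) ⟨23,[(13,3),(1,
  11),(15,14),(0,2),(17,1)]⟩ ⟨1,[(3,1),(15,0),(27,0),(1,0)]⟩),(.r (-1) ⟨11,[(6,5),(6,1),(1,5),(15,
  2),(18,0)]⟩ ⟨1,[(12,0),(6,0),(12,0),(3,0),(12,1)]⟩),.k,⟨false,1,⟨3,[(2,0),(3,0),(8,1),(15,0),(18,
  1)]⟩,⟨1,[(3,1),(15,0),(27,0),(1,0)]⟩⟩,⟨true,0,⟨3,[(4,0),(15,1),(12,2),(10,0)]⟩,⟨0,[(34,0),(1,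
  0)]⟩⟩,⟨true,0,⟨0,[(53,0)]⟩,⟨0,[]⟩⟩,⟨false,0,⟨7,[(0,5),(2,0),(0,0),(4,0),(1,0),(0,0),(6,0),(12,
  2)]⟩,⟨1,[(2,0),(3,0),(27,1),(0,1),(11,1),(2,0)]⟩⟩,⟨false,0,⟨0,[(49,0)]⟩,⟨15,[(12,1),(0,5),(2,1),
  (14,2),(0,2),(7,1),(10,7)]⟩⟩,⟨false,0,⟨22,[(0,17),(2,3),(5,4),(2,5),(3,0),(2,2),(12,6),(5,0),(10,
  18)]⟩,⟨0,[(6,0),(27,0),(0,0),(11,0)]⟩⟩,[.o ⟨false,0,⟨0,[(37,0),(11,0)]⟩,⟨0,[(26,0),(24,0)]⟩⟩,.a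
  ⟨true,0,⟨0,[(0,0),(33,0)]⟩,⟨3,[(15,1),(2,0),(10,1),(13,1),(2,0),(0,0)]⟩⟩ ⟨true,0,⟨0,[(2,0)]⟩,⟨5,
  [(3,1),(0,0),(11,0),(15,1),(1,0),(12,0)]⟩⟩ ⟨false,0,⟨0,[(0,0)]⟩,⟨1,[(26,1),(7,1),(15,0),(0,0)]⟩⟩,
  .o ⟨false,1,⟨1,[(34,1),(9,0),(5,0)]⟩,⟨1,[(4,0),(28,0),(10,0)]⟩⟩,.e ⟨false,1,⟨1,[(31,0),(18,0)]⟩,
  ⟨0,[(3,0),(43,0)]⟩⟩ ⟨false,0,⟨0,[(0,0)]⟩,⟨0,[(26,0),(7,0),(16,0)]⟩⟩]⟩) (.R ⟨1,false,false,true,[1,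
  0,0,-1],[0,1,1],[0,1,0,0,0,0,0,0,-1],(⟨0,[(33,0)]⟩,⟨0,[(34,0)]⟩),(⟨0,[(43,0),(2,0)]⟩,⟨0,[(25,
  0)]⟩),⟨0,[(1,0)]⟩,.k,.k,(.x (-1) ⟨11,[(7,3),(17,3),(5,4),(0,4),(11,1)]⟩ ⟨0,[(46,0)]⟩),(.r (-1)
  ⟨23,[(13,3),(1,11),(15,14),(0,2),(17,1)]⟩ ⟨1,[(3,1),(15,0),(27,0),(1,0)]⟩),(.r (-1) ⟨11,[(6,5),(6,
  1),(1,5),(15,2),(18,0)]⟩ ⟨1,[(12,0),(6,0),(12,0),(3,0),(12,1)]⟩),.k,⟨false,1,⟨3,[(2,0),(3,0),(8,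
  1),(15,0),(18,1)]⟩,⟨1,[(3,1),(15,0),(27,0),(1,0)]⟩⟩,⟨true,0,⟨3,[(4,0),(15,1),(12,2),(10,0)]⟩,⟨0,
  [(34,0),(1,0)]⟩⟩,⟨true,0,⟨0,[(53,0)]⟩,⟨0,[]⟩⟩,⟨false,0,⟨8,[(3,0),(5,3),(2,1),(6,2),(0,1),(11,1),
  (0,4),(3,2),(11,3)]⟩,⟨3,[(0,1),(1,0),(3,0),(1,1),(26,1),(11,1),(2,0)]⟩⟩,⟨false,0,⟨0,[(49,0)]⟩,⟨15,
  [(12,1),(0,5),(2,1),(14,2),(0,2),(7,1),(10,7)]⟩⟩,⟨false,0,⟨8,[(3,0),(5,3),(2,1),(6,2),(0,1),(11,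
  1),(0,4),(3,2),(11,12)]⟩,⟨13,[(0,9),(5,7),(1,3),(6,1),(15,0),(4,3),(10,3),(3,0)]⟩⟩,[.o ⟨false,0,
  ⟨0,[(37,0),(11,0)]⟩,⟨0,[(26,0),(24,0)]⟩⟩,.e ⟨true,0,⟨0,[(2,0)]⟩,⟨5,[(3,1),(0,0),(11,0),(15,1),(1,
  0),(12,0)]⟩⟩ ⟨true,0,⟨5,[(12,1),(6,2),(0,0),(9,0),(2,5),(10,1),(4,0)]⟩,⟨0,[(0,0)]⟩⟩,.o ⟨false,1,
  ⟨1,[(34,1),(9,0),(5,0)]⟩,⟨1,[(4,0),(28,0),(10,0)]⟩⟩,.a ⟨true,0,⟨0,[(34,0)]⟩,⟨0,[(33,0)]⟩⟩ ⟨false,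
  1,⟨1,[(31,0),(18,0)]⟩,⟨0,[(3,0),(43,0)]⟩⟩ ⟨true,0,⟨0,[(33,0),(3,0),(11,0)]⟩,⟨0,[(0,0)]⟩⟩]⟩)) (.R
  ⟨0,false,false,true,[1,0,0,-1],[0,1,1],[0,1,0,0,0,0,0,0,-1],(⟨0,[(32,0)]⟩,⟨0,[(33,0)]⟩),(⟨0,[(42,
  0),(2,0)]⟩,⟨0,[(24,0)]⟩),⟨0,[(0,0)]⟩,.k,.k,(.x (-1) ⟨11,[(6,3),(17,3),(5,4),(0,4),(11,1)]⟩ ⟨0,
  [(45,0)]⟩),(.r (-1) ⟨23,[(12,3),(1,11),(15,14),(0,2),(17,1)]⟩ ⟨1,[(2,1),(15,0),(27,0),(1,0)]⟩),.k,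
  .k,⟨false,1,⟨3,[(1,0),(3,0),(8,1),(15,0),(18,1)]⟩,⟨1,[(2,1),(15,0),(27,0),(1,0)]⟩⟩,⟨true,0,⟨3,[(3,
  0),(15,1),(12,2),(10,0)]⟩,⟨0,[(33,0),(1,0)]⟩⟩,⟨true,0,⟨0,[(52,0)]⟩,⟨0,[]⟩⟩,⟨false,0,⟨8,[(2,0),(5,
  3),(2,1),(6,2),(0,1),(11,1),(0,4),(3,2),(11,3)]⟩,⟨7,[(0,3),(0,0),(3,2),(0,0),(0,3),(6,1),(2,1),
  (16,3),(7,2),(3,3),(2,0)]⟩⟩,⟨false,0,⟨0,[]⟩,⟨0,[]⟩⟩,⟨false,0,⟨0,[]⟩,⟨0,[]⟩⟩,[.o ⟨false,0,⟨0,[(36,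
  0),(11,0)]⟩,⟨0,[(25,0),(24,0)]⟩⟩,.e ⟨true,0,⟨0,[(1,0)]⟩,⟨5,[(2,1),(0,0),(11,0),(15,1),(1,0),(12,
  0)]⟩⟩ ⟨true,0,⟨5,[(11,1),(6,2),(0,0),(9,0),(2,5),(10,1),(4,0)]⟩,⟨2,[(0,2),(5,0),(7,0),(2,0),(3,0),
  (6,0),(13,0)]⟩⟩,.o ⟨false,1,⟨1,[(33,1),(9,0),(5,0)]⟩,⟨1,[(3,0),(28,0),(10,0)]⟩⟩,.a ⟨true,0,⟨0,
  [(33,0)]⟩,⟨0,[(32,0)]⟩⟩ ⟨false,1,⟨1,[(30,0),(18,0)]⟩,⟨0,[(2,0),(43,0)]⟩⟩ ⟨true,0,⟨0,[(32,0),(3,0),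
  (11,0)]⟩,⟨2,[(0,2),(5,0),(7,0),(2,0),(3,0),(6,0),(13,0)]⟩⟩]⟩))) (.Q [0,0,0,0,0,-1,0,0,0,1,0,-1]
  (.p false [0,0,0,1] [1] (⟨0,[(31,0)]⟩,⟨0,[(30,0)]⟩) .k 1 (⟨0,[]⟩,⟨0,[]⟩) .k .k) (.Q [0,0,0,1,0,0,
  1,1,0,1,-1,-1] (.p false [0,0,1] [1,0,0,-1] (⟨0,[(41,0)]⟩,⟨0,[(40,0)]⟩) .k 2 (⟨0,[(31,0)]⟩,⟨0,
  [(32,0)]⟩) .k (.r (-1) ⟨13,[(17,1),(4,3),(4,1),(1,0),(0,7),(4,1),(12,0)]⟩ ⟨4,[(1,2),(8,0),(2,0),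
  (4,0),(10,0),(3,1),(2,0)]⟩)) (.R ⟨1,false,false,true,[1,0,0,-1],[0,1,1],[0,0,0,0,0,0,0,0,-1],(⟨0,
  [(32,0)]⟩,⟨0,[(33,0)]⟩),(⟨0,[(42,0),(2,0)]⟩,⟨0,[(24,0)]⟩),⟨0,[(1,0)]⟩,.k,.k,(.x (-1) ⟨11,[(6,3),
  (17,3),(5,4),(0,4),(11,1)]⟩ ⟨0,[(45,0)]⟩),(.x (-1) ⟨11,[(6,1),(10,5),(6,1),(5,3),(0,3),(11,0),(5,
  2)]⟩ ⟨63,[(11,5),(0,1),(2,5),(0,31),(13,4),(0,4),(7,5),(5,31)]⟩),(.r (-1) ⟨11,[(5,5),(6,1),(1,5),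
  (15,2),(18,0)]⟩ ⟨1,[(11,0),(6,0),(12,0),(3,0),(12,1)]⟩),.k,⟨false,1,⟨15,[(2,9),(2,3),(8,7),(15,0),
  (18,7),(0,2)]⟩,⟨0,[(8,0),(19,0),(4,0),(2,0),(11,1)]⟩⟩,⟨true,0,⟨27,[(0,13),(2,2),(0,1),(4,1),(4,7),
  (14,5),(0,0),(1,8),(10,1)]⟩,⟨0,[(33,0),(1,0)]⟩⟩,⟨false,1,⟨3,[(30,0),(0,0),(18,1)]⟩,⟨0,[]⟩⟩,⟨false,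
  0,⟨4,[(0,1),(2,1),(4,0),(9,0),(0,0),(11,1),(4,0),(11,1)]⟩,⟨5,[(2,2),(4,2),(4,0),(1,2),(18,2),(1,
  5),(13,1)]⟩⟩,⟨true,0,⟨0,[(48,0)]⟩,⟨0,[(47,0)]⟩⟩,⟨false,0,⟨4,[(0,1),(2,1),(4,0),(9,0),(0,0),(11,1),
  (4,0),(11,6)]⟩,⟨1,[(2,0),(4,0),(4,0),(1,0),(18,0),(1,1)]⟩⟩,[.o ⟨false,0,⟨0,[(36,0),(11,0)]⟩,⟨0,
  [(25,0),(24,0)]⟩⟩,.a ⟨true,0,⟨0,[(0,0),(32,0)]⟩,⟨3,[(14,1),(2,0),(10,1),(13,1),(2,0),(0,0)]⟩⟩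
  ⟨true,0,⟨0,[(2,0)]⟩,⟨3,[(10,0),(0,0),(16,1),(2,1),(2,0),(1,0),(11,0)]⟩⟩ ⟨false,0,⟨0,[(0,0)]⟩,⟨1,
  [(25,1),(7,1),(15,0),(0,0)]⟩⟩,.o ⟨false,1,⟨1,[(33,1),(9,0),(5,0)]⟩,⟨1,[(3,0),(28,0),(10,0)]⟩⟩,.e
  ⟨false,1,⟨3,[(2,1),(27,0),(18,1),(0,0)]⟩,⟨2,[(8,0),(1,0),(17,0),(2,0),(1,0),(14,0)]⟩⟩ ⟨false,0,⟨0,
  [(0,0)]⟩,⟨0,[(25,0),(7,0),(16,0)]⟩⟩]⟩) (.R ⟨1,false,false,true,[1,0,0,-1],[0,1,1],[0,0,0,0,0,0,0,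
  0,-1],(⟨0,[(32,0)]⟩,⟨0,[(33,0)]⟩),(⟨0,[(42,0),(2,0)]⟩,⟨0,[(24,0)]⟩),⟨0,[(1,0)]⟩,.k,.k,(.x (-1)
  ⟨11,[(6,3),(17,3),(5,4),(0,4),(11,1)]⟩ ⟨0,[(45,0)]⟩),(.x (-1) ⟨11,[(6,1),(10,5),(6,1),(5,3),(0,3),
  (11,0),(5,2)]⟩ ⟨63,[(11,5),(0,1),(2,5),(0,31),(13,4),(0,4),(7,5),(5,31)]⟩),(.r (-1) ⟨11,[(5,5),(6,
  1),(1,5),(15,2),(18,0)]⟩ ⟨1,[(11,0),(6,0),(12,0),(3,0),(12,1)]⟩),.k,⟨false,1,⟨15,[(2,9),(2,3),(8,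
  7),(15,0),(18,7),(0,2)]⟩,⟨0,[(8,0),(19,0),(4,0),(2,0),(11,1)]⟩⟩,⟨true,0,⟨3,[(3,0),(15,1),(12,2),
  (10,0)]⟩,⟨0,[(33,0),(1,0)]⟩⟩,⟨false,1,⟨3,[(30,0),(0,0),(18,1)]⟩,⟨0,[]⟩⟩,⟨false,0,⟨2,[(3,0),(4,0),
  (9,0),(0,0),(11,0),(0,0),(3,0),(11,1)]⟩,⟨9,[(0,5),(1,3),(2,1),(1,3),(26,3),(14,0),(0,2)]⟩⟩,⟨true,
  0,⟨0,[(48,0)]⟩,⟨0,[(47,0)]⟩⟩,⟨false,0,⟨2,[(3,0),(4,0),(9,0),(0,0),(11,0),(0,0),(3,0),(11,4)]⟩,⟨7,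
  [(0,7),(1,1),(2,3),(24,0),(19,2)]⟩⟩,[.o ⟨false,0,⟨0,[(36,0),(11,0)]⟩,⟨0,[(25,0),(24,0)]⟩⟩,.e
  ⟨true,0,⟨0,[(2,0)]⟩,⟨3,[(10,0),(0,0),(16,1),(2,1),(2,0),(1,0),(11,0)]⟩⟩ ⟨true,0,⟨5,[(11,1),(6,2),
  (0,0),(9,0),(2,5),(10,1),(4,0)]⟩,⟨0,[(0,0)]⟩⟩,.o ⟨false,1,⟨1,[(33,1),(9,0),(5,0)]⟩,⟨1,[(3,0),(28,
  0),(10,0)]⟩⟩,.a ⟨true,0,⟨0,[(33,0)]⟩,⟨0,[(32,0)]⟩⟩ ⟨false,1,⟨3,[(2,1),(27,0),(18,1),(0,0)]⟩,⟨2,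
  [(8,0),(1,0),(17,0),(2,0),(1,0),(14,0)]⟩⟩ ⟨true,0,⟨0,[(32,0),(3,0),(11,0)]⟩,⟨0,[(0,0)]⟩⟩]⟩)) (.R
  ⟨0,false,false,true,[1,0,0,-1],[0,1,1],[1,1,0,-1,0,0,0,0,-1],(⟨0,[(31,0)]⟩,⟨0,[(32,0)]⟩),(⟨0,[(41,
  0),(2,0)]⟩,⟨0,[(23,0)]⟩),⟨0,[(0,0)]⟩,.k,.k,(.x (-1) ⟨11,[(5,3),(17,3),(5,4),(0,4),(11,1)]⟩ ⟨0,
  [(44,0)]⟩),(.x (-1) ⟨11,[(5,1),(10,5),(6,1),(5,3),(0,3),(11,0),(5,2)]⟩ ⟨63,[(10,5),(0,1),(2,5),(0,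
  31),(13,4),(0,4),(7,5),(5,31)]⟩),.k,.k,⟨false,1,⟨11,[(4,5),(6,1),(1,5),(15,2),(18,0)]⟩,⟨7,[(0,4),
  (4,1),(1,7),(8,0),(0,3),(0,4),(8,7),(4,2),(14,19)]⟩⟩,⟨true,0,⟨3,[(2,0),(15,1),(12,2),(10,0)]⟩,⟨0,
  [(32,0),(1,0)]⟩⟩,⟨true,0,⟨0,[(46,0)]⟩,⟨0,[(47,0)]⟩⟩,⟨false,0,⟨2,[(2,0),(4,0),(9,0),(0,0),(11,0),
  (0,0),(3,0),(11,1)]⟩,⟨11,[(0,3),(0,3),(3,0),(0,7),(4,1),(1,5),(2,1),(17,7),(6,2),(6,1)]⟩⟩,⟨false,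
  0,⟨0,[]⟩,⟨0,[]⟩⟩,⟨false,0,⟨0,[]⟩,⟨0,[]⟩⟩,[.o ⟨false,0,⟨0,[(35,0),(11,0)]⟩,⟨0,[(24,0),(24,0)]⟩⟩,.e
  ⟨true,0,⟨0,[(1,0),(44,0)]⟩,⟨2,[(7,0),(1,0),(17,0),(2,0),(1,0),(14,3)]⟩⟩ ⟨true,0,⟨5,[(10,1),(6,2),
  (0,0),(9,0),(2,5),(10,1),(4,0)]⟩,⟨2,[(0,2),(4,0),(7,0),(2,0),(3,0),(6,0),(13,0)]⟩⟩,.o ⟨false,1,⟨1,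
  [(32,1),(9,0),(5,0)]⟩,⟨1,[(2,0),(28,0),(10,0)]⟩⟩,.a ⟨true,0,⟨0,[(32,0)]⟩,⟨0,[(31,0)]⟩⟩ ⟨false,1,
  ⟨5,[(11,1),(17,2),(18,0)]⟩,⟨0,[(7,0),(24,0),(14,0)]⟩⟩ ⟨true,0,⟨0,[(31,0),(3,0),(11,0)]⟩,⟨2,[(0,2),
  (4,0),(7,0),(2,0),(3,0),(6,0),(13,0)]⟩⟩]⟩))) (.I [1,1,0,-1,0,0,0,0,1] (.Q [0,0,0,0,0,-1,0,0,0,0,0,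
  1] (.p true [0,0,0,1] [] (⟨0,[(31,0)]⟩,⟨0,[(30,0)]⟩) .k 0 (⟨0,[]⟩,⟨0,[]⟩) .k .k) (.R ⟨1,false,
  false,false,[0,0,0,1],[0,-1,1],[1,1,0,-1,0,0,0,0,1],(⟨0,[(32,0)]⟩,⟨0,[(31,0)]⟩),(⟨0,[(25,0)]⟩,⟨0,
  [(40,0),(3,0)]⟩),⟨0,[(0,0)]⟩,.k,.k,(.r (-1) ⟨5,[(11,1),(18,2),(17,0)]⟩ ⟨4,[(4,2),(5,1),(3,1),(1,
  0),(12,0),(11,1),(2,0),(2,8)]⟩),(.r 0 ⟨3,[(10,1),(2,0),(16,1),(2,1),(11,0),(1,2)]⟩ ⟨14,[(4,8),(12,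
  4),(3,0),(0,1),(4,0),(1,2),(18,0)]⟩),.k,.k,⟨false,0,⟨9,[(1,5),(8,1),(2,2),(4,0),(11,1),(2,2),(2,
  0),(10,6)]⟩,⟨1,[(4,1),(12,0),(27,0),(1,2)]⟩⟩,⟨true,0,⟨2,[(2,0),(6,0),(18,0),(3,1)]⟩,⟨0,[(31,0),(2,
  0)]⟩⟩,⟨true,0,⟨0,[(46,0)]⟩,⟨0,[(47,0)]⟩⟩,⟨false,1,⟨22,[(2,5),(1,10),(1,11),(2,10),(2,4),(4,8),(0,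
  5),(13,4),(12,2)]⟩,⟨0,[(7,0),(28,0),(10,0)]⟩⟩,⟨false,0,⟨0,[]⟩,⟨3,[(29,0),(0,0),(18,1)]⟩⟩,⟨false,1,
  ⟨5,[(2,1),(1,1),(1,3),(2,1),(7,2),(0,1),(26,0),(1,0)]⟩,⟨0,[(7,0),(28,0)]⟩⟩,[.a ⟨true,0,⟨0,[(17,0),
  (0,0),(1,0),(6,0)]⟩,⟨1,[(13,0),(2,0),(24,1),(2,0),(2,2)]⟩⟩ ⟨true,0,⟨0,[(1,0)]⟩,⟨1,[(4,1),(4,1),(6,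
  0),(24,1),(2,0),(0,0),(1,5)]⟩⟩ ⟨false,1,⟨1,[(2,0),(8,0),(5,0),(0,0),(13,0)]⟩,⟨7,[(7,1),(6,0),(14,
  0),(1,5),(1,4),(2,2),(8,2),(1,7)]⟩⟩,.o ⟨false,1,⟨7,[(12,3),(9,1),(5,1),(8,3),(4,0),(6,0)]⟩,⟨0,
  [(33,0),(13,0)]⟩⟩,.o ⟨false,0,⟨2,[(14,0),(16,2),(10,0)]⟩,⟨7,[(2,3),(26,0),(0,0),(1,3),(9,1)]⟩⟩,.o
  ⟨false,0,⟨11,[(14,7),(14,2),(0,2),(0,11),(10,1)]⟩,⟨0,[(2,0)]⟩⟩]⟩) (.R ⟨0,false,false,false,[0,0,0,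
  1],[0,-1,1],[1,1,0,-1,0,0,0,0,1],(⟨0,[(32,0)]⟩,⟨0,[(31,0)]⟩),(⟨0,[(25,0)]⟩,⟨0,[(40,0),(3,0)]⟩),⟨0,
  [(0,0)]⟩,.k,.k,(.r (-1) ⟨5,[(11,1),(18,2),(17,0)]⟩ ⟨4,[(4,2),(5,1),(3,1),(1,0),(12,0),(11,1),(2,
  0),(2,8)]⟩),(.r 0 ⟨3,[(10,1),(2,0),(16,1),(2,1),(11,0),(1,2)]⟩ ⟨14,[(4,8),(12,4),(3,0),(0,1),(4,
  0),(1,2),(18,0)]⟩),.k,.k,⟨false,0,⟨9,[(1,5),(8,1),(2,2),(4,0),(11,1),(2,2),(2,0),(10,6)]⟩,⟨1,[(4,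
  1),(12,0),(27,0),(1,2)]⟩⟩,⟨true,0,⟨2,[(2,0),(6,0),(18,0),(3,1)]⟩,⟨0,[(31,0),(2,0)]⟩⟩,⟨true,0,⟨0,
  [(46,0)]⟩,⟨0,[(47,0)]⟩⟩,⟨false,1,⟨22,[(2,5),(1,10),(1,11),(2,10),(2,4),(4,8),(0,5),(13,4),(12,
  2)]⟩,⟨0,[(7,0),(28,0),(10,0)]⟩⟩,⟨false,0,⟨0,[]⟩,⟨0,[]⟩⟩,⟨false,0,⟨0,[]⟩,⟨0,[]⟩⟩,[.a ⟨true,0,⟨0,
  [(17,0),(0,0),(1,0),(6,0)]⟩,⟨1,[(13,0),(2,0),(24,1),(2,0),(2,2)]⟩⟩ ⟨true,0,⟨0,[(1,0)]⟩,⟨1,[(4,1),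
  (4,1),(6,0),(24,1),(2,0),(0,0),(1,5)]⟩⟩ ⟨false,1,⟨1,[(2,0),(8,0),(5,0),(0,0),(13,0)]⟩,⟨7,[(7,1),
  (6,0),(14,0),(1,5),(1,4),(2,2),(8,2),(1,7)]⟩⟩,.o ⟨false,1,⟨7,[(12,3),(9,1),(5,1),(8,3),(4,0),(6,
  0)]⟩,⟨0,[(33,0),(13,0)]⟩⟩,.o ⟨false,0,⟨2,[(14,0),(16,2),(10,0)]⟩,⟨7,[(2,3),(26,0),(0,0),(1,3),(9,
  1)]⟩⟩,.o ⟨false,0,⟨11,[(14,7),(14,2),(0,2),(0,11),(10,1)]⟩,⟨0,[(2,0)]⟩⟩]⟩)) (.Q [0,0,0,0,0,-1,0,0,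
  0,1,0,-1] (.p false [0,0,0,1] [1] (⟨0,[(31,0)]⟩,⟨0,[(30,0)]⟩) .k 1 (⟨0,[]⟩,⟨0,[]⟩) .k .k) (.R ⟨1,
  false,false,false,[1,0,0,-1],[0,1],[0,1,0,0,0,0,0,0,-1],(⟨0,[(31,0)]⟩,⟨0,[(32,0)]⟩),(⟨0,[(44,0)]⟩,
  ⟨0,[(43,0)]⟩),⟨0,[(0,0)]⟩,.k,.k,(.x (-1) ⟨11,[(5,3),(17,3),(5,4),(0,4),(11,1)]⟩ ⟨0,[(44,0)]⟩),(.x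
  (-1) ⟨11,[(5,3),(17,3),(5,4),(0,4),(11,1)]⟩ ⟨0,[(44,0)]⟩),(.r (-1) ⟨0,[(4,0)]⟩ ⟨11,[(10,7),(18,0),
  (0,6),(3,7),(12,15)]⟩),.k,⟨false,1,⟨2,[(1,0),(2,1),(43,0),(2,3)]⟩,⟨0,[(7,0),(24,0),(14,0)]⟩⟩,
  ⟨true,0,⟨0,[(31,0)]⟩,⟨2,[(14,0),(17,2),(9,0)]⟩⟩,⟨true,0,⟨0,[(51,0)]⟩,⟨0,[]⟩⟩,⟨false,0,⟨0,[(7,0),
  (23,0),(0,0),(14,0)]⟩,⟨11,[(2,6),(1,3),(1,1),(1,0),(5,3),(4,0),(9,2),(2,2)]⟩⟩,⟨false,0,⟨0,[(47,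
  0)]⟩,⟨15,[(10,1),(0,5),(2,1),(14,2),(0,2),(7,1),(10,7)]⟩⟩,⟨false,0,⟨0,[(7,0),(23,0),(0,0),(14,
  1)]⟩,⟨2,[(2,0),(1,0),(1,1),(1,0),(5,0),(4,0)]⟩⟩,[.o ⟨false,0,⟨0,[(47,0)]⟩,⟨35,[(11,11),(2,7),(14,
  8),(0,8),(11,13)]⟩⟩,.e ⟨true,0,⟨0,[(1,0),(44,0)]⟩,⟨2,[(7,0),(1,0),(17,0),(2,0),(1,0),(14,0)]⟩⟩
  ⟨true,0,⟨3,[(1,2),(5,0),(2,0),(19,0),(0,2),(6,0)]⟩,⟨0,[(2,0),(6,0),(17,0)]⟩⟩,.o ⟨false,1,⟨7,[(2,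
  3),(26,0),(0,0),(1,3),(9,1)]⟩,⟨2,[(14,0),(16,2),(10,0)]⟩⟩,.a ⟨true,0,⟨0,[(32,0)]⟩,⟨0,[(31,0)]⟩⟩
  ⟨false,1,⟨1,[(29,0),(18,0)]⟩,⟨0,[(7,0),(24,0)]⟩⟩ ⟨true,0,⟨0,[(31,0),(15,0)]⟩,⟨0,[(2,0),(6,0),(17,
  0)]⟩⟩]⟩) (.R ⟨0,false,false,false,[1,0,0,-1],[0,1],[0,1,0,0,0,0,0,0,-1],(⟨0,[(31,0)]⟩,⟨0,[(32,
  0)]⟩),(⟨0,[(44,0)]⟩,⟨0,[(43,0)]⟩),⟨0,[(0,0)]⟩,.k,.k,(.x (-1) ⟨11,[(5,3),(17,3),(5,4),(0,4),(11,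
  1)]⟩ ⟨0,[(44,0)]⟩),(.x (-1) ⟨11,[(5,3),(17,3),(5,4),(0,4),(11,1)]⟩ ⟨0,[(44,0)]⟩),.k,.k,⟨false,1,
  ⟨2,[(1,0),(2,1),(43,0),(2,3)]⟩,⟨0,[(7,0),(24,0),(14,0)]⟩⟩,⟨true,0,⟨0,[(31,0)]⟩,⟨2,[(14,0),(17,2),
  (9,0)]⟩⟩,⟨true,0,⟨0,[(51,0)]⟩,⟨0,[]⟩⟩,⟨false,0,⟨0,[(7,0),(23,0),(0,0),(14,0)]⟩,⟨11,[(2,6),(1,3),
  (1,1),(1,0),(5,3),(4,0),(9,2),(2,2)]⟩⟩,⟨false,0,⟨0,[]⟩,⟨0,[]⟩⟩,⟨false,0,⟨0,[]⟩,⟨0,[]⟩⟩,[.o ⟨false,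
  0,⟨0,[(47,0)]⟩,⟨35,[(11,11),(2,7),(14,8),(0,8),(11,13)]⟩⟩,.e ⟨true,0,⟨0,[(1,0),(44,0)]⟩,⟨2,[(7,0),
  (1,0),(17,0),(2,0),(1,0),(14,0)]⟩⟩ ⟨true,0,⟨3,[(1,2),(5,0),(2,0),(19,0),(0,2),(6,0)]⟩,⟨7,[(0,4),
  (4,1),(10,0),(1,0),(2,3),(2,3),(7,2)]⟩⟩,.o ⟨false,1,⟨7,[(2,3),(26,0),(0,0),(1,3),(9,1)]⟩,⟨2,[(14,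
  0),(16,2),(10,0)]⟩⟩,.a ⟨true,0,⟨0,[(32,0)]⟩,⟨0,[(31,0)]⟩⟩ ⟨false,1,⟨1,[(29,0),(18,0)]⟩,⟨0,[(7,0),
  (24,0)]⟩⟩ ⟨true,0,⟨0,[(31,0),(15,0)]⟩,⟨7,[(0,4),(4,1),(10,0),(1,0),(2,3),(2,3),(7,2)]⟩⟩]⟩)))))
  (.Q [0,0,2,0,-1,0,0,0,1,0,0,-1] (.p false [0,0,0,1] [] (⟨0,[(28,0)]⟩,⟨0,[(27,0)]⟩) .k 0 (⟨0,[]⟩,
  ⟨0,[]⟩) .k .k) (.I [0,0,-1,0,1,0,0,1,-1] (.Q [0,0,0,1,0,0,1,1,0,1,-1,-1] (.p false [0,0,1] [1,0,0,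
  -1] (⟨0,[(39,0)]⟩,⟨0,[(38,0)]⟩) .k 2 (⟨0,[(29,0)]⟩,⟨0,[(30,0)]⟩) .k (.x 0 ⟨0,[(35,0),(3,0)]⟩ ⟨7,
  [(14,3),(12,0),(0,0),(13,3),(3,5)]⟩)) (.R ⟨1,false,false,false,[1,0,0,-1],[0,1,1],[0,0,0,0,0,0,0,
  0,-1],(⟨0,[(30,0)]⟩,⟨0,[(31,0)]⟩),(⟨0,[(40,0),(2,0)]⟩,⟨0,[(22,0)]⟩),⟨4,[(0,2),(3,1),(7,0),(2,0),
  (3,0),(6,0),(3,1)]⟩,.k,.k,(.x (-1) ⟨11,[(4,3),(17,3),(5,4),(0,4),(11,1)]⟩ ⟨0,[(43,0)]⟩),(.r (-1)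
  ⟨23,[(10,3),(1,11),(15,14),(0,2),(17,1)]⟩ ⟨11,[(3,5),(6,1),(5,5),(12,2),(17,0)]⟩),(.x 0 ⟨12,[(4,
  6),(3,1),(6,7),(6,3),(13,0),(4,1)]⟩ ⟨7,[(14,3),(13,2),(0,2),(13,11),(3,1)]⟩),.k,⟨false,1,⟨0,[(1,
  0),(10,0)]⟩,⟨11,[(3,5),(6,1),(5,5),(12,2),(17,0)]⟩⟩,⟨true,0,⟨28,[(0,11),(7,4),(1,1),(1,5),(14,5),
  (2,16),(10,2)]⟩,⟨0,[(31,0),(1,0)]⟩⟩,⟨false,1,⟨3,[(28,0),(0,0),(18,1)]⟩,⟨0,[]⟩⟩,⟨false,0,⟨15,[(0,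
  10),(2,6),(2,2),(2,0),(1,4),(5,1),(11,2),(0,1),(13,3)]⟩,⟨0,[(5,0),(17,0)]⟩⟩,⟨true,0,⟨0,[(46,0)]⟩,
  ⟨0,[(45,0)]⟩⟩,⟨false,0,⟨3,[(0,3),(2,1),(25,0),(14,1),(2,0)]⟩,⟨0,[(5,0),(12,0)]⟩⟩,[.e ⟨false,1,⟨1,
  [(28,0),(18,0)]⟩,⟨2,[(3,2),(6,1),(36,0)]⟩⟩ ⟨false,0,⟨0,[(0,0)]⟩,⟨1,[(23,1),(7,1),(15,0),(0,0)]⟩⟩,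
  .o ⟨false,1,⟨13,[(0,5),(2,3),(1,5),(11,1),(3,3),(5,1),(1,0),(11,4),(6,1)]⟩,⟨0,[(23,0)]⟩⟩,.o
  ⟨false,1,⟨1,[(31,1),(9,0),(5,0)]⟩,⟨3,[(2,1),(25,0),(1,1),(10,0)]⟩⟩,.a ⟨true,0,⟨0,[(31,0)]⟩,⟨0,
  [(30,0)]⟩⟩ ⟨false,1,⟨1,[(1,1),(10,0),(31,0),(1,0)]⟩,⟨16,[(2,2),(6,1),(3,1),(12,1),(2,6),(1,2),(12,
  0)]⟩⟩ ⟨true,0,⟨0,[(0,0)]⟩,⟨0,[(23,0),(7,0)]⟩⟩]⟩) (.I [0,-1,0,0,0,0,0,0,1] (.R ⟨1,false,false,true,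
  [0,0,0,1],[1,0,-1],[0,0,0,0,0,0,0,0,1],(⟨0,[(32,0)]⟩,⟨0,[(31,0)]⟩),(⟨0,[(40,0)]⟩,⟨0,[(41,0)]⟩),⟨4,
  [(1,1),(3,1),(10,0),(0,0),(0,1),(13,2),(14,0)]⟩,.k,.k,(.r (-1) ⟨5,[(11,1),(18,2),(17,0)]⟩ ⟨0,[(1,
  0),(0,0),(6,0),(21,0),(15,1)]⟩),.k,(.r (-1) ⟨29,[(0,11),(10,9),(5,11),(3,5),(5,5),(2,8),(17,10)]⟩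
  ⟨3,[(10,1),(2,0),(15,1),(3,1),(11,0),(1,2)]⟩),.k,⟨false,1,⟨23,[(0,17),(10,1),(5,5),(4,5),(7,2),
  (17,12)]⟩,⟨0,[(2,0),(6,0),(3,0),(13,0),(19,1)]⟩⟩,⟨true,1,⟨9,[(1,6),(2,0),(1,2),(10,4),(12,0),(2,
  2),(14,6)]⟩,⟨0,[(9,0),(21,0)]⟩⟩,⟨false,1,⟨3,[(29,0),(0,0),(18,1)]⟩,⟨0,[]⟩⟩,⟨false,1,⟨0,[(6,0),(26,
  0)]⟩,⟨49,[(0,10),(2,19),(3,10),(2,11),(1,5),(5,18),(3,21),(7,3),(0,18)]⟩⟩,⟨true,0,⟨0,[(47,0)]⟩,⟨0,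
  [(46,0)]⟩⟩,⟨false,1,⟨0,[(6,0),(26,0),(13,0)]⟩,⟨24,[(0,1),(2,14),(3,1),(2,8),(1,16),(5,7),(3,3),(7,
  2),(0,7)]⟩⟩,[.o ⟨false,0,⟨0,[(33,0)]⟩,⟨3,[(22,1),(5,1),(13,0),(6,0)]⟩⟩,.a ⟨true,0,⟨0,[(1,0),(29,
  0),(15,0)]⟩,⟨7,[(15,0),(1,3),(0,4),(8,3),(12,1),(2,0),(1,1)]⟩⟩ ⟨true,0,⟨0,[(0,0)]⟩,⟨4,[(2,0),(6,
  0),(0,1),(16,1),(1,1),(3,1),(1,0)]⟩⟩ ⟨false,1,⟨0,[(1,0),(45,0),(0,0)]⟩,⟨10,[(7,1),(1,1),(7,2),(3,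
  2),(0,0),(5,1),(0,0),(1,8),(5,1)]⟩⟩,.o ⟨false,0,⟨3,[(3,1),(25,0),(1,1),(10,0)]⟩,⟨1,[(32,1),(9,0),
  (5,0)]⟩⟩,.e ⟨false,1,⟨3,[(0,1),(29,0),(17,1),(0,0)]⟩,⟨0,[(1,0),(0,0),(6,0),(21,0),(15,0)]⟩⟩
  ⟨false,1,⟨0,[(1,0),(45,0),(0,0)]⟩,⟨36,[(7,19),(0,2),(0,11),(0,17),(1,5),(9,13),(5,1),(0,9),(1,
  16)]⟩⟩]⟩) (.R ⟨1,false,false,true,[0,0,0,1],[0,0,1],[1,1,0,-1,0,0,0,0,1],(⟨0,[(32,0)]⟩,⟨0,[(31,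
  0)]⟩),(⟨0,[(41,0)]⟩,⟨0,[(40,0)]⟩),⟨4,[(1,1),(3,1),(10,0),(0,0),(0,1),(13,2),(14,0)]⟩,.k,.k,(.r
  (-1) ⟨5,[(11,1),(18,2),(17,0)]⟩ ⟨2,[(0,1),(3,0),(24,0),(15,0),(1,0)]⟩),.k,(.r (-1) ⟨23,[(11,3),(1,
  11),(15,2),(0,14),(17,1)]⟩ ⟨1,[(0,1),(16,0),(27,0),(1,0)]⟩),.k,⟨true,0,⟨7,[(3,2),(0,0),(6,1),(1,
  3),(16,1),(1,2)]⟩,⟨1,[(0,1),(16,0),(27,0),(1,0)]⟩⟩,⟨false,1,⟨3,[(18,1),(13,3),(9,0),(5,2)]⟩,⟨0,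
  [(31,0),(2,0)]⟩⟩,⟨true,0,⟨0,[(46,0)]⟩,⟨0,[(47,0)]⟩⟩,⟨false,1,⟨0,[(6,0),(28,0)]⟩,⟨2,[(1,1),(2,0),
  (2,1),(23,2),(1,0),(11,0),(2,0)]⟩⟩,⟨false,0,⟨0,[]⟩,⟨3,[(29,0),(0,0),(18,1)]⟩⟩,⟨false,1,⟨0,[(6,0),
  (28,0),(11,0)]⟩,⟨0,[(1,0),(5,0),(23,0)]⟩⟩,[.o ⟨false,0,⟨0,[(35,0)]⟩,⟨0,[(33,0),(15,0)]⟩⟩,.a ⟨true,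
  0,⟨7,[(15,0),(1,3),(0,4),(8,3),(12,1),(2,0),(1,1)]⟩,⟨0,[(1,0),(29,0),(15,0)]⟩⟩ ⟨true,0,⟨0,[(4,0),
  (6,0)]⟩,⟨2,[(0,1),(3,0),(24,0),(15,0),(1,0)]⟩⟩ ⟨false,1,⟨0,[(1,0),(15,0),(0,0),(29,0)]⟩,⟨7,[(7,1),
  (6,0),(14,0),(1,5),(1,4),(2,2),(8,2)]⟩⟩,.o ⟨false,0,⟨3,[(3,1),(25,0),(1,1),(10,0)]⟩,⟨1,[(32,1),(9,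
  0),(5,0)]⟩⟩,.e ⟨false,1,⟨5,[(11,1),(18,2),(17,0)]⟩,⟨0,[(0,0),(44,0),(1,0)]⟩⟩ ⟨false,1,⟨0,[(1,0),
  (15,0),(0,0),(29,0)]⟩,⟨3,[(7,1),(6,0),(14,0),(1,1),(1,0),(2,2),(8,2)]⟩⟩]⟩))) (.I [0,0,1,2,0,0,0,0,
  -1] (.Q [0,1,1,0,-1,0,0,0,1,1,0,-1] (.p false [0,0,0,1] [1] (⟨0,[(31,0)]⟩,⟨0,[(30,0)]⟩) .k 1 (⟨0,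
  []⟩,⟨0,[]⟩) .k .k) (.R ⟨1,false,false,false,[1,-1],[1,0,0,-1],[1,0,-1,-2],(⟨0,[(43,0)]⟩,⟨0,[(44,
  0)]⟩),(⟨0,[(31,0)]⟩,⟨0,[(32,0)]⟩),⟨1,[(5,0),(17,0),(19,0)]⟩,.k,.k,(.r (-1) ⟨2,[(11,1),(36,0)]⟩
  ⟨34,[(1,29),(2,1),(5,5),(3,5),(15,13),(7,5)]⟩),(.x 0 ⟨23,[(5,3),(8,13),(1,1),(12,6),(0,6),(6,3),
  (5,13)]⟩ ⟨0,[(44,0),(3,0)]⟩),(.r (-1) ⟨17,[(2,11),(8,13),(5,5),(12,2),(17,12)]⟩ ⟨43,[(1,39),(8,7),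
  (3,7),(14,8),(0,6),(7,7)]⟩),.k,⟨false,1,⟨17,[(2,11),(8,13),(5,5),(12,2),(17,12)]⟩,⟨0,[(1,0)]⟩⟩,
  ⟨true,1,⟨0,[(32,0),(15,0)]⟩,⟨0,[(14,0),(16,0)]⟩⟩,⟨false,1,⟨15,[(10,1),(0,5),(2,1),(14,2),(0,2),(7,
  1),(10,7)]⟩,⟨0,[(47,0)]⟩⟩,⟨false,1,⟨0,[(6,0),(40,0)]⟩,⟨15,[(3,3),(3,7),(0,3),(10,3),(9,0),(0,2),
  (0,3)]⟩⟩,⟨true,0,⟨0,[]⟩,⟨0,[(51,0)]⟩⟩,⟨false,1,⟨0,[(6,0),(40,1)]⟩,⟨29,[(0,6),(6,12),(0,2),(2,15),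
  (2,13),(4,2),(10,4),(0,9)]⟩⟩,[.e ⟨false,1,⟨2,[(11,1),(36,0)]⟩,⟨5,[(1,3),(2,1),(25,0),(17,0)]⟩⟩
  ⟨false,2,⟨0,[(6,0),(41,0),(2,0)]⟩,⟨0,[(3,0)]⟩⟩,.a ⟨true,1,⟨0,[(6,0)]⟩,⟨0,[(0,0)]⟩⟩ ⟨true,1,⟨21,
  [(10,0),(0,14),(2,0),(23,0),(6,1),(3,8)]⟩,⟨0,[(9,0),(17,0),(19,2)]⟩⟩ ⟨false,2,⟨0,[(6,0),(41,0)]⟩,
  ⟨2,[(0,2),(13,0),(27,0)]⟩⟩,.o ⟨false,0,⟨2,[(14,0),(27,0)]⟩,⟨3,[(29,0),(0,0),(17,1)]⟩⟩,.o ⟨false,0,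
  ⟨11,[(14,7),(14,2),(0,2),(11,1)]⟩,⟨0,[(48,0)]⟩⟩]⟩) (.R ⟨1,false,false,true,[0,0,0,1],[0,-1,1],[1,
  0,0,-1,0,0,0,0,1],(⟨0,[(32,0)]⟩,⟨0,[(31,0)]⟩),(⟨0,[(25,0)]⟩,⟨0,[(40,0),(3,0)]⟩),⟨4,[(0,1),(1,1),
  (2,1),(10,0),(0,0),(0,1),(8,1),(4,2),(14,0)]⟩,.k,.k,(.r (-1) ⟨5,[(11,1),(18,2),(17,0)]⟩ ⟨2,[(0,0),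
  (0,1),(7,0),(17,0),(3,0)]⟩),(.r 1 ⟨0,[(2,0),(44,0)]⟩ ⟨9,[(11,1),(9,1),(0,3),(4,1),(1,7),(0,2),(17,
  2)]⟩),.k,.k,⟨false,0,⟨1,[(2,1),(45,0),(0,0)]⟩,⟨0,[(0,0),(26,0),(3,0),(3,0),(11,0)]⟩⟩,⟨true,0,⟨4,
  [(9,0),(8,1),(13,4),(9,0)]⟩,⟨0,[(31,0),(2,0)]⟩⟩,⟨false,1,⟨15,[(10,1),(0,5),(2,1),(14,2),(0,2),(7,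
  1),(10,7)]⟩,⟨0,[(47,0)]⟩⟩,⟨false,1,⟨0,[(6,0),(14,0)]⟩,⟨3,[(2,0),(1,1),(2,0),(23,2),(1,1),(0,0),(1,
  0),(8,2),(2,2)]⟩⟩,⟨true,0,⟨0,[]⟩,⟨0,[(51,0)]⟩⟩,⟨false,1,⟨0,[(6,0),(28,0)]⟩,⟨1,[(2,0),(4,0),(23,0),
  (2,0),(1,0),(8,0),(2,0)]⟩⟩,[.o ⟨false,0,⟨0,[(21,0)]⟩,⟨0,[(33,0),(13,0),(1,0)]⟩⟩,.a ⟨true,0,⟨0,
  [(17,0),(0,0),(1,0),(6,0)]⟩,⟨1,[(13,0),(2,0),(24,1),(2,0),(2,2)]⟩⟩ ⟨true,0,⟨4,[(2,4),(9,2),(4,0),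
  (27,0),(2,1)]⟩,⟨0,[(1,0),(44,0)]⟩⟩ ⟨false,1,⟨2,[(0,2),(1,2),(8,0),(5,2),(0,2),(8,2),(20,1)]⟩,⟨2,
  [(1,0),(5,0),(23,1),(1,1),(2,0),(8,0),(1,0)]⟩⟩,.o ⟨false,0,⟨3,[(3,1),(25,0),(1,1),(10,0)]⟩,⟨1,
  [(32,1),(9,0),(5,0)]⟩⟩,.e ⟨false,1,⟨3,[(2,1),(9,1),(17,0),(17,1),(0,0)]⟩,⟨2,[(0,0),(0,1),(7,0),
  (17,0),(3,0)]⟩⟩ ⟨false,1,⟨2,[(0,2),(1,2),(8,0),(5,2),(0,2),(8,2),(20,1)]⟩,⟨2,[(1,1),(5,1),(16,0),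
  (6,0),(4,1),(8,1)]⟩⟩]⟩)) (.Q [0,0,-1,0,1,0,0,0,-1,-1,0,1] (.p true [0,0,0,1] [1] (⟨0,[(31,0)]⟩,⟨0,
  [(30,0)]⟩) .k 1 (⟨0,[]⟩,⟨0,[]⟩) .k .k) (.Q [0,0,0,0,0,-1,0,0,0,0,0,1] (.p true [0,0,0,1] [] (⟨0,
  [(32,0)]⟩,⟨0,[(31,0)]⟩) .k 0 (⟨0,[]⟩,⟨0,[]⟩) .k .k) (.R ⟨1,false,false,false,[0,0,0,1],[1,0,0,-1],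
  [0,0,0,0,0,0,0,0,1],(⟨0,[(33,0)]⟩,⟨0,[(32,0)]⟩),(⟨0,[(32,0)]⟩,⟨0,[(33,0)]⟩),⟨0,[(0,0)]⟩,.k,.k,(.r
  0 ⟨0,[(2,0),(45,0)]⟩ ⟨7,[(5,3),(24,8),(0,2)]⟩),.k,(.r 0 ⟨11,[(2,13),(2,7),(25,0),(17,6)]⟩ ⟨7,[(5,
  3),(24,10),(0,0)]⟩),.k,⟨false,0,⟨0,[(2,0),(2,0),(43,0)]⟩,⟨0,[(30,0)]⟩⟩,⟨true,1,⟨0,[(1,0),(0,0),
  (30,0),(14,1)]⟩,⟨0,[(15,0),(16,1)]⟩⟩,⟨false,1,⟨3,[(30,0),(0,0),(18,1)]⟩,⟨0,[]⟩⟩,⟨false,2,⟨0,[(1,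
  0),(5,0)]⟩,⟨5,[(2,1),(1,5),(0,1),(25,0),(0,5),(16,0)]⟩⟩,⟨true,0,⟨0,[(48,0)]⟩,⟨0,[(47,0)]⟩⟩,⟨false,
  2,⟨0,[(1,0),(5,0),(40,0)]⟩,⟨25,[(2,12),(1,28),(6,2),(0,0),(18,4),(0,22),(6,2)]⟩⟩,[.o ⟨false,1,⟨0,
  [(1,0)]⟩,⟨3,[(4,1),(26,0),(0,1),(10,0)]⟩⟩,.a ⟨true,1,⟨0,[(7,0)]⟩,⟨0,[(2,0),(7,0),(17,0),(3,0),(15,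
  2)]⟩⟩ ⟨true,0,⟨1,[(2,0),(2,0),(40,0),(2,0)]⟩,⟨3,[(10,0),(0,0),(16,1),(1,1),(3,0),(1,0),(11,0)]⟩⟩
  ⟨false,2,⟨0,[(1,0),(0,0),(4,0),(40,1)]⟩,⟨0,[(4,0),(27,0),(19,0)]⟩⟩,.o ⟨false,0,⟨3,[(4,1),(25,0),
  (1,1),(10,0)]⟩,⟨5,[(1,5),(0,1),(2,1),(25,0),(17,0)]⟩⟩,.o ⟨false,0,⟨3,[(4,3),(25,2),(0,0)]⟩,⟨0,[(1,
  0),(0,0),(45,1)]⟩⟩]⟩) (.R ⟨0,false,false,false,[0,0,0,1],[1,0,0,-1],[1,0,0,0,0,0,0,0,1],(⟨0,[(33,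
  0)]⟩,⟨0,[(32,0)]⟩),(⟨0,[(32,0)]⟩,⟨0,[(33,0)]⟩),⟨0,[(0,0)]⟩,.k,.k,(.r 0 ⟨0,[(2,0),(45,0)]⟩ ⟨7,[(5,
  3),(24,8),(0,2)]⟩),.k,.k,.k,⟨false,0,⟨0,[(2,0),(2,0),(43,0)]⟩,⟨0,[(30,0)]⟩⟩,⟨true,1,⟨0,[(1,0),(0,
  0),(30,0),(14,1)]⟩,⟨0,[(15,0),(16,1)]⟩⟩,⟨true,0,⟨0,[]⟩,⟨0,[(52,0)]⟩⟩,⟨false,2,⟨0,[(1,0),(5,0)]⟩,
  ⟨5,[(2,1),(1,5),(0,1),(25,0),(0,5),(16,0)]⟩⟩,⟨false,0,⟨0,[]⟩,⟨0,[]⟩⟩,⟨false,0,⟨0,[]⟩,⟨0,[]⟩⟩,[.o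
  ⟨false,1,⟨0,[(1,0)]⟩,⟨3,[(4,1),(26,0),(0,1),(10,0)]⟩⟩,.a ⟨true,1,⟨0,[(7,0)]⟩,⟨7,[(0,4),(2,7),(2,
  1),(10,0),(0,3),(0,4),(8,7),(3,2),(15,3)]⟩⟩ ⟨true,0,⟨1,[(2,0),(2,0),(40,0),(2,0)]⟩,⟨3,[(10,0),(0,
  0),(16,1),(1,1),(3,0),(1,0),(11,0)]⟩⟩ ⟨false,2,⟨0,[(1,0),(0,0),(4,0),(40,1)]⟩,⟨0,[(4,0),(27,0),
  (19,0)]⟩⟩,.o ⟨false,0,⟨3,[(4,1),(25,0),(1,1),(10,0)]⟩,⟨5,[(1,5),(0,1),(2,1),(25,0),(17,0)]⟩⟩,.o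
  ⟨false,0,⟨3,[(4,3),(25,2),(0,0)]⟩,⟨0,[(1,0),(0,0),(45,1)]⟩⟩]⟩)) (.R ⟨2,false,false,false,[0,1],[0,
  0,0,1],[1,1,1],(⟨0,[]⟩,⟨0,[]⟩),(⟨0,[(32,0)]⟩,⟨0,[(31,0)]⟩),⟨0,[]⟩,.k,.k,.k,(.r (-1) ⟨7,[(4,3),(24,
  8),(0,2)]⟩ ⟨0,[(1,0),(45,0)]⟩),.k,.k,⟨true,0,⟨3,[(9,0),(0,0),(16,1),(1,1),(3,0),(1,0),(11,0)]⟩,⟨1,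
  [(1,0),(2,0),(40,0),(2,0)]⟩⟩,⟨false,0,⟨3,[(3,1),(25,0),(1,1),(10,0)]⟩,⟨0,[(32,0),(15,0)]⟩⟩,⟨true,
  0,⟨0,[(46,0)]⟩,⟨0,[(47,0)]⟩⟩,⟨false,0,⟨8,[(0,1),(6,6),(3,2),(2,1),(34,0)]⟩,⟨0,[(6,0),(40,0),(3,
  0)]⟩⟩,⟨false,0,⟨0,[]⟩,⟨3,[(29,0),(0,0),(18,1)]⟩⟩,⟨false,0,⟨0,[(7,0)]⟩,⟨0,[(6,0),(44,0)]⟩⟩,[.a
  ⟨true,(-1),⟨0,[(0,0)]⟩,⟨0,[(6,0),(44,0)]⟩⟩ ⟨false,0,⟨0,[(51,0)]⟩,⟨1,[(48,0),(0,0)]⟩⟩ ⟨true,(-1),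
  ⟨0,[(3,0)]⟩,⟨0,[(6,0),(44,0)]⟩⟩,.o ⟨false,0,⟨0,[(7,0)]⟩,⟨0,[(6,0),(26,0),(1,0)]⟩⟩,.o ⟨false,1,⟨3,
  [(29,0),(0,0),(17,1)]⟩,⟨2,[(14,0),(27,0)]⟩⟩,.e ⟨false,0,⟨0,[]⟩,⟨3,[(29,0),(0,0),(18,1)]⟩⟩ ⟨false,
  0,⟨0,[(7,0)]⟩,⟨0,[(6,0),(44,0)]⟩⟩]⟩)))) (.I [0,-1,0,0,0,0,0,0,1] (.Q [0,0,0,0,0,-1,0,0,0,0,0,1]
  (.p true [0,0,0,1] [] (⟨0,[(30,0)]⟩,⟨0,[(29,0)]⟩) .k 0 (⟨0,[]⟩,⟨0,[]⟩) .k .k) (.R ⟨1,false,false,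
  true,[0,0,0,1],[1,0,-1],[0,0,0,0,0,0,0,0,1],(⟨0,[(31,0)]⟩,⟨0,[(30,0)]⟩),(⟨0,[(39,0)]⟩,⟨0,[(40,
  0)]⟩),⟨0,[(0,0)]⟩,.k,.k,(.r (-1) ⟨5,[(10,1),(18,2),(17,0)]⟩ ⟨0,[(2,0),(10,0),(16,0),(15,0)]⟩),.k,
  (.r (-1) ⟨29,[(1,11),(8,9),(5,11),(3,5),(5,5),(2,8),(17,10)]⟩ ⟨3,[(9,1),(2,0),(15,1),(3,1),(11,0),
  (1,2)]⟩),.k,⟨false,1,⟨23,[(1,17),(8,1),(5,5),(4,5),(7,2),(17,12)]⟩,⟨0,[(2,0),(5,0),(21,0),(1,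
  0)]⟩⟩,⟨true,1,⟨0,[(31,0),(1,0),(13,0)]⟩,⟨0,[(8,0),(21,0)]⟩⟩,⟨false,1,⟨3,[(28,0),(0,0),(18,1)]⟩,⟨0,
  []⟩⟩,⟨false,1,⟨0,[(5,0),(26,0)]⟩,⟨75,[(1,30),(4,40),(0,15),(1,21),(6,9),(0,18),(3,19),(7,1),(0,
  34)]⟩⟩,⟨true,0,⟨0,[(46,0)]⟩,⟨0,[(45,0)]⟩⟩,⟨false,1,⟨0,[(5,0),(26,0),(13,0)]⟩,⟨13,[(1,6),(4,6),(0,
  5),(1,5),(1,3),(5,0),(3,1),(8,6)]⟩⟩,[.o ⟨false,0,⟨0,[(32,0)]⟩,⟨3,[(21,1),(5,1),(13,0),(6,0)]⟩⟩,.a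
  ⟨true,0,⟨1,[(12,0),(2,0),(24,1),(2,0),(2,0)]⟩,⟨7,[(14,0),(1,3),(0,4),(8,3),(12,1),(2,0),(1,1)]⟩⟩
  ⟨true,0,⟨0,[(1,0)]⟩,⟨12,[(2,0),(5,2),(0,3),(6,0),(9,4),(1,5),(1,0),(1,4),(1,2)]⟩⟩ ⟨false,1,⟨0,[(1,
  0),(0,0),(29,0)]⟩,⟨10,[(6,1),(1,1),(7,2),(3,2),(0,0),(5,1),(0,0),(1,8),(5,1)]⟩⟩,.o ⟨false,0,⟨2,
  [(13,0),(16,2),(10,0)]⟩,⟨1,[(31,1),(9,0),(5,0)]⟩⟩,.e ⟨false,1,⟨3,[(1,1),(27,0),(17,1),(0,0)]⟩,⟨0,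
  [(2,0),(10,0),(16,0)]⟩⟩ ⟨false,1,⟨0,[(1,0),(0,0),(29,0)]⟩,⟨36,[(6,19),(0,2),(0,11),(0,17),(1,5),
  (9,13),(5,1),(0,9),(1,16)]⟩⟩]⟩) (.R ⟨0,false,false,true,[0,0,0,1],[1,0,-1],[0,1,0,-1,0,0,0,0,1],
  (⟨0,[(31,0)]⟩,⟨0,[(30,0)]⟩),(⟨0,[(39,0)]⟩,⟨0,[(40,0)]⟩),⟨0,[(0,0)]⟩,.k,.k,(.r (-1) ⟨5,[(10,1),(18,
  2),(17,0)]⟩ ⟨4,[(0,2),(1,2),(1,0),(4,1),(3,1),(1,0),(12,0),(11,0),(5,2)]⟩),.k,.k,.k,⟨false,1,⟨29,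
  [(1,11),(8,9),(5,11),(3,5),(5,5),(2,8),(17,10)]⟩,⟨3,[(0,3),(1,3),(1,0),(3,3),(3,1),(2,1),(24,2),
  (5,5)]⟩⟩,⟨true,1,⟨0,[(31,0),(1,0),(13,0)]⟩,⟨0,[(8,0),(21,0)]⟩⟩,⟨true,0,⟨0,[(45,0)]⟩,⟨0,[(46,0)]⟩⟩,
  ⟨false,1,⟨0,[(5,0),(26,0)]⟩,⟨75,[(1,30),(4,40),(0,15),(1,21),(6,9),(0,18),(3,19),(7,1),(0,34)]⟩⟩,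
  ⟨false,0,⟨0,[]⟩,⟨0,[]⟩⟩,⟨false,0,⟨0,[]⟩,⟨0,[]⟩⟩,[.o ⟨false,0,⟨0,[(32,0)]⟩,⟨3,[(21,1),(5,1),(13,0),
  (6,0)]⟩⟩,.a ⟨true,0,⟨3,[(0,0),(1,0),(0,0),(8,1),(2,1),(24,3),(2,0)]⟩,⟨7,[(14,0),(1,3),(0,4),(8,3),
  (12,1),(2,0),(1,1)]⟩⟩ ⟨true,0,⟨21,[(1,15),(1,1),(3,6),(4,3),(13,7),(2,1),(4,0)]⟩,⟨4,[(0,2),(1,2),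
  (1,0),(4,1),(3,1),(1,0),(12,0),(11,0),(5,2)]⟩⟩ ⟨false,1,⟨0,[(1,0),(0,0),(29,0)]⟩,⟨10,[(6,1),(1,1),
  (7,2),(3,2),(0,0),(5,1),(0,0),(1,8),(5,1)]⟩⟩,.o ⟨false,0,⟨2,[(13,0),(16,2),(10,0)]⟩,⟨1,[(31,1),(9,
  0),(5,0)]⟩⟩,.e ⟨false,1,⟨5,[(10,1),(18,2),(17,0)]⟩,⟨3,[(0,3),(1,3),(1,0),(3,3),(6,1),(24,2),(3,1),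
  (1,3)]⟩⟩ ⟨false,1,⟨0,[(1,0),(0,0),(29,0)]⟩,⟨36,[(6,19),(0,2),(0,11),(0,17),(1,5),(9,13),(5,1),(0,
  9),(1,16)]⟩⟩]⟩)) (.Q [0,0,0,1,0,0,1,1,0,0,-1,1] (.p false [0,0,1] [0,0,0,1] (⟨0,[(39,0)]⟩,⟨0,[(38,
  0)]⟩) .k 2 (⟨0,[(30,0)]⟩,⟨0,[(29,0)]⟩) .k (.r (-1) ⟨13,[(15,1),(4,3),(4,1),(1,7),(0,0),(4,1),(12,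
  0)]⟩ ⟨11,[(2,5),(6,1),(1,5),(16,2),(17,0)]⟩)) (.R ⟨1,false,false,true,[0,0,0,1],[0,0,1],[1,1,0,-1,
  0,0,0,0,1],(⟨0,[(31,0)]⟩,⟨0,[(30,0)]⟩),(⟨0,[(40,0)]⟩,⟨0,[(39,0)]⟩),⟨4,[(0,2),(3,1),(7,0),(2,0),(3,
  0),(6,0),(4,1)]⟩,.k,.k,(.r (-1) ⟨5,[(10,1),(18,2),(17,0)]⟩ ⟨2,[(1,1),(1,0),(24,0),(15,0),(1,0)]⟩),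
  .k,(.r (-1) ⟨23,[(10,3),(1,11),(15,2),(0,14),(17,1)]⟩ ⟨1,[(1,1),(14,0),(27,0),(1,0)]⟩),.k,⟨true,0,
  ⟨25,[(3,15),(5,2),(0,13),(1,9),(5,2),(0,2),(9,4)]⟩,⟨1,[(1,1),(14,0),(27,0),(1,0)]⟩⟩,⟨false,1,⟨35,
  [(0,23),(1,11),(7,3),(1,11),(4,5),(11,5),(11,2),(5,10)]⟩,⟨0,[(30,0),(2,0)]⟩⟩,⟨true,0,⟨0,[(45,0)]⟩,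
  ⟨0,[(46,0)]⟩⟩,⟨false,1,⟨15,[(0,5),(1,5),(2,3),(14,5),(0,1),(5,1),(0,2),(12,0)]⟩,⟨4,[(3,0),(2,3),
  (5,1),(2,1),(14,0),(1,0),(7,3),(2,1),(0,0),(2,0)]⟩⟩,⟨false,0,⟨0,[]⟩,⟨3,[(28,0),(0,0),(18,1)]⟩⟩,
  ⟨false,1,⟨1,[(0,1),(27,0),(18,0)]⟩,⟨3,[(6,3),(5,1),(2,0),(10,1),(13,1),(2,0),(0,0)]⟩⟩,[.o ⟨false,
  0,⟨0,[(34,0)]⟩,⟨0,[(32,0),(15,0)]⟩⟩,.a ⟨true,0,⟨7,[(14,0),(1,3),(0,4),(8,3),(12,1),(2,0),(1,1)]⟩,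
  ⟨1,[(12,0),(2,0),(24,1),(2,0),(2,0)]⟩⟩ ⟨true,0,⟨0,[(3,0),(6,0)]⟩,⟨2,[(1,1),(1,0),(24,0),(15,0),(1,
  0)]⟩⟩ ⟨false,1,⟨2,[(0,2),(9,0),(36,1)]⟩,⟨7,[(6,1),(6,0),(14,0),(1,5),(1,4),(2,2),(8,2)]⟩⟩,.o
  ⟨false,0,⟨2,[(13,0),(16,2),(10,0)]⟩,⟨1,[(31,1),(9,0),(5,0)]⟩⟩,.e ⟨false,1,⟨5,[(10,1),(18,2),(17,
  0)]⟩,⟨0,[(1,0),(42,0),(1,0)]⟩⟩ ⟨false,1,⟨2,[(0,2),(9,0),(36,1)]⟩,⟨3,[(6,1),(6,0),(14,0),(1,1),(1,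
  0),(2,2),(8,2)]⟩⟩]⟩) (.R ⟨1,false,false,true,[1,0,0,-1],[1,-1],[0,0,0,0,0,0,0,0,-1],(⟨0,[(30,0)]⟩,
  ⟨0,[(31,0)]⟩),(⟨0,[(42,0)]⟩,⟨0,[(43,0)]⟩),⟨4,[(0,1),(3,1),(10,0),(0,0),(0,1),(12,2),(15,0)]⟩,.k,
  .k,(.x (-1) ⟨11,[(4,3),(17,3),(5,4),(0,4),(11,1)]⟩ ⟨0,[(43,0)]⟩),(.r 0 ⟨2,[(1,1),(1,0),(24,0),(15,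
  0),(1,0)]⟩ ⟨5,[(10,1),(18,2),(17,0)]⟩),.k,.k,⟨true,0,⟨0,[(1,0),(42,0),(1,0)]⟩,⟨7,[(3,5),(6,3),(6,
  1),(2,1),(2,1),(2,3),(2,0),(17,0)]⟩⟩,⟨false,0,⟨2,[(13,0),(16,2),(10,0)]⟩,⟨0,[(31,0),(15,0)]⟩⟩,
  ⟨false,1,⟨3,[(28,0),(0,0),(18,1)]⟩,⟨0,[]⟩⟩,⟨false,0,⟨8,[(0,3),(2,0),(2,3),(0,2),(5,0),(6,0),(8,1),
  (0,0)]⟩,⟨0,[(5,0),(40,0)]⟩⟩,⟨true,0,⟨0,[(46,0)]⟩,⟨0,[(45,0)]⟩⟩,⟨false,0,⟨5,[(0,1),(2,1),(2,1),(13,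
  1),(8,0),(0,1),(10,0)]⟩,⟨0,[(5,0)]⟩⟩,[.e ⟨false,1,⟨1,[(28,0),(18,0)]⟩,⟨2,[(3,2),(6,1),(36,0)]⟩⟩
  ⟨false,0,⟨0,[(0,0),(33,0)]⟩,⟨3,[(3,1),(1,1),(25,1),(15,2),(0,0)]⟩⟩,.o ⟨false,1,⟨35,[(10,11),(2,7),
  (14,8),(0,8),(11,13)]⟩,⟨0,[(46,0)]⟩⟩,.o ⟨false,1,⟨1,[(31,1),(9,0),(5,0)]⟩,⟨2,[(13,0),(16,2),(10,
  0)]⟩⟩,.a ⟨true,0,⟨0,[(31,0)]⟩,⟨0,[(30,0)]⟩⟩ ⟨false,1,⟨0,[(1,0),(42,0),(2,0)]⟩,⟨6,[(3,0),(4,1),(17,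
  1),(2,2),(14,0)]⟩⟩ ⟨true,0,⟨0,[(0,0),(33,0)]⟩,⟨1,[(2,0),(0,0),(27,0)]⟩⟩]⟩)))))) (.K ⟨0,[0,0,0,1],
  0,(-1),(⟨0,[(26,0)]⟩,⟨0,[(25,0)]⟩),.k,(.x 0 ⟨11,[(8,5),(1,1),(8,3),(3,2),(0,2),(6,3),(5,5)]⟩ ⟨0,
  [(38,0),(3,0)]⟩),(.x 0 ⟨0,[(38,0)]⟩ ⟨7,[(17,3),(1,3),(3,2),(0,2),(11,1)]⟩),.k,.k,[⟨0,[(26,0)]⟩,⟨0,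
  [(25,0)]⟩,⟨1,[(23,0),(2,1),(15,0),(2,1)]⟩,⟨0,[(0,0)]⟩]⟩)))))

theorem ok24 : chk (cU (-1) true 10) t24 l22 = true := by decide +kernel

noncomputable def t30 : Tre :=
  (.Q [0,0,2,0,-1,0,1,0,0,1,-1] (.p false [0,0,1] [1] (⟨0,[(28,0)]⟩,⟨0,[(27,0)]⟩) .k 1 (⟨0,[]⟩,⟨0,
  []⟩) .k .k) (.K ⟨0,[1,1,-1],1,0,(⟨0,[(28,0),(3,0)]⟩,⟨0,[(13,0)]⟩),.k,.k,(.r 1 ⟨0,[(1,0)]⟩ ⟨23,[(2,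
  15),(4,15),(1,15),(0,11),(6,4),(0,4),(18,9)]⟩),.k,.k,[⟨0,[(0,0)]⟩,⟨0,[(2,0),(19,0)]⟩,⟨91,[(0,53),
  (1,37),(2,5),(3,67),(0,5),(4,29),(1,4),(0,4)]⟩,⟨0,[(21,0),(13,0)]⟩]⟩) (.Q [0,-1,0,2,0,0,-1,-1,0,0,
  1] (.p true [0,0,1] [] (⟨0,[(29,0)]⟩,⟨0,[(28,0)]⟩) .k 0 (⟨0,[]⟩,⟨0,[]⟩) .k .k) (.R ⟨1,true,false,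
  false,[0,0,1],[0,1],[1,0,0,-1,0,0,0,1],(⟨0,[(30,0)]⟩,⟨0,[(29,0)]⟩),(⟨0,[(33,0)]⟩,⟨0,[(32,0)]⟩),⟨0,
  [(14,0)]⟩,.k,.k,.k,.k,(.r (-2) ⟨23,[(3,15),(4,15),(1,15),(0,11),(6,4),(0,4),(18,9)]⟩ ⟨0,[(2,0)]⟩),
  .k,⟨true,1,⟨14,[(3,4),(4,4),(0,6),(0,8),(0,8),(4,3),(21,0)]⟩,⟨0,[(2,0)]⟩⟩,⟨false,1,⟨1,[(1,0),(1,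
  0),(23,0)]⟩,⟨0,[(26,0)]⟩⟩,⟨false,1,⟨0,[(35,0),(2,0)]⟩,⟨0,[(36,0)]⟩⟩,⟨true,0,⟨1,[(0,0),(24,0)]⟩,⟨0,
  [(10,0)]⟩⟩,⟨true,0,⟨0,[]⟩,⟨0,[(40,0)]⟩⟩,⟨false,0,⟨0,[(0,0)]⟩,⟨0,[(10,0),(24,0),(2,0)]⟩⟩,[]⟩) (.Q
  [0,0,0,0,0,-2,0,0,0,0,1] (.p true [0,0,1] [] (⟨0,[(30,0)]⟩,⟨0,[(29,0)]⟩) .k 0 (⟨0,[]⟩,⟨0,[]⟩) .k
  .k) (.I [0,1,1,2,-1,0,0,-2] (.R ⟨1,false,false,true,[0,-1,1],[1,0,-1],[0,1,0,0,0,0,0,-1],(⟨0,[(16,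
  0)]⟩,⟨0,[(31,0),(3,0)]⟩),(⟨0,[(31,0)]⟩,⟨0,[(32,0)]⟩),⟨0,[(1,0)]⟩,.k,.k,(.r (-2) ⟨11,[(2,5),(2,7),
  (4,5),(2,5),(6,2),(0,2),(11,0),(6,2)]⟩ ⟨0,[(4,0)]⟩),(.r (-1) ⟨28,[(2,15),(0,8),(1,8),(2,9),(4,10),
  (4,6),(17,5)]⟩ ⟨4,[(0,2),(3,0),(6,2),(8,1),(0,1)]⟩),(.r (-2) ⟨23,[(2,11),(2,15),(4,11),(2,23),(6,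
  2),(0,2),(11,1)]⟩ ⟨9,[(0,3),(3,7),(6,3),(8,0),(0,0)]⟩),.k,⟨false,1,⟨11,[(5,3),(14,2),(0,2),(11,
  1)]⟩,⟨0,[]⟩⟩,⟨true,1,⟨0,[(3,0),(25,0)]⟩,⟨3,[(2,3),(1,3),(1,0),(2,0),(21,1),(2,0),(1,1)]⟩⟩,⟨false,
  0,⟨4,[(0,2),(3,0),(6,2),(8,1),(0,1)]⟩,⟨1,[(2,0),(0,0),(1,0),(2,2),(2,2)]⟩⟩,⟨false,0,⟨0,[(0,0),(2,
  0),(14,0),(17,0)]⟩,⟨7,[(2,3),(3,0),(6,5),(5,4),(11,1),(2,0),(1,0),(3,1)]⟩⟩,⟨true,(-1),⟨0,[(0,0)]⟩,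
  ⟨28,[(2,25),(0,10),(1,10),(2,8),(4,6),(4,14),(17,16)]⟩⟩,⟨false,0,⟨5,[(0,2),(2,6),(0,4),(0,0),(12,
  3),(8,0),(8,3)]⟩,⟨3,[(2,3),(3,0),(6,1),(5,0),(11,1),(2,0),(1,0),(3,1)]⟩⟩,[.o ⟨false,0,⟨0,[(24,
  0)]⟩,⟨3,[(13,1),(5,1),(13,0),(6,0)]⟩⟩,.a ⟨true,0,⟨10,[(0,3),(2,1),(1,1),(5,0),(6,6),(8,1),(8,5)]⟩,
  ⟨7,[(6,0),(1,3),(0,4),(8,3),(12,1),(2,0),(1,1)]⟩⟩ ⟨true,0,⟨0,[(30,0)]⟩,⟨19,[(2,3),(5,7),(19,2),(0,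
  6),(6,1)]⟩⟩ ⟨false,1,⟨10,[(0,3),(2,12),(1,1),(5,0),(6,6),(8,1),(8,5)]⟩,⟨19,[(2,3),(5,7),(10,19),
  (8,2),(0,6),(6,1)]⟩⟩,.o ⟨false,0,⟨0,[(28,0)]⟩,⟨5,[(3,3),(16,0),(0,0),(3,1)]⟩⟩,.o ⟨false,0,⟨1,[(28,
  2),(0,0)]⟩,⟨0,[(3,0)]⟩⟩]⟩) (.I [0,0,1,1,0,0,0,2] (.K ⟨2,[1,-1,-1],0,0,(⟨0,[(15,0)]⟩,⟨0,[(33,0),(2,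
  0)]⟩),.k,(.r (-1) ⟨1,[(6,0),(3,0),(0,1),(29,0)]⟩ ⟨9,[(5,5),(3,7),(11,2),(0,2)]⟩),.k,(.r (-1) ⟨23,
  [(6,7),(4,7),(0,7),(7,3),(0,6),(0,6),(8,31),(2,1)]⟩ ⟨0,[(0,0)]⟩),.k,[⟨0,[(10,0)]⟩,⟨1,[(29,0),(0,
  0)]⟩,⟨1,[(20,0),(2,0),(0,0)]⟩,⟨1,[(26,1),(2,0),(0,0)]⟩,⟨19,[(5,3),(0,3),(0,2),(1,11),(0,4),(9,1),
  (11,5),(2,2),(7,19)]⟩,⟨0,[(16,0)]⟩]⟩) (.I [0,0,-2,-2,1,0,0,0,-1] (.Q [0,-1,0,0,0,0,0,0,-1,-1,0,1]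
  (.p true [0,0,0,1] [1] (⟨0,[(25,0)]⟩,⟨0,[(24,0)]⟩) .k 1 (⟨0,[]⟩,⟨0,[]⟩) .k .k) (.Q [0,-1,-1,0,0,0,
  0,0,-1,0,0,1] (.p true [0,0,0,1] [] (⟨0,[(26,0)]⟩,⟨0,[(25,0)]⟩) .k 0 (⟨0,[]⟩,⟨0,[]⟩) .k .k) (.I
  [0,1,1,1,-1,0,0,0,-1] (.Q [0,0,0,0,0,-1,0,0,0,0,0,1] (.p true [0,0,0,1] [] (⟨0,[(28,0)]⟩,⟨0,[(27,
  0)]⟩) .k 0 (⟨0,[]⟩,⟨0,[]⟩) .k .k) (.R ⟨1,false,false,true,[0,0,0,1],[1,0,-1],[1,0,0,-1,0,0,0,0,1],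
  (⟨0,[(29,0)]⟩,⟨0,[(28,0)]⟩),(⟨0,[(37,0)]⟩,⟨0,[(38,0)]⟩),⟨0,[(0,0)]⟩,.k,.k,(.r (-1) ⟨98,[(4,12),(0,
  16),(0,13),(1,9),(0,5),(1,9),(4,3),(10,55)]⟩ ⟨11,[(1,1),(8,3),(3,1),(11,4),(19,0)]⟩),.k,(.r (-2)
  ⟨195,[(6,35),(1,51),(0,31),(1,31),(7,35),(4,19),(1,78),(0,176)]⟩ ⟨15,[(1,13),(0,0),(0,0),(1,5),(3,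
  1),(0,3),(4,0),(12,1),(13,5)]⟩),.k,⟨true,1,⟨17,[(6,6),(1,1),(10,0),(7,8),(7,1),(6,4),(3,0)]⟩,⟨12,
  [(1,10),(3,3),(4,2),(14,0),(0,0),(3,0),(2,0)]⟩⟩,⟨false,1,⟨0,[(9,0),(19,0)]⟩,⟨0,[(28,0),(5,0)]⟩⟩,
  ⟨false,1,⟨15,[(8,3),(8,3),(6,3),(1,2),(0,2),(18,9)]⟩,⟨0,[(44,0)]⟩⟩,⟨false,0,⟨0,[(2,0),(27,0)]⟩,⟨3,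
  [(19,1),(3,0),(3,1),(0,3),(5,2),(7,0)]⟩⟩,⟨true,0,⟨0,[]⟩,⟨0,[(48,0)]⟩⟩,⟨false,0,⟨4,[(1,0),(0,2),(0,
  0),(5,1),(0,1),(0,0),(17,0),(0,2)]⟩,⟨15,[(8,7),(10,3),(7,7),(0,15),(5,8),(0,0),(6,5),(3,3)]⟩⟩,[.o
  ⟨false,0,⟨0,[(30,0)]⟩,⟨3,[(19,1),(5,1),(13,0),(6,0)]⟩⟩,.a ⟨true,0,⟨4,[(5,0),(3,0),(0,1),(0,0),(12,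
  2),(8,0),(8,1)]⟩,⟨7,[(12,0),(1,3),(0,4),(8,3),(12,1),(2,0),(1,1)]⟩⟩ ⟨true,1,⟨21,[(6,1),(1,3),(8,
  7),(6,1),(2,10),(7,1),(10,8)]⟩,⟨0,[(1,0)]⟩⟩ ⟨false,1,⟨20,[(3,5),(1,5),(3,14),(0,2),(0,3),(15,2),
  (1,14),(3,5),(5,1)]⟩,⟨9,[(8,1),(5,3),(8,2),(4,9),(5,4),(7,0)]⟩⟩,.o ⟨false,0,⟨0,[(23,0),(4,0),(2,
  0)]⟩,⟨2,[(11,0),(17,2),(9,1)]⟩⟩,.o ⟨false,0,⟨0,[(28,0),(2,0),(2,0)]⟩,⟨4,[(3,1),(5,3),(5,1),(11,0),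
  (1,2),(0,0),(1,0)]⟩⟩]⟩) (.R ⟨0,false,false,true,[0,0,0,1],[1,0,-1],[1,0,0,0,0,0,0,0,1],(⟨0,[(29,
  0)]⟩,⟨0,[(28,0)]⟩),(⟨0,[(37,0)]⟩,⟨0,[(38,0)]⟩),⟨0,[(0,0)]⟩,.k,.k,(.r (-1) ⟨98,[(4,12),(0,16),(0,
  13),(1,9),(0,5),(1,9),(4,3),(10,55)]⟩ ⟨11,[(1,1),(8,3),(3,1),(11,4),(19,0)]⟩),.k,.k,.k,⟨true,1,
  ⟨39,[(6,2),(2,3),(1,1),(2,5),(0,1),(3,10),(7,19),(14,12)]⟩,⟨3,[(1,3),(14,0),(0,1),(7,0),(7,0)]⟩⟩,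
  ⟨false,1,⟨0,[(9,0),(19,0)]⟩,⟨0,[(28,0),(5,0)]⟩⟩,⟨true,0,⟨0,[]⟩,⟨0,[(48,0)]⟩⟩,⟨false,0,⟨0,[(2,0),
  (27,0)]⟩,⟨3,[(19,1),(3,0),(3,1),(0,3),(5,2),(7,0)]⟩⟩,⟨false,0,⟨0,[]⟩,⟨0,[]⟩⟩,⟨false,0,⟨0,[]⟩,⟨0,
  []⟩⟩,[.o ⟨false,0,⟨0,[(30,0)]⟩,⟨3,[(19,1),(5,1),(13,0),(6,0)]⟩⟩,.a ⟨true,0,⟨4,[(5,0),(3,0),(0,1),
  (0,0),(12,2),(8,0),(8,1)]⟩,⟨7,[(12,0),(1,3),(0,4),(8,3),(12,1),(2,0),(1,1)]⟩⟩ ⟨true,1,⟨1,[(27,0),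
  (18,0)]⟩,⟨4,[(0,4),(1,4),(4,1),(0,4),(0,1),(0,6),(2,0),(0,0),(0,1),(8,4)]⟩⟩ ⟨false,1,⟨20,[(3,5),
  (1,5),(3,14),(0,2),(0,3),(15,2),(1,14),(3,5),(5,1)]⟩,⟨9,[(8,1),(5,3),(8,2),(4,9),(5,4),(7,0)]⟩⟩,
  .o ⟨false,0,⟨26,[(0,4),(6,1),(0,7),(1,7),(2,0),(14,21),(2,5),(7,7),(2,3)]⟩,⟨2,[(11,0),(17,2),(9,
  1)]⟩⟩,.o ⟨false,0,⟨0,[(28,0),(2,0),(2,0)]⟩,⟨4,[(3,1),(5,3),(5,1),(11,0),(1,2),(0,0),(1,0)]⟩⟩]⟩))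
  (.Q [0,0,-1,-1,0,0,0,0,-1,-1,0,1] (.p true [0,0,0,1] [1] (⟨0,[(28,0)]⟩,⟨0,[(27,0)]⟩) .k 1 (⟨0,[]⟩,
  ⟨0,[]⟩) .k .k) (.Q [0,0,1,2,0,0,0,0,1,1,0,-1] (.p false [0,0,0,1] [1] (⟨0,[(29,0)]⟩,⟨0,[(28,0)]⟩)
  .k 1 (⟨0,[]⟩,⟨0,[]⟩) .k .k) (.R ⟨1,true,false,true,[1,-1],[0,0,0,1],[0,0,-1,-1],(⟨0,[(41,0)]⟩,⟨0,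
  [(42,0)]⟩),(⟨0,[(30,0)]⟩,⟨0,[(29,0)]⟩),⟨1,[(8,0),(12,0),(19,0)]⟩,.k,.k,(.r (-1) ⟨45,[(2,12),(2,
  12),(0,6),(0,4),(1,10),(0,3),(1,10),(4,6)]⟩ ⟨4,[(11,3),(3,1),(11,1),(0,1)]⟩),(.x (-1) ⟨11,[(8,3),
  (12,3),(5,4),(0,4),(11,1)]⟩ ⟨0,[(42,0)]⟩),(.r (-1) ⟨0,[(5,0)]⟩ ⟨19,[(11,15),(3,7),(11,2),(0,
  12)]⟩),.k,⟨false,1,⟨15,[(3,2),(0,4),(0,7),(4,5),(5,2),(12,7),(13,1),(3,1)]⟩,⟨7,[(11,4),(0,0),(2,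
  0),(9,2),(2,3),(2,0),(1,3)]⟩⟩,⟨true,0,⟨0,[(29,0)]⟩,⟨5,[(4,1),(4,1),(1,1),(16,0),(1,3),(1,1),(7,
  0)]⟩⟩,⟨false,1,⟨3,[(27,0),(0,0),(18,1)]⟩,⟨0,[]⟩⟩,⟨true,0,⟨1,[(0,1),(8,0),(24,0)]⟩,⟨0,[(1,0)]⟩⟩,
  ⟨true,0,⟨0,[(45,0)]⟩,⟨1,[(9,0),(24,0)]⟩⟩,⟨false,0,⟨0,[(0,0)]⟩,⟨23,[(2,7),(1,17),(0,7),(3,5),(7,5),
  (9,2),(2,5),(16,4)]⟩⟩,[]⟩) (.Q [0,-1,-1,1,0,0,-1,-1,-1,-1,1,1] (.p true [0,0,1] [1,0,0,-1] (⟨0,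
  [(39,0)]⟩,⟨0,[(38,0)]⟩) .k 2 (⟨0,[(29,0)]⟩,⟨0,[(30,0)]⟩) .k (.r (-1) ⟨91,[(10,3),(1,3),(2,19),(3,
  11),(0,19),(4,7),(1,8),(0,54)]⟩ ⟨2,[(1,0),(4,0),(4,0),(15,0),(1,0)]⟩)) (.R ⟨1,false,false,false,
  [0,-1,1],[1,0,0,-1],[0,0,1],(⟨0,[(24,0)]⟩,⟨0,[(39,0),(3,0)]⟩),(⟨0,[(30,0)]⟩,⟨0,[(31,0)]⟩),⟨0,[(9,
  0)]⟩,.k,.k,(.r (-2) ⟨49,[(6,15),(1,17),(1,13),(0,9),(1,9),(12,3),(1,18),(0,26)]⟩ ⟨0,[(12,0)]⟩),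
  (.r (-2) ⟨195,[(8,35),(1,51),(0,31),(1,31),(7,35),(4,19),(1,78),(0,176)]⟩ ⟨0,[(2,0),(9,0),(17,
  0)]⟩),(.r (-2) ⟨99,[(6,31),(1,35),(1,27),(0,19),(1,19),(12,7),(1,12),(0,78)]⟩ ⟨8,[(2,4),(9,10),(3,
  0),(11,1),(1,4)]⟩),.k,⟨false,1,⟨3,[(28,0),(0,2)]⟩,⟨1,[(0,0),(1,0),(27,1),(3,0)]⟩⟩,⟨true,1,⟨0,[(11,
  0),(19,0)]⟩,⟨3,[(10,3),(1,3),(17,3),(5,0),(0,0),(6,1)]⟩⟩,⟨false,0,⟨5,[(12,3),(6,1),(8,0),(0,0),(6,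
  1),(0,1),(10,1)]⟩,⟨2,[(8,0),(2,0),(1,0),(6,0)]⟩⟩,⟨false,0,⟨0,[(0,0)]⟩,⟨15,[(10,7),(10,3),(6,0),(0,
  8),(0,15),(5,11),(0,3),(10,1)]⟩⟩,⟨true,(-1),⟨0,[(12,0)]⟩,⟨97,[(8,5),(1,73),(0,37),(1,37),(7,5),(4,
  35),(1,4),(0,4)]⟩⟩,⟨false,0,⟨0,[(0,0),(45,0)]⟩,⟨1,[(10,1),(18,0),(0,1),(5,0),(0,0),(10,0)]⟩⟩,[.o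
  ⟨false,0,⟨1,[(0,0),(1,0),(31,0)]⟩,⟨7,[(28,0),(0,4),(0,7),(2,3),(2,3),(4,1)]⟩⟩,.a ⟨true,0,⟨0,[(4,
  0)]⟩,⟨1,[(12,0),(7,0),(5,0),(2,0),(0,1)]⟩⟩ ⟨true,0,⟨3,[(36,0),(0,0),(6,1)]⟩,⟨0,[(50,0)]⟩⟩ ⟨false,
  1,⟨0,[(4,0),(6,0)]⟩,⟨11,[(10,6),(1,5),(3,1),(12,5),(0,11),(4,4),(0,9)]⟩⟩,.o ⟨false,0,⟨0,[(36,0)]⟩,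
  ⟨5,[(11,3),(16,0),(0,0),(3,1)]⟩⟩,.o ⟨false,0,⟨1,[(36,2),(0,0)]⟩,⟨0,[(11,0)]⟩⟩]⟩) (.R ⟨1,true,
  false,false,[0,-1,1],[1,0,0,-1],[0,0,-1,-1,0,0,0,1],(⟨0,[(24,0)]⟩,⟨0,[(39,0),(3,0)]⟩),(⟨0,[(30,
  0)]⟩,⟨0,[(31,0)]⟩),⟨0,[(9,0)]⟩,.k,.k,(.r (-2) ⟨49,[(6,15),(1,17),(1,13),(0,9),(1,9),(12,3),(1,18),
  (0,26)]⟩ ⟨0,[(12,0)]⟩),(.r (-2) ⟨195,[(8,35),(1,51),(0,31),(1,31),(7,35),(4,19),(1,78),(0,176)]⟩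
  ⟨0,[(2,0),(9,0),(17,0)]⟩),(.r (-2) ⟨99,[(6,31),(1,35),(1,27),(0,19),(1,19),(12,7),(1,12),(0,78)]⟩
  ⟨8,[(2,4),(9,10),(3,0),(11,1),(1,4)]⟩),.k,⟨false,2,⟨11,[(8,3),(2,3),(1,3),(6,3),(7,2),(0,8)]⟩,⟨0,
  [(2,0),(9,0),(17,0)]⟩⟩,⟨true,1,⟨0,[(11,0),(19,0)]⟩,⟨36,[(0,5),(9,35),(1,39),(6,1),(8,2),(1,30),(6,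
  4),(6,19)]⟩⟩,⟨false,1,⟨3,[(28,0),(0,0),(18,1)]⟩,⟨0,[]⟩⟩,⟨true,0,⟨2,[(2,0),(1,1),(6,1),(0,1),(22,
  0),(14,0)]⟩,⟨0,[(0,0)]⟩⟩,⟨true,0,⟨0,[(46,0)]⟩,⟨1,[(10,0),(24,0)]⟩⟩,⟨false,0,⟨0,[(4,0),(6,0),(0,
  0)]⟩,⟨53,[(0,65),(2,9),(4,1),(9,11),(0,3),(8,10),(2,11),(16,30)]⟩⟩,[]⟩))) (.R ⟨2,true,false,false,
  [0,1],[1,0,0,-1],[1,1,1],(⟨0,[]⟩,⟨0,[]⟩),(⟨0,[(28,0)]⟩,⟨0,[(29,0)]⟩),⟨0,[]⟩,.k,.k,.k,(.x 0 ⟨0,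
  [(41,0)]⟩ ⟨11,[(7,3),(12,3),(5,4),(0,4),(11,1)]⟩),.k,.k,⟨true,0,⟨1,[(10,0),(7,0),(5,0),(2,0)]⟩,⟨0,
  [(3,0),(24,0)]⟩⟩,⟨false,1,⟨2,[(11,0),(17,2),(9,1)]⟩,⟨0,[(28,0)]⟩⟩,⟨true,0,⟨1,[(8,0),(24,0)]⟩,⟨0,
  [(44,0)]⟩⟩,⟨false,1,⟨5,[(1,1),(1,3),(0,1),(21,0),(2,1),(9,0)]⟩,⟨0,[(0,0)]⟩⟩,⟨false,0,⟨0,[]⟩,⟨3,
  [(26,0),(0,0),(18,1)]⟩⟩,⟨true,0,⟨0,[(2,0),(5,0),(0,0),(0,0)]⟩,⟨1,[(0,1),(7,0),(24,0)]⟩⟩,[]⟩)))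
  (.K ⟨0,[0,0,0,1],0,0,(⟨0,[(27,0)]⟩,⟨0,[(26,0)]⟩),.k,(.r (-1) ⟨98,[(2,12),(0,16),(0,13),(1,9),(0,
  5),(1,9),(4,3),(10,55)]⟩ ⟨47,[(1,7),(6,20),(0,0),(2,8),(9,2),(1,19),(1,7),(1,0),(1,3)]⟩),(.x 0 ⟨0,
  [(39,0)]⟩ ⟨11,[(5,3),(12,3),(5,4),(0,4),(11,1)]⟩),.k,.k,[⟨0,[(27,0)]⟩,⟨0,[(26,0)]⟩,⟨2,[(1,2),(6,
  1),(0,1),(3,0),(8,3),(7,1)]⟩,⟨0,[(0,0)]⟩]⟩)) (.Q [0,1,-1,0,0,0,0,0,-1,0,0,1] (.p true [0,0,0,1]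
  [] (⟨0,[(26,0)]⟩,⟨0,[(25,0)]⟩) .k 0 (⟨0,[]⟩,⟨0,[]⟩) .k .k) (.K ⟨0,[0,0,0,1],0,0,(⟨0,[(27,0)]⟩,⟨0,
  [(26,0)]⟩),.k,(.r (-1) ⟨98,[(2,12),(0,16),(0,13),(1,9),(0,5),(1,9),(4,3),(10,55)]⟩ ⟨2,[(2,0),(5,
  1),(3,0),(11,0)]⟩),(.x 0 ⟨0,[(39,0)]⟩ ⟨11,[(5,3),(12,3),(5,4),(0,4),(11,1)]⟩),.k,.k,[⟨0,[(27,0)]⟩,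
  ⟨0,[(26,0)]⟩,⟨0,[(0,0)]⟩,⟨0,[(1,0),(19,0),(7,0)]⟩]⟩) (.Q [0,1,0,-1,0,0,0,0,0,-1] (.pp true [-1,
  1]) (.Q [0,0,0,0,0,-1,0,0,0,1,0,-1] (.p false [0,0,0,1] [1] (⟨0,[(28,0)]⟩,⟨0,[(27,0)]⟩) .k 1 (⟨0,
  []⟩,⟨0,[]⟩) .k .k) (.R ⟨1,false,false,false,[1,0,0,-1],[0,1],[0,0,0,0,0,0,0,0,-1],(⟨0,[(28,0)]⟩,
  ⟨0,[(29,0)]⟩),(⟨0,[(41,0)]⟩,⟨0,[(40,0)]⟩),⟨0,[(0,0)]⟩,.k,.k,(.x (-1) ⟨11,[(7,3),(12,3),(5,4),(0,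
  4),(11,1)]⟩ ⟨0,[(41,0)]⟩),(.x (-1) ⟨11,[(7,3),(12,3),(5,4),(0,4),(11,1)]⟩ ⟨0,[(41,0)]⟩),(.r (-1)
  ⟨0,[(4,0)]⟩ ⟨19,[(10,15),(3,7),(11,2),(0,12)]⟩),.k,⟨false,1,⟨23,[(4,21),(4,5),(0,7),(0,2),(2,3),
  (0,2),(10,0)]⟩,⟨6,[(2,1),(0,0),(5,0),(0,2),(3,0),(12,1),(1,2),(2,0)]⟩⟩,⟨true,0,⟨0,[(28,0)]⟩,⟨17,
  [(1,4),(6,2),(1,4),(3,0),(14,17),(1,2),(7,4),(2,3)]⟩⟩,⟨false,1,⟨3,[(26,0),(0,0),(18,1)]⟩,⟨0,[]⟩⟩,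
  ⟨false,0,⟨9,[(2,2),(0,6),(6,3),(0,2),(2,1),(27,5),(3,0)]⟩,⟨20,[(1,11),(2,6),(4,8),(0,1),(3,0),(8,
  8),(2,6),(2,20),(12,5)]⟩⟩,⟨true,0,⟨0,[(44,0)]⟩,⟨1,[(8,0),(24,0)]⟩⟩,⟨false,0,⟨4,[(2,2),(0,1),(6,3),
  (0,2),(2,1),(27,0),(3,0)]⟩,⟨5,[(1,3),(2,3),(21,0),(2,5),(9,0),(2,1)]⟩⟩,[.o ⟨false,0,⟨0,[(44,0)]⟩,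
  ⟨15,[(8,3),(7,3),(9,2),(0,2),(11,5),(6,3)]⟩⟩,.o ⟨false,1,⟨3,[(26,0),(0,0),(16,3),(1,1)]⟩,⟨0,[(1,
  0)]⟩⟩,.o ⟨false,1,⟨2,[(11,0),(17,2),(9,1)]⟩,⟨17,[(1,9),(0,5),(7,3),(3,1),(11,2),(1,11),(10,0),(2,
  1)]⟩⟩,.a ⟨true,0,⟨0,[(29,0)]⟩,⟨0,[(28,0)]⟩⟩ ⟨false,1,⟨47,[(4,9),(4,17),(0,7),(0,8),(2,3),(0,8),
  (10,18),(15,23)]⟩,⟨11,[(2,4),(0,0),(4,1),(1,2),(3,0),(1,0),(7,0),(2,2),(1,5)]⟩⟩ ⟨true,0,⟨0,[(28,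
  0),(15,0)]⟩,⟨0,[(1,0),(27,0)]⟩⟩]⟩) (.R ⟨0,false,false,false,[1,0,0,-1],[0,1],[1,0,0,0,0,0,0,0,-1],
  (⟨0,[(28,0)]⟩,⟨0,[(29,0)]⟩),(⟨0,[(41,0)]⟩,⟨0,[(40,0)]⟩),⟨0,[(0,0)]⟩,.k,.k,(.x (-1) ⟨11,[(7,3),(12,
  3),(5,4),(0,4),(11,1)]⟩ ⟨0,[(41,0)]⟩),(.x (-1) ⟨11,[(7,3),(12,3),(5,4),(0,4),(11,1)]⟩ ⟨0,[(41,
  0)]⟩),.k,.k,⟨false,1,⟨23,[(4,21),(4,5),(0,7),(0,2),(2,3),(0,2),(10,0)]⟩,⟨19,[(0,4),(1,2),(0,2),(3,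
  1),(2,7),(0,0),(1,0),(0,3),(0,0),(11,6),(1,0)]⟩⟩,⟨true,0,⟨0,[(28,0)]⟩,⟨6,[(0,4),(6,1),(5,0),(15,
  1),(1,1),(2,3)]⟩⟩,⟨true,0,⟨0,[]⟩,⟨0,[(48,0)]⟩⟩,⟨false,0,⟨9,[(2,2),(0,6),(6,3),(0,2),(2,1),(27,5),
  (3,0)]⟩,⟨7,[(0,4),(3,3),(2,1),(5,0),(1,0),(10,1),(2,2),(9,1)]⟩⟩,⟨false,0,⟨0,[]⟩,⟨0,[]⟩⟩,⟨false,0,
  ⟨0,[]⟩,⟨0,[]⟩⟩,[.o ⟨false,0,⟨0,[(44,0)]⟩,⟨15,[(8,3),(7,3),(9,2),(0,2),(11,5),(6,3)]⟩⟩,.o ⟨false,1,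
  ⟨3,[(26,0),(0,0),(16,3),(1,1)]⟩,⟨0,[(1,0)]⟩⟩,.o ⟨false,1,⟨2,[(11,0),(17,2),(9,1)]⟩,⟨17,[(1,9),(0,
  5),(7,3),(3,1),(11,2),(1,11),(10,0),(2,1)]⟩⟩,.a ⟨true,0,⟨0,[(29,0)]⟩,⟨0,[(28,0)]⟩⟩ ⟨false,1,⟨47,
  [(4,9),(4,17),(0,7),(0,8),(2,3),(0,8),(10,18),(15,23)]⟩,⟨111,[(0,4),(1,46),(0,4),(3,1),(0,21),(1,
  29),(2,0),(0,3),(9,19),(2,29),(1,46)]⟩⟩ ⟨true,0,⟨0,[(28,0),(15,0)]⟩,⟨0,[(1,0),(27,0)]⟩⟩]⟩)) (.I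
  [0,-1,0,1,0,0,0,-1,1] (.Q [0,0,0,0,0,-1,0,0,0,0,0,1] (.p true [0,0,0,1] [] (⟨0,[(29,0)]⟩,⟨0,[(28,
  0)]⟩) .k 0 (⟨0,[]⟩,⟨0,[]⟩) .k .k) (.R ⟨1,false,false,false,[0,0,0,1],[0,-1,1],[0,1,0,0,0,0,0,0,1],
  (⟨0,[(30,0)]⟩,⟨0,[(29,0)]⟩),(⟨0,[(23,0)]⟩,⟨0,[(38,0),(3,0)]⟩),⟨0,[(0,0)]⟩,.k,.k,(.r (-1) ⟨98,[(5,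
  12),(0,16),(0,13),(1,9),(0,5),(1,9),(4,3),(10,55)]⟩ ⟨2,[(5,0),(5,1),(3,0),(11,0)]⟩),(.r 0 ⟨19,[(6,
  3),(4,11),(15,0),(0,10)]⟩ ⟨56,[(5,20),(1,9),(2,3),(1,3),(2,14),(3,6),(5,2),(1,17)]⟩),.k,.k,⟨false,
  0,⟨0,[(1,0),(47,1)]⟩,⟨38,[(2,2),(2,36),(4,5),(0,4),(3,21),(0,2),(10,0),(15,17)]⟩⟩,⟨true,0,⟨0,[(24,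
  0),(5,0)]⟩,⟨0,[(29,0),(2,0)]⟩⟩,⟨true,0,⟨0,[(49,0)]⟩,⟨0,[]⟩⟩,⟨false,1,⟨17,[(5,15),(4,2),(0,1),(3,
  9),(0,2),(7,14),(2,0),(2,17),(12,8)]⟩,⟨7,[(3,4),(0,2),(5,2),(0,3),(22,3),(1,0),(10,0)]⟩⟩,⟨false,0,
  ⟨0,[(45,0)]⟩,⟨15,[(9,3),(8,3),(6,3),(1,2),(0,2),(18,9)]⟩⟩,⟨false,1,⟨5,[(5,3),(4,2),(0,1),(3,3),(0,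
  2),(7,2),(2,0),(2,5),(12,2)]⟩,⟨0,[(3,0),(30,0)]⟩⟩,[.a ⟨true,0,⟨0,[(2,0),(6,0)]⟩,⟨2,[(2,1),(7,0),
  (0,0),(10,0),(11,0)]⟩⟩ ⟨true,0,⟨0,[(1,0),(23,0),(7,0)]⟩,⟨0,[(5,0),(5,0),(3,0),(2,0)]⟩⟩ ⟨false,1,
  ⟨5,[(7,1),(2,1),(1,0),(3,2),(2,1),(10,5),(9,0)]⟩,⟨7,[(3,1),(6,1),(0,3),(15,0),(1,5),(1,1),(0,1),
  (1,1),(12,0)]⟩⟩,.o ⟨false,1,⟨7,[(9,3),(10,1),(5,1),(13,0),(6,4)]⟩,⟨1,[(10,0),(0,0),(19,0),(17,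
  0)]⟩⟩,.o ⟨false,0,⟨0,[(24,0),(4,0),(2,0)]⟩,⟨2,[(12,0),(17,2),(9,1)]⟩⟩,.o ⟨false,0,⟨8,[(3,5),(0,1),
  (4,3),(1,3),(15,3),(1,0),(2,2),(3,0)]⟩,⟨0,[(10,0),(13,0),(5,0)]⟩⟩]⟩) (.R ⟨0,false,false,false,[0,
  0,0,1],[1,1,-1],[0,1,0,0,0,0,0,0,1],(⟨0,[(30,0)]⟩,⟨0,[(29,0)]⟩),(⟨0,[(38,0),(3,0)]⟩,⟨0,[(23,0)]⟩),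
  ⟨0,[(0,0)]⟩,.k,.k,(.r (-1) ⟨98,[(5,12),(0,16),(0,13),(1,9),(0,5),(1,9),(4,3),(10,55)]⟩ ⟨2,[(5,0),
  (5,1),(3,0),(11,0)]⟩),(.r (-1) ⟨31,[(1,4),(2,6),(2,10),(1,8),(0,8),(1,1),(2,2),(12,9),(1,6)]⟩ ⟨19,
  [(6,3),(4,11),(15,10),(0,0)]⟩),.k,.k,⟨false,1,⟨2,[(1,1),(2,0),(4,1),(0,1),(1,0),(2,0),(3,0),(5,0),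
  (4,0)]⟩,⟨38,[(2,2),(2,10),(0,3),(3,5),(0,30),(4,2),(10,13),(15,17)]⟩⟩,⟨true,1,⟨0,[(10,0),(19,0)]⟩,
  ⟨3,[(9,3),(1,3),(17,3),(5,0),(0,0),(6,1)]⟩⟩,⟨true,0,⟨0,[(49,0)]⟩,⟨0,[]⟩⟩,⟨false,1,⟨38,[(2,2),(2,
  10),(0,3),(3,44),(0,30),(4,2),(10,13),(2,38),(12,17)]⟩,⟨4,[(3,0),(0,3),(4,2),(5,0),(10,0),(16,
  2)]⟩⟩,⟨false,0,⟨0,[]⟩,⟨0,[]⟩⟩,⟨false,0,⟨0,[]⟩,⟨0,[]⟩⟩,[.a ⟨true,0,⟨2,[(2,1),(7,0),(0,0),(10,0),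
  (11,0)]⟩,⟨0,[(2,0),(6,0)]⟩⟩ ⟨true,0,⟨0,[(1,0),(23,0),(7,0)]⟩,⟨0,[(5,0),(5,0),(3,0),(2,0)]⟩⟩
  ⟨false,1,⟨77,[(1,5),(4,11),(3,71),(0,41),(0,27),(14,2),(2,77),(3,5),(5,16)]⟩,⟨19,[(9,11),(5,3),
  (13,19),(5,8),(0,0),(6,5)]⟩⟩,.o ⟨false,1,⟨3,[(10,1),(0,1),(22,1),(5,0),(6,2)]⟩,⟨0,[(19,0)]⟩⟩,.o
  ⟨false,0,⟨14,[(0,4),(2,3),(4,1),(0,3),(1,3),(2,0),(12,1),(1,5),(2,1),(7,1)]⟩,⟨2,[(12,0),(17,2),(9,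
  1)]⟩⟩,.o ⟨false,0,⟨8,[(3,5),(0,1),(4,3),(1,3),(15,3),(1,0),(2,2),(3,0)]⟩,⟨0,[(10,0),(13,0),(5,
  0)]⟩⟩]⟩)) (.Q [0,0,0,0,0,0,1,1,0,1,-1,-1] (.p false [0,0,1] [1,0,0,-1] (⟨0,[(38,0)]⟩,⟨0,[(37,
  0)]⟩) .k 2 (⟨0,[(28,0)]⟩,⟨0,[(29,0)]⟩) .k (.r (-1) ⟨99,[(0,15),(8,3),(1,3),(2,19),(3,3),(0,19),(6,
  6),(0,64)]⟩ ⟨0,[(4,0),(5,0)]⟩)) (.R ⟨1,false,false,true,[1,0,0,-1],[1,0,-1],[1,1,0,-1,0,0,0,0,-1],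
  (⟨0,[(29,0)]⟩,⟨0,[(30,0)]⟩),(⟨0,[(38,0)]⟩,⟨0,[(39,0)]⟩),⟨14,[(0,4),(5,1),(1,5),(1,0),(0,0),(2,2),
  (1,0),(12,9)]⟩,.k,.k,(.x (-1) ⟨11,[(8,3),(12,3),(5,4),(0,4),(11,1)]⟩ ⟨0,[(42,0)]⟩),.k,(.r (-1)
  ⟨14,[(1,2),(5,4),(2,1),(1,1),(6,1),(7,5)]⟩ ⟨19,[(6,3),(4,11),(15,0),(0,10)]⟩),.k,⟨false,1,⟨14,[(1,
  2),(5,4),(2,1),(1,1),(6,1),(7,5)]⟩,⟨0,[(3,0),(6,0),(0,0),(4,0),(8,0),(4,0)]⟩⟩,⟨true,0,⟨0,[(29,0),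
  (2,0)]⟩,⟨0,[(24,0),(5,0)]⟩⟩,⟨true,0,⟨1,[(9,0),(24,0)]⟩,⟨0,[(45,0)]⟩⟩,⟨false,0,⟨0,[(3,0),(30,0)]⟩,
  ⟨2,[(1,0),(8,1),(4,0),(0,1),(7,0),(2,0),(2,2),(12,1)]⟩⟩,⟨false,0,⟨0,[]⟩,⟨3,[(27,0),(0,0),(18,
  1)]⟩⟩,⟨false,0,⟨7,[(3,4),(0,2),(5,2),(0,3),(22,3),(1,0),(10,0)]⟩,⟨24,[(1,12),(5,5),(2,8),(5,16),
  (10,5),(2,24),(9,3),(2,15)]⟩⟩,[.o ⟨false,0,⟨0,[(31,0)]⟩,⟨3,[(20,1),(5,1),(13,0),(6,0)]⟩⟩,.a ⟨true,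
  0,⟨0,[(2,0),(19,0)]⟩,⟨18,[(1,1),(0,10),(1,1),(4,6),(5,4),(0,4),(9,0),(3,1)]⟩⟩ ⟨true,0,⟨15,[(1,14),
  (0,0),(2,0),(0,5),(3,1),(0,2),(4,0),(26,6)]⟩,⟨6,[(3,1),(0,0),(5,0),(0,2),(3,0),(12,1),(1,2),(2,
  0)]⟩⟩ ⟨false,0,⟨0,[(0,0),(9,0),(0,0),(6,0),(6,0)]⟩,⟨2,[(12,0),(7,0),(5,0),(3,2),(2,0),(6,0)]⟩⟩,.o
  ⟨false,1,⟨2,[(12,0),(17,2),(9,1)]⟩,⟨7,[(0,3),(2,1),(7,1),(5,1),(9,0),(1,1),(2,1),(7,0)]⟩⟩,.e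
  ⟨false,1,⟨7,[(5,3),(21,2),(0,0)]⟩,⟨21,[(2,1),(0,19),(6,5),(0,7),(0,0),(2,3),(0,2),(11,0),(1,
  19)]⟩⟩ ⟨false,0,⟨0,[(0,0),(9,0),(0,0),(6,0),(6,0)]⟩,⟨3,[(20,1),(5,1),(3,3),(9,0),(6,0)]⟩⟩]⟩) (.I
  [0,1,0,0,0,0,0,0,1] (.R ⟨1,false,false,true,[0,0,0,1],[1,-1],[0,1,0,0,0,0,0,0,1],(⟨0,[(31,0)]⟩,⟨0,
  [(30,0)]⟩),(⟨0,[(42,0)]⟩,⟨0,[(43,0)]⟩),⟨4,[(1,2),(1,0),(5,1),(0,0),(4,0),(0,0),(0,1),(13,1)]⟩,.k,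
  .k,(.r (-1) ⟨98,[(6,12),(0,16),(0,13),(1,9),(0,5),(1,9),(4,3),(10,55)]⟩ ⟨70,[(2,12),(0,2),(7,5),
  (0,34),(3,10),(0,2),(10,28),(15,4)]⟩),(.x 0 ⟨0,[(43,0)]⟩ ⟨11,[(9,3),(12,3),(5,4),(0,4),(11,1)]⟩),
  .k,.k,⟨true,0,⟨16,[(0,2),(0,1),(1,0),(0,1),(7,5),(3,3),(0,0),(11,5)]⟩,⟨15,[(2,14),(0,0),(2,0),(0,
  5),(3,1),(0,2),(4,0),(26,6)]⟩⟩,⟨false,1,⟨2,[(13,0),(17,2),(9,1)]⟩,⟨0,[(30,0)]⟩⟩,⟨true,0,⟨0,[(50,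
  0)]⟩,⟨0,[]⟩⟩,⟨false,1,⟨33,[(1,29),(0,9),(3,1),(1,9),(2,1),(5,15),(10,10),(2,3),(9,8)]⟩,⟨10,[(3,5),
  (0,5),(0,4),(6,1),(3,0),(31,1)]⟩⟩,⟨false,0,⟨0,[(46,0)]⟩,⟨15,[(10,3),(8,3),(6,3),(1,2),(0,2),(18,
  9)]⟩⟩,⟨false,1,⟨74,[(1,74),(0,10),(5,6),(2,22),(4,24),(0,48),(10,31),(12,12),(2,1)]⟩,⟨0,[(5,0),
  (38,0)]⟩⟩,[.a ⟨true,0,⟨0,[(45,0)]⟩,⟨0,[(3,0)]⟩⟩ ⟨true,0,⟨0,[(0,0)]⟩,⟨37,[(2,16),(0,0),(2,8),(4,1),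
  (0,16),(4,0),(10,5),(15,26)]⟩⟩ ⟨false,1,⟨2,[(1,2),(11,1),(6,2),(20,0)]⟩,⟨9,[(3,3),(0,3),(7,1),(3,
  0),(11,1),(1,5),(13,0),(1,0)]⟩⟩,.o ⟨false,1,⟨15,[(10,3),(7,3),(9,2),(0,2),(11,5),(6,3)]⟩,⟨0,[(46,
  0)]⟩⟩,.o ⟨false,0,⟨21,[(2,7),(1,9),(7,5),(5,1),(6,1),(2,0),(1,11),(10,4)]⟩,⟨2,[(13,0),(17,2),(9,
  1)]⟩⟩,.o ⟨false,0,⟨8,[(4,5),(0,1),(4,3),(1,3),(15,3),(1,0),(2,2),(3,0)]⟩,⟨15,[(1,6),(6,0),(2,11),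
  (4,1),(0,8),(13,8),(2,0),(6,2)]⟩⟩]⟩) (.R ⟨1,false,false,false,[1,0,0,-1],[0,1],[0,1,0,0,0,0,0,0,
  -1],(⟨0,[(30,0)]⟩,⟨0,[(31,0)]⟩),(⟨0,[(43,0)]⟩,⟨0,[(42,0)]⟩),⟨9,[(0,4),(3,4),(4,3),(1,3),(0,3),(2,
  1),(0,1),(0,8),(8,9),(3,4)]⟩,.k,.k,(.x (-1) ⟨11,[(9,3),(12,3),(5,4),(0,4),(11,1)]⟩ ⟨0,[(43,0)]⟩),
  (.x (-1) ⟨11,[(9,3),(12,3),(5,4),(0,4),(11,1)]⟩ ⟨0,[(43,0)]⟩),(.r (-1) ⟨0,[(6,0)]⟩ ⟨19,[(12,15),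
  (3,7),(11,2),(0,12)]⟩),.k,⟨false,1,⟨13,[(2,1),(3,5),(6,4),(3,0),(10,2),(3,5),(1,3),(15,1)]⟩,⟨9,
  [(1,5),(1,1),(0,7),(7,1),(0,0),(2,3),(0,2),(11,0),(1,1)]⟩⟩,⟨true,0,⟨0,[(30,0)]⟩,⟨10,[(1,4),(8,3),
  (1,2),(3,1),(14,5),(4,0),(4,2),(2,1)]⟩⟩,⟨true,0,⟨0,[(50,0)]⟩,⟨0,[]⟩⟩,⟨false,0,⟨10,[(3,5),(0,5),(0,
  4),(6,1),(3,0),(31,1)]⟩,⟨7,[(0,1),(0,1),(4,3),(21,0),(2,5),(2,1),(6,2)]⟩⟩,⟨false,0,⟨0,[(46,0)]⟩,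
  ⟨15,[(10,3),(8,3),(6,3),(1,2),(0,2),(18,9)]⟩⟩,⟨false,0,⟨10,[(3,9),(0,5),(0,4),(6,1),(3,0),(24,1),
  (4,6)]⟩,⟨6,[(0,0),(0,2),(4,3),(3,2),(17,0),(2,3),(9,1),(2,0)]⟩⟩,[.o ⟨false,0,⟨0,[(46,0)]⟩,⟨15,
  [(10,3),(7,3),(9,2),(0,2),(11,5),(6,3)]⟩⟩,.e ⟨true,0,⟨11,[(0,5),(1,3),(9,1),(0,0),(3,0),(10,0),(3,
  1)]⟩,⟨18,[(1,0),(2,7),(0,0),(4,3),(1,4),(3,0),(9,2),(2,4),(1,7)]⟩⟩ ⟨true,0,⟨18,[(0,0),(2,8),(0,8),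
  (7,3),(3,1),(11,3),(1,9)]⟩,⟨0,[(1,0),(18,0)]⟩⟩,.o ⟨false,1,⟨2,[(13,0),(17,2),(9,1)]⟩,⟨26,[(0,0),
  (1,7),(1,10),(5,1),(1,7),(5,1),(9,0),(1,15),(10,6)]⟩⟩,.a ⟨true,0,⟨0,[(31,0)]⟩,⟨0,[(30,0)]⟩⟩
  ⟨false,1,⟨5,[(13,1),(14,2),(12,0)]⟩,⟨0,[(4,0),(26,0)]⟩⟩ ⟨true,0,⟨0,[(30,0),(15,0)]⟩,⟨0,[(1,0),(18,
  0)]⟩⟩]⟩))))))) (.Q [0,0,0,0,0,-1,0,0,0,0,0,1] (.p true [0,0,0,1] [] (⟨0,[(25,0)]⟩,⟨0,[(24,0)]⟩)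
  .k 0 (⟨0,[]⟩,⟨0,[]⟩) .k .k) (.R ⟨1,false,false,true,[0,0,0,1],[1,1,-1],[0,0,0,0,0,0,0,0,1],(⟨0,
  [(26,0)]⟩,⟨0,[(25,0)]⟩),(⟨0,[(34,0),(3,0)]⟩,⟨0,[(19,0)]⟩),⟨0,[(0,0)]⟩,.k,.k,(.x 0 ⟨9,[(4,3),(5,1),
  (20,10),(0,6)]⟩ ⟨2,[(8,1),(27,0),(1,2)]⟩),(.r (-1) ⟨126,[(1,20),(1,44),(1,34),(0,24),(1,24),(2,0),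
  (9,9),(2,52)]⟩ ⟨19,[(2,3),(4,11),(15,10),(0,0)]⟩),(.r (-1) ⟨8,[(1,6),(0,3),(0,6),(1,4),(0,2),(1,
  4),(4,1),(10,0)]⟩ ⟨3,[(7,3),(15,2),(0,0)]⟩),.k,⟨false,1,⟨29,[(1,27),(0,17),(0,31),(1,1),(0,15),(1,
  8),(3,6),(11,0)]⟩,⟨3,[(7,1),(14,0),(0,1),(3,0),(2,0),(14,1)]⟩⟩,⟨true,1,⟨0,[(6,0),(19,0)]⟩,⟨3,[(5,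
  3),(1,3),(17,3),(5,0),(0,0),(6,1)]⟩⟩,⟨false,1,⟨3,[(23,0),(0,0),(18,1)]⟩,⟨0,[]⟩⟩,⟨false,1,⟨71,[(2,
  11),(3,65),(0,41),(0,3),(14,35),(2,71),(3,5),(5,4),(6,2)]⟩,⟨7,[(1,5),(1,3),(1,3),(6,1),(1,3),(9,
  0),(0,7),(10,0),(2,1)]⟩⟩,⟨true,0,⟨0,[(41,0)]⟩,⟨1,[(5,0),(24,0)]⟩⟩,⟨false,1,⟨5,[(6,5),(0,5),(0,1),
  (14,2),(2,5),(9,0)]⟩,⟨51,[(1,37),(1,27),(1,39),(6,5),(1,43),(9,6),(0,51),(10,2),(2,9)]⟩⟩,[.o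
  ⟨false,0,⟨1,[(6,0),(0,0),(19,0),(17,0)]⟩,⟨7,[(5,3),(10,1),(5,1),(13,0),(6,4)]⟩⟩,.a ⟨true,0,⟨2,[(6,
  0),(0,1),(0,0),(12,0),(8,0),(8,0)]⟩,⟨0,[(11,0),(0,0),(1,0),(6,0)]⟩⟩ ⟨true,0,⟨55,[(1,53),(0,19),(0,
  31),(2,13),(1,6),(3,6),(1,23),(9,0)]⟩,⟨1,[(7,0),(7,0),(5,0),(1,0)]⟩⟩ ⟨false,1,⟨71,[(2,11),(3,65),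
  (0,41),(0,27),(17,71),(3,5),(5,16),(6,2)]⟩,⟨19,[(5,11),(5,3),(13,19),(5,8),(0,0),(6,5)]⟩⟩,.o
  ⟨false,0,⟨0,[(20,0),(4,0),(2,0)]⟩,⟨2,[(8,0),(17,2),(9,1)]⟩⟩,.o ⟨false,0,⟨0,[(25,0),(2,0),(2,0)]⟩,
  ⟨0,[(6,0),(13,0),(5,0)]⟩⟩]⟩) (.I [0,0,-1,-1,0,0,0,0,1] (.R ⟨0,false,false,true,[0,0,0,1],[1,0,-1],
  [0,1,1],(⟨0,[(27,0)]⟩,⟨0,[(26,0)]⟩),(⟨0,[(35,0)]⟩,⟨0,[(36,0)]⟩),⟨0,[(1,0)]⟩,.k,.k,(.r 0 ⟨0,[(0,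
  0)]⟩ ⟨7,[(2,3),(21,8),(0,2)]⟩),.k,.k,.k,⟨true,0,⟨19,[(6,3),(5,7),(19,2),(0,6),(6,1)]⟩,⟨9,[(3,3),
  (4,1),(15,0),(0,0)]⟩⟩,⟨false,1,⟨0,[(7,0),(19,0)]⟩,⟨0,[(26,0),(5,0)]⟩⟩,⟨true,0,⟨1,[(8,0),(7,0),(5,
  0),(1,0)]⟩,⟨7,[(0,6),(1,0),(4,1),(0,1),(0,0),(2,0),(0,0)]⟩⟩,⟨false,1,⟨21,[(3,7),(3,13),(0,3),(15,
  10),(2,21),(0,1),(0,5),(14,0)]⟩,⟨44,[(0,3),(1,26),(1,19),(1,4),(14,39),(3,6),(0,44),(13,14)]⟩⟩,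
  ⟨false,0,⟨0,[]⟩,⟨0,[]⟩⟩,⟨false,0,⟨0,[]⟩,⟨0,[]⟩⟩,[.o ⟨false,0,⟨0,[(28,0)]⟩,⟨3,[(17,1),(5,1),(13,0),
  (6,0)]⟩⟩,.a ⟨true,0,⟨4,[(3,0),(3,0),(0,1),(0,0),(12,2),(8,0),(8,1)]⟩,⟨7,[(10,0),(1,3),(0,4),(8,3),
  (12,1),(2,0),(1,1)]⟩⟩ ⟨true,0,⟨1,[(32,0),(0,0)]⟩,⟨0,[]⟩⟩ ⟨false,1,⟨35,[(3,11),(3,29),(0,5),(0,3),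
  (17,35),(3,5),(5,4),(6,2)]⟩,⟨9,[(6,1),(5,3),(8,2),(4,9),(5,4),(7,0)]⟩⟩,.o ⟨false,0,⟨6,[(1,4),(3,
  1),(5,0),(14,1),(2,1),(2,3)]⟩,⟨2,[(9,0),(17,2),(9,1)]⟩⟩,.o ⟨false,0,⟨0,[(26,0),(2,0),(2,0)]⟩,⟨0,
  [(7,0),(13,0),(5,0)]⟩⟩]⟩) (.R ⟨0,false,false,true,[0,0,0,1],[1,1,-1],[0,1,0,-1,0,0,0,0,1],(⟨0,
  [(27,0)]⟩,⟨0,[(26,0)]⟩),(⟨0,[(35,0),(3,0)]⟩,⟨0,[(20,0)]⟩),⟨0,[(1,0)]⟩,.k,.k,(.x 0 ⟨9,[(5,3),(5,1),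
  (20,10),(0,6)]⟩ ⟨2,[(9,1),(27,0),(1,2)]⟩),(.r (-1) ⟨126,[(2,20),(1,44),(1,34),(0,24),(1,24),(2,0),
  (9,9),(2,52)]⟩ ⟨19,[(3,3),(4,11),(15,10),(0,0)]⟩),.k,.k,⟨false,1,⟨8,[(2,6),(0,3),(0,6),(1,4),(0,
  2),(1,4),(4,1),(10,0)]⟩,⟨5,[(8,5),(0,1),(14,2),(12,0)]⟩⟩,⟨true,1,⟨0,[(7,0),(19,0)]⟩,⟨3,[(6,3),(1,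
  3),(17,3),(5,0),(0,0),(6,1)]⟩⟩,⟨true,0,⟨0,[(41,0)]⟩,⟨0,[(42,0)]⟩⟩,⟨false,1,⟨71,[(3,11),(3,65),(0,
  41),(0,3),(14,35),(2,71),(3,5),(5,4),(6,2)]⟩,⟨231,[(1,64),(0,135),(1,87),(0,25),(0,127),(4,12),(1,
  64),(1,71),(9,47),(0,166),(13,99)]⟩⟩,⟨false,0,⟨0,[]⟩,⟨0,[]⟩⟩,⟨false,0,⟨0,[]⟩,⟨0,[]⟩⟩,[.o ⟨false,0,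
  ⟨1,[(7,0),(0,0),(19,0),(17,0)]⟩,⟨7,[(6,3),(10,1),(5,1),(13,0),(6,4)]⟩⟩,.a ⟨true,0,⟨2,[(7,0),(0,1),
  (0,0),(12,0),(8,0),(8,0)]⟩,⟨0,[(12,0),(0,0),(1,0),(6,0)]⟩⟩ ⟨true,0,⟨18,[(2,14),(0,10),(0,9),(1,4),
  (2,2),(4,2),(7,1),(2,1)]⟩,⟨0,[(0,0)]⟩⟩ ⟨false,1,⟨71,[(3,11),(3,65),(0,41),(0,27),(17,71),(3,5),(5,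
  16),(6,2)]⟩,⟨19,[(6,11),(5,3),(13,19),(5,8),(0,0),(6,5)]⟩⟩,.o ⟨false,0,⟨6,[(1,4),(3,1),(5,0),(14,
  1),(2,1),(2,3)]⟩,⟨2,[(9,0),(17,2),(9,1)]⟩⟩,.o ⟨false,0,⟨0,[(26,0),(2,0),(2,0)]⟩,⟨0,[(7,0),(13,0),
  (5,0)]⟩⟩]⟩)))))) (.R ⟨0,false,false,false,[0,-1,1],[1,0,-1],[1],(⟨0,[(15,0)]⟩,⟨1,[(0,0),(20,0),(0,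
  0),(7,0)]⟩),(⟨0,[(30,0)]⟩,⟨0,[(31,0)]⟩),⟨0,[(0,0)]⟩,.k,.k,(.r (-2) ⟨11,[(1,5),(2,7),(4,5),(2,5),
  (6,2),(0,2),(11,0),(6,2)]⟩ ⟨0,[(3,0)]⟩),(.r (-1) ⟨28,[(1,15),(0,8),(1,8),(2,9),(4,10),(4,6),(17,
  5)]⟩ ⟨3,[(3,1),(15,0),(0,0),(8,5)]⟩),.k,.k,⟨false,1,⟨12,[(2,2),(1,2),(2,1),(3,1),(0,2),(6,1),(0,
  1),(4,0)]⟩,⟨0,[(29,0)]⟩⟩,⟨true,1,⟨0,[(2,0),(25,0)]⟩,⟨3,[(1,3),(1,3),(1,0),(2,0),(21,1),(2,0),(1,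
  1)]⟩⟩,⟨false,0,⟨1,[(3,0),(25,0),(9,0)]⟩,⟨47,[(1,11),(2,15),(4,11),(2,23),(6,2),(0,2),(11,1)]⟩⟩,
  ⟨true,0,⟨8,[(2,9),(0,10),(0,0),(5,5),(6,6),(8,0),(8,0)]⟩,⟨3,[(1,1),(3,0),(1,1),(0,0),(2,1),(18,1),
  (2,0)]⟩⟩,⟨false,0,⟨0,[]⟩,⟨0,[]⟩⟩,⟨false,0,⟨0,[]⟩,⟨0,[]⟩⟩,[.a ⟨true,0,⟨8,[(2,1),(0,3),(0,1),(5,2),
  (6,4),(8,1),(8,1)]⟩,⟨7,[(5,0),(1,3),(0,4),(8,3),(12,1),(2,0),(1,1)]⟩⟩ ⟨true,0,⟨0,[]⟩,⟨1,[(27,0),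
  (0,0)]⟩⟩ ⟨false,1,⟨8,[(2,10),(0,3),(0,1),(5,2),(6,4),(8,1),(8,1)]⟩,⟨19,[(1,3),(5,7),(10,19),(8,2),
  (0,6),(6,1)]⟩⟩,.o ⟨false,1,⟨0,[(23,0),(15,0)]⟩,⟨0,[(25,0)]⟩⟩,.o ⟨false,0,⟨0,[(27,0)]⟩,⟨5,[(2,3),
  (16,0),(0,0),(3,1)]⟩⟩,.o ⟨false,0,⟨1,[(27,2),(0,0)]⟩,⟨0,[(2,0)]⟩⟩]⟩))))

theorem ok30 : chk (cU (-1) true 10) t30 l23 = true := by decide +kernel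

noncomputable def t32 : Tre :=
  (.K ⟨2,[0,1,1],0,0,(⟨0,[(31,0),(2,0)]⟩,⟨0,[(13,0)]⟩),.k,.k,(.r 0 ⟨3,[(7,1),(19,2),(0,2),(8,5)]⟩
  ⟨32,[(3,2),(0,19),(4,23),(0,11),(7,11),(13,3),(6,5)]⟩),.k,(.r 0 ⟨0,[(0,0)]⟩ ⟨23,[(4,7),(4,7),(0,
  7),(7,3),(0,6),(0,6),(8,31),(2,1)]⟩),[⟨1,[(27,0),(0,0)]⟩,⟨0,[(8,0)]⟩,⟨1,[(27,0),(0,2)]⟩,⟨0,[(16,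
  0)]⟩,⟨7,[(9,0),(0,1),(6,3),(0,0),(7,4)]⟩,⟨0,[(25,0),(11,0)]⟩]⟩)

theorem ok32 : chk (cU (-1) true 10) t32 l26 = true := by decide +kernel

noncomputable def t57 : Tre :=
  (.R ⟨0,false,false,true,[0,-1,1],[1,-1,-1],[1,1],(⟨0,[(13,0)]⟩,⟨1,[(0,0),(18,0),(0,0),(7,0)]⟩),
  (⟨0,[(11,0)]⟩,⟨1,[(0,0),(28,2)]⟩),⟨0,[(0,0)]⟩,.k,.k,(.r (-1) ⟨0,[(5,0)]⟩ ⟨3,[(24,3),(0,4),(0,0),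
  (6,1),(1,7)]⟩),.k,.k,.k,⟨true,0,⟨1,[(2,0),(19,0),(3,0),(8,1)]⟩,⟨3,[(7,0),(0,1),(7,0),(7,0)]⟩⟩,
  ⟨false,1,⟨0,[(4,0),(21,0)]⟩,⟨0,[(16,0)]⟩⟩,⟨false,0,⟨2,[(24,1),(0,1),(1,0),(5,0),(1,2)]⟩,⟨7,[(5,3),
  (4,1),(22,1),(2,0),(0,0)]⟩⟩,⟨true,0,⟨0,[(8,0),(6,0),(5,0),(13,1)]⟩,⟨0,[(2,0)]⟩⟩,⟨false,0,⟨0,[]⟩,
  ⟨0,[]⟩⟩,⟨false,0,⟨0,[]⟩,⟨0,[]⟩⟩,[.o ⟨false,0,⟨0,[(12,0)]⟩,⟨7,[(2,3),(14,0),(0,0),(11,1),(4,7),(1,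
  3)]⟩⟩,.a ⟨true,0,⟨0,[(8,0),(6,0),(19,0)]⟩,⟨1,[(2,0),(16,0),(0,0),(14,1)]⟩⟩ ⟨true,0,⟨0,[]⟩,⟨1,[(25,
  0),(0,0)]⟩⟩ ⟨false,1,⟨0,[(4,0),(3,0),(6,0),(19,0)]⟩,⟨1,[(2,0),(13,0),(8,0),(0,0),(8,1)]⟩⟩,.o
  ⟨false,0,⟨0,[(25,0)]⟩,⟨19,[(4,11),(1,3),(10,2),(0,2),(11,1)]⟩⟩,.o ⟨false,0,⟨1,[(25,2),(0,0)]⟩,⟨0,
  [(4,0)]⟩⟩]⟩)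

theorem ok57 : chk (cU (-1) true 10) t57 l38 = true := by decide +kernel

noncomputable def t61 : Tre :=
  (.Q [0,0,0,2,0,0,-2,-2,0,-1,2] (.p true [0,0,1] [1,0,-1] (⟨0,[(34,0)]⟩,⟨0,[(33,0)]⟩) .k 2 (⟨0,
  [(33,0)]⟩,⟨0,[(34,0)]⟩) .k (.r (-1) ⟨0,[(15,0),(28,0)]⟩ ⟨0,[(32,1)]⟩)) (.R ⟨1,false,false,false,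
  [0,-1,1],[1,0,-1],[1,0,0,0,0,0,0,-1],(⟨0,[(19,0)]⟩,⟨0,[(34,0),(3,0)]⟩),(⟨0,[(34,0)]⟩,⟨0,[(35,
  0)]⟩),⟨0,[(6,0)]⟩,.k,.k,(.r (-1) ⟨0,[(11,0)]⟩ ⟨3,[(0,3),(2,1),(4,1),(14,0),(0,0),(1,1),(4,1)]⟩),
  (.r (-1) ⟨3,[(4,0),(3,0),(2,0),(3,0),(0,1),(4,0)]⟩ ⟨7,[(0,3),(2,1),(18,1),(0,0),(0,0),(1,1),(4,1),
  (1,7)]⟩),(.x 1 ⟨0,[(1,0)]⟩ ⟨3,[(4,3),(18,0),(0,0),(9,7),(1,1),(1,7)]⟩),.k,⟨true,0,⟨0,[]⟩,⟨7,[(3,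
  1),(19,0),(0,0),(1,1),(1,1)]⟩⟩,⟨false,1,⟨0,[(4,0)]⟩,⟨7,[(3,1),(18,5),(0,0),(0,0),(1,1),(4,1)]⟩⟩,
  ⟨false,0,⟨3,[(0,2),(2,0),(10,1),(7,1),(3,0),(4,0),(11,0)]⟩,⟨3,[(4,0),(3,0),(2,0),(3,0),(0,1),(4,
  0)]⟩⟩,⟨false,1,⟨7,[(0,5),(12,1),(9,0),(0,0),(5,1),(12,5)]⟩,⟨0,[(7,0)]⟩⟩,⟨false,0,⟨5,[(0,5),(2,0),
  (18,4),(3,0),(4,0),(7,1),(3,0)]⟩,⟨9,[(7,2),(3,5),(0,1),(0,0),(1,0),(0,3),(4,1)]⟩⟩,⟨true,0,⟨0,[(0,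
  0)]⟩,⟨0,[(7,0),(32,0)]⟩⟩,[.a ⟨true,0,⟨2,[(0,0),(13,0),(6,0),(3,0),(0,0)]⟩,⟨1,[(8,0),(16,0),(0,
  0)]⟩⟩ ⟨true,0,⟨0,[(33,0)]⟩,⟨4,[(3,0),(4,0),(3,1),(3,0),(9,0),(2,0)]⟩⟩ ⟨false,1,⟨7,[(0,1),(3,4),(8,
  0),(0,1),(15,0),(11,2)]⟩,⟨7,[(3,1),(4,3),(13,1),(0,0),(0,0),(1,1),(4,1)]⟩⟩,.o ⟨false,1,⟨11,[(0,3),
  (12,3),(9,0),(0,0),(11,1),(6,7)]⟩,⟨0,[(29,0)]⟩⟩,.o ⟨false,0,⟨0,[(31,0)]⟩,⟨7,[(4,3),(18,0),(0,0),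
  (11,1)]⟩⟩,.o ⟨false,0,⟨7,[(3,3),(19,0),(0,0),(1,3),(4,3),(4,1)]⟩,⟨0,[(10,0)]⟩⟩]⟩) (.I [0,0,0,0,0,
  0,0,-1,1] (.I [0,0,0,0,0,0,0,0,1] (.Q [0,0,0,0,0,0,1,1,0,0,-1,1] (.p false [0,0,1] [0,0,0,1] (⟨0,
  [(37,0)]⟩,⟨0,[(36,0)]⟩) .k 2 (⟨0,[(28,0)]⟩,⟨0,[(27,0)]⟩) .k (.r (-1) ⟨1,[(18,0),(6,0),(21,0)]⟩ ⟨0,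
  [(1,0)]⟩)) (.Q [0,0,0,0,0,-1,0,0,0,1,0,-1] (.p false [0,0,0,1] [1] (⟨0,[(29,0)]⟩,⟨0,[(28,0)]⟩) .k
  1 (⟨0,[]⟩,⟨0,[]⟩) .k .k) (.R ⟨1,false,false,false,[1,0,0,-1],[1,0,-1],[0,0,0,0,0,0,0,0,-1],(⟨0,
  [(29,0)]⟩,⟨0,[(30,0)]⟩),(⟨0,[(38,0)]⟩,⟨0,[(39,0)]⟩),⟨0,[(0,0)]⟩,.k,.k,(.x (-1) ⟨15,[(9,3),(0,3),
  (16,6),(0,6),(11,1)]⟩ ⟨0,[(42,0)]⟩),.k,(.r (-1) ⟨1,[(4,0),(3,0),(18,0)]⟩ ⟨3,[(3,1),(3,0),(20,0),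
  (1,0),(1,0),(4,1),(7,3)]⟩),.k,⟨false,1,⟨1,[(8,0),(3,0),(14,0)]⟩,⟨0,[(3,0)]⟩⟩,⟨true,0,⟨0,[(29,0),
  (2,0)]⟩,⟨0,[(24,0),(5,0)]⟩⟩,⟨false,1,⟨3,[(27,0),(0,0),(18,1)]⟩,⟨0,[]⟩⟩,⟨false,0,⟨0,[(2,0),(26,0),
  (1,0),(11,0)]⟩,⟨1,[(1,1),(25,0),(18,0)]⟩⟩,⟨true,0,⟨0,[(45,0)]⟩,⟨0,[(44,0)]⟩⟩,⟨false,0,⟨0,[(2,0),
  (26,0),(1,0),(11,0),(1,0)]⟩,⟨17,[(1,15),(13,5),(1,1),(0,1),(7,1),(0,8),(2,1),(15,2)]⟩⟩,[.a ⟨true,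
  0,⟨0,[(18,0),(6,0),(19,1)]⟩,⟨1,[(12,0),(16,0),(0,0)]⟩⟩ ⟨false,1,⟨1,[(27,0),(18,0)]⟩,⟨0,[(2,0)]⟩⟩
  ⟨true,0,⟨4,[(7,0),(8,0),(12,3),(1,3),(5,0),(5,0),(3,0)]⟩,⟨0,[(1,0)]⟩⟩,.o ⟨false,1,⟨0,[(31,0),(15,
  0)]⟩,⟨0,[(33,0)]⟩⟩,.o ⟨false,1,⟨1,[(30,1),(9,0),(5,0)]⟩,⟨0,[(7,0),(6,0)]⟩⟩,.e ⟨false,1,⟨1,[(8,0),
  (3,0),(5,1),(8,0),(17,1)]⟩,⟨3,[(2,1),(4,0),(20,0),(1,0),(1,0)]⟩⟩ ⟨false,1,⟨0,[(29,0),(1,0),(15,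
  0)]⟩,⟨0,[(1,0)]⟩⟩]⟩) (.R ⟨0,false,false,false,[1,0,0,-1],[1,0,-1],[1,0,0,0,0,0,0,0,-1],(⟨0,[(29,
  0)]⟩,⟨0,[(30,0)]⟩),(⟨0,[(38,0)]⟩,⟨0,[(39,0)]⟩),⟨0,[(0,0)]⟩,.k,.k,(.x (-1) ⟨15,[(9,3),(0,3),(16,6),
  (0,6),(11,1)]⟩ ⟨0,[(42,0)]⟩),.k,.k,.k,⟨false,1,⟨1,[(8,0),(3,0),(14,0)]⟩,⟨0,[(3,0)]⟩⟩,⟨true,0,⟨0,
  [(29,0),(2,0)]⟩,⟨9,[(0,5),(4,0),(3,1),(16,3),(3,3),(15,0)]⟩⟩,⟨true,0,⟨0,[]⟩,⟨0,[(49,0)]⟩⟩,⟨false,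
  0,⟨0,[(2,0),(26,0),(1,0),(11,0)]⟩,⟨1,[(1,1),(25,0),(18,0)]⟩⟩,⟨false,0,⟨0,[]⟩,⟨0,[]⟩⟩,⟨false,0,⟨0,
  []⟩,⟨0,[]⟩⟩,[.a ⟨true,0,⟨0,[(18,0),(6,0),(19,1)]⟩,⟨1,[(12,0),(16,0),(0,0)]⟩⟩ ⟨false,1,⟨1,[(27,0),
  (18,0)]⟩,⟨0,[(2,0)]⟩⟩ ⟨true,0,⟨4,[(7,0),(8,0),(12,3),(1,3),(5,0),(5,0),(3,0)]⟩,⟨0,[(1,0)]⟩⟩,.o
  ⟨false,1,⟨0,[(31,0),(15,0)]⟩,⟨0,[(33,0)]⟩⟩,.o ⟨false,1,⟨1,[(30,1),(9,0),(5,0)]⟩,⟨0,[(7,0),(6,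
  0)]⟩⟩,.e ⟨false,1,⟨1,[(8,0),(3,0),(5,1),(8,0),(17,1)]⟩,⟨3,[(2,1),(4,0),(20,0),(1,0),(1,0)]⟩⟩
  ⟨false,1,⟨0,[(29,0),(1,0),(15,0)]⟩,⟨0,[(1,0)]⟩⟩]⟩)) (.R ⟨1,false,false,false,[1,0,0,-1],[1,0,-1],
  [0,0,0,0,0,0,0,0,-1],(⟨0,[(28,0)]⟩,⟨0,[(29,0)]⟩),(⟨0,[(37,0)]⟩,⟨0,[(38,0)]⟩),⟨3,[(0,1),(7,0),(0,
  0),(1,0),(16,1)]⟩,.k,.k,(.x (-1) ⟨15,[(8,3),(0,3),(16,6),(0,6),(11,1)]⟩ ⟨0,[(41,0)]⟩),.k,(.r (-1)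
  ⟨1,[(3,0),(3,0),(18,0)]⟩ ⟨3,[(2,1),(3,0),(20,0),(1,0),(1,0),(4,1),(7,3)]⟩),.k,⟨false,1,⟨1,[(7,0),
  (3,0),(14,0)]⟩,⟨0,[(2,0)]⟩⟩,⟨true,0,⟨0,[(28,0),(2,0)]⟩,⟨0,[(23,0),(5,0)]⟩⟩,⟨false,1,⟨3,[(26,0),(0,
  0),(18,1)]⟩,⟨0,[]⟩⟩,⟨false,0,⟨7,[(0,6),(0,4),(0,0),(3,0),(8,0),(11,0),(14,3)]⟩,⟨1,[(11,0),(1,0),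
  (9,0),(2,0),(2,1)]⟩⟩,⟨true,0,⟨0,[(44,0)]⟩,⟨0,[(43,0)]⟩⟩,⟨false,0,⟨7,[(0,6),(0,4),(0,0),(3,0),(8,
  0),(11,0),(14,3),(1,7)]⟩,⟨1,[(3,0),(9,0),(9,0),(2,0),(2,1)]⟩⟩,[.e ⟨false,1,⟨1,[(26,0),(18,0)]⟩,⟨0,
  [(1,0)]⟩⟩ ⟨false,0,⟨0,[(0,0)]⟩,⟨7,[(11,3),(14,0),(0,0),(1,7),(9,1),(5,3)]⟩⟩,.o ⟨false,1,⟨0,[(30,
  0),(15,0)]⟩,⟨0,[(32,0)]⟩⟩,.o ⟨false,1,⟨1,[(29,1),(9,0),(5,0)]⟩,⟨3,[(0,1),(5,0),(4,0),(16,0),(2,0),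
  (7,0)]⟩⟩,.a ⟨true,0,⟨0,[(29,0)]⟩,⟨0,[(28,0)]⟩⟩ ⟨false,1,⟨1,[(7,0),(3,0),(5,1),(8,0),(17,1)]⟩,⟨3,
  [(1,1),(4,0),(20,0),(1,0),(1,0)]⟩⟩ ⟨true,0,⟨0,[(0,0)]⟩,⟨0,[(29,0),(2,0)]⟩⟩]⟩)) (.I [1,0,0,-1,0,0,
  0,0,-1] (.Q [0,0,0,1,0,0,1,1,0,1,-1,-1] (.p false [0,0,1] [1,0,0,-1] (⟨0,[(38,0)]⟩,⟨0,[(37,0)]⟩)
  .k 2 (⟨0,[(28,0)]⟩,⟨0,[(29,0)]⟩) .k (.r (-1) ⟨1,[(19,0),(7,0),(20,0)]⟩ ⟨0,[(1,0),(34,0)]⟩)) (.Q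
  [0,0,0,0,0,-1,0,0,0,1,0,-1] (.p false [0,0,0,1] [1] (⟨0,[(30,0)]⟩,⟨0,[(29,0)]⟩) .k 1 (⟨0,[]⟩,⟨0,
  []⟩) .k .k) (.R ⟨1,false,false,true,[1,0,0,-1],[0,1,1],[1,1,0,-1,0,0,0,0,-1],(⟨0,[(30,0)]⟩,⟨0,
  [(31,0)]⟩),(⟨0,[(40,0),(2,0)]⟩,⟨0,[(22,0)]⟩),⟨0,[(0,0)]⟩,.k,.k,(.x (-1) ⟨15,[(10,3),(0,3),(16,6),
  (0,6),(11,1)]⟩ ⟨0,[(43,0)]⟩),(.r (-1) ⟨3,[(18,0),(0,1),(7,0),(0,1),(6,0),(11,1)]⟩ ⟨0,[(4,0),(8,0),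
  (3,0),(28,0)]⟩),(.r (-1) ⟨3,[(2,3),(15,0),(0,1),(7,0),(7,0),(11,3)]⟩ ⟨2,[(4,0),(3,0),(4,1),(3,1),
  (11,0),(1,0),(1,0),(12,5)]⟩),.k,⟨false,1,⟨3,[(2,3),(15,0),(0,1),(7,0),(7,0),(11,3)]⟩,⟨0,[(4,0),(8,
  0),(3,0),(28,1)]⟩⟩,⟨true,0,⟨0,[(25,0),(4,0)]⟩,⟨0,[(31,0),(1,0)]⟩⟩,⟨true,0,⟨0,[(45,0)]⟩,⟨0,[(46,
  0)]⟩⟩,⟨false,0,⟨4,[(1,3),(2,2),(3,0),(4,1),(3,1),(11,0),(16,0)]⟩,⟨3,[(3,1),(5,1),(9,3),(8,0),(2,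
  3),(9,0)]⟩⟩,⟨false,0,⟨0,[]⟩,⟨3,[(28,0),(0,0),(18,1)]⟩⟩,⟨false,0,⟨4,[(1,3),(2,2),(3,0),(4,1),(3,1),
  (11,0),(16,5)]⟩,⟨24,[(2,8),(12,14),(0,1),(1,9),(0,16),(8,7),(2,24),(12,8)]⟩⟩,[.o ⟨false,0,⟨0,[(34,
  0),(11,0)]⟩,⟨0,[(23,0),(24,0)]⟩⟩,.a ⟨true,0,⟨0,[(1,0),(29,0)]⟩,⟨0,[(19,0),(6,0),(19,0)]⟩⟩ ⟨true,0,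
  ⟨0,[(2,0)]⟩,⟨5,[(4,3),(3,0),(4,1),(3,1),(11,0),(1,0),(1,0),(12,5)]⟩⟩ ⟨false,0,⟨0,[(1,0)]⟩,⟨7,[(15,
  3),(2,3),(9,0),(0,0),(1,7),(6,3),(9,1)]⟩⟩,.o ⟨false,1,⟨1,[(31,1),(9,0),(5,0)]⟩,⟨0,[(8,0),(6,0)]⟩⟩,
  .e ⟨false,1,⟨11,[(16,3),(1,0),(0,1),(7,0),(0,5),(6,0),(11,1)]⟩,⟨0,[(4,0),(9,0),(31,0)]⟩⟩ ⟨false,0,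
  ⟨0,[(1,0)]⟩,⟨0,[(23,0),(7,0),(16,0)]⟩⟩]⟩) (.R ⟨0,false,false,true,[1,0,0,-1],[0,1,1],[1,1,0,-1,0,
  0,0,0,-1],(⟨0,[(30,0)]⟩,⟨0,[(31,0)]⟩),(⟨0,[(40,0),(2,0)]⟩,⟨0,[(22,0)]⟩),⟨0,[(0,0)]⟩,.k,.k,(.x
  (-1) ⟨15,[(10,3),(0,3),(16,6),(0,6),(11,1)]⟩ ⟨0,[(43,0)]⟩),(.r (-1) ⟨3,[(18,0),(0,1),(7,0),(0,1),
  (6,0),(11,1)]⟩ ⟨0,[(4,0),(8,0),(3,0),(28,0)]⟩),.k,.k,⟨false,1,⟨3,[(2,3),(15,0),(0,1),(7,0),(7,0),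
  (11,3)]⟩,⟨0,[(4,0),(8,0),(3,0),(28,1)]⟩⟩,⟨true,0,⟨0,[(25,0),(4,0)]⟩,⟨0,[(31,0),(1,0)]⟩⟩,⟨true,0,
  ⟨0,[(45,0)]⟩,⟨0,[(46,0)]⟩⟩,⟨false,0,⟨4,[(1,3),(2,2),(3,0),(4,1),(3,1),(11,0),(16,0)]⟩,⟨5,[(0,3),
  (8,2),(0,0),(0,0),(7,5),(8,2),(2,1)]⟩⟩,⟨false,0,⟨0,[]⟩,⟨0,[]⟩⟩,⟨false,0,⟨0,[]⟩,⟨0,[]⟩⟩,[.o ⟨false,
  0,⟨0,[(34,0),(11,0)]⟩,⟨0,[(23,0),(24,0)]⟩⟩,.a ⟨true,0,⟨0,[(1,0),(29,0)]⟩,⟨0,[(19,0),(6,0),(19,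
  0)]⟩⟩ ⟨true,0,⟨0,[(2,0)]⟩,⟨53,[(0,5),(3,31),(1,0),(1,9),(1,1),(2,15),(3,21),(11,10),(1,3),(14,
  53)]⟩⟩ ⟨false,0,⟨0,[(1,0)]⟩,⟨7,[(15,3),(2,3),(9,0),(0,0),(1,7),(6,3),(9,1)]⟩⟩,.o ⟨false,1,⟨1,[(31,
  1),(9,0),(5,0)]⟩,⟨0,[(8,0),(6,0)]⟩⟩,.e ⟨false,1,⟨11,[(16,3),(1,0),(0,1),(7,0),(0,5),(6,0),(11,
  1)]⟩,⟨0,[(4,0),(9,0),(31,0)]⟩⟩ ⟨false,0,⟨0,[(1,0)]⟩,⟨0,[(23,0),(7,0),(16,0)]⟩⟩]⟩)) (.Q [0,0,0,0,0,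
  -1,0,0,0,1,0,-1] (.p false [0,0,0,1] [1] (⟨0,[(30,0)]⟩,⟨0,[(29,0)]⟩) .k 1 (⟨0,[]⟩,⟨0,[]⟩) .k .k)
  (.R ⟨1,false,false,false,[1,0,0,-1],[0,1],[1,1,0,-1,0,0,0,0,-1],(⟨0,[(30,0)]⟩,⟨0,[(31,0)]⟩),(⟨0,
  [(43,0)]⟩,⟨0,[(42,0)]⟩),⟨0,[(0,0)]⟩,.k,.k,(.x (-1) ⟨15,[(10,3),(0,3),(16,6),(0,6),(11,1)]⟩ ⟨0,
  [(43,0)]⟩),(.x (-1) ⟨15,[(10,3),(0,3),(16,6),(0,6),(11,1)]⟩ ⟨0,[(43,0)]⟩),(.r (-1) ⟨11,[(2,11),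
  (13,3),(1,0),(0,1),(7,0),(7,0),(11,7)]⟩ ⟨1,[(8,0),(20,0),(1,0),(1,0),(12,3)]⟩),.k,⟨false,1,⟨0,[(2,
  0),(42,0),(1,0)]⟩,⟨0,[(4,0),(9,0),(31,1)]⟩⟩,⟨true,0,⟨0,[(30,0)]⟩,⟨0,[(25,0),(5,0),(1,0)]⟩⟩,⟨true,
  0,⟨0,[(45,0)]⟩,⟨0,[(46,0)]⟩⟩,⟨false,0,⟨0,[(4,0),(9,0),(15,0),(15,0)]⟩,⟨7,[(1,3),(1,1),(1,1),(9,3),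
  (9,3),(2,2),(2,3),(9,0)]⟩⟩,⟨false,0,⟨0,[]⟩,⟨3,[(28,0),(0,0),(18,1)]⟩⟩,⟨false,0,⟨0,[(4,0),(9,0),
  (15,0),(15,1)]⟩,⟨1,[(1,1),(3,0),(9,0),(9,0),(2,0)]⟩⟩,[.o ⟨false,0,⟨0,[(46,0)]⟩,⟨23,[(5,3),(12,7),
  (9,4),(0,4),(11,9),(6,3)]⟩⟩,.e ⟨true,0,⟨0,[(2,0)]⟩,⟨5,[(4,3),(3,0),(4,1),(3,1),(11,0),(1,0),(1,0),
  (12,5)]⟩⟩ ⟨true,0,⟨5,[(8,0),(21,4),(6,0),(6,1),(1,5),(1,0)]⟩,⟨0,[(1,0),(32,0)]⟩⟩,.o ⟨false,1,⟨1,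
  [(31,1),(9,0),(5,0)]⟩,⟨0,[(8,0),(6,0)]⟩⟩,.a ⟨true,0,⟨0,[(31,0)]⟩,⟨0,[(30,0)]⟩⟩ ⟨false,1,⟨11,[(16,
  3),(1,0),(0,1),(7,0),(0,5),(6,0),(11,1)]⟩,⟨0,[(4,0),(9,0),(31,0)]⟩⟩ ⟨true,0,⟨0,[(30,0),(15,0)]⟩,
  ⟨0,[(1,0),(32,0)]⟩⟩]⟩) (.R ⟨0,false,false,false,[1,0,0,-1],[0,1],[1,1,0,-1,0,0,0,0,-1],(⟨0,[(30,
  0)]⟩,⟨0,[(31,0)]⟩),(⟨0,[(43,0)]⟩,⟨0,[(42,0)]⟩),⟨0,[(0,0)]⟩,.k,.k,(.x (-1) ⟨15,[(10,3),(0,3),(16,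
  6),(0,6),(11,1)]⟩ ⟨0,[(43,0)]⟩),(.x (-1) ⟨15,[(10,3),(0,3),(16,6),(0,6),(11,1)]⟩ ⟨0,[(43,0)]⟩),.k,
  .k,⟨false,1,⟨0,[(2,0),(42,0),(1,0)]⟩,⟨0,[(4,0),(9,0),(31,1)]⟩⟩,⟨true,0,⟨0,[(30,0)]⟩,⟨11,[(0,5),(5,
  0),(1,1),(1,1),(20,7),(1,3),(7,2)]⟩⟩,⟨true,0,⟨0,[(45,0)]⟩,⟨0,[(46,0)]⟩⟩,⟨false,0,⟨0,[(4,0),(9,0),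
  (15,0),(15,0)]⟩,⟨17,[(0,11),(0,5),(4,1),(3,3),(4,4),(0,5),(8,4),(1,0),(0,8)]⟩⟩,⟨false,0,⟨0,[]⟩,⟨0,
  []⟩⟩,⟨false,0,⟨0,[]⟩,⟨0,[]⟩⟩,[.o ⟨false,0,⟨0,[(46,0)]⟩,⟨23,[(5,3),(12,7),(9,4),(0,4),(11,9),(6,
  3)]⟩⟩,.e ⟨true,0,⟨0,[(2,0)]⟩,⟨53,[(0,5),(3,31),(1,0),(1,9),(1,1),(2,15),(3,21),(11,10),(1,3),(14,
  53)]⟩⟩ ⟨true,0,⟨5,[(8,0),(21,4),(6,0),(6,1),(1,5),(1,0)]⟩,⟨0,[(1,0),(32,0)]⟩⟩,.o ⟨false,1,⟨1,[(31,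
  1),(9,0),(5,0)]⟩,⟨0,[(8,0),(6,0)]⟩⟩,.a ⟨true,0,⟨0,[(31,0)]⟩,⟨0,[(30,0)]⟩⟩ ⟨false,1,⟨11,[(16,3),(1,
  0),(0,1),(7,0),(0,5),(6,0),(11,1)]⟩,⟨0,[(4,0),(9,0),(31,0)]⟩⟩ ⟨true,0,⟨0,[(30,0),(15,0)]⟩,⟨0,[(1,
  0),(32,0)]⟩⟩]⟩))) (.Q [0,1,0,-1,0,0,0,0,0,0,0,-1] (.p false [0,0,0,1] [] (⟨0,[(29,0)]⟩,⟨0,[(28,
  0)]⟩) .k 0 (⟨0,[]⟩,⟨0,[]⟩) .k .k) (.I [1,0,0,0,0,0,0,0,1] (.N [0,0,0,1] 0 ⟨0,[(0,0)]⟩ ⟨0,[(3,0)]⟩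
  .k) (.Q [0,0,0,0,0,-1,0,0,0,0,0,1] (.p true [0,0,0,1] [] (⟨0,[(31,0)]⟩,⟨0,[(30,0)]⟩) .k 0 (⟨0,[]⟩,
  ⟨0,[]⟩) .k .k) (.R ⟨1,false,false,false,[0,0,0,1],[0,0,1],[0,1,0,0,0,0,0,0,1],(⟨0,[(32,0)]⟩,⟨0,
  [(31,0)]⟩),(⟨0,[(41,0)]⟩,⟨0,[(40,0)]⟩),⟨0,[(0,0)]⟩,.k,.k,(.r (-1) ⟨11,[(17,3),(1,0),(0,1),(7,0),
  (1,5),(5,0),(11,1)]⟩ ⟨3,[(1,1),(7,0),(19,0),(2,0),(1,0),(12,3)]⟩),.k,(.r (-1) ⟨3,[(19,0),(0,1),(7,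
  0),(1,1),(5,0),(11,1)]⟩ ⟨7,[(1,5),(7,0),(4,3),(3,3),(10,0),(2,0),(1,0),(12,7)]⟩),.k,⟨true,0,⟨0,
  [(5,0),(45,0)]⟩,⟨0,[(1,0),(13,0)]⟩⟩,⟨false,1,⟨0,[(16,0),(11,0),(3,0)]⟩,⟨0,[(31,0),(2,0)]⟩⟩,⟨true,
  0,⟨0,[(51,0)]⟩,⟨0,[]⟩⟩,⟨false,1,⟨1,[(1,1),(12,0),(1,0),(9,0),(5,1),(16,0)]⟩,⟨0,[(5,0),(25,0),(2,
  0)]⟩⟩,⟨false,0,⟨0,[(47,0)]⟩,⟨23,[(6,3),(12,3),(0,3),(6,3),(1,4),(0,4),(18,13)]⟩⟩,⟨false,1,⟨1,[(1,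
  1),(12,0),(1,0),(9,0),(5,1),(14,1),(1,0)]⟩,⟨49,[(2,15),(2,41),(0,2),(2,3),(8,22),(0,13),(10,3),(0,
  29),(13,14)]⟩⟩,[.a ⟨true,0,⟨1,[(14,0),(16,0),(0,0)]⟩,⟨0,[(20,0),(6,0),(19,1)]⟩⟩ ⟨true,0,⟨3,[(3,2),
  (1,0),(15,1),(5,0),(8,0)]⟩,⟨7,[(1,5),(7,0),(19,0),(2,0),(1,0),(10,3)]⟩⟩ ⟨false,1,⟨1,[(14,0),(1,1),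
  (11,0),(3,1)]⟩,⟨4,[(9,0),(8,0),(12,3),(1,3),(5,0),(5,0),(3,0)]⟩⟩,.o ⟨false,1,⟨7,[(14,3),(14,0),(0,
  0),(11,1),(6,3)]⟩,⟨0,[(33,0)]⟩⟩,.o ⟨false,0,⟨0,[(9,0),(6,0)]⟩,⟨1,[(32,1),(9,0),(5,0)]⟩⟩,.o ⟨false,
  0,⟨27,[(9,15),(8,7),(10,2),(0,2),(0,11),(10,9)]⟩,⟨0,[(16,0),(9,0),(5,0)]⟩⟩]⟩) (.R ⟨0,false,false,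
  false,[0,0,0,1],[0,0,1],[1],(⟨0,[(32,0)]⟩,⟨0,[(31,0)]⟩),(⟨0,[(41,0)]⟩,⟨0,[(40,0)]⟩),⟨0,[(0,0)]⟩,
  .k,.k,(.r (-1) ⟨11,[(17,3),(1,0),(0,1),(7,0),(1,5),(5,0),(11,1)]⟩ ⟨3,[(1,1),(7,0),(19,0),(2,0),(1,
  0),(12,3)]⟩),.k,.k,.k,⟨true,0,⟨0,[(39,0)]⟩,⟨4,[(9,0),(4,0),(3,1),(3,0),(9,0),(2,0)]⟩⟩,⟨false,1,⟨0,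
  [(16,0),(11,0),(3,0)]⟩,⟨20,[(0,3),(8,2),(1,0),(0,0),(5,11),(12,13),(10,2)]⟩⟩,⟨true,0,⟨0,[(4,0)]⟩,
  ⟨3,[(3,2),(1,0),(15,1),(5,0),(8,0)]⟩⟩,⟨false,1,⟨1,[(1,1),(12,0),(1,0),(9,0),(5,1),(16,0)]⟩,⟨20,
  [(0,3),(4,20),(3,2),(1,0),(0,0),(5,11),(12,13),(10,2)]⟩⟩,⟨false,0,⟨0,[]⟩,⟨0,[]⟩⟩,⟨false,0,⟨0,[]⟩,
  ⟨0,[]⟩⟩,[.a ⟨true,0,⟨1,[(14,0),(16,0),(0,0)]⟩,⟨0,[(20,0),(6,0),(19,1)]⟩⟩ ⟨true,0,⟨0,[]⟩,⟨7,[(9,1),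
  (19,0),(0,0),(1,1),(1,1)]⟩⟩ ⟨false,1,⟨1,[(14,0),(1,1),(11,0),(3,1)]⟩,⟨4,[(9,0),(8,0),(12,3),(1,3),
  (5,0),(5,0),(3,0)]⟩⟩,.o ⟨false,1,⟨7,[(14,3),(14,0),(0,0),(11,1),(6,3)]⟩,⟨0,[(33,0)]⟩⟩,.o ⟨false,0,
  ⟨20,[(0,7),(8,5),(1,1),(0,1),(5,2),(12,6),(10,5)]⟩,⟨1,[(32,1),(9,0),(5,0)]⟩⟩,.o ⟨false,0,⟨27,[(9,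
  15),(8,7),(10,2),(0,2),(0,11),(10,9)]⟩,⟨0,[(16,0),(9,0),(5,0)]⟩⟩]⟩))) (.R ⟨1,false,false,false,[0,
  0,0,1],[0,0,1],[0,1,0,0,0,0,0,0,1],(⟨0,[(30,0)]⟩,⟨0,[(29,0)]⟩),(⟨0,[(39,0)]⟩,⟨0,[(38,0)]⟩),⟨3,[(0,
  1),(8,0),(0,0),(8,0),(2,0),(7,1)]⟩,.k,.k,(.r (-1) ⟨11,[(15,3),(1,0),(0,1),(7,0),(1,5),(5,0),(11,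
  1)]⟩ ⟨3,[(0,0),(1,1),(4,0),(19,0),(4,0),(12,2),(3,0)]⟩),.k,(.r (-1) ⟨3,[(17,0),(0,1),(7,0),(1,1),
  (5,0),(11,1)]⟩ ⟨6,[(0,0),(1,4),(4,0),(4,2),(3,3),(10,0),(5,0),(11,5)]⟩),.k,⟨true,0,⟨0,[(3,0),(45,
  0)]⟩,⟨0,[(2,0),(10,0)]⟩⟩,⟨false,1,⟨0,[(14,0),(11,0),(3,0)]⟩,⟨0,[(29,0),(2,0)]⟩⟩,⟨true,0,⟨0,[(49,
  0)]⟩,⟨0,[]⟩⟩,⟨false,1,⟨1,[(0,1),(3,0),(9,0),(9,0),(2,0)]⟩,⟨0,[(3,0),(25,0),(2,0)]⟩⟩,⟨false,0,⟨0,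
  [(45,0)]⟩,⟨23,[(4,3),(12,3),(0,3),(6,3),(1,4),(0,4),(18,13)]⟩⟩,⟨false,1,⟨1,[(0,1),(11,0),(1,0),(9,
  0),(2,0)]⟩,⟨7,[(1,3),(1,1),(3,0),(8,0),(0,5),(10,0),(0,6),(2,0),(10,2)]⟩⟩,[.a ⟨true,0,⟨1,[(12,0),
  (16,0),(0,0)]⟩,⟨2,[(0,1),(17,0),(6,0),(3,1),(1,1)]⟩⟩ ⟨true,0,⟨3,[(1,2),(1,0),(15,1),(5,0),(8,0)]⟩,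
  ⟨7,[(2,5),(4,0),(19,0),(2,0),(1,0),(10,3)]⟩⟩ ⟨false,1,⟨1,[(12,0),(1,1),(11,0),(3,1)]⟩,⟨4,[(7,0),
  (8,0),(12,3),(1,3),(5,0),(5,0),(3,0)]⟩⟩,.o ⟨false,1,⟨7,[(12,3),(14,0),(0,0),(11,1),(6,3)]⟩,⟨0,
  [(31,0)]⟩⟩,.o ⟨false,0,⟨0,[(7,0),(6,0)]⟩,⟨1,[(30,1),(9,0),(5,0)]⟩⟩,.o ⟨false,0,⟨27,[(7,15),(8,7),
  (10,2),(0,2),(0,11),(10,9)]⟩,⟨0,[(14,0),(9,0),(5,0)]⟩⟩]⟩)))) (.I [0,1,1,0,-1,0,0,-1,-1] (.Q [0,0,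
  0,0,0,0,1,1,0,0,-1,1] (.p false [0,0,1] [0,0,0,1] (⟨0,[(37,0)]⟩,⟨0,[(36,0)]⟩) .k 2 (⟨0,[(28,0)]⟩,
  ⟨0,[(27,0)]⟩) .k (.r 0 ⟨1,[(0,1),(1,4),(0,0),(2,2),(0,1),(6,1),(0,1),(0,3),(23,5),(2,17)]⟩ ⟨3,
  [(25,0),(0,2),(8,3)]⟩)) (.Q [0,0,0,0,0,-1,0,0,0,1,0,-1] (.p false [0,0,0,1] [1] (⟨0,[(29,0)]⟩,⟨0,
  [(28,0)]⟩) .k 1 (⟨0,[]⟩,⟨0,[]⟩) .k .k) (.R ⟨1,false,false,false,[1,0,0,-1],[1,0,-1],[0,1,0,0,0,0,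
  0,0,-1],(⟨0,[(29,0)]⟩,⟨0,[(30,0)]⟩),(⟨0,[(38,0)]⟩,⟨0,[(39,0)]⟩),⟨0,[(0,0)]⟩,.k,.k,(.x (-1) ⟨15,
  [(9,3),(0,3),(16,6),(0,6),(11,1)]⟩ ⟨0,[(42,0)]⟩),.k,(.x 0 ⟨1,[(5,0),(40,0)]⟩ ⟨23,[(8,3),(7,7),(10,
  6),(0,6),(9,23),(1,5),(1,23)]⟩),.k,⟨false,0,⟨0,[(2,0),(5,0),(3,0)]⟩,⟨1,[(28,0),(8,1),(9,0)]⟩⟩,
  ⟨true,0,⟨0,[(29,0),(2,0)]⟩,⟨0,[(24,0),(5,0)]⟩⟩,⟨true,0,⟨0,[(49,0)]⟩,⟨0,[]⟩⟩,⟨false,1,⟨9,[(7,1),(8,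
  1),(11,4),(0,7),(1,7),(5,1),(5,1),(3,6)]⟩,⟨0,[(1,0),(0,0),(5,0),(3,0),(5,0),(26,0)]⟩⟩,⟨false,0,⟨0,
  [(45,0)]⟩,⟨23,[(4,3),(12,3),(0,3),(6,3),(1,4),(0,4),(18,13)]⟩⟩,⟨false,1,⟨9,[(7,1),(8,1),(11,4),(0,
  7),(1,7),(5,1),(5,1),(1,9),(1,6)]⟩,⟨0,[(1,0),(0,0),(5,0),(3,0),(5,0)]⟩⟩,[.a ⟨true,0,⟨0,[(18,0),(6,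
  0),(19,1)]⟩,⟨1,[(12,0),(16,0),(0,0)]⟩⟩ ⟨false,0,⟨1,[(2,1),(5,0),(3,0),(33,0)]⟩,⟨1,[(28,0),(18,
  0)]⟩⟩ ⟨true,0,⟨4,[(7,0),(8,0),(12,3),(1,3),(5,0),(5,0),(3,0)]⟩,⟨0,[(1,0)]⟩⟩,.o ⟨false,1,⟨0,[(31,
  0),(15,0)]⟩,⟨0,[(33,0)]⟩⟩,.o ⟨false,1,⟨1,[(30,1),(9,0),(5,0)]⟩,⟨0,[(7,0),(6,0)]⟩⟩,.e ⟨false,0,⟨0,
  [(2,0),(5,0),(3,0),(5,0),(26,0)]⟩,⟨7,[(7,1),(19,0),(0,4),(1,1),(1,1),(14,3)]⟩⟩ ⟨false,1,⟨0,[(29,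
  0),(1,0),(15,0)]⟩,⟨0,[(1,0)]⟩⟩]⟩) (.R ⟨0,false,false,false,[1,0,0,-1],[1,0,-1],[0,1,0,0,0,0,0,0,
  -1],(⟨0,[(29,0)]⟩,⟨0,[(30,0)]⟩),(⟨0,[(38,0)]⟩,⟨0,[(39,0)]⟩),⟨0,[(0,0)]⟩,.k,.k,(.x (-1) ⟨15,[(9,3),
  (0,3),(16,6),(0,6),(11,1)]⟩ ⟨0,[(42,0)]⟩),.k,.k,.k,⟨false,0,⟨0,[(2,0),(5,0),(3,0)]⟩,⟨1,[(28,0),(8,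
  1),(9,0)]⟩⟩,⟨true,0,⟨0,[(29,0),(2,0)]⟩,⟨9,[(0,5),(4,0),(3,1),(16,3),(3,3),(15,0)]⟩⟩,⟨true,0,⟨0,
  [(49,0)]⟩,⟨0,[]⟩⟩,⟨false,1,⟨9,[(7,1),(8,1),(11,4),(0,7),(1,7),(5,1),(5,1),(3,6)]⟩,⟨0,[(1,0),(0,0),
  (5,0),(3,0),(5,0),(26,0)]⟩⟩,⟨false,0,⟨0,[]⟩,⟨0,[]⟩⟩,⟨false,0,⟨0,[]⟩,⟨0,[]⟩⟩,[.a ⟨true,0,⟨0,[(18,
  0),(6,0),(19,1)]⟩,⟨1,[(12,0),(16,0),(0,0)]⟩⟩ ⟨false,0,⟨1,[(2,1),(5,0),(3,0),(33,0)]⟩,⟨1,[(28,0),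
  (18,0)]⟩⟩ ⟨true,0,⟨4,[(7,0),(8,0),(12,3),(1,3),(5,0),(5,0),(3,0)]⟩,⟨0,[(1,0)]⟩⟩,.o ⟨false,1,⟨0,
  [(31,0),(15,0)]⟩,⟨0,[(33,0)]⟩⟩,.o ⟨false,1,⟨1,[(30,1),(9,0),(5,0)]⟩,⟨0,[(7,0),(6,0)]⟩⟩,.e ⟨false,
  0,⟨0,[(2,0),(5,0),(3,0),(5,0),(26,0)]⟩,⟨7,[(7,1),(19,0),(0,4),(1,1),(1,1),(14,3)]⟩⟩ ⟨false,1,⟨0,
  [(29,0),(1,0),(15,0)]⟩,⟨0,[(1,0)]⟩⟩]⟩)) (.Q [0,-1,-1,0,0,0,0,0,-1,0,0,1] (.p true [0,0,0,1] []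
  (⟨0,[(29,0)]⟩,⟨0,[(28,0)]⟩) .k 0 (⟨0,[]⟩,⟨0,[]⟩) .k .k) (.R ⟨1,false,false,false,[1,0,0,-1],[1,0,
  -1],[0,1,0,0,0,0,0,0,-1],(⟨0,[(29,0)]⟩,⟨0,[(30,0)]⟩),(⟨0,[(38,0)]⟩,⟨0,[(39,0)]⟩),⟨3,[(1,1),(7,0),
  (0,0),(1,0),(16,1)]⟩,.k,.k,(.x (-1) ⟨15,[(9,3),(0,3),(16,6),(0,6),(11,1)]⟩ ⟨0,[(42,0)]⟩),.k,(.x 0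
  ⟨1,[(5,0),(40,0)]⟩ ⟨23,[(8,3),(7,7),(10,6),(0,6),(9,23),(1,5),(1,23)]⟩),.k,⟨false,0,⟨0,[(2,0),(5,
  0),(3,0)]⟩,⟨1,[(28,0),(8,1),(9,0)]⟩⟩,⟨true,0,⟨0,[(29,0),(2,0)]⟩,⟨0,[(24,0),(5,0)]⟩⟩,⟨true,0,⟨0,
  [(49,0)]⟩,⟨0,[]⟩⟩,⟨false,1,⟨27,[(1,19),(5,7),(8,3),(10,0),(0,14),(5,7),(5,1),(6,17)]⟩,⟨0,[(0,0),
  (32,0)]⟩⟩,⟨false,0,⟨0,[(45,0)]⟩,⟨23,[(4,3),(12,3),(0,3),(6,3),(1,4),(0,4),(18,13)]⟩⟩,⟨false,1,⟨27,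
  [(1,19),(5,7),(8,3),(10,0),(0,14),(5,7),(5,1),(4,27),(1,17)]⟩,⟨0,[(0,0),(18,0)]⟩⟩,[.e ⟨false,0,⟨1,
  [(2,1),(5,0),(3,0),(33,0)]⟩,⟨1,[(28,0),(18,0)]⟩⟩ ⟨false,0,⟨0,[(1,0)]⟩,⟨7,[(12,3),(14,0),(0,0),(1,
  7),(9,1),(5,3)]⟩⟩,.o ⟨false,1,⟨0,[(31,0),(15,0)]⟩,⟨0,[(33,0)]⟩⟩,.o ⟨false,1,⟨1,[(30,1),(9,0),(5,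
  0)]⟩,⟨3,[(1,1),(5,0),(4,0),(16,0),(2,0),(7,0)]⟩⟩,.a ⟨true,0,⟨0,[(30,0)]⟩,⟨0,[(29,0)]⟩⟩ ⟨false,0,
  ⟨1,[(0,0),(0,0),(0,0),(9,0),(1,0)]⟩,⟨7,[(7,1),(19,0),(0,4),(1,1),(1,1),(14,3)]⟩⟩ ⟨true,0,⟨0,[(1,
  0)]⟩,⟨0,[(30,0),(2,0)]⟩⟩]⟩) (.K ⟨0,[0,0,0,1],0,0,(⟨0,[(30,0)]⟩,⟨0,[(29,0)]⟩),.k,(.r (-1) ⟨11,[(15,
  3),(1,0),(0,1),(7,0),(1,5),(5,0),(11,1)]⟩ ⟨7,[(2,1),(4,0),(5,1),(13,2),(2,0),(1,0),(12,7)]⟩),(.x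
  0 ⟨0,[(42,0)]⟩ ⟨15,[(9,3),(0,3),(16,6),(0,6),(11,1)]⟩),.k,.k,[⟨0,[(30,0)]⟩,⟨0,[(29,0)]⟩,⟨1,[(2,1),
  (5,0),(3,0),(17,1),(15,0)]⟩,⟨0,[(0,0)]⟩]⟩))) (.Q [0,1,-1,0,0,0,0,0,-1,0,0,1] (.p true [0,0,0,1]
  [] (⟨0,[(28,0)]⟩,⟨0,[(27,0)]⟩) .k 0 (⟨0,[]⟩,⟨0,[]⟩) .k .k) (.Q [0,1,1,0,0,0,0,0,1,0,0,-1] (.p
  false [0,0,0,1] [] (⟨0,[(29,0)]⟩,⟨0,[(28,0)]⟩) .k 0 (⟨0,[]⟩,⟨0,[]⟩) .k .k) (.K ⟨0,[0,0,0,1],0,0,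
  (⟨0,[(30,0)]⟩,⟨0,[(29,0)]⟩),.k,(.r (-1) ⟨11,[(15,3),(1,0),(0,1),(7,0),(1,5),(5,0),(11,1)]⟩ ⟨9,[(1,
  2),(1,0),(3,2),(19,2),(3,0),(0,1),(10,1),(1,9)]⟩),(.x 0 ⟨0,[(42,0)]⟩ ⟨15,[(9,3),(0,3),(16,6),(0,
  6),(11,1)]⟩),.k,.k,[⟨0,[(30,0)]⟩,⟨0,[(29,0)]⟩,⟨0,[(1,0)]⟩,⟨0,[(0,0)]⟩]⟩) (.I [1,1,1,1,0,0,0,1,1]
  (.Q [0,0,0,0,0,1,0,0,0,-1,0,1] (.p true [0,0,0,1] [1] (⟨0,[(31,0)]⟩,⟨0,[(30,0)]⟩) .k 1 (⟨0,[]⟩,⟨0,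
  []⟩) .k .k) (.R ⟨0,false,false,true,[1,0,0,-1],[0,1],[1,0,1],(⟨0,[(31,0)]⟩,⟨0,[(32,0)]⟩),(⟨0,[(44,
  0)]⟩,⟨0,[(43,0)]⟩),⟨0,[(0,0)]⟩,.k,.k,(.x (-1) ⟨15,[(11,3),(0,3),(16,6),(0,6),(11,1)]⟩ ⟨0,[(44,
  0)]⟩),(.x (-1) ⟨15,[(11,3),(0,3),(16,6),(0,6),(11,1)]⟩ ⟨0,[(44,0)]⟩),.k,.k,⟨false,1,⟨11,[(17,3),
  (2,3),(8,0),(0,0),(17,1),(0,3)]⟩,⟨0,[(47,0),(3,0)]⟩⟩,⟨true,0,⟨0,[(31,0)]⟩,⟨11,[(0,5),(6,0),(1,1),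
  (1,1),(20,7),(1,3),(7,2)]⟩⟩,⟨true,0,⟨0,[(1,0),(18,0)]⟩,⟨0,[(2,0),(28,0),(1,0),(1,0)]⟩⟩,⟨false,0,
  ⟨0,[(1,0),(18,0),(10,0),(15,0)]⟩,⟨53,[(2,33),(3,3),(10,9),(1,7),(0,9),(8,9),(2,19),(9,24),(6,
  8)]⟩⟩,⟨false,0,⟨0,[]⟩,⟨0,[]⟩⟩,⟨false,0,⟨0,[]⟩,⟨0,[]⟩⟩,[.o ⟨false,0,⟨0,[(47,0),(3,0)]⟩,⟨20,[(6,2),
  (10,0),(1,5),(0,0),(21,8),(2,1),(3,10)]⟩⟩,.o ⟨false,0,⟨0,[(47,0)]⟩,⟨23,[(6,3),(12,7),(9,4),(0,4),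
  (11,9),(6,3)]⟩⟩,.o ⟨false,1,⟨1,[(32,1),(9,0),(5,0)]⟩,⟨0,[(9,0),(6,0)]⟩⟩,.a ⟨true,0,⟨0,[(32,0)]⟩,
  ⟨0,[(31,0)]⟩⟩ ⟨true,0,⟨0,[]⟩,⟨0,[(51,0)]⟩⟩ ⟨false,0,⟨0,[(31,0),(15,0)]⟩,⟨30,[(2,0),(1,0),(1,4),
  (12,9),(0,0),(11,29),(9,12),(2,1),(3,16)]⟩⟩]⟩) (.R ⟨1,false,false,true,[1,0,0,-1],[0,1],[0,1,0,0,
  0,0,0,0,-1],(⟨0,[(31,0)]⟩,⟨0,[(32,0)]⟩),(⟨0,[(44,0)]⟩,⟨0,[(43,0)]⟩),⟨0,[(0,0)]⟩,.k,.k,(.x (-1)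
  ⟨15,[(11,3),(0,3),(16,6),(0,6),(11,1)]⟩ ⟨0,[(44,0)]⟩),(.x (-1) ⟨15,[(11,3),(0,3),(16,6),(0,6),(11,
  1)]⟩ ⟨0,[(44,0)]⟩),(.r (-1) ⟨3,[(2,1),(13,0),(0,1),(1,1),(6,0),(1,0),(0,0),(1,1)]⟩ ⟨5,[(1,5),(7,
  0),(22,0),(1,0),(4,5),(5,1),(1,5),(1,0)]⟩),.k,⟨false,1,⟨7,[(2,2),(0,0),(12,3),(0,1),(1,1),(6,1),
  (1,1),(0,1),(1,3)]⟩,⟨0,[(1,0),(18,0),(26,0)]⟩⟩,⟨true,0,⟨0,[(31,0)]⟩,⟨0,[(26,0),(5,0),(1,0)]⟩⟩,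
  ⟨true,0,⟨0,[(51,0)]⟩,⟨0,[]⟩⟩,⟨false,0,⟨0,[(1,0),(18,0),(10,0),(15,0)]⟩,⟨53,[(2,33),(3,3),(10,9),
  (1,7),(0,9),(8,9),(2,19),(9,24),(6,8)]⟩⟩,⟨false,0,⟨0,[(47,0)]⟩,⟨23,[(6,3),(12,3),(0,3),(6,3),(1,
  4),(0,4),(18,13)]⟩⟩,⟨false,0,⟨0,[(1,0),(18,0),(10,0),(15,1)]⟩,⟨26,[(2,18),(3,6),(10,3),(1,13),(0,
  3),(8,3),(2,7),(9,9),(6,8)]⟩⟩,[.o ⟨false,0,⟨0,[(47,0),(3,0)]⟩,⟨20,[(6,2),(10,0),(1,5),(0,0),(21,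
  8),(2,1),(3,10)]⟩⟩,.o ⟨false,0,⟨0,[(47,0)]⟩,⟨23,[(6,3),(12,7),(9,4),(0,4),(11,9),(6,3)]⟩⟩,.o
  ⟨false,1,⟨1,[(32,1),(9,0),(5,0)]⟩,⟨0,[(9,0),(6,0)]⟩⟩,.a ⟨true,0,⟨0,[(32,0)]⟩,⟨0,[(31,0)]⟩⟩ ⟨true,
  0,⟨0,[(2,0),(28,0),(1,0),(1,0)]⟩,⟨0,[(1,0),(18,0)]⟩⟩ ⟨false,0,⟨0,[(31,0),(15,0)]⟩,⟨30,[(2,0),(1,
  0),(1,4),(12,9),(0,0),(11,29),(9,12),(2,1),(3,16)]⟩⟩]⟩)) (.Q [0,0,-1,-1,0,0,0,0,-1,-1,0,1] (.p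
  true [0,0,0,1] [1] (⟨0,[(31,0)]⟩,⟨0,[(30,0)]⟩) .k 1 (⟨0,[]⟩,⟨0,[]⟩) .k .k) (.Q [0,0,0,0,0,1,0,0,0,
  -1,0,1] (.p true [0,0,0,1] [1] (⟨0,[(32,0)]⟩,⟨0,[(31,0)]⟩) .k 1 (⟨0,[]⟩,⟨0,[]⟩) .k .k) (.Q [0,0,1,
  2,0,0,0,0,1,1,0,-1] (.p false [0,0,0,1] [1] (⟨0,[(33,0)]⟩,⟨0,[(32,0)]⟩) .k 1 (⟨0,[]⟩,⟨0,[]⟩) .k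
  .k) (.R ⟨1,true,false,true,[1,-1],[0,0,0,1],[0,0,-1,-1],(⟨0,[(45,0)]⟩,⟨0,[(46,0)]⟩),(⟨0,[(34,0)]⟩,
  ⟨0,[(33,0)]⟩),⟨2,[(13,0),(0,0),(30,1)]⟩,.k,.k,(.r (-1) ⟨5,[(3,1),(15,3),(1,0),(8,0),(1,0),(5,0),
  (11,0)]⟩ ⟨8,[(0,5),(0,5),(7,0),(1,1),(1,1),(17,2),(2,1),(1,3),(12,5)]⟩),(.x (-1) ⟨15,[(13,3),(0,
  3),(16,6),(0,6),(11,1)]⟩ ⟨0,[(46,0)]⟩),(.r (-1) ⟨3,[(3,1),(15,1),(11,0),(16,1),(1,0)]⟩ ⟨11,[(0,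
  11),(0,5),(7,0),(1,1),(1,1),(20,7),(1,3),(7,2)]⟩),.k,⟨false,1,⟨55,[(3,39),(0,1),(11,1),(1,3),(0,
  7),(4,13),(6,6),(1,1),(16,22)]⟩,⟨7,[(0,5),(0,5),(7,0),(3,1),(12,1),(2,1),(2,0),(4,1),(15,1)]⟩⟩,
  ⟨true,0,⟨0,[(33,0)]⟩,⟨11,[(1,5),(7,0),(1,1),(1,1),(20,7),(1,3),(7,2)]⟩⟩,⟨false,1,⟨3,[(31,0),(0,0),
  (18,1)]⟩,⟨0,[]⟩⟩,⟨true,0,⟨0,[(0,0),(47,0)]⟩,⟨0,[(2,0)]⟩⟩,⟨true,0,⟨0,[(49,0)]⟩,⟨0,[(48,0)]⟩⟩,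
  ⟨false,0,⟨0,[(0,0)]⟩,⟨43,[(2,35),(5,5),(10,3),(1,15),(8,1),(0,6),(0,2),(1,7),(16,29)]⟩⟩,[]⟩) (.I
  [0,1,1,0,0,0,0,0,1] (.R ⟨0,false,false,true,[1,0,0,-1],[0,1],[1,0,1],(⟨0,[(34,0)]⟩,⟨0,[(35,0)]⟩),
  (⟨0,[(47,0)]⟩,⟨0,[(46,0)]⟩),⟨0,[(2,0)]⟩,.k,.k,(.x (-1) ⟨15,[(14,3),(0,3),(16,6),(0,6),(11,1)]⟩ ⟨0,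
  [(47,0)]⟩),(.x (-1) ⟨15,[(14,3),(0,3),(16,6),(0,6),(11,1)]⟩ ⟨0,[(47,0)]⟩),.k,.k,⟨false,1,⟨11,[(4,
  3),(15,3),(11,0),(0,2),(18,3)]⟩,⟨0,[(50,0),(3,0)]⟩⟩,⟨true,0,⟨0,[(34,0)]⟩,⟨11,[(2,5),(7,0),(1,1),
  (1,1),(20,7),(1,3),(7,2)]⟩⟩,⟨false,1,⟨0,[(0,0),(51,0)]⟩,⟨0,[(3,0),(30,0),(15,0)]⟩⟩,⟨true,0,⟨0,[(0,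
  0),(33,0),(15,0)]⟩,⟨0,[(3,0)]⟩⟩,⟨false,0,⟨0,[]⟩,⟨0,[]⟩⟩,⟨false,0,⟨0,[]⟩,⟨0,[]⟩⟩,[.o ⟨false,0,⟨0,
  [(50,0),(3,0)]⟩,⟨20,[(9,2),(10,0),(1,5),(0,0),(21,8),(2,1),(3,10)]⟩⟩,.o ⟨false,0,⟨0,[(50,0)]⟩,⟨23,
  [(9,3),(12,7),(9,4),(0,4),(11,9),(6,3)]⟩⟩,.o ⟨false,1,⟨1,[(35,1),(9,0),(5,0)]⟩,⟨0,[(12,0),(6,
  0)]⟩⟩,.a ⟨true,0,⟨0,[(35,0)]⟩,⟨0,[(34,0)]⟩⟩ ⟨true,0,⟨0,[]⟩,⟨0,[(54,0)]⟩⟩ ⟨false,0,⟨0,[(34,0),(15,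
  0)]⟩,⟨27,[(1,1),(7,3),(12,7),(10,0),(1,25),(9,10),(2,1),(3,15)]⟩⟩]⟩) (.R ⟨0,false,false,false,[1,
  0,0,-1],[1,0,-1],[0,1,0,0,0,0,0,0,-1],(⟨0,[(34,0)]⟩,⟨0,[(35,0)]⟩),(⟨0,[(43,0)]⟩,⟨0,[(44,0)]⟩),⟨0,
  [(2,0)]⟩,.k,.k,(.x (-1) ⟨15,[(14,3),(0,3),(16,6),(0,6),(11,1)]⟩ ⟨0,[(47,0)]⟩),.k,.k,.k,⟨false,0,
  ⟨0,[(0,0),(29,0),(7,0),(11,0)]⟩,⟨1,[(33,0),(8,1),(9,0)]⟩⟩,⟨true,0,⟨0,[(34,0),(2,0)]⟩,⟨9,[(2,5),(7,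
  0),(3,1),(16,3),(3,3),(15,0)]⟩⟩,⟨true,0,⟨0,[(54,0)]⟩,⟨0,[]⟩⟩,⟨false,1,⟨9,[(12,1),(8,1),(11,4),(0,
  7),(1,7),(5,1),(5,1),(3,6)]⟩,⟨3,[(3,1),(1,0),(0,0),(10,1),(32,1)]⟩⟩,⟨false,0,⟨0,[]⟩,⟨0,[]⟩⟩,
  ⟨false,0,⟨0,[]⟩,⟨0,[]⟩⟩,[.a ⟨true,0,⟨0,[(23,0),(6,0),(19,1)]⟩,⟨1,[(17,0),(16,0),(0,0)]⟩⟩ ⟨false,0,
  ⟨1,[(0,0),(5,0),(27,0),(1,0),(1,0)]⟩,⟨1,[(33,0),(18,0)]⟩⟩ ⟨true,0,⟨4,[(12,0),(8,0),(12,3),(1,3),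
  (5,0),(5,0),(3,0)]⟩,⟨5,[(2,3),(11,0),(0,0),(1,2),(17,1)]⟩⟩,.o ⟨false,1,⟨0,[(36,0),(15,0)]⟩,⟨0,
  [(38,0)]⟩⟩,.o ⟨false,1,⟨1,[(35,1),(9,0),(5,0)]⟩,⟨0,[(12,0),(6,0)]⟩⟩,.e ⟨false,0,⟨3,[(0,2),(5,0),
  (27,0),(1,0),(1,0)]⟩,⟨7,[(12,1),(19,0),(0,4),(1,1),(1,1),(14,3)]⟩⟩ ⟨false,1,⟨0,[(34,0),(1,0),(15,
  0)]⟩,⟨5,[(2,3),(11,0),(0,0),(1,2),(17,1)]⟩⟩]⟩))) (.Q [0,0,-1,-2,0,0,0,0,-1,-1,0,1] (.p true [0,0,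
  0,1] [1] (⟨0,[(33,0)]⟩,⟨0,[(32,0)]⟩) .k 1 (⟨0,[]⟩,⟨0,[]⟩) .k .k) (.I [1,1,1,0,0,0,0,0,1] (.R ⟨1,
  false,false,true,[1,0,0,-1],[0,1],[0,0,0,0,0,0,0,0,-1],(⟨0,[(34,0)]⟩,⟨0,[(35,0)]⟩),(⟨0,[(47,0)]⟩,
  ⟨0,[(46,0)]⟩),⟨0,[(2,0)]⟩,.k,.k,(.x (-1) ⟨15,[(14,3),(0,3),(16,6),(0,6),(11,1)]⟩ ⟨0,[(47,0)]⟩),
  (.x (-1) ⟨15,[(14,3),(0,3),(16,6),(0,6),(11,1)]⟩ ⟨0,[(47,0)]⟩),(.r (-1) ⟨3,[(4,1),(15,1),(11,0),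
  (16,1),(1,0)]⟩ ⟨1,[(12,0),(20,0),(1,0),(1,0),(12,3)]⟩),.k,⟨false,1,⟨55,[(4,39),(0,1),(11,1),(1,3),
  (0,7),(4,13),(6,6),(1,1),(16,22)]⟩,⟨0,[(0,0),(49,0)]⟩⟩,⟨true,0,⟨0,[(34,0)]⟩,⟨0,[(29,0),(5,0),(1,
  0)]⟩⟩,⟨false,1,⟨3,[(32,0),(0,0),(18,1)]⟩,⟨0,[]⟩⟩,⟨true,0,⟨0,[(0,0),(33,0),(15,0)]⟩,⟨0,[(3,0)]⟩⟩,
  ⟨true,0,⟨0,[(50,0)]⟩,⟨0,[(49,0)]⟩⟩,⟨true,0,⟨0,[(0,0),(33,0),(15,1)]⟩,⟨0,[(1,0)]⟩⟩,[.o ⟨false,0,⟨0,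
  [(50,0),(3,0)]⟩,⟨20,[(9,2),(10,0),(1,5),(0,0),(21,8),(2,1),(3,10)]⟩⟩,.o ⟨false,0,⟨0,[(50,0)]⟩,⟨23,
  [(9,3),(12,7),(9,4),(0,4),(11,9),(6,3)]⟩⟩,.o ⟨false,1,⟨1,[(35,1),(9,0),(5,0)]⟩,⟨0,[(12,0),(6,
  0)]⟩⟩,.a ⟨true,0,⟨0,[(35,0)]⟩,⟨0,[(34,0)]⟩⟩ ⟨true,0,⟨0,[(3,0),(30,0),(15,0)]⟩,⟨0,[(0,0)]⟩⟩ ⟨false,
  0,⟨0,[(34,0),(15,0)]⟩,⟨27,[(1,1),(7,3),(12,7),(10,0),(1,25),(9,10),(2,1),(3,15)]⟩⟩]⟩) (.Q [0,0,0,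
  1,0,0,-1,-1,0,0,1,-1] (.p true [0,0,1] [0,0,0,1] (⟨0,[(44,0)]⟩,⟨0,[(43,0)]⟩) .k 2 (⟨0,[(35,0)]⟩,
  ⟨0,[(34,0)]⟩) .k (.r 0 ⟨1,[(0,4),(6,2),(1,2),(0,2),(3,5),(6,1),(0,6),(7,0),(16,17),(2,20)]⟩ ⟨3,
  [(32,0),(0,2),(8,3)]⟩)) (.R ⟨1,false,false,false,[1,0,0,-1],[1,1,-1],[0,1,0,0,0,0,0,0,-1],(⟨0,
  [(35,0)]⟩,⟨0,[(36,0)]⟩),(⟨0,[(44,0),(3,0)]⟩,⟨0,[(29,0)]⟩),⟨0,[(3,0)]⟩,.k,.k,(.x (-1) ⟨15,[(15,3),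
  (0,3),(16,6),(0,6),(11,1)]⟩ ⟨0,[(48,0)]⟩),(.x 0 ⟨1,[(11,0),(40,0)]⟩ ⟨23,[(14,3),(7,7),(10,6),(0,
  6),(9,23),(1,5),(1,23)]⟩),(.r (-1) ⟨44,[(5,9),(1,3),(1,16),(10,1),(0,35),(1,1),(1,3),(7,6),(1,
  3)]⟩ ⟨1,[(13,0),(20,0),(1,0),(1,0),(4,1),(7,3)]⟩),.k,⟨true,0,⟨0,[(1,0),(29,0),(7,0)]⟩,⟨1,[(13,0),
  (10,0),(9,0),(1,0),(0,0),(11,0),(1,2)]⟩⟩,⟨false,1,⟨7,[(14,3),(18,0),(0,0),(0,7),(10,1)]⟩,⟨0,[(30,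
  0),(5,0)]⟩⟩,⟨true,0,⟨0,[(55,0)]⟩,⟨0,[]⟩⟩,⟨false,1,⟨15,[(0,11),(12,3),(19,0),(0,8),(3,3),(1,3),(10,
  3),(1,9)]⟩,⟨3,[(4,1),(1,0),(0,0),(2,0),(7,0)]⟩⟩,⟨false,0,⟨0,[(51,0)]⟩,⟨23,[(10,3),(12,3),(0,3),(6,
  3),(1,4),(0,4),(18,13)]⟩⟩,⟨false,1,⟨15,[(0,11),(12,3),(19,0),(0,8),(3,3),(1,3),(10,19),(1,9)]⟩,⟨3,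
  [(2,1),(3,0),(0,0),(2,1)]⟩⟩,[.e ⟨false,0,⟨2,[(0,1),(0,0),(5,1),(17,1)]⟩,⟨1,[(34,0),(18,0)]⟩⟩
  ⟨false,0,⟨0,[(0,0)]⟩,⟨7,[(10,3),(22,0),(0,0),(1,7),(9,1),(5,3)]⟩⟩,.o ⟨false,1,⟨1,[(0,1),(35,1),(9,
  0),(6,0)]⟩,⟨0,[(25,0)]⟩⟩,.o ⟨false,1,⟨1,[(36,1),(9,0),(5,0)]⟩,⟨6,[(0,3),(9,1),(2,1),(8,0),(12,0),
  (10,1)]⟩⟩,.a ⟨true,0,⟨0,[(36,0)]⟩,⟨0,[(35,0)]⟩⟩ ⟨false,0,⟨2,[(0,0),(0,1),(5,0),(17,0)]⟩,⟨7,[(13,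
  1),(19,0),(0,4),(1,1),(1,1),(14,3)]⟩⟩ ⟨true,0,⟨0,[(0,0)]⟩,⟨0,[(25,0),(10,0)]⟩⟩]⟩) (.R ⟨1,false,
  false,false,[1,0,0,-1],[1,0,-1],[0,1,0,0,0,0,0,0,-1],(⟨0,[(35,0)]⟩,⟨0,[(36,0)]⟩),(⟨0,[(44,0)]⟩,⟨0,
  [(45,0)]⟩),⟨0,[(3,0)]⟩,.k,.k,(.x (-1) ⟨15,[(15,3),(0,3),(16,6),(0,6),(11,1)]⟩ ⟨0,[(48,0)]⟩),.k,
  (.x 0 ⟨1,[(11,0),(40,0)]⟩ ⟨23,[(14,3),(7,7),(10,6),(0,6),(9,23),(1,5),(1,23)]⟩),.k,⟨false,0,⟨0,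
  [(1,0),(29,0),(7,0),(11,0)]⟩,⟨1,[(34,0),(8,1),(9,0)]⟩⟩,⟨true,0,⟨0,[(35,0),(2,0)]⟩,⟨0,[(30,0),(5,
  0)]⟩⟩,⟨true,0,⟨0,[(55,0)]⟩,⟨0,[]⟩⟩,⟨false,1,⟨9,[(13,1),(8,1),(11,4),(0,7),(1,7),(5,1),(5,1),(3,
  6)]⟩,⟨3,[(4,1),(1,0),(0,0),(10,1),(32,1)]⟩⟩,⟨false,0,⟨0,[(51,0)]⟩,⟨23,[(10,3),(12,3),(0,3),(6,3),
  (1,4),(0,4),(18,13)]⟩⟩,⟨false,1,⟨9,[(13,1),(8,1),(11,4),(0,7),(1,7),(5,1),(5,1),(1,9),(1,6)]⟩,⟨3,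
  [(4,1),(1,0),(0,0),(2,0),(7,0)]⟩⟩,[.a ⟨true,0,⟨0,[(24,0),(6,0),(19,1)]⟩,⟨1,[(18,0),(16,0),(0,
  0)]⟩⟩ ⟨false,0,⟨1,[(1,0),(5,0),(27,0),(1,0),(1,0)]⟩,⟨1,[(34,0),(18,0)]⟩⟩ ⟨true,0,⟨4,[(13,0),(8,0),
  (12,3),(1,3),(5,0),(5,0),(3,0)]⟩,⟨0,[(0,0),(50,0)]⟩⟩,.o ⟨false,1,⟨0,[(37,0),(15,0)]⟩,⟨0,[(39,
  0)]⟩⟩,.o ⟨false,1,⟨1,[(36,1),(9,0),(5,0)]⟩,⟨0,[(13,0),(6,0)]⟩⟩,.e ⟨false,0,⟨3,[(1,2),(5,0),(27,0),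
  (1,0),(1,0)]⟩,⟨7,[(13,1),(19,0),(0,4),(1,1),(1,1),(14,3)]⟩⟩ ⟨false,1,⟨0,[(35,0),(1,0),(15,0)]⟩,⟨0,
  [(0,0),(50,0)]⟩⟩]⟩))) (.R ⟨1,false,false,true,[1,0,0,-1],[0,1],[1,0,1],(⟨0,[(33,0)]⟩,⟨0,[(34,
  0)]⟩),(⟨0,[(46,0)]⟩,⟨0,[(45,0)]⟩),⟨0,[(1,0)]⟩,.k,.k,(.x (-1) ⟨15,[(13,3),(0,3),(16,6),(0,6),(11,
  1)]⟩ ⟨0,[(46,0)]⟩),(.x (-1) ⟨15,[(13,3),(0,3),(16,6),(0,6),(11,1)]⟩ ⟨0,[(46,0)]⟩),(.r (-1) ⟨3,[(3,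
  1),(15,1),(11,0),(16,1),(1,0)]⟩ ⟨0,[(0,0),(27,0),(5,0),(1,0)]⟩),.k,⟨false,1,⟨11,[(3,3),(15,3),(11,
  0),(0,2),(18,3)]⟩,⟨2,[(0,0),(4,0),(29,0),(1,0),(11,0)]⟩⟩,⟨true,0,⟨0,[(33,0)]⟩,⟨0,[(28,0),(5,0),(1,
  0)]⟩⟩,⟨false,1,⟨7,[(11,1),(19,0),(0,4),(1,1),(1,1),(14,3)]⟩,⟨0,[(2,0),(30,0),(15,0)]⟩⟩,⟨true,0,⟨0,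
  [(0,0),(47,0)]⟩,⟨0,[(2,0)]⟩⟩,⟨false,1,⟨15,[(0,7),(10,1),(19,0),(0,4),(1,9),(1,1),(7,3),(6,7)]⟩,⟨0,
  [(2,0),(30,0)]⟩⟩,⟨false,0,⟨0,[(0,0)]⟩,⟨43,[(2,35),(5,5),(10,3),(1,15),(8,1),(0,6),(0,2),(1,7),(16,
  29)]⟩⟩,[.o ⟨false,0,⟨2,[(0,0),(4,0),(29,0),(1,0),(11,0)]⟩,⟨20,[(8,2),(10,0),(1,5),(0,0),(21,8),(2,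
  1),(3,10)]⟩⟩,.o ⟨false,0,⟨0,[(49,0)]⟩,⟨23,[(8,3),(12,7),(9,4),(0,4),(11,9),(6,3)]⟩⟩,.o ⟨false,1,
  ⟨1,[(34,1),(9,0),(5,0)]⟩,⟨0,[(11,0),(6,0)]⟩⟩,.a ⟨true,0,⟨0,[(34,0)]⟩,⟨0,[(33,0)]⟩⟩ ⟨true,0,⟨0,[]⟩,
  ⟨0,[(53,0)]⟩⟩ ⟨false,0,⟨0,[(33,0),(15,0)]⟩,⟨25,[(2,1),(5,3),(12,7),(10,0),(1,23),(9,9),(2,1),(3,
  14)]⟩⟩]⟩))) (.Q [0,0,0,0,0,-1,0,0,0,1,0,-1] (.p false [0,0,0,1] [1] (⟨0,[(32,0)]⟩,⟨0,[(31,0)]⟩)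
  .k 1 (⟨0,[]⟩,⟨0,[]⟩) .k .k) (.I [1,0,-1,-1,0,0,0,0,-1] (.Q [0,0,1,0,0,0,0,0,1,1,0,-1] (.p false
  [0,0,0,1] [1] (⟨0,[(34,0)]⟩,⟨0,[(33,0)]⟩) .k 1 (⟨0,[]⟩,⟨0,[]⟩) .k .k) (.I [0,1,1,1,0,0,0,0,1] (.R
  ⟨1,false,false,true,[1,0,0,-1],[0,1],[1,0,0,-1,0,0,0,0,-1],(⟨0,[(35,0)]⟩,⟨0,[(36,0)]⟩),(⟨0,[(48,
  0)]⟩,⟨0,[(47,0)]⟩),⟨0,[(3,0)]⟩,.k,.k,(.x (-1) ⟨15,[(15,3),(0,3),(16,6),(0,6),(11,1)]⟩ ⟨0,[(48,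
  0)]⟩),(.x (-1) ⟨15,[(15,3),(0,3),(16,6),(0,6),(11,1)]⟩ ⟨0,[(48,0)]⟩),(.r (-1) ⟨3,[(5,1),(15,1),
  (11,0),(16,1),(1,0)]⟩ ⟨13,[(0,16),(5,0),(6,0),(19,0),(4,0),(10,7),(1,10)]⟩),.k,⟨false,1,⟨5,[(5,3),
  (15,3),(11,0),(19,0)]⟩,⟨0,[(0,0),(50,0)]⟩⟩,⟨true,0,⟨0,[(35,0)]⟩,⟨0,[(30,0),(5,0),(1,0)]⟩⟩,⟨false,
  1,⟨23,[(10,3),(12,3),(0,3),(6,3),(1,4),(0,4),(18,13)]⟩,⟨0,[(51,0)]⟩⟩,⟨false,0,⟨0,[(4,0)]⟩,⟨32,[(5,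
  4),(0,17),(3,2),(10,4),(1,5),(9,4),(2,14),(9,14),(6,7)]⟩⟩,⟨true,0,⟨0,[]⟩,⟨0,[(55,0)]⟩⟩,⟨false,0,
  ⟨0,[(4,0),(46,0)]⟩,⟨32,[(5,3),(0,20),(3,8),(10,3),(1,17),(9,3),(2,11),(9,11),(6,12)]⟩⟩,[.o ⟨false,
  0,⟨0,[(51,0),(3,0)]⟩,⟨20,[(10,2),(10,0),(1,5),(0,0),(21,8),(2,1),(3,10)]⟩⟩,.o ⟨false,0,⟨0,[(51,
  0)]⟩,⟨23,[(10,3),(12,7),(9,4),(0,4),(11,9),(6,3)]⟩⟩,.o ⟨false,1,⟨1,[(36,1),(9,0),(5,0)]⟩,⟨0,[(13,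
  0),(6,0)]⟩⟩,.a ⟨true,0,⟨0,[(36,0)]⟩,⟨0,[(35,0)]⟩⟩ ⟨true,0,⟨0,[(2,0)]⟩,⟨0,[(0,0)]⟩⟩ ⟨false,0,⟨0,
  [(35,0),(15,0)]⟩,⟨30,[(6,0),(1,0),(1,4),(12,9),(0,0),(11,29),(9,12),(2,1),(3,16)]⟩⟩]⟩) (.I [0,0,1,
  1,0,0,0,-1,1] (.R ⟨1,false,false,false,[1,0,0,-1],[1,0,-1],[0,1,0,0,0,0,0,0,-1],(⟨0,[(36,0)]⟩,⟨0,
  [(37,0)]⟩),(⟨0,[(45,0)]⟩,⟨0,[(46,0)]⟩),⟨0,[(4,0)]⟩,.k,.k,(.x (-1) ⟨15,[(16,3),(0,3),(16,6),(0,6),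
  (11,1)]⟩ ⟨0,[(49,0)]⟩),.k,(.r (-1) ⟨19,[(10,3),(4,0),(3,0),(2,8),(3,0),(0,1),(4,0),(1,7)]⟩ ⟨0,[(0,
  0)]⟩),.k,⟨false,0,⟨0,[(1,0),(30,0),(7,0),(11,1)]⟩,⟨1,[(35,0),(8,1),(9,0)]⟩⟩,⟨true,0,⟨0,[(36,0),(2,
  0)]⟩,⟨0,[(31,0),(5,0)]⟩⟩,⟨true,0,⟨0,[(56,0)]⟩,⟨0,[]⟩⟩,⟨false,1,⟨0,[(5,0),(23,0),(24,0)]⟩,⟨0,[(7,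
  0),(32,0)]⟩⟩,⟨false,0,⟨0,[(52,0)]⟩,⟨23,[(11,3),(12,3),(0,3),(6,3),(1,4),(0,4),(18,13)]⟩⟩,⟨false,1,
  ⟨0,[(5,0),(32,0),(15,0)]⟩,⟨0,[(7,0),(18,0)]⟩⟩,[.e ⟨false,0,⟨2,[(3,1),(4,0),(27,0),(1,0),(1,0),(11,
  1)]⟩,⟨1,[(35,0),(18,0)]⟩⟩ ⟨false,0,⟨0,[(1,0),(3,0),(32,0)]⟩,⟨7,[(19,3),(14,0),(0,0),(1,7),(9,1),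
  (5,3)]⟩⟩,.o ⟨false,1,⟨0,[(38,0),(15,0)]⟩,⟨0,[(40,0)]⟩⟩,.o ⟨false,1,⟨1,[(37,1),(9,0),(5,0)]⟩,⟨0,
  [(14,0),(6,0)]⟩⟩,.a ⟨true,0,⟨0,[(37,0)]⟩,⟨0,[(36,0)]⟩⟩ ⟨false,0,⟨0,[(3,0),(48,0)]⟩,⟨7,[(14,1),(19,
  0),(0,4),(1,1),(1,1),(14,3)]⟩⟩ ⟨true,0,⟨0,[(1,0),(3,0),(32,0)]⟩,⟨0,[(37,0),(2,0)]⟩⟩]⟩) (.R ⟨1,
  false,false,false,[1,0,0,-1],[1,0,-1],[0,1,0,0,0,0,0,0,-1],(⟨0,[(36,0)]⟩,⟨0,[(37,0)]⟩),(⟨0,[(45,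
  0)]⟩,⟨0,[(46,0)]⟩),⟨0,[(4,0)]⟩,.k,.k,(.x (-1) ⟨15,[(16,3),(0,3),(16,6),(0,6),(11,1)]⟩ ⟨0,[(49,
  0)]⟩),.k,(.x 0 ⟨1,[(12,0),(40,0)]⟩ ⟨23,[(15,3),(7,7),(10,6),(0,6),(9,23),(1,5),(1,23)]⟩),.k,
  ⟨false,0,⟨0,[(0,0),(51,0),(3,0)]⟩,⟨1,[(35,0),(8,1),(9,0)]⟩⟩,⟨true,0,⟨0,[(36,0),(2,0)]⟩,⟨0,[(31,0),
  (5,0)]⟩⟩,⟨true,0,⟨0,[(56,0)]⟩,⟨0,[]⟩⟩,⟨false,1,⟨0,[(5,0),(23,0),(24,0)]⟩,⟨0,[(7,0),(32,0)]⟩⟩,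
  ⟨false,0,⟨0,[(52,0)]⟩,⟨23,[(11,3),(12,3),(0,3),(6,3),(1,4),(0,4),(18,13)]⟩⟩,⟨false,1,⟨0,[(5,0),
  (32,0),(15,0)]⟩,⟨0,[(7,0),(18,0)]⟩⟩,[.e ⟨false,0,⟨2,[(3,1),(4,0),(27,0),(1,0),(1,0),(11,1)]⟩,⟨1,
  [(35,0),(18,0)]⟩⟩ ⟨false,0,⟨0,[(1,0),(3,0),(32,0)]⟩,⟨7,[(19,3),(14,0),(0,0),(1,7),(9,1),(5,3)]⟩⟩,
  .o ⟨false,1,⟨0,[(38,0),(15,0)]⟩,⟨0,[(40,0)]⟩⟩,.o ⟨false,1,⟨1,[(37,1),(9,0),(5,0)]⟩,⟨0,[(14,0),(6,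
  0)]⟩⟩,.a ⟨true,0,⟨0,[(37,0)]⟩,⟨0,[(36,0)]⟩⟩ ⟨false,0,⟨0,[(3,0),(48,0)]⟩,⟨7,[(14,1),(19,0),(0,4),
  (1,1),(1,1),(14,3)]⟩⟩ ⟨true,0,⟨0,[(1,0),(3,0),(32,0)]⟩,⟨0,[(37,0),(2,0)]⟩⟩]⟩))) (.Q [0,0,0,0,0,-1,
  0,0,0,0,0,1] (.p true [0,0,0,1] [] (⟨0,[(35,0)]⟩,⟨0,[(34,0)]⟩) .k 0 (⟨0,[]⟩,⟨0,[]⟩) .k .k) (.R ⟨1,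
  false,false,true,[0,0,0,1],[1,-1],[1],(⟨0,[(36,0)]⟩,⟨0,[(35,0)]⟩),(⟨0,[(47,0)]⟩,⟨0,[(48,0)]⟩),⟨0,
  [(0,0)]⟩,.k,.k,(.r (-1) ⟨11,[(5,1),(15,3),(1,0),(8,0),(1,6),(5,0),(11,0)]⟩ ⟨21,[(1,3),(4,0),(0,0),
  (5,7),(8,3),(10,7),(2,1),(14,21)]⟩),(.x 0 ⟨0,[(48,0)]⟩ ⟨15,[(15,3),(0,3),(16,6),(0,6),(11,1)]⟩),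
  .k,.k,⟨true,0,⟨5,[(13,0),(22,0),(1,0),(10,1),(1,5),(1,0)]⟩,⟨0,[(50,0)]⟩⟩,⟨false,1,⟨3,[(1,3),(31,
  0),(0,2)]⟩,⟨0,[(35,0)]⟩⟩,⟨false,0,⟨35,[(1,0),(3,14),(0,0),(2,14),(3,1),(8,0),(10,1),(15,9),(1,
  14)]⟩,⟨3,[(33,0),(0,2)]⟩⟩,⟨true,0,⟨2,[(1,1),(5,0),(15,0),(1,0)]⟩,⟨0,[(4,0)]⟩⟩,⟨false,0,⟨35,[(1,0),
  (3,14),(0,0),(2,14),(3,1),(8,0),(10,1),(15,9),(1,50)]⟩,⟨23,[(10,3),(12,3),(0,3),(6,3),(1,4),(0,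
  16),(18,1)]⟩⟩,⟨false,0,⟨0,[(1,0)]⟩,⟨7,[(13,1),(19,0),(0,4),(0,5),(6,1),(10,3)]⟩⟩,[.a ⟨true,0,⟨0,
  [(50,0)]⟩,⟨0,[(4,0),(1,0)]⟩⟩ ⟨true,0,⟨0,[]⟩,⟨7,[(13,1),(19,0),(0,0),(1,1),(1,1)]⟩⟩ ⟨false,1,⟨5,
  [(1,3),(5,1),(15,1),(1,1),(8,2),(17,2)]⟩,⟨20,[(4,4),(1,0),(6,1),(8,0),(10,1),(1,14),(13,9),(1,
  15)]⟩⟩,.o ⟨false,1,⟨23,[(10,3),(12,7),(9,4),(0,4),(11,9),(6,3)]⟩,⟨0,[(51,0)]⟩⟩,.o ⟨false,0,⟨0,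
  [(13,0),(6,0)]⟩,⟨3,[(1,3),(31,0),(0,2)]⟩⟩,.o ⟨false,0,⟨37,[(4,7),(8,19),(8,7),(0,3),(2,1),(6,3),
  (1,9),(10,12),(6,0)]⟩,⟨1,[(1,1),(32,0),(17,0)]⟩⟩]⟩) (.R ⟨0,false,false,true,[0,0,0,1],[1,-1],[1],
  (⟨0,[(36,0)]⟩,⟨0,[(35,0)]⟩),(⟨0,[(47,0)]⟩,⟨0,[(48,0)]⟩),⟨0,[(0,0)]⟩,.k,.k,(.r (-1) ⟨11,[(5,1),(15,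
  3),(1,0),(8,0),(1,6),(5,0),(11,0)]⟩ ⟨21,[(1,3),(4,0),(0,0),(5,7),(8,3),(10,7),(2,1),(14,21)]⟩),
  (.x 0 ⟨0,[(48,0)]⟩ ⟨15,[(15,3),(0,3),(16,6),(0,6),(11,1)]⟩),.k,.k,⟨true,0,⟨5,[(13,0),(22,0),(1,0),
  (10,1),(1,5),(1,0)]⟩,⟨0,[(50,0)]⟩⟩,⟨false,1,⟨3,[(1,3),(31,0),(0,2)]⟩,⟨0,[(35,0)]⟩⟩,⟨false,0,⟨35,
  [(1,0),(3,14),(0,0),(2,14),(3,1),(8,0),(10,1),(15,9),(1,14)]⟩,⟨3,[(33,0),(0,2)]⟩⟩,⟨true,0,⟨2,[(1,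
  1),(5,0),(15,0),(1,0)]⟩,⟨0,[(4,0)]⟩⟩,⟨false,0,⟨0,[]⟩,⟨0,[]⟩⟩,⟨false,0,⟨0,[]⟩,⟨0,[]⟩⟩,[.a ⟨true,0,
  ⟨0,[(50,0)]⟩,⟨0,[(4,0),(1,0)]⟩⟩ ⟨true,0,⟨0,[]⟩,⟨7,[(13,1),(19,0),(0,0),(1,1),(1,1)]⟩⟩ ⟨false,1,⟨5,
  [(1,3),(5,1),(15,1),(1,1),(8,2),(17,2)]⟩,⟨20,[(4,4),(1,0),(6,1),(8,0),(10,1),(1,14),(13,9),(1,
  15)]⟩⟩,.o ⟨false,1,⟨23,[(10,3),(12,7),(9,4),(0,4),(11,9),(6,3)]⟩,⟨0,[(51,0)]⟩⟩,.o ⟨false,0,⟨6,[(0,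
  1),(2,1),(9,1),(8,0),(12,0),(10,1)]⟩,⟨3,[(1,3),(31,0),(0,2)]⟩⟩,.o ⟨false,0,⟨37,[(4,7),(8,19),(8,
  7),(0,3),(2,1),(6,3),(1,9),(10,12),(6,0)]⟩,⟨1,[(1,1),(32,0),(17,0)]⟩⟩]⟩))) (.R ⟨1,false,false,
  true,[1,0,0,-1],[0,1],[1,1,0,-1,0,0,0,0,-1],(⟨0,[(33,0)]⟩,⟨0,[(34,0)]⟩),(⟨0,[(46,0)]⟩,⟨0,[(45,
  0)]⟩),⟨0,[(1,0)]⟩,.k,.k,(.r (-1) ⟨11,[(3,1),(15,3),(1,0),(8,0),(0,5),(0,0),(5,0),(11,0)]⟩ ⟨0,[(0,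
  0)]⟩),(.r (-1) ⟨11,[(3,1),(15,3),(1,0),(8,0),(0,5),(0,0),(5,0),(11,0)]⟩ ⟨0,[(0,0)]⟩),(.r (-1) ⟨3,
  [(3,1),(15,1),(11,0),(16,1),(1,0)]⟩ ⟨5,[(0,7),(10,0),(19,0),(2,0),(1,0),(12,3)]⟩),.k,⟨false,1,⟨3,
  [(3,1),(15,1),(11,0),(16,1),(1,0)]⟩,⟨0,[(0,0),(48,0)]⟩⟩,⟨true,0,⟨0,[(33,0)]⟩,⟨0,[(28,0),(5,0),(1,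
  0)]⟩⟩,⟨true,0,⟨0,[(48,0)]⟩,⟨0,[(49,0)]⟩⟩,⟨false,0,⟨0,[(2,0)]⟩,⟨32,[(3,4),(0,17),(3,2),(10,4),(1,
  5),(9,4),(2,14),(9,14),(6,7)]⟩⟩,⟨false,0,⟨0,[]⟩,⟨3,[(31,0),(0,0),(18,1)]⟩⟩,⟨false,0,⟨0,[(2,0),(46,
  0)]⟩,⟨32,[(3,3),(0,20),(3,8),(10,3),(1,17),(9,3),(2,11),(9,11),(6,12)]⟩⟩,[.o ⟨false,0,⟨0,[(49,0),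
  (3,0)]⟩,⟨20,[(8,2),(10,0),(1,5),(0,0),(21,8),(2,1),(3,10)]⟩⟩,.o ⟨false,0,⟨0,[(49,0)]⟩,⟨23,[(8,3),
  (12,7),(9,4),(0,4),(11,9),(6,3)]⟩⟩,.o ⟨false,1,⟨1,[(34,1),(9,0),(5,0)]⟩,⟨0,[(11,0),(6,0)]⟩⟩,.a
  ⟨true,0,⟨0,[(34,0)]⟩,⟨0,[(33,0)]⟩⟩ ⟨true,0,⟨1,[(3,0),(0,0),(24,0),(3,0),(1,0),(1,1)]⟩,⟨0,[(0,
  0)]⟩⟩ ⟨false,0,⟨0,[(33,0),(15,0)]⟩,⟨30,[(4,0),(1,0),(1,4),(12,9),(0,0),(11,29),(9,12),(2,1),(3,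
  16)]⟩⟩]⟩)) (.R ⟨0,false,false,false,[1,0,0,-1],[0,1],[1,1],(⟨0,[(32,0)]⟩,⟨0,[(33,0)]⟩),(⟨0,[(45,
  0)]⟩,⟨0,[(44,0)]⟩),⟨0,[(0,0)]⟩,.k,.k,(.x (-1) ⟨15,[(12,3),(0,3),(16,6),(0,6),(11,1)]⟩ ⟨0,[(45,
  0)]⟩),(.x (-1) ⟨15,[(12,3),(0,3),(16,6),(0,6),(11,1)]⟩ ⟨0,[(45,0)]⟩),.k,.k,⟨false,1,⟨0,[(47,0),(1,
  0)]⟩,⟨5,[(10,0),(22,0),(1,0),(10,1),(1,5),(1,0)]⟩⟩,⟨true,0,⟨0,[(32,0)]⟩,⟨11,[(0,5),(7,0),(1,1),(1,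
  1),(20,7),(1,3),(7,2)]⟩⟩,⟨false,1,⟨3,[(30,0),(0,2)]⟩,⟨18,[(2,7),(0,0),(2,7),(3,0),(19,0),(4,0),
  (10,4),(1,7)]⟩⟩,⟨true,0,⟨0,[(1,0)]⟩,⟨0,[(3,0),(21,0),(10,0)]⟩⟩,⟨false,0,⟨0,[]⟩,⟨0,[]⟩⟩,⟨false,0,
  ⟨0,[]⟩,⟨0,[]⟩⟩,[.o ⟨false,0,⟨0,[(48,0)]⟩,⟨23,[(7,3),(12,7),(9,4),(0,4),(11,9),(6,3)]⟩⟩,.e ⟨true,0,
  ⟨0,[]⟩,⟨7,[(10,1),(19,0),(0,0),(1,1),(1,1)]⟩⟩ ⟨true,0,⟨20,[(1,4),(1,0),(6,1),(8,0),(10,1),(1,14),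
  (13,9),(1,15)]⟩,⟨5,[(0,3),(11,0),(0,0),(8,2),(2,2),(7,1)]⟩⟩,.o ⟨false,1,⟨1,[(33,1),(9,0),(5,0)]⟩,
  ⟨0,[(10,0),(6,0)]⟩⟩,.a ⟨true,0,⟨0,[(33,0)]⟩,⟨0,[(32,0)]⟩⟩ ⟨false,1,⟨3,[(30,0),(0,0),(17,1)]⟩,⟨5,
  [(10,0),(22,0),(1,0),(10,1),(3,0)]⟩⟩ ⟨true,0,⟨0,[(32,0),(15,0)]⟩,⟨5,[(0,3),(11,0),(0,0),(8,2),(2,
  2),(7,1)]⟩⟩]⟩))))) (.Q [0,0,0,1,0,0,1,1,0,1,-1,-1] (.p false [0,0,1] [1,0,0,-1] (⟨0,[(38,0)]⟩,⟨0,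
  [(37,0)]⟩) .k 2 (⟨0,[(28,0)]⟩,⟨0,[(29,0)]⟩) .k (.r (-1) ⟨1,[(19,0),(7,0),(20,0)]⟩ ⟨0,[(2,0),(33,
  1)]⟩)) (.Q [0,0,0,0,0,-1,0,0,0,1,0,-1] (.p false [0,0,0,1] [1] (⟨0,[(30,0)]⟩,⟨0,[(29,0)]⟩) .k 1
  (⟨0,[]⟩,⟨0,[]⟩) .k .k) (.R ⟨1,false,false,true,[1,0,0,-1],[0,1,1],[0,0,0,0,0,0,0,0,-1],(⟨0,[(30,
  0)]⟩,⟨0,[(31,0)]⟩),(⟨0,[(40,0),(2,0)]⟩,⟨0,[(22,0)]⟩),⟨0,[(0,0)]⟩,.k,.k,(.x (-1) ⟨15,[(10,3),(0,3),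
  (16,6),(0,6),(11,1)]⟩ ⟨0,[(43,0)]⟩),(.x (-1) ⟨23,[(9,3),(0,11),(6,7),(10,6),(0,6),(9,11),(1,5)]⟩
  ⟨0,[(25,0),(14,0),(2,0)]⟩),(.r (-1) ⟨1,[(4,1),(13,0),(0,1),(7,0),(7,0),(11,1)]⟩ ⟨2,[(2,0),(5,0),
  (4,0),(3,1),(11,0),(1,1),(2,0),(11,5)]⟩),.k,⟨false,1,⟨0,[(4,0),(14,0),(18,0),(8,0)]⟩,⟨0,[(2,0),
  (23,0),(4,0),(2,0),(11,1)]⟩⟩,⟨true,0,⟨0,[(25,0),(4,0)]⟩,⟨0,[(31,0),(1,0)]⟩⟩,⟨false,1,⟨3,[(28,0),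
  (0,0),(18,1)]⟩,⟨0,[]⟩⟩,⟨false,0,⟨0,[(2,0),(10,0),(21,0),(10,0)]⟩,⟨7,[(4,1),(10,4),(3,7),(8,2),(2,
  7),(0,1),(0,0),(10,0)]⟩⟩,⟨true,0,⟨0,[(46,0)]⟩,⟨0,[(45,0)]⟩⟩,⟨false,0,⟨0,[(2,0),(10,0),(21,0),(10,
  1)]⟩,⟨10,[(4,2),(10,5),(0,0),(1,4),(0,9),(8,3),(2,10),(12,2)]⟩⟩,[.o ⟨false,0,⟨0,[(34,0),(11,0)]⟩,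
  ⟨0,[(23,0),(24,0)]⟩⟩,.a ⟨true,0,⟨0,[(1,0),(29,0)]⟩,⟨0,[(19,0),(6,0),(19,0)]⟩⟩ ⟨true,0,⟨0,[(4,0),
  (14,0),(26,0)]⟩,⟨0,[(2,0),(28,0),(18,1)]⟩⟩ ⟨false,0,⟨0,[(1,0)]⟩,⟨7,[(15,3),(2,3),(9,0),(0,0),(1,
  7),(6,3),(9,1)]⟩⟩,.o ⟨false,1,⟨1,[(31,1),(9,0),(5,0)]⟩,⟨3,[(2,0),(1,0),(3,0),(21,1),(1,0),(8,
  0)]⟩⟩,.e ⟨false,1,⟨2,[(4,0),(14,0),(8,0),(15,0),(1,0),(0,1)]⟩,⟨0,[(2,0),(28,0),(18,0)]⟩⟩ ⟨false,0,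
  ⟨0,[(1,0)]⟩,⟨0,[(23,0),(7,0),(16,0)]⟩⟩]⟩) (.R ⟨0,false,false,true,[1,0,0,-1],[0,1,1],[0,1,0,0,0,0,
  0,0,-1],(⟨0,[(30,0)]⟩,⟨0,[(31,0)]⟩),(⟨0,[(40,0),(2,0)]⟩,⟨0,[(22,0)]⟩),⟨0,[(0,0)]⟩,.k,.k,(.x (-1)
  ⟨15,[(10,3),(0,3),(16,6),(0,6),(11,1)]⟩ ⟨0,[(43,0)]⟩),(.x (-1) ⟨23,[(9,3),(0,11),(6,7),(10,6),(0,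
  6),(9,11),(1,5)]⟩ ⟨0,[(25,0),(14,0),(2,0)]⟩),.k,.k,⟨false,1,⟨3,[(4,3),(13,0),(0,1),(7,0),(7,0),(2,
  3),(8,3)]⟩,⟨5,[(0,3),(1,5),(7,0),(0,0),(1,2),(12,5),(4,1),(14,11)]⟩⟩,⟨true,0,⟨0,[(25,0),(4,0)]⟩,
  ⟨0,[(31,0),(1,0)]⟩⟩,⟨true,0,⟨0,[(50,0)]⟩,⟨0,[]⟩⟩,⟨false,0,⟨0,[(2,0),(10,0),(21,0),(10,0)]⟩,⟨5,[(0,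
  3),(8,2),(0,0),(0,0),(7,5),(8,2),(2,1)]⟩⟩,⟨false,0,⟨0,[]⟩,⟨0,[]⟩⟩,⟨false,0,⟨0,[]⟩,⟨0,[]⟩⟩,[.o
  ⟨false,0,⟨0,[(34,0),(11,0)]⟩,⟨0,[(23,0),(24,0)]⟩⟩,.a ⟨true,0,⟨0,[(1,0),(29,0)]⟩,⟨0,[(19,0),(6,0),
  (19,0)]⟩⟩ ⟨true,0,⟨0,[(4,0),(33,0)]⟩,⟨0,[(2,0),(28,0),(18,0)]⟩⟩ ⟨false,0,⟨0,[(1,0)]⟩,⟨7,[(15,3),
  (2,3),(9,0),(0,0),(1,7),(6,3),(9,1)]⟩⟩,.o ⟨false,1,⟨1,[(31,1),(9,0),(5,0)]⟩,⟨3,[(2,0),(1,0),(3,0),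
  (21,1),(1,0),(8,0)]⟩⟩,.e ⟨false,1,⟨1,[(28,0),(18,0)]⟩,⟨0,[(2,0),(28,0)]⟩⟩ ⟨false,0,⟨0,[(1,0)]⟩,⟨0,
  [(23,0),(7,0),(16,0)]⟩⟩]⟩)) (.Q [0,0,0,0,0,1,0,0,0,-1,0,1] (.p true [0,0,0,1] [1] (⟨0,[(30,0)]⟩,
  ⟨0,[(29,0)]⟩) .k 1 (⟨0,[]⟩,⟨0,[]⟩) .k .k) (.R ⟨0,false,false,false,[1,0,0,-1],[0,1],[1,0,0,0,0,0,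
  0,0,-1],(⟨0,[(30,0)]⟩,⟨0,[(31,0)]⟩),(⟨0,[(43,0)]⟩,⟨0,[(42,0)]⟩),⟨0,[(0,0)]⟩,.k,.k,(.x (-1) ⟨15,
  [(10,3),(0,3),(16,6),(0,6),(11,1)]⟩ ⟨0,[(43,0)]⟩),(.x (-1) ⟨15,[(10,3),(0,3),(16,6),(0,6),(11,
  1)]⟩ ⟨0,[(43,0)]⟩),.k,.k,⟨false,1,⟨3,[(4,3),(13,0),(0,1),(7,0),(7,0),(11,3)]⟩,⟨0,[(2,0),(28,0),
  (14,0),(3,0)]⟩⟩,⟨true,0,⟨0,[(30,0)]⟩,⟨11,[(0,5),(5,0),(1,1),(1,1),(20,7),(1,3),(7,2)]⟩⟩,⟨true,0,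
  ⟨0,[]⟩,⟨0,[(50,0)]⟩⟩,⟨false,0,⟨0,[(2,0),(27,0),(0,0),(14,0)]⟩,⟨17,[(0,11),(0,5),(4,1),(3,3),(4,4),
  (0,5),(8,4),(1,0),(0,8)]⟩⟩,⟨false,0,⟨0,[]⟩,⟨0,[]⟩⟩,⟨false,0,⟨0,[]⟩,⟨0,[]⟩⟩,[.o ⟨false,0,⟨0,[(46,
  0)]⟩,⟨23,[(5,3),(12,7),(9,4),(0,4),(11,9),(6,3)]⟩⟩,.e ⟨true,0,⟨0,[(4,0),(14,0),(26,0)]⟩,⟨0,[(2,0),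
  (28,0),(18,1)]⟩⟩ ⟨true,0,⟨5,[(8,0),(21,4),(6,0),(6,1),(1,5),(1,0)]⟩,⟨0,[(1,0),(32,0)]⟩⟩,.o ⟨false,
  1,⟨1,[(31,1),(9,0),(5,0)]⟩,⟨3,[(2,0),(1,0),(3,0),(21,1),(1,0),(8,0)]⟩⟩,.a ⟨true,0,⟨0,[(31,0)]⟩,⟨0,
  [(30,0)]⟩⟩ ⟨false,1,⟨2,[(4,0),(14,0),(8,0),(15,0),(1,0),(0,1)]⟩,⟨0,[(2,0),(28,0),(18,0)]⟩⟩ ⟨true,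
  0,⟨0,[(30,0),(15,0)]⟩,⟨0,[(1,0),(32,0)]⟩⟩]⟩) (.R ⟨1,false,false,false,[1,0,0,-1],[0,1],[0,0,0,0,0,
  0,0,0,-1],(⟨0,[(30,0)]⟩,⟨0,[(31,0)]⟩),(⟨0,[(43,0)]⟩,⟨0,[(42,0)]⟩),⟨0,[(0,0)]⟩,.k,.k,(.x (-1) ⟨15,
  [(10,3),(0,3),(16,6),(0,6),(11,1)]⟩ ⟨0,[(43,0)]⟩),(.x (-1) ⟨15,[(10,3),(0,3),(16,6),(0,6),(11,
  1)]⟩ ⟨0,[(43,0)]⟩),(.r (-1) ⟨2,[(4,2),(11,0),(1,0),(0,1),(7,0),(7,0),(11,1)]⟩ ⟨1,[(8,0),(20,0),(1,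
  0),(1,0),(12,3)]⟩),.k,⟨false,1,⟨3,[(4,3),(13,0),(0,1),(7,0),(7,0),(11,3)]⟩,⟨0,[(2,0),(28,0),(14,
  0),(3,0)]⟩⟩,⟨true,0,⟨0,[(30,0)]⟩,⟨0,[(25,0),(5,0),(1,0)]⟩⟩,⟨false,1,⟨3,[(28,0),(0,0),(18,1)]⟩,⟨0,
  []⟩⟩,⟨false,0,⟨0,[(2,0),(27,0),(0,0),(14,0)]⟩,⟨1,[(1,1),(11,0),(1,0),(9,0),(2,0)]⟩⟩,⟨true,0,⟨0,
  [(46,0)]⟩,⟨0,[(45,0)]⟩⟩,⟨false,0,⟨0,[(2,0),(27,0),(0,0),(14,1)]⟩,⟨1,[(1,1),(3,0),(9,0),(9,0),(2,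
  0)]⟩⟩,[.o ⟨false,0,⟨0,[(46,0)]⟩,⟨23,[(5,3),(12,7),(9,4),(0,4),(11,9),(6,3)]⟩⟩,.e ⟨true,0,⟨0,[(4,
  0),(14,0),(26,0)]⟩,⟨0,[(2,0),(28,0),(18,1)]⟩⟩ ⟨true,0,⟨5,[(8,0),(21,4),(6,0),(6,1),(1,5),(1,0)]⟩,
  ⟨0,[(1,0),(32,0)]⟩⟩,.o ⟨false,1,⟨1,[(31,1),(9,0),(5,0)]⟩,⟨3,[(2,0),(1,0),(3,0),(21,1),(1,0),(8,
  0)]⟩⟩,.a ⟨true,0,⟨0,[(31,0)]⟩,⟨0,[(30,0)]⟩⟩ ⟨false,1,⟨2,[(4,0),(14,0),(8,0),(15,0),(1,0),(0,1)]⟩,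
  ⟨0,[(2,0),(28,0),(18,0)]⟩⟩ ⟨true,0,⟨0,[(30,0),(15,0)]⟩,⟨0,[(1,0),(32,0)]⟩⟩]⟩)))))))

theorem ok61 : chk (cU (-1) true 10) t61 l43 = true := by decide +kernel

noncomputable def t65 : Tre :=
  (.Q [0,0,0,2,0,0,-2,-2,0,-1,2] (.p true [0,0,1] [1,0,-1] (⟨0,[(32,0)]⟩,⟨0,[(31,0)]⟩) .k 2 (⟨0,
  [(31,0)]⟩,⟨0,[(32,0)]⟩) .k (.r (-1) ⟨0,[(13,0),(28,0)]⟩ ⟨0,[(30,1)]⟩)) (.R ⟨1,false,false,false,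
  [0,-1,1],[1,0,-1],[1,0,0,0,0,0,0,-1],(⟨0,[(17,0)]⟩,⟨0,[(32,0),(3,0)]⟩),(⟨0,[(32,0)]⟩,⟨0,[(33,
  0)]⟩),⟨0,[(4,0)]⟩,.k,.k,(.r (-1) ⟨0,[(9,0)]⟩ ⟨1,[(0,0),(19,0),(8,1),(0,1),(8,1)]⟩),(.r (-1) ⟨3,
  [(2,0),(3,0),(2,0),(3,0),(0,1),(4,0)]⟩ ⟨5,[(0,2),(19,2),(7,3),(0,3),(1,1),(5,1)]⟩),(.r (-1) ⟨3,
  [(1,0),(0,2),(2,4),(4,0),(0,0),(0,0),(10,0)]⟩ ⟨0,[(0,0),(19,0),(8,0),(0,0)]⟩),.k,⟨true,0,⟨0,[]⟩,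
  ⟨1,[(29,0),(0,0)]⟩⟩,⟨false,1,⟨0,[(2,0)]⟩,⟨1,[(20,1),(8,0),(0,0)]⟩⟩,⟨false,0,⟨5,[(0,2),(19,2),(7,
  1),(0,1),(1,3),(5,3)]⟩,⟨3,[(2,0),(3,0),(2,0),(3,0),(0,1),(4,0)]⟩⟩,⟨false,1,⟨7,[(0,5),(10,1),(9,0),
  (0,0),(5,1),(12,5)]⟩,⟨0,[(5,0)]⟩⟩,⟨false,0,⟨3,[(0,3),(19,3),(8,0),(0,0),(6,1)]⟩,⟨9,[(5,2),(3,5),
  (0,1),(0,0),(1,0),(0,3),(4,1)]⟩⟩,⟨true,0,⟨0,[(0,0)]⟩,⟨0,[(5,0),(32,0)]⟩⟩,[.a ⟨true,0,⟨2,[(0,0),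
  (11,0),(6,0),(3,0),(0,0)]⟩,⟨1,[(6,0),(16,0),(0,0)]⟩⟩ ⟨true,0,⟨0,[(31,0)]⟩,⟨1,[(6,0),(19,0),(3,
  0)]⟩⟩ ⟨false,1,⟨5,[(0,0),(1,2),(5,1),(3,1),(15,1),(11,0)]⟩,⟨1,[(6,0),(13,0),(8,0),(0,0)]⟩⟩,.o
  ⟨false,1,⟨11,[(0,3),(10,3),(9,0),(0,0),(11,1),(6,7)]⟩,⟨0,[(27,0)]⟩⟩,.o ⟨false,0,⟨0,[(29,0)]⟩,⟨7,
  [(2,3),(18,0),(0,0),(11,1)]⟩⟩,.o ⟨false,0,⟨1,[(29,2),(0,0)]⟩,⟨0,[(8,0)]⟩⟩]⟩) (.Q [0,1,-1,0,0,0,0,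
  0,-1,0,0,1] (.p true [0,0,0,1] [] (⟨0,[(24,0)]⟩,⟨0,[(23,0)]⟩) .k 0 (⟨0,[]⟩,⟨0,[]⟩) .k .k) (.Q [0,
  1,1,0,0,0,0,0,1,0,0,-1] (.p false [0,0,0,1] [] (⟨0,[(25,0)]⟩,⟨0,[(24,0)]⟩) .k 0 (⟨0,[]⟩,⟨0,[]⟩)
  .k .k) (.K ⟨0,[0,0,0,1],0,0,(⟨0,[(26,0)]⟩,⟨0,[(25,0)]⟩),.k,(.r (-1) ⟨11,[(11,3),(1,0),(0,1),(7,0),
  (1,5),(5,0),(11,1)]⟩ ⟨1,[(1,1),(18,0),(4,1),(2,1),(2,0),(7,0),(1,1)]⟩),(.x 0 ⟨0,[(38,0)]⟩ ⟨15,[(5,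
  3),(0,3),(16,6),(0,6),(11,1)]⟩),.k,.k,[⟨0,[(26,0)]⟩,⟨0,[(25,0)]⟩,⟨0,[(1,0)]⟩,⟨0,[(0,0)]⟩]⟩) (.Q
  [0,0,0,0,0,1,0,0,0,-1,0,1] (.p true [0,0,0,1] [1] (⟨0,[(26,0)]⟩,⟨0,[(25,0)]⟩) .k 1 (⟨0,[]⟩,⟨0,
  []⟩) .k .k) (.Q [0,1,1,-1,0,0,-1,-1,1,0,1,-1] (.p true [0,0,1] [0,0,0,1] (⟨0,[(36,0)]⟩,⟨0,[(35,
  0)]⟩) .k 2 (⟨0,[(27,0)]⟩,⟨0,[(26,0)]⟩) .k (.r 0 ⟨0,[(1,0),(24,0),(2,0),(0,0)]⟩ ⟨3,[(24,0),(0,2),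
  (8,3)]⟩)) (.R ⟨0,false,false,true,[1,0,0,-1],[1,0,-1],[1,1],(⟨0,[(27,0)]⟩,⟨0,[(28,0)]⟩),(⟨0,[(36,
  0)]⟩,⟨0,[(37,0)]⟩),⟨0,[(1,0)]⟩,.k,.k,(.x (-1) ⟨15,[(7,3),(0,3),(16,6),(0,6),(11,1)]⟩ ⟨0,[(40,
  0)]⟩),.k,.k,.k,⟨false,1,⟨3,[(6,1),(3,1),(14,0),(0,0)]⟩,⟨0,[(35,0)]⟩⟩,⟨true,0,⟨0,[(27,0),(2,0)]⟩,
  ⟨0,[(22,0),(5,0)]⟩⟩,⟨false,1,⟨3,[(25,0),(0,2)]⟩,⟨0,[(2,0),(19,0),(4,0),(2,0)]⟩⟩,⟨true,0,⟨0,[(0,0),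
  (42,0)]⟩,⟨0,[(2,0),(28,0)]⟩⟩,⟨false,0,⟨0,[]⟩,⟨0,[]⟩⟩,⟨false,0,⟨0,[]⟩,⟨0,[]⟩⟩,[.o ⟨false,0,⟨0,[(29,
  0)]⟩,⟨7,[(10,3),(14,0),(0,0),(11,1),(6,3)]⟩⟩,.e ⟨true,0,⟨0,[]⟩,⟨1,[(33,0),(0,0)]⟩⟩ ⟨true,0,⟨0,
  [(27,0),(2,0),(4,0)]⟩,⟨5,[(1,3),(5,0),(0,0),(1,2),(17,1)]⟩⟩,.o ⟨false,1,⟨23,[(5,7),(18,3),(0,2),
  (0,2),(1,15),(9,9)]⟩,⟨0,[(22,0),(4,0),(2,0)]⟩⟩,.a ⟨true,0,⟨0,[(28,0)]⟩,⟨0,[(27,0)]⟩⟩ ⟨false,1,⟨3,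
  [(25,0),(0,0),(17,1)]⟩,⟨3,[(33,0),(0,0),(6,1)]⟩⟩ ⟨true,0,⟨0,[(27,0),(1,0)]⟩,⟨5,[(1,3),(5,0),(0,0),
  (1,2),(17,1)]⟩⟩]⟩) (.Q [0,1,1,1,0,0,0,0,1,1,0,-1] (.p false [0,0,0,1] [1] (⟨0,[(28,0)]⟩,⟨0,[(27,
  0)]⟩) .k 1 (⟨0,[]⟩,⟨0,[]⟩) .k .k) (.R ⟨0,false,false,true,[1,0,0,-1],[0,1],[1,0,1],(⟨0,[(28,0)]⟩,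
  ⟨0,[(29,0)]⟩),(⟨0,[(41,0)]⟩,⟨0,[(40,0)]⟩),⟨0,[(2,0)]⟩,.k,.k,(.x (-1) ⟨15,[(8,3),(0,3),(16,6),(0,
  6),(11,1)]⟩ ⟨0,[(41,0)]⟩),(.x (-1) ⟨15,[(8,3),(0,3),(16,6),(0,6),(11,1)]⟩ ⟨0,[(41,0)]⟩),.k,.k,
  ⟨false,1,⟨11,[(14,3),(2,3),(8,0),(0,0),(17,1),(0,3)]⟩,⟨3,[(0,0),(3,0),(25,0),(1,0),(11,2)]⟩⟩,
  ⟨true,0,⟨0,[(28,0)]⟩,⟨5,[(2,3),(5,0),(0,0),(19,1),(1,2),(2,2)]⟩⟩,⟨false,1,⟨1,[(27,0),(6,0),(0,0),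
  (10,0)]⟩,⟨0,[(1,0),(19,0),(6,0)]⟩⟩,⟨true,0,⟨0,[(0,0)]⟩,⟨0,[(1,0),(14,0)]⟩⟩,⟨false,0,⟨0,[]⟩,⟨0,
  []⟩⟩,⟨false,0,⟨0,[]⟩,⟨0,[]⟩⟩,[.o ⟨false,0,⟨3,[(0,0),(3,0),(25,0),(1,0),(11,2)]⟩,⟨20,[(5,2),(8,0),
  (1,5),(0,0),(21,8),(2,1),(3,10)]⟩⟩,.o ⟨false,0,⟨0,[(44,0)]⟩,⟨23,[(5,3),(10,7),(9,4),(0,4),(11,9),
  (6,3)]⟩⟩,.o ⟨false,1,⟨23,[(6,7),(18,3),(0,2),(0,2),(1,15),(9,9)]⟩,⟨0,[(23,0),(4,0),(2,0)]⟩⟩,.a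
  ⟨true,0,⟨0,[(29,0)]⟩,⟨0,[(28,0)]⟩⟩ ⟨true,0,⟨0,[]⟩,⟨0,[(48,0)]⟩⟩ ⟨false,0,⟨0,[(28,0),(15,0)]⟩,⟨69,
  [(5,11),(0,1),(9,21),(0,1),(11,67),(9,28),(2,5),(3,38)]⟩⟩]⟩) (.R ⟨0,false,false,false,[1,0,0,-1],
  [1,0,-1],[0,1,0,0,0,0,0,0,-1],(⟨0,[(28,0)]⟩,⟨0,[(29,0)]⟩),(⟨0,[(37,0)]⟩,⟨0,[(38,0)]⟩),⟨0,[(2,0)]⟩,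
  .k,.k,(.x (-1) ⟨15,[(8,3),(0,3),(16,6),(0,6),(11,1)]⟩ ⟨0,[(41,0)]⟩),.k,.k,.k,⟨false,0,⟨0,[(0,0),
  (23,0),(3,0),(3,0),(11,1)]⟩,⟨1,[(27,0),(8,1),(9,0)]⟩⟩,⟨true,0,⟨0,[(28,0),(2,0)]⟩,⟨0,[(23,0),(5,
  0)]⟩⟩,⟨true,0,⟨0,[(48,0)]⟩,⟨0,[]⟩⟩,⟨false,1,⟨1,[(27,0),(0,1),(2,1),(4,1),(9,0)]⟩,⟨10,[(0,0),(0,5),
  (2,3),(0,0),(12,2)]⟩⟩,⟨false,0,⟨0,[]⟩,⟨0,[]⟩⟩,⟨false,0,⟨0,[]⟩,⟨0,[]⟩⟩,[.a ⟨true,0,⟨0,[(17,0),(6,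
  0),(19,1)]⟩,⟨1,[(11,0),(16,0),(0,0)]⟩⟩ ⟨false,0,⟨6,[(0,1),(0,1),(2,2),(23,6),(1,4),(1,2)]⟩,⟨1,
  [(27,0),(18,0)]⟩⟩ ⟨true,0,⟨0,[(28,0),(2,0),(4,0)]⟩,⟨5,[(2,3),(5,0),(0,0),(1,2),(17,1)]⟩⟩,.o
  ⟨false,1,⟨0,[(30,0),(15,0)]⟩,⟨0,[(32,0)]⟩⟩,.o ⟨false,1,⟨23,[(6,7),(18,3),(0,2),(0,2),(1,15),(9,
  9)]⟩,⟨0,[(23,0),(4,0),(2,0)]⟩⟩,.e ⟨false,0,⟨6,[(0,2),(0,2),(2,0),(23,6),(1,3),(1,0)]⟩,⟨1,[(27,0),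
  (6,0),(0,0),(10,0)]⟩⟩ ⟨false,1,⟨0,[(28,0),(1,0),(15,0)]⟩,⟨5,[(2,3),(5,0),(0,0),(1,2),(17,
  1)]⟩⟩]⟩))) (.Q [0,0,0,0,0,0,1,1,0,0,-1,1] (.p false [0,0,1] [0,0,0,1] (⟨0,[(36,0)]⟩,⟨0,[(35,0)]⟩)
  .k 2 (⟨0,[(27,0)]⟩,⟨0,[(26,0)]⟩) .k (.r 0 ⟨0,[(1,0),(24,0),(2,0),(0,0)]⟩ ⟨3,[(24,0),(0,2),(8,
  3)]⟩)) (.I [0,1,-1,0,0,0,0,1,-1] (.R ⟨1,false,false,false,[1,0,0,-1],[1,0,-1],[0,1,0,0,0,0,0,0,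
  -1],(⟨0,[(28,0)]⟩,⟨0,[(29,0)]⟩),(⟨0,[(37,0)]⟩,⟨0,[(38,0)]⟩),⟨0,[(2,0)]⟩,.k,.k,(.x (-1) ⟨15,[(8,3),
  (0,3),(16,6),(0,6),(11,1)]⟩ ⟨0,[(41,0)]⟩),.k,(.x 0 ⟨1,[(9,0),(13,1),(14,0)]⟩ ⟨23,[(7,3),(7,7),(10,
  6),(0,6),(9,23),(1,5),(1,23)]⟩),.k,⟨false,0,⟨0,[(0,0)]⟩,⟨1,[(27,0),(8,1),(9,0)]⟩⟩,⟨true,0,⟨0,[(28,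
  0),(2,0)]⟩,⟨0,[(23,0),(5,0)]⟩⟩,⟨true,0,⟨0,[(48,0)]⟩,⟨0,[]⟩⟩,⟨false,1,⟨1,[(27,0),(0,1),(2,1),(4,1),
  (9,0)]⟩,⟨1,[(0,0),(0,0),(1,0),(19,0)]⟩⟩,⟨false,0,⟨0,[(44,0)]⟩,⟨23,[(5,3),(10,3),(0,3),(6,3),(1,4),
  (0,4),(18,13)]⟩⟩,⟨false,1,⟨1,[(27,0),(0,1),(2,1),(4,1),(7,1),(1,0)]⟩,⟨0,[(3,0),(14,0)]⟩⟩,[.a
  ⟨true,0,⟨0,[(17,0),(6,0),(19,1)]⟩,⟨1,[(11,0),(16,0),(0,0)]⟩⟩ ⟨false,0,⟨0,[(0,0),(35,0)]⟩,⟨1,[(27,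
  0),(18,0)]⟩⟩ ⟨true,0,⟨0,[(28,0),(2,0),(4,0)]⟩,⟨0,[(1,0)]⟩⟩,.o ⟨false,1,⟨0,[(30,0),(15,0)]⟩,⟨0,
  [(32,0)]⟩⟩,.o ⟨false,1,⟨23,[(6,7),(18,3),(0,2),(0,2),(1,15),(9,9)]⟩,⟨0,[(23,0),(4,0),(2,0)]⟩⟩,.e
  ⟨false,0,⟨0,[(0,0),(16,0),(26,0)]⟩,⟨1,[(27,0),(6,0),(0,0),(10,0)]⟩⟩ ⟨false,1,⟨0,[(28,0),(1,0),(15,
  0)]⟩,⟨0,[(1,0)]⟩⟩]⟩) (.I [1,0,1,0,0,0,0,0,1] (.R ⟨1,false,false,true,[1,0,0,-1],[0,1],[0,1,0,0,0,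
  0,0,0,-1],(⟨0,[(29,0)]⟩,⟨0,[(30,0)]⟩),(⟨0,[(42,0)]⟩,⟨0,[(41,0)]⟩),⟨0,[(3,0)]⟩,.k,.k,(.x (-1) ⟨15,
  [(9,3),(0,3),(16,6),(0,6),(11,1)]⟩ ⟨0,[(42,0)]⟩),(.x (-1) ⟨15,[(9,3),(0,3),(16,6),(0,6),(11,1)]⟩
  ⟨0,[(42,0)]⟩),(.r (-1) ⟨3,[(4,1),(9,0),(0,1),(1,1),(6,0),(1,0),(0,0),(1,1)]⟩ ⟨1,[(0,1),(34,0),(0,
  0),(8,3)]⟩),.k,⟨false,1,⟨7,[(4,2),(0,0),(8,3),(0,1),(1,1),(6,1),(1,1),(0,1),(1,3)]⟩,⟨0,[(0,0),(44,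
  0)]⟩⟩,⟨true,0,⟨0,[(29,0)]⟩,⟨4,[(1,0),(0,2),(1,0),(25,0),(0,1),(0,2),(2,1)]⟩⟩,⟨true,0,⟨0,[(49,0)]⟩,
  ⟨0,[]⟩⟩,⟨false,0,⟨0,[(0,0),(28,0),(15,0)]⟩,⟨53,[(2,19),(1,29),(2,3),(7,5),(1,15),(0,9),(8,11),(12,
  16),(6,14)]⟩⟩,⟨false,0,⟨0,[(45,0)]⟩,⟨23,[(6,3),(10,3),(0,3),(6,3),(1,4),(0,4),(18,13)]⟩⟩,⟨false,0,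
  ⟨0,[(0,0),(28,0),(15,1)]⟩,⟨22,[(2,7),(1,14),(1,2),(8,3),(1,13),(0,3),(8,3),(12,5),(6,8)]⟩⟩,[.o
  ⟨false,0,⟨0,[(45,0),(3,0)]⟩,⟨20,[(6,2),(8,0),(1,5),(0,0),(21,8),(2,1),(3,10)]⟩⟩,.o ⟨false,0,⟨0,
  [(45,0)]⟩,⟨23,[(6,3),(10,7),(9,4),(0,4),(11,9),(6,3)]⟩⟩,.o ⟨false,1,⟨23,[(7,7),(18,3),(0,2),(0,2),
  (1,15),(9,9)]⟩,⟨0,[(24,0),(4,0),(2,0)]⟩⟩,.a ⟨true,0,⟨0,[(30,0)]⟩,⟨0,[(29,0)]⟩⟩ ⟨true,0,⟨0,[(4,0),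
  (24,0),(1,0),(1,0)]⟩,⟨0,[(0,0)]⟩⟩ ⟨false,0,⟨0,[(29,0),(15,0)]⟩,⟨3,[(2,1),(14,1),(12,1),(9,0),(6,
  2)]⟩⟩]⟩) (.Q [0,0,1,1,0,0,0,0,1,1,0,-1] (.p false [0,0,0,1] [1] (⟨0,[(30,0)]⟩,⟨0,[(29,0)]⟩) .k 1
  (⟨0,[]⟩,⟨0,[]⟩) .k .k) (.R ⟨1,false,false,true,[1,0,0,-1],[0,1],[0,0,0,0,0,0,0,0,-1],(⟨0,[(30,
  0)]⟩,⟨0,[(31,0)]⟩),(⟨0,[(43,0)]⟩,⟨0,[(42,0)]⟩),⟨0,[(4,0)]⟩,.k,.k,(.x (-1) ⟨15,[(10,3),(0,3),(16,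
  6),(0,6),(11,1)]⟩ ⟨0,[(43,0)]⟩),(.x (-1) ⟨15,[(10,3),(0,3),(16,6),(0,6),(11,1)]⟩ ⟨0,[(43,0)]⟩),
  (.r (-1) ⟨67,[(1,25),(4,7),(9,39),(1,15),(0,23),(7,7),(0,16),(1,7),(16,10)]⟩ ⟨4,[(0,3),(1,0),(0,
  1),(27,1),(0,0),(0,2),(2,1),(9,5)]⟩),.k,⟨false,1,⟨11,[(1,9),(14,3),(2,3),(8,0),(18,2),(0,3)]⟩,⟨0,
  [(0,0),(2,0),(28,0)]⟩⟩,⟨true,0,⟨0,[(30,0)]⟩,⟨4,[(2,0),(0,2),(1,0),(25,0),(0,1),(0,2),(2,1)]⟩⟩,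
  ⟨false,1,⟨3,[(28,0),(0,0),(18,1)]⟩,⟨0,[]⟩⟩,⟨false,0,⟨0,[(0,0)]⟩,⟨53,[(3,19),(1,29),(2,3),(7,5),(1,
  15),(0,9),(8,11),(12,16),(6,14)]⟩⟩,⟨true,0,⟨0,[(46,0)]⟩,⟨0,[(45,0)]⟩⟩,⟨false,0,⟨0,[(0,0),(45,0)]⟩,
  ⟨22,[(3,7),(1,14),(1,2),(8,3),(1,13),(0,3),(8,3),(12,5),(6,8)]⟩⟩,[.o ⟨false,0,⟨0,[(46,0),(3,0)]⟩,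
  ⟨20,[(7,2),(8,0),(1,5),(0,0),(21,8),(2,1),(3,10)]⟩⟩,.o ⟨false,0,⟨0,[(46,0)]⟩,⟨23,[(7,3),(10,7),(9,
  4),(0,4),(11,9),(6,3)]⟩⟩,.o ⟨false,1,⟨23,[(8,7),(18,3),(0,2),(0,2),(1,15),(9,9)]⟩,⟨0,[(25,0),(4,
  0),(2,0)]⟩⟩,.a ⟨true,0,⟨0,[(31,0)]⟩,⟨0,[(30,0)]⟩⟩ ⟨true,0,⟨0,[(1,0)]⟩,⟨0,[(0,0),(2,0),(19,0)]⟩⟩
  ⟨false,0,⟨0,[(30,0),(15,0)]⟩,⟨3,[(3,1),(14,1),(12,1),(9,0),(6,2)]⟩⟩]⟩) (.Q [0,0,-1,-2,0,0,0,0,-1,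
  -1,0,1] (.p true [0,0,0,1] [1] (⟨0,[(31,0)]⟩,⟨0,[(30,0)]⟩) .k 1 (⟨0,[]⟩,⟨0,[]⟩) .k .k) (.R ⟨1,
  false,false,true,[1,0,0,-1],[0,1],[0,0,0,0,0,0,0,0,-1],(⟨0,[(31,0)]⟩,⟨0,[(32,0)]⟩),(⟨0,[(44,0)]⟩,
  ⟨0,[(43,0)]⟩),⟨0,[(5,0)]⟩,.k,.k,(.x (-1) ⟨15,[(11,3),(0,3),(16,6),(0,6),(11,1)]⟩ ⟨0,[(44,0)]⟩),
  (.x (-1) ⟨15,[(11,3),(0,3),(16,6),(0,6),(11,1)]⟩ ⟨0,[(44,0)]⟩),(.r (-1) ⟨67,[(2,25),(4,7),(9,39),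
  (1,15),(0,23),(7,7),(0,16),(1,7),(16,10)]⟩ ⟨0,[(3,0),(31,0),(2,0),(8,1)]⟩),.k,⟨false,1,⟨11,[(2,9),
  (14,3),(2,3),(8,0),(18,2),(0,3)]⟩,⟨0,[(3,0),(23,0),(7,0),(11,1)]⟩⟩,⟨true,0,⟨0,[(31,0)]⟩,⟨4,[(1,0),
  (1,0),(0,1),(27,1),(0,0),(0,2),(2,1),(9,0)]⟩⟩,⟨false,1,⟨3,[(29,0),(0,0),(18,1)]⟩,⟨0,[]⟩⟩,⟨true,0,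
  ⟨0,[(3,0),(23,0),(3,0),(3,0),(11,1)]⟩,⟨0,[(1,0)]⟩⟩,⟨true,0,⟨0,[(47,0)]⟩,⟨0,[(46,0)]⟩⟩,⟨true,0,⟨0,
  [(3,0),(23,0),(3,0),(3,0),(11,2)]⟩,⟨0,[(0,0)]⟩⟩,[.o ⟨false,0,⟨0,[(47,0),(3,0)]⟩,⟨20,[(8,2),(8,0),
  (1,5),(0,0),(21,8),(2,1),(3,10)]⟩⟩,.o ⟨false,0,⟨0,[(47,0)]⟩,⟨23,[(8,3),(10,7),(9,4),(0,4),(11,9),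
  (6,3)]⟩⟩,.o ⟨false,1,⟨23,[(9,7),(18,3),(0,2),(0,2),(1,15),(9,9)]⟩,⟨0,[(26,0),(4,0),(2,0)]⟩⟩,.a
  ⟨true,0,⟨0,[(32,0)]⟩,⟨0,[(31,0)]⟩⟩ ⟨true,0,⟨0,[(2,0)]⟩,⟨0,[(3,0),(23,0),(7,0),(11,0)]⟩⟩ ⟨false,0,
  ⟨0,[(31,0),(15,0)]⟩,⟨3,[(4,1),(14,1),(12,1),(9,0),(6,2)]⟩⟩]⟩) (.R ⟨1,true,false,true,[1,0,0,-1],
  [0,1],[0,0,0,0,0,0,0,0,-1],(⟨0,[(31,0)]⟩,⟨0,[(32,0)]⟩),(⟨0,[(44,0)]⟩,⟨0,[(43,0)]⟩),⟨0,[(5,0)]⟩,.k,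
  .k,(.x (-1) ⟨15,[(11,3),(0,3),(16,6),(0,6),(11,1)]⟩ ⟨0,[(44,0)]⟩),(.x (-1) ⟨15,[(11,3),(0,3),(16,
  6),(0,6),(11,1)]⟩ ⟨0,[(44,0)]⟩),(.r (-1) ⟨67,[(2,25),(4,7),(9,39),(1,15),(0,23),(7,7),(0,16),(1,
  7),(16,10)]⟩ ⟨4,[(0,3),(2,0),(0,1),(27,1),(0,0),(0,2),(2,1),(9,1)]⟩),.k,⟨false,1,⟨11,[(2,9),(14,
  3),(2,3),(8,0),(18,2),(0,3)]⟩,⟨0,[(0,0),(3,0),(19,0)]⟩⟩,⟨true,0,⟨0,[(31,0)]⟩,⟨4,[(1,0),(1,0),(0,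
  1),(27,1),(0,0),(0,2),(2,1),(9,0)]⟩⟩,⟨false,1,⟨3,[(29,0),(0,0),(18,1)]⟩,⟨0,[]⟩⟩,⟨true,0,⟨0,[(0,0),
  (45,0)]⟩,⟨0,[(1,0)]⟩⟩,⟨true,0,⟨0,[(47,0)]⟩,⟨0,[(46,0)]⟩⟩,⟨false,0,⟨0,[(0,0)]⟩,⟨25,[(1,21),(6,3),
  (8,1),(1,7),(0,1),(8,4),(0,2),(1,3),(16,15)]⟩⟩,[]⟩))))) (.I [0,1,-1,0,0,0,0,1,-1] (.R ⟨1,false,
  false,false,[1,0,0,-1],[1,0,-1],[0,1,0,0,0,0,0,0,-1],(⟨0,[(28,0)]⟩,⟨0,[(29,0)]⟩),(⟨0,[(37,0)]⟩,⟨0,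
  [(38,0)]⟩),⟨0,[(2,0)]⟩,.k,.k,(.x (-1) ⟨15,[(8,3),(0,3),(16,6),(0,6),(11,1)]⟩ ⟨0,[(41,0)]⟩),.k,(.x
  0 ⟨1,[(9,0),(13,1),(14,0)]⟩ ⟨23,[(7,3),(7,7),(10,6),(0,6),(9,23),(1,5),(1,23)]⟩),.k,⟨false,0,⟨0,
  [(0,0)]⟩,⟨1,[(27,0),(8,1),(9,0)]⟩⟩,⟨true,0,⟨0,[(28,0),(2,0)]⟩,⟨0,[(23,0),(5,0)]⟩⟩,⟨true,0,⟨0,[(48,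
  0)]⟩,⟨0,[]⟩⟩,⟨false,1,⟨1,[(1,1),(25,0),(6,0),(0,0),(10,0)]⟩,⟨0,[(3,0),(28,0)]⟩⟩,⟨false,0,⟨0,[(44,
  0)]⟩,⟨23,[(5,3),(10,3),(0,3),(6,3),(1,4),(0,4),(18,13)]⟩⟩,⟨false,1,⟨1,[(1,1),(25,0),(6,0),(0,0),
  (8,1),(1,0)]⟩,⟨0,[(3,0),(14,0)]⟩⟩,[.e ⟨false,0,⟨1,[(0,0),(0,0),(2,0),(18,0)]⟩,⟨1,[(27,0),(18,
  0)]⟩⟩ ⟨false,0,⟨0,[(1,0)]⟩,⟨11,[(6,3),(4,5),(13,1),(0,2),(0,2),(1,7),(9,1)]⟩⟩,.o ⟨false,1,⟨0,[(30,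
  0),(15,0)]⟩,⟨0,[(32,0)]⟩⟩,.o ⟨false,1,⟨23,[(6,7),(18,3),(0,2),(0,2),(1,15),(9,9)]⟩,⟨1,[(1,1),(9,
  0),(19,0),(2,0)]⟩⟩,.a ⟨true,0,⟨0,[(29,0)]⟩,⟨0,[(28,0)]⟩⟩ ⟨false,0,⟨1,[(0,0),(0,0),(1,0),(19,0)]⟩,
  ⟨1,[(27,0),(6,0),(0,0),(10,0)]⟩⟩ ⟨true,0,⟨0,[(1,0)]⟩,⟨0,[(29,0),(2,0)]⟩⟩]⟩) (.R ⟨1,false,false,
  true,[1,0,0,-1],[0,1],[1,0,0,-1,0,0,0,0,-1],(⟨0,[(28,0)]⟩,⟨0,[(29,0)]⟩),(⟨0,[(41,0)]⟩,⟨0,[(40,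
  0)]⟩),⟨0,[(2,0)]⟩,.k,.k,(.x (-1) ⟨15,[(8,3),(0,3),(16,6),(0,6),(11,1)]⟩ ⟨0,[(41,0)]⟩),(.x (-1)
  ⟨15,[(8,3),(0,3),(16,6),(0,6),(11,1)]⟩ ⟨0,[(41,0)]⟩),(.r (-1) ⟨7,[(1,3),(1,2),(0,0),(9,5),(1,1),
  (6,1),(1,1),(0,1)]⟩ ⟨0,[(0,0),(31,0),(2,0),(8,1)]⟩),.k,⟨false,1,⟨33,[(1,19),(1,19),(1,3),(8,23),
  (2,11),(5,11),(2,6),(12,1),(6,0)]⟩,⟨0,[(0,0),(23,0),(7,0),(11,2)]⟩⟩,⟨true,0,⟨0,[(28,0)]⟩,⟨0,[(23,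
  0),(5,0),(1,0)]⟩⟩,⟨false,1,⟨23,[(5,3),(10,3),(0,3),(6,3),(1,4),(0,4),(18,13)]⟩,⟨0,[(44,0)]⟩⟩,
  ⟨false,0,⟨0,[(0,0),(0,0),(9,0),(12,0),(19,1)]⟩,⟨13,[(3,9),(1,0),(8,1),(1,3),(8,0),(0,1),(2,3),(9,
  5),(6,3)]⟩⟩,⟨true,0,⟨0,[]⟩,⟨0,[(48,0)]⟩⟩,⟨false,0,⟨0,[(0,0),(0,0),(9,0),(12,0),(19,2)]⟩,⟨34,[(3,
  26),(1,8),(8,3),(1,21),(8,1),(0,3),(2,7),(9,11),(6,14)]⟩⟩,[.o ⟨false,0,⟨0,[(44,0),(3,0)]⟩,⟨20,[(5,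
  2),(8,0),(1,5),(0,0),(21,8),(2,1),(3,10)]⟩⟩,.o ⟨false,0,⟨0,[(44,0)]⟩,⟨23,[(5,3),(10,7),(9,4),(0,
  4),(11,9),(6,3)]⟩⟩,.o ⟨false,1,⟨23,[(6,7),(18,3),(0,2),(0,2),(1,15),(9,9)]⟩,⟨1,[(1,1),(9,0),(19,
  0),(2,0)]⟩⟩,.a ⟨true,0,⟨0,[(29,0)]⟩,⟨0,[(28,0)]⟩⟩ ⟨true,0,⟨0,[(1,0),(1,0),(14,0)]⟩,⟨0,[(0,0),(23,
  0),(7,0),(11,1)]⟩⟩ ⟨false,0,⟨0,[(28,0),(15,0)]⟩,⟨69,[(5,11),(0,1),(9,21),(0,1),(11,67),(9,28),(2,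
  5),(3,38)]⟩⟩]⟩))))) (.Q [0,0,0,0,0,-1,0,0,0,1,0,-1] (.p false [0,0,0,1] [1] (⟨0,[(25,0)]⟩,⟨0,[(24,
  0)]⟩) .k 1 (⟨0,[]⟩,⟨0,[]⟩) .k .k) (.I [1,0,0,0,0,0,0,0,1] (.Q [0,0,0,0,0,0,-1,-1,0,0,1,-1] (.p
  true [0,0,1] [0,0,0,1] (⟨0,[(36,0)]⟩,⟨0,[(35,0)]⟩) .k 2 (⟨0,[(27,0)]⟩,⟨0,[(26,0)]⟩) .k (.r (-1)
  ⟨1,[(17,0),(6,0),(21,0)]⟩ ⟨0,[(0,0),(33,0)]⟩)) (.R ⟨1,false,false,false,[1,0,0,-1],[1,0,-1],[0,0,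
  0,0,0,0,0,0,-1],(⟨0,[(27,0)]⟩,⟨0,[(28,0)]⟩),(⟨0,[(36,0)]⟩,⟨0,[(37,0)]⟩),⟨0,[(2,0)]⟩,.k,.k,(.x
  (-1) ⟨15,[(7,3),(0,3),(16,6),(0,6),(11,1)]⟩ ⟨0,[(40,0)]⟩),.k,(.r (-1) ⟨1,[(4,0),(1,0),(18,0)]⟩ ⟨1,
  [(1,0),(1,0),(24,0),(3,0),(0,0),(1,0),(7,1)]⟩),.k,⟨false,1,⟨1,[(6,0),(3,0),(14,0)]⟩,⟨0,[(1,0),(33,
  0)]⟩⟩,⟨true,0,⟨0,[(27,0),(2,0)]⟩,⟨0,[(22,0),(5,0)]⟩⟩,⟨false,1,⟨3,[(25,0),(0,0),(18,1)]⟩,⟨0,[]⟩⟩,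
  ⟨false,0,⟨1,[(0,0),(0,0),(1,0),(28,0),(8,0)]⟩,⟨5,[(5,1),(4,2),(13,0),(0,2),(2,3),(9,0)]⟩⟩,⟨true,0,
  ⟨0,[(43,0)]⟩,⟨0,[(42,0)]⟩⟩,⟨false,0,⟨1,[(0,0),(0,0),(1,0),(28,0),(8,0),(1,1)]⟩,⟨5,[(4,2),(0,1),
  (18,0),(0,2),(2,3),(9,0)]⟩⟩,[.e ⟨false,1,⟨1,[(25,0),(18,0)]⟩,⟨0,[(1,0)]⟩⟩ ⟨false,0,⟨0,[(0,0)]⟩,
  ⟨11,[(5,3),(4,5),(13,1),(0,2),(0,2),(1,7),(9,1)]⟩⟩,.o ⟨false,1,⟨0,[(29,0),(15,0)]⟩,⟨0,[(31,0)]⟩⟩,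
  .o ⟨false,1,⟨23,[(5,7),(18,3),(0,2),(0,2),(1,15),(9,9)]⟩,⟨1,[(0,1),(9,0),(19,0),(2,0)]⟩⟩,.a ⟨true,
  0,⟨0,[(28,0)]⟩,⟨0,[(27,0)]⟩⟩ ⟨false,1,⟨1,[(5,0),(16,0),(2,0),(1,0),(13,0)]⟩,⟨1,[(1,1),(31,0),(0,
  0)]⟩⟩ ⟨true,0,⟨0,[(0,0)]⟩,⟨0,[(28,0),(2,0)]⟩⟩]⟩) (.R ⟨1,false,false,false,[1,0,0,-1],[1,0,-1],[0,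
  0,0,0,0,0,0,0,-1],(⟨0,[(27,0)]⟩,⟨0,[(28,0)]⟩),(⟨0,[(36,0)]⟩,⟨0,[(37,0)]⟩),⟨0,[(2,0)]⟩,.k,.k,(.x
  (-1) ⟨15,[(7,3),(0,3),(16,6),(0,6),(11,1)]⟩ ⟨0,[(40,0)]⟩),.k,(.r (-1) ⟨1,[(4,0),(1,0),(18,0)]⟩ ⟨1,
  [(1,0),(1,0),(24,0),(3,0),(0,0),(1,0),(7,1)]⟩),.k,⟨false,1,⟨1,[(6,0),(3,0),(14,0)]⟩,⟨0,[(1,0),(33,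
  0)]⟩⟩,⟨true,0,⟨0,[(27,0),(2,0)]⟩,⟨0,[(22,0),(5,0)]⟩⟩,⟨false,1,⟨3,[(25,0),(0,0),(18,1)]⟩,⟨0,[]⟩⟩,
  ⟨false,0,⟨2,[(1,0),(1,1),(10,0),(1,1),(10,0),(4,0),(10,1)]⟩,⟨11,[(0,7),(4,3),(4,1),(13,1),(0,6),
  (0,0)]⟩⟩,⟨true,0,⟨0,[(43,0)]⟩,⟨0,[(42,0)]⟩⟩,⟨false,0,⟨2,[(1,0),(1,1),(10,0),(1,1),(10,0),(4,0),
  (10,4)]⟩,⟨65,[(0,51),(4,5),(7,23),(1,7),(0,1),(7,13),(0,32),(2,7),(16,2)]⟩⟩,[.a ⟨true,0,⟨0,[(16,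
  0),(6,0),(19,1)]⟩,⟨1,[(10,0),(16,0),(0,0)]⟩⟩ ⟨false,1,⟨1,[(25,0),(18,0)]⟩,⟨0,[(1,0)]⟩⟩ ⟨true,0,⟨0,
  [(27,0),(2,0),(4,0)]⟩,⟨0,[(0,0)]⟩⟩,.o ⟨false,1,⟨0,[(29,0),(15,0)]⟩,⟨0,[(31,0)]⟩⟩,.o ⟨false,1,⟨23,
  [(5,7),(18,3),(0,2),(0,2),(1,15),(9,9)]⟩,⟨0,[(22,0),(4,0),(2,0)]⟩⟩,.e ⟨false,1,⟨1,[(5,0),(16,0),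
  (2,0),(1,0),(13,0)]⟩,⟨1,[(1,1),(31,0),(0,0)]⟩⟩ ⟨false,1,⟨2,[(3,1),(2,0),(18,0),(1,0),(4,0),(2,1),
  (9,0)]⟩,⟨0,[(0,0)]⟩⟩]⟩)) (.Q [0,1,0,-1,0,0,0,0,0,-1,0,1] (.p true [0,0,0,1] [1] (⟨0,[(27,0)]⟩,⟨0,
  [(26,0)]⟩) .k 1 (⟨0,[]⟩,⟨0,[]⟩) .k .k) (.R ⟨1,false,false,false,[1,0,0,-1],[0,1],[0,1,0,0,0,0,0,0,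
  -1],(⟨0,[(27,0)]⟩,⟨0,[(28,0)]⟩),(⟨0,[(40,0)]⟩,⟨0,[(39,0)]⟩),⟨0,[(2,0)]⟩,.k,.k,(.x (-1) ⟨15,[(7,3),
  (0,3),(16,6),(0,6),(11,1)]⟩ ⟨0,[(40,0)]⟩),(.x (-1) ⟨15,[(7,3),(0,3),(16,6),(0,6),(11,1)]⟩ ⟨0,[(40,
  0)]⟩),(.r (-1) ⟨6,[(1,4),(3,1),(7,3),(1,1),(0,1),(7,1),(0,0),(1,1)]⟩ ⟨1,[(3,1),(24,1),(4,0),(0,0),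
  (8,3),(3,1)]⟩),.k,⟨false,1,⟨0,[(1,0),(40,0),(1,0)]⟩,⟨0,[(3,0),(24,0),(14,0)]⟩⟩,⟨true,0,⟨0,[(27,
  0)]⟩,⟨2,[(0,1),(27,0),(1,0),(2,0),(7,0),(1,1)]⟩⟩,⟨true,0,⟨0,[(47,0)]⟩,⟨0,[]⟩⟩,⟨false,0,⟨0,[(3,0),
  (23,0),(0,0),(14,0)]⟩,⟨41,[(0,25),(3,3),(0,15),(10,7),(5,7),(2,20),(12,1),(2,5),(3,2)]⟩⟩,⟨false,0,
  ⟨0,[(43,0)]⟩,⟨23,[(4,3),(10,3),(0,3),(6,3),(1,4),(0,4),(18,13)]⟩⟩,⟨false,0,⟨0,[(3,0),(23,0),(0,0),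
  (14,1)]⟩,⟨18,[(0,14),(0,0),(2,1),(0,3),(7,4),(2,8),(8,8),(12,0),(2,2)]⟩⟩,[.o ⟨false,0,⟨0,[(43,
  0)]⟩,⟨23,[(4,3),(10,7),(9,4),(0,4),(11,9),(6,3)]⟩⟩,.e ⟨true,0,⟨0,[(1,0)]⟩,⟨0,[(3,0),(24,0),(18,
  0)]⟩⟩ ⟨true,0,⟨3,[(27,3),(5,0),(0,0),(6,1),(1,3)]⟩,⟨0,[(0,0)]⟩⟩,.o ⟨false,1,⟨23,[(5,7),(18,3),(0,
  2),(0,2),(1,15),(9,9)]⟩,⟨3,[(1,1),(1,1),(23,1),(1,0),(0,0),(0,0),(1,0)]⟩⟩,.a ⟨true,0,⟨0,[(28,0)]⟩,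
  ⟨0,[(27,0)]⟩⟩ ⟨false,1,⟨1,[(25,0),(18,0)]⟩,⟨0,[(3,0),(24,0)]⟩⟩ ⟨true,0,⟨0,[(27,0),(15,0)]⟩,⟨0,[(0,
  0)]⟩⟩]⟩) (.R ⟨1,false,false,false,[1,0,0,-1],[0,1],[0,1,0,0,0,0,0,0,-1],(⟨0,[(27,0)]⟩,⟨0,[(28,
  0)]⟩),(⟨0,[(40,0)]⟩,⟨0,[(39,0)]⟩),⟨0,[(2,0)]⟩,.k,.k,(.x (-1) ⟨15,[(7,3),(0,3),(16,6),(0,6),(11,
  1)]⟩ ⟨0,[(40,0)]⟩),(.x (-1) ⟨15,[(7,3),(0,3),(16,6),(0,6),(11,1)]⟩ ⟨0,[(40,0)]⟩),(.r (-1) ⟨6,[(1,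
  4),(3,1),(7,3),(1,1),(0,1),(7,1),(0,0),(1,1)]⟩ ⟨1,[(3,1),(24,1),(4,0),(0,0),(8,3),(3,1)]⟩),.k,
  ⟨false,1,⟨0,[(1,0),(40,0),(1,0)]⟩,⟨0,[(3,0),(24,0),(14,0)]⟩⟩,⟨true,0,⟨0,[(27,0)]⟩,⟨0,[(22,0),(5,
  0),(1,0)]⟩⟩,⟨true,0,⟨0,[(47,0)]⟩,⟨0,[]⟩⟩,⟨false,0,⟨2,[(0,1),(2,2),(6,0),(17,1),(3,1),(10,0)]⟩,⟨14,
  [(1,4),(2,2),(0,4),(9,2),(0,2),(5,1),(2,4),(2,9),(9,4)]⟩⟩,⟨false,0,⟨0,[(43,0)]⟩,⟨23,[(4,3),(10,3),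
  (0,3),(6,3),(1,4),(0,4),(18,13)]⟩⟩,⟨false,0,⟨2,[(0,1),(2,2),(6,0),(17,1),(3,1),(10,3)]⟩,⟨22,[(1,
  6),(2,8),(0,7),(9,9),(0,7),(8,7),(2,14),(9,6),(2,0)]⟩⟩,[.o ⟨false,0,⟨0,[(43,0)]⟩,⟨23,[(4,3),(10,
  7),(9,4),(0,4),(11,9),(6,3)]⟩⟩,.a ⟨true,0,⟨0,[(0,0),(27,0)]⟩,⟨0,[(42,0)]⟩⟩ ⟨true,0,⟨0,[(1,0)]⟩,⟨0,
  [(3,0),(24,0),(18,0)]⟩⟩ ⟨false,0,⟨0,[(0,0)]⟩,⟨47,[(5,15),(9,11),(1,23),(6,7),(0,8),(0,8),(1,31),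
  (3,11),(5,13)]⟩⟩,.o ⟨false,1,⟨23,[(5,7),(18,3),(0,2),(0,2),(1,15),(9,9)]⟩,⟨3,[(1,1),(1,1),(23,1),
  (1,0),(0,0),(0,0),(1,0)]⟩⟩,.e ⟨false,1,⟨1,[(25,0),(18,0)]⟩,⟨0,[(3,0),(24,0)]⟩⟩ ⟨false,0,⟨0,[(0,
  0)]⟩,⟨23,[(4,3),(10,7),(9,4),(0,4),(1,23),(9,9),(6,3)]⟩⟩]⟩))) (.I [0,0,0,0,0,0,0,0,1] (.R ⟨0,
  false,false,false,[1,0,0,-1],[1,0,-1],[1,0,0,0,0,0,0,0,-1],(⟨0,[(26,0)]⟩,⟨0,[(27,0)]⟩),(⟨0,[(35,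
  0)]⟩,⟨0,[(36,0)]⟩),⟨0,[(1,0)]⟩,.k,.k,(.x (-1) ⟨15,[(6,3),(0,3),(16,6),(0,6),(11,1)]⟩ ⟨0,[(39,
  0)]⟩),.k,.k,.k,⟨false,1,⟨1,[(5,0),(3,0),(14,0)]⟩,⟨0,[(0,0),(33,0)]⟩⟩,⟨true,0,⟨0,[(26,0),(2,0)]⟩,
  ⟨5,[(1,3),(4,0),(0,0),(15,2),(3,1)]⟩⟩,⟨true,0,⟨0,[]⟩,⟨0,[(46,0)]⟩⟩,⟨false,0,⟨2,[(0,0),(1,1),(10,
  0),(1,1),(10,0),(4,0),(10,1)]⟩,⟨5,[(4,1),(4,2),(13,0),(0,2),(2,3),(9,0)]⟩⟩,⟨false,0,⟨0,[]⟩,⟨0,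
  []⟩⟩,⟨false,0,⟨0,[]⟩,⟨0,[]⟩⟩,[.a ⟨true,0,⟨0,[(15,0),(6,0),(19,1)]⟩,⟨1,[(9,0),(16,0),(0,0)]⟩⟩
  ⟨false,1,⟨1,[(24,0),(18,0)]⟩,⟨0,[(0,0)]⟩⟩ ⟨true,0,⟨0,[(26,0),(2,0),(4,0)]⟩,⟨5,[(1,3),(4,0),(0,0),
  (1,2),(17,1)]⟩⟩,.o ⟨false,1,⟨0,[(28,0),(15,0)]⟩,⟨0,[(30,0)]⟩⟩,.o ⟨false,1,⟨23,[(4,7),(18,3),(0,2),
  (0,2),(1,15),(9,9)]⟩,⟨0,[(21,0),(4,0),(2,0)]⟩⟩,.e ⟨false,1,⟨1,[(4,0),(16,0),(2,0),(1,0),(13,0)]⟩,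
  ⟨1,[(0,1),(31,0),(0,0)]⟩⟩ ⟨false,1,⟨2,[(2,1),(2,0),(18,0),(1,0),(4,0),(2,1),(9,0)]⟩,⟨5,[(1,3),(4,
  0),(0,0),(1,2),(17,1)]⟩⟩]⟩) (.I [1,-1,0,0,0,0,0,0,-1] (.R ⟨0,false,false,false,[1,0,0,-1],[0,1],
  [1,0,0,0,0,0,0,0,-1],(⟨0,[(27,0)]⟩,⟨0,[(28,0)]⟩),(⟨0,[(40,0)]⟩,⟨0,[(39,0)]⟩),⟨0,[(2,0)]⟩,.k,.k,
  (.x (-1) ⟨15,[(7,3),(0,3),(16,6),(0,6),(11,1)]⟩ ⟨0,[(40,0)]⟩),(.x (-1) ⟨15,[(7,3),(0,3),(16,6),(0,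
  6),(11,1)]⟩ ⟨0,[(40,0)]⟩),.k,.k,⟨false,1,⟨7,[(0,1),(0,3),(3,1),(7,1),(1,1),(8,1),(0,0),(1,1),(16,
  2)]⟩,⟨0,[(3,0),(24,0),(14,0),(3,0)]⟩⟩,⟨true,0,⟨0,[(27,0)]⟩,⟨5,[(2,3),(4,0),(0,0),(19,1),(1,2),(2,
  2)]⟩⟩,⟨true,0,⟨0,[]⟩,⟨0,[(47,0)]⟩⟩,⟨false,0,⟨0,[(3,0),(23,0),(0,0),(14,0)]⟩,⟨29,[(2,15),(1,5),(0,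
  9),(1,3),(0,3),(6,5),(0,5),(7,1),(0,14),(2,3),(9,4)]⟩⟩,⟨false,0,⟨0,[]⟩,⟨0,[]⟩⟩,⟨false,0,⟨0,[]⟩,⟨0,
  []⟩⟩,[.o ⟨false,0,⟨0,[(43,0)]⟩,⟨23,[(4,3),(10,7),(9,4),(0,4),(11,9),(6,3)]⟩⟩,.e ⟨true,0,⟨0,[(0,
  0)]⟩,⟨0,[(3,0),(24,0),(18,1)]⟩⟩ ⟨true,0,⟨3,[(27,3),(5,0),(0,0),(6,1),(1,3)]⟩,⟨5,[(2,3),(4,0),(0,
  0),(8,2),(2,2),(7,1)]⟩⟩,.o ⟨false,1,⟨23,[(5,7),(18,3),(0,2),(0,2),(1,15),(9,9)]⟩,⟨3,[(1,1),(1,1),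
  (23,1),(1,0),(0,0),(0,0),(1,0)]⟩⟩,.a ⟨true,0,⟨0,[(28,0)]⟩,⟨0,[(27,0)]⟩⟩ ⟨false,1,⟨3,[(0,1),(24,0),
  (18,1),(0,0)]⟩,⟨0,[(3,0),(24,0),(18,0)]⟩⟩ ⟨true,0,⟨0,[(27,0),(15,0)]⟩,⟨5,[(2,3),(4,0),(0,0),(8,2),
  (2,2),(7,1)]⟩⟩]⟩) (.R ⟨1,false,false,false,[0,0,0,1],[0,0,1],[0,1,0,0,0,0,0,0,1],(⟨0,[(28,0)]⟩,⟨0,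
  [(27,0)]⟩),(⟨0,[(37,0)]⟩,⟨0,[(36,0)]⟩),⟨2,[(2,0),(4,0),(0,0),(19,1)]⟩,.k,.k,(.r (-1) ⟨11,[(13,3),
  (1,0),(0,1),(7,0),(1,5),(5,0),(11,1)]⟩ ⟨1,[(1,1),(31,0),(0,0),(8,1)]⟩),.k,(.r (-1) ⟨3,[(15,0),(0,
  1),(7,0),(1,1),(5,0),(11,1)]⟩ ⟨1,[(1,1),(8,0),(19,0),(3,0),(8,1)]⟩),.k,⟨true,0,⟨0,[(0,0),(34,0)]⟩,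
  ⟨0,[(1,0),(9,0)]⟩⟩,⟨false,1,⟨23,[(5,15),(18,19),(0,2),(0,2),(1,7),(9,1)]⟩,⟨0,[(27,0),(2,0)]⟩⟩,
  ⟨true,0,⟨0,[(47,0)]⟩,⟨0,[]⟩⟩,⟨false,1,⟨11,[(2,3),(2,5),(1,0),(0,0),(1,5),(13,2),(0,5),(2,1),(12,
  5)]⟩,⟨0,[(3,0),(28,0)]⟩⟩,⟨false,0,⟨0,[(43,0)]⟩,⟨23,[(4,3),(10,3),(0,3),(6,3),(1,4),(0,4),(18,
  13)]⟩⟩,⟨false,1,⟨11,[(2,3),(2,5),(1,0),(0,0),(1,5),(13,2),(0,5),(2,1),(12,5),(1,11)]⟩,⟨7,[(3,7),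
  (0,0),(10,0),(0,1),(6,1),(8,6)]⟩⟩,[.a ⟨true,0,⟨1,[(10,0),(16,0),(0,0)]⟩,⟨0,[(16,0),(6,0),(19,
  1)]⟩⟩ ⟨true,0,⟨0,[(0,0)]⟩,⟨3,[(1,3),(31,0),(0,0),(6,1)]⟩⟩ ⟨false,1,⟨23,[(5,15),(4,11),(13,7),(0,
  2),(0,2),(1,7),(9,1)]⟩,⟨0,[(27,0),(2,0),(4,0)]⟩⟩,.o ⟨false,1,⟨7,[(10,3),(14,0),(0,0),(11,1),(6,
  3)]⟩,⟨0,[(29,0)]⟩⟩,.o ⟨false,0,⟨3,[(1,1),(1,1),(23,1),(1,0),(0,0),(0,0),(1,0)]⟩,⟨23,[(5,7),(18,3),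
  (0,2),(0,2),(1,15),(9,9)]⟩⟩,.o ⟨false,0,⟨0,[(27,0),(2,0),(2,0)]⟩,⟨2,[(5,1),(18,0),(3,0),(9,
  0)]⟩⟩]⟩))))))

theorem ok65 : chk (cU (-1) true 10) t65 r41 = true := by decide +kernel

noncomputable def t72 : Tre :=
  (.Q [0,0,0,1,0,0,1,1,0,1,-1] (.p false [0,0,1] [1] (⟨0,[(26,0)]⟩,⟨0,[(25,0)]⟩) .k 1 (⟨0,[]⟩,⟨0,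
  []⟩) .k .k) (.R ⟨2,false,false,false,[0,1],[0,1,1],[0,1,1,1],(⟨0,[]⟩,⟨0,[]⟩),(⟨0,[(27,0),(2,0)]⟩,
  ⟨0,[(9,0)]⟩),⟨0,[]⟩,.k,.k,.k,.k,.k,.k,⟨false,0,⟨0,[(1,0)]⟩,⟨7,[(8,3),(6,0),(0,0),(18,1)]⟩⟩,⟨true,
  0,⟨0,[(12,0)]⟩,⟨0,[(24,0)]⟩⟩,⟨true,0,⟨0,[(37,0)]⟩,⟨0,[]⟩⟩,⟨false,1,⟨3,[(8,1),(5,1),(13,0),(6,0)]⟩,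
  ⟨1,[(1,0),(2,0),(1,0),(10,0),(0,0),(14,0)]⟩⟩,⟨false,0,⟨0,[(33,0)]⟩,⟨0,[(32,0),(2,0)]⟩⟩,⟨false,1,
  ⟨1,[(0,1),(27,0),(6,0)]⟩,⟨2,[(1,0),(2,0),(1,1),(6,0),(3,0),(0,0)]⟩⟩,[.a ⟨true,0,⟨0,[(0,0)]⟩,⟨2,
  [(1,0),(2,0),(1,1),(6,0),(3,0),(0,0)]⟩⟩ ⟨false,0,⟨0,[(33,0),(3,0)]⟩,⟨11,[(3,3),(2,3),(8,0),(0,0),
  (17,1),(0,3)]⟩⟩ ⟨true,0,⟨2,[(0,0),(19,0),(0,1),(1,0),(7,0),(1,1)]⟩,⟨2,[(1,0),(2,0),(1,1),(6,0),(3,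
  0),(0,0)]⟩⟩,.o ⟨false,1,⟨1,[(0,1),(27,0),(6,0)]⟩,⟨0,[(10,0)]⟩⟩,.o ⟨false,1,⟨3,[(15,0),(0,0),(17,
  1)]⟩,⟨0,[(12,0),(7,0)]⟩⟩,.e ⟨false,0,⟨0,[(33,0)]⟩,⟨0,[(32,0),(2,0)]⟩⟩ ⟨false,1,⟨1,[(0,1),(27,0),
  (6,0)]⟩,⟨2,[(1,0),(2,0),(1,1),(6,0),(3,0),(0,0)]⟩⟩]⟩) (.Q [0,0,-1,-1,0,0,1,1,-1,0,-1,1] (.p false
  [0,0,1] [0,0,0,1] (⟨0,[(27,0)]⟩,⟨0,[(26,0)]⟩) .k 2 (⟨0,[(18,0)]⟩,⟨0,[(17,0)]⟩) .k (.x (-1) ⟨7,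
  [(14,3),(0,0),(0,0),(10,7),(0,1),(5,3)]⟩ ⟨0,[(20,0),(5,0)]⟩)) (.Q [0,0,0,0,0,-1,0,0,0,1,0,-1] (.p
  false [0,0,0,1] [1] (⟨0,[(19,0)]⟩,⟨0,[(18,0)]⟩) .k 1 (⟨0,[]⟩,⟨0,[]⟩) .k .k) (.I [0,-1,-1,0,0,0,0,
  0,-1] (.I [0,1,-2,-1,0,0,0,0,-1] (.R ⟨1,false,false,false,[1,0,0,-1],[0,1],[0,1,0,0,0,0,0,0,-1],
  (⟨0,[(21,0)]⟩,⟨0,[(22,0)]⟩),(⟨0,[(34,0)]⟩,⟨0,[(33,0)]⟩),⟨0,[(2,0)]⟩,.k,.k,(.x (-1) ⟨7,[(13,3),(1,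
  3),(3,2),(0,2),(11,1)]⟩ ⟨0,[(34,0)]⟩),(.x (-1) ⟨7,[(13,3),(1,3),(3,2),(0,2),(11,1)]⟩ ⟨0,[(34,
  0)]⟩),(.x 0 ⟨0,[(13,0),(1,0),(0,0),(7,0)]⟩ ⟨3,[(19,0),(0,0),(13,7),(3,1)]⟩),.k,⟨false,0,⟨0,[(0,
  0)]⟩,⟨1,[(20,0),(6,0),(0,0),(8,1),(1,0)]⟩⟩,⟨true,0,⟨0,[(21,0)]⟩,⟨0,[(16,0),(5,0),(1,0)]⟩⟩,⟨true,0,
  ⟨0,[(41,0)]⟩,⟨0,[]⟩⟩,⟨false,1,⟨1,[(20,0),(0,1),(5,0),(0,0),(8,1),(1,0)]⟩,⟨0,[(3,0),(0,0),(32,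
  0)]⟩⟩,⟨false,0,⟨0,[(37,0)]⟩,⟨0,[(36,0),(2,0)]⟩⟩,⟨false,1,⟨1,[(20,0),(0,1),(5,0),(0,0),(8,3),(1,
  0)]⟩,⟨0,[(3,0),(0,0)]⟩⟩,[.o ⟨false,0,⟨0,[(37,0)]⟩,⟨5,[(9,1),(1,1),(7,0),(0,0),(11,1),(6,1)]⟩⟩,.o
  ⟨false,1,⟨3,[(19,0),(0,0),(16,3),(1,1)]⟩,⟨0,[(4,0),(20,0)]⟩⟩,.o ⟨false,1,⟨1,[(22,1),(9,0),(5,0)]⟩,
  ⟨0,[(16,0),(4,0),(2,0)]⟩⟩,.a ⟨true,0,⟨0,[(22,0)]⟩,⟨0,[(21,0)]⟩⟩ ⟨false,0,⟨0,[(1,0),(39,0)]⟩,⟨1,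
  [(20,0),(6,0),(0,0),(10,0)]⟩⟩ ⟨true,0,⟨0,[(21,0),(15,0)]⟩,⟨0,[(4,0),(17,0),(2,0)]⟩⟩]⟩) (.R ⟨1,
  false,false,false,[1,0,0,-1],[1,0,-1],[0,1,0,0,0,0,0,0,-1],(⟨0,[(21,0)]⟩,⟨0,[(22,0)]⟩),(⟨0,[(30,
  0)]⟩,⟨0,[(31,0)]⟩),⟨0,[(2,0)]⟩,.k,.k,(.x (-1) ⟨7,[(13,3),(1,3),(3,2),(0,2),(11,1)]⟩ ⟨0,[(34,0)]⟩),
  .k,(.r (-1) ⟨4,[(1,0),(5,1),(4,0),(4,0),(1,1),(5,0)]⟩ ⟨0,[(0,0),(4,0)]⟩),.k,⟨false,0,⟨0,[(1,0),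
  (15,0),(7,0),(11,0)]⟩,⟨1,[(20,0),(8,1),(9,0)]⟩⟩,⟨true,0,⟨0,[(21,0),(2,0)]⟩,⟨0,[(16,0),(5,0)]⟩⟩,
  ⟨true,0,⟨0,[(41,0)]⟩,⟨0,[]⟩⟩,⟨false,1,⟨3,[(0,1),(3,1),(15,0),(0,3),(4,1),(5,0),(6,1)]⟩,⟨0,[(3,0),
  (33,0)]⟩⟩,⟨false,0,⟨0,[(37,0)]⟩,⟨0,[(36,0),(2,0)]⟩⟩,⟨false,1,⟨3,[(0,3),(5,1),(14,3),(4,1),(2,1),
  (2,0),(6,0)]⟩,⟨0,[(3,0)]⟩⟩,[.o ⟨false,0,⟨0,[(4,0),(32,0)]⟩,⟨11,[(12,3),(5,3),(0,2),(0,2),(4,3),(6,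
  1)]⟩⟩,.o ⟨false,1,⟨0,[(23,0),(15,0)]⟩,⟨0,[(25,0)]⟩⟩,.o ⟨false,1,⟨1,[(22,1),(9,0),(5,0)]⟩,⟨0,[(16,
  0),(4,0),(2,0)]⟩⟩,.a ⟨true,0,⟨0,[(22,0)]⟩,⟨0,[(21,0)]⟩⟩ ⟨false,0,⟨0,[(1,0),(39,0)]⟩,⟨7,[(0,3),(18,
  0),(0,2),(15,3),(2,3)]⟩⟩ ⟨true,0,⟨0,[(4,0),(16,0),(15,0)]⟩,⟨0,[(22,0),(2,0)]⟩⟩]⟩)) (.R ⟨1,false,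
  false,true,[1,0,0,-1],[0,1],[0,0,0,0,0,0,0,0,-1],(⟨0,[(20,0)]⟩,⟨0,[(21,0)]⟩),(⟨0,[(33,0)]⟩,⟨0,
  [(32,0)]⟩),⟨0,[(1,0)]⟩,.k,.k,(.x (-1) ⟨7,[(12,3),(1,3),(3,2),(0,2),(11,1)]⟩ ⟨0,[(33,0)]⟩),(.x
  (-1) ⟨7,[(12,3),(1,3),(3,2),(0,2),(11,1)]⟩ ⟨0,[(33,0)]⟩),(.r (-1) ⟨40,[(2,14),(1,10),(0,8),(0,18),
  (1,5),(0,16),(8,12),(1,14)]⟩ ⟨3,[(0,3),(25,0),(0,0),(6,1),(1,7)]⟩),.k,⟨false,1,⟨4,[(2,2),(2,2),(3,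
  2),(8,0),(1,2),(13,0),(1,0),(0,0)]⟩,⟨0,[(0,0),(35,0)]⟩⟩,⟨true,0,⟨0,[(20,0)]⟩,⟨0,[(15,0),(5,0),(1,
  0)]⟩⟩,⟨false,1,⟨3,[(18,0),(0,0),(18,1)]⟩,⟨0,[]⟩⟩,⟨true,0,⟨0,[(0,0),(19,0),(15,0)]⟩,⟨0,[(2,0),(0,
  0),(32,0)]⟩⟩,⟨true,0,⟨0,[(36,0)]⟩,⟨0,[(35,0)]⟩⟩,⟨true,0,⟨0,[(0,0),(19,0),(15,1)]⟩,⟨0,[(2,0),(0,
  0)]⟩⟩,[.o ⟨false,0,⟨0,[(36,0),(3,0)]⟩,⟨23,[(6,1),(1,5),(0,1),(0,5),(20,8),(2,3),(3,12)]⟩⟩,.o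
  ⟨false,0,⟨0,[(36,0)]⟩,⟨5,[(8,1),(1,1),(7,0),(0,0),(11,1),(6,1)]⟩⟩,.o ⟨false,1,⟨1,[(21,1),(9,0),(5,
  0)]⟩,⟨0,[(15,0),(4,0),(2,0)]⟩⟩,.a ⟨true,0,⟨0,[(21,0)]⟩,⟨0,[(20,0)]⟩⟩ ⟨true,0,⟨0,[(2,0),(0,0),(16,
  0),(15,1)]⟩,⟨0,[(0,0)]⟩⟩ ⟨false,0,⟨0,[(20,0),(15,0)]⟩,⟨37,[(2,9),(5,13),(2,1),(7,4),(1,27),(4,3),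
  (4,11),(2,5),(3,18)]⟩⟩]⟩)) (.I [0,1,-1,0,0,0,0,1,-1] (.R ⟨0,false,false,false,[1,0,0,-1],[1,0,-1],
  [0,1,0,0,0,0,0,0,-1],(⟨0,[(20,0)]⟩,⟨0,[(21,0)]⟩),(⟨0,[(29,0)]⟩,⟨0,[(30,0)]⟩),⟨0,[(1,0)]⟩,.k,.k,
  (.x (-1) ⟨7,[(12,3),(1,3),(3,2),(0,2),(11,1)]⟩ ⟨0,[(33,0)]⟩),.k,.k,.k,⟨false,0,⟨0,[(0,0)]⟩,⟨1,
  [(19,0),(8,1),(9,0)]⟩⟩,⟨true,0,⟨0,[(20,0),(2,0)]⟩,⟨0,[(15,0),(5,0)]⟩⟩,⟨true,0,⟨0,[(40,0)]⟩,⟨0,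
  []⟩⟩,⟨false,1,⟨1,[(19,0),(0,1),(2,1),(4,1),(9,0)]⟩,⟨0,[(2,0),(33,0)]⟩⟩,⟨false,0,⟨0,[]⟩,⟨0,[]⟩⟩,
  ⟨false,0,⟨0,[]⟩,⟨0,[]⟩⟩,[.o ⟨false,0,⟨0,[(3,0),(32,0)]⟩,⟨11,[(11,3),(5,3),(0,2),(0,2),(4,3),(6,
  1)]⟩⟩,.o ⟨false,1,⟨0,[(22,0),(15,0)]⟩,⟨0,[(24,0)]⟩⟩,.o ⟨false,1,⟨1,[(21,1),(9,0),(5,0)]⟩,⟨0,[(15,
  0),(4,0),(2,0)]⟩⟩,.a ⟨true,0,⟨0,[(21,0)]⟩,⟨0,[(20,0)]⟩⟩ ⟨false,0,⟨0,[(0,0),(8,0),(26,0)]⟩,⟨1,[(19,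
  0),(6,0),(0,0),(10,0)]⟩⟩ ⟨true,0,⟨0,[(3,0),(16,0),(15,0)]⟩,⟨0,[(21,0),(2,0)]⟩⟩]⟩) (.R ⟨0,false,
  false,true,[1,0,0,-1],[0,1],[1,0,1],(⟨0,[(20,0)]⟩,⟨0,[(21,0)]⟩),(⟨0,[(33,0)]⟩,⟨0,[(32,0)]⟩),⟨0,
  [(1,0)]⟩,.k,.k,(.x (-1) ⟨7,[(12,3),(1,3),(3,2),(0,2),(11,1)]⟩ ⟨0,[(33,0)]⟩),(.x (-1) ⟨7,[(12,3),
  (1,3),(3,2),(0,2),(11,1)]⟩ ⟨0,[(33,0)]⟩),.k,.k,⟨false,1,⟨11,[(6,3),(2,3),(8,0),(0,0),(17,1),(0,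
  3)]⟩,⟨0,[(36,0),(3,0)]⟩⟩,⟨true,0,⟨0,[(20,0)]⟩,⟨0,[(15,0),(5,0),(1,0)]⟩⟩,⟨false,1,⟨11,[(0,7),(10,
  3),(6,2),(0,4),(6,1),(0,1)]⟩,⟨0,[(2,0),(0,0),(16,0),(15,1)]⟩⟩,⟨true,0,⟨0,[(0,0),(15,0),(3,0),(3,
  0),(11,1)]⟩,⟨0,[(2,0),(0,0),(32,0)]⟩⟩,⟨false,0,⟨0,[]⟩,⟨0,[]⟩⟩,⟨false,0,⟨0,[]⟩,⟨0,[]⟩⟩,[.o ⟨false,
  0,⟨0,[(36,0),(3,0)]⟩,⟨23,[(6,1),(1,5),(0,1),(0,5),(20,8),(2,3),(3,12)]⟩⟩,.o ⟨false,0,⟨0,[(36,0)]⟩,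
  ⟨5,[(8,1),(1,1),(7,0),(0,0),(11,1),(6,1)]⟩⟩,.o ⟨false,1,⟨1,[(21,1),(9,0),(5,0)]⟩,⟨0,[(15,0),(4,0),
  (2,0)]⟩⟩,.a ⟨true,0,⟨0,[(21,0)]⟩,⟨0,[(20,0)]⟩⟩ ⟨true,0,⟨0,[]⟩,⟨0,[(40,0)]⟩⟩ ⟨false,0,⟨0,[(20,0),
  (15,0)]⟩,⟨27,[(0,5),(1,7),(5,9),(2,3),(7,0),(1,19),(4,1),(4,8),(6,13)]⟩⟩]⟩))) (.Q [0,1,-1,0,0,0,0,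
  0,-1,0,0,1] (.p true [0,0,0,1] [] (⟨0,[(19,0)]⟩,⟨0,[(18,0)]⟩) .k 0 (⟨0,[]⟩,⟨0,[]⟩) .k .k) (.K ⟨0,
  [0,0,0,1],0,0,(⟨0,[(20,0)]⟩,⟨0,[(19,0)]⟩),.k,(.r (-1) ⟨19,[(3,3),(1,7),(2,3),(8,0),(0,10)]⟩ ⟨1,
  [(0,1),(13,0),(4,1),(2,1),(2,0),(7,0),(1,1)]⟩),(.x 0 ⟨0,[(32,0)]⟩ ⟨7,[(11,3),(1,3),(3,2),(0,2),
  (11,1)]⟩),.k,.k,[⟨0,[(20,0)]⟩,⟨0,[(19,0)]⟩,⟨0,[(0,0)]⟩,⟨0,[(1,0),(7,0)]⟩]⟩) (.Q [0,0,0,0,0,-1,0,0,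
  0,1,0,-1] (.p false [0,0,0,1] [1] (⟨0,[(20,0)]⟩,⟨0,[(19,0)]⟩) .k 1 (⟨0,[]⟩,⟨0,[]⟩) .k .k) (.I [0,
  1,-2,-1,1,0,0,0,-1] (.R ⟨1,false,false,false,[1,0,0,-1],[0,1],[0,1,0,0,0,0,0,0,-1],(⟨0,[(21,0)]⟩,
  ⟨0,[(22,0)]⟩),(⟨0,[(34,0)]⟩,⟨0,[(33,0)]⟩),⟨0,[(1,0)]⟩,.k,.k,(.x (-1) ⟨7,[(13,3),(1,3),(3,2),(0,2),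
  (11,1)]⟩ ⟨0,[(34,0)]⟩),(.x (-1) ⟨7,[(13,3),(1,3),(3,2),(0,2),(11,1)]⟩ ⟨0,[(34,0)]⟩),(.x 0 ⟨0,[(13,
  0),(1,0),(0,0),(7,0)]⟩ ⟨3,[(19,0),(0,0),(13,7),(3,1)]⟩),.k,⟨false,1,⟨0,[(0,0)]⟩,⟨0,[(2,0),(19,0),
  (14,0)]⟩⟩,⟨true,0,⟨0,[(21,0)]⟩,⟨0,[(16,0),(5,0),(1,0)]⟩⟩,⟨true,0,⟨0,[(41,0)]⟩,⟨0,[]⟩⟩,⟨false,0,⟨0,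
  [(2,0),(18,0),(0,0),(14,0)]⟩,⟨0,[(0,0),(3,0),(17,0),(2,0),(9,0),(1,0)]⟩⟩,⟨false,0,⟨0,[(37,0)]⟩,⟨0,
  [(36,0),(2,0)]⟩⟩,⟨false,0,⟨0,[(2,0),(18,0),(0,0),(14,1)]⟩,⟨0,[(0,0),(3,0),(17,0),(2,0),(9,0)]⟩⟩,
  [.o ⟨false,0,⟨0,[(37,0)]⟩,⟨5,[(9,1),(1,1),(7,0),(0,0),(11,1),(6,1)]⟩⟩,.o ⟨false,1,⟨3,[(19,0),(0,
  0),(16,3),(1,1)]⟩,⟨0,[(4,0),(20,0)]⟩⟩,.o ⟨false,1,⟨1,[(22,1),(9,0),(5,0)]⟩,⟨0,[(16,0),(4,0),(2,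
  0)]⟩⟩,.a ⟨true,0,⟨0,[(22,0)]⟩,⟨0,[(21,0)]⟩⟩ ⟨false,1,⟨1,[(19,0),(18,0)]⟩,⟨0,[(2,0),(19,0)]⟩⟩
  ⟨true,0,⟨0,[(21,0),(15,0)]⟩,⟨0,[(4,0),(17,0),(2,0)]⟩⟩]⟩) (.Q [0,-1,-1,0,1,0,-1,-1,-1,-1,1,1] (.p
  true [0,0,1] [1,0,0,-1] (⟨0,[(31,0)]⟩,⟨0,[(30,0)]⟩) .k 2 (⟨0,[(21,0)]⟩,⟨0,[(22,0)]⟩) .k (.r 0 ⟨1,
  [(0,1),(6,0),(9,0),(7,0),(11,0),(0,0)]⟩ ⟨3,[(19,2),(0,0),(8,3)]⟩)) (.R ⟨1,false,false,true,[1,0,0,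
  -1],[0,-1,1],[0,1,0,0,0,0,0,0,-1],(⟨0,[(22,0)]⟩,⟨0,[(23,0)]⟩),(⟨0,[(16,0)]⟩,⟨0,[(31,0),(3,0)]⟩),
  ⟨0,[(2,0)]⟩,.k,.k,(.x (-1) ⟨7,[(14,3),(1,3),(3,2),(0,2),(11,1)]⟩ ⟨0,[(35,0)]⟩),(.r 0 ⟨0,[(1,0),(4,
  0),(13,0)]⟩ ⟨21,[(1,3),(6,14),(4,1),(4,2),(2,8),(4,2),(11,6)]⟩),.k,.k,⟨true,0,⟨0,[(1,0),(4,0),(13,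
  0)]⟩,⟨15,[(1,13),(4,1),(1,11),(9,5),(2,0),(4,5),(12,0)]⟩⟩,⟨false,0,⟨0,[(22,0),(5,0)]⟩,⟨0,[(7,0),
  (15,0)]⟩⟩,⟨true,0,⟨0,[(42,0)]⟩,⟨0,[]⟩⟩,⟨false,0,⟨33,[(1,11),(6,0),(2,3),(0,36),(5,2),(2,10),(0,
  33),(13,11)]⟩,⟨0,[(0,0),(37,0)]⟩⟩,⟨false,0,⟨0,[(38,0)]⟩,⟨0,[(37,0),(2,0)]⟩⟩,⟨false,0,⟨24,[(1,9),
  (1,2),(8,9),(0,3),(5,2),(1,5),(0,21),(3,6),(1,1)]⟩,⟨0,[(0,0)]⟩⟩,[.o ⟨false,0,⟨0,[(12,0)]⟩,⟨3,[(0,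
  1),(3,1),(28,0),(4,1),(1,0)]⟩⟩,.o ⟨false,1,⟨3,[(12,3),(7,0),(0,0),(18,1)]⟩,⟨0,[(5,0),(32,1)]⟩⟩,.o
  ⟨false,1,⟨1,[(23,1),(9,0),(5,0)]⟩,⟨0,[(17,0),(4,0),(2,0)]⟩⟩,.a ⟨true,0,⟨0,[(23,0)]⟩,⟨0,[(22,0)]⟩⟩
  ⟨false,1,⟨1,[(20,0),(18,0)]⟩,⟨33,[(1,11),(6,0),(2,3),(0,2),(5,2),(2,10),(14,11)]⟩⟩ ⟨true,0,⟨0,
  [(12,0),(9,0)]⟩,⟨0,[(5,0),(17,0),(14,1)]⟩⟩]⟩) (.K ⟨0,[0,0,0,1],0,(-1),(⟨0,[(23,0)]⟩,⟨0,[(22,0)]⟩),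
  .k,(.r 0 ⟨0,[(1,0),(4,0),(1,0)]⟩ ⟨7,[(1,3),(18,8),(0,2),(16,3),(3,3)]⟩),(.x 0 ⟨0,[(35,0)]⟩ ⟨7,
  [(14,3),(1,3),(3,2),(0,2),(11,1)]⟩),.k,.k,[⟨0,[(23,0)]⟩,⟨0,[(22,0)]⟩,⟨1,[(20,0),(2,1),(15,0),(2,
  1)]⟩,⟨0,[(0,0),(4,0),(32,0)]⟩]⟩))) (.I [0,1,-2,-1,1,0,0,0,-1] (.R ⟨0,false,false,false,[1,0,0,-1],
  [0,1],[0,1,0,0,0,0,0,0,-1],(⟨0,[(21,0)]⟩,⟨0,[(22,0)]⟩),(⟨0,[(34,0)]⟩,⟨0,[(33,0)]⟩),⟨0,[(1,0)]⟩,.k,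
  .k,(.x (-1) ⟨7,[(13,3),(1,3),(3,2),(0,2),(11,1)]⟩ ⟨0,[(34,0)]⟩),(.x (-1) ⟨7,[(13,3),(1,3),(3,2),
  (0,2),(11,1)]⟩ ⟨0,[(34,0)]⟩),.k,.k,⟨false,1,⟨0,[(0,0)]⟩,⟨0,[(2,0),(19,0),(14,0)]⟩⟩,⟨true,0,⟨0,
  [(21,0)]⟩,⟨0,[(16,0),(5,0),(1,0)]⟩⟩,⟨true,0,⟨0,[(41,0)]⟩,⟨0,[]⟩⟩,⟨false,0,⟨0,[(2,0),(18,0),(0,0),
  (14,0)]⟩,⟨5,[(1,5),(2,1),(1,0),(0,1),(5,2),(1,2),(0,2),(2,2)]⟩⟩,⟨false,0,⟨0,[]⟩,⟨0,[]⟩⟩,⟨false,0,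
  ⟨0,[]⟩,⟨0,[]⟩⟩,[.o ⟨false,0,⟨0,[(37,0)]⟩,⟨5,[(9,1),(1,1),(7,0),(0,0),(11,1),(6,1)]⟩⟩,.o ⟨false,1,
  ⟨3,[(19,0),(0,0),(16,3),(1,1)]⟩,⟨0,[(4,0),(20,0)]⟩⟩,.o ⟨false,1,⟨1,[(22,1),(9,0),(5,0)]⟩,⟨0,[(16,
  0),(4,0),(2,0)]⟩⟩,.a ⟨true,0,⟨0,[(22,0)]⟩,⟨0,[(21,0)]⟩⟩ ⟨false,1,⟨1,[(19,0),(18,0)]⟩,⟨0,[(2,0),
  (19,0)]⟩⟩ ⟨true,0,⟨0,[(21,0),(15,0)]⟩,⟨1,[(1,1),(9,0),(1,0),(0,0),(0,0)]⟩⟩]⟩) (.Q [0,-1,-1,1,1,0,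
  -1,-1,-1,-1,1,1] (.p true [0,0,1] [1,0,0,-1] (⟨0,[(31,0)]⟩,⟨0,[(30,0)]⟩) .k 2 (⟨0,[(21,0)]⟩,⟨0,
  [(22,0)]⟩) .k (.r 0 ⟨1,[(0,1),(6,0),(9,0),(7,0),(11,0),(0,0)]⟩ ⟨3,[(19,2),(0,0),(8,3)]⟩)) (.R ⟨0,
  false,false,true,[1,0,0,-1],[0,-1,1],[0,1,0,0,0,0,0,0,-1],(⟨0,[(22,0)]⟩,⟨0,[(23,0)]⟩),(⟨0,[(16,
  0)]⟩,⟨0,[(31,0),(3,0)]⟩),⟨0,[(2,0)]⟩,.k,.k,(.x (-1) ⟨7,[(14,3),(1,3),(3,2),(0,2),(11,1)]⟩ ⟨0,[(35,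
  0)]⟩),(.r 0 ⟨0,[(1,0),(4,0),(13,0)]⟩ ⟨21,[(1,3),(6,14),(4,1),(4,2),(2,8),(4,2),(11,6)]⟩),.k,.k,
  ⟨true,0,⟨0,[(1,0),(4,0),(13,0)]⟩,⟨15,[(1,13),(4,1),(1,11),(9,5),(2,0),(4,5),(12,0)]⟩⟩,⟨false,0,⟨0,
  [(22,0),(5,0)]⟩,⟨0,[(7,0),(15,0)]⟩⟩,⟨true,0,⟨0,[(42,0)]⟩,⟨0,[]⟩⟩,⟨false,0,⟨33,[(1,11),(6,0),(2,3),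
  (0,36),(5,2),(2,10),(0,33),(13,11)]⟩,⟨0,[(0,0)]⟩⟩,⟨false,0,⟨0,[]⟩,⟨0,[]⟩⟩,⟨false,0,⟨0,[]⟩,⟨0,[]⟩⟩,
  [.o ⟨false,0,⟨0,[(12,0)]⟩,⟨3,[(0,1),(3,1),(28,0),(6,0)]⟩⟩,.o ⟨false,1,⟨3,[(12,3),(7,0),(0,0),(18,
  1)]⟩,⟨0,[(5,0),(32,1)]⟩⟩,.o ⟨false,1,⟨1,[(23,1),(9,0),(5,0)]⟩,⟨0,[(17,0),(4,0),(2,0)]⟩⟩,.a ⟨true,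
  0,⟨0,[(23,0)]⟩,⟨0,[(22,0)]⟩⟩ ⟨false,1,⟨1,[(20,0),(18,0)]⟩,⟨33,[(1,11),(6,0),(2,3),(0,2),(5,2),(2,
  10),(14,11)]⟩⟩ ⟨true,0,⟨0,[(12,0),(9,0)]⟩,⟨2,[(0,0),(0,0),(0,1),(3,1),(2,0),(4,0),(1,0),(21,
  0)]⟩⟩]⟩) (.K ⟨0,[0,0,0,1],0,(-1),(⟨0,[(23,0)]⟩,⟨0,[(22,0)]⟩),.k,(.r 0 ⟨0,[(1,0),(4,0),(1,0)]⟩ ⟨7,
  [(1,3),(18,8),(0,2),(16,3),(3,3)]⟩),(.x 0 ⟨0,[(35,0)]⟩ ⟨7,[(14,3),(1,3),(3,2),(0,2),(11,1)]⟩),.k,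
  .k,[⟨0,[(23,0)]⟩,⟨0,[(22,0)]⟩,⟨1,[(20,0),(2,1),(15,0),(2,1)]⟩,⟨0,[(0,0),(4,0),(32,1)]⟩]⟩)))))))

theorem ok72 : chk (cU (-1) true 10) t72 r30 = true := by decide +kernel

noncomputable def t77 : Tre :=
  (.Q [0,-1,0,2,0,0,-1,-1,0,0,1] (.p true [0,0,1] [] (⟨0,[(27,0)]⟩,⟨0,[(26,0)]⟩) .k 0 (⟨0,[]⟩,⟨0,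
  []⟩) .k .k) (.R ⟨1,true,false,false,[0,0,1],[0,1],[1,0,0,-1,0,0,0,1],(⟨0,[(28,0)]⟩,⟨0,[(27,0)]⟩),
  (⟨0,[(31,0)]⟩,⟨0,[(30,0)]⟩),⟨0,[(12,0)]⟩,.k,.k,.k,.k,(.r (-2) ⟨9,[(2,8),(0,0),(4,5),(0,1),(4,4),
  (1,3),(0,3)]⟩ ⟨0,[(1,0)]⟩),.k,⟨true,1,⟨9,[(2,4),(4,0),(0,6),(0,1),(4,6),(21,2)]⟩,⟨0,[(1,0)]⟩⟩,
  ⟨false,1,⟨0,[(3,0)]⟩,⟨0,[(24,0)]⟩⟩,⟨false,1,⟨0,[(33,0),(2,0)]⟩,⟨0,[(34,0)]⟩⟩,⟨true,0,⟨1,[(0,0),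
  (22,0)]⟩,⟨0,[(8,0)]⟩⟩,⟨true,0,⟨0,[]⟩,⟨0,[(38,0)]⟩⟩,⟨false,0,⟨0,[(0,0)]⟩,⟨0,[(8,0),(24,0),(2,0)]⟩⟩,
  []⟩) (.Q [0,0,2,0,-1,0,1,0,0,1,-1] (.p false [0,0,1] [1] (⟨0,[(28,0)]⟩,⟨0,[(27,0)]⟩) .k 1 (⟨0,[]⟩,
  ⟨0,[]⟩) .k .k) (.K ⟨0,[1,1,-1],1,0,(⟨0,[(28,0),(3,0)]⟩,⟨0,[(13,0)]⟩),.k,.k,(.r 1 ⟨0,[(2,0)]⟩ ⟨4,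
  [(1,2),(1,2),(0,1),(5,0),(4,0),(1,1),(0,1)]⟩),.k,.k,[⟨0,[(0,0)]⟩,⟨0,[(4,0)]⟩,⟨0,[(9,0),(9,0),(0,
  0)]⟩,⟨0,[(21,0),(13,0)]⟩]⟩) (.Q [0,1,-1,0,0,0,0,0,-1,0,0,1] (.p true [0,0,0,1] [] (⟨0,[(20,0)]⟩,
  ⟨0,[(19,0)]⟩) .k 0 (⟨0,[]⟩,⟨0,[]⟩) .k .k) (.Q [0,1,1,0,0,0,0,0,1,0,0,-1] (.p false [0,0,0,1] []
  (⟨0,[(21,0)]⟩,⟨0,[(20,0)]⟩) .k 0 (⟨0,[]⟩,⟨0,[]⟩) .k .k) (.K ⟨0,[0,0,0,1],0,0,(⟨0,[(22,0)]⟩,⟨0,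
  [(21,0)]⟩),.k,(.r (-1) ⟨1,[(5,0),(14,0),(15,0)]⟩ ⟨41,[(1,11),(0,4),(1,20),(3,6),(3,0),(6,14),(1,
  11),(3,18),(9,14)]⟩),(.x 0 ⟨0,[(34,0)]⟩ ⟨7,[(13,3),(1,3),(3,2),(0,2),(11,1)]⟩),.k,.k,[⟨0,[(22,
  0)]⟩,⟨0,[(21,0)]⟩,⟨0,[(1,0)]⟩,⟨0,[(0,0)]⟩]⟩) (.Q [0,0,0,0,0,2,0,0,0,0,-1] (.p false [0,0,1] []
  (⟨0,[(31,0)]⟩,⟨0,[(30,0)]⟩) .k 0 (⟨0,[]⟩,⟨0,[]⟩) .k .k) (.Q [0,1,1,1,0,0,-1,-1,1,0,1,-1] (.p true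
  [0,0,1] [0,0,0,1] (⟨0,[(32,0)]⟩,⟨0,[(31,0)]⟩) .k 2 (⟨0,[(23,0)]⟩,⟨0,[(22,0)]⟩) .k (.r 0 ⟨0,[(1,0),
  (20,0),(2,0),(0,0)]⟩ ⟨3,[(20,0),(0,2),(8,3)]⟩)) (.R ⟨0,false,false,true,[0,-1,1],[0,0,0,1],[1],
  (⟨0,[(17,0)]⟩,⟨1,[(1,0),(21,0),(0,0),(7,0)]⟩),(⟨0,[(24,0)]⟩,⟨0,[(23,0)]⟩),⟨0,[(1,0)]⟩,.k,.k,(.r
  (-2) ⟨4,[(5,2),(1,2),(0,1),(5,0),(4,0),(1,1),(0,1)]⟩ ⟨0,[(6,0)]⟩),(.r (-1) ⟨10,[(2,2),(1,2),(0,4),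
  (2,0),(5,2),(4,0),(1,3),(1,2)]⟩ ⟨1,[(6,0),(15,0),(8,0)]⟩),.k,.k,⟨true,0,⟨0,[(2,0),(15,0),(4,0),(2,
  0)]⟩,⟨1,[(6,0),(6,0),(5,0),(2,0)]⟩⟩,⟨false,1,⟨4,[(8,2),(1,0),(12,4),(10,1)]⟩,⟨0,[(18,0),(5,0)]⟩⟩,
  ⟨false,0,⟨1,[(6,0),(24,0),(9,0)]⟩,⟨19,[(5,7),(1,2),(0,6),(5,5),(4,0),(1,1),(0,1)]⟩⟩,⟨true,0,⟨0,
  [(0,0)]⟩,⟨0,[(2,0),(10,0)]⟩⟩,⟨false,0,⟨0,[]⟩,⟨0,[]⟩⟩,⟨false,0,⟨0,[]⟩,⟨0,[]⟩⟩,[.a ⟨true,0,⟨1,[(6,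
  0),(6,0),(5,0),(2,0),(0,1)]⟩,⟨0,[(2,0)]⟩⟩ ⟨true,0,⟨0,[]⟩,⟨1,[(29,0),(0,0)]⟩⟩ ⟨false,1,⟨2,[(0,0),
  (3,1),(14,0),(2,0),(0,1),(3,0)]⟩,⟨0,[(2,0),(26,0)]⟩⟩,.o ⟨false,1,⟨23,[(0,15),(4,7),(8,3),(6,0),(0,
  4),(0,7),(5,7),(4,3),(6,9)]⟩,⟨0,[(2,0),(1,0),(0,0),(0,0)]⟩⟩,.o ⟨false,0,⟨0,[(29,0)]⟩,⟨4,[(8,2),(1,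
  0),(23,1)]⟩⟩,.o ⟨false,0,⟨1,[(29,2),(0,0)]⟩,⟨0,[(4,0)]⟩⟩]⟩) (.R ⟨0,false,false,true,[0,-1,1],[1,
  -1],[1],(⟨0,[(17,0)]⟩,⟨1,[(1,0),(21,0),(0,0),(7,0)]⟩),(⟨0,[(35,0)]⟩,⟨0,[(36,0)]⟩),⟨0,[(1,0)]⟩,.k,
  .k,(.r (-2) ⟨4,[(5,2),(1,2),(0,1),(5,0),(4,0),(1,1),(0,1)]⟩ ⟨0,[(6,0)]⟩),.k,.k,.k,⟨true,0,⟨4,[(6,
  1),(7,0),(22,0),(1,0),(1,0)]⟩,⟨0,[(38,0)]⟩⟩,⟨false,1,⟨4,[(8,2),(1,0),(23,1)]⟩,⟨1,[(20,0),(2,0),(0,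
  0)]⟩⟩,⟨false,0,⟨1,[(6,0),(24,0),(9,0)]⟩,⟨19,[(5,7),(1,2),(0,6),(5,5),(4,0),(1,1),(0,1)]⟩⟩,⟨true,0,
  ⟨0,[(25,0)]⟩,⟨1,[(0,1),(5,0),(12,0),(2,0),(0,1),(3,0),(11,0)]⟩⟩,⟨false,0,⟨0,[]⟩,⟨0,[]⟩⟩,⟨false,0,
  ⟨0,[]⟩,⟨0,[]⟩⟩,[.a ⟨true,0,⟨0,[(38,0)]⟩,⟨0,[(0,1),(3,0),(1,1),(12,0),(2,0),(0,1)]⟩⟩ ⟨true,0,⟨0,
  []⟩,⟨1,[(29,0),(0,0)]⟩⟩ ⟨false,1,⟨1,[(4,0),(3,0),(4,0),(2,0)]⟩,⟨15,[(2,1),(3,7),(7,3),(5,7),(1,0),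
  (0,7),(0,5),(12,1),(3,2)]⟩⟩,.o ⟨false,1,⟨15,[(5,3),(5,3),(9,2),(0,2),(11,5),(6,3)]⟩,⟨0,[(39,0)]⟩⟩,
  .o ⟨false,0,⟨0,[(29,0)]⟩,⟨4,[(8,2),(1,0),(23,1)]⟩⟩,.o ⟨false,0,⟨1,[(29,2),(0,0)]⟩,⟨0,[(4,
  0)]⟩⟩]⟩)) (.Q [0,-1,-1,1,0,0,-1,-1,-1,-1,1,1] (.p true [0,0,1] [1,0,0,-1] (⟨0,[(32,0)]⟩,⟨0,[(31,
  0)]⟩) .k 2 (⟨0,[(22,0)]⟩,⟨0,[(23,0)]⟩) .k (.r (-1) ⟨1,[(13,0),(7,0),(20,0)]⟩ ⟨3,[(1,1),(3,0),(9,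
  1),(1,1),(2,0),(1,1),(7,0)]⟩)) (.R ⟨1,false,false,false,[0,-1,1],[1,0,0,-1],[0,0,-1,-1,0,0,0,1],
  (⟨0,[(17,0)]⟩,⟨0,[(32,0),(3,0)]⟩),(⟨0,[(23,0)]⟩,⟨0,[(24,0)]⟩),⟨0,[(1,0)]⟩,.k,.k,(.r (-2) ⟨4,[(5,
  2),(1,2),(0,1),(5,0),(4,0),(1,1),(0,1)]⟩ ⟨0,[(6,0)]⟩),(.r (-2) ⟨19,[(5,7),(1,2),(0,6),(5,5),(4,0),
  (1,6),(0,16)]⟩ ⟨0,[(0,0),(4,0),(0,0),(16,0)]⟩),(.r (-2) ⟨19,[(5,11),(1,11),(0,7),(5,3),(4,3),(1,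
  2),(0,12)]⟩ ⟨4,[(0,1),(1,0),(2,0),(0,5),(6,1),(7,0),(1,2),(2,0)]⟩),.k,⟨false,2,⟨27,[(5,11),(1,3),
  (0,11),(5,7),(6,2),(0,16),(17,11)]⟩,⟨0,[(0,0),(4,0),(0,0),(16,0)]⟩⟩,⟨true,1,⟨0,[(4,0),(19,0)]⟩,⟨3,
  [(5,3),(0,3),(16,3),(5,0),(0,0),(6,1)]⟩⟩,⟨false,1,⟨3,[(21,0),(0,0),(18,1)]⟩,⟨0,[]⟩⟩,⟨false,0,⟨0,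
  [(0,0)]⟩,⟨15,[(5,7),(8,3),(6,0),(0,8),(0,15),(5,11),(0,3),(10,1)]⟩⟩,⟨true,0,⟨0,[(39,0)]⟩,⟨0,[(38,
  0)]⟩⟩,⟨false,0,⟨0,[(0,0),(38,0)]⟩,⟨1,[(5,1),(16,0),(0,1),(5,0),(0,0),(10,0)]⟩⟩,[.o ⟨false,0,⟨0,
  [(0,0),(12,0)]⟩,⟨7,[(21,0),(0,4),(0,7),(2,3),(2,3),(4,1)]⟩⟩,.a ⟨true,0,⟨0,[(2,0)]⟩,⟨1,[(6,0),(6,
  0),(5,0),(2,0),(0,1)]⟩⟩ ⟨true,1,⟨6,[(5,0),(1,3),(6,2),(4,0),(17,0)]⟩,⟨0,[(6,0),(31,0)]⟩⟩ ⟨false,1,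
  ⟨0,[(2,0),(1,0)]⟩,⟨3,[(6,1),(6,1),(8,1),(0,3),(5,2),(0,0),(7,1)]⟩⟩,.o ⟨false,0,⟨0,[(29,0)]⟩,⟨4,
  [(8,2),(1,0),(23,1)]⟩⟩,.o ⟨false,0,⟨1,[(29,2),(0,0)]⟩,⟨0,[(4,0)]⟩⟩]⟩) (.R ⟨1,true,false,false,[0,
  -1,1],[1,0,0,-1],[1,0,-1,-2,0,0,0,1],(⟨0,[(17,0)]⟩,⟨0,[(32,0),(3,0)]⟩),(⟨0,[(23,0)]⟩,⟨0,[(24,
  0)]⟩),⟨0,[(1,0)]⟩,.k,.k,(.r (-2) ⟨4,[(5,2),(1,2),(0,1),(5,0),(4,0),(1,1),(0,1)]⟩ ⟨0,[(6,0)]⟩),(.x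
  0 ⟨1,[(1,0),(27,2),(0,0),(2,0)]⟩ ⟨0,[(4,0),(27,0),(3,0)]⟩),(.r (-2) ⟨19,[(5,11),(1,11),(0,7),(5,
  3),(4,3),(1,2),(0,12)]⟩ ⟨7,[(2,5),(3,9),(6,1),(2,1),(4,0),(1,5),(2,1),(0,1),(6,0)]⟩),.k,⟨false,2,
  ⟨19,[(5,11),(1,11),(0,7),(5,3),(4,3),(1,2),(0,12)]⟩,⟨0,[(2,0),(1,0),(0,0),(0,1),(16,0)]⟩⟩,⟨true,1,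
  ⟨0,[(4,0),(19,0)]⟩,⟨36,[(0,5),(4,35),(0,39),(5,1),(8,2),(1,30),(6,4),(6,19)]⟩⟩,⟨false,1,⟨15,[(5,
  3),(6,3),(6,3),(1,2),(0,2),(18,9)]⟩,⟨0,[(39,0)]⟩⟩,⟨true,0,⟨3,[(2,2),(0,0),(0,1),(1,1),(18,1)]⟩,⟨0,
  [(0,0)]⟩⟩,⟨true,0,⟨0,[]⟩,⟨0,[(43,0)]⟩⟩,⟨false,0,⟨0,[(2,0),(1,0),(1,0)]⟩,⟨15,[(0,15),(4,3),(6,3),
  (6,3),(1,2),(0,2),(18,9)]⟩⟩,[]⟩)))) (.I [0,0,2,2,-1,0,0,0,1] (.I [1,1,1,0,-1,0,0,0,1] (.Q [0,0,0,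
  0,0,-1,0,0,0,1,0,-1] (.p false [0,0,0,1] [1] (⟨0,[(23,0)]⟩,⟨0,[(22,0)]⟩) .k 1 (⟨0,[]⟩,⟨0,[]⟩) .k
  .k) (.Q [0,-1,-1,1,1,0,0,0,-1,0,0,1] (.p true [0,0,0,1] [] (⟨0,[(24,0)]⟩,⟨0,[(23,0)]⟩) .k 0 (⟨0,
  []⟩,⟨0,[]⟩) .k .k) (.Q [0,0,-1,0,1,0,0,0,-1,-1,0,1] (.p true [0,0,0,1] [1] (⟨0,[(25,0)]⟩,⟨0,[(24,
  0)]⟩) .k 1 (⟨0,[]⟩,⟨0,[]⟩) .k .k) (.R ⟨1,false,false,false,[1,0,0,-1],[0,0,0,1],[0,0,0,0,0,0,0,0,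
  -1],(⟨0,[(25,0)]⟩,⟨0,[(26,0)]⟩),(⟨0,[(26,0)]⟩,⟨0,[(25,0)]⟩),⟨0,[(2,0)]⟩,.k,.k,(.x (-1) ⟨7,[(17,3),
  (1,3),(3,2),(0,2),(11,1)]⟩ ⟨0,[(38,0)]⟩),.k,(.r (-2) ⟨3,[(9,1),(13,4),(0,0),(15,1)]⟩ ⟨0,[(3,0),(0,
  0),(4,0)]⟩),.k,⟨true,1,⟨0,[(23,0)]⟩,⟨14,[(3,21),(0,5),(4,11),(14,0),(14,4)]⟩⟩,⟨false,0,⟨0,[(20,0),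
  (4,1),(2,0)]⟩,⟨0,[(6,0),(13,0),(5,1)]⟩⟩,⟨false,1,⟨3,[(23,0),(0,0),(18,1)]⟩,⟨0,[]⟩⟩,⟨false,(-1),⟨1,
  [(3,2),(1,0),(0,0),(13,0),(4,2),(13,1)]⟩,⟨0,[(0,0),(0,0),(38,0)]⟩⟩,⟨true,0,⟨0,[(41,0)]⟩,⟨0,[(40,
  0)]⟩⟩,⟨false,(-1),⟨3,[(3,4),(0,1),(0,0),(0,2),(13,2),(4,6),(13,3)]⟩,⟨1,[(0,1),(8,0),(13,0),(2,1),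
  (13,0)]⟩⟩,[.o ⟨false,0,⟨0,[(5,0),(39,0)]⟩,⟨0,[(0,0)]⟩⟩,.o ⟨false,0,⟨0,[(5,0)]⟩,⟨0,[(0,0),(44,
  0)]⟩⟩,.o ⟨false,1,⟨5,[(0,1),(5,1),(13,1),(3,0),(1,3),(9,0)]⟩,⟨0,[(20,0),(4,0),(2,0)]⟩⟩,.a ⟨true,0,
  ⟨0,[(26,0)]⟩,⟨0,[(25,0)]⟩⟩ ⟨true,1,⟨1,[(23,0),(18,0)]⟩,⟨0,[(3,0)]⟩⟩ ⟨false,0,⟨0,[(5,0),(19,0)]⟩,
  ⟨0,[(0,0),(25,0)]⟩⟩]⟩) (.K ⟨0,[0,0,0,1],0,(-1),(⟨0,[(26,0)]⟩,⟨0,[(25,0)]⟩),.k,(.r 0 ⟨0,[(3,0),(5,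
  0)]⟩ ⟨7,[(4,3),(18,8),(0,2)]⟩),(.x 0 ⟨0,[(38,0)]⟩ ⟨7,[(17,3),(1,3),(3,2),(0,2),(11,1)]⟩),.k,.k,
  [⟨0,[(26,0)]⟩,⟨0,[(25,0)]⟩,⟨0,[(1,0),(13,0),(14,0)]⟩,⟨0,[(0,0),(5,0),(0,0),(0,0)]⟩]⟩)) (.K ⟨0,[0,
  0,0,1],0,(-1),(⟨0,[(25,0)]⟩,⟨0,[(24,0)]⟩),.k,(.r 0 ⟨0,[(2,0),(5,0)]⟩ ⟨7,[(3,3),(18,8),(0,2)]⟩),
  (.x 0 ⟨0,[(37,0)]⟩ ⟨7,[(16,3),(1,3),(3,2),(0,2),(11,1)]⟩),.k,.k,[⟨0,[(25,0)]⟩,⟨0,[(24,0)]⟩,⟨1,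
  [(22,0),(2,1),(15,0),(2,1)]⟩,⟨0,[(0,0),(39,0)]⟩]⟩)) (.R ⟨0,false,false,true,[1,0,0,-1],[0,1],[1,0,
  1],(⟨0,[(23,0)]⟩,⟨0,[(24,0)]⟩),(⟨0,[(36,0)]⟩,⟨0,[(35,0)]⟩),⟨0,[(0,0)]⟩,.k,.k,(.x (-1) ⟨7,[(15,3),
  (1,3),(3,2),(0,2),(11,1)]⟩ ⟨0,[(36,0)]⟩),(.x (-1) ⟨7,[(15,3),(1,3),(3,2),(0,2),(11,1)]⟩ ⟨0,[(36,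
  0)]⟩),.k,.k,⟨false,1,⟨31,[(5,3),(1,15),(4,3),(6,3),(1,2),(0,2),(18,9)]⟩,⟨1,[(6,0),(1,0),(18,0),
  (15,0)]⟩⟩,⟨true,0,⟨0,[(23,0)]⟩,⟨6,[(0,1),(4,1),(0,1),(8,0),(1,0),(6,4),(1,1),(7,1),(2,0)]⟩⟩,
  ⟨false,0,⟨2,[(1,0),(20,0),(14,1)]⟩,⟨1,[(21,0),(18,0)]⟩⟩,⟨true,(-1),⟨0,[(1,0),(21,0),(15,0)]⟩,⟨5,
  [(0,5),(3,2),(0,1),(6,1),(2,2),(1,2),(0,0),(2,2)]⟩⟩,⟨false,0,⟨0,[]⟩,⟨0,[]⟩⟩,⟨false,0,⟨0,[]⟩,⟨0,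
  []⟩⟩,[.o ⟨false,0,⟨1,[(6,0),(1,0),(18,0),(15,0)]⟩,⟨12,[(5,2),(1,0),(3,2),(22,4),(2,1),(3,6)]⟩⟩,.o
  ⟨false,0,⟨0,[(39,0)]⟩,⟨15,[(5,3),(5,3),(9,2),(0,2),(11,5),(6,3)]⟩⟩,.o ⟨false,1,⟨1,[(24,1),(9,0),
  (5,0)]⟩,⟨0,[(18,0),(4,0),(2,0)]⟩⟩,.a ⟨true,0,⟨0,[(24,0)]⟩,⟨0,[(23,0)]⟩⟩ ⟨true,0,⟨0,[]⟩,⟨0,[(43,
  0)]⟩⟩ ⟨false,0,⟨0,[(23,0),(15,0)]⟩,⟨12,[(5,2),(1,0),(3,2),(12,12),(9,4),(2,1),(3,6)]⟩⟩]⟩)) (.Q [0,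
  0,0,0,0,-1,0,0,0,1,0,-1] (.p false [0,0,0,1] [1] (⟨0,[(23,0)]⟩,⟨0,[(22,0)]⟩) .k 1 (⟨0,[]⟩,⟨0,[]⟩)
  .k .k) (.Q [0,1,0,-1,0,0,0,0,0,-1] (.pp true [-1,1]) (.Q [0,0,0,1,0,0,-1,-1,0,-1,1] (.p true [0,0,
  1] [1] (⟨0,[(34,0)]⟩,⟨0,[(33,0)]⟩) .k 1 (⟨0,[]⟩,⟨0,[]⟩) .k .k) (.R ⟨1,false,false,false,[1,0,0,
  -1],[1,1,-1],[0,1,0,0,0,0,0,0,-1],(⟨0,[(25,0)]⟩,⟨0,[(26,0)]⟩),(⟨0,[(34,0),(3,0)]⟩,⟨0,[(19,0)]⟩),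
  ⟨0,[(2,0)]⟩,.k,.k,(.x (-1) ⟨7,[(17,3),(1,3),(3,2),(0,2),(11,1)]⟩ ⟨0,[(38,0)]⟩),(.x 0 ⟨0,[(19,0),
  (0,0)]⟩ ⟨19,[(10,3),(1,7),(10,4),(0,4),(9,19),(1,5),(1,19)]⟩),(.r (-2) ⟨19,[(7,11),(1,11),(0,7),
  (5,3),(4,3),(1,12),(0,2)]⟩ ⟨0,[(4,0),(28,0)]⟩),.k,⟨true,1,⟨0,[(3,0),(17,0),(7,0)]⟩,⟨0,[(4,0),(9,
  0)]⟩⟩,⟨false,1,⟨4,[(10,2),(1,0),(12,4),(10,1)]⟩,⟨0,[(20,0),(5,0)]⟩⟩,⟨true,0,⟨0,[(45,0)]⟩,⟨0,[]⟩⟩,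
  ⟨false,0,⟨10,[(4,0),(0,9),(2,5),(1,6),(1,0),(1,2),(10,0),(4,1)]⟩,⟨0,[(3,0),(11,0),(10,0)]⟩⟩,
  ⟨false,0,⟨0,[(41,0)]⟩,⟨15,[(7,3),(6,3),(6,3),(1,2),(0,2),(18,9)]⟩⟩,⟨false,0,⟨0,[(5,0),(2,0),(1,
  0)]⟩,⟨0,[(3,0),(3,0),(18,0)]⟩⟩,[.o ⟨false,0,⟨0,[(0,0)]⟩,⟨7,[(7,3),(8,1),(5,1),(0,1),(0,1),(11,0),
  (6,0)]⟩⟩,.o ⟨false,1,⟨3,[(0,3),(22,0),(0,0),(18,1)]⟩,⟨0,[(15,0)]⟩⟩,.o ⟨false,1,⟨1,[(26,1),(9,0),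
  (5,0)]⟩,⟨9,[(1,3),(3,1),(2,1),(14,0),(1,7),(2,1),(0,1),(6,0),(2,1)]⟩⟩,.a ⟨true,0,⟨0,[(26,0)]⟩,⟨0,
  [(25,0)]⟩⟩ ⟨false,1,⟨1,[(23,0),(18,0)]⟩,⟨0,[(5,0),(20,0)]⟩⟩ ⟨true,0,⟨0,[(0,0),(24,0)]⟩,⟨0,[(15,0),
  (10,0)]⟩⟩]⟩) (.Q [0,0,0,1,0,0,-1,-1,0,0,1,-1] (.p true [0,0,1] [0,0,0,1] (⟨0,[(35,0)]⟩,⟨0,[(34,
  0)]⟩) .k 2 (⟨0,[(26,0)]⟩,⟨0,[(25,0)]⟩) .k (.r (-1) ⟨1,[(16,0),(6,0),(21,0)]⟩ ⟨1,[(4,1),(4,1),(3,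
  0),(8,0),(7,0)]⟩)) (.R ⟨1,false,false,false,[1,0,0,-1],[1,1,-1],[0,1,0,0,0,0,0,0,-1],(⟨0,[(26,
  0)]⟩,⟨0,[(27,0)]⟩),(⟨0,[(35,0),(3,0)]⟩,⟨0,[(20,0)]⟩),⟨0,[(3,0)]⟩,.k,.k,(.x (-1) ⟨7,[(18,3),(1,3),
  (3,2),(0,2),(11,1)]⟩ ⟨0,[(39,0)]⟩),(.x 0 ⟨0,[(20,0),(0,0)]⟩ ⟨19,[(11,3),(1,7),(10,4),(0,4),(9,19),
  (1,5),(1,19)]⟩),(.r (-2) ⟨51,[(1,7),(6,27),(1,23),(0,27),(2,7),(2,11),(6,32),(0,6)]⟩ ⟨0,[(5,0),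
  (28,0)]⟩),.k,⟨true,1,⟨1,[(1,0),(5,0),(14,0),(1,0),(5,0)]⟩,⟨0,[(5,0),(9,0)]⟩⟩,⟨false,1,⟨4,[(11,2),
  (1,0),(12,4),(10,1)]⟩,⟨0,[(21,0),(5,0)]⟩⟩,⟨true,0,⟨0,[(46,0)]⟩,⟨0,[]⟩⟩,⟨false,0,⟨15,[(0,8),(4,4),
  (0,6),(4,2),(3,2),(9,1),(5,3),(8,4)]⟩,⟨0,[(4,0),(11,0),(10,0)]⟩⟩,⟨false,0,⟨0,[(42,0)]⟩,⟨5,[(1,1),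
  (12,1),(9,0),(0,0),(18,3)]⟩⟩,⟨false,0,⟨8,[(0,7),(4,5),(0,0),(3,0),(0,0),(3,0),(9,0),(18,2)]⟩,⟨0,
  [(4,0),(3,0),(18,0)]⟩⟩,[.e ⟨false,1,⟨1,[(24,0),(18,0),(2,1)]⟩,⟨0,[(1,0),(3,0),(1,0),(7,0)]⟩⟩
  ⟨false,0,⟨0,[(0,0)]⟩,⟨9,[(10,3),(5,5),(0,1),(5,1),(0,0),(0,0),(1,9),(9,0),(5,0)]⟩⟩,.o ⟨false,1,⟨3,
  [(7,1),(1,1),(21,1),(5,0),(6,2)]⟩,⟨0,[(16,0)]⟩⟩,.o ⟨false,1,⟨1,[(27,1),(9,0),(5,0)]⟩,⟨5,[(0,1),(1,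
  0),(3,1),(2,0),(6,2),(7,0),(1,1),(2,0),(10,0)]⟩⟩,.a ⟨true,0,⟨0,[(27,0)]⟩,⟨0,[(26,0)]⟩⟩ ⟨false,1,
  ⟨1,[(24,0),(18,0)]⟩,⟨0,[(6,0),(20,0)]⟩⟩ ⟨true,0,⟨0,[(0,0)]⟩,⟨0,[(16,0),(10,0)]⟩⟩]⟩) (.R ⟨1,false,
  false,false,[1,0,0,-1],[1,1,-1],[0,1,0,0,0,0,0,0,-1],(⟨0,[(26,0)]⟩,⟨0,[(27,0)]⟩),(⟨0,[(35,0),(3,
  0)]⟩,⟨0,[(20,0)]⟩),⟨0,[(3,0)]⟩,.k,.k,(.x (-1) ⟨7,[(18,3),(1,3),(3,2),(0,2),(11,1)]⟩ ⟨0,[(39,0)]⟩),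
  (.x 0 ⟨0,[(20,0),(0,0)]⟩ ⟨19,[(11,3),(1,7),(10,4),(0,4),(9,19),(1,5),(1,19)]⟩),(.r (-2) ⟨51,[(1,
  7),(6,27),(1,23),(0,27),(2,7),(2,11),(6,32),(0,6)]⟩ ⟨0,[(5,0),(28,0)]⟩),.k,⟨true,1,⟨1,[(1,0),(5,
  0),(14,0),(1,0),(5,0)]⟩,⟨0,[(5,0),(9,0)]⟩⟩,⟨false,1,⟨4,[(11,2),(1,0),(12,4),(10,1)]⟩,⟨0,[(21,0),
  (5,0)]⟩⟩,⟨true,0,⟨0,[(46,0)]⟩,⟨0,[]⟩⟩,⟨false,0,⟨10,[(5,0),(0,9),(2,5),(1,6),(1,0),(1,2),(10,0),(4,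
  1)]⟩,⟨1,[(0,1),(23,0),(18,0)]⟩⟩,⟨false,0,⟨0,[(42,0)]⟩,⟨5,[(1,1),(12,1),(9,0),(0,0),(18,3)]⟩⟩,
  ⟨false,0,⟨0,[(6,0),(2,0),(1,0)]⟩,⟨1,[(0,1),(9,0),(13,0),(16,0)]⟩⟩,[.a ⟨true,0,⟨3,[(9,2),(1,2),(3,
  0),(6,0)]⟩,⟨0,[(1,0)]⟩⟩ ⟨false,1,⟨1,[(24,0),(18,0),(2,1)]⟩,⟨0,[(1,0),(3,0),(1,0),(7,0)]⟩⟩ ⟨true,0,
  ⟨15,[(4,0),(1,6),(0,3),(1,7),(3,1),(10,2),(1,8),(1,2),(2,4)]⟩,⟨0,[(0,0)]⟩⟩,.o ⟨false,1,⟨3,[(7,1),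
  (1,1),(21,1),(5,0),(6,2)]⟩,⟨0,[(16,0)]⟩⟩,.o ⟨false,1,⟨1,[(27,1),(9,0),(5,0)]⟩,⟨9,[(2,3),(3,1),(2,
  1),(14,0),(1,7),(2,1),(0,1),(6,0),(2,1)]⟩⟩,.e ⟨false,1,⟨1,[(24,0),(18,0)]⟩,⟨25,[(0,4),(4,8),(0,4),
  (3,2),(4,4),(6,4),(2,5),(14,8)]⟩⟩ ⟨false,1,⟨1,[(6,1),(2,0),(1,1),(12,0),(9,0)]⟩,⟨0,[(0,0)]⟩⟩]⟩)))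
  (.Q [0,0,0,0,0,2,0,0,0,-1,1] (.p true [0,0,1] [1] (⟨0,[(34,0)]⟩,⟨0,[(33,0)]⟩) .k 1 (⟨0,[]⟩,⟨0,
  []⟩) .k .k) (.R ⟨0,false,false,true,[1,-1,-1],[1,-1],[0,1],(⟨0,[(17,0)]⟩,⟨5,[(0,2),(0,1),(19,1),
  (0,0),(12,2)]⟩),(⟨0,[(37,0)]⟩,⟨0,[(38,0)]⟩),⟨0,[(0,0)]⟩,.k,.k,(.r (-1) ⟨1,[(9,1),(3,0),(8,0),(7,
  0)]⟩ ⟨1,[(4,1),(11,0),(6,0),(21,0)]⟩),.k,.k,.k,⟨false,0,⟨0,[(41,0)]⟩,⟨3,[(9,1),(13,0),(0,0),(15,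
  1)]⟩⟩,⟨true,0,⟨0,[(20,0)]⟩,⟨0,[(32,0)]⟩⟩,⟨false,0,⟨2,[(1,0),(6,0),(3,0),(3,0),(12,1)]⟩,⟨3,[(9,1),
  (4,1),(8,0),(0,0),(8,1)]⟩⟩,⟨true,0,⟨0,[(29,0)]⟩,⟨2,[(1,1),(6,0),(1,0),(2,1)]⟩⟩,⟨false,0,⟨0,[]⟩,⟨0,
  []⟩⟩,⟨false,0,⟨0,[]⟩,⟨0,[]⟩⟩,[.a ⟨true,0,⟨0,[(40,0)]⟩,⟨0,[(1,0)]⟩⟩ ⟨true,0,⟨0,[(45,0)]⟩,⟨3,[(31,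
  0),(0,0),(6,1)]⟩⟩ ⟨false,1,⟨1,[(15,0),(2,0),(3,0),(19,1)]⟩,⟨32,[(1,16),(4,0),(1,7),(3,15),(3,3),
  (22,2),(3,2)]⟩⟩,.o ⟨false,1,⟨15,[(7,3),(5,3),(9,2),(0,2),(11,5),(6,3)]⟩,⟨0,[(41,0)]⟩⟩,.o ⟨false,0,
  ⟨0,[(28,0)]⟩,⟨7,[(22,3),(0,0),(0,0),(11,1),(5,3)]⟩⟩,.o ⟨false,0,⟨1,[(28,1),(2,0),(0,0)]⟩,⟨0,[(20,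
  0),(21,0)]⟩⟩]⟩) (.I [0,0,1,1,0,0,0,0,-1] (.Q [0,1,0,-1,0,0,0,0,0,0,0,-1] (.p false [0,0,0,1] []
  (⟨0,[(27,0)]⟩,⟨0,[(26,0)]⟩) .k 0 (⟨0,[]⟩,⟨0,[]⟩) .k .k) (.R ⟨1,false,false,true,[1,0,0,-1],[1,-1],
  [0,1,0,0,0,0,0,0,-1],(⟨0,[(27,0)]⟩,⟨0,[(28,0)]⟩),(⟨0,[(39,0)]⟩,⟨0,[(40,0)]⟩),⟨0,[(4,0)]⟩,.k,.k,
  (.x (-1) ⟨11,[(2,3),(18,3),(3,4),(0,4),(11,1)]⟩ ⟨0,[(40,0)]⟩),(.r 0 ⟨0,[(1,0)]⟩ ⟨1,[(11,0),(14,0),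
  (15,0)]⟩),.k,.k,⟨true,0,⟨0,[(1,0)]⟩,⟨2,[(6,2),(2,0),(1,2),(4,0),(6,0),(18,1)]⟩⟩,⟨false,0,⟨1,[(0,
  0),(0,0),(5,0)]⟩,⟨0,[(28,0),(15,0)]⟩⟩,⟨true,0,⟨0,[(47,0)]⟩,⟨0,[]⟩⟩,⟨false,0,⟨0,[(7,0),(34,0)]⟩,⟨0,
  [(5,0),(22,0),(14,0)]⟩⟩,⟨false,0,⟨0,[(43,0)]⟩,⟨15,[(9,3),(6,3),(6,3),(1,2),(0,2),(18,9)]⟩⟩,⟨false,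
  0,⟨15,[(0,7),(5,3),(0,7),(17,0),(0,2)]⟩,⟨0,[(5,0),(22,0)]⟩⟩,[.e ⟨false,1,⟨1,[(25,0),(18,0),(2,
  1)]⟩,⟨0,[(3,0),(2,0),(1,0),(0,0),(6,0)]⟩⟩ ⟨false,0,⟨0,[(0,0)]⟩,⟨1,[(3,1),(24,1),(9,0),(5,0)]⟩⟩,.o
  ⟨false,1,⟨15,[(9,3),(5,3),(9,2),(0,2),(11,5),(6,3)]⟩,⟨0,[(43,0)]⟩⟩,.o ⟨false,1,⟨1,[(28,1),(9,0),
  (5,0)]⟩,⟨1,[(0,0),(0,0),(5,0)]⟩⟩,.a ⟨true,0,⟨0,[(28,0)]⟩,⟨0,[(27,0)]⟩⟩ ⟨false,1,⟨1,[(25,0),(18,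
  0)]⟩,⟨0,[(7,0),(20,0)]⟩⟩ ⟨true,0,⟨0,[(0,0)]⟩,⟨0,[(28,0),(14,0)]⟩⟩]⟩) (.R ⟨1,false,false,true,[1,0,
  0,-1],[1,-1],[0,1,0,0,0,0,0,0,-1],(⟨0,[(27,0)]⟩,⟨0,[(28,0)]⟩),(⟨0,[(39,0)]⟩,⟨0,[(40,0)]⟩),⟨0,[(4,
  0)]⟩,.k,.k,(.x (-1) ⟨11,[(2,3),(18,3),(3,4),(0,4),(11,1)]⟩ ⟨0,[(40,0)]⟩),(.r 0 ⟨0,[(1,0)]⟩ ⟨1,
  [(11,0),(14,0),(15,0)]⟩),.k,.k,⟨true,0,⟨0,[(1,0)]⟩,⟨2,[(6,2),(2,0),(1,2),(4,0),(6,0),(18,1)]⟩⟩,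
  ⟨false,0,⟨0,[(22,0),(4,0),(2,0)]⟩,⟨0,[(28,0),(15,0)]⟩⟩,⟨true,0,⟨0,[(47,0)]⟩,⟨0,[]⟩⟩,⟨false,0,⟨0,
  [(7,0),(34,0)]⟩,⟨1,[(0,1),(24,0),(18,0)]⟩⟩,⟨false,0,⟨0,[(43,0)]⟩,⟨15,[(9,3),(6,3),(6,3),(1,2),(0,
  2),(18,9)]⟩⟩,⟨false,0,⟨0,[(7,0),(39,0)]⟩,⟨0,[(5,0),(22,0)]⟩⟩,[.a ⟨true,0,⟨0,[(42,0)]⟩,⟨0,[(3,
  0)]⟩⟩ ⟨false,1,⟨1,[(25,0),(18,0),(2,1)]⟩,⟨0,[(3,0),(2,0),(1,0),(0,0),(6,0)]⟩⟩ ⟨true,0,⟨4,[(7,1),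
  (2,0),(4,0),(1,3),(2,0),(4,0),(1,2),(2,0),(1,0)]⟩,⟨0,[(0,0)]⟩⟩,.o ⟨false,1,⟨15,[(9,3),(5,3),(9,2),
  (0,2),(11,5),(6,3)]⟩,⟨0,[(43,0)]⟩⟩,.o ⟨false,1,⟨1,[(28,1),(9,0),(5,0)]⟩,⟨0,[(22,0),(4,0),(2,0)]⟩⟩,
  .e ⟨false,1,⟨1,[(25,0),(18,0)]⟩,⟨0,[(7,0),(20,0)]⟩⟩ ⟨false,1,⟨55,[(7,15),(1,11),(1,7),(3,11),(9,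
  20),(0,12),(0,39),(10,13)]⟩,⟨0,[(0,0)]⟩⟩]⟩)) (.Q [0,0,0,1,0,0,1,1,0,1,-1,-1] (.p false [0,0,1] [1,
  0,0,-1] (⟨0,[(36,0)]⟩,⟨0,[(35,0)]⟩) .k 2 (⟨0,[(26,0)]⟩,⟨0,[(27,0)]⟩) .k (.r 0 ⟨3,[(0,2),(1,0),(2,
  0),(7,0),(3,0),(12,1)]⟩ ⟨3,[(24,2),(0,0),(8,3)]⟩)) (.R ⟨1,false,false,false,[1,0,0,-1],[1,1,-1],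
  [0,1,0,0,0,0,0,0,-1],(⟨0,[(27,0)]⟩,⟨0,[(28,0)]⟩),(⟨0,[(36,0),(3,0)]⟩,⟨0,[(21,0)]⟩),⟨0,[(4,0)]⟩,.k,
  .k,(.x (-1) ⟨11,[(2,3),(18,3),(3,4),(0,4),(11,1)]⟩ ⟨0,[(40,0)]⟩),(.r (-2) ⟨19,[(9,7),(1,2),(0,6),
  (5,5),(4,0),(1,16),(0,6)]⟩ ⟨0,[(1,0),(8,0)]⟩),(.r (-2) ⟨19,[(9,11),(1,11),(0,7),(5,3),(4,3),(1,
  12),(0,2)]⟩ ⟨4,[(1,1),(4,0),(3,4),(15,0)]⟩),.k,⟨true,1,⟨1,[(3,0),(4,0),(8,1),(5,0),(1,0)]⟩,⟨0,[(6,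
  0),(9,0)]⟩⟩,⟨false,1,⟨4,[(12,2),(1,0),(12,4),(10,1)]⟩,⟨0,[(22,0),(5,0)]⟩⟩,⟨true,0,⟨0,[(47,0)]⟩,⟨0,
  []⟩⟩,⟨false,0,⟨19,[(1,0),(1,0),(3,18),(2,11),(1,11),(1,1),(1,3),(10,0),(4,3)]⟩,⟨0,[(5,0),(11,0),
  (10,0)]⟩⟩,⟨false,0,⟨0,[(43,0)]⟩,⟨15,[(9,3),(6,3),(6,3),(1,2),(0,2),(18,9)]⟩⟩,⟨false,0,⟨0,[(7,0),
  (2,0),(1,0)]⟩,⟨0,[(5,0),(3,0),(18,0)]⟩⟩,[.e ⟨false,1,⟨1,[(25,0),(18,0),(2,1)]⟩,⟨4,[(1,2),(4,1),(4,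
  0),(29,0),(3,0)]⟩⟩ ⟨false,0,⟨0,[(0,0),(7,0),(1,0),(5,0),(6,0)]⟩,⟨9,[(11,3),(5,5),(0,1),(5,1),(0,
  0),(0,0),(1,9),(9,0),(5,0)]⟩⟩,.o ⟨false,1,⟨3,[(8,1),(1,1),(21,1),(5,0),(6,2)]⟩,⟨0,[(17,0)]⟩⟩,.o
  ⟨false,1,⟨1,[(28,1),(9,0),(5,0)]⟩,⟨20,[(0,11),(6,7),(1,0),(0,3),(4,8),(9,3),(1,0),(2,3),(10,0)]⟩⟩,
  .a ⟨true,0,⟨0,[(28,0)]⟩,⟨0,[(27,0)]⟩⟩ ⟨false,1,⟨1,[(25,0),(18,0)]⟩,⟨44,[(1,5),(4,12),(2,4),(6,4),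
  (6,4),(2,12),(14,24)]⟩⟩ ⟨true,0,⟨0,[(0,0),(7,0),(1,0),(5,0),(6,0)]⟩,⟨0,[(17,0),(10,0)]⟩⟩]⟩) (.R
  ⟨1,false,false,false,[1,0,0,-1],[0,-1,1],[0,0,0,0,0,0,0,0,-1],(⟨0,[(27,0)]⟩,⟨0,[(28,0)]⟩),(⟨0,
  [(21,0)]⟩,⟨0,[(36,0),(3,0)]⟩),⟨0,[(4,0)]⟩,.k,.k,(.x (-1) ⟨11,[(2,3),(18,3),(3,4),(0,4),(11,1)]⟩
  ⟨0,[(40,0)]⟩),(.r 0 ⟨1,[(10,0),(14,0),(9,0)]⟩ ⟨2,[(1,0),(7,0),(2,0),(5,0),(7,0)]⟩),.k,.k,⟨true,0,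
  ⟨1,[(10,0),(14,0),(9,0)]⟩,⟨3,[(1,2),(1,0),(2,0),(2,1),(4,0),(3,0)]⟩⟩,⟨false,0,⟨0,[(27,0),(5,0)]⟩,
  ⟨0,[(8,0),(19,0)]⟩⟩,⟨false,1,⟨3,[(25,0),(0,0),(18,1)]⟩,⟨0,[]⟩⟩,⟨false,0,⟨0,[(3,0),(3,0),(1,0)]⟩,
  ⟨5,[(0,1),(7,3),(1,3),(14,2),(2,3),(15,2)]⟩⟩,⟨true,0,⟨0,[(43,0)]⟩,⟨0,[(42,0)]⟩⟩,⟨false,0,⟨0,[(3,
  0),(3,0),(9,0)]⟩,⟨5,[(0,3),(7,1),(1,1),(14,2),(2,1),(15,2)]⟩⟩,[.a ⟨true,0,⟨0,[(3,0),(5,0)]⟩,⟨2,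
  [(0,0),(9,1),(1,1),(14,0)]⟩⟩ ⟨false,1,⟨1,[(25,0),(18,0)]⟩,⟨4,[(1,1),(4,0),(19,0)]⟩⟩ ⟨true,0,⟨3,
  [(9,2),(0,0),(7,0),(8,3),(5,0),(7,0)]⟩,⟨2,[(0,0),(7,1),(1,1),(17,1)]⟩⟩,.o ⟨false,1,⟨7,[(9,3),(8,
  1),(5,1),(13,0),(6,4)]⟩,⟨1,[(8,0),(1,0),(18,0),(17,0)]⟩⟩,.o ⟨false,1,⟨1,[(28,1),(9,0),(5,0)]⟩,⟨0,
  [(22,0),(4,0),(2,0)]⟩⟩,.e ⟨false,1,⟨0,[(5,0)]⟩,⟨17,[(6,5),(2,3),(6,3),(9,5),(6,0),(0,4)]⟩⟩ ⟨false,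
  1,⟨27,[(7,7),(1,11),(1,3),(6,7),(5,7),(0,4),(0,0),(0,19),(17,9)]⟩,⟨2,[(0,0),(7,1),(1,1),(17,
  1)]⟩⟩]⟩))))) (.Q [0,1,0,-1,0,0,0,0,0,-1] (.pp true [-1,1]) (.I [1,-1,1,1,0,0,0,-1,-1] (.Q [0,0,0,
  1,0,0,-1,-1,0,-1,1] (.p true [0,0,1] [1] (⟨0,[(35,0)]⟩,⟨0,[(34,0)]⟩) .k 1 (⟨0,[]⟩,⟨0,[]⟩) .k .k)
  (.R ⟨0,false,false,true,[1,0,0,-1],[0,-1,1],[1,0,0,0,0,0,0,0,-1],(⟨0,[(26,0)]⟩,⟨0,[(27,0)]⟩),(⟨0,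
  [(20,0)]⟩,⟨0,[(35,0),(3,0)]⟩),⟨0,[(3,0)]⟩,.k,.k,(.x (-1) ⟨7,[(18,3),(1,3),(3,2),(0,2),(11,1)]⟩ ⟨0,
  [(39,0)]⟩),(.r 0 ⟨1,[(9,0),(14,0),(9,0)]⟩ ⟨27,[(5,11),(2,15),(1,14),(0,10),(5,5),(4,4),(2,7)]⟩),
  .k,.k,⟨true,0,⟨0,[(1,0)]⟩,⟨1,[(5,1),(2,1),(1,0),(0,0),(10,0)]⟩⟩,⟨false,0,⟨0,[(26,0),(5,0)]⟩,⟨0,
  [(7,0),(19,0)]⟩⟩,⟨true,0,⟨0,[]⟩,⟨0,[(46,0)]⟩⟩,⟨false,0,⟨15,[(5,6),(0,0),(1,13),(1,1),(6,0),(5,0),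
  (1,3),(0,14),(13,4)]⟩,⟨0,[(1,0),(5,0),(19,0)]⟩⟩,⟨false,0,⟨0,[]⟩,⟨0,[]⟩⟩,⟨false,0,⟨0,[]⟩,⟨0,[]⟩⟩,
  [.o ⟨false,0,⟨0,[(16,0)]⟩,⟨3,[(0,3),(23,0),(0,0),(18,1)]⟩⟩,.o ⟨false,1,⟨7,[(8,3),(8,1),(5,1),(0,
  1),(0,1),(11,0),(6,0)]⟩,⟨0,[(0,0)]⟩⟩,.o ⟨false,1,⟨1,[(27,1),(9,0),(5,0)]⟩,⟨2,[(1,0),(0,0),(3,0),
  (19,1),(2,0),(0,0)]⟩⟩,.a ⟨true,0,⟨0,[(27,0)]⟩,⟨0,[(26,0)]⟩⟩ ⟨false,1,⟨0,[(4,0)]⟩,⟨17,[(5,5),(2,3),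
  (6,3),(9,5),(6,0),(0,4)]⟩⟩ ⟨true,0,⟨0,[(16,0),(9,0)]⟩,⟨0,[(0,0),(26,0)]⟩⟩]⟩) (.R ⟨1,false,false,
  true,[0,0,0,1],[0,-1,1],[0,0,0,0,0,0,0,0,1],(⟨0,[(27,0)]⟩,⟨0,[(26,0)]⟩),(⟨0,[(20,0)]⟩,⟨0,[(35,0),
  (3,0)]⟩),⟨0,[(3,0),(14,0),(1,0)]⟩,.k,.k,(.x 0 ⟨0,[(29,0),(2,0),(5,0)]⟩ ⟨0,[(39,0),(3,0)]⟩),(.x
  (-1) ⟨19,[(11,3),(1,7),(10,4),(0,4),(9,19),(1,5),(1,19)]⟩ ⟨0,[(20,0),(0,0)]⟩),.k,.k,⟨false,0,⟨0,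
  [(5,0),(4,0),(23,0)]⟩,⟨1,[(0,0),(6,0),(14,0),(1,0),(5,0)]⟩⟩,⟨true,0,⟨0,[(21,0),(5,0)]⟩,⟨0,[(26,0),
  (2,0)]⟩⟩,⟨false,1,⟨3,[(24,0),(0,0),(18,1)]⟩,⟨0,[]⟩⟩,⟨false,1,⟨0,[(4,0),(11,0),(10,0)]⟩,⟨10,[(5,0),
  (0,9),(2,5),(1,6),(1,0),(1,2),(10,0),(4,1)]⟩⟩,⟨true,0,⟨0,[(42,0)]⟩,⟨0,[(41,0)]⟩⟩,⟨false,1,⟨0,[(4,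
  0),(22,0),(2,0)]⟩,⟨10,[(5,1),(0,8),(2,0),(1,2),(1,1),(1,5),(10,1),(4,3)]⟩⟩,[.o ⟨false,0,⟨0,[(16,
  0)]⟩,⟨17,[(1,9),(5,9),(1,3),(3,1),(11,4),(2,3),(8,0),(6,5)]⟩⟩,.a ⟨true,0,⟨0,[(0,0)]⟩,⟨3,[(9,2),(1,
  2),(3,0),(6,0)]⟩⟩ ⟨true,0,⟨0,[(0,0),(4,0),(1,0),(7,0)]⟩,⟨1,[(9,0),(6,0),(5,0),(1,0)]⟩⟩ ⟨false,1,
  ⟨0,[(10,0),(16,0),(2,0)]⟩,⟨4,[(1,0),(4,0),(0,0),(1,1),(3,0),(12,3),(4,1),(5,0)]⟩⟩,.o ⟨false,0,⟨2,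
  [(1,0),(0,0),(3,0),(19,1),(2,0),(0,0)]⟩,⟨1,[(27,1),(9,0),(5,0)]⟩⟩,.o ⟨false,0,⟨4,[(6,3),(2,1),(6,
  1),(7,1),(1,0),(2,0),(3,0),(7,1)]⟩,⟨0,[(7,0),(13,0),(5,0)]⟩⟩]⟩)) (.R ⟨0,false,false,true,[1,0,0,
  -1],[0,1],[1,0,1],(⟨0,[(25,0)]⟩,⟨0,[(26,0)]⟩),(⟨0,[(38,0)]⟩,⟨0,[(37,0)]⟩),⟨0,[(2,0)]⟩,.k,.k,(.x
  (-1) ⟨7,[(17,3),(1,3),(3,2),(0,2),(11,1)]⟩ ⟨0,[(38,0)]⟩),(.x (-1) ⟨7,[(17,3),(1,3),(3,2),(0,2),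
  (11,1)]⟩ ⟨0,[(38,0)]⟩),.k,.k,⟨false,1,⟨31,[(7,3),(1,15),(4,3),(6,3),(1,2),(0,2),(18,9)]⟩,⟨1,[(8,
  0),(1,0),(18,0),(15,0)]⟩⟩,⟨true,0,⟨0,[(25,0)]⟩,⟨3,[(1,0),(6,0),(6,0),(10,3),(1,0),(7,0),(2,0)]⟩⟩,
  ⟨false,0,⟨23,[(0,2),(3,6),(2,1),(6,4),(6,1),(2,6),(14,12)]⟩,⟨1,[(23,0),(18,0)]⟩⟩,⟨true,(-1),⟨0,
  [(0,0),(7,0),(16,0)]⟩,⟨0,[(1,0),(1,0),(22,0)]⟩⟩,⟨false,0,⟨0,[]⟩,⟨0,[]⟩⟩,⟨false,0,⟨0,[]⟩,⟨0,[]⟩⟩,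
  [.o ⟨false,0,⟨1,[(8,0),(1,0),(18,0),(15,0)]⟩,⟨12,[(7,2),(1,0),(3,2),(22,4),(2,1),(3,6)]⟩⟩,.o
  ⟨false,0,⟨0,[(41,0)]⟩,⟨15,[(7,3),(5,3),(9,2),(0,2),(11,5),(6,3)]⟩⟩,.o ⟨false,1,⟨1,[(26,1),(9,0),
  (5,0)]⟩,⟨9,[(1,3),(3,1),(2,1),(14,0),(1,7),(2,1),(0,1),(6,0),(2,1)]⟩⟩,.a ⟨true,0,⟨0,[(26,0)]⟩,⟨0,
  [(25,0)]⟩⟩ ⟨true,0,⟨0,[]⟩,⟨0,[(45,0)]⟩⟩ ⟨false,0,⟨0,[(25,0),(15,0)]⟩,⟨12,[(7,2),(1,0),(3,2),(12,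
  12),(9,4),(2,1),(3,6)]⟩⟩]⟩)) (.Q [0,0,-3,0,1,0,1,0,0,0,-1,1] (.p false [0,0,1] [0,0,0,1] (⟨0,[(34,
  0)]⟩,⟨0,[(33,0)]⟩) .k 2 (⟨0,[(25,0)]⟩,⟨0,[(24,0)]⟩) .k (.r (-1) ⟨1,[(15,0),(6,0),(21,0)]⟩ ⟨1,[(3,
  1),(4,1),(3,0),(8,0),(7,0)]⟩)) (.R ⟨1,false,false,true,[0,0,0,1],[1,1,-1],[0,0,0,0,0,0,0,0,1],(⟨0,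
  [(26,0)]⟩,⟨0,[(25,0)]⟩),(⟨0,[(34,0),(3,0)]⟩,⟨0,[(19,0)]⟩),⟨0,[(2,0),(14,0),(1,0)]⟩,.k,.k,(.x 0 ⟨0,
  [(28,0),(2,0),(5,0)]⟩ ⟨0,[(38,0),(3,0)]⟩),(.r (-1) ⟨27,[(4,11),(2,15),(1,14),(0,10),(5,5),(4,4),
  (2,7)]⟩ ⟨1,[(8,0),(14,0),(9,0)]⟩),(.r (-1) ⟨1,[(4,1),(2,1),(1,2),(0,0),(10,0)]⟩ ⟨3,[(8,3),(14,2),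
  (0,0)]⟩),.k,⟨false,1,⟨0,[(1,1),(2,0),(1,1),(0,1),(6,0)]⟩,⟨3,[(8,1),(13,0),(0,1),(3,0),(2,0),(14,
  1)]⟩⟩,⟨true,1,⟨0,[(0,0),(11,0)]⟩,⟨3,[(7,3),(0,3),(16,3),(5,0),(0,0),(6,1)]⟩⟩,⟨false,1,⟨3,[(23,0),
  (0,0),(18,1)]⟩,⟨0,[]⟩⟩,⟨false,1,⟨15,[(0,11),(2,5),(4,7),(3,9),(10,4),(2,3),(0,5),(2,1),(12,0)]⟩,
  ⟨0,[(1,0),(3,0),(1,0)]⟩⟩,⟨true,0,⟨0,[(41,0)]⟩,⟨0,[(40,0)]⟩⟩,⟨false,1,⟨9,[(0,9),(7,9),(1,3),(1,7),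
  (10,4),(12,0)]⟩,⟨3,[(1,2),(2,0),(0,2),(1,4),(1,0),(4,0),(6,0),(3,0),(13,0)]⟩⟩,[.o ⟨false,0,⟨1,[(6,
  0),(1,0),(18,0),(17,0)]⟩,⟨7,[(7,3),(8,1),(5,1),(13,0),(6,4)]⟩⟩,.a ⟨true,0,⟨2,[(1,0),(6,1),(1,1),
  (2,0)]⟩,⟨0,[(1,0),(5,0)]⟩⟩ ⟨true,0,⟨0,[(1,0),(2,0),(1,0),(0,0),(6,0)]⟩,⟨1,[(8,0),(6,0),(5,0),(1,
  0)]⟩⟩ ⟨false,1,⟨20,[(0,20),(5,6),(1,10),(3,12),(1,0),(12,0),(2,7),(12,3)]⟩,⟨3,[(7,2),(0,0),(7,0),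
  (8,3),(5,0),(7,0)]⟩⟩,.o ⟨false,0,⟨0,[(20,0),(4,0),(2,0)]⟩,⟨19,[(0,3),(9,3),(12,0),(0,0),(1,15),(9,
  9)]⟩⟩,.o ⟨false,0,⟨4,[(5,3),(2,1),(6,1),(7,1),(1,0),(2,0),(3,0),(7,1)]⟩,⟨0,[(0,0),(27,0)]⟩⟩]⟩)
  (.Q [0,0,0,0,0,2,0,0,0,-1,1] (.p true [0,0,1] [1] (⟨0,[(35,0)]⟩,⟨0,[(34,0)]⟩) .k 1 (⟨0,[]⟩,⟨0,
  []⟩) .k .k) (.R ⟨0,false,false,true,[1,-1,-1],[1,-1],[0,1],(⟨0,[(18,0)]⟩,⟨5,[(0,2),(1,1),(19,1),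
  (0,0),(12,2)]⟩),(⟨0,[(38,0)]⟩,⟨0,[(39,0)]⟩),⟨0,[(0,0)]⟩,.k,.k,(.r (-1) ⟨1,[(10,1),(3,0),(8,0),(7,
  0)]⟩ ⟨1,[(5,1),(11,0),(6,0),(21,0)]⟩),.k,.k,.k,⟨false,0,⟨0,[(42,0)]⟩,⟨3,[(10,1),(13,0),(0,0),(15,
  1)]⟩⟩,⟨true,0,⟨0,[(21,0)]⟩,⟨0,[(33,0)]⟩⟩,⟨false,0,⟨2,[(2,0),(6,0),(3,0),(3,0),(12,1)]⟩,⟨3,[(10,1),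
  (4,1),(8,0),(0,0),(8,1)]⟩⟩,⟨true,0,⟨0,[(30,0)]⟩,⟨2,[(2,1),(6,0),(1,0),(2,1)]⟩⟩,⟨false,0,⟨0,[]⟩,⟨0,
  []⟩⟩,⟨false,0,⟨0,[]⟩,⟨0,[]⟩⟩,[.a ⟨true,0,⟨0,[(41,0)]⟩,⟨0,[(2,0)]⟩⟩ ⟨true,0,⟨0,[(46,0)]⟩,⟨5,[(1,0),
  (25,0),(4,0),(7,1),(3,0)]⟩⟩ ⟨false,1,⟨1,[(16,0),(2,0),(3,0),(19,1)]⟩,⟨32,[(2,16),(4,0),(1,7),(3,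
  15),(3,3),(22,2),(3,2)]⟩⟩,.o ⟨false,1,⟨15,[(8,3),(5,3),(9,2),(0,2),(11,5),(6,3)]⟩,⟨0,[(42,0)]⟩⟩,
  .o ⟨false,0,⟨0,[(29,0)]⟩,⟨7,[(23,3),(0,0),(0,0),(11,1),(5,3)]⟩⟩,.o ⟨false,0,⟨7,[(1,3),(22,0),(0,
  0),(1,3),(1,3),(7,1)]⟩,⟨0,[(21,0),(21,0)]⟩⟩]⟩) (.R ⟨1,false,false,true,[0,0,0,1],[1,1,-1],[0,0,0,
  0,0,0,0,0,1],(⟨0,[(27,0)]⟩,⟨0,[(26,0)]⟩),(⟨0,[(35,0),(3,0)]⟩,⟨0,[(20,0)]⟩),⟨1,[(0,0),(2,0),(16,0),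
  (6,0)]⟩,.k,.k,(.x 0 ⟨5,[(0,1),(0,2),(18,1),(3,0),(0,0),(1,2),(4,2),(4,0)]⟩ ⟨0,[(39,0),(3,0)]⟩),
  (.r (-1) ⟨27,[(5,11),(2,15),(1,14),(0,10),(5,5),(4,4),(2,7)]⟩ ⟨1,[(9,0),(14,0),(9,0)]⟩),(.r (-1)
  ⟨1,[(5,1),(2,1),(1,2),(0,0),(10,0)]⟩ ⟨3,[(9,3),(14,2),(0,0)]⟩),.k,⟨false,1,⟨0,[(2,1),(2,0),(1,1),
  (0,1),(6,0)]⟩,⟨3,[(9,1),(13,0),(0,1),(3,0),(2,0),(14,1)]⟩⟩,⟨true,1,⟨0,[(7,0),(19,0)]⟩,⟨0,[(1,0),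
  (21,0)]⟩⟩,⟨false,1,⟨3,[(24,0),(0,0),(18,1)]⟩,⟨0,[]⟩⟩,⟨false,1,⟨1,[(7,1),(1,0),(14,0),(2,1),(6,
  0)]⟩,⟨0,[(2,0),(3,0),(1,0)]⟩⟩,⟨true,0,⟨0,[(42,0)]⟩,⟨0,[(41,0)]⟩⟩,⟨false,1,⟨1,[(7,1),(1,1),(14,0),
  (2,1),(15,0)]⟩,⟨6,[(1,0),(0,6),(2,0),(0,5),(1,8),(1,1),(4,1),(6,0)]⟩⟩,[.o ⟨false,0,⟨1,[(7,0),(1,
  0),(18,0),(17,0)]⟩,⟨7,[(8,3),(8,1),(5,1),(13,0),(6,4)]⟩⟩,.a ⟨true,0,⟨2,[(2,0),(6,1),(1,1),(2,0)]⟩,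
  ⟨0,[(2,0),(5,0)]⟩⟩ ⟨true,0,⟨0,[(2,0),(2,0),(1,0),(0,0),(6,0)]⟩,⟨1,[(9,0),(6,0),(5,0),(1,0)]⟩⟩
  ⟨false,1,⟨1,[(7,1),(1,0),(17,1),(6,0),(8,0)]⟩,⟨22,[(1,5),(4,1),(1,9),(7,2),(0,4),(5,7),(0,0),(1,
  14),(13,2)]⟩⟩,.o ⟨false,0,⟨2,[(1,0),(19,0),(4,1),(10,0)]⟩,⟨1,[(27,1),(9,0),(5,0)]⟩⟩,.o ⟨false,0,
  ⟨7,[(1,3),(22,0),(0,0),(0,3),(5,3),(4,1)]⟩,⟨0,[(7,0),(13,0),(5,0)]⟩⟩]⟩)))))) (.Q [0,0,0,0,0,-1,0,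
  0,0,1,0,-1] (.p false [0,0,0,1] [1] (⟨0,[(22,0)]⟩,⟨0,[(21,0)]⟩) .k 1 (⟨0,[]⟩,⟨0,[]⟩) .k .k) (.I
  [1,0,0,0,0,0,0,0,1] (.Q [0,0,0,0,0,0,-1,-1,0,0,1,-1] (.p true [0,0,1] [0,0,0,1] (⟨0,[(33,0)]⟩,⟨0,
  [(32,0)]⟩) .k 2 (⟨0,[(24,0)]⟩,⟨0,[(23,0)]⟩) .k (.r (-1) ⟨1,[(14,0),(6,0),(21,0)]⟩ ⟨0,[(0,0),(30,
  0)]⟩)) (.R ⟨1,false,false,false,[1,0,0,-1],[1,0,-1],[0,0,0,0,0,0,0,0,-1],(⟨0,[(24,0)]⟩,⟨0,[(25,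
  0)]⟩),(⟨0,[(33,0)]⟩,⟨0,[(34,0)]⟩),⟨0,[(2,0)]⟩,.k,.k,(.x (-1) ⟨7,[(16,3),(1,3),(3,2),(0,2),(11,
  1)]⟩ ⟨0,[(37,0)]⟩),.k,(.r (-1) ⟨1,[(3,1),(7,0),(12,0),(0,0),(2,1),(9,0),(1,1)]⟩ ⟨1,[(7,0),(15,0),
  (8,0)]⟩),.k,⟨false,1,⟨1,[(3,1),(7,0),(12,0),(0,0),(2,1),(9,0),(1,3)]⟩,⟨0,[(1,0),(30,0)]⟩⟩,⟨true,0,
  ⟨0,[(24,0),(2,0)]⟩,⟨0,[(19,0),(5,0)]⟩⟩,⟨false,1,⟨3,[(22,0),(0,0),(18,1)]⟩,⟨0,[]⟩⟩,⟨false,0,⟨1,[(0,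
  0),(0,0),(2,0),(24,0),(8,0)]⟩,⟨4,[(3,2),(11,0),(3,1),(2,0),(2,4),(2,2),(9,0),(1,5)]⟩⟩,⟨true,0,⟨0,
  [(40,0)]⟩,⟨0,[(39,0)]⟩⟩,⟨false,0,⟨3,[(0,0),(0,0),(2,2),(2,1),(1,1),(19,0),(8,0)]⟩,⟨4,[(3,2),(11,
  0),(3,1),(2,0),(2,4),(2,2),(9,0),(1,0)]⟩⟩,[.e ⟨false,1,⟨1,[(22,0),(18,0)]⟩,⟨0,[(1,0)]⟩⟩ ⟨false,0,
  ⟨0,[(0,0)]⟩,⟨5,[(15,1),(5,1),(3,5),(2,1),(6,0),(5,2)]⟩⟩,.o ⟨false,1,⟨0,[(26,0),(15,0)]⟩,⟨0,[(28,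
  0)]⟩⟩,.o ⟨false,1,⟨1,[(25,1),(9,0),(5,0)]⟩,⟨5,[(0,2),(3,1),(2,0),(6,1),(7,0),(1,0),(2,0),(0,1),(9,
  0)]⟩⟩,.a ⟨true,0,⟨0,[(25,0)]⟩,⟨0,[(24,0)]⟩⟩ ⟨false,1,⟨2,[(3,0),(4,0),(13,0),(15,0),(1,2)]⟩,⟨3,[(1,
  0),(2,0),(1,0),(0,0),(15,0),(1,0),(5,0)]⟩⟩ ⟨true,0,⟨0,[(0,0)]⟩,⟨0,[(25,0),(2,0)]⟩⟩]⟩) (.R ⟨1,
  false,false,false,[1,0,0,-1],[1,0,-1],[0,0,0,0,0,0,0,0,-1],(⟨0,[(24,0)]⟩,⟨0,[(25,0)]⟩),(⟨0,[(33,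
  0)]⟩,⟨0,[(34,0)]⟩),⟨0,[(2,0)]⟩,.k,.k,(.x (-1) ⟨7,[(16,3),(1,3),(3,2),(0,2),(11,1)]⟩ ⟨0,[(37,0)]⟩),
  .k,(.r (-1) ⟨7,[(0,2),(2,5),(7,2),(3,0),(6,0),(1,2),(3,2),(9,0),(1,3)]⟩ ⟨1,[(7,0),(15,0),(8,0)]⟩),
  .k,⟨false,1,⟨7,[(0,2),(2,5),(7,2),(3,0),(6,0),(1,2),(3,2),(9,0),(1,11)]⟩,⟨0,[(1,0),(30,0)]⟩⟩,
  ⟨true,0,⟨0,[(24,0),(2,0)]⟩,⟨0,[(19,0),(5,0)]⟩⟩,⟨false,1,⟨3,[(22,0),(0,0),(18,1)]⟩,⟨0,[]⟩⟩,⟨false,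
  0,⟨3,[(1,0),(2,2),(2,0),(1,0),(1,0),(1,1),(10,0),(4,0)]⟩,⟨1,[(0,1),(21,0),(18,0)]⟩⟩,⟨true,0,⟨0,
  [(40,0)]⟩,⟨0,[(39,0)]⟩⟩,⟨false,0,⟨7,[(1,0),(2,6),(2,4),(1,4),(1,0),(1,1),(10,0),(4,0)]⟩,⟨7,[(0,7),
  (2,3),(18,2),(0,0)]⟩⟩,[.a ⟨true,0,⟨1,[(7,0),(1,0),(3,0),(6,0)]⟩,⟨0,[(0,0),(23,0)]⟩⟩ ⟨false,1,⟨1,
  [(22,0),(18,0)]⟩,⟨0,[(1,0)]⟩⟩ ⟨true,0,⟨4,[(4,1),(2,0),(3,0),(1,0),(3,0),(4,0),(1,2),(1,0),(2,0)]⟩,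
  ⟨0,[(0,0)]⟩⟩,.o ⟨false,1,⟨0,[(26,0),(15,0)]⟩,⟨0,[(28,0)]⟩⟩,.o ⟨false,1,⟨1,[(25,1),(9,0),(5,0)]⟩,
  ⟨0,[(19,0),(4,0),(2,0)]⟩⟩,.e ⟨false,1,⟨2,[(3,0),(4,0),(13,0),(15,0),(1,2)]⟩,⟨3,[(1,0),(2,0),(1,0),
  (0,0),(15,0),(1,0),(5,0)]⟩⟩ ⟨false,1,⟨9,[(4,5),(0,3),(1,0),(5,1),(8,2),(1,3),(4,5),(2,0),(9,3)]⟩,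
  ⟨0,[(0,0)]⟩⟩]⟩)) (.Q [0,1,0,-1,0,0,0,0,0,-1] (.pp true [-1,1]) (.R ⟨1,false,false,false,[1,0,0,
  -1],[0,1],[0,1,0,0,0,0,0,0,-1],(⟨0,[(24,0)]⟩,⟨0,[(25,0)]⟩),(⟨0,[(37,0)]⟩,⟨0,[(36,0)]⟩),⟨0,[(2,
  0)]⟩,.k,.k,(.x (-1) ⟨7,[(16,3),(1,3),(3,2),(0,2),(11,1)]⟩ ⟨0,[(37,0)]⟩),(.x (-1) ⟨7,[(16,3),(1,3),
  (3,2),(0,2),(11,1)]⟩ ⟨0,[(37,0)]⟩),(.r (-1) ⟨0,[(1,0),(4,0),(0,0),(0,1),(11,0),(19,0)]⟩ ⟨1,[(7,1),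
  (7,0),(7,0),(20,0)]⟩),.k,⟨false,1,⟨1,[(1,0),(1,0),(37,0),(2,1)]⟩,⟨0,[(4,0),(20,0),(14,0)]⟩⟩,⟨true,
  0,⟨0,[(24,0)]⟩,⟨3,[(0,0),(6,0),(6,0),(10,3),(1,0),(7,0),(2,0)]⟩⟩,⟨true,0,⟨0,[(44,0)]⟩,⟨0,[]⟩⟩,
  ⟨false,0,⟨0,[(4,0),(19,0),(0,0),(14,0)]⟩,⟨1,[(1,0),(1,0),(21,1),(9,0)]⟩⟩,⟨false,0,⟨0,[(40,0)]⟩,
  ⟨15,[(6,3),(6,3),(6,3),(1,2),(0,2),(18,9)]⟩⟩,⟨false,0,⟨0,[(4,0),(19,0),(0,0),(14,1)]⟩,⟨5,[(0,3),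
  (2,3),(18,0),(2,5),(9,0),(2,1)]⟩⟩,[.o ⟨false,0,⟨0,[(40,0)]⟩,⟨15,[(6,3),(5,3),(9,2),(0,2),(11,5),
  (6,3)]⟩⟩,.o ⟨false,1,⟨3,[(22,0),(0,0),(16,3),(1,1)]⟩,⟨0,[(0,0)]⟩⟩,.o ⟨false,1,⟨1,[(25,1),(9,0),(5,
  0)]⟩,⟨5,[(0,1),(0,0),(2,2),(2,0),(14,0),(1,2),(2,0),(0,0)]⟩⟩,.a ⟨true,0,⟨0,[(25,0)]⟩,⟨0,[(24,
  0)]⟩⟩ ⟨false,1,⟨1,[(22,0),(18,0)]⟩,⟨0,[(4,0),(20,0)]⟩⟩ ⟨true,0,⟨0,[(24,0),(15,0)]⟩,⟨0,[(0,0),(24,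
  0)]⟩⟩]⟩) (.Q [0,1,0,-1,0,0,0,0,0,-1,0,1] (.p true [0,0,0,1] [1] (⟨0,[(25,0)]⟩,⟨0,[(24,0)]⟩) .k 1
  (⟨0,[]⟩,⟨0,[]⟩) .k .k) (.R ⟨1,false,false,false,[1,0,0,-1],[0,1],[0,1,0,0,0,0,0,0,-1],(⟨0,[(25,
  0)]⟩,⟨0,[(26,0)]⟩),(⟨0,[(38,0)]⟩,⟨0,[(37,0)]⟩),⟨0,[(3,0)]⟩,.k,.k,(.x (-1) ⟨7,[(17,3),(1,3),(3,2),
  (0,2),(11,1)]⟩ ⟨0,[(38,0)]⟩),(.x (-1) ⟨7,[(17,3),(1,3),(3,2),(0,2),(11,1)]⟩ ⟨0,[(38,0)]⟩),(.r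
  (-1) ⟨0,[(1,4),(0,0),(3,4),(0,5),(0,3),(5,1),(6,0)]⟩ ⟨1,[(8,1),(7,0),(7,0),(20,0)]⟩),.k,⟨false,1,
  ⟨1,[(2,0),(1,0),(37,0),(2,1)]⟩,⟨0,[(5,0),(20,0),(14,0)]⟩⟩,⟨true,0,⟨0,[(25,0)]⟩,⟨9,[(0,7),(7,3),(7,
  1),(9,1),(9,0),(2,1),(3,0)]⟩⟩,⟨true,0,⟨0,[(45,0)]⟩,⟨0,[]⟩⟩,⟨false,0,⟨5,[(1,3),(3,3),(2,0),(12,0),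
  (2,0),(0,1),(3,0),(11,0)]⟩,⟨3,[(0,1),(1,1),(6,1),(13,0),(2,1),(9,0)]⟩⟩,⟨false,0,⟨0,[(41,0)]⟩,⟨15,
  [(7,3),(6,3),(6,3),(1,2),(0,2),(18,9)]⟩⟩,⟨false,0,⟨5,[(1,3),(3,3),(2,0),(12,0),(2,0),(0,1),(3,0),
  (11,6)]⟩,⟨2,[(0,2),(3,0),(4,0),(13,0),(15,0)]⟩⟩,[.o ⟨false,0,⟨0,[(41,0)]⟩,⟨15,[(7,3),(5,3),(9,2),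
  (0,2),(11,5),(6,3)]⟩⟩,.e ⟨true,0,⟨0,[(2,0)]⟩,⟨3,[(5,1),(2,0),(6,0),(5,0),(2,0),(1,1)]⟩⟩ ⟨true,0,
  ⟨6,[(1,1),(3,1),(2,1),(7,0),(6,0),(1,4),(13,0),(1,0)]⟩,⟨0,[(0,0)]⟩⟩,.o ⟨false,1,⟨1,[(26,1),(9,0),
  (5,0)]⟩,⟨27,[(2,7),(2,9),(2,5),(4,1),(1,7),(7,0),(1,17),(2,5),(7,4)]⟩⟩,.a ⟨true,0,⟨0,[(26,0)]⟩,⟨0,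
  [(25,0)]⟩⟩ ⟨false,1,⟨1,[(23,0),(18,0)]⟩,⟨0,[(5,0),(20,0)]⟩⟩ ⟨true,0,⟨0,[(25,0),(15,0)]⟩,⟨0,[(0,
  0)]⟩⟩]⟩) (.R ⟨1,false,false,false,[1,0,0,-1],[0,1],[0,1,0,0,0,0,0,0,-1],(⟨0,[(25,0)]⟩,⟨0,[(26,
  0)]⟩),(⟨0,[(38,0)]⟩,⟨0,[(37,0)]⟩),⟨0,[(3,0)]⟩,.k,.k,(.x (-1) ⟨7,[(17,3),(1,3),(3,2),(0,2),(11,
  1)]⟩ ⟨0,[(38,0)]⟩),(.x (-1) ⟨7,[(17,3),(1,3),(3,2),(0,2),(11,1)]⟩ ⟨0,[(38,0)]⟩),(.r (-1) ⟨0,[(0,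
  4),(1,0),(3,4),(0,5),(0,3),(5,1),(6,0),(4,4)]⟩ ⟨1,[(8,1),(7,0),(7,0),(20,0)]⟩),.k,⟨false,1,⟨1,[(2,
  0),(1,0),(37,0),(2,1)]⟩,⟨0,[(5,0),(20,0),(14,0)]⟩⟩,⟨true,0,⟨0,[(25,0)]⟩,⟨0,[(20,0),(5,0),(1,0)]⟩⟩,
  ⟨true,0,⟨0,[(45,0)]⟩,⟨0,[]⟩⟩,⟨false,0,⟨4,[(0,0),(0,2),(3,2),(2,0),(12,0),(2,0),(0,0),(3,0)]⟩,⟨1,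
  [(2,0),(1,0),(21,1),(9,0)]⟩⟩,⟨false,0,⟨0,[(41,0)]⟩,⟨15,[(7,3),(6,3),(6,3),(1,2),(0,2),(18,9)]⟩⟩,
  ⟨false,0,⟨3,[(0,1),(0,1),(3,1),(2,0),(12,0),(2,0),(4,0),(11,2)]⟩,⟨4,[(2,1),(1,2),(2,0),(5,0),(12,
  4),(9,1),(2,0)]⟩⟩,[.o ⟨false,0,⟨0,[(41,0)]⟩,⟨15,[(7,3),(5,3),(9,2),(0,2),(11,5),(6,3)]⟩⟩,.a ⟨true,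
  0,⟨0,[(1,0)]⟩,⟨0,[(40,0)]⟩⟩ ⟨true,0,⟨0,[(2,0)]⟩,⟨3,[(5,1),(2,0),(6,0),(5,0),(2,0),(1,1)]⟩⟩ ⟨false,
  0,⟨0,[(0,0)]⟩,⟨15,[(4,1),(8,1),(1,7),(8,0),(1,15),(3,5),(5,6),(5,5)]⟩⟩,.o ⟨false,1,⟨1,[(26,1),(9,
  0),(5,0)]⟩,⟨27,[(2,7),(2,9),(2,5),(4,1),(1,7),(7,0),(1,17),(2,5),(7,4)]⟩⟩,.e ⟨false,1,⟨1,[(23,0),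
  (18,0)]⟩,⟨0,[(5,0),(20,0)]⟩⟩ ⟨false,0,⟨0,[(0,0)]⟩,⟨15,[(7,3),(5,3),(9,2),(0,2),(1,15),(9,5),(6,
  3)]⟩⟩]⟩)))) (.Q [0,1,0,-1,0,0,0,0,0,-1] (.pp true [-1,1]) (.R ⟨0,false,false,false,[1,0,0,-1],[0,
  1],[1,0,0,0,0,0,0,0,-1],(⟨0,[(23,0)]⟩,⟨0,[(24,0)]⟩),(⟨0,[(36,0)]⟩,⟨0,[(35,0)]⟩),⟨0,[(1,0)]⟩,.k,.k,
  (.r (-1) ⟨7,[(2,3),(18,2),(0,0)]⟩ ⟨3,[(3,1),(2,0),(12,0),(2,0),(1,1),(2,0),(11,2)]⟩),(.r (-1) ⟨7,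
  [(2,3),(18,2),(0,0)]⟩ ⟨3,[(3,1),(2,0),(12,0),(2,0),(1,1),(2,0),(11,2)]⟩),.k,.k,⟨false,1,⟨0,[(2,0),
  (36,0)]⟩,⟨3,[(3,1),(2,0),(12,0),(2,0),(1,1),(2,0),(11,2)]⟩⟩,⟨true,0,⟨0,[(23,0)]⟩,⟨3,[(0,0),(5,0),
  (6,0),(10,3),(1,0),(7,0),(2,0)]⟩⟩,⟨true,0,⟨0,[]⟩,⟨0,[(43,0)]⟩⟩,⟨false,0,⟨0,[(3,0),(19,0),(0,0),
  (14,0)]⟩,⟨3,[(1,3),(0,1),(12,1),(1,1),(3,0),(12,0)]⟩⟩,⟨false,0,⟨0,[]⟩,⟨0,[]⟩⟩,⟨false,0,⟨0,[]⟩,⟨0,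
  []⟩⟩,[.o ⟨false,0,⟨0,[(39,0)]⟩,⟨15,[(5,3),(5,3),(9,2),(0,2),(11,5),(6,3)]⟩⟩,.o ⟨false,1,⟨3,[(21,
  0),(0,0),(16,3),(1,1)]⟩,⟨0,[(0,0)]⟩⟩,.o ⟨false,1,⟨1,[(24,1),(9,0),(5,0)]⟩,⟨9,[(0,3),(2,1),(2,1),
  (14,0),(1,7),(2,1),(0,1),(6,0),(2,1)]⟩⟩,.a ⟨true,0,⟨0,[(24,0)]⟩,⟨0,[(23,0)]⟩⟩ ⟨false,1,⟨2,[(2,0),
  (4,0),(13,0),(15,0),(1,2)]⟩,⟨3,[(3,1),(2,0),(6,0),(5,0),(2,0),(1,1)]⟩⟩ ⟨true,0,⟨0,[(23,0),(15,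
  0)]⟩,⟨0,[(0,0),(23,0)]⟩⟩]⟩) (.Q [0,0,0,0,0,2,0,0,0,0,-1] (.p false [0,0,1] [] (⟨0,[(33,0)]⟩,⟨0,
  [(32,0)]⟩) .k 0 (⟨0,[]⟩,⟨0,[]⟩) .k .k) (.R ⟨0,false,false,true,[0,-1,1],[1,-1],[1],(⟨0,[(18,0)]⟩,
  ⟨5,[(0,2),(0,1),(18,1),(0,0),(11,2)]⟩),(⟨0,[(36,0)]⟩,⟨0,[(37,0)]⟩),⟨0,[(0,0)]⟩,.k,.k,(.r (-2) ⟨43,
  [(3,35),(5,7),(4,11),(0,15),(4,3),(1,4),(0,22)]⟩ ⟨0,[(7,0)]⟩),.k,.k,.k,⟨true,0,⟨4,[(7,1),(7,0),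
  (22,0),(1,0),(1,0)]⟩,⟨0,[(39,0)]⟩⟩,⟨false,1,⟨4,[(9,2),(1,0),(23,1)]⟩,⟨2,[(1,0),(18,0),(0,1)]⟩⟩,
  ⟨false,0,⟨1,[(7,0),(24,0),(9,0)]⟩,⟨13,[(3,3),(2,0),(2,2),(4,2),(0,4),(4,0),(2,1)]⟩⟩,⟨true,0,⟨0,
  [(26,0)]⟩,⟨0,[(1,0),(12,0)]⟩⟩,⟨false,0,⟨0,[]⟩,⟨0,[]⟩⟩,⟨false,0,⟨0,[]⟩,⟨0,[]⟩⟩,[.a ⟨true,0,⟨0,[(39,
  0)]⟩,⟨0,[(1,0)]⟩⟩ ⟨true,0,⟨0,[]⟩,⟨1,[(30,0),(0,0)]⟩⟩ ⟨false,1,⟨1,[(5,0),(3,0),(4,0),(2,0)]⟩,⟨0,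
  [(1,0),(28,0)]⟩⟩,.o ⟨false,1,⟨15,[(6,3),(5,3),(9,2),(0,2),(11,5),(6,3)]⟩,⟨0,[(40,0)]⟩⟩,.o ⟨false,
  0,⟨0,[(30,0)]⟩,⟨4,[(9,2),(1,0),(23,1)]⟩⟩,.o ⟨false,0,⟨1,[(30,2),(0,0)]⟩,⟨0,[(5,0)]⟩⟩]⟩) (.I [0,0,
  0,0,0,0,0,0,-1] (.R ⟨0,false,false,false,[1,0,0,-1],[0,1],[0,1,0,0,0,0,0,0,-1],(⟨0,[(25,0)]⟩,⟨0,
  [(26,0)]⟩),(⟨0,[(38,0)]⟩,⟨0,[(37,0)]⟩),⟨0,[(3,0)]⟩,.k,.k,(.r (-1) ⟨7,[(4,3),(18,2),(0,0)]⟩ ⟨3,[(5,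
  1),(2,0),(12,0),(2,0),(1,1),(2,0),(11,2)]⟩),(.r (-1) ⟨7,[(4,3),(18,2),(0,0)]⟩ ⟨3,[(5,1),(2,0),(12,
  0),(2,0),(1,1),(2,0),(11,2)]⟩),.k,.k,⟨false,1,⟨1,[(0,0),(3,0),(37,0),(2,1)]⟩,⟨0,[(5,0),(20,0),(14,
  0)]⟩⟩,⟨true,0,⟨0,[(25,0)]⟩,⟨13,[(1,0),(1,2),(3,3),(0,3),(8,0),(8,10),(1,3),(7,3),(2,1)]⟩⟩,⟨true,0,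
  ⟨0,[(45,0)]⟩,⟨0,[]⟩⟩,⟨false,0,⟨5,[(2,3),(2,3),(2,0),(12,0),(2,0),(0,1),(3,0),(11,0)]⟩,⟨1,[(0,0),
  (3,0),(21,1),(9,0)]⟩⟩,⟨false,0,⟨0,[]⟩,⟨0,[]⟩⟩,⟨false,0,⟨0,[]⟩,⟨0,[]⟩⟩,[.o ⟨false,0,⟨0,[(41,0)]⟩,
  ⟨15,[(7,3),(5,3),(9,2),(0,2),(11,5),(6,3)]⟩⟩,.e ⟨true,0,⟨0,[(0,0)]⟩,⟨3,[(5,1),(2,0),(6,0),(5,0),
  (2,0),(1,1)]⟩⟩ ⟨true,0,⟨6,[(0,0),(1,2),(2,2),(2,1),(7,0),(6,0),(1,3)]⟩,⟨3,[(1,0),(1,2),(11,1),(1,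
  0),(0,1),(7,0)]⟩⟩,.o ⟨false,1,⟨1,[(26,1),(9,0),(5,0)]⟩,⟨27,[(0,7),(4,9),(2,5),(4,1),(1,7),(7,0),
  (1,17),(2,5),(7,4)]⟩⟩,.a ⟨true,0,⟨0,[(26,0)]⟩,⟨0,[(25,0)]⟩⟩ ⟨false,1,⟨1,[(23,0),(18,0)]⟩,⟨0,[(5,
  0),(20,0)]⟩⟩ ⟨true,0,⟨0,[(25,0),(15,0)]⟩,⟨3,[(1,0),(1,2),(11,1),(1,0),(0,1),(7,0)]⟩⟩]⟩) (.I [1,1,
  -1,-1,0,0,0,-1] (.R ⟨2,false,false,false,[0,1],[0,1,1],[1,1,1],(⟨0,[]⟩,⟨0,[]⟩),(⟨0,[(36,0),(2,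
  0)]⟩,⟨0,[(18,0)]⟩),⟨0,[]⟩,.k,.k,.k,.k,.k,.k,⟨false,0,⟨0,[(0,0)]⟩,⟨7,[(17,3),(6,0),(0,0),(16,7),(1,
  1)]⟩⟩,⟨true,0,⟨0,[(21,0)]⟩,⟨0,[(33,0)]⟩⟩,⟨true,0,⟨0,[(41,0)]⟩,⟨0,[(42,0)]⟩⟩,⟨false,1,⟨3,[(17,1),
  (5,1),(13,0),(6,0)]⟩,⟨6,[(0,1),(2,1),(5,0),(1,0),(1,1),(1,1),(15,1)]⟩⟩,⟨false,0,⟨0,[]⟩,⟨3,[(24,0),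
  (0,0),(18,1)]⟩⟩,⟨false,1,⟨3,[(17,1),(5,1),(13,0),(4,3),(1,0)]⟩,⟨4,[(0,0),(2,0),(9,0),(1,2),(6,1),
  (8,0)]⟩⟩,[.a ⟨true,0,⟨0,[(3,0),(26,0)]⟩,⟨4,[(0,0),(2,0),(9,0),(1,2),(6,1),(8,0)]⟩⟩ ⟨false,0,⟨0,
  [(46,0)]⟩,⟨1,[(43,0),(0,0)]⟩⟩ ⟨true,0,⟨1,[(9,0),(7,0),(3,0),(8,0)]⟩,⟨4,[(0,0),(2,0),(9,0),(1,2),
  (6,1),(8,0)]⟩⟩,.o ⟨false,1,⟨3,[(17,1),(5,1),(13,0),(4,3),(1,0)]⟩,⟨0,[(19,0)]⟩⟩,.o ⟨false,1,⟨3,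
  [(24,0),(0,0),(17,1)]⟩,⟨0,[(21,0),(7,0)]⟩⟩,.e ⟨false,0,⟨0,[]⟩,⟨3,[(24,0),(0,0),(18,1)]⟩⟩ ⟨false,1,
  ⟨3,[(17,1),(5,1),(13,0),(4,3),(1,0)]⟩,⟨4,[(0,0),(2,0),(9,0),(1,2),(6,1),(8,0)]⟩⟩]⟩) (.R ⟨1,false,
  false,false,[0,0,0,1],[0,-1,1],[1,1,0,-1,0,0,0,0,1],(⟨0,[(27,0)]⟩,⟨0,[(26,0)]⟩),(⟨0,[(20,0)]⟩,⟨0,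
  [(35,0),(3,0)]⟩),⟨1,[(2,0),(1,0),(13,0),(8,0)]⟩,.k,.k,(.r (-1) ⟨1,[(10,0),(14,0),(15,0)]⟩ ⟨3,[(0,
  1),(4,1),(3,2),(12,0),(1,0),(5,0),(11,0)]⟩),(.r 0 ⟨1,[(9,0),(15,0),(8,0)]⟩ ⟨16,[(0,8),(4,10),(5,
  1),(5,0),(4,3),(1,2),(5,5)]⟩),.k,.k,⟨false,0,⟨1,[(1,1),(21,0),(4,0),(2,0)]⟩,⟨0,[(0,0),(4,0),(36,
  0)]⟩⟩,⟨true,0,⟨0,[(21,0),(5,0)]⟩,⟨0,[(26,0),(2,0)]⟩⟩,⟨true,0,⟨0,[(41,0)]⟩,⟨0,[(42,0)]⟩⟩,⟨false,1,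
  ⟨0,[(0,0),(4,0),(15,0),(5,0)]⟩,⟨9,[(1,0),(4,4),(0,2),(1,4),(3,0),(11,1),(0,4),(1,0),(2,3)]⟩⟩,
  ⟨false,0,⟨0,[]⟩,⟨3,[(24,0),(0,0),(18,1)]⟩⟩,⟨false,1,⟨0,[(0,0),(4,0),(15,0),(5,0),(14,0)]⟩,⟨0,[(6,
  0),(24,0)]⟩⟩,[.a ⟨true,0,⟨0,[(3,0),(4,0)]⟩,⟨3,[(9,2),(1,2),(3,0),(6,0)]⟩⟩ ⟨true,0,⟨0,[(1,0),(39,
  0)]⟩,⟨0,[(0,0),(4,0),(3,0)]⟩⟩ ⟨false,1,⟨0,[(10,0),(16,0),(2,0)]⟩,⟨40,[(6,17),(0,11),(1,20),(3,4),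
  (1,0),(8,8),(1,22),(1,5),(2,12)]⟩⟩,.o ⟨false,1,⟨7,[(8,3),(8,1),(5,1),(13,0),(6,4)]⟩,⟨1,[(7,0),(1,
  0),(18,0),(17,0)]⟩⟩,.o ⟨false,0,⟨0,[(21,0),(4,0),(2,0)]⟩,⟨1,[(27,1),(9,0),(5,0)]⟩⟩,.o ⟨false,0,⟨4,
  [(6,3),(2,1),(6,1),(7,1),(1,0),(2,0),(3,0),(7,1)]⟩,⟨0,[(7,0),(13,0),(5,0)]⟩⟩]⟩))))))))))

theorem ok77 : chk (cU (-1) true 10) t77 l46 = true := by decide +kernel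

noncomputable def t81 : Tre :=
  (.K ⟨0,[1,1,-1],1,0,(⟨1,[(0,0),(0,0),(26,0)]⟩,⟨0,[(13,0)]⟩),.k,.k,(.x (-1) ⟨0,[(1,0)]⟩ ⟨1,[(11,0),
  (1,2),(8,0),(2,2)]⟩),.k,.k,[⟨0,[(0,0)]⟩,⟨0,[(4,0)]⟩,⟨2,[(0,0),(0,0),(7,2),(19,0),(1,1)]⟩,⟨0,[(21,
  0),(13,0)]⟩]⟩)

theorem ok81 : chk (cU (-1) true 10) t81 r48 = true := by decide +kernel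

end Helper11.CT.T1_34_m1_m1_u
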