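import Pool.Agent.Helper11.CT.Cfg
import Pool.Agent.Helper11.CT.Cut

set_option autoImplicit false
set_option linter.all false

namespace Helper11.CT.T1_3_m1_1_v2

open Helper11.CT

noncomputable def base : List Con :=
  [(false,[0,0,0,0,0,-2,0,0,2,-2]),
  (false,[0,0,0,0,0,0,0,0,0,1]),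
  (false,[0,1,0,0,0,-1,-1,0,1,-2]),
  (false,[0,0,1,0,0,-1,0,0,1,-2]),
  (false,[0,1,0,0,0,1,1,0,-1]),
  (false,[0,1,0,0,0,-1,-1,0,1]),
  (false,[0,0,1,0,0,1,0,0,-1]),
  (false,[0,0,1,0,0,-1,0,0,1]),
  (true,[0,0,0,0,0,0,1]),
  (false,[0,0,0,0,0,0,0,0,-1,2]),
  (false,[0,0,0,0,0,0,0,0,1]),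
  (false,[0,0,0,0,0,0,0,2,0,-4]),
  (false,[0,0,0,0,-1,0,0,0,0,2]),
  (true,[0,0,0,0,1]),
  (true,[1,-1,1]),
  (true,[0,1,0,-1]),
  (true,[0,0,0,1]),
  (true,[0,0,-2,0,0,0,0,2]),
  (true,[0,-2,0,0,0,0,0,2]),
  (true,[-1,0,1]),
  (true,[-1,1])]

noncomputable def t0 : Tre :=
  (.I [1,1,1,1,0,0,0,-2] (.Q [0,1,0,0,0,0,0,-1,0,1] (.p true [0,0,0,1] [] (⟨0,[(2,0)]⟩,⟨0,[(2,0)]⟩)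
  .k 0 (⟨0,[]⟩,⟨0,[]⟩) .k .k) (.K ⟨1,[0,0,0,1],0,0,(⟨0,[(3,0)]⟩,⟨0,[(3,0)]⟩),.k,(.r (-1) ⟨1,[(17,1),
  (1,0),(0,1),(1,1)]⟩ ⟨1,[(1,1),(18,0)]⟩),(.r 1 ⟨1,[(1,1),(18,0)]⟩ ⟨1,[(17,1),(1,0),(0,1),(1,1)]⟩),
  .k,.k,[⟨1,[(8,0),(0,0),(1,0),(0,0)]⟩,⟨1,[(5,0),(2,0)]⟩,⟨0,[(0,0)]⟩,⟨1,[(11,0),(0,0),(7,0)]⟩]⟩)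
  (.R ⟨2,true,false,false,[0,1],[0,0,0,1],[1,0,1],(⟨0,[]⟩,⟨0,[]⟩),(⟨0,[(3,0)]⟩,⟨0,[(3,0)]⟩),⟨0,[]⟩,
  .k,.k,.k,(.r 0 ⟨1,[(1,1),(18,0)]⟩ ⟨1,[(17,1),(1,0),(0,1),(1,1)]⟩),.k,.k,⟨false,1,⟨1,[(20,0),(1,
  1)]⟩,⟨1,[(19,0)]⟩⟩,⟨true,0,⟨1,[(5,0),(2,0)]⟩,⟨0,[(3,0)]⟩⟩,⟨false,1,⟨0,[(17,0),(2,0)]⟩,⟨0,[(18,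
  0)]⟩⟩,⟨true,0,⟨0,[(0,0),(16,0)]⟩,⟨1,[(1,1),(9,0),(0,0),(6,0)]⟩⟩,⟨true,0,⟨0,[]⟩,⟨0,[(22,0)]⟩⟩,
  ⟨false,0,⟨0,[(0,0)]⟩,⟨1,[(11,0),(0,0),(7,0),(1,1)]⟩⟩,[]⟩)) (.I [1,0,-1,0,0,0,1] (.Q [0,0,0,0,1,0,
  0,0,0,-1] (.p false [0,0,0,1] [] (⟨0,[(3,0)]⟩,⟨0,[(3,0)]⟩) .k 0 (⟨0,[]⟩,⟨0,[]⟩) .k .k) (.R ⟨0,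
  false,false,true,[0,0,0,1],[1,0,-1],[1,0,0,0,0,0,0,1],(⟨0,[(4,0)]⟩,⟨0,[(4,0)]⟩),(⟨0,[(12,0)]⟩,⟨0,
  [(13,0)]⟩),⟨0,[(0,0)]⟩,.k,.k,(.x 0 ⟨0,[(1,0),(3,0),(3,0),(5,0),(1,0)]⟩ ⟨1,[(16,1),(3,0),(0,0),(1,
  1)]⟩),.k,.k,.k,⟨false,0,⟨1,[(1,1),(19,0)]⟩,⟨1,[(8,1),(0,1),(10,0)]⟩⟩,⟨true,0,⟨1,[(3,0)]⟩,⟨1,[(9,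
  1),(2,0),(0,0)]⟩⟩,⟨true,0,⟨0,[]⟩,⟨0,[(23,0)]⟩⟩,⟨false,1,⟨1,[(5,0),(2,0),(12,0)]⟩,⟨1,[(1,1),(7,1),
  (2,0),(0,0),(7,0)]⟩⟩,⟨false,0,⟨0,[]⟩,⟨0,[]⟩⟩,⟨false,0,⟨0,[]⟩,⟨0,[]⟩⟩,[.o ⟨false,0,⟨0,[(5,0)]⟩,⟨0,
  [(7,0),(13,0)]⟩⟩,.o ⟨false,1,⟨1,[(8,1),(5,0),(6,0)]⟩,⟨0,[(1,0),(7,0)]⟩⟩,.a ⟨true,0,⟨0,[(4,0)]⟩,⟨0,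
  [(4,0)]⟩⟩ ⟨false,0,⟨1,[(21,0)]⟩,⟨1,[(21,0),(1,1)]⟩⟩ ⟨true,0,⟨1,[(5,0),(2,0)]⟩,⟨1,[(1,1),(7,1),(2,
  0),(0,0)]⟩⟩,.o ⟨false,0,⟨1,[(6,0),(2,0)]⟩,⟨3,[(14,0),(5,1),(0,0),(1,1)]⟩⟩]⟩) (.Q [0,0,0,-2,0,0,0,
  1,0,-1] (.p false [0,0,0,1] [] (⟨0,[(4,0)]⟩,⟨0,[(4,0)]⟩) .k 0 (⟨0,[]⟩,⟨0,[]⟩) .k .k) (.Q [0,-1,0,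
  -1,0,1,1,1,-1,1] (.p false [0,0,1] [0,0,0,1] (⟨0,[(14,0)]⟩,⟨0,[(13,0)]⟩) .k 2 (⟨0,[(5,0)]⟩,⟨0,[(5,
  0)]⟩) .k (.x (-1) ⟨1,[(10,1),(3,1),(6,0),(0,0),(1,1)]⟩ ⟨0,[(2,0),(3,0),(6,0),(4,0)]⟩)) (.R ⟨1,
  false,false,true,[0,0,0,1],[1,0,-1],[0,0,0,0,0,0,0,1],(⟨0,[(6,0)]⟩,⟨0,[(6,0)]⟩),(⟨0,[(14,0)]⟩,⟨0,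
  [(15,0)]⟩),⟨0,[(2,0)]⟩,.k,.k,(.x 0 ⟨1,[(2,1),(5,0),(2,0)]⟩ ⟨1,[(18,1),(3,0),(0,0),(1,1)]⟩),.k,(.r
  0 ⟨3,[(0,1),(2,1),(1,0),(14,1),(1,0)]⟩ ⟨1,[(10,1),(0,1),(9,1),(1,0)]⟩),.k,⟨false,0,⟨1,[(3,1),(19,
  0)]⟩,⟨1,[(10,1),(0,1),(10,0)]⟩⟩,⟨true,0,⟨1,[(5,0)]⟩,⟨1,[(11,1),(2,0),(0,0)]⟩⟩,⟨false,1,⟨0,[(23,0),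
  (1,0)]⟩,⟨0,[]⟩⟩,⟨false,1,⟨1,[(7,0),(2,0),(12,0)]⟩,⟨0,[(0,0),(20,0)]⟩⟩,⟨true,0,⟨0,[(21,0)]⟩,⟨0,
  [(20,0)]⟩⟩,⟨false,1,⟨1,[(7,0),(2,0),(10,1),(1,0)]⟩,⟨0,[(0,0)]⟩⟩,[.o ⟨false,0,⟨0,[(7,0)]⟩,⟨0,[(9,
  0),(13,0)]⟩⟩,.o ⟨false,1,⟨1,[(10,1),(5,0),(6,0)]⟩,⟨0,[(3,0),(7,0)]⟩⟩,.a ⟨true,0,⟨0,[(6,0)]⟩,⟨0,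
  [(6,0)]⟩⟩ ⟨false,0,⟨1,[(23,0)]⟩,⟨1,[(23,0),(1,1)]⟩⟩ ⟨true,0,⟨1,[(7,0),(2,0)]⟩,⟨1,[(3,1),(7,1),(2,
  0),(0,0)]⟩⟩,.o ⟨false,0,⟨1,[(8,0),(2,0)]⟩,⟨3,[(16,0),(5,1),(0,0),(1,1)]⟩⟩]⟩) (.R ⟨1,true,false,
  true,[0,0,0,1],[1,0,-1],[1,1,0,-1,0,0,0,1],(⟨0,[(6,0)]⟩,⟨0,[(6,0)]⟩),(⟨0,[(14,0)]⟩,⟨0,[(15,0)]⟩),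
  ⟨0,[(2,0)]⟩,.k,.k,(.x 0 ⟨1,[(2,1),(5,0),(2,0)]⟩ ⟨1,[(18,1),(3,0),(0,0),(1,1)]⟩),.k,(.r 0 ⟨1,[(3,
  0),(0,0),(8,0),(6,0)]⟩ ⟨1,[(10,1),(0,1),(9,1),(1,0)]⟩),.k,⟨false,0,⟨1,[(3,0),(0,0),(8,0),(6,0)]⟩,
  ⟨1,[(0,1),(10,1),(2,0),(0,0),(6,0),(0,0)]⟩⟩,⟨true,0,⟨1,[(5,0)]⟩,⟨1,[(11,1),(2,0),(0,0)]⟩⟩,⟨true,0,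
  ⟨0,[(20,0)]⟩,⟨0,[(21,0)]⟩⟩,⟨false,1,⟨1,[(7,0),(2,0),(12,0)]⟩,⟨1,[(3,1),(7,1),(2,0),(0,0),(7,0)]⟩⟩,
  ⟨false,0,⟨0,[]⟩,⟨0,[(23,0),(1,0)]⟩⟩,⟨true,0,⟨0,[(0,0)]⟩,⟨2,[(1,0),(1,0),(0,0),(4,0),(1,1),(1,0),
  (0,1),(0,1)]⟩⟩,[]⟩)) (.I [0,0,-1,0,0,0,-1,2] (.Q [0,0,0,1,0,-1,-1,0,1] (.p true [0,0,1] [] (⟨0,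
  [(15,0)]⟩,⟨0,[(14,0)]⟩) .k 0 (⟨0,[]⟩,⟨0,[]⟩) .k .k) (.R ⟨2,true,false,true,[0,1],[0,0,1],[1,0,1],
  (⟨0,[]⟩,⟨0,[]⟩),(⟨0,[(16,0)]⟩,⟨0,[(15,0)]⟩),⟨0,[]⟩,.k,.k,.k,.k,.k,.k,⟨false,1,⟨0,[(1,0),(18,0)]⟩,
  ⟨0,[(4,0),(21,0)]⟩⟩,⟨true,0,⟨0,[(12,0)]⟩,⟨1,[(6,0),(8,0),(0,0)]⟩⟩,⟨false,1,⟨0,[(21,0),(2,0)]⟩,⟨0,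
  [(22,0)]⟩⟩,⟨true,0,⟨0,[(4,0),(7,0),(8,0)]⟩,⟨0,[(0,0)]⟩⟩,⟨true,0,⟨0,[]⟩,⟨0,[(26,0)]⟩⟩,⟨false,0,⟨0,
  [(4,0),(7,0)]⟩,⟨0,[(11,0),(12,0)]⟩⟩,[]⟩) (.R ⟨2,true,false,false,[0,1],[0,0,0,1],[1,0,1],(⟨0,[]⟩,
  ⟨0,[]⟩),(⟨0,[(7,0)]⟩,⟨0,[(7,0)]⟩),⟨0,[]⟩,.k,.k,.k,(.r 0 ⟨1,[(0,0),(1,1),(5,0),(11,1),(0,0)]⟩ ⟨9,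
  [(1,5),(3,7),(4,5),(2,5),(7,1),(1,0)]⟩),.k,.k,⟨false,1,⟨5,[(1,1),(8,1),(2,1),(10,0)]⟩,⟨1,[(23,
  0)]⟩⟩,⟨true,0,⟨1,[(9,0),(2,0)]⟩,⟨0,[(7,0)]⟩⟩,⟨false,1,⟨0,[(21,0),(2,0)]⟩,⟨0,[(22,0)]⟩⟩,⟨true,0,⟨5,
  [(0,0),(4,1),(2,0),(8,0),(2,1),(0,2)]⟩,⟨0,[(2,0),(18,0)]⟩⟩,⟨true,0,⟨0,[]⟩,⟨0,[(26,0)]⟩⟩,⟨false,0,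
  ⟨0,[(0,0),(1,0),(2,0),(2,0),(11,0)]⟩,⟨5,[(1,1),(8,1),(2,1),(1,2),(0,2),(7,0)]⟩⟩,[]⟩)) (.R ⟨2,true,
  false,true,[0,1],[1,0,-1],[1,1,1],(⟨0,[]⟩,⟨0,[]⟩),(⟨0,[(14,0)]⟩,⟨0,[(15,0)]⟩),⟨0,[]⟩,.k,.k,.k,.k,
  .k,.k,⟨true,(-1),⟨0,[(0,0)]⟩,⟨1,[(10,1),(0,1),(10,0),(0,0)]⟩⟩,⟨false,0,⟨1,[(0,0),(2,0),(3,1),(15,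
  0)]⟩,⟨0,[(11,0),(2,0),(0,0),(6,0)]⟩⟩,⟨true,0,⟨0,[(20,0)]⟩,⟨0,[(21,0)]⟩⟩,⟨false,1,⟨0,[(7,0),(12,0),
  (2,0)]⟩,⟨1,[(0,0),(0,1),(1,0),(0,1),(6,1),(2,0),(0,0)]⟩⟩,⟨false,0,⟨0,[]⟩,⟨0,[(23,0),(1,0)]⟩⟩,
  ⟨true,0,⟨0,[(7,0)]⟩,⟨0,[(3,0),(7,0),(2,0),(0,0)]⟩⟩,[]⟩)))) (.Q [0,0,0,0,1,0,0,0,1,-2] (.ed false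
  [0,1,1] .k) (.Q [0,0,0,0,0,1,0,0,-1,2] (.p false [0,0,1] [1] (⟨0,[(13,0)]⟩,⟨0,[(12,0)]⟩) .k 1 (⟨0,
  []⟩,⟨0,[]⟩) .k .k) (.Q [0,-1,0,1,0,1,1,0,-1,2] (.p false [0,0,1] [1] (⟨0,[(14,0)]⟩,⟨0,[(13,0)]⟩)
  .k 1 (⟨0,[]⟩,⟨0,[]⟩) .k .k) (.R ⟨2,true,false,true,[0,1],[1,0,-1],[1,1,1],(⟨0,[]⟩,⟨0,[]⟩),(⟨0,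
  [(14,0)]⟩,⟨0,[(15,0)]⟩),⟨0,[]⟩,.k,.k,.k,.k,.k,.k,⟨false,0,⟨0,[(13,0)]⟩,⟨0,[(3,0),(18,0)]⟩⟩,⟨true,
  0,⟨0,[(8,0)]⟩,⟨0,[(1,0)]⟩⟩,⟨true,0,⟨0,[(20,0)]⟩,⟨0,[(21,0)]⟩⟩,⟨false,1,⟨4,[(3,1),(0,3),(2,0),(0,
  1),(1,1),(5,0),(3,0)]⟩,⟨0,[(0,0)]⟩⟩,⟨false,0,⟨0,[]⟩,⟨0,[(23,0),(1,0)]⟩⟩,⟨true,0,⟨0,[(7,0)]⟩,⟨0,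
  [(0,0),(19,0)]⟩⟩,[]⟩) (.I [0,-1,-1,0,0,0,-1,2] (.R ⟨0,false,false,false,[1,0,-1],[0,1],[1,1,1],
  (⟨0,[(15,0)]⟩,⟨0,[(16,0)]⟩),(⟨0,[(19,0)]⟩,⟨0,[(18,0)]⟩),⟨0,[(3,0)]⟩,.k,.k,.k,.k,.k,.k,⟨true,0,⟨0,
  [(21,0)]⟩,⟨0,[(20,0),(1,0)]⟩⟩,⟨false,1,⟨0,[(2,0),(20,0)]⟩,⟨0,[(9,0)]⟩⟩,⟨false,0,⟨1,[(12,0),(0,0),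
  (0,1)]⟩,⟨0,[(0,0)]⟩⟩,⟨true,0,⟨0,[(2,0),(11,0),(7,0)]⟩,⟨0,[(1,0)]⟩⟩,⟨false,0,⟨0,[]⟩,⟨0,[]⟩⟩,⟨false,
  0,⟨0,[]⟩,⟨0,[]⟩⟩,[.o ⟨false,0,⟨0,[(22,0)]⟩,⟨1,[(17,0),(3,1),(2,0)]⟩⟩,.e ⟨false,0,⟨0,[]⟩,⟨1,[(23,
  0),(0,0),(1,1)]⟩⟩ ⟨false,1,⟨1,[(2,1),(19,1),(0,0),(0,0)]⟩,⟨0,[(1,0),(12,0)]⟩⟩,.a ⟨true,0,⟨1,[(6,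
  0),(8,0),(0,0)]⟩,⟨0,[(2,0)]⟩⟩ ⟨false,0,⟨1,[(12,0),(0,0)]⟩,⟨1,[(23,0),(0,0)]⟩⟩ ⟨true,0,⟨0,[(2,0),
  (19,0)]⟩,⟨0,[(1,0),(12,0)]⟩⟩,.o ⟨false,0,⟨0,[(9,0)]⟩,⟨1,[(2,1),(14,0),(5,0)]⟩⟩]⟩) (.Q [0,0,-1,0,0,
  1,0,0,-1,4] (.p false [-1,1,1] [1] (⟨0,[(3,0)]⟩,⟨0,[(15,0),(2,0)]⟩) .k 1 (⟨0,[]⟩,⟨0,[]⟩) .k .k)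
  (.K ⟨1,[-1,1,1],0,0,(⟨0,[(4,0)]⟩,⟨0,[(16,0),(2,0)]⟩),.k,.k,(.r 1 ⟨0,[(1,0),(19,0),(1,1)]⟩ ⟨0,[(5,
  0),(0,0),(15,0),(1,0)]⟩),.k,.k,[⟨1,[(10,1),(2,0),(0,0)]⟩,⟨0,[(3,0)]⟩,⟨0,[(2,0)]⟩,⟨0,[(0,0),(14,0),
  (5,0),(1,0)]⟩]⟩) (.K ⟨2,[-1,1,1],0,0,(⟨0,[(4,0)]⟩,⟨0,[(16,0),(2,0)]⟩),.k,.k,(.r 1 ⟨0,[(1,0),(19,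
  0),(1,1)]⟩ ⟨0,[(5,0),(0,0),(15,0),(1,0)]⟩),.k,.k,[⟨1,[(0,0),(12,0)]⟩,⟨0,[(3,0)]⟩,⟨0,[(2,0)]⟩,⟨0,
  [(3,0),(11,0),(7,0),(3,0)]⟩]⟩)))) (.Q [0,0,0,0,0,1,1,0,-1,2] (.p false [0,0,1] [1] (⟨0,[(14,0)]⟩,
  ⟨0,[(13,0)]⟩) .k 1 (⟨0,[]⟩,⟨0,[]⟩) .k .k) (.Q [0,0,0,0,0,1,0,0,-1,4] (.p false [-1,1,1] [1] (⟨0,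
  [(2,0)]⟩,⟨0,[(14,0),(2,0)]⟩) .k 1 (⟨0,[]⟩,⟨0,[]⟩) .k .k) (.R ⟨0,false,false,true,[-1,1,1],[0,1],
  [1,0,1],(⟨0,[(3,0)]⟩,⟨0,[(15,0),(2,0)]⟩),(⟨0,[(19,0)]⟩,⟨0,[(18,0)]⟩),⟨0,[(15,0)]⟩,.k,.k,.k,.k,.k,
  .k,⟨false,1,⟨0,[(5,0)]⟩,⟨0,[(22,0),(3,0)]⟩⟩,⟨true,0,⟨0,[(2,0)]⟩,⟨3,[(0,1),(11,2),(0,0)]⟩⟩,⟨false,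
  1,⟨0,[(4,0),(0,0)]⟩,⟨0,[(14,0),(7,0)]⟩⟩,⟨true,0,⟨0,[(8,0)]⟩,⟨0,[(1,0)]⟩⟩,⟨false,0,⟨0,[]⟩,⟨0,[]⟩⟩,
  ⟨false,0,⟨0,[]⟩,⟨0,[]⟩⟩,[.o ⟨false,0,⟨0,[(22,0),(3,0)]⟩,⟨0,[(2,0),(2,0),(6,0)]⟩⟩,.o ⟨false,0,⟨0,
  [(22,0)]⟩,⟨1,[(17,0),(3,1),(2,0)]⟩⟩,.o ⟨false,1,⟨1,[(0,1),(16,0),(5,0)]⟩,⟨0,[(2,1),(9,0)]⟩⟩,.a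
  ⟨true,0,⟨0,[(0,0)]⟩,⟨0,[(2,0)]⟩⟩ ⟨true,0,⟨0,[]⟩,⟨0,[(26,0)]⟩⟩ ⟨false,0,⟨0,[(2,0),(19,0)]⟩,⟨1,[(0,
  0),(4,0),(6,0),(8,0),(2,0)]⟩⟩]⟩) (.Q [0,0,0,0,0,2,2,0,-2,2] (.p false [0,0,1] [1,0,-1] (⟨0,[(16,
  0)]⟩,⟨0,[(15,0)]⟩) .k 2 (⟨0,[(15,0)]⟩,⟨0,[(16,0)]⟩) .k (.r 0 ⟨0,[(14,1)]⟩ ⟨0,[(4,1),(18,0)]⟩))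
  (.Q [0,0,0,0,2,0,0,0,0,-2] (.pp true [-1,1]) (.R ⟨0,false,false,true,[0,0,0,1],[1,0,-1],[0,1,0,0,
  0,0,0,1],(⟨0,[(9,0)]⟩,⟨0,[(9,0)]⟩),(⟨0,[(17,0)]⟩,⟨0,[(18,0)]⟩),⟨1,[(0,0)]⟩,.k,.k,(.x 0 ⟨2,[(2,0),
  (8,0),(2,1),(5,2)]⟩ ⟨3,[(3,1),(9,1),(5,0),(1,3),(3,1),(0,0)]⟩),.k,.k,.k,⟨false,0,⟨1,[(1,0),(6,0),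
  (16,0)]⟩,⟨1,[(6,1),(18,0)]⟩⟩,⟨true,0,⟨1,[(8,0)]⟩,⟨1,[(3,0),(2,0),(7,0)]⟩⟩,⟨true,0,⟨0,[(28,0)]⟩,⟨0,
  []⟩⟩,⟨false,1,⟨1,[(10,0),(2,0),(12,0)]⟩,⟨1,[(1,0),(24,0)]⟩⟩,⟨false,0,⟨0,[]⟩,⟨0,[]⟩⟩,⟨false,0,⟨0,
  []⟩,⟨0,[]⟩⟩,[.o ⟨false,0,⟨0,[(10,0)]⟩,⟨1,[(3,1),(15,0),(6,0)]⟩⟩,.e ⟨false,0,⟨1,[(25,0)]⟩,⟨3,[(3,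
  1),(9,1),(5,0),(6,0)]⟩⟩ ⟨false,1,⟨1,[(10,0),(2,0),(11,0),(0,0)]⟩,⟨1,[(1,0)]⟩⟩,.a ⟨true,0,⟨0,[(9,
  0)]⟩,⟨0,[(9,0)]⟩⟩ ⟨false,0,⟨3,[(3,1),(9,1),(5,0),(6,0)]⟩,⟨1,[(26,0)]⟩⟩ ⟨true,0,⟨1,[(10,0),(2,0)]⟩,
  ⟨1,[(1,0)]⟩⟩,.o ⟨false,0,⟨1,[(11,0),(2,0)]⟩,⟨7,[(3,1),(9,1),(5,2),(5,3),(0,0)]⟩⟩]⟩) (.Q [0,1,0,-1,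
  0,0,0,0,0,-2] (.pp true [-1,1]) (.R ⟨1,false,false,true,[0,0,0,1],[1,-1],[0,0,0,0,0,0,0,1],(⟨0,
  [(10,0)]⟩,⟨0,[(10,0)]⟩),(⟨0,[(21,0)]⟩,⟨0,[(22,0)]⟩),⟨1,[(1,0)]⟩,.k,.k,(.x 0 ⟨1,[(1,0),(10,0),(2,
  0)]⟩ ⟨3,[(4,1),(9,1),(5,0),(1,3),(3,1),(0,0)]⟩),(.x (-1) ⟨3,[(4,1),(9,1),(5,0),(1,3),(3,1),(0,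
  0)]⟩ ⟨1,[(1,0),(10,0),(2,0)]⟩),.k,.k,⟨false,0,⟨1,[(25,1),(1,0)]⟩,⟨1,[(24,1),(1,0)]⟩⟩,⟨true,0,⟨1,
  [(12,0),(2,0)]⟩,⟨0,[(10,0)]⟩⟩,⟨false,1,⟨3,[(4,1),(9,1),(5,0),(6,2)]⟩,⟨0,[]⟩⟩,⟨false,1,⟨1,[(0,0),
  (23,0),(2,0)]⟩,⟨1,[(18,0),(0,0),(5,1),(1,0)]⟩⟩,⟨true,0,⟨0,[(25,0)]⟩,⟨0,[(24,0)]⟩⟩,⟨false,1,⟨7,[(4,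
  1),(9,1),(5,2),(6,0)]⟩,⟨1,[(18,0),(0,0),(7,0)]⟩⟩,[.o ⟨false,0,⟨0,[(0,0)]⟩,⟨3,[(4,1),(9,1),(5,0),
  (4,3),(1,2)]⟩⟩,.o ⟨false,1,⟨1,[(20,0),(3,1),(2,0)]⟩,⟨0,[(25,0)]⟩⟩,.a ⟨true,0,⟨0,[(10,0)]⟩,⟨0,[(10,
  0)]⟩⟩ ⟨false,0,⟨1,[(27,0)]⟩,⟨3,[(4,1),(9,1),(5,0),(6,0)]⟩⟩ ⟨true,0,⟨1,[(0,0),(23,0)]⟩,⟨1,[(18,0),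
  (0,0),(5,1)]⟩⟩,.o ⟨false,0,⟨1,[(12,0),(2,0)]⟩,⟨7,[(4,1),(9,1),(5,2),(5,3),(0,0)]⟩⟩]⟩) (.I [1,0,-1,
  -1,0,0,0,1] (.R ⟨1,false,false,true,[0,0,0,1],[1,0,-1],[1,1,0,-1,0,0,0,1],(⟨0,[(11,0)]⟩,⟨0,[(11,
  0)]⟩),(⟨0,[(19,0)]⟩,⟨0,[(20,0)]⟩),⟨1,[(2,0)]⟩,.k,.k,(.x 0 ⟨1,[(2,0),(10,0),(2,0)]⟩ ⟨3,[(5,1),(9,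
  1),(5,0),(1,3),(3,1),(0,0)]⟩),.k,(.r 0 ⟨1,[(0,1),(2,0),(6,0)]⟩ ⟨3,[(5,1),(2,3),(6,1),(5,0),(4,3),
  (1,0)]⟩),.k,⟨false,0,⟨1,[(0,1),(2,0),(6,0)]⟩,⟨1,[(8,1),(17,1),(0,0)]⟩⟩,⟨true,0,⟨1,[(10,0)]⟩,⟨1,
  [(5,0),(2,0),(7,0)]⟩⟩,⟨true,0,⟨0,[(25,0)]⟩,⟨0,[(26,0)]⟩⟩,⟨false,1,⟨1,[(12,0),(2,0),(12,0)]⟩,⟨1,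
  [(3,0),(24,0)]⟩⟩,⟨false,0,⟨0,[]⟩,⟨3,[(5,1),(9,1),(5,0),(6,2)]⟩⟩,⟨false,1,⟨1,[(12,0),(2,0),(10,1),
  (1,0)]⟩,⟨1,[(0,1),(2,0),(20,1)]⟩⟩,[.o ⟨false,0,⟨0,[(12,0)]⟩,⟨1,[(5,1),(15,0),(6,0)]⟩⟩,.e ⟨false,0,
  ⟨0,[(0,0)]⟩,⟨3,[(5,1),(9,1),(5,0),(4,3),(1,0)]⟩⟩ ⟨false,1,⟨1,[(12,0),(2,0),(11,0),(0,0)]⟩,⟨1,[(3,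
  0)]⟩⟩,.a ⟨true,0,⟨0,[(11,0)]⟩,⟨0,[(11,0)]⟩⟩ ⟨false,0,⟨1,[(25,1),(2,0)]⟩,⟨1,[(26,1),(1,0)]⟩⟩ ⟨true,
  0,⟨1,[(12,0),(2,0)]⟩,⟨1,[(3,0)]⟩⟩,.o ⟨false,0,⟨1,[(13,0),(2,0)]⟩,⟨7,[(5,1),(9,1),(5,2),(5,3),(0,
  0)]⟩⟩]⟩) (.R ⟨2,false,false,true,[0,1],[1,-1],[0,1,1,1],(⟨0,[]⟩,⟨0,[]⟩),(⟨0,[(22,0)]⟩,⟨0,[(23,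
  0)]⟩),⟨0,[]⟩,.k,.k,.k,(.r 1 ⟨0,[(0,1)]⟩ ⟨0,[(25,1),(1,0),(0,0)]⟩),.k,.k,⟨true,(-1),⟨0,[(0,1)]⟩,⟨0,
  [(9,0),(15,0)]⟩⟩,⟨false,0,⟨2,[(4,0),(8,0),(2,1)]⟩,⟨0,[(1,0),(23,0),(1,0)]⟩⟩,⟨true,0,⟨0,[(30,0)]⟩,
  ⟨0,[]⟩⟩,⟨false,1,⟨3,[(4,0),(4,2),(6,0),(4,0),(2,1),(0,4)]⟩,⟨0,[(1,0),(24,0)]⟩⟩,⟨false,0,⟨0,[(26,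
  0)]⟩,⟨0,[(25,0),(2,0)]⟩⟩,⟨false,1,⟨1,[(21,0),(3,1),(2,0)]⟩,⟨0,[(1,0)]⟩⟩,[.a ⟨true,0,⟨0,[(25,0)]⟩,
  ⟨0,[(1,0)]⟩⟩ ⟨false,0,⟨0,[(26,0),(3,0)]⟩,⟨0,[(9,0)]⟩⟩ ⟨true,0,⟨2,[(4,0),(8,0),(2,1),(8,2)]⟩,⟨0,
  [(1,0)]⟩⟩,.o ⟨false,1,⟨1,[(21,0),(3,1),(2,0)]⟩,⟨0,[(26,0)]⟩⟩,.o ⟨false,1,⟨3,[(5,1),(9,1),(5,0),(5,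
  1),(0,0)]⟩,⟨2,[(4,0),(8,0),(2,1)]⟩⟩,.e ⟨false,0,⟨0,[(26,0)]⟩,⟨0,[(25,0),(2,0)]⟩⟩ ⟨false,1,⟨1,[(21,
  0),(3,1),(2,0)]⟩,⟨0,[(1,0)]⟩⟩]⟩)))) (.Q [0,0,-1,0,0,2,0,2,-2,2] (.p false [0,0,1] [1,0,-1] (⟨0,
  [(17,0)]⟩,⟨0,[(16,0)]⟩) .k 2 (⟨0,[(16,0)]⟩,⟨0,[(17,0)]⟩) .k (.r 0 ⟨0,[(15,1)]⟩ ⟨0,[(5,1),(18,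
  0)]⟩)) (.R ⟨0,false,false,true,[1,0,-1],[0,0,1],[1,1,0,0,0,0,1],(⟨0,[(17,0)]⟩,⟨0,[(18,0)]⟩),(⟨0,
  [(18,0)]⟩,⟨0,[(17,0)]⟩),⟨0,[(5,0)]⟩,.k,.k,.k,.k,.k,.k,⟨true,0,⟨0,[]⟩,⟨1,[(14,0),(0,0)]⟩⟩,⟨false,1,
  ⟨0,[(0,0)]⟩,⟨0,[(8,0)]⟩⟩,⟨false,0,⟨0,[(16,1)]⟩,⟨0,[(0,0),(0,0),(20,0)]⟩⟩,⟨true,0,⟨0,[(3,0),(8,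
  0)]⟩,⟨0,[(1,0)]⟩⟩,⟨false,0,⟨0,[]⟩,⟨0,[]⟩⟩,⟨false,0,⟨0,[]⟩,⟨0,[]⟩⟩,[.o ⟨false,0,⟨0,[(12,0)]⟩,⟨2,
  [(1,0),(11,0),(5,0),(6,1)]⟩⟩,.a ⟨true,0,⟨0,[(3,0)]⟩,⟨1,[(1,0),(15,0),(0,0)]⟩⟩ ⟨true,0,⟨0,[(16,
  0)]⟩,⟨0,[(6,0)]⟩⟩ ⟨false,1,⟨3,[(0,1),(2,3),(15,0),(5,0)]⟩,⟨1,[(1,0),(6,0)]⟩⟩,.o ⟨false,0,⟨0,[(4,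
  0)]⟩,⟨5,[(0,3),(13,0),(0,2),(3,1)]⟩⟩,.o ⟨false,0,⟨0,[(11,0)]⟩,⟨3,[(0,1),(18,0),(5,0)]⟩⟩]⟩) (.R ⟨0,
  false,false,true,[1,0,-1],[0,0,1],[1,1],(⟨0,[(17,0)]⟩,⟨0,[(18,0)]⟩),(⟨0,[(18,0)]⟩,⟨0,[(17,0)]⟩),
  ⟨0,[(5,0)]⟩,.k,.k,.k,.k,.k,.k,⟨false,1,⟨0,[(6,0),(18,0)]⟩,⟨0,[(16,0)]⟩⟩,⟨true,1,⟨0,[(3,0),(2,0),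
  (7,0),(10,0)]⟩,⟨0,[(0,0)]⟩⟩,⟨false,0,⟨0,[(16,0)]⟩,⟨1,[(6,1),(18,0),(0,0)]⟩⟩,⟨true,0,⟨0,[(3,0),(8,
  0)]⟩,⟨0,[(1,0)]⟩⟩,⟨false,0,⟨0,[]⟩,⟨0,[]⟩⟩,⟨false,0,⟨0,[]⟩,⟨0,[]⟩⟩,[.o ⟨false,0,⟨0,[(12,0)]⟩,⟨2,
  [(1,0),(11,0),(5,0),(6,1)]⟩⟩,.a ⟨true,0,⟨0,[(3,0)]⟩,⟨1,[(1,0),(15,0),(0,0)]⟩⟩ ⟨true,0,⟨0,[]⟩,⟨1,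
  [(14,0),(0,0)]⟩⟩ ⟨false,1,⟨0,[(3,0),(10,0),(10,0)]⟩,⟨1,[(1,0),(6,0)]⟩⟩,.o ⟨false,0,⟨0,[(4,0)]⟩,⟨1,
  [(3,1),(2,1),(12,0),(5,0)]⟩⟩,.o ⟨false,0,⟨0,[(11,0)]⟩,⟨0,[(14,0),(10,0)]⟩⟩]⟩)))) (.Q [0,0,0,0,1,0,
  0,0,0,-1] (.p false [0,0,0,1] [] (⟨0,[(6,0)]⟩,⟨0,[(6,0)]⟩) .k 0 (⟨0,[]⟩,⟨0,[]⟩) .k .k) (.R ⟨0,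
  false,false,false,[0,0,0,1],[1,0,-1],[1,0,0,0,0,0,0,1],(⟨0,[(7,0)]⟩,⟨0,[(7,0)]⟩),(⟨0,[(15,0)]⟩,⟨0,
  [(16,0)]⟩),⟨0,[(0,0)]⟩,.k,.k,(.x 0 ⟨0,[(2,0),(9,0),(5,0)]⟩ ⟨1,[(19,1),(3,0),(0,0),(1,1)]⟩),.k,.k,
  .k,⟨false,0,⟨1,[(14,1),(8,0)]⟩,⟨1,[(4,1),(18,0)]⟩⟩,⟨true,0,⟨1,[(6,0)]⟩,⟨1,[(12,1),(2,0),(0,0)]⟩⟩,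
  ⟨true,0,⟨0,[]⟩,⟨0,[(26,0)]⟩⟩,⟨false,1,⟨1,[(1,1),(13,0),(0,0),(7,0)]⟩,⟨1,[(10,1),(4,0),(0,0),(7,
  0)]⟩⟩,⟨false,0,⟨0,[]⟩,⟨0,[]⟩⟩,⟨false,0,⟨0,[]⟩,⟨0,[]⟩⟩,[.o ⟨false,0,⟨0,[(1,0)]⟩,⟨0,[(10,0),(13,0),
  (1,0)]⟩⟩,.o ⟨false,1,⟨3,[(1,1),(9,1),(5,0),(6,2)]⟩,⟨0,[(10,0)]⟩⟩,.a ⟨true,0,⟨0,[(7,0)]⟩,⟨0,[(7,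
  0)]⟩⟩ ⟨false,0,⟨1,[(24,0)]⟩,⟨1,[(24,0),(1,1)]⟩⟩ ⟨true,0,⟨1,[(1,1),(13,0),(0,0)]⟩,⟨1,[(10,1),(4,0),
  (0,0)]⟩⟩,.o ⟨false,0,⟨1,[(9,0),(2,0)]⟩,⟨3,[(17,0),(5,1),(0,0),(1,1)]⟩⟩]⟩) (.I [0,0,-1,-1,0,0,1,1]
  (.R ⟨1,false,false,false,[0,0,0,1],[1,0,-1],[0,0,0,0,0,0,0,1],(⟨0,[(8,0)]⟩,⟨0,[(8,0)]⟩),(⟨0,[(16,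
  0)]⟩,⟨0,[(17,0)]⟩),⟨0,[(1,0)]⟩,.k,.k,(.x 0 ⟨1,[(1,1),(8,0),(2,0)]⟩ ⟨1,[(20,1),(3,0),(0,0),(1,
  1)]⟩),.k,(.r 0 ⟨0,[(0,0)]⟩ ⟨1,[(5,1),(17,1),(1,0),(1,1)]⟩),.k,⟨false,0,⟨1,[(15,1),(8,0)]⟩,⟨1,[(5,
  1),(18,0)]⟩⟩,⟨true,0,⟨1,[(7,0)]⟩,⟨1,[(13,1),(2,0),(0,0)]⟩⟩,⟨false,1,⟨0,[(25,0),(1,0)]⟩,⟨0,[]⟩⟩,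
  ⟨false,1,⟨1,[(2,1),(13,0),(0,0),(7,0)]⟩,⟨1,[(11,1),(4,0),(0,0),(7,0)]⟩⟩,⟨true,0,⟨0,[(23,0)]⟩,⟨0,
  [(22,0)]⟩⟩,⟨false,1,⟨1,[(2,1),(13,0),(0,0),(5,1),(1,0)]⟩,⟨1,[(0,1),(12,1),(2,0),(0,0)]⟩⟩,[.o
  ⟨false,0,⟨0,[(2,0)]⟩,⟨0,[(11,0),(13,0),(1,0)]⟩⟩,.o ⟨false,1,⟨3,[(2,1),(9,1),(5,0),(6,2)]⟩,⟨0,[(11,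
  0)]⟩⟩,.a ⟨true,0,⟨0,[(8,0)]⟩,⟨0,[(8,0)]⟩⟩ ⟨false,0,⟨1,[(25,0)]⟩,⟨1,[(25,0),(1,1)]⟩⟩ ⟨true,0,⟨1,
  [(2,1),(13,0),(0,0)]⟩,⟨1,[(11,1),(4,0),(0,0)]⟩⟩,.o ⟨false,0,⟨1,[(10,0),(2,0)]⟩,⟨3,[(18,0),(5,1),
  (0,0),(1,1)]⟩⟩]⟩) (.Q [0,0,-2,0,0,1,0,2,-1,2] (.p false [0,0,1] [1] (⟨0,[(17,0)]⟩,⟨0,[(16,0)]⟩)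
  .k 1 (⟨0,[]⟩,⟨0,[]⟩) .k .k) (.Q [0,-1,0,1,0,0,0,0,0,2] (.pp false [-1,1]) (.R ⟨2,true,false,true,
  [0,1],[0,0,1],[0,1,1,1],(⟨0,[]⟩,⟨0,[]⟩),(⟨0,[(19,0)]⟩,⟨0,[(18,0)]⟩),⟨0,[]⟩,.k,.k,.k,.k,.k,.k,
  ⟨false,0,⟨1,[(2,1),(23,0)]⟩,⟨2,[(8,1),(4,0),(2,0),(0,1),(6,0),(1,0)]⟩⟩,⟨true,0,⟨0,[(15,0)]⟩,⟨1,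
  [(0,0),(8,0),(14,0)]⟩⟩,⟨true,0,⟨0,[(29,0)]⟩,⟨0,[]⟩⟩,⟨false,1,⟨0,[(13,0),(10,0),(2,0)]⟩,⟨0,[(0,0),
  (3,0)]⟩⟩,⟨false,0,⟨0,[(25,0)]⟩,⟨0,[(24,0),(2,0)]⟩⟩,⟨true,0,⟨0,[(13,0)]⟩,⟨0,[(0,0),(3,0),(19,0)]⟩⟩,
  []⟩) (.R ⟨1,false,false,true,[0,0,0,1],[1,-1],[0,0,0,0,0,0,0,1],(⟨0,[(10,0)]⟩,⟨0,[(10,0)]⟩),(⟨0,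
  [(21,0)]⟩,⟨0,[(22,0)]⟩),⟨0,[(3,0)]⟩,.k,.k,(.r (-1) ⟨5,[(1,3),(6,1),(7,3),(3,1),(3,3),(2,0)]⟩ ⟨0,
  [(2,0),(14,0)]⟩),(.r 1 ⟨0,[(2,0),(14,0)]⟩ ⟨5,[(1,3),(6,1),(7,3),(3,1),(3,3),(2,0)]⟩),.k,.k,⟨false,
  0,⟨1,[(25,1),(1,0)]⟩,⟨1,[(24,1),(1,0)]⟩⟩,⟨true,0,⟨1,[(12,0),(2,0)]⟩,⟨0,[(10,0)]⟩⟩,⟨false,1,⟨5,[(1,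
  1),(13,0),(0,2),(3,0),(6,2)]⟩,⟨0,[]⟩⟩,⟨false,1,⟨1,[(0,0),(23,0),(2,0)]⟩,⟨1,[(18,0),(0,0),(5,1),(1,
  0)]⟩⟩,⟨true,0,⟨0,[(25,0)]⟩,⟨0,[(24,0)]⟩⟩,⟨false,1,⟨11,[(1,1),(13,0),(0,2),(3,3)]⟩,⟨1,[(18,0),(0,
  0),(7,0)]⟩⟩,[.o ⟨false,0,⟨0,[(0,0)]⟩,⟨5,[(1,1),(13,0),(0,2),(3,0),(4,5),(1,2)]⟩⟩,.o ⟨false,1,⟨1,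
  [(20,0),(3,1),(2,0)]⟩,⟨0,[(25,0)]⟩⟩,.a ⟨true,0,⟨0,[(10,0)]⟩,⟨0,[(10,0)]⟩⟩ ⟨false,0,⟨1,[(27,0)]⟩,
  ⟨5,[(1,1),(13,0),(0,2),(3,0)]⟩⟩ ⟨true,0,⟨1,[(0,0),(23,0)]⟩,⟨1,[(18,0),(0,0),(5,1)]⟩⟩,.o ⟨false,0,
  ⟨1,[(12,0),(2,0)]⟩,⟨7,[(1,1),(14,1),(3,2),(5,2)]⟩⟩]⟩)) (.Q [0,-1,0,-1,0,-1,-1,1,1,-1] (.p true [0,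
  0,1] [0,0,0,1] (⟨0,[(18,0)]⟩,⟨0,[(17,0)]⟩) .k 2 (⟨0,[(9,0)]⟩,⟨0,[(9,0)]⟩) .k (.r (-1) ⟨3,[(12,1),
  (2,1),(0,1),(8,0),(0,0)]⟩ ⟨1,[(6,1),(18,0)]⟩)) (.R ⟨1,false,false,true,[0,0,0,1],[0,0,1],[1,1,0,
  -1,0,0,0,1],(⟨0,[(10,0)]⟩,⟨0,[(10,0)]⟩),(⟨0,[(19,0)]⟩,⟨0,[(18,0)]⟩),⟨0,[(3,0)]⟩,.k,.k,(.r (-1) ⟨1,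
  [(24,1),(1,0),(0,1),(1,1)]⟩ ⟨0,[(2,0),(14,0)]⟩),.k,(.r (-1) ⟨1,[(7,1),(16,1),(1,1),(0,0)]⟩ ⟨0,[(2,
  0),(14,1)]⟩),.k,⟨true,0,⟨0,[(2,0),(5,0),(15,0)]⟩,⟨0,[(2,0),(14,1)]⟩⟩,⟨false,1,⟨1,[(15,1),(2,0),(0,
  0),(6,1)]⟩,⟨1,[(9,0)]⟩⟩,⟨true,0,⟨0,[(24,0)]⟩,⟨0,[(25,0)]⟩⟩,⟨false,1,⟨1,[(13,1),(4,0),(0,0),(7,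
  0)]⟩,⟨3,[(0,1),(1,1),(6,0),(16,0),(0,0)]⟩⟩,⟨false,0,⟨0,[]⟩,⟨0,[(27,0),(1,0)]⟩⟩,⟨false,1,⟨1,[(13,
  1),(4,0),(0,0),(5,1),(1,0)]⟩,⟨0,[(0,0)]⟩⟩,[.o ⟨false,0,⟨0,[(13,0)]⟩,⟨3,[(4,1),(9,1),(5,0),(6,
  2)]⟩⟩,.o ⟨false,1,⟨0,[(13,0),(13,0),(1,0)]⟩,⟨0,[(4,0)]⟩⟩,.a ⟨true,0,⟨0,[(10,0)]⟩,⟨0,[(10,0)]⟩⟩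
  ⟨false,0,⟨1,[(24,1),(2,0)]⟩,⟨1,[(25,1),(1,0)]⟩⟩ ⟨true,0,⟨1,[(13,1),(4,0),(0,0)]⟩,⟨1,[(4,1),(13,0),
  (0,0)]⟩⟩,.o ⟨false,0,⟨1,[(12,0),(2,0)]⟩,⟨3,[(20,0),(5,1),(0,0),(1,1)]⟩⟩]⟩) (.R ⟨1,true,false,true,
  [0,0,0,1],[0,0,1],[1,1,0,-1,0,0,0,1],(⟨0,[(10,0)]⟩,⟨0,[(10,0)]⟩),(⟨0,[(19,0)]⟩,⟨0,[(18,0)]⟩),⟨0,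
  [(3,0)]⟩,.k,.k,(.r (-1) ⟨1,[(24,1),(1,0),(0,1),(1,1)]⟩ ⟨3,[(0,1),(1,1),(6,0),(13,1)]⟩),.k,(.r
  (-1) ⟨1,[(7,1),(16,1),(1,1),(0,0)]⟩ ⟨1,[(0,1),(8,0),(13,1)]⟩),.k,⟨true,0,⟨0,[(2,0),(5,0),(15,0)]⟩,
  ⟨1,[(0,1),(8,0),(13,1)]⟩⟩,⟨false,1,⟨1,[(15,1),(2,0),(0,0),(6,1)]⟩,⟨1,[(9,0)]⟩⟩,⟨true,0,⟨0,[(24,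
  0)]⟩,⟨0,[(25,0)]⟩⟩,⟨false,1,⟨1,[(13,1),(4,0),(0,0),(7,0)]⟩,⟨1,[(4,1),(13,0),(0,0),(7,0)]⟩⟩,⟨false,
  0,⟨0,[]⟩,⟨0,[(27,0),(1,0)]⟩⟩,⟨true,0,⟨0,[(0,0)]⟩,⟨3,[(1,0),(2,0),(2,0),(0,2),(5,1),(9,0)]⟩⟩,
  []⟩))))))) (.Q [0,0,0,0,0,-1,0,0,1,-2] (.p true [0,0,1] [1] (⟨0,[(13,0)]⟩,⟨0,[(12,0)]⟩) .k 1 (⟨0,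
  []⟩,⟨0,[]⟩) .k .k) (.Q [0,1,0,0,0,0,0,-1,0,1] (.p true [0,0,0,1] [] (⟨0,[(5,0)]⟩,⟨0,[(5,0)]⟩) .k
  0 (⟨0,[]⟩,⟨0,[]⟩) .k .k) (.K ⟨1,[0,0,0,1],0,0,(⟨0,[(6,0)]⟩,⟨0,[(6,0)]⟩),.k,(.x 0 ⟨0,[(1,0),(9,0),
  (5,0)]⟩ ⟨1,[(18,1),(3,0),(0,0),(1,1)]⟩),(.x (-1) ⟨1,[(18,1),(3,0),(0,0),(1,1)]⟩ ⟨0,[(1,0),(9,0),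
  (5,0)]⟩),.k,.k,[⟨1,[(11,0),(0,0),(1,0),(0,0)]⟩,⟨1,[(8,0),(2,0)]⟩,⟨0,[(0,0)]⟩,⟨1,[(14,0),(0,0),(7,
  0)]⟩]⟩) (.Q [0,1,0,-1,0,1,1,0,-1] (.p false [0,0,1] [] (⟨0,[(15,0)]⟩,⟨0,[(14,0)]⟩) .k 0 (⟨0,[]⟩,
  ⟨0,[]⟩) .k .k) (.Q [0,1,0,1,0,0,0,-1,0,1] (.p true [0,0,0,1] [] (⟨0,[(7,0)]⟩,⟨0,[(7,0)]⟩) .k 0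
  (⟨0,[]⟩,⟨0,[]⟩) .k .k) (.R ⟨2,true,false,false,[0,1],[0,0,0,1],[1,0,1],(⟨0,[]⟩,⟨0,[]⟩),(⟨0,[(8,
  0)]⟩,⟨0,[(8,0)]⟩),⟨0,[]⟩,.k,.k,.k,(.x (-1) ⟨1,[(20,1),(3,0),(0,0),(1,1)]⟩ ⟨0,[(3,0),(9,0),(5,
  0)]⟩),.k,.k,⟨false,1,⟨1,[(25,0),(1,1)]⟩,⟨1,[(24,0)]⟩⟩,⟨true,0,⟨1,[(10,0),(2,0)]⟩,⟨0,[(8,0)]⟩⟩,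
  ⟨false,1,⟨0,[(22,0),(2,0)]⟩,⟨0,[(23,0)]⟩⟩,⟨true,0,⟨0,[(2,0),(19,0)]⟩,⟨0,[(0,0)]⟩⟩,⟨true,0,⟨0,[]⟩,
  ⟨0,[(27,0)]⟩⟩,⟨false,0,⟨0,[(2,0)]⟩,⟨1,[(16,0),(0,0),(7,0),(1,1)]⟩⟩,[]⟩) (.Q [0,-1,0,1,0,0,0,0,0,
  2] (.pp false [-1,1]) (.Q [0,0,0,0,1,0,0,0,-1] (.ed true [1,-1,1] .k) (.R ⟨0,false,false,false,[0,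
  0,1],[0,1],[1,1,1],(⟨0,[(19,0)]⟩,⟨0,[(18,0)]⟩),(⟨0,[(22,0)]⟩,⟨0,[(21,0)]⟩),⟨0,[(0,0)]⟩,.k,.k,.k,
  .k,.k,.k,⟨true,0,⟨0,[(24,0)]⟩,⟨0,[(23,0),(1,0)]⟩⟩,⟨false,1,⟨1,[(9,0),(8,0),(0,0),(6,1)]⟩,⟨0,[(15,
  0)]⟩⟩,⟨false,0,⟨0,[(7,0)]⟩,⟨1,[(17,1),(8,0),(0,0)]⟩⟩,⟨true,0,⟨0,[(1,0),(9,0)]⟩,⟨0,[(3,0)]⟩⟩,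
  ⟨false,0,⟨0,[]⟩,⟨0,[]⟩⟩,⟨false,0,⟨0,[]⟩,⟨0,[]⟩⟩,[.o ⟨false,0,⟨0,[(25,0)]⟩,⟨1,[(20,0),(3,1),(2,
  0)]⟩⟩,.a ⟨true,0,⟨0,[(1,0)]⟩,⟨0,[(24,0)]⟩⟩ ⟨false,0,⟨0,[]⟩,⟨1,[(26,0),(0,0),(1,1)]⟩⟩ ⟨true,0,⟨0,
  [(1,0),(3,0)]⟩,⟨0,[(15,0),(8,0)]⟩⟩,.o ⟨false,1,⟨1,[(15,1),(10,0),(0,0),(1,1)]⟩,⟨0,[(5,0)]⟩⟩,.o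
  ⟨false,0,⟨0,[(15,0)]⟩,⟨2,[(9,0),(6,0),(3,0),(5,1)]⟩⟩]⟩) (.Q [0,0,0,1,0,-2,-2,0,2,-2] (.p true [0,
  0,1] [1,0,-1] (⟨0,[(19,0)]⟩,⟨0,[(18,0)]⟩) .k 2 (⟨0,[(18,0)]⟩,⟨0,[(19,0)]⟩) .k (.r 0 ⟨0,[(17,1)]⟩
  ⟨0,[(7,1),(18,0)]⟩)) (.I [0,0,-2,-2,0,0,1,2] (.R ⟨1,false,false,true,[0,0,0,1],[0,-1,1],[0,1,0,0,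
  0,0,0,1],(⟨0,[(12,0)]⟩,⟨0,[(12,0)]⟩),(⟨0,[(2,0)]⟩,⟨0,[(20,0),(3,0)]⟩),⟨1,[(2,0),(5,0)]⟩,.k,.k,(.x
  0 ⟨1,[(2,0),(5,0),(5,0),(2,0)]⟩ ⟨1,[(24,1),(3,0),(0,0),(1,1)]⟩),(.r 0 ⟨1,[(9,1),(17,1),(1,0),(1,
  1)]⟩ ⟨1,[(0,0),(18,0)]⟩),.k,.k,⟨false,0,⟨1,[(9,1),(17,1),(0,0)]⟩,⟨1,[(0,0),(18,0)]⟩⟩,⟨true,0,⟨1,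
  [(17,1),(2,0),(0,0)]⟩,⟨1,[(11,0)]⟩⟩,⟨true,0,⟨0,[(31,0)]⟩,⟨0,[]⟩⟩,⟨false,1,⟨1,[(5,1),(14,0),(0,0),
  (7,0)]⟩,⟨1,[(1,0),(25,0),(1,0)]⟩⟩,⟨false,0,⟨0,[(27,0)]⟩,⟨0,[(26,0),(2,0)]⟩⟩,⟨false,1,⟨1,[(15,1),
  (4,0),(0,0),(7,0)]⟩,⟨10,[(1,4),(1,1),(0,4),(4,0),(0,1),(7,0),(10,0)]⟩⟩,[.o ⟨false,0,⟨0,[(5,0)]⟩,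
  ⟨2,[(1,0),(14,0),(5,0),(4,1),(1,1)]⟩⟩,.e ⟨false,0,⟨1,[(28,0)]⟩,⟨1,[(29,0),(1,1)]⟩⟩ ⟨false,1,⟨3,
  [(0,1),(14,1),(1,1),(2,1),(0,1),(6,0),(0,0)]⟩,⟨1,[(1,0),(25,0)]⟩⟩,.a ⟨true,0,⟨0,[(12,0)]⟩,⟨0,[(12,
  0)]⟩⟩ ⟨false,0,⟨1,[(29,0),(1,1)]⟩,⟨1,[(29,0)]⟩⟩ ⟨true,0,⟨1,[(5,1),(14,0),(0,0)]⟩,⟨1,[(1,0),(25,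
  0)]⟩⟩,.o ⟨false,0,⟨1,[(14,0),(2,0)]⟩,⟨3,[(22,0),(5,1),(0,0),(1,1)]⟩⟩]⟩) (.R ⟨2,false,false,true,
  [0,1],[1,-1],[0,1,1,1],(⟨0,[]⟩,⟨0,[]⟩),(⟨0,[(23,0)]⟩,⟨0,[(24,0)]⟩),⟨0,[]⟩,.k,.k,.k,(.r 1 ⟨0,[(0,
  0),(18,0)]⟩ ⟨0,[(26,1),(1,0),(0,0)]⟩),.k,.k,⟨true,(-1),⟨0,[(0,0),(18,0)]⟩,⟨0,[(10,0),(15,0)]⟩⟩,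
  ⟨false,0,⟨4,[(0,1),(3,1),(0,1),(1,0),(6,0),(7,0)]⟩,⟨0,[(20,0),(0,0),(6,0)]⟩⟩,⟨true,0,⟨0,[(31,0)]⟩,
  ⟨0,[]⟩⟩,⟨false,1,⟨2,[(4,1),(17,0),(3,3),(2,0)]⟩,⟨0,[(3,0),(23,0)]⟩⟩,⟨false,0,⟨0,[(27,0)]⟩,⟨0,[(26,
  0),(2,0)]⟩⟩,⟨false,1,⟨1,[(22,0),(3,1),(2,0)]⟩,⟨0,[(3,0)]⟩⟩,[.a ⟨true,0,⟨0,[(26,0)]⟩,⟨0,[(3,0)]⟩⟩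
  ⟨false,0,⟨0,[(27,0),(3,0)]⟩,⟨0,[(10,0)]⟩⟩ ⟨true,0,⟨4,[(0,0),(3,1),(0,2),(7,1),(0,1),(2,0),(8,1)]⟩,
  ⟨0,[(3,0)]⟩⟩,.o ⟨false,1,⟨1,[(22,0),(3,1),(2,0)]⟩,⟨0,[(27,0)]⟩⟩,.o ⟨false,1,⟨1,[(28,0),(0,0),(1,
  1)]⟩,⟨4,[(0,1),(3,1),(0,1),(1,0),(6,0),(7,0)]⟩⟩,.e ⟨false,0,⟨0,[(27,0)]⟩,⟨0,[(26,0),(2,0)]⟩⟩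
  ⟨false,1,⟨1,[(22,0),(3,1),(2,0)]⟩,⟨0,[(3,0)]⟩⟩]⟩)) (.Q [0,0,0,-1,0,1,1,0,-1,2] (.p false [0,0,1]
  [1] (⟨0,[(20,0)]⟩,⟨0,[(19,0)]⟩) .k 1 (⟨0,[]⟩,⟨0,[]⟩) .k .k) (.R ⟨1,false,false,true,[0,0,0,1],[1,
  0,-1],[0,1,0,0,0,0,0,1],(⟨0,[(12,0)]⟩,⟨0,[(12,0)]⟩),(⟨0,[(20,0)]⟩,⟨0,[(21,0)]⟩),⟨1,[(2,0),(5,0)]⟩,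
  .k,.k,(.x 0 ⟨1,[(2,0),(5,0),(5,0),(2,0)]⟩ ⟨1,[(24,1),(3,0),(0,0),(1,1)]⟩),.k,(.r 0 ⟨1,[(0,1),(6,
  1),(20,0)]⟩ ⟨1,[(9,1),(17,1),(1,0),(1,1)]⟩),.k,⟨false,0,⟨1,[(19,1),(8,0)]⟩,⟨1,[(9,1),(18,0)]⟩⟩,
  ⟨true,0,⟨1,[(11,0)]⟩,⟨3,[(1,0),(1,0),(5,1),(7,1),(13,0)]⟩⟩,⟨true,0,⟨0,[(31,0)]⟩,⟨0,[]⟩⟩,⟨false,1,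
  ⟨1,[(13,0),(2,0),(12,0)]⟩,⟨1,[(1,0),(25,0),(1,0)]⟩⟩,⟨false,0,⟨0,[(27,0)]⟩,⟨0,[(26,0),(2,0)]⟩⟩,
  ⟨false,1,⟨1,[(13,0),(2,0),(10,1),(1,0)]⟩,⟨2,[(0,0),(0,0),(2,0),(24,0)]⟩⟩,[.o ⟨false,0,⟨0,[(13,
  0)]⟩,⟨0,[(15,0),(13,0)]⟩⟩,.e ⟨false,0,⟨1,[(28,0)]⟩,⟨1,[(29,0),(1,1)]⟩⟩ ⟨false,1,⟨1,[(13,0),(2,0),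
  (11,0),(0,0)]⟩,⟨1,[(1,0),(25,0)]⟩⟩,.a ⟨true,0,⟨0,[(12,0)]⟩,⟨0,[(12,0)]⟩⟩ ⟨false,0,⟨1,[(29,0),(1,
  1)]⟩,⟨1,[(29,0)]⟩⟩ ⟨true,0,⟨1,[(13,0),(2,0)]⟩,⟨1,[(1,0),(25,0)]⟩⟩,.o ⟨false,0,⟨1,[(14,0),(2,0)]⟩,
  ⟨3,[(22,0),(5,1),(0,0),(1,1)]⟩⟩]⟩) (.R ⟨1,false,false,true,[1,0,-1],[1,-1],[0,1],(⟨0,[(20,0)]⟩,⟨0,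
  [(21,0)]⟩),(⟨0,[(23,0)]⟩,⟨0,[(24,0)]⟩),⟨0,[(8,0)]⟩,.k,.k,.k,.k,.k,.k,⟨false,0,⟨0,[(27,0)]⟩,⟨1,
  [(26,1),(1,0),(0,0)]⟩⟩,⟨true,0,⟨0,[(17,0)]⟩,⟨1,[(11,0),(8,0),(0,0)]⟩⟩,⟨false,0,⟨0,[(19,0)]⟩,⟨1,
  [(9,1),(18,0),(0,0)]⟩⟩,⟨true,0,⟨0,[(5,0)]⟩,⟨1,[(0,0),(2,0),(12,0)]⟩⟩,⟨false,0,⟨0,[(19,0),(7,0)]⟩,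
  ⟨0,[(9,0),(0,0)]⟩⟩,⟨false,0,⟨0,[(0,0),(0,0)]⟩,⟨0,[(16,0),(12,0)]⟩⟩,[.a ⟨true,0,⟨0,[(26,0)]⟩,⟨0,
  [(3,0)]⟩⟩ ⟨true,0,⟨0,[(31,0)]⟩,⟨0,[(25,0)]⟩⟩ ⟨false,1,⟨0,[(17,0),(8,0),(1,0)]⟩,⟨0,[(3,0),(3,0)]⟩⟩,
  .o ⟨false,1,⟨1,[(22,0),(3,1),(2,0)]⟩,⟨0,[(27,0)]⟩⟩,.o ⟨false,0,⟨0,[(7,0)]⟩,⟨1,[(17,1),(10,0),(0,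
  0),(1,1)]⟩⟩,.o ⟨false,0,⟨0,[(14,0)]⟩,⟨0,[(17,0),(10,0)]⟩⟩]⟩)))) (.Q [0,0,0,0,-1,0,0,0,0,1] (.p
  true [0,0,0,1] [] (⟨0,[(9,0)]⟩,⟨0,[(9,0)]⟩) .k 0 (⟨0,[]⟩,⟨0,[]⟩) .k .k) (.R ⟨1,false,false,true,
  [0,0,0,1],[1,-1],[0,0,0,0,0,0,0,1],(⟨0,[(10,0)]⟩,⟨0,[(10,0)]⟩),(⟨0,[(21,0)]⟩,⟨0,[(22,0)]⟩),⟨0,[(0,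
  0)]⟩,.k,.k,(.x 0 ⟨1,[(0,1),(11,0),(2,0)]⟩ ⟨1,[(22,1),(3,0),(0,0),(1,1)]⟩),(.x (-1) ⟨1,[(22,1),(3,
  0),(0,0),(1,1)]⟩ ⟨1,[(0,1),(11,0),(2,0)]⟩),.k,.k,⟨false,0,⟨1,[(25,1),(1,0)]⟩,⟨1,[(24,1),(1,0)]⟩⟩,
  ⟨true,0,⟨1,[(12,0),(2,0)]⟩,⟨0,[(10,0)]⟩⟩,⟨false,1,⟨0,[(27,0),(1,0)]⟩,⟨0,[]⟩⟩,⟨false,1,⟨5,[(2,1),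
  (17,0),(3,3),(2,0)]⟩,⟨1,[(18,0),(0,0),(5,1),(1,0)]⟩⟩,⟨true,0,⟨0,[(25,0)]⟩,⟨0,[(24,0)]⟩⟩,⟨false,1,
  ⟨3,[(20,0),(6,0),(1,1)]⟩,⟨1,[(18,0),(0,0),(7,0)]⟩⟩,[.o ⟨false,0,⟨0,[(1,0)]⟩,⟨0,[(25,0),(1,0),(1,
  0)]⟩⟩,.o ⟨false,1,⟨1,[(20,0),(3,1),(2,0)]⟩,⟨0,[(25,0)]⟩⟩,.a ⟨true,0,⟨0,[(10,0)]⟩,⟨0,[(10,0)]⟩⟩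
  ⟨false,0,⟨1,[(27,0)]⟩,⟨1,[(27,0),(1,1)]⟩⟩ ⟨true,0,⟨1,[(1,0),(22,0)]⟩,⟨1,[(18,0),(0,0),(5,1)]⟩⟩,.o
  ⟨false,0,⟨1,[(12,0),(2,0)]⟩,⟨3,[(20,0),(5,1),(0,0),(1,1)]⟩⟩]⟩) (.R ⟨0,false,false,true,[0,0,0,1],
  [1,-1],[1,0,0,0,0,0,0,1],(⟨0,[(10,0)]⟩,⟨0,[(10,0)]⟩),(⟨0,[(21,0)]⟩,⟨0,[(22,0)]⟩),⟨0,[(0,0)]⟩,.k,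
  .k,(.x 0 ⟨0,[(5,0),(9,0),(5,0)]⟩ ⟨1,[(22,1),(3,0),(0,0),(1,1)]⟩),(.x (-1) ⟨1,[(22,1),(3,0),(0,0),
  (1,1)]⟩ ⟨0,[(5,0),(9,0),(5,0)]⟩),.k,.k,⟨false,0,⟨1,[(25,1),(1,0)]⟩,⟨1,[(24,1),(1,0)]⟩⟩,⟨true,0,⟨1,
  [(12,0),(2,0)]⟩,⟨0,[(10,0)]⟩⟩,⟨true,0,⟨0,[]⟩,⟨0,[(29,0)]⟩⟩,⟨false,1,⟨5,[(2,1),(17,0),(3,3),(2,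
  0)]⟩,⟨1,[(18,0),(0,0),(5,1),(1,0)]⟩⟩,⟨false,0,⟨0,[]⟩,⟨0,[]⟩⟩,⟨false,0,⟨0,[]⟩,⟨0,[]⟩⟩,[.o ⟨false,0,
  ⟨0,[(1,0)]⟩,⟨0,[(25,0),(1,0),(1,0)]⟩⟩,.o ⟨false,1,⟨1,[(20,0),(3,1),(2,0)]⟩,⟨0,[(25,0)]⟩⟩,.a ⟨true,
  0,⟨0,[(10,0)]⟩,⟨0,[(10,0)]⟩⟩ ⟨false,0,⟨1,[(27,0)]⟩,⟨1,[(27,0),(1,1)]⟩⟩ ⟨true,0,⟨1,[(1,0),(22,0)]⟩,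
  ⟨1,[(18,0),(0,0),(5,1)]⟩⟩,.o ⟨false,0,⟨1,[(12,0),(2,0)]⟩,⟨3,[(20,0),(5,1),(0,0),(1,1)]⟩⟩]⟩))))
  (.Q [0,-1,0,1,0,0,0,0,0,2] (.pp false [-1,1]) (.R ⟨1,false,false,true,[1,0,-1],[1,-1],[0,1],(⟨0,
  [(16,0)]⟩,⟨0,[(17,0)]⟩),(⟨0,[(19,0)]⟩,⟨0,[(20,0)]⟩),⟨0,[(4,0)]⟩,.k,.k,.k,.k,.k,.k,⟨false,0,⟨0,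
  [(23,0)]⟩,⟨1,[(22,1),(1,0),(0,0)]⟩⟩,⟨true,0,⟨0,[(13,0)]⟩,⟨1,[(0,0),(6,0),(14,0)]⟩⟩,⟨false,0,⟨0,
  [(15,0)]⟩,⟨1,[(5,1),(18,0),(0,0)]⟩⟩,⟨false,1,⟨0,[(11,0),(10,0),(2,0)]⟩,⟨0,[(1,0)]⟩⟩,⟨false,0,⟨0,
  [(15,0),(7,0)]⟩,⟨0,[(5,0),(0,0)]⟩⟩,⟨true,0,⟨0,[(11,0)]⟩,⟨0,[(1,0),(20,0)]⟩⟩,[.a ⟨true,0,⟨0,[(22,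
  0)]⟩,⟨0,[(0,0)]⟩⟩ ⟨true,0,⟨0,[(27,0)]⟩,⟨0,[(21,0)]⟩⟩ ⟨false,1,⟨0,[(13,0),(8,0),(1,0)]⟩,⟨0,[(0,0),
  (2,0)]⟩⟩,.o ⟨false,1,⟨1,[(18,0),(3,1),(2,0)]⟩,⟨0,[(23,0)]⟩⟩,.o ⟨false,0,⟨0,[(3,0)]⟩,⟨1,[(13,1),
  (10,0),(0,0),(1,1)]⟩⟩,.o ⟨false,0,⟨0,[(10,0)]⟩,⟨0,[(13,0),(10,0)]⟩⟩]⟩) (.Q [0,0,0,0,1,0,0,0,0,-1]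
  (.p false [0,0,0,1] [] (⟨0,[(8,0)]⟩,⟨0,[(8,0)]⟩) .k 0 (⟨0,[]⟩,⟨0,[]⟩) .k .k) (.R ⟨0,false,false,
  true,[0,0,0,1],[1,-1],[1,0,0,0,0,0,0,1],(⟨0,[(9,0)]⟩,⟨0,[(9,0)]⟩),(⟨0,[(20,0)]⟩,⟨0,[(21,0)]⟩),⟨0,
  [(0,0)]⟩,.k,.k,(.x 0 ⟨0,[(4,0),(9,0),(5,0)]⟩ ⟨1,[(21,1),(3,0),(0,0),(1,1)]⟩),(.x (-1) ⟨1,[(21,1),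
  (3,0),(0,0),(1,1)]⟩ ⟨0,[(4,0),(9,0),(5,0)]⟩),.k,.k,⟨false,0,⟨1,[(24,1),(1,0)]⟩,⟨1,[(23,1),(1,
  0)]⟩⟩,⟨true,0,⟨1,[(11,0),(2,0)]⟩,⟨0,[(9,0)]⟩⟩,⟨true,0,⟨0,[]⟩,⟨0,[(28,0)]⟩⟩,⟨false,1,⟨1,[(1,0),(21,
  0),(2,0)]⟩,⟨1,[(17,0),(0,0),(5,1),(1,0)]⟩⟩,⟨false,0,⟨0,[]⟩,⟨0,[]⟩⟩,⟨false,0,⟨0,[]⟩,⟨0,[]⟩⟩,[.o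
  ⟨false,0,⟨0,[(1,0)]⟩,⟨0,[(24,0),(1,0),(1,0)]⟩⟩,.o ⟨false,1,⟨1,[(19,0),(3,1),(2,0)]⟩,⟨0,[(24,0)]⟩⟩,
  .a ⟨true,0,⟨0,[(9,0)]⟩,⟨0,[(9,0)]⟩⟩ ⟨false,0,⟨1,[(26,0)]⟩,⟨1,[(26,0),(1,1)]⟩⟩ ⟨true,0,⟨1,[(1,0),
  (21,0)]⟩,⟨1,[(17,0),(0,0),(5,1)]⟩⟩,.o ⟨false,0,⟨1,[(11,0),(2,0)]⟩,⟨3,[(19,0),(5,1),(0,0),(1,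
  1)]⟩⟩]⟩) (.R ⟨1,false,false,true,[0,0,0,1],[1,-1],[0,0,0,0,0,0,0,1],(⟨0,[(9,0)]⟩,⟨0,[(9,0)]⟩),(⟨0,
  [(20,0)]⟩,⟨0,[(21,0)]⟩),⟨0,[(0,0)]⟩,.k,.k,(.x 0 ⟨1,[(0,1),(10,0),(2,0)]⟩ ⟨1,[(21,1),(3,0),(0,0),
  (1,1)]⟩),(.x (-1) ⟨1,[(21,1),(3,0),(0,0),(1,1)]⟩ ⟨1,[(0,1),(10,0),(2,0)]⟩),.k,.k,⟨false,0,⟨1,[(24,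
  1),(1,0)]⟩,⟨1,[(23,1),(1,0)]⟩⟩,⟨true,0,⟨1,[(11,0),(2,0)]⟩,⟨0,[(9,0)]⟩⟩,⟨false,1,⟨0,[(26,0),(1,
  0)]⟩,⟨0,[]⟩⟩,⟨false,1,⟨1,[(1,0),(21,0),(2,0)]⟩,⟨1,[(17,0),(0,0),(5,1),(1,0)]⟩⟩,⟨true,0,⟨0,[(24,
  0)]⟩,⟨0,[(23,0)]⟩⟩,⟨false,1,⟨3,[(19,0),(6,0),(1,1)]⟩,⟨1,[(17,0),(0,0),(7,0)]⟩⟩,[.o ⟨false,0,⟨0,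
  [(1,0)]⟩,⟨0,[(24,0),(1,0),(1,0)]⟩⟩,.o ⟨false,1,⟨1,[(19,0),(3,1),(2,0)]⟩,⟨0,[(24,0)]⟩⟩,.a ⟨true,0,
  ⟨0,[(9,0)]⟩,⟨0,[(9,0)]⟩⟩ ⟨false,0,⟨1,[(26,0)]⟩,⟨1,[(26,0),(1,1)]⟩⟩ ⟨true,0,⟨1,[(1,0),(21,0)]⟩,⟨1,
  [(17,0),(0,0),(5,1)]⟩⟩,.o ⟨false,0,⟨1,[(11,0),(2,0)]⟩,⟨3,[(19,0),(5,1),(0,0),(1,1)]⟩⟩]⟩))))) (.Q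
  [0,-1,0,1,0,1,1,0,-1,2] (.p false [0,0,1] [1] (⟨0,[(14,0)]⟩,⟨0,[(13,0)]⟩) .k 1 (⟨0,[]⟩,⟨0,[]⟩) .k
  .k) (.R ⟨2,true,false,true,[0,1],[1,0,-1],[1,1,1],(⟨0,[]⟩,⟨0,[]⟩),(⟨0,[(14,0)]⟩,⟨0,[(15,0)]⟩),⟨0,
  []⟩,.k,.k,.k,.k,.k,.k,⟨false,0,⟨0,[(13,0)]⟩,⟨0,[(3,0),(18,0)]⟩⟩,⟨true,0,⟨0,[(8,0)]⟩,⟨0,[(1,0)]⟩⟩,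
  ⟨true,0,⟨0,[(20,0)]⟩,⟨0,[(21,0)]⟩⟩,⟨false,1,⟨4,[(3,1),(0,3),(2,0),(0,1),(1,1),(5,0),(3,0)]⟩,⟨0,
  [(0,0)]⟩⟩,⟨false,0,⟨0,[]⟩,⟨0,[(23,0),(1,0)]⟩⟩,⟨true,0,⟨0,[(7,0)]⟩,⟨0,[(0,0),(19,0)]⟩⟩,[]⟩) (.I [0,
  0,2,2,0,0,1,-2] (.K ⟨0,[1,-1,-1],0,0,(⟨0,[(3,0)]⟩,⟨0,[(16,0),(2,0)]⟩),.k,(.r (-2) ⟨0,[(4,0),(0,0),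
  (15,0),(1,0)]⟩ ⟨0,[(0,0)]⟩),.k,.k,.k,[⟨0,[(2,0)]⟩,⟨1,[(6,0),(8,0),(0,0)]⟩,⟨1,[(0,0),(1,1),(11,0),
  (8,0),(2,1)]⟩,⟨0,[(1,0)]⟩]⟩) (.Q [0,0,0,0,1,0,0,0,-1] (.ed true [1,-1,1] .k) (.R ⟨0,false,false,
  false,[0,0,1],[1,-1],[0,1],(⟨0,[(17,0)]⟩,⟨0,[(16,0)]⟩),(⟨0,[(19,0)]⟩,⟨0,[(20,0)]⟩),⟨0,[(0,0)]⟩,.k,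
  .k,.k,.k,.k,.k,⟨false,0,⟨0,[(23,0),(3,0)]⟩,⟨0,[(6,0)]⟩⟩,⟨true,0,⟨0,[(10,0)]⟩,⟨0,[(3,0)]⟩⟩,⟨true,0,
  ⟨0,[(3,0),(5,0)]⟩,⟨0,[(15,0)]⟩⟩,⟨false,1,⟨0,[(2,0),(22,0)]⟩,⟨0,[(3,0),(11,0),(7,0)]⟩⟩,⟨false,0,⟨0,
  []⟩,⟨0,[]⟩⟩,⟨false,0,⟨0,[]⟩,⟨0,[]⟩⟩,[.o ⟨false,1,⟨1,[(18,0),(3,1),(2,0)]⟩,⟨0,[(23,0)]⟩⟩,.o ⟨false,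
  1,⟨1,[(1,0),(13,0),(2,0),(2,1)]⟩,⟨0,[(23,0),(3,0)]⟩⟩,.a ⟨true,0,⟨0,[(3,0)]⟩,⟨1,[(7,0),(8,0),(0,
  0)]⟩⟩ ⟨true,0,⟨0,[(27,0)]⟩,⟨0,[]⟩⟩ ⟨false,1,⟨0,[(6,0),(3,0)]⟩,⟨0,[(3,0),(19,0)]⟩⟩,.o ⟨false,0,⟨0,
  [(13,0)]⟩,⟨2,[(7,0),(6,0),(3,0),(5,1)]⟩⟩]⟩) (.R ⟨1,false,false,false,[0,0,1],[1,-1],[0,0,0,0,0,0,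
  1],(⟨0,[(17,0)]⟩,⟨0,[(16,0)]⟩),(⟨0,[(19,0)]⟩,⟨0,[(20,0)]⟩),⟨0,[(0,0)]⟩,.k,.k,.k,.k,.k,.k,⟨false,0,
  ⟨0,[(15,0),(7,0)]⟩,⟨3,[(1,1),(1,1),(8,1),(5,0),(6,0)]⟩⟩,⟨true,0,⟨0,[(10,0)]⟩,⟨0,[(3,0)]⟩⟩,⟨false,
  1,⟨0,[(25,0),(1,0)]⟩,⟨0,[]⟩⟩,⟨false,1,⟨0,[(2,0),(22,0)]⟩,⟨0,[(3,0),(11,0),(7,0)]⟩⟩,⟨true,0,⟨0,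
  [(23,0)]⟩,⟨0,[(22,0)]⟩⟩,⟨false,1,⟨0,[(9,0),(15,0)]⟩,⟨0,[(3,0),(11,0)]⟩⟩,[.o ⟨false,1,⟨1,[(18,0),
  (3,1),(2,0)]⟩,⟨0,[(23,0)]⟩⟩,.o ⟨false,1,⟨1,[(1,0),(13,0),(2,0),(2,1)]⟩,⟨0,[(23,0),(3,0)]⟩⟩,.a
  ⟨true,0,⟨0,[(3,0)]⟩,⟨1,[(7,0),(8,0),(0,0)]⟩⟩ ⟨true,0,⟨0,[(15,0)]⟩,⟨0,[(3,0),(5,0)]⟩⟩ ⟨false,1,⟨0,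
  [(6,0),(3,0)]⟩,⟨0,[(3,0),(19,0)]⟩⟩,.o ⟨false,0,⟨0,[(13,0)]⟩,⟨2,[(7,0),(6,0),(3,0),(5,
  1)]⟩⟩]⟩))))))))

theorem ok0 : chk (cW (-1) 2) t0 base = true := by decide +kernel

theorem ok : chkB (cW (-1) 2) (fax (fcW (-1)) true 3 (-1) 2 true tW) t0 base = true :=
  chkB_of (by decide +kernel) ok0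

end Helper11.CT.T1_3_m1_1_v2
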