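import Pool.Agent.Helper11.CT.T.T1_3_m1_1_v_q

set_option autoImplicit false
set_option linter.all false

namespace Helper11.CT.T1_3_m1_1_v

open Helper11.CT

noncomputable def t2 : Tre :=
  (.N [0,1,1] 1 ⟨0,[(0,0)]⟩ ⟨0,[(3,0)]⟩ .k)

theorem ok2 : chk (cU (-1) false 2) t2 l6 = true := by decide +kernel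

noncomputable def t3 : Tre :=
  (.Q [0,0,0,0,0,0,1,0,0,2,-1] (.p false [-1,1,1] [1] (⟨0,[(3,0)]⟩,⟨0,[(20,0),(2,0)]⟩) .k 1 (⟨0,[]⟩,
  ⟨0,[]⟩) .k .k) (.I [1,-1,-1,-1,1] (.R ⟨0,false,false,true,[-1,1,1],[0,1],[1,0,1],(⟨0,[(5,0)]⟩,⟨0,
  [(22,0),(2,0)]⟩),(⟨0,[(26,0)]⟩,⟨0,[(25,0)]⟩),⟨0,[(22,0)]⟩,.k,.k,.k,.k,.k,.k,⟨false,1,⟨0,[(0,0)]⟩,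
  ⟨0,[(29,0),(3,0)]⟩⟩,⟨true,0,⟨0,[(8,0)]⟩,⟨3,[(1,1),(17,2),(0,0)]⟩⟩,⟨false,1,⟨0,[(3,0),(23,0)]⟩,⟨0,
  [(21,0),(7,0)]⟩⟩,⟨true,0,⟨0,[(15,0)]⟩,⟨0,[(2,0)]⟩⟩,⟨false,0,⟨0,[]⟩,⟨0,[]⟩⟩,⟨false,0,⟨0,[]⟩,⟨0,
  []⟩⟩,[.o ⟨false,0,⟨0,[(29,0),(3,0)]⟩,⟨0,[(4,0),(26,0)]⟩⟩,.o ⟨false,0,⟨0,[(29,0)]⟩,⟨1,[(24,0),(3,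
  1),(2,0)]⟩⟩,.o ⟨false,1,⟨1,[(1,1),(22,0),(5,0)]⟩,⟨0,[(8,1),(10,0)]⟩⟩,.a ⟨true,0,⟨0,[(1,0)]⟩,⟨0,
  [(8,0)]⟩⟩ ⟨true,0,⟨0,[]⟩,⟨0,[(33,0)]⟩⟩ ⟨false,0,⟨0,[(8,0),(20,0)]⟩,⟨1,[(0,0),(0,0),(17,0),(8,0),
  (2,0)]⟩⟩]⟩) (.R ⟨0,false,false,true,[-1,1,1],[0,1],[1,1,2,1],(⟨0,[(5,0)]⟩,⟨0,[(22,0),(2,0)]⟩),(⟨0,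
  [(26,0)]⟩,⟨0,[(25,0)]⟩),⟨0,[(22,0)]⟩,.k,.k,.k,.k,.k,.k,⟨false,0,⟨0,[]⟩,⟨3,[(11,0),(0,0),(17,1)]⟩⟩,
  ⟨true,0,⟨0,[(8,0)]⟩,⟨3,[(1,1),(17,2),(0,0)]⟩⟩,⟨false,0,⟨0,[(0,0),(2,0),(23,0)]⟩,⟨1,[(21,1),(8,0),
  (0,0)]⟩⟩,⟨true,0,⟨0,[(15,0)]⟩,⟨0,[(2,0)]⟩⟩,⟨false,0,⟨0,[]⟩,⟨0,[]⟩⟩,⟨false,0,⟨0,[]⟩,⟨0,[]⟩⟩,[.o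
  ⟨false,0,⟨0,[(29,0),(3,0)]⟩,⟨0,[(4,0),(26,0)]⟩⟩,.o ⟨false,0,⟨0,[(29,0)]⟩,⟨1,[(24,0),(3,1),(2,
  0)]⟩⟩,.o ⟨false,1,⟨1,[(1,1),(22,0),(5,0)]⟩,⟨2,[(0,0),(3,0),(3,2),(15,0),(2,1)]⟩⟩,.a ⟨true,0,⟨0,
  [(1,0)]⟩,⟨0,[(8,0)]⟩⟩ ⟨true,(-1),⟨0,[(0,0)]⟩,⟨0,[(3,0),(17,0)]⟩⟩ ⟨false,0,⟨0,[(8,0),(20,0)]⟩,⟨1,
  [(1,0),(1,0),(3,0),(19,0),(3,0)]⟩⟩]⟩)) (.Q [0,0,0,0,0,0,1,1,0,0,-1] (.p false [0,0,1] [] (⟨0,[(22,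
  0)]⟩,⟨0,[(21,0)]⟩) .k 0 (⟨0,[]⟩,⟨0,[]⟩) .k .k) (.Q [0,0,0,-1,0,0,0,0,-1,-1,0,1] (.p true [0,0,0,
  1] [1] (⟨0,[(14,0)]⟩,⟨1,[(13,0),(8,0),(0,0)]⟩) .k 1 (⟨0,[]⟩,⟨0,[]⟩) .k .k) (.I [0,0,1,1,0,0,0,0,
  1] (.I [1,-1,1,1,-1,0,0,1,-1] (.Q [0,0,0,0,0,1,0,0,0,0,0,-1] (.p false [0,0,0,1] [] (⟨0,[(17,0)]⟩,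
  ⟨1,[(16,0),(8,0),(0,0)]⟩) .k 0 (⟨0,[]⟩,⟨0,[]⟩) .k .k) (.R ⟨0,false,false,false,[0,0,0,1],[0,0,1],
  [0,1,0,-1,0,0,0,0,1],(⟨0,[(18,0)]⟩,⟨1,[(17,0),(8,0),(0,0)]⟩),(⟨0,[(27,0)]⟩,⟨0,[(26,0)]⟩),⟨0,[(0,
  0)]⟩,.k,.k,(.x 0 ⟨2,[(5,0),(14,0),(2,1),(5,2)]⟩ ⟨3,[(15,0),(0,0),(13,3),(3,1)]⟩),.k,.k,.k,⟨true,1,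
  ⟨1,[(7,0),(8,0),(5,0),(0,0),(8,0)]⟩,⟨0,[(1,0)]⟩⟩,⟨false,1,⟨0,[(18,0),(4,0),(10,0)]⟩,⟨1,[(14,0),(2,
  0)]⟩⟩,⟨true,0,⟨0,[(32,0)]⟩,⟨0,[(33,0)]⟩⟩,⟨false,0,⟨0,[(1,0),(2,0),(2,0),(10,0)]⟩,⟨1,[(16,0),(0,0),
  (1,0),(2,0),(12,0)]⟩⟩,⟨false,0,⟨0,[]⟩,⟨0,[]⟩⟩,⟨false,0,⟨0,[]⟩,⟨0,[]⟩⟩,[.o ⟨false,0,⟨0,[(4,0)]⟩,⟨1,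
  [(22,1),(5,0),(6,0)]⟩⟩,.o ⟨false,1,⟨0,[(21,0),(13,0)]⟩,⟨0,[(19,0)]⟩⟩,.a ⟨true,0,⟨1,[(17,0),(8,0),
  (0,0)]⟩,⟨0,[(18,0)]⟩⟩ ⟨false,1,⟨1,[(16,0),(15,1),(2,0)]⟩,⟨0,[(1,0),(11,0)]⟩⟩ ⟨true,0,⟨0,[(4,0),
  (13,0)]⟩,⟨1,[(17,0),(1,0),(2,0)]⟩⟩,.o ⟨false,0,⟨1,[(17,0),(2,0),(2,0)]⟩,⟨1,[(18,1),(9,0),(5,
  0)]⟩⟩]⟩) (.R ⟨1,false,false,true,[1,0,0,-1],[1,-1],[0,0,0,0,0,0,0,0,-1],(⟨1,[(17,0),(8,0),(0,0)]⟩,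
  ⟨0,[(18,0)]⟩),(⟨0,[(29,0)]⟩,⟨0,[(30,0)]⟩),⟨0,[(0,0),(16,0)]⟩,.k,.k,(.x 0 ⟨1,[(0,1),(16,0),(2,0),
  (2,0)]⟩ ⟨3,[(15,0),(0,0),(13,3),(3,1)]⟩),(.x (-1) ⟨3,[(15,0),(0,0),(13,3),(3,1)]⟩ ⟨1,[(0,1),(16,
  0),(2,0),(2,0)]⟩),.k,.k,⟨false,0,⟨0,[(1,0),(11,0)]⟩,⟨1,[(16,0),(15,1),(1,0)]⟩⟩,⟨true,0,⟨1,[(17,0),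
  (2,0),(2,0)]⟩,⟨0,[(18,0)]⟩⟩,⟨false,1,⟨3,[(15,0),(0,0),(18,1)]⟩,⟨0,[]⟩⟩,⟨false,1,⟨1,[(8,0),(7,0),
  (0,0),(14,0),(2,0)]⟩,⟨0,[(1,0),(11,0),(4,0)]⟩⟩,⟨true,0,⟨0,[(33,0)]⟩,⟨0,[(32,0)]⟩⟩,⟨false,1,⟨7,
  [(15,0),(0,4),(0,3),(10,1)]⟩,⟨0,[(1,0),(5,0),(10,0)]⟩⟩,[.o ⟨false,0,⟨0,[(8,0)]⟩,⟨3,[(2,1),(12,0),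
  (17,1),(0,0),(0,1)]⟩⟩,.o ⟨false,1,⟨1,[(28,0),(3,1),(2,0)]⟩,⟨0,[(33,0)]⟩⟩,.a ⟨true,0,⟨0,[(18,0)]⟩,
  ⟨1,[(17,0),(8,0),(0,0)]⟩⟩ ⟨false,0,⟨0,[(1,0),(5,0)]⟩,⟨3,[(15,0),(0,2)]⟩⟩ ⟨true,0,⟨1,[(8,0),(8,0),
  (14,0)]⟩,⟨0,[(18,0),(14,0)]⟩⟩,.o ⟨false,0,⟨0,[(2,0),(0,0)]⟩,⟨7,[(15,0),(0,0),(0,3),(10,1),(5,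
  3)]⟩⟩]⟩)) (.I [0,0,-1,-1,1,0,0,0,1] (.I [1,-1,1,0,0,0,0,1,1] (.Q [0,1,0,1,0,0,0,0,1,1,0,-1] (.p
  false [0,0,0,1] [1] (⟨0,[(19,0)]⟩,⟨1,[(18,0),(8,0),(0,0)]⟩) .k 1 (⟨0,[]⟩,⟨0,[]⟩) .k .k) (.Q [0,0,
  0,0,0,1,0,0,0,0,0,-1] (.p false [0,0,0,1] [] (⟨0,[(20,0)]⟩,⟨1,[(19,0),(8,0),(0,0)]⟩) .k 0 (⟨0,[]⟩,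
  ⟨0,[]⟩) .k .k) (.I [1,0,-2,-1,1] (.R ⟨0,false,false,false,[0,0,0,1],[1,-1],[0,1],(⟨0,[(22,0)]⟩,⟨1,
  [(21,0),(8,0),(0,0)]⟩),(⟨0,[(33,0)]⟩,⟨0,[(34,0)]⟩),⟨0,[(1,0)]⟩,.k,.k,(.r (-1) ⟨0,[(4,0)]⟩ ⟨1,[(7,
  1),(13,0),(5,0),(0,0),(1,0),(0,0),(5,3)]⟩),(.r 0 ⟨0,[(6,0)]⟩ ⟨7,[(0,3),(6,1),(11,2),(1,0),(8,0),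
  (0,0),(4,1),(2,0)]⟩),.k,.k,⟨false,0,⟨0,[(37,0),(3,0)]⟩,⟨0,[(0,0),(34,0)]⟩⟩,⟨true,0,⟨0,[(6,0),(0,
  0)]⟩,⟨1,[(21,0),(8,0),(0,0)]⟩⟩,⟨false,0,⟨1,[(7,1),(13,0),(8,0),(0,0),(5,1)]⟩,⟨1,[(20,0),(18,0)]⟩⟩,
  ⟨true,0,⟨0,[(7,0)]⟩,⟨0,[(2,0)]⟩⟩,⟨false,0,⟨0,[]⟩,⟨0,[]⟩⟩,⟨false,0,⟨0,[]⟩,⟨0,[]⟩⟩,[.o ⟨false,1,⟨1,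
  [(32,0),(3,1),(2,0)]⟩,⟨0,[(37,0)]⟩⟩,.o ⟨false,1,⟨0,[(12,0),(26,0)]⟩,⟨0,[(37,0),(3,0)]⟩⟩,.a ⟨true,
  0,⟨1,[(21,0),(8,0),(0,0)]⟩,⟨0,[(22,0)]⟩⟩ ⟨true,0,⟨0,[(41,0)]⟩,⟨0,[]⟩⟩ ⟨false,1,⟨1,[(7,1),(12,0),
  (18,0)]⟩,⟨1,[(21,0),(8,0),(0,0),(5,1)]⟩⟩,.o ⟨false,0,⟨1,[(21,0),(2,0),(2,0)]⟩,⟨1,[(22,1),(9,0),(5,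
  0)]⟩⟩]⟩) (.I [0,1,-1,0,0,0,0,0,-1] (.I [1,-1,-1,-1,1] (.R ⟨0,false,false,false,[0,0,0,1],[1,-1],
  [0,1],(⟨0,[(24,0)]⟩,⟨1,[(23,0),(8,0),(0,0)]⟩),(⟨0,[(35,0)]⟩,⟨0,[(36,0)]⟩),⟨0,[(3,0)]⟩,.k,.k,(.r
  (-1) ⟨0,[(6,0)]⟩ ⟨1,[(2,0),(18,0),(17,0)]⟩),(.r 0 ⟨0,[(8,0)]⟩ ⟨2,[(0,1),(0,0),(19,0),(16,0)]⟩),.k,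
  .k,⟨false,0,⟨0,[(1,0),(6,0)]⟩,⟨0,[(0,0)]⟩⟩,⟨true,0,⟨0,[(8,0),(0,0)]⟩,⟨1,[(23,0),(8,0),(0,0)]⟩⟩,
  ⟨false,0,⟨0,[(1,0),(35,0)]⟩,⟨1,[(22,0),(18,0)]⟩⟩,⟨true,0,⟨0,[(9,0)]⟩,⟨0,[(4,0)]⟩⟩,⟨false,0,⟨0,[]⟩,
  ⟨0,[]⟩⟩,⟨false,0,⟨0,[]⟩,⟨0,[]⟩⟩,[.o ⟨false,1,⟨1,[(34,0),(3,1),(2,0)]⟩,⟨0,[(39,0)]⟩⟩,.o ⟨false,1,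
  ⟨0,[(14,0),(26,0)]⟩,⟨0,[(1,0),(6,0)]⟩⟩,.a ⟨true,0,⟨1,[(23,0),(8,0),(0,0)]⟩,⟨0,[(24,0)]⟩⟩ ⟨true,0,
  ⟨0,[(43,0)]⟩,⟨0,[]⟩⟩ ⟨false,1,⟨1,[(9,1),(12,0),(18,0)]⟩,⟨1,[(23,0),(8,0),(0,0),(5,1)]⟩⟩,.o ⟨false,
  0,⟨1,[(23,0),(2,0),(2,0)]⟩,⟨1,[(24,1),(9,0),(5,0)]⟩⟩]⟩) (.R ⟨0,false,false,false,[0,0,0,1],[1,-1],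
  [0,0,-1,-1],(⟨0,[(24,0)]⟩,⟨1,[(23,0),(8,0),(0,0)]⟩),(⟨0,[(35,0)]⟩,⟨0,[(36,0)]⟩),⟨0,[(3,0)]⟩,.k,.k,
  (.r (-1) ⟨0,[(6,0)]⟩ ⟨1,[(2,0),(18,0),(17,0)]⟩),(.r 0 ⟨0,[(8,0)]⟩ ⟨3,[(9,1),(2,1),(0,1),(6,0),(0,
  0),(1,0),(16,0)]⟩),.k,.k,⟨false,1,⟨3,[(21,0),(0,0),(17,1)]⟩,⟨0,[]⟩⟩,⟨true,0,⟨0,[(8,0),(0,0)]⟩,⟨1,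
  [(23,0),(8,0),(0,0)]⟩⟩,⟨false,1,⟨1,[(9,1),(13,0),(8,0),(0,0),(6,0),(0,0)]⟩,⟨0,[(8,0)]⟩⟩,⟨true,0,
  ⟨0,[(9,0)]⟩,⟨0,[(4,0)]⟩⟩,⟨false,0,⟨0,[]⟩,⟨0,[]⟩⟩,⟨false,0,⟨0,[]⟩,⟨0,[]⟩⟩,[.o ⟨false,1,⟨1,[(34,0),
  (3,1),(2,0)]⟩,⟨0,[(39,0)]⟩⟩,.o ⟨false,1,⟨0,[(14,0),(26,0)]⟩,⟨0,[(1,0),(6,0)]⟩⟩,.a ⟨true,0,⟨1,[(23,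
  0),(8,0),(0,0)]⟩,⟨0,[(24,0)]⟩⟩ ⟨true,1,⟨7,[(6,3),(2,1),(2,1),(0,1),(6,0),(0,0),(1,0),(16,0)]⟩,⟨0,
  [(0,0)]⟩⟩ ⟨false,1,⟨1,[(9,1),(12,0),(18,0)]⟩,⟨1,[(23,0),(8,0),(0,0),(5,1)]⟩⟩,.o ⟨false,0,⟨1,[(23,
  0),(2,0),(2,0)]⟩,⟨1,[(24,1),(9,0),(5,0)]⟩⟩]⟩)) (.R ⟨0,false,false,false,[0,0,0,1],[1,-1],[0,1],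
  (⟨0,[(23,0)]⟩,⟨1,[(22,0),(8,0),(0,0)]⟩),(⟨0,[(34,0)]⟩,⟨0,[(35,0)]⟩),⟨0,[(2,0)]⟩,.k,.k,(.r (-1) ⟨0,
  [(5,0)]⟩ ⟨1,[(1,0),(18,0),(17,0)]⟩),(.r 0 ⟨0,[(7,0)]⟩ ⟨3,[(8,1),(2,1),(0,1),(6,0),(0,0),(1,0),(16,
  0)]⟩),.k,.k,⟨false,0,⟨0,[(38,0),(3,0)]⟩,⟨1,[(0,1),(7,1),(13,0),(8,0),(0,0),(6,1)]⟩⟩,⟨true,0,⟨0,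
  [(7,0),(0,0)]⟩,⟨1,[(22,0),(8,0),(0,0)]⟩⟩,⟨false,0,⟨1,[(8,1),(13,0),(8,0),(0,0),(5,1)]⟩,⟨1,[(21,0),
  (18,0)]⟩⟩,⟨true,0,⟨0,[(8,0)]⟩,⟨0,[(3,0)]⟩⟩,⟨false,0,⟨0,[]⟩,⟨0,[]⟩⟩,⟨false,0,⟨0,[]⟩,⟨0,[]⟩⟩,[.o
  ⟨false,1,⟨1,[(33,0),(3,1),(2,0)]⟩,⟨0,[(38,0)]⟩⟩,.o ⟨false,1,⟨0,[(13,0),(26,0)]⟩,⟨0,[(38,0),(3,
  0)]⟩⟩,.a ⟨true,0,⟨1,[(22,0),(8,0),(0,0)]⟩,⟨0,[(23,0)]⟩⟩ ⟨true,0,⟨0,[(42,0)]⟩,⟨0,[]⟩⟩ ⟨false,1,⟨1,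
  [(8,1),(12,0),(18,0)]⟩,⟨1,[(22,0),(8,0),(0,0),(5,1)]⟩⟩,.o ⟨false,0,⟨1,[(22,0),(2,0),(2,0)]⟩,⟨1,
  [(23,1),(9,0),(5,0)]⟩⟩]⟩))) (.Q [0,-1,0,0,0,0,0,0,-1,0,0,1] (.p true [0,0,0,1] [] (⟨0,[(21,0)]⟩,
  ⟨1,[(20,0),(8,0),(0,0)]⟩) .k 0 (⟨0,[]⟩,⟨0,[]⟩) .k .k) (.R ⟨1,false,false,true,[1,0,0,-1],[1,-1],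
  [0,1,0,0,0,0,0,0,-1],(⟨1,[(21,0),(8,0),(0,0)]⟩,⟨0,[(22,0)]⟩),(⟨0,[(33,0)]⟩,⟨0,[(34,0)]⟩),⟨0,[(1,
  0),(19,0)]⟩,.k,.k,(.r (-1) ⟨2,[(0,0),(3,0),(2,0),(11,0),(1,0),(14,0),(1,0)]⟩ ⟨0,[(6,0)]⟩),(.r 0
  ⟨1,[(0,1),(20,0),(2,0),(2,0),(9,1),(3,1)]⟩ ⟨0,[(4,0)]⟩),.k,.k,⟨false,0,⟨1,[(0,0),(6,0),(13,0),(15,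
  2),(3,0)]⟩,⟨0,[(4,0)]⟩⟩,⟨true,0,⟨1,[(21,0),(2,0),(2,0)]⟩,⟨0,[(22,0)]⟩⟩,⟨true,0,⟨0,[(41,0)]⟩,⟨0,
  []⟩⟩,⟨false,1,⟨1,[(4,1),(16,0),(2,0),(2,0)]⟩,⟨0,[(0,0),(36,0)]⟩⟩,⟨false,0,⟨0,[(37,0)]⟩,⟨0,[(36,0),
  (2,0)]⟩⟩,⟨false,1,⟨7,[(19,0),(0,4),(0,3),(10,1)]⟩,⟨0,[(0,0)]⟩⟩,[.o ⟨false,0,⟨0,[(12,0)]⟩,⟨3,[(6,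
  1),(12,0),(17,1),(0,0),(0,1)]⟩⟩,.o ⟨false,1,⟨1,[(32,0),(3,1),(2,0)]⟩,⟨0,[(37,0)]⟩⟩,.a ⟨true,0,⟨0,
  [(22,0)]⟩,⟨1,[(21,0),(8,0),(0,0)]⟩⟩ ⟨false,0,⟨1,[(0,0),(6,0),(13,0),(15,0),(3,0)]⟩,⟨1,[(20,0),(18,
  0)]⟩⟩ ⟨true,0,⟨1,[(12,0),(8,0),(14,0)]⟩,⟨0,[(22,0),(14,0)]⟩⟩,.o ⟨false,0,⟨0,[(6,0),(0,0)]⟩,⟨7,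
  [(19,0),(0,0),(0,3),(10,1),(5,3)]⟩⟩]⟩) (.R ⟨1,false,false,false,[0,0,0,1],[1,-1],[0,1,0,0,0,0,0,0,
  1],(⟨0,[(22,0)]⟩,⟨1,[(21,0),(8,0),(0,0)]⟩),(⟨0,[(33,0)]⟩,⟨0,[(34,0)]⟩),⟨0,[(1,0)]⟩,.k,.k,(.r (-1)
  ⟨0,[(4,0)]⟩ ⟨1,[(7,1),(13,0),(5,0),(0,0),(1,0),(0,0),(5,3)]⟩),(.r 0 ⟨0,[(6,0)]⟩ ⟨3,[(7,1),(2,1),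
  (0,1),(6,0),(0,0),(1,0),(16,0)]⟩),.k,.k,⟨false,0,⟨0,[(0,0),(21,0),(14,0)]⟩,⟨1,[(7,1),(13,0),(8,0),
  (0,0),(6,0),(0,0)]⟩⟩,⟨true,0,⟨0,[(6,0),(0,0)]⟩,⟨1,[(21,0),(8,0),(0,0)]⟩⟩,⟨true,0,⟨0,[(41,0)]⟩,⟨0,
  []⟩⟩,⟨true,0,⟨0,[(7,0)]⟩,⟨0,[(2,0)]⟩⟩,⟨false,0,⟨0,[(37,0)]⟩,⟨0,[(36,0),(2,0)]⟩⟩,⟨true,0,⟨0,[(7,0),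
  (29,0)]⟩,⟨0,[(0,0),(29,0),(0,0)]⟩⟩,[.o ⟨false,1,⟨1,[(32,0),(3,1),(2,0)]⟩,⟨0,[(37,0)]⟩⟩,.o ⟨false,
  1,⟨0,[(12,0),(26,0)]⟩,⟨0,[(37,0),(3,0)]⟩⟩,.a ⟨true,0,⟨1,[(21,0),(8,0),(0,0)]⟩,⟨0,[(22,0)]⟩⟩ ⟨true,
  0,⟨0,[(0,0),(21,0)]⟩,⟨1,[(7,1),(13,0),(8,0),(0,0),(5,1)]⟩⟩ ⟨false,1,⟨1,[(7,1),(12,0),(18,0)]⟩,⟨1,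
  [(21,0),(8,0),(0,0),(5,1)]⟩⟩,.o ⟨false,0,⟨1,[(21,0),(2,0),(2,0)]⟩,⟨1,[(22,1),(9,0),(5,0)]⟩⟩]⟩)))
  (.Q [0,0,0,0,0,1,0,0,0,-1,0,1] (.p true [0,0,0,1] [1] (⟨0,[(20,0)]⟩,⟨1,[(19,0),(8,0),(0,0)]⟩) .k
  1 (⟨0,[]⟩,⟨0,[]⟩) .k .k) (.R ⟨0,false,false,true,[1,0,0,-1],[1,-1],[1,0,0,0,0,0,0,0,-1],(⟨1,[(20,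
  0),(8,0),(0,0)]⟩,⟨0,[(21,0)]⟩),(⟨0,[(32,0)]⟩,⟨0,[(33,0)]⟩),⟨0,[(0,0)]⟩,.k,.k,(.r (-1) ⟨5,[(1,1),
  (7,1),(0,1),(6,0),(0,1),(1,0),(14,1),(1,1)]⟩ ⟨0,[(5,0)]⟩),(.r 0 ⟨1,[(6,1),(13,0),(5,0),(0,0),(1,
  0),(0,0),(5,3)]⟩ ⟨0,[(3,0)]⟩),.k,.k,⟨false,0,⟨1,[(1,1),(18,0),(8,0),(0,0),(5,3)]⟩,⟨0,[(3,0),(36,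
  0)]⟩⟩,⟨true,0,⟨1,[(20,0),(2,0),(2,0)]⟩,⟨0,[(21,0)]⟩⟩,⟨true,0,⟨0,[]⟩,⟨0,[(40,0)]⟩⟩,⟨false,1,⟨1,[(3,
  1),(16,0),(2,0),(2,0)]⟩,⟨0,[(1,0),(27,0),(0,0),(5,1)]⟩⟩,⟨false,0,⟨0,[]⟩,⟨0,[]⟩⟩,⟨false,0,⟨0,[]⟩,
  ⟨0,[]⟩⟩,[.o ⟨false,0,⟨0,[(11,0)]⟩,⟨3,[(5,1),(12,0),(17,1),(0,0),(0,1)]⟩⟩,.o ⟨false,1,⟨1,[(31,0),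
  (3,1),(2,0)]⟩,⟨0,[(36,0)]⟩⟩,.a ⟨true,0,⟨0,[(21,0)]⟩,⟨1,[(20,0),(8,0),(0,0)]⟩⟩ ⟨false,0,⟨1,[(1,1),
  (18,0),(8,0),(0,0),(5,1)]⟩,⟨3,[(18,0),(0,2)]⟩⟩ ⟨true,0,⟨1,[(11,0),(8,0),(14,0)]⟩,⟨0,[(21,0),(14,
  0)]⟩⟩,.o ⟨false,0,⟨0,[(5,0),(0,0)]⟩,⟨7,[(18,0),(0,0),(0,3),(10,1),(5,3)]⟩⟩]⟩) (.R ⟨1,false,false,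
  true,[1,0,0,-1],[1,-1],[0,0,0,0,0,0,0,0,-1],(⟨1,[(20,0),(8,0),(0,0)]⟩,⟨0,[(21,0)]⟩),(⟨0,[(32,0)]⟩,
  ⟨0,[(33,0)]⟩),⟨0,[(0,0)]⟩,.k,.k,(.r (-1) ⟨5,[(1,1),(7,1),(0,1),(6,0),(0,1),(1,0),(14,1),(1,1)]⟩
  ⟨0,[(5,0)]⟩),(.r 0 ⟨1,[(6,1),(13,0),(5,0),(0,0),(1,0),(0,0),(5,3)]⟩ ⟨0,[(3,0)]⟩),.k,.k,⟨false,0,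
  ⟨1,[(1,1),(18,0),(8,0),(0,0),(5,3)]⟩,⟨0,[(3,0),(36,0)]⟩⟩,⟨true,0,⟨1,[(20,0),(2,0),(2,0)]⟩,⟨0,[(21,
  0)]⟩⟩,⟨false,1,⟨3,[(18,0),(0,0),(18,1)]⟩,⟨0,[]⟩⟩,⟨false,1,⟨1,[(3,1),(16,0),(2,0),(2,0)]⟩,⟨0,[(1,
  0),(27,0),(0,0),(5,1)]⟩⟩,⟨true,0,⟨0,[(36,0)]⟩,⟨0,[(35,0)]⟩⟩,⟨false,1,⟨7,[(18,0),(0,4),(0,3),(10,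
  1)]⟩,⟨0,[(1,0),(27,0),(0,0),(5,0)]⟩⟩,[.o ⟨false,0,⟨0,[(11,0)]⟩,⟨3,[(5,1),(12,0),(17,1),(0,0),(0,
  1)]⟩⟩,.o ⟨false,1,⟨1,[(31,0),(3,1),(2,0)]⟩,⟨0,[(36,0)]⟩⟩,.a ⟨true,0,⟨0,[(21,0)]⟩,⟨1,[(20,0),(8,0),
  (0,0)]⟩⟩ ⟨false,0,⟨1,[(1,1),(18,0),(8,0),(0,0),(5,1)]⟩,⟨3,[(18,0),(0,2)]⟩⟩ ⟨true,0,⟨1,[(11,0),(8,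
  0),(14,0)]⟩,⟨0,[(21,0),(14,0)]⟩⟩,.o ⟨false,0,⟨0,[(5,0),(0,0)]⟩,⟨7,[(18,0),(0,0),(0,3),(10,1),(5,
  3)]⟩⟩]⟩))) (.I [0,0,-1,-1,0,0,0,1,-1] (.Q [0,0,0,0,0,1,0,0,0,0,0,-1] (.p false [0,0,0,1] [] (⟨0,
  [(20,0)]⟩,⟨1,[(19,0),(8,0),(0,0)]⟩) .k 0 (⟨0,[]⟩,⟨0,[]⟩) .k .k) (.R ⟨0,false,false,true,[0,0,0,1],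
  [1,-1],[0,1,-1,-1],(⟨0,[(21,0)]⟩,⟨1,[(20,0),(8,0),(0,0)]⟩),(⟨0,[(32,0)]⟩,⟨0,[(33,0)]⟩),⟨0,[(0,
  0)]⟩,.k,.k,(.r (-1) ⟨0,[(3,0)]⟩ ⟨3,[(1,1),(0,1),(23,2),(0,2),(6,1),(1,5)]⟩),(.r 0 ⟨0,[(5,0)]⟩ ⟨4,
  [(1,1),(1,0),(6,1),(7,1)]⟩),.k,.k,⟨false,1,⟨3,[(18,0),(0,0),(17,1)]⟩,⟨0,[]⟩⟩,⟨true,0,⟨0,[(5,0),(0,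
  0)]⟩,⟨1,[(20,0),(8,0),(0,0)]⟩⟩,⟨true,0,⟨1,[(1,0),(0,0),(32,0)]⟩,⟨0,[(5,0)]⟩⟩,⟨false,0,⟨0,[(6,0)]⟩,
  ⟨1,[(5,1),(14,0),(8,0),(0,0),(6,0),(0,0)]⟩⟩,⟨false,0,⟨0,[]⟩,⟨0,[]⟩⟩,⟨false,0,⟨0,[]⟩,⟨0,[]⟩⟩,[.o
  ⟨false,0,⟨0,[(11,0)]⟩,⟨3,[(5,1),(12,0),(17,1),(0,0),(0,1)]⟩⟩,.o ⟨false,1,⟨1,[(31,0),(3,1),(2,0)]⟩,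
  ⟨0,[(36,0)]⟩⟩,.a ⟨true,0,⟨1,[(20,0),(8,0),(0,0)]⟩,⟨0,[(21,0)]⟩⟩ ⟨false,1,⟨4,[(1,0),(1,2),(6,0),(7,
  0)]⟩,⟨0,[(34,0),(1,0)]⟩⟩ ⟨true,0,⟨0,[(11,0),(9,0)]⟩,⟨1,[(20,0),(8,0),(0,0),(5,1)]⟩⟩,.o ⟨false,0,
  ⟨1,[(20,0),(2,0),(2,0)]⟩,⟨1,[(21,1),(9,0),(5,0)]⟩⟩]⟩) (.R ⟨1,false,false,true,[0,0,0,1],[1,-1],[1,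
  0,0,-1,0,0,0,0,1],(⟨0,[(21,0)]⟩,⟨1,[(20,0),(8,0),(0,0)]⟩),(⟨0,[(32,0)]⟩,⟨0,[(33,0)]⟩),⟨0,[(0,0)]⟩,
  .k,.k,(.r (-1) ⟨0,[(3,0)]⟩ ⟨3,[(1,1),(0,1),(23,2),(0,2),(6,1),(1,5)]⟩),(.r 0 ⟨0,[(5,0)]⟩ ⟨4,[(1,
  1),(1,0),(6,1),(7,1)]⟩),.k,.k,⟨false,1,⟨1,[(19,0),(18,0)]⟩,⟨1,[(1,0),(0,0),(33,0),(3,0)]⟩⟩,⟨true,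
  0,⟨0,[(5,0),(0,0)]⟩,⟨1,[(20,0),(8,0),(0,0)]⟩⟩,⟨false,1,⟨0,[(35,0),(2,0)]⟩,⟨0,[(36,0)]⟩⟩,⟨false,0,
  ⟨0,[(6,0)]⟩,⟨1,[(5,1),(14,0),(8,0),(0,0),(6,0),(0,0)]⟩⟩,⟨true,0,⟨0,[]⟩,⟨0,[(40,0)]⟩⟩,⟨false,0,⟨0,
  [(6,0),(29,0)]⟩,⟨1,[(19,0),(0,0),(8,0),(0,0),(7,0)]⟩⟩,[.o ⟨false,0,⟨0,[(11,0)]⟩,⟨3,[(5,1),(12,0),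
  (17,1),(0,0),(0,1)]⟩⟩,.o ⟨false,1,⟨1,[(31,0),(3,1),(2,0)]⟩,⟨0,[(36,0)]⟩⟩,.a ⟨true,0,⟨1,[(20,0),(8,
  0),(0,0)]⟩,⟨0,[(21,0)]⟩⟩ ⟨false,1,⟨0,[(3,0),(30,0)]⟩,⟨3,[(1,1),(0,1),(23,0),(0,0),(6,1),(1,5)]⟩⟩
  ⟨true,0,⟨0,[(11,0),(9,0)]⟩,⟨1,[(20,0),(8,0),(0,0),(5,1)]⟩⟩,.o ⟨false,0,⟨1,[(20,0),(2,0),(2,0)]⟩,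
  ⟨1,[(21,1),(9,0),(5,0)]⟩⟩]⟩)) (.Q [0,0,0,1,0,0,-1,-1,0,0,1] (.p true [0,0,1] [] (⟨0,[(29,0)]⟩,⟨0,
  [(28,0)]⟩) .k 0 (⟨0,[]⟩,⟨0,[]⟩) .k .k) (.R ⟨2,true,false,false,[0,1],[0,0,1],[1,1,1],(⟨0,[]⟩,⟨0,
  []⟩),(⟨0,[(30,0)]⟩,⟨0,[(29,0)]⟩),⟨0,[]⟩,.k,.k,.k,.k,.k,.k,⟨false,0,⟨1,[(1,0),(0,0),(32,0)]⟩,⟨1,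
  [(28,1),(8,0),(0,0)]⟩⟩,⟨true,0,⟨0,[(26,0)]⟩,⟨1,[(17,0),(11,0),(0,0)]⟩⟩,⟨true,0,⟨0,[(35,0)]⟩,⟨0,
  [(36,0)]⟩⟩,⟨false,1,⟨0,[(14,0),(23,0)]⟩,⟨0,[(0,0)]⟩⟩,⟨false,0,⟨0,[]⟩,⟨3,[(18,0),(0,0),(18,1)]⟩⟩,
  ⟨true,0,⟨0,[(7,0)]⟩,⟨0,[(25,0)]⟩⟩,[]⟩) (.Q [0,0,0,0,0,1,0,0,0,0,0,-1] (.p false [0,0,0,1] [] (⟨0,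
  [(21,0)]⟩,⟨1,[(20,0),(8,0),(0,0)]⟩) .k 0 (⟨0,[]⟩,⟨0,[]⟩) .k .k) (.R ⟨0,false,false,true,[0,0,0,1],
  [1,-1],[0,1,-1,-1],(⟨0,[(22,0)]⟩,⟨1,[(21,0),(8,0),(0,0)]⟩),(⟨0,[(33,0)]⟩,⟨0,[(34,0)]⟩),⟨0,[(0,
  0)]⟩,.k,.k,(.r (-1) ⟨0,[(4,0)]⟩ ⟨2,[(3,0),(3,1),(2,0),(10,0),(5,0),(0,1),(6,0),(1,4)]⟩),(.r 0 ⟨0,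
  [(6,0)]⟩ ⟨3,[(7,1),(2,1),(0,1),(6,0),(0,0),(1,0),(16,0)]⟩),.k,.k,⟨false,1,⟨3,[(19,0),(0,0),(17,
  1)]⟩,⟨0,[]⟩⟩,⟨true,0,⟨0,[(6,0),(0,0)]⟩,⟨1,[(21,0),(8,0),(0,0)]⟩⟩,⟨true,0,⟨1,[(1,1),(1,1),(14,0),
  (11,0),(0,0)]⟩,⟨0,[(6,0)]⟩⟩,⟨false,0,⟨0,[(7,0)]⟩,⟨1,[(6,1),(14,0),(8,0),(0,0),(6,0),(0,0)]⟩⟩,
  ⟨false,0,⟨0,[]⟩,⟨0,[]⟩⟩,⟨false,0,⟨0,[]⟩,⟨0,[]⟩⟩,[.o ⟨false,0,⟨0,[(12,0)]⟩,⟨3,[(6,1),(12,0),(17,1),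
  (0,0),(0,1)]⟩⟩,.o ⟨false,1,⟨7,[(1,3),(9,3),(7,0),(0,0),(3,3),(7,1)]⟩,⟨0,[(37,0)]⟩⟩,.a ⟨true,0,⟨1,
  [(21,0),(8,0),(0,0)]⟩,⟨0,[(22,0)]⟩⟩ ⟨false,1,⟨7,[(1,1),(2,1),(5,1),(0,3),(6,1),(0,0),(18,0)]⟩,⟨0,
  [(35,0),(1,0)]⟩⟩ ⟨true,0,⟨0,[(12,0),(9,0)]⟩,⟨1,[(21,0),(8,0),(0,0),(5,1)]⟩⟩,.o ⟨false,0,⟨1,[(21,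
  0),(2,0),(2,0)]⟩,⟨1,[(22,1),(9,0),(5,0)]⟩⟩]⟩) (.R ⟨1,false,false,true,[0,0,0,1],[1,-1],[0,0,0,0,0,
  0,0,0,1],(⟨0,[(22,0)]⟩,⟨1,[(21,0),(8,0),(0,0)]⟩),(⟨0,[(33,0)]⟩,⟨0,[(34,0)]⟩),⟨0,[(0,0)]⟩,.k,.k,
  (.r (-1) ⟨0,[(4,0)]⟩ ⟨2,[(3,0),(3,1),(2,0),(10,0),(5,0),(0,1),(6,0),(1,4)]⟩),(.r 0 ⟨0,[(6,0)]⟩ ⟨3,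
  [(7,1),(2,1),(0,1),(6,0),(0,0),(1,0),(16,0)]⟩),.k,.k,⟨false,1,⟨1,[(6,1),(31,0),(0,0)]⟩,⟨1,[(1,1),
  (1,1),(14,0),(11,0),(0,0)]⟩⟩,⟨true,0,⟨0,[(6,0),(0,0)]⟩,⟨1,[(21,0),(8,0),(0,0)]⟩⟩,⟨false,1,⟨3,[(19,
  0),(0,0),(18,1)]⟩,⟨0,[]⟩⟩,⟨false,0,⟨0,[(7,0)]⟩,⟨1,[(6,1),(14,0),(8,0),(0,0),(6,0),(0,0)]⟩⟩,⟨true,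
  0,⟨0,[(37,0)]⟩,⟨0,[(36,0)]⟩⟩,⟨false,0,⟨0,[(7,0),(29,0)]⟩,⟨1,[(20,0),(0,0),(8,0),(0,0),(7,0)]⟩⟩,
  [.o ⟨false,0,⟨0,[(12,0)]⟩,⟨3,[(6,1),(12,0),(17,1),(0,0),(0,1)]⟩⟩,.o ⟨false,1,⟨7,[(1,3),(9,3),(7,
  0),(0,0),(3,3),(7,1)]⟩,⟨0,[(37,0)]⟩⟩,.a ⟨true,0,⟨1,[(21,0),(8,0),(0,0)]⟩,⟨0,[(22,0)]⟩⟩ ⟨false,1,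
  ⟨1,[(20,0),(18,0)]⟩,⟨3,[(3,1),(3,1),(2,1),(7,0),(2,0),(13,1),(1,1)]⟩⟩ ⟨true,0,⟨0,[(12,0),(9,0)]⟩,
  ⟨1,[(21,0),(8,0),(0,0),(5,1)]⟩⟩,.o ⟨false,0,⟨1,[(21,0),(2,0),(2,0)]⟩,⟨1,[(22,1),(9,0),(5,
  0)]⟩⟩]⟩))))) (.Q [0,0,0,0,0,1,0,0,0,0,0,-1] (.p false [0,0,0,1] [] (⟨0,[(18,0)]⟩,⟨1,[(17,0),(8,0),
  (0,0)]⟩) .k 0 (⟨0,[]⟩,⟨0,[]⟩) .k .k) (.R ⟨0,false,false,false,[0,0,0,1],[0,1],[1,0,1,1],(⟨0,[(19,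
  0)]⟩,⟨1,[(18,0),(8,0),(0,0)]⟩),(⟨0,[(31,0)]⟩,⟨0,[(30,0)]⟩),⟨0,[(0,0)]⟩,.k,.k,(.x 0 ⟨2,[(6,0),(14,
  0),(2,1),(5,2)]⟩ ⟨3,[(16,0),(0,0),(13,3),(3,1)]⟩),(.x 0 ⟨2,[(6,0),(14,0),(2,1),(5,2)]⟩ ⟨3,[(16,0),
  (0,0),(13,3),(3,1)]⟩),.k,.k,⟨true,0,⟨0,[]⟩,⟨1,[(24,0),(0,0)]⟩⟩,⟨false,1,⟨0,[(19,0),(15,0)]⟩,⟨1,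
  [(18,0),(2,0),(2,0)]⟩⟩,⟨true,(-1),⟨0,[(1,0)]⟩,⟨1,[(17,0),(15,1),(1,0)]⟩⟩,⟨false,0,⟨1,[(1,1),(17,
  1),(15,0),(0,0)]⟩,⟨1,[(9,0),(7,0),(0,0),(14,0),(2,0)]⟩⟩,⟨false,0,⟨0,[]⟩,⟨0,[]⟩⟩,⟨false,0,⟨0,[]⟩,
  ⟨0,[]⟩⟩,[.o ⟨false,0,⟨0,[(34,0)]⟩,⟨1,[(29,0),(3,1),(2,0)]⟩⟩,.o ⟨false,1,⟨3,[(3,1),(12,0),(17,1),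
  (0,0),(0,1)]⟩,⟨0,[(9,0)]⟩⟩,.a ⟨true,0,⟨1,[(18,0),(8,0),(0,0)]⟩,⟨0,[(19,0)]⟩⟩ ⟨false,0,⟨1,[(1,0),
  (1,0),(32,0)]⟩,⟨0,[(8,0),(17,0)]⟩⟩ ⟨true,0,⟨0,[(19,0),(14,0)]⟩,⟨1,[(9,0),(8,0),(14,0)]⟩⟩,.o
  ⟨false,0,⟨1,[(18,0),(2,0),(2,0)]⟩,⟨1,[(19,1),(9,0),(5,0)]⟩⟩]⟩) (.R ⟨1,false,false,true,[0,0,0,1],
  [1,-1],[1,0,1],(⟨0,[(19,0)]⟩,⟨1,[(18,0),(8,0),(0,0)]⟩),(⟨0,[(30,0)]⟩,⟨0,[(31,0)]⟩),⟨0,[(0,0)]⟩,.k,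
  .k,(.x 0 ⟨2,[(6,0),(14,0),(2,1),(5,2)]⟩ ⟨3,[(16,0),(0,0),(13,3),(3,1)]⟩),(.r 0 ⟨0,[(3,0)]⟩ ⟨3,[(4,
  1),(2,1),(0,1),(6,0),(0,0),(1,0),(16,0)]⟩),.k,.k,⟨false,0,⟨1,[(1,0),(1,0),(32,0)]⟩,⟨0,[(33,0),(1,
  0)]⟩⟩,⟨true,0,⟨0,[(3,0),(0,0)]⟩,⟨1,[(18,0),(8,0),(0,0)]⟩⟩,⟨false,0,⟨5,[(1,1),(2,1),(11,0),(1,0),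
  (8,0),(0,0),(3,3),(3,0)]⟩,⟨1,[(17,0),(17,0)]⟩⟩,⟨false,0,⟨0,[(4,0)]⟩,⟨1,[(3,1),(14,0),(8,0),(0,0),
  (6,0),(0,0)]⟩⟩,⟨true,(-1),⟨0,[(1,0)]⟩,⟨1,[(17,0),(15,1),(1,0)]⟩⟩,⟨false,0,⟨3,[(1,1),(2,1),(14,1),
  (9,0),(5,0)]⟩,⟨1,[(17,0),(0,0),(8,0),(0,0),(7,0)]⟩⟩,[.o ⟨false,0,⟨0,[(9,0)]⟩,⟨3,[(3,1),(12,0),(17,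
  1),(0,0),(0,1)]⟩⟩,.o ⟨false,1,⟨1,[(29,0),(3,1),(2,0)]⟩,⟨0,[(34,0)]⟩⟩,.a ⟨true,0,⟨1,[(18,0),(8,0),
  (0,0)]⟩,⟨0,[(19,0)]⟩⟩ ⟨false,0,⟨0,[(32,0)]⟩,⟨3,[(16,0),(0,0),(17,1)]⟩⟩ ⟨true,0,⟨0,[(9,0),(9,0)]⟩,
  ⟨1,[(18,0),(8,0),(0,0),(5,1)]⟩⟩,.o ⟨false,0,⟨1,[(18,0),(2,0),(2,0)]⟩,⟨1,[(19,1),(9,0),(5,
  0)]⟩⟩]⟩)))) (.Q [0,0,0,0,0,1,0,0,0,0,0,-1] (.p false [0,0,0,1] [] (⟨0,[(16,0)]⟩,⟨1,[(15,0),(8,0),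
  (0,0)]⟩) .k 0 (⟨0,[]⟩,⟨0,[]⟩) .k .k) (.R ⟨0,false,false,true,[0,0,0,1],[1,-1],[0,1,0,0,0,0,0,0,1],
  (⟨0,[(17,0)]⟩,⟨1,[(16,0),(8,0),(0,0)]⟩),(⟨0,[(28,0)]⟩,⟨0,[(29,0)]⟩),⟨0,[(0,0)]⟩,.k,.k,(.r (-1) ⟨0,
  [(1,0),(13,0)]⟩ ⟨0,[(1,0),(20,0),(0,0),(8,1)]⟩),(.x (-1) ⟨3,[(14,0),(0,0),(13,3),(3,1)]⟩ ⟨2,[(4,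
  0),(14,0),(2,1),(5,2)]⟩),.k,.k,⟨false,1,⟨3,[(14,0),(0,2),(16,3)]⟩,⟨0,[(1,0)]⟩⟩,⟨true,0,⟨2,[(4,0),
  (12,2),(1,0),(2,1)]⟩,⟨1,[(16,0),(8,0),(0,0)]⟩⟩,⟨true,0,⟨0,[(36,0)]⟩,⟨0,[]⟩⟩,⟨false,0,⟨0,[(2,0)]⟩,
  ⟨1,[(15,0),(0,0),(8,0),(0,0),(5,1),(1,0)]⟩⟩,⟨false,0,⟨0,[]⟩,⟨0,[]⟩⟩,⟨false,0,⟨0,[]⟩,⟨0,[]⟩⟩,[.o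
  ⟨false,0,⟨0,[(7,0)]⟩,⟨3,[(14,0),(0,0),(16,3),(1,1)]⟩⟩,.o ⟨false,1,⟨1,[(27,0),(3,1),(2,0)]⟩,⟨0,
  [(32,0)]⟩⟩,.a ⟨true,0,⟨1,[(16,0),(8,0),(0,0)]⟩,⟨0,[(17,0)]⟩⟩ ⟨false,1,⟨3,[(14,0),(0,2)]⟩,⟨0,[(1,
  0),(28,0),(1,0)]⟩⟩ ⟨true,0,⟨0,[(7,0),(9,0)]⟩,⟨1,[(16,0),(8,0),(0,0),(5,1)]⟩⟩,.o ⟨false,0,⟨1,[(16,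
  0),(2,0),(2,0)]⟩,⟨1,[(17,1),(9,0),(5,0)]⟩⟩]⟩) (.R ⟨1,false,false,true,[0,0,0,1],[1,-1],[0,1,0,0,0,
  0,0,0,1],(⟨0,[(17,0)]⟩,⟨1,[(16,0),(8,0),(0,0)]⟩),(⟨0,[(28,0)]⟩,⟨0,[(29,0)]⟩),⟨0,[(0,0)]⟩,.k,.k,
  (.r (-1) ⟨0,[(1,0),(13,0)]⟩ ⟨0,[(1,0),(20,0),(0,0),(8,1)]⟩),(.x (-1) ⟨3,[(14,0),(0,0),(13,3),(3,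
  1)]⟩ ⟨2,[(4,0),(14,0),(2,1),(5,2)]⟩),.k,.k,⟨false,1,⟨3,[(14,0),(0,2),(16,3)]⟩,⟨0,[(1,0)]⟩⟩,⟨true,
  0,⟨2,[(4,0),(12,2),(1,0),(2,1)]⟩,⟨1,[(16,0),(8,0),(0,0)]⟩⟩,⟨true,0,⟨0,[(36,0)]⟩,⟨0,[]⟩⟩,⟨false,0,
  ⟨0,[(2,0)]⟩,⟨1,[(15,0),(0,0),(8,0),(0,0),(5,1),(1,0)]⟩⟩,⟨false,0,⟨0,[(32,0)]⟩,⟨0,[(31,0),(2,0)]⟩⟩,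
  ⟨false,0,⟨0,[(2,0),(29,0)]⟩,⟨1,[(15,0),(0,0),(8,0),(0,0),(7,0)]⟩⟩,[.o ⟨false,0,⟨0,[(7,0)]⟩,⟨3,
  [(14,0),(0,0),(16,3),(1,1)]⟩⟩,.o ⟨false,1,⟨1,[(27,0),(3,1),(2,0)]⟩,⟨0,[(32,0)]⟩⟩,.a ⟨true,0,⟨1,
  [(16,0),(8,0),(0,0)]⟩,⟨0,[(17,0)]⟩⟩ ⟨false,1,⟨3,[(14,0),(0,2)]⟩,⟨0,[(1,0),(28,0),(1,0)]⟩⟩ ⟨true,0,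
  ⟨0,[(7,0),(9,0)]⟩,⟨1,[(16,0),(8,0),(0,0),(5,1)]⟩⟩,.o ⟨false,0,⟨1,[(16,0),(2,0),(2,0)]⟩,⟨1,[(17,1),
  (9,0),(5,0)]⟩⟩]⟩))) (.Q [0,-1,0,1,0,0,0,0,1,1,0,-1] (.p false [0,0,0,1] [1] (⟨0,[(15,0)]⟩,⟨1,[(14,
  0),(8,0),(0,0)]⟩) .k 1 (⟨0,[]⟩,⟨0,[]⟩) .k .k) (.I [0,0,-1,-1,1,0,0,0,-1] (.Q [0,0,0,0,0,1,0,0,0,0,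
  0,-1] (.p false [0,0,0,1] [] (⟨0,[(17,0)]⟩,⟨1,[(16,0),(8,0),(0,0)]⟩) .k 0 (⟨0,[]⟩,⟨0,[]⟩) .k .k)
  (.R ⟨0,false,false,true,[0,0,0,1],[1,-1],[0,1,0,0,0,0,0,0,1],(⟨0,[(18,0)]⟩,⟨1,[(17,0),(8,0),(0,
  0)]⟩),(⟨0,[(29,0)]⟩,⟨0,[(30,0)]⟩),⟨0,[(0,0)]⟩,.k,.k,(.x 0 ⟨2,[(5,0),(14,0),(2,1),(5,2)]⟩ ⟨3,[(15,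
  0),(0,0),(13,3),(3,1)]⟩),(.r 0 ⟨2,[(3,2),(1,0),(12,2),(1,0),(2,1)]⟩ ⟨0,[(1,0)]⟩),.k,.k,⟨false,0,
  ⟨0,[(2,0),(5,0),(9,0),(14,0)]⟩,⟨0,[(1,0)]⟩⟩,⟨true,0,⟨2,[(5,0),(12,2),(1,0),(2,1)]⟩,⟨1,[(17,0),(8,
  0),(0,0)]⟩⟩,⟨true,0,⟨0,[(37,0)]⟩,⟨0,[]⟩⟩,⟨false,1,⟨1,[(8,1),(6,0),(2,1),(16,0)]⟩,⟨0,[(2,0)]⟩⟩,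
  ⟨false,0,⟨0,[]⟩,⟨0,[]⟩⟩,⟨false,0,⟨0,[]⟩,⟨0,[]⟩⟩,[.o ⟨false,0,⟨0,[(8,0)]⟩,⟨3,[(15,0),(0,0),(16,3),
  (1,1)]⟩⟩,.o ⟨false,1,⟨1,[(28,0),(3,1),(2,0)]⟩,⟨0,[(33,0)]⟩⟩,.a ⟨true,0,⟨1,[(17,0),(8,0),(0,0)]⟩,
  ⟨0,[(18,0)]⟩⟩ ⟨false,0,⟨0,[(2,0),(5,0),(9,0)]⟩,⟨1,[(15,0),(19,0)]⟩⟩ ⟨true,0,⟨0,[(8,0),(9,0)]⟩,⟨1,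
  [(17,0),(8,0),(0,0),(5,1)]⟩⟩,.o ⟨false,0,⟨1,[(17,0),(2,0),(2,0)]⟩,⟨1,[(18,1),(9,0),(5,0)]⟩⟩]⟩)
  (.Q [0,-1,0,0,0,0,0,0,1,1,0,-1] (.p false [0,0,0,1] [1] (⟨0,[(18,0)]⟩,⟨1,[(17,0),(8,0),(0,0)]⟩)
  .k 1 (⟨0,[]⟩,⟨0,[]⟩) .k .k) (.R ⟨1,false,false,true,[0,0,0,1],[1,-1],[0,1,0,0,0,0,0,0,1],(⟨0,[(19,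
  0)]⟩,⟨1,[(18,0),(8,0),(0,0)]⟩),(⟨0,[(30,0)]⟩,⟨0,[(31,0)]⟩),⟨0,[(1,0)]⟩,.k,.k,(.x 0 ⟨1,[(1,1),(16,
  0),(2,0),(2,0)]⟩ ⟨3,[(16,0),(0,0),(13,3),(3,1)]⟩),(.r 0 ⟨2,[(4,2),(1,0),(12,2),(1,0),(2,1)]⟩ ⟨0,
  [(2,0)]⟩),.k,.k,⟨false,0,⟨0,[(3,0),(5,0),(9,0),(14,0)]⟩,⟨0,[(2,0)]⟩⟩,⟨true,0,⟨2,[(6,0),(12,2),(1,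
  0),(2,1)]⟩,⟨1,[(18,0),(8,0),(0,0)]⟩⟩,⟨true,0,⟨0,[(38,0)]⟩,⟨0,[]⟩⟩,⟨false,1,⟨1,[(9,1),(6,0),(2,1),
  (16,0)]⟩,⟨0,[(3,0)]⟩⟩,⟨false,0,⟨0,[(34,0)]⟩,⟨0,[(33,0),(2,0)]⟩⟩,⟨false,1,⟨1,[(16,0),(2,1),(9,0)]⟩,
  ⟨0,[(0,0)]⟩⟩,[.o ⟨false,0,⟨0,[(9,0)]⟩,⟨3,[(16,0),(0,0),(16,3),(1,1)]⟩⟩,.o ⟨false,1,⟨1,[(29,0),(3,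
  1),(2,0)]⟩,⟨0,[(34,0)]⟩⟩,.a ⟨true,0,⟨1,[(18,0),(8,0),(0,0)]⟩,⟨0,[(19,0)]⟩⟩ ⟨false,0,⟨0,[(3,0),(5,
  0),(9,0)]⟩,⟨1,[(16,0),(19,0)]⟩⟩ ⟨true,0,⟨0,[(9,0),(9,0)]⟩,⟨1,[(18,0),(8,0),(0,0),(5,1)]⟩⟩,.o
  ⟨false,0,⟨1,[(18,0),(2,0),(2,0)]⟩,⟨1,[(19,1),(9,0),(5,0)]⟩⟩]⟩) (.R ⟨2,true,false,true,[0,1],[1,0,
  0,-1],[1,1,1],(⟨0,[]⟩,⟨0,[]⟩),(⟨1,[(18,0),(8,0),(0,0)]⟩,⟨0,[(19,0)]⟩),⟨0,[]⟩,.k,.k,.k,(.r 0 ⟨2,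
  [(4,2),(1,0),(12,2),(1,0),(2,1)]⟩ ⟨0,[(2,0)]⟩),.k,.k,⟨false,0,⟨0,[(3,0),(5,0),(9,0)]⟩,⟨1,[(16,0),
  (18,0)]⟩⟩,⟨true,0,⟨2,[(6,0),(12,2),(1,0),(2,1)]⟩,⟨1,[(18,0),(8,0),(0,0)]⟩⟩,⟨true,0,⟨0,[(33,0)]⟩,
  ⟨0,[(34,0)]⟩⟩,⟨false,1,⟨1,[(9,1),(6,0),(2,1),(16,0)]⟩,⟨0,[(3,0)]⟩⟩,⟨false,0,⟨0,[]⟩,⟨3,[(16,0),(0,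
  0),(18,1)]⟩⟩,⟨true,0,⟨0,[(0,0)]⟩,⟨0,[(3,0),(29,0)]⟩⟩,[]⟩))) (.Q [0,0,0,0,0,2,0,0,0,-1] (.pp true
  [-1,1]) (.R ⟨0,false,false,true,[0,0,0,1],[1,-1],[0,1,-1,-1],(⟨0,[(18,0)]⟩,⟨1,[(17,0),(8,0),(0,
  0)]⟩),(⟨0,[(29,0)]⟩,⟨0,[(30,0)]⟩),⟨1,[(0,0),(16,0)]⟩,.k,.k,(.r (-1) ⟨3,[(1,1),(0,1),(4,3),(3,3),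
  (2,1),(3,1),(15,0),(0,0)]⟩ ⟨0,[(1,0),(13,0)]⟩),(.x (-1) ⟨3,[(15,0),(0,0),(13,3),(3,1)]⟩ ⟨2,[(5,0),
  (14,0),(2,1),(5,2)]⟩),.k,.k,⟨false,1,⟨3,[(15,0),(0,0),(17,1)]⟩,⟨0,[]⟩⟩,⟨true,0,⟨2,[(5,0),(12,2),
  (1,0),(2,1)]⟩,⟨1,[(17,0),(8,0),(0,0)]⟩⟩,⟨true,1,⟨1,[(15,0),(16,1),(1,0)]⟩,⟨0,[(1,0)]⟩⟩,⟨false,1,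
  ⟨1,[(8,1),(6,0),(2,1),(16,0)]⟩,⟨0,[(2,0)]⟩⟩,⟨false,0,⟨0,[]⟩,⟨0,[]⟩⟩,⟨false,0,⟨0,[]⟩,⟨0,[]⟩⟩,[.o
  ⟨false,0,⟨0,[(8,0)]⟩,⟨3,[(15,0),(0,0),(16,3),(1,1)]⟩⟩,.o ⟨false,1,⟨1,[(28,0),(3,1),(2,0)]⟩,⟨0,
  [(33,0)]⟩⟩,.a ⟨true,0,⟨1,[(17,0),(8,0),(0,0)]⟩,⟨0,[(18,0)]⟩⟩ ⟨false,1,⟨0,[(7,0),(17,0)]⟩,⟨1,[(1,
  1),(13,0),(19,0)]⟩⟩ ⟨true,0,⟨0,[(8,0),(9,0)]⟩,⟨1,[(17,0),(8,0),(0,0),(5,1)]⟩⟩,.o ⟨false,0,⟨1,[(17,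
  0),(2,0),(2,0)]⟩,⟨1,[(18,1),(9,0),(5,0)]⟩⟩]⟩) (.I [0,0,-1,-1,0,0,0,1,1] (.R ⟨1,false,false,true,
  [1,0,0,-1],[1,-1],[1,0,1],(⟨1,[(18,0),(8,0),(0,0)]⟩,⟨0,[(19,0)]⟩),(⟨0,[(30,0)]⟩,⟨0,[(31,0)]⟩),⟨1,
  [(1,0),(16,0)]⟩,.k,.k,(.x 0 ⟨1,[(1,0),(19,0),(2,0)]⟩ ⟨3,[(16,0),(0,0),(13,3),(3,1)]⟩),(.r 0 ⟨0,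
  [(2,0),(13,0)]⟩ ⟨7,[(0,3),(7,3),(7,0),(0,2)]⟩),.k,.k,⟨false,0,⟨1,[(2,1),(13,0),(19,0)]⟩,⟨0,[(33,
  0),(1,0)]⟩⟩,⟨true,0,⟨1,[(18,0),(2,0),(2,0)]⟩,⟨0,[(19,0)]⟩⟩,⟨false,0,⟨4,[(0,0),(1,1),(5,0),(8,0),
  (14,4)]⟩,⟨1,[(16,0),(18,0)]⟩⟩,⟨false,0,⟨1,[(0,0),(1,0),(5,0),(0,0),(8,0),(13,0)]⟩,⟨1,[(16,0),(2,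
  1),(14,1),(1,0)]⟩⟩,⟨true,(-1),⟨0,[(2,0)]⟩,⟨1,[(16,0),(16,1),(1,0)]⟩⟩,⟨false,0,⟨0,[(3,0),(5,0)]⟩,
  ⟨1,[(16,0),(2,1),(16,0)]⟩⟩,[.o ⟨false,0,⟨0,[(9,0)]⟩,⟨3,[(16,0),(0,0),(16,3),(1,1)]⟩⟩,.o ⟨false,1,
  ⟨1,[(29,0),(3,1),(2,0)]⟩,⟨0,[(34,0)]⟩⟩,.a ⟨true,0,⟨0,[(19,0)]⟩,⟨1,[(18,0),(8,0),(0,0)]⟩⟩ ⟨false,0,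
  ⟨0,[(32,0)]⟩,⟨3,[(16,0),(0,0),(17,1)]⟩⟩ ⟨true,0,⟨1,[(9,0),(8,0),(14,0)]⟩,⟨0,[(19,0),(14,0)]⟩⟩,.o
  ⟨false,0,⟨2,[(6,0),(12,2),(1,0),(2,1)]⟩,⟨7,[(16,0),(0,0),(0,3),(10,1),(5,3)]⟩⟩]⟩) (.I [1,1,1,1,
  -1] (.Q [0,0,0,1,0,0,-1,-1,0,0,1] (.p true [0,0,1] [] (⟨0,[(29,0)]⟩,⟨0,[(28,0)]⟩) .k 0 (⟨0,[]⟩,⟨0,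
  []⟩) .k .k) (.R ⟨2,true,false,false,[0,1],[0,0,1],[],(⟨0,[]⟩,⟨0,[]⟩),(⟨0,[(30,0)]⟩,⟨0,[(29,0)]⟩),
  ⟨0,[]⟩,.k,.k,.k,.k,.k,.k,⟨false,1,⟨0,[(16,0)]⟩,⟨0,[(28,0)]⟩⟩,⟨true,0,⟨0,[(26,0)]⟩,⟨1,[(17,0),(11,
  0),(0,0)]⟩⟩,⟨true,1,⟨0,[(10,0),(17,0)]⟩,⟨0,[(1,0)]⟩⟩,⟨false,1,⟨0,[(14,0),(23,0)]⟩,⟨0,[(0,0)]⟩⟩,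
  ⟨false,1,⟨1,[(37,0),(0,0)]⟩,⟨1,[(26,0),(0,0)]⟩⟩,⟨true,0,⟨0,[(7,0)]⟩,⟨0,[(25,0)]⟩⟩,[]⟩) (.K ⟨2,[1,
  1,-1],0,0,(⟨0,[(29,0),(3,0)]⟩,⟨0,[(3,0),(8,0)]⟩),.k,.k,(.x (-1) ⟨2,[(8,0),(8,0),(11,2),(3,5),(3,
  2)]⟩ ⟨2,[(3,2),(4,0),(14,0),(2,4),(3,2)]⟩),(.r 0 ⟨0,[(2,0),(1,0),(5,0)]⟩ ⟨0,[(10,0),(17,2)]⟩),.k,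
  [⟨0,[(0,0),(1,0),(1,0),(4,0),(0,0)]⟩,⟨0,[(15,0)]⟩,⟨0,[(9,0),(25,0)]⟩,⟨0,[(22,0),(13,0)]⟩]⟩)) (.R
  ⟨1,false,false,true,[1,0,0,-1],[1,-1],[1,0,1],(⟨1,[(19,0),(8,0),(0,0)]⟩,⟨0,[(20,0)]⟩),(⟨0,[(31,
  0)]⟩,⟨0,[(32,0)]⟩),⟨1,[(2,0),(16,0)]⟩,.k,.k,(.x 0 ⟨1,[(2,0),(19,0),(2,0)]⟩ ⟨3,[(17,0),(0,0),(13,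
  3),(3,1)]⟩),(.r 0 ⟨0,[(3,0),(13,0)]⟩ ⟨2,[(0,1),(2,0),(14,0),(15,1),(1,0)]⟩),.k,.k,⟨false,0,⟨1,[(3,
  1),(13,0),(19,0)]⟩,⟨0,[(34,0),(1,0)]⟩⟩,⟨true,0,⟨1,[(19,0),(2,0),(2,0)]⟩,⟨0,[(20,0)]⟩⟩,⟨false,0,⟨4,
  [(0,1),(2,2),(14,0),(14,3),(0,0)]⟩,⟨1,[(17,0),(18,0)]⟩⟩,⟨false,0,⟨1,[(0,1),(2,1),(6,0),(8,0),(14,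
  0)]⟩,⟨1,[(17,0),(2,1),(14,1),(1,0)]⟩⟩,⟨true,(-1),⟨0,[(3,0)]⟩,⟨1,[(17,0),(16,1),(1,0)]⟩⟩,⟨false,0,
  ⟨0,[(4,0),(5,0)]⟩,⟨1,[(17,0),(2,1),(16,0)]⟩⟩,[.o ⟨false,0,⟨0,[(10,0)]⟩,⟨3,[(17,0),(0,0),(16,3),(1,
  1)]⟩⟩,.o ⟨false,1,⟨1,[(30,0),(3,1),(2,0)]⟩,⟨0,[(35,0)]⟩⟩,.a ⟨true,0,⟨0,[(20,0)]⟩,⟨1,[(19,0),(8,0),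
  (0,0)]⟩⟩ ⟨false,0,⟨0,[(33,0)]⟩,⟨3,[(17,0),(0,0),(17,1)]⟩⟩ ⟨true,0,⟨1,[(10,0),(8,0),(14,0)]⟩,⟨0,
  [(20,0),(14,0)]⟩⟩,.o ⟨false,0,⟨2,[(7,0),(12,2),(1,0),(2,1)]⟩,⟨7,[(17,0),(0,0),(0,3),(10,1),(5,
  3)]⟩⟩]⟩))))) (.Q [0,0,0,0,0,0,0,0,-1,-1,0,1] (.p true [0,0,0,1] [1] (⟨0,[(16,0)]⟩,⟨1,[(15,0),(8,
  0),(0,0)]⟩) .k 1 (⟨0,[]⟩,⟨0,[]⟩) .k .k) (.R ⟨2,true,false,false,[0,1],[1,0,0,-1],[1,1,1],(⟨0,[]⟩,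
  ⟨0,[]⟩),(⟨1,[(16,0),(8,0),(0,0)]⟩,⟨0,[(17,0)]⟩),⟨0,[]⟩,.k,.k,.k,(.r 0 ⟨2,[(2,2),(1,0),(12,2),(1,
  0),(2,1)]⟩ ⟨1,[(1,1),(14,0),(8,0),(0,0),(6,0),(0,0)]⟩),.k,.k,⟨false,0,⟨0,[(2,0),(4,0),(9,0)]⟩,⟨1,
  [(0,1),(15,0),(8,0),(0,0),(6,0),(0,0)]⟩⟩,⟨true,0,⟨2,[(4,0),(12,2),(1,0),(2,1)]⟩,⟨1,[(16,0),(8,0),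
  (0,0)]⟩⟩,⟨true,0,⟨0,[(31,0)]⟩,⟨0,[(32,0)]⟩⟩,⟨false,1,⟨0,[(1,0),(32,0)]⟩,⟨0,[(2,0)]⟩⟩,⟨false,0,⟨0,
  []⟩,⟨3,[(14,0),(0,0),(18,1)]⟩⟩,⟨true,0,⟨0,[(0,0)]⟩,⟨0,[(2,0),(28,0)]⟩⟩,[]⟩) (.Q [0,0,0,1,0,0,0,0,
  -1,0,0,1] (.p true [0,0,0,1] [] (⟨0,[(17,0)]⟩,⟨1,[(16,0),(8,0),(0,0)]⟩) .k 0 (⟨0,[]⟩,⟨0,[]⟩) .k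
  .k) (.Q [0,0,0,0,0,0,0,0,-1,0,0,1] (.p true [0,0,0,1] [] (⟨0,[(18,0)]⟩,⟨1,[(17,0),(8,0),(0,0)]⟩)
  .k 0 (⟨0,[]⟩,⟨0,[]⟩) .k .k) (.I [1,-1,-1,-1,1] (.I [1,-1,-1,-1,1,0,0,0,1] (.R ⟨2,false,false,
  false,[0,1],[0,0,0,1],[0,1,1,1],(⟨0,[]⟩,⟨0,[]⟩),(⟨0,[(21,0)]⟩,⟨1,[(20,0),(8,0),(0,0)]⟩),⟨0,[]⟩,.k,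
  .k,.k,(.r 0 ⟨1,[(3,1),(16,0),(2,0),(2,0)]⟩ ⟨3,[(0,1),(18,0),(15,1),(1,0)]⟩),.k,.k,⟨false,0,⟨1,[(3,
  1),(16,0),(1,0),(1,0)]⟩,⟨0,[(0,0)]⟩⟩,⟨true,0,⟨1,[(20,0),(2,0),(2,0)]⟩,⟨0,[(21,0)]⟩⟩,⟨true,0,⟨0,
  [(40,0)]⟩,⟨0,[]⟩⟩,⟨false,1,⟨1,[(0,1),(19,0),(2,0),(2,0)]⟩,⟨0,[(3,0)]⟩⟩,⟨false,0,⟨0,[(36,0)]⟩,⟨0,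
  [(35,0),(2,0)]⟩⟩,⟨false,1,⟨9,[(0,1),(5,1),(1,1),(10,2),(0,3),(5,1),(4,0),(6,3)]⟩,⟨0,[(2,0)]⟩⟩,[.a
  ⟨true,0,⟨0,[(4,0)]⟩,⟨0,[(2,0)]⟩⟩ ⟨false,0,⟨0,[(36,0),(3,0)]⟩,⟨0,[(1,0)]⟩⟩ ⟨true,0,⟨2,[(4,2),(3,0),
  (14,0),(2,1)]⟩,⟨0,[(2,0)]⟩⟩,.o ⟨false,1,⟨9,[(0,1),(5,1),(1,1),(10,2),(0,3),(5,1),(4,0),(6,3)]⟩,⟨0,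
  [(5,0),(30,0)]⟩⟩,.o ⟨false,1,⟨3,[(18,0),(0,0),(17,1)]⟩,⟨2,[(8,0),(14,0),(2,1)]⟩⟩,.e ⟨false,0,⟨0,
  [(36,0)]⟩,⟨0,[(35,0),(2,0)]⟩⟩ ⟨false,1,⟨9,[(0,1),(5,1),(1,1),(10,2),(0,3),(5,1),(4,0),(6,3)]⟩,⟨0,
  [(2,0)]⟩⟩]⟩) (.R ⟨2,false,false,false,[0,1],[1,0,0,-1],[0,1,1,1],(⟨0,[]⟩,⟨0,[]⟩),(⟨1,[(20,0),(8,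
  0),(0,0)]⟩,⟨0,[(21,0)]⟩),⟨0,[]⟩,.k,.k,.k,(.r 0 ⟨2,[(0,0),(5,1),(1,0),(10,0),(1,1),(4,0),(7,0)]⟩
  ⟨3,[(1,1),(0,0),(2,0),(12,0),(1,0),(14,0),(1,0)]⟩),.k,.k,⟨false,0,⟨0,[(6,0),(4,0),(9,0),(14,0)]⟩,
  ⟨0,[(0,0),(0,1)]⟩⟩,⟨true,0,⟨2,[(8,0),(12,2),(1,0),(2,1)]⟩,⟨1,[(20,0),(8,0),(0,0)]⟩⟩,⟨true,0,⟨0,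
  [(40,0)]⟩,⟨0,[]⟩⟩,⟨false,1,⟨0,[(5,0),(32,0)]⟩,⟨0,[(6,0)]⟩⟩,⟨false,0,⟨0,[(36,0)]⟩,⟨0,[(35,0),(2,
  0)]⟩⟩,⟨false,1,⟨3,[(3,1),(1,1),(25,0),(6,2)]⟩,⟨0,[(4,0)]⟩⟩,[.a ⟨true,0,⟨0,[(2,0)]⟩,⟨0,[(4,0)]⟩⟩
  ⟨false,0,⟨0,[(36,0),(3,0)]⟩,⟨0,[(1,0)]⟩⟩ ⟨true,0,⟨5,[(3,2),(1,2),(2,0),(14,0),(2,1),(7,2)]⟩,⟨0,
  [(4,0)]⟩⟩,.o ⟨false,1,⟨3,[(3,1),(1,1),(25,0),(6,2)]⟩,⟨0,[(6,0),(4,0)]⟩⟩,.o ⟨false,1,⟨3,[(18,0),(0,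
  0),(17,1)]⟩,⟨2,[(8,0),(14,0),(2,1)]⟩⟩,.e ⟨false,0,⟨0,[(36,0)]⟩,⟨0,[(35,0),(2,0)]⟩⟩ ⟨false,1,⟨3,
  [(3,1),(1,1),(25,0),(6,2)]⟩,⟨0,[(4,0)]⟩⟩]⟩)) (.I [1,1,0,0,0,0,0,-1,-1] (.R ⟨0,false,false,false,
  [1,0,-1],[0,0,0,1],[1,1,0,0,0,0,0,-1],(⟨0,[(29,0)]⟩,⟨0,[(30,0)]⟩),(⟨0,[(21,0)]⟩,⟨1,[(20,0),(8,0),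
  (0,0)]⟩),⟨0,[(12,0)]⟩,.k,.k,.k,.k,.k,.k,⟨true,0,⟨0,[(0,0)]⟩,⟨1,[(4,1),(2,0),(0,0),(12,1),(6,0),(5,
  1)]⟩⟩,⟨false,1,⟨1,[(9,0),(6,0),(3,0),(5,0),(10,0)]⟩,⟨2,[(8,0),(8,0),(3,2)]⟩⟩,⟨false,0,⟨0,[]⟩,⟨3,
  [(18,0),(0,0),(18,1)]⟩⟩,⟨true,0,⟨0,[(4,0),(2,0)]⟩,⟨0,[(2,0),(19,0)]⟩⟩,⟨false,0,⟨0,[]⟩,⟨0,[]⟩⟩,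
  ⟨false,0,⟨0,[]⟩,⟨0,[]⟩⟩,[.a ⟨true,0,⟨0,[(4,0)]⟩,⟨0,[(2,0)]⟩⟩ ⟨true,0,⟨0,[(1,0),(8,0)]⟩,⟨0,[(28,0),
  (5,0)]⟩⟩ ⟨false,1,⟨0,[(6,0),(0,0),(2,0)]⟩,⟨2,[(2,2),(5,0),(8,0)]⟩⟩,.o ⟨false,1,⟨1,[(4,1),(26,0),
  (6,0)]⟩,⟨5,[(1,1),(1,1),(1,3),(25,0),(5,0)]⟩⟩,.o ⟨false,0,⟨0,[(15,0)]⟩,⟨7,[(16,3),(1,0),(0,0),(4,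
  3),(1,3),(11,1)]⟩⟩,.o ⟨false,0,⟨0,[(23,0)]⟩,⟨0,[(26,0),(10,0)]⟩⟩]⟩) (.R ⟨0,false,false,false,[1,0,
  -1],[0,0,0,1],[0,1],(⟨0,[(29,0)]⟩,⟨0,[(30,0)]⟩),(⟨0,[(21,0)]⟩,⟨1,[(20,0),(8,0),(0,0)]⟩),⟨0,[(12,
  0)]⟩,.k,.k,.k,.k,.k,.k,⟨true,0,⟨1,[(3,0),(1,0),(14,0),(19,0)]⟩,⟨0,[(0,0),(0,0),(8,0),(23,0)]⟩⟩,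
  ⟨false,1,⟨1,[(9,0),(6,0),(3,0),(5,0),(10,0)]⟩,⟨2,[(8,0),(8,0),(3,2)]⟩⟩,⟨false,0,⟨0,[(28,0)]⟩,⟨0,
  [(16,0),(17,0)]⟩⟩,⟨true,0,⟨0,[(4,0),(2,0)]⟩,⟨0,[(2,0),(19,0)]⟩⟩,⟨false,0,⟨0,[]⟩,⟨0,[]⟩⟩,⟨false,0,
  ⟨0,[]⟩,⟨0,[]⟩⟩,[.a ⟨true,0,⟨0,[(4,0)]⟩,⟨0,[(2,0)]⟩⟩ ⟨true,0,⟨0,[(40,0)]⟩,⟨0,[(34,0)]⟩⟩ ⟨false,1,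
  ⟨0,[(6,0),(0,0),(2,0)]⟩,⟨2,[(2,2),(5,0),(8,0)]⟩⟩,.o ⟨false,1,⟨1,[(4,1),(26,0),(6,0)]⟩,⟨5,[(1,1),
  (1,1),(1,3),(25,0),(5,0)]⟩⟩,.o ⟨false,0,⟨0,[(15,0)]⟩,⟨7,[(16,3),(1,0),(0,0),(4,3),(1,3),(11,1)]⟩⟩,
  .o ⟨false,0,⟨0,[(23,0)]⟩,⟨0,[(26,0),(10,0)]⟩⟩]⟩))) (.R ⟨2,true,false,false,[0,1],[0,0,0,1],[1,1,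
  1],(⟨0,[]⟩,⟨0,[]⟩),(⟨0,[(19,0)]⟩,⟨1,[(18,0),(8,0),(0,0)]⟩),⟨0,[]⟩,.k,.k,.k,(.r 0 ⟨1,[(1,1),(16,0),
  (2,0),(2,0)]⟩ ⟨3,[(0,2),(1,0),(5,1),(3,1),(2,0),(3,3),(15,0),(0,0)]⟩),.k,.k,⟨false,0,⟨1,[(1,0),(1,
  0),(14,0),(19,0)]⟩,⟨1,[(0,1),(18,1),(15,0),(0,0)]⟩⟩,⟨true,0,⟨1,[(18,0),(2,0),(2,0)]⟩,⟨0,[(19,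
  0)]⟩⟩,⟨true,0,⟨0,[(33,0)]⟩,⟨0,[(34,0)]⟩⟩,⟨false,1,⟨0,[(0,0),(32,0),(2,0)]⟩,⟨0,[(1,0)]⟩⟩,⟨false,0,
  ⟨0,[]⟩,⟨3,[(16,0),(0,0),(18,1)]⟩⟩,⟨true,0,⟨0,[(0,0)]⟩,⟨0,[(1,0),(31,0)]⟩⟩,[]⟩)) (.Q [0,0,0,0,0,1,
  0,0,0,0,0,-1] (.p false [0,0,0,1] [] (⟨0,[(18,0)]⟩,⟨1,[(17,0),(8,0),(0,0)]⟩) .k 0 (⟨0,[]⟩,⟨0,[]⟩)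
  .k .k) (.R ⟨0,false,false,true,[0,0,0,1],[1,-1],[0,1,-1,-1],(⟨0,[(19,0)]⟩,⟨1,[(18,0),(8,0),(0,
  0)]⟩),(⟨0,[(30,0)]⟩,⟨0,[(31,0)]⟩),⟨0,[(0,0)]⟩,.k,.k,(.r (-1) ⟨3,[(1,1),(6,1),(8,0),(1,1),(6,1),(8,
  0)]⟩ ⟨1,[(3,1),(14,0),(8,0),(0,0),(3,1),(1,3)]⟩),(.r 0 ⟨2,[(4,2),(1,0),(12,2),(1,0),(2,1)]⟩ ⟨1,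
  [(3,1),(14,0),(8,0),(0,0),(6,0),(0,0)]⟩),.k,.k,⟨false,1,⟨3,[(16,0),(0,0),(17,1)]⟩,⟨0,[]⟩⟩,⟨true,0,
  ⟨2,[(6,0),(12,2),(1,0),(2,1)]⟩,⟨1,[(18,0),(8,0),(0,0)]⟩⟩,⟨false,1,⟨1,[(3,1),(14,0),(8,0),(0,0),(6,
  0),(0,0)]⟩,⟨0,[(1,0),(17,0),(12,0),(1,1)]⟩⟩,⟨true,0,⟨0,[(3,0)]⟩,⟨0,[(4,0)]⟩⟩,⟨false,0,⟨0,[]⟩,⟨0,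
  []⟩⟩,⟨false,0,⟨0,[]⟩,⟨0,[]⟩⟩,[.o ⟨false,0,⟨0,[(9,0)]⟩,⟨3,[(16,0),(0,0),(16,3),(1,1)]⟩⟩,.o ⟨false,
  1,⟨1,[(29,0),(3,1),(2,0)]⟩,⟨0,[(34,0)]⟩⟩,.a ⟨true,0,⟨1,[(18,0),(8,0),(0,0)]⟩,⟨0,[(19,0)]⟩⟩ ⟨false,
  1,⟨0,[(8,0),(17,0)]⟩,⟨0,[(32,0),(1,0)]⟩⟩ ⟨true,0,⟨0,[(9,0),(9,0)]⟩,⟨1,[(18,0),(8,0),(0,0),(5,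
  1)]⟩⟩,.o ⟨false,0,⟨1,[(18,0),(2,0),(2,0)]⟩,⟨1,[(19,1),(9,0),(5,0)]⟩⟩]⟩) (.R ⟨1,false,false,true,
  [0,0,0,1],[1,-1],[0,1,0,0,0,0,0,0,1],(⟨0,[(19,0)]⟩,⟨1,[(18,0),(8,0),(0,0)]⟩),(⟨0,[(30,0)]⟩,⟨0,
  [(31,0)]⟩),⟨0,[(0,0)]⟩,.k,.k,(.r (-1) ⟨3,[(1,1),(6,1),(8,0),(1,1),(6,1),(8,0)]⟩ ⟨1,[(3,1),(14,0),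
  (8,0),(0,0),(3,1),(1,3)]⟩),(.r 0 ⟨2,[(4,2),(1,0),(12,2),(1,0),(2,1)]⟩ ⟨1,[(3,1),(14,0),(8,0),(0,
  0),(6,0),(0,0)]⟩),.k,.k,⟨false,0,⟨0,[(1,0),(17,0),(14,1)]⟩,⟨1,[(3,1),(14,0),(8,0),(0,0),(6,0),(0,
  0)]⟩⟩,⟨true,0,⟨2,[(6,0),(12,2),(1,0),(2,1)]⟩,⟨1,[(18,0),(8,0),(0,0)]⟩⟩,⟨true,0,⟨0,[(38,0)]⟩,⟨0,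
  []⟩⟩,⟨true,0,⟨0,[(3,0)]⟩,⟨0,[(4,0)]⟩⟩,⟨false,0,⟨0,[(34,0)]⟩,⟨0,[(33,0),(2,0)]⟩⟩,⟨true,0,⟨0,[(3,0),
  (30,0)]⟩,⟨0,[(2,0)]⟩⟩,[.o ⟨false,0,⟨0,[(9,0)]⟩,⟨3,[(16,0),(0,0),(16,3),(1,1)]⟩⟩,.o ⟨false,1,⟨1,
  [(29,0),(3,1),(2,0)]⟩,⟨0,[(34,0)]⟩⟩,.a ⟨true,0,⟨1,[(18,0),(8,0),(0,0)]⟩,⟨0,[(19,0)]⟩⟩ ⟨false,0,⟨0,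
  [(1,0),(17,0),(14,0)]⟩,⟨1,[(16,0),(19,0)]⟩⟩ ⟨true,0,⟨0,[(9,0),(9,0)]⟩,⟨1,[(18,0),(8,0),(0,0),(5,
  1)]⟩⟩,.o ⟨false,0,⟨1,[(18,0),(2,0),(2,0)]⟩,⟨1,[(19,1),(9,0),(5,0)]⟩⟩]⟩)))))) (.R ⟨0,false,false,
  true,[-1,1,1],[0,0,1],[1,1],(⟨0,[(5,0)]⟩,⟨0,[(22,0),(2,0)]⟩),(⟨0,[(23,0)]⟩,⟨0,[(22,0)]⟩),⟨0,[(22,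
  0)]⟩,.k,.k,.k,.k,.k,.k,⟨false,1,⟨0,[(9,0)]⟩,⟨0,[(21,0)]⟩⟩,⟨true,0,⟨2,[(1,0),(14,0),(2,1)]⟩,⟨0,
  [(22,0),(0,0)]⟩⟩,⟨false,1,⟨0,[(6,0)]⟩,⟨0,[(21,0),(5,0),(1,0)]⟩⟩,⟨true,0,⟨0,[(4,0)]⟩,⟨0,[(22,0),(0,
  0),(5,0)]⟩⟩,⟨false,0,⟨0,[]⟩,⟨0,[]⟩⟩,⟨false,0,⟨0,[]⟩,⟨0,[]⟩⟩,[.o ⟨false,0,⟨0,[(17,0)]⟩,⟨0,[(15,0),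
  (15,0)]⟩⟩,.a ⟨true,0,⟨0,[(2,0)]⟩,⟨0,[(0,0)]⟩⟩ ⟨true,0,⟨0,[]⟩,⟨1,[(19,0),(0,0)]⟩⟩ ⟨false,0,⟨0,[(1,
  0),(0,0)]⟩,⟨0,[(9,0),(12,0),(0,0)]⟩⟩,.o ⟨false,1,⟨0,[(2,0),(6,0)]⟩,⟨2,[(1,1),(14,1),(2,0)]⟩⟩,.o
  ⟨false,1,⟨7,[(2,7),(6,3),(1,0),(0,0),(5,3),(0,3),(11,1)]⟩,⟨0,[(1,0)]⟩⟩]⟩)))

theorem ok3 : chk (cU (-1) false 2) t3 l7 = true := by decide +kernel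

noncomputable def t5 : Tre :=
  (.Q [0,0,0,0,0,1,0,0,0,0,-1] (.ed true [1,-1,1] .k) (.Q [0,-1,0,1,0,0,-1,-1,0,1,1] (.p true [1,-1,
  1] [] (⟨0,[(24,0),(1,0)]⟩,⟨0,[(0,0)]⟩) .k 0 (⟨0,[]⟩,⟨0,[]⟩) .k .k) (.R ⟨0,false,false,true,[0,0,
  1],[1,-1,1],[0,1,-1,-1,0,0,0,1],(⟨0,[(25,0)]⟩,⟨0,[(24,0)]⟩),(⟨0,[(25,0),(1,0)]⟩,⟨0,[(1,0)]⟩),⟨0,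
  [(1,0)]⟩,.k,.k,.k,.k,.k,.k,⟨false,1,⟨3,[(13,0),(0,0),(17,1)]⟩,⟨0,[]⟩⟩,⟨true,0,⟨2,[(3,0),(14,0),(2,
  1)]⟩,⟨0,[(24,0),(0,0)]⟩⟩,⟨false,1,⟨0,[(5,0),(17,0)]⟩,⟨0,[(29,0),(1,0)]⟩⟩,⟨true,0,⟨0,[(6,0)]⟩,⟨0,
  [(0,0),(18,0)]⟩⟩,⟨false,0,⟨0,[]⟩,⟨0,[]⟩⟩,⟨false,0,⟨0,[]⟩,⟨0,[]⟩⟩,[.a ⟨true,0,⟨0,[(9,0)]⟩,⟨0,[(0,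
  0)]⟩⟩ ⟨false,1,⟨0,[(23,0),(6,0),(1,0)]⟩,⟨0,[(2,0)]⟩⟩ ⟨true,0,⟨2,[(3,0),(5,2),(2,0)]⟩,⟨0,[(0,0),
  (20,0)]⟩⟩,.o ⟨false,1,⟨1,[(9,1),(16,0),(6,0)]⟩,⟨1,[(0,0),(16,0),(13,0)]⟩⟩,.o ⟨false,1,⟨7,[(11,3),
  (1,0),(0,0),(4,3),(1,3),(11,1)]⟩,⟨0,[(10,0)]⟩⟩,.o ⟨false,0,⟨0,[(21,0)]⟩,⟨7,[(12,3),(0,0),(0,0),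
  (11,1),(5,3)]⟩⟩]⟩) (.I [1,-1,0,0,0,0,0,0,-1] (.I [0,1,-1,-1,0,0,0,1,-1] (.R ⟨0,false,false,true,
  [0,0,0,1],[1,-1,1],[1,0,0,0,0,0,0,0,1],(⟨0,[(18,0)]⟩,⟨1,[(17,0),(8,0),(0,0)]⟩),(⟨0,[(27,0),(1,
  0)]⟩,⟨0,[(3,0)]⟩),⟨1,[(3,0),(5,0),(7,0)]⟩,.k,.k,(.x 0 ⟨2,[(5,0),(14,0),(2,1),(5,2)]⟩ ⟨3,[(15,0),
  (0,0),(13,3),(3,1)]⟩),(.x (-1) ⟨3,[(3,1),(10,1),(0,0),(0,0),(9,1),(3,1),(3,1)]⟩ ⟨0,[(2,0),(1,0),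
  (22,0),(1,0)]⟩),.k,.k,⟨false,1,⟨1,[(4,1),(11,0),(17,0)]⟩,⟨0,[(0,0)]⟩⟩,⟨true,0,⟨0,[(2,0),(1,0),(13,
  0)]⟩,⟨1,[(14,0),(2,0),(8,1),(0,1)]⟩⟩,⟨true,0,⟨0,[]⟩,⟨0,[(37,0)]⟩⟩,⟨false,0,⟨0,[(1,0),(0,0),(15,
  0)]⟩,⟨1,[(4,1),(9,0),(1,0),(0,0),(8,1),(0,1),(6,0)]⟩⟩,⟨false,0,⟨0,[]⟩,⟨0,[]⟩⟩,⟨false,0,⟨0,[]⟩,⟨0,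
  []⟩⟩,[.o ⟨false,0,⟨0,[(2,0)]⟩,⟨0,[(22,0),(10,0),(1,0)]⟩⟩,.o ⟨false,1,⟨3,[(2,3),(12,0),(0,0),(18,
  1)]⟩,⟨0,[(6,0),(19,0),(0,0),(5,0)]⟩⟩,.a ⟨true,0,⟨1,[(17,0),(8,0),(0,0)]⟩,⟨0,[(18,0)]⟩⟩ ⟨false,1,
  ⟨1,[(16,0),(18,0)]⟩,⟨0,[(1,0),(35,0)]⟩⟩ ⟨true,0,⟨0,[(2,0),(15,0)]⟩,⟨1,[(6,1),(10,0),(8,2),(0,2),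
  (5,1)]⟩⟩,.o ⟨false,0,⟨1,[(17,0),(2,0),(2,0)]⟩,⟨1,[(18,1),(9,0),(5,0)]⟩⟩]⟩) (.Q [0,0,1,0,0,0,2,0,0,
  0,-2] (.p false [0,0,1] [0,1,-1] (⟨0,[(27,0)]⟩,⟨0,[(26,0)]⟩) .k 2 (⟨0,[(3,0)]⟩,⟨0,[(27,0),(1,
  0)]⟩) .k (.r 0 ⟨0,[(25,1)]⟩ ⟨1,[(4,0),(2,0),(5,0),(8,0),(0,0)]⟩)) (.K ⟨2,[0,1,-1],0,0,(⟨0,[(4,
  0)]⟩,⟨0,[(28,0),(1,0)]⟩),.k,.k,(.x (-1) ⟨1,[(4,0),(10,0),(11,0),(3,2),(3,1)]⟩ ⟨4,[(0,5),(5,2),(14,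
  3),(6,4),(1,9)]⟩),(.r 0 ⟨0,[(0,0),(6,1),(19,1),(0,1),(5,0)]⟩ ⟨0,[(8,0),(17,2)]⟩),.k,[⟨0,[(0,0)]⟩,
  ⟨1,[(15,0),(11,0),(0,0)]⟩,⟨0,[(12,0)]⟩,⟨0,[(23,0),(10,0)]⟩]⟩) (.Q [0,0,0,0,0,1,0,0,0,-1,0,1] (.p
  true [0,0,0,1] [1] (⟨0,[(19,0)]⟩,⟨1,[(18,0),(8,0),(0,0)]⟩) .k 1 (⟨0,[]⟩,⟨0,[]⟩) .k .k) (.R ⟨0,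
  false,false,true,[1,0,0,-1],[1,-1],[1,0,0,0,0,0,0,0,-1],(⟨1,[(19,0),(8,0),(0,0)]⟩,⟨0,[(20,0)]⟩),
  (⟨0,[(31,0)]⟩,⟨0,[(32,0)]⟩),⟨0,[(0,0)]⟩,.k,.k,(.r (-1) ⟨15,[(1,3),(1,5),(5,7),(3,7),(3,4),(18,1),
  (0,0)]⟩ ⟨2,[(1,0),(0,2),(20,2),(2,0)]⟩),(.r 0 ⟨1,[(3,1),(21,0),(0,0),(8,1),(3,1)]⟩ ⟨1,[(1,1),(0,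
  2),(0,0),(5,0),(3,3),(22,0)]⟩),.k,.k,⟨false,0,⟨0,[(3,0),(31,0)]⟩,⟨1,[(18,0),(15,1),(1,0)]⟩⟩,⟨true,
  0,⟨1,[(19,0),(2,0),(2,0)]⟩,⟨0,[(20,0)]⟩⟩,⟨true,0,⟨0,[]⟩,⟨0,[(39,0)]⟩⟩,⟨false,1,⟨1,[(10,0),(7,0),
  (0,0),(14,0),(2,0)]⟩,⟨0,[(3,0),(16,0),(14,0)]⟩⟩,⟨false,0,⟨0,[]⟩,⟨0,[]⟩⟩,⟨false,0,⟨0,[]⟩,⟨0,[]⟩⟩,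
  [.o ⟨false,0,⟨0,[(10,0)]⟩,⟨3,[(17,0),(0,0),(16,3),(1,1)]⟩⟩,.o ⟨false,1,⟨7,[(4,3),(4,3),(7,0),(0,
  0),(3,3),(14,1)]⟩,⟨0,[(35,0)]⟩⟩,.a ⟨true,0,⟨0,[(20,0)]⟩,⟨1,[(19,0),(8,0),(0,0)]⟩⟩ ⟨false,0,⟨0,[(3,
  0)]⟩,⟨3,[(17,0),(0,2)]⟩⟩ ⟨true,0,⟨1,[(10,0),(8,0),(14,0)]⟩,⟨0,[(20,0),(14,0)]⟩⟩,.o ⟨false,0,⟨2,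
  [(7,0),(12,2),(1,0),(2,1)]⟩,⟨7,[(17,0),(0,0),(0,3),(10,1),(5,3)]⟩⟩]⟩) (.R ⟨1,false,false,true,[1,
  0,0,-1],[1,-1],[0,1,0,0,0,0,0,0,-1],(⟨1,[(19,0),(8,0),(0,0)]⟩,⟨0,[(20,0)]⟩),(⟨0,[(31,0)]⟩,⟨0,[(32,
  0)]⟩),⟨0,[(0,0)]⟩,.k,.k,(.r (-1) ⟨15,[(1,3),(1,5),(5,7),(3,7),(3,4),(18,1),(0,0)]⟩ ⟨2,[(1,0),(0,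
  2),(20,2),(2,0)]⟩),(.r 0 ⟨1,[(3,1),(21,0),(0,0),(8,1),(3,1)]⟩ ⟨1,[(1,1),(0,2),(0,0),(5,0),(3,3),
  (22,0)]⟩),.k,.k,⟨false,0,⟨0,[(3,0),(31,0),(3,0)]⟩,⟨1,[(1,1),(0,2),(0,0),(5,0),(3,3),(22,0)]⟩⟩,
  ⟨true,0,⟨1,[(19,0),(2,0),(2,0)]⟩,⟨0,[(20,0)]⟩⟩,⟨true,0,⟨0,[(39,0)]⟩,⟨0,[]⟩⟩,⟨false,1,⟨1,[(10,0),
  (7,0),(0,0),(14,0),(2,0)]⟩,⟨0,[(3,0),(16,0),(14,0)]⟩⟩,⟨false,0,⟨0,[(35,0)]⟩,⟨0,[(34,0),(2,0)]⟩⟩,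
  ⟨false,1,⟨7,[(17,0),(0,4),(0,3),(10,1)]⟩,⟨0,[(3,0),(16,0)]⟩⟩,[.o ⟨false,0,⟨0,[(10,0)]⟩,⟨3,[(17,0),
  (0,0),(16,3),(1,1)]⟩⟩,.o ⟨false,1,⟨7,[(4,3),(4,3),(7,0),(0,0),(3,3),(14,1)]⟩,⟨0,[(35,0)]⟩⟩,.a
  ⟨true,0,⟨0,[(20,0)]⟩,⟨1,[(19,0),(8,0),(0,0)]⟩⟩ ⟨false,0,⟨0,[(3,0),(35,0)]⟩,⟨1,[(18,0),(18,0)]⟩⟩
  ⟨true,0,⟨1,[(10,0),(8,0),(14,0)]⟩,⟨0,[(20,0),(14,0)]⟩⟩,.o ⟨false,0,⟨2,[(7,0),(12,2),(1,0),(2,1)]⟩,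
  ⟨7,[(17,0),(0,0),(0,3),(10,1),(5,3)]⟩⟩]⟩)))) (.Q [0,0,1,0,0,0,2,0,0,0,-2] (.p false [0,0,1] [0,1,
  -1] (⟨0,[(26,0)]⟩,⟨0,[(25,0)]⟩) .k 2 (⟨0,[(2,0)]⟩,⟨0,[(26,0),(1,0)]⟩) .k (.r 0 ⟨0,[(24,1)]⟩ ⟨1,
  [(3,0),(2,0),(5,0),(8,0),(0,0)]⟩)) (.K ⟨2,[0,1,-1],0,0,(⟨0,[(3,0)]⟩,⟨0,[(27,0),(1,0)]⟩),.k,.k,(.x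
  (-1) ⟨1,[(3,0),(10,0),(11,0),(3,2),(3,1)]⟩ ⟨4,[(0,5),(4,2),(14,3),(6,4),(1,9)]⟩),(.r 0 ⟨0,[(0,0),
  (5,1),(19,1),(0,1),(5,0)]⟩ ⟨0,[(7,0),(17,2)]⟩),.k,[⟨0,[(0,0)]⟩,⟨1,[(14,0),(11,0),(0,0)]⟩,⟨0,[(11,
  0)]⟩,⟨0,[(22,0),(10,0)]⟩]⟩) (.I [1,0,0,0,0,0,0,0,-1] (.Q [0,1,0,-1,0,0,0,0,1,0,0,-1] (.p false [0,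
  0,0,1] [] (⟨0,[(19,0)]⟩,⟨1,[(18,0),(8,0),(0,0)]⟩) .k 0 (⟨0,[]⟩,⟨0,[]⟩) .k .k) (.R ⟨0,false,false,
  false,[0,0,0,1],[0,1],[1,0,1,1],(⟨0,[(20,0)]⟩,⟨1,[(19,0),(8,0),(0,0)]⟩),(⟨0,[(32,0)]⟩,⟨0,[(31,
  0)]⟩),⟨1,[(5,0),(5,0),(7,0)]⟩,.k,.k,(.r (-1) ⟨1,[(0,1),(19,1),(15,0),(0,0)]⟩ ⟨1,[(1,1),(23,0),(0,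
  0),(8,1)]⟩),(.r (-1) ⟨1,[(0,1),(19,1),(15,0),(0,0)]⟩ ⟨1,[(1,1),(23,0),(0,0),(8,1)]⟩),.k,.k,⟨true,
  0,⟨0,[]⟩,⟨1,[(25,0),(0,0)]⟩⟩,⟨false,1,⟨0,[(20,0),(15,0)]⟩,⟨1,[(19,0),(2,0),(2,0)]⟩⟩,⟨false,0,⟨0,
  [(1,0),(31,0),(1,0)]⟩,⟨1,[(0,1),(19,1),(15,0),(0,0)]⟩⟩,⟨true,0,⟨0,[(1,0),(18,0),(14,0)]⟩,⟨0,[(0,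
  0)]⟩⟩,⟨false,0,⟨0,[]⟩,⟨0,[]⟩⟩,⟨false,0,⟨0,[]⟩,⟨0,[]⟩⟩,[.o ⟨false,0,⟨0,[(35,0)]⟩,⟨7,[(4,3),(4,3),
  (7,0),(0,0),(3,3),(14,1)]⟩⟩,.o ⟨false,1,⟨3,[(17,0),(0,0),(16,3),(1,1)]⟩,⟨0,[(10,0)]⟩⟩,.a ⟨true,0,
  ⟨1,[(19,0),(8,0),(0,0)]⟩,⟨0,[(20,0)]⟩⟩ ⟨false,0,⟨0,[(33,0),(1,0)]⟩,⟨15,[(2,3),(6,7),(3,7),(3,0),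
  (0,0),(17,1),(0,3)]⟩⟩ ⟨true,0,⟨0,[(20,0),(14,0)]⟩,⟨1,[(10,0),(8,0),(14,0)]⟩⟩,.o ⟨false,0,⟨1,[(19,
  0),(2,0),(2,0)]⟩,⟨1,[(20,1),(9,0),(5,0)]⟩⟩]⟩) (.I [0,1,0,0,0,0,0,-1] (.R ⟨0,false,false,false,[0,
  0,0,1],[0,0,1],[0,1],(⟨0,[(21,0)]⟩,⟨1,[(20,0),(8,0),(0,0)]⟩),(⟨0,[(30,0)]⟩,⟨0,[(29,0)]⟩),⟨1,[(6,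
  0),(5,0),(7,0)]⟩,.k,.k,(.x 0 ⟨2,[(8,0),(14,0),(2,1),(5,2)]⟩ ⟨3,[(18,0),(0,0),(13,3),(3,1)]⟩),.k,
  .k,.k,⟨true,0,⟨0,[(0,0)]⟩,⟨0,[(28,0),(5,0)]⟩⟩,⟨false,1,⟨0,[(21,0),(4,0),(10,0)]⟩,⟨1,[(17,0),(2,
  0)]⟩⟩,⟨false,0,⟨1,[(1,1),(3,1),(3,1),(10,0),(11,2),(0,2)]⟩,⟨1,[(19,0),(18,0)]⟩⟩,⟨true,0,⟨0,[(1,0),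
  (12,0)]⟩,⟨1,[(4,1),(4,1),(10,0),(8,0),(0,0)]⟩⟩,⟨false,0,⟨0,[]⟩,⟨0,[]⟩⟩,⟨false,0,⟨0,[]⟩,⟨0,[]⟩⟩,
  [.o ⟨false,1,⟨3,[(18,0),(0,0),(4,3),(13,1)]⟩,⟨0,[(9,0)]⟩⟩,.o ⟨false,1,⟨0,[(24,0),(13,0)]⟩,⟨0,[(22,
  0)]⟩⟩,.a ⟨true,0,⟨1,[(20,0),(8,0),(0,0)]⟩,⟨0,[(21,0)]⟩⟩ ⟨true,0,⟨0,[(40,0)]⟩,⟨0,[]⟩⟩ ⟨false,1,⟨0,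
  [(21,0),(2,0),(13,0)]⟩,⟨1,[(9,1),(10,0),(8,0),(0,0)]⟩⟩,.o ⟨false,0,⟨1,[(20,0),(2,0),(2,0)]⟩,⟨1,
  [(21,1),(9,0),(5,0)]⟩⟩]⟩) (.I [0,1,2,1,-1] (.R ⟨0,false,false,true,[0,0,0,1],[0,1],[1],(⟨0,[(22,
  0)]⟩,⟨1,[(21,0),(8,0),(0,0)]⟩),(⟨0,[(34,0)]⟩,⟨0,[(33,0)]⟩),⟨1,[(7,0),(5,0),(7,0)]⟩,.k,.k,(.r (-1)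
  ⟨0,[(1,0),(3,0),(5,0)]⟩ ⟨11,[(0,5),(1,3),(16,3),(1,1),(10,0),(4,1),(1,0)]⟩),(.r (-1) ⟨0,[(1,0),(3,
  0),(5,0)]⟩ ⟨11,[(0,5),(1,3),(16,3),(1,1),(10,0),(4,1),(1,0)]⟩),.k,.k,⟨true,1,⟨0,[(1,0),(9,0)]⟩,⟨0,
  [(0,0)]⟩⟩,⟨false,1,⟨0,[(22,0),(15,0)]⟩,⟨1,[(21,0),(2,0),(2,0)]⟩⟩,⟨true,0,⟨0,[(3,0)]⟩,⟨0,[(5,0)]⟩⟩,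
  ⟨false,0,⟨0,[(2,0),(38,0)]⟩,⟨3,[(1,4),(3,3),(0,0),(1,0),(1,0),(0,3),(9,1),(13,2)]⟩⟩,⟨false,0,⟨0,
  []⟩,⟨0,[]⟩⟩,⟨false,0,⟨0,[]⟩,⟨0,[]⟩⟩,[.o ⟨false,0,⟨0,[(37,0),(3,0)]⟩,⟨0,[(12,0),(26,0)]⟩⟩,.o
  ⟨false,0,⟨0,[(37,0)]⟩,⟨7,[(6,3),(4,3),(7,0),(0,0),(3,3),(14,1)]⟩⟩,.a ⟨true,0,⟨1,[(21,0),(8,0),(0,
  0)]⟩,⟨0,[(22,0)]⟩⟩ ⟨true,0,⟨0,[]⟩,⟨0,[(41,0)]⟩⟩ ⟨false,0,⟨0,[(22,0),(14,0)]⟩,⟨1,[(12,0),(8,0),(14,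
  0),(2,1)]⟩⟩,.o ⟨false,0,⟨1,[(21,0),(2,0),(2,0)]⟩,⟨1,[(22,1),(9,0),(5,0)]⟩⟩]⟩) (.Q [0,1,0,0,0,0,0,
  0,1,0,0,-1] (.p false [0,0,0,1] [] (⟨0,[(22,0)]⟩,⟨1,[(21,0),(8,0),(0,0)]⟩) .k 0 (⟨0,[]⟩,⟨0,[]⟩)
  .k .k) (.R ⟨2,true,false,true,[0,1],[0,0,0,1],[1,1,1],(⟨0,[]⟩,⟨0,[]⟩),(⟨0,[(23,0)]⟩,⟨1,[(22,0),(8,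
  0),(0,0)]⟩),⟨0,[]⟩,.k,.k,.k,(.r 0 ⟨1,[(4,1),(23,0),(0,0),(8,1)]⟩ ⟨1,[(1,0),(19,0),(15,0)]⟩),.k,.k,
  ⟨false,0,⟨0,[(4,0)]⟩,⟨1,[(21,0),(17,0)]⟩⟩,⟨true,0,⟨1,[(22,0),(2,0),(2,0)]⟩,⟨0,[(23,0)]⟩⟩,⟨true,0,
  ⟨0,[(37,0)]⟩,⟨0,[(38,0)]⟩⟩,⟨false,1,⟨1,[(13,0),(7,0),(0,0),(14,0),(2,0)]⟩,⟨0,[(3,0)]⟩⟩,⟨false,0,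
  ⟨0,[]⟩,⟨3,[(20,0),(0,0),(18,1)]⟩⟩,⟨true,0,⟨0,[(0,0)]⟩,⟨0,[(3,0),(33,0)]⟩⟩,[]⟩) (.K ⟨1,[1,0,0,-1],
  0,0,(⟨1,[(22,0),(8,0),(0,0)]⟩,⟨0,[(23,0)]⟩),.k,(.r (-1) ⟨1,[(1,0),(18,0),(16,0)]⟩ ⟨3,[(2,1),(3,3),
  (2,1),(18,0),(0,0),(8,1)]⟩),(.r 0 ⟨1,[(4,1),(23,0),(0,0),(8,1)]⟩ ⟨1,[(1,0),(19,0),(15,0)]⟩),.k,.k,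
  [⟨1,[(22,0),(5,0),(0,0),(1,0),(0,0)]⟩,⟨2,[(10,0),(12,2),(1,0),(2,1)]⟩,⟨1,[(6,1),(15,0),(8,0),(0,
  0)]⟩,⟨0,[(0,0)]⟩]⟩))))) (.Q [0,0,0,-1,0,0,1,1,1,0,-1,-1] (.p false [1,-1,1] [1,0,0,-1] (⟨0,[(28,
  0),(1,0)]⟩,⟨0,[(4,0)]⟩) .k 2 (⟨1,[(18,0),(8,0),(0,0)]⟩,⟨0,[(19,0)]⟩) .k (.r 0 ⟨0,[(0,0),(25,0)]⟩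
  ⟨3,[(5,0),(2,0),(5,0),(1,1),(6,0),(0,0)]⟩)) (.I [1,0,1,1,0,0,0,0,-1] (.I [0,1,-1,0,0,0,0,1,1] (.I
  [1,1,-1,-1,0,0,0,1,1] (.R ⟨0,false,false,false,[0,0,0,1],[1,0,-1],[1,1,0,-1,0,0,0,0,1],(⟨0,[(23,
  0)]⟩,⟨1,[(22,0),(8,0),(0,0)]⟩),(⟨0,[(31,0)]⟩,⟨0,[(32,0)]⟩),⟨1,[(8,0),(5,0),(7,0)]⟩,.k,.k,(.x 0 ⟨2,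
  [(10,0),(14,0),(2,1),(5,2)]⟩ ⟨3,[(20,0),(0,0),(13,3),(3,1)]⟩),.k,.k,.k,⟨false,0,⟨0,[(0,0)]⟩,⟨1,
  [(9,1),(10,0),(18,0)]⟩⟩,⟨true,0,⟨2,[(10,0),(8,0),(3,2)]⟩,⟨1,[(22,0),(5,1),(2,0),(0,0)]⟩⟩,⟨true,0,
  ⟨0,[(37,0)]⟩,⟨0,[(38,0)]⟩⟩,⟨false,1,⟨1,[(11,1),(8,0),(2,1),(16,0)]⟩,⟨0,[(3,0),(27,0),(0,0),(5,
  0)]⟩⟩,⟨false,0,⟨0,[]⟩,⟨0,[]⟩⟩,⟨false,0,⟨0,[]⟩,⟨0,[]⟩⟩,[.o ⟨false,0,⟨0,[(11,0)]⟩,⟨3,[(20,0),(0,0),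
  (4,3),(13,1)]⟩⟩,.o ⟨false,1,⟨3,[(11,1),(15,1),(5,0),(6,2)]⟩,⟨0,[(26,0)]⟩⟩,.a ⟨true,0,⟨1,[(22,0),
  (8,0),(0,0)]⟩,⟨0,[(23,0)]⟩⟩ ⟨false,0,⟨0,[(3,0),(7,0),(11,0),(7,0),(0,0)]⟩,⟨1,[(2,1),(36,0),(0,
  0)]⟩⟩ ⟨true,0,⟨0,[(11,0),(11,0)]⟩,⟨1,[(22,0),(3,1),(4,0),(0,0)]⟩⟩,.o ⟨false,0,⟨1,[(22,0),(2,0),(2,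
  0)]⟩,⟨1,[(23,1),(9,0),(5,0)]⟩⟩]⟩) (.R ⟨0,false,false,false,[0,0,0,1],[1,0,-1],[0,1,0,0,0,0,0,0,1],
  (⟨0,[(23,0)]⟩,⟨1,[(22,0),(8,0),(0,0)]⟩),(⟨0,[(31,0)]⟩,⟨0,[(32,0)]⟩),⟨1,[(8,0),(5,0),(7,0)]⟩,.k,.k,
  (.x 0 ⟨2,[(10,0),(14,0),(2,1),(5,2)]⟩ ⟨3,[(20,0),(0,0),(13,3),(3,1)]⟩),.k,.k,.k,⟨false,0,⟨0,[(1,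
  0)]⟩,⟨3,[(0,1),(11,1),(7,0),(19,0)]⟩⟩,⟨true,0,⟨2,[(10,0),(8,0),(3,2)]⟩,⟨1,[(22,0),(5,1),(2,0),(0,
  0)]⟩⟩,⟨true,0,⟨0,[(42,0)]⟩,⟨0,[]⟩⟩,⟨false,1,⟨1,[(11,1),(8,0),(2,1),(16,0)]⟩,⟨0,[(3,0),(27,0),(0,
  0),(5,0)]⟩⟩,⟨false,0,⟨0,[]⟩,⟨0,[]⟩⟩,⟨false,0,⟨0,[]⟩,⟨0,[]⟩⟩,[.o ⟨false,0,⟨0,[(11,0)]⟩,⟨3,[(20,0),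
  (0,0),(4,3),(13,1)]⟩⟩,.o ⟨false,1,⟨3,[(11,1),(15,1),(5,0),(6,2)]⟩,⟨0,[(26,0)]⟩⟩,.a ⟨true,0,⟨1,
  [(22,0),(8,0),(0,0)]⟩,⟨0,[(23,0)]⟩⟩ ⟨false,0,⟨0,[(4,0)]⟩,⟨1,[(20,0),(19,0)]⟩⟩ ⟨true,0,⟨0,[(11,0),
  (11,0)]⟩,⟨1,[(22,0),(3,1),(4,0),(0,0)]⟩⟩,.o ⟨false,0,⟨1,[(22,0),(2,0),(2,0)]⟩,⟨1,[(23,1),(9,0),(5,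
  0)]⟩⟩]⟩)) (.Q [0,-1,0,0,0,0,0,0,1,1,0,-1] (.p false [0,0,0,1] [1] (⟨0,[(22,0)]⟩,⟨1,[(21,0),(8,0),
  (0,0)]⟩) .k 1 (⟨0,[]⟩,⟨0,[]⟩) .k .k) (.R ⟨0,false,false,true,[0,0,0,1],[1,-1],[0,1,0,0,0,0,0,0,1],
  (⟨0,[(23,0)]⟩,⟨1,[(22,0),(8,0),(0,0)]⟩),(⟨0,[(34,0)]⟩,⟨0,[(35,0)]⟩),⟨1,[(8,0),(5,0),(7,0)]⟩,.k,.k,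
  (.r (-1) ⟨15,[(3,5),(1,3),(6,7),(3,1),(4,4),(1,5),(15,1),(0,0)]⟩ ⟨0,[(0,0),(0,1),(3,0),(1,2),(3,
  0),(11,0),(10,2),(0,2),(2,3)]⟩),(.r 0 ⟨0,[(6,0),(29,0),(1,0)]⟩ ⟨9,[(1,5),(3,3),(6,1),(3,7),(3,1),
  (18,4),(0,0)]⟩),.k,.k,⟨false,0,⟨0,[(4,0),(33,0)]⟩,⟨9,[(1,5),(3,3),(6,1),(3,7),(3,1),(18,4),(0,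
  0)]⟩⟩,⟨true,0,⟨2,[(10,0),(12,2),(1,0),(2,1)]⟩,⟨1,[(22,0),(8,0),(0,0)]⟩⟩,⟨true,0,⟨0,[(42,0)]⟩,⟨0,
  []⟩⟩,⟨false,1,⟨1,[(13,1),(6,0),(2,1),(16,0)]⟩,⟨0,[(0,0),(37,0)]⟩⟩,⟨false,0,⟨0,[]⟩,⟨0,[]⟩⟩,⟨false,
  0,⟨0,[]⟩,⟨0,[]⟩⟩,[.o ⟨false,0,⟨0,[(13,0)]⟩,⟨3,[(2,1),(18,0),(16,1),(0,0),(0,1)]⟩⟩,.o ⟨false,1,⟨7,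
  [(7,3),(4,3),(7,0),(0,0),(3,3),(14,1)]⟩,⟨0,[(38,0)]⟩⟩,.a ⟨true,0,⟨1,[(22,0),(8,0),(0,0)]⟩,⟨0,[(23,
  0)]⟩⟩ ⟨false,0,⟨0,[(4,0)]⟩,⟨1,[(20,0),(19,0)]⟩⟩ ⟨true,0,⟨0,[(13,0),(9,0)]⟩,⟨1,[(22,0),(8,0),(0,0),
  (5,1)]⟩⟩,.o ⟨false,0,⟨1,[(22,0),(2,0),(2,0)]⟩,⟨1,[(23,1),(9,0),(5,0)]⟩⟩]⟩) (.R ⟨0,false,false,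
  false,[0,0,0,1],[1,0,0,-1],[0,1],(⟨0,[(23,0)]⟩,⟨1,[(22,0),(8,0),(0,0)]⟩),(⟨1,[(22,0),(8,0),(0,
  0)]⟩,⟨0,[(23,0)]⟩),⟨1,[(8,0),(5,0),(7,0)]⟩,.k,.k,(.r (-1) ⟨15,[(3,5),(1,3),(6,7),(3,1),(4,4),(1,
  5),(15,1),(0,0)]⟩ ⟨0,[(0,1),(0,1),(1,2),(1,0),(5,0),(11,0),(10,2),(0,2),(2,3)]⟩),.k,.k,.k,⟨true,0,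
  ⟨0,[(6,0)]⟩,⟨0,[(1,0),(28,0)]⟩⟩,⟨false,1,⟨1,[(23,3),(9,0),(5,0)]⟩,⟨0,[(22,0)]⟩⟩,⟨true,0,⟨1,[(0,1),
  (21,0),(8,0),(0,0)]⟩,⟨0,[(4,0)]⟩⟩,⟨false,1,⟨1,[(0,1),(0,1),(21,1),(6,1),(8,0),(0,0)]⟩,⟨0,[(4,1),
  (17,0)]⟩⟩,⟨false,0,⟨0,[]⟩,⟨0,[]⟩⟩,⟨false,0,⟨0,[]⟩,⟨0,[]⟩⟩,[.o ⟨false,1,⟨3,[(0,3),(19,0),(0,0),(18,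
  1)]⟩,⟨2,[(3,0),(0,1),(6,0),(10,0),(15,0)]⟩⟩,.o ⟨false,1,⟨0,[(0,0),(39,0)]⟩,⟨2,[(3,0),(2,1),(15,0),
  (1,0),(13,0)]⟩⟩,.a ⟨true,0,⟨1,[(22,0),(8,0),(0,0)]⟩,⟨0,[(23,0)]⟩⟩ ⟨true,0,⟨0,[(42,0)]⟩,⟨0,[]⟩⟩
  ⟨false,1,⟨0,[(0,0),(22,0),(16,0)]⟩,⟨0,[(4,0),(17,0)]⟩⟩,.o ⟨false,0,⟨1,[(22,0),(2,0),(2,0)]⟩,⟨1,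
  [(23,1),(9,0),(5,0)]⟩⟩]⟩))) (.R ⟨0,false,false,false,[0,0,0,1],[1,0,-1],[0,1,0,0,0,0,0,0,1],(⟨0,
  [(21,0)]⟩,⟨1,[(20,0),(8,0),(0,0)]⟩),(⟨0,[(29,0)]⟩,⟨0,[(30,0)]⟩),⟨1,[(6,0),(5,0),(7,0)]⟩,.k,.k,(.r
  0 ⟨0,[(0,0)]⟩ ⟨3,[(18,2),(0,0),(6,1),(0,1),(8,3)]⟩),.k,.k,.k,⟨false,0,⟨2,[(0,1),(2,0),(0,0),(19,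
  1),(3,0),(7,1)]⟩,⟨0,[(0,0),(6,0),(10,0)]⟩⟩,⟨true,0,⟨2,[(8,0),(8,0),(3,2)]⟩,⟨1,[(20,0),(5,1),(2,0),
  (0,0)]⟩⟩,⟨true,0,⟨0,[(40,0)]⟩,⟨0,[]⟩⟩,⟨false,1,⟨1,[(9,1),(8,0),(2,1),(16,0)]⟩,⟨0,[(1,0),(27,0),(0,
  0),(5,0)]⟩⟩,⟨false,0,⟨0,[]⟩,⟨0,[]⟩⟩,⟨false,0,⟨0,[]⟩,⟨0,[]⟩⟩,[.o ⟨false,0,⟨0,[(9,0)]⟩,⟨3,[(18,0),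
  (0,0),(4,3),(13,1)]⟩⟩,.o ⟨false,1,⟨3,[(9,1),(15,1),(5,0),(6,2)]⟩,⟨0,[(24,0)]⟩⟩,.a ⟨true,0,⟨1,[(20,
  0),(8,0),(0,0)]⟩,⟨0,[(21,0)]⟩⟩ ⟨false,0,⟨0,[(2,0)]⟩,⟨1,[(18,0),(19,0)]⟩⟩ ⟨true,0,⟨0,[(9,0),(11,
  0)]⟩,⟨1,[(20,0),(3,1),(4,0),(0,0)]⟩⟩,.o ⟨false,0,⟨1,[(20,0),(2,0),(2,0)]⟩,⟨1,[(21,1),(9,0),(5,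
  0)]⟩⟩]⟩)) (.R ⟨0,false,false,false,[0,0,0,1],[0,1,-1],[0,1,1],(⟨0,[(20,0)]⟩,⟨1,[(19,0),(8,0),(0,
  0)]⟩),(⟨0,[(5,0)]⟩,⟨0,[(29,0),(1,0)]⟩),⟨1,[(5,0),(5,0),(7,0)]⟩,.k,.k,(.r (-1) ⟨7,[(1,5),(0,1),(6,
  3),(3,3),(4,0),(17,0),(0,1)]⟩ ⟨1,[(0,1),(3,0),(14,0),(5,0),(1,0),(5,0),(1,0)]⟩),(.r (-1) ⟨3,[(1,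
  1),(0,1),(10,3),(4,0),(17,0),(0,1)]⟩ ⟨1,[(0,1),(3,0),(1,0),(12,0),(5,0)]⟩),.k,.k,⟨true,0,⟨2,[(2,
  0),(10,2),(12,0)]⟩,⟨0,[(6,0)]⟩⟩,⟨false,1,⟨7,[(2,3),(14,0),(0,0),(1,7),(15,5)]⟩,⟨1,[(4,0),(1,0),
  (12,0),(5,0)]⟩⟩,⟨false,0,⟨1,[(0,1),(3,0),(8,0),(5,0),(13,1)]⟩,⟨1,[(1,1),(34,0),(0,0)]⟩⟩,⟨true,0,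
  ⟨0,[(0,0)]⟩,⟨1,[(1,1),(2,0),(8,0),(5,0)]⟩⟩,⟨false,0,⟨0,[]⟩,⟨0,[]⟩⟩,⟨false,0,⟨0,[]⟩,⟨0,[]⟩⟩,[.o
  ⟨false,0,⟨2,[(0,1),(0,1),(6,0),(10,0),(15,0)]⟩,⟨3,[(4,3),(12,0),(0,0),(18,1)]⟩⟩,.o ⟨false,1,⟨27,
  [(0,19),(1,3),(3,5),(8,1),(2,9),(0,9),(10,4),(4,1),(1,10)]⟩,⟨0,[(4,0)]⟩⟩,.a ⟨true,0,⟨1,[(19,0),(8,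
  0),(0,0)]⟩,⟨0,[(20,0)]⟩⟩ ⟨false,0,⟨1,[(25,0),(0,0)]⟩,⟨1,[(36,0),(0,0)]⟩⟩ ⟨true,0,⟨0,[(0,0),(0,
  0)]⟩,⟨1,[(4,0),(8,0),(5,0)]⟩⟩,.o ⟨false,0,⟨1,[(19,0),(2,0),(2,0)]⟩,⟨1,[(20,1),(9,0),(5,
  0)]⟩⟩]⟩)))))) (.Q [0,0,1,0,0,0,2,0,0,1,-2] (.p false [0,0,1] [1,0,-1] (⟨0,[(24,0)]⟩,⟨0,[(23,0)]⟩)
  .k 2 (⟨0,[(23,0)]⟩,⟨0,[(24,0)]⟩) .k (.r 0 ⟨0,[(22,1)]⟩ ⟨1,[(1,0),(2,0),(5,0),(8,0),(0,0)]⟩)) (.K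
  ⟨2,[1,1,-1],0,0,(⟨0,[(24,0),(3,0)]⟩,⟨0,[(1,0)]⟩),.k,.k,(.x (-1) ⟨2,[(3,0),(8,0),(11,2),(3,5),(3,
  2)]⟩ ⟨2,[(1,2),(1,0),(14,0),(2,4),(5,2)]⟩),(.r 0 ⟨0,[(0,0),(3,1),(19,0),(0,0),(5,0)]⟩ ⟨0,[(5,0),
  (17,2)]⟩),.k,[⟨0,[(0,0)]⟩,⟨0,[(10,0)]⟩,⟨0,[(9,0),(14,0),(0,0)]⟩,⟨0,[(17,0),(13,0)]⟩]⟩) (.Q [0,1,0,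
  2,-1,0,-1,-1,0,0,1] (.p true [0,0,1] [] (⟨0,[(25,0)]⟩,⟨0,[(24,0)]⟩) .k 0 (⟨0,[]⟩,⟨0,[]⟩) .k .k)
  (.I [1,0,2,1,-1,0,0,-1] (.R ⟨1,true,false,false,[0,0,1],[0,1],[0,0,0,0,0,0,0,1],(⟨0,[(27,0)]⟩,⟨0,
  [(26,0)]⟩),(⟨0,[(30,0)]⟩,⟨0,[(29,0)]⟩),⟨0,[(3,0)]⟩,.k,.k,.k,.k,(.r (-2) ⟨0,[(7,1),(17,2)]⟩ ⟨0,[(0,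
  0),(32,0)]⟩),.k,⟨true,1,⟨0,[(7,0),(17,1)]⟩,⟨0,[(0,0)]⟩⟩,⟨false,1,⟨2,[(2,0),(21,0),(1,0),(0,0),(6,
  2)]⟩,⟨0,[(23,0)]⟩⟩,⟨false,1,⟨3,[(15,0),(0,0),(18,1)]⟩,⟨0,[]⟩⟩,⟨true,0,⟨1,[(1,0),(20,0),(12,0)]⟩,
  ⟨0,[(11,0)]⟩⟩,⟨true,0,⟨0,[(33,0)]⟩,⟨0,[(32,0)]⟩⟩,⟨false,0,⟨0,[(1,0),(33,0)]⟩,⟨0,[(11,0),(20,0),(2,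
  0)]⟩⟩,[]⟩) (.R ⟨1,true,false,false,[0,0,1],[0,1],[1,0,0,-1,0,0,0,1],(⟨0,[(27,0)]⟩,⟨0,[(26,0)]⟩),
  (⟨0,[(30,0)]⟩,⟨0,[(29,0)]⟩),⟨0,[(3,0)]⟩,.k,.k,.k,.k,(.r (-2) ⟨3,[(0,3),(14,0),(0,0),(15,3),(2,
  1)]⟩ ⟨0,[(1,0),(21,0),(7,0)]⟩),.k,⟨true,1,⟨0,[(0,0),(30,0),(0,0)]⟩,⟨0,[(1,0),(21,0),(7,0)]⟩⟩,
  ⟨false,1,⟨1,[(0,1),(0,0),(20,0),(12,0)]⟩,⟨0,[(23,0)]⟩⟩,⟨false,1,⟨0,[(32,0),(2,0)]⟩,⟨0,[(33,0)]⟩⟩,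
  ⟨true,0,⟨1,[(1,0),(20,0),(12,0)]⟩,⟨0,[(11,0)]⟩⟩,⟨true,0,⟨0,[]⟩,⟨0,[(37,0)]⟩⟩,⟨false,0,⟨0,[(1,0),
  (33,0)]⟩,⟨0,[(11,0),(20,0),(2,0)]⟩⟩,[]⟩)) (.Q [0,-1,0,1,0,0,0,0,-1,0,0,1] (.p true [0,0,0,1] []
  (⟨0,[(17,0)]⟩,⟨1,[(16,0),(8,0),(0,0)]⟩) .k 0 (⟨0,[]⟩,⟨0,[]⟩) .k .k) (.Q [0,0,0,-1,0,0,1,1,-1,0,-1,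
  1] (.p false [0,0,1] [0,0,0,1] (⟨0,[(27,0)]⟩,⟨0,[(26,0)]⟩) .k 2 (⟨0,[(18,0)]⟩,⟨1,[(17,0),(8,0),(0,
  0)]⟩) .k (.r 0 ⟨1,[(0,1),(10,1),(2,0),(2,0)]⟩ ⟨3,[(4,0),(2,0),(5,0),(2,1),(5,0),(0,0)]⟩)) (.Q [0,
  0,0,0,0,-1,0,0,0,1,0,-1] (.p false [0,0,0,1] [1] (⟨0,[(19,0)]⟩,⟨1,[(18,0),(8,0),(0,0)]⟩) .k 1 (⟨0,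
  []⟩,⟨0,[]⟩) .k .k) (.I [0,0,-1,-1,0,0,0,1,-1] (.R ⟨1,false,false,false,[1,0,0,-1],[1,0,-1],[0,0,0,
  0,0,0,0,0,-1],(⟨1,[(20,0),(8,0),(0,0)]⟩,⟨0,[(21,0)]⟩),(⟨0,[(29,0)]⟩,⟨0,[(30,0)]⟩),⟨0,[(1,0)]⟩,.k,
  .k,(.x 0 ⟨2,[(8,0),(14,0),(2,1),(5,2)]⟩ ⟨3,[(18,0),(0,0),(13,3),(3,1)]⟩),.k,(.r 0 ⟨0,[(0,0)]⟩ ⟨3,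
  [(7,1),(10,0),(0,2),(5,1),(0,1),(9,1)]⟩),.k,⟨false,0,⟨0,[(0,0),(35,0)]⟩,⟨3,[(7,0),(2,0),(5,0),(2,
  1),(5,0),(0,0)]⟩⟩,⟨true,0,⟨1,[(17,0),(2,0)]⟩,⟨0,[(21,0),(4,0)]⟩⟩,⟨false,1,⟨3,[(18,0),(0,0),(18,
  1)]⟩,⟨0,[]⟩⟩,⟨false,1,⟨1,[(5,0),(1,0),(2,0),(8,0),(0,0),(13,0)]⟩,⟨1,[(2,0),(0,0),(20,0)]⟩⟩,⟨true,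
  0,⟨0,[(36,0)]⟩,⟨0,[(35,0)]⟩⟩,⟨false,1,⟨15,[(5,7),(1,11),(8,3),(1,0),(0,8),(0,7),(15,3),(1,1)]⟩,⟨0,
  [(2,0)]⟩⟩,[.o ⟨false,0,⟨0,[(9,0)]⟩,⟨3,[(18,0),(0,0),(4,3),(13,1)]⟩⟩,.o ⟨false,1,⟨3,[(9,1),(15,1),
  (5,0),(6,2)]⟩,⟨0,[(24,0)]⟩⟩,.a ⟨true,0,⟨0,[(21,0)]⟩,⟨1,[(20,0),(8,0),(0,0)]⟩⟩ ⟨false,0,⟨0,[(0,0),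
  (6,0)]⟩,⟨3,[(18,0),(0,2)]⟩⟩ ⟨true,0,⟨1,[(9,1),(10,0),(8,0),(0,0)]⟩,⟨0,[(21,0),(2,0)]⟩⟩,.o ⟨false,
  0,⟨2,[(8,0),(12,2),(1,0),(2,1)]⟩,⟨7,[(18,0),(0,0),(0,3),(10,1),(5,3)]⟩⟩]⟩) (.I [0,1,-1,-1,0,0,0,1,
  -1] (.R ⟨1,false,false,false,[1,0,0,-1],[1,0,-1],[1,1,0,-1,0,0,0,0,-1],(⟨1,[(21,0),(8,0),(0,0)]⟩,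
  ⟨0,[(22,0)]⟩),(⟨0,[(30,0)]⟩,⟨0,[(31,0)]⟩),⟨0,[(2,0)]⟩,.k,.k,(.r (-1) ⟨3,[(0,1),(10,1),(7,0),(19,
  0)]⟩ ⟨0,[(1,0),(27,0)]⟩),.k,(.x 0 ⟨0,[(7,0),(19,0)]⟩ ⟨3,[(6,1),(12,0),(0,0),(9,3),(1,0),(1,3),(3,
  0)]⟩),.k,⟨false,0,⟨0,[(0,0)]⟩,⟨1,[(1,1),(36,0),(0,0)]⟩⟩,⟨true,0,⟨1,[(18,0),(2,0)]⟩,⟨0,[(22,0),(4,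
  0)]⟩⟩,⟨true,0,⟨0,[(36,0)]⟩,⟨0,[(37,0)]⟩⟩,⟨false,1,⟨3,[(1,1),(4,1),(4,1),(8,0),(0,1),(13,1),(3,
  0)]⟩,⟨1,[(3,0),(0,0),(20,0)]⟩⟩,⟨false,0,⟨0,[]⟩,⟨3,[(19,0),(0,0),(18,1)]⟩⟩,⟨false,1,⟨7,[(1,7),(4,
  3),(12,0),(0,0),(0,3),(16,1),(0,3)]⟩,⟨0,[(3,0)]⟩⟩,[.o ⟨false,0,⟨0,[(10,0)]⟩,⟨3,[(19,0),(0,0),(4,
  3),(13,1)]⟩⟩,.o ⟨false,1,⟨3,[(10,1),(15,1),(5,0),(6,2)]⟩,⟨0,[(25,0)]⟩⟩,.a ⟨true,0,⟨0,[(22,0)]⟩,⟨1,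
  [(21,0),(8,0),(0,0)]⟩⟩ ⟨false,0,⟨1,[(3,1),(6,1),(10,0),(8,0),(0,0)]⟩,⟨1,[(20,0),(16,1),(1,0)]⟩⟩
  ⟨true,0,⟨1,[(10,1),(10,0),(8,0),(0,0)]⟩,⟨0,[(22,0),(2,0)]⟩⟩,.o ⟨false,0,⟨2,[(9,0),(12,2),(1,0),(2,
  1)]⟩,⟨7,[(19,0),(0,0),(0,3),(10,1),(5,3)]⟩⟩]⟩) (.Q [0,-1,0,0,0,0,0,0,-1,0,0,1] (.p true [0,0,0,1]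
  [] (⟨0,[(22,0)]⟩,⟨1,[(21,0),(8,0),(0,0)]⟩) .k 0 (⟨0,[]⟩,⟨0,[]⟩) .k .k) (.R ⟨1,false,false,true,[1,
  0,0,-1],[1,-1],[0,1,0,0,0,0,0,0,-1],(⟨1,[(22,0),(8,0),(0,0)]⟩,⟨0,[(23,0)]⟩),(⟨0,[(34,0)]⟩,⟨0,[(35,
  0)]⟩),⟨0,[(3,0)]⟩,.k,.k,(.r (-1) ⟨27,[(4,9),(1,1),(0,5),(4,11),(7,8),(1,4),(8,0),(0,0),(4,1),(1,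
  4)]⟩ ⟨0,[(2,0),(27,0)]⟩),(.r 0 ⟨1,[(5,1),(16,0),(2,0),(2,0),(13,1)]⟩ ⟨3,[(1,5),(2,1),(2,3),(4,1),
  (3,5),(5,0),(8,2),(0,2),(6,1)]⟩),.k,.k,⟨false,0,⟨1,[(5,1),(16,0),(1,0),(1,0)]⟩,⟨3,[(1,5),(2,1),(2,
  3),(4,1),(3,5),(5,0),(8,2),(0,2),(6,1)]⟩⟩,⟨true,0,⟨1,[(22,0),(2,0),(2,0)]⟩,⟨0,[(23,0)]⟩⟩,⟨true,0,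
  ⟨0,[(42,0)]⟩,⟨0,[]⟩⟩,⟨false,1,⟨3,[(6,0),(5,0),(0,0),(7,1),(0,1),(2,0)]⟩,⟨0,[(5,0)]⟩⟩,⟨false,0,⟨0,
  [(38,0)]⟩,⟨2,[(6,0),(5,0),(16,0),(10,0)]⟩⟩,⟨false,1,⟨7,[(20,0),(0,4),(0,3),(10,1)]⟩,⟨0,[(0,0)]⟩⟩,
  [.o ⟨false,0,⟨0,[(13,0)]⟩,⟨3,[(20,0),(0,0),(16,3),(1,1)]⟩⟩,.o ⟨false,1,⟨15,[(6,3),(5,3),(7,0),(0,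
  0),(3,3),(7,5),(3,3)]⟩,⟨0,[(38,0)]⟩⟩,.a ⟨true,0,⟨0,[(23,0)]⟩,⟨1,[(22,0),(8,0),(0,0)]⟩⟩ ⟨false,0,
  ⟨1,[(4,0),(0,0),(16,0),(1,0)]⟩,⟨1,[(21,0),(18,0)]⟩⟩ ⟨true,0,⟨1,[(13,0),(8,0),(14,0)]⟩,⟨0,[(23,0),
  (14,0)]⟩⟩,.o ⟨false,0,⟨2,[(10,0),(12,2),(1,0),(2,1)]⟩,⟨7,[(20,0),(0,0),(0,3),(10,1),(5,3)]⟩⟩]⟩)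
  (.R ⟨2,true,false,true,[0,1],[0,0,0,1],[0,1,1,1],(⟨0,[]⟩,⟨0,[]⟩),(⟨0,[(23,0)]⟩,⟨1,[(22,0),(8,0),
  (0,0)]⟩),⟨0,[]⟩,.k,.k,.k,(.r 0 ⟨1,[(5,1),(16,0),(2,0),(2,0),(13,1)]⟩ ⟨3,[(1,5),(2,1),(2,3),(4,1),
  (3,5),(5,0),(8,2),(0,2),(6,1)]⟩),.k,.k,⟨false,0,⟨1,[(5,1),(16,0),(1,0),(1,0)]⟩,⟨3,[(1,5),(2,1),(2,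
  3),(4,1),(3,5),(5,0),(8,2),(0,2),(6,1)]⟩⟩,⟨true,0,⟨1,[(22,0),(2,0),(2,0)]⟩,⟨0,[(23,0)]⟩⟩,⟨true,0,
  ⟨0,[(42,0)]⟩,⟨0,[]⟩⟩,⟨false,1,⟨2,[(0,0),(5,0),(5,0),(8,0),(0,0),(2,0)]⟩,⟨0,[(5,0)]⟩⟩,⟨false,0,⟨0,
  [(38,0)]⟩,⟨2,[(6,0),(5,0),(16,0),(10,0)]⟩⟩,⟨true,0,⟨0,[(0,0)]⟩,⟨1,[(4,0),(0,0),(21,0)]⟩⟩,[]⟩))))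
  (.I [0,0,-1,-1,1,0,0,0,1] (.I [1,-1,0,0,0,0,0,0,-1] (.I [0,1,-1,-1,0,0,0,1,-1] (.R ⟨0,false,false,
  true,[0,0,0,1],[0,-1,1],[1,0,0,0,0,0,0,0,1],(⟨0,[(23,0)]⟩,⟨1,[(22,0),(8,0),(0,0)]⟩),(⟨0,[(8,0)]⟩,
  ⟨0,[(31,0),(3,0)]⟩),⟨0,[(3,0),(18,0)]⟩,.k,.k,(.r (-1) ⟨0,[(2,0)]⟩ ⟨1,[(5,1),(16,0),(2,0),(2,0),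
  (13,1)]⟩),(.x (-1) ⟨3,[(7,1),(12,0),(0,0),(9,3),(1,0),(1,3),(3,0)]⟩ ⟨0,[(8,0),(19,0)]⟩),.k,.k,
  ⟨false,1,⟨1,[(9,1),(11,0),(17,0)]⟩,⟨0,[(0,0)]⟩⟩,⟨true,0,⟨0,[(23,0),(4,0)]⟩,⟨1,[(19,0),(2,0)]⟩⟩,
  ⟨true,0,⟨0,[]⟩,⟨0,[(42,0)]⟩⟩,⟨false,0,⟨0,[(4,0)]⟩,⟨15,[(7,7),(1,11),(8,3),(1,0),(0,8),(0,7),(15,
  3),(1,1)]⟩⟩,⟨false,0,⟨0,[]⟩,⟨0,[]⟩⟩,⟨false,0,⟨0,[]⟩,⟨0,[]⟩⟩,[.o ⟨false,0,⟨0,[(16,0)]⟩,⟨15,[(7,7),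
  (1,11),(8,3),(1,2),(0,2),(11,3),(4,3),(1,1)]⟩⟩,.o ⟨false,1,⟨3,[(6,1),(13,0),(0,0),(4,1)]⟩,⟨0,[(11,
  0),(26,0)]⟩⟩,.a ⟨true,0,⟨1,[(22,0),(8,0),(0,0)]⟩,⟨0,[(23,0)]⟩⟩ ⟨false,1,⟨1,[(21,0),(18,0)]⟩,⟨5,
  [(0,1),(0,1),(3,1),(16,0),(1,0),(2,0),(0,1)]⟩⟩ ⟨true,0,⟨0,[(16,0),(6,0)]⟩,⟨1,[(11,1),(10,0),(8,0),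
  (0,0),(5,1)]⟩⟩,.o ⟨false,0,⟨1,[(22,0),(2,0),(2,0)]⟩,⟨1,[(23,1),(9,0),(5,0)]⟩⟩]⟩) (.R ⟨0,false,
  false,true,[1,0,0,-1],[1,-1],[0,1,0,0,0,0,0,0,-1],(⟨1,[(22,0),(8,0),(0,0)]⟩,⟨0,[(23,0)]⟩),(⟨0,
  [(34,0)]⟩,⟨0,[(35,0)]⟩),⟨0,[(3,0)]⟩,.k,.k,(.r (-1) ⟨8,[(2,0),(1,3),(2,1),(4,3),(7,2),(1,1),(16,
  0)]⟩ ⟨0,[(0,0),(29,0),(11,0)]⟩),(.r 0 ⟨1,[(5,1),(16,0),(2,0),(2,0),(13,1)]⟩ ⟨0,[(2,0)]⟩),.k,.k,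
  ⟨false,0,⟨1,[(5,1),(16,0),(1,0),(1,0)]⟩,⟨0,[(2,0)]⟩⟩,⟨true,0,⟨1,[(22,0),(2,0),(2,0)]⟩,⟨0,[(23,
  0)]⟩⟩,⟨true,0,⟨0,[(42,0)]⟩,⟨0,[]⟩⟩,⟨false,1,⟨3,[(6,0),(5,0),(0,0),(7,1),(0,1),(2,0)]⟩,⟨0,[(5,
  0)]⟩⟩,⟨false,0,⟨0,[]⟩,⟨0,[]⟩⟩,⟨false,0,⟨0,[]⟩,⟨0,[]⟩⟩,[.o ⟨false,0,⟨0,[(13,0)]⟩,⟨3,[(20,0),(0,0),
  (16,3),(1,1)]⟩⟩,.o ⟨false,1,⟨15,[(6,3),(5,3),(7,0),(0,0),(3,3),(7,5),(3,3)]⟩,⟨0,[(38,0)]⟩⟩,.a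
  ⟨true,0,⟨0,[(23,0)]⟩,⟨1,[(22,0),(8,0),(0,0)]⟩⟩ ⟨false,0,⟨0,[(1,0),(40,0)]⟩,⟨1,[(21,0),(18,0)]⟩⟩
  ⟨true,0,⟨1,[(13,0),(8,0),(14,0)]⟩,⟨0,[(23,0),(14,0)]⟩⟩,.o ⟨false,0,⟨2,[(10,0),(12,2),(1,0),(2,
  1)]⟩,⟨7,[(20,0),(0,0),(0,3),(10,1),(5,3)]⟩⟩]⟩)) (.R ⟨0,false,false,true,[1,0,0,-1],[1,-1],[1,1],
  (⟨1,[(21,0),(8,0),(0,0)]⟩,⟨0,[(22,0)]⟩),(⟨0,[(33,0)]⟩,⟨0,[(34,0)]⟩),⟨0,[(2,0)]⟩,.k,.k,(.r (-1) ⟨8,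
  [(1,0),(1,3),(2,1),(4,3),(7,2),(1,1),(16,0)]⟩ ⟨0,[(0,0),(34,0),(1,0)]⟩),(.r 0 ⟨1,[(4,1),(16,0),(2,
  0),(2,0),(13,1)]⟩ ⟨0,[(1,0)]⟩),.k,.k,⟨false,0,⟨0,[(37,0)]⟩,⟨17,[(1,9),(1,3),(2,1),(4,3),(7,2),(1,
  1),(16,0)]⟩⟩,⟨true,0,⟨1,[(21,0),(2,0),(2,0)]⟩,⟨0,[(22,0)]⟩⟩,⟨true,0,⟨0,[(0,0)]⟩,⟨1,[(3,0),(0,0),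
  (16,0),(1,0)]⟩⟩,⟨false,1,⟨3,[(5,0),(5,0),(0,0),(7,1),(0,1),(2,0)]⟩,⟨0,[(4,0)]⟩⟩,⟨false,0,⟨0,[]⟩,
  ⟨0,[]⟩⟩,⟨false,0,⟨0,[]⟩,⟨0,[]⟩⟩,[.o ⟨false,0,⟨0,[(12,0)]⟩,⟨3,[(19,0),(0,0),(16,3),(1,1)]⟩⟩,.o
  ⟨false,1,⟨15,[(5,3),(5,3),(7,0),(0,0),(3,3),(7,5),(3,3)]⟩,⟨0,[(37,0)]⟩⟩,.a ⟨true,0,⟨0,[(22,0)]⟩,
  ⟨1,[(21,0),(8,0),(0,0)]⟩⟩ ⟨false,0,⟨0,[]⟩,⟨3,[(19,0),(0,0),(18,1)]⟩⟩ ⟨true,0,⟨1,[(12,0),(8,0),(14,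
  0)]⟩,⟨0,[(22,0),(14,0)]⟩⟩,.o ⟨false,0,⟨2,[(9,0),(12,2),(1,0),(2,1)]⟩,⟨7,[(19,0),(0,0),(0,3),(10,
  1),(5,3)]⟩⟩]⟩)) (.R ⟨0,false,false,false,[0,0,0,1],[0,1],[1,0,1,1],(⟨0,[(21,0)]⟩,⟨1,[(20,0),(8,0),
  (0,0)]⟩),(⟨0,[(33,0)]⟩,⟨0,[(32,0)]⟩),⟨0,[(1,0),(18,0)]⟩,.k,.k,(.x 0 ⟨2,[(8,0),(14,0),(2,1),(5,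
  2)]⟩ ⟨3,[(18,0),(0,0),(13,3),(3,1)]⟩),(.x 0 ⟨2,[(8,0),(14,0),(2,1),(5,2)]⟩ ⟨3,[(18,0),(0,0),(13,
  3),(3,1)]⟩),.k,.k,⟨true,0,⟨0,[]⟩,⟨1,[(26,0),(0,0)]⟩⟩,⟨false,1,⟨0,[(21,0),(15,0)]⟩,⟨1,[(20,0),(2,
  0),(2,0)]⟩⟩,⟨true,(-1),⟨0,[(0,0)]⟩,⟨1,[(19,0),(15,1),(1,0)]⟩⟩,⟨false,0,⟨0,[(3,0)]⟩,⟨3,[(4,0),(5,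
  0),(0,0),(7,1),(0,1),(2,0)]⟩⟩,⟨false,0,⟨0,[]⟩,⟨0,[]⟩⟩,⟨false,0,⟨0,[]⟩,⟨0,[]⟩⟩,[.o ⟨false,0,⟨0,
  [(36,0)]⟩,⟨15,[(4,3),(5,3),(7,0),(0,0),(3,3),(7,5),(3,3)]⟩⟩,.o ⟨false,1,⟨3,[(18,0),(0,0),(16,3),
  (1,1)]⟩,⟨0,[(11,0)]⟩⟩,.a ⟨true,0,⟨1,[(20,0),(8,0),(0,0)]⟩,⟨0,[(21,0)]⟩⟩ ⟨false,0,⟨1,[(0,1),(18,0),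
  (18,0)]⟩,⟨1,[(4,0),(20,0),(11,0)]⟩⟩ ⟨true,0,⟨0,[(21,0),(14,0)]⟩,⟨1,[(11,0),(8,0),(14,0)]⟩⟩,.o
  ⟨false,0,⟨1,[(20,0),(2,0),(2,0)]⟩,⟨1,[(21,1),(9,0),(5,0)]⟩⟩]⟩))) (.I [0,0,-1,-1,1,0,0,0,1] (.R ⟨2,
  true,false,true,[0,1],[0,0,0,1],[1,1,1],(⟨0,[]⟩,⟨0,[]⟩),(⟨0,[(20,0)]⟩,⟨1,[(19,0),(8,0),(0,0)]⟩),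
  ⟨0,[]⟩,.k,.k,.k,(.r 0 ⟨1,[(2,1),(16,0),(2,0),(2,0),(13,1)]⟩ ⟨0,[(0,0)]⟩),.k,.k,⟨false,0,⟨1,[(2,1),
  (7,0),(8,0),(14,0)]⟩,⟨1,[(18,0),(17,0)]⟩⟩,⟨true,0,⟨1,[(19,0),(2,0),(2,0)]⟩,⟨0,[(20,0)]⟩⟩,⟨true,0,
  ⟨0,[(34,0)]⟩,⟨0,[(35,0)]⟩⟩,⟨false,1,⟨3,[(3,0),(5,0),(0,0),(7,1),(0,1),(2,0)]⟩,⟨0,[(2,0)]⟩⟩,⟨false,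
  0,⟨0,[]⟩,⟨3,[(17,0),(0,0),(18,1)]⟩⟩,⟨true,0,⟨0,[(1,0),(11,0)]⟩,⟨0,[(2,0),(31,0)]⟩⟩,[]⟩) (.R ⟨1,
  true,false,false,[0,0,1],[0,1],[1,0,0,-1,0,0,0,1],(⟨0,[(29,0)]⟩,⟨0,[(28,0)]⟩),(⟨0,[(32,0)]⟩,⟨0,
  [(31,0)]⟩),⟨0,[(5,0)]⟩,.k,.k,.k,.k,(.r (-2) ⟨2,[(3,1),(22,1),(0,0),(6,1),(1,3)]⟩ ⟨0,[(0,0),(0,0),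
  (18,0),(4,0)]⟩),.k,⟨true,1,⟨2,[(3,1),(0,0),(22,0),(0,0),(0,0),(4,1),(1,0)]⟩,⟨0,[(0,0),(0,0),(18,
  0),(4,0)]⟩⟩,⟨false,1,⟨2,[(4,0),(21,0),(1,0),(0,0),(6,2)]⟩,⟨0,[(25,0)]⟩⟩,⟨false,1,⟨2,[(3,0),(5,0),
  (16,0),(10,0)]⟩,⟨0,[(35,0)]⟩⟩,⟨true,0,⟨1,[(1,0),(0,0),(21,0)]⟩,⟨0,[(13,0)]⟩⟩,⟨true,0,⟨0,[]⟩,⟨0,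
  [(39,0)]⟩⟩,⟨false,0,⟨0,[(1,0),(0,0)]⟩,⟨5,[(3,3),(9,1),(3,0),(0,0),(15,1)]⟩⟩,[]⟩))) (.I [1,0,0,1,0,
  0,0,0,-1] (.Q [0,0,0,0,0,1,0,0,0,0,0,-1] (.p false [0,0,0,1] [] (⟨0,[(19,0)]⟩,⟨1,[(18,0),(8,0),(0,
  0)]⟩) .k 0 (⟨0,[]⟩,⟨0,[]⟩) .k .k) (.R ⟨0,false,false,false,[0,0,0,1],[0,1],[1,0,1,1],(⟨0,[(20,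
  0)]⟩,⟨1,[(19,0),(8,0),(0,0)]⟩),(⟨0,[(32,0)]⟩,⟨0,[(31,0)]⟩),⟨0,[(0,0)]⟩,.k,.k,(.r (-1) ⟨1,[(2,1),
  (17,1),(15,0),(0,0)]⟩ ⟨1,[(1,1),(23,0),(0,0)]⟩),(.r (-1) ⟨1,[(2,1),(17,1),(15,0),(0,0)]⟩ ⟨1,[(1,
  1),(23,0),(0,0)]⟩),.k,.k,⟨true,0,⟨0,[]⟩,⟨1,[(25,0),(0,0)]⟩⟩,⟨false,1,⟨0,[(20,0),(15,0)]⟩,⟨1,[(19,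
  0),(2,0),(2,0)]⟩⟩,⟨false,0,⟨0,[(1,0),(31,0)]⟩,⟨1,[(2,1),(17,1),(15,0),(0,0)]⟩⟩,⟨true,0,⟨0,[(1,0),
  (18,0)]⟩,⟨0,[(2,0)]⟩⟩,⟨false,0,⟨0,[]⟩,⟨0,[]⟩⟩,⟨false,0,⟨0,[]⟩,⟨0,[]⟩⟩,[.o ⟨false,0,⟨0,[(35,0)]⟩,
  ⟨15,[(3,3),(5,3),(7,0),(0,0),(3,3),(7,5),(3,3)]⟩⟩,.o ⟨false,1,⟨3,[(17,0),(0,0),(16,3),(1,1)]⟩,⟨0,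
  [(10,0)]⟩⟩,.a ⟨true,0,⟨1,[(19,0),(8,0),(0,0)]⟩,⟨0,[(20,0)]⟩⟩ ⟨false,0,⟨0,[(33,0),(1,0)]⟩,⟨1,[(3,
  0),(20,0),(11,0)]⟩⟩ ⟨true,0,⟨0,[(20,0),(14,0)]⟩,⟨1,[(10,0),(8,0),(14,0)]⟩⟩,.o ⟨false,0,⟨1,[(19,0),
  (2,0),(2,0)]⟩,⟨1,[(20,1),(9,0),(5,0)]⟩⟩]⟩) (.I [0,0,0,0,0,0,0,0,-1] (.R ⟨1,false,false,true,[1,0,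
  0,-1],[1,-1],[0,1,0,0,0,0,0,0,-1],(⟨1,[(20,0),(8,0),(0,0)]⟩,⟨0,[(21,0)]⟩),(⟨0,[(32,0)]⟩,⟨0,[(33,
  0)]⟩),⟨0,[(1,0),(18,0)]⟩,.k,.k,(.r (-1) ⟨15,[(0,9),(3,3),(0,1),(4,3),(7,2),(10,1),(0,1),(4,3),(1,
  4)]⟩ ⟨0,[(3,0),(17,0),(12,0),(1,1)]⟩),(.r 0 ⟨1,[(2,1),(23,0),(0,0)]⟩ ⟨1,[(3,1),(17,1),(15,0),(0,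
  0)]⟩),.k,.k,⟨false,0,⟨0,[(0,0),(35,0)]⟩,⟨1,[(3,1),(17,1),(15,0),(0,0)]⟩⟩,⟨true,0,⟨1,[(20,0),(2,0),
  (2,0)]⟩,⟨0,[(21,0)]⟩⟩,⟨true,0,⟨0,[(40,0)]⟩,⟨0,[]⟩⟩,⟨true,0,⟨0,[(3,0)]⟩,⟨0,[(2,0),(18,0)]⟩⟩,⟨false,
  0,⟨0,[(36,0)]⟩,⟨2,[(4,0),(5,0),(16,0),(10,0)]⟩⟩,⟨true,0,⟨0,[(3,0),(32,0)]⟩,⟨0,[(0,0),(20,0)]⟩⟩,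
  [.o ⟨false,0,⟨0,[(11,0)]⟩,⟨3,[(18,0),(0,0),(16,3),(1,1)]⟩⟩,.o ⟨false,1,⟨15,[(4,3),(5,3),(7,0),(0,
  0),(3,3),(7,5),(3,3)]⟩,⟨0,[(36,0)]⟩⟩,.a ⟨true,0,⟨0,[(21,0)]⟩,⟨1,[(20,0),(8,0),(0,0)]⟩⟩ ⟨false,0,
  ⟨0,[(0,0)]⟩,⟨1,[(19,0),(18,0)]⟩⟩ ⟨true,0,⟨1,[(11,0),(8,0),(14,0)]⟩,⟨0,[(21,0),(14,0)]⟩⟩,.o ⟨false,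
  0,⟨2,[(8,0),(12,2),(1,0),(2,1)]⟩,⟨7,[(18,0),(0,0),(0,3),(10,1),(5,3)]⟩⟩]⟩) (.Q [0,0,0,0,0,0,0,0,1,
  0,0,-1] (.p false [0,0,0,1] [] (⟨0,[(21,0)]⟩,⟨1,[(20,0),(8,0),(0,0)]⟩) .k 0 (⟨0,[]⟩,⟨0,[]⟩) .k
  .k) (.R ⟨2,true,false,false,[0,1],[0,0,0,1],[1,1,1],(⟨0,[]⟩,⟨0,[]⟩),(⟨0,[(22,0)]⟩,⟨1,[(21,0),(8,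
  0),(0,0)]⟩),⟨0,[]⟩,.k,.k,.k,(.r 0 ⟨1,[(3,1),(23,0),(0,0)]⟩ ⟨15,[(1,9),(3,3),(0,1),(4,3),(8,2),(9,
  1),(0,1),(4,3),(1,4)]⟩),.k,.k,⟨false,0,⟨0,[(3,0),(32,0)]⟩,⟨1,[(1,1),(36,0),(0,0)]⟩⟩,⟨true,0,⟨1,
  [(21,0),(2,0),(2,0)]⟩,⟨0,[(22,0)]⟩⟩,⟨true,0,⟨0,[(36,0)]⟩,⟨0,[(37,0)]⟩⟩,⟨false,1,⟨0,[(4,0),(34,
  0)]⟩,⟨0,[(3,0),(18,0)]⟩⟩,⟨false,0,⟨0,[]⟩,⟨3,[(19,0),(0,0),(18,1)]⟩⟩,⟨true,0,⟨0,[(0,0)]⟩,⟨0,[(3,0),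
  (18,0),(13,0)]⟩⟩,[]⟩) (.R ⟨0,false,false,true,[1,0,-1],[0,0,0,1],[1,1,0,0,0,0,0,0,1],(⟨0,[(30,
  0)]⟩,⟨0,[(31,0)]⟩),(⟨0,[(22,0)]⟩,⟨1,[(21,0),(8,0),(0,0)]⟩),⟨0,[(13,0)]⟩,.k,.k,.k,.k,.k,.k,⟨true,0,
  ⟨0,[]⟩,⟨1,[(27,0),(0,0)]⟩⟩,⟨false,1,⟨1,[(21,0),(5,1),(2,0),(0,0),(6,1)]⟩,⟨2,[(9,0),(8,0),(3,2)]⟩⟩,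
  ⟨false,0,⟨0,[(1,0),(27,0)]⟩,⟨5,[(0,1),(2,1),(1,0),(2,2),(1,0),(0,2),(7,0),(1,0),(17,0)]⟩⟩,⟨true,0,
  ⟨1,[(1,1),(19,0),(3,1),(4,0),(0,0)]⟩,⟨0,[(0,0),(9,0)]⟩⟩,⟨false,0,⟨0,[]⟩,⟨0,[]⟩⟩,⟨false,0,⟨0,[]⟩,
  ⟨0,[]⟩⟩,[.o ⟨false,0,⟨0,[(4,0),(32,0)]⟩,⟨1,[(0,1),(31,0),(6,0)]⟩⟩,.a ⟨true,0,⟨1,[(1,1),(19,0),(8,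
  0),(0,0)]⟩,⟨0,[(0,0)]⟩⟩ ⟨true,0,⟨0,[(1,0)]⟩,⟨1,[(0,1),(20,0),(2,0),(2,0)]⟩⟩ ⟨false,1,⟨1,[(1,1),
  (19,0),(5,1),(2,0),(0,0),(6,1)]⟩,⟨2,[(0,2),(8,0),(8,0)]⟩⟩,.o ⟨false,0,⟨0,[(16,0)]⟩,⟨7,[(17,3),(1,
  0),(0,0),(4,3),(1,3),(11,1)]⟩⟩,.o ⟨false,0,⟨0,[(24,0)]⟩,⟨0,[(27,0),(10,0)]⟩⟩]⟩)))) (.Q [0,0,0,-1,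
  0,0,1,1,1,1,-1,-1] (.p false [0,0,1] [1,0,0,-1] (⟨0,[(28,0)]⟩,⟨0,[(27,0)]⟩) .k 2 (⟨1,[(18,0),(8,
  0),(0,0)]⟩,⟨0,[(19,0)]⟩) .k (.r 0 ⟨0,[(0,0),(25,0),(7,0)]⟩ ⟨3,[(5,0),(2,0),(5,0),(1,1),(6,0),(0,
  0)]⟩)) (.Q [0,0,0,0,0,-1,0,0,0,1,0,-1] (.p false [0,0,0,1] [1] (⟨0,[(20,0)]⟩,⟨1,[(19,0),(8,0),(0,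
  0)]⟩) .k 1 (⟨0,[]⟩,⟨0,[]⟩) .k .k) (.I [1,-1,0,1,0,0,0,0,1] (.I [1,1,-1,-1,0,0,0,1,1] (.R ⟨1,false,
  false,true,[1,0,0,-1],[0,-1,1],[0,0,0,0,0,0,0,0,-1],(⟨1,[(22,0),(8,0),(0,0)]⟩,⟨0,[(23,0)]⟩),(⟨0,
  [(8,0)]⟩,⟨0,[(31,0),(3,0)]⟩),⟨0,[(2,0)]⟩,.k,.k,(.x 0 ⟨2,[(10,0),(14,0),(2,1),(5,2)]⟩ ⟨3,[(20,0),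
  (0,0),(13,3),(3,1)]⟩),(.x (-1) ⟨3,[(7,1),(12,0),(0,0),(9,3),(1,0),(1,3),(3,0)]⟩ ⟨0,[(8,0),(19,
  0)]⟩),.k,.k,⟨false,1,⟨1,[(9,1),(10,0),(18,0)]⟩,⟨0,[(0,0)]⟩⟩,⟨true,0,⟨1,[(22,0),(5,1),(2,0),(0,
  0)]⟩,⟨2,[(10,0),(8,0),(3,2)]⟩⟩,⟨false,1,⟨3,[(20,0),(0,0),(18,1)]⟩,⟨0,[]⟩⟩,⟨false,0,⟨0,[(3,0)]⟩,⟨3,
  [(7,1),(1,3),(10,1),(2,3),(9,0),(5,0)]⟩⟩,⟨true,0,⟨0,[(38,0)]⟩,⟨0,[(37,0)]⟩⟩,⟨false,0,⟨0,[(3,0),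
  (34,0)]⟩,⟨1,[(11,1),(8,0),(2,1),(16,0)]⟩⟩,[.o ⟨false,0,⟨0,[(16,0)]⟩,⟨15,[(7,7),(1,11),(8,3),(1,2),
  (0,2),(11,3),(4,3),(1,1)]⟩⟩,.o ⟨false,1,⟨3,[(6,1),(13,0),(0,0),(4,1)]⟩,⟨0,[(11,0),(26,0)]⟩⟩,.a
  ⟨true,0,⟨0,[(23,0)]⟩,⟨1,[(22,0),(8,0),(0,0)]⟩⟩ ⟨false,1,⟨1,[(20,0),(19,0)]⟩,⟨1,[(1,0),(3,0),(17,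
  0)]⟩⟩ ⟨true,0,⟨1,[(16,1),(5,0),(8,0),(0,0)]⟩,⟨0,[(11,0),(11,0),(14,0)]⟩⟩,.o ⟨false,0,⟨2,[(10,0),
  (12,2),(1,0),(2,1)]⟩,⟨7,[(20,0),(0,0),(0,3),(10,1),(5,3)]⟩⟩]⟩) (.Q [0,1,0,0,0,0,0,0,-1,0,0,1] (.p
  true [0,0,0,1] [] (⟨0,[(23,0)]⟩,⟨1,[(22,0),(8,0),(0,0)]⟩) .k 0 (⟨0,[]⟩,⟨0,[]⟩) .k .k) (.Q [0,-1,0,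
  0,0,0,0,0,1,1,0,-1] (.p false [0,0,0,1] [1] (⟨0,[(24,0)]⟩,⟨1,[(23,0),(8,0),(0,0)]⟩) .k 1 (⟨0,[]⟩,
  ⟨0,[]⟩) .k .k) (.K ⟨1,[0,0,0,1],0,0,(⟨0,[(25,0)]⟩,⟨1,[(24,0),(8,0),(0,0)]⟩),.k,(.x 0 ⟨2,[(12,0),
  (14,0),(2,1),(5,2)]⟩ ⟨3,[(22,0),(0,0),(13,3),(3,1)]⟩),(.x (-1) ⟨3,[(22,0),(0,0),(13,3),(3,1)]⟩ ⟨2,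
  [(12,0),(14,0),(2,1),(5,2)]⟩),.k,.k,[⟨1,[(25,1),(4,0),(0,0)]⟩,⟨1,[(24,0),(2,0),(2,0)]⟩,⟨0,[(1,
  0)]⟩,⟨0,[(0,0)]⟩]⟩) (.R ⟨2,true,false,true,[0,1],[1,0,0,-1],[1,1,1],(⟨0,[]⟩,⟨0,[]⟩),(⟨1,[(24,0),
  (8,0),(0,0)]⟩,⟨0,[(25,0)]⟩),⟨0,[]⟩,.k,.k,.k,(.x (-1) ⟨3,[(22,0),(0,0),(13,3),(3,1)]⟩ ⟨2,[(12,0),
  (14,0),(2,1),(5,2)]⟩),.k,.k,⟨false,0,⟨1,[(3,0),(3,0),(17,0)]⟩,⟨1,[(22,0),(18,0)]⟩⟩,⟨true,0,⟨2,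
  [(12,0),(12,2),(1,0),(2,1)]⟩,⟨1,[(24,0),(8,0),(0,0)]⟩⟩,⟨true,0,⟨0,[(39,0)]⟩,⟨0,[(40,0)]⟩⟩,⟨false,
  1,⟨5,[(0,3),(7,1),(5,1),(7,0),(2,1),(1,1),(14,0)]⟩,⟨1,[(3,1),(20,0),(8,0),(0,0)]⟩⟩,⟨false,0,⟨0,
  []⟩,⟨3,[(22,0),(0,0),(18,1)]⟩⟩,⟨true,0,⟨0,[(0,0)]⟩,⟨3,[(3,1),(1,1),(18,0),(4,1),(3,0),(0,0)]⟩⟩,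
  []⟩)) (.Q [0,1,0,1,0,0,0,0,-1,0,0,1] (.p true [0,0,0,1] [] (⟨0,[(24,0)]⟩,⟨1,[(23,0),(8,0),(0,
  0)]⟩) .k 0 (⟨0,[]⟩,⟨0,[]⟩) .k .k) (.R ⟨1,false,false,false,[1,0,0,-1],[1,-1],[1],(⟨1,[(24,0),(8,
  0),(0,0)]⟩,⟨0,[(25,0)]⟩),(⟨0,[(36,0)]⟩,⟨0,[(37,0)]⟩),⟨0,[(4,0)]⟩,.k,.k,(.x 0 ⟨2,[(12,0),(14,0),(2,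
  1),(5,2)]⟩ ⟨3,[(22,0),(0,0),(13,3),(3,1)]⟩),(.x (-1) ⟨3,[(22,0),(0,0),(13,3),(3,1)]⟩ ⟨2,[(12,0),
  (14,0),(2,1),(5,2)]⟩),.k,.k,⟨false,0,⟨0,[(40,0)]⟩,⟨1,[(8,0),(20,0),(11,0)]⟩⟩,⟨true,0,⟨1,[(24,0),
  (2,0),(2,0)]⟩,⟨0,[(25,0)]⟩⟩,⟨false,0,⟨0,[(1,0),(23,0)]⟩,⟨3,[(22,2),(0,0)]⟩⟩,⟨true,0,⟨2,[(1,0),(4,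
  1),(8,0),(8,0)]⟩,⟨0,[(0,0)]⟩⟩,⟨false,0,⟨0,[(3,0)]⟩,⟨1,[(8,0),(13,0),(6,0)]⟩⟩,⟨false,0,⟨0,[(1,0)]⟩,
  ⟨3,[(22,2),(0,0),(1,3)]⟩⟩,[.o ⟨false,1,⟨15,[(8,3),(5,3),(7,0),(0,0),(3,3),(7,5),(3,3)]⟩,⟨0,[(40,
  0)]⟩⟩,.o ⟨false,1,⟨3,[(8,1),(4,1),(21,0),(6,0)]⟩,⟨0,[(40,0),(3,0)]⟩⟩,.a ⟨true,0,⟨0,[(25,0)]⟩,⟨1,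
  [(24,0),(8,0),(0,0)]⟩⟩ ⟨true,0,⟨0,[]⟩,⟨0,[(44,0)]⟩⟩ ⟨false,1,⟨15,[(8,5),(4,1),(0,3),(9,7),(2,3),
  (7,0),(6,4)]⟩,⟨1,[(0,0),(2,0),(21,0)]⟩⟩,.o ⟨false,0,⟨2,[(12,0),(12,2),(1,0),(2,1)]⟩,⟨7,[(22,0),(0,
  0),(0,3),(10,1),(5,3)]⟩⟩]⟩) (.I [1,-1,2,1,-1,0,0,0,1] (.R ⟨1,false,false,false,[1,0,0,-1],[0,1],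
  [0,0,0,0,0,0,0,0,-1],(⟨1,[(25,0),(8,0),(0,0)]⟩,⟨0,[(26,0)]⟩),(⟨0,[(38,0)]⟩,⟨0,[(37,0)]⟩),⟨0,[(5,
  0)]⟩,.k,.k,(.x 0 ⟨2,[(13,0),(14,0),(2,1),(5,2)]⟩ ⟨3,[(23,0),(0,0),(13,3),(3,1)]⟩),(.x 0 ⟨2,[(13,
  0),(14,0),(2,1),(5,2)]⟩ ⟨3,[(23,0),(0,0),(13,3),(3,1)]⟩),(.r (-2) ⟨9,[(3,3),(5,3),(0,5),(4,7),(3,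
  7),(3,2),(10,5),(0,5),(6,4)]⟩ ⟨0,[(0,0),(40,0),(3,0)]⟩),.k,⟨true,1,⟨7,[(1,0),(1,8),(5,0),(0,5),(4,
  2),(3,10),(6,0),(7,5),(0,5),(6,3)]⟩,⟨0,[(0,0),(44,0)]⟩⟩,⟨false,1,⟨1,[(25,0),(8,0),(0,0),(6,1)]⟩,
  ⟨2,[(13,0),(12,2),(1,0),(2,1)]⟩⟩,⟨false,1,⟨3,[(23,0),(0,0),(18,1)]⟩,⟨0,[]⟩⟩,⟨false,0,⟨1,[(4,1),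
  (20,0),(8,0),(0,0)]⟩,⟨5,[(9,1),(4,1),(1,1),(6,2),(2,5),(9,0)]⟩⟩,⟨true,0,⟨0,[(41,0)]⟩,⟨0,[(40,
  0)]⟩⟩,⟨false,0,⟨1,[(4,1),(20,0),(8,0),(0,0),(5,1)]⟩,⟨4,[(3,2),(5,2),(0,1),(4,0),(0,2),(2,0),(3,0),
  (2,4),(13,1)]⟩⟩,[.o ⟨false,0,⟨0,[(41,0)]⟩,⟨15,[(9,3),(5,3),(7,0),(0,0),(3,3),(7,5),(3,3)]⟩⟩,.o
  ⟨false,1,⟨3,[(23,0),(0,0),(16,3),(1,1)]⟩,⟨0,[(16,0)]⟩⟩,.a ⟨true,0,⟨0,[(26,0)]⟩,⟨1,[(25,0),(8,0),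
  (0,0)]⟩⟩ ⟨false,1,⟨1,[(23,0),(19,0)]⟩,⟨1,[(4,0),(3,0),(17,0)]⟩⟩ ⟨true,0,⟨1,[(25,0),(8,0),(0,0),(5,
  1)]⟩,⟨0,[(16,0),(9,0)]⟩⟩,.o ⟨false,0,⟨2,[(13,0),(12,2),(1,0),(2,1)]⟩,⟨7,[(23,0),(0,0),(0,3),(10,
  1),(5,3)]⟩⟩]⟩) (.Q [0,0,0,0,0,1,0,0,0,0,0,-1] (.p false [0,0,0,1] [] (⟨0,[(26,0)]⟩,⟨1,[(25,0),(8,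
  0),(0,0)]⟩) .k 0 (⟨0,[]⟩,⟨0,[]⟩) .k .k) (.R ⟨0,false,false,true,[0,0,0,1],[1,-1],[1,1,0,-1,0,0,0,
  0,1],(⟨0,[(27,0)]⟩,⟨1,[(26,0),(8,0),(0,0)]⟩),(⟨0,[(38,0)]⟩,⟨0,[(39,0)]⟩),⟨0,[(0,0)]⟩,.k,.k,(.x 0
  ⟨2,[(14,0),(14,0),(2,1),(5,2)]⟩ ⟨3,[(24,0),(0,0),(13,3),(3,1)]⟩),(.x (-1) ⟨3,[(24,0),(0,0),(13,3),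
  (3,1)]⟩ ⟨2,[(14,0),(14,0),(2,1),(5,2)]⟩),.k,.k,⟨false,0,⟨1,[(5,0),(3,0),(17,0)]⟩,⟨1,[(24,0),(18,
  0)]⟩⟩,⟨true,0,⟨2,[(14,0),(12,2),(1,0),(2,1)]⟩,⟨1,[(26,0),(8,0),(0,0)]⟩⟩,⟨true,0,⟨0,[(41,0)]⟩,⟨0,
  [(42,0)]⟩⟩,⟨false,1,⟨5,[(10,1),(4,1),(1,1),(6,2),(2,5),(9,0)]⟩,⟨1,[(5,1),(20,0),(8,0),(0,0)]⟩⟩,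
  ⟨false,0,⟨0,[]⟩,⟨0,[]⟩⟩,⟨false,0,⟨0,[]⟩,⟨0,[]⟩⟩,[.o ⟨false,0,⟨0,[(17,0)]⟩,⟨3,[(24,0),(0,0),(16,3),
  (1,1)]⟩⟩,.o ⟨false,1,⟨15,[(10,3),(5,3),(7,0),(0,0),(3,3),(7,5),(3,3)]⟩,⟨0,[(42,0)]⟩⟩,.a ⟨true,0,
  ⟨1,[(26,0),(8,0),(0,0)]⟩,⟨0,[(27,0)]⟩⟩ ⟨false,0,⟨0,[(8,0)]⟩,⟨1,[(24,0),(17,1),(1,0)]⟩⟩ ⟨true,0,⟨0,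
  [(17,0),(9,0)]⟩,⟨1,[(26,0),(8,0),(0,0),(5,1)]⟩⟩,.o ⟨false,0,⟨1,[(26,0),(2,0),(2,0)]⟩,⟨1,[(27,1),
  (9,0),(5,0)]⟩⟩]⟩) (.R ⟨1,false,false,true,[0,0,0,1],[1,-1],[1,1,0,-1,0,0,0,0,1],(⟨0,[(27,0)]⟩,⟨1,
  [(26,0),(8,0),(0,0)]⟩),(⟨0,[(38,0)]⟩,⟨0,[(39,0)]⟩),⟨0,[(0,0)]⟩,.k,.k,(.x 0 ⟨1,[(0,0),(5,0),(22,0),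
  (2,0)]⟩ ⟨3,[(24,0),(0,0),(13,3),(3,1)]⟩),(.x (-1) ⟨3,[(24,0),(0,0),(13,3),(3,1)]⟩ ⟨1,[(0,0),(5,0),
  (22,0),(2,0)]⟩),.k,.k,⟨false,0,⟨1,[(5,0),(3,0),(17,0)]⟩,⟨1,[(24,0),(18,0)]⟩⟩,⟨true,0,⟨2,[(14,0),
  (12,2),(1,0),(2,1)]⟩,⟨1,[(26,0),(8,0),(0,0)]⟩⟩,⟨true,0,⟨0,[(41,0)]⟩,⟨0,[(42,0)]⟩⟩,⟨false,1,⟨5,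
  [(10,1),(4,1),(1,1),(6,2),(2,5),(9,0)]⟩,⟨1,[(5,1),(20,0),(8,0),(0,0)]⟩⟩,⟨false,0,⟨0,[]⟩,⟨3,[(24,
  0),(0,0),(18,1)]⟩⟩,⟨false,1,⟨1,[(24,0),(2,1),(9,0)]⟩,⟨3,[(2,1),(2,1),(20,0),(8,2),(0,2)]⟩⟩,[.o
  ⟨false,0,⟨0,[(17,0)]⟩,⟨3,[(24,0),(0,0),(16,3),(1,1)]⟩⟩,.o ⟨false,1,⟨15,[(10,3),(5,3),(7,0),(0,0),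
  (3,3),(7,5),(3,3)]⟩,⟨0,[(42,0)]⟩⟩,.a ⟨true,0,⟨1,[(26,0),(8,0),(0,0)]⟩,⟨0,[(27,0)]⟩⟩ ⟨false,0,⟨0,
  [(8,0)]⟩,⟨1,[(24,0),(17,1),(1,0)]⟩⟩ ⟨true,0,⟨0,[(17,0),(9,0)]⟩,⟨1,[(26,0),(8,0),(0,0),(5,1)]⟩⟩,.o
  ⟨false,0,⟨1,[(26,0),(2,0),(2,0)]⟩,⟨1,[(27,1),(9,0),(5,0)]⟩⟩]⟩)))))) (.R ⟨1,false,false,false,[1,0,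
  0,-1],[1,-1],[0,1,0,0,0,0,0,0,-1],(⟨1,[(21,0),(8,0),(0,0)]⟩,⟨0,[(22,0)]⟩),(⟨0,[(33,0)]⟩,⟨0,[(34,
  0)]⟩),⟨0,[(1,0)]⟩,.k,.k,(.r (-1) ⟨1,[(0,1),(37,0),(0,0)]⟩ ⟨1,[(3,1),(23,0),(0,0),(8,3)]⟩),(.r 0
  ⟨0,[(0,0),(34,0),(1,1)]⟩ ⟨15,[(2,1),(0,3),(1,1),(0,1),(4,3),(8,4),(1,1),(13,1),(1,4)]⟩),.k,.k,
  ⟨false,0,⟨0,[(0,0),(36,1)]⟩,⟨1,[(3,1),(34,0),(0,0)]⟩⟩,⟨true,0,⟨1,[(21,0),(2,0),(2,0)]⟩,⟨0,[(22,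
  0)]⟩⟩,⟨true,0,⟨0,[(41,0)]⟩,⟨0,[]⟩⟩,⟨true,0,⟨0,[(2,0),(7,0)]⟩,⟨0,[(0,0),(21,0),(14,1)]⟩⟩,⟨false,0,
  ⟨0,[(37,0)]⟩,⟨2,[(5,0),(5,0),(16,0),(10,0)]⟩⟩,⟨true,0,⟨0,[(2,0),(7,0),(26,0)]⟩,⟨0,[(0,0),(21,0),
  (14,0)]⟩⟩,[.o ⟨false,1,⟨15,[(5,3),(5,3),(7,0),(0,0),(3,3),(7,5),(3,3)]⟩,⟨0,[(37,0)]⟩⟩,.o ⟨false,1,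
  ⟨3,[(5,1),(4,1),(21,0),(6,0)]⟩,⟨0,[(37,0),(3,0)]⟩⟩,.a ⟨true,0,⟨0,[(22,0)]⟩,⟨1,[(21,0),(8,0),(0,
  0)]⟩⟩ ⟨true,0,⟨0,[(0,0),(36,0)]⟩,⟨0,[(3,0),(33,0)]⟩⟩ ⟨false,1,⟨15,[(5,5),(4,1),(0,3),(9,7),(2,3),
  (7,0),(6,4)]⟩,⟨0,[(22,0),(14,0)]⟩⟩,.o ⟨false,0,⟨2,[(9,0),(12,2),(1,0),(2,1)]⟩,⟨7,[(19,0),(0,0),(0,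
  3),(10,1),(5,3)]⟩⟩]⟩)) (.I [1,1,-1,-1,0,0,0,1,1] (.R ⟨0,false,false,false,[0,0,0,1],[1,0,-1],[1,1,
  0,-1,0,0,0,0,1],(⟨0,[(22,0)]⟩,⟨1,[(21,0),(8,0),(0,0)]⟩),(⟨0,[(30,0)]⟩,⟨0,[(31,0)]⟩),⟨0,[(1,0),(19,
  0)]⟩,.k,.k,(.x 0 ⟨2,[(9,0),(14,0),(2,1),(5,2)]⟩ ⟨3,[(19,0),(0,0),(13,3),(3,1)]⟩),.k,.k,.k,⟨false,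
  0,⟨0,[(0,0)]⟩,⟨1,[(8,1),(10,0),(18,0)]⟩⟩,⟨true,0,⟨2,[(9,0),(8,0),(3,2)]⟩,⟨1,[(21,0),(5,1),(2,0),
  (0,0)]⟩⟩,⟨true,0,⟨0,[(36,0)]⟩,⟨0,[(37,0)]⟩⟩,⟨false,1,⟨1,[(10,1),(8,0),(2,1),(16,0)]⟩,⟨0,[(2,0),
  (34,0)]⟩⟩,⟨false,0,⟨0,[]⟩,⟨0,[]⟩⟩,⟨false,0,⟨0,[]⟩,⟨0,[]⟩⟩,[.o ⟨false,0,⟨0,[(10,0)]⟩,⟨3,[(19,0),(0,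
  0),(4,3),(13,1)]⟩⟩,.o ⟨false,1,⟨3,[(10,1),(15,1),(5,0),(6,2)]⟩,⟨0,[(25,0)]⟩⟩,.a ⟨true,0,⟨1,[(21,
  0),(8,0),(0,0)]⟩,⟨0,[(22,0)]⟩⟩ ⟨false,0,⟨0,[(3,0)]⟩,⟨1,[(19,0),(17,1),(1,0)]⟩⟩ ⟨true,0,⟨0,[(10,0),
  (11,0)]⟩,⟨1,[(21,0),(3,1),(4,0),(0,0)]⟩⟩,.o ⟨false,0,⟨1,[(21,0),(2,0),(2,0)]⟩,⟨1,[(22,1),(9,0),(5,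
  0)]⟩⟩]⟩) (.Q [0,1,0,1,0,0,0,0,-1,0,0,1] (.p true [0,0,0,1] [] (⟨0,[(22,0)]⟩,⟨1,[(21,0),(8,0),(0,
  0)]⟩) .k 0 (⟨0,[]⟩,⟨0,[]⟩) .k .k) (.R ⟨0,false,false,false,[1,0,0,-1],[1,-1],[0,1],(⟨1,[(22,0),(8,
  0),(0,0)]⟩,⟨0,[(23,0)]⟩),(⟨0,[(34,0)]⟩,⟨0,[(35,0)]⟩),⟨0,[(2,0)]⟩,.k,.k,(.x 0 ⟨2,[(10,0),(14,0),(2,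
  1),(5,2)]⟩ ⟨3,[(20,0),(0,0),(13,3),(3,1)]⟩),(.x (-1) ⟨3,[(20,0),(0,0),(13,3),(3,1)]⟩ ⟨2,[(10,0),
  (14,0),(2,1),(5,2)]⟩),.k,.k,⟨false,0,⟨0,[(38,0),(3,0)]⟩,⟨0,[(1,1),(1,0),(0,0),(2,0),(8,0),(6,0),
  (15,0)]⟩⟩,⟨true,0,⟨1,[(22,0),(2,0),(2,0)]⟩,⟨0,[(23,0)]⟩⟩,⟨false,0,⟨0,[(4,0),(33,0)]⟩,⟨1,[(20,0),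
  (19,0)]⟩⟩,⟨true,0,⟨0,[(3,0),(7,0)]⟩,⟨0,[(0,0)]⟩⟩,⟨false,0,⟨0,[]⟩,⟨0,[]⟩⟩,⟨false,0,⟨0,[]⟩,⟨0,[]⟩⟩,
  [.o ⟨false,1,⟨15,[(6,3),(5,3),(7,0),(0,0),(3,3),(7,5),(3,3)]⟩,⟨0,[(38,0)]⟩⟩,.o ⟨false,1,⟨3,[(6,1),
  (4,1),(21,0),(6,0)]⟩,⟨0,[(38,0),(3,0)]⟩⟩,.a ⟨true,0,⟨0,[(23,0)]⟩,⟨1,[(22,0),(8,0),(0,0)]⟩⟩ ⟨true,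
  0,⟨0,[(42,0)]⟩,⟨0,[]⟩⟩ ⟨false,1,⟨15,[(6,5),(4,1),(0,3),(9,7),(2,3),(7,0),(6,4)]⟩,⟨0,[(23,0),(14,
  0)]⟩⟩,.o ⟨false,0,⟨2,[(10,0),(12,2),(1,0),(2,1)]⟩,⟨7,[(20,0),(0,0),(0,3),(10,1),(5,3)]⟩⟩]⟩) (.R
  ⟨0,false,false,true,[0,0,0,1],[1,-1],[1,1,0,-1,0,0,0,0,1],(⟨0,[(23,0)]⟩,⟨1,[(22,0),(8,0),(0,0)]⟩),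
  (⟨0,[(34,0)]⟩,⟨0,[(35,0)]⟩),⟨0,[(2,0),(19,0)]⟩,.k,.k,(.x 0 ⟨2,[(10,0),(14,0),(2,1),(5,2)]⟩ ⟨3,
  [(20,0),(0,0),(13,3),(3,1)]⟩),(.x (-1) ⟨3,[(20,0),(0,0),(13,3),(3,1)]⟩ ⟨2,[(10,0),(14,0),(2,1),(5,
  2)]⟩),.k,.k,⟨false,0,⟨0,[(4,0),(33,0)]⟩,⟨1,[(20,0),(18,0)]⟩⟩,⟨true,0,⟨2,[(10,0),(12,2),(1,0),(2,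
  1)]⟩,⟨1,[(22,0),(8,0),(0,0)]⟩⟩,⟨true,0,⟨0,[(37,0)]⟩,⟨0,[(38,0)]⟩⟩,⟨false,1,⟨5,[(6,1),(4,1),(1,1),
  (6,2),(2,5),(9,0)]⟩,⟨0,[(0,0),(30,0),(0,0),(5,1)]⟩⟩,⟨false,0,⟨0,[]⟩,⟨0,[]⟩⟩,⟨false,0,⟨0,[]⟩,⟨0,
  []⟩⟩,[.o ⟨false,0,⟨0,[(13,0)]⟩,⟨3,[(20,0),(0,0),(16,3),(1,1)]⟩⟩,.o ⟨false,1,⟨15,[(6,3),(5,3),(7,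
  0),(0,0),(3,3),(7,5),(3,3)]⟩,⟨0,[(38,0)]⟩⟩,.a ⟨true,0,⟨1,[(22,0),(8,0),(0,0)]⟩,⟨0,[(23,0)]⟩⟩
  ⟨false,0,⟨0,[(4,0)]⟩,⟨1,[(20,0),(17,1),(1,0)]⟩⟩ ⟨true,0,⟨0,[(13,0),(9,0)]⟩,⟨1,[(22,0),(8,0),(0,0),
  (5,1)]⟩⟩,.o ⟨false,0,⟨1,[(22,0),(2,0),(2,0)]⟩,⟨1,[(23,1),(9,0),(5,0)]⟩⟩]⟩)))) (.Q [0,0,0,0,0,1,0,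
  0,0,0,0,-1] (.p false [0,0,0,1] [] (⟨0,[(20,0)]⟩,⟨1,[(19,0),(8,0),(0,0)]⟩) .k 0 (⟨0,[]⟩,⟨0,[]⟩)
  .k .k) (.R ⟨0,false,false,false,[0,0,0,1],[1,1,-1],[0,1,1],(⟨0,[(21,0)]⟩,⟨1,[(20,0),(8,0),(0,
  0)]⟩),(⟨0,[(29,0),(3,0)]⟩,⟨0,[(6,0)]⟩),⟨0,[(0,0)]⟩,.k,.k,(.r (-1) ⟨12,[(2,4),(1,1),(0,0),(4,1),(8,
  3),(9,0),(0,0),(4,1),(1,4)]⟩ ⟨1,[(1,1),(18,0),(5,1),(1,1),(0,0),(0,0)]⟩),(.r (-1) ⟨8,[(2,2),(1,1),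
  (0,0),(13,2),(8,6),(0,0),(0,0),(4,1),(1,3)]⟩ ⟨1,[(1,1),(18,0),(5,1),(2,0),(0,0)]⟩),.k,.k,⟨true,0,
  ⟨0,[(28,0),(6,0)]⟩,⟨0,[(7,0)]⟩⟩,⟨false,1,⟨3,[(5,1),(15,3),(9,0),(5,2)]⟩,⟨1,[(20,0),(5,1),(2,0),(0,
  0)]⟩⟩,⟨false,0,⟨1,[(1,1),(12,1),(5,0),(8,0),(0,0),(3,1)]⟩,⟨1,[(2,1),(33,1),(0,0),(0,0)]⟩⟩,⟨true,0,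
  ⟨0,[(1,0)]⟩,⟨1,[(2,1),(17,0),(3,1),(4,0),(0,0)]⟩⟩,⟨false,0,⟨0,[]⟩,⟨0,[]⟩⟩,⟨false,0,⟨0,[]⟩,⟨0,[]⟩⟩,
  [.o ⟨false,0,⟨0,[(9,0),(26,0)]⟩,⟨3,[(4,1),(13,0),(0,0),(4,1)]⟩⟩,.o ⟨false,1,⟨19,[(1,11),(3,3),(1,
  5),(8,1),(2,5),(0,5),(10,4),(4,1),(1,6)]⟩,⟨0,[(14,0)]⟩⟩,.a ⟨true,0,⟨1,[(20,0),(8,0),(0,0)]⟩,⟨0,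
  [(21,0)]⟩⟩ ⟨false,0,⟨1,[(26,0),(0,0)]⟩,⟨1,[(37,0),(0,0)]⟩⟩ ⟨true,0,⟨0,[(9,0),(11,0),(14,0)]⟩,⟨1,
  [(14,1),(5,0),(8,0),(0,0)]⟩⟩,.o ⟨false,0,⟨1,[(20,0),(2,0),(2,0)]⟩,⟨1,[(21,1),(9,0),(5,0)]⟩⟩]⟩)
  (.I [0,0,-1,-1,1,0,0,0,-1] (.R ⟨1,false,false,false,[0,0,0,1],[1,-1],[0,0,0,0,0,0,0,0,1],(⟨0,[(22,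
  0)]⟩,⟨1,[(21,0),(8,0),(0,0)]⟩),(⟨0,[(33,0)]⟩,⟨0,[(34,0)]⟩),⟨0,[(1,0)]⟩,.k,.k,(.r (-1) ⟨2,[(0,0),
  (2,1),(16,0),(17,0)]⟩ ⟨1,[(2,1),(18,0),(5,1),(1,1),(0,0),(0,0)]⟩),(.r 0 ⟨1,[(3,1),(23,0),(0,0),(8,
  3)]⟩ ⟨0,[(0,0)]⟩),.k,.k,⟨false,0,⟨0,[(3,0),(33,1)]⟩,⟨0,[(0,0)]⟩⟩,⟨true,0,⟨2,[(9,0),(12,2),(1,0),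
  (2,1)]⟩,⟨1,[(21,0),(8,0),(0,0)]⟩⟩,⟨false,1,⟨3,[(19,0),(0,0),(18,1)]⟩,⟨0,[]⟩⟩,⟨false,1,⟨0,[(2,0),
  (2,0)]⟩,⟨1,[(3,1),(17,0),(8,0),(0,0),(5,3)]⟩⟩,⟨true,0,⟨0,[(37,0)]⟩,⟨0,[(36,0)]⟩⟩,⟨false,1,⟨1,[(2,
  1),(2,0),(19,0),(13,0)]⟩,⟨1,[(3,1),(17,0),(8,0),(0,0),(5,1)]⟩⟩,[.o ⟨false,1,⟨15,[(5,3),(5,3),(7,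
  0),(0,0),(3,3),(7,5),(3,3)]⟩,⟨0,[(37,0)]⟩⟩,.o ⟨false,1,⟨3,[(5,1),(4,1),(21,0),(6,0)]⟩,⟨0,[(37,0),
  (3,0)]⟩⟩,.a ⟨true,0,⟨1,[(21,0),(8,0),(0,0)]⟩,⟨0,[(22,0)]⟩⟩ ⟨true,0,⟨0,[(3,0),(33,0)]⟩,⟨1,[(2,1),
  (12,1),(5,0),(8,0),(0,0)]⟩⟩ ⟨false,1,⟨3,[(5,1),(4,1),(11,3),(9,0),(6,0)]⟩,⟨1,[(21,0),(8,0),(0,0),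
  (5,1)]⟩⟩,.o ⟨false,0,⟨1,[(21,0),(2,0),(2,0)]⟩,⟨1,[(22,1),(9,0),(5,0)]⟩⟩]⟩) (.R ⟨1,true,false,
  false,[0,0,1],[0,1],[1,0,0,-1,0,0,0,1],(⟨0,[(31,0)]⟩,⟨0,[(30,0)]⟩),(⟨0,[(34,0)]⟩,⟨0,[(33,0)]⟩),⟨0,
  [(7,0)]⟩,.k,.k,.k,.k,(.r (-2) ⟨2,[(5,1),(22,1),(0,0),(6,1),(1,3)]⟩ ⟨1,[(0,1),(1,1),(18,0),(5,1),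
  (2,0),(0,0)]⟩),.k,⟨true,1,⟨2,[(5,1),(0,0),(22,0),(0,0),(0,0),(4,1),(1,0)]⟩,⟨1,[(0,1),(1,1),(18,0),
  (5,1),(2,0),(0,0)]⟩⟩,⟨false,1,⟨2,[(6,0),(21,0),(1,0),(0,0),(6,2)]⟩,⟨0,[(27,0)]⟩⟩,⟨false,1,⟨2,[(5,
  0),(5,0),(16,0),(10,0)]⟩,⟨0,[(37,0)]⟩⟩,⟨true,0,⟨9,[(0,1),(1,1),(3,1),(1,3),(12,0),(4,3),(3,2),(0,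
  2),(5,1),(0,1)]⟩,⟨0,[(15,0)]⟩⟩,⟨true,0,⟨0,[]⟩,⟨0,[(41,0)]⟩⟩,⟨false,0,⟨1,[(0,1),(1,1),(18,0),(8,0),
  (0,0),(6,0),(0,0)]⟩,⟨5,[(5,3),(9,1),(3,0),(0,0),(15,1)]⟩⟩,[]⟩)))))))))

theorem ok5 : chk (cU (-1) false 2) t5 l9 = true := by decide +kernel

noncomputable def t41 : Tre :=
  (.R ⟨2,false,false,false,[0,1],[1,1,-1],[0,1,1,1],(⟨0,[]⟩,⟨0,[]⟩),(⟨0,[(26,0),(3,0)]⟩,⟨0,[(6,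
  0)]⟩),⟨0,[]⟩,.k,.k,.k,.k,.k,.k,⟨false,0,⟨0,[(0,0)]⟩,⟨1,[(7,0),(5,0),(9,0),(11,0)]⟩⟩,⟨true,0,⟨0,
  [(12,0)]⟩,⟨0,[(23,0),(2,0),(0,0)]⟩⟩,⟨true,0,⟨0,[(37,0)]⟩,⟨0,[]⟩⟩,⟨false,1,⟨1,[(7,1),(20,0),(6,
  0)]⟩,⟨1,[(1,1),(15,0),(8,0),(0,0),(5,1)]⟩⟩,⟨false,0,⟨0,[(33,0)]⟩,⟨2,[(3,0),(6,0),(13,0),(10,1)]⟩⟩,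
  ⟨false,1,⟨1,[(7,1),(20,0),(4,1),(1,0)]⟩,⟨1,[(1,1),(15,0),(8,0),(0,0)]⟩⟩,[.a ⟨true,0,⟨0,[(7,0),(25,
  0)]⟩,⟨1,[(1,1),(15,0),(8,0),(0,0)]⟩⟩ ⟨false,0,⟨0,[(33,0),(3,0)]⟩,⟨1,[(2,0),(7,0),(20,0)]⟩⟩ ⟨true,
  0,⟨0,[(19,0),(11,0),(1,0)]⟩,⟨1,[(1,1),(15,0),(8,0),(0,0)]⟩⟩,.o ⟨false,1,⟨1,[(7,1),(20,0),(4,1),(1,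
  0)]⟩,⟨0,[(11,0)]⟩⟩,.o ⟨false,1,⟨3,[(15,0),(0,0),(17,1)]⟩,⟨0,[(12,0),(10,0)]⟩⟩,.e ⟨false,0,⟨0,[(33,
  0)]⟩,⟨2,[(3,0),(6,0),(13,0),(10,1)]⟩⟩ ⟨false,1,⟨1,[(7,1),(20,0),(4,1),(1,0)]⟩,⟨1,[(1,1),(15,0),(8,
  0),(0,0)]⟩⟩]⟩)

theorem ok41 : chk (cU (-1) false 2) t41 l30 = true := by decide +kernel

noncomputable def t43 : Tre :=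
  (.I [0,-1,-1,0,1,0,0,0,1] (.Q [0,0,0,0,0,-1,0,0,0,0,0,1] (.p true [0,0,0,1] [] (⟨0,[(21,0)]⟩,⟨1,
  [(20,0),(8,0),(0,0)]⟩) .k 0 (⟨0,[]⟩,⟨0,[]⟩) .k .k) (.R ⟨1,false,false,false,[0,0,0,1],[0,1],[0,0,
  0,0,0,0,0,0,1],(⟨0,[(22,0)]⟩,⟨1,[(21,0),(8,0),(0,0)]⟩),(⟨0,[(34,0)]⟩,⟨0,[(33,0)]⟩),⟨0,[(0,0)]⟩,.k,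
  .k,(.r (-1) ⟨0,[(1,0),(34,0)]⟩ ⟨3,[(2,0),(0,0),(15,0),(5,0),(2,0),(8,1)]⟩),(.r (-1) ⟨0,[(1,0),(34,
  0)]⟩ ⟨3,[(2,0),(0,0),(15,0),(5,0),(2,0),(8,1)]⟩),(.r (-2) ⟨11,[(12,7),(1,7),(4,0),(0,6)]⟩ ⟨0,[(2,
  0),(34,0),(3,0)]⟩),.k,⟨true,1,⟨0,[(1,0),(34,0)]⟩,⟨0,[(2,0),(38,0)]⟩⟩,⟨false,1,⟨0,[(22,0),(15,0)]⟩,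
  ⟨1,[(21,0),(2,0),(2,0)]⟩⟩,⟨false,1,⟨3,[(19,0),(0,0),(18,1)]⟩,⟨0,[]⟩⟩,⟨false,0,⟨0,[(2,0),(19,0),
  (15,0)]⟩,⟨11,[(7,3),(1,1),(4,1),(5,5),(0,5),(2,1),(7,0),(6,2)]⟩⟩,⟨true,0,⟨0,[(37,0)]⟩,⟨0,[(36,
  0)]⟩⟩,⟨false,0,⟨0,[(2,0),(19,0),(14,0),(0,0)]⟩,⟨5,[(4,2),(2,2),(1,1),(2,1),(7,2),(0,2),(2,0),(14,
  0)]⟩⟩,[.o ⟨false,0,⟨0,[(37,0)]⟩,⟨11,[(7,3),(6,3),(4,0),(0,0),(3,3),(7,3),(6,1)]⟩⟩,.e ⟨false,1,⟨0,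
  [(1,0)]⟩,⟨0,[(2,0),(33,0),(1,0),(2,0)]⟩⟩ ⟨false,1,⟨1,[(22,1),(14,1),(0,0),(0,0)]⟩,⟨3,[(7,0),(1,1),
  (11,1),(3,0)]⟩⟩,.a ⟨true,0,⟨1,[(21,0),(8,0),(0,0)]⟩,⟨0,[(22,0)]⟩⟩ ⟨false,1,⟨1,[(20,0),(18,0)]⟩,⟨0,
  [(2,0),(33,0),(1,0)]⟩⟩ ⟨true,0,⟨0,[(22,0),(14,0)]⟩,⟨3,[(7,0),(1,1),(11,1),(3,0)]⟩⟩,.o ⟨false,0,⟨1,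
  [(21,0),(2,0),(2,0)]⟩,⟨1,[(22,1),(9,0),(5,0)]⟩⟩]⟩) (.R ⟨0,false,false,false,[0,0,0,1],[0,1],[0,1,
  0,-1,0,0,0,0,1],(⟨0,[(22,0)]⟩,⟨1,[(21,0),(8,0),(0,0)]⟩),(⟨0,[(34,0)]⟩,⟨0,[(33,0)]⟩),⟨0,[(0,0)]⟩,
  .k,.k,(.r (-1) ⟨0,[(1,0),(34,0)]⟩ ⟨3,[(2,0),(0,0),(15,0),(5,0),(2,0),(8,1)]⟩),(.r (-1) ⟨0,[(1,0),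
  (34,0)]⟩ ⟨3,[(2,0),(0,0),(15,0),(5,0),(2,0),(8,1)]⟩),.k,.k,⟨true,1,⟨0,[(1,0),(34,1)]⟩,⟨0,[(2,0),
  (34,0)]⟩⟩,⟨false,1,⟨0,[(22,0),(15,0)]⟩,⟨1,[(21,0),(2,0),(2,0)]⟩⟩,⟨true,0,⟨0,[(36,0)]⟩,⟨0,[(37,
  0)]⟩⟩,⟨false,0,⟨0,[(2,0),(19,0),(15,0)]⟩,⟨11,[(7,3),(1,1),(4,1),(5,5),(0,5),(2,1),(7,0),(6,2)]⟩⟩,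
  ⟨false,0,⟨0,[]⟩,⟨0,[]⟩⟩,⟨false,0,⟨0,[]⟩,⟨0,[]⟩⟩,[.o ⟨false,0,⟨0,[(37,0)]⟩,⟨11,[(7,3),(6,3),(4,0),
  (0,0),(3,3),(7,3),(6,1)]⟩⟩,.e ⟨false,1,⟨0,[(1,0),(34,0)]⟩,⟨0,[(2,0),(35,0),(2,0)]⟩⟩ ⟨false,1,⟨1,
  [(22,1),(14,1),(0,0),(0,0)]⟩,⟨3,[(7,0),(1,1),(11,1),(3,0)]⟩⟩,.a ⟨true,0,⟨1,[(21,0),(8,0),(0,0)]⟩,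
  ⟨0,[(22,0)]⟩⟩ ⟨false,1,⟨5,[(7,1),(6,1),(5,2),(7,1),(10,0)]⟩,⟨0,[(2,0),(35,0)]⟩⟩ ⟨true,0,⟨0,[(22,
  0),(14,0)]⟩,⟨3,[(7,0),(1,1),(11,1),(3,0)]⟩⟩,.o ⟨false,0,⟨1,[(21,0),(2,0),(2,0)]⟩,⟨1,[(22,1),(9,0),
  (5,0)]⟩⟩]⟩)) (.Q [0,0,0,0,0,-1,0,0,0,0,0,1] (.p true [0,0,0,1] [] (⟨0,[(21,0)]⟩,⟨1,[(20,0),(8,0),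
  (0,0)]⟩) .k 0 (⟨0,[]⟩,⟨0,[]⟩) .k .k) (.R ⟨1,false,false,false,[0,0,0,1],[0,1],[0,1,0,0,0,0,0,0,1],
  (⟨0,[(22,0)]⟩,⟨1,[(21,0),(8,0),(0,0)]⟩),(⟨0,[(34,0)]⟩,⟨0,[(33,0)]⟩),⟨0,[(0,0)]⟩,.k,.k,(.x 0 ⟨1,
  [(10,0),(2,0),(10,0),(2,0)]⟩ ⟨3,[(19,0),(0,0),(13,3),(3,1)]⟩),(.x 0 ⟨1,[(10,0),(2,0),(10,0),(2,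
  0)]⟩ ⟨3,[(19,0),(0,0),(13,3),(3,1)]⟩),(.r (-2) ⟨11,[(12,7),(1,7),(4,0),(0,6)]⟩ ⟨7,[(1,3),(0,4),(0,
  0),(16,0),(4,0),(2,0),(8,9)]⟩),.k,⟨true,1,⟨1,[(20,0),(15,1),(1,0)]⟩,⟨0,[(2,0)]⟩⟩,⟨false,1,⟨0,[(22,
  0),(15,0)]⟩,⟨1,[(21,0),(2,0),(2,0)]⟩⟩,⟨true,0,⟨0,[(41,0)]⟩,⟨0,[]⟩⟩,⟨false,0,⟨0,[(2,0),(19,0),(15,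
  0)]⟩,⟨11,[(7,3),(1,1),(4,1),(5,5),(0,5),(2,1),(7,0),(6,2)]⟩⟩,⟨false,0,⟨0,[(37,0)]⟩,⟨2,[(7,0),(6,
  0),(13,0),(10,1)]⟩⟩,⟨false,0,⟨0,[(2,0),(19,0),(14,0),(0,0)]⟩,⟨5,[(4,2),(2,2),(1,1),(2,1),(7,2),(0,
  2),(2,0),(14,0)]⟩⟩,[.o ⟨false,0,⟨0,[(37,0)]⟩,⟨11,[(7,3),(6,3),(4,0),(0,0),(3,3),(7,3),(6,1)]⟩⟩,.e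
  ⟨false,1,⟨1,[(20,0),(17,0)]⟩,⟨6,[(1,2),(0,1),(3,0),(7,0),(4,0),(18,1)]⟩⟩ ⟨false,1,⟨1,[(22,1),(14,
  1),(0,0),(0,0)]⟩,⟨3,[(7,0),(1,1),(11,1),(3,0)]⟩⟩,.a ⟨true,0,⟨1,[(21,0),(8,0),(0,0)]⟩,⟨0,[(22,
  0)]⟩⟩ ⟨false,1,⟨3,[(19,0),(0,2)]⟩,⟨1,[(1,0),(0,0),(1,0),(1,0),(31,0)]⟩⟩ ⟨true,0,⟨0,[(22,0),(14,
  0)]⟩,⟨3,[(7,0),(1,1),(11,1),(3,0)]⟩⟩,.o ⟨false,0,⟨1,[(21,0),(2,0),(2,0)]⟩,⟨1,[(22,1),(9,0),(5,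
  0)]⟩⟩]⟩) (.R ⟨0,false,false,true,[0,0,0,1],[1,0,-1],[1,1,1],(⟨0,[(22,0)]⟩,⟨1,[(21,0),(8,0),(0,
  0)]⟩),(⟨0,[(30,0)]⟩,⟨0,[(31,0)]⟩),⟨0,[(0,0)]⟩,.k,.k,(.x 0 ⟨1,[(10,0),(2,0),(10,0),(2,0)]⟩ ⟨3,[(19,
  0),(0,0),(13,3),(3,1)]⟩),.k,.k,.k,⟨false,0,⟨0,[(29,0)]⟩,⟨0,[(17,0)]⟩⟩,⟨true,0,⟨0,[(16,0),(5,0)]⟩,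
  ⟨1,[(21,0),(5,1),(2,0),(0,0)]⟩⟩,⟨true,(-1),⟨0,[(1,0)]⟩,⟨1,[(20,0),(17,0)]⟩⟩,⟨false,0,⟨0,[(2,0),(6,
  0),(12,0),(15,0)]⟩,⟨1,[(5,1),(14,0),(0,1),(15,1),(1,0)]⟩⟩,⟨false,0,⟨0,[]⟩,⟨0,[]⟩⟩,⟨false,0,⟨0,[]⟩,
  ⟨0,[]⟩⟩,[.o ⟨false,0,⟨0,[(23,0)]⟩,⟨0,[(25,0),(13,0)]⟩⟩,.e ⟨false,0,⟨0,[]⟩,⟨3,[(19,0),(0,0),(17,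
  1)]⟩⟩ ⟨false,1,⟨0,[(16,0),(0,0),(4,0)]⟩,⟨0,[(5,0),(15,0),(15,0)]⟩⟩,.a ⟨true,0,⟨1,[(21,0),(8,0),(0,
  0)]⟩,⟨0,[(22,0)]⟩⟩ ⟨false,0,⟨1,[(27,0),(0,0)]⟩,⟨1,[(38,0),(0,0)]⟩⟩ ⟨true,0,⟨0,[(22,0),(0,0)]⟩,⟨0,
  [(5,0),(15,0),(15,0)]⟩⟩,.o ⟨false,0,⟨1,[(21,0),(2,0),(2,0)]⟩,⟨1,[(22,1),(9,0),(5,0)]⟩⟩]⟩)))

theorem ok43 : chk (cU (-1) false 2) t43 l32 = true := by decide +kernel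

noncomputable def t45 : Tre :=
  (.I [0,1,1,2,-1,0,0,1] (.R ⟨1,false,false,true,[1,-1],[0,0,1],[1,0,-1,-2],(⟨0,[(33,0)]⟩,⟨0,[(34,
  0)]⟩),(⟨0,[(31,0)]⟩,⟨0,[(30,0)]⟩),⟨0,[(10,0),(2,0)]⟩,.k,.k,(.r (-2) ⟨2,[(12,1),(1,1),(4,0),(0,
  0)]⟩ ⟨0,[(0,0),(3,0)]⟩),.k,(.r (-2) ⟨5,[(12,1),(1,7),(4,0),(0,0)]⟩ ⟨0,[(0,1),(3,1),(0,1),(0,0),(2,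
  0),(1,0),(9,0),(15,1)]⟩),.k,⟨false,2,⟨3,[(4,0),(1,0),(5,0),(1,4),(24,0)]⟩,⟨0,[(0,0)]⟩⟩,⟨true,1,⟨0,
  [(27,0),(2,0),(0,0),(6,0)]⟩,⟨0,[(0,0),(3,1),(3,0),(0,0)]⟩⟩,⟨false,1,⟨2,[(7,0),(6,0),(13,0),(10,
  1)]⟩,⟨0,[(37,0)]⟩⟩,⟨false,0,⟨1,[(5,1),(15,0),(8,0),(0,0),(5,3)]⟩,⟨0,[(9,0),(29,0)]⟩⟩,⟨true,0,⟨0,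
  []⟩,⟨0,[(41,0)]⟩⟩,⟨false,0,⟨1,[(5,1),(15,0),(8,0),(0,0),(5,5)]⟩,⟨2,[(4,2),(4,1),(2,1),(11,0),(14,
  0)]⟩⟩,[.o ⟨false,0,⟨0,[(25,0)]⟩,⟨1,[(11,1),(20,0),(6,0)]⟩⟩,.a ⟨true,0,⟨1,[(5,1),(15,0),(8,0),(0,
  0),(5,1)]⟩,⟨0,[(11,0)]⟩⟩ ⟨true,1,⟨0,[(4,0),(7,0)]⟩,⟨1,[(0,1),(3,0),(21,0),(0,0)]⟩⟩ ⟨false,1,⟨1,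
  [(5,1),(15,0),(8,0),(0,0),(5,1),(0,1)]⟩,⟨1,[(4,0),(18,0),(0,0)]⟩⟩,.o ⟨false,0,⟨0,[(16,0),(10,0)]⟩,
  ⟨3,[(19,0),(0,0),(17,1)]⟩⟩,.o ⟨false,0,⟨0,[(24,0),(2,0)]⟩,⟨0,[(38,0)]⟩⟩]⟩) (.I [0,1,1,1,-1,0,0,1,
  -1] (.I [1,-1,1,0,0,0,0,0,1] (.Q [0,0,0,0,0,-1,0,0,0,0,0,1] (.p true [0,0,0,1] [] (⟨0,[(24,0)]⟩,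
  ⟨1,[(23,0),(8,0),(0,0)]⟩) .k 0 (⟨0,[]⟩,⟨0,[]⟩) .k .k) (.R ⟨1,false,false,true,[0,0,0,1],[0,0,1],
  [1,0,0,-1,0,0,0,0,1],(⟨0,[(25,0)]⟩,⟨1,[(24,0),(8,0),(0,0)]⟩),(⟨0,[(34,0)]⟩,⟨0,[(33,0)]⟩),⟨0,[(0,
  0)]⟩,.k,.k,(.r (-1) ⟨4,[(3,0),(1,0),(9,0),(7,1)]⟩ ⟨2,[(4,0),(1,0),(15,0)]⟩),.k,(.r (-1) ⟨0,[(5,0),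
  (1,0)]⟩ ⟨19,[(4,11),(6,3),(10,10),(0,0)]⟩),.k,⟨true,1,⟨1,[(3,0),(3,0),(15,0)]⟩,⟨0,[(2,0)]⟩⟩,
  ⟨false,1,⟨0,[(8,0),(11,0),(19,0)]⟩,⟨1,[(21,0),(2,0)]⟩⟩,⟨false,1,⟨7,[(3,1),(6,1),(11,0),(0,0),(7,
  1),(10,3)]⟩,⟨0,[(40,0)]⟩⟩,⟨false,0,⟨0,[(2,0),(4,0),(0,0),(32,0)]⟩,⟨3,[(7,1),(6,1),(4,1),(3,1),(0,
  1),(16,0),(0,0)]⟩⟩,⟨true,0,⟨0,[]⟩,⟨0,[(44,0)]⟩⟩,⟨false,0,⟨0,[(2,0),(4,0),(0,0),(31,0),(0,0)]⟩,⟨1,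
  [(3,0),(3,0),(13,0),(1,0),(0,0)]⟩⟩,[.o ⟨false,0,⟨0,[(28,0)]⟩,⟨1,[(14,1),(20,0),(6,0)]⟩⟩,.a ⟨true,
  0,⟨1,[(8,1),(15,0),(8,0),(0,0),(5,1)]⟩,⟨0,[(14,0)]⟩⟩ ⟨false,1,⟨3,[(1,2),(1,0),(1,0),(3,0),(31,
  0)]⟩,⟨0,[(2,0),(17,0)]⟩⟩ ⟨true,0,⟨0,[(8,0),(31,0)]⟩,⟨1,[(7,0),(16,0),(2,0),(1,0)]⟩⟩,.e ⟨false,1,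
  ⟨19,[(1,5),(1,4),(6,2),(4,1),(7,6),(7,2),(10,5)]⟩,⟨0,[(2,0),(4,0),(33,0)]⟩⟩ ⟨false,0,⟨0,[(8,0),
  (31,0)]⟩,⟨3,[(14,1),(9,1),(4,1),(5,0),(6,2)]⟩⟩,.o ⟨false,0,⟨1,[(24,0),(2,0),(2,0)]⟩,⟨1,[(25,1),(9,
  0),(5,0)]⟩⟩]⟩) (.I [0,1,-1,0,0,0,0,1,-1] (.R ⟨1,false,false,false,[1,0,0,-1],[1,0,-1],[0,1,0,0,0,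
  0,0,0,-1],(⟨1,[(25,0),(8,0),(0,0)]⟩,⟨0,[(26,0)]⟩),(⟨0,[(34,0)]⟩,⟨0,[(35,0)]⟩),⟨1,[(14,0),(2,0),(7,
  0)]⟩,.k,.k,(.r (-1) ⟨4,[(0,0),(3,0),(11,0),(1,0),(4,1)]⟩ ⟨2,[(2,1),(2,0),(0,0),(23,0),(0,0),(9,
  1)]⟩),.k,(.x 0 ⟨0,[(14,0),(16,0)]⟩ ⟨7,[(22,3),(0,0),(0,0),(9,7),(1,1),(1,7),(3,3)]⟩),.k,⟨false,0,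
  ⟨0,[(0,0)]⟩,⟨1,[(8,1),(15,0),(17,0)]⟩⟩,⟨true,0,⟨1,[(22,0),(2,0)]⟩,⟨0,[(26,0),(4,0)]⟩⟩,⟨true,0,⟨0,
  [(45,0)]⟩,⟨0,[]⟩⟩,⟨false,1,⟨3,[(8,1),(6,1),(4,1),(3,1),(0,1),(16,0),(0,0)]⟩,⟨0,[(0,0),(7,0),(0,0),
  (31,0)]⟩⟩,⟨false,0,⟨0,[(41,0)]⟩,⟨7,[(4,1),(6,1),(11,0),(0,0),(7,1),(10,3)]⟩⟩,⟨false,1,⟨3,[(8,1),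
  (6,1),(4,1),(3,1),(0,1),(15,3),(0,0),(0,0)]⟩,⟨0,[(0,0),(7,0),(0,0)]⟩⟩,[.a ⟨true,0,⟨0,[(15,0)]⟩,⟨1,
  [(9,1),(15,0),(8,0),(0,0),(5,1)]⟩⟩ ⟨true,0,⟨1,[(0,0),(6,0),(32,0)]⟩,⟨0,[(2,0)]⟩⟩ ⟨false,1,⟨1,[(21,
  1),(0,0),(2,0)]⟩,⟨0,[(9,0),(31,0)]⟩⟩,.o ⟨false,1,⟨1,[(15,1),(20,0),(6,0)]⟩,⟨0,[(29,0)]⟩⟩,.e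
  ⟨false,0,⟨0,[(0,0),(7,0)]⟩,⟨1,[(24,0),(18,0)]⟩⟩ ⟨false,1,⟨3,[(15,1),(9,1),(4,1),(5,0),(6,2)]⟩,⟨0,
  [(9,0),(31,0)]⟩⟩,.o ⟨false,0,⟨2,[(5,0),(2,0),(0,0),(3,0),(12,1),(9,0)]⟩,⟨7,[(23,0),(0,0),(0,3),
  (10,1),(5,3)]⟩⟩]⟩) (.R ⟨0,false,false,true,[0,0,0,1],[0,1],[0,1,0,0,0,0,0,0,1],(⟨0,[(26,0)]⟩,⟨1,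
  [(25,0),(8,0),(0,0)]⟩),(⟨0,[(38,0)]⟩,⟨0,[(37,0)]⟩),⟨0,[(1,0)]⟩,.k,.k,(.r (-1) ⟨4,[(4,0),(1,0),(9,
  0),(7,1)]⟩ ⟨2,[(5,0),(1,0),(15,0)]⟩),(.r (-1) ⟨4,[(4,0),(1,0),(9,0),(7,1)]⟩ ⟨2,[(5,0),(1,0),(15,
  0)]⟩),.k,.k,⟨true,1,⟨4,[(4,0),(1,0),(9,0),(7,1)]⟩,⟨0,[(3,0),(4,0)]⟩⟩,⟨false,1,⟨0,[(26,0),(15,0)]⟩,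
  ⟨1,[(25,0),(2,0),(2,0)]⟩⟩,⟨true,0,⟨0,[(45,0)]⟩,⟨0,[]⟩⟩,⟨false,0,⟨0,[(3,0),(4,0),(17,0),(15,0)]⟩,
  ⟨31,[(2,17),(1,7),(6,1),(4,5),(7,6),(0,15),(2,1),(7,6),(6,3)]⟩⟩,⟨false,0,⟨0,[]⟩,⟨0,[]⟩⟩,⟨false,0,
  ⟨0,[]⟩,⟨0,[]⟩⟩,[.o ⟨false,0,⟨0,[(41,0),(3,0)]⟩,⟨8,[(4,2),(6,0),(0,0),(15,0),(7,3),(2,2),(3,1)]⟩⟩,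
  .o ⟨false,0,⟨0,[(41,0)]⟩,⟨15,[(4,3),(6,3),(11,2),(0,2),(3,3),(7,5)]⟩⟩,.a ⟨true,0,⟨1,[(25,0),(8,0),
  (0,0)]⟩,⟨0,[(26,0)]⟩⟩ ⟨true,0,⟨0,[(0,0),(2,0),(2,0)]⟩,⟨1,[(3,1),(0,0),(3,0),(33,0)]⟩⟩ ⟨false,0,⟨0,
  [(26,0),(14,0)]⟩,⟨15,[(4,3),(6,3),(11,0),(0,0),(0,7),(2,3),(7,1),(6,7)]⟩⟩,.o ⟨false,0,⟨1,[(25,0),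
  (2,0),(2,0)]⟩,⟨1,[(26,1),(9,0),(5,0)]⟩⟩]⟩))) (.R ⟨1,false,false,true,[1,0,0,-1],[1,-1],[1,0,0,-1,
  0,0,0,0,-1],(⟨1,[(23,0),(8,0),(0,0)]⟩,⟨0,[(24,0)]⟩),(⟨0,[(35,0)]⟩,⟨0,[(36,0)]⟩),⟨1,[(12,0),(2,0),
  (7,0)]⟩,.k,.k,(.r (-1) ⟨6,[(0,0),(1,0),(11,1),(1,0),(4,2)]⟩ ⟨0,[(3,0),(0,0),(1,0)]⟩),(.r 0 ⟨2,[(3,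
  0),(1,0),(15,0)]⟩ ⟨4,[(2,0),(1,0),(9,0),(7,1)]⟩),.k,.k,⟨false,0,⟨0,[(0,0),(5,1),(3,0),(28,0)]⟩,
  ⟨11,[(3,3),(0,7),(14,3),(1,0),(0,2),(20,3)]⟩⟩,⟨true,0,⟨1,[(23,0),(2,0),(2,0)]⟩,⟨0,[(24,0)]⟩⟩,
  ⟨false,1,⟨7,[(2,1),(6,1),(11,0),(0,0),(7,1),(10,3)]⟩,⟨0,[(39,0)]⟩⟩,⟨false,1,⟨15,[(2,3),(6,3),(11,
  0),(0,8),(0,7),(2,3),(7,1)]⟩,⟨0,[(0,0),(5,1),(3,0),(13,0),(14,1)]⟩⟩,⟨true,0,⟨0,[]⟩,⟨0,[(43,0)]⟩⟩,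
  ⟨false,1,⟨7,[(21,0),(0,4),(0,3),(10,1)]⟩,⟨0,[(0,0),(5,1),(3,0),(13,0),(14,0)]⟩⟩,[.e ⟨true,0,⟨0,
  [(1,0),(0,0)]⟩,⟨0,[(3,0),(0,0),(1,0)]⟩⟩ ⟨true,0,⟨3,[(9,0),(1,1),(11,1),(3,0)]⟩,⟨2,[(3,0),(2,0),
  (17,2),(14,0),(1,0)]⟩⟩,.o ⟨false,1,⟨15,[(2,3),(6,3),(11,2),(0,2),(3,3),(7,5)]⟩,⟨0,[(39,0)]⟩⟩,.a
  ⟨true,0,⟨0,[(24,0)]⟩,⟨1,[(23,0),(8,0),(0,0)]⟩⟩ ⟨false,0,⟨0,[(0,0),(5,1),(3,0)]⟩,⟨7,[(3,3),(15,3),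
  (1,0),(0,4),(17,1)]⟩⟩ ⟨true,0,⟨3,[(9,0),(1,1),(11,1),(3,0)]⟩,⟨0,[(24,0),(14,0)]⟩⟩,.o ⟨false,0,⟨2,
  [(3,0),(2,0),(0,0),(3,0),(12,1),(9,0)]⟩,⟨7,[(21,0),(0,0),(0,3),(10,1),(5,3)]⟩⟩]⟩)) (.I [0,1,-1,0,
  0,0,0,1,1] (.R ⟨1,false,false,true,[1,0,0,-1],[0,-1,1],[1,0,0,-1,0,0,0,0,-1],(⟨1,[(23,0),(8,0),(0,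
  0)]⟩,⟨0,[(24,0)]⟩),(⟨0,[(12,0)]⟩,⟨0,[(32,0),(3,0)]⟩),⟨1,[(12,0),(2,0),(7,0)]⟩,.k,.k,(.r (-1) ⟨7,
  [(2,1),(2,1),(3,1),(0,1),(2,1),(7,2),(18,2)]⟩ ⟨5,[(0,1),(2,1),(2,2),(15,1),(5,0),(0,0),(9,1)]⟩),
  (.x (-1) ⟨7,[(20,3),(0,0),(0,0),(9,7),(1,1),(1,7),(3,3)]⟩ ⟨0,[(12,0),(16,0)]⟩),.k,.k,⟨false,1,⟨5,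
  [(2,1),(2,3),(15,0),(18,0),(0,1)]⟩,⟨0,[(0,0)]⟩⟩,⟨true,0,⟨1,[(23,0),(5,1),(2,0),(0,0)]⟩,⟨0,[(18,0),
  (5,0)]⟩⟩,⟨false,1,⟨7,[(2,1),(6,1),(11,0),(0,0),(7,1),(10,3)]⟩,⟨0,[(39,0)]⟩⟩,⟨false,0,⟨0,[(0,0),(5,
  0),(0,0),(15,0)]⟩,⟨1,[(5,1),(12,1),(5,1),(15,0),(0,0)]⟩⟩,⟨true,0,⟨0,[]⟩,⟨0,[(43,0)]⟩⟩,⟨false,0,⟨0,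
  [(0,0),(5,0),(0,0),(15,0),(15,0)]⟩,⟨5,[(2,1),(2,3),(12,5),(2,0),(2,5),(15,0),(0,1)]⟩⟩,[.o ⟨false,
  0,⟨0,[(17,0)]⟩,⟨1,[(13,1),(20,0),(4,1),(1,0)]⟩⟩,.a ⟨true,0,⟨1,[(7,1),(15,0),(8,0),(0,0)]⟩,⟨0,[(13,
  0),(25,0)]⟩⟩ ⟨false,1,⟨1,[(2,0),(2,1),(2,0),(1,0)]⟩,⟨1,[(0,1),(5,0),(21,0),(0,0),(9,1)]⟩⟩ ⟨true,0,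
  ⟨0,[(7,0),(15,0)]⟩,⟨2,[(3,0),(2,0),(6,1),(10,2),(0,0),(8,0),(4,0)]⟩⟩,.e ⟨false,1,⟨13,[(2,4),(6,0),
  (0,1),(10,6),(8,0),(6,5),(3,1)]⟩,⟨0,[(0,0),(5,0),(32,0)]⟩⟩ ⟨false,0,⟨0,[(7,0),(15,0)]⟩,⟨1,[(13,1),
  (10,1),(9,0),(4,1),(1,0)]⟩⟩,.o ⟨false,0,⟨2,[(3,0),(2,0),(0,0),(3,0),(12,1),(9,0)]⟩,⟨7,[(21,0),(0,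
  0),(0,3),(10,1),(5,3)]⟩⟩]⟩) (.I [0,1,-1,0,0,0,0,1,-1] (.Q [0,0,0,0,0,-1,0,0,0,0,0,1] (.p true [0,
  0,0,1] [] (⟨0,[(25,0)]⟩,⟨1,[(24,0),(8,0),(0,0)]⟩) .k 0 (⟨0,[]⟩,⟨0,[]⟩) .k .k) (.R ⟨1,false,false,
  true,[0,0,0,1],[0,-1,1],[1,0,0,-1,0,0,0,0,1],(⟨0,[(26,0)]⟩,⟨1,[(25,0),(8,0),(0,0)]⟩),(⟨0,[(14,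
  0)]⟩,⟨0,[(34,0),(3,0)]⟩),⟨0,[(0,0)]⟩,.k,.k,(.r (-1) ⟨4,[(4,0),(1,0),(9,0),(7,1)]⟩ ⟨2,[(5,0),(1,0),
  (15,0)]⟩),(.x (-1) ⟨7,[(22,3),(0,0),(0,0),(9,7),(1,1),(1,7),(3,3)]⟩ ⟨0,[(14,0),(16,0)]⟩),.k,.k,
  ⟨false,1,⟨7,[(3,1),(4,3),(12,1),(2,2),(16,1),(1,0)]⟩,⟨0,[(1,0)]⟩⟩,⟨true,0,⟨0,[(26,0),(4,0)]⟩,⟨1,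
  [(22,0),(2,0)]⟩⟩,⟨false,1,⟨7,[(4,1),(6,1),(11,0),(0,0),(7,1),(10,3)]⟩,⟨0,[(41,0)]⟩⟩,⟨false,0,⟨1,
  [(1,0),(0,0),(6,1)]⟩,⟨9,[(3,3),(1,1),(9,7),(6,0),(1,2),(0,4),(10,1),(4,9),(1,2)]⟩⟩,⟨true,0,⟨0,[]⟩,
  ⟨0,[(45,0)]⟩⟩,⟨false,0,⟨1,[(1,0),(0,0),(6,1),(31,1)]⟩,⟨9,[(3,3),(1,1),(9,7),(6,0),(1,2),(0,4),(10,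
  1),(6,2)]⟩⟩,[.o ⟨false,0,⟨0,[(19,0)]⟩,⟨1,[(15,1),(20,0),(4,1),(1,0)]⟩⟩,.a ⟨true,0,⟨1,[(9,1),(15,
  0),(8,0),(0,0)]⟩,⟨0,[(15,0),(25,0)]⟩⟩ ⟨false,1,⟨5,[(3,3),(8,1),(11,0),(18,0)]⟩,⟨1,[(1,0),(5,0),
  (33,0),(3,0)]⟩⟩ ⟨true,0,⟨0,[(9,0)]⟩,⟨23,[(5,7),(1,5),(0,1),(6,21),(8,2),(0,11),(1,1),(8,4),(4,
  1)]⟩⟩,.e ⟨false,1,⟨13,[(4,4),(6,0),(0,1),(11,6),(7,0),(6,5),(3,1)]⟩,⟨1,[(1,0),(0,0),(38,1)]⟩⟩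
  ⟨false,0,⟨0,[(9,0)]⟩,⟨5,[(5,1),(9,3),(5,3),(0,0),(2,2),(10,0),(4,1),(1,2)]⟩⟩,.o ⟨false,0,⟨1,[(25,
  0),(2,0),(2,0)]⟩,⟨1,[(26,1),(9,0),(5,0)]⟩⟩]⟩) (.I [1,1,0,0,0,0,0,0,1] (.R ⟨1,false,false,false,[1,
  0,0,-1],[1,0,-1],[0,1,0,0,0,0,0,0,-1],(⟨1,[(26,0),(8,0),(0,0)]⟩,⟨0,[(27,0)]⟩),(⟨0,[(35,0)]⟩,⟨0,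
  [(36,0)]⟩),⟨1,[(15,0),(2,0),(7,0)]⟩,.k,.k,(.r (-1) ⟨4,[(2,0),(2,0),(11,0),(1,0),(4,1)]⟩ ⟨2,[(0,0),
  (5,0),(2,0),(15,0),(16,0)]⟩),.k,(.x 0 ⟨0,[(15,0),(16,0)]⟩ ⟨7,[(23,3),(0,0),(0,0),(9,7),(1,1),(1,
  7),(3,3)]⟩),.k,⟨false,0,⟨0,[(2,0)]⟩,⟨7,[(4,1),(4,3),(12,1),(2,2),(16,1),(1,0)]⟩⟩,⟨true,0,⟨1,[(23,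
  0),(2,0)]⟩,⟨0,[(27,0),(4,0)]⟩⟩,⟨true,0,⟨0,[(46,0)]⟩,⟨0,[]⟩⟩,⟨false,1,⟨9,[(4,3),(1,1),(9,7),(6,0),
  (1,2),(0,4),(10,1),(6,2)]⟩,⟨1,[(2,0),(0,0),(6,1),(31,1)]⟩⟩,⟨false,0,⟨0,[(42,0)]⟩,⟨7,[(5,1),(6,1),
  (11,0),(0,0),(7,1),(10,3)]⟩⟩,⟨false,1,⟨9,[(4,3),(1,1),(9,7),(6,0),(1,2),(0,4),(10,1),(4,9),(1,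
  2)]⟩,⟨1,[(2,0),(0,0),(6,1)]⟩⟩,[.a ⟨true,0,⟨0,[(16,0)]⟩,⟨1,[(10,1),(15,0),(8,0),(0,0),(5,1)]⟩⟩
  ⟨true,0,⟨1,[(2,0),(5,0),(32,0)]⟩,⟨1,[(0,0),(3,0),(1,0),(2,1),(3,0)]⟩⟩ ⟨false,1,⟨1,[(22,1),(0,0),
  (2,0)]⟩,⟨0,[(10,0),(31,0)]⟩⟩,.o ⟨false,1,⟨1,[(16,1),(20,0),(6,0)]⟩,⟨0,[(30,0)]⟩⟩,.e ⟨false,0,⟨1,
  [(2,0),(0,0)]⟩,⟨1,[(25,0),(18,0)]⟩⟩ ⟨false,1,⟨3,[(16,1),(9,1),(4,1),(5,0),(6,2)]⟩,⟨0,[(10,0),(31,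
  0)]⟩⟩,.o ⟨false,0,⟨2,[(6,0),(2,0),(0,0),(3,0),(12,1),(9,0)]⟩,⟨7,[(24,0),(0,0),(0,3),(10,1),(5,
  3)]⟩⟩]⟩) (.R ⟨1,false,false,true,[1,0,0,-1],[1,-1],[0,0,0,0,0,0,0,0,-1],(⟨1,[(26,0),(8,0),(0,0)]⟩,
  ⟨0,[(27,0)]⟩),(⟨0,[(38,0)]⟩,⟨0,[(39,0)]⟩),⟨1,[(15,0),(2,0),(7,0)]⟩,.k,.k,(.r (-1) ⟨4,[(2,0),(2,0),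
  (11,0),(1,0),(4,1)]⟩ ⟨2,[(4,1),(1,2),(0,0),(23,0),(0,0)]⟩),(.r 0 ⟨2,[(6,0),(1,0),(15,0)]⟩ ⟨4,[(5,
  0),(1,0),(9,0),(7,1)]⟩),.k,.k,⟨false,0,⟨0,[(0,0),(41,0)]⟩,⟨7,[(7,3),(16,0),(0,2),(15,3)]⟩⟩,⟨true,
  0,⟨1,[(26,0),(2,0),(2,0)]⟩,⟨0,[(27,0)]⟩⟩,⟨false,1,⟨3,[(24,0),(0,0),(18,1)]⟩,⟨0,[]⟩⟩,⟨false,1,⟨15,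
  [(5,3),(6,3),(11,0),(0,8),(0,7),(2,3),(7,1)]⟩,⟨0,[(0,0),(26,0),(14,0)]⟩⟩,⟨true,0,⟨0,[(42,0)]⟩,⟨0,
  [(41,0)]⟩⟩,⟨false,1,⟨7,[(24,0),(0,4),(0,3),(10,1)]⟩,⟨0,[(0,0),(26,0)]⟩⟩,[.e ⟨true,0,⟨1,[(2,0),(0,
  0)]⟩,⟨0,[(4,0),(1,0),(34,0)]⟩⟩ ⟨true,0,⟨3,[(12,0),(1,1),(11,1),(3,0)]⟩,⟨2,[(6,0),(2,0),(17,2),(14,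
  0),(1,0)]⟩⟩,.o ⟨false,1,⟨15,[(5,3),(6,3),(11,2),(0,2),(3,3),(7,5)]⟩,⟨0,[(42,0)]⟩⟩,.a ⟨true,0,⟨0,
  [(27,0)]⟩,⟨1,[(26,0),(8,0),(0,0)]⟩⟩ ⟨false,0,⟨0,[(0,0)]⟩,⟨3,[(24,0),(0,2)]⟩⟩ ⟨true,0,⟨3,[(12,0),
  (1,1),(11,1),(3,0)]⟩,⟨0,[(27,0),(14,0)]⟩⟩,.o ⟨false,0,⟨2,[(6,0),(2,0),(0,0),(3,0),(12,1),(9,0)]⟩,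
  ⟨7,[(24,0),(0,0),(0,3),(10,1),(5,3)]⟩⟩]⟩))) (.Q [0,0,2,0,-1,0,-1,0,0,-1,1] (.p true [0,0,1] [1]
  (⟨0,[(34,0)]⟩,⟨0,[(33,0)]⟩) .k 1 (⟨0,[]⟩,⟨0,[]⟩) .k .k) (.Q [0,-1,0,2,0,0,1,1,0,1,-1] (.p false
  [0,0,1] [1] (⟨0,[(35,0)]⟩,⟨0,[(34,0)]⟩) .k 1 (⟨0,[]⟩,⟨0,[]⟩) .k .k) (.R ⟨1,false,false,false,[1,
  -1],[0,0,1],[0,0,0,0,0,0,0,1],(⟨0,[(38,0)]⟩,⟨0,[(39,0)]⟩),(⟨0,[(36,0)]⟩,⟨0,[(35,0)]⟩),⟨0,[(15,0),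
  (2,0)]⟩,.k,.k,(.x 0 ⟨11,[(1,7),(13,11),(2,11),(5,2),(0,2),(6,7),(4,1)]⟩ ⟨0,[(39,1),(3,0)]⟩),.k,
  (.r (-2) ⟨5,[(17,1),(1,7),(4,0),(0,0)]⟩ ⟨0,[(1,0),(8,1),(5,0),(9,0),(15,3)]⟩),.k,⟨false,1,⟨3,[(24,
  0),(0,0),(17,1)]⟩,⟨0,[]⟩⟩,⟨true,1,⟨0,[(0,0),(18,0),(21,0)]⟩,⟨0,[(1,0)]⟩⟩,⟨false,0,⟨19,[(6,11),(6,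
  3),(10,0),(0,0),(18,9)]⟩,⟨0,[(19,0)]⟩⟩,⟨true,0,⟨0,[(0,0),(40,0)]⟩,⟨0,[(14,0)]⟩⟩,⟨false,0,⟨15,[(0,
  7),(5,7),(16,3),(0,0),(0,0),(11,1),(6,3)]⟩,⟨1,[(5,0),(13,0),(21,0)]⟩⟩,⟨false,0,⟨0,[(0,0)]⟩,⟨15,
  [(5,9),(6,1),(1,7),(9,2),(0,2),(3,7),(3,1)]⟩⟩,[.a ⟨true,0,⟨1,[(0,0),(11,0),(22,0),(0,0)]⟩,⟨0,[(16,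
  0)]⟩⟩ ⟨true,0,⟨0,[(34,0)]⟩,⟨1,[(9,0),(21,0),(0,0)]⟩⟩ ⟨false,1,⟨1,[(0,0),(11,0),(22,0),(0,0),(6,
  1)]⟩,⟨1,[(9,0),(18,0),(0,0)]⟩⟩,.o ⟨false,1,⟨7,[(0,3),(11,3),(11,0),(0,0),(11,1),(6,3)]⟩,⟨0,[(28,
  0)]⟩⟩,.o ⟨false,0,⟨2,[(1,0),(30,0),(4,0)]⟩,⟨3,[(24,0),(0,0),(17,1)]⟩⟩,.o ⟨false,0,⟨11,[(1,7),(22,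
  2),(0,2),(6,7),(4,1)]⟩,⟨0,[(43,0)]⟩⟩]⟩) (.I [0,0,-1,-1,1,0,0,-2] (.K ⟨2,[1,-1,-1],(-1),0,(⟨0,[(19,
  0)]⟩,⟨0,[(37,0),(2,0)]⟩),.k,(.r (-2) ⟨5,[(18,1),(1,7),(4,0),(0,0)]⟩ ⟨0,[(2,0),(8,1),(5,0),(9,0),
  (15,3)]⟩),.k,(.r (-1) ⟨0,[(0,0)]⟩ ⟨4,[(7,3),(6,2),(10,1),(0,1)]⟩),.k,[⟨0,[(0,0),(10,1),(15,0),(15,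
  2)]⟩,⟨0,[(2,0)]⟩,⟨0,[(31,0),(4,0),(0,0),(5,0)]⟩,⟨0,[(15,0)]⟩]⟩) (.Q [0,0,0,1,0,0,1,1,1,1,-1,-1]
  (.p false [0,0,1] [1,0,0,-1] (⟨0,[(37,0)]⟩,⟨0,[(36,0)]⟩) .k 2 (⟨1,[(27,0),(8,0),(0,0)]⟩,⟨0,[(28,
  0)]⟩) .k (.r 0 ⟨5,[(0,2),(2,1),(4,1),(5,0),(11,0)]⟩ ⟨7,[(9,3),(10,3),(4,2),(0,0)]⟩)) (.Q [0,0,0,0,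
  0,0,0,0,-1,0,0,1] (.p true [0,0,0,1] [] (⟨0,[(29,0)]⟩,⟨1,[(28,0),(8,0),(0,0)]⟩) .k 0 (⟨0,[]⟩,⟨0,
  []⟩) .k .k) (.Q [0,0,0,0,0,0,0,0,2,1,0,-2] (.p false [0,0,0,1] [1,0,0,-1] (⟨0,[(30,0)]⟩,⟨1,[(29,
  0),(8,0),(0,0)]⟩) .k 2 (⟨1,[(29,0),(8,0),(0,0)]⟩,⟨0,[(30,0)]⟩) .k .k) (.R ⟨2,false,false,false,[0,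
  1],[1,0,0,-1],[1,1,1],(⟨0,[]⟩,⟨0,[]⟩),(⟨1,[(30,0),(8,0),(0,0)]⟩,⟨0,[(31,0)]⟩),⟨0,[]⟩,.k,.k,.k,(.r
  0 ⟨2,[(6,0),(3,0),(18,0),(16,0),(3,0)]⟩ ⟨11,[(1,1),(2,0),(4,1),(6,0),(4,1),(6,4),(1,0),(16,2)]⟩),
  .k,.k,⟨false,0,⟨1,[(0,0),(30,1),(0,0),(1,0)]⟩,⟨0,[(12,0),(2,0)]⟩⟩,⟨true,0,⟨2,[(5,0),(25,2),(4,0),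
  (4,0)]⟩,⟨1,[(30,0),(8,0),(0,0)]⟩⟩,⟨true,0,⟨0,[(45,0)]⟩,⟨0,[(46,0)]⟩⟩,⟨false,1,⟨25,[(1,19),(3,5),
  (3,7),(4,5),(6,1),(6,2),(12,9),(6,8)]⟩,⟨0,[(2,0),(17,0)]⟩⟩,⟨false,0,⟨0,[]⟩,⟨3,[(28,0),(0,0),(18,
  1)]⟩⟩,⟨false,1,⟨1,[(1,1),(39,0),(6,0)]⟩,⟨1,[(0,0),(38,0),(0,0)]⟩⟩,[.a ⟨true,0,⟨0,[(1,0)]⟩,⟨1,[(0,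
  0),(38,0),(0,0)]⟩⟩ ⟨false,0,⟨0,[(50,0)]⟩,⟨1,[(47,0),(0,0)]⟩⟩ ⟨true,0,⟨2,[(1,2),(3,0),(30,0),(4,
  0)]⟩,⟨1,[(0,0),(38,0),(0,0)]⟩⟩,.o ⟨false,1,⟨1,[(1,1),(39,0),(6,0)]⟩,⟨1,[(0,0),(31,0),(1,0)]⟩⟩,.o
  ⟨false,1,⟨3,[(28,0),(0,0),(17,1)]⟩,⟨2,[(5,0),(30,0),(4,0)]⟩⟩,.e ⟨false,0,⟨0,[]⟩,⟨3,[(28,0),(0,0),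
  (18,1)]⟩⟩ ⟨false,1,⟨1,[(1,1),(39,0),(6,0)]⟩,⟨1,[(0,0),(38,0),(0,0)]⟩⟩]⟩) (.R ⟨1,false,false,false,
  [1,0,0,-1],[1,-1],[0,0,0,0,0,0,0,0,-1],(⟨1,[(30,0),(8,0),(0,0)]⟩,⟨0,[(31,0)]⟩),(⟨0,[(42,0)]⟩,⟨0,
  [(43,0)]⟩),⟨1,[(19,0),(2,0),(7,0)]⟩,.k,.k,(.r (-1) ⟨5,[(0,0),(20,1),(1,1),(4,1),(1,0)]⟩ ⟨2,[(6,0),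
  (3,0),(18,0),(16,0),(3,0)]⟩),(.r 0 ⟨2,[(10,0),(1,0),(15,0)]⟩ ⟨4,[(9,0),(1,0),(9,0),(7,1)]⟩),.k,.k,
  ⟨false,0,⟨1,[(0,0),(29,0),(15,1)]⟩,⟨4,[(9,0),(1,0),(9,0),(7,1)]⟩⟩,⟨true,0,⟨23,[(5,7),(22,2),(0,2),
  (0,11),(5,7),(4,1)]⟩,⟨0,[(31,0)]⟩⟩,⟨false,1,⟨3,[(28,0),(0,0),(18,1)]⟩,⟨0,[]⟩⟩,⟨false,1,⟨25,[(5,6),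
  (0,0),(1,8),(6,2),(0,6),(12,7),(0,12),(10,2),(6,9)]⟩,⟨0,[(1,0),(44,0)]⟩⟩,⟨true,0,⟨0,[(46,0)]⟩,⟨0,
  [(45,0)]⟩⟩,⟨false,1,⟨8,[(2,0),(3,1),(8,0),(9,0),(3,2),(0,3),(10,1),(6,2)]⟩,⟨0,[(1,0)]⟩⟩,[.o
  ⟨false,1,⟨15,[(4,3),(11,3),(11,2),(0,2),(11,5),(6,3)]⟩,⟨0,[(46,0)]⟩⟩,.o ⟨false,1,⟨31,[(5,5),(3,7),
  (6,5),(4,1),(19,12),(6,14)]⟩,⟨0,[(46,0),(3,0)]⟩⟩,.a ⟨true,0,⟨0,[(31,0)]⟩,⟨1,[(30,0),(8,0),(0,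
  0)]⟩⟩ ⟨true,0,⟨1,[(0,0),(29,0)]⟩,⟨0,[(2,0),(15,0),(12,0)]⟩⟩ ⟨false,1,⟨15,[(9,3),(6,3),(11,0),(0,
  0),(0,7),(2,3),(7,1),(6,7)]⟩,⟨0,[(31,0),(14,0)]⟩⟩,.o ⟨false,0,⟨23,[(0,7),(4,3),(0,5),(3,3),(3,7),
  (14,4),(2,5),(3,1),(4,2)]⟩,⟨7,[(28,0),(0,0),(0,3),(10,1),(5,3)]⟩⟩]⟩)) (.Q [0,0,0,2,0,0,0,0,-1,0,0,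
  1] (.p true [0,0,0,1] [] (⟨0,[(30,0)]⟩,⟨1,[(29,0),(8,0),(0,0)]⟩) .k 0 (⟨0,[]⟩,⟨0,[]⟩) .k .k) (.R
  ⟨1,false,false,true,[1,0,0,-1],[0,0,0,1],[0,1,0,0,0,0,0,0,-1],(⟨1,[(30,0),(8,0),(0,0)]⟩,⟨0,[(31,
  0)]⟩),(⟨0,[(31,0)]⟩,⟨1,[(30,0),(8,0),(0,0)]⟩),⟨1,[(19,0),(2,0),(7,0)]⟩,.k,.k,(.r (-1) ⟨7,[(0,1),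
  (3,0),(4,1),(6,0),(4,1),(6,2),(1,0),(16,0)]⟩ ⟨8,[(0,0),(1,0),(3,2),(3,2),(18,2),(2,0),(17,1)]⟩),
  .k,(.r (-1) ⟨4,[(0,3),(3,1),(2,3),(8,1),(0,0),(3,1),(6,0),(1,1),(16,1)]⟩ ⟨0,[(6,0),(3,0),(0,0)]⟩),
  .k,⟨false,1,⟨2,[(0,1),(6,1),(8,0),(0,0),(0,0),(9,0),(1,0),(16,1)]⟩,⟨0,[(1,1),(29,1)]⟩⟩,⟨true,0,⟨0,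
  [(30,0)]⟩,⟨2,[(5,0),(25,5),(4,0),(4,0)]⟩⟩,⟨true,0,⟨0,[(50,0)]⟩,⟨0,[]⟩⟩,⟨false,0,⟨0,[(1,1),(37,0),
  (0,0)]⟩,⟨37,[(0,47),(4,19),(3,31),(4,27),(0,3),(11,3),(0,13),(12,6),(6,0)]⟩⟩,⟨false,0,⟨0,[(46,
  0)]⟩,⟨7,[(9,1),(6,1),(11,0),(0,0),(7,1),(10,3)]⟩⟩,⟨false,0,⟨0,[(1,0),(0,0),(17,0)]⟩,⟨1,[(0,1),(4,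
  0),(3,1),(4,1),(10,0),(2,0)]⟩⟩,[.o ⟨false,0,⟨0,[(1,0),(48,0)]⟩,⟨37,[(0,23),(4,9),(3,15),(4,13),(0,
  1),(11,1),(0,6),(12,12),(6,9)]⟩⟩,.o ⟨false,0,⟨0,[(1,0)]⟩,⟨1,[(28,0),(2,1),(9,0)]⟩⟩,.a ⟨true,0,⟨0,
  [(31,0)]⟩,⟨1,[(30,0),(8,0),(0,0)]⟩⟩ ⟨true,0,⟨1,[(0,1),(3,0),(11,0),(13,0)]⟩,⟨0,[(1,0),(29,0)]⟩⟩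
  ⟨false,0,⟨1,[(1,1),(28,0),(8,0),(0,0)]⟩,⟨17,[(0,11),(4,3),(3,7),(4,7),(12,1),(0,2),(2,15),(9,5),
  (6,4)]⟩⟩,.o ⟨false,0,⟨2,[(5,0),(25,2),(4,0),(4,0)]⟩,⟨7,[(28,0),(0,0),(0,3),(10,1),(5,3)]⟩⟩]⟩) (.I
  [1,-1,0,0,0,0,0,0,1] (.Q [0,0,0,0,0,-1,0,0,0,0,0,1] (.p true [0,0,0,1] [] (⟨0,[(32,0)]⟩,⟨1,[(31,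
  0),(8,0),(0,0)]⟩) .k 0 (⟨0,[]⟩,⟨0,[]⟩) .k .k) (.R ⟨1,false,false,true,[0,0,0,1],[1,-1],[0,1,0,0,0,
  0,0,0,1],(⟨0,[(33,0)]⟩,⟨1,[(32,0),(8,0),(0,0)]⟩),(⟨0,[(44,0)]⟩,⟨0,[(45,0)]⟩),⟨0,[(0,0)]⟩,.k,.k,
  (.r (-1) ⟨4,[(11,0),(1,0),(9,0),(7,1)]⟩ ⟨2,[(12,0),(1,0),(15,0)]⟩),(.r 0 ⟨2,[(8,0),(3,0),(18,0),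
  (16,0),(3,0)]⟩ ⟨2,[(9,0),(13,0),(6,0),(16,0),(1,0)]⟩),.k,.k,⟨false,0,⟨1,[(1,0),(2,0),(28,0),(0,0),
  (13,0)]⟩,⟨2,[(9,0),(13,0),(6,0),(16,0),(1,0)]⟩⟩,⟨true,0,⟨2,[(7,0),(25,2),(4,0),(4,0)]⟩,⟨1,[(32,0),
  (8,0),(0,0)]⟩⟩,⟨true,0,⟨0,[(52,0)]⟩,⟨0,[]⟩⟩,⟨false,1,⟨5,[(6,1),(9,1),(13,2),(2,3),(9,1),(6,0)]⟩,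
  ⟨1,[(1,1),(30,0),(8,0),(0,0),(5,1)]⟩⟩,⟨false,0,⟨0,[(48,0)]⟩,⟨7,[(11,1),(6,1),(11,0),(0,0),(7,1),
  (10,3)]⟩⟩,⟨false,1,⟨1,[(30,0),(2,1),(9,0)]⟩,⟨1,[(1,1),(30,0),(8,0),(0,0)]⟩⟩,[.e ⟨true,0,⟨0,[(1,0),
  (50,1)]⟩,⟨5,[(5,0),(3,3),(9,0),(10,0),(15,1)]⟩⟩ ⟨true,0,⟨0,[(16,0),(17,0)]⟩,⟨2,[(4,0),(4,0),(2,0),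
  (9,0),(9,0),(8,0),(0,0),(7,0)]⟩⟩,.o ⟨false,1,⟨15,[(6,3),(11,3),(11,2),(0,2),(11,5),(6,3)]⟩,⟨0,
  [(48,0)]⟩⟩,.a ⟨true,0,⟨1,[(32,0),(8,0),(0,0)]⟩,⟨0,[(33,0)]⟩⟩ ⟨false,0,⟨0,[(1,0),(50,0)]⟩,⟨1,[(30,
  0),(19,0)]⟩⟩ ⟨true,0,⟨0,[(16,0),(17,0)]⟩,⟨1,[(32,0),(8,0),(0,0),(5,1)]⟩⟩,.o ⟨false,0,⟨23,[(7,7),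
  (22,2),(0,2),(0,11),(5,7),(4,1)]⟩,⟨1,[(33,1),(9,0),(5,0)]⟩⟩]⟩) (.R ⟨0,false,false,true,[0,0,0,1],
  [1,-1],[0,1,0,0,0,0,0,0,1],(⟨0,[(33,0)]⟩,⟨1,[(32,0),(8,0),(0,0)]⟩),(⟨0,[(44,0)]⟩,⟨0,[(45,0)]⟩),⟨0,
  [(0,0)]⟩,.k,.k,(.r (-1) ⟨4,[(11,0),(1,0),(9,0),(7,1)]⟩ ⟨2,[(12,0),(1,0),(15,0)]⟩),(.r 0 ⟨2,[(8,0),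
  (3,0),(18,0),(16,0),(3,0)]⟩ ⟨2,[(9,0),(13,0),(6,0),(16,0),(1,0)]⟩),.k,.k,⟨false,0,⟨1,[(1,0),(2,0),
  (28,0),(0,0),(13,0)]⟩,⟨2,[(9,0),(13,0),(6,0),(16,0),(1,0)]⟩⟩,⟨true,0,⟨2,[(7,0),(25,2),(4,0),(4,
  0)]⟩,⟨1,[(32,0),(8,0),(0,0)]⟩⟩,⟨true,0,⟨0,[(52,0)]⟩,⟨0,[]⟩⟩,⟨false,1,⟨5,[(6,1),(9,1),(13,2),(2,3),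
  (9,1),(6,0)]⟩,⟨1,[(1,1),(30,0),(8,0),(0,0),(5,1)]⟩⟩,⟨false,0,⟨0,[]⟩,⟨0,[]⟩⟩,⟨false,0,⟨0,[]⟩,⟨0,
  []⟩⟩,[.e ⟨true,0,⟨0,[(1,0),(50,1)]⟩,⟨5,[(5,0),(3,3),(9,0),(10,0),(15,1)]⟩⟩ ⟨true,0,⟨0,[(16,0),(17,
  0)]⟩,⟨2,[(4,0),(4,0),(2,0),(9,0),(9,0),(8,0),(0,0),(7,0)]⟩⟩,.o ⟨false,1,⟨15,[(6,3),(11,3),(11,2),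
  (0,2),(11,5),(6,3)]⟩,⟨0,[(48,0)]⟩⟩,.a ⟨true,0,⟨1,[(32,0),(8,0),(0,0)]⟩,⟨0,[(33,0)]⟩⟩ ⟨false,0,⟨0,
  [(1,0),(50,0)]⟩,⟨1,[(30,0),(19,0)]⟩⟩ ⟨true,0,⟨0,[(16,0),(17,0)]⟩,⟨1,[(32,0),(8,0),(0,0),(5,1)]⟩⟩,
  .o ⟨false,0,⟨23,[(7,7),(22,2),(0,2),(0,11),(5,7),(4,1)]⟩,⟨1,[(33,1),(9,0),(5,0)]⟩⟩]⟩)) (.R ⟨1,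
  false,false,false,[1,0,0,-1],[1,-1],[0,1,0,0,0,0,0,0,-1],(⟨1,[(31,0),(8,0),(0,0)]⟩,⟨0,[(32,0)]⟩),
  (⟨0,[(43,0)]⟩,⟨0,[(44,0)]⟩),⟨1,[(20,0),(2,0),(7,0)]⟩,.k,.k,(.r (-1) ⟨7,[(0,1),(9,1),(11,1),(6,2),
  (18,0)]⟩ ⟨2,[(7,0),(3,0),(18,0),(16,0),(3,0)]⟩),(.r 0 ⟨2,[(11,0),(1,0),(15,0)]⟩ ⟨4,[(10,0),(1,0),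
  (9,0),(7,1)]⟩),.k,.k,⟨false,0,⟨0,[(0,0),(46,0)]⟩,⟨5,[(9,3),(8,1),(11,0),(18,0)]⟩⟩,⟨true,0,⟨23,[(6,
  7),(22,2),(0,2),(0,11),(5,7),(4,1)]⟩,⟨0,[(32,0)]⟩⟩,⟨true,0,⟨0,[(51,0)]⟩,⟨0,[]⟩⟩,⟨true,0,⟨1,[(1,0),
  (0,0)]⟩,⟨0,[(0,0),(31,0),(14,0)]⟩⟩,⟨false,0,⟨0,[(47,0)]⟩,⟨7,[(10,1),(6,1),(11,0),(0,0),(7,1),(10,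
  3)]⟩⟩,⟨true,0,⟨0,[(2,0)]⟩,⟨0,[(0,0),(31,0)]⟩⟩,[.o ⟨false,1,⟨15,[(5,3),(11,3),(11,2),(0,2),(11,5),
  (6,3)]⟩,⟨0,[(47,0)]⟩⟩,.o ⟨false,1,⟨31,[(6,5),(3,7),(6,5),(4,1),(19,12),(6,14)]⟩,⟨0,[(47,0),(3,
  0)]⟩⟩,.a ⟨true,0,⟨0,[(32,0)]⟩,⟨1,[(31,0),(8,0),(0,0)]⟩⟩ ⟨true,0,⟨0,[(0,0)]⟩,⟨0,[(2,0),(29,0)]⟩⟩
  ⟨false,1,⟨15,[(1,7),(27,4),(0,0),(0,3),(10,1),(6,7)]⟩,⟨0,[(32,0),(14,0)]⟩⟩,.o ⟨false,0,⟨2,[(6,0),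
  (25,2),(4,0),(4,0)]⟩,⟨7,[(29,0),(0,0),(0,3),(10,1),(5,3)]⟩⟩]⟩)))) (.Q [0,-1,0,0,0,0,0,0,-1,0,0,1]
  (.p true [0,0,0,1] [] (⟨0,[(29,0)]⟩,⟨1,[(28,0),(8,0),(0,0)]⟩) .k 0 (⟨0,[]⟩,⟨0,[]⟩) .k .k) (.R ⟨1,
  false,false,true,[1,0,0,-1],[1,-1],[0,1,0,0,0,0,0,0,-1],(⟨1,[(29,0),(8,0),(0,0)]⟩,⟨0,[(30,0)]⟩),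
  (⟨0,[(41,0)]⟩,⟨0,[(42,0)]⟩),⟨1,[(18,0),(2,0),(7,0)]⟩,.k,.k,(.r (-1) ⟨17,[(0,1),(0,1),(13,1),(4,3),
  (1,3),(4,6),(1,1),(16,2)]⟩ ⟨2,[(5,0),(3,0),(18,0),(16,0),(3,0)]⟩),(.r 0 ⟨2,[(9,0),(1,0),(15,0)]⟩
  ⟨4,[(8,0),(1,0),(9,0),(7,1)]⟩),.k,.k,⟨false,0,⟨1,[(0,1),(28,0),(1,0),(1,0),(11,1)]⟩,⟨4,[(8,0),(1,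
  0),(9,0),(7,1)]⟩⟩,⟨true,0,⟨23,[(4,7),(22,2),(0,2),(0,11),(5,7),(4,1)]⟩,⟨0,[(30,0)]⟩⟩,⟨true,0,⟨0,
  [(49,0)]⟩,⟨0,[]⟩⟩,⟨false,1,⟨15,[(3,3),(11,3),(11,0),(0,8),(0,7),(10,1),(6,3)]⟩,⟨0,[(0,0),(44,
  0)]⟩⟩,⟨false,0,⟨0,[(45,0)]⟩,⟨7,[(8,1),(6,1),(11,0),(0,0),(7,1),(10,3)]⟩⟩,⟨false,1,⟨7,[(27,0),(0,
  4),(0,3),(10,1)]⟩,⟨0,[(0,0)]⟩⟩,[.e ⟨true,0,⟨1,[(0,1),(28,0),(1,0),(1,0),(15,1)]⟩,⟨5,[(2,0),(2,3),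
  (10,0),(11,0),(14,1)]⟩⟩ ⟨true,0,⟨3,[(15,0),(1,1),(11,1),(3,0)]⟩,⟨8,[(0,0),(4,1),(3,2),(1,0),(18,
  7),(14,1),(1,2)]⟩⟩,.o ⟨false,1,⟨15,[(3,3),(11,3),(11,2),(0,2),(11,5),(6,3)]⟩,⟨0,[(45,0)]⟩⟩,.a
  ⟨true,0,⟨0,[(30,0)]⟩,⟨1,[(29,0),(8,0),(0,0)]⟩⟩ ⟨false,0,⟨1,[(0,1),(28,0),(1,0),(1,0)]⟩,⟨1,[(28,0),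
  (18,0)]⟩⟩ ⟨true,0,⟨3,[(15,0),(1,1),(11,1),(3,0)]⟩,⟨0,[(30,0),(14,0)]⟩⟩,.o ⟨false,0,⟨2,[(4,0),(25,
  2),(4,0),(4,0)]⟩,⟨7,[(27,0),(0,0),(0,3),(10,1),(5,3)]⟩⟩]⟩) (.R ⟨1,false,false,false,[1,0,0,-1],[1,
  -1],[0,0,0,0,0,0,0,0,-1],(⟨1,[(29,0),(8,0),(0,0)]⟩,⟨0,[(30,0)]⟩),(⟨0,[(41,0)]⟩,⟨0,[(42,0)]⟩),⟨1,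
  [(18,0),(2,0),(7,0)]⟩,.k,.k,(.r (-1) ⟨13,[(1,1),(6,1),(6,1),(4,1),(6,5),(1,0),(8,0),(0,0),(6,3)]⟩
  ⟨2,[(5,0),(3,0),(18,0),(16,0),(3,0)]⟩),(.r 0 ⟨2,[(9,0),(1,0),(15,0)]⟩ ⟨4,[(8,0),(1,0),(9,0),(7,
  1)]⟩),.k,.k,⟨false,0,⟨0,[(1,0),(11,0),(15,0),(15,2)]⟩,⟨4,[(8,0),(1,0),(9,0),(7,1)]⟩⟩,⟨true,0,⟨23,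
  [(4,7),(22,2),(0,2),(0,11),(5,7),(4,1)]⟩,⟨0,[(30,0)]⟩⟩,⟨false,1,⟨3,[(27,0),(0,0),(18,1)]⟩,⟨0,[]⟩⟩,
  ⟨false,1,⟨25,[(4,6),(0,0),(1,8),(6,2),(0,6),(12,7),(0,12),(10,2),(6,9)]⟩,⟨1,[(1,1),(11,1),(15,0),
  (8,0),(0,0),(5,5)]⟩⟩,⟨true,0,⟨0,[(45,0)]⟩,⟨0,[(44,0)]⟩⟩,⟨false,1,⟨11,[(5,1),(1,1),(1,1),(4,1),(13,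
  3),(0,5),(10,2),(6,2)]⟩,⟨1,[(1,1),(11,1),(15,0),(8,0),(0,0),(5,3)]⟩⟩,[.o ⟨false,1,⟨15,[(3,3),(11,
  3),(11,2),(0,2),(11,5),(6,3)]⟩,⟨0,[(45,0)]⟩⟩,.o ⟨false,1,⟨31,[(4,5),(3,7),(6,5),(4,1),(19,12),(6,
  14)]⟩,⟨0,[(45,0),(3,0)]⟩⟩,.a ⟨true,0,⟨0,[(30,0)]⟩,⟨1,[(29,0),(8,0),(0,0)]⟩⟩ ⟨true,0,⟨0,[(1,0),(11,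
  0),(15,0),(15,1)]⟩,⟨0,[(0,0),(29,0)]⟩⟩ ⟨false,1,⟨15,[(8,3),(6,3),(11,0),(0,0),(0,7),(2,3),(7,1),
  (6,7)]⟩,⟨0,[(30,0),(14,0)]⟩⟩,.o ⟨false,0,⟨2,[(4,0),(25,2),(4,0),(4,0)]⟩,⟨7,[(27,0),(0,0),(0,3),
  (10,1),(5,3)]⟩⟩]⟩))))) (.I [0,1,2,2,-1] (.R ⟨1,false,false,true,[1,-1],[0,0,1],[1,0,-1,-2],(⟨0,
  [(38,0)]⟩,⟨0,[(39,0)]⟩),(⟨0,[(36,0)]⟩,⟨0,[(35,0)]⟩),⟨0,[(15,0),(2,0)]⟩,.k,.k,(.r (-1) ⟨1,[(1,0),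
  (3,0),(7,0),(0,0)]⟩ ⟨5,[(6,3),(1,3),(15,0),(0,2)]⟩),.k,(.r (-2) ⟨5,[(17,1),(1,7),(4,0),(0,0)]⟩ ⟨0,
  [(0,0),(8,0),(3,0),(28,0)]⟩),.k,⟨true,1,⟨0,[(5,0)]⟩,⟨0,[(6,0),(39,0)]⟩⟩,⟨false,1,⟨0,[(1,0)]⟩,⟨0,
  [(29,0)]⟩⟩,⟨false,1,⟨7,[(5,1),(6,1),(11,0),(0,0),(7,1),(10,3)]⟩,⟨0,[(42,0)]⟩⟩,⟨false,0,⟨5,[(1,3),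
  (4,3),(3,1),(15,0),(8,0),(0,0)]⟩,⟨0,[(14,0),(29,0)]⟩⟩,⟨true,0,⟨0,[]⟩,⟨0,[(46,0)]⟩⟩,⟨false,0,⟨0,
  [(1,0),(4,0)]⟩,⟨0,[(5,0),(23,0)]⟩⟩,[.o ⟨false,0,⟨0,[(30,0)]⟩,⟨1,[(16,1),(20,0),(6,0)]⟩⟩,.a ⟨true,
  0,⟨2,[(1,0),(4,0),(3,1),(15,0),(8,0),(0,0)]⟩,⟨0,[(16,0)]⟩⟩ ⟨true,1,⟨8,[(5,5),(6,0),(0,1),(3,0),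
  (15,0),(10,1)]⟩,⟨0,[(0,0)]⟩⟩ ⟨false,1,⟨9,[(1,9),(4,1),(6,3),(10,0),(0,0)]⟩,⟨1,[(9,0),(18,0),(0,
  0)]⟩⟩,.o ⟨false,0,⟨0,[(21,0),(10,0)]⟩,⟨3,[(24,0),(0,0),(17,1)]⟩⟩,.o ⟨false,0,⟨0,[(29,0),(2,0)]⟩,
  ⟨0,[(43,0)]⟩⟩]⟩) (.Q [0,0,2,0,-1,0,-1,0,0,0,1] (.p true [0,0,1] [] (⟨0,[(36,0)]⟩,⟨0,[(35,0)]⟩) .k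
  0 (⟨0,[]⟩,⟨0,[]⟩) .k .k) (.I [0,0,2,2,-1,0,0,1] (.K ⟨0,[0,1,1],1,0,(⟨0,[(38,0),(2,0)]⟩,⟨0,[(20,
  0)]⟩),.k,.k,(.r 1 ⟨0,[(0,0)]⟩ ⟨5,[(19,1),(1,7),(4,0),(0,0)]⟩),.k,.k,[⟨0,[(1,0)]⟩,⟨0,[(3,0)]⟩,⟨0,
  [(18,0),(24,0)]⟩,⟨0,[(32,0),(11,0)]⟩]⟩) (.I [0,0,-2,0,1,2,1] (.K ⟨0,[0,1,1],1,0,(⟨1,[(0,0),(1,0),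
  (36,0)]⟩,⟨0,[(21,0)]⟩),.k,.k,(.x (-1) ⟨0,[(0,0)]⟩ ⟨1,[(18,0),(2,2),(10,2),(2,0)]⟩),.k,.k,[⟨0,[(2,
  0)]⟩,⟨0,[(4,0)]⟩,⟨2,[(1,0),(0,0),(31,1),(9,0)]⟩,⟨0,[(33,0),(11,0)]⟩]⟩) (.Q [0,0,1,0,0,0,2,0,0,1,
  -2] (.p false [0,0,1] [1,0,-1] (⟨0,[(39,0)]⟩,⟨0,[(38,0)]⟩) .k 2 (⟨0,[(38,0)]⟩,⟨0,[(39,0)]⟩) .k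
  (.r 0 ⟨4,[(9,1),(6,3),(10,0),(0,0)]⟩ ⟨2,[(5,0),(5,0),(10,0),(2,1),(8,0),(0,0)]⟩)) (.K ⟨2,[1,1,-1],
  0,0,(⟨0,[(39,0),(3,0)]⟩,⟨0,[(19,0)]⟩),.k,.k,(.r 0 ⟨18,[(0,1),(5,3),(3,6),(1,17),(16,6),(2,1),(2,
  1),(10,5)]⟩ ⟨0,[(21,0)]⟩),(.x 0 ⟨0,[(1,1),(0,1),(14,0),(25,4),(2,4)]⟩ ⟨3,[(0,3),(18,3),(8,0),(0,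
  0),(10,3),(0,1)]⟩),.k,[⟨0,[(0,0)]⟩,⟨0,[(25,0)]⟩,⟨2,[(3,1),(1,2),(4,0),(5,1),(28,0)]⟩,⟨0,[(32,0),
  (13,0)]⟩]⟩) (.Q [0,0,0,0,0,2,0,0,0,0,-1] (.p false [0,0,1] [] (⟨0,[(40,0)]⟩,⟨0,[(39,0)]⟩) .k 0
  (⟨0,[]⟩,⟨0,[]⟩) .k .k) (.R ⟨0,false,false,true,[0,-1,1],[1,0,-1],[0,1,1],(⟨0,[(20,0)]⟩,⟨1,[(0,0),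
  (3,0),(1,0),(33,0)]⟩),(⟨0,[(40,0)]⟩,⟨0,[(41,0)]⟩),⟨0,[(0,0)]⟩,.k,.k,(.r (-1) ⟨0,[(22,0)]⟩ ⟨20,[(6,
  3),(0,5),(3,10),(1,19),(16,6),(2,3),(2,1),(0,1)]⟩),(.r 0 ⟨0,[(1,0),(13,1),(15,0),(15,0)]⟩ ⟨5,[(7,
  0),(5,6),(10,0),(2,1),(2,2),(5,0),(0,0)]⟩),.k,.k,⟨false,0,⟨0,[(39,0)]⟩,⟨0,[(27,0)]⟩⟩,⟨true,0,⟨0,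
  [(1,0)]⟩,⟨0,[(4,0),(1,0),(30,1)]⟩⟩,⟨false,0,⟨20,[(4,4),(2,2),(3,1),(1,16),(16,6),(5,2),(0,7)]⟩,⟨0,
  [(16,0)]⟩⟩,⟨true,0,⟨0,[(21,0),(11,0),(13,0)]⟩,⟨0,[(15,1),(15,0),(15,0)]⟩⟩,⟨false,0,⟨0,[]⟩,⟨0,[]⟩⟩,
  ⟨false,0,⟨0,[]⟩,⟨0,[]⟩⟩,[.o ⟨false,0,⟨0,[(33,0)]⟩,⟨0,[(35,0),(13,0)]⟩⟩,.a ⟨true,0,⟨0,[(21,0)]⟩,⟨2,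
  [(4,0),(1,1),(4,0),(3,1),(15,0)]⟩⟩ ⟨true,0,⟨5,[(4,1),(24,0),(0,0),(6,1)]⟩,⟨0,[]⟩⟩ ⟨false,1,⟨0,[(1,
  0),(25,0)]⟩,⟨2,[(4,0),(1,1),(4,0),(3,1),(15,0),(5,2)]⟩⟩,.o ⟨false,0,⟨0,[(37,0)]⟩,⟨3,[(1,1),(27,0),
  (0,0),(11,0),(5,0)]⟩⟩,.o ⟨false,0,⟨5,[(4,1),(24,0),(0,0),(6,7)]⟩,⟨3,[(1,1),(40,0),(5,2)]⟩⟩]⟩) (.I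
  [0,0,2,2,-1,0,0,1,-1] (.R ⟨1,false,false,true,[0,0,0,1],[0,1,1],[0,0,0,0,0,0,0,0,1],(⟨0,[(33,0)]⟩,
  ⟨1,[(5,0),(1,0),(24,0)]⟩),(⟨0,[(42,0),(2,0)]⟩,⟨0,[(24,0)]⟩),⟨3,[(1,0),(1,0),(0,0),(11,0),(16,2),
  (14,2)]⟩,.k,.k,(.r (-1) ⟨4,[(11,0),(1,0),(9,0),(7,1)]⟩ ⟨2,[(12,0),(1,0),(15,0)]⟩),(.r (-1) ⟨1,[(8,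
  0),(4,0),(11,0)]⟩ ⟨19,[(12,11),(6,3),(10,10),(0,0)]⟩),(.r (-2) ⟨4,[(11,0),(1,0),(9,0),(1,4),(5,
  1)]⟩ ⟨0,[(0,0)]⟩),.k,⟨true,1,⟨0,[(0,0),(0,0),(0,0),(0,0),(0,2),(3,1),(7,3),(3,0),(11,1),(12,3),(2,
  7)]⟩,⟨0,[(0,0),(46,0)]⟩⟩,⟨false,1,⟨0,[(4,0),(11,0),(31,2)]⟩,⟨1,[(32,0),(2,0),(3,0)]⟩⟩,⟨false,1,⟨3,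
  [(30,0),(0,0),(18,1)]⟩,⟨0,[]⟩⟩,⟨false,0,⟨0,[(0,0),(3,0),(11,0),(31,1)]⟩,⟨1,[(10,1),(21,0),(2,0),
  (3,0)]⟩⟩,⟨true,0,⟨0,[(48,0)]⟩,⟨0,[(47,0)]⟩⟩,⟨false,0,⟨0,[(0,0),(3,0),(11,0),(31,2)]⟩,⟨29,[(5,13),
  (4,13),(0,17),(8,1),(2,3),(5,0),(1,7),(0,14),(2,11)]⟩⟩,[.o ⟨false,0,⟨0,[(36,0),(11,0)]⟩,⟨0,[(20,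
  0),(29,0)]⟩⟩,.a ⟨true,0,⟨5,[(5,0),(1,4),(4,3),(3,1),(15,0)]⟩,⟨1,[(4,0),(0,0),(16,0)]⟩⟩ ⟨false,1,
  ⟨4,[(10,2),(1,0),(4,1),(13,0),(16,2)]⟩,⟨1,[(0,1),(3,0),(2,0),(12,0),(26,0)]⟩⟩ ⟨true,0,⟨0,[(16,0),
  (31,1)]⟩,⟨7,[(5,3),(5,1),(3,1),(4,3),(9,0),(0,0),(0,3)]⟩⟩,.e ⟨false,1,⟨1,[(31,0),(18,0)]⟩,⟨0,[(0,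
  0),(3,0)]⟩⟩ ⟨false,0,⟨0,[(16,0),(31,1)]⟩,⟨1,[(11,0),(20,0),(2,0),(1,0),(12,0)]⟩⟩,.o ⟨false,0,⟨1,
  [(32,0),(2,0),(2,0)]⟩,⟨1,[(33,1),(9,0),(5,0)]⟩⟩]⟩) (.I [1,0,0,0,0,0,0,0,-1] (.N [0,0,0,1] 0 ⟨0,
  [(1,0),(11,0)]⟩ ⟨0,[(0,0)]⟩ .k) (.R ⟨1,false,false,true,[1,0,0,-1],[0,1,1],[0,0,0,0,0,0,0,0,-1],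
  (⟨1,[(6,0),(1,0),(24,0)]⟩,⟨0,[(34,0)]⟩),(⟨0,[(43,0),(2,0)]⟩,⟨0,[(25,0)]⟩),⟨3,[(2,0),(22,0),(7,1),
  (11,0)]⟩,.k,.k,(.r (-1) ⟨3,[(5,0),(18,0),(6,1)]⟩ ⟨5,[(8,0),(0,1),(3,2),(18,1),(2,0),(17,0)]⟩),(.r
  (-1) ⟨2,[(5,1),(9,0),(15,0)]⟩ ⟨19,[(13,11),(6,3),(10,0),(0,10)]⟩),(.r (-2) ⟨0,[(1,0),(29,0)]⟩ ⟨0,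
  [(0,0),(12,0)]⟩),.k,⟨true,1,⟨7,[(5,1),(1,1),(2,5),(20,0),(18,2)]⟩,⟨0,[(0,0),(12,0),(34,0)]⟩⟩,
  ⟨false,1,⟨0,[(5,0),(11,0),(15,0),(15,2)]⟩,⟨0,[(34,0),(1,0)]⟩⟩,⟨false,1,⟨3,[(31,0),(0,0),(18,1)]⟩,
  ⟨0,[]⟩⟩,⟨false,0,⟨0,[(0,0),(16,0),(15,0),(15,1)]⟩,⟨3,[(10,1),(1,1),(17,1),(0,0),(2,3),(9,0)]⟩⟩,
  ⟨true,0,⟨0,[(49,0)]⟩,⟨0,[(48,0)]⟩⟩,⟨false,0,⟨0,[(0,0),(16,0),(15,0),(15,2)]⟩,⟨10,[(3,1),(6,4),(1,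
  7),(4,3),(3,1),(8,1),(0,2),(2,6),(1,4)]⟩⟩,[.o ⟨false,0,⟨0,[(37,0),(11,0)]⟩,⟨0,[(21,0),(29,0)]⟩⟩,
  .a ⟨true,0,⟨5,[(6,0),(1,4),(4,3),(3,1),(15,0)]⟩,⟨1,[(5,0),(0,0),(16,0)]⟩⟩ ⟨false,1,⟨0,[(15,0),(2,
  0)]⟩,⟨0,[(0,0),(52,0)]⟩⟩ ⟨true,0,⟨0,[(17,0),(15,0),(15,1)]⟩,⟨6,[(6,0),(5,0),(3,2),(0,0),(3,3),(12,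
  5),(1,2)]⟩⟩,.e ⟨false,1,⟨1,[(31,0),(19,0)]⟩,⟨0,[(0,0)]⟩⟩ ⟨false,0,⟨0,[(17,0),(15,0),(15,1)]⟩,⟨0,
  [(21,0),(12,0),(16,0)]⟩⟩,.o ⟨false,0,⟨2,[(13,0),(2,0),(0,0),(3,0),(12,1),(9,0)]⟩,⟨7,[(31,0),(0,0),
  (0,3),(10,1),(5,3)]⟩⟩]⟩))))))) (.Q [0,-1,0,2,0,0,1,1,0,1,-1] (.p false [0,0,1] [1] (⟨0,[(37,0)]⟩,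
  ⟨0,[(36,0)]⟩) .k 1 (⟨0,[]⟩,⟨0,[]⟩) .k .k) (.R ⟨1,false,false,false,[1,-1],[0,0,1],[0,0,1],(⟨0,
  [(40,0)]⟩,⟨0,[(41,0)]⟩),(⟨0,[(38,0)]⟩,⟨0,[(37,0)]⟩),⟨0,[(17,0),(2,0)]⟩,.k,.k,(.r (-1) ⟨3,[(2,1),
  (0,0),(12,0),(2,0),(23,0)]⟩ ⟨5,[(8,3),(1,3),(15,0),(0,2)]⟩),.k,(.x 0 ⟨1,[(17,0),(2,2),(10,2),(2,
  0)]⟩ ⟨0,[(1,0),(36,0),(2,1)]⟩),.k,⟨true,0,⟨1,[(11,0),(21,0),(0,0)]⟩,⟨9,[(8,1),(6,3),(10,0),(0,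
  0)]⟩⟩,⟨false,1,⟨0,[(3,0)]⟩,⟨0,[(31,0)]⟩⟩,⟨false,0,⟨7,[(8,3),(2,3),(14,0),(0,0),(6,1),(0,1),(10,
  1)]⟩,⟨4,[(2,0),(0,0),(12,0),(2,0),(25,1)]⟩⟩,⟨true,0,⟨3,[(0,0),(2,1),(4,1),(5,0),(22,0),(0,0)]⟩,⟨0,
  [(16,0)]⟩⟩,⟨false,0,⟨15,[(4,1),(3,11),(1,7),(13,1),(2,2),(18,6)]⟩,⟨3,[(2,1),(0,0),(12,0),(2,0),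
  (23,0)]⟩⟩,⟨false,0,⟨0,[(0,0)]⟩,⟨15,[(7,9),(6,1),(1,7),(9,2),(0,2),(3,7),(3,1)]⟩⟩,[.a ⟨true,0,⟨1,
  [(0,0),(13,0),(22,0),(0,0)]⟩,⟨0,[(18,0)]⟩⟩ ⟨true,0,⟨1,[(34,0),(0,0)]⟩,⟨0,[]⟩⟩ ⟨false,1,⟨9,[(3,9),
  (4,1),(6,3),(10,0),(0,0)]⟩,⟨1,[(11,0),(18,0),(0,0)]⟩⟩,.o ⟨false,1,⟨0,[(32,0),(13,0)]⟩,⟨0,[(30,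
  0)]⟩⟩,.o ⟨false,0,⟨0,[(23,0),(10,0)]⟩,⟨3,[(26,0),(0,0),(17,1)]⟩⟩,.o ⟨false,0,⟨0,[(31,0),(2,0)]⟩,
  ⟨0,[(45,0)]⟩⟩]⟩) (.Q [0,0,0,0,0,2,0,0,0,-1,1] (.p true [0,0,1] [1] (⟨0,[(38,0)]⟩,⟨0,[(37,0)]⟩) .k
  1 (⟨0,[]⟩,⟨0,[]⟩) .k .k) (.R ⟨0,false,false,false,[1,-1,-1],[0,0,1],[1],(⟨0,[(21,0)]⟩,⟨0,[(39,0),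
  (2,0)]⟩),(⟨0,[(39,0)]⟩,⟨0,[(38,0)]⟩),⟨0,[(0,0)]⟩,.k,.k,(.x 0 ⟨1,[(18,0),(2,2),(10,2),(2,0)]⟩ ⟨0,
  [(0,0),(3,0)]⟩),(.r (-1) ⟨0,[(4,0),(7,0),(4,0)]⟩ ⟨4,[(9,3),(6,2),(10,1),(0,1)]⟩),.k,.k,⟨false,1,
  ⟨0,[(25,0)]⟩,⟨0,[(37,0)]⟩⟩,⟨true,1,⟨0,[(4,0),(30,0)]⟩,⟨2,[(1,1),(7,2),(2,1),(3,1),(2,2),(4,0)]⟩⟩,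
  ⟨false,0,⟨19,[(9,11),(6,3),(10,0),(0,0),(18,9)]⟩,⟨1,[(1,3),(1,1),(1,0),(0,0),(6,7),(5,3),(9,3),
  (15,17)]⟩⟩,⟨true,0,⟨1,[(2,0),(1,0),(4,1),(3,1),(15,0)]⟩,⟨0,[(17,0),(1,0)]⟩⟩,⟨false,0,⟨0,[]⟩,⟨0,
  []⟩⟩,⟨false,0,⟨0,[]⟩,⟨0,[]⟩⟩,[.a ⟨true,0,⟨2,[(4,0),(4,0),(3,1),(15,0),(8,0),(0,0)]⟩,⟨0,[(19,0)]⟩⟩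
  ⟨true,0,⟨0,[]⟩,⟨1,[(35,0),(0,0)]⟩⟩ ⟨false,1,⟨2,[(2,1),(1,1),(4,0),(3,1),(15,0)]⟩,⟨0,[(19,0),(12,
  0)]⟩⟩,.o ⟨false,1,⟨0,[(33,0),(13,0)]⟩,⟨0,[(31,0)]⟩⟩,.o ⟨false,0,⟨0,[(32,0)]⟩,⟨2,[(4,1),(30,0),(4,
  0)]⟩⟩,.o ⟨false,0,⟨1,[(32,1),(2,0),(0,0)]⟩,⟨0,[(2,0)]⟩⟩]⟩) (.I [0,0,1,0,0,-1,2] (.Q [0,0,1,0,0,0,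
  2,0,0,1,-2] (.p false [0,0,1] [1,0,-1] (⟨0,[(40,0)]⟩,⟨0,[(39,0)]⟩) .k 2 (⟨0,[(39,0)]⟩,⟨0,[(40,
  0)]⟩) .k (.r 0 ⟨4,[(10,1),(6,3),(10,0),(0,0)]⟩ ⟨2,[(6,0),(5,0),(10,0),(2,1),(8,0),(0,0)]⟩)) (.K
  ⟨2,[1,1,-1],0,0,(⟨0,[(40,0),(3,0)]⟩,⟨0,[(20,0)]⟩),.k,.k,(.r 0 ⟨18,[(0,1),(6,3),(3,6),(1,17),(16,
  6),(2,1),(2,1),(10,5)]⟩ ⟨0,[(22,0)]⟩),(.x (-1) ⟨1,[(28,1),(11,3),(1,0),(1,1),(3,0)]⟩ ⟨0,[(1,0)]⟩),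
  .k,[⟨0,[(0,0)]⟩,⟨0,[(26,0)]⟩,⟨2,[(6,0),(4,0),(5,1),(22,1),(0,1),(4,0)]⟩,⟨0,[(33,0),(13,0)]⟩]⟩)
  (.I [0,0,2,2,-1,0,0,1] (.I [0,0,2,2,-1,0,0,1,1] (.Q [0,0,0,0,0,0,0,0,-1,0,0,1] (.p true [0,0,0,1]
  [] (⟨0,[(34,0)]⟩,⟨1,[(33,0),(8,0),(0,0)]⟩) .k 0 (⟨0,[]⟩,⟨0,[]⟩) .k .k) (.Q [0,0,0,0,0,0,0,0,1,1,0,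
  -1] (.p false [0,0,0,1] [1] (⟨0,[(35,0)]⟩,⟨1,[(34,0),(8,0),(0,0)]⟩) .k 1 (⟨0,[]⟩,⟨0,[]⟩) .k .k)
  (.R ⟨2,false,false,false,[0,1],[0,0,0,1],[1,1,1],(⟨0,[]⟩,⟨0,[]⟩),(⟨0,[(36,0)]⟩,⟨1,[(0,0),(0,0),
  (33,0)]⟩),⟨0,[]⟩,.k,.k,.k,(.r 0 ⟨2,[(15,0),(1,0),(15,0)]⟩ ⟨4,[(14,0),(1,0),(9,0),(7,1)]⟩),.k,.k,
  ⟨false,0,⟨1,[(1,1),(33,0),(1,0),(1,0)]⟩,⟨57,[(2,15),(1,9),(3,9),(1,9),(2,23),(6,7),(13,8),(18,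
  12)]⟩⟩,⟨true,0,⟨1,[(35,0),(2,0),(2,0)]⟩,⟨0,[(36,0)]⟩⟩,⟨true,0,⟨0,[(50,0)]⟩,⟨0,[(51,0)]⟩⟩,⟨false,1,
  ⟨47,[(9,11),(1,17),(9,9),(0,3),(11,14),(0,23),(2,9),(7,6),(6,13)]⟩,⟨0,[(1,0),(49,0)]⟩⟩,⟨false,0,
  ⟨0,[]⟩,⟨3,[(33,0),(0,0),(18,1)]⟩⟩,⟨false,1,⟨15,[(2,1),(8,1),(1,1),(6,1),(13,4),(0,7),(10,3),(6,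
  4)]⟩,⟨0,[(1,0)]⟩⟩,[.a ⟨true,0,⟨0,[(0,0)]⟩,⟨0,[(1,0)]⟩⟩ ⟨false,0,⟨0,[(55,0)]⟩,⟨1,[(52,0),(0,0)]⟩⟩
  ⟨true,0,⟨5,[(2,1),(4,0),(3,1),(9,0),(12,0),(0,2),(10,0)]⟩,⟨0,[(1,0)]⟩⟩,.o ⟨false,1,⟨15,[(2,1),(8,
  1),(1,1),(6,1),(13,4),(0,7),(10,3),(6,4)]⟩,⟨0,[(1,0),(5,0),(0,0),(6,0)]⟩⟩,.o ⟨false,1,⟨3,[(33,0),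
  (0,0),(17,1)]⟩,⟨0,[(30,0),(10,0)]⟩⟩,.e ⟨false,0,⟨0,[]⟩,⟨3,[(33,0),(0,0),(18,1)]⟩⟩ ⟨false,1,⟨15,
  [(2,1),(8,1),(1,1),(6,1),(13,4),(0,7),(10,3),(6,4)]⟩,⟨0,[(1,0)]⟩⟩]⟩) (.R ⟨2,true,false,false,[0,
  1],[1,0,0,-1],[1,1,1],(⟨0,[]⟩,⟨0,[]⟩),(⟨1,[(35,0),(8,0),(0,0)]⟩,⟨0,[(36,0)]⟩),⟨0,[]⟩,.k,.k,.k,(.r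
  0 ⟨26,[(2,10),(5,1),(2,2),(5,4),(16,8),(5,2),(0,0)]⟩ ⟨5,[(7,0),(1,0),(0,0),(15,0),(6,2)]⟩),.k,.k,
  ⟨false,0,⟨0,[(2,0),(4,0),(2,0)]⟩,⟨25,[(4,5),(3,5),(1,5),(1,11),(2,3),(4,7),(12,6),(19,2)]⟩⟩,⟨true,
  0,⟨6,[(0,3),(1,0),(8,0),(7,0),(3,0),(10,0),(1,1),(1,1),(2,1)]⟩,⟨1,[(35,0),(8,0),(0,0)]⟩⟩,⟨true,0,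
  ⟨0,[(50,0)]⟩,⟨0,[(51,0)]⟩⟩,⟨false,1,⟨11,[(0,7),(13,3),(4,3),(13,2),(0,0),(3,3),(14,3)]⟩,⟨0,[(2,0),
  (5,0),(10,0),(5,1),(9,0)]⟩⟩,⟨false,0,⟨0,[]⟩,⟨3,[(33,0),(0,0),(18,1)]⟩⟩,⟨true,0,⟨0,[(0,0)]⟩,⟨1,[(2,
  1),(4,0),(2,1),(10,0),(3,1),(9,0)]⟩⟩,[]⟩)) (.I [1,1,0,0,0,0,0,0,-1] (.Q [0,0,0,0,0,-1,0,0,0,0,0,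
  1] (.p true [0,0,0,1] [] (⟨0,[(36,0)]⟩,⟨1,[(35,0),(8,0),(0,0)]⟩) .k 0 (⟨0,[]⟩,⟨0,[]⟩) .k .k) (.R
  ⟨1,false,false,false,[0,0,0,1],[1,-1],[0,0,0,0,0,0,0,0,1],(⟨0,[(37,0)]⟩,⟨1,[(36,0),(8,0),(0,0)]⟩),
  (⟨0,[(48,0)]⟩,⟨0,[(49,0)]⟩),⟨0,[(0,0)]⟩,.k,.k,(.r (-1) ⟨4,[(15,0),(1,0),(9,0),(7,1)]⟩ ⟨2,[(16,0),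
  (1,0),(15,0)]⟩),(.r 0 ⟨26,[(3,10),(5,1),(2,2),(5,4),(16,8),(5,2),(0,0)]⟩ ⟨5,[(8,0),(1,0),(0,0),
  (15,0),(6,2)]⟩),.k,.k,⟨false,0,⟨1,[(2,0),(0,0),(5,0),(16,0),(10,0)]⟩,⟨5,[(8,0),(1,0),(0,0),(15,0),
  (6,2)]⟩⟩,⟨true,0,⟨2,[(16,0),(2,0),(0,0),(3,0),(12,1),(9,0)]⟩,⟨1,[(36,0),(8,0),(0,0)]⟩⟩,⟨false,1,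
  ⟨3,[(34,0),(0,0),(18,1)]⟩,⟨0,[]⟩⟩,⟨false,1,⟨31,[(5,7),(7,13),(1,5),(4,19),(12,1),(0,8),(2,11),(9,
  10),(6,5)]⟩,⟨3,[(2,1),(0,1),(7,1),(14,1),(9,0),(8,0),(0,0)]⟩⟩,⟨true,0,⟨0,[(52,0)]⟩,⟨0,[(51,0)]⟩⟩,
  ⟨false,1,⟨26,[(5,0),(3,1),(3,14),(2,4),(4,9),(12,5),(2,26),(9,12),(6,0)]⟩,⟨0,[(2,0),(42,0),(0,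
  0)]⟩⟩,[.o ⟨false,1,⟨15,[(15,3),(6,3),(11,2),(0,2),(3,3),(7,5)]⟩,⟨0,[(52,0)]⟩⟩,.o ⟨false,1,⟨11,
  [(10,1),(4,1),(6,1),(16,1),(7,4),(2,3),(3,2)]⟩,⟨1,[(9,0),(6,0),(24,0),(14,0)]⟩⟩,.a ⟨true,0,⟨1,
  [(36,0),(8,0),(0,0)]⟩,⟨0,[(37,0)]⟩⟩ ⟨true,0,⟨0,[(2,0),(34,0)]⟩,⟨0,[(1,0)]⟩⟩ ⟨false,1,⟨2,[(15,0),
  (4,0),(16,1),(1,0),(7,0),(6,0)]⟩,⟨1,[(11,0),(4,0),(9,0),(9,0)]⟩⟩,.o ⟨false,0,⟨1,[(36,0),(2,0),(2,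
  0)]⟩,⟨1,[(37,1),(9,0),(5,0)]⟩⟩]⟩) (.R ⟨0,false,false,true,[0,0,0,1],[0,0,1],[0,1,1,0,0,0,0,1],(⟨0,
  [(37,0)]⟩,⟨1,[(36,0),(8,0),(0,0)]⟩),(⟨0,[(46,0)]⟩,⟨0,[(45,0)]⟩),⟨0,[(0,0)]⟩,.k,.k,(.r (-1) ⟨4,
  [(15,0),(1,0),(9,0),(7,1)]⟩ ⟨2,[(16,0),(1,0),(15,0)]⟩),.k,.k,.k,⟨true,0,⟨1,[(42,0),(0,0)]⟩,⟨0,
  []⟩⟩,⟨false,1,⟨2,[(11,1),(25,2),(4,0),(4,0)]⟩,⟨1,[(33,0),(2,0)]⟩⟩,⟨false,0,⟨27,[(13,5),(2,10),(5,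
  6),(0,7),(10,10),(8,6),(6,0)]⟩,⟨0,[(14,0),(37,0)]⟩⟩,⟨true,0,⟨2,[(1,2),(7,0),(6,0),(3,1),(16,0)]⟩,
  ⟨0,[(2,0),(23,0)]⟩⟩,⟨false,0,⟨0,[]⟩,⟨0,[]⟩⟩,⟨false,0,⟨0,[]⟩,⟨0,[]⟩⟩,[.o ⟨false,0,⟨0,[(40,0)]⟩,⟨1,
  [(26,1),(20,0),(6,0)]⟩⟩,.a ⟨true,0,⟨2,[(11,0),(4,0),(3,1),(15,0),(8,0),(0,0)]⟩,⟨0,[(26,0)]⟩⟩
  ⟨false,0,⟨0,[(44,0)]⟩,⟨0,[(32,0)]⟩⟩ ⟨true,0,⟨2,[(9,0),(6,0),(3,1),(16,0)]⟩,⟨1,[(19,0),(16,0),(2,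
  0),(1,0)]⟩⟩,.e ⟨false,0,⟨59,[(16,23),(5,19),(0,7),(10,6),(0,6),(7,19),(10,9)]⟩,⟨2,[(9,1),(9,0),(6,
  1),(27,0)]⟩⟩ ⟨false,0,⟨2,[(9,0),(6,0),(3,1),(16,0)]⟩,⟨3,[(26,1),(9,1),(4,1),(5,0),(6,2)]⟩⟩,.o
  ⟨false,0,⟨1,[(36,0),(2,0),(2,0)]⟩,⟨1,[(37,1),(9,0),(5,0)]⟩⟩]⟩)) (.Q [0,1,0,0,0,0,0,0,-1,0,0,1]
  (.p true [0,0,0,1] [] (⟨0,[(36,0)]⟩,⟨1,[(35,0),(8,0),(0,0)]⟩) .k 0 (⟨0,[]⟩,⟨0,[]⟩) .k .k) (.K ⟨1,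
  [0,0,0,1],0,0,(⟨0,[(37,0)]⟩,⟨1,[(36,0),(8,0),(0,0)]⟩),.k,(.r (-1) ⟨4,[(15,0),(1,0),(9,0),(7,1)]⟩
  ⟨2,[(16,0),(1,0),(15,0)]⟩),(.r 0 ⟨26,[(3,10),(5,1),(2,2),(5,4),(16,8),(5,2),(0,0)]⟩ ⟨5,[(8,0),(1,
  0),(0,0),(15,0),(6,2)]⟩),.k,.k,[⟨1,[(37,1),(4,0),(0,0)]⟩,⟨1,[(36,0),(2,0),(2,0)]⟩,⟨0,[(0,0)]⟩,⟨1,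
  [(1,1),(34,0),(8,0),(0,0)]⟩]⟩) (.Q [0,0,0,1,0,0,1,1,0,0,-1] (.p false [0,0,1] [] (⟨0,[(46,0)]⟩,⟨0,
  [(45,0)]⟩) .k 0 (⟨0,[]⟩,⟨0,[]⟩) .k .k) (.R ⟨1,false,false,false,[1,0,0,-1],[0,1,1],[0,0,0,0,0,0,0,
  0,-1],(⟨1,[(37,0),(8,0),(0,0)]⟩,⟨0,[(38,0)]⟩),(⟨0,[(47,0),(2,0)]⟩,⟨0,[(29,0)]⟩),⟨3,[(8,0),(17,0),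
  (10,1),(11,0)]⟩,.k,.k,(.r (-1) ⟨5,[(9,0),(1,0),(0,0),(15,0),(6,2)]⟩ ⟨26,[(4,10),(5,1),(2,2),(5,4),
  (16,8),(5,2),(0,0)]⟩),(.r (-1) ⟨6,[(9,0),(1,0),(0,3),(1,2),(10,2),(9,1)]⟩ ⟨19,[(17,11),(6,3),(10,
  0),(0,10)]⟩),(.r (-2) ⟨5,[(9,0),(1,0),(0,0),(15,0),(1,5),(4,2)]⟩ ⟨0,[(4,0)]⟩),.k,⟨true,1,⟨6,[(9,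
  0),(1,0),(0,3),(1,2),(10,2),(9,1)]⟩,⟨1,[(2,0),(1,0),(12,0),(5,0),(3,0)]⟩⟩,⟨false,1,⟨1,[(10,0),(1,
  0),(24,0)]⟩,⟨0,[(38,0),(1,0)]⟩⟩,⟨false,1,⟨3,[(35,0),(0,0),(18,1)]⟩,⟨0,[]⟩⟩,⟨false,0,⟨4,[(0,1),(1,
  4),(9,1),(4,1),(3,0),(15,2)]⟩,⟨1,[(25,1),(9,0),(2,1),(16,0)]⟩⟩,⟨true,0,⟨0,[(53,0)]⟩,⟨0,[(52,0)]⟩⟩,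
  ⟨false,0,⟨0,[(1,0),(10,0),(4,0)]⟩,⟨1,[(9,0),(6,0),(18,0),(2,1),(1,0)]⟩⟩,[.o ⟨false,0,⟨0,[(0,0)]⟩,
  ⟨0,[(30,0),(9,0)]⟩⟩,.o ⟨false,1,⟨3,[(0,3),(34,0),(0,0),(18,1)]⟩,⟨0,[(25,0)]⟩⟩,.a ⟨true,0,⟨0,[(38,
  0)]⟩,⟨1,[(37,0),(8,0),(0,0)]⟩⟩ ⟨false,1,⟨1,[(35,0),(19,0)]⟩,⟨0,[(2,0),(54,0)]⟩⟩ ⟨true,0,⟨4,[(0,1),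
  (11,1),(4,1),(3,0),(15,2)]⟩,⟨0,[(25,0),(12,0)]⟩⟩,.o ⟨false,0,⟨2,[(17,0),(2,0),(0,0),(3,0),(12,1),
  (9,0)]⟩,⟨7,[(35,0),(0,0),(0,3),(10,1),(5,3)]⟩⟩]⟩) (.R ⟨1,false,false,true,[1,0,0,-1],[0,1,1],[0,1,
  0,0,0,0,0,0,-1],(⟨1,[(37,0),(8,0),(0,0)]⟩,⟨0,[(38,0)]⟩),(⟨0,[(47,0),(2,0)]⟩,⟨0,[(29,0)]⟩),⟨3,[(8,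
  0),(17,0),(10,1),(11,0)]⟩,.k,.k,(.r (-1) ⟨5,[(9,0),(1,0),(0,0),(15,0),(6,2)]⟩ ⟨26,[(4,10),(5,1),
  (2,2),(5,4),(16,8),(5,2),(0,0)]⟩),(.r (-1) ⟨6,[(9,0),(1,0),(0,3),(1,2),(10,2),(9,1)]⟩ ⟨19,[(17,
  11),(6,3),(10,0),(0,10)]⟩),(.r (-2) ⟨5,[(9,0),(1,0),(0,0),(15,0),(1,5),(4,2)]⟩ ⟨0,[(4,0)]⟩),.k,
  ⟨true,1,⟨6,[(9,0),(1,0),(0,3),(1,2),(10,2),(9,1)]⟩,⟨2,[(0,0),(1,0),(1,1),(12,0),(5,0)]⟩⟩,⟨false,1,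
  ⟨1,[(10,0),(1,0),(24,0)]⟩,⟨0,[(38,0),(1,0)]⟩⟩,⟨true,0,⟨0,[(57,0)]⟩,⟨0,[]⟩⟩,⟨false,0,⟨5,[(1,1),(2,
  3),(7,3),(10,0),(13,1),(3,0)]⟩,⟨3,[(14,1),(1,1),(17,1),(0,0),(2,3),(9,0)]⟩⟩,⟨false,0,⟨0,[(53,0)]⟩,
  ⟨7,[(16,1),(6,1),(11,0),(0,0),(7,1),(10,3)]⟩⟩,⟨false,0,⟨1,[(4,1),(5,0),(1,0),(24,0)]⟩,⟨11,[(9,1),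
  (4,5),(1,7),(4,3),(12,5),(0,2),(2,7),(1,1),(7,0)]⟩⟩,[.o ⟨false,0,⟨1,[(10,0),(6,0),(23,0),(15,0)]⟩,
  ⟨0,[(25,0),(29,0)]⟩⟩,.a ⟨true,0,⟨5,[(12,3),(4,3),(3,1),(15,0),(8,0),(0,0)]⟩,⟨0,[(0,0)]⟩⟩ ⟨false,1,
  ⟨1,[(35,0),(18,0)]⟩,⟨0,[(2,0),(54,0)]⟩⟩ ⟨true,0,⟨2,[(10,0),(1,0),(4,1),(3,0),(15,1)]⟩,⟨1,[(9,0),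
  (10,0),(17,1),(1,0)]⟩⟩,.e ⟨false,1,⟨3,[(35,2),(0,0)]⟩,⟨0,[(2,0)]⟩⟩ ⟨false,0,⟨2,[(10,0),(1,0),(4,
  1),(3,0),(15,1)]⟩,⟨0,[(25,0),(12,0),(16,0)]⟩⟩,.o ⟨false,0,⟨2,[(17,0),(2,0),(0,0),(3,0),(12,1),(9,
  0)]⟩,⟨7,[(35,0),(0,0),(0,3),(10,1),(5,3)]⟩⟩]⟩))))) (.Q [0,0,0,1,0,0,0,0,1,1,0,-1] (.p false [0,0,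
  0,1] [1] (⟨0,[(34,0)]⟩,⟨1,[(33,0),(8,0),(0,0)]⟩) .k 1 (⟨0,[]⟩,⟨0,[]⟩) .k .k) (.R ⟨1,false,false,
  false,[1,0,0,-1],[1,-1],[0,0,0,0,0,0,0,0,-1],(⟨1,[(34,0),(8,0),(0,0)]⟩,⟨0,[(35,0)]⟩),(⟨0,[(46,
  0)]⟩,⟨0,[(47,0)]⟩),⟨3,[(5,0),(17,0),(10,1),(11,0)]⟩,.k,.k,(.r (-1) ⟨6,[(1,0),(23,1),(1,0),(4,2)]⟩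
  ⟨5,[(7,0),(2,1),(3,2),(18,1),(5,0),(14,0)]⟩),(.r 0 ⟨2,[(14,0),(1,0),(15,0)]⟩ ⟨4,[(13,0),(1,0),(9,
  0),(7,1)]⟩),.k,.k,⟨false,0,⟨0,[(1,0),(12,0),(35,0)]⟩,⟨4,[(13,0),(1,0),(9,0),(7,1)]⟩⟩,⟨true,0,⟨1,
  [(34,0),(2,0),(2,0)]⟩,⟨0,[(35,0)]⟩⟩,⟨false,1,⟨3,[(32,0),(0,0),(18,1)]⟩,⟨0,[]⟩⟩,⟨false,1,⟨47,[(8,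
  11),(1,17),(9,9),(0,3),(11,14),(0,23),(2,9),(7,6),(6,13)]⟩,⟨0,[(1,0),(12,0),(20,0),(14,0)]⟩⟩,
  ⟨true,0,⟨0,[(50,0)]⟩,⟨0,[(49,0)]⟩⟩,⟨false,1,⟨14,[(0,0),(9,3),(3,0),(4,2),(13,4),(0,6),(10,3),(6,
  3)]⟩,⟨0,[(1,0),(12,0),(20,0)]⟩⟩,[.o ⟨false,1,⟨15,[(13,3),(6,3),(11,2),(0,2),(3,3),(7,5)]⟩,⟨0,[(50,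
  0)]⟩⟩,.o ⟨false,1,⟨11,[(8,1),(4,1),(6,1),(16,1),(7,4),(2,3),(3,2)]⟩,⟨1,[(7,0),(6,0),(24,0),(14,
  0)]⟩⟩,.a ⟨true,0,⟨0,[(35,0)]⟩,⟨1,[(34,0),(8,0),(0,0)]⟩⟩ ⟨true,0,⟨0,[(1,0),(0,0)]⟩,⟨0,[(0,0),(17,
  0),(17,0)]⟩⟩ ⟨false,1,⟨15,[(13,3),(6,3),(11,0),(0,0),(0,7),(2,3),(7,1),(6,7)]⟩,⟨0,[(35,0),(14,
  0)]⟩⟩,.o ⟨false,0,⟨2,[(14,0),(2,0),(0,0),(3,0),(12,1),(9,0)]⟩,⟨7,[(32,0),(0,0),(0,3),(10,1),(5,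
  3)]⟩⟩]⟩) (.Q [0,-1,0,0,0,0,0,0,-1,0,0,1] (.p true [0,0,0,1] [] (⟨0,[(35,0)]⟩,⟨1,[(34,0),(8,0),(0,
  0)]⟩) .k 0 (⟨0,[]⟩,⟨0,[]⟩) .k .k) (.Q [0,1,0,0,0,0,0,0,1,1,0,-1] (.p false [0,0,0,1] [1] (⟨0,[(36,
  0)]⟩,⟨1,[(35,0),(8,0),(0,0)]⟩) .k 1 (⟨0,[]⟩,⟨0,[]⟩) .k .k) (.K ⟨1,[1,0,0,-1],0,0,(⟨1,[(36,0),(8,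
  0),(0,0)]⟩,⟨0,[(37,0)]⟩),.k,(.r (-1) ⟨6,[(3,0),(23,1),(1,0),(4,2)]⟩ ⟨5,[(9,0),(2,1),(3,2),(18,1),
  (5,0),(14,0)]⟩),(.r 0 ⟨2,[(16,0),(1,0),(15,0)]⟩ ⟨4,[(15,0),(1,0),(9,0),(7,1)]⟩),.k,.k,[⟨7,[(6,1),
  (29,3),(5,0),(0,4),(1,3),(3,1)]⟩,⟨5,[(2,2),(9,0),(3,1),(7,0),(10,0),(1,2),(4,0),(4,0)]⟩,⟨0,[(0,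
  0)]⟩,⟨0,[(1,0)]⟩]⟩) (.Q [0,1,0,-1,0,0,0,0,0,-1] (.pp true [-1,1]) (.R ⟨1,false,false,true,[1,0,0,
  -1],[1,-1],[0,0,0,0,0,0,0,0,-1],(⟨1,[(37,0),(8,0),(0,0)]⟩,⟨0,[(38,0)]⟩),(⟨0,[(49,0)]⟩,⟨0,[(50,
  0)]⟩),⟨3,[(8,0),(17,0),(10,1),(11,0)]⟩,.k,.k,(.r (-1) ⟨6,[(4,0),(23,1),(1,0),(4,2)]⟩ ⟨5,[(10,0),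
  (2,1),(3,2),(18,1),(5,0),(14,0)]⟩),(.r 0 ⟨2,[(17,0),(1,0),(15,0)]⟩ ⟨4,[(16,0),(1,0),(9,0),(7,
  1)]⟩),.k,.k,⟨false,0,⟨1,[(1,0),(0,0),(34,0),(15,1)]⟩,⟨7,[(18,3),(16,0),(0,2),(15,3)]⟩⟩,⟨true,0,⟨1,
  [(37,0),(2,0),(2,0)]⟩,⟨0,[(38,0)]⟩⟩,⟨false,1,⟨3,[(35,0),(0,0),(18,1)]⟩,⟨0,[]⟩⟩,⟨false,1,⟨15,[(16,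
  3),(6,3),(11,0),(0,8),(0,7),(2,3),(7,1)]⟩,⟨0,[(2,0),(50,0)]⟩⟩,⟨true,0,⟨0,[(53,0)]⟩,⟨0,[(52,0)]⟩⟩,
  ⟨false,1,⟨7,[(35,0),(0,4),(0,3),(10,1)]⟩,⟨0,[(2,0)]⟩⟩,[.o ⟨false,0,⟨0,[(0,0)]⟩,⟨7,[(17,3),(15,3),
  (1,0),(0,0),(17,1),(0,3)]⟩⟩,.o ⟨false,1,⟨15,[(16,3),(6,3),(11,2),(0,2),(3,3),(7,5)]⟩,⟨0,[(53,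
  0)]⟩⟩,.a ⟨true,0,⟨0,[(38,0)]⟩,⟨1,[(37,0),(8,0),(0,0)]⟩⟩ ⟨false,0,⟨1,[(1,0),(0,0),(34,0)]⟩,⟨3,[(35,
  0),(0,2)]⟩⟩ ⟨true,0,⟨1,[(0,0),(36,0),(14,0)]⟩,⟨0,[(38,0),(14,0)]⟩⟩,.o ⟨false,0,⟨5,[(3,2),(9,0),(3,
  1),(7,0),(10,0),(1,2),(4,0),(4,0)]⟩,⟨7,[(35,0),(0,0),(0,3),(10,1),(5,3)]⟩⟩]⟩) (.R ⟨1,false,false,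
  true,[1,0,0,-1],[1,-1],[1,0,0,-1,0,0,0,0,-1],(⟨1,[(0,0),(36,0),(14,0)]⟩,⟨0,[(38,0)]⟩),(⟨0,[(49,
  0)]⟩,⟨0,[(50,0)]⟩),⟨3,[(8,0),(17,0),(10,1),(11,0)]⟩,.k,.k,(.r (-1) ⟨6,[(4,0),(23,1),(1,0),(4,2)]⟩
  ⟨5,[(10,0),(2,1),(3,2),(18,1),(5,0),(14,0)]⟩),(.r 0 ⟨2,[(17,0),(1,0),(15,0)]⟩ ⟨4,[(16,0),(1,0),(9,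
  0),(7,1)]⟩),.k,.k,⟨false,0,⟨1,[(1,0),(0,0),(34,0)]⟩,⟨15,[(12,3),(4,3),(0,7),(16,0),(0,4),(5,3),(5,
  1),(8,3)]⟩⟩,⟨true,0,⟨1,[(37,0),(2,0),(2,0)]⟩,⟨0,[(38,0)]⟩⟩,⟨false,1,⟨7,[(16,1),(6,1),(11,0),(0,0),
  (7,1),(10,3)]⟩,⟨0,[(53,0)]⟩⟩,⟨false,1,⟨15,[(16,3),(6,3),(11,0),(0,8),(0,7),(2,3),(7,1)]⟩,⟨0,[(2,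
  0),(50,0)]⟩⟩,⟨true,0,⟨0,[]⟩,⟨0,[(57,0)]⟩⟩,⟨false,1,⟨7,[(35,0),(0,4),(0,3),(10,1)]⟩,⟨0,[(2,0)]⟩⟩,
  [.e ⟨true,0,⟨1,[(2,0),(0,0),(33,0),(14,0)]⟩,⟨5,[(10,0),(2,1),(3,2),(18,1),(5,0),(14,0)]⟩⟩ ⟨true,0,
  ⟨3,[(23,0),(1,1),(11,1),(3,0)]⟩,⟨5,[(0,0),(0,0),(0,2),(10,0),(3,1),(1,0),(16,1),(1,1)]⟩⟩,.o
  ⟨false,1,⟨15,[(16,3),(6,3),(11,2),(0,2),(3,3),(7,5)]⟩,⟨0,[(53,0)]⟩⟩,.a ⟨true,0,⟨0,[(38,0)]⟩,⟨1,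
  [(0,0),(36,0),(14,0)]⟩⟩ ⟨false,0,⟨3,[(0,1),(0,2),(0,0),(6,1),(11,1),(15,2)]⟩,⟨7,[(17,3),(15,3),(1,
  0),(0,4),(17,1)]⟩⟩ ⟨true,0,⟨3,[(23,0),(1,1),(11,1),(3,0)]⟩,⟨0,[(38,0),(14,0)]⟩⟩,.o ⟨false,0,⟨5,
  [(3,2),(9,0),(3,1),(7,0),(10,0),(1,2),(4,0),(4,0)]⟩,⟨7,[(35,0),(0,0),(0,3),(10,1),(5,3)]⟩⟩]⟩)))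
  (.R ⟨1,false,false,false,[1,0,0,-1],[1,-1],[0,0,0,0,0,0,0,0,-1],(⟨1,[(35,0),(8,0),(0,0)]⟩,⟨0,[(36,
  0)]⟩),(⟨0,[(47,0)]⟩,⟨0,[(48,0)]⟩),⟨3,[(6,0),(17,0),(10,1),(11,0)]⟩,.k,.k,(.r (-1) ⟨6,[(2,0),(23,
  1),(1,0),(4,2)]⟩ ⟨5,[(8,0),(2,1),(3,2),(18,1),(5,0),(14,0)]⟩),(.r 0 ⟨2,[(15,0),(1,0),(15,0)]⟩ ⟨4,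
  [(14,0),(1,0),(9,0),(7,1)]⟩),.k,.k,⟨false,0,⟨0,[(2,0),(12,0),(35,0)]⟩,⟨4,[(14,0),(1,0),(9,0),(7,
  1)]⟩⟩,⟨true,0,⟨1,[(35,0),(2,0),(2,0)]⟩,⟨0,[(36,0)]⟩⟩,⟨false,1,⟨3,[(33,0),(0,0),(18,1)]⟩,⟨0,[]⟩⟩,
  ⟨false,1,⟨47,[(9,11),(1,17),(9,9),(0,3),(11,14),(0,23),(2,9),(7,6),(6,13)]⟩,⟨0,[(1,0),(8,0),(4,0),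
  (9,0)]⟩⟩,⟨true,0,⟨0,[(51,0)]⟩,⟨0,[(50,0)]⟩⟩,⟨false,1,⟨0,[(0,0),(52,0)]⟩,⟨0,[(2,0),(12,0),(20,
  0)]⟩⟩,[.o ⟨false,1,⟨15,[(14,3),(6,3),(11,2),(0,2),(3,3),(7,5)]⟩,⟨0,[(51,0)]⟩⟩,.o ⟨false,1,⟨11,[(9,
  1),(4,1),(6,1),(16,1),(7,4),(2,3),(3,2)]⟩,⟨1,[(8,0),(6,0),(24,0),(14,0)]⟩⟩,.a ⟨true,0,⟨0,[(36,
  0)]⟩,⟨1,[(35,0),(8,0),(0,0)]⟩⟩ ⟨true,0,⟨0,[(2,0),(0,0)]⟩,⟨0,[(0,0),(35,0)]⟩⟩ ⟨false,1,⟨15,[(14,3),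
  (6,3),(11,0),(0,0),(0,7),(2,3),(7,1),(6,7)]⟩,⟨0,[(36,0),(14,0)]⟩⟩,.o ⟨false,0,⟨5,[(1,2),(9,0),(3,
  1),(7,0),(10,0),(1,2),(4,0),(4,0)]⟩,⟨7,[(33,0),(0,0),(0,3),(10,1),(5,3)]⟩⟩]⟩)))) (.I [1,0,0,0,0,0,
  0,0,-1] (.Q [0,0,0,0,0,0,0,0,1,1,0,-1] (.p false [0,0,0,1] [1] (⟨0,[(34,0)]⟩,⟨1,[(33,0),(8,0),(0,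
  0)]⟩) .k 1 (⟨0,[]⟩,⟨0,[]⟩) .k .k) (.R ⟨2,false,false,false,[0,1],[0,0,0,1],[1,1,1],(⟨0,[]⟩,⟨0,
  []⟩),(⟨0,[(35,0)]⟩,⟨1,[(34,0),(8,0),(0,0)]⟩),⟨0,[]⟩,.k,.k,.k,(.r 0 ⟨2,[(14,0),(1,0),(15,0)]⟩ ⟨3,
  [(2,0),(22,0),(7,1)]⟩),.k,.k,⟨false,0,⟨0,[(1,0),(52,0)]⟩,⟨37,[(3,5),(3,5),(1,5),(2,23),(1,15),(4,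
  7),(13,6),(18,2)]⟩⟩,⟨true,0,⟨1,[(34,0),(2,0),(2,0)]⟩,⟨0,[(35,0)]⟩⟩,⟨true,0,⟨0,[(49,0)]⟩,⟨0,[(50,
  0)]⟩⟩,⟨false,1,⟨47,[(8,11),(1,17),(9,9),(0,3),(11,14),(0,23),(2,9),(7,6),(6,13)]⟩,⟨0,[(1,0),(33,
  0),(14,0)]⟩⟩,⟨false,0,⟨0,[]⟩,⟨3,[(32,0),(0,0),(18,1)]⟩⟩,⟨false,1,⟨107,[(3,1),(3,3),(2,29),(3,9),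
  (4,19),(13,38),(0,53),(10,25),(6,28)]⟩,⟨0,[(1,0),(33,0)]⟩⟩,[.a ⟨true,0,⟨0,[(0,0)]⟩,⟨0,[(1,0),(33,
  0)]⟩⟩ ⟨false,0,⟨0,[(54,0)]⟩,⟨1,[(51,0),(0,0)]⟩⟩ ⟨true,0,⟨5,[(0,3),(5,0),(3,1),(3,1),(5,0),(13,0),
  (10,1)]⟩,⟨0,[(1,0),(33,0)]⟩⟩,.o ⟨false,1,⟨107,[(3,1),(3,3),(2,29),(3,9),(4,19),(13,38),(0,53),(10,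
  25),(6,28)]⟩,⟨2,[(1,2),(5,0),(6,0),(3,1),(16,0),(0,2)]⟩⟩,.o ⟨false,1,⟨3,[(32,0),(0,0),(17,1)]⟩,⟨0,
  [(29,0),(10,0)]⟩⟩,.e ⟨false,0,⟨0,[]⟩,⟨3,[(32,0),(0,0),(18,1)]⟩⟩ ⟨false,1,⟨107,[(3,1),(3,3),(2,29),
  (3,9),(4,19),(13,38),(0,53),(10,25),(6,28)]⟩,⟨0,[(1,0),(33,0)]⟩⟩]⟩) (.Q [0,1,0,0,0,0,0,0,1,0,0,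
  -1] (.p false [0,0,0,1] [] (⟨0,[(35,0)]⟩,⟨1,[(34,0),(8,0),(0,0)]⟩) .k 0 (⟨0,[]⟩,⟨0,[]⟩) .k .k)
  (.R ⟨1,false,false,false,[1,0,0,-1],[1,-1],[1,0,0,-1,0,0,0,0,-1],(⟨1,[(35,0),(8,0),(0,0)]⟩,⟨0,
  [(36,0)]⟩),(⟨0,[(47,0)]⟩,⟨0,[(48,0)]⟩),⟨3,[(6,0),(17,0),(10,1),(11,0)]⟩,.k,.k,(.r (-1) ⟨3,[(3,0),
  (22,0),(6,1)]⟩ ⟨5,[(8,0),(2,1),(3,2),(18,1),(5,0),(14,0)]⟩),(.r 0 ⟨2,[(15,0),(1,0),(15,0)]⟩ ⟨3,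
  [(3,0),(22,0),(7,1)]⟩),.k,.k,⟨false,0,⟨0,[(2,0)]⟩,⟨1,[(34,0),(17,0)]⟩⟩,⟨true,0,⟨1,[(35,0),(2,0),
  (2,0)]⟩,⟨0,[(36,0)]⟩⟩,⟨false,1,⟨7,[(14,1),(6,1),(11,0),(0,0),(7,1),(10,3)]⟩,⟨0,[(51,0)]⟩⟩,⟨false,
  1,⟨47,[(9,11),(1,17),(9,9),(0,3),(11,14),(0,23),(2,9),(7,6),(6,13)]⟩,⟨1,[(1,0),(0,0),(7,0),(4,0),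
  (9,0),(10,0)]⟩⟩,⟨true,0,⟨0,[]⟩,⟨0,[(55,0)]⟩⟩,⟨false,1,⟨0,[(0,0),(52,0)]⟩,⟨0,[(2,0),(33,0)]⟩⟩,[.o
  ⟨false,1,⟨15,[(14,3),(6,3),(11,2),(0,2),(3,3),(7,5)]⟩,⟨0,[(51,0)]⟩⟩,.o ⟨false,1,⟨11,[(9,1),(4,1),
  (6,1),(16,1),(7,4),(2,3),(3,2)]⟩,⟨1,[(8,0),(6,0),(24,0),(14,0)]⟩⟩,.a ⟨true,0,⟨0,[(36,0)]⟩,⟨1,[(35,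
  0),(8,0),(0,0)]⟩⟩ ⟨true,0,⟨0,[(1,0),(17,0),(5,0),(9,0)]⟩,⟨0,[(0,0),(35,0),(14,0)]⟩⟩ ⟨false,1,⟨15,
  [(14,3),(6,3),(11,0),(0,0),(0,7),(2,3),(7,1),(6,7)]⟩,⟨0,[(36,0),(14,0)]⟩⟩,.o ⟨false,0,⟨4,[(1,0),
  (9,0),(3,0),(3,0),(3,0),(12,2),(1,0),(2,0),(4,0)]⟩,⟨7,[(33,0),(0,0),(0,3),(10,1),(5,3)]⟩⟩]⟩) (.R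
  ⟨1,false,false,true,[1,0,0,-1],[1,-1],[1,1,0,-1,0,0,0,0,-1],(⟨1,[(35,0),(8,0),(0,0)]⟩,⟨0,[(36,
  0)]⟩),(⟨0,[(47,0)]⟩,⟨0,[(48,0)]⟩),⟨3,[(6,0),(17,0),(10,1),(11,0)]⟩,.k,.k,(.r (-1) ⟨3,[(3,0),(22,
  0),(6,1)]⟩ ⟨5,[(8,0),(2,1),(3,2),(18,1),(5,0),(14,0)]⟩),(.r 0 ⟨2,[(15,0),(1,0),(15,0)]⟩ ⟨3,[(3,0),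
  (22,0),(7,1)]⟩),.k,.k,⟨false,0,⟨0,[(2,0)]⟩,⟨1,[(34,0),(17,0)]⟩⟩,⟨true,0,⟨1,[(35,0),(2,0),(2,0)]⟩,
  ⟨0,[(36,0)]⟩⟩,⟨true,0,⟨0,[(50,0)]⟩,⟨0,[(51,0)]⟩⟩,⟨false,1,⟨15,[(14,3),(6,3),(11,0),(0,8),(0,7),(2,
  3),(7,1)]⟩,⟨0,[(0,0),(50,0)]⟩⟩,⟨false,0,⟨0,[]⟩,⟨3,[(33,0),(0,0),(18,1)]⟩⟩,⟨false,1,⟨7,[(33,0),(0,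
  4),(0,3),(10,1)]⟩,⟨0,[(0,0)]⟩⟩,[.e ⟨true,0,⟨0,[(2,0),(47,0)]⟩,⟨0,[(0,0),(3,2),(0,1),(0,3),(0,1),
  (0,2),(2,1),(3,2),(3,0),(15,0),(12,9)]⟩⟩ ⟨true,0,⟨3,[(21,0),(1,1),(11,1),(3,0)]⟩,⟨3,[(0,2),(10,0),
  (3,1),(15,0),(2,0),(1,0)]⟩⟩,.o ⟨false,1,⟨15,[(14,3),(6,3),(11,2),(0,2),(3,3),(7,5)]⟩,⟨0,[(51,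
  0)]⟩⟩,.a ⟨true,0,⟨0,[(36,0)]⟩,⟨1,[(35,0),(8,0),(0,0)]⟩⟩ ⟨false,0,⟨3,[(0,1),(1,1),(4,0),(13,0),(13,
  0)]⟩,⟨1,[(34,0),(16,1),(1,0)]⟩⟩ ⟨true,0,⟨3,[(21,0),(1,1),(11,1),(3,0)]⟩,⟨0,[(36,0),(14,0)]⟩⟩,.o
  ⟨false,0,⟨4,[(1,0),(9,0),(3,0),(3,0),(3,0),(12,2),(1,0),(2,0),(4,0)]⟩,⟨7,[(33,0),(0,0),(0,3),(10,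
  1),(5,3)]⟩⟩]⟩))) (.Q [0,0,0,0,0,-1,0,0,0,0,0,1] (.p true [0,0,0,1] [] (⟨0,[(34,0)]⟩,⟨1,[(33,0),(8,
  0),(0,0)]⟩) .k 0 (⟨0,[]⟩,⟨0,[]⟩) .k .k) (.Q [0,1,0,0,0,0,0,0,-1,-1,0,1] (.p true [0,0,0,1] [1]
  (⟨0,[(35,0)]⟩,⟨1,[(34,0),(8,0),(0,0)]⟩) .k 1 (⟨0,[]⟩,⟨0,[]⟩) .k .k) (.R ⟨1,false,false,false,[0,0,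
  0,1],[1,-1],[0,0,0,0,0,0,0,0,1],(⟨0,[(36,0)]⟩,⟨1,[(35,0),(8,0),(0,0)]⟩),(⟨0,[(47,0)]⟩,⟨0,[(48,
  0)]⟩),⟨0,[(1,0)]⟩,.k,.k,(.r (-1) ⟨3,[(3,0),(22,0),(7,1)]⟩ ⟨2,[(15,0),(1,0),(15,0)]⟩),(.r 0 ⟨5,[(8,
  0),(2,1),(3,2),(18,1),(5,0),(14,0)]⟩ ⟨3,[(3,0),(22,0),(6,1)]⟩),.k,.k,⟨false,0,⟨0,[(2,0),(48,0)]⟩,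
  ⟨3,[(3,0),(22,0),(6,1)]⟩⟩,⟨true,0,⟨6,[(0,2),(10,2),(3,0),(3,1),(16,1),(1,1),(7,0)]⟩,⟨1,[(35,0),(8,
  0),(0,0)]⟩⟩,⟨false,1,⟨3,[(33,0),(0,0),(18,1)]⟩,⟨0,[]⟩⟩,⟨false,1,⟨11,[(0,7),(8,1),(2,1),(1,1),(4,
  3),(13,0),(4,3),(14,6)]⟩,⟨1,[(2,1),(7,0),(4,0),(9,0),(9,0)]⟩⟩,⟨true,0,⟨0,[(51,0)]⟩,⟨0,[(50,0)]⟩⟩,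
  ⟨false,1,⟨0,[(0,0),(52,0)]⟩,⟨1,[(2,1),(32,0),(8,0),(0,0)]⟩⟩,[.o ⟨false,1,⟨15,[(14,3),(6,3),(11,2),
  (0,2),(3,3),(7,5)]⟩,⟨0,[(51,0)]⟩⟩,.o ⟨false,1,⟨11,[(9,1),(4,1),(6,1),(16,1),(7,4),(2,3),(3,2)]⟩,
  ⟨1,[(8,0),(6,0),(24,0),(14,0)]⟩⟩,.a ⟨true,0,⟨1,[(35,0),(8,0),(0,0)]⟩,⟨0,[(36,0)]⟩⟩ ⟨true,0,⟨0,[(2,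
  0)]⟩,⟨1,[(0,1),(34,0),(8,0),(0,0)]⟩⟩ ⟨false,1,⟨2,[(14,0),(4,0),(16,1),(1,0),(7,0),(6,0)]⟩,⟨1,[(10,
  0),(4,0),(9,0),(9,0)]⟩⟩,.o ⟨false,0,⟨1,[(35,0),(2,0),(2,0)]⟩,⟨1,[(36,1),(9,0),(5,0)]⟩⟩]⟩) (.R ⟨1,
  false,false,true,[0,0,0,1],[1,-1],[0,1,0,0,0,0,0,0,1],(⟨0,[(36,0)]⟩,⟨1,[(35,0),(8,0),(0,0)]⟩),(⟨0,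
  [(47,0)]⟩,⟨0,[(48,0)]⟩),⟨0,[(1,0)]⟩,.k,.k,(.r (-1) ⟨3,[(3,0),(22,0),(7,1)]⟩ ⟨2,[(15,0),(1,0),(15,
  0)]⟩),(.r 0 ⟨5,[(8,0),(2,1),(3,2),(18,1),(5,0),(14,0)]⟩ ⟨3,[(3,0),(22,0),(6,1)]⟩),.k,.k,⟨false,0,
  ⟨0,[(2,0),(48,0)]⟩,⟨3,[(3,0),(22,0),(6,1)]⟩⟩,⟨true,0,⟨2,[(15,0),(2,0),(0,0),(3,0),(12,1),(9,0)]⟩,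
  ⟨1,[(35,0),(8,0),(0,0)]⟩⟩,⟨true,0,⟨0,[(55,0)]⟩,⟨0,[]⟩⟩,⟨false,1,⟨5,[(7,0),(6,0),(4,1),(13,2),(2,
  3),(1,0),(7,1)]⟩,⟨0,[(0,0),(50,0)]⟩⟩,⟨false,0,⟨0,[(51,0)]⟩,⟨7,[(14,1),(6,1),(11,0),(0,0),(7,1),
  (10,3)]⟩⟩,⟨false,1,⟨1,[(33,0),(2,1),(9,0)]⟩,⟨0,[(0,0)]⟩⟩,[.e ⟨true,0,⟨0,[(2,0),(52,0)]⟩,⟨6,[(12,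
  4),(2,0),(6,1),(10,0),(15,1)]⟩⟩ ⟨true,0,⟨0,[(19,0),(17,0)]⟩,⟨2,[(0,2),(14,0),(1,0),(15,0)]⟩⟩,.o
  ⟨false,1,⟨15,[(14,3),(6,3),(11,2),(0,2),(3,3),(7,5)]⟩,⟨0,[(51,0)]⟩⟩,.a ⟨true,0,⟨1,[(35,0),(8,0),
  (0,0)]⟩,⟨0,[(36,0)]⟩⟩ ⟨false,0,⟨0,[(2,0)]⟩,⟨1,[(33,0),(19,0)]⟩⟩ ⟨true,0,⟨0,[(19,0),(17,0)]⟩,⟨1,
  [(10,0),(4,0),(9,0),(9,0)]⟩⟩,.o ⟨false,0,⟨1,[(35,0),(2,0),(2,0)]⟩,⟨1,[(36,1),(9,0),(5,0)]⟩⟩]⟩))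
  (.I [0,1,0,0,0,0,0,0,-1] (.R ⟨0,false,false,false,[0,0,0,1],[1,-1],[0,1],(⟨0,[(36,0)]⟩,⟨1,[(35,0),
  (8,0),(0,0)]⟩),(⟨0,[(47,0)]⟩,⟨0,[(48,0)]⟩),⟨0,[(1,0)]⟩,.k,.k,(.r (-1) ⟨3,[(3,0),(22,0),(7,1)]⟩ ⟨2,
  [(15,0),(1,0),(15,0)]⟩),(.r 0 ⟨5,[(8,0),(2,1),(3,2),(18,1),(5,0),(14,0)]⟩ ⟨3,[(3,0),(22,0),(6,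
  1)]⟩),.k,.k,⟨false,0,⟨1,[(8,0),(6,0),(24,0),(14,0)]⟩,⟨3,[(3,0),(22,0),(26,1)]⟩⟩,⟨true,0,⟨2,[(15,
  0),(2,0),(0,0),(3,0),(12,1),(9,0)]⟩,⟨1,[(35,0),(8,0),(0,0)]⟩⟩,⟨true,0,⟨0,[(0,0)]⟩,⟨0,[(2,0)]⟩⟩,
  ⟨false,1,⟨31,[(4,7),(7,13),(1,5),(4,19),(12,1),(0,8),(2,11),(9,10),(6,5)]⟩,⟨1,[(2,1),(7,0),(4,0),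
  (9,0),(9,0)]⟩⟩,⟨false,0,⟨0,[]⟩,⟨0,[]⟩⟩,⟨false,0,⟨0,[]⟩,⟨0,[]⟩⟩,[.o ⟨false,1,⟨15,[(14,3),(6,3),(11,
  2),(0,2),(3,3),(7,5)]⟩,⟨0,[(51,0)]⟩⟩,.o ⟨false,1,⟨11,[(9,1),(4,1),(6,1),(16,1),(7,4),(2,3),(3,
  2)]⟩,⟨1,[(8,0),(6,0),(24,0),(14,0)]⟩⟩,.a ⟨true,0,⟨1,[(35,0),(8,0),(0,0)]⟩,⟨0,[(36,0)]⟩⟩ ⟨true,0,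
  ⟨0,[(55,0)]⟩,⟨0,[]⟩⟩ ⟨false,1,⟨2,[(14,0),(4,0),(16,1),(1,0),(7,0),(6,0)]⟩,⟨1,[(10,0),(4,0),(9,0),
  (9,0)]⟩⟩,.o ⟨false,0,⟨1,[(35,0),(2,0),(2,0)]⟩,⟨1,[(36,1),(9,0),(5,0)]⟩⟩]⟩) (.R ⟨0,false,false,
  true,[0,0,0,1],[1,-1],[0,1,0,0,0,0,0,0,1],(⟨0,[(36,0)]⟩,⟨1,[(35,0),(8,0),(0,0)]⟩),(⟨0,[(47,0)]⟩,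
  ⟨0,[(48,0)]⟩),⟨0,[(1,0)]⟩,.k,.k,(.r (-1) ⟨3,[(3,0),(22,0),(7,1)]⟩ ⟨2,[(15,0),(1,0),(15,0)]⟩),(.r
  0 ⟨5,[(8,0),(2,1),(3,2),(18,1),(5,0),(14,0)]⟩ ⟨3,[(3,0),(22,0),(6,1)]⟩),.k,.k,⟨false,0,⟨0,[(2,0),
  (48,0)]⟩,⟨3,[(3,0),(22,0),(6,1)]⟩⟩,⟨true,0,⟨2,[(15,0),(2,0),(0,0),(3,0),(12,1),(9,0)]⟩,⟨1,[(35,0),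
  (8,0),(0,0)]⟩⟩,⟨true,0,⟨0,[(55,0)]⟩,⟨0,[]⟩⟩,⟨false,1,⟨5,[(7,0),(6,0),(4,1),(13,2),(2,3),(1,0),(7,
  1)]⟩,⟨1,[(0,1),(9,0),(4,0),(9,0),(9,0)]⟩⟩,⟨false,0,⟨0,[]⟩,⟨0,[]⟩⟩,⟨false,0,⟨0,[]⟩,⟨0,[]⟩⟩,[.e
  ⟨true,0,⟨0,[(2,0),(52,0)]⟩,⟨6,[(12,4),(2,0),(6,1),(10,0),(15,1)]⟩⟩ ⟨true,0,⟨0,[(19,0),(17,0)]⟩,⟨5,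
  [(10,0),(4,2),(2,1),(6,0),(9,2),(8,1),(0,1),(7,1)]⟩⟩,.o ⟨false,1,⟨15,[(14,3),(6,3),(11,2),(0,2),
  (3,3),(7,5)]⟩,⟨0,[(51,0)]⟩⟩,.a ⟨true,0,⟨1,[(35,0),(8,0),(0,0)]⟩,⟨0,[(36,0)]⟩⟩ ⟨false,0,⟨0,[(2,
  0)]⟩,⟨1,[(33,0),(19,0)]⟩⟩ ⟨true,0,⟨0,[(19,0),(17,0)]⟩,⟨1,[(10,0),(4,0),(9,0),(9,0)]⟩⟩,.o ⟨false,0,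
  ⟨1,[(35,0),(2,0),(2,0)]⟩,⟨1,[(36,1),(9,0),(5,0)]⟩⟩]⟩)))))) (.Q [0,1,0,0,0,0,0,0,1,0,0,-1] (.p
  false [0,0,0,1] [] (⟨0,[(31,0)]⟩,⟨1,[(30,0),(8,0),(0,0)]⟩) .k 0 (⟨0,[]⟩,⟨0,[]⟩) .k .k) (.I [1,0,0,
  0,0,0,0,0,1] (.Q [0,0,0,0,0,0,0,0,-1,0,0,1] (.p true [0,0,0,1] [] (⟨0,[(33,0)]⟩,⟨1,[(32,0),(8,0),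
  (0,0)]⟩) .k 0 (⟨0,[]⟩,⟨0,[]⟩) .k .k) (.R ⟨2,false,false,false,[0,1],[1,0,0,-1],[1,1,1],(⟨0,[]⟩,⟨0,
  []⟩),(⟨1,[(33,0),(8,0),(0,0)]⟩,⟨0,[(34,0)]⟩),⟨0,[]⟩,.k,.k,.k,(.r 0 ⟨5,[(6,0),(2,1),(3,2),(18,1),
  (5,0),(14,0)]⟩ ⟨5,[(5,0),(1,0),(0,0),(15,0),(6,2)]⟩),.k,.k,⟨false,0,⟨0,[(1,0),(51,0)]⟩,⟨0,[(15,0),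
  (2,0)]⟩⟩,⟨true,0,⟨2,[(13,0),(2,0),(0,0),(3,0),(12,1),(9,0)]⟩,⟨1,[(33,0),(8,0),(0,0)]⟩⟩,⟨true,0,⟨0,
  [(48,0)]⟩,⟨0,[(49,0)]⟩⟩,⟨false,1,⟨11,[(0,7),(6,1),(2,1),(1,1),(4,3),(13,0),(4,3),(7,3),(6,2)]⟩,⟨1,
  [(1,1),(6,0),(4,0),(9,0),(9,0)]⟩⟩,⟨false,0,⟨0,[]⟩,⟨3,[(31,0),(0,0),(18,1)]⟩⟩,⟨false,1,⟨1,[(0,1),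
  (43,0),(6,0)]⟩,⟨1,[(1,1),(31,0),(8,0),(0,0)]⟩⟩,[.a ⟨true,0,⟨0,[(0,0)]⟩,⟨1,[(1,1),(31,0),(8,0),(0,
  0)]⟩⟩ ⟨false,0,⟨0,[(53,0)]⟩,⟨1,[(50,0),(0,0)]⟩⟩ ⟨true,0,⟨2,[(0,1),(9,0),(2,0),(3,0),(3,0),(22,
  0)]⟩,⟨1,[(1,1),(31,0),(8,0),(0,0)]⟩⟩,.o ⟨false,1,⟨1,[(0,1),(43,0),(6,0)]⟩,⟨0,[(2,0)]⟩⟩,.o ⟨false,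
  1,⟨3,[(31,0),(0,0),(17,1)]⟩,⟨0,[(28,0),(10,0)]⟩⟩,.e ⟨false,0,⟨0,[]⟩,⟨3,[(31,0),(0,0),(18,1)]⟩⟩
  ⟨false,1,⟨1,[(0,1),(43,0),(6,0)]⟩,⟨1,[(1,1),(31,0),(8,0),(0,0)]⟩⟩]⟩) (.I [1,1,2,1,-1,0,0,1,-1]
  (.I [0,1,0,-1,0,0,0,0,-1] (.R ⟨1,false,false,true,[1,0,0,-1],[0,0,0,1],[0,1,0,0,0,0,0,0,-1],(⟨1,
  [(35,0),(8,0),(0,0)]⟩,⟨0,[(36,0)]⟩),(⟨0,[(36,0)]⟩,⟨1,[(35,0),(8,0),(0,0)]⟩),⟨3,[(6,0),(17,0),(10,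
  1),(11,0)]⟩,.k,.k,(.r (-1) ⟨10,[(0,0),(8,1),(0,0),(12,0),(2,1),(1,0),(4,4)]⟩ ⟨5,[(8,0),(2,1),(3,
  2),(18,1),(5,0),(14,0)]⟩),.k,(.r (-1) ⟨20,[(0,13),(4,3),(2,7),(3,9),(7,3),(1,2),(1,3),(8,8),(11,
  3)]⟩ ⟨5,[(3,5),(4,0),(2,1),(3,2),(18,1),(5,0),(14,0)]⟩),.k,⟨false,1,⟨9,[(0,1),(0,2),(3,3),(2,7),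
  (3,4),(9,0),(1,3),(8,4),(11,3)]⟩,⟨0,[(3,1)]⟩⟩,⟨true,0,⟨0,[(35,0)]⟩,⟨2,[(15,0),(2,0),(0,0),(3,0),
  (12,4),(9,0)]⟩⟩,⟨true,0,⟨0,[(55,0)]⟩,⟨0,[]⟩⟩,⟨false,0,⟨0,[(3,1),(31,0)]⟩,⟨6,[(8,3),(3,5),(2,1),(3,
  2),(0,0),(9,6),(2,3),(2,10)]⟩⟩,⟨false,0,⟨0,[(51,0)]⟩,⟨7,[(14,1),(6,1),(11,0),(0,0),(7,1),(10,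
  3)]⟩⟩,⟨false,0,⟨0,[(3,1),(31,0),(15,0)]⟩,⟨11,[(8,2),(0,0),(2,9),(6,8),(0,0),(9,11),(2,6),(2,
  14)]⟩⟩,[.o ⟨false,0,⟨0,[(4,0)]⟩,⟨21,[(8,1),(3,11),(2,3),(4,7),(9,1),(2,4),(2,21),(9,9),(6,0)]⟩⟩,
  .o ⟨false,0,⟨0,[(2,0)]⟩,⟨1,[(33,0),(2,1),(9,0)]⟩⟩,.a ⟨true,0,⟨0,[(36,0)]⟩,⟨1,[(35,0),(8,0),(0,
  0)]⟩⟩ ⟨true,0,⟨1,[(0,0),(0,0),(6,0),(16,0)]⟩,⟨0,[(3,0)]⟩⟩ ⟨false,0,⟨0,[(3,0),(31,0)]⟩,⟨21,[(8,1),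
  (3,11),(2,3),(4,7),(9,1),(2,4),(2,43),(9,9),(6,0)]⟩⟩,.o ⟨false,0,⟨2,[(15,0),(2,0),(0,0),(3,0),(12,
  1),(9,0)]⟩,⟨7,[(33,0),(0,0),(0,3),(10,1),(5,3)]⟩⟩]⟩) (.K ⟨1,[0,0,0,1],0,0,(⟨0,[(36,0)]⟩,⟨1,[(35,
  0),(8,0),(0,0)]⟩),.k,(.r (-1) ⟨4,[(14,0),(1,0),(9,0),(7,1)]⟩ ⟨2,[(15,0),(1,0),(15,0)]⟩),(.r 0 ⟨2,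
  [(0,0),(14,0),(18,0),(5,0),(0,0)]⟩ ⟨5,[(7,0),(1,0),(0,0),(15,0),(6,2)]⟩),.k,.k,[⟨1,[(36,1),(4,0),
  (0,0)]⟩,⟨1,[(35,0),(2,0),(2,0)]⟩,⟨0,[(1,0),(6,0),(10,0),(5,1)]⟩,⟨0,[(0,0),(18,0),(5,0),(9,
  0)]⟩]⟩)) (.I [0,-1,2,2,-1,0,0,1,1] (.Q [0,0,0,0,0,-1,0,0,0,0,0,1] (.p true [0,0,0,1] [] (⟨0,[(36,
  0)]⟩,⟨1,[(35,0),(8,0),(0,0)]⟩) .k 0 (⟨0,[]⟩,⟨0,[]⟩) .k .k) (.R ⟨1,false,false,true,[0,0,0,1],[1,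
  -1],[1,1,0,-1,0,0,0,0,1],(⟨0,[(37,0)]⟩,⟨1,[(36,0),(8,0),(0,0)]⟩),(⟨0,[(48,0)]⟩,⟨0,[(49,0)]⟩),⟨0,
  [(0,0)]⟩,.k,.k,(.r (-1) ⟨4,[(15,0),(1,0),(9,0),(7,1)]⟩ ⟨2,[(16,0),(1,0),(15,0)]⟩),(.r 0 ⟨5,[(1,0),
  (7,0),(2,0),(3,1),(18,1),(5,1),(0,0)]⟩ ⟨5,[(8,0),(1,0),(0,0),(15,0),(6,2)]⟩),.k,.k,⟨false,0,⟨0,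
  [(4,0)]⟩,⟨1,[(34,0),(18,0)]⟩⟩,⟨true,0,⟨2,[(16,0),(2,0),(0,0),(3,0),(12,1),(9,0)]⟩,⟨1,[(36,0),(8,
  0),(0,0)]⟩⟩,⟨true,0,⟨0,[(51,0)]⟩,⟨0,[(52,0)]⟩⟩,⟨false,1,⟨5,[(8,0),(6,0),(4,1),(13,2),(2,3),(1,0),
  (7,1)]⟩,⟨5,[(1,3),(0,1),(8,1),(14,1),(9,2),(8,0),(0,0)]⟩⟩,⟨false,0,⟨0,[]⟩,⟨3,[(34,0),(0,0),(18,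
  1)]⟩⟩,⟨false,1,⟨1,[(34,0),(2,1),(9,0)]⟩,⟨3,[(1,1),(0,1),(17,1),(5,1),(9,2),(8,0),(0,0)]⟩⟩,[.e
  ⟨true,0,⟨0,[(4,0),(46,0)]⟩,⟨6,[(13,4),(2,2),(4,1),(12,0),(17,2)]⟩⟩ ⟨true,0,⟨0,[(20,0),(17,0)]⟩,⟨5,
  [(1,1),(16,1),(17,2),(8,2),(0,2),(7,1)]⟩⟩,.o ⟨false,1,⟨15,[(15,3),(6,3),(11,2),(0,2),(3,3),(7,
  5)]⟩,⟨0,[(52,0)]⟩⟩,.a ⟨true,0,⟨1,[(36,0),(8,0),(0,0)]⟩,⟨0,[(37,0)]⟩⟩ ⟨false,0,⟨2,[(1,0),(0,0),(1,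
  0),(17,1),(3,1)]⟩,⟨1,[(34,0),(17,1),(1,0)]⟩⟩ ⟨true,0,⟨0,[(20,0),(17,0)]⟩,⟨1,[(11,0),(4,0),(9,0),
  (9,0)]⟩⟩,.o ⟨false,0,⟨1,[(36,0),(2,0),(2,0)]⟩,⟨1,[(37,1),(9,0),(5,0)]⟩⟩]⟩) (.R ⟨0,false,false,
  true,[0,0,0,1],[1,-1],[1,1,0,-1,0,0,0,0,1],(⟨0,[(37,0)]⟩,⟨1,[(36,0),(8,0),(0,0)]⟩),(⟨0,[(48,0)]⟩,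
  ⟨0,[(49,0)]⟩),⟨0,[(0,0)]⟩,.k,.k,(.r (-1) ⟨4,[(15,0),(1,0),(9,0),(7,1)]⟩ ⟨2,[(16,0),(1,0),(15,
  0)]⟩),(.r 0 ⟨5,[(1,0),(7,0),(2,0),(3,1),(18,1),(5,1),(0,0)]⟩ ⟨5,[(8,0),(1,0),(0,0),(15,0),(6,
  2)]⟩),.k,.k,⟨false,0,⟨0,[(4,0)]⟩,⟨1,[(34,0),(18,0)]⟩⟩,⟨true,0,⟨2,[(16,0),(2,0),(0,0),(3,0),(12,1),
  (9,0)]⟩,⟨1,[(36,0),(8,0),(0,0)]⟩⟩,⟨true,0,⟨0,[(51,0)]⟩,⟨0,[(52,0)]⟩⟩,⟨false,1,⟨5,[(8,0),(6,0),(4,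
  1),(13,2),(2,3),(1,0),(7,1)]⟩,⟨5,[(1,3),(0,1),(8,1),(14,1),(9,2),(8,0),(0,0)]⟩⟩,⟨false,0,⟨0,[]⟩,
  ⟨0,[]⟩⟩,⟨false,0,⟨0,[]⟩,⟨0,[]⟩⟩,[.e ⟨true,0,⟨0,[(4,0),(46,0)]⟩,⟨6,[(13,4),(2,2),(4,1),(12,0),(17,
  2)]⟩⟩ ⟨true,0,⟨0,[(20,0),(17,0)]⟩,⟨5,[(1,1),(16,1),(17,2),(8,2),(0,2),(7,1)]⟩⟩,.o ⟨false,1,⟨15,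
  [(15,3),(6,3),(11,2),(0,2),(3,3),(7,5)]⟩,⟨0,[(52,0)]⟩⟩,.a ⟨true,0,⟨1,[(36,0),(8,0),(0,0)]⟩,⟨0,
  [(37,0)]⟩⟩ ⟨false,0,⟨2,[(1,0),(0,0),(1,0),(17,1),(3,1)]⟩,⟨1,[(34,0),(17,1),(1,0)]⟩⟩ ⟨true,0,⟨0,
  [(20,0),(17,0)]⟩,⟨1,[(11,0),(4,0),(9,0),(9,0)]⟩⟩,.o ⟨false,0,⟨1,[(36,0),(2,0),(2,0)]⟩,⟨1,[(37,1),
  (9,0),(5,0)]⟩⟩]⟩)) (.K ⟨1,[0,0,0,1],0,0,(⟨0,[(36,0)]⟩,⟨1,[(35,0),(8,0),(0,0)]⟩),.k,(.r (-1) ⟨4,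
  [(14,0),(1,0),(9,0),(7,1)]⟩ ⟨2,[(15,0),(1,0),(15,0)]⟩),(.r 0 ⟨5,[(8,0),(2,1),(3,2),(18,1),(5,0),
  (14,0)]⟩ ⟨7,[(0,1),(25,1),(6,2),(19,0)]⟩),.k,.k,[⟨1,[(36,1),(4,0),(0,0)]⟩,⟨1,[(35,0),(2,0),(2,
  0)]⟩,⟨0,[(0,0),(14,0),(20,0)]⟩,⟨0,[(1,0),(13,0),(3,0),(5,0),(9,0)]⟩]⟩)))) (.R ⟨1,false,false,
  false,[1,0,0,-1],[1,-1],[0,0,0,0,0,0,0,0,-1],(⟨1,[(32,0),(8,0),(0,0)]⟩,⟨0,[(33,0)]⟩),(⟨0,[(44,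
  0)]⟩,⟨0,[(45,0)]⟩),⟨3,[(3,0),(17,0),(10,1),(11,0)]⟩,.k,.k,(.r (-1) ⟨5,[(4,0),(1,0),(0,0),(15,0),
  (6,2)]⟩ ⟨5,[(5,0),(2,1),(3,2),(18,1),(5,0),(14,0)]⟩),(.r 0 ⟨2,[(12,0),(1,0),(15,0)]⟩ ⟨4,[(11,0),
  (1,0),(9,0),(7,1)]⟩),.k,.k,⟨false,0,⟨0,[(0,0),(47,0)]⟩,⟨4,[(11,0),(1,0),(9,0),(7,1)]⟩⟩,⟨true,0,⟨1,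
  [(32,0),(2,0),(2,0)]⟩,⟨0,[(33,0)]⟩⟩,⟨false,1,⟨3,[(30,0),(0,0),(18,1)]⟩,⟨0,[]⟩⟩,⟨false,1,⟨47,[(6,
  11),(1,17),(9,9),(0,3),(11,14),(0,23),(2,9),(7,6),(6,13)]⟩,⟨0,[(0,0),(32,0),(14,0)]⟩⟩,⟨true,0,⟨0,
  [(48,0)]⟩,⟨0,[(47,0)]⟩⟩,⟨false,1,⟨11,[(8,1),(1,1),(1,1),(4,1),(13,3),(0,5),(10,2),(6,2)]⟩,⟨0,[(0,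
  0),(32,0)]⟩⟩,[.o ⟨false,1,⟨15,[(11,3),(6,3),(11,2),(0,2),(3,3),(7,5)]⟩,⟨0,[(48,0)]⟩⟩,.o ⟨false,1,
  ⟨11,[(6,1),(4,1),(6,1),(16,1),(7,4),(2,3),(3,2)]⟩,⟨1,[(5,0),(6,0),(24,0),(14,0)]⟩⟩,.a ⟨true,0,⟨0,
  [(33,0)]⟩,⟨1,[(32,0),(8,0),(0,0)]⟩⟩ ⟨true,0,⟨0,[(0,0)]⟩,⟨0,[(1,0),(31,0)]⟩⟩ ⟨false,1,⟨15,[(11,3),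
  (6,3),(11,0),(0,0),(0,7),(2,3),(7,1),(6,7)]⟩,⟨0,[(33,0),(14,0)]⟩⟩,.o ⟨false,0,⟨2,[(12,0),(2,0),(0,
  0),(3,0),(12,1),(9,0)]⟩,⟨7,[(30,0),(0,0),(0,3),(10,1),(5,3)]⟩⟩]⟩)) (.R ⟨1,false,false,true,[1,0,0,
  -1],[1,-1],[0,1,0,0,0,0,0,0,-1],(⟨1,[(31,0),(8,0),(0,0)]⟩,⟨0,[(32,0)]⟩),(⟨0,[(43,0)]⟩,⟨0,[(44,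
  0)]⟩),⟨3,[(2,0),(17,0),(10,1),(11,0)]⟩,.k,.k,(.r (-1) ⟨5,[(3,0),(1,0),(0,0),(15,0),(6,2)]⟩ ⟨5,[(4,
  0),(2,1),(3,2),(18,1),(5,0),(14,0)]⟩),(.r 0 ⟨2,[(11,0),(1,0),(15,0)]⟩ ⟨4,[(10,0),(1,0),(9,0),(7,
  1)]⟩),.k,.k,⟨false,0,⟨1,[(0,1),(3,0),(6,0),(19,0),(1,0),(17,0)]⟩,⟨4,[(10,0),(1,0),(9,0),(7,1)]⟩⟩,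
  ⟨true,0,⟨1,[(31,0),(2,0),(2,0)]⟩,⟨0,[(32,0)]⟩⟩,⟨true,0,⟨0,[(51,0)]⟩,⟨0,[]⟩⟩,⟨false,1,⟨15,[(10,3),
  (6,3),(11,0),(0,8),(0,7),(2,3),(7,1)]⟩,⟨0,[(0,0),(46,0)]⟩⟩,⟨false,0,⟨0,[(47,0)]⟩,⟨7,[(10,1),(6,1),
  (11,0),(0,0),(7,1),(10,3)]⟩⟩,⟨false,1,⟨7,[(29,0),(0,4),(0,3),(10,1)]⟩,⟨0,[(0,0)]⟩⟩,[.e ⟨true,0,⟨1,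
  [(0,1),(30,0),(1,0),(1,0),(15,1)]⟩,⟨6,[(7,4),(3,0),(6,1),(11,0),(14,1)]⟩⟩ ⟨true,0,⟨3,[(17,0),(1,
  1),(11,1),(3,0)]⟩,⟨8,[(0,0),(6,1),(3,2),(1,0),(18,7),(14,1),(1,2)]⟩⟩,.o ⟨false,1,⟨15,[(10,3),(6,
  3),(11,2),(0,2),(3,3),(7,5)]⟩,⟨0,[(47,0)]⟩⟩,.a ⟨true,0,⟨0,[(32,0)]⟩,⟨1,[(31,0),(8,0),(0,0)]⟩⟩
  ⟨false,0,⟨1,[(0,1),(30,0),(1,0),(1,0)]⟩,⟨1,[(30,0),(18,0)]⟩⟩ ⟨true,0,⟨3,[(17,0),(1,1),(11,1),(3,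
  0)]⟩,⟨0,[(32,0),(14,0)]⟩⟩,.o ⟨false,0,⟨2,[(11,0),(2,0),(0,0),(3,0),(12,1),(9,0)]⟩,⟨7,[(29,0),(0,
  0),(0,3),(10,1),(5,3)]⟩⟩]⟩))))))))))))

theorem ok45 : chk (cU (-1) false 2) t45 r33 = true := by decide +kernel

noncomputable def t57 : Tre :=
  (.N [0,1,1] 1 ⟨0,[(0,0)]⟩ ⟨0,[(4,0)]⟩ .k)

theorem ok57 : chk (cU (-1) false 2) t57 l34 = true := by decide +kernel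

noncomputable def t59 : Tre :=
  (.R ⟨2,true,false,true,[0,1],[0,0,1],[1,0,1],(⟨0,[]⟩,⟨0,[]⟩),(⟨0,[(24,0)]⟩,⟨0,[(23,0)]⟩),⟨0,[]⟩,
  .k,.k,.k,.k,.k,.k,⟨false,1,⟨1,[(1,0),(5,0),(12,0),(11,0)]⟩,⟨0,[(0,0)]⟩⟩,⟨true,0,⟨0,[(20,0)]⟩,⟨1,
  [(11,0),(11,0),(0,0)]⟩⟩,⟨false,1,⟨0,[(29,0),(2,0)]⟩,⟨0,[(30,0)]⟩⟩,⟨true,0,⟨0,[(8,0)]⟩,⟨0,[(1,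
  0)]⟩⟩,⟨true,0,⟨0,[]⟩,⟨0,[(34,0)]⟩⟩,⟨false,0,⟨0,[(4,0)]⟩,⟨0,[(19,0),(12,0)]⟩⟩,[]⟩)

theorem ok59 : chk (cU (-1) false 2) t59 l37 = true := by decide +kernel

noncomputable def t62 : Tre :=
  (.I [0,0,1,0,0,-1,2] (.Q [0,0,-1,0,1,0,2,0,0,1,-2] (.p false [0,0,1] [1,0,-1] (⟨0,[(30,0)]⟩,⟨0,
  [(29,0)]⟩) .k 2 (⟨0,[(29,0)]⟩,⟨0,[(30,0)]⟩) .k (.r 0 ⟨0,[(28,1)]⟩ ⟨1,[(6,0),(9,1),(8,0),(0,0)]⟩))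
  (.K ⟨2,[1,-1,-1],(-1),0,(⟨0,[(13,0)]⟩,⟨0,[(31,0),(2,0)]⟩),.k,(.r (-2) ⟨5,[(12,1),(1,7),(4,0),(0,
  0)]⟩ ⟨0,[(3,0),(33,0),(3,0)]⟩),.k,(.x 0 ⟨0,[(13,0),(2,0),(7,0),(5,0)]⟩ ⟨0,[(1,0),(32,1),(3,0)]⟩),
  .k,[⟨0,[(0,0)]⟩,⟨0,[(2,0),(0,0)]⟩,⟨0,[(25,0),(4,0),(0,0),(5,0)]⟩,⟨0,[(2,0)]⟩]⟩) (.Q [0,0,0,0,0,2,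
  0,0,0,-1,1] (.p true [0,0,1] [1] (⟨0,[(31,0)]⟩,⟨0,[(30,0)]⟩) .k 1 (⟨0,[]⟩,⟨0,[]⟩) .k .k) (.R ⟨0,
  false,false,false,[1,-1,-1],[0,-1,1],[1,0,1],(⟨0,[(14,0)]⟩,⟨0,[(32,0),(2,0)]⟩),(⟨1,[(1,0),(0,0),
  (31,0),(4,0)]⟩,⟨0,[(31,0),(3,0)]⟩),⟨0,[(0,0)]⟩,.k,.k,(.r (-2) ⟨5,[(13,1),(1,7),(4,0),(0,0)]⟩ ⟨0,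
  [(4,0),(33,0),(3,0)]⟩),.k,.k,.k,⟨false,0,⟨0,[(9,0),(18,0)]⟩,⟨1,[(13,0),(16,0),(8,0)]⟩⟩,⟨true,1,⟨7,
  [(2,3),(9,5),(5,5),(1,0),(0,0),(6,1),(2,7),(3,3)]⟩,⟨0,[(1,0)]⟩⟩,⟨false,(-1),⟨0,[(4,0)]⟩,⟨5,[(13,
  1),(1,1),(2,5),(1,0),(0,0)]⟩⟩,⟨true,0,⟨0,[(12,1),(18,0),(0,0)]⟩,⟨0,[(3,0),(5,0)]⟩⟩,⟨false,0,⟨0,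
  []⟩,⟨0,[]⟩⟩,⟨false,0,⟨0,[]⟩,⟨0,[]⟩⟩,[.a ⟨true,0,⟨0,[(1,0),(0,0),(3,0),(5,0),(18,1),(3,0)]⟩,⟨0,[(9,
  0)]⟩⟩ ⟨false,0,⟨0,[]⟩,⟨3,[(20,0),(0,0),(17,1)]⟩⟩ ⟨true,1,⟨1,[(2,0),(9,1),(0,0),(4,0),(12,1),(3,
  0)]⟩,⟨3,[(1,0),(2,1),(0,0),(2,0),(0,1),(14,2)]⟩⟩,.o ⟨false,1,⟨0,[(16,0),(23,0)]⟩,⟨0,[(24,0),(13,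
  0)]⟩⟩,.o ⟨false,0,⟨0,[(25,0)]⟩,⟨0,[(12,0),(5,0)]⟩⟩,.o ⟨false,(-1),⟨0,[(1,0),(26,0)]⟩,⟨3,[(12,3),
  (5,3),(1,0),(0,0),(17,1)]⟩⟩]⟩) (.Q [0,-1,0,1,0,0,0,0,-1,0,0,1] (.p true [0,0,0,1] [] (⟨0,[(23,
  0)]⟩,⟨1,[(22,0),(8,0),(0,0)]⟩) .k 0 (⟨0,[]⟩,⟨0,[]⟩) .k .k) (.I [1,-1,2,1,-1,0,0,0,-1] (.I [0,1,-1,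
  -1,0,0,0,0,-1] (.R ⟨1,false,false,false,[1,0,0,-1],[0,1],[0,1,0,0,0,0,0,0,-1],(⟨1,[(25,0),(8,0),
  (0,0)]⟩,⟨0,[(26,0)]⟩),(⟨0,[(38,0)]⟩,⟨0,[(37,0)]⟩),⟨1,[(3,0),(21,0),(9,0)]⟩,.k,.k,(.x 0 ⟨14,[(3,5),
  (1,2),(2,1),(14,0),(0,0),(3,5),(2,1)]⟩ ⟨3,[(23,0),(0,0),(13,3),(3,1)]⟩),(.x 0 ⟨14,[(3,5),(1,2),(2,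
  1),(14,0),(0,0),(3,5),(2,1)]⟩ ⟨3,[(23,0),(0,0),(13,3),(3,1)]⟩),(.r (-1) ⟨2,[(0,2),(8,0),(0,0),(7,
  0),(24,0)]⟩ ⟨0,[(1,0),(22,0),(16,0),(3,0)]⟩),.k,⟨true,0,⟨0,[(0,0)]⟩,⟨0,[(1,0),(22,0)]⟩⟩,⟨false,1,
  ⟨1,[(25,0),(8,0),(0,0),(6,1)]⟩,⟨2,[(4,0),(21,2),(4,1),(4,0)]⟩⟩,⟨true,0,⟨0,[(45,0)]⟩,⟨0,[]⟩⟩,
  ⟨false,1,⟨0,[(2,0),(21,0),(0,0)]⟩,⟨2,[(0,0),(1,1),(7,0),(0,0),(1,2),(12,0)]⟩⟩,⟨false,0,⟨0,[(41,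
  0)]⟩,⟨0,[(40,0),(2,0)]⟩⟩,⟨false,1,⟨0,[(2,0),(21,0),(0,0),(15,0)]⟩,⟨2,[(0,1),(1,0),(7,1),(0,1),(1,
  2),(12,1)]⟩⟩,[.o ⟨false,0,⟨0,[(41,0)]⟩,⟨1,[(36,0),(3,1),(2,0)]⟩⟩,.o ⟨false,1,⟨3,[(23,0),(0,0),(16,
  3),(1,1)]⟩,⟨0,[(13,0)]⟩⟩,.a ⟨true,0,⟨0,[(26,0)]⟩,⟨1,[(25,0),(8,0),(0,0)]⟩⟩ ⟨false,0,⟨21,[(0,7),(0,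
  3),(0,3),(20,2),(1,1),(10,0)]⟩,⟨1,[(24,0),(18,0)]⟩⟩ ⟨true,0,⟨1,[(25,0),(8,0),(0,0),(5,1)]⟩,⟨0,
  [(13,0),(12,0)]⟩⟩,.o ⟨false,0,⟨2,[(4,0),(21,2),(4,1),(4,0)]⟩,⟨7,[(23,0),(0,0),(0,3),(10,1),(5,
  3)]⟩⟩]⟩) (.R ⟨1,false,false,true,[1,0,0,-1],[1,-1],[0,1,0,0,0,0,0,0,-1],(⟨1,[(25,0),(8,0),(0,0)]⟩,
  ⟨0,[(26,0)]⟩),(⟨0,[(37,0)]⟩,⟨0,[(38,0)]⟩),⟨1,[(3,0),(21,0),(9,0)]⟩,.k,.k,(.r (-1) ⟨4,[(1,0),(7,1),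
  (6,0),(1,0),(4,1),(16,0)]⟩ ⟨0,[(0,0),(44,0)]⟩),(.r 0 ⟨4,[(0,0),(0,1),(21,1),(17,1),(3,2)]⟩ ⟨0,[(0,
  0),(8,0),(30,0)]⟩),.k,.k,⟨false,0,⟨1,[(2,1),(22,0),(1,0),(1,0)]⟩,⟨0,[(0,0),(8,0),(30,0)]⟩⟩,⟨true,
  0,⟨1,[(25,0),(2,0),(2,0)]⟩,⟨0,[(26,0)]⟩⟩,⟨true,0,⟨0,[(45,0)]⟩,⟨0,[]⟩⟩,⟨false,1,⟨1,[(13,0),(10,0),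
  (0,0),(14,0),(2,0)]⟩,⟨0,[(2,0)]⟩⟩,⟨false,0,⟨0,[(41,0)]⟩,⟨0,[(40,0),(2,0)]⟩⟩,⟨false,1,⟨7,[(23,0),
  (0,4),(0,3),(10,1)]⟩,⟨0,[(1,0),(7,0),(16,0)]⟩⟩,[.o ⟨false,0,⟨0,[(13,0)]⟩,⟨1,[(0,1),(22,0),(18,
  0)]⟩⟩,.o ⟨false,1,⟨1,[(36,0),(3,1),(2,0)]⟩,⟨0,[(41,0)]⟩⟩,.a ⟨true,0,⟨0,[(26,0)]⟩,⟨1,[(25,0),(8,0),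
  (0,0)]⟩⟩ ⟨false,0,⟨1,[(2,1),(10,0),(11,0),(14,0)]⟩,⟨1,[(24,0),(18,0)]⟩⟩ ⟨true,0,⟨1,[(13,0),(11,0),
  (14,0)]⟩,⟨0,[(26,0),(14,0)]⟩⟩,.o ⟨false,0,⟨5,[(0,0),(0,0),(6,0),(4,1),(12,5),(4,0),(4,1)]⟩,⟨7,
  [(23,0),(0,0),(0,3),(10,1),(5,3)]⟩⟩]⟩)) (.I [1,0,2,1,-1] (.R ⟨1,false,false,false,[1,0,0,-1],[1,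
  -1],[0,0,0,0,0,0,0,0,-1],(⟨1,[(25,0),(8,0),(0,0)]⟩,⟨0,[(26,0)]⟩),(⟨0,[(37,0)]⟩,⟨0,[(38,0)]⟩),⟨1,
  [(3,0),(21,0),(9,0)]⟩,.k,.k,(.r (-1) ⟨5,[(2,1),(10,0),(2,1),(1,1),(4,1),(1,0),(14,0)]⟩ ⟨1,[(0,0),
  (23,0),(16,0)]⟩),(.r 0 ⟨1,[(0,0),(22,0),(17,0)]⟩ ⟨2,[(1,0),(8,0),(7,0),(5,0)]⟩),.k,.k,⟨false,0,⟨1,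
  [(2,1),(22,0),(1,0),(1,0)]⟩,⟨2,[(1,0),(8,0),(7,0),(5,0)]⟩⟩,⟨true,0,⟨1,[(25,0),(2,0),(2,0)]⟩,⟨0,
  [(26,0)]⟩⟩,⟨false,1,⟨3,[(23,0),(0,0),(18,1)]⟩,⟨0,[]⟩⟩,⟨false,1,⟨11,[(1,1),(8,7),(0,5),(6,1),(5,4),
  (0,5),(10,2)]⟩,⟨0,[(2,0),(42,0)]⟩⟩,⟨true,0,⟨0,[(41,0)]⟩,⟨0,[(40,0)]⟩⟩,⟨false,1,⟨3,[(7,0),(2,0),(0,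
  1),(12,1),(0,1),(10,0),(5,1)]⟩,⟨0,[(2,0),(37,0)]⟩⟩,[.o ⟨false,1,⟨1,[(36,0),(3,1),(2,0)]⟩,⟨0,[(41,
  0)]⟩⟩,.o ⟨false,1,⟨0,[(13,0),(29,0)]⟩,⟨0,[(41,0),(3,0)]⟩⟩,.a ⟨true,0,⟨0,[(26,0)]⟩,⟨1,[(25,0),(8,
  0),(0,0)]⟩⟩ ⟨true,0,⟨1,[(2,1),(10,0),(11,0),(14,0)]⟩,⟨0,[(0,0),(0,0)]⟩⟩ ⟨false,1,⟨1,[(13,0),(11,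
  0),(14,0),(2,1)]⟩,⟨0,[(26,0),(14,0)]⟩⟩,.o ⟨false,0,⟨7,[(0,0),(6,0),(0,0),(2,0),(1,1),(12,7),(4,0),
  (4,2)]⟩,⟨7,[(23,0),(0,0),(0,3),(10,1),(5,3)]⟩⟩]⟩) (.Q [0,-1,0,0,0,0,0,0,-1,0,0,1] (.p true [0,0,0,
  1] [] (⟨0,[(26,0)]⟩,⟨1,[(25,0),(8,0),(0,0)]⟩) .k 0 (⟨0,[]⟩,⟨0,[]⟩) .k .k) (.R ⟨1,false,false,true,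
  [1,0,0,-1],[1,-1],[0,1,0,0,0,0,0,0,-1],(⟨1,[(26,0),(8,0),(0,0)]⟩,⟨0,[(27,0)]⟩),(⟨0,[(38,0)]⟩,⟨0,
  [(39,0)]⟩),⟨1,[(4,0),(21,0),(9,0)]⟩,.k,.k,(.r (-1) ⟨9,[(0,1),(0,1),(12,0),(2,1),(1,1),(4,3),(1,0),
  (14,0)]⟩ ⟨3,[(2,1),(3,0),(1,2),(3,0),(12,0),(2,1),(6,1),(3,0),(2,2)]⟩),(.r 0 ⟨5,[(3,1),(4,0),(0,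
  0),(14,1),(1,0),(1,0),(3,1),(9,2),(3,1)]⟩ ⟨2,[(2,0),(8,0),(7,0),(5,0)]⟩),.k,.k,⟨false,0,⟨1,[(3,1),
  (22,0),(1,0),(1,0)]⟩,⟨2,[(2,0),(8,0),(7,0),(5,0)]⟩⟩,⟨true,0,⟨1,[(26,0),(2,0),(2,0)]⟩,⟨0,[(27,
  0)]⟩⟩,⟨true,0,⟨0,[(46,0)]⟩,⟨0,[]⟩⟩,⟨false,1,⟨1,[(14,0),(10,0),(0,0),(14,0),(2,0)]⟩,⟨0,[(3,0)]⟩⟩,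
  ⟨false,0,⟨0,[(42,0)]⟩,⟨0,[(41,0),(2,0)]⟩⟩,⟨false,1,⟨7,[(24,0),(0,4),(0,3),(10,1)]⟩,⟨0,[(0,0)]⟩⟩,
  [.o ⟨false,0,⟨0,[(14,0)]⟩,⟨3,[(24,0),(0,0),(16,3),(1,1)]⟩⟩,.o ⟨false,1,⟨1,[(37,0),(3,1),(2,0)]⟩,
  ⟨0,[(42,0)]⟩⟩,.a ⟨true,0,⟨0,[(27,0)]⟩,⟨1,[(26,0),(8,0),(0,0)]⟩⟩ ⟨false,0,⟨1,[(0,0),(2,0),(10,0),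
  (11,0),(19,0)]⟩,⟨1,[(25,0),(18,0)]⟩⟩ ⟨true,0,⟨1,[(14,0),(11,0),(14,0)]⟩,⟨0,[(27,0),(14,0)]⟩⟩,.o
  ⟨false,0,⟨2,[(5,0),(21,2),(4,1),(4,0)]⟩,⟨7,[(24,0),(0,0),(0,3),(10,1),(5,3)]⟩⟩]⟩) (.R ⟨2,true,
  false,true,[0,1],[0,0,0,1],[1,1,1],(⟨0,[]⟩,⟨0,[]⟩),(⟨0,[(27,0)]⟩,⟨1,[(26,0),(8,0),(0,0)]⟩),⟨0,[]⟩,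
  .k,.k,.k,(.r 0 ⟨5,[(3,1),(4,0),(0,0),(14,1),(1,0),(1,0),(3,1),(9,2),(3,1)]⟩ ⟨2,[(2,0),(8,0),(7,0),
  (5,0)]⟩),.k,.k,⟨false,0,⟨1,[(3,1),(10,0),(11,0),(14,0)]⟩,⟨1,[(25,0),(17,0)]⟩⟩,⟨true,0,⟨1,[(26,0),
  (2,0),(2,0)]⟩,⟨0,[(27,0)]⟩⟩,⟨true,0,⟨0,[(41,0)]⟩,⟨0,[(42,0)]⟩⟩,⟨false,1,⟨1,[(14,0),(10,0),(0,0),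
  (14,0),(2,0)]⟩,⟨0,[(3,0)]⟩⟩,⟨false,0,⟨0,[]⟩,⟨3,[(24,0),(0,0),(18,1)]⟩⟩,⟨true,0,⟨0,[(0,0)]⟩,⟨0,[(3,
  0),(37,0)]⟩⟩,[]⟩)))) (.I [0,1,0,1,0,0,0,-1,1] (.R ⟨1,false,false,true,[1,0,0,-1],[1,0,-1],[1,0,0,
  -1,0,0,0,0,-1],(⟨1,[(24,0),(8,0),(0,0)]⟩,⟨0,[(25,0)]⟩),(⟨0,[(33,0)]⟩,⟨0,[(34,0)]⟩),⟨1,[(2,0),(21,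
  0),(9,0)]⟩,.k,.k,(.x 0 ⟨14,[(2,5),(1,2),(2,1),(14,0),(0,0),(3,5),(2,1)]⟩ ⟨3,[(22,0),(0,0),(13,3),
  (3,1)]⟩),.k,(.r (-1) ⟨1,[(15,0),(6,0),(9,0)]⟩ ⟨15,[(0,11),(5,3),(3,7),(11,0),(0,2)]⟩),.k,⟨false,1,
  ⟨1,[(9,1),(12,0),(18,0)]⟩,⟨0,[(0,0)]⟩⟩,⟨true,0,⟨1,[(21,0),(2,0)]⟩,⟨0,[(25,0),(4,0)]⟩⟩,⟨false,1,⟨0,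
  [(39,0),(2,0)]⟩,⟨0,[(40,0)]⟩⟩,⟨false,0,⟨1,[(0,1),(2,0),(4,0),(0,0),(0,0),(13,0)]⟩,⟨1,[(14,1),(7,
  0),(2,1),(16,0)]⟩⟩,⟨true,0,⟨0,[]⟩,⟨0,[(44,0)]⟩⟩,⟨false,0,⟨3,[(0,3),(2,1),(2,0),(2,0),(0,1),(13,1),
  (16,2)]⟩,⟨5,[(9,3),(4,3),(2,1),(4,2),(2,5),(4,1),(11,0)]⟩⟩,[.o ⟨false,0,⟨0,[(26,0)]⟩,⟨3,[(14,3),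
  (7,0),(0,0),(18,1)]⟩⟩,.o ⟨false,1,⟨1,[(29,1),(5,0),(6,0)]⟩,⟨0,[(14,0)]⟩⟩,.a ⟨true,0,⟨0,[(25,0)]⟩,
  ⟨1,[(24,0),(8,0),(0,0)]⟩⟩ ⟨false,1,⟨3,[(9,1),(0,0),(6,0),(4,1),(16,0),(2,0)]⟩,⟨1,[(0,1),(5,0),(2,
  0),(31,0)]⟩⟩ ⟨true,0,⟨1,[(24,0),(1,0),(2,0)]⟩,⟨0,[(14,0),(10,0)]⟩⟩,.o ⟨false,0,⟨2,[(3,0),(21,2),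
  (4,1),(4,0)]⟩,⟨7,[(22,0),(0,0),(0,3),(10,1),(5,3)]⟩⟩]⟩) (.I [1,0,0,0,0,0,0,0,1] (.I [0,1,-1,0,0,0,
  0,1,1] (.Q [0,0,0,-1,0,0,1,1,0,1,-1,-1] (.p false [0,0,1] [1,0,0,-1] (⟨0,[(36,0)]⟩,⟨0,[(35,0)]⟩)
  .k 2 (⟨1,[(26,0),(8,0),(0,0)]⟩,⟨0,[(27,0)]⟩) .k (.r 0 ⟨3,[(0,1),(7,0),(2,0),(13,0)]⟩ ⟨3,[(12,0),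
  (9,1),(1,1),(6,0),(0,0)]⟩)) (.R ⟨1,false,false,true,[1,0,0,-1],[0,-1,1],[1,0,0,-1,0,0,0,0,-1],(⟨1,
  [(27,0),(8,0),(0,0)]⟩,⟨0,[(28,0)]⟩),(⟨2,[(5,0),(0,0),(0,0),(29,1),(6,0)]⟩,⟨0,[(36,0),(3,0)]⟩),⟨1,
  [(5,0),(21,0),(9,0)]⟩,.k,.k,(.r (-1) ⟨4,[(3,0),(7,1),(8,0),(4,1),(16,0)]⟩ ⟨2,[(2,0),(7,0),(15,0),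
  (6,0),(9,2)]⟩),(.x (-1) ⟨7,[(24,3),(0,0),(0,0),(9,7),(1,1),(1,7),(3,3)]⟩ ⟨29,[(5,5),(1,17),(2,1),
  (14,0),(0,0),(3,5),(2,1)]⟩),.k,.k,⟨false,1,⟨1,[(13,1),(11,0),(18,0)]⟩,⟨0,[(1,0)]⟩⟩,⟨true,0,⟨23,
  [(7,5),(2,1),(14,0),(0,0),(0,11),(5,13),(2,11),(3,5)]⟩,⟨0,[(22,0),(5,0)]⟩⟩,⟨false,1,⟨0,[(42,0),(2,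
  0)]⟩,⟨0,[(43,0)]⟩⟩,⟨false,0,⟨0,[(0,0),(1,0)]⟩,⟨3,[(3,1),(9,1),(0,3),(10,0),(2,3),(9,1),(4,1),(0,
  0)]⟩⟩,⟨true,0,⟨0,[]⟩,⟨0,[(47,0)]⟩⟩,⟨false,0,⟨0,[(0,0),(1,0),(40,0)]⟩,⟨1,[(13,1),(8,1),(2,0),(2,1),
  (15,0)]⟩⟩,[.o ⟨false,0,⟨0,[(21,0)]⟩,⟨1,[(14,1),(23,0),(6,0)]⟩⟩,.a ⟨true,0,⟨0,[(0,0),(27,0)]⟩,⟨0,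
  [(14,0)]⟩⟩ ⟨false,1,⟨0,[(3,0),(19,0)]⟩,⟨0,[(2,0),(40,0),(3,0)]⟩⟩ ⟨true,0,⟨0,[(0,0)]⟩,⟨8,[(9,1),(0,
  0),(2,0),(0,6),(13,8),(0,2),(3,1),(4,2)]⟩⟩,.e ⟨false,1,⟨3,[(12,1),(0,0),(6,0),(4,1),(16,0),(2,
  0)]⟩,⟨0,[(2,0),(40,0)]⟩⟩ ⟨false,0,⟨0,[(0,0)]⟩,⟨1,[(14,1),(13,1),(9,0),(6,0)]⟩⟩,.o ⟨false,0,⟨2,[(6,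
  0),(21,2),(4,1),(4,0)]⟩,⟨7,[(25,0),(0,0),(0,3),(10,1),(5,3)]⟩⟩]⟩) (.R ⟨1,true,false,true,[0,0,1],
  [1,1,-1],[1,0,0,-1,0,0,0,1],(⟨0,[(37,0)]⟩,⟨0,[(36,0)]⟩),(⟨0,[(36,0),(3,0)]⟩,⟨2,[(5,0),(0,0),(0,0),
  (29,1),(6,0)]⟩),⟨2,[(5,0),(0,0),(0,0),(29,1),(6,0)]⟩,.k,.k,.k,(.x 0 ⟨0,[(7,0)]⟩ ⟨1,[(24,1),(11,3),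
  (1,0),(1,1),(3,0)]⟩),(.r (-1) ⟨0,[(18,0),(16,0)]⟩ ⟨0,[(14,1),(18,1)]⟩),.k,⟨false,1,⟨1,[(12,1),(5,
  0),(16,0),(8,0)]⟩,⟨0,[(0,1),(6,0),(7,0),(11,0),(8,1),(3,0),(2,0)]⟩⟩,⟨true,0,⟨0,[(6,0),(37,0)]⟩,
  ⟨11,[(7,5),(2,1),(14,0),(0,0),(6,13),(2,11),(3,5)]⟩⟩,⟨false,1,⟨0,[(42,0),(2,0)]⟩,⟨0,[(43,0)]⟩⟩,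
  ⟨true,0,⟨0,[(14,0),(14,0)]⟩,⟨0,[(6,0),(0,0),(3,0),(5,1),(18,1),(3,0)]⟩⟩,⟨true,0,⟨0,[]⟩,⟨0,[(47,
  0)]⟩⟩,⟨false,0,⟨0,[(0,1),(26,0)]⟩,⟨7,[(7,3),(4,5),(4,1),(0,1),(2,5),(3,0),(0,0),(9,7),(3,3),(4,
  3)]⟩⟩,[]⟩)) (.I [0,0,2,2,-1] (.I [1,1,0,0,0,0,0,0,-1] (.I [1,1,0,-1,0,0,0,0,-1] (.R ⟨1,false,
  false,true,[1,0,0,-1],[0,1],[1,1,0,-1,0,0,0,0,-1],(⟨1,[(29,0),(8,0),(0,0)]⟩,⟨0,[(30,0)]⟩),(⟨0,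
  [(42,0)]⟩,⟨0,[(41,0)]⟩),⟨1,[(7,0),(21,0),(9,0)]⟩,.k,.k,(.r (-1) ⟨7,[(0,0),(4,0),(7,1),(6,0),(1,1),
  (4,2)]⟩ ⟨1,[(2,0),(25,0)]⟩),(.r (-1) ⟨7,[(0,0),(4,0),(7,1),(6,0),(1,1),(4,2)]⟩ ⟨1,[(2,0),(25,
  0)]⟩),(.r (-2) ⟨11,[(20,7),(1,7),(4,6),(0,0)]⟩ ⟨0,[(2,0),(1,0)]⟩),.k,⟨true,1,⟨5,[(0,0),(4,2),(14,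
  0),(1,3),(4,0),(16,1)]⟩,⟨0,[(2,0),(1,0)]⟩⟩,⟨false,1,⟨1,[(29,0),(8,0),(0,0),(6,1)]⟩,⟨13,[(2,0),(8,
  1),(0,1),(2,1),(1,3),(12,13),(4,1),(4,4)]⟩⟩,⟨true,0,⟨0,[(44,0)]⟩,⟨0,[(45,0)]⟩⟩,⟨false,0,⟨1,[(4,1),
  (24,0),(8,0),(0,0),(5,1)]⟩,⟨5,[(3,1),(1,1),(8,1),(7,1),(4,0),(2,5),(9,2)]⟩⟩,⟨false,0,⟨0,[]⟩,⟨3,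
  [(27,0),(0,0),(18,1)]⟩⟩,⟨false,0,⟨1,[(4,1),(24,0),(8,0),(0,0),(5,3)]⟩,⟨3,[(3,1),(10,3),(2,1),(4,
  1),(4,0),(2,3),(9,0)]⟩⟩,[.o ⟨false,0,⟨0,[(45,0),(3,0)]⟩,⟨0,[(17,0),(29,0)]⟩⟩,.o ⟨false,0,⟨0,[(45,
  0)]⟩,⟨1,[(40,0),(3,1),(2,0)]⟩⟩,.a ⟨true,0,⟨0,[(30,0)]⟩,⟨1,[(29,0),(8,0),(0,0)]⟩⟩ ⟨true,0,⟨0,[(0,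
  0)]⟩,⟨0,[(4,0),(40,0)]⟩⟩ ⟨false,0,⟨1,[(29,0),(8,0),(0,0),(5,1)]⟩,⟨0,[(17,0),(12,0),(16,0)]⟩⟩,.o
  ⟨false,0,⟨13,[(2,0),(8,1),(0,1),(2,1),(1,3),(12,13),(4,1),(4,4)]⟩,⟨7,[(27,0),(0,0),(0,3),(10,1),
  (5,3)]⟩⟩]⟩) (.R ⟨1,false,false,false,[1,0,0,-1],[0,1],[0,0,0,0,0,0,0,0,-1],(⟨1,[(29,0),(8,0),(0,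
  0)]⟩,⟨0,[(30,0)]⟩),(⟨0,[(42,0)]⟩,⟨0,[(41,0)]⟩),⟨1,[(7,0),(21,0),(9,0)]⟩,.k,.k,(.r (-1) ⟨5,[(1,0),
  (3,0),(7,0),(6,0),(1,1),(4,1)]⟩ ⟨1,[(2,0),(25,0)]⟩),(.r (-1) ⟨5,[(1,0),(3,0),(7,0),(6,0),(1,1),(4,
  1)]⟩ ⟨1,[(2,0),(25,0)]⟩),(.r (-2) ⟨11,[(20,7),(1,7),(4,6),(0,0)]⟩ ⟨0,[(2,0),(1,0)]⟩),.k,⟨true,1,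
  ⟨5,[(1,0),(3,0),(7,0),(6,0),(1,1),(4,1)]⟩,⟨1,[(0,0),(1,0),(1,0),(3,0),(0,0),(7,0),(20,1),(3,0)]⟩⟩,
  ⟨false,1,⟨1,[(29,0),(8,0),(0,0),(6,1)]⟩,⟨13,[(2,0),(8,1),(0,1),(2,1),(1,3),(12,13),(4,1),(4,4)]⟩⟩,
  ⟨false,1,⟨3,[(27,0),(0,0),(18,1)]⟩,⟨0,[]⟩⟩,⟨false,0,⟨1,[(0,1),(28,0),(8,0),(0,0)]⟩,⟨1,[(17,1),(9,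
  0),(2,1),(16,0)]⟩⟩,⟨true,0,⟨0,[(45,0)]⟩,⟨0,[(44,0)]⟩⟩,⟨false,0,⟨1,[(0,1),(28,0),(8,0),(0,0),(5,
  1)]⟩,⟨3,[(14,1),(0,0),(1,3),(4,0),(4,1),(2,3),(13,0),(2,0)]⟩⟩,[.o ⟨false,0,⟨0,[(45,0)]⟩,⟨1,[(40,
  0),(3,1),(2,0)]⟩⟩,.o ⟨false,1,⟨3,[(27,0),(0,0),(16,3),(1,1)]⟩,⟨0,[(17,0)]⟩⟩,.a ⟨true,0,⟨0,[(30,
  0)]⟩,⟨1,[(29,0),(8,0),(0,0)]⟩⟩ ⟨false,1,⟨1,[(27,0),(19,0)]⟩,⟨0,[(4,0)]⟩⟩ ⟨true,0,⟨1,[(29,0),(8,0),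
  (0,0),(5,1)]⟩,⟨0,[(17,0),(12,0)]⟩⟩,.o ⟨false,0,⟨13,[(2,0),(8,1),(0,1),(2,1),(1,3),(12,13),(4,1),
  (4,4)]⟩,⟨7,[(27,0),(0,0),(0,3),(10,1),(5,3)]⟩⟩]⟩)) (.R ⟨1,false,false,false,[1,0,0,-1],[0,1],[0,0,
  0,0,0,0,0,0,-1],(⟨1,[(28,0),(8,0),(0,0)]⟩,⟨0,[(29,0)]⟩),(⟨0,[(41,0)]⟩,⟨0,[(40,0)]⟩),⟨1,[(6,0),(21,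
  0),(9,0)]⟩,.k,.k,(.r (-1) ⟨4,[(4,0),(7,1),(8,0),(4,1),(16,0)]⟩ ⟨1,[(1,0),(25,0)]⟩),(.r (-1) ⟨4,
  [(4,0),(7,1),(8,0),(4,1),(16,0)]⟩ ⟨1,[(1,0),(25,0)]⟩),(.r (-2) ⟨11,[(19,7),(1,7),(4,6),(0,0)]⟩ ⟨0,
  [(1,0),(1,0)]⟩),.k,⟨true,1,⟨4,[(4,0),(7,1),(8,0),(4,1),(16,0)]⟩,⟨0,[(0,0),(0,0),(41,0)]⟩⟩,⟨false,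
  1,⟨1,[(28,0),(8,0),(0,0),(6,1)]⟩,⟨13,[(1,0),(8,1),(0,1),(2,1),(1,3),(12,13),(4,1),(4,4)]⟩⟩,⟨false,
  1,⟨3,[(26,0),(0,0),(18,1)]⟩,⟨0,[]⟩⟩,⟨false,0,⟨1,[(0,1),(27,0),(8,0),(0,0),(5,1)]⟩,⟨1,[(16,1),(9,
  0),(2,1),(16,0)]⟩⟩,⟨true,0,⟨0,[(44,0)]⟩,⟨0,[(43,0)]⟩⟩,⟨false,0,⟨1,[(0,1),(27,0),(8,0),(0,0),(5,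
  3)]⟩,⟨3,[(13,1),(0,0),(1,3),(4,0),(4,1),(2,3),(13,0),(2,0)]⟩⟩,[.o ⟨false,0,⟨0,[(44,0)]⟩,⟨1,[(39,
  0),(3,1),(2,0)]⟩⟩,.o ⟨false,1,⟨3,[(26,0),(0,0),(16,3),(1,1)]⟩,⟨0,[(16,0)]⟩⟩,.a ⟨true,0,⟨0,[(29,
  0)]⟩,⟨1,[(28,0),(8,0),(0,0)]⟩⟩ ⟨false,1,⟨1,[(26,0),(19,0)]⟩,⟨0,[(3,0)]⟩⟩ ⟨true,0,⟨1,[(28,0),(8,0),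
  (0,0),(5,1)]⟩,⟨0,[(16,0),(12,0)]⟩⟩,.o ⟨false,0,⟨13,[(1,0),(8,1),(0,1),(2,1),(1,3),(12,13),(4,1),
  (4,4)]⟩,⟨7,[(26,0),(0,0),(0,3),(10,1),(5,3)]⟩⟩]⟩)) (.Q [0,0,0,0,0,0,0,0,-1,0,0,1] (.p true [0,0,0,
  1] [] (⟨0,[(28,0)]⟩,⟨1,[(27,0),(8,0),(0,0)]⟩) .k 0 (⟨0,[]⟩,⟨0,[]⟩) .k .k) (.R ⟨2,false,false,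
  false,[0,1],[0,0,0,1],[1,1,1],(⟨0,[]⟩,⟨0,[]⟩),(⟨0,[(29,0)]⟩,⟨1,[(28,0),(8,0),(0,0)]⟩),⟨0,[]⟩,.k,
  .k,.k,(.r 0 ⟨2,[(2,0),(7,0),(15,0),(17,1),(3,1)]⟩ ⟨1,[(1,0),(25,0)]⟩),.k,.k,⟨false,0,⟨1,[(0,1),
  (27,0),(1,0),(1,0)]⟩,⟨1,[(3,1),(41,0),(0,0)]⟩⟩,⟨true,0,⟨1,[(28,0),(2,0),(2,0)]⟩,⟨0,[(29,0)]⟩⟩,
  ⟨true,0,⟨0,[(43,0)]⟩,⟨0,[(44,0)]⟩⟩,⟨false,1,⟨0,[(5,0),(40,0)]⟩,⟨0,[(0,0),(43,0)]⟩⟩,⟨false,0,⟨0,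
  []⟩,⟨3,[(26,0),(0,0),(18,1)]⟩⟩,⟨false,1,⟨3,[(3,1),(23,0),(0,1),(10,0),(6,1)]⟩,⟨0,[(0,0)]⟩⟩,[.a
  ⟨true,0,⟨1,[(3,1),(24,0),(8,0),(0,0)]⟩,⟨0,[(0,0)]⟩⟩ ⟨false,0,⟨0,[(48,0)]⟩,⟨1,[(45,0),(0,0)]⟩⟩
  ⟨true,0,⟨11,[(3,1),(1,3),(4,3),(3,1),(12,2),(0,3),(1,1),(3,1),(4,0)]⟩,⟨0,[(0,0)]⟩⟩,.o ⟨false,1,⟨3,
  [(3,1),(23,0),(0,1),(10,0),(6,1)]⟩,⟨0,[(0,0),(15,0),(27,0)]⟩⟩,.o ⟨false,1,⟨3,[(26,0),(0,0),(17,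
  1)]⟩,⟨2,[(7,0),(26,1),(4,0)]⟩⟩,.e ⟨false,0,⟨0,[]⟩,⟨3,[(26,0),(0,0),(18,1)]⟩⟩ ⟨false,1,⟨3,[(3,1),
  (23,0),(0,1),(10,0),(6,1)]⟩,⟨0,[(0,0)]⟩⟩]⟩) (.I [0,1,0,0,0,0,0,0,-1] (.R ⟨1,false,false,true,[1,0,
  0,-1],[0,0,0,1],[0,1,0,0,0,0,0,0,-1],(⟨1,[(29,0),(8,0),(0,0)]⟩,⟨0,[(30,0)]⟩),(⟨0,[(30,0)]⟩,⟨1,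
  [(29,0),(8,0),(0,0)]⟩),⟨1,[(7,0),(21,0),(9,0)]⟩,.k,.k,(.r (-1) ⟨1,[(2,0),(24,0)]⟩ ⟨2,[(4,0),(7,0),
  (15,0),(6,0),(9,2)]⟩),.k,(.r (-1) ⟨2,[(0,1),(1,0),(0,0),(1,0),(21,0),(18,0)]⟩ ⟨2,[(4,3),(7,0),(15,
  0),(6,0),(9,2)]⟩),.k,⟨false,1,⟨2,[(0,1),(2,0),(1,0),(21,0),(17,0),(0,1)]⟩,⟨0,[(4,1)]⟩⟩,⟨true,0,⟨0,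
  [(29,0)]⟩,⟨2,[(8,0),(21,5),(4,1),(4,0)]⟩⟩,⟨true,0,⟨0,[(49,0)]⟩,⟨0,[]⟩⟩,⟨false,0,⟨0,[(4,1),(24,
  0)]⟩,⟨5,[(0,1),(2,3),(1,3),(21,0),(2,11),(9,2),(4,3),(0,1)]⟩⟩,⟨false,0,⟨0,[(45,0)]⟩,⟨0,[(44,0),(2,
  0)]⟩⟩,⟨false,0,⟨0,[(4,1),(24,0),(15,0)]⟩,⟨2,[(3,1),(1,1),(11,0),(9,0),(2,5),(9,0),(5,0)]⟩⟩,[.o
  ⟨false,0,⟨0,[(1,0),(47,0)]⟩,⟨5,[(3,1),(1,1),(21,0),(2,5),(9,2),(4,1),(0,0),(0,0)]⟩⟩,.o ⟨false,0,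
  ⟨0,[(1,0)]⟩,⟨1,[(27,0),(2,1),(9,0)]⟩⟩,.a ⟨true,0,⟨0,[(30,0)]⟩,⟨1,[(29,0),(8,0),(0,0)]⟩⟩ ⟨true,0,
  ⟨0,[(0,0)]⟩,⟨0,[(4,0)]⟩⟩ ⟨false,0,⟨0,[(4,0),(24,0)]⟩,⟨5,[(3,1),(1,1),(21,0),(2,11),(9,2),(4,1),(0,
  0),(0,0)]⟩⟩,.o ⟨false,0,⟨2,[(8,0),(21,2),(4,1),(4,0)]⟩,⟨7,[(27,0),(0,0),(0,3),(10,1),(5,3)]⟩⟩]⟩)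
  (.R ⟨1,false,false,false,[1,0,0,-1],[0,1],[1,0,0,-1,0,0,0,0,-1],(⟨1,[(29,0),(8,0),(0,0)]⟩,⟨0,[(30,
  0)]⟩),(⟨0,[(42,0)]⟩,⟨0,[(41,0)]⟩),⟨1,[(7,0),(21,0),(9,0)]⟩,.k,.k,(.r (-1) ⟨1,[(2,0),(24,0)]⟩ ⟨2,
  [(4,0),(7,0),(15,0),(6,0),(9,2)]⟩),(.r (-1) ⟨1,[(2,0),(24,0)]⟩ ⟨2,[(4,0),(7,0),(15,0),(6,0),(9,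
  2)]⟩),(.r (-2) ⟨3,[(2,3),(24,2),(0,0)]⟩ ⟨0,[(0,0),(7,0),(0,0),(7,0),(20,1),(3,0),(2,2)]⟩),.k,
  ⟨true,1,⟨7,[(2,4),(0,1),(10,1),(12,2),(16,3)]⟩,⟨0,[(0,0),(7,0),(0,0),(7,0),(20,1),(3,0),(2,2)]⟩⟩,
  ⟨false,1,⟨1,[(29,0),(8,0),(0,0),(6,1)]⟩,⟨2,[(8,0),(21,2),(4,1),(4,0)]⟩⟩,⟨false,1,⟨0,[(44,0),(2,
  0)]⟩,⟨0,[(45,0)]⟩⟩,⟨false,0,⟨1,[(0,1),(28,0),(8,0),(0,0),(5,1)]⟩,⟨1,[(17,1),(9,0),(2,1),(16,0)]⟩⟩,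
  ⟨true,0,⟨0,[]⟩,⟨0,[(49,0)]⟩⟩,⟨false,0,⟨1,[(0,1),(28,0),(8,0),(0,0),(5,3)]⟩,⟨3,[(14,1),(0,0),(1,3),
  (4,0),(4,1),(2,3),(13,0),(2,0)]⟩⟩,[.o ⟨false,0,⟨0,[(45,0)]⟩,⟨1,[(40,0),(3,1),(2,0)]⟩⟩,.o ⟨false,1,
  ⟨3,[(27,0),(0,0),(16,3),(1,1)]⟩,⟨0,[(17,0)]⟩⟩,.a ⟨true,0,⟨0,[(30,0)]⟩,⟨1,[(29,0),(8,0),(0,0)]⟩⟩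
  ⟨false,1,⟨3,[(14,1),(0,0),(6,0),(4,1),(16,0),(2,0)]⟩,⟨0,[(4,0),(40,0)]⟩⟩ ⟨true,0,⟨1,[(29,0),(8,0),
  (0,0),(5,1)]⟩,⟨0,[(17,0),(12,0)]⟩⟩,.o ⟨false,0,⟨2,[(8,0),(21,2),(4,1),(4,0)]⟩,⟨7,[(27,0),(0,0),(0,
  3),(10,1),(5,3)]⟩⟩]⟩))))) (.R ⟨1,false,false,true,[1,0,0,-1],[1,-1],[0,1,0,0,0,0,0,0,-1],(⟨1,[(25,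
  0),(8,0),(0,0)]⟩,⟨0,[(26,0)]⟩),(⟨0,[(37,0)]⟩,⟨0,[(38,0)]⟩),⟨1,[(3,0),(21,0),(9,0)]⟩,.k,.k,(.r
  (-1) ⟨2,[(0,0),(15,0),(1,0),(4,0)]⟩ ⟨2,[(2,0),(4,0),(4,0),(11,0),(1,0),(4,0),(9,1)]⟩),(.r 0 ⟨2,
  [(0,0),(7,0),(14,0),(7,0),(9,2)]⟩ ⟨4,[(2,0),(6,1),(0,0),(7,0),(5,1),(1,0)]⟩),.k,.k,⟨false,0,⟨0,
  [(0,0),(40,0)]⟩,⟨4,[(2,0),(6,1),(0,0),(7,0),(5,1),(1,0)]⟩⟩,⟨true,0,⟨1,[(25,0),(2,0),(2,0)]⟩,⟨0,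
  [(26,0)]⟩⟩,⟨true,0,⟨0,[(45,0)]⟩,⟨0,[]⟩⟩,⟨true,0,⟨0,[(2,0)]⟩,⟨0,[(0,0),(25,0),(14,0)]⟩⟩,⟨false,0,
  ⟨0,[(41,0)]⟩,⟨0,[(40,0),(2,0)]⟩⟩,⟨true,0,⟨0,[(2,0),(38,0)]⟩,⟨0,[(0,0),(25,0)]⟩⟩,[.o ⟨false,0,⟨0,
  [(13,0)]⟩,⟨3,[(23,0),(0,0),(16,3),(1,1)]⟩⟩,.o ⟨false,1,⟨1,[(36,0),(3,1),(2,0)]⟩,⟨0,[(41,0)]⟩⟩,.a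
  ⟨true,0,⟨0,[(26,0)]⟩,⟨1,[(25,0),(8,0),(0,0)]⟩⟩ ⟨false,0,⟨0,[(0,0)]⟩,⟨1,[(24,0),(18,0)]⟩⟩ ⟨true,0,
  ⟨1,[(13,0),(11,0),(14,0)]⟩,⟨0,[(26,0),(14,0)]⟩⟩,.o ⟨false,0,⟨2,[(4,0),(21,2),(4,1),(4,0)]⟩,⟨7,
  [(23,0),(0,0),(0,3),(10,1),(5,3)]⟩⟩]⟩)))))) (.I [0,0,1,1,-1,0,0,2] (.Q [0,0,-1,0,1,0,2,0,0,1,-2]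
  (.p false [0,0,1] [1,0,-1] (⟨0,[(31,0)]⟩,⟨0,[(30,0)]⟩) .k 2 (⟨0,[(30,0)]⟩,⟨0,[(31,0)]⟩) .k (.r 0
  ⟨4,[(0,3),(11,1),(6,0),(0,0)]⟩ ⟨1,[(7,0),(9,1),(8,0),(0,0)]⟩)) (.K ⟨2,[1,-1,-1],(-1),0,(⟨0,[(14,
  0)]⟩,⟨0,[(32,0),(2,0)]⟩),.k,(.r (-2) ⟨5,[(13,1),(1,7),(4,0),(0,0)]⟩ ⟨1,[(1,0),(3,0),(22,0),(9,
  2)]⟩),.k,(.r (-2) ⟨3,[(8,0),(6,3),(2,1),(1,0),(0,0),(5,0),(0,0)]⟩ ⟨0,[(1,0)]⟩),.k,[⟨0,[(0,0)]⟩,⟨0,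
  [(3,0),(0,0)]⟩,⟨0,[(0,0),(0,0),(25,0)]⟩,⟨0,[(3,0)]⟩]⟩) (.Q [0,-1,0,1,0,0,0,0,-1,0,0,1] (.p true
  [0,0,0,1] [] (⟨0,[(23,0)]⟩,⟨1,[(22,0),(8,0),(0,0)]⟩) .k 0 (⟨0,[]⟩,⟨0,[]⟩) .k .k) (.Q [0,0,0,0,0,1,
  0,0,0,0,0,-1] (.p false [0,0,0,1] [] (⟨0,[(24,0)]⟩,⟨1,[(23,0),(8,0),(0,0)]⟩) .k 0 (⟨0,[]⟩,⟨0,[]⟩)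
  .k .k) (.I [1,-1,0,0,0,0,0,0,-1] (.I [0,0,-1,-1,1,0,0,0,1] (.I [0,0,2,1,-1,0,0,0,-1] (.R ⟨0,false,
  false,false,[0,0,0,1],[0,1],[1,0,0,0,0,0,0,0,1],(⟨0,[(28,0)]⟩,⟨1,[(27,0),(8,0),(0,0)]⟩),(⟨0,[(40,
  0)]⟩,⟨0,[(39,0)]⟩),⟨0,[(3,0)]⟩,.k,.k,(.r (-1) ⟨0,[(1,0)]⟩ ⟨7,[(0,3),(24,2),(0,0),(16,3)]⟩),(.r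
  (-1) ⟨0,[(1,0)]⟩ ⟨7,[(0,3),(24,2),(0,0),(16,3)]⟩),.k,.k,⟨true,1,⟨0,[(1,0)]⟩,⟨0,[(0,0)]⟩⟩,⟨false,1,
  ⟨0,[(28,0),(15,0)]⟩,⟨1,[(27,0),(2,0),(2,0)]⟩⟩,⟨true,0,⟨0,[]⟩,⟨0,[(47,0)]⟩⟩,⟨false,0,⟨0,[(4,0)]⟩,
  ⟨1,[(15,0),(10,0),(0,0),(14,0),(2,0)]⟩⟩,⟨false,0,⟨0,[]⟩,⟨0,[]⟩⟩,⟨false,0,⟨0,[]⟩,⟨0,[]⟩⟩,[.o
  ⟨false,0,⟨0,[(43,0)]⟩,⟨1,[(38,0),(3,1),(2,0)]⟩⟩,.o ⟨false,1,⟨3,[(25,0),(0,0),(16,3),(1,1)]⟩,⟨0,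
  [(15,0)]⟩⟩,.a ⟨true,0,⟨1,[(27,0),(8,0),(0,0)]⟩,⟨0,[(28,0)]⟩⟩ ⟨false,1,⟨1,[(26,0),(18,0)]⟩,⟨0,[(2,
  0),(44,0)]⟩⟩ ⟨true,0,⟨0,[(28,0),(14,0)]⟩,⟨1,[(15,0),(11,0),(14,0)]⟩⟩,.o ⟨false,0,⟨1,[(27,0),(2,0),
  (2,0)]⟩,⟨1,[(28,1),(9,0),(5,0)]⟩⟩]⟩) (.Q [0,1,0,1,0,0,0,0,1,1,0,-1] (.p false [0,0,0,1] [1] (⟨0,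
  [(28,0)]⟩,⟨1,[(27,0),(8,0),(0,0)]⟩) .k 1 (⟨0,[]⟩,⟨0,[]⟩) .k .k) (.R ⟨0,false,false,false,[0,0,0,
  1],[1,-1],[0,1],(⟨0,[(29,0)]⟩,⟨1,[(28,0),(8,0),(0,0)]⟩),(⟨0,[(40,0)]⟩,⟨0,[(41,0)]⟩),⟨0,[(4,0)]⟩,
  .k,.k,(.r (-1) ⟨0,[(2,0)]⟩ ⟨11,[(5,3),(1,0),(3,2),(14,3),(1,1),(1,1),(3,4),(9,6),(3,1)]⟩),(.r 0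
  ⟨6,[(0,1),(0,0),(8,2),(3,0),(12,1),(1,1),(0,1),(3,1),(9,2)]⟩ ⟨4,[(3,0),(8,0),(6,0),(1,0),(4,1),
  (16,0)]⟩),.k,.k,⟨false,0,⟨0,[(44,0),(3,0)]⟩,⟨5,[(1,0),(1,0),(9,0),(5,0),(1,1),(24,1)]⟩⟩,⟨true,0,
  ⟨2,[(6,0),(22,2),(4,1),(4,0)]⟩,⟨1,[(28,0),(8,0),(0,0)]⟩⟩,⟨false,0,⟨0,[(3,0),(44,0)]⟩,⟨1,[(27,0),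
  (18,0)]⟩⟩,⟨true,0,⟨0,[(3,0),(12,0),(12,0)]⟩,⟨0,[(0,0)]⟩⟩,⟨false,0,⟨0,[]⟩,⟨0,[]⟩⟩,⟨false,0,⟨0,[]⟩,
  ⟨0,[]⟩⟩,[.o ⟨false,1,⟨1,[(39,0),(3,1),(2,0)]⟩,⟨0,[(44,0)]⟩⟩,.o ⟨false,1,⟨0,[(16,0),(29,0)]⟩,⟨0,
  [(44,0),(3,0)]⟩⟩,.a ⟨true,0,⟨1,[(28,0),(8,0),(0,0)]⟩,⟨0,[(29,0)]⟩⟩ ⟨true,0,⟨0,[(48,0)]⟩,⟨0,[]⟩⟩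
  ⟨false,1,⟨0,[(16,0),(12,0),(16,0)]⟩,⟨1,[(0,0),(4,0),(22,0)]⟩⟩,.o ⟨false,0,⟨1,[(28,0),(2,0),(2,
  0)]⟩,⟨1,[(29,1),(9,0),(5,0)]⟩⟩]⟩) (.Q [0,0,0,0,0,1,0,0,0,0,-1] (.ed true [1,-1,1] .k) (.I [0,0,-1,
  -1,0,0,0,1,-1] (.R ⟨0,false,false,true,[0,0,0,1],[1,-1,1],[1,0,0,0,0,0,0,0,1],(⟨0,[(31,0)]⟩,⟨1,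
  [(30,0),(8,0),(0,0)]⟩),(⟨0,[(40,0),(1,0)]⟩,⟨0,[(1,0)]⟩),⟨0,[(6,0)]⟩,.k,.k,(.r (-1) ⟨0,[(4,0)]⟩
  ⟨11,[(7,3),(1,0),(3,2),(14,3),(1,1),(1,1),(3,4),(9,6),(3,1)]⟩),(.r (-1) ⟨3,[(17,3),(10,0),(0,2),
  (6,3)]⟩ ⟨0,[(0,0)]⟩),.k,.k,⟨false,1,⟨7,[(3,1),(12,5),(9,1),(2,2),(16,9),(1,0)]⟩,⟨0,[(0,0),(49,
  0)]⟩⟩,⟨true,0,⟨0,[(16,0),(1,0),(1,0),(10,0),(14,0)]⟩,⟨5,[(10,1),(19,2),(6,1),(1,0),(0,4),(1,1)]⟩⟩,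
  ⟨true,0,⟨0,[]⟩,⟨0,[(50,0)]⟩⟩,⟨false,0,⟨0,[(2,0),(31,0)]⟩,⟨1,[(17,1),(11,0),(0,0),(8,0),(0,0),(7,
  0)]⟩⟩,⟨false,0,⟨0,[]⟩,⟨0,[]⟩⟩,⟨false,0,⟨0,[]⟩,⟨0,[]⟩⟩,[.o ⟨false,0,⟨0,[(18,0),(1,0)]⟩,⟨3,[(17,3),
  (10,0),(0,0),(18,1)]⟩⟩,.o ⟨false,1,⟨1,[(24,1),(16,0),(6,0)]⟩,⟨0,[(17,0)]⟩⟩,.a ⟨true,0,⟨1,[(30,0),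
  (8,0),(0,0)]⟩,⟨0,[(31,0)]⟩⟩ ⟨false,1,⟨1,[(29,0),(18,0)]⟩,⟨0,[(5,0),(44,0)]⟩⟩ ⟨true,0,⟨0,[(18,0),
  (1,0),(10,0)]⟩,⟨1,[(17,1),(12,0),(8,0),(0,0)]⟩⟩,.o ⟨false,0,⟨1,[(30,0),(2,0),(2,0)]⟩,⟨1,[(31,1),
  (9,0),(5,0)]⟩⟩]⟩) (.Q [0,0,0,0,0,1,0,0,0,-1,0,1] (.p true [0,0,0,1] [1] (⟨0,[(31,0)]⟩,⟨1,[(30,0),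
  (8,0),(0,0)]⟩) .k 1 (⟨0,[]⟩,⟨0,[]⟩) .k .k) (.R ⟨0,false,false,true,[1,0,0,-1],[1,-1],[0,1,0,0,0,0,
  0,0,-1],(⟨1,[(31,0),(8,0),(0,0)]⟩,⟨0,[(32,0)]⟩),(⟨0,[(43,0)]⟩,⟨0,[(44,0)]⟩),⟨0,[(0,0)]⟩,.k,.k,(.r
  (-1) ⟨4,[(6,0),(8,0),(6,0),(1,0),(4,1),(16,0)]⟩ ⟨11,[(1,7),(8,3),(18,0),(0,2)]⟩),(.r 0 ⟨11,[(8,3),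
  (1,0),(3,2),(14,3),(1,1),(1,1),(3,4),(9,6),(3,1)]⟩ ⟨0,[(5,0)]⟩),.k,.k,⟨false,0,⟨1,[(8,1),(22,0),
  (1,0),(1,0)]⟩,⟨0,[(5,0)]⟩⟩,⟨true,0,⟨1,[(31,0),(2,0),(2,0)]⟩,⟨0,[(32,0)]⟩⟩,⟨true,0,⟨0,[(51,0)]⟩,⟨0,
  []⟩⟩,⟨false,1,⟨1,[(19,0),(10,0),(0,0),(14,0),(2,0)]⟩,⟨0,[(8,0)]⟩⟩,⟨false,0,⟨0,[]⟩,⟨0,[]⟩⟩,⟨false,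
  0,⟨0,[]⟩,⟨0,[]⟩⟩,[.o ⟨false,0,⟨0,[(19,0)]⟩,⟨3,[(29,0),(0,0),(16,3),(1,1)]⟩⟩,.o ⟨false,1,⟨1,[(42,
  0),(3,1),(2,0)]⟩,⟨0,[(47,0)]⟩⟩,.a ⟨true,0,⟨0,[(32,0)]⟩,⟨1,[(31,0),(8,0),(0,0)]⟩⟩ ⟨false,0,⟨0,[(6,
  0),(44,0)]⟩,⟨1,[(30,0),(18,0)]⟩⟩ ⟨true,0,⟨1,[(19,0),(11,0),(14,0)]⟩,⟨0,[(32,0),(14,0)]⟩⟩,.o
  ⟨false,0,⟨14,[(1,1),(1,0),(4,0),(4,1),(0,2),(4,3),(12,12),(4,2),(4,4)]⟩,⟨7,[(29,0),(0,0),(0,3),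
  (10,1),(5,3)]⟩⟩]⟩) (.R ⟨1,false,false,true,[1,0,0,-1],[1,-1],[0,1,0,0,0,0,0,0,-1],(⟨1,[(31,0),(8,
  0),(0,0)]⟩,⟨0,[(32,0)]⟩),(⟨0,[(43,0)]⟩,⟨0,[(44,0)]⟩),⟨0,[(0,0)]⟩,.k,.k,(.r (-1) ⟨4,[(6,0),(8,0),
  (6,0),(1,0),(4,1),(16,0)]⟩ ⟨11,[(1,7),(8,3),(18,0),(0,2)]⟩),(.r 0 ⟨11,[(8,3),(1,0),(3,2),(14,3),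
  (1,1),(1,1),(3,4),(9,6),(3,1)]⟩ ⟨0,[(5,0)]⟩),.k,.k,⟨false,0,⟨1,[(8,1),(22,0),(1,0),(1,0)]⟩,⟨0,[(5,
  0)]⟩⟩,⟨true,0,⟨1,[(31,0),(2,0),(2,0)]⟩,⟨0,[(32,0)]⟩⟩,⟨true,0,⟨0,[(51,0)]⟩,⟨0,[]⟩⟩,⟨false,1,⟨1,
  [(19,0),(10,0),(0,0),(14,0),(2,0)]⟩,⟨0,[(8,0)]⟩⟩,⟨false,0,⟨0,[(47,0)]⟩,⟨0,[(46,0),(2,0)]⟩⟩,⟨false,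
  1,⟨7,[(29,0),(0,4),(0,3),(10,1)]⟩,⟨0,[(6,0),(25,0)]⟩⟩,[.o ⟨false,0,⟨0,[(19,0)]⟩,⟨3,[(29,0),(0,0),
  (16,3),(1,1)]⟩⟩,.o ⟨false,1,⟨1,[(42,0),(3,1),(2,0)]⟩,⟨0,[(47,0)]⟩⟩,.a ⟨true,0,⟨0,[(32,0)]⟩,⟨1,
  [(31,0),(8,0),(0,0)]⟩⟩ ⟨false,0,⟨0,[(6,0),(44,0)]⟩,⟨1,[(30,0),(18,0)]⟩⟩ ⟨true,0,⟨1,[(19,0),(11,0),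
  (14,0)]⟩,⟨0,[(32,0),(14,0)]⟩⟩,.o ⟨false,0,⟨14,[(1,1),(1,0),(4,0),(4,1),(0,2),(4,3),(12,12),(4,2),
  (4,4)]⟩,⟨7,[(29,0),(0,0),(0,3),(10,1),(5,3)]⟩⟩]⟩))) (.R ⟨1,false,false,true,[1,0,0,-1],[1,-1],[0,
  1,0,0,0,0,0,0,-1],(⟨1,[(29,0),(8,0),(0,0)]⟩,⟨0,[(30,0)]⟩),(⟨0,[(41,0)]⟩,⟨0,[(42,0)]⟩),⟨1,[(0,0),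
  (20,0),(7,0)]⟩,.k,.k,(.r (-1) ⟨4,[(4,0),(8,0),(6,0),(1,0),(4,1),(16,0)]⟩ ⟨0,[(2,0),(9,0),(22,0),
  (9,1)]⟩),(.r 0 ⟨11,[(6,3),(1,0),(3,2),(14,3),(1,1),(1,1),(3,4),(9,6),(3,1)]⟩ ⟨0,[(3,0)]⟩),.k,.k,
  ⟨false,0,⟨1,[(6,1),(22,0),(1,0),(1,0)]⟩,⟨0,[(3,0)]⟩⟩,⟨true,0,⟨1,[(29,0),(2,0),(2,0)]⟩,⟨0,[(30,
  0)]⟩⟩,⟨true,0,⟨0,[(49,0)]⟩,⟨0,[]⟩⟩,⟨false,1,⟨1,[(17,0),(10,0),(0,0),(14,0),(2,0)]⟩,⟨0,[(6,0)]⟩⟩,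
  ⟨false,0,⟨0,[(45,0)]⟩,⟨0,[(44,0),(2,0)]⟩⟩,⟨false,1,⟨7,[(27,0),(0,4),(0,3),(10,1)]⟩,⟨0,[(4,0),(25,
  0)]⟩⟩,[.o ⟨false,0,⟨0,[(17,0)]⟩,⟨3,[(27,0),(0,0),(16,3),(1,1)]⟩⟩,.o ⟨false,1,⟨1,[(40,0),(3,1),(2,
  0)]⟩,⟨0,[(45,0)]⟩⟩,.a ⟨true,0,⟨0,[(30,0)]⟩,⟨1,[(29,0),(8,0),(0,0)]⟩⟩ ⟨false,0,⟨0,[(4,0),(44,0)]⟩,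
  ⟨1,[(28,0),(18,0)]⟩⟩ ⟨true,0,⟨1,[(17,0),(11,0),(14,0)]⟩,⟨0,[(30,0),(14,0)]⟩⟩,.o ⟨false,0,⟨2,[(7,
  0),(22,2),(4,1),(4,0)]⟩,⟨7,[(27,0),(0,0),(0,3),(10,1),(5,3)]⟩⟩]⟩)))) (.R ⟨0,false,false,false,[0,
  0,0,1],[0,1],[1,0,1,1],(⟨0,[(27,0)]⟩,⟨1,[(26,0),(8,0),(0,0)]⟩),(⟨0,[(39,0)]⟩,⟨0,[(38,0)]⟩),⟨0,[(2,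
  0)]⟩,.k,.k,(.x 0 ⟨2,[(4,0),(27,1),(4,0),(0,2)]⟩ ⟨3,[(24,0),(0,0),(13,3),(3,1)]⟩),(.x 0 ⟨2,[(4,0),
  (27,1),(4,0),(0,2)]⟩ ⟨3,[(24,0),(0,0),(13,3),(3,1)]⟩),.k,.k,⟨true,0,⟨0,[]⟩,⟨5,[(9,1),(14,0),(0,0),
  (6,1)]⟩⟩,⟨false,1,⟨0,[(27,0),(15,0)]⟩,⟨1,[(26,0),(2,0),(2,0)]⟩⟩,⟨true,(-1),⟨0,[(0,0)]⟩,⟨1,[(10,0),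
  (14,0),(15,0),(4,0)]⟩⟩,⟨false,0,⟨0,[(3,0)]⟩,⟨1,[(14,0),(10,0),(0,0),(14,0),(2,0)]⟩⟩,⟨false,0,⟨0,
  []⟩,⟨0,[]⟩⟩,⟨false,0,⟨0,[]⟩,⟨0,[]⟩⟩,[.o ⟨false,0,⟨0,[(42,0)]⟩,⟨1,[(37,0),(3,1),(2,0)]⟩⟩,.o ⟨false,
  1,⟨3,[(24,0),(0,0),(16,3),(1,1)]⟩,⟨0,[(14,0)]⟩⟩,.a ⟨true,0,⟨1,[(26,0),(8,0),(0,0)]⟩,⟨0,[(27,0)]⟩⟩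
  ⟨false,0,⟨11,[(8,3),(3,3),(11,0),(0,0),(16,7),(1,1)]⟩,⟨5,[(17,1),(1,1),(4,0),(0,0)]⟩⟩ ⟨true,0,⟨0,
  [(27,0),(14,0)]⟩,⟨1,[(14,0),(11,0),(14,0)]⟩⟩,.o ⟨false,0,⟨1,[(26,0),(2,0),(2,0)]⟩,⟨1,[(27,1),(9,
  0),(5,0)]⟩⟩]⟩)) (.Q [0,1,0,0,0,0,-1,-1,1,0,1,-1] (.p true [0,0,1] [0,0,0,1] (⟨0,[(35,0)]⟩,⟨0,[(34,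
  0)]⟩) .k 2 (⟨0,[(26,0)]⟩,⟨1,[(25,0),(8,0),(0,0)]⟩) .k (.r 0 ⟨9,[(2,5),(1,3),(8,2),(2,1),(6,1),(1,
  2),(14,2)]⟩ ⟨3,[(11,0),(9,1),(2,1),(5,0),(0,0)]⟩)) (.R ⟨2,true,false,true,[0,1],[0,0,0,1],[1,1,1],
  (⟨0,[]⟩,⟨0,[]⟩),(⟨0,[(27,0)]⟩,⟨1,[(26,0),(8,0),(0,0)]⟩),⟨0,[]⟩,.k,.k,.k,(.r 0 ⟨11,[(3,3),(1,0),(3,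
  2),(14,3),(1,1),(1,1),(3,4),(9,6),(3,1)]⟩ ⟨2,[(1,0),(8,0),(0,0),(7,0),(5,0)]⟩),.k,.k,⟨false,0,⟨1,
  [(3,1),(10,0),(11,0),(14,0)]⟩,⟨1,[(25,0),(17,0)]⟩⟩,⟨true,0,⟨1,[(26,0),(2,0),(2,0)]⟩,⟨0,[(27,0)]⟩⟩,
  ⟨true,0,⟨0,[(41,0)]⟩,⟨0,[(42,0)]⟩⟩,⟨false,1,⟨1,[(14,0),(10,0),(0,0),(14,0),(2,0)]⟩,⟨0,[(3,0)]⟩⟩,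
  ⟨false,0,⟨0,[]⟩,⟨3,[(24,0),(0,0),(18,1)]⟩⟩,⟨true,0,⟨0,[(0,0),(15,0)]⟩,⟨0,[(3,0),(37,0)]⟩⟩,[]⟩)
  (.R ⟨0,false,false,false,[0,0,0,1],[1,-1],[0,1],(⟨0,[(27,0)]⟩,⟨1,[(26,0),(8,0),(0,0)]⟩),(⟨0,[(38,
  0)]⟩,⟨0,[(39,0)]⟩),⟨0,[(2,0)]⟩,.k,.k,(.r (-1) ⟨2,[(1,0),(8,0),(0,0),(7,0),(5,0)]⟩ ⟨11,[(3,3),(1,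
  0),(3,2),(14,3),(1,1),(1,1),(3,4),(9,6),(3,1)]⟩),(.r 0 ⟨2,[(1,0),(6,0),(4,0),(11,0),(6,0),(9,0)]⟩
  ⟨7,[(0,1),(6,0),(2,0),(6,1),(1,1),(4,2),(1,0),(4,0)]⟩),.k,.k,⟨false,0,⟨0,[(42,0),(3,0)]⟩,⟨2,[(10,
  0),(0,0),(7,0),(24,0)]⟩⟩,⟨true,0,⟨2,[(4,0),(22,2),(4,1),(4,0)]⟩,⟨1,[(26,0),(8,0),(0,0)]⟩⟩,⟨false,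
  0,⟨1,[(0,0),(2,0),(10,0),(11,0),(4,0)]⟩,⟨1,[(25,0),(18,0)]⟩⟩,⟨true,0,⟨0,[(0,0),(6,0)]⟩,⟨1,[(1,1),
  (24,0),(8,0),(0,0),(5,1)]⟩⟩,⟨false,0,⟨0,[]⟩,⟨0,[]⟩⟩,⟨false,0,⟨0,[]⟩,⟨0,[]⟩⟩,[.o ⟨false,1,⟨1,[(37,
  0),(3,1),(2,0)]⟩,⟨0,[(42,0)]⟩⟩,.o ⟨false,1,⟨0,[(14,0),(29,0)]⟩,⟨0,[(42,0),(3,0)]⟩⟩,.a ⟨true,0,⟨1,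
  [(26,0),(8,0),(0,0)]⟩,⟨0,[(27,0)]⟩⟩ ⟨true,0,⟨0,[(46,0)]⟩,⟨0,[]⟩⟩ ⟨false,1,⟨0,[(14,0),(12,0),(16,
  0)]⟩,⟨1,[(26,0),(8,0),(0,0),(5,1)]⟩⟩,.o ⟨false,0,⟨1,[(26,0),(2,0),(2,0)]⟩,⟨1,[(27,1),(9,0),(5,
  0)]⟩⟩]⟩))) (.I [1,0,1,1,-1,0,0,1,-1] (.R ⟨1,false,false,false,[0,0,0,1],[0,1],[0,1,0,0,0,0,0,0,1],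
  (⟨0,[(26,0)]⟩,⟨1,[(25,0),(8,0),(0,0)]⟩),(⟨0,[(38,0)]⟩,⟨0,[(37,0)]⟩),⟨0,[(1,0)]⟩,.k,.k,(.x 0 ⟨2,
  [(1,1),(6,0),(16,0),(5,0),(4,0),(0,0)]⟩ ⟨3,[(23,0),(0,0),(13,3),(3,1)]⟩),(.x 0 ⟨2,[(1,1),(6,0),
  (16,0),(5,0),(4,0),(0,0)]⟩ ⟨3,[(23,0),(0,0),(13,3),(3,1)]⟩),(.r (-2) ⟨11,[(16,7),(1,7),(4,0),(0,
  6)]⟩ ⟨0,[(0,0),(11,0),(18,0)]⟩),.k,⟨true,1,⟨1,[(9,0),(14,0),(15,0),(4,0)]⟩,⟨0,[(0,0),(10,0)]⟩⟩,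
  ⟨false,1,⟨0,[(26,0),(15,0)]⟩,⟨1,[(25,0),(2,0),(2,0)]⟩⟩,⟨true,0,⟨0,[(45,0)]⟩,⟨0,[]⟩⟩,⟨false,0,⟨0,
  [(2,0)]⟩,⟨1,[(13,0),(10,0),(0,0),(14,0),(2,0)]⟩⟩,⟨false,0,⟨0,[(41,0)]⟩,⟨0,[(40,0),(2,0)]⟩⟩,⟨false,
  0,⟨0,[(2,0),(38,0)]⟩,⟨3,[(10,1),(0,0),(1,1),(4,0),(5,1),(0,1),(14,2),(2,0)]⟩⟩,[.o ⟨false,0,⟨0,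
  [(41,0)]⟩,⟨1,[(36,0),(3,1),(2,0)]⟩⟩,.o ⟨false,1,⟨3,[(23,0),(0,0),(16,3),(1,1)]⟩,⟨0,[(13,0)]⟩⟩,.a
  ⟨true,0,⟨1,[(25,0),(8,0),(0,0)]⟩,⟨0,[(26,0)]⟩⟩ ⟨false,1,⟨3,[(23,0),(0,2)]⟩,⟨0,[(0,0),(8,0),(1,
  0)]⟩⟩ ⟨true,0,⟨0,[(26,0),(14,0)]⟩,⟨1,[(13,0),(11,0),(14,0)]⟩⟩,.o ⟨false,0,⟨1,[(25,0),(2,0),(2,
  0)]⟩,⟨1,[(26,1),(9,0),(5,0)]⟩⟩]⟩) (.Q [0,1,0,0,0,0,0,0,1,0,0,-1] (.p false [0,0,0,1] [] (⟨0,[(26,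
  0)]⟩,⟨1,[(25,0),(8,0),(0,0)]⟩) .k 0 (⟨0,[]⟩,⟨0,[]⟩) .k .k) (.R ⟨2,true,false,true,[0,1],[0,0,0,1],
  [1,1,1],(⟨0,[]⟩,⟨0,[]⟩),(⟨0,[(27,0)]⟩,⟨1,[(26,0),(8,0),(0,0)]⟩),⟨0,[]⟩,.k,.k,.k,(.r 0 ⟨11,[(3,3),
  (1,0),(3,2),(14,3),(1,1),(1,1),(3,4),(9,6),(3,1)]⟩ ⟨2,[(1,0),(15,0),(7,0)]⟩),.k,.k,⟨false,0,⟨1,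
  [(3,1),(10,0),(11,0),(14,0)]⟩,⟨1,[(25,0),(17,0)]⟩⟩,⟨true,0,⟨1,[(26,0),(2,0),(2,0)]⟩,⟨0,[(27,0)]⟩⟩,
  ⟨true,0,⟨0,[(41,0)]⟩,⟨0,[(42,0)]⟩⟩,⟨false,1,⟨9,[(1,1),(9,1),(13,3),(0,4),(2,0),(2,0),(4,1),(3,5),
  (2,1)]⟩,⟨0,[(3,0)]⟩⟩,⟨false,0,⟨0,[]⟩,⟨3,[(24,0),(0,0),(18,1)]⟩⟩,⟨true,0,⟨0,[(0,0)]⟩,⟨0,[(3,0),(37,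
  0)]⟩⟩,[]⟩) (.R ⟨1,false,false,true,[1,0,0,-1],[1,-1],[0,1,0,0,0,0,0,0,-1],(⟨1,[(26,0),(8,0),(0,
  0)]⟩,⟨0,[(27,0)]⟩),(⟨0,[(38,0)]⟩,⟨0,[(39,0)]⟩),⟨0,[(2,0),(23,0)]⟩,.k,.k,(.r (-1) ⟨9,[(0,1),(9,1),
  (3,0),(2,1),(1,1),(4,3),(1,0),(14,0)]⟩ ⟨1,[(1,1),(3,0),(3,0),(22,0),(9,2)]⟩),(.r 0 ⟨11,[(3,3),(1,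
  0),(3,2),(14,3),(1,1),(1,1),(3,4),(9,6),(3,1)]⟩ ⟨2,[(1,0),(15,0),(7,0)]⟩),.k,.k,⟨false,0,⟨1,[(3,
  1),(22,0),(1,0),(1,0)]⟩,⟨2,[(1,0),(15,0),(7,0)]⟩⟩,⟨true,0,⟨1,[(26,0),(2,0),(2,0)]⟩,⟨0,[(27,0)]⟩⟩,
  ⟨true,0,⟨0,[(46,0)]⟩,⟨0,[]⟩⟩,⟨false,1,⟨9,[(1,1),(9,1),(13,3),(0,4),(2,0),(2,0),(4,1),(3,5),(2,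
  1)]⟩,⟨0,[(3,0)]⟩⟩,⟨false,0,⟨0,[(42,0)]⟩,⟨0,[(41,0),(2,0)]⟩⟩,⟨false,1,⟨7,[(24,0),(0,4),(0,3),(10,
  1)]⟩,⟨0,[(0,0)]⟩⟩,[.o ⟨false,0,⟨0,[(14,0)]⟩,⟨3,[(24,0),(0,0),(16,3),(1,1)]⟩⟩,.o ⟨false,1,⟨1,[(37,
  0),(3,1),(2,0)]⟩,⟨0,[(42,0)]⟩⟩,.a ⟨true,0,⟨0,[(27,0)]⟩,⟨1,[(26,0),(8,0),(0,0)]⟩⟩ ⟨false,0,⟨1,[(0,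
  0),(2,0),(10,0),(11,0),(19,0)]⟩,⟨1,[(25,0),(18,0)]⟩⟩ ⟨true,0,⟨1,[(14,0),(11,0),(14,0)]⟩,⟨0,[(27,
  0),(14,0)]⟩⟩,.o ⟨false,0,⟨2,[(4,0),(22,2),(4,1),(4,0)]⟩,⟨7,[(24,0),(0,0),(0,3),(10,1),(5,
  3)]⟩⟩]⟩)))) (.I [0,0,0,-1,0,0,0,0,1] (.I [1,0,-1,-2,1,0,0,0,-1] (.Q [0,0,0,0,0,1,0,0,0,0,0,-1]
  (.p false [0,0,0,1] [] (⟨0,[(26,0)]⟩,⟨1,[(25,0),(8,0),(0,0)]⟩) .k 0 (⟨0,[]⟩,⟨0,[]⟩) .k .k) (.I [1,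
  -1,0,0,0,0,0,0,1] (.R ⟨0,false,false,true,[0,0,0,1],[1,-1],[1,0,0,0,0,0,0,0,1],(⟨0,[(28,0)]⟩,⟨1,
  [(27,0),(8,0),(0,0)]⟩),(⟨0,[(39,0)]⟩,⟨0,[(40,0)]⟩),⟨0,[(1,0)]⟩,.k,.k,(.x 0 ⟨2,[(5,0),(27,1),(4,0),
  (0,2)]⟩ ⟨3,[(25,0),(0,0),(13,3),(3,1)]⟩),(.r 0 ⟨2,[(0,0),(9,0),(15,0),(6,0),(9,2),(3,0)]⟩ ⟨3,[(2,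
  1),(22,0),(18,0)]⟩),.k,.k,⟨false,0,⟨0,[(0,0),(42,0)]⟩,⟨3,[(2,1),(22,0),(18,0),(2,3)]⟩⟩,⟨true,0,⟨2,
  [(5,0),(22,2),(4,1),(4,0)]⟩,⟨1,[(27,0),(8,0),(0,0)]⟩⟩,⟨true,0,⟨0,[]⟩,⟨0,[(47,0)]⟩⟩,⟨false,1,⟨25,
  [(2,11),(6,1),(0,1),(2,1),(1,3),(9,6),(2,25),(4,1),(4,10)]⟩,⟨1,[(0,1),(26,0),(8,0),(0,0),(5,1)]⟩⟩,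
  ⟨false,0,⟨0,[]⟩,⟨0,[]⟩⟩,⟨false,0,⟨0,[]⟩,⟨0,[]⟩⟩,[.o ⟨false,0,⟨0,[(15,0)]⟩,⟨3,[(25,0),(0,0),(16,3),
  (1,1)]⟩⟩,.o ⟨false,1,⟨25,[(2,11),(0,1),(6,3),(15,4),(6,3),(4,12)]⟩,⟨0,[(43,0)]⟩⟩,.a ⟨true,0,⟨1,
  [(27,0),(8,0),(0,0)]⟩,⟨0,[(28,0)]⟩⟩ ⟨false,0,⟨0,[(0,0)]⟩,⟨3,[(25,2),(0,0)]⟩⟩ ⟨true,0,⟨0,[(15,0),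
  (12,0)]⟩,⟨1,[(27,0),(8,0),(0,0),(5,1)]⟩⟩,.o ⟨false,0,⟨1,[(27,0),(2,0),(2,0)]⟩,⟨1,[(28,1),(9,0),(5,
  0)]⟩⟩]⟩) (.R ⟨0,false,false,false,[0,0,0,1],[1,-1],[0,1],(⟨0,[(28,0)]⟩,⟨1,[(27,0),(8,0),(0,0)]⟩),
  (⟨0,[(39,0)]⟩,⟨0,[(40,0)]⟩),⟨0,[(1,0)]⟩,.k,.k,(.r (-1) ⟨4,[(3,0),(7,0),(6,0),(1,0),(5,1)]⟩ ⟨2,[(0,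
  0),(8,0),(4,0),(10,0),(7,0),(9,0)]⟩),(.r 0 ⟨2,[(3,0),(6,0),(15,0),(6,0),(9,3)]⟩ ⟨3,[(2,1),(22,0),
  (18,0)]⟩),.k,.k,⟨false,0,⟨0,[(43,0),(3,0)]⟩,⟨2,[(11,0),(0,0),(7,0),(24,0)]⟩⟩,⟨true,0,⟨2,[(5,0),
  (22,2),(4,1),(4,0)]⟩,⟨1,[(27,0),(8,0),(0,0)]⟩⟩,⟨true,0,⟨0,[(0,0)]⟩,⟨0,[(3,0),(39,0)]⟩⟩,⟨false,1,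
  ⟨3,[(2,1),(10,3),(3,3),(4,3),(2,0),(2,3),(15,0)]⟩,⟨1,[(3,1),(23,0),(8,0),(0,0),(5,3)]⟩⟩,⟨false,0,
  ⟨0,[]⟩,⟨0,[]⟩⟩,⟨false,0,⟨0,[]⟩,⟨0,[]⟩⟩,[.o ⟨false,1,⟨25,[(2,11),(0,1),(6,3),(15,4),(6,3),(4,12)]⟩,
  ⟨0,[(43,0)]⟩⟩,.o ⟨false,1,⟨3,[(2,0),(0,0),(8,0),(0,0),(24,1),(6,0)]⟩,⟨0,[(43,0),(3,0)]⟩⟩,.a ⟨true,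
  0,⟨1,[(27,0),(8,0),(0,0)]⟩,⟨0,[(28,0)]⟩⟩ ⟨true,0,⟨0,[(47,0)]⟩,⟨0,[]⟩⟩ ⟨false,1,⟨3,[(2,0),(0,0),(8,
  0),(0,0),(14,3),(9,1),(6,0)]⟩,⟨1,[(27,0),(8,0),(0,0),(5,1)]⟩⟩,.o ⟨false,0,⟨1,[(27,0),(2,0),(2,
  0)]⟩,⟨1,[(28,1),(9,0),(5,0)]⟩⟩]⟩)) (.Q [0,-1,0,0,0,0,0,0,1,1,0,-1] (.p false [0,0,0,1] [1] (⟨0,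
  [(27,0)]⟩,⟨1,[(26,0),(8,0),(0,0)]⟩) .k 1 (⟨0,[]⟩,⟨0,[]⟩) .k .k) (.R ⟨1,false,false,true,[0,0,0,1],
  [1,-1],[0,1,0,0,0,0,0,0,1],(⟨0,[(28,0)]⟩,⟨1,[(27,0),(8,0),(0,0)]⟩),(⟨0,[(39,0)]⟩,⟨0,[(40,0)]⟩),⟨0,
  [(1,0)]⟩,.k,.k,(.x 0 ⟨2,[(1,1),(8,0),(16,0),(5,0),(4,0),(0,0)]⟩ ⟨3,[(25,0),(0,0),(13,3),(3,1)]⟩),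
  (.r 0 ⟨2,[(3,0),(6,0),(15,0),(6,0),(9,3)]⟩ ⟨3,[(2,1),(22,0),(18,0)]⟩),.k,.k,⟨false,0,⟨0,[(3,0),
  (39,1)]⟩,⟨3,[(2,1),(22,0),(18,0)]⟩⟩,⟨true,0,⟨2,[(5,0),(22,2),(4,1),(4,0)]⟩,⟨1,[(27,0),(8,0),(0,
  0)]⟩⟩,⟨true,0,⟨0,[(47,0)]⟩,⟨0,[]⟩⟩,⟨false,1,⟨25,[(2,11),(6,1),(0,1),(2,1),(1,3),(9,6),(2,25),(4,
  1),(4,10)]⟩,⟨0,[(0,0),(42,0)]⟩⟩,⟨false,0,⟨0,[(43,0)]⟩,⟨29,[(2,13),(7,3),(1,1),(0,1),(12,6),(6,3),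
  (11,12)]⟩⟩,⟨false,1,⟨1,[(25,0),(2,1),(9,0)]⟩,⟨0,[(0,0)]⟩⟩,[.o ⟨false,0,⟨0,[(15,0)]⟩,⟨3,[(25,0),(0,
  0),(16,3),(1,1)]⟩⟩,.o ⟨false,1,⟨25,[(2,11),(0,1),(6,3),(15,4),(6,3),(4,12)]⟩,⟨0,[(43,0)]⟩⟩,.a
  ⟨true,0,⟨1,[(27,0),(8,0),(0,0)]⟩,⟨0,[(28,0)]⟩⟩ ⟨false,0,⟨0,[(3,0),(39,0)]⟩,⟨1,[(25,0),(19,0)]⟩⟩
  ⟨true,0,⟨0,[(15,0),(12,0)]⟩,⟨1,[(27,0),(8,0),(0,0),(5,1)]⟩⟩,.o ⟨false,0,⟨1,[(27,0),(2,0),(2,0)]⟩,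
  ⟨1,[(28,1),(9,0),(5,0)]⟩⟩]⟩) (.R ⟨1,false,false,false,[0,0,0,1],[1,-1],[0,0,0,0,0,0,0,0,1],(⟨0,
  [(28,0)]⟩,⟨1,[(27,0),(8,0),(0,0)]⟩),(⟨0,[(39,0)]⟩,⟨0,[(40,0)]⟩),⟨0,[(1,0)]⟩,.k,.k,(.r (-1) ⟨4,[(3,
  0),(7,0),(6,0),(1,0),(5,1)]⟩ ⟨5,[(0,1),(8,1),(4,1),(10,1),(1,0),(5,1),(2,0),(0,0),(5,1)]⟩),(.r 0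
  ⟨2,[(3,0),(6,0),(15,0),(6,0),(9,3)]⟩ ⟨3,[(2,1),(22,0),(18,0)]⟩),.k,.k,⟨false,0,⟨0,[(3,0),(39,1)]⟩,
  ⟨3,[(2,1),(22,0),(18,0)]⟩⟩,⟨true,0,⟨2,[(5,0),(22,2),(4,1),(4,0)]⟩,⟨1,[(27,0),(8,0),(0,0)]⟩⟩,
  ⟨false,1,⟨3,[(25,0),(0,0),(18,1)]⟩,⟨0,[]⟩⟩,⟨false,1,⟨5,[(0,3),(1,1),(9,1),(0,1),(14,1),(9,0),(6,
  2)]⟩,⟨1,[(3,1),(23,0),(8,0),(0,0),(5,3)]⟩⟩,⟨true,0,⟨0,[(43,0)]⟩,⟨0,[(42,0)]⟩⟩,⟨false,1,⟨0,[(0,0),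
  (44,0)]⟩,⟨1,[(3,1),(23,0),(8,0),(0,0),(5,1)]⟩⟩,[.o ⟨false,1,⟨25,[(2,11),(0,1),(6,3),(15,4),(6,3),
  (4,12)]⟩,⟨0,[(43,0)]⟩⟩,.o ⟨false,1,⟨3,[(2,0),(0,0),(8,0),(0,0),(24,1),(6,0)]⟩,⟨0,[(43,0),(3,0)]⟩⟩,
  .a ⟨true,0,⟨1,[(27,0),(8,0),(0,0)]⟩,⟨0,[(28,0)]⟩⟩ ⟨true,0,⟨0,[(3,0),(39,0)]⟩,⟨1,[(0,1),(26,0),(8,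
  0),(0,0)]⟩⟩ ⟨false,1,⟨3,[(2,0),(0,0),(8,0),(0,0),(14,3),(9,1),(6,0)]⟩,⟨1,[(27,0),(8,0),(0,0),(5,
  1)]⟩⟩,.o ⟨false,0,⟨1,[(27,0),(2,0),(2,0)]⟩,⟨1,[(28,1),(9,0),(5,0)]⟩⟩]⟩))) (.Q [0,0,0,0,0,-1,0,0,0,
  1,0,-1] (.p false [0,0,0,1] [1] (⟨0,[(26,0)]⟩,⟨1,[(25,0),(8,0),(0,0)]⟩) .k 1 (⟨0,[]⟩,⟨0,[]⟩) .k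
  .k) (.R ⟨1,false,false,false,[1,0,0,-1],[0,1],[0,1,0,0,0,0,0,0,-1],(⟨1,[(26,0),(8,0),(0,0)]⟩,⟨0,
  [(27,0)]⟩),(⟨0,[(39,0)]⟩,⟨0,[(38,0)]⟩),⟨0,[(0,0)]⟩,.k,.k,(.x 0 ⟨2,[(4,0),(27,1),(4,0),(0,2)]⟩ ⟨3,
  [(24,0),(0,0),(13,3),(3,1)]⟩),(.x 0 ⟨2,[(4,0),(27,1),(4,0),(0,2)]⟩ ⟨3,[(24,0),(0,0),(13,3),(3,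
  1)]⟩),(.r (-2) ⟨11,[(17,7),(1,7),(4,6),(0,0)]⟩ ⟨5,[(1,5),(7,1),(14,0),(0,0),(6,1)]⟩),.k,⟨true,1,
  ⟨1,[(10,0),(13,0),(16,0),(4,0)]⟩,⟨1,[(1,0),(0,0),(5,0),(3,0)]⟩⟩,⟨false,1,⟨1,[(26,0),(8,0),(0,0),
  (6,1)]⟩,⟨2,[(4,0),(22,2),(4,1),(4,0)]⟩⟩,⟨true,0,⟨0,[(46,0)]⟩,⟨0,[]⟩⟩,⟨false,0,⟨7,[(1,6),(0,0),(7,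
  3),(0,0),(0,0),(13,3),(8,3),(0,3),(7,2)]⟩,⟨1,[(14,1),(9,0),(2,1),(16,0)]⟩⟩,⟨false,0,⟨0,[(42,0)]⟩,
  ⟨0,[(41,0),(2,0)]⟩⟩,⟨false,0,⟨1,[(1,1),(24,0),(8,0),(0,0),(6,0),(0,0)]⟩,⟨3,[(11,1),(0,0),(1,3),(4,
  0),(4,1),(2,3),(13,0),(2,0)]⟩⟩,[.o ⟨false,0,⟨0,[(42,0)]⟩,⟨1,[(37,0),(3,1),(2,0)]⟩⟩,.o ⟨false,1,⟨3,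
  [(1,1),(22,1),(0,0),(17,0),(0,1)]⟩,⟨0,[(14,0)]⟩⟩,.a ⟨true,0,⟨0,[(27,0)]⟩,⟨1,[(26,0),(8,0),(0,
  0)]⟩⟩ ⟨false,1,⟨3,[(24,2),(0,0)]⟩,⟨7,[(1,4),(0,2),(7,3),(0,2),(0,2),(31,0)]⟩⟩ ⟨true,0,⟨3,[(1,1),
  (22,0),(1,1),(8,1),(0,1),(6,0)]⟩,⟨0,[(14,0),(12,0)]⟩⟩,.o ⟨false,0,⟨2,[(4,0),(22,2),(4,1),(4,0)]⟩,
  ⟨7,[(24,0),(0,0),(0,3),(10,1),(5,3)]⟩⟩]⟩) (.R ⟨0,false,false,false,[1,0,0,-1],[0,1],[0,1,0,0,0,0,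
  0,0,-1],(⟨1,[(26,0),(8,0),(0,0)]⟩,⟨0,[(27,0)]⟩),(⟨0,[(39,0)]⟩,⟨0,[(38,0)]⟩),⟨0,[(0,0)]⟩,.k,.k,(.x
  0 ⟨2,[(4,0),(27,1),(4,0),(0,2)]⟩ ⟨3,[(24,0),(0,0),(13,3),(3,1)]⟩),(.x 0 ⟨2,[(4,0),(27,1),(4,0),(0,
  2)]⟩ ⟨3,[(24,0),(0,0),(13,3),(3,1)]⟩),.k,.k,⟨true,1,⟨1,[(10,0),(13,0),(16,0),(4,0)]⟩,⟨1,[(1,0),(0,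
  0),(5,0),(3,0)]⟩⟩,⟨false,1,⟨1,[(26,0),(8,0),(0,0),(6,1)]⟩,⟨2,[(4,0),(22,2),(4,1),(4,0)]⟩⟩,⟨true,0,
  ⟨0,[(46,0)]⟩,⟨0,[]⟩⟩,⟨false,0,⟨7,[(1,6),(0,0),(7,3),(0,0),(0,0),(13,3),(8,3),(0,3),(7,2)]⟩,⟨1,
  [(14,1),(9,0),(2,1),(16,0)]⟩⟩,⟨false,0,⟨0,[]⟩,⟨0,[]⟩⟩,⟨false,0,⟨0,[]⟩,⟨0,[]⟩⟩,[.o ⟨false,0,⟨0,
  [(42,0)]⟩,⟨1,[(37,0),(3,1),(2,0)]⟩⟩,.o ⟨false,1,⟨3,[(1,1),(22,1),(0,0),(17,0),(0,1)]⟩,⟨0,[(14,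
  0)]⟩⟩,.a ⟨true,0,⟨0,[(27,0)]⟩,⟨1,[(26,0),(8,0),(0,0)]⟩⟩ ⟨false,1,⟨3,[(24,2),(0,0)]⟩,⟨7,[(1,4),(0,
  2),(7,3),(0,2),(0,2),(31,0)]⟩⟩ ⟨true,0,⟨3,[(1,1),(22,0),(1,1),(8,1),(0,1),(6,0)]⟩,⟨0,[(14,0),(12,
  0)]⟩⟩,.o ⟨false,0,⟨2,[(4,0),(22,2),(4,1),(4,0)]⟩,⟨7,[(24,0),(0,0),(0,3),(10,1),(5,3)]⟩⟩]⟩))) (.Q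
  [0,0,0,0,0,1,0,0,0,0,0,-1] (.p false [0,0,0,1] [] (⟨0,[(25,0)]⟩,⟨1,[(24,0),(8,0),(0,0)]⟩) .k 0
  (⟨0,[]⟩,⟨0,[]⟩) .k .k) (.R ⟨0,false,false,false,[0,0,0,1],[0,1],[1,0,1,1],(⟨0,[(26,0)]⟩,⟨1,[(25,
  0),(8,0),(0,0)]⟩),(⟨0,[(38,0)]⟩,⟨0,[(37,0)]⟩),⟨0,[(0,0)]⟩,.k,.k,(.r (-1) ⟨4,[(2,0),(6,1),(0,0),(7,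
  0),(5,1),(1,0)]⟩ ⟨2,[(1,0),(6,0),(14,0),(7,0),(9,1)]⟩),(.r (-1) ⟨4,[(2,0),(6,1),(0,0),(7,0),(5,1),
  (1,0)]⟩ ⟨2,[(1,0),(6,0),(14,0),(7,0),(9,1)]⟩),.k,.k,⟨true,0,⟨0,[]⟩,⟨5,[(8,1),(14,0),(0,0),(6,
  1)]⟩⟩,⟨false,1,⟨0,[(26,0),(15,0)]⟩,⟨1,[(25,0),(2,0),(2,0)]⟩⟩,⟨false,0,⟨5,[(1,3),(5,1),(3,1),(11,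
  0),(19,0)]⟩,⟨4,[(2,0),(6,1),(0,0),(7,0),(5,1),(1,0)]⟩⟩,⟨true,0,⟨0,[(1,0),(24,0)]⟩,⟨0,[(2,0)]⟩⟩,
  ⟨false,0,⟨0,[]⟩,⟨0,[]⟩⟩,⟨false,0,⟨0,[]⟩,⟨0,[]⟩⟩,[.o ⟨false,0,⟨0,[(41,0)]⟩,⟨1,[(36,0),(3,1),(2,
  0)]⟩⟩,.o ⟨false,1,⟨3,[(23,0),(0,0),(16,3),(1,1)]⟩,⟨0,[(13,0)]⟩⟩,.a ⟨true,0,⟨1,[(25,0),(8,0),(0,
  0)]⟩,⟨0,[(26,0)]⟩⟩ ⟨false,0,⟨11,[(7,3),(3,3),(11,0),(0,0),(16,7),(1,1)]⟩,⟨5,[(16,1),(1,1),(4,0),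
  (0,0)]⟩⟩ ⟨true,0,⟨0,[(26,0),(14,0)]⟩,⟨1,[(13,0),(11,0),(14,0)]⟩⟩,.o ⟨false,0,⟨1,[(25,0),(2,0),(2,
  0)]⟩,⟨1,[(26,1),(9,0),(5,0)]⟩⟩]⟩) (.I [0,0,2,2,-1,0,0,0,-1] (.R ⟨1,false,false,true,[0,0,0,1],[0,
  1],[1,1,0,-1,0,0,0,0,1],(⟨0,[(27,0)]⟩,⟨1,[(26,0),(8,0),(0,0)]⟩),(⟨0,[(39,0)]⟩,⟨0,[(38,0)]⟩),⟨0,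
  [(1,0)]⟩,.k,.k,(.r (-1) ⟨4,[(3,0),(6,1),(0,0),(7,0),(5,1),(1,0)]⟩ ⟨7,[(0,3),(23,2),(0,0)]⟩),(.r
  (-1) ⟨4,[(3,0),(6,1),(0,0),(7,0),(5,1),(1,0)]⟩ ⟨7,[(0,3),(23,2),(0,0)]⟩),(.r (-2) ⟨11,[(17,7),(1,
  7),(4,0),(0,6)]⟩ ⟨0,[(0,0)]⟩),.k,⟨true,1,⟨4,[(3,2),(6,0),(0,2),(7,2),(5,0),(1,2)]⟩,⟨0,[(0,0)]⟩⟩,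
  ⟨false,1,⟨0,[(27,0),(15,0)]⟩,⟨1,[(26,0),(2,0),(2,0)]⟩⟩,⟨true,0,⟨0,[(41,0)]⟩,⟨0,[(42,0)]⟩⟩,⟨false,
  0,⟨0,[(2,0),(24,0)]⟩,⟨0,[(3,0),(40,0)]⟩⟩,⟨false,0,⟨0,[]⟩,⟨3,[(24,0),(0,0),(18,1)]⟩⟩,⟨false,0,⟨0,
  [(2,0),(24,0),(14,0)]⟩,⟨3,[(3,3),(7,1),(0,0),(6,0),(21,0),(2,2)]⟩⟩,[.o ⟨false,0,⟨0,[(42,0),(3,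
  0)]⟩,⟨0,[(14,0),(29,0)]⟩⟩,.o ⟨false,0,⟨0,[(42,0)]⟩,⟨1,[(37,0),(3,1),(2,0)]⟩⟩,.a ⟨true,0,⟨1,[(26,
  0),(8,0),(0,0)]⟩,⟨0,[(27,0)]⟩⟩ ⟨true,0,⟨0,[(3,0),(23,0)]⟩,⟨0,[(0,0),(9,0)]⟩⟩ ⟨false,0,⟨0,[(27,0),
  (14,0)]⟩,⟨21,[(3,9),(7,7),(0,3),(6,3),(4,4),(1,5),(10,2),(6,9)]⟩⟩,.o ⟨false,0,⟨1,[(26,0),(2,0),(2,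
  0)]⟩,⟨1,[(27,1),(9,0),(5,0)]⟩⟩]⟩) (.I [0,0,0,0,0,0,0,0,1] (.R ⟨1,false,false,false,[0,0,0,1],[1,
  -1],[1],(⟨0,[(28,0)]⟩,⟨1,[(27,0),(8,0),(0,0)]⟩),(⟨0,[(39,0)]⟩,⟨0,[(40,0)]⟩),⟨0,[(2,0)]⟩,.k,.k,(.r
  (-1) ⟨4,[(1,0),(16,0),(1,0),(5,1)]⟩ ⟨2,[(3,0),(6,0),(14,0),(7,0),(9,1)]⟩),(.r 0 ⟨2,[(0,0),(9,0),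
  (15,0),(6,0),(9,2)]⟩ ⟨3,[(3,1),(8,0),(5,0),(1,1),(4,0),(16,0)]⟩),.k,.k,⟨false,0,⟨0,[(43,0)]⟩,⟨5,
  [(18,1),(1,1),(4,0),(0,0)]⟩⟩,⟨true,0,⟨2,[(5,0),(22,2),(4,1),(4,0)]⟩,⟨1,[(27,0),(8,0),(0,0)]⟩⟩,
  ⟨false,1,⟨1,[(25,0),(19,0)]⟩,⟨0,[(0,0)]⟩⟩,⟨false,1,⟨2,[(3,0),(7,0),(0,1),(0,1),(1,0),(9,0),(2,2),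
  (9,0)]⟩,⟨1,[(0,1),(26,0),(8,0),(0,0),(5,1)]⟩⟩,⟨true,0,⟨0,[(3,0)]⟩,⟨0,[(0,0),(41,0)]⟩⟩,⟨false,1,⟨9,
  [(3,5),(7,1),(0,3),(0,3),(11,1),(2,9),(9,4),(6,0)]⟩,⟨1,[(0,1),(26,0),(8,0),(0,0)]⟩⟩,[.o ⟨false,1,
  ⟨1,[(38,0),(3,1),(2,0)]⟩,⟨0,[(43,0)]⟩⟩,.o ⟨false,1,⟨0,[(15,0),(29,0)]⟩,⟨0,[(43,0),(3,0)]⟩⟩,.a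
  ⟨true,0,⟨1,[(27,0),(8,0),(0,0)]⟩,⟨0,[(28,0)]⟩⟩ ⟨true,0,⟨0,[]⟩,⟨0,[(47,0)]⟩⟩ ⟨false,1,⟨0,[(15,0),
  (12,0),(16,0)]⟩,⟨1,[(27,0),(8,0),(0,0),(5,1)]⟩⟩,.o ⟨false,0,⟨1,[(27,0),(2,0),(2,0)]⟩,⟨1,[(28,1),
  (9,0),(5,0)]⟩⟩]⟩) (.Q [0,0,0,1,0,0,0,0,2,1,0,-2] (.p false [0,0,0,1] [1,0,0,-1] (⟨0,[(28,0)]⟩,⟨1,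
  [(27,0),(8,0),(0,0)]⟩) .k 2 (⟨1,[(27,0),(8,0),(0,0)]⟩,⟨0,[(28,0)]⟩) .k .k) (.Q [0,0,0,0,0,0,0,0,1,
  1,0,-1] (.p false [0,0,0,1] [1] (⟨0,[(29,0)]⟩,⟨1,[(28,0),(8,0),(0,0)]⟩) .k 1 (⟨0,[]⟩,⟨0,[]⟩) .k
  .k) (.R ⟨2,false,false,false,[0,1],[0,0,0,1],[1,1,1],(⟨0,[]⟩,⟨0,[]⟩),(⟨0,[(30,0)]⟩,⟨1,[(29,0),(8,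
  0),(0,0)]⟩),⟨0,[]⟩,.k,.k,.k,(.r 0 ⟨2,[(5,0),(6,0),(14,0),(7,0),(9,1)]⟩ ⟨4,[(3,0),(16,0),(1,0),(5,
  1)]⟩),.k,.k,⟨false,0,⟨0,[(2,0),(46,0)]⟩,⟨13,[(1,1),(1,9),(7,1),(3,1),(14,3),(9,0),(4,15),(1,4)]⟩⟩,
  ⟨true,0,⟨1,[(29,0),(2,0),(2,0)]⟩,⟨0,[(30,0)]⟩⟩,⟨true,0,⟨0,[(44,0)]⟩,⟨0,[(45,0)]⟩⟩,⟨false,1,⟨0,[(6,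
  0),(40,0)]⟩,⟨0,[(5,0),(24,0)]⟩⟩,⟨false,0,⟨0,[]⟩,⟨3,[(27,0),(0,0),(18,1)]⟩⟩,⟨false,1,⟨4,[(1,0),(4,
  0),(21,0),(0,0),(10,0),(6,2)]⟩,⟨0,[(2,0),(27,0)]⟩⟩,[.a ⟨true,0,⟨0,[(0,0)]⟩,⟨0,[(2,0),(27,0)]⟩⟩
  ⟨false,0,⟨0,[(49,0)]⟩,⟨1,[(46,0),(0,0)]⟩⟩ ⟨true,0,⟨5,[(1,1),(4,1),(5,1),(22,1),(4,0),(6,0)]⟩,⟨0,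
  [(2,0),(27,0)]⟩⟩,.o ⟨false,1,⟨4,[(1,0),(4,0),(21,0),(0,0),(10,0),(6,2)]⟩,⟨0,[(5,0),(11,0),(12,
  0)]⟩⟩,.o ⟨false,1,⟨3,[(27,0),(0,0),(17,1)]⟩,⟨2,[(7,0),(27,1),(4,0)]⟩⟩,.e ⟨false,0,⟨0,[]⟩,⟨3,[(27,
  0),(0,0),(18,1)]⟩⟩ ⟨false,1,⟨4,[(1,0),(4,0),(21,0),(0,0),(10,0),(6,2)]⟩,⟨0,[(2,0),(27,0)]⟩⟩]⟩)
  (.R ⟨2,true,false,false,[0,1],[1,0,0,-1],[1,1,1],(⟨0,[]⟩,⟨0,[]⟩),(⟨1,[(29,0),(8,0),(0,0)]⟩,⟨0,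
  [(30,0)]⟩),⟨0,[]⟩,.k,.k,.k,(.r 0 ⟨5,[(1,0),(9,0),(0,0),(15,1),(1,1),(0,0),(3,1),(9,3)]⟩ ⟨2,[(2,0),
  (17,0),(1,0),(4,0)]⟩),.k,.k,⟨false,0,⟨2,[(1,0),(4,0),(23,2),(0,0),(1,0)]⟩,⟨1,[(2,0),(2,0),(7,0),
  (33,0)]⟩⟩,⟨true,0,⟨2,[(7,0),(22,2),(4,1),(4,0)]⟩,⟨1,[(29,0),(8,0),(0,0)]⟩⟩,⟨true,0,⟨0,[(44,0)]⟩,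
  ⟨0,[(45,0)]⟩⟩,⟨false,1,⟨0,[(0,0),(43,0),(2,0)]⟩,⟨1,[(1,0),(36,0),(0,0),(5,0)]⟩⟩,⟨false,0,⟨0,[]⟩,
  ⟨3,[(27,0),(0,0),(18,1)]⟩⟩,⟨true,0,⟨0,[(0,0)]⟩,⟨1,[(1,0),(36,0),(0,0),(4,0),(4,0)]⟩⟩,[]⟩)) (.R ⟨1,
  false,false,true,[1,0,0,-1],[1,-1],[0,1,0,0,0,0,0,0,-1],(⟨1,[(28,0),(8,0),(0,0)]⟩,⟨0,[(29,0)]⟩),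
  (⟨0,[(40,0)]⟩,⟨0,[(41,0)]⟩),⟨0,[(3,0),(24,0)]⟩,.k,.k,(.r (-1) ⟨7,[(0,0),(11,0),(6,1),(1,1),(4,2),
  (1,0)]⟩ ⟨2,[(5,0),(4,0),(4,0),(11,0),(1,0),(4,0),(9,1)]⟩),(.r 0 ⟨2,[(4,0),(6,0),(14,0),(7,0),(9,
  1)]⟩ ⟨4,[(2,0),(16,0),(1,0),(5,1)]⟩),.k,.k,⟨false,0,⟨1,[(0,0),(27,0),(15,2)]⟩,⟨4,[(2,0),(16,0),(1,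
  0),(5,1)]⟩⟩,⟨true,0,⟨1,[(28,0),(2,0),(2,0)]⟩,⟨0,[(29,0)]⟩⟩,⟨true,0,⟨0,[(48,0)]⟩,⟨0,[]⟩⟩,⟨true,0,
  ⟨0,[(5,0)]⟩,⟨0,[(4,0),(24,0)]⟩⟩,⟨false,0,⟨0,[(44,0)]⟩,⟨0,[(43,0),(2,0)]⟩⟩,⟨true,0,⟨0,[(5,0),(38,
  0)]⟩,⟨2,[(0,0),(3,0),(24,0),(7,0),(0,0)]⟩⟩,[.o ⟨false,0,⟨0,[(16,0)]⟩,⟨3,[(26,0),(0,0),(16,3),(1,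
  1)]⟩⟩,.o ⟨false,1,⟨1,[(39,0),(3,1),(2,0)]⟩,⟨0,[(44,0)]⟩⟩,.a ⟨true,0,⟨0,[(29,0)]⟩,⟨1,[(28,0),(8,0),
  (0,0)]⟩⟩ ⟨false,0,⟨2,[(0,0),(3,0),(23,0)]⟩,⟨1,[(27,0),(18,0)]⟩⟩ ⟨true,0,⟨1,[(16,0),(11,0),(14,
  0)]⟩,⟨0,[(29,0),(14,0)]⟩⟩,.o ⟨false,0,⟨2,[(6,0),(22,2),(4,1),(4,0)]⟩,⟨7,[(26,0),(0,0),(0,3),(10,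
  1),(5,3)]⟩⟩]⟩)))))))) (.K ⟨2,[1,-1,-1],(-1),0,(⟨0,[(13,0)]⟩,⟨0,[(31,0),(2,0)]⟩),.k,(.r (-2) ⟨5,
  [(12,1),(1,7),(4,0),(0,0)]⟩ ⟨0,[(3,0),(33,0),(3,0)]⟩),.k,(.x 0 ⟨2,[(1,0),(11,3),(10,3)]⟩ ⟨0,[(0,
  0),(10,1),(19,1),(2,0),(2,0)]⟩),.k,[⟨0,[(0,0),(10,1),(18,0),(0,0),(5,0)]⟩,⟨0,[(2,0),(0,0)]⟩,⟨0,
  [(25,0),(4,0),(0,0),(5,0)]⟩,⟨0,[(2,0)]⟩]⟩)))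

theorem ok62 : chk (cU (-1) false 2) t62 r42 = true := by decide +kernel

noncomputable def t66 : Tre :=
  (.Q [0,0,1,0,0,0,2,0,0,0,-2] (.p false [0,0,1] [0,1,-1] (⟨0,[(29,0)]⟩,⟨0,[(28,0)]⟩) .k 2 (⟨0,[(1,
  0)]⟩,⟨0,[(29,0),(1,0)]⟩) .k (.r 0 ⟨0,[(27,1)]⟩ ⟨1,[(5,0),(9,1),(8,0),(0,0)]⟩)) (.K ⟨2,[0,1,-1],0,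
  0,(⟨0,[(2,0)]⟩,⟨0,[(30,0),(1,0)]⟩),.k,.k,(.r 0 ⟨0,[(0,0),(6,0),(19,0),(8,0)]⟩ ⟨0,[(11,0)]⟩),(.x
  (-1) ⟨3,[(2,3),(14,3),(0,0),(0,0),(9,3),(7,1)]⟩ ⟨0,[(1,0)]⟩),.k,[⟨0,[(0,0)]⟩,⟨1,[(17,0),(11,0),(0,
  0)]⟩,⟨0,[(14,0)]⟩,⟨0,[(25,0),(10,0)]⟩]⟩) (.Q [0,0,0,1,0,0,-2,-2,0,0,2] (.p true [0,0,1] [0,1,-1]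
  (⟨0,[(30,0)]⟩,⟨0,[(29,0)]⟩) .k 2 (⟨0,[(2,0)]⟩,⟨0,[(30,0),(1,0)]⟩) .k (.r 0 ⟨0,[(28,1)]⟩ ⟨1,[(6,0),
  (9,1),(8,0),(0,0)]⟩)) (.R ⟨1,true,false,false,[1,0,-1],[1,-1,1],[0,1,0,0,0,0,0,-1],(⟨0,[(30,0)]⟩,
  ⟨0,[(31,0)]⟩),(⟨0,[(31,0),(1,0)]⟩,⟨0,[(3,0)]⟩),⟨0,[(13,0)]⟩,.k,.k,.k,(.x (-1) ⟨3,[(1,3),(1,3),(15,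
  0),(0,0),(9,3),(1,1)]⟩ ⟨0,[(2,0)]⟩),.k,.k,⟨true,0,⟨1,[(0,0),(1,1),(0,2),(9,0),(9,0),(2,0),(10,
  0)]⟩,⟨0,[(6,0),(22,0)]⟩⟩,⟨false,1,⟨5,[(4,3),(14,0),(0,0),(6,7)]⟩,⟨0,[(1,0)]⟩⟩,⟨true,0,⟨0,[(41,
  0)]⟩,⟨0,[]⟩⟩,⟨false,1,⟨0,[(11,0),(3,0),(23,0)]⟩,⟨0,[(0,0)]⟩⟩,⟨false,0,⟨0,[(37,0)]⟩,⟨0,[(36,0),(2,
  0)]⟩⟩,⟨true,0,⟨0,[(11,1)]⟩,⟨0,[(0,0),(35,0)]⟩⟩,[]⟩) (.R ⟨1,true,false,true,[1,-1,1],[1,0,-1],[0,0,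
  -1,-1,0,0,0,1],(⟨0,[(31,0),(1,0)]⟩,⟨0,[(3,0)]⟩),(⟨0,[(30,0)]⟩,⟨0,[(31,0)]⟩),⟨0,[(1,0),(0,0),(10,
  0)]⟩,.k,.k,(.r (-1) ⟨0,[(12,0)]⟩ ⟨1,[(8,1),(18,2),(0,0),(8,1)]⟩),(.x 0 ⟨0,[(2,0)]⟩ ⟨3,[(1,3),(1,
  3),(15,0),(0,0),(9,3),(1,1)]⟩),(.r (-1) ⟨0,[(12,0),(16,0)]⟩ ⟨0,[(8,1),(18,1)]⟩),.k,⟨false,1,⟨9,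
  [(0,7),(0,9),(2,3),(7,0),(16,2),(9,4)]⟩,⟨1,[(2,1),(0,2),(4,1),(4,0),(9,0),(2,0)]⟩⟩,⟨true,0,⟨0,[(1,
  0)]⟩,⟨0,[(27,1)]⟩⟩,⟨false,1,⟨3,[(19,0),(0,0),(18,1)]⟩,⟨0,[]⟩⟩,⟨true,0,⟨0,[(8,0),(17,0)]⟩,⟨0,[(0,
  0)]⟩⟩,⟨true,0,⟨0,[(37,0)]⟩,⟨0,[(36,0)]⟩⟩,⟨false,0,⟨0,[(8,1)]⟩,⟨0,[(0,0),(35,0),(2,0)]⟩⟩,[]⟩)))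

theorem ok66 : chk (cU (-1) false 2) t66 l44 = true := by decide +kernel

noncomputable def t76 : Tre :=
  (.R ⟨0,false,false,false,[0,1,-1],[0,1],[0,1,1],(⟨0,[(1,0)]⟩,⟨0,[(25,0),(1,0)]⟩),(⟨0,[(28,0)]⟩,⟨0,
  [(27,0)]⟩),⟨0,[(25,0)]⟩,.k,.k,.k,.k,.k,.k,⟨true,0,⟨0,[(30,0)]⟩,⟨0,[(29,0),(1,0)]⟩⟩,⟨false,1,⟨0,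
  [(5,0),(5,0)]⟩,⟨3,[(0,0),(11,0),(9,0)]⟩⟩,⟨false,0,⟨3,[(0,0),(1,3),(9,0),(9,0)]⟩,⟨0,[(11,0),(17,0),
  (1,0)]⟩⟩,⟨true,0,⟨0,[(5,0)]⟩,⟨0,[(20,0)]⟩⟩,⟨false,0,⟨0,[]⟩,⟨0,[]⟩⟩,⟨false,0,⟨0,[]⟩,⟨0,[]⟩⟩,[.o
  ⟨false,0,⟨0,[(31,0)]⟩,⟨1,[(26,0),(3,1),(2,0)]⟩⟩,.o ⟨false,1,⟨3,[(13,0),(0,0),(16,3),(1,1)]⟩,⟨0,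
  [(3,0)]⟩⟩,.a ⟨true,0,⟨0,[(0,0)]⟩,⟨0,[(21,0)]⟩⟩ ⟨false,0,⟨1,[(21,0),(0,0)]⟩,⟨1,[(32,0),(0,0)]⟩⟩
  ⟨true,0,⟨0,[(21,0),(9,0)]⟩,⟨0,[(0,0),(2,0)]⟩⟩,.o ⟨false,0,⟨3,[(0,0),(11,0),(9,0)]⟩,⟨1,[(5,0),(5,
  0),(9,0),(4,0)]⟩⟩]⟩)

theorem ok76 : chk (cU (-1) false 2) t76 l46 = true := by decide +kernel

noncomputable def t79 : Tre :=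
  (.R ⟨1,true,true,false,[1,-1,1],[],[1,1,-1,-2,0,0,0,1],(⟨0,[(30,0),(1,0)]⟩,⟨0,[(6,0)]⟩),(⟨0,[]⟩,
  ⟨0,[]⟩),⟨0,[(2,0),(0,0),(8,0)]⟩,.k,.k,(.r (-1) ⟨0,[(11,0)]⟩ ⟨1,[(1,1),(3,0),(17,0),(2,1)]⟩),.k,
  (.r (-1) ⟨0,[(11,0)]⟩ ⟨1,[(1,1),(3,0),(17,0),(2,1)]⟩),.k,⟨true,0,⟨0,[(0,0)]⟩,⟨0,[(1,0),(3,0),(28,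
  0)]⟩⟩,⟨false,1,⟨0,[(1,0),(9,0)]⟩,⟨0,[(5,0)]⟩⟩,⟨true,0,⟨0,[(35,0)]⟩,⟨0,[(36,0)]⟩⟩,⟨false,1,⟨11,[(1,
  7),(11,3),(4,0),(0,0),(7,3),(1,3),(0,3),(7,5)]⟩,⟨0,[(4,0)]⟩⟩,⟨false,0,⟨0,[]⟩,⟨3,[(18,0),(0,0),(18,
  1)]⟩⟩,⟨true,0,⟨0,[(1,0)]⟩,⟨0,[(0,0),(4,0)]⟩⟩,[]⟩)

theorem ok79 : chk (cU (-1) false 2) t79 l51 = true := by decide +kernel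

noncomputable def t82 : Tre :=
  (.R ⟨1,true,true,false,[1,-1,1],[],[0,1,-1,-1,0,0,0,1],(⟨0,[(33,0),(1,0)]⟩,⟨0,[(9,0)]⟩),(⟨0,[]⟩,
  ⟨0,[]⟩),⟨0,[(5,0),(0,0),(8,0)]⟩,.k,.k,(.r (-1) ⟨0,[(14,0)]⟩ ⟨1,[(3,1),(25,0),(0,0),(12,1)]⟩),.k,
  (.r (-1) ⟨0,[(14,0)]⟩ ⟨1,[(3,1),(25,0),(0,0),(12,1)]⟩),.k,⟨true,0,⟨0,[(0,0)]⟩,⟨1,[(3,0),(24,0),(0,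
  0),(7,1)]⟩⟩,⟨false,1,⟨0,[(4,0),(9,0)]⟩,⟨0,[(8,0)]⟩⟩,⟨true,0,⟨0,[(43,0)]⟩,⟨0,[]⟩⟩,⟨false,1,⟨11,[(4,
  7),(11,3),(4,0),(0,0),(7,3),(1,3),(0,3),(7,5)]⟩,⟨0,[(7,0)]⟩⟩,⟨false,0,⟨0,[(39,0)]⟩,⟨0,[(38,0),(2,
  0)]⟩⟩,⟨true,0,⟨0,[(4,0)]⟩,⟨0,[(7,0),(30,0)]⟩⟩,[]⟩)

theorem ok82 : chk (cU (-1) false 2) t82 l54 = true := by decide +kernel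

noncomputable def t83 : Tre :=
  (.Q [0,0,2,0,-1,0,-1,0,0,-1,1] (.p true [0,0,1] [1] (⟨0,[(35,0)]⟩,⟨0,[(34,0)]⟩) .k 1 (⟨0,[]⟩,⟨0,
  []⟩) .k .k) (.K ⟨2,[1,-1,-1],(-1),0,(⟨0,[(18,0)]⟩,⟨0,[(36,0),(2,0)]⟩),.k,(.r (-2) ⟨5,[(17,1),(1,
  7),(4,0),(0,0)]⟩ ⟨0,[(0,0),(6,0),(8,1)]⟩),.k,(.x 0 ⟨1,[(12,0),(5,2),(4,0),(5,1)]⟩ ⟨0,[(9,0),(29,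
  1),(3,0)]⟩),.k,[⟨0,[(9,0),(2,0),(22,0),(7,0)]⟩,⟨0,[(0,0)]⟩,⟨0,[(7,0),(8,0),(3,0)]⟩,⟨0,[(1,0)]⟩]⟩)
  (.Q [0,0,2,0,-1,0,-1,0,0,0,1] (.p true [0,0,1] [] (⟨0,[(36,0)]⟩,⟨0,[(35,0)]⟩) .k 0 (⟨0,[]⟩,⟨0,
  []⟩) .k .k) (.K ⟨0,[0,1,1],1,0,(⟨0,[(37,0),(2,0)]⟩,⟨0,[(19,0)]⟩),.k,.k,(.r 1 ⟨0,[(0,0),(16,0),(25,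
  1)]⟩ ⟨5,[(18,1),(1,7),(4,0),(0,0)]⟩),.k,.k,[⟨0,[(0,0)]⟩,⟨0,[(1,0)]⟩,⟨0,[(2,0),(33,0),(0,0)]⟩,⟨0,
  [(31,0),(11,0)]⟩]⟩) (.I [0,0,0,0,0,0,0,0,-1] (.I [0,-1,0,0,0,0,0,0,-1] (.Q [0,0,0,0,0,1,0,0,0,0,0,
  -1] (.p false [0,0,0,1] [] (⟨0,[(30,0)]⟩,⟨1,[(29,0),(8,0),(0,0)]⟩) .k 0 (⟨0,[]⟩,⟨0,[]⟩) .k .k)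
  (.I [0,0,2,1,-1,0,0,1,-1] (.R ⟨0,false,false,false,[0,0,0,1],[0,1,1],[1,0,0,0,0,0,0,0,1],(⟨0,[(32,
  0)]⟩,⟨1,[(31,0),(8,0),(0,0)]⟩),(⟨0,[(41,0),(2,0)]⟩,⟨0,[(23,0)]⟩),⟨0,[(1,0)]⟩,.k,.k,(.r (-1) ⟨3,
  [(10,1),(19,0),(18,0)]⟩ ⟨2,[(0,0),(10,0),(17,0),(21,0)]⟩),(.r (-1) ⟨0,[(8,0),(1,0)]⟩ ⟨15,[(0,7),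
  (11,3),(8,3),(7,4),(0,0),(8,7),(2,1)]⟩),.k,.k,⟨true,1,⟨0,[(8,0),(1,0)]⟩,⟨0,[(0,0)]⟩⟩,⟨false,1,⟨0,
  [(4,0),(27,0)]⟩,⟨1,[(31,0),(2,0),(3,0)]⟩⟩,⟨true,0,⟨0,[]⟩,⟨0,[(51,0)]⟩⟩,⟨false,0,⟨0,[(2,0),(18,0),
  (10,0),(14,0)]⟩,⟨5,[(6,2),(6,0),(10,2),(5,2),(0,2),(6,0),(6,2)]⟩⟩,⟨false,0,⟨0,[]⟩,⟨0,[]⟩⟩,⟨false,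
  0,⟨0,[]⟩,⟨0,[]⟩⟩,[.o ⟨false,0,⟨0,[(21,0),(25,0)]⟩,⟨3,[(6,3),(22,0),(0,0),(18,1)]⟩⟩,.o ⟨false,1,⟨7,
  [(12,3),(8,11),(7,0),(0,0),(11,1),(6,3)]⟩,⟨0,[(6,0)]⟩⟩,.a ⟨true,0,⟨1,[(31,0),(8,0),(0,0)]⟩,⟨0,
  [(32,0)]⟩⟩ ⟨false,1,⟨1,[(30,0),(18,0)]⟩,⟨0,[(3,0)]⟩⟩ ⟨true,0,⟨0,[(21,0),(10,0),(14,0)]⟩,⟨1,[(6,1),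
  (24,0),(8,0),(0,0)]⟩⟩,.o ⟨false,0,⟨1,[(31,0),(2,0),(2,0)]⟩,⟨1,[(32,1),(9,0),(5,0)]⟩⟩]⟩) (.I [0,1,
  0,0,0,0,0,-1,-1] (.R ⟨0,false,false,true,[0,0,0,1],[1,0,-1],[1,0,0,0,0,0,0,0,1],(⟨0,[(33,0)]⟩,⟨1,
  [(32,0),(8,0),(0,0)]⟩),(⟨0,[(41,0)]⟩,⟨0,[(42,0)]⟩),⟨0,[(2,0)]⟩,.k,.k,(.r (-1) ⟨3,[(11,1),(19,0),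
  (18,0)]⟩ ⟨1,[(4,1),(7,0),(23,0),(2,0)]⟩),.k,.k,.k,⟨false,1,⟨13,[(1,3),(10,1),(1,9),(7,19),(8,4),
  (14,1),(3,4)]⟩,⟨0,[(0,0)]⟩⟩,⟨true,0,⟨0,[(27,0),(5,0)]⟩,⟨7,[(15,1),(16,3),(5,4),(0,0),(1,3),(3,
  1)]⟩⟩,⟨true,0,⟨0,[]⟩,⟨0,[(52,0)]⟩⟩,⟨false,0,⟨0,[(3,0),(29,0),(0,0)]⟩,⟨1,[(22,1),(8,0),(0,0),(8,0),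
  (0,0),(7,0)]⟩⟩,⟨false,0,⟨0,[]⟩,⟨0,[]⟩⟩,⟨false,0,⟨0,[]⟩,⟨0,[]⟩⟩,[.o ⟨false,0,⟨0,[(34,0)]⟩,⟨3,[(22,
  3),(7,0),(0,0),(18,1)]⟩⟩,.o ⟨false,1,⟨1,[(37,1),(5,0),(6,0)]⟩,⟨0,[(22,0)]⟩⟩,.a ⟨true,0,⟨1,[(32,0),
  (8,0),(0,0)]⟩,⟨0,[(33,0)]⟩⟩ ⟨false,1,⟨1,[(31,0),(18,0)]⟩,⟨0,[(4,0)]⟩⟩ ⟨true,0,⟨0,[(33,0),(0,0)]⟩,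
  ⟨1,[(22,1),(9,0),(8,0),(0,0)]⟩⟩,.o ⟨false,0,⟨1,[(32,0),(2,0),(2,0)]⟩,⟨1,[(33,1),(9,0),(5,0)]⟩⟩]⟩)
  (.Q [0,1,0,1,0,0,0,0,1,1,0,-1] (.p false [0,0,0,1] [1] (⟨0,[(33,0)]⟩,⟨1,[(32,0),(8,0),(0,0)]⟩) .k
  1 (⟨0,[]⟩,⟨0,[]⟩) .k .k) (.R ⟨0,false,false,false,[0,0,0,1],[1,-1],[1],(⟨0,[(34,0)]⟩,⟨1,[(33,0),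
  (8,0),(0,0)]⟩),(⟨0,[(45,0)]⟩,⟨0,[(46,0)]⟩),⟨0,[(3,0)]⟩,.k,.k,(.r (-1) ⟨3,[(12,1),(19,0),(18,0)]⟩
  ⟨1,[(5,1),(7,0),(23,0),(2,0)]⟩),(.r 0 ⟨6,[(0,3),(0,2),(6,0),(4,1),(4,0),(15,3),(1,1),(2,1)]⟩ ⟨2,
  [(5,0),(18,0),(1,0),(4,0)]⟩),.k,.k,⟨false,0,⟨0,[(49,0)]⟩,⟨5,[(24,1),(1,1),(4,0),(0,0)]⟩⟩,⟨true,0,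
  ⟨1,[(18,0),(15,1),(1,0)]⟩,⟨1,[(33,0),(8,0),(0,0)]⟩⟩,⟨false,0,⟨0,[(4,0)]⟩,⟨3,[(31,0),(0,2)]⟩⟩,
  ⟨true,0,⟨0,[(4,0),(16,0),(12,0)]⟩,⟨0,[(0,0)]⟩⟩,⟨false,0,⟨0,[]⟩,⟨0,[]⟩⟩,⟨false,0,⟨0,[]⟩,⟨0,[]⟩⟩,
  [.o ⟨false,1,⟨1,[(44,0),(3,1),(2,0)]⟩,⟨0,[(49,0)]⟩⟩,.o ⟨false,1,⟨5,[(8,1),(9,2),(5,1),(11,0),(14,
  3)]⟩,⟨2,[(14,0),(20,0),(1,1),(11,0)]⟩⟩,.a ⟨true,0,⟨1,[(33,0),(8,0),(0,0)]⟩,⟨0,[(34,0)]⟩⟩ ⟨true,0,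
  ⟨0,[]⟩,⟨0,[(53,0)]⟩⟩ ⟨false,1,⟨5,[(8,1),(9,2),(5,1),(9,5),(1,0),(14,3)]⟩,⟨1,[(14,0),(8,0),(9,
  0)]⟩⟩,.o ⟨false,0,⟨1,[(33,0),(2,0),(2,0)]⟩,⟨1,[(34,1),(9,0),(5,0)]⟩⟩]⟩) (.Q [0,0,0,0,0,1,0,0,0,-1,
  0,1] (.p true [0,0,0,1] [1] (⟨0,[(34,0)]⟩,⟨1,[(33,0),(8,0),(0,0)]⟩) .k 1 (⟨0,[]⟩,⟨0,[]⟩) .k .k)
  (.R ⟨0,false,false,true,[1,0,0,-1],[1,-1],[1,0,0,0,0,0,0,0,-1],(⟨1,[(34,0),(8,0),(0,0)]⟩,⟨0,[(35,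
  0)]⟩),(⟨0,[(46,0)]⟩,⟨0,[(47,0)]⟩),⟨0,[(0,0)]⟩,.k,.k,(.r (-1) ⟨2,[(6,0),(18,0),(1,0),(4,0)]⟩ ⟨1,
  [(2,1),(11,0),(24,0),(0,0),(13,1)]⟩),(.r 0 ⟨1,[(6,1),(7,0),(23,0),(2,0)]⟩ ⟨3,[(13,1),(19,0),(18,
  0)]⟩),.k,.k,⟨false,0,⟨0,[(5,0),(44,0)]⟩,⟨7,[(13,3),(18,0),(0,2),(20,3)]⟩⟩,⟨true,0,⟨1,[(34,0),(2,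
  0),(2,0)]⟩,⟨0,[(35,0)]⟩⟩,⟨true,0,⟨0,[]⟩,⟨0,[(54,0)]⟩⟩,⟨false,1,⟨11,[(9,1),(9,2),(5,1),(7,5),(0,5),
  (2,0),(11,5),(2,3)]⟩,⟨0,[(1,0),(13,0),(8,0)]⟩⟩,⟨false,0,⟨0,[]⟩,⟨0,[]⟩⟩,⟨false,0,⟨0,[]⟩,⟨0,[]⟩⟩,
  [.o ⟨false,0,⟨0,[(22,0)]⟩,⟨7,[(15,3),(8,3),(7,0),(0,0),(11,1),(6,3)]⟩⟩,.o ⟨false,1,⟨1,[(45,0),(3,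
  1),(2,0)]⟩,⟨0,[(50,0)]⟩⟩,.a ⟨true,0,⟨0,[(35,0)]⟩,⟨1,[(34,0),(8,0),(0,0)]⟩⟩ ⟨false,0,⟨0,[(5,0)]⟩,
  ⟨3,[(32,0),(0,2)]⟩⟩ ⟨true,0,⟨1,[(22,0),(11,0),(14,0)]⟩,⟨0,[(35,0),(14,0)]⟩⟩,.o ⟨false,0,⟨1,[(19,
  0),(15,1),(1,0)]⟩,⟨7,[(32,0),(0,0),(0,3),(10,1),(5,3)]⟩⟩]⟩) (.R ⟨1,false,false,true,[1,0,0,-1],[1,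
  -1],[0,1,0,0,0,0,0,0,-1],(⟨1,[(34,0),(8,0),(0,0)]⟩,⟨0,[(35,0)]⟩),(⟨0,[(46,0)]⟩,⟨0,[(47,0)]⟩),⟨0,
  [(0,0)]⟩,.k,.k,(.r (-1) ⟨2,[(6,0),(18,0),(1,0),(4,0)]⟩ ⟨1,[(2,1),(11,0),(24,0),(0,0),(13,1)]⟩),
  (.r 0 ⟨1,[(6,1),(7,0),(23,0),(2,0)]⟩ ⟨3,[(13,1),(19,0),(18,0)]⟩),.k,.k,⟨false,0,⟨0,[(6,0),(43,
  0)]⟩,⟨3,[(13,1),(19,0),(18,0)]⟩⟩,⟨true,0,⟨1,[(34,0),(2,0),(2,0)]⟩,⟨0,[(35,0)]⟩⟩,⟨true,0,⟨0,[(54,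
  0)]⟩,⟨0,[]⟩⟩,⟨false,1,⟨11,[(9,1),(9,2),(5,1),(7,5),(0,5),(2,0),(11,5),(2,3)]⟩,⟨0,[(1,0),(13,0),(8,
  0)]⟩⟩,⟨false,0,⟨0,[(50,0)]⟩,⟨0,[(49,0),(2,0)]⟩⟩,⟨false,1,⟨7,[(32,0),(0,4),(0,3),(10,1)]⟩,⟨0,[(5,
  0),(29,0)]⟩⟩,[.o ⟨false,0,⟨0,[(22,0)]⟩,⟨7,[(15,3),(8,3),(7,0),(0,0),(11,1),(6,3)]⟩⟩,.o ⟨false,1,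
  ⟨1,[(45,0),(3,1),(2,0)]⟩,⟨0,[(50,0)]⟩⟩,.a ⟨true,0,⟨0,[(35,0)]⟩,⟨1,[(34,0),(8,0),(0,0)]⟩⟩ ⟨false,0,
  ⟨0,[(6,0)]⟩,⟨1,[(33,0),(18,0)]⟩⟩ ⟨true,0,⟨1,[(22,0),(11,0),(14,0)]⟩,⟨0,[(35,0),(14,0)]⟩⟩,.o
  ⟨false,0,⟨1,[(19,0),(15,1),(1,0)]⟩,⟨7,[(32,0),(0,0),(0,3),(10,1),(5,3)]⟩⟩]⟩))))) (.R ⟨1,false,
  false,true,[1,0,0,-1],[1,-1],[0,0,0,0,0,0,0,0,-1],(⟨1,[(30,0),(8,0),(0,0)]⟩,⟨0,[(31,0)]⟩),(⟨0,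
  [(42,0)]⟩,⟨0,[(43,0)]⟩),⟨0,[(0,0),(29,0)]⟩,.k,.k,(.x 0 ⟨2,[(13,0),(8,1),(10,1)]⟩ ⟨3,[(28,0),(0,0),
  (13,3),(3,1)]⟩),(.r 0 ⟨1,[(2,1),(7,0),(23,0),(2,0)]⟩ ⟨3,[(9,1),(19,0),(18,0)]⟩),.k,.k,⟨false,0,⟨0,
  [(1,0),(44,0)]⟩,⟨7,[(9,3),(18,0),(0,2),(20,3)]⟩⟩,⟨true,0,⟨1,[(30,0),(2,0),(2,0)]⟩,⟨0,[(31,0)]⟩⟩,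
  ⟨false,1,⟨3,[(28,0),(0,0),(18,1)]⟩,⟨0,[]⟩⟩,⟨false,1,⟨11,[(5,1),(9,2),(5,1),(7,5),(0,5),(2,0),(11,
  5),(2,3)]⟩,⟨0,[(1,0),(29,0),(14,0)]⟩⟩,⟨true,0,⟨0,[(46,0)]⟩,⟨0,[(45,0)]⟩⟩,⟨false,1,⟨7,[(28,0),(0,
  4),(0,3),(10,1)]⟩,⟨0,[(1,0),(29,0)]⟩⟩,[.o ⟨false,0,⟨0,[(18,0)]⟩,⟨7,[(11,3),(8,3),(7,0),(0,0),(11,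
  1),(6,3)]⟩⟩,.o ⟨false,1,⟨1,[(41,0),(3,1),(2,0)]⟩,⟨0,[(46,0)]⟩⟩,.a ⟨true,0,⟨0,[(31,0)]⟩,⟨1,[(30,0),
  (8,0),(0,0)]⟩⟩ ⟨false,0,⟨0,[(1,0)]⟩,⟨3,[(28,0),(0,2)]⟩⟩ ⟨true,0,⟨1,[(18,0),(11,0),(14,0)]⟩,⟨0,
  [(31,0),(14,0)]⟩⟩,.o ⟨false,0,⟨1,[(15,0),(15,1),(1,0)]⟩,⟨7,[(28,0),(0,0),(0,3),(10,1),(5,
  3)]⟩⟩]⟩)) (.Q [0,0,0,0,0,-1,0,0,0,1,0,-1] (.p false [0,0,0,1] [1] (⟨0,[(30,0)]⟩,⟨1,[(29,0),(8,0),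
  (0,0)]⟩) .k 1 (⟨0,[]⟩,⟨0,[]⟩) .k .k) (.R ⟨1,false,false,false,[1,0,0,-1],[1,-1],[0,0,0,0,0,0,0,0,
  -1],(⟨1,[(30,0),(8,0),(0,0)]⟩,⟨0,[(31,0)]⟩),(⟨0,[(42,0)]⟩,⟨0,[(43,0)]⟩),⟨0,[(0,0)]⟩,.k,.k,(.r
  (-1) ⟨2,[(2,0),(18,0),(1,0),(4,0)]⟩ ⟨1,[(1,1),(8,0),(27,0),(5,0)]⟩),(.r 0 ⟨1,[(2,1),(7,0),(23,0),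
  (2,0)]⟩ ⟨3,[(9,1),(19,0),(18,0)]⟩),.k,.k,⟨false,0,⟨0,[(2,0),(43,0)]⟩,⟨3,[(9,1),(19,0),(18,0)]⟩⟩,
  ⟨true,0,⟨1,[(30,0),(2,0),(2,0)]⟩,⟨0,[(31,0)]⟩⟩,⟨false,1,⟨3,[(28,0),(0,0),(18,1)]⟩,⟨0,[]⟩⟩,⟨false,
  1,⟨3,[(7,0),(1,1),(4,0),(10,0),(3,0),(0,1),(13,2),(3,0)]⟩,⟨0,[(2,0),(28,0),(14,0)]⟩⟩,⟨true,0,⟨0,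
  [(46,0)]⟩,⟨0,[(45,0)]⟩⟩,⟨false,1,⟨9,[(3,0),(3,1),(6,1),(10,2),(3,4),(0,4),(17,3)]⟩,⟨0,[(2,0),(28,
  0)]⟩⟩,[.o ⟨false,1,⟨1,[(41,0),(3,1),(2,0)]⟩,⟨0,[(46,0)]⟩⟩,.o ⟨false,1,⟨5,[(5,1),(9,2),(5,1),(11,
  0),(14,3)]⟩,⟨2,[(11,0),(20,0),(1,1),(11,0)]⟩⟩,.a ⟨true,0,⟨0,[(31,0)]⟩,⟨1,[(30,0),(8,0),(0,0)]⟩⟩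
  ⟨true,0,⟨0,[(2,0)]⟩,⟨0,[(1,0)]⟩⟩ ⟨false,1,⟨11,[(5,1),(9,2),(5,1),(8,5),(2,0),(11,5),(2,9)]⟩,⟨0,
  [(31,0),(14,0)]⟩⟩,.o ⟨false,0,⟨1,[(15,0),(15,1),(1,0)]⟩,⟨7,[(28,0),(0,0),(0,3),(10,1),(5,3)]⟩⟩]⟩)
  (.Q [0,-1,0,0,0,0,0,0,-1,0,0,1] (.p true [0,0,0,1] [] (⟨0,[(31,0)]⟩,⟨1,[(30,0),(8,0),(0,0)]⟩) .k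
  0 (⟨0,[]⟩,⟨0,[]⟩) .k .k) (.K ⟨1,[1,0,0,-1],0,0,(⟨1,[(31,0),(8,0),(0,0)]⟩,⟨0,[(32,0)]⟩),.k,(.r
  (-1) ⟨2,[(3,0),(18,0),(1,0),(4,0)]⟩ ⟨1,[(2,1),(8,0),(27,0),(5,0)]⟩),(.r 0 ⟨1,[(3,1),(7,0),(23,0),
  (2,0)]⟩ ⟨3,[(10,1),(19,0),(18,0)]⟩),.k,.k,[⟨7,[(14,1),(16,3),(5,0),(0,4),(1,3),(3,1)]⟩,⟨1,[(16,0),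
  (15,1),(1,0)]⟩,⟨1,[(2,1),(28,0),(8,0),(0,0)]⟩,⟨0,[(0,0)]⟩]⟩) (.R ⟨0,false,false,false,[1,0,0,-1],
  [1,-1],[0,1],(⟨1,[(31,0),(8,0),(0,0)]⟩,⟨0,[(32,0)]⟩),(⟨0,[(43,0)]⟩,⟨0,[(44,0)]⟩),⟨0,[(1,0)]⟩,.k,
  .k,(.r (-1) ⟨2,[(3,0),(18,0),(1,0),(4,0)]⟩ ⟨1,[(2,1),(8,0),(27,0),(5,0)]⟩),(.r 0 ⟨1,[(3,1),(7,0),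
  (23,0),(2,0)]⟩ ⟨3,[(10,1),(19,0),(18,0)]⟩),.k,.k,⟨false,0,⟨2,[(12,0),(20,0),(1,1),(11,0)]⟩,⟨2,[(7,
  0),(0,0),(0,0),(0,0),(38,0)]⟩⟩,⟨true,0,⟨1,[(31,0),(2,0),(2,0)]⟩,⟨0,[(32,0)]⟩⟩,⟨true,0,⟨0,[(0,0),
  (0,2),(11,0),(0,0),(8,1),(7,0)]⟩,⟨0,[(3,0)]⟩⟩,⟨false,1,⟨3,[(8,0),(1,1),(4,0),(10,0),(3,0),(0,1),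
  (13,2),(3,0)]⟩,⟨0,[(3,0),(28,0),(14,0)]⟩⟩,⟨false,0,⟨0,[]⟩,⟨0,[]⟩⟩,⟨false,0,⟨0,[]⟩,⟨0,[]⟩⟩,[.o
  ⟨false,1,⟨1,[(42,0),(3,1),(2,0)]⟩,⟨0,[(47,0)]⟩⟩,.o ⟨false,1,⟨5,[(6,1),(9,2),(5,1),(11,0),(14,3)]⟩,
  ⟨2,[(12,0),(20,0),(1,1),(11,0)]⟩⟩,.a ⟨true,0,⟨0,[(32,0)]⟩,⟨1,[(31,0),(8,0),(0,0)]⟩⟩ ⟨true,0,⟨0,
  [(51,0)]⟩,⟨0,[]⟩⟩ ⟨false,1,⟨11,[(6,1),(9,2),(5,1),(8,5),(2,0),(11,5),(2,9)]⟩,⟨0,[(32,0),(14,0)]⟩⟩,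
  .o ⟨false,0,⟨1,[(16,0),(15,1),(1,0)]⟩,⟨7,[(29,0),(0,0),(0,3),(10,1),(5,3)]⟩⟩]⟩)))) (.Q [0,-1,0,1,
  0,0,0,0,1,1,0,-1] (.p false [0,0,0,1] [1] (⟨0,[(29,0)]⟩,⟨1,[(28,0),(8,0),(0,0)]⟩) .k 1 (⟨0,[]⟩,⟨0,
  []⟩) .k .k) (.Q [0,0,0,0,0,1,0,0,0,0,0,-1] (.p false [0,0,0,1] [] (⟨0,[(30,0)]⟩,⟨1,[(29,0),(8,0),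
  (0,0)]⟩) .k 0 (⟨0,[]⟩,⟨0,[]⟩) .k .k) (.R ⟨0,false,false,true,[0,0,0,1],[1,-1],[1,1,0,-1,0,0,0,0,
  1],(⟨0,[(31,0)]⟩,⟨1,[(30,0),(8,0),(0,0)]⟩),(⟨0,[(42,0)]⟩,⟨0,[(43,0)]⟩),⟨0,[(0,0)]⟩,.k,.k,(.r (-1)
  ⟨3,[(9,1),(19,0),(18,0)]⟩ ⟨0,[(8,0),(1,0),(39,1)]⟩),(.r 0 ⟨1,[(2,1),(7,0),(23,0),(2,0)]⟩ ⟨4,[(6,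
  1),(1,0),(14,0),(4,1),(16,0)]⟩),.k,.k,⟨false,0,⟨0,[(2,0)]⟩,⟨1,[(28,0),(18,0)]⟩⟩,⟨true,0,⟨1,[(15,
  0),(15,1),(1,0)]⟩,⟨1,[(30,0),(8,0),(0,0)]⟩⟩,⟨true,0,⟨0,[(45,0)]⟩,⟨0,[(46,0)]⟩⟩,⟨false,1,⟨5,[(5,1),
  (9,2),(5,1),(6,2),(2,5),(1,0),(14,0)]⟩,⟨0,[(1,0)]⟩⟩,⟨false,0,⟨0,[]⟩,⟨0,[]⟩⟩,⟨false,0,⟨0,[]⟩,⟨0,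
  []⟩⟩,[.o ⟨false,0,⟨0,[(18,0)]⟩,⟨7,[(11,3),(8,3),(7,0),(0,0),(11,1),(6,3)]⟩⟩,.o ⟨false,1,⟨1,[(41,
  0),(3,1),(2,0)]⟩,⟨0,[(46,0)]⟩⟩,.a ⟨true,0,⟨1,[(30,0),(8,0),(0,0)]⟩,⟨0,[(31,0)]⟩⟩ ⟨false,0,⟨0,[(1,
  0),(3,0),(11,0),(13,0)]⟩,⟨3,[(10,1),(17,1),(9,1),(8,0),(0,0)]⟩⟩ ⟨true,0,⟨0,[(18,0),(12,0)]⟩,⟨1,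
  [(11,0),(8,0),(9,0)]⟩⟩,.o ⟨false,0,⟨1,[(30,0),(2,0),(2,0)]⟩,⟨1,[(31,1),(9,0),(5,0)]⟩⟩]⟩) (.Q [0,1,
  0,1,0,0,-1,-1,-1,0,1,1] (.p true [1,-1,1] [1,0,0,-1] (⟨0,[(40,0),(1,0)]⟩,⟨0,[(16,0)]⟩) .k 2 (⟨1,
  [(30,0),(8,0),(0,0)]⟩,⟨0,[(31,0)]⟩) .k (.r 0 ⟨0,[(2,0),(35,0)]⟩ ⟨3,[(10,0),(12,1),(4,1),(6,0),(0,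
  0)]⟩)) (.R ⟨2,true,false,true,[0,1],[1,0,0,-1],[1,1,1],(⟨0,[]⟩,⟨0,[]⟩),(⟨1,[(31,0),(8,0),(0,0)]⟩,
  ⟨0,[(32,0)]⟩),⟨0,[]⟩,.k,.k,.k,(.r 0 ⟨1,[(3,1),(7,0),(23,0),(2,0)]⟩ ⟨4,[(7,1),(1,0),(14,0),(4,1),
  (16,0)]⟩),.k,.k,⟨false,0,⟨0,[(3,0)]⟩,⟨1,[(29,0),(18,0)]⟩⟩,⟨true,0,⟨1,[(16,0),(15,1),(1,0)]⟩,⟨1,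
  [(31,0),(8,0),(0,0)]⟩⟩,⟨true,0,⟨0,[(46,0)]⟩,⟨0,[(47,0)]⟩⟩,⟨false,1,⟨5,[(6,1),(9,2),(5,1),(6,2),(2,
  5),(1,0),(14,0)]⟩,⟨0,[(2,0)]⟩⟩,⟨false,0,⟨0,[]⟩,⟨3,[(29,0),(0,0),(18,1)]⟩⟩,⟨true,0,⟨0,[(0,0),(14,
  0)]⟩,⟨0,[(2,0),(43,0)]⟩⟩,[]⟩) (.I [0,0,2,1,-1,0,0,1] (.R ⟨1,false,false,false,[1,0,0,-1],[0,1,1],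
  [0,0,0,0,0,0,0,0,-1],(⟨1,[(32,0),(8,0),(0,0)]⟩,⟨0,[(33,0)]⟩),(⟨0,[(42,0),(2,0)]⟩,⟨0,[(24,0)]⟩),⟨0,
  [(2,0),(29,0)]⟩,.k,.k,(.r (-1) ⟨4,[(8,1),(1,0),(14,0),(4,1),(16,0)]⟩ ⟨2,[(0,0),(3,0),(7,0),(18,0),
  (20,0)]⟩),(.r (-1) ⟨5,[(6,4),(0,5),(1,1),(0,3),(1,0),(2,0),(2,0),(11,0),(6,0),(3,0)]⟩ ⟨1,[(0,0),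
  (30,0),(8,0),(7,0)]⟩),(.r (-2) ⟨4,[(8,1),(1,0),(14,5),(4,1),(16,0)]⟩ ⟨0,[(0,0),(3,0),(43,0)]⟩),.k,
  ⟨true,1,⟨5,[(6,4),(0,5),(1,1),(0,3),(1,0),(2,0),(2,0),(11,0),(6,0),(3,0)]⟩,⟨0,[(0,0),(3,0)]⟩⟩,
  ⟨false,1,⟨1,[(5,0),(0,0),(25,0)]⟩,⟨0,[(33,0),(1,0)]⟩⟩,⟨false,1,⟨3,[(30,0),(0,0),(18,1)]⟩,⟨0,[]⟩⟩,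
  ⟨false,0,⟨0,[(3,0),(18,0)]⟩,⟨1,[(7,1),(22,0),(2,1),(16,0)]⟩⟩,⟨true,0,⟨0,[(48,0)]⟩,⟨0,[(47,0)]⟩⟩,
  ⟨false,0,⟨0,[(3,0),(18,0),(25,0)]⟩,⟨2,[(7,2),(2,0),(14,0),(4,0),(2,2),(12,0),(0,0),(2,0)]⟩⟩,[.o
  ⟨false,0,⟨0,[(0,0),(4,0)]⟩,⟨3,[(7,3),(22,0),(0,0),(18,1)]⟩⟩,.o ⟨false,1,⟨7,[(13,3),(8,11),(7,0),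
  (0,0),(11,1),(6,3)]⟩,⟨0,[(7,0)]⟩⟩,.a ⟨true,0,⟨0,[(33,0)]⟩,⟨1,[(32,0),(8,0),(0,0)]⟩⟩ ⟨false,1,⟨1,
  [(30,0),(19,0)]⟩,⟨0,[(4,0)]⟩⟩ ⟨true,0,⟨1,[(13,0),(8,2),(9,0)]⟩,⟨0,[(7,0),(25,0)]⟩⟩,.o ⟨false,0,⟨1,
  [(17,0),(15,1),(1,0)]⟩,⟨7,[(30,0),(0,0),(0,3),(10,1),(5,3)]⟩⟩]⟩) (.I [1,1,0,0,0,0,0,0,-1] (.R ⟨1,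
  false,false,false,[0,0,0,1],[1,-1],[0,0,0,0,0,0,0,0,1],(⟨0,[(34,0)]⟩,⟨1,[(33,0),(8,0),(0,0)]⟩),
  (⟨0,[(45,0)]⟩,⟨0,[(46,0)]⟩),⟨0,[(3,0)]⟩,.k,.k,(.r (-1) ⟨3,[(12,1),(19,0),(18,0)]⟩ ⟨2,[(0,1),(10,
  0),(1,1),(23,0),(2,0)]⟩),(.r 0 ⟨1,[(5,1),(7,0),(23,0),(2,0)]⟩ ⟨8,[(1,1),(9,0),(12,1),(1,0),(4,3),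
  (16,0)]⟩),.k,.k,⟨false,0,⟨0,[(5,0),(43,0)]⟩,⟨8,[(1,1),(9,0),(12,1),(1,0),(4,3),(16,0)]⟩⟩,⟨true,0,
  ⟨1,[(18,0),(15,1),(1,0)]⟩,⟨1,[(33,0),(8,0),(0,0)]⟩⟩,⟨false,1,⟨3,[(31,0),(0,0),(18,1)]⟩,⟨0,[]⟩⟩,
  ⟨false,1,⟨11,[(1,1),(6,3),(2,5),(6,3),(12,2),(2,11),(9,1),(6,4)]⟩,⟨0,[(4,0),(48,0)]⟩⟩,⟨true,0,⟨0,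
  [(49,0)]⟩,⟨0,[(48,0)]⟩⟩,⟨false,1,⟨11,[(1,1),(9,5),(1,3),(17,2),(2,11),(9,5),(6,0)]⟩,⟨0,[(4,0),(43,
  0)]⟩⟩,[.o ⟨false,1,⟨1,[(44,0),(3,1),(2,0)]⟩,⟨0,[(49,0)]⟩⟩,.o ⟨false,1,⟨5,[(8,1),(9,2),(5,1),(11,
  0),(14,3)]⟩,⟨2,[(14,0),(20,0),(1,1),(11,0)]⟩⟩,.a ⟨true,0,⟨1,[(33,0),(8,0),(0,0)]⟩,⟨0,[(34,0)]⟩⟩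
  ⟨true,0,⟨0,[(2,0),(0,2),(4,0),(6,2),(0,2),(2,5),(13,0),(15,1)]⟩,⟨0,[(0,0)]⟩⟩ ⟨false,1,⟨5,[(8,1),
  (9,2),(5,1),(9,5),(1,0),(14,3)]⟩,⟨1,[(14,0),(8,0),(9,0)]⟩⟩,.o ⟨false,0,⟨1,[(33,0),(2,0),(2,0)]⟩,
  ⟨1,[(34,1),(9,0),(5,0)]⟩⟩]⟩) (.R ⟨1,false,false,true,[0,0,0,1],[1,-1],[0,0,0,0,0,0,0,0,1],(⟨0,
  [(34,0)]⟩,⟨1,[(33,0),(8,0),(0,0)]⟩),(⟨0,[(45,0)]⟩,⟨0,[(46,0)]⟩),⟨0,[(3,0)]⟩,.k,.k,(.r (-1) ⟨3,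
  [(12,1),(19,0),(18,0)]⟩ ⟨0,[(11,0),(1,0),(39,1)]⟩),(.r 0 ⟨1,[(5,1),(7,0),(23,0),(2,0)]⟩ ⟨8,[(1,1),
  (9,0),(12,1),(1,0),(4,3),(16,0)]⟩),.k,.k,⟨false,0,⟨0,[(0,0),(48,0)]⟩,⟨3,[(6,0),(17,0),(6,1),(6,0),
  (9,1),(4,0)]⟩⟩,⟨true,0,⟨1,[(18,0),(15,1),(1,0)]⟩,⟨1,[(33,0),(8,0),(0,0)]⟩⟩,⟨false,1,⟨3,[(31,0),(0,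
  0),(18,1)]⟩,⟨0,[]⟩⟩,⟨false,1,⟨5,[(8,1),(9,2),(5,1),(6,2),(2,5),(1,0),(14,0)]⟩,⟨0,[(4,0)]⟩⟩,⟨true,
  0,⟨0,[(49,0)]⟩,⟨0,[(48,0)]⟩⟩,⟨false,1,⟨1,[(31,0),(2,1),(9,0)]⟩,⟨1,[(0,1),(32,0),(8,0),(0,0)]⟩⟩,
  [.o ⟨false,0,⟨0,[(21,0)]⟩,⟨7,[(14,3),(8,3),(7,0),(0,0),(11,1),(6,3)]⟩⟩,.o ⟨false,1,⟨1,[(44,0),(3,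
  1),(2,0)]⟩,⟨0,[(49,0)]⟩⟩,.a ⟨true,0,⟨1,[(33,0),(8,0),(0,0)]⟩,⟨0,[(34,0)]⟩⟩ ⟨false,0,⟨0,[(0,0)]⟩,
  ⟨3,[(31,2),(0,0)]⟩⟩ ⟨true,0,⟨0,[(21,0),(12,0)]⟩,⟨1,[(14,0),(8,0),(9,0)]⟩⟩,.o ⟨false,0,⟨1,[(33,0),
  (2,0),(2,0)]⟩,⟨1,[(34,1),(9,0),(5,0)]⟩⟩]⟩))))) (.Q [0,0,0,0,0,1,0,0,0,0,0,-1] (.p false [0,0,0,1]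
  [] (⟨0,[(30,0)]⟩,⟨1,[(29,0),(8,0),(0,0)]⟩) .k 0 (⟨0,[]⟩,⟨0,[]⟩) .k .k) (.R ⟨0,false,false,true,[0,
  0,0,1],[1,-1],[1,1,0,0,0,0,0,0,1],(⟨0,[(31,0)]⟩,⟨1,[(30,0),(8,0),(0,0)]⟩),(⟨0,[(42,0)]⟩,⟨0,[(43,
  0)]⟩),⟨0,[(0,0)]⟩,.k,.k,(.r (-1) ⟨3,[(9,1),(19,0),(18,0)]⟩ ⟨6,[(1,3),(6,2),(1,4),(0,1),(18,1),(3,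
  3),(2,1)]⟩),(.r 0 ⟨1,[(2,1),(7,0),(23,0),(2,0)]⟩ ⟨18,[(1,1),(2,0),(1,2),(1,2),(12,2),(1,4),(4,6),
  (1,0),(4,0)]⟩),.k,.k,⟨false,0,⟨0,[(2,0),(43,0)]⟩,⟨18,[(1,1),(2,0),(1,2),(1,2),(12,2),(1,4),(4,6),
  (1,0),(4,0)]⟩⟩,⟨true,0,⟨1,[(15,0),(15,1),(1,0)]⟩,⟨1,[(30,0),(8,0),(0,0)]⟩⟩,⟨false,0,⟨0,[]⟩,⟨3,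
  [(28,0),(0,0),(18,1)]⟩⟩,⟨true,0,⟨0,[(1,0)]⟩,⟨1,[(2,1),(8,0),(8,0),(9,0)]⟩⟩,⟨false,0,⟨0,[]⟩,⟨0,
  []⟩⟩,⟨false,0,⟨0,[]⟩,⟨0,[]⟩⟩,[.o ⟨false,0,⟨0,[(18,0)]⟩,⟨7,[(11,3),(8,3),(7,0),(0,0),(11,1),(6,
  3)]⟩⟩,.o ⟨false,1,⟨1,[(41,0),(3,1),(2,0)]⟩,⟨0,[(46,0)]⟩⟩,.a ⟨true,0,⟨1,[(30,0),(8,0),(0,0)]⟩,⟨0,
  [(31,0)]⟩⟩ ⟨false,0,⟨0,[(2,0)]⟩,⟨1,[(28,0),(19,0)]⟩⟩ ⟨true,0,⟨0,[(18,0),(12,0)]⟩,⟨1,[(11,0),(8,0),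
  (9,0)]⟩⟩,.o ⟨false,0,⟨1,[(30,0),(2,0),(2,0)]⟩,⟨1,[(31,1),(9,0),(5,0)]⟩⟩]⟩) (.Q [0,0,0,0,0,0,0,0,
  -1,0,0,1] (.p true [0,0,0,1] [] (⟨0,[(31,0)]⟩,⟨1,[(30,0),(8,0),(0,0)]⟩) .k 0 (⟨0,[]⟩,⟨0,[]⟩) .k
  .k) (.R ⟨0,false,false,true,[0,0,1],[0,0,0,1],[0,1],(⟨0,[(41,0)]⟩,⟨0,[(40,0)]⟩),(⟨0,[(32,0)]⟩,⟨1,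
  [(31,0),(8,0),(0,0)]⟩),⟨0,[(17,0)]⟩,.k,.k,.k,.k,.k,.k,⟨false,1,⟨1,[(29,0),(18,0)]⟩,⟨0,[(3,0)]⟩⟩,
  ⟨true,0,⟨1,[(28,0),(2,0)]⟩,⟨0,[(32,0),(4,0)]⟩⟩,⟨false,1,⟨3,[(11,0),(12,1),(4,0),(0,0),(5,0),(0,
  0)]⟩,⟨2,[(3,1),(5,1),(1,0),(1,0),(7,1)]⟩⟩,⟨true,0,⟨1,[(3,1),(27,0),(1,0),(2,0)]⟩,⟨0,[(0,0),(20,
  0)]⟩⟩,⟨false,0,⟨0,[]⟩,⟨0,[]⟩⟩,⟨false,0,⟨0,[]⟩,⟨0,[]⟩⟩,[.o ⟨false,0,⟨1,[(3,1),(27,0),(1,0),(1,0)]⟩,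
  ⟨1,[(0,1),(41,0),(6,0)]⟩⟩,.a ⟨true,0,⟨1,[(3,1),(27,0),(8,0),(0,0)]⟩,⟨0,[(0,0)]⟩⟩ ⟨false,1,⟨3,[(29,
  0),(0,0),(17,1)]⟩,⟨0,[]⟩⟩ ⟨true,0,⟨1,[(3,1),(24,0),(2,0)]⟩,⟨0,[(0,0),(36,0)]⟩⟩,.o ⟨false,1,⟨2,[(4,
  0),(24,0),(0,0),(6,1)]⟩,⟨0,[(26,0)]⟩⟩,.o ⟨false,0,⟨0,[(37,0)]⟩,⟨7,[(13,3),(15,0),(0,0),(11,3),(5,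
  1)]⟩⟩]⟩) (.R ⟨1,false,false,true,[0,0,0,1],[1,-1],[0,1,0,0,0,0,0,0,1],(⟨0,[(32,0)]⟩,⟨1,[(31,0),(8,
  0),(0,0)]⟩),(⟨0,[(43,0)]⟩,⟨0,[(44,0)]⟩),⟨0,[(1,0)]⟩,.k,.k,(.r (-1) ⟨3,[(10,1),(19,0),(18,0)]⟩ ⟨6,
  [(2,3),(6,2),(1,4),(0,1),(18,1),(3,3),(2,1)]⟩),(.r 0 ⟨1,[(3,1),(7,0),(23,0),(2,0)]⟩ ⟨18,[(2,1),(2,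
  0),(1,2),(1,2),(12,2),(1,4),(4,6),(1,0),(4,0)]⟩),.k,.k,⟨false,0,⟨0,[(3,0),(43,0)]⟩,⟨18,[(2,1),(2,
  0),(1,2),(1,2),(12,2),(1,4),(4,6),(1,0),(4,0)]⟩⟩,⟨true,0,⟨1,[(16,0),(15,1),(1,0)]⟩,⟨1,[(31,0),(8,
  0),(0,0)]⟩⟩,⟨true,0,⟨0,[(51,0)]⟩,⟨0,[]⟩⟩,⟨true,0,⟨0,[(2,0)]⟩,⟨1,[(3,1),(8,0),(8,0),(9,0)]⟩⟩,
  ⟨false,0,⟨0,[(47,0)]⟩,⟨0,[(46,0),(2,0)]⟩⟩,⟨true,0,⟨0,[(2,0),(44,0)]⟩,⟨1,[(3,1),(27,0),(8,0),(0,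
  0)]⟩⟩,[.o ⟨false,0,⟨0,[(19,0)]⟩,⟨7,[(12,3),(8,3),(7,0),(0,0),(11,1),(6,3)]⟩⟩,.o ⟨false,1,⟨1,[(42,
  0),(3,1),(2,0)]⟩,⟨0,[(47,0)]⟩⟩,.a ⟨true,0,⟨1,[(31,0),(8,0),(0,0)]⟩,⟨0,[(32,0)]⟩⟩ ⟨false,0,⟨0,[(0,
  0),(0,0),(11,0),(0,0),(2,1)]⟩,⟨1,[(29,0),(19,0)]⟩⟩ ⟨true,0,⟨0,[(19,0),(12,0)]⟩,⟨1,[(12,0),(8,0),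
  (9,0)]⟩⟩,.o ⟨false,0,⟨1,[(31,0),(2,0),(2,0)]⟩,⟨1,[(32,1),(9,0),(5,0)]⟩⟩]⟩)))))))

theorem ok83 : chk (cU (-1) false 2) t83 l56 = true := by decide +kernel

noncomputable def t101 : Tre :=
  (.Q [0,0,1,0,0,0,2,0,0,1,-2] (.p false [0,0,1] [1,0,-1] (⟨0,[(27,0)]⟩,⟨0,[(26,0)]⟩) .k 2 (⟨0,[(26,
  0)]⟩,⟨0,[(27,0)]⟩) .k (.x (-1) ⟨3,[(0,3),(14,0),(0,0),(13,3),(3,1)]⟩ ⟨0,[(12,1),(13,1)]⟩)) (.K ⟨2,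
  [1,1,-1],0,0,(⟨0,[(27,0),(3,0)]⟩,⟨0,[(4,0)]⟩),.k,.k,(.r 0 ⟨0,[(23,0),(0,0),(7,0),(1,1)]⟩ ⟨0,[(9,
  0)]⟩),(.x (-1) ⟨1,[(15,1),(11,3),(1,0),(1,1),(3,0)]⟩ ⟨0,[(1,0)]⟩),.k,[⟨0,[(0,0)]⟩,⟨0,[(13,0)]⟩,⟨1,
  [(0,0),(2,0),(23,0),(0,0),(4,0),(4,0)]⟩,⟨0,[(20,0),(13,0)]⟩]⟩) (.Q [0,-1,0,-1,0,0,1,1,1,1,-1,-1]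
  (.p false [0,0,1] [1,0,0,-1] (⟨0,[(28,0)]⟩,⟨0,[(27,0)]⟩) .k 2 (⟨1,[(18,0),(8,0),(0,0)]⟩,⟨0,[(19,
  0)]⟩) .k (.x (-1) ⟨7,[(1,3),(14,2),(0,2),(13,3),(3,1)]⟩ ⟨0,[(13,0),(13,0)]⟩)) (.I [1,1,0,-1,0,0,0,
  0,-1] (.R ⟨1,false,false,false,[1,0,0,-1],[1,-1],[1,1,0,-1,0,0,0,0,-1],(⟨1,[(20,0),(8,0),(0,0)]⟩,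
  ⟨0,[(21,0)]⟩),(⟨0,[(32,0)]⟩,⟨0,[(33,0)]⟩),⟨1,[(6,0),(5,0),(7,0)]⟩,.k,.k,(.r (-1) ⟨1,[(0,1),(36,0),
  (0,0)]⟩ ⟨0,[(4,0),(29,0)]⟩),(.r 0 ⟨0,[(0,0),(33,0),(1,1)]⟩ ⟨19,[(1,3),(0,1),(1,1),(3,1),(2,3),(1,
  7),(5,6),(1,3),(15,0)]⟩),.k,.k,⟨false,0,⟨0,[(0,0),(35,0)]⟩,⟨5,[(1,5),(0,1),(13,3),(4,5),(0,1),(8,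
  0),(4,5),(1,0)]⟩⟩,⟨true,0,⟨1,[(20,0),(2,0),(2,0)]⟩,⟨0,[(21,0)]⟩⟩,⟨true,0,⟨0,[(35,0)]⟩,⟨0,[(36,
  0)]⟩⟩,⟨true,0,⟨0,[(1,0),(20,0)]⟩,⟨0,[(0,0),(20,0),(14,1)]⟩⟩,⟨false,0,⟨0,[]⟩,⟨3,[(18,0),(0,0),(18,
  1)]⟩⟩,⟨true,0,⟨0,[(1,0),(20,0),(13,0)]⟩,⟨0,[(0,0),(20,0),(14,0)]⟩⟩,[.o ⟨false,1,⟨1,[(31,0),(3,1),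
  (2,0)]⟩,⟨0,[(36,0)]⟩⟩,.o ⟨false,1,⟨0,[(8,0),(29,0)]⟩,⟨0,[(36,0),(3,0)]⟩⟩,.a ⟨true,0,⟨0,[(21,0)]⟩,
  ⟨1,[(20,0),(8,0),(0,0)]⟩⟩ ⟨true,0,⟨0,[(0,0)]⟩,⟨0,[(1,0),(19,0),(0,0),(13,1)]⟩⟩ ⟨false,1,⟨5,[(0,1),
  (0,1),(11,1),(6,1),(2,1),(7,0),(6,2)]⟩,⟨0,[(21,0),(14,0)]⟩⟩,.o ⟨false,0,⟨0,[(15,0),(5,0),(4,0)]⟩,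
  ⟨7,[(18,0),(0,0),(0,3),(10,1),(5,3)]⟩⟩]⟩) (.I [0,0,0,1,0,0,0,-1,1] (.R ⟨1,false,false,false,[1,0,
  0,-1],[0,-1,1],[0,0,0,0,0,0,0,0,-1],(⟨1,[(21,0),(8,0),(0,0)]⟩,⟨0,[(22,0)]⟩),(⟨0,[(7,0)]⟩,⟨0,[(30,
  0),(3,0)]⟩),⟨1,[(7,0),(5,0),(7,0)]⟩,.k,.k,(.x 0 ⟨2,[(4,0),(8,1),(10,1)]⟩ ⟨3,[(19,0),(0,0),(13,3),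
  (3,1)]⟩),(.r (-1) ⟨1,[(0,1),(18,1),(7,0),(0,0)]⟩ ⟨0,[(0,0),(2,0),(4,1),(21,0),(0,0)]⟩),.k,.k,
  ⟨false,1,⟨0,[(0,0),(18,0)]⟩,⟨0,[(0,0),(2,0),(4,1),(21,0),(0,0)]⟩⟩,⟨true,0,⟨7,[(4,1),(16,3),(5,4),
  (0,0),(1,3),(3,1)]⟩,⟨0,[(16,0),(5,0)]⟩⟩,⟨false,1,⟨3,[(19,0),(0,0),(18,1)]⟩,⟨0,[]⟩⟩,⟨false,0,⟨0,
  [(2,0)]⟩,⟨0,[(0,0),(15,0),(2,0),(2,0)]⟩⟩,⟨true,0,⟨0,[(37,0)]⟩,⟨0,[(36,0)]⟩⟩,⟨false,0,⟨0,[(2,0),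
  (34,0)]⟩,⟨1,[(19,0),(2,1),(0,1),(15,0)]⟩⟩,[.o ⟨false,0,⟨0,[(8,0)]⟩,⟨7,[(0,7),(17,3),(0,4),(0,0),
  (11,1)]⟩⟩,.o ⟨false,1,⟨0,[(15,0),(23,0)]⟩,⟨0,[(23,0),(13,0)]⟩⟩,.a ⟨true,0,⟨0,[(22,0)]⟩,⟨1,[(21,0),
  (8,0),(0,0)]⟩⟩ ⟨false,1,⟨1,[(19,0),(19,0)]⟩,⟨0,[(1,0),(34,0)]⟩⟩ ⟨true,0,⟨1,[(8,1),(12,0),(8,0),(0,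
  0)]⟩,⟨0,[(22,0),(0,0),(13,0)]⟩⟩,.o ⟨false,0,⟨0,[(16,0),(5,0),(4,0)]⟩,⟨7,[(19,0),(0,0),(0,3),(10,
  1),(5,3)]⟩⟩]⟩) (.Q [0,0,2,0,-1,0,-1,0,0,0,1] (.p true [0,0,1] [] (⟨0,[(31,0)]⟩,⟨0,[(30,0)]⟩) .k 0
  (⟨0,[]⟩,⟨0,[]⟩) .k .k) (.I [0,1,0,1,0,0,0,-1,1] (.I [0,0,2,2,-1,0,0,0,1] (.R ⟨1,false,false,false,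
  [1,0,0,-1],[0,1],[1,0,0,-1,0,0,0,0,-1],(⟨1,[(24,0),(8,0),(0,0)]⟩,⟨0,[(25,0)]⟩),(⟨0,[(37,0)]⟩,⟨0,
  [(36,0)]⟩),⟨1,[(10,0),(5,0),(7,0)]⟩,.k,.k,(.r (-1) ⟨3,[(3,1),(13,1),(4,0),(18,0)]⟩ ⟨7,[(0,3),(21,
  0),(0,2)]⟩),(.r (-1) ⟨3,[(3,1),(13,1),(4,0),(18,0)]⟩ ⟨7,[(0,3),(21,0),(0,2)]⟩),(.r (-2) ⟨11,[(15,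
  7),(1,7),(4,6),(0,0)]⟩ ⟨0,[(0,0)]⟩),.k,⟨true,1,⟨0,[(3,0),(13,0)]⟩,⟨0,[(0,0)]⟩⟩,⟨false,1,⟨1,[(24,
  0),(8,0),(0,0),(6,1)]⟩,⟨0,[(19,0),(5,0),(4,0)]⟩⟩,⟨false,1,⟨0,[(39,0),(2,0)]⟩,⟨0,[(40,0)]⟩⟩,⟨false,
  0,⟨1,[(4,1),(19,0),(8,0),(0,0)]⟩,⟨1,[(12,1),(9,0),(2,1),(16,0)]⟩⟩,⟨true,0,⟨0,[]⟩,⟨0,[(44,0)]⟩⟩,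
  ⟨false,0,⟨1,[(4,1),(19,0),(8,0),(0,0),(5,1)]⟩,⟨3,[(3,1),(8,3),(4,1),(4,0),(2,3),(12,1),(3,0)]⟩⟩,
  [.o ⟨false,0,⟨0,[(40,0)]⟩,⟨1,[(35,0),(3,1),(2,0)]⟩⟩,.o ⟨false,1,⟨3,[(4,3),(17,2),(0,0)]⟩,⟨0,[(12,
  0)]⟩⟩,.a ⟨true,0,⟨0,[(25,0)]⟩,⟨1,[(24,0),(8,0),(0,0)]⟩⟩ ⟨false,1,⟨3,[(3,1),(13,1),(4,0),(15,1),(3,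
  0)]⟩,⟨1,[(4,0),(3,0)]⟩⟩ ⟨true,0,⟨1,[(24,0),(8,0),(0,0),(5,1)]⟩,⟨0,[(12,0),(12,0)]⟩⟩,.o ⟨false,0,
  ⟨0,[(19,0),(5,0),(4,0)]⟩,⟨7,[(22,0),(0,0),(0,3),(10,1),(5,3)]⟩⟩]⟩) (.Q [0,0,0,0,0,0,-1,-1,1,0,1,
  -1] (.p true [0,0,1] [0,0,0,1] (⟨0,[(34,0)]⟩,⟨0,[(33,0)]⟩) .k 2 (⟨0,[(25,0)]⟩,⟨1,[(24,0),(8,0),(0,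
  0)]⟩) .k (.r 0 ⟨0,[(3,0),(36,0)]⟩ ⟨2,[(1,0),(15,0),(5,0),(5,0),(0,0),(11,0)]⟩)) (.R ⟨1,false,
  false,true,[1,0,0,-1],[1,0,-1],[1,0,0,-1,0,0,0,0,-1],(⟨1,[(25,0),(8,0),(0,0)]⟩,⟨0,[(26,0)]⟩),(⟨0,
  [(34,0)]⟩,⟨0,[(35,0)]⟩),⟨1,[(11,0),(5,0),(7,0)]⟩,.k,.k,(.r (-1) ⟨4,[(1,0),(14,0),(1,0),(4,1)]⟩ ⟨5,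
  [(3,1),(1,2),(3,2),(13,0),(0,0),(6,1)]⟩),.k,(.r (-1) ⟨11,[(10,3),(5,3),(6,6),(0,0)]⟩ ⟨0,[(2,0),
  (36,0)]⟩),.k,⟨false,1,⟨2,[(1,0),(2,0),(0,0),(4,0),(12,0),(19,0)]⟩,⟨0,[(2,0)]⟩⟩,⟨true,0,⟨1,[(22,0),
  (2,0)]⟩,⟨0,[(26,0),(4,0)]⟩⟩,⟨false,1,⟨0,[(40,0),(2,0)]⟩,⟨0,[(41,0)]⟩⟩,⟨false,0,⟨0,[(0,0)]⟩,⟨1,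
  [(15,1),(7,0),(2,1),(16,0)]⟩⟩,⟨true,0,⟨0,[]⟩,⟨0,[(45,0)]⟩⟩,⟨false,0,⟨0,[(0,0),(40,0)]⟩,⟨1,[(12,1),
  (10,0),(2,1),(16,0)]⟩⟩,[.o ⟨false,0,⟨0,[(27,0)]⟩,⟨3,[(15,3),(7,0),(0,0),(18,1)]⟩⟩,.o ⟨false,1,⟨1,
  [(30,1),(5,0),(6,0)]⟩,⟨0,[(15,0)]⟩⟩,.a ⟨true,0,⟨0,[(26,0)]⟩,⟨1,[(25,0),(8,0),(0,0)]⟩⟩ ⟨false,1,⟨6,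
  [(1,2),(1,1),(19,1),(7,1),(8,0),(2,3)]⟩,⟨1,[(5,0),(3,0)]⟩⟩ ⟨true,0,⟨1,[(25,0),(1,0),(2,0)]⟩,⟨0,
  [(15,0),(10,0)]⟩⟩,.o ⟨false,0,⟨0,[(20,0),(5,0),(4,0)]⟩,⟨7,[(23,0),(0,0),(0,3),(10,1),(5,3)]⟩⟩]⟩)
  (.R ⟨1,true,false,true,[0,0,1],[0,0,0,1],[1,0,0,-1,0,0,0,1],(⟨0,[(35,0)]⟩,⟨0,[(34,0)]⟩),(⟨0,[(26,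
  0)]⟩,⟨1,[(25,0),(8,0),(0,0)]⟩),⟨0,[(11,0)]⟩,.k,.k,.k,.k,(.r (-1) ⟨11,[(10,3),(5,3),(6,6),(0,0)]⟩
  ⟨0,[(2,0),(36,0)]⟩),.k,⟨false,1,⟨21,[(0,3),(0,5),(2,1),(2,1),(2,7),(12,4),(1,1),(17,10)]⟩,⟨0,[(2,
  0)]⟩⟩,⟨true,0,⟨1,[(22,0),(2,0)]⟩,⟨0,[(26,0),(4,0)]⟩⟩,⟨false,1,⟨0,[(40,0),(2,0)]⟩,⟨0,[(41,0)]⟩⟩,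
  ⟨true,0,⟨23,[(2,9),(0,1),(2,9),(0,3),(16,1),(0,6),(1,12),(2,10)]⟩,⟨0,[(0,0)]⟩⟩,⟨true,0,⟨0,[]⟩,⟨0,
  [(45,0)]⟩⟩,⟨false,0,⟨1,[(5,1),(19,0),(1,0),(2,0)]⟩,⟨0,[(0,0),(39,0),(2,0)]⟩⟩,[]⟩))) (.I [1,0,2,1,
  -1,0,0,0,1] (.R ⟨1,false,false,false,[1,0,0,-1],[0,1],[0,0,0,0,0,0,0,0,-1],(⟨1,[(24,0),(8,0),(0,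
  0)]⟩,⟨0,[(25,0)]⟩),(⟨0,[(37,0)]⟩,⟨0,[(36,0)]⟩),⟨1,[(10,0),(5,0),(7,0)]⟩,.k,.k,(.r (-1) ⟨3,[(3,1),
  (13,1),(4,0),(18,0)]⟩ ⟨3,[(0,1),(3,0),(3,0),(13,0),(0,0)]⟩),(.r (-1) ⟨3,[(3,1),(13,1),(4,0),(18,
  0)]⟩ ⟨3,[(0,1),(3,0),(3,0),(13,0),(0,0)]⟩),(.r (-2) ⟨11,[(15,7),(1,7),(4,6),(0,0)]⟩ ⟨0,[(0,0),(39,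
  0)]⟩),.k,⟨true,1,⟨3,[(3,1),(13,1),(4,0),(18,0)]⟩,⟨0,[(0,0)]⟩⟩,⟨false,1,⟨1,[(24,0),(8,0),(0,0),(6,
  1)]⟩,⟨2,[(0,0),(0,0),(23,2),(0,0),(3,0),(4,0)]⟩⟩,⟨false,1,⟨3,[(22,0),(0,0),(18,1)]⟩,⟨0,[]⟩⟩,
  ⟨false,0,⟨1,[(4,1),(19,0),(8,0),(0,0)]⟩,⟨1,[(12,1),(9,0),(2,1),(16,0)]⟩⟩,⟨true,0,⟨0,[(40,0)]⟩,⟨0,
  [(39,0)]⟩⟩,⟨false,0,⟨1,[(4,1),(19,0),(8,0),(0,0),(5,1)]⟩,⟨15,[(1,5),(0,1),(9,15),(4,5),(4,4),(2,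
  15),(4,1),(8,3),(2,6)]⟩⟩,[.o ⟨false,0,⟨0,[(40,0)]⟩,⟨1,[(35,0),(3,1),(2,0)]⟩⟩,.o ⟨false,1,⟨3,[(4,
  3),(17,2),(0,0)]⟩,⟨0,[(12,0)]⟩⟩,.a ⟨true,0,⟨0,[(25,0)]⟩,⟨1,[(24,0),(8,0),(0,0)]⟩⟩ ⟨false,1,⟨1,
  [(22,0),(19,0)]⟩,⟨0,[(4,0),(34,0)]⟩⟩ ⟨true,0,⟨1,[(24,0),(8,0),(0,0),(5,1)]⟩,⟨0,[(12,0),(12,0)]⟩⟩,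
  .o ⟨false,0,⟨2,[(0,0),(0,0),(23,2),(0,0),(3,0),(4,0)]⟩,⟨7,[(22,0),(0,0),(0,3),(10,1),(5,3)]⟩⟩]⟩)
  (.Q [0,0,0,0,0,-1,0,0,0,0,0,1] (.p true [0,0,0,1] [] (⟨0,[(25,0)]⟩,⟨1,[(24,0),(8,0),(0,0)]⟩) .k 0
  (⟨0,[]⟩,⟨0,[]⟩) .k .k) (.I [0,0,2,2,-1,0,0,0,1] (.R ⟨1,false,false,false,[1,0,0,-1],[0,1],[1,0,0,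
  -1,0,0,0,0,-1],(⟨1,[(26,0),(8,0),(0,0)]⟩,⟨0,[(27,0)]⟩),(⟨0,[(39,0)]⟩,⟨0,[(38,0)]⟩),⟨1,[(12,0),(5,
  0),(7,0)]⟩,.k,.k,(.r (-1) ⟨5,[(2,0),(2,0),(11,0),(1,1),(4,1)]⟩ ⟨7,[(0,3),(23,0),(0,2)]⟩),(.r (-1)
  ⟨5,[(2,0),(2,0),(11,0),(1,1),(4,1)]⟩ ⟨7,[(0,3),(23,0),(0,2)]⟩),(.r (-2) ⟨11,[(17,7),(1,7),(4,6),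
  (0,0)]⟩ ⟨0,[(0,0)]⟩),.k,⟨true,1,⟨0,[(5,0),(13,0)]⟩,⟨0,[(0,0)]⟩⟩,⟨false,1,⟨1,[(26,0),(8,0),(0,0),
  (6,1)]⟩,⟨3,[(0,0),(2,0),(10,0),(12,3),(0,0),(3,0),(4,0),(2,0)]⟩⟩,⟨false,1,⟨0,[(41,0),(2,0)]⟩,⟨0,
  [(42,0)]⟩⟩,⟨false,0,⟨1,[(6,1),(19,0),(8,0),(0,0)]⟩,⟨1,[(14,1),(9,0),(2,1),(16,0)]⟩⟩,⟨true,0,⟨0,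
  []⟩,⟨0,[(46,0)]⟩⟩,⟨false,0,⟨1,[(6,1),(19,0),(8,0),(0,0),(5,1)]⟩,⟨15,[(3,5),(0,1),(9,15),(4,5),(4,
  4),(2,15),(4,1),(8,3),(2,6)]⟩⟩,[.o ⟨false,0,⟨0,[(42,0)]⟩,⟨1,[(37,0),(3,1),(2,0)]⟩⟩,.o ⟨false,1,⟨3,
  [(6,3),(17,2),(0,0)]⟩,⟨0,[(14,0)]⟩⟩,.a ⟨true,0,⟨0,[(27,0)]⟩,⟨1,[(26,0),(8,0),(0,0)]⟩⟩ ⟨false,1,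
  ⟨15,[(3,5),(0,1),(14,5),(4,4),(7,1),(8,3),(2,6)]⟩,⟨1,[(6,0),(3,0)]⟩⟩ ⟨true,0,⟨1,[(26,0),(8,0),(0,
  0),(5,1)]⟩,⟨0,[(14,0),(12,0)]⟩⟩,.o ⟨false,0,⟨3,[(0,0),(2,0),(10,0),(12,3),(0,0),(3,0),(4,0),(2,
  0)]⟩,⟨7,[(24,0),(0,0),(0,3),(10,1),(5,3)]⟩⟩]⟩) (.Q [0,-1,0,1,0,0,1,1,0,1,-1] (.p false [0,0,1]
  [1] (⟨0,[(36,0)]⟩,⟨0,[(35,0)]⟩) .k 1 (⟨0,[]⟩,⟨0,[]⟩) .k .k) (.Q [0,1,0,-1,0,0,-1,-1,0,0,1] (.p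
  true [0,0,1] [] (⟨0,[(37,0)]⟩,⟨0,[(36,0)]⟩) .k 0 (⟨0,[]⟩,⟨0,[]⟩) .k .k) (.K ⟨1,[0,1,1],1,0,(⟨0,
  [(38,0),(2,0)]⟩,⟨0,[(20,0)]⟩),.k,.k,(.r 1 ⟨0,[(6,0),(11,0),(25,1)]⟩ ⟨5,[(19,1),(1,7),(4,0),(0,
  0)]⟩),.k,.k,[⟨0,[(6,0)]⟩,⟨3,[(18,1),(5,1),(1,0),(0,0),(6,1)]⟩,⟨0,[(0,0)]⟩,⟨0,[(1,0)]⟩]⟩) (.Q [0,1,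
  0,0,0,0,0,0,-1,-1,0,1] (.p true [0,0,0,1] [1] (⟨0,[(29,0)]⟩,⟨1,[(28,0),(8,0),(0,0)]⟩) .k 1 (⟨0,
  []⟩,⟨0,[]⟩) .k .k) (.R ⟨2,true,false,true,[0,1],[1,0,0,-1],[1,1,1],(⟨0,[]⟩,⟨0,[]⟩),(⟨1,[(29,0),(8,
  0),(0,0)]⟩,⟨0,[(30,0)]⟩),⟨0,[]⟩,.k,.k,.k,(.r 0 ⟨5,[(7,1),(1,2),(3,2),(13,0),(0,0),(6,1)]⟩ ⟨4,[(3,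
  0),(16,0),(1,0),(4,1)]⟩),.k,.k,⟨false,0,⟨0,[(9,0),(34,0)]⟩,⟨1,[(27,0),(18,0)]⟩⟩,⟨true,0,⟨3,[(0,0),
  (6,0),(1,0),(7,0),(12,2),(4,0),(4,0),(2,0)]⟩,⟨1,[(29,0),(8,0),(0,0)]⟩⟩,⟨true,0,⟨0,[(44,0)]⟩,⟨0,
  [(45,0)]⟩⟩,⟨false,1,⟨0,[(0,0),(43,0),(2,0)]⟩,⟨1,[(9,1),(19,0),(8,0),(0,0)]⟩⟩,⟨false,0,⟨0,[]⟩,⟨3,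
  [(27,0),(0,0),(18,1)]⟩⟩,⟨true,0,⟨0,[(0,0)]⟩,⟨4,[(2,0),(6,0),(0,2),(2,0),(15,0),(4,3)]⟩⟩,[]⟩) (.R
  ⟨1,false,false,true,[0,0,0,1],[1,-1],[0,1,0,0,0,0,0,0,1],(⟨0,[(30,0)]⟩,⟨1,[(29,0),(8,0),(0,0)]⟩),
  (⟨0,[(41,0)]⟩,⟨0,[(42,0)]⟩),⟨0,[(4,0)]⟩,.k,.k,(.r (-1) ⟨2,[(9,0),(10,0),(1,0),(5,0),(15,0)]⟩ ⟨3,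
  [(6,1),(0,0),(4,0),(14,0),(3,1),(3,0),(2,1),(3,0),(2,5)]⟩),(.r 0 ⟨5,[(7,1),(1,2),(3,2),(13,0),(0,
  0),(6,1)]⟩ ⟨4,[(3,0),(16,0),(1,0),(4,1)]⟩),.k,.k,⟨false,0,⟨1,[(9,0),(3,0)]⟩,⟨4,[(3,0),(16,0),(1,
  0),(4,1)]⟩⟩,⟨true,0,⟨3,[(1,0),(5,0),(9,0),(12,3),(0,0),(3,0),(4,0),(2,0)]⟩,⟨1,[(29,0),(8,0),(0,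
  0)]⟩⟩,⟨true,0,⟨0,[(49,0)]⟩,⟨0,[]⟩⟩,⟨false,1,⟨1,[(17,1),(9,0),(2,1),(16,0)]⟩,⟨2,[(0,0),(1,0),(6,1),
  (19,0),(4,0)]⟩⟩,⟨false,0,⟨0,[(45,0)]⟩,⟨0,[(44,0),(2,0)]⟩⟩,⟨false,1,⟨1,[(27,0),(2,1),(9,0)]⟩,⟨0,
  [(0,0)]⟩⟩,[.o ⟨false,0,⟨0,[(17,0)]⟩,⟨3,[(9,3),(17,2),(0,0)]⟩⟩,.o ⟨false,1,⟨1,[(40,0),(3,1),(2,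
  0)]⟩,⟨0,[(45,0)]⟩⟩,.a ⟨true,0,⟨1,[(29,0),(8,0),(0,0)]⟩,⟨0,[(30,0)]⟩⟩ ⟨false,0,⟨0,[(9,0),(34,0)]⟩,
  ⟨1,[(27,0),(19,0)]⟩⟩ ⟨true,0,⟨0,[(17,0),(12,0)]⟩,⟨1,[(2,0),(26,0),(4,0),(10,0)]⟩⟩,.o ⟨false,0,⟨1,
  [(29,0),(2,0),(2,0)]⟩,⟨1,[(30,1),(9,0),(5,0)]⟩⟩]⟩))) (.Q [0,-1,0,0,0,0,0,0,1,1,0,-1] (.p false [0,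
  0,0,1] [1] (⟨0,[(28,0)]⟩,⟨1,[(27,0),(8,0),(0,0)]⟩) .k 1 (⟨0,[]⟩,⟨0,[]⟩) .k .k) (.R ⟨1,false,false,
  true,[0,0,0,1],[1,-1],[0,1,0,0,0,0,0,0,1],(⟨0,[(29,0)]⟩,⟨1,[(28,0),(8,0),(0,0)]⟩),(⟨0,[(40,0)]⟩,
  ⟨0,[(41,0)]⟩),⟨0,[(3,0)]⟩,.k,.k,(.r (-1) ⟨8,[(1,0),(6,0),(0,0),(2,0),(6,2),(1,2),(5,2),(1,0)]⟩ ⟨3,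
  [(5,1),(0,0),(4,0),(14,0),(3,1),(3,0),(2,1),(3,0),(2,5)]⟩),(.r 0 ⟨5,[(6,1),(1,2),(3,2),(13,0),(0,
  0),(6,1)]⟩ ⟨4,[(2,0),(16,0),(1,0),(4,1)]⟩),.k,.k,⟨false,0,⟨1,[(8,0),(3,0)]⟩,⟨4,[(2,0),(16,0),(1,
  0),(4,1)]⟩⟩,⟨true,0,⟨0,[(23,0),(5,0),(4,0)]⟩,⟨1,[(28,0),(8,0),(0,0)]⟩⟩,⟨true,0,⟨0,[(48,0)]⟩,⟨0,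
  []⟩⟩,⟨false,1,⟨1,[(16,1),(9,0),(2,1),(16,0)]⟩,⟨0,[(0,0),(43,0)]⟩⟩,⟨false,0,⟨0,[(44,0)]⟩,⟨0,[(43,
  0),(2,0)]⟩⟩,⟨false,1,⟨1,[(26,0),(2,1),(9,0)]⟩,⟨0,[(0,0)]⟩⟩,[.o ⟨false,0,⟨0,[(16,0)]⟩,⟨3,[(8,3),
  (17,2),(0,0)]⟩⟩,.o ⟨false,1,⟨1,[(39,0),(3,1),(2,0)]⟩,⟨0,[(44,0)]⟩⟩,.a ⟨true,0,⟨1,[(28,0),(8,0),(0,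
  0)]⟩,⟨0,[(29,0)]⟩⟩ ⟨false,0,⟨2,[(1,0),(6,0),(0,0),(2,0),(16,0)]⟩,⟨1,[(26,0),(19,0)]⟩⟩ ⟨true,0,⟨0,
  [(16,0),(12,0)]⟩,⟨1,[(28,0),(8,0),(0,0),(5,1)]⟩⟩,.o ⟨false,0,⟨1,[(28,0),(2,0),(2,0)]⟩,⟨1,[(29,1),
  (9,0),(5,0)]⟩⟩]⟩) (.R ⟨2,true,false,true,[0,1],[1,0,0,-1],[0,1,1,1],(⟨0,[]⟩,⟨0,[]⟩),(⟨1,[(28,0),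
  (8,0),(0,0)]⟩,⟨0,[(29,0)]⟩),⟨0,[]⟩,.k,.k,.k,(.r 0 ⟨5,[(6,1),(1,2),(3,2),(13,0),(0,0),(6,1)]⟩ ⟨4,
  [(2,0),(16,0),(1,0),(4,1)]⟩),.k,.k,⟨false,0,⟨1,[(8,0),(3,0)]⟩,⟨4,[(2,0),(16,0),(1,0),(4,1)]⟩⟩,
  ⟨true,0,⟨3,[(0,0),(5,0),(1,0),(7,0),(12,2),(4,0),(4,0),(2,0)]⟩,⟨1,[(28,0),(8,0),(0,0)]⟩⟩,⟨true,0,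
  ⟨0,[(48,0)]⟩,⟨0,[]⟩⟩,⟨false,1,⟨1,[(16,1),(9,0),(2,1),(16,0)]⟩,⟨1,[(8,1),(19,0),(8,0),(0,0)]⟩⟩,
  ⟨false,0,⟨0,[(44,0)]⟩,⟨0,[(43,0),(2,0)]⟩⟩,⟨true,0,⟨0,[(0,0)]⟩,⟨3,[(8,0),(0,1),(2,0),(15,0),(4,1),
  (3,0),(0,0)]⟩⟩,[]⟩)))) (.R ⟨0,false,false,true,[0,0,0,1],[1,-1],[0,1,0,0,0,0,0,0,1],(⟨0,[(26,0)]⟩,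
  ⟨1,[(25,0),(8,0),(0,0)]⟩),(⟨0,[(37,0)]⟩,⟨0,[(38,0)]⟩),⟨0,[(0,0)]⟩,.k,.k,(.r (-1) ⟨2,[(5,0),(10,0),
  (1,0),(5,0),(15,0)]⟩ ⟨3,[(2,1),(0,0),(4,0),(14,0),(3,1),(3,0),(2,1),(3,0),(2,5)]⟩),(.r 0 ⟨5,[(3,
  1),(1,2),(3,2),(13,0),(0,0),(6,1)]⟩ ⟨5,[(1,0),(2,0),(11,0),(1,1),(4,1)]⟩),.k,.k,⟨false,0,⟨1,[(5,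
  0),(3,0)]⟩,⟨5,[(1,0),(2,0),(11,0),(1,1),(4,1)]⟩⟩,⟨true,0,⟨0,[(20,0),(5,0),(4,0)]⟩,⟨1,[(25,0),(8,
  0),(0,0)]⟩⟩,⟨true,0,⟨0,[(45,0)]⟩,⟨0,[]⟩⟩,⟨false,1,⟨1,[(13,1),(9,0),(2,1),(16,0)]⟩,⟨1,[(5,1),(19,
  0),(8,0),(0,0)]⟩⟩,⟨false,0,⟨0,[]⟩,⟨0,[]⟩⟩,⟨false,0,⟨0,[]⟩,⟨0,[]⟩⟩,[.o ⟨false,0,⟨0,[(13,0)]⟩,⟨3,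
  [(5,3),(17,2),(0,0)]⟩⟩,.o ⟨false,1,⟨1,[(36,0),(3,1),(2,0)]⟩,⟨0,[(41,0)]⟩⟩,.a ⟨true,0,⟨1,[(25,0),
  (8,0),(0,0)]⟩,⟨0,[(26,0)]⟩⟩ ⟨false,0,⟨0,[(5,0),(34,0)]⟩,⟨1,[(23,0),(19,0)]⟩⟩ ⟨true,0,⟨0,[(13,0),
  (12,0)]⟩,⟨1,[(25,0),(8,0),(0,0),(5,1)]⟩⟩,.o ⟨false,0,⟨1,[(25,0),(2,0),(2,0)]⟩,⟨1,[(26,1),(9,0),(5,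
  0)]⟩⟩]⟩)))) (.I [0,1,0,1,0,0,0,0,-1] (.Q [0,0,0,0,0,1,0,0,0,0,0,-1] (.p false [0,0,0,1] [] (⟨0,
  [(24,0)]⟩,⟨1,[(23,0),(8,0),(0,0)]⟩) .k 0 (⟨0,[]⟩,⟨0,[]⟩) .k .k) (.R ⟨0,false,false,true,[0,0,0,1],
  [1,-1],[0,1,0,0,0,0,0,0,1],(⟨0,[(25,0)]⟩,⟨1,[(24,0),(8,0),(0,0)]⟩),(⟨0,[(36,0)]⟩,⟨0,[(37,0)]⟩),⟨0,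
  [(0,0)]⟩,.k,.k,(.r (-1) ⟨2,[(4,0),(10,0),(1,0),(5,0),(15,0)]⟩ ⟨0,[(1,0),(36,0)]⟩),(.r 0 ⟨1,[(4,0),
  (3,0),(21,0),(0,0)]⟩ ⟨3,[(3,1),(13,1),(4,0),(18,0)]⟩),.k,.k,⟨false,0,⟨1,[(4,0),(3,0)]⟩,⟨3,[(3,1),
  (13,1),(4,0),(18,0)]⟩⟩,⟨true,0,⟨0,[(19,0),(5,0),(4,0)]⟩,⟨1,[(24,0),(8,0),(0,0)]⟩⟩,⟨true,0,⟨0,[(44,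
  0)]⟩,⟨0,[]⟩⟩,⟨false,1,⟨1,[(12,1),(9,0),(2,1),(16,0)]⟩,⟨1,[(4,1),(19,0),(8,0),(0,0)]⟩⟩,⟨false,0,⟨0,
  []⟩,⟨0,[]⟩⟩,⟨false,0,⟨0,[]⟩,⟨0,[]⟩⟩,[.o ⟨false,0,⟨0,[(12,0)]⟩,⟨3,[(4,3),(17,2),(0,0)]⟩⟩,.o ⟨false,
  1,⟨1,[(35,0),(3,1),(2,0)]⟩,⟨0,[(40,0)]⟩⟩,.a ⟨true,0,⟨1,[(24,0),(8,0),(0,0)]⟩,⟨0,[(25,0)]⟩⟩ ⟨false,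
  0,⟨0,[(4,0),(34,0)]⟩,⟨1,[(22,0),(19,0)]⟩⟩ ⟨true,0,⟨0,[(12,0),(12,0)]⟩,⟨1,[(24,0),(8,0),(0,0),(5,
  1)]⟩⟩,.o ⟨false,0,⟨1,[(24,0),(2,0),(2,0)]⟩,⟨1,[(25,1),(9,0),(5,0)]⟩⟩]⟩) (.R ⟨1,false,false,false,
  [0,0,0,1],[1,-1],[1,0,0,-1,0,0,0,0,1],(⟨0,[(25,0)]⟩,⟨1,[(24,0),(8,0),(0,0)]⟩),(⟨0,[(36,0)]⟩,⟨0,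
  [(37,0)]⟩),⟨0,[(0,0)]⟩,.k,.k,(.r (-1) ⟨2,[(4,0),(10,0),(1,0),(5,0),(15,0)]⟩ ⟨0,[(1,0),(36,0)]⟩),
  (.r 0 ⟨1,[(4,0),(3,0),(21,0),(0,0)]⟩ ⟨3,[(3,1),(13,1),(4,0),(18,0)]⟩),.k,.k,⟨false,0,⟨0,[(4,0),
  (34,0)]⟩,⟨1,[(22,0),(18,0)]⟩⟩,⟨true,0,⟨0,[(19,0),(5,0),(4,0)]⟩,⟨1,[(24,0),(8,0),(0,0)]⟩⟩,⟨false,1,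
  ⟨0,[(39,0),(2,0)]⟩,⟨0,[(40,0)]⟩⟩,⟨false,1,⟨0,[(2,0),(0,0),(21,0),(0,0),(11,1)]⟩,⟨1,[(4,0),(3,0),
  (15,0),(8,0),(0,0)]⟩⟩,⟨true,0,⟨0,[]⟩,⟨0,[(44,0)]⟩⟩,⟨false,1,⟨1,[(1,0),(0,1),(0,0),(15,0),(5,1),(0,
  0),(11,3)]⟩,⟨3,[(4,0),(0,1),(2,0),(15,0),(4,1),(3,0),(0,0)]⟩⟩,[.o ⟨false,1,⟨1,[(35,0),(3,1),(2,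
  0)]⟩,⟨0,[(40,0)]⟩⟩,.o ⟨false,1,⟨0,[(12,0),(29,0)]⟩,⟨1,[(1,0),(6,0)]⟩⟩,.a ⟨true,0,⟨1,[(24,0),(8,0),
  (0,0)]⟩,⟨0,[(25,0)]⟩⟩ ⟨true,0,⟨0,[(5,0),(19,0),(0,0)]⟩,⟨0,[(1,0)]⟩⟩ ⟨false,1,⟨0,[(12,0),(12,0),
  (16,0)]⟩,⟨1,[(24,0),(8,0),(0,0),(5,1)]⟩⟩,.o ⟨false,0,⟨1,[(24,0),(2,0),(2,0)]⟩,⟨1,[(25,1),(9,0),(5,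
  0)]⟩⟩]⟩)) (.I [0,0,-1,0,0,0,0,1,1] (.I [1,-1,2,1,0,0,0,0,-1] (.I [1,0,0,0,1,0,0,-1,-1] (.R ⟨1,
  false,false,false,[1,0,0,-1],[0,-1,1],[1,0,0,-1,0,0,0,0,-1],(⟨1,[(26,0),(8,0),(0,0)]⟩,⟨0,[(27,
  0)]⟩),(⟨0,[(12,0)]⟩,⟨0,[(35,0),(3,0)]⟩),⟨1,[(12,0),(5,0),(7,0)]⟩,.k,.k,(.r (-1) ⟨3,[(5,1),(13,1),
  (4,0),(18,0)]⟩ ⟨1,[(6,0),(3,0),(21,0),(0,0)]⟩),(.x (-1) ⟨3,[(8,1),(15,0),(0,0),(9,3),(1,0),(1,3),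
  (3,0)]⟩ ⟨2,[(9,1),(8,0),(10,0)]⟩),.k,.k,⟨false,1,⟨0,[(0,0)]⟩,⟨0,[(2,0)]⟩⟩,⟨true,0,⟨7,[(9,1),(16,
  3),(5,4),(0,0),(1,3),(3,1)]⟩,⟨0,[(21,0),(5,0)]⟩⟩,⟨false,1,⟨0,[(41,0),(2,0)]⟩,⟨0,[(42,0)]⟩⟩,⟨false,
  0,⟨0,[(7,0)]⟩,⟨4,[(0,3),(0,0),(6,1),(18,4),(0,0),(8,0),(4,3)]⟩⟩,⟨true,0,⟨0,[]⟩,⟨0,[(46,0)]⟩⟩,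
  ⟨false,0,⟨0,[(7,0),(34,0)]⟩,⟨0,[(0,0),(20,0),(5,0)]⟩⟩,[.o ⟨false,0,⟨0,[(13,0)]⟩,⟨5,[(1,2),(4,0),
  (1,1),(1,1),(11,3),(8,1),(5,1)]⟩⟩,.o ⟨false,1,⟨0,[(20,0),(23,0)]⟩,⟨0,[(28,0),(13,0)]⟩⟩,.a ⟨true,0,
  ⟨0,[(27,0)]⟩,⟨1,[(26,0),(8,0),(0,0)]⟩⟩ ⟨false,1,⟨2,[(1,0),(3,1),(13,1),(24,0)]⟩,⟨1,[(6,0),(3,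
  0)]⟩⟩ ⟨true,0,⟨1,[(13,1),(12,0),(8,0),(0,0)]⟩,⟨0,[(27,0),(0,0),(13,0)]⟩⟩,.o ⟨false,0,⟨1,[(1,0),(4,
  0),(7,1),(12,1)]⟩,⟨7,[(24,0),(0,0),(0,3),(10,1),(5,3)]⟩⟩]⟩) (.R ⟨1,false,false,false,[1,0,0,-1],
  [0,-1,1],[0,1,0,0,0,0,0,0,-1],(⟨1,[(26,0),(8,0),(0,0)]⟩,⟨0,[(27,0)]⟩),(⟨0,[(12,0)]⟩,⟨0,[(35,0),(3,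
  0)]⟩),⟨1,[(12,0),(5,0),(7,0)]⟩,.k,.k,(.r (-1) ⟨3,[(5,1),(13,1),(4,0),(18,0)]⟩ ⟨7,[(0,1),(0,2),(4,
  1),(3,2),(14,1),(5,1),(0,1)]⟩),(.x (-1) ⟨3,[(8,1),(15,0),(0,0),(9,3),(1,0),(1,3),(3,0)]⟩ ⟨2,[(9,
  1),(8,0),(10,0)]⟩),.k,.k,⟨false,1,⟨4,[(4,0),(5,0),(11,0),(1,2),(6,3),(0,2),(9,3)]⟩,⟨5,[(0,3),(2,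
  3),(1,1),(37,2),(0,0)]⟩⟩,⟨true,0,⟨7,[(9,1),(16,3),(5,4),(0,0),(1,3),(3,1)]⟩,⟨0,[(21,0),(5,0)]⟩⟩,
  ⟨true,0,⟨0,[(46,0)]⟩,⟨0,[]⟩⟩,⟨false,0,⟨0,[(7,0)]⟩,⟨6,[(1,2),(6,1),(13,3),(1,1),(2,6),(0,2),(8,0),
  (4,3)]⟩⟩,⟨false,0,⟨0,[(42,0)]⟩,⟨0,[(41,0),(2,0)]⟩⟩,⟨false,0,⟨0,[(7,0),(34,0)]⟩,⟨1,[(24,0),(2,1),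
  (0,1),(15,0)]⟩⟩,[.o ⟨false,0,⟨0,[(13,0)]⟩,⟨5,[(1,2),(4,0),(1,1),(1,1),(11,3),(8,1),(5,1)]⟩⟩,.o
  ⟨false,1,⟨0,[(20,0),(23,0)]⟩,⟨0,[(28,0),(13,0)]⟩⟩,.a ⟨true,0,⟨0,[(27,0)]⟩,⟨1,[(26,0),(8,0),(0,
  0)]⟩⟩ ⟨false,1,⟨3,[(24,2),(0,0)]⟩,⟨1,[(3,0),(2,0)]⟩⟩ ⟨true,0,⟨10,[(0,0),(3,0),(0,3),(1,2),(1,1),
  (3,0),(6,1),(5,3),(8,3),(3,1),(1,0)]⟩,⟨0,[(27,0),(0,0),(13,0)]⟩⟩,.o ⟨false,0,⟨7,[(0,1),(0,2),(1,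
  0),(10,1),(12,7),(0,1),(3,1),(4,1)]⟩,⟨7,[(24,0),(0,0),(0,3),(10,1),(5,3)]⟩⟩]⟩)) (.R ⟨1,false,
  false,true,[1,0,0,-1],[1,-1],[1,1,0,-1,0,0,0,0,-1],(⟨1,[(25,0),(8,0),(0,0)]⟩,⟨0,[(26,0)]⟩),(⟨0,
  [(37,0)]⟩,⟨0,[(38,0)]⟩),⟨1,[(11,0),(5,0),(7,0)]⟩,.k,.k,(.r (-1) ⟨3,[(4,1),(13,1),(4,0),(18,0)]⟩
  ⟨1,[(5,0),(3,0),(21,0),(0,0)]⟩),(.r (-1) ⟨1,[(5,0),(3,0),(13,1),(7,0),(0,0)]⟩ ⟨1,[(0,0),(1,0)]⟩),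
  .k,.k,⟨false,1,⟨3,[(23,2),(0,0)]⟩,⟨1,[(0,0),(4,0)]⟩⟩,⟨true,0,⟨1,[(25,0),(2,0),(2,0)]⟩,⟨0,[(26,
  0)]⟩⟩,⟨true,0,⟨0,[(40,0)]⟩,⟨0,[(41,0)]⟩⟩,⟨false,0,⟨3,[(2,2),(6,0),(3,1),(11,1)]⟩,⟨0,[(5,0),(17,0),
  (2,0)]⟩⟩,⟨false,0,⟨0,[]⟩,⟨3,[(23,0),(0,0),(18,1)]⟩⟩,⟨false,0,⟨3,[(2,0),(2,1),(3,0),(3,1),(11,1)]⟩,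
  ⟨1,[(23,0),(2,1),(16,0)]⟩⟩,[.o ⟨false,0,⟨0,[(13,0)]⟩,⟨3,[(5,3),(17,2),(0,0)]⟩⟩,.o ⟨false,1,⟨1,
  [(36,0),(3,1),(2,0)]⟩,⟨0,[(41,0)]⟩⟩,.a ⟨true,0,⟨0,[(26,0)]⟩,⟨1,[(25,0),(8,0),(0,0)]⟩⟩ ⟨false,1,⟨1,
  [(23,0),(16,1),(2,0)]⟩,⟨0,[(5,0)]⟩⟩ ⟨true,0,⟨1,[(13,0),(11,0),(14,0)]⟩,⟨0,[(26,0),(14,0)]⟩⟩,.o
  ⟨false,0,⟨0,[(20,0),(5,0),(4,0)]⟩,⟨7,[(23,0),(0,0),(0,3),(10,1),(5,3)]⟩⟩]⟩)) (.Q [0,0,0,0,0,-1,0,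
  0,0,0,0,1] (.p true [0,0,0,1] [] (⟨0,[(25,0)]⟩,⟨1,[(24,0),(8,0),(0,0)]⟩) .k 0 (⟨0,[]⟩,⟨0,[]⟩) .k
  .k) (.R ⟨1,false,false,true,[0,0,0,1],[1,-1],[0,0,0,0,0,0,0,0,1],(⟨0,[(26,0)]⟩,⟨1,[(25,0),(8,0),
  (0,0)]⟩),(⟨0,[(37,0)]⟩,⟨0,[(38,0)]⟩),⟨0,[(0,0)]⟩,.k,.k,(.r (-1) ⟨16,[(2,2),(0,1),(12,4),(1,2),(5,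
  6),(5,1),(9,0)]⟩ ⟨0,[(1,0),(31,0),(7,0)]⟩),(.r 0 ⟨1,[(5,0),(3,0),(21,0),(0,0)]⟩ ⟨3,[(4,1),(13,1),
  (4,0),(18,0)]⟩),.k,.k,⟨false,0,⟨0,[(5,0)]⟩,⟨3,[(3,0),(12,0),(6,1),(6,0),(9,1),(4,0)]⟩⟩,⟨true,0,⟨0,
  [(20,0),(5,0),(4,0)]⟩,⟨1,[(25,0),(8,0),(0,0)]⟩⟩,⟨false,1,⟨3,[(23,0),(0,0),(18,1)]⟩,⟨0,[]⟩⟩,⟨false,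
  1,⟨1,[(13,1),(9,0),(2,1),(16,0)]⟩,⟨1,[(5,1),(19,0),(8,0),(0,0)]⟩⟩,⟨true,0,⟨0,[(41,0)]⟩,⟨0,[(40,
  0)]⟩⟩,⟨false,1,⟨1,[(23,0),(2,1),(9,0)]⟩,⟨1,[(2,0),(2,0),(19,0),(8,0),(0,0)]⟩⟩,[.o ⟨false,0,⟨0,
  [(13,0)]⟩,⟨3,[(5,3),(17,2),(0,0)]⟩⟩,.o ⟨false,1,⟨1,[(36,0),(3,1),(2,0)]⟩,⟨0,[(41,0)]⟩⟩,.a ⟨true,0,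
  ⟨1,[(25,0),(8,0),(0,0)]⟩,⟨0,[(26,0)]⟩⟩ ⟨false,0,⟨1,[(2,0),(2,0)]⟩,⟨3,[(23,2),(0,0)]⟩⟩ ⟨true,0,⟨0,
  [(13,0),(12,0)]⟩,⟨1,[(25,0),(8,0),(0,0),(5,1)]⟩⟩,.o ⟨false,0,⟨1,[(25,0),(2,0),(2,0)]⟩,⟨1,[(26,1),
  (9,0),(5,0)]⟩⟩]⟩) (.R ⟨0,false,false,true,[0,0,0,1],[1,-1],[1,0,0,0,0,0,0,0,1],(⟨0,[(26,0)]⟩,⟨1,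
  [(25,0),(8,0),(0,0)]⟩),(⟨0,[(37,0)]⟩,⟨0,[(38,0)]⟩),⟨0,[(0,0)]⟩,.k,.k,(.r (-1) ⟨16,[(2,2),(0,1),
  (12,4),(1,2),(5,6),(5,1),(9,0)]⟩ ⟨0,[(1,0),(31,0),(7,0)]⟩),(.r 0 ⟨1,[(5,0),(3,0),(21,0),(0,0)]⟩
  ⟨3,[(4,1),(13,1),(4,0),(18,0)]⟩),.k,.k,⟨false,0,⟨0,[(5,0)]⟩,⟨3,[(3,0),(12,0),(6,1),(6,0),(9,1),(4,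
  0)]⟩⟩,⟨true,0,⟨0,[(20,0),(5,0),(4,0)]⟩,⟨1,[(25,0),(8,0),(0,0)]⟩⟩,⟨true,0,⟨0,[]⟩,⟨0,[(45,0)]⟩⟩,
  ⟨false,1,⟨1,[(13,1),(9,0),(2,1),(16,0)]⟩,⟨1,[(5,1),(19,0),(8,0),(0,0)]⟩⟩,⟨false,0,⟨0,[]⟩,⟨0,[]⟩⟩,
  ⟨false,0,⟨0,[]⟩,⟨0,[]⟩⟩,[.o ⟨false,0,⟨0,[(13,0)]⟩,⟨3,[(5,3),(17,2),(0,0)]⟩⟩,.o ⟨false,1,⟨1,[(36,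
  0),(3,1),(2,0)]⟩,⟨0,[(41,0)]⟩⟩,.a ⟨true,0,⟨1,[(25,0),(8,0),(0,0)]⟩,⟨0,[(26,0)]⟩⟩ ⟨false,0,⟨1,[(2,
  0),(2,0)]⟩,⟨3,[(23,2),(0,0)]⟩⟩ ⟨true,0,⟨0,[(13,0),(12,0)]⟩,⟨1,[(25,0),(8,0),(0,0),(5,1)]⟩⟩,.o
  ⟨false,0,⟨1,[(25,0),(2,0),(2,0)]⟩,⟨1,[(26,1),(9,0),(5,0)]⟩⟩]⟩))))))) (.Q [0,1,0,0,0,0,0,0,1,0,0,
  -1] (.p false [0,0,0,1] [] (⟨0,[(20,0)]⟩,⟨1,[(19,0),(8,0),(0,0)]⟩) .k 0 (⟨0,[]⟩,⟨0,[]⟩) .k .k)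
  (.I [1,0,0,0,0,0,0,0,-1] (.Q [0,0,0,0,0,0,0,0,1,1,0,-1] (.p false [0,0,0,1] [1] (⟨0,[(22,0)]⟩,⟨1,
  [(21,0),(8,0),(0,0)]⟩) .k 1 (⟨0,[]⟩,⟨0,[]⟩) .k .k) (.R ⟨2,false,false,false,[0,1],[1,0,0,-1],[1,1,
  1],(⟨0,[]⟩,⟨0,[]⟩),(⟨1,[(22,0),(8,0),(0,0)]⟩,⟨0,[(23,0)]⟩),⟨0,[]⟩,.k,.k,.k,(.r 0 ⟨0,[(6,0),(29,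
  0)]⟩ ⟨2,[(1,0),(11,0),(1,0),(4,0)]⟩),.k,.k,⟨false,0,⟨0,[(2,0),(20,0)]⟩,⟨1,[(1,1),(37,0),(0,0)]⟩⟩,
  ⟨true,0,⟨0,[(17,0),(5,0),(4,0)]⟩,⟨1,[(22,0),(8,0),(0,0)]⟩⟩,⟨true,0,⟨0,[(37,0)]⟩,⟨0,[(38,0)]⟩⟩,
  ⟨false,1,⟨0,[(1,0),(8,0),(12,0),(16,0)]⟩,⟨0,[(0,0),(37,0)]⟩⟩,⟨false,0,⟨0,[]⟩,⟨3,[(20,0),(0,0),(18,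
  1)]⟩⟩,⟨false,1,⟨1,[(1,1),(21,1),(9,0),(6,0)]⟩,⟨0,[(0,0)]⟩⟩,[.a ⟨true,0,⟨0,[(1,0),(21,0)]⟩,⟨0,[(0,
  0)]⟩⟩ ⟨false,0,⟨0,[(42,0)]⟩,⟨1,[(39,0),(0,0)]⟩⟩ ⟨true,0,⟨0,[(3,0),(5,0),(26,0)]⟩,⟨0,[(0,0)]⟩⟩,.o
  ⟨false,1,⟨1,[(1,1),(21,1),(9,0),(6,0)]⟩,⟨0,[(2,0)]⟩⟩,.o ⟨false,1,⟨3,[(20,0),(0,0),(17,1)]⟩,⟨0,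
  [(17,0),(10,0)]⟩⟩,.e ⟨false,0,⟨0,[]⟩,⟨3,[(20,0),(0,0),(18,1)]⟩⟩ ⟨false,1,⟨1,[(1,1),(21,1),(9,0),
  (6,0)]⟩,⟨0,[(0,0)]⟩⟩]⟩) (.I [0,0,-1,-1,1,0,0,0,1] (.I [1,1,0,-1,0,0,0,0,1] (.Q [0,-1,0,-1,1,0,0,0,
  1,0,0,-1] (.p false [0,0,0,1] [] (⟨0,[(25,0)]⟩,⟨1,[(24,0),(8,0),(0,0)]⟩) .k 0 (⟨0,[]⟩,⟨0,[]⟩) .k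
  .k) (.R ⟨1,false,false,false,[1,0,0,-1],[1,-1],[0,0,0,0,0,0,0,0,-1],(⟨1,[(25,0),(8,0),(0,0)]⟩,⟨0,
  [(26,0)]⟩),(⟨0,[(37,0)]⟩,⟨0,[(38,0)]⟩),⟨1,[(11,0),(5,0),(7,0)]⟩,.k,.k,(.r (-1) ⟨2,[(4,0),(11,0),
  (1,0),(4,0)]⟩ ⟨0,[(9,0),(29,0)]⟩),(.r 0 ⟨1,[(4,1),(26,0),(0,0),(8,1)]⟩ ⟨0,[(2,0)]⟩),.k,.k,⟨false,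
  0,⟨0,[(4,0),(36,0)]⟩,⟨0,[(2,0)]⟩⟩,⟨true,0,⟨1,[(25,0),(2,0),(2,0)]⟩,⟨0,[(26,0)]⟩⟩,⟨false,1,⟨3,[(23,
  0),(0,0),(18,1)]⟩,⟨0,[]⟩⟩,⟨false,1,⟨0,[(0,0)]⟩,⟨0,[(4,0),(21,0),(14,0)]⟩⟩,⟨true,0,⟨0,[(41,0)]⟩,⟨0,
  [(40,0)]⟩⟩,⟨false,1,⟨0,[(5,0),(37,0)]⟩,⟨0,[(4,0),(21,0)]⟩⟩,[.o ⟨false,1,⟨7,[(0,3),(2,3),(19,0),(0,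
  0),(11,1),(3,3)]⟩,⟨0,[(41,0)]⟩⟩,.o ⟨false,1,⟨0,[(0,0),(2,0)]⟩,⟨5,[(6,1),(2,1),(15,0),(3,1),(4,0),
  (0,0),(5,1)]⟩⟩,.a ⟨true,0,⟨0,[(26,0)]⟩,⟨1,[(25,0),(8,0),(0,0)]⟩⟩ ⟨true,0,⟨1,[(3,1),(3,0),(0,0),(8,
  1),(7,0),(12,2)]⟩,⟨1,[(1,0),(7,0)]⟩⟩ ⟨false,1,⟨0,[(0,0),(3,0)]⟩,⟨0,[(26,0),(14,0)]⟩⟩,.o ⟨false,0,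
  ⟨0,[(20,0),(5,0),(4,0)]⟩,⟨7,[(23,0),(0,0),(0,3),(10,1),(5,3)]⟩⟩]⟩) (.R ⟨2,true,false,false,[0,1],
  [0,0,0,1],[0,0,1,1],(⟨0,[]⟩,⟨0,[]⟩),(⟨0,[(26,0)]⟩,⟨1,[(25,0),(8,0),(0,0)]⟩),⟨0,[]⟩,.k,.k,.k,(.r 0
  ⟨5,[(0,1),(22,1),(1,0),(2,0),(2,1),(0,0),(6,1),(1,3)]⟩ ⟨0,[(2,0)]⟩),.k,.k,⟨false,0,⟨5,[(0,3),(22,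
  0),(1,1),(10,0),(4,1),(1,1)]⟩,⟨0,[(2,0)]⟩⟩,⟨true,0,⟨1,[(25,0),(2,0),(2,0)]⟩,⟨0,[(26,0)]⟩⟩,⟨false,
  1,⟨3,[(23,0),(0,0),(18,1)]⟩,⟨0,[]⟩⟩,⟨true,1,⟨1,[(13,0),(10,0),(0,0),(14,0),(2,0)]⟩,⟨0,[(0,0)]⟩⟩,
  ⟨true,0,⟨0,[(41,0)]⟩,⟨0,[(40,0)]⟩⟩,⟨false,1,⟨0,[(5,0),(37,0)]⟩,⟨0,[(4,0),(21,0)]⟩⟩,[]⟩)) (.R ⟨2,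
  true,false,true,[0,1],[0,0,0,1],[1,1,1],(⟨0,[]⟩,⟨0,[]⟩),(⟨0,[(25,0)]⟩,⟨1,[(24,0),(8,0),(0,0)]⟩),
  ⟨0,[]⟩,.k,.k,.k,(.r 0 ⟨23,[(0,15),(4,7),(1,1),(16,3),(3,7),(1,8),(0,12),(1,3),(3,1)]⟩ ⟨0,[(1,
  0)]⟩),.k,.k,⟨false,0,⟨0,[(3,0)]⟩,⟨1,[(23,0),(17,0)]⟩⟩,⟨true,0,⟨1,[(24,0),(2,0),(2,0)]⟩,⟨0,[(25,
  0)]⟩⟩,⟨true,0,⟨0,[(39,0)]⟩,⟨0,[(40,0)]⟩⟩,⟨false,1,⟨1,[(12,0),(10,0),(0,0),(14,0),(2,0)]⟩,⟨0,[(0,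
  0),(24,0)]⟩⟩,⟨false,0,⟨0,[]⟩,⟨3,[(22,0),(0,0),(18,1)]⟩⟩,⟨true,0,⟨0,[(4,0)]⟩,⟨0,[(3,0),(21,0)]⟩⟩,
  []⟩)) (.R ⟨2,true,false,true,[0,1],[0,0,0,1],[1,1,1],(⟨0,[]⟩,⟨0,[]⟩),(⟨0,[(24,0)]⟩,⟨1,[(23,0),(8,
  0),(0,0)]⟩),⟨0,[]⟩,.k,.k,.k,(.x (-1) ⟨3,[(21,0),(0,0),(13,3),(3,1)]⟩ ⟨2,[(6,0),(8,1),(10,1)]⟩),.k,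
  .k,⟨false,0,⟨0,[(2,0)]⟩,⟨1,[(22,0),(17,0)]⟩⟩,⟨true,0,⟨1,[(23,0),(2,0),(2,0)]⟩,⟨0,[(24,0)]⟩⟩,⟨true,
  0,⟨0,[(38,0)]⟩,⟨0,[(39,0)]⟩⟩,⟨false,1,⟨1,[(11,0),(10,0),(0,0),(14,0),(2,0)]⟩,⟨1,[(0,1),(23,1),(15,
  0),(0,0)]⟩⟩,⟨false,0,⟨0,[]⟩,⟨3,[(21,0),(0,0),(18,1)]⟩⟩,⟨true,0,⟨0,[(3,0)]⟩,⟨0,[(2,0),(21,0)]⟩⟩,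
  []⟩))) (.Q [0,0,0,-1,0,0,0,0,1,0,0,-1] (.p false [0,0,0,1] [] (⟨0,[(22,0)]⟩,⟨1,[(21,0),(8,0),(0,
  0)]⟩) .k 0 (⟨0,[]⟩,⟨0,[]⟩) .k .k) (.R ⟨1,false,false,false,[1,0,0,-1],[1,-1],[0,1,0,0,0,0,0,0,-1],
  (⟨1,[(22,0),(8,0),(0,0)]⟩,⟨0,[(23,0)]⟩),(⟨0,[(34,0)]⟩,⟨0,[(35,0)]⟩),⟨1,[(8,0),(5,0),(7,0)]⟩,.k,.k,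
  (.x 0 ⟨2,[(5,0),(8,1),(10,1)]⟩ ⟨3,[(20,0),(0,0),(13,3),(3,1)]⟩),(.r 0 ⟨1,[(3,1),(8,1),(9,0),(8,0),
  (0,0),(3,1)]⟩ ⟨2,[(1,0),(11,0),(1,0),(5,0)]⟩),.k,.k,⟨false,0,⟨1,[(3,1),(8,1),(9,0),(8,0),(0,0)]⟩,
  ⟨1,[(0,1),(22,1),(15,0),(0,0)]⟩⟩,⟨true,0,⟨1,[(22,0),(2,0),(2,0)]⟩,⟨0,[(23,0)]⟩⟩,⟨true,0,⟨0,[(42,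
  0)]⟩,⟨0,[]⟩⟩,⟨true,0,⟨0,[(0,0)]⟩,⟨0,[(3,0),(8,0),(18,0),(0,0)]⟩⟩,⟨false,0,⟨0,[(38,0)]⟩,⟨0,[(37,0),
  (2,0)]⟩⟩,⟨true,0,⟨0,[(0,0),(37,0)]⟩,⟨0,[(3,0),(5,0),(21,0),(0,0)]⟩⟩,[.o ⟨false,1,⟨1,[(33,0),(3,1),
  (2,0)]⟩,⟨0,[(38,0)]⟩⟩,.o ⟨false,1,⟨0,[(10,0),(29,0)]⟩,⟨5,[(3,1),(2,1),(15,0),(3,1),(4,0),(0,0),(5,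
  1)]⟩⟩,.a ⟨true,0,⟨0,[(23,0)]⟩,⟨1,[(22,0),(8,0),(0,0)]⟩⟩ ⟨true,0,⟨1,[(3,1),(5,1),(12,0),(8,0),(0,
  0)]⟩,⟨0,[(1,0)]⟩⟩ ⟨false,1,⟨1,[(0,1),(19,0),(19,0)]⟩,⟨0,[(23,0),(14,0)]⟩⟩,.o ⟨false,0,⟨0,[(17,0),
  (5,0),(4,0)]⟩,⟨7,[(20,0),(0,0),(0,3),(10,1),(5,3)]⟩⟩]⟩) (.Q [0,0,0,0,0,0,0,0,-1,0,0,1] (.p true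
  [0,0,0,1] [] (⟨0,[(23,0)]⟩,⟨1,[(22,0),(8,0),(0,0)]⟩) .k 0 (⟨0,[]⟩,⟨0,[]⟩) .k .k) (.R ⟨2,false,
  false,false,[0,1],[0,0,0,1],[1,1,1],(⟨0,[]⟩,⟨0,[]⟩),(⟨0,[(24,0)]⟩,⟨1,[(23,0),(8,0),(0,0)]⟩),⟨0,
  []⟩,.k,.k,.k,(.r 0 ⟨1,[(1,1),(21,0),(2,0),(2,0)]⟩ ⟨2,[(2,0),(11,0),(1,0),(5,0)]⟩),.k,.k,⟨false,0,
  ⟨1,[(0,0),(3,0),(12,0),(5,0)]⟩,⟨1,[(2,1),(37,0),(0,0)]⟩⟩,⟨true,0,⟨1,[(23,0),(2,0),(2,0)]⟩,⟨0,[(24,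
  0)]⟩⟩,⟨true,0,⟨0,[(38,0)]⟩,⟨0,[(39,0)]⟩⟩,⟨false,1,⟨5,[(2,3),(8,2),(2,0),(1,0),(5,0),(0,2),(13,2),
  (3,2)]⟩,⟨0,[(1,0)]⟩⟩,⟨false,0,⟨0,[]⟩,⟨3,[(21,0),(0,0),(18,1)]⟩⟩,⟨false,1,⟨0,[(3,0),(37,0)]⟩,⟨0,
  [(0,0)]⟩⟩,[.a ⟨true,0,⟨1,[(2,1),(20,0),(8,0),(0,0)]⟩,⟨0,[(0,0)]⟩⟩ ⟨false,0,⟨0,[(43,0)]⟩,⟨1,[(40,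
  0),(0,0)]⟩⟩ ⟨true,0,⟨0,[(3,0),(33,0)]⟩,⟨0,[(0,0)]⟩⟩,.o ⟨false,1,⟨0,[(3,0),(37,0)]⟩,⟨0,[(1,0),(9,
  0)]⟩⟩,.o ⟨false,1,⟨3,[(21,0),(0,0),(17,1)]⟩,⟨0,[(18,0),(10,0)]⟩⟩,.e ⟨false,0,⟨0,[]⟩,⟨3,[(21,0),(0,
  0),(18,1)]⟩⟩ ⟨false,1,⟨0,[(3,0),(37,0)]⟩,⟨0,[(0,0)]⟩⟩]⟩) (.R ⟨2,true,false,false,[0,1],[0,0,0,1],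
  [1,1,1],(⟨0,[]⟩,⟨0,[]⟩),(⟨0,[(24,0)]⟩,⟨1,[(23,0),(8,0),(0,0)]⟩),⟨0,[]⟩,.k,.k,.k,(.r 0 ⟨1,[(1,1),
  (21,0),(2,0),(2,0)]⟩ ⟨2,[(2,0),(11,0),(1,0),(5,0)]⟩),.k,.k,⟨false,0,⟨1,[(1,1),(9,0),(11,0),(14,
  0)]⟩,⟨1,[(2,1),(37,0),(0,0)]⟩⟩,⟨true,0,⟨1,[(23,0),(2,0),(2,0)]⟩,⟨0,[(24,0)]⟩⟩,⟨true,0,⟨0,[(38,
  0)]⟩,⟨0,[(39,0)]⟩⟩,⟨false,1,⟨3,[(0,1),(10,0),(2,0),(1,0),(5,0),(0,0),(13,2),(3,0)]⟩,⟨0,[(1,0)]⟩⟩,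
  ⟨false,0,⟨0,[]⟩,⟨3,[(21,0),(0,0),(18,1)]⟩⟩,⟨true,0,⟨0,[(0,0)]⟩,⟨0,[(1,0),(36,0)]⟩⟩,[]⟩)))) (.R ⟨1,
  false,false,true,[1,0,0,-1],[1,-1],[1,1,0,-1,0,0,0,0,-1],(⟨1,[(20,0),(8,0),(0,0)]⟩,⟨0,[(21,0)]⟩),
  (⟨0,[(32,0)]⟩,⟨0,[(33,0)]⟩),⟨1,[(6,0),(5,0),(7,0)]⟩,.k,.k,(.r (-1) ⟨25,[(0,5),(0,1),(6,1),(2,7),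
  (1,7),(0,1),(3,8),(1,3),(16,0)]⟩ ⟨0,[(4,0),(29,0)]⟩),(.x (-1) ⟨3,[(18,0),(0,0),(13,3),(3,1)]⟩ ⟨2,
  [(3,0),(8,1),(10,1)]⟩),.k,.k,⟨false,0,⟨5,[(0,3),(0,1),(6,0),(1,0),(3,0),(5,2)]⟩,⟨1,[(19,0),(17,
  0)]⟩⟩,⟨true,0,⟨1,[(20,0),(2,0),(2,0)]⟩,⟨0,[(21,0)]⟩⟩,⟨true,0,⟨0,[(35,0)]⟩,⟨0,[(36,0)]⟩⟩,⟨false,1,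
  ⟨1,[(8,0),(10,0),(0,0),(14,0),(2,0)]⟩,⟨0,[(0,0),(35,0)]⟩⟩,⟨false,0,⟨0,[]⟩,⟨3,[(18,0),(0,0),(18,
  1)]⟩⟩,⟨false,1,⟨7,[(18,0),(0,4),(0,3),(10,1)]⟩,⟨0,[(0,0)]⟩⟩,[.o ⟨false,0,⟨0,[(8,0)]⟩,⟨3,[(18,0),
  (0,0),(16,3),(1,1)]⟩⟩,.o ⟨false,1,⟨1,[(31,0),(3,1),(2,0)]⟩,⟨0,[(36,0)]⟩⟩,.a ⟨true,0,⟨0,[(21,0)]⟩,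
  ⟨1,[(20,0),(8,0),(0,0)]⟩⟩ ⟨false,0,⟨1,[(0,1),(7,0),(11,0),(14,0)]⟩,⟨1,[(19,0),(16,1),(1,0)]⟩⟩
  ⟨true,0,⟨1,[(8,0),(11,0),(14,0)]⟩,⟨0,[(0,0),(3,0)]⟩⟩,.o ⟨false,0,⟨0,[(15,0),(5,0),(4,0)]⟩,⟨7,[(18,
  0),(0,0),(0,3),(10,1),(5,3)]⟩⟩]⟩))))

theorem ok101 : chk (cU (-1) false 2) t101 l59 = true := by decide +kernel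

noncomputable def t125 : Tre :=
  (.R ⟨1,false,false,true,[1,0,-1],[1,-1],[1,1,0,-1],(⟨0,[(18,0)]⟩,⟨0,[(19,0)]⟩),(⟨0,[(21,0)]⟩,⟨0,
  [(22,0)]⟩),⟨0,[(1,0)]⟩,.k,.k,.k,.k,.k,.k,⟨false,0,⟨0,[]⟩,⟨3,[(7,0),(0,0),(17,1)]⟩⟩,⟨true,0,⟨0,
  [(15,0)]⟩,⟨2,[(0,0),(1,0),(3,0),(7,0)]⟩⟩,⟨false,0,⟨0,[(2,0)]⟩,⟨7,[(3,3),(1,3),(1,0),(0,0),(6,3),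
  (9,3),(1,1)]⟩⟩,⟨false,1,⟨0,[(13,0),(10,0),(2,0)]⟩,⟨0,[(3,0)]⟩⟩,⟨false,0,⟨0,[(17,0)]⟩,⟨0,[(5,0),
  (17,0)]⟩⟩,⟨true,0,⟨0,[(13,0)]⟩,⟨0,[(3,0),(20,0)]⟩⟩,[.a ⟨true,0,⟨0,[(24,0)]⟩,⟨0,[(0,0)]⟩⟩ ⟨true,0,
  ⟨0,[(24,0)]⟩,⟨0,[(23,0),(1,0)]⟩⟩ ⟨false,1,⟨0,[(15,0),(8,0),(1,0)]⟩,⟨0,[(0,0),(3,0)]⟩⟩,.o ⟨false,1,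
  ⟨1,[(20,0),(3,1),(2,0)]⟩,⟨0,[(25,0)]⟩⟩,.o ⟨false,0,⟨0,[(4,0)]⟩,⟨7,[(5,3),(1,0),(0,0),(4,3),(1,3),
  (11,1)]⟩⟩,.o ⟨false,0,⟨0,[(12,0)]⟩,⟨0,[(15,0),(10,0)]⟩⟩]⟩)

theorem ok125 : chk (cU (-1) false 2) t125 l66 = true := by decide +kernel

end Helper11.CT.T1_3_m1_1_v
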