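import Pool.Agent.Helper11.CT.T.Tm1_1_m1_1_v_q

set_option autoImplicit false
set_option linter.all false

namespace Helper11.CT.Tm1_1_m1_1_v

open Helper11.CT

noncomputable def t0 : Tre :=
  (.K ⟨0,[-1,1,1],0,0,(⟨0,[(3,0)]⟩,⟨0,[(18,0),(2,0)]⟩),.k,.k,(.r 0 ⟨0,[(1,0)]⟩ ⟨1,[(0,1),(10,1),(8,
  0),(4,3),(1,0)]⟩),.k,.k,[⟨1,[(12,1),(2,0),(0,0)]⟩,⟨0,[(0,0)]⟩,⟨0,[(11,0),(13,0)]⟩,⟨0,[(5,0),(23,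
  0)]⟩]⟩)

theorem ok0 : chk (cU (-1) false 3) t0 l5 = true := by decide +kernel

noncomputable def t1 : Tre :=
  (.I [0,0,-2,-2,1,0,0,-1] (.Q [0,0,0,0,0,0,1,0,0,1,-1] (.p false [0,0,1] [1] (⟨0,[(21,0)]⟩,⟨0,[(20,
  0)]⟩) .k 1 (⟨0,[]⟩,⟨0,[]⟩) .k .k) (.K ⟨2,[-1,1,1],0,0,(⟨0,[(6,0)]⟩,⟨0,[(21,0),(2,0)]⟩),.k,.k,(.r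
  0 ⟨0,[(4,0)]⟩ ⟨0,[(1,0)]⟩),.k,.k,[⟨0,[(2,0)]⟩,⟨0,[(14,0),(13,0)]⟩,⟨3,[(3,1),(14,0),(0,2)]⟩,⟨0,[(0,
  0)]⟩]⟩) (.I [0,-1,1,0,0,0,0,1] (.Q [0,0,-2,0,1,0,1,0,0,1,-1] (.p false [0,0,1] [1] (⟨0,[(23,0)]⟩,
  ⟨0,[(22,0)]⟩) .k 1 (⟨0,[]⟩,⟨0,[]⟩) .k .k) (.R ⟨0,false,false,false,[1,0,-1],[0,1],[0,0,1],(⟨0,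
  [(23,0)]⟩,⟨0,[(24,0)]⟩),(⟨0,[(27,0)]⟩,⟨0,[(26,0)]⟩),⟨0,[(8,0)]⟩,.k,.k,.k,.k,.k,.k,⟨true,0,⟨0,[(30,
  0)]⟩,⟨0,[(2,0),(1,0),(15,0)]⟩⟩,⟨false,1,⟨0,[(0,0)]⟩,⟨0,[(17,0)]⟩⟩,⟨false,0,⟨0,[(1,0)]⟩,⟨1,[(3,0),
  (5,0),(10,0),(7,0),(3,0)]⟩⟩,⟨true,0,⟨0,[(10,0)]⟩,⟨0,[(2,0),(4,0)]⟩⟩,⟨false,0,⟨0,[]⟩,⟨0,[]⟩⟩,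
  ⟨false,0,⟨0,[]⟩,⟨0,[]⟩⟩,[.a ⟨true,0,⟨0,[(4,0)]⟩,⟨0,[(30,0)]⟩⟩ ⟨true,0,⟨1,[(20,0),(0,0)]⟩,⟨0,[]⟩⟩
  ⟨false,1,⟨4,[(0,3),(3,0),(1,0),(2,0),(10,1),(7,0),(3,0)]⟩,⟨0,[(2,0),(27,0)]⟩⟩,.o ⟨false,1,⟨11,[(0,
  1),(5,2),(2,2),(10,0),(4,0),(2,2),(3,8)]⟩,⟨0,[(2,0),(17,0),(7,0),(1,1)]⟩⟩,.o ⟨false,0,⟨0,[(2,0)]⟩,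
  ⟨11,[(0,3),(11,2),(0,2),(6,7),(4,1)]⟩⟩,.o ⟨false,0,⟨0,[(17,0)]⟩,⟨2,[(0,1),(19,0),(4,0)]⟩⟩]⟩) (.K
  ⟨2,[-1,1,1],1,0,(⟨0,[(8,0)]⟩,⟨0,[(23,0),(2,0)]⟩),.k,.k,(.r 0 ⟨0,[(6,0)]⟩ ⟨0,[(3,0)]⟩),.k,.k,[⟨0,
  [(4,0)]⟩,⟨0,[(2,0),(4,0)]⟩,⟨0,[(0,0)]⟩,⟨15,[(3,3),(0,11),(2,3),(3,3),(0,4),(0,4),(6,7),(11,
  1)]⟩]⟩)) (.Q [0,0,0,0,0,0,1,0,0,2,-1] (.p false [-1,1,1] [1] (⟨0,[(7,0)]⟩,⟨0,[(22,0),(2,0)]⟩) .k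
  1 (⟨0,[]⟩,⟨0,[]⟩) .k .k) (.K ⟨0,[2,-1,-1],0,0,(⟨0,[(23,0),(2,0)]⟩,⟨0,[(8,0)]⟩),.k,(.r (-1) ⟨0,[(3,
  0)]⟩ ⟨0,[(6,0)]⟩),.k,.k,.k,[⟨0,[(0,0)]⟩,⟨0,[(2,0)]⟩,⟨2,[(0,0),(3,2),(6,0),(10,0),(11,2)]⟩,⟨0,[(1,
  0),(0,1),(17,0),(9,0)]⟩]⟩) (.Q [0,0,0,-2,0,0,0,0,0,-1] (.pp true [-1,1]) (.R ⟨2,false,false,false,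
  [0,1],[1,-1],[],(⟨0,[]⟩,⟨0,[]⟩),(⟨0,[(27,0)]⟩,⟨0,[(28,0)]⟩),⟨0,[]⟩,.k,.k,.k,(.r 0 ⟨1,[(1,0),(3,3),
  (0,0),(14,1)]⟩ ⟨0,[(4,0),(18,0)]⟩),.k,.k,⟨true,0,⟨3,[(1,0),(3,3),(0,0),(14,1)]⟩,⟨0,[(31,0)]⟩⟩,
  ⟨false,0,⟨3,[(1,0),(4,0),(14,1)]⟩,⟨1,[(4,0),(0,1),(17,0),(8,0)]⟩⟩,⟨false,1,⟨1,[(4,0),(18,0),(9,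
  0)]⟩,⟨3,[(1,0),(3,3),(0,0),(14,1)]⟩⟩,⟨true,0,⟨0,[(0,0)]⟩,⟨0,[(5,0),(24,0)]⟩⟩,⟨false,1,⟨1,[(32,0),
  (0,0)]⟩,⟨1,[(21,0),(0,0)]⟩⟩,⟨false,1,⟨7,[(0,3),(12,0),(0,0),(11,1),(6,3)]⟩,⟨0,[(5,0)]⟩⟩,[.a ⟨true,
  0,⟨0,[(31,0)]⟩,⟨0,[(5,0)]⟩⟩ ⟨false,1,⟨3,[(13,0),(0,0),(17,1)]⟩,⟨0,[]⟩⟩ ⟨true,0,⟨7,[(0,3),(5,1),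
  (14,2),(0,0)]⟩,⟨0,[(5,0)]⟩⟩,.o ⟨false,1,⟨7,[(0,3),(12,0),(0,0),(11,1),(6,3)]⟩,⟨0,[(30,0)]⟩⟩,.o
  ⟨false,1,⟨3,[(13,0),(0,0),(17,1)]⟩,⟨3,[(1,0),(4,0),(14,1)]⟩⟩,.e ⟨false,1,⟨1,[(32,0),(0,0)]⟩,⟨1,
  [(21,0),(0,0)]⟩⟩ ⟨false,1,⟨7,[(0,3),(12,0),(0,0),(11,1),(6,3)]⟩,⟨0,[(5,0)]⟩⟩]⟩) (.Q [0,0,0,1,0,0,
  -1,-1,0,0,1] (.p true [0,0,1] [] (⟨0,[(25,0)]⟩,⟨0,[(24,0)]⟩) .k 0 (⟨0,[]⟩,⟨0,[]⟩) .k .k) (.R ⟨0,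
  false,false,false,[1,0,-1],[1,-1],[0,0,1],(⟨0,[(25,0)]⟩,⟨0,[(26,0)]⟩),(⟨0,[(28,0)]⟩,⟨0,[(29,0)]⟩),
  ⟨0,[(10,0)]⟩,.k,.k,.k,.k,.k,.k,⟨false,0,⟨2,[(0,0),(7,0),(13,0)]⟩,⟨1,[(5,0),(18,0),(8,0)]⟩⟩,⟨true,
  0,⟨0,[(22,0)]⟩,⟨0,[(4,0),(1,0),(25,0)]⟩⟩,⟨true,0,⟨4,[(7,0),(5,1),(9,2),(0,0)]⟩,⟨0,[(3,0)]⟩⟩,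
  ⟨false,1,⟨11,[(5,3),(1,3),(5,7),(0,0),(0,0),(16,3),(1,5)]⟩,⟨0,[(0,0)]⟩⟩,⟨false,0,⟨0,[]⟩,⟨0,[]⟩⟩,
  ⟨false,0,⟨0,[]⟩,⟨0,[]⟩⟩,[.a ⟨true,0,⟨0,[(32,0)]⟩,⟨0,[(6,0)]⟩⟩ ⟨true,0,⟨1,[(22,0),(0,0)]⟩,⟨0,[]⟩⟩
  ⟨false,1,⟨15,[(5,7),(7,3),(0,0),(0,0),(6,7),(4,1),(5,3)]⟩,⟨0,[(4,0),(1,0)]⟩⟩,.o ⟨false,1,⟨1,[(27,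
  0),(4,1),(1,0)]⟩,⟨0,[(31,0)]⟩⟩,.o ⟨false,0,⟨0,[(4,0)]⟩,⟨3,[(14,0),(0,0),(6,3),(10,1)]⟩⟩,.o ⟨false,
  0,⟨0,[(19,0)]⟩,⟨0,[(22,0),(10,0)]⟩⟩]⟩) (.Q [0,0,0,0,0,0,-1,-1,0,0,1] (.p true [0,0,1] [] (⟨0,[(26,
  0)]⟩,⟨0,[(25,0)]⟩) .k 0 (⟨0,[]⟩,⟨0,[]⟩) .k .k) (.R ⟨2,true,false,false,[0,1],[0,0,1],[0,1,1],(⟨0,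
  []⟩,⟨0,[]⟩),(⟨0,[(27,0)]⟩,⟨0,[(26,0)]⟩),⟨0,[]⟩,.k,.k,.k,.k,.k,.k,⟨false,0,⟨2,[(4,0),(5,0),(1,0),
  (10,0)]⟩,⟨1,[(25,1),(8,0),(0,0)]⟩⟩,⟨true,0,⟨0,[(23,0)]⟩,⟨0,[(0,0),(24,0)]⟩⟩,⟨false,0,⟨0,[(33,0)]⟩,
  ⟨7,[(2,3),(12,0),(0,0),(11,1),(6,3)]⟩⟩,⟨true,0,⟨0,[(1,0)]⟩,⟨0,[(12,0)]⟩⟩,⟨true,0,⟨0,[(37,0)]⟩,⟨0,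
  []⟩⟩,⟨false,1,⟨7,[(14,3),(0,0),(0,0),(11,1),(6,3)]⟩,⟨0,[(0,0)]⟩⟩,[]⟩) (.Q [0,0,0,0,0,1,0,0,0,0,
  -1] (.ed true [1,-1,1] .k) (.Q [0,0,-1,0,0,0,-1,0,0,1,1] (.p true [1,-1,1] [] (⟨0,[(28,0),(1,0)]⟩,
  ⟨0,[(0,0)]⟩) .k 0 (⟨0,[]⟩,⟨0,[]⟩) .k .k) (.R ⟨0,false,false,false,[0,1,-1],[1,0,-1],[0,0,1],(⟨0,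
  [(1,0)]⟩,⟨0,[(29,0),(1,0)]⟩),(⟨0,[(28,0)]⟩,⟨0,[(29,0)]⟩),⟨0,[(29,0)]⟩,.k,.k,.k,.k,.k,.k,⟨false,0,
  ⟨0,[(27,0)]⟩,⟨13,[(4,5),(1,1),(1,7),(5,3),(10,3),(4,2),(6,2)]⟩⟩,⟨true,0,⟨3,[(5,0),(4,0),(14,1)]⟩,
  ⟨0,[(9,0),(25,0)]⟩⟩,⟨true,0,⟨0,[(27,0),(7,0)]⟩,⟨6,[(4,1),(0,0),(0,3),(7,2),(10,3)]⟩⟩,⟨false,1,⟨5,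
  [(3,1),(4,1),(1,1),(19,0),(6,2)]⟩,⟨0,[(9,0)]⟩⟩,⟨false,0,⟨0,[]⟩,⟨0,[]⟩⟩,⟨false,0,⟨0,[]⟩,⟨0,[]⟩⟩,
  [.o ⟨false,1,⟨1,[(24,1),(5,0),(6,0)]⟩,⟨0,[(2,0)]⟩⟩,.o ⟨false,1,⟨0,[(21,0),(15,0)]⟩,⟨0,[(23,0)]⟩⟩,
  .a ⟨true,0,⟨0,[(0,0)]⟩,⟨0,[(25,0)]⟩⟩ ⟨true,0,⟨1,[(25,0),(0,0)]⟩,⟨5,[(0,1),(2,0),(1,0),(0,2),(16,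
  1),(9,0)]⟩⟩ ⟨false,1,⟨0,[(21,0),(3,0),(11,0)]⟩,⟨0,[(0,0),(1,0)]⟩⟩,.o ⟨false,0,⟨1,[(0,0),(21,0)]⟩,
  ⟨1,[(25,1),(4,0),(5,0)]⟩⟩]⟩) (.I [1,0,1,0,0,0,0,-1] (.R ⟨0,false,false,true,[0,0,1],[0,1],[1,1,1],
  (⟨0,[(30,0)]⟩,⟨0,[(29,0)]⟩),(⟨0,[(33,0)]⟩,⟨0,[(32,0)]⟩),⟨0,[(2,0)]⟩,.k,.k,.k,.k,.k,.k,⟨true,0,⟨0,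
  [(36,0)]⟩,⟨11,[(0,2),(0,0),(3,2),(5,0),(0,2)]⟩⟩,⟨false,1,⟨1,[(8,1),(0,0),(0,1),(17,0),(8,0)]⟩,⟨0,
  [(26,0)]⟩⟩,⟨false,0,⟨0,[(0,0)]⟩,⟨1,[(28,1),(8,0),(0,0)]⟩⟩,⟨true,0,⟨0,[(15,0)]⟩,⟨0,[(4,0)]⟩⟩,
  ⟨false,0,⟨0,[]⟩,⟨0,[]⟩⟩,⟨false,0,⟨0,[]⟩,⟨0,[]⟩⟩,[.o ⟨false,0,⟨0,[(35,0)]⟩,⟨5,[(4,1),(4,1),(1,1),
  (19,0),(6,2)]⟩⟩,.a ⟨true,0,⟨0,[(10,0)]⟩,⟨0,[(36,0)]⟩⟩ ⟨false,0,⟨0,[]⟩,⟨3,[(18,0),(0,0),(17,1)]⟩⟩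
  ⟨true,0,⟨0,[(8,0),(1,0)]⟩,⟨0,[(0,0),(3,0)]⟩⟩,.o ⟨false,1,⟨3,[(18,0),(0,0),(6,3),(10,1)]⟩,⟨0,[(8,
  0)]⟩⟩,.o ⟨false,0,⟨0,[(26,0)]⟩,⟨3,[(8,3),(9,0),(0,0),(17,1)]⟩⟩]⟩) (.I [0,0,2,1,0,0,0,-1] (.R ⟨0,
  false,false,true,[0,0,1],[0,1],[0,1,2,1],(⟨0,[(31,0)]⟩,⟨0,[(30,0)]⟩),(⟨0,[(34,0)]⟩,⟨0,[(33,0)]⟩),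
  ⟨0,[(3,0)]⟩,.k,.k,.k,.k,.k,.k,⟨true,0,⟨1,[(27,0),(0,0)]⟩,⟨0,[]⟩⟩,⟨false,1,⟨1,[(1,1),(24,1),(11,0),
  (0,0)]⟩,⟨0,[(27,0)]⟩⟩,⟨false,0,⟨0,[(0,0)]⟩,⟨1,[(1,1),(8,0),(18,0),(9,0)]⟩⟩,⟨true,0,⟨0,[(16,0)]⟩,
  ⟨0,[(5,0)]⟩⟩,⟨false,0,⟨0,[]⟩,⟨0,[]⟩⟩,⟨false,0,⟨0,[]⟩,⟨0,[]⟩⟩,[.o ⟨false,0,⟨0,[(36,0)]⟩,⟨5,[(5,1),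
  (4,1),(1,1),(19,0),(6,2)]⟩⟩,.a ⟨true,0,⟨0,[(11,0)]⟩,⟨0,[(37,0)]⟩⟩ ⟨false,0,⟨20,[(0,4),(1,0),(3,2),
  (0,0),(5,4)]⟩,⟨7,[(1,3),(8,3),(8,0),(0,0),(17,1)]⟩⟩ ⟨true,0,⟨0,[(9,0),(1,0)]⟩,⟨0,[(27,0),(9,0)]⟩⟩,
  .o ⟨false,1,⟨3,[(19,0),(0,0),(6,3),(10,1)]⟩,⟨0,[(9,0)]⟩⟩,.o ⟨false,0,⟨0,[(27,0)]⟩,⟨3,[(9,3),(9,0),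
  (0,0),(17,1)]⟩⟩]⟩) (.Q [0,0,0,0,0,0,-1,-1,-1,-1,1,1] (.p true [0,0,1] [1,0,0,-1] (⟨0,[(31,0)]⟩,⟨0,
  [(30,0)]⟩) .k 2 (⟨1,[(11,0),(9,0),(15,0)]⟩,⟨0,[(22,0)]⟩) .k (.x (-1) ⟨3,[(19,0),(0,0),(6,3),(3,3),
  (6,1)]⟩ ⟨0,[(9,0),(20,0)]⟩)) (.R ⟨0,false,false,true,[0,0,0,1],[1,0,-1],[1,0,0,0,0,0,0,0,1],(⟨0,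
  [(23,0)]⟩,⟨1,[(12,0),(9,0),(15,0)]⟩),(⟨0,[(31,0)]⟩,⟨0,[(32,0)]⟩),⟨1,[(4,0),(11,0),(5,0)]⟩,.k,.k,
  (.r (-1) ⟨35,[(1,7),(4,3),(4,11),(8,2),(0,20),(7,3)]⟩ ⟨5,[(0,5),(6,0),(6,1),(4,1),(2,2),(5,1)]⟩),
  .k,.k,.k,⟨false,1,⟨1,[(2,1),(18,0),(18,0)]⟩,⟨7,[(0,7),(6,0),(1,1),(5,3),(3,2),(2,3),(5,1),(8,
  1)]⟩⟩,⟨true,0,⟨0,[(10,0),(12,0)]⟩,⟨1,[(12,0),(9,0),(5,1),(9,0)]⟩⟩,⟨true,0,⟨0,[]⟩,⟨0,[(42,0)]⟩⟩,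
  ⟨false,0,⟨0,[(0,0)]⟩,⟨1,[(19,0),(1,0),(0,0),(17,0)]⟩⟩,⟨false,0,⟨0,[]⟩,⟨0,[]⟩⟩,⟨false,0,⟨0,[]⟩,⟨0,
  []⟩⟩,[.o ⟨false,0,⟨0,[(24,0)]⟩,⟨7,[(19,3),(0,0),(0,0),(11,1),(6,3)]⟩⟩,.o ⟨false,1,⟨1,[(27,1),(5,
  0),(6,0)]⟩,⟨0,[(5,0)]⟩⟩,.a ⟨true,0,⟨1,[(12,0),(9,0),(15,0)]⟩,⟨0,[(23,0)]⟩⟩ ⟨false,1,⟨1,[(21,0),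
  (18,0)]⟩,⟨1,[(0,1),(18,0),(2,0)]⟩⟩ ⟨true,0,⟨0,[(23,0),(0,0)]⟩,⟨1,[(19,0),(2,0)]⟩⟩,.o ⟨false,0,⟨7,
  [(13,1),(8,3),(5,2),(0,0)]⟩,⟨1,[(23,1),(9,0),(5,0)]⟩⟩]⟩) (.I [0,0,-1,-1,0,0,0,0,1] (.Q [0,0,0,0,0,
  0,-1,-1,1,0,1,-1] (.p true [0,0,1] [0,0,0,1] (⟨0,[(33,0)]⟩,⟨0,[(32,0)]⟩) .k 2 (⟨0,[(24,0)]⟩,⟨1,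
  [(13,0),(9,0),(15,0)]⟩) .k (.x (-1) ⟨3,[(21,0),(0,0),(6,3),(3,3),(6,1)]⟩ ⟨0,[(11,0),(20,0)]⟩))
  (.R ⟨0,false,false,false,[0,0,0,1],[1,-1,1],[0,1,0,0,0,0,0,0,1],(⟨0,[(25,0)]⟩,⟨1,[(14,0),(9,0),
  (15,0)]⟩),(⟨0,[(34,0),(1,0)]⟩,⟨0,[(6,0)]⟩),⟨1,[(6,0),(11,0),(5,0)]⟩,.k,.k,(.r 0 ⟨0,[(1,0)]⟩ ⟨5,
  [(16,1),(2,1),(2,3),(0,0),(6,1),(11,0)]⟩),(.r 0 ⟨1,[(0,1),(4,0),(3,0),(15,1),(4,0)]⟩ ⟨11,[(3,7),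
  (4,3),(13,8),(0,2),(7,3)]⟩),.k,.k,⟨false,0,⟨1,[(1,1),(3,0),(3,0),(9,1),(10,0)]⟩,⟨5,[(3,3),(4,1),
  (13,2),(8,1),(10,2)]⟩⟩,⟨true,0,⟨0,[(5,0),(19,0)]⟩,⟨1,[(12,1),(1,2),(9,0),(15,2)]⟩⟩,⟨true,0,⟨0,
  [(44,0)]⟩,⟨0,[]⟩⟩,⟨false,1,⟨3,[(3,0),(1,1),(2,2),(1,0),(11,1),(2,3),(16,1)]⟩,⟨0,[(0,0),(13,0)]⟩⟩,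
  ⟨false,0,⟨0,[]⟩,⟨0,[]⟩⟩,⟨false,0,⟨0,[]⟩,⟨0,[]⟩⟩,[.o ⟨false,0,⟨3,[(3,0),(1,1),(2,2),(1,0)]⟩,⟨3,
  [(19,3),(2,0),(0,0),(18,1)]⟩⟩,.o ⟨false,1,⟨1,[(8,1),(26,0),(6,0)]⟩,⟨0,[(19,0)]⟩⟩,.a ⟨true,0,⟨1,
  [(14,0),(9,0),(15,0)]⟩,⟨0,[(25,0)]⟩⟩ ⟨false,0,⟨9,[(0,2),(0,5),(0,0),(2,1),(3,0),(6,1),(8,3)]⟩,⟨1,
  [(22,0),(19,0)]⟩⟩ ⟨true,0,⟨3,[(3,0),(1,1),(2,2),(1,0),(14,3)]⟩,⟨1,[(14,0),(4,0),(4,0),(4,0)]⟩⟩,.o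
  ⟨false,0,⟨7,[(15,1),(8,3),(5,2),(0,0)]⟩,⟨1,[(25,1),(9,0),(5,0)]⟩⟩]⟩) (.R ⟨0,false,false,false,[0,
  0,0,1],[1,-1],[0,1],(⟨0,[(25,0)]⟩,⟨1,[(14,0),(9,0),(15,0)]⟩),(⟨0,[(36,0)]⟩,⟨0,[(37,0)]⟩),⟨1,[(6,
  0),(11,0),(5,0)]⟩,.k,.k,(.r 0 ⟨0,[(1,0)]⟩ ⟨5,[(16,1),(2,1),(2,3),(0,0),(6,1),(11,0)]⟩),(.r 0 ⟨3,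
  [(1,3),(7,3),(5,1),(14,2),(0,0)]⟩ ⟨35,[(3,7),(4,3),(4,11),(8,20),(0,2),(7,3)]⟩),.k,.k,⟨false,0,⟨0,
  [(39,0)]⟩,⟨35,[(3,7),(4,3),(4,11),(8,2),(0,2),(7,3),(10,17)]⟩⟩,⟨true,0,⟨2,[(5,0),(9,0),(9,2)]⟩,⟨1,
  [(14,0),(9,0),(15,0)]⟩⟩,⟨true,0,⟨1,[(0,1),(23,0),(1,0),(2,0)]⟩,⟨7,[(1,7),(7,3),(5,1),(14,2),(0,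
  0)]⟩⟩,⟨false,1,⟨3,[(0,1),(9,1),(6,1),(4,0),(2,1),(14,1),(1,2)]⟩,⟨7,[(1,7),(7,7),(5,1),(8,3),(5,2),
  (0,0)]⟩⟩,⟨false,0,⟨0,[]⟩,⟨0,[]⟩⟩,⟨false,0,⟨0,[]⟩,⟨0,[]⟩⟩,[.e ⟨false,0,⟨3,[(3,0),(7,0),(26,0),(5,
  1)]⟩,⟨3,[(22,0),(0,0),(18,1)]⟩⟩ ⟨false,1,⟨31,[(0,3),(2,7),(9,11),(1,3),(6,2),(0,4),(1,27),(9,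
  11)]⟩,⟨1,[(9,0),(14,0)]⟩⟩,.o ⟨false,1,⟨5,[(8,1),(4,1),(1,1),(19,0),(6,2)]⟩,⟨0,[(39,0)]⟩⟩,.a ⟨true,
  0,⟨1,[(14,0),(9,0),(15,0)]⟩,⟨0,[(25,0)]⟩⟩ ⟨true,0,⟨0,[(44,0)]⟩,⟨0,[]⟩⟩ ⟨false,1,⟨5,[(8,1),(4,1),
  (1,1),(9,5),(9,0),(6,2)]⟩,⟨1,[(9,0),(14,0)]⟩⟩,.o ⟨false,0,⟨7,[(15,1),(8,3),(5,2),(0,0)]⟩,⟨1,[(25,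
  1),(9,0),(5,0)]⟩⟩]⟩)) (.I [0,0,1,1,0,0,0,0,-1] (.R ⟨0,false,false,false,[0,0,0,1],[1,0,-1],[0,0,
  1],(⟨0,[(25,0)]⟩,⟨1,[(14,0),(9,0),(15,0)]⟩),(⟨0,[(33,0)]⟩,⟨0,[(34,0)]⟩),⟨1,[(6,0),(11,0),(5,0)]⟩,
  .k,.k,(.r (-1) ⟨35,[(3,7),(4,3),(4,11),(8,2),(0,20),(7,3)]⟩ ⟨0,[(0,0)]⟩),.k,.k,.k,⟨false,0,⟨0,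
  [(32,0)]⟩,⟨13,[(9,5),(1,1),(1,7),(5,3),(10,3),(4,2),(6,2)]⟩⟩,⟨true,0,⟨0,[(12,0),(12,0)]⟩,⟨1,[(14,
  0),(9,0),(5,1),(9,0)]⟩⟩,⟨true,0,⟨0,[(0,0),(39,0)]⟩,⟨0,[(2,0),(8,0),(0,0),(12,0)]⟩⟩,⟨false,1,⟨0,
  [(0,0),(10,0),(0,0),(12,0),(14,0),(1,0)]⟩,⟨0,[(2,0)]⟩⟩,⟨false,0,⟨0,[]⟩,⟨0,[]⟩⟩,⟨false,0,⟨0,[]⟩,⟨0,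
  []⟩⟩,[.o ⟨false,1,⟨1,[(29,1),(5,0),(6,0)]⟩,⟨0,[(7,0)]⟩⟩,.o ⟨false,1,⟨0,[(26,0),(15,0)]⟩,⟨0,[(28,
  0)]⟩⟩,.a ⟨true,0,⟨1,[(14,0),(9,0),(15,0)]⟩,⟨0,[(25,0)]⟩⟩ ⟨true,0,⟨1,[(30,0),(0,0)]⟩,⟨3,[(3,0),(7,
  0),(26,0),(5,1)]⟩⟩ ⟨false,1,⟨0,[(25,0),(0,0),(15,0)]⟩,⟨1,[(21,0),(2,0)]⟩⟩,.o ⟨false,0,⟨7,[(15,1),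
  (8,3),(5,2),(0,0)]⟩,⟨1,[(25,1),(9,0),(5,0)]⟩⟩]⟩) (.R ⟨0,false,false,true,[0,0,0,1],[1,0,-1],[0,1,
  0,-1,0,0,0,0,1],(⟨0,[(25,0)]⟩,⟨1,[(14,0),(9,0),(15,0)]⟩),(⟨0,[(33,0)]⟩,⟨0,[(34,0)]⟩),⟨1,[(6,0),
  (11,0),(5,0)]⟩,.k,.k,(.x 0 ⟨2,[(5,0),(9,0),(20,2)]⟩ ⟨3,[(22,0),(0,0),(13,3),(3,1)]⟩),.k,.k,.k,
  ⟨false,0,⟨0,[(0,0),(31,0)]⟩,⟨3,[(5,0),(3,0),(1,1),(7,1),(2,1),(7,0),(11,1)]⟩⟩,⟨true,0,⟨0,[(12,0),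
  (12,0)]⟩,⟨1,[(14,0),(9,0),(5,1),(9,0)]⟩⟩,⟨false,0,⟨0,[(40,0)]⟩,⟨7,[(9,3),(12,0),(0,0),(11,1),(6,
  3)]⟩⟩,⟨true,0,⟨0,[(1,0),(9,0),(0,0),(12,0),(14,0)]⟩,⟨0,[(2,0)]⟩⟩,⟨false,0,⟨0,[]⟩,⟨0,[]⟩⟩,⟨false,0,
  ⟨0,[]⟩,⟨0,[]⟩⟩,[.o ⟨false,0,⟨0,[(26,0)]⟩,⟨7,[(21,3),(0,0),(0,0),(11,1),(6,3)]⟩⟩,.o ⟨false,1,⟨1,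
  [(29,1),(5,0),(6,0)]⟩,⟨0,[(7,0)]⟩⟩,.a ⟨true,0,⟨1,[(14,0),(9,0),(15,0)]⟩,⟨0,[(25,0)]⟩⟩ ⟨false,0,⟨1,
  [(0,1),(29,0),(0,0)]⟩,⟨23,[(1,1),(1,1),(1,3),(3,11),(0,3),(0,1),(10,10),(19,12)]⟩⟩ ⟨true,0,⟨0,
  [(25,0),(0,0)]⟩,⟨1,[(21,0),(2,0)]⟩⟩,.o ⟨false,0,⟨7,[(15,1),(8,3),(5,2),(0,0)]⟩,⟨1,[(25,1),(9,0),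
  (5,0)]⟩⟩]⟩))))))) (.I [0,0,2,2,0,0,0,-1] (.K ⟨2,[0,-1,1],0,0,(⟨0,[(1,0)]⟩,⟨0,[(28,0),(3,0)]⟩),.k,
  (.r (-1) ⟨0,[(8,0),(18,1)]⟩ ⟨0,[(0,0)]⟩),.k,.k,.k,[⟨0,[(35,0)]⟩,⟨0,[(14,0)]⟩,⟨0,[(7,0),(1,0),(25,
  0)]⟩,⟨1,[(25,2),(0,0)]⟩]⟩) (.K ⟨2,[0,-1,1],0,0,(⟨0,[(1,0)]⟩,⟨0,[(28,0),(3,0)]⟩),.k,(.x 0 ⟨3,[(1,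
  3),(3,0),(4,0),(14,5),(5,3)]⟩ ⟨0,[(7,0),(20,0),(3,1),(3,0)]⟩),.k,.k,.k,[⟨0,[(35,0)]⟩,⟨0,[(14,0)]⟩,
  ⟨0,[(7,0),(1,0),(25,0)]⟩,⟨1,[(25,2),(0,0)]⟩]⟩))))))))) (.Q [0,0,0,1,0,0,1,0,0,1,-1] (.p false [0,
  0,1] [1] (⟨0,[(21,0)]⟩,⟨0,[(20,0)]⟩) .k 1 (⟨0,[]⟩,⟨0,[]⟩) .k .k) (.R ⟨0,false,false,true,[1,0,-1],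
  [0,1],[],(⟨0,[(21,0)]⟩,⟨0,[(22,0)]⟩),(⟨0,[(25,0)]⟩,⟨0,[(24,0)]⟩),⟨0,[(6,0)]⟩,.k,.k,.k,.k,.k,.k,
  ⟨true,1,⟨1,[(28,1),(0,0),(0,0)]⟩,⟨0,[(1,0),(3,0)]⟩⟩,⟨false,1,⟨0,[(0,0),(27,0),(0,0)]⟩,⟨0,[(15,
  0)]⟩⟩,⟨true,0,⟨0,[(20,0)]⟩,⟨1,[(0,0),(4,0),(8,0)]⟩⟩,⟨false,0,⟨0,[(8,0)]⟩,⟨0,[(14,0),(13,0),(1,
  0)]⟩⟩,⟨false,0,⟨0,[]⟩,⟨0,[]⟩⟩,⟨false,0,⟨0,[]⟩,⟨0,[]⟩⟩,[.o ⟨false,0,⟨0,[(27,0)]⟩,⟨1,[(23,0),(4,1),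
  (1,0)]⟩⟩,.a ⟨true,0,⟨0,[(2,0)]⟩,⟨0,[(28,0)]⟩⟩ ⟨false,1,⟨1,[(29,0),(0,0)]⟩,⟨0,[(32,0)]⟩⟩ ⟨true,0,
  ⟨0,[(0,0)]⟩,⟨0,[(15,0),(12,0)]⟩⟩,.e ⟨false,1,⟨3,[(10,0),(0,0),(18,1)]⟩,⟨0,[]⟩⟩ ⟨false,0,⟨0,[(0,
  0)]⟩,⟨1,[(15,1),(12,1),(0,0),(0,0)]⟩⟩,.o ⟨false,0,⟨0,[(15,0)]⟩,⟨0,[(18,0),(10,0)]⟩⟩]⟩) (.Q [0,0,0,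
  0,0,1,0,0,0,0,-1] (.ed true [1,-1,1] .k) (.Q [0,0,0,0,0,0,-1,0,0,-1,1] (.p true [0,0,1] [1] (⟨0,
  [(23,0)]⟩,⟨0,[(22,0)]⟩) .k 1 (⟨0,[]⟩,⟨0,[]⟩) .k .k) (.R ⟨0,false,false,false,[0,0,1],[1,-1],[1,0,
  -1,-1],(⟨0,[(24,0)]⟩,⟨0,[(23,0)]⟩),(⟨0,[(26,0)]⟩,⟨0,[(27,0)]⟩),⟨0,[(1,0)]⟩,.k,.k,.k,.k,.k,.k,
  ⟨true,0,⟨0,[]⟩,⟨1,[(20,0),(0,0)]⟩⟩,⟨false,0,⟨0,[(0,0)]⟩,⟨1,[(7,1),(2,1),(20,0),(0,0)]⟩⟩,⟨true,1,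
  ⟨1,[(7,1),(23,0),(0,0)]⟩,⟨0,[(3,0),(24,0),(1,1)]⟩⟩,⟨false,1,⟨1,[(2,0),(4,0),(8,0),(15,1)]⟩,⟨0,
  [(10,0)]⟩⟩,⟨false,0,⟨0,[]⟩,⟨0,[]⟩⟩,⟨false,0,⟨0,[]⟩,⟨0,[]⟩⟩,[.a ⟨true,0,⟨0,[(30,0)]⟩,⟨0,[(4,0)]⟩⟩
  ⟨false,1,⟨0,[(30,0),(0,0)]⟩,⟨5,[(3,0),(2,0),(2,1),(10,1),(11,0)]⟩⟩ ⟨true,0,⟨0,[(2,0)]⟩,⟨0,[(4,0),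
  (15,0)]⟩⟩,.o ⟨false,1,⟨1,[(25,0),(4,1),(1,0)]⟩,⟨0,[(29,0)]⟩⟩,.o ⟨false,1,⟨3,[(12,0),(0,0),(6,3),
  (10,1)]⟩,⟨0,[(0,0)]⟩⟩,.o ⟨false,0,⟨0,[(20,0)]⟩,⟨3,[(0,3),(11,0),(0,0),(17,1)]⟩⟩]⟩) (.R ⟨0,false,
  false,false,[0,0,1],[1,-1],[0,1],(⟨0,[(24,0)]⟩,⟨0,[(23,0)]⟩),(⟨0,[(26,0)]⟩,⟨0,[(27,0)]⟩),⟨0,[(1,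
  0)]⟩,.k,.k,.k,.k,.k,.k,⟨false,0,⟨0,[(29,0)]⟩,⟨1,[(30,1),(0,0),(0,0)]⟩⟩,⟨true,0,⟨0,[(17,0)]⟩,⟨0,
  [(0,0)]⟩⟩,⟨true,0,⟨0,[(0,0),(15,0)]⟩,⟨0,[(22,0)]⟩⟩,⟨false,1,⟨1,[(2,0),(4,0),(8,0),(15,1)]⟩,⟨0,
  [(10,0)]⟩⟩,⟨false,0,⟨0,[]⟩,⟨0,[]⟩⟩,⟨false,0,⟨0,[]⟩,⟨0,[]⟩⟩,[.a ⟨true,0,⟨0,[(30,0)]⟩,⟨0,[(4,0)]⟩⟩
  ⟨false,0,⟨0,[(28,0),(1,0)]⟩,⟨3,[(12,0),(0,0),(18,1)]⟩⟩ ⟨true,0,⟨0,[(2,0)]⟩,⟨0,[(4,0),(15,0)]⟩⟩,.o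
  ⟨false,1,⟨1,[(25,0),(4,1),(1,0)]⟩,⟨0,[(29,0)]⟩⟩,.e ⟨true,0,⟨0,[(34,0)]⟩,⟨0,[]⟩⟩ ⟨true,0,⟨0,[(2,
  0)]⟩,⟨0,[(0,0),(28,0)]⟩⟩,.o ⟨false,0,⟨0,[(20,0)]⟩,⟨0,[(17,0),(13,0)]⟩⟩]⟩)) (.I [0,0,2,0,0,-2,1]
  (.K ⟨2,[0,-1,1],0,0,(⟨0,[(1,0)]⟩,⟨0,[(23,0),(3,0)]⟩),.k,(.x 0 ⟨0,[(0,0)]⟩ ⟨1,[(2,1),(20,1),(3,3),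
  (0,1),(2,0),(0,0)]⟩),.k,.k,.k,[⟨0,[(30,0)]⟩,⟨0,[(9,0)]⟩,⟨0,[(2,0),(1,0)]⟩,⟨1,[(20,2),(0,0)]⟩]⟩)
  (.K ⟨2,[0,-1,1],0,0,(⟨0,[(1,0)]⟩,⟨0,[(23,0),(3,0)]⟩),.k,(.r (-1) ⟨0,[(22,0),(7,1),(0,0)]⟩ ⟨0,[(0,
  1),(0,1),(1,0),(12,1),(3,3),(5,1),(5,0)]⟩),.k,.k,.k,[⟨0,[(30,0)]⟩,⟨0,[(9,0)]⟩,⟨23,[(0,5),(0,5),(0,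
  5),(0,1),(5,1),(11,9),(4,5),(4,0),(0,0)]⟩,⟨1,[(20,2),(0,0)]⟩]⟩)))))

theorem ok1 : chk (cU (-1) false 3) t1 l6 = true := by decide +kernel

noncomputable def t2 : Tre :=
  (.R ⟨0,false,false,false,[-1,1,1],[0,0,1],[],(⟨0,[(6,0)]⟩,⟨0,[(21,0),(2,0)]⟩),(⟨0,[(22,0)]⟩,⟨0,
  [(21,0)]⟩),⟨0,[(21,0)]⟩,.k,.k,.k,.k,.k,.k,⟨false,1,⟨0,[(5,0),(20,0),(3,0)]⟩,⟨0,[(20,0)]⟩⟩,⟨true,0,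
  ⟨0,[(1,0)]⟩,⟨1,[(0,0),(18,0)]⟩⟩,⟨false,1,⟨0,[(0,0),(1,0),(11,0),(15,0)]⟩,⟨1,[(4,0),(15,0)]⟩⟩,
  ⟨true,0,⟨0,[(2,0)]⟩,⟨0,[(8,0),(8,0)]⟩⟩,⟨false,0,⟨0,[]⟩,⟨0,[]⟩⟩,⟨false,0,⟨0,[]⟩,⟨0,[]⟩⟩,[.o ⟨false,
  0,⟨0,[(2,0),(5,0)]⟩,⟨1,[(17,1),(5,0),(6,0)]⟩⟩,.o ⟨false,1,⟨7,[(9,3),(0,0),(0,0),(11,1),(6,3)]⟩,⟨0,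
  [(14,0)]⟩⟩,.a ⟨true,0,⟨0,[(0,0)]⟩,⟨0,[(15,0)]⟩⟩ ⟨false,1,⟨3,[(10,0),(0,0),(18,1)]⟩,⟨0,[]⟩⟩ ⟨true,
  0,⟨1,[(2,0),(0,0),(4,0),(11,0)]⟩,⟨0,[(0,0),(13,0)]⟩⟩,.o ⟨false,0,⟨1,[(0,0),(17,0)]⟩,⟨1,[(15,1),(7,
  0),(5,0)]⟩⟩]⟩)

theorem ok2 : chk (cU (-1) false 3) t2 l8 = true := by decide +kernel

noncomputable def t5 : Tre :=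
  (.K ⟨2,[0,-1,1],0,0,(⟨0,[(2,0)]⟩,⟨0,[(25,0),(3,0)]⟩),.k,(.r 0 ⟨0,[(1,0)]⟩ ⟨5,[(8,1),(2,7),(2,0),
  (0,0),(6,7),(11,3)]⟩),.k,.k,.k,[⟨0,[(32,0)]⟩,⟨0,[(11,0)]⟩,⟨0,[(0,0)]⟩,⟨1,[(22,2),(0,0)]⟩]⟩)

theorem ok5 : chk (cU (-1) false 3) t5 l12 = true := by decide +kernel

noncomputable def t6 : Tre :=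
  (.Q [0,-1,0,-2,0,0,1,1,0,0,-1] (.p false [0,0,1] [] (⟨0,[(27,0)]⟩,⟨0,[(26,0)]⟩) .k 0 (⟨0,[]⟩,⟨0,
  []⟩) .k .k) (.R ⟨1,true,false,true,[0,0,1],[0,1],[1,1,0,0,0,0,0,1],(⟨0,[(28,0)]⟩,⟨0,[(27,0)]⟩),
  (⟨0,[(31,0)]⟩,⟨0,[(30,0)]⟩),⟨0,[(4,0)]⟩,.k,.k,.k,.k,(.r 0 ⟨0,[(3,0)]⟩ ⟨5,[(1,7),(8,1),(5,0),(0,0),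
  (17,3)]⟩),.k,⟨true,0,⟨1,[(3,0),(22,0)]⟩,⟨0,[(1,0)]⟩⟩,⟨false,1,⟨1,[(3,0),(9,1),(12,0),(8,0),(0,
  0)]⟩,⟨0,[(24,0)]⟩⟩,⟨false,0,⟨0,[]⟩,⟨3,[(16,0),(0,0),(18,1)]⟩⟩,⟨true,0,⟨0,[(13,0)]⟩,⟨1,[(0,0),(21,
  0)]⟩⟩,⟨true,0,⟨0,[(33,0)]⟩,⟨0,[(34,0)]⟩⟩,⟨false,1,⟨7,[(1,1),(8,1),(2,7),(18,1),(2,2),(0,4)]⟩,⟨0,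
  [(0,0)]⟩⟩,[]⟩) (.I [0,0,-1,-1,0,0,0,0,-1] (.Q [0,0,0,0,0,-1,0,0,0,1,0,-1] (.p false [0,0,0,1] [1]
  (⟨0,[(20,0)]⟩,⟨1,[(19,0),(8,0),(0,0)]⟩) .k 1 (⟨0,[]⟩,⟨0,[]⟩) .k .k) (.Q [0,-1,0,1,0,0,1,1,-1,1,-1,
  1] (.p false [-1,1,1] [0,0,0,1] (⟨0,[(14,0)]⟩,⟨0,[(29,0),(2,0)]⟩) .k 2 (⟨0,[(21,0)]⟩,⟨1,[(20,0),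
  (8,0),(0,0)]⟩) .k (.r 0 ⟨1,[(1,1),(10,0),(15,0)]⟩ ⟨11,[(2,1),(0,5),(0,1),(2,5),(5,3),(5,2),(17,
  2)]⟩)) (.R ⟨1,false,false,true,[1,0,0,-1],[2,-1,-1],[1,1,0,0,0,0,0,0,-1],(⟨1,[(21,0),(8,0),(0,
  0)]⟩,⟨0,[(22,0)]⟩),(⟨0,[(30,0),(2,0)]⟩,⟨0,[(15,0)]⟩),⟨0,[(1,0)]⟩,.k,.k,(.r 0 ⟨0,[(2,0)]⟩ ⟨23,[(3,
  1),(0,5),(8,5),(3,1),(1,4),(0,16),(11,0),(6,0)]⟩),(.r 0 ⟨0,[(2,0),(10,0)]⟩ ⟨2,[(3,0),(1,0),(2,2),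
  (5,1)]⟩),.k,.k,⟨false,0,⟨17,[(0,7),(1,9),(0,1),(5,5),(3,4),(7,3),(7,6),(5,5)]⟩,⟨2,[(3,0),(1,0),(2,
  2),(5,1)]⟩⟩,⟨true,0,⟨1,[(9,0),(11,0),(2,0)]⟩,⟨0,[(5,0),(16,0),(7,0),(0,0)]⟩⟩,⟨false,0,⟨0,[]⟩,⟨3,
  [(19,0),(0,0),(18,1)]⟩⟩,⟨false,1,⟨15,[(4,1),(3,13),(0,1),(2,3),(1,3),(5,0),(0,7),(1,9),(8,0)]⟩,⟨0,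
  [(0,0)]⟩⟩,⟨true,0,⟨0,[(36,0)]⟩,⟨0,[(37,0)]⟩⟩,⟨false,1,⟨9,[(3,2),(0,1),(0,1),(2,7),(0,3),(10,0),(0,
  4),(1,4),(8,0)]⟩,⟨0,[(0,0),(36,0)]⟩⟩,[.o ⟨false,0,⟨0,[(11,0),(11,0)]⟩,⟨3,[(17,3),(1,0),(0,0),(18,
  1)]⟩⟩,.o ⟨false,1,⟨5,[(8,1),(0,1),(1,1),(2,1),(4,0),(3,3),(8,0),(6,1)]⟩,⟨0,[(17,0)]⟩⟩,.a ⟨true,0,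
  ⟨0,[(22,0)]⟩,⟨1,[(21,0),(8,0),(0,0)]⟩⟩ ⟨false,0,⟨24,[(0,3),(1,20),(0,0),(0,5),(4,2),(3,2),(7,1),
  (14,2)]⟩,⟨1,[(20,0),(18,0)]⟩⟩ ⟨true,0,⟨1,[(11,1),(9,0),(1,0),(2,0)]⟩,⟨0,[(17,0),(4,0)]⟩⟩,.o
  ⟨false,0,⟨1,[(9,0),(12,1),(4,0)]⟩,⟨7,[(19,0),(0,0),(0,3),(10,1),(5,3)]⟩⟩]⟩) (.Q [0,0,0,1,0,0,0,0,
  -1,0,0,1] (.p true [0,0,0,1] [] (⟨0,[(22,0)]⟩,⟨1,[(21,0),(8,0),(0,0)]⟩) .k 0 (⟨0,[]⟩,⟨0,[]⟩) .k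
  .k) (.R ⟨1,false,false,false,[1,0,0,-1],[1,-1],[1,1,0,0,0,0,0,0,-1],(⟨1,[(22,0),(8,0),(0,0)]⟩,⟨0,
  [(23,0)]⟩),(⟨0,[(34,0)]⟩,⟨0,[(35,0)]⟩),⟨0,[(2,0)]⟩,.k,.k,(.r 0 ⟨0,[(3,0)]⟩ ⟨23,[(4,1),(0,5),(8,5),
  (3,1),(1,4),(0,16),(11,0),(6,0)]⟩),(.r 0 ⟨10,[(0,7),(2,2),(1,1),(7,1),(0,1),(7,3),(5,1)]⟩ ⟨7,[(7,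
  1),(1,1),(5,1),(4,0),(0,3),(17,0)]⟩),.k,.k,⟨false,0,⟨7,[(0,3),(2,3),(1,0),(7,0),(8,1),(3,0),(10,
  6)]⟩,⟨0,[(9,0)]⟩⟩,⟨true,0,⟨7,[(13,1),(8,3),(5,2),(0,0)]⟩,⟨0,[(23,0)]⟩⟩,⟨false,0,⟨0,[]⟩,⟨3,[(20,0),
  (0,0),(18,1)]⟩⟩,⟨false,1,⟨7,[(9,5),(3,1),(7,0),(0,3),(5,1),(9,1),(1,0)]⟩,⟨0,[(0,0)]⟩⟩,⟨true,0,⟨0,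
  [(37,0)]⟩,⟨0,[(38,0)]⟩⟩,⟨false,1,⟨0,[(1,0),(16,0),(21,0)]⟩,⟨0,[(0,0),(37,0)]⟩⟩,[.o ⟨false,0,⟨0,
  [(12,0)]⟩,⟨5,[(4,1),(13,1),(1,1),(0,1),(11,0),(6,0)]⟩⟩,.o ⟨false,1,⟨13,[(9,5),(2,7),(0,1),(6,2),
  (7,1),(4,0),(6,3)]⟩,⟨0,[(37,0)]⟩⟩,.a ⟨true,0,⟨0,[(23,0)]⟩,⟨1,[(22,0),(8,0),(0,0)]⟩⟩ ⟨false,0,⟨10,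
  [(0,3),(2,6),(1,0),(7,0),(0,0),(7,1),(5,0)]⟩,⟨1,[(21,0),(18,0)]⟩⟩ ⟨true,0,⟨1,[(12,0),(9,0),(15,
  0)]⟩,⟨0,[(23,0),(13,0)]⟩⟩,.o ⟨false,0,⟨1,[(10,0),(12,1),(4,0)]⟩,⟨7,[(20,0),(0,0),(0,3),(10,1),(5,
  3)]⟩⟩]⟩) (.Q [0,0,0,0,0,0,0,0,-1,0,0,1] (.p true [0,0,0,1] [] (⟨0,[(23,0)]⟩,⟨1,[(22,0),(8,0),(0,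
  0)]⟩) .k 0 (⟨0,[]⟩,⟨0,[]⟩) .k .k) (.R ⟨2,true,false,false,[0,1],[0,0,0,1],[1,1,1,1],(⟨0,[]⟩,⟨0,
  []⟩),(⟨0,[(24,0)]⟩,⟨1,[(23,0),(8,0),(0,0)]⟩),⟨0,[]⟩,.k,.k,.k,(.x (-1) ⟨3,[(21,0),(0,0),(13,3),(3,
  1)]⟩ ⟨1,[(11,0),(17,0),(5,1)]⟩),.k,.k,⟨false,0,⟨5,[(4,5),(0,0),(0,0),(0,0),(7,1),(22,4)]⟩,⟨0,[(10,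
  0)]⟩⟩,⟨true,0,⟨7,[(14,1),(8,3),(5,2),(0,0)]⟩,⟨0,[(24,0)]⟩⟩,⟨false,0,⟨0,[]⟩,⟨3,[(21,0),(0,0),(18,
  1)]⟩⟩,⟨true,0,⟨0,[(1,0)]⟩,⟨0,[(0,0),(37,0)]⟩⟩,⟨true,0,⟨0,[(38,0)]⟩,⟨0,[(39,0)]⟩⟩,⟨false,1,⟨23,[(1,
  11),(3,1),(1,1),(7,1),(6,5),(0,5),(10,2),(2,3),(3,14)]⟩,⟨0,[(0,0)]⟩⟩,[]⟩) (.R ⟨2,true,false,false,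
  [0,1],[1,0,0,-1],[0,1,1],(⟨0,[]⟩,⟨0,[]⟩),(⟨1,[(23,0),(8,0),(0,0)]⟩,⟨0,[(24,0)]⟩),⟨0,[]⟩,.k,.k,.k,
  (.r (-1) ⟨23,[(5,1),(0,5),(8,5),(3,1),(1,4),(0,16),(11,0),(6,0)]⟩ ⟨0,[(4,0)]⟩),.k,.k,⟨false,0,⟨0,
  [(1,0),(22,0),(13,0)]⟩,⟨3,[(4,1),(16,0),(15,1),(3,2)]⟩⟩,⟨true,0,⟨1,[(11,0),(12,1),(4,0)]⟩,⟨1,[(23,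
  0),(8,0),(0,0)]⟩⟩,⟨false,0,⟨0,[(39,0)]⟩,⟨11,[(5,3),(13,3),(1,0),(0,0),(11,1),(6,7)]⟩⟩,⟨true,0,⟨1,
  [(4,1),(6,0),(12,1),(4,0)]⟩,⟨0,[(1,0),(16,0),(0,0)]⟩⟩,⟨true,0,⟨0,[(43,0)]⟩,⟨0,[]⟩⟩,⟨false,1,⟨7,
  [(4,1),(2,3),(3,3),(9,2),(2,7),(12,1),(3,4)]⟩,⟨0,[(0,0),(31,0),(0,0)]⟩⟩,[]⟩)))) (.Q [0,0,0,0,0,0,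
  -1,-1,-1,-1,1,1] (.p true [0,0,1] [1,0,0,-1] (⟨0,[(30,0)]⟩,⟨0,[(29,0)]⟩) .k 2 (⟨1,[(20,0),(8,0),
  (0,0)]⟩,⟨0,[(21,0)]⟩) .k (.x 0 ⟨0,[(4,0),(25,0)]⟩ ⟨3,[(18,0),(0,0),(3,3),(5,3),(7,1)]⟩)) (.R ⟨0,
  false,false,false,[1,0,0,-1],[0,0,1],[0,1,0,0,0,0,0,0,-1],(⟨1,[(21,0),(8,0),(0,0)]⟩,⟨0,[(22,0)]⟩),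
  (⟨0,[(31,0)]⟩,⟨0,[(30,0)]⟩),⟨0,[(1,0)]⟩,.k,.k,(.r 0 ⟨0,[(2,0)]⟩ ⟨23,[(3,1),(0,5),(8,5),(3,1),(1,
  4),(0,16),(11,0),(6,0)]⟩),.k,.k,.k,⟨false,0,⟨2,[(2,2),(0,1),(1,1),(8,0)]⟩,⟨1,[(20,0),(8,1),(9,
  0)]⟩⟩,⟨true,0,⟨1,[(5,1),(15,0),(8,0),(0,0)]⟩,⟨0,[(22,0),(1,0)]⟩⟩,⟨true,0,⟨0,[(41,0)]⟩,⟨0,[]⟩⟩,
  ⟨false,1,⟨1,[(18,0),(1,0),(0,0),(17,0)]⟩,⟨0,[(0,0)]⟩⟩,⟨false,0,⟨0,[]⟩,⟨0,[]⟩⟩,⟨false,0,⟨0,[]⟩,⟨0,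
  []⟩⟩,[.o ⟨false,0,⟨6,[(5,2),(0,0),(2,1),(7,1),(0,1)]⟩,⟨1,[(26,1),(5,0),(6,0)]⟩⟩,.o ⟨false,1,⟨7,
  [(18,3),(0,0),(0,0),(11,1),(6,3)]⟩,⟨0,[(23,0)]⟩⟩,.a ⟨true,0,⟨0,[(22,0)]⟩,⟨1,[(21,0),(8,0),(0,
  0)]⟩⟩ ⟨false,0,⟨7,[(0,1),(1,5),(1,0),(0,0),(7,1),(3,0),(3,0)]⟩,⟨1,[(20,0),(18,0)]⟩⟩ ⟨true,0,⟨1,
  [(18,0),(2,0)]⟩,⟨0,[(22,0),(0,0)]⟩⟩,.o ⟨false,0,⟨1,[(9,0),(12,1),(4,0)]⟩,⟨7,[(19,0),(0,0),(0,3),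
  (10,1),(5,3)]⟩⟩]⟩) (.R ⟨0,false,false,false,[1,0,0,-1],[0,0,1],[0,1,0,-1,0,0,0,0,-1],(⟨1,[(21,0),
  (8,0),(0,0)]⟩,⟨0,[(22,0)]⟩),(⟨0,[(31,0)]⟩,⟨0,[(30,0)]⟩),⟨0,[(1,0)]⟩,.k,.k,(.r 0 ⟨0,[(2,0)]⟩ ⟨23,
  [(3,1),(0,5),(8,5),(3,1),(1,4),(0,16),(11,0),(6,0)]⟩),.k,.k,.k,⟨false,0,⟨2,[(2,2),(0,0),(1,0),(8,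
  1)]⟩,⟨3,[(0,1),(2,1),(2,0),(2,1),(7,1),(2,0),(1,1),(6,0),(9,2)]⟩⟩,⟨true,0,⟨1,[(5,1),(15,0),(8,0),
  (0,0)]⟩,⟨0,[(22,0),(1,0)]⟩⟩,⟨false,0,⟨0,[(37,0)]⟩,⟨11,[(3,3),(13,3),(1,0),(0,0),(11,1),(6,7)]⟩⟩,
  ⟨true,0,⟨0,[(0,0)]⟩,⟨3,[(2,3),(0,0),(0,0),(7,0),(9,3),(0,1),(12,0)]⟩⟩,⟨false,0,⟨0,[]⟩,⟨0,[]⟩⟩,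
  ⟨false,0,⟨0,[]⟩,⟨0,[]⟩⟩,[.o ⟨false,0,⟨6,[(5,2),(0,0),(2,1),(7,1),(0,1)]⟩,⟨1,[(26,1),(5,0),(6,
  0)]⟩⟩,.o ⟨false,1,⟨7,[(18,3),(0,0),(0,0),(11,1),(6,3)]⟩,⟨0,[(23,0)]⟩⟩,.a ⟨true,0,⟨0,[(22,0)]⟩,⟨1,
  [(21,0),(8,0),(0,0)]⟩⟩ ⟨false,0,⟨1,[(2,1),(24,0),(0,0)]⟩,⟨2,[(0,1),(2,1),(1,0),(2,0),(0,0),(12,1),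
  (16,1)]⟩⟩ ⟨true,0,⟨1,[(18,0),(2,0)]⟩,⟨0,[(22,0),(0,0)]⟩⟩,.o ⟨false,0,⟨1,[(9,0),(12,1),(4,0)]⟩,⟨7,
  [(19,0),(0,0),(0,3),(10,1),(5,3)]⟩⟩]⟩))) (.Q [0,0,0,0,0,0,-1,-1,1,0,1,-1] (.p true [0,0,1] [0,0,0,
  1] (⟨0,[(29,0)]⟩,⟨0,[(28,0)]⟩) .k 2 (⟨0,[(20,0)]⟩,⟨1,[(19,0),(8,0),(0,0)]⟩) .k (.x 0 ⟨0,[(3,0),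
  (25,0)]⟩ ⟨3,[(17,0),(0,0),(3,3),(5,3),(7,1)]⟩)) (.Q [0,0,0,0,0,1,0,0,0,0,0,-1] (.p false [0,0,0,
  1] [] (⟨0,[(21,0)]⟩,⟨1,[(20,0),(8,0),(0,0)]⟩) .k 0 (⟨0,[]⟩,⟨0,[]⟩) .k .k) (.R ⟨0,false,false,
  false,[0,0,0,1],[0,0,1],[0,1,0,0,0,0,0,0,1],(⟨0,[(22,0)]⟩,⟨1,[(21,0),(8,0),(0,0)]⟩),(⟨0,[(31,0)]⟩,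
  ⟨0,[(30,0)]⟩),⟨0,[(0,0)]⟩,.k,.k,(.r 0 ⟨2,[(1,1),(0,0),(2,1),(0,1),(15,1)]⟩ ⟨23,[(3,1),(0,5),(8,5),
  (3,1),(1,16),(0,4),(11,0),(6,0)]⟩),.k,.k,.k,⟨false,0,⟨8,[(1,7),(0,0),(2,7),(0,1),(7,2),(7,7),(12,
  5)]⟩,⟨1,[(19,0),(9,1),(9,0)]⟩⟩,⟨true,0,⟨0,[(5,0),(16,0)]⟩,⟨1,[(21,0),(2,0),(3,0)]⟩⟩,⟨true,0,⟨0,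
  [(41,0)]⟩,⟨0,[]⟩⟩,⟨false,1,⟨13,[(5,5),(0,1),(2,3),(7,3),(0,3),(0,6),(2,13),(16,6)]⟩,⟨0,[(1,0)]⟩⟩,
  ⟨false,0,⟨0,[]⟩,⟨0,[]⟩⟩,⟨false,0,⟨0,[]⟩,⟨0,[]⟩⟩,[.o ⟨false,0,⟨6,[(5,2),(0,0),(2,1),(7,1),(0,1)]⟩,
  ⟨1,[(26,1),(5,0),(6,0)]⟩⟩,.o ⟨false,1,⟨7,[(18,3),(0,0),(0,0),(11,1),(6,3)]⟩,⟨0,[(23,0)]⟩⟩,.a
  ⟨true,0,⟨1,[(21,0),(8,0),(0,0)]⟩,⟨0,[(22,0)]⟩⟩ ⟨false,0,⟨2,[(1,0),(0,1),(2,0),(0,0),(15,0)]⟩,⟨1,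
  [(19,0),(19,0)]⟩⟩ ⟨true,0,⟨6,[(5,2),(0,0),(2,1),(7,1),(0,1),(3,6)]⟩,⟨1,[(21,0),(1,0),(2,0)]⟩⟩,.o
  ⟨false,0,⟨7,[(12,1),(8,3),(5,2),(0,0)]⟩,⟨1,[(22,1),(9,0),(5,0)]⟩⟩]⟩) (.Q [0,1,0,0,0,0,0,0,-1,0,0,
  1] (.p true [0,0,0,1] [] (⟨0,[(22,0)]⟩,⟨1,[(21,0),(8,0),(0,0)]⟩) .k 0 (⟨0,[]⟩,⟨0,[]⟩) .k .k) (.K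
  ⟨2,[0,0,0,1],0,0,(⟨0,[(23,0)]⟩,⟨1,[(22,0),(8,0),(0,0)]⟩),.k,(.r 0 ⟨2,[(2,1),(0,0),(2,1),(0,1),(15,
  1)]⟩ ⟨23,[(4,1),(0,5),(8,5),(3,1),(1,16),(0,4),(11,0),(6,0)]⟩),(.r 0 ⟨0,[(1,2),(0,0),(3,0),(3,0),
  (7,0),(3,0),(12,2)]⟩ ⟨7,[(7,1),(1,1),(5,1),(4,4),(18,0)]⟩),.k,.k,[⟨0,[(2,0)]⟩,⟨0,[(0,0)]⟩,⟨1,[(23,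
  1),(4,0),(0,0)]⟩,⟨7,[(13,1),(8,3),(5,2),(0,0)]⟩]⟩) (.R ⟨1,false,false,false,[1,0,0,-1],[1,-1],[1,
  0,0,0,0,0,0,0,-1],(⟨1,[(22,0),(8,0),(0,0)]⟩,⟨0,[(23,0)]⟩),(⟨0,[(34,0)]⟩,⟨0,[(35,0)]⟩),⟨0,[(1,0),
  (20,0)]⟩,.k,.k,(.r (-1) ⟨7,[(7,1),(1,1),(5,1),(4,4),(18,0)]⟩ ⟨2,[(0,2),(0,28),(2,2),(1,8),(0,1),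
  (2,6),(7,0),(3,12),(12,28)]⟩),(.r (-1) ⟨23,[(4,1),(0,5),(8,5),(3,1),(1,16),(0,4),(11,0),(6,0)]⟩
  ⟨2,[(2,1),(0,0),(2,1),(0,1),(15,1)]⟩),.k,.k,⟨false,1,⟨11,[(4,3),(13,3),(1,6),(0,0),(11,1),(6,1)]⟩,
  ⟨2,[(2,1),(0,0),(2,1),(0,1),(15,1)]⟩⟩,⟨true,0,⟨7,[(13,1),(8,3),(5,2),(0,0)]⟩,⟨0,[(23,0)]⟩⟩,⟨true,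
  0,⟨0,[]⟩,⟨0,[(42,0)]⟩⟩,⟨false,0,⟨0,[(0,0),(37,0)]⟩,⟨11,[(4,3),(13,3),(1,6),(0,0),(1,11),(9,1),(6,
  1)]⟩⟩,⟨false,1,⟨11,[(4,3),(13,3),(1,0),(0,0),(11,1),(6,7)]⟩,⟨0,[(38,0)]⟩⟩,⟨false,0,⟨0,[(0,0)]⟩,⟨3,
  [(20,2),(0,0),(1,3)]⟩⟩,[.o ⟨false,0,⟨0,[(12,0)]⟩,⟨5,[(4,1),(13,1),(1,1),(0,1),(11,0),(6,0)]⟩⟩,.o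
  ⟨false,1,⟨13,[(9,5),(2,7),(0,1),(6,2),(7,1),(4,0),(6,3)]⟩,⟨0,[(37,0)]⟩⟩,.a ⟨true,0,⟨0,[(23,0)]⟩,
  ⟨1,[(22,0),(8,0),(0,0)]⟩⟩ ⟨false,1,⟨1,[(20,0),(19,0)]⟩,⟨2,[(2,0),(0,1),(2,0),(0,0),(15,0)]⟩⟩
  ⟨true,0,⟨1,[(12,0),(9,0),(15,0)]⟩,⟨0,[(23,0),(13,0)]⟩⟩,.o ⟨false,0,⟨1,[(10,0),(12,1),(4,0)]⟩,⟨7,
  [(20,0),(0,0),(0,3),(10,1),(5,3)]⟩⟩]⟩))) (.I [0,0,0,-1,0,0,0,0,1] (.Q [0,0,0,0,0,-1,0,0,0,1,0,-1]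
  (.p false [0,0,0,1] [1] (⟨0,[(22,0)]⟩,⟨1,[(21,0),(8,0),(0,0)]⟩) .k 1 (⟨0,[]⟩,⟨0,[]⟩) .k .k) (.I
  [0,0,-1,-1,0,0,0,0,1] (.Q [0,0,0,0,0,0,0,0,1,0,0,-1] (.p false [0,0,0,1] [] (⟨0,[(24,0)]⟩,⟨1,[(23,
  0),(8,0),(0,0)]⟩) .k 0 (⟨0,[]⟩,⟨0,[]⟩) .k .k) (.R ⟨1,false,false,false,[1,0,0,-1],[1,-1],[1,0,0,0,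
  0,0,0,0,-1],(⟨1,[(24,0),(8,0),(0,0)]⟩,⟨0,[(25,0)]⟩),(⟨0,[(36,0)]⟩,⟨0,[(37,0)]⟩),⟨0,[(2,0)]⟩,.k,.k,
  (.x 0 ⟨1,[(12,0),(17,0),(5,1)]⟩ ⟨3,[(22,0),(0,0),(13,3),(3,1)]⟩),(.r (-1) ⟨23,[(6,1),(0,5),(8,5),
  (3,1),(1,16),(0,4),(11,0),(6,0)]⟩ ⟨0,[(1,0)]⟩),.k,.k,⟨false,1,⟨11,[(6,3),(13,3),(1,6),(0,0),(11,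
  1),(6,1)]⟩,⟨0,[(1,0)]⟩⟩,⟨true,0,⟨7,[(15,1),(8,3),(5,2),(0,0)]⟩,⟨0,[(25,0)]⟩⟩,⟨true,0,⟨0,[]⟩,⟨0,
  [(44,0)]⟩⟩,⟨true,0,⟨2,[(0,0),(2,1),(10,0),(9,0)]⟩,⟨0,[(4,0),(14,0)]⟩⟩,⟨false,1,⟨11,[(6,3),(13,3),
  (1,0),(0,0),(11,1),(6,7)]⟩,⟨0,[(40,0)]⟩⟩,⟨true,0,⟨0,[(0,0)]⟩,⟨0,[(4,0),(24,0)]⟩⟩,[.o ⟨false,0,⟨0,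
  [(14,0)]⟩,⟨5,[(6,1),(13,1),(1,1),(0,1),(11,0),(6,0)]⟩⟩,.o ⟨false,1,⟨13,[(11,5),(2,7),(0,1),(6,2),
  (7,1),(4,0),(6,3)]⟩,⟨0,[(39,0)]⟩⟩,.a ⟨true,0,⟨0,[(25,0)]⟩,⟨1,[(24,0),(8,0),(0,0)]⟩⟩ ⟨false,1,⟨1,
  [(22,0),(19,0)]⟩,⟨1,[(1,0),(3,0)]⟩⟩ ⟨true,0,⟨1,[(14,0),(9,0),(15,0)]⟩,⟨0,[(25,0),(13,0)]⟩⟩,.o
  ⟨false,0,⟨1,[(12,0),(12,1),(4,0)]⟩,⟨7,[(22,0),(0,0),(0,3),(10,1),(5,3)]⟩⟩]⟩) (.R ⟨2,true,false,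
  false,[0,1],[0,0,0,1],[0,1,1],(⟨0,[]⟩,⟨0,[]⟩),(⟨0,[(25,0)]⟩,⟨1,[(24,0),(8,0),(0,0)]⟩),⟨0,[]⟩,.k,
  .k,.k,(.r (-1) ⟨23,[(6,1),(0,5),(8,5),(3,1),(1,16),(0,4),(11,0),(6,0)]⟩ ⟨0,[(1,0)]⟩),.k,.k,⟨false,
  0,⟨1,[(4,1),(19,0),(1,0),(2,0)]⟩,⟨3,[(1,1),(21,0),(14,1),(3,2)]⟩⟩,⟨true,0,⟨7,[(15,1),(8,3),(5,2),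
  (0,0)]⟩,⟨0,[(25,0)]⟩⟩,⟨false,0,⟨0,[(40,0)]⟩,⟨11,[(6,3),(13,3),(1,0),(0,0),(11,1),(6,7)]⟩⟩,⟨true,0,
  ⟨3,[(1,0),(1,1),(1,0),(8,1),(9,1)]⟩,⟨0,[(4,0),(14,0)]⟩⟩,⟨true,0,⟨0,[(44,0)]⟩,⟨0,[]⟩⟩,⟨false,1,⟨3,
  [(1,0),(3,0),(17,0),(0,1),(10,0),(6,1)]⟩,⟨0,[(0,0)]⟩⟩,[]⟩)) (.Q [0,0,0,0,0,1,0,0,0,0,0,-1] (.p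
  false [0,0,0,1] [] (⟨0,[(24,0)]⟩,⟨1,[(23,0),(8,0),(0,0)]⟩) .k 0 (⟨0,[]⟩,⟨0,[]⟩) .k .k) (.R ⟨0,
  false,false,false,[0,0,0,1],[0,0,1],[0,1,1],(⟨0,[(25,0)]⟩,⟨1,[(24,0),(8,0),(0,0)]⟩),(⟨0,[(34,0)]⟩,
  ⟨0,[(33,0)]⟩),⟨0,[(0,0)]⟩,.k,.k,(.x 0 ⟨1,[(12,0),(17,0),(5,1)]⟩ ⟨3,[(22,0),(0,0),(13,3),(3,1)]⟩),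
  .k,.k,.k,⟨false,0,⟨2,[(6,0),(1,0),(8,1)]⟩,⟨1,[(32,1),(8,0),(0,0)]⟩⟩,⟨true,0,⟨0,[(8,0),(16,0)]⟩,⟨1,
  [(24,0),(2,0),(3,0)]⟩⟩,⟨false,0,⟨0,[(1,0),(38,0)]⟩,⟨1,[(5,0),(0,0),(1,0),(0,0),(1,0),(30,0)]⟩⟩,
  ⟨true,0,⟨0,[(4,0)]⟩,⟨1,[(3,1),(2,0),(17,0),(1,0)]⟩⟩,⟨false,0,⟨0,[]⟩,⟨0,[]⟩⟩,⟨false,0,⟨0,[]⟩,⟨0,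
  []⟩⟩,[.o ⟨false,0,⟨6,[(8,2),(0,0),(2,1),(7,1),(0,1)]⟩,⟨1,[(29,1),(5,0),(6,0)]⟩⟩,.o ⟨false,1,⟨7,
  [(21,3),(0,0),(0,0),(11,1),(6,3)]⟩,⟨0,[(26,0)]⟩⟩,.a ⟨true,0,⟨1,[(24,0),(8,0),(0,0)]⟩,⟨0,[(25,
  0)]⟩⟩ ⟨false,0,⟨1,[(30,0),(0,0)]⟩,⟨1,[(41,0),(0,0)]⟩⟩ ⟨true,0,⟨2,[(4,1),(0,1),(2,0),(0,0),(15,
  0)]⟩,⟨1,[(24,0),(1,0),(2,0)]⟩⟩,.o ⟨false,0,⟨7,[(15,1),(8,3),(5,2),(0,0)]⟩,⟨1,[(25,1),(9,0),(5,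
  0)]⟩⟩]⟩) (.Q [0,0,0,-1,0,0,0,0,-1,-1,0,1] (.p true [0,0,0,1] [1] (⟨0,[(25,0)]⟩,⟨1,[(24,0),(8,0),
  (0,0)]⟩) .k 1 (⟨0,[]⟩,⟨0,[]⟩) .k .k) (.Q [0,0,0,1,0,0,1,1,1,2,-1,-1] (.p false [-1,1,1] [1,0,0,
  -1] (⟨0,[(19,0)]⟩,⟨0,[(34,0),(2,0)]⟩) .k 2 (⟨1,[(25,0),(8,0),(0,0)]⟩,⟨0,[(26,0)]⟩) .k (.r 0 ⟨1,
  [(6,1),(3,0),(22,0)]⟩ ⟨5,[(7,1),(1,1),(8,3),(4,2),(19,2)]⟩)) (.R ⟨1,false,false,false,[0,0,0,1],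
  [2,-1,-1],[0,0,0,-1,0,0,0,0,1],(⟨0,[(27,0)]⟩,⟨1,[(26,0),(8,0),(0,0)]⟩),(⟨0,[(35,0),(2,0)]⟩,⟨0,
  [(20,0)]⟩),⟨0,[(2,0)]⟩,.k,.k,(.x 0 ⟨2,[(2,0),(1,0),(12,0),(14,0),(5,0)]⟩ ⟨3,[(24,0),(0,0),(13,3),
  (3,1)]⟩),(.r 0 ⟨0,[(7,0),(26,0)]⟩ ⟨5,[(1,5),(6,1),(1,1),(8,3),(6,2),(8,2),(0,2),(6,2),(0,2)]⟩),.k,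
  .k,⟨false,0,⟨1,[(7,1),(3,0),(22,0)]⟩,⟨5,[(1,5),(6,3),(1,3),(8,1),(6,2),(8,2),(0,2),(6,2),(0,2)]⟩⟩,
  ⟨true,0,⟨0,[(14,0),(12,0)]⟩,⟨1,[(10,1),(15,0),(8,2),(0,2)]⟩⟩,⟨true,0,⟨0,[(42,0)]⟩,⟨0,[(41,0)]⟩⟩,
  ⟨false,1,⟨0,[(1,0),(26,0),(15,0)]⟩,⟨0,[(0,0)]⟩⟩,⟨false,1,⟨3,[(24,0),(0,0),(18,1)]⟩,⟨0,[]⟩⟩,⟨false,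
  1,⟨0,[(1,0),(6,0),(7,0),(27,0)]⟩,⟨0,[(0,0),(41,0)]⟩⟩,[.o ⟨false,1,⟨5,[(13,1),(0,1),(1,1),(2,1),(4,
  0),(3,3),(8,0),(6,1)]⟩,⟨0,[(22,0)]⟩⟩,.o ⟨false,1,⟨0,[(16,0),(11,0),(15,0)]⟩,⟨1,[(0,0),(5,0),(34,
  0),(4,0)]⟩⟩,.a ⟨true,0,⟨1,[(26,0),(8,0),(0,0)]⟩,⟨0,[(27,0)]⟩⟩ ⟨true,0,⟨0,[(5,0)]⟩,⟨4,[(1,0),(1,2),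
  (2,0),(19,0),(4,0),(8,2),(5,0)]⟩⟩ ⟨false,1,⟨0,[(16,0),(10,0),(0,0),(15,0)]⟩,⟨1,[(22,1),(3,0),(8,
  0),(0,0)]⟩⟩,.o ⟨false,0,⟨7,[(17,1),(8,3),(5,2),(0,0)]⟩,⟨1,[(27,1),(9,0),(5,0)]⟩⟩]⟩) (.R ⟨1,true,
  false,false,[0,0,0,1],[2,-1,-1],[1,1,0,0,0,0,0,0,1],(⟨0,[(27,0)]⟩,⟨1,[(26,0),(8,0),(0,0)]⟩),(⟨0,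
  [(35,0),(2,0)]⟩,⟨0,[(20,0)]⟩),⟨0,[(2,0)]⟩,.k,.k,(.x 0 ⟨2,[(2,0),(1,0),(12,0),(14,0),(5,0)]⟩ ⟨3,
  [(24,0),(0,0),(13,3),(3,1)]⟩),(.r 0 ⟨0,[(7,0),(26,0)]⟩ ⟨3,[(0,1),(9,1),(8,1),(4,0),(1,0),(8,2),(0,
  2),(6,1),(0,0)]⟩),.k,.k,⟨false,0,⟨1,[(7,1),(3,0),(22,0),(6,1)]⟩,⟨1,[(0,1),(9,1),(15,0),(8,2),(0,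
  2),(6,0),(0,0)]⟩⟩,⟨true,0,⟨0,[(14,0),(12,0)]⟩,⟨1,[(10,1),(15,0),(8,2),(0,2)]⟩⟩,⟨false,0,⟨0,[]⟩,⟨3,
  [(24,0),(0,0),(18,1)]⟩⟩,⟨true,0,⟨0,[(0,0)]⟩,⟨1,[(5,1),(16,2),(3,0),(4,0),(9,0)]⟩⟩,⟨true,0,⟨0,[(41,
  0)]⟩,⟨0,[(42,0)]⟩⟩,⟨false,1,⟨15,[(0,11),(5,1),(1,5),(15,0),(2,1),(9,3),(6,10)]⟩,⟨1,[(5,1),(16,1),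
  (3,0),(8,0),(0,0)]⟩⟩,[]⟩)) (.R ⟨1,false,false,false,[0,0,0,1],[1,-1],[0,1,0,-1,0,0,0,0,1],(⟨0,
  [(26,0)]⟩,⟨1,[(25,0),(8,0),(0,0)]⟩),(⟨0,[(37,0)]⟩,⟨0,[(38,0)]⟩),⟨0,[(1,0)]⟩,.k,.k,(.x 0 ⟨2,[(1,0),
  (1,0),(12,0),(14,0),(5,0)]⟩ ⟨3,[(23,0),(0,0),(13,3),(3,1)]⟩),(.r 0 ⟨0,[(0,0),(0,2),(7,0),(3,0),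
  (11,0),(12,2)]⟩ ⟨7,[(10,1),(1,1),(5,1),(4,4),(18,0)]⟩),.k,.k,⟨false,0,⟨0,[(4,0),(35,0)]⟩,⟨2,[(2,
  2),(4,1),(1,1),(0,2),(7,0),(24,2)]⟩⟩,⟨true,0,⟨1,[(13,0),(12,1),(4,0)]⟩,⟨1,[(25,0),(8,0),(0,0)]⟩⟩,
  ⟨false,0,⟨0,[(41,0)]⟩,⟨11,[(7,3),(13,3),(1,0),(0,0),(11,1),(6,7)]⟩⟩,⟨false,1,⟨1,[(15,1),(7,0),(2,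
  1),(16,0)]⟩,⟨0,[(0,0)]⟩⟩,⟨true,0,⟨0,[(45,0)]⟩,⟨0,[]⟩⟩,⟨false,1,⟨0,[(5,0),(21,0),(15,0)]⟩,⟨3,[(0,
  1),(3,1),(20,0),(8,0),(0,0)]⟩⟩,[.o ⟨false,0,⟨0,[(15,0)]⟩,⟨5,[(7,1),(13,1),(1,1),(0,1),(11,0),(6,
  0)]⟩⟩,.o ⟨false,1,⟨13,[(12,5),(2,7),(0,1),(6,2),(7,1),(4,0),(6,3)]⟩,⟨0,[(40,0)]⟩⟩,.a ⟨true,0,⟨1,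
  [(25,0),(8,0),(0,0)]⟩,⟨0,[(26,0)]⟩⟩ ⟨false,0,⟨0,[(4,0)]⟩,⟨3,[(2,1),(20,0),(15,1),(3,2)]⟩⟩ ⟨true,0,
  ⟨0,[(15,0),(10,0)]⟩,⟨1,[(21,0),(3,0),(4,0),(9,0)]⟩⟩,.o ⟨false,0,⟨7,[(16,1),(8,3),(5,2),(0,0)]⟩,⟨1,
  [(26,1),(9,0),(5,0)]⟩⟩]⟩)))) (.I [0,1,-1,-1,0,0,0,-1,1] (.R ⟨0,false,false,false,[0,0,0,1],[0,0,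
  1],[0,1,0,-1,0,0,0,0,1],(⟨0,[(24,0)]⟩,⟨1,[(23,0),(8,0),(0,0)]⟩),(⟨0,[(33,0)]⟩,⟨0,[(32,0)]⟩),⟨0,
  [(1,0),(21,0)]⟩,.k,.k,(.x 0 ⟨1,[(11,0),(17,0),(5,1)]⟩ ⟨3,[(21,0),(0,0),(13,3),(3,1)]⟩),.k,.k,.k,
  ⟨false,0,⟨0,[(0,0)]⟩,⟨13,[(3,7),(1,5),(5,1),(9,2),(1,3),(7,11),(5,1),(3,10)]⟩⟩,⟨true,0,⟨0,[(7,0),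
  (16,0)]⟩,⟨1,[(23,0),(2,0),(3,0)]⟩⟩,⟨false,0,⟨0,[(39,0)]⟩,⟨11,[(5,3),(13,3),(1,0),(0,0),(11,1),(6,
  7)]⟩⟩,⟨true,0,⟨0,[(3,0)]⟩,⟨3,[(0,0),(1,2),(2,0),(5,0),(6,1),(4,1)]⟩⟩,⟨false,0,⟨0,[]⟩,⟨0,[]⟩⟩,
  ⟨false,0,⟨0,[]⟩,⟨0,[]⟩⟩,[.o ⟨false,0,⟨6,[(7,2),(0,0),(2,1),(7,1),(0,1)]⟩,⟨1,[(28,1),(5,0),(6,
  0)]⟩⟩,.o ⟨false,1,⟨7,[(20,3),(0,0),(0,0),(11,1),(6,3)]⟩,⟨0,[(25,0)]⟩⟩,.a ⟨true,0,⟨1,[(23,0),(8,0),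
  (0,0)]⟩,⟨0,[(24,0)]⟩⟩ ⟨false,0,⟨0,[(2,0)]⟩,⟨5,[(3,3),(1,3),(7,1),(7,0),(1,1),(17,4)]⟩⟩ ⟨true,0,⟨2,
  [(3,1),(0,1),(2,0),(0,0),(15,0)]⟩,⟨1,[(23,0),(1,0),(2,0)]⟩⟩,.o ⟨false,0,⟨7,[(14,1),(8,3),(5,2),(0,
  0)]⟩,⟨1,[(24,1),(9,0),(5,0)]⟩⟩]⟩) (.R ⟨0,false,false,false,[0,0,0,1],[0,0,1],[1,0,1,0,0,0,0,1],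
  (⟨0,[(24,0)]⟩,⟨1,[(23,0),(8,0),(0,0)]⟩),(⟨0,[(33,0)]⟩,⟨0,[(32,0)]⟩),⟨0,[(1,0),(21,0)]⟩,.k,.k,(.x
  0 ⟨1,[(11,0),(17,0),(5,1)]⟩ ⟨3,[(21,0),(0,0),(13,3),(3,1)]⟩),.k,.k,.k,⟨false,0,⟨0,[]⟩,⟨3,[(21,0),
  (0,0),(17,1)]⟩⟩,⟨true,0,⟨0,[(7,0),(16,0)]⟩,⟨1,[(23,0),(2,0),(3,0)]⟩⟩,⟨false,0,⟨0,[(0,0),(38,0)]⟩,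
  ⟨2,[(5,1),(1,1),(2,2),(5,0)]⟩⟩,⟨true,0,⟨0,[(3,0)]⟩,⟨1,[(2,1),(2,0),(17,0),(1,0)]⟩⟩,⟨false,0,⟨0,
  []⟩,⟨0,[]⟩⟩,⟨false,0,⟨0,[]⟩,⟨0,[]⟩⟩,[.o ⟨false,0,⟨6,[(7,2),(0,0),(2,1),(7,1),(0,1)]⟩,⟨1,[(28,1),
  (5,0),(6,0)]⟩⟩,.o ⟨false,1,⟨7,[(20,3),(0,0),(0,0),(11,1),(6,3)]⟩,⟨0,[(25,0)]⟩⟩,.a ⟨true,0,⟨1,[(23,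
  0),(8,0),(0,0)]⟩,⟨0,[(24,0)]⟩⟩ ⟨false,0,⟨0,[(0,0),(1,0)]⟩,⟨5,[(5,1),(1,1),(8,3),(23,2),(0,2)]⟩⟩
  ⟨true,0,⟨2,[(3,1),(0,1),(2,0),(0,0),(15,0)]⟩,⟨1,[(23,0),(1,0),(2,0)]⟩⟩,.o ⟨false,0,⟨7,[(14,1),(8,
  3),(5,2),(0,0)]⟩,⟨1,[(24,1),(9,0),(5,0)]⟩⟩]⟩))) (.Q [0,0,0,0,0,1,0,0,0,0,0,-1] (.p false [0,0,0,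
  1] [] (⟨0,[(22,0)]⟩,⟨1,[(21,0),(8,0),(0,0)]⟩) .k 0 (⟨0,[]⟩,⟨0,[]⟩) .k .k) (.R ⟨0,false,false,
  false,[0,0,0,1],[1,-1],[0,0,-1,-1],(⟨0,[(23,0)]⟩,⟨1,[(22,0),(8,0),(0,0)]⟩),(⟨0,[(34,0)]⟩,⟨0,[(35,
  0)]⟩),⟨0,[(0,0)]⟩,.k,.k,(.r (-1) ⟨7,[(7,1),(1,1),(5,1),(4,0),(0,3),(17,0)]⟩ ⟨12,[(1,8),(0,3),(2,
  3),(7,0),(8,1),(6,2)]⟩),(.x (-1) ⟨3,[(20,0),(0,0),(13,3),(3,1)]⟩ ⟨1,[(10,0),(17,0),(5,1)]⟩),.k,.k,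
  ⟨false,1,⟨3,[(20,0),(0,0),(17,1)]⟩,⟨0,[]⟩⟩,⟨true,0,⟨1,[(10,0),(12,1),(4,0)]⟩,⟨1,[(22,0),(8,0),(0,
  0)]⟩⟩,⟨false,1,⟨3,[(1,1),(5,1),(7,1),(4,0),(19,2)]⟩,⟨0,[(3,0)]⟩⟩,⟨true,0,⟨0,[(1,0),(10,0),(10,0),
  (14,0)]⟩,⟨5,[(3,5),(3,1),(7,1),(1,1),(0,1),(3,2),(8,0),(0,0),(3,1)]⟩⟩,⟨false,0,⟨0,[]⟩,⟨0,[]⟩⟩,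
  ⟨false,0,⟨0,[]⟩,⟨0,[]⟩⟩,[.o ⟨false,0,⟨0,[(12,0)]⟩,⟨5,[(4,1),(13,1),(1,1),(0,1),(11,0),(6,0)]⟩⟩,.o
  ⟨false,1,⟨13,[(9,5),(2,7),(0,1),(6,2),(7,1),(4,0),(6,3)]⟩,⟨0,[(37,0)]⟩⟩,.a ⟨true,0,⟨1,[(22,0),(8,
  0),(0,0)]⟩,⟨0,[(23,0)]⟩⟩ ⟨false,1,⟨7,[(7,1),(1,1),(5,1),(4,0),(18,0),(0,3)]⟩,⟨4,[(1,0),(1,0),(1,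
  0),(8,0)]⟩⟩ ⟨true,0,⟨0,[(12,0),(10,0)]⟩,⟨1,[(18,0),(3,0),(4,0),(9,0)]⟩⟩,.o ⟨false,0,⟨7,[(13,1),(8,
  3),(5,2),(0,0)]⟩,⟨1,[(23,1),(9,0),(5,0)]⟩⟩]⟩) (.R ⟨1,false,false,false,[1,0,0,-1],[1,-1],[1,1,0,0,
  0,0,0,0,-1],(⟨1,[(22,0),(8,0),(0,0)]⟩,⟨0,[(23,0)]⟩),(⟨0,[(34,0)]⟩,⟨0,[(35,0)]⟩),⟨0,[(0,0),(21,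
  0)]⟩,.k,.k,(.x 0 ⟨2,[(0,1),(12,0),(8,0),(5,0),(5,0)]⟩ ⟨3,[(20,0),(0,0),(13,3),(3,1)]⟩),(.r 0 ⟨12,
  [(1,8),(0,3),(2,3),(7,0),(8,1),(6,2)]⟩ ⟨7,[(7,1),(1,1),(5,1),(4,0),(0,3),(17,0)]⟩),.k,.k,⟨false,0,
  ⟨0,[(1,0),(40,0)]⟩,⟨0,[(9,0)]⟩⟩,⟨true,0,⟨7,[(13,1),(8,3),(5,2),(0,0)]⟩,⟨0,[(23,0)]⟩⟩,⟨false,0,⟨0,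
  []⟩,⟨3,[(20,0),(0,0),(18,1)]⟩⟩,⟨false,1,⟨7,[(9,5),(3,1),(7,0),(0,3),(5,1),(9,1),(1,0)]⟩,⟨0,[(1,0),
  (21,0)]⟩⟩,⟨true,0,⟨0,[(37,0)]⟩,⟨0,[(38,0)]⟩⟩,⟨false,1,⟨3,[(3,1),(5,1),(12,1),(10,0),(6,0)]⟩,⟨0,
  [(1,0),(21,0),(14,0)]⟩⟩,[.o ⟨false,0,⟨0,[(12,0)]⟩,⟨5,[(4,1),(13,1),(1,1),(0,1),(11,0),(6,0)]⟩⟩,.o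
  ⟨false,1,⟨13,[(9,5),(2,7),(0,1),(6,2),(7,1),(4,0),(6,3)]⟩,⟨0,[(37,0)]⟩⟩,.a ⟨true,0,⟨0,[(23,0)]⟩,
  ⟨1,[(22,0),(8,0),(0,0)]⟩⟩ ⟨false,0,⟨0,[(1,0),(36,0)]⟩,⟨1,[(21,0),(18,0)]⟩⟩ ⟨true,0,⟨1,[(12,0),(9,
  0),(15,0)]⟩,⟨0,[(23,0),(13,0)]⟩⟩,.o ⟨false,0,⟨1,[(10,0),(12,1),(4,0)]⟩,⟨7,[(20,0),(0,0),(0,3),(10,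
  1),(5,3)]⟩⟩]⟩))))))

theorem ok6 : chk (cU (-1) false 3) t6 l13 = true := by decide +kernel

noncomputable def t10 : Tre :=
  (.Q [0,0,0,0,0,0,-1,0,0,0,1] (.p true [0,0,1] [] (⟨0,[(25,0)]⟩,⟨0,[(24,0)]⟩) .k 0 (⟨0,[]⟩,⟨0,[]⟩)
  .k .k) (.K ⟨2,[0,-1,1],0,0,(⟨0,[(2,0)]⟩,⟨0,[(25,0),(3,0)]⟩),.k,(.x 0 ⟨1,[(2,1),(1,0),(17,2),(5,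
  1)]⟩ ⟨1,[(0,1),(5,1),(18,1),(3,3),(0,1),(2,0),(0,0)]⟩),.k,.k,.k,[⟨0,[(32,0)]⟩,⟨0,[(11,0)]⟩,⟨0,[(0,
  0)]⟩,⟨1,[(22,2),(0,0)]⟩]⟩) (.I [1,-1,0,-1,0,0,0,0,1] (.Q [0,0,0,0,0,1,0,0,0,0,0,-1] (.p false [0,
  0,0,1] [] (⟨0,[(18,0)]⟩,⟨1,[(17,0),(8,0),(0,0)]⟩) .k 0 (⟨0,[]⟩,⟨0,[]⟩) .k .k) (.R ⟨0,false,false,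
  false,[0,0,0,1],[1,-1],[1,0,0,-1,0,0,0,0,1],(⟨0,[(19,0)]⟩,⟨1,[(18,0),(8,0),(0,0)]⟩),(⟨0,[(30,0)]⟩,
  ⟨0,[(31,0)]⟩),⟨0,[(0,0)]⟩,.k,.k,(.r 0 ⟨0,[(1,0),(30,0),(1,0)]⟩ ⟨3,[(3,0),(6,0),(5,2),(0,0)]⟩),(.r
  0 ⟨3,[(1,3),(1,0),(6,0),(22,3)]⟩ ⟨1,[(16,0),(17,1),(0,0)]⟩),.k,.k,⟨false,0,⟨0,[(1,0),(31,0)]⟩,⟨1,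
  [(16,0),(18,0)]⟩⟩,⟨true,0,⟨1,[(6,0),(12,1),(4,0)]⟩,⟨1,[(18,0),(8,0),(0,0)]⟩⟩,⟨true,0,⟨0,[(34,0)]⟩,
  ⟨0,[(33,0)]⟩⟩,⟨false,1,⟨1,[(8,1),(7,0),(2,1),(16,0)]⟩,⟨7,[(1,7),(1,0),(6,0),(2,3),(0,3),(3,3),(13,
  3)]⟩⟩,⟨false,0,⟨0,[]⟩,⟨0,[]⟩⟩,⟨false,0,⟨0,[]⟩,⟨0,[]⟩⟩,[.o ⟨false,0,⟨0,[(8,0)]⟩,⟨3,[(3,0),(6,0),(5,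
  0),(0,0),(17,1)]⟩⟩,.o ⟨false,1,⟨13,[(5,5),(2,7),(0,1),(6,2),(7,1),(4,0),(6,3)]⟩,⟨0,[(33,0)]⟩⟩,.a
  ⟨true,0,⟨1,[(18,0),(8,0),(0,0)]⟩,⟨0,[(19,0)]⟩⟩ ⟨false,0,⟨0,[(1,0)]⟩,⟨3,[(3,0),(6,0),(5,1),(18,
  1)]⟩⟩ ⟨true,0,⟨0,[(8,0),(10,0)]⟩,⟨1,[(13,0),(0,0),(3,0),(19,0)]⟩⟩,.o ⟨false,0,⟨7,[(9,1),(8,3),(5,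
  2),(0,0)]⟩,⟨1,[(19,1),(9,0),(5,0)]⟩⟩]⟩) (.Q [0,0,0,0,0,0,-1,-1,1,0,1,-1] (.p true [0,0,1] [0,0,0,
  1] (⟨0,[(28,0)]⟩,⟨0,[(27,0)]⟩) .k 2 (⟨0,[(19,0)]⟩,⟨1,[(18,0),(8,0),(0,0)]⟩) .k (.r (-1) ⟨3,[(16,
  2),(0,0),(8,3)]⟩ ⟨0,[(1,0),(0,0),(10,0)]⟩)) (.Q [0,1,0,0,0,0,0,0,-1,0,0,1] (.p true [0,0,0,1] []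
  (⟨0,[(20,0)]⟩,⟨1,[(19,0),(8,0),(0,0)]⟩) .k 0 (⟨0,[]⟩,⟨0,[]⟩) .k .k) (.K ⟨2,[0,0,0,1],0,0,(⟨0,[(21,
  0)]⟩,⟨1,[(20,0),(8,0),(0,0)]⟩),.k,(.r 0 ⟨0,[(3,0),(30,0),(1,0)]⟩ ⟨3,[(5,0),(6,0),(5,2),(0,0)]⟩),
  (.r 0 ⟨3,[(3,3),(1,0),(6,0),(22,3)]⟩ ⟨1,[(18,0),(17,1),(0,0)]⟩),.k,.k,[⟨0,[(1,0)]⟩,⟨0,[(0,0)]⟩,⟨1,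
  [(21,1),(4,0),(0,0)]⟩,⟨7,[(11,1),(8,3),(5,2),(0,0)]⟩]⟩) (.R ⟨1,false,false,false,[1,0,0,-1],[1,
  -1],[1,0,0,0,0,0,0,0,-1],(⟨1,[(20,0),(8,0),(0,0)]⟩,⟨0,[(21,0)]⟩),(⟨0,[(32,0)]⟩,⟨0,[(33,0)]⟩),⟨0,
  [(2,0),(17,0)]⟩,.k,.k,(.r (-1) ⟨1,[(18,0),(17,1),(0,0)]⟩ ⟨3,[(3,3),(1,0),(6,0),(22,3)]⟩),(.r (-1)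
  ⟨3,[(5,0),(6,0),(5,2),(0,0)]⟩ ⟨0,[(3,0),(30,0),(1,0)]⟩),.k,.k,⟨false,1,⟨3,[(5,0),(6,0),(5,1),(18,
  1)]⟩,⟨0,[(3,0),(30,0),(1,0)]⟩⟩,⟨true,0,⟨7,[(11,1),(8,3),(5,2),(0,0)]⟩,⟨0,[(21,0)]⟩⟩,⟨true,0,⟨0,
  []⟩,⟨0,[(40,0)]⟩⟩,⟨false,0,⟨2,[(0,0),(2,1),(6,0),(9,0)]⟩,⟨3,[(5,0),(6,0),(5,1),(2,3),(15,1)]⟩⟩,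
  ⟨false,1,⟨3,[(5,0),(6,0),(24,1),(0,1)]⟩,⟨0,[(36,0)]⟩⟩,⟨false,0,⟨0,[(0,0)]⟩,⟨3,[(18,2),(0,0),(1,
  3)]⟩⟩,[.o ⟨false,0,⟨0,[(10,0)]⟩,⟨3,[(5,0),(6,0),(5,0),(0,0),(17,1)]⟩⟩,.o ⟨false,1,⟨13,[(7,5),(2,
  7),(0,1),(6,2),(7,1),(4,0),(6,3)]⟩,⟨0,[(35,0)]⟩⟩,.a ⟨true,0,⟨0,[(21,0)]⟩,⟨1,[(20,0),(8,0),(0,
  0)]⟩⟩ ⟨false,1,⟨1,[(18,0),(19,0)]⟩,⟨0,[(3,0),(31,0)]⟩⟩ ⟨true,0,⟨1,[(10,0),(9,0),(15,0)]⟩,⟨0,[(21,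
  0),(13,0)]⟩⟩,.o ⟨false,0,⟨1,[(8,0),(12,1),(4,0)]⟩,⟨7,[(18,0),(0,0),(0,3),(10,1),(5,3)]⟩⟩]⟩)) (.R
  ⟨1,true,false,true,[0,0,0,1],[0,0,1],[0,0,0,-1,0,0,0,0,1],(⟨0,[(20,0)]⟩,⟨1,[(19,0),(8,0),(0,0)]⟩),
  (⟨0,[(29,0)]⟩,⟨0,[(28,0)]⟩),⟨0,[(1,0)]⟩,.k,.k,(.r 0 ⟨0,[(2,0),(30,0),(1,0)]⟩ ⟨3,[(4,0),(6,0),(5,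
  2),(0,0)]⟩),.k,(.x 0 ⟨0,[(7,0),(20,0),(2,0)]⟩ ⟨0,[(25,0),(3,0),(2,0),(3,0)]⟩),.k,⟨false,1,⟨1,[(2,
  1),(0,0),(8,0),(1,0),(21,0),(0,0)]⟩,⟨3,[(0,3),(6,0),(6,2),(4,1),(7,2),(5,0)]⟩⟩,⟨true,0,⟨0,[(3,0),
  (16,0)]⟩,⟨1,[(19,0),(2,0),(3,0)]⟩⟩,⟨true,0,⟨0,[(35,0)]⟩,⟨0,[(34,0)]⟩⟩,⟨false,0,⟨0,[(0,0)]⟩,⟨3,[(2,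
  1),(11,1),(3,0),(0,1),(1,1),(15,2)]⟩⟩,⟨false,1,⟨3,[(17,0),(0,0),(18,1)]⟩,⟨0,[]⟩⟩,⟨true,0,⟨0,[(0,
  0),(33,0)]⟩,⟨1,[(2,1),(16,0),(1,0),(2,0)]⟩⟩,[]⟩))) (.Q [0,-1,0,0,0,0,1,1,-1,0,-1,1] (.p false [0,
  0,1] [0,0,0,1] (⟨0,[(27,0)]⟩,⟨0,[(26,0)]⟩) .k 2 (⟨0,[(18,0)]⟩,⟨1,[(17,0),(8,0),(0,0)]⟩) .k (.x 0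
  ⟨0,[(1,0),(25,0)]⟩ ⟨3,[(15,0),(0,0),(3,3),(5,3),(7,1)]⟩)) (.Q [0,0,0,0,0,1,0,0,0,0,0,-1] (.p
  false [0,0,0,1] [] (⟨0,[(19,0)]⟩,⟨1,[(18,0),(8,0),(0,0)]⟩) .k 0 (⟨0,[]⟩,⟨0,[]⟩) .k .k) (.R ⟨0,
  false,false,false,[0,0,0,1],[0,0,1],[1,0,0,0,0,0,0,0,1],(⟨0,[(20,0)]⟩,⟨1,[(19,0),(8,0),(0,0)]⟩),
  (⟨0,[(29,0)]⟩,⟨0,[(28,0)]⟩),⟨0,[(0,0)]⟩,.k,.k,(.r (-1) ⟨0,[(6,0),(32,0)]⟩ ⟨2,[(1,1),(0,0),(1,0),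
  (14,0),(2,0),(1,0)]⟩),.k,.k,.k,⟨false,1,⟨0,[(3,0),(2,0),(7,0)]⟩,⟨1,[(1,1),(17,0),(1,0),(2,0),(2,
  1)]⟩⟩,⟨true,0,⟨0,[(3,0),(16,0)]⟩,⟨1,[(19,0),(2,0),(3,0)]⟩⟩,⟨true,0,⟨0,[]⟩,⟨0,[(39,0)]⟩⟩,⟨false,0,
  ⟨0,[(1,0)]⟩,⟨1,[(18,0),(0,0),(1,0),(2,0),(12,0)]⟩⟩,⟨false,0,⟨0,[]⟩,⟨0,[]⟩⟩,⟨false,0,⟨0,[]⟩,⟨0,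
  []⟩⟩,[.o ⟨false,0,⟨0,[(9,0),(5,0)]⟩,⟨1,[(24,1),(5,0),(6,0)]⟩⟩,.o ⟨false,1,⟨7,[(16,3),(0,0),(0,0),
  (11,1),(6,3)]⟩,⟨0,[(21,0)]⟩⟩,.a ⟨true,0,⟨1,[(19,0),(8,0),(0,0)]⟩,⟨0,[(20,0)]⟩⟩ ⟨false,1,⟨1,[(18,
  0),(18,0)]⟩,⟨1,[(1,1),(17,0),(1,0),(2,0)]⟩⟩ ⟨true,0,⟨0,[(9,0),(5,0),(4,0)]⟩,⟨1,[(19,0),(1,0),(2,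
  0)]⟩⟩,.o ⟨false,0,⟨7,[(10,1),(8,3),(5,2),(0,0)]⟩,⟨1,[(20,1),(9,0),(5,0)]⟩⟩]⟩) (.I [0,0,-1,-1,0,0,
  0,0,-1] (.Q [0,-1,0,0,1,0,0,0,1,0,0,-1] (.p false [0,0,0,1] [] (⟨0,[(21,0)]⟩,⟨1,[(20,0),(8,0),(0,
  0)]⟩) .k 0 (⟨0,[]⟩,⟨0,[]⟩) .k .k) (.R ⟨1,false,false,false,[1,0,0,-1],[1,-1],[1,1,0,0,0,0,0,0,-1],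
  (⟨1,[(21,0),(8,0),(0,0)]⟩,⟨0,[(22,0)]⟩),(⟨0,[(33,0)]⟩,⟨0,[(34,0)]⟩),⟨0,[(2,0),(18,0)]⟩,.k,.k,(.r
  0 ⟨0,[(1,0)]⟩ ⟨3,[(6,0),(6,0),(5,0),(0,2)]⟩),(.r 0 ⟨1,[(1,1),(4,0),(6,0)]⟩ ⟨0,[(1,0),(18,0)]⟩),.k,
  .k,⟨false,0,⟨0,[(4,0)]⟩,⟨0,[(8,0)]⟩⟩,⟨true,0,⟨7,[(12,1),(8,3),(5,2),(0,0)]⟩,⟨0,[(22,0)]⟩⟩,⟨false,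
  0,⟨0,[]⟩,⟨3,[(19,0),(0,0),(18,1)]⟩⟩,⟨false,1,⟨0,[(0,0),(36,0)]⟩,⟨0,[(3,0),(12,0)]⟩⟩,⟨true,0,⟨0,
  [(36,0)]⟩,⟨0,[(37,0)]⟩⟩,⟨false,1,⟨0,[(0,0)]⟩,⟨0,[(3,0),(22,0)]⟩⟩,[.o ⟨false,0,⟨0,[(11,0)]⟩,⟨3,[(6,
  0),(6,0),(5,0),(0,0),(17,1)]⟩⟩,.o ⟨false,1,⟨13,[(8,5),(2,7),(0,1),(6,2),(7,1),(4,0),(6,3)]⟩,⟨0,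
  [(36,0)]⟩⟩,.a ⟨true,0,⟨0,[(22,0)]⟩,⟨1,[(21,0),(8,0),(0,0)]⟩⟩ ⟨false,0,⟨3,[(1,3),(4,0),(6,0)]⟩,⟨1,
  [(20,0),(18,0)]⟩⟩ ⟨true,0,⟨1,[(11,0),(9,0),(15,0)]⟩,⟨0,[(22,0),(13,0)]⟩⟩,.o ⟨false,0,⟨1,[(9,0),
  (12,1),(4,0)]⟩,⟨7,[(19,0),(0,0),(0,3),(10,1),(5,3)]⟩⟩]⟩) (.K ⟨2,[0,0,0,1],0,1,(⟨0,[(22,0)]⟩,⟨1,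
  [(21,0),(8,0),(0,0)]⟩),.k,(.r (-1) ⟨0,[(1,0),(18,0)]⟩ ⟨31,[(0,11),(2,3),(0,3),(1,8),(2,3),(3,4),
  (5,5),(1,7),(17,5)]⟩),(.r (-1) ⟨3,[(6,0),(6,0),(5,0),(0,2)]⟩ ⟨0,[(1,0)]⟩),.k,.k,[⟨1,[(20,0),(0,0),
  (1,0),(2,0),(12,0)]⟩,⟨0,[(0,0)]⟩,⟨1,[(22,1),(4,0),(0,0)]⟩,⟨7,[(12,1),(8,3),(5,2),(0,0)]⟩]⟩)) (.R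
  ⟨1,false,false,false,[1,0,0,-1],[1,-1],[1,1,0,0,0,0,0,0,-1],(⟨1,[(20,0),(8,0),(0,0)]⟩,⟨0,[(21,
  0)]⟩),(⟨0,[(32,0)]⟩,⟨0,[(33,0)]⟩),⟨0,[(1,0),(18,0)]⟩,.k,.k,(.x 0 ⟨2,[(1,1),(9,0),(8,0),(5,0),(5,
  0)]⟩ ⟨3,[(18,0),(0,0),(13,3),(3,1)]⟩),(.r 0 ⟨2,[(2,1),(0,0),(1,0),(14,0),(2,0),(1,0)]⟩ ⟨0,[(7,0),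
  (32,0)]⟩),.k,.k,⟨false,0,⟨0,[(3,0)]⟩,⟨0,[(7,0)]⟩⟩,⟨true,0,⟨7,[(11,1),(8,3),(5,2),(0,0)]⟩,⟨0,[(21,
  0)]⟩⟩,⟨false,0,⟨0,[]⟩,⟨3,[(18,0),(0,0),(18,1)]⟩⟩,⟨false,1,⟨7,[(7,5),(3,1),(7,0),(0,3),(5,1),(9,1),
  (1,0)]⟩,⟨0,[(2,0),(12,0)]⟩⟩,⟨true,0,⟨0,[(35,0)]⟩,⟨0,[(36,0)]⟩⟩,⟨false,1,⟨3,[(0,1),(6,1),(12,1),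
  (10,0),(6,0)]⟩,⟨0,[(2,0),(22,0)]⟩⟩,[.o ⟨false,0,⟨0,[(10,0)]⟩,⟨3,[(5,0),(6,0),(5,0),(0,0),(17,
  1)]⟩⟩,.o ⟨false,1,⟨13,[(7,5),(2,7),(0,1),(6,2),(7,1),(4,0),(6,3)]⟩,⟨0,[(35,0)]⟩⟩,.a ⟨true,0,⟨0,
  [(21,0)]⟩,⟨1,[(20,0),(8,0),(0,0)]⟩⟩ ⟨false,0,⟨1,[(2,1),(17,0),(1,0),(2,0)]⟩,⟨1,[(19,0),(18,0)]⟩⟩
  ⟨true,0,⟨1,[(10,0),(9,0),(15,0)]⟩,⟨0,[(21,0),(13,0)]⟩⟩,.o ⟨false,0,⟨1,[(8,0),(12,1),(4,0)]⟩,⟨7,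
  [(18,0),(0,0),(0,3),(10,1),(5,3)]⟩⟩]⟩))) (.I [0,0,0,0,0,0,0,0,1] (.Q [0,0,0,1,0,0,0,0,1,1,0,-1]
  (.p false [0,0,0,1] [1] (⟨0,[(20,0)]⟩,⟨1,[(19,0),(8,0),(0,0)]⟩) .k 1 (⟨0,[]⟩,⟨0,[]⟩) .k .k) (.Q
  [0,0,0,0,0,1,0,0,0,0,0,-1] (.p false [0,0,0,1] [] (⟨0,[(21,0)]⟩,⟨1,[(20,0),(8,0),(0,0)]⟩) .k 0
  (⟨0,[]⟩,⟨0,[]⟩) .k .k) (.R ⟨0,false,false,false,[0,0,0,1],[1,-1],[1,1],(⟨0,[(22,0)]⟩,⟨1,[(21,0),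
  (8,0),(0,0)]⟩),(⟨0,[(33,0)]⟩,⟨0,[(34,0)]⟩),⟨0,[(0,0)]⟩,.k,.k,(.x 0 ⟨1,[(9,0),(17,0),(5,1)]⟩ ⟨3,
  [(19,0),(0,0),(13,3),(3,1)]⟩),(.r 0 ⟨3,[(2,3),(3,0),(6,0)]⟩ ⟨1,[(19,0),(17,1),(0,0)]⟩),.k,.k,
  ⟨false,0,⟨0,[(36,0)]⟩,⟨1,[(37,1),(0,0),(0,0)]⟩⟩,⟨true,0,⟨1,[(9,0),(12,1),(4,0)]⟩,⟨1,[(21,0),(8,0),
  (0,0)]⟩⟩,⟨true,0,⟨0,[(4,0),(32,0)]⟩,⟨0,[(2,0)]⟩⟩,⟨false,1,⟨1,[(11,1),(7,0),(2,1),(16,0)]⟩,⟨0,[(1,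
  0)]⟩⟩,⟨false,0,⟨0,[]⟩,⟨0,[]⟩⟩,⟨false,0,⟨0,[]⟩,⟨0,[]⟩⟩,[.o ⟨false,0,⟨0,[(11,0)]⟩,⟨3,[(6,0),(6,0),
  (5,0),(0,0),(17,1)]⟩⟩,.o ⟨false,1,⟨13,[(8,5),(2,7),(0,1),(6,2),(7,1),(4,0),(6,3)]⟩,⟨0,[(36,0)]⟩⟩,
  .a ⟨true,0,⟨1,[(21,0),(8,0),(0,0)]⟩,⟨0,[(22,0)]⟩⟩ ⟨false,0,⟨0,[]⟩,⟨3,[(19,0),(0,0),(18,1)]⟩⟩
  ⟨true,0,⟨0,[(11,0),(10,0)]⟩,⟨1,[(16,0),(0,0),(3,0),(19,0)]⟩⟩,.o ⟨false,0,⟨7,[(12,1),(8,3),(5,2),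
  (0,0)]⟩,⟨1,[(22,1),(9,0),(5,0)]⟩⟩]⟩) (.Q [0,-1,0,0,1,0,0,0,-2,-1,0,2] (.p true [0,0,0,1] [1,0,0,
  -1] (⟨0,[(22,0)]⟩,⟨1,[(21,0),(8,0),(0,0)]⟩) .k 2 (⟨1,[(21,0),(8,0),(0,0)]⟩,⟨0,[(22,0)]⟩) .k .k)
  (.R ⟨1,false,false,true,[1,0,0,-1],[0,0,0,1],[1,1,0,0,0,0,0,0,-1],(⟨1,[(22,0),(8,0),(0,0)]⟩,⟨0,
  [(23,0)]⟩),(⟨0,[(23,0)]⟩,⟨1,[(22,0),(8,0),(0,0)]⟩),⟨0,[(1,0),(20,0)]⟩,.k,.k,(.r (-1) ⟨1,[(20,0),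
  (17,1),(0,0)]⟩ ⟨3,[(3,3),(3,0),(6,0)]⟩),.k,(.r (-1) ⟨0,[(0,0),(21,0),(13,0),(1,1)]⟩ ⟨3,[(3,7),(3,
  0),(6,0)]⟩),.k,⟨false,1,⟨0,[(0,0),(21,0),(13,0),(1,0)]⟩,⟨0,[(3,1)]⟩⟩,⟨true,0,⟨0,[(22,0)]⟩,⟨1,[(10,
  0),(12,3),(4,0)]⟩⟩,⟨false,0,⟨0,[]⟩,⟨3,[(20,0),(0,0),(18,1)]⟩⟩,⟨false,0,⟨0,[(3,1),(18,0)]⟩,⟨0,[(0,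
  0)]⟩⟩,⟨true,0,⟨0,[(37,0)]⟩,⟨0,[(38,0)]⟩⟩,⟨false,0,⟨0,[(2,1),(9,0)]⟩,⟨0,[(0,0),(37,0)]⟩⟩,[.o
  ⟨false,0,⟨1,[(2,0),(1,0),(7,0),(13,0)]⟩,⟨3,[(0,1),(32,0),(6,0)]⟩⟩,.o ⟨false,0,⟨0,[(2,0),(9,0)]⟩,
  ⟨7,[(0,3),(19,0),(0,0),(11,1),(8,3)]⟩⟩,.a ⟨true,0,⟨0,[(23,0)]⟩,⟨1,[(22,0),(8,0),(0,0)]⟩⟩ ⟨true,0,
  ⟨0,[(5,0),(32,0)]⟩,⟨0,[(3,0)]⟩⟩ ⟨false,0,⟨0,[(3,0),(18,0)]⟩,⟨3,[(0,1),(22,3),(9,0),(6,0)]⟩⟩,.o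
  ⟨false,0,⟨1,[(10,0),(12,1),(4,0)]⟩,⟨7,[(20,0),(0,0),(0,3),(10,1),(5,3)]⟩⟩]⟩) (.I [0,0,-1,-1,0,0,0,
  0,1] (.R ⟨1,false,false,false,[1,0,0,-1],[1,-1],[1,0,0,0,0,0,0,0,-1],(⟨1,[(23,0),(8,0),(0,0)]⟩,⟨0,
  [(24,0)]⟩),(⟨0,[(35,0)]⟩,⟨0,[(36,0)]⟩),⟨0,[(2,0),(20,0)]⟩,.k,.k,(.r (-1) ⟨1,[(21,0),(17,1),(0,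
  0)]⟩ ⟨3,[(4,3),(3,0),(6,0)]⟩),(.r (-1) ⟨3,[(8,0),(6,0),(5,2),(0,0)]⟩ ⟨0,[(0,0)]⟩),.k,.k,⟨false,1,
  ⟨3,[(8,0),(6,0),(5,1),(18,1)]⟩,⟨0,[(0,0)]⟩⟩,⟨true,0,⟨7,[(14,1),(8,3),(5,2),(0,0)]⟩,⟨0,[(24,0)]⟩⟩,
  ⟨true,0,⟨0,[]⟩,⟨0,[(43,0)]⟩⟩,⟨true,0,⟨17,[(1,5),(8,5),(2,4),(0,1),(8,2),(5,1),(9,6)]⟩,⟨0,[(6,0),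
  (17,0)]⟩⟩,⟨false,1,⟨3,[(8,0),(6,0),(24,1),(0,1)]⟩,⟨0,[(39,0)]⟩⟩,⟨true,0,⟨3,[(1,1),(32,0),(6,0)]⟩,
  ⟨0,[(6,0),(17,0),(14,0)]⟩⟩,[.o ⟨false,0,⟨0,[(13,0)]⟩,⟨3,[(8,0),(6,0),(5,0),(0,0),(17,1)]⟩⟩,.o
  ⟨false,1,⟨13,[(10,5),(2,7),(0,1),(6,2),(7,1),(4,0),(6,3)]⟩,⟨0,[(38,0)]⟩⟩,.a ⟨true,0,⟨0,[(24,0)]⟩,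
  ⟨1,[(23,0),(8,0),(0,0)]⟩⟩ ⟨false,1,⟨1,[(21,0),(19,0)]⟩,⟨0,[(4,0)]⟩⟩ ⟨true,0,⟨1,[(13,0),(9,0),(15,
  0)]⟩,⟨0,[(24,0),(13,0)]⟩⟩,.o ⟨false,0,⟨1,[(11,0),(12,1),(4,0)]⟩,⟨7,[(21,0),(0,0),(0,3),(10,1),(5,
  3)]⟩⟩]⟩) (.I [0,0,-1,-2,0,0,0,0,1] (.R ⟨1,false,false,true,[0,0,0,1],[0,1],[1,1,1,1],(⟨0,[(25,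
  0)]⟩,⟨1,[(24,0),(8,0),(0,0)]⟩),(⟨0,[(37,0)]⟩,⟨0,[(36,0)]⟩),⟨0,[(3,0)]⟩,.k,.k,(.x 0 ⟨2,[(3,1),(11,
  0),(8,0),(5,0),(5,0)]⟩ ⟨3,[(22,0),(0,0),(13,3),(3,1)]⟩),(.x 0 ⟨2,[(3,1),(11,0),(8,0),(5,0),(5,
  0)]⟩ ⟨3,[(22,0),(0,0),(13,3),(3,1)]⟩),(.r (-1) ⟨3,[(0,3),(21,0),(0,0),(17,1)]⟩ ⟨3,[(1,3),(7,0),(6,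
  0)]⟩),.k,⟨true,0,⟨0,[]⟩,⟨1,[(30,0),(0,0)]⟩⟩,⟨false,1,⟨0,[(25,0),(15,0)]⟩,⟨7,[(15,1),(8,3),(5,2),
  (0,0)]⟩⟩,⟨false,0,⟨0,[(1,0)]⟩,⟨0,[(11,0)]⟩⟩,⟨true,0,⟨0,[(7,0),(17,0)]⟩,⟨35,[(0,17),(1,7),(12,5),
  (7,0),(0,9),(5,5),(4,2),(6,3)]⟩⟩,⟨true,0,⟨3,[(7,3),(1,0),(6,0)]⟩,⟨0,[(0,0)]⟩⟩,⟨true,0,⟨0,[(1,0),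
  (23,0),(12,0)]⟩,⟨7,[(0,7),(14,1),(8,3),(5,2),(0,0)]⟩⟩,[.o ⟨false,0,⟨0,[(39,0)]⟩,⟨13,[(0,5),(13,1),
  (0,1),(6,2),(7,1),(4,3),(6,6)]⟩⟩,.o ⟨false,1,⟨3,[(9,0),(6,0),(5,0),(0,0),(17,1)]⟩,⟨0,[(14,0)]⟩⟩,
  .a ⟨true,0,⟨1,[(24,0),(8,0),(0,0)]⟩,⟨0,[(25,0)]⟩⟩ ⟨false,0,⟨3,[(9,0),(6,0)]⟩,⟨3,[(0,1),(21,0),(18,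
  0),(0,1)]⟩⟩ ⟨true,0,⟨0,[(25,0),(13,0)]⟩,⟨1,[(14,0),(9,0),(15,0)]⟩⟩,.o ⟨false,0,⟨7,[(15,1),(8,3),
  (5,2),(0,0)]⟩,⟨1,[(25,1),(9,0),(5,0)]⟩⟩]⟩) (.Q [0,-1,0,-1,1,0,0,0,-2,-1,0,2] (.p true [0,0,0,1]
  [1,0,0,-1] (⟨0,[(25,0)]⟩,⟨1,[(24,0),(8,0),(0,0)]⟩) .k 2 (⟨1,[(24,0),(8,0),(0,0)]⟩,⟨0,[(25,0)]⟩)
  .k .k) (.R ⟨1,true,false,true,[1,0,0,-1],[0,0,0,1],[0,1,0,-1,0,0,0,0,-1],(⟨1,[(25,0),(8,0),(0,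
  0)]⟩,⟨0,[(26,0)]⟩),(⟨0,[(26,0)]⟩,⟨1,[(25,0),(8,0),(0,0)]⟩),⟨0,[(4,0),(20,0)]⟩,.k,.k,(.r (-1) ⟨1,
  [(23,0),(17,1),(0,0)]⟩ ⟨3,[(6,3),(3,0),(6,0)]⟩),.k,(.r (-1) ⟨0,[(0,0),(24,0),(13,0),(1,0)]⟩ ⟨3,
  [(6,7),(3,0),(6,0)]⟩),.k,⟨false,1,⟨0,[(0,0),(24,0),(13,0),(1,0)]⟩,⟨3,[(1,0),(1,1),(2,4),(2,0),(3,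
  0),(12,3),(12,1),(3,1)]⟩⟩,⟨true,0,⟨0,[(25,0)]⟩,⟨1,[(13,0),(12,3),(4,0)]⟩⟩,⟨false,0,⟨0,[(41,0)]⟩,
  ⟨3,[(1,1),(22,0),(17,0),(0,1)]⟩⟩,⟨true,(-1),⟨0,[(3,0)]⟩,⟨0,[(0,0),(39,0)]⟩⟩,⟨true,0,⟨0,[(45,0)]⟩,
  ⟨0,[]⟩⟩,⟨false,0,⟨3,[(3,1),(1,3),(30,0),(6,0)]⟩,⟨0,[(0,0)]⟩⟩,[]⟩) (.I [0,0,-1,-1,1,0,0,0,-2] (.R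
  ⟨1,false,false,true,[1,0,0,-1],[0,0,0,1],[0,1,0,-1,0,0,0,0,-1],(⟨1,[(26,0),(8,0),(0,0)]⟩,⟨0,[(27,
  0)]⟩),(⟨0,[(27,0)]⟩,⟨1,[(26,0),(8,0),(0,0)]⟩),⟨0,[(5,0),(20,0)]⟩,.k,.k,(.r (-1) ⟨2,[(0,1),(12,0),
  (32,0)]⟩ ⟨3,[(7,3),(3,0),(6,0)]⟩),.k,(.r (-1) ⟨0,[(0,0)]⟩ ⟨3,[(7,7),(3,0),(6,0)]⟩),.k,⟨false,1,⟨0,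
  [(0,0)]⟩,⟨5,[(1,1),(0,0),(4,8),(2,0),(3,0),(12,3),(12,1),(3,1)]⟩⟩,⟨true,0,⟨0,[(26,0)]⟩,⟨1,[(14,0),
  (12,3),(4,0)]⟩⟩,⟨false,0,⟨0,[(42,0)]⟩,⟨3,[(2,1),(22,0),(17,0),(0,1)]⟩⟩,⟨true,(-1),⟨0,[(4,0)]⟩,⟨3,
  [(0,1),(1,1),(13,1),(7,0),(2,7),(9,0)]⟩⟩,⟨true,0,⟨0,[(46,0)]⟩,⟨0,[]⟩⟩,⟨true,(-1),⟨0,[(1,0)]⟩,⟨0,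
  [(16,0),(7,0),(2,1)]⟩⟩,[.o ⟨false,0,⟨12,[(4,2),(3,4),(16,0),(0,0),(3,4),(6,1)]⟩,⟨7,[(0,1),(1,3),
  (13,5),(10,7),(9,0),(5,0),(0,3)]⟩⟩,.o ⟨false,0,⟨3,[(4,1),(32,0),(6,0)]⟩,⟨1,[(24,0),(2,1),(9,0)]⟩⟩,
  .a ⟨true,0,⟨0,[(27,0)]⟩,⟨1,[(26,0),(8,0),(0,0)]⟩⟩ ⟨true,0,⟨0,[(9,0),(32,1)]⟩,⟨5,[(1,1),(0,0),(4,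
  2),(2,0),(3,0),(12,3),(12,1),(3,1)]⟩⟩ ⟨false,0,⟨5,[(4,1),(20,0),(0,3),(17,0)]⟩,⟨7,[(0,1),(1,3),
  (13,5),(10,15),(9,0),(5,0),(0,3)]⟩⟩,.o ⟨false,0,⟨1,[(14,0),(12,1),(4,0)]⟩,⟨7,[(24,0),(0,0),(0,3),
  (10,1),(5,3)]⟩⟩]⟩) (.Q [0,0,0,0,0,0,-1,-1,1,0,1,-1] (.p true [0,0,1] [0,0,0,1] (⟨0,[(36,0)]⟩,⟨0,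
  [(35,0)]⟩) .k 2 (⟨0,[(27,0)]⟩,⟨1,[(26,0),(8,0),(0,0)]⟩) .k (.x 0 ⟨0,[(10,0),(25,0)]⟩ ⟨3,[(24,0),
  (0,0),(3,3),(5,3),(7,1)]⟩)) (.K ⟨2,[0,0,0,1],0,0,(⟨0,[(28,0)]⟩,⟨1,[(27,0),(8,0),(0,0)]⟩),.k,(.r
  (-1) ⟨0,[(14,0),(32,0)]⟩ ⟨0,[(3,0),(2,1),(10,0),(9,0),(12,1)]⟩),(.r 0 ⟨15,[(1,3),(10,2),(6,2),(6,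
  3)]⟩ ⟨1,[(25,0),(17,1),(0,0)]⟩),.k,.k,[⟨0,[(0,0)]⟩,⟨0,[(10,0),(17,0),(14,0)]⟩,⟨1,[(28,1),(4,0),(0,
  0)]⟩,⟨7,[(18,1),(8,3),(5,2),(0,0)]⟩]⟩) (.I [0,0,-1,-2,1,0,0,-1,-1] (.R ⟨1,false,false,false,[1,0,
  0,-1],[-1,1,1],[0,0,0,-1,0,0,0,0,-1],(⟨1,[(28,0),(8,0),(0,0)]⟩,⟨0,[(29,0)]⟩),(⟨0,[(22,0)]⟩,⟨0,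
  [(37,0),(2,0)]⟩),⟨0,[(7,0),(20,0)]⟩,.k,.k,(.r (-1) ⟨3,[(0,1),(25,0),(9,1),(8,0)]⟩ ⟨15,[(2,3),(10,
  2),(6,2),(6,3)]⟩),(.x 0 ⟨0,[(16,0),(20,0),(2,0)]⟩ ⟨15,[(0,5),(11,7),(0,1),(8,7),(1,7),(2,2),(10,
  7),(2,7),(3,6)]⟩),(.r (-2) ⟨3,[(0,3),(25,0),(0,0),(17,1)]⟩ ⟨0,[(2,0),(2,0),(30,0)]⟩),.k,⟨true,1,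
  ⟨0,[(0,0)]⟩,⟨0,[(2,0),(2,0),(30,0)]⟩⟩,⟨false,1,⟨1,[(12,1),(15,0),(8,2),(0,2),(6,1)]⟩,⟨0,[(16,0),
  (12,0)]⟩⟩,⟨true,0,⟨0,[(44,0)]⟩,⟨0,[(43,0)]⟩⟩,⟨false,0,⟨0,[(1,0),(1,0),(33,0),(0,0),(7,0)]⟩,⟨1,[(0,
  0),(0,0),(14,0),(12,0),(0,1),(15,0)]⟩⟩,⟨false,1,⟨3,[(26,0),(0,0),(18,1)]⟩,⟨0,[]⟩⟩,⟨false,0,⟨0,[(1,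
  0),(0,0),(25,0),(8,0),(0,0),(3,0),(3,0)]⟩,⟨0,[(0,0),(15,0),(12,0)]⟩⟩,[.o ⟨false,0,⟨0,[(24,0)]⟩,⟨3,
  [(0,0),(14,0),(0,1),(4,0),(8,1),(8,0),(6,0)]⟩⟩,.o ⟨false,1,⟨3,[(24,3),(1,0),(0,0),(18,1)]⟩,⟨0,
  [(18,0),(11,0)]⟩⟩,.a ⟨true,0,⟨0,[(29,0)]⟩,⟨1,[(28,0),(8,0),(0,0)]⟩⟩ ⟨false,1,⟨1,[(26,0),(17,1),(1,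
  0)]⟩,⟨7,[(2,3),(1,1),(22,0),(17,2)]⟩⟩ ⟨true,0,⟨1,[(24,1),(3,0),(8,0),(0,0)]⟩,⟨0,[(18,0),(10,0),(0,
  0)]⟩⟩,.o ⟨false,0,⟨14,[(1,1),(0,0),(10,1),(4,4),(0,3),(9,12),(4,1),(4,0)]⟩,⟨7,[(26,0),(0,0),(0,3),
  (10,1),(5,3)]⟩⟩]⟩) (.Q [0,1,0,1,0,0,-1,-1,0,-1,1] (.p true [0,0,1] [1] (⟨0,[(38,0)]⟩,⟨0,[(37,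
  0)]⟩) .k 1 (⟨0,[]⟩,⟨0,[]⟩) .k .k) (.Q [0,0,-2,0,1,0,-1,0,0,-1,1,1] (.p true [0,0,1] [1,0,0,-1]
  (⟨0,[(39,0)]⟩,⟨0,[(38,0)]⟩) .k 2 (⟨1,[(29,0),(8,0),(0,0)]⟩,⟨0,[(30,0)]⟩) .k (.r 0 ⟨19,[(3,3),(3,
  1),(8,1),(2,1),(8,2),(1,3),(6,19),(8,0)]⟩ ⟨1,[(13,0),(8,0),(1,0),(2,0),(19,0)]⟩)) (.I [1,-1,-1,-1,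
  1,0,0,1,-1] (.R ⟨1,false,false,true,[1,0,0,-1],[1,1,-1],[1,0,0,0,0,0,0,0,-1],(⟨1,[(31,0),(8,0),(0,
  0)]⟩,⟨0,[(32,0)]⟩),(⟨0,[(40,0),(3,0)]⟩,⟨0,[(17,0)]⟩),⟨0,[(10,0),(20,0)]⟩,.k,.k,(.r (-1) ⟨3,[(0,1),
  (23,1),(4,0),(18,0)]⟩ ⟨15,[(5,3),(10,2),(6,2),(6,3)]⟩),(.r (-1) ⟨0,[(0,0),(50,0)]⟩ ⟨3,[(5,1),(10,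
  1),(7,1),(23,0),(0,0)]⟩),(.r (-1) ⟨0,[(0,0),(44,0),(1,1)]⟩ ⟨27,[(5,7),(10,25),(1,1),(5,1),(5,4),
  (17,0)]⟩),.k,⟨true,1,⟨0,[(0,0)]⟩,⟨0,[(5,0),(2,0),(15,0)]⟩⟩,⟨false,1,⟨0,[(1,0),(29,0)]⟩,⟨0,[(32,0),
  (4,0)]⟩⟩,⟨true,0,⟨0,[]⟩,⟨0,[(51,0)]⟩⟩,⟨true,0,⟨1,[(2,0),(8,0),(1,0)]⟩,⟨0,[(4,0),(42,0)]⟩⟩,⟨false,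
  1,⟨3,[(7,1),(22,0),(17,0),(0,1)]⟩,⟨0,[(47,0)]⟩⟩,⟨true,0,⟨0,[(2,0),(8,0)]⟩,⟨0,[(4,0),(42,1)]⟩⟩,[.o
  ⟨false,0,⟨0,[(2,0)]⟩,⟨15,[(0,7),(17,5),(3,1),(5,3),(1,0),(6,9),(9,1),(1,0)]⟩⟩,.o ⟨false,1,⟨1,[(26,
  1),(15,0),(6,0)]⟩,⟨1,[(21,0),(6,0),(18,0)]⟩⟩,.a ⟨true,0,⟨0,[(32,0)]⟩,⟨1,[(31,0),(8,0),(0,0)]⟩⟩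
  ⟨false,1,⟨1,[(29,0),(19,0)]⟩,⟨0,[(12,0)]⟩⟩ ⟨true,0,⟨1,[(2,0),(23,0),(4,0)]⟩,⟨1,[(21,0),(6,0),(3,
  1),(14,0)]⟩⟩,.o ⟨false,0,⟨14,[(4,1),(0,0),(10,1),(4,4),(0,3),(9,12),(4,1),(4,0)]⟩,⟨7,[(29,0),(0,
  0),(0,3),(10,1),(5,3)]⟩⟩]⟩) (.R ⟨1,false,false,true,[1,0,0,-1],[1,0,-1],[1,0,0,0,0,0,0,0,-1],(⟨1,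
  [(31,0),(8,0),(0,0)]⟩,⟨0,[(32,0)]⟩),(⟨0,[(40,0)]⟩,⟨0,[(41,0)]⟩),⟨0,[(10,0),(20,0)]⟩,.k,.k,(.r
  (-1) ⟨1,[(29,0),(17,1),(0,0)]⟩ ⟨15,[(5,3),(10,2),(6,2),(6,3)]⟩),.k,(.r (-1) ⟨3,[(1,1),(26,0),(0,
  1),(1,0),(7,1),(7,3)]⟩ ⟨1,[(0,0),(15,0),(1,0)]⟩),.k,⟨true,1,⟨1,[(29,0),(9,1),(9,0)]⟩,⟨0,[(0,0),
  (46,0)]⟩⟩,⟨false,1,⟨12,[(1,8),(20,0),(6,1),(0,1),(0,10),(6,2)]⟩,⟨0,[(15,0),(16,0)]⟩⟩,⟨true,0,⟨0,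
  []⟩,⟨0,[(51,0)]⟩⟩,⟨true,0,⟨0,[(13,0)]⟩,⟨0,[(4,0)]⟩⟩,⟨false,1,⟨3,[(7,1),(22,0),(17,0),(0,1)]⟩,⟨0,
  [(47,0)]⟩⟩,⟨true,0,⟨1,[(2,0),(8,0),(1,0)]⟩,⟨0,[(4,0),(42,0)]⟩⟩,[.o ⟨false,0,⟨0,[(33,0)]⟩,⟨7,[(28,
  3),(0,0),(0,0),(11,1),(6,3)]⟩⟩,.o ⟨false,1,⟨1,[(36,1),(5,0),(6,0)]⟩,⟨13,[(3,1),(0,1),(10,1),(5,3),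
  (6,4),(2,0),(10,0),(5,0)]⟩⟩,.a ⟨true,0,⟨0,[(32,0)]⟩,⟨1,[(31,0),(8,0),(0,0)]⟩⟩ ⟨false,1,⟨1,[(29,0),
  (19,0)]⟩,⟨0,[(12,0)]⟩⟩ ⟨true,0,⟨1,[(31,0),(1,0),(2,0)]⟩,⟨11,[(1,0),(2,8),(0,2),(12,0),(2,0),(2,0),
  (3,1),(1,0),(1,1)]⟩⟩,.o ⟨false,0,⟨14,[(4,1),(0,0),(10,1),(4,4),(0,3),(9,12),(4,1),(4,0)]⟩,⟨7,[(29,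
  0),(0,0),(0,3),(10,1),(5,3)]⟩⟩]⟩)) (.Q [0,0,2,0,-1,0,1,0,0,0,-1] (.p false [0,0,1] [] (⟨0,[(40,
  0)]⟩,⟨0,[(39,0)]⟩) .k 0 (⟨0,[]⟩,⟨0,[]⟩) .k .k) (.K ⟨2,[0,-1,1],(-1),0,(⟨0,[(17,0)]⟩,⟨0,[(40,0),(3,
  0)]⟩),.k,(.r (-1) ⟨0,[(39,0),(7,1),(0,0)]⟩ ⟨0,[(0,1),(1,1),(0,0),(3,0),(2,19),(10,7),(9,9),(12,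
  19),(0,3),(3,2)]⟩),.k,.k,.k,[⟨0,[(47,0)]⟩,⟨0,[(26,0)]⟩,⟨3,[(29,0),(0,0),(7,3),(9,1)]⟩,⟨0,[(0,
  0)]⟩]⟩) (.K ⟨0,[1,1,-1],1,0,(⟨0,[(40,0),(3,0)]⟩,⟨0,[(17,0)]⟩),.k,.k,(.r 0 ⟨0,[(1,1),(0,1),(0,0),
  (3,0),(2,17),(10,7),(9,7),(12,17),(0,3),(3,2)]⟩ ⟨1,[(0,1),(20,0),(6,0),(18,2)]⟩),.k,.k,[⟨0,[(1,0),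
  (30,0)]⟩,⟨0,[(0,0)]⟩,⟨0,[(28,0),(7,0),(10,0)]⟩,⟨0,[(2,0)]⟩]⟩))) (.R ⟨1,false,false,false,[1,-1],
  [0,-1,1],[1,0,-1,-1],(⟨0,[(41,0)]⟩,⟨0,[(42,0)]⟩),(⟨0,[(15,0)]⟩,⟨0,[(38,0),(3,0)]⟩),⟨0,[(8,1),(20,
  0)]⟩,.k,.k,(.r (-1) ⟨0,[(45,1),(0,0)]⟩ ⟨1,[(14,0),(6,0)]⟩),.k,.k,.k,⟨false,1,⟨1,[(13,0),(8,0),(1,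
  0),(21,0),(0,0)]⟩,⟨0,[(37,0)]⟩⟩,⟨true,0,⟨0,[(0,0),(12,0),(10,0)]⟩,⟨0,[(32,0)]⟩⟩,⟨true,0,⟨0,[]⟩,⟨0,
  [(49,0)]⟩⟩,⟨true,0,⟨2,[(0,0),(24,0),(0,0),(7,0)]⟩,⟨0,[(31,0)]⟩⟩,⟨false,1,⟨3,[(5,1),(22,0),(17,0),
  (0,1)]⟩,⟨0,[(45,0)]⟩⟩,⟨true,0,⟨0,[(25,0)]⟩,⟨0,[(19,0),(14,0)]⟩⟩,[.o ⟨false,0,⟨1,[(0,0),(18,0),(13,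
  0)]⟩,⟨1,[(24,1),(15,0),(6,0)]⟩⟩,.a ⟨true,0,⟨0,[(0,0)]⟩,⟨0,[(24,0)]⟩⟩ ⟨true,1,⟨1,[(45,1),(0,0),(0,
  0)]⟩,⟨0,[(1,0),(4,0),(15,0),(22,0)]⟩⟩ ⟨false,1,⟨0,[(0,0),(45,0)]⟩,⟨3,[(14,0),(5,0),(3,0),(6,1),
  (12,0)]⟩⟩,.o ⟨false,0,⟨0,[(18,0)]⟩,⟨3,[(27,0),(0,0),(17,1)]⟩⟩,.o ⟨false,0,⟨3,[(20,1),(14,2),(0,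
  0)]⟩,⟨0,[(46,0)]⟩⟩]⟩)))))))))) (.R ⟨2,true,false,false,[0,1],[1,0,0,-1],[0,1,1],(⟨0,[]⟩,⟨0,[]⟩),
  (⟨1,[(20,0),(8,0),(0,0)]⟩,⟨0,[(21,0)]⟩),⟨0,[]⟩,.k,.k,.k,(.r 0 ⟨3,[(1,3),(3,0),(6,0)]⟩ ⟨1,[(18,0),
  (17,1),(0,0)]⟩),.k,.k,⟨false,0,⟨0,[(1,0),(38,0)]⟩,⟨1,[(0,1),(19,0),(8,0),(0,0),(3,1),(3,1)]⟩⟩,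
  ⟨true,0,⟨1,[(8,0),(12,1),(4,0)]⟩,⟨1,[(20,0),(8,0),(0,0)]⟩⟩,⟨false,0,⟨0,[(36,0)]⟩,⟨3,[(5,0),(6,0),
  (24,1),(0,1)]⟩⟩,⟨true,0,⟨0,[(0,0)]⟩,⟨0,[(2,0),(13,0)]⟩⟩,⟨true,0,⟨0,[(40,0)]⟩,⟨0,[]⟩⟩,⟨false,1,⟨3,
  [(0,1),(2,1),(17,1),(9,0),(6,2)]⟩,⟨1,[(1,1),(18,0),(8,0),(0,0)]⟩⟩,[]⟩)) (.Q [0,0,0,0,0,1,0,0,0,0,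
  0,-1] (.p false [0,0,0,1] [] (⟨0,[(20,0)]⟩,⟨1,[(19,0),(8,0),(0,0)]⟩) .k 0 (⟨0,[]⟩,⟨0,[]⟩) .k .k)
  (.R ⟨0,false,false,false,[0,0,0,1],[0,0,1],[0,0,0,0,0,0,0,0,1],(⟨0,[(21,0)]⟩,⟨1,[(20,0),(8,0),(0,
  0)]⟩),(⟨0,[(30,0)]⟩,⟨0,[(29,0)]⟩),⟨0,[(0,0)]⟩,.k,.k,(.r (-1) ⟨0,[(7,0),(32,0)]⟩ ⟨3,[(1,3),(3,0),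
  (6,0)]⟩),.k,.k,.k,⟨false,1,⟨0,[(4,0),(2,0),(7,0)]⟩,⟨0,[(1,0),(26,0)]⟩⟩,⟨true,0,⟨0,[(4,0),(16,0)]⟩,
  ⟨1,[(20,0),(2,0),(3,0)]⟩⟩,⟨false,1,⟨3,[(18,0),(0,0),(18,1)]⟩,⟨0,[]⟩⟩,⟨true,0,⟨0,[(1,0),(8,0),(5,
  0),(4,0)]⟩,⟨0,[(2,0)]⟩⟩,⟨false,0,⟨0,[]⟩,⟨0,[]⟩⟩,⟨false,0,⟨0,[]⟩,⟨0,[]⟩⟩,[.o ⟨false,0,⟨0,[(10,0),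
  (5,0)]⟩,⟨1,[(25,1),(5,0),(6,0)]⟩⟩,.o ⟨false,1,⟨7,[(17,3),(0,0),(0,0),(11,1),(6,3)]⟩,⟨0,[(22,0)]⟩⟩,
  .a ⟨true,0,⟨1,[(20,0),(8,0),(0,0)]⟩,⟨0,[(21,0)]⟩⟩ ⟨false,1,⟨1,[(19,0),(18,0)]⟩,⟨0,[(1,0)]⟩⟩ ⟨true,
  0,⟨0,[(10,0),(5,0),(4,0)]⟩,⟨1,[(20,0),(1,0),(2,0)]⟩⟩,.o ⟨false,0,⟨7,[(11,1),(8,3),(5,2),(0,0)]⟩,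
  ⟨1,[(21,1),(9,0),(5,0)]⟩⟩]⟩) (.Q [0,0,0,-1,0,0,0,0,1,0,0,-1] (.p false [0,0,0,1] [] (⟨0,[(21,0)]⟩,
  ⟨1,[(20,0),(8,0),(0,0)]⟩) .k 0 (⟨0,[]⟩,⟨0,[]⟩) .k .k) (.R ⟨2,true,false,false,[0,1],[0,0,0,1],[1,
  1,1,1],(⟨0,[]⟩,⟨0,[]⟩),(⟨0,[(22,0)]⟩,⟨1,[(21,0),(8,0),(0,0)]⟩),⟨0,[]⟩,.k,.k,.k,(.r 0 ⟨3,[(2,3),(3,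
  0),(6,0)]⟩ ⟨0,[(8,0),(32,0)]⟩),.k,.k,⟨false,0,⟨0,[(4,0)]⟩,⟨0,[(8,0)]⟩⟩,⟨true,0,⟨7,[(12,1),(8,3),
  (5,2),(0,0)]⟩,⟨0,[(22,0)]⟩⟩,⟨false,0,⟨0,[]⟩,⟨3,[(19,0),(0,0),(18,1)]⟩⟩,⟨true,0,⟨0,[(0,0)]⟩,⟨0,[(4,
  0),(17,0)]⟩⟩,⟨true,0,⟨0,[(36,0)]⟩,⟨0,[(37,0)]⟩⟩,⟨false,1,⟨27,[(0,11),(5,1),(2,1),(7,1),(2,7),(0,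
  7),(10,2),(2,5),(3,16)]⟩,⟨0,[(2,0),(19,0)]⟩⟩,[]⟩) (.R ⟨1,false,false,false,[1,0,0,-1],[1,-1],[1,1,
  0,0,0,0,0,0,-1],(⟨1,[(21,0),(8,0),(0,0)]⟩,⟨0,[(22,0)]⟩),(⟨0,[(33,0)]⟩,⟨0,[(34,0)]⟩),⟨0,[(1,0),(19,
  0)]⟩,.k,.k,(.x 0 ⟨2,[(1,1),(10,0),(8,0),(5,0),(5,0)]⟩ ⟨3,[(19,0),(0,0),(13,3),(3,1)]⟩),(.r 0 ⟨3,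
  [(2,3),(3,0),(6,0)]⟩ ⟨0,[(8,0),(32,0)]⟩),.k,.k,⟨false,0,⟨0,[(4,0)]⟩,⟨0,[(8,0)]⟩⟩,⟨true,0,⟨7,[(12,
  1),(8,3),(5,2),(0,0)]⟩,⟨0,[(22,0)]⟩⟩,⟨false,0,⟨0,[]⟩,⟨3,[(19,0),(0,0),(18,1)]⟩⟩,⟨false,1,⟨7,[(8,
  5),(3,1),(7,0),(0,3),(5,1),(9,1),(1,0)]⟩,⟨0,[(0,0)]⟩⟩,⟨true,0,⟨0,[(36,0)]⟩,⟨0,[(37,0)]⟩⟩,⟨false,1,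
  ⟨5,[(3,1),(1,1),(2,1),(0,1),(7,1),(2,0),(0,1),(17,2)]⟩,⟨0,[(2,0),(19,0)]⟩⟩,[.o ⟨false,0,⟨0,[(11,
  0)]⟩,⟨3,[(6,0),(6,0),(5,0),(0,0),(17,1)]⟩⟩,.o ⟨false,1,⟨13,[(8,5),(2,7),(0,1),(6,2),(7,1),(4,0),
  (6,3)]⟩,⟨0,[(36,0)]⟩⟩,.a ⟨true,0,⟨0,[(22,0)]⟩,⟨1,[(21,0),(8,0),(0,0)]⟩⟩ ⟨false,0,⟨0,[(2,0)]⟩,⟨1,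
  [(20,0),(18,0)]⟩⟩ ⟨true,0,⟨1,[(11,0),(9,0),(15,0)]⟩,⟨0,[(22,0),(13,0)]⟩⟩,.o ⟨false,0,⟨1,[(9,0),
  (12,1),(4,0)]⟩,⟨7,[(19,0),(0,0),(0,3),(10,1),(5,3)]⟩⟩]⟩)))))))

theorem ok10 : chk (cU (-1) false 3) t10 r11 = true := by decide +kernel

noncomputable def t21 : Tre :=
  (.Q [0,0,0,1,0,0,0,0,0,1] (.pp false [-1,1]) (.R ⟨0,false,false,false,[1,0,-1],[1,-1],[1,0,0,-1],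
  (⟨0,[(17,0)]⟩,⟨0,[(18,0)]⟩),(⟨0,[(20,0)]⟩,⟨0,[(21,0)]⟩),⟨0,[(2,0)]⟩,.k,.k,.k,.k,.k,.k,⟨false,0,⟨0,
  []⟩,⟨3,[(6,0),(0,0),(17,1)]⟩⟩,⟨true,0,⟨0,[(14,0)]⟩,⟨0,[(1,0),(11,0),(10,0)]⟩⟩,⟨false,0,⟨0,[(1,0),
  (22,1)]⟩,⟨1,[(3,1),(10,1),(10,0),(0,0)]⟩⟩,⟨true,0,⟨0,[(1,0),(12,0),(7,0),(1,2)]⟩,⟨0,[(3,0)]⟩⟩,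
  ⟨false,0,⟨0,[]⟩,⟨0,[]⟩⟩,⟨false,0,⟨0,[]⟩,⟨0,[]⟩⟩,[.a ⟨true,0,⟨0,[(24,0)]⟩,⟨0,[(0,0)]⟩⟩ ⟨true,0,⟨0,
  [(24,0)]⟩,⟨3,[(1,1),(1,1),(10,2),(0,0)]⟩⟩ ⟨false,1,⟨0,[(14,0),(9,0),(0,0)]⟩,⟨0,[(1,0),(11,0)]⟩⟩,
  .o ⟨false,1,⟨1,[(19,0),(4,1),(1,0)]⟩,⟨0,[(23,0)]⟩⟩,.o ⟨false,0,⟨0,[(1,0),(8,0),(13,0)]⟩,⟨3,[(6,0),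
  (0,0),(6,3),(10,1)]⟩⟩,.o ⟨false,0,⟨0,[(11,0)]⟩,⟨0,[(14,0),(10,0)]⟩⟩]⟩) (.Q [0,0,0,0,0,1,0,0,0,0,
  -1] (.ed true [1,-1,1] .k) (.I [0,0,-2,-2,0,0,0,1] (.K ⟨2,[1,-1,1],0,0,(⟨0,[(20,0),(1,0)]⟩,⟨0,[(1,
  0)]⟩),.k,(.r 0 ⟨0,[(0,0)]⟩ ⟨7,[(5,11),(0,3),(1,0),(0,0),(3,3),(2,11),(11,5)]⟩),.k,.k,.k,[⟨0,[(2,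
  0)]⟩,⟨0,[(5,0),(13,0),(0,0)]⟩,⟨0,[(3,0),(11,0),(3,0),(0,0),(5,0)]⟩,⟨2,[(2,0),(0,0),(8,0),(0,0),(2,
  4)]⟩]⟩) (.K ⟨2,[1,-1,1],0,0,(⟨0,[(20,0),(1,0)]⟩,⟨0,[(1,0)]⟩),.k,(.x 0 ⟨6,[(0,4),(1,13),(0,2),(10,
  1),(1,4),(3,6),(1,13),(1,0)]⟩ ⟨0,[(1,0),(1,0),(11,0),(7,0),(2,0),(0,0)]⟩),.k,.k,.k,[⟨0,[(2,0)]⟩,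
  ⟨0,[(5,0),(13,0),(0,0)]⟩,⟨0,[(3,0),(11,0),(3,0),(0,0),(5,0)]⟩,⟨6,[(0,1),(1,4),(0,0),(9,1),(0,0),
  (1,7)]⟩]⟩)) (.K ⟨2,[0,-1,1],0,0,(⟨0,[(0,0)]⟩,⟨0,[(18,0),(3,0)]⟩),.k,(.x 0 ⟨2,[(0,2),(0,0),(0,0),
  (8,0),(0,0),(2,4),(5,2)]⟩ ⟨0,[(1,0),(0,0),(11,0),(3,0),(3,1),(3,0)]⟩),.k,.k,.k,[⟨0,[(25,0)]⟩,⟨0,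
  [(4,0)]⟩,⟨0,[(2,0),(11,0),(10,0)]⟩,⟨1,[(15,2),(0,0)]⟩]⟩)))

theorem ok21 : chk (cU (-1) false 3) t21 r3 = true := by decide +kernel

noncomputable def t23 : Tre :=
  (.Q [0,0,0,0,0,0,1,0,0,1,-1] (.p false [0,0,1] [1] (⟨0,[(18,0)]⟩,⟨0,[(17,0)]⟩) .k 1 (⟨0,[]⟩,⟨0,
  []⟩) .k .k) (.K ⟨0,[1,-1,-1],0,0,(⟨0,[(3,0)]⟩,⟨0,[(19,0),(2,0)]⟩),.k,(.r (-1) ⟨0,[(2,0)]⟩ ⟨1,[(1,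
  0),(3,2),(6,2),(2,0)]⟩),.k,.k,.k,[⟨0,[(0,0)]⟩,⟨0,[(1,0),(15,0),(7,0)]⟩,⟨0,[(5,0),(23,0)]⟩,⟨0,[(11,
  0),(13,0)]⟩]⟩) (.I [0,-1,1,0,0,0,0,1] (.R ⟨1,false,false,false,[1,0,-1],[1,-1],[1,1,0,0,0,0,0,-1],
  (⟨0,[(19,0)]⟩,⟨0,[(20,0)]⟩),(⟨0,[(22,0)]⟩,⟨0,[(23,0)]⟩),⟨0,[(4,0)]⟩,.k,.k,.k,.k,.k,.k,⟨false,0,⟨0,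
  [(2,0),(13,0),(7,0),(1,0)]⟩,⟨1,[(3,0),(14,2),(9,0)]⟩⟩,⟨true,0,⟨0,[(16,0)]⟩,⟨0,[(1,0),(17,0),(0,
  0)]⟩⟩,⟨false,0,⟨0,[]⟩,⟨3,[(8,0),(0,0),(18,1)]⟩⟩,⟨false,1,⟨31,[(0,23),(2,15),(3,11),(0,2),(0,2),(6,
  7),(4,5),(6,3)]⟩,⟨0,[(2,0)]⟩⟩,⟨true,0,⟨0,[(25,0)]⟩,⟨0,[(26,0)]⟩⟩,⟨false,1,⟨7,[(7,3),(0,0),(0,0),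
  (11,1),(6,3)]⟩,⟨0,[(2,0),(23,0)]⟩⟩,[.a ⟨true,0,⟨0,[(26,0)]⟩,⟨1,[(2,0),(3,0),(12,0),(0,0)]⟩⟩ ⟨true,
  0,⟨0,[(2,0),(13,0),(7,0),(1,1)]⟩,⟨0,[(0,0)]⟩⟩ ⟨false,1,⟨15,[(3,7),(3,3),(0,0),(0,0),(6,7),(4,1),
  (5,3)]⟩,⟨0,[(2,0),(15,0)]⟩⟩,.o ⟨false,1,⟨1,[(21,0),(4,1),(1,0)]⟩,⟨0,[(25,0)]⟩⟩,.o ⟨false,0,⟨0,[(1,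
  0)]⟩,⟨3,[(8,0),(0,0),(6,3),(10,1)]⟩⟩,.o ⟨false,0,⟨0,[(13,0)]⟩,⟨0,[(16,0),(10,0)]⟩⟩]⟩) (.Q [0,0,0,
  -1,0,0,-2,-2,0,-1,2] (.p true [0,0,1] [1,0,-1] (⟨0,[(20,0)]⟩,⟨0,[(19,0)]⟩) .k 2 (⟨0,[(19,0)]⟩,⟨0,
  [(20,0)]⟩) .k (.r 0 ⟨0,[(18,1)]⟩ ⟨2,[(2,1),(0,1),(1,1),(10,3),(11,0)]⟩)) (.R ⟨1,false,false,false,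
  [1,0,-1],[0,0,1],[0,0,1],(⟨0,[(20,0)]⟩,⟨0,[(21,0)]⟩),(⟨0,[(21,0)]⟩,⟨0,[(20,0)]⟩),⟨0,[(5,0)]⟩,.k,
  .k,.k,.k,(.r (-1) ⟨0,[(3,0),(0,0),(12,0)]⟩ ⟨0,[(7,0),(6,0),(4,0)]⟩),.k,⟨true,0,⟨2,[(0,0),(2,0),
  (13,2),(2,0),(0,0)]⟩,⟨0,[(19,0)]⟩⟩,⟨false,1,⟨3,[(1,1),(2,1),(2,3),(9,3),(10,0),(0,0)]⟩,⟨1,[(0,0),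
  (1,0),(0,0),(15,2)]⟩⟩,⟨true,0,⟨1,[(8,0),(5,0),(3,0)]⟩,⟨0,[(1,0)]⟩⟩,⟨true,0,⟨0,[(8,0)]⟩,⟨1,[(0,0),
  (5,0),(6,0)]⟩⟩,⟨true,0,⟨0,[(7,0),(6,0)]⟩,⟨0,[(1,0),(25,0)]⟩⟩,⟨false,1,⟨7,[(7,7),(0,3),(0,0),(0,0),
  (11,1),(6,3)]⟩,⟨0,[(0,0)]⟩⟩,[.a ⟨true,0,⟨1,[(8,0),(11,0),(0,0)]⟩,⟨2,[(0,0),(2,0),(16,0),(0,0)]⟩⟩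
  ⟨true,0,⟨1,[(17,0),(0,0)]⟩,⟨0,[]⟩⟩ ⟨false,1,⟨11,[(4,3),(2,7),(0,3),(0,0),(0,0),(6,7),(10,5)]⟩,⟨1,
  [(0,0),(1,0),(0,0),(15,0)]⟩⟩,.o ⟨false,1,⟨7,[(8,3),(0,0),(0,0),(11,1),(6,3)]⟩,⟨0,[(13,0)]⟩⟩,.o
  ⟨false,0,⟨0,[(2,0)]⟩,⟨3,[(9,0),(0,0),(6,3),(10,1)]⟩⟩,.o ⟨false,0,⟨0,[(14,0)]⟩,⟨0,[(17,0),(10,
  0)]⟩⟩]⟩) (.Q [0,0,0,0,0,2,0,0,0,-1,1] (.p true [0,0,1] [1] (⟨0,[(21,0)]⟩,⟨0,[(20,0)]⟩) .k 1 (⟨0,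
  []⟩,⟨0,[]⟩) .k .k) (.R ⟨0,false,false,false,[1,-1,-1],[1,-1],[0,0,0,-1],(⟨0,[(6,0)]⟩,⟨0,[(22,0),
  (2,0)]⟩),(⟨0,[(24,0)]⟩,⟨0,[(25,0)]⟩),⟨0,[(0,0)]⟩,.k,.k,(.r (-1) ⟨0,[(5,0)]⟩ ⟨1,[(4,0),(3,2),(6,2),
  (2,0)]⟩),.k,.k,.k,⟨true,0,⟨1,[(18,0),(0,0)]⟩,⟨0,[]⟩⟩,⟨false,1,⟨0,[(18,0),(10,0)]⟩,⟨0,[(3,0),(17,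
  0),(0,0)]⟩⟩,⟨true,0,⟨1,[(9,0),(5,0),(3,0)]⟩,⟨0,[(2,0)]⟩⟩,⟨false,1,⟨7,[(9,3),(0,0),(0,0),(11,1),(6,
  3)]⟩,⟨0,[(4,0),(23,0)]⟩⟩,⟨false,0,⟨0,[]⟩,⟨0,[]⟩⟩,⟨false,0,⟨0,[]⟩,⟨0,[]⟩⟩,[.a ⟨true,0,⟨0,[(28,0)]⟩,
  ⟨1,[(4,0),(3,0),(12,0),(0,0)]⟩⟩ ⟨true,0,⟨0,[(28,0)]⟩,⟨1,[(4,0),(3,0),(6,0),(2,0)]⟩⟩ ⟨false,1,⟨0,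
  [(2,1),(0,0),(5,0),(18,0),(1,0)]⟩,⟨1,[(4,0),(3,0),(6,0),(3,0)]⟩⟩,.o ⟨false,1,⟨1,[(23,0),(4,1),(1,
  0)]⟩,⟨0,[(27,0)]⟩⟩,.o ⟨false,0,⟨0,[(15,0)]⟩,⟨0,[(18,0),(10,0)]⟩⟩,.o ⟨false,0,⟨1,[(15,1),(2,0),(0,
  0)]⟩,⟨0,[(2,1),(0,0),(5,0),(20,0)]⟩⟩]⟩) (.I [0,-1,2,1] (.R ⟨1,false,false,false,[1,-1],[1,-1,-1],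
  [1,1,-1,-1],(⟨0,[(25,0)]⟩,⟨0,[(26,0)]⟩),(⟨0,[(7,0)]⟩,⟨0,[(23,0),(2,0)]⟩),⟨0,[(1,0),(21,0)]⟩,.k,.k,
  (.r (-1) ⟨0,[(6,0),(14,0)]⟩ ⟨0,[(0,0),(27,0)]⟩),.k,.k,.k,⟨false,0,⟨0,[(3,0),(17,1)]⟩,⟨2,[(0,0),(2,
  0),(2,0),(1,0),(10,0),(11,1)]⟩⟩,⟨true,0,⟨0,[(4,0),(17,0),(0,0)]⟩,⟨0,[(19,0)]⟩⟩,⟨false,0,⟨0,[]⟩,⟨3,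
  [(11,0),(0,0),(18,1)]⟩⟩,⟨true,0,⟨0,[(5,0),(23,0)]⟩,⟨0,[(17,0)]⟩⟩,⟨true,0,⟨0,[(28,0)]⟩,⟨0,[(29,
  0)]⟩⟩,⟨true,0,⟨0,[(5,0)]⟩,⟨0,[(17,0),(11,0)]⟩⟩,[.a ⟨true,0,⟨0,[(5,0),(23,1)]⟩,⟨0,[(9,0)]⟩⟩ ⟨true,
  0,⟨0,[(3,0),(17,0),(7,0)]⟩,⟨0,[(0,0)]⟩⟩ ⟨false,1,⟨0,[(5,0),(0,0),(14,0)]⟩,⟨3,[(0,0),(1,1),(1,1),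
  (14,1),(8,0)]⟩⟩,.o ⟨false,1,⟨0,[(15,0),(13,0),(1,0)]⟩,⟨2,[(2,0),(1,0),(12,0),(1,0),(7,0),(0,0)]⟩⟩,
  .o ⟨false,0,⟨0,[(4,0),(14,0)]⟩,⟨3,[(11,0),(0,0),(17,1)]⟩⟩,.o ⟨false,0,⟨0,[(16,0),(2,0)]⟩,⟨0,[(30,
  0)]⟩⟩]⟩) (.Q [0,0,0,-2,0,0,1,1,0,0,-1] (.p false [0,0,1] [] (⟨0,[(23,0)]⟩,⟨0,[(22,0)]⟩) .k 0 (⟨0,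
  []⟩,⟨0,[]⟩) .k .k) (.R ⟨1,false,false,false,[1,-1],[1,0,-1],[0,0,1,0,0,0,0,-1],(⟨0,[(26,0)]⟩,⟨0,
  [(27,0)]⟩),(⟨0,[(23,0)]⟩,⟨0,[(24,0)]⟩),⟨0,[(2,0),(21,0)]⟩,.k,.k,(.r (-1) ⟨0,[(7,0),(14,0)]⟩ ⟨0,
  [(6,0),(3,0),(6,0),(2,0)]⟩),.k,(.r (-1) ⟨0,[(7,0),(14,1)]⟩ ⟨1,[(6,2),(3,0),(6,0),(2,2)]⟩),.k,
  ⟨true,0,⟨1,[(20,0),(0,0)]⟩,⟨0,[]⟩⟩,⟨false,1,⟨3,[(1,1),(4,1),(14,1),(0,1),(8,2),(0,0)]⟩,⟨0,[(20,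
  0)]⟩⟩,⟨true,0,⟨1,[(6,1),(13,2),(0,0)]⟩,⟨0,[(1,0),(20,0)]⟩⟩,⟨true,0,⟨0,[(6,0)]⟩,⟨1,[(0,0),(17,0),
  (15,0)]⟩⟩,⟨true,0,⟨1,[(6,2),(3,0),(6,0),(2,2)]⟩,⟨0,[(1,0),(20,0),(7,0)]⟩⟩,⟨false,1,⟨0,[(6,0),(22,
  0),(2,0)]⟩,⟨0,[(0,0)]⟩⟩,[.a ⟨true,0,⟨0,[(6,0),(23,0)]⟩,⟨1,[(11,0),(11,0),(0,0)]⟩⟩ ⟨true,0,⟨0,[(6,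
  0),(13,0),(9,0)]⟩,⟨0,[(22,0)]⟩⟩ ⟨false,1,⟨7,[(1,1),(4,5),(0,1),(13,1),(9,4),(0,0)]⟩,⟨1,[(11,0),(5,
  0),(2,0)]⟩⟩,.o ⟨false,1,⟨0,[(16,0),(15,0)]⟩,⟨0,[(18,0)]⟩⟩,.o ⟨false,0,⟨0,[(5,0),(14,0)]⟩,⟨3,[(12,
  0),(0,0),(17,1)]⟩⟩,.o ⟨false,0,⟨0,[(17,0),(2,0)]⟩,⟨0,[(31,0)]⟩⟩]⟩) (.Q [0,0,0,0,0,1,0,0,0,0,-1]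
  (.ed true [1,-1,1] .k) (.I [0,0,-1,-1,0,0,0,2] (.K ⟨2,[0,1,-1],0,0,(⟨0,[(1,0)]⟩,⟨0,[(26,0),(1,
  0)]⟩),.k,.k,(.r 0 ⟨1,[(2,1),(19,2),(0,0)]⟩ ⟨4,[(0,3),(8,2),(4,0),(0,0)]⟩),(.r (-1) ⟨2,[(2,0),(6,
  0),(1,2),(9,0),(0,4),(11,1)]⟩ ⟨0,[(0,0)]⟩),.k,[⟨0,[(8,1),(23,0)]⟩,⟨0,[(20,0),(11,0)]⟩,⟨1,[(22,2),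
  (0,0)]⟩,⟨2,[(0,0),(7,1),(14,0),(8,0)]⟩]⟩) (.R ⟨0,false,false,false,[0,0,1],[1,0,-1],[1,1],(⟨0,
  [(26,0)]⟩,⟨0,[(25,0)]⟩),(⟨0,[(25,0)]⟩,⟨0,[(26,0)]⟩),⟨0,[(1,0)]⟩,.k,.k,.k,.k,.k,.k,⟨false,0,⟨1,[(3,
  0),(20,1),(6,0)]⟩,⟨19,[(0,7),(8,3),(4,2),(0,2),(18,9)]⟩⟩,⟨true,0,⟨0,[(7,1),(17,0),(0,0)]⟩,⟨0,[(0,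
  0),(12,0),(18,0)]⟩⟩,⟨true,0,⟨1,[(6,0),(14,0),(0,0)]⟩,⟨0,[(24,0)]⟩⟩,⟨false,1,⟨3,[(0,0),(6,0),(0,3),
  (0,1),(9,2),(12,0),(1,1)]⟩,⟨0,[(13,0)]⟩⟩,⟨false,0,⟨0,[]⟩,⟨0,[]⟩⟩,⟨false,0,⟨0,[]⟩,⟨0,[]⟩⟩,[.a
  ⟨true,0,⟨0,[(8,0),(23,0)]⟩,⟨1,[(13,0),(11,0),(0,0)]⟩⟩ ⟨false,0,⟨1,[(3,0),(27,0)]⟩,⟨3,[(14,0),(0,
  0),(18,1)]⟩⟩ ⟨true,0,⟨0,[(7,0),(0,0),(23,0)]⟩,⟨1,[(13,0),(8,1),(2,0),(0,0)]⟩⟩,.o ⟨false,1,⟨0,[(18,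
  0),(15,0)]⟩,⟨0,[(20,0)]⟩⟩,.o ⟨false,1,⟨59,[(0,11),(4,19),(3,15),(4,16),(0,16),(6,19),(4,9)]⟩,⟨0,
  [(7,0)]⟩⟩,.o ⟨false,0,⟨0,[(22,0)]⟩,⟨3,[(7,3),(6,0),(0,0),(17,1)]⟩⟩]⟩)) (.K ⟨2,[0,-1,1],0,0,(⟨0,
  [(0,0)]⟩,⟨0,[(24,0),(3,0)]⟩),.k,(.r (-1) ⟨0,[(8,0),(14,1)]⟩ ⟨1,[(1,1),(19,2),(0,0)]⟩),.k,.k,.k,
  [⟨0,[(31,0)]⟩,⟨0,[(10,0)]⟩,⟨0,[(6,0),(17,0),(0,0)]⟩,⟨1,[(21,2),(0,0)]⟩]⟩))))))))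

theorem ok23 : chk (cU (-1) false 3) t23 l15 = true := by decide +kernel

noncomputable def t25 : Tre :=
  (.Q [0,0,1,1,0,0,-1,0,0,0,1] (.p true [0,0,1] [] (⟨0,[(21,0)]⟩,⟨0,[(20,0)]⟩) .k 0 (⟨0,[]⟩,⟨0,[]⟩)
  .k .k) (.Q [0,0,0,0,0,0,-1,0,0,-1,1] (.p true [0,0,1] [1] (⟨0,[(22,0)]⟩,⟨0,[(21,0)]⟩) .k 1 (⟨0,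
  []⟩,⟨0,[]⟩) .k .k) (.Q [0,0,0,1,0,0,0,0,0,1] (.pp false [-1,1]) (.Q [0,0,0,-2,0,0,0,0,0,-1] (.pp
  true [-1,1]) (.R ⟨2,false,false,false,[0,1],[1,-1],[],(⟨0,[]⟩,⟨0,[]⟩),(⟨0,[(27,0)]⟩,⟨0,[(28,0)]⟩),
  ⟨0,[]⟩,.k,.k,.k,(.r 0 ⟨0,[(1,1),(3,1)]⟩ ⟨0,[(8,0),(14,0)]⟩),.k,.k,⟨true,0,⟨0,[(1,0),(3,0)]⟩,⟨0,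
  [(31,0)]⟩⟩,⟨false,0,⟨0,[(5,0)]⟩,⟨4,[(1,3),(2,1),(3,1),(3,0),(19,2)]⟩⟩,⟨false,1,⟨1,[(8,0),(14,0),
  (9,0)]⟩,⟨0,[(1,0),(3,0)]⟩⟩,⟨true,0,⟨0,[(0,0)]⟩,⟨0,[(10,0),(0,0)]⟩⟩,⟨false,1,⟨1,[(32,0),(0,0)]⟩,⟨1,
  [(21,0),(0,0)]⟩⟩,⟨false,1,⟨7,[(0,3),(12,0),(0,0),(11,1),(6,3)]⟩,⟨0,[(1,0)]⟩⟩,[.a ⟨true,0,⟨0,[(31,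
  0)]⟩,⟨0,[(1,0)]⟩⟩ ⟨false,1,⟨3,[(13,0),(0,0),(17,1)]⟩,⟨0,[]⟩⟩ ⟨true,0,⟨1,[(0,0),(17,0),(2,0)]⟩,⟨0,
  [(1,0)]⟩⟩,.o ⟨false,1,⟨7,[(0,3),(12,0),(0,0),(11,1),(6,3)]⟩,⟨0,[(30,0)]⟩⟩,.o ⟨false,1,⟨3,[(13,0),
  (0,0),(17,1)]⟩,⟨0,[(5,0)]⟩⟩,.e ⟨false,1,⟨1,[(32,0),(0,0)]⟩,⟨1,[(21,0),(0,0)]⟩⟩ ⟨false,1,⟨7,[(0,3),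
  (12,0),(0,0),(11,1),(6,3)]⟩,⟨0,[(1,0)]⟩⟩]⟩) (.I [0,1,0,0,0,0,0,-1] (.I [1,-1,1,1,0,0,0,1] (.R ⟨1,
  false,false,false,[1,0,-1],[1,-1],[0,1,0,-1,0,0,0,-1],(⟨0,[(26,0)]⟩,⟨0,[(27,0)]⟩),(⟨0,[(29,0)]⟩,
  ⟨0,[(30,0)]⟩),⟨0,[(11,0)]⟩,.k,.k,.k,.k,.k,.k,⟨false,0,⟨0,[(1,0)]⟩,⟨1,[(25,1),(8,0),(0,0)]⟩⟩,⟨true,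
  0,⟨0,[(23,0)]⟩,⟨0,[(6,0)]⟩⟩,⟨false,0,⟨0,[(33,0)]⟩,⟨7,[(2,3),(12,0),(0,0),(11,1),(6,3)]⟩⟩,⟨true,0,
  ⟨0,[(9,0)]⟩,⟨0,[(12,0)]⟩⟩,⟨true,0,⟨0,[(37,0)]⟩,⟨0,[]⟩⟩,⟨true,0,⟨0,[(8,0)]⟩,⟨0,[(22,0)]⟩⟩,[.a
  ⟨true,0,⟨0,[(33,0)]⟩,⟨0,[(3,0)]⟩⟩ ⟨true,0,⟨0,[(1,0),(31,0)]⟩,⟨0,[(0,0)]⟩⟩ ⟨false,1,⟨15,[(10,7),(3,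
  3),(0,0),(0,0),(6,7),(4,1),(5,3)]⟩,⟨1,[(2,0),(1,0),(1,0)]⟩⟩,.o ⟨false,1,⟨5,[(7,1),(1,1),(0,1),(9,
  1),(7,0),(6,2)]⟩,⟨0,[(32,0)]⟩⟩,.o ⟨false,0,⟨0,[(4,0)]⟩,⟨3,[(15,0),(0,0),(6,3),(10,1)]⟩⟩,.o ⟨false,
  0,⟨0,[(20,0)]⟩,⟨0,[(23,0),(10,0)]⟩⟩]⟩) (.I [0,-1,1,0,0,0,0,1] (.R ⟨1,false,false,false,[1,0,-1],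
  [1,-1],[1,1,0,0,0,0,0,-1],(⟨0,[(27,0)]⟩,⟨0,[(28,0)]⟩),(⟨0,[(30,0)]⟩,⟨0,[(31,0)]⟩),⟨0,[(12,0)]⟩,.k,
  .k,.k,.k,.k,.k,⟨false,0,⟨0,[(1,0),(1,0),(4,0)]⟩,⟨1,[(11,0),(14,2),(9,0)]⟩⟩,⟨true,0,⟨0,[(24,0)]⟩,
  ⟨0,[(7,0)]⟩⟩,⟨false,0,⟨0,[]⟩,⟨3,[(16,0),(0,0),(18,1)]⟩⟩,⟨true,0,⟨0,[(10,0)]⟩,⟨0,[(13,0)]⟩⟩,⟨true,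
  0,⟨0,[(33,0)]⟩,⟨0,[(34,0)]⟩⟩,⟨true,0,⟨0,[(9,0)]⟩,⟨0,[(23,0)]⟩⟩,[.a ⟨true,0,⟨0,[(34,0)]⟩,⟨0,[(4,
  0)]⟩⟩ ⟨true,0,⟨0,[(2,0)]⟩,⟨0,[(0,0)]⟩⟩ ⟨false,1,⟨15,[(11,7),(3,3),(0,0),(0,0),(6,7),(4,1),(5,3)]⟩,
  ⟨1,[(3,0),(1,0),(1,0)]⟩⟩,.o ⟨false,1,⟨5,[(8,1),(1,1),(0,1),(9,1),(7,0),(6,2)]⟩,⟨0,[(33,0)]⟩⟩,.o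
  ⟨false,0,⟨0,[(5,0)]⟩,⟨3,[(16,0),(0,0),(6,3),(10,1)]⟩⟩,.o ⟨false,0,⟨0,[(21,0)]⟩,⟨0,[(24,0),(10,
  0)]⟩⟩]⟩) (.Q [0,0,0,0,0,1,0,0,0,0,-1] (.ed true [1,-1,1] .k) (.Q [0,0,-1,0,0,0,-1,0,0,1,1] (.p
  true [1,-1,1] [] (⟨0,[(29,0),(1,0)]⟩,⟨0,[(0,0)]⟩) .k 0 (⟨0,[]⟩,⟨0,[]⟩) .k .k) (.R ⟨0,false,false,
  false,[0,1,-1],[1,0,-1],[0,0,1],(⟨0,[(1,0)]⟩,⟨0,[(30,0),(1,0)]⟩),(⟨0,[(29,0)]⟩,⟨0,[(30,0)]⟩),⟨0,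
  [(30,0)]⟩,.k,.k,.k,.k,.k,.k,⟨false,0,⟨0,[(28,0)]⟩,⟨3,[(4,1),(0,1),(7,1),(17,0),(6,0)]⟩⟩,⟨true,0,
  ⟨0,[(10,0)]⟩,⟨0,[(0,0),(25,0)]⟩⟩,⟨true,0,⟨0,[(28,0),(7,0)]⟩,⟨2,[(2,1),(2,0),(4,0),(4,0),(10,0)]⟩⟩,
  ⟨false,1,⟨5,[(10,1),(1,1),(0,1),(9,1),(7,0),(6,2)]⟩,⟨0,[(6,0)]⟩⟩,⟨false,0,⟨0,[]⟩,⟨0,[]⟩⟩,⟨false,0,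
  ⟨0,[]⟩,⟨0,[]⟩⟩,[.o ⟨false,1,⟨1,[(25,1),(5,0),(6,0)]⟩,⟨0,[(11,0)]⟩⟩,.o ⟨false,1,⟨0,[(22,0),(15,
  0)]⟩,⟨0,[(24,0)]⟩⟩,.a ⟨true,0,⟨0,[(0,0)]⟩,⟨0,[(26,0)]⟩⟩ ⟨true,0,⟨1,[(26,0),(0,0)]⟩,⟨1,[(3,0),(24,
  0),(5,0)]⟩⟩ ⟨false,1,⟨0,[(4,0),(5,0),(27,0)]⟩,⟨0,[(0,0),(10,0)]⟩⟩,.o ⟨false,0,⟨0,[(9,0)]⟩,⟨1,[(26,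
  1),(4,0),(5,0)]⟩⟩]⟩) (.I [1,0,1,0,0,0,0,-1] (.R ⟨0,false,false,true,[0,0,1],[0,1],[1,1,1],(⟨0,
  [(31,0)]⟩,⟨0,[(30,0)]⟩),(⟨0,[(34,0)]⟩,⟨0,[(33,0)]⟩),⟨0,[(2,0)]⟩,.k,.k,.k,.k,.k,.k,⟨true,0,⟨0,[(37,
  0)]⟩,⟨3,[(1,0),(4,0),(2,1),(17,0)]⟩⟩,⟨false,1,⟨0,[(10,0),(27,0)]⟩,⟨0,[(27,0)]⟩⟩,⟨false,0,⟨0,[(0,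
  0)]⟩,⟨1,[(29,1),(8,0),(0,0)]⟩⟩,⟨true,0,⟨0,[(16,0)]⟩,⟨0,[(13,0)]⟩⟩,⟨false,0,⟨0,[]⟩,⟨0,[]⟩⟩,⟨false,
  0,⟨0,[]⟩,⟨0,[]⟩⟩,[.o ⟨false,0,⟨0,[(36,0)]⟩,⟨5,[(11,1),(1,1),(0,1),(9,1),(7,0),(6,2)]⟩⟩,.a ⟨true,0,
  ⟨0,[(7,0)]⟩,⟨0,[(37,0)]⟩⟩ ⟨false,0,⟨0,[]⟩,⟨3,[(19,0),(0,0),(17,1)]⟩⟩ ⟨true,0,⟨1,[(6,0),(1,0),(1,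
  0)]⟩,⟨0,[(27,0),(9,0)]⟩⟩,.o ⟨false,1,⟨3,[(19,0),(0,0),(6,3),(10,1)]⟩,⟨0,[(8,0)]⟩⟩,.o ⟨false,0,⟨0,
  [(27,0)]⟩,⟨0,[(24,0),(13,0)]⟩⟩]⟩) (.I [0,0,2,1,0,0,0,-1] (.R ⟨0,false,false,true,[0,0,1],[0,1],[0,
  1,2,1],(⟨0,[(32,0)]⟩,⟨0,[(31,0)]⟩),(⟨0,[(35,0)]⟩,⟨0,[(34,0)]⟩),⟨0,[(3,0)]⟩,.k,.k,.k,.k,.k,.k,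
  ⟨true,0,⟨1,[(28,0),(0,0)]⟩,⟨0,[]⟩⟩,⟨false,1,⟨0,[(11,0),(27,0)]⟩,⟨0,[(28,0)]⟩⟩,⟨false,0,⟨0,[(0,
  0)]⟩,⟨1,[(1,1),(13,0),(14,0),(9,0)]⟩⟩,⟨true,0,⟨0,[(17,0)]⟩,⟨0,[(14,0)]⟩⟩,⟨false,0,⟨0,[]⟩,⟨0,[]⟩⟩,
  ⟨false,0,⟨0,[]⟩,⟨0,[]⟩⟩,[.o ⟨false,0,⟨0,[(37,0)]⟩,⟨5,[(12,1),(1,1),(0,1),(9,1),(7,0),(6,2)]⟩⟩,.a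
  ⟨true,0,⟨0,[(8,0)]⟩,⟨0,[(38,0)]⟩⟩ ⟨false,0,⟨13,[(0,1),(1,3),(4,2),(2,5),(8,0)]⟩,⟨1,[(15,0),(14,0),
  (8,0)]⟩⟩ ⟨true,0,⟨1,[(7,0),(1,0),(1,0)]⟩,⟨0,[(28,0),(9,0)]⟩⟩,.o ⟨false,1,⟨3,[(20,0),(0,0),(6,3),
  (10,1)]⟩,⟨0,[(9,0)]⟩⟩,.o ⟨false,0,⟨0,[(28,0)]⟩,⟨0,[(25,0),(13,0)]⟩⟩]⟩) (.Q [0,0,0,0,0,-2,0,0,0,1]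
  (.pp false [-1,1]) (.Q [0,0,0,-3,0,0,0,0,0,-1] (.pp true [-1,1]) (.R ⟨1,false,false,true,[1,-1],
  [0,1],[0,1,1],(⟨0,[(36,0)]⟩,⟨0,[(37,0)]⟩),(⟨0,[(37,0)]⟩,⟨0,[(36,0)]⟩),⟨0,[(1,0)]⟩,.k,.k,(.r (-1)
  ⟨10,[(0,0),(1,4),(14,6),(3,0),(0,1),(0,1),(7,1)]⟩ ⟨1,[(4,0),(4,0),(2,1),(17,0)]⟩),(.r (-1) ⟨10,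
  [(0,0),(1,4),(14,6),(3,0),(0,1),(0,1),(7,1)]⟩ ⟨1,[(4,0),(4,0),(2,1),(17,0)]⟩),(.r (-1) ⟨43,[(0,5),
  (1,29),(14,41),(3,5),(0,0),(0,0),(7,11)]⟩ ⟨3,[(4,2),(4,2),(2,5),(17,2)]⟩),.k,⟨true,0,⟨0,[(40,0)]⟩,
  ⟨3,[(4,0),(4,0),(2,1),(17,0)]⟩⟩,⟨false,1,⟨1,[(2,0),(6,0),(0,0),(6,0),(23,0)]⟩,⟨0,[(27,0),(2,0)]⟩⟩,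
  ⟨false,0,⟨0,[(12,0),(17,0)]⟩,⟨7,[(2,3),(3,1),(10,1),(23,0),(0,4)]⟩⟩,⟨false,0,⟨0,[(9,0)]⟩,⟨5,[(0,
  3),(21,0),(0,0),(11,0),(6,2)]⟩⟩,⟨false,0,⟨1,[(4,0),(4,0),(2,1),(17,0)]⟩,⟨5,[(0,0),(1,2),(14,2),
  (15,0),(0,0),(7,2)]⟩⟩,⟨true,0,⟨0,[(9,0),(29,0)]⟩,⟨0,[(0,0)]⟩⟩,[.o ⟨false,0,⟨0,[(39,0)]⟩,⟨11,[(0,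
  3),(21,0),(0,0),(11,3),(6,5)]⟩⟩,.a ⟨true,0,⟨0,[(10,0)]⟩,⟨0,[(40,0)]⟩⟩ ⟨true,0,⟨1,[(30,0),(0,0)]⟩,
  ⟨0,[]⟩⟩ ⟨false,1,⟨0,[(10,0),(30,0)]⟩,⟨2,[(0,0),(13,0),(12,0),(2,0)]⟩⟩,.o ⟨false,0,⟨0,[(14,0)]⟩,⟨3,
  [(22,0),(0,0),(17,1)]⟩⟩,.o ⟨false,0,⟨0,[(27,0),(2,0)]⟩,⟨0,[(41,0)]⟩⟩]⟩) (.Q [0,-1,0,0,0,0,1,1,-1,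
  0,-1,1] (.p false [0,0,1] [0,0,0,1] (⟨0,[(34,0)]⟩,⟨0,[(33,0)]⟩) .k 2 (⟨0,[(25,0)]⟩,⟨1,[(24,0),(8,
  0),(0,0)]⟩) .k (.x (-1) ⟨17,[(0,3),(3,6),(12,5),(3,2),(0,5),(0,5),(6,4),(3,17)]⟩ ⟨1,[(5,0),(5,0),
  (1,0),(4,0)]⟩)) (.R ⟨1,false,false,true,[1,0,0,-1],[1,0,-1],[1,1,0,0,0,0,0,0,-1],(⟨1,[(25,0),(8,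
  0),(0,0)]⟩,⟨0,[(26,0)]⟩),(⟨0,[(34,0)]⟩,⟨0,[(35,0)]⟩),⟨1,[(2,0),(22,0)]⟩,.k,.k,(.r 0 ⟨1,[(0,1),(7,
  1),(3,0),(1,0),(10,0)]⟩ ⟨11,[(1,1),(3,1),(7,5),(9,2),(0,8),(6,3)]⟩),.k,(.r 0 ⟨5,[(0,5),(2,3),(4,
  0),(16,2),(2,2),(1,2),(10,0),(3,1)]⟩ ⟨1,[(20,1),(3,0),(6,1),(11,0)]⟩),.k,⟨false,0,⟨5,[(0,5),(2,3),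
  (16,1),(4,2),(1,0),(0,1),(1,0),(9,1)]⟩,⟨1,[(9,1),(14,0),(18,0)]⟩⟩,⟨true,0,⟨1,[(12,0),(1,0),(10,
  0)]⟩,⟨0,[(26,0),(4,0)]⟩⟩,⟨false,0,⟨0,[]⟩,⟨3,[(23,0),(0,0),(18,1)]⟩⟩,⟨false,1,⟨1,[(24,0),(0,0),(1,
  0),(2,0),(12,0)]⟩,⟨0,[(0,0)]⟩⟩,⟨true,0,⟨0,[(40,0)]⟩,⟨0,[(41,0)]⟩⟩,⟨false,1,⟨3,[(1,0),(18,0),(3,1),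
  (0,1),(1,2),(15,1)]⟩,⟨0,[(0,0),(40,0)]⟩⟩,[.o ⟨false,0,⟨0,[(27,0)]⟩,⟨7,[(22,3),(0,0),(0,0),(11,1),
  (6,3)]⟩⟩,.o ⟨false,1,⟨1,[(30,1),(5,0),(6,0)]⟩,⟨0,[(16,0)]⟩⟩,.a ⟨true,0,⟨0,[(26,0)]⟩,⟨1,[(25,0),(8,
  0),(0,0)]⟩⟩ ⟨false,0,⟨1,[(0,1),(24,0),(1,0),(2,0)]⟩,⟨1,[(24,0),(18,0)]⟩⟩ ⟨true,0,⟨1,[(25,0),(1,0),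
  (2,0)]⟩,⟨0,[(16,0),(9,0)]⟩⟩,.o ⟨false,0,⟨0,[(15,0),(10,0)]⟩,⟨7,[(23,0),(0,0),(0,3),(10,1),(5,
  3)]⟩⟩]⟩) (.Q [0,-1,0,-1,0,0,1,1,1,0,-1,-1] (.p false [1,-1,1] [1,0,0,-1] (⟨0,[(35,0),(1,0)]⟩,⟨0,
  [(6,0)]⟩) .k 2 (⟨1,[(25,0),(8,0),(0,0)]⟩,⟨0,[(26,0)]⟩) .k (.x (-1) ⟨17,[(1,3),(3,6),(12,5),(3,2),
  (0,5),(0,5),(6,4),(3,17)]⟩ ⟨1,[(6,0),(5,0),(1,0),(4,0)]⟩)) (.Q [0,0,0,0,0,1,0,0,0,0,0,-1] (.p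
  false [0,0,0,1] [] (⟨0,[(27,0)]⟩,⟨1,[(26,0),(8,0),(0,0)]⟩) .k 0 (⟨0,[]⟩,⟨0,[]⟩) .k .k) (.R ⟨0,
  false,false,true,[0,0,0,1],[1,0,-1],[0,1,0,0,0,0,0,0,1],(⟨0,[(28,0)]⟩,⟨1,[(27,0),(8,0),(0,0)]⟩),
  (⟨0,[(36,0)]⟩,⟨0,[(37,0)]⟩),⟨0,[(0,0)]⟩,.k,.k,(.r 0 ⟨0,[(1,0),(7,0),(6,0),(11,0)]⟩ ⟨11,[(3,1),(3,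
  1),(7,5),(9,8),(0,2),(6,3)]⟩),.k,.k,.k,⟨false,0,⟨6,[(1,3),(0,2),(0,0),(2,5),(7,0),(13,6),(12,0)]⟩,
  ⟨1,[(11,1),(13,0),(19,0)]⟩⟩,⟨true,0,⟨0,[(14,0),(13,0)]⟩,⟨1,[(27,0),(5,1),(2,0),(0,0)]⟩⟩,⟨true,0,
  ⟨0,[(47,0)]⟩,⟨0,[]⟩⟩,⟨false,1,⟨1,[(25,0),(2,1),(0,1),(15,0)]⟩,⟨0,[(1,0),(11,0)]⟩⟩,⟨false,0,⟨0,[]⟩,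
  ⟨0,[]⟩⟩,⟨false,0,⟨0,[]⟩,⟨0,[]⟩⟩,[.o ⟨false,0,⟨0,[(29,0)]⟩,⟨7,[(24,3),(0,0),(0,0),(11,1),(6,3)]⟩⟩,
  .o ⟨false,1,⟨1,[(32,1),(5,0),(6,0)]⟩,⟨0,[(18,0)]⟩⟩,.a ⟨true,0,⟨1,[(27,0),(8,0),(0,0)]⟩,⟨0,[(28,
  0)]⟩⟩ ⟨false,0,⟨16,[(1,8),(0,7),(0,2),(3,0),(1,0),(4,1),(13,16)]⟩,⟨1,[(25,0),(19,0)]⟩⟩ ⟨true,0,⟨0,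
  [(28,0),(0,0)]⟩,⟨1,[(24,0),(2,0)]⟩⟩,.o ⟨false,0,⟨1,[(27,0),(2,0),(2,0)]⟩,⟨1,[(28,1),(9,0),(5,
  0)]⟩⟩]⟩) (.R ⟨1,false,false,true,[0,0,0,1],[1,0,-1],[1,1,0,0,0,0,0,0,1],(⟨0,[(28,0)]⟩,⟨1,[(27,0),
  (8,0),(0,0)]⟩),(⟨0,[(36,0)]⟩,⟨0,[(37,0)]⟩),⟨0,[(0,0)]⟩,.k,.k,(.r 0 ⟨0,[(1,0),(7,0),(6,0),(11,0)]⟩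
  ⟨11,[(3,1),(3,1),(7,5),(9,8),(0,2),(6,3)]⟩),.k,(.r 0 ⟨1,[(1,0),(0,0),(2,0),(22,1),(6,0)]⟩ ⟨1,[(22,
  1),(2,0),(7,1),(11,0)]⟩),.k,⟨false,0,⟨6,[(1,3),(0,2),(0,0),(2,5),(7,0),(13,6),(12,0)]⟩,⟨1,[(11,1),
  (13,0),(19,0)]⟩⟩,⟨true,0,⟨0,[(14,0),(13,0)]⟩,⟨1,[(27,0),(5,1),(2,0),(0,0)]⟩⟩,⟨false,0,⟨0,[]⟩,⟨3,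
  [(25,0),(0,0),(18,1)]⟩⟩,⟨false,1,⟨1,[(25,0),(2,1),(0,1),(15,0)]⟩,⟨0,[(1,0),(11,0)]⟩⟩,⟨true,0,⟨0,
  [(42,0)]⟩,⟨0,[(43,0)]⟩⟩,⟨false,1,⟨5,[(3,1),(3,0),(1,0),(4,1),(10,2),(2,5),(0,4),(15,2)]⟩,⟨0,[(1,
  0),(34,0),(0,0)]⟩⟩,[.o ⟨false,0,⟨0,[(29,0)]⟩,⟨7,[(24,3),(0,0),(0,0),(11,1),(6,3)]⟩⟩,.o ⟨false,1,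
  ⟨1,[(32,1),(5,0),(6,0)]⟩,⟨0,[(18,0)]⟩⟩,.a ⟨true,0,⟨1,[(27,0),(8,0),(0,0)]⟩,⟨0,[(28,0)]⟩⟩ ⟨false,0,
  ⟨16,[(1,8),(0,7),(0,2),(3,0),(1,0),(4,1),(13,16)]⟩,⟨1,[(25,0),(19,0)]⟩⟩ ⟨true,0,⟨0,[(28,0),(0,
  0)]⟩,⟨1,[(24,0),(2,0)]⟩⟩,.o ⟨false,0,⟨1,[(27,0),(2,0),(2,0)]⟩,⟨1,[(28,1),(9,0),(5,0)]⟩⟩]⟩)) (.I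
  [1,0,0,1,0,0,0,0,1] (.R ⟨1,false,false,false,[1,0,0,-1],[1,-1,1],[1,0,0,0,0,0,0,0,-1],(⟨1,[(27,0),
  (8,0),(0,0)]⟩,⟨0,[(28,0)]⟩),(⟨0,[(37,0),(1,0)]⟩,⟨0,[(8,0)]⟩),⟨1,[(4,0),(22,0)]⟩,.k,.k,(.r (-1)
  ⟨35,[(5,7),(13,3),(0,11),(4,20),(0,2),(7,3)]⟩ ⟨1,[(0,1),(32,0),(0,0)]⟩),(.r (-1) ⟨1,[(22,1),(2,0),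
  (7,1),(11,0)]⟩ ⟨2,[(0,2),(4,1),(13,0),(14,0),(8,2)]⟩),.k,.k,⟨false,1,⟨3,[(3,0),(3,0),(1,0),(1,1),
  (10,0),(2,1),(19,1)]⟩,⟨2,[(0,2),(4,1),(13,0),(14,0),(8,2)]⟩⟩,⟨true,0,⟨1,[(7,0),(19,0),(5,0)]⟩,⟨0,
  [(16,0),(11,0)]⟩⟩,⟨true,0,⟨0,[]⟩,⟨0,[(47,0)]⟩⟩,⟨true,0,⟨3,[(0,3),(4,0),(1,0),(9,0),(1,2),(7,1),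
  (15,3)]⟩,⟨0,[(1,0)]⟩⟩,⟨false,1,⟨5,[(3,1),(21,0),(0,0),(11,0),(6,2)]⟩,⟨0,[(43,0)]⟩⟩,⟨true,0,⟨3,[(0,
  3),(4,0),(1,0),(9,0),(1,2),(7,1)]⟩,⟨0,[(1,0),(41,0)]⟩⟩,[.o ⟨false,0,⟨1,[(5,0),(1,0),(9,0),(1,0)]⟩,
  ⟨3,[(22,3),(2,0),(0,0),(18,1)]⟩⟩,.o ⟨false,1,⟨1,[(19,1),(18,0),(6,0)]⟩,⟨0,[(22,0)]⟩⟩,.a ⟨true,0,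
  ⟨0,[(28,0)]⟩,⟨1,[(27,0),(8,0),(0,0)]⟩⟩ ⟨false,1,⟨1,[(25,0),(19,0)]⟩,⟨0,[(0,0),(42,0)]⟩⟩ ⟨true,0,
  ⟨3,[(5,0),(1,0),(9,0),(1,2),(7,1)]⟩,⟨0,[(22,0),(5,0)]⟩⟩,.o ⟨false,0,⟨0,[(17,0),(10,0)]⟩,⟨7,[(25,
  0),(0,0),(0,3),(10,1),(5,3)]⟩⟩]⟩) (.Q [0,1,0,1,0,0,-1,-1,1,0,1,-1] (.p true [0,0,1] [0,0,0,1] (⟨0,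
  [(37,0)]⟩,⟨0,[(36,0)]⟩) .k 2 (⟨0,[(28,0)]⟩,⟨1,[(27,0),(8,0),(0,0)]⟩) .k (.r 0 ⟨2,[(0,2),(2,0),(2,
  0),(10,0),(17,1)]⟩ ⟨1,[(11,1),(14,0),(18,0)]⟩)) (.R ⟨1,false,false,true,[1,0,0,-1],[1,0,-1],[0,1,
  0,-1,0,0,0,0,-1],(⟨1,[(28,0),(8,0),(0,0)]⟩,⟨0,[(29,0)]⟩),(⟨0,[(37,0)]⟩,⟨0,[(38,0)]⟩),⟨1,[(5,0),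
  (22,0)]⟩,.k,.k,(.x 0 ⟨1,[(5,0),(25,0),(2,0)]⟩ ⟨3,[(26,0),(0,0),(13,3),(3,1)]⟩),.k,(.r 0 ⟨0,[(1,0),
  (5,0)]⟩ ⟨1,[(23,1),(3,0),(6,1),(11,0)]⟩),.k,⟨false,0,⟨0,[(1,0),(5,0)]⟩,⟨3,[(4,0),(3,0),(1,0),(1,
  1),(10,0),(3,1),(18,1)]⟩⟩,⟨true,0,⟨1,[(15,0),(1,0),(10,0)]⟩,⟨0,[(29,0),(4,0)]⟩⟩,⟨false,0,⟨0,[(44,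
  0)]⟩,⟨5,[(4,1),(21,0),(0,0),(11,0),(6,2)]⟩⟩,⟨true,0,⟨0,[(3,0)]⟩,⟨2,[(1,2),(2,0),(2,0),(0,0),(10,
  1),(9,2)]⟩⟩,⟨true,0,⟨0,[(48,0)]⟩,⟨0,[]⟩⟩,⟨true,0,⟨0,[(0,0)]⟩,⟨0,[(1,0),(17,0),(9,0)]⟩⟩,[.o ⟨false,
  0,⟨0,[(30,0)]⟩,⟨7,[(25,3),(0,0),(0,0),(11,1),(6,3)]⟩⟩,.o ⟨false,1,⟨1,[(33,1),(5,0),(6,0)]⟩,⟨0,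
  [(19,0)]⟩⟩,.a ⟨true,0,⟨0,[(29,0)]⟩,⟨1,[(28,0),(8,0),(0,0)]⟩⟩ ⟨false,0,⟨0,[(1,0)]⟩,⟨8,[(0,0),(3,2),
  (1,0),(1,1),(6,0),(11,3),(1,0),(16,4)]⟩⟩ ⟨true,0,⟨1,[(28,0),(1,0),(2,0)]⟩,⟨0,[(19,0),(9,0)]⟩⟩,.o
  ⟨false,0,⟨0,[(18,0),(10,0)]⟩,⟨7,[(26,0),(0,0),(0,3),(10,1),(5,3)]⟩⟩]⟩) (.R ⟨1,true,false,true,[1,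
  0,0,-1],[1,0,-1],[0,1,0,-1,0,0,0,0,-1],(⟨1,[(28,0),(8,0),(0,0)]⟩,⟨0,[(29,0)]⟩),(⟨0,[(37,0)]⟩,⟨0,
  [(38,0)]⟩),⟨1,[(5,0),(22,0)]⟩,.k,.k,(.r 0 ⟨1,[(0,1),(9,1),(4,0),(1,0),(10,0)]⟩ ⟨11,[(4,1),(3,1),
  (7,5),(9,2),(0,8),(6,3)]⟩),.k,(.r 0 ⟨0,[(1,0),(5,0)]⟩ ⟨1,[(23,1),(3,0),(6,1),(11,0)]⟩),.k,⟨false,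
  0,⟨0,[(1,0),(5,0)]⟩,⟨3,[(4,0),(3,0),(1,0),(1,1),(10,0),(3,1),(18,1)]⟩⟩,⟨true,0,⟨1,[(15,0),(1,0),
  (10,0)]⟩,⟨0,[(29,0),(4,0)]⟩⟩,⟨false,0,⟨0,[(44,0)]⟩,⟨5,[(4,1),(21,0),(0,0),(11,0),(6,2)]⟩⟩,⟨true,0,
  ⟨0,[(3,0)]⟩,⟨6,[(0,4),(1,1),(1,0),(2,0),(0,0),(23,2)]⟩⟩,⟨true,0,⟨0,[(48,0)]⟩,⟨0,[]⟩⟩,⟨false,1,⟨5,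
  [(3,5),(0,1),(21,0),(0,0),(11,0),(6,2)]⟩,⟨0,[(0,0)]⟩⟩,[]⟩)))))) (.Q [0,0,0,0,0,0,-1,-1,-1,-1,1,1]
  (.p true [0,0,1] [1,0,0,-1] (⟨0,[(33,0)]⟩,⟨0,[(32,0)]⟩) .k 2 (⟨1,[(23,0),(8,0),(0,0)]⟩,⟨0,[(24,
  0)]⟩) .k (.x (-1) ⟨3,[(21,0),(0,0),(6,3),(3,3),(6,1)]⟩ ⟨1,[(4,0),(5,0),(1,0),(4,0)]⟩)) (.R ⟨0,
  false,false,true,[0,0,0,1],[1,0,-1],[1,0,0,0,0,0,0,0,1],(⟨0,[(25,0)]⟩,⟨1,[(24,0),(8,0),(0,0)]⟩),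
  (⟨0,[(33,0)]⟩,⟨0,[(34,0)]⟩),⟨1,[(1,0),(22,0)]⟩,.k,.k,(.r (-1) ⟨35,[(2,7),(13,3),(0,11),(4,2),(0,
  20),(7,3)]⟩ ⟨3,[(0,3),(3,0),(4,0),(2,1),(8,1),(2,1),(5,0)]⟩),.k,.k,.k,⟨false,1,⟨1,[(3,1),(19,0),
  (18,0)]⟩,⟨1,[(0,1),(7,1),(12,0),(2,0)]⟩⟩,⟨true,0,⟨0,[(11,0),(13,0)]⟩,⟨1,[(24,0),(5,1),(2,0),(0,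
  0)]⟩⟩,⟨true,0,⟨0,[]⟩,⟨0,[(44,0)]⟩⟩,⟨false,0,⟨0,[(0,0)]⟩,⟨1,[(21,0),(1,0),(0,0),(17,0)]⟩⟩,⟨false,0,
  ⟨0,[]⟩,⟨0,[]⟩⟩,⟨false,0,⟨0,[]⟩,⟨0,[]⟩⟩,[.o ⟨false,0,⟨0,[(26,0)]⟩,⟨7,[(21,3),(0,0),(0,0),(11,1),(6,
  3)]⟩⟩,.o ⟨false,1,⟨1,[(29,1),(5,0),(6,0)]⟩,⟨0,[(15,0)]⟩⟩,.a ⟨true,0,⟨1,[(24,0),(8,0),(0,0)]⟩,⟨0,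
  [(25,0)]⟩⟩ ⟨false,1,⟨1,[(23,0),(18,0)]⟩,⟨1,[(0,1),(20,0),(2,0)]⟩⟩ ⟨true,0,⟨0,[(25,0),(0,0)]⟩,⟨1,
  [(21,0),(2,0)]⟩⟩,.o ⟨false,0,⟨1,[(24,0),(2,0),(2,0)]⟩,⟨1,[(25,1),(9,0),(5,0)]⟩⟩]⟩) (.Q [0,0,0,1,0,
  0,-1,-1,1,1,1,-1] (.p true [1,-1,1] [0,0,0,1] (⟨0,[(34,0),(1,0)]⟩,⟨0,[(5,0)]⟩) .k 2 (⟨0,[(25,0)]⟩,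
  ⟨1,[(24,0),(8,0),(0,0)]⟩) .k (.x (-1) ⟨3,[(22,0),(0,0),(6,3),(3,3),(6,1)]⟩ ⟨1,[(5,0),(5,0),(1,0),
  (4,0)]⟩)) (.R ⟨0,false,false,false,[0,0,0,1],[1,-1,1],[0,1,0,0,0,0,0,0,1],(⟨0,[(26,0)]⟩,⟨1,[(25,
  0),(8,0),(0,0)]⟩),(⟨0,[(35,0),(1,0)]⟩,⟨0,[(6,0)]⟩),⟨1,[(2,0),(22,0)]⟩,.k,.k,(.r 0 ⟨0,[(0,0),(2,0),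
  (1,0),(20,0),(14,0)]⟩ ⟨3,[(5,0),(4,0),(2,1),(9,2),(0,0),(6,0)]⟩),(.r 0 ⟨0,[(0,0),(4,0),(20,0)]⟩
  ⟨11,[(3,7),(13,3),(5,8),(0,2),(7,3)]⟩),.k,.k,⟨false,0,⟨2,[(0,1),(0,0),(3,1),(1,0),(18,2),(0,0),
  (11,0)]⟩,⟨5,[(3,3),(13,1),(5,2),(8,1),(10,2)]⟩⟩,⟨true,0,⟨0,[(5,0),(20,0)]⟩,⟨1,[(14,1),(10,0),(8,
  0),(0,0)]⟩⟩,⟨true,0,⟨0,[(45,0)]⟩,⟨0,[]⟩⟩,⟨false,1,⟨1,[(3,0),(1,0),(9,0),(1,0),(5,0),(2,1),(16,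
  0)]⟩,⟨0,[(0,0)]⟩⟩,⟨false,0,⟨0,[]⟩,⟨0,[]⟩⟩,⟨false,0,⟨0,[]⟩,⟨0,[]⟩⟩,[.o ⟨false,0,⟨1,[(3,0),(1,0),(9,
  0),(1,0)]⟩,⟨3,[(20,3),(2,0),(0,0),(18,1)]⟩⟩,.o ⟨false,1,⟨1,[(17,1),(18,0),(6,0)]⟩,⟨0,[(20,0)]⟩⟩,
  .a ⟨true,0,⟨1,[(25,0),(8,0),(0,0)]⟩,⟨0,[(26,0)]⟩⟩ ⟨false,0,⟨3,[(0,2),(0,0),(1,1),(1,1),(9,1),(10,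
  3),(14,0)]⟩,⟨1,[(23,0),(19,0)]⟩⟩ ⟨true,0,⟨1,[(3,0),(1,0),(9,0),(1,0),(8,1)]⟩,⟨1,[(10,0),(14,0),(4,
  1)]⟩⟩,.o ⟨false,0,⟨1,[(25,0),(2,0),(2,0)]⟩,⟨1,[(26,1),(9,0),(5,0)]⟩⟩]⟩) (.I [0,0,1,1,0,0,0,0,-1]
  (.R ⟨0,false,false,false,[0,0,0,1],[1,0,-1],[0,0,1],(⟨0,[(27,0)]⟩,⟨1,[(26,0),(8,0),(0,0)]⟩),(⟨0,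
  [(35,0)]⟩,⟨0,[(36,0)]⟩),⟨1,[(3,0),(22,0)]⟩,.k,.k,(.r (-1) ⟨35,[(4,7),(13,3),(0,11),(4,2),(0,20),
  (7,3)]⟩ ⟨0,[(0,0)]⟩),.k,.k,.k,⟨false,0,⟨0,[(34,0)]⟩,⟨3,[(10,1),(0,1),(7,1),(17,0),(6,0)]⟩⟩,⟨true,
  0,⟨0,[(13,0),(13,0)]⟩,⟨1,[(26,0),(5,1),(2,0),(0,0)]⟩⟩,⟨true,0,⟨0,[(0,0),(41,0)]⟩,⟨0,[(2,0),(5,0),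
  (4,0),(13,0)]⟩⟩,⟨false,1,⟨0,[(0,0),(8,0),(3,0),(13,0),(16,0)]⟩,⟨0,[(2,0)]⟩⟩,⟨false,0,⟨0,[]⟩,⟨0,
  []⟩⟩,⟨false,0,⟨0,[]⟩,⟨0,[]⟩⟩,[.o ⟨false,1,⟨1,[(31,1),(5,0),(6,0)]⟩,⟨0,[(17,0)]⟩⟩,.o ⟨false,1,⟨0,
  [(28,0),(15,0)]⟩,⟨0,[(30,0)]⟩⟩,.a ⟨true,0,⟨1,[(26,0),(8,0),(0,0)]⟩,⟨0,[(27,0)]⟩⟩ ⟨true,0,⟨1,[(32,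
  0),(0,0)]⟩,⟨4,[(4,0),(4,0),(30,1),(5,1)]⟩⟩ ⟨false,1,⟨0,[(27,0),(0,0),(15,0)]⟩,⟨1,[(23,0),(2,0)]⟩⟩,
  .o ⟨false,0,⟨1,[(26,0),(2,0),(2,0)]⟩,⟨1,[(27,1),(9,0),(5,0)]⟩⟩]⟩) (.R ⟨0,false,false,false,[0,0,0,
  1],[1,-1],[0,1],(⟨0,[(27,0)]⟩,⟨1,[(26,0),(8,0),(0,0)]⟩),(⟨0,[(38,0)]⟩,⟨0,[(39,0)]⟩),⟨1,[(3,0),(22,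
  0)]⟩,.k,.k,(.x 0 ⟨0,[(16,0),(21,0)]⟩ ⟨3,[(24,0),(0,0),(13,3),(3,1)]⟩),(.r 0 ⟨1,[(0,1),(5,0),(4,0),
  (2,1),(17,0)]⟩ ⟨35,[(4,7),(13,3),(0,11),(4,20),(0,2),(7,3)]⟩),.k,.k,⟨false,0,⟨0,[(41,0)]⟩,⟨35,[(4,
  7),(13,3),(0,11),(4,2),(0,2),(7,3),(10,17)]⟩⟩,⟨true,0,⟨0,[(16,0),(10,0)]⟩,⟨1,[(26,0),(8,0),(0,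
  0)]⟩⟩,⟨true,0,⟨1,[(1,1),(9,0),(14,0),(4,1)]⟩,⟨3,[(0,3),(5,0),(4,0),(2,1),(17,0)]⟩⟩,⟨false,1,⟨0,
  [(1,0),(29,0),(12,0)]⟩,⟨3,[(0,3),(5,0),(4,2),(2,1),(11,1),(5,0)]⟩⟩,⟨false,0,⟨0,[]⟩,⟨0,[]⟩⟩,⟨false,
  0,⟨0,[]⟩,⟨0,[]⟩⟩,[.e ⟨false,0,⟨4,[(4,0),(4,0),(30,1),(5,1)]⟩,⟨3,[(24,0),(0,0),(18,1)]⟩⟩ ⟨false,1,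
  ⟨17,[(1,1),(2,3),(14,5),(4,1),(0,2),(1,15),(1,1),(7,6)]⟩,⟨1,[(11,0),(14,0)]⟩⟩,.o ⟨false,1,⟨5,[(16,
  1),(1,1),(0,1),(9,1),(7,0),(6,2)]⟩,⟨0,[(41,0)]⟩⟩,.a ⟨true,0,⟨1,[(26,0),(8,0),(0,0)]⟩,⟨0,[(27,
  0)]⟩⟩ ⟨true,0,⟨0,[(46,0)]⟩,⟨0,[]⟩⟩ ⟨false,1,⟨5,[(1,1),(14,1),(2,1),(5,0),(1,3),(1,1),(14,2)]⟩,⟨1,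
  [(11,0),(14,0)]⟩⟩,.o ⟨false,0,⟨1,[(26,0),(2,0),(2,0)]⟩,⟨1,[(27,1),(9,0),(5,0)]⟩⟩]⟩)))))))) (.K ⟨2,
  [0,-1,1],0,0,(⟨0,[(0,0)]⟩,⟨0,[(28,0),(3,0)]⟩),.k,(.x 0 ⟨0,[(0,0),(8,0),(15,0),(5,0)]⟩ ⟨0,[(6,0),
  (21,0),(3,1),(3,0)]⟩),.k,.k,.k,[⟨0,[(35,0)]⟩,⟨0,[(14,0)]⟩,⟨0,[(8,0)]⟩,⟨1,[(25,2),(0,0)]⟩]⟩))))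
  (.Q [0,0,0,0,0,1,0,0,0,0,-1] (.ed true [1,-1,1] .k) (.R ⟨0,false,false,true,[0,0,1],[1,-1],[0,1],
  (⟨0,[(27,0)]⟩,⟨0,[(26,0)]⟩),(⟨0,[(29,0)]⟩,⟨0,[(30,0)]⟩),⟨0,[(0,0)]⟩,.k,.k,.k,.k,.k,.k,⟨true,0,⟨2,
  [(2,0),(2,0),(1,0),(15,0)]⟩,⟨0,[(33,0)]⟩⟩,⟨false,0,⟨0,[(4,0)]⟩,⟨5,[(2,3),(7,3),(3,1),(0,0),(0,0),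
  (6,1)]⟩⟩,⟨false,1,⟨5,[(10,1),(1,3),(2,0),(0,0),(6,3),(11,1)]⟩,⟨0,[(1,0)]⟩⟩,⟨true,0,⟨0,[(19,0),(13,
  0)]⟩,⟨0,[(13,0)]⟩⟩,⟨false,0,⟨0,[]⟩,⟨0,[]⟩⟩,⟨false,0,⟨0,[]⟩,⟨0,[]⟩⟩,[.o ⟨false,0,⟨0,[(9,0),(9,0)]⟩,
  ⟨7,[(2,3),(12,0),(0,0),(11,1),(6,3)]⟩⟩,.a ⟨true,0,⟨0,[(33,0)]⟩,⟨0,[(3,0)]⟩⟩ ⟨false,1,⟨3,[(15,0),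
  (0,0),(17,1)]⟩,⟨0,[]⟩⟩ ⟨true,0,⟨0,[(4,0),(28,0)]⟩,⟨0,[(3,0),(19,0)]⟩⟩,.o ⟨false,1,⟨3,[(15,0),(0,
  0),(6,3),(10,1)]⟩,⟨0,[(4,0)]⟩⟩,.o ⟨false,0,⟨0,[(23,0)]⟩,⟨0,[(20,0),(13,0)]⟩⟩]⟩) (.K ⟨2,[0,-1,1],0,
  0,(⟨0,[(0,0)]⟩,⟨0,[(26,0),(3,0)]⟩),.k,(.x 0 ⟨3,[(0,5),(6,1),(3,1),(11,4),(0,0)]⟩ ⟨0,[(4,0),(21,0),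
  (3,1),(3,0)]⟩),.k,.k,.k,[⟨0,[(33,0)]⟩,⟨0,[(12,0)]⟩,⟨0,[(6,0)]⟩,⟨1,[(23,2),(0,0)]⟩]⟩)))) (.Q [0,0,
  0,0,0,1,0,0,0,0,-1] (.ed true [1,-1,1] .k) (.I [0,0,-2,-2,0,0,0,1] (.K ⟨2,[1,-1,1],0,0,(⟨0,[(26,
  0),(1,0)]⟩,⟨0,[(1,0)]⟩),.k,(.r 0 ⟨0,[(0,0)]⟩ ⟨7,[(4,3),(6,7),(2,0),(0,0),(6,11),(8,3),(2,5)]⟩),.k,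
  .k,.k,[⟨0,[(2,0)]⟩,⟨0,[(11,0),(13,0),(0,0)]⟩,⟨0,[(5,0),(19,0),(0,0)]⟩,⟨0,[(6,0),(15,0)]⟩]⟩) (.K
  ⟨2,[1,-1,1],0,0,(⟨0,[(26,0),(1,0)]⟩,⟨0,[(1,0)]⟩),.k,(.x 0 ⟨0,[(0,0),(1,1),(4,0),(18,0),(1,1)]⟩ ⟨0,
  [(1,0),(3,0),(23,0),(3,0)]⟩),.k,.k,.k,[⟨0,[(2,0)]⟩,⟨0,[(11,0),(13,0),(0,0)]⟩,⟨0,[(5,0),(19,0),(0,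
  0)]⟩,⟨0,[(6,0),(15,0)]⟩]⟩)) (.I [0,0,-2,-2,0,0,0,1] (.K ⟨2,[0,-1,1],0,0,(⟨0,[(1,0)]⟩,⟨0,[(25,0),
  (3,0)]⟩),.k,(.r 0 ⟨0,[(0,0)]⟩ ⟨7,[(4,3),(6,7),(2,0),(0,0),(6,11),(8,3),(2,5)]⟩),.k,.k,.k,[⟨0,[(32,
  0)]⟩,⟨0,[(11,0)]⟩,⟨0,[(5,0)]⟩,⟨1,[(22,2),(0,0)]⟩]⟩) (.K ⟨2,[0,-1,1],0,0,(⟨0,[(1,0)]⟩,⟨0,[(25,0),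
  (3,0)]⟩),.k,(.x 0 ⟨3,[(1,5),(4,1),(3,1),(11,4),(0,0)]⟩ ⟨0,[(3,0),(21,0),(3,1),(3,0)]⟩),.k,.k,.k,
  [⟨0,[(32,0)]⟩,⟨0,[(11,0)]⟩,⟨0,[(5,0)]⟩,⟨1,[(22,2),(0,0)]⟩]⟩)))) (.K ⟨0,[1,-1,-1],0,0,(⟨0,[(7,0)]⟩,
  ⟨0,[(23,0),(2,0)]⟩),.k,(.r (-1) ⟨0,[(6,0)]⟩ ⟨0,[(1,0),(1,0),(5,0)]⟩),.k,.k,.k,[⟨0,[(0,0)]⟩,⟨0,[(2,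
  0)]⟩,⟨0,[(9,0),(23,0)]⟩,⟨0,[(15,0),(13,0)]⟩]⟩)) (.Q [0,0,0,0,0,1,0,0,0,0,-1] (.ed true [1,-1,1]
  .k) (.K ⟨2,[1,-1,1],0,0,(⟨0,[(23,0),(1,0)]⟩,⟨0,[(0,0)]⟩),.k,(.r 0 ⟨0,[(1,1),(0,1),(18,0)]⟩ ⟨7,[(8,
  11),(0,3),(1,0),(0,0),(3,3),(2,11),(11,5)]⟩),.k,.k,.k,[⟨0,[(1,0),(14,0)]⟩,⟨0,[(8,0),(13,0),(0,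
  0)]⟩,⟨0,[(2,0),(19,0),(0,0)]⟩,⟨0,[(3,0),(15,0)]⟩]⟩) (.K ⟨2,[0,-1,1],0,0,(⟨0,[(0,0)]⟩,⟨0,[(22,0),
  (3,0)]⟩),.k,(.r 0 ⟨0,[(1,1),(0,1),(18,0)]⟩ ⟨7,[(8,11),(0,3),(1,0),(0,0),(3,3),(2,11),(11,5)]⟩),.k,
  .k,.k,[⟨0,[(29,0)]⟩,⟨0,[(8,0)]⟩,⟨0,[(2,0)]⟩,⟨1,[(19,2),(0,0)]⟩]⟩)))

theorem ok25 : chk (cU (-1) false 3) t25 l18 = true := by decide +kernel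

noncomputable def t27 : Tre :=
  (.Q [0,0,0,0,0,0,-1,-1,-1,-1,1,1] (.p true [0,0,1] [1,0,0,-1] (⟨0,[(23,0)]⟩,⟨0,[(22,0)]⟩) .k 2
  (⟨1,[(13,0),(8,0),(0,0)]⟩,⟨0,[(14,0)]⟩) .k (.x 0 ⟨0,[(2,0),(20,0)]⟩ ⟨3,[(11,0),(0,0),(3,3),(5,3),
  (7,1)]⟩)) (.Q [0,0,0,0,0,1,0,0,0,0,0,-1] (.p false [0,0,0,1] [] (⟨0,[(15,0)]⟩,⟨1,[(14,0),(8,0),(0,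
  0)]⟩) .k 0 (⟨0,[]⟩,⟨0,[]⟩) .k .k) (.R ⟨0,false,false,true,[0,0,0,1],[1,-1,-1],[0,0,0,-1,0,0,0,0,
  1],(⟨0,[(16,0)]⟩,⟨1,[(15,0),(8,0),(0,0)]⟩),(⟨0,[(9,0)]⟩,⟨0,[(25,0),(2,0)]⟩),⟨0,[(0,0)]⟩,.k,.k,(.r
  (-1) ⟨1,[(8,0),(5,0),(8,0)]⟩ ⟨3,[(1,3),(3,1),(5,3),(3,1),(5,0),(0,0)]⟩),(.r (-1) ⟨3,[(11,3),(1,0),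
  (0,2),(3,3)]⟩ ⟨0,[(2,0)]⟩),.k,.k,⟨false,1,⟨1,[(14,0),(8,1),(9,0)]⟩,⟨0,[(2,0),(27,0)]⟩⟩,⟨true,0,⟨0,
  [(16,0),(1,0)]⟩,⟨1,[(4,1),(10,0),(8,0),(0,0)]⟩⟩,⟨true,0,⟨0,[(31,0)]⟩,⟨0,[(30,0)]⟩⟩,⟨false,0,⟨0,
  [(1,0),(29,0)]⟩,⟨1,[(3,0),(7,0),(2,0),(0,0),(17,0)]⟩⟩,⟨false,0,⟨0,[]⟩,⟨0,[]⟩⟩,⟨false,0,⟨0,[]⟩,⟨0,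
  []⟩⟩,[.o ⟨false,0,⟨0,[(17,0),(13,0)]⟩,⟨3,[(3,3),(9,0),(0,0),(18,1)]⟩⟩,.o ⟨false,1,⟨7,[(5,3),(2,3),
  (4,0),(0,0),(3,3),(1,3),(12,1)]⟩,⟨0,[(3,0)]⟩⟩,.a ⟨true,0,⟨1,[(15,0),(8,0),(0,0)]⟩,⟨0,[(16,0)]⟩⟩
  ⟨false,1,⟨1,[(14,0),(16,1),(1,0)]⟩,⟨1,[(1,1),(1,0),(7,0),(3,0)]⟩⟩ ⟨true,0,⟨0,[(16,0),(0,0),(13,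
  0)]⟩,⟨1,[(3,0),(7,0),(3,0)]⟩⟩,.o ⟨false,0,⟨1,[(15,0),(2,0),(2,0)]⟩,⟨1,[(16,1),(9,0),(5,0)]⟩⟩]⟩)
  (.R ⟨1,false,false,false,[1,0,0,-1],[0,0,1],[1,1,0,0,0,0,0,0,-1],(⟨1,[(15,0),(8,0),(0,0)]⟩,⟨0,
  [(16,0)]⟩),(⟨0,[(25,0)]⟩,⟨0,[(24,0)]⟩),⟨0,[(0,0),(14,0)]⟩,.k,.k,(.r 0 ⟨0,[(2,0),(20,0)]⟩ ⟨7,[(5,
  3),(4,3),(0,3),(1,0),(0,4),(6,1),(0,1),(10,1)]⟩),.k,(.r 0 ⟨0,[(2,0)]⟩ ⟨3,[(11,3),(1,0),(0,2),(3,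
  3)]⟩),.k,⟨false,0,⟨0,[(2,0),(27,0)]⟩,⟨1,[(14,0),(8,1),(9,0)]⟩⟩,⟨true,0,⟨1,[(4,1),(10,0),(8,0),(0,
  0)]⟩,⟨0,[(16,0),(1,0)]⟩⟩,⟨false,0,⟨0,[]⟩,⟨3,[(13,0),(0,0),(18,1)]⟩⟩,⟨false,1,⟨1,[(12,0),(1,0),(0,
  0),(17,0)]⟩,⟨0,[(1,0)]⟩⟩,⟨true,0,⟨0,[(30,0)]⟩,⟨0,[(31,0)]⟩⟩,⟨false,1,⟨1,[(3,0),(7,0),(2,0),(0,0),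
  (17,0)]⟩,⟨0,[(1,0),(29,0)]⟩⟩,[.o ⟨false,0,⟨0,[(6,0)]⟩,⟨1,[(20,1),(5,0),(6,0)]⟩⟩,.o ⟨false,1,⟨7,
  [(12,3),(0,0),(0,0),(11,1),(6,3)]⟩,⟨0,[(17,0)]⟩⟩,.a ⟨true,0,⟨0,[(16,0)]⟩,⟨1,[(15,0),(8,0),(0,
  0)]⟩⟩ ⟨false,0,⟨1,[(1,1),(10,0),(2,0)]⟩,⟨1,[(14,0),(18,0)]⟩⟩ ⟨true,0,⟨1,[(12,0),(2,0)]⟩,⟨0,[(16,
  0),(0,0)]⟩⟩,.o ⟨false,0,⟨0,[(5,0),(10,0)]⟩,⟨7,[(13,0),(0,0),(0,3),(10,1),(5,3)]⟩⟩]⟩)) (.R ⟨1,true,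
  false,false,[1,0,-1],[0,0,0,1],[1,1,0,0,0,0,0,-1],(⟨0,[(23,0)]⟩,⟨0,[(24,0)]⟩),(⟨0,[(15,0)]⟩,⟨1,
  [(14,0),(8,0),(0,0)]⟩),⟨0,[(8,0)]⟩,.k,.k,.k,.k,(.r 0 ⟨0,[(1,0)]⟩ ⟨3,[(10,3),(1,0),(0,2),(3,3)]⟩),
  .k,⟨false,0,⟨0,[(1,0),(27,0)]⟩,⟨1,[(13,0),(8,1),(9,0)]⟩⟩,⟨true,0,⟨1,[(3,1),(10,0),(8,0),(0,0)]⟩,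
  ⟨0,[(15,0),(1,0)]⟩⟩,⟨false,0,⟨0,[]⟩,⟨3,[(12,0),(0,0),(18,1)]⟩⟩,⟨true,0,⟨0,[(0,0)]⟩,⟨0,[(1,0),(13,
  0),(1,0),(11,0)]⟩⟩,⟨true,0,⟨0,[(29,0)]⟩,⟨0,[(30,0)]⟩⟩,⟨false,1,⟨1,[(2,0),(7,0),(2,0),(0,0),(17,
  0)]⟩,⟨0,[(1,0),(13,0),(1,0)]⟩⟩,[]⟩))

theorem ok27 : chk (cU (-1) false 3) t27 l20 = true := by decide +kernel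

noncomputable def t29 : Tre :=
  (.Q [0,0,0,0,0,0,-1,0,0,1,1] (.p true [1,-1,1] [] (⟨0,[(25,0),(1,0)]⟩,⟨0,[(0,0)]⟩) .k 0 (⟨0,[]⟩,
  ⟨0,[]⟩) .k .k) (.K ⟨0,[1,-1,1],0,0,(⟨0,[(26,0),(1,0)]⟩,⟨0,[(1,0)]⟩),.k,(.x 0 ⟨0,[(5,0),(0,1),(19,
  0),(1,1)]⟩ ⟨1,[(1,1),(0,1),(8,1),(17,1),(3,0),(0,0)]⟩),.k,.k,.k,[⟨0,[(0,0)]⟩,⟨0,[(5,0)]⟩,⟨0,[(11,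
  0),(13,0),(0,0)]⟩,⟨1,[(2,0),(2,0),(0,0),(1,0),(9,0),(1,0)]⟩]⟩) (.Q [0,0,0,0,0,0,-1,-1,1,0,1,-1]
  (.p true [0,0,1] [0,0,0,1] (⟨0,[(26,0)]⟩,⟨0,[(25,0)]⟩) .k 2 (⟨0,[(17,0)]⟩,⟨1,[(16,0),(8,0),(0,
  0)]⟩) .k (.x 0 ⟨0,[(5,0),(20,0)]⟩ ⟨3,[(14,0),(0,0),(3,3),(5,3),(7,1)]⟩)) (.Q [0,0,0,0,0,1,0,0,0,0,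
  0,-1] (.p false [0,0,0,1] [] (⟨0,[(18,0)]⟩,⟨1,[(17,0),(8,0),(0,0)]⟩) .k 0 (⟨0,[]⟩,⟨0,[]⟩) .k .k)
  (.R ⟨0,false,false,false,[0,0,0,1],[0,0,1],[0,1,0,0,0,0,0,0,1],(⟨0,[(19,0)]⟩,⟨1,[(18,0),(8,0),(0,
  0)]⟩),(⟨0,[(28,0)]⟩,⟨0,[(27,0)]⟩),⟨0,[(0,0)]⟩,.k,.k,(.r 0 ⟨0,[(1,0),(2,0),(2,0),(11,0)]⟩ ⟨3,[(5,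
  1),(7,1),(2,2),(7,1),(11,0)]⟩),.k,.k,.k,⟨false,0,⟨1,[(1,1),(2,0),(2,2),(11,1),(3,0),(8,0)]⟩,⟨1,
  [(16,0),(9,1),(9,0)]⟩⟩,⟨true,0,⟨0,[(7,0),(11,0)]⟩,⟨1,[(18,0),(2,0),(3,0)]⟩⟩,⟨true,0,⟨0,[(38,0)]⟩,
  ⟨0,[]⟩⟩,⟨false,1,⟨1,[(9,1),(6,0),(2,1),(16,0)]⟩,⟨0,[(1,0)]⟩⟩,⟨false,0,⟨0,[]⟩,⟨0,[]⟩⟩,⟨false,0,⟨0,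
  []⟩,⟨0,[]⟩⟩,[.o ⟨false,0,⟨0,[(9,0)]⟩,⟨1,[(23,1),(5,0),(6,0)]⟩⟩,.o ⟨false,1,⟨7,[(15,3),(0,0),(0,0),
  (11,1),(6,3)]⟩,⟨0,[(20,0)]⟩⟩,.a ⟨true,0,⟨1,[(18,0),(8,0),(0,0)]⟩,⟨0,[(19,0)]⟩⟩ ⟨false,0,⟨6,[(1,5),
  (0,1),(1,0),(0,0),(9,1),(3,5)]⟩,⟨1,[(16,0),(19,0)]⟩⟩ ⟨true,0,⟨0,[(9,0),(9,0)]⟩,⟨1,[(18,0),(1,0),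
  (2,0)]⟩⟩,.o ⟨false,0,⟨1,[(18,0),(2,0),(2,0)]⟩,⟨1,[(19,1),(9,0),(5,0)]⟩⟩]⟩) (.R ⟨1,false,false,
  false,[0,0,0,1],[0,0,1],[1,1,0,0,0,0,0,0,1],(⟨0,[(19,0)]⟩,⟨1,[(18,0),(8,0),(0,0)]⟩),(⟨0,[(28,0)]⟩,
  ⟨0,[(27,0)]⟩),⟨0,[(0,0)]⟩,.k,.k,(.r 0 ⟨0,[(1,0),(2,0),(2,0),(11,0)]⟩ ⟨3,[(5,1),(7,1),(2,2),(7,1),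
  (11,0)]⟩),.k,(.x 0 ⟨0,[(12,0),(8,0)]⟩ ⟨0,[(24,0),(3,0),(2,0),(3,0)]⟩),.k,⟨false,0,⟨1,[(1,1),(2,0),
  (2,2),(11,1),(3,0),(8,0)]⟩,⟨1,[(16,0),(9,1),(9,0)]⟩⟩,⟨true,0,⟨0,[(7,0),(11,0)]⟩,⟨1,[(18,0),(2,0),
  (3,0)]⟩⟩,⟨false,0,⟨0,[]⟩,⟨3,[(16,0),(0,0),(18,1)]⟩⟩,⟨false,1,⟨1,[(9,1),(6,0),(2,1),(16,0)]⟩,⟨0,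
  [(1,0)]⟩⟩,⟨true,0,⟨0,[(33,0)]⟩,⟨0,[(34,0)]⟩⟩,⟨false,1,⟨1,[(6,1),(9,0),(2,1),(16,0)]⟩,⟨0,[(1,0),
  (32,0)]⟩⟩,[.o ⟨false,0,⟨0,[(9,0)]⟩,⟨1,[(23,1),(5,0),(6,0)]⟩⟩,.o ⟨false,1,⟨7,[(15,3),(0,0),(0,0),
  (11,1),(6,3)]⟩,⟨0,[(20,0)]⟩⟩,.a ⟨true,0,⟨1,[(18,0),(8,0),(0,0)]⟩,⟨0,[(19,0)]⟩⟩ ⟨false,0,⟨6,[(1,5),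
  (0,1),(1,0),(0,0),(9,1),(3,5)]⟩,⟨1,[(16,0),(19,0)]⟩⟩ ⟨true,0,⟨0,[(9,0),(9,0)]⟩,⟨1,[(18,0),(1,0),
  (2,0)]⟩⟩,.o ⟨false,0,⟨1,[(18,0),(2,0),(2,0)]⟩,⟨1,[(19,1),(9,0),(5,0)]⟩⟩]⟩)) (.I [0,0,0,1,0,0,0,0,
  -1] (.Q [0,0,0,-1,0,0,-1,-1,-1,-1,1,1] (.p true [0,0,1] [1,0,0,-1] (⟨0,[(28,0)]⟩,⟨0,[(27,0)]⟩) .k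
  2 (⟨1,[(18,0),(8,0),(0,0)]⟩,⟨0,[(19,0)]⟩) .k (.x 0 ⟨0,[(7,0),(20,0)]⟩ ⟨3,[(16,0),(0,0),(3,3),(5,
  3),(7,1)]⟩)) (.Q [0,0,0,0,0,1,0,0,0,0,0,-1] (.p false [0,0,0,1] [] (⟨0,[(20,0)]⟩,⟨1,[(19,0),(8,0),
  (0,0)]⟩) .k 0 (⟨0,[]⟩,⟨0,[]⟩) .k .k) (.R ⟨0,false,false,true,[0,0,0,1],[1,-1,-1],[1,0,0,-1,0,0,0,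
  0,1],(⟨0,[(21,0)]⟩,⟨1,[(20,0),(8,0),(0,0)]⟩),(⟨0,[(14,0)]⟩,⟨0,[(30,0),(2,0)]⟩),⟨0,[(0,0)]⟩,.k,.k,
  (.r (-1) ⟨11,[(6,3),(6,3),(4,0),(0,6)]⟩ ⟨1,[(2,1),(23,0),(0,0)]⟩),(.x (-1) ⟨0,[(26,0),(3,0),(2,0),
  (3,0)]⟩ ⟨0,[(14,0),(8,0)]⟩),.k,.k,⟨false,1,⟨1,[(19,0),(8,1),(9,0)]⟩,⟨1,[(1,1),(7,1),(10,0),(8,0),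
  (0,0),(3,1)]⟩⟩,⟨true,0,⟨0,[(21,0),(1,0)]⟩,⟨1,[(9,1),(10,0),(8,0),(0,0)]⟩⟩,⟨true,0,⟨0,[(36,0)]⟩,⟨0,
  [(35,0)]⟩⟩,⟨false,0,⟨0,[(1,0)]⟩,⟨1,[(8,0),(7,0),(2,0),(0,0),(17,0)]⟩⟩,⟨false,0,⟨0,[]⟩,⟨0,[]⟩⟩,
  ⟨false,0,⟨0,[]⟩,⟨0,[]⟩⟩,[.o ⟨false,0,⟨0,[(22,0),(13,0)]⟩,⟨3,[(8,3),(9,0),(0,0),(18,1)]⟩⟩,.o
  ⟨false,1,⟨7,[(10,3),(2,3),(4,0),(0,0),(3,3),(1,3),(12,1)]⟩,⟨0,[(8,0)]⟩⟩,.a ⟨true,0,⟨1,[(20,0),(8,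
  0),(0,0)]⟩,⟨0,[(21,0)]⟩⟩ ⟨false,1,⟨1,[(19,0),(16,1),(1,0)]⟩,⟨0,[(2,0)]⟩⟩ ⟨true,0,⟨0,[(21,0),(0,0),
  (13,0)]⟩,⟨1,[(8,0),(7,0),(3,0)]⟩⟩,.o ⟨false,0,⟨1,[(20,0),(2,0),(2,0)]⟩,⟨1,[(21,1),(9,0),(5,
  0)]⟩⟩]⟩) (.Q [0,0,0,0,0,0,1,1,1,1,-1,-1] (.p false [0,0,1] [1,0,0,-1] (⟨0,[(30,0)]⟩,⟨0,[(29,0)]⟩)
  .k 2 (⟨1,[(20,0),(8,0),(0,0)]⟩,⟨0,[(21,0)]⟩) .k (.x 0 ⟨0,[(9,0),(20,0)]⟩ ⟨3,[(18,0),(0,0),(3,3),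
  (5,3),(7,1)]⟩)) (.R ⟨1,true,false,false,[1,0,-1],[0,0,0,1],[1,1,0,0,0,0,0,-1],(⟨0,[(30,0)]⟩,⟨0,
  [(31,0)]⟩),(⟨0,[(22,0)]⟩,⟨1,[(21,0),(8,0),(0,0)]⟩),⟨0,[(15,0)]⟩,.k,.k,.k,.k,(.x 0 ⟨0,[(15,0),(8,
  0)]⟩ ⟨0,[(27,0),(3,0),(2,0),(3,0)]⟩),.k,⟨false,0,⟨1,[(2,1),(7,1),(10,0),(8,0),(0,0),(3,1)]⟩,⟨1,
  [(20,0),(8,1),(9,0)]⟩⟩,⟨true,0,⟨1,[(10,1),(10,0),(8,0),(0,0)]⟩,⟨0,[(22,0),(1,0)]⟩⟩,⟨false,0,⟨0,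
  []⟩,⟨3,[(19,0),(0,0),(18,1)]⟩⟩,⟨true,0,⟨0,[(0,0)]⟩,⟨0,[(2,0),(33,0)]⟩⟩,⟨true,0,⟨0,[(36,0)]⟩,⟨0,
  [(37,0)]⟩⟩,⟨false,1,⟨1,[(9,0),(7,0),(2,0),(0,0),(17,0)]⟩,⟨0,[(2,0)]⟩⟩,[]⟩) (.R ⟨1,false,false,
  false,[1,0,0,-1],[0,0,1],[1,1,0,0,0,0,0,0,-1],(⟨1,[(21,0),(8,0),(0,0)]⟩,⟨0,[(22,0)]⟩),(⟨0,[(31,
  0)]⟩,⟨0,[(30,0)]⟩),⟨0,[(1,0),(19,0)]⟩,.k,.k,(.r 0 ⟨1,[(0,1),(6,1),(2,1),(10,0),(8,0),(0,0)]⟩ ⟨3,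
  [(8,1),(7,1),(2,0),(0,1),(6,1),(11,0)]⟩),.k,(.x 0 ⟨0,[(15,0),(8,0)]⟩ ⟨0,[(27,0),(3,0),(2,0),(3,
  0)]⟩),.k,⟨false,0,⟨1,[(2,1),(7,1),(10,0),(8,0),(0,0),(3,1)]⟩,⟨1,[(20,0),(8,1),(9,0)]⟩⟩,⟨true,0,⟨1,
  [(10,1),(10,0),(8,0),(0,0)]⟩,⟨0,[(22,0),(1,0)]⟩⟩,⟨false,0,⟨0,[]⟩,⟨3,[(19,0),(0,0),(18,1)]⟩⟩,
  ⟨false,1,⟨1,[(18,0),(1,0),(0,0),(17,0)]⟩,⟨0,[(0,0)]⟩⟩,⟨true,0,⟨0,[(36,0)]⟩,⟨0,[(37,0)]⟩⟩,⟨false,1,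
  ⟨1,[(9,0),(7,0),(2,0),(0,0),(17,0)]⟩,⟨0,[(2,0)]⟩⟩,[.o ⟨false,0,⟨0,[(12,0)]⟩,⟨1,[(26,1),(5,0),(6,
  0)]⟩⟩,.o ⟨false,1,⟨7,[(18,3),(0,0),(0,0),(11,1),(6,3)]⟩,⟨0,[(23,0)]⟩⟩,.a ⟨true,0,⟨0,[(22,0)]⟩,⟨1,
  [(21,0),(8,0),(0,0)]⟩⟩ ⟨false,0,⟨2,[(2,0),(0,0),(0,0),(16,0)]⟩,⟨1,[(20,0),(18,0)]⟩⟩ ⟨true,0,⟨1,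
  [(18,0),(2,0)]⟩,⟨0,[(22,0),(0,0)]⟩⟩,.o ⟨false,0,⟨0,[(11,0),(10,0)]⟩,⟨7,[(19,0),(0,0),(0,3),(10,1),
  (5,3)]⟩⟩]⟩))) (.Q [0,1,0,0,-1,0,1,1,-1,0,-1,1] (.p false [0,0,1] [0,0,0,1] (⟨0,[(29,0)]⟩,⟨0,[(28,
  0)]⟩) .k 2 (⟨0,[(20,0)]⟩,⟨1,[(19,0),(8,0),(0,0)]⟩) .k (.r 0 ⟨3,[(1,1),(0,1),(2,1),(13,0),(2,0),(3,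
  0)]⟩ ⟨1,[(8,1),(9,0),(5,1),(12,0)]⟩)) (.Q [0,-1,0,-1,1,0,-1,-1,1,0,1,-1] (.p true [0,0,1] [0,0,0,
  1] (⟨0,[(30,0)]⟩,⟨0,[(29,0)]⟩) .k 2 (⟨0,[(21,0)]⟩,⟨1,[(20,0),(8,0),(0,0)]⟩) .k (.r 0 ⟨5,[(0,1),(1,
  1),(3,1),(11,0),(1,0),(2,0),(3,0),(0,1),(9,0)]⟩ ⟨1,[(9,1),(9,0),(5,1),(12,0)]⟩)) (.R ⟨1,true,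
  false,true,[1,0,-1],[1,0,0,-1],[0,1,0,-1,0,0,0,-1],(⟨0,[(30,0)]⟩,⟨0,[(31,0)]⟩),(⟨1,[(21,0),(8,0),
  (0,0)]⟩,⟨0,[(22,0)]⟩),⟨0,[(15,0)]⟩,.k,.k,.k,.k,(.r (-1) ⟨1,[(0,0),(1,0),(2,0),(8,0),(7,1),(3,0)]⟩
  ⟨1,[(3,1),(14,0),(5,0),(3,0)]⟩),.k,⟨false,1,⟨1,[(0,0),(1,0),(2,0),(8,0),(7,1),(3,0)]⟩,⟨0,[(3,0),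
  (25,0)]⟩⟩,⟨true,0,⟨0,[(10,0),(11,0)]⟩,⟨1,[(21,0),(2,0),(3,0)]⟩⟩,⟨false,0,⟨0,[(37,0)]⟩,⟨0,[(36,0),
  (2,0)]⟩⟩,⟨true,(-1),⟨0,[(1,0)]⟩,⟨15,[(0,7),(15,7),(2,0),(0,4),(0,3),(10,1)]⟩⟩,⟨true,0,⟨0,[(41,
  0)]⟩,⟨0,[]⟩⟩,⟨false,0,⟨1,[(3,0),(0,0),(4,0),(12,0)]⟩,⟨0,[(0,0)]⟩⟩,[]⟩) (.Q [0,0,0,0,0,-1,0,0,0,1,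
  0,-1] (.p false [0,0,0,1] [1] (⟨0,[(22,0)]⟩,⟨1,[(21,0),(8,0),(0,0)]⟩) .k 1 (⟨0,[]⟩,⟨0,[]⟩) .k .k)
  (.I [0,-1,-1,-1,1,0,0,-1,-1] (.R ⟨1,false,false,true,[1,0,0,-1],[0,0,1],[0,0,0,-1,0,0,0,0,-1],(⟨1,
  [(23,0),(8,0),(0,0)]⟩,⟨0,[(24,0)]⟩),(⟨0,[(33,0)]⟩,⟨0,[(32,0)]⟩),⟨0,[(1,0)]⟩,.k,.k,(.x 0 ⟨0,[(13,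
  0),(21,0)]⟩ ⟨3,[(21,0),(0,0),(13,3),(3,1)]⟩),.k,(.r (-1) ⟨30,[(0,10),(2,1),(3,0),(8,12),(1,5),(2,
  8),(1,0),(4,2),(0,5)]⟩ ⟨0,[(4,0),(19,0),(1,0)]⟩),.k,⟨false,1,⟨0,[(0,0)]⟩,⟨6,[(3,0),(0,0),(4,1),(0,
  4),(11,0),(2,0),(2,0),(8,2),(5,0)]⟩⟩,⟨true,0,⟨1,[(12,1),(10,0),(8,0),(0,0)]⟩,⟨0,[(24,0),(1,0)]⟩⟩,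
  ⟨true,0,⟨0,[(39,0)]⟩,⟨0,[(38,0)]⟩⟩,⟨false,0,⟨0,[(4,0),(34,0)]⟩,⟨1,[(0,0),(4,0),(18,1),(0,0),(0,0),
  (14,0)]⟩⟩,⟨false,1,⟨3,[(21,0),(0,0),(18,1)]⟩,⟨0,[]⟩⟩,⟨false,0,⟨0,[(4,0)]⟩,⟨0,[(0,0),(23,0),(1,
  0)]⟩⟩,[.o ⟨false,0,⟨0,[(27,0)]⟩,⟨0,[(25,0),(15,0)]⟩⟩,.o ⟨false,0,⟨0,[(14,0)]⟩,⟨1,[(28,1),(5,0),(6,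
  0)]⟩⟩,.a ⟨true,0,⟨0,[(24,0)]⟩,⟨1,[(23,0),(8,0),(0,0)]⟩⟩ ⟨true,0,⟨3,[(0,1),(2,1),(19,0),(2,0),(3,
  0),(8,1)]⟩,⟨0,[(4,0),(19,0),(0,0)]⟩⟩ ⟨false,0,⟨1,[(20,0),(2,0)]⟩,⟨0,[(24,0),(0,0),(15,0)]⟩⟩,.o
  ⟨false,0,⟨0,[(13,0),(10,0)]⟩,⟨7,[(21,0),(0,0),(0,3),(10,1),(5,3)]⟩⟩]⟩) (.R ⟨1,false,false,false,
  [1,0,0,-1],[1,-1,-1],[0,0,0,-1,0,0,0,0,-1],(⟨1,[(23,0),(8,0),(0,0)]⟩,⟨0,[(24,0)]⟩),(⟨0,[(17,0)]⟩,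
  ⟨0,[(33,0),(2,0)]⟩),⟨0,[(1,0)]⟩,.k,.k,(.x 0 ⟨0,[(13,0),(21,0)]⟩ ⟨3,[(21,0),(0,0),(13,3),(3,1)]⟩),
  (.r 0 ⟨2,[(2,1),(7,0),(10,0),(1,0),(2,0),(3,0),(10,0)]⟩ ⟨0,[(0,0),(11,0),(3,0),(11,0),(12,0)]⟩),
  .k,.k,⟨false,0,⟨5,[(3,1),(1,1),(3,1),(11,0),(1,0),(2,0),(3,0),(0,1),(9,0)]⟩,⟨0,[(0,0),(11,0),(3,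
  0),(1,0),(22,0)]⟩⟩,⟨true,0,⟨1,[(23,0),(2,0),(3,0)]⟩,⟨0,[(12,0),(11,0)]⟩⟩,⟨true,0,⟨0,[(39,0)]⟩,⟨0,
  [(38,0)]⟩⟩,⟨true,1,⟨1,[(22,0),(0,0),(1,0),(2,0),(10,1),(1,0)]⟩,⟨0,[(2,0)]⟩⟩,⟨false,1,⟨3,[(21,0),
  (0,0),(18,1)]⟩,⟨0,[]⟩⟩,⟨true,1,⟨1,[(22,0),(0,0),(1,0),(2,0),(12,0)]⟩,⟨0,[(3,0)]⟩⟩,[.o ⟨false,1,⟨7,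
  [(13,3),(2,3),(4,0),(0,0),(3,3),(1,3),(12,1)]⟩,⟨0,[(11,0)]⟩⟩,.o ⟨false,1,⟨0,[(25,0),(13,0),(1,
  0)]⟩,⟨1,[(11,0),(15,0),(10,0)]⟩⟩,.a ⟨true,0,⟨0,[(24,0)]⟩,⟨1,[(23,0),(8,0),(0,0)]⟩⟩ ⟨true,0,⟨0,[(5,
  0),(33,1)]⟩,⟨2,[(0,0),(11,0),(5,0),(3,0),(14,0)]⟩⟩ ⟨false,1,⟨1,[(23,0),(1,0),(2,0),(10,1),(1,1)]⟩,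
  ⟨0,[(11,0),(12,0)]⟩⟩,.o ⟨false,0,⟨0,[(13,0),(10,0)]⟩,⟨7,[(21,0),(0,0),(0,3),(10,1),(5,3)]⟩⟩]⟩))
  (.R ⟨0,false,false,true,[0,0,0,1],[0,0,1],[0,1],(⟨0,[(23,0)]⟩,⟨1,[(22,0),(8,0),(0,0)]⟩),(⟨0,[(32,
  0)]⟩,⟨0,[(31,0)]⟩),⟨0,[(0,0),(21,0)]⟩,.k,.k,(.r (-1) ⟨11,[(8,3),(6,3),(4,0),(0,6)]⟩ ⟨1,[(4,1),(23,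
  0),(0,0)]⟩),.k,.k,.k,⟨false,1,⟨11,[(11,7),(3,3),(1,7),(2,0),(0,0),(17,1),(0,3)]⟩,⟨0,[(30,0)]⟩⟩,
  ⟨true,0,⟨0,[(11,0),(11,0)]⟩,⟨1,[(22,0),(2,0),(3,0)]⟩⟩,⟨false,0,⟨0,[(4,0),(33,0)]⟩,⟨1,[(21,0),(18,
  0)]⟩⟩,⟨true,(-1),⟨0,[(2,0)]⟩,⟨1,[(21,0),(0,0),(1,0),(2,0),(12,0)]⟩⟩,⟨false,0,⟨0,[]⟩,⟨0,[]⟩⟩,
  ⟨false,0,⟨0,[]⟩,⟨0,[]⟩⟩,[.o ⟨false,0,⟨0,[(26,0)]⟩,⟨0,[(24,0),(15,0)]⟩⟩,.o ⟨false,0,⟨0,[(13,0)]⟩,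
  ⟨1,[(27,1),(5,0),(6,0)]⟩⟩,.a ⟨true,0,⟨1,[(22,0),(8,0),(0,0)]⟩,⟨0,[(23,0)]⟩⟩ ⟨true,0,⟨0,[(42,0)]⟩,
  ⟨0,[]⟩⟩ ⟨false,0,⟨1,[(2,1),(18,0),(18,0)]⟩,⟨1,[(22,0),(1,0),(2,0),(12,1)]⟩⟩,.o ⟨false,0,⟨1,[(22,
  0),(2,0),(2,0)]⟩,⟨1,[(23,1),(9,0),(5,0)]⟩⟩]⟩))) (.Q [0,0,0,0,0,1,0,0,0,0,0,-1] (.p false [0,0,0,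
  1] [] (⟨0,[(21,0)]⟩,⟨1,[(20,0),(8,0),(0,0)]⟩) .k 0 (⟨0,[]⟩,⟨0,[]⟩) .k .k) (.R ⟨0,false,false,true,
  [0,0,0,1],[0,0,1],[0,1,0,0,0,0,0,0,1],(⟨0,[(22,0)]⟩,⟨1,[(21,0),(8,0),(0,0)]⟩),(⟨0,[(31,0)]⟩,⟨0,
  [(30,0)]⟩),⟨0,[(0,0)]⟩,.k,.k,(.r (-1) ⟨11,[(7,3),(6,3),(4,0),(0,6)]⟩ ⟨1,[(3,1),(23,0),(0,0)]⟩),.k,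
  .k,.k,⟨false,1,⟨1,[(1,0),(0,0),(2,0),(8,0),(1,0),(5,1)]⟩,⟨3,[(3,1),(0,1),(2,1),(13,0),(2,0),(3,
  0)]⟩⟩,⟨true,0,⟨0,[(10,0),(11,0)]⟩,⟨1,[(21,0),(2,0),(3,0)]⟩⟩,⟨true,0,⟨0,[(41,0)]⟩,⟨0,[]⟩⟩,⟨false,0,
  ⟨0,[(4,0)]⟩,⟨0,[(1,0)]⟩⟩,⟨false,0,⟨0,[]⟩,⟨0,[]⟩⟩,⟨false,0,⟨0,[]⟩,⟨0,[]⟩⟩,[.o ⟨false,0,⟨0,[(25,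
  0)]⟩,⟨0,[(23,0),(15,0)]⟩⟩,.o ⟨false,0,⟨0,[(12,0)]⟩,⟨1,[(26,1),(5,0),(6,0)]⟩⟩,.a ⟨true,0,⟨1,[(21,
  0),(8,0),(0,0)]⟩,⟨0,[(22,0)]⟩⟩ ⟨true,0,⟨0,[(2,0),(19,0),(0,0),(13,0)]⟩,⟨0,[(3,0),(33,0)]⟩⟩ ⟨false,
  0,⟨6,[(4,0),(0,1),(1,0),(0,0),(9,1),(3,5)]⟩,⟨1,[(21,0),(1,0),(2,0),(12,1)]⟩⟩,.o ⟨false,0,⟨1,[(21,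
  0),(2,0),(2,0)]⟩,⟨1,[(22,1),(9,0),(5,0)]⟩⟩]⟩) (.R ⟨1,false,false,true,[0,0,0,1],[0,0,1],[0,1,0,-1,
  0,0,0,0,1],(⟨0,[(22,0)]⟩,⟨1,[(21,0),(8,0),(0,0)]⟩),(⟨0,[(31,0)]⟩,⟨0,[(30,0)]⟩),⟨0,[(0,0)]⟩,.k,.k,
  (.r (-1) ⟨11,[(7,3),(6,3),(4,0),(0,6)]⟩ ⟨1,[(3,1),(23,0),(0,0)]⟩),.k,(.r (-1) ⟨1,[(1,0),(0,0),(2,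
  0),(8,0),(7,1),(3,0),(10,0)]⟩ ⟨1,[(3,1),(14,0),(5,0),(3,0)]⟩),.k,⟨false,1,⟨1,[(1,0),(0,0),(2,0),
  (8,0),(7,1),(3,0),(10,0)]⟩,⟨0,[(3,0),(25,0)]⟩⟩,⟨true,0,⟨0,[(10,0),(11,0)]⟩,⟨1,[(21,0),(2,0),(3,
  0)]⟩⟩,⟨false,0,⟨0,[(37,0)]⟩,⟨0,[(36,0),(2,0)]⟩⟩,⟨false,0,⟨0,[(4,0)]⟩,⟨0,[(1,0)]⟩⟩,⟨true,0,⟨0,[(41,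
  0)]⟩,⟨0,[]⟩⟩,⟨false,0,⟨1,[(3,0),(0,0),(4,0),(12,0)]⟩,⟨0,[(1,0),(35,0)]⟩⟩,[.o ⟨false,0,⟨0,[(25,
  0)]⟩,⟨0,[(23,0),(15,0)]⟩⟩,.o ⟨false,0,⟨0,[(12,0)]⟩,⟨1,[(26,1),(5,0),(6,0)]⟩⟩,.a ⟨true,0,⟨1,[(21,
  0),(8,0),(0,0)]⟩,⟨0,[(22,0)]⟩⟩ ⟨true,0,⟨0,[(2,0),(19,0),(0,0),(13,1)]⟩,⟨0,[(3,0)]⟩⟩ ⟨false,0,⟨6,
  [(4,0),(0,1),(1,0),(0,0),(9,1),(3,5)]⟩,⟨1,[(21,0),(1,0),(2,0),(12,1)]⟩⟩,.o ⟨false,0,⟨1,[(21,0),(2,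
  0),(2,0)]⟩,⟨1,[(22,1),(9,0),(5,0)]⟩⟩]⟩)))) (.Q [0,0,0,1,0,0,1,1,1,1,-1,-1] (.p false [0,0,1] [1,0,
  0,-1] (⟨0,[(28,0)]⟩,⟨0,[(27,0)]⟩) .k 2 (⟨1,[(18,0),(8,0),(0,0)]⟩,⟨0,[(19,0)]⟩) .k (.x 0 ⟨0,[(7,0),
  (20,0)]⟩ ⟨3,[(16,0),(0,0),(3,3),(5,3),(7,1)]⟩)) (.I [0,1,-1,-1,0,0,0,-1,1] (.Q [0,0,0,0,0,1,0,0,0,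
  0,0,-1] (.p false [0,0,0,1] [] (⟨0,[(21,0)]⟩,⟨1,[(20,0),(8,0),(0,0)]⟩) .k 0 (⟨0,[]⟩,⟨0,[]⟩) .k
  .k) (.I [0,1,-1,-1,0,0,0,-1,-1] (.I [1,0,1,1] (.I [1,1,-2,-1,0,0,0,0,1] (.Q [0,0,0,-1,0,0,0,0,-1,
  -1,0,1] (.p true [0,0,0,1] [1] (⟨0,[(25,0)]⟩,⟨1,[(24,0),(8,0),(0,0)]⟩) .k 1 (⟨0,[]⟩,⟨0,[]⟩) .k
  .k) (.R ⟨0,false,false,false,[0,0,0,1],[1,-1,-1],[0,0,1],(⟨0,[(26,0)]⟩,⟨1,[(25,0),(8,0),(0,0)]⟩),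
  (⟨0,[(19,0)]⟩,⟨0,[(35,0),(2,0)]⟩),⟨0,[(4,0)]⟩,.k,.k,(.x 0 ⟨0,[(15,0),(21,0)]⟩ ⟨3,[(23,0),(0,0),
  (13,3),(3,1)]⟩),(.r 0 ⟨0,[(6,0),(19,0),(1,0)]⟩ ⟨9,[(3,3),(14,3),(1,1),(2,2),(7,1),(11,2)]⟩),.k,.k,
  ⟨false,0,⟨0,[(21,0),(6,0)]⟩,⟨3,[(3,0),(1,0),(12,1),(20,1),(3,1)]⟩⟩,⟨true,0,⟨0,[(26,0),(1,0)]⟩,⟨1,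
  [(14,1),(10,0),(8,0),(0,0)]⟩⟩,⟨true,0,⟨1,[(0,1),(1,1),(22,0),(8,0),(0,0)]⟩,⟨2,[(1,0),(3,0),(6,0),
  (26,0)]⟩⟩,⟨false,1,⟨0,[(0,0),(29,0),(12,0)]⟩,⟨0,[(6,0)]⟩⟩,⟨false,0,⟨0,[]⟩,⟨0,[]⟩⟩,⟨false,0,⟨0,[]⟩,
  ⟨0,[]⟩⟩,[.o ⟨false,1,⟨7,[(15,3),(2,3),(4,0),(0,0),(3,3),(1,3),(12,1)]⟩,⟨0,[(13,0)]⟩⟩,.o ⟨false,1,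
  ⟨1,[(3,0),(1,0),(22,1),(14,1)]⟩,⟨1,[(13,0),(15,0),(10,0)]⟩⟩,.a ⟨true,0,⟨1,[(25,0),(8,0),(0,0)]⟩,
  ⟨0,[(26,0)]⟩⟩ ⟨true,0,⟨1,[(31,0),(0,0)]⟩,⟨6,[(1,0),(1,0),(7,0),(27,2),(5,1)]⟩⟩ ⟨false,1,⟨1,[(0,0),
  (4,0),(20,0),(1,0),(1,0),(12,1)]⟩,⟨1,[(13,0),(7,0),(3,0)]⟩⟩,.o ⟨false,0,⟨1,[(25,0),(2,0),(2,0)]⟩,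
  ⟨1,[(26,1),(9,0),(5,0)]⟩⟩]⟩) (.I [0,0,-1,-1,0,0,0,0,1] (.R ⟨0,false,false,false,[0,0,0,1],[0,0,1],
  [],(⟨0,[(27,0)]⟩,⟨1,[(26,0),(8,0),(0,0)]⟩),(⟨0,[(36,0)]⟩,⟨0,[(35,0)]⟩),⟨0,[(5,0)]⟩,.k,.k,(.r 0 ⟨0,
  [(0,0)]⟩ ⟨3,[(3,3),(20,2),(0,0)]⟩),.k,.k,.k,⟨false,1,⟨11,[(15,7),(3,3),(1,7),(2,0),(0,0),(17,1),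
  (0,3)]⟩,⟨0,[(34,0)]⟩⟩,⟨true,0,⟨0,[(15,0),(11,0)]⟩,⟨1,[(26,0),(2,0),(3,0)]⟩⟩,⟨false,1,⟨1,[(24,0),
  (19,0)]⟩,⟨1,[(0,0),(0,0),(14,0),(10,0)]⟩⟩,⟨true,0,⟨0,[(9,0)]⟩,⟨3,[(1,1),(4,1),(19,0),(1,0),(0,1),
  (1,0)]⟩⟩,⟨false,0,⟨0,[]⟩,⟨0,[]⟩⟩,⟨false,0,⟨0,[]⟩,⟨0,[]⟩⟩,[.o ⟨false,0,⟨0,[(17,0)]⟩,⟨1,[(31,1),(5,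
  0),(6,0)]⟩⟩,.o ⟨false,1,⟨7,[(23,3),(0,0),(0,0),(11,1),(6,3)]⟩,⟨0,[(28,0)]⟩⟩,.a ⟨true,0,⟨1,[(26,0),
  (8,0),(0,0)]⟩,⟨0,[(27,0)]⟩⟩ ⟨false,1,⟨3,[(24,0),(0,0),(18,1)]⟩,⟨0,[]⟩⟩ ⟨true,0,⟨4,[(0,0),(8,1),(0,
  0),(2,0),(9,0),(3,2)]⟩,⟨1,[(26,0),(1,0),(2,0)]⟩⟩,.o ⟨false,0,⟨1,[(26,0),(2,0),(2,0)]⟩,⟨1,[(27,1),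
  (9,0),(5,0)]⟩⟩]⟩) (.R ⟨0,false,false,true,[0,0,0,1],[0,0,1],[1,0,0,-1,0,0,0,0,1],(⟨0,[(27,0)]⟩,⟨1,
  [(26,0),(8,0),(0,0)]⟩),(⟨0,[(36,0)]⟩,⟨0,[(35,0)]⟩),⟨0,[(5,0)]⟩,.k,.k,(.x 0 ⟨0,[(16,0),(21,0)]⟩ ⟨3,
  [(24,0),(0,0),(13,3),(3,1)]⟩),.k,.k,.k,⟨false,1,⟨0,[(6,0),(37,0)]⟩,⟨2,[(0,1),(3,0),(29,3),(5,0),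
  (0,0)]⟩⟩,⟨true,0,⟨0,[(15,0),(11,0)]⟩,⟨1,[(26,0),(2,0),(3,0)]⟩⟩,⟨true,0,⟨0,[(42,0)]⟩,⟨0,[(41,0)]⟩⟩,
  ⟨false,0,⟨0,[(9,0)]⟩,⟨3,[(1,1),(4,1),(19,0),(1,0),(0,1),(1,0),(12,3)]⟩⟩,⟨false,0,⟨0,[]⟩,⟨0,[]⟩⟩,
  ⟨false,0,⟨0,[]⟩,⟨0,[]⟩⟩,[.o ⟨false,0,⟨0,[(30,0)]⟩,⟨0,[(28,0),(15,0)]⟩⟩,.o ⟨false,0,⟨0,[(17,0)]⟩,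
  ⟨1,[(31,1),(5,0),(6,0)]⟩⟩,.a ⟨true,0,⟨1,[(26,0),(8,0),(0,0)]⟩,⟨0,[(27,0)]⟩⟩ ⟨true,0,⟨0,[(8,0)]⟩,
  ⟨2,[(0,1),(3,0),(29,0),(5,0),(0,0)]⟩⟩ ⟨false,0,⟨6,[(9,0),(0,1),(1,0),(0,0),(9,1),(3,5)]⟩,⟨1,[(26,
  0),(1,0),(2,0),(12,1)]⟩⟩,.o ⟨false,0,⟨1,[(26,0),(2,0),(2,0)]⟩,⟨1,[(27,1),(9,0),(5,0)]⟩⟩]⟩))) (.R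
  ⟨0,false,false,false,[0,0,0,1],[1,-1,-1],[0,0,1],(⟨0,[(25,0)]⟩,⟨1,[(24,0),(8,0),(0,0)]⟩),(⟨0,[(18,
  0)]⟩,⟨0,[(34,0),(2,0)]⟩),⟨0,[(3,0)]⟩,.k,.k,(.r (-1) ⟨11,[(10,3),(6,3),(4,0),(0,6)]⟩ ⟨7,[(0,4),(1,
  0),(4,1),(11,0),(4,0),(2,0),(10,1),(0,0)]⟩),(.r 0 ⟨0,[(5,0),(19,0),(1,0)]⟩ ⟨9,[(2,3),(14,3),(1,1),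
  (2,2),(7,1),(11,2)]⟩),.k,.k,⟨false,0,⟨2,[(0,0),(10,0),(20,1),(6,0)]⟩,⟨3,[(2,0),(1,0),(12,1),(20,
  1),(3,1)]⟩⟩,⟨true,0,⟨0,[(25,0),(1,0)]⟩,⟨1,[(13,1),(10,0),(8,0),(0,0)]⟩⟩,⟨true,0,⟨15,[(0,7),(1,5),
  (4,1),(8,1),(7,0),(2,0),(0,1),(2,4)]⟩,⟨0,[(6,0),(31,0)]⟩⟩,⟨false,1,⟨0,[(2,0),(22,0),(1,0),(14,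
  0)]⟩,⟨0,[(5,0)]⟩⟩,⟨false,0,⟨0,[]⟩,⟨0,[]⟩⟩,⟨false,0,⟨0,[]⟩,⟨0,[]⟩⟩,[.o ⟨false,1,⟨5,[(0,1),(16,3),
  (5,0),(3,3),(1,1),(5,0)]⟩,⟨0,[(12,0)]⟩⟩,.o ⟨false,1,⟨1,[(2,0),(1,0),(22,1),(14,1)]⟩,⟨1,[(12,0),
  (15,0),(10,0)]⟩⟩,.a ⟨true,0,⟨1,[(24,0),(8,0),(0,0)]⟩,⟨0,[(25,0)]⟩⟩ ⟨true,0,⟨1,[(30,0),(0,0)]⟩,⟨7,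
  [(2,0),(1,0),(5,1),(27,3),(5,1)]⟩⟩ ⟨false,1,⟨1,[(2,0),(1,0),(20,1),(1,1),(14,1)]⟩,⟨1,[(12,0),(7,
  0),(3,0)]⟩⟩,.o ⟨false,0,⟨1,[(24,0),(2,0),(2,0)]⟩,⟨1,[(25,1),(9,0),(5,0)]⟩⟩]⟩)) (.I [0,0,-1,-1,0,0,
  0,0,1] (.Q [0,0,0,-1,0,0,0,0,-1,-1,0,1] (.p true [0,0,0,1] [1] (⟨0,[(25,0)]⟩,⟨1,[(24,0),(8,0),(0,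
  0)]⟩) .k 1 (⟨0,[]⟩,⟨0,[]⟩) .k .k) (.R ⟨0,false,false,false,[0,0,0,1],[0,0,1],[0,1,0,-1,0,0,0,0,1],
  (⟨0,[(26,0)]⟩,⟨1,[(25,0),(8,0),(0,0)]⟩),(⟨0,[(35,0)]⟩,⟨0,[(34,0)]⟩),⟨0,[(4,0)]⟩,.k,.k,(.r 0 ⟨0,
  [(1,0)]⟩ ⟨3,[(12,1),(7,1),(2,2),(7,1),(11,0)]⟩),.k,.k,.k,⟨false,0,⟨0,[(5,0)]⟩,⟨1,[(8,1),(11,0),(4,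
  0),(2,0),(4,0),(5,0),(3,1)]⟩⟩,⟨true,0,⟨0,[(14,0),(11,0)]⟩,⟨1,[(25,0),(2,0),(3,0)]⟩⟩,⟨false,0,⟨0,
  [(41,0)]⟩,⟨0,[(40,0),(2,0)]⟩⟩,⟨true,0,⟨0,[(8,0)]⟩,⟨1,[(1,0),(5,0),(7,0),(4,1),(4,0)]⟩⟩,⟨false,0,
  ⟨0,[]⟩,⟨0,[]⟩⟩,⟨false,0,⟨0,[]⟩,⟨0,[]⟩⟩,[.o ⟨false,0,⟨0,[(16,0)]⟩,⟨1,[(30,1),(5,0),(6,0)]⟩⟩,.o
  ⟨false,1,⟨7,[(22,3),(0,0),(0,0),(11,1),(6,3)]⟩,⟨0,[(27,0)]⟩⟩,.a ⟨true,0,⟨1,[(25,0),(8,0),(0,0)]⟩,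
  ⟨0,[(26,0)]⟩⟩ ⟨false,0,⟨0,[(1,0),(7,0),(9,1),(8,0),(6,1),(2,1)]⟩,⟨1,[(0,0),(7,0),(4,0),(6,1),(4,
  0),(17,1)]⟩⟩ ⟨true,0,⟨4,[(1,0),(6,1),(0,0),(2,0),(9,0),(3,2)]⟩,⟨1,[(25,0),(1,0),(2,0)]⟩⟩,.o
  ⟨false,0,⟨1,[(25,0),(2,0),(2,0)]⟩,⟨1,[(26,1),(9,0),(5,0)]⟩⟩]⟩) (.R ⟨0,false,false,false,[0,0,0,1],
  [0,0,1],[],(⟨0,[(26,0)]⟩,⟨1,[(25,0),(8,0),(0,0)]⟩),(⟨0,[(35,0)]⟩,⟨0,[(34,0)]⟩),⟨0,[(4,0)]⟩,.k,.k,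
  (.r 0 ⟨0,[(1,0)]⟩ ⟨3,[(12,1),(7,1),(2,2),(7,1),(11,0)]⟩),.k,.k,.k,⟨false,1,⟨11,[(14,7),(3,3),(1,
  7),(2,0),(0,0),(17,1),(0,3)]⟩,⟨0,[(33,0)]⟩⟩,⟨true,0,⟨0,[(14,0),(11,0)]⟩,⟨1,[(25,0),(2,0),(3,0)]⟩⟩,
  ⟨false,1,⟨1,[(23,0),(19,0)]⟩,⟨1,[(0,0),(0,0),(13,0),(10,0)]⟩⟩,⟨true,0,⟨0,[(8,0)]⟩,⟨3,[(0,1),(4,1),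
  (19,0),(1,0),(0,1),(1,0)]⟩⟩,⟨false,0,⟨0,[]⟩,⟨0,[]⟩⟩,⟨false,0,⟨0,[]⟩,⟨0,[]⟩⟩,[.o ⟨false,0,⟨0,[(16,
  0)]⟩,⟨1,[(30,1),(5,0),(6,0)]⟩⟩,.o ⟨false,1,⟨7,[(22,3),(0,0),(0,0),(11,1),(6,3)]⟩,⟨0,[(27,0)]⟩⟩,.a
  ⟨true,0,⟨1,[(25,0),(8,0),(0,0)]⟩,⟨0,[(26,0)]⟩⟩ ⟨false,1,⟨3,[(23,0),(0,0),(18,1)]⟩,⟨0,[]⟩⟩ ⟨true,0,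
  ⟨4,[(1,0),(6,1),(0,0),(2,0),(9,0),(3,2)]⟩,⟨1,[(25,0),(1,0),(2,0)]⟩⟩,.o ⟨false,0,⟨1,[(25,0),(2,0),
  (2,0)]⟩,⟨1,[(26,1),(9,0),(5,0)]⟩⟩]⟩)) (.R ⟨0,false,false,false,[0,0,0,1],[1,-1],[1,1],(⟨0,[(25,
  0)]⟩,⟨1,[(24,0),(8,0),(0,0)]⟩),(⟨0,[(36,0)]⟩,⟨0,[(37,0)]⟩),⟨0,[(3,0)]⟩,.k,.k,(.x 0 ⟨0,[(14,0),(21,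
  0)]⟩ ⟨3,[(22,0),(0,0),(13,3),(3,1)]⟩),(.r (-1) ⟨0,[(0,0),(22,0)]⟩ ⟨0,[(0,0),(0,1)]⟩),.k,.k,⟨false,
  0,⟨0,[(39,0)]⟩,⟨11,[(10,3),(6,3),(4,0),(0,0),(18,5)]⟩⟩,⟨true,0,⟨0,[(14,0),(10,0)]⟩,⟨1,[(24,0),(8,
  0),(0,0)]⟩⟩,⟨false,0,⟨0,[(0,0),(0,0)]⟩,⟨1,[(23,0),(18,0)]⟩⟩,⟨true,0,⟨0,[(0,0),(0,1),(12,0),(10,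
  0)]⟩,⟨0,[(5,0),(23,0)]⟩⟩,⟨false,0,⟨0,[]⟩,⟨0,[]⟩⟩,⟨false,0,⟨0,[]⟩,⟨0,[]⟩⟩,[.o ⟨false,0,⟨0,[(1,0),
  (12,0)]⟩,⟨3,[(22,0),(0,0),(15,3),(2,1)]⟩⟩,.o ⟨false,1,⟨5,[(14,1),(1,1),(0,1),(9,1),(7,0),(6,2)]⟩,
  ⟨0,[(39,0)]⟩⟩,.a ⟨true,0,⟨1,[(24,0),(8,0),(0,0)]⟩,⟨0,[(25,0)]⟩⟩ ⟨false,0,⟨0,[]⟩,⟨3,[(22,0),(0,0),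
  (18,1)]⟩⟩ ⟨true,0,⟨0,[(1,0),(12,0),(10,0)]⟩,⟨1,[(20,0),(3,0),(4,0),(9,0)]⟩⟩,.o ⟨false,0,⟨1,[(24,
  0),(2,0),(2,0)]⟩,⟨1,[(25,1),(9,0),(5,0)]⟩⟩]⟩))) (.R ⟨0,false,false,false,[0,0,0,1],[0,0,1],[],(⟨0,
  [(23,0)]⟩,⟨1,[(22,0),(8,0),(0,0)]⟩),(⟨0,[(32,0)]⟩,⟨0,[(31,0)]⟩),⟨0,[(1,0)]⟩,.k,.k,(.x 0 ⟨0,[(12,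
  0),(21,0)]⟩ ⟨3,[(20,0),(0,0),(13,3),(3,1)]⟩),.k,.k,.k,⟨false,1,⟨11,[(11,7),(3,3),(1,7),(2,0),(0,
  0),(17,1),(0,3)]⟩,⟨0,[(30,0)]⟩⟩,⟨true,0,⟨0,[(11,0),(11,0)]⟩,⟨1,[(22,0),(2,0),(3,0)]⟩⟩,⟨false,1,⟨1,
  [(20,0),(19,0)]⟩,⟨1,[(0,0),(1,0)]⟩⟩,⟨true,0,⟨0,[(5,0)]⟩,⟨3,[(0,0),(1,2),(14,1),(4,1),(2,1)]⟩⟩,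
  ⟨false,0,⟨0,[]⟩,⟨0,[]⟩⟩,⟨false,0,⟨0,[]⟩,⟨0,[]⟩⟩,[.o ⟨false,0,⟨0,[(13,0)]⟩,⟨1,[(27,1),(5,0),(6,
  0)]⟩⟩,.o ⟨false,1,⟨7,[(19,3),(0,0),(0,0),(11,1),(6,3)]⟩,⟨0,[(24,0)]⟩⟩,.a ⟨true,0,⟨1,[(22,0),(8,0),
  (0,0)]⟩,⟨0,[(23,0)]⟩⟩ ⟨false,1,⟨3,[(20,0),(0,0),(18,1)]⟩,⟨0,[]⟩⟩ ⟨true,0,⟨1,[(0,0),(1,0),(2,1)]⟩,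
  ⟨1,[(22,0),(1,0),(2,0)]⟩⟩,.o ⟨false,0,⟨1,[(22,0),(2,0),(2,0)]⟩,⟨1,[(23,1),(9,0),(5,0)]⟩⟩]⟩)) (.Q
  [0,0,0,-1,0,0,-1,-1,1,0,1,-1] (.p true [0,0,1] [0,0,0,1] (⟨0,[(31,0)]⟩,⟨0,[(30,0)]⟩) .k 2 (⟨0,
  [(22,0)]⟩,⟨1,[(21,0),(8,0),(0,0)]⟩) .k (.x 0 ⟨0,[(10,0),(20,0)]⟩ ⟨3,[(19,0),(0,0),(3,3),(5,3),(7,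
  1)]⟩)) (.R ⟨1,true,false,false,[1,0,-1],[1,0,0,-1],[0,1,0,-1,0,0,0,-1],(⟨0,[(31,0)]⟩,⟨0,[(32,
  0)]⟩),(⟨1,[(22,0),(8,0),(0,0)]⟩,⟨0,[(23,0)]⟩),⟨0,[(16,0)]⟩,.k,.k,.k,.k,(.x 0 ⟨0,[(16,0),(8,0)]⟩
  ⟨0,[(28,0),(3,0),(2,0),(3,0)]⟩),.k,⟨false,0,⟨0,[(2,0)]⟩,⟨1,[(5,1),(11,0),(4,0),(2,0),(4,0),(5,0),
  (3,1)]⟩⟩,⟨true,0,⟨0,[(11,0),(11,0)]⟩,⟨1,[(22,0),(2,0),(3,0)]⟩⟩,⟨false,0,⟨0,[(38,0)]⟩,⟨0,[(37,0),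
  (2,0)]⟩⟩,⟨true,0,⟨0,[(5,0)]⟩,⟨0,[(0,0),(36,0)]⟩⟩,⟨true,0,⟨0,[(42,0)]⟩,⟨0,[]⟩⟩,⟨false,1,⟨0,[(5,0),
  (31,0),(2,0)]⟩,⟨0,[(0,0)]⟩⟩,[]⟩) (.I [0,0,0,0,0,0,0,0,-1] (.R ⟨1,false,false,false,[1,0,0,-1],[0,
  0,1],[0,1,0,-1,0,0,0,0,-1],(⟨1,[(23,0),(8,0),(0,0)]⟩,⟨0,[(24,0)]⟩),(⟨0,[(33,0)]⟩,⟨0,[(32,0)]⟩),⟨0,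
  [(2,0),(20,0)]⟩,.k,.k,(.x 0 ⟨0,[(13,0),(21,0)]⟩ ⟨3,[(21,0),(0,0),(13,3),(3,1)]⟩),.k,(.r (-1) ⟨5,
  [(0,3),(15,3),(1,1),(2,0),(7,1),(11,0)]⟩ ⟨0,[(2,0),(1,0),(21,0),(9,0)]⟩),.k,⟨false,0,⟨0,[(0,1),(2,
  0)]⟩,⟨1,[(10,1),(29,0),(0,0)]⟩⟩,⟨true,0,⟨1,[(12,1),(10,0),(8,0),(0,0)]⟩,⟨0,[(24,0),(1,0)]⟩⟩,
  ⟨false,0,⟨0,[(39,0)]⟩,⟨0,[(38,0),(2,0)]⟩⟩,⟨true,0,⟨3,[(4,1),(0,1),(14,0),(2,0)]⟩,⟨0,[(0,0),(23,0),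
  (0,0)]⟩⟩,⟨true,0,⟨0,[(43,0)]⟩,⟨0,[]⟩⟩,⟨true,0,⟨0,[(4,0)]⟩,⟨0,[(0,0),(23,0),(0,0),(13,0)]⟩⟩,[.o
  ⟨false,0,⟨0,[(14,0)]⟩,⟨1,[(28,1),(5,0),(6,0)]⟩⟩,.o ⟨false,1,⟨7,[(20,3),(0,0),(0,0),(11,1),(6,3)]⟩,
  ⟨0,[(25,0)]⟩⟩,.a ⟨true,0,⟨0,[(24,0)]⟩,⟨1,[(23,0),(8,0),(0,0)]⟩⟩ ⟨false,0,⟨0,[(0,0),(38,0)]⟩,⟨9,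
  [(3,1),(0,1),(2,1),(2,3),(7,3),(3,0),(1,1),(12,1),(3,8)]⟩⟩ ⟨true,0,⟨1,[(20,0),(2,0)]⟩,⟨0,[(24,0),
  (0,0)]⟩⟩,.o ⟨false,0,⟨0,[(13,0),(10,0)]⟩,⟨7,[(21,0),(0,0),(0,3),(10,1),(5,3)]⟩⟩]⟩) (.R ⟨1,false,
  false,false,[0,0,0,1],[0,0,1],[0,1,0,-1,0,0,0,0,1],(⟨0,[(24,0)]⟩,⟨1,[(23,0),(8,0),(0,0)]⟩),(⟨0,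
  [(33,0)]⟩,⟨0,[(32,0)]⟩),⟨0,[(2,0)]⟩,.k,.k,(.x 0 ⟨0,[(13,0),(21,0)]⟩ ⟨3,[(21,0),(0,0),(13,3),(3,
  1)]⟩),.k,(.r (-1) ⟨9,[(3,3),(12,3),(1,1),(3,2),(6,1),(11,2)]⟩ ⟨1,[(1,1),(21,0),(2,0),(3,0)]⟩),.k,
  ⟨false,0,⟨0,[(3,0)]⟩,⟨3,[(1,1),(16,0),(2,0),(1,0),(2,0),(4,2),(5,0),(3,2)]⟩⟩,⟨true,0,⟨0,[(12,0),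
  (11,0)]⟩,⟨1,[(23,0),(2,0),(3,0)]⟩⟩,⟨false,0,⟨0,[(39,0)]⟩,⟨0,[(38,0),(2,0)]⟩⟩,⟨true,0,⟨0,[(6,0)]⟩,
  ⟨1,[(0,0),(2,0),(14,0),(4,0),(2,0)]⟩⟩,⟨true,0,⟨0,[(43,0)]⟩,⟨0,[]⟩⟩,⟨true,0,⟨0,[(1,0)]⟩,⟨1,[(3,1),
  (19,0),(2,0),(3,0)]⟩⟩,[.o ⟨false,0,⟨0,[(14,0)]⟩,⟨1,[(28,1),(5,0),(6,0)]⟩⟩,.o ⟨false,1,⟨7,[(20,3),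
  (0,0),(0,0),(11,1),(6,3)]⟩,⟨0,[(25,0)]⟩⟩,.a ⟨true,0,⟨1,[(23,0),(8,0),(0,0)]⟩,⟨0,[(24,0)]⟩⟩ ⟨false,
  0,⟨0,[(0,0),(38,0)]⟩,⟨5,[(1,3),(16,1),(2,0),(1,1),(1,1),(15,4)]⟩⟩ ⟨true,0,⟨6,[(6,0),(0,1),(1,0),
  (0,0),(9,1),(3,5)]⟩,⟨1,[(23,0),(1,0),(2,0)]⟩⟩,.o ⟨false,0,⟨1,[(23,0),(2,0),(2,0)]⟩,⟨1,[(24,1),(9,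
  0),(5,0)]⟩⟩]⟩)))) (.Q [0,1,0,0,0,0,-1,-1,1,0,1,-1] (.p true [0,0,1] [0,0,0,1] (⟨0,[(30,0)]⟩,⟨0,
  [(29,0)]⟩) .k 2 (⟨0,[(21,0)]⟩,⟨1,[(20,0),(8,0),(0,0)]⟩) .k (.r 0 ⟨3,[(0,1),(2,1),(2,1),(13,0),(1,
  0),(2,0)]⟩ ⟨7,[(2,1),(6,1),(3,1),(1,5),(3,2),(6,3),(11,2)]⟩)) (.Q [0,0,0,0,0,1,0,0,0,0,0,-1] (.p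
  false [0,0,0,1] [] (⟨0,[(22,0)]⟩,⟨1,[(21,0),(8,0),(0,0)]⟩) .k 0 (⟨0,[]⟩,⟨0,[]⟩) .k .k) (.R ⟨0,
  false,false,false,[0,0,0,1],[0,0,1],[1,0,1,0,0,0,0,1],(⟨0,[(23,0)]⟩,⟨1,[(22,0),(8,0),(0,0)]⟩),(⟨0,
  [(32,0)]⟩,⟨0,[(31,0)]⟩),⟨0,[(0,0)]⟩,.k,.k,(.r (-1) ⟨11,[(8,3),(6,3),(4,0),(0,6)]⟩ ⟨0,[(2,0),(8,0),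
  (15,0)]⟩),.k,.k,.k,⟨false,0,⟨0,[]⟩,⟨3,[(20,0),(0,0),(17,1)]⟩⟩,⟨true,0,⟨0,[(11,0),(11,0)]⟩,⟨1,[(22,
  0),(2,0),(3,0)]⟩⟩,⟨false,0,⟨0,[(2,0),(35,0)]⟩,⟨7,[(4,5),(6,5),(3,1),(1,5),(3,0),(14,3),(3,4)]⟩⟩,
  ⟨true,0,⟨0,[(5,0)]⟩,⟨0,[(1,0)]⟩⟩,⟨false,0,⟨0,[]⟩,⟨0,[]⟩⟩,⟨false,0,⟨0,[]⟩,⟨0,[]⟩⟩,[.o ⟨false,0,⟨0,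
  [(13,0)]⟩,⟨1,[(27,1),(5,0),(6,0)]⟩⟩,.o ⟨false,1,⟨7,[(19,3),(0,0),(0,0),(11,1),(6,3)]⟩,⟨0,[(24,
  0)]⟩⟩,.a ⟨true,0,⟨1,[(22,0),(8,0),(0,0)]⟩,⟨0,[(23,0)]⟩⟩ ⟨false,0,⟨0,[(2,0),(1,0)]⟩,⟨11,[(11,7),(3,
  3),(1,7),(2,0),(0,0),(17,1),(0,3)]⟩⟩ ⟨true,0,⟨6,[(5,0),(0,1),(1,0),(0,0),(9,1),(3,5)]⟩,⟨1,[(22,0),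
  (1,0),(2,0)]⟩⟩,.o ⟨false,0,⟨1,[(22,0),(2,0),(2,0)]⟩,⟨1,[(23,1),(9,0),(5,0)]⟩⟩]⟩) (.I [0,0,0,-1,0,
  0,0,0,-1] (.R ⟨1,false,false,true,[1,0,0,-1],[1,-1,-1],[0,1,0,-1,0,0,0,0,-1],(⟨1,[(23,0),(8,0),(0,
  0)]⟩,⟨0,[(24,0)]⟩),(⟨0,[(17,0)]⟩,⟨0,[(33,0),(2,0)]⟩),⟨0,[(1,0),(21,0)]⟩,.k,.k,(.x 0 ⟨0,[(13,0),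
  (21,0)]⟩ ⟨3,[(21,0),(0,0),(13,3),(3,1)]⟩),(.r 0 ⟨0,[(3,0),(39,0)]⟩ ⟨3,[(5,1),(6,1),(3,1),(1,1),(3,
  0),(18,0)]⟩),.k,.k,⟨false,0,⟨4,[(0,1),(2,2),(5,1),(27,0),(5,1)]⟩,⟨7,[(5,5),(6,5),(3,1),(1,5),(3,
  0),(14,3),(3,4)]⟩⟩,⟨true,0,⟨1,[(23,0),(2,0),(3,0)]⟩,⟨0,[(12,0),(11,0)]⟩⟩,⟨false,0,⟨0,[(39,0)]⟩,⟨0,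
  [(38,0),(2,0)]⟩⟩,⟨true,0,⟨0,[(2,0),(36,0)]⟩,⟨1,[(3,0),(2,0),(5,0),(11,0),(12,0)]⟩⟩,⟨true,0,⟨0,
  [(43,0)]⟩,⟨0,[]⟩⟩,⟨true,0,⟨0,[(2,0)]⟩,⟨0,[(6,0)]⟩⟩,[.o ⟨false,0,⟨0,[(25,0),(13,0)]⟩,⟨3,[(11,3),(9,
  0),(0,0),(18,1)]⟩⟩,.o ⟨false,1,⟨7,[(13,3),(2,3),(4,0),(0,0),(3,3),(1,3),(12,1)]⟩,⟨0,[(11,0)]⟩⟩,.a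
  ⟨true,0,⟨0,[(24,0)]⟩,⟨1,[(23,0),(8,0),(0,0)]⟩⟩ ⟨false,0,⟨0,[(0,0)]⟩,⟨7,[(4,1),(0,1),(1,1),(2,1),
  (7,3),(3,0),(1,1),(12,1),(3,6)]⟩⟩ ⟨true,0,⟨0,[(0,0),(1,0)]⟩,⟨0,[(11,0),(12,0)]⟩⟩,.o ⟨false,0,⟨0,
  [(13,0),(10,0)]⟩,⟨7,[(21,0),(0,0),(0,3),(10,1),(5,3)]⟩⟩]⟩) (.Q [0,-1,0,0,0,0,1,1,1,1,-1,-1] (.p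
  false [0,0,1] [1,0,0,-1] (⟨0,[(33,0)]⟩,⟨0,[(32,0)]⟩) .k 2 (⟨1,[(23,0),(8,0),(0,0)]⟩,⟨0,[(24,0)]⟩)
  .k (.r 0 ⟨3,[(0,0),(4,0),(3,1),(0,1)]⟩ ⟨1,[(12,1),(8,0),(6,1),(12,0)]⟩)) (.R ⟨1,false,false,true,
  [1,0,0,-1],[0,0,0,1],[0,1,0,-1,0,0,0,0,-1],(⟨1,[(24,0),(8,0),(0,0)]⟩,⟨0,[(25,0)]⟩),(⟨0,[(25,0)]⟩,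
  ⟨1,[(24,0),(8,0),(0,0)]⟩),⟨0,[(2,0),(21,0)]⟩,.k,.k,(.r (-1) ⟨11,[(10,3),(6,3),(4,6),(0,0)]⟩ ⟨1,
  [(1,1),(28,0),(0,0)]⟩),.k,(.r (-1) ⟨1,[(4,1),(2,1),(9,1),(6,0),(1,0),(2,0)]⟩ ⟨1,[(1,2),(4,0),(23,
  0),(0,0)]⟩),.k,⟨false,1,⟨1,[(4,1),(2,1),(9,1),(6,0),(1,0),(2,0)]⟩,⟨1,[(1,2),(4,0)]⟩⟩,⟨true,0,⟨0,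
  [(24,0)]⟩,⟨0,[(14,0),(10,1)]⟩⟩,⟨false,0,⟨0,[(40,0)]⟩,⟨0,[(39,0),(2,0)]⟩⟩,⟨false,0,⟨0,[(0,0),(2,
  0)]⟩,⟨0,[(4,1),(3,0),(8,0),(7,1),(3,0)]⟩⟩,⟨true,0,⟨0,[(44,0)]⟩,⟨0,[]⟩⟩,⟨false,0,⟨1,[(0,0),(0,1),
  (1,0),(20,0)]⟩,⟨0,[(4,1),(3,0),(8,0),(7,1),(3,0),(10,0)]⟩⟩,[.o ⟨false,0,⟨7,[(0,0),(2,5),(1,0),(2,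
  0),(1,0),(3,0),(13,2)]⟩,⟨0,[(7,0),(18,0),(15,0)]⟩⟩,.o ⟨false,0,⟨0,[(0,0),(25,0)]⟩,⟨1,[(22,0),(2,
  1),(9,0)]⟩⟩,.a ⟨true,0,⟨0,[(25,0)]⟩,⟨1,[(24,0),(8,0),(0,0)]⟩⟩ ⟨true,0,⟨1,[(7,1),(16,0),(1,0),(2,
  0),(10,1)]⟩,⟨0,[(1,0)]⟩⟩ ⟨false,0,⟨1,[(0,0),(2,0),(20,0)]⟩,⟨0,[(7,0),(17,0),(0,0),(15,0)]⟩⟩,.o
  ⟨false,0,⟨0,[(14,0),(10,0)]⟩,⟨7,[(22,0),(0,0),(0,3),(10,1),(5,3)]⟩⟩]⟩) (.R ⟨1,false,false,false,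
  [1,0,0,-1],[0,0,1],[0,0,0,-1,0,0,0,0,-1],(⟨1,[(24,0),(8,0),(0,0)]⟩,⟨0,[(25,0)]⟩),(⟨0,[(34,0)]⟩,⟨0,
  [(33,0)]⟩),⟨0,[(2,0),(21,0)]⟩,.k,.k,(.r (-1) ⟨11,[(10,3),(6,3),(4,6),(0,0)]⟩ ⟨1,[(1,1),(28,0),(0,
  0)]⟩),.k,(.r (-1) ⟨3,[(0,1),(12,1),(3,1),(4,0),(1,0),(8,0),(0,0),(7,0)]⟩ ⟨0,[(1,2),(0,7),(1,1),(3,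
  1),(1,0),(13,3),(1,1),(10,7),(2,2)]⟩),.k,⟨false,1,⟨3,[(0,1),(12,1),(3,1),(4,0),(1,0),(8,0),(0,0),
  (7,0)]⟩,⟨6,[(1,4),(2,0),(5,2),(0,2),(26,0)]⟩⟩,⟨true,0,⟨1,[(13,1),(10,0),(8,0),(0,0)]⟩,⟨0,[(25,0),
  (1,0)]⟩⟩,⟨true,0,⟨0,[(40,0)]⟩,⟨0,[(39,0)]⟩⟩,⟨true,0,⟨3,[(5,1),(0,1),(14,0),(2,0)]⟩,⟨0,[(0,0)]⟩⟩,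
  ⟨false,1,⟨3,[(22,0),(0,0),(18,1)]⟩,⟨0,[]⟩⟩,⟨true,0,⟨0,[(5,0)]⟩,⟨0,[(0,0),(39,0)]⟩⟩,[.o ⟨false,0,
  ⟨0,[(15,0)]⟩,⟨1,[(29,1),(5,0),(6,0)]⟩⟩,.o ⟨false,1,⟨7,[(21,3),(0,0),(0,0),(11,1),(6,3)]⟩,⟨0,[(26,
  0)]⟩⟩,.a ⟨true,0,⟨0,[(25,0)]⟩,⟨1,[(24,0),(8,0),(0,0)]⟩⟩ ⟨false,1,⟨1,[(22,0),(17,1),(1,0)]⟩,⟨0,[(1,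
  0)]⟩⟩ ⟨true,0,⟨1,[(21,0),(2,0)]⟩,⟨0,[(25,0),(0,0)]⟩⟩,.o ⟨false,0,⟨0,[(14,0),(10,0)]⟩,⟨7,[(22,0),
  (0,0),(0,3),(10,1),(5,3)]⟩⟩]⟩)))) (.R ⟨1,true,false,false,[1,0,-1],[1,0,0,-1],[0,0,0,-1,0,0,0,-1],
  (⟨0,[(30,0)]⟩,⟨0,[(31,0)]⟩),(⟨1,[(21,0),(8,0),(0,0)]⟩,⟨0,[(22,0)]⟩),⟨0,[(15,0)]⟩,.k,.k,.k,.k,(.r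
  (-1) ⟨3,[(3,1),(6,1),(3,1),(1,1),(3,0),(18,0)]⟩ ⟨0,[(1,0),(39,0)]⟩),.k,⟨false,1,⟨3,[(3,1),(6,1),
  (3,1),(1,1),(3,0),(18,0)]⟩,⟨7,[(1,5),(2,1),(2,1),(13,0),(1,0),(2,0),(8,3)]⟩⟩,⟨true,0,⟨0,[(10,0),
  (11,0)]⟩,⟨1,[(21,0),(2,0),(3,0)]⟩⟩,⟨true,0,⟨0,[(37,0)]⟩,⟨0,[(36,0)]⟩⟩,⟨false,0,⟨0,[(0,0)]⟩,⟨1,
  [(20,0),(0,0),(1,0),(2,0),(12,0)]⟩⟩,⟨false,1,⟨3,[(19,0),(0,0),(18,1)]⟩,⟨0,[]⟩⟩,⟨true,0,⟨1,[(0,0),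
  (3,0),(4,0),(6,0)]⟩,⟨1,[(3,1),(17,0),(1,0),(2,0)]⟩⟩,[]⟩))) (.R ⟨1,true,false,false,[1,0,-1],[0,0,
  0,1],[1,1,0,0,0,0,0,-1],(⟨0,[(28,0)]⟩,⟨0,[(29,0)]⟩),(⟨0,[(20,0)]⟩,⟨1,[(19,0),(8,0),(0,0)]⟩),⟨0,
  [(13,0)]⟩,.k,.k,.k,.k,(.x 0 ⟨0,[(13,0),(8,0)]⟩ ⟨0,[(25,0),(3,0),(2,0),(3,0)]⟩),.k,⟨false,0,⟨1,[(0,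
  1),(7,1),(10,0),(8,0),(0,0),(3,1)]⟩,⟨1,[(18,0),(8,1),(9,0)]⟩⟩,⟨true,0,⟨1,[(8,1),(10,0),(8,0),(0,
  0)]⟩,⟨0,[(20,0),(1,0)]⟩⟩,⟨false,0,⟨0,[]⟩,⟨3,[(17,0),(0,0),(18,1)]⟩⟩,⟨true,0,⟨1,[(1,1),(5,0),(7,0),
  (3,0)]⟩,⟨0,[(0,0),(33,0)]⟩⟩,⟨true,0,⟨0,[(34,0)]⟩,⟨0,[(35,0)]⟩⟩,⟨false,1,⟨1,[(7,0),(7,0),(2,0),(0,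
  0),(17,0)]⟩,⟨0,[(0,0)]⟩⟩,[]⟩)))))

theorem ok29 : chk (cU (-1) false 3) t29 l22 = true := by decide +kernel

noncomputable def t42 : Tre :=
  (.I [1,1,1,1,-1,0,0,0,1] (.Q [0,0,0,0,0,1,0,0,0,0,0,-1] (.p false [0,0,0,1] [] (⟨0,[(14,0)]⟩,⟨1,
  [(13,0),(8,0),(0,0)]⟩) .k 0 (⟨0,[]⟩,⟨0,[]⟩) .k .k) (.R ⟨0,false,false,false,[0,0,0,1],[1,-1],[0,0,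
  -1,-1],(⟨0,[(15,0)]⟩,⟨1,[(14,0),(8,0),(0,0)]⟩),(⟨0,[(26,0)]⟩,⟨0,[(27,0)]⟩),⟨0,[(0,0)]⟩,.k,.k,(.x
  0 ⟨9,[(3,3),(3,1),(8,1),(0,1),(2,3),(4,0),(0,9),(5,0)]⟩ ⟨3,[(12,0),(0,0),(13,3),(3,1)]⟩),(.r 0 ⟨9,
  [(1,3),(5,1),(1,1),(3,2),(6,1),(11,2)]⟩ ⟨1,[(12,0),(17,1),(0,0)]⟩),.k,.k,⟨false,1,⟨3,[(12,0),(0,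
  0),(17,1)]⟩,⟨0,[]⟩⟩,⟨true,0,⟨9,[(3,3),(3,1),(7,9),(0,1),(0,1),(2,3),(4,0),(6,0)]⟩,⟨1,[(14,0),(8,
  0),(0,0)]⟩⟩,⟨true,1,⟨1,[(12,0),(17,1),(0,0)]⟩,⟨0,[(1,0)]⟩⟩,⟨false,1,⟨1,[(3,1),(8,0),(2,1),(16,
  0)]⟩,⟨5,[(1,3),(0,1),(11,2),(8,2),(0,2),(3,1),(3,1)]⟩⟩,⟨false,0,⟨0,[]⟩,⟨0,[]⟩⟩,⟨false,0,⟨0,[]⟩,⟨0,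
  []⟩⟩,[.o ⟨false,0,⟨0,[(3,0)]⟩,⟨3,[(12,0),(0,0),(15,3),(2,1)]⟩⟩,.o ⟨false,1,⟨1,[(25,0),(4,1),(1,
  0)]⟩,⟨0,[(29,0)]⟩⟩,.a ⟨true,0,⟨1,[(14,0),(8,0),(0,0)]⟩,⟨0,[(15,0)]⟩⟩ ⟨false,1,⟨1,[(30,1),(0,0),(0,
  0)]⟩,⟨11,[(7,3),(1,3),(2,0),(0,0),(6,3),(11,1)]⟩⟩ ⟨true,0,⟨0,[(3,0),(11,0)]⟩,⟨1,[(9,0),(0,0),(3,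
  0),(19,0)]⟩⟩,.o ⟨false,0,⟨1,[(14,0),(2,0),(2,0)]⟩,⟨1,[(15,1),(9,0),(5,0)]⟩⟩]⟩) (.I [1,0,-1,-1,0,0,
  0,1] (.Q [0,-1,0,-2,0,0,1,1,0,0,-1] (.p false [0,0,1] [] (⟨0,[(25,0)]⟩,⟨0,[(24,0)]⟩) .k 0 (⟨0,[]⟩,
  ⟨0,[]⟩) .k .k) (.R ⟨1,true,false,true,[1,-1],[1,0,-1],[1,1,-1,-1],(⟨0,[(28,0)]⟩,⟨0,[(29,0)]⟩),(⟨0,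
  [(25,0)]⟩,⟨0,[(26,0)]⟩),⟨0,[(2,1),(13,0)]⟩,.k,.k,(.r (-1) ⟨0,[(0,0),(20,0),(11,0)]⟩ ⟨5,[(9,3),(1,
  3),(2,0),(0,0),(6,3),(11,1)]⟩),.k,(.r (-1) ⟨3,[(0,1),(0,3),(12,0),(0,0),(5,1),(11,1)]⟩ ⟨0,[(6,1),
  (2,0),(11,1),(12,0)]⟩),.k,⟨true,0,⟨0,[(1,0)]⟩,⟨1,[(0,0),(5,3),(2,1),(11,4),(12,1)]⟩⟩,⟨false,1,⟨1,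
  [(1,1),(9,1),(21,0),(0,0)]⟩,⟨0,[(22,0)]⟩⟩,⟨false,0,⟨0,[]⟩,⟨3,[(14,0),(0,0),(18,1)]⟩⟩,⟨true,0,⟨0,
  [(11,0)]⟩,⟨1,[(0,0),(19,0)]⟩⟩,⟨true,0,⟨0,[(31,0)]⟩,⟨0,[(32,0)]⟩⟩,⟨false,1,⟨0,[(11,0),(19,0),(2,
  0)]⟩,⟨0,[(0,0)]⟩⟩,[]⟩) (.I [1,0,1,1,0,0,0,-1] (.N [0,-1,1] 0 ⟨0,[(2,0)]⟩ ⟨0,[(0,0)]⟩ .k) (.Q [0,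
  -1,0,0,1,0,0,0,-2,-1,0,2] (.p true [0,0,0,1] [1,0,0,-1] (⟨0,[(18,0)]⟩,⟨1,[(17,0),(8,0),(0,0)]⟩)
  .k 2 (⟨1,[(17,0),(8,0),(0,0)]⟩,⟨0,[(18,0)]⟩) .k .k) (.R ⟨1,false,false,true,[1,0,0,-1],[0,0,0,1],
  [0,1,0,-1,0,0,0,0,-1],(⟨1,[(18,0),(8,0),(0,0)]⟩,⟨0,[(19,0)]⟩),(⟨0,[(19,0)]⟩,⟨1,[(18,0),(8,0),(0,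
  0)]⟩),⟨0,[(4,0),(13,0)]⟩,.k,.k,(.r (-1) ⟨1,[(16,0),(17,1),(0,0)]⟩ ⟨9,[(5,3),(5,1),(1,1),(3,2),(6,
  1),(11,2)]⟩),.k,(.r (-1) ⟨0,[(0,0),(2,0),(4,0),(9,0),(4,0)]⟩ ⟨1,[(5,1),(11,0),(18,0)]⟩),.k,⟨false,
  1,⟨0,[(0,0),(2,0),(4,0),(9,0),(4,0)]⟩,⟨0,[(5,0),(0,0)]⟩⟩,⟨true,0,⟨0,[(18,0)]⟩,⟨13,[(0,3),(4,5),(1,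
  5),(9,0),(1,19),(1,3),(2,3),(11,0)]⟩⟩,⟨false,0,⟨0,[(34,0)]⟩,⟨11,[(2,3),(11,3),(1,0),(0,0),(11,1),
  (6,7)]⟩⟩,⟨false,0,⟨0,[(5,0),(0,0),(11,0),(15,0)]⟩,⟨0,[(0,0)]⟩⟩,⟨true,0,⟨0,[(38,0)]⟩,⟨0,[]⟩⟩,
  ⟨false,0,⟨0,[(5,0),(0,0),(11,0)]⟩,⟨0,[(0,0),(33,0)]⟩⟩,[.o ⟨false,0,⟨5,[(3,0),(1,1),(1,1),(0,0),(8,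
  1),(0,2),(1,0),(11,0),(5,1)]⟩,⟨3,[(0,1),(28,0),(6,0)]⟩⟩,.o ⟨false,0,⟨1,[(5,0),(0,0),(0,0),(10,
  0)]⟩,⟨7,[(0,3),(15,0),(0,0),(11,1),(8,3)]⟩⟩,.a ⟨true,0,⟨0,[(19,0)]⟩,⟨1,[(18,0),(8,0),(0,0)]⟩⟩
  ⟨true,0,⟨1,[(0,0),(2,1),(4,2),(2,0),(6,0),(4,2),(10,1)]⟩,⟨2,[(5,1),(0,0),(25,0),(3,0)]⟩⟩ ⟨false,0,
  ⟨1,[(5,0),(0,0),(11,1),(15,0)]⟩,⟨3,[(0,1),(18,3),(9,0),(6,0)]⟩⟩,.o ⟨false,0,⟨13,[(0,3),(4,5),(1,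
  5),(9,0),(1,5),(1,3),(2,3),(11,0)]⟩,⟨7,[(16,0),(0,0),(0,3),(10,1),(5,3)]⟩⟩]⟩) (.Q [0,0,0,0,0,0,-1,
  -1,1,0,1,-1] (.p true [0,0,1] [0,0,0,1] (⟨0,[(28,0)]⟩,⟨0,[(27,0)]⟩) .k 2 (⟨0,[(19,0)]⟩,⟨1,[(18,0),
  (8,0),(0,0)]⟩) .k (.x 0 ⟨0,[(8,0),(19,0)]⟩ ⟨3,[(16,0),(0,0),(3,3),(5,3),(7,1)]⟩)) (.R ⟨1,false,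
  false,false,[0,0,0,1],[0,0,1],[1,1,0,0,0,0,0,0,1],(⟨0,[(20,0)]⟩,⟨1,[(19,0),(8,0),(0,0)]⟩),(⟨0,
  [(29,0)]⟩,⟨0,[(28,0)]⟩),⟨0,[(5,0)]⟩,.k,.k,(.r 0 ⟨0,[(0,0),(3,0),(4,0),(10,0)]⟩ ⟨15,[(3,3),(8,3),
  (4,12),(0,4),(6,5),(0,1),(10,1)]⟩),.k,(.r (-1) ⟨0,[(7,0),(1,0),(14,0),(10,0)]⟩ ⟨1,[(12,0),(4,0),
  (9,0)]⟩),.k,⟨false,0,⟨1,[(0,1),(3,0),(4,2),(10,1),(3,0),(8,0)]⟩,⟨1,[(17,0),(9,1),(9,0)]⟩⟩,⟨true,0,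
  ⟨0,[(9,0),(10,0)]⟩,⟨1,[(19,0),(2,0),(3,0)]⟩⟩,⟨false,0,⟨0,[]⟩,⟨3,[(17,0),(0,0),(18,1)]⟩⟩,⟨false,1,
  ⟨13,[(4,3),(4,5),(2,1),(3,3),(0,6),(2,13),(9,1),(6,6)]⟩,⟨0,[(0,0)]⟩⟩,⟨true,0,⟨0,[(34,0)]⟩,⟨0,[(35,
  0)]⟩⟩,⟨false,1,⟨13,[(4,1),(4,9),(2,7),(3,1),(0,6),(2,13),(9,0),(5,6),(0,6)]⟩,⟨0,[(0,0),(34,0)]⟩⟩,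
  [.o ⟨false,0,⟨6,[(4,1),(4,2),(2,0),(3,1),(13,0)]⟩,⟨1,[(24,1),(5,0),(6,0)]⟩⟩,.o ⟨false,1,⟨7,[(16,
  3),(0,0),(0,0),(11,1),(6,3)]⟩,⟨0,[(21,0)]⟩⟩,.a ⟨true,0,⟨1,[(19,0),(8,0),(0,0)]⟩,⟨0,[(20,0)]⟩⟩
  ⟨false,0,⟨9,[(1,1),(4,1),(0,1),(0,1),(9,0),(1,3),(16,0)]⟩,⟨1,[(17,0),(19,0)]⟩⟩ ⟨true,0,⟨6,[(4,1),
  (4,2),(2,0),(3,1),(3,6),(9,0)]⟩,⟨1,[(19,0),(1,0),(2,0)]⟩⟩,.o ⟨false,0,⟨1,[(19,0),(2,0),(2,0)]⟩,⟨1,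
  [(20,1),(9,0),(5,0)]⟩⟩]⟩) (.I [0,0,-1,-2,0,0,0,0,1] (.R ⟨1,false,false,true,[0,0,0,1],[0,1],[0,1,
  0,-1,0,0,0,0,1],(⟨0,[(21,0)]⟩,⟨1,[(20,0),(8,0),(0,0)]⟩),(⟨0,[(33,0)]⟩,⟨0,[(32,0)]⟩),⟨0,[(6,0)]⟩,
  .k,.k,(.x 0 ⟨1,[(6,1),(13,0),(2,0),(2,0)]⟩ ⟨3,[(18,0),(0,0),(13,3),(3,1)]⟩),(.x 0 ⟨1,[(6,1),(13,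
  0),(2,0),(2,0)]⟩ ⟨3,[(18,0),(0,0),(13,3),(3,1)]⟩),(.r (-1) ⟨3,[(0,3),(17,0),(0,0),(17,1)]⟩ ⟨1,
  [(10,1),(2,1),(4,0),(6,1),(12,0)]⟩),.k,⟨true,0,⟨0,[(0,0)]⟩,⟨1,[(10,1),(2,1),(4,0),(6,1),(12,0)]⟩⟩,
  ⟨false,1,⟨0,[(21,0),(15,0)]⟩,⟨1,[(20,0),(2,0),(2,0)]⟩⟩,⟨false,0,⟨0,[(36,0)]⟩,⟨11,[(4,3),(11,3),(1,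
  0),(0,0),(11,1),(6,7)]⟩⟩,⟨true,0,⟨0,[(1,0),(13,0)]⟩,⟨7,[(0,3),(1,1),(17,1),(2,1),(2,1),(4,0),(6,
  0)]⟩⟩,⟨true,0,⟨0,[(40,0)]⟩,⟨0,[]⟩⟩,⟨true,0,⟨0,[(1,0),(2,0)]⟩,⟨1,[(0,1),(19,0),(2,0),(2,0)]⟩⟩,[.o
  ⟨false,0,⟨0,[(35,0)]⟩,⟨9,[(0,3),(8,1),(8,1),(4,1),(2,1),(4,2),(6,4)]⟩⟩,.o ⟨false,1,⟨5,[(4,1),(11,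
  1),(1,1),(0,1),(11,0),(6,0)]⟩,⟨0,[(9,0)]⟩⟩,.a ⟨true,0,⟨1,[(20,0),(8,0),(0,0)]⟩,⟨0,[(21,0)]⟩⟩
  ⟨false,0,⟨9,[(0,5),(6,1),(11,0),(6,1),(0,1),(10,0)]⟩,⟨5,[(1,3),(2,3),(4,1),(8,0),(1,1),(17,4)]⟩⟩
  ⟨true,0,⟨0,[(21,0),(13,0)]⟩,⟨1,[(9,0),(10,0),(15,0)]⟩⟩,.o ⟨false,0,⟨1,[(20,0),(2,0),(2,0)]⟩,⟨1,
  [(21,1),(9,0),(5,0)]⟩⟩]⟩) (.I [0,1,-1,-1,0,0,0,-1,1] (.R ⟨1,false,false,false,[0,0,0,1],[0,0,1],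
  [0,1,0,-1,0,0,0,0,1],(⟨0,[(22,0)]⟩,⟨1,[(21,0),(8,0),(0,0)]⟩),(⟨0,[(31,0)]⟩,⟨0,[(30,0)]⟩),⟨0,[(7,
  0)]⟩,.k,.k,(.r (-1) ⟨3,[(0,1),(5,1),(12,0),(0,1),(18,0)]⟩ ⟨0,[(1,0),(35,0)]⟩),.k,(.r (-1) ⟨3,[(0,
  3),(18,0),(0,0),(18,1)]⟩ ⟨1,[(14,0),(4,0),(9,0)]⟩),.k,⟨false,0,⟨0,[(0,0)]⟩,⟨3,[(1,1),(17,0),(9,3),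
  (8,0),(0,1)]⟩⟩,⟨true,0,⟨0,[(11,0),(10,0)]⟩,⟨1,[(21,0),(2,0),(3,0)]⟩⟩,⟨false,0,⟨0,[(37,0)]⟩,⟨7,[(1,
  3),(7,3),(9,0),(0,0),(18,1)]⟩⟩,⟨true,0,⟨0,[(2,0)]⟩,⟨5,[(3,1),(16,0),(0,0),(1,2),(2,2),(12,0)]⟩⟩,
  ⟨true,0,⟨0,[(41,0)]⟩,⟨0,[]⟩⟩,⟨true,0,⟨0,[(1,0),(4,0),(4,0),(10,0)]⟩,⟨1,[(0,1),(20,0),(2,0),(3,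
  0)]⟩⟩,[.o ⟨false,0,⟨6,[(6,1),(4,2),(2,0),(3,1),(13,0)]⟩,⟨1,[(26,1),(5,0),(6,0)]⟩⟩,.o ⟨false,1,⟨7,
  [(18,3),(0,0),(0,0),(11,1),(6,3)]⟩,⟨0,[(23,0)]⟩⟩,.a ⟨true,0,⟨1,[(21,0),(8,0),(0,0)]⟩,⟨0,[(22,
  0)]⟩⟩ ⟨false,0,⟨5,[(3,1),(6,1),(9,0),(1,3),(14,3),(1,0)]⟩,⟨3,[(1,1),(17,0),(18,0),(0,1)]⟩⟩ ⟨true,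
  0,⟨3,[(2,1),(5,0),(0,0),(0,0),(7,0),(3,1)]⟩,⟨1,[(21,0),(1,0),(2,0)]⟩⟩,.o ⟨false,0,⟨1,[(21,0),(2,
  0),(2,0)]⟩,⟨1,[(22,1),(9,0),(5,0)]⟩⟩]⟩) (.Q [0,0,0,0,0,1,0,0,0,0,-1] (.ed true [1,-1,1] .k) (.Q
  [0,0,0,0,0,0,-1,0,0,1,1] (.p true [1,-1,1] [] (⟨0,[(32,0),(1,0)]⟩,⟨0,[(0,0)]⟩) .k 0 (⟨0,[]⟩,⟨0,
  []⟩) .k .k) (.K ⟨2,[1,-1,1],0,0,(⟨0,[(33,0),(1,0)]⟩,⟨0,[(1,0)]⟩),.k,(.r (-1) ⟨3,[(8,3),(12,0),(0,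
  0),(16,3),(0,1)]⟩ ⟨0,[(13,1),(2,0),(11,1),(12,0)]⟩),.k,.k,.k,[⟨0,[(12,0)]⟩,⟨1,[(0,0),(14,0),(2,
  1)]⟩,⟨0,[(0,0)]⟩,⟨9,[(12,3),(3,1),(8,1),(0,1),(2,13),(4,0),(6,0)]⟩]⟩) (.I [0,1,2,1,-1,0,0,-1,1]
  (.R ⟨1,false,false,true,[1,0,0,-1],[0,1,-1],[1,0,0,0,0,0,0,0,-1],(⟨1,[(24,0),(8,0),(0,0)]⟩,⟨0,
  [(25,0)]⟩),(⟨0,[(2,0)]⟩,⟨0,[(34,0),(1,0)]⟩),⟨0,[(10,0),(13,0)]⟩,.k,.k,(.r (-1) ⟨1,[(22,0),(17,1),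
  (0,0)]⟩ ⟨21,[(0,5),(3,1),(7,3),(4,5),(5,6),(18,0)]⟩),(.r (-1) ⟨3,[(9,3),(12,2),(0,0)]⟩ ⟨2,[(0,1),
  (11,0),(1,0),(4,0),(22,0)]⟩),(.r (-1) ⟨1,[(9,1),(12,0),(17,1),(0,0)]⟩ ⟨9,[(0,7),(3,3),(3,1),(5,1),
  (8,2),(18,4)]⟩),.k,⟨true,1,⟨1,[(9,1),(12,0),(19,0)]⟩,⟨0,[(0,0)]⟩⟩,⟨false,1,⟨1,[(9,1),(9,1),(4,0),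
  (8,0),(0,0),(6,0),(0,0)]⟩,⟨2,[(1,1),(23,2),(1,0),(2,1)]⟩⟩,⟨true,0,⟨0,[]⟩,⟨0,[(44,0)]⟩⟩,⟨true,0,⟨5,
  [(6,1),(12,5),(3,0),(0,0),(8,2),(0,2),(7,0)]⟩,⟨0,[(5,0),(7,0)]⟩⟩,⟨false,1,⟨7,[(4,3),(7,3),(9,0),
  (0,0),(18,1)]⟩,⟨0,[(40,0)]⟩⟩,⟨true,0,⟨1,[(6,0),(12,2),(0,0),(21,0)]⟩,⟨0,[(5,0),(7,0),(26,0)]⟩⟩,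
  [.o ⟨false,0,⟨0,[(19,0)]⟩,⟨1,[(13,0),(7,0),(13,0),(4,0),(1,0)]⟩⟩,.o ⟨false,1,⟨3,[(19,3),(2,0),(0,
  0),(18,1)]⟩,⟨12,[(1,2),(7,1),(3,12),(3,0),(3,4),(13,0)]⟩⟩,.a ⟨true,0,⟨0,[(25,0)]⟩,⟨1,[(24,0),(8,
  0),(0,0)]⟩⟩ ⟨false,1,⟨1,[(22,0),(19,0)]⟩,⟨1,[(0,0),(8,0),(2,0)]⟩⟩ ⟨true,0,⟨1,[(19,1),(4,0),(8,0),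
  (0,0)]⟩,⟨10,[(1,2),(3,1),(3,1),(3,10),(3,0),(3,2),(1,0),(1,8)]⟩⟩,.o ⟨false,0,⟨5,[(0,1),(4,1),(7,
  1),(11,3),(1,1),(7,0),(6,0)]⟩,⟨7,[(22,0),(0,0),(0,3),(10,1),(5,3)]⟩⟩]⟩) (.I [0,-1,-1,-2,1,0,0,-1,
  1] (.R ⟨1,false,false,true,[0,0,0,1],[0,1,1],[0,0,0,-1,0,0,0,0,1],(⟨0,[(26,0)]⟩,⟨1,[(25,0),(8,0),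
  (0,0)]⟩),(⟨0,[(35,0),(2,0)]⟩,⟨0,[(19,0)]⟩),⟨0,[(11,0)]⟩,.k,.k,(.r (-1) ⟨11,[(0,3),(0,1),(8,1),(13,
  4),(17,0),(2,5)]⟩ ⟨0,[(5,0),(35,0)]⟩),(.r (-1) ⟨0,[(0,0),(39,0)]⟩ ⟨1,[(18,0),(4,0),(9,0)]⟩),(.r
  (-1) ⟨1,[(0,1),(9,0),(4,0),(14,0),(8,0)]⟩ ⟨3,[(18,3),(4,2),(0,0)]⟩),.k,⟨true,1,⟨0,[(0,0)]⟩,⟨1,[(6,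
  1),(11,1),(6,0),(1,0),(2,0)]⟩⟩,⟨false,1,⟨0,[(15,0),(10,0),(15,0)]⟩,⟨1,[(25,0),(2,0),(3,0)]⟩⟩,
  ⟨true,0,⟨0,[(41,0)]⟩,⟨0,[(40,0)]⟩⟩,⟨false,0,⟨3,[(1,0),(3,0),(0,1),(8,1),(2,0),(7,1),(12,0)]⟩,⟨17,
  [(0,11),(6,1),(12,5),(3,0),(0,6),(2,8),(3,2),(10,6)]⟩⟩,⟨false,1,⟨3,[(23,0),(0,0),(18,1)]⟩,⟨0,[]⟩⟩,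
  ⟨false,0,⟨1,[(1,0),(3,0),(9,1),(2,0),(7,1),(12,0)]⟩,⟨1,[(0,1),(24,0),(2,0),(3,0)]⟩⟩,[.o ⟨false,0,
  ⟨8,[(2,0),(15,0),(3,2),(6,1),(6,0),(2,1),(0,4)]⟩,⟨0,[(14,0),(15,0),(12,0)]⟩⟩,.o ⟨false,0,⟨36,[(1,
  3),(0,13),(10,3),(4,9),(2,12),(0,4),(13,1),(2,7)]⟩,⟨3,[(0,1),(22,0),(4,1),(1,1),(5,0)]⟩⟩,.a ⟨true,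
  0,⟨1,[(25,0),(8,0),(0,0)]⟩,⟨0,[(26,0)]⟩⟩ ⟨true,0,⟨7,[(0,2),(9,1),(1,2),(5,0),(5,0),(16,4)]⟩,⟨2,
  [(5,0),(0,1),(18,0),(1,0),(2,0),(8,0)]⟩⟩ ⟨false,0,⟨4,[(2,0),(3,2),(5,0),(0,1),(4,0),(2,0),(4,1),
  (12,0)]⟩,⟨1,[(14,0),(10,0),(4,1),(10,0),(1,1)]⟩⟩,.o ⟨false,0,⟨1,[(25,0),(2,0),(2,0)]⟩,⟨1,[(26,1),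
  (9,0),(5,0)]⟩⟩]⟩) (.I [0,-1,2,1,0,0,0,-1,1] (.R ⟨1,false,false,false,[1,0,0,-1],[0,1,-1],[1,1,0,0,
  0,0,0,0,-1],(⟨1,[(26,0),(8,0),(0,0)]⟩,⟨0,[(27,0)]⟩),(⟨0,[(4,0)]⟩,⟨0,[(36,0),(1,0)]⟩),⟨0,[(12,0),
  (13,0)]⟩,.k,.k,(.r (-1) ⟨1,[(24,0),(17,1),(0,0)]⟩ ⟨30,[(0,5),(2,0),(2,0),(3,1),(2,3),(5,6),(2,0),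
  (2,10)]⟩),(.r (-1) ⟨3,[(11,3),(12,2),(0,0)]⟩ ⟨3,[(0,1),(12,0),(0,0),(1,1),(4,0),(9,0)]⟩),(.r (-1)
  ⟨0,[(2,0),(39,0),(3,0)]⟩ ⟨0,[(0,0),(40,0)]⟩),.k,⟨true,0,⟨4,[(1,0),(5,1),(3,5),(3,0),(0,1),(7,0),
  (1,0),(4,3)]⟩,⟨0,[(0,0)]⟩⟩,⟨false,1,⟨7,[(2,6),(5,1),(5,2),(6,5),(0,0),(3,1),(4,1),(1,0),(1,2),(0,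
  2)]⟩,⟨2,[(3,1),(23,2),(1,0),(2,1)]⟩⟩,⟨false,0,⟨0,[]⟩,⟨3,[(24,0),(0,0),(18,1)]⟩⟩,⟨false,1,⟨5,[(8,
  1),(12,5),(3,0),(0,0),(8,2),(0,2),(7,6)]⟩,⟨0,[(7,0),(7,0)]⟩⟩,⟨true,0,⟨0,[(41,0)]⟩,⟨0,[(42,0)]⟩⟩,
  ⟨false,1,⟨1,[(8,0),(12,2),(0,0),(21,2)]⟩,⟨0,[(7,0),(7,0),(26,0)]⟩⟩,[.o ⟨false,1,⟨3,[(21,3),(2,0),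
  (0,0),(18,1)]⟩,⟨12,[(3,2),(7,1),(3,12),(3,0),(3,4),(13,0)]⟩⟩,.o ⟨false,1,⟨0,[(21,0),(22,0)]⟩,⟨0,
  [(15,0),(14,0)]⟩⟩,.a ⟨true,0,⟨0,[(27,0)]⟩,⟨1,[(26,0),(8,0),(0,0)]⟩⟩ ⟨true,0,⟨4,[(1,0),(5,1),(3,0),
  (3,0),(0,1),(7,0),(1,0),(4,3)]⟩,⟨11,[(0,0),(7,1),(2,0),(1,1),(0,2),(0,1),(9,0),(1,3)]⟩⟩ ⟨false,1,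
  ⟨1,[(21,1),(4,0),(8,0),(0,0),(7,1)]⟩,⟨10,[(3,2),(3,1),(3,1),(3,10),(3,0),(3,2),(1,0),(1,8)]⟩⟩,.o
  ⟨false,0,⟨2,[(3,0),(23,2),(1,1),(2,0)]⟩,⟨7,[(24,0),(0,0),(0,3),(10,1),(5,3)]⟩⟩]⟩) (.Q [0,1,0,-1,0,
  0,0,0,-2,-1,0,2] (.p true [0,0,0,1] [1,0,0,-1] (⟨0,[(27,0)]⟩,⟨1,[(26,0),(8,0),(0,0)]⟩) .k 2 (⟨1,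
  [(26,0),(8,0),(0,0)]⟩,⟨0,[(27,0)]⟩) .k .k) (.R ⟨1,true,false,false,[1,0,0,-1],[0,0,0,1],[0,0,0,-1,
  0,0,0,0,-1],(⟨1,[(27,0),(8,0),(0,0)]⟩,⟨0,[(28,0)]⟩),(⟨0,[(28,0)]⟩,⟨1,[(27,0),(8,0),(0,0)]⟩),⟨0,
  [(13,0),(13,0)]⟩,.k,.k,(.r (-1) ⟨1,[(25,0),(17,1),(0,0)]⟩ ⟨9,[(14,3),(5,1),(1,1),(3,2),(6,1),(11,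
  2)]⟩),.k,(.r (-1) ⟨3,[(0,1),(2,1),(13,1),(7,0),(1,1),(4,1),(12,0)]⟩ ⟨1,[(14,1),(11,0),(18,0)]⟩),
  .k,⟨false,1,⟨3,[(0,1),(2,1),(13,1),(7,0),(1,1),(4,1),(12,0)]⟩,⟨0,[(14,0),(0,0)]⟩⟩,⟨true,0,⟨0,[(27,
  0)]⟩,⟨2,[(4,0),(23,5),(1,1),(2,0)]⟩⟩,⟨true,0,⟨0,[(43,0)]⟩,⟨0,[(42,0)]⟩⟩,⟨false,0,⟨0,[(9,0),(35,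
  0)]⟩,⟨7,[(0,7),(6,3),(7,3),(9,0),(0,0),(18,1)]⟩⟩,⟨false,1,⟨3,[(25,0),(0,0),(18,1)]⟩,⟨0,[]⟩⟩,⟨true,
  0,⟨5,[(7,2),(1,4),(5,2),(10,0),(0,0),(17,0)]⟩,⟨0,[(0,0)]⟩⟩,[]⟩) (.R ⟨1,false,false,false,[1,0,0,
  -1],[0,0,0,1],[0,0,0,-1,0,0,0,0,-1],(⟨1,[(27,0),(8,0),(0,0)]⟩,⟨0,[(28,0)]⟩),(⟨0,[(28,0)]⟩,⟨1,[(27,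
  0),(8,0),(0,0)]⟩),⟨0,[(13,0),(13,0)]⟩,.k,.k,(.r (-1) ⟨1,[(25,0),(17,1),(0,0)]⟩ ⟨9,[(14,3),(5,1),
  (1,1),(3,2),(6,1),(11,2)]⟩),.k,(.r (-1) ⟨0,[(3,0),(3,0),(9,0),(14,0),(10,1)]⟩ ⟨1,[(14,1),(11,0),
  (18,0)]⟩),.k,⟨false,1,⟨0,[(3,0),(3,0),(9,0),(14,0),(10,1)]⟩,⟨0,[(14,0),(0,0)]⟩⟩,⟨true,0,⟨0,[(27,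
  0)]⟩,⟨2,[(4,0),(23,5),(1,1),(2,0)]⟩⟩,⟨true,0,⟨0,[(43,0)]⟩,⟨0,[(42,0)]⟩⟩,⟨false,0,⟨0,[(0,0),(42,
  0)]⟩,⟨1,[(8,1),(16,0),(2,1),(0,1),(15,0)]⟩⟩,⟨false,1,⟨3,[(25,0),(0,0),(18,1)]⟩,⟨0,[]⟩⟩,⟨false,0,
  ⟨0,[(0,0)]⟩,⟨0,[(16,0),(8,0),(2,1)]⟩⟩,[.o ⟨false,0,⟨13,[(0,2),(8,2),(6,2),(9,0),(0,0),(10,1)]⟩,⟨1,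
  [(25,0),(2,1),(9,0)]⟩⟩,.o ⟨false,1,⟨15,[(0,1),(15,1),(9,5),(0,5),(10,2),(6,6)]⟩,⟨0,[(8,0),(20,
  0)]⟩⟩,.a ⟨true,0,⟨0,[(28,0)]⟩,⟨1,[(27,0),(8,0),(0,0)]⟩⟩ ⟨false,1,⟨1,[(25,0),(17,1),(1,0)]⟩,⟨8,[(0,
  0),(3,0),(6,0),(2,2),(0,3),(4,0),(7,1),(12,0)]⟩⟩ ⟨true,0,⟨5,[(0,0),(8,0),(16,0),(0,3),(15,0)]⟩,⟨0,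
  [(8,0),(19,0),(0,0)]⟩⟩,.o ⟨false,0,⟨2,[(4,0),(23,2),(1,1),(2,0)]⟩,⟨7,[(25,0),(0,0),(0,3),(10,1),
  (5,3)]⟩⟩]⟩)))))) (.I [0,-1,2,1,0,0,0,-1,1] (.R ⟨1,false,false,false,[1,0,0,-1],[1,1,-1],[1,1,0,0,
  0,0,0,0,-1],(⟨1,[(23,0),(8,0),(0,0)]⟩,⟨0,[(24,0)]⟩),(⟨0,[(32,0),(3,0)]⟩,⟨0,[(1,0)]⟩),⟨1,[(1,0),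
  (15,0),(5,0)]⟩,.k,.k,(.r (-1) ⟨1,[(21,0),(17,1),(0,0)]⟩ ⟨13,[(0,2),(2,0),(6,1),(5,2),(5,4),(14,
  0)]⟩),(.r (-1) ⟨3,[(8,3),(12,2),(0,0)]⟩ ⟨3,[(0,1),(9,0),(0,0),(1,1),(4,0),(9,0)]⟩),(.r (-1) ⟨1,
  [(8,1),(12,0),(17,1),(0,0)]⟩ ⟨0,[(0,0),(37,0)]⟩),.k,⟨true,0,⟨1,[(4,1),(3,1),(14,0),(1,0),(2,0)]⟩,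
  ⟨0,[(0,0)]⟩⟩,⟨false,1,⟨1,[(7,0),(0,1),(14,0),(1,0),(14,0),(0,0)]⟩,⟨0,[(24,0),(4,0)]⟩⟩,⟨false,0,⟨0,
  []⟩,⟨3,[(21,0),(0,0),(18,1)]⟩⟩,⟨false,1,⟨5,[(0,0),(4,0),(1,1),(3,2),(6,0),(4,1),(1,1),(0,0),(14,
  3)]⟩,⟨0,[(4,0),(34,0)]⟩⟩,⟨true,0,⟨0,[(38,0)]⟩,⟨0,[(39,0)]⟩⟩,⟨false,1,⟨3,[(5,1),(1,3),(26,0),(6,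
  4)]⟩,⟨0,[(4,0),(34,1)]⟩⟩,[.o ⟨false,1,⟨1,[(18,1),(15,0),(6,0)]⟩,⟨1,[(12,0),(7,0),(18,0)]⟩⟩,.o
  ⟨false,1,⟨0,[(7,0),(4,0),(28,0)]⟩,⟨0,[(27,0),(11,0)]⟩⟩,.a ⟨true,0,⟨0,[(24,0)]⟩,⟨1,[(23,0),(8,0),
  (0,0)]⟩⟩ ⟨true,0,⟨1,[(4,1),(18,0),(1,0),(2,0)]⟩,⟨11,[(0,0),(4,1),(2,0),(1,1),(0,2),(0,1),(9,0),(1,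
  3)]⟩⟩ ⟨false,1,⟨1,[(7,0),(15,0),(1,0),(15,1)]⟩,⟨1,[(12,0),(7,0),(3,1),(14,0)]⟩⟩,.o ⟨false,0,⟨8,
  [(0,1),(3,2),(5,0),(1,2),(11,5),(0,0),(0,2),(2,0),(4,0)]⟩,⟨7,[(21,0),(0,0),(0,3),(10,1),(5,
  3)]⟩⟩]⟩) (.Q [0,-1,0,-1,1,0,0,0,-2,-1,0,2] (.p true [0,0,0,1] [1,0,0,-1] (⟨0,[(24,0)]⟩,⟨1,[(23,0),
  (8,0),(0,0)]⟩) .k 2 (⟨1,[(23,0),(8,0),(0,0)]⟩,⟨0,[(24,0)]⟩) .k .k) (.R ⟨1,true,false,true,[1,0,0,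
  -1],[0,0,0,1],[1,1,0,0,0,0,0,0,-1],(⟨1,[(24,0),(8,0),(0,0)]⟩,⟨0,[(25,0)]⟩),(⟨0,[(25,0)]⟩,⟨1,[(24,
  0),(8,0),(0,0)]⟩),⟨1,[(2,0),(15,0),(5,0)]⟩,.k,.k,(.r (-1) ⟨1,[(22,0),(17,1),(0,0)]⟩ ⟨9,[(11,3),(5,
  1),(1,1),(3,2),(6,1),(11,2)]⟩),.k,(.r (-1) ⟨5,[(0,3),(0,1),(12,1),(7,0),(1,3),(4,1),(11,0)]⟩ ⟨1,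
  [(11,1),(11,0),(18,0)]⟩),.k,⟨false,1,⟨11,[(0,7),(0,3),(2,1),(3,3),(5,3),(7,0),(1,7),(16,2)]⟩,⟨4,
  [(6,1),(4,1),(0,1),(0,1),(9,0),(1,3),(16,0)]⟩⟩,⟨true,0,⟨0,[(24,0)]⟩,⟨5,[(0,3),(10,5),(1,1),(9,0),
  (1,3),(16,0)]⟩⟩,⟨false,0,⟨0,[]⟩,⟨3,[(22,0),(0,0),(18,1)]⟩⟩,⟨true,(-1),⟨0,[(6,0)]⟩,⟨0,[(0,0),(38,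
  0)]⟩⟩,⟨true,0,⟨0,[(39,0)]⟩,⟨0,[(40,0)]⟩⟩,⟨false,0,⟨5,[(4,2),(1,4),(5,2),(10,0),(0,0),(17,0)]⟩,⟨0,
  [(0,0)]⟩⟩,[]⟩) (.R ⟨1,false,false,true,[1,0,0,-1],[0,0,0,1],[1,1,0,0,0,0,0,0,-1],(⟨1,[(24,0),(8,
  0),(0,0)]⟩,⟨0,[(25,0)]⟩),(⟨0,[(25,0)]⟩,⟨1,[(24,0),(8,0),(0,0)]⟩),⟨1,[(2,0),(15,0),(5,0)]⟩,.k,.k,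
  (.r (-1) ⟨1,[(22,0),(17,1),(0,0)]⟩ ⟨9,[(11,3),(5,1),(1,1),(3,2),(6,1),(11,2)]⟩),.k,(.r (-1) ⟨0,
  [(1,0),(2,0),(9,0),(14,0),(10,1),(1,0)]⟩ ⟨1,[(11,1),(11,0),(18,0)]⟩),.k,⟨false,1,⟨0,[(1,0),(2,0),
  (9,0),(14,0),(10,0),(1,0)]⟩,⟨4,[(6,1),(4,1),(0,1),(0,1),(9,0),(1,3),(16,0)]⟩⟩,⟨true,0,⟨0,[(24,
  0)]⟩,⟨9,[(13,3),(3,1),(7,19),(0,1),(0,1),(2,3),(4,0),(6,0)]⟩⟩,⟨false,0,⟨0,[]⟩,⟨3,[(22,0),(0,0),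
  (18,1)]⟩⟩,⟨true,(-1),⟨0,[(6,0)]⟩,⟨1,[(5,1),(16,0),(2,1),(0,1),(15,0)]⟩⟩,⟨true,0,⟨0,[(39,0)]⟩,⟨0,
  [(40,0)]⟩⟩,⟨true,(-1),⟨0,[(0,0)]⟩,⟨0,[(13,0),(8,0),(2,1)]⟩⟩,[.o ⟨false,0,⟨7,[(6,2),(16,0),(0,0),
  (10,1),(8,4)]⟩,⟨0,[(5,0),(20,0),(15,0)]⟩⟩,.o ⟨false,0,⟨3,[(6,1),(28,0),(6,0)]⟩,⟨1,[(22,0),(2,1),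
  (9,0)]⟩⟩,.a ⟨true,0,⟨0,[(25,0)]⟩,⟨1,[(24,0),(8,0),(0,0)]⟩⟩ ⟨true,0,⟨3,[(1,0),(2,0),(0,1),(7,0),
  (10,0),(4,2),(0,0)]⟩,⟨9,[(6,1),(4,1),(0,1),(0,1),(9,0),(1,3),(16,0)]⟩⟩ ⟨false,0,⟨5,[(6,1),(16,0),
  (0,3),(17,0)]⟩,⟨0,[(5,0),(19,0),(0,0),(15,0)]⟩⟩,.o ⟨false,0,⟨9,[(13,3),(3,1),(7,9),(0,1),(0,1),(2,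
  3),(4,0),(6,0)]⟩,⟨7,[(22,0),(0,0),(0,3),(10,1),(5,3)]⟩⟩]⟩)))))))))) (.Q [0,0,0,0,0,0,1,1,-1,0,-1,
  1] (.p false [0,0,1] [0,0,0,1] (⟨0,[(25,0)]⟩,⟨0,[(24,0)]⟩) .k 2 (⟨0,[(16,0)]⟩,⟨1,[(15,0),(8,0),(0,
  0)]⟩) .k (.x 0 ⟨0,[(5,0),(19,0)]⟩ ⟨3,[(13,0),(0,0),(3,3),(5,3),(7,1)]⟩)) (.Q [0,-1,0,0,1,0,0,0,-2,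
  -1,0,2] (.p true [0,0,0,1] [1,0,0,-1] (⟨0,[(17,0)]⟩,⟨1,[(16,0),(8,0),(0,0)]⟩) .k 2 (⟨1,[(16,0),(8,
  0),(0,0)]⟩,⟨0,[(17,0)]⟩) .k .k) (.R ⟨1,false,false,true,[1,0,0,-1],[0,0,0,1],[0,1,0,-1,0,0,0,0,
  -1],(⟨1,[(17,0),(8,0),(0,0)]⟩,⟨0,[(18,0)]⟩),(⟨0,[(18,0)]⟩,⟨1,[(17,0),(8,0),(0,0)]⟩),⟨0,[(3,0),(13,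
  0)]⟩,.k,.k,(.r (-1) ⟨1,[(15,0),(17,1),(0,0)]⟩ ⟨7,[(2,1),(1,1),(5,1),(5,2),(18,0)]⟩),.k,(.r (-1)
  ⟨0,[(0,0),(16,0),(13,0),(1,1)]⟩ ⟨1,[(4,1),(11,0),(18,0)]⟩),.k,⟨false,1,⟨0,[(0,0),(16,0),(13,0),(1,
  1)]⟩,⟨0,[(4,0),(0,0)]⟩⟩,⟨true,0,⟨0,[(17,0)]⟩,⟨13,[(0,3),(3,5),(1,5),(9,0),(1,19),(1,3),(2,3),(11,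
  0)]⟩⟩,⟨false,0,⟨0,[(33,0)]⟩,⟨0,[(32,0),(2,0)]⟩⟩,⟨false,0,⟨0,[(4,0),(0,0),(11,0),(15,0)]⟩,⟨0,[(0,
  0)]⟩⟩,⟨true,0,⟨0,[(37,0)]⟩,⟨0,[]⟩⟩,⟨false,0,⟨0,[(4,0),(0,0),(11,0)]⟩,⟨0,[(0,0),(32,0)]⟩⟩,[.o
  ⟨false,0,⟨5,[(4,1),(1,2),(9,1),(0,2),(13,1),(1,0),(3,1)]⟩,⟨3,[(0,1),(27,0),(6,0)]⟩⟩,.o ⟨false,0,
  ⟨1,[(4,0),(0,0),(0,0),(10,0)]⟩,⟨7,[(0,3),(14,0),(0,0),(11,1),(8,3)]⟩⟩,.a ⟨true,0,⟨0,[(18,0)]⟩,⟨1,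
  [(17,0),(8,0),(0,0)]⟩⟩ ⟨true,0,⟨1,[(1,1),(4,0),(10,0),(4,1),(10,0)]⟩,⟨2,[(4,1),(0,0),(25,0),(3,
  0)]⟩⟩ ⟨false,0,⟨1,[(4,0),(0,0),(11,1),(15,0)]⟩,⟨3,[(0,1),(17,3),(9,0),(6,0)]⟩⟩,.o ⟨false,0,⟨13,
  [(0,3),(3,5),(1,5),(9,0),(1,5),(1,3),(2,3),(11,0)]⟩,⟨7,[(15,0),(0,0),(0,3),(10,1),(5,3)]⟩⟩]⟩) (.Q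
  [0,0,0,1,0,0,1,1,-1,0,-1,1] (.p false [0,0,1] [0,0,0,1] (⟨0,[(27,0)]⟩,⟨0,[(26,0)]⟩) .k 2 (⟨0,[(18,
  0)]⟩,⟨1,[(17,0),(8,0),(0,0)]⟩) .k (.x 0 ⟨0,[(7,0),(19,0)]⟩ ⟨3,[(15,0),(0,0),(3,3),(5,3),(7,1)]⟩))
  (.I [0,-1,-1,-1,1,0,0,-1,1] (.R ⟨1,false,false,false,[1,0,0,-1],[1,-1,-1],[1,1,0,0,0,0,0,0,-1],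
  (⟨1,[(19,0),(8,0),(0,0)]⟩,⟨0,[(20,0)]⟩),(⟨0,[(13,0)]⟩,⟨0,[(29,0),(2,0)]⟩),⟨0,[(5,0),(13,0)]⟩,.k,
  .k,(.r (-1) ⟨1,[(17,0),(17,1),(0,0)]⟩ ⟨7,[(0,0),(3,1),(1,0),(5,2),(5,2)]⟩),(.r 0 ⟨1,[(12,0),(4,0),
  (9,0)]⟩ ⟨0,[(0,0),(38,0)]⟩),.k,.k,⟨false,0,⟨3,[(3,1),(8,0),(4,0),(1,0),(1,0),(2,0),(2,2),(5,1)]⟩,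
  ⟨0,[(0,0)]⟩⟩,⟨true,0,⟨1,[(19,0),(2,0),(3,0)]⟩,⟨0,[(9,0),(10,0)]⟩⟩,⟨false,0,⟨0,[]⟩,⟨3,[(17,0),(0,
  0),(18,1)]⟩⟩,⟨false,1,⟨1,[(0,1),(18,0),(2,0),(3,0)]⟩,⟨0,[(1,0)]⟩⟩,⟨true,0,⟨0,[(34,0)]⟩,⟨0,[(35,
  0)]⟩⟩,⟨false,1,⟨11,[(0,5),(1,1),(11,5),(3,0),(0,3),(2,5),(14,6)]⟩,⟨0,[(3,0)]⟩⟩,[.o ⟨false,1,⟨3,
  [(0,1),(16,0),(4,1),(1,1),(5,0),(4,1)]⟩,⟨3,[(1,3),(0,1),(27,0),(6,0)]⟩⟩,.o ⟨false,1,⟨0,[(8,0),(15,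
  0),(12,0)]⟩,⟨6,[(9,0),(2,0),(3,1),(6,1),(6,0),(2,1),(0,2)]⟩⟩,.a ⟨true,0,⟨0,[(20,0)]⟩,⟨1,[(19,0),
  (8,0),(0,0)]⟩⟩ ⟨true,0,⟨1,[(3,1),(15,0),(1,0),(2,0)]⟩,⟨9,[(0,0),(1,1),(3,0),(0,1),(0,1),(3,0),(5,
  0),(1,3)]⟩⟩ ⟨false,1,⟨1,[(8,0),(10,0),(4,1),(10,0),(1,1)]⟩,⟨1,[(1,0),(1,0),(2,0),(0,0)]⟩⟩,.o
  ⟨false,0,⟨6,[(4,0),(3,2),(3,0),(7,6),(1,1),(2,1),(4,0)]⟩,⟨7,[(17,0),(0,0),(0,3),(10,1),(5,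
  3)]⟩⟩]⟩) (.I [0,-1,-1,-2,1,0,0,-1,1] (.R ⟨1,false,false,true,[0,0,0,1],[0,1,1],[1,1,1,1,0,0,0,1],
  (⟨0,[(21,0)]⟩,⟨1,[(20,0),(8,0),(0,0)]⟩),(⟨0,[(30,0),(2,0)]⟩,⟨0,[(14,0)]⟩),⟨0,[(6,0)]⟩,.k,.k,(.r
  (-1) ⟨3,[(0,1),(18,0),(8,1),(8,0),(2,1)]⟩ ⟨3,[(1,1),(3,1),(12,0),(19,0)]⟩),(.r (-1) ⟨0,[(0,0),(34,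
  0)]⟩ ⟨1,[(13,0),(4,0),(9,0)]⟩),(.r (-1) ⟨0,[(0,0),(33,0),(1,0)]⟩ ⟨3,[(13,3),(4,2),(0,0)]⟩),.k,
  ⟨true,0,⟨0,[]⟩,⟨1,[(26,0),(0,0)]⟩⟩,⟨false,1,⟨0,[(10,0),(10,0),(15,0)]⟩,⟨1,[(20,0),(2,0),(3,0)]⟩⟩,
  ⟨true,(-1),⟨0,[(1,0)]⟩,⟨0,[(0,0),(34,0)]⟩⟩,⟨false,0,⟨0,[(2,0)]⟩,⟨17,[(0,11),(2,1),(11,5),(3,0),(0,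
  6),(2,8),(3,2),(10,6)]⟩⟩,⟨false,0,⟨1,[(13,1),(4,0),(18,0)]⟩,⟨0,[(0,0)]⟩⟩,⟨false,0,⟨0,[(1,0),(8,0),
  (10,0),(12,0),(3,0)]⟩,⟨1,[(0,1),(19,0),(2,0),(3,0)]⟩⟩,[.o ⟨false,0,⟨6,[(10,0),(2,0),(3,1),(6,1),
  (6,0),(2,1),(0,2)]⟩,⟨0,[(9,0),(15,0),(12,0)]⟩⟩,.o ⟨false,0,⟨3,[(2,3),(0,1),(27,0),(6,0)]⟩,⟨3,[(0,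
  1),(17,0),(4,1),(1,1),(5,0)]⟩⟩,.a ⟨true,0,⟨1,[(20,0),(8,0),(0,0)]⟩,⟨0,[(21,0)]⟩⟩ ⟨true,(-1),⟨1,
  [(1,0),(5,0),(20,0)]⟩,⟨3,[(0,1),(9,1),(7,0),(6,1),(11,0)]⟩⟩ ⟨false,0,⟨1,[(2,0),(1,0),(2,0),(0,
  0)]⟩,⟨1,[(9,0),(10,0),(4,1),(10,0),(1,1)]⟩⟩,.o ⟨false,0,⟨1,[(20,0),(2,0),(2,0)]⟩,⟨1,[(21,1),(9,0),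
  (5,0)]⟩⟩]⟩) (.Q [0,-1,0,-1,1,0,0,0,-2,-1,0,2] (.p true [0,0,0,1] [1,0,0,-1] (⟨0,[(21,0)]⟩,⟨1,[(20,
  0),(8,0),(0,0)]⟩) .k 2 (⟨1,[(20,0),(8,0),(0,0)]⟩,⟨0,[(21,0)]⟩) .k .k) (.R ⟨1,true,false,true,[1,0,
  0,-1],[0,0,0,1],[0,1,0,-1,0,0,0,0,-1],(⟨1,[(21,0),(8,0),(0,0)]⟩,⟨0,[(22,0)]⟩),(⟨0,[(22,0)]⟩,⟨1,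
  [(21,0),(8,0),(0,0)]⟩),⟨0,[(7,0),(13,0)]⟩,.k,.k,(.r (-1) ⟨1,[(19,0),(17,1),(0,0)]⟩ ⟨7,[(6,1),(1,
  1),(5,1),(5,2),(18,0)]⟩),.k,(.r (-1) ⟨0,[(0,0),(20,0),(13,0),(1,0)]⟩ ⟨1,[(8,1),(11,0),(18,0)]⟩),
  .k,⟨false,1,⟨0,[(0,0),(20,0),(13,0),(1,0)]⟩,⟨0,[(8,0),(0,0)]⟩⟩,⟨true,0,⟨0,[(21,0)]⟩,⟨5,[(0,3),(7,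
  5),(1,1),(9,0),(1,3),(16,0)]⟩⟩,⟨false,0,⟨0,[(37,0)]⟩,⟨0,[(36,0),(2,0)]⟩⟩,⟨true,(-1),⟨0,[(4,0)]⟩,
  ⟨0,[(0,0),(35,0)]⟩⟩,⟨true,0,⟨0,[(41,0)]⟩,⟨0,[]⟩⟩,⟨false,0,⟨22,[(4,12),(1,5),(2,17),(4,5),(5,0),(0,
  9),(14,4)]⟩,⟨0,[(0,0)]⟩⟩,[]⟩) (.I [0,0,-1,-1,1,0,0,0,-2] (.R ⟨1,false,false,true,[1,0,0,-1],[0,0,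
  0,1],[0,1,0,-1,0,0,0,0,-1],(⟨1,[(22,0),(8,0),(0,0)]⟩,⟨0,[(23,0)]⟩),(⟨0,[(23,0)]⟩,⟨1,[(22,0),(8,0),
  (0,0)]⟩),⟨0,[(8,0),(13,0)]⟩,.k,.k,(.r (-1) ⟨5,[(0,3),(20,0),(16,1),(0,0)]⟩ ⟨7,[(7,1),(1,1),(5,1),
  (5,2),(18,0)]⟩),.k,(.r (-1) ⟨0,[(0,0)]⟩ ⟨1,[(9,1),(11,0),(18,0)]⟩),.k,⟨false,1,⟨0,[(0,0)]⟩,⟨0,[(9,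
  0),(0,0)]⟩⟩,⟨true,0,⟨0,[(22,0)]⟩,⟨6,[(7,0),(3,2),(3,0),(7,13),(1,1),(2,1),(4,0)]⟩⟩,⟨false,0,⟨0,
  [(38,0)]⟩,⟨0,[(37,0),(2,0)]⟩⟩,⟨true,(-1),⟨0,[(5,0)]⟩,⟨15,[(0,11),(3,7),(2,5),(3,1),(11,23),(0,1),
  (0,5),(7,2),(6,0)]⟩⟩,⟨true,0,⟨0,[(42,0)]⟩,⟨0,[]⟩⟩,⟨true,(-1),⟨0,[(1,0)]⟩,⟨0,[(11,0),(8,0),(2,
  1)]⟩⟩,[.o ⟨false,0,⟨7,[(5,2),(15,0),(0,0),(10,1),(8,4)]⟩,⟨15,[(0,3),(3,7),(2,1),(3,5),(11,7),(0,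
  5),(0,1),(7,0),(6,10)]⟩⟩,.o ⟨false,0,⟨3,[(5,1),(27,0),(6,0)]⟩,⟨1,[(20,0),(2,1),(9,0)]⟩⟩,.a ⟨true,
  0,⟨0,[(23,0)]⟩,⟨1,[(22,0),(8,0),(0,0)]⟩⟩ ⟨true,0,⟨2,[(0,0),(2,0),(8,0),(14,0),(10,2),(3,0)]⟩,⟨2,
  [(9,1),(0,0),(25,0),(3,0)]⟩⟩ ⟨false,0,⟨5,[(5,1),(15,0),(0,3),(17,0)]⟩,⟨15,[(0,3),(3,7),(2,1),(3,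
  5),(11,23),(0,5),(0,1),(7,0),(6,10)]⟩⟩,.o ⟨false,0,⟨6,[(7,0),(3,2),(3,0),(7,6),(1,1),(2,1),(4,
  0)]⟩,⟨7,[(20,0),(0,0),(0,3),(10,1),(5,3)]⟩⟩]⟩) (.Q [0,0,0,0,0,-1,0,0,0,0,1] (.ed false [1,-1,1]
  .k) (.Q [0,1,0,-2,-1,0,1,1,0,0,-1] (.p false [0,0,1] [] (⟨0,[(33,0)]⟩,⟨0,[(32,0)]⟩) .k 0 (⟨0,[]⟩,
  ⟨0,[]⟩) .k .k) (.Q [0,-1,0,-1,0,0,1,1,0,1,-1] (.p false [0,0,1] [1] (⟨0,[(34,0)]⟩,⟨0,[(33,0)]⟩)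
  .k 1 (⟨0,[]⟩,⟨0,[]⟩) .k .k) (.R ⟨2,true,false,true,[0,1],[1,1,-1],[0,1,1],(⟨0,[]⟩,⟨0,[]⟩),(⟨0,
  [(34,0),(3,0)]⟩,⟨0,[(2,0)]⟩),⟨0,[]⟩,.k,.k,.k,.k,.k,.k,⟨true,0,⟨0,[(33,0),(7,0)]⟩,⟨0,[(10,0)]⟩⟩,
  ⟨false,1,⟨0,[(28,0),(13,0)]⟩,⟨0,[(17,0)]⟩⟩,⟨false,0,⟨0,[(41,0)]⟩,⟨0,[(40,0),(2,0)]⟩⟩,⟨true,0,⟨0,
  [(27,0)]⟩,⟨2,[(0,0),(20,0),(0,0),(7,0)]⟩⟩,⟨true,0,⟨0,[(45,0)]⟩,⟨0,[]⟩⟩,⟨false,1,⟨1,[(20,1),(15,0),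
  (6,0)]⟩,⟨0,[(0,0)]⟩⟩,[]⟩) (.Q [0,0,-2,0,1,0,-1,0,0,-1,1,1] (.p true [0,0,1] [1,0,0,-1] (⟨0,[(35,
  0)]⟩,⟨0,[(34,0)]⟩) .k 2 (⟨1,[(25,0),(8,0),(0,0)]⟩,⟨0,[(26,0)]⟩) .k (.r 0 ⟨7,[(1,0),(1,1),(9,1),
  (10,0),(5,0),(2,7)]⟩ ⟨1,[(15,1),(7,0),(6,1),(12,0)]⟩)) (.R ⟨1,false,false,true,[0,0,0,1],[1,1,-1],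
  [0,1,0,-1,0,0,0,0,1],(⟨0,[(27,0)]⟩,⟨1,[(26,0),(8,0),(0,0)]⟩),(⟨0,[(35,0),(3,0)]⟩,⟨0,[(3,0)]⟩),⟨0,
  [(12,0)]⟩,.k,.k,(.r (-1) ⟨1,[(25,0),(16,1),(0,0)]⟩ ⟨3,[(7,1),(3,1),(12,0),(19,0)]⟩),(.r 0 ⟨1,[(0,
  0),(1,0),(6,0),(17,0),(6,0),(9,0)]⟩ ⟨3,[(11,3),(12,2),(0,0)]⟩),(.r (-1) ⟨0,[(2,0),(11,0),(18,0),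
  (9,0)]⟩ ⟨3,[(7,1),(3,5),(12,0),(19,0)]⟩),.k,⟨true,0,⟨4,[(0,2),(1,4),(6,1),(4,0),(12,0),(5,1),(1,
  0),(0,0),(7,2)]⟩,⟨3,[(7,1),(3,5),(12,0),(19,0)]⟩⟩,⟨false,1,⟨0,[(0,0)]⟩,⟨3,[(18,1),(7,1),(5,2),(0,
  0)]⟩⟩,⟨false,0,⟨0,[(42,0)]⟩,⟨0,[(41,0),(2,0)]⟩⟩,⟨false,1,⟨1,[(1,1),(22,0),(2,1),(16,0)]⟩,⟨3,[(2,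
  1),(6,1),(13,0),(11,0),(0,0),(7,3)]⟩⟩,⟨true,0,⟨0,[(46,0)]⟩,⟨0,[]⟩⟩,⟨false,1,⟨2,[(0,1),(0,0),(4,0),
  (4,2),(12,0),(2,0),(16,0)]⟩,⟨3,[(2,1),(6,1),(13,0),(11,0),(0,0),(5,3),(1,3)]⟩⟩,[.o ⟨false,0,⟨0,
  [(1,0)]⟩,⟨15,[(2,7),(20,3),(0,4),(0,4),(11,1),(6,11)]⟩⟩,.o ⟨false,1,⟨1,[(21,1),(15,0),(6,0)]⟩,⟨15,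
  [(2,7),(20,3),(0,0),(0,0),(11,1),(6,3)]⟩⟩,.a ⟨true,0,⟨1,[(26,0),(8,0),(0,0)]⟩,⟨0,[(27,0)]⟩⟩
  ⟨false,0,⟨7,[(2,0),(1,1),(9,1),(10,0),(5,0),(10,7)]⟩,⟨2,[(6,0),(4,0),(12,0),(18,0),(0,1)]⟩⟩ ⟨true,
  0,⟨0,[(1,0),(25,0)]⟩,⟨1,[(23,0),(2,0),(15,1)]⟩⟩,.o ⟨false,0,⟨1,[(26,0),(2,0),(2,0)]⟩,⟨7,[(0,3),
  (15,3),(7,0),(0,0),(1,3),(9,1)]⟩⟩]⟩) (.Q [0,0,-2,0,1,0,-1,0,0,0,1] (.p true [0,0,1] [] (⟨0,[(36,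
  0)]⟩,⟨0,[(35,0)]⟩) .k 0 (⟨0,[]⟩,⟨0,[]⟩) .k .k) (.K ⟨0,[1,1,-1],1,0,(⟨0,[(36,0),(3,0)]⟩,⟨0,[(4,
  0)]⟩),.k,.k,(.r 0 ⟨5,[(12,7),(7,1),(4,0),(0,0)]⟩ ⟨3,[(0,3),(2,3),(21,0),(0,0),(18,1)]⟩),.k,.k,[⟨0,
  [(1,0),(26,0)]⟩,⟨0,[(0,0)]⟩,⟨5,[(0,0),(2,2),(15,2),(4,2),(0,0),(0,0),(5,2),(1,1)]⟩,⟨0,[(2,0)]⟩]⟩)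
  (.K ⟨2,[0,-1,1],(-1),0,(⟨0,[(4,0)]⟩,⟨0,[(36,0),(3,0)]⟩),.k,(.r (-1) ⟨0,[(35,0),(7,1),(0,0)]⟩ ⟨5,
  [(12,7),(7,1),(4,0),(0,0)]⟩),.k,.k,.k,[⟨0,[(43,0)]⟩,⟨0,[(22,0)]⟩,⟨3,[(25,0),(0,0),(7,3),(9,1)]⟩,
  ⟨0,[(0,0)]⟩]⟩)))) (.Q [0,0,-2,0,1,0,-1,0,0,-1,1,1] (.p true [0,0,1] [1,0,0,-1] (⟨0,[(34,0)]⟩,⟨0,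
  [(33,0)]⟩) .k 2 (⟨1,[(24,0),(8,0),(0,0)]⟩,⟨0,[(25,0)]⟩) .k (.r 0 ⟨6,[(2,0),(4,0),(4,0),(0,0),(9,
  0),(1,1),(6,6)]⟩ ⟨1,[(14,1),(7,0),(6,1),(12,0)]⟩)) (.R ⟨1,false,false,false,[0,0,0,1],[1,1,-1],[1,
  0,0,0,0,0,0,0,1],(⟨0,[(26,0)]⟩,⟨1,[(25,0),(8,0),(0,0)]⟩),(⟨0,[(34,0),(3,0)]⟩,⟨0,[(2,0)]⟩),⟨0,[(11,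
  0)]⟩,.k,.k,(.r (-1) ⟨1,[(24,0),(16,1),(0,0)]⟩ ⟨3,[(6,1),(3,1),(12,0),(19,0)]⟩),(.r 0 ⟨3,[(0,2),(2,
  0),(2,0),(1,2),(0,2),(31,5),(1,1)]⟩ ⟨3,[(10,3),(12,2),(0,0)]⟩),(.r (-1) ⟨15,[(0,13),(7,3),(4,3),
  (8,6),(1,1),(0,2),(7,1),(7,31)]⟩ ⟨3,[(6,1),(3,5),(12,0),(19,0)]⟩),.k,⟨true,0,⟨3,[(0,2),(2,0),(2,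
  0),(1,2),(0,2),(31,5),(1,1)]⟩,⟨3,[(6,1),(3,5),(12,0),(17,3),(1,0)]⟩⟩,⟨false,1,⟨0,[(0,0)]⟩,⟨3,[(17,
  1),(7,1),(5,2),(0,0)]⟩⟩,⟨true,0,⟨0,[]⟩,⟨0,[(45,0)]⟩⟩,⟨true,1,⟨8,[(0,1),(0,3),(3,0),(4,2),(3,3),(8,
  3),(2,6),(0,2)]⟩,⟨0,[(8,0),(0,0),(31,0)]⟩⟩,⟨false,1,⟨15,[(1,7),(20,3),(0,0),(0,0),(11,1),(6,3)]⟩,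
  ⟨0,[(41,0)]⟩⟩,⟨true,1,⟨2,[(0,1),(0,0),(3,0),(4,2),(3,0),(8,0),(2,0)]⟩,⟨0,[(8,0),(0,0),(31,1)]⟩⟩,
  [.o ⟨false,1,⟨1,[(1,0),(28,0),(5,0)]⟩,⟨1,[(14,0),(7,0),(18,0)]⟩⟩,.o ⟨false,1,⟨0,[(1,0),(12,0)]⟩,
  ⟨0,[(29,0),(11,0)]⟩⟩,.a ⟨true,0,⟨1,[(25,0),(8,0),(0,0)]⟩,⟨0,[(26,0)]⟩⟩ ⟨true,0,⟨12,[(0,0),(2,2),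
  (4,0),(4,0),(1,0),(8,1),(1,0),(14,2)]⟩,⟨2,[(6,0),(8,0),(7,0),(6,0),(8,0),(1,1)]⟩⟩ ⟨false,1,⟨0,[(1,
  0),(12,0),(11,0)]⟩,⟨1,[(22,0),(2,0),(15,1)]⟩⟩,.o ⟨false,0,⟨1,[(25,0),(2,0),(2,0)]⟩,⟨0,[(0,0),(30,
  0)]⟩⟩]⟩) (.Q [0,0,-2,0,1,0,-1,0,0,0,1] (.p true [0,0,1] [] (⟨0,[(35,0)]⟩,⟨0,[(34,0)]⟩) .k 0 (⟨0,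
  []⟩,⟨0,[]⟩) .k .k) (.Q [0,0,0,0,0,2,0,0,0,0,-1] (.p false [0,0,1] [] (⟨0,[(36,0)]⟩,⟨0,[(35,0)]⟩)
  .k 0 (⟨0,[]⟩,⟨0,[]⟩) .k .k) (.R ⟨0,false,false,false,[0,-1,1],[1,0,0,-1],[1,0,1],(⟨0,[(4,0)]⟩,⟨1,
  [(0,0),(35,1),(0,0)]⟩),(⟨1,[(27,0),(8,0),(0,0)]⟩,⟨0,[(28,0)]⟩),⟨0,[(0,0)]⟩,.k,.k,(.r (-1) ⟨1,[(1,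
  1),(14,0),(7,0),(18,2)]⟩ ⟨5,[(12,7),(7,1),(4,0),(0,0)]⟩),(.r 0 ⟨6,[(1,5),(3,3),(2,0),(1,2),(0,5),
  (4,2),(26,8),(1,1)]⟩ ⟨3,[(12,3),(12,2),(0,0)]⟩),.k,.k,⟨false,0,⟨6,[(5,0),(4,0),(4,0),(0,0),(9,0),
  (1,1)]⟩,⟨1,[(25,0),(18,0)]⟩⟩,⟨true,1,⟨2,[(1,1),(26,2),(1,0),(7,0)]⟩,⟨0,[(2,0)]⟩⟩,⟨false,0,⟨0,[(2,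
  0),(0,0),(12,0),(11,0)]⟩,⟨1,[(1,1),(14,0),(7,0),(18,0)]⟩⟩,⟨true,1,⟨4,[(3,2),(5,0),(6,1),(8,1),(2,
  3),(0,2)]⟩,⟨0,[(10,0),(0,0),(31,0)]⟩⟩,⟨false,0,⟨0,[]⟩,⟨0,[]⟩⟩,⟨false,0,⟨0,[]⟩,⟨0,[]⟩⟩,[.o ⟨false,
  1,⟨1,[(25,0),(2,1),(9,0)]⟩,⟨3,[(10,1),(27,0),(6,0)]⟩⟩,.o ⟨false,1,⟨3,[(3,1),(7,1),(4,3),(8,0),(2,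
  1),(16,0)]⟩,⟨7,[(10,2),(15,0),(0,0),(10,1),(8,4)]⟩⟩,.o ⟨false,0,⟨0,[(33,0)]⟩,⟨2,[(1,1),(28,0),(7,
  0)]⟩⟩,.a ⟨true,(-1),⟨0,[(2,0),(25,0)]⟩,⟨0,[(1,0)]⟩⟩ ⟨true,0,⟨0,[]⟩,⟨0,[(47,0)]⟩⟩ ⟨false,2,⟨3,[(1,
  3),(1,1),(7,1),(4,3),(8,0),(2,1),(16,0)]⟩,⟨18,[(2,16),(2,4),(4,0),(4,0),(1,0),(1,0),(6,2),(16,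
  4)]⟩⟩]⟩) (.Q [0,-1,0,-1,0,0,1,1,0,1,-1] (.p false [0,0,1] [1] (⟨0,[(37,0)]⟩,⟨0,[(36,0)]⟩) .k 1
  (⟨0,[]⟩,⟨0,[]⟩) .k .k) (.R ⟨2,true,false,true,[0,1],[1,1,-1],[0,1,1],(⟨0,[]⟩,⟨0,[]⟩),(⟨0,[(37,0),
  (3,0)]⟩,⟨0,[(5,0)]⟩),⟨0,[]⟩,.k,.k,.k,.k,.k,.k,⟨true,0,⟨0,[(36,0),(7,0)]⟩,⟨0,[(13,0)]⟩⟩,⟨false,1,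
  ⟨2,[(2,1),(28,0),(7,0)]⟩,⟨0,[(20,0)]⟩⟩,⟨false,0,⟨0,[(44,0)]⟩,⟨15,[(4,7),(20,3),(0,0),(0,0),(11,1),
  (6,3)]⟩⟩,⟨true,0,⟨0,[(30,0)]⟩,⟨2,[(0,0),(23,0),(0,0),(7,0)]⟩⟩,⟨true,0,⟨0,[(48,0)]⟩,⟨0,[]⟩⟩,⟨false,
  1,⟨1,[(4,0),(28,0),(5,0)]⟩,⟨0,[(0,0)]⟩⟩,[]⟩) (.K ⟨0,[1,1,-1],1,0,(⟨0,[(37,0),(3,0)]⟩,⟨0,[(5,0)]⟩),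
  .k,.k,(.r 0 ⟨5,[(13,7),(7,1),(4,0),(0,0)]⟩ ⟨1,[(2,1),(14,0),(7,0),(18,2)]⟩),.k,.k,[⟨0,[(3,0),(25,
  0)]⟩,⟨0,[(2,0)]⟩,⟨0,[(25,0),(7,0),(10,0)]⟩,⟨0,[(0,0)]⟩]⟩))) (.K ⟨2,[0,-1,1],(-1),0,(⟨0,[(3,0)]⟩,
  ⟨0,[(35,0),(3,0)]⟩),.k,(.r (-1) ⟨0,[(34,0),(7,1),(0,0)]⟩ ⟨5,[(11,7),(7,1),(4,0),(0,0)]⟩),.k,.k,.k,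
  [⟨0,[(42,0)]⟩,⟨0,[(21,0)]⟩,⟨3,[(24,0),(0,0),(7,3),(9,1)]⟩,⟨0,[(0,0)]⟩]⟩)))) (.Q [0,0,-2,0,1,0,-1,
  0,0,0,1,1] (.p true [1,-1,1] [1,0,0,-1] (⟨0,[(33,0),(1,0)]⟩,⟨0,[(0,0)]⟩) .k 2 (⟨1,[(23,0),(8,0),
  (0,0)]⟩,⟨0,[(24,0)]⟩) .k (.r 0 ⟨6,[(1,0),(4,0),(4,0),(0,0),(9,0),(1,1),(6,6)]⟩ ⟨1,[(13,1),(7,0),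
  (6,1),(12,0)]⟩)) (.R ⟨1,false,false,true,[0,0,0,1],[0,1,-1],[1,1,0,0,0,0,0,0,1],(⟨0,[(25,0)]⟩,⟨1,
  [(24,0),(8,0),(0,0)]⟩),(⟨0,[(1,0)]⟩,⟨0,[(34,0),(1,0)]⟩),⟨0,[(10,0)]⟩,.k,.k,(.r (-1) ⟨1,[(23,0),
  (16,1),(0,0)]⟩ ⟨3,[(5,1),(3,1),(12,0),(19,0)]⟩),(.r 0 ⟨3,[(0,2),(1,0),(2,0),(1,2),(0,2),(4,2),(26,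
  2),(1,1)]⟩ ⟨3,[(9,3),(12,2),(0,0)]⟩),(.r (-1) ⟨15,[(0,13),(6,3),(4,3),(0,13),(7,6),(1,1),(0,2),(7,
  1),(7,17)]⟩ ⟨3,[(5,1),(3,5),(12,0),(19,0)]⟩),.k,⟨true,0,⟨3,[(0,2),(1,0),(2,0),(1,2),(0,2),(4,2),
  (26,2),(1,1)]⟩,⟨3,[(5,1),(3,5),(12,0),(17,3),(1,0)]⟩⟩,⟨false,1,⟨0,[(0,0)]⟩,⟨9,[(9,0),(3,2),(0,2),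
  (2,0),(6,4),(5,6),(4,0)]⟩⟩,⟨false,0,⟨0,[]⟩,⟨3,[(22,0),(0,0),(18,1)]⟩⟩,⟨false,1,⟨1,[(19,1),(2,0),
  (2,1),(16,0)]⟩,⟨0,[(7,0),(0,0),(4,0),(28,0)]⟩⟩,⟨true,0,⟨0,[(39,0)]⟩,⟨0,[(40,0)]⟩⟩,⟨false,1,⟨2,[(0,
  1),(3,0),(4,2),(9,0),(2,0),(2,0),(16,0)]⟩,⟨0,[(7,0),(0,0),(4,0),(26,0),(1,0)]⟩⟩,[.o ⟨false,0,⟨0,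
  [(19,0)]⟩,⟨1,[(13,0),(7,0),(13,0),(4,0),(1,0)]⟩⟩,.o ⟨false,1,⟨3,[(19,3),(2,0),(0,0),(18,1)]⟩,⟨15,
  [(3,1),(2,3),(6,21),(7,5),(13,0),(6,0)]⟩⟩,.a ⟨true,0,⟨1,[(24,0),(8,0),(0,0)]⟩,⟨0,[(25,0)]⟩⟩
  ⟨false,0,⟨18,[(0,1),(1,4),(4,0),(4,0),(0,0),(0,1),(8,2),(16,3)]⟩,⟨1,[(22,0),(19,0)]⟩⟩ ⟨true,0,⟨0,
  [(19,0),(5,0)]⟩,⟨1,[(13,1),(7,0),(2,0)]⟩⟩,.o ⟨false,0,⟨1,[(24,0),(2,0),(2,0)]⟩,⟨1,[(0,0),(13,0),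
  (10,0),(9,0)]⟩⟩]⟩) (.Q [0,0,-2,0,1,0,-1,0,0,1,1] (.p true [1,-1,1] [] (⟨0,[(34,0),(1,0)]⟩,⟨0,[(1,
  0)]⟩) .k 0 (⟨0,[]⟩,⟨0,[]⟩) .k .k) (.K ⟨0,[0,1,-1],1,0,(⟨0,[(2,0)]⟩,⟨0,[(35,0),(1,0)]⟩),.k,.k,(.r
  0 ⟨5,[(10,7),(7,1),(4,0),(0,0)]⟩ ⟨1,[(0,1),(13,2),(7,0),(18,0)]⟩),.k,.k,[⟨0,[(1,0),(24,0)]⟩,⟨0,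
  [(0,0)]⟩,⟨0,[(29,0),(11,0)]⟩,⟨0,[(20,0)]⟩]⟩) (.K ⟨2,[1,-1,1],(-1),0,(⟨0,[(35,0),(1,0)]⟩,⟨0,[(2,
  0)]⟩),.k,(.r (-1) ⟨0,[(33,0),(7,1),(0,0)]⟩ ⟨5,[(10,7),(7,1),(4,0),(0,0)]⟩),.k,.k,.k,[⟨0,[(14,0)]⟩,
  ⟨0,[(20,0),(13,0),(0,0)]⟩,⟨3,[(23,0),(0,0),(7,3),(1,3),(0,3),(6,1)]⟩,⟨0,[(0,0)]⟩]⟩)))))))) (.R ⟨1,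
  true,false,false,[1,0,-1],[1,0,0,-1],[0,1,0,-1,0,0,0,-1],(⟨0,[(27,0)]⟩,⟨0,[(28,0)]⟩),(⟨1,[(18,0),
  (8,0),(0,0)]⟩,⟨0,[(19,0)]⟩),⟨0,[(12,0)]⟩,.k,.k,.k,.k,(.r (-1) ⟨0,[(6,0),(1,0),(14,0),(10,0)]⟩ ⟨1,
  [(11,0),(4,0),(9,0)]⟩),.k,⟨false,0,⟨0,[(0,0),(7,0),(10,0),(12,0),(1,0)]⟩,⟨1,[(11,0),(4,0),(9,0),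
  (8,0),(0,0)]⟩⟩,⟨true,0,⟨0,[(8,0),(10,0)]⟩,⟨1,[(18,0),(2,0),(3,0)]⟩⟩,⟨false,0,⟨0,[(34,0)]⟩,⟨0,[(33,
  0),(2,0)]⟩⟩,⟨true,0,⟨0,[(2,0)]⟩,⟨10,[(0,2),(0,2),(11,2),(3,0),(0,0),(4,4),(5,1)]⟩⟩,⟨true,0,⟨0,
  [(38,0)]⟩,⟨0,[]⟩⟩,⟨false,1,⟨0,[(2,0),(30,0),(2,0)]⟩,⟨0,[(0,0)]⟩⟩,[]⟩))) (.R ⟨1,false,false,true,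
  [1,0,0,-1],[1,-1,-1],[1,0,0,0,0,0,0,0,-1],(⟨1,[(16,0),(8,0),(0,0)]⟩,⟨0,[(17,0)]⟩),(⟨0,[(10,0)]⟩,
  ⟨0,[(26,0),(2,0)]⟩),⟨0,[(2,0),(13,0)]⟩,.k,.k,(.r (-1) ⟨1,[(14,0),(17,1),(0,0)]⟩ ⟨7,[(1,1),(1,1),
  (5,1),(5,2),(18,0)]⟩),(.r 0 ⟨1,[(9,0),(4,0),(9,0)]⟩ ⟨0,[(4,0),(1,0),(14,0),(10,0)]⟩),.k,.k,⟨false,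
  1,⟨1,[(9,0),(4,0),(9,0),(8,0),(0,0)]⟩,⟨0,[(0,0),(5,0),(10,0),(12,0),(1,1)]⟩⟩,⟨true,0,⟨1,[(16,0),
  (2,0),(3,0)]⟩,⟨0,[(6,0),(10,0)]⟩⟩,⟨true,0,⟨0,[]⟩,⟨0,[(36,0)]⟩⟩,⟨false,0,⟨0,[(0,0),(31,0)]⟩,⟨9,[(5,
  1),(0,5),(2,5),(3,1),(0,4),(2,9),(15,5),(0,4)]⟩⟩,⟨false,1,⟨0,[(31,0),(2,0)]⟩,⟨0,[(32,0)]⟩⟩,⟨false,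
  0,⟨0,[(0,0)]⟩,⟨9,[(5,3),(0,1),(2,1),(3,3),(0,4),(2,9),(15,1),(0,4)]⟩⟩,[.o ⟨false,0,⟨0,[(5,0),(15,
  0)]⟩,⟨1,[(12,1),(14,0),(6,0)]⟩⟩,.o ⟨false,1,⟨1,[(21,1),(5,0),(4,1),(1,0)]⟩,⟨4,[(5,0),(0,2),(2,2),
  (3,0),(19,2)]⟩⟩,.a ⟨true,0,⟨0,[(17,0)]⟩,⟨1,[(16,0),(8,0),(0,0)]⟩⟩ ⟨false,1,⟨1,[(14,0),(19,0)]⟩,⟨1,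
  [(3,0),(0,0),(27,0)]⟩⟩ ⟨true,0,⟨1,[(5,0),(10,0),(4,1),(10,0)]⟩,⟨4,[(5,0),(0,2),(2,2),(3,0),(3,4),
  (15,2)]⟩⟩,.o ⟨false,0,⟨6,[(1,0),(3,2),(3,0),(7,6),(1,1),(2,1),(4,0)]⟩,⟨7,[(14,0),(0,0),(0,3),(10,
  1),(5,3)]⟩⟩]⟩)))) (.Q [0,-1,0,-1,1,0,-1,-1,1,0,1,-1] (.p true [0,0,1] [0,0,0,1] (⟨0,[(23,0)]⟩,⟨0,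
  [(22,0)]⟩) .k 2 (⟨0,[(14,0)]⟩,⟨1,[(13,0),(8,0),(0,0)]⟩) .k (.r 0 ⟨0,[(0,0),(5,0),(20,0),(1,1)]⟩
  ⟨1,[(3,1),(8,0),(5,1),(12,0)]⟩)) (.Q [0,-1,0,0,1,0,-1,-1,1,0,1,-1] (.p true [0,0,1] [0,0,0,1] (⟨0,
  [(24,0)]⟩,⟨0,[(23,0)]⟩) .k 2 (⟨0,[(15,0)]⟩,⟨1,[(14,0),(8,0),(0,0)]⟩) .k (.r 0 ⟨0,[(1,0),(5,0),(20,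
  0),(1,1)]⟩ ⟨1,[(4,1),(8,0),(5,1),(12,0)]⟩)) (.Q [0,0,0,0,0,1,0,0,0,0,0,-1] (.p false [0,0,0,1] []
  (⟨0,[(16,0)]⟩,⟨1,[(15,0),(8,0),(0,0)]⟩) .k 0 (⟨0,[]⟩,⟨0,[]⟩) .k .k) (.I [1,1,1,1,-1,0,0,1,-1] (.R
  ⟨0,false,false,true,[0,0,0,1],[0,0,1],[1,1,1,0,0,0,0,1],(⟨0,[(18,0)]⟩,⟨1,[(17,0),(8,0),(0,0)]⟩),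
  (⟨0,[(27,0)]⟩,⟨0,[(26,0)]⟩),⟨0,[(1,0)]⟩,.k,.k,(.r (-1) ⟨1,[(16,0),(16,1),(0,0)]⟩ ⟨0,[(0,0),(6,0),
  (14,0),(12,0)]⟩),.k,.k,.k,⟨false,0,⟨0,[]⟩,⟨3,[(15,0),(0,0),(17,1)]⟩⟩,⟨true,0,⟨0,[(7,0),(10,0)]⟩,
  ⟨1,[(17,0),(2,0),(3,0)]⟩⟩,⟨true,(-1),⟨0,[(0,0),(32,0)]⟩,⟨0,[(5,0),(1,0),(14,0)]⟩⟩,⟨false,0,⟨9,[(0,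
  5),(3,3),(1,1),(0,5),(6,1),(3,9),(15,0),(0,0)]⟩,⟨0,[(2,0)]⟩⟩,⟨false,0,⟨0,[]⟩,⟨0,[]⟩⟩,⟨false,0,⟨0,
  []⟩,⟨0,[]⟩⟩,[.o ⟨false,0,⟨0,[(21,0)]⟩,⟨0,[(19,0),(15,0)]⟩⟩,.o ⟨false,0,⟨4,[(6,1),(0,0),(2,0),(3,
  1),(19,0)]⟩,⟨1,[(22,1),(5,0),(6,0)]⟩⟩,.a ⟨true,0,⟨1,[(17,0),(8,0),(0,0)]⟩,⟨0,[(18,0)]⟩⟩ ⟨true,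
  (-1),⟨0,[(10,0),(20,0),(1,2)]⟩,⟨1,[(7,1),(14,1),(11,0),(0,0)]⟩⟩ ⟨false,0,⟨4,[(6,1),(0,0),(2,0),(3,
  1),(3,4),(15,0)]⟩,⟨1,[(17,0),(1,0),(2,0),(12,1)]⟩⟩,.o ⟨false,0,⟨1,[(17,0),(2,0),(2,0)]⟩,⟨1,[(18,
  1),(9,0),(5,0)]⟩⟩]⟩) (.R ⟨0,false,false,true,[0,0,0,1],[0,1],[],(⟨0,[(18,0)]⟩,⟨1,[(17,0),(8,0),(0,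
  0)]⟩),(⟨0,[(30,0)]⟩,⟨0,[(29,0)]⟩),⟨0,[(1,0)]⟩,.k,.k,(.r (-1) ⟨1,[(16,0),(16,1),(0,0)]⟩ ⟨0,[(4,0),
  (2,0),(2,0),(11,0)]⟩),(.r (-1) ⟨1,[(16,0),(16,1),(0,0)]⟩ ⟨0,[(4,0),(2,0),(2,0),(11,0)]⟩),.k,.k,
  ⟨true,1,⟨1,[(0,0),(3,0),(20,0)]⟩,⟨0,[(7,0),(2,0),(11,0),(10,0)]⟩⟩,⟨false,1,⟨0,[(18,0),(15,0)]⟩,⟨1,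
  [(17,0),(2,0),(2,0)]⟩⟩,⟨false,1,⟨1,[(15,0),(19,0)]⟩,⟨0,[(0,0),(9,0),(20,0),(1,1)]⟩⟩,⟨true,0,⟨0,
  [(4,0),(2,0),(2,0),(7,0),(3,0),(8,0),(1,0)]⟩,⟨1,[(0,1),(5,0),(3,1),(6,0),(13,1),(1,4)]⟩⟩,⟨false,0,
  ⟨0,[]⟩,⟨0,[]⟩⟩,⟨false,0,⟨0,[]⟩,⟨0,[]⟩⟩,[.o ⟨false,0,⟨0,[(32,0)]⟩,⟨1,[(28,0),(4,1),(1,0)]⟩⟩,.o
  ⟨false,1,⟨3,[(15,0),(0,0),(15,3),(2,1)]⟩,⟨0,[(6,0)]⟩⟩,.a ⟨true,0,⟨1,[(17,0),(8,0),(0,0)]⟩,⟨0,[(18,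
  0)]⟩⟩ ⟨false,1,⟨3,[(15,0),(0,0),(18,1)]⟩,⟨0,[]⟩⟩ ⟨true,0,⟨0,[(18,0),(13,0)]⟩,⟨1,[(6,0),(10,0),(15,
  0)]⟩⟩,.o ⟨false,0,⟨1,[(17,0),(2,0),(2,0)]⟩,⟨1,[(18,1),(9,0),(5,0)]⟩⟩]⟩)) (.Q [0,0,0,1,0,0,0,0,1,1,
  0,-1] (.p false [0,0,0,1] [1] (⟨0,[(17,0)]⟩,⟨1,[(16,0),(8,0),(0,0)]⟩) .k 1 (⟨0,[]⟩,⟨0,[]⟩) .k .k)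
  (.R ⟨1,false,false,false,[0,0,0,1],[1,-1],[1,1,0,0,0,0,0,0,1],(⟨0,[(18,0)]⟩,⟨1,[(17,0),(8,0),(0,
  0)]⟩),(⟨0,[(29,0)]⟩,⟨0,[(30,0)]⟩),⟨0,[(1,0)]⟩,.k,.k,(.r (-1) ⟨1,[(16,0),(16,1),(0,0)]⟩ ⟨0,[(4,0),
  (2,0),(2,0),(11,0)]⟩),(.r 0 ⟨3,[(0,0),(2,0),(3,1),(2,1),(5,0),(1,1),(0,0)]⟩ ⟨0,[(4,0),(32,0)]⟩),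
  .k,.k,⟨false,0,⟨4,[(0,2),(5,1),(0,0),(2,0),(5,0),(1,2),(0,0),(11,1),(5,1)]⟩,⟨0,[(4,0)]⟩⟩,⟨true,0,
  ⟨9,[(6,3),(3,1),(7,9),(0,1),(0,1),(2,3),(4,0),(6,0)]⟩,⟨1,[(17,0),(8,0),(0,0)]⟩⟩,⟨false,0,⟨0,[]⟩,
  ⟨3,[(15,0),(0,0),(18,1)]⟩⟩,⟨false,1,⟨1,[(6,1),(8,0),(2,1),(16,0)]⟩,⟨0,[(0,0)]⟩⟩,⟨true,0,⟨0,[(32,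
  0)]⟩,⟨0,[(33,0)]⟩⟩,⟨false,1,⟨3,[(4,3),(2,1),(2,1),(7,3),(0,1),(8,0),(6,0)]⟩,⟨0,[(0,0),(32,0)]⟩⟩,
  [.o ⟨false,0,⟨0,[(6,0)]⟩,⟨3,[(15,0),(0,0),(15,3),(2,1)]⟩⟩,.o ⟨false,1,⟨1,[(28,0),(4,1),(1,0)]⟩,⟨0,
  [(32,0)]⟩⟩,.a ⟨true,0,⟨1,[(17,0),(8,0),(0,0)]⟩,⟨0,[(18,0)]⟩⟩ ⟨false,0,⟨0,[(0,0),(5,0),(11,0)]⟩,⟨1,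
  [(15,0),(19,0)]⟩⟩ ⟨true,0,⟨0,[(6,0),(11,0)]⟩,⟨1,[(12,0),(0,0),(3,0),(19,0)]⟩⟩,.o ⟨false,0,⟨1,[(17,
  0),(2,0),(2,0)]⟩,⟨1,[(18,1),(9,0),(5,0)]⟩⟩]⟩) (.R ⟨1,false,false,false,[1,0,0,-1],[1,-1,-1],[0,0,
  0,-1,0,0,0,0,-1],(⟨1,[(17,0),(8,0),(0,0)]⟩,⟨0,[(18,0)]⟩),(⟨0,[(11,0)]⟩,⟨0,[(27,0),(2,0)]⟩),⟨0,[(1,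
  0),(15,0)]⟩,.k,.k,(.r (-1) ⟨0,[(4,0),(32,0)]⟩ ⟨0,[(5,0),(1,0),(2,0),(11,0),(10,0)]⟩),(.r 0 ⟨1,
  [(10,0),(4,0),(9,0)]⟩ ⟨0,[(5,0),(1,0),(14,0),(10,0)]⟩),.k,.k,⟨false,0,⟨2,[(0,1),(3,0),(5,0),(6,0),
  (7,1),(0,0),(0,0),(3,0)]⟩,⟨0,[(5,0),(1,0),(14,0)]⟩⟩,⟨true,0,⟨1,[(17,0),(2,0),(3,0)]⟩,⟨0,[(7,0),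
  (10,0)]⟩⟩,⟨true,0,⟨0,[(33,0)]⟩,⟨0,[(32,0)]⟩⟩,⟨false,1,⟨0,[(3,0)]⟩,⟨2,[(0,2),(8,0),(0,0),(2,1),(17,
  1),(3,0)]⟩⟩,⟨false,1,⟨3,[(15,0),(0,0),(18,1)]⟩,⟨0,[]⟩⟩,⟨false,1,⟨0,[(2,0)]⟩,⟨0,[(0,0),(12,0)]⟩⟩,
  [.o ⟨false,1,⟨7,[(0,3),(2,3),(11,0),(0,0),(5,3),(5,1)]⟩,⟨4,[(6,0),(0,2),(2,2),(3,0),(19,2)]⟩⟩,.o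
  ⟨false,1,⟨0,[(0,0),(1,0)]⟩,⟨6,[(7,0),(2,0),(3,1),(6,1),(6,0),(2,1),(0,2)]⟩⟩,.a ⟨true,0,⟨0,[(18,
  0)]⟩,⟨1,[(17,0),(8,0),(0,0)]⟩⟩ ⟨true,0,⟨1,[(0,1),(16,0),(8,0),(0,0)]⟩,⟨0,[(5,0),(1,0),(2,0),(11,
  0),(8,0),(1,1)]⟩⟩ ⟨false,1,⟨1,[(0,0),(2,0),(13,0),(4,0),(12,0)]⟩,⟨4,[(0,1),(4,1),(1,1),(2,1),(2,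
  0),(0,0),(3,2),(12,1)]⟩⟩,.o ⟨false,0,⟨9,[(6,3),(3,1),(7,9),(0,1),(0,1),(2,3),(4,0),(6,0)]⟩,⟨7,
  [(15,0),(0,0),(0,3),(10,1),(5,3)]⟩⟩]⟩))) (.R ⟨1,true,false,true,[1,0,-1],[1,0,0,-1],[0,1,0,-1,0,0,
  0,-1],(⟨0,[(24,0)]⟩,⟨0,[(25,0)]⟩),(⟨1,[(15,0),(8,0),(0,0)]⟩,⟨0,[(16,0)]⟩),⟨0,[(9,0)]⟩,.k,.k,.k,.k,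
  (.r (-1) ⟨0,[(3,0),(1,0),(14,0),(10,0)]⟩ ⟨1,[(8,0),(4,0),(9,0)]⟩),.k,⟨false,1,⟨0,[(3,0),(1,0),(14,
  0),(10,0)]⟩,⟨9,[(0,1),(1,7),(5,5),(1,0),(4,0),(2,0),(4,2),(5,4)]⟩⟩,⟨true,0,⟨0,[(5,0),(10,0)]⟩,⟨1,
  [(15,0),(2,0),(3,0)]⟩⟩,⟨false,0,⟨0,[(31,0)]⟩,⟨0,[(30,0),(2,0)]⟩⟩,⟨true,(-1),⟨0,[(0,0)]⟩,⟨15,[(1,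
  7),(8,7),(2,0),(0,4),(0,3),(10,1)]⟩⟩,⟨true,0,⟨0,[(35,0)]⟩,⟨0,[]⟩⟩,⟨false,0,⟨9,[(0,5),(4,1),(2,1),
  (2,1),(1,1),(2,3),(9,0),(2,3),(3,4)]⟩,⟨0,[(1,0)]⟩⟩,[]⟩)) (.Q [0,0,0,0,0,1,0,0,0,0,0,-1] (.p false
  [0,0,0,1] [] (⟨0,[(15,0)]⟩,⟨1,[(14,0),(8,0),(0,0)]⟩) .k 0 (⟨0,[]⟩,⟨0,[]⟩) .k .k) (.R ⟨0,false,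
  false,true,[0,0,0,1],[0,1],[],(⟨0,[(16,0)]⟩,⟨1,[(15,0),(8,0),(0,0)]⟩),(⟨0,[(28,0)]⟩,⟨0,[(27,0)]⟩),
  ⟨0,[(0,0)]⟩,.k,.k,(.r (-1) ⟨1,[(14,0),(16,1),(0,0)]⟩ ⟨3,[(1,1),(0,1),(5,1),(6,0),(1,0),(2,2),(0,
  1),(11,1)]⟩),(.r (-1) ⟨1,[(14,0),(16,1),(0,0)]⟩ ⟨3,[(1,1),(0,1),(5,1),(6,0),(1,0),(2,2),(0,1),(11,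
  1)]⟩),.k,.k,⟨true,1,⟨1,[(2,0),(0,0),(27,0)]⟩,⟨0,[(5,0),(2,0),(11,0),(10,0)]⟩⟩,⟨false,1,⟨0,[(16,0),
  (15,0)]⟩,⟨1,[(15,0),(2,0),(2,0)]⟩⟩,⟨true,0,⟨1,[(1,1),(2,0),(10,0),(4,1),(10,0),(1,1)]⟩,⟨0,[(3,0),
  (1,0),(2,0),(11,0),(8,0),(1,2)]⟩⟩,⟨false,0,⟨0,[(1,0),(18,0),(12,0)]⟩,⟨1,[(4,0),(9,0),(0,0),(15,0),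
  (1,0)]⟩⟩,⟨false,0,⟨0,[]⟩,⟨0,[]⟩⟩,⟨false,0,⟨0,[]⟩,⟨0,[]⟩⟩,[.o ⟨false,0,⟨0,[(30,0)]⟩,⟨1,[(26,0),(4,
  1),(1,0)]⟩⟩,.o ⟨false,1,⟨3,[(13,0),(0,0),(15,3),(2,1)]⟩,⟨0,[(4,0)]⟩⟩,.a ⟨true,0,⟨1,[(15,0),(8,0),
  (0,0)]⟩,⟨0,[(16,0)]⟩⟩ ⟨false,1,⟨3,[(13,0),(0,0),(18,1)]⟩,⟨0,[]⟩⟩ ⟨true,0,⟨0,[(16,0),(13,0)]⟩,⟨1,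
  [(4,0),(10,0),(15,0)]⟩⟩,.o ⟨false,0,⟨1,[(15,0),(2,0),(2,0)]⟩,⟨1,[(16,1),(9,0),(5,0)]⟩⟩]⟩) (.R ⟨1,
  false,false,true,[0,0,0,1],[0,1],[1,0,0,0,0,0,0,0,1],(⟨0,[(16,0)]⟩,⟨1,[(15,0),(8,0),(0,0)]⟩),(⟨0,
  [(28,0)]⟩,⟨0,[(27,0)]⟩),⟨0,[(0,0)]⟩,.k,.k,(.r (-1) ⟨1,[(14,0),(16,1),(0,0)]⟩ ⟨3,[(1,1),(0,1),(5,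
  1),(6,0),(1,0),(2,2),(0,1),(11,1)]⟩),(.r (-1) ⟨1,[(14,0),(16,1),(0,0)]⟩ ⟨3,[(1,1),(0,1),(5,1),(6,
  0),(1,0),(2,2),(0,1),(11,1)]⟩),(.r (-1) ⟨0,[(3,0),(25,0),(1,2)]⟩ ⟨5,[(1,1),(6,3),(1,1),(2,1),(1,
  0),(1,0),(2,2),(0,3),(11,3)]⟩),.k,⟨true,1,⟨0,[(3,0),(27,0)]⟩,⟨1,[(1,1),(2,0),(0,1),(2,1),(6,0),(4,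
  3),(10,2),(1,1)]⟩⟩,⟨false,1,⟨0,[(16,0),(15,0)]⟩,⟨1,[(15,0),(2,0),(2,0)]⟩⟩,⟨true,0,⟨0,[]⟩,⟨0,[(35,
  0)]⟩⟩,⟨false,0,⟨0,[(1,0),(18,0),(12,0)]⟩,⟨1,[(4,0),(9,0),(0,0),(15,0),(1,0)]⟩⟩,⟨false,1,⟨0,[(30,
  0),(2,0)]⟩,⟨0,[(31,0)]⟩⟩,⟨false,0,⟨0,[(1,0),(8,0),(22,0)]⟩,⟨1,[(4,0),(9,0),(0,0),(15,2),(1,0)]⟩⟩,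
  [.o ⟨false,0,⟨0,[(30,0)]⟩,⟨1,[(26,0),(4,1),(1,0)]⟩⟩,.o ⟨false,1,⟨3,[(13,0),(0,0),(15,3),(2,1)]⟩,
  ⟨0,[(4,0)]⟩⟩,.a ⟨true,0,⟨1,[(15,0),(8,0),(0,0)]⟩,⟨0,[(16,0)]⟩⟩ ⟨false,1,⟨1,[(14,0),(18,0)]⟩,⟨1,
  [(1,1),(2,0),(10,0),(4,1),(10,0),(1,1)]⟩⟩ ⟨true,0,⟨0,[(16,0),(13,0)]⟩,⟨1,[(4,0),(10,0),(15,0)]⟩⟩,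
  .o ⟨false,0,⟨1,[(15,0),(2,0),(2,0)]⟩,⟨1,[(16,1),(9,0),(5,0)]⟩⟩]⟩))))

theorem ok42 : chk (cU (-1) false 3) t42 l27 = true := by decide +kernel

noncomputable def t47 : Tre :=
  (.Q [0,0,0,0,0,-1,0,0,0,0,1] (.ed false [1,-1,1] .k) (.Q [0,0,0,0,0,0,-1,0,0,0,1] (.p true [0,0,
  1] [] (⟨0,[(21,0)]⟩,⟨0,[(20,0)]⟩) .k 0 (⟨0,[]⟩,⟨0,[]⟩) .k .k) (.K ⟨0,[0,-1,1],0,0,(⟨0,[(1,0)]⟩,⟨0,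
  [(21,0),(3,0)]⟩),.k,(.r (-1) ⟨2,[(2,3),(0,0),(6,0),(0,0)]⟩ ⟨0,[(4,1),(0,0),(8,1),(15,0)]⟩),.k,.k,
  .k,[⟨0,[(0,0)]⟩,⟨0,[(4,0)]⟩,⟨0,[(7,0)]⟩,⟨0,[(16,0),(11,0)]⟩]⟩) (.Q [0,-1,0,-1,0,0,1,1,0,1,-1] (.p
  false [0,0,1] [1] (⟨0,[(22,0)]⟩,⟨0,[(21,0)]⟩) .k 1 (⟨0,[]⟩,⟨0,[]⟩) .k .k) (.R ⟨1,false,false,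
  false,[1,-1],[0,-1,1],[1,0,-1,-1],(⟨0,[(25,0)]⟩,⟨0,[(26,0)]⟩),(⟨0,[(2,0)]⟩,⟨0,[(22,0),(3,0)]⟩),⟨0,
  [(2,0),(4,0)]⟩,.k,.k,(.r (-1) ⟨5,[(3,3),(0,3),(6,0),(0,0)]⟩ ⟨5,[(6,3),(1,3),(2,0),(0,0),(6,3),(11,
  1)]⟩),.k,.k,.k,⟨false,1,⟨11,[(1,7),(2,3),(3,7),(2,0),(0,0),(17,1),(0,3)]⟩,⟨0,[(21,0)]⟩⟩,⟨true,0,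
  ⟨0,[(5,0)]⟩,⟨0,[(16,0)]⟩⟩,⟨true,0,⟨0,[]⟩,⟨0,[(33,0)]⟩⟩,⟨true,0,⟨2,[(0,0),(8,0),(0,0),(7,0)]⟩,⟨0,
  [(15,0)]⟩⟩,⟨false,1,⟨0,[(28,0),(2,0)]⟩,⟨0,[(29,0)]⟩⟩,⟨true,0,⟨0,[(9,0)]⟩,⟨0,[(15,0),(13,0)]⟩⟩,[.o
  ⟨false,0,⟨0,[(3,0),(15,0)]⟩,⟨1,[(8,1),(15,0),(6,0)]⟩⟩,.a ⟨true,0,⟨0,[(0,0)]⟩,⟨0,[(8,0)]⟩⟩ ⟨true,1,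
  ⟨11,[(3,3),(0,3),(6,0),(0,0),(18,5)]⟩,⟨0,[(1,0),(4,0),(11,0),(10,0)]⟩⟩ ⟨false,1,⟨0,[(0,0),(29,
  0)]⟩,⟨9,[(6,1),(1,5),(6,5),(0,1),(2,3),(4,0),(6,0)]⟩⟩,.o ⟨false,0,⟨0,[(1,0),(14,0)]⟩,⟨3,[(11,0),
  (0,0),(17,1)]⟩⟩,.o ⟨false,0,⟨0,[(16,0),(2,0)]⟩,⟨0,[(30,0)]⟩⟩]⟩) (.Q [0,0,0,1,0,0,0,0,0,1] (.pp
  false [-1,1]) (.R ⟨1,false,false,true,[1,0,-1],[0,1],[1,1,0,0,0,0,0,-1],(⟨0,[(23,0)]⟩,⟨0,[(24,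
  0)]⟩),(⟨0,[(27,0)]⟩,⟨0,[(26,0)]⟩),⟨0,[(8,0)]⟩,.k,.k,.k,.k,(.x 0 ⟨1,[(3,0),(4,2),(8,2),(2,0)]⟩ ⟨0,
  [(2,0),(21,0),(2,1),(3,0)]⟩),.k,⟨true,1,⟨11,[(5,7),(3,3),(2,0),(0,0),(6,3),(11,1)]⟩,⟨0,[(7,0),(22,
  0)]⟩⟩,⟨false,1,⟨0,[(6,0),(24,0)]⟩,⟨0,[(17,0)]⟩⟩,⟨false,0,⟨0,[]⟩,⟨3,[(12,0),(0,0),(18,1)]⟩⟩,⟨false,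
  0,⟨0,[(10,0)]⟩,⟨0,[(16,0),(13,0),(1,0)]⟩⟩,⟨true,0,⟨0,[(29,0)]⟩,⟨0,[(30,0)]⟩⟩,⟨false,0,⟨3,[(0,0),
  (1,0),(4,0),(2,2),(17,1),(3,0)]⟩,⟨0,[(16,0),(13,1),(1,0)]⟩⟩,[.o ⟨false,0,⟨0,[(29,0)]⟩,⟨1,[(25,0),
  (4,1),(1,0)]⟩⟩,.a ⟨true,0,⟨0,[(0,0)]⟩,⟨0,[(30,0)]⟩⟩ ⟨false,1,⟨11,[(2,7),(2,3),(3,7),(2,0),(0,0),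
  (17,1),(0,3)]⟩,⟨0,[(22,0)]⟩⟩ ⟨true,0,⟨0,[(0,0),(1,0)]⟩,⟨0,[(17,0),(12,0)]⟩⟩,.o ⟨false,1,⟨3,[(12,
  0),(0,0),(3,3),(13,1)]⟩,⟨0,[(2,0)]⟩⟩,.o ⟨false,0,⟨0,[(17,0)]⟩,⟨3,[(2,3),(9,0),(0,0),(17,1)]⟩⟩]⟩)
  (.Q [0,-1,0,-2,0,0,1,1,0,0,-1] (.p false [0,0,1] [] (⟨0,[(24,0)]⟩,⟨0,[(23,0)]⟩) .k 0 (⟨0,[]⟩,⟨0,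
  []⟩) .k .k) (.R ⟨1,true,false,true,[0,0,1],[0,1],[1,1,0,0,0,0,0,1],(⟨0,[(25,0)]⟩,⟨0,[(24,0)]⟩),
  (⟨0,[(28,0)]⟩,⟨0,[(27,0)]⟩),⟨0,[(4,0)]⟩,.k,.k,.k,.k,(.r (-1) ⟨2,[(5,3),(0,0),(6,0),(0,0)]⟩ ⟨0,[(3,
  1),(4,0),(11,1),(12,0)]⟩),.k,⟨true,0,⟨0,[(5,0)]⟩,⟨1,[(0,0),(2,3),(4,1),(11,4),(12,1)]⟩⟩,⟨false,1,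
  ⟨1,[(5,1),(4,1),(21,0),(0,0)]⟩,⟨0,[(21,0)]⟩⟩,⟨false,0,⟨0,[]⟩,⟨3,[(13,0),(0,0),(18,1)]⟩⟩,⟨true,0,
  ⟨0,[(10,0)]⟩,⟨1,[(0,0),(18,0)]⟩⟩,⟨true,0,⟨0,[(30,0)]⟩,⟨0,[(31,0)]⟩⟩,⟨false,1,⟨0,[(10,0),(19,0),(2,
  0)]⟩,⟨0,[(0,0)]⟩⟩,[]⟩) (.Q [0,0,0,-1,0,0,-1,-1,-1,-1,1,1] (.p true [0,0,1] [1,0,0,-1] (⟨0,[(25,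
  0)]⟩,⟨0,[(24,0)]⟩) .k 2 (⟨1,[(15,0),(8,0),(0,0)]⟩,⟨0,[(16,0)]⟩) .k (.x 0 ⟨0,[(3,0),(21,0)]⟩ ⟨3,
  [(13,0),(0,0),(3,3),(5,3),(7,1)]⟩)) (.I [0,0,-1,-1,0,0,0,0,-1] (.R ⟨1,false,false,false,[1,0,0,
  -1],[0,1,1],[1,1,0,0,0,0,0,0,-1],(⟨1,[(17,0),(8,0),(0,0)]⟩,⟨0,[(18,0)]⟩),(⟨0,[(27,0),(2,0)]⟩,⟨0,
  [(11,0)]⟩),⟨1,[(6,0),(4,0),(5,0)]⟩,.k,.k,(.r 0 ⟨0,[(0,0)]⟩ ⟨15,[(2,3),(7,3),(4,4),(0,12),(6,5),(0,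
  1),(10,1)]⟩),(.r (-1) ⟨21,[(1,5),(0,3),(2,4),(2,11),(0,2),(5,7),(1,2),(5,1),(11,1)]⟩ ⟨1,[(10,0),
  (5,0),(8,0)]⟩),(.r (-1) ⟨25,[(0,11),(0,3),(0,1),(2,3),(2,19),(0,1),(5,4),(1,1),(17,0)]⟩ ⟨3,[(10,
  3),(4,0),(0,2)]⟩),.k,⟨true,0,⟨0,[(0,0),(4,0),(16,0)]⟩,⟨1,[(10,1),(5,0),(16,1),(1,0)]⟩⟩,⟨false,1,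
  ⟨1,[(5,0),(3,0),(7,0),(16,1)]⟩,⟨0,[(18,0),(1,0)]⟩⟩,⟨false,0,⟨0,[]⟩,⟨3,[(15,0),(0,0),(18,1)]⟩⟩,
  ⟨false,1,⟨5,[(5,1),(4,1),(2,1),(0,0),(1,2),(0,2),(16,1),(0,2)]⟩,⟨0,[(1,0)]⟩⟩,⟨true,0,⟨0,[(32,0)]⟩,
  ⟨0,[(33,0)]⟩⟩,⟨false,1,⟨3,[(5,1),(4,1),(2,1),(2,1),(0,1),(13,1),(2,0),(0,2)]⟩,⟨0,[(1,0),(31,0)]⟩⟩,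
  [.o ⟨false,0,⟨13,[(5,9),(1,1),(2,7),(3,1),(13,0),(5,6)]⟩,⟨15,[(8,7),(6,0),(0,0),(3,11),(1,7),(0,
  3),(4,1),(6,3)]⟩⟩,.o ⟨false,1,⟨1,[(13,1),(14,0),(6,0)]⟩,⟨0,[(3,0),(18,0)]⟩⟩,.a ⟨true,0,⟨0,[(18,
  0)]⟩,⟨1,[(17,0),(8,0),(0,0)]⟩⟩ ⟨false,0,⟨25,[(0,11),(0,3),(0,1),(2,3),(3,1),(0,5),(4,4),(1,1),(17,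
  0)]⟩,⟨1,[(16,0),(18,0)]⟩⟩ ⟨true,0,⟨5,[(5,1),(4,1),(2,1),(0,0),(2,2),(16,1)]⟩,⟨0,[(3,0),(14,0),(3,
  0)]⟩⟩,.o ⟨false,0,⟨5,[(1,1),(1,1),(6,1),(5,0),(1,3),(4,1),(4,0)]⟩,⟨7,[(15,0),(0,0),(0,3),(10,1),
  (5,3)]⟩⟩]⟩) (.R ⟨1,true,false,false,[1,0,-1],[0,0,0,1],[0,1,0,-1,0,0,0,-1],(⟨0,[(26,0)]⟩,⟨0,[(27,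
  0)]⟩),(⟨0,[(18,0)]⟩,⟨1,[(17,0),(8,0),(0,0)]⟩),⟨0,[(11,0)]⟩,.k,.k,.k,.k,(.r (-1) ⟨21,[(1,5),(0,3),
  (2,4),(2,11),(0,2),(5,7),(1,2),(5,1),(11,1)]⟩ ⟨1,[(10,0),(5,0),(8,0)]⟩),.k,⟨false,0,⟨1,[(1,1),(3,
  1),(1,0),(1,0),(7,0),(4,0),(8,0)]⟩,⟨1,[(10,0),(5,0),(8,0),(8,0),(0,0)]⟩⟩,⟨true,0,⟨1,[(5,0),(3,0),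
  (7,0)]⟩,⟨0,[(18,0),(1,0)]⟩⟩,⟨false,0,⟨0,[(33,0)]⟩,⟨11,[(2,3),(10,3),(1,0),(0,0),(11,1),(6,7)]⟩⟩,
  ⟨true,0,⟨1,[(0,1),(4,0),(1,1),(1,0),(7,0)]⟩,⟨0,[(1,0),(30,0)]⟩⟩,⟨true,0,⟨0,[(37,0)]⟩,⟨0,[]⟩⟩,
  ⟨false,1,⟨5,[(5,1),(4,1),(2,1),(0,0),(1,2),(0,2),(16,1),(0,2)]⟩,⟨0,[(1,0)]⟩⟩,[]⟩)) (.I [1,-1,1,1,
  0,0,0,0,-1] (.I [1,1,1,1,-1,0,0,0,-1] (.R ⟨1,false,false,true,[1,0,0,-1],[0,0,1],[0,0,0,-1,0,0,0,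
  0,-1],(⟨1,[(18,0),(8,0),(0,0)]⟩,⟨0,[(19,0)]⟩),(⟨0,[(28,0)]⟩,⟨0,[(27,0)]⟩),⟨1,[(7,0),(4,0),(5,0)]⟩,
  .k,.k,(.x 0 ⟨1,[(7,0),(4,0),(8,0),(2,0)]⟩ ⟨3,[(16,0),(0,0),(13,3),(3,1)]⟩),.k,(.r (-1) ⟨9,[(0,0),
  (0,2),(1,0),(5,7),(6,2),(6,0),(0,1)]⟩ ⟨1,[(11,0),(5,0),(8,0)]⟩),.k,⟨false,1,⟨0,[(0,0),(8,0),(26,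
  0)]⟩,⟨1,[(8,0),(2,0),(5,0),(14,0),(5,0)]⟩⟩,⟨true,0,⟨1,[(6,0),(3,0),(7,0)]⟩,⟨0,[(19,0),(1,0)]⟩⟩,
  ⟨true,0,⟨0,[(34,0)]⟩,⟨0,[(33,0)]⟩⟩,⟨false,0,⟨0,[(2,0),(31,0)]⟩,⟨15,[(1,13),(3,7),(2,1),(0,9),(6,
  0),(2,15),(1,7),(14,4)]⟩⟩,⟨false,1,⟨3,[(16,0),(0,0),(18,1)]⟩,⟨0,[]⟩⟩,⟨false,0,⟨0,[(2,0)]⟩,⟨0,[(1,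
  0),(7,0),(9,0),(1,0)]⟩⟩,[.o ⟨false,0,⟨0,[(22,0)]⟩,⟨0,[(20,0),(15,0)]⟩⟩,.o ⟨false,0,⟨6,[(6,2),(1,
  1),(2,0),(3,1),(13,0)]⟩,⟨1,[(23,1),(5,0),(6,0)]⟩⟩,.a ⟨true,0,⟨0,[(19,0)]⟩,⟨1,[(18,0),(8,0),(0,
  0)]⟩⟩ ⟨true,0,⟨7,[(0,2),(0,2),(6,1),(0,1),(6,0),(17,7)]⟩,⟨0,[(2,0),(16,0),(0,0)]⟩⟩ ⟨false,0,⟨1,
  [(15,0),(2,0)]⟩,⟨0,[(19,0),(0,0),(15,0)]⟩⟩,.o ⟨false,0,⟨13,[(4,5),(0,1),(5,1),(7,13),(1,3),(2,5),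
  (4,0),(6,0)]⟩,⟨7,[(16,0),(0,0),(0,3),(10,1),(5,3)]⟩⟩]⟩) (.R ⟨1,false,false,false,[1,0,0,-1],[1,
  -1],[1,1,0,0,0,0,0,0,-1],(⟨1,[(18,0),(8,0),(0,0)]⟩,⟨0,[(19,0)]⟩),(⟨0,[(30,0)]⟩,⟨0,[(31,0)]⟩),⟨1,
  [(7,0),(4,0),(5,0)]⟩,.k,.k,(.r (-1) ⟨11,[(8,3),(0,3),(6,6),(0,0)]⟩ ⟨0,[(0,0),(5,0),(4,0),(11,
  0)]⟩),(.r 0 ⟨2,[(1,0),(4,0),(4,0),(4,0),(6,0)]⟩ ⟨11,[(8,3),(0,3),(6,0),(0,6)]⟩),.k,.k,⟨false,0,⟨5,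
  [(1,1),(4,4),(1,2),(2,1),(4,1),(6,4),(8,2)]⟩,⟨0,[(0,0)]⟩⟩,⟨true,0,⟨1,[(18,0),(2,0),(2,0)]⟩,⟨0,
  [(19,0)]⟩⟩,⟨false,0,⟨0,[]⟩,⟨3,[(16,0),(0,0),(18,1)]⟩⟩,⟨false,1,⟨1,[(4,0),(12,0),(0,0),(15,0),(1,
  0)]⟩,⟨1,[(1,1),(4,0),(1,0),(10,1),(3,0),(8,0)]⟩⟩,⟨true,0,⟨0,[(33,0)]⟩,⟨0,[(34,0)]⟩⟩,⟨false,1,⟨4,
  [(2,0),(1,1),(0,0),(11,1),(0,1),(17,2)]⟩,⟨0,[(1,0),(4,0),(1,0),(10,0),(3,0)]⟩⟩,[.o ⟨false,0,⟨0,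
  [(4,0)]⟩,⟨5,[(3,1),(10,1),(1,1),(0,1),(11,0),(6,0)]⟩⟩,.o ⟨false,1,⟨3,[(4,3),(11,0),(0,0),(18,1)]⟩,
  ⟨0,[(33,0)]⟩⟩,.a ⟨true,0,⟨0,[(19,0)]⟩,⟨1,[(18,0),(8,0),(0,0)]⟩⟩ ⟨false,0,⟨0,[(1,0),(4,0),(1,0),
  (14,0)]⟩,⟨1,[(17,0),(18,0)]⟩⟩ ⟨true,0,⟨1,[(4,0),(13,0),(15,0)]⟩,⟨0,[(19,0),(13,0)]⟩⟩,.o ⟨false,0,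
  ⟨13,[(4,5),(0,1),(5,1),(7,13),(1,3),(2,5),(4,0),(6,0)]⟩,⟨7,[(16,0),(0,0),(0,3),(10,1),(5,
  3)]⟩⟩]⟩)) (.Q [0,0,0,0,0,0,1,1,-1,0,-1,1] (.p false [0,0,1] [0,0,0,1] (⟨0,[(27,0)]⟩,⟨0,[(26,0)]⟩)
  .k 2 (⟨0,[(18,0)]⟩,⟨1,[(17,0),(8,0),(0,0)]⟩) .k (.x 0 ⟨0,[(5,0),(21,0)]⟩ ⟨3,[(15,0),(0,0),(3,3),
  (5,3),(7,1)]⟩)) (.I [0,-1,2,1,0,0,0,-1,1] (.R ⟨1,false,false,false,[1,0,0,-1],[1,1,-1],[1,1,0,0,0,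
  0,0,0,-1],(⟨1,[(19,0),(8,0),(0,0)]⟩,⟨0,[(20,0)]⟩),(⟨0,[(28,0),(3,0)]⟩,⟨0,[(8,0)]⟩),⟨1,[(8,0),(4,
  0),(5,0)]⟩,.k,.k,(.r (-1) ⟨11,[(9,3),(0,3),(6,6),(0,0)]⟩ ⟨9,[(0,2),(1,0),(9,2),(5,2),(14,0),(0,
  0)]⟩),(.r (-1) ⟨3,[(9,3),(7,2),(0,0)]⟩ ⟨2,[(0,1),(1,0),(1,0),(2,0)]⟩),(.r (-1) ⟨11,[(9,15),(0,3),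
  (6,6),(0,0)]⟩ ⟨0,[(0,0),(33,0)]⟩),.k,⟨true,0,⟨1,[(1,1),(7,1),(9,0),(1,0),(2,0)]⟩,⟨0,[(0,0)]⟩⟩,
  ⟨false,1,⟨11,[(4,5),(1,3),(2,11),(0,1),(8,5),(2,1),(13,4),(0,4)]⟩,⟨0,[(20,0),(4,0)]⟩⟩,⟨false,0,⟨0,
  []⟩,⟨3,[(17,0),(0,0),(18,1)]⟩⟩,⟨false,1,⟨1,[(0,0),(1,0),(1,0),(1,0),(2,0),(9,0),(17,1)]⟩,⟨0,[(1,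
  0),(33,0)]⟩⟩,⟨true,0,⟨0,[(34,0)]⟩,⟨0,[(35,0)]⟩⟩,⟨false,1,⟨5,[(0,4),(1,0),(1,2),(1,2),(2,4),(9,2),
  (13,3),(3,5)]⟩,⟨0,[(1,0),(33,1)]⟩⟩,[.o ⟨false,1,⟨1,[(4,0),(19,0),(5,0),(6,0)]⟩,⟨1,[(5,0),(10,0),
  (18,0)]⟩⟩,.o ⟨false,1,⟨0,[(6,0),(30,0)]⟩,⟨0,[(23,0),(11,0)]⟩⟩,.a ⟨true,0,⟨0,[(20,0)]⟩,⟨1,[(19,0),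
  (8,0),(0,0)]⟩⟩ ⟨true,0,⟨1,[(1,1),(17,0),(1,0),(2,0)]⟩,⟨2,[(0,1),(1,0),(6,1),(23,0)]⟩⟩ ⟨false,1,⟨1,
  [(4,0),(14,0),(1,0),(15,1)]⟩,⟨1,[(5,0),(10,0),(3,1),(14,0)]⟩⟩,.o ⟨false,0,⟨7,[(0,0),(0,0),(3,2),
  (6,0),(7,6),(0,0),(0,1),(2,1),(4,0)]⟩,⟨7,[(17,0),(0,0),(0,3),(10,1),(5,3)]⟩⟩]⟩) (.Q [0,0,0,-1,0,0,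
  0,0,1,0,0,-1] (.p false [0,0,0,1] [] (⟨0,[(20,0)]⟩,⟨1,[(19,0),(8,0),(0,0)]⟩) .k 0 (⟨0,[]⟩,⟨0,[]⟩)
  .k .k) (.Q [0,0,0,0,0,1,0,0,0,0,0,-1] (.p false [0,0,0,1] [] (⟨0,[(21,0)]⟩,⟨1,[(20,0),(8,0),(0,
  0)]⟩) .k 0 (⟨0,[]⟩,⟨0,[]⟩) .k .k) (.I [0,0,1,1,0,0,0,0,-1] (.R ⟨0,false,false,false,[0,0,0,1],[0,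
  1],[1,0,1,1],(⟨0,[(23,0)]⟩,⟨1,[(22,0),(8,0),(0,0)]⟩),(⟨0,[(35,0)]⟩,⟨0,[(34,0)]⟩),⟨0,[(1,0)]⟩,.k,
  .k,(.r (-1) ⟨11,[(12,3),(0,3),(6,0),(0,6)]⟩ ⟨0,[(0,0)]⟩),(.r (-1) ⟨11,[(12,3),(0,3),(6,0),(0,6)]⟩
  ⟨0,[(0,0)]⟩),.k,.k,⟨true,0,⟨0,[]⟩,⟨1,[(28,0),(0,0)]⟩⟩,⟨false,1,⟨0,[(23,0),(15,0)]⟩,⟨1,[(22,0),(2,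
  0),(2,0)]⟩⟩,⟨true,0,⟨0,[(0,0)]⟩,⟨0,[(5,0)]⟩⟩,⟨false,1,⟨3,[(4,1),(2,1),(12,0),(2,1),(16,2)]⟩,⟨0,
  [(2,0)]⟩⟩,⟨false,0,⟨0,[]⟩,⟨0,[]⟩⟩,⟨false,0,⟨0,[]⟩,⟨0,[]⟩⟩,[.o ⟨false,1,⟨5,[(7,1),(10,1),(1,1),(0,
  1),(11,0),(6,0)]⟩,⟨0,[(8,0)]⟩⟩,.o ⟨false,1,⟨11,[(7,3),(10,3),(1,0),(0,0),(11,1),(6,7)]⟩,⟨0,[(8,0),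
  (33,0)]⟩⟩,.a ⟨true,0,⟨1,[(22,0),(8,0),(0,0)]⟩,⟨0,[(23,0)]⟩⟩ ⟨true,0,⟨9,[(0,1),(6,1),(7,1),(5,0),
  (6,2),(0,0),(10,0)]⟩,⟨2,[(3,0),(1,0),(4,0),(16,0),(10,0)]⟩⟩ ⟨false,1,⟨3,[(4,1),(2,1),(13,0),(1,1),
  (16,2)]⟩,⟨1,[(8,0),(13,0),(15,0)]⟩⟩,.o ⟨false,0,⟨1,[(22,0),(2,0),(2,0)]⟩,⟨1,[(23,1),(9,0),(5,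
  0)]⟩⟩]⟩) (.R ⟨0,false,false,true,[0,0,0,1],[0,0,1],[1,0,0,-1,0,0,0,0,1],(⟨0,[(23,0)]⟩,⟨1,[(22,0),
  (8,0),(0,0)]⟩),(⟨0,[(32,0)]⟩,⟨0,[(31,0)]⟩),⟨0,[(1,0)]⟩,.k,.k,(.x 0 ⟨1,[(11,0),(4,0),(8,0),(2,0)]⟩
  ⟨3,[(20,0),(0,0),(13,3),(3,1)]⟩),.k,.k,.k,⟨false,1,⟨0,[(0,0),(9,0),(16,0),(12,0)]⟩,⟨2,[(3,0),(11,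
  0),(4,0),(9,0),(6,1)]⟩⟩,⟨true,0,⟨0,[(10,0),(12,0)]⟩,⟨1,[(22,0),(2,0),(3,0)]⟩⟩,⟨true,0,⟨0,[(38,
  0)]⟩,⟨0,[(37,0)]⟩⟩,⟨false,0,⟨0,[(4,0)]⟩,⟨1,[(2,1),(4,0),(19,0),(12,1)]⟩⟩,⟨false,0,⟨0,[]⟩,⟨0,[]⟩⟩,
  ⟨false,0,⟨0,[]⟩,⟨0,[]⟩⟩,[.o ⟨false,0,⟨0,[(26,0)]⟩,⟨0,[(24,0),(15,0)]⟩⟩,.o ⟨false,0,⟨6,[(10,2),(1,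
  1),(2,0),(3,1),(13,0)]⟩,⟨1,[(27,1),(5,0),(6,0)]⟩⟩,.a ⟨true,0,⟨1,[(22,0),(8,0),(0,0)]⟩,⟨0,[(23,
  0)]⟩⟩ ⟨true,0,⟨0,[(2,0),(20,0)]⟩,⟨2,[(3,0),(3,0),(2,1),(4,0),(4,0),(6,0)]⟩⟩ ⟨false,0,⟨6,[(0,1),(3,
  1),(5,0),(4,0),(3,1),(3,4),(9,0)]⟩,⟨1,[(22,0),(1,0),(2,0),(12,1)]⟩⟩,.o ⟨false,0,⟨1,[(22,0),(2,0),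
  (2,0)]⟩,⟨1,[(23,1),(9,0),(5,0)]⟩⟩]⟩)) (.Q [0,0,0,-2,0,0,0,0,-1,-1,0,1] (.p true [0,0,0,1] [1] (⟨0,
  [(22,0)]⟩,⟨1,[(21,0),(8,0),(0,0)]⟩) .k 1 (⟨0,[]⟩,⟨0,[]⟩) .k .k) (.R ⟨1,false,false,false,[0,0,0,
  1],[1,-1,-1],[0,0,0,-1,0,0,0,0,1],(⟨0,[(23,0)]⟩,⟨1,[(22,0),(8,0),(0,0)]⟩),(⟨0,[(16,0)]⟩,⟨0,[(32,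
  0),(2,0)]⟩),⟨0,[(1,0)]⟩,.k,.k,(.r (-1) ⟨11,[(12,3),(0,3),(6,0),(0,6)]⟩ ⟨3,[(0,1),(6,1),(2,0),(3,
  0),(0,1),(4,0),(1,0),(17,0)]⟩),(.r 0 ⟨1,[(15,0),(5,0),(8,0)]⟩ ⟨3,[(0,1),(6,1),(2,0),(2,1),(0,0),
  (5,0),(1,0),(17,0)]⟩),.k,.k,⟨false,0,⟨3,[(5,1),(6,1),(2,1),(5,0),(18,0)]⟩,⟨19,[(0,9),(2,3),(3,17),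
  (2,12),(2,5),(0,4),(5,2),(1,4),(17,10)]⟩⟩,⟨true,0,⟨0,[(23,0),(1,0)]⟩,⟨1,[(10,0),(3,0),(7,0)]⟩⟩,
  ⟨true,0,⟨0,[(38,0)]⟩,⟨0,[(37,0)]⟩⟩,⟨false,1,⟨1,[(0,1),(6,0),(19,0),(12,1)]⟩,⟨0,[(6,0)]⟩⟩,⟨false,1,
  ⟨3,[(20,0),(0,0),(18,1)]⟩,⟨0,[]⟩⟩,⟨false,1,⟨0,[(0,0),(6,0),(32,0)]⟩,⟨3,[(2,1),(3,1),(12,0),(11,0),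
  (0,0)]⟩⟩,[.o ⟨false,1,⟨15,[(13,7),(6,0),(0,0),(3,11),(1,7),(0,3),(4,1),(6,3)]⟩,⟨13,[(10,9),(1,1),
  (2,7),(3,1),(13,0),(5,6)]⟩⟩,.o ⟨false,1,⟨2,[(0,0),(1,0),(21,1),(2,0),(12,2)]⟩,⟨6,[(10,0),(4,0),(3,
  1),(6,1),(6,0),(2,1),(0,2)]⟩⟩,.a ⟨true,0,⟨1,[(22,0),(8,0),(0,0)]⟩,⟨0,[(23,0)]⟩⟩ ⟨true,0,⟨0,[(2,0),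
  (20,0)]⟩,⟨2,[(3,0),(3,0),(2,1),(4,0),(4,0),(6,0)]⟩⟩ ⟨false,1,⟨2,[(0,0),(1,0),(20,2),(0,1),(2,0),
  (12,2)]⟩,⟨45,[(3,5),(2,5),(3,13),(4,7),(2,25),(3,19),(10,2),(2,3),(3,4)]⟩⟩,.o ⟨false,0,⟨1,[(22,0),
  (2,0),(2,0)]⟩,⟨1,[(23,1),(9,0),(5,0)]⟩⟩]⟩) (.I [0,-1,-1,-1,1,0,0,0,-1] (.R ⟨1,false,false,false,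
  [0,0,0,1],[1,-1],[1,1,0,0,0,0,0,0,1],(⟨0,[(24,0)]⟩,⟨1,[(23,0),(8,0),(0,0)]⟩),(⟨0,[(35,0)]⟩,⟨0,
  [(36,0)]⟩),⟨0,[(2,0)]⟩,.k,.k,(.r (-1) ⟨11,[(13,3),(0,3),(6,0),(0,6)]⟩ ⟨0,[(0,0),(10,0),(4,0),(11,
  0)]⟩),(.r 0 ⟨5,[(1,0),(1,2),(4,0),(1,0),(5,1),(5,0),(1,3),(4,1),(11,0)]⟩ ⟨11,[(13,3),(0,3),(6,6),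
  (0,0)]⟩),.k,.k,⟨false,0,⟨6,[(6,2),(1,1),(2,1),(4,1),(5,1),(14,0),(0,0)]⟩,⟨0,[(0,0)]⟩⟩,⟨true,0,⟨13,
  [(9,5),(0,1),(5,1),(7,13),(1,3),(2,5),(4,0),(6,0)]⟩,⟨1,[(23,0),(8,0),(0,0)]⟩⟩,⟨false,0,⟨0,[]⟩,⟨3,
  [(21,0),(0,0),(18,1)]⟩⟩,⟨false,1,⟨1,[(9,1),(11,0),(2,1),(16,0)]⟩,⟨2,[(1,1),(1,0),(28,0),(0,0)]⟩⟩,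
  ⟨true,0,⟨0,[(38,0)]⟩,⟨0,[(39,0)]⟩⟩,⟨false,1,⟨3,[(5,1),(3,1),(0,1),(10,0),(2,1),(16,2)]⟩,⟨2,[(1,0),
  (1,1),(28,1),(0,1)]⟩⟩,[.o ⟨false,0,⟨0,[(9,0)]⟩,⟨5,[(8,1),(10,1),(1,1),(0,1),(11,0),(6,0)]⟩⟩,.o
  ⟨false,1,⟨3,[(9,3),(11,0),(0,0),(18,1)]⟩,⟨0,[(38,0)]⟩⟩,.a ⟨true,0,⟨1,[(23,0),(8,0),(0,0)]⟩,⟨0,
  [(24,0)]⟩⟩ ⟨false,0,⟨1,[(1,0),(1,0),(5,0),(14,1)]⟩,⟨1,[(21,0),(19,0)]⟩⟩ ⟨true,0,⟨0,[(9,0),(14,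
  0)]⟩,⟨3,[(8,0),(10,1),(3,1),(4,0),(14,1)]⟩⟩,.o ⟨false,0,⟨1,[(23,0),(2,0),(2,0)]⟩,⟨1,[(24,1),(9,0),
  (5,0)]⟩⟩]⟩) (.R ⟨1,false,false,false,[1,0,0,-1],[1,-1,-1],[1,1,0,0,0,0,0,0,-1],(⟨1,[(23,0),(8,0),
  (0,0)]⟩,⟨0,[(24,0)]⟩),(⟨0,[(17,0)]⟩,⟨0,[(33,0),(2,0)]⟩),⟨1,[(12,0),(4,0),(5,0)]⟩,.k,.k,(.r (-1)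
  ⟨11,[(13,3),(0,3),(6,6),(0,0)]⟩ ⟨13,[(0,5),(7,1),(7,1),(5,3),(6,2),(0,0),(10,3)]⟩),(.r 0 ⟨1,[(16,
  0),(4,0),(9,0)]⟩ ⟨9,[(0,3),(7,0),(5,7),(7,2),(5,0),(0,1),(11,2)]⟩),.k,.k,⟨false,0,⟨2,[(4,0),(11,
  0),(4,0),(9,0),(6,1)]⟩,⟨0,[(0,0),(13,0),(26,0)]⟩⟩,⟨true,0,⟨1,[(23,0),(2,0),(3,0)]⟩,⟨0,[(11,0),(12,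
  0)]⟩⟩,⟨false,0,⟨0,[]⟩,⟨3,[(21,0),(0,0),(18,1)]⟩⟩,⟨false,1,⟨0,[(3,0),(24,0),(12,0)]⟩,⟨2,[(4,0),(0,
  1),(2,0),(2,1),(4,0),(7,0),(16,0)]⟩⟩,⟨true,0,⟨0,[(38,0)]⟩,⟨0,[(39,0)]⟩⟩,⟨false,1,⟨1,[(3,1),(4,0),
  (19,0),(12,1)]⟩,⟨0,[(5,0)]⟩⟩,[.o ⟨false,1,⟨15,[(14,7),(6,0),(0,0),(3,11),(1,7),(0,3),(4,1),(6,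
  3)]⟩,⟨13,[(11,9),(1,1),(2,7),(3,1),(13,0),(5,6)]⟩⟩,.o ⟨false,1,⟨0,[(9,0),(18,0),(12,0)]⟩,⟨6,[(11,
  0),(4,0),(3,1),(6,1),(6,0),(2,1),(0,2)]⟩⟩,.a ⟨true,0,⟨0,[(24,0)]⟩,⟨1,[(23,0),(8,0),(0,0)]⟩⟩ ⟨true,
  0,⟨4,[(4,0),(0,1),(3,0),(1,1),(4,0),(4,0),(1,0),(4,3)]⟩,⟨1,[(0,0),(5,0),(34,0)]⟩⟩ ⟨false,1,⟨1,[(9,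
  0),(13,0),(4,1),(10,0),(1,1)]⟩,⟨13,[(11,9),(1,1),(2,7),(3,1),(3,13),(9,0),(5,6)]⟩⟩,.o ⟨false,0,
  ⟨13,[(9,5),(0,1),(5,1),(7,13),(1,3),(2,5),(4,0),(6,0)]⟩,⟨7,[(21,0),(0,0),(0,3),(10,1),(5,
  3)]⟩⟩]⟩)))) (.R ⟨1,false,false,false,[1,0,0,-1],[1,-1],[1,1,0,0,0,0,0,0,-1],(⟨1,[(20,0),(8,0),(0,
  0)]⟩,⟨0,[(21,0)]⟩),(⟨0,[(32,0)]⟩,⟨0,[(33,0)]⟩),⟨1,[(9,0),(4,0),(5,0)]⟩,.k,.k,(.r (-1) ⟨11,[(10,3),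
  (0,3),(6,6),(0,0)]⟩ ⟨0,[(3,0),(4,0),(4,0),(11,0),(12,0)]⟩),(.r 0 ⟨1,[(0,1),(19,0),(2,0),(2,0)]⟩
  ⟨11,[(10,3),(0,3),(6,0),(0,6)]⟩),.k,.k,⟨false,0,⟨6,[(0,1),(0,2),(3,2),(7,0),(4,0),(1,0),(1,0),(3,
  3)]⟩,⟨0,[(3,0),(34,0)]⟩⟩,⟨true,0,⟨1,[(20,0),(2,0),(2,0)]⟩,⟨0,[(21,0)]⟩⟩,⟨false,0,⟨0,[]⟩,⟨3,[(18,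
  0),(0,0),(18,1)]⟩⟩,⟨false,1,⟨1,[(6,0),(12,0),(0,0),(15,0),(1,0)]⟩,⟨0,[(0,0)]⟩⟩,⟨true,0,⟨0,[(35,
  0)]⟩,⟨0,[(36,0)]⟩⟩,⟨false,1,⟨4,[(4,0),(1,1),(0,0),(11,1),(0,1),(17,2)]⟩,⟨0,[(0,0),(35,0)]⟩⟩,[.o
  ⟨false,0,⟨0,[(6,0)]⟩,⟨5,[(5,1),(10,1),(1,1),(0,1),(11,0),(6,0)]⟩⟩,.o ⟨false,1,⟨3,[(6,3),(11,0),(0,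
  0),(18,1)]⟩,⟨0,[(35,0)]⟩⟩,.a ⟨true,0,⟨0,[(21,0)]⟩,⟨1,[(20,0),(8,0),(0,0)]⟩⟩ ⟨false,0,⟨1,[(0,1),(5,
  0),(13,0),(15,0)]⟩,⟨1,[(19,0),(18,0)]⟩⟩ ⟨true,0,⟨1,[(6,0),(13,0),(15,0)]⟩,⟨0,[(21,0),(13,0)]⟩⟩,.o
  ⟨false,0,⟨13,[(6,5),(0,1),(5,1),(7,13),(1,3),(2,5),(4,0),(6,0)]⟩,⟨7,[(18,0),(0,0),(0,3),(10,1),(5,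
  3)]⟩⟩]⟩))) (.R ⟨1,false,false,true,[1,0,0,-1],[1,-1,-1],[1,0,0,0,0,0,0,0,-1],(⟨1,[(18,0),(8,0),(0,
  0)]⟩,⟨0,[(19,0)]⟩),(⟨0,[(12,0)]⟩,⟨0,[(28,0),(2,0)]⟩),⟨1,[(7,0),(4,0),(5,0)]⟩,.k,.k,(.r (-1) ⟨11,
  [(8,3),(0,3),(6,6),(0,0)]⟩ ⟨19,[(0,5),(2,1),(2,3),(4,7),(5,6),(1,5),(4,3),(11,0)]⟩),(.r 0 ⟨1,[(11,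
  0),(4,0),(9,0)]⟩ ⟨19,[(0,5),(2,1),(2,3),(2,11),(7,6),(1,5),(4,3),(11,0)]⟩),.k,.k,⟨false,1,⟨1,[(11,
  0),(4,0),(9,0),(8,0),(0,0)]⟩,⟨0,[(0,0),(5,1),(1,0),(10,0),(3,0)]⟩⟩,⟨true,0,⟨1,[(18,0),(2,0),(3,
  0)]⟩,⟨0,[(6,0),(12,0)]⟩⟩,⟨true,0,⟨0,[]⟩,⟨0,[(38,0)]⟩⟩,⟨false,0,⟨0,[(0,0),(33,0)]⟩,⟨13,[(6,9),(1,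
  1),(2,7),(3,1),(0,6),(2,13),(9,0),(5,6),(0,6)]⟩⟩,⟨false,1,⟨11,[(3,3),(10,3),(1,0),(0,0),(11,1),(6,
  7)]⟩,⟨0,[(34,0)]⟩⟩,⟨false,0,⟨0,[(0,0)]⟩,⟨13,[(6,5),(1,3),(2,1),(3,3),(0,6),(2,13),(9,1),(6,6)]⟩⟩,
  [.o ⟨false,0,⟨0,[(4,0),(18,0)]⟩,⟨1,[(14,1),(14,0),(6,0)]⟩⟩,.o ⟨false,1,⟨15,[(9,7),(6,0),(0,0),(3,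
  11),(1,7),(0,3),(4,1),(6,3)]⟩,⟨13,[(6,9),(1,1),(2,7),(3,1),(13,0),(5,6)]⟩⟩,.a ⟨true,0,⟨0,[(19,
  0)]⟩,⟨1,[(18,0),(8,0),(0,0)]⟩⟩ ⟨false,1,⟨1,[(16,0),(19,0)]⟩,⟨2,[(0,0),(0,1),(4,0),(4,0),(7,0),(16,
  0)]⟩⟩ ⟨true,0,⟨1,[(4,0),(13,0),(4,1),(10,0)]⟩,⟨13,[(6,9),(1,1),(2,7),(3,1),(3,13),(9,0),(5,6)]⟩⟩,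
  .o ⟨false,0,⟨13,[(4,5),(0,1),(5,1),(7,13),(1,3),(2,5),(4,0),(6,0)]⟩,⟨7,[(16,0),(0,0),(0,3),(10,1),
  (5,3)]⟩⟩]⟩)))))))) (.Q [0,0,0,1,0,0,-1,0,0,0,1] (.p true [0,0,1] [] (⟨0,[(21,0)]⟩,⟨0,[(20,0)]⟩)
  .k 0 (⟨0,[]⟩,⟨0,[]⟩) .k .k) (.R ⟨0,false,false,true,[0,0,1],[0,1],[],(⟨0,[(22,0)]⟩,⟨0,[(21,0)]⟩),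
  (⟨0,[(25,0)]⟩,⟨0,[(24,0)]⟩),⟨0,[(1,0)]⟩,.k,.k,.k,.k,.k,.k,⟨true,1,⟨11,[(2,3),(0,3),(6,0),(0,0),
  (18,5)]⟩,⟨0,[(4,0),(0,0),(8,0),(13,0)]⟩⟩,⟨false,1,⟨3,[(0,2),(1,0),(0,0),(15,0),(9,2)]⟩,⟨0,[(18,
  0)]⟩⟩,⟨false,1,⟨0,[(4,0),(9,0),(15,0)]⟩,⟨0,[(20,0)]⟩⟩,⟨true,0,⟨0,[(7,0)]⟩,⟨0,[(2,0),(15,0)]⟩⟩,
  ⟨false,0,⟨0,[]⟩,⟨0,[]⟩⟩,⟨false,0,⟨0,[]⟩,⟨0,[]⟩⟩,[.o ⟨false,0,⟨0,[(27,0)]⟩,⟨1,[(23,0),(4,1),(1,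
  0)]⟩⟩,.a ⟨true,0,⟨0,[(0,0),(3,0)]⟩,⟨0,[(28,0)]⟩⟩ ⟨false,1,⟨1,[(29,0),(0,0)]⟩,⟨0,[(32,0)]⟩⟩ ⟨true,
  0,⟨0,[(0,0)]⟩,⟨0,[(18,0),(9,0)]⟩⟩,.e ⟨false,1,⟨3,[(10,0),(0,0),(18,1)]⟩,⟨0,[]⟩⟩ ⟨false,0,⟨0,[(0,
  0)]⟩,⟨23,[(3,7),(5,3),(0,0),(0,0),(6,15),(4,1),(4,7),(1,11)]⟩⟩,.o ⟨false,0,⟨0,[(18,0)]⟩,⟨0,[(15,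
  0),(13,0)]⟩⟩]⟩) (.Q [0,0,0,0,0,0,-1,0,0,0,1] (.p true [0,0,1] [] (⟨0,[(22,0)]⟩,⟨0,[(21,0)]⟩) .k 0
  (⟨0,[]⟩,⟨0,[]⟩) .k .k) (.K ⟨0,[1,-1,-1],0,0,(⟨0,[(7,0)]⟩,⟨0,[(23,0),(2,0)]⟩),.k,(.x 0 ⟨5,[(1,3),
  (4,1),(0,5),(7,1),(0,7),(7,0),(0,5),(5,0)]⟩ ⟨1,[(1,1),(21,1),(2,3),(0,1),(2,0),(0,0)]⟩),.k,.k,.k,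
  [⟨0,[(5,0)]⟩,⟨0,[(0,0)]⟩,⟨0,[(9,0),(23,0)]⟩,⟨0,[(15,0),(13,0)]⟩]⟩) (.Q [0,0,0,1,0,0,0,0,0,1] (.pp
  false [-1,1]) (.R ⟨1,false,false,true,[1,0,-1],[0,1],[1,1,0,0,0,0,0,-1],(⟨0,[(23,0)]⟩,⟨0,[(24,
  0)]⟩),(⟨0,[(27,0)]⟩,⟨0,[(26,0)]⟩),⟨0,[(8,0)]⟩,.k,.k,.k,.k,(.x 0 ⟨5,[(2,3),(4,1),(0,5),(7,1),(0,7),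
  (7,0),(0,5),(5,0)]⟩ ⟨0,[(1,0),(22,0),(2,1),(3,0)]⟩),.k,⟨true,1,⟨11,[(5,7),(3,3),(2,0),(0,0),(6,3),
  (11,1)]⟩,⟨0,[(7,0),(22,0)]⟩⟩,⟨false,1,⟨0,[(6,0),(24,0)]⟩,⟨0,[(17,0)]⟩⟩,⟨false,0,⟨0,[]⟩,⟨3,[(12,0),
  (0,0),(18,1)]⟩⟩,⟨false,0,⟨0,[(10,0)]⟩,⟨0,[(16,0),(13,0),(1,0)]⟩⟩,⟨true,0,⟨0,[(29,0)]⟩,⟨0,[(30,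
  0)]⟩⟩,⟨false,0,⟨3,[(0,0),(0,0),(5,0),(2,2),(17,1),(3,0)]⟩,⟨0,[(16,0),(13,1),(1,0)]⟩⟩,[.o ⟨false,0,
  ⟨0,[(29,0)]⟩,⟨1,[(25,0),(4,1),(1,0)]⟩⟩,.a ⟨true,0,⟨0,[(0,0)]⟩,⟨0,[(30,0)]⟩⟩ ⟨false,1,⟨2,[(1,0),(3,
  0),(3,1),(10,0),(10,0),(0,0)]⟩,⟨0,[(22,0)]⟩⟩ ⟨true,0,⟨0,[(0,0),(0,0)]⟩,⟨0,[(17,0),(12,0)]⟩⟩,.o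
  ⟨false,1,⟨3,[(12,0),(0,0),(3,3),(13,1)]⟩,⟨0,[(1,0)]⟩⟩,.o ⟨false,0,⟨0,[(17,0)]⟩,⟨0,[(20,0),(10,
  0)]⟩⟩]⟩) (.Q [0,0,0,0,0,0,-1,0,0,1,1] (.p true [1,-1,1] [] (⟨0,[(24,0),(1,0)]⟩,⟨0,[(3,0)]⟩) .k 0
  (⟨0,[]⟩,⟨0,[]⟩) .k .k) (.K ⟨2,[1,-1,1],0,0,(⟨0,[(25,0),(1,0)]⟩,⟨0,[(4,0)]⟩),.k,(.r (-1) ⟨2,[(5,3),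
  (0,0),(6,0),(0,0)]⟩ ⟨0,[(3,1),(4,0),(1,1),(22,0)]⟩),.k,.k,.k,[⟨0,[(1,0)]⟩,⟨1,[(0,0),(6,0),(2,1)]⟩,
  ⟨0,[(0,0)]⟩,⟨9,[(1,3),(6,1),(8,1),(0,1),(2,13),(4,0),(6,0)]⟩]⟩) (.Q [0,1,0,0,-1,0,1,1,1,1,-1,-1]
  (.p false [0,0,1] [1,0,0,-1] (⟨0,[(25,0)]⟩,⟨0,[(24,0)]⟩) .k 2 (⟨1,[(15,0),(8,0),(0,0)]⟩,⟨0,[(16,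
  0)]⟩) .k (.x 0 ⟨1,[(0,0),(6,0),(17,1)]⟩ ⟨3,[(13,0),(0,0),(3,3),(5,3),(7,1)]⟩)) (.Q [0,0,0,0,0,1,0,
  0,0,0,0,-1] (.p false [0,0,0,1] [] (⟨0,[(17,0)]⟩,⟨1,[(16,0),(8,0),(0,0)]⟩) .k 0 (⟨0,[]⟩,⟨0,[]⟩)
  .k .k) (.R ⟨0,false,false,false,[0,0,0,1],[0,1,-1],[1],(⟨0,[(18,0)]⟩,⟨1,[(17,0),(8,0),(0,0)]⟩),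
  (⟨0,[(6,0)]⟩,⟨0,[(27,0),(1,0)]⟩),⟨0,[(0,0)]⟩,.k,.k,(.x 0 ⟨2,[(2,0),(17,1),(2,0),(5,2)]⟩ ⟨3,[(15,
  0),(0,0),(13,3),(3,1)]⟩),(.r 0 ⟨0,[(1,0),(5,0),(10,0),(0,0),(15,0)]⟩ ⟨1,[(12,1),(2,0),(7,1),(11,
  0)]⟩),.k,.k,⟨true,0,⟨0,[(7,0)]⟩,⟨0,[(5,1),(4,0),(1,0),(9,0),(12,0)]⟩⟩,⟨false,1,⟨1,[(7,1),(4,1),(5,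
  1),(15,0),(0,0)]⟩,⟨5,[(2,1),(14,2),(2,0),(2,4)]⟩⟩,⟨false,1,⟨1,[(15,0),(19,0)]⟩,⟨0,[(1,0),(16,0),
  (0,0),(15,0)]⟩⟩,⟨true,1,⟨1,[(12,1),(2,0),(2,1),(16,0)]⟩,⟨0,[(1,0),(1,0)]⟩⟩,⟨false,0,⟨0,[]⟩,⟨0,
  []⟩⟩,⟨false,0,⟨0,[]⟩,⟨0,[]⟩⟩,[.o ⟨false,1,⟨3,[(12,3),(2,0),(0,0),(18,1)]⟩,⟨12,[(2,2),(0,12),(3,1),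
  (2,0),(3,4),(13,0)]⟩⟩,.o ⟨false,1,⟨0,[(12,0),(22,0)]⟩,⟨0,[(3,0),(17,0)]⟩⟩,.a ⟨true,0,⟨1,[(17,0),
  (8,0),(0,0)]⟩,⟨0,[(18,0)]⟩⟩ ⟨true,0,⟨0,[]⟩,⟨0,[(37,0)]⟩⟩ ⟨false,1,⟨0,[(12,0),(5,0),(16,0)]⟩,⟨1,
  [(3,1),(10,0),(2,0)]⟩⟩,.o ⟨false,0,⟨1,[(17,0),(2,0),(2,0)]⟩,⟨1,[(18,1),(9,0),(5,0)]⟩⟩]⟩) (.Q [0,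
  -1,0,-2,0,0,1,1,0,0,-1] (.p false [0,0,1] [] (⟨0,[(27,0)]⟩,⟨0,[(26,0)]⟩) .k 0 (⟨0,[]⟩,⟨0,[]⟩) .k
  .k) (.R ⟨1,true,false,true,[1,-1],[1,0,-1],[1,1,-1,-1],(⟨0,[(30,0)]⟩,⟨0,[(31,0)]⟩),(⟨0,[(27,0)]⟩,
  ⟨0,[(28,0)]⟩),⟨0,[(1,1),(16,0)]⟩,.k,.k,(.r (-1) ⟨5,[(8,3),(0,3),(6,0),(0,0)]⟩ ⟨5,[(11,3),(1,3),(2,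
  0),(0,0),(6,3),(11,1)]⟩),.k,(.r (-1) ⟨2,[(8,3),(0,0),(6,0),(0,0)]⟩ ⟨0,[(6,1),(4,0),(1,1),(22,
  0)]⟩),.k,⟨true,0,⟨0,[(8,0)]⟩,⟨0,[(6,1),(4,0),(1,0),(9,0),(12,0)]⟩⟩,⟨false,1,⟨1,[(8,1),(4,1),(21,
  0),(0,0)]⟩,⟨0,[(24,0)]⟩⟩,⟨false,0,⟨0,[]⟩,⟨3,[(16,0),(0,0),(18,1)]⟩⟩,⟨true,0,⟨0,[(13,0)]⟩,⟨1,[(0,
  0),(21,0)]⟩⟩,⟨true,0,⟨0,[(33,0)]⟩,⟨0,[(34,0)]⟩⟩,⟨false,1,⟨0,[(13,0),(19,0),(2,0)]⟩,⟨0,[(0,0)]⟩⟩,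
  []⟩) (.I [0,0,-1,-1,1,0,0,-1,-1] (.I [0,0,2,1,0,0,0,-1,-1] (.R ⟨1,false,false,true,[0,0,0,1],[0,1,
  -1],[1,1,0,0,0,0,0,0,1],(⟨0,[(21,0)]⟩,⟨1,[(20,0),(8,0),(0,0)]⟩),(⟨0,[(9,0)]⟩,⟨0,[(30,0),(1,0)]⟩),
  ⟨0,[(3,0)]⟩,.k,.k,(.r (-1) ⟨11,[(10,3),(0,3),(6,0),(0,6)]⟩ ⟨0,[(1,0),(11,0)]⟩),(.r 0 ⟨0,[(4,0),(5,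
  0),(10,0),(0,0),(15,0)]⟩ ⟨3,[(0,3),(17,0),(0,0),(17,1)]⟩),(.x 0 ⟨2,[(3,5),(1,0),(14,2),(2,1),(2,
  3),(3,2)]⟩ ⟨1,[(9,1),(0,1),(4,1),(17,1),(3,0),(0,0)]⟩),.k,⟨true,0,⟨0,[(4,0),(5,0),(10,0),(0,0),
  (15,0)]⟩,⟨0,[(0,0)]⟩⟩,⟨false,1,⟨1,[(10,1),(4,1),(5,1),(15,0),(0,0)]⟩,⟨5,[(5,1),(14,2),(2,0),(2,
  4)]⟩⟩,⟨false,0,⟨0,[]⟩,⟨3,[(18,0),(0,0),(18,1)]⟩⟩,⟨false,1,⟨1,[(15,1),(2,0),(2,1),(16,0)]⟩,⟨0,[(4,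
  0),(1,0),(31,0)]⟩⟩,⟨true,0,⟨0,[(35,0)]⟩,⟨0,[(36,0)]⟩⟩,⟨false,1,⟨1,[(2,1),(15,0),(2,1),(16,0)]⟩,⟨0,
  [(4,0),(1,0),(29,0),(1,0)]⟩⟩,[.o ⟨false,0,⟨0,[(15,0)]⟩,⟨7,[(6,7),(10,3),(0,0),(0,0),(11,1),(6,
  3)]⟩⟩,.o ⟨false,1,⟨3,[(15,3),(2,0),(0,0),(18,1)]⟩,⟨12,[(5,2),(0,12),(3,1),(2,0),(3,4),(13,0)]⟩⟩,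
  .a ⟨true,0,⟨1,[(20,0),(8,0),(0,0)]⟩,⟨0,[(21,0)]⟩⟩ ⟨false,0,⟨0,[(4,0),(16,0),(0,0),(15,0)]⟩,⟨1,
  [(18,0),(19,0)]⟩⟩ ⟨true,0,⟨0,[(15,0),(5,0)]⟩,⟨1,[(6,1),(10,0),(2,0)]⟩⟩,.o ⟨false,0,⟨1,[(20,0),(2,
  0),(2,0)]⟩,⟨1,[(21,1),(9,0),(5,0)]⟩⟩]⟩) (.R ⟨1,false,false,true,[0,0,0,1],[1,-1,-1],[1,1,0,0,0,0,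
  0,0,1],(⟨0,[(21,0)]⟩,⟨1,[(20,0),(8,0),(0,0)]⟩),(⟨0,[(14,0)]⟩,⟨0,[(30,0),(2,0)]⟩),⟨0,[(3,0)]⟩,.k,
  .k,(.r (-1) ⟨11,[(10,3),(0,3),(6,0),(0,6)]⟩ ⟨0,[(1,0),(11,0)]⟩),(.r 0 ⟨1,[(13,0),(5,0),(8,0)]⟩ ⟨0,
  [(1,0)]⟩),.k,.k,⟨false,0,⟨2,[(0,0),(12,1),(5,0),(17,0)]⟩,⟨0,[(1,0)]⟩⟩,⟨true,0,⟨0,[(21,0),(1,0)]⟩,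
  ⟨3,[(5,0),(6,2),(7,1)]⟩⟩,⟨false,0,⟨0,[]⟩,⟨3,[(18,0),(0,0),(18,1)]⟩⟩,⟨false,1,⟨0,[(1,0),(19,0),(1,
  0)]⟩,⟨11,[(0,3),(1,3),(1,7),(0,2),(6,4),(0,3),(6,1),(17,11)]⟩⟩,⟨true,0,⟨0,[(35,0)]⟩,⟨0,[(36,0)]⟩⟩,
  ⟨false,1,⟨1,[(18,0),(2,1),(0,1),(15,0)]⟩,⟨0,[(4,0),(33,0)]⟩⟩,[.o ⟨false,0,⟨0,[(6,0),(18,0)]⟩,⟨1,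
  [(16,1),(14,0),(6,0)]⟩⟩,.o ⟨false,1,⟨5,[(1,1),(9,1),(7,0),(2,0),(0,4),(1,0),(0,0),(11,0)]⟩,⟨4,[(5,
  1),(7,1),(2,0),(0,0),(19,1)]⟩⟩,.a ⟨true,0,⟨1,[(20,0),(8,0),(0,0)]⟩,⟨0,[(21,0)]⟩⟩ ⟨false,0,⟨0,[(4,
  0),(16,0),(0,0),(15,0)]⟩,⟨1,[(18,0),(19,0)]⟩⟩ ⟨true,0,⟨0,[(6,0),(14,0),(3,0)]⟩,⟨9,[(5,1),(7,1),(2,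
  5),(0,0),(2,4),(16,1)]⟩⟩,.o ⟨false,0,⟨1,[(20,0),(2,0),(2,0)]⟩,⟨1,[(21,1),(9,0),(5,0)]⟩⟩]⟩)) (.Q
  [0,0,0,1,0,0,-1,-1,1,1,1,-1] (.p true [1,-1,1] [0,0,0,1] (⟨0,[(29,0),(1,0)]⟩,⟨0,[(8,0)]⟩) .k 2
  (⟨0,[(20,0)]⟩,⟨1,[(19,0),(8,0),(0,0)]⟩) .k (.x 0 ⟨1,[(4,0),(6,0),(17,1)]⟩ ⟨3,[(17,0),(0,0),(3,3),
  (5,3),(7,1)]⟩)) (.R ⟨1,false,false,false,[0,0,0,1],[0,0,1],[1,1,0,0,0,0,0,0,1],(⟨0,[(21,0)]⟩,⟨1,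
  [(20,0),(8,0),(0,0)]⟩),(⟨0,[(30,0)]⟩,⟨0,[(29,0)]⟩),⟨0,[(3,0)]⟩,.k,.k,(.r 0 ⟨0,[(0,0),(2,2),(1,0),
  (0,0),(3,0),(9,0),(12,2)]⟩ ⟨15,[(2,3),(10,3),(4,12),(0,4),(6,5),(0,1),(10,1)]⟩),.k,(.r (-1) ⟨13,
  [(0,3),(4,1),(2,1),(2,7),(7,4),(1,3),(0,1),(3,1),(11,0)]⟩ ⟨1,[(13,0),(4,0),(9,0)]⟩),.k,⟨false,0,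
  ⟨2,[(0,0),(0,0),(2,0),(0,1),(5,1),(3,1),(5,1)]⟩,⟨1,[(18,0),(9,1),(9,0)]⟩⟩,⟨true,0,⟨1,[(5,0),(6,0),
  (8,1)]⟩,⟨1,[(20,0),(2,0),(3,0)]⟩⟩,⟨false,0,⟨0,[]⟩,⟨3,[(18,0),(0,0),(18,1)]⟩⟩,⟨false,1,⟨25,[(5,5),
  (4,3),(2,1),(3,9),(0,12),(2,25),(9,1),(6,12)]⟩,⟨0,[(0,0),(5,0)]⟩⟩,⟨true,0,⟨0,[(35,0)]⟩,⟨0,[(36,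
  0)]⟩⟩,⟨false,1,⟨9,[(5,3),(7,3),(2,1),(0,1),(0,4),(2,9),(15,3),(0,4)]⟩,⟨0,[(0,0),(5,0),(29,0)]⟩⟩,
  [.o ⟨false,0,⟨12,[(5,2),(4,1),(2,0),(3,4),(13,0)]⟩,⟨1,[(25,1),(5,0),(6,0)]⟩⟩,.o ⟨false,1,⟨7,[(17,
  3),(0,0),(0,0),(11,1),(6,3)]⟩,⟨0,[(22,0)]⟩⟩,.a ⟨true,0,⟨1,[(20,0),(8,0),(0,0)]⟩,⟨0,[(21,0)]⟩⟩
  ⟨false,0,⟨9,[(0,1),(0,3),(3,0),(0,0),(1,0),(2,1),(7,1),(1,1)]⟩,⟨1,[(18,0),(19,0)]⟩⟩ ⟨true,0,⟨12,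
  [(5,2),(4,1),(2,0),(3,4),(3,12),(9,0)]⟩,⟨1,[(20,0),(1,0),(2,0)]⟩⟩,.o ⟨false,0,⟨1,[(20,0),(2,0),(2,
  0)]⟩,⟨1,[(21,1),(9,0),(5,0)]⟩⟩]⟩) (.I [0,-1,2,1,0,0,0,-1,1] (.R ⟨1,false,false,false,[1,0,0,-1],
  [0,1,-1],[1,1,0,0,0,0,0,0,-1],(⟨1,[(21,0),(8,0),(0,0)]⟩,⟨0,[(22,0)]⟩),(⟨0,[(10,0)]⟩,⟨0,[(31,0),(1,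
  0)]⟩),⟨0,[(4,0),(16,0)]⟩,.k,.k,(.r (-1) ⟨11,[(11,3),(0,3),(6,6),(0,0)]⟩ ⟨6,[(0,1),(1,0),(11,0),(5,
  1),(15,1)]⟩),(.r (-1) ⟨3,[(11,3),(7,2),(0,0)]⟩ ⟨16,[(0,11),(4,2),(0,2),(5,1),(3,5),(3,0),(1,2),
  (12,2)]⟩),(.r (-1) ⟨11,[(11,15),(0,3),(6,6),(0,0)]⟩ ⟨0,[(0,0),(35,0)]⟩),.k,⟨true,0,⟨1,[(1,1),(9,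
  1),(4,1),(4,0),(8,0),(0,0)]⟩,⟨0,[(0,0)]⟩⟩,⟨false,1,⟨1,[(11,1),(4,1),(4,0),(8,0),(0,0),(6,0),(0,
  0)]⟩,⟨4,[(0,1),(0,1),(4,1),(15,2),(0,0),(1,0),(1,0)]⟩⟩,⟨false,0,⟨0,[]⟩,⟨3,[(19,0),(0,0),(18,1)]⟩⟩,
  ⟨false,1,⟨15,[(0,1),(1,7),(0,1),(8,5),(3,13),(3,2),(0,7),(8,7),(0,7),(7,14)]⟩,⟨0,[(1,0)]⟩⟩,⟨true,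
  0,⟨0,[(36,0)]⟩,⟨0,[(37,0)]⟩⟩,⟨false,1,⟨16,[(0,1),(1,7),(0,17),(1,0),(6,5),(7,2),(0,7),(8,7),(0,7),
  (7,16)]⟩,⟨0,[(1,0),(35,0)]⟩⟩,[.o ⟨false,1,⟨3,[(16,3),(2,0),(0,0),(18,1)]⟩,⟨19,[(1,1),(0,1),(3,3),
  (0,17),(3,1),(6,6),(2,0),(10,1)]⟩⟩,.o ⟨false,1,⟨0,[(16,0),(22,0)]⟩,⟨0,[(7,0),(17,0)]⟩⟩,.a ⟨true,0,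
  ⟨0,[(22,0)]⟩,⟨1,[(21,0),(8,0),(0,0)]⟩⟩ ⟨true,0,⟨1,[(1,1),(14,1),(4,0),(8,0),(0,0)]⟩,⟨33,[(0,3),(1,
  16),(2,0),(0,0),(5,11),(3,1),(3,5),(1,0),(12,0)]⟩⟩ ⟨false,1,⟨1,[(16,1),(4,0),(8,0),(0,0),(7,1)]⟩,
  ⟨9,[(1,7),(0,3),(3,0),(0,0),(1,0),(2,1),(7,1),(1,1)]⟩⟩,.o ⟨false,0,⟨9,[(0,2),(0,4),(12,0),(5,0),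
  (1,4),(0,2),(0,1)]⟩,⟨7,[(19,0),(0,0),(0,3),(10,1),(5,3)]⟩⟩]⟩) (.R ⟨1,false,false,true,[1,0,0,-1],
  [1,-1,-1],[1,0,0,0,0,0,0,0,-1],(⟨1,[(21,0),(8,0),(0,0)]⟩,⟨0,[(22,0)]⟩),(⟨0,[(15,0)]⟩,⟨0,[(31,0),
  (2,0)]⟩),⟨0,[(4,0),(16,0)]⟩,.k,.k,(.r (-1) ⟨11,[(11,3),(0,3),(6,6),(0,0)]⟩ ⟨3,[(2,1),(13,1),(3,0),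
  (6,1),(11,0)]⟩),(.r 0 ⟨1,[(14,0),(4,0),(9,0)]⟩ ⟨2,[(2,0),(6,1),(2,1),(3,1),(3,0),(18,0)]⟩),.k,.k,
  ⟨false,1,⟨1,[(14,0),(4,0),(9,0),(8,0),(0,0)]⟩,⟨0,[(2,0),(6,0),(2,0),(3,0)]⟩⟩,⟨true,0,⟨1,[(21,0),
  (2,0),(3,0)]⟩,⟨1,[(6,0),(6,0),(8,1)]⟩⟩,⟨true,0,⟨0,[]⟩,⟨0,[(41,0)]⟩⟩,⟨true,0,⟨5,[(2,3),(4,2),(1,1),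
  (2,1),(7,0),(0,2),(4,7),(10,0),(1,0)]⟩,⟨3,[(0,1),(0,1),(1,1),(2,0),(6,2),(0,1),(7,1),(16,1)]⟩⟩,
  ⟨false,1,⟨11,[(3,3),(13,3),(1,0),(0,0),(11,1),(6,7)]⟩,⟨0,[(37,0)]⟩⟩,⟨true,0,⟨5,[(2,3),(3,1),(5,1),
  (7,0),(0,2),(1,0),(2,6),(12,0)]⟩,⟨13,[(0,3),(0,7),(1,1),(9,7),(0,3),(4,0),(2,5),(16,2)]⟩⟩,[.o
  ⟨false,0,⟨0,[(7,0),(18,0)]⟩,⟨1,[(17,1),(14,0),(6,0)]⟩⟩,.o ⟨false,1,⟨15,[(12,7),(6,0),(0,0),(3,11),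
  (1,7),(0,3),(4,1),(6,3)]⟩,⟨4,[(6,1),(7,1),(2,0),(0,0),(19,1)]⟩⟩,.a ⟨true,0,⟨0,[(22,0)]⟩,⟨1,[(21,
  0),(8,0),(0,0)]⟩⟩ ⟨false,1,⟨1,[(19,0),(19,0)]⟩,⟨5,[(2,3),(6,1),(2,1),(3,1),(3,0),(18,0)]⟩⟩ ⟨true,
  0,⟨1,[(7,0),(13,0),(4,1),(10,0)]⟩,⟨17,[(1,1),(0,1),(3,5),(7,3),(2,9),(4,15),(9,0),(5,4)]⟩⟩,.o
  ⟨false,0,⟨2,[(6,0),(15,2),(1,1),(2,0)]⟩,⟨7,[(19,0),(0,0),(0,3),(10,1),(5,3)]⟩⟩]⟩)))))) (.I [0,-1,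
  1,0,0,0,0,0,-1] (.Q [0,1,0,-1,0,0,0,0,1,0,0,-1] (.p false [0,0,0,1] [] (⟨0,[(18,0)]⟩,⟨1,[(17,0),
  (8,0),(0,0)]⟩) .k 0 (⟨0,[]⟩,⟨0,[]⟩) .k .k) (.Q [0,0,0,0,0,1,0,0,0,0,0,-1] (.p false [0,0,0,1] []
  (⟨0,[(19,0)]⟩,⟨1,[(18,0),(8,0),(0,0)]⟩) .k 0 (⟨0,[]⟩,⟨0,[]⟩) .k .k) (.R ⟨0,false,false,false,[0,0,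
  0,1],[0,1],[0,0,1],(⟨0,[(20,0)]⟩,⟨1,[(19,0),(8,0),(0,0)]⟩),(⟨0,[(32,0)]⟩,⟨0,[(31,0)]⟩),⟨0,[(0,
  0)]⟩,.k,.k,(.r (-1) ⟨11,[(9,3),(0,3),(6,0),(0,6)]⟩ ⟨5,[(2,1),(1,0),(6,0),(0,1),(1,1),(2,1)]⟩),(.r
  (-1) ⟨11,[(9,3),(0,3),(6,0),(0,6)]⟩ ⟨5,[(2,1),(1,0),(6,0),(0,1),(1,1),(2,1)]⟩),.k,.k,⟨true,0,⟨0,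
  [(35,0)]⟩,⟨11,[(12,3),(1,3),(2,0),(0,0),(6,3),(11,1)]⟩⟩,⟨false,1,⟨0,[(20,0),(15,0)]⟩,⟨1,[(19,0),
  (2,0),(2,0)]⟩⟩,⟨false,0,⟨0,[(2,0)]⟩,⟨1,[(18,0),(17,0)]⟩⟩,⟨true,0,⟨0,[(2,0),(17,0),(12,0)]⟩,⟨0,[(1,
  0)]⟩⟩,⟨false,0,⟨0,[]⟩,⟨0,[]⟩⟩,⟨false,0,⟨0,[]⟩,⟨0,[]⟩⟩,[.o ⟨false,1,⟨3,[(17,0),(0,0),(15,3),(2,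
  1)]⟩,⟨0,[(5,0)]⟩⟩,.o ⟨false,1,⟨0,[(34,0),(2,0)]⟩,⟨0,[(5,0),(33,0)]⟩⟩,.a ⟨true,0,⟨1,[(19,0),(8,0),
  (0,0)]⟩,⟨0,[(20,0)]⟩⟩ ⟨true,0,⟨1,[(25,0),(0,0)]⟩,⟨2,[(7,0),(1,0),(14,0),(8,1)]⟩⟩ ⟨false,1,⟨23,[(3,
  9),(0,1),(7,1),(1,3),(0,11),(2,4),(1,13),(12,3),(3,10)]⟩,⟨1,[(5,0),(13,0),(15,0)]⟩⟩,.o ⟨false,0,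
  ⟨1,[(19,0),(2,0),(2,0)]⟩,⟨1,[(20,1),(9,0),(5,0)]⟩⟩]⟩) (.Q [0,-1,0,-2,0,0,1,1,0,0,-1] (.p false [0,
  0,1] [] (⟨0,[(29,0)]⟩,⟨0,[(28,0)]⟩) .k 0 (⟨0,[]⟩,⟨0,[]⟩) .k .k) (.R ⟨1,true,false,true,[1,-1],[1,
  0,-1],[1,1,-1,-1],(⟨0,[(32,0)]⟩,⟨0,[(33,0)]⟩),(⟨0,[(29,0)]⟩,⟨0,[(30,0)]⟩),⟨0,[(1,1),(18,0)]⟩,.k,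
  .k,(.r (-1) ⟨5,[(10,3),(0,3),(6,0),(0,0)]⟩ ⟨5,[(13,3),(1,3),(2,0),(0,0),(6,3),(11,1)]⟩),.k,(.r
  (-1) ⟨2,[(10,3),(0,0),(6,0),(0,0)]⟩ ⟨0,[(8,1),(4,0),(1,1),(22,0)]⟩),.k,⟨true,0,⟨0,[(10,0)]⟩,⟨0,
  [(8,1),(4,0),(1,0),(9,0),(12,0)]⟩⟩,⟨false,1,⟨1,[(10,1),(4,1),(21,0),(0,0)]⟩,⟨0,[(26,0)]⟩⟩,⟨false,
  0,⟨0,[]⟩,⟨3,[(18,0),(0,0),(18,1)]⟩⟩,⟨true,0,⟨0,[(15,0)]⟩,⟨1,[(0,0),(23,0)]⟩⟩,⟨true,0,⟨0,[(35,0)]⟩,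
  ⟨0,[(36,0)]⟩⟩,⟨false,1,⟨0,[(15,0),(19,0),(2,0)]⟩,⟨0,[(0,0)]⟩⟩,[]⟩) (.I [0,0,-1,-1,0,0,0,0,-1] (.Q
  [0,-1,0,0,0,0,0,0,-1,0,0,1] (.p true [0,0,0,1] [] (⟨0,[(22,0)]⟩,⟨1,[(21,0),(8,0),(0,0)]⟩) .k 0
  (⟨0,[]⟩,⟨0,[]⟩) .k .k) (.R ⟨2,true,false,true,[0,1],[0,0,0,1],[1,1,1,1],(⟨0,[]⟩,⟨0,[]⟩),(⟨0,[(23,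
  0)]⟩,⟨1,[(22,0),(8,0),(0,0)]⟩),⟨0,[]⟩,.k,.k,.k,(.r 0 ⟨6,[(1,0),(0,1),(2,1),(9,1),(4,1),(7,1)]⟩
  ⟨11,[(12,3),(0,3),(6,0),(0,6)]⟩),.k,.k,⟨false,0,⟨47,[(0,23),(0,5),(0,9),(4,9),(7,9),(4,8),(1,11),
  (10,0),(2,13)]⟩,⟨11,[(12,3),(0,3),(6,0),(0,6)]⟩⟩,⟨true,0,⟨1,[(22,0),(2,0),(2,0)]⟩,⟨0,[(23,0)]⟩⟩,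
  ⟨false,0,⟨0,[]⟩,⟨3,[(20,0),(0,0),(18,1)]⟩⟩,⟨true,0,⟨0,[(4,0)]⟩,⟨0,[(0,0),(36,0)]⟩⟩,⟨true,0,⟨0,
  [(37,0)]⟩,⟨0,[(38,0)]⟩⟩,⟨false,1,⟨7,[(20,0),(0,4),(0,3),(10,1)]⟩,⟨0,[(0,0)]⟩⟩,[]⟩) (.Q [0,0,0,-1,
  0,0,-1,-1,-1,-1,1,1] (.p true [0,0,1] [1,0,0,-1] (⟨0,[(32,0)]⟩,⟨0,[(31,0)]⟩) .k 2 (⟨1,[(22,0),(8,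
  0),(0,0)]⟩,⟨0,[(23,0)]⟩) .k (.x 0 ⟨1,[(7,0),(6,0),(17,1)]⟩ ⟨3,[(20,0),(0,0),(3,3),(5,3),(7,1)]⟩))
  (.R ⟨1,false,false,false,[1,0,0,-1],[0,1,1],[1,1,0,0,0,0,0,0,-1],(⟨1,[(23,0),(8,0),(0,0)]⟩,⟨0,
  [(24,0)]⟩),(⟨0,[(33,0),(2,0)]⟩,⟨0,[(17,0)]⟩),⟨0,[(4,0),(18,0)]⟩,.k,.k,(.r 0 ⟨0,[(2,0)]⟩ ⟨15,[(3,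
  3),(2,3),(9,3),(4,4),(0,14),(6,3)]⟩),(.r (-1) ⟨35,[(0,3),(2,7),(2,7),(1,2),(5,23),(0,4),(5,11),(1,
  1),(5,3)]⟩ ⟨1,[(16,0),(5,0),(8,0)]⟩),(.r (-1) ⟨43,[(0,3),(1,19),(0,3),(2,3),(1,2),(5,35),(0,4),(5,
  7),(1,1)]⟩ ⟨3,[(16,3),(4,0),(0,2)]⟩),.k,⟨true,0,⟨1,[(2,1),(0,0),(7,1),(16,0)]⟩,⟨1,[(16,1),(5,0),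
  (16,1),(1,0)]⟩⟩,⟨false,1,⟨3,[(8,0),(6,2),(7,1),(16,3)]⟩,⟨0,[(24,0),(1,0)]⟩⟩,⟨false,0,⟨0,[]⟩,⟨3,
  [(21,0),(0,0),(18,1)]⟩⟩,⟨false,1,⟨9,[(8,1),(7,1),(2,5),(0,0),(1,4),(0,4),(16,1),(0,4)]⟩,⟨0,[(0,
  0)]⟩⟩,⟨true,0,⟨0,[(38,0)]⟩,⟨0,[(39,0)]⟩⟩,⟨false,1,⟨11,[(8,2),(6,0),(0,3),(2,7),(2,5),(0,5),(13,7),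
  (3,9)]⟩,⟨0,[(0,0),(38,0)]⟩⟩,[.o ⟨false,0,⟨4,[(8,1),(7,1),(2,0),(0,0),(19,1)]⟩,⟨0,[(5,0),(1,0)]⟩⟩,
  .o ⟨false,1,⟨1,[(19,1),(14,0),(6,0)]⟩,⟨1,[(0,0),(4,0),(19,0)]⟩⟩,.a ⟨true,0,⟨0,[(24,0)]⟩,⟨1,[(23,
  0),(8,0),(0,0)]⟩⟩ ⟨false,0,⟨6,[(2,3),(0,0),(2,0),(9,0),(4,0),(7,0)]⟩,⟨1,[(22,0),(18,0)]⟩⟩ ⟨true,0,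
  ⟨9,[(8,1),(7,1),(2,5),(0,0),(2,4),(16,1)]⟩,⟨1,[(0,0),(4,0),(18,1),(0,0)]⟩⟩,.o ⟨false,0,⟨2,[(8,0),
  (15,2),(1,1),(2,0)]⟩,⟨7,[(21,0),(0,0),(0,3),(10,1),(5,3)]⟩⟩]⟩) (.R ⟨1,false,false,false,[0,0,0,1],
  [1,-1],[1,0,0,0,0,0,0,0,1],(⟨0,[(24,0)]⟩,⟨1,[(23,0),(8,0),(0,0)]⟩),(⟨0,[(35,0)]⟩,⟨0,[(36,0)]⟩),⟨0,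
  [(4,0)]⟩,.k,.k,(.r (-1) ⟨11,[(13,3),(0,3),(6,0),(0,6)]⟩ ⟨6,[(2,0),(0,1),(2,1),(9,1),(4,1),(7,
  1)]⟩),(.r (-1) ⟨15,[(3,3),(2,3),(9,3),(4,4),(0,14),(6,3)]⟩ ⟨0,[(2,0)]⟩),.k,.k,⟨false,1,⟨11,[(3,3),
  (15,3),(1,0),(0,6),(11,1),(6,1)]⟩,⟨0,[(2,0)]⟩⟩,⟨true,0,⟨2,[(8,0),(15,2),(1,1),(2,0)]⟩,⟨1,[(23,0),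
  (8,0),(0,0)]⟩⟩,⟨true,0,⟨0,[]⟩,⟨0,[(43,0)]⟩⟩,⟨true,0,⟨11,[(2,5),(3,1),(1,0),(0,8),(1,0),(4,1),(4,
  1),(2,11),(0,1)]⟩,⟨0,[(0,0),(27,0)]⟩⟩,⟨false,1,⟨11,[(3,3),(15,3),(1,0),(0,0),(11,1),(6,7)]⟩,⟨0,
  [(39,0)]⟩⟩,⟨true,0,⟨21,[(2,15),(4,3),(0,7),(7,7),(4,0),(2,17),(0,3),(8,2)]⟩,⟨1,[(0,0),(4,0),(22,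
  0),(3,0),(0,0)]⟩⟩,[.o ⟨false,0,⟨0,[(9,0)]⟩,⟨5,[(3,1),(15,1),(1,1),(0,1),(11,0),(6,0)]⟩⟩,.o ⟨false,
  1,⟨3,[(9,3),(11,0),(0,0),(18,1)]⟩,⟨0,[(38,0)]⟩⟩,.a ⟨true,0,⟨1,[(23,0),(8,0),(0,0)]⟩,⟨0,[(24,0)]⟩⟩
  ⟨false,1,⟨1,[(22,0),(18,0)]⟩,⟨6,[(2,3),(0,0),(2,0),(9,0),(4,0),(7,0)]⟩⟩ ⟨true,0,⟨0,[(9,0),(14,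
  0)]⟩,⟨3,[(3,0),(15,1),(3,1),(4,0),(14,1)]⟩⟩,.o ⟨false,0,⟨1,[(23,0),(2,0),(2,0)]⟩,⟨1,[(24,1),(9,0),
  (5,0)]⟩⟩]⟩))) (.I [0,-1,2,1,0,0,0,-1,-1] (.R ⟨1,false,false,false,[0,0,0,1],[0,1,-1],[1,1,0,0,0,0,
  0,0,1],(⟨0,[(23,0)]⟩,⟨1,[(22,0),(8,0),(0,0)]⟩),(⟨0,[(11,0)]⟩,⟨0,[(32,0),(1,0)]⟩),⟨0,[(3,0)]⟩,.k,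
  .k,(.r (-1) ⟨11,[(12,3),(0,3),(6,0),(0,6)]⟩ ⟨8,[(0,1),(4,0),(4,0),(4,2),(4,2),(6,0),(8,1)]⟩),(.r
  (-1) ⟨3,[(12,3),(7,0),(0,2)]⟩ ⟨2,[(0,1),(4,0),(4,0),(16,0),(8,1)]⟩),(.r (-1) ⟨11,[(12,15),(0,3),
  (6,0),(0,6)]⟩ ⟨0,[(0,0),(36,0)]⟩),.k,⟨true,0,⟨2,[(1,0),(2,1),(7,2),(10,1),(12,0)]⟩,⟨0,[(0,0)]⟩⟩,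
  ⟨false,1,⟨1,[(2,0),(9,1),(10,1),(3,0),(11,0),(0,0)]⟩,⟨5,[(7,1),(14,2),(2,0),(2,4)]⟩⟩,⟨false,0,⟨0,
  []⟩,⟨3,[(20,0),(0,0),(18,1)]⟩⟩,⟨false,1,⟨3,[(2,1),(2,1),(0,1),(16,1),(7,1),(0,1),(6,0),(0,0)]⟩,⟨3,
  [(1,3),(5,0),(0,0),(1,2),(1,3),(9,1)]⟩⟩,⟨true,0,⟨0,[(37,0)]⟩,⟨0,[(38,0)]⟩⟩,⟨false,1,⟨1,[(2,1),(2,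
  1),(17,1),(15,0),(0,0)]⟩,⟨1,[(1,1),(6,0),(1,1),(1,1),(9,0),(15,0)]⟩⟩,[.o ⟨false,1,⟨3,[(2,1),(17,
  0),(0,0),(5,1),(12,1)]⟩,⟨12,[(7,2),(0,12),(3,1),(2,0),(3,4),(13,0)]⟩⟩,.o ⟨false,1,⟨1,[(2,0),(24,
  0),(12,1)]⟩,⟨0,[(8,0),(17,0)]⟩⟩,.a ⟨true,0,⟨1,[(22,0),(8,0),(0,0)]⟩,⟨0,[(23,0)]⟩⟩ ⟨true,0,⟨2,[(1,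
  0),(2,1),(18,1),(12,0)]⟩,⟨2,[(5,2),(4,0),(1,0),(14,0),(8,1)]⟩⟩ ⟨false,1,⟨1,[(2,0),(20,1),(3,0),
  (12,1)]⟩,⟨1,[(8,1),(10,0),(2,0)]⟩⟩,.o ⟨false,0,⟨1,[(22,0),(2,0),(2,0)]⟩,⟨1,[(23,1),(9,0),(5,
  0)]⟩⟩]⟩) (.R ⟨1,false,false,true,[1,0,0,-1],[0,1,1],[0,0,0,-1,0,0,0,0,-1],(⟨1,[(22,0),(8,0),(0,
  0)]⟩,⟨0,[(23,0)]⟩),(⟨0,[(32,0),(2,0)]⟩,⟨0,[(16,0)]⟩),⟨0,[(3,0),(18,0)]⟩,.k,.k,(.x 0 ⟨2,[(7,0),(17,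
  1),(2,0),(5,2)]⟩ ⟨3,[(20,0),(0,0),(13,3),(3,1)]⟩),(.r (-1) ⟨2,[(2,0),(2,0),(4,0),(2,1),(6,0)]⟩ ⟨1,
  [(15,0),(5,0),(8,0)]⟩),(.r (-1) ⟨2,[(5,2),(4,0),(1,0),(0,2),(13,0),(8,1)]⟩ ⟨3,[(15,3),(4,0),(0,
  2)]⟩),.k,⟨true,1,⟨0,[(5,0),(7,0)]⟩,⟨2,[(0,0),(0,1),(8,0),(4,2),(11,0),(14,0)]⟩⟩,⟨false,1,⟨3,[(7,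
  0),(6,2),(7,1),(16,3)]⟩,⟨0,[(23,0),(1,0)]⟩⟩,⟨true,0,⟨0,[(38,0)]⟩,⟨0,[(37,0)]⟩⟩,⟨false,0,⟨11,[(0,
  5),(0,5),(5,2),(6,6),(0,3),(2,1),(3,5),(13,1),(3,3)]⟩,⟨0,[(6,0),(31,0)]⟩⟩,⟨false,1,⟨3,[(20,0),(0,
  0),(18,1)]⟩,⟨0,[]⟩⟩,⟨false,0,⟨11,[(0,7),(0,3),(0,3),(4,4),(6,10),(0,7),(6,5),(13,3),(3,7)]⟩,⟨0,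
  [(6,0),(31,1)]⟩⟩,[.o ⟨false,0,⟨8,[(7,0),(7,0),(3,2),(6,1),(6,0),(2,1),(0,4)]⟩,⟨0,[(8,0),(18,0),
  (12,0)]⟩⟩,.o ⟨false,0,⟨4,[(7,1),(7,1),(2,0),(0,0),(19,1)]⟩,⟨0,[(4,0),(1,0)]⟩⟩,.a ⟨true,0,⟨0,[(23,
  0)]⟩,⟨1,[(22,0),(8,0),(0,0)]⟩⟩ ⟨true,0,⟨2,[(5,2),(4,1),(1,1),(14,1),(8,0)]⟩,⟨2,[(0,0),(0,1),(0,0),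
  (7,0),(26,0)]⟩⟩ ⟨false,0,⟨9,[(7,1),(7,1),(2,5),(0,0),(2,4),(16,1)]⟩,⟨0,[(8,0),(14,0),(3,0),(12,
  0)]⟩⟩,.o ⟨false,0,⟨2,[(7,0),(15,2),(1,1),(2,0)]⟩,⟨7,[(20,0),(0,0),(0,3),(10,1),(5,3)]⟩⟩]⟩)))))
  (.Q [0,0,0,0,0,1,0,0,0,0,0,-1] (.p false [0,0,0,1] [] (⟨0,[(19,0)]⟩,⟨1,[(18,0),(8,0),(0,0)]⟩) .k
  0 (⟨0,[]⟩,⟨0,[]⟩) .k .k) (.R ⟨0,false,false,true,[0,0,0,1],[0,1],[1,1,1,1],(⟨0,[(20,0)]⟩,⟨1,[(19,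
  0),(8,0),(0,0)]⟩),(⟨0,[(32,0)]⟩,⟨0,[(31,0)]⟩),⟨0,[(0,0)]⟩,.k,.k,(.r (-1) ⟨11,[(9,3),(0,3),(6,0),
  (0,6)]⟩ ⟨5,[(2,1),(1,0),(6,0),(0,1),(1,1),(2,1)]⟩),(.r (-1) ⟨11,[(9,3),(0,3),(6,0),(0,6)]⟩ ⟨5,[(2,
  1),(1,0),(6,0),(0,1),(1,1),(2,1)]⟩),.k,.k,⟨true,0,⟨0,[]⟩,⟨1,[(25,0),(0,0)]⟩⟩,⟨false,1,⟨0,[(20,0),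
  (15,0)]⟩,⟨1,[(19,0),(2,0),(2,0)]⟩⟩,⟨true,(-1),⟨5,[(1,5),(5,9),(1,3),(2,5),(6,2),(1,2),(2,6),(8,
  1)]⟩,⟨11,[(9,3),(0,3),(6,0),(0,6)]⟩⟩,⟨false,0,⟨0,[(1,0),(37,0)]⟩,⟨1,[(5,0),(12,0),(0,0),(15,0),(1,
  0)]⟩⟩,⟨false,0,⟨0,[]⟩,⟨0,[]⟩⟩,⟨false,0,⟨0,[]⟩,⟨0,[]⟩⟩,[.o ⟨false,0,⟨0,[(34,0)]⟩,⟨3,[(5,3),(11,0),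
  (0,0),(18,1)]⟩⟩,.o ⟨false,1,⟨3,[(17,0),(0,0),(15,3),(2,1)]⟩,⟨0,[(5,0)]⟩⟩,.a ⟨true,0,⟨1,[(19,0),(8,
  0),(0,0)]⟩,⟨0,[(20,0)]⟩⟩ ⟨false,0,⟨11,[(12,3),(1,3),(2,0),(0,0),(6,3),(11,1)]⟩,⟨11,[(9,3),(0,3),
  (6,0),(0,0),(18,5)]⟩⟩ ⟨true,0,⟨0,[(20,0),(13,0)]⟩,⟨1,[(5,0),(13,0),(15,0)]⟩⟩,.o ⟨false,0,⟨1,[(19,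
  0),(2,0),(2,0)]⟩,⟨1,[(20,1),(9,0),(5,0)]⟩⟩]⟩) (.R ⟨1,false,false,false,[0,0,0,1],[1,-1],[1,0,0,0,
  0,0,0,0,1],(⟨0,[(20,0)]⟩,⟨1,[(19,0),(8,0),(0,0)]⟩),(⟨0,[(31,0)]⟩,⟨0,[(32,0)]⟩),⟨0,[(0,0)]⟩,.k,.k,
  (.r (-1) ⟨11,[(9,3),(0,3),(6,0),(0,6)]⟩ ⟨5,[(2,1),(1,0),(6,0),(0,1),(1,1),(2,1)]⟩),(.r (-1) ⟨5,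
  [(12,1),(1,1),(2,1),(0,4),(6,1),(11,0)]⟩ ⟨1,[(1,1),(5,1),(1,1),(9,0),(1,0),(2,0)]⟩),.k,.k,⟨false,
  1,⟨1,[(18,0),(15,1),(2,0)]⟩,⟨1,[(1,1),(5,1),(1,1),(9,0),(1,0),(2,0)]⟩⟩,⟨true,0,⟨2,[(4,0),(15,2),
  (1,1),(2,0)]⟩,⟨1,[(19,0),(8,0),(0,0)]⟩⟩,⟨true,0,⟨0,[]⟩,⟨0,[(39,0)]⟩⟩,⟨false,0,⟨0,[(1,0),(3,0),(29,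
  0)]⟩,⟨7,[(14,3),(0,3),(1,0),(0,4),(0,3),(17,1)]⟩⟩,⟨false,1,⟨0,[(34,0),(2,0)]⟩,⟨0,[(35,0)]⟩⟩,
  ⟨false,0,⟨0,[(1,0),(3,0)]⟩,⟨3,[(17,0),(0,2),(0,1),(8,1),(0,1)]⟩⟩,[.o ⟨false,0,⟨0,[(5,0)]⟩,⟨3,[(17,
  0),(0,0),(15,3),(2,1)]⟩⟩,.o ⟨false,1,⟨3,[(5,3),(11,0),(0,0),(18,1)]⟩,⟨0,[(34,0)]⟩⟩,.a ⟨true,0,⟨1,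
  [(19,0),(8,0),(0,0)]⟩,⟨0,[(20,0)]⟩⟩ ⟨false,1,⟨1,[(18,0),(18,0)]⟩,⟨2,[(2,2),(4,0),(1,0),(14,0),(8,
  1)]⟩⟩ ⟨true,0,⟨0,[(5,0),(14,0)]⟩,⟨1,[(14,0),(0,0),(3,0),(19,0)]⟩⟩,.o ⟨false,0,⟨1,[(19,0),(2,0),(2,
  0)]⟩,⟨1,[(20,1),(9,0),(5,0)]⟩⟩]⟩))) (.Q [0,0,0,0,0,1,0,0,0,0,0,-1] (.p false [0,0,0,1] [] (⟨0,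
  [(18,0)]⟩,⟨1,[(17,0),(8,0),(0,0)]⟩) .k 0 (⟨0,[]⟩,⟨0,[]⟩) .k .k) (.R ⟨0,false,false,false,[0,0,0,
  1],[1,-1,-1],[0,0,-1,-1,0,0,0,-1],(⟨0,[(19,0)]⟩,⟨1,[(18,0),(8,0),(0,0)]⟩),(⟨0,[(12,0)]⟩,⟨0,[(28,
  0),(2,0)]⟩),⟨0,[(0,0)]⟩,.k,.k,(.r (-1) ⟨11,[(8,3),(0,3),(6,0),(0,6)]⟩ ⟨1,[(2,1),(3,1),(1,0),(1,0),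
  (0,1),(6,0),(4,0),(8,0)]⟩),(.r 0 ⟨1,[(11,0),(5,0),(8,0)]⟩ ⟨1,[(2,1),(3,1),(1,0),(1,0),(7,0),(4,0),
  (8,0)]⟩),.k,.k,⟨false,1,⟨3,[(16,0),(0,0),(17,1)]⟩,⟨0,[]⟩⟩,⟨true,0,⟨0,[(19,0),(1,0)]⟩,⟨3,[(3,0),(6,
  2),(7,1)]⟩⟩,⟨true,1,⟨1,[(2,1),(3,1),(1,0),(1,0),(7,0),(4,0),(8,0)]⟩,⟨0,[(1,0),(9,0),(22,0)]⟩⟩,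
  ⟨false,1,⟨0,[(2,0),(31,0)]⟩,⟨7,[(1,7),(1,0),(6,2),(0,3),(3,1),(2,3),(17,3)]⟩⟩,⟨false,0,⟨0,[]⟩,⟨0,
  []⟩⟩,⟨false,0,⟨0,[]⟩,⟨0,[]⟩⟩,[.o ⟨false,1,⟨31,[(2,7),(6,15),(6,0),(0,4),(0,3),(2,23),(1,7),(0,7),
  (4,1)]⟩,⟨4,[(3,1),(7,1),(2,0),(0,0),(19,1)]⟩⟩,.o ⟨false,1,⟨0,[(4,0),(18,0),(12,0)]⟩,⟨8,[(3,0),(7,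
  0),(3,2),(6,1),(6,0),(2,1),(0,4)]⟩⟩,.a ⟨true,0,⟨1,[(18,0),(8,0),(0,0)]⟩,⟨0,[(19,0)]⟩⟩ ⟨true,1,⟨11,
  [(9,7),(3,3),(2,0),(0,0),(6,3),(11,1)]⟩,⟨2,[(6,1),(1,1),(2,2),(11,1),(8,0)]⟩⟩ ⟨false,1,⟨0,[(4,0),
  (14,0),(3,0),(12,0)]⟩,⟨9,[(3,1),(7,1),(2,5),(0,0),(2,4),(16,1)]⟩⟩,.o ⟨false,0,⟨1,[(18,0),(2,0),(2,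
  0)]⟩,⟨1,[(19,1),(9,0),(5,0)]⟩⟩]⟩) (.Q [0,0,0,2,0,0,0,0,-1,0,0,1] (.p true [0,0,0,1] [] (⟨0,[(19,
  0)]⟩,⟨1,[(18,0),(8,0),(0,0)]⟩) .k 0 (⟨0,[]⟩,⟨0,[]⟩) .k .k) (.R ⟨1,false,false,true,[0,0,0,1],[0,
  1],[1,0,0,0,0,0,0,0,1],(⟨0,[(20,0)]⟩,⟨1,[(19,0),(8,0),(0,0)]⟩),(⟨0,[(32,0)]⟩,⟨0,[(31,0)]⟩),⟨0,[(1,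
  0)]⟩,.k,.k,(.r (-1) ⟨11,[(9,3),(0,3),(6,0),(0,6)]⟩ ⟨3,[(0,0),(2,0),(3,1),(4,1),(4,0),(1,0),(4,
  0)]⟩),(.r (-1) ⟨11,[(9,3),(0,3),(6,0),(0,6)]⟩ ⟨3,[(0,0),(2,0),(3,1),(4,1),(4,0),(1,0),(4,0)]⟩),
  (.r (-1) ⟨3,[(2,1),(6,1),(0,1),(7,0),(16,1),(1,0)]⟩ ⟨25,[(0,1),(2,5),(7,1),(0,17),(1,11),(2,8),(1,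
  3),(5,15),(11,2)]⟩),.k,⟨true,1,⟨0,[(2,0),(32,0),(1,0)]⟩,⟨1,[(0,1),(4,0),(1,1),(4,1),(6,0),(4,1),
  (10,2)]⟩⟩,⟨false,1,⟨0,[(20,0),(15,0)]⟩,⟨1,[(19,0),(2,0),(2,0)]⟩⟩,⟨true,0,⟨0,[]⟩,⟨0,[(39,0)]⟩⟩,
  ⟨false,0,⟨0,[(0,0),(34,0)]⟩,⟨1,[(5,0),(12,0),(0,0),(15,0),(1,0)]⟩⟩,⟨false,1,⟨15,[(0,7),(16,0),(0,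
  4),(0,3),(10,1),(6,7)]⟩,⟨0,[(35,0)]⟩⟩,⟨false,0,⟨0,[(0,0)]⟩,⟨1,[(5,0),(12,0),(0,0),(15,2),(1,0)]⟩⟩,
  [.o ⟨false,0,⟨0,[(34,0)]⟩,⟨3,[(5,3),(11,0),(0,0),(18,1)]⟩⟩,.o ⟨false,1,⟨15,[(0,7),(16,4),(0,8),(0,
  3),(10,1)]⟩,⟨0,[(5,0)]⟩⟩,.a ⟨true,0,⟨1,[(19,0),(8,0),(0,0)]⟩,⟨0,[(20,0)]⟩⟩ ⟨false,1,⟨1,[(18,0),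
  (18,0)]⟩,⟨1,[(0,1),(4,0),(13,0),(15,2)]⟩⟩ ⟨true,0,⟨0,[(20,0),(13,0)]⟩,⟨1,[(5,0),(13,0),(15,0)]⟩⟩,
  .o ⟨false,0,⟨1,[(19,0),(2,0),(2,0)]⟩,⟨1,[(20,1),(9,0),(5,0)]⟩⟩]⟩) (.I [1,0,0,0,0,0,0,0,1] (.R ⟨1,
  false,false,false,[0,0,0,1],[1,-1,-1],[1,0,0,0,0,0,0,0,1],(⟨0,[(21,0)]⟩,⟨1,[(20,0),(8,0),(0,0)]⟩),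
  (⟨0,[(14,0)]⟩,⟨0,[(30,0),(2,0)]⟩),⟨0,[(2,0)]⟩,.k,.k,(.r (-1) ⟨11,[(10,3),(0,3),(6,0),(0,6)]⟩ ⟨1,
  [(4,1),(3,1),(1,0),(1,0),(0,1),(6,0),(4,0),(8,0)]⟩),(.r 0 ⟨1,[(13,0),(5,0),(8,0)]⟩ ⟨1,[(4,1),(3,
  1),(1,0),(1,0),(7,0),(4,0),(8,0)]⟩),.k,.k,⟨false,0,⟨5,[(3,3),(6,1),(2,3),(5,0),(17,0),(0,1)]⟩,⟨1,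
  [(4,1),(3,1),(1,0),(1,0),(7,0),(4,0),(8,0)]⟩⟩,⟨true,0,⟨0,[(21,0),(1,0)]⟩,⟨3,[(5,0),(6,2),(7,1)]⟩⟩,
  ⟨true,0,⟨0,[]⟩,⟨0,[(40,0)]⟩⟩,⟨false,1,⟨0,[(4,0),(31,0)]⟩,⟨9,[(0,5),(2,3),(1,1),(7,1),(2,5),(0,0),
  (2,4),(17,1)]⟩⟩,⟨false,1,⟨0,[(35,0),(2,0)]⟩,⟨0,[(36,0)]⟩⟩,⟨false,1,⟨0,[(4,0)]⟩,⟨1,[(0,1),(16,0),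
  (2,0)]⟩⟩,[.o ⟨false,1,⟨7,[(1,3),(2,3),(13,0),(0,0),(5,3),(5,1)]⟩,⟨4,[(5,1),(7,1),(2,0),(0,0),(19,
  1)]⟩⟩,.o ⟨false,1,⟨1,[(1,0),(2,0),(17,0),(15,0)]⟩,⟨8,[(5,0),(7,0),(3,2),(6,1),(6,0),(2,1),(0,
  4)]⟩⟩,.a ⟨true,0,⟨1,[(20,0),(8,0),(0,0)]⟩,⟨0,[(21,0)]⟩⟩ ⟨true,0,⟨0,[(0,0)]⟩,⟨5,[(4,5),(3,9),(1,6),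
  (1,2),(0,5),(6,2),(4,6),(8,4)]⟩⟩ ⟨false,1,⟨1,[(0,0),(0,0),(2,1),(16,0)]⟩,⟨9,[(5,1),(7,1),(2,5),(0,
  0),(2,4),(16,1)]⟩⟩,.o ⟨false,0,⟨1,[(20,0),(2,0),(2,0)]⟩,⟨1,[(21,1),(9,0),(5,0)]⟩⟩]⟩) (.R ⟨1,false,
  false,false,[0,0,0,1],[0,1,1],[1,0,0,0,0,0,0,0,1],(⟨0,[(21,0)]⟩,⟨1,[(20,0),(8,0),(0,0)]⟩),(⟨0,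
  [(30,0),(2,0)]⟩,⟨0,[(14,0)]⟩),⟨0,[(2,0)]⟩,.k,.k,(.r (-1) ⟨11,[(10,3),(0,3),(6,0),(0,6)]⟩ ⟨19,[(0,
  7),(3,3),(0,0),(6,2),(0,7),(1,3),(2,3),(1,1),(5,3)]⟩),(.r (-1) ⟨9,[(1,3),(1,1),(1,2),(5,3),(0,2),
  (2,5),(3,1),(1,3),(16,3)]⟩ ⟨1,[(13,0),(4,0),(9,0)]⟩),(.r (-2) ⟨3,[(11,3),(6,0),(0,2)]⟩ ⟨0,[(0,0),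
  (12,0)]⟩),.k,⟨true,1,⟨9,[(1,3),(1,1),(1,2),(5,3),(0,2),(2,5),(3,1),(1,3),(16,3)]⟩,⟨0,[(0,0),(12,
  0),(22,0)]⟩⟩,⟨false,1,⟨1,[(5,0),(6,0),(8,1),(15,1)]⟩,⟨1,[(20,0),(2,0),(3,0)]⟩⟩,⟨true,0,⟨0,[]⟩,⟨0,
  [(40,0)]⟩⟩,⟨true,0,⟨8,[(0,6),(3,1),(0,3),(4,1),(2,1),(2,4),(0,0),(3,6),(12,1)]⟩,⟨0,[(1,0),(13,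
  0)]⟩⟩,⟨false,1,⟨0,[(35,0),(2,0)]⟩,⟨0,[(36,0)]⟩⟩,⟨true,0,⟨9,[(0,8),(3,0),(0,4),(4,0),(2,3),(2,5),
  (4,8),(12,6),(3,2)]⟩,⟨0,[(1,0),(23,0)]⟩⟩,[.o ⟨false,0,⟨4,[(5,1),(7,1),(2,0),(0,0),(19,1)]⟩,⟨7,[(1,
  3),(2,3),(13,0),(0,0),(5,3),(5,1)]⟩⟩,.o ⟨false,1,⟨1,[(16,1),(14,0),(6,0)]⟩,⟨0,[(6,0),(18,0)]⟩⟩,.a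
  ⟨true,0,⟨1,[(20,0),(8,0),(0,0)]⟩,⟨0,[(21,0)]⟩⟩ ⟨false,1,⟨1,[(19,0),(18,0)]⟩,⟨0,[(0,0)]⟩⟩ ⟨true,0,
  ⟨4,[(5,1),(7,1),(2,0),(0,0),(3,4),(15,1)]⟩,⟨3,[(0,1),(0,1),(18,0),(1,0),(2,2)]⟩⟩,.o ⟨false,0,⟨1,
  [(20,0),(2,0),(2,0)]⟩,⟨1,[(21,1),(9,0),(5,0)]⟩⟩]⟩)))))))))))

theorem ok47 : chk (cU (-1) false 3) t47 l28 = true := by decide +kernel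

noncomputable def t55 : Tre :=
  (.R ⟨2,true,false,false,[0,1],[0,0,1],[0,0,1],(⟨0,[]⟩,⟨0,[]⟩),(⟨0,[(16,0)]⟩,⟨0,[(15,0)]⟩),⟨0,[]⟩,
  .k,.k,.k,.k,.k,.k,⟨false,1,⟨1,[(11,1),(0,1),(10,0),(0,0)]⟩,⟨0,[(0,0),(0,0),(18,0)]⟩⟩,⟨true,0,⟨0,
  [(12,0)]⟩,⟨0,[(0,0)]⟩⟩,⟨true,0,⟨0,[(22,0)]⟩,⟨0,[(21,0)]⟩⟩,⟨false,0,⟨0,[(1,0)]⟩,⟨0,[(11,0),(9,0),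
  (2,0)]⟩⟩,⟨false,1,⟨3,[(4,0),(0,0),(18,1)]⟩,⟨0,[]⟩⟩,⟨true,0,⟨3,[(1,1),(1,0),(5,0),(2,0),(7,1)]⟩,⟨0,
  [(11,0)]⟩⟩,[]⟩)

theorem ok55 : chk (cU (-1) false 3) t55 l29 = true := by decide +kernel

noncomputable def t56 : Tre :=
  (.R ⟨2,true,false,false,[0,1],[0,0,1],[0,0,1],(⟨0,[]⟩,⟨0,[]⟩),(⟨0,[(17,0)]⟩,⟨0,[(16,0)]⟩),⟨0,[]⟩,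
  .k,.k,.k,.k,.k,.k,⟨true,0,⟨0,[(0,0)]⟩,⟨0,[(15,0)]⟩⟩,⟨false,0,⟨0,[(1,0)]⟩,⟨0,[(14,0),(9,0)]⟩⟩,
  ⟨true,0,⟨0,[(23,0)]⟩,⟨0,[(22,0)]⟩⟩,⟨false,0,⟨0,[(2,0)]⟩,⟨0,[(12,0),(9,0),(2,0)]⟩⟩,⟨false,1,⟨3,[(5,
  0),(0,0),(18,1)]⟩,⟨0,[]⟩⟩,⟨true,0,⟨2,[(1,0),(0,0),(1,0),(5,0),(10,0)]⟩,⟨0,[(12,0)]⟩⟩,[]⟩)

theorem ok56 : chk (cU (-1) false 3) t56 l30 = true := by decide +kernel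

noncomputable def t58 : Tre :=
  (.Q [0,1,0,-1,-1,0,0,0,-1,-1,0,1] (.p true [0,0,0,1] [1] (⟨0,[(10,0)]⟩,⟨1,[(9,0),(8,0),(0,0)]⟩)
  .k 1 (⟨0,[]⟩,⟨0,[]⟩) .k .k) (.R ⟨2,true,false,true,[0,1],[1,0,0,-1],[1,1,1,1],(⟨0,[]⟩,⟨0,[]⟩),(⟨1,
  [(10,0),(8,0),(0,0)]⟩,⟨0,[(11,0)]⟩),⟨0,[]⟩,.k,.k,.k,(.r (-1) ⟨1,[(9,0),(6,0),(0,0),(7,1),(2,0)]⟩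
  ⟨1,[(0,1),(9,0),(8,0),(0,0),(6,0),(0,0)]⟩),.k,.k,⟨false,1,⟨1,[(9,0),(15,1),(2,0)]⟩,⟨1,[(0,1),(9,
  0),(8,0),(0,0),(6,0),(0,0)]⟩⟩,⟨true,0,⟨0,[(4,0),(6,0),(1,0)]⟩,⟨1,[(10,0),(8,0),(0,0)]⟩⟩,⟨false,0,
  ⟨0,[]⟩,⟨3,[(8,0),(0,0),(18,1)]⟩⟩,⟨true,(-1),⟨0,[(0,0)]⟩,⟨1,[(6,0),(2,0),(0,0),(4,0),(9,0),(2,
  0)]⟩⟩,⟨true,0,⟨0,[(25,0)]⟩,⟨0,[(26,0)]⟩⟩,⟨false,0,⟨0,[(0,0),(24,0),(2,0)]⟩,⟨1,[(9,0),(0,0),(8,0),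
  (0,0),(7,0)]⟩⟩,[]⟩) (.I [1,-1,0,1,1,0,0,0,1] (.Q [0,0,0,0,0,1,0,0,0,-1,1] (.ed false [0,1,1] .k)
  (.Q [0,0,-1,0,0,0,1,0,0,2,-1] (.p false [-1,1,1] [1] (⟨0,[(0,0)]⟩,⟨0,[(21,0),(2,0)]⟩) .k 1 (⟨0,
  []⟩,⟨0,[]⟩) .k .k) (.R ⟨0,false,false,false,[-1,1,1],[0,0,1],[],(⟨0,[(1,0)]⟩,⟨0,[(22,0),(2,0)]⟩),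
  (⟨0,[(23,0)]⟩,⟨0,[(22,0)]⟩),⟨0,[(22,0)]⟩,.k,.k,.k,.k,.k,.k,⟨false,1,⟨1,[(7,1),(10,1),(11,0),(0,
  0)]⟩,⟨0,[(21,0)]⟩⟩,⟨true,0,⟨0,[(7,0),(8,0)]⟩,⟨1,[(0,0),(19,0)]⟩⟩,⟨false,1,⟨0,[(0,0),(7,0),(6,1),
  (15,0)]⟩,⟨0,[(9,0),(6,0)]⟩⟩,⟨true,0,⟨0,[(8,0),(6,0)]⟩,⟨0,[(9,0),(8,0)]⟩⟩,⟨false,0,⟨0,[]⟩,⟨0,[]⟩⟩,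
  ⟨false,0,⟨0,[]⟩,⟨0,[]⟩⟩,[.o ⟨false,0,⟨2,[(7,0),(0,0),(1,0),(5,0),(10,0)]⟩,⟨1,[(18,1),(5,0),(6,
  0)]⟩⟩,.o ⟨false,1,⟨7,[(10,3),(0,0),(0,0),(11,1),(6,3)]⟩,⟨0,[(15,0)]⟩⟩,.a ⟨true,0,⟨0,[(0,0)]⟩,⟨0,
  [(16,0)]⟩⟩ ⟨false,1,⟨3,[(11,0),(0,0),(18,1)]⟩,⟨0,[]⟩⟩ ⟨true,0,⟨2,[(7,0),(0,0),(1,0),(5,3),(10,
  0)]⟩,⟨0,[(0,0),(14,0)]⟩⟩,.o ⟨false,0,⟨1,[(0,0),(18,0)]⟩,⟨1,[(16,1),(7,0),(5,0)]⟩⟩]⟩) (.I [0,0,0,0,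
  0,0,0,0,-1] (.Q [0,1,0,1,0,0,0,0,1,1,0,-1] (.p false [0,0,0,1] [1] (⟨0,[(15,0)]⟩,⟨1,[(14,0),(8,0),
  (0,0)]⟩) .k 1 (⟨0,[]⟩,⟨0,[]⟩) .k .k) (.Q [0,0,0,1,0,0,0,0,-1,0,0,1] (.p true [0,0,0,1] [] (⟨0,
  [(16,0)]⟩,⟨1,[(15,0),(8,0),(0,0)]⟩) .k 0 (⟨0,[]⟩,⟨0,[]⟩) .k .k) (.Q [0,0,0,0,0,1,0,0,0,0,0,-1]
  (.p false [0,0,0,1] [] (⟨0,[(17,0)]⟩,⟨1,[(16,0),(8,0),(0,0)]⟩) .k 0 (⟨0,[]⟩,⟨0,[]⟩) .k .k) (.R ⟨0,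
  false,false,false,[0,0,0,1],[0,0,1],[],(⟨0,[(18,0)]⟩,⟨1,[(17,0),(8,0),(0,0)]⟩),(⟨0,[(27,0)]⟩,⟨0,
  [(26,0)]⟩),⟨0,[(0,0)]⟩,.k,.k,(.r (-1) ⟨1,[(16,0),(16,1),(0,0)]⟩ ⟨1,[(1,1),(15,0),(2,0),(2,0)]⟩),
  .k,.k,.k,⟨false,1,⟨1,[(11,1),(10,1),(11,0),(0,0)]⟩,⟨0,[(25,0)]⟩⟩,⟨true,0,⟨0,[(11,0),(6,0)]⟩,⟨1,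
  [(17,0),(2,0),(3,0)]⟩⟩,⟨true,0,⟨0,[(3,0)]⟩,⟨0,[(2,0),(9,0),(5,0),(0,0)]⟩⟩,⟨false,0,⟨0,[(1,0),(10,
  0)]⟩,⟨1,[(16,0),(0,0),(1,0),(2,0),(12,0)]⟩⟩,⟨false,0,⟨0,[]⟩,⟨0,[]⟩⟩,⟨false,0,⟨0,[]⟩,⟨0,[]⟩⟩,[.o
  ⟨false,0,⟨4,[(4,0),(6,0),(0,0),(1,1),(16,0)]⟩,⟨1,[(22,1),(5,0),(6,0)]⟩⟩,.o ⟨false,1,⟨7,[(14,3),(0,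
  0),(0,0),(11,1),(6,3)]⟩,⟨0,[(19,0)]⟩⟩,.a ⟨true,0,⟨1,[(17,0),(8,0),(0,0)]⟩,⟨0,[(18,0)]⟩⟩ ⟨false,1,
  ⟨3,[(15,0),(0,0),(18,1)]⟩,⟨0,[]⟩⟩ ⟨true,0,⟨4,[(4,0),(6,0),(0,0),(1,1),(3,4),(12,0)]⟩,⟨1,[(17,0),
  (1,0),(2,0)]⟩⟩,.o ⟨false,0,⟨1,[(17,0),(2,0),(2,0)]⟩,⟨1,[(18,1),(9,0),(5,0)]⟩⟩]⟩) (.I [0,0,-1,-1,0,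
  0,0,0,-1] (.R ⟨1,false,false,false,[0,0,0,1],[1,-1],[1,0,0,0,0,0,0,0,1],(⟨0,[(19,0)]⟩,⟨1,[(18,0),
  (8,0),(0,0)]⟩),(⟨0,[(30,0)]⟩,⟨0,[(31,0)]⟩),⟨0,[(1,0)]⟩,.k,.k,(.r (-1) ⟨1,[(17,0),(16,1),(0,0)]⟩
  ⟨1,[(2,1),(15,0),(2,0),(2,0)]⟩),(.r (-1) ⟨7,[(7,3),(8,0),(0,2),(6,3),(0,3),(7,3)]⟩ ⟨0,[(0,0)]⟩),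
  .k,.k,⟨false,1,⟨7,[(7,3),(8,0),(0,2),(15,3)]⟩,⟨0,[(0,0)]⟩⟩,⟨true,0,⟨1,[(5,0),(13,1),(4,0)]⟩,⟨1,
  [(18,0),(8,0),(0,0)]⟩⟩,⟨true,0,⟨0,[]⟩,⟨0,[(38,0)]⟩⟩,⟨true,0,⟨1,[(0,1),(4,0),(13,1),(4,0)]⟩,⟨0,[(3,
  0)]⟩⟩,⟨false,1,⟨3,[(2,1),(5,1),(20,0),(6,0)]⟩,⟨0,[(34,0)]⟩⟩,⟨true,0,⟨1,[(0,0),(1,0),(2,0),(6,0),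
  (6,0)]⟩,⟨0,[(3,0),(30,0)]⟩⟩,[.o ⟨false,0,⟨0,[(13,0),(6,0)]⟩,⟨7,[(7,3),(8,2),(0,0),(15,3)]⟩⟩,.o
  ⟨false,1,⟨1,[(29,0),(4,1),(1,0)]⟩,⟨0,[(33,0)]⟩⟩,.a ⟨true,0,⟨1,[(18,0),(8,0),(0,0)]⟩,⟨0,[(19,0)]⟩⟩
  ⟨false,1,⟨1,[(17,0),(18,0)]⟩,⟨0,[(4,0)]⟩⟩ ⟨true,0,⟨0,[(13,0),(5,0),(0,0)]⟩,⟨1,[(14,0),(3,0),(4,0),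
  (9,0)]⟩⟩,.o ⟨false,0,⟨1,[(18,0),(2,0),(2,0)]⟩,⟨1,[(19,1),(9,0),(5,0)]⟩⟩]⟩) (.I [0,-1,-1,0,1,0,0,0,
  1] (.R ⟨1,false,false,false,[1,0,0,-1],[1,-1],[0,1,0,-1,0,0,0,0,-1],(⟨1,[(19,0),(8,0),(0,0)]⟩,⟨0,
  [(20,0)]⟩),(⟨0,[(31,0)]⟩,⟨0,[(32,0)]⟩),⟨0,[(2,0),(16,0)]⟩,.k,.k,(.x 0 ⟨1,[(6,0),(18,0),(5,1)]⟩ ⟨3,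
  [(17,0),(0,0),(13,3),(3,1)]⟩),(.r 0 ⟨1,[(3,1),(15,0),(2,0),(2,0)]⟩ ⟨1,[(18,0),(16,1),(0,0)]⟩),.k,
  .k,⟨false,0,⟨0,[(5,0),(33,0)]⟩,⟨0,[(0,0)]⟩⟩,⟨true,0,⟨1,[(19,0),(2,0),(2,0)]⟩,⟨0,[(20,0)]⟩⟩,⟨false,
  0,⟨0,[(35,0)]⟩,⟨3,[(3,1),(5,1),(20,0),(6,0)]⟩⟩,⟨false,1,⟨1,[(14,0),(3,0),(0,0),(1,0),(13,0),(1,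
  0)]⟩,⟨0,[(3,0)]⟩⟩,⟨true,0,⟨0,[(39,0)]⟩,⟨0,[]⟩⟩,⟨false,1,⟨3,[(0,1),(5,0),(11,0),(0,1),(5,0),(11,
  0)]⟩,⟨0,[(5,0),(14,0)]⟩⟩,[.o ⟨false,0,⟨0,[(14,0),(6,0)]⟩,⟨7,[(8,3),(8,2),(0,0),(15,3)]⟩⟩,.o
  ⟨false,1,⟨1,[(30,0),(4,1),(1,0)]⟩,⟨0,[(34,0)]⟩⟩,.a ⟨true,0,⟨0,[(20,0)]⟩,⟨1,[(19,0),(8,0),(0,0)]⟩⟩
  ⟨false,0,⟨0,[(5,0),(29,0)]⟩,⟨0,[(8,0)]⟩⟩ ⟨true,0,⟨1,[(14,0),(4,0),(1,0),(13,0)]⟩,⟨0,[(20,0),(13,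
  0)]⟩⟩,.o ⟨false,0,⟨1,[(6,0),(13,1),(4,0)]⟩,⟨7,[(17,0),(0,0),(0,3),(10,1),(5,3)]⟩⟩]⟩) (.R ⟨1,false,
  false,false,[0,0,0,1],[0,-1,1],[1,1,0,0,0,0,0,0,1],(⟨0,[(20,0)]⟩,⟨1,[(19,0),(8,0),(0,0)]⟩),(⟨0,
  [(10,0)]⟩,⟨0,[(28,0),(3,0)]⟩),⟨0,[(2,0)]⟩,.k,.k,(.r (-1) ⟨1,[(18,0),(16,1),(0,0)]⟩ ⟨11,[(0,5),(2,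
  7),(2,2),(2,3),(7,0),(1,1),(5,2),(11,0)]⟩),(.r (-1) ⟨0,[(8,0),(15,0),(0,0)]⟩ ⟨0,[(5,0),(6,0),(22,
  0)]⟩),.k,.k,⟨true,0,⟨0,[(1,0),(11,0),(10,0)]⟩,⟨0,[(0,0),(11,0),(22,0),(1,0)]⟩⟩,⟨false,0,⟨0,[(13,
  0),(6,0)]⟩,⟨1,[(19,0),(2,0),(3,0),(9,1)]⟩⟩,⟨false,0,⟨0,[]⟩,⟨3,[(17,0),(0,0),(18,1)]⟩⟩,⟨false,0,⟨0,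
  [(5,0),(8,0),(5,0)]⟩,⟨0,[(9,0),(11,0)]⟩⟩,⟨true,0,⟨0,[(34,0)]⟩,⟨0,[(35,0)]⟩⟩,⟨false,0,⟨0,[(3,0),
  (10,0)]⟩,⟨1,[(18,0),(0,0),(1,0),(2,0),(12,0)]⟩⟩,[.o ⟨false,0,⟨1,[(14,0),(8,0),(11,0)]⟩,⟨3,[(3,1),
  (5,1),(11,3),(8,0),(6,0)]⟩⟩,.o ⟨false,0,⟨0,[(14,0)]⟩,⟨3,[(8,1),(8,0),(3,1),(2,1),(5,0),(3,1)]⟩⟩,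
  .a ⟨true,0,⟨1,[(19,0),(8,0),(0,0)]⟩,⟨0,[(20,0)]⟩⟩ ⟨true,0,⟨0,[(4,0),(9,0),(5,0),(0,0)]⟩,⟨0,[(5,
  0)]⟩⟩ ⟨false,0,⟨0,[(14,0),(5,0)]⟩,⟨5,[(3,1),(5,3),(7,0),(1,1),(1,5),(15,0)]⟩⟩,.o ⟨false,0,⟨1,[(19,
  0),(2,0),(2,0)]⟩,⟨1,[(20,1),(9,0),(5,0)]⟩⟩]⟩)))) (.R ⟨2,true,false,false,[0,1],[0,0,0,1],[0,1,1],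
  (⟨0,[]⟩,⟨0,[]⟩),(⟨0,[(17,0)]⟩,⟨1,[(16,0),(8,0),(0,0)]⟩),⟨0,[]⟩,.k,.k,.k,(.x (-1) ⟨3,[(14,0),(0,0),
  (13,3),(3,1)]⟩ ⟨1,[(3,0),(18,0),(5,1)]⟩),.k,.k,⟨false,0,⟨0,[(2,0),(33,0)]⟩,⟨0,[(0,0),(16,0),(12,
  0),(3,0)]⟩⟩,⟨true,0,⟨1,[(16,0),(2,0),(2,0)]⟩,⟨0,[(17,0)]⟩⟩,⟨false,0,⟨0,[(32,0)]⟩,⟨0,[(31,0),(2,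
  0)]⟩⟩,⟨true,0,⟨0,[(0,0)]⟩,⟨0,[(2,0),(14,0),(13,0)]⟩⟩,⟨true,0,⟨0,[(36,0)]⟩,⟨0,[]⟩⟩,⟨false,1,⟨3,[(0,
  1),(5,1),(20,0),(6,0)]⟩,⟨0,[(2,0),(14,0)]⟩⟩,[]⟩)) (.Q [0,1,0,0,0,0,0,0,1,1,0,-1] (.p false [0,0,0,
  1] [1] (⟨0,[(16,0)]⟩,⟨1,[(15,0),(8,0),(0,0)]⟩) .k 1 (⟨0,[]⟩,⟨0,[]⟩) .k .k) (.R ⟨2,true,false,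
  false,[0,1],[1,0,0,-1],[1,0,1,1],(⟨0,[]⟩,⟨0,[]⟩),(⟨1,[(16,0),(8,0),(0,0)]⟩,⟨0,[(17,0)]⟩),⟨0,[]⟩,
  .k,.k,.k,(.r (-1) ⟨7,[(5,3),(8,0),(0,2),(6,3),(0,3),(7,3)]⟩ ⟨1,[(1,1),(14,0),(8,0),(0,0),(3,1),(1,
  1)]⟩),.k,.k,⟨false,1,⟨7,[(5,3),(8,0),(0,2),(15,3)]⟩,⟨1,[(1,1),(14,0),(8,0),(0,0),(3,1),(1,1)]⟩⟩,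
  ⟨true,0,⟨1,[(3,0),(13,1),(4,0)]⟩,⟨1,[(16,0),(8,0),(0,0)]⟩⟩,⟨true,0,⟨0,[]⟩,⟨0,[(36,0)]⟩⟩,⟨false,0,
  ⟨0,[(1,0)]⟩,⟨5,[(0,1),(5,3),(7,0),(0,0),(15,1)]⟩⟩,⟨false,1,⟨0,[(31,0),(2,0)]⟩,⟨0,[(32,0)]⟩⟩,⟨true,
  0,⟨0,[(1,0),(29,0)]⟩,⟨0,[(0,0)]⟩⟩,[]⟩) (.Q [0,0,0,0,0,1,0,0,0,-1,0,1] (.p true [0,0,0,1] [1] (⟨0,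
  [(17,0)]⟩,⟨1,[(16,0),(8,0),(0,0)]⟩) .k 1 (⟨0,[]⟩,⟨0,[]⟩) .k .k) (.R ⟨0,false,false,false,[0,0,0,
  1],[1,-1],[1,0,0,0,0,0,0,0,1],(⟨0,[(18,0)]⟩,⟨1,[(17,0),(8,0),(0,0)]⟩),(⟨0,[(29,0)]⟩,⟨0,[(30,0)]⟩),
  ⟨0,[(0,0),(16,0)]⟩,.k,.k,(.r (-1) ⟨1,[(16,0),(16,1),(0,0)]⟩ ⟨1,[(1,1),(11,0),(3,0),(4,0),(0,0),(0,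
  0),(7,0)]⟩),(.r (-1) ⟨7,[(6,3),(8,0),(0,2),(6,3),(0,3),(7,3)]⟩ ⟨1,[(2,1),(14,0),(8,0),(0,0),(3,1),
  (1,1)]⟩),.k,.k,⟨false,1,⟨7,[(6,3),(8,0),(0,2),(15,3)]⟩,⟨1,[(2,1),(14,0),(8,0),(0,0),(3,1),(1,
  1)]⟩⟩,⟨true,0,⟨1,[(4,0),(13,1),(4,0)]⟩,⟨1,[(17,0),(8,0),(0,0)]⟩⟩,⟨true,0,⟨0,[]⟩,⟨0,[(37,0)]⟩⟩,
  ⟨false,0,⟨0,[(2,0)]⟩,⟨0,[(7,0),(29,0)]⟩⟩,⟨false,0,⟨0,[]⟩,⟨0,[]⟩⟩,⟨false,0,⟨0,[]⟩,⟨0,[]⟩⟩,[.o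
  ⟨false,0,⟨0,[(12,0),(6,0)]⟩,⟨7,[(6,3),(8,2),(0,0),(15,3)]⟩⟩,.o ⟨false,1,⟨1,[(28,0),(4,1),(1,0)]⟩,
  ⟨0,[(32,0)]⟩⟩,.a ⟨true,0,⟨1,[(17,0),(8,0),(0,0)]⟩,⟨0,[(18,0)]⟩⟩ ⟨false,1,⟨1,[(16,0),(18,0)]⟩,⟨0,
  [(3,0)]⟩⟩ ⟨true,0,⟨0,[(12,0),(5,0),(0,0)]⟩,⟨1,[(13,0),(3,0),(4,0),(9,0)]⟩⟩,.o ⟨false,0,⟨1,[(17,0),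
  (2,0),(2,0)]⟩,⟨1,[(18,1),(9,0),(5,0)]⟩⟩]⟩) (.R ⟨1,false,false,false,[1,0,0,-1],[1,-1],[1,0,0,0,0,
  0,0,0,-1],(⟨1,[(17,0),(8,0),(0,0)]⟩,⟨0,[(18,0)]⟩),(⟨0,[(29,0)]⟩,⟨0,[(30,0)]⟩),⟨0,[(0,0)]⟩,.k,.k,
  (.r 0 ⟨1,[(2,1),(14,0),(8,0),(0,0),(3,1),(1,1)]⟩ ⟨7,[(6,3),(8,0),(0,2),(6,3),(0,3),(7,3)]⟩),(.r 0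
  ⟨1,[(1,1),(11,0),(3,0),(4,0),(0,0),(0,0),(7,0)]⟩ ⟨1,[(16,0),(16,1),(0,0)]⟩),.k,.k,⟨false,0,⟨1,[(1,
  1),(11,0),(3,0),(4,0),(9,0)]⟩,⟨1,[(16,0),(16,1),(0,0)]⟩⟩,⟨true,0,⟨1,[(17,0),(2,0),(2,0)]⟩,⟨0,[(18,
  0)]⟩⟩,⟨true,0,⟨0,[]⟩,⟨0,[(37,0)]⟩⟩,⟨false,1,⟨0,[(2,0),(13,0),(0,0)]⟩,⟨0,[(1,0),(11,0),(8,0)]⟩⟩,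
  ⟨false,1,⟨4,[(1,1),(4,1),(0,1),(7,0),(16,0)]⟩,⟨0,[(33,0)]⟩⟩,⟨false,1,⟨3,[(6,1),(5,1),(3,0),(0,1),
  (1,1),(15,0)]⟩,⟨0,[(3,0),(14,0)]⟩⟩,[.o ⟨false,0,⟨0,[(12,0),(6,0)]⟩,⟨7,[(6,3),(8,2),(0,0),(15,
  3)]⟩⟩,.o ⟨false,1,⟨1,[(28,0),(4,1),(1,0)]⟩,⟨0,[(32,0)]⟩⟩,.a ⟨true,0,⟨0,[(18,0)]⟩,⟨1,[(17,0),(8,0),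
  (0,0)]⟩⟩ ⟨false,0,⟨1,[(1,1),(15,0),(8,0),(0,0)]⟩,⟨3,[(15,0),(0,2)]⟩⟩ ⟨true,0,⟨1,[(12,0),(4,0),(1,
  0),(13,0)]⟩,⟨0,[(18,0),(13,0)]⟩⟩,.o ⟨false,0,⟨1,[(4,0),(13,1),(4,0)]⟩,⟨7,[(15,0),(0,0),(0,3),(10,
  1),(5,3)]⟩⟩]⟩)))) (.I [0,0,-1,-1,0,0,0,0,1] (.Q [0,0,0,0,0,1,0,0,0,0,0,-1] (.p false [0,0,0,1] []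
  (⟨0,[(16,0)]⟩,⟨1,[(15,0),(8,0),(0,0)]⟩) .k 0 (⟨0,[]⟩,⟨0,[]⟩) .k .k) (.R ⟨0,false,false,false,[0,0,
  0,1],[0,0,1],[],(⟨0,[(17,0)]⟩,⟨1,[(16,0),(8,0),(0,0)]⟩),(⟨0,[(26,0)]⟩,⟨0,[(25,0)]⟩),⟨0,[(0,0)]⟩,
  .k,.k,(.r 0 ⟨0,[(1,0)]⟩ ⟨1,[(14,0),(7,0),(0,0),(7,1),(2,0)]⟩),.k,.k,.k,⟨false,1,⟨1,[(10,1),(10,1),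
  (11,0),(0,0)]⟩,⟨0,[(24,0)]⟩⟩,⟨true,0,⟨0,[(10,0),(6,0)]⟩,⟨1,[(16,0),(2,0),(3,0)]⟩⟩,⟨false,1,⟨1,
  [(14,0),(19,0)]⟩,⟨0,[(2,0)]⟩⟩,⟨true,0,⟨0,[(8,0),(1,0),(6,0)]⟩,⟨1,[(2,1),(13,0),(1,0),(2,0)]⟩⟩,
  ⟨false,0,⟨0,[]⟩,⟨0,[]⟩⟩,⟨false,0,⟨0,[]⟩,⟨0,[]⟩⟩,[.o ⟨false,0,⟨4,[(3,0),(6,0),(0,0),(1,1),(16,0)]⟩,
  ⟨1,[(21,1),(5,0),(6,0)]⟩⟩,.o ⟨false,1,⟨7,[(13,3),(0,0),(0,0),(11,1),(6,3)]⟩,⟨0,[(18,0)]⟩⟩,.a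
  ⟨true,0,⟨1,[(16,0),(8,0),(0,0)]⟩,⟨0,[(17,0)]⟩⟩ ⟨false,1,⟨3,[(14,0),(0,0),(18,1)]⟩,⟨0,[]⟩⟩ ⟨true,0,
  ⟨4,[(3,0),(6,0),(0,0),(1,1),(3,4),(12,0)]⟩,⟨1,[(16,0),(1,0),(2,0)]⟩⟩,.o ⟨false,0,⟨1,[(16,0),(2,0),
  (2,0)]⟩,⟨1,[(17,1),(9,0),(5,0)]⟩⟩]⟩) (.Q [0,0,0,1,0,0,0,0,1,1,0,-1] (.p false [0,0,0,1] [1] (⟨0,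
  [(17,0)]⟩,⟨1,[(16,0),(8,0),(0,0)]⟩) .k 1 (⟨0,[]⟩,⟨0,[]⟩) .k .k) (.I [0,1,-1,-1,0,0,0,0,-1] (.R ⟨1,
  false,false,true,[0,0,0,1],[1,-1],[1,0,0,0,0,0,0,0,1],(⟨0,[(19,0)]⟩,⟨1,[(18,0),(8,0),(0,0)]⟩),(⟨0,
  [(30,0)]⟩,⟨0,[(31,0)]⟩),⟨0,[(2,0)]⟩,.k,.k,(.r 0 ⟨0,[(3,0)]⟩ ⟨1,[(16,0),(7,0),(0,0),(7,1),(2,0)]⟩),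
  (.r 0 ⟨1,[(1,1),(3,0),(13,1),(4,0)]⟩ ⟨0,[(3,0),(12,0)]⟩),.k,.k,⟨false,1,⟨0,[(7,0)]⟩,⟨0,[(0,0)]⟩⟩,
  ⟨true,0,⟨1,[(5,0),(13,1),(4,0)]⟩,⟨1,[(18,0),(8,0),(0,0)]⟩⟩,⟨true,0,⟨0,[]⟩,⟨0,[(38,0)]⟩⟩,⟨true,0,
  ⟨1,[(0,1),(4,0),(13,1),(4,0)]⟩,⟨0,[(1,0)]⟩⟩,⟨false,1,⟨0,[(33,0),(2,0)]⟩,⟨0,[(34,0)]⟩⟩,⟨true,0,⟨0,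
  [(10,0),(1,0),(6,0),(0,0)]⟩,⟨0,[(1,0),(32,0)]⟩⟩,[.o ⟨false,0,⟨2,[(0,0),(2,0),(1,0),(14,0),(1,0),
  (1,0),(9,0)]⟩,⟨0,[(33,0),(2,0)]⟩⟩,.o ⟨false,0,⟨0,[(13,0),(6,0)]⟩,⟨7,[(7,3),(8,2),(0,0),(15,3)]⟩⟩,
  .a ⟨true,0,⟨1,[(18,0),(8,0),(0,0)]⟩,⟨0,[(19,0)]⟩⟩ ⟨true,0,⟨0,[(4,0)]⟩,⟨0,[(10,0),(1,0),(10,0)]⟩⟩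
  ⟨false,0,⟨0,[(13,0),(5,0),(0,0)]⟩,⟨1,[(1,1),(14,0),(19,0)]⟩⟩,.o ⟨false,0,⟨1,[(18,0),(2,0),(2,0)]⟩,
  ⟨1,[(19,1),(9,0),(5,0)]⟩⟩]⟩) (.R ⟨1,false,false,false,[0,0,0,1],[0,-1,1],[1,0,0,0,0,0,0,0,1],(⟨0,
  [(19,0)]⟩,⟨1,[(18,0),(8,0),(0,0)]⟩),(⟨0,[(9,0)]⟩,⟨0,[(27,0),(3,0)]⟩),⟨0,[(2,0)]⟩,.k,.k,(.r 0 ⟨0,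
  [(3,0)]⟩ ⟨7,[(0,1),(6,1),(8,5),(7,2),(0,2),(7,3)]⟩),(.r 0 ⟨0,[(0,0),(11,0),(10,0)]⟩ ⟨0,[(3,0),(12,
  0),(9,0)]⟩),.k,.k,⟨true,0,⟨0,[(0,0),(11,0),(10,0)]⟩,⟨0,[(10,0),(23,0)]⟩⟩,⟨false,0,⟨0,[(12,0),(6,
  0)]⟩,⟨1,[(18,0),(2,0),(3,0),(9,1)]⟩⟩,⟨true,0,⟨0,[]⟩,⟨0,[(38,0)]⟩⟩,⟨true,0,⟨0,[(10,0),(1,0),(6,0),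
  (14,0)]⟩,⟨0,[(1,0),(18,0)]⟩⟩,⟨false,1,⟨2,[(0,0),(6,0),(8,0),(15,0),(3,0)]⟩,⟨0,[(34,0)]⟩⟩,⟨true,0,
  ⟨0,[(10,0),(1,0),(6,0)]⟩,⟨1,[(4,1),(13,0),(1,0),(2,0)]⟩⟩,[.o ⟨false,0,⟨1,[(13,0),(8,0),(11,0)]⟩,
  ⟨2,[(0,0),(6,0),(8,0),(3,2),(11,0),(3,0)]⟩⟩,.o ⟨false,0,⟨0,[(13,0)]⟩,⟨3,[(7,1),(8,0),(3,1),(2,1),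
  (5,0),(3,1)]⟩⟩,.a ⟨true,0,⟨1,[(18,0),(8,0),(0,0)]⟩,⟨0,[(19,0)]⟩⟩ ⟨true,0,⟨0,[(4,0)]⟩,⟨0,[(10,0),
  (1,0),(10,0)]⟩⟩ ⟨false,0,⟨0,[(13,0),(5,0)]⟩,⟨2,[(0,0),(7,0),(7,0),(1,0),(1,1),(2,0),(8,0),(3,
  0)]⟩⟩,.o ⟨false,0,⟨1,[(18,0),(2,0),(2,0)]⟩,⟨1,[(19,1),(9,0),(5,0)]⟩⟩]⟩)) (.R ⟨2,true,false,true,
  [0,1],[1,0,0,-1],[1,0,1,1],(⟨0,[]⟩,⟨0,[]⟩),(⟨1,[(17,0),(8,0),(0,0)]⟩,⟨0,[(18,0)]⟩),⟨0,[]⟩,.k,.k,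
  .k,(.x (-1) ⟨3,[(15,0),(0,0),(13,3),(3,1)]⟩ ⟨1,[(4,0),(18,0),(5,1)]⟩),.k,.k,⟨false,1,⟨0,[(6,0)]⟩,
  ⟨5,[(0,7),(1,1),(11,0),(2,3),(4,1),(3,2),(0,2),(3,3)]⟩⟩,⟨true,0,⟨1,[(4,0),(13,1),(4,0)]⟩,⟨1,[(17,
  0),(8,0),(0,0)]⟩⟩,⟨true,0,⟨0,[]⟩,⟨0,[(37,0)]⟩⟩,⟨false,0,⟨0,[(0,0)]⟩,⟨0,[(7,0)]⟩⟩,⟨false,1,⟨0,[(32,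
  0),(2,0)]⟩,⟨0,[(33,0)]⟩⟩,⟨true,0,⟨0,[(0,0),(31,0)]⟩,⟨1,[(3,1),(13,0),(8,0),(0,0)]⟩⟩,[]⟩))) (.Q [0,
  0,0,0,0,1,0,0,0,0,0,-1] (.p false [0,0,0,1] [] (⟨0,[(16,0)]⟩,⟨1,[(15,0),(8,0),(0,0)]⟩) .k 0 (⟨0,
  []⟩,⟨0,[]⟩) .k .k) (.R ⟨0,false,false,true,[0,0,0,1],[0,1],[1,1,1,1],(⟨0,[(17,0)]⟩,⟨1,[(16,0),(8,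
  0),(0,0)]⟩),(⟨0,[(29,0)]⟩,⟨0,[(28,0)]⟩),⟨0,[(0,0)]⟩,.k,.k,(.x 0 ⟨1,[(3,0),(18,0),(5,1)]⟩ ⟨3,[(14,
  0),(0,0),(13,3),(3,1)]⟩),(.x 0 ⟨1,[(3,0),(18,0),(5,1)]⟩ ⟨3,[(14,0),(0,0),(13,3),(3,1)]⟩),.k,.k,
  ⟨true,0,⟨0,[]⟩,⟨1,[(22,0),(0,0)]⟩⟩,⟨false,1,⟨0,[(17,0),(15,0)]⟩,⟨1,[(16,0),(2,0),(2,0)]⟩⟩,⟨false,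
  0,⟨0,[(1,0)]⟩,⟨1,[(2,1),(29,1),(0,0),(0,0)]⟩⟩,⟨true,0,⟨1,[(1,0),(6,0),(1,0),(6,1),(3,0),(8,0)]⟩,
  ⟨1,[(2,1),(8,0),(4,0),(1,0),(13,0)]⟩⟩,⟨false,0,⟨0,[]⟩,⟨0,[]⟩⟩,⟨false,0,⟨0,[]⟩,⟨0,[]⟩⟩,[.o ⟨false,
  0,⟨0,[(31,0)]⟩,⟨1,[(27,0),(4,1),(1,0)]⟩⟩,.o ⟨false,1,⟨7,[(5,3),(8,2),(0,0),(15,3)]⟩,⟨0,[(11,0),(6,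
  0)]⟩⟩,.a ⟨true,0,⟨1,[(16,0),(8,0),(0,0)]⟩,⟨0,[(17,0)]⟩⟩ ⟨false,0,⟨0,[(1,0),(0,0)]⟩,⟨1,[(32,1),(0,
  0),(0,0)]⟩⟩ ⟨true,0,⟨0,[(17,0),(13,0)]⟩,⟨1,[(11,0),(4,0),(1,0),(13,0)]⟩⟩,.o ⟨false,0,⟨1,[(16,0),
  (2,0),(2,0)]⟩,⟨1,[(17,1),(9,0),(5,0)]⟩⟩]⟩) (.I [0,-1,-1,-1,1,0,0,-1,1] (.R ⟨1,false,false,true,[0,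
  0,0,1],[0,0,1],[0,0,0,-1,0,0,0,0,1],(⟨0,[(18,0)]⟩,⟨1,[(17,0),(8,0),(0,0)]⟩),(⟨0,[(27,0)]⟩,⟨0,[(26,
  0)]⟩),⟨0,[(1,0)]⟩,.k,.k,(.x 0 ⟨1,[(4,0),(18,0),(5,1)]⟩ ⟨3,[(15,0),(0,0),(13,3),(3,1)]⟩),.k,(.r
  (-1) ⟨0,[(0,0),(36,0)]⟩ ⟨0,[(2,0),(22,0)]⟩),.k,⟨false,1,⟨0,[(0,0)]⟩,⟨0,[(9,0),(22,0)]⟩⟩,⟨true,0,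
  ⟨0,[(11,0),(6,0)]⟩,⟨1,[(17,0),(2,0),(3,0)]⟩⟩,⟨true,0,⟨0,[(33,0)]⟩,⟨0,[(32,0)]⟩⟩,⟨false,0,⟨0,[(9,
  0),(1,0),(6,0)]⟩,⟨1,[(3,1),(13,0),(1,0),(2,0),(12,1)]⟩⟩,⟨false,1,⟨3,[(15,0),(0,0),(18,1)]⟩,⟨0,
  []⟩⟩,⟨false,0,⟨0,[(2,0),(9,0),(5,0),(12,0)]⟩,⟨1,[(0,1),(16,0),(2,0),(3,0)]⟩⟩,[.o ⟨false,0,⟨0,[(21,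
  0)]⟩,⟨0,[(19,0),(15,0)]⟩⟩,.o ⟨false,0,⟨4,[(4,0),(6,0),(0,0),(1,1),(16,0)]⟩,⟨1,[(22,1),(5,0),(6,
  0)]⟩⟩,.a ⟨true,0,⟨1,[(17,0),(8,0),(0,0)]⟩,⟨0,[(18,0)]⟩⟩ ⟨true,0,⟨0,[(3,0),(29,0)]⟩,⟨1,[(2,0),(6,
  0),(1,0),(10,0),(8,0)]⟩⟩ ⟨false,0,⟨4,[(4,0),(6,0),(0,0),(1,1),(3,4),(12,0)]⟩,⟨1,[(17,0),(1,0),(2,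
  0),(12,1)]⟩⟩,.o ⟨false,0,⟨1,[(17,0),(2,0),(2,0)]⟩,⟨1,[(18,1),(9,0),(5,0)]⟩⟩]⟩) (.Q [0,0,0,-1,0,0,
  0,0,-1,-1,0,1] (.p true [0,0,0,1] [1] (⟨0,[(18,0)]⟩,⟨1,[(17,0),(8,0),(0,0)]⟩) .k 1 (⟨0,[]⟩,⟨0,
  []⟩) .k .k) (.R ⟨2,true,false,true,[0,1],[1,0,0,-1],[1,0,1,1],(⟨0,[]⟩,⟨0,[]⟩),(⟨1,[(18,0),(8,0),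
  (0,0)]⟩,⟨0,[(19,0)]⟩),⟨0,[]⟩,.k,.k,.k,(.r 0 ⟨0,[(1,0),(0,1),(1,1),(7,0),(5,0),(1,0),(10,1),(4,
  0)]⟩ ⟨1,[(16,0),(17,1),(0,0)]⟩),.k,.k,⟨false,1,⟨0,[(7,0)]⟩,⟨1,[(0,1),(17,0),(8,0),(0,0),(3,1),(1,
  1)]⟩⟩,⟨true,0,⟨1,[(5,0),(13,1),(4,0)]⟩,⟨1,[(18,0),(8,0),(0,0)]⟩⟩,⟨true,0,⟨0,[]⟩,⟨0,[(38,0)]⟩⟩,
  ⟨false,0,⟨0,[(0,0)]⟩,⟨0,[(8,0)]⟩⟩,⟨false,1,⟨7,[(3,1),(3,3),(8,0),(15,1),(3,2)]⟩,⟨0,[(34,0)]⟩⟩,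
  ⟨true,0,⟨0,[(0,0),(32,0)]⟩,⟨1,[(4,1),(13,0),(8,0),(0,0)]⟩⟩,[]⟩) (.I [0,0,1,0,0,0,0,-1,1] (.R ⟨1,
  false,false,false,[0,0,0,1],[0,-1,1],[0,0,0,-1,0,0,0,0,1],(⟨0,[(20,0)]⟩,⟨1,[(19,0),(8,0),(0,0)]⟩),
  (⟨0,[(10,0)]⟩,⟨0,[(28,0),(3,0)]⟩),⟨0,[(3,0)]⟩,.k,.k,(.r (-1) ⟨1,[(18,0),(16,1),(0,0)]⟩ ⟨0,[(2,0),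
  (0,1),(9,0),(5,0),(1,0),(10,1),(4,0)]⟩),(.x (-1) ⟨0,[(22,0),(5,0),(3,0),(3,0)]⟩ ⟨0,[(10,0),(14,
  0)]⟩),.k,.k,⟨true,0,⟨0,[(0,0)]⟩,⟨0,[(11,0)]⟩⟩,⟨false,0,⟨0,[(13,0),(6,0)]⟩,⟨1,[(19,0),(2,0),(3,0),
  (9,1)]⟩⟩,⟨true,0,⟨0,[(35,0)]⟩,⟨0,[(34,0)]⟩⟩,⟨true,0,⟨2,[(2,0),(10,0),(0,1),(2,0),(2,2),(12,0),(1,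
  2)]⟩,⟨0,[(1,0),(19,0)]⟩⟩,⟨false,1,⟨3,[(17,0),(0,0),(18,1)]⟩,⟨0,[]⟩⟩,⟨true,0,⟨2,[(2,0),(10,0),(0,
  1),(2,0),(2,2),(12,0)]⟩,⟨1,[(5,1),(13,0),(1,0),(2,0)]⟩⟩,[.o ⟨false,0,⟨1,[(14,0),(8,0),(11,0)]⟩,⟨7,
  [(4,1),(3,3),(8,0),(3,7),(11,1),(3,2)]⟩⟩,.o ⟨false,0,⟨0,[(14,0)]⟩,⟨3,[(8,1),(8,0),(3,1),(2,1),(5,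
  0),(3,1)]⟩⟩,.a ⟨true,0,⟨1,[(19,0),(8,0),(0,0)]⟩,⟨0,[(20,0)]⟩⟩ ⟨true,0,⟨0,[(5,0),(29,0)]⟩,⟨3,[(2,
  0),(1,0),(8,0),(3,0),(6,0),(8,1)]⟩⟩ ⟨false,0,⟨0,[(14,0),(5,0)]⟩,⟨7,[(4,1),(4,3),(7,0),(1,1),(1,5),
  (2,1),(8,1),(3,2)]⟩⟩,.o ⟨false,0,⟨1,[(19,0),(2,0),(2,0)]⟩,⟨1,[(20,1),(9,0),(5,0)]⟩⟩]⟩) (.R ⟨1,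
  false,false,false,[0,0,0,1],[1,-1],[1,1,0,0,0,0,0,0,1],(⟨0,[(20,0)]⟩,⟨1,[(19,0),(8,0),(0,0)]⟩),
  (⟨0,[(31,0)]⟩,⟨0,[(32,0)]⟩),⟨0,[(3,0)]⟩,.k,.k,(.r (-1) ⟨1,[(18,0),(16,1),(0,0)]⟩ ⟨0,[(2,0),(0,1),
  (9,0),(5,0),(1,0),(10,1),(4,0)]⟩),(.r 0 ⟨1,[(1,1),(4,0),(13,1),(4,0)]⟩ ⟨1,[(17,0),(17,1),(0,0)]⟩),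
  .k,.k,⟨false,0,⟨0,[(5,0),(28,0)]⟩,⟨0,[(0,0),(12,0),(10,0),(10,0),(1,0)]⟩⟩,⟨true,0,⟨1,[(6,0),(13,
  1),(4,0)]⟩,⟨1,[(19,0),(8,0),(0,0)]⟩⟩,⟨false,0,⟨0,[]⟩,⟨3,[(17,0),(0,0),(18,1)]⟩⟩,⟨false,1,⟨1,[(14,
  1),(2,0),(2,1),(0,1),(15,0)]⟩,⟨0,[(1,0)]⟩⟩,⟨true,0,⟨0,[(34,0)]⟩,⟨0,[(35,0)]⟩⟩,⟨false,1,⟨2,[(0,0),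
  (5,0),(6,1),(3,0),(2,2),(0,0),(15,1)]⟩,⟨0,[(1,0),(33,0)]⟩⟩,[.o ⟨false,0,⟨0,[(14,0),(6,0)]⟩,⟨7,[(8,
  3),(8,2),(0,0),(15,3)]⟩⟩,.o ⟨false,1,⟨1,[(30,0),(4,1),(1,0)]⟩,⟨0,[(34,0)]⟩⟩,.a ⟨true,0,⟨1,[(19,0),
  (8,0),(0,0)]⟩,⟨0,[(20,0)]⟩⟩ ⟨false,0,⟨0,[(5,0)]⟩,⟨1,[(17,0),(19,0)]⟩⟩ ⟨true,0,⟨0,[(14,0),(5,0),(0,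
  0)]⟩,⟨1,[(15,0),(3,0),(4,0),(9,0)]⟩⟩,.o ⟨false,0,⟨1,[(19,0),(2,0),(2,0)]⟩,⟨1,[(20,1),(9,0),(5,
  0)]⟩⟩]⟩)))))))) (.Q [0,0,0,1,0,0,1,1,0,0,-1] (.p false [0,0,1] [] (⟨0,[(22,0)]⟩,⟨0,[(21,0)]⟩) .k
  0 (⟨0,[]⟩,⟨0,[]⟩) .k .k) (.Q [0,-1,0,-1,0,0,0,0,-1,-1,0,1] (.p true [0,0,0,1] [1] (⟨0,[(14,0)]⟩,
  ⟨1,[(13,0),(8,0),(0,0)]⟩) .k 1 (⟨0,[]⟩,⟨0,[]⟩) .k .k) (.Q [0,0,0,1,0,0,0,0,-1,0,0,1] (.p true [0,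
  0,0,1] [] (⟨0,[(15,0)]⟩,⟨1,[(14,0),(8,0),(0,0)]⟩) .k 0 (⟨0,[]⟩,⟨0,[]⟩) .k .k) (.R ⟨1,false,false,
  false,[1,0,0,-1],[1,-1],[0,0,0,-1,0,0,0,0,-1],(⟨1,[(15,0),(8,0),(0,0)]⟩,⟨0,[(16,0)]⟩),(⟨0,[(27,
  0)]⟩,⟨0,[(28,0)]⟩),⟨1,[(3,0),(2,0),(8,0)]⟩,.k,.k,(.r 0 ⟨1,[(1,1),(13,0),(8,0),(0,0),(3,1),(1,1)]⟩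
  ⟨7,[(4,3),(8,0),(0,2),(6,3),(0,3),(7,3)]⟩),(.r 0 ⟨1,[(0,1),(14,0),(2,0),(2,0)]⟩ ⟨1,[(14,0),(16,1),
  (0,0)]⟩),.k,.k,⟨false,0,⟨1,[(0,0),(0,0),(13,0),(19,0)]⟩,⟨1,[(14,0),(17,0)]⟩⟩,⟨true,0,⟨1,[(15,0),
  (2,0),(2,0)]⟩,⟨0,[(16,0)]⟩⟩,⟨true,0,⟨0,[(31,0)]⟩,⟨0,[(30,0)]⟩⟩,⟨false,1,⟨0,[(1,0),(12,0),(0,0)]⟩,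
  ⟨0,[(0,0)]⟩⟩,⟨false,1,⟨3,[(13,0),(0,0),(18,1)]⟩,⟨0,[]⟩⟩,⟨false,1,⟨3,[(4,1),(5,1),(3,0),(0,1),(1,
  1),(15,0)]⟩,⟨0,[(0,0),(30,0)]⟩⟩,[.o ⟨false,0,⟨0,[(10,0),(6,0)]⟩,⟨7,[(4,3),(8,2),(0,0),(15,3)]⟩⟩,
  .o ⟨false,1,⟨1,[(26,0),(4,1),(1,0)]⟩,⟨0,[(30,0)]⟩⟩,.a ⟨true,0,⟨0,[(16,0)]⟩,⟨1,[(15,0),(8,0),(0,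
  0)]⟩⟩ ⟨false,0,⟨1,[(1,1),(13,0),(8,0),(0,0)]⟩,⟨7,[(4,3),(8,0),(0,2),(15,3)]⟩⟩ ⟨true,0,⟨1,[(10,0),
  (4,0),(1,0),(13,0)]⟩,⟨0,[(16,0),(13,0)]⟩⟩,.o ⟨false,0,⟨0,[(9,0),(6,0),(1,0)]⟩,⟨7,[(13,0),(0,0),(0,
  3),(10,1),(5,3)]⟩⟩]⟩) (.R ⟨2,true,false,false,[0,1],[1,0,0,-1],[1,0,1,1],(⟨0,[]⟩,⟨0,[]⟩),(⟨1,[(15,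
  0),(8,0),(0,0)]⟩,⟨0,[(16,0)]⟩),⟨0,[]⟩,.k,.k,.k,(.r (-1) ⟨7,[(4,3),(8,0),(0,2),(6,3),(0,3),(7,3)]⟩
  ⟨1,[(1,1),(13,0),(8,0),(0,0),(3,1),(1,1)]⟩),.k,.k,⟨false,1,⟨7,[(4,3),(8,0),(0,2),(15,3)]⟩,⟨1,[(1,
  1),(13,0),(8,0),(0,0),(3,1),(1,1)]⟩⟩,⟨true,0,⟨0,[(9,0),(6,0),(1,0)]⟩,⟨1,[(15,0),(8,0),(0,0)]⟩⟩,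
  ⟨true,0,⟨0,[]⟩,⟨0,[(35,0)]⟩⟩,⟨false,0,⟨0,[(1,0)]⟩,⟨0,[(5,0),(29,0)]⟩⟩,⟨false,1,⟨0,[(30,0),(2,0)]⟩,
  ⟨0,[(31,0)]⟩⟩,⟨true,0,⟨0,[(1,0),(28,0)]⟩,⟨0,[(0,0),(10,0),(8,0)]⟩⟩,[]⟩)) (.Q [0,0,0,1,0,0,1,1,1,1,
  -1,-1] (.p false [0,0,1] [1,0,0,-1] (⟨0,[(24,0)]⟩,⟨0,[(23,0)]⟩) .k 2 (⟨1,[(14,0),(8,0),(0,0)]⟩,⟨0,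
  [(15,0)]⟩) .k (.x 0 ⟨0,[(8,0),(15,0)]⟩ ⟨3,[(12,0),(0,0),(3,3),(5,3),(7,1)]⟩)) (.I [1,0,0,1,0,0,0,
  1,1] (.Q [0,1,0,1,0,0,0,0,-1,0,0,1] (.p true [0,0,0,1] [] (⟨0,[(17,0)]⟩,⟨1,[(16,0),(8,0),(0,0)]⟩)
  .k 0 (⟨0,[]⟩,⟨0,[]⟩) .k .k) (.Q [0,0,0,1,0,0,1,1,-1,0,-1,1] (.p false [0,0,1] [0,0,0,1] (⟨0,[(27,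
  0)]⟩,⟨0,[(26,0)]⟩) .k 2 (⟨0,[(18,0)]⟩,⟨1,[(17,0),(8,0),(0,0)]⟩) .k (.r 0 ⟨0,[(9,0)]⟩ ⟨1,[(11,1),
  (4,0),(5,1),(12,0)]⟩)) (.I [1,1,-1,0,0,0,0,-1,-1] (.R ⟨1,false,false,false,[1,0,0,-1],[0,0,1],[0,
  1,0,-1,0,0,0,0,-1],(⟨1,[(19,0),(8,0),(0,0)]⟩,⟨0,[(20,0)]⟩),(⟨0,[(29,0)]⟩,⟨0,[(28,0)]⟩),⟨1,[(7,0),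
  (2,0),(8,0)]⟩,.k,.k,(.x 0 ⟨1,[(7,0),(2,0),(11,0),(2,0)]⟩ ⟨3,[(17,0),(0,0),(13,3),(3,1)]⟩),.k,(.r
  (-1) ⟨3,[(0,3),(16,0),(0,0),(16,3),(1,1)]⟩ ⟨1,[(3,1),(21,0),(0,0)]⟩),.k,⟨false,0,⟨0,[(0,0),(34,
  0)]⟩,⟨0,[(8,0),(18,0)]⟩⟩,⟨true,0,⟨1,[(13,1),(5,0),(8,0),(0,0)]⟩,⟨0,[(20,0),(1,0)]⟩⟩,⟨false,0,⟨0,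
  [(35,0)]⟩,⟨0,[(34,0),(2,0)]⟩⟩,⟨true,0,⟨0,[(5,0),(8,0)]⟩,⟨0,[(0,0),(19,0),(1,0)]⟩⟩,⟨true,0,⟨0,[(39,
  0)]⟩,⟨0,[]⟩⟩,⟨true,0,⟨0,[(4,0)]⟩,⟨0,[(0,0),(19,0),(1,0),(12,0)]⟩⟩,[.o ⟨false,0,⟨2,[(6,0),(7,0),(8,
  0)]⟩,⟨1,[(24,1),(5,0),(6,0)]⟩⟩,.o ⟨false,1,⟨7,[(16,3),(0,0),(0,0),(11,1),(6,3)]⟩,⟨0,[(21,0)]⟩⟩,.a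
  ⟨true,0,⟨0,[(20,0)]⟩,⟨1,[(19,0),(8,0),(0,0)]⟩⟩ ⟨false,0,⟨0,[(0,0),(13,0),(11,0)]⟩,⟨0,[(8,0)]⟩⟩
  ⟨true,0,⟨1,[(16,0),(2,0)]⟩,⟨0,[(20,0),(0,0)]⟩⟩,.o ⟨false,0,⟨0,[(13,0),(6,0),(1,0)]⟩,⟨7,[(17,0),(0,
  0),(0,3),(10,1),(5,3)]⟩⟩]⟩) (.I [1,1,-1,0,0,0,0,-1,1] (.R ⟨1,false,false,false,[1,0,0,-1],[1,-1,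
  -1],[1,1,0,0,0,0,0,0,-1],(⟨1,[(20,0),(8,0),(0,0)]⟩,⟨0,[(21,0)]⟩),(⟨0,[(8,0)]⟩,⟨0,[(30,0),(2,0)]⟩),
  ⟨1,[(8,0),(2,0),(8,0)]⟩,.k,.k,(.x 0 ⟨1,[(8,0),(2,0),(11,0),(2,0)]⟩ ⟨3,[(18,0),(0,0),(13,3),(3,
  1)]⟩),(.r 0 ⟨1,[(2,1),(17,0),(2,0),(3,0)]⟩ ⟨3,[(0,3),(17,0),(0,0),(16,3),(1,1)]⟩),.k,.k,⟨false,0,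
  ⟨0,[(12,0),(22,0)]⟩,⟨0,[(0,0),(35,0),(1,0)]⟩⟩,⟨true,0,⟨1,[(20,0),(2,0),(3,0)]⟩,⟨0,[(14,0),(6,
  0)]⟩⟩,⟨false,0,⟨0,[]⟩,⟨3,[(18,0),(0,0),(18,1)]⟩⟩,⟨false,1,⟨3,[(0,2),(0,0),(18,1),(2,1),(1,1),(10,
  3),(1,3)]⟩,⟨0,[(2,0)]⟩⟩,⟨true,0,⟨0,[(35,0)]⟩,⟨0,[(36,0)]⟩⟩,⟨false,1,⟨3,[(0,2),(0,0),(18,1),(2,1),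
  (1,1),(12,3)]⟩,⟨0,[(3,0),(11,0)]⟩⟩,[.o ⟨false,1,⟨1,[(25,1),(5,0),(4,1),(1,0)]⟩,⟨0,[(7,0)]⟩⟩,.o
  ⟨false,1,⟨0,[(22,0),(13,0),(1,0)]⟩,⟨1,[(7,0),(16,0),(10,0)]⟩⟩,.a ⟨true,0,⟨0,[(21,0)]⟩,⟨1,[(20,0),
  (8,0),(0,0)]⟩⟩ ⟨true,0,⟨2,[(3,1),(8,0),(1,0),(5,0),(1,0),(13,1)]⟩,⟨1,[(0,0),(0,0)]⟩⟩ ⟨false,1,⟨1,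
  [(20,0),(1,0),(2,0),(10,1),(1,1)]⟩,⟨1,[(0,0),(0,0),(0,1)]⟩⟩,.o ⟨false,0,⟨0,[(14,0),(6,0),(1,0)]⟩,
  ⟨7,[(18,0),(0,0),(0,3),(10,1),(5,3)]⟩⟩]⟩) (.I [0,0,1,1,0,0,0,0,1] (.I [0,1,-1,0,0,0,0,0,1] (.I [0,
  0,1,1,0,0,0,0,-1] (.I [0,1,-1,-1,0,0,0,-1,-1] (.I [1,0,0,0,0,0,0,0,-1] (.R ⟨1,false,false,false,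
  [1,0,0,-1],[0,0,1],[0,1,0,-1,0,0,0,0,-1],(⟨1,[(25,0),(8,0),(0,0)]⟩,⟨0,[(26,0)]⟩),(⟨0,[(35,0)]⟩,⟨0,
  [(34,0)]⟩),⟨1,[(13,0),(2,0),(8,0)]⟩,.k,.k,(.r (-1) ⟨1,[(23,0),(17,1),(0,0)]⟩ ⟨0,[(4,0)]⟩),.k,(.r
  (-1) ⟨3,[(1,3),(21,0),(0,0),(18,1)]⟩ ⟨7,[(4,3),(0,0),(0,0),(2,3),(19,1),(2,1)]⟩),.k,⟨false,0,⟨0,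
  [(1,0)]⟩,⟨0,[(14,0),(18,0)]⟩⟩,⟨true,0,⟨1,[(19,1),(5,0),(8,0),(0,0)]⟩,⟨0,[(26,0),(1,0)]⟩⟩,⟨false,0,
  ⟨0,[(41,0)]⟩,⟨7,[(2,1),(11,3),(8,0),(15,1),(3,2)]⟩⟩,⟨true,0,⟨0,[(11,0),(8,0)]⟩,⟨0,[(0,0),(25,0),
  (0,0)]⟩⟩,⟨true,0,⟨0,[(45,0)]⟩,⟨0,[]⟩⟩,⟨true,0,⟨0,[(10,0)]⟩,⟨0,[(1,0),(24,0),(1,0)]⟩⟩,[.o ⟨false,0,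
  ⟨2,[(12,0),(7,0),(8,0)]⟩,⟨1,[(30,1),(5,0),(6,0)]⟩⟩,.o ⟨false,1,⟨7,[(22,3),(0,0),(0,0),(11,1),(6,
  3)]⟩,⟨0,[(27,0)]⟩⟩,.a ⟨true,0,⟨0,[(26,0)]⟩,⟨1,[(25,0),(8,0),(0,0)]⟩⟩ ⟨false,0,⟨1,[(1,0),(3,0),(35,
  0)]⟩,⟨0,[(14,0)]⟩⟩ ⟨true,0,⟨1,[(22,0),(2,0)]⟩,⟨0,[(26,0),(0,0)]⟩⟩,.o ⟨false,0,⟨0,[(19,0),(6,0),(1,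
  0)]⟩,⟨7,[(23,0),(0,0),(0,3),(10,1),(5,3)]⟩⟩]⟩) (.R ⟨1,false,false,true,[1,0,0,-1],[1,-1,-1],[0,1,
  0,-1,0,0,0,0,-1],(⟨1,[(25,0),(8,0),(0,0)]⟩,⟨0,[(26,0)]⟩),(⟨0,[(13,0)]⟩,⟨0,[(35,0),(2,0)]⟩),⟨1,
  [(13,0),(2,0),(8,0)]⟩,.k,.k,(.r (-1) ⟨1,[(23,0),(17,1),(0,0)]⟩ ⟨0,[(4,0)]⟩),(.r 0 ⟨0,[(5,0),(34,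
  0)]⟩ ⟨1,[(0,1),(0,1),(22,0),(18,0)]⟩),.k,.k,⟨false,0,⟨0,[(17,0)]⟩,⟨0,[(0,0),(0,0),(12,0)]⟩⟩,⟨true,
  0,⟨1,[(25,0),(2,0),(3,0)]⟩,⟨0,[(19,0),(6,0)]⟩⟩,⟨false,0,⟨0,[(41,0)]⟩,⟨7,[(2,1),(11,3),(8,0),(15,
  1),(3,2)]⟩⟩,⟨true,0,⟨1,[(0,1),(24,0),(1,0),(2,0),(10,1)]⟩,⟨0,[(7,0)]⟩⟩,⟨true,0,⟨0,[(45,0)]⟩,⟨0,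
  []⟩⟩,⟨true,0,⟨1,[(0,1),(24,0),(1,0),(2,0)]⟩,⟨0,[(8,0),(11,0)]⟩⟩,[.o ⟨false,0,⟨0,[(27,0),(13,0)]⟩,
  ⟨9,[(7,3),(4,1),(2,3),(6,1),(13,2),(6,2)]⟩⟩,.o ⟨false,1,⟨1,[(30,1),(5,0),(4,1),(1,0)]⟩,⟨0,[(12,
  0)]⟩⟩,.a ⟨true,0,⟨0,[(26,0)]⟩,⟨1,[(25,0),(8,0),(0,0)]⟩⟩ ⟨false,0,⟨1,[(1,0),(3,0),(35,0)]⟩,⟨0,[(14,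
  0)]⟩⟩ ⟨true,0,⟨1,[(25,0),(1,0),(2,0),(10,1)]⟩,⟨0,[(0,0),(6,0)]⟩⟩,.o ⟨false,0,⟨0,[(19,0),(6,0),(1,
  0)]⟩,⟨7,[(23,0),(0,0),(0,3),(10,1),(5,3)]⟩⟩]⟩)) (.I [0,1,-1,-1,0,0,0,-1,1] (.R ⟨1,false,false,
  true,[1,0,0,-1],[1,-1,-1],[1,0,0,0,0,0,0,0,-1],(⟨1,[(25,0),(8,0),(0,0)]⟩,⟨0,[(26,0)]⟩),(⟨0,[(13,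
  0)]⟩,⟨0,[(35,0),(2,0)]⟩),⟨1,[(13,0),(2,0),(8,0)]⟩,.k,.k,(.r (-1) ⟨1,[(23,0),(17,1),(0,0)]⟩ ⟨0,[(4,
  0)]⟩),(.r 0 ⟨0,[(5,0),(34,0)]⟩ ⟨3,[(0,3),(22,0),(0,0),(18,1)]⟩),.k,.k,⟨false,1,⟨7,[(5,5),(8,3),(3,
  1),(4,2),(15,3),(3,0)]⟩,⟨0,[(0,0)]⟩⟩,⟨true,0,⟨1,[(25,0),(2,0),(3,0)]⟩,⟨0,[(19,0),(6,0)]⟩⟩,⟨true,0,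
  ⟨0,[]⟩,⟨0,[(45,0)]⟩⟩,⟨true,0,⟨1,[(0,1),(24,0),(2,0),(3,0)]⟩,⟨0,[(7,0)]⟩⟩,⟨false,1,⟨7,[(2,1),(11,
  3),(8,0),(15,1),(3,2)]⟩,⟨0,[(41,0)]⟩⟩,⟨true,0,⟨1,[(0,0),(0,0),(23,0),(1,0),(2,0)]⟩,⟨0,[(8,0),(11,
  0)]⟩⟩,[.o ⟨false,0,⟨0,[(27,0),(13,0)]⟩,⟨9,[(7,3),(4,1),(2,3),(6,1),(13,2),(6,2)]⟩⟩,.o ⟨false,1,⟨1,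
  [(0,1),(22,0),(4,1),(14,0)]⟩,⟨0,[(12,0)]⟩⟩,.a ⟨true,0,⟨0,[(26,0)]⟩,⟨1,[(25,0),(8,0),(0,0)]⟩⟩
  ⟨false,1,⟨1,[(23,0),(19,0)]⟩,⟨1,[(0,0),(0,0)]⟩⟩ ⟨true,0,⟨1,[(25,0),(1,0),(2,0),(10,1)]⟩,⟨1,[(0,0),
  (0,0),(5,1)]⟩⟩,.o ⟨false,0,⟨0,[(19,0),(6,0),(1,0)]⟩,⟨7,[(23,0),(0,0),(0,3),(10,1),(5,3)]⟩⟩]⟩) (.I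
  [0,1,-1,-2,0,0,0,-1,-1] (.R ⟨1,false,false,false,[1,0,0,-1],[0,1,1],[1,0,1,1,0,0,0,1],(⟨1,[(26,0),
  (8,0),(0,0)]⟩,⟨0,[(27,0)]⟩),(⟨0,[(36,0),(2,0)]⟩,⟨0,[(14,0)]⟩),⟨1,[(14,0),(2,0),(8,0)]⟩,.k,.k,(.r
  (-1) ⟨3,[(0,1),(18,1),(4,1),(0,0),(18,0)]⟩ ⟨0,[(5,0)]⟩),(.r (-1) ⟨3,[(0,1),(19,1),(3,0),(6,1),(11,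
  0),(0,1)]⟩ ⟨2,[(2,0),(2,0),(4,0),(19,0),(2,0)]⟩),(.r (-1) ⟨1,[(0,1),(42,0),(0,0)]⟩ ⟨5,[(1,1),(0,
  1),(2,5),(3,0),(2,0),(16,0),(0,1),(2,0)]⟩),.k,⟨true,0,⟨0,[]⟩,⟨1,[(32,0),(0,0)]⟩⟩,⟨false,1,⟨1,[(20,
  1),(5,0),(8,0),(0,0),(6,1)]⟩,⟨0,[(27,0),(1,0)]⟩⟩,⟨false,0,⟨0,[(2,0)]⟩,⟨3,[(0,1),(19,1),(3,0),(6,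
  1),(11,0),(0,1)]⟩⟩,⟨true,0,⟨0,[(11,0)]⟩,⟨2,[(0,1),(0,0),(25,2),(0,1),(0,0)]⟩⟩,⟨true,0,⟨0,[(2,0),
  (38,0)]⟩,⟨0,[(0,0)]⟩⟩,⟨true,0,⟨1,[(2,1),(17,1),(5,0),(8,0),(0,0),(3,1)]⟩,⟨0,[(0,0),(26,0),(1,
  0)]⟩⟩,[.o ⟨false,0,⟨0,[(13,0)]⟩,⟨3,[(0,1),(24,0),(3,1),(1,1),(5,0),(6,1)]⟩⟩,.o ⟨false,1,⟨9,[(8,3),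
  (4,1),(2,3),(6,1),(13,2),(6,2)]⟩,⟨0,[(28,0),(13,0)]⟩⟩,.a ⟨true,0,⟨0,[(27,0)]⟩,⟨1,[(26,0),(8,0),(0,
  0)]⟩⟩ ⟨false,0,⟨1,[(1,0),(0,0)]⟩,⟨0,[(0,0),(14,0)]⟩⟩ ⟨true,0,⟨1,[(8,0),(2,0),(14,0)]⟩,⟨0,[(27,0),
  (0,0),(13,0)]⟩⟩,.o ⟨false,0,⟨0,[(20,0),(6,0),(1,0)]⟩,⟨7,[(24,0),(0,0),(0,3),(10,1),(5,3)]⟩⟩]⟩)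
  (.I [0,0,0,-1,0,0,0,0,-1] (.Q [0,0,0,-1,0,0,0,0,1,0,0,-1] (.p false [0,0,0,1] [] (⟨0,[(28,0)]⟩,⟨1,
  [(27,0),(8,0),(0,0)]⟩) .k 0 (⟨0,[]⟩,⟨0,[]⟩) .k .k) (.I [1,0,0,0,0,0,0,0,1] (.R ⟨1,false,false,
  true,[1,0,0,-1],[1,-1,-1],[0,1,0,-1,0,0,0,0,-1],(⟨1,[(29,0),(8,0),(0,0)]⟩,⟨0,[(30,0)]⟩),(⟨0,[(17,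
  0)]⟩,⟨0,[(39,0),(2,0)]⟩),⟨1,[(17,0),(2,0),(8,0)]⟩,.k,.k,(.r (-1) ⟨3,[(2,3),(24,0),(0,0),(17,1)]⟩
  ⟨0,[(8,0)]⟩),(.r 0 ⟨5,[(4,3),(7,1),(16,0),(2,0),(0,1),(2,0)]⟩ ⟨0,[(7,0),(15,0),(10,0),(10,0),(1,
  0)]⟩),.k,.k,⟨false,0,⟨0,[(21,0)]⟩,⟨0,[(7,0),(15,0),(10,0),(12,0)]⟩⟩,⟨true,0,⟨1,[(29,0),(2,0),(3,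
  0)]⟩,⟨0,[(23,0),(6,0)]⟩⟩,⟨false,0,⟨0,[(45,0)]⟩,⟨7,[(6,1),(11,3),(8,0),(15,1),(3,2)]⟩⟩,⟨true,0,⟨0,
  [(1,0),(32,0)]⟩,⟨0,[(11,0)]⟩⟩,⟨true,0,⟨0,[(49,0)]⟩,⟨0,[]⟩⟩,⟨true,0,⟨1,[(0,1),(28,0),(1,0),(2,0)]⟩,
  ⟨0,[(12,0),(11,0)]⟩⟩,[.o ⟨false,0,⟨0,[(31,0),(13,0)]⟩,⟨9,[(11,3),(4,1),(2,3),(6,1),(13,2),(6,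
  2)]⟩⟩,.o ⟨false,1,⟨1,[(34,1),(5,0),(4,1),(1,0)]⟩,⟨0,[(16,0)]⟩⟩,.a ⟨true,0,⟨0,[(30,0)]⟩,⟨1,[(29,0),
  (8,0),(0,0)]⟩⟩ ⟨false,0,⟨0,[(2,0)]⟩,⟨0,[(18,0)]⟩⟩ ⟨true,0,⟨3,[(1,1),(0,1),(26,0),(1,0),(2,2)]⟩,⟨7,
  [(3,1),(3,2),(3,4),(11,0),(0,0),(5,2),(4,0)]⟩⟩,.o ⟨false,0,⟨0,[(23,0),(6,0),(1,0)]⟩,⟨7,[(27,0),(0,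
  0),(0,3),(10,1),(5,3)]⟩⟩]⟩) (.R ⟨2,true,false,false,[0,1],[0,0,0,1],[0,1,1],(⟨0,[]⟩,⟨0,[]⟩),(⟨0,
  [(30,0)]⟩,⟨1,[(29,0),(8,0),(0,0)]⟩),⟨0,[]⟩,.k,.k,.k,(.r 0 ⟨0,[(6,0)]⟩ ⟨1,[(28,0),(16,1),(0,0)]⟩),
  .k,.k,⟨false,0,⟨3,[(2,1),(9,1),(16,0),(1,0),(1,0)]⟩,⟨0,[(7,0),(39,0)]⟩⟩,⟨true,0,⟨1,[(29,0),(2,0),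
  (2,0)]⟩,⟨0,[(30,0)]⟩⟩,⟨false,0,⟨0,[(45,0)]⟩,⟨7,[(6,1),(11,3),(8,0),(15,1),(3,2)]⟩⟩,⟨true,0,⟨0,[(1,
  0)]⟩,⟨0,[(12,0)]⟩⟩,⟨true,0,⟨0,[(49,0)]⟩,⟨0,[]⟩⟩,⟨false,1,⟨3,[(1,1),(17,1),(20,0),(6,0)]⟩,⟨0,[(0,
  0),(29,0)]⟩⟩,[]⟩)) (.R ⟨1,false,false,false,[1,0,0,-1],[1,-1],[0,1,0,-1,0,0,0,0,-1],(⟨1,[(28,0),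
  (8,0),(0,0)]⟩,⟨0,[(29,0)]⟩),(⟨0,[(40,0)]⟩,⟨0,[(41,0)]⟩),⟨1,[(16,0),(2,0),(8,0)]⟩,.k,.k,(.r (-1)
  ⟨3,[(1,3),(24,0),(0,0),(17,1)]⟩ ⟨0,[(7,0)]⟩),(.r 0 ⟨0,[(5,0)]⟩ ⟨1,[(27,0),(16,1),(0,0)]⟩),.k,.k,
  ⟨false,0,⟨3,[(1,1),(9,1),(16,0),(1,0),(1,0)]⟩,⟨0,[(6,0),(39,0)]⟩⟩,⟨true,0,⟨1,[(28,0),(2,0),(2,
  0)]⟩,⟨0,[(29,0)]⟩⟩,⟨false,0,⟨0,[(44,0)]⟩,⟨3,[(0,1),(17,1),(20,0),(6,0)]⟩⟩,⟨false,1,⟨1,[(23,0),(3,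
  0),(0,0),(1,0),(13,0),(1,0)]⟩,⟨0,[(0,0)]⟩⟩,⟨true,0,⟨0,[(48,0)]⟩,⟨0,[]⟩⟩,⟨false,1,⟨7,[(6,1),(0,1),
  (15,1),(3,1),(0,3),(1,1),(8,0),(6,4)]⟩,⟨1,[(0,0),(0,0),(27,0)]⟩⟩,[.o ⟨false,0,⟨0,[(23,0),(6,0)]⟩,
  ⟨7,[(11,3),(6,3),(7,0),(0,0),(11,1)]⟩⟩,.o ⟨false,1,⟨1,[(39,0),(4,1),(1,0)]⟩,⟨0,[(43,0)]⟩⟩,.a
  ⟨true,0,⟨0,[(29,0)]⟩,⟨1,[(28,0),(8,0),(0,0)]⟩⟩ ⟨false,0,⟨0,[(1,0)]⟩,⟨0,[(17,0)]⟩⟩ ⟨true,0,⟨1,[(23,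
  0),(4,0),(1,0),(13,0)]⟩,⟨2,[(6,0),(0,0),(3,1),(17,0)]⟩⟩,.o ⟨false,0,⟨0,[(22,0),(6,0),(1,0)]⟩,⟨7,
  [(26,0),(0,0),(0,3),(10,1),(5,3)]⟩⟩]⟩)) (.Q [0,0,0,-2,0,0,0,0,-1,-1,0,1] (.p true [0,0,0,1] [1]
  (⟨0,[(28,0)]⟩,⟨1,[(27,0),(8,0),(0,0)]⟩) .k 1 (⟨0,[]⟩,⟨0,[]⟩) .k .k) (.R ⟨1,false,false,false,[1,0,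
  0,-1],[0,0,0,1],[0,0,0,-1,0,0,0,0,-1],(⟨1,[(28,0),(8,0),(0,0)]⟩,⟨0,[(29,0)]⟩),(⟨0,[(29,0)]⟩,⟨1,
  [(28,0),(8,0),(0,0)]⟩),⟨1,[(16,0),(2,0),(8,0)]⟩,.k,.k,(.r (-1) ⟨1,[(26,0),(17,1),(0,0)]⟩ ⟨0,[(7,
  0)]⟩),.k,(.r (-1) ⟨1,[(0,1),(10,1),(16,1),(16,0),(0,0)]⟩ ⟨0,[(1,0),(5,0),(36,0)]⟩),.k,⟨false,1,⟨1,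
  [(0,1),(10,1),(16,1),(16,0),(0,0)]⟩,⟨0,[(1,1),(42,0)]⟩⟩,⟨true,0,⟨0,[(28,0)]⟩,⟨1,[(0,0),(1,0),(26,
  2),(0,0),(3,0)]⟩⟩,⟨true,0,⟨0,[(44,0)]⟩,⟨0,[(43,0)]⟩⟩,⟨true,0,⟨0,[(1,1),(26,0),(15,1)]⟩,⟨0,[(0,0),
  (4,0),(23,0),(12,0)]⟩⟩,⟨false,1,⟨3,[(26,0),(0,0),(18,1)]⟩,⟨0,[]⟩⟩,⟨true,0,⟨0,[(1,1),(26,0),(15,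
  0)]⟩,⟨0,[(0,0),(10,0)]⟩⟩,[.o ⟨false,0,⟨1,[(1,1),(21,0),(4,0),(1,0),(13,0)]⟩,⟨1,[(26,0),(2,1),(9,
  0)]⟩⟩,.o ⟨false,1,⟨7,[(1,1),(21,1),(3,2),(0,3),(1,1),(8,0),(6,3)]⟩,⟨5,[(0,1),(9,2),(0,0),(18,3),
  (1,0)]⟩⟩,.a ⟨true,0,⟨0,[(29,0)]⟩,⟨1,[(28,0),(8,0),(0,0)]⟩⟩ ⟨false,1,⟨1,[(26,0),(17,1),(1,0)]⟩,⟨0,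
  [(1,0)]⟩⟩ ⟨true,0,⟨0,[(1,0),(26,0),(15,0)]⟩,⟨5,[(0,2),(5,0),(0,0),(2,2),(0,1),(17,3),(0,2)]⟩⟩,.o
  ⟨false,0,⟨1,[(0,0),(1,0),(26,0),(0,0),(3,0)]⟩,⟨7,[(26,0),(0,0),(0,3),(10,1),(5,3)]⟩⟩]⟩) (.I [1,-1,
  -1,0,1,0,0,0,-1] (.R ⟨1,false,false,false,[1,0,0,-1],[0,0,1],[0,0,0,-1,0,0,0,0,-1],(⟨1,[(29,0),(8,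
  0),(0,0)]⟩,⟨0,[(30,0)]⟩),(⟨0,[(39,0)]⟩,⟨0,[(38,0)]⟩),⟨1,[(17,0),(2,0),(8,0)]⟩,.k,.k,(.r (-1) ⟨1,
  [(27,0),(17,1),(0,0)]⟩ ⟨0,[(8,0)]⟩),.k,(.r (-1) ⟨0,[(0,0),(22,0),(10,0),(10,0)]⟩ ⟨2,[(5,0),(2,0),
  (4,0),(19,0),(2,0)]⟩),.k,⟨false,1,⟨0,[(0,0),(22,0),(10,0),(10,0)]⟩,⟨0,[(13,0)]⟩⟩,⟨true,0,⟨1,[(23,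
  1),(5,0),(8,0),(0,0)]⟩,⟨0,[(30,0),(1,0)]⟩⟩,⟨true,0,⟨0,[(45,0)]⟩,⟨0,[(44,0)]⟩⟩,⟨false,0,⟨0,[(1,0),
  (22,0),(20,0)]⟩,⟨1,[(27,0),(2,1),(0,1),(15,0)]⟩⟩,⟨false,1,⟨3,[(27,0),(0,0),(18,1)]⟩,⟨0,[]⟩⟩,
  ⟨false,0,⟨0,[(1,0),(22,0)]⟩,⟨1,[(27,0),(2,1),(0,1),(13,1),(1,0)]⟩⟩,[.o ⟨false,0,⟨2,[(16,0),(7,0),
  (8,0)]⟩,⟨1,[(34,1),(5,0),(6,0)]⟩⟩,.o ⟨false,1,⟨7,[(26,3),(0,0),(0,0),(11,1),(6,3)]⟩,⟨0,[(31,0)]⟩⟩,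
  .a ⟨true,0,⟨0,[(30,0)]⟩,⟨1,[(29,0),(8,0),(0,0)]⟩⟩ ⟨false,1,⟨1,[(27,0),(17,1),(1,0)]⟩,⟨0,[(2,0)]⟩⟩
  ⟨true,0,⟨1,[(26,0),(2,0)]⟩,⟨0,[(30,0),(0,0)]⟩⟩,.o ⟨false,0,⟨0,[(23,0),(6,0),(1,0)]⟩,⟨7,[(27,0),(0,
  0),(0,3),(10,1),(5,3)]⟩⟩]⟩) (.R ⟨1,false,false,false,[1,0,0,-1],[0,-1,1],[0,1,0,-1,0,0,0,0,-1],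
  (⟨1,[(29,0),(8,0),(0,0)]⟩,⟨0,[(30,0)]⟩),(⟨0,[(20,0)]⟩,⟨0,[(38,0),(3,0)]⟩),⟨1,[(17,0),(2,0),(8,
  0)]⟩,.k,.k,(.r (-1) ⟨1,[(27,0),(17,1),(0,0)]⟩ ⟨0,[(8,0)]⟩),(.r (-1) ⟨2,[(6,1),(11,0),(4,1),(3,0),
  (6,2),(0,0),(11,0)]⟩ ⟨1,[(0,0),(6,0),(14,1),(22,1),(1,0)]⟩),.k,.k,⟨true,0,⟨0,[(6,0),(16,0),(10,0),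
  (10,0)]⟩,⟨0,[(0,0),(21,0),(24,0)]⟩⟩,⟨false,0,⟨1,[(23,1),(5,0),(8,0),(0,0)]⟩,⟨0,[(30,0),(1,0),(13,
  0)]⟩⟩,⟨false,0,⟨0,[(45,0)]⟩,⟨7,[(1,1),(10,1),(5,1),(8,0),(12,0),(6,3)]⟩⟩,⟨false,0,⟨1,[(0,0),(6,0),
  (16,1),(4,0),(8,0),(0,0),(7,0)]⟩,⟨0,[(12,0),(18,0),(15,0)]⟩⟩,⟨true,0,⟨0,[(49,0)]⟩,⟨0,[]⟩⟩,⟨false,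
  0,⟨3,[(0,0),(0,1),(5,0),(16,3),(4,0),(8,0),(0,0),(7,0)]⟩,⟨1,[(27,0),(2,1),(0,1),(15,0)]⟩⟩,[.o
  ⟨false,0,⟨1,[(24,0),(8,0),(11,0)]⟩,⟨7,[(1,1),(10,1),(5,1),(8,0),(3,7),(8,0),(6,3)]⟩⟩,.o ⟨false,0,
  ⟨0,[(24,0)]⟩,⟨7,[(1,1),(10,1),(5,1),(8,0),(6,7),(5,4)]⟩⟩,.a ⟨true,0,⟨0,[(30,0)]⟩,⟨1,[(29,0),(8,0),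
  (0,0)]⟩⟩ ⟨true,0,⟨2,[(12,1),(8,0),(1,0),(5,0),(1,0),(13,4)]⟩,⟨0,[(2,0)]⟩⟩ ⟨false,0,⟨1,[(24,1),(4,
  0),(8,0),(0,0)]⟩,⟨1,[(12,0),(5,0),(11,0),(0,1),(15,0)]⟩⟩,.o ⟨false,0,⟨0,[(23,0),(6,0),(1,0)]⟩,⟨7,
  [(27,0),(0,0),(0,3),(10,1),(5,3)]⟩⟩]⟩))))))) (.R ⟨1,false,false,false,[1,0,0,-1],[1,-1,-1],[1,1,0,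
  0,0,0,0,0,-1],(⟨1,[(23,0),(8,0),(0,0)]⟩,⟨0,[(24,0)]⟩),(⟨0,[(11,0)]⟩,⟨0,[(33,0),(2,0)]⟩),⟨1,[(11,
  0),(2,0),(8,0)]⟩,.k,.k,(.r (-1) ⟨1,[(21,0),(17,1),(0,0)]⟩ ⟨0,[(2,0)]⟩),(.r 0 ⟨0,[(3,0),(34,0)]⟩
  ⟨3,[(0,1),(16,3),(4,0),(5,3),(10,1),(0,0),(0,1)]⟩),.k,.k,⟨false,0,⟨0,[(15,0),(22,0)]⟩,⟨0,[(0,0),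
  (16,0),(10,0),(12,0)]⟩⟩,⟨true,0,⟨1,[(23,0),(2,0),(3,0)]⟩,⟨0,[(17,0),(6,0)]⟩⟩,⟨false,0,⟨0,[]⟩,⟨3,
  [(21,0),(0,0),(18,1)]⟩⟩,⟨false,1,⟨1,[(0,1),(22,0),(2,0),(1,1),(0,0),(11,1)]⟩,⟨0,[(5,0)]⟩⟩,⟨true,0,
  ⟨0,[(38,0)]⟩,⟨0,[(39,0)]⟩⟩,⟨false,1,⟨1,[(0,0),(1,0),(20,0),(1,0),(2,0),(12,1)]⟩,⟨0,[(6,0),(11,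
  0)]⟩⟩,[.o ⟨false,1,⟨1,[(28,1),(5,0),(4,1),(1,0)]⟩,⟨0,[(10,0)]⟩⟩,.o ⟨false,1,⟨0,[(25,0),(13,0),(1,
  0)]⟩,⟨1,[(10,0),(16,0),(10,0)]⟩⟩,.a ⟨true,0,⟨0,[(24,0)]⟩,⟨1,[(23,0),(8,0),(0,0)]⟩⟩ ⟨true,0,⟨2,[(6,
  1),(8,0),(1,0),(5,0),(1,0),(13,1)]⟩,⟨1,[(0,0),(1,0)]⟩⟩ ⟨false,1,⟨1,[(23,0),(1,0),(2,0),(10,1),(1,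
  1)]⟩,⟨0,[(10,0),(13,0)]⟩⟩,.o ⟨false,0,⟨0,[(17,0),(6,0),(1,0)]⟩,⟨7,[(21,0),(0,0),(0,3),(10,1),(5,
  3)]⟩⟩]⟩)) (.R ⟨1,false,false,false,[1,0,0,-1],[0,-1,1],[0,0,0,-1,0,0,0,0,-1],(⟨1,[(22,0),(8,0),(0,
  0)]⟩,⟨0,[(23,0)]⟩),(⟨0,[(13,0)]⟩,⟨0,[(31,0),(3,0)]⟩),⟨1,[(10,0),(2,0),(8,0)]⟩,.k,.k,(.r (-1) ⟨1,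
  [(20,0),(17,1),(0,0)]⟩ ⟨0,[(1,0)]⟩),(.x (-1) ⟨0,[(25,0),(5,0),(3,0),(3,0)]⟩ ⟨0,[(13,0),(14,0)]⟩),
  .k,.k,⟨true,0,⟨0,[(0,0),(15,0),(10,0)]⟩,⟨0,[(6,0),(31,0)]⟩⟩,⟨false,0,⟨1,[(16,1),(5,0),(8,0),(0,
  0)]⟩,⟨0,[(23,0),(1,0),(13,0)]⟩⟩,⟨true,0,⟨0,[(38,0)]⟩,⟨0,[(37,0)]⟩⟩,⟨true,0,⟨0,[(8,0),(8,0),(20,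
  0)]⟩,⟨0,[(0,0),(22,0),(0,0),(11,0)]⟩⟩,⟨false,1,⟨3,[(20,0),(0,0),(18,1)]⟩,⟨0,[]⟩⟩,⟨true,0,⟨0,[(8,
  0),(8,0)]⟩,⟨0,[(0,0),(22,0),(0,0),(11,0),(1,0)]⟩⟩,[.o ⟨false,0,⟨1,[(17,0),(8,0),(11,0)]⟩,⟨5,[(0,
  1),(10,3),(8,0),(3,5),(11,1),(3,0)]⟩⟩,.o ⟨false,0,⟨0,[(17,0)]⟩,⟨1,[(5,0),(6,0),(11,0),(2,0),(5,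
  0)]⟩⟩,.a ⟨true,0,⟨0,[(23,0)]⟩,⟨1,[(22,0),(8,0),(0,0)]⟩⟩ ⟨true,0,⟨0,[(0,0),(35,0),(1,1)]⟩,⟨1,[(6,
  0),(1,0),(7,0),(6,0),(0,0)]⟩⟩ ⟨false,0,⟨1,[(17,1),(4,0),(8,0),(0,0)]⟩,⟨1,[(5,0),(5,0),(11,0),(0,
  1),(15,0)]⟩⟩,.o ⟨false,0,⟨0,[(16,0),(6,0),(1,0)]⟩,⟨7,[(20,0),(0,0),(0,3),(10,1),(5,3)]⟩⟩]⟩)) (.I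
  [1,0,0,0,0,0,0,0,-1] (.R ⟨1,false,false,false,[1,0,0,-1],[0,0,1],[0,1,0,-1,0,0,0,0,-1],(⟨1,[(22,
  0),(8,0),(0,0)]⟩,⟨0,[(23,0)]⟩),(⟨0,[(32,0)]⟩,⟨0,[(31,0)]⟩),⟨1,[(10,0),(2,0),(8,0)]⟩,.k,.k,(.x 0
  ⟨1,[(10,0),(2,0),(11,0),(2,0)]⟩ ⟨3,[(20,0),(0,0),(13,3),(3,1)]⟩),.k,(.r (-1) ⟨3,[(1,1),(14,3),(3,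
  0),(6,3),(10,1),(0,0),(0,1)]⟩ ⟨0,[(3,0),(33,0)]⟩),.k,⟨false,0,⟨0,[(1,0),(14,0),(10,0)]⟩,⟨0,[(11,
  0),(18,0)]⟩⟩,⟨true,0,⟨1,[(16,1),(5,0),(8,0),(0,0)]⟩,⟨0,[(23,0),(1,0)]⟩⟩,⟨false,0,⟨0,[(38,0)]⟩,⟨0,
  [(37,0),(2,0)]⟩⟩,⟨true,0,⟨0,[(8,0),(8,0)]⟩,⟨0,[(0,0),(22,0),(0,0)]⟩⟩,⟨true,0,⟨0,[(42,0)]⟩,⟨0,[]⟩⟩,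
  ⟨true,0,⟨0,[(7,0)]⟩,⟨1,[(1,1),(21,1),(0,0),(0,0),(1,0),(0,0)]⟩⟩,[.o ⟨false,0,⟨2,[(9,0),(7,0),(8,
  0)]⟩,⟨1,[(27,1),(5,0),(6,0)]⟩⟩,.o ⟨false,1,⟨7,[(19,3),(0,0),(0,0),(11,1),(6,3)]⟩,⟨0,[(24,0)]⟩⟩,.a
  ⟨true,0,⟨0,[(23,0)]⟩,⟨1,[(22,0),(8,0),(0,0)]⟩⟩ ⟨false,0,⟨0,[(0,0),(37,0)]⟩,⟨0,[(11,0)]⟩⟩ ⟨true,0,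
  ⟨1,[(19,0),(2,0)]⟩,⟨0,[(23,0),(0,0)]⟩⟩,.o ⟨false,0,⟨0,[(16,0),(6,0),(1,0)]⟩,⟨7,[(20,0),(0,0),(0,
  3),(10,1),(5,3)]⟩⟩]⟩) (.R ⟨2,true,false,true,[0,1],[1,0,0,-1],[1,0,1,1],(⟨0,[]⟩,⟨0,[]⟩),(⟨1,[(22,
  0),(8,0),(0,0)]⟩,⟨0,[(23,0)]⟩),⟨0,[]⟩,.k,.k,.k,(.x (-1) ⟨3,[(20,0),(0,0),(13,3),(3,1)]⟩ ⟨1,[(10,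
  0),(2,0),(11,0),(2,0)]⟩),.k,.k,⟨false,1,⟨0,[(11,0)]⟩,⟨0,[(1,0),(40,0)]⟩⟩,⟨true,0,⟨0,[(16,0),(6,0),
  (1,0)]⟩,⟨1,[(22,0),(8,0),(0,0)]⟩⟩,⟨true,0,⟨0,[]⟩,⟨0,[(42,0)]⟩⟩,⟨false,0,⟨0,[(1,0),(14,0),(6,0),(1,
  0)]⟩,⟨0,[(12,0)]⟩⟩,⟨false,1,⟨0,[(37,0),(2,0)]⟩,⟨0,[(38,0)]⟩⟩,⟨true,0,⟨0,[(5,0),(11,0),(6,0)]⟩,⟨1,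
  [(0,1),(21,0),(8,0),(0,0)]⟩⟩,[]⟩))))) (.R ⟨1,true,false,false,[1,0,-1],[1,0,0,-1],[1,1,0,0,0,0,0,
  -1],(⟨0,[(27,0)]⟩,⟨0,[(28,0)]⟩),(⟨1,[(18,0),(8,0),(0,0)]⟩,⟨0,[(19,0)]⟩),⟨0,[(6,0)]⟩,.k,.k,.k,.k,
  (.x 0 ⟨0,[(6,0),(14,0)]⟩ ⟨0,[(24,0),(3,0),(2,0),(3,0)]⟩),.k,⟨false,0,⟨0,[(0,0),(11,0),(6,0),(12,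
  0)]⟩,⟨1,[(16,0),(9,1),(9,0)]⟩⟩,⟨true,0,⟨0,[(12,0),(6,0)]⟩,⟨1,[(18,0),(2,0),(3,0)]⟩⟩,⟨false,0,⟨0,
  []⟩,⟨3,[(16,0),(0,0),(18,1)]⟩⟩,⟨true,0,⟨0,[(1,0),(11,0)]⟩,⟨1,[(0,0),(3,0),(15,0)]⟩⟩,⟨true,0,⟨0,
  [(33,0)]⟩,⟨0,[(34,0)]⟩⟩,⟨false,1,⟨7,[(1,7),(3,1),(7,1),(1,1),(13,0),(6,6)]⟩,⟨0,[(0,0)]⟩⟩,[]⟩))
  (.R ⟨2,true,false,false,[0,1],[0,0,0,1],[1,0,1,1],(⟨0,[]⟩,⟨0,[]⟩),(⟨0,[(18,0)]⟩,⟨1,[(17,0),(8,0),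
  (0,0)]⟩),⟨0,[]⟩,.k,.k,.k,(.r (-1) ⟨1,[(15,0),(7,0),(0,0),(7,1),(2,0)]⟩ ⟨0,[(0,0),(17,0),(12,0),(1,
  0)]⟩),.k,.k,⟨false,1,⟨1,[(15,0),(16,1),(2,0)]⟩,⟨0,[(0,0),(17,0),(12,0),(1,0)]⟩⟩,⟨true,0,⟨1,[(17,
  0),(2,0),(2,0)]⟩,⟨0,[(18,0)]⟩⟩,⟨true,0,⟨0,[]⟩,⟨0,[(37,0)]⟩⟩,⟨false,0,⟨0,[(0,0)]⟩,⟨1,[(15,0),(2,1),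
  (13,1),(2,0)]⟩⟩,⟨false,1,⟨0,[(32,0),(2,0)]⟩,⟨0,[(33,0)]⟩⟩,⟨true,0,⟨1,[(0,0),(1,0),(16,0)]⟩,⟨0,[(9,
  0),(1,0),(6,0),(3,0)]⟩⟩,[]⟩)) (.R ⟨1,false,false,false,[1,0,0,-1],[0,0,1],[0,1,0,-1,0,0,0,0,-1],
  (⟨1,[(16,0),(8,0),(0,0)]⟩,⟨0,[(17,0)]⟩),(⟨0,[(26,0)]⟩,⟨0,[(25,0)]⟩),⟨1,[(4,0),(2,0),(8,0)]⟩,.k,.k,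
  (.r 0 ⟨0,[(0,0),(8,0)]⟩ ⟨7,[(5,3),(8,0),(0,2),(6,3),(0,3),(7,3)]⟩),.k,(.r (-1) ⟨3,[(0,3),(13,0),
  (0,0),(17,1)]⟩ ⟨0,[(1,0),(15,0),(1,0)]⟩),.k,⟨false,0,⟨0,[(0,0),(29,0),(1,0)]⟩,⟨0,[(5,0),(18,0)]⟩⟩,
  ⟨true,0,⟨0,[(0,0),(0,0)]⟩,⟨0,[(17,0),(1,0)]⟩⟩,⟨false,0,⟨0,[(32,0)]⟩,⟨0,[(31,0),(2,0)]⟩⟩,⟨true,0,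
  ⟨0,[(2,0),(8,0)]⟩,⟨0,[(0,0),(16,0),(1,0),(10,0)]⟩⟩,⟨true,0,⟨0,[(36,0)]⟩,⟨0,[]⟩⟩,⟨true,0,⟨0,[(1,
  0)]⟩,⟨1,[(0,0),(7,0),(8,1),(0,1),(13,0)]⟩⟩,[.o ⟨false,0,⟨2,[(3,0),(7,0),(8,0)]⟩,⟨1,[(21,1),(5,0),
  (6,0)]⟩⟩,.o ⟨false,1,⟨7,[(13,3),(0,0),(0,0),(11,1),(6,3)]⟩,⟨0,[(18,0)]⟩⟩,.a ⟨true,0,⟨0,[(17,0)]⟩,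
  ⟨1,[(16,0),(8,0),(0,0)]⟩⟩ ⟨false,0,⟨1,[(0,0),(7,0),(23,0)]⟩,⟨0,[(5,0)]⟩⟩ ⟨true,0,⟨1,[(13,0),(2,
  0)]⟩,⟨0,[(17,0),(0,0)]⟩⟩,.o ⟨false,0,⟨0,[(10,0),(6,0),(1,0)]⟩,⟨7,[(14,0),(0,0),(0,3),(10,1),(5,
  3)]⟩⟩]⟩)) (.R ⟨1,true,false,false,[1,0,-1],[0,0,0,1],[1,1,0,0,0,0,0,-1],(⟨0,[(24,0)]⟩,⟨0,[(25,
  0)]⟩),(⟨0,[(16,0)]⟩,⟨1,[(15,0),(8,0),(0,0)]⟩),⟨0,[(3,0)]⟩,.k,.k,.k,.k,(.x 0 ⟨0,[(3,0),(14,0)]⟩ ⟨0,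
  [(21,0),(3,0),(2,0),(3,0)]⟩),.k,⟨false,0,⟨1,[(0,1),(8,1),(5,0),(8,0),(0,0),(3,1)]⟩,⟨1,[(14,0),(8,
  1),(9,0)]⟩⟩,⟨true,0,⟨1,[(9,1),(5,0),(8,0),(0,0)]⟩,⟨0,[(16,0),(1,0)]⟩⟩,⟨false,0,⟨0,[]⟩,⟨3,[(13,0),
  (0,0),(18,1)]⟩⟩,⟨true,0,⟨0,[(1,0),(8,0)]⟩,⟨0,[(0,0),(29,0)]⟩⟩,⟨true,0,⟨0,[(30,0)]⟩,⟨0,[(31,0)]⟩⟩,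
  ⟨false,1,⟨11,[(2,3),(2,9),(4,1),(1,2),(1,0),(0,0),(10,0)]⟩,⟨0,[(0,0)]⟩⟩,[]⟩))) (.R ⟨2,true,false,
  false,[0,1],[0,1,1],[0,1,1],(⟨0,[]⟩,⟨0,[]⟩),(⟨0,[(23,0),(2,0)]⟩,⟨0,[(1,0)]⟩),⟨0,[]⟩,.k,.k,.k,.k,
  .k,.k,⟨false,0,⟨0,[(0,0),(6,0),(19,0),(1,0)]⟩,⟨0,[(2,0),(2,0)]⟩⟩,⟨true,0,⟨0,[(7,0)]⟩,⟨0,[(20,
  0)]⟩⟩,⟨false,0,⟨0,[(29,0)]⟩,⟨0,[(28,0),(2,0)]⟩⟩,⟨true,0,⟨2,[(7,0),(0,0),(1,0),(5,0),(10,0)]⟩,⟨0,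
  [(18,0)]⟩⟩,⟨true,0,⟨0,[(33,0)]⟩,⟨0,[]⟩⟩,⟨false,1,⟨1,[(9,1),(14,0),(6,0)]⟩,⟨0,[(0,0)]⟩⟩,[]⟩))) (.Q
  [0,-1,0,0,0,0,0,0,-1,0,0,1] (.p true [0,0,0,1] [] (⟨0,[(12,0)]⟩,⟨1,[(11,0),(8,0),(0,0)]⟩) .k 0
  (⟨0,[]⟩,⟨0,[]⟩) .k .k) (.Q [0,1,0,-1,0,0,0,0,1,0,0,-1] (.p false [0,0,0,1] [] (⟨0,[(13,0)]⟩,⟨1,
  [(12,0),(8,0),(0,0)]⟩) .k 0 (⟨0,[]⟩,⟨0,[]⟩) .k .k) (.R ⟨2,true,false,true,[0,1],[0,0,0,1],[1,1,1,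
  1],(⟨0,[]⟩,⟨0,[]⟩),(⟨0,[(14,0)]⟩,⟨1,[(13,0),(8,0),(0,0)]⟩),⟨0,[]⟩,.k,.k,.k,(.r 0 ⟨1,[(1,1),(11,0),
  (2,0),(2,0),(8,1)]⟩ ⟨1,[(12,0),(16,1),(0,0)]⟩),.k,.k,⟨false,0,⟨1,[(1,1),(5,0),(5,0),(2,0),(10,0),
  (0,0)]⟩,⟨1,[(12,0),(16,1),(0,0)]⟩⟩,⟨true,0,⟨1,[(13,0),(2,0),(2,0)]⟩,⟨0,[(14,0)]⟩⟩,⟨false,0,⟨0,[]⟩,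
  ⟨3,[(11,0),(0,0),(18,1)]⟩⟩,⟨true,0,⟨0,[(0,0)]⟩,⟨0,[(1,0),(26,0)]⟩⟩,⟨true,0,⟨0,[(28,0)]⟩,⟨0,[(29,
  0)]⟩⟩,⟨false,1,⟨7,[(11,0),(0,4),(0,3),(10,1)]⟩,⟨0,[(1,0)]⟩⟩,[]⟩) (.Q [0,0,0,0,0,-1,0,0,0,0,0,1]
  (.p true [0,0,0,1] [] (⟨0,[(14,0)]⟩,⟨1,[(13,0),(8,0),(0,0)]⟩) .k 0 (⟨0,[]⟩,⟨0,[]⟩) .k .k) (.R ⟨1,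
  true,false,true,[1,0,0,-1],[0,0,0,1],[0,0,0,-1,0,0,0,0,-1],(⟨1,[(14,0),(8,0),(0,0)]⟩,⟨0,[(15,
  0)]⟩),(⟨0,[(15,0)]⟩,⟨1,[(14,0),(8,0),(0,0)]⟩),⟨0,[(0,0),(13,0)]⟩,.k,.k,(.r 0 ⟨1,[(3,1),(27,0),(0,
  0)]⟩ ⟨7,[(1,1),(2,1),(7,0),(0,4),(3,1),(2,3),(0,1),(7,3)]⟩),.k,(.x 0 ⟨1,[(0,1),(13,0),(2,0),(2,
  0)]⟩ ⟨3,[(12,0),(0,0),(13,3),(3,1)]⟩),.k,⟨false,0,⟨5,[(1,3),(1,7),(5,1),(4,1),(1,1),(14,2),(0,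
  4)]⟩,⟨0,[(13,0),(15,0)]⟩⟩,⟨true,0,⟨0,[(14,0)]⟩,⟨0,[(8,0),(6,1),(1,0)]⟩⟩,⟨true,0,⟨0,[(30,0)]⟩,⟨0,
  [(29,0)]⟩⟩,⟨false,1,⟨0,[(13,0),(0,0)]⟩,⟨1,[(1,0),(0,1),(0,0),(11,0),(9,0)]⟩⟩,⟨false,1,⟨3,[(12,0),
  (0,0),(18,1)]⟩,⟨0,[]⟩⟩,⟨true,1,⟨0,[(13,0),(0,0),(14,0)]⟩,⟨0,[(1,0),(1,0),(5,0),(5,0),(0,0)]⟩⟩,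
  []⟩) (.R ⟨0,false,false,false,[0,0,0,1],[1,-1],[1,0,0,0,0,0,0,0,1],(⟨0,[(15,0)]⟩,⟨1,[(14,0),(8,0),
  (0,0)]⟩),(⟨0,[(26,0)]⟩,⟨0,[(27,0)]⟩),⟨0,[(0,0)]⟩,.k,.k,(.r (-1) ⟨1,[(13,0),(16,1),(0,0)]⟩ ⟨15,[(1,
  9),(1,1),(8,1),(1,4),(2,4),(2,7),(0,2),(7,7)]⟩),(.r (-1) ⟨7,[(1,1),(2,1),(7,0),(0,4),(3,1),(2,3),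
  (0,1),(7,3)]⟩ ⟨1,[(3,1),(27,0),(0,0)]⟩),.k,.k,⟨false,1,⟨15,[(1,3),(2,3),(7,0),(0,8),(11,1),(3,
  7)]⟩,⟨1,[(3,1),(27,0),(0,0)]⟩⟩,⟨true,0,⟨0,[(8,0),(6,0),(1,0)]⟩,⟨1,[(14,0),(8,0),(0,0)]⟩⟩,⟨true,0,
  ⟨0,[]⟩,⟨0,[(34,0)]⟩⟩,⟨false,0,⟨0,[(2,0),(6,0),(6,0)]⟩,⟨0,[(4,0),(29,0)]⟩⟩,⟨false,0,⟨0,[]⟩,⟨0,[]⟩⟩,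
  ⟨false,0,⟨0,[]⟩,⟨0,[]⟩⟩,[.o ⟨false,0,⟨0,[(9,0),(6,0)]⟩,⟨15,[(1,3),(2,3),(7,4),(0,4),(11,1),(3,
  7)]⟩⟩,.o ⟨false,1,⟨1,[(25,0),(4,1),(1,0)]⟩,⟨0,[(29,0)]⟩⟩,.a ⟨true,0,⟨1,[(14,0),(8,0),(0,0)]⟩,⟨0,
  [(15,0)]⟩⟩ ⟨false,1,⟨1,[(13,0),(18,0)]⟩,⟨13,[(1,3),(1,3),(8,2),(1,1),(10,0)]⟩⟩ ⟨true,0,⟨0,[(9,0),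
  (5,0),(0,0)]⟩,⟨1,[(10,0),(3,0),(4,0),(9,0)]⟩⟩,.o ⟨false,0,⟨1,[(14,0),(2,0),(2,0)]⟩,⟨1,[(15,1),(9,
  0),(5,0)]⟩⟩]⟩))) (.Q [0,-1,0,-1,0,0,0,0,-1,-1,0,1] (.p true [0,0,0,1] [1] (⟨0,[(13,0)]⟩,⟨1,[(12,
  0),(8,0),(0,0)]⟩) .k 1 (⟨0,[]⟩,⟨0,[]⟩) .k .k) (.R ⟨2,true,false,false,[0,1],[1,0,0,-1],[1,0,1,1],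
  (⟨0,[]⟩,⟨0,[]⟩),(⟨1,[(13,0),(8,0),(0,0)]⟩,⟨0,[(14,0)]⟩),⟨0,[]⟩,.k,.k,.k,(.r (-1) ⟨7,[(3,3),(7,0),
  (0,2),(1,3),(1,3),(2,3),(8,3)]⟩ ⟨1,[(2,1),(27,0),(0,0)]⟩),.k,.k,⟨false,1,⟨3,[(3,1),(8,0),(1,1),(9,
  0),(3,1)]⟩,⟨1,[(2,1),(27,0),(0,0)]⟩⟩,⟨true,0,⟨0,[(7,0),(6,0),(1,0)]⟩,⟨1,[(13,0),(8,0),(0,0)]⟩⟩,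
  ⟨true,0,⟨0,[]⟩,⟨0,[(33,0)]⟩⟩,⟨false,0,⟨0,[(0,0)]⟩,⟨0,[(3,0),(29,0)]⟩⟩,⟨false,1,⟨0,[(28,0),(2,0)]⟩,
  ⟨0,[(29,0)]⟩⟩,⟨true,0,⟨0,[(0,0),(27,0)]⟩,⟨0,[(1,0),(20,0),(0,0)]⟩⟩,[]⟩) (.I [1,-1,0,1,1,0,0,-1]
  (.Q [0,0,0,0,0,1,0,0,0,0,0,-1] (.p false [0,0,0,1] [] (⟨0,[(15,0)]⟩,⟨1,[(14,0),(8,0),(0,0)]⟩) .k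
  0 (⟨0,[]⟩,⟨0,[]⟩) .k .k) (.R ⟨0,false,false,false,[0,0,0,1],[1,-1],[1,1],(⟨0,[(16,0)]⟩,⟨1,[(15,0),
  (8,0),(0,0)]⟩),(⟨0,[(27,0)]⟩,⟨0,[(28,0)]⟩),⟨0,[(0,0)]⟩,.k,.k,(.r (-1) ⟨1,[(14,0),(16,1),(0,0)]⟩
  ⟨0,[(1,0),(2,0),(6,0),(6,0)]⟩),(.r (-1) ⟨11,[(1,3),(9,3),(1,0),(0,6),(3,3),(2,3),(0,3),(7,3)]⟩ ⟨1,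
  [(4,1),(27,0),(0,0)]⟩),.k,.k,⟨false,0,⟨0,[(30,0)]⟩,⟨1,[(31,1),(0,0),(0,0)]⟩⟩,⟨true,0,⟨0,[(9,0),(6,
  0),(1,0)]⟩,⟨1,[(15,0),(8,0),(0,0)]⟩⟩,⟨false,0,⟨1,[(1,0),(2,0),(2,0)]⟩,⟨1,[(14,0),(18,0)]⟩⟩,⟨true,
  0,⟨1,[(4,1),(11,1),(9,0),(6,0)]⟩,⟨0,[(2,0)]⟩⟩,⟨false,0,⟨0,[]⟩,⟨0,[]⟩⟩,⟨false,0,⟨0,[]⟩,⟨0,[]⟩⟩,[.o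
  ⟨false,0,⟨0,[(10,0),(6,0)]⟩,⟨3,[(5,1),(7,0),(2,1),(9,0),(3,1)]⟩⟩,.o ⟨false,1,⟨1,[(26,0),(4,1),(1,
  0)]⟩,⟨0,[(30,0)]⟩⟩,.a ⟨true,0,⟨1,[(15,0),(8,0),(0,0)]⟩,⟨0,[(16,0)]⟩⟩ ⟨false,0,⟨0,[]⟩,⟨3,[(13,0),
  (0,0),(18,1)]⟩⟩ ⟨true,0,⟨0,[(10,0),(5,0),(0,0)]⟩,⟨1,[(11,0),(3,0),(4,0),(9,0)]⟩⟩,.o ⟨false,0,⟨1,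
  [(15,0),(2,0),(2,0)]⟩,⟨1,[(16,1),(9,0),(5,0)]⟩⟩]⟩) (.R ⟨1,false,false,false,[0,0,0,1],[1,-1],[1,0,
  0,0,0,0,0,0,1],(⟨0,[(16,0)]⟩,⟨1,[(15,0),(8,0),(0,0)]⟩),(⟨0,[(27,0)]⟩,⟨0,[(28,0)]⟩),⟨0,[(0,0)]⟩,.k,
  .k,(.r (-1) ⟨1,[(14,0),(16,1),(0,0)]⟩ ⟨0,[(1,0),(2,0),(6,0),(6,0)]⟩),(.r (-1) ⟨11,[(1,3),(9,3),(1,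
  0),(0,6),(3,3),(2,3),(0,3),(7,3)]⟩ ⟨1,[(4,1),(27,0),(0,0)]⟩),.k,.k,⟨false,1,⟨3,[(5,1),(8,0),(1,1),
  (9,0),(3,1)]⟩,⟨1,[(4,1),(27,0),(0,0)]⟩⟩,⟨true,0,⟨0,[(9,0),(6,0),(1,0)]⟩,⟨1,[(15,0),(8,0),(0,0)]⟩⟩,
  ⟨true,0,⟨0,[]⟩,⟨0,[(35,0)]⟩⟩,⟨true,0,⟨1,[(4,1),(11,1),(9,0),(6,0)]⟩,⟨0,[(2,0)]⟩⟩,⟨false,1,⟨0,[(30,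
  0),(2,0)]⟩,⟨0,[(31,0)]⟩⟩,⟨true,0,⟨0,[(1,0),(2,0),(5,0),(5,0),(1,0),(10,0)]⟩,⟨0,[(2,0),(28,0)]⟩⟩,
  [.o ⟨false,0,⟨0,[(10,0),(6,0)]⟩,⟨3,[(5,1),(7,0),(2,1),(9,0),(3,1)]⟩⟩,.o ⟨false,1,⟨1,[(26,0),(4,1),
  (1,0)]⟩,⟨0,[(30,0)]⟩⟩,.a ⟨true,0,⟨1,[(15,0),(8,0),(0,0)]⟩,⟨0,[(16,0)]⟩⟩ ⟨false,1,⟨1,[(14,0),(18,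
  0)]⟩,⟨1,[(1,0),(2,0),(2,0)]⟩⟩ ⟨true,0,⟨0,[(10,0),(5,0),(0,0)]⟩,⟨1,[(11,0),(3,0),(4,0),(9,0)]⟩⟩,.o
  ⟨false,0,⟨1,[(15,0),(2,0),(2,0)]⟩,⟨1,[(16,1),(9,0),(5,0)]⟩⟩]⟩)) (.Q [0,0,0,1,0,0,0,0,-1,0,0,1]
  (.p true [0,0,0,1] [] (⟨0,[(15,0)]⟩,⟨1,[(14,0),(8,0),(0,0)]⟩) .k 0 (⟨0,[]⟩,⟨0,[]⟩) .k .k) (.Q [0,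
  0,0,0,0,1,0,0,0,0,0,-1] (.p false [0,0,0,1] [] (⟨0,[(16,0)]⟩,⟨1,[(15,0),(8,0),(0,0)]⟩) .k 0 (⟨0,
  []⟩,⟨0,[]⟩) .k .k) (.R ⟨0,false,false,false,[0,0,0,1],[1,-1],[1,1],(⟨0,[(17,0)]⟩,⟨1,[(16,0),(8,0),
  (0,0)]⟩),(⟨0,[(28,0)]⟩,⟨0,[(29,0)]⟩),⟨0,[(0,0)]⟩,.k,.k,(.r (-1) ⟨1,[(15,0),(16,1),(0,0)]⟩ ⟨1,[(1,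
  1),(14,0),(2,0),(2,0)]⟩),(.r (-1) ⟨11,[(1,3),(4,3),(7,0),(0,6),(3,3),(2,5),(0,1),(7,3)]⟩ ⟨1,[(5,
  1),(27,0),(0,0)]⟩),.k,.k,⟨false,0,⟨0,[(31,0)]⟩,⟨1,[(32,1),(0,0),(0,0)]⟩⟩,⟨true,0,⟨0,[(10,0),(6,0),
  (1,0)]⟩,⟨1,[(16,0),(8,0),(0,0)]⟩⟩,⟨false,0,⟨9,[(1,3),(3,3),(8,0),(1,1),(10,0),(6,1)]⟩,⟨1,[(15,0),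
  (18,0)]⟩⟩,⟨true,0,⟨1,[(5,1),(11,1),(9,0),(6,0)]⟩,⟨0,[(3,0)]⟩⟩,⟨false,0,⟨0,[]⟩,⟨0,[]⟩⟩,⟨false,0,⟨0,
  []⟩,⟨0,[]⟩⟩,[.o ⟨false,0,⟨0,[(11,0),(6,0)]⟩,⟨11,[(1,3),(4,3),(7,2),(0,2),(11,1),(3,3)]⟩⟩,.o
  ⟨false,1,⟨1,[(27,0),(4,1),(1,0)]⟩,⟨0,[(31,0)]⟩⟩,.a ⟨true,0,⟨1,[(16,0),(8,0),(0,0)]⟩,⟨0,[(17,0)]⟩⟩
  ⟨false,0,⟨0,[]⟩,⟨3,[(14,0),(0,0),(18,1)]⟩⟩ ⟨true,0,⟨0,[(11,0),(5,0),(0,0)]⟩,⟨6,[(1,1),(1,4),(1,0),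
  (8,0),(1,1),(14,0)]⟩⟩,.o ⟨false,0,⟨1,[(16,0),(2,0),(2,0)]⟩,⟨1,[(17,1),(9,0),(5,0)]⟩⟩]⟩) (.R ⟨1,
  false,false,false,[0,0,0,1],[1,-1],[1,0,0,0,0,0,0,0,1],(⟨0,[(17,0)]⟩,⟨1,[(16,0),(8,0),(0,0)]⟩),
  (⟨0,[(28,0)]⟩,⟨0,[(29,0)]⟩),⟨0,[(0,0)]⟩,.k,.k,(.r (-1) ⟨1,[(15,0),(16,1),(0,0)]⟩ ⟨1,[(1,1),(14,0),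
  (2,0),(2,0)]⟩),(.r (-1) ⟨11,[(1,3),(4,3),(7,0),(0,6),(3,3),(2,5),(0,1),(7,3)]⟩ ⟨1,[(5,1),(27,0),
  (0,0)]⟩),.k,.k,⟨false,1,⟨5,[(1,1),(4,1),(8,2),(11,0),(3,1)]⟩,⟨1,[(5,1),(27,0),(0,0)]⟩⟩,⟨true,0,⟨0,
  [(10,0),(6,0),(1,0)]⟩,⟨1,[(16,0),(8,0),(0,0)]⟩⟩,⟨true,0,⟨0,[]⟩,⟨0,[(36,0)]⟩⟩,⟨true,0,⟨1,[(5,1),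
  (11,1),(9,0),(6,0)]⟩,⟨0,[(3,0)]⟩⟩,⟨false,1,⟨3,[(1,1),(4,1),(20,0),(6,0)]⟩,⟨0,[(32,0)]⟩⟩,⟨true,0,
  ⟨0,[(1,0),(9,0),(6,0)]⟩,⟨0,[(3,0),(28,0)]⟩⟩,[.o ⟨false,0,⟨0,[(11,0),(6,0)]⟩,⟨11,[(1,3),(4,3),(7,
  2),(0,2),(11,1),(3,3)]⟩⟩,.o ⟨false,1,⟨1,[(27,0),(4,1),(1,0)]⟩,⟨0,[(31,0)]⟩⟩,.a ⟨true,0,⟨1,[(16,0),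
  (8,0),(0,0)]⟩,⟨0,[(17,0)]⟩⟩ ⟨false,1,⟨1,[(15,0),(18,0)]⟩,⟨9,[(1,3),(3,3),(8,0),(1,1),(10,0),(6,
  1)]⟩⟩ ⟨true,0,⟨0,[(11,0),(5,0),(0,0)]⟩,⟨6,[(1,1),(1,4),(1,0),(8,0),(1,1),(14,0)]⟩⟩,.o ⟨false,0,⟨1,
  [(16,0),(2,0),(2,0)]⟩,⟨1,[(17,1),(9,0),(5,0)]⟩⟩]⟩)) (.R ⟨2,true,false,true,[0,1],[0,0,0,1],[0,0,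
  1],(⟨0,[]⟩,⟨0,[]⟩),(⟨0,[(16,0)]⟩,⟨1,[(15,0),(8,0),(0,0)]⟩),⟨0,[]⟩,.k,.k,.k,(.x (-1) ⟨3,[(13,0),(0,
  0),(13,3),(3,1)]⟩ ⟨0,[(9,0),(8,0),(8,0)]⟩),.k,.k,⟨false,1,⟨1,[(13,0),(19,0)]⟩,⟨0,[(0,0),(15,0),
  (12,0)]⟩⟩,⟨true,0,⟨1,[(15,0),(2,0),(2,0)]⟩,⟨0,[(16,0)]⟩⟩,⟨true,0,⟨0,[(31,0)]⟩,⟨0,[(30,0)]⟩⟩,
  ⟨false,0,⟨0,[(0,0)]⟩,⟨0,[(4,0),(11,0),(13,1),(2,1)]⟩⟩,⟨false,1,⟨3,[(13,0),(0,0),(18,1)]⟩,⟨0,[]⟩⟩,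
  ⟨true,0,⟨0,[(3,0)]⟩,⟨0,[(4,0),(11,0),(13,0),(2,0)]⟩⟩,[]⟩)))))))

theorem ok58 : chk (cU (-1) false 3) t58 r32 = true := by decide +kernel

noncomputable def t60 : Tre :=
  (.I [1,-1,0,0,0,0,0,0,1] (.Q [0,0,0,0,0,1,0,0,0,0,0,-1] (.p false [0,0,0,1] [] (⟨0,[(10,0)]⟩,⟨1,
  [(9,0),(8,0),(0,0)]⟩) .k 0 (⟨0,[]⟩,⟨0,[]⟩) .k .k) (.R ⟨0,false,false,false,[0,0,0,1],[1,-1],[1,0,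
  0,0,0,0,0,0,1],(⟨0,[(11,0)]⟩,⟨1,[(10,0),(8,0),(0,0)]⟩),(⟨0,[(22,0)]⟩,⟨0,[(23,0)]⟩),⟨0,[(0,0)]⟩,.k,
  .k,(.r 0 ⟨0,[(2,0),(0,0),(22,0)]⟩ ⟨1,[(8,0),(7,0),(0,0),(7,1),(2,0)]⟩),(.r 0 ⟨1,[(1,1),(14,0),(0,
  0),(7,1)]⟩ ⟨1,[(8,0),(17,1),(0,0)]⟩),.k,.k,⟨false,0,⟨0,[(1,0),(23,0)]⟩,⟨1,[(8,0),(17,1),(0,0)]⟩⟩,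
  ⟨true,0,⟨0,[(4,0),(6,0),(1,0)]⟩,⟨1,[(10,0),(8,0),(0,0)]⟩⟩,⟨true,0,⟨0,[]⟩,⟨0,[(30,0)]⟩⟩,⟨false,1,
  ⟨1,[(5,1),(2,0),(2,1),(0,1),(15,0)]⟩,⟨1,[(1,1),(4,0),(3,0),(4,0),(9,0)]⟩⟩,⟨false,0,⟨0,[]⟩,⟨0,[]⟩⟩,
  ⟨false,0,⟨0,[]⟩,⟨0,[]⟩⟩,[.o ⟨false,0,⟨0,[(5,0),(6,0)]⟩,⟨3,[(8,0),(0,0),(15,3),(2,1)]⟩⟩,.o ⟨false,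
  1,⟨1,[(21,0),(4,1),(1,0)]⟩,⟨0,[(25,0)]⟩⟩,.a ⟨true,0,⟨1,[(10,0),(8,0),(0,0)]⟩,⟨0,[(11,0)]⟩⟩ ⟨false,
  0,⟨0,[(1,0)]⟩,⟨3,[(8,2),(0,0)]⟩⟩ ⟨true,0,⟨0,[(5,0),(5,0),(0,0)]⟩,⟨1,[(6,0),(3,0),(4,0),(9,0)]⟩⟩,
  .o ⟨false,0,⟨1,[(10,0),(2,0),(2,0)]⟩,⟨1,[(11,1),(9,0),(5,0)]⟩⟩]⟩) (.Q [0,1,0,0,0,0,0,0,-1,0,0,1]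
  (.p true [0,0,0,1] [] (⟨0,[(11,0)]⟩,⟨1,[(10,0),(8,0),(0,0)]⟩) .k 0 (⟨0,[]⟩,⟨0,[]⟩) .k .k) (.K ⟨2,
  [0,0,0,1],0,0,(⟨0,[(12,0)]⟩,⟨1,[(11,0),(8,0),(0,0)]⟩),.k,(.r 0 ⟨0,[(3,0),(0,0),(22,0)]⟩ ⟨1,[(9,0),
  (7,0),(0,0),(7,1),(2,0)]⟩),(.r 0 ⟨1,[(2,1),(14,0),(0,0),(7,1)]⟩ ⟨1,[(9,0),(17,1),(0,0)]⟩),.k,.k,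
  [⟨1,[(2,1),(8,0),(1,0),(2,0)]⟩,⟨0,[(0,0)]⟩,⟨1,[(12,1),(4,0),(0,0)]⟩,⟨1,[(11,0),(2,0),(2,0)]⟩]⟩)
  (.R ⟨1,false,false,false,[1,0,0,-1],[1,-1],[1,0,0,0,0,0,0,0,-1],(⟨1,[(11,0),(8,0),(0,0)]⟩,⟨0,[(12,
  0)]⟩),(⟨0,[(23,0)]⟩,⟨0,[(24,0)]⟩),⟨0,[(1,0),(9,0)]⟩,.k,.k,(.r (-1) ⟨1,[(9,0),(17,1),(0,0)]⟩ ⟨1,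
  [(2,1),(14,0),(0,0),(7,1)]⟩),(.r (-1) ⟨1,[(9,0),(7,0),(0,0),(7,1),(2,0)]⟩ ⟨0,[(3,0),(0,0),(22,
  0)]⟩),.k,.k,⟨false,1,⟨1,[(9,0),(16,1),(2,0)]⟩,⟨0,[(3,0),(0,0),(22,0)]⟩⟩,⟨true,0,⟨1,[(11,0),(2,0),
  (2,0)]⟩,⟨0,[(12,0)]⟩⟩,⟨true,0,⟨0,[]⟩,⟨0,[(31,0)]⟩⟩,⟨false,0,⟨0,[(0,0),(26,0)]⟩,⟨1,[(9,0),(2,1),
  (13,1),(2,0)]⟩⟩,⟨false,1,⟨0,[(26,0),(2,0)]⟩,⟨0,[(27,0)]⟩⟩,⟨false,0,⟨0,[(0,0)]⟩,⟨3,[(9,2),(0,0),(1,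
  3)]⟩⟩,[.o ⟨false,0,⟨0,[(6,0),(6,0)]⟩,⟨3,[(9,0),(0,0),(15,3),(2,1)]⟩⟩,.o ⟨false,1,⟨1,[(22,0),(4,1),
  (1,0)]⟩,⟨0,[(26,0)]⟩⟩,.a ⟨true,0,⟨0,[(12,0)]⟩,⟨1,[(11,0),(8,0),(0,0)]⟩⟩ ⟨false,1,⟨1,[(9,0),(19,
  0)]⟩,⟨0,[(2,0),(28,0)]⟩⟩ ⟨true,0,⟨1,[(6,0),(4,0),(1,0),(13,0)]⟩,⟨0,[(12,0),(13,0)]⟩⟩,.o ⟨false,0,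
  ⟨0,[(5,0),(6,0),(1,0)]⟩,⟨7,[(9,0),(0,0),(0,3),(10,1),(5,3)]⟩⟩]⟩))) (.Q [0,-1,0,-1,0,0,0,0,1,0,0,
  -1] (.p false [0,0,0,1] [] (⟨0,[(10,0)]⟩,⟨1,[(9,0),(8,0),(0,0)]⟩) .k 0 (⟨0,[]⟩,⟨0,[]⟩) .k .k) (.R
  ⟨2,true,false,false,[0,1],[0,0,0,1],[1,0,1,1],(⟨0,[]⟩,⟨0,[]⟩),(⟨0,[(11,0)]⟩,⟨1,[(10,0),(8,0),(0,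
  0)]⟩),⟨0,[]⟩,.k,.k,.k,(.r (-1) ⟨1,[(8,0),(7,0),(0,0),(7,1),(2,0)]⟩ ⟨0,[(2,0),(0,0),(22,0)]⟩),.k,
  .k,⟨false,1,⟨1,[(8,0),(16,1),(2,0)]⟩,⟨0,[(2,0),(0,0),(22,0)]⟩⟩,⟨true,0,⟨1,[(10,0),(2,0),(2,0)]⟩,
  ⟨0,[(11,0)]⟩⟩,⟨true,0,⟨0,[]⟩,⟨0,[(30,0)]⟩⟩,⟨false,0,⟨0,[(0,0)]⟩,⟨1,[(8,0),(2,1),(13,1),(2,0)]⟩⟩,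
  ⟨false,1,⟨0,[(25,0),(2,0)]⟩,⟨0,[(26,0)]⟩⟩,⟨true,0,⟨0,[(0,0),(24,0)]⟩,⟨0,[(1,0),(9,0)]⟩⟩,[]⟩) (.Q
  [0,0,0,0,0,2,0,0,0,-1] (.pp true [-1,1]) (.R ⟨0,false,false,true,[0,0,0,1],[0,0,1],[0,1],(⟨0,[(12,
  0)]⟩,⟨1,[(11,0),(8,0),(0,0)]⟩),(⟨0,[(21,0)]⟩,⟨0,[(20,0)]⟩),⟨1,[(0,0),(10,0)]⟩,.k,.k,(.r 0 ⟨0,[(3,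
  0),(0,0),(22,0)]⟩ ⟨1,[(9,0),(7,0),(0,0),(7,1),(2,0)]⟩),.k,.k,.k,⟨false,1,⟨1,[(3,1),(5,0),(18,0)]⟩,
  ⟨0,[(19,0)]⟩⟩,⟨true,0,⟨0,[(5,0),(6,0)]⟩,⟨1,[(11,0),(2,0),(3,0)]⟩⟩,⟨true,0,⟨0,[(2,0)]⟩,⟨0,[(3,0),
  (15,0)]⟩⟩,⟨false,0,⟨0,[(1,0),(4,0)]⟩,⟨5,[(3,3),(0,1),(5,0),(0,2),(1,0),(0,1),(1,2),(12,4)]⟩⟩,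
  ⟨false,0,⟨0,[]⟩,⟨0,[]⟩⟩,⟨false,0,⟨0,[]⟩,⟨0,[]⟩⟩,[.o ⟨false,0,⟨0,[(15,0)]⟩,⟨0,[(13,0),(15,0)]⟩⟩,.o
  ⟨false,0,⟨2,[(5,0),(0,0),(1,0),(5,0),(10,0)]⟩,⟨1,[(16,1),(5,0),(6,0)]⟩⟩,.a ⟨true,0,⟨1,[(11,0),(8,
  0),(0,0)]⟩,⟨0,[(12,0)]⟩⟩ ⟨true,0,⟨0,[(31,0)]⟩,⟨0,[]⟩⟩ ⟨false,0,⟨2,[(5,0),(0,0),(1,0),(3,2),(1,0),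
  (10,0)]⟩,⟨1,[(11,0),(1,0),(2,0),(12,1)]⟩⟩,.o ⟨false,0,⟨1,[(11,0),(2,0),(2,0)]⟩,⟨1,[(12,1),(9,0),
  (5,0)]⟩⟩]⟩) (.R ⟨1,false,false,false,[1,0,0,-1],[1,-1],[1,0,0,0,0,0,0,0,-1],(⟨1,[(11,0),(8,0),(0,
  0)]⟩,⟨0,[(12,0)]⟩),(⟨0,[(23,0)]⟩,⟨0,[(24,0)]⟩),⟨1,[(0,0),(10,0)]⟩,.k,.k,(.r (-1) ⟨1,[(9,0),(17,1),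
  (0,0)]⟩ ⟨0,[(3,0),(3,0),(6,0)]⟩),(.r (-1) ⟨1,[(9,0),(7,0),(0,0),(7,1),(2,0)]⟩ ⟨0,[(3,0),(0,0),(22,
  0)]⟩),.k,.k,⟨false,1,⟨1,[(9,0),(16,1),(2,0)]⟩,⟨0,[(3,0),(0,0),(22,0)]⟩⟩,⟨true,0,⟨1,[(11,0),(2,0),
  (2,0)]⟩,⟨0,[(12,0)]⟩⟩,⟨true,0,⟨0,[]⟩,⟨0,[(31,0)]⟩⟩,⟨true,0,⟨3,[(3,3),(0,1),(1,0),(4,1),(2,1),(0,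
  0),(11,2)]⟩,⟨0,[(1,0)]⟩⟩,⟨false,1,⟨0,[(26,0),(2,0)]⟩,⟨0,[(27,0)]⟩⟩,⟨true,0,⟨5,[(3,5),(0,1),(1,1),
  (1,0),(2,2),(2,3),(10,1)]⟩,⟨0,[(1,0),(25,0)]⟩⟩,[.o ⟨false,0,⟨0,[(6,0),(6,0)]⟩,⟨3,[(9,0),(0,0),(15,
  3),(2,1)]⟩⟩,.o ⟨false,1,⟨1,[(22,0),(4,1),(1,0)]⟩,⟨0,[(26,0)]⟩⟩,.a ⟨true,0,⟨0,[(12,0)]⟩,⟨1,[(11,0),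
  (8,0),(0,0)]⟩⟩ ⟨false,1,⟨1,[(9,0),(19,0)]⟩,⟨0,[(3,0),(15,0)]⟩⟩ ⟨true,0,⟨1,[(6,0),(4,0),(1,0),(13,
  0)]⟩,⟨0,[(12,0),(13,0)]⟩⟩,.o ⟨false,0,⟨0,[(5,0),(6,0),(1,0)]⟩,⟨7,[(9,0),(0,0),(0,3),(10,1),(5,
  3)]⟩⟩]⟩))))

theorem ok60 : chk (cU (-1) false 3) t60 r31 = true := by decide +kernel

noncomputable def t65 : Tre :=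
  (.Q [0,0,0,0,0,0,-1,-1,0,0,1] (.p true [0,0,1] [] (⟨0,[(14,0)]⟩,⟨0,[(13,0)]⟩) .k 0 (⟨0,[]⟩,⟨0,
  []⟩) .k .k) (.R ⟨2,true,false,true,[0,1],[0,0,1],[0,0,1],(⟨0,[]⟩,⟨0,[]⟩),(⟨0,[(15,0)]⟩,⟨0,[(14,
  0)]⟩),⟨0,[]⟩,.k,.k,.k,.k,.k,.k,⟨false,1,⟨1,[(0,1),(10,1),(10,0),(0,0)]⟩,⟨0,[(13,0),(5,0),(1,0)]⟩⟩,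
  ⟨true,0,⟨0,[(11,0)]⟩,⟨0,[(0,0),(12,0)]⟩⟩,⟨true,0,⟨0,[(21,0)]⟩,⟨0,[(20,0)]⟩⟩,⟨false,0,⟨0,[(1,0),(0,
  0)]⟩,⟨0,[(0,0),(19,0),(2,0)]⟩⟩,⟨false,1,⟨3,[(3,0),(0,0),(18,1)]⟩,⟨0,[]⟩⟩,⟨true,0,⟨0,[(9,0)]⟩,⟨0,
  [(0,0)]⟩⟩,[]⟩) (.Q [0,0,0,0,0,0,1,0,0,1,-1] (.p false [0,0,1] [1] (⟨0,[(15,0)]⟩,⟨0,[(14,0)]⟩) .k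
  1 (⟨0,[]⟩,⟨0,[]⟩) .k .k) (.R ⟨2,true,false,true,[0,1],[1,0,-1],[0,0,1],(⟨0,[]⟩,⟨0,[]⟩),(⟨0,[(15,
  0)]⟩,⟨0,[(16,0)]⟩),⟨0,[]⟩,.k,.k,.k,.k,.k,.k,⟨false,1,⟨3,[(4,0),(0,0),(8,3),(9,1)]⟩,⟨0,[(0,0),(1,
  0),(17,0)]⟩⟩,⟨true,0,⟨0,[(9,0)]⟩,⟨0,[(0,0)]⟩⟩,⟨true,0,⟨0,[(22,0)]⟩,⟨0,[(21,0)]⟩⟩,⟨false,0,⟨0,[(2,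
  0)]⟩,⟨1,[(3,0),(11,0),(0,0),(4,1),(2,1)]⟩⟩,⟨false,1,⟨3,[(4,0),(0,0),(18,1)]⟩,⟨0,[]⟩⟩,⟨true,0,⟨0,
  [(8,0)]⟩,⟨1,[(3,0),(11,0),(0,0)]⟩⟩,[]⟩) (.I [0,-1,1,0,0,0,0,1] (.R ⟨2,true,false,true,[0,1],[1,0,
  -1],[0,0,1],(⟨0,[]⟩,⟨0,[]⟩),(⟨0,[(16,0)]⟩,⟨0,[(17,0)]⟩),⟨0,[]⟩,.k,.k,.k,.k,.k,.k,⟨true,0,⟨0,[(0,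
  0)]⟩,⟨0,[(3,0),(9,0),(2,0),(0,0),(3,0)]⟩⟩,⟨false,0,⟨0,[(1,0)]⟩,⟨0,[(13,0),(2,0),(0,0),(6,0)]⟩⟩,
  ⟨true,0,⟨0,[(23,0)]⟩,⟨0,[(22,0)]⟩⟩,⟨false,0,⟨0,[(3,0)]⟩,⟨1,[(4,0),(11,0),(0,0),(4,1),(2,1)]⟩⟩,
  ⟨false,1,⟨3,[(5,0),(0,0),(18,1)]⟩,⟨0,[]⟩⟩,⟨true,0,⟨0,[(9,0)]⟩,⟨1,[(4,0),(11,0),(0,0)]⟩⟩,[]⟩) (.I
  [1,1,1,1,0,0,0,-1] (.I [0,0,2,0,0,-2,1] (.Q [0,0,0,0,0,1,0,0,0,0,-1] (.ed true [1,-1,1] .k) (.Q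
  [0,1,0,1,0,0,-1,-1,0,1,1] (.p true [1,-1,1] [] (⟨0,[(20,0),(1,0)]⟩,⟨0,[(0,0)]⟩) .k 0 (⟨0,[]⟩,⟨0,
  []⟩) .k .k) (.K ⟨2,[1,-1,1],0,0,(⟨0,[(21,0),(1,0)]⟩,⟨0,[(1,0)]⟩),.k,(.x 0 ⟨0,[(2,0)]⟩ ⟨0,[(5,0),
  (14,0),(3,1),(3,0)]⟩),.k,.k,.k,[⟨0,[(6,0),(0,0)]⟩,⟨0,[(0,0)]⟩,⟨0,[(5,0),(14,1),(0,1)]⟩,⟨0,[(5,0),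
  (11,1)]⟩]⟩) (.R ⟨2,true,false,false,[0,1],[0,0,1],[0,0,1],(⟨0,[]⟩,⟨0,[]⟩),(⟨0,[(21,0)]⟩,⟨0,[(20,
  0)]⟩),⟨0,[]⟩,.k,.k,.k,.k,.k,.k,⟨false,1,⟨3,[(4,1),(4,0),(0,0),(5,1),(0,1),(11,1)]⟩,⟨0,[(0,0),(4,
  0),(14,1),(0,1),(3,0)]⟩⟩,⟨true,0,⟨0,[(17,0)]⟩,⟨0,[(5,0),(14,0),(0,0)]⟩⟩,⟨true,0,⟨0,[(27,0)]⟩,⟨0,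
  [(26,0)]⟩⟩,⟨false,0,⟨0,[(0,0),(19,0),(0,0)]⟩,⟨0,[(16,0),(9,0),(2,0)]⟩⟩,⟨false,1,⟨3,[(9,0),(0,0),
  (18,1)]⟩,⟨0,[]⟩⟩,⟨true,0,⟨0,[(6,0)]⟩,⟨0,[(16,0)]⟩⟩,[]⟩)) (.Q [0,1,0,1,0,0,-1,-1,0,0,1] (.p true
  [0,0,1] [] (⟨0,[(20,0)]⟩,⟨0,[(19,0)]⟩) .k 0 (⟨0,[]⟩,⟨0,[]⟩) .k .k) (.K ⟨2,[0,-1,1],0,0,(⟨0,[(1,
  0)]⟩,⟨0,[(20,0),(3,0)]⟩),.k,(.x 0 ⟨0,[(2,0)]⟩ ⟨0,[(5,0),(14,0),(3,1),(3,0)]⟩),.k,.k,.k,[⟨0,[(27,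
  0)]⟩,⟨0,[(0,0)]⟩,⟨0,[(5,0),(14,0),(0,0)]⟩,⟨1,[(17,2),(0,0)]⟩]⟩) (.R ⟨2,true,false,false,[0,1],[0,
  0,1],[0,0,1],(⟨0,[]⟩,⟨0,[]⟩),(⟨0,[(21,0)]⟩,⟨0,[(20,0)]⟩),⟨0,[]⟩,.k,.k,.k,.k,.k,.k,⟨false,1,⟨3,[(4,
  1),(4,0),(0,0),(5,1),(0,1),(11,1)]⟩,⟨0,[(0,0),(4,0),(14,0),(0,0),(3,0)]⟩⟩,⟨true,0,⟨0,[(17,0)]⟩,⟨0,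
  [(5,0),(14,0),(0,0)]⟩⟩,⟨true,0,⟨0,[(27,0)]⟩,⟨0,[(26,0)]⟩⟩,⟨false,0,⟨0,[(0,0)]⟩,⟨0,[(16,0),(9,0),
  (2,0)]⟩⟩,⟨false,1,⟨3,[(9,0),(0,0),(18,1)]⟩,⟨0,[]⟩⟩,⟨true,0,⟨0,[(6,0)]⟩,⟨0,[(16,0)]⟩⟩,[]⟩))) (.K
  ⟨2,[1,-1,1],0,0,(⟨0,[(19,0),(1,0)]⟩,⟨1,[(0,0),(2,0),(11,1),(2,0)]⟩),.k,(.r 0 ⟨0,[(0,0),(3,2),(0,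
  1),(13,0),(1,1)]⟩ ⟨3,[(1,5),(4,0),(5,0),(3,0),(7,1),(2,3)]⟩),.k,.k,.k,[⟨0,[(4,0),(0,0)]⟩,⟨4,[(0,
  2),(0,4),(1,0),(12,0),(2,2),(1,5)]⟩,⟨2,[(0,0),(15,1),(1,0),(0,1),(1,1)]⟩,⟨0,[(3,0),(11,1)]⟩]⟩))
  (.R ⟨2,true,false,false,[0,1],[0,0,1],[0,0,1],(⟨0,[]⟩,⟨0,[]⟩),(⟨0,[(18,0)]⟩,⟨0,[(17,0)]⟩),⟨0,[]⟩,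
  .k,.k,.k,.k,.k,.k,⟨false,1,⟨3,[(1,1),(4,0),(0,0),(5,1),(0,1),(11,1)]⟩,⟨1,[(0,0),(15,0),(5,0)]⟩⟩,
  ⟨true,0,⟨0,[(14,0)]⟩,⟨0,[(2,0),(14,0),(0,0)]⟩⟩,⟨true,0,⟨0,[(24,0)]⟩,⟨0,[(23,0)]⟩⟩,⟨false,0,⟨0,[(0,
  0),(13,0)]⟩,⟨0,[(13,0),(9,0),(2,0)]⟩⟩,⟨false,1,⟨3,[(6,0),(0,0),(18,1)]⟩,⟨0,[]⟩⟩,⟨true,0,⟨0,[(3,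
  0)]⟩,⟨0,[(13,0)]⟩⟩,[]⟩)))))

theorem ok65 : chk (cU (-1) false 3) t65 r0 = true := by decide +kernel

end Helper11.CT.Tm1_1_m1_1_v
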