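import Pool.Agent.Helper11.CT.T.Tm1_1_m1_1_v_p0
import Pool.Agent.Helper11.CT.T.Tm1_1_m1_1_v_p1

set_option autoImplicit false
set_option linter.all false

namespace Helper11.CT.Tm1_1_m1_1_v

open Helper11.CT

noncomputable def t8 : Tre :=
  .I [0,0,2,1,0,0,0,-1] t6 t7

theorem ok8 : chk (cU (-1) false 3) t8 r12 = true :=
  chk_I (e' := [1,0,-2,-1,0,0,0,1]) (by decide +kernel) (by decide +kernel) ok6 ok7

noncomputable def t9 : Tre :=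
  .Q [0,0,0,0,0,0,-1,0,0,0,1] (.p true [0,0,1] [] (⟨0,[(25,0)]⟩,⟨0,[(24,0)]⟩) .k 0 (⟨0,[]⟩,⟨0,[]⟩)
  .k .k) t5 t8

theorem ok9 : chk (cU (-1) false 3) t9 l11 = true :=
  chk_Q (e' := [0,0,0,0,0,0,1,0,0,0,-1]) (by decide +kernel) (by decide +kernel) ok5 ok8

noncomputable def t11 : Tre :=
  .I [0,0,-2,-2,0,0,0,1] t9 t10

theorem ok11 : chk (cU (-1) false 3) t11 r10 = true :=
  chk_I (e' := [1,0,2,2,0,0,0,-1]) (by decide +kernel) (by decide +kernel) ok9 ok10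

noncomputable def t12 : Tre :=
  .Q [0,0,0,0,0,1,0,0,0,0,-1] (.ed true [1,-1,1] .k) t4 t11

theorem ok12 : chk (cU (-1) false 3) t12 r9 = true :=
  chk_Q (e' := [0,0,0,0,0,-1,0,0,0,0,1]) (by decide +kernel) (by decide +kernel) ok4 ok11

noncomputable def t13 : Tre :=
  .I [1,1,1,1,-1,0,0,0,-1] t3 t12

theorem ok13 : chk (cU (-1) false 3) t13 r8 = true :=
  chk_I (e' := [0,-1,-1,-1,1,0,0,0,1]) (by decide +kernel) (by decide +kernel) ok3 ok12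

noncomputable def t14 : Tre :=
  .Q [0,0,-1,0,0,0,1,0,0,2,-1] (.p false [-1,1,1] [1] (⟨0,[(5,0)]⟩,⟨0,[(20,0),(2,0)]⟩) .k 1 (⟨0,[]⟩,
  ⟨0,[]⟩) .k .k) t2 t13

theorem ok14 : chk (cU (-1) false 3) t14 l7 = true :=
  chk_Q (e' := [0,0,1,0,0,0,-1,0,0,-2,1]) (by decide +kernel) (by decide +kernel) ok2 ok13

noncomputable def t16 : Tre :=
  .Q [0,0,1,0,0,0,0,0,0,-1] (.pp true [-1,1]) t14 t15

theorem ok16 : chk (cU (-1) false 3) t16 r6 = true :=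
  chk_Q (e' := [0,0,-1,0,0,0,0,0,0,1]) (by decide +kernel) (by decide +kernel) ok14 ok15

noncomputable def t17 : Tre :=
  .Q [0,0,0,1,0,0,0,0,0,1] (.pp false [-1,1]) t1 t16

theorem ok17 : chk (cU (-1) false 3) t17 r5 = true :=
  chk_Q (e' := [0,0,0,-1,0,0,0,0,0,-1]) (by decide +kernel) (by decide +kernel) ok1 ok16

noncomputable def t18 : Tre :=
  .Q [0,0,-2,0,0,0,1,0,0,2,-1] (.p false [-1,1,1] [1] (⟨0,[(2,0)]⟩,⟨0,[(17,0),(2,0)]⟩) .k 1 (⟨0,[]⟩,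
  ⟨0,[]⟩) .k .k) t0 t17

theorem ok18 : chk (cU (-1) false 3) t18 l4 = true :=
  chk_Q (e' := [0,0,2,0,0,0,-1,0,0,-2,1]) (by decide +kernel) (by decide +kernel) ok0 ok17

noncomputable def t20 : Tre :=
  .I [0,0,2,2,0,0,0,1] t18 t19

theorem ok20 : chk (cU (-1) false 3) t20 l3 = true :=
  chk_I (e' := [1,0,-2,-2,0,0,0,-1]) (by decide +kernel) (by decide +kernel) ok18 ok19

noncomputable def t22 : Tre :=
  .I [0,1,0,-1,0,0,0,-1] t20 t21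

theorem ok22 : chk (cU (-1) false 3) t22 l2 = true :=
  chk_I (e' := [1,-1,0,1,0,0,0,1]) (by decide +kernel) (by decide +kernel) ok20 ok21

noncomputable def t31 : Tre :=
  .Q [0,0,0,0,0,1,0,0,0,0,-1] (.ed true [1,-1,1] .k) t29 t30

theorem ok31 : chk (cU (-1) false 3) t31 r21 = true :=
  chk_Q (e' := [0,0,0,0,0,-1,0,0,0,0,1]) (by decide +kernel) (by decide +kernel) ok29 ok30

noncomputable def t32 : Tre :=
  .I [1,0,1,1,0,0,0,-1] t28 t31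

theorem ok32 : chk (cU (-1) false 3) t32 r20 = true :=
  chk_I (e' := [0,0,-1,-1,0,0,0,1]) (by decide +kernel) (by decide +kernel) ok28 ok31

noncomputable def t33 : Tre :=
  .I [0,0,-1,-1,0,0,0,-1,-1] t27 t32

theorem ok33 : chk (cU (-1) false 3) t33 r19 = true :=
  chk_I (e' := [1,0,1,1,0,0,0,1,1]) (by decide +kernel) (by decide +kernel) ok27 ok32

noncomputable def t34 : Tre :=
  .Q [0,0,0,-1,0,0,-1,-1,0,0,1] (.p true [0,0,1] [] (⟨0,[(21,0)]⟩,⟨0,[(20,0)]⟩) .k 0 (⟨0,[]⟩,⟨0,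
  []⟩) .k .k) t26 t33

theorem ok34 : chk (cU (-1) false 3) t34 r18 = true :=
  chk_Q (e' := [0,0,0,1,0,0,1,1,0,0,-1]) (by decide +kernel) (by decide +kernel) ok26 ok33

noncomputable def t35 : Tre :=
  .Q [0,0,0,0,0,0,-1,0,0,0,1] (.p true [0,0,1] [] (⟨0,[(20,0)]⟩,⟨0,[(19,0)]⟩) .k 0 (⟨0,[]⟩,⟨0,[]⟩)
  .k .k) t25 t34

theorem ok35 : chk (cU (-1) false 3) t35 r17 = true :=
  chk_Q (e' := [0,0,0,0,0,0,1,0,0,0,-1]) (by decide +kernel) (by decide +kernel) ok25 ok34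

noncomputable def t36 : Tre :=
  .Q [0,0,-1,0,0,0,0,0,0,1] (.pp false [-1,1]) t24 t35

theorem ok36 : chk (cU (-1) false 3) t36 l16 = true :=
  chk_Q (e' := [0,0,1,0,0,0,0,0,0,-1]) (by decide +kernel) (by decide +kernel) ok24 ok35

noncomputable def t38 : Tre :=
  .Q [0,0,0,0,0,0,1,1,0,0,-1] (.p false [0,0,1] [] (⟨0,[(18,0)]⟩,⟨0,[(17,0)]⟩) .k 0 (⟨0,[]⟩,⟨0,[]⟩)
  .k .k) t36 t37

theorem ok38 : chk (cU (-1) false 3) t38 r15 = true :=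
  chk_Q (e' := [0,0,0,0,0,0,-1,-1,0,0,1]) (by decide +kernel) (by decide +kernel) ok36 ok37

noncomputable def t39 : Tre :=
  .Q [0,0,0,1,0,0,-1,-1,0,0,1] (.p true [0,0,1] [] (⟨0,[(17,0)]⟩,⟨0,[(16,0)]⟩) .k 0 (⟨0,[]⟩,⟨0,[]⟩)
  .k .k) t23 t38

theorem ok39 : chk (cU (-1) false 3) t39 l14 = true :=
  chk_Q (e' := [0,0,0,-1,0,0,1,1,0,0,-1]) (by decide +kernel) (by decide +kernel) ok23 ok38

noncomputable def t44 : Tre :=
  .I [0,-1,-1,0,1,0,0,0,1] t42 t43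

theorem ok44 : chk (cU (-1) false 3) t44 r26 = true :=
  chk_I (e' := [1,1,1,0,-1,0,0,0,-1]) (by decide +kernel) (by decide +kernel) ok42 ok43

noncomputable def t45 : Tre :=
  .Q [0,0,0,1,0,0,0,0,0,1] (.pp false [-1,1]) t41 t44

theorem ok45 : chk (cU (-1) false 3) t45 r25 = true :=
  chk_Q (e' := [0,0,0,-1,0,0,0,0,0,-1]) (by decide +kernel) (by decide +kernel) ok41 ok44

noncomputable def t46 : Tre :=
  .Q [0,0,0,0,0,0,-1,0,0,0,1] (.p true [0,0,1] [] (⟨0,[(19,0)]⟩,⟨0,[(18,0)]⟩) .k 0 (⟨0,[]⟩,⟨0,[]⟩)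
  .k .k) t40 t45

theorem ok46 : chk (cU (-1) false 3) t46 l24 = true :=
  chk_Q (e' := [0,0,0,0,0,0,1,0,0,0,-1]) (by decide +kernel) (by decide +kernel) ok40 ok45

noncomputable def t49 : Tre :=
  .I [0,0,-1,-1,0,0,0,1] t47 t48

theorem ok49 : chk (cU (-1) false 3) t49 r24 = true :=
  chk_I (e' := [1,0,1,1,0,0,0,-1]) (by decide +kernel) (by decide +kernel) ok47 ok48

noncomputable def t50 : Tre :=
  .I [0,0,2,2,-1,0,0,1] t46 t49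

theorem ok50 : chk (cU (-1) false 3) t50 l23 = true :=
  chk_I (e' := [1,0,-2,-2,1,0,0,-1]) (by decide +kernel) (by decide +kernel) ok46 ok49

noncomputable def t52 : Tre :=
  .Q [0,0,0,0,0,0,1,0,0,1,-1] (.p false [0,0,1] [1] (⟨0,[(17,0)]⟩,⟨0,[(16,0)]⟩) .k 1 (⟨0,[]⟩,⟨0,
  []⟩) .k .k) t50 t51

theorem ok52 : chk (cU (-1) false 3) t52 r14 = true :=
  chk_Q (e' := [0,0,0,0,0,0,-1,0,0,-1,1]) (by decide +kernel) (by decide +kernel) ok50 ok51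

noncomputable def t53 : Tre :=
  .I [0,0,-2,-2,1,0,0,-1] t39 t52

theorem ok53 : chk (cU (-1) false 3) t53 r2 = true :=
  chk_I (e' := [1,0,2,2,-1,0,0,1]) (by decide +kernel) (by decide +kernel) ok39 ok52

noncomputable def t54 : Tre :=
  .Q [0,0,0,0,0,1,0,0,0,-1,1] (.ed false [0,1,1] .k) t22 t53

theorem ok54 : chk (cU (-1) false 3) t54 l1 = true :=
  chk_Q (e' := [0,0,0,0,0,-1,0,0,0,1,-1]) (by decide +kernel) (by decide +kernel) ok22 ok53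

noncomputable def t59 : Tre :=
  .Q [0,0,0,0,0,1,0,0,0,0,-1] (.ed true [1,-1,1] .k) t57 t58

theorem ok59 : chk (cU (-1) false 3) t59 l31 = true :=
  chk_Q (e' := [0,0,0,0,0,-1,0,0,0,0,1]) (by decide +kernel) (by decide +kernel) ok57 ok58

noncomputable def t61 : Tre :=
  .I [0,0,0,0,0,0,0,1,-1] t59 t60

theorem ok61 : chk (cU (-1) false 3) t61 r30 = true :=
  chk_I (e' := [1,0,0,0,0,0,0,-1,1]) (by decide +kernel) (by decide +kernel) ok59 ok60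

noncomputable def t62 : Tre :=
  .I [0,0,1,0,0,0,0,-1] t56 t61

theorem ok62 : chk (cU (-1) false 3) t62 r29 = true :=
  chk_I (e' := [1,0,-1,0,0,0,0,1]) (by decide +kernel) (by decide +kernel) ok56 ok61

noncomputable def t63 : Tre :=
  .Q [0,0,0,0,0,0,-1,0,0,0,1] (.p true [0,0,1] [] (⟨0,[(15,0)]⟩,⟨0,[(14,0)]⟩) .k 0 (⟨0,[]⟩,⟨0,[]⟩)
  .k .k) t55 t62

theorem ok63 : chk (cU (-1) false 3) t63 r1 = true :=
  chk_Q (e' := [0,0,0,0,0,0,1,0,0,0,-1]) (by decide +kernel) (by decide +kernel) ok55 ok62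

noncomputable def t64 : Tre :=
  .Q [0,1,0,1,0,0,-1,-1,0,0,1] (.p true [0,0,1] [] (⟨0,[(14,0)]⟩,⟨0,[(13,0)]⟩) .k 0 (⟨0,[]⟩,⟨0,[]⟩)
  .k .k) t54 t63

theorem ok64 : chk (cU (-1) false 3) t64 l0 = true :=
  chk_Q (e' := [0,-1,0,-1,0,0,1,1,0,0,-1]) (by decide +kernel) (by decide +kernel) ok54 ok63

noncomputable def t66 : Tre :=
  .Q [0,0,0,1,0,0,1,1,0,1,-1] (.p false [0,0,1] [1] (⟨0,[(13,0)]⟩,⟨0,[(12,0)]⟩) .k 1 (⟨0,[]⟩,⟨0,
  []⟩) .k .k) t64 t65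

theorem ok66 : chk (cU (-1) false 3) t66 base = true :=
  chk_Q (e' := [0,0,0,-1,0,0,-1,-1,0,-1,1]) (by decide +kernel) (by decide +kernel) ok64 ok65

theorem ok : chkB (cU (-1) false 3) (fax (fcU (-1)) false 1 (-1) 3 true (tU false)) t66 base = true :=
  chkB_of (by decide +kernel) ok66

end Helper11.CT.Tm1_1_m1_1_v
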