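import Pool.Agent.Helper11.CT.T.Tm1_1_m1_1_v_q

set_option autoImplicit false
set_option linter.all false

namespace Helper11.CT.Tm1_1_m1_1_v

open Helper11.CT

noncomputable def t3 : Tre :=
  (.Q [0,0,0,0,0,1,0,0,0,0,0,-1] (.p false [0,0,0,1] [] (⟨0,[(14,0)]⟩,⟨1,[(13,0),(8,0),(0,0)]⟩) .k
  0 (⟨0,[]⟩,⟨0,[]⟩) .k .k) (.R ⟨0,false,false,true,[0,0,0,1],[0,1],[1,1,1,1],(⟨0,[(15,0)]⟩,⟨1,[(14,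
  0),(8,0),(0,0)]⟩),(⟨0,[(27,0)]⟩,⟨0,[(26,0)]⟩),⟨0,[(0,0)]⟩,.k,.k,(.r (-1) ⟨1,[(13,0),(16,1),(0,
  0)]⟩ ⟨13,[(1,7),(4,1),(2,1),(2,2),(7,1),(11,4)]⟩),(.r (-1) ⟨1,[(13,0),(16,1),(0,0)]⟩ ⟨13,[(1,7),
  (4,1),(2,1),(2,2),(7,1),(11,4)]⟩),.k,.k,⟨true,0,⟨0,[]⟩,⟨1,[(20,0),(0,0)]⟩⟩,⟨false,1,⟨0,[(15,0),
  (15,0)]⟩,⟨7,[(5,1),(8,3),(5,2),(0,0)]⟩⟩,⟨true,(-1),⟨0,[(1,0)]⟩,⟨1,[(13,0),(16,1),(0,0)]⟩⟩,⟨false,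
  0,⟨1,[(1,1),(13,1),(15,0),(0,0)]⟩,⟨1,[(4,0),(8,0),(0,0),(15,0),(1,0)]⟩⟩,⟨false,0,⟨0,[]⟩,⟨0,[]⟩⟩,
  ⟨false,0,⟨0,[]⟩,⟨0,[]⟩⟩,[.o ⟨false,0,⟨0,[(29,0)]⟩,⟨3,[(4,3),(7,0),(0,0),(18,1)]⟩⟩,.o ⟨false,1,⟨3,
  [(12,0),(0,0),(15,3),(2,1)]⟩,⟨0,[(4,0)]⟩⟩,.a ⟨true,0,⟨1,[(14,0),(8,0),(0,0)]⟩,⟨0,[(15,0)]⟩⟩
  ⟨false,0,⟨1,[(1,1),(11,0),(18,0)]⟩,⟨1,[(30,1),(0,0),(0,0)]⟩⟩ ⟨true,0,⟨0,[(15,0),(13,0)]⟩,⟨1,[(4,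
  0),(9,0),(15,0)]⟩⟩,.o ⟨false,0,⟨7,[(5,1),(8,3),(5,2),(0,0)]⟩,⟨1,[(15,1),(9,0),(5,0)]⟩⟩]⟩) (.I [0,
  -1,-1,-2,1,0,0,0,1] (.R ⟨1,false,false,true,[0,0,0,1],[0,1],[1,1,1,1],(⟨0,[(16,0)]⟩,⟨1,[(15,0),(8,
  0),(0,0)]⟩),(⟨0,[(28,0)]⟩,⟨0,[(27,0)]⟩),⟨0,[(1,0)]⟩,.k,.k,(.r (-1) ⟨3,[(0,1),(13,0),(17,0),(2,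
  1)]⟩ ⟨13,[(2,7),(4,1),(2,1),(2,2),(7,1),(11,4)]⟩),(.r (-1) ⟨3,[(0,1),(13,0),(17,0),(2,1)]⟩ ⟨13,
  [(2,7),(4,1),(2,1),(2,2),(7,1),(11,4)]⟩),(.r (-1) ⟨0,[(0,0),(28,0),(1,0)]⟩ ⟨6,[(2,4),(4,2),(2,2),
  (2,0),(7,2),(11,3)]⟩),.k,⟨true,0,⟨0,[]⟩,⟨1,[(21,0),(0,0)]⟩⟩,⟨false,1,⟨0,[(16,0),(15,0)]⟩,⟨7,[(6,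
  1),(8,3),(5,2),(0,0)]⟩⟩,⟨true,(-1),⟨0,[(2,0)]⟩,⟨3,[(0,1),(13,0),(17,0),(2,1)]⟩⟩,⟨false,0,⟨1,[(2,
  1),(13,1),(15,0),(0,0)]⟩,⟨15,[(0,5),(4,3),(0,1),(7,4),(0,7),(5,1),(11,4)]⟩⟩,⟨false,0,⟨13,[(2,11),
  (4,2),(2,2),(2,0),(7,2),(7,6),(3,10)]⟩,⟨0,[(0,0)]⟩⟩,⟨false,0,⟨0,[(2,0),(13,0),(12,0),(3,0)]⟩,⟨7,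
  [(0,7),(5,1),(8,3),(5,2),(0,0)]⟩⟩,[.o ⟨false,0,⟨0,[(30,0)]⟩,⟨19,[(0,5),(4,7),(0,1),(6,2),(7,1),(4,
  3),(6,6)]⟩⟩,.o ⟨false,1,⟨3,[(13,0),(0,0),(15,3),(2,1)]⟩,⟨0,[(5,0)]⟩⟩,.a ⟨true,0,⟨1,[(15,0),(8,0),
  (0,0)]⟩,⟨0,[(16,0)]⟩⟩ ⟨false,0,⟨1,[(2,1),(11,0),(18,0)]⟩,⟨1,[(31,1),(0,0),(0,0)]⟩⟩ ⟨true,0,⟨0,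
  [(16,0),(13,0)]⟩,⟨1,[(5,0),(9,0),(15,0)]⟩⟩,.o ⟨false,0,⟨7,[(6,1),(8,3),(5,2),(0,0)]⟩,⟨1,[(16,1),
  (9,0),(5,0)]⟩⟩]⟩) (.Q [0,0,0,-1,-1,0,0,0,-2,-1,0,2] (.p true [0,0,0,1] [1,0,0,-1] (⟨0,[(16,0)]⟩,
  ⟨1,[(15,0),(8,0),(0,0)]⟩) .k 2 (⟨1,[(15,0),(8,0),(0,0)]⟩,⟨0,[(16,0)]⟩) .k .k) (.R ⟨1,true,false,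
  false,[1,0,0,-1],[0,0,0,1],[1,1,0,0,0,0,0,0,-1],(⟨1,[(16,0),(8,0),(0,0)]⟩,⟨0,[(17,0)]⟩),(⟨0,[(17,
  0)]⟩,⟨1,[(16,0),(8,0),(0,0)]⟩),⟨0,[(2,0),(13,0)]⟩,.k,.k,(.r 0 ⟨1,[(0,0),(15,0),(15,0),(0,0)]⟩ ⟨5,
  [(8,1),(2,1),(2,0),(0,3),(6,1),(11,0)]⟩),.k,(.r 0 ⟨3,[(0,2),(13,0),(1,2),(15,0),(0,1)]⟩ ⟨3,[(1,1),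
  (13,4),(6,0),(0,0),(10,0)]⟩),.k,⟨false,(-1),⟨0,[(0,0),(15,0),(13,0)]⟩,⟨3,[(14,0),(0,4),(18,1)]⟩⟩,
  ⟨true,0,⟨0,[(16,0)]⟩,⟨1,[(4,0),(12,3),(4,0)]⟩⟩,⟨false,0,⟨0,[]⟩,⟨3,[(14,0),(0,0),(18,1)]⟩⟩,⟨true,1,
  ⟨0,[(15,0),(0,0)]⟩,⟨0,[(0,0),(30,0)]⟩⟩,⟨true,0,⟨0,[(31,0)]⟩,⟨0,[(32,0)]⟩⟩,⟨false,2,⟨0,[(15,0),(0,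
  0),(14,0),(2,0)]⟩,⟨0,[(0,0)]⟩⟩,[]⟩) (.Q [0,0,0,0,0,0,-1,0,0,0,1] (.p true [0,0,1] [] (⟨0,[(26,
  0)]⟩,⟨0,[(25,0)]⟩) .k 0 (⟨0,[]⟩,⟨0,[]⟩) .k .k) (.K ⟨2,[0,-1,1],0,0,(⟨0,[(3,1),(7,0),(5,0)]⟩,⟨0,
  [(26,0),(3,0)]⟩),.k,(.x 0 ⟨1,[(3,3),(1,0),(11,1),(5,2),(3,1)]⟩ ⟨1,[(0,1),(6,1),(18,1),(3,3),(0,1),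
  (2,0),(0,0)]⟩),.k,.k,.k,[⟨0,[(33,0)]⟩,⟨0,[(12,0)]⟩,⟨0,[(0,0)]⟩,⟨1,[(23,2),(0,0)]⟩]⟩) (.I [0,-1,0,
  -1,0,0,0,0,-1] (.R ⟨1,false,false,false,[1,0,0,-1],[1,-1],[0,0,0,-1,0,0,0,0,-1],(⟨1,[(18,0),(8,0),
  (0,0)]⟩,⟨0,[(19,0)]⟩),(⟨0,[(30,0)]⟩,⟨0,[(31,0)]⟩),⟨0,[(4,0),(13,0)]⟩,.k,.k,(.r 0 ⟨0,[(0,0),(31,0),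
  (1,0)]⟩ ⟨5,[(10,1),(2,1),(2,0),(0,3),(6,1),(11,0)]⟩),(.r 0 ⟨3,[(3,1),(12,0),(7,0),(0,0),(10,0)]⟩
  ⟨1,[(17,0),(16,1),(0,0)]⟩),.k,.k,⟨false,0,⟨4,[(0,1),(4,0),(10,0),(15,0)]⟩,⟨1,[(17,0),(17,0)]⟩⟩,
  ⟨true,0,⟨7,[(9,1),(8,3),(5,2),(0,0)]⟩,⟨0,[(19,0)]⟩⟩,⟨true,0,⟨0,[(34,0)]⟩,⟨0,[(33,0)]⟩⟩,⟨false,1,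
  ⟨1,[(8,0),(8,0),(0,0),(15,0),(1,0)]⟩,⟨9,[(0,1),(2,5),(12,0),(2,9),(15,2),(0,1)]⟩⟩,⟨false,1,⟨3,
  [(16,0),(0,0),(18,1)]⟩,⟨0,[]⟩⟩,⟨false,1,⟨1,[(2,0),(5,0),(27,0)]⟩,⟨4,[(0,1),(4,0),(10,0),(2,4),(12,
  0)]⟩⟩,[.o ⟨false,0,⟨0,[(8,0)]⟩,⟨3,[(16,0),(0,0),(15,3),(2,1)]⟩⟩,.o ⟨false,1,⟨3,[(8,3),(7,0),(0,0),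
  (18,1)]⟩,⟨0,[(33,0)]⟩⟩,.a ⟨true,0,⟨0,[(19,0)]⟩,⟨1,[(18,0),(8,0),(0,0)]⟩⟩ ⟨false,0,⟨0,[(0,0)]⟩,⟨1,
  [(17,0),(15,1),(2,0)]⟩⟩ ⟨true,0,⟨1,[(8,0),(9,0),(15,0)]⟩,⟨0,[(19,0),(13,0)]⟩⟩,.o ⟨false,0,⟨1,[(6,
  0),(12,1),(4,0)]⟩,⟨5,[(2,0),(5,0),(7,0),(1,1),(10,0),(5,2)]⟩⟩]⟩) (.Q [0,-1,0,0,0,0,0,0,-2,-1,0,2]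
  (.p true [0,0,0,1] [1,0,0,-1] (⟨0,[(19,0)]⟩,⟨1,[(18,0),(8,0),(0,0)]⟩) .k 2 (⟨1,[(18,0),(8,0),(0,
  0)]⟩,⟨0,[(19,0)]⟩) .k .k) (.R ⟨1,false,false,true,[1,0,0,-1],[0,0,0,1],[1,1,0,0,0,0,0,0,-1],(⟨1,
  [(19,0),(8,0),(0,0)]⟩,⟨0,[(20,0)]⟩),(⟨0,[(20,0)]⟩,⟨1,[(19,0),(8,0),(0,0)]⟩),⟨0,[(5,0),(13,0)]⟩,.k,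
  .k,(.x 0 ⟨2,[(5,1),(4,0),(8,0),(5,0),(5,0)]⟩ ⟨3,[(17,0),(0,0),(13,3),(3,1)]⟩),.k,(.r 0 ⟨0,[(0,0),
  (18,0),(13,0),(1,1)]⟩ ⟨3,[(4,1),(13,4),(6,0),(0,0),(10,0)]⟩),.k,⟨false,0,⟨0,[(0,0),(18,0),(13,0),
  (1,0)]⟩,⟨0,[(18,0)]⟩⟩,⟨true,0,⟨0,[(19,0)]⟩,⟨1,[(7,0),(12,3),(4,0)]⟩⟩,⟨false,0,⟨0,[]⟩,⟨3,[(17,0),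
  (0,0),(18,1)]⟩⟩,⟨false,1,⟨0,[(18,0),(0,0)]⟩,⟨0,[(0,0)]⟩⟩,⟨true,0,⟨0,[(34,0)]⟩,⟨0,[(35,0)]⟩⟩,
  ⟨false,1,⟨0,[(3,0)]⟩,⟨0,[(0,0),(34,0)]⟩⟩,[.o ⟨false,0,⟨1,[(1,1),(7,0),(9,0),(15,0)]⟩,⟨3,[(0,1),
  (16,0),(0,0),(11,0),(6,0)]⟩⟩,.o ⟨false,1,⟨3,[(3,1),(5,1),(7,0),(0,0)]⟩,⟨17,[(0,8),(0,0),(2,0),(4,
  3),(11,2),(1,2),(6,0),(2,0)]⟩⟩,.a ⟨true,0,⟨0,[(20,0)]⟩,⟨1,[(19,0),(8,0),(0,0)]⟩⟩ ⟨false,0,⟨7,[(0,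
  1),(5,1),(10,0),(1,1),(15,1),(0,0)]⟩,⟨1,[(18,0),(18,0)]⟩⟩ ⟨true,0,⟨0,[(1,0),(17,0),(15,0)]⟩,⟨4,
  [(0,2),(0,0),(7,0),(10,3),(0,0),(1,0)]⟩⟩,.o ⟨false,0,⟨1,[(7,0),(12,1),(4,0)]⟩,⟨5,[(3,0),(5,0),(7,
  0),(1,1),(10,0),(5,2)]⟩⟩]⟩) (.Q [0,1,0,0,-1,0,1,1,-1,0,-1,1] (.p false [0,0,1] [0,0,0,1] (⟨0,[(29,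
  0)]⟩,⟨0,[(28,0)]⟩) .k 2 (⟨0,[(20,0)]⟩,⟨1,[(19,0),(8,0),(0,0)]⟩) .k (.r 0 ⟨1,[(6,1),(20,1),(7,1),
  (0,0),(0,0)]⟩ ⟨1,[(2,0),(9,0),(1,0),(3,0),(18,0)]⟩)) (.Q [0,-1,0,-1,0,0,0,0,-2,-1,0,2] (.p true
  [0,0,0,1] [1,0,0,-1] (⟨0,[(21,0)]⟩,⟨1,[(20,0),(8,0),(0,0)]⟩) .k 2 (⟨1,[(20,0),(8,0),(0,0)]⟩,⟨0,
  [(21,0)]⟩) .k .k) (.R ⟨1,true,false,true,[1,0,0,-1],[0,0,0,1],[1,1,0,0,0,0,0,0,-1],(⟨1,[(21,0),(8,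
  0),(0,0)]⟩,⟨0,[(22,0)]⟩),(⟨0,[(22,0)]⟩,⟨1,[(21,0),(8,0),(0,0)]⟩),⟨0,[(7,0),(13,0)]⟩,.k,.k,(.r
  (-1) ⟨1,[(19,0),(17,1),(0,0)]⟩ ⟨0,[(2,0),(3,0),(4,0),(10,1),(16,0)]⟩),.k,(.r 0 ⟨0,[(0,0),(20,0),
  (13,0),(1,0)]⟩ ⟨3,[(6,1),(13,4),(6,0),(0,0),(10,0)]⟩),.k,⟨false,0,⟨0,[(0,0),(20,0),(13,0)]⟩,⟨0,
  [(20,0)]⟩⟩,⟨true,0,⟨0,[(21,0)]⟩,⟨1,[(9,0),(12,3),(4,0)]⟩⟩,⟨false,0,⟨0,[]⟩,⟨3,[(19,0),(0,0),(18,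
  1)]⟩⟩,⟨true,0,⟨0,[(2,0)]⟩,⟨0,[(0,0),(35,0)]⟩⟩,⟨true,0,⟨0,[(36,0)]⟩,⟨0,[(37,0)]⟩⟩,⟨false,1,⟨0,[(5,
  0)]⟩,⟨0,[(0,0)]⟩⟩,[]⟩) (.I [0,0,-1,-1,0,0,0,0,-2] (.R ⟨1,false,false,true,[1,0,0,-1],[0,0,0,1],[0,
  1,0,-1,0,0,0,0,-1],(⟨1,[(22,0),(8,0),(0,0)]⟩,⟨0,[(23,0)]⟩),(⟨0,[(23,0)]⟩,⟨1,[(22,0),(8,0),(0,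
  0)]⟩),⟨0,[(8,0),(13,0)]⟩,.k,.k,(.r (-1) ⟨3,[(0,3),(19,0),(0,2)]⟩ ⟨0,[(3,0),(3,0),(4,0),(10,1),(16,
  0)]⟩),.k,(.r 0 ⟨0,[(0,0)]⟩ ⟨3,[(7,1),(13,4),(6,0),(0,0),(10,0)]⟩),.k,⟨false,0,⟨0,[(0,0)]⟩,⟨1,[(4,
  1),(16,0),(18,0)]⟩⟩,⟨true,0,⟨0,[(22,0)]⟩,⟨1,[(10,0),(12,3),(4,0)]⟩⟩,⟨false,0,⟨0,[(38,0)]⟩,⟨0,[(37,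
  0),(2,0)]⟩⟩,⟨true,0,⟨0,[(3,0)]⟩,⟨9,[(0,7),(4,1),(1,3),(2,2),(12,19),(4,0),(4,1),(6,1)]⟩⟩,⟨true,0,
  ⟨0,[(42,0)]⟩,⟨0,[]⟩⟩,⟨true,0,⟨0,[(1,0)]⟩,⟨1,[(0,1),(9,0),(12,3),(4,0)]⟩⟩,[.o ⟨false,0,⟨4,[(2,0),
  (0,2),(20,0),(8,0)]⟩,⟨39,[(0,11),(6,5),(5,1),(6,4),(2,39),(4,1),(4,17),(6,22)]⟩⟩,.o ⟨false,1,⟨3,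
  [(6,1),(5,1),(7,0),(0,0)]⟩,⟨7,[(0,1),(6,3),(4,5),(10,7),(9,0),(5,0),(0,1)]⟩⟩,.a ⟨true,0,⟨0,[(23,
  0)]⟩,⟨1,[(22,0),(8,0),(0,0)]⟩⟩ ⟨false,0,⟨3,[(0,1),(27,0),(0,0),(8,1)]⟩,⟨0,[(4,0),(35,0)]⟩⟩ ⟨true,
  0,⟨1,[(3,0),(18,0),(19,0)]⟩,⟨7,[(0,1),(6,3),(4,5),(10,15),(9,0),(5,0),(0,1)]⟩⟩,.o ⟨false,0,⟨1,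
  [(10,0),(12,1),(4,0)]⟩,⟨5,[(6,0),(5,0),(7,0),(1,1),(10,0),(5,2)]⟩⟩]⟩) (.I [0,-1,-1,-2,1,0,0,-1,
  -1] (.R ⟨1,false,false,true,[1,0,0,-1],[-1,1,1],[0,0,0,-1,0,0,0,0,-1],(⟨1,[(23,0),(8,0),(0,0)]⟩,
  ⟨0,[(24,0)]⟩),(⟨0,[(17,0)]⟩,⟨0,[(32,0),(2,0)]⟩),⟨0,[(9,0),(13,0)]⟩,.k,.k,(.r (-1) ⟨3,[(0,1),(20,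
  0),(9,1),(8,0),(2,1)]⟩ ⟨21,[(1,11),(6,1),(6,1),(2,1),(10,2),(0,0),(10,1)]⟩),(.r (-1) ⟨3,[(0,1),(5,
  0),(9,0),(1,0),(2,0),(18,0)]⟩ ⟨3,[(1,1),(13,0),(15,2)]⟩),(.r (-1) ⟨0,[(0,0),(36,0),(1,0)]⟩ ⟨3,[(1,
  1),(13,2),(15,0)]⟩),.k,⟨true,1,⟨0,[(0,0)]⟩,⟨0,[(1,0),(8,0),(20,0)]⟩⟩,⟨false,1,⟨1,[(6,1),(16,0),(8,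
  2),(0,2),(6,1)]⟩,⟨0,[(11,0),(12,0)]⟩⟩,⟨true,0,⟨0,[(39,0)]⟩,⟨0,[(38,0)]⟩⟩,⟨false,0,⟨0,[(2,0),(0,0),
  (28,0),(0,0),(7,0)]⟩,⟨5,[(0,3),(7,1),(2,3),(1,1),(10,5),(0,1),(14,0),(0,2)]⟩⟩,⟨false,1,⟨3,[(21,0),
  (0,0),(18,1)]⟩,⟨0,[]⟩⟩,⟨false,0,⟨0,[(1,0),(1,0),(19,0),(8,0),(0,0),(3,0),(3,0)]⟩,⟨0,[(0,0),(10,0),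
  (12,0)]⟩⟩,[.o ⟨false,0,⟨0,[(19,0),(23,0)]⟩,⟨0,[(13,0),(11,0),(15,0)]⟩⟩,.o ⟨false,0,⟨0,[(19,0)]⟩,
  ⟨3,[(0,1),(10,1),(10,0),(2,1),(8,0)]⟩⟩,.a ⟨true,0,⟨0,[(24,0)]⟩,⟨1,[(23,0),(8,0),(0,0)]⟩⟩ ⟨true,0,
  ⟨3,[(0,1),(2,1),(19,0),(2,0),(3,0)]⟩,⟨0,[(5,0)]⟩⟩ ⟨false,0,⟨1,[(19,1),(3,0),(8,0),(0,0)]⟩,⟨0,[(13,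
  0),(10,0),(0,0),(15,0)]⟩⟩,.o ⟨false,0,⟨1,[(11,0),(12,1),(4,0)]⟩,⟨39,[(0,1),(3,1),(2,3),(13,4),(1,
  13),(7,1),(2,9),(5,18)]⟩⟩]⟩) (.I [0,0,-1,-1,1,0,0,-1,1] (.Q [0,-1,0,1,0,0,1,1,-1,1,-1,1] (.p
  false [-1,1,1] [0,0,0,1] (⟨0,[(18,0)]⟩,⟨0,[(33,0),(2,0)]⟩) .k 2 (⟨0,[(25,0)]⟩,⟨1,[(24,0),(8,0),(0,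
  0)]⟩) .k (.r 0 ⟨1,[(4,1),(19,0),(2,0),(3,0),(9,0),(0,0)]⟩ ⟨5,[(0,3),(1,1),(16,1),(2,0),(7,1),(11,
  0)]⟩)) (.R ⟨1,false,false,true,[1,0,0,-1],[2,-1,-1],[1,1,0,0,0,0,0,0,-1],(⟨1,[(25,0),(8,0),(0,
  0)]⟩,⟨0,[(26,0)]⟩),(⟨0,[(34,0),(2,0)]⟩,⟨0,[(19,0)]⟩),⟨0,[(11,0),(13,0)]⟩,.k,.k,(.r (-1) ⟨1,[(23,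
  0),(17,1),(0,0)]⟩ ⟨21,[(3,11),(6,1),(6,1),(2,1),(10,2),(0,0),(10,1)]⟩),(.r 0 ⟨31,[(0,7),(9,5),(1,
  1),(3,5),(0,4),(5,7),(1,3),(6,1),(0,18)]⟩ ⟨0,[(1,0)]⟩),.k,.k,⟨false,0,⟨7,[(0,3),(4,1),(4,1),(2,0),
  (11,2),(2,4),(4,1),(8,3)]⟩,⟨0,[(1,0)]⟩⟩,⟨true,0,⟨1,[(13,0),(11,0),(2,0)]⟩,⟨0,[(8,0),(17,0),(7,0),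
  (0,0)]⟩⟩,⟨false,0,⟨0,[]⟩,⟨3,[(23,0),(0,0),(18,1)]⟩⟩,⟨false,1,⟨1,[(1,1),(11,0),(11,0),(2,0)]⟩,⟨0,
  [(0,0)]⟩⟩,⟨true,0,⟨0,[(40,0)]⟩,⟨0,[(41,0)]⟩⟩,⟨false,1,⟨11,[(1,3),(2,1),(4,1),(3,3),(11,1),(1,7),
  (8,0),(6,4)]⟩,⟨0,[(0,0),(40,0)]⟩⟩,[.o ⟨false,0,⟨0,[(15,0),(11,0)]⟩,⟨23,[(0,15),(8,7),(12,3),(0,4),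
  (0,4),(11,1),(6,3)]⟩⟩,.o ⟨false,1,⟨3,[(1,1),(11,1),(1,1),(7,0),(3,1),(15,0)]⟩,⟨0,[(21,0)]⟩⟩,.a
  ⟨true,0,⟨0,[(26,0)]⟩,⟨1,[(25,0),(8,0),(0,0)]⟩⟩ ⟨false,0,⟨5,[(0,3),(11,1),(2,5),(9,1),(4,3),(11,0),
  (0,0)]⟩,⟨1,[(24,0),(18,0)]⟩⟩ ⟨true,0,⟨1,[(15,1),(9,0),(1,0),(2,0)]⟩,⟨0,[(21,0),(4,0)]⟩⟩,.o ⟨false,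
  0,⟨1,[(13,0),(12,1),(4,0)]⟩,⟨23,[(1,1),(7,1),(13,2),(1,9),(7,1),(2,5),(5,10)]⟩⟩]⟩) (.R ⟨1,true,
  false,true,[1,0,0,-1],[2,-1,-1],[1,1,0,0,0,0,0,0,-1],(⟨1,[(25,0),(8,0),(0,0)]⟩,⟨0,[(26,0)]⟩),(⟨0,
  [(34,0),(2,0)]⟩,⟨0,[(19,0)]⟩),⟨0,[(11,0),(13,0)]⟩,.k,.k,(.r (-1) ⟨1,[(23,0),(17,1),(0,0)]⟩ ⟨21,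
  [(3,11),(6,1),(6,1),(2,1),(10,2),(0,0),(10,1)]⟩),(.r 0 ⟨3,[(12,1),(4,0),(5,0),(9,2),(9,0)]⟩ ⟨0,
  [(1,0)]⟩),.k,.k,⟨false,0,⟨1,[(12,1),(20,1),(8,0),(0,0)]⟩,⟨0,[(1,0)]⟩⟩,⟨true,0,⟨1,[(13,0),(11,0),
  (2,0)]⟩,⟨0,[(8,0),(17,0),(7,0),(0,0)]⟩⟩,⟨false,0,⟨0,[]⟩,⟨3,[(23,0),(0,0),(18,1)]⟩⟩,⟨true,0,⟨0,[(0,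
  0)]⟩,⟨9,[(5,3),(4,1),(10,5),(1,1),(2,5),(7,3),(0,3),(6,0),(0,2)]⟩⟩,⟨true,0,⟨0,[(40,0)]⟩,⟨0,[(41,
  0)]⟩⟩,⟨false,1,⟨9,[(0,5),(8,1),(10,3),(15,2),(6,4)]⟩,⟨0,[(5,0),(28,0),(0,0),(7,0)]⟩⟩,[]⟩)) (.Q [0,
  -1,0,-1,0,0,1,1,0,1,-1] (.p false [0,0,1] [1] (⟨0,[(34,0)]⟩,⟨0,[(33,0)]⟩) .k 1 (⟨0,[]⟩,⟨0,[]⟩) .k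
  .k) (.R ⟨1,false,false,false,[1,-1],[0,-1,1],[1,0,-1,-1],(⟨0,[(37,0)]⟩,⟨0,[(38,0)]⟩),(⟨0,[(11,1),
  (7,0),(5,0)]⟩,⟨0,[(34,0),(3,0)]⟩),⟨0,[(11,1),(13,0)]⟩,.k,.k,(.r (-1) ⟨0,[(41,1),(0,0)]⟩ ⟨10,[(3,
  1),(6,3),(6,3),(2,3),(10,5),(0,1),(10,3)]⟩),.k,.k,.k,⟨false,1,⟨1,[(8,0),(9,0),(1,0),(21,0),(0,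
  0)]⟩,⟨0,[(33,0)]⟩⟩,⟨true,0,⟨0,[(0,0),(7,0),(11,0)]⟩,⟨0,[(28,0)]⟩⟩,⟨true,0,⟨0,[]⟩,⟨0,[(45,0)]⟩⟩,
  ⟨true,0,⟨2,[(0,0),(20,0),(0,0),(7,0)]⟩,⟨0,[(27,0)]⟩⟩,⟨false,1,⟨0,[(40,0),(2,0)]⟩,⟨0,[(41,0)]⟩⟩,
  ⟨true,0,⟨0,[(21,0)]⟩,⟨0,[(15,0),(14,0)]⟩⟩,[.o ⟨false,0,⟨1,[(0,0),(14,0),(13,0)]⟩,⟨1,[(20,1),(15,
  0),(6,0)]⟩⟩,.a ⟨true,0,⟨0,[(0,0)]⟩,⟨0,[(20,0)]⟩⟩ ⟨true,1,⟨1,[(41,1),(0,0),(0,0)]⟩,⟨15,[(0,3),(2,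
  7),(8,15),(3,1),(1,3),(12,0),(0,2)]⟩⟩ ⟨false,1,⟨0,[(0,0),(41,0)]⟩,⟨14,[(3,0),(6,1),(5,3),(3,9),(6,
  4),(3,3),(4,0),(6,0)]⟩⟩,.o ⟨false,0,⟨0,[(14,0)]⟩,⟨3,[(23,0),(0,0),(17,1)]⟩⟩,.o ⟨false,0,⟨3,[(16,
  1),(14,2),(0,0)]⟩,⟨0,[(42,0)]⟩⟩]⟩) (.Q [0,0,-2,0,1,0,-1,0,0,-1,1,1] (.p true [0,0,1] [1,0,0,-1]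
  (⟨0,[(35,0)]⟩,⟨0,[(34,0)]⟩) .k 2 (⟨1,[(25,0),(8,0),(0,0)]⟩,⟨0,[(26,0)]⟩) .k (.r 0 ⟨1,[(2,1),(38,
  3),(0,0),(0,0)]⟩ ⟨1,[(8,0),(9,0),(1,0),(2,0),(19,0)]⟩)) (.R ⟨1,false,false,false,[1,0,0,-1],[1,1,
  -1],[0,0,0,-1,0,0,0,0,-1],(⟨1,[(26,0),(8,0),(0,0)]⟩,⟨0,[(27,0)]⟩),(⟨0,[(35,0),(3,0)]⟩,⟨0,[(12,1),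
  (7,0),(5,0)]⟩),⟨0,[(12,0),(13,0)]⟩,.k,.k,(.r (-1) ⟨1,[(24,0),(17,1),(0,0)]⟩ ⟨21,[(4,11),(6,1),(6,
  1),(2,1),(10,2),(0,0),(10,1)]⟩),(.r 0 ⟨2,[(0,1),(1,0),(3,1),(19,1),(15,3),(1,0)]⟩ ⟨1,[(21,1),(3,
  0),(6,1),(11,0)]⟩),(.r (-1) ⟨3,[(0,3),(5,1),(16,0),(0,0),(1,2),(15,7),(1,0)]⟩ ⟨0,[(4,0),(6,0),(7,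
  0),(24,0)]⟩),.k,⟨true,0,⟨2,[(0,1),(1,0),(3,1),(19,1),(15,6),(1,0)]⟩,⟨0,[(4,0),(6,0),(7,0),(24,
  0)]⟩⟩,⟨false,1,⟨0,[(0,0),(25,0)]⟩,⟨0,[(27,0),(4,0)]⟩⟩,⟨true,0,⟨0,[(42,0)]⟩,⟨0,[(41,0)]⟩⟩,⟨true,1,
  ⟨1,[(1,0),(8,0),(20,0),(12,0)]⟩,⟨0,[(6,0),(35,0)]⟩⟩,⟨false,1,⟨3,[(24,0),(0,0),(18,1)]⟩,⟨0,[]⟩⟩,
  ⟨true,1,⟨15,[(1,7),(2,0),(0,0),(4,6),(0,1),(9,7),(18,2),(3,10)]⟩,⟨0,[(6,0),(35,1)]⟩⟩,[.o ⟨false,1,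
  ⟨1,[(21,1),(15,0),(6,0)]⟩,⟨1,[(16,0),(6,0),(18,0)]⟩⟩,.o ⟨false,1,⟨0,[(1,0),(42,0)]⟩,⟨0,[(30,0),
  (11,0)]⟩⟩,.a ⟨true,0,⟨0,[(27,0)]⟩,⟨1,[(26,0),(8,0),(0,0)]⟩⟩ ⟨true,0,⟨2,[(0,0),(1,1),(3,0),(12,2),
  (6,0),(15,1),(1,1)]⟩,⟨0,[(8,0)]⟩⟩ ⟨false,1,⟨1,[(1,0),(19,0),(4,0),(17,1)]⟩,⟨1,[(16,0),(6,0),(3,1),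
  (14,0)]⟩⟩,.o ⟨false,0,⟨1,[(14,0),(12,1),(4,0)]⟩,⟨5,[(10,0),(5,0),(7,0),(1,1),(10,0),(5,2)]⟩⟩]⟩)
  (.Q [0,0,2,0,-1,0,1,0,0,0,-1] (.p false [0,0,1] [] (⟨0,[(36,0)]⟩,⟨0,[(35,0)]⟩) .k 0 (⟨0,[]⟩,⟨0,
  []⟩) .k .k) (.K ⟨2,[0,-1,1],(-1),0,(⟨0,[(13,1),(7,0),(5,0)]⟩,⟨0,[(36,0),(3,0)]⟩),.k,(.r (-1) ⟨0,
  [(35,0),(7,1),(0,0)]⟩ ⟨22,[(0,7),(4,3),(6,7),(6,0),(2,23),(10,15),(11,15)]⟩),.k,.k,.k,[⟨0,[(43,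
  0)]⟩,⟨0,[(22,0)]⟩,⟨3,[(25,0),(0,0),(7,3),(9,1)]⟩,⟨0,[(0,0)]⟩]⟩) (.K ⟨0,[1,1,-1],1,0,(⟨0,[(36,0),
  (3,0)]⟩,⟨0,[(13,1),(7,0),(5,0)]⟩),.k,.k,(.r 0 ⟨29,[(1,8),(0,6),(2,5),(6,11),(5,0),(3,22),(5,8),(4,
  21),(11,20)]⟩ ⟨1,[(0,1),(16,0),(6,0),(18,2)]⟩),.k,.k,[⟨0,[(1,0),(26,0)]⟩,⟨0,[(0,0)]⟩,⟨0,[(24,0),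
  (7,0),(10,0)]⟩,⟨0,[(2,0)]⟩]⟩)))))))) (.R ⟨1,false,false,true,[0,0,0,1],[0,0,1],[0,1,0,-1,0,0,0,0,
  1],(⟨0,[(21,0)]⟩,⟨1,[(20,0),(8,0),(0,0)]⟩),(⟨0,[(30,0)]⟩,⟨0,[(29,0)]⟩),⟨0,[(6,0)]⟩,.k,.k,(.r (-1)
  ⟨1,[(19,0),(16,1),(0,0)]⟩ ⟨3,[(5,1),(12,0),(7,0),(0,0),(10,0)]⟩),.k,(.r (-1) ⟨0,[(0,0),(2,0),(17,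
  0),(12,0),(1,1)]⟩ ⟨3,[(7,1),(4,0),(5,0),(9,2),(9,0)]⟩),.k,⟨false,1,⟨0,[(0,0),(2,0),(17,0),(12,0),
  (1,1)]⟩,⟨1,[(7,1),(20,1),(8,0),(0,0)]⟩⟩,⟨true,0,⟨0,[(3,0),(17,0)]⟩,⟨1,[(20,0),(2,0),(3,0)]⟩⟩,
  ⟨false,0,⟨0,[(36,0)]⟩,⟨0,[(35,0),(2,0)]⟩⟩,⟨false,0,⟨1,[(7,1),(2,0),(6,0),(3,1),(14,0),(0,0),(0,
  0)]⟩,⟨0,[(0,0)]⟩⟩,⟨true,0,⟨0,[(40,0)]⟩,⟨0,[]⟩⟩,⟨false,0,⟨1,[(5,0),(1,0),(2,0),(6,0),(3,1),(15,0),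
  (0,0)]⟩,⟨0,[(0,0),(35,0)]⟩⟩,[.o ⟨false,0,⟨0,[(24,0)]⟩,⟨0,[(22,0),(15,0)]⟩⟩,.o ⟨false,0,⟨0,[(10,0),
  (5,0)]⟩,⟨1,[(25,1),(5,0),(6,0)]⟩⟩,.a ⟨true,0,⟨1,[(20,0),(8,0),(0,0)]⟩,⟨0,[(21,0)]⟩⟩ ⟨true,0,⟨1,
  [(1,0),(8,0),(10,1),(14,0),(3,0)]⟩,⟨1,[(7,1),(29,0),(0,0)]⟩⟩ ⟨false,0,⟨0,[(10,0),(5,0),(4,0)]⟩,⟨1,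
  [(20,0),(1,0),(2,0),(12,1)]⟩⟩,.o ⟨false,0,⟨7,[(11,1),(8,3),(5,2),(0,0)]⟩,⟨1,[(21,1),(9,0),(5,
  0)]⟩⟩]⟩))))))))

theorem ok3 : chk (cU (-1) false 3) t3 l9 = true := by decide +kernel

noncomputable def t4 : Tre :=
  (.Q [0,0,-1,0,0,0,-1,0,0,1,1] (.p true [1,-1,1] [] (⟨0,[(24,0),(1,0)]⟩,⟨0,[(0,0)]⟩) .k 0 (⟨0,[]⟩,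
  ⟨0,[]⟩) .k .k) (.R ⟨0,false,false,false,[0,1,-1],[1,0,-1],[1,1,1,1,0,0,0,-1],(⟨0,[(1,0)]⟩,⟨0,[(25,
  0),(1,0)]⟩),(⟨0,[(24,0)]⟩,⟨0,[(25,0)]⟩),⟨0,[(25,0)]⟩,.k,.k,.k,.k,.k,.k,⟨false,0,⟨0,[(30,0)]⟩,⟨1,
  [(31,1),(0,0),(0,0)]⟩⟩,⟨true,0,⟨0,[(4,0)]⟩,⟨0,[(0,0),(20,0)]⟩⟩,⟨false,0,⟨0,[]⟩,⟨3,[(13,0),(0,0),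
  (18,1)]⟩⟩,⟨true,0,⟨0,[(5,0)]⟩,⟨0,[(11,0),(8,0)]⟩⟩,⟨false,0,⟨0,[]⟩,⟨0,[]⟩⟩,⟨false,0,⟨0,[]⟩,⟨0,[]⟩⟩,
  [.o ⟨false,1,⟨1,[(20,1),(5,0),(6,0)]⟩,⟨0,[(5,0),(5,0)]⟩⟩,.o ⟨false,1,⟨0,[(17,0),(15,0)]⟩,⟨0,[(19,
  0)]⟩⟩,.a ⟨true,0,⟨0,[(0,0)]⟩,⟨0,[(21,0)]⟩⟩ ⟨true,0,⟨0,[(10,0),(10,0)]⟩,⟨0,[(0,0),(4,1),(5,0)]⟩⟩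
  ⟨false,1,⟨0,[(17,0),(3,0),(11,0)]⟩,⟨0,[(0,0),(4,0),(5,0)]⟩⟩,.o ⟨false,0,⟨1,[(0,0),(17,0)]⟩,⟨1,
  [(21,1),(4,0),(5,0)]⟩⟩]⟩) (.Q [0,0,0,0,0,0,-1,0,0,1,1] (.p true [1,-1,1] [] (⟨0,[(25,0),(1,0)]⟩,
  ⟨0,[(1,0)]⟩) .k 0 (⟨0,[]⟩,⟨0,[]⟩) .k .k) (.K ⟨2,[1,-1,1],0,0,(⟨0,[(26,0),(1,0)]⟩,⟨0,[(2,0)]⟩),.k,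
  (.x 0 ⟨2,[(1,3),(5,0),(18,2),(1,5)]⟩ ⟨3,[(0,3),(1,5),(3,1),(3,1),(19,1),(2,2),(0,0)]⟩),.k,.k,.k,
  [⟨0,[(6,0)]⟩,⟨0,[(11,0),(13,0),(0,0)]⟩,⟨0,[(0,0)]⟩,⟨2,[(1,0),(5,0),(14,2)]⟩]⟩) (.I [0,0,-1,-1,0,0,
  0,-1,-1] (.I [1,0,-1,0,0,0,0,0,-1] (.I [1,0,-1,0,0,0,0,-1,-1] (.R ⟨0,false,false,true,[0,0,0,1],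
  [2,-1,-1],[0,0,0,-1,0,0,0,0,1],(⟨0,[(20,0)]⟩,⟨1,[(19,0),(8,0),(0,0)]⟩),(⟨0,[(28,0),(2,0)]⟩,⟨0,
  [(13,0)]⟩),⟨1,[(5,0),(7,0),(5,0)]⟩,.k,.k,(.r (-1) ⟨0,[(6,0),(32,0)]⟩ ⟨0,[(2,0),(8,0)]⟩),(.r (-1)
  ⟨3,[(11,1),(5,0),(0,2),(8,1)]⟩ ⟨0,[(2,0)]⟩),.k,.k,⟨false,1,⟨1,[(18,0),(8,1),(9,0)]⟩,⟨0,[(2,0),(31,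
  0)]⟩⟩,⟨true,0,⟨0,[(7,0),(12,0)]⟩,⟨1,[(3,1),(15,0),(8,4),(0,4)]⟩⟩,⟨true,0,⟨0,[(35,0)]⟩,⟨0,[(34,
  0)]⟩⟩,⟨false,0,⟨0,[(2,0),(4,0),(12,0)]⟩,⟨1,[(15,1),(2,0),(0,0),(8,0),(0,0),(7,0)]⟩⟩,⟨false,0,⟨0,
  []⟩,⟨0,[]⟩⟩,⟨false,0,⟨0,[]⟩,⟨0,[]⟩⟩,[.o ⟨false,0,⟨0,[(9,0),(11,0)]⟩,⟨3,[(15,3),(1,0),(0,0),(18,
  1)]⟩⟩,.o ⟨false,1,⟨1,[(2,0),(3,0),(3,0),(13,0),(5,0)]⟩,⟨0,[(15,0)]⟩⟩,.a ⟨true,0,⟨1,[(19,0),(8,0),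
  (0,0)]⟩,⟨0,[(20,0)]⟩⟩ ⟨false,1,⟨1,[(18,0),(16,1),(1,0)]⟩,⟨1,[(0,0),(0,0),(9,0)]⟩⟩ ⟨true,0,⟨0,[(9,
  0),(10,0),(0,0)]⟩,⟨1,[(15,1),(3,0),(8,0),(0,0)]⟩⟩,.o ⟨false,0,⟨7,[(10,1),(8,3),(5,2),(0,0)]⟩,⟨1,
  [(20,1),(9,0),(5,0)]⟩⟩]⟩) (.R ⟨0,false,false,false,[0,0,0,1],[2,-1,-1],[0,1],(⟨0,[(20,0)]⟩,⟨1,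
  [(19,0),(8,0),(0,0)]⟩),(⟨0,[(28,0),(2,0)]⟩,⟨0,[(13,0)]⟩),⟨1,[(5,0),(7,0),(5,0)]⟩,.k,.k,(.r (-1)
  ⟨0,[(6,0),(32,0)]⟩ ⟨0,[(2,0),(8,0)]⟩),(.r (-1) ⟨3,[(11,1),(5,0),(0,2),(8,1)]⟩ ⟨0,[(2,0)]⟩),.k,.k,
  ⟨false,0,⟨0,[(27,0),(6,0)]⟩,⟨1,[(2,1),(15,0),(18,0)]⟩⟩,⟨true,0,⟨0,[(7,0),(12,0)]⟩,⟨1,[(3,1),(15,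
  0),(8,4),(0,4)]⟩⟩,⟨false,0,⟨12,[(1,4),(0,7),(7,0),(0,3),(4,1),(9,2)]⟩,⟨1,[(18,0),(18,0)]⟩⟩,⟨true,
  0,⟨0,[(2,0),(4,0),(12,0)]⟩,⟨1,[(0,1),(2,1),(15,0),(8,4),(0,4),(3,1)]⟩⟩,⟨false,0,⟨0,[]⟩,⟨0,[]⟩⟩,
  ⟨false,0,⟨0,[]⟩,⟨0,[]⟩⟩,[.o ⟨false,1,⟨1,[(2,0),(3,0),(3,0),(13,0),(5,0)]⟩,⟨0,[(15,0)]⟩⟩,.o ⟨false,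
  1,⟨6,[(2,2),(1,0),(1,2),(0,4),(4,0),(8,2),(15,3)]⟩,⟨0,[(15,0),(23,0)]⟩⟩,.a ⟨true,0,⟨1,[(19,0),(8,
  0),(0,0)]⟩,⟨0,[(20,0)]⟩⟩ ⟨true,0,⟨0,[(39,0)]⟩,⟨0,[]⟩⟩ ⟨false,1,⟨6,[(2,2),(1,0),(1,2),(0,4),(4,0),
  (7,6),(0,2),(15,3)]⟩,⟨1,[(15,1),(3,0),(8,0),(0,0)]⟩⟩,.o ⟨false,0,⟨7,[(10,1),(8,3),(5,2),(0,0)]⟩,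
  ⟨1,[(20,1),(9,0),(5,0)]⟩⟩]⟩)) (.R ⟨0,false,false,false,[0,0,0,1],[1,-1],[1,1],(⟨0,[(19,0)]⟩,⟨1,
  [(18,0),(8,0),(0,0)]⟩),(⟨0,[(30,0)]⟩,⟨0,[(31,0)]⟩),⟨1,[(4,0),(7,0),(5,0)]⟩,.k,.k,(.r (-1) ⟨0,[(5,
  0),(32,0)]⟩ ⟨0,[(1,0),(8,0)]⟩),(.r (-1) ⟨5,[(10,1),(2,1),(2,0),(0,3),(6,1),(11,0)]⟩ ⟨0,[(1,0),(24,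
  0)]⟩),.k,.k,⟨false,0,⟨0,[(33,0)]⟩,⟨5,[(1,1),(3,3),(10,0),(9,1),(9,0)]⟩⟩,⟨true,0,⟨2,[(3,0),(5,0),
  (9,2)]⟩,⟨1,[(18,0),(8,0),(0,0)]⟩⟩,⟨false,0,⟨1,[(1,1),(8,0),(15,0)]⟩,⟨1,[(17,0),(18,0)]⟩⟩,⟨true,0,
  ⟨2,[(1,2),(4,0),(2,0),(5,0),(3,2),(6,0)]⟩,⟨1,[(0,1),(17,0),(8,0),(0,0),(3,1)]⟩⟩,⟨false,0,⟨0,[]⟩,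
  ⟨0,[]⟩⟩,⟨false,0,⟨0,[]⟩,⟨0,[]⟩⟩,[.o ⟨false,0,⟨0,[(8,0)]⟩,⟨3,[(16,0),(0,0),(15,3),(2,1)]⟩⟩,.o
  ⟨false,1,⟨11,[(3,1),(1,5),(2,5),(0,1),(6,2),(19,2)]⟩,⟨0,[(33,0)]⟩⟩,.a ⟨true,0,⟨1,[(18,0),(8,0),(0,
  0)]⟩,⟨0,[(19,0)]⟩⟩ ⟨false,0,⟨0,[]⟩,⟨3,[(16,0),(0,0),(18,1)]⟩⟩ ⟨true,0,⟨0,[(8,0),(10,0)]⟩,⟨1,[(13,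
  0),(0,0),(3,0),(19,0)]⟩⟩,.o ⟨false,0,⟨7,[(9,1),(8,3),(5,2),(0,0)]⟩,⟨1,[(19,1),(9,0),(5,0)]⟩⟩]⟩))
  (.I [0,0,-1,-1,0,0,0,-1,1] (.Q [0,-1,0,1,0,0,1,1,1,2,-1,-1] (.p false [-1,1,1] [1,0,0,-1] (⟨0,
  [(12,0)]⟩,⟨0,[(27,0),(2,0)]⟩) .k 2 (⟨1,[(18,0),(8,0),(0,0)]⟩,⟨0,[(19,0)]⟩) .k (.r 0 ⟨1,[(0,0),(0,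
  0),(24,1)]⟩ ⟨3,[(0,1),(12,1),(2,2),(7,1),(11,0)]⟩)) (.R ⟨0,false,false,true,[0,0,0,1],[2,-1,-1],
  [0,1,0,0,0,0,0,0,1],(⟨0,[(20,0)]⟩,⟨1,[(19,0),(8,0),(0,0)]⟩),(⟨0,[(28,0),(2,0)]⟩,⟨0,[(13,0)]⟩),⟨1,
  [(5,0),(7,0),(5,0)]⟩,.k,.k,(.r 0 ⟨0,[(1,0),(25,0)]⟩ ⟨5,[(11,1),(2,1),(2,3),(0,0),(6,1),(11,0)]⟩),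
  (.r 0 ⟨2,[(0,1),(0,0),(1,3),(3,5),(12,1),(6,1),(3,11),(0,11),(0,1)]⟩ ⟨0,[(1,0),(15,0)]⟩),.k,.k,
  ⟨false,0,⟨3,[(0,1),(0,0),(0,0),(4,1),(12,1),(6,1),(5,1)]⟩,⟨0,[(1,0),(15,0)]⟩⟩,⟨true,0,⟨0,[(7,0),
  (12,0)]⟩,⟨1,[(3,1),(15,0),(8,4),(0,4)]⟩⟩,⟨true,0,⟨0,[(39,0)]⟩,⟨0,[]⟩⟩,⟨false,1,⟨1,[(9,1),(7,0),(2,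
  1),(0,1),(15,0)]⟩,⟨0,[(0,0)]⟩⟩,⟨false,0,⟨0,[]⟩,⟨0,[]⟩⟩,⟨false,0,⟨0,[]⟩,⟨0,[]⟩⟩,[.o ⟨false,0,⟨0,
  [(9,0),(11,0)]⟩,⟨3,[(15,3),(1,0),(0,0),(18,1)]⟩⟩,.o ⟨false,1,⟨5,[(6,1),(0,1),(1,1),(2,1),(4,0),(3,
  3),(8,0),(6,1)]⟩,⟨0,[(15,0)]⟩⟩,.a ⟨true,0,⟨1,[(19,0),(8,0),(0,0)]⟩,⟨0,[(20,0)]⟩⟩ ⟨false,0,⟨1,[(1,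
  0),(0,0)]⟩,⟨1,[(17,0),(19,0)]⟩⟩ ⟨true,0,⟨0,[(9,0),(10,0),(0,0)]⟩,⟨1,[(15,1),(3,0),(8,0),(0,0)]⟩⟩,
  .o ⟨false,0,⟨7,[(10,1),(8,3),(5,2),(0,0)]⟩,⟨1,[(20,1),(9,0),(5,0)]⟩⟩]⟩) (.R ⟨0,false,false,true,
  [0,0,0,1],[2,-1,-1],[],(⟨0,[(20,0)]⟩,⟨1,[(19,0),(8,0),(0,0)]⟩),(⟨0,[(28,0),(2,0)]⟩,⟨0,[(13,0)]⟩),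
  ⟨1,[(5,0),(7,0),(5,0)]⟩,.k,.k,(.r 0 ⟨0,[(1,0),(25,0)]⟩ ⟨5,[(11,1),(2,1),(2,3),(0,0),(6,1),(11,
  0)]⟩),(.r 0 ⟨0,[(1,0),(5,1),(7,1),(15,1),(0,1)]⟩ ⟨0,[(1,0),(15,0)]⟩),.k,.k,⟨false,1,⟨1,[(11,0),
  (15,0),(8,0),(0,0)]⟩,⟨1,[(0,1),(0,1),(13,1),(3,0),(8,0),(0,0)]⟩⟩,⟨true,0,⟨0,[(7,0),(12,0)]⟩,⟨1,
  [(3,1),(15,0),(8,4),(0,4)]⟩⟩,⟨false,1,⟨1,[(17,0),(19,0)]⟩,⟨1,[(1,0),(0,0)]⟩⟩,⟨true,0,⟨0,[(0,0)]⟩,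
  ⟨1,[(1,0),(0,0),(12,1),(3,0),(8,0),(0,0)]⟩⟩,⟨false,0,⟨0,[]⟩,⟨0,[]⟩⟩,⟨false,0,⟨0,[]⟩,⟨0,[]⟩⟩,[.o
  ⟨false,0,⟨0,[(9,0),(11,0)]⟩,⟨3,[(15,3),(1,0),(0,0),(18,1)]⟩⟩,.o ⟨false,1,⟨25,[(0,11),(0,3),(4,7),
  (3,5),(1,1),(6,5),(4,7),(5,10),(6,6)]⟩,⟨0,[(15,0)]⟩⟩,.a ⟨true,0,⟨1,[(19,0),(8,0),(0,0)]⟩,⟨0,[(20,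
  0)]⟩⟩ ⟨false,1,⟨3,[(17,0),(0,0),(18,1)]⟩,⟨0,[]⟩⟩ ⟨true,0,⟨1,[(0,1),(0,0),(0,0)]⟩,⟨1,[(15,1),(3,0),
  (8,0),(0,0)]⟩⟩,.o ⟨false,0,⟨7,[(10,1),(8,3),(5,2),(0,0)]⟩,⟨1,[(20,1),(9,0),(5,0)]⟩⟩]⟩)) (.Q [0,1,
  0,0,0,0,-1,-1,1,0,1,-1] (.p true [0,0,1] [0,0,0,1] (⟨0,[(28,0)]⟩,⟨0,[(27,0)]⟩) .k 2 (⟨0,[(19,0)]⟩,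
  ⟨1,[(18,0),(8,0),(0,0)]⟩) .k (.x 0 ⟨0,[(2,0),(24,0),(0,1)]⟩ ⟨3,[(16,0),(0,0),(3,3),(5,3),(7,
  1)]⟩)) (.Q [0,0,0,-1,0,0,0,0,1,0,0,-1] (.p false [0,0,0,1] [] (⟨0,[(20,0)]⟩,⟨1,[(19,0),(8,0),(0,
  0)]⟩) .k 0 (⟨0,[]⟩,⟨0,[]⟩) .k .k) (.I [0,0,1,1,0,0,0,0,-1] (.Q [0,0,0,1,0,0,1,1,-1,1,-1,1] (.p
  false [-1,1,1] [0,0,0,1] (⟨0,[(15,0)]⟩,⟨0,[(30,0),(2,0)]⟩) .k 2 (⟨0,[(22,0)]⟩,⟨1,[(21,0),(8,0),(0,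
  0)]⟩) .k (.x 0 ⟨0,[(5,0),(24,0),(0,1)]⟩ ⟨3,[(19,0),(0,0),(3,3),(5,3),(7,1)]⟩)) (.R ⟨0,false,false,
  false,[0,0,0,1],[0,0,1],[0,1,1],(⟨0,[(23,0)]⟩,⟨1,[(22,0),(8,0),(0,0)]⟩),(⟨0,[(32,0)]⟩,⟨0,[(31,
  0)]⟩),⟨1,[(8,0),(7,0),(5,0)]⟩,.k,.k,(.r (-1) ⟨0,[(9,0),(32,0)]⟩ ⟨0,[(1,0)]⟩),.k,.k,.k,⟨false,0,⟨1,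
  [(6,0),(8,0),(1,0),(13,0),(0,0)]⟩,⟨1,[(30,1),(8,0),(0,0)]⟩⟩,⟨true,0,⟨0,[(6,0),(16,0),(7,0),(0,
  0)]⟩,⟨1,[(22,0),(2,0),(3,0)]⟩⟩,⟨false,0,⟨0,[(1,0),(36,0)]⟩,⟨0,[(2,0),(20,0),(12,0),(3,0)]⟩⟩,⟨true,
  0,⟨0,[(0,0),(11,0)]⟩,⟨0,[(3,0)]⟩⟩,⟨false,0,⟨0,[]⟩,⟨0,[]⟩⟩,⟨false,0,⟨0,[]⟩,⟨0,[]⟩⟩,[.o ⟨false,0,⟨2,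
  [(6,0),(12,0),(10,0)]⟩,⟨1,[(27,1),(5,0),(6,0)]⟩⟩,.o ⟨false,1,⟨7,[(19,3),(0,0),(0,0),(11,1),(6,
  3)]⟩,⟨0,[(24,0)]⟩⟩,.a ⟨true,0,⟨1,[(22,0),(8,0),(0,0)]⟩,⟨0,[(23,0)]⟩⟩ ⟨false,0,⟨1,[(28,0),(0,0)]⟩,
  ⟨1,[(39,0),(0,0)]⟩⟩ ⟨true,0,⟨2,[(6,0),(12,0),(3,2),(6,0)]⟩,⟨1,[(22,0),(1,0),(2,0)]⟩⟩,.o ⟨false,0,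
  ⟨7,[(13,1),(8,3),(5,2),(0,0)]⟩,⟨1,[(23,1),(9,0),(5,0)]⟩⟩]⟩) (.R ⟨0,false,false,true,[0,0,0,1],[0,
  1],[1,1,1,1],(⟨0,[(23,0)]⟩,⟨1,[(22,0),(8,0),(0,0)]⟩),(⟨0,[(35,0)]⟩,⟨0,[(34,0)]⟩),⟨1,[(8,0),(7,0),
  (5,0)]⟩,.k,.k,(.r (-1) ⟨0,[(9,0),(32,0)]⟩ ⟨0,[(1,0)]⟩),(.r (-1) ⟨0,[(9,0),(32,0)]⟩ ⟨0,[(1,0)]⟩),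
  .k,.k,⟨true,0,⟨0,[]⟩,⟨1,[(28,0),(0,0)]⟩⟩,⟨false,1,⟨0,[(23,0),(15,0)]⟩,⟨7,[(13,1),(8,3),(5,2),(0,
  0)]⟩⟩,⟨false,0,⟨0,[(1,0)]⟩,⟨0,[(9,0)]⟩⟩,⟨true,0,⟨0,[(1,0),(21,0),(12,0),(1,0)]⟩,⟨0,[(2,0)]⟩⟩,
  ⟨false,0,⟨0,[]⟩,⟨0,[]⟩⟩,⟨false,0,⟨0,[]⟩,⟨0,[]⟩⟩,[.o ⟨false,0,⟨0,[(37,0)]⟩,⟨11,[(7,1),(1,5),(2,5),
  (0,1),(6,2),(19,2)]⟩⟩,.o ⟨false,1,⟨3,[(20,0),(0,0),(15,3),(2,1)]⟩,⟨0,[(12,0)]⟩⟩,.a ⟨true,0,⟨1,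
  [(22,0),(8,0),(0,0)]⟩,⟨0,[(23,0)]⟩⟩ ⟨false,0,⟨0,[(0,0),(0,0),(16,0),(4,0)]⟩,⟨1,[(38,1),(0,0),(0,
  0)]⟩⟩ ⟨true,0,⟨0,[(23,0),(13,0)]⟩,⟨1,[(12,0),(9,0),(15,0)]⟩⟩,.o ⟨false,0,⟨7,[(13,1),(8,3),(5,2),
  (0,0)]⟩,⟨1,[(23,1),(9,0),(5,0)]⟩⟩]⟩)) (.Q [0,0,0,0,0,0,-1,-1,1,0,1,-1] (.p true [0,0,1] [0,0,0,1]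
  (⟨0,[(31,0)]⟩,⟨0,[(30,0)]⟩) .k 2 (⟨0,[(22,0)]⟩,⟨1,[(21,0),(8,0),(0,0)]⟩) .k (.x 0 ⟨0,[(5,0),(24,
  0),(0,1)]⟩ ⟨3,[(19,0),(0,0),(3,3),(5,3),(7,1)]⟩)) (.R ⟨0,false,false,false,[0,0,0,1],[0,0,1],[0,1,
  0,0,0,0,0,0,1],(⟨0,[(23,0)]⟩,⟨1,[(22,0),(8,0),(0,0)]⟩),(⟨0,[(32,0)]⟩,⟨0,[(31,0)]⟩),⟨1,[(8,0),(7,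
  0),(5,0)]⟩,.k,.k,(.x 0 ⟨2,[(7,0),(5,0),(20,2)]⟩ ⟨3,[(20,0),(0,0),(13,3),(3,1)]⟩),.k,.k,.k,⟨false,
  0,⟨2,[(0,1),(0,0),(4,1),(8,0),(7,1),(7,1),(0,1),(3,1)]⟩,⟨1,[(20,0),(9,1),(9,0)]⟩⟩,⟨true,0,⟨0,[(6,
  0),(16,0),(7,0),(0,0)]⟩,⟨1,[(22,0),(2,0),(3,0)]⟩⟩,⟨true,0,⟨0,[(42,0)]⟩,⟨0,[]⟩⟩,⟨false,1,⟨5,[(6,1),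
  (12,1),(0,2),(2,5),(6,1),(9,2)]⟩,⟨0,[(0,0)]⟩⟩,⟨false,0,⟨0,[]⟩,⟨0,[]⟩⟩,⟨false,0,⟨0,[]⟩,⟨0,[]⟩⟩,[.o
  ⟨false,0,⟨2,[(6,0),(12,0),(10,0)]⟩,⟨1,[(27,1),(5,0),(6,0)]⟩⟩,.o ⟨false,1,⟨7,[(19,3),(0,0),(0,0),
  (11,1),(6,3)]⟩,⟨0,[(24,0)]⟩⟩,.a ⟨true,0,⟨1,[(22,0),(8,0),(0,0)]⟩,⟨0,[(23,0)]⟩⟩ ⟨false,0,⟨7,[(0,2),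
  (0,2),(3,1),(0,0),(11,0),(4,2),(4,0)]⟩,⟨1,[(20,0),(19,0)]⟩⟩ ⟨true,0,⟨2,[(6,0),(12,0),(3,2),(6,
  0)]⟩,⟨1,[(22,0),(1,0),(2,0)]⟩⟩,.o ⟨false,0,⟨7,[(13,1),(8,3),(5,2),(0,0)]⟩,⟨1,[(23,1),(9,0),(5,
  0)]⟩⟩]⟩) (.Q [0,1,0,-1,0,0,-1,-1,-1,-2,1,1] (.p true [-1,1,1] [1,0,0,-1] (⟨0,[(16,0)]⟩,⟨0,[(31,0),
  (2,0)]⟩) .k 2 (⟨1,[(22,0),(8,0),(0,0)]⟩,⟨0,[(23,0)]⟩) .k (.r 0 ⟨1,[(1,0),(3,0),(24,0)]⟩ ⟨3,[(0,1),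
  (5,0),(8,2),(1,2),(2,0),(1,0),(17,2)]⟩)) (.I [1,-1,0,1,1,0,0,0,-1] (.R ⟨0,false,false,false,[0,0,
  0,1],[0,0,1],[0,1,0,-1,0,0,0,0,1],(⟨0,[(25,0)]⟩,⟨1,[(24,0),(8,0),(0,0)]⟩),(⟨0,[(34,0)]⟩,⟨0,[(33,
  0)]⟩),⟨1,[(10,0),(7,0),(5,0)]⟩,.k,.k,(.x 0 ⟨2,[(9,0),(5,0),(20,2)]⟩ ⟨3,[(22,0),(0,0),(13,3),(3,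
  1)]⟩),.k,.k,.k,⟨false,0,⟨1,[(3,1),(4,0),(8,0),(1,0),(13,0),(0,0)]⟩,⟨0,[(0,0),(31,0)]⟩⟩,⟨true,0,⟨0,
  [(8,0),(16,0),(7,0),(0,0)]⟩,⟨1,[(24,0),(2,0),(3,0)]⟩⟩,⟨false,0,⟨0,[(40,0)]⟩,⟨19,[(0,5),(7,1),(7,
  1),(2,3),(0,1),(2,2),(14,3),(3,10)]⟩⟩,⟨true,0,⟨0,[(2,0)]⟩,⟨0,[(5,0)]⟩⟩,⟨false,0,⟨0,[]⟩,⟨0,[]⟩⟩,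
  ⟨false,0,⟨0,[]⟩,⟨0,[]⟩⟩,[.o ⟨false,0,⟨2,[(8,0),(12,0),(10,0)]⟩,⟨1,[(29,1),(5,0),(6,0)]⟩⟩,.o
  ⟨false,1,⟨7,[(21,3),(0,0),(0,0),(11,1),(6,3)]⟩,⟨0,[(26,0)]⟩⟩,.a ⟨true,0,⟨1,[(24,0),(8,0),(0,0)]⟩,
  ⟨0,[(25,0)]⟩⟩ ⟨false,0,⟨0,[(4,0),(20,0)]⟩,⟨0,[(0,0)]⟩⟩ ⟨true,0,⟨4,[(2,1),(0,0),(3,0),(0,0),(12,0),
  (3,2)]⟩,⟨3,[(1,0),(3,0),(13,0),(4,1),(4,0)]⟩⟩,.o ⟨false,0,⟨7,[(15,1),(8,3),(5,2),(0,0)]⟩,⟨1,[(25,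
  1),(9,0),(5,0)]⟩⟩]⟩) (.R ⟨0,false,false,true,[0,0,0,1],[0,0,1],[1,0,0,0,0,0,0,0,1],(⟨0,[(25,0)]⟩,
  ⟨1,[(24,0),(8,0),(0,0)]⟩),(⟨0,[(34,0)]⟩,⟨0,[(33,0)]⟩),⟨1,[(10,0),(7,0),(5,0)]⟩,.k,.k,(.x 0 ⟨2,[(9,
  0),(5,0),(20,2)]⟩ ⟨3,[(22,0),(0,0),(13,3),(3,1)]⟩),.k,.k,.k,⟨false,1,⟨0,[(3,0),(4,0),(10,0),(13,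
  0),(0,0),(7,0)]⟩,⟨2,[(0,1),(5,0),(15,1),(9,1),(5,0)]⟩⟩,⟨true,0,⟨0,[(8,0),(16,0),(7,0),(0,0)]⟩,⟨1,
  [(24,0),(2,0),(3,0)]⟩⟩,⟨true,0,⟨0,[]⟩,⟨0,[(44,0)]⟩⟩,⟨false,0,⟨0,[(2,0)]⟩,⟨0,[(5,0),(36,0)]⟩⟩,
  ⟨false,0,⟨0,[]⟩,⟨0,[]⟩⟩,⟨false,0,⟨0,[]⟩,⟨0,[]⟩⟩,[.o ⟨false,0,⟨0,[(28,0)]⟩,⟨0,[(26,0),(15,0)]⟩⟩,.o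
  ⟨false,0,⟨2,[(8,0),(12,0),(10,0)]⟩,⟨1,[(29,1),(5,0),(6,0)]⟩⟩,.a ⟨true,0,⟨1,[(24,0),(8,0),(0,0)]⟩,
  ⟨0,[(25,0)]⟩⟩ ⟨true,0,⟨11,[(0,5),(2,1),(3,1),(0,1),(10,3),(0,1),(2,0),(18,4)]⟩,⟨5,[(0,1),(0,0),(0,
  2),(16,1),(2,1),(1,1),(14,0)]⟩⟩ ⟨false,0,⟨4,[(2,1),(0,0),(3,0),(0,0),(12,0),(3,2)]⟩,⟨3,[(1,0),(3,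
  0),(13,0),(4,1),(4,0),(12,3)]⟩⟩,.o ⟨false,0,⟨7,[(15,1),(8,3),(5,2),(0,0)]⟩,⟨1,[(25,1),(9,0),(5,
  0)]⟩⟩]⟩)) (.R ⟨0,false,false,false,[0,0,0,1],[0,0,1],[],(⟨0,[(24,0)]⟩,⟨1,[(23,0),(8,0),(0,0)]⟩),
  (⟨0,[(33,0)]⟩,⟨0,[(32,0)]⟩),⟨1,[(9,0),(7,0),(5,0)]⟩,.k,.k,(.x 0 ⟨2,[(8,0),(5,0),(20,2)]⟩ ⟨3,[(21,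
  0),(0,0),(13,3),(3,1)]⟩),.k,.k,.k,⟨false,1,⟨0,[(16,0),(20,0),(3,0)]⟩,⟨0,[(31,0)]⟩⟩,⟨true,0,⟨0,[(7,
  0),(16,0),(7,0),(0,0)]⟩,⟨1,[(23,0),(2,0),(3,0)]⟩⟩,⟨false,1,⟨1,[(21,0),(19,0)]⟩,⟨8,[(0,2),(1,3),(1,
  1),(3,1),(2,1),(6,0),(5,4)]⟩⟩,⟨true,0,⟨0,[(1,0)]⟩,⟨0,[(4,0)]⟩⟩,⟨false,0,⟨0,[]⟩,⟨0,[]⟩⟩,⟨false,0,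
  ⟨0,[]⟩,⟨0,[]⟩⟩,[.o ⟨false,0,⟨2,[(7,0),(12,0),(10,0)]⟩,⟨1,[(28,1),(5,0),(6,0)]⟩⟩,.o ⟨false,1,⟨7,
  [(20,3),(0,0),(0,0),(11,1),(6,3)]⟩,⟨0,[(25,0)]⟩⟩,.a ⟨true,0,⟨1,[(23,0),(8,0),(0,0)]⟩,⟨0,[(24,
  0)]⟩⟩ ⟨false,1,⟨3,[(21,0),(0,0),(18,1)]⟩,⟨0,[]⟩⟩ ⟨true,0,⟨4,[(1,1),(0,0),(3,0),(0,0),(12,0),(3,
  2)]⟩,⟨1,[(23,0),(1,0),(2,0)]⟩⟩,.o ⟨false,0,⟨7,[(14,1),(8,3),(5,2),(0,0)]⟩,⟨1,[(24,1),(9,0),(5,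
  0)]⟩⟩]⟩)))) (.R ⟨0,false,false,false,[0,0,0,1],[0,0,1],[0,0,0,0,0,0,0,0,1],(⟨0,[(21,0)]⟩,⟨1,[(20,
  0),(8,0),(0,0)]⟩),(⟨0,[(30,0)]⟩,⟨0,[(29,0)]⟩),⟨1,[(6,0),(7,0),(5,0)]⟩,.k,.k,(.r (-1) ⟨0,[(7,0),
  (32,0)]⟩ ⟨7,[(0,7),(10,1),(8,3),(5,2),(0,0)]⟩),.k,.k,.k,⟨false,1,⟨0,[(4,0),(2,0),(7,0),(13,0),(0,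
  0)]⟩,⟨1,[(0,1),(9,0),(9,0),(7,1),(7,0)]⟩⟩,⟨true,0,⟨0,[(4,0),(16,0),(7,0),(0,0)]⟩,⟨1,[(20,0),(2,0),
  (3,0)]⟩⟩,⟨false,1,⟨3,[(18,0),(0,0),(18,1)]⟩,⟨0,[]⟩⟩,⟨true,0,⟨1,[(0,1),(9,0),(6,0),(18,0)]⟩,⟨0,[(1,
  0)]⟩⟩,⟨false,0,⟨0,[]⟩,⟨0,[]⟩⟩,⟨false,0,⟨0,[]⟩,⟨0,[]⟩⟩,[.o ⟨false,0,⟨2,[(4,0),(12,0),(10,0)]⟩,⟨1,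
  [(25,1),(5,0),(6,0)]⟩⟩,.o ⟨false,1,⟨7,[(17,3),(0,0),(0,0),(11,1),(6,3)]⟩,⟨0,[(22,0)]⟩⟩,.a ⟨true,0,
  ⟨1,[(20,0),(8,0),(0,0)]⟩,⟨0,[(21,0)]⟩⟩ ⟨false,1,⟨1,[(19,0),(18,0)]⟩,⟨1,[(0,1),(9,0),(9,0),(15,
  0)]⟩⟩ ⟨true,0,⟨2,[(4,0),(12,0),(3,2),(6,0)]⟩,⟨1,[(20,0),(1,0),(2,0)]⟩⟩,.o ⟨false,0,⟨7,[(11,1),(8,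
  3),(5,2),(0,0)]⟩,⟨1,[(21,1),(9,0),(5,0)]⟩⟩]⟩)) (.R ⟨0,false,false,false,[0,0,0,1],[0,0,1],[1,0,0,
  0,0,0,0,0,1],(⟨0,[(20,0)]⟩,⟨1,[(19,0),(8,0),(0,0)]⟩),(⟨0,[(29,0)]⟩,⟨0,[(28,0)]⟩),⟨1,[(5,0),(7,0),
  (5,0)]⟩,.k,.k,(.r (-1) ⟨0,[(6,0),(32,0)]⟩ ⟨7,[(0,7),(9,1),(3,7),(4,3),(5,2),(0,0)]⟩),.k,.k,.k,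
  ⟨false,1,⟨0,[(3,0),(2,0),(7,0),(13,0),(0,0)]⟩,⟨1,[(0,1),(18,0),(1,0),(2,0),(2,1)]⟩⟩,⟨true,0,⟨0,
  [(3,0),(16,0),(7,0),(0,0)]⟩,⟨1,[(19,0),(2,0),(3,0)]⟩⟩,⟨true,0,⟨0,[]⟩,⟨0,[(39,0)]⟩⟩,⟨false,0,⟨0,
  [(0,0)]⟩,⟨1,[(18,0),(0,0),(1,0),(2,0),(12,0)]⟩⟩,⟨false,0,⟨0,[]⟩,⟨0,[]⟩⟩,⟨false,0,⟨0,[]⟩,⟨0,[]⟩⟩,
  [.o ⟨false,0,⟨2,[(3,0),(12,0),(10,0)]⟩,⟨1,[(24,1),(5,0),(6,0)]⟩⟩,.o ⟨false,1,⟨7,[(16,3),(0,0),(0,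
  0),(11,1),(6,3)]⟩,⟨0,[(21,0)]⟩⟩,.a ⟨true,0,⟨1,[(19,0),(8,0),(0,0)]⟩,⟨0,[(20,0)]⟩⟩ ⟨false,1,⟨1,
  [(18,0),(18,0)]⟩,⟨1,[(0,1),(18,0),(1,0),(2,0)]⟩⟩ ⟨true,0,⟨7,[(0,0),(1,0),(0,0),(5,1),(6,2),(3,6),
  (12,0)]⟩,⟨1,[(19,0),(1,0),(2,0)]⟩⟩,.o ⟨false,0,⟨7,[(10,1),(8,3),(5,2),(0,0)]⟩,⟨1,[(20,1),(9,0),(5,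
  0)]⟩⟩]⟩))))))

theorem ok4 : chk (cU (-1) false 3) t4 l10 = true := by decide +kernel

noncomputable def t7 : Tre :=
  (.I [1,1,0,0,0,0,0,0,1] (.Q [0,0,0,0,0,0,-1,-1,-1,-1,1,1] (.p true [0,0,1] [1,0,0,-1] (⟨0,[(28,
  0)]⟩,⟨0,[(27,0)]⟩) .k 2 (⟨1,[(18,0),(8,0),(0,0)]⟩,⟨0,[(19,0)]⟩) .k (.x 0 ⟨0,[(2,0),(25,0)]⟩ ⟨3,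
  [(16,0),(0,0),(3,3),(5,3),(7,1)]⟩)) (.K ⟨2,[1,0,0,-1],0,0,(⟨1,[(19,0),(8,0),(0,0)]⟩,⟨0,[(20,0)]⟩),
  .k,(.r 0 ⟨3,[(0,3),(2,1),(0,1),(11,0),(2,1),(8,0),(0,0)]⟩ ⟨5,[(11,1),(2,1),(2,0),(0,3),(6,1),(11,
  0)]⟩),(.r 0 ⟨5,[(0,5),(10,1),(3,1),(0,0),(2,2),(5,1)]⟩ ⟨7,[(4,1),(1,1),(5,1),(4,0),(0,3),(17,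
  0)]⟩),.k,.k,[⟨0,[(0,0)]⟩,⟨1,[(1,1),(17,0),(8,0),(0,0)]⟩,⟨1,[(19,0),(5,0),(0,0),(1,0),(0,0)]⟩,⟨1,
  [(7,0),(12,1),(4,0)]⟩]⟩) (.I [0,1,1,0,0,0,0,-2] (.Q [0,-1,0,-1,0,0,1,1,0,1,-1] (.p false [0,0,1]
  [1] (⟨0,[(30,0)]⟩,⟨0,[(29,0)]⟩) .k 1 (⟨0,[]⟩,⟨0,[]⟩) .k .k) (.R ⟨0,false,false,true,[-1,1,1],[1,1,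
  -1],[0,1,2,1,0,0,0,-1],(⟨0,[(15,0)]⟩,⟨0,[(30,0),(2,0)]⟩),(⟨0,[(30,0),(3,0)]⟩,⟨0,[(7,0)]⟩),⟨0,[(30,
  0)]⟩,.k,.k,.k,.k,.k,.k,⟨true,0,⟨1,[(27,0),(0,0)]⟩,⟨0,[]⟩⟩,⟨false,1,⟨3,[(4,1),(4,1),(6,1),(7,3),
  (13,2),(0,0)]⟩,⟨0,[(5,1),(24,1),(0,1)]⟩⟩,⟨true,0,⟨0,[(1,0)]⟩,⟨1,[(4,1),(8,0),(15,0)]⟩⟩,⟨false,1,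
  ⟨0,[(23,1),(15,0)]⟩,⟨0,[(0,0),(16,0)]⟩⟩,⟨false,0,⟨0,[]⟩,⟨0,[]⟩⟩,⟨false,0,⟨0,[]⟩,⟨0,[]⟩⟩,[.a ⟨true,
  0,⟨0,[(16,0)]⟩,⟨0,[(0,0)]⟩⟩ ⟨false,0,⟨2,[(1,1),(11,0),(21,0)]⟩,⟨3,[(4,3),(14,0),(0,0),(18,1)]⟩⟩
  ⟨true,0,⟨0,[(9,0),(6,0)]⟩,⟨0,[(0,0),(4,0),(24,0),(0,0)]⟩⟩,.o ⟨false,1,⟨1,[(16,1),(15,0),(6,0)]⟩,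
  ⟨10,[(0,1),(5,0),(4,4),(0,0),(1,1),(3,4)]⟩⟩,.o ⟨false,1,⟨7,[(0,3),(0,3),(15,3),(1,0),(0,0),(17,
  5)]⟩,⟨0,[(9,0)]⟩⟩,.o ⟨false,0,⟨0,[(5,0),(24,0),(0,0)]⟩,⟨1,[(24,1),(7,0),(5,0)]⟩⟩]⟩) (.I [1,-1,0,
  -1,0,0,0,0,1] (.Q [0,0,0,0,0,1,0,0,0,0,0,-1] (.p false [0,0,0,1] [] (⟨0,[(23,0)]⟩,⟨1,[(22,0),(8,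
  0),(0,0)]⟩) .k 0 (⟨0,[]⟩,⟨0,[]⟩) .k .k) (.R ⟨0,false,false,false,[0,0,0,1],[1,-1],[1,0,0,-1,0,0,0,
  0,1],(⟨0,[(24,0)]⟩,⟨1,[(23,0),(8,0),(0,0)]⟩),(⟨0,[(35,0)]⟩,⟨0,[(36,0)]⟩),⟨0,[(0,0)]⟩,.k,.k,(.r 0
  ⟨5,[(1,4),(1,0),(1,0),(2,1),(28,2)]⟩ ⟨7,[(3,1),(11,3),(5,4),(0,0),(17,0),(0,0)]⟩),(.r 0 ⟨14,[(1,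
  12),(0,7),(0,2),(1,1),(9,5),(3,7)]⟩ ⟨7,[(8,1),(1,1),(5,1),(4,4),(18,0)]⟩),.k,.k,⟨false,0,⟨2,[(1,
  1),(0,0),(2,0),(13,0)]⟩,⟨1,[(21,0),(18,0)]⟩⟩,⟨true,0,⟨1,[(11,0),(12,1),(4,0)]⟩,⟨1,[(23,0),(8,0),
  (0,0)]⟩⟩,⟨true,0,⟨0,[(39,0)]⟩,⟨0,[(38,0)]⟩⟩,⟨false,1,⟨1,[(13,1),(7,0),(2,1),(16,0)]⟩,⟨1,[(1,1),(0,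
  0),(15,0),(0,1),(3,0)]⟩⟩,⟨false,0,⟨0,[]⟩,⟨0,[]⟩⟩,⟨false,0,⟨0,[]⟩,⟨0,[]⟩⟩,[.o ⟨false,0,⟨0,[(13,
  0)]⟩,⟨7,[(3,1),(11,3),(5,0),(0,0),(17,4),(0,0)]⟩⟩,.o ⟨false,1,⟨13,[(10,5),(2,7),(0,1),(6,2),(7,1),
  (4,0),(6,3)]⟩,⟨0,[(38,0)]⟩⟩,.a ⟨true,0,⟨1,[(23,0),(8,0),(0,0)]⟩,⟨0,[(24,0)]⟩⟩ ⟨false,0,⟨0,[(1,
  0)]⟩,⟨1,[(21,0),(16,1),(2,0)]⟩⟩ ⟨true,0,⟨0,[(13,0),(10,0)]⟩,⟨1,[(18,0),(0,0),(3,0),(19,0)]⟩⟩,.o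
  ⟨false,0,⟨7,[(14,1),(8,3),(5,2),(0,0)]⟩,⟨1,[(24,1),(9,0),(5,0)]⟩⟩]⟩) (.I [1,0,-1,-1] (.I [1,1,0,0,
  0,0,0,0,-1] (.K ⟨2,[0,0,0,1],0,0,(⟨0,[(26,0)]⟩,⟨1,[(25,0),(8,0),(0,0)]⟩),.k,(.r 0 ⟨5,[(3,4),(1,0),
  (1,0),(2,1),(28,2)]⟩ ⟨7,[(5,1),(11,3),(5,4),(0,0),(17,0),(0,0)]⟩),(.r 0 ⟨14,[(3,12),(0,7),(0,2),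
  (1,1),(9,5),(3,7)]⟩ ⟨7,[(10,1),(1,1),(5,1),(4,4),(18,0)]⟩),.k,.k,[⟨1,[(3,1),(0,0),(15,0),(4,0)]⟩,
  ⟨0,[(0,0),(25,0)]⟩,⟨1,[(26,1),(4,0),(0,0)]⟩,⟨7,[(16,1),(8,3),(5,2),(0,0)]⟩]⟩) (.R ⟨1,false,false,
  true,[0,0,0,1],[2,-1,-1],[1,1,0,0,0,0,0,0,1],(⟨0,[(26,0)]⟩,⟨1,[(25,0),(8,0),(0,0)]⟩),(⟨0,[(34,0),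
  (2,0)]⟩,⟨0,[(19,0)]⟩),⟨0,[(2,0)]⟩,.k,.k,(.r 0 ⟨6,[(0,4),(4,1),(1,1),(2,3),(28,0)]⟩ ⟨7,[(5,1),(11,
  3),(5,4),(0,0),(17,0),(0,0)]⟩),(.r 0 ⟨1,[(0,0),(6,0),(9,0),(15,0)]⟩ ⟨3,[(1,3),(3,1),(17,1),(18,0),
  (0,0)]⟩),.k,.k,⟨false,0,⟨13,[(0,8),(6,4),(0,5),(8,7),(21,3)]⟩,⟨3,[(1,3),(3,1),(17,1),(18,0),(0,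
  0)]⟩⟩,⟨true,0,⟨0,[(13,0),(12,0)]⟩,⟨1,[(9,1),(15,0),(8,2),(0,2)]⟩⟩,⟨false,0,⟨0,[]⟩,⟨3,[(23,0),(0,
  0),(18,1)]⟩⟩,⟨false,1,⟨1,[(15,1),(7,0),(2,1),(0,1),(15,0)]⟩,⟨1,[(0,1),(20,1),(3,0),(8,0),(0,0)]⟩⟩,
  ⟨true,0,⟨0,[(40,0)]⟩,⟨0,[(41,0)]⟩⟩,⟨false,1,⟨1,[(4,1),(10,1),(7,0),(2,1),(16,0)]⟩,⟨1,[(3,1),(17,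
  1),(3,0),(8,0),(0,0)]⟩⟩,[.o ⟨false,0,⟨0,[(15,0),(11,0)]⟩,⟨3,[(21,3),(1,0),(0,0),(18,1)]⟩⟩,.o
  ⟨false,1,⟨5,[(12,1),(0,1),(1,1),(2,1),(4,0),(3,3),(8,0),(6,1)]⟩,⟨0,[(21,0)]⟩⟩,.a ⟨true,0,⟨1,[(25,
  0),(8,0),(0,0)]⟩,⟨0,[(26,0)]⟩⟩ ⟨false,0,⟨1,[(0,0),(6,0)]⟩,⟨1,[(23,0),(19,0)]⟩⟩ ⟨true,0,⟨0,[(15,0),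
  (10,0),(0,0)]⟩,⟨1,[(21,1),(3,0),(8,0),(0,0)]⟩⟩,.o ⟨false,0,⟨7,[(16,1),(8,3),(5,2),(0,0)]⟩,⟨1,[(26,
  1),(9,0),(5,0)]⟩⟩]⟩)) (.Q [0,-1,0,1,0,0,1,1,1,1,-1,-1] (.p false [0,0,1] [1,0,0,-1] (⟨0,[(34,0)]⟩,
  ⟨0,[(33,0)]⟩) .k 2 (⟨1,[(24,0),(8,0),(0,0)]⟩,⟨0,[(25,0)]⟩) .k (.r 0 ⟨1,[(2,0),(3,0),(0,0),(8,0)]⟩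
  ⟨3,[(4,1),(17,1),(18,0),(0,0)]⟩)) (.R ⟨1,false,false,false,[1,0,0,-1],[0,0,1],[0,0,0,-1,0,0,0,0,
  -1],(⟨1,[(25,0),(8,0),(0,0)]⟩,⟨0,[(26,0)]⟩),(⟨0,[(35,0)]⟩,⟨0,[(34,0)]⟩),⟨0,[(2,0),(22,0)]⟩,.k,.k,
  (.r (-1) ⟨7,[(10,1),(1,1),(5,1),(4,4),(18,0)]⟩ ⟨24,[(0,7),(2,10),(0,7),(0,4),(1,5),(9,9),(8,7)]⟩),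
  .k,(.r (-1) ⟨1,[(5,1),(2,1),(14,0),(19,0)]⟩ ⟨19,[(0,1),(2,8),(0,1),(2,8),(0,4),(8,14),(8,1)]⟩),.k,
  ⟨false,1,⟨1,[(5,1),(2,1),(14,0),(19,0)]⟩,⟨9,[(0,3),(2,2),(0,3),(2,2),(0,4),(8,4),(8,3)]⟩⟩,⟨true,0,
  ⟨1,[(9,1),(15,0),(8,0),(0,0)]⟩,⟨0,[(26,0),(1,0)]⟩⟩,⟨true,0,⟨0,[(41,0)]⟩,⟨0,[(40,0)]⟩⟩,⟨false,0,⟨3,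
  [(0,1),(2,1),(18,0),(2,0)]⟩,⟨1,[(23,0),(2,1),(0,1),(15,0)]⟩⟩,⟨false,1,⟨3,[(23,0),(0,0),(18,1)]⟩,
  ⟨0,[]⟩⟩,⟨false,0,⟨0,[(0,0)]⟩,⟨1,[(15,1),(7,0),(2,1),(3,1),(12,0)]⟩⟩,[.o ⟨false,0,⟨7,[(8,0),(0,2),
  (3,1),(7,0),(0,2)]⟩,⟨1,[(30,1),(5,0),(6,0)]⟩⟩,.o ⟨false,1,⟨7,[(22,3),(0,0),(0,0),(11,1),(6,3)]⟩,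
  ⟨0,[(27,0)]⟩⟩,.a ⟨true,0,⟨0,[(26,0)]⟩,⟨1,[(25,0),(8,0),(0,0)]⟩⟩ ⟨false,1,⟨0,[(3,0),(19,0)]⟩,⟨4,
  [(0,2),(2,0),(0,2),(2,0),(18,2)]⟩⟩ ⟨true,0,⟨1,[(22,0),(2,0)]⟩,⟨0,[(26,0),(0,0)]⟩⟩,.o ⟨false,0,⟨1,
  [(13,0),(12,1),(4,0)]⟩,⟨7,[(23,0),(0,0),(0,3),(10,1),(5,3)]⟩⟩]⟩) (.K ⟨2,[0,0,0,1],0,0,(⟨0,[(26,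
  0)]⟩,⟨1,[(25,0),(8,0),(0,0)]⟩),.k,(.r 0 ⟨5,[(3,4),(1,0),(1,0),(2,1),(28,2)]⟩ ⟨7,[(5,1),(11,3),(5,
  4),(0,0),(17,0),(0,0)]⟩),(.r 0 ⟨14,[(3,12),(0,7),(0,2),(1,1),(9,5),(3,7)]⟩ ⟨7,[(10,1),(1,1),(5,1),
  (4,4),(18,0)]⟩),.k,.k,[⟨1,[(3,1),(0,0),(15,0),(4,0)]⟩,⟨0,[(0,0),(20,0)]⟩,⟨1,[(26,1),(4,0),(0,0)]⟩,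
  ⟨7,[(16,1),(8,3),(5,2),(0,0)]⟩]⟩)))) (.I [0,0,1,1,0,0,0,0,-1] (.Q [0,-1,0,0,1,0,-1,-1,1,-1,1,-1]
  (.p true [-1,1,1] [0,0,0,1] (⟨0,[(17,0)]⟩,⟨0,[(32,0),(2,0)]⟩) .k 2 (⟨0,[(24,0)]⟩,⟨1,[(23,0),(8,0),
  (0,0)]⟩) .k (.r 0 ⟨1,[(0,1),(7,0),(22,0)]⟩ ⟨3,[(3,1),(18,1),(17,0),(0,0)]⟩)) (.Q [0,0,0,0,0,1,0,0,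
  0,0,0,-1] (.p false [0,0,0,1] [] (⟨0,[(25,0)]⟩,⟨1,[(24,0),(8,0),(0,0)]⟩) .k 0 (⟨0,[]⟩,⟨0,[]⟩) .k
  .k) (.I [1,0,0,-1,0,0,0,0,1] (.R ⟨0,false,false,false,[0,0,0,1],[0,0,1],[0,1,1],(⟨0,[(27,0)]⟩,⟨1,
  [(26,0),(8,0),(0,0)]⟩),(⟨0,[(36,0)]⟩,⟨0,[(35,0)]⟩),⟨0,[(1,0)]⟩,.k,.k,(.r (-1) ⟨7,[(11,1),(1,1),(5,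
  1),(4,0),(0,3),(17,0)]⟩ ⟨0,[(3,0)]⟩),.k,.k,.k,⟨false,0,⟨2,[(6,0),(12,0),(20,0)]⟩,⟨1,[(34,1),(8,0),
  (0,0)]⟩⟩,⟨true,0,⟨0,[(10,0),(16,0)]⟩,⟨1,[(26,0),(2,0),(3,0)]⟩⟩,⟨false,0,⟨0,[(3,0),(38,0)]⟩,⟨0,[(0,
  0),(39,0),(3,0)]⟩⟩,⟨true,0,⟨3,[(3,3),(5,0),(0,1),(0,0),(4,0),(6,0),(3,3)]⟩,⟨1,[(0,1),(4,0),(15,0),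
  (4,0)]⟩⟩,⟨false,0,⟨0,[]⟩,⟨0,[]⟩⟩,⟨false,0,⟨0,[]⟩,⟨0,[]⟩⟩,[.o ⟨false,0,⟨7,[(9,0),(0,2),(3,1),(7,0),
  (0,2)]⟩,⟨1,[(31,1),(5,0),(6,0)]⟩⟩,.o ⟨false,1,⟨7,[(23,3),(0,0),(0,0),(11,1),(6,3)]⟩,⟨0,[(28,0)]⟩⟩,
  .a ⟨true,0,⟨1,[(26,0),(8,0),(0,0)]⟩,⟨0,[(27,0)]⟩⟩ ⟨false,0,⟨1,[(32,0),(0,0)]⟩,⟨1,[(43,0),(0,0)]⟩⟩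
  ⟨true,0,⟨7,[(9,0),(0,2),(3,1),(7,0),(0,2),(3,7)]⟩,⟨1,[(26,0),(1,0),(2,0)]⟩⟩,.o ⟨false,0,⟨7,[(17,
  1),(8,3),(5,2),(0,0)]⟩,⟨1,[(27,1),(9,0),(5,0)]⟩⟩]⟩) (.R ⟨0,false,false,true,[0,0,0,1],[0,0,1],[0,
  1,0,0,0,0,0,0,1],(⟨0,[(27,0)]⟩,⟨1,[(26,0),(8,0),(0,0)]⟩),(⟨0,[(36,0)]⟩,⟨0,[(35,0)]⟩),⟨0,[(1,0)]⟩,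
  .k,.k,(.r (-1) ⟨7,[(11,1),(1,1),(5,1),(4,0),(0,3),(17,0)]⟩ ⟨0,[(3,0)]⟩),.k,.k,.k,⟨false,1,⟨0,[(10,
  0),(2,0),(7,0)]⟩,⟨1,[(3,1),(7,0),(22,0)]⟩⟩,⟨true,0,⟨0,[(10,0),(16,0)]⟩,⟨1,[(26,0),(2,0),(3,0)]⟩⟩,
  ⟨true,0,⟨0,[(46,0)]⟩,⟨0,[]⟩⟩,⟨false,0,⟨2,[(0,1),(2,0),(7,0),(4,0),(6,0),(3,2),(4,0)]⟩,⟨0,[(2,0),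
  (32,0),(0,0)]⟩⟩,⟨false,0,⟨0,[]⟩,⟨0,[]⟩⟩,⟨false,0,⟨0,[]⟩,⟨0,[]⟩⟩,[.o ⟨false,0,⟨0,[(30,0)]⟩,⟨0,[(28,
  0),(15,0)]⟩⟩,.o ⟨false,0,⟨7,[(9,0),(0,2),(3,1),(7,0),(0,2)]⟩,⟨1,[(31,1),(5,0),(6,0)]⟩⟩,.a ⟨true,0,
  ⟨1,[(26,0),(8,0),(0,0)]⟩,⟨0,[(27,0)]⟩⟩ ⟨true,0,⟨0,[(5,0),(1,0),(4,0),(3,0),(10,0),(7,0),(3,0)]⟩,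
  ⟨0,[(0,0),(41,0)]⟩⟩ ⟨false,0,⟨7,[(9,0),(0,2),(3,1),(7,0),(0,2),(3,7)]⟩,⟨1,[(26,0),(1,0),(2,0),(12,
  1)]⟩⟩,.o ⟨false,0,⟨7,[(17,1),(8,3),(5,2),(0,0)]⟩,⟨1,[(27,1),(9,0),(5,0)]⟩⟩]⟩)) (.Q [0,0,0,-1,0,0,
  0,0,1,0,0,-1] (.p false [0,0,0,1] [] (⟨0,[(26,0)]⟩,⟨1,[(25,0),(8,0),(0,0)]⟩) .k 0 (⟨0,[]⟩,⟨0,[]⟩)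
  .k .k) (.Q [0,0,0,0,0,0,0,0,-1,-1,0,1] (.p true [0,0,0,1] [1] (⟨0,[(27,0)]⟩,⟨1,[(26,0),(8,0),(0,
  0)]⟩) .k 1 (⟨0,[]⟩,⟨0,[]⟩) .k .k) (.R ⟨2,true,false,false,[0,1],[0,0,0,1],[1,1,1,1],(⟨0,[]⟩,⟨0,
  []⟩),(⟨0,[(28,0)]⟩,⟨1,[(27,0),(8,0),(0,0)]⟩),⟨0,[]⟩,.k,.k,.k,(.r 0 ⟨0,[(4,0)]⟩ ⟨7,[(12,1),(1,1),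
  (5,1),(4,0),(0,3),(17,0)]⟩),.k,.k,⟨false,0,⟨0,[(5,0)]⟩,⟨0,[(14,0)]⟩⟩,⟨true,0,⟨7,[(18,1),(8,3),(5,
  2),(0,0)]⟩,⟨0,[(28,0)]⟩⟩,⟨false,0,⟨0,[]⟩,⟨3,[(25,0),(0,0),(18,1)]⟩⟩,⟨true,0,⟨0,[(1,0)]⟩,⟨0,[(5,0),
  (22,0)]⟩⟩,⟨true,0,⟨0,[(42,0)]⟩,⟨0,[(43,0)]⟩⟩,⟨false,1,⟨7,[(3,1),(4,1),(17,1),(0,1),(10,0),(6,2)]⟩,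
  ⟨0,[(0,0),(35,0),(0,0)]⟩⟩,[]⟩) (.I [0,-1,-1,-1,1,0,0,-1,1] (.Q [0,0,0,1,0,0,1,1,-1,0,-1,1] (.p
  false [0,0,1] [0,0,0,1] (⟨0,[(38,0)]⟩,⟨0,[(37,0)]⟩) .k 2 (⟨0,[(29,0)]⟩,⟨1,[(28,0),(8,0),(0,0)]⟩)
  .k (.r 0 ⟨1,[(5,1),(7,0),(22,0)]⟩ ⟨3,[(8,1),(18,1),(17,0),(0,0)]⟩)) (.R ⟨1,false,false,true,[0,0,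
  0,1],[0,0,1],[0,0,0,-1,0,0,0,0,1],(⟨0,[(30,0)]⟩,⟨1,[(29,0),(8,0),(0,0)]⟩),(⟨0,[(39,0)]⟩,⟨0,[(38,
  0)]⟩),⟨0,[(4,0)]⟩,.k,.k,(.r (-1) ⟨11,[(1,1),(12,3),(7,1),(4,1),(0,6),(17,0)]⟩ ⟨0,[(6,0)]⟩),.k,(.r
  (-1) ⟨3,[(1,1),(20,1),(5,0),(17,0)]⟩ ⟨0,[(6,0),(30,0)]⟩),.k,⟨false,1,⟨0,[(1,0)]⟩,⟨0,[(7,0),(29,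
  0)]⟩⟩,⟨true,0,⟨0,[(13,0),(16,0)]⟩,⟨1,[(29,0),(2,0),(3,0)]⟩⟩,⟨true,0,⟨0,[(45,0)]⟩,⟨0,[(44,0)]⟩⟩,
  ⟨false,0,⟨0,[(0,0),(44,0)]⟩,⟨1,[(2,0),(2,0),(28,0),(12,0)]⟩⟩,⟨false,1,⟨3,[(27,0),(0,0),(18,1)]⟩,
  ⟨0,[]⟩⟩,⟨false,0,⟨0,[(0,0)]⟩,⟨2,[(1,1),(3,0),(23,0),(6,1),(8,0)]⟩⟩,[.o ⟨false,0,⟨0,[(33,0)]⟩,⟨0,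
  [(31,0),(15,0)]⟩⟩,.o ⟨false,0,⟨8,[(0,0),(9,0),(1,0),(0,2),(3,1),(8,2)]⟩,⟨1,[(34,1),(5,0),(6,0)]⟩⟩,
  .a ⟨true,0,⟨1,[(29,0),(8,0),(0,0)]⟩,⟨0,[(30,0)]⟩⟩ ⟨true,0,⟨0,[(3,0),(26,0)]⟩,⟨0,[(7,0)]⟩⟩ ⟨false,
  0,⟨8,[(0,0),(9,0),(1,0),(0,2),(3,1),(8,2),(3,8)]⟩,⟨1,[(29,0),(1,0),(2,0),(12,1)]⟩⟩,.o ⟨false,0,⟨7,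
  [(20,1),(8,3),(5,2),(0,0)]⟩,⟨1,[(30,1),(9,0),(5,0)]⟩⟩]⟩) (.R ⟨1,true,false,true,[0,0,0,1],[0,0,1],
  [0,0,0,-1,0,0,0,0,1],(⟨0,[(30,0)]⟩,⟨1,[(29,0),(8,0),(0,0)]⟩),(⟨0,[(39,0)]⟩,⟨0,[(38,0)]⟩),⟨0,[(4,
  0)]⟩,.k,.k,(.r (-1) ⟨11,[(1,1),(12,3),(7,1),(4,1),(0,6),(17,0)]⟩ ⟨0,[(6,0)]⟩),.k,(.r (-1) ⟨3,[(1,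
  1),(20,1),(5,0),(17,0)]⟩ ⟨0,[(6,0),(30,0)]⟩),.k,⟨false,1,⟨0,[(1,0)]⟩,⟨0,[(7,0),(29,0)]⟩⟩,⟨true,0,
  ⟨0,[(13,0),(16,0)]⟩,⟨1,[(29,0),(2,0),(3,0)]⟩⟩,⟨true,0,⟨0,[(45,0)]⟩,⟨0,[(44,0)]⟩⟩,⟨false,0,⟨3,[(6,
  3),(5,0),(0,1),(0,0),(4,0),(6,0),(3,3)]⟩,⟨1,[(2,0),(2,0),(28,0),(12,0)]⟩⟩,⟨false,1,⟨3,[(27,0),(0,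
  0),(18,1)]⟩,⟨0,[]⟩⟩,⟨true,0,⟨7,[(7,7),(4,0),(0,2),(3,1),(7,0),(0,2),(3,7)]⟩,⟨0,[(0,0)]⟩⟩,[]⟩))
  (.R ⟨2,true,false,false,[0,1],[0,0,0,1],[1,1,1,1],(⟨0,[]⟩,⟨0,[]⟩),(⟨0,[(29,0)]⟩,⟨1,[(28,0),(8,0),
  (0,0)]⟩),⟨0,[]⟩,.k,.k,.k,(.r 0 ⟨0,[(5,0)]⟩ ⟨7,[(13,1),(1,1),(5,1),(4,0),(0,3),(17,0)]⟩),.k,.k,
  ⟨false,0,⟨0,[(6,0)]⟩,⟨0,[(15,0)]⟩⟩,⟨true,0,⟨7,[(19,1),(8,3),(5,2),(0,0)]⟩,⟨0,[(29,0)]⟩⟩,⟨false,0,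
  ⟨0,[]⟩,⟨3,[(26,0),(0,0),(18,1)]⟩⟩,⟨true,0,⟨0,[(2,0)]⟩,⟨0,[(6,0),(22,0)]⟩⟩,⟨true,0,⟨0,[(43,0)]⟩,⟨0,
  [(44,0)]⟩⟩,⟨false,1,⟨7,[(4,1),(4,1),(17,1),(0,1),(10,0),(6,2)]⟩,⟨0,[(0,0),(7,0),(2,0),(17,0),(16,
  0)]⟩⟩,[]⟩))) (.R ⟨1,false,false,false,[1,0,0,-1],[1,-1],[1,1,0,0,0,0,0,0,-1],(⟨1,[(26,0),(8,0),(0,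
  0)]⟩,⟨0,[(27,0)]⟩),(⟨0,[(38,0)]⟩,⟨0,[(39,0)]⟩),⟨0,[(1,0),(24,0)]⟩,.k,.k,(.x 0 ⟨2,[(1,1),(15,0),(8,
  0),(5,0),(5,0)]⟩ ⟨3,[(24,0),(0,0),(13,3),(3,1)]⟩),(.r 0 ⟨0,[(3,0)]⟩ ⟨7,[(11,1),(1,1),(5,1),(4,0),
  (0,3),(17,0)]⟩),.k,.k,⟨false,0,⟨0,[(4,0)]⟩,⟨0,[(13,0)]⟩⟩,⟨true,0,⟨7,[(17,1),(8,3),(5,2),(0,0)]⟩,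
  ⟨0,[(27,0)]⟩⟩,⟨false,0,⟨0,[]⟩,⟨3,[(24,0),(0,0),(18,1)]⟩⟩,⟨false,1,⟨7,[(13,5),(3,1),(7,0),(0,3),(5,
  1),(9,1),(1,0)]⟩,⟨0,[(0,0)]⟩⟩,⟨true,0,⟨0,[(41,0)]⟩,⟨0,[(42,0)]⟩⟩,⟨false,1,⟨7,[(2,1),(4,1),(17,1),
  (0,1),(10,0),(6,2)]⟩,⟨0,[(0,0),(41,0)]⟩⟩,[.o ⟨false,0,⟨0,[(16,0)]⟩,⟨7,[(6,1),(11,3),(5,0),(0,0),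
  (17,4),(0,0)]⟩⟩,.o ⟨false,1,⟨13,[(13,5),(2,7),(0,1),(6,2),(7,1),(4,0),(6,3)]⟩,⟨0,[(41,0)]⟩⟩,.a
  ⟨true,0,⟨0,[(27,0)]⟩,⟨1,[(26,0),(8,0),(0,0)]⟩⟩ ⟨false,0,⟨1,[(0,1),(15,0),(9,0),(15,0)]⟩,⟨1,[(25,
  0),(18,0)]⟩⟩ ⟨true,0,⟨1,[(16,0),(9,0),(15,0)]⟩,⟨0,[(27,0),(13,0)]⟩⟩,.o ⟨false,0,⟨1,[(14,0),(12,1),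
  (4,0)]⟩,⟨7,[(24,0),(0,0),(0,3),(10,1),(5,3)]⟩⟩]⟩))) (.Q [0,0,0,0,0,1,0,0,0,0,0,-1] (.p false [0,0,
  0,1] [] (⟨0,[(25,0)]⟩,⟨1,[(24,0),(8,0),(0,0)]⟩) .k 0 (⟨0,[]⟩,⟨0,[]⟩) .k .k) (.I [0,0,-2,-2,0,0,0,
  0,-1] (.R ⟨0,false,false,false,[0,0,0,1],[1,-1],[1,1],(⟨0,[(27,0)]⟩,⟨1,[(26,0),(8,0),(0,0)]⟩),(⟨0,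
  [(38,0)]⟩,⟨0,[(39,0)]⟩),⟨0,[(1,0)]⟩,.k,.k,(.r (-1) ⟨7,[(11,1),(1,1),(5,1),(4,0),(0,3),(17,0)]⟩ ⟨0,
  [(3,0)]⟩),(.r (-1) ⟨7,[(6,1),(11,3),(5,0),(0,4),(17,0),(0,0)]⟩ ⟨2,[(0,1),(2,0)]⟩),.k,.k,⟨false,0,
  ⟨0,[(41,0)]⟩,⟨4,[(0,0),(12,2),(10,0),(19,0)]⟩⟩,⟨true,0,⟨1,[(14,0),(12,1),(4,0)]⟩,⟨1,[(26,0),(8,0),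
  (0,0)]⟩⟩,⟨false,0,⟨2,[(0,0),(2,1)]⟩,⟨1,[(25,0),(18,0)]⟩⟩,⟨true,0,⟨6,[(0,2),(1,3),(3,1),(7,3),(1,
  0),(10,2),(9,0),(6,2)]⟩,⟨0,[(7,0),(13,0)]⟩⟩,⟨false,0,⟨0,[]⟩,⟨0,[]⟩⟩,⟨false,0,⟨0,[]⟩,⟨0,[]⟩⟩,[.o
  ⟨false,0,⟨0,[(16,0)]⟩,⟨7,[(6,1),(11,3),(5,0),(0,0),(17,4),(0,0)]⟩⟩,.o ⟨false,1,⟨13,[(13,5),(2,7),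
  (0,1),(6,2),(7,1),(4,0),(6,3)]⟩,⟨0,[(41,0)]⟩⟩,.a ⟨true,0,⟨1,[(26,0),(8,0),(0,0)]⟩,⟨0,[(27,0)]⟩⟩
  ⟨false,0,⟨0,[]⟩,⟨3,[(24,0),(0,0),(18,1)]⟩⟩ ⟨true,0,⟨0,[(16,0),(10,0)]⟩,⟨1,[(21,0),(0,0),(3,0),(19,
  0)]⟩⟩,.o ⟨false,0,⟨7,[(17,1),(8,3),(5,2),(0,0)]⟩,⟨1,[(27,1),(9,0),(5,0)]⟩⟩]⟩) (.R ⟨0,false,false,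
  false,[0,0,0,1],[2,-1,-1],[1],(⟨0,[(27,0)]⟩,⟨1,[(26,0),(8,0),(0,0)]⟩),(⟨0,[(35,0),(2,0)]⟩,⟨0,[(20,
  0)]⟩),⟨0,[(1,0)]⟩,.k,.k,(.r (-1) ⟨7,[(11,1),(1,1),(5,1),(4,0),(0,3),(17,0)]⟩ ⟨0,[(3,0)]⟩),(.r 0
  ⟨1,[(0,1),(10,0),(22,0)]⟩ ⟨1,[(6,1),(2,1),(14,0),(19,0)]⟩),.k,.k,⟨false,0,⟨2,[(0,1),(2,1),(5,2)]⟩,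
  ⟨5,[(6,3),(4,1),(1,1),(10,0),(18,1),(0,0)]⟩⟩,⟨true,0,⟨0,[(14,0),(12,0)]⟩,⟨1,[(10,1),(15,0),(8,2),
  (0,2)]⟩⟩,⟨true,0,⟨1,[(2,1),(2,0),(10,0),(9,0),(1,0),(15,1)]⟩,⟨0,[(0,0),(4,0),(3,0),(0,0),(1,2),(3,
  1),(18,2),(3,2)]⟩⟩,⟨false,1,⟨0,[(2,0),(13,0),(11,1),(15,1)]⟩,⟨1,[(0,1),(8,1),(0,1),(15,0),(8,2),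
  (0,2)]⟩⟩,⟨false,0,⟨0,[]⟩,⟨0,[]⟩⟩,⟨false,0,⟨0,[]⟩,⟨0,[]⟩⟩,[.o ⟨false,1,⟨5,[(13,1),(0,1),(1,1),(2,
  1),(4,0),(3,3),(8,0),(6,1)]⟩,⟨0,[(22,0)]⟩⟩,.o ⟨false,1,⟨0,[(16,0),(11,0),(15,0)]⟩,⟨0,[(22,0),(23,
  0)]⟩⟩,.a ⟨true,0,⟨1,[(26,0),(8,0),(0,0)]⟩,⟨0,[(27,0)]⟩⟩ ⟨true,0,⟨0,[]⟩,⟨0,[(46,0)]⟩⟩ ⟨false,1,⟨0,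
  [(16,0),(10,0),(0,0),(15,0)]⟩,⟨1,[(22,1),(3,0),(8,0),(0,0)]⟩⟩,.o ⟨false,0,⟨7,[(17,1),(8,3),(5,2),
  (0,0)]⟩,⟨1,[(27,1),(9,0),(5,0)]⟩⟩]⟩)) (.I [0,0,-1,-1,0,0,0,0,-1] (.R ⟨1,false,false,false,[0,0,0,
  1],[1,-1],[1,0,0,0,0,0,0,0,1],(⟨0,[(27,0)]⟩,⟨1,[(26,0),(8,0),(0,0)]⟩),(⟨0,[(38,0)]⟩,⟨0,[(39,0)]⟩),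
  ⟨0,[(1,0)]⟩,.k,.k,(.r (-1) ⟨7,[(11,1),(1,1),(5,1),(4,0),(0,3),(17,0)]⟩ ⟨0,[(3,0)]⟩),(.r (-1) ⟨7,
  [(6,1),(11,3),(5,0),(0,4),(17,0),(0,0)]⟩ ⟨0,[(0,0)]⟩),.k,.k,⟨false,1,⟨1,[(25,0),(15,1),(2,0)]⟩,⟨0,
  [(0,0)]⟩⟩,⟨true,0,⟨1,[(14,0),(12,1),(4,0)]⟩,⟨1,[(26,0),(8,0),(0,0)]⟩⟩,⟨true,0,⟨0,[]⟩,⟨0,[(46,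
  0)]⟩⟩,⟨true,0,⟨9,[(0,5),(1,3),(3,1),(7,3),(1,3),(10,5),(9,0),(6,2)]⟩,⟨0,[(7,0),(13,0)]⟩⟩,⟨false,1,
  ⟨0,[(41,0),(2,0)]⟩,⟨0,[(42,0)]⟩⟩,⟨true,0,⟨1,[(0,0),(1,0),(2,0),(4,0),(3,0),(12,0),(16,0)]⟩,⟨0,[(7,
  0),(23,0)]⟩⟩,[.o ⟨false,0,⟨0,[(16,0)]⟩,⟨7,[(6,1),(11,3),(5,0),(0,0),(17,4),(0,0)]⟩⟩,.o ⟨false,1,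
  ⟨13,[(13,5),(2,7),(0,1),(6,2),(7,1),(4,0),(6,3)]⟩,⟨0,[(41,0)]⟩⟩,.a ⟨true,0,⟨1,[(26,0),(8,0),(0,
  0)]⟩,⟨0,[(27,0)]⟩⟩ ⟨false,1,⟨1,[(25,0),(18,0)]⟩,⟨1,[(0,0),(2,0)]⟩⟩ ⟨true,0,⟨0,[(16,0),(10,0)]⟩,⟨1,
  [(21,0),(0,0),(3,0),(19,0)]⟩⟩,.o ⟨false,0,⟨7,[(17,1),(8,3),(5,2),(0,0)]⟩,⟨1,[(27,1),(9,0),(5,
  0)]⟩⟩]⟩) (.R ⟨1,false,false,false,[1,0,0,-1],[1,-1],[1,1,0,0,0,0,0,0,-1],(⟨1,[(26,0),(8,0),(0,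
  0)]⟩,⟨0,[(27,0)]⟩),(⟨0,[(38,0)]⟩,⟨0,[(39,0)]⟩),⟨0,[(1,0),(24,0)]⟩,.k,.k,(.x 0 ⟨2,[(1,1),(15,0),(8,
  0),(5,0),(5,0)]⟩ ⟨3,[(24,0),(0,0),(13,3),(3,1)]⟩),(.r 0 ⟨0,[(3,0)]⟩ ⟨7,[(11,1),(1,1),(5,1),(4,0),
  (0,3),(17,0)]⟩),.k,.k,⟨false,0,⟨0,[(4,0)]⟩,⟨0,[(13,0)]⟩⟩,⟨true,0,⟨7,[(17,1),(8,3),(5,2),(0,0)]⟩,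
  ⟨0,[(27,0)]⟩⟩,⟨false,0,⟨0,[]⟩,⟨3,[(24,0),(0,0),(18,1)]⟩⟩,⟨false,1,⟨7,[(13,5),(3,1),(7,0),(0,3),(5,
  1),(9,1),(1,0)]⟩,⟨0,[(2,0),(2,0),(38,0)]⟩⟩,⟨true,0,⟨0,[(41,0)]⟩,⟨0,[(42,0)]⟩⟩,⟨false,1,⟨3,[(0,1),
  (12,1),(12,1),(10,0),(6,0)]⟩,⟨0,[(2,0),(25,0),(15,0)]⟩⟩,[.o ⟨false,0,⟨0,[(16,0)]⟩,⟨7,[(6,1),(11,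
  3),(5,0),(0,0),(17,4),(0,0)]⟩⟩,.o ⟨false,1,⟨13,[(13,5),(2,7),(0,1),(6,2),(7,1),(4,0),(6,3)]⟩,⟨0,
  [(41,0)]⟩⟩,.a ⟨true,0,⟨0,[(27,0)]⟩,⟨1,[(26,0),(8,0),(0,0)]⟩⟩ ⟨false,0,⟨1,[(2,1),(2,0),(10,0),(9,
  0),(1,0),(15,1)]⟩,⟨1,[(25,0),(18,0)]⟩⟩ ⟨true,0,⟨1,[(16,0),(9,0),(15,0)]⟩,⟨0,[(27,0),(13,0)]⟩⟩,.o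
  ⟨false,0,⟨1,[(14,0),(12,1),(4,0)]⟩,⟨7,[(24,0),(0,0),(0,3),(10,1),(5,3)]⟩⟩]⟩)))) (.Q [0,0,0,0,0,0,
  1,1,-1,0,-1,1] (.p false [0,0,1] [0,0,0,1] (⟨0,[(33,0)]⟩,⟨0,[(32,0)]⟩) .k 2 (⟨0,[(24,0)]⟩,⟨1,[(23,
  0),(8,0),(0,0)]⟩) .k (.x 0 ⟨0,[(7,0),(25,0)]⟩ ⟨3,[(21,0),(0,0),(3,3),(5,3),(7,1)]⟩)) (.Q [0,0,0,0,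
  0,1,0,0,0,0,0,-1] (.p false [0,0,0,1] [] (⟨0,[(25,0)]⟩,⟨1,[(24,0),(8,0),(0,0)]⟩) .k 0 (⟨0,[]⟩,⟨0,
  []⟩) .k .k) (.R ⟨0,false,false,true,[0,0,0,1],[0,0,1],[1,0,0,-1,0,0,0,0,1],(⟨0,[(26,0)]⟩,⟨1,[(25,
  0),(8,0),(0,0)]⟩),(⟨0,[(35,0)]⟩,⟨0,[(34,0)]⟩),⟨0,[(0,0)]⟩,.k,.k,(.x 0 ⟨1,[(13,0),(17,0),(5,1)]⟩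
  ⟨3,[(23,0),(0,0),(13,3),(3,1)]⟩),.k,.k,.k,⟨false,1,⟨3,[(2,3),(2,1),(36,0),(0,2)]⟩,⟨0,[(3,0),(29,
  0)]⟩⟩,⟨true,0,⟨0,[(9,0),(16,0)]⟩,⟨1,[(25,0),(2,0),(3,0)]⟩⟩,⟨true,0,⟨0,[(41,0)]⟩,⟨0,[(40,0)]⟩⟩,
  ⟨false,0,⟨0,[(1,0)]⟩,⟨63,[(2,57),(2,11),(10,15),(0,5),(2,45),(3,2),(0,31),(6,1),(10,60)]⟩⟩,⟨false,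
  0,⟨0,[]⟩,⟨0,[]⟩⟩,⟨false,0,⟨0,[]⟩,⟨0,[]⟩⟩,[.o ⟨false,0,⟨0,[(29,0)]⟩,⟨0,[(27,0),(15,0)]⟩⟩,.o ⟨false,
  0,⟨7,[(8,0),(0,2),(3,1),(7,0),(0,2)]⟩,⟨1,[(30,1),(5,0),(6,0)]⟩⟩,.a ⟨true,0,⟨1,[(25,0),(8,0),(0,
  0)]⟩,⟨0,[(26,0)]⟩⟩ ⟨true,0,⟨1,[(2,1),(28,0),(0,0)]⟩,⟨0,[(3,0)]⟩⟩ ⟨false,0,⟨7,[(8,0),(0,2),(3,1),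
  (7,0),(0,2),(3,7)]⟩,⟨1,[(25,0),(1,0),(2,0),(12,1)]⟩⟩,.o ⟨false,0,⟨7,[(16,1),(8,3),(5,2),(0,0)]⟩,
  ⟨1,[(26,1),(9,0),(5,0)]⟩⟩]⟩) (.Q [0,0,0,1,0,0,1,1,-1,0,-1,1] (.p false [0,0,1] [0,0,0,1] (⟨0,[(35,
  0)]⟩,⟨0,[(34,0)]⟩) .k 2 (⟨0,[(26,0)]⟩,⟨1,[(25,0),(8,0),(0,0)]⟩) .k (.x 0 ⟨0,[(9,0),(25,0)]⟩ ⟨3,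
  [(23,0),(0,0),(3,3),(5,3),(7,1)]⟩)) (.R ⟨1,false,false,false,[0,0,0,1],[0,0,1],[0,1,0,-1,0,0,0,0,
  1],(⟨0,[(27,0)]⟩,⟨1,[(26,0),(8,0),(0,0)]⟩),(⟨0,[(36,0)]⟩,⟨0,[(35,0)]⟩),⟨0,[(1,0)]⟩,.k,.k,(.x 0 ⟨2,
  [(1,1),(15,0),(8,0),(5,0),(5,0)]⟩ ⟨3,[(24,0),(0,0),(13,3),(3,1)]⟩),.k,(.r (-1) ⟨9,[(3,1),(2,3),(6,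
  5),(5,1),(5,0),(17,2)]⟩ ⟨1,[(0,1),(25,0),(2,0),(3,0)]⟩),.k,⟨false,0,⟨2,[(3,2),(2,0),(12,0),(20,
  0)]⟩,⟨3,[(4,1),(4,1),(8,1),(5,0),(19,2)]⟩⟩,⟨true,0,⟨0,[(10,0),(16,0)]⟩,⟨1,[(26,0),(2,0),(3,0)]⟩⟩,
  ⟨false,0,⟨0,[(42,0)]⟩,⟨0,[(41,0),(2,0)]⟩⟩,⟨true,0,⟨0,[(2,0)]⟩,⟨16,[(3,13),(2,2),(0,2),(9,4),(3,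
  13),(4,6),(6,0)]⟩⟩,⟨true,0,⟨0,[(46,0)]⟩,⟨0,[]⟩⟩,⟨true,0,⟨0,[(0,0)]⟩,⟨19,[(3,16),(2,2),(1,2),(8,4),
  (1,2),(6,9),(4,10),(1,3)]⟩⟩,[.o ⟨false,0,⟨8,[(0,0),(6,0),(1,0),(0,2),(3,1),(8,2)]⟩,⟨1,[(31,1),(5,
  0),(6,0)]⟩⟩,.o ⟨false,1,⟨7,[(23,3),(0,0),(0,0),(11,1),(6,3)]⟩,⟨0,[(28,0)]⟩⟩,.a ⟨true,0,⟨1,[(26,0),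
  (8,0),(0,0)]⟩,⟨0,[(27,0)]⟩⟩ ⟨false,0,⟨1,[(3,1),(28,0),(0,0)]⟩,⟨0,[(4,0),(39,0)]⟩⟩ ⟨true,0,⟨4,[(0,
  0),(2,0),(6,0),(3,0),(8,1),(3,3)]⟩,⟨1,[(26,0),(1,0),(2,0)]⟩⟩,.o ⟨false,0,⟨7,[(17,1),(8,3),(5,2),
  (0,0)]⟩,⟨1,[(27,1),(9,0),(5,0)]⟩⟩]⟩) (.I [0,0,-1,-1,0,0,0,0,1] (.R ⟨1,true,false,false,[0,0,0,1],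
  [0,0,1],[1,1,0,0,0,0,0,0,1],(⟨0,[(28,0)]⟩,⟨1,[(27,0),(8,0),(0,0)]⟩),(⟨0,[(37,0)]⟩,⟨0,[(36,0)]⟩),
  ⟨0,[(2,0)]⟩,.k,.k,(.r 0 ⟨0,[(0,0)]⟩ ⟨7,[(7,1),(11,3),(5,4),(0,0),(17,0),(0,0)]⟩),.k,(.x 0 ⟨0,[(15,
  0),(20,0),(2,0)]⟩ ⟨3,[(7,1),(13,1),(2,1),(12,1),(2,1),(3,2),(0,0)]⟩),.k,⟨false,0,⟨0,[(0,0),(10,0),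
  (10,0)]⟩,⟨1,[(25,0),(9,1),(9,0)]⟩⟩,⟨true,0,⟨0,[(11,0),(16,0)]⟩,⟨1,[(27,0),(2,0),(3,0)]⟩⟩,⟨false,0,
  ⟨0,[]⟩,⟨3,[(25,0),(0,0),(18,1)]⟩⟩,⟨true,0,⟨0,[(3,0)]⟩,⟨3,[(1,1),(4,0),(2,1),(12,0),(4,0)]⟩⟩,⟨true,
  0,⟨0,[(42,0)]⟩,⟨0,[(43,0)]⟩⟩,⟨false,1,⟨0,[(3,0),(38,0),(2,0)]⟩,⟨0,[(1,0)]⟩⟩,[]⟩) (.R ⟨1,true,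
  false,false,[0,0,0,1],[0,0,1],[1,1,0,0,0,0,0,0,1],(⟨0,[(28,0)]⟩,⟨1,[(27,0),(8,0),(0,0)]⟩),(⟨0,
  [(37,0)]⟩,⟨0,[(36,0)]⟩),⟨0,[(2,0)]⟩,.k,.k,(.x 0 ⟨2,[(2,1),(15,0),(8,0),(5,0),(5,0)]⟩ ⟨3,[(25,0),
  (0,0),(13,3),(3,1)]⟩),.k,(.x 0 ⟨0,[(15,0),(20,0),(2,0)]⟩ ⟨3,[(7,1),(13,1),(2,1),(12,1),(2,1),(3,
  2),(0,0)]⟩),.k,⟨false,0,⟨0,[(4,0),(6,0),(10,0)]⟩,⟨1,[(25,0),(9,1),(9,0)]⟩⟩,⟨true,0,⟨0,[(11,0),(16,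
  0)]⟩,⟨1,[(27,0),(2,0),(3,0)]⟩⟩,⟨false,0,⟨0,[]⟩,⟨3,[(25,0),(0,0),(18,1)]⟩⟩,⟨true,0,⟨0,[(3,0)]⟩,⟨3,
  [(1,1),(4,0),(2,1),(12,0),(4,0)]⟩⟩,⟨true,0,⟨0,[(42,0)]⟩,⟨0,[(43,0)]⟩⟩,⟨false,1,⟨0,[(3,0),(38,0),
  (2,0)]⟩,⟨0,[(1,0)]⟩⟩,[]⟩)))) (.K ⟨2,[0,0,0,1],0,0,(⟨0,[(25,0)]⟩,⟨1,[(24,0),(8,0),(0,0)]⟩),.k,(.r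
  0 ⟨0,[(0,0),(6,0),(0,1),(1,1),(1,0),(12,0),(7,1),(3,1)]⟩ ⟨7,[(4,1),(11,3),(5,4),(0,0),(17,0),(0,
  0)]⟩),(.r 0 ⟨2,[(0,1),(0,0),(6,1),(7,1),(8,1)]⟩ ⟨7,[(9,1),(1,1),(5,1),(4,4),(18,0)]⟩),.k,.k,[⟨0,
  [(0,0)]⟩,⟨0,[(2,0),(22,0),(14,0)]⟩,⟨1,[(25,1),(4,0),(0,0)]⟩,⟨7,[(15,1),(8,3),(5,2),(0,0)]⟩]⟩)))))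
  (.I [0,0,-1,-1,0,0,0,0,1] (.Q [0,0,0,0,0,0,-1,-1,1,0,1,-1] (.p true [0,0,1] [0,0,0,1] (⟨0,[(31,
  0)]⟩,⟨0,[(30,0)]⟩) .k 2 (⟨0,[(22,0)]⟩,⟨1,[(21,0),(8,0),(0,0)]⟩) .k (.x 0 ⟨0,[(5,0),(25,0)]⟩ ⟨3,
  [(19,0),(0,0),(3,3),(5,3),(7,1)]⟩)) (.Q [0,0,0,0,0,1,0,0,0,0,0,-1] (.p false [0,0,0,1] [] (⟨0,
  [(23,0)]⟩,⟨1,[(22,0),(8,0),(0,0)]⟩) .k 0 (⟨0,[]⟩,⟨0,[]⟩) .k .k) (.R ⟨0,false,false,false,[0,0,0,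
  1],[0,0,1],[0,1,0,0,0,0,0,0,1],(⟨0,[(24,0)]⟩,⟨1,[(23,0),(8,0),(0,0)]⟩),(⟨0,[(33,0)]⟩,⟨0,[(32,
  0)]⟩),⟨0,[(0,0)]⟩,.k,.k,(.r 0 ⟨0,[(2,0)]⟩ ⟨5,[(15,1),(2,1),(2,3),(0,0),(6,1),(11,0)]⟩),.k,.k,.k,
  ⟨false,0,⟨0,[(2,0),(4,0),(10,0)]⟩,⟨55,[(3,19),(10,3),(5,7),(0,32),(0,4),(7,11),(10,17)]⟩⟩,⟨true,0,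
  ⟨0,[(7,0),(16,0)]⟩,⟨1,[(23,0),(2,0),(3,0)]⟩⟩,⟨true,0,⟨0,[(43,0)]⟩,⟨0,[]⟩⟩,⟨false,1,⟨7,[(3,1),(3,
  1),(12,1),(0,3),(2,7),(4,1),(4,0),(6,2)]⟩,⟨0,[(1,0)]⟩⟩,⟨false,0,⟨0,[]⟩,⟨0,[]⟩⟩,⟨false,0,⟨0,[]⟩,⟨0,
  []⟩⟩,[.o ⟨false,0,⟨6,[(3,0),(3,2),(3,0),(8,1),(6,0)]⟩,⟨1,[(28,1),(5,0),(6,0)]⟩⟩,.o ⟨false,1,⟨7,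
  [(20,3),(0,0),(0,0),(11,1),(6,3)]⟩,⟨0,[(25,0)]⟩⟩,.a ⟨true,0,⟨1,[(23,0),(8,0),(0,0)]⟩,⟨0,[(24,
  0)]⟩⟩ ⟨false,0,⟨2,[(1,0),(0,1),(4,0),(7,0),(8,0)]⟩,⟨1,[(21,0),(19,0)]⟩⟩ ⟨true,0,⟨6,[(3,0),(3,2),
  (3,0),(8,1),(3,6),(2,0)]⟩,⟨1,[(23,0),(1,0),(2,0)]⟩⟩,.o ⟨false,0,⟨7,[(14,1),(8,3),(5,2),(0,0)]⟩,⟨1,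
  [(24,1),(9,0),(5,0)]⟩⟩]⟩) (.R ⟨1,false,false,false,[0,0,0,1],[0,0,1],[1,1,0,0,0,0,0,0,1],(⟨0,[(24,
  0)]⟩,⟨1,[(23,0),(8,0),(0,0)]⟩),(⟨0,[(33,0)]⟩,⟨0,[(32,0)]⟩),⟨0,[(0,0)]⟩,.k,.k,(.r 0 ⟨0,[(2,0)]⟩ ⟨5,
  [(15,1),(2,1),(2,3),(0,0),(6,1),(11,0)]⟩),.k,(.x 0 ⟨0,[(11,0),(20,0),(2,0)]⟩ ⟨0,[(29,0),(3,0),(2,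
  0),(3,0)]⟩),.k,⟨false,0,⟨0,[(2,0),(4,0),(10,0)]⟩,⟨55,[(3,19),(10,3),(5,7),(0,32),(0,4),(7,11),(10,
  17)]⟩⟩,⟨true,0,⟨0,[(7,0),(16,0)]⟩,⟨1,[(23,0),(2,0),(3,0)]⟩⟩,⟨false,0,⟨0,[]⟩,⟨3,[(21,0),(0,0),(18,
  1)]⟩⟩,⟨false,1,⟨7,[(3,1),(3,1),(12,1),(0,3),(2,7),(4,1),(4,0),(6,2)]⟩,⟨0,[(1,0)]⟩⟩,⟨true,0,⟨0,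
  [(38,0)]⟩,⟨0,[(39,0)]⟩⟩,⟨false,1,⟨5,[(3,1),(3,5),(7,1),(5,2),(2,5),(12,1),(3,2)]⟩,⟨0,[(1,0),(37,
  0)]⟩⟩,[.o ⟨false,0,⟨6,[(3,0),(3,2),(3,0),(8,1),(6,0)]⟩,⟨1,[(28,1),(5,0),(6,0)]⟩⟩,.o ⟨false,1,⟨7,
  [(20,3),(0,0),(0,0),(11,1),(6,3)]⟩,⟨0,[(25,0)]⟩⟩,.a ⟨true,0,⟨1,[(23,0),(8,0),(0,0)]⟩,⟨0,[(24,
  0)]⟩⟩ ⟨false,0,⟨2,[(1,0),(0,1),(4,0),(7,0),(8,0)]⟩,⟨1,[(21,0),(19,0)]⟩⟩ ⟨true,0,⟨6,[(3,0),(3,2),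
  (3,0),(8,1),(3,6),(2,0)]⟩,⟨1,[(23,0),(1,0),(2,0)]⟩⟩,.o ⟨false,0,⟨7,[(14,1),(8,3),(5,2),(0,0)]⟩,⟨1,
  [(24,1),(9,0),(5,0)]⟩⟩]⟩)) (.Q [0,0,0,0,0,1,0,0,0,0,0,-1] (.p false [0,0,0,1] [] (⟨0,[(23,0)]⟩,⟨1,
  [(22,0),(8,0),(0,0)]⟩) .k 0 (⟨0,[]⟩,⟨0,[]⟩) .k .k) (.I [1,-1,0,1,1,0,0,0,-1] (.R ⟨0,false,false,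
  false,[0,0,0,1],[0,0,1],[0,1,0,-1,0,0,0,0,1],(⟨0,[(25,0)]⟩,⟨1,[(24,0),(8,0),(0,0)]⟩),(⟨0,[(34,
  0)]⟩,⟨0,[(33,0)]⟩),⟨0,[(1,0)]⟩,.k,.k,(.r 0 ⟨0,[(3,0)]⟩ ⟨5,[(16,1),(2,1),(2,3),(0,0),(6,1),(11,
  0)]⟩),.k,.k,.k,⟨false,0,⟨1,[(3,1),(4,0),(8,0),(1,0)]⟩,⟨9,[(0,5),(3,3),(11,1),(5,2),(0,0)]⟩⟩,⟨true,
  0,⟨0,[(8,0),(16,0)]⟩,⟨1,[(24,0),(2,0),(3,0)]⟩⟩,⟨false,0,⟨0,[(40,0)]⟩,⟨6,[(0,1),(7,0),(7,0),(2,0),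
  (3,0),(14,1),(3,3)]⟩⟩,⟨true,0,⟨0,[(2,0)]⟩,⟨7,[(3,7),(11,1),(3,7),(4,3),(5,2),(0,0)]⟩⟩,⟨false,0,⟨0,
  []⟩,⟨0,[]⟩⟩,⟨false,0,⟨0,[]⟩,⟨0,[]⟩⟩,[.o ⟨false,0,⟨6,[(4,0),(3,2),(3,0),(8,1),(6,0)]⟩,⟨1,[(29,1),
  (5,0),(6,0)]⟩⟩,.o ⟨false,1,⟨7,[(21,3),(0,0),(0,0),(11,1),(6,3)]⟩,⟨0,[(26,0)]⟩⟩,.a ⟨true,0,⟨1,[(24,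
  0),(8,0),(0,0)]⟩,⟨0,[(25,0)]⟩⟩ ⟨false,0,⟨1,[(3,1),(26,0),(0,0)]⟩,⟨0,[(0,0)]⟩⟩ ⟨true,0,⟨14,[(2,0),
  (0,0),(0,0),(3,4),(3,2),(8,5),(3,13),(12,0)]⟩,⟨1,[(24,0),(1,0),(2,0)]⟩⟩,.o ⟨false,0,⟨7,[(15,1),(8,
  3),(5,2),(0,0)]⟩,⟨1,[(25,1),(9,0),(5,0)]⟩⟩]⟩) (.R ⟨0,false,false,false,[0,0,0,1],[0,0,1],[],(⟨0,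
  [(25,0)]⟩,⟨1,[(24,0),(8,0),(0,0)]⟩),(⟨0,[(34,0)]⟩,⟨0,[(33,0)]⟩),⟨0,[(1,0)]⟩,.k,.k,(.r 0 ⟨0,[(3,
  0)]⟩ ⟨5,[(16,1),(2,1),(2,3),(0,0),(6,1),(11,0)]⟩),.k,.k,.k,⟨false,1,⟨1,[(8,0),(8,0),(1,0),(21,0),
  (0,0)]⟩,⟨0,[(32,0)]⟩⟩,⟨true,0,⟨0,[(8,0),(16,0)]⟩,⟨1,[(24,0),(2,0),(3,0)]⟩⟩,⟨false,1,⟨1,[(22,0),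
  (19,0)]⟩,⟨6,[(0,4),(7,0),(7,0),(2,0),(3,0),(14,1),(3,3)]⟩⟩,⟨true,0,⟨0,[(2,0)]⟩,⟨3,[(0,1),(18,1),
  (3,0),(0,1),(1,1),(15,0)]⟩⟩,⟨false,0,⟨0,[]⟩,⟨0,[]⟩⟩,⟨false,0,⟨0,[]⟩,⟨0,[]⟩⟩,[.o ⟨false,0,⟨6,[(4,
  0),(3,2),(3,0),(8,1),(6,0)]⟩,⟨1,[(29,1),(5,0),(6,0)]⟩⟩,.o ⟨false,1,⟨7,[(21,3),(0,0),(0,0),(11,1),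
  (6,3)]⟩,⟨0,[(26,0)]⟩⟩,.a ⟨true,0,⟨1,[(24,0),(8,0),(0,0)]⟩,⟨0,[(25,0)]⟩⟩ ⟨false,1,⟨3,[(22,0),(0,0),
  (18,1)]⟩,⟨0,[]⟩⟩ ⟨true,0,⟨10,[(0,1),(1,5),(1,1),(3,4),(7,0),(6,1),(1,4)]⟩,⟨1,[(24,0),(1,0),(2,
  0)]⟩⟩,.o ⟨false,0,⟨7,[(15,1),(8,3),(5,2),(0,0)]⟩,⟨1,[(25,1),(9,0),(5,0)]⟩⟩]⟩)) (.Q [0,0,0,-1,0,0,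
  -1,-1,1,0,1,-1] (.p true [0,0,1] [0,0,0,1] (⟨0,[(33,0)]⟩,⟨0,[(32,0)]⟩) .k 2 (⟨0,[(24,0)]⟩,⟨1,[(23,
  0),(8,0),(0,0)]⟩) .k (.x 0 ⟨0,[(7,0),(25,0)]⟩ ⟨3,[(21,0),(0,0),(3,3),(5,3),(7,1)]⟩)) (.R ⟨1,true,
  false,false,[0,0,0,1],[0,0,1],[1,1,0,0,0,0,0,0,1],(⟨0,[(25,0)]⟩,⟨1,[(24,0),(8,0),(0,0)]⟩),(⟨0,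
  [(34,0)]⟩,⟨0,[(33,0)]⟩),⟨0,[(1,0)]⟩,.k,.k,(.r 0 ⟨0,[(3,0)]⟩ ⟨5,[(16,1),(2,1),(2,3),(0,0),(6,1),
  (11,0)]⟩),.k,(.x 0 ⟨0,[(12,0),(20,0),(2,0)]⟩ ⟨0,[(30,0),(3,0),(2,0),(3,0)]⟩),.k,⟨false,0,⟨0,[(3,
  0),(4,0),(10,0)]⟩,⟨55,[(4,19),(10,3),(5,7),(0,32),(0,4),(7,11),(10,17)]⟩⟩,⟨true,0,⟨0,[(8,0),(16,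
  0)]⟩,⟨1,[(24,0),(2,0),(3,0)]⟩⟩,⟨false,0,⟨0,[]⟩,⟨3,[(22,0),(0,0),(18,1)]⟩⟩,⟨true,0,⟨0,[(2,0)]⟩,⟨0,
  [(0,0),(38,0)]⟩⟩,⟨true,0,⟨0,[(39,0)]⟩,⟨0,[(40,0)]⟩⟩,⟨false,1,⟨0,[(2,0),(36,0),(2,0)]⟩,⟨0,[(0,
  0)]⟩⟩,[]⟩) (.R ⟨1,false,false,false,[0,0,0,1],[0,0,1],[0,1,0,-1,0,0,0,0,1],(⟨0,[(25,0)]⟩,⟨1,[(24,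
  0),(8,0),(0,0)]⟩),(⟨0,[(34,0)]⟩,⟨0,[(33,0)]⟩),⟨0,[(1,0)]⟩,.k,.k,(.r 0 ⟨0,[(3,0)]⟩ ⟨5,[(16,1),(2,
  1),(2,3),(0,0),(6,1),(11,0)]⟩),.k,(.r (-1) ⟨1,[(8,0),(2,1),(5,0),(1,0)]⟩ ⟨1,[(0,1),(23,0),(2,0),
  (3,0)]⟩),.k,⟨false,0,⟨1,[(3,1),(4,0),(8,0),(1,0)]⟩,⟨5,[(4,1),(11,1),(5,2),(15,1),(3,2)]⟩⟩,⟨true,0,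
  ⟨0,[(8,0),(16,0)]⟩,⟨1,[(24,0),(2,0),(3,0)]⟩⟩,⟨false,0,⟨0,[(40,0)]⟩,⟨0,[(39,0),(2,0)]⟩⟩,⟨true,0,⟨0,
  [(2,0)]⟩,⟨7,[(3,7),(11,1),(3,7),(4,3),(5,2),(0,0)]⟩⟩,⟨true,0,⟨0,[(44,0)]⟩,⟨0,[]⟩⟩,⟨true,0,⟨0,[(0,
  0)]⟩,⟨7,[(3,7),(11,1),(8,3),(4,7),(0,2),(0,0)]⟩⟩,[.o ⟨false,0,⟨6,[(4,0),(3,2),(3,0),(8,1),(6,0)]⟩,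
  ⟨1,[(29,1),(5,0),(6,0)]⟩⟩,.o ⟨false,1,⟨7,[(21,3),(0,0),(0,0),(11,1),(6,3)]⟩,⟨0,[(26,0)]⟩⟩,.a
  ⟨true,0,⟨1,[(24,0),(8,0),(0,0)]⟩,⟨0,[(25,0)]⟩⟩ ⟨false,0,⟨1,[(3,1),(26,0),(0,0)]⟩,⟨5,[(0,3),(18,1),
  (2,0),(1,1),(1,1),(15,4)]⟩⟩ ⟨true,0,⟨5,[(0,1),(2,1),(8,0),(8,1),(3,3),(4,0)]⟩,⟨1,[(24,0),(1,0),(2,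
  0)]⟩⟩,.o ⟨false,0,⟨7,[(15,1),(8,3),(5,2),(0,0)]⟩,⟨1,[(25,1),(9,0),(5,0)]⟩⟩]⟩)))) (.Q [0,0,0,0,0,0,
  0,0,-1,-1,0,2] (.p true [0,0,0,1] [1,0,0,-1] (⟨0,[(22,0)]⟩,⟨1,[(21,0),(8,0),(0,0)]⟩) .k 2 (⟨1,
  [(21,0),(8,0),(0,0)]⟩,⟨0,[(22,0)]⟩) .k .k) (.I [0,0,1,1,0,0,0,1,1] (.Q [0,0,0,0,0,1,0,0,0,0,0,-1]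
  (.p false [0,0,0,1] [] (⟨0,[(24,0)]⟩,⟨1,[(23,0),(8,0),(0,0)]⟩) .k 0 (⟨0,[]⟩,⟨0,[]⟩) .k .k) (.I [0,
  0,2,1] (.I [0,0,1,1,0,0,0,0,-1] (.R ⟨0,false,false,false,[0,0,0,1],[1,-1],[1,1],(⟨0,[(27,0)]⟩,⟨1,
  [(26,0),(8,0),(0,0)]⟩),(⟨0,[(38,0)]⟩,⟨0,[(39,0)]⟩),⟨0,[(2,0)]⟩,.k,.k,(.r (-1) ⟨7,[(11,1),(1,1),(5,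
  1),(4,0),(0,3),(17,0)]⟩ ⟨0,[(0,0)]⟩),(.x (-1) ⟨3,[(24,0),(0,0),(13,3),(3,1)]⟩ ⟨1,[(14,0),(17,0),
  (5,1)]⟩),.k,.k,⟨false,0,⟨0,[(41,0)]⟩,⟨7,[(11,1),(1,1),(5,1),(4,0),(18,0),(0,3)]⟩⟩,⟨true,0,⟨1,[(14,
  0),(12,1),(4,0)]⟩,⟨1,[(26,0),(8,0),(0,0)]⟩⟩,⟨false,0,⟨0,[(4,0),(21,0)]⟩,⟨1,[(25,0),(18,0)]⟩⟩,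
  ⟨true,0,⟨1,[(4,1),(11,0),(9,0),(15,0)]⟩,⟨0,[(7,0),(13,0)]⟩⟩,⟨false,0,⟨0,[]⟩,⟨0,[]⟩⟩,⟨false,0,⟨0,
  []⟩,⟨0,[]⟩⟩,[.o ⟨false,0,⟨0,[(16,0)]⟩,⟨3,[(24,0),(0,0),(15,3),(2,1)]⟩⟩,.o ⟨false,1,⟨13,[(13,5),(2,
  7),(0,1),(6,2),(7,1),(4,0),(6,3)]⟩,⟨0,[(41,0)]⟩⟩,.a ⟨true,0,⟨1,[(26,0),(8,0),(0,0)]⟩,⟨0,[(27,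
  0)]⟩⟩ ⟨false,0,⟨0,[]⟩,⟨3,[(24,0),(0,0),(18,1)]⟩⟩ ⟨true,0,⟨0,[(16,0),(10,0)]⟩,⟨1,[(21,0),(0,0),(3,
  0),(19,0)]⟩⟩,.o ⟨false,0,⟨7,[(1,0),(15,1),(8,3),(5,1),(9,0)]⟩,⟨3,[(4,1),(20,0),(11,0),(5,1)]⟩⟩]⟩)
  (.R ⟨0,false,false,false,[0,0,0,1],[1,-1],[1,1],(⟨0,[(27,0)]⟩,⟨1,[(26,0),(8,0),(0,0)]⟩),(⟨0,[(38,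
  0)]⟩,⟨0,[(39,0)]⟩),⟨0,[(2,0)]⟩,.k,.k,(.x 0 ⟨1,[(14,0),(17,0),(5,1)]⟩ ⟨3,[(24,0),(0,0),(13,3),(3,
  1)]⟩),(.x (-1) ⟨3,[(24,0),(0,0),(13,3),(3,1)]⟩ ⟨1,[(14,0),(17,0),(5,1)]⟩),.k,.k,⟨false,0,⟨0,[(41,
  0)]⟩,⟨7,[(11,1),(1,1),(5,1),(4,0),(18,0),(0,3)]⟩⟩,⟨true,0,⟨3,[(0,1),(0,1),(2,1),(9,0),(17,0)]⟩,⟨1,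
  [(26,0),(8,0),(0,0)]⟩⟩,⟨false,0,⟨0,[(4,0),(21,0)]⟩,⟨1,[(25,0),(18,0)]⟩⟩,⟨true,0,⟨1,[(4,1),(11,0),
  (9,0),(15,0)]⟩,⟨0,[(7,0),(13,0)]⟩⟩,⟨false,0,⟨0,[]⟩,⟨0,[]⟩⟩,⟨false,0,⟨0,[]⟩,⟨0,[]⟩⟩,[.o ⟨false,0,
  ⟨0,[(16,0)]⟩,⟨3,[(24,0),(0,0),(15,3),(2,1)]⟩⟩,.o ⟨false,1,⟨13,[(13,5),(2,7),(0,1),(6,2),(7,1),(4,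
  0),(6,3)]⟩,⟨0,[(41,0)]⟩⟩,.a ⟨true,0,⟨1,[(26,0),(8,0),(0,0)]⟩,⟨0,[(27,0)]⟩⟩ ⟨false,0,⟨0,[]⟩,⟨3,
  [(24,0),(0,0),(18,1)]⟩⟩ ⟨true,0,⟨5,[(0,2),(3,2),(11,0),(0,0),(14,0),(9,1)]⟩,⟨1,[(21,0),(0,0),(3,
  0),(19,0)]⟩⟩,.o ⟨false,0,⟨7,[(1,0),(15,1),(8,3),(5,1),(9,0)]⟩,⟨3,[(4,1),(20,0),(11,0),(5,
  1)]⟩⟩]⟩)) (.R ⟨0,false,false,false,[0,0,0,1],[1,-1],[1,1],(⟨0,[(26,0)]⟩,⟨1,[(25,0),(8,0),(0,0)]⟩),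
  (⟨0,[(37,0)]⟩,⟨0,[(38,0)]⟩),⟨0,[(1,0)]⟩,.k,.k,(.x 0 ⟨1,[(13,0),(17,0),(5,1)]⟩ ⟨3,[(23,0),(0,0),
  (13,3),(3,1)]⟩),(.r (-1) ⟨5,[(17,1),(2,1),(2,0),(0,3),(6,1),(11,0)]⟩ ⟨1,[(0,0),(2,1),(21,1),(15,
  0)]⟩),.k,.k,⟨false,0,⟨0,[(40,0)]⟩,⟨13,[(0,1),(9,1),(1,5),(5,1),(4,2),(19,4)]⟩⟩,⟨true,0,⟨1,[(13,0),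
  (12,1),(4,0)]⟩,⟨1,[(25,0),(8,0),(0,0)]⟩⟩,⟨false,0,⟨0,[(3,0),(21,0)]⟩,⟨1,[(24,0),(18,0)]⟩⟩,⟨true,0,
  ⟨1,[(3,1),(11,0),(9,0),(15,0)]⟩,⟨0,[(6,0),(13,0)]⟩⟩,⟨false,0,⟨0,[]⟩,⟨0,[]⟩⟩,⟨false,0,⟨0,[]⟩,⟨0,
  []⟩⟩,[.o ⟨false,0,⟨0,[(15,0)]⟩,⟨3,[(23,0),(0,0),(15,3),(2,1)]⟩⟩,.o ⟨false,1,⟨13,[(12,5),(2,7),(0,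
  1),(6,2),(7,1),(4,0),(6,3)]⟩,⟨0,[(40,0)]⟩⟩,.a ⟨true,0,⟨1,[(25,0),(8,0),(0,0)]⟩,⟨0,[(26,0)]⟩⟩
  ⟨false,0,⟨0,[]⟩,⟨3,[(23,0),(0,0),(18,1)]⟩⟩ ⟨true,0,⟨0,[(15,0),(10,0)]⟩,⟨1,[(20,0),(0,0),(3,0),(19,
  0)]⟩⟩,.o ⟨false,0,⟨7,[(16,1),(8,3),(5,2),(0,0)]⟩,⟨3,[(3,1),(20,0),(11,0),(5,1)]⟩⟩]⟩)) (.I [1,0,-1,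
  0,0,0,0,0,-1] (.I [1,0,0,1,0,0,0,0,-1] (.R ⟨1,false,false,false,[0,0,0,1],[1,-1],[0,0,0,-1,0,0,0,
  0,1],(⟨0,[(27,0)]⟩,⟨1,[(26,0),(8,0),(0,0)]⟩),(⟨0,[(38,0)]⟩,⟨0,[(39,0)]⟩),⟨0,[(2,0)]⟩,.k,.k,(.r
  (-1) ⟨7,[(11,1),(1,1),(5,1),(4,0),(0,3),(17,0)]⟩ ⟨0,[(0,0),(1,3),(7,0),(3,0),(11,1),(12,3)]⟩),(.r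
  (-1) ⟨5,[(18,1),(2,1),(2,0),(0,3),(6,1),(11,0)]⟩ ⟨0,[(1,0),(40,0)]⟩),.k,.k,⟨false,1,⟨3,[(24,0),(0,
  2)]⟩,⟨0,[(1,0)]⟩⟩,⟨true,0,⟨1,[(14,0),(12,1),(4,0)]⟩,⟨1,[(26,0),(8,0),(0,0)]⟩⟩,⟨true,0,⟨0,[(42,
  0)]⟩,⟨0,[(41,0)]⟩⟩,⟨true,0,⟨3,[(1,0),(2,1),(0,0),(10,1),(25,2)]⟩,⟨0,[(7,0),(13,0)]⟩⟩,⟨false,1,⟨3,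
  [(24,0),(0,0),(18,1)]⟩,⟨0,[]⟩⟩,⟨true,0,⟨3,[(1,1),(2,1),(9,0),(17,0)]⟩,⟨0,[(7,0),(23,0)]⟩⟩,[.o
  ⟨false,0,⟨0,[(16,0)]⟩,⟨3,[(24,0),(0,0),(15,3),(2,1)]⟩⟩,.o ⟨false,1,⟨13,[(13,5),(2,7),(0,1),(6,2),
  (7,1),(4,0),(6,3)]⟩,⟨0,[(41,0)]⟩⟩,.a ⟨true,0,⟨1,[(26,0),(8,0),(0,0)]⟩,⟨0,[(27,0)]⟩⟩ ⟨false,1,⟨1,
  [(25,0),(16,1),(1,0)]⟩,⟨0,[(0,0)]⟩⟩ ⟨true,0,⟨0,[(16,0),(10,0)]⟩,⟨1,[(21,0),(0,0),(3,0),(19,0)]⟩⟩,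
  .o ⟨false,0,⟨7,[(17,1),(8,3),(5,2),(0,0)]⟩,⟨3,[(4,1),(20,0),(11,0),(5,1)]⟩⟩]⟩) (.R ⟨1,false,false,
  false,[0,0,0,1],[1,-1],[],(⟨0,[(27,0)]⟩,⟨1,[(26,0),(8,0),(0,0)]⟩),(⟨0,[(38,0)]⟩,⟨0,[(39,0)]⟩),⟨0,
  [(2,0)]⟩,.k,.k,(.x 0 ⟨2,[(2,1),(14,0),(8,0),(5,0),(5,0)]⟩ ⟨3,[(24,0),(0,0),(13,3),(3,1)]⟩),(.r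
  (-1) ⟨5,[(18,1),(2,1),(2,0),(0,3),(6,1),(11,0)]⟩ ⟨0,[(1,0),(40,0)]⟩),.k,.k,⟨false,1,⟨3,[(24,0),(0,
  0),(15,3),(2,1)]⟩,⟨0,[(0,0),(0,0)]⟩⟩,⟨true,0,⟨1,[(14,0),(12,1),(4,0)]⟩,⟨1,[(26,0),(8,0),(0,0)]⟩⟩,
  ⟨true,0,⟨1,[(1,0),(3,0),(36,0)]⟩,⟨0,[(8,0)]⟩⟩,⟨true,0,⟨3,[(1,0),(2,1),(0,0),(10,1),(25,2)]⟩,⟨0,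
  [(7,0),(13,0)]⟩⟩,⟨false,1,⟨3,[(5,1),(18,0),(15,1),(3,2)]⟩,⟨0,[(0,0)]⟩⟩,⟨true,0,⟨3,[(1,1),(2,1),(9,
  0),(17,0)]⟩,⟨0,[(7,0),(23,0)]⟩⟩,[.o ⟨false,0,⟨0,[(16,0)]⟩,⟨3,[(24,0),(0,0),(15,3),(2,1)]⟩⟩,.o
  ⟨false,1,⟨13,[(13,5),(2,7),(0,1),(6,2),(7,1),(4,0),(6,3)]⟩,⟨0,[(41,0)]⟩⟩,.a ⟨true,0,⟨1,[(26,0),(8,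
  0),(0,0)]⟩,⟨0,[(27,0)]⟩⟩ ⟨false,1,⟨3,[(24,0),(0,0),(18,1)]⟩,⟨0,[]⟩⟩ ⟨true,0,⟨1,[(0,0),(3,0),(11,
  0)]⟩,⟨1,[(21,0),(0,0),(3,0),(19,0)]⟩⟩,.o ⟨false,0,⟨7,[(17,1),(8,3),(5,2),(0,0)]⟩,⟨3,[(4,1),(20,0),
  (11,0),(5,1)]⟩⟩]⟩)) (.I [0,-1,-1,-1,1,0,0,-1,-1] (.R ⟨1,false,false,true,[1,0,0,-1],[0,0,1],[0,0,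
  0,-1,0,0,0,0,-1],(⟨1,[(26,0),(8,0),(0,0)]⟩,⟨0,[(27,0)]⟩),(⟨0,[(36,0)]⟩,⟨0,[(35,0)]⟩),⟨0,[(2,0),
  (23,0)]⟩,.k,.k,(.x 0 ⟨2,[(2,1),(14,0),(8,0),(5,0),(5,0)]⟩ ⟨3,[(24,0),(0,0),(13,3),(3,1)]⟩),.k,(.r
  (-1) ⟨3,[(0,1),(18,1),(4,0),(18,0)]⟩ ⟨0,[(3,0)]⟩),.k,⟨false,1,⟨0,[(0,0)]⟩,⟨2,[(3,0),(2,0),(1,1),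
  (32,1)]⟩⟩,⟨true,0,⟨1,[(10,1),(15,0),(8,0),(0,0)]⟩,⟨0,[(27,0),(1,0)]⟩⟩,⟨true,0,⟨0,[(42,0)]⟩,⟨0,
  [(41,0)]⟩⟩,⟨false,0,⟨0,[(7,0)]⟩,⟨1,[(0,0),(3,0),(16,0),(7,0),(14,0)]⟩⟩,⟨false,1,⟨3,[(24,0),(0,0),
  (18,1)]⟩,⟨0,[]⟩⟩,⟨false,0,⟨1,[(1,1),(4,1),(3,3),(10,1),(4,0),(8,0),(0,0)]⟩,⟨1,[(0,0),(3,0),(24,0),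
  (1,0),(10,0),(1,0)]⟩⟩,[.o ⟨false,0,⟨0,[(30,0)]⟩,⟨0,[(28,0),(15,0)]⟩⟩,.o ⟨false,0,⟨6,[(6,0),(3,2),
  (3,0),(8,1),(6,0)]⟩,⟨1,[(31,1),(5,0),(6,0)]⟩⟩,.a ⟨true,0,⟨0,[(27,0)]⟩,⟨1,[(26,0),(8,0),(0,0)]⟩⟩
  ⟨true,0,⟨0,[(4,0),(21,0),(15,0)]⟩,⟨0,[(1,0),(38,0)]⟩⟩ ⟨false,0,⟨1,[(23,0),(2,0)]⟩,⟨0,[(27,0),(0,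
  0),(15,0)]⟩⟩,.o ⟨false,0,⟨3,[(1,1),(2,1),(9,0),(17,0)]⟩,⟨7,[(24,0),(0,0),(0,3),(10,1),(5,3)]⟩⟩]⟩)
  (.Q [0,0,0,-1,0,0,0,0,1,0,0,-1] (.p false [0,0,0,1] [] (⟨0,[(27,0)]⟩,⟨1,[(26,0),(8,0),(0,0)]⟩) .k
  0 (⟨0,[]⟩,⟨0,[]⟩) .k .k) (.R ⟨2,true,false,false,[0,1],[0,0,0,1],[1,1,1,1],(⟨0,[]⟩,⟨0,[]⟩),(⟨0,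
  [(28,0)]⟩,⟨1,[(27,0),(8,0),(0,0)]⟩),⟨0,[]⟩,.k,.k,.k,(.r 0 ⟨0,[(1,0),(1,1),(1,1),(5,0),(5,0),(4,0),
  (4,2),(12,1),(4,0)]⟩ ⟨7,[(12,1),(1,1),(5,1),(4,0),(0,3),(17,0)]⟩),.k,.k,⟨false,0,⟨10,[(1,0),(4,9),
  (5,1),(7,2),(4,0),(15,6)]⟩,⟨0,[(14,0)]⟩⟩,⟨true,0,⟨7,[(18,1),(8,3),(5,2),(0,0)]⟩,⟨0,[(28,0)]⟩⟩,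
  ⟨false,0,⟨0,[]⟩,⟨3,[(25,0),(0,0),(18,1)]⟩⟩,⟨true,0,⟨0,[(0,0)]⟩,⟨11,[(5,5),(0,5),(5,0),(7,0),(2,4),
  (0,0),(7,6),(8,3)]⟩⟩,⟨true,0,⟨0,[(42,0)]⟩,⟨0,[(43,0)]⟩⟩,⟨false,1,⟨4,[(0,0),(10,0),(3,0),(10,1),(0,
  1),(13,0),(3,2)]⟩,⟨1,[(5,1),(21,0),(8,0),(0,0)]⟩⟩,[]⟩) (.R ⟨1,false,false,false,[1,0,0,-1],[1,-1],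
  [1,1,0,0,0,0,0,0,-1],(⟨1,[(27,0),(8,0),(0,0)]⟩,⟨0,[(28,0)]⟩),(⟨0,[(39,0)]⟩,⟨0,[(40,0)]⟩),⟨0,[(3,
  0),(23,0)]⟩,.k,.k,(.r (-1) ⟨7,[(12,1),(1,1),(5,1),(4,4),(18,0)]⟩ ⟨1,[(1,0),(0,0),(8,0),(10,0),(22,
  0)]⟩),(.r 0 ⟨0,[(0,1),(0,0),(1,3),(7,0),(5,2),(4,0),(4,2),(12,3),(4,0)]⟩ ⟨7,[(12,1),(1,1),(5,1),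
  (4,0),(0,3),(17,0)]⟩),.k,.k,⟨false,0,⟨10,[(1,0),(4,9),(5,1),(7,2),(4,0),(15,6)]⟩,⟨0,[(14,0)]⟩⟩,
  ⟨true,0,⟨7,[(18,1),(8,3),(5,2),(0,0)]⟩,⟨0,[(28,0)]⟩⟩,⟨false,0,⟨0,[]⟩,⟨3,[(25,0),(0,0),(18,1)]⟩⟩,
  ⟨false,1,⟨23,[(2,3),(11,21),(3,5),(6,0),(1,11),(5,5),(9,1),(1,0)]⟩,⟨0,[(0,0)]⟩⟩,⟨true,0,⟨0,[(42,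
  0)]⟩,⟨0,[(43,0)]⟩⟩,⟨false,1,⟨19,[(1,1),(9,5),(2,3),(0,3),(10,6),(0,9),(1,1),(11,1),(3,10)]⟩,⟨0,
  [(0,0),(42,0)]⟩⟩,[.o ⟨false,0,⟨0,[(17,0)]⟩,⟨3,[(25,0),(0,0),(15,3),(2,1)]⟩⟩,.o ⟨false,1,⟨13,[(14,
  5),(2,7),(0,1),(6,2),(7,1),(4,0),(6,3)]⟩,⟨0,[(42,0)]⟩⟩,.a ⟨true,0,⟨0,[(28,0)]⟩,⟨1,[(27,0),(8,0),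
  (0,0)]⟩⟩ ⟨false,0,⟨0,[(5,0),(21,0)]⟩,⟨1,[(26,0),(18,0)]⟩⟩ ⟨true,0,⟨1,[(17,0),(9,0),(15,0)]⟩,⟨0,
  [(28,0),(13,0)]⟩⟩,.o ⟨false,0,⟨3,[(2,1),(2,1),(9,0),(17,0)]⟩,⟨7,[(25,0),(0,0),(0,3),(10,1),(5,
  3)]⟩⟩]⟩))))) (.Q [0,0,0,0,0,1,0,0,0,0,0,-1] (.p false [0,0,0,1] [] (⟨0,[(24,0)]⟩,⟨1,[(23,0),(8,0),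
  (0,0)]⟩) .k 0 (⟨0,[]⟩,⟨0,[]⟩) .k .k) (.R ⟨0,false,false,false,[0,0,0,1],[1,-1],[1,1],(⟨0,[(25,
  0)]⟩,⟨1,[(24,0),(8,0),(0,0)]⟩),(⟨0,[(36,0)]⟩,⟨0,[(37,0)]⟩),⟨0,[(0,0)]⟩,.k,.k,(.r (-1) ⟨7,[(9,1),
  (1,1),(5,1),(4,0),(0,3),(17,0)]⟩ ⟨0,[(1,0),(14,0)]⟩),(.r (-1) ⟨5,[(16,1),(2,1),(2,0),(0,3),(6,1),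
  (11,0)]⟩ ⟨1,[(1,0),(1,0),(5,0)]⟩),.k,.k,⟨false,0,⟨0,[(39,0)]⟩,⟨13,[(1,1),(7,1),(1,7),(10,2),(19,
  2)]⟩⟩,⟨true,0,⟨1,[(12,0),(12,1),(4,0)]⟩,⟨1,[(24,0),(8,0),(0,0)]⟩⟩,⟨false,0,⟨3,[(1,0),(1,2),(5,
  0)]⟩,⟨1,[(23,0),(18,0)]⟩⟩,⟨true,0,⟨23,[(1,10),(0,11),(0,0),(5,2),(5,7),(5,3),(18,7)]⟩,⟨0,[(5,0),
  (13,0)]⟩⟩,⟨false,0,⟨0,[]⟩,⟨0,[]⟩⟩,⟨false,0,⟨0,[]⟩,⟨0,[]⟩⟩,[.o ⟨false,0,⟨0,[(14,0)]⟩,⟨3,[(22,0),(0,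
  0),(15,3),(2,1)]⟩⟩,.o ⟨false,1,⟨13,[(11,5),(2,7),(0,1),(6,2),(7,1),(4,0),(6,3)]⟩,⟨0,[(39,0)]⟩⟩,.a
  ⟨true,0,⟨1,[(24,0),(8,0),(0,0)]⟩,⟨0,[(25,0)]⟩⟩ ⟨false,0,⟨0,[]⟩,⟨3,[(22,0),(0,0),(18,1)]⟩⟩ ⟨true,0,
  ⟨0,[(14,0),(10,0)]⟩,⟨1,[(19,0),(0,0),(3,0),(19,0)]⟩⟩,.o ⟨false,0,⟨7,[(15,1),(8,3),(5,2),(0,0)]⟩,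
  ⟨3,[(2,1),(20,0),(11,0),(5,1)]⟩⟩]⟩) (.R ⟨1,false,false,true,[0,0,0,1],[1,-1],[1,1,0,0,0,0,0,0,1],
  (⟨0,[(25,0)]⟩,⟨1,[(24,0),(8,0),(0,0)]⟩),(⟨0,[(36,0)]⟩,⟨0,[(37,0)]⟩),⟨0,[(0,0)]⟩,.k,.k,(.r (-1) ⟨7,
  [(9,1),(1,1),(5,1),(4,0),(0,3),(17,0)]⟩ ⟨0,[(1,0),(14,0)]⟩),(.r (-1) ⟨5,[(16,1),(2,1),(2,0),(0,3),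
  (6,1),(11,0)]⟩ ⟨1,[(1,0),(1,0),(5,0)]⟩),.k,.k,⟨false,1,⟨1,[(23,0),(15,1),(2,0)]⟩,⟨1,[(1,0),(1,0),
  (5,0)]⟩⟩,⟨true,0,⟨1,[(12,0),(12,1),(4,0)]⟩,⟨1,[(24,0),(8,0),(0,0)]⟩⟩,⟨false,0,⟨0,[]⟩,⟨3,[(22,0),
  (0,0),(18,1)]⟩⟩,⟨false,0,⟨23,[(1,10),(0,11),(0,0),(5,2),(5,7),(5,3),(18,7)]⟩,⟨0,[(5,0),(13,0),(22,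
  0)]⟩⟩,⟨true,0,⟨0,[(39,0)]⟩,⟨0,[(40,0)]⟩⟩,⟨false,0,⟨59,[(1,16),(0,29),(0,12),(0,6),(3,11),(3,14),
  (15,2),(9,3)]⟩,⟨1,[(23,0),(0,0),(8,0),(0,0),(7,0)]⟩⟩,[.o ⟨false,0,⟨6,[(9,0),(2,1),(1,1),(2,2),(8,
  0),(1,2)]⟩,⟨0,[(39,0),(2,0)]⟩⟩,.o ⟨false,0,⟨0,[(14,0)]⟩,⟨3,[(22,0),(0,0),(15,3),(2,1)]⟩⟩,.a ⟨true,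
  0,⟨1,[(24,0),(8,0),(0,0)]⟩,⟨0,[(25,0)]⟩⟩ ⟨true,0,⟨0,[(6,0)]⟩,⟨3,[(1,0),(1,2),(5,0)]⟩⟩ ⟨false,0,⟨0,
  [(14,0),(10,0)]⟩,⟨7,[(19,3),(0,3),(1,0),(0,0),(0,3),(17,5)]⟩⟩,.o ⟨false,0,⟨7,[(15,1),(8,3),(5,2),
  (0,0)]⟩,⟨3,[(2,1),(20,0),(11,0),(5,1)]⟩⟩]⟩))) (.Q [0,0,0,0,0,1,0,0,0,0,0,-1] (.p false [0,0,0,1]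
  [] (⟨0,[(23,0)]⟩,⟨1,[(22,0),(8,0),(0,0)]⟩) .k 0 (⟨0,[]⟩,⟨0,[]⟩) .k .k) (.R ⟨0,false,false,true,[0,
  0,0,1],[0,1],[0,1,2,1],(⟨0,[(24,0)]⟩,⟨1,[(23,0),(8,0),(0,0)]⟩),(⟨0,[(36,0)]⟩,⟨0,[(35,0)]⟩),⟨0,[(0,
  0)]⟩,.k,.k,(.x 0 ⟨1,[(11,0),(17,0),(5,1)]⟩ ⟨3,[(21,0),(0,0),(13,3),(3,1)]⟩),(.x 0 ⟨1,[(11,0),(17,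
  0),(5,1)]⟩ ⟨3,[(21,0),(0,0),(13,3),(3,1)]⟩),.k,.k,⟨true,0,⟨1,[(29,0),(0,0)]⟩,⟨0,[]⟩⟩,⟨false,1,⟨0,
  [(24,0),(15,0)]⟩,⟨7,[(14,1),(8,3),(5,2),(0,0)]⟩⟩,⟨false,0,⟨1,[(2,1),(26,0),(0,0)]⟩,⟨0,[(1,0),(4,
  0),(0,0),(16,1),(0,0),(15,0)]⟩⟩,⟨true,0,⟨4,[(2,4),(5,0),(7,0),(7,4),(12,2),(5,0)]⟩,⟨0,[(1,0),(11,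
  0),(10,0)]⟩⟩,⟨false,0,⟨0,[]⟩,⟨0,[]⟩⟩,⟨false,0,⟨0,[]⟩,⟨0,[]⟩⟩,[.o ⟨false,0,⟨0,[(38,0)]⟩,⟨13,[(10,
  5),(2,7),(0,1),(6,2),(7,1),(4,0),(6,3)]⟩⟩,.o ⟨false,1,⟨3,[(21,0),(0,0),(15,3),(2,1)]⟩,⟨0,[(13,
  0)]⟩⟩,.a ⟨true,0,⟨1,[(23,0),(8,0),(0,0)]⟩,⟨0,[(24,0)]⟩⟩ ⟨false,0,⟨1,[(1,1),(0,1),(8,0),(12,3),(4,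
  0)]⟩,⟨1,[(6,1),(0,0),(8,0),(1,0),(22,1)]⟩⟩ ⟨true,0,⟨0,[(24,0),(13,0)]⟩,⟨1,[(13,0),(9,0),(15,0)]⟩⟩,
  .o ⟨false,0,⟨7,[(14,1),(8,3),(5,2),(0,0)]⟩,⟨1,[(24,1),(9,0),(5,0)]⟩⟩]⟩) (.Q [0,0,0,-1,0,0,0,0,-1,
  -1,0,1] (.p true [0,0,0,1] [1] (⟨0,[(24,0)]⟩,⟨1,[(23,0),(8,0),(0,0)]⟩) .k 1 (⟨0,[]⟩,⟨0,[]⟩) .k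
  .k) (.R ⟨2,true,false,false,[0,1],[1,0,0,-1],[0,1,1],(⟨0,[]⟩,⟨0,[]⟩),(⟨1,[(24,0),(8,0),(0,0)]⟩,⟨0,
  [(25,0)]⟩),⟨0,[]⟩,.k,.k,.k,(.x (-1) ⟨3,[(22,0),(0,0),(13,3),(3,1)]⟩ ⟨2,[(1,1),(13,0),(8,0),(5,0),
  (5,0)]⟩),.k,.k,⟨false,0,⟨0,[(1,7),(0,0),(1,0),(3,2),(3,0),(1,1),(4,1),(4,2),(12,7)]⟩,⟨5,[(0,1),(2,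
  1),(3,3),(0,3),(10,3),(2,0),(1,0),(8,0),(0,0),(7,4)]⟩⟩,⟨true,0,⟨1,[(12,0),(12,1),(4,0)]⟩,⟨1,[(24,
  0),(8,0),(0,0)]⟩⟩,⟨false,0,⟨0,[(40,0)]⟩,⟨0,[(39,0),(2,0)]⟩⟩,⟨true,0,⟨0,[(0,0)]⟩,⟨0,[(5,0),(13,
  0)]⟩⟩,⟨true,0,⟨0,[(44,0)]⟩,⟨0,[]⟩⟩,⟨false,1,⟨7,[(0,3),(2,1),(18,0),(2,3),(9,1),(2,1),(3,4)]⟩,⟨0,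
  [(2,0),(22,0)]⟩⟩,[]⟩) (.R ⟨1,false,false,false,[0,0,0,1],[1,-1],[1,1,0,0,0,0,0,0,1],(⟨0,[(25,0)]⟩,
  ⟨1,[(24,0),(8,0),(0,0)]⟩),(⟨0,[(36,0)]⟩,⟨0,[(37,0)]⟩),⟨0,[(1,0)]⟩,.k,.k,(.x 0 ⟨2,[(1,1),(13,0),(8,
  0),(5,0),(5,0)]⟩ ⟨3,[(22,0),(0,0),(13,3),(3,1)]⟩),(.x (-1) ⟨3,[(22,0),(0,0),(13,3),(3,1)]⟩ ⟨2,[(1,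
  1),(13,0),(8,0),(5,0),(5,0)]⟩),.k,.k,⟨false,0,⟨13,[(0,5),(5,7),(1,3),(3,2),(3,0),(2,0),(5,5),(12,
  4)]⟩,⟨0,[(3,0),(3,0),(9,0),(24,0)]⟩⟩,⟨true,0,⟨1,[(12,0),(12,1),(4,0)]⟩,⟨1,[(24,0),(8,0),(0,0)]⟩⟩,
  ⟨false,0,⟨0,[]⟩,⟨3,[(22,0),(0,0),(18,1)]⟩⟩,⟨false,1,⟨1,[(14,1),(7,0),(2,1),(16,0)]⟩,⟨0,[(0,0)]⟩⟩,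
  ⟨true,0,⟨0,[(39,0)]⟩,⟨0,[(40,0)]⟩⟩,⟨false,1,⟨3,[(3,1),(10,3),(7,0),(2,3),(12,1),(3,2)]⟩,⟨0,[(2,0),
  (22,0)]⟩⟩,[.o ⟨false,0,⟨0,[(14,0)]⟩,⟨3,[(22,0),(0,0),(15,3),(2,1)]⟩⟩,.o ⟨false,1,⟨13,[(11,5),(2,
  7),(0,1),(6,2),(7,1),(4,0),(6,3)]⟩,⟨0,[(39,0)]⟩⟩,.a ⟨true,0,⟨1,[(24,0),(8,0),(0,0)]⟩,⟨0,[(25,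
  0)]⟩⟩ ⟨false,0,⟨0,[(0,0),(13,0),(10,0)]⟩,⟨1,[(22,0),(19,0)]⟩⟩ ⟨true,0,⟨0,[(14,0),(10,0)]⟩,⟨1,[(19,
  0),(0,0),(3,0),(19,0)]⟩⟩,.o ⟨false,0,⟨7,[(15,1),(8,3),(5,2),(0,0)]⟩,⟨1,[(25,1),(9,0),(5,
  0)]⟩⟩]⟩))))))) (.Q [0,0,0,0,0,1,0,0,0,0,0,-1] (.p false [0,0,0,1] [] (⟨0,[(19,0)]⟩,⟨1,[(18,0),(8,
  0),(0,0)]⟩) .k 0 (⟨0,[]⟩,⟨0,[]⟩) .k .k) (.R ⟨0,false,false,false,[0,0,0,1],[1,-1],[1,0,0,0,0,0,0,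
  0,1],(⟨0,[(20,0)]⟩,⟨1,[(19,0),(8,0),(0,0)]⟩),(⟨0,[(31,0)]⟩,⟨0,[(32,0)]⟩),⟨0,[(0,0)]⟩,.k,.k,(.r
  (-1) ⟨7,[(4,1),(1,1),(5,1),(4,0),(0,3),(17,0)]⟩ ⟨1,[(1,1),(9,0),(0,0),(21,0)]⟩),(.r (-1) ⟨5,[(11,
  1),(2,1),(2,0),(0,3),(6,1),(11,0)]⟩ ⟨4,[(1,4),(2,1),(7,1),(20,0),(5,1)]⟩),.k,.k,⟨false,1,⟨1,[(18,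
  0),(15,1),(2,0)]⟩,⟨4,[(1,4),(2,1),(7,1),(20,0),(5,1)]⟩⟩,⟨true,0,⟨1,[(7,0),(12,1),(4,0)]⟩,⟨1,[(19,
  0),(8,0),(0,0)]⟩⟩,⟨true,0,⟨0,[]⟩,⟨0,[(39,0)]⟩⟩,⟨false,0,⟨0,[(1,0),(7,0),(10,0)]⟩,⟨7,[(14,3),(0,3),
  (1,0),(0,4),(0,3),(17,1)]⟩⟩,⟨false,0,⟨0,[]⟩,⟨0,[]⟩⟩,⟨false,0,⟨0,[]⟩,⟨0,[]⟩⟩,[.o ⟨false,0,⟨0,[(9,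
  0)]⟩,⟨3,[(17,0),(0,0),(15,3),(2,1)]⟩⟩,.o ⟨false,1,⟨13,[(6,5),(2,7),(0,1),(6,2),(7,1),(4,0),(6,
  3)]⟩,⟨0,[(34,0)]⟩⟩,.a ⟨true,0,⟨1,[(19,0),(8,0),(0,0)]⟩,⟨0,[(20,0)]⟩⟩ ⟨false,1,⟨1,[(18,0),(18,0)]⟩,
  ⟨0,[(1,0),(37,0)]⟩⟩ ⟨true,0,⟨0,[(9,0),(10,0)]⟩,⟨1,[(14,0),(0,0),(3,0),(19,0)]⟩⟩,.o ⟨false,0,⟨7,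
  [(10,1),(8,3),(5,2),(0,0)]⟩,⟨1,[(20,1),(9,0),(5,0)]⟩⟩]⟩) (.R ⟨1,false,false,true,[1,0,0,-1],[2,-1,
  -1],[1,1,0,0,0,0,0,0,-1],(⟨1,[(19,0),(8,0),(0,0)]⟩,⟨0,[(20,0)]⟩),(⟨0,[(28,0),(2,0)]⟩,⟨0,[(13,
  0)]⟩),⟨0,[(0,0),(18,0)]⟩,.k,.k,(.r 0 ⟨4,[(1,4),(2,1),(7,1),(20,0),(5,1)]⟩ ⟨5,[(11,1),(2,1),(2,0),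
  (0,3),(6,1),(11,0)]⟩),(.r 0 ⟨1,[(1,1),(9,0),(15,0),(11,1)]⟩ ⟨1,[(3,0),(2,1),(5,0),(1,0)]⟩),.k,.k,
  ⟨false,0,⟨0,[(1,0),(25,0),(6,0)]⟩,⟨1,[(3,0),(2,1),(5,0),(1,0)]⟩⟩,⟨true,0,⟨1,[(7,0),(11,0),(2,0)]⟩,
  ⟨0,[(3,0),(16,0),(7,0),(0,0)]⟩⟩,⟨false,0,⟨0,[]⟩,⟨3,[(17,0),(0,0),(18,1)]⟩⟩,⟨false,1,⟨3,[(6,1),(0,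
  1),(4,1),(5,0),(0,1),(1,1),(15,0)]⟩,⟨0,[(1,0),(13,0),(4,0)]⟩⟩,⟨true,0,⟨0,[(34,0)]⟩,⟨0,[(35,0)]⟩⟩,
  ⟨false,1,⟨3,[(3,1),(2,1),(0,1),(6,1),(3,0),(0,1),(1,1),(15,0)]⟩,⟨1,[(1,1),(14,0),(3,1),(7,0),(0,
  0)]⟩⟩,[.o ⟨false,0,⟨0,[(9,0),(11,0)]⟩,⟨3,[(15,3),(1,0),(0,0),(18,1)]⟩⟩,.o ⟨false,1,⟨5,[(6,1),(0,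
  1),(1,1),(2,1),(4,0),(3,3),(8,0),(6,1)]⟩,⟨0,[(15,0)]⟩⟩,.a ⟨true,0,⟨0,[(20,0)]⟩,⟨1,[(19,0),(8,0),
  (0,0)]⟩⟩ ⟨false,0,⟨0,[(1,0),(37,0)]⟩,⟨1,[(18,0),(18,0)]⟩⟩ ⟨true,0,⟨1,[(9,1),(9,0),(1,0),(2,0)]⟩,
  ⟨0,[(15,0),(4,0)]⟩⟩,.o ⟨false,0,⟨1,[(7,0),(12,1),(4,0)]⟩,⟨7,[(17,0),(0,0),(0,3),(10,1),(5,
  3)]⟩⟩]⟩)))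

theorem ok7 : chk (cU (-1) false 3) t7 r13 = true := by decide +kernel

noncomputable def t15 : Tre :=
  (.R ⟨2,false,false,false,[0,1],[0,0,1],[0,1,1],(⟨0,[]⟩,⟨0,[]⟩),(⟨0,[(21,0)]⟩,⟨0,[(20,0)]⟩),⟨0,[]⟩,
  .k,.k,.k,.k,.k,.k,⟨false,0,⟨0,[(0,0),(12,0),(3,0)]⟩,⟨1,[(19,1),(8,0),(0,0)]⟩⟩,⟨true,0,⟨0,[(17,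
  0)]⟩,⟨0,[(0,0),(13,0)]⟩⟩,⟨false,0,⟨0,[(27,0)]⟩,⟨0,[(26,0),(2,0)]⟩⟩,⟨true,0,⟨1,[(1,0),(6,0),(18,
  0)]⟩,⟨0,[(6,0)]⟩⟩,⟨true,0,⟨0,[(31,0)]⟩,⟨0,[]⟩⟩,⟨true,0,⟨0,[(1,0),(5,0)]⟩,⟨0,[(16,0)]⟩⟩,[.o ⟨false,
  0,⟨0,[(1,0),(5,0)]⟩,⟨1,[(16,1),(5,0),(6,0)]⟩⟩,.o ⟨false,1,⟨7,[(8,3),(0,0),(0,0),(11,1),(6,3)]⟩,⟨0,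
  [(13,0)]⟩⟩,.a ⟨true,0,⟨0,[(0,0)]⟩,⟨1,[(17,0),(0,0)]⟩⟩ ⟨false,0,⟨1,[(17,0),(0,0)]⟩,⟨1,[(28,0),(0,
  0)]⟩⟩ ⟨true,0,⟨7,[(2,1),(5,3),(8,2),(0,0)]⟩,⟨0,[(0,0),(12,0)]⟩⟩,.e ⟨true,0,⟨0,[(31,0)]⟩,⟨0,[]⟩⟩
  ⟨true,0,⟨0,[(1,0),(5,0)]⟩,⟨0,[(16,0)]⟩⟩]⟩)

theorem ok15 : chk (cU (-1) false 3) t15 r7 = true := by decide +kernel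

noncomputable def t19 : Tre :=
  (.Q [0,0,-1,0,0,0,0,0,0,1] (.pp false [-1,1]) (.R ⟨2,false,false,false,[0,1],[-1,1,1],[0,1,1],(⟨0,
  []⟩,⟨0,[]⟩),(⟨0,[(3,0)]⟩,⟨0,[(18,0),(2,0)]⟩),⟨0,[]⟩,.k,.k,.k,.k,.k,.k,⟨false,0,⟨2,[(1,0),(0,1),
  (20,0)]⟩,⟨0,[(17,0),(6,0),(2,0)]⟩⟩,⟨true,0,⟨0,[(0,0),(14,0)]⟩,⟨0,[(12,0)]⟩⟩,⟨false,0,⟨0,[(25,0)]⟩,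
  ⟨0,[(24,0),(2,0)]⟩⟩,⟨true,0,⟨1,[(6,0),(11,0),(0,0)]⟩,⟨0,[(11,0)]⟩⟩,⟨true,0,⟨0,[(29,0)]⟩,⟨0,[]⟩⟩,
  ⟨true,0,⟨0,[(5,0)]⟩,⟨2,[(1,0),(0,0),(8,0),(0,1),(16,0)]⟩⟩,[.o ⟨false,0,⟨0,[(5,0)]⟩,⟨2,[(1,0),(0,
  0),(9,1),(1,0),(5,1),(6,0)]⟩⟩,.o ⟨false,1,⟨3,[(5,3),(1,0),(0,0),(18,1)]⟩,⟨0,[(1,0),(10,1),(2,0),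
  (7,0)]⟩⟩,.a ⟨true,0,⟨0,[(0,0)]⟩,⟨1,[(15,0),(0,0)]⟩⟩ ⟨false,0,⟨1,[(15,0),(0,0)]⟩,⟨1,[(26,0),(0,
  0)]⟩⟩ ⟨true,0,⟨1,[(5,1),(9,0),(0,0)]⟩,⟨1,[(1,0),(9,1),(5,0)]⟩⟩,.e ⟨true,0,⟨0,[(29,0)]⟩,⟨0,[]⟩⟩
  ⟨true,0,⟨0,[(5,0)]⟩,⟨2,[(1,0),(0,0),(8,0),(0,1),(16,0)]⟩⟩]⟩) (.Q [0,0,0,0,0,0,1,0,0,1,-1] (.p
  false [0,0,1] [1] (⟨0,[(19,0)]⟩,⟨0,[(18,0)]⟩) .k 1 (⟨0,[]⟩,⟨0,[]⟩) .k .k) (.Q [0,0,0,0,0,0,-1,0,0,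
  0,1] (.p true [0,0,1] [] (⟨0,[(20,0)]⟩,⟨0,[(19,0)]⟩) .k 0 (⟨0,[]⟩,⟨0,[]⟩) .k .k) (.R ⟨0,false,
  false,false,[1,0,-1],[1,-1],[1,1],(⟨0,[(20,0)]⟩,⟨0,[(21,0)]⟩),(⟨0,[(23,0)]⟩,⟨0,[(24,0)]⟩),⟨0,[(5,
  0)]⟩,.k,.k,.k,.k,.k,.k,⟨false,0,⟨0,[(26,0)]⟩,⟨3,[(3,1),(5,0),(0,0),(8,1),(9,1)]⟩⟩,⟨true,0,⟨0,[(17,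
  0)]⟩,⟨0,[(0,0)]⟩⟩,⟨false,0,⟨0,[(19,0)]⟩,⟨9,[(1,1),(1,1),(0,1),(1,5),(10,3),(4,0),(6,8)]⟩⟩,⟨true,0,
  ⟨3,[(2,1),(0,0),(4,1),(10,0),(7,1)]⟩,⟨0,[(6,0)]⟩⟩,⟨false,0,⟨0,[]⟩,⟨0,[]⟩⟩,⟨false,0,⟨0,[]⟩,⟨0,[]⟩⟩,
  [.o ⟨false,0,⟨1,[(2,1),(0,0),(15,0)]⟩,⟨3,[(9,0),(0,0),(15,3),(2,1)]⟩⟩,.o ⟨false,1,⟨1,[(22,0),(4,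
  1),(1,0)]⟩,⟨0,[(26,0)]⟩⟩,.a ⟨true,0,⟨0,[(0,0)]⟩,⟨0,[(1,0)]⟩⟩ ⟨false,0,⟨0,[]⟩,⟨3,[(9,0),(0,0),(18,
  1)]⟩⟩ ⟨true,0,⟨4,[(2,0),(0,1),(4,0),(8,2),(9,0)]⟩,⟨0,[(6,0),(12,0)]⟩⟩,.o ⟨false,0,⟨0,[(14,0)]⟩,⟨1,
  [(1,1),(20,0),(5,0)]⟩⟩]⟩) (.Q [0,0,-1,0,0,0,1,0,0,2,-1] (.p false [-1,1,1] [1] (⟨0,[(5,0)]⟩,⟨0,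
  [(20,0),(2,0)]⟩) .k 1 (⟨0,[]⟩,⟨0,[]⟩) .k .k) (.R ⟨0,false,false,false,[-1,1,1],[0,0,1],[],(⟨0,[(6,
  0)]⟩,⟨0,[(21,0),(2,0)]⟩),(⟨0,[(22,0)]⟩,⟨0,[(21,0)]⟩),⟨0,[(21,0)]⟩,.k,.k,.k,.k,.k,.k,⟨false,1,⟨1,
  [(1,0),(3,0),(1,0),(21,0),(0,0)]⟩,⟨0,[(20,0)]⟩⟩,⟨true,0,⟨0,[(3,0)]⟩,⟨1,[(0,0),(18,0)]⟩⟩,⟨false,1,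
  ⟨5,[(1,0),(2,1),(0,2),(1,0),(21,0),(0,4)]⟩,⟨0,[(8,0),(6,0)]⟩⟩,⟨true,0,⟨1,[(3,1),(0,0),(15,0)]⟩,⟨0,
  [(8,0),(8,0)]⟩⟩,⟨false,0,⟨0,[]⟩,⟨0,[]⟩⟩,⟨false,0,⟨0,[]⟩,⟨0,[]⟩⟩,[.o ⟨false,0,⟨0,[(1,0),(18,0)]⟩,
  ⟨1,[(17,1),(5,0),(6,0)]⟩⟩,.o ⟨false,1,⟨7,[(9,3),(0,0),(0,0),(11,1),(6,3)]⟩,⟨0,[(14,0)]⟩⟩,.a ⟨true,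
  0,⟨0,[(0,0)]⟩,⟨0,[(15,0)]⟩⟩ ⟨false,1,⟨3,[(10,0),(0,0),(18,1)]⟩,⟨0,[]⟩⟩ ⟨true,0,⟨0,[(3,0),(16,0)]⟩,
  ⟨5,[(0,2),(3,0),(0,1),(1,2),(18,0)]⟩⟩,.o ⟨false,0,⟨0,[(2,0)]⟩,⟨1,[(15,1),(7,0),(5,0)]⟩⟩]⟩) (.I [1,
  0,0,1,0,0,0,0,-1] (.Q [0,0,0,0,0,1,0,0,0,0,0,-1] (.p false [0,0,0,1] [] (⟨0,[(14,0)]⟩,⟨1,[(13,0),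
  (8,0),(0,0)]⟩) .k 0 (⟨0,[]⟩,⟨0,[]⟩) .k .k) (.R ⟨0,false,false,true,[0,0,0,1],[2,-1,-1],[0,0,0,-1,
  0,0,0,0,1],(⟨0,[(15,0)]⟩,⟨1,[(14,0),(8,0),(0,0)]⟩),(⟨0,[(23,0),(2,0)]⟩,⟨0,[(8,0)]⟩),⟨0,[(0,0)]⟩,
  .k,.k,(.r (-1) ⟨3,[(6,1),(5,0),(0,2),(8,1)]⟩ ⟨1,[(1,1),(18,0),(0,0)]⟩),(.r (-1) ⟨3,[(10,3),(1,0),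
  (0,2),(3,3)]⟩ ⟨1,[(1,1),(4,1),(13,0),(0,0)]⟩),.k,.k,⟨false,1,⟨1,[(13,0),(8,1),(9,0)]⟩,⟨2,[(1,2),
  (4,0),(0,1),(20,0)]⟩⟩,⟨true,0,⟨0,[(2,0),(12,0)]⟩,⟨1,[(4,1),(9,0),(8,0),(0,0)]⟩⟩,⟨true,0,⟨0,[(30,
  0)]⟩,⟨0,[(29,0)]⟩⟩,⟨false,0,⟨1,[(1,1),(0,0),(3,1),(8,1),(1,1),(2,0)]⟩,⟨1,[(10,1),(2,0),(0,0),(8,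
  0),(0,0),(7,0)]⟩⟩,⟨false,0,⟨0,[]⟩,⟨0,[]⟩⟩,⟨false,0,⟨0,[]⟩,⟨0,[]⟩⟩,[.o ⟨false,0,⟨10,[(2,7),(0,0),
  (2,3),(0,2),(8,5),(1,1)]⟩,⟨3,[(10,3),(1,0),(0,0),(18,1)]⟩⟩,.o ⟨false,1,⟨2,[(6,0),(0,0),(9,1),(1,
  0),(5,1),(6,0)]⟩,⟨0,[(10,0)]⟩⟩,.a ⟨true,0,⟨1,[(14,0),(8,0),(0,0)]⟩,⟨0,[(15,0)]⟩⟩ ⟨false,1,⟨1,[(13,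
  0),(16,1),(1,0)]⟩,⟨0,[(1,0)]⟩⟩ ⟨true,0,⟨10,[(2,7),(0,0),(2,3),(0,2),(7,10),(0,5),(1,1)]⟩,⟨1,[(10,
  1),(3,0),(8,0),(0,0)]⟩⟩,.o ⟨false,0,⟨1,[(14,0),(2,0),(2,0)]⟩,⟨1,[(15,1),(9,0),(5,0)]⟩⟩]⟩) (.Q [0,
  1,0,-1,-1,0,0,0,-1,-1,0,1] (.p true [0,0,0,1] [1] (⟨0,[(15,0)]⟩,⟨1,[(14,0),(8,0),(0,0)]⟩) .k 1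
  (⟨0,[]⟩,⟨0,[]⟩) .k .k) (.R ⟨2,true,false,true,[0,1],[1,0,0,-1],[1,1,1,1],(⟨0,[]⟩,⟨0,[]⟩),(⟨1,[(15,
  0),(8,0),(0,0)]⟩,⟨0,[(16,0)]⟩),⟨0,[]⟩,.k,.k,.k,(.r (-1) ⟨7,[(10,3),(0,3),(1,0),(0,4),(3,3),(2,3),
  (11,1)]⟩ ⟨5,[(0,1),(1,1),(4,2),(5,0),(1,0),(7,2),(0,0),(0,0),(7,0)]⟩),.k,.k,⟨false,1,⟨1,[(14,0),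
  (15,1),(2,0)]⟩,⟨5,[(0,1),(1,1),(4,2),(5,0),(1,0),(7,2),(0,0),(0,0),(7,0)]⟩⟩,⟨true,0,⟨1,[(3,0),(12,
  1),(4,0)]⟩,⟨1,[(15,0),(8,0),(0,0)]⟩⟩,⟨false,0,⟨0,[]⟩,⟨3,[(13,0),(0,0),(18,1)]⟩⟩,⟨true,(-1),⟨0,[(0,
  0)]⟩,⟨7,[(10,3),(0,3),(1,0),(0,4),(0,3),(17,1)]⟩⟩,⟨true,0,⟨0,[(30,0)]⟩,⟨0,[(31,0)]⟩⟩,⟨false,0,⟨3,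
  [(0,1),(1,1),(13,1),(9,0),(6,0)]⟩,⟨1,[(14,0),(0,0),(8,0),(0,0),(7,0)]⟩⟩,[]⟩) (.R ⟨1,false,false,
  false,[1,0,0,-1],[1,-1],[1,1,0,0,0,0,0,0,-1],(⟨1,[(15,0),(8,0),(0,0)]⟩,⟨0,[(16,0)]⟩),(⟨0,[(27,
  0)]⟩,⟨0,[(28,0)]⟩),⟨0,[(1,0),(13,0)]⟩,.k,.k,(.r 0 ⟨1,[(2,1),(4,0),(15,0),(7,1)]⟩ ⟨7,[(0,3),(12,0),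
  (0,2),(1,3),(1,3),(2,3),(8,3)]⟩),(.r 0 ⟨1,[(2,1),(18,0),(0,0)]⟩ ⟨3,[(7,1),(5,0),(0,2),(8,1)]⟩),.k,
  .k,⟨false,0,⟨0,[(2,0),(32,0)]⟩,⟨1,[(7,0),(6,0),(8,0),(9,0)]⟩⟩,⟨true,0,⟨1,[(15,0),(2,0),(2,0)]⟩,⟨0,
  [(16,0)]⟩⟩,⟨false,0,⟨0,[]⟩,⟨3,[(13,0),(0,0),(18,1)]⟩⟩,⟨false,1,⟨9,[(3,2),(3,1),(4,0),(1,4),(0,4),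
  (5,0),(9,5),(1,4)]⟩,⟨0,[(2,0),(13,0)]⟩⟩,⟨true,0,⟨0,[(30,0)]⟩,⟨0,[(31,0)]⟩⟩,⟨false,1,⟨9,[(0,3),(2,
  3),(0,1),(2,1),(4,0),(1,2),(0,2),(17,2)]⟩,⟨0,[(2,0),(13,0),(14,0)]⟩⟩,[.o ⟨false,0,⟨4,[(3,2),(3,1),
  (4,0),(8,0),(9,0)]⟩,⟨3,[(0,1),(12,0),(2,1),(9,0),(3,1)]⟩⟩,.o ⟨false,1,⟨1,[(26,0),(4,1),(1,0)]⟩,⟨0,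
  [(30,0)]⟩⟩,.a ⟨true,0,⟨0,[(16,0)]⟩,⟨1,[(15,0),(8,0),(0,0)]⟩⟩ ⟨false,0,⟨0,[(2,0),(28,0)]⟩,⟨1,[(14,
  0),(18,0)]⟩⟩ ⟨true,0,⟨9,[(3,2),(3,1),(4,0),(2,4),(5,0),(9,5)]⟩,⟨0,[(16,0),(13,0)]⟩⟩,.o ⟨false,0,
  ⟨1,[(3,0),(12,1),(4,0)]⟩,⟨7,[(13,0),(0,0),(0,3),(10,1),(5,3)]⟩⟩]⟩))) (.Q [0,0,0,0,0,1,0,0,0,0,-1]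
  (.ed true [1,-1,1] .k) (.Q [0,0,0,-1,0,0,0,0,-1,-1,0,1] (.p true [0,0,0,1] [1] (⟨0,[(15,0)]⟩,⟨1,
  [(14,0),(8,0),(0,0)]⟩) .k 1 (⟨0,[]⟩,⟨0,[]⟩) .k .k) (.I [0,0,-1,-1,0,0,0,0,-1] (.Q [0,-1,0,1,1,0,0,
  0,1,1,0,-1] (.p false [0,0,0,1] [1] (⟨0,[(17,0)]⟩,⟨1,[(16,0),(8,0),(0,0)]⟩) .k 1 (⟨0,[]⟩,⟨0,[]⟩)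
  .k .k) (.R ⟨0,false,false,true,[0,0,0,1],[1,-1],[0,0,0,-1,0,0,0,0,1],(⟨0,[(18,0)]⟩,⟨1,[(17,0),(8,
  0),(0,0)]⟩),(⟨0,[(29,0)]⟩,⟨0,[(30,0)]⟩),⟨1,[(3,0),(7,0),(5,0)]⟩,.k,.k,(.x 0 ⟨1,[(5,0),(17,0),(5,
  1)]⟩ ⟨3,[(15,0),(0,0),(13,3),(3,1)]⟩),(.r (-1) ⟨7,[(0,3),(14,0),(0,2),(1,3),(1,3),(2,3),(8,3)]⟩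
  ⟨0,[(1,0)]⟩),.k,.k,⟨false,1,⟨1,[(16,0),(18,0)]⟩,⟨0,[(1,0),(30,0)]⟩⟩,⟨true,0,⟨1,[(5,0),(12,1),(4,
  0)]⟩,⟨1,[(17,0),(8,0),(0,0)]⟩⟩,⟨true,0,⟨0,[(33,0)]⟩,⟨0,[(32,0)]⟩⟩,⟨false,0,⟨0,[(2,0)]⟩,⟨0,[(0,
  0)]⟩⟩,⟨false,0,⟨0,[]⟩,⟨0,[]⟩⟩,⟨false,0,⟨0,[]⟩,⟨0,[]⟩⟩,[.o ⟨false,0,⟨3,[(5,1),(3,0),(0,1),(10,1),
  (3,0)]⟩,⟨0,[(32,0),(2,0)]⟩⟩,.o ⟨false,0,⟨4,[(5,2),(3,1),(4,0),(8,0),(9,0)]⟩,⟨3,[(15,0),(0,0),(15,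
  3),(2,1)]⟩⟩,.a ⟨true,0,⟨1,[(17,0),(8,0),(0,0)]⟩,⟨0,[(18,0)]⟩⟩ ⟨true,0,⟨0,[(4,0)]⟩,⟨2,[(1,0),(0,1),
  (2,0),(0,0),(5,2),(0,2),(3,0)]⟩⟩ ⟨false,0,⟨9,[(2,2),(1,2),(0,3),(0,1),(2,1),(4,0),(3,6)]⟩,⟨5,[(0,
  1),(11,1),(0,1),(1,0),(1,1),(17,2)]⟩⟩,.o ⟨false,0,⟨1,[(17,0),(2,0),(2,0)]⟩,⟨1,[(18,1),(9,0),(5,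
  0)]⟩⟩]⟩) (.K ⟨2,[1,0,0,-1],0,0,(⟨1,[(17,0),(8,0),(0,0)]⟩,⟨0,[(18,0)]⟩),.k,(.r 0 ⟨0,[(1,0)]⟩ ⟨7,
  [(12,3),(0,3),(1,0),(0,4),(3,3),(2,3),(11,1)]⟩),(.x (-1) ⟨3,[(15,0),(0,0),(13,3),(3,1)]⟩ ⟨1,[(5,
  0),(17,0),(5,1)]⟩),.k,.k,[⟨0,[(0,0),(11,0),(22,0)]⟩,⟨1,[(4,1),(8,0),(3,0),(4,0),(9,0)]⟩,⟨3,[(7,1),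
  (9,1),(5,0),(0,2)]⟩,⟨1,[(5,0),(12,1),(4,0)]⟩]⟩)) (.R ⟨2,true,false,false,[0,1],[1,0,0,-1],[0,1,1],
  (⟨0,[]⟩,⟨0,[]⟩),(⟨1,[(16,0),(8,0),(0,0)]⟩,⟨0,[(17,0)]⟩),⟨0,[]⟩,.k,.k,.k,(.x (-1) ⟨3,[(14,0),(0,0),
  (13,3),(3,1)]⟩ ⟨1,[(4,0),(17,0),(5,1)]⟩),.k,.k,⟨false,0,⟨0,[(3,0),(27,0)]⟩,⟨3,[(1,3),(6,0),(2,1),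
  (0,1),(3,1),(7,0),(5,1),(3,3)]⟩⟩,⟨true,0,⟨0,[(0,0),(0,0)]⟩,⟨1,[(16,0),(8,0),(0,0)]⟩⟩,⟨false,0,⟨0,
  [(32,0)]⟩,⟨0,[(31,0),(2,0)]⟩⟩,⟨true,0,⟨0,[(1,0)]⟩,⟨3,[(0,0),(2,2),(7,1),(0,1),(3,1),(13,0),(0,
  0)]⟩⟩,⟨true,0,⟨0,[(36,0)]⟩,⟨0,[]⟩⟩,⟨false,1,⟨0,[(1,0),(29,0),(2,0)]⟩,⟨1,[(0,1),(7,0),(7,0),(7,0),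
  (0,0),(0,0)]⟩⟩,[]⟩)) (.R ⟨0,false,false,false,[0,0,0,1],[1,-1],[0,1,0,0,0,0,0,0,1],(⟨0,[(16,0)]⟩,
  ⟨1,[(15,0),(8,0),(0,0)]⟩),(⟨0,[(27,0)]⟩,⟨0,[(28,0)]⟩),⟨1,[(1,0),(7,0),(5,0)]⟩,.k,.k,(.r 0 ⟨3,[(0,
  2),(1,0),(0,1),(3,2),(4,0),(3,2),(6,0)]⟩ ⟨7,[(10,3),(0,3),(1,4),(0,0),(3,3),(2,3),(11,1)]⟩),(.r 0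
  ⟨1,[(0,1),(2,0),(12,1),(4,0)]⟩ ⟨3,[(7,1),(5,2),(0,0),(8,1)]⟩),.k,.k,⟨false,0,⟨3,[(0,1),(1,1),(0,
  0),(0,0),(11,1),(12,0),(0,2)]⟩,⟨1,[(7,0),(5,0),(9,0),(9,0)]⟩⟩,⟨true,0,⟨1,[(3,0),(12,1),(4,0)]⟩,⟨1,
  [(15,0),(8,0),(0,0)]⟩⟩,⟨true,0,⟨0,[(35,0)]⟩,⟨0,[]⟩⟩,⟨false,1,⟨9,[(3,5),(3,3),(4,1),(0,4),(2,9),(4,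
  1),(9,1),(1,4)]⟩,⟨0,[(0,0)]⟩⟩,⟨false,0,⟨0,[]⟩,⟨0,[]⟩⟩,⟨false,0,⟨0,[]⟩,⟨0,[]⟩⟩,[.o ⟨false,0,⟨4,[(3,
  2),(3,1),(4,0),(8,0),(9,0)]⟩,⟨3,[(13,0),(0,0),(15,3),(2,1)]⟩⟩,.o ⟨false,1,⟨1,[(26,0),(4,1),(1,
  0)]⟩,⟨0,[(30,0)]⟩⟩,.a ⟨true,0,⟨1,[(15,0),(8,0),(0,0)]⟩,⟨0,[(16,0)]⟩⟩ ⟨false,0,⟨9,[(0,6),(1,2),(0,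
  3),(0,1),(2,1),(4,0),(3,6)]⟩,⟨1,[(13,0),(19,0)]⟩⟩ ⟨true,0,⟨4,[(3,2),(3,1),(4,0),(3,4),(4,0),(9,
  0)]⟩,⟨1,[(11,0),(3,0),(4,0),(9,0)]⟩⟩,.o ⟨false,0,⟨1,[(15,0),(2,0),(2,0)]⟩,⟨1,[(16,1),(9,0),(5,
  0)]⟩⟩]⟩)) (.I [0,0,2,1,0,0,0,-1] (.Q [0,-1,0,-2,0,0,1,1,0,0,-1] (.p false [0,0,1] [] (⟨0,[(25,
  0)]⟩,⟨0,[(24,0)]⟩) .k 0 (⟨0,[]⟩,⟨0,[]⟩) .k .k) (.R ⟨1,true,false,true,[0,0,1],[0,1],[1,1,0,0,0,0,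
  0,1],(⟨0,[(26,0)]⟩,⟨0,[(25,0)]⟩),(⟨0,[(29,0)]⟩,⟨0,[(28,0)]⟩),⟨0,[(2,0)]⟩,.k,.k,.k,.k,(.r 0 ⟨0,[(8,
  0),(15,1)]⟩ ⟨3,[(1,3),(12,0),(0,0),(15,3),(2,1)]⟩),.k,⟨true,0,⟨1,[(8,0),(15,2)]⟩,⟨0,[(1,0)]⟩⟩,
  ⟨false,1,⟨1,[(8,0),(2,1),(12,2),(8,0),(0,0)]⟩,⟨0,[(22,0)]⟩⟩,⟨false,0,⟨0,[]⟩,⟨3,[(14,0),(0,0),(18,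
  1)]⟩⟩,⟨true,0,⟨0,[(11,0)]⟩,⟨1,[(0,0),(19,0)]⟩⟩,⟨true,0,⟨0,[(31,0)]⟩,⟨0,[(32,0)]⟩⟩,⟨false,1,⟨0,
  [(11,0),(19,0),(2,0)]⟩,⟨0,[(0,0)]⟩⟩,[]⟩) (.Q [0,0,0,-1,0,0,0,0,-1,-1,0,1] (.p true [0,0,0,1] [1]
  (⟨0,[(17,0)]⟩,⟨1,[(16,0),(8,0),(0,0)]⟩) .k 1 (⟨0,[]⟩,⟨0,[]⟩) .k .k) (.Q [0,0,0,0,0,1,0,0,0,0,0,
  -1] (.p false [0,0,0,1] [] (⟨0,[(18,0)]⟩,⟨1,[(17,0),(8,0),(0,0)]⟩) .k 0 (⟨0,[]⟩,⟨0,[]⟩) .k .k)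
  (.R ⟨0,false,false,false,[0,0,0,1],[0,0,1],[0,1,0,-1,0,0,0,0,1],(⟨0,[(19,0)]⟩,⟨1,[(18,0),(8,0),(0,
  0)]⟩),(⟨0,[(28,0)]⟩,⟨0,[(27,0)]⟩),⟨0,[(0,0)]⟩,.k,.k,(.x 0 ⟨1,[(6,0),(17,0),(5,1)]⟩ ⟨3,[(16,0),(0,
  0),(13,3),(3,1)]⟩),.k,.k,.k,⟨false,0,⟨2,[(2,0),(2,2),(1,0),(2,0),(0,0),(20,0)]⟩,⟨13,[(1,7),(0,5),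
  (3,1),(7,7),(1,2),(1,3),(7,11),(5,1),(3,10)]⟩⟩,⟨true,0,⟨0,[(7,0),(11,0)]⟩,⟨1,[(18,0),(2,0),(3,
  0)]⟩⟩,⟨false,0,⟨0,[(34,0)]⟩,⟨11,[(2,3),(11,3),(1,0),(0,0),(11,1),(6,7)]⟩⟩,⟨true,0,⟨0,[(1,0),(12,
  0)]⟩,⟨1,[(2,0),(2,1),(12,0),(1,0)]⟩⟩,⟨false,0,⟨0,[]⟩,⟨0,[]⟩⟩,⟨false,0,⟨0,[]⟩,⟨0,[]⟩⟩,[.o ⟨false,0,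
  ⟨4,[(6,1),(0,0),(2,0),(3,1),(0,1)]⟩,⟨1,[(23,1),(5,0),(6,0)]⟩⟩,.o ⟨false,1,⟨7,[(15,3),(0,0),(0,0),
  (11,1),(6,3)]⟩,⟨0,[(20,0)]⟩⟩,.a ⟨true,0,⟨1,[(18,0),(8,0),(0,0)]⟩,⟨0,[(19,0)]⟩⟩ ⟨false,0,⟨0,[(5,
  0)]⟩,⟨9,[(1,5),(0,4),(3,0),(0,0),(6,4),(1,1),(1,2),(13,0),(3,7)]⟩⟩ ⟨true,0,⟨4,[(6,1),(0,0),(2,0),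
  (3,1),(0,1),(3,4)]⟩,⟨1,[(18,0),(1,0),(2,0)]⟩⟩,.o ⟨false,0,⟨1,[(18,0),(2,0),(2,0)]⟩,⟨1,[(19,1),(9,
  0),(5,0)]⟩⟩]⟩) (.Q [0,0,0,0,0,0,0,0,1,1,0,-1] (.p false [0,0,0,1] [1] (⟨0,[(19,0)]⟩,⟨1,[(18,0),(8,
  0),(0,0)]⟩) .k 1 (⟨0,[]⟩,⟨0,[]⟩) .k .k) (.R ⟨1,false,false,false,[0,0,0,1],[2,-1,-1],[0,0,0,-1,0,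
  0,0,0,1],(⟨0,[(20,0)]⟩,⟨1,[(19,0),(8,0),(0,0)]⟩),(⟨0,[(28,0),(2,0)]⟩,⟨0,[(13,0)]⟩),⟨0,[(1,0)]⟩,.k,
  .k,(.r 0 ⟨0,[(0,0),(6,0),(3,0),(3,0),(4,0)]⟩ ⟨35,[(3,3),(0,11),(10,15),(1,24),(0,6),(3,11),(7,1),
  (6,1)]⟩),(.r 0 ⟨0,[(0,0),(6,0),(7,0),(4,0)]⟩ ⟨9,[(4,1),(6,3),(0,3),(4,4),(18,2),(0,1)]⟩),.k,.k,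
  ⟨false,0,⟨1,[(0,1),(6,1),(3,0),(3,1),(4,1),(6,0)]⟩,⟨13,[(3,3),(0,3),(3,3),(2,5),(5,6),(18,4),(0,
  1)]⟩⟩,⟨true,0,⟨0,[(7,0),(12,0)]⟩,⟨1,[(9,1),(9,0),(8,0),(0,0)]⟩⟩,⟨true,0,⟨0,[(35,0)]⟩,⟨0,[(34,
  0)]⟩⟩,⟨false,1,⟨0,[(2,0),(18,0),(15,0)]⟩,⟨0,[(0,0),(14,0)]⟩⟩,⟨false,1,⟨3,[(17,0),(0,0),(18,1)]⟩,
  ⟨0,[]⟩⟩,⟨false,1,⟨33,[(2,33),(0,23),(0,1),(2,11),(0,1),(2,7),(18,4),(6,28)]⟩,⟨1,[(0,1),(15,0),(11,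
  0),(0,0)]⟩⟩,[.o ⟨false,1,⟨2,[(11,0),(0,0),(9,1),(1,0),(5,1),(6,0)]⟩,⟨0,[(15,0)]⟩⟩,.o ⟨false,1,⟨5,
  [(7,3),(3,1),(0,1),(8,1),(8,0),(6,4)]⟩,⟨0,[(15,0),(23,0)]⟩⟩,.a ⟨true,0,⟨1,[(19,0),(8,0),(0,0)]⟩,
  ⟨0,[(20,0)]⟩⟩ ⟨true,0,⟨0,[(6,0)]⟩,⟨1,[(2,1),(0,0),(11,0),(3,0),(14,0)]⟩⟩ ⟨false,1,⟨15,[(2,5),(1,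
  1),(2,7),(3,5),(6,2),(1,9),(0,7),(8,0),(6,11)]⟩,⟨1,[(15,1),(3,0),(8,0),(0,0)]⟩⟩,.o ⟨false,0,⟨1,
  [(19,0),(2,0),(2,0)]⟩,⟨1,[(20,1),(9,0),(5,0)]⟩⟩]⟩) (.R ⟨1,false,false,false,[0,0,0,1],[1,-1],[1,0,
  0,0,0,0,0,0,1],(⟨0,[(20,0)]⟩,⟨1,[(19,0),(8,0),(0,0)]⟩),(⟨0,[(31,0)]⟩,⟨0,[(32,0)]⟩),⟨0,[(1,0)]⟩,.k,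
  .k,(.x 0 ⟨1,[(7,0),(17,0),(5,1)]⟩ ⟨3,[(17,0),(0,0),(13,3),(3,1)]⟩),(.r (-1) ⟨35,[(3,3),(0,11),(10,
  15),(1,6),(0,24),(3,11),(7,1),(6,1)]⟩ ⟨1,[(0,1),(10,0),(7,0),(7,0),(0,0),(0,0)]⟩),.k,.k,⟨false,1,
  ⟨11,[(3,3),(11,3),(1,0),(0,6),(11,1),(6,1)]⟩,⟨1,[(0,1),(10,0),(7,0),(7,0),(0,0),(0,0)]⟩⟩,⟨true,0,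
  ⟨1,[(7,0),(12,1),(4,0)]⟩,⟨1,[(19,0),(8,0),(0,0)]⟩⟩,⟨true,0,⟨0,[]⟩,⟨0,[(39,0)]⟩⟩,⟨true,0,⟨0,[(2,
  0)]⟩,⟨1,[(3,0),(2,1),(8,0),(3,0),(14,0)]⟩⟩,⟨false,1,⟨11,[(3,3),(11,3),(1,0),(0,0),(11,1),(6,7)]⟩,
  ⟨0,[(35,0)]⟩⟩,⟨true,0,⟨0,[(0,0)]⟩,⟨1,[(6,1),(8,0),(3,0),(4,0),(9,0)]⟩⟩,[.o ⟨false,0,⟨4,[(7,2),(3,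
  1),(4,0),(8,0),(9,0)]⟩,⟨5,[(3,1),(11,1),(1,1),(0,1),(11,0),(6,0)]⟩⟩,.o ⟨false,1,⟨1,[(30,0),(4,1),
  (1,0)]⟩,⟨0,[(34,0)]⟩⟩,.a ⟨true,0,⟨1,[(19,0),(8,0),(0,0)]⟩,⟨0,[(20,0)]⟩⟩ ⟨false,1,⟨1,[(18,0),(18,
  0)]⟩,⟨1,[(0,1),(18,0),(8,0),(0,0)]⟩⟩ ⟨true,0,⟨0,[(0,0),(5,0)]⟩,⟨1,[(15,0),(3,0),(4,0),(9,0)]⟩⟩,.o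
  ⟨false,0,⟨1,[(19,0),(2,0),(2,0)]⟩,⟨1,[(20,1),(9,0),(5,0)]⟩⟩]⟩))) (.Q [0,0,0,0,0,1,0,0,0,0,0,-1]
  (.p false [0,0,0,1] [] (⟨0,[(18,0)]⟩,⟨1,[(17,0),(8,0),(0,0)]⟩) .k 0 (⟨0,[]⟩,⟨0,[]⟩) .k .k) (.R ⟨0,
  false,false,false,[0,0,0,1],[1,-1],[0,1,0,0,0,0,0,0,1],(⟨0,[(19,0)]⟩,⟨1,[(18,0),(8,0),(0,0)]⟩),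
  (⟨0,[(30,0)]⟩,⟨0,[(31,0)]⟩),⟨0,[(0,0)]⟩,.k,.k,(.r 0 ⟨3,[(1,2),(3,0),(0,1),(3,2),(4,0),(3,2),(6,
  0)]⟩ ⟨35,[(2,3),(0,11),(10,15),(1,24),(0,6),(3,11),(7,1),(6,1)]⟩),(.r 0 ⟨1,[(1,1),(4,0),(12,1),(4,
  0)]⟩ ⟨3,[(10,1),(5,2),(0,0),(8,1)]⟩),.k,.k,⟨false,0,⟨3,[(1,1),(3,1),(0,0),(0,0),(11,1),(12,0),(0,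
  2)]⟩,⟨1,[(10,0),(5,0),(9,0),(9,0)]⟩⟩,⟨true,0,⟨1,[(6,0),(12,1),(4,0)]⟩,⟨1,[(18,0),(8,0),(0,0)]⟩⟩,
  ⟨true,0,⟨0,[(38,0)]⟩,⟨0,[]⟩⟩,⟨false,1,⟨9,[(6,5),(3,3),(4,1),(0,4),(2,9),(4,1),(9,1),(1,4)]⟩,⟨0,
  [(1,0)]⟩⟩,⟨false,0,⟨0,[]⟩,⟨0,[]⟩⟩,⟨false,0,⟨0,[]⟩,⟨0,[]⟩⟩,[.o ⟨false,0,⟨4,[(6,2),(3,1),(4,0),(8,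
  0),(9,0)]⟩,⟨5,[(2,1),(11,1),(1,1),(0,1),(11,0),(6,0)]⟩⟩,.o ⟨false,1,⟨1,[(29,0),(4,1),(1,0)]⟩,⟨0,
  [(33,0)]⟩⟩,.a ⟨true,0,⟨1,[(18,0),(8,0),(0,0)]⟩,⟨0,[(19,0)]⟩⟩ ⟨false,0,⟨9,[(1,6),(3,2),(0,3),(0,1),
  (2,1),(4,0),(3,6)]⟩,⟨1,[(16,0),(19,0)]⟩⟩ ⟨true,0,⟨4,[(6,2),(3,1),(4,0),(3,4),(4,0),(9,0)]⟩,⟨1,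
  [(14,0),(3,0),(4,0),(9,0)]⟩⟩,.o ⟨false,0,⟨1,[(18,0),(2,0),(2,0)]⟩,⟨1,[(19,1),(9,0),(5,0)]⟩⟩]⟩)
  (.I [0,-1,0,-1,0,0,0,0,1] (.R ⟨1,false,false,true,[1,0,0,-1],[2,-1,-1],[0,0,0,-1,0,0,0,0,-1],(⟨1,
  [(19,0),(8,0),(0,0)]⟩,⟨0,[(20,0)]⟩),(⟨0,[(28,0),(2,0)]⟩,⟨0,[(13,0)]⟩),⟨0,[(1,0),(17,0)]⟩,.k,.k,
  (.r (-1) ⟨3,[(11,1),(5,2),(0,0),(8,1)]⟩ ⟨2,[(0,1),(1,0),(1,0),(2,0),(7,0),(4,0),(13,1)]⟩),(.r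
  (-1) ⟨3,[(15,3),(1,2),(0,0),(3,3)]⟩ ⟨1,[(0,0),(2,0),(2,0),(1,0),(2,0)]⟩),.k,.k,⟨false,1,⟨1,[(17,
  0),(9,1),(9,0)]⟩,⟨2,[(3,1),(2,2),(1,1),(2,0),(21,0)]⟩⟩,⟨true,0,⟨1,[(7,0),(11,0),(2,0)]⟩,⟨0,[(9,0),
  (10,0)]⟩⟩,⟨true,0,⟨0,[(35,0)]⟩,⟨0,[(34,0)]⟩⟩,⟨false,0,⟨12,[(0,5),(1,6),(1,0),(2,9),(3,5),(0,2),(6,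
  2),(1,2)]⟩,⟨1,[(15,1),(1,0),(2,1),(16,0)]⟩⟩,⟨false,1,⟨3,[(17,0),(0,0),(18,1)]⟩,⟨0,[]⟩⟩,⟨false,0,
  ⟨10,[(0,3),(1,6),(0,3),(0,0),(2,9),(0,2),(2,5),(7,1)]⟩,⟨1,[(16,0),(0,0),(2,1),(7,0),(0,0),(7,
  0)]⟩⟩,[.o ⟨false,0,⟨10,[(7,7),(0,0),(2,3),(0,2),(8,5),(1,1)]⟩,⟨3,[(15,3),(1,0),(0,0),(18,1)]⟩⟩,.o
  ⟨false,1,⟨2,[(11,0),(0,0),(9,1),(1,0),(5,1),(6,0)]⟩,⟨0,[(15,0)]⟩⟩,.a ⟨true,0,⟨0,[(20,0)]⟩,⟨1,[(19,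
  0),(8,0),(0,0)]⟩⟩ ⟨false,1,⟨1,[(17,0),(17,1),(1,0)]⟩,⟨2,[(0,1),(1,0),(0,0),(3,0),(0,0),(6,0),(4,
  0),(12,0)]⟩⟩ ⟨true,0,⟨5,[(7,3),(3,1),(0,1),(6,2),(1,0),(2,0),(14,1)]⟩,⟨0,[(15,0),(4,0)]⟩⟩,.o
  ⟨false,0,⟨1,[(7,0),(12,1),(4,0)]⟩,⟨7,[(17,0),(0,0),(0,3),(10,1),(5,3)]⟩⟩]⟩) (.R ⟨1,false,false,
  false,[0,0,0,1],[1,-1],[0,1,0,-1,0,0,0,0,1],(⟨0,[(20,0)]⟩,⟨1,[(19,0),(8,0),(0,0)]⟩),(⟨0,[(31,0)]⟩,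
  ⟨0,[(32,0)]⟩),⟨0,[(1,0)]⟩,.k,.k,(.r 0 ⟨3,[(2,2),(3,0),(0,1),(3,2),(4,0),(3,2),(6,0)]⟩ ⟨35,[(3,3),
  (0,11),(10,15),(1,24),(0,6),(3,11),(7,1),(6,1)]⟩),(.r 0 ⟨1,[(2,1),(4,0),(12,1),(4,0)]⟩ ⟨3,[(11,1),
  (5,2),(0,0),(8,1)]⟩),.k,.k,⟨false,0,⟨0,[(6,0),(27,0)]⟩,⟨1,[(0,1),(10,0),(15,0),(9,1)]⟩⟩,⟨true,0,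
  ⟨1,[(7,0),(12,1),(4,0)]⟩,⟨1,[(19,0),(8,0),(0,0)]⟩⟩,⟨false,0,⟨0,[(35,0)]⟩,⟨11,[(3,3),(11,3),(1,0),
  (0,0),(11,1),(6,7)]⟩⟩,⟨false,1,⟨9,[(7,5),(3,3),(4,1),(0,4),(2,9),(4,1),(9,1),(1,4)]⟩,⟨0,[(2,0)]⟩⟩,
  ⟨true,0,⟨0,[(39,0)]⟩,⟨0,[]⟩⟩,⟨false,1,⟨13,[(0,7),(6,7),(0,3),(2,3),(4,1),(0,2),(2,13),(16,10)]⟩,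
  ⟨3,[(2,1),(3,1),(12,0),(8,0),(0,0)]⟩⟩,[.o ⟨false,0,⟨4,[(7,2),(3,1),(4,0),(8,0),(9,0)]⟩,⟨5,[(3,1),
  (11,1),(1,1),(0,1),(11,0),(6,0)]⟩⟩,.o ⟨false,1,⟨1,[(30,0),(4,1),(1,0)]⟩,⟨0,[(34,0)]⟩⟩,.a ⟨true,0,
  ⟨1,[(19,0),(8,0),(0,0)]⟩,⟨0,[(20,0)]⟩⟩ ⟨false,0,⟨0,[(6,0)]⟩,⟨0,[(0,0),(36,0)]⟩⟩ ⟨true,0,⟨4,[(7,2),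
  (3,1),(4,0),(3,4),(4,0),(9,0)]⟩,⟨1,[(15,0),(3,0),(4,0),(9,0)]⟩⟩,.o ⟨false,0,⟨1,[(19,0),(2,0),(2,
  0)]⟩,⟨1,[(20,1),(9,0),(5,0)]⟩⟩]⟩))))) (.Q [0,-1,0,-1,0,0,1,1,0,1,-1] (.p false [0,0,1] [1] (⟨0,
  [(25,0)]⟩,⟨0,[(24,0)]⟩) .k 1 (⟨0,[]⟩,⟨0,[]⟩) .k .k) (.I [0,1,1,0,0,0,0,-2] (.R ⟨0,false,false,
  true,[-1,1,1],[1,1,-1],[0,1,2,1,0,0,0,-1],(⟨0,[(11,0)]⟩,⟨0,[(26,0),(2,0)]⟩),(⟨0,[(26,0),(3,0)]⟩,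
  ⟨0,[(3,0)]⟩),⟨0,[(26,0)]⟩,.k,.k,.k,.k,.k,.k,⟨true,0,⟨1,[(23,0),(0,0)]⟩,⟨0,[]⟩⟩,⟨false,1,⟨3,[(2,1),
  (2,1),(6,1),(7,3),(13,2),(0,0)]⟩,⟨0,[(7,1)]⟩⟩,⟨true,0,⟨0,[(0,0)]⟩,⟨0,[(2,0),(10,0),(6,0)]⟩⟩,
  ⟨false,1,⟨0,[(19,1),(15,0)]⟩,⟨0,[(1,0),(11,0)]⟩⟩,⟨false,0,⟨0,[]⟩,⟨0,[]⟩⟩,⟨false,0,⟨0,[]⟩,⟨0,[]⟩⟩,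
  [.a ⟨true,0,⟨0,[(12,0)]⟩,⟨0,[(1,0)]⟩⟩ ⟨false,0,⟨0,[(12,0),(10,0)]⟩,⟨3,[(2,3),(12,0),(0,0),(18,
  1)]⟩⟩ ⟨true,0,⟨0,[(5,0),(6,0)]⟩,⟨0,[(1,0),(5,0)]⟩⟩,.o ⟨false,1,⟨1,[(12,1),(15,0),(6,0)]⟩,⟨4,[(1,
  1),(3,1),(3,0),(0,0),(3,1),(6,0)]⟩⟩,.o ⟨false,1,⟨3,[(7,3),(7,0),(0,0),(17,1)]⟩,⟨0,[(5,0)]⟩⟩,.o
  ⟨false,0,⟨0,[(7,0)]⟩,⟨1,[(20,1),(7,0),(5,0)]⟩⟩]⟩) (.Q [0,0,0,1,0,0,0,0,1,1,0,-1] (.p false [0,0,0,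
  1] [1] (⟨0,[(18,0)]⟩,⟨1,[(17,0),(8,0),(0,0)]⟩) .k 1 (⟨0,[]⟩,⟨0,[]⟩) .k .k) (.Q [0,0,0,0,0,1,0,0,0,
  0,0,-1] (.p false [0,0,0,1] [] (⟨0,[(19,0)]⟩,⟨1,[(18,0),(8,0),(0,0)]⟩) .k 0 (⟨0,[]⟩,⟨0,[]⟩) .k
  .k) (.R ⟨0,false,false,false,[0,0,0,1],[1,-1],[0,1,0,0,0,0,0,0,1],(⟨0,[(20,0)]⟩,⟨1,[(19,0),(8,0),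
  (0,0)]⟩),(⟨0,[(31,0)]⟩,⟨0,[(32,0)]⟩),⟨0,[(0,0)]⟩,.k,.k,(.r 0 ⟨20,[(1,5),(0,3),(3,14),(0,2),(0,2),
  (2,7),(8,5),(12,3)]⟩ ⟨7,[(14,3),(0,3),(1,4),(0,0),(3,3),(2,3),(11,1)]⟩),(.r 0 ⟨1,[(1,1),(5,0),(12,
  1),(4,0)]⟩ ⟨3,[(4,0),(6,0),(5,2),(0,0),(16,0)]⟩),.k,.k,⟨false,0,⟨3,[(1,1),(4,1),(0,0),(0,0),(11,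
  1),(12,0),(0,2)]⟩,⟨3,[(4,0),(6,0),(5,1),(17,0),(1,1)]⟩⟩,⟨true,0,⟨1,[(7,0),(12,1),(4,0)]⟩,⟨1,[(19,
  0),(8,0),(0,0)]⟩⟩,⟨true,0,⟨0,[(39,0)]⟩,⟨0,[]⟩⟩,⟨false,1,⟨5,[(3,1),(3,2),(3,1),(5,2),(2,5),(4,0),
  (4,0),(6,1)]⟩,⟨0,[(1,0)]⟩⟩,⟨false,0,⟨0,[]⟩,⟨0,[]⟩⟩,⟨false,0,⟨0,[]⟩,⟨0,[]⟩⟩,[.o ⟨false,0,⟨19,[(3,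
  1),(3,12),(3,7),(0,1),(3,3),(8,2)]⟩,⟨3,[(17,0),(0,0),(15,3),(2,1)]⟩⟩,.o ⟨false,1,⟨1,[(30,0),(4,1),
  (1,0)]⟩,⟨0,[(34,0)]⟩⟩,.a ⟨true,0,⟨1,[(19,0),(8,0),(0,0)]⟩,⟨0,[(20,0)]⟩⟩ ⟨false,0,⟨20,[(1,11),(0,
  0),(3,8),(0,5),(0,5),(2,1),(8,11),(12,0)]⟩,⟨1,[(17,0),(19,0)]⟩⟩ ⟨true,0,⟨19,[(3,1),(3,12),(3,7),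
  (0,1),(3,3),(3,19),(4,2)]⟩,⟨1,[(15,0),(3,0),(4,0),(9,0)]⟩⟩,.o ⟨false,0,⟨1,[(19,0),(2,0),(2,0)]⟩,
  ⟨1,[(20,1),(9,0),(5,0)]⟩⟩]⟩) (.I [0,-1,-1,-1,0,0,0,0,1] (.R ⟨1,false,false,false,[0,0,0,1],[0,0,
  1],[0,0,0,-1,0,0,0,0,1],(⟨0,[(21,0)]⟩,⟨1,[(20,0),(8,0),(0,0)]⟩),(⟨0,[(30,0)]⟩,⟨0,[(29,0)]⟩),⟨0,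
  [(1,0)]⟩,.k,.k,(.r 0 ⟨9,[(0,2),(4,0),(1,6),(4,0),(21,2)]⟩ ⟨7,[(15,3),(0,3),(1,4),(0,0),(3,3),(2,
  3),(11,1)]⟩),.k,(.r 0 ⟨1,[(0,1),(8,0),(3,0),(1,0)]⟩ ⟨3,[(16,3),(1,2),(0,0),(3,3)]⟩),.k,⟨false,0,
  ⟨1,[(0,1),(8,0),(3,0),(1,0)]⟩,⟨5,[(3,1),(12,1),(1,3),(0,0),(3,1),(11,3),(2,0)]⟩⟩,⟨true,0,⟨0,[(9,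
  0),(11,0)]⟩,⟨1,[(20,0),(2,0),(3,0)]⟩⟩,⟨true,0,⟨0,[(36,0)]⟩,⟨0,[(35,0)]⟩⟩,⟨false,1,⟨7,[(3,1),(5,1),
  (7,1),(0,3),(2,7),(4,1),(4,0),(6,2)]⟩,⟨1,[(0,1),(14,1),(4,0),(2,0),(2,0)]⟩⟩,⟨false,1,⟨3,[(18,0),
  (0,0),(18,1)]⟩,⟨0,[]⟩⟩,⟨false,1,⟨5,[(3,1),(4,1),(0,5),(5,1),(0,3),(1,2),(2,5),(16,2)]⟩,⟨1,[(0,1),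
  (19,0),(2,0),(1,1),(0,0)]⟩⟩,[.o ⟨false,0,⟨6,[(3,0),(4,0),(0,2),(7,1),(6,0)]⟩,⟨1,[(25,1),(5,0),(6,
  0)]⟩⟩,.o ⟨false,1,⟨7,[(17,3),(0,0),(0,0),(11,1),(6,3)]⟩,⟨0,[(22,0)]⟩⟩,.a ⟨true,0,⟨1,[(20,0),(8,0),
  (0,0)]⟩,⟨0,[(21,0)]⟩⟩ ⟨false,0,⟨1,[(0,1),(25,0),(0,0)]⟩,⟨1,[(18,0),(16,1),(2,0)]⟩⟩ ⟨true,0,⟨6,[(3,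
  0),(4,0),(0,2),(7,1),(3,6),(2,0)]⟩,⟨1,[(20,0),(1,0),(2,0)]⟩⟩,.o ⟨false,0,⟨1,[(20,0),(2,0),(2,0)]⟩,
  ⟨1,[(21,1),(9,0),(5,0)]⟩⟩]⟩) (.R ⟨1,false,false,false,[0,0,0,1],[1,-1],[1,1,0,0,0,0,0,0,1],(⟨0,
  [(21,0)]⟩,⟨1,[(20,0),(8,0),(0,0)]⟩),(⟨0,[(32,0)]⟩,⟨0,[(33,0)]⟩),⟨0,[(1,0)]⟩,.k,.k,(.r 0 ⟨20,[(2,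
  5),(0,3),(3,14),(0,2),(0,2),(2,7),(8,5),(12,3)]⟩ ⟨3,[(0,3),(17,0),(0,0),(18,1)]⟩),(.r 0 ⟨1,[(2,1),
  (5,0),(12,1),(4,0)]⟩ ⟨3,[(5,0),(6,0),(5,2),(0,0),(16,0)]⟩),.k,.k,⟨false,0,⟨3,[(2,1),(4,1),(0,0),
  (0,0),(11,1),(12,0),(0,2)]⟩,⟨3,[(5,0),(6,0),(5,1),(17,0),(1,1)]⟩⟩,⟨true,0,⟨1,[(8,0),(12,1),(4,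
  0)]⟩,⟨1,[(20,0),(8,0),(0,0)]⟩⟩,⟨false,0,⟨0,[]⟩,⟨3,[(18,0),(0,0),(18,1)]⟩⟩,⟨false,1,⟨5,[(4,1),(3,
  2),(3,1),(5,2),(2,5),(4,0),(4,0),(6,1)]⟩,⟨0,[(2,0)]⟩⟩,⟨true,0,⟨0,[(35,0)]⟩,⟨0,[(36,0)]⟩⟩,⟨false,1,
  ⟨11,[(0,5),(2,1),(4,5),(0,5),(2,3),(5,2),(2,11),(12,1),(3,8)]⟩,⟨4,[(2,2),(1,0),(2,1),(12,0),(4,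
  0)]⟩⟩,[.o ⟨false,0,⟨19,[(4,1),(3,12),(3,7),(0,1),(3,3),(8,2)]⟩,⟨3,[(18,0),(0,0),(15,3),(2,1)]⟩⟩,
  .o ⟨false,1,⟨1,[(31,0),(4,1),(1,0)]⟩,⟨0,[(35,0)]⟩⟩,.a ⟨true,0,⟨1,[(20,0),(8,0),(0,0)]⟩,⟨0,[(21,
  0)]⟩⟩ ⟨false,0,⟨20,[(2,11),(0,0),(3,8),(0,5),(0,5),(2,1),(8,11),(12,0)]⟩,⟨1,[(18,0),(19,0)]⟩⟩
  ⟨true,0,⟨19,[(4,1),(3,12),(3,7),(0,1),(3,3),(3,19),(4,2)]⟩,⟨1,[(16,0),(3,0),(4,0),(9,0)]⟩⟩,.o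
  ⟨false,0,⟨1,[(20,0),(2,0),(2,0)]⟩,⟨1,[(21,1),(9,0),(5,0)]⟩⟩]⟩))) (.Q [0,0,0,0,0,-1,0,0,0,1,0,-1]
  (.p false [0,0,0,1] [1] (⟨0,[(19,0)]⟩,⟨1,[(18,0),(8,0),(0,0)]⟩) .k 1 (⟨0,[]⟩,⟨0,[]⟩) .k .k) (.I
  [0,0,-1,-1,0,0,0,0,-1] (.Q [0,0,0,0,0,0,0,0,-1,0,0,1] (.p true [0,0,0,1] [] (⟨0,[(21,0)]⟩,⟨1,[(20,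
  0),(8,0),(0,0)]⟩) .k 0 (⟨0,[]⟩,⟨0,[]⟩) .k .k) (.Q [0,0,0,-1,0,0,0,0,1,0,0,-1] (.p false [0,0,0,1]
  [] (⟨0,[(22,0)]⟩,⟨1,[(21,0),(8,0),(0,0)]⟩) .k 0 (⟨0,[]⟩,⟨0,[]⟩) .k .k) (.R ⟨2,true,false,false,[0,
  1],[0,0,0,1],[0,1,1],(⟨0,[]⟩,⟨0,[]⟩),(⟨0,[(23,0)]⟩,⟨1,[(22,0),(8,0),(0,0)]⟩),⟨0,[]⟩,.k,.k,.k,(.x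
  (-1) ⟨3,[(20,0),(0,0),(13,3),(3,1)]⟩ ⟨1,[(10,0),(17,0),(5,1)]⟩),.k,.k,⟨false,0,⟨1,[(1,0),(2,0),
  (17,0),(14,0),(4,0)]⟩,⟨0,[(9,0),(26,0),(3,0)]⟩⟩,⟨true,0,⟨1,[(22,0),(2,0),(2,0)]⟩,⟨0,[(23,0)]⟩⟩,
  ⟨false,0,⟨0,[(38,0)]⟩,⟨0,[(37,0),(2,0)]⟩⟩,⟨true,0,⟨0,[(0,0)]⟩,⟨0,[(1,0),(35,0)]⟩⟩,⟨true,0,⟨0,[(42,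
  0)]⟩,⟨0,[]⟩⟩,⟨false,1,⟨4,[(0,0),(9,0),(0,0),(9,1),(0,1),(13,0),(3,2)]⟩,⟨0,[(1,0)]⟩⟩,[]⟩) (.R ⟨1,
  false,false,false,[1,0,0,-1],[1,-1],[0,1,0,-1,0,0,0,0,-1],(⟨1,[(22,0),(8,0),(0,0)]⟩,⟨0,[(23,0)]⟩),
  (⟨0,[(34,0)]⟩,⟨0,[(35,0)]⟩),⟨0,[(3,0)]⟩,.k,.k,(.x 0 ⟨1,[(10,0),(17,0),(5,1)]⟩ ⟨3,[(20,0),(0,0),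
  (13,3),(3,1)]⟩),(.x (-1) ⟨3,[(20,0),(0,0),(13,3),(3,1)]⟩ ⟨1,[(10,0),(17,0),(5,1)]⟩),.k,.k,⟨false,
  0,⟨1,[(0,0),(3,0),(17,0),(19,1)]⟩,⟨0,[(9,0),(26,0),(3,0)]⟩⟩,⟨true,0,⟨1,[(22,0),(2,0),(2,0)]⟩,⟨0,
  [(23,0)]⟩⟩,⟨false,0,⟨0,[(38,0)]⟩,⟨0,[(37,0),(2,0)]⟩⟩,⟨false,1,⟨3,[(9,1),(11,0),(0,1),(10,0),(4,1),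
  (1,1)]⟩,⟨0,[(0,0)]⟩⟩,⟨true,0,⟨0,[(42,0)]⟩,⟨0,[]⟩⟩,⟨false,1,⟨7,[(9,1),(0,1),(0,1),(9,2),(0,3),(13,
  1),(3,4)]⟩,⟨0,[(1,0)]⟩⟩,[.o ⟨false,0,⟨19,[(6,1),(3,12),(3,7),(0,1),(3,3),(8,2)]⟩,⟨3,[(20,0),(0,0),
  (15,3),(2,1)]⟩⟩,.o ⟨false,1,⟨1,[(33,0),(4,1),(1,0)]⟩,⟨0,[(37,0)]⟩⟩,.a ⟨true,0,⟨0,[(23,0)]⟩,⟨1,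
  [(22,0),(8,0),(0,0)]⟩⟩ ⟨false,0,⟨6,[(1,1),(0,0),(1,3),(1,0),(8,0),(6,2),(6,0)]⟩,⟨2,[(5,0),(3,2),
  (0,0),(0,2),(5,3),(0,1),(21,2)]⟩⟩ ⟨true,0,⟨9,[(6,2),(3,3),(3,1),(0,1),(6,4),(3,0),(11,0)]⟩,⟨0,
  [(23,0),(13,0)]⟩⟩,.o ⟨false,0,⟨1,[(10,0),(12,1),(4,0)]⟩,⟨7,[(20,0),(0,0),(0,3),(10,1),(5,
  3)]⟩⟩]⟩)) (.R ⟨2,true,false,false,[0,1],[1,0,0,-1],[0,1,1],(⟨0,[]⟩,⟨0,[]⟩),(⟨1,[(21,0),(8,0),(0,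
  0)]⟩,⟨0,[(22,0)]⟩),⟨0,[]⟩,.k,.k,.k,(.r (-1) ⟨7,[(16,3),(0,3),(1,0),(0,4),(3,3),(2,3),(11,1)]⟩ ⟨0,
  [(1,0)]⟩),.k,.k,⟨false,0,⟨0,[(8,0),(27,0)]⟩,⟨3,[(1,1),(17,0),(15,1),(3,2)]⟩⟩,⟨true,0,⟨1,[(9,0),
  (12,1),(4,0)]⟩,⟨1,[(21,0),(8,0),(0,0)]⟩⟩,⟨false,0,⟨0,[(37,0)]⟩,⟨0,[(36,0),(2,0)]⟩⟩,⟨true,0,⟨0,[(3,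
  0)]⟩,⟨0,[(0,0),(16,0),(8,0)]⟩⟩,⟨true,0,⟨0,[(41,0)]⟩,⟨0,[]⟩⟩,⟨false,1,⟨0,[(3,0),(32,0),(2,0)]⟩,⟨0,
  [(0,0),(29,0),(0,0)]⟩⟩,[]⟩)) (.R ⟨2,true,false,false,[0,1],[1,0,0,-1],[0,1,1],(⟨0,[]⟩,⟨0,[]⟩),(⟨1,
  [(20,0),(8,0),(0,0)]⟩,⟨0,[(21,0)]⟩),⟨0,[]⟩,.k,.k,.k,(.x (-1) ⟨3,[(18,0),(0,0),(13,3),(3,1)]⟩ ⟨1,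
  [(8,0),(17,0),(5,1)]⟩),.k,.k,⟨false,0,⟨2,[(0,0),(6,1),(26,0),(5,1)]⟩,⟨17,[(2,11),(0,1),(8,3),(2,
  5),(0,5),(1,2),(1,5),(13,7),(3,14)]⟩⟩,⟨true,0,⟨1,[(8,0),(12,1),(4,0)]⟩,⟨1,[(20,0),(8,0),(0,0)]⟩⟩,
  ⟨false,0,⟨0,[(36,0)]⟩,⟨0,[(35,0),(2,0)]⟩⟩,⟨true,0,⟨0,[(2,0)]⟩,⟨1,[(0,0),(6,0),(8,0),(3,0),(4,0),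
  (8,0)]⟩⟩,⟨true,0,⟨0,[(40,0)]⟩,⟨0,[]⟩⟩,⟨false,1,⟨0,[(2,0),(32,0),(2,0)]⟩,⟨9,[(0,7),(4,1),(1,1),(4,
  1),(7,4),(8,4),(0,4)]⟩⟩,[]⟩)) (.R ⟨0,false,false,false,[1,0,0,-1],[0,0,1],[0,1,0,-1,0,0,0,0,-1],
  (⟨1,[(19,0),(8,0),(0,0)]⟩,⟨0,[(20,0)]⟩),(⟨0,[(29,0)]⟩,⟨0,[(28,0)]⟩),⟨0,[(0,0)]⟩,.k,.k,(.x 0 ⟨1,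
  [(7,0),(17,0),(5,1)]⟩ ⟨3,[(17,0),(0,0),(13,3),(3,1)]⟩),.k,.k,.k,⟨false,0,⟨5,[(1,5),(7,2),(1,1),(0,
  0),(1,2),(4,2),(13,1)]⟩,⟨5,[(2,1),(4,1),(6,1),(0,3),(2,2),(18,2)]⟩⟩,⟨true,0,⟨1,[(8,0),(0,0),(9,
  0)]⟩,⟨0,[(20,0),(1,0)]⟩⟩,⟨false,0,⟨0,[(35,0)]⟩,⟨0,[(34,0),(2,0)]⟩⟩,⟨true,0,⟨5,[(2,0),(3,5),(0,0),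
  (0,2),(5,0),(0,4),(3,2)]⟩,⟨0,[(1,0),(12,0)]⟩⟩,⟨false,0,⟨0,[]⟩,⟨0,[]⟩⟩,⟨false,0,⟨0,[]⟩,⟨0,[]⟩⟩,[.o
  ⟨false,0,⟨6,[(2,0),(4,0),(0,2),(7,1),(6,0)]⟩,⟨1,[(24,1),(5,0),(6,0)]⟩⟩,.o ⟨false,1,⟨7,[(16,3),(0,
  0),(0,0),(11,1),(6,3)]⟩,⟨0,[(21,0)]⟩⟩,.a ⟨true,0,⟨0,[(20,0)]⟩,⟨1,[(19,0),(8,0),(0,0)]⟩⟩ ⟨false,0,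
  ⟨1,[(1,1),(17,0),(8,0),(0,0)]⟩,⟨2,[(2,0),(3,2),(0,0),(0,2),(5,3),(0,1),(21,2)]⟩⟩ ⟨true,0,⟨1,[(16,
  0),(2,0)]⟩,⟨0,[(20,0),(0,0)]⟩⟩,.o ⟨false,0,⟨1,[(7,0),(12,1),(4,0)]⟩,⟨7,[(17,0),(0,0),(0,3),(10,1),
  (5,3)]⟩⟩]⟩)))) (.I [0,0,1,1,0,0,0,0,-1] (.Q [0,0,0,-1,0,0,0,0,1,0,0,-1] (.p false [0,0,0,1] []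
  (⟨0,[(18,0)]⟩,⟨1,[(17,0),(8,0),(0,0)]⟩) .k 0 (⟨0,[]⟩,⟨0,[]⟩) .k .k) (.R ⟨2,true,false,false,[0,1],
  [0,0,0,1],[0,1,1],(⟨0,[]⟩,⟨0,[]⟩),(⟨0,[(19,0)]⟩,⟨1,[(18,0),(8,0),(0,0)]⟩),⟨0,[]⟩,.k,.k,.k,(.r 0
  ⟨0,[(1,0)]⟩ ⟨3,[(3,0),(6,0),(5,0),(0,2),(16,0)]⟩),.k,.k,⟨false,0,⟨1,[(1,1),(1,0),(7,0),(26,0)]⟩,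
  ⟨0,[(5,0),(26,0),(3,0)]⟩⟩,⟨true,0,⟨1,[(18,0),(2,0),(2,0)]⟩,⟨0,[(19,0)]⟩⟩,⟨false,0,⟨0,[(34,0)]⟩,⟨0,
  [(33,0),(2,0)]⟩⟩,⟨true,0,⟨0,[(0,0)]⟩,⟨3,[(1,3),(1,0),(7,0),(7,3),(12,1),(5,0)]⟩⟩,⟨true,0,⟨0,[(38,
  0)]⟩,⟨0,[]⟩⟩,⟨false,1,⟨4,[(0,0),(5,0),(0,0),(9,1),(0,1),(13,0),(3,2)]⟩,⟨3,[(1,3),(1,0),(6,0),(8,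
  3),(14,0)]⟩⟩,[]⟩) (.Q [0,0,0,0,0,-1,0,0,0,1,0,-1] (.p false [0,0,0,1] [1] (⟨0,[(19,0)]⟩,⟨1,[(18,
  0),(8,0),(0,0)]⟩) .k 1 (⟨0,[]⟩,⟨0,[]⟩) .k .k) (.R ⟨1,false,false,false,[1,0,0,-1],[1,-1],[1,1,0,0,
  0,0,0,0,-1],(⟨1,[(19,0),(8,0),(0,0)]⟩,⟨0,[(20,0)]⟩),(⟨0,[(31,0)]⟩,⟨0,[(32,0)]⟩),⟨0,[(0,0)]⟩,.k,.k,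
  (.r 0 ⟨1,[(2,1),(1,0),(6,0),(23,0)]⟩ ⟨0,[(2,0),(15,0)]⟩),(.r 0 ⟨0,[(2,0)]⟩ ⟨3,[(4,0),(6,0),(5,0),
  (0,2),(16,0)]⟩),.k,.k,⟨false,0,⟨3,[(2,3),(1,0),(7,0),(20,1),(5,0)]⟩,⟨3,[(4,0),(6,0),(6,1),(16,0),
  (1,1)]⟩⟩,⟨true,0,⟨1,[(19,0),(2,0),(2,0)]⟩,⟨0,[(20,0)]⟩⟩,⟨false,0,⟨0,[]⟩,⟨3,[(17,0),(0,0),(18,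
  1)]⟩⟩,⟨false,1,⟨3,[(6,1),(11,0),(0,1),(10,0),(4,1),(1,1)]⟩,⟨0,[(1,0)]⟩⟩,⟨true,0,⟨0,[(34,0)]⟩,⟨0,
  [(35,0)]⟩⟩,⟨false,1,⟨7,[(6,1),(0,1),(0,1),(9,2),(0,3),(13,1),(3,4)]⟩,⟨0,[(1,0),(33,0)]⟩⟩,[.o
  ⟨false,0,⟨4,[(7,2),(3,1),(4,0),(8,0),(9,0)]⟩,⟨3,[(17,0),(0,0),(15,3),(2,1)]⟩⟩,.o ⟨false,1,⟨1,[(30,
  0),(4,1),(1,0)]⟩,⟨0,[(34,0)]⟩⟩,.a ⟨true,0,⟨0,[(20,0)]⟩,⟨1,[(19,0),(8,0),(0,0)]⟩⟩ ⟨false,0,⟨3,[(2,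
  3),(1,0),(6,0),(23,0)]⟩,⟨1,[(18,0),(18,0)]⟩⟩ ⟨true,0,⟨9,[(7,2),(3,1),(4,0),(2,4),(5,0),(9,5)]⟩,⟨0,
  [(20,0),(13,0)]⟩⟩,.o ⟨false,0,⟨1,[(7,0),(12,1),(4,0)]⟩,⟨7,[(17,0),(0,0),(0,3),(10,1),(5,3)]⟩⟩]⟩)
  (.R ⟨0,false,false,true,[0,0,0,1],[0,0,1],[0,0,0,-1,0,0,0,0,1],(⟨0,[(20,0)]⟩,⟨1,[(19,0),(8,0),(0,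
  0)]⟩),(⟨0,[(29,0)]⟩,⟨0,[(28,0)]⟩),⟨0,[(0,0),(18,0)]⟩,.k,.k,(.r (-1) ⟨3,[(4,0),(6,0),(5,0),(0,2),
  (16,0)]⟩ ⟨0,[(2,0)]⟩),.k,.k,.k,⟨false,1,⟨3,[(3,1),(2,1),(2,1),(1,1),(6,0),(18,2)]⟩,⟨1,[(2,1),(1,
  0),(22,0),(6,0),(4,0)]⟩⟩,⟨true,0,⟨0,[(8,0),(11,0)]⟩,⟨1,[(19,0),(2,0),(3,0)]⟩⟩,⟨true,0,⟨0,[(35,
  0)]⟩,⟨0,[(34,0)]⟩⟩,⟨false,0,⟨9,[(1,9),(5,2),(3,1),(4,5),(8,0),(9,5)]⟩,⟨1,[(3,0),(2,1),(7,0),(4,0),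
  (17,1)]⟩⟩,⟨false,0,⟨0,[]⟩,⟨0,[]⟩⟩,⟨false,0,⟨0,[]⟩,⟨0,[]⟩⟩,[.o ⟨false,0,⟨0,[(23,0)]⟩,⟨0,[(21,0),
  (15,0)]⟩⟩,.o ⟨false,0,⟨7,[(4,0),(2,1),(0,2),(6,0),(0,2)]⟩,⟨1,[(24,1),(5,0),(6,0)]⟩⟩,.a ⟨true,0,⟨1,
  [(19,0),(8,0),(0,0)]⟩,⟨0,[(20,0)]⟩⟩ ⟨true,0,⟨0,[(6,0)]⟩,⟨3,[(2,3),(1,0),(7,0),(20,1),(5,0)]⟩⟩
  ⟨false,0,⟨7,[(4,0),(2,1),(0,2),(6,0),(0,2),(3,7)]⟩,⟨1,[(19,0),(1,0),(2,0),(12,1)]⟩⟩,.o ⟨false,0,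
  ⟨1,[(19,0),(2,0),(2,0)]⟩,⟨1,[(20,1),(9,0),(5,0)]⟩⟩]⟩))) (.Q [0,1,0,-1,0,0,-1,-1,-1,-2,1,1] (.p
  true [-1,1,1] [1,0,0,-1] (⟨0,[(11,0)]⟩,⟨0,[(26,0),(2,0)]⟩) .k 2 (⟨1,[(17,0),(8,0),(0,0)]⟩,⟨0,[(18,
  0)]⟩) .k (.r 0 ⟨0,[(0,0),(12,0),(6,0)]⟩ ⟨1,[(6,0),(3,0),(1,0),(2,0),(19,0)]⟩)) (.Q [0,0,0,0,0,0,1,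
  1,-1,0,-1,1] (.p false [0,0,1] [0,0,0,1] (⟨0,[(28,0)]⟩,⟨0,[(27,0)]⟩) .k 2 (⟨0,[(19,0)]⟩,⟨1,[(18,
  0),(8,0),(0,0)]⟩) .k (.x 0 ⟨0,[(7,0),(20,0)]⟩ ⟨3,[(16,0),(0,0),(3,3),(5,3),(7,1)]⟩)) (.Q [0,0,0,0,
  0,1,0,0,0,0,0,-1] (.p false [0,0,0,1] [] (⟨0,[(20,0)]⟩,⟨1,[(19,0),(8,0),(0,0)]⟩) .k 0 (⟨0,[]⟩,⟨0,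
  []⟩) .k .k) (.R ⟨0,false,false,false,[0,0,0,1],[0,0,1],[0,1,0,-1,0,0,0,0,1],(⟨0,[(21,0)]⟩,⟨1,[(20,
  0),(8,0),(0,0)]⟩),(⟨0,[(30,0)]⟩,⟨0,[(29,0)]⟩),⟨0,[(0,0)]⟩,.k,.k,(.x 0 ⟨1,[(8,0),(17,0),(5,1)]⟩ ⟨3,
  [(18,0),(0,0),(13,3),(3,1)]⟩),.k,.k,.k,⟨false,0,⟨1,[(3,1),(5,0),(3,0),(1,0)]⟩,⟨5,[(1,3),(3,1),(2,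
  1),(6,3),(0,3),(1,0),(1,1),(2,1),(14,4)]⟩⟩,⟨true,0,⟨0,[(9,0),(11,0)]⟩,⟨1,[(20,0),(2,0),(3,0)]⟩⟩,
  ⟨false,0,⟨0,[(36,0)]⟩,⟨0,[(35,0),(2,0)]⟩⟩,⟨true,0,⟨0,[(1,0)]⟩,⟨1,[(4,0),(2,1),(7,0),(4,0)]⟩⟩,
  ⟨false,0,⟨0,[]⟩,⟨0,[]⟩⟩,⟨false,0,⟨0,[]⟩,⟨0,[]⟩⟩,[.o ⟨false,0,⟨7,[(5,0),(2,1),(0,2),(6,0),(0,2)]⟩,
  ⟨1,[(25,1),(5,0),(6,0)]⟩⟩,.o ⟨false,1,⟨7,[(17,3),(0,0),(0,0),(11,1),(6,3)]⟩,⟨0,[(22,0)]⟩⟩,.a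
  ⟨true,0,⟨1,[(20,0),(8,0),(0,0)]⟩,⟨0,[(21,0)]⟩⟩ ⟨false,0,⟨0,[(7,0)]⟩,⟨1,[(1,1),(2,0),(10,0),(4,0),
  (17,1)]⟩⟩ ⟨true,0,⟨3,[(1,0),(1,0),(4,0),(0,0),(6,0),(0,0),(3,2)]⟩,⟨1,[(20,0),(1,0),(2,0)]⟩⟩,.o
  ⟨false,0,⟨1,[(20,0),(2,0),(2,0)]⟩,⟨1,[(21,1),(9,0),(5,0)]⟩⟩]⟩) (.Q [0,0,0,0,0,0,0,0,-1,0,0,1] (.p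
  true [0,0,0,1] [] (⟨0,[(21,0)]⟩,⟨1,[(20,0),(8,0),(0,0)]⟩) .k 0 (⟨0,[]⟩,⟨0,[]⟩) .k .k) (.R ⟨2,true,
  false,false,[0,1],[0,0,0,1],[0,1,1],(⟨0,[]⟩,⟨0,[]⟩),(⟨0,[(22,0)]⟩,⟨1,[(21,0),(8,0),(0,0)]⟩),⟨0,
  []⟩,.k,.k,.k,(.x (-1) ⟨3,[(19,0),(0,0),(13,3),(3,1)]⟩ ⟨1,[(9,0),(17,0),(5,1)]⟩),.k,.k,⟨false,0,⟨3,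
  [(2,2),(0,0),(12,0),(4,1),(4,0),(14,0)]⟩,⟨3,[(4,1),(15,0),(14,1),(3,2)]⟩⟩,⟨true,0,⟨1,[(21,0),(2,
  0),(2,0)]⟩,⟨0,[(22,0)]⟩⟩,⟨false,0,⟨0,[(37,0)]⟩,⟨0,[(36,0),(2,0)]⟩⟩,⟨true,0,⟨3,[(4,1),(3,1),(0,0),
  (11,1),(5,0)]⟩,⟨0,[(2,0),(13,0)]⟩⟩,⟨true,0,⟨0,[(41,0)]⟩,⟨0,[]⟩⟩,⟨false,1,⟨15,[(4,1),(4,3),(0,3),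
  (9,6),(0,7),(13,1),(3,8)]⟩,⟨0,[(0,0)]⟩⟩,[]⟩) (.R ⟨1,false,false,false,[1,0,0,-1],[1,-1],[1,0,0,0,
  0,0,0,0,-1],(⟨1,[(21,0),(8,0),(0,0)]⟩,⟨0,[(22,0)]⟩),(⟨0,[(33,0)]⟩,⟨0,[(34,0)]⟩),⟨0,[(1,0),(19,
  0)]⟩,.k,.k,(.x 0 ⟨1,[(9,0),(17,0),(5,1)]⟩ ⟨3,[(19,0),(0,0),(13,3),(3,1)]⟩),(.r (-1) ⟨7,[(16,3),(0,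
  3),(1,4),(0,0),(3,3),(2,3),(11,1)]⟩ ⟨0,[(0,0),(0,2),(7,0),(3,0),(3,0),(3,0),(12,2)]⟩),.k,.k,
  ⟨false,1,⟨1,[(19,0),(16,1),(2,0)]⟩,⟨0,[(0,0),(0,2),(7,0),(3,0),(3,0),(3,0),(12,2)]⟩⟩,⟨true,0,⟨1,
  [(21,0),(2,0),(2,0)]⟩,⟨0,[(22,0)]⟩⟩,⟨true,0,⟨0,[]⟩,⟨0,[(41,0)]⟩⟩,⟨true,0,⟨13,[(0,3),(7,9),(0,2),
  (3,1),(4,0),(2,4),(5,0)]⟩,⟨0,[(2,0),(13,0)]⟩⟩,⟨false,1,⟨0,[(36,0),(2,0)]⟩,⟨0,[(37,0)]⟩⟩,⟨true,0,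
  ⟨0,[(0,0)]⟩,⟨0,[(2,0),(23,0)]⟩⟩,[.o ⟨false,0,⟨4,[(9,2),(3,1),(4,0),(8,0),(9,0)]⟩,⟨3,[(19,0),(0,0),
  (15,3),(2,1)]⟩⟩,.o ⟨false,1,⟨1,[(32,0),(4,1),(1,0)]⟩,⟨0,[(36,0)]⟩⟩,.a ⟨true,0,⟨0,[(22,0)]⟩,⟨1,
  [(21,0),(8,0),(0,0)]⟩⟩ ⟨false,1,⟨1,[(19,0),(19,0)]⟩,⟨0,[(0,0),(21,0)]⟩⟩ ⟨true,0,⟨9,[(9,2),(3,1),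
  (4,0),(2,4),(5,0),(9,5)]⟩,⟨0,[(22,0),(13,0)]⟩⟩,.o ⟨false,0,⟨1,[(9,0),(12,1),(4,0)]⟩,⟨7,[(19,0),(0,
  0),(0,3),(10,1),(5,3)]⟩⟩]⟩))) (.K ⟨2,[0,0,0,1],0,0,(⟨0,[(20,0)]⟩,⟨1,[(19,0),(8,0),(0,0)]⟩),.k,(.r
  0 ⟨0,[(0,0),(4,2),(1,2),(0,0),(2,1),(3,2),(4,0),(7,2),(3,2)]⟩ ⟨7,[(14,3),(0,3),(1,4),(0,0),(3,3),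
  (2,3),(11,1)]⟩),(.r 0 ⟨1,[(0,1),(6,0),(7,1),(4,1),(4,0)]⟩ ⟨3,[(4,0),(6,0),(5,2),(0,0),(16,0)]⟩),
  .k,.k,[⟨0,[(0,0)]⟩,⟨0,[(1,0),(13,0),(12,0),(0,0)]⟩,⟨1,[(20,1),(4,0),(0,0)]⟩,⟨1,[(19,0),(2,0),(2,
  0)]⟩]⟩)) (.Q [0,0,0,0,0,1,0,0,0,0,0,-1] (.p false [0,0,0,1] [] (⟨0,[(19,0)]⟩,⟨1,[(18,0),(8,0),(0,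
  0)]⟩) .k 0 (⟨0,[]⟩,⟨0,[]⟩) .k .k) (.R ⟨0,false,false,false,[0,0,0,1],[0,0,1],[0,1,0,0,0,0,0,0,1],
  (⟨0,[(20,0)]⟩,⟨1,[(19,0),(8,0),(0,0)]⟩),(⟨0,[(29,0)]⟩,⟨0,[(28,0)]⟩),⟨0,[(0,0)]⟩,.k,.k,(.r 0 ⟨0,
  [(1,0),(1,0),(1,5),(1,4),(0,1),(2,2),(3,2),(4,0),(7,5),(3,5)]⟩ ⟨7,[(14,3),(0,3),(1,4),(0,0),(3,3),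
  (2,3),(11,1)]⟩),.k,.k,.k,⟨false,0,⟨0,[(2,0),(0,0),(5,0)]⟩,⟨1,[(17,0),(9,1),(9,0)]⟩⟩,⟨true,0,⟨0,
  [(8,0),(11,0)]⟩,⟨1,[(19,0),(2,0),(3,0)]⟩⟩,⟨true,0,⟨0,[(39,0)]⟩,⟨0,[]⟩⟩,⟨false,1,⟨7,[(4,0),(2,1),
  (0,2),(6,0),(0,2),(0,3),(2,7),(16,3)]⟩,⟨1,[(1,1),(5,0),(3,1),(2,1),(7,1),(2,0)]⟩⟩,⟨false,0,⟨0,[]⟩,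
  ⟨0,[]⟩⟩,⟨false,0,⟨0,[]⟩,⟨0,[]⟩⟩,[.o ⟨false,0,⟨7,[(4,0),(2,1),(0,2),(6,0),(0,2)]⟩,⟨1,[(24,1),(5,0),
  (6,0)]⟩⟩,.o ⟨false,1,⟨7,[(16,3),(0,0),(0,0),(11,1),(6,3)]⟩,⟨0,[(21,0)]⟩⟩,.a ⟨true,0,⟨1,[(19,0),(8,
  0),(0,0)]⟩,⟨0,[(20,0)]⟩⟩ ⟨false,0,⟨5,[(1,1),(0,1),(0,1),(2,1),(0,0),(12,1),(4,0)]⟩,⟨1,[(17,0),(19,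
  0)]⟩⟩ ⟨true,0,⟨7,[(4,0),(2,1),(0,2),(6,0),(0,2),(3,7)]⟩,⟨1,[(19,0),(1,0),(2,0)]⟩⟩,.o ⟨false,0,⟨1,
  [(19,0),(2,0),(2,0)]⟩,⟨1,[(20,1),(9,0),(5,0)]⟩⟩]⟩) (.R ⟨1,false,false,true,[0,0,0,1],[2,-1,-1],[1,
  1,0,0,0,0,0,0,1],(⟨0,[(20,0)]⟩,⟨1,[(19,0),(8,0),(0,0)]⟩),(⟨0,[(28,0),(2,0)]⟩,⟨0,[(13,0)]⟩),⟨0,[(0,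
  0)]⟩,.k,.k,(.r 0 ⟨0,[(0,12),(0,0),(1,0),(3,4),(0,1),(2,2),(3,2),(3,5),(12,12)]⟩ ⟨7,[(14,3),(0,3),
  (1,4),(0,0),(3,3),(2,3),(11,1)]⟩),(.r 0 ⟨5,[(1,3),(4,1),(0,2),(8,0),(3,3),(1,2),(11,3)]⟩ ⟨5,[(8,
  0),(2,1),(0,2),(1,0),(2,2),(18,0),(0,1)]⟩),.k,.k,⟨false,0,⟨2,[(1,1),(0,0),(4,1),(12,1),(6,0),(5,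
  0),(0,0)]⟩,⟨5,[(8,0),(2,1),(0,2),(1,0),(2,2),(18,0),(0,1)]⟩⟩,⟨true,0,⟨0,[(7,0),(12,0)]⟩,⟨1,[(9,1),
  (9,0),(8,0),(0,0)]⟩⟩,⟨false,0,⟨0,[]⟩,⟨3,[(17,0),(0,0),(18,1)]⟩⟩,⟨false,1,⟨5,[(7,3),(3,1),(0,1),(4,
  2),(2,5),(0,1),(8,0),(6,1)]⟩,⟨0,[(1,0)]⟩⟩,⟨true,0,⟨0,[(34,0)]⟩,⟨0,[(35,0)]⟩⟩,⟨false,1,⟨5,[(3,3),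
  (3,2),(3,1),(5,2),(2,5),(4,0),(4,0),(6,1)]⟩,⟨0,[(1,0),(33,0)]⟩⟩,[.o ⟨false,0,⟨4,[(3,0),(3,3),(3,
  1),(0,1),(8,0),(1,0)]⟩,⟨3,[(15,3),(1,0),(0,0),(18,1)]⟩⟩,.o ⟨false,1,⟨2,[(11,0),(0,0),(9,1),(1,0),
  (5,1),(6,0)]⟩,⟨0,[(15,0)]⟩⟩,.a ⟨true,0,⟨1,[(19,0),(8,0),(0,0)]⟩,⟨0,[(20,0)]⟩⟩ ⟨false,0,⟨5,[(1,1),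
  (0,1),(0,1),(2,1),(0,0),(12,1),(4,0)]⟩,⟨1,[(17,0),(19,0)]⟩⟩ ⟨true,0,⟨4,[(3,0),(3,3),(3,1),(0,1),
  (7,4),(0,0),(1,0)]⟩,⟨1,[(15,1),(3,0),(8,0),(0,0)]⟩⟩,.o ⟨false,0,⟨1,[(19,0),(2,0),(2,0)]⟩,⟨1,[(20,
  1),(9,0),(5,0)]⟩⟩]⟩)))))))))) (.Q [0,0,0,0,0,1,0,0,0,0,-1] (.ed true [1,-1,1] .k) (.K ⟨2,[1,-1,1],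
  0,0,(⟨0,[(21,0),(1,0)]⟩,⟨0,[(0,0)]⟩),.k,(.r 0 ⟨0,[(3,0),(15,1)]⟩ ⟨7,[(6,11),(0,3),(1,0),(0,0),(3,
  3),(2,11),(11,5)]⟩),.k,.k,.k,[⟨4,[(1,1),(0,3),(0,1),(4,0),(18,0)]⟩,⟨0,[(6,0),(13,0),(0,0)]⟩,⟨0,
  [(1,0),(18,1),(0,1)]⟩,⟨0,[(2,0),(14,0)]⟩]⟩) (.K ⟨2,[0,-1,1],0,0,(⟨0,[(0,0)]⟩,⟨0,[(20,0),(3,0)]⟩),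
  .k,(.r 0 ⟨0,[(3,0),(15,1)]⟩ ⟨7,[(6,11),(0,3),(1,0),(0,0),(3,3),(2,11),(11,5)]⟩),.k,.k,.k,[⟨0,[(27,
  0)]⟩,⟨0,[(6,0)]⟩,⟨0,[(1,0),(18,0),(0,0)]⟩,⟨1,[(17,2),(0,0)]⟩]⟩))))

theorem ok19 : chk (cU (-1) false 3) t19 r4 = true := by decide +kernel

noncomputable def t24 : Tre :=
  (.R ⟨2,false,false,false,[0,1],[0,0,1],[0,1,1],(⟨0,[]⟩,⟨0,[]⟩),(⟨0,[(20,0)]⟩,⟨0,[(19,0)]⟩),⟨0,[]⟩,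
  .k,.k,.k,.k,.k,.k,⟨false,0,⟨0,[(0,0),(11,0),(3,0)]⟩,⟨1,[(18,1),(8,0),(0,0)]⟩⟩,⟨true,0,⟨0,[(16,
  0)]⟩,⟨0,[(0,0),(12,0)]⟩⟩,⟨false,0,⟨0,[(26,0)]⟩,⟨0,[(25,0),(2,0)]⟩⟩,⟨true,0,⟨0,[(2,0)]⟩,⟨0,[(5,
  0)]⟩⟩,⟨true,0,⟨0,[(30,0)]⟩,⟨0,[]⟩⟩,⟨true,0,⟨0,[(1,0)]⟩,⟨0,[(15,0)]⟩⟩,[.o ⟨false,0,⟨0,[(1,0)]⟩,⟨1,
  [(15,1),(5,0),(6,0)]⟩⟩,.o ⟨false,1,⟨7,[(7,3),(0,0),(0,0),(11,1),(6,3)]⟩,⟨0,[(12,0)]⟩⟩,.a ⟨true,0,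
  ⟨0,[(0,0)]⟩,⟨1,[(16,0),(0,0)]⟩⟩ ⟨false,0,⟨1,[(16,0),(0,0)]⟩,⟨1,[(27,0),(0,0)]⟩⟩ ⟨true,0,⟨1,[(7,0),
  (5,0),(2,0)]⟩,⟨0,[(0,0),(11,0)]⟩⟩,.e ⟨true,0,⟨0,[(30,0)]⟩,⟨0,[]⟩⟩ ⟨true,0,⟨0,[(1,0)]⟩,⟨0,[(15,
  0)]⟩⟩]⟩)

theorem ok24 : chk (cU (-1) false 3) t24 l17 = true := by decide +kernel

noncomputable def t26 : Tre :=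
  (.R ⟨2,true,false,false,[0,1],[0,1,1],[0,1,1],(⟨0,[]⟩,⟨0,[]⟩),(⟨0,[(22,0),(2,0)]⟩,⟨0,[(6,0)]⟩),⟨0,
  []⟩,.k,.k,.k,.k,.k,.k,⟨false,0,⟨0,[(0,0),(0,0),(24,0),(1,0)]⟩,⟨0,[(20,0),(6,0),(2,0)]⟩⟩,⟨true,0,
  ⟨0,[(1,0)]⟩,⟨0,[(19,0)]⟩⟩,⟨false,0,⟨0,[(28,0)]⟩,⟨0,[(27,0),(2,0)]⟩⟩,⟨true,0,⟨0,[(3,0)]⟩,⟨0,[(17,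
  0)]⟩⟩,⟨true,0,⟨0,[(32,0)]⟩,⟨0,[]⟩⟩,⟨false,1,⟨1,[(8,1),(14,0),(6,0)]⟩,⟨0,[(0,0)]⟩⟩,[]⟩)

theorem ok26 : chk (cU (-1) false 3) t26 l19 = true := by decide +kernel

noncomputable def t28 : Tre :=
  (.Q [0,0,0,1,0,0,0,0,0,1] (.pp false [-1,1]) (.R ⟨1,false,false,false,[1,0,-1],[1,-1],[1,0,0,0,0,
  0,0,-1],(⟨0,[(24,0)]⟩,⟨0,[(25,0)]⟩),(⟨0,[(27,0)]⟩,⟨0,[(28,0)]⟩),⟨0,[(9,0)]⟩,.k,.k,.k,.k,.k,.k,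
  ⟨true,0,⟨0,[(1,0)]⟩,⟨0,[(23,0),(7,0)]⟩⟩,⟨false,0,⟨0,[(4,0)]⟩,⟨0,[(22,0),(9,0)]⟩⟩,⟨true,0,⟨0,[]⟩,
  ⟨0,[(35,0)]⟩⟩,⟨true,0,⟨0,[(7,0)]⟩,⟨0,[(10,0)]⟩⟩,⟨false,1,⟨0,[(30,0),(2,0)]⟩,⟨0,[(31,0)]⟩⟩,⟨true,0,
  ⟨0,[(6,0)]⟩,⟨0,[(20,0)]⟩⟩,[.a ⟨true,0,⟨0,[(31,0)]⟩,⟨0,[(0,0)]⟩⟩ ⟨false,1,⟨11,[(1,7),(6,3),(4,0),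
  (0,0),(17,5)]⟩,⟨0,[(23,0)]⟩⟩ ⟨true,0,⟨0,[(4,0),(26,0)]⟩,⟨0,[(0,0),(17,0)]⟩⟩,.o ⟨false,1,⟨5,[(5,1),
  (1,1),(0,1),(9,1),(7,0),(6,2)]⟩,⟨0,[(30,0)]⟩⟩,.o ⟨false,1,⟨3,[(13,0),(0,0),(3,3),(13,1)]⟩,⟨0,[(4,
  0)]⟩⟩,.o ⟨false,0,⟨0,[(18,0)]⟩,⟨0,[(21,0),(10,0)]⟩⟩]⟩) (.I [1,0,-1,-1,0,0,0,1] (.N [0,-1,1] 0 ⟨0,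
  [(0,0)]⟩ ⟨0,[(2,0)]⟩ .k) (.I [0,0,-1,-1,0,0,0,0,1] (.Q [0,0,0,0,0,0,-1,-1,1,0,1,-1] (.p true [0,0,
  1] [0,0,0,1] (⟨0,[(27,0)]⟩,⟨0,[(26,0)]⟩) .k 2 (⟨0,[(18,0)]⟩,⟨1,[(17,0),(8,0),(0,0)]⟩) .k (.r (-1)
  ⟨3,[(15,2),(0,0),(8,3)]⟩ ⟨0,[(0,0),(2,0)]⟩)) (.Q [0,0,0,0,0,-1,0,0,0,1,0,-1] (.p false [0,0,0,1]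
  [1] (⟨0,[(19,0)]⟩,⟨1,[(18,0),(8,0),(0,0)]⟩) .k 1 (⟨0,[]⟩,⟨0,[]⟩) .k .k) (.R ⟨1,false,false,true,
  [1,0,0,-1],[1,-1,-1],[0,0,0,-1,0,0,0,0,-1],(⟨1,[(19,0),(8,0),(0,0)]⟩,⟨0,[(20,0)]⟩),(⟨0,[(13,0)]⟩,
  ⟨0,[(29,0),(2,0)]⟩),⟨0,[(0,0)]⟩,.k,.k,(.r (-1) ⟨1,[(12,0),(4,0),(9,0)]⟩ ⟨2,[(2,0),(2,1),(0,1)]⟩),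
  (.x (-1) ⟨0,[(25,0),(3,0),(2,0),(3,0)]⟩ ⟨0,[(13,0),(8,0)]⟩),.k,.k,⟨false,1,⟨1,[(17,0),(9,1),(9,
  0)]⟩,⟨0,[(2,0),(5,0),(5,0)]⟩⟩,⟨true,0,⟨1,[(19,0),(2,0),(3,0)]⟩,⟨0,[(8,0),(11,0)]⟩⟩,⟨true,0,⟨0,
  [(35,0)]⟩,⟨0,[(34,0)]⟩⟩,⟨false,0,⟨0,[(1,0),(33,0)]⟩,⟨1,[(7,1),(9,0),(2,1),(16,0)]⟩⟩,⟨false,1,⟨3,
  [(17,0),(0,0),(18,1)]⟩,⟨0,[]⟩⟩,⟨false,0,⟨0,[(1,0)]⟩,⟨5,[(4,1),(2,1),(8,1),(0,2),(2,5),(16,2)]⟩⟩,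
  [.o ⟨false,0,⟨0,[(4,0),(19,0)]⟩,⟨3,[(7,3),(9,0),(0,0),(18,1)]⟩⟩,.o ⟨false,1,⟨5,[(5,1),(6,3),(4,0),
  (0,0),(3,5)]⟩,⟨0,[(7,0)]⟩⟩,.a ⟨true,0,⟨0,[(20,0)]⟩,⟨1,[(19,0),(8,0),(0,0)]⟩⟩ ⟨false,1,⟨1,[(17,0),
  (17,1),(1,0)]⟩,⟨0,[(1,0),(5,0),(12,0)]⟩⟩ ⟨true,0,⟨1,[(4,0),(14,0),(4,1),(10,0)]⟩,⟨0,[(7,0),(12,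
  0)]⟩⟩,.o ⟨false,0,⟨0,[(9,0),(10,0)]⟩,⟨7,[(17,0),(0,0),(0,3),(10,1),(5,3)]⟩⟩]⟩) (.R ⟨0,false,false,
  false,[0,0,0,1],[0,0,1],[0,1,0,0,0,0,0,0,1],(⟨0,[(20,0)]⟩,⟨1,[(19,0),(8,0),(0,0)]⟩),(⟨0,[(29,0)]⟩,
  ⟨0,[(28,0)]⟩),⟨0,[(0,0),(18,0)]⟩,.k,.k,(.r 0 ⟨0,[(2,0)]⟩ ⟨7,[(5,3),(0,3),(10,6),(0,0)]⟩),.k,.k,.k,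
  ⟨false,0,⟨0,[(2,0),(5,0),(5,0)]⟩,⟨1,[(17,0),(9,1),(9,0)]⟩⟩,⟨true,0,⟨0,[(8,0),(11,0)]⟩,⟨1,[(19,0),
  (2,0),(3,0)]⟩⟩,⟨true,0,⟨0,[(39,0)]⟩,⟨0,[]⟩⟩,⟨false,1,⟨5,[(4,1),(2,1),(8,1),(0,2),(2,5),(16,2)]⟩,
  ⟨0,[(1,0)]⟩⟩,⟨false,0,⟨0,[]⟩,⟨0,[]⟩⟩,⟨false,0,⟨0,[]⟩,⟨0,[]⟩⟩,[.o ⟨false,0,⟨0,[(10,0)]⟩,⟨1,[(24,1),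
  (5,0),(6,0)]⟩⟩,.o ⟨false,1,⟨7,[(16,3),(0,0),(0,0),(11,1),(6,3)]⟩,⟨0,[(21,0)]⟩⟩,.a ⟨true,0,⟨1,[(19,
  0),(8,0),(0,0)]⟩,⟨0,[(20,0)]⟩⟩ ⟨false,0,⟨2,[(2,1),(2,0),(0,0)]⟩,⟨1,[(17,0),(19,0)]⟩⟩ ⟨true,0,⟨2,
  [(4,0),(2,0),(8,0),(3,2)]⟩,⟨1,[(19,0),(1,0),(2,0)]⟩⟩,.o ⟨false,0,⟨1,[(19,0),(2,0),(2,0)]⟩,⟨1,[(20,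
  1),(9,0),(5,0)]⟩⟩]⟩)) (.Q [0,0,0,-1,0,0,-1,-1,1,0,1,-1] (.p true [0,0,1] [0,0,0,1] (⟨0,[(28,0)]⟩,
  ⟨0,[(27,0)]⟩) .k 2 (⟨0,[(19,0)]⟩,⟨1,[(18,0),(8,0),(0,0)]⟩) .k (.r (-1) ⟨3,[(16,2),(0,0),(8,3)]⟩
  ⟨0,[(1,0),(2,0)]⟩)) (.R ⟨1,true,false,false,[1,0,-1],[1,0,0,-1],[1,1,0,0,0,0,0,-1],(⟨0,[(28,0)]⟩,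
  ⟨0,[(29,0)]⟩),(⟨1,[(19,0),(8,0),(0,0)]⟩,⟨0,[(20,0)]⟩),⟨0,[(13,0)]⟩,.k,.k,.k,.k,(.x 0 ⟨0,[(13,0),
  (8,0)]⟩ ⟨0,[(25,0),(3,0),(2,0),(3,0)]⟩),.k,⟨false,0,⟨0,[(2,0),(5,0),(5,0)]⟩,⟨1,[(17,0),(9,1),(9,
  0)]⟩⟩,⟨true,0,⟨0,[(8,0),(11,0)]⟩,⟨1,[(19,0),(2,0),(3,0)]⟩⟩,⟨false,0,⟨0,[]⟩,⟨3,[(17,0),(0,0),(18,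
  1)]⟩⟩,⟨true,0,⟨0,[(1,0)]⟩,⟨0,[(0,0),(33,0)]⟩⟩,⟨true,0,⟨0,[(34,0)]⟩,⟨0,[(35,0)]⟩⟩,⟨false,1,⟨1,[(7,
  1),(9,0),(2,1),(16,0)]⟩,⟨0,[(0,0)]⟩⟩,[]⟩) (.Q [0,0,0,0,0,1,0,0,0,0,0,-1] (.p false [0,0,0,1] []
  (⟨0,[(20,0)]⟩,⟨1,[(19,0),(8,0),(0,0)]⟩) .k 0 (⟨0,[]⟩,⟨0,[]⟩) .k .k) (.R ⟨0,false,false,true,[0,0,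
  0,1],[0,1],[1,1,0,0,0,0,0,0,1],(⟨0,[(21,0)]⟩,⟨1,[(20,0),(8,0),(0,0)]⟩),(⟨0,[(33,0)]⟩,⟨0,[(32,
  0)]⟩),⟨0,[(0,0)]⟩,.k,.k,(.r 0 ⟨0,[(3,0)]⟩ ⟨7,[(6,3),(0,3),(10,6),(0,0)]⟩),(.r 0 ⟨0,[(3,0)]⟩ ⟨7,
  [(6,3),(0,3),(10,6),(0,0)]⟩),.k,.k,⟨true,0,⟨0,[(3,0)]⟩,⟨1,[(2,1),(3,1),(13,0),(2,0),(3,0)]⟩⟩,
  ⟨false,1,⟨0,[(21,0),(15,0)]⟩,⟨1,[(20,0),(2,0),(2,0)]⟩⟩,⟨false,0,⟨0,[]⟩,⟨3,[(18,0),(0,0),(18,1)]⟩⟩,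
  ⟨true,0,⟨0,[(1,0),(23,0)]⟩,⟨1,[(3,1),(16,0),(2,0),(2,0)]⟩⟩,⟨false,0,⟨0,[]⟩,⟨0,[]⟩⟩,⟨false,0,⟨0,
  []⟩,⟨0,[]⟩⟩,[.o ⟨false,0,⟨0,[(35,0)]⟩,⟨3,[(5,3),(12,0),(0,0),(18,1)]⟩⟩,.o ⟨false,1,⟨3,[(18,0),(0,
  0),(15,3),(2,1)]⟩,⟨0,[(5,0)]⟩⟩,.a ⟨true,0,⟨1,[(20,0),(8,0),(0,0)]⟩,⟨0,[(21,0)]⟩⟩ ⟨false,0,⟨2,[(3,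
  1),(2,0),(0,0)]⟩,⟨1,[(18,0),(19,0)]⟩⟩ ⟨true,0,⟨0,[(21,0),(13,0)]⟩,⟨1,[(5,0),(14,0),(15,0)]⟩⟩,.o
  ⟨false,0,⟨1,[(20,0),(2,0),(2,0)]⟩,⟨1,[(21,1),(9,0),(5,0)]⟩⟩]⟩) (.R ⟨1,false,false,false,[0,0,0,1],
  [0,0,1],[1,1,0,0,0,0,0,0,1],(⟨0,[(21,0)]⟩,⟨1,[(20,0),(8,0),(0,0)]⟩),(⟨0,[(30,0)]⟩,⟨0,[(29,0)]⟩),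
  ⟨0,[(0,0)]⟩,.k,.k,(.r 0 ⟨0,[(3,0)]⟩ ⟨7,[(6,3),(0,3),(10,6),(0,0)]⟩),.k,(.r (-1) ⟨4,[(3,0),(2,1),
  (6,2),(5,1)]⟩ ⟨1,[(1,1),(18,0),(2,0),(3,0)]⟩),.k,⟨false,0,⟨0,[(3,0),(5,0),(5,0)]⟩,⟨1,[(18,0),(9,
  1),(9,0)]⟩⟩,⟨true,0,⟨0,[(9,0),(11,0)]⟩,⟨1,[(20,0),(2,0),(3,0)]⟩⟩,⟨false,0,⟨0,[]⟩,⟨3,[(18,0),(0,0),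
  (18,1)]⟩⟩,⟨true,0,⟨0,[(2,0)]⟩,⟨5,[(3,3),(2,1),(0,1),(12,2),(1,2),(2,2)]⟩⟩,⟨true,0,⟨0,[(35,0)]⟩,⟨0,
  [(36,0)]⟩⟩,⟨true,0,⟨0,[(1,0)]⟩,⟨1,[(3,1),(16,0),(2,0),(1,1),(0,0)]⟩⟩,[.o ⟨false,0,⟨0,[(11,0)]⟩,⟨1,
  [(25,1),(5,0),(6,0)]⟩⟩,.o ⟨false,1,⟨7,[(17,3),(0,0),(0,0),(11,1),(6,3)]⟩,⟨0,[(22,0)]⟩⟩,.a ⟨true,0,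
  ⟨1,[(20,0),(8,0),(0,0)]⟩,⟨0,[(21,0)]⟩⟩ ⟨false,0,⟨2,[(3,1),(2,0),(0,0)]⟩,⟨1,[(18,0),(19,0)]⟩⟩
  ⟨true,0,⟨2,[(5,0),(2,0),(8,0),(3,2)]⟩,⟨1,[(20,0),(1,0),(2,0)]⟩⟩,.o ⟨false,0,⟨1,[(20,0),(2,0),(2,
  0)]⟩,⟨1,[(21,1),(9,0),(5,0)]⟩⟩]⟩)))) (.Q [0,0,0,0,0,0,1,1,1,1,-1,-1] (.p false [0,0,1] [1,0,0,-1]
  (⟨0,[(27,0)]⟩,⟨0,[(26,0)]⟩) .k 2 (⟨1,[(17,0),(8,0),(0,0)]⟩,⟨0,[(18,0)]⟩) .k (.x 0 ⟨0,[(6,0),(20,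
  0)]⟩ ⟨3,[(15,0),(0,0),(3,3),(5,3),(7,1)]⟩)) (.Q [0,0,0,1,0,0,1,1,1,1,-1,-1] (.p false [0,0,1] [1,
  0,0,-1] (⟨0,[(28,0)]⟩,⟨0,[(27,0)]⟩) .k 2 (⟨1,[(18,0),(8,0),(0,0)]⟩,⟨0,[(19,0)]⟩) .k (.x 0 ⟨0,[(7,
  0),(20,0)]⟩ ⟨3,[(16,0),(0,0),(3,3),(5,3),(7,1)]⟩)) (.I [0,0,0,-1,0,0,0,0,1] (.Q [0,0,0,0,0,0,1,1,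
  -1,0,-1,1] (.p false [0,0,1] [0,0,0,1] (⟨0,[(30,0)]⟩,⟨0,[(29,0)]⟩) .k 2 (⟨0,[(21,0)]⟩,⟨1,[(20,0),
  (8,0),(0,0)]⟩) .k (.x 0 ⟨0,[(9,0),(20,0)]⟩ ⟨3,[(18,0),(0,0),(3,3),(5,3),(7,1)]⟩)) (.Q [0,0,0,0,0,
  1,0,0,0,0,0,-1] (.p false [0,0,0,1] [] (⟨0,[(22,0)]⟩,⟨1,[(21,0),(8,0),(0,0)]⟩) .k 0 (⟨0,[]⟩,⟨0,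
  []⟩) .k .k) (.Q [0,1,0,0,0,0,-1,-1,1,0,1,-1] (.p true [0,0,1] [0,0,0,1] (⟨0,[(32,0)]⟩,⟨0,[(31,
  0)]⟩) .k 2 (⟨0,[(23,0)]⟩,⟨1,[(22,0),(8,0),(0,0)]⟩) .k (.x 0 ⟨0,[(11,0),(20,0)]⟩ ⟨3,[(20,0),(0,0),
  (3,3),(5,3),(7,1)]⟩)) (.R ⟨0,false,false,false,[0,0,0,1],[0,0,1],[0,1,1],(⟨0,[(24,0)]⟩,⟨1,[(23,0),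
  (8,0),(0,0)]⟩),(⟨0,[(33,0)]⟩,⟨0,[(32,0)]⟩),⟨0,[(1,0)]⟩,.k,.k,(.x 0 ⟨0,[(13,0),(21,0)]⟩ ⟨3,[(21,0),
  (0,0),(13,3),(3,1)]⟩),.k,.k,.k,⟨false,0,⟨0,[(12,0),(15,0)]⟩,⟨1,[(31,1),(8,0),(0,0)]⟩⟩,⟨true,0,⟨0,
  [(12,0),(11,0)]⟩,⟨1,[(23,0),(2,0),(3,0)]⟩⟩,⟨false,0,⟨0,[(6,0),(32,0)]⟩,⟨0,[(3,0),(33,0),(3,0)]⟩⟩,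
  ⟨true,0,⟨0,[(2,0)]⟩,⟨0,[(0,0)]⟩⟩,⟨false,0,⟨0,[]⟩,⟨0,[]⟩⟩,⟨false,0,⟨0,[]⟩,⟨0,[]⟩⟩,[.o ⟨false,0,⟨0,
  [(14,0)]⟩,⟨1,[(28,1),(5,0),(6,0)]⟩⟩,.o ⟨false,1,⟨7,[(20,3),(0,0),(0,0),(11,1),(6,3)]⟩,⟨0,[(25,
  0)]⟩⟩,.a ⟨true,0,⟨1,[(23,0),(8,0),(0,0)]⟩,⟨0,[(24,0)]⟩⟩ ⟨false,0,⟨1,[(29,0),(0,0)]⟩,⟨1,[(40,0),(0,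
  0)]⟩⟩ ⟨true,0,⟨1,[(2,0),(0,0),(7,0),(12,0)]⟩,⟨1,[(23,0),(1,0),(2,0)]⟩⟩,.o ⟨false,0,⟨1,[(23,0),(2,
  0),(2,0)]⟩,⟨1,[(24,1),(9,0),(5,0)]⟩⟩]⟩) (.R ⟨0,false,false,false,[0,0,0,1],[0,0,1],[],(⟨0,[(24,
  0)]⟩,⟨1,[(23,0),(8,0),(0,0)]⟩),(⟨0,[(33,0)]⟩,⟨0,[(32,0)]⟩),⟨0,[(1,0)]⟩,.k,.k,(.x 0 ⟨0,[(13,0),(21,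
  0)]⟩ ⟨3,[(21,0),(0,0),(13,3),(3,1)]⟩),.k,.k,.k,⟨false,1,⟨11,[(9,7),(6,3),(4,0),(0,0),(17,5)]⟩,⟨0,
  [(31,0)]⟩⟩,⟨true,0,⟨0,[(12,0),(11,0)]⟩,⟨1,[(23,0),(2,0),(3,0)]⟩⟩,⟨true,0,⟨1,[(0,1),(22,0),(1,0),
  (2,0)]⟩,⟨0,[(3,0),(34,0)]⟩⟩,⟨false,0,⟨0,[(0,0)]⟩,⟨1,[(22,0),(0,0),(1,0),(2,0),(12,0)]⟩⟩,⟨false,0,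
  ⟨0,[]⟩,⟨0,[]⟩⟩,⟨false,0,⟨0,[]⟩,⟨0,[]⟩⟩,[.o ⟨false,0,⟨0,[(14,0)]⟩,⟨1,[(28,1),(5,0),(6,0)]⟩⟩,.o
  ⟨false,1,⟨7,[(20,3),(0,0),(0,0),(11,1),(6,3)]⟩,⟨0,[(25,0)]⟩⟩,.a ⟨true,0,⟨1,[(23,0),(8,0),(0,0)]⟩,
  ⟨0,[(24,0)]⟩⟩ ⟨false,1,⟨3,[(21,0),(0,0),(18,1)]⟩,⟨0,[]⟩⟩ ⟨true,0,⟨1,[(2,0),(0,0),(7,0),(12,0)]⟩,
  ⟨1,[(23,0),(1,0),(2,0)]⟩⟩,.o ⟨false,0,⟨1,[(23,0),(2,0),(2,0)]⟩,⟨1,[(24,1),(9,0),(5,0)]⟩⟩]⟩)) (.I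
  [0,0,-1,-2,0,0,0,0,1] (.R ⟨1,false,false,true,[0,0,0,1],[0,1],[0,1,0,-1,0,0,0,0,1],(⟨0,[(24,0)]⟩,
  ⟨1,[(23,0),(8,0),(0,0)]⟩),(⟨0,[(36,0)]⟩,⟨0,[(35,0)]⟩),⟨0,[(1,0)]⟩,.k,.k,(.x 0 ⟨0,[(13,0),(21,0)]⟩
  ⟨3,[(21,0),(0,0),(13,3),(3,1)]⟩),(.x 0 ⟨0,[(13,0),(21,0)]⟩ ⟨3,[(21,0),(0,0),(13,3),(3,1)]⟩),(.r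
  (-1) ⟨3,[(0,1),(15,1),(5,0),(8,1),(8,0)]⟩ ⟨2,[(6,3),(0,0),(2,0)]⟩),.k,⟨true,0,⟨0,[(0,0)]⟩,⟨2,[(6,
  3),(2,0),(0,0)]⟩⟩,⟨false,1,⟨0,[(24,0),(15,0)]⟩,⟨1,[(23,0),(2,0),(2,0)]⟩⟩,⟨false,0,⟨0,[(39,0)]⟩,⟨0,
  [(38,0),(2,0)]⟩⟩,⟨true,0,⟨0,[(2,0),(15,0)]⟩,⟨2,[(0,1),(3,0),(3,0),(0,0),(13,0),(2,0)]⟩⟩,⟨true,0,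
  ⟨0,[(43,0)]⟩,⟨0,[]⟩⟩,⟨true,0,⟨0,[(6,0),(17,0),(12,0)]⟩,⟨1,[(3,1),(4,0),(14,0),(15,0)]⟩⟩,[.o
  ⟨false,0,⟨0,[(38,0)]⟩,⟨3,[(3,1),(4,1),(12,0),(12,0),(6,1)]⟩⟩,.o ⟨false,1,⟨3,[(21,0),(0,0),(15,3),
  (2,1)]⟩,⟨0,[(8,0)]⟩⟩,.a ⟨true,0,⟨1,[(23,0),(8,0),(0,0)]⟩,⟨0,[(24,0)]⟩⟩ ⟨false,0,⟨0,[(3,0)]⟩,⟨3,
  [(6,1),(14,0),(15,1),(3,2)]⟩⟩ ⟨true,0,⟨0,[(24,0),(13,0)]⟩,⟨1,[(8,0),(14,0),(15,0)]⟩⟩,.o ⟨false,0,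
  ⟨1,[(23,0),(2,0),(2,0)]⟩,⟨1,[(24,1),(9,0),(5,0)]⟩⟩]⟩) (.Q [0,1,0,1,0,0,-1,-1,-1,-1,1,1] (.p true
  [0,0,1] [1,0,0,-1] (⟨0,[(33,0)]⟩,⟨0,[(32,0)]⟩) .k 2 (⟨1,[(23,0),(8,0),(0,0)]⟩,⟨0,[(24,0)]⟩) .k
  (.x 0 ⟨0,[(12,0),(20,0)]⟩ ⟨3,[(21,0),(0,0),(3,3),(5,3),(7,1)]⟩)) (.I [1,0,1,1,0,0,0,-1,-1] (.R ⟨1,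
  false,false,true,[0,0,0,1],[1,0,-1],[0,1,0,-1,0,0,0,0,1],(⟨0,[(26,0)]⟩,⟨1,[(25,0),(8,0),(0,0)]⟩),
  (⟨0,[(34,0)]⟩,⟨0,[(35,0)]⟩),⟨0,[(3,0)]⟩,.k,.k,(.r (-1) ⟨1,[(18,0),(5,0),(8,0)]⟩ ⟨0,[(2,0),(0,1),
  (6,0),(14,0),(12,1)]⟩),.k,(.x 0 ⟨1,[(3,1),(10,0),(0,0),(9,0),(5,0),(3,1)]⟩ ⟨0,[(28,0),(5,0),(3,0),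
  (3,0)]⟩),.k,⟨true,0,⟨0,[(5,0),(27,0)]⟩,⟨0,[(0,0)]⟩⟩,⟨false,1,⟨0,[(26,0),(1,0),(13,0)]⟩,⟨1,[(14,1),
  (10,0),(8,0),(0,0)]⟩⟩,⟨false,0,⟨0,[(41,0)]⟩,⟨3,[(2,1),(21,0),(17,0),(0,1)]⟩⟩,⟨true,0,⟨0,[(1,0),
  (39,0)]⟩,⟨0,[(7,0)]⟩⟩,⟨true,0,⟨0,[(45,0)]⟩,⟨0,[]⟩⟩,⟨true,0,⟨0,[(1,0)]⟩,⟨1,[(5,1),(16,0),(2,0)]⟩⟩,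
  [.o ⟨false,0,⟨0,[(27,0)]⟩,⟨7,[(22,3),(0,0),(0,0),(11,1),(6,3)]⟩⟩,.o ⟨false,1,⟨1,[(30,1),(5,0),(6,
  0)]⟩,⟨0,[(16,0)]⟩⟩,.a ⟨true,0,⟨1,[(25,0),(8,0),(0,0)]⟩,⟨0,[(26,0)]⟩⟩ ⟨false,0,⟨0,[(5,0)]⟩,⟨3,[(2,
  1),(20,0),(18,0),(0,1)]⟩⟩ ⟨true,0,⟨0,[(1,0),(3,0)]⟩,⟨1,[(22,0),(2,0)]⟩⟩,.o ⟨false,0,⟨1,[(25,0),(2,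
  0),(2,0)]⟩,⟨1,[(26,1),(9,0),(5,0)]⟩⟩]⟩) (.R ⟨1,false,false,true,[0,0,0,1],[1,-1,-1],[0,1,0,-1,0,0,
  0,0,1],(⟨0,[(26,0)]⟩,⟨1,[(25,0),(8,0),(0,0)]⟩),(⟨0,[(19,0)]⟩,⟨0,[(35,0),(2,0)]⟩),⟨0,[(3,0)]⟩,.k,
  .k,(.r (-1) ⟨5,[(0,1),(17,1),(4,0),(0,2)]⟩ ⟨0,[(2,0),(0,1),(6,0),(14,0),(12,1)]⟩),(.r 0 ⟨0,[(0,2),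
  (1,1),(0,3),(5,1),(0,1),(14,1),(12,3)]⟩ ⟨0,[(8,0),(9,0)]⟩),.k,.k,⟨false,0,⟨1,[(0,0),(11,0)]⟩,⟨0,
  [(2,0),(15,0)]⟩⟩,⟨true,0,⟨0,[(26,0),(1,0)]⟩,⟨1,[(14,1),(10,0),(8,0),(0,0)]⟩⟩,⟨false,0,⟨0,[(41,
  0)]⟩,⟨3,[(2,1),(21,0),(17,0),(0,1)]⟩⟩,⟨true,0,⟨0,[(1,0),(39,1)]⟩,⟨0,[(6,0)]⟩⟩,⟨true,0,⟨0,[(45,
  0)]⟩,⟨0,[]⟩⟩,⟨true,0,⟨0,[(1,0),(39,0)]⟩,⟨0,[(7,0)]⟩⟩,[.o ⟨false,0,⟨0,[(10,0),(19,0)]⟩,⟨3,[(13,3),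
  (9,0),(0,0),(18,1)]⟩⟩,.o ⟨false,1,⟨5,[(11,1),(6,3),(4,0),(0,0),(3,5)]⟩,⟨0,[(13,0)]⟩⟩,.a ⟨true,0,
  ⟨1,[(25,0),(8,0),(0,0)]⟩,⟨0,[(26,0)]⟩⟩ ⟨false,0,⟨0,[(5,0)]⟩,⟨3,[(2,1),(20,0),(18,0),(0,1)]⟩⟩
  ⟨true,0,⟨0,[(10,0),(15,0),(3,0)]⟩,⟨1,[(13,0),(7,0),(3,0)]⟩⟩,.o ⟨false,0,⟨1,[(25,0),(2,0),(2,0)]⟩,
  ⟨1,[(26,1),(9,0),(5,0)]⟩⟩]⟩)) (.Q [0,-1,0,0,1,0,-1,-1,-1,-1,1,1] (.p true [0,0,1] [1,0,0,-1] (⟨0,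
  [(34,0)]⟩,⟨0,[(33,0)]⟩) .k 2 (⟨1,[(24,0),(8,0),(0,0)]⟩,⟨0,[(25,0)]⟩) .k (.r 0 ⟨0,[(0,0),(24,0),(1,
  0),(10,0)]⟩ ⟨11,[(10,7),(6,3),(4,6),(0,0)]⟩)) (.R ⟨1,false,false,false,[0,0,0,1],[1,-1,-1],[0,0,0,
  -1,0,0,0,0,1],(⟨0,[(26,0)]⟩,⟨1,[(25,0),(8,0),(0,0)]⟩),(⟨0,[(19,0)]⟩,⟨0,[(35,0),(2,0)]⟩),⟨0,[(3,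
  0)]⟩,.k,.k,(.r (-1) ⟨1,[(18,0),(5,0),(8,0)]⟩ ⟨0,[(2,0),(0,1),(6,0),(14,0),(12,1)]⟩),(.r 0 ⟨1,[(1,
  2),(0,0),(0,4),(5,0),(0,0),(14,0),(2,2),(9,4),(0,2)]⟩ ⟨0,[(8,0),(9,0)]⟩),.k,.k,⟨false,0,⟨0,[(1,0),
  (24,0),(1,0),(10,0)]⟩,⟨0,[(2,0),(15,0)]⟩⟩,⟨true,0,⟨0,[(26,0),(1,0)]⟩,⟨1,[(14,1),(10,0),(8,0),(0,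
  0)]⟩⟩,⟨true,0,⟨0,[(41,0)]⟩,⟨0,[(40,0)]⟩⟩,⟨false,1,⟨0,[(0,0),(40,0)]⟩,⟨0,[(6,0)]⟩⟩,⟨false,1,⟨3,
  [(23,0),(0,0),(18,1)]⟩,⟨0,[]⟩⟩,⟨false,1,⟨0,[(0,0)]⟩,⟨0,[(7,0)]⟩⟩,[.o ⟨false,1,⟨15,[(0,3),(14,3),
  (2,7),(4,0),(0,2),(0,1),(2,9),(1,3),(0,1)]⟩,⟨0,[(13,0)]⟩⟩,.o ⟨false,1,⟨2,[(0,1),(4,1),(4,0),(14,
  0),(1,0),(15,0)]⟩,⟨1,[(13,0),(15,0),(10,0)]⟩⟩,.a ⟨true,0,⟨1,[(25,0),(8,0),(0,0)]⟩,⟨0,[(26,0)]⟩⟩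
  ⟨true,0,⟨0,[(5,0)]⟩,⟨3,[(4,1),(3,1),(16,0),(1,0),(2,0),(8,1)]⟩⟩ ⟨false,1,⟨0,[(0,0),(4,0)]⟩,⟨1,
  [(13,0),(7,0),(3,0)]⟩⟩,.o ⟨false,0,⟨1,[(25,0),(2,0),(2,0)]⟩,⟨1,[(26,1),(9,0),(5,0)]⟩⟩]⟩) (.Q [0,
  -1,0,1,0,0,1,1,1,1,-1,-1] (.p false [0,0,1] [1,0,0,-1] (⟨0,[(35,0)]⟩,⟨0,[(34,0)]⟩) .k 2 (⟨1,[(25,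
  0),(8,0),(0,0)]⟩,⟨0,[(26,0)]⟩) .k (.r 0 ⟨1,[(0,0),(4,0),(20,0),(1,0),(4,0),(5,0),(3,0)]⟩ ⟨11,[(11,
  7),(6,3),(4,6),(0,0)]⟩)) (.R ⟨1,false,false,false,[1,0,0,-1],[0,0,1],[0,0,0,-1,0,0,0,0,-1],(⟨1,
  [(26,0),(8,0),(0,0)]⟩,⟨0,[(27,0)]⟩),(⟨0,[(36,0)]⟩,⟨0,[(35,0)]⟩),⟨0,[(4,0),(21,0)]⟩,.k,.k,(.r (-1)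
  ⟨1,[(19,0),(4,0),(9,0)]⟩ ⟨3,[(0,0),(5,0),(5,1),(0,1),(13,0),(0,0)]⟩),.k,(.r (-1) ⟨0,[(9,0),(9,
  0)]⟩ ⟨0,[(0,1),(2,0),(0,9),(6,4),(9,0),(4,3),(2,0),(9,9),(0,0)]⟩),.k,⟨false,1,⟨0,[(9,0),(9,0)]⟩,
  ⟨2,[(0,1),(5,0),(20,1),(1,1),(4,0),(5,1)]⟩⟩,⟨true,0,⟨1,[(15,1),(10,0),(8,0),(0,0)]⟩,⟨0,[(27,0),(1,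
  0)]⟩⟩,⟨true,0,⟨0,[(42,0)]⟩,⟨0,[(41,0)]⟩⟩,⟨false,0,⟨1,[(0,0),(1,0)]⟩,⟨1,[(24,0),(2,1),(0,1),(15,
  0)]⟩⟩,⟨false,1,⟨3,[(24,0),(0,0),(18,1)]⟩,⟨0,[]⟩⟩,⟨false,0,⟨0,[(0,0)]⟩,⟨1,[(11,1),(12,0),(2,1),(3,
  1),(12,0)]⟩⟩,[.o ⟨false,0,⟨0,[(17,0)]⟩,⟨1,[(31,1),(5,0),(6,0)]⟩⟩,.o ⟨false,1,⟨7,[(23,3),(0,0),(0,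
  0),(11,1),(6,3)]⟩,⟨0,[(28,0)]⟩⟩,.a ⟨true,0,⟨0,[(27,0)]⟩,⟨1,[(26,0),(8,0),(0,0)]⟩⟩ ⟨false,1,⟨1,
  [(24,0),(17,1),(1,0)]⟩,⟨0,[(0,0),(26,0),(0,0)]⟩⟩ ⟨true,0,⟨1,[(23,0),(2,0)]⟩,⟨0,[(27,0),(0,0)]⟩⟩,
  .o ⟨false,0,⟨0,[(16,0),(10,0)]⟩,⟨7,[(24,0),(0,0),(0,3),(10,1),(5,3)]⟩⟩]⟩) (.R ⟨1,true,false,false,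
  [1,0,-1],[0,0,0,1],[0,0,0,-1,0,0,0,-1],(⟨0,[(35,0)]⟩,⟨0,[(36,0)]⟩),(⟨0,[(27,0)]⟩,⟨1,[(26,0),(8,0),
  (0,0)]⟩),⟨0,[(20,0)]⟩,.k,.k,.k,.k,(.r (-1) ⟨0,[(9,0),(9,0)]⟩ ⟨0,[(1,1),(1,0),(0,5),(6,2),(9,0),(4,
  1),(2,0),(9,5),(0,0),(3,1)]⟩),.k,⟨false,1,⟨0,[(9,0),(9,0)]⟩,⟨0,[(1,0),(25,0),(1,0),(10,0),(3,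
  0)]⟩⟩,⟨true,0,⟨1,[(15,1),(10,0),(8,0),(0,0)]⟩,⟨0,[(27,0),(1,0)]⟩⟩,⟨true,0,⟨0,[(42,0)]⟩,⟨0,[(41,
  0)]⟩⟩,⟨false,0,⟨0,[(1,0),(42,0)]⟩,⟨3,[(0,1),(20,1),(2,0),(2,1),(9,0),(6,1)]⟩⟩,⟨false,1,⟨3,[(24,0),
  (0,0),(18,1)]⟩,⟨0,[]⟩⟩,⟨true,0,⟨0,[(7,0)]⟩,⟨0,[(0,0)]⟩⟩,[]⟩)))))) (.K ⟨2,[0,0,0,1],0,0,(⟨0,[(22,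
  0)]⟩,⟨1,[(21,0),(8,0),(0,0)]⟩),.k,(.x 0 ⟨0,[(11,0),(21,0)]⟩ ⟨3,[(19,0),(0,0),(13,3),(3,1)]⟩),(.r
  0 ⟨3,[(0,0),(0,0),(5,1),(0,1),(0,0),(12,0)]⟩ ⟨1,[(14,0),(4,0),(9,0)]⟩),.k,.k,[⟨0,[(0,0)]⟩,⟨0,[(4,
  0),(17,0),(12,0),(1,1)]⟩,⟨1,[(22,1),(4,0),(0,0)]⟩,⟨1,[(21,0),(2,0),(2,0)]⟩]⟩)) (.Q [0,0,0,0,0,1,0,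
  0,0,0,0,-1] (.p false [0,0,0,1] [] (⟨0,[(21,0)]⟩,⟨1,[(20,0),(8,0),(0,0)]⟩) .k 0 (⟨0,[]⟩,⟨0,[]⟩)
  .k .k) (.R ⟨0,false,false,false,[0,0,0,1],[1,0,-1],[1],(⟨0,[(22,0)]⟩,⟨1,[(21,0),(8,0),(0,0)]⟩),
  (⟨0,[(30,0)]⟩,⟨0,[(31,0)]⟩),⟨0,[(0,0)]⟩,.k,.k,(.r (-1) ⟨1,[(14,0),(5,0),(8,0)]⟩ ⟨0,[(1,0),(3,0),
  (0,0),(8,0),(13,0),(1,0),(2,0)]⟩),.k,.k,.k,⟨true,0,⟨0,[(29,0)]⟩,⟨0,[(7,0),(29,0)]⟩⟩,⟨false,1,⟨0,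
  [(22,0),(1,0),(13,0)]⟩,⟨1,[(10,1),(10,0),(8,0),(0,0)]⟩⟩,⟨true,0,⟨0,[(1,0),(35,0)]⟩,⟨0,[(3,0),(18,
  0),(0,0)]⟩⟩,⟨false,1,⟨0,[(1,0),(4,0),(15,0),(3,0),(12,0)]⟩,⟨0,[(3,0)]⟩⟩,⟨false,0,⟨0,[]⟩,⟨0,[]⟩⟩,
  ⟨false,0,⟨0,[]⟩,⟨0,[]⟩⟩,[.o ⟨false,1,⟨1,[(26,1),(5,0),(6,0)]⟩,⟨0,[(12,0)]⟩⟩,.o ⟨false,1,⟨0,[(23,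
  0),(15,0)]⟩,⟨0,[(25,0)]⟩⟩,.a ⟨true,0,⟨1,[(21,0),(8,0),(0,0)]⟩,⟨0,[(22,0)]⟩⟩ ⟨true,0,⟨0,[]⟩,⟨0,
  [(41,0)]⟩⟩ ⟨false,1,⟨0,[(22,0),(0,0),(15,0)]⟩,⟨1,[(18,0),(2,0)]⟩⟩,.o ⟨false,0,⟨1,[(21,0),(2,0),(2,
  0)]⟩,⟨1,[(22,1),(9,0),(5,0)]⟩⟩]⟩) (.I [0,-1,-1,-1,1,0,0,-1,-1] (.R ⟨1,false,false,true,[1,0,0,-1],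
  [0,0,1],[0,0,0,-1,0,0,0,0,-1],(⟨1,[(22,0),(8,0),(0,0)]⟩,⟨0,[(23,0)]⟩),(⟨0,[(32,0)]⟩,⟨0,[(31,0)]⟩),
  ⟨0,[(1,0),(20,0)]⟩,.k,.k,(.x 0 ⟨0,[(12,0),(21,0)]⟩ ⟨3,[(20,0),(0,0),(13,3),(3,1)]⟩),.k,(.r (-1)
  ⟨2,[(0,0),(10,0),(3,0),(4,0),(6,0)]⟩ ⟨0,[(1,0),(1,0),(21,0),(9,0)]⟩),.k,⟨false,1,⟨0,[(0,0)]⟩,⟨2,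
  [(4,0),(2,0),(1,1),(13,0),(3,0),(2,0),(5,1)]⟩⟩,⟨true,0,⟨1,[(11,1),(10,0),(8,0),(0,0)]⟩,⟨0,[(23,0),
  (1,0)]⟩⟩,⟨true,0,⟨0,[(38,0)]⟩,⟨0,[(37,0)]⟩⟩,⟨false,0,⟨0,[(4,0)]⟩,⟨1,[(0,0),(1,0),(20,1),(0,0),(0,
  0),(14,0)]⟩⟩,⟨false,1,⟨3,[(20,0),(0,0),(18,1)]⟩,⟨0,[]⟩⟩,⟨false,0,⟨0,[(3,0)]⟩,⟨0,[(0,0),(22,0),(1,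
  0)]⟩⟩,[.o ⟨false,0,⟨0,[(26,0)]⟩,⟨0,[(24,0),(15,0)]⟩⟩,.o ⟨false,0,⟨0,[(13,0)]⟩,⟨1,[(27,1),(5,0),(6,
  0)]⟩⟩,.a ⟨true,0,⟨0,[(23,0)]⟩,⟨1,[(22,0),(8,0),(0,0)]⟩⟩ ⟨true,0,⟨0,[(2,0),(35,1)]⟩,⟨0,[(3,0),(19,
  0),(0,0)]⟩⟩ ⟨false,0,⟨1,[(19,0),(2,0)]⟩,⟨0,[(23,0),(0,0),(15,0)]⟩⟩,.o ⟨false,0,⟨0,[(12,0),(10,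
  0)]⟩,⟨7,[(20,0),(0,0),(0,3),(10,1),(5,3)]⟩⟩]⟩) (.R ⟨1,false,false,false,[1,0,0,-1],[1,-1],[1,1,0,
  0,0,0,0,0,-1],(⟨1,[(22,0),(8,0),(0,0)]⟩,⟨0,[(23,0)]⟩),(⟨0,[(34,0)]⟩,⟨0,[(35,0)]⟩),⟨0,[(1,0),(20,
  0)]⟩,.k,.k,(.r (-1) ⟨1,[(15,0),(4,0),(9,0)]⟩ ⟨3,[(0,1),(7,1),(12,0),(18,0)]⟩),(.r 0 ⟨0,[(0,0),(0,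
  7),(0,1),(3,0),(0,3),(14,3),(12,7),(0,0),(3,0)]⟩ ⟨1,[(15,0),(5,0),(8,0)]⟩),.k,.k,⟨false,0,⟨0,[(2,
  0),(39,0)]⟩,⟨0,[(0,0),(14,0),(24,0)]⟩⟩,⟨true,0,⟨3,[(12,1),(9,1),(5,0),(0,0)]⟩,⟨0,[(23,0)]⟩⟩,
  ⟨false,0,⟨0,[]⟩,⟨3,[(20,0),(0,0),(18,1)]⟩⟩,⟨false,1,⟨1,[(7,0),(13,0),(0,0),(15,0),(1,0)]⟩,⟨0,[(2,
  0),(20,0)]⟩⟩,⟨true,0,⟨0,[(37,0)]⟩,⟨0,[(38,0)]⟩⟩,⟨false,1,⟨2,[(3,0),(3,0),(13,0),(0,0),(1,0),(15,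
  1)]⟩,⟨0,[(2,0),(20,0),(14,0)]⟩⟩,[.o ⟨false,0,⟨0,[(7,0)]⟩,⟨3,[(20,0),(0,0),(15,3),(2,1)]⟩⟩,.o
  ⟨false,1,⟨3,[(7,3),(12,0),(0,0),(18,1)]⟩,⟨0,[(37,0)]⟩⟩,.a ⟨true,0,⟨0,[(23,0)]⟩,⟨1,[(22,0),(8,0),
  (0,0)]⟩⟩ ⟨false,0,⟨0,[(2,0),(35,0)]⟩,⟨1,[(21,0),(18,0)]⟩⟩ ⟨true,0,⟨1,[(7,0),(14,0),(15,0)]⟩,⟨0,
  [(23,0),(13,0)]⟩⟩,.o ⟨false,0,⟨0,[(12,0),(10,0)]⟩,⟨7,[(20,0),(0,0),(0,3),(10,1),(5,3)]⟩⟩]⟩))))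
  (.R ⟨1,true,false,false,[1,0,-1],[0,0,0,1],[1,1,0,0,0,0,0,-1],(⟨0,[(28,0)]⟩,⟨0,[(29,0)]⟩),(⟨0,
  [(20,0)]⟩,⟨1,[(19,0),(8,0),(0,0)]⟩),⟨0,[(13,0)]⟩,.k,.k,.k,.k,(.x 0 ⟨0,[(13,0),(8,0)]⟩ ⟨0,[(25,0),
  (3,0),(2,0),(3,0)]⟩),.k,⟨false,0,⟨1,[(0,1),(7,1),(10,0),(8,0),(0,0),(3,1)]⟩,⟨1,[(18,0),(8,1),(9,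
  0)]⟩⟩,⟨true,0,⟨1,[(8,1),(10,0),(8,0),(0,0)]⟩,⟨0,[(20,0),(1,0)]⟩⟩,⟨false,0,⟨0,[]⟩,⟨3,[(17,0),(0,0),
  (18,1)]⟩⟩,⟨true,0,⟨0,[(1,0)]⟩,⟨0,[(0,0),(33,0)]⟩⟩,⟨true,0,⟨0,[(34,0)]⟩,⟨0,[(35,0)]⟩⟩,⟨false,1,⟨1,
  [(7,0),(7,0),(2,0),(0,0),(17,0)]⟩,⟨0,[(0,0)]⟩⟩,[]⟩)) (.I [1,1,0,0,0,0,0,0,1] (.K ⟨2,[1,0,0,-1],0,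
  0,(⟨1,[(19,0),(8,0),(0,0)]⟩,⟨0,[(20,0)]⟩),.k,(.x 0 ⟨0,[(9,0),(21,0)]⟩ ⟨3,[(17,0),(0,0),(13,3),(3,
  1)]⟩),(.r 0 ⟨1,[(1,1),(1,1),(0,1),(2,1),(5,2),(5,0),(7,1),(1,2),(2,2)]⟩ ⟨1,[(12,0),(5,0),(8,0)]⟩),
  .k,.k,[⟨0,[(1,0)]⟩,⟨1,[(0,1),(18,0),(8,0),(0,0)]⟩,⟨1,[(19,0),(5,0),(0,0),(1,0),(0,0)]⟩,⟨0,[(9,0),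
  (10,0)]⟩]⟩) (.Q [0,0,0,0,0,-1,0,0,0,1,0,-1] (.p false [0,0,0,1] [1] (⟨0,[(20,0)]⟩,⟨1,[(19,0),(8,
  0),(0,0)]⟩) .k 1 (⟨0,[]⟩,⟨0,[]⟩) .k .k) (.R ⟨1,false,false,true,[1,0,0,-1],[0,1],[1,1,0,0,0,0,0,0,
  -1],(⟨1,[(20,0),(8,0),(0,0)]⟩,⟨0,[(21,0)]⟩),(⟨0,[(33,0)]⟩,⟨0,[(32,0)]⟩),⟨0,[(0,0)]⟩,.k,.k,(.r 0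
  ⟨0,[(1,0),(32,0),(1,1)]⟩ ⟨0,[(3,0),(15,0)]⟩),(.r 0 ⟨0,[(1,0),(32,0),(1,1)]⟩ ⟨0,[(3,0),(15,0)]⟩),
  (.r (-1) ⟨3,[(1,1),(11,2),(4,0),(9,2),(5,1),(1,3)]⟩ ⟨0,[(4,0),(2,0)]⟩),.k,⟨true,0,⟨0,[(1,0),(32,
  0),(1,1)]⟩,⟨0,[(6,0),(0,0),(28,0)]⟩⟩,⟨false,1,⟨1,[(20,0),(8,0),(0,0),(6,1)]⟩,⟨0,[(10,0),(10,0)]⟩⟩,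
  ⟨false,0,⟨0,[]⟩,⟨3,[(18,0),(0,0),(18,1)]⟩⟩,⟨false,1,⟨7,[(15,3),(0,3),(1,0),(0,4),(0,3),(17,1)]⟩,
  ⟨0,[(1,0),(3,0),(15,0)]⟩⟩,⟨true,0,⟨0,[(35,0)]⟩,⟨0,[(36,0)]⟩⟩,⟨false,1,⟨1,[(8,0),(6,1),(0,0),(2,0),
  (0,0),(17,0)]⟩,⟨0,[(1,0),(3,0),(15,0),(14,0)]⟩⟩,[.o ⟨false,0,⟨0,[(35,0)]⟩,⟨3,[(5,3),(12,0),(0,0),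
  (18,1)]⟩⟩,.o ⟨false,1,⟨3,[(18,0),(0,0),(15,3),(2,1)]⟩,⟨0,[(5,0)]⟩⟩,.a ⟨true,0,⟨0,[(21,0)]⟩,⟨1,
  [(20,0),(8,0),(0,0)]⟩⟩ ⟨false,0,⟨0,[(1,0),(38,0)]⟩,⟨1,[(19,0),(18,0)]⟩⟩ ⟨true,0,⟨1,[(16,0),(3,0),
  (4,0),(9,0)]⟩,⟨0,[(5,0),(15,0)]⟩⟩,.o ⟨false,0,⟨0,[(10,0),(10,0)]⟩,⟨7,[(18,0),(0,0),(0,3),(10,1),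
  (5,3)]⟩⟩]⟩) (.R ⟨0,false,false,true,[1,0,0,-1],[0,1],[0,1,0,0,0,0,0,0,-1],(⟨1,[(20,0),(8,0),(0,
  0)]⟩,⟨0,[(21,0)]⟩),(⟨0,[(33,0)]⟩,⟨0,[(32,0)]⟩),⟨0,[(0,0)]⟩,.k,.k,(.r 0 ⟨0,[(1,0),(32,0),(1,1)]⟩
  ⟨0,[(3,0),(15,0)]⟩),(.r 0 ⟨0,[(1,0),(32,0),(1,1)]⟩ ⟨0,[(3,0),(15,0)]⟩),.k,.k,⟨true,0,⟨0,[(1,0),
  (32,0),(1,1)]⟩,⟨0,[(6,0),(0,0),(28,0)]⟩⟩,⟨false,1,⟨1,[(20,0),(8,0),(0,0),(6,1)]⟩,⟨0,[(10,0),(10,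
  0)]⟩⟩,⟨true,0,⟨0,[(40,0)]⟩,⟨0,[]⟩⟩,⟨false,1,⟨7,[(15,3),(0,3),(1,0),(0,4),(0,3),(17,1)]⟩,⟨0,[(1,0),
  (3,0),(15,0)]⟩⟩,⟨false,0,⟨0,[]⟩,⟨0,[]⟩⟩,⟨false,0,⟨0,[]⟩,⟨0,[]⟩⟩,[.o ⟨false,0,⟨0,[(35,0)]⟩,⟨3,[(5,
  3),(12,0),(0,0),(18,1)]⟩⟩,.o ⟨false,1,⟨3,[(18,0),(0,0),(15,3),(2,1)]⟩,⟨0,[(5,0)]⟩⟩,.a ⟨true,0,⟨0,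
  [(21,0)]⟩,⟨1,[(20,0),(8,0),(0,0)]⟩⟩ ⟨false,0,⟨0,[(1,0),(38,0)]⟩,⟨1,[(19,0),(18,0)]⟩⟩ ⟨true,0,⟨1,
  [(16,0),(3,0),(4,0),(9,0)]⟩,⟨0,[(5,0),(15,0)]⟩⟩,.o ⟨false,0,⟨0,[(10,0),(10,0)]⟩,⟨7,[(18,0),(0,0),
  (0,3),(10,1),(5,3)]⟩⟩]⟩)))))))

theorem ok28 : chk (cU (-1) false 3) t28 l21 = true := by decide +kernel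

noncomputable def t30 : Tre :=
  (.I [1,-1,0,0,0,0,0,2] (.I [1,1,0,1,0,0,0,0,1] (.I [0,1,1,0,0,0,0,-2] (.Q [0,-1,0,-1,0,0,1,1,0,1,
  -1] (.p false [0,0,1] [1] (⟨0,[(28,0)]⟩,⟨0,[(27,0)]⟩) .k 1 (⟨0,[]⟩,⟨0,[]⟩) .k .k) (.R ⟨1,false,
  false,false,[1,0,-1],[0,-1,1],[0,1,0,-1,0,0,0,-1],(⟨0,[(28,0)]⟩,⟨0,[(29,0)]⟩),(⟨0,[(4,0)]⟩,⟨0,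
  [(28,0),(3,0)]⟩),⟨0,[(13,0)]⟩,.k,.k,.k,(.r (-1) ⟨0,[(1,0),(32,0),(2,0)]⟩ ⟨0,[(5,0),(21,0)]⟩),.k,
  .k,⟨true,0,⟨0,[(1,0)]⟩,⟨0,[(3,0)]⟩⟩,⟨false,0,⟨0,[(0,0),(7,1),(5,0)]⟩,⟨1,[(5,1),(8,1),(7,1),(13,0),
  (0,0)]⟩⟩,⟨false,0,⟨0,[(35,0)]⟩,⟨0,[(34,0),(2,0)]⟩⟩,⟨false,0,⟨0,[(0,0),(9,0)]⟩,⟨0,[(14,0),(6,0),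
  (15,0)]⟩⟩,⟨true,0,⟨0,[(39,0)]⟩,⟨0,[]⟩⟩,⟨false,0,⟨0,[(0,0),(6,0)]⟩,⟨0,[(21,0),(2,0),(12,0)]⟩⟩,[.o
  ⟨false,0,⟨0,[(11,0)]⟩,⟨1,[(14,1),(15,0),(6,0)]⟩⟩,.a ⟨true,0,⟨0,[(0,0)]⟩,⟨0,[(14,0)]⟩⟩ ⟨false,1,⟨7,
  [(1,1),(10,3),(4,0),(0,0),(17,0),(0,0)]⟩,⟨1,[(3,0),(3,0),(6,0)]⟩⟩ ⟨true,0,⟨0,[(0,0),(7,0)]⟩,⟨0,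
  [(14,0),(7,0)]⟩⟩,.o ⟨false,1,⟨3,[(17,0),(0,0),(3,3),(13,1)]⟩,⟨0,[(8,0)]⟩⟩,.o ⟨false,0,⟨0,[(22,
  0)]⟩,⟨3,[(8,3),(8,0),(0,0),(17,1)]⟩⟩]⟩) (.Q [0,0,0,0,0,0,1,1,1,1,-1,-1] (.p false [0,0,1] [1,0,0,
  -1] (⟨0,[(29,0)]⟩,⟨0,[(28,0)]⟩) .k 2 (⟨1,[(19,0),(8,0),(0,0)]⟩,⟨0,[(20,0)]⟩) .k (.x 0 ⟨0,[(8,0),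
  (20,0)]⟩ ⟨3,[(17,0),(0,0),(3,3),(5,3),(7,1)]⟩)) (.Q [0,1,0,-1,0,0,-1,-1,-1,-1,1,1] (.p true [0,0,
  1] [1,0,0,-1] (⟨0,[(30,0)]⟩,⟨0,[(29,0)]⟩) .k 2 (⟨1,[(20,0),(8,0),(0,0)]⟩,⟨0,[(21,0)]⟩) .k (.x 0
  ⟨0,[(9,0),(20,0)]⟩ ⟨3,[(18,0),(0,0),(3,3),(5,3),(7,1)]⟩)) (.Q [0,0,0,1,0,0,1,1,1,1,-1,-1] (.p
  false [0,0,1] [1,0,0,-1] (⟨0,[(31,0)]⟩,⟨0,[(30,0)]⟩) .k 2 (⟨1,[(21,0),(8,0),(0,0)]⟩,⟨0,[(22,0)]⟩)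
  .k (.x 0 ⟨0,[(10,0),(20,0)]⟩ ⟨3,[(19,0),(0,0),(3,3),(5,3),(7,1)]⟩)) (.I [0,0,-1,-1,0,0,0,0,-2]
  (.I [0,0,-1,-1,0,0,0,0,-1] (.R ⟨1,false,false,false,[1,0,0,-1],[0,0,1],[0,1,0,-1,0,0,0,0,-1],(⟨1,
  [(24,0),(8,0),(0,0)]⟩,⟨0,[(25,0)]⟩),(⟨0,[(34,0)]⟩,⟨0,[(33,0)]⟩),⟨1,[(9,0),(8,0),(5,0)]⟩,.k,.k,(.r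
  0 ⟨0,[(0,0)]⟩ ⟨11,[(6,3),(4,7),(10,2),(0,4),(15,3),(2,3)]⟩),.k,(.r (-1) ⟨19,[(1,3),(4,5),(10,7),
  (4,5),(18,2),(0,2)]⟩ ⟨0,[(2,0),(22,0),(1,0)]⟩),.k,⟨false,0,⟨2,[(0,2),(5,1),(3,0),(27,0)]⟩,⟨1,[(11,
  1),(29,0),(0,0)]⟩⟩,⟨true,0,⟨1,[(13,1),(10,0),(8,0),(0,0)]⟩,⟨0,[(25,0),(1,0)]⟩⟩,⟨false,0,⟨0,[(40,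
  0)]⟩,⟨0,[(39,0),(2,0)]⟩⟩,⟨true,0,⟨0,[(4,0)]⟩,⟨2,[(1,0),(1,0),(1,0),(8,0),(4,0),(5,1)]⟩⟩,⟨true,0,
  ⟨0,[(44,0)]⟩,⟨0,[]⟩⟩,⟨true,0,⟨0,[(2,0)]⟩,⟨0,[(3,0)]⟩⟩,[.o ⟨false,0,⟨0,[(15,0)]⟩,⟨1,[(29,1),(5,0),
  (6,0)]⟩⟩,.o ⟨false,1,⟨7,[(21,3),(0,0),(0,0),(11,1),(6,3)]⟩,⟨0,[(26,0)]⟩⟩,.a ⟨true,0,⟨0,[(25,0)]⟩,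
  ⟨1,[(24,0),(8,0),(0,0)]⟩⟩ ⟨false,0,⟨3,[(1,1),(28,0),(0,0),(8,1)]⟩,⟨0,[(7,0),(34,0)]⟩⟩ ⟨true,0,⟨1,
  [(21,0),(2,0)]⟩,⟨0,[(25,0),(0,0)]⟩⟩,.o ⟨false,0,⟨0,[(14,0),(10,0)]⟩,⟨7,[(22,0),(0,0),(0,3),(10,1),
  (5,3)]⟩⟩]⟩) (.Q [0,0,0,0,0,-1,0,0,0,0,0,1] (.p true [0,0,0,1] [] (⟨0,[(25,0)]⟩,⟨1,[(24,0),(8,0),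
  (0,0)]⟩) .k 0 (⟨0,[]⟩,⟨0,[]⟩) .k .k) (.I [0,-1,-1,-1,1,0,0,-1,-1] (.R ⟨1,false,false,true,[1,0,0,
  -1],[0,0,1],[0,0,0,-1,0,0,0,0,-1],(⟨1,[(26,0),(8,0),(0,0)]⟩,⟨0,[(27,0)]⟩),(⟨0,[(36,0)]⟩,⟨0,[(35,
  0)]⟩),⟨1,[(11,0),(8,0),(5,0)]⟩,.k,.k,(.x 0 ⟨1,[(11,0),(8,0),(8,0),(2,0)]⟩ ⟨3,[(24,0),(0,0),(13,3),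
  (3,1)]⟩),.k,(.r (-1) ⟨34,[(0,8),(2,0),(4,5),(10,13),(4,11),(15,2)]⟩ ⟨0,[(1,1),(0,0),(4,0),(2,0),
  (4,0),(10,0),(12,1),(2,0)]⟩),.k,⟨false,1,⟨0,[(0,0)]⟩,⟨0,[(9,0),(24,0)]⟩⟩,⟨true,0,⟨1,[(15,1),(10,
  0),(8,0),(0,0)]⟩,⟨0,[(27,0),(1,0)]⟩⟩,⟨true,0,⟨0,[(42,0)]⟩,⟨0,[(41,0)]⟩⟩,⟨false,0,⟨0,[(6,0)]⟩,⟨17,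
  [(3,5),(1,3),(1,9),(0,1),(15,0),(2,13),(1,3),(14,16)]⟩⟩,⟨false,1,⟨3,[(24,0),(0,0),(18,1)]⟩,⟨0,
  []⟩⟩,⟨false,0,⟨0,[(4,0)]⟩,⟨0,[(5,0),(38,0)]⟩⟩,[.o ⟨false,0,⟨0,[(30,0)]⟩,⟨0,[(28,0),(15,0)]⟩⟩,.o
  ⟨false,0,⟨0,[(17,0)]⟩,⟨1,[(31,1),(5,0),(6,0)]⟩⟩,.a ⟨true,0,⟨0,[(27,0)]⟩,⟨1,[(26,0),(8,0),(0,0)]⟩⟩
  ⟨true,0,⟨3,[(3,1),(28,0),(0,0),(8,1)]⟩,⟨0,[(9,0)]⟩⟩ ⟨false,0,⟨1,[(23,0),(2,0)]⟩,⟨0,[(27,0),(0,0),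
  (15,0)]⟩⟩,.o ⟨false,0,⟨0,[(16,0),(10,0)]⟩,⟨7,[(24,0),(0,0),(0,3),(10,1),(5,3)]⟩⟩]⟩) (.R ⟨1,false,
  false,false,[1,0,0,-1],[0,0,0,1],[0,0,0,-1,0,0,0,0,-1],(⟨1,[(26,0),(8,0),(0,0)]⟩,⟨0,[(27,0)]⟩),
  (⟨0,[(27,0)]⟩,⟨1,[(26,0),(8,0),(0,0)]⟩),⟨1,[(11,0),(8,0),(5,0)]⟩,.k,.k,(.x 0 ⟨1,[(11,0),(8,0),(8,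
  0),(2,0)]⟩ ⟨3,[(24,0),(0,0),(13,3),(3,1)]⟩),.k,(.x 0 ⟨1,[(11,0),(8,0),(8,0),(2,0)]⟩ ⟨3,[(24,0),(0,
  0),(13,3),(3,1)]⟩),.k,⟨false,0,⟨0,[(3,0)]⟩,⟨1,[(9,1),(15,0),(18,0)]⟩⟩,⟨true,0,⟨0,[(26,0)]⟩,⟨0,
  [(16,0),(10,1)]⟩⟩,⟨true,0,⟨0,[(42,0)]⟩,⟨0,[(41,0)]⟩⟩,⟨false,1,⟨0,[(0,0),(1,0),(16,0),(6,0),(17,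
  0)]⟩,⟨5,[(0,3),(2,7),(3,2),(0,0),(5,0),(0,1),(0,2),(10,11),(16,3)]⟩⟩,⟨false,1,⟨3,[(24,0),(0,0),
  (18,1)]⟩,⟨0,[]⟩⟩,⟨false,1,⟨0,[(0,1),(14,0),(3,0),(1,0),(4,0),(17,1)]⟩,⟨0,[(3,0),(12,0),(10,1)]⟩⟩,
  [.o ⟨false,1,⟨7,[(24,0),(0,4),(0,3),(10,1)]⟩,⟨0,[(0,0),(2,0),(11,0),(11,0),(0,0),(15,0)]⟩⟩,.o
  ⟨false,1,⟨5,[(0,1),(5,1),(0,1),(8,1),(2,1),(5,0),(0,1),(17,4)]⟩,⟨0,[(5,0),(8,0)]⟩⟩,.a ⟨true,0,⟨0,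
  [(27,0)]⟩,⟨1,[(26,0),(8,0),(0,0)]⟩⟩ ⟨true,0,⟨3,[(3,1),(28,0),(0,0),(8,1)]⟩,⟨0,[(9,0)]⟩⟩ ⟨false,1,
  ⟨1,[(25,0),(0,1),(17,0)]⟩,⟨0,[(0,0),(2,0),(11,0),(11,1),(0,0),(15,0)]⟩⟩,.o ⟨false,0,⟨0,[(16,0),
  (10,0)]⟩,⟨7,[(24,0),(0,0),(0,3),(10,1),(5,3)]⟩⟩]⟩)) (.R ⟨0,false,false,true,[0,0,0,1],[1,-1,-1],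
  [1,1],(⟨0,[(26,0)]⟩,⟨1,[(25,0),(8,0),(0,0)]⟩),(⟨0,[(19,0)]⟩,⟨0,[(35,0),(2,0)]⟩),⟨0,[(0,0)]⟩,.k,.k,
  (.r (-1) ⟨11,[(11,3),(6,3),(4,0),(0,6)]⟩ ⟨0,[(1,2),(0,1)]⟩),(.r 0 ⟨0,[(1,0),(4,0),(2,0),(0,0),(3,
  0),(4,0),(18,1),(2,0)]⟩ ⟨19,[(2,3),(4,5),(10,7),(4,5),(18,2),(0,2)]⟩),.k,.k,⟨false,0,⟨1,[(9,0),(3,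
  0),(6,0)]⟩,⟨7,[(7,1),(10,3),(4,0),(0,0),(17,0),(0,0)]⟩⟩,⟨true,0,⟨0,[(26,0),(1,0)]⟩,⟨1,[(14,1),(10,
  0),(8,0),(0,0)]⟩⟩,⟨false,0,⟨0,[(1,0),(0,0)]⟩,⟨1,[(24,0),(18,0)]⟩⟩,⟨true,0,⟨0,[(4,0)]⟩,⟨0,[(3,
  0)]⟩⟩,⟨false,0,⟨0,[]⟩,⟨0,[]⟩⟩,⟨false,0,⟨0,[]⟩,⟨0,[]⟩⟩,[.o ⟨false,0,⟨0,[(27,0),(13,0)]⟩,⟨3,[(13,3),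
  (9,0),(0,0),(18,1)]⟩⟩,.o ⟨false,1,⟨23,[(7,3),(10,11),(4,2),(0,2),(3,19),(1,3),(5,1),(6,3)]⟩,⟨0,
  [(13,0)]⟩⟩,.a ⟨true,0,⟨1,[(25,0),(8,0),(0,0)]⟩,⟨0,[(26,0)]⟩⟩ ⟨false,0,⟨0,[]⟩,⟨3,[(23,0),(0,0),(18,
  1)]⟩⟩ ⟨true,0,⟨0,[(26,0),(0,0),(13,0)]⟩,⟨1,[(13,0),(7,0),(3,0)]⟩⟩,.o ⟨false,0,⟨1,[(25,0),(2,0),(2,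
  0)]⟩,⟨1,[(26,1),(9,0),(5,0)]⟩⟩]⟩))) (.Q [0,1,0,0,0,0,-1,-1,-1,-1,1,1] (.p true [0,0,1] [1,0,0,-1]
  (⟨0,[(33,0)]⟩,⟨0,[(32,0)]⟩) .k 2 (⟨1,[(23,0),(8,0),(0,0)]⟩,⟨0,[(24,0)]⟩) .k (.r 0 ⟨2,[(0,0),(8,1),
  (0,0)]⟩ ⟨3,[(5,1),(15,1),(18,0),(0,0)]⟩)) (.I [0,0,0,-1,0,0,0,0,-1] (.I [0,-1,-1,-1,1,0,0,-1,-1]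
  (.R ⟨1,false,false,true,[1,0,0,-1],[0,0,1],[0,0,0,-1,0,0,0,0,-1],(⟨1,[(26,0),(8,0),(0,0)]⟩,⟨0,
  [(27,0)]⟩),(⟨0,[(36,0)]⟩,⟨0,[(35,0)]⟩),⟨1,[(11,0),(8,0),(5,0)]⟩,.k,.k,(.x 0 ⟨1,[(11,0),(8,0),(8,
  0),(2,0)]⟩ ⟨3,[(24,0),(0,0),(13,3),(3,1)]⟩),.k,(.r (-1) ⟨17,[(0,4),(0,0),(6,2),(10,6),(4,5),(15,
  1)]⟩ ⟨1,[(3,0),(3,1),(2,1),(0,2),(3,2),(4,2),(8,0),(9,5),(2,0)]⟩),.k,⟨false,1,⟨0,[(0,0)]⟩,⟨0,[(9,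
  0),(24,0)]⟩⟩,⟨true,0,⟨1,[(15,1),(10,0),(8,0),(0,0)]⟩,⟨0,[(27,0),(1,0)]⟩⟩,⟨true,0,⟨0,[(42,0)]⟩,⟨0,
  [(41,0)]⟩⟩,⟨false,0,⟨0,[(6,0)]⟩,⟨0,[(2,0),(41,0)]⟩⟩,⟨false,1,⟨3,[(24,0),(0,0),(18,1)]⟩,⟨0,[]⟩⟩,
  ⟨false,0,⟨0,[(4,0)]⟩,⟨0,[(5,0),(38,0)]⟩⟩,[.o ⟨false,0,⟨0,[(30,0)]⟩,⟨0,[(28,0),(15,0)]⟩⟩,.o ⟨false,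
  0,⟨0,[(17,0)]⟩,⟨1,[(31,1),(5,0),(6,0)]⟩⟩,.a ⟨true,0,⟨0,[(27,0)]⟩,⟨1,[(26,0),(8,0),(0,0)]⟩⟩ ⟨true,
  0,⟨0,[(1,0)]⟩,⟨0,[(9,0)]⟩⟩ ⟨false,0,⟨1,[(23,0),(2,0)]⟩,⟨0,[(27,0),(0,0),(15,0)]⟩⟩,.o ⟨false,0,⟨0,
  [(16,0),(10,0)]⟩,⟨7,[(24,0),(0,0),(0,3),(10,1),(5,3)]⟩⟩]⟩) (.I [0,-1,-1,-2,1,0,0,-1,-1] (.R ⟨1,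
  false,false,true,[1,0,0,-1],[0,1,1],[0,0,0,-1,0,0,0,0,-1],(⟨1,[(27,0),(8,0),(0,0)]⟩,⟨0,[(28,0)]⟩),
  (⟨0,[(37,0),(2,0)]⟩,⟨0,[(21,0)]⟩),⟨1,[(12,0),(8,0),(5,0)]⟩,.k,.k,(.r (-1) ⟨11,[(13,3),(6,3),(4,6),
  (0,0)]⟩ ⟨2,[(1,0),(2,0),(17,0),(10,0),(11,0)]⟩),(.r (-1) ⟨9,[(0,3),(8,1),(10,1),(4,2),(15,1),(2,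
  0)]⟩ ⟨0,[(1,1),(0,0),(5,1),(3,1),(0,0),(2,1),(4,1),(18,3),(2,0),(1,1)]⟩),(.r (-1) ⟨1,[(0,0),(1,0),
  (17,0),(20,0)]⟩ ⟨3,[(1,1),(12,1),(2,1),(4,1),(0,1),(9,0),(0,0),(10,1)]⟩),.k,⟨true,1,⟨0,[(0,0)]⟩,
  ⟨0,[(1,1),(0,0),(13,0),(5,0),(22,0)]⟩⟩,⟨false,1,⟨0,[(0,0),(4,0),(35,0)]⟩,⟨0,[(28,0),(1,0)]⟩⟩,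
  ⟨true,0,⟨0,[(43,0)]⟩,⟨0,[(42,0)]⟩⟩,⟨false,0,⟨0,[(5,0)]⟩,⟨0,[(6,0),(38,0)]⟩⟩,⟨false,1,⟨3,[(25,0),
  (0,0),(18,1)]⟩,⟨0,[]⟩⟩,⟨false,0,⟨1,[(1,1),(14,1),(10,0),(8,0),(0,0),(3,1),(3,1)]⟩,⟨0,[(0,0),(27,
  0),(1,0)]⟩⟩,[.o ⟨false,0,⟨1,[(15,0),(15,0),(10,0)]⟩,⟨0,[(29,0),(13,0),(1,0)]⟩⟩,.o ⟨false,0,⟨0,
  [(15,0)]⟩,⟨3,[(0,1),(25,0),(3,1),(1,1),(5,0)]⟩⟩,.a ⟨true,0,⟨0,[(28,0)]⟩,⟨1,[(27,0),(8,0),(0,0)]⟩⟩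
  ⟨true,0,⟨0,[(2,0)]⟩,⟨0,[(10,0)]⟩⟩ ⟨false,0,⟨1,[(15,0),(7,0),(3,0)]⟩,⟨0,[(28,0),(0,0),(13,0),(1,
  0)]⟩⟩,.o ⟨false,0,⟨0,[(17,0),(10,0)]⟩,⟨7,[(25,0),(0,0),(0,3),(10,1),(5,3)]⟩⟩]⟩) (.Q [0,1,0,0,0,0,
  -1,-1,1,0,1,-1] (.p true [0,0,1] [0,0,0,1] (⟨0,[(37,0)]⟩,⟨0,[(36,0)]⟩) .k 2 (⟨0,[(28,0)]⟩,⟨1,[(27,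
  0),(8,0),(0,0)]⟩) .k (.r 0 ⟨3,[(2,1),(0,1),(7,1),(3,0),(7,0),(3,0)]⟩ ⟨3,[(9,1),(16,1),(17,0),(0,
  0)]⟩)) (.R ⟨1,false,false,false,[1,0,0,-1],[1,-1,-1],[0,0,0,-1,0,0,0,0,-1],(⟨1,[(28,0),(8,0),(0,
  0)]⟩,⟨0,[(29,0)]⟩),(⟨0,[(22,0)]⟩,⟨0,[(38,0),(2,0)]⟩),⟨1,[(13,0),(8,0),(5,0)]⟩,.k,.k,(.r (-1) ⟨11,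
  [(14,3),(6,3),(4,6),(0,0)]⟩ ⟨3,[(1,0),(3,0),(4,0),(4,0),(30,0)]⟩),(.r 0 ⟨1,[(1,1),(1,1),(22,0),
  (19,0)]⟩ ⟨11,[(5,3),(4,1),(10,7),(5,1),(17,0),(0,0)]⟩),.k,.k,⟨false,0,⟨3,[(3,1),(0,1),(7,1),(3,0),
  (7,0),(3,0)]⟩,⟨7,[(5,3),(4,1),(10,3),(20,3),(2,0),(0,2)]⟩⟩,⟨true,0,⟨1,[(28,0),(2,0),(3,0)]⟩,⟨0,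
  [(17,0),(11,0)]⟩⟩,⟨true,0,⟨0,[(44,0)]⟩,⟨0,[(43,0)]⟩⟩,⟨false,1,⟨0,[(0,0),(43,0),(1,0)]⟩,⟨0,[(1,0),
  (1,1),(13,0),(11,0),(12,0),(3,0)]⟩⟩,⟨false,1,⟨3,[(26,0),(0,0),(18,1)]⟩,⟨0,[]⟩⟩,⟨false,1,⟨0,[(0,0),
  (45,0)]⟩,⟨0,[(3,0),(12,0),(12,0)]⟩⟩,[.o ⟨false,1,⟨23,[(10,3),(10,11),(4,2),(0,2),(3,19),(1,3),(5,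
  1),(6,3)]⟩,⟨0,[(16,0)]⟩⟩,.o ⟨false,1,⟨0,[(30,0),(13,0),(1,0)]⟩,⟨1,[(16,0),(15,0),(10,0)]⟩⟩,.a
  ⟨true,0,⟨0,[(29,0)]⟩,⟨1,[(28,0),(8,0),(0,0)]⟩⟩ ⟨true,0,⟨0,[(3,0)]⟩,⟨0,[(11,0)]⟩⟩ ⟨false,1,⟨0,[(0,
  0),(2,0),(42,0)]⟩,⟨0,[(16,0),(12,0)]⟩⟩,.o ⟨false,0,⟨0,[(18,0),(10,0)]⟩,⟨7,[(26,0),(0,0),(0,3),(10,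
  1),(5,3)]⟩⟩]⟩) (.R ⟨1,false,false,true,[1,0,0,-1],[1,1,-1],[0,1,0,-1,0,0,0,0,-1],(⟨1,[(28,0),(8,
  0),(0,0)]⟩,⟨0,[(29,0)]⟩),(⟨0,[(37,0),(3,0)]⟩,⟨0,[(13,0)]⟩),⟨1,[(13,0),(8,0),(5,0)]⟩,.k,.k,(.r
  (-1) ⟨11,[(14,3),(6,3),(4,6),(0,0)]⟩ ⟨3,[(1,0),(3,0),(4,0),(4,0),(30,0)]⟩),(.r 0 ⟨1,[(0,0),(3,0),
  (9,1),(13,0)]⟩ ⟨3,[(5,1),(4,1),(15,0),(0,0),(15,1),(2,1)]⟩),(.r (-1) ⟨11,[(14,15),(6,3),(4,6),(0,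
  0)]⟩ ⟨0,[(1,0),(8,0),(35,0)]⟩),.k,⟨true,0,⟨0,[(3,0),(10,0)]⟩,⟨0,[(1,0),(8,0),(35,0)]⟩⟩,⟨false,1,
  ⟨1,[(9,0),(4,1),(8,0),(4,0),(16,0),(0,0)]⟩,⟨0,[(29,0),(4,0)]⟩⟩,⟨false,0,⟨0,[(44,0)]⟩,⟨0,[(43,0),
  (2,0)]⟩⟩,⟨false,1,⟨1,[(9,0),(13,0),(3,0),(0,0),(17,0)]⟩,⟨0,[(0,0),(43,0)]⟩⟩,⟨true,0,⟨0,[(48,0)]⟩,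
  ⟨0,[]⟩⟩,⟨false,1,⟨3,[(6,1),(2,2),(13,2),(3,0),(0,0),(17,2)]⟩,⟨0,[(0,0),(43,1)]⟩⟩,[.o ⟨false,0,⟨0,
  [(9,0)]⟩,⟨3,[(20,3),(5,0),(0,0),(18,1)]⟩⟩,.o ⟨false,1,⟨1,[(23,1),(15,0),(6,0)]⟩,⟨0,[(20,0)]⟩⟩,.a
  ⟨true,0,⟨0,[(29,0)]⟩,⟨1,[(28,0),(8,0),(0,0)]⟩⟩ ⟨false,0,⟨0,[(3,0)]⟩,⟨0,[(11,0),(34,0)]⟩⟩ ⟨true,0,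
  ⟨1,[(9,0),(13,0),(4,0)]⟩,⟨0,[(20,0),(8,0)]⟩⟩,.o ⟨false,0,⟨0,[(18,0),(10,0)]⟩,⟨7,[(26,0),(0,0),(0,
  3),(10,1),(5,3)]⟩⟩]⟩)))) (.R ⟨1,false,false,false,[1,0,0,-1],[0,0,1],[0,0,0,-1,0,0,0,0,-1],(⟨1,
  [(25,0),(8,0),(0,0)]⟩,⟨0,[(26,0)]⟩),(⟨0,[(35,0)]⟩,⟨0,[(34,0)]⟩),⟨1,[(10,0),(8,0),(5,0)]⟩,.k,.k,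
  (.r (-1) ⟨11,[(11,3),(6,3),(4,6),(0,0)]⟩ ⟨1,[(0,1),(30,0),(0,0)]⟩),.k,(.r (-1) ⟨3,[(1,1),(12,1),
  (3,1),(4,0),(1,0),(8,0),(0,0),(7,0)]⟩ ⟨0,[(0,0),(5,0),(2,0),(0,1),(3,1),(4,1),(8,0),(9,3),(2,
  0)]⟩),.k,⟨false,1,⟨3,[(1,1),(12,1),(3,1),(4,0),(1,0),(8,0),(0,0),(7,0)]⟩,⟨1,[(0,0),(7,0),(0,0)]⟩⟩,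
  ⟨true,0,⟨1,[(14,1),(10,0),(8,0),(0,0)]⟩,⟨0,[(26,0),(1,0)]⟩⟩,⟨true,0,⟨0,[(41,0)]⟩,⟨0,[(40,0)]⟩⟩,
  ⟨true,0,⟨0,[(5,0)]⟩,⟨0,[(1,0)]⟩⟩,⟨false,1,⟨3,[(23,0),(0,0),(18,1)]⟩,⟨0,[]⟩⟩,⟨true,0,⟨0,[(3,0)]⟩,
  ⟨0,[(4,0)]⟩⟩,[.o ⟨false,0,⟨0,[(16,0)]⟩,⟨1,[(30,1),(5,0),(6,0)]⟩⟩,.o ⟨false,1,⟨7,[(22,3),(0,0),(0,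
  0),(11,1),(6,3)]⟩,⟨0,[(27,0)]⟩⟩,.a ⟨true,0,⟨0,[(26,0)]⟩,⟨1,[(25,0),(8,0),(0,0)]⟩⟩ ⟨false,1,⟨1,
  [(23,0),(17,1),(1,0)]⟩,⟨0,[(0,0)]⟩⟩ ⟨true,0,⟨1,[(22,0),(2,0)]⟩,⟨0,[(0,0),(3,0)]⟩⟩,.o ⟨false,0,⟨0,
  [(15,0),(10,0)]⟩,⟨7,[(23,0),(0,0),(0,3),(10,1),(5,3)]⟩⟩]⟩)) (.R ⟨1,true,false,false,[1,0,-1],[0,0,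
  0,1],[0,0,0,-1,0,0,0,-1],(⟨0,[(33,0)]⟩,⟨0,[(34,0)]⟩),(⟨0,[(25,0)]⟩,⟨1,[(24,0),(8,0),(0,0)]⟩),⟨0,
  [(18,0)]⟩,.k,.k,.k,.k,(.r (-1) ⟨5,[(3,3),(9,3),(3,1),(4,0),(1,1),(8,1),(0,1),(3,1),(3,2)]⟩ ⟨0,[(0,
  0),(4,1),(2,0),(0,1),(3,1),(4,1),(6,0),(1,0),(9,3),(2,0)]⟩),.k,⟨false,1,⟨5,[(3,3),(9,3),(3,1),(4,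
  0),(1,1),(8,1),(0,1),(3,1),(3,2)]⟩,⟨1,[(1,0),(6,0),(29,0)]⟩⟩,⟨true,0,⟨1,[(13,1),(10,0),(8,0),(0,
  0)]⟩,⟨0,[(25,0),(1,0)]⟩⟩,⟨true,0,⟨0,[(40,0)]⟩,⟨0,[(39,0)]⟩⟩,⟨false,0,⟨0,[(0,0)]⟩,⟨3,[(3,1),(15,1),
  (2,0),(2,1),(9,0),(6,1)]⟩⟩,⟨false,1,⟨3,[(22,0),(0,0),(18,1)]⟩,⟨0,[]⟩⟩,⟨true,0,⟨0,[(2,0)]⟩,⟨0,[(3,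
  0)]⟩⟩,[]⟩))) (.R ⟨1,true,false,false,[1,0,-1],[0,0,0,1],[1,1,0,0,0,0,0,-1],(⟨0,[(31,0)]⟩,⟨0,[(32,
  0)]⟩),(⟨0,[(23,0)]⟩,⟨1,[(22,0),(8,0),(0,0)]⟩),⟨0,[(16,0)]⟩,.k,.k,.k,.k,(.x 0 ⟨0,[(16,0),(8,0)]⟩
  ⟨3,[(11,3),(8,0),(0,0),(10,3),(2,3),(3,1)]⟩),.k,⟨false,0,⟨1,[(0,1),(10,1),(10,0),(8,0),(0,0),(3,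
  1)]⟩,⟨7,[(6,3),(13,0),(0,4),(18,1)]⟩⟩,⟨true,0,⟨1,[(11,1),(10,0),(8,0),(0,0)]⟩,⟨0,[(23,0),(1,0)]⟩⟩,
  ⟨false,0,⟨0,[]⟩,⟨3,[(20,0),(0,0),(18,1)]⟩⟩,⟨true,0,⟨0,[(2,0)]⟩,⟨0,[(0,0),(36,0)]⟩⟩,⟨true,0,⟨0,
  [(37,0)]⟩,⟨0,[(38,0)]⟩⟩,⟨false,1,⟨1,[(10,0),(7,0),(2,0),(0,0),(17,0)]⟩,⟨0,[(0,0)]⟩⟩,[]⟩)) (.I [0,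
  0,-1,-1,1,0,0,-1,-1] (.R ⟨1,false,false,false,[1,0,0,-1],[0,0,1],[0,0,0,-1,0,0,0,0,-1],(⟨1,[(22,
  0),(8,0),(0,0)]⟩,⟨0,[(23,0)]⟩),(⟨0,[(32,0)]⟩,⟨0,[(31,0)]⟩),⟨1,[(7,0),(8,0),(5,0)]⟩,.k,.k,(.r (-1)
  ⟨11,[(8,3),(6,3),(4,6),(0,0)]⟩ ⟨2,[(1,1),(2,0),(0,0),(17,1),(1,1)]⟩),.k,(.r (-1) ⟨0,[(0,0)]⟩ ⟨0,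
  [(1,0),(1,1),(2,0),(0,1),(3,1),(4,1),(6,0),(1,0),(9,3),(2,1)]⟩),.k,⟨false,1,⟨0,[(0,0)]⟩,⟨3,[(1,1),
  (1,0),(1,1),(0,0),(1,0),(14,1),(1,0)]⟩⟩,⟨true,0,⟨1,[(11,1),(10,0),(8,0),(0,0)]⟩,⟨0,[(23,0),(1,
  0)]⟩⟩,⟨true,0,⟨0,[(38,0)]⟩,⟨0,[(37,0)]⟩⟩,⟨false,0,⟨0,[(1,0),(36,0)]⟩,⟨3,[(0,1),(2,1),(16,0),(2,3),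
  (1,1),(14,0)]⟩⟩,⟨false,1,⟨3,[(20,0),(0,0),(18,1)]⟩,⟨0,[]⟩⟩,⟨false,0,⟨0,[(1,0)]⟩,⟨0,[(0,0),(22,0),
  (1,0)]⟩⟩,[.o ⟨false,0,⟨0,[(13,0)]⟩,⟨1,[(27,1),(5,0),(6,0)]⟩⟩,.o ⟨false,1,⟨7,[(19,3),(0,0),(0,0),
  (11,1),(6,3)]⟩,⟨0,[(24,0)]⟩⟩,.a ⟨true,0,⟨0,[(23,0)]⟩,⟨1,[(22,0),(8,0),(0,0)]⟩⟩ ⟨false,1,⟨1,[(20,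
  0),(17,1),(1,0)]⟩,⟨0,[(1,0),(21,0),(0,0)]⟩⟩ ⟨true,0,⟨1,[(19,0),(2,0)]⟩,⟨0,[(23,0),(0,0)]⟩⟩,.o
  ⟨false,0,⟨0,[(12,0),(10,0)]⟩,⟨7,[(20,0),(0,0),(0,3),(10,1),(5,3)]⟩⟩]⟩) (.Q [0,0,0,0,0,0,-1,-1,1,0,
  1,-1] (.p true [0,0,1] [0,0,0,1] (⟨0,[(32,0)]⟩,⟨0,[(31,0)]⟩) .k 2 (⟨0,[(23,0)]⟩,⟨1,[(22,0),(8,0),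
  (0,0)]⟩) .k (.x 0 ⟨0,[(11,0),(20,0)]⟩ ⟨3,[(20,0),(0,0),(3,3),(5,3),(7,1)]⟩)) (.R ⟨1,false,false,
  true,[1,0,0,-1],[1,-1,-1],[1,0,0,0,0,0,0,0,-1],(⟨1,[(23,0),(8,0),(0,0)]⟩,⟨0,[(24,0)]⟩),(⟨0,[(17,
  0)]⟩,⟨0,[(33,0),(2,0)]⟩),⟨1,[(8,0),(8,0),(5,0)]⟩,.k,.k,(.r (-1) ⟨11,[(9,3),(6,3),(4,6),(0,0)]⟩ ⟨2,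
  [(1,0),(3,0),(0,0),(3,0),(30,0)]⟩),(.r 0 ⟨0,[(1,0),(19,0)]⟩ ⟨15,[(0,2),(1,0),(1,0),(0,1),(6,2),(3,
  8),(5,5),(1,3),(16,0)]⟩),.k,.k,⟨false,1,⟨1,[(7,0),(3,0),(6,0),(2,0),(19,0)]⟩,⟨2,[(1,2),(3,1),(3,
  0),(6,2),(20,0)]⟩⟩,⟨true,0,⟨1,[(23,0),(2,0),(3,0)]⟩,⟨0,[(12,0),(11,0)]⟩⟩,⟨true,0,⟨0,[]⟩,⟨0,[(43,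
  0)]⟩⟩,⟨false,0,⟨0,[(0,0),(38,0)]⟩,⟨1,[(11,1),(9,0),(2,1),(16,0)]⟩⟩,⟨false,1,⟨0,[(38,0),(2,0)]⟩,⟨0,
  [(39,0)]⟩⟩,⟨false,0,⟨0,[(0,0)]⟩,⟨1,[(14,1),(6,0),(2,1),(16,0)]⟩⟩,[.o ⟨false,0,⟨0,[(25,0),(13,0)]⟩,
  ⟨3,[(11,3),(9,0),(0,0),(18,1)]⟩⟩,.o ⟨false,1,⟨23,[(5,3),(10,11),(4,2),(0,2),(3,19),(1,3),(5,1),(6,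
  3)]⟩,⟨0,[(11,0)]⟩⟩,.a ⟨true,0,⟨0,[(24,0)]⟩,⟨1,[(23,0),(8,0),(0,0)]⟩⟩ ⟨false,1,⟨1,[(21,0),(19,0)]⟩,
  ⟨4,[(0,0),(0,1),(10,0),(3,0),(5,0),(1,0)]⟩⟩ ⟨true,0,⟨1,[(23,0),(1,0),(2,0),(10,1)]⟩,⟨0,[(11,0),
  (12,0)]⟩⟩,.o ⟨false,0,⟨0,[(13,0),(10,0)]⟩,⟨7,[(21,0),(0,0),(0,3),(10,1),(5,3)]⟩⟩]⟩) (.R ⟨1,false,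
  false,true,[1,0,0,-1],[1,1,-1],[1,0,0,0,0,0,0,0,-1],(⟨1,[(23,0),(8,0),(0,0)]⟩,⟨0,[(24,0)]⟩),(⟨0,
  [(32,0),(3,0)]⟩,⟨0,[(8,0)]⟩),⟨1,[(8,0),(8,0),(5,0)]⟩,.k,.k,(.r (-1) ⟨11,[(9,3),(6,3),(4,6),(0,
  0)]⟩ ⟨2,[(1,0),(3,0),(0,0),(3,0),(30,0)]⟩),(.r (-1) ⟨3,[(9,3),(11,2),(0,0)]⟩ ⟨16,[(1,8),(0,5),(1,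
  5),(0,11),(10,1),(5,0),(1,5),(16,5)]⟩),(.r (-1) ⟨11,[(9,15),(6,3),(4,6),(0,0)]⟩ ⟨3,[(1,2),(3,3),
  (4,0),(0,1),(6,1),(22,2)]⟩),.k,⟨true,1,⟨1,[(9,1),(11,0),(19,0)]⟩,⟨0,[(1,0),(3,0)]⟩⟩,⟨false,1,⟨1,
  [(4,0),(4,1),(8,0),(4,0),(16,0),(0,0)]⟩,⟨0,[(24,0),(4,0)]⟩⟩,⟨true,0,⟨0,[]⟩,⟨0,[(43,0)]⟩⟩,⟨true,0,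
  ⟨16,[(1,9),(0,0),(1,8),(0,1),(10,5),(1,8),(3,2),(0,7),(17,0)]⟩,⟨0,[(0,0),(38,0)]⟩⟩,⟨false,1,⟨0,
  [(38,0),(2,0)]⟩,⟨0,[(39,0)]⟩⟩,⟨true,0,⟨33,[(1,9),(0,17),(1,25),(0,1),(10,5),(1,25),(3,2),(0,7),
  (17,0)]⟩,⟨0,[(0,0),(38,1)]⟩⟩,[.o ⟨false,0,⟨0,[(4,0)]⟩,⟨3,[(15,3),(5,0),(0,0),(18,1)]⟩⟩,.o ⟨false,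
  1,⟨1,[(18,1),(15,0),(6,0)]⟩,⟨0,[(15,0)]⟩⟩,.a ⟨true,0,⟨0,[(24,0)]⟩,⟨1,[(23,0),(8,0),(0,0)]⟩⟩
  ⟨false,1,⟨1,[(21,0),(19,0)]⟩,⟨16,[(1,9),(0,0),(1,0),(0,1),(10,5),(5,2),(1,0),(16,0)]⟩⟩ ⟨true,0,⟨1,
  [(4,0),(13,0),(4,0)]⟩,⟨0,[(15,0),(8,0)]⟩⟩,.o ⟨false,0,⟨0,[(13,0),(10,0)]⟩,⟨7,[(21,0),(0,0),(0,3),
  (10,1),(5,3)]⟩⟩]⟩)))) (.K ⟨2,[1,0,0,-1],0,0,(⟨1,[(20,0),(8,0),(0,0)]⟩,⟨0,[(21,0)]⟩),.k,(.r 0 ⟨1,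
  [(0,1),(5,1),(2,1),(10,0),(8,0),(0,0)]⟩ ⟨11,[(2,3),(4,7),(10,2),(0,4),(15,3),(2,3)]⟩),(.r 0 ⟨3,
  [(0,3),(9,1),(5,3),(3,1),(5,0),(0,0)]⟩ ⟨11,[(6,3),(6,3),(4,0),(0,6)]⟩),.k,.k,[⟨0,[(0,0)]⟩,⟨1,[(3,
  1),(16,0),(8,0),(0,0),(5,1)]⟩,⟨1,[(20,0),(5,0),(0,0),(1,0),(0,0)]⟩,⟨0,[(10,0),(10,0)]⟩]⟩))) (.I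
  [0,0,-1,-1,0,0,0,-1,1] (.Q [0,0,0,0,0,0,-1,-1,1,0,1,-1] (.p true [0,0,1] [0,0,0,1] (⟨0,[(29,0)]⟩,
  ⟨0,[(28,0)]⟩) .k 2 (⟨0,[(20,0)]⟩,⟨1,[(19,0),(8,0),(0,0)]⟩) .k (.x 0 ⟨0,[(8,0),(20,0)]⟩ ⟨3,[(17,0),
  (0,0),(3,3),(5,3),(7,1)]⟩)) (.R ⟨1,false,false,true,[1,0,0,-1],[1,-1,-1],[1,0,0,0,0,0,0,0,-1],(⟨1,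
  [(20,0),(8,0),(0,0)]⟩,⟨0,[(21,0)]⟩),(⟨0,[(14,0)]⟩,⟨0,[(30,0),(2,0)]⟩),⟨1,[(5,0),(8,0),(5,0)]⟩,.k,
  .k,(.r (-1) ⟨11,[(6,3),(6,3),(4,6),(0,0)]⟩ ⟨0,[(0,0),(9,0),(5,0),(4,0)]⟩),(.r (-1) ⟨0,[(7,0),(10,
  0)]⟩ ⟨0,[(1,0)]⟩),.k,.k,⟨false,1,⟨1,[(4,0),(3,0),(6,0),(2,0),(19,0)]⟩,⟨0,[(1,0),(38,0)]⟩⟩,⟨true,0,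
  ⟨1,[(20,0),(2,0),(3,0)]⟩,⟨0,[(9,0),(11,0)]⟩⟩,⟨true,0,⟨0,[]⟩,⟨0,[(40,0)]⟩⟩,⟨false,0,⟨0,[(0,0),(35,
  0)]⟩,⟨1,[(8,1),(9,0),(2,1),(16,0)]⟩⟩,⟨false,1,⟨0,[(35,0),(2,0)]⟩,⟨0,[(36,0)]⟩⟩,⟨false,0,⟨0,[(0,
  0)]⟩,⟨1,[(11,1),(6,0),(2,1),(16,0)]⟩⟩,[.o ⟨false,0,⟨0,[(22,0),(13,0)]⟩,⟨3,[(8,3),(9,0),(0,0),(18,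
  1)]⟩⟩,.o ⟨false,1,⟨7,[(10,3),(2,3),(4,0),(0,0),(3,3),(1,3),(12,1)]⟩,⟨0,[(8,0)]⟩⟩,.a ⟨true,0,⟨0,
  [(21,0)]⟩,⟨1,[(20,0),(8,0),(0,0)]⟩⟩ ⟨false,1,⟨1,[(18,0),(19,0)]⟩,⟨1,[(1,0),(5,0)]⟩⟩ ⟨true,0,⟨1,
  [(20,0),(1,0),(2,0),(10,1)]⟩,⟨0,[(8,0),(12,0)]⟩⟩,.o ⟨false,0,⟨0,[(10,0),(10,0)]⟩,⟨7,[(18,0),(0,0),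
  (0,3),(10,1),(5,3)]⟩⟩]⟩) (.R ⟨1,true,false,false,[1,0,-1],[1,0,0,-1],[1,1,0,0,0,0,0,-1],(⟨0,[(29,
  0)]⟩,⟨0,[(30,0)]⟩),(⟨1,[(20,0),(8,0),(0,0)]⟩,⟨0,[(21,0)]⟩),⟨0,[(14,0)]⟩,.k,.k,.k,.k,(.r 0 ⟨0,[(1,
  0)]⟩ ⟨0,[(7,0),(10,0)]⟩),.k,⟨false,0,⟨0,[(1,0),(33,0)]⟩,⟨7,[(4,3),(13,4),(0,0),(18,1)]⟩⟩,⟨true,0,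
  ⟨0,[(9,0),(11,0)]⟩,⟨1,[(20,0),(2,0),(3,0)]⟩⟩,⟨false,0,⟨0,[]⟩,⟨3,[(18,0),(0,0),(18,1)]⟩⟩,⟨true,0,
  ⟨0,[(0,0)]⟩,⟨1,[(1,0),(1,0),(16,0),(2,0),(1,0)]⟩⟩,⟨true,0,⟨0,[(35,0)]⟩,⟨0,[(36,0)]⟩⟩,⟨false,1,⟨0,
  [(0,0),(34,0),(2,0)]⟩,⟨1,[(1,1),(18,0),(2,0),(3,0)]⟩⟩,[]⟩)) (.Q [0,0,0,0,0,0,1,1,1,1,-1,-1] (.p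
  false [0,0,1] [1,0,0,-1] (⟨0,[(29,0)]⟩,⟨0,[(28,0)]⟩) .k 2 (⟨1,[(19,0),(8,0),(0,0)]⟩,⟨0,[(20,0)]⟩)
  .k (.x 0 ⟨0,[(8,0),(20,0)]⟩ ⟨3,[(17,0),(0,0),(3,3),(5,3),(7,1)]⟩)) (.Q [0,-1,0,0,0,0,0,0,-2,-1,0,
  2] (.p true [0,0,0,1] [1,0,0,-1] (⟨0,[(21,0)]⟩,⟨1,[(20,0),(8,0),(0,0)]⟩) .k 2 (⟨1,[(20,0),(8,0),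
  (0,0)]⟩,⟨0,[(21,0)]⟩) .k .k) (.I [0,0,-1,-1,0,0,0,0,-1] (.R ⟨1,false,false,true,[1,0,0,-1],[0,0,0,
  1],[1,1,0,0,0,0,0,0,-1],(⟨1,[(22,0),(8,0),(0,0)]⟩,⟨0,[(23,0)]⟩),(⟨0,[(23,0)]⟩,⟨1,[(22,0),(8,0),(0,
  0)]⟩),⟨1,[(7,0),(8,0),(5,0)]⟩,.k,.k,(.r 0 ⟨0,[(0,0)]⟩ ⟨3,[(3,1),(13,1),(3,2),(6,1),(11,0)]⟩),.k,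
  (.r 0 ⟨4,[(0,6),(0,0),(1,0),(13,0),(4,0),(5,0)]⟩ ⟨3,[(9,1),(7,1),(3,2),(6,1),(11,0)]⟩),.k,⟨false,
  0,⟨2,[(0,1),(0,1),(20,1),(13,0),(0,0)]⟩,⟨0,[(21,0)]⟩⟩,⟨true,0,⟨0,[(22,0)]⟩,⟨0,[(12,0),(10,1)]⟩⟩,
  ⟨false,0,⟨0,[]⟩,⟨3,[(20,0),(0,0),(18,1)]⟩⟩,⟨false,1,⟨0,[(21,0),(0,0)]⟩,⟨0,[(1,0)]⟩⟩,⟨true,0,⟨0,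
  [(37,0)]⟩,⟨0,[(38,0)]⟩⟩,⟨false,1,⟨1,[(5,1),(15,0),(0,1),(17,0)]⟩,⟨0,[(1,0),(36,0)]⟩⟩,[.o ⟨false,0,
  ⟨0,[(2,0),(21,0)]⟩,⟨3,[(1,1),(18,0),(0,0),(11,0),(6,0)]⟩⟩,.o ⟨false,1,⟨7,[(20,0),(0,4),(0,3),(10,
  1)]⟩,⟨7,[(1,3),(6,0),(2,0),(0,1),(11,1),(1,0),(9,0)]⟩⟩,.a ⟨true,0,⟨0,[(23,0)]⟩,⟨1,[(22,0),(8,0),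
  (0,0)]⟩⟩ ⟨false,0,⟨4,[(0,1),(0,0),(1,0),(13,0),(4,0),(5,0)]⟩,⟨1,[(21,0),(18,0)]⟩⟩ ⟨true,0,⟨1,[(2,
  1),(19,0),(1,0),(2,0)]⟩,⟨2,[(1,1),(3,0),(8,0),(8,1),(0,0)]⟩⟩,.o ⟨false,0,⟨0,[(12,0),(10,0)]⟩,⟨7,
  [(20,0),(0,0),(0,3),(10,1),(5,3)]⟩⟩]⟩) (.R ⟨1,false,false,true,[1,0,0,-1],[0,0,0,1],[1,1,0,0,0,0,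
  0,0,-1],(⟨1,[(22,0),(8,0),(0,0)]⟩,⟨0,[(23,0)]⟩),(⟨0,[(23,0)]⟩,⟨1,[(22,0),(8,0),(0,0)]⟩),⟨1,[(7,0),
  (8,0),(5,0)]⟩,.k,.k,(.x 0 ⟨1,[(7,0),(8,0),(8,0),(2,0)]⟩ ⟨3,[(20,0),(0,0),(13,3),(3,1)]⟩),.k,(.r 0
  ⟨0,[(1,0),(6,0),(2,0),(10,0),(4,0)]⟩ ⟨3,[(0,3),(19,0),(0,2)]⟩),.k,⟨false,0,⟨1,[(1,1),(6,0),(2,0),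
  (10,1),(4,0),(8,0)]⟩,⟨0,[(21,0)]⟩⟩,⟨true,0,⟨0,[(22,0)]⟩,⟨0,[(12,0),(10,1)]⟩⟩,⟨false,0,⟨0,[]⟩,⟨3,
  [(20,0),(0,0),(18,1)]⟩⟩,⟨false,1,⟨0,[(21,0),(0,0)]⟩,⟨0,[(1,0)]⟩⟩,⟨true,0,⟨0,[(37,0)]⟩,⟨0,[(38,
  0)]⟩⟩,⟨false,1,⟨1,[(5,1),(15,0),(0,1),(17,0)]⟩,⟨0,[(1,0),(36,0)]⟩⟩,[.o ⟨false,0,⟨0,[(2,0),(21,
  0)]⟩,⟨3,[(1,1),(18,0),(0,0),(11,0),(6,0)]⟩⟩,.o ⟨false,1,⟨7,[(20,0),(0,4),(0,3),(10,1)]⟩,⟨7,[(1,3),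
  (6,0),(2,0),(0,1),(11,1),(1,0),(9,0)]⟩⟩,.a ⟨true,0,⟨0,[(23,0)]⟩,⟨1,[(22,0),(8,0),(0,0)]⟩⟩ ⟨false,
  0,⟨1,[(1,0),(20,0),(19,0)]⟩,⟨1,[(21,0),(18,0)]⟩⟩ ⟨true,0,⟨1,[(2,1),(19,0),(1,0),(2,0)]⟩,⟨2,[(1,1),
  (3,0),(8,0),(8,1),(0,0)]⟩⟩,.o ⟨false,0,⟨0,[(12,0),(10,0)]⟩,⟨7,[(20,0),(0,0),(0,3),(10,1),(5,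
  3)]⟩⟩]⟩)) (.I [1,0,0,1,0,0,0,0,1] (.Q [0,0,0,0,0,0,1,1,-1,0,-1,1] (.p false [0,0,1] [0,0,0,1] (⟨0,
  [(32,0)]⟩,⟨0,[(31,0)]⟩) .k 2 (⟨0,[(23,0)]⟩,⟨1,[(22,0),(8,0),(0,0)]⟩) .k (.x 0 ⟨0,[(11,0),(20,0)]⟩
  ⟨3,[(20,0),(0,0),(3,3),(5,3),(7,1)]⟩)) (.Q [0,0,0,-1,0,0,-1,-1,1,0,1,-1] (.p true [0,0,1] [0,0,0,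
  1] (⟨0,[(33,0)]⟩,⟨0,[(32,0)]⟩) .k 2 (⟨0,[(24,0)]⟩,⟨1,[(23,0),(8,0),(0,0)]⟩) .k (.x 0 ⟨0,[(12,0),
  (20,0)]⟩ ⟨3,[(21,0),(0,0),(3,3),(5,3),(7,1)]⟩)) (.R ⟨1,true,false,false,[1,0,-1],[1,0,0,-1],[1,1,
  0,0,0,0,0,-1],(⟨0,[(33,0)]⟩,⟨0,[(34,0)]⟩),(⟨1,[(24,0),(8,0),(0,0)]⟩,⟨0,[(25,0)]⟩),⟨0,[(18,0)]⟩,.k,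
  .k,.k,.k,(.x 0 ⟨0,[(18,0),(8,0)]⟩ ⟨0,[(30,0),(3,0),(2,0),(3,0)]⟩),.k,⟨false,0,⟨0,[(0,0),(12,0),
  (11,0),(12,0)]⟩,⟨7,[(8,3),(13,4),(0,0),(18,1)]⟩⟩,⟨true,0,⟨0,[(13,0),(11,0)]⟩,⟨1,[(24,0),(2,0),(3,
  0)]⟩⟩,⟨false,0,⟨0,[]⟩,⟨3,[(22,0),(0,0),(18,1)]⟩⟩,⟨true,0,⟨0,[(1,0)]⟩,⟨2,[(0,0),(2,0),(15,0),(6,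
  0)]⟩⟩,⟨true,0,⟨0,[(39,0)]⟩,⟨0,[(40,0)]⟩⟩,⟨false,1,⟨1,[(12,1),(9,0),(2,1),(16,0)]⟩,⟨0,[(0,0)]⟩⟩,
  []⟩) (.I [1,-1,-1,0,1,0,0,-1,1] (.R ⟨1,false,false,false,[1,0,0,-1],[1,-1,-1],[0,1,0,-1,0,0,0,0,
  -1],(⟨1,[(25,0),(8,0),(0,0)]⟩,⟨0,[(26,0)]⟩),(⟨0,[(19,0)]⟩,⟨0,[(35,0),(2,0)]⟩),⟨1,[(10,0),(8,0),(5,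
  0)]⟩,.k,.k,(.r (-1) ⟨11,[(11,3),(6,3),(4,6),(0,0)]⟩ ⟨1,[(3,1),(27,0),(0,0)]⟩),(.r 0 ⟨1,[(1,1),(8,
  0),(8,0),(5,0),(2,1),(9,1)]⟩ ⟨8,[(0,2),(3,0),(13,3),(5,1),(1,1),(0,0),(2,0),(0,1),(9,0)]⟩),.k,.k,
  ⟨false,0,⟨3,[(2,1),(3,1),(4,1),(13,0),(1,0),(2,0),(14,1)]⟩,⟨0,[(0,0)]⟩⟩,⟨true,0,⟨1,[(25,0),(2,0),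
  (3,0)]⟩,⟨0,[(14,0),(11,0)]⟩⟩,⟨false,0,⟨0,[(41,0)]⟩,⟨0,[(40,0),(2,0)]⟩⟩,⟨false,1,⟨1,[(0,1),(24,0),
  (2,0),(3,0),(8,1)]⟩,⟨0,[(1,0)]⟩⟩,⟨true,0,⟨0,[(45,0)]⟩,⟨0,[]⟩⟩,⟨false,1,⟨1,[(0,1),(24,0),(2,0),(3,
  0)]⟩,⟨0,[(2,0)]⟩⟩,[.o ⟨false,1,⟨7,[(15,3),(2,3),(4,0),(0,0),(3,3),(1,3),(12,1)]⟩,⟨0,[(13,0)]⟩⟩,.o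
  ⟨false,1,⟨0,[(27,0),(13,0),(1,0)]⟩,⟨1,[(13,0),(15,0),(10,0)]⟩⟩,.a ⟨true,0,⟨0,[(26,0)]⟩,⟨1,[(25,0),
  (8,0),(0,0)]⟩⟩ ⟨true,0,⟨1,[(2,1),(22,0),(1,0),(2,0),(10,1)]⟩,⟨0,[(3,0)]⟩⟩ ⟨false,1,⟨1,[(25,0),(1,
  0),(2,0),(10,1),(1,1)]⟩,⟨0,[(13,0),(12,0)]⟩⟩,.o ⟨false,0,⟨0,[(15,0),(10,0)]⟩,⟨7,[(23,0),(0,0),(0,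
  3),(10,1),(5,3)]⟩⟩]⟩) (.Q [0,-1,0,0,0,0,1,1,1,1,-1,-1] (.p false [0,0,1] [1,0,0,-1] (⟨0,[(35,0)]⟩,
  ⟨0,[(34,0)]⟩) .k 2 (⟨1,[(25,0),(8,0),(0,0)]⟩,⟨0,[(26,0)]⟩) .k (.r 0 ⟨1,[(3,0),(7,0),(0,0),(28,
  0)]⟩ ⟨1,[(14,1),(8,0),(6,1),(12,0)]⟩)) (.Q [0,1,0,-1,0,0,0,0,-2,-1,0,2] (.p true [0,0,0,1] [1,0,0,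
  -1] (⟨0,[(27,0)]⟩,⟨1,[(26,0),(8,0),(0,0)]⟩) .k 2 (⟨1,[(26,0),(8,0),(0,0)]⟩,⟨0,[(27,0)]⟩) .k .k)
  (.I [1,0,-1,0,1,0,0,-1,-1] (.Q [0,1,0,0,0,0,0,0,-2,-1,0,2] (.p true [0,0,0,1] [1,0,0,-1] (⟨0,[(29,
  0)]⟩,⟨1,[(28,0),(8,0),(0,0)]⟩) .k 2 (⟨1,[(28,0),(8,0),(0,0)]⟩,⟨0,[(29,0)]⟩) .k .k) (.R ⟨1,false,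
  false,false,[1,0,0,-1],[0,0,0,1],[0,0,0,-1,0,0,0,0,-1],(⟨1,[(29,0),(8,0),(0,0)]⟩,⟨0,[(30,0)]⟩),
  (⟨0,[(30,0)]⟩,⟨1,[(29,0),(8,0),(0,0)]⟩),⟨1,[(14,0),(8,0),(5,0)]⟩,.k,.k,(.r (-1) ⟨11,[(15,3),(6,3),
  (4,6),(0,0)]⟩ ⟨1,[(7,1),(27,0),(0,0)]⟩),.k,(.r (-1) ⟨7,[(1,1),(0,3),(8,1),(10,1),(4,2),(1,3),(17,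
  0)]⟩ ⟨1,[(7,3),(27,0),(0,0),(8,1)]⟩),.k,⟨false,1,⟨7,[(1,1),(0,3),(8,1),(10,1),(4,2),(1,3),(17,
  0)]⟩,⟨0,[(7,1),(37,0)]⟩⟩,⟨true,0,⟨0,[(29,0)]⟩,⟨0,[(19,0),(10,1)]⟩⟩,⟨true,0,⟨0,[(45,0)]⟩,⟨0,[(44,
  0)]⟩⟩,⟨true,0,⟨0,[(3,1),(27,0),(2,0)]⟩,⟨0,[(0,0)]⟩⟩,⟨false,1,⟨3,[(27,0),(0,0),(18,1)]⟩,⟨0,[]⟩⟩,
  ⟨true,0,⟨1,[(3,1),(3,1),(21,0),(1,0),(2,0)]⟩,⟨0,[(2,0)]⟩⟩,[.o ⟨false,0,⟨0,[(3,0),(27,0)]⟩,⟨3,[(0,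
  1),(26,0),(0,0),(11,0),(6,0)]⟩⟩,.o ⟨false,1,⟨3,[(8,1),(31,0),(6,2)]⟩,⟨1,[(2,0),(16,0),(23,0)]⟩⟩,
  .a ⟨true,0,⟨0,[(30,0)]⟩,⟨1,[(29,0),(8,0),(0,0)]⟩⟩ ⟨false,1,⟨1,[(27,0),(17,1),(1,0)]⟩,⟨0,[(7,0)]⟩⟩
  ⟨true,0,⟨1,[(3,1),(25,0),(1,0),(2,0)]⟩,⟨0,[(2,0),(4,0)]⟩⟩,.o ⟨false,0,⟨0,[(19,0),(10,0)]⟩,⟨7,[(27,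
  0),(0,0),(0,3),(10,1),(5,3)]⟩⟩]⟩) (.R ⟨1,true,false,false,[1,0,0,-1],[0,0,0,1],[0,0,0,-1,0,0,0,0,
  -1],(⟨1,[(29,0),(8,0),(0,0)]⟩,⟨0,[(30,0)]⟩),(⟨0,[(30,0)]⟩,⟨1,[(29,0),(8,0),(0,0)]⟩),⟨1,[(14,0),(8,
  0),(5,0)]⟩,.k,.k,(.r (-1) ⟨11,[(15,3),(6,3),(4,6),(0,0)]⟩ ⟨1,[(7,1),(27,0),(0,0)]⟩),.k,(.r (-1)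
  ⟨7,[(1,1),(0,3),(8,1),(10,1),(4,2),(1,3),(17,0)]⟩ ⟨3,[(0,1),(6,1),(4,0),(3,0),(2,1),(10,3),(3,0),
  (0,0)]⟩),.k,⟨false,1,⟨7,[(1,1),(0,3),(8,1),(10,1),(4,2),(1,3),(17,0)]⟩,⟨0,[(7,1),(37,0)]⟩⟩,⟨true,
  0,⟨0,[(29,0)]⟩,⟨0,[(19,0),(10,1)]⟩⟩,⟨true,0,⟨0,[(45,0)]⟩,⟨0,[(44,0)]⟩⟩,⟨false,0,⟨0,[(0,0)]⟩,⟨19,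
  [(2,15),(2,7),(18,7),(2,2),(0,2),(11,1),(6,11)]⟩⟩,⟨false,1,⟨3,[(27,0),(0,0),(18,1)]⟩,⟨0,[]⟩⟩,
  ⟨true,0,⟨0,[(0,0),(43,0)]⟩,⟨0,[(2,0)]⟩⟩,[]⟩)) (.R ⟨1,true,false,true,[0,0,1],[0,1],[1,1,0,0,0,0,0,
  1],(⟨0,[(38,0)]⟩,⟨0,[(37,0)]⟩),(⟨0,[(41,0)]⟩,⟨0,[(40,0)]⟩),⟨0,[(13,0)]⟩,.k,.k,.k,.k,(.r (-1) ⟨2,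
  [(14,3),(6,0),(4,0),(0,0)]⟩ ⟨0,[(0,0),(2,0),(13,2),(5,1),(9,0),(12,1)]⟩),.k,⟨true,0,⟨0,[(14,0)]⟩,
  ⟨0,[(0,0),(2,0),(13,2),(5,0),(9,1),(12,1)]⟩⟩,⟨false,1,⟨3,[(10,1),(22,3),(11,2),(0,0)]⟩,⟨0,[(34,
  0)]⟩⟩,⟨false,0,⟨0,[]⟩,⟨3,[(26,0),(0,0),(18,1)]⟩⟩,⟨true,0,⟨0,[(23,0)]⟩,⟨0,[(20,0)]⟩⟩,⟨true,0,⟨0,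
  [(43,0)]⟩,⟨0,[(44,0)]⟩⟩,⟨false,1,⟨0,[(23,0),(19,0),(2,0)]⟩,⟨0,[(0,0),(2,0),(13,0),(3,0),(24,0)]⟩⟩,
  []⟩)) (.R ⟨1,false,false,false,[1,0,0,-1],[0,0,0,1],[0,0,0,-1,0,0,0,0,-1],(⟨1,[(27,0),(8,0),(0,
  0)]⟩,⟨0,[(28,0)]⟩),(⟨0,[(28,0)]⟩,⟨1,[(27,0),(8,0),(0,0)]⟩),⟨1,[(12,0),(8,0),(5,0)]⟩,.k,.k,(.r
  (-1) ⟨11,[(13,3),(6,3),(4,6),(0,0)]⟩ ⟨1,[(5,1),(27,0),(0,0)]⟩),.k,(.r (-1) ⟨5,[(2,5),(0,3),(16,5),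
  (1,1),(2,0),(1,1),(1,1),(15,4)]⟩ ⟨5,[(0,1),(4,3),(0,1),(10,3),(10,7),(4,0),(0,0)]⟩),.k,⟨false,1,
  ⟨5,[(2,5),(0,3),(16,5),(1,1),(2,0),(1,1),(1,1),(15,4)]⟩,⟨0,[(5,1),(37,0)]⟩⟩,⟨true,0,⟨0,[(27,0)]⟩,
  ⟨0,[(17,0),(10,1)]⟩⟩,⟨true,0,⟨0,[(43,0)]⟩,⟨0,[(42,0)]⟩⟩,⟨false,0,⟨0,[(0,0),(42,0)]⟩,⟨1,[(4,1),(20,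
  0),(2,1),(0,1),(15,0)]⟩⟩,⟨false,1,⟨3,[(25,0),(0,0),(18,1)]⟩,⟨0,[]⟩⟩,⟨false,0,⟨0,[(0,0)]⟩,⟨1,[(2,
  0),(1,0),(12,0),(2,0),(4,0),(2,2),(0,0),(15,0)]⟩⟩,[.o ⟨false,0,⟨1,[(0,0),(18,0),(9,0)]⟩,⟨1,[(25,
  0),(2,1),(9,0)]⟩⟩,.o ⟨false,1,⟨3,[(6,1),(31,0),(6,2)]⟩,⟨0,[(4,0),(24,0)]⟩⟩,.a ⟨true,0,⟨0,[(28,
  0)]⟩,⟨1,[(27,0),(8,0),(0,0)]⟩⟩ ⟨false,1,⟨1,[(25,0),(17,1),(1,0)]⟩,⟨0,[(5,0)]⟩⟩ ⟨true,0,⟨3,[(0,0),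
  (5,0),(20,1),(15,0)]⟩,⟨0,[(4,0),(23,0),(0,0)]⟩⟩,.o ⟨false,0,⟨0,[(17,0),(10,0)]⟩,⟨7,[(25,0),(0,0),
  (0,3),(10,1),(5,3)]⟩⟩]⟩)) (.R ⟨1,false,false,false,[1,0,0,-1],[0,0,1],[0,0,0,-1,0,0,0,0,-1],(⟨1,
  [(26,0),(8,0),(0,0)]⟩,⟨0,[(27,0)]⟩),(⟨0,[(36,0)]⟩,⟨0,[(35,0)]⟩),⟨1,[(11,0),(8,0),(5,0)]⟩,.k,.k,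
  (.r (-1) ⟨11,[(12,3),(6,3),(4,6),(0,0)]⟩ ⟨1,[(4,1),(27,0),(0,0)]⟩),.k,(.r (-1) ⟨3,[(0,1),(14,1),
  (3,1),(4,0),(1,0),(8,0),(0,0),(7,0)]⟩ ⟨0,[(1,1),(2,2),(3,0),(2,2),(3,2),(4,2),(7,2),(10,5),(2,1),
  (1,1)]⟩),.k,⟨false,1,⟨3,[(0,1),(14,1),(3,1),(4,0),(1,0),(8,0),(0,0),(7,0)]⟩,⟨2,[(4,0),(3,0),(0,0),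
  (3,0)]⟩⟩,⟨true,0,⟨1,[(15,1),(10,0),(8,0),(0,0)]⟩,⟨0,[(27,0),(1,0)]⟩⟩,⟨true,0,⟨0,[(42,0)]⟩,⟨0,[(41,
  0)]⟩⟩,⟨true,0,⟨0,[(6,0)]⟩,⟨0,[(0,0)]⟩⟩,⟨false,1,⟨3,[(24,0),(0,0),(18,1)]⟩,⟨0,[]⟩⟩,⟨true,0,⟨3,[(4,
  1),(1,1),(7,0),(7,0),(3,0)]⟩,⟨0,[(0,0),(41,0)]⟩⟩,[.o ⟨false,0,⟨0,[(17,0)]⟩,⟨1,[(31,1),(5,0),(6,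
  0)]⟩⟩,.o ⟨false,1,⟨7,[(23,3),(0,0),(0,0),(11,1),(6,3)]⟩,⟨0,[(28,0)]⟩⟩,.a ⟨true,0,⟨0,[(27,0)]⟩,⟨1,
  [(26,0),(8,0),(0,0)]⟩⟩ ⟨false,1,⟨1,[(24,0),(17,1),(1,0)]⟩,⟨0,[(4,0)]⟩⟩ ⟨true,0,⟨1,[(23,0),(2,0)]⟩,
  ⟨0,[(27,0),(0,0)]⟩⟩,.o ⟨false,0,⟨0,[(16,0),(10,0)]⟩,⟨7,[(24,0),(0,0),(0,3),(10,1),(5,3)]⟩⟩]⟩))))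
  (.R ⟨1,false,false,true,[1,0,0,-1],[1,-1,-1],[0,0,0,-1,0,0,0,0,-1],(⟨1,[(23,0),(8,0),(0,0)]⟩,⟨0,
  [(24,0)]⟩),(⟨0,[(17,0)]⟩,⟨0,[(33,0),(2,0)]⟩),⟨1,[(8,0),(8,0),(5,0)]⟩,.k,.k,(.r (-1) ⟨11,[(9,3),(6,
  3),(4,6),(0,0)]⟩ ⟨1,[(1,1),(27,0),(0,0)]⟩),(.x (-1) ⟨0,[(29,0),(3,0),(2,0),(3,0)]⟩ ⟨0,[(17,0),(8,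
  0)]⟩),.k,.k,⟨false,1,⟨7,[(7,3),(13,4),(0,0),(18,1)]⟩,⟨1,[(0,1),(8,0),(2,2),(11,1),(3,0),(8,0)]⟩⟩,
  ⟨true,0,⟨1,[(23,0),(2,0),(3,0)]⟩,⟨0,[(12,0),(11,0)]⟩⟩,⟨true,0,⟨0,[(39,0)]⟩,⟨0,[(38,0)]⟩⟩,⟨false,0,
  ⟨0,[(0,0),(38,0)]⟩,⟨1,[(11,1),(9,0),(2,1),(16,0)]⟩⟩,⟨false,1,⟨3,[(21,0),(0,0),(18,1)]⟩,⟨0,[]⟩⟩,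
  ⟨false,0,⟨0,[(0,0)]⟩,⟨1,[(14,1),(6,0),(2,1),(16,0)]⟩⟩,[.o ⟨false,0,⟨0,[(25,0),(13,0)]⟩,⟨3,[(11,3),
  (9,0),(0,0),(18,1)]⟩⟩,.o ⟨false,1,⟨7,[(13,3),(2,3),(4,0),(0,0),(3,3),(1,3),(12,1)]⟩,⟨0,[(11,0)]⟩⟩,
  .a ⟨true,0,⟨0,[(24,0)]⟩,⟨1,[(23,0),(8,0),(0,0)]⟩⟩ ⟨false,1,⟨1,[(21,0),(17,1),(1,0)]⟩,⟨0,[(1,0)]⟩⟩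
  ⟨true,0,⟨1,[(23,0),(1,0),(2,0),(10,1)]⟩,⟨0,[(11,0),(12,0)]⟩⟩,.o ⟨false,0,⟨0,[(13,0),(10,0)]⟩,⟨7,
  [(21,0),(0,0),(0,3),(10,1),(5,3)]⟩⟩]⟩)) (.Q [0,-1,0,1,0,0,1,1,-1,0,-1,1] (.p false [0,0,1] [0,0,0,
  1] (⟨0,[(32,0)]⟩,⟨0,[(31,0)]⟩) .k 2 (⟨0,[(23,0)]⟩,⟨1,[(22,0),(8,0),(0,0)]⟩) .k (.r 0 ⟨5,[(0,2),(2,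
  2),(0,0),(3,0),(27,0)]⟩ ⟨1,[(11,1),(9,0),(5,1),(12,0)]⟩)) (.R ⟨1,false,false,true,[1,0,0,-1],[1,
  -1,-1],[1,1,0,0,0,0,0,0,-1],(⟨1,[(23,0),(8,0),(0,0)]⟩,⟨0,[(24,0)]⟩),(⟨0,[(17,0)]⟩,⟨0,[(33,0),(2,
  0)]⟩),⟨1,[(8,0),(8,0),(5,0)]⟩,.k,.k,(.x 0 ⟨1,[(8,0),(8,0),(8,0),(2,0)]⟩ ⟨3,[(21,0),(0,0),(13,3),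
  (3,1)]⟩),(.r 0 ⟨1,[(0,1),(4,1),(2,6),(3,5),(4,6),(5,0),(1,3),(0,3),(9,13)]⟩ ⟨1,[(2,0),(9,0),(3,0),
  (7,1),(0,0),(15,0)]⟩),.k,.k,⟨false,0,⟨19,[(0,5),(0,3),(2,9),(0,4),(12,2),(4,2),(1,2),(11,4)]⟩,⟨1,
  [(2,0),(9,0),(3,0),(7,1),(0,0),(15,0)]⟩⟩,⟨true,0,⟨1,[(23,0),(2,0),(3,0)]⟩,⟨0,[(12,0),(11,0)]⟩⟩,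
  ⟨false,0,⟨0,[]⟩,⟨3,[(21,0),(0,0),(18,1)]⟩⟩,⟨false,1,⟨3,[(2,1),(13,1),(9,1),(1,1),(0,0),(0,0),(10,
  1)]⟩,⟨0,[(0,0)]⟩⟩,⟨true,0,⟨0,[(38,0)]⟩,⟨0,[(39,0)]⟩⟩,⟨false,1,⟨3,[(2,1),(25,3),(5,0),(6,2)]⟩,⟨0,
  [(0,0),(38,0)]⟩⟩,[.o ⟨false,0,⟨0,[(25,0),(13,0)]⟩,⟨3,[(11,3),(9,0),(0,0),(18,1)]⟩⟩,.o ⟨false,1,⟨7,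
  [(13,3),(2,3),(4,0),(0,0),(3,3),(1,3),(12,1)]⟩,⟨0,[(11,0)]⟩⟩,.a ⟨true,0,⟨0,[(24,0)]⟩,⟨1,[(23,0),
  (8,0),(0,0)]⟩⟩ ⟨false,0,⟨4,[(0,1),(0,2),(16,0),(4,0),(1,0)]⟩,⟨1,[(22,0),(18,0)]⟩⟩ ⟨true,0,⟨1,[(23,
  0),(1,0),(2,0),(10,1)]⟩,⟨0,[(11,0),(12,0)]⟩⟩,.o ⟨false,0,⟨0,[(13,0),(10,0)]⟩,⟨7,[(21,0),(0,0),(0,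
  3),(10,1),(5,3)]⟩⟩]⟩) (.Q [0,1,0,0,0,0,-1,-1,1,0,1,-1] (.p true [0,0,1] [0,0,0,1] (⟨0,[(33,0)]⟩,
  ⟨0,[(32,0)]⟩) .k 2 (⟨0,[(24,0)]⟩,⟨1,[(23,0),(8,0),(0,0)]⟩) .k (.r 0 ⟨5,[(1,2),(2,2),(0,0),(3,0),
  (27,0)]⟩ ⟨4,[(0,0),(11,1),(3,0),(1,2),(3,1),(1,0),(4,1),(11,1)]⟩)) (.Q [0,0,0,1,0,0,1,1,-1,0,-1,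
  1] (.p false [0,0,1] [0,0,0,1] (⟨0,[(34,0)]⟩,⟨0,[(33,0)]⟩) .k 2 (⟨0,[(25,0)]⟩,⟨1,[(24,0),(8,0),(0,
  0)]⟩) .k (.r 0 ⟨5,[(2,2),(2,2),(0,0),(3,0),(27,0)]⟩ ⟨7,[(0,1),(12,1),(3,1),(1,3),(3,2),(1,1),(4,
  3),(11,2)]⟩)) (.R ⟨1,false,false,true,[1,0,0,-1],[1,-1,-1],[0,1,0,-1,0,0,0,0,-1],(⟨1,[(25,0),(8,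
  0),(0,0)]⟩,⟨0,[(26,0)]⟩),(⟨0,[(19,0)]⟩,⟨0,[(35,0),(2,0)]⟩),⟨1,[(10,0),(8,0),(5,0)]⟩,.k,.k,(.x 0
  ⟨1,[(10,0),(8,0),(8,0),(2,0)]⟩ ⟨3,[(23,0),(0,0),(13,3),(3,1)]⟩),(.r 0 ⟨1,[(0,1),(9,0),(8,0),(5,0),
  (2,1),(9,1)]⟩ ⟨3,[(1,1),(12,1),(3,1),(5,0),(1,1),(16,0)]⟩),.k,.k,⟨false,0,⟨5,[(3,2),(2,2),(0,0),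
  (3,0),(27,0)]⟩,⟨2,[(1,1),(6,0),(5,1),(3,0),(7,1),(12,0),(3,1)]⟩⟩,⟨true,0,⟨1,[(25,0),(2,0),(3,0)]⟩,
  ⟨0,[(14,0),(11,0)]⟩⟩,⟨false,0,⟨0,[(41,0)]⟩,⟨0,[(40,0),(2,0)]⟩⟩,⟨true,0,⟨0,[(2,0)]⟩,⟨0,[(0,0)]⟩⟩,
  ⟨true,0,⟨0,[(45,0)]⟩,⟨0,[]⟩⟩,⟨true,0,⟨0,[(1,0)]⟩,⟨2,[(0,1),(2,0),(13,0),(8,0)]⟩⟩,[.o ⟨false,0,⟨0,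
  [(27,0),(13,0)]⟩,⟨3,[(13,3),(9,0),(0,0),(18,1)]⟩⟩,.o ⟨false,1,⟨7,[(15,3),(2,3),(4,0),(0,0),(3,3),
  (1,3),(12,1)]⟩,⟨0,[(13,0)]⟩⟩,.a ⟨true,0,⟨0,[(26,0)]⟩,⟨1,[(25,0),(8,0),(0,0)]⟩⟩ ⟨false,0,⟨0,[(3,
  0)]⟩,⟨0,[(8,0),(34,0)]⟩⟩ ⟨true,0,⟨3,[(2,1),(0,1),(21,0),(1,0),(2,0)]⟩,⟨0,[(13,0),(12,0)]⟩⟩,.o
  ⟨false,0,⟨0,[(15,0),(10,0)]⟩,⟨7,[(23,0),(0,0),(0,3),(10,1),(5,3)]⟩⟩]⟩) (.R ⟨1,true,false,false,[1,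
  0,-1],[1,0,0,-1],[1,1,0,0,0,0,0,-1],(⟨0,[(34,0)]⟩,⟨0,[(35,0)]⟩),(⟨1,[(25,0),(8,0),(0,0)]⟩,⟨0,[(26,
  0)]⟩),⟨0,[(19,0)]⟩,.k,.k,.k,.k,(.x 0 ⟨0,[(19,0),(8,0)]⟩ ⟨0,[(31,0),(3,0),(2,0),(3,0)]⟩),.k,⟨false,
  0,⟨0,[(0,0),(13,0),(11,0),(12,0)]⟩,⟨7,[(9,3),(13,4),(0,0),(18,1)]⟩⟩,⟨true,0,⟨0,[(14,0),(11,0)]⟩,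
  ⟨1,[(25,0),(2,0),(3,0)]⟩⟩,⟨false,0,⟨0,[]⟩,⟨3,[(23,0),(0,0),(18,1)]⟩⟩,⟨true,0,⟨0,[(3,0),(9,0),(12,
  0)]⟩,⟨0,[(1,0)]⟩⟩,⟨true,0,⟨0,[(40,0)]⟩,⟨0,[(41,0)]⟩⟩,⟨false,1,⟨1,[(13,1),(9,0),(2,1),(16,0)]⟩,⟨0,
  [(0,0)]⟩⟩,[]⟩)) (.R ⟨1,true,false,false,[1,0,-1],[1,0,0,-1],[0,0,0,-1,0,0,0,-1],(⟨0,[(33,0)]⟩,⟨0,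
  [(34,0)]⟩),(⟨1,[(24,0),(8,0),(0,0)]⟩,⟨0,[(25,0)]⟩),⟨0,[(18,0)]⟩,.k,.k,.k,.k,(.r (-1) ⟨1,[(1,0),(5,
  0),(5,0),(3,0),(7,0),(16,0)]⟩ ⟨1,[(0,1),(5,1),(2,4),(3,5),(4,4),(0,1),(4,0),(1,1),(0,3),(9,9)]⟩),
  .k,⟨false,1,⟨1,[(1,0),(5,0),(5,0),(3,0),(7,0),(16,0)]⟩,⟨3,[(0,1),(4,1),(0,0),(12,0),(4,0),(1,0),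
  (11,0)]⟩⟩,⟨true,0,⟨0,[(13,0),(11,0)]⟩,⟨1,[(24,0),(2,0),(3,0)]⟩⟩,⟨true,0,⟨0,[(40,0)]⟩,⟨0,[(39,
  0)]⟩⟩,⟨false,0,⟨0,[(0,0)]⟩,⟨15,[(1,7),(17,7),(2,0),(0,4),(0,3),(10,1),(6,7)]⟩⟩,⟨false,1,⟨3,[(22,
  0),(0,0),(18,1)]⟩,⟨0,[]⟩⟩,⟨true,0,⟨0,[(0,0),(38,0)]⟩,⟨0,[(1,0)]⟩⟩,[]⟩))))) (.K ⟨2,[1,0,0,-1],0,0,
  (⟨1,[(20,0),(8,0),(0,0)]⟩,⟨0,[(21,0)]⟩),.k,(.r 0 ⟨1,[(0,1),(5,1),(2,1),(10,0),(8,0),(0,0)]⟩ ⟨3,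
  [(1,1),(13,1),(3,2),(6,1),(11,0)]⟩),(.r 0 ⟨3,[(0,3),(0,0),(5,0),(8,1),(3,1),(5,1)]⟩ ⟨11,[(6,3),(6,
  3),(4,0),(0,6)]⟩),.k,.k,[⟨0,[(0,0)]⟩,⟨1,[(3,1),(16,0),(8,0),(0,0),(5,1)]⟩,⟨1,[(20,0),(5,0),(0,0),
  (1,0),(0,0)]⟩,⟨0,[(10,0),(10,0)]⟩]⟩)))) (.Q [0,0,0,0,0,0,-1,-1,-1,-1,1,1] (.p true [0,0,1] [1,0,0,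
  -1] (⟨0,[(27,0)]⟩,⟨0,[(26,0)]⟩) .k 2 (⟨1,[(17,0),(8,0),(0,0)]⟩,⟨0,[(18,0)]⟩) .k (.r (-1) ⟨3,[(15,
  0),(0,2),(8,3)]⟩ ⟨0,[(0,0),(5,0),(5,0)]⟩)) (.R ⟨1,false,false,false,[1,0,0,-1],[0,0,1],[1,1,0,0,0,
  0,0,0,-1],(⟨1,[(18,0),(8,0),(0,0)]⟩,⟨0,[(19,0)]⟩),(⟨0,[(28,0)]⟩,⟨0,[(27,0)]⟩),⟨1,[(3,0),(8,0),(5,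
  0)]⟩,.k,.k,(.r 0 ⟨1,[(1,1),(2,0),(2,0),(15,0),(8,0)]⟩ ⟨3,[(5,1),(7,1),(2,0),(0,1),(6,1),(11,0)]⟩),
  .k,(.x 0 ⟨0,[(12,0),(8,0)]⟩ ⟨0,[(24,0),(3,0),(2,0),(3,0)]⟩),.k,⟨false,0,⟨0,[(1,0),(5,0),(15,0),(8,
  0)]⟩,⟨7,[(2,3),(13,0),(0,4),(18,1)]⟩⟩,⟨true,0,⟨1,[(7,1),(10,0),(8,0),(0,0)]⟩,⟨0,[(19,0),(1,0)]⟩⟩,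
  ⟨false,0,⟨0,[]⟩,⟨3,[(16,0),(0,0),(18,1)]⟩⟩,⟨false,1,⟨1,[(15,0),(1,0),(0,0),(17,0)]⟩,⟨0,[(0,0)]⟩⟩,
  ⟨true,0,⟨0,[(33,0)]⟩,⟨0,[(34,0)]⟩⟩,⟨false,1,⟨1,[(6,0),(7,0),(2,0),(0,0),(17,0)]⟩,⟨0,[(0,0),(33,
  0)]⟩⟩,[.o ⟨false,0,⟨0,[(9,0)]⟩,⟨1,[(23,1),(5,0),(6,0)]⟩⟩,.o ⟨false,1,⟨7,[(15,3),(0,0),(0,0),(11,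
  1),(6,3)]⟩,⟨0,[(20,0)]⟩⟩,.a ⟨true,0,⟨0,[(19,0)]⟩,⟨1,[(18,0),(8,0),(0,0)]⟩⟩ ⟨false,0,⟨0,[(1,0),(31,
  0)]⟩,⟨1,[(17,0),(18,0)]⟩⟩ ⟨true,0,⟨1,[(15,0),(2,0)]⟩,⟨0,[(19,0),(0,0)]⟩⟩,.o ⟨false,0,⟨0,[(8,0),
  (10,0)]⟩,⟨7,[(16,0),(0,0),(0,3),(10,1),(5,3)]⟩⟩]⟩) (.R ⟨1,true,false,false,[1,0,-1],[0,0,0,1],[0,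
  1,0,-1,0,0,0,-1],(⟨0,[(27,0)]⟩,⟨0,[(28,0)]⟩),(⟨0,[(19,0)]⟩,⟨1,[(18,0),(8,0),(0,0)]⟩),⟨0,[(12,0)]⟩,
  .k,.k,.k,.k,(.x 0 ⟨0,[(12,0),(8,0)]⟩ ⟨0,[(24,0),(3,0),(2,0),(3,0)]⟩),.k,⟨false,0,⟨1,[(1,1),(2,0),
  (2,2),(15,2),(8,0)]⟩,⟨1,[(5,1),(29,0),(0,0)]⟩⟩,⟨true,0,⟨1,[(7,1),(10,0),(8,0),(0,0)]⟩,⟨0,[(19,0),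
  (1,0)]⟩⟩,⟨false,0,⟨0,[(34,0)]⟩,⟨0,[(33,0),(2,0)]⟩⟩,⟨true,0,⟨0,[(0,0)]⟩,⟨0,[(1,0),(17,0),(0,0),(12,
  0)]⟩⟩,⟨true,0,⟨0,[(38,0)]⟩,⟨0,[]⟩⟩,⟨false,1,⟨1,[(6,0),(7,0),(2,0),(0,0),(17,0)]⟩,⟨0,[(1,0),(17,0),
  (0,0)]⟩⟩,[]⟩))) (.Q [0,-1,0,1,0,0,1,1,1,1,-1,-1] (.p false [0,0,1] [1,0,0,-1] (⟨0,[(26,0)]⟩,⟨0,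
  [(25,0)]⟩) .k 2 (⟨1,[(16,0),(8,0),(0,0)]⟩,⟨0,[(17,0)]⟩) .k (.x 0 ⟨0,[(5,0),(20,0)]⟩ ⟨3,[(14,0),(0,
  0),(3,3),(5,3),(7,1)]⟩)) (.R ⟨1,false,false,false,[1,0,0,-1],[0,0,1],[0,0,0,-1,0,0,0,0,-1],(⟨1,
  [(17,0),(8,0),(0,0)]⟩,⟨0,[(18,0)]⟩),(⟨0,[(27,0)]⟩,⟨0,[(26,0)]⟩),⟨1,[(2,0),(8,0),(5,0)]⟩,.k,.k,(.r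
  (-1) ⟨11,[(3,3),(6,3),(4,6),(0,0)]⟩ ⟨1,[(0,0),(0,0),(2,0),(13,0),(1,0)]⟩),.k,(.r (-1) ⟨1,[(1,1),
  (1,1),(11,0),(19,0)]⟩ ⟨2,[(0,2),(0,0),(0,3),(0,1),(2,3),(4,3),(6,2),(1,6),(9,7),(0,1)]⟩),.k,
  ⟨false,1,⟨1,[(1,1),(1,1),(11,0),(19,0)]⟩,⟨2,[(0,1),(2,0),(0,0),(13,1),(0,0),(0,0),(10,0)]⟩⟩,⟨true,
  0,⟨1,[(6,1),(10,0),(8,0),(0,0)]⟩,⟨0,[(18,0),(1,0)]⟩⟩,⟨true,0,⟨0,[(33,0)]⟩,⟨0,[(32,0)]⟩⟩,⟨false,0,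
  ⟨0,[(0,0),(32,0)]⟩,⟨1,[(15,0),(2,1),(0,1),(15,0)]⟩⟩,⟨false,1,⟨3,[(15,0),(0,0),(18,1)]⟩,⟨0,[]⟩⟩,
  ⟨false,0,⟨0,[(0,0)]⟩,⟨1,[(15,0),(2,1),(0,1),(13,1),(1,0)]⟩⟩,[.o ⟨false,0,⟨0,[(8,0)]⟩,⟨1,[(22,1),
  (5,0),(6,0)]⟩⟩,.o ⟨false,1,⟨7,[(14,3),(0,0),(0,0),(11,1),(6,3)]⟩,⟨0,[(19,0)]⟩⟩,.a ⟨true,0,⟨0,[(18,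
  0)]⟩,⟨1,[(17,0),(8,0),(0,0)]⟩⟩ ⟨false,1,⟨1,[(15,0),(17,1),(1,0)]⟩,⟨0,[(0,0),(17,0),(0,0)]⟩⟩ ⟨true,
  0,⟨1,[(14,0),(2,0)]⟩,⟨0,[(18,0),(0,0)]⟩⟩,.o ⟨false,0,⟨0,[(7,0),(10,0)]⟩,⟨7,[(15,0),(0,0),(0,3),
  (10,1),(5,3)]⟩⟩]⟩) (.I [0,-1,0,-1,0,0,0,2] (.Q [0,-1,0,-1,0,0,1,1,0,1,-1] (.p false [0,0,1] [1]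
  (⟨0,[(28,0)]⟩,⟨0,[(27,0)]⟩) .k 1 (⟨0,[]⟩,⟨0,[]⟩) .k .k) (.R ⟨1,false,false,false,[1,0,-1],[0,-1,
  1],[0,0,0,-1,0,0,0,1],(⟨0,[(28,0)]⟩,⟨0,[(29,0)]⟩),(⟨0,[(4,0)]⟩,⟨0,[(28,0),(3,0)]⟩),⟨0,[(13,0)]⟩,
  .k,.k,.k,(.r (-1) ⟨7,[(3,3),(10,7),(2,0),(0,0),(6,7),(11,5)]⟩ ⟨0,[(5,0),(21,0)]⟩),.k,.k,⟨true,0,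
  ⟨1,[(25,0),(0,0)]⟩,⟨0,[]⟩⟩,⟨false,0,⟨1,[(0,0),(2,0),(4,1),(6,0)]⟩,⟨1,[(5,1),(8,1),(7,1),(13,0),(0,
  0)]⟩⟩,⟨false,0,⟨0,[(1,0)]⟩,⟨0,[(3,0),(30,0),(2,0)]⟩⟩,⟨false,0,⟨0,[(0,0),(9,0)]⟩,⟨0,[(14,0),(6,0),
  (15,0)]⟩⟩,⟨true,0,⟨0,[(27,1)]⟩,⟨0,[(3,0)]⟩⟩,⟨false,0,⟨0,[(0,0),(6,0)]⟩,⟨0,[(21,0),(2,0),(12,0)]⟩⟩,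
  [.o ⟨false,0,⟨0,[(11,0)]⟩,⟨1,[(14,1),(15,0),(6,0)]⟩⟩,.a ⟨true,0,⟨0,[(0,0)]⟩,⟨0,[(14,0)]⟩⟩ ⟨false,
  1,⟨19,[(1,11),(10,3),(4,2),(0,2),(17,5),(0,3)]⟩,⟨1,[(3,0),(3,0),(6,0)]⟩⟩ ⟨true,0,⟨0,[(0,0),(7,
  0)]⟩,⟨0,[(14,0),(7,0)]⟩⟩,.o ⟨false,1,⟨3,[(17,0),(0,0),(3,3),(13,1)]⟩,⟨0,[(8,0)]⟩⟩,.o ⟨false,0,⟨0,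
  [(22,0)]⟩,⟨3,[(8,3),(8,0),(0,0),(17,1)]⟩⟩]⟩) (.Q [0,1,0,-1,0,0,-1,-1,1,0,1,-1] (.p true [0,0,1]
  [0,0,0,1] (⟨0,[(29,0)]⟩,⟨0,[(28,0)]⟩) .k 2 (⟨0,[(20,0)]⟩,⟨1,[(19,0),(8,0),(0,0)]⟩) .k (.x 0 ⟨0,
  [(8,0),(20,0)]⟩ ⟨3,[(17,0),(0,0),(3,3),(5,3),(7,1)]⟩)) (.Q [0,1,0,0,0,0,-1,-1,-1,-1,1,1] (.p true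
  [0,0,1] [1,0,0,-1] (⟨0,[(30,0)]⟩,⟨0,[(29,0)]⟩) .k 2 (⟨1,[(20,0),(8,0),(0,0)]⟩,⟨0,[(21,0)]⟩) .k
  (.x 0 ⟨0,[(9,0),(20,0)]⟩ ⟨3,[(18,0),(0,0),(3,3),(5,3),(7,1)]⟩)) (.Q [0,1,0,0,0,0,-1,-1,1,0,1,-1]
  (.p true [0,0,1] [0,0,0,1] (⟨0,[(31,0)]⟩,⟨0,[(30,0)]⟩) .k 2 (⟨0,[(22,0)]⟩,⟨1,[(21,0),(8,0),(0,
  0)]⟩) .k (.x 0 ⟨0,[(10,0),(20,0)]⟩ ⟨3,[(19,0),(0,0),(3,3),(5,3),(7,1)]⟩)) (.I [0,0,0,0,0,0,0,0,1]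
  (.I [0,0,1,1,0,0,0,0,1] (.R ⟨1,false,false,false,[1,0,0,-1],[0,0,1],[1,0,0,0,0,0,0,0,-1],(⟨1,[(24,
  0),(8,0),(0,0)]⟩,⟨0,[(25,0)]⟩),(⟨0,[(34,0)]⟩,⟨0,[(33,0)]⟩),⟨1,[(9,0),(8,0),(5,0)]⟩,.k,.k,(.r (-1)
  ⟨11,[(10,3),(6,3),(4,6),(0,0)]⟩ ⟨0,[(0,0)]⟩),.k,(.r (-1) ⟨3,[(3,1),(9,1),(3,1),(4,0),(1,0),(8,0),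
  (0,0),(7,0)]⟩ ⟨0,[(0,0),(4,0),(0,0),(2,0),(3,0),(4,0),(18,1)]⟩),.k,⟨false,1,⟨7,[(3,5),(9,5),(3,1),
  (4,0),(1,2),(8,2),(0,2),(3,3),(3,4)]⟩,⟨1,[(1,0),(8,0),(0,0)]⟩⟩,⟨true,0,⟨1,[(13,1),(10,0),(8,0),(0,
  0)]⟩,⟨0,[(25,0),(1,0)]⟩⟩,⟨true,0,⟨0,[]⟩,⟨0,[(44,0)]⟩⟩,⟨true,0,⟨1,[(1,1),(19,0),(2,0)]⟩,⟨0,[(3,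
  0)]⟩⟩,⟨false,1,⟨0,[(39,0),(2,0)]⟩,⟨0,[(40,0)]⟩⟩,⟨true,0,⟨1,[(1,1),(10,0),(7,0),(3,0)]⟩,⟨0,[(7,
  0)]⟩⟩,[.o ⟨false,0,⟨0,[(15,0)]⟩,⟨1,[(29,1),(5,0),(6,0)]⟩⟩,.o ⟨false,1,⟨7,[(21,3),(0,0),(0,0),(11,
  1),(6,3)]⟩,⟨0,[(26,0)]⟩⟩,.a ⟨true,0,⟨0,[(25,0)]⟩,⟨1,[(24,0),(8,0),(0,0)]⟩⟩ ⟨false,1,⟨1,[(22,0),
  (19,0)]⟩,⟨0,[(1,0)]⟩⟩ ⟨true,0,⟨1,[(21,0),(2,0)]⟩,⟨1,[(1,0),(3,0),(1,0),(17,0)]⟩⟩,.o ⟨false,0,⟨0,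
  [(14,0),(10,0)]⟩,⟨7,[(22,0),(0,0),(0,3),(10,1),(5,3)]⟩⟩]⟩) (.R ⟨2,true,false,false,[0,1],[1,0,0,
  -1],[0,1,1],(⟨0,[]⟩,⟨0,[]⟩),(⟨1,[(24,0),(8,0),(0,0)]⟩,⟨0,[(25,0)]⟩),⟨0,[]⟩,.k,.k,.k,(.x (-1) ⟨3,
  [(22,0),(0,0),(13,3),(3,1)]⟩ ⟨1,[(9,0),(8,0),(8,0),(2,0)]⟩),.k,.k,⟨false,0,⟨2,[(1,1),(2,0),(20,0),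
  (2,0),(10,0)]⟩,⟨3,[(0,1),(21,0),(15,1),(3,2)]⟩⟩,⟨true,0,⟨0,[(14,0),(10,0)]⟩,⟨1,[(24,0),(8,0),(0,
  0)]⟩⟩,⟨false,0,⟨0,[(40,0)]⟩,⟨0,[(39,0),(2,0)]⟩⟩,⟨true,0,⟨0,[(0,0),(13,0),(10,0)]⟩,⟨0,[(2,0),(17,
  0)]⟩⟩,⟨true,0,⟨0,[(44,0)]⟩,⟨0,[]⟩⟩,⟨false,1,⟨0,[(7,0),(4,0),(29,0)]⟩,⟨1,[(1,1),(22,0),(8,0),(0,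
  0)]⟩⟩,[]⟩)) (.R ⟨1,false,false,true,[1,0,0,-1],[1,-1,-1],[0,1,0,-1,0,0,0,0,-1],(⟨1,[(23,0),(8,0),
  (0,0)]⟩,⟨0,[(24,0)]⟩),(⟨0,[(17,0)]⟩,⟨0,[(33,0),(2,0)]⟩),⟨1,[(8,0),(8,0),(5,0)]⟩,.k,.k,(.x 0 ⟨1,
  [(8,0),(8,0),(8,0),(2,0)]⟩ ⟨3,[(21,0),(0,0),(13,3),(3,1)]⟩),(.r 0 ⟨0,[(0,0),(18,0),(6,0)]⟩ ⟨3,[(1,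
  1),(10,1),(3,1),(5,0),(1,1),(16,0)]⟩),.k,.k,⟨false,0,⟨0,[(0,0),(30,0)]⟩,⟨7,[(1,5),(10,5),(3,1),(5,
  0),(1,5),(12,3),(3,4)]⟩⟩,⟨true,0,⟨1,[(23,0),(2,0),(3,0)]⟩,⟨0,[(12,0),(11,0)]⟩⟩,⟨false,0,⟨0,[(39,
  0)]⟩,⟨0,[(38,0),(2,0)]⟩⟩,⟨true,0,⟨0,[(3,0)]⟩,⟨0,[(0,0),(10,0),(12,0)]⟩⟩,⟨true,0,⟨0,[(43,0)]⟩,⟨0,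
  []⟩⟩,⟨true,0,⟨0,[(1,0)]⟩,⟨0,[(0,0),(13,0),(9,0)]⟩⟩,[.o ⟨false,0,⟨0,[(25,0),(13,0)]⟩,⟨3,[(11,3),(9,
  0),(0,0),(18,1)]⟩⟩,.o ⟨false,1,⟨7,[(3,3),(2,3),(14,0),(0,0),(11,1),(6,3)]⟩,⟨0,[(11,0)]⟩⟩,.a ⟨true,
  0,⟨0,[(24,0)]⟩,⟨1,[(23,0),(8,0),(0,0)]⟩⟩ ⟨false,0,⟨0,[(0,0),(38,0)]⟩,⟨1,[(1,0),(8,0),(1,0),(11,0),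
  (12,0),(3,1)]⟩⟩ ⟨true,0,⟨1,[(3,0),(2,0),(16,0)]⟩,⟨0,[(11,0),(12,0)]⟩⟩,.o ⟨false,0,⟨0,[(13,0),(10,
  0)]⟩,⟨7,[(21,0),(0,0),(0,3),(10,1),(5,3)]⟩⟩]⟩)) (.R ⟨1,true,false,false,[1,0,-1],[1,0,0,-1],[0,0,
  0,-1,0,0,0,-1],(⟨0,[(31,0)]⟩,⟨0,[(32,0)]⟩),(⟨1,[(22,0),(8,0),(0,0)]⟩,⟨0,[(23,0)]⟩),⟨0,[(16,0)]⟩,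
  .k,.k,.k,.k,(.r (-1) ⟨1,[(6,1),(1,1),(12,0),(18,0)]⟩ ⟨1,[(0,1),(21,0),(2,0),(3,0),(7,1)]⟩),.k,
  ⟨false,1,⟨1,[(6,1),(1,1),(12,0),(18,0)]⟩,⟨1,[(0,1),(2,0),(13,0),(4,0),(7,1)]⟩⟩,⟨true,0,⟨0,[(11,0),
  (11,0)]⟩,⟨1,[(22,0),(2,0),(3,0)]⟩⟩,⟨true,0,⟨0,[(38,0)]⟩,⟨0,[(37,0)]⟩⟩,⟨false,0,⟨0,[(0,0)]⟩,⟨15,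
  [(2,7),(14,7),(2,0),(0,4),(0,3),(10,1),(6,7)]⟩⟩,⟨false,1,⟨3,[(20,0),(0,0),(18,1)]⟩,⟨0,[]⟩⟩,⟨true,
  0,⟨0,[(0,0),(36,0)]⟩,⟨0,[(2,0)]⟩⟩,[]⟩)) (.R ⟨1,true,false,false,[1,0,-1],[0,0,0,1],[0,0,0,-1,0,0,
  0,-1],(⟨0,[(30,0)]⟩,⟨0,[(31,0)]⟩),(⟨0,[(22,0)]⟩,⟨1,[(21,0),(8,0),(0,0)]⟩),⟨0,[(15,0)]⟩,.k,.k,.k,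
  .k,(.r (-1) ⟨1,[(5,1),(1,1),(11,0),(19,0)]⟩ ⟨0,[(0,0),(1,1),(0,0),(2,1),(3,1),(4,1),(6,0),(1,0),
  (9,3)]⟩),.k,⟨false,1,⟨1,[(5,1),(1,1),(11,0),(19,0)]⟩,⟨2,[(0,1),(1,1),(0,0),(4,0),(13,1),(12,0)]⟩⟩,
  ⟨true,0,⟨1,[(10,1),(10,0),(8,0),(0,0)]⟩,⟨0,[(22,0),(1,0)]⟩⟩,⟨true,0,⟨0,[(37,0)]⟩,⟨0,[(36,0)]⟩⟩,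
  ⟨false,0,⟨0,[(0,0)]⟩,⟨3,[(4,1),(11,1),(2,0),(2,1),(9,0),(6,1)]⟩⟩,⟨false,1,⟨3,[(19,0),(0,0),(18,
  1)]⟩,⟨0,[]⟩⟩,⟨true,0,⟨0,[(0,0),(35,0)]⟩,⟨0,[(4,0)]⟩⟩,[]⟩)) (.I [0,0,-1,-1,0,0,0,0,-1] (.R ⟨1,
  false,false,true,[1,0,0,-1],[1,-1,-1],[1,1,0,0,0,0,0,0,-1],(⟨1,[(21,0),(8,0),(0,0)]⟩,⟨0,[(22,
  0)]⟩),(⟨0,[(15,0)]⟩,⟨0,[(31,0),(2,0)]⟩),⟨1,[(6,0),(8,0),(5,0)]⟩,.k,.k,(.r 0 ⟨0,[(0,0)]⟩ ⟨3,[(8,1),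
  (7,1),(2,0),(0,1),(6,1),(11,0)]⟩),(.r 0 ⟨5,[(1,4),(2,0),(16,2),(2,1),(0,1),(2,3),(7,1)]⟩ ⟨1,[(5,
  1),(1,1),(12,0),(18,0)]⟩),.k,.k,⟨false,0,⟨3,[(1,2),(0,0),(1,0),(11,0),(4,1),(7,3)]⟩,⟨1,[(5,1),(1,
  1),(12,0),(18,0)]⟩⟩,⟨true,0,⟨1,[(21,0),(2,0),(3,0)]⟩,⟨0,[(10,0),(11,0)]⟩⟩,⟨false,0,⟨0,[]⟩,⟨3,[(19,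
  0),(0,0),(18,1)]⟩⟩,⟨false,1,⟨1,[(20,0),(0,0),(1,0),(2,0),(10,1),(1,0)]⟩,⟨0,[(1,0)]⟩⟩,⟨true,0,⟨0,
  [(36,0)]⟩,⟨0,[(37,0)]⟩⟩,⟨false,1,⟨1,[(20,0),(0,0),(1,0),(2,0),(12,0)]⟩,⟨0,[(1,0),(35,0)]⟩⟩,[.o
  ⟨false,0,⟨0,[(23,0),(13,0)]⟩,⟨3,[(9,3),(9,0),(0,0),(18,1)]⟩⟩,.o ⟨false,1,⟨15,[(5,3),(8,7),(4,2),
  (0,2),(3,15),(14,1)]⟩,⟨0,[(9,0)]⟩⟩,.a ⟨true,0,⟨0,[(22,0)]⟩,⟨1,[(21,0),(8,0),(0,0)]⟩⟩ ⟨false,0,⟨1,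
  [(1,0),(2,0),(16,0)]⟩,⟨1,[(20,0),(18,0)]⟩⟩ ⟨true,0,⟨1,[(21,0),(1,0),(2,0),(10,1)]⟩,⟨0,[(9,0),(12,
  0)]⟩⟩,.o ⟨false,0,⟨0,[(11,0),(10,0)]⟩,⟨7,[(19,0),(0,0),(0,3),(10,1),(5,3)]⟩⟩]⟩) (.R ⟨1,false,
  false,false,[1,0,0,-1],[0,0,1],[1,1,0,0,0,0,0,0,-1],(⟨1,[(21,0),(8,0),(0,0)]⟩,⟨0,[(22,0)]⟩),(⟨0,
  [(31,0)]⟩,⟨0,[(30,0)]⟩),⟨1,[(6,0),(8,0),(5,0)]⟩,.k,.k,(.x 0 ⟨1,[(6,0),(8,0),(8,0),(2,0)]⟩ ⟨3,[(19,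
  0),(0,0),(13,3),(3,1)]⟩),.k,(.r (-1) ⟨7,[(1,0),(2,0),(0,1),(8,3),(4,2),(1,0),(17,0)]⟩ ⟨1,[(0,3),
  (0,1),(0,1),(0,3),(1,3),(0,0),(0,1),(7,0),(5,0),(12,1)]⟩),.k,⟨false,0,⟨3,[(1,2),(0,0),(1,0),(0,3),
  (1,3),(8,0),(4,1)]⟩,⟨11,[(3,3),(4,3),(10,0),(0,4),(17,1),(0,3)]⟩⟩,⟨true,0,⟨1,[(10,1),(10,0),(8,0),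
  (0,0)]⟩,⟨0,[(22,0),(1,0)]⟩⟩,⟨false,0,⟨0,[]⟩,⟨3,[(19,0),(0,0),(18,1)]⟩⟩,⟨true,0,⟨1,[(0,1),(6,1),(2,
  1),(10,0),(8,0),(0,0)]⟩,⟨3,[(1,0),(0,0),(1,2),(11,0)]⟩⟩,⟨true,0,⟨0,[(36,0)]⟩,⟨0,[(37,0)]⟩⟩,⟨true,
  0,⟨0,[(0,1),(0,0),(3,0),(1,1),(13,0)]⟩,⟨0,[(4,0)]⟩⟩,[.o ⟨false,0,⟨0,[(12,0)]⟩,⟨1,[(26,1),(5,0),(6,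
  0)]⟩⟩,.o ⟨false,1,⟨7,[(18,3),(0,0),(0,0),(11,1),(6,3)]⟩,⟨0,[(23,0)]⟩⟩,.a ⟨true,0,⟨0,[(22,0)]⟩,⟨1,
  [(21,0),(8,0),(0,0)]⟩⟩ ⟨false,0,⟨1,[(1,0),(2,0),(16,0)]⟩,⟨1,[(20,0),(18,0)]⟩⟩ ⟨true,0,⟨1,[(18,0),
  (2,0)]⟩,⟨0,[(22,0),(0,0)]⟩⟩,.o ⟨false,0,⟨0,[(11,0),(10,0)]⟩,⟨7,[(19,0),(0,0),(0,3),(10,1),(5,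
  3)]⟩⟩]⟩)))) (.Q [0,-1,0,-1,0,0,1,1,0,1,-1] (.p false [0,0,1] [1] (⟨0,[(28,0)]⟩,⟨0,[(27,0)]⟩) .k 1
  (⟨0,[]⟩,⟨0,[]⟩) .k .k) (.R ⟨2,true,false,true,[0,1],[1,1,-1],[1,1,1,1],(⟨0,[]⟩,⟨0,[]⟩),(⟨0,[(28,
  0),(3,0)]⟩,⟨0,[(4,0)]⟩),⟨0,[]⟩,.k,.k,.k,.k,.k,.k,⟨true,0,⟨0,[(27,0)]⟩,⟨0,[(0,0),(0,0),(20,0)]⟩⟩,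
  ⟨false,1,⟨0,[(22,0),(13,0)]⟩,⟨1,[(0,0),(2,0),(11,0)]⟩⟩,⟨false,0,⟨0,[]⟩,⟨3,[(17,0),(0,0),(18,1)]⟩⟩,
  ⟨true,0,⟨0,[(21,0)]⟩,⟨2,[(0,0),(14,0),(0,0),(7,0)]⟩⟩,⟨true,0,⟨0,[(34,0)]⟩,⟨0,[(35,0)]⟩⟩,⟨false,1,
  ⟨1,[(14,1),(15,0),(6,0)]⟩,⟨0,[(0,0)]⟩⟩,[]⟩) (.Q [0,1,0,-1,0,0,-1,-1,1,0,1,-1] (.p true [0,0,1] [0,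
  0,0,1] (⟨0,[(29,0)]⟩,⟨0,[(28,0)]⟩) .k 2 (⟨0,[(20,0)]⟩,⟨1,[(19,0),(8,0),(0,0)]⟩) .k (.x 0 ⟨0,[(8,
  0),(20,0)]⟩ ⟨3,[(17,0),(0,0),(3,3),(5,3),(7,1)]⟩)) (.I [0,0,1,1,0,0,0,0,1] (.Q [0,0,0,0,0,0,0,0,1,
  0,0,-1] (.p false [0,0,0,1] [] (⟨0,[(22,0)]⟩,⟨1,[(21,0),(8,0),(0,0)]⟩) .k 0 (⟨0,[]⟩,⟨0,[]⟩) .k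
  .k) (.Q [0,-1,0,0,1,0,-1,-1,-1,-1,1,1] (.p true [0,0,1] [1,0,0,-1] (⟨0,[(32,0)]⟩,⟨0,[(31,0)]⟩) .k
  2 (⟨1,[(22,0),(8,0),(0,0)]⟩,⟨0,[(23,0)]⟩) .k (.r 0 ⟨1,[(0,0),(7,0),(0,0),(13,0)]⟩ ⟨7,[(6,3),(13,
  4),(0,0),(18,1)]⟩)) (.R ⟨1,false,false,true,[1,0,0,-1],[0,0,1],[1,1,0,0,0,0,0,0,-1],(⟨1,[(23,0),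
  (8,0),(0,0)]⟩,⟨0,[(24,0)]⟩),(⟨0,[(33,0)]⟩,⟨0,[(32,0)]⟩),⟨1,[(8,0),(8,0),(5,0)]⟩,.k,.k,(.r (-1)
  ⟨11,[(9,3),(6,3),(4,6),(0,0)]⟩ ⟨0,[(2,0)]⟩),.k,(.r (-1) ⟨13,[(0,3),(4,1),(0,1),(2,1),(2,5),(3,5),
  (4,3),(1,2),(8,2),(0,2)]⟩ ⟨1,[(2,1),(5,0),(0,0),(1,0),(5,0),(8,0),(9,1)]⟩),.k,⟨false,1,⟨1,[(5,1),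
  (3,1),(11,0),(19,0)]⟩,⟨1,[(1,0),(7,0),(0,0),(13,0)]⟩⟩,⟨true,0,⟨1,[(12,1),(10,0),(8,0),(0,0)]⟩,⟨0,
  [(24,0),(1,0)]⟩⟩,⟨false,0,⟨0,[]⟩,⟨3,[(21,0),(0,0),(18,1)]⟩⟩,⟨false,0,⟨1,[(1,1),(18,0),(11,0),(0,
  0)]⟩,⟨0,[(0,0)]⟩⟩,⟨true,0,⟨0,[(38,0)]⟩,⟨0,[(39,0)]⟩⟩,⟨false,0,⟨0,[(1,0),(17,0)]⟩,⟨0,[(6,0),(34,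
  0)]⟩⟩,[.o ⟨false,0,⟨0,[(27,0)]⟩,⟨0,[(0,0),(0,0)]⟩⟩,.o ⟨false,0,⟨0,[(14,0)]⟩,⟨31,[(0,15),(2,7),(14,
  7),(2,0),(0,4),(0,3),(10,9)]⟩⟩,.a ⟨true,0,⟨0,[(24,0)]⟩,⟨1,[(23,0),(8,0),(0,0)]⟩⟩ ⟨true,0,⟨1,[(6,
  1),(4,0),(7,0),(3,0)]⟩,⟨0,[(1,0),(22,0)]⟩⟩ ⟨false,0,⟨1,[(20,0),(2,0)]⟩,⟨0,[(0,0),(0,0),(22,0)]⟩⟩,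
  .o ⟨false,0,⟨0,[(13,0),(10,0)]⟩,⟨7,[(21,0),(0,0),(0,3),(10,1),(5,3)]⟩⟩]⟩) (.R ⟨1,true,false,false,
  [1,0,-1],[0,0,0,1],[0,0,0,-1,0,0,0,-1],(⟨0,[(32,0)]⟩,⟨0,[(33,0)]⟩),(⟨0,[(24,0)]⟩,⟨1,[(23,0),(8,0),
  (0,0)]⟩),⟨0,[(17,0)]⟩,.k,.k,.k,.k,(.r (-1) ⟨5,[(5,1),(0,1),(2,1),(2,1),(3,1),(4,1),(1,0),(8,0),(0,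
  0),(7,1)]⟩ ⟨1,[(0,1),(3,1),(3,2),(0,0),(1,0),(0,1),(4,2),(6,1),(1,2),(9,5),(4,1)]⟩),.k,⟨false,1,
  ⟨5,[(5,1),(0,1),(2,1),(2,1),(3,1),(4,1),(1,0),(8,0),(0,0),(7,1)]⟩,⟨0,[(0,0),(3,0),(19,0),(6,0),(9,
  0)]⟩⟩,⟨true,0,⟨1,[(12,1),(10,0),(8,0),(0,0)]⟩,⟨0,[(24,0),(1,0)]⟩⟩,⟨true,0,⟨0,[(39,0)]⟩,⟨0,[(38,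
  0)]⟩⟩,⟨false,0,⟨0,[(0,0),(40,0)]⟩,⟨3,[(6,1),(11,1),(2,0),(2,1),(9,0),(6,1)]⟩⟩,⟨false,1,⟨3,[(21,0),
  (0,0),(18,1)]⟩,⟨0,[]⟩⟩,⟨true,0,⟨0,[(1,0),(17,0)]⟩,⟨0,[(6,0)]⟩⟩,[]⟩)) (.Q [0,0,0,-1,0,0,0,0,1,0,0,
  -1] (.p false [0,0,0,1] [] (⟨0,[(23,0)]⟩,⟨1,[(22,0),(8,0),(0,0)]⟩) .k 0 (⟨0,[]⟩,⟨0,[]⟩) .k .k)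
  (.R ⟨2,true,false,false,[0,1],[0,0,0,1],[0,1,1],(⟨0,[]⟩,⟨0,[]⟩),(⟨0,[(24,0)]⟩,⟨1,[(23,0),(8,0),(0,
  0)]⟩),⟨0,[]⟩,.k,.k,.k,(.x (-1) ⟨3,[(21,0),(0,0),(13,3),(3,1)]⟩ ⟨1,[(8,0),(8,0),(8,0),(2,0)]⟩),.k,
  .k,⟨false,0,⟨3,[(1,1),(4,1),(4,0),(11,1),(3,0),(10,0)]⟩,⟨0,[(0,0),(23,0),(12,0),(3,0)]⟩⟩,⟨true,0,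
  ⟨1,[(23,0),(2,0),(2,0)]⟩,⟨0,[(24,0)]⟩⟩,⟨false,0,⟨0,[(39,0)]⟩,⟨0,[(38,0),(2,0)]⟩⟩,⟨true,0,⟨0,[(0,
  0)]⟩,⟨0,[(1,0),(36,0)]⟩⟩,⟨true,0,⟨0,[(43,0)]⟩,⟨0,[]⟩⟩,⟨false,1,⟨11,[(0,3),(3,1),(6,1),(10,3),(0,
  3),(10,0),(6,6)]⟩,⟨0,[(1,0)]⟩⟩,[]⟩) (.I [1,0,0,1,0,0,0,0,-1] (.Q [0,1,0,0,0,0,-1,-1,1,0,1,-1] (.p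
  true [0,0,1] [0,0,0,1] (⟨0,[(34,0)]⟩,⟨0,[(33,0)]⟩) .k 2 (⟨0,[(25,0)]⟩,⟨1,[(24,0),(8,0),(0,0)]⟩)
  .k (.r 0 ⟨3,[(0,1),(1,1),(7,0),(5,0),(7,0),(2,0),(4,1)]⟩ ⟨7,[(8,3),(13,0),(0,4),(18,1)]⟩)) (.R ⟨1,
  false,false,true,[1,0,0,-1],[1,-1,-1],[1,1,0,0,0,0,0,0,-1],(⟨1,[(25,0),(8,0),(0,0)]⟩,⟨0,[(26,
  0)]⟩),(⟨0,[(19,0)]⟩,⟨0,[(35,0),(2,0)]⟩),⟨1,[(10,0),(8,0),(5,0)]⟩,.k,.k,(.r (-1) ⟨11,[(11,3),(6,3),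
  (4,6),(0,0)]⟩ ⟨0,[(4,0)]⟩),(.r 0 ⟨1,[(1,1),(20,0),(5,0),(3,0)]⟩ ⟨0,[(4,0),(13,0)]⟩),.k,.k,⟨false,
  0,⟨0,[(1,0),(31,0)]⟩,⟨0,[(4,0),(13,0)]⟩⟩,⟨true,0,⟨1,[(25,0),(2,0),(3,0)]⟩,⟨0,[(14,0),(11,0)]⟩⟩,
  ⟨false,0,⟨0,[]⟩,⟨3,[(23,0),(0,0),(18,1)]⟩⟩,⟨true,0,⟨0,[(5,0)]⟩,⟨0,[(3,0),(9,0)]⟩⟩,⟨true,0,⟨0,[(40,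
  0)]⟩,⟨0,[(41,0)]⟩⟩,⟨true,0,⟨0,[(0,0)]⟩,⟨0,[(3,0),(12,0)]⟩⟩,[.o ⟨false,0,⟨0,[(27,0),(13,0)]⟩,⟨3,
  [(13,3),(9,0),(0,0),(18,1)]⟩⟩,.o ⟨false,1,⟨7,[(5,3),(2,3),(14,0),(0,0),(11,1),(6,3)]⟩,⟨0,[(13,
  0)]⟩⟩,.a ⟨true,0,⟨0,[(26,0)]⟩,⟨1,[(25,0),(8,0),(0,0)]⟩⟩ ⟨false,0,⟨0,[(1,0),(39,0)]⟩,⟨1,[(24,0),
  (18,0)]⟩⟩ ⟨true,0,⟨1,[(5,0),(2,0),(16,0)]⟩,⟨0,[(13,0),(12,0)]⟩⟩,.o ⟨false,0,⟨0,[(15,0),(10,0)]⟩,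
  ⟨7,[(23,0),(0,0),(0,3),(10,1),(5,3)]⟩⟩]⟩) (.R ⟨1,true,false,false,[1,0,-1],[1,0,0,-1],[0,0,0,-1,0,
  0,0,-1],(⟨0,[(34,0)]⟩,⟨0,[(35,0)]⟩),(⟨1,[(25,0),(8,0),(0,0)]⟩,⟨0,[(26,0)]⟩),⟨0,[(19,0)]⟩,.k,.k,.k,
  .k,(.r (-1) ⟨0,[(4,0),(13,0)]⟩ ⟨1,[(1,1),(20,0),(5,0),(3,0)]⟩),.k,⟨false,1,⟨0,[(4,0),(13,0)]⟩,⟨0,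
  [(1,0),(31,0)]⟩⟩,⟨true,0,⟨0,[(14,0),(11,0)]⟩,⟨1,[(25,0),(2,0),(3,0)]⟩⟩,⟨true,0,⟨0,[(41,0)]⟩,⟨0,
  [(40,0)]⟩⟩,⟨false,0,⟨0,[(0,0)]⟩,⟨15,[(5,7),(14,7),(2,0),(0,4),(0,3),(10,1),(6,7)]⟩⟩,⟨false,1,⟨3,
  [(23,0),(0,0),(18,1)]⟩,⟨0,[]⟩⟩,⟨true,0,⟨2,[(0,0),(1,1),(10,0),(15,0)]⟩,⟨0,[(5,0)]⟩⟩,[]⟩)) (.Q [0,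
  0,0,-1,0,0,0,0,0,0,0,-1] (.p false [0,0,0,1] [] (⟨0,[(25,0)]⟩,⟨1,[(24,0),(8,0),(0,0)]⟩) .k 0 (⟨0,
  []⟩,⟨0,[]⟩) .k .k) (.R ⟨1,false,false,true,[1,0,0,-1],[1,-1,-1],[1,1,0,0,0,0,0,0,-1],(⟨1,[(25,0),
  (8,0),(0,0)]⟩,⟨0,[(26,0)]⟩),(⟨0,[(19,0)]⟩,⟨0,[(35,0),(2,0)]⟩),⟨1,[(10,0),(8,0),(5,0)]⟩,.k,.k,(.r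
  (-1) ⟨11,[(11,3),(6,3),(4,6),(0,0)]⟩ ⟨0,[(4,0)]⟩),(.r 0 ⟨1,[(2,1),(19,0),(2,0),(2,1)]⟩ ⟨7,[(1,1),
  (5,1),(10,3),(5,2),(18,0)]⟩),.k,.k,⟨false,0,⟨1,[(2,1),(8,0),(1,0),(11,0),(2,0)]⟩,⟨7,[(1,1),(5,1),
  (10,3),(5,2),(18,0)]⟩⟩,⟨true,0,⟨1,[(25,0),(2,0),(3,0)]⟩,⟨0,[(14,0),(11,0)]⟩⟩,⟨false,0,⟨0,[]⟩,⟨3,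
  [(23,0),(0,0),(18,1)]⟩⟩,⟨true,0,⟨0,[(5,0)]⟩,⟨0,[(3,0),(9,0)]⟩⟩,⟨true,0,⟨0,[(40,0)]⟩,⟨0,[(41,0)]⟩⟩,
  ⟨true,0,⟨1,[(1,1),(4,0),(13,0),(4,0)]⟩,⟨0,[(3,0),(12,0)]⟩⟩,[.o ⟨false,0,⟨2,[(0,0),(0,0),(6,0),(18,
  1)]⟩,⟨3,[(13,3),(9,0),(0,0),(18,1)]⟩⟩,.o ⟨false,1,⟨7,[(5,3),(2,3),(14,0),(0,0),(11,1),(6,3)]⟩,⟨0,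
  [(13,0)]⟩⟩,.a ⟨true,0,⟨0,[(26,0)]⟩,⟨1,[(25,0),(8,0),(0,0)]⟩⟩ ⟨false,0,⟨0,[(0,0),(1,0)]⟩,⟨1,[(24,
  0),(18,0)]⟩⟩ ⟨true,0,⟨1,[(5,0),(2,0),(16,0)]⟩,⟨0,[(13,0),(12,0)]⟩⟩,.o ⟨false,0,⟨0,[(15,0),(10,
  0)]⟩,⟨7,[(23,0),(0,0),(0,3),(10,1),(5,3)]⟩⟩]⟩) (.R ⟨1,false,false,false,[1,0,-1],[0,0,0,1],[1,0,0,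
  0,0,0,0,-1],(⟨0,[(34,0)]⟩,⟨0,[(35,0)]⟩),(⟨0,[(26,0)]⟩,⟨1,[(25,0),(8,0),(0,0)]⟩),⟨0,[(19,0)]⟩,.k,
  .k,.k,.k,(.r (-1) ⟨5,[(3,0),(3,0),(0,0),(5,0),(3,2),(4,1),(1,0),(17,0)]⟩ ⟨0,[(0,3),(0,0),(9,0),(2,
  1),(10,1),(2,1),(12,0)]⟩),.k,⟨false,1,⟨13,[(2,7),(4,3),(10,5),(4,2),(1,3),(10,1),(5,0),(0,1)]⟩,⟨0,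
  [(4,0),(6,0)]⟩⟩,⟨true,0,⟨1,[(14,1),(10,0),(8,0),(0,0)]⟩,⟨0,[(26,0),(1,0)]⟩⟩,⟨true,0,⟨0,[]⟩,⟨0,
  [(45,0)]⟩⟩,⟨true,0,⟨1,[(1,1),(11,0),(7,0),(3,0)]⟩,⟨2,[(2,0),(3,0),(1,1)]⟩⟩,⟨false,1,⟨0,[(40,0),(2,
  0)]⟩,⟨0,[(41,0)]⟩⟩,⟨true,0,⟨0,[(0,0),(0,0),(11,0),(11,0)]⟩,⟨0,[(8,0)]⟩⟩,[.a ⟨true,0,⟨0,[(0,0),(0,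
  0),(23,0)]⟩,⟨0,[(3,0)]⟩⟩ ⟨false,1,⟨19,[(7,7),(10,3),(4,2),(0,2),(17,5),(0,3)]⟩,⟨0,[(33,0)]⟩⟩
  ⟨true,0,⟨0,[(0,0),(0,0),(12,0),(10,0)]⟩,⟨0,[(3,0),(24,0)]⟩⟩,.o ⟨false,1,⟨7,[(1,3),(4,1),(6,1),(10,
  1),(0,3),(10,0),(6,4)]⟩,⟨0,[(8,0),(4,0)]⟩⟩,.o ⟨false,1,⟨3,[(23,0),(0,0),(3,3),(13,1)]⟩,⟨0,[(14,
  0)]⟩⟩,.o ⟨false,0,⟨0,[(28,0)]⟩,⟨39,[(7,15),(10,7),(3,19),(0,0),(0,0),(11,9),(5,11),(0,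
  7)]⟩⟩]⟩))))) (.Q [0,1,0,0,0,0,-1,-1,1,0,1,-1] (.p true [0,0,1] [0,0,0,1] (⟨0,[(31,0)]⟩,⟨0,[(30,
  0)]⟩) .k 2 (⟨0,[(22,0)]⟩,⟨1,[(21,0),(8,0),(0,0)]⟩) .k (.r 0 ⟨0,[(0,0),(16,0),(6,0)]⟩ ⟨7,[(5,3),
  (13,0),(0,4),(18,1)]⟩)) (.Q [0,0,0,1,0,0,1,1,1,1,-1,-1] (.p false [0,0,1] [1,0,0,-1] (⟨0,[(32,
  0)]⟩,⟨0,[(31,0)]⟩) .k 2 (⟨1,[(22,0),(8,0),(0,0)]⟩,⟨0,[(23,0)]⟩) .k (.x 0 ⟨0,[(11,0),(20,0)]⟩ ⟨3,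
  [(20,0),(0,0),(3,3),(5,3),(7,1)]⟩)) (.R ⟨1,false,false,false,[1,0,0,-1],[0,0,1],[0,1,0,-1,0,0,0,0,
  -1],(⟨1,[(23,0),(8,0),(0,0)]⟩,⟨0,[(24,0)]⟩),(⟨0,[(33,0)]⟩,⟨0,[(32,0)]⟩),⟨1,[(8,0),(8,0),(5,0)]⟩,
  .k,.k,(.x 0 ⟨1,[(8,0),(8,0),(8,0),(2,0)]⟩ ⟨3,[(21,0),(0,0),(13,3),(3,1)]⟩),.k,(.r (-1) ⟨6,[(2,0),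
  (4,1),(8,2),(4,2),(19,0)]⟩ ⟨0,[(0,0),(23,0),(1,0)]⟩),.k,⟨false,0,⟨1,[(2,1),(4,0),(35,0)]⟩,⟨1,[(10,
  1),(29,0),(0,0)]⟩⟩,⟨true,0,⟨1,[(12,1),(10,0),(8,0),(0,0)]⟩,⟨0,[(24,0),(1,0)]⟩⟩,⟨false,0,⟨0,[(39,
  0)]⟩,⟨0,[(38,0),(2,0)]⟩⟩,⟨true,0,⟨0,[(0,0),(38,0)]⟩,⟨2,[(2,1),(2,0),(0,0),(4,0),(6,0),(5,1),(1,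
  1)]⟩⟩,⟨true,0,⟨0,[(43,0)]⟩,⟨0,[]⟩⟩,⟨true,0,⟨0,[(0,0)]⟩,⟨0,[(6,0)]⟩⟩,[.o ⟨false,0,⟨0,[(14,0)]⟩,⟨1,
  [(28,1),(5,0),(6,0)]⟩⟩,.o ⟨false,1,⟨7,[(20,3),(0,0),(0,0),(11,1),(6,3)]⟩,⟨0,[(25,0)]⟩⟩,.a ⟨true,0,
  ⟨0,[(24,0)]⟩,⟨1,[(23,0),(8,0),(0,0)]⟩⟩ ⟨false,0,⟨1,[(2,1),(26,0),(0,0)]⟩,⟨3,[(0,1),(3,1),(17,0),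
  (1,1),(16,2)]⟩⟩ ⟨true,0,⟨1,[(20,0),(2,0)]⟩,⟨0,[(24,0),(0,0)]⟩⟩,.o ⟨false,0,⟨0,[(13,0),(10,0)]⟩,⟨7,
  [(21,0),(0,0),(0,3),(10,1),(5,3)]⟩⟩]⟩) (.R ⟨1,false,false,true,[1,0,0,-1],[1,-1,-1],[0,1,0,-1,0,0,
  0,0,-1],(⟨1,[(23,0),(8,0),(0,0)]⟩,⟨0,[(24,0)]⟩),(⟨0,[(17,0)]⟩,⟨0,[(33,0),(2,0)]⟩),⟨1,[(8,0),(8,0),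
  (5,0)]⟩,.k,.k,(.x 0 ⟨1,[(8,0),(8,0),(8,0),(2,0)]⟩ ⟨3,[(21,0),(0,0),(13,3),(3,1)]⟩),(.r 0 ⟨1,[(0,
  1),(10,0),(7,2),(3,0),(2,1)]⟩ ⟨3,[(1,1),(10,1),(3,1),(5,0),(1,1),(16,0)]⟩),.k,.k,⟨false,0,⟨0,[(2,
  0),(16,0),(6,0)]⟩,⟨1,[(5,1),(3,1),(12,0),(18,0)]⟩⟩,⟨true,0,⟨1,[(23,0),(2,0),(3,0)]⟩,⟨0,[(12,0),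
  (11,0)]⟩⟩,⟨false,0,⟨0,[(39,0)]⟩,⟨0,[(38,0),(2,0)]⟩⟩,⟨true,0,⟨0,[(3,0)]⟩,⟨0,[(0,0),(10,0),(7,0)]⟩⟩,
  ⟨true,0,⟨0,[(43,0)]⟩,⟨0,[]⟩⟩,⟨true,0,⟨0,[(1,0)]⟩,⟨1,[(0,1),(10,0),(7,0),(0,0)]⟩⟩,[.o ⟨false,0,⟨2,
  [(0,0),(2,0),(11,0),(9,1)]⟩,⟨3,[(11,3),(9,0),(0,0),(18,1)]⟩⟩,.o ⟨false,1,⟨7,[(3,3),(2,3),(14,0),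
  (0,0),(11,1),(6,3)]⟩,⟨0,[(11,0)]⟩⟩,.a ⟨true,0,⟨0,[(24,0)]⟩,⟨1,[(23,0),(8,0),(0,0)]⟩⟩ ⟨false,0,⟨1,
  [(0,1),(19,0),(2,0)]⟩,⟨1,[(1,0),(8,0),(1,0),(11,0),(12,0),(3,1)]⟩⟩ ⟨true,0,⟨1,[(3,0),(2,0),(16,
  0)]⟩,⟨0,[(11,0),(12,0)]⟩⟩,.o ⟨false,0,⟨0,[(13,0),(10,0)]⟩,⟨7,[(21,0),(0,0),(0,3),(10,1),(5,
  3)]⟩⟩]⟩)) (.R ⟨1,true,false,false,[1,0,-1],[1,0,0,-1],[0,0,0,-1,0,0,0,-1],(⟨0,[(31,0)]⟩,⟨0,[(32,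
  0)]⟩),(⟨1,[(22,0),(8,0),(0,0)]⟩,⟨0,[(23,0)]⟩),⟨0,[(16,0)]⟩,.k,.k,.k,.k,(.r (-1) ⟨2,[(2,0),(1,0),
  (3,0),(2,0),(3,0),(5,0),(1,0),(16,0)]⟩ ⟨1,[(0,1),(21,0),(2,0),(3,0),(7,1)]⟩),.k,⟨false,1,⟨2,[(2,
  0),(1,0),(3,0),(2,0),(3,0),(5,0),(1,0),(16,0)]⟩,⟨1,[(0,1),(2,0),(13,0),(4,0),(7,1)]⟩⟩,⟨true,0,⟨0,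
  [(11,0),(11,0)]⟩,⟨1,[(22,0),(2,0),(3,0)]⟩⟩,⟨true,0,⟨0,[(38,0)]⟩,⟨0,[(37,0)]⟩⟩,⟨false,0,⟨0,[(0,
  0)]⟩,⟨15,[(2,7),(14,7),(2,0),(0,4),(0,3),(10,1),(6,7)]⟩⟩,⟨false,1,⟨3,[(20,0),(0,0),(18,1)]⟩,⟨0,
  []⟩⟩,⟨true,0,⟨0,[(0,0),(36,0)]⟩,⟨0,[(2,0)]⟩⟩,[]⟩))) (.I [0,0,-1,-1,0,0,0,0,-1] (.R ⟨1,false,false,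
  true,[1,0,0,-1],[1,-1,-1],[1,1,0,0,0,0,0,0,-1],(⟨1,[(21,0),(8,0),(0,0)]⟩,⟨0,[(22,0)]⟩),(⟨0,[(15,
  0)]⟩,⟨0,[(31,0),(2,0)]⟩),⟨1,[(6,0),(8,0),(5,0)]⟩,.k,.k,(.r 0 ⟨0,[(0,0)]⟩ ⟨5,[(3,1),(4,3),(10,1),
  (0,2),(6,0),(0,0),(10,0)]⟩),(.r 0 ⟨5,[(1,4),(2,0),(16,2),(2,1),(0,1),(2,3),(7,1)]⟩ ⟨1,[(5,1),(1,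
  1),(12,0),(18,0)]⟩),.k,.k,⟨false,0,⟨3,[(1,2),(0,0),(1,0),(11,0),(4,1),(7,3)]⟩,⟨1,[(5,1),(1,1),(12,
  0),(18,0)]⟩⟩,⟨true,0,⟨1,[(21,0),(2,0),(3,0)]⟩,⟨0,[(10,0),(11,0)]⟩⟩,⟨false,0,⟨0,[]⟩,⟨3,[(19,0),(0,
  0),(18,1)]⟩⟩,⟨false,1,⟨1,[(20,0),(0,0),(1,0),(2,0),(10,1),(1,0)]⟩,⟨0,[(1,0)]⟩⟩,⟨true,0,⟨0,[(36,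
  0)]⟩,⟨0,[(37,0)]⟩⟩,⟨false,1,⟨1,[(20,0),(0,0),(1,0),(2,0),(12,0)]⟩,⟨0,[(1,0),(35,0)]⟩⟩,[.o ⟨false,
  0,⟨0,[(23,0),(13,0)]⟩,⟨3,[(9,3),(9,0),(0,0),(18,1)]⟩⟩,.o ⟨false,1,⟨15,[(5,3),(8,7),(4,2),(0,2),(3,
  15),(14,1)]⟩,⟨0,[(9,0)]⟩⟩,.a ⟨true,0,⟨0,[(22,0)]⟩,⟨1,[(21,0),(8,0),(0,0)]⟩⟩ ⟨false,0,⟨1,[(1,0),(2,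
  0),(16,0)]⟩,⟨1,[(20,0),(18,0)]⟩⟩ ⟨true,0,⟨1,[(21,0),(1,0),(2,0),(10,1)]⟩,⟨0,[(9,0),(12,0)]⟩⟩,.o
  ⟨false,0,⟨0,[(11,0),(10,0)]⟩,⟨7,[(19,0),(0,0),(0,3),(10,1),(5,3)]⟩⟩]⟩) (.R ⟨1,false,false,false,
  [1,0,0,-1],[0,0,1],[1,1,0,0,0,0,0,0,-1],(⟨1,[(21,0),(8,0),(0,0)]⟩,⟨0,[(22,0)]⟩),(⟨0,[(31,0)]⟩,⟨0,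
  [(30,0)]⟩),⟨1,[(6,0),(8,0),(5,0)]⟩,.k,.k,(.x 0 ⟨1,[(6,0),(8,0),(8,0),(2,0)]⟩ ⟨3,[(19,0),(0,0),(13,
  3),(3,1)]⟩),.k,(.r (-1) ⟨7,[(1,0),(2,0),(0,1),(8,3),(4,2),(1,0),(17,0)]⟩ ⟨1,[(0,3),(0,1),(3,1),(0,
  0),(0,3),(7,0),(5,0),(2,1),(9,1)]⟩),.k,⟨false,0,⟨1,[(1,0),(1,1),(0,0),(2,1),(13,0)]⟩,⟨1,[(20,0),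
  (8,1),(9,0)]⟩⟩,⟨true,0,⟨1,[(10,1),(10,0),(8,0),(0,0)]⟩,⟨0,[(22,0),(1,0)]⟩⟩,⟨false,0,⟨0,[]⟩,⟨3,
  [(19,0),(0,0),(18,1)]⟩⟩,⟨true,0,⟨1,[(0,1),(6,1),(2,1),(10,0),(8,0),(0,0)]⟩,⟨3,[(1,0),(0,0),(1,2),
  (11,0)]⟩⟩,⟨true,0,⟨0,[(36,0)]⟩,⟨0,[(37,0)]⟩⟩,⟨true,0,⟨3,[(0,5),(0,1),(1,1),(3,5),(2,1),(10,2),(8,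
  0),(0,0)]⟩,⟨0,[(4,0)]⟩⟩,[.o ⟨false,0,⟨0,[(12,0)]⟩,⟨1,[(26,1),(5,0),(6,0)]⟩⟩,.o ⟨false,1,⟨7,[(18,
  3),(0,0),(0,0),(11,1),(6,3)]⟩,⟨0,[(23,0)]⟩⟩,.a ⟨true,0,⟨0,[(22,0)]⟩,⟨1,[(21,0),(8,0),(0,0)]⟩⟩
  ⟨false,0,⟨1,[(1,0),(2,0),(16,0)]⟩,⟨1,[(20,0),(18,0)]⟩⟩ ⟨true,0,⟨1,[(18,0),(2,0)]⟩,⟨0,[(22,0),(0,
  0)]⟩⟩,.o ⟨false,0,⟨0,[(11,0),(10,0)]⟩,⟨7,[(19,0),(0,0),(0,3),(10,1),(5,3)]⟩⟩]⟩)))))))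

theorem ok30 : chk (cU (-1) false 3) t30 r22 = true := by decide +kernel

noncomputable def t37 : Tre :=
  (.R ⟨2,true,false,false,[0,1],[0,0,1],[0,1,1],(⟨0,[]⟩,⟨0,[]⟩),(⟨0,[(19,0)]⟩,⟨0,[(18,0)]⟩),⟨0,[]⟩,
  .k,.k,.k,.k,.k,.k,⟨false,0,⟨0,[(0,0),(14,0),(7,0),(1,0)]⟩,⟨1,[(17,1),(8,0),(0,0)]⟩⟩,⟨true,0,⟨0,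
  [(15,0)]⟩,⟨0,[(0,0),(16,0)]⟩⟩,⟨false,0,⟨0,[(25,0)]⟩,⟨0,[(24,0),(2,0)]⟩⟩,⟨true,0,⟨0,[(1,0)]⟩,⟨0,
  [(4,0)]⟩⟩,⟨true,0,⟨0,[(29,0)]⟩,⟨0,[]⟩⟩,⟨false,1,⟨7,[(6,3),(0,0),(0,0),(11,1),(6,3)]⟩,⟨0,[(0,0)]⟩⟩,
  []⟩)

theorem ok37 : chk (cU (-1) false 3) t37 r16 = true := by decide +kernel

noncomputable def t40 : Tre :=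
  (.K ⟨0,[1,-1,-1],0,0,(⟨0,[(4,0)]⟩,⟨0,[(20,0),(2,0)]⟩),.k,(.r (-2) ⟨1,[(15,1),(0,1),(9,3),(0,2),(0,
  0)]⟩ ⟨0,[(1,0)]⟩),.k,.k,.k,[⟨0,[(2,0)]⟩,⟨0,[(0,0)]⟩,⟨0,[(6,0),(23,0)]⟩,⟨0,[(12,0),(13,0)]⟩]⟩)

theorem ok40 : chk (cU (-1) false 3) t40 l25 = true := by decide +kernel

noncomputable def t41 : Tre :=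
  (.R ⟨1,false,false,true,[1,0,-1],[0,1],[1,1,0,0,0,0,0,-1],(⟨0,[(20,0)]⟩,⟨0,[(21,0)]⟩),(⟨0,[(24,
  0)]⟩,⟨0,[(23,0)]⟩),⟨0,[(5,0)]⟩,.k,.k,.k,.k,(.r (-2) ⟨3,[(1,3),(7,0),(0,0),(5,3),(10,7),(0,3),(0,
  1)]⟩ ⟨0,[(2,0)]⟩),.k,⟨true,1,⟨1,[(1,1),(14,1),(10,1),(0,0),(0,0)]⟩,⟨0,[(4,0),(22,0)]⟩⟩,⟨false,1,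
  ⟨0,[(3,0),(24,0)]⟩,⟨0,[(14,0)]⟩⟩,⟨false,0,⟨0,[]⟩,⟨3,[(9,0),(0,0),(18,1)]⟩⟩,⟨false,0,⟨0,[(7,0)]⟩,
  ⟨0,[(13,0),(13,0),(1,0)]⟩⟩,⟨true,0,⟨0,[(26,0)]⟩,⟨0,[(27,0)]⟩⟩,⟨false,0,⟨3,[(0,0),(0,0),(2,0),(2,
  2),(17,1),(3,0)]⟩,⟨0,[(13,0),(13,1),(1,0)]⟩⟩,[.o ⟨false,0,⟨0,[(26,0)]⟩,⟨1,[(22,0),(4,1),(1,0)]⟩⟩,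
  .a ⟨true,0,⟨0,[(0,0)]⟩,⟨0,[(27,0)]⟩⟩ ⟨false,1,⟨1,[(1,1),(14,1),(11,0),(0,0)]⟩,⟨0,[(19,0)]⟩⟩ ⟨true,
  0,⟨0,[(0,0),(0,0)]⟩,⟨0,[(14,0),(12,0)]⟩⟩,.o ⟨false,1,⟨3,[(9,0),(0,0),(3,3),(13,1)]⟩,⟨0,[(1,0)]⟩⟩,
  .o ⟨false,0,⟨0,[(14,0)]⟩,⟨3,[(1,3),(7,0),(0,0),(17,1)]⟩⟩]⟩)

theorem ok41 : chk (cU (-1) false 3) t41 l26 = true := by decide +kernel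

noncomputable def t43 : Tre :=
  (.Q [0,0,0,0,0,1,0,0,0,0,0,-1] (.p false [0,0,0,1] [] (⟨0,[(13,0)]⟩,⟨1,[(12,0),(8,0),(0,0)]⟩) .k
  0 (⟨0,[]⟩,⟨0,[]⟩) .k .k) (.R ⟨0,false,false,true,[0,0,0,1],[0,1],[1,1,1],(⟨0,[(14,0)]⟩,⟨1,[(13,0),
  (8,0),(0,0)]⟩),(⟨0,[(26,0)]⟩,⟨0,[(25,0)]⟩),⟨0,[(0,0)]⟩,.k,.k,(.r (-1) ⟨1,[(12,0),(16,1),(0,0)]⟩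
  ⟨2,[(1,0),(1,0),(2,0),(1,0),(2,0),(19,0)]⟩),(.r (-1) ⟨1,[(12,0),(16,1),(0,0)]⟩ ⟨2,[(1,0),(1,0),(2,
  0),(1,0),(2,0),(19,0)]⟩),.k,.k,⟨true,0,⟨0,[(29,0)]⟩,⟨11,[(6,3),(1,3),(2,0),(0,0),(6,3),(11,1)]⟩⟩,
  ⟨false,1,⟨0,[(14,0),(15,0)]⟩,⟨1,[(13,0),(2,0),(2,0)]⟩⟩,⟨true,(-1),⟨0,[(1,0)]⟩,⟨1,[(12,0),(17,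
  0)]⟩⟩,⟨false,0,⟨0,[(1,0),(12,0),(12,0),(3,0)]⟩,⟨1,[(2,0),(9,0),(0,0),(15,0),(1,0)]⟩⟩,⟨false,0,⟨0,
  []⟩,⟨0,[]⟩⟩,⟨false,0,⟨0,[]⟩,⟨0,[]⟩⟩,[.o ⟨false,0,⟨0,[(28,0)]⟩,⟨1,[(24,0),(4,1),(1,0)]⟩⟩,.o ⟨false,
  1,⟨3,[(11,0),(0,0),(15,3),(2,1)]⟩,⟨0,[(2,0)]⟩⟩,.a ⟨true,0,⟨1,[(13,0),(8,0),(0,0)]⟩,⟨0,[(14,0)]⟩⟩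
  ⟨false,0,⟨1,[(19,0),(0,0)]⟩,⟨1,[(30,0),(0,0)]⟩⟩ ⟨true,0,⟨0,[(14,0),(13,0)]⟩,⟨1,[(2,0),(10,0),(15,
  0)]⟩⟩,.o ⟨false,0,⟨1,[(13,0),(2,0),(2,0)]⟩,⟨1,[(14,1),(9,0),(5,0)]⟩⟩]⟩) (.Q [0,0,0,0,0,0,-1,-1,-1,
  -1,1,1] (.p true [0,0,1] [1,0,0,-1] (⟨0,[(23,0)]⟩,⟨0,[(22,0)]⟩) .k 2 (⟨1,[(13,0),(8,0),(0,0)]⟩,⟨0,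
  [(14,0)]⟩) .k (.x 0 ⟨0,[(3,0),(19,0)]⟩ ⟨3,[(11,0),(0,0),(3,3),(5,3),(7,1)]⟩)) (.R ⟨1,false,false,
  true,[0,0,0,1],[1,-1,-1],[1,0,0,0,0,0,0,0,1],(⟨0,[(15,0)]⟩,⟨1,[(14,0),(8,0),(0,0)]⟩),(⟨0,[(8,0)]⟩,
  ⟨0,[(24,0),(2,0)]⟩),⟨0,[(1,0)]⟩,.k,.k,(.r (-1) ⟨1,[(13,0),(16,1),(0,0)]⟩ ⟨13,[(0,3),(3,1),(1,1),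
  (0,5),(1,1),(2,4),(1,1),(5,1),(11,0)]⟩),(.r 0 ⟨1,[(7,0),(5,0),(8,0)]⟩ ⟨3,[(0,1),(3,2),(1,0),(5,0),
  (1,0),(4,1),(10,3),(0,1),(0,0)]⟩),.k,.k,⟨false,1,⟨1,[(7,0),(5,0),(8,0),(8,0),(0,0)]⟩,⟨1,[(0,1),(3,
  0),(1,0),(7,0),(13,1),(1,3)]⟩⟩,⟨true,0,⟨0,[(15,0),(1,0)]⟩,⟨1,[(4,0),(1,0),(7,0)]⟩⟩,⟨true,0,⟨0,[]⟩,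
  ⟨0,[(34,0)]⟩⟩,⟨false,0,⟨0,[(0,0),(29,0)]⟩,⟨5,[(4,1),(2,1),(2,1),(0,0),(1,2),(0,2),(16,1),(0,2)]⟩⟩,
  ⟨false,1,⟨0,[(29,0),(2,0)]⟩,⟨0,[(30,0)]⟩⟩,⟨false,0,⟨0,[(0,0)]⟩,⟨1,[(11,0),(1,0),(0,0),(17,0)]⟩⟩,
  [.o ⟨false,0,⟨0,[(3,0),(15,0)]⟩,⟨1,[(10,1),(14,0),(6,0)]⟩⟩,.o ⟨false,1,⟨1,[(19,1),(5,0),(4,1),(1,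
  0)]⟩,⟨4,[(3,0),(0,2),(2,2),(3,0),(19,2)]⟩⟩,.a ⟨true,0,⟨1,[(14,0),(8,0),(0,0)]⟩,⟨0,[(15,0)]⟩⟩
  ⟨false,1,⟨1,[(13,0),(18,0)]⟩,⟨1,[(0,1),(10,0),(2,0)]⟩⟩ ⟨true,0,⟨0,[(3,0),(11,0),(3,0)]⟩,⟨5,[(4,1),
  (2,1),(2,1),(0,0),(2,2),(16,1)]⟩⟩,.o ⟨false,0,⟨1,[(14,0),(2,0),(2,0)]⟩,⟨1,[(15,1),(9,0),(5,
  0)]⟩⟩]⟩) (.Q [0,-1,0,0,0,0,0,0,-2,-1,0,2] (.p true [0,0,0,1] [1,0,0,-1] (⟨0,[(15,0)]⟩,⟨1,[(14,0),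
  (8,0),(0,0)]⟩) .k 2 (⟨1,[(14,0),(8,0),(0,0)]⟩,⟨0,[(15,0)]⟩) .k .k) (.R ⟨1,false,false,true,[1,0,0,
  -1],[0,0,0,1],[1,1,0,0,0,0,0,0,-1],(⟨1,[(15,0),(8,0),(0,0)]⟩,⟨0,[(16,0)]⟩),(⟨0,[(16,0)]⟩,⟨1,[(15,
  0),(8,0),(0,0)]⟩),⟨0,[(2,0),(12,0)]⟩,.k,.k,(.x 0 ⟨1,[(2,1),(12,0),(2,0),(2,0)]⟩ ⟨3,[(13,0),(0,0),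
  (13,3),(3,1)]⟩),.k,(.r 0 ⟨0,[(0,0),(14,0),(13,0),(1,1)]⟩ ⟨11,[(8,3),(1,3),(2,0),(0,12),(6,3),(11,
  1)]⟩),.k,⟨false,0,⟨0,[(0,0),(14,0),(13,0),(1,0)]⟩,⟨0,[(14,0)]⟩⟩,⟨true,0,⟨0,[(15,0)]⟩,⟨4,[(0,0),(3,
  1),(3,0),(5,0),(1,7),(0,0),(0,0),(2,1)]⟩⟩,⟨false,0,⟨0,[]⟩,⟨3,[(13,0),(0,0),(18,1)]⟩⟩,⟨false,1,⟨0,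
  [(14,0),(0,0)]⟩,⟨0,[(0,0)]⟩⟩,⟨true,0,⟨0,[(30,0)]⟩,⟨0,[(31,0)]⟩⟩,⟨false,1,⟨0,[(1,1),(8,0),(6,0),
  (15,0)]⟩,⟨0,[(0,0),(30,0)]⟩⟩,[.o ⟨false,0,⟨0,[(1,0),(15,0)]⟩,⟨3,[(0,1),(12,0),(0,0),(11,0),(6,
  0)]⟩⟩,.o ⟨false,1,⟨7,[(13,0),(0,4),(0,3),(10,1)]⟩,⟨21,[(0,10),(3,3),(0,0),(2,0),(8,4),(1,3),(6,0),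
  (2,1)]⟩⟩,.a ⟨true,0,⟨0,[(16,0)]⟩,⟨1,[(15,0),(8,0),(0,0)]⟩⟩ ⟨false,0,⟨7,[(0,1),(2,1),(9,0),(1,1),
  (16,0)]⟩,⟨1,[(14,0),(18,0)]⟩⟩ ⟨true,0,⟨1,[(1,1),(13,0),(1,0),(2,0)]⟩,⟨21,[(0,10),(3,3),(0,0),(2,
  0),(7,21),(0,4),(1,3),(6,0),(2,1)]⟩⟩,.o ⟨false,0,⟨4,[(0,0),(3,1),(3,0),(5,0),(1,2),(0,0),(0,0),(2,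
  1)]⟩,⟨7,[(13,0),(0,0),(0,3),(10,1),(5,3)]⟩⟩]⟩) (.Q [0,1,0,1,-1,0,1,1,-1,0,-1,1] (.p false [0,0,1]
  [0,0,0,1] (⟨0,[(25,0)]⟩,⟨0,[(24,0)]⟩) .k 2 (⟨0,[(16,0)]⟩,⟨1,[(15,0),(8,0),(0,0)]⟩) .k (.r 0 ⟨1,
  [(3,1),(19,1),(8,0),(0,0)]⟩ ⟨1,[(5,1),(8,0),(5,1),(12,0)]⟩)) (.I [0,0,-1,-1,1,0,0,-1,1] (.R ⟨1,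
  false,false,true,[0,0,0,1],[0,0,1],[0,1,0,-1,0,0,0,0,1],(⟨0,[(18,0)]⟩,⟨1,[(17,0),(8,0),(0,0)]⟩),
  (⟨0,[(27,0)]⟩,⟨0,[(26,0)]⟩),⟨0,[(4,0)]⟩,.k,.k,(.r (-1) ⟨0,[(0,0),(24,0)]⟩ ⟨2,[(5,0),(1,0),(2,0),
  (1,0),(2,0),(19,0)]⟩),.k,(.r (-1) ⟨0,[(0,0)]⟩ ⟨1,[(10,0),(4,0),(9,0)]⟩),.k,⟨false,1,⟨0,[(0,0)]⟩,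
  ⟨1,[(5,1),(4,0),(14,0),(8,1),(0,0)]⟩⟩,⟨true,0,⟨0,[(7,0),(10,0)]⟩,⟨1,[(17,0),(2,0),(3,0)]⟩⟩,⟨false,
  0,⟨0,[(33,0)]⟩,⟨0,[(32,0),(2,0)]⟩⟩,⟨true,(-1),⟨0,[(1,0),(31,0)]⟩,⟨3,[(2,1),(19,3),(5,0),(6,2)]⟩⟩,
  ⟨true,0,⟨0,[(37,0)]⟩,⟨0,[]⟩⟩,⟨true,(-1),⟨0,[(1,0)]⟩,⟨1,[(0,1),(16,0),(2,0),(3,0)]⟩⟩,[.o ⟨false,0,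
  ⟨0,[(21,0)]⟩,⟨0,[(19,0),(15,0)]⟩⟩,.o ⟨false,0,⟨7,[(1,1),(1,1),(2,1),(7,1),(13,0),(6,0)]⟩,⟨1,[(22,
  1),(5,0),(6,0)]⟩⟩,.a ⟨true,0,⟨1,[(17,0),(8,0),(0,0)]⟩,⟨0,[(18,0)]⟩⟩ ⟨true,0,⟨1,[(2,0),(3,0),(11,
  1),(14,0),(3,0)]⟩,⟨5,[(1,3),(3,1),(6,1),(4,1),(1,1),(14,0),(0,4)]⟩⟩ ⟨false,0,⟨5,[(1,1),(4,1),(7,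
  1),(1,0),(1,3),(16,0)]⟩,⟨1,[(17,0),(1,0),(2,0),(12,1)]⟩⟩,.o ⟨false,0,⟨1,[(17,0),(2,0),(2,0)]⟩,⟨1,
  [(18,1),(9,0),(5,0)]⟩⟩]⟩) (.I [0,0,-1,-2,1,0,0,-1,1] (.R ⟨1,false,false,true,[0,0,0,1],[0,1,1],[1,
  1,1,1,0,0,0,1],(⟨0,[(19,0)]⟩,⟨1,[(18,0),(8,0),(0,0)]⟩),(⟨0,[(28,0),(2,0)]⟩,⟨0,[(12,0)]⟩),⟨0,[(5,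
  0)]⟩,.k,.k,(.r (-1) ⟨3,[(0,1),(16,0),(8,1),(8,0)]⟩ ⟨2,[(6,0),(1,0),(2,0),(1,0),(2,0),(19,0)]⟩),
  (.x 0 ⟨0,[(12,0),(8,0)]⟩ ⟨3,[(8,3),(7,0),(0,0),(10,3),(2,3),(3,1)]⟩),(.r (-2) ⟨3,[(0,3),(15,0),(0,
  0),(17,1)]⟩ ⟨5,[(1,2),(4,0),(1,0),(2,3),(1,0),(2,0),(19,0)]⟩),.k,⟨true,0,⟨0,[]⟩,⟨1,[(24,0),(0,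
  0)]⟩⟩,⟨false,1,⟨0,[(8,0),(10,0),(15,0)]⟩,⟨1,[(18,0),(2,0),(3,0)]⟩⟩,⟨false,(-1),⟨0,[(1,0)]⟩,⟨5,[(0,
  3),(7,1),(4,1),(2,0),(0,1),(17,0),(0,3)]⟩⟩,⟨true,(-1),⟨0,[(2,0)]⟩,⟨11,[(0,5),(2,3),(12,0),(1,1),
  (2,5),(1,5),(12,4)]⟩⟩,⟨true,(-1),⟨0,[(1,0),(31,0)]⟩,⟨0,[(0,0)]⟩⟩,⟨true,(-1),⟨0,[(1,0),(6,0),(10,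
  0),(12,0)]⟩,⟨1,[(0,1),(17,0),(2,0),(3,0)]⟩⟩,[.o ⟨false,0,⟨6,[(2,1),(0,0),(10,0),(0,1),(13,1),(3,
  3)]⟩,⟨0,[(7,0),(15,0),(12,0)]⟩⟩,.o ⟨false,0,⟨5,[(2,1),(1,1),(3,1),(2,1),(17,0),(5,1),(0,0)]⟩,⟨3,
  [(0,1),(15,0),(3,1),(0,1),(14,0)]⟩⟩,.a ⟨true,0,⟨1,[(18,0),(8,0),(0,0)]⟩,⟨0,[(19,0)]⟩⟩ ⟨true,(-1),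
  ⟨1,[(1,0),(0,0),(0,0),(15,0),(1,0)]⟩,⟨1,[(0,0),(5,0),(1,0),(14,0),(11,0),(0,0)]⟩⟩ ⟨false,0,⟨1,[(2,
  1),(14,0),(18,0)]⟩,⟨1,[(7,0),(10,0),(4,1),(10,0),(1,1)]⟩⟩,.o ⟨false,0,⟨1,[(18,0),(2,0),(2,0)]⟩,⟨1,
  [(19,1),(9,0),(5,0)]⟩⟩]⟩) (.I [0,0,-1,-1,0,0,0,0,-2] (.Q [0,1,0,-1,-1,0,0,0,-2,-1,0,2] (.p true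
  [0,0,0,1] [1,0,0,-1] (⟨0,[(20,0)]⟩,⟨1,[(19,0),(8,0),(0,0)]⟩) .k 2 (⟨1,[(19,0),(8,0),(0,0)]⟩,⟨0,
  [(20,0)]⟩) .k .k) (.R ⟨1,true,false,false,[1,0,0,-1],[0,0,0,1],[1,0,0,0,0,0,0,0,-1],(⟨1,[(20,0),
  (8,0),(0,0)]⟩,⟨0,[(21,0)]⟩),(⟨0,[(21,0)]⟩,⟨1,[(20,0),(8,0),(0,0)]⟩),⟨0,[(7,0),(12,0)]⟩,.k,.k,(.r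
  (-1) ⟨1,[(18,0),(17,1),(0,0)]⟩ ⟨1,[(5,0),(4,0),(2,0),(7,1),(0,0),(15,0)]⟩),.k,(.r 0 ⟨0,[(1,0)]⟩
  ⟨11,[(13,3),(1,3),(2,0),(0,12),(6,3),(11,1)]⟩),.k,⟨false,0,⟨0,[(0,0),(19,0),(13,0),(3,0)]⟩,⟨0,
  [(19,0)]⟩⟩,⟨true,0,⟨0,[(20,0)]⟩,⟨9,[(9,3),(3,1),(7,19),(0,1),(0,1),(2,3),(4,0),(6,0)]⟩⟩,⟨true,0,
  ⟨0,[]⟩,⟨0,[(40,0)]⟩⟩,⟨false,1,⟨0,[(5,0),(32,0)]⟩,⟨5,[(0,3),(3,1),(10,1),(2,0),(2,1),(9,0),(6,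
  3)]⟩⟩,⟨false,1,⟨0,[(35,0),(2,0)]⟩,⟨0,[(36,0)]⟩⟩,⟨true,1,⟨0,[(5,0),(29,0),(2,0)]⟩,⟨0,[(0,0)]⟩⟩,
  []⟩) (.R ⟨1,false,false,false,[1,0,0,-1],[0,0,0,1],[0,0,0,-1,0,0,0,0,-1],(⟨1,[(20,0),(8,0),(0,
  0)]⟩,⟨0,[(21,0)]⟩),(⟨0,[(21,0)]⟩,⟨1,[(20,0),(8,0),(0,0)]⟩),⟨0,[(7,0),(12,0)]⟩,.k,.k,(.r (-1) ⟨1,
  [(18,0),(17,1),(0,0)]⟩ ⟨1,[(0,0),(8,0),(0,0),(2,0),(7,1),(3,0)]⟩),.k,(.r 0 ⟨0,[(1,0)]⟩ ⟨11,[(13,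
  3),(1,3),(2,0),(0,12),(6,3),(11,1)]⟩),.k,⟨false,0,⟨0,[(1,0)]⟩,⟨4,[(0,0),(9,0),(2,0),(5,3),(1,1),
  (0,0),(11,1),(3,0)]⟩⟩,⟨true,0,⟨0,[(20,0)]⟩,⟨9,[(9,3),(3,1),(7,19),(0,1),(0,1),(2,3),(4,0),(6,
  0)]⟩⟩,⟨true,0,⟨0,[(36,0)]⟩,⟨0,[(35,0)]⟩⟩,⟨false,1,⟨0,[(5,0),(32,0)]⟩,⟨3,[(1,1),(2,1),(3,1),(12,5),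
  (0,1),(8,0),(6,2)]⟩⟩,⟨false,1,⟨3,[(18,0),(0,0),(18,1)]⟩,⟨0,[]⟩⟩,⟨false,1,⟨0,[(0,0)]⟩,⟨2,[(1,1),(6,
  1),(0,0),(11,5),(9,0),(6,0)]⟩⟩,[.o ⟨false,1,⟨3,[(5,1),(12,0),(0,0),(11,0),(6,0)]⟩,⟨11,[(1,1),(2,
  5),(3,1),(0,3),(11,5),(0,5),(8,0),(6,6)]⟩⟩,.o ⟨false,1,⟨3,[(5,1),(25,0),(6,2)]⟩,⟨17,[(1,3),(2,3),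
  (3,3),(9,0),(2,13),(0,3),(8,6),(8,5)]⟩⟩,.a ⟨true,0,⟨0,[(21,0)]⟩,⟨1,[(20,0),(8,0),(0,0)]⟩⟩ ⟨true,0,
  ⟨7,[(1,1),(6,1),(9,0),(17,5),(1,0)]⟩,⟨3,[(5,0),(4,0),(2,0),(5,0),(1,1),(0,0),(11,1)]⟩⟩ ⟨false,1,
  ⟨5,[(5,3),(12,0),(1,1),(17,4)]⟩,⟨11,[(1,1),(2,5),(3,1),(0,3),(11,17),(0,5),(8,0),(6,6)]⟩⟩,.o
  ⟨false,0,⟨9,[(9,3),(3,1),(7,9),(0,1),(0,1),(2,3),(4,0),(6,0)]⟩,⟨11,[(0,1),(0,1),(3,1),(12,1),(1,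
  1),(10,2),(5,4)]⟩⟩]⟩)) (.Q [0,0,0,0,0,1,0,0,0,0,-1] (.ed true [1,-1,1] .k) (.Q [0,1,0,-1,0,0,-2,
  -1,0,0,2] (.p true [0,0,1] [0,1,-1] (⟨0,[(30,0)]⟩,⟨0,[(29,0)]⟩) .k 2 (⟨0,[(0,0)]⟩,⟨0,[(30,0),(1,
  0)]⟩) .k (.r 0 ⟨0,[(28,1)]⟩ ⟨0,[(10,1),(14,1),(12,0)]⟩)) (.Q [0,0,-2,0,1,0,-1,0,0,1,1,-1] (.p
  true [1,-1,1] [0,0,0,1] (⟨0,[(31,0),(1,0)]⟩,⟨0,[(1,0)]⟩) .k 2 (⟨0,[(22,0)]⟩,⟨1,[(21,0),(8,0),(0,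
  0)]⟩) .k (.r 0 ⟨3,[(4,1),(14,0),(9,1),(7,1),(0,0)]⟩ ⟨1,[(11,1),(8,0),(5,1),(12,0)]⟩)) (.R ⟨1,
  false,false,true,[1,0,0,-1],[0,1,-1],[1,1,0,0,0,0,0,0,-1],(⟨1,[(22,0),(8,0),(0,0)]⟩,⟨0,[(23,0)]⟩),
  (⟨0,[(2,0)]⟩,⟨0,[(32,0),(1,0)]⟩),⟨0,[(9,0),(12,0)]⟩,.k,.k,(.r (-1) ⟨1,[(20,0),(17,1),(0,0)]⟩ ⟨13,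
  [(3,7),(11,1),(1,1),(2,0),(7,1),(11,0)]⟩),(.r 0 ⟨2,[(0,1),(4,0),(0,1),(4,1),(26,3),(1,0)]⟩ ⟨1,
  [(17,1),(3,0),(6,1),(11,0)]⟩),(.r (-1) ⟨3,[(0,1),(5,1),(4,1),(8,0),(9,1),(7,7),(0,1),(0,0)]⟩ ⟨0,
  [(3,0),(6,0),(1,0),(4,0),(22,0)]⟩),.k,⟨true,0,⟨2,[(0,1),(4,0),(0,1),(4,1),(26,3),(1,0)]⟩,⟨0,[(3,
  0),(6,0),(1,0),(14,0),(12,0)]⟩⟩,⟨false,1,⟨0,[(0,0)]⟩,⟨7,[(11,3),(0,5),(2,1),(7,7),(0,1),(3,3),(4,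
  0),(6,0)]⟩⟩,⟨false,0,⟨0,[]⟩,⟨3,[(20,0),(0,0),(18,1)]⟩⟩,⟨false,1,⟨27,[(0,3),(6,11),(6,11),(2,27),
  (2,0),(0,2),(7,7),(10,19)]⟩,⟨0,[(6,0),(4,0),(26,0),(1,0)]⟩⟩,⟨true,0,⟨0,[(37,0)]⟩,⟨0,[(38,0)]⟩⟩,
  ⟨false,1,⟨1,[(7,0),(9,2),(0,0),(21,1)]⟩,⟨0,[(6,0),(4,0),(26,1),(1,0)]⟩⟩,[.o ⟨false,0,⟨0,[(17,0)]⟩,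
  ⟨1,[(11,0),(7,0),(13,0),(4,0),(1,0)]⟩⟩,.o ⟨false,1,⟨3,[(17,3),(2,0),(0,0),(18,1)]⟩,⟨7,[(6,1),(1,
  1),(2,9),(7,1),(13,0),(6,0)]⟩⟩,.a ⟨true,0,⟨0,[(23,0)]⟩,⟨1,[(22,0),(8,0),(0,0)]⟩⟩ ⟨false,0,⟨1,[(10,
  1),(28,0),(0,0)]⟩,⟨1,[(21,0),(18,0)]⟩⟩ ⟨true,0,⟨1,[(17,1),(4,0),(8,0),(0,0)]⟩,⟨19,[(3,1),(2,3),(4,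
  25),(7,7),(3,15),(9,0),(5,0),(0,1)]⟩⟩,.o ⟨false,0,⟨9,[(11,3),(3,1),(7,9),(0,1),(0,1),(2,3),(4,0),
  (6,0)]⟩,⟨11,[(7,1),(12,1),(1,3),(10,2),(5,5),(0,0)]⟩⟩]⟩) (.Q [0,0,-2,0,1,0,-1,0,0,1,1] (.p true
  [1,-1,1] [] (⟨0,[(32,0),(1,0)]⟩,⟨0,[(2,0)]⟩) .k 0 (⟨0,[]⟩,⟨0,[]⟩) .k .k) (.K ⟨0,[0,1,-1],1,0,(⟨0,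
  [(3,0)]⟩,⟨0,[(33,0),(1,0)]⟩),.k,.k,(.r 0 ⟨5,[(1,1),(11,0),(1,0),(0,1),(1,7),(4,0),(5,3),(11,3)]⟩
  ⟨1,[(0,1),(11,2),(7,0),(18,0)]⟩),.k,.k,[⟨1,[(1,1),(21,0),(8,0),(0,0)]⟩,⟨0,[(0,0)]⟩,⟨0,[(27,0),(11,
  0)]⟩,⟨0,[(18,0)]⟩]⟩) (.K ⟨2,[1,-1,1],(-1),0,(⟨0,[(33,0),(1,0)]⟩,⟨0,[(3,0)]⟩),.k,(.r (-1) ⟨0,[(31,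
  0),(7,1),(0,0)]⟩ ⟨2,[(0,0),(14,0),(0,0),(1,3),(10,1),(11,1)]⟩),.k,.k,.k,[⟨0,[(12,0)]⟩,⟨0,[(18,0),
  (13,0),(0,0)]⟩,⟨3,[(2,3),(16,3),(1,0),(0,0),(18,1)]⟩,⟨0,[(0,0)]⟩]⟩))) (.Q [0,0,2,0,-1,0,1,0,0,0,
  -1] (.p false [0,0,1] [] (⟨0,[(31,0)]⟩,⟨0,[(30,0)]⟩) .k 0 (⟨0,[]⟩,⟨0,[]⟩) .k .k) (.Q [0,-1,0,-2,0,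
  0,1,1,0,0,-1] (.p false [0,0,1] [] (⟨0,[(32,0)]⟩,⟨0,[(31,0)]⟩) .k 0 (⟨0,[]⟩,⟨0,[]⟩) .k .k) (.R ⟨1,
  true,false,true,[1,-1],[1,0,-1],[0,1,-1,-2],(⟨0,[(35,0)]⟩,⟨0,[(36,0)]⟩),(⟨0,[(32,0)]⟩,⟨0,[(33,
  0)]⟩),⟨0,[(10,1),(12,0)]⟩,.k,.k,(.r (-1) ⟨0,[(0,0),(27,0),(11,0)]⟩ ⟨6,[(4,1),(11,3),(1,3),(2,1),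
  (7,3),(11,1)]⟩),.k,(.r (-1) ⟨0,[(0,0),(27,0),(2,0),(8,0)]⟩ ⟨7,[(1,2),(0,0),(13,1),(1,10),(10,5),
  (11,4)]⟩),.k,⟨false,1,⟨0,[(0,0),(27,0),(2,0),(8,0)]⟩,⟨1,[(1,0),(0,0),(15,2),(22,0)]⟩⟩,⟨true,1,⟨0,
  [(30,0),(9,0)]⟩,⟨0,[(1,0)]⟩⟩,⟨false,0,⟨0,[(39,0)]⟩,⟨0,[(38,0),(2,0)]⟩⟩,⟨true,0,⟨0,[(18,0)]⟩,⟨1,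
  [(0,0),(26,0)]⟩⟩,⟨true,0,⟨0,[(43,0)]⟩,⟨0,[]⟩⟩,⟨false,1,⟨0,[(18,0),(19,0),(2,0)]⟩,⟨0,[(0,0)]⟩⟩,
  []⟩) (.Q [0,0,-2,0,1,0,-1,0,0,1,1] (.p true [1,-1,1] [] (⟨0,[(33,0),(1,0)]⟩,⟨0,[(3,0)]⟩) .k 0 (⟨0,
  []⟩,⟨0,[]⟩) .k .k) (.K ⟨0,[0,1,-1],1,0,(⟨0,[(4,0)]⟩,⟨0,[(34,0),(1,0)]⟩),.k,.k,(.r 0 ⟨3,[(1,2),(0,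
  2),(2,0),(13,0),(2,0),(7,0),(11,1)]⟩ ⟨1,[(0,1),(12,2),(7,0),(18,0)]⟩),.k,.k,[⟨0,[(2,0)]⟩,⟨0,[(0,
  0)]⟩,⟨0,[(28,0),(11,0)]⟩,⟨0,[(19,0)]⟩]⟩) (.K ⟨2,[1,-1,1],(-1),0,(⟨0,[(34,0),(1,0)]⟩,⟨0,[(4,0)]⟩),
  .k,(.r (-1) ⟨0,[(32,0),(7,1),(0,0)]⟩ ⟨3,[(1,2),(0,2),(2,0),(13,0),(2,0),(7,0),(11,1)]⟩),.k,.k,.k,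
  [⟨0,[(13,0)]⟩,⟨0,[(19,0),(13,0),(0,0)]⟩,⟨3,[(22,0),(0,0),(7,3),(1,3),(0,3),(6,1)]⟩,⟨0,[(0,
  0)]⟩]⟩))) (.R ⟨1,false,false,true,[1,0,0,-1],[0,1,-1],[1,1,0,0,0,0,0,0,-1],(⟨1,[(22,0),(8,0),(0,
  0)]⟩,⟨0,[(23,0)]⟩),(⟨0,[(2,0)]⟩,⟨0,[(32,0),(1,0)]⟩),⟨0,[(9,0),(12,0)]⟩,.k,.k,(.r (-1) ⟨1,[(20,0),
  (17,1),(0,0)]⟩ ⟨13,[(3,7),(11,1),(1,1),(2,0),(7,1),(11,0)]⟩),(.r 0 ⟨0,[(5,0),(32,1),(0,0)]⟩ ⟨1,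
  [(17,1),(3,0),(6,1),(11,0)]⟩),(.r (-1) ⟨3,[(0,1),(4,1),(5,0),(7,0),(0,0),(17,8),(0,2)]⟩ ⟨0,[(3,0),
  (6,0),(1,0),(4,0),(22,0)]⟩),.k,⟨true,0,⟨0,[(5,0),(32,1),(0,0)]⟩,⟨0,[(3,0),(6,0),(1,0),(14,0),(12,
  0)]⟩⟩,⟨false,1,⟨1,[(0,1),(21,0),(8,0),(0,0)]⟩,⟨4,[(1,1),(9,1),(11,4),(0,1),(0,0),(2,3)]⟩⟩,⟨false,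
  0,⟨0,[]⟩,⟨3,[(20,0),(0,0),(18,1)]⟩⟩,⟨false,1,⟨23,[(0,3),(6,11),(6,11),(2,23),(2,0),(0,0),(7,7),
  (10,17)]⟩,⟨0,[(6,0),(4,0),(26,0),(1,0)]⟩⟩,⟨true,0,⟨0,[(37,0)]⟩,⟨0,[(38,0)]⟩⟩,⟨false,1,⟨1,[(7,0),
  (9,2),(0,0),(21,1)]⟩,⟨0,[(6,0),(4,0),(26,1),(1,0)]⟩⟩,[.o ⟨false,0,⟨0,[(17,0)]⟩,⟨1,[(11,0),(7,0),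
  (13,0),(4,0),(1,0)]⟩⟩,.o ⟨false,1,⟨3,[(17,3),(2,0),(0,0),(18,1)]⟩,⟨4,[(1,0),(9,5),(7,0),(6,0),(3,
  0)]⟩⟩,.a ⟨true,0,⟨0,[(23,0)]⟩,⟨1,[(22,0),(8,0),(0,0)]⟩⟩ ⟨false,0,⟨1,[(10,1),(28,0),(0,0)]⟩,⟨1,
  [(21,0),(18,0)]⟩⟩ ⟨true,0,⟨1,[(17,1),(4,0),(8,0),(0,0)]⟩,⟨17,[(1,1),(4,1),(4,21),(7,5),(1,0),(1,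
  15),(6,1),(2,0)]⟩⟩,.o ⟨false,0,⟨4,[(1,0),(9,0),(11,4),(0,0),(0,2),(2,1)]⟩,⟨11,[(7,1),(12,1),(1,3),
  (10,2),(5,5),(0,0)]⟩⟩]⟩))) (.Q [0,-1,0,1,1,0,-1,-1,0,-1,1] (.p true [0,0,1] [1] (⟨0,[(30,0)]⟩,⟨0,
  [(29,0)]⟩) .k 1 (⟨0,[]⟩,⟨0,[]⟩) .k .k) (.Q [0,0,-2,0,1,0,-1,0,0,-1,1,1] (.p true [0,0,1] [1,0,0,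
  -1] (⟨0,[(31,0)]⟩,⟨0,[(30,0)]⟩) .k 2 (⟨1,[(21,0),(8,0),(0,0)]⟩,⟨0,[(22,0)]⟩) .k (.r 0 ⟨0,[(2,0),
  (1,0),(32,1),(0,0)]⟩ ⟨1,[(11,1),(7,0),(6,1),(12,0)]⟩)) (.R ⟨1,false,false,false,[1,0,0,-1],[1,1,
  -1],[1,0,0,0,0,0,0,0,-1],(⟨1,[(22,0),(8,0),(0,0)]⟩,⟨0,[(23,0)]⟩),(⟨0,[(31,0),(3,0)]⟩,⟨0,[(2,0)]⟩),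
  ⟨1,[(2,0),(13,0),(5,0)]⟩,.k,.k,(.r (-1) ⟨1,[(20,0),(17,1),(0,0)]⟩ ⟨13,[(3,7),(11,1),(1,1),(2,0),
  (7,1),(11,0)]⟩),(.r 0 ⟨0,[(5,0),(32,1),(0,0)]⟩ ⟨1,[(17,1),(3,0),(6,1),(11,0)]⟩),(.r (-1) ⟨3,[(0,
  1),(4,1),(13,0),(0,0),(1,0),(15,9),(0,2)]⟩ ⟨0,[(1,0),(1,0),(6,0),(3,0)]⟩),.k,⟨true,0,⟨0,[(5,0),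
  (32,1),(0,0)]⟩,⟨0,[(3,0),(6,0),(1,0),(14,0),(12,0)]⟩⟩,⟨false,1,⟨0,[(0,0),(21,0)]⟩,⟨0,[(23,0),(4,
  0)]⟩⟩,⟨true,0,⟨0,[]⟩,⟨0,[(42,0)]⟩⟩,⟨true,1,⟨7,[(1,3),(5,3),(9,3),(2,0),(0,0),(18,1)]⟩,⟨0,[(6,0),
  (31,1)]⟩⟩,⟨false,1,⟨7,[(1,3),(16,3),(1,0),(0,0),(18,1)]⟩,⟨0,[(38,0)]⟩⟩,⟨true,1,⟨1,[(1,1),(5,0),(9,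
  0),(0,0)]⟩,⟨0,[(6,0),(31,2)]⟩⟩,[.o ⟨false,1,⟨7,[(1,3),(15,3),(2,0),(0,0),(11,1)]⟩,⟨1,[(11,0),(7,
  0),(18,0)]⟩⟩,.o ⟨false,1,⟨0,[(1,0)]⟩,⟨0,[(26,0),(11,0)]⟩⟩,.a ⟨true,0,⟨0,[(23,0)]⟩,⟨1,[(22,0),(8,
  0),(0,0)]⟩⟩ ⟨true,0,⟨1,[(10,1),(28,0),(0,0)]⟩,⟨2,[(6,0),(0,0),(3,0),(9,0),(1,0),(3,0)]⟩⟩ ⟨false,1,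
  ⟨1,[(1,0),(15,0),(4,0),(17,0)]⟩,⟨1,[(11,0),(7,0),(3,1),(14,0)]⟩⟩,.o ⟨false,0,⟨11,[(1,0),(9,4),(3,
  1),(7,11),(0,0),(0,2),(2,4),(4,0)]⟩,⟨11,[(7,1),(12,1),(1,3),(10,2),(5,5),(0,0)]⟩⟩]⟩) (.Q [0,0,-2,
  0,1,0,-1,0,0,0,1] (.p true [0,0,1] [] (⟨0,[(32,0)]⟩,⟨0,[(31,0)]⟩) .k 0 (⟨0,[]⟩,⟨0,[]⟩) .k .k) (.Q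
  [0,0,0,0,0,2,0,0,0,0,-1] (.p false [0,0,1] [] (⟨0,[(33,0)]⟩,⟨0,[(32,0)]⟩) .k 0 (⟨0,[]⟩,⟨0,[]⟩) .k
  .k) (.R ⟨0,false,false,false,[0,-1,1],[1,-1],[1],(⟨0,[(4,0)]⟩,⟨1,[(0,0),(32,1),(0,0)]⟩),(⟨0,[(36,
  0)]⟩,⟨0,[(37,0)]⟩),⟨0,[(0,0)]⟩,.k,.k,(.r (-1) ⟨1,[(1,1),(11,0),(7,0),(18,2)]⟩ ⟨2,[(2,0),(0,1),(12,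
  0),(0,0),(1,1),(5,0),(4,1)]⟩),.k,.k,.k,⟨true,0,⟨6,[(5,0),(11,1),(1,1),(2,0),(7,1),(11,0)]⟩,⟨0,
  [(40,0)]⟩⟩,⟨false,1,⟨2,[(1,1),(25,0),(7,0)]⟩,⟨0,[(16,0)]⟩⟩,⟨true,0,⟨1,[(2,0),(0,0),(10,0),(4,0),
  (5,0)]⟩,⟨3,[(1,1),(6,1),(0,0),(3,0),(18,1),(7,4),(3,0)]⟩⟩,⟨false,1,⟨1,[(3,0),(9,0),(15,0),(12,
  0)]⟩,⟨1,[(21,0),(11,0),(0,0)]⟩⟩,⟨false,0,⟨0,[]⟩,⟨0,[]⟩⟩,⟨false,0,⟨0,[]⟩,⟨0,[]⟩⟩,[.o ⟨false,0,⟨0,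
  [(13,0)]⟩,⟨2,[(3,0),(16,0),(1,0),(0,0),(15,0)]⟩⟩,.o ⟨false,1,⟨1,[(35,0),(4,1),(1,0)]⟩,⟨0,[(39,
  0)]⟩⟩,.o ⟨false,0,⟨0,[(30,0)]⟩,⟨2,[(1,1),(25,0),(7,0)]⟩⟩,.a ⟨true,(-1),⟨0,[(2,0),(22,0)]⟩,⟨0,[(1,
  0)]⟩⟩ ⟨false,1,⟨1,[(41,0),(0,0)]⟩,⟨1,[(30,0),(0,0)]⟩⟩ ⟨true,1,⟨0,[(1,0),(11,0)]⟩,⟨0,[(2,0),(22,0),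
  (13,0)]⟩⟩]⟩) (.Q [0,-1,0,-1,0,0,1,1,0,1,-1] (.p false [0,0,1] [1] (⟨0,[(34,0)]⟩,⟨0,[(33,0)]⟩) .k
  1 (⟨0,[]⟩,⟨0,[]⟩) .k .k) (.R ⟨2,true,false,true,[0,1],[1,1,-1],[0,1,1],(⟨0,[]⟩,⟨0,[]⟩),(⟨0,[(34,
  0),(3,0)]⟩,⟨0,[(5,0)]⟩),⟨0,[]⟩,.k,.k,.k,.k,.k,.k,⟨true,0,⟨0,[(33,0),(7,0)]⟩,⟨1,[(3,0),(0,0),(10,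
  0),(4,0),(5,0)]⟩⟩,⟨false,1,⟨2,[(2,1),(25,0),(7,0)]⟩,⟨0,[(17,0)]⟩⟩,⟨false,0,⟨0,[(41,0)]⟩,⟨7,[(4,3),
  (16,3),(1,0),(0,0),(18,1)]⟩⟩,⟨true,0,⟨0,[(27,0)]⟩,⟨2,[(0,0),(20,0),(0,0),(7,0)]⟩⟩,⟨true,0,⟨0,[(45,
  0)]⟩,⟨0,[]⟩⟩,⟨false,1,⟨7,[(4,3),(15,3),(2,0),(0,0),(11,1)]⟩,⟨0,[(0,0)]⟩⟩,[]⟩) (.K ⟨0,[1,1,-1],1,0,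
  (⟨0,[(34,0),(3,0)]⟩,⟨0,[(5,0)]⟩),.k,.k,(.r 0 ⟨2,[(3,0),(0,1),(12,0),(0,0),(1,1),(5,0),(4,1)]⟩ ⟨1,
  [(2,1),(11,0),(7,0),(18,2)]⟩),.k,.k,[⟨0,[(3,0),(22,0)]⟩,⟨0,[(2,0)]⟩,⟨0,[(22,0),(7,0),(10,0)]⟩,⟨0,
  [(0,0)]⟩]⟩))) (.K ⟨2,[0,-1,1],(-1),0,(⟨0,[(3,0)]⟩,⟨0,[(32,0),(3,0)]⟩),.k,(.r (-1) ⟨0,[(31,0),(7,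
  1),(0,0)]⟩ ⟨2,[(0,0),(1,0),(12,0),(0,0),(1,2),(10,1),(11,0)]⟩),.k,.k,.k,[⟨0,[(39,0)]⟩,⟨0,[(18,
  0)]⟩,⟨3,[(21,0),(0,0),(7,3),(9,1)]⟩,⟨0,[(0,0)]⟩]⟩))) (.R ⟨1,false,false,false,[1,-1],[0,-1,1],[1,
  0,-1,-1],(⟨0,[(33,0)]⟩,⟨0,[(34,0)]⟩),(⟨0,[(1,0)]⟩,⟨0,[(30,0),(3,0)]⟩),⟨0,[(1,0),(13,0)]⟩,.k,.k,
  (.r (-1) ⟨0,[(37,1),(0,0)]⟩ ⟨6,[(2,1),(11,3),(1,3),(2,1),(7,3),(11,1)]⟩),.k,.k,.k,⟨false,1,⟨1,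
  [(11,1),(14,1),(11,0),(0,0)]⟩,⟨0,[(29,0)]⟩⟩,⟨true,0,⟨0,[(13,0)]⟩,⟨0,[(24,0)]⟩⟩,⟨true,0,⟨0,[]⟩,⟨0,
  [(41,0)]⟩⟩,⟨true,0,⟨7,[(0,3),(16,3),(1,0),(0,0),(18,1)]⟩,⟨0,[(23,0)]⟩⟩,⟨false,1,⟨0,[(36,0),(2,
  0)]⟩,⟨0,[(37,0)]⟩⟩,⟨true,0,⟨0,[(17,0)]⟩,⟨0,[(10,0),(15,0)]⟩⟩,[.o ⟨false,0,⟨1,[(10,0),(7,0),(18,
  0)]⟩,⟨1,[(16,1),(15,0),(6,0)]⟩⟩,.a ⟨true,0,⟨0,[(0,0),(38,0)]⟩,⟨0,[(16,0)]⟩⟩ ⟨true,1,⟨1,[(37,1),(0,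
  0),(0,0)]⟩,⟨2,[(2,0),(6,1),(4,0),(11,0),(0,0)]⟩⟩ ⟨false,1,⟨0,[(0,0),(37,0),(0,0)]⟩,⟨9,[(14,1),(1,
  5),(6,5),(0,1),(2,3),(4,0),(6,0)]⟩⟩,.o ⟨false,0,⟨9,[(10,3),(3,1),(8,1),(0,1),(2,3),(4,0),(6,0)]⟩,
  ⟨3,[(19,0),(0,0),(17,1)]⟩⟩,.o ⟨false,0,⟨0,[(24,0),(2,0)]⟩,⟨0,[(38,0)]⟩⟩]⟩)))))) (.R ⟨1,false,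
  false,true,[0,0,0,1],[0,1,1],[1,1,0,0,0,0,0,0,1],(⟨0,[(17,0)]⟩,⟨1,[(16,0),(8,0),(0,0)]⟩),(⟨0,[(26,
  0),(2,0)]⟩,⟨0,[(10,0)]⟩),⟨0,[(3,0)]⟩,.k,.k,(.r (-1) ⟨1,[(15,0),(16,1),(0,0)]⟩ ⟨2,[(4,0),(1,0),(2,
  0),(1,0),(2,0),(19,0)]⟩),(.r (-1) ⟨0,[(0,0),(5,0),(10,0),(12,0),(1,0)]⟩ ⟨1,[(9,0),(4,0),(9,0)]⟩),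
  (.r (-2) ⟨7,[(0,3),(5,7),(7,0),(0,2),(1,3),(3,3),(10,11),(0,7)]⟩ ⟨1,[(4,1),(4,1),(23,0),(0,0)]⟩),
  .k,⟨true,1,⟨0,[(0,0),(5,0),(10,0),(12,0),(1,0)]⟩,⟨1,[(4,1),(4,0),(14,0),(9,0)]⟩⟩,⟨false,1,⟨0,[(6,
  0),(10,0),(15,0)]⟩,⟨1,[(16,0),(2,0),(3,0)]⟩⟩,⟨false,0,⟨0,[]⟩,⟨3,[(14,0),(0,0),(18,1)]⟩⟩,⟨false,0,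
  ⟨9,[(4,9),(0,1),(0,5),(2,5),(3,1),(3,9),(15,10),(0,4)]⟩,⟨0,[(0,0)]⟩⟩,⟨true,0,⟨0,[(31,0)]⟩,⟨0,[(32,
  0)]⟩⟩,⟨false,0,⟨1,[(4,1),(1,1),(2,1),(7,1),(15,2),(0,0)]⟩,⟨0,[(0,0),(31,0)]⟩⟩,[.o ⟨false,0,⟨6,[(6,
  0),(2,0),(3,1),(6,1),(6,0),(2,1),(0,2)]⟩,⟨0,[(5,0),(15,0),(12,0)]⟩⟩,.o ⟨false,0,⟨4,[(5,0),(0,2),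
  (2,2),(3,0),(19,2)]⟩,⟨3,[(0,1),(4,1),(8,0),(2,1),(3,1),(5,0)]⟩⟩,.a ⟨true,0,⟨1,[(16,0),(8,0),(0,
  0)]⟩,⟨0,[(17,0)]⟩⟩ ⟨true,0,⟨19,[(1,8),(3,3),(0,0),(2,0),(5,0),(1,17),(0,4),(1,3),(9,1)]⟩,⟨1,[(4,
  1),(28,0),(0,0)]⟩⟩ ⟨false,0,⟨4,[(5,0),(0,2),(2,2),(3,0),(3,4),(15,2)]⟩,⟨1,[(0,1),(3,1),(28,0),(0,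
  0)]⟩⟩,.o ⟨false,0,⟨1,[(16,0),(2,0),(2,0)]⟩,⟨1,[(17,1),(9,0),(5,0)]⟩⟩]⟩)))))

theorem ok43 : chk (cU (-1) false 3) t43 r27 = true := by decide +kernel

noncomputable def t48 : Tre :=
  (.Q [0,0,0,0,0,0,-1,0,0,0,1] (.p true [0,0,1] [] (⟨0,[(20,0)]⟩,⟨0,[(19,0)]⟩) .k 0 (⟨0,[]⟩,⟨0,[]⟩)
  .k .k) (.I [0,0,-2,0,1,2,1] (.K ⟨0,[1,-1,-1],0,0,(⟨0,[(6,0)]⟩,⟨0,[(22,0),(2,0)]⟩),.k,(.x 0 ⟨1,[(5,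
  1),(0,1),(7,1),(8,0),(0,1),(3,3),(1,0)]⟩ ⟨0,[(0,0)]⟩),.k,.k,.k,[⟨0,[(4,0)]⟩,⟨0,[(1,0)]⟩,⟨0,[(8,0),
  (23,0)]⟩,⟨0,[(14,0),(13,0)]⟩]⟩) (.I [0,0,2,0,-1,-2,-1] (.K ⟨0,[1,-1,-1],0,0,(⟨0,[(7,0)]⟩,⟨0,[(23,
  0),(2,0)]⟩),.k,(.x 1 ⟨0,[(0,0)]⟩ ⟨3,[(11,0),(0,0),(6,3),(3,3),(2,7),(3,5)]⟩),.k,.k,.k,[⟨0,[(5,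
  0)]⟩,⟨0,[(2,0)]⟩,⟨0,[(9,0),(23,0)]⟩,⟨0,[(15,0),(13,0)]⟩]⟩) (.Q [0,0,0,0,0,1,0,0,0,0,-1] (.ed true
  [1,-1,1] .k) (.Q [0,0,0,1,0,0,1,0,0,1,-1] (.p false [0,0,1] [1] (⟨0,[(24,0)]⟩,⟨0,[(23,0)]⟩) .k 1
  (⟨0,[]⟩,⟨0,[]⟩) .k .k) (.R ⟨0,false,false,false,[0,0,1],[1,-1],[0,1],(⟨0,[(25,0)]⟩,⟨0,[(24,0)]⟩),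
  (⟨0,[(27,0)]⟩,⟨0,[(28,0)]⟩),⟨0,[(1,0)]⟩,.k,.k,.k,.k,.k,.k,⟨false,0,⟨0,[(30,0)]⟩,⟨1,[(6,0),(16,0),
  (9,0)]⟩⟩,⟨true,0,⟨0,[(18,0)]⟩,⟨0,[(7,0)]⟩⟩,⟨true,0,⟨0,[(7,0),(9,0)]⟩,⟨0,[(23,0)]⟩⟩,⟨false,1,⟨0,
  [(17,0),(13,0),(1,0)]⟩,⟨0,[(11,0)]⟩⟩,⟨false,0,⟨0,[]⟩,⟨0,[]⟩⟩,⟨false,0,⟨0,[]⟩,⟨0,[]⟩⟩,[.e ⟨false,0,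
  ⟨0,[(29,0),(1,0)]⟩,⟨3,[(13,0),(0,0),(18,1)]⟩⟩ ⟨false,1,⟨1,[(6,0),(11,1),(4,0),(8,0)]⟩,⟨0,[(0,
  0)]⟩⟩,.o ⟨false,1,⟨1,[(26,0),(4,1),(1,0)]⟩,⟨0,[(30,0)]⟩⟩,.a ⟨true,0,⟨0,[(7,0)]⟩,⟨0,[(4,0)]⟩⟩
  ⟨true,0,⟨0,[(35,0)]⟩,⟨0,[]⟩⟩ ⟨false,1,⟨1,[(6,0),(11,1),(4,0),(9,0)]⟩,⟨0,[(0,0)]⟩⟩,.o ⟨false,0,⟨0,
  [(21,0)]⟩,⟨0,[(18,0),(13,0)]⟩⟩]⟩) (.R ⟨0,false,false,false,[0,0,1],[1,-1],[0,1],(⟨0,[(25,0)]⟩,⟨0,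
  [(24,0)]⟩),(⟨0,[(27,0)]⟩,⟨0,[(28,0)]⟩),⟨0,[(1,0)]⟩,.k,.k,.k,.k,.k,.k,⟨false,0,⟨0,[(30,0)]⟩,⟨1,[(6,
  0),(16,0),(9,0)]⟩⟩,⟨true,0,⟨0,[(18,0)]⟩,⟨0,[(7,0)]⟩⟩,⟨true,0,⟨0,[(7,0),(9,0)]⟩,⟨0,[(23,0)]⟩⟩,
  ⟨false,1,⟨1,[(0,0),(4,0),(0,0),(11,0),(14,0)]⟩,⟨0,[(11,0)]⟩⟩,⟨false,0,⟨0,[]⟩,⟨0,[]⟩⟩,⟨false,0,⟨0,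
  []⟩,⟨0,[]⟩⟩,[.a ⟨true,0,⟨0,[(31,0)]⟩,⟨1,[(3,0),(3,0),(16,0),(0,1),(2,1),(0,1),(3,0)]⟩⟩ ⟨false,0,
  ⟨0,[(29,0),(1,0)]⟩,⟨3,[(13,0),(0,0),(18,1)]⟩⟩ ⟨true,0,⟨0,[(0,0)]⟩,⟨3,[(5,1),(1,1),(3,1),(9,0),(0,
  0)]⟩⟩,.o ⟨false,1,⟨1,[(26,0),(4,1),(1,0)]⟩,⟨0,[(30,0)]⟩⟩,.e ⟨true,0,⟨0,[(35,0)]⟩,⟨0,[]⟩⟩ ⟨true,0,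
  ⟨0,[(0,0)]⟩,⟨0,[(7,0),(22,0)]⟩⟩,.o ⟨false,0,⟨0,[(21,0)]⟩,⟨0,[(18,0),(13,0)]⟩⟩]⟩)) (.K ⟨0,[0,-1,1],
  0,0,(⟨0,[(0,0)]⟩,⟨0,[(23,0),(3,0)]⟩),.k,(.r (-1) ⟨0,[(5,0),(16,1)]⟩ ⟨5,[(4,7),(2,1),(4,0),(0,
  0)]⟩),.k,.k,.k,[⟨0,[(3,0)]⟩,⟨0,[(6,0)]⟩,⟨0,[(9,0)]⟩,⟨0,[(18,0),(11,0)]⟩]⟩)))) (.Q [0,0,0,1,0,0,0,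
  0,0,1] (.pp false [-1,1]) (.R ⟨1,false,false,false,[1,0,-1],[1,-1],[1,0,0,0,0,0,0,-1],(⟨0,[(21,
  0)]⟩,⟨0,[(22,0)]⟩),(⟨0,[(24,0)]⟩,⟨0,[(25,0)]⟩),⟨0,[(6,0)]⟩,.k,.k,.k,.k,.k,.k,⟨true,0,⟨0,[(2,0)]⟩,
  ⟨0,[(20,0),(7,0)]⟩⟩,⟨false,0,⟨0,[(1,0)]⟩,⟨0,[(19,0),(9,0)]⟩⟩,⟨true,0,⟨0,[]⟩,⟨0,[(32,0)]⟩⟩,⟨true,0,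
  ⟨0,[(1,0),(18,0),(7,0)]⟩,⟨0,[(7,0)]⟩⟩,⟨false,1,⟨0,[(27,0),(2,0)]⟩,⟨0,[(28,0)]⟩⟩,⟨true,0,⟨0,[(1,0),
  (18,0)]⟩,⟨0,[(17,0)]⟩⟩,[.a ⟨true,0,⟨0,[(28,0)]⟩,⟨0,[(0,0)]⟩⟩ ⟨false,1,⟨11,[(2,7),(0,3),(6,0),(0,
  0),(17,5)]⟩,⟨0,[(20,0)]⟩⟩ ⟨true,0,⟨0,[(1,0),(26,0)]⟩,⟨5,[(5,1),(1,1),(11,3),(9,0),(0,0)]⟩⟩,.o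
  ⟨false,1,⟨1,[(23,0),(4,1),(1,0)]⟩,⟨0,[(27,0)]⟩⟩,.o ⟨false,1,⟨3,[(10,0),(0,0),(3,3),(13,1)]⟩,⟨0,
  [(1,0)]⟩⟩,.o ⟨false,0,⟨0,[(15,0)]⟩,⟨0,[(18,0),(10,0)]⟩⟩]⟩) (.I [1,0,-1,-1,0,0,0,1] (.N [0,-1,1] 0
  ⟨0,[(0,0)]⟩ ⟨0,[(3,0)]⟩ .k) (.I [0,0,1,1,0,0,0,0,-1] (.I [0,1,1,0,-1,0,0,0,-1] (.Q [0,0,0,0,0,1,0,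
  0,0,0,0,-1] (.p false [0,0,0,1] [] (⟨0,[(16,0)]⟩,⟨1,[(15,0),(8,0),(0,0)]⟩) .k 0 (⟨0,[]⟩,⟨0,[]⟩)
  .k .k) (.R ⟨0,false,false,true,[0,0,0,1],[0,1],[0,1,1],(⟨0,[(17,0)]⟩,⟨1,[(16,0),(8,0),(0,0)]⟩),
  (⟨0,[(29,0)]⟩,⟨0,[(28,0)]⟩),⟨0,[(0,0)]⟩,.k,.k,(.r (-1) ⟨1,[(7,0),(7,0),(8,0)]⟩ ⟨0,[(2,0)]⟩),(.r
  (-1) ⟨1,[(7,0),(7,0),(8,0)]⟩ ⟨0,[(2,0)]⟩),.k,.k,⟨true,0,⟨0,[(32,0)]⟩,⟨5,[(6,1),(2,1),(4,0),(0,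
  0)]⟩⟩,⟨false,1,⟨0,[(17,0),(15,0)]⟩,⟨1,[(16,0),(2,0),(2,0)]⟩⟩,⟨true,(-1),⟨0,[(1,0)]⟩,⟨1,[(15,0),
  (17,0)]⟩⟩,⟨false,0,⟨0,[(1,0),(15,0),(12,0),(3,0)]⟩,⟨1,[(4,0),(10,0),(0,0),(15,0),(1,0)]⟩⟩,⟨false,
  0,⟨0,[]⟩,⟨0,[]⟩⟩,⟨false,0,⟨0,[]⟩,⟨0,[]⟩⟩,[.o ⟨false,0,⟨0,[(31,0)]⟩,⟨3,[(4,3),(9,0),(0,0),(18,
  1)]⟩⟩,.o ⟨false,1,⟨3,[(14,0),(0,0),(15,3),(2,1)]⟩,⟨0,[(4,0)]⟩⟩,.a ⟨true,0,⟨1,[(16,0),(8,0),(0,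
  0)]⟩,⟨0,[(17,0)]⟩⟩ ⟨false,0,⟨1,[(22,0),(0,0)]⟩,⟨1,[(33,0),(0,0)]⟩⟩ ⟨true,0,⟨0,[(17,0),(13,0)]⟩,⟨1,
  [(4,0),(11,0),(15,0)]⟩⟩,.o ⟨false,0,⟨1,[(16,0),(2,0),(2,0)]⟩,⟨1,[(17,1),(9,0),(5,0)]⟩⟩]⟩) (.Q [0,
  0,0,2,0,0,1,1,1,1,-1,-1] (.p false [0,0,1] [1,0,0,-1] (⟨0,[(26,0)]⟩,⟨0,[(25,0)]⟩) .k 2 (⟨1,[(16,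
  0),(8,0),(0,0)]⟩,⟨0,[(17,0)]⟩) .k (.x 0 ⟨0,[(5,0),(20,0)]⟩ ⟨3,[(14,0),(0,0),(3,3),(5,3),(7,1)]⟩))
  (.R ⟨1,false,false,false,[1,0,0,-1],[0,1,1],[0,1,0,-1,0,0,0,0,-1],(⟨1,[(17,0),(8,0),(0,0)]⟩,⟨0,
  [(18,0)]⟩),(⟨0,[(27,0),(2,0)]⟩,⟨0,[(11,0)]⟩),⟨0,[(1,0),(15,0)]⟩,.k,.k,(.x 0 ⟨1,[(1,1),(15,0),(2,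
  0),(2,0)]⟩ ⟨3,[(15,0),(0,0),(13,3),(3,1)]⟩),(.r (-1) ⟨13,[(2,3),(4,3),(0,9),(6,4),(15,1),(3,2)]⟩
  ⟨1,[(10,0),(5,0),(8,0)]⟩),(.r (-1) ⟨1,[(2,1),(5,1),(25,0),(0,0)]⟩ ⟨3,[(10,3),(4,0),(0,2)]⟩),.k,
  ⟨true,0,⟨0,[(2,0),(5,0)]⟩,⟨1,[(10,1),(5,0),(18,0)]⟩⟩,⟨false,1,⟨1,[(6,0),(2,0),(7,0),(16,1)]⟩,⟨0,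
  [(18,0),(1,0)]⟩⟩,⟨false,0,⟨0,[(33,0)]⟩,⟨0,[(32,0),(2,0)]⟩⟩,⟨true,0,⟨0,[(0,0),(32,0)]⟩,⟨3,[(2,3),
  (5,1),(9,3),(0,1),(0,1),(13,0),(0,0)]⟩⟩,⟨true,0,⟨0,[(37,0)]⟩,⟨0,[]⟩⟩,⟨true,0,⟨0,[(0,0)]⟩,⟨0,[(2,
  0),(5,0),(9,0),(1,0)]⟩⟩,[.o ⟨false,0,⟨4,[(5,0),(0,2),(3,2),(3,0),(19,2)]⟩,⟨5,[(7,1),(0,3),(6,0),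
  (0,0),(3,5)]⟩⟩,.o ⟨false,1,⟨1,[(13,1),(14,0),(6,0)]⟩,⟨0,[(5,0),(16,0)]⟩⟩,.a ⟨true,0,⟨0,[(18,0)]⟩,
  ⟨1,[(17,0),(8,0),(0,0)]⟩⟩ ⟨false,0,⟨1,[(2,1),(5,0),(16,0),(9,0)]⟩,⟨3,[(0,1),(15,0),(1,1),(0,1),
  (15,2)]⟩⟩ ⟨true,0,⟨3,[(0,1),(1,1),(11,0),(2,0),(16,0),(0,0)]⟩,⟨0,[(5,0),(12,0),(3,0)]⟩⟩,.o ⟨false,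
  0,⟨6,[(5,2),(1,0),(2,0),(7,6),(1,1),(2,1),(4,0)]⟩,⟨7,[(15,0),(0,0),(0,3),(10,1),(5,3)]⟩⟩]⟩) (.Q
  [0,0,0,0,0,0,-1,-1,-1,-1,1,1] (.p true [0,0,1] [1,0,0,-1] (⟨0,[(27,0)]⟩,⟨0,[(26,0)]⟩) .k 2 (⟨1,
  [(17,0),(8,0),(0,0)]⟩,⟨0,[(18,0)]⟩) .k (.x 0 ⟨0,[(6,0),(20,0)]⟩ ⟨3,[(15,0),(0,0),(3,3),(5,3),(7,
  1)]⟩)) (.R ⟨1,false,false,true,[0,0,0,1],[1,-1,-1],[1,0,0,0,0,0,0,0,1],(⟨0,[(19,0)]⟩,⟨1,[(18,0),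
  (8,0),(0,0)]⟩),(⟨0,[(12,0)]⟩,⟨0,[(28,0),(2,0)]⟩),⟨0,[(2,0)]⟩,.k,.k,(.r (-1) ⟨1,[(9,0),(7,0),(8,
  0)]⟩ ⟨0,[(4,0)]⟩),(.r 0 ⟨1,[(11,0),(5,0),(8,0)]⟩ ⟨9,[(0,1),(6,0),(0,1),(0,5),(0,0),(5,3),(1,0)]⟩),
  .k,.k,⟨false,1,⟨1,[(11,0),(5,0),(8,0),(8,0),(0,0)]⟩,⟨5,[(0,1),(2,3),(3,0),(1,3),(0,0),(7,0),(13,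
  1)]⟩⟩,⟨true,0,⟨0,[(19,0),(1,0)]⟩,⟨1,[(7,0),(2,0),(7,0)]⟩⟩,⟨true,0,⟨0,[]⟩,⟨0,[(38,0)]⟩⟩,⟨false,0,
  ⟨1,[(0,0),(0,0)]⟩,⟨9,[(7,1),(3,1),(2,1),(0,2),(1,4),(0,4),(13,3),(3,6)]⟩⟩,⟨false,1,⟨0,[(33,0),(2,
  0)]⟩,⟨0,[(34,0)]⟩⟩,⟨false,0,⟨0,[(0,0)]⟩,⟨1,[(15,0),(1,0),(0,0),(17,0)]⟩⟩,[.o ⟨false,0,⟨0,[(6,0),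
  (16,0)]⟩,⟨1,[(14,1),(14,0),(6,0)]⟩⟩,.o ⟨false,1,⟨15,[(1,7),(14,0),(0,4),(0,3),(4,7),(5,5),(6,3)]⟩,
  ⟨4,[(6,0),(0,2),(3,2),(3,0),(19,2)]⟩⟩,.a ⟨true,0,⟨1,[(18,0),(8,0),(0,0)]⟩,⟨0,[(19,0)]⟩⟩ ⟨false,1,
  ⟨1,[(17,0),(18,0)]⟩,⟨1,[(3,1),(31,0),(0,0)]⟩⟩ ⟨true,0,⟨0,[(6,0),(12,0),(3,0)]⟩,⟨9,[(7,1),(3,1),(2,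
  1),(0,2),(2,4),(13,3),(3,1)]⟩⟩,.o ⟨false,0,⟨1,[(18,0),(2,0),(2,0)]⟩,⟨1,[(19,1),(9,0),(5,0)]⟩⟩]⟩)
  (.Q [0,0,0,-1,0,0,-1,-1,-1,-1,1,1] (.p true [0,0,1] [1,0,0,-1] (⟨0,[(28,0)]⟩,⟨0,[(27,0)]⟩) .k 2
  (⟨1,[(18,0),(8,0),(0,0)]⟩,⟨0,[(19,0)]⟩) .k (.x 0 ⟨0,[(7,0),(20,0)]⟩ ⟨3,[(16,0),(0,0),(3,3),(5,3),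
  (7,1)]⟩)) (.R ⟨1,true,false,false,[1,0,-1],[0,0,0,1],[0,1,0,-1,0,0,0,-1],(⟨0,[(28,0)]⟩,⟨0,[(29,
  0)]⟩),(⟨0,[(20,0)]⟩,⟨1,[(19,0),(8,0),(0,0)]⟩),⟨0,[(13,0)]⟩,.k,.k,.k,.k,(.r (-1) ⟨7,[(0,1),(7,0),
  (0,1),(0,3),(0,0),(5,2),(1,0),(16,0)]⟩ ⟨1,[(12,0),(5,0),(8,0)]⟩),.k,⟨false,0,⟨3,[(0,1),(3,1),(3,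
  0),(1,1),(0,0),(7,0),(13,1)]⟩,⟨1,[(12,0),(5,0),(8,0),(8,0),(0,0)]⟩⟩,⟨true,0,⟨1,[(8,0),(2,0),(7,
  0)]⟩,⟨0,[(20,0),(1,0)]⟩⟩,⟨false,0,⟨0,[(35,0)]⟩,⟨0,[(34,0),(2,0)]⟩⟩,⟨true,0,⟨0,[(1,0)]⟩,⟨0,[(0,0),
  (33,0)]⟩⟩,⟨true,0,⟨0,[(39,0)]⟩,⟨0,[]⟩⟩,⟨false,1,⟨31,[(1,11),(7,1),(2,1),(2,19),(2,9),(0,9),(10,4),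
  (2,5),(3,18)]⟩,⟨0,[(0,0)]⟩⟩,[]⟩) (.R ⟨1,true,false,false,[1,0,0,-1],[0,1,1],[1,1,0,0,0,0,0,0,-1],
  (⟨1,[(19,0),(8,0),(0,0)]⟩,⟨0,[(20,0)]⟩),(⟨0,[(29,0),(2,0)]⟩,⟨0,[(13,0)]⟩),⟨0,[(3,0),(15,0)]⟩,.k,
  .k,(.x 0 ⟨1,[(3,1),(15,0),(2,0),(2,0)]⟩ ⟨3,[(17,0),(0,0),(13,3),(3,1)]⟩),(.r (-1) ⟨13,[(4,3),(4,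
  3),(0,9),(6,4),(15,1),(3,2)]⟩ ⟨1,[(12,0),(5,0),(8,0)]⟩),(.r (-1) ⟨1,[(4,1),(5,1),(25,0),(0,0)]⟩
  ⟨3,[(12,3),(4,0),(0,2)]⟩),.k,⟨true,0,⟨1,[(2,1),(5,0),(2,0),(7,0),(13,1)]⟩,⟨1,[(12,1),(5,0),(16,1),
  (1,0)]⟩⟩,⟨false,1,⟨1,[(8,0),(2,0),(7,0),(16,1)]⟩,⟨0,[(20,0),(1,0)]⟩⟩,⟨false,0,⟨0,[]⟩,⟨3,[(17,0),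
  (0,0),(18,1)]⟩⟩,⟨true,0,⟨0,[(0,0)]⟩,⟨0,[(2,0),(31,0)]⟩⟩,⟨true,0,⟨0,[(34,0)]⟩,⟨0,[(35,0)]⟩⟩,⟨false,
  1,⟨0,[(0,0),(33,0),(2,0)]⟩,⟨0,[(2,0)]⟩⟩,[]⟩))))) (.Q [0,0,0,-1,0,0,0,0,1,0,0,-1] (.p false [0,0,0,
  1] [] (⟨0,[(16,0)]⟩,⟨1,[(15,0),(8,0),(0,0)]⟩) .k 0 (⟨0,[]⟩,⟨0,[]⟩) .k .k) (.Q [0,0,0,0,0,1,0,0,0,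
  0,0,-1] (.p false [0,0,0,1] [] (⟨0,[(17,0)]⟩,⟨1,[(16,0),(8,0),(0,0)]⟩) .k 0 (⟨0,[]⟩,⟨0,[]⟩) .k
  .k) (.R ⟨0,false,false,true,[0,0,0,1],[0,1],[0,1,1],(⟨0,[(18,0)]⟩,⟨1,[(17,0),(8,0),(0,0)]⟩),(⟨0,
  [(30,0)]⟩,⟨0,[(29,0)]⟩),⟨0,[(0,0)]⟩,.k,.k,(.r (-1) ⟨1,[(8,0),(7,0),(8,0)]⟩ ⟨0,[(3,0)]⟩),(.r (-1)
  ⟨1,[(8,0),(7,0),(8,0)]⟩ ⟨0,[(3,0)]⟩),.k,.k,⟨true,0,⟨0,[(33,0)]⟩,⟨5,[(7,1),(2,1),(4,0),(0,0)]⟩⟩,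
  ⟨false,1,⟨0,[(18,0),(15,0)]⟩,⟨1,[(17,0),(2,0),(2,0)]⟩⟩,⟨false,0,⟨0,[(3,0),(29,0)]⟩,⟨0,[(2,0)]⟩⟩,
  ⟨true,0,⟨0,[(3,0),(14,0),(12,0),(1,0)]⟩,⟨0,[(1,0)]⟩⟩,⟨false,0,⟨0,[]⟩,⟨0,[]⟩⟩,⟨false,0,⟨0,[]⟩,⟨0,
  []⟩⟩,[.o ⟨false,0,⟨0,[(32,0)]⟩,⟨3,[(5,3),(9,0),(0,0),(18,1)]⟩⟩,.o ⟨false,1,⟨23,[(2,11),(4,3),(2,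
  3),(4,10),(0,4),(15,11)]⟩,⟨0,[(5,0)]⟩⟩,.a ⟨true,0,⟨1,[(17,0),(8,0),(0,0)]⟩,⟨0,[(18,0)]⟩⟩ ⟨false,0,
  ⟨1,[(23,0),(0,0)]⟩,⟨1,[(34,0),(0,0)]⟩⟩ ⟨true,0,⟨0,[(18,0),(13,0)]⟩,⟨1,[(5,0),(11,0),(15,0)]⟩⟩,.o
  ⟨false,0,⟨1,[(17,0),(2,0),(2,0)]⟩,⟨1,[(18,1),(9,0),(5,0)]⟩⟩]⟩) (.Q [0,-1,0,1,0,0,1,1,1,1,-1,-1]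
  (.p false [0,0,1] [1,0,0,-1] (⟨0,[(27,0)]⟩,⟨0,[(26,0)]⟩) .k 2 (⟨1,[(17,0),(8,0),(0,0)]⟩,⟨0,[(18,
  0)]⟩) .k (.r 0 ⟨3,[(1,2),(0,0),(7,0),(7,2),(6,2),(5,0)]⟩ ⟨11,[(7,7),(0,3),(6,6),(0,0)]⟩)) (.R ⟨1,
  false,false,true,[0,0,0,1],[1,-1,-1],[1,1,0,0,0,0,0,0,1],(⟨0,[(19,0)]⟩,⟨1,[(18,0),(8,0),(0,0)]⟩),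
  (⟨0,[(12,0)]⟩,⟨0,[(28,0),(2,0)]⟩),⟨0,[(1,0)]⟩,.k,.k,(.r (-1) ⟨1,[(9,0),(7,0),(8,0)]⟩ ⟨0,[(4,0)]⟩),
  (.r 0 ⟨1,[(11,0),(5,0),(8,0)]⟩ ⟨0,[(4,0),(4,0)]⟩),.k,.k,⟨false,0,⟨1,[(2,0),(0,0),(7,0),(7,0),(6,
  0),(5,0)]⟩,⟨0,[(4,0),(4,0)]⟩⟩,⟨true,0,⟨0,[(19,0),(1,0)]⟩,⟨1,[(7,0),(2,0),(7,0)]⟩⟩,⟨false,0,⟨0,[]⟩,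
  ⟨3,[(16,0),(0,0),(18,1)]⟩⟩,⟨false,1,⟨1,[(6,1),(9,0),(2,1),(3,1),(12,0)]⟩,⟨0,[(0,0)]⟩⟩,⟨true,0,⟨0,
  [(33,0)]⟩,⟨0,[(34,0)]⟩⟩,⟨false,1,⟨1,[(16,0),(2,1),(0,1),(15,0)]⟩,⟨0,[(0,0),(33,0)]⟩⟩,[.o ⟨false,0,
  ⟨0,[(6,0),(16,0)]⟩,⟨1,[(14,1),(14,0),(6,0)]⟩⟩,.o ⟨false,1,⟨5,[(8,1),(0,3),(6,0),(0,0),(3,5)]⟩,⟨4,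
  [(6,0),(0,2),(3,2),(3,0),(19,2)]⟩⟩,.a ⟨true,0,⟨1,[(18,0),(8,0),(0,0)]⟩,⟨0,[(19,0)]⟩⟩ ⟨false,0,⟨1,
  [(0,0),(1,0),(16,1),(0,0)]⟩,⟨1,[(16,0),(19,0)]⟩⟩ ⟨true,0,⟨0,[(6,0),(12,0),(3,0)]⟩,⟨2,[(0,0),(3,0),
  (10,0),(2,0),(13,0)]⟩⟩,.o ⟨false,0,⟨1,[(18,0),(2,0),(2,0)]⟩,⟨1,[(19,1),(9,0),(5,0)]⟩⟩]⟩) (.Q [0,0,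
  0,0,0,0,0,0,1,0,0,-1] (.p false [0,0,0,1] [] (⟨0,[(19,0)]⟩,⟨1,[(18,0),(8,0),(0,0)]⟩) .k 0 (⟨0,[]⟩,
  ⟨0,[]⟩) .k .k) (.R ⟨1,false,false,false,[1,0,0,-1],[0,1,1],[1,0,0,0,0,0,0,0,-1],(⟨1,[(19,0),(8,0),
  (0,0)]⟩,⟨0,[(20,0)]⟩),(⟨0,[(29,0),(2,0)]⟩,⟨0,[(13,0)]⟩),⟨0,[(2,0),(16,0)]⟩,.k,.k,(.r (-1) ⟨1,[(10,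
  0),(6,0),(9,0)]⟩ ⟨2,[(0,0),(8,0),(2,0),(5,0),(1,0)]⟩),(.r (-1) ⟨0,[(5,0),(4,0)]⟩ ⟨1,[(12,0),(5,0),
  (8,0)]⟩),(.r (-2) ⟨3,[(10,3),(6,2),(0,0)]⟩ ⟨0,[(0,0),(11,0),(7,0)]⟩),.k,⟨true,1,⟨0,[(5,0),(4,0)]⟩,
  ⟨0,[(3,0),(8,0),(7,0)]⟩⟩,⟨false,1,⟨1,[(8,0),(2,0),(7,0),(16,1)]⟩,⟨0,[(20,0),(1,0)]⟩⟩,⟨true,0,⟨0,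
  []⟩,⟨0,[(39,0)]⟩⟩,⟨true,0,⟨0,[(0,0),(14,0)]⟩,⟨0,[(1,0)]⟩⟩,⟨false,1,⟨0,[(34,0),(2,0)]⟩,⟨0,[(35,
  0)]⟩⟩,⟨true,0,⟨3,[(0,1),(3,1),(3,0),(2,0),(0,1),(2,1),(3,0),(13,1)]⟩,⟨0,[(1,0),(33,0)]⟩⟩,[.o
  ⟨false,0,⟨4,[(7,0),(0,2),(3,2),(3,0),(19,2)]⟩,⟨5,[(9,1),(0,3),(6,0),(0,0),(3,5)]⟩⟩,.o ⟨false,1,⟨1,
  [(15,1),(14,0),(6,0)]⟩,⟨1,[(1,0),(1,0),(17,0)]⟩⟩,.a ⟨true,0,⟨0,[(20,0)]⟩,⟨1,[(19,0),(8,0),(0,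
  0)]⟩⟩ ⟨false,1,⟨1,[(17,0),(19,0)]⟩,⟨0,[(0,0),(19,0)]⟩⟩ ⟨true,0,⟨9,[(8,1),(3,1),(2,1),(0,2),(2,4),
  (13,3),(3,1)]⟩,⟨1,[(1,0),(1,0),(16,1),(0,0)]⟩⟩,.o ⟨false,0,⟨6,[(7,2),(1,0),(2,0),(7,6),(1,1),(2,
  1),(4,0)]⟩,⟨7,[(17,0),(0,0),(0,3),(10,1),(5,3)]⟩⟩]⟩) (.R ⟨2,true,false,false,[0,1],[0,0,0,1],[0,1,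
  1],(⟨0,[]⟩,⟨0,[]⟩),(⟨0,[(20,0)]⟩,⟨1,[(19,0),(8,0),(0,0)]⟩),⟨0,[]⟩,.k,.k,.k,(.r 0 ⟨0,[(5,0)]⟩ ⟨1,
  [(10,0),(7,0),(8,0)]⟩),.k,.k,⟨false,0,⟨4,[(0,1),(0,1),(3,0),(13,1),(3,1),(9,0)]⟩,⟨0,[(4,0)]⟩⟩,
  ⟨true,0,⟨1,[(19,0),(2,0),(2,0)]⟩,⟨0,[(20,0)]⟩⟩,⟨false,0,⟨0,[(35,0)]⟩,⟨0,[(34,0),(2,0)]⟩⟩,⟨true,0,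
  ⟨0,[(3,0)]⟩,⟨0,[(0,0),(33,0)]⟩⟩,⟨true,0,⟨0,[(39,0)]⟩,⟨0,[]⟩⟩,⟨false,1,⟨25,[(3,5),(0,5),(4,1),(2,
  1),(5,6),(0,9),(10,4),(6,9)]⟩,⟨0,[(0,0)]⟩⟩,[]⟩)))) (.Q [0,0,0,0,0,1,0,0,0,0,0,-1] (.p false [0,0,
  0,1] [] (⟨0,[(17,0)]⟩,⟨1,[(16,0),(8,0),(0,0)]⟩) .k 0 (⟨0,[]⟩,⟨0,[]⟩) .k .k) (.R ⟨0,false,false,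
  true,[0,0,0,1],[0,1],[],(⟨0,[(18,0)]⟩,⟨1,[(17,0),(8,0),(0,0)]⟩),(⟨0,[(30,0)]⟩,⟨0,[(29,0)]⟩),⟨0,
  [(0,0)]⟩,.k,.k,(.r (-1) ⟨1,[(8,0),(7,0),(8,0)]⟩ ⟨0,[(3,0)]⟩),(.r (-1) ⟨1,[(8,0),(7,0),(8,0)]⟩ ⟨0,
  [(3,0)]⟩),.k,.k,⟨true,1,⟨1,[(8,0),(16,0),(9,0)]⟩,⟨0,[(5,0),(3,0),(0,0),(11,0)]⟩⟩,⟨false,1,⟨0,[(18,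
  0),(15,0)]⟩,⟨1,[(17,0),(2,0),(2,0)]⟩⟩,⟨true,0,⟨1,[(1,1),(3,0),(11,0),(15,0)]⟩,⟨0,[(2,0),(2,0),(3,
  0),(0,0),(11,0),(8,0),(1,1)]⟩⟩,⟨false,0,⟨0,[(1,0)]⟩,⟨1,[(5,0),(10,0),(0,0),(15,0),(1,0)]⟩⟩,⟨false,
  0,⟨0,[]⟩,⟨0,[]⟩⟩,⟨false,0,⟨0,[]⟩,⟨0,[]⟩⟩,[.o ⟨false,0,⟨0,[(32,0)]⟩,⟨3,[(5,3),(9,0),(0,0),(18,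
  1)]⟩⟩,.o ⟨false,1,⟨23,[(2,11),(4,3),(2,3),(4,10),(0,4),(15,11)]⟩,⟨0,[(5,0)]⟩⟩,.a ⟨true,0,⟨1,[(17,
  0),(8,0),(0,0)]⟩,⟨0,[(18,0)]⟩⟩ ⟨false,1,⟨3,[(15,0),(0,0),(18,1)]⟩,⟨0,[]⟩⟩ ⟨true,0,⟨0,[(18,0),(13,
  0)]⟩,⟨1,[(5,0),(11,0),(15,0)]⟩⟩,.o ⟨false,0,⟨1,[(17,0),(2,0),(2,0)]⟩,⟨1,[(18,1),(9,0),(5,0)]⟩⟩]⟩)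
  (.R ⟨1,false,false,false,[1,0,0,-1],[1,-1],[0,1,0,-1,0,0,0,0,-1],(⟨1,[(17,0),(8,0),(0,0)]⟩,⟨0,
  [(18,0)]⟩),(⟨0,[(29,0)]⟩,⟨0,[(30,0)]⟩),⟨0,[(0,0),(16,0)]⟩,.k,.k,(.r (-1) ⟨1,[(8,0),(6,0),(9,0)]⟩
  ⟨0,[(2,0),(2,0),(3,0),(0,0),(11,0)]⟩),(.r 0 ⟨0,[(3,0)]⟩ ⟨1,[(8,0),(7,0),(8,0)]⟩),.k,.k,⟨false,0,
  ⟨1,[(1,1),(3,0),(11,0),(15,0),(3,1)]⟩,⟨0,[(2,0)]⟩⟩,⟨true,0,⟨1,[(17,0),(2,0),(2,0)]⟩,⟨0,[(18,0)]⟩⟩,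
  ⟨false,0,⟨0,[(33,0)]⟩,⟨0,[(32,0),(2,0)]⟩⟩,⟨false,1,⟨1,[(5,0),(10,0),(0,0),(15,0),(1,0)]⟩,⟨0,[(1,
  0)]⟩⟩,⟨true,0,⟨0,[(37,0)]⟩,⟨0,[]⟩⟩,⟨false,1,⟨19,[(2,5),(2,5),(1,1),(2,1),(5,6),(0,9),(10,1),(6,
  6)]⟩,⟨0,[(1,0),(31,0)]⟩⟩,[.o ⟨false,0,⟨0,[(5,0)]⟩,⟨23,[(2,11),(4,3),(2,3),(4,10),(0,4),(15,11)]⟩⟩,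
  .o ⟨false,1,⟨3,[(5,3),(9,0),(0,0),(18,1)]⟩,⟨0,[(32,0)]⟩⟩,.a ⟨true,0,⟨0,[(18,0)]⟩,⟨1,[(17,0),(8,0),
  (0,0)]⟩⟩ ⟨false,0,⟨1,[(1,1),(3,0),(11,0),(15,2)]⟩,⟨5,[(2,5),(4,1),(2,1),(4,0),(0,0)]⟩⟩ ⟨true,0,⟨1,
  [(5,0),(11,0),(15,0)]⟩,⟨0,[(18,0),(13,0)]⟩⟩,.o ⟨false,0,⟨6,[(5,2),(1,0),(2,0),(7,6),(1,1),(2,1),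
  (4,0)]⟩,⟨7,[(15,0),(0,0),(0,3),(10,1),(5,3)]⟩⟩]⟩)))) (.Q [0,0,0,0,0,1,0,0,0,0,0,-1] (.p false [0,
  0,0,1] [] (⟨0,[(15,0)]⟩,⟨1,[(14,0),(8,0),(0,0)]⟩) .k 0 (⟨0,[]⟩,⟨0,[]⟩) .k .k) (.R ⟨0,false,false,
  false,[0,0,0,1],[1,-1],[0,0,-1,-1],(⟨0,[(16,0)]⟩,⟨1,[(15,0),(8,0),(0,0)]⟩),(⟨0,[(27,0)]⟩,⟨0,[(28,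
  0)]⟩),⟨0,[(0,0)]⟩,.k,.k,(.x 0 ⟨6,[(3,2),(1,0),(2,0),(9,1),(2,1),(4,0),(0,6)]⟩ ⟨3,[(13,0),(0,0),
  (13,3),(3,1)]⟩),(.r 0 ⟨4,[(1,0),(3,1),(2,1),(5,1)]⟩ ⟨1,[(6,0),(6,0),(9,0)]⟩),.k,.k,⟨false,1,⟨3,
  [(13,0),(0,0),(17,1)]⟩,⟨0,[]⟩⟩,⟨true,0,⟨6,[(3,2),(1,0),(2,0),(7,6),(1,1),(2,1),(4,0)]⟩,⟨1,[(15,0),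
  (8,0),(0,0)]⟩⟩,⟨true,1,⟨1,[(6,0),(6,0),(9,0)]⟩,⟨0,[(1,0),(2,0),(3,0),(11,0)]⟩⟩,⟨false,1,⟨1,[(3,1),
  (9,0),(2,1),(16,0)]⟩,⟨19,[(1,17),(3,5),(2,5),(1,9),(0,9),(2,0),(0,9),(17,4)]⟩⟩,⟨false,0,⟨0,[]⟩,⟨0,
  []⟩⟩,⟨false,0,⟨0,[]⟩,⟨0,[]⟩⟩,[.o ⟨false,0,⟨0,[(3,0)]⟩,⟨3,[(13,0),(0,0),(15,3),(2,1)]⟩⟩,.o ⟨false,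
  1,⟨3,[(3,3),(9,0),(0,0),(18,1)]⟩,⟨0,[(30,0)]⟩⟩,.a ⟨true,0,⟨1,[(15,0),(8,0),(0,0)]⟩,⟨0,[(16,0)]⟩⟩
  ⟨false,1,⟨1,[(6,0),(16,0),(9,0)]⟩,⟨5,[(5,1),(2,1),(4,0),(0,0)]⟩⟩ ⟨true,0,⟨0,[(3,0),(12,0)]⟩,⟨1,
  [(10,0),(0,0),(3,0),(19,0)]⟩⟩,.o ⟨false,0,⟨1,[(15,0),(2,0),(2,0)]⟩,⟨1,[(16,1),(9,0),(5,0)]⟩⟩]⟩)
  (.I [0,0,-1,-1,0,0,0,0,1] (.I [0,0,-1,0,0,0,0,0,1] (.Q [0,0,0,-2,0,0,-1,-1,1,0,1,-1] (.p true [0,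
  0,1] [0,0,0,1] (⟨0,[(27,0)]⟩,⟨0,[(26,0)]⟩) .k 2 (⟨0,[(18,0)]⟩,⟨1,[(17,0),(8,0),(0,0)]⟩) .k (.r
  (-1) ⟨3,[(15,2),(0,0),(8,3)]⟩ ⟨0,[(1,0),(2,0)]⟩)) (.Q [0,0,0,-1,0,0,-1,-1,1,0,1,-1] (.p true [0,0,
  1] [0,0,0,1] (⟨0,[(28,0)]⟩,⟨0,[(27,0)]⟩) .k 2 (⟨0,[(19,0)]⟩,⟨1,[(18,0),(8,0),(0,0)]⟩) .k (.r (-1)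
  ⟨3,[(16,2),(0,0),(8,3)]⟩ ⟨0,[(2,0),(2,0)]⟩)) (.R ⟨1,false,false,false,[0,0,0,1],[0,1,1],[1,1,0,0,
  0,0,0,0,1],(⟨0,[(20,0)]⟩,⟨1,[(19,0),(8,0),(0,0)]⟩),(⟨0,[(29,0),(2,0)]⟩,⟨0,[(13,0)]⟩),⟨0,[(4,0)]⟩,
  .k,.k,(.r 0 ⟨0,[(3,0)]⟩ ⟨11,[(9,3),(2,3),(4,10),(0,4)]⟩),(.r (-1) ⟨4,[(5,0),(3,1),(0,2),(7,1)]⟩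
  ⟨1,[(12,0),(4,0),(9,0)]⟩),(.r (-1) ⟨4,[(5,2),(3,0),(0,3),(7,0)]⟩ ⟨3,[(12,3),(4,2),(0,0)]⟩),.k,
  ⟨true,0,⟨0,[(5,0),(2,0),(15,0)]⟩,⟨1,[(12,1),(4,0),(17,1),(1,0)]⟩⟩,⟨false,1,⟨0,[(8,0),(11,0),(15,
  0)]⟩,⟨1,[(19,0),(2,0),(3,0)]⟩⟩,⟨false,0,⟨0,[]⟩,⟨3,[(17,0),(0,0),(18,1)]⟩⟩,⟨false,1,⟨9,[(7,1),(0,
  5),(3,5),(3,1),(0,4),(2,9),(15,5),(0,4)]⟩,⟨0,[(0,0)]⟩⟩,⟨true,0,⟨0,[(34,0)]⟩,⟨0,[(35,0)]⟩⟩,⟨false,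
  1,⟨1,[(8,1),(3,1),(4,0),(2,1),(15,1),(0,0)]⟩,⟨0,[(1,0)]⟩⟩,[.o ⟨false,0,⟨4,[(7,0),(0,2),(3,2),(3,
  0),(19,2)]⟩,⟨5,[(9,1),(0,3),(6,0),(0,0),(3,5)]⟩⟩,.o ⟨false,1,⟨1,[(15,1),(14,0),(6,0)]⟩,⟨0,[(7,0),
  (16,0)]⟩⟩,.a ⟨true,0,⟨1,[(19,0),(8,0),(0,0)]⟩,⟨0,[(20,0)]⟩⟩ ⟨false,0,⟨4,[(5,2),(3,0),(2,0),(5,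
  0)]⟩,⟨1,[(17,0),(19,0)]⟩⟩ ⟨true,0,⟨4,[(7,0),(0,2),(3,2),(3,0),(3,4),(15,2)]⟩,⟨1,[(7,0),(11,0),(4,
  1),(10,0)]⟩⟩,.o ⟨false,0,⟨1,[(19,0),(2,0),(2,0)]⟩,⟨1,[(20,1),(9,0),(5,0)]⟩⟩]⟩) (.R ⟨1,true,false,
  false,[0,0,0,1],[0,1,1],[1,1,0,0,0,0,0,0,1],(⟨0,[(20,0)]⟩,⟨1,[(19,0),(8,0),(0,0)]⟩),(⟨0,[(29,0),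
  (2,0)]⟩,⟨0,[(13,0)]⟩),⟨0,[(4,0)]⟩,.k,.k,(.r 0 ⟨0,[(3,0)]⟩ ⟨11,[(9,3),(2,3),(4,10),(0,4)]⟩),(.r
  (-1) ⟨4,[(5,0),(3,1),(0,2),(7,1)]⟩ ⟨1,[(12,0),(4,0),(9,0)]⟩),(.r (-1) ⟨4,[(5,2),(3,0),(0,3),(7,
  0)]⟩ ⟨3,[(12,3),(4,2),(0,0)]⟩),.k,⟨true,0,⟨0,[(5,0),(2,0),(15,0)]⟩,⟨1,[(12,1),(4,0),(17,1),(1,
  0)]⟩⟩,⟨false,1,⟨5,[(0,5),(1,3),(6,1),(0,3),(7,0),(17,0)]⟩,⟨1,[(19,0),(2,0),(3,0)]⟩⟩,⟨false,0,⟨0,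
  []⟩,⟨3,[(17,0),(0,0),(18,1)]⟩⟩,⟨true,0,⟨0,[(0,0)]⟩,⟨0,[(1,0),(32,0)]⟩⟩,⟨true,0,⟨0,[(34,0)]⟩,⟨0,
  [(35,0)]⟩⟩,⟨false,1,⟨0,[(0,0),(33,0),(2,0)]⟩,⟨0,[(1,0)]⟩⟩,[]⟩)) (.R ⟨1,false,false,false,[0,0,0,
  1],[0,1,1],[1,1,0,0,0,0,0,0,1],(⟨0,[(19,0)]⟩,⟨1,[(18,0),(8,0),(0,0)]⟩),(⟨0,[(28,0),(2,0)]⟩,⟨0,
  [(12,0)]⟩),⟨0,[(3,0)]⟩,.k,.k,(.r 0 ⟨0,[(2,0)]⟩ ⟨11,[(8,3),(2,3),(4,10),(0,4)]⟩),(.r (-1) ⟨4,[(4,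
  0),(3,1),(0,2),(7,1)]⟩ ⟨1,[(11,0),(4,0),(9,0)]⟩),(.r (-1) ⟨4,[(4,2),(3,0),(0,3),(7,0)]⟩ ⟨3,[(11,
  3),(4,2),(0,0)]⟩),.k,⟨true,0,⟨0,[(4,0),(2,0),(15,0)]⟩,⟨1,[(11,1),(4,0),(17,1),(1,0)]⟩⟩,⟨false,1,
  ⟨4,[(0,3),(0,1),(5,0),(1,3),(7,0),(1,0)]⟩,⟨1,[(18,0),(2,0),(3,0)]⟩⟩,⟨false,0,⟨0,[]⟩,⟨3,[(16,0),(0,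
  0),(18,1)]⟩⟩,⟨true,0,⟨0,[(0,0),(33,0)]⟩,⟨1,[(4,1),(13,0),(2,0),(1,1),(0,0)]⟩⟩,⟨true,0,⟨0,[(33,
  0)]⟩,⟨0,[(34,0)]⟩⟩,⟨true,0,⟨0,[(0,0)]⟩,⟨1,[(4,1),(13,0),(2,0),(1,1),(0,0),(9,1)]⟩⟩,[.o ⟨false,0,
  ⟨16,[(0,5),(0,5),(4,0),(0,2),(3,2),(3,3),(2,2),(10,2)]⟩,⟨5,[(8,1),(0,3),(6,0),(0,0),(3,5)]⟩⟩,.o
  ⟨false,1,⟨1,[(14,1),(14,0),(6,0)]⟩,⟨0,[(6,0),(16,0)]⟩⟩,.a ⟨true,0,⟨1,[(18,0),(8,0),(0,0)]⟩,⟨0,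
  [(19,0)]⟩⟩ ⟨false,0,⟨4,[(4,2),(3,0),(2,0),(5,0)]⟩,⟨1,[(16,0),(19,0)]⟩⟩ ⟨true,0,⟨7,[(0,2),(0,2),(9,
  0),(3,1),(3,4),(4,0),(4,0)]⟩,⟨1,[(6,0),(11,0),(4,1),(10,0)]⟩⟩,.o ⟨false,0,⟨1,[(18,0),(2,0),(2,
  0)]⟩,⟨1,[(19,1),(9,0),(5,0)]⟩⟩]⟩)) (.R ⟨1,false,false,false,[1,0,0,-1],[1,-1],[0,0,-1,-1],(⟨1,
  [(17,0),(8,0),(0,0)]⟩,⟨0,[(18,0)]⟩),(⟨0,[(29,0)]⟩,⟨0,[(30,0)]⟩),⟨0,[(2,0),(14,0)]⟩,.k,.k,(.r (-1)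
  ⟨1,[(8,0),(6,0),(9,0)]⟩ ⟨4,[(3,0),(3,1),(2,1),(5,1)]⟩),(.r (-1) ⟨11,[(7,3),(2,3),(4,10),(0,4)]⟩
  ⟨0,[(1,0)]⟩),.k,.k,⟨false,1,⟨3,[(15,0),(0,0),(17,1)]⟩,⟨0,[]⟩⟩,⟨true,0,⟨1,[(17,0),(2,0),(2,0)]⟩,⟨0,
  [(18,0)]⟩⟩,⟨true,0,⟨0,[(1,0)]⟩,⟨0,[(0,0),(31,0)]⟩⟩,⟨true,0,⟨1,[(3,1),(13,0),(2,0),(2,0)]⟩,⟨0,[(0,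
  0),(17,0),(12,0)]⟩⟩,⟨false,1,⟨3,[(3,1),(12,0),(14,1),(3,2)]⟩,⟨0,[(0,0)]⟩⟩,⟨true,0,⟨19,[(3,17),(3,
  5),(2,5),(5,0),(0,9),(10,4)]⟩,⟨0,[(0,0),(17,0),(12,0),(1,0)]⟩⟩,[.o ⟨false,0,⟨0,[(5,0)]⟩,⟨3,[(15,
  0),(0,0),(15,3),(2,1)]⟩⟩,.o ⟨false,1,⟨3,[(5,3),(9,0),(0,0),(18,1)]⟩,⟨0,[(32,0)]⟩⟩,.a ⟨true,0,⟨0,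
  [(18,0)]⟩,⟨1,[(17,0),(8,0),(0,0)]⟩⟩ ⟨false,1,⟨1,[(8,0),(16,0),(9,0)]⟩,⟨5,[(7,1),(2,1),(4,0),(0,
  0)]⟩⟩ ⟨true,0,⟨1,[(5,0),(11,0),(15,0)]⟩,⟨0,[(18,0),(13,0)]⟩⟩,.o ⟨false,0,⟨6,[(5,2),(1,0),(2,0),(7,
  6),(1,1),(2,1),(4,0)]⟩,⟨7,[(15,0),(0,0),(0,3),(10,1),(5,3)]⟩⟩]⟩)) (.R ⟨1,false,false,true,[0,0,0,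
  1],[0,1],[1,1,0,0,0,0,0,0,1],(⟨0,[(17,0)]⟩,⟨1,[(16,0),(8,0),(0,0)]⟩),(⟨0,[(29,0)]⟩,⟨0,[(28,0)]⟩),
  ⟨0,[(1,0)]⟩,.k,.k,(.x 0 ⟨1,[(1,1),(14,0),(2,0),(2,0)]⟩ ⟨3,[(14,0),(0,0),(13,3),(3,1)]⟩),(.x 0 ⟨1,
  [(1,1),(14,0),(2,0),(2,0)]⟩ ⟨3,[(14,0),(0,0),(13,3),(3,1)]⟩),(.r (-1) ⟨3,[(2,1),(4,2),(7,0),(8,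
  2)]⟩ ⟨11,[(6,7),(2,7),(4,6),(0,0)]⟩),.k,⟨true,0,⟨0,[(2,0)]⟩,⟨1,[(0,1),(21,0),(0,0)]⟩⟩,⟨false,1,⟨0,
  [(17,0),(15,0)]⟩,⟨1,[(16,0),(2,0),(2,0)]⟩⟩,⟨false,0,⟨0,[]⟩,⟨3,[(14,0),(0,0),(18,1)]⟩⟩,⟨true,0,⟨0,
  [(0,0),(16,0),(12,0),(1,0)]⟩,⟨1,[(2,1),(13,0),(2,0),(2,0)]⟩⟩,⟨true,0,⟨0,[(31,0)]⟩,⟨0,[(32,0)]⟩⟩,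
  ⟨true,0,⟨0,[(0,0),(16,0),(12,0)]⟩,⟨1,[(2,1),(13,0),(2,0),(2,0),(9,1)]⟩⟩,[.o ⟨false,0,⟨0,[(31,0)]⟩,
  ⟨3,[(4,3),(9,0),(0,0),(18,1)]⟩⟩,.o ⟨false,1,⟨3,[(14,0),(0,0),(15,3),(2,1)]⟩,⟨0,[(4,0)]⟩⟩,.a ⟨true,
  0,⟨1,[(16,0),(8,0),(0,0)]⟩,⟨0,[(17,0)]⟩⟩ ⟨false,0,⟨4,[(2,2),(3,0),(2,0),(5,0)]⟩,⟨1,[(14,0),(19,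
  0)]⟩⟩ ⟨true,0,⟨0,[(17,0),(13,0)]⟩,⟨1,[(4,0),(11,0),(15,0)]⟩⟩,.o ⟨false,0,⟨1,[(16,0),(2,0),(2,0)]⟩,
  ⟨1,[(17,1),(9,0),(5,0)]⟩⟩]⟩)))))))

theorem ok48 : chk (cU (-1) false 3) t48 r28 = true := by decide +kernel

noncomputable def t51 : Tre :=
  (.Q [0,0,0,1,0,0,-1,-1,0,0,1] (.p true [0,0,1] [] (⟨0,[(18,0)]⟩,⟨0,[(17,0)]⟩) .k 0 (⟨0,[]⟩,⟨0,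
  []⟩) .k .k) (.R ⟨1,false,false,false,[1,0,-1],[1,-1],[1,1,0,0,0,0,0,-1],(⟨0,[(18,0)]⟩,⟨0,[(19,
  0)]⟩),(⟨0,[(21,0)]⟩,⟨0,[(22,0)]⟩),⟨0,[(3,0)]⟩,.k,.k,.k,.k,.k,.k,⟨false,0,⟨0,[(0,0),(14,0),(7,0),
  (1,0)]⟩,⟨1,[(17,1),(7,1),(0,0),(0,0)]⟩⟩,⟨true,0,⟨0,[(15,0)]⟩,⟨0,[(0,0),(16,0),(7,0)]⟩⟩,⟨false,0,
  ⟨0,[]⟩,⟨3,[(7,0),(0,0),(18,1)]⟩⟩,⟨false,1,⟨7,[(6,3),(0,0),(0,0),(11,1),(4,7),(1,3)]⟩,⟨0,[(0,0)]⟩⟩,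
  ⟨true,0,⟨0,[(24,0)]⟩,⟨0,[(25,0)]⟩⟩,⟨false,1,⟨7,[(6,3),(0,0),(0,0),(11,1),(6,3)]⟩,⟨0,[(0,0),(24,
  0)]⟩⟩,[.a ⟨true,0,⟨0,[(25,0)]⟩,⟨1,[(0,0),(4,0),(12,0),(0,0)]⟩⟩ ⟨true,0,⟨0,[(0,0),(14,0),(7,0),(1,
  1)]⟩,⟨1,[(2,0),(14,0),(7,1),(1,0)]⟩⟩ ⟨false,1,⟨0,[(15,0),(9,0),(0,0)]⟩,⟨0,[(0,0),(16,0)]⟩⟩,.o
  ⟨false,1,⟨1,[(20,0),(4,1),(1,0)]⟩,⟨0,[(24,0)]⟩⟩,.o ⟨false,0,⟨0,[(1,0)]⟩,⟨3,[(7,0),(0,0),(6,3),(10,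
  1)]⟩⟩,.o ⟨false,0,⟨0,[(12,0)]⟩,⟨0,[(15,0),(10,0)]⟩⟩]⟩) (.I [0,-1,0,0,1,0,0,-1] (.Q [0,0,0,0,0,1,0,
  0,0,0,-1] (.ed true [1,-1,1] .k) (.Q [0,0,0,1,0,0,0,0,0,1] (.pp false [-1,1]) (.R ⟨0,false,false,
  false,[0,0,1],[1,-1],[1,0,-1,-1],(⟨0,[(22,0)]⟩,⟨0,[(21,0)]⟩),(⟨0,[(24,0)]⟩,⟨0,[(25,0)]⟩),⟨0,[(1,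
  0)]⟩,.k,.k,.k,.k,.k,.k,⟨true,0,⟨0,[]⟩,⟨1,[(18,0),(0,0)]⟩⟩,⟨false,0,⟨0,[(4,0)]⟩,⟨0,[(18,0),(2,0),
  (0,0),(6,0)]⟩⟩,⟨true,1,⟨0,[(2,0),(23,0),(1,1)]⟩,⟨0,[(5,0),(20,0),(1,1)]⟩⟩,⟨false,1,⟨0,[(2,0),(1,
  0),(23,0)]⟩,⟨0,[(8,0)]⟩⟩,⟨false,0,⟨0,[]⟩,⟨0,[]⟩⟩,⟨false,0,⟨0,[]⟩,⟨0,[]⟩⟩,[.a ⟨true,0,⟨0,[(28,0)]⟩,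
  ⟨0,[(0,0)]⟩⟩ ⟨false,1,⟨0,[(28,0),(0,0)]⟩,⟨9,[(2,1),(2,3),(1,1),(2,0),(0,0),(6,1)]⟩⟩ ⟨true,0,⟨0,
  [(4,0),(23,0)]⟩,⟨0,[(0,0),(17,0)]⟩⟩,.o ⟨false,1,⟨1,[(23,0),(4,1),(1,0)]⟩,⟨0,[(27,0)]⟩⟩,.o ⟨false,
  1,⟨0,[(2,0),(13,0)]⟩,⟨0,[(4,0)]⟩⟩,.o ⟨false,0,⟨0,[(18,0)]⟩,⟨0,[(15,0),(13,0)]⟩⟩]⟩) (.K ⟨2,[1,-1,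
  1],0,0,(⟨0,[(22,0),(1,0)]⟩,⟨0,[(1,0)]⟩),.k,(.x 0 ⟨7,[(0,12),(1,3),(2,4),(8,0),(3,8),(3,7),(0,0),
  (0,15),(1,2)]⟩ ⟨0,[(4,0),(16,0),(3,1),(3,0)]⟩),.k,.k,.k,[⟨0,[(0,0)]⟩,⟨0,[(7,0),(13,0),(0,0)]⟩,⟨0,
  [(4,0),(16,1),(0,1)]⟩,⟨8,[(0,3),(1,0),(2,1),(8,0),(0,1),(2,11),(4,0)]⟩]⟩)) (.K ⟨2,[0,-1,1],0,0,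
  (⟨0,[(0,0)]⟩,⟨0,[(20,0),(3,0)]⟩),.k,(.x 0 ⟨1,[(0,2),(4,0),(8,0),(2,2)]⟩ ⟨0,[(3,0),(16,0),(3,1),(3,
  0)]⟩),.k,.k,.k,[⟨0,[(27,0)]⟩,⟨0,[(6,0)]⟩,⟨0,[(3,0),(16,0),(0,0)]⟩,⟨1,[(17,2),(0,0)]⟩]⟩)) (.Q [0,0,
  0,0,0,1,0,0,0,0,-1] (.ed true [1,-1,1] .k) (.Q [0,0,0,1,0,0,0,0,0,1] (.pp false [-1,1]) (.R ⟨0,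
  false,false,false,[0,0,1],[1,-1],[],(⟨0,[(22,0)]⟩,⟨0,[(21,0)]⟩),(⟨0,[(24,0)]⟩,⟨0,[(25,0)]⟩),⟨0,
  [(1,0)]⟩,.k,.k,.k,.k,.k,.k,⟨true,0,⟨11,[(5,3),(1,3),(2,0),(0,0),(6,3),(11,1)]⟩,⟨0,[(28,0)]⟩⟩,
  ⟨false,0,⟨0,[(4,0)]⟩,⟨0,[(18,0),(2,0),(0,0),(6,0)]⟩⟩,⟨true,1,⟨1,[(17,1),(0,1),(10,0),(0,0)]⟩,⟨0,
  [(2,0)]⟩⟩,⟨false,1,⟨0,[(14,0),(13,0),(1,0)]⟩,⟨0,[(8,0)]⟩⟩,⟨false,0,⟨0,[]⟩,⟨0,[]⟩⟩,⟨false,0,⟨0,[]⟩,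
  ⟨0,[]⟩⟩,[.a ⟨true,0,⟨0,[(28,0)]⟩,⟨0,[(0,0)]⟩⟩ ⟨false,1,⟨3,[(10,0),(0,0),(17,1)]⟩,⟨0,[]⟩⟩ ⟨true,0,
  ⟨0,[(4,0),(23,0)]⟩,⟨0,[(0,0),(17,0)]⟩⟩,.o ⟨false,1,⟨1,[(23,0),(4,1),(1,0)]⟩,⟨0,[(27,0)]⟩⟩,.o
  ⟨false,1,⟨3,[(10,0),(0,0),(6,3),(10,1)]⟩,⟨0,[(4,0)]⟩⟩,.o ⟨false,0,⟨0,[(18,0)]⟩,⟨0,[(15,0),(13,
  0)]⟩⟩]⟩) (.K ⟨2,[1,-1,1],0,0,(⟨0,[(22,0),(1,0)]⟩,⟨0,[(1,0)]⟩),.k,(.x 0 ⟨1,[(0,2),(4,0),(8,0),(3,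
  2),(3,1),(1,3),(1,0),(3,0)]⟩ ⟨0,[(4,0),(16,0),(3,1),(3,0)]⟩),.k,.k,.k,[⟨0,[(0,0)]⟩,⟨0,[(7,0),(13,
  0),(0,0)]⟩,⟨0,[(2,0),(14,0),(3,0),(0,0),(7,0)]⟩,⟨9,[(0,3),(4,1),(8,1),(0,1),(2,13),(4,0),(6,
  0)]⟩]⟩)) (.K ⟨2,[0,-1,1],0,0,(⟨0,[(0,0)]⟩,⟨0,[(20,0),(3,0)]⟩),.k,(.x 0 ⟨1,[(0,2),(4,0),(8,0),(2,
  2)]⟩ ⟨0,[(3,0),(16,0),(3,1),(3,0)]⟩),.k,.k,.k,[⟨0,[(27,0)]⟩,⟨0,[(6,0)]⟩,⟨0,[(1,0),(14,0),(12,0)]⟩,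
  ⟨1,[(17,2),(0,0)]⟩]⟩))))

theorem ok51 : chk (cU (-1) false 3) t51 r23 = true := by decide +kernel

noncomputable def t57 : Tre :=
  (.Q [0,0,0,0,0,0,-1,0,0,1,1] (.p true [1,-1,1] [] (⟨0,[(19,0),(1,0)]⟩,⟨0,[(0,0)]⟩) .k 0 (⟨0,[]⟩,
  ⟨0,[]⟩) .k .k) (.R ⟨0,false,false,true,[0,1,-1],[1,0,-1],[1,0,1,0,0,0,0,-1],(⟨0,[(1,0)]⟩,⟨0,[(20,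
  0),(1,0)]⟩),(⟨0,[(19,0)]⟩,⟨0,[(20,0)]⟩),⟨0,[(20,0)]⟩,.k,.k,.k,.k,.k,.k,⟨false,1,⟨3,[(8,0),(0,0),
  (18,1)]⟩,⟨0,[(24,0),(1,0)]⟩⟩,⟨true,0,⟨0,[(4,0),(8,0)]⟩,⟨0,[(19,0),(0,0)]⟩⟩,⟨true,0,⟨0,[(26,0)]⟩,
  ⟨0,[(25,0)]⟩⟩,⟨false,0,⟨0,[(5,0),(6,0)]⟩,⟨0,[(6,0),(8,0),(12,0)]⟩⟩,⟨false,0,⟨0,[]⟩,⟨0,[]⟩⟩,⟨false,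
  0,⟨0,[]⟩,⟨0,[]⟩⟩,[.o ⟨false,0,⟨0,[(12,0)]⟩,⟨7,[(7,3),(0,0),(0,0),(11,1),(6,3)]⟩⟩,.o ⟨false,1,⟨1,
  [(15,1),(5,0),(6,0)]⟩,⟨2,[(4,0),(0,0),(1,0),(5,0),(10,0)]⟩⟩,.o ⟨false,1,⟨1,[(0,1),(20,0),(5,0)]⟩,
  ⟨0,[(4,1),(8,0)]⟩⟩,.a ⟨true,0,⟨0,[(0,0)]⟩,⟨0,[(4,0)]⟩⟩ ⟨false,1,⟨0,[(4,0),(10,0),(12,0)]⟩,⟨0,[(18,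
  0)]⟩⟩ ⟨true,0,⟨0,[(4,0),(7,0)]⟩,⟨2,[(0,1),(6,0),(10,0)]⟩⟩]⟩) (.I [0,0,0,0,0,0,0,0,-1] (.I [1,1,0,
  0,0,0,0,0,1] (.Q [0,0,0,1,0,0,0,0,-1,0,0,1] (.p true [0,0,0,1] [] (⟨0,[(13,0)]⟩,⟨1,[(12,0),(8,0),
  (0,0)]⟩) .k 0 (⟨0,[]⟩,⟨0,[]⟩) .k .k) (.Q [0,0,0,0,0,1,0,0,0,0,0,-1] (.p false [0,0,0,1] [] (⟨0,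
  [(14,0)]⟩,⟨1,[(13,0),(8,0),(0,0)]⟩) .k 0 (⟨0,[]⟩,⟨0,[]⟩) .k .k) (.R ⟨0,false,false,false,[0,0,0,
  1],[0,0,1],[],(⟨0,[(15,0)]⟩,⟨1,[(14,0),(8,0),(0,0)]⟩),(⟨0,[(24,0)]⟩,⟨0,[(23,0)]⟩),⟨0,[(0,0)]⟩,.k,
  .k,(.r (-1) ⟨1,[(13,0),(16,1),(0,0)]⟩ ⟨1,[(1,1),(12,0),(2,0),(2,0)]⟩),.k,.k,.k,⟨false,1,⟨1,[(8,1),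
  (10,1),(11,0),(0,0)]⟩,⟨0,[(22,0)]⟩⟩,⟨true,0,⟨0,[(8,0),(6,0)]⟩,⟨1,[(14,0),(2,0),(3,0)]⟩⟩,⟨true,0,
  ⟨0,[(3,0)]⟩,⟨0,[(2,0)]⟩⟩,⟨false,0,⟨0,[(1,0),(7,0)]⟩,⟨1,[(13,0),(0,0),(1,0),(2,0),(12,0)]⟩⟩,⟨false,
  0,⟨0,[]⟩,⟨0,[]⟩⟩,⟨false,0,⟨0,[]⟩,⟨0,[]⟩⟩,[.o ⟨false,0,⟨2,[(4,0),(6,0),(10,0)]⟩,⟨1,[(19,1),(5,0),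
  (6,0)]⟩⟩,.o ⟨false,1,⟨7,[(11,3),(0,0),(0,0),(11,1),(6,3)]⟩,⟨0,[(16,0)]⟩⟩,.a ⟨true,0,⟨1,[(14,0),(8,
  0),(0,0)]⟩,⟨0,[(15,0)]⟩⟩ ⟨false,1,⟨3,[(12,0),(0,0),(18,1)]⟩,⟨0,[]⟩⟩ ⟨true,0,⟨2,[(4,0),(6,0),(3,2),
  (6,0)]⟩,⟨1,[(14,0),(1,0),(2,0)]⟩⟩,.o ⟨false,0,⟨1,[(14,0),(2,0),(2,0)]⟩,⟨1,[(15,1),(9,0),(5,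
  0)]⟩⟩]⟩) (.Q [0,-1,0,-1,0,0,0,0,-1,-1,0,1] (.p true [0,0,0,1] [1] (⟨0,[(15,0)]⟩,⟨1,[(14,0),(8,0),
  (0,0)]⟩) .k 1 (⟨0,[]⟩,⟨0,[]⟩) .k .k) (.R ⟨2,true,false,false,[0,1],[1,0,0,-1],[1,0,1,1],(⟨0,[]⟩,
  ⟨0,[]⟩),(⟨1,[(15,0),(8,0),(0,0)]⟩,⟨0,[(16,0)]⟩),⟨0,[]⟩,.k,.k,.k,(.r (-1) ⟨1,[(14,0),(6,0),(0,0),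
  (7,1),(2,0)]⟩ ⟨1,[(0,1),(14,0),(8,0),(0,0),(3,1),(1,1)]⟩),.k,.k,⟨false,1,⟨1,[(14,0),(15,1),(2,
  0)]⟩,⟨1,[(0,1),(14,0),(8,0),(0,0),(3,1),(1,1)]⟩⟩,⟨true,0,⟨2,[(5,0),(10,2),(1,1),(2,0)]⟩,⟨1,[(15,
  0),(8,0),(0,0)]⟩⟩,⟨true,0,⟨0,[]⟩,⟨0,[(35,0)]⟩⟩,⟨false,0,⟨0,[(0,0)]⟩,⟨1,[(11,0),(2,0),(0,0),(4,0),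
  (9,0),(2,0)]⟩⟩,⟨false,1,⟨0,[(30,0),(2,0)]⟩,⟨0,[(31,0)]⟩⟩,⟨true,0,⟨8,[(0,4),(1,3),(2,0),(11,1),(0,
  0),(0,1),(9,0)]⟩,⟨1,[(3,1),(11,0),(8,0),(0,0)]⟩⟩,[]⟩) (.I [0,-1,-1,-1,1,0,0,0,1] (.R ⟨1,false,
  false,false,[1,0,0,-1],[1,-1],[1,1,0,0,0,0,0,0,-1],(⟨1,[(16,0),(8,0),(0,0)]⟩,⟨0,[(17,0)]⟩),(⟨0,
  [(28,0)]⟩,⟨0,[(29,0)]⟩),⟨0,[(2,0),(13,0)]⟩,.k,.k,(.x 0 ⟨2,[(6,0),(12,1),(2,0),(5,2)]⟩ ⟨3,[(14,0),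
  (0,0),(13,3),(3,1)]⟩),(.r 0 ⟨1,[(3,1),(12,0),(2,0),(2,0)]⟩ ⟨0,[(0,0),(35,0)]⟩),.k,.k,⟨false,0,⟨0,
  [(5,0),(25,0)]⟩,⟨0,[(0,0)]⟩⟩,⟨true,0,⟨1,[(16,0),(2,0),(2,0)]⟩,⟨0,[(17,0)]⟩⟩,⟨false,0,⟨0,[]⟩,⟨3,
  [(14,0),(0,0),(18,1)]⟩⟩,⟨false,1,⟨1,[(0,1),(15,0),(2,0),(2,0)]⟩,⟨0,[(3,0)]⟩⟩,⟨true,0,⟨0,[(31,0)]⟩,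
  ⟨0,[(32,0)]⟩⟩,⟨false,1,⟨5,[(0,1),(0,1),(4,1),(8,0),(0,1),(2,1),(14,2)]⟩,⟨0,[(5,0),(11,0)]⟩⟩,[.o
  ⟨false,0,⟨0,[(11,0),(6,0)]⟩,⟨3,[(14,0),(0,0),(15,3),(2,1)]⟩⟩,.o ⟨false,1,⟨1,[(27,0),(4,1),(1,0)]⟩,
  ⟨0,[(31,0)]⟩⟩,.a ⟨true,0,⟨0,[(17,0)]⟩,⟨1,[(16,0),(8,0),(0,0)]⟩⟩ ⟨false,0,⟨0,[(5,0)]⟩,⟨1,[(15,0),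
  (18,0)]⟩⟩ ⟨true,0,⟨1,[(11,0),(4,0),(1,0),(13,0)]⟩,⟨0,[(17,0),(13,0)]⟩⟩,.o ⟨false,0,⟨2,[(6,0),(10,
  2),(1,1),(2,0)]⟩,⟨7,[(14,0),(0,0),(0,3),(10,1),(5,3)]⟩⟩]⟩) (.Q [0,-1,0,0,0,0,0,0,-2,-1,0,2] (.p
  true [0,0,0,1] [1,0,0,-1] (⟨0,[(17,0)]⟩,⟨1,[(16,0),(8,0),(0,0)]⟩) .k 2 (⟨1,[(16,0),(8,0),(0,0)]⟩,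
  ⟨0,[(17,0)]⟩) .k .k) (.R ⟨1,false,false,true,[1,0,0,-1],[0,0,0,1],[1,1,0,0,0,0,0,0,-1],(⟨1,[(17,
  0),(8,0),(0,0)]⟩,⟨0,[(18,0)]⟩),(⟨0,[(18,0)]⟩,⟨1,[(17,0),(8,0),(0,0)]⟩),⟨0,[(3,0),(13,0)]⟩,.k,.k,
  (.x 0 ⟨2,[(7,0),(12,1),(2,0),(5,2)]⟩ ⟨3,[(15,0),(0,0),(13,3),(3,1)]⟩),.k,(.r 0 ⟨0,[(0,0),(16,0),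
  (13,0),(1,1)]⟩ ⟨1,[(1,1),(14,2),(18,0)]⟩),.k,⟨false,0,⟨0,[(0,0),(16,0),(13,0),(1,0)]⟩,⟨0,[(16,
  0)]⟩⟩,⟨true,0,⟨0,[(17,0)]⟩,⟨2,[(7,0),(10,5),(1,1),(2,0)]⟩⟩,⟨false,0,⟨0,[]⟩,⟨3,[(15,0),(0,0),(18,
  1)]⟩⟩,⟨false,1,⟨0,[(16,0),(0,0)]⟩,⟨0,[(0,0)]⟩⟩,⟨true,0,⟨0,[(32,0)]⟩,⟨0,[(33,0)]⟩⟩,⟨false,1,⟨0,[(2,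
  1),(9,0),(6,0),(15,0)]⟩,⟨0,[(0,0),(32,0)]⟩⟩,[.o ⟨false,0,⟨0,[(2,0),(9,0),(6,0)]⟩,⟨3,[(0,1),(14,0),
  (0,0),(11,0),(6,0)]⟩⟩,.o ⟨false,1,⟨7,[(15,0),(0,4),(0,3),(10,1)]⟩,⟨13,[(0,6),(6,1),(2,0),(8,3),(0,
  0),(0,2)]⟩⟩,.a ⟨true,0,⟨0,[(18,0)]⟩,⟨1,[(17,0),(8,0),(0,0)]⟩⟩ ⟨false,0,⟨0,[(6,0)]⟩,⟨1,[(16,0),(18,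
  0)]⟩⟩ ⟨true,0,⟨0,[(5,0),(11,0)]⟩,⟨0,[(0,0),(4,0)]⟩⟩,.o ⟨false,0,⟨2,[(7,0),(10,2),(1,1),(2,0)]⟩,⟨7,
  [(15,0),(0,0),(0,3),(10,1),(5,3)]⟩⟩]⟩) (.I [0,0,-1,-1,1,0,0,-1,1] (.R ⟨1,false,false,false,[0,0,0,
  1],[0,0,1],[0,0,0,-1,0,0,0,0,1],(⟨0,[(19,0)]⟩,⟨1,[(18,0),(8,0),(0,0)]⟩),(⟨0,[(28,0)]⟩,⟨0,[(27,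
  0)]⟩),⟨0,[(4,0)]⟩,.k,.k,(.r (-1) ⟨7,[(0,3),(10,3),(4,0),(0,2),(16,3)]⟩ ⟨4,[(2,2),(0,0),(1,0),(10,
  0),(4,0),(2,0),(11,1)]⟩),.k,(.r (-1) ⟨0,[(0,0)]⟩ ⟨5,[(2,1),(7,1),(3,3),(1,0),(4,3),(14,0)]⟩),.k,
  ⟨false,1,⟨0,[(0,0)]⟩,⟨4,[(2,1),(7,2),(0,0),(2,0),(6,0),(10,1),(3,1)]⟩⟩,⟨true,0,⟨0,[(12,0),(6,0)]⟩,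
  ⟨1,[(18,0),(2,0),(3,0)]⟩⟩,⟨true,0,⟨0,[(34,0)]⟩,⟨0,[(33,0)]⟩⟩,⟨false,0,⟨0,[(5,0),(7,0)]⟩,⟨3,[(1,1),
  (21,3),(5,0),(6,2)]⟩⟩,⟨false,1,⟨3,[(16,0),(0,0),(18,1)]⟩,⟨0,[]⟩⟩,⟨false,0,⟨0,[(2,0),(10,0),(5,0),
  (12,0),(3,0)]⟩,⟨1,[(0,1),(17,0),(2,0),(3,0)]⟩⟩,[.o ⟨false,0,⟨2,[(8,0),(6,0),(10,0)]⟩,⟨1,[(23,1),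
  (5,0),(6,0)]⟩⟩,.o ⟨false,1,⟨7,[(15,3),(0,0),(0,0),(11,1),(6,3)]⟩,⟨0,[(20,0)]⟩⟩,.a ⟨true,0,⟨1,[(18,
  0),(8,0),(0,0)]⟩,⟨0,[(19,0)]⟩⟩ ⟨false,1,⟨1,[(17,0),(16,1),(1,0)]⟩,⟨1,[(2,0),(4,0),(24,0),(3,0)]⟩⟩
  ⟨true,0,⟨2,[(8,0),(6,0),(3,2),(6,0)]⟩,⟨1,[(18,0),(1,0),(2,0)]⟩⟩,.o ⟨false,0,⟨1,[(18,0),(2,0),(2,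
  0)]⟩,⟨1,[(19,1),(9,0),(5,0)]⟩⟩]⟩) (.Q [0,1,0,1,0,0,-1,-1,0,1,1] (.p true [1,-1,1] [] (⟨0,[(28,0),
  (1,0)]⟩,⟨0,[(9,0)]⟩) .k 0 (⟨0,[]⟩,⟨0,[]⟩) .k .k) (.R ⟨1,true,true,true,[1,-1,1],[],[1,1,-1,-1,0,0,
  0,1],(⟨0,[(29,0),(1,0)]⟩,⟨0,[(10,0)]⟩),(⟨0,[]⟩,⟨0,[]⟩),⟨0,[(5,1),(13,0),(9,0)]⟩,.k,.k,(.r (-1) ⟨3,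
  [(12,3),(4,0),(0,0),(16,7),(0,1)]⟩ ⟨0,[(2,0),(0,1),(5,0),(10,1),(3,0),(12,1)]⟩),.k,(.r (-1) ⟨3,
  [(12,3),(4,0),(0,0),(16,7),(0,1)]⟩ ⟨0,[(2,0),(0,1),(5,0),(10,1),(3,0),(12,1)]⟩),.k,⟨true,0,⟨0,
  [(12,0),(22,0)]⟩,⟨0,[(2,0),(0,1),(5,0),(10,1),(3,0),(10,0),(1,1)]⟩⟩,⟨false,1,⟨1,[(0,1),(11,1),(22,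
  1),(0,0),(0,0)]⟩,⟨2,[(9,1),(12,0),(2,1)]⟩⟩,⟨false,0,⟨0,[]⟩,⟨3,[(17,0),(0,0),(18,1)]⟩⟩,⟨true,0,⟨0,
  [(0,0)]⟩,⟨6,[(9,1),(2,0),(1,6),(6,3),(0,0),(0,2)]⟩⟩,⟨true,0,⟨0,[(34,0)]⟩,⟨0,[(35,0)]⟩⟩,⟨false,1,
  ⟨0,[(0,0),(33,0),(2,0)]⟩,⟨0,[(14,1),(6,0)]⟩⟩,[]⟩) (.R ⟨1,false,false,false,[0,0,0,1],[1,-1,1],[1,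
  1,0,0,0,0,0,0,1],(⟨0,[(20,0)]⟩,⟨1,[(19,0),(8,0),(0,0)]⟩),(⟨0,[(29,0),(1,0)]⟩,⟨0,[(10,0)]⟩),⟨0,[(5,
  0)]⟩,.k,.k,(.r (-1) ⟨1,[(18,0),(16,1),(0,0)]⟩ ⟨4,[(3,2),(0,0),(1,0),(10,0),(4,0),(2,0),(11,1)]⟩),
  (.r (-1) ⟨1,[(3,0),(0,0),(4,0),(8,0),(1,0),(3,1),(0,0),(11,1)]⟩ ⟨0,[(8,0),(3,0),(22,0)]⟩),.k,.k,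
  ⟨true,0,⟨0,[(2,0),(0,0),(5,0),(10,1),(3,0),(12,0)]⟩,⟨1,[(1,0),(6,0),(3,0),(22,2),(1,0)]⟩⟩,⟨false,
  0,⟨0,[(9,0),(10,0)]⟩,⟨1,[(19,0),(6,1),(1,0),(0,0),(6,1)]⟩⟩,⟨false,0,⟨0,[]⟩,⟨3,[(17,0),(0,0),(18,
  1)]⟩⟩,⟨false,0,⟨0,[(0,0),(7,0),(11,0)]⟩,⟨0,[(4,0),(19,0),(12,0)]⟩⟩,⟨true,0,⟨0,[(34,0)]⟩,⟨0,[(35,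
  0)]⟩⟩,⟨false,0,⟨0,[(0,0),(5,0)]⟩,⟨7,[(2,3),(14,0),(0,0),(5,7),(3,3),(0,3),(7,5)]⟩⟩,[.o ⟨false,0,
  ⟨3,[(0,2),(20,0),(1,1),(11,0)]⟩,⟨0,[(24,0),(9,0),(2,0)]⟩⟩,.o ⟨false,0,⟨0,[(0,0)]⟩,⟨3,[(17,0),(0,
  0),(5,3),(9,3),(2,1)]⟩⟩,.a ⟨true,0,⟨1,[(19,0),(8,0),(0,0)]⟩,⟨0,[(20,0)]⟩⟩ ⟨true,0,⟨0,[(7,0)]⟩,⟨0,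
  [(8,0)]⟩⟩ ⟨false,0,⟨0,[(0,0),(19,0)]⟩,⟨5,[(4,3),(1,1),(10,0),(1,1),(4,5),(12,4)]⟩⟩,.o ⟨false,0,⟨1,
  [(19,0),(2,0),(2,0)]⟩,⟨1,[(20,1),(9,0),(5,0)]⟩⟩]⟩))))))) (.R ⟨2,true,false,false,[0,1],[0,0,0,1],
  [0,1,1],(⟨0,[]⟩,⟨0,[]⟩),(⟨0,[(14,0)]⟩,⟨1,[(13,0),(8,0),(0,0)]⟩),⟨0,[]⟩,.k,.k,.k,(.x (-1) ⟨3,[(11,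
  0),(0,0),(13,3),(3,1)]⟩ ⟨2,[(3,0),(12,1),(2,0),(5,2)]⟩),.k,.k,⟨false,0,⟨0,[(2,0),(30,0)]⟩,⟨0,[(0,
  0),(13,0),(12,0),(3,0)]⟩⟩,⟨true,0,⟨1,[(13,0),(2,0),(2,0)]⟩,⟨0,[(14,0)]⟩⟩,⟨false,0,⟨0,[(29,0)]⟩,⟨0,
  [(28,0),(2,0)]⟩⟩,⟨true,0,⟨0,[(0,0)]⟩,⟨0,[(2,0),(11,0),(13,0)]⟩⟩,⟨true,0,⟨0,[(33,0)]⟩,⟨0,[]⟩⟩,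
  ⟨false,1,⟨4,[(0,0),(2,0),(8,1),(0,1),(2,0),(10,0),(3,2)]⟩,⟨0,[(2,0),(11,0)]⟩⟩,[]⟩)) (.Q [0,0,0,0,
  0,1,0,0,0,0,0,-1] (.p false [0,0,0,1] [] (⟨0,[(13,0)]⟩,⟨1,[(12,0),(8,0),(0,0)]⟩) .k 0 (⟨0,[]⟩,⟨0,
  []⟩) .k .k) (.R ⟨0,false,false,false,[0,0,0,1],[1,-1],[1,0,0,0,0,0,0,0,1],(⟨0,[(14,0)]⟩,⟨1,[(13,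
  0),(8,0),(0,0)]⟩),(⟨0,[(25,0)]⟩,⟨0,[(26,0)]⟩),⟨0,[(0,0)]⟩,.k,.k,(.r (-1) ⟨1,[(12,0),(16,1),(0,
  0)]⟩ ⟨1,[(1,1),(17,0),(0,0),(7,1)]⟩),(.r (-1) ⟨1,[(12,0),(6,0),(0,0),(7,1),(2,0)]⟩ ⟨0,[(1,0),(25,
  0),(1,1)]⟩),.k,.k,⟨false,1,⟨1,[(12,0),(15,1),(2,0)]⟩,⟨0,[(1,0),(25,0),(1,1)]⟩⟩,⟨true,0,⟨2,[(3,0),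
  (10,2),(1,1),(2,0)]⟩,⟨1,[(13,0),(8,0),(0,0)]⟩⟩,⟨true,0,⟨0,[]⟩,⟨0,[(33,0)]⟩⟩,⟨false,0,⟨0,[(1,0),(6,
  0),(5,0),(0,0)]⟩,⟨1,[(9,0),(2,0),(0,0),(4,0),(9,0),(2,0)]⟩⟩,⟨false,0,⟨0,[]⟩,⟨0,[]⟩⟩,⟨false,0,⟨0,
  []⟩,⟨0,[]⟩⟩,[.o ⟨false,0,⟨0,[(8,0),(6,0)]⟩,⟨3,[(11,0),(0,0),(15,3),(2,1)]⟩⟩,.o ⟨false,1,⟨1,[(24,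
  0),(4,1),(1,0)]⟩,⟨0,[(28,0)]⟩⟩,.a ⟨true,0,⟨1,[(13,0),(8,0),(0,0)]⟩,⟨0,[(14,0)]⟩⟩ ⟨false,1,⟨1,[(12,
  0),(18,0)]⟩,⟨0,[(2,0)]⟩⟩ ⟨true,0,⟨0,[(8,0),(5,0),(0,0)]⟩,⟨1,[(9,0),(3,0),(4,0),(9,0)]⟩⟩,.o ⟨false,
  0,⟨1,[(13,0),(2,0),(2,0)]⟩,⟨1,[(14,1),(9,0),(5,0)]⟩⟩]⟩) (.Q [0,1,0,-1,0,0,0,0,1,0,0,-1] (.p false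
  [0,0,0,1] [] (⟨0,[(14,0)]⟩,⟨1,[(13,0),(8,0),(0,0)]⟩) .k 0 (⟨0,[]⟩,⟨0,[]⟩) .k .k) (.R ⟨2,true,
  false,true,[0,1],[0,0,0,1],[0,1,1],(⟨0,[]⟩,⟨0,[]⟩),(⟨0,[(15,0)]⟩,⟨1,[(14,0),(8,0),(0,0)]⟩),⟨0,[]⟩,
  .k,.k,.k,(.r 0 ⟨1,[(2,1),(17,0),(0,0),(7,1)]⟩ ⟨1,[(13,0),(16,1),(0,0)]⟩),.k,.k,⟨false,0,⟨0,[(3,
  0)]⟩,⟨1,[(13,0),(17,0)]⟩⟩,⟨true,0,⟨1,[(14,0),(2,0),(2,0)]⟩,⟨0,[(15,0)]⟩⟩,⟨false,0,⟨0,[(30,0)]⟩,⟨0,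
  [(29,0),(2,0)]⟩⟩,⟨true,0,⟨0,[(0,0)]⟩,⟨0,[(2,0),(12,0),(13,0)]⟩⟩,⟨true,0,⟨0,[(34,0)]⟩,⟨0,[]⟩⟩,
  ⟨false,1,⟨7,[(12,0),(0,4),(0,3),(10,1)]⟩,⟨0,[(2,0),(12,0)]⟩⟩,[]⟩) (.R ⟨1,false,false,false,[0,0,0,
  1],[1,-1],[1,0,0,0,0,0,0,0,1],(⟨0,[(15,0)]⟩,⟨1,[(14,0),(8,0),(0,0)]⟩),(⟨0,[(26,0)]⟩,⟨0,[(27,0)]⟩),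
  ⟨0,[(1,0)]⟩,.k,.k,(.r (-1) ⟨1,[(13,0),(16,1),(0,0)]⟩ ⟨3,[(0,1),(2,1),(10,0),(2,0),(2,1),(0,0),(7,
  1)]⟩),(.r (-1) ⟨1,[(13,0),(6,0),(0,0),(7,1),(2,0)]⟩ ⟨0,[(2,0),(25,0),(1,1)]⟩),.k,.k,⟨false,1,⟨1,
  [(13,0),(15,1),(2,0)]⟩,⟨0,[(2,0),(25,0),(1,1)]⟩⟩,⟨true,0,⟨2,[(4,0),(10,2),(1,1),(2,0)]⟩,⟨1,[(14,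
  0),(8,0),(0,0)]⟩⟩,⟨true,0,⟨0,[]⟩,⟨0,[(34,0)]⟩⟩,⟨false,0,⟨0,[(2,0),(6,0),(5,0),(0,0)]⟩,⟨1,[(10,0),
  (2,0),(0,0),(4,0),(9,0),(2,0)]⟩⟩,⟨false,1,⟨0,[(29,0),(2,0)]⟩,⟨0,[(30,0)]⟩⟩,⟨false,0,⟨0,[(0,0),(8,
  0),(6,0)]⟩,⟨3,[(12,0),(0,2),(0,1),(8,1),(0,1)]⟩⟩,[.o ⟨false,0,⟨0,[(9,0),(6,0)]⟩,⟨3,[(12,0),(0,0),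
  (15,3),(2,1)]⟩⟩,.o ⟨false,1,⟨1,[(25,0),(4,1),(1,0)]⟩,⟨0,[(29,0)]⟩⟩,.a ⟨true,0,⟨1,[(14,0),(8,0),(0,
  0)]⟩,⟨0,[(15,0)]⟩⟩ ⟨false,1,⟨1,[(13,0),(18,0)]⟩,⟨0,[(3,0)]⟩⟩ ⟨true,0,⟨0,[(9,0),(5,0),(0,0)]⟩,⟨1,
  [(10,0),(3,0),(4,0),(9,0)]⟩⟩,.o ⟨false,0,⟨1,[(14,0),(2,0),(2,0)]⟩,⟨1,[(15,1),(9,0),(5,0)]⟩⟩]⟩))))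
  (.Q [0,0,0,0,0,2,0,0,0,-1] (.pp true [-1,1]) (.R ⟨0,false,false,false,[0,0,0,1],[0,0,1],[],(⟨0,
  [(13,0)]⟩,⟨1,[(12,0),(8,0),(0,0)]⟩),(⟨0,[(22,0)]⟩,⟨0,[(21,0)]⟩),⟨1,[(0,0),(11,0)]⟩,.k,.k,(.x 0 ⟨2,
  [(2,0),(12,1),(2,0),(5,2)]⟩ ⟨3,[(10,0),(0,0),(13,3),(3,1)]⟩),.k,.k,.k,⟨false,1,⟨1,[(6,1),(10,1),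
  (11,0),(0,0)]⟩,⟨0,[(20,0)]⟩⟩,⟨true,0,⟨0,[(6,0),(6,0)]⟩,⟨1,[(12,0),(2,0),(3,0)]⟩⟩,⟨false,1,⟨1,[(10,
  0),(19,0)]⟩,⟨0,[(1,0)]⟩⟩,⟨true,0,⟨0,[(4,0),(1,0),(6,0)]⟩,⟨1,[(1,1),(10,0),(1,0),(2,0)]⟩⟩,⟨false,0,
  ⟨0,[]⟩,⟨0,[]⟩⟩,⟨false,0,⟨0,[]⟩,⟨0,[]⟩⟩,[.o ⟨false,0,⟨2,[(2,0),(6,0),(10,0)]⟩,⟨1,[(17,1),(5,0),(6,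
  0)]⟩⟩,.o ⟨false,1,⟨7,[(9,3),(0,0),(0,0),(11,1),(6,3)]⟩,⟨0,[(14,0)]⟩⟩,.a ⟨true,0,⟨1,[(12,0),(8,0),
  (0,0)]⟩,⟨0,[(13,0)]⟩⟩ ⟨false,1,⟨3,[(10,0),(0,0),(18,1)]⟩,⟨0,[]⟩⟩ ⟨true,0,⟨2,[(2,0),(6,0),(3,2),(6,
  0)]⟩,⟨1,[(12,0),(1,0),(2,0)]⟩⟩,.o ⟨false,0,⟨1,[(12,0),(2,0),(2,0)]⟩,⟨1,[(13,1),(9,0),(5,0)]⟩⟩]⟩)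
  (.Q [0,0,0,0,0,1,0,0,0,0,0,-1] (.p false [0,0,0,1] [] (⟨0,[(13,0)]⟩,⟨1,[(12,0),(8,0),(0,0)]⟩) .k
  0 (⟨0,[]⟩,⟨0,[]⟩) .k .k) (.R ⟨0,false,false,false,[0,0,0,1],[0,0,1],[],(⟨0,[(14,0)]⟩,⟨1,[(13,0),
  (8,0),(0,0)]⟩),(⟨0,[(23,0)]⟩,⟨0,[(22,0)]⟩),⟨0,[(0,0)]⟩,.k,.k,(.x 0 ⟨1,[(1,0),(14,0),(2,0)]⟩ ⟨3,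
  [(11,0),(0,0),(13,3),(3,1)]⟩),.k,.k,.k,⟨false,1,⟨1,[(7,1),(10,1),(11,0),(0,0)]⟩,⟨0,[(21,0)]⟩⟩,
  ⟨true,0,⟨0,[(7,0),(6,0)]⟩,⟨1,[(13,0),(2,0),(3,0)]⟩⟩,⟨false,1,⟨1,[(11,0),(19,0)]⟩,⟨0,[(2,0)]⟩⟩,
  ⟨true,0,⟨0,[(5,0),(1,0),(6,0)]⟩,⟨1,[(2,1),(10,0),(1,0),(2,0)]⟩⟩,⟨false,0,⟨0,[]⟩,⟨0,[]⟩⟩,⟨false,0,
  ⟨0,[]⟩,⟨0,[]⟩⟩,[.o ⟨false,0,⟨2,[(3,0),(6,0),(10,0)]⟩,⟨1,[(18,1),(5,0),(6,0)]⟩⟩,.o ⟨false,1,⟨7,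
  [(10,3),(0,0),(0,0),(11,1),(6,3)]⟩,⟨0,[(15,0)]⟩⟩,.a ⟨true,0,⟨1,[(13,0),(8,0),(0,0)]⟩,⟨0,[(14,
  0)]⟩⟩ ⟨false,1,⟨3,[(11,0),(0,0),(18,1)]⟩,⟨0,[]⟩⟩ ⟨true,0,⟨2,[(3,0),(6,0),(3,2),(6,0)]⟩,⟨1,[(13,0),
  (1,0),(2,0)]⟩⟩,.o ⟨false,0,⟨1,[(13,0),(2,0),(2,0)]⟩,⟨1,[(14,1),(9,0),(5,0)]⟩⟩]⟩) (.Q [0,0,0,-1,0,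
  0,0,0,-1,-1,0,1] (.p true [0,0,0,1] [1] (⟨0,[(14,0)]⟩,⟨1,[(13,0),(8,0),(0,0)]⟩) .k 1 (⟨0,[]⟩,⟨0,
  []⟩) .k .k) (.R ⟨2,true,false,false,[0,1],[1,0,0,-1],[0,1,1],(⟨0,[]⟩,⟨0,[]⟩),(⟨1,[(14,0),(8,0),(0,
  0)]⟩,⟨0,[(15,0)]⟩),⟨0,[]⟩,.k,.k,.k,(.x (-1) ⟨3,[(12,0),(0,0),(13,3),(3,1)]⟩ ⟨1,[(2,0),(14,0),(2,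
  0)]⟩),.k,.k,⟨false,0,⟨0,[(3,0),(30,0)]⟩,⟨1,[(0,1),(13,0),(8,0),(0,0),(3,1),(3,1)]⟩⟩,⟨true,0,⟨2,
  [(4,0),(10,2),(1,1),(2,0)]⟩,⟨1,[(14,0),(8,0),(0,0)]⟩⟩,⟨false,0,⟨0,[(30,0)]⟩,⟨0,[(29,0),(2,0)]⟩⟩,
  ⟨true,0,⟨0,[(0,0)]⟩,⟨1,[(3,1),(6,0),(3,0),(4,0),(9,0)]⟩⟩,⟨true,0,⟨0,[(34,0)]⟩,⟨0,[]⟩⟩,⟨false,1,⟨0,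
  [(0,0),(28,0),(2,0)]⟩,⟨1,[(3,1),(10,0),(8,0),(0,0)]⟩⟩,[]⟩) (.I [0,-1,-1,-1,1,0,0,0,-1] (.R ⟨1,
  false,false,false,[0,0,0,1],[1,-1],[1,1,0,0,0,0,0,0,1],(⟨0,[(16,0)]⟩,⟨1,[(15,0),(8,0),(0,0)]⟩),
  (⟨0,[(27,0)]⟩,⟨0,[(28,0)]⟩),⟨0,[(2,0)]⟩,.k,.k,(.x 0 ⟨1,[(3,0),(14,0),(2,0)]⟩ ⟨3,[(13,0),(0,0),(13,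
  3),(3,1)]⟩),(.r 0 ⟨2,[(1,2),(3,0),(10,2),(1,1),(2,0)]⟩ ⟨0,[(0,0),(34,0)]⟩),.k,.k,⟨false,0,⟨0,[(4,
  0),(25,0)]⟩,⟨0,[(0,0)]⟩⟩,⟨true,0,⟨2,[(5,0),(10,2),(1,1),(2,0)]⟩,⟨1,[(15,0),(8,0),(0,0)]⟩⟩,⟨false,
  0,⟨0,[]⟩,⟨3,[(13,0),(0,0),(18,1)]⟩⟩,⟨false,1,⟨2,[(0,2),(4,0),(10,2),(1,1),(2,0)]⟩,⟨0,[(1,0)]⟩⟩,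
  ⟨true,0,⟨0,[(30,0)]⟩,⟨0,[(31,0)]⟩⟩,⟨false,1,⟨3,[(5,1),(1,1),(5,0),(2,3),(0,1),(15,2)]⟩,⟨0,[(1,0),
  (29,0)]⟩⟩,[.o ⟨false,0,⟨0,[(10,0),(6,0)]⟩,⟨3,[(13,0),(0,0),(15,3),(2,1)]⟩⟩,.o ⟨false,1,⟨1,[(26,0),
  (4,1),(1,0)]⟩,⟨0,[(30,0)]⟩⟩,.a ⟨true,0,⟨1,[(15,0),(8,0),(0,0)]⟩,⟨0,[(16,0)]⟩⟩ ⟨false,0,⟨0,[(4,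
  0)]⟩,⟨1,[(13,0),(19,0)]⟩⟩ ⟨true,0,⟨0,[(10,0),(5,0),(0,0)]⟩,⟨1,[(11,0),(3,0),(4,0),(9,0)]⟩⟩,.o
  ⟨false,0,⟨1,[(15,0),(2,0),(2,0)]⟩,⟨1,[(16,1),(9,0),(5,0)]⟩⟩]⟩) (.I [0,0,-1,-1,1,0,0,-1,-1] (.R ⟨1,
  false,false,false,[1,0,0,-1],[0,0,1],[0,0,0,-1,0,0,0,0,-1],(⟨1,[(16,0),(8,0),(0,0)]⟩,⟨0,[(17,
  0)]⟩),(⟨0,[(26,0)]⟩,⟨0,[(25,0)]⟩),⟨1,[(4,0),(11,0)]⟩,.k,.k,(.r (-1) ⟨7,[(0,3),(8,3),(4,2),(0,0),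
  (16,3)]⟩ ⟨3,[(1,3),(12,0),(0,0),(18,1)]⟩),.k,(.r (-1) ⟨0,[(0,0)]⟩ ⟨3,[(1,1),(10,1),(2,0),(3,1),(4,
  1),(9,0)]⟩),.k,⟨false,1,⟨0,[(0,0)]⟩,⟨4,[(1,2),(7,3),(2,0),(2,0),(3,0),(11,0),(2,1)]⟩⟩,⟨true,0,⟨1,
  [(10,1),(5,0),(8,0),(0,0)]⟩,⟨0,[(17,0),(1,0)]⟩⟩,⟨true,0,⟨0,[(32,0)]⟩,⟨0,[(31,0)]⟩⟩,⟨false,0,⟨0,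
  [(2,0),(8,0)]⟩,⟨1,[(14,0),(2,1),(0,1),(15,0)]⟩⟩,⟨false,1,⟨3,[(14,0),(0,0),(18,1)]⟩,⟨0,[]⟩⟩,⟨false,
  0,⟨1,[(1,1),(9,1),(4,0),(8,0),(0,0),(3,1),(3,1)]⟩,⟨0,[(0,0),(16,0),(1,0)]⟩⟩,[.o ⟨false,0,⟨2,[(6,
  0),(6,0),(10,0)]⟩,⟨1,[(21,1),(5,0),(6,0)]⟩⟩,.o ⟨false,1,⟨7,[(13,3),(0,0),(0,0),(11,1),(6,3)]⟩,⟨0,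
  [(18,0)]⟩⟩,.a ⟨true,0,⟨0,[(17,0)]⟩,⟨1,[(16,0),(8,0),(0,0)]⟩⟩ ⟨false,1,⟨1,[(14,0),(17,1),(1,0)]⟩,
  ⟨1,[(1,1),(31,0),(0,0)]⟩⟩ ⟨true,0,⟨1,[(13,0),(2,0)]⟩,⟨0,[(17,0),(0,0)]⟩⟩,.o ⟨false,0,⟨2,[(6,0),
  (10,2),(1,1),(2,0)]⟩,⟨7,[(14,0),(0,0),(0,3),(10,1),(5,3)]⟩⟩]⟩) (.I [0,0,-1,-2,1,0,0,-1,-1] (.R ⟨1,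
  false,false,false,[1,0,0,-1],[0,1,1],[1,0,1,1,0,0,0,1],(⟨1,[(17,0),(8,0),(0,0)]⟩,⟨0,[(18,0)]⟩),
  (⟨0,[(27,0),(2,0)]⟩,⟨0,[(5,0),(2,0)]⟩),⟨1,[(5,0),(11,0)]⟩,.k,.k,(.r (-1) ⟨7,[(0,3),(9,3),(4,2),(0,
  0)]⟩ ⟨3,[(2,3),(12,0),(0,0),(18,1)]⟩),(.x 0 ⟨0,[(5,0),(2,0),(11,0)]⟩ ⟨0,[(23,0),(3,0),(2,0),(3,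
  0)]⟩),(.r (-2) ⟨3,[(0,3),(14,0),(0,0),(17,1)]⟩ ⟨1,[(1,1),(0,1),(12,0),(19,0)]⟩),.k,⟨true,0,⟨0,[]⟩,
  ⟨1,[(23,0),(0,0)]⟩⟩,⟨false,1,⟨1,[(11,1),(5,0),(8,0),(0,0),(6,1)]⟩,⟨0,[(18,0),(1,0)]⟩⟩,⟨true,(-1),
  ⟨0,[(1,0)]⟩,⟨0,[(0,0),(31,0)]⟩⟩,⟨false,0,⟨3,[(1,1),(1,1),(7,1),(0,1),(4,0),(8,0),(0,0),(3,1),(3,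
  1)]⟩,⟨3,[(0,1),(14,0),(2,3),(0,1),(0,1),(14,0)]⟩⟩,⟨false,0,⟨0,[(1,0),(30,0),(2,0)]⟩,⟨0,[(0,0)]⟩⟩,
  ⟨false,0,⟨1,[(1,1),(9,1),(5,0),(8,0),(0,0),(3,1),(3,1)]⟩,⟨0,[(0,0),(17,0),(1,0)]⟩⟩,[.o ⟨false,0,
  ⟨9,[(1,1),(5,3),(1,1),(3,5),(14,0),(2,1),(3,0)]⟩,⟨3,[(0,1),(15,0),(2,1),(0,1),(14,0)]⟩⟩,.o ⟨false,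
  1,⟨1,[(13,1),(14,0),(6,0)]⟩,⟨0,[(19,0),(13,0)]⟩⟩,.a ⟨true,0,⟨0,[(18,0)]⟩,⟨1,[(17,0),(8,0),(0,
  0)]⟩⟩ ⟨false,0,⟨1,[(1,1),(13,0),(19,0)]⟩,⟨3,[(0,1),(5,1),(4,1),(10,1),(11,0),(0,0)]⟩⟩ ⟨true,0,⟨19,
  [(1,1),(5,3),(1,1),(3,15),(3,9),(10,0),(2,1),(3,0)]⟩,⟨0,[(18,0),(0,0),(13,0)]⟩⟩,.o ⟨false,0,⟨2,
  [(7,0),(10,2),(1,1),(2,0)]⟩,⟨7,[(15,0),(0,0),(0,3),(10,1),(5,3)]⟩⟩]⟩) (.I [1,1,1,1,0,0,0,-2] (.Q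
  [0,-1,0,1,1,0,-1,-1,0,0,1] (.p true [0,0,1] [] (⟨0,[(28,0)]⟩,⟨0,[(27,0)]⟩) .k 0 (⟨0,[]⟩,⟨0,[]⟩)
  .k .k) (.R ⟨1,false,false,false,[1,0,0,-1],[0,1,-1],[1,1,0,0,0,0,0,0,-1],(⟨1,[(19,0),(8,0),(0,
  0)]⟩,⟨0,[(20,0)]⟩),(⟨0,[(10,0)]⟩,⟨0,[(29,0),(1,0)]⟩),⟨1,[(7,0),(11,0)]⟩,.k,.k,(.r (-1) ⟨1,[(17,0),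
  (17,1),(0,0)]⟩ ⟨9,[(1,1),(0,3),(15,2),(6,1),(0,1),(10,0)]⟩),(.r (-1) ⟨3,[(12,3),(4,2),(0,0),(16,
  3)]⟩ ⟨1,[(1,0),(2,0),(3,0),(28,0)]⟩),(.r (-1) ⟨1,[(12,1),(4,0),(17,3),(0,0)]⟩ ⟨9,[(1,7),(0,5),(15,
  1),(6,2),(0,2),(10,3)]⟩),.k,⟨true,0,⟨0,[(11,0),(21,0),(1,1)]⟩,⟨0,[(1,0),(1,0),(31,0),(1,0)]⟩⟩,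
  ⟨false,1,⟨1,[(12,1),(6,0),(4,1),(3,0),(0,0),(6,0),(0,0)]⟩,⟨2,[(9,1),(10,2),(1,0),(2,1)]⟩⟩,⟨false,
  0,⟨0,[]⟩,⟨3,[(17,0),(0,0),(18,1)]⟩⟩,⟨false,1,⟨0,[(5,0),(18,0),(12,0)]⟩,⟨0,[(9,0),(1,0),(8,0),(14,
  0)]⟩⟩,⟨true,0,⟨0,[(34,0)]⟩,⟨0,[(35,0)]⟩⟩,⟨false,1,⟨0,[(0,0),(4,0)]⟩,⟨0,[(9,0),(1,0),(8,0),(14,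
  1)]⟩⟩,[.o ⟨false,1,⟨5,[(0,3),(16,0),(0,0),(5,1),(9,1)]⟩,⟨6,[(9,1),(2,0),(1,6),(6,3),(0,0),(0,
  2)]⟩⟩,.o ⟨false,1,⟨0,[(0,0)]⟩,⟨0,[(14,0),(6,0),(1,0)]⟩⟩,.a ⟨true,0,⟨0,[(20,0)]⟩,⟨1,[(19,0),(8,0),
  (0,0)]⟩⟩ ⟨true,0,⟨0,[(11,0),(1,0),(10,0)]⟩,⟨0,[(2,0),(3,11),(2,1),(2,0),(1,1),(4,5),(1,3),(10,11),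
  (4,0)]⟩⟩ ⟨false,1,⟨1,[(0,1),(18,0),(8,0),(0,0)]⟩,⟨6,[(9,1),(2,0),(1,6),(5,6),(0,3),(0,0),(0,2)]⟩⟩,
  .o ⟨false,0,⟨2,[(9,0),(10,2),(1,1),(2,0)]⟩,⟨7,[(17,0),(0,0),(0,3),(10,1),(5,3)]⟩⟩]⟩) (.Q [0,0,0,0,
  0,2,0,0,0,-1,1] (.p true [0,0,1] [1] (⟨0,[(29,0)]⟩,⟨0,[(28,0)]⟩) .k 1 (⟨0,[]⟩,⟨0,[]⟩) .k .k) (.Q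
  [0,1,0,1,0,0,-1,-1,0,1,1] (.p true [1,-1,1] [] (⟨0,[(30,0),(1,0)]⟩,⟨0,[(11,0)]⟩) .k 0 (⟨0,[]⟩,⟨0,
  []⟩) .k .k) (.R ⟨1,true,true,true,[1,-1,1],[],[0,1,-1,-2,0,0,0,1],(⟨0,[(31,0),(1,0)]⟩,⟨0,[(12,
  0)]⟩),(⟨0,[]⟩,⟨0,[]⟩),⟨0,[(9,0),(21,0)]⟩,.k,.k,(.r (-1) ⟨3,[(14,3),(4,0),(0,0),(16,7),(0,1)]⟩ ⟨2,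
  [(3,2),(0,1),(11,0),(2,0),(8,0),(10,0)]⟩),.k,(.r (-1) ⟨3,[(14,3),(4,0),(0,0),(16,7),(0,1)]⟩ ⟨2,
  [(3,2),(0,1),(11,0),(2,0),(8,0),(10,0)]⟩),.k,⟨true,0,⟨0,[(14,0),(22,1)]⟩,⟨2,[(3,2),(0,1),(11,0),
  (2,0),(8,0),(10,0)]⟩⟩,⟨false,1,⟨1,[(0,1),(13,1),(22,1),(0,0),(0,0)]⟩,⟨2,[(11,1),(12,0),(2,1)]⟩⟩,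
  ⟨false,0,⟨0,[(37,0)]⟩,⟨0,[(36,0),(2,0)]⟩⟩,⟨true,0,⟨0,[(0,0)]⟩,⟨1,[(2,0),(13,0),(15,0)]⟩⟩,⟨true,0,
  ⟨0,[(41,0)]⟩,⟨0,[]⟩⟩,⟨false,1,⟨0,[(0,0),(35,0),(2,0)]⟩,⟨0,[(16,1),(6,0)]⟩⟩,[]⟩) (.R ⟨1,false,
  false,false,[0,0,0,1],[1,-1,1],[1,0,0,0,0,0,0,0,1],(⟨0,[(22,0)]⟩,⟨1,[(21,0),(8,0),(0,0)]⟩),(⟨0,
  [(31,0),(1,0)]⟩,⟨0,[(12,0)]⟩),⟨0,[(8,0)]⟩,.k,.k,(.x 0 ⟨1,[(9,0),(14,0),(2,0)]⟩ ⟨3,[(19,0),(0,0),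
  (13,3),(3,1)]⟩),(.r 0 ⟨1,[(3,0),(2,0),(3,0),(28,0)]⟩ ⟨3,[(14,3),(4,2),(0,0),(16,3)]⟩),.k,.k,⟨true,
  0,⟨1,[(3,0),(2,0),(3,0),(28,0)]⟩,⟨0,[(13,0),(23,0)]⟩⟩,⟨false,0,⟨0,[(11,0),(10,0)]⟩,⟨1,[(21,0),(6,
  1),(1,0),(0,0),(6,1)]⟩⟩,⟨true,0,⟨0,[]⟩,⟨0,[(41,0)]⟩⟩,⟨true,0,⟨4,[(0,2),(1,1),(8,0),(1,0),(5,1),(2,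
  4),(0,0)]⟩,⟨0,[(7,0),(18,0)]⟩⟩,⟨false,1,⟨0,[(36,0),(2,0)]⟩,⟨0,[(37,0)]⟩⟩,⟨true,0,⟨0,[(11,0),(1,0),
  (8,0)]⟩,⟨0,[(7,0),(18,0),(10,0)]⟩⟩,[.o ⟨false,0,⟨1,[(2,0),(13,0),(15,0)]⟩,⟨0,[(26,0),(9,0),(2,
  0)]⟩⟩,.o ⟨false,0,⟨0,[(0,0)]⟩,⟨3,[(19,0),(0,0),(5,3),(9,3),(2,1)]⟩⟩,.a ⟨true,0,⟨1,[(21,0),(8,0),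
  (0,0)]⟩,⟨0,[(22,0)]⟩⟩ ⟨true,0,⟨0,[(10,0)]⟩,⟨5,[(2,1),(0,0),(9,1),(5,1),(6,1),(8,0)]⟩⟩ ⟨false,0,⟨0,
  [(0,0),(21,0)]⟩,⟨1,[(7,1),(11,0),(6,1),(12,0)]⟩⟩,.o ⟨false,0,⟨1,[(21,0),(2,0),(2,0)]⟩,⟨1,[(22,1),
  (9,0),(5,0)]⟩⟩]⟩)) (.Q [0,1,0,1,0,0,-1,-1,0,1,1] (.p true [1,-1,1] [] (⟨0,[(30,0),(1,0)]⟩,⟨0,[(11,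
  0)]⟩) .k 0 (⟨0,[]⟩,⟨0,[]⟩) .k .k) (.R ⟨1,true,true,true,[1,-1,1],[],[0,1,-1,-2,0,0,0,1],(⟨0,[(31,
  0),(1,0)]⟩,⟨0,[(12,0)]⟩),(⟨0,[]⟩,⟨0,[]⟩),⟨0,[(9,0),(21,0)]⟩,.k,.k,(.r (-1) ⟨3,[(14,3),(4,0),(0,0),
  (16,7),(0,1)]⟩ ⟨2,[(3,2),(0,1),(11,0),(2,0),(8,0),(10,0)]⟩),.k,(.r (-1) ⟨3,[(14,3),(4,0),(0,0),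
  (16,7),(0,1)]⟩ ⟨2,[(3,2),(0,1),(11,0),(2,0),(8,0),(10,0)]⟩),.k,⟨true,0,⟨0,[(14,0),(22,1)]⟩,⟨2,[(3,
  2),(0,1),(11,0),(2,0),(8,0),(10,0)]⟩⟩,⟨false,1,⟨1,[(0,1),(13,1),(22,1),(0,0),(0,0)]⟩,⟨2,[(11,1),
  (12,0),(2,1)]⟩⟩,⟨false,0,⟨0,[(37,0)]⟩,⟨0,[(36,0),(2,0)]⟩⟩,⟨true,0,⟨0,[(0,0)]⟩,⟨1,[(2,0),(13,0),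
  (15,0)]⟩⟩,⟨true,0,⟨0,[(41,0)]⟩,⟨0,[]⟩⟩,⟨false,1,⟨0,[(0,0),(35,0),(2,0)]⟩,⟨0,[(16,1),(6,0)]⟩⟩,[]⟩)
  (.R ⟨1,false,false,false,[1,0,0,-1],[1,-1,1],[1,1,0,0,0,0,0,0,-1],(⟨1,[(21,0),(8,0),(0,0)]⟩,⟨0,
  [(22,0)]⟩),(⟨0,[(31,0),(1,0)]⟩,⟨0,[(12,0)]⟩),⟨1,[(9,0),(11,0)]⟩,.k,.k,(.r (-1) ⟨1,[(19,0),(17,1),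
  (0,0)]⟩ ⟨9,[(3,1),(0,3),(15,2),(6,1),(0,1),(10,0)]⟩),(.r (-1) ⟨19,[(3,11),(0,3),(14,14),(0,2),(6,
  1),(0,1),(10,5)]⟩ ⟨0,[(10,0),(3,0),(22,0)]⟩),.k,.k,⟨true,0,⟨0,[(3,0),(9,0)]⟩,⟨1,[(5,0),(4,0),(3,
  0),(22,2),(1,0)]⟩⟩,⟨false,0,⟨1,[(11,0),(3,0),(5,0)]⟩,⟨0,[(22,0),(5,0),(9,0)]⟩⟩,⟨false,0,⟨0,[]⟩,⟨3,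
  [(19,0),(0,0),(18,1)]⟩⟩,⟨false,0,⟨1,[(0,0),(9,1),(5,0),(4,0)]⟩,⟨1,[(3,0),(9,1),(8,1),(3,1),(8,0),
  (3,1)]⟩⟩,⟨true,0,⟨0,[(36,0)]⟩,⟨0,[(37,0)]⟩⟩,⟨false,0,⟨0,[(0,0),(6,0)]⟩,⟨1,[(19,0),(2,1),(3,1),(12,
  0)]⟩⟩,[.o ⟨false,0,⟨1,[(2,0),(13,0),(15,0)]⟩,⟨0,[(26,0),(9,0),(2,0)]⟩⟩,.o ⟨false,0,⟨0,[(0,0)]⟩,⟨3,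
  [(19,0),(0,0),(5,3),(9,3),(2,1)]⟩⟩,.a ⟨true,0,⟨0,[(22,0)]⟩,⟨1,[(21,0),(8,0),(0,0)]⟩⟩ ⟨true,0,⟨5,
  [(2,1),(0,0),(9,1),(5,1),(6,1),(8,0)]⟩,⟨1,[(0,7),(2,0),(0,1),(3,31),(12,15),(1,7),(10,31),(0,2),
  (3,1)]⟩⟩ ⟨false,0,⟨1,[(0,0),(15,0),(4,0)]⟩,⟨0,[(22,0),(3,0),(9,0),(2,0)]⟩⟩,.o ⟨false,0,⟨2,[(11,0),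
  (10,2),(1,1),(2,0)]⟩,⟨7,[(19,0),(0,0),(0,3),(10,1),(5,3)]⟩⟩]⟩)))) (.Q [0,0,0,-1,0,0,-1,-1,1,0,1,
  -1] (.p true [0,0,1] [0,0,0,1] (⟨0,[(28,0)]⟩,⟨0,[(27,0)]⟩) .k 2 (⟨0,[(19,0)]⟩,⟨1,[(18,0),(8,0),(0,
  0)]⟩) .k (.r 0 ⟨0,[(10,0)]⟩ ⟨1,[(12,1),(4,0),(5,1),(12,0)]⟩)) (.R ⟨1,true,false,false,[1,0,-1],[1,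
  0,0,-1],[0,1,0,-1,0,0,0,-1],(⟨0,[(28,0)]⟩,⟨0,[(29,0)]⟩),(⟨1,[(19,0),(8,0),(0,0)]⟩,⟨0,[(20,0)]⟩),
  ⟨0,[(7,0),(2,0)]⟩,.k,.k,.k,.k,(.r (-1) ⟨3,[(0,1),(12,3),(4,0),(1,1),(3,1),(10,1),(0,1),(0,0)]⟩ ⟨0,
  [(3,0),(13,0)]⟩),.k,⟨false,0,⟨0,[(0,0),(12,0),(6,0),(12,0),(1,0)]⟩,⟨9,[(1,1),(0,5),(14,8),(0,0),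
  (17,1),(0,3)]⟩⟩,⟨true,0,⟨0,[(13,0),(6,0)]⟩,⟨1,[(19,0),(2,0),(3,0)]⟩⟩,⟨false,0,⟨0,[(35,0)]⟩,⟨0,
  [(34,0),(2,0)]⟩⟩,⟨true,0,⟨0,[(11,0),(1,0),(6,0)]⟩,⟨9,[(0,3),(3,1),(13,1),(0,2),(1,2),(2,2),(8,
  1)]⟩⟩,⟨true,0,⟨0,[(39,0)]⟩,⟨0,[]⟩⟩,⟨false,1,⟨9,[(2,1),(6,3),(2,1),(2,5),(1,5),(2,9),(9,0),(6,4)]⟩,
  ⟨0,[(0,0)]⟩⟩,[]⟩) (.I [0,-1,-1,-1,1,0,0,-1,1] (.R ⟨1,false,false,true,[0,0,0,1],[0,0,1],[0,0,0,-1,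
  0,0,0,0,1],(⟨0,[(21,0)]⟩,⟨1,[(20,0),(8,0),(0,0)]⟩),(⟨0,[(30,0)]⟩,⟨0,[(29,0)]⟩),⟨0,[(7,0)]⟩,.k,.k,
  (.x 0 ⟨1,[(8,0),(14,0),(2,0)]⟩ ⟨3,[(18,0),(0,0),(13,3),(3,1)]⟩),.k,(.r (-1) ⟨0,[(0,0),(39,0)]⟩ ⟨0,
  [(4,0),(13,0)]⟩),.k,⟨false,1,⟨0,[(0,0)]⟩,⟨0,[(12,0),(22,0)]⟩⟩,⟨true,0,⟨0,[(14,0),(6,0)]⟩,⟨1,[(20,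
  0),(2,0),(3,0)]⟩⟩,⟨true,0,⟨0,[(36,0)]⟩,⟨0,[(35,0)]⟩⟩,⟨false,0,⟨0,[(1,0),(34,0)]⟩,⟨3,[(0,1),(5,1),
  (13,0),(1,0),(0,1),(1,0),(12,1)]⟩⟩,⟨false,1,⟨3,[(18,0),(0,0),(18,1)]⟩,⟨0,[]⟩⟩,⟨false,0,⟨0,[(1,
  0)]⟩,⟨1,[(0,1),(19,0),(2,0),(3,0)]⟩⟩,[.o ⟨false,0,⟨0,[(24,0)]⟩,⟨0,[(22,0),(15,0)]⟩⟩,.o ⟨false,0,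
  ⟨16,[(2,0),(1,0),(5,3),(1,0),(4,5),(6,0),(6,0)]⟩,⟨1,[(25,1),(5,0),(6,0)]⟩⟩,.a ⟨true,0,⟨1,[(20,0),
  (8,0),(0,0)]⟩,⟨0,[(21,0)]⟩⟩ ⟨true,0,⟨6,[(0,1),(1,0),(2,2),(13,0),(16,6)]⟩,⟨1,[(1,1),(18,0),(1,0),
  (2,0)]⟩⟩ ⟨false,0,⟨16,[(1,0),(0,0),(1,0),(5,2),(4,0),(1,4),(3,15),(2,1),(6,0)]⟩,⟨1,[(20,0),(1,0),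
  (2,0),(12,1)]⟩⟩,.o ⟨false,0,⟨1,[(20,0),(2,0),(2,0)]⟩,⟨1,[(21,1),(9,0),(5,0)]⟩⟩]⟩) (.Q [0,1,0,1,0,
  0,-1,-1,0,1,1] (.p true [1,-1,1] [] (⟨0,[(30,0),(1,0)]⟩,⟨0,[(11,0)]⟩) .k 0 (⟨0,[]⟩,⟨0,[]⟩) .k .k)
  (.R ⟨1,true,true,true,[1,-1,1],[],[1,1,-1,-1,0,0,0,1],(⟨0,[(31,0),(1,0)]⟩,⟨0,[(12,0)]⟩),(⟨0,[]⟩,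
  ⟨0,[]⟩),⟨0,[(9,0),(21,0)]⟩,.k,.k,(.r (-1) ⟨7,[(3,3),(15,0),(0,0),(16,11),(0,5),(2,3)]⟩ ⟨0,[(1,0),
  (4,0),(8,1),(10,1),(12,1)]⟩),.k,(.r (-1) ⟨7,[(3,3),(15,0),(0,0),(16,11),(0,5),(2,3)]⟩ ⟨0,[(1,0),
  (4,0),(8,1),(10,1),(12,1)]⟩),.k,⟨true,0,⟨0,[(14,0),(22,0)]⟩,⟨0,[(1,0),(4,0),(8,1),(10,1),(10,0),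
  (1,1)]⟩⟩,⟨false,1,⟨3,[(0,3),(2,1),(33,1),(0,2),(0,0)]⟩,⟨2,[(11,1),(12,0),(2,1)]⟩⟩,⟨false,0,⟨0,[]⟩,
  ⟨3,[(19,0),(0,0),(18,1)]⟩⟩,⟨true,0,⟨0,[(0,0)]⟩,⟨7,[(3,1),(7,5),(4,0),(7,1),(0,2),(11,4)]⟩⟩,⟨true,
  0,⟨0,[(36,0)]⟩,⟨0,[(37,0)]⟩⟩,⟨false,1,⟨0,[(0,0),(35,0),(2,0)]⟩,⟨0,[(16,1),(6,0)]⟩⟩,[]⟩) (.R ⟨1,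
  false,false,false,[0,0,0,1],[1,-1,1],[1,0,0,0,0,0,0,0,1],(⟨0,[(22,0)]⟩,⟨1,[(21,0),(8,0),(0,0)]⟩),
  (⟨0,[(31,0),(1,0)]⟩,⟨0,[(12,0)]⟩),⟨0,[(8,0)]⟩,.k,.k,(.r (-1) ⟨1,[(20,0),(16,1),(0,0)]⟩ ⟨0,[(1,0),
  (13,0),(10,0),(12,0)]⟩),(.r 0 ⟨0,[(6,0),(8,0),(10,0),(12,0)]⟩ ⟨7,[(3,3),(15,4),(0,0),(16,3),(0,1),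
  (2,3)]⟩),.k,.k,⟨true,0,⟨0,[(6,0),(8,0),(10,0),(12,0)]⟩,⟨2,[(1,0),(1,0),(15,0),(17,2)]⟩⟩,⟨false,0,
  ⟨0,[(11,0),(10,0)]⟩,⟨1,[(21,0),(6,1),(1,0),(0,0),(6,1)]⟩⟩,⟨true,0,⟨0,[]⟩,⟨0,[(41,0)]⟩⟩,⟨true,0,⟨1,
  [(0,0),(1,1),(20,0),(13,2)]⟩,⟨0,[(7,0),(18,0)]⟩⟩,⟨false,1,⟨0,[(36,0),(2,0)]⟩,⟨0,[(37,0)]⟩⟩,⟨true,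
  0,⟨1,[(0,0),(1,1),(20,0),(13,0)]⟩,⟨0,[(7,0),(18,0),(10,0)]⟩⟩,[.o ⟨false,0,⟨3,[(0,2),(22,0),(1,1),
  (11,0)]⟩,⟨0,[(26,0),(9,0),(2,0)]⟩⟩,.o ⟨false,0,⟨0,[(0,0)]⟩,⟨3,[(19,0),(0,0),(5,3),(9,3),(2,1)]⟩⟩,
  .a ⟨true,0,⟨1,[(21,0),(8,0),(0,0)]⟩,⟨0,[(22,0)]⟩⟩ ⟨true,0,⟨0,[(10,0)]⟩,⟨2,[(1,0),(13,0),(3,0),(6,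
  0),(8,0),(1,1)]⟩⟩ ⟨false,0,⟨0,[(0,0),(21,0)]⟩,⟨1,[(7,1),(11,0),(6,1),(12,0)]⟩⟩,.o ⟨false,0,⟨1,
  [(21,0),(2,0),(2,0)]⟩,⟨1,[(22,1),(9,0),(5,0)]⟩⟩]⟩)))))))))))))

theorem ok57 : chk (cU (-1) false 3) t57 l32 = true := by decide +kernel

end Helper11.CT.Tm1_1_m1_1_v
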