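import Pool.Agent.Helper11.CT.T.Tm1_2_m1_1_u_q

set_option autoImplicit false
set_option linter.all false

namespace Helper11.CT.Tm1_2_m1_1_u

open Helper11.CT

noncomputable def t0 : Tre :=
  (.R ⟨2,true,false,true,[0,1],[0,1,1],[0,1,1],(⟨0,[]⟩,⟨0,[]⟩),(⟨0,[(18,0),(2,0)]⟩,⟨0,[(2,0)]⟩),⟨0,
  []⟩,.k,.k,.k,.k,.k,.k,⟨true,0,⟨0,[(0,0),(13,0),(8,0)]⟩,⟨0,[(3,0),(7,0)]⟩⟩,⟨false,1,⟨0,[(14,0),(11,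
  0)]⟩,⟨1,[(0,0),(3,0),(11,1)]⟩⟩,⟨false,0,⟨0,[(25,0)]⟩,⟨0,[(24,0),(2,0)]⟩⟩,⟨true,0,⟨0,[(12,0)]⟩,⟨1,
  [(0,0),(3,0)]⟩⟩,⟨true,0,⟨0,[(29,0)]⟩,⟨0,[]⟩⟩,⟨false,1,⟨3,[(3,3),(2,0),(0,0),(11,1)]⟩,⟨0,[(0,0)]⟩⟩,
  []⟩)

theorem ok0 : chk (cU (-1) true 3) t0 l4 = true := by decide +kernel

noncomputable def t7 : Tre :=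
  (.I [0,0,1,1,0,0,0,0,-1] (.Q [0,0,0,-1,0,0,-2,-2,0,-1,2] (.p true [0,0,1] [1,0,-1] (⟨0,[(18,0)]⟩,
  ⟨0,[(17,0)]⟩) .k 2 (⟨0,[(17,0)]⟩,⟨0,[(18,0)]⟩) .k (.x (-1) ⟨0,[(14,1),(3,1),(7,0)]⟩ ⟨0,[(1,1),(15,
  1)]⟩)) (.Q [0,0,0,1,0,0,-1,-1,0,0,1] (.p true [0,0,1] [] (⟨0,[(19,0)]⟩,⟨0,[(18,0)]⟩) .k 0 (⟨0,[]⟩,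
  ⟨0,[]⟩) .k .k) (.R ⟨1,false,false,false,[1,0,-1],[1,-1],[1,1,0,0,0,0,0,-1],(⟨0,[(19,0)]⟩,⟨0,[(20,
  0)]⟩),(⟨0,[(22,0)]⟩,⟨0,[(23,0)]⟩),⟨0,[(4,0)]⟩,.k,.k,.k,.k,.k,.k,⟨false,0,⟨0,[(0,0),(15,0),(8,0)]⟩,
  ⟨1,[(18,1),(8,1),(0,0),(0,0)]⟩⟩,⟨true,0,⟨0,[(16,0)]⟩,⟨2,[(0,0),(0,0),(8,0),(0,0),(6,2)]⟩⟩,⟨false,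
  0,⟨0,[]⟩,⟨3,[(8,0),(0,0),(19,1)]⟩⟩,⟨false,1,⟨7,[(7,3),(0,0),(0,0),(11,1),(5,7),(1,3)]⟩,⟨0,[(0,
  0)]⟩⟩,⟨true,0,⟨0,[(26,0)]⟩,⟨0,[(27,0)]⟩⟩,⟨false,1,⟨7,[(7,3),(0,0),(0,0),(11,1),(7,3)]⟩,⟨2,[(0,0),
  (0,0),(8,0),(0,0)]⟩⟩,[.a ⟨true,0,⟨0,[(27,0)]⟩,⟨1,[(0,0),(4,0),(4,0),(0,0)]⟩⟩ ⟨true,0,⟨2,[(0,0),(0,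
  0),(8,0),(0,0),(4,2),(8,2)]⟩,⟨0,[(3,0),(1,0),(18,0)]⟩⟩ ⟨false,1,⟨0,[(16,0),(10,0),(0,0)]⟩,⟨0,[(0,
  0),(17,0)]⟩⟩,.o ⟨false,1,⟨1,[(21,0),(5,1),(1,0)]⟩,⟨0,[(26,0)]⟩⟩,.o ⟨false,0,⟨0,[(3,0)]⟩,⟨3,[(8,0),
  (0,0),(6,3),(11,1)]⟩⟩,.o ⟨false,0,⟨0,[(13,0)]⟩,⟨0,[(16,0),(11,0)]⟩⟩]⟩) (.R ⟨2,true,false,false,[0,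
  1],[0,0,1],[0,1,1],(⟨0,[]⟩,⟨0,[]⟩),(⟨0,[(20,0)]⟩,⟨0,[(19,0)]⟩),⟨0,[]⟩,.k,.k,.k,.k,.k,.k,⟨false,0,
  ⟨0,[(1,0),(3,0),(10,0),(8,0)]⟩,⟨1,[(18,1),(9,0),(0,0)]⟩⟩,⟨true,0,⟨0,[(16,0)]⟩,⟨0,[(3,0),(6,0),(0,
  0)]⟩⟩,⟨false,0,⟨0,[(27,0)]⟩,⟨0,[(26,0),(2,0)]⟩⟩,⟨true,0,⟨0,[(0,0)]⟩,⟨0,[(6,0)]⟩⟩,⟨true,0,⟨0,[(31,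
  0)]⟩,⟨0,[]⟩⟩,⟨false,1,⟨7,[(7,3),(0,0),(0,0),(11,1),(7,3)]⟩,⟨0,[(1,0),(3,0)]⟩⟩,[]⟩)) (.Q [0,0,0,-1,
  0,0,1,1,0,0,-1] (.p false [0,0,1] [] (⟨0,[(19,0)]⟩,⟨0,[(18,0)]⟩) .k 0 (⟨0,[]⟩,⟨0,[]⟩) .k .k) (.Q
  [0,0,0,0,0,0,1,1,0,0,-1] (.p false [0,0,1] [] (⟨0,[(20,0)]⟩,⟨0,[(19,0)]⟩) .k 0 (⟨0,[]⟩,⟨0,[]⟩) .k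
  .k) (.Q [0,1,-1,0,0,0,0,0,-1,0,0,1] (.p true [0,0,0,1] [] (⟨0,[(12,0)]⟩,⟨0,[(11,0)]⟩) .k 0 (⟨0,
  []⟩,⟨0,[]⟩) .k .k) (.Q [0,1,1,0,0,0,0,0,1,0,0,-1] (.p false [0,0,0,1] [] (⟨0,[(13,0)]⟩,⟨0,[(12,
  0)]⟩) .k 0 (⟨0,[]⟩,⟨0,[]⟩) .k .k) (.K ⟨0,[0,0,0,1],0,0,(⟨0,[(14,0)]⟩,⟨0,[(13,0)]⟩),.k,(.r (-1) ⟨1,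
  [(12,0),(17,1),(0,0)]⟩ ⟨0,[(5,0)]⟩),(.x 0 ⟨0,[(26,0)]⟩ ⟨3,[(11,0),(0,0),(11,1),(0,3)]⟩),.k,.k,[⟨0,
  [(14,0)]⟩,⟨0,[(13,0)]⟩,⟨0,[(1,0)]⟩,⟨0,[(0,0)]⟩]⟩) (.Q [0,0,0,0,0,1,0,0,0,-1,0,1] (.p true [0,0,0,
  1] [1] (⟨0,[(14,0)]⟩,⟨0,[(13,0)]⟩) .k 1 (⟨0,[]⟩,⟨0,[]⟩) .k .k) (.R ⟨0,false,false,false,[1,0,0,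
  -1],[0,0,1],[0,1,0,0,0,0,0,0,-1],(⟨0,[(14,0)]⟩,⟨0,[(15,0)]⟩),(⟨0,[(24,0)]⟩,⟨0,[(23,0)]⟩),⟨0,[(0,
  0)]⟩,.k,.k,(.x (-1) ⟨3,[(12,0),(0,0),(11,1),(0,3)]⟩ ⟨0,[(27,0)]⟩),.k,.k,.k,⟨false,0,⟨0,[(1,0),(12,
  0),(1,0),(3,0),(8,0)]⟩,⟨1,[(13,0),(8,1),(10,0)]⟩⟩,⟨true,0,⟨0,[(14,0),(5,0)]⟩,⟨0,[(7,0),(7,0)]⟩⟩,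
  ⟨true,0,⟨0,[(35,0)]⟩,⟨0,[]⟩⟩,⟨false,1,⟨3,[(5,1),(7,1),(0,3),(5,0),(0,0),(3,0),(2,1),(4,0)]⟩,⟨0,
  [(1,0),(14,0)]⟩⟩,⟨false,0,⟨0,[]⟩,⟨0,[]⟩⟩,⟨false,0,⟨0,[]⟩,⟨0,[]⟩⟩,[.o ⟨false,0,⟨0,[(3,0)]⟩,⟨1,[(19,
  1),(5,0),(7,0)]⟩⟩,.o ⟨false,1,⟨7,[(11,3),(0,0),(0,0),(11,1),(7,3)]⟩,⟨0,[(16,0)]⟩⟩,.o ⟨false,1,⟨1,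
  [(15,1),(9,0),(6,0)]⟩,⟨0,[(7,0),(6,0),(5,0)]⟩⟩,.a ⟨true,0,⟨0,[(15,0)]⟩,⟨0,[(14,0)]⟩⟩ ⟨false,0,⟨0,
  [(1,0),(1,0),(10,0),(1,0)]⟩,⟨1,[(13,0),(6,0),(0,0),(11,0)]⟩⟩ ⟨true,0,⟨0,[(3,0),(10,0)]⟩,⟨0,[(15,
  0),(0,0)]⟩⟩]⟩) (.I [0,0,-1,-1,0,0,0,-1,-1] (.R ⟨1,false,false,false,[1,0,0,-1],[0,0,1],[1,1,0,0,0,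
  0,0,0,-1],(⟨0,[(15,0)]⟩,⟨0,[(16,0)]⟩),(⟨0,[(25,0)]⟩,⟨0,[(24,0)]⟩),⟨0,[(1,0)]⟩,.k,.k,(.x (-1) ⟨3,
  [(13,0),(0,0),(11,1),(0,3)]⟩ ⟨0,[(28,0)]⟩),.k,(.r 0 ⟨0,[(0,0)]⟩ ⟨5,[(6,3),(4,1),(2,2),(7,5),(3,1),
  (7,0)]⟩),.k,⟨false,0,⟨0,[(0,0),(30,0)]⟩,⟨1,[(14,0),(8,1),(10,0)]⟩⟩,⟨true,0,⟨0,[(15,0),(5,0)]⟩,⟨0,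
  [(8,0),(7,0)]⟩⟩,⟨false,0,⟨0,[]⟩,⟨3,[(13,0),(0,0),(19,1)]⟩⟩,⟨false,1,⟨3,[(6,1),(7,1),(0,3),(5,0),
  (0,0),(3,0),(2,1),(4,0)]⟩,⟨0,[(2,0),(14,0)]⟩⟩,⟨true,0,⟨0,[(31,0)]⟩,⟨0,[(32,0)]⟩⟩,⟨false,1,⟨1,[(8,
  1),(1,1),(3,0),(0,1),(5,1),(12,0)]⟩,⟨0,[(2,0),(14,0),(14,0)]⟩⟩,[.o ⟨false,0,⟨0,[(4,0)]⟩,⟨1,[(20,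
  1),(5,0),(7,0)]⟩⟩,.o ⟨false,1,⟨7,[(12,3),(0,0),(0,0),(11,1),(7,3)]⟩,⟨0,[(17,0)]⟩⟩,.o ⟨false,1,⟨1,
  [(16,1),(9,0),(6,0)]⟩,⟨0,[(8,0),(6,0),(5,0)]⟩⟩,.a ⟨true,0,⟨0,[(16,0)]⟩,⟨0,[(15,0)]⟩⟩ ⟨false,0,⟨2,
  [(0,1),(1,0),(3,0),(1,1),(6,0),(15,0)]⟩,⟨1,[(14,0),(6,0),(0,0),(11,0)]⟩⟩ ⟨true,0,⟨0,[(4,0),(10,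
  0)]⟩,⟨0,[(16,0),(0,0)]⟩⟩]⟩) (.R ⟨1,false,false,false,[1,0,0,-1],[0,0,1],[1,1,0,0,0,0,0,0,-1],(⟨0,
  [(15,0)]⟩,⟨0,[(16,0)]⟩),(⟨0,[(25,0)]⟩,⟨0,[(24,0)]⟩),⟨0,[(1,0)]⟩,.k,.k,(.x (-1) ⟨3,[(13,0),(0,0),
  (11,1),(0,3)]⟩ ⟨0,[(28,0)]⟩),.k,(.x 0 ⟨0,[(8,0),(0,0)]⟩ ⟨3,[(13,0),(0,0),(6,3),(3,3),(2,3),(4,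
  1)]⟩),.k,⟨false,0,⟨0,[(2,0),(12,0),(1,0),(3,0),(8,0)]⟩,⟨1,[(14,0),(8,1),(10,0)]⟩⟩,⟨true,0,⟨0,[(15,
  0),(5,0)]⟩,⟨0,[(8,0),(7,0)]⟩⟩,⟨false,0,⟨0,[]⟩,⟨3,[(13,0),(0,0),(19,1)]⟩⟩,⟨false,1,⟨11,[(0,3),(11,
  3),(0,0),(0,4),(0,11),(5,3),(4,1),(2,3),(4,3)]⟩,⟨0,[(2,0),(14,0)]⟩⟩,⟨true,0,⟨0,[(31,0)]⟩,⟨0,[(32,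
  0)]⟩⟩,⟨false,1,⟨11,[(0,5),(5,3),(4,1),(2,2),(0,11),(5,5),(4,1),(7,6)]⟩,⟨0,[(2,0),(14,0),(14,0)]⟩⟩,
  [.o ⟨false,0,⟨0,[(4,0)]⟩,⟨1,[(20,1),(5,0),(7,0)]⟩⟩,.o ⟨false,1,⟨7,[(12,3),(0,0),(0,0),(11,1),(7,
  3)]⟩,⟨0,[(17,0)]⟩⟩,.o ⟨false,1,⟨1,[(16,1),(9,0),(6,0)]⟩,⟨0,[(8,0),(6,0),(5,0)]⟩⟩,.a ⟨true,0,⟨0,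
  [(16,0)]⟩,⟨0,[(15,0)]⟩⟩ ⟨false,0,⟨0,[(2,0),(1,0),(10,0),(1,0)]⟩,⟨1,[(14,0),(6,0),(0,0),(11,0)]⟩⟩
  ⟨true,0,⟨0,[(4,0),(10,0)]⟩,⟨0,[(16,0),(0,0)]⟩⟩]⟩)))) (.Q [0,1,1,0,-1,0,0,0,1,0,0,-1] (.p false [0,
  0,0,1] [] (⟨0,[(13,0)]⟩,⟨0,[(12,0)]⟩) .k 0 (⟨0,[]⟩,⟨0,[]⟩) .k .k) (.K ⟨0,[0,0,0,1],0,(-1),(⟨0,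
  [(14,0)]⟩,⟨0,[(13,0)]⟩),.k,(.r (-1) ⟨1,[(12,0),(17,1),(0,0)]⟩ ⟨0,[(5,0)]⟩),(.x 0 ⟨0,[(26,0)]⟩ ⟨3,
  [(11,0),(0,0),(11,1),(0,3)]⟩),.k,.k,[⟨0,[(14,0)]⟩,⟨0,[(13,0)]⟩,⟨1,[(11,0),(2,1),(16,0),(2,1)]⟩,⟨0,
  [(0,0)]⟩]⟩) (.Q [0,1,1,-1,-1,0,0,0,1,0,0,-1] (.p false [0,0,0,1] [] (⟨0,[(14,0)]⟩,⟨0,[(13,0)]⟩)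
  .k 0 (⟨0,[]⟩,⟨0,[]⟩) .k .k) (.R ⟨2,true,false,true,[0,1],[0,0,0,1],[0,1,1],(⟨0,[]⟩,⟨0,[]⟩),(⟨0,
  [(15,0)]⟩,⟨0,[(14,0)]⟩),⟨0,[]⟩,.k,.k,.k,(.r 0 ⟨0,[(6,0)]⟩ ⟨1,[(13,0),(17,1),(0,0)]⟩),.k,.k,⟨true,
  0,⟨0,[(6,0),(24,0)]⟩,⟨0,[(2,0),(12,0),(13,0)]⟩⟩,⟨false,0,⟨5,[(0,1),(1,1),(3,1),(5,0),(1,1),(10,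
  0)]⟩,⟨0,[(15,0),(16,0)]⟩⟩,⟨false,0,⟨0,[(31,0)]⟩,⟨5,[(5,1),(4,3),(14,0),(7,4)]⟩⟩,⟨true,(-1),⟨0,[(0,
  0)]⟩,⟨0,[(1,0),(28,0)]⟩⟩,⟨true,0,⟨0,[(35,0)]⟩,⟨0,[]⟩⟩,⟨false,0,⟨8,[(0,2),(1,3),(3,1),(6,1),(0,1),
  (10,0),(4,0)]⟩,⟨0,[(1,0)]⟩⟩,[]⟩) (.Q [0,0,0,0,0,-1,0,0,0,0,1] (.ed false [1,-1,1] .k) (.K ⟨2,[0,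
  -1,1],0,0,(⟨0,[(0,0)]⟩,⟨0,[(24,0),(3,0)]⟩),.k,(.x 0 ⟨1,[(0,2),(8,0),(8,0),(2,2)]⟩ ⟨0,[(8,0),(15,
  0),(3,1),(4,0)]⟩),.k,.k,.k,[⟨0,[(32,0)]⟩,⟨0,[(11,0)]⟩,⟨0,[(8,0),(6,0),(0,0)]⟩,⟨1,[(21,2),(0,
  0)]⟩]⟩) (.Q [0,0,-1,-1,0,0,-1,0,0,0,1] (.p true [0,0,1] [] (⟨0,[(25,0)]⟩,⟨0,[(24,0)]⟩) .k 0 (⟨0,
  []⟩,⟨0,[]⟩) .k .k) (.Q [0,0,0,1,0,0,-1,0,0,0,1] (.p true [0,0,1] [] (⟨0,[(26,0)]⟩,⟨0,[(25,0)]⟩)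
  .k 0 (⟨0,[]⟩,⟨0,[]⟩) .k .k) (.Q [0,0,-1,0,0,0,-1,0,0,1,1] (.p true [1,-1,1] [] (⟨0,[(27,0),(1,
  0)]⟩,⟨0,[(2,0)]⟩) .k 0 (⟨0,[]⟩,⟨0,[]⟩) .k .k) (.R ⟨0,false,false,false,[0,1,-1],[0,1],[0,1],(⟨0,
  [(3,0)]⟩,⟨0,[(28,0),(1,0)]⟩),(⟨0,[(31,0)]⟩,⟨0,[(30,0)]⟩),⟨0,[(28,0)]⟩,.k,.k,.k,.k,.k,.k,⟨true,0,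
  ⟨0,[(33,0),(1,0)]⟩,⟨0,[(6,0),(3,0),(8,0)]⟩⟩,⟨false,1,⟨0,[(24,0),(11,0)]⟩,⟨2,[(1,0),(0,0),(22,
  0)]⟩⟩,⟨false,0,⟨0,[(2,0),(4,0)]⟩,⟨0,[(14,0),(9,0),(12,0)]⟩⟩,⟨true,0,⟨0,[(7,0)]⟩,⟨0,[(23,0)]⟩⟩,
  ⟨false,0,⟨0,[]⟩,⟨0,[]⟩⟩,⟨false,0,⟨0,[]⟩,⟨0,[]⟩⟩,[.e ⟨false,0,⟨0,[(33,0)]⟩,⟨3,[(16,0),(0,0),(19,
  1)]⟩⟩ ⟨false,1,⟨5,[(9,1),(4,3),(9,5),(4,0),(6,2),(0,1)]⟩,⟨0,[(2,0)]⟩⟩,.o ⟨false,1,⟨5,[(9,1),(4,3),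
  (14,0),(7,4)]⟩,⟨0,[(8,0),(11,0)]⟩⟩,.a ⟨true,0,⟨0,[(0,0)]⟩,⟨0,[(24,0)]⟩⟩ ⟨true,0,⟨0,[(39,0)]⟩,⟨0,
  []⟩⟩ ⟨false,1,⟨5,[(9,1),(4,3),(9,5),(4,0),(7,4)]⟩,⟨0,[(2,0)]⟩⟩,.o ⟨false,0,⟨2,[(1,0),(0,0),(22,
  0)]⟩,⟨1,[(24,1),(4,0),(6,0)]⟩⟩]⟩) (.K ⟨2,[1,-1,1],0,0,(⟨0,[(28,0),(1,0)]⟩,⟨0,[(3,0)]⟩),.k,(.x 0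
  ⟨1,[(0,2),(20,0),(6,1),(1,3)]⟩ ⟨7,[(1,3),(0,3),(0,7),(12,0),(0,0),(13,7),(4,5)]⟩),.k,.k,.k,[⟨0,
  [(0,0),(1,0)]⟩,⟨0,[(14,0),(3,0),(0,0)]⟩,⟨2,[(1,0),(0,0),(15,2),(0,2),(5,0)]⟩,⟨1,[(0,0),(20,0),(2,
  1)]⟩]⟩)) (.Q [0,0,0,-1,0,0,-1,-1,0,0,1] (.p true [0,0,1] [] (⟨0,[(27,0)]⟩,⟨0,[(26,0)]⟩) .k 0 (⟨0,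
  []⟩,⟨0,[]⟩) .k .k) (.R ⟨2,true,false,false,[0,1],[0,1,1],[1,1,1,1],(⟨0,[]⟩,⟨0,[]⟩),(⟨0,[(28,0),(2,
  0)]⟩,⟨0,[(12,0)]⟩),⟨0,[]⟩,.k,.k,.k,.k,.k,.k,⟨true,0,⟨0,[(1,0),(12,0)]⟩,⟨0,[(11,0),(1,0),(18,0)]⟩⟩,
  ⟨false,1,⟨0,[(24,0),(11,0)]⟩,⟨4,[(2,2),(3,0),(3,0),(0,0),(1,0),(0,0),(4,0),(5,0)]⟩⟩,⟨false,0,⟨0,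
  []⟩,⟨3,[(16,0),(0,0),(19,1)]⟩⟩,⟨true,0,⟨0,[(7,0)]⟩,⟨0,[(23,0)]⟩⟩,⟨true,0,⟨0,[(34,0)]⟩,⟨0,[(35,
  0)]⟩⟩,⟨false,1,⟨2,[(9,1),(4,0),(14,0),(7,1)]⟩,⟨0,[(0,0)]⟩⟩,[]⟩) (.K ⟨2,[1,-1,1],0,0,(⟨0,[(28,0),
  (1,0)]⟩,⟨0,[(3,0)]⟩),.k,(.r 0 ⟨0,[(0,0),(0,0),(0,1)]⟩ ⟨1,[(10,1),(3,1),(2,0),(6,1),(12,0)]⟩),.k,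
  .k,.k,[⟨0,[(1,0),(9,0)]⟩,⟨0,[(14,0),(3,0),(0,0)]⟩,⟨3,[(2,2),(3,0),(3,0),(2,0),(0,0),(3,2),(0,3),
  (5,0)]⟩,⟨0,[(11,0),(12,1)]⟩]⟩))) (.Q [0,0,0,-1,0,0,-1,-1,0,0,1] (.p true [0,0,1] [] (⟨0,[(26,0)]⟩,
  ⟨0,[(25,0)]⟩) .k 0 (⟨0,[]⟩,⟨0,[]⟩) .k .k) (.R ⟨2,true,false,false,[0,1],[0,1,1],[1,1,1,1],(⟨0,[]⟩,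
  ⟨0,[]⟩),(⟨0,[(27,0),(2,0)]⟩,⟨0,[(11,0)]⟩),⟨0,[]⟩,.k,.k,.k,.k,.k,.k,⟨true,0,⟨0,[(0,0),(0,0),(30,
  0)]⟩,⟨0,[(10,0),(1,0),(18,0)]⟩⟩,⟨false,1,⟨0,[(23,0),(11,0)]⟩,⟨0,[(10,0),(6,0),(0,0)]⟩⟩,⟨false,0,
  ⟨0,[]⟩,⟨3,[(15,0),(0,0),(19,1)]⟩⟩,⟨true,0,⟨0,[(6,0)]⟩,⟨0,[(22,0)]⟩⟩,⟨true,0,⟨0,[(33,0)]⟩,⟨0,[(34,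
  0)]⟩⟩,⟨false,1,⟨2,[(8,1),(4,0),(14,0),(7,1)]⟩,⟨0,[(0,0)]⟩⟩,[]⟩) (.I [0,0,-1,-2,0,0,0,1] (.Q [0,0,
  0,1,0,0,0,0,0,1] (.pp false [-1,1]) (.R ⟨0,false,false,true,[0,0,1],[0,1],[0,1,2,1],(⟨0,[(29,0)]⟩,
  ⟨0,[(28,0)]⟩),(⟨0,[(32,0)]⟩,⟨0,[(31,0)]⟩),⟨0,[(4,0)]⟩,.k,.k,.k,.k,.k,.k,⟨true,0,⟨1,[(25,0),(0,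
  0)]⟩,⟨0,[]⟩⟩,⟨false,1,⟨3,[(0,1),(0,1),(10,1),(2,1),(21,2),(0,0)]⟩,⟨0,[(25,0)]⟩⟩,⟨false,0,⟨0,[(3,
  0),(11,0),(17,0)]⟩,⟨0,[(1,0),(3,0),(1,0),(26,0)]⟩⟩,⟨true,0,⟨0,[(15,0)]⟩,⟨0,[(9,0)]⟩⟩,⟨false,0,⟨0,
  []⟩,⟨0,[]⟩⟩,⟨false,0,⟨0,[]⟩,⟨0,[]⟩⟩,[.o ⟨false,0,⟨0,[(35,0)]⟩,⟨1,[(30,0),(5,1),(1,0)]⟩⟩,.a ⟨true,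
  0,⟨0,[(0,0)]⟩,⟨0,[(36,0)]⟩⟩ ⟨false,0,⟨1,[(0,0),(2,0),(18,0)]⟩,⟨0,[(36,0),(0,0)]⟩⟩ ⟨true,0,⟨0,[(0,
  0),(11,0)]⟩,⟨0,[(25,0),(10,0)]⟩⟩,.o ⟨false,1,⟨3,[(17,0),(0,0),(6,3),(11,1)]⟩,⟨0,[(12,0)]⟩⟩,.o
  ⟨false,0,⟨0,[(25,0)]⟩,⟨3,[(12,1),(13,1),(3,0),(6,2)]⟩⟩]⟩) (.K ⟨2,[1,-1,1],0,0,(⟨0,[(29,0),(1,0)]⟩,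
  ⟨0,[(4,0)]⟩),.k,(.x 0 ⟨1,[(0,2),(2,2),(18,0),(6,1),(1,3)]⟩ ⟨0,[(12,0),(15,0),(3,1),(4,0)]⟩),.k,.k,
  .k,[⟨0,[(0,0)]⟩,⟨0,[(15,0),(3,0),(0,0)]⟩,⟨0,[(12,0),(6,1),(0,1)]⟩,⟨1,[(0,0),(2,0),(18,0),(2,
  1)]⟩]⟩)) (.Q [0,0,0,1,0,0,0,0,0,1] (.pp false [-1,1]) (.R ⟨0,false,false,true,[0,0,1],[0,1],[1,1,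
  1],(⟨0,[(29,0)]⟩,⟨0,[(28,0)]⟩),(⟨0,[(32,0)]⟩,⟨0,[(31,0)]⟩),⟨0,[(4,0)]⟩,.k,.k,.k,.k,.k,.k,⟨true,0,
  ⟨0,[(36,0)]⟩,⟨5,[(1,1),(1,0),(6,0),(11,0),(3,1)]⟩⟩,⟨false,1,⟨0,[(0,0),(11,0),(23,0),(0,0)]⟩,⟨0,
  [(25,0)]⟩⟩,⟨false,0,⟨0,[(1,0),(34,1)]⟩,⟨1,[(27,1),(9,0),(0,0)]⟩⟩,⟨true,0,⟨0,[(15,0)]⟩,⟨0,[(9,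
  0)]⟩⟩,⟨false,0,⟨0,[]⟩,⟨0,[]⟩⟩,⟨false,0,⟨0,[]⟩,⟨0,[]⟩⟩,[.o ⟨false,0,⟨0,[(35,0)]⟩,⟨1,[(30,0),(5,1),
  (1,0)]⟩⟩,.a ⟨true,0,⟨0,[(0,0)]⟩,⟨0,[(36,0)]⟩⟩ ⟨false,0,⟨0,[]⟩,⟨3,[(17,0),(0,0),(18,1)]⟩⟩ ⟨true,0,
  ⟨0,[(0,0),(11,0)]⟩,⟨0,[(25,0),(10,0)]⟩⟩,.o ⟨false,1,⟨3,[(17,0),(0,0),(6,3),(11,1)]⟩,⟨0,[(12,0)]⟩⟩,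
  .o ⟨false,0,⟨0,[(25,0)]⟩,⟨3,[(12,1),(13,1),(3,0),(6,2)]⟩⟩]⟩) (.K ⟨2,[1,-1,1],0,0,(⟨0,[(29,0),(1,
  0)]⟩,⟨0,[(4,0)]⟩),.k,(.r (-1) ⟨0,[(27,0),(8,1),(0,0)]⟩ ⟨1,[(1,1),(23,0),(0,0)]⟩),.k,.k,.k,[⟨0,[(0,
  0)]⟩,⟨0,[(15,0),(3,0),(0,0)]⟩,⟨0,[(12,0),(6,1),(0,1)]⟩,⟨1,[(0,0),(2,0),(18,0),(2,1)]⟩]⟩)))))))))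
  (.R ⟨2,true,false,false,[0,1],[0,0,1],[0,1,1],(⟨0,[]⟩,⟨0,[]⟩),(⟨0,[(21,0)]⟩,⟨0,[(20,0)]⟩),⟨0,[]⟩,
  .k,.k,.k,.k,.k,.k,⟨false,0,⟨0,[(0,0),(16,0),(8,0)]⟩,⟨1,[(19,1),(9,0),(0,0)]⟩⟩,⟨true,0,⟨0,[(17,
  0)]⟩,⟨0,[(0,0),(18,0)]⟩⟩,⟨false,0,⟨0,[(28,0)]⟩,⟨5,[(2,1),(4,3),(14,0),(7,4)]⟩⟩,⟨true,0,⟨0,[(1,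
  0)]⟩,⟨0,[(7,0)]⟩⟩,⟨true,0,⟨0,[(32,0)]⟩,⟨0,[]⟩⟩,⟨false,1,⟨7,[(8,3),(0,0),(0,0),(11,1),(7,3)]⟩,⟨0,
  [(0,0)]⟩⟩,[]⟩)) (.R ⟨1,false,false,false,[1,0,-1],[1,-1],[1,1,0,0,0,0,0,-1],(⟨0,[(19,0)]⟩,⟨0,[(20,
  0)]⟩),(⟨0,[(22,0)]⟩,⟨0,[(23,0)]⟩),⟨0,[(4,0)]⟩,.k,.k,.k,.k,.k,.k,⟨false,0,⟨0,[(0,0),(15,0),(8,0)]⟩,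
  ⟨1,[(18,1),(8,1),(0,0),(0,0)]⟩⟩,⟨true,0,⟨0,[(16,0)]⟩,⟨0,[(3,0),(6,0),(0,0)]⟩⟩,⟨false,0,⟨0,[]⟩,⟨3,
  [(8,0),(0,0),(19,1)]⟩⟩,⟨false,1,⟨7,[(7,3),(0,0),(0,0),(11,1),(5,7),(1,3)]⟩,⟨0,[(0,0)]⟩⟩,⟨true,0,
  ⟨0,[(26,0)]⟩,⟨0,[(27,0)]⟩⟩,⟨false,1,⟨7,[(7,3),(0,0),(0,0),(11,1),(7,3)]⟩,⟨0,[(0,0),(26,0)]⟩⟩,[.a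
  ⟨true,0,⟨0,[(27,0)]⟩,⟨1,[(0,0),(4,0),(4,0),(0,0)]⟩⟩ ⟨true,0,⟨0,[(0,0),(15,0),(8,0),(1,0)]⟩,⟨1,[(0,
  0),(0,0),(1,0),(14,0),(5,1)]⟩⟩ ⟨false,1,⟨0,[(16,0),(10,0),(0,0)]⟩,⟨0,[(0,0),(17,0)]⟩⟩,.o ⟨false,1,
  ⟨1,[(21,0),(5,1),(1,0)]⟩,⟨0,[(26,0)]⟩⟩,.o ⟨false,0,⟨0,[(3,0)]⟩,⟨3,[(8,0),(0,0),(6,3),(11,1)]⟩⟩,.o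
  ⟨false,0,⟨0,[(13,0)]⟩,⟨0,[(16,0),(11,0)]⟩⟩]⟩))) (.Q [0,0,0,1,0,0,-1,0,0,0,1] (.p true [0,0,1] []
  (⟨0,[(18,0)]⟩,⟨0,[(17,0)]⟩) .k 0 (⟨0,[]⟩,⟨0,[]⟩) .k .k) (.Q [0,1,1,0,-1,0,0,0,1,0,0,-1] (.p false
  [0,0,0,1] [] (⟨0,[(10,0)]⟩,⟨0,[(9,0)]⟩) .k 0 (⟨0,[]⟩,⟨0,[]⟩) .k .k) (.K ⟨0,[0,0,0,1],0,(-1),(⟨0,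
  [(11,0)]⟩,⟨0,[(10,0)]⟩),.k,(.x 0 ⟨0,[(13,0),(2,0),(5,0)]⟩ ⟨0,[(23,0),(4,0)]⟩),(.x 0 ⟨0,[(23,0)]⟩
  ⟨3,[(8,0),(0,0),(11,1),(0,3)]⟩),.k,.k,[⟨0,[(11,0)]⟩,⟨0,[(10,0)]⟩,⟨1,[(8,0),(2,1),(16,0),(2,1)]⟩,
  ⟨0,[(0,0)]⟩]⟩) (.Q [0,1,-1,0,0,0,0,0,-1,0,0,1] (.p true [0,0,0,1] [] (⟨0,[(11,0)]⟩,⟨0,[(10,0)]⟩)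
  .k 0 (⟨0,[]⟩,⟨0,[]⟩) .k .k) (.K ⟨0,[0,0,0,1],0,0,(⟨0,[(12,0)]⟩,⟨0,[(11,0)]⟩),.k,(.x 0 ⟨0,[(14,0),
  (2,0),(5,0)]⟩ ⟨0,[(24,0),(4,0)]⟩),(.x 0 ⟨0,[(24,0)]⟩ ⟨3,[(9,0),(0,0),(11,1),(0,3)]⟩),.k,.k,[⟨0,
  [(12,0)]⟩,⟨0,[(11,0)]⟩,⟨0,[(0,0)]⟩,⟨0,[(3,0),(7,0),(2,0),(2,0),(9,0)]⟩]⟩) (.I [0,-1,1,1,0,0,0,1]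
  (.I [1,-1,-1,0,1,0,0,0,-1] (.Q [0,1,1,-1,-1,0,0,0,1,0,0,-1] (.p false [0,0,0,1] [] (⟨0,[(14,0)]⟩,
  ⟨0,[(13,0)]⟩) .k 0 (⟨0,[]⟩,⟨0,[]⟩) .k .k) (.Q [0,1,1,0,-1,0,0,0,1,1,0,-1] (.p false [0,0,0,1] [1]
  (⟨0,[(15,0)]⟩,⟨0,[(14,0)]⟩) .k 1 (⟨0,[]⟩,⟨0,[]⟩) .k .k) (.R ⟨2,false,false,true,[0,1],[0,0,0,1],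
  [0,1,1,0,0,0,0,0,1],(⟨0,[]⟩,⟨0,[]⟩),(⟨0,[(16,0)]⟩,⟨0,[(15,0)]⟩),⟨0,[]⟩,.k,.k,.k,(.x (-1) ⟨0,[(28,
  0),(4,0)]⟩ ⟨0,[(18,0),(2,0),(5,0)]⟩),.k,.k,⟨true,0,⟨1,[(21,0),(0,0)]⟩,⟨0,[]⟩⟩,⟨false,0,⟨1,[(1,0),
  (0,0),(0,0),(11,0),(1,0),(3,0)]⟩,⟨0,[(16,0),(16,0)]⟩⟩,⟨false,0,⟨4,[(1,0),(5,1),(6,0),(1,0),(12,0),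
  (2,0)]⟩,⟨1,[(2,1),(0,0),(7,0),(9,0)]⟩⟩,⟨true,(-1),⟨0,[(1,0)]⟩,⟨0,[(5,0),(25,0)]⟩⟩,⟨false,0,⟨1,[(4,
  0),(2,0),(8,0),(14,0)]⟩,⟨1,[(13,0),(20,0)]⟩⟩,⟨false,0,⟨7,[(0,3),(3,3),(8,0),(0,0),(11,1)]⟩,⟨0,[(5,
  0)]⟩⟩,[.a ⟨true,(-1),⟨0,[(0,0)]⟩,⟨0,[(5,0)]⟩⟩ ⟨false,0,⟨2,[(1,0),(12,0),(1,0),(13,0),(0,0)]⟩,⟨0,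
  [(2,0)]⟩⟩ ⟨true,(-1),⟨1,[(1,1),(1,0),(7,0),(9,0)]⟩,⟨0,[(5,0)]⟩⟩,.o ⟨false,0,⟨7,[(0,3),(3,3),(8,0),
  (0,0),(11,1)]⟩,⟨0,[(5,0),(2,0),(12,0),(8,0)]⟩⟩,.o ⟨false,1,⟨3,[(13,0),(0,0),(18,1)]⟩,⟨0,[(8,0),
  (12,0)]⟩⟩,.e ⟨false,0,⟨1,[(4,0),(2,0),(8,0),(14,0)]⟩,⟨1,[(13,0),(20,0)]⟩⟩ ⟨false,0,⟨7,[(0,3),(3,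
  3),(8,0),(0,0),(11,1)]⟩,⟨0,[(5,0)]⟩⟩]⟩) (.Q [0,0,0,0,0,-1,0,0,0,1,0,-1] (.p false [0,0,0,1] [1]
  (⟨0,[(16,0)]⟩,⟨0,[(15,0)]⟩) .k 1 (⟨0,[]⟩,⟨0,[]⟩) .k .k) (.R ⟨1,false,false,true,[1,0,0,-1],[0,1],
  [1,1,0,0,0,0,0,0,-1],(⟨0,[(16,0)]⟩,⟨0,[(17,0)]⟩),(⟨0,[(29,0)]⟩,⟨0,[(28,0)]⟩),⟨0,[(0,0)]⟩,.k,.k,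
  (.x (-1) ⟨3,[(14,0),(0,0),(11,1),(0,3)]⟩ ⟨0,[(29,0)]⟩),(.x (-1) ⟨3,[(14,0),(0,0),(11,1),(0,3)]⟩
  ⟨0,[(29,0)]⟩),(.r (-1) ⟨0,[(3,0),(27,0),(1,1)]⟩ ⟨1,[(4,0),(0,1),(6,0),(4,1),(4,0),(9,1)]⟩),.k,
  ⟨false,1,⟨0,[(3,0),(27,0),(1,0)]⟩,⟨0,[(5,0),(11,0),(14,0)]⟩⟩,⟨true,0,⟨0,[(16,0)]⟩,⟨0,[(9,0),(7,0),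
  (4,0)]⟩⟩,⟨false,0,⟨0,[]⟩,⟨3,[(14,0),(0,0),(19,1)]⟩⟩,⟨false,0,⟨6,[(2,0),(2,3),(5,4),(0,4),(2,0),(0,
  1),(13,1)]⟩,⟨0,[(1,0),(31,0)]⟩⟩,⟨true,0,⟨0,[(32,0)]⟩,⟨0,[(33,0)]⟩⟩,⟨false,0,⟨0,[(5,0),(5,0),(0,
  0)]⟩,⟨0,[(1,0),(31,1)]⟩⟩,[.o ⟨false,0,⟨0,[(32,0)]⟩,⟨9,[(3,3),(4,1),(6,0),(11,4),(2,5),(2,1)]⟩⟩,.o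
  ⟨false,1,⟨3,[(14,0),(0,0),(16,3),(2,1)]⟩,⟨0,[(1,0),(0,0)]⟩⟩,.o ⟨false,1,⟨1,[(17,1),(9,0),(6,0)]⟩,
  ⟨1,[(2,0),(0,0),(0,0),(11,0),(1,0),(3,0)]⟩⟩,.a ⟨true,0,⟨0,[(17,0)]⟩,⟨0,[(16,0)]⟩⟩ ⟨false,1,⟨1,
  [(14,0),(19,0)]⟩,⟨0,[(5,0),(11,0)]⟩⟩ ⟨true,0,⟨0,[(16,0),(15,0)]⟩,⟨0,[(1,0),(0,0),(14,0)]⟩⟩]⟩) (.R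
  ⟨0,false,false,true,[1,0,0,-1],[0,1],[0,1,0,0,0,0,0,0,-1],(⟨0,[(16,0)]⟩,⟨0,[(17,0)]⟩),(⟨0,[(29,
  0)]⟩,⟨0,[(28,0)]⟩),⟨0,[(0,0)]⟩,.k,.k,(.x (-1) ⟨3,[(14,0),(0,0),(11,1),(0,3)]⟩ ⟨0,[(29,0)]⟩),(.x
  (-1) ⟨3,[(14,0),(0,0),(11,1),(0,3)]⟩ ⟨0,[(29,0)]⟩),.k,.k,⟨false,1,⟨0,[(3,0),(27,0),(1,0)]⟩,⟨0,[(5,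
  0),(11,0),(14,0)]⟩⟩,⟨true,0,⟨0,[(16,0)]⟩,⟨0,[(9,0),(7,0),(4,0)]⟩⟩,⟨true,0,⟨0,[(37,0)]⟩,⟨0,[]⟩⟩,
  ⟨false,0,⟨6,[(2,0),(2,3),(5,4),(0,4),(2,0),(0,1),(13,1)]⟩,⟨0,[(1,0),(31,0)]⟩⟩,⟨false,0,⟨0,[]⟩,⟨0,
  []⟩⟩,⟨false,0,⟨0,[]⟩,⟨0,[]⟩⟩,[.o ⟨false,0,⟨0,[(32,0)]⟩,⟨9,[(3,3),(4,1),(6,0),(11,4),(2,5),(2,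
  1)]⟩⟩,.o ⟨false,1,⟨3,[(14,0),(0,0),(16,3),(2,1)]⟩,⟨0,[(1,0),(0,0)]⟩⟩,.o ⟨false,1,⟨1,[(17,1),(9,0),
  (6,0)]⟩,⟨1,[(2,0),(0,0),(0,0),(11,0),(1,0),(3,0)]⟩⟩,.a ⟨true,0,⟨0,[(17,0)]⟩,⟨0,[(16,0)]⟩⟩ ⟨false,
  1,⟨1,[(14,0),(19,0)]⟩,⟨0,[(5,0),(11,0)]⟩⟩ ⟨true,0,⟨0,[(16,0),(15,0)]⟩,⟨0,[(1,0),(0,0),(14,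
  0)]⟩⟩]⟩))) (.Q [0,0,0,0,0,-1,0,0,0,1,0,-1] (.p false [0,0,0,1] [1] (⟨0,[(15,0)]⟩,⟨0,[(14,0)]⟩) .k
  1 (⟨0,[]⟩,⟨0,[]⟩) .k .k) (.I [1,-1,0,1,0,0,0,1,1] (.I [0,-1,1,1,0,0,0,0,1] (.Q [0,0,0,1,0,0,0,0,0,
  1,0,-1] (.p false [0,0,0,1] [1] (⟨0,[(18,0)]⟩,⟨0,[(17,0)]⟩) .k 1 (⟨0,[]⟩,⟨0,[]⟩) .k .k) (.R ⟨1,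
  false,false,false,[1,0,0,-1],[0,1],[1,0,0,0,0,0,0,0,-1],(⟨0,[(18,0)]⟩,⟨0,[(19,0)]⟩),(⟨0,[(31,0)]⟩,
  ⟨0,[(30,0)]⟩),⟨0,[(3,0)]⟩,.k,.k,(.x (-1) ⟨3,[(16,0),(0,0),(11,1),(0,3)]⟩ ⟨0,[(31,0)]⟩),(.x (-1)
  ⟨3,[(16,0),(0,0),(11,1),(0,3)]⟩ ⟨0,[(31,0)]⟩),(.r (-1) ⟨0,[(5,0),(27,0),(1,1)]⟩ ⟨1,[(1,1),(22,0),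
  (0,0),(8,1)]⟩),.k,⟨false,1,⟨0,[(5,0),(27,0),(1,0)]⟩,⟨0,[(1,0),(37,0)]⟩⟩,⟨true,0,⟨0,[(18,0)]⟩,⟨0,
  [(11,0),(7,0),(4,0)]⟩⟩,⟨true,0,⟨0,[]⟩,⟨0,[(39,0)]⟩⟩,⟨false,0,⟨0,[(1,0),(16,0)]⟩,⟨0,[(8,0),(2,0),
  (12,0),(8,0),(1,0)]⟩⟩,⟨false,1,⟨5,[(0,1),(0,1),(2,1),(11,0),(0,0),(11,0),(7,0)]⟩,⟨0,[(35,0)]⟩⟩,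
  ⟨false,0,⟨0,[(0,0),(0,0)]⟩,⟨0,[(8,0),(2,0),(12,0),(8,0),(1,1)]⟩⟩,[.e ⟨false,1,⟨1,[(16,0),(19,0)]⟩,
  ⟨1,[(1,0),(8,0),(28,0)]⟩⟩ ⟨false,0,⟨0,[(0,0)]⟩,⟨1,[(8,0),(1,0),(8,0),(9,0),(5,0),(3,0)]⟩⟩,.o
  ⟨false,1,⟨5,[(0,1),(0,1),(2,1),(11,0),(0,0),(11,0),(7,0)]⟩,⟨0,[(11,0),(12,0),(8,0),(1,0)]⟩⟩,.o
  ⟨false,1,⟨1,[(19,1),(9,0),(6,0)]⟩,⟨0,[(11,0),(6,0),(5,0)]⟩⟩,.a ⟨true,0,⟨0,[(19,0)]⟩,⟨0,[(18,0)]⟩⟩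
  ⟨false,1,⟨0,[(5,0)]⟩,⟨1,[(1,0),(8,0),(13,0),(0,0),(13,0)]⟩⟩ ⟨true,0,⟨0,[(0,0)]⟩,⟨0,[(11,0),(7,0),
  (4,0),(8,0),(1,0)]⟩⟩]⟩) (.Q [0,-1,1,2,0,0,0,0,1,1,0,-1] (.p false [0,0,0,1] [1] (⟨0,[(19,0)]⟩,⟨0,
  [(18,0)]⟩) .k 1 (⟨0,[]⟩,⟨0,[]⟩) .k .k) (.Q [0,0,0,0,0,0,1,1,0,0,-1] (.p false [0,0,1] [] (⟨0,[(29,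
  0)]⟩,⟨0,[(28,0)]⟩) .k 0 (⟨0,[]⟩,⟨0,[]⟩) .k .k) (.R ⟨1,false,false,false,[1,0,0,-1],[0,0,1],[0,1,0,
  -1,0,0,0,0,-1],(⟨0,[(20,0)]⟩,⟨0,[(21,0)]⟩),(⟨0,[(30,0)]⟩,⟨0,[(29,0)]⟩),⟨0,[(5,0)]⟩,.k,.k,(.x (-1)
  ⟨3,[(18,0),(0,0),(11,1),(0,3)]⟩ ⟨0,[(33,0)]⟩),.k,(.x 0 ⟨0,[(13,0),(0,0)]⟩ ⟨3,[(18,0),(0,0),(6,3),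
  (3,3),(2,3),(4,1)]⟩),.k,⟨false,1,⟨0,[(7,0),(17,0),(0,0),(8,0),(1,0)]⟩,⟨0,[(4,0)]⟩⟩,⟨true,0,⟨0,
  [(20,0),(5,0)]⟩,⟨0,[(2,0),(8,0)]⟩⟩,⟨false,0,⟨0,[(37,0)]⟩,⟨5,[(1,1),(4,1),(11,0),(0,0),(11,0),(7,
  0)]⟩⟩,⟨false,0,⟨7,[(1,1),(7,3),(2,1),(4,3),(2,1),(5,0),(0,0),(6,1)]⟩,⟨0,[(10,0),(11,0)]⟩⟩,⟨true,0,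
  ⟨0,[(41,0)]⟩,⟨0,[]⟩⟩,⟨false,0,⟨1,[(1,0),(7,0),(7,0)]⟩,⟨0,[(10,0),(11,0),(14,0)]⟩⟩,[.o ⟨false,0,⟨0,
  [(0,0)]⟩,⟨1,[(25,1),(5,0),(7,0)]⟩⟩,.o ⟨false,1,⟨7,[(17,3),(0,0),(0,0),(11,1),(7,3)]⟩,⟨0,[(22,
  0)]⟩⟩,.o ⟨false,1,⟨1,[(21,1),(9,0),(6,0)]⟩,⟨0,[(13,0),(6,0),(5,0)]⟩⟩,.a ⟨true,0,⟨0,[(21,0)]⟩,⟨0,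
  [(20,0)]⟩⟩ ⟨false,1,⟨1,[(18,0),(18,1),(0,0)]⟩,⟨0,[(3,0)]⟩⟩ ⟨true,0,⟨0,[(0,0),(19,0)]⟩,⟨0,[(21,0),
  (0,0)]⟩⟩]⟩) (.R ⟨1,false,false,false,[1,0,0,-1],[0,1],[1,0,0,0,0,0,0,0,-1],(⟨0,[(20,0)]⟩,⟨0,[(21,
  0)]⟩),(⟨0,[(33,0)]⟩,⟨0,[(32,0)]⟩),⟨0,[(5,0)]⟩,.k,.k,(.x (-1) ⟨3,[(18,0),(0,0),(11,1),(0,3)]⟩ ⟨0,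
  [(33,0)]⟩),(.x (-1) ⟨3,[(18,0),(0,0),(11,1),(0,3)]⟩ ⟨0,[(33,0)]⟩),(.r (-1) ⟨0,[(7,0),(27,0),(1,
  1)]⟩ ⟨1,[(3,1),(22,0),(0,0),(8,1)]⟩),.k,⟨false,1,⟨0,[(7,0),(27,0),(1,0)]⟩,⟨0,[(3,0),(37,0)]⟩⟩,
  ⟨true,0,⟨0,[(20,0)]⟩,⟨1,[(2,0),(5,0),(12,0),(0,0),(3,0)]⟩⟩,⟨true,0,⟨0,[]⟩,⟨0,[(41,0)]⟩⟩,⟨false,0,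
  ⟨7,[(1,5),(10,1),(7,1),(5,0),(0,0),(6,1)]⟩,⟨1,[(2,1),(15,0),(19,0)]⟩⟩,⟨false,1,⟨5,[(1,1),(4,1),
  (11,0),(0,0),(11,0),(7,0)]⟩,⟨0,[(37,0)]⟩⟩,⟨false,0,⟨0,[(1,0)]⟩,⟨1,[(2,1),(15,0),(18,1),(0,0)]⟩⟩,
  [.a ⟨true,0,⟨0,[(0,0),(14,0)]⟩,⟨0,[(37,0)]⟩⟩ ⟨false,1,⟨1,[(18,0),(19,0)]⟩,⟨1,[(3,0),(8,0),(28,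
  0)]⟩⟩ ⟨true,0,⟨1,[(8,0),(7,0),(3,1),(5,0)]⟩,⟨0,[(2,0)]⟩⟩,.o ⟨false,1,⟨5,[(1,1),(4,1),(11,0),(0,0),
  (11,0),(7,0)]⟩,⟨0,[(13,0),(12,0),(8,0),(1,0)]⟩⟩,.o ⟨false,1,⟨1,[(21,1),(9,0),(6,0)]⟩,⟨0,[(13,0),
  (6,0),(5,0)]⟩⟩,.e ⟨false,1,⟨0,[(7,0)]⟩,⟨1,[(3,0),(8,0),(13,0),(0,0),(13,0)]⟩⟩ ⟨false,1,⟨3,[(1,1),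
  (5,1),(10,0),(0,0),(0,1)]⟩,⟨0,[(2,0)]⟩⟩]⟩)) (.R ⟨1,true,false,false,[1,0,0,-1],[0,1],[0,0,0,-1,0,
  0,0,0,-1],(⟨0,[(19,0)]⟩,⟨0,[(20,0)]⟩),(⟨0,[(32,0)]⟩,⟨0,[(31,0)]⟩),⟨0,[(4,0)]⟩,.k,.k,(.x (-1) ⟨3,
  [(17,0),(0,0),(11,1),(0,3)]⟩ ⟨0,[(32,0)]⟩),(.x (-1) ⟨3,[(17,0),(0,0),(11,1),(0,3)]⟩ ⟨0,[(32,0)]⟩),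
  (.r (-1) ⟨5,[(0,4),(5,4),(4,1),(6,0),(0,4)]⟩ ⟨1,[(2,1),(22,0),(0,0),(8,1)]⟩),.k,⟨false,1,⟨5,[(0,
  4),(5,4),(4,1),(6,0),(0,4)]⟩,⟨0,[(2,0),(32,0)]⟩⟩,⟨true,0,⟨0,[(19,0)]⟩,⟨1,[(1,0),(5,0),(12,0),(0,
  0),(3,0)]⟩⟩,⟨true,0,⟨0,[(36,0)]⟩,⟨0,[(35,0)]⟩⟩,⟨false,0,⟨0,[(2,0),(16,0)]⟩,⟨7,[(0,3),(8,3),(7,0),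
  (0,0),(11,1)]⟩⟩,⟨false,1,⟨3,[(17,0),(0,0),(19,1)]⟩,⟨0,[]⟩⟩,⟨true,0,⟨0,[(8,0),(5,0),(0,0)]⟩,⟨0,[(0,
  0)]⟩⟩,[]⟩))) (.I [0,1,0,-1,0,0,0,-1] (.R ⟨1,false,false,false,[1,0,0,-1],[0,0,1],[0,0,0,-1,0,0,0,
  0,-1],(⟨0,[(18,0)]⟩,⟨0,[(19,0)]⟩),(⟨0,[(28,0)]⟩,⟨0,[(27,0)]⟩),⟨0,[(3,0)]⟩,.k,.k,(.x (-1) ⟨3,[(16,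
  0),(0,0),(11,1),(0,3)]⟩ ⟨0,[(31,0)]⟩),.k,(.r (-1) ⟨0,[(0,0),(4,0)]⟩ ⟨1,[(2,1),(21,0),(0,0),(13,
  1)]⟩),.k,⟨false,1,⟨0,[(0,0),(4,0)]⟩,⟨0,[(2,0),(36,0)]⟩⟩,⟨true,0,⟨0,[(18,0),(5,0)]⟩,⟨0,[(11,0),(7,
  0)]⟩⟩,⟨true,0,⟨0,[(35,0)]⟩,⟨0,[(34,0)]⟩⟩,⟨false,0,⟨1,[(7,1),(7,0),(2,0),(0,0)]⟩,⟨0,[(8,0),(11,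
  0)]⟩⟩,⟨false,1,⟨3,[(16,0),(0,0),(19,1)]⟩,⟨0,[]⟩⟩,⟨false,0,⟨0,[(7,0),(5,0)]⟩,⟨0,[(8,0),(11,0),(14,
  0)]⟩⟩,[.o ⟨false,0,⟨0,[(1,0),(0,0),(21,0)]⟩,⟨1,[(23,1),(5,0),(7,0)]⟩⟩,.o ⟨false,1,⟨7,[(15,3),(0,
  0),(0,0),(11,1),(7,3)]⟩,⟨0,[(20,0)]⟩⟩,.o ⟨false,1,⟨1,[(19,1),(9,0),(6,0)]⟩,⟨0,[(11,0),(6,0),(5,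
  0)]⟩⟩,.a ⟨true,0,⟨0,[(19,0)]⟩,⟨0,[(18,0)]⟩⟩ ⟨false,1,⟨0,[(5,0),(29,0)]⟩,⟨1,[(2,0),(4,0),(6,0),(4,
  0),(4,0),(14,0)]⟩⟩ ⟨true,0,⟨0,[(1,0),(5,0),(5,0)]⟩,⟨0,[(19,0),(0,0)]⟩⟩]⟩) (.R ⟨1,false,false,
  false,[1,0,0,-1],[1,-1],[1,0,-1,-1],(⟨0,[(18,0)]⟩,⟨0,[(19,0)]⟩),(⟨0,[(30,0)]⟩,⟨0,[(31,0)]⟩),⟨0,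
  [(3,0)]⟩,.k,.k,(.x (-1) ⟨3,[(16,0),(0,0),(11,1),(0,3)]⟩ ⟨0,[(31,0)]⟩),(.x (-1) ⟨0,[(31,0),(4,0)]⟩
  ⟨0,[(21,0),(2,0),(5,0)]⟩),.k,.k,⟨true,0,⟨0,[]⟩,⟨1,[(24,0),(0,0)]⟩⟩,⟨false,0,⟨2,[(0,0),(0,0),(5,0),
  (10,1),(1,0),(0,0),(2,1)]⟩,⟨0,[(19,0),(16,0)]⟩⟩,⟨true,0,⟨0,[(10,0)]⟩,⟨0,[(1,0),(4,0),(7,0),(9,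
  0)]⟩⟩,⟨false,0,⟨0,[(7,0),(27,0)]⟩,⟨0,[(4,0),(34,0)]⟩⟩,⟨false,1,⟨3,[(4,1),(2,1),(2,1),(6,0),(18,
  0)]⟩,⟨0,[(0,0),(0,0),(12,0),(9,0),(7,0)]⟩⟩,⟨false,0,⟨0,[(7,0)]⟩,⟨0,[(8,0),(30,0)]⟩⟩,[.e ⟨false,1,
  ⟨3,[(1,1),(3,1),(4,1),(6,0),(18,0)]⟩,⟨1,[(6,0),(7,0),(9,0)]⟩⟩ ⟨false,0,⟨0,[(1,0),(5,0)]⟩,⟨3,[(4,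
  1),(12,0),(1,1),(14,1),(1,0)]⟩⟩,.o ⟨false,1,⟨9,[(5,3),(4,1),(6,0),(11,4),(2,5),(2,1)]⟩,⟨0,[(34,
  0)]⟩⟩,.o ⟨false,1,⟨1,[(19,1),(9,0),(6,0)]⟩,⟨2,[(0,0),(0,0),(5,0),(10,1),(1,0),(0,0),(2,1)]⟩⟩,.a
  ⟨true,0,⟨0,[(19,0)]⟩,⟨0,[(18,0)]⟩⟩ ⟨false,1,⟨0,[(5,0),(4,0)]⟩,⟨1,[(6,0),(7,0),(9,1),(0,0)]⟩⟩
  ⟨true,0,⟨0,[(1,0),(5,0)]⟩,⟨0,[(19,0),(14,0)]⟩⟩]⟩))) (.I [0,0,-1,-1,0,0,0,1] (.Q [0,0,0,0,0,0,1,1,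
  0,1,-1,-1] (.p false [0,0,1] [1,0,0,-1] (⟨0,[(27,0)]⟩,⟨0,[(26,0)]⟩) .k 2 (⟨0,[(17,0)]⟩,⟨0,[(18,
  0)]⟩) .k (.r 0 ⟨2,[(5,1),(3,2),(11,0),(2,0),(8,0)]⟩ ⟨7,[(1,3),(2,3),(8,3),(1,0),(0,0),(6,3),(12,
  1)]⟩)) (.R ⟨1,false,false,false,[1,0,0,-1],[0,0,1],[1,0,0,0,0,0,0,0,-1],(⟨0,[(18,0)]⟩,⟨0,[(19,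
  0)]⟩),(⟨0,[(28,0)]⟩,⟨0,[(27,0)]⟩),⟨0,[(3,0)]⟩,.k,.k,(.x (-1) ⟨3,[(16,0),(0,0),(11,1),(0,3)]⟩ ⟨0,
  [(31,0)]⟩),.k,(.r (-1) ⟨1,[(2,1),(33,0),(0,0)]⟩ ⟨5,[(6,3),(0,2),(2,2),(8,2),(2,1),(2,1),(8,4)]⟩),
  .k,⟨false,1,⟨0,[(2,0),(1,0),(2,0),(25,0)]⟩,⟨2,[(6,1),(3,2),(11,0),(2,0),(8,0)]⟩⟩,⟨true,0,⟨0,[(18,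
  0),(5,0)]⟩,⟨0,[(11,0),(7,0)]⟩⟩,⟨true,0,⟨0,[]⟩,⟨0,[(39,0)]⟩⟩,⟨false,0,⟨1,[(7,1),(7,0),(2,0),(0,
  0)]⟩,⟨0,[(8,0),(11,0)]⟩⟩,⟨false,1,⟨0,[(34,0),(2,0)]⟩,⟨0,[(35,0)]⟩⟩,⟨false,0,⟨0,[(7,0),(5,0)]⟩,⟨0,
  [(8,0),(11,0),(14,0)]⟩⟩,[.e ⟨false,1,⟨1,[(16,0),(19,0)]⟩,⟨1,[(7,0),(2,0),(8,0),(14,0)]⟩⟩ ⟨false,0,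
  ⟨0,[(0,0)]⟩,⟨5,[(4,1),(3,1),(1,1),(6,0),(1,1),(0,5),(16,0)]⟩⟩,.o ⟨false,1,⟨7,[(15,3),(0,0),(0,0),
  (11,1),(7,3)]⟩,⟨0,[(20,0)]⟩⟩,.o ⟨false,1,⟨1,[(19,1),(9,0),(6,0)]⟩,⟨1,[(0,0),(1,0),(3,0),(0,0),(12,
  0)]⟩⟩,.a ⟨true,0,⟨0,[(19,0)]⟩,⟨0,[(18,0)]⟩⟩ ⟨false,1,⟨0,[(5,0)]⟩,⟨0,[(7,0),(11,0),(19,0)]⟩⟩ ⟨true,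
  0,⟨0,[(0,0)]⟩,⟨0,[(19,0),(0,0)]⟩⟩]⟩) (.R ⟨1,false,false,false,[1,0,0,-1],[0,0,1],[1,0,0,0,0,0,0,0,
  -1],(⟨0,[(18,0)]⟩,⟨0,[(19,0)]⟩),(⟨0,[(28,0)]⟩,⟨0,[(27,0)]⟩),⟨0,[(3,0)]⟩,.k,.k,(.x (-1) ⟨3,[(16,0),
  (0,0),(11,1),(0,3)]⟩ ⟨0,[(31,0)]⟩),.k,(.r (-1) ⟨1,[(2,1),(33,0),(0,0)]⟩ ⟨5,[(6,3),(0,2),(2,2),(8,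
  2),(2,1),(2,1),(8,4)]⟩),.k,⟨false,1,⟨0,[(2,0),(1,0),(2,0),(25,0)]⟩,⟨2,[(6,1),(3,2),(11,0),(2,0),
  (8,0)]⟩⟩,⟨true,0,⟨0,[(18,0),(5,0)]⟩,⟨0,[(11,0),(7,0)]⟩⟩,⟨true,0,⟨0,[]⟩,⟨0,[(39,0)]⟩⟩,⟨false,0,⟨1,
  [(7,1),(7,0),(2,0),(0,0)]⟩,⟨0,[(8,0),(11,0)]⟩⟩,⟨false,1,⟨0,[(34,0),(2,0)]⟩,⟨0,[(35,0)]⟩⟩,⟨false,0,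
  ⟨0,[(7,0),(5,0)]⟩,⟨5,[(0,1),(0,0),(0,2),(2,0),(2,3),(1,1),(9,1),(4,1),(3,0)]⟩⟩,[.a ⟨true,0,⟨1,
  [(15,0),(2,0),(0,0)]⟩,⟨0,[(0,0),(17,0)]⟩⟩ ⟨false,1,⟨1,[(16,0),(19,0)]⟩,⟨1,[(7,0),(2,0),(8,0),(14,
  0)]⟩⟩ ⟨true,0,⟨1,[(15,0),(2,1),(2,0),(2,0)]⟩,⟨0,[(0,0)]⟩⟩,.o ⟨false,1,⟨7,[(15,3),(0,0),(0,0),(11,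
  1),(7,3)]⟩,⟨0,[(20,0)]⟩⟩,.o ⟨false,1,⟨1,[(19,1),(9,0),(6,0)]⟩,⟨0,[(11,0),(6,0),(5,0)]⟩⟩,.e ⟨false,
  1,⟨0,[(5,0)]⟩,⟨0,[(7,0),(11,0),(19,0)]⟩⟩ ⟨false,1,⟨7,[(15,3),(0,0),(0,0),(0,7),(10,1),(7,3)]⟩,⟨0,
  [(0,0)]⟩⟩]⟩)) (.Q [0,0,0,-1,0,0,-2,-2,0,-1,2] (.p true [0,0,1] [1,0,-1] (⟨0,[(27,0)]⟩,⟨0,[(26,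
  0)]⟩) .k 2 (⟨0,[(26,0)]⟩,⟨0,[(27,0)]⟩) .k (.r 0 ⟨0,[(25,1)]⟩ ⟨4,[(0,5),(0,3),(7,1),(6,0),(18,1),
  (0,1)]⟩)) (.R ⟨1,true,false,false,[1,0,-1],[0,0,1],[0,1,0,-1,0,0,0,-1],(⟨0,[(27,0)]⟩,⟨0,[(28,
  0)]⟩),(⟨0,[(28,0)]⟩,⟨0,[(27,0)]⟩),⟨0,[(12,0)]⟩,.k,.k,.k,.k,(.r (-1) ⟨1,[(1,1),(0,1),(7,1),(25,0),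
  (0,0)]⟩ ⟨2,[(6,1),(2,0),(12,1),(2,0),(0,1)]⟩),.k,⟨true,0,⟨0,[(1,0),(0,0),(7,0)]⟩,⟨0,[(6,0),(19,
  0)]⟩⟩,⟨false,1,⟨1,[(1,0),(0,0),(2,0),(4,1),(2,1),(10,1),(11,0)]⟩,⟨1,[(0,0),(8,0),(1,0),(14,1)]⟩⟩,
  ⟨false,0,⟨0,[(35,0)]⟩,⟨0,[(34,0),(2,0)]⟩⟩,⟨true,0,⟨0,[(15,0)]⟩,⟨1,[(0,0),(13,0),(5,0)]⟩⟩,⟨true,0,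
  ⟨0,[(39,0)]⟩,⟨0,[]⟩⟩,⟨false,1,⟨7,[(13,7),(1,3),(0,0),(0,0),(11,1),(7,3)]⟩,⟨0,[(0,0)]⟩⟩,[]⟩) (.Q
  [0,0,0,0,0,-1,0,0,0,0,0,1] (.p true [0,0,0,1] [] (⟨0,[(19,0)]⟩,⟨0,[(18,0)]⟩) .k 0 (⟨0,[]⟩,⟨0,[]⟩)
  .k .k) (.Q [0,0,0,1,0,0,0,0,0,1] (.pp false [-1,1]) (.R ⟨1,false,false,true,[0,0,0,1],[0,1],[0,1,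
  1],(⟨0,[(21,0)]⟩,⟨0,[(20,0)]⟩),(⟨0,[(33,0)]⟩,⟨0,[(32,0)]⟩),⟨0,[(1,0)]⟩,.k,.k,(.x 0 ⟨1,[(1,0),(3,
  0),(17,0),(2,1),(0,0)]⟩ ⟨0,[(33,0),(4,0)]⟩),(.x 0 ⟨1,[(1,0),(3,0),(17,0),(2,1),(0,0)]⟩ ⟨0,[(33,0),
  (4,0)]⟩),(.r (-1) ⟨3,[(12,1),(6,0),(17,5),(0,2)]⟩ ⟨1,[(2,0),(0,1),(0,1),(3,1),(2,0),(1,0)]⟩),.k,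
  ⟨true,0,⟨0,[(37,0)]⟩,⟨5,[(3,1),(4,1),(17,0),(0,0),(8,1)]⟩⟩,⟨false,1,⟨0,[(6,0),(5,0),(22,0)]⟩,⟨0,
  [(20,0),(2,0),(2,0)]⟩⟩,⟨false,0,⟨0,[(4,0),(3,0)]⟩,⟨3,[(6,1),(2,1),(2,1),(6,0),(18,0)]⟩⟩,⟨false,1,
  ⟨0,[(6,0),(34,0)]⟩,⟨0,[(9,0),(27,0)]⟩⟩,⟨true,0,⟨0,[(4,0),(3,0),(27,0)]⟩,⟨0,[(12,0)]⟩⟩,⟨false,1,⟨0,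
  [(6,0),(29,0)]⟩,⟨0,[(9,0),(27,1)]⟩⟩,[.o ⟨false,0,⟨0,[(36,0)]⟩,⟨9,[(7,3),(4,1),(6,0),(11,4),(2,5),
  (2,1)]⟩⟩,.a ⟨true,0,⟨0,[(0,0)]⟩,⟨0,[(37,0)]⟩⟩ ⟨true,0,⟨1,[(26,0),(0,0)]⟩,⟨0,[]⟩⟩ ⟨false,1,⟨0,[(6,
  0),(5,0),(23,0)]⟩,⟨1,[(4,0),(4,0),(3,0),(6,0),(3,0),(9,0)]⟩⟩,.o ⟨false,0,⟨3,[(2,0),(1,2),(3,0),(0,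
  2),(3,1),(6,0),(15,0)]⟩,⟨1,[(21,1),(9,0),(6,0)]⟩⟩,.o ⟨false,0,⟨0,[(20,0),(2,0),(2,0)]⟩,⟨0,[(6,0),
  (5,0),(0,0),(12,0),(8,0)]⟩⟩]⟩) (.R ⟨1,false,false,false,[1,0,0,-1],[1,-1],[1,0,-1,-1],(⟨0,[(20,
  0)]⟩,⟨0,[(21,0)]⟩),(⟨0,[(32,0)]⟩,⟨0,[(33,0)]⟩),⟨0,[(5,0)]⟩,.k,.k,(.x (-1) ⟨3,[(18,0),(0,0),(11,1),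
  (0,3)]⟩ ⟨0,[(33,0)]⟩),(.x (-1) ⟨0,[(33,0),(4,0)]⟩ ⟨1,[(1,0),(3,0),(17,0),(2,1),(0,0)]⟩),.k,.k,
  ⟨true,0,⟨0,[]⟩,⟨1,[(26,0),(0,0)]⟩⟩,⟨false,0,⟨3,[(2,0),(1,2),(3,0),(0,2),(3,1),(6,0),(15,0)]⟩,⟨0,
  [(21,0),(16,0)]⟩⟩,⟨true,0,⟨0,[(12,0)]⟩,⟨0,[(4,0),(3,0),(27,0)]⟩⟩,⟨false,0,⟨0,[(9,0),(27,0)]⟩,⟨0,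
  [(6,0),(34,0)]⟩⟩,⟨false,1,⟨3,[(6,1),(2,1),(2,1),(6,0),(18,0)]⟩,⟨0,[(4,0),(3,0)]⟩⟩,⟨false,0,⟨0,[(9,
  0)]⟩,⟨0,[(10,0),(30,0)]⟩⟩,[.o ⟨false,0,⟨0,[(0,0)]⟩,⟨3,[(18,0),(0,0),(16,3),(2,1)]⟩⟩,.o ⟨false,1,
  ⟨9,[(7,3),(4,1),(6,0),(11,4),(2,5),(2,1)]⟩,⟨0,[(36,0)]⟩⟩,.o ⟨false,1,⟨1,[(21,1),(9,0),(6,0)]⟩,⟨3,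
  [(2,0),(1,2),(3,0),(0,2),(3,1),(6,0),(15,0)]⟩⟩,.a ⟨true,0,⟨0,[(21,0)]⟩,⟨0,[(20,0)]⟩⟩ ⟨false,1,⟨0,
  [(7,0),(4,0)]⟩,⟨2,[(3,0),(4,0),(17,1),(0,1),(8,0)]⟩⟩ ⟨true,0,⟨0,[(0,0),(19,0)]⟩,⟨0,[(21,0),(14,
  0)]⟩⟩]⟩)) (.R ⟨1,false,false,false,[1,0,0,-1],[0,0,1],[1,0,0,0,0,0,0,0,-1],(⟨0,[(19,0)]⟩,⟨0,[(20,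
  0)]⟩),(⟨0,[(29,0)]⟩,⟨0,[(28,0)]⟩),⟨0,[(4,0)]⟩,.k,.k,(.x (-1) ⟨3,[(17,0),(0,0),(11,1),(0,3)]⟩ ⟨0,
  [(32,0)]⟩),.k,(.r (-1) ⟨1,[(3,1),(33,0),(0,0)]⟩ ⟨5,[(7,3),(0,2),(2,2),(8,2),(2,1),(2,1),(8,4)]⟩),
  .k,⟨false,1,⟨1,[(2,0),(0,0),(2,0),(30,0)]⟩,⟨2,[(7,1),(3,2),(11,0),(2,0),(8,0)]⟩⟩,⟨true,0,⟨0,[(19,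
  0),(5,0)]⟩,⟨0,[(12,0),(7,0)]⟩⟩,⟨true,0,⟨0,[]⟩,⟨0,[(40,0)]⟩⟩,⟨false,0,⟨1,[(8,1),(7,0),(2,0),(0,
  0)]⟩,⟨0,[(9,0),(11,0)]⟩⟩,⟨false,1,⟨0,[(35,0),(2,0)]⟩,⟨0,[(36,0)]⟩⟩,⟨false,0,⟨0,[(8,0),(5,0)]⟩,⟨0,
  [(9,0),(11,0),(14,0)]⟩⟩,[.e ⟨false,1,⟨1,[(17,0),(19,0)]⟩,⟨1,[(8,0),(2,0),(8,0),(14,0)]⟩⟩ ⟨false,0,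
  ⟨1,[(0,0),(3,0),(11,0)]⟩,⟨5,[(5,1),(3,1),(1,1),(6,0),(1,1),(0,5),(16,0)]⟩⟩,.o ⟨false,1,⟨7,[(16,3),
  (0,0),(0,0),(11,1),(7,3)]⟩,⟨0,[(21,0)]⟩⟩,.o ⟨false,1,⟨1,[(20,1),(9,0),(6,0)]⟩,⟨1,[(0,0),(3,0),(17,
  0),(2,0)]⟩⟩,.a ⟨true,0,⟨0,[(20,0)]⟩,⟨0,[(19,0)]⟩⟩ ⟨false,1,⟨0,[(6,0)]⟩,⟨0,[(8,0),(11,0),(19,0)]⟩⟩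
  ⟨true,0,⟨1,[(0,0),(3,0),(11,0)]⟩,⟨0,[(20,0),(0,0)]⟩⟩]⟩))))) (.Q [0,0,0,0,0,0,1,1,0,0,-1] (.p
  false [0,0,1] [] (⟨0,[(25,0)]⟩,⟨0,[(24,0)]⟩) .k 0 (⟨0,[]⟩,⟨0,[]⟩) .k .k) (.R ⟨0,false,false,false,
  [1,0,0,-1],[0,0,1],[0,1,0,0,0,0,0,0,-1],(⟨0,[(16,0)]⟩,⟨0,[(17,0)]⟩),(⟨0,[(26,0)]⟩,⟨0,[(25,0)]⟩),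
  ⟨0,[(1,0)]⟩,.k,.k,(.x (-1) ⟨3,[(14,0),(0,0),(11,1),(0,3)]⟩ ⟨0,[(29,0)]⟩),.k,.k,.k,⟨false,1,⟨0,[(3,
  0),(17,0),(0,0),(8,0)]⟩,⟨0,[(4,0),(3,0)]⟩⟩,⟨true,0,⟨0,[(16,0),(5,0)]⟩,⟨0,[(9,0),(7,0)]⟩⟩,⟨true,0,
  ⟨0,[(37,0)]⟩,⟨0,[]⟩⟩,⟨false,0,⟨1,[(5,1),(7,0),(2,0),(0,0)]⟩,⟨0,[(6,0),(11,0)]⟩⟩,⟨false,0,⟨0,[]⟩,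
  ⟨0,[]⟩⟩,⟨false,0,⟨0,[]⟩,⟨0,[]⟩⟩,[.o ⟨false,0,⟨0,[(0,0)]⟩,⟨1,[(21,1),(5,0),(7,0)]⟩⟩,.o ⟨false,1,⟨7,
  [(13,3),(0,0),(0,0),(11,1),(7,3)]⟩,⟨0,[(18,0)]⟩⟩,.o ⟨false,1,⟨1,[(17,1),(9,0),(6,0)]⟩,⟨0,[(9,0),
  (6,0),(5,0)]⟩⟩,.a ⟨true,0,⟨0,[(17,0)]⟩,⟨0,[(16,0)]⟩⟩ ⟨false,1,⟨1,[(14,0),(19,0)]⟩,⟨0,[(5,0),(11,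
  0)]⟩⟩ ⟨true,0,⟨0,[(0,0),(15,0)]⟩,⟨0,[(17,0),(0,0)]⟩⟩]⟩) (.Q [0,0,0,0,0,0,-1,-1,0,-1,1,1] (.p true
  [0,0,1] [1,0,0,-1] (⟨0,[(26,0)]⟩,⟨0,[(25,0)]⟩) .k 2 (⟨0,[(16,0)]⟩,⟨0,[(17,0)]⟩) .k (.r 0 ⟨2,[(4,
  1),(3,2),(11,0),(2,0),(8,0)]⟩ ⟨0,[(3,0),(17,0),(0,0)]⟩)) (.R ⟨0,false,false,false,[1,0,0,-1],[0,0,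
  1],[1,0,0,0,0,0,0,0,-1],(⟨0,[(17,0)]⟩,⟨0,[(18,0)]⟩),(⟨0,[(27,0)]⟩,⟨0,[(26,0)]⟩),⟨0,[(2,0)]⟩,.k,.k,
  (.x (-1) ⟨3,[(15,0),(0,0),(11,1),(0,3)]⟩ ⟨0,[(30,0)]⟩),.k,.k,.k,⟨false,1,⟨0,[(1,0),(2,0),(18,0),
  (8,0)]⟩,⟨2,[(5,1),(3,2),(11,0),(2,0),(8,0)]⟩⟩,⟨true,0,⟨0,[(17,0),(5,0)]⟩,⟨0,[(10,0),(7,0)]⟩⟩,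
  ⟨true,0,⟨0,[]⟩,⟨0,[(38,0)]⟩⟩,⟨false,0,⟨1,[(6,1),(7,0),(2,0),(0,0)]⟩,⟨0,[(7,0),(11,0)]⟩⟩,⟨false,0,
  ⟨0,[]⟩,⟨0,[]⟩⟩,⟨false,0,⟨0,[]⟩,⟨0,[]⟩⟩,[.a ⟨true,0,⟨1,[(14,0),(2,0),(0,0)]⟩,⟨0,[(1,0)]⟩⟩ ⟨false,1,
  ⟨1,[(15,0),(19,0)]⟩,⟨1,[(6,0),(2,0),(8,0),(14,0)]⟩⟩ ⟨true,0,⟨1,[(14,0),(2,1),(2,0),(2,0)]⟩,⟨0,[(0,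
  0)]⟩⟩,.o ⟨false,1,⟨7,[(14,3),(0,0),(0,0),(11,1),(7,3)]⟩,⟨0,[(19,0)]⟩⟩,.o ⟨false,1,⟨1,[(18,1),(9,
  0),(6,0)]⟩,⟨0,[(10,0),(6,0),(5,0)]⟩⟩,.e ⟨false,1,⟨0,[(4,0)]⟩,⟨0,[(6,0),(11,0),(19,0)]⟩⟩ ⟨false,1,
  ⟨7,[(14,3),(0,0),(0,0),(0,7),(10,1),(7,3)]⟩,⟨0,[(0,0)]⟩⟩]⟩) (.R ⟨0,false,false,false,[1,0,0,-1],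
  [0,0,1],[1,0,0,0,0,0,0,0,-1],(⟨0,[(17,0)]⟩,⟨0,[(18,0)]⟩),(⟨0,[(27,0)]⟩,⟨0,[(26,0)]⟩),⟨0,[(2,0)]⟩,
  .k,.k,(.x (-1) ⟨3,[(15,0),(0,0),(11,1),(0,3)]⟩ ⟨0,[(30,0)]⟩),.k,.k,.k,⟨false,1,⟨0,[(1,0),(2,0),
  (18,0),(8,0)]⟩,⟨2,[(5,1),(3,2),(11,0),(2,0),(8,0)]⟩⟩,⟨true,0,⟨0,[(17,0),(5,0)]⟩,⟨0,[(10,0),(7,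
  0)]⟩⟩,⟨true,0,⟨0,[]⟩,⟨0,[(38,0)]⟩⟩,⟨false,0,⟨1,[(6,1),(7,0),(2,0),(0,0)]⟩,⟨0,[(7,0),(11,0)]⟩⟩,
  ⟨false,0,⟨0,[]⟩,⟨0,[]⟩⟩,⟨false,0,⟨0,[]⟩,⟨0,[]⟩⟩,[.e ⟨false,1,⟨1,[(15,0),(19,0)]⟩,⟨1,[(6,0),(2,0),
  (8,0),(14,0)]⟩⟩ ⟨false,0,⟨0,[(0,0)]⟩,⟨5,[(1,1),(1,1),(3,1),(1,1),(6,0),(1,1),(0,3),(8,0)]⟩⟩,.o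
  ⟨false,1,⟨7,[(14,3),(0,0),(0,0),(11,1),(7,3)]⟩,⟨0,[(19,0)]⟩⟩,.o ⟨false,1,⟨1,[(18,1),(9,0),(6,0)]⟩,
  ⟨0,[(10,0),(6,0),(5,0)]⟩⟩,.a ⟨true,0,⟨0,[(18,0)]⟩,⟨0,[(17,0)]⟩⟩ ⟨false,1,⟨0,[(4,0)]⟩,⟨0,[(6,0),
  (11,0),(19,0)]⟩⟩ ⟨true,0,⟨0,[(0,0)]⟩,⟨0,[(18,0),(0,0)]⟩⟩]⟩))))) (.Q [0,1,1,-1,-1,0,0,0,1,0,0,-1]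
  (.p false [0,0,0,1] [] (⟨0,[(14,0)]⟩,⟨0,[(13,0)]⟩) .k 0 (⟨0,[]⟩,⟨0,[]⟩) .k .k) (.R ⟨2,false,false,
  true,[0,1],[0,0,0,1],[],(⟨0,[]⟩,⟨0,[]⟩),(⟨0,[(15,0)]⟩,⟨0,[(14,0)]⟩),⟨0,[]⟩,.k,.k,.k,(.x (-1) ⟨0,
  [(27,0),(4,0)]⟩ ⟨0,[(17,0),(2,0),(5,0)]⟩),.k,.k,⟨true,1,⟨1,[(12,0),(20,0)]⟩,⟨0,[(1,0)]⟩⟩,⟨false,0,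
  ⟨0,[(7,0),(6,0),(5,0)]⟩,⟨0,[(15,0),(16,0)]⟩⟩,⟨false,1,⟨1,[(31,1),(0,0),(0,0)]⟩,⟨1,[(2,0),(7,0),(9,
  0)]⟩⟩,⟨true,(-1),⟨0,[(0,0)]⟩,⟨0,[(4,0),(25,0)]⟩⟩,⟨false,1,⟨1,[(32,0),(0,0)]⟩,⟨1,[(20,0),(0,0)]⟩⟩,
  ⟨false,0,⟨5,[(0,1),(2,3),(8,0),(0,0),(16,1)]⟩,⟨0,[(4,0)]⟩⟩,[.a ⟨true,(-1),⟨0,[(1,0),(12,0)]⟩,⟨0,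
  [(4,0)]⟩⟩ ⟨false,1,⟨3,[(12,0),(0,0),(18,1)]⟩,⟨0,[]⟩⟩ ⟨true,(-1),⟨1,[(0,1),(1,0),(7,0),(9,0)]⟩,⟨0,
  [(4,0)]⟩⟩,.o ⟨false,0,⟨5,[(0,1),(2,3),(8,0),(0,0),(16,1)]⟩,⟨0,[(4,0),(2,0),(12,0),(8,0)]⟩⟩,.o
  ⟨false,1,⟨3,[(12,0),(0,0),(18,1)]⟩,⟨0,[(7,0),(12,0)]⟩⟩,.e ⟨false,1,⟨1,[(32,0),(0,0)]⟩,⟨1,[(20,0),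
  (0,0)]⟩⟩ ⟨false,0,⟨5,[(0,1),(2,3),(8,0),(0,0),(16,1)]⟩,⟨0,[(4,0)]⟩⟩]⟩) (.Q [0,0,0,0,0,1,0,0,0,0,
  -1] (.ed true [1,-1,1] .k) (.R ⟨0,false,false,true,[0,0,1],[1,-1],[1,1,-1,-1],(⟨0,[(25,0)]⟩,⟨0,
  [(24,0)]⟩),(⟨0,[(27,0)]⟩,⟨0,[(28,0)]⟩),⟨0,[(0,0)]⟩,.k,.k,.k,.k,.k,.k,⟨true,0,⟨0,[]⟩,⟨1,[(21,0),(0,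
  0)]⟩⟩,⟨false,0,⟨0,[(8,0)]⟩,⟨0,[(15,0),(0,0),(4,0),(11,0)]⟩⟩,⟨false,1,⟨0,[(5,0),(1,0),(7,0),(1,0),
  (3,0)]⟩,⟨0,[(3,0)]⟩⟩,⟨true,0,⟨0,[(17,0),(14,0)]⟩,⟨0,[(10,0)]⟩⟩,⟨false,0,⟨0,[]⟩,⟨0,[]⟩⟩,⟨false,0,
  ⟨0,[]⟩,⟨0,[]⟩⟩,[.o ⟨false,0,⟨0,[(8,0),(12,0),(8,0),(1,0)]⟩,⟨0,[(31,0),(2,0)]⟩⟩,.a ⟨true,0,⟨0,[(32,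
  0)]⟩,⟨0,[(1,0),(0,0),(12,0)]⟩⟩ ⟨false,1,⟨0,[(32,0),(0,0)]⟩,⟨1,[(3,0),(7,0),(9,0)]⟩⟩ ⟨true,0,⟨0,
  [(8,0),(23,0)]⟩,⟨0,[(1,0),(0,0),(12,0),(5,0)]⟩⟩,.o ⟨false,1,⟨3,[(13,0),(0,0),(6,3),(11,1)]⟩,⟨0,
  [(8,0)]⟩⟩,.o ⟨false,0,⟨0,[(21,0)]⟩,⟨3,[(8,1),(13,1),(3,0),(6,2)]⟩⟩]⟩) (.K ⟨2,[0,-1,1],0,0,(⟨0,[(0,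
  0)]⟩,⟨0,[(24,0),(3,0)]⟩),.k,(.x 0 ⟨1,[(0,2),(8,0),(8,0),(2,2)]⟩ ⟨0,[(8,0),(15,0),(3,1),(4,0)]⟩),
  .k,.k,.k,[⟨0,[(32,0)]⟩,⟨0,[(11,0)]⟩,⟨0,[(6,0),(25,0)]⟩,⟨1,[(21,2),(0,0)]⟩]⟩)))) (.R ⟨1,true,false,
  false,[1,0,-1],[0,1],[1,1,0,0,0,0,0,-1],(⟨0,[(21,0)]⟩,⟨0,[(22,0)]⟩),(⟨0,[(25,0)]⟩,⟨0,[(24,0)]⟩),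
  ⟨0,[(6,0)]⟩,.k,.k,.k,.k,(.r (-1) ⟨1,[(0,1),(28,1),(0,0),(0,0)]⟩ ⟨0,[(3,0),(3,0),(7,0),(2,0)]⟩),.k,
  ⟨true,0,⟨0,[(0,0)]⟩,⟨0,[(3,0),(1,0),(1,0),(10,0),(7,0)]⟩⟩,⟨false,1,⟨1,[(0,1),(6,1),(22,0),(0,0)]⟩,
  ⟨0,[(15,0)]⟩⟩,⟨false,0,⟨0,[]⟩,⟨3,[(10,0),(0,0),(19,1)]⟩⟩,⟨true,0,⟨0,[(7,0)]⟩,⟨0,[(14,0),(14,0)]⟩⟩,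
  ⟨true,0,⟨0,[(28,0)]⟩,⟨0,[(29,0)]⟩⟩,⟨false,1,⟨0,[(7,0),(20,0),(2,0)]⟩,⟨0,[(0,0),(4,0),(20,0)]⟩⟩,
  []⟩)))) (.Q [0,0,0,-1,0,0,-1,-1,0,0,1] (.p true [0,0,1] [] (⟨0,[(19,0)]⟩,⟨0,[(18,0)]⟩) .k 0 (⟨0,
  []⟩,⟨0,[]⟩) .k .k) (.R ⟨2,true,false,false,[0,1],[0,1,1],[1,1,1,1],(⟨0,[]⟩,⟨0,[]⟩),(⟨0,[(20,0),(2,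
  0)]⟩,⟨0,[(4,0)]⟩),⟨0,[]⟩,.k,.k,.k,.k,.k,.k,⟨true,0,⟨0,[(1,0),(4,0)]⟩,⟨0,[(3,0),(1,0),(18,0)]⟩⟩,
  ⟨false,1,⟨0,[(16,0),(11,0)]⟩,⟨0,[(3,0),(6,0),(0,0)]⟩⟩,⟨false,0,⟨0,[]⟩,⟨3,[(8,0),(0,0),(19,1)]⟩⟩,
  ⟨true,0,⟨0,[(1,0),(1,0),(1,0)]⟩,⟨0,[(15,0)]⟩⟩,⟨true,0,⟨0,[(26,0)]⟩,⟨0,[(27,0)]⟩⟩,⟨false,1,⟨1,[(5,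
  1),(15,0),(7,0)]⟩,⟨0,[(0,0)]⟩⟩,[]⟩) (.Q [0,0,0,0,0,1,0,0,0,0,-1] (.ed true [1,-1,1] .k) (.I [0,0,
  2,1,0,0,0,-1] (.K ⟨2,[1,-1,1],0,0,(⟨0,[(22,0),(1,0)]⟩,⟨0,[(1,0)]⟩),.k,(.x 0 ⟨0,[(0,0),(1,0),(0,1),
  (1,1),(16,0),(1,1)]⟩ ⟨0,[(5,0),(15,0),(3,1),(4,0)]⟩),.k,.k,.k,[⟨0,[(3,0),(1,0)]⟩,⟨0,[(8,0),(3,0),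
  (0,0)]⟩,⟨0,[(5,0),(6,1),(0,1)]⟩,⟨0,[(5,0),(12,1)]⟩]⟩) (.K ⟨2,[1,-1,1],0,0,(⟨0,[(22,0),(1,0)]⟩,⟨0,
  [(1,0)]⟩),.k,(.r 0 ⟨0,[(0,0),(28,0)]⟩ ⟨1,[(8,1),(9,2),(0,0),(8,1),(2,1)]⟩),.k,.k,.k,[⟨0,[(3,0),(1,
  0)]⟩,⟨0,[(8,0),(3,0),(0,0)]⟩,⟨0,[(5,0),(6,1),(0,1)]⟩,⟨0,[(5,0),(12,1)]⟩]⟩)) (.K ⟨2,[0,-1,1],0,0,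
  (⟨0,[(0,0)]⟩,⟨0,[(20,0),(3,0)]⟩),.k,(.x 0 ⟨1,[(0,2),(4,0),(8,0),(2,2)]⟩ ⟨0,[(4,0),(15,0),(3,1),(4,
  0)]⟩),.k,.k,.k,[⟨0,[(28,0)]⟩,⟨0,[(7,0)]⟩,⟨0,[(4,0),(6,0),(0,0)]⟩,⟨1,[(17,2),(0,0)]⟩]⟩)))))

theorem ok7 : chk (cU (-1) true 3) t7 r3 = true := by decide +kernel

noncomputable def t15 : Tre :=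
  (.R ⟨0,false,false,false,[1,0,-1],[1,-1],[1,1],(⟨0,[(21,0)]⟩,⟨0,[(22,0)]⟩),(⟨0,[(24,0)]⟩,⟨0,[(25,
  0)]⟩),⟨0,[(6,0)]⟩,.k,.k,.k,.k,.k,.k,⟨false,0,⟨0,[(28,0)]⟩,⟨1,[(29,1),(0,0),(0,0)]⟩⟩,⟨true,0,⟨0,
  [(18,0)]⟩,⟨2,[(0,1),(1,0),(5,0),(3,1),(0,1)]⟩⟩,⟨false,0,⟨0,[(20,0)]⟩,⟨0,[(5,0),(8,0),(16,0)]⟩⟩,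
  ⟨true,0,⟨1,[(0,0),(8,0),(8,0),(10,0)]⟩,⟨0,[(8,0)]⟩⟩,⟨false,0,⟨0,[]⟩,⟨0,[]⟩⟩,⟨false,0,⟨0,[]⟩,⟨0,
  []⟩⟩,[.o ⟨false,0,⟨0,[(0,0),(17,0)]⟩,⟨3,[(10,0),(0,0),(16,3),(2,1)]⟩⟩,.o ⟨false,1,⟨1,[(23,0),(5,
  1),(1,0)]⟩,⟨0,[(28,0)]⟩⟩,.a ⟨true,0,⟨2,[(0,1),(1,0),(5,0),(3,1),(0,1)]⟩,⟨0,[(5,0)]⟩⟩ ⟨false,0,⟨0,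
  []⟩,⟨3,[(10,0),(0,0),(19,1)]⟩⟩ ⟨true,0,⟨0,[(0,0),(4,0),(12,0)]⟩,⟨0,[(8,0),(11,0)]⟩⟩,.o ⟨false,0,
  ⟨0,[(15,0)]⟩,⟨0,[(18,0),(11,0)]⟩⟩]⟩)

theorem ok15 : chk (cU (-1) true 3) t15 r12 = true := by decide +kernel

noncomputable def t17 : Tre :=
  (.I [1,0,-2,-1,1,0,0,-1] (.Q [0,0,0,1,0,0,0,0,0,1] (.pp false [-1,1]) (.K ⟨2,[-1,1,1],0,0,(⟨0,[(7,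
  0)]⟩,⟨0,[(22,0),(2,0)]⟩),.k,.k,(.r 0 ⟨0,[(5,0)]⟩ ⟨0,[(1,0),(28,0)]⟩),.k,.k,[⟨0,[(0,0)]⟩,⟨0,[(15,
  0),(14,0)]⟩,⟨3,[(4,1),(14,0),(0,2)]⟩,⟨0,[(6,0)]⟩]⟩) (.Q [0,1,-1,0,0,0,0,0,-1,0,0,1] (.p true [0,0,
  0,1] [] (⟨0,[(14,0)]⟩,⟨0,[(13,0)]⟩) .k 0 (⟨0,[]⟩,⟨0,[]⟩) .k .k) (.K ⟨0,[0,0,0,1],0,0,(⟨0,[(15,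
  0)]⟩,⟨0,[(14,0)]⟩),.k,(.x 0 ⟨3,[(5,1),(14,2),(0,0),(4,3)]⟩ ⟨0,[(27,0),(4,0)]⟩),(.x 0 ⟨0,[(27,0)]⟩
  ⟨3,[(12,0),(0,0),(11,1),(0,3)]⟩),.k,.k,[⟨0,[(15,0)]⟩,⟨0,[(14,0)]⟩,⟨0,[(0,0)]⟩,⟨1,[(1,0),(1,0),(1,
  0),(7,0),(0,1),(1,0)]⟩]⟩) (.Q [0,0,-1,-1,0,0,1,0,0,1,-1] (.p false [0,0,1] [1] (⟨0,[(24,0)]⟩,⟨0,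
  [(23,0)]⟩) .k 1 (⟨0,[]⟩,⟨0,[]⟩) .k .k) (.Q [0,0,0,0,0,-1,0,0,0,0,1] (.ed false [1,-1,1] .k) (.Q
  [0,-1,0,-1,0,0,1,1,0,1,-1] (.p false [0,0,1] [1] (⟨0,[(26,0)]⟩,⟨0,[(25,0)]⟩) .k 1 (⟨0,[]⟩,⟨0,[]⟩)
  .k .k) (.R ⟨2,true,false,true,[0,1],[1,1,-1],[1,1,1,1],(⟨0,[]⟩,⟨0,[]⟩),(⟨0,[(26,0),(3,0)]⟩,⟨0,[(1,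
  0)]⟩),⟨0,[]⟩,.k,.k,.k,.k,.k,.k,⟨true,0,⟨0,[(25,0)]⟩,⟨0,[(6,0),(12,1),(11,0),(4,0)]⟩⟩,⟨false,1,⟨0,
  [(20,0),(14,0)]⟩,⟨0,[(10,0)]⟩⟩,⟨false,0,⟨0,[]⟩,⟨3,[(15,0),(0,0),(19,1)]⟩⟩,⟨true,0,⟨0,[(19,0)]⟩,
  ⟨15,[(0,3),(5,3),(7,3),(0,0),(0,0),(7,3),(10,1)]⟩⟩,⟨true,0,⟨0,[(33,0)]⟩,⟨0,[(34,0)]⟩⟩,⟨false,1,⟨1,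
  [(13,1),(14,0),(7,0)]⟩,⟨0,[(0,0)]⟩⟩,[]⟩) (.Q [0,0,-2,0,1,0,-1,0,0,0,1] (.p true [0,0,1] [] (⟨0,
  [(27,0)]⟩,⟨0,[(26,0)]⟩) .k 0 (⟨0,[]⟩,⟨0,[]⟩) .k .k) (.K ⟨0,[1,1,-1],1,0,(⟨0,[(27,0),(3,0)]⟩,⟨0,
  [(2,0)]⟩),.k,.k,(.r 0 ⟨3,[(1,5),(5,2),(0,0),(5,1),(9,1),(7,3),(4,2)]⟩ ⟨1,[(0,1),(4,0),(9,0),(19,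
  2)]⟩),.k,.k,[⟨0,[(1,0),(5,0),(24,1)]⟩,⟨0,[(0,0)]⟩,⟨1,[(3,0),(11,0),(9,0),(9,0),(3,1)]⟩,⟨0,[(1,
  0)]⟩]⟩) (.K ⟨2,[0,-1,1],(-1),0,(⟨0,[(2,0)]⟩,⟨0,[(27,0),(3,0)]⟩),.k,(.r (-1) ⟨0,[(26,0),(8,1),(0,
  0)]⟩ ⟨4,[(0,2),(0,1),(5,0),(2,0),(3,4),(9,1),(12,3)]⟩),.k,.k,.k,[⟨0,[(35,0)]⟩,⟨0,[(14,0)]⟩,⟨3,
  [(16,0),(0,0),(7,3),(10,1)]⟩,⟨0,[(0,0)]⟩]⟩))) (.Q [0,0,-1,0,0,0,1,0,0,2,-1] (.p false [-1,1,1]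
  [1] (⟨0,[(10,0)]⟩,⟨0,[(25,0),(2,0)]⟩) .k 1 (⟨0,[]⟩,⟨0,[]⟩) .k .k) (.R ⟨0,false,false,true,[-1,1,
  1],[0,1],[1,1,1,1,0,0,0,1],(⟨0,[(11,0)]⟩,⟨0,[(26,0),(2,0)]⟩),(⟨0,[(30,0)]⟩,⟨0,[(29,0)]⟩),⟨0,[(26,
  0)]⟩,.k,.k,.k,.k,.k,.k,⟨true,0,⟨0,[(25,0)]⟩,⟨0,[(6,0),(12,1),(11,0),(4,0)]⟩⟩,⟨false,1,⟨0,[(20,0),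
  (14,0)]⟩,⟨0,[(10,0)]⟩⟩,⟨false,0,⟨0,[]⟩,⟨3,[(15,0),(0,0),(19,1)]⟩⟩,⟨true,0,⟨0,[(19,0)]⟩,⟨3,[(0,0),
  (13,1),(9,0)]⟩⟩,⟨false,0,⟨0,[]⟩,⟨0,[]⟩⟩,⟨false,0,⟨0,[]⟩,⟨0,[]⟩⟩,[.o ⟨false,0,⟨0,[(33,0)]⟩,⟨1,[(28,
  0),(5,1),(1,0)]⟩⟩,.o ⟨false,1,⟨3,[(15,0),(0,0),(16,3),(2,1)]⟩,⟨0,[(4,0)]⟩⟩,.a ⟨true,0,⟨0,[(0,0)]⟩,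
  ⟨0,[(20,0)]⟩⟩ ⟨false,0,⟨1,[(9,0),(15,0)]⟩,⟨0,[(2,0),(16,0),(16,0)]⟩⟩ ⟨true,0,⟨1,[(8,0),(4,0),(11,
  0),(7,0)]⟩,⟨0,[(2,0)]⟩⟩,.o ⟨false,0,⟨0,[(10,0)]⟩,⟨0,[(8,0),(26,0)]⟩⟩]⟩) (.Q [0,1,1,0,-1,0,0,0,1,0,
  0,-1] (.p false [0,0,0,1] [] (⟨0,[(18,0)]⟩,⟨0,[(17,0)]⟩) .k 0 (⟨0,[]⟩,⟨0,[]⟩) .k .k) (.K ⟨0,[0,0,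
  0,1],0,(-1),(⟨0,[(19,0)]⟩,⟨0,[(18,0)]⟩),.k,(.x 0 ⟨3,[(9,1),(14,2),(0,0),(4,3)]⟩ ⟨0,[(31,0),(4,
  0)]⟩),(.x 0 ⟨0,[(31,0)]⟩ ⟨3,[(16,0),(0,0),(11,1),(0,3)]⟩),.k,.k,[⟨0,[(19,0)]⟩,⟨0,[(18,0)]⟩,⟨1,
  [(16,0),(2,1),(16,0),(2,1)]⟩,⟨0,[(0,0)]⟩]⟩) (.Q [0,0,0,0,0,1,0,0,0,-1,0,1] (.p true [0,0,0,1] [1]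
  (⟨0,[(19,0)]⟩,⟨0,[(18,0)]⟩) .k 1 (⟨0,[]⟩,⟨0,[]⟩) .k .k) (.R ⟨0,false,false,true,[1,0,0,-1],[0,1],
  [0,1,0,0,0,0,0,0,-1],(⟨0,[(19,0)]⟩,⟨0,[(20,0)]⟩),(⟨0,[(32,0)]⟩,⟨0,[(31,0)]⟩),⟨0,[(0,0)]⟩,.k,.k,
  (.x (-1) ⟨3,[(17,0),(0,0),(11,1),(0,3)]⟩ ⟨0,[(32,0)]⟩),(.x (-1) ⟨3,[(17,0),(0,0),(11,1),(0,3)]⟩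
  ⟨0,[(32,0)]⟩),.k,.k,⟨false,1,⟨0,[(1,0),(4,0),(12,0),(14,0)]⟩,⟨0,[(5,0),(14,0),(14,0)]⟩⟩,⟨true,0,
  ⟨0,[(19,0)]⟩,⟨1,[(2,0),(17,1),(4,0)]⟩⟩,⟨true,0,⟨0,[(40,0)]⟩,⟨0,[]⟩⟩,⟨false,0,⟨3,[(5,1),(2,0),(0,
  0),(5,1),(2,0),(0,1)]⟩,⟨0,[(1,0),(4,0)]⟩⟩,⟨false,0,⟨0,[]⟩,⟨0,[]⟩⟩,⟨false,0,⟨0,[]⟩,⟨0,[]⟩⟩,[.o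
  ⟨false,0,⟨0,[(35,0)]⟩,⟨1,[(30,0),(5,1),(1,0)]⟩⟩,.o ⟨false,1,⟨3,[(17,0),(0,0),(16,3),(2,1)]⟩,⟨0,
  [(6,0)]⟩⟩,.o ⟨false,1,⟨1,[(20,1),(9,0),(6,0)]⟩,⟨1,[(2,0),(16,1),(5,0)]⟩⟩,.a ⟨true,0,⟨0,[(20,0)]⟩,
  ⟨0,[(19,0)]⟩⟩ ⟨false,1,⟨1,[(17,0),(19,0)]⟩,⟨0,[(5,0),(14,0)]⟩⟩ ⟨true,0,⟨0,[(19,0),(15,0)]⟩,⟨0,[(6,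
  0),(13,0)]⟩⟩]⟩) (.R ⟨1,false,false,true,[1,0,0,-1],[0,1],[1,1,0,0,0,0,0,0,-1],(⟨0,[(19,0)]⟩,⟨0,
  [(20,0)]⟩),(⟨0,[(32,0)]⟩,⟨0,[(31,0)]⟩),⟨0,[(0,0)]⟩,.k,.k,(.x (-1) ⟨3,[(17,0),(0,0),(11,1),(0,3)]⟩
  ⟨0,[(32,0)]⟩),(.x (-1) ⟨3,[(17,0),(0,0),(11,1),(0,3)]⟩ ⟨0,[(32,0)]⟩),(.r (-1) ⟨0,[(1,0),(4,0),(12,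
  0),(14,0),(1,0)]⟩ ⟨9,[(2,0),(2,9),(2,3),(2,3),(3,7),(4,9),(4,0),(4,2),(7,0)]⟩),.k,⟨false,1,⟨0,[(1,
  0),(4,0),(12,0),(14,0)]⟩,⟨0,[(5,0),(14,0),(14,0)]⟩⟩,⟨true,0,⟨0,[(19,0)]⟩,⟨1,[(2,0),(17,1),(4,
  0)]⟩⟩,⟨false,0,⟨0,[]⟩,⟨3,[(17,0),(0,0),(19,1)]⟩⟩,⟨false,0,⟨3,[(5,1),(2,0),(0,0),(5,1),(2,0),(0,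
  1)]⟩,⟨0,[(1,0),(4,0)]⟩⟩,⟨true,0,⟨0,[(35,0)]⟩,⟨0,[(36,0)]⟩⟩,⟨false,0,⟨0,[(5,0),(8,0),(0,0)]⟩,⟨0,
  [(1,0),(4,0),(29,0)]⟩⟩,[.o ⟨false,0,⟨0,[(35,0)]⟩,⟨1,[(30,0),(5,1),(1,0)]⟩⟩,.o ⟨false,1,⟨3,[(17,0),
  (0,0),(16,3),(2,1)]⟩,⟨0,[(6,0)]⟩⟩,.o ⟨false,1,⟨1,[(20,1),(9,0),(6,0)]⟩,⟨1,[(2,0),(16,1),(5,0)]⟩⟩,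
  .a ⟨true,0,⟨0,[(20,0)]⟩,⟨0,[(19,0)]⟩⟩ ⟨false,1,⟨1,[(17,0),(19,0)]⟩,⟨0,[(5,0),(14,0)]⟩⟩ ⟨true,0,⟨0,
  [(19,0),(15,0)]⟩,⟨0,[(6,0),(13,0)]⟩⟩]⟩))))) (.Q [0,1,1,0,-1,0,0,0,1,0,0,-1] (.p false [0,0,0,1]
  [] (⟨0,[(16,0)]⟩,⟨0,[(15,0)]⟩) .k 0 (⟨0,[]⟩,⟨0,[]⟩) .k .k) (.K ⟨0,[0,0,0,1],0,(-1),(⟨0,[(17,0)]⟩,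
  ⟨0,[(16,0)]⟩),.k,(.x 0 ⟨3,[(7,1),(14,2),(0,0),(4,3)]⟩ ⟨0,[(29,0),(4,0)]⟩),(.x 0 ⟨0,[(29,0)]⟩ ⟨3,
  [(14,0),(0,0),(11,1),(0,3)]⟩),.k,.k,[⟨0,[(17,0)]⟩,⟨0,[(16,0)]⟩,⟨1,[(14,0),(2,1),(16,0),(2,1)]⟩,⟨0,
  [(0,0)]⟩]⟩) (.Q [0,0,0,0,0,-1,0,0,0,1,0,-1] (.p false [0,0,0,1] [1] (⟨0,[(17,0)]⟩,⟨0,[(16,0)]⟩)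
  .k 1 (⟨0,[]⟩,⟨0,[]⟩) .k .k) (.R ⟨1,false,false,false,[1,0,0,-1],[1,-1],[0,0,0,-1,0,0,0,0,-1],(⟨0,
  [(17,0)]⟩,⟨0,[(18,0)]⟩),(⟨0,[(29,0)]⟩,⟨0,[(30,0)]⟩),⟨0,[(0,0)]⟩,.k,.k,(.x (-1) ⟨3,[(15,0),(0,0),
  (11,1),(0,3)]⟩ ⟨0,[(30,0)]⟩),(.x (-1) ⟨0,[(30,0),(4,0)]⟩ ⟨3,[(8,1),(14,2),(0,0),(4,3)]⟩),.k,.k,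
  ⟨true,0,⟨0,[(1,0),(0,0),(1,0),(1,0),(10,0),(1,0),(11,0)]⟩,⟨0,[(3,0),(14,0),(13,0)]⟩⟩,⟨false,0,⟨3,
  [(3,1),(0,0),(1,0),(1,0),(6,0),(1,1),(1,0)]⟩,⟨0,[(18,0),(16,0)]⟩⟩,⟨true,0,⟨0,[(34,0)]⟩,⟨0,[(33,
  0)]⟩⟩,⟨false,0,⟨0,[(3,0),(30,0)]⟩,⟨0,[(1,0),(31,0)]⟩⟩,⟨false,1,⟨3,[(15,0),(0,0),(19,1)]⟩,⟨0,[]⟩⟩,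
  ⟨false,0,⟨0,[(3,0)]⟩,⟨0,[(1,0),(36,0)]⟩⟩,[.o ⟨false,0,⟨0,[(4,0)]⟩,⟨3,[(15,0),(0,0),(16,3),(2,
  1)]⟩⟩,.o ⟨false,1,⟨1,[(28,0),(5,1),(1,0)]⟩,⟨0,[(33,0)]⟩⟩,.o ⟨false,1,⟨1,[(18,1),(9,0),(6,0)]⟩,⟨3,
  [(3,1),(0,0),(1,0),(1,0),(6,0),(1,1),(1,0)]⟩⟩,.a ⟨true,0,⟨0,[(18,0)]⟩,⟨0,[(17,0)]⟩⟩ ⟨false,1,⟨0,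
  [(1,0),(2,0),(12,0)]⟩,⟨5,[(2,1),(0,3),(2,1),(6,1),(2,0),(1,3),(9,0)]⟩⟩ ⟨true,0,⟨0,[(4,0),(12,0)]⟩,
  ⟨0,[(18,0),(14,0)]⟩⟩]⟩) (.R ⟨0,false,false,true,[1,0,0,-1],[0,1],[1,1,2,1],(⟨0,[(17,0)]⟩,⟨0,[(18,
  0)]⟩),(⟨0,[(30,0)]⟩,⟨0,[(29,0)]⟩),⟨0,[(0,0)]⟩,.k,.k,(.x (-1) ⟨3,[(15,0),(0,0),(11,1),(0,3)]⟩ ⟨0,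
  [(30,0)]⟩),(.x (-1) ⟨3,[(15,0),(0,0),(11,1),(0,3)]⟩ ⟨0,[(30,0)]⟩),.k,.k,⟨false,0,⟨0,[]⟩,⟨3,[(15,
  0),(0,0),(18,1)]⟩⟩,⟨true,0,⟨0,[(17,0)]⟩,⟨1,[(2,0),(1,0),(13,1),(4,0)]⟩⟩,⟨true,(-1),⟨0,[(3,0),(2,
  0),(11,0),(0,0),(0,0)]⟩,⟨0,[(1,0),(2,0),(12,0),(14,0)]⟩⟩,⟨false,0,⟨3,[(3,1),(2,0),(0,0),(5,1),(2,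
  0),(0,1)]⟩,⟨0,[(1,0),(2,0)]⟩⟩,⟨false,0,⟨0,[]⟩,⟨0,[]⟩⟩,⟨false,0,⟨0,[]⟩,⟨0,[]⟩⟩,[.o ⟨false,0,⟨0,
  [(33,0)]⟩,⟨1,[(28,0),(5,1),(1,0)]⟩⟩,.o ⟨false,1,⟨3,[(15,0),(0,0),(16,3),(2,1)]⟩,⟨0,[(4,0)]⟩⟩,.o
  ⟨false,1,⟨1,[(18,1),(9,0),(6,0)]⟩,⟨3,[(3,1),(0,0),(1,0),(1,0),(6,0),(1,1),(1,0)]⟩⟩,.a ⟨true,0,⟨0,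
  [(18,0)]⟩,⟨0,[(17,0)]⟩⟩ ⟨false,0,⟨5,[(2,1),(3,0),(0,0),(5,1),(9,1),(12,0)]⟩,⟨1,[(34,1),(0,0),(0,
  0)]⟩⟩ ⟨true,0,⟨0,[(17,0),(15,0)]⟩,⟨0,[(4,0),(13,0)]⟩⟩]⟩)))))) (.Q [0,0,0,1,0,0,0,0,0,1] (.pp
  false [-1,1]) (.R ⟨0,false,false,true,[1,0,-1],[0,1],[],(⟨0,[(22,0)]⟩,⟨0,[(23,0)]⟩),(⟨0,[(26,0)]⟩,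
  ⟨0,[(25,0)]⟩),⟨0,[(7,0)]⟩,.k,.k,.k,.k,.k,.k,⟨true,1,⟨1,[(30,1),(0,0),(0,0)]⟩,⟨2,[(1,1),(0,0),(6,
  0),(5,1),(3,0),(7,0)]⟩⟩,⟨false,1,⟨0,[(6,0),(24,0)]⟩,⟨0,[(16,0)]⟩⟩,⟨true,0,⟨0,[(21,0)]⟩,⟨0,[(6,0),
  (8,0)]⟩⟩,⟨false,0,⟨0,[(8,0)]⟩,⟨0,[(15,0),(14,0),(1,0)]⟩⟩,⟨false,0,⟨0,[]⟩,⟨0,[]⟩⟩,⟨false,0,⟨0,[]⟩,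
  ⟨0,[]⟩⟩,[.o ⟨false,0,⟨0,[(29,0)]⟩,⟨1,[(24,0),(5,1),(1,0)]⟩⟩,.a ⟨true,0,⟨0,[(0,0)]⟩,⟨0,[(30,0)]⟩⟩
  ⟨false,1,⟨1,[(31,0),(0,0)]⟩,⟨0,[(34,0)]⟩⟩ ⟨true,0,⟨0,[(2,0),(12,0),(16,0)]⟩,⟨0,[(16,0),(13,0)]⟩⟩,
  .e ⟨false,1,⟨3,[(11,0),(0,0),(19,1)]⟩,⟨0,[]⟩⟩ ⟨false,0,⟨0,[(2,0),(12,0),(16,0)]⟩,⟨1,[(16,1),(13,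
  1),(0,0),(0,0)]⟩⟩,.o ⟨false,0,⟨0,[(16,0)]⟩,⟨0,[(19,0),(11,0)]⟩⟩]⟩) (.Q [0,1,-1,0,0,0,0,0,-1,0,0,
  1] (.p true [0,0,0,1] [] (⟨0,[(14,0)]⟩,⟨0,[(13,0)]⟩) .k 0 (⟨0,[]⟩,⟨0,[]⟩) .k .k) (.K ⟨0,[0,0,0,1],
  0,0,(⟨0,[(15,0)]⟩,⟨0,[(14,0)]⟩),.k,(.r (-1) ⟨1,[(13,0),(17,1),(0,0)]⟩ ⟨0,[(0,0),(0,0),(0,0),(0,0),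
  (10,0),(1,1),(16,1)]⟩),(.x 0 ⟨0,[(27,0)]⟩ ⟨3,[(12,0),(0,0),(11,1),(0,3)]⟩),.k,.k,[⟨0,[(15,0)]⟩,⟨0,
  [(14,0)]⟩,⟨0,[(0,0)]⟩,⟨1,[(1,0),(1,0),(1,0),(7,0),(0,1),(1,0)]⟩]⟩) (.I [0,0,-1,-1,0,0,0,0,1] (.K
  ⟨0,[0,0,0,1],0,(-1),(⟨0,[(16,0)]⟩,⟨0,[(15,0)]⟩),.k,(.r 0 ⟨0,[(0,0)]⟩ ⟨5,[(7,1),(3,1),(1,3),(0,0),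
  (6,1),(12,0)]⟩),(.x 0 ⟨0,[(28,0)]⟩ ⟨3,[(13,0),(0,0),(11,1),(0,3)]⟩),.k,.k,[⟨0,[(16,0)]⟩,⟨0,[(15,
  0)]⟩,⟨1,[(13,0),(2,1),(16,0),(2,1)]⟩,⟨1,[(0,0),(0,0),(0,0),(0,0),(0,0),(10,0),(1,1)]⟩]⟩) (.Q [0,1,
  1,0,-1,0,0,0,1,0,0,-1] (.p false [0,0,0,1] [] (⟨0,[(16,0)]⟩,⟨0,[(15,0)]⟩) .k 0 (⟨0,[]⟩,⟨0,[]⟩) .k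
  .k) (.K ⟨0,[0,0,0,1],0,(-1),(⟨0,[(17,0)]⟩,⟨0,[(16,0)]⟩),.k,(.x 0 ⟨3,[(7,1),(14,2),(0,0),(4,3)]⟩
  ⟨0,[(29,0),(4,0)]⟩),(.x 0 ⟨0,[(29,0)]⟩ ⟨3,[(14,0),(0,0),(11,1),(0,3)]⟩),.k,.k,[⟨0,[(17,0)]⟩,⟨0,
  [(16,0)]⟩,⟨1,[(14,0),(2,1),(16,0),(2,1)]⟩,⟨0,[(0,0)]⟩]⟩) (.Q [0,0,0,0,0,-1,0,0,0,1,0,-1] (.p
  false [0,0,0,1] [1] (⟨0,[(17,0)]⟩,⟨0,[(16,0)]⟩) .k 1 (⟨0,[]⟩,⟨0,[]⟩) .k .k) (.R ⟨1,false,false,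
  false,[1,0,0,-1],[1,-1],[0,0,0,-1,0,0,0,0,-1],(⟨0,[(17,0)]⟩,⟨0,[(18,0)]⟩),(⟨0,[(29,0)]⟩,⟨0,[(30,
  0)]⟩),⟨0,[(0,0)]⟩,.k,.k,(.x (-1) ⟨3,[(15,0),(0,0),(11,1),(0,3)]⟩ ⟨0,[(30,0)]⟩),(.r 0 ⟨0,[(0,0),(0,
  0),(2,2),(0,0),(0,0),(6,1),(16,0),(5,0)]⟩ ⟨1,[(16,0),(17,1),(0,0)]⟩),.k,.k,⟨true,0,⟨0,[(2,0),(31,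
  0)]⟩,⟨0,[(3,0),(14,0),(13,0)]⟩⟩,⟨false,0,⟨11,[(2,1),(0,1),(0,2),(1,0),(1,2),(8,9),(1,0),(3,1),(4,
  0)]⟩,⟨0,[(18,0),(16,0)]⟩⟩,⟨true,0,⟨0,[(34,0)]⟩,⟨0,[(33,0)]⟩⟩,⟨false,0,⟨0,[(3,0),(30,0)]⟩,⟨0,[(1,
  0),(31,0)]⟩⟩,⟨false,1,⟨3,[(15,0),(0,0),(19,1)]⟩,⟨0,[]⟩⟩,⟨false,0,⟨0,[(3,0)]⟩,⟨0,[(1,0),(36,0)]⟩⟩,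
  [.o ⟨false,0,⟨0,[(4,0)]⟩,⟨3,[(15,0),(0,0),(16,3),(2,1)]⟩⟩,.o ⟨false,1,⟨1,[(28,0),(5,1),(1,0)]⟩,⟨0,
  [(33,0)]⟩⟩,.o ⟨false,1,⟨1,[(18,1),(9,0),(6,0)]⟩,⟨11,[(2,1),(0,1),(0,2),(1,0),(1,2),(8,9),(1,0),(3,
  1),(4,0)]⟩⟩,.a ⟨true,0,⟨0,[(18,0)]⟩,⟨0,[(17,0)]⟩⟩ ⟨false,1,⟨0,[(1,0),(2,0),(12,0)]⟩,⟨0,[(3,0),(14,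
  0),(14,0)]⟩⟩ ⟨true,0,⟨0,[(4,0),(12,0)]⟩,⟨0,[(18,0),(14,0)]⟩⟩]⟩) (.R ⟨0,false,false,true,[1,0,0,
  -1],[0,1],[0,1,0,0,0,0,0,0,-1],(⟨0,[(17,0)]⟩,⟨0,[(18,0)]⟩),(⟨0,[(30,0)]⟩,⟨0,[(29,0)]⟩),⟨0,[(0,
  0)]⟩,.k,.k,(.x (-1) ⟨3,[(15,0),(0,0),(11,1),(0,3)]⟩ ⟨0,[(30,0)]⟩),(.x (-1) ⟨3,[(15,0),(0,0),(11,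
  1),(0,3)]⟩ ⟨0,[(30,0)]⟩),.k,.k,⟨false,1,⟨0,[(1,0),(2,0),(12,0),(14,0)]⟩,⟨0,[(3,0),(14,0),(14,
  0)]⟩⟩,⟨true,0,⟨0,[(17,0)]⟩,⟨5,[(4,1),(0,1),(12,5),(0,1),(3,1),(4,0),(7,0)]⟩⟩,⟨true,0,⟨0,[(38,0)]⟩,
  ⟨0,[]⟩⟩,⟨false,0,⟨3,[(3,1),(2,0),(0,0),(5,1),(2,0),(0,1)]⟩,⟨0,[(1,0),(2,0)]⟩⟩,⟨false,0,⟨0,[]⟩,⟨0,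
  []⟩⟩,⟨false,0,⟨0,[]⟩,⟨0,[]⟩⟩,[.o ⟨false,0,⟨0,[(33,0)]⟩,⟨1,[(28,0),(5,1),(1,0)]⟩⟩,.o ⟨false,1,⟨3,
  [(15,0),(0,0),(16,3),(2,1)]⟩,⟨0,[(4,0)]⟩⟩,.o ⟨false,1,⟨1,[(18,1),(9,0),(6,0)]⟩,⟨11,[(2,1),(0,1),
  (0,2),(1,0),(1,2),(8,9),(1,0),(3,1),(4,0)]⟩⟩,.a ⟨true,0,⟨0,[(18,0)]⟩,⟨0,[(17,0)]⟩⟩ ⟨false,1,⟨1,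
  [(15,0),(19,0)]⟩,⟨0,[(3,0),(14,0)]⟩⟩ ⟨true,0,⟨0,[(17,0),(15,0)]⟩,⟨0,[(4,0),(13,0)]⟩⟩]⟩)))))))

theorem ok17 : chk (cU (-1) true 3) t17 r11 = true := by decide +kernel

noncomputable def t19 : Tre :=
  (.Q [0,0,-1,0,0,0,0,0,0,1] (.pp false [-1,1]) (.R ⟨2,false,false,false,[0,1],[-1,1,1],[0,1,1],(⟨0,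
  []⟩,⟨0,[]⟩),(⟨0,[(5,0)]⟩,⟨0,[(20,0),(2,0)]⟩),⟨0,[]⟩,.k,.k,.k,.k,.k,.k,⟨false,0,⟨2,[(1,1),(14,0),
  (0,0),(10,0)]⟩,⟨1,[(3,0),(15,0),(9,0),(0,0)]⟩⟩,⟨true,0,⟨0,[(4,0)]⟩,⟨0,[(14,0)]⟩⟩,⟨false,0,⟨0,[(28,
  0)]⟩,⟨0,[(27,0),(2,0)]⟩⟩,⟨true,0,⟨3,[(0,0),(3,0),(3,1),(9,0)]⟩,⟨0,[(13,0)]⟩⟩,⟨true,0,⟨0,[(32,0)]⟩,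
  ⟨0,[]⟩⟩,⟨true,0,⟨0,[(6,0)]⟩,⟨1,[(1,0),(0,0),(13,0),(11,0)]⟩⟩,[.o ⟨false,0,⟨0,[(6,0)]⟩,⟨3,[(1,1),
  (11,1),(4,1),(3,2),(2,1),(4,0)]⟩⟩,.o ⟨false,1,⟨3,[(6,3),(2,0),(0,0),(19,1)]⟩,⟨0,[(1,0),(0,0)]⟩⟩,
  .a ⟨true,0,⟨0,[(0,0)]⟩,⟨1,[(17,0),(0,0)]⟩⟩ ⟨false,0,⟨1,[(17,0),(0,0)]⟩,⟨1,[(29,0),(0,0)]⟩⟩ ⟨true,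
  0,⟨4,[(3,1),(0,2),(1,0),(1,0),(9,0)]⟩,⟨0,[(1,0),(12,0)]⟩⟩,.e ⟨true,0,⟨0,[(32,0)]⟩,⟨0,[]⟩⟩ ⟨true,0,
  ⟨0,[(6,0)]⟩,⟨1,[(1,0),(0,0),(13,0),(11,0)]⟩⟩]⟩) (.I [1,0,-1,-1] (.Q [0,0,-1,0,0,0,1,0,0,2,-1] (.p
  false [-1,1,1] [1] (⟨0,[(6,0)]⟩,⟨0,[(21,0),(2,0)]⟩) .k 1 (⟨0,[]⟩,⟨0,[]⟩) .k .k) (.R ⟨0,false,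
  false,false,[-1,1,1],[0,0,1],[],(⟨0,[(7,0)]⟩,⟨0,[(22,0),(2,0)]⟩),(⟨0,[(23,0)]⟩,⟨0,[(22,0)]⟩),⟨0,
  [(22,0)]⟩,.k,.k,.k,.k,.k,.k,⟨false,1,⟨7,[(0,1),(2,3),(5,3),(1,0),(0,0),(6,1),(4,1),(7,3)]⟩,⟨0,
  [(21,0)]⟩⟩,⟨true,0,⟨0,[(2,0)]⟩,⟨1,[(0,0),(19,0)]⟩⟩,⟨false,1,⟨15,[(3,11),(7,0),(0,0),(5,3),(0,3),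
  (7,3),(4,13)]⟩,⟨1,[(5,0),(15,0)]⟩⟩,⟨true,0,⟨0,[(1,0),(0,0)]⟩,⟨3,[(0,0),(8,3),(0,1),(9,0)]⟩⟩,
  ⟨false,0,⟨0,[]⟩,⟨0,[]⟩⟩,⟨false,0,⟨0,[]⟩,⟨0,[]⟩⟩,[.o ⟨false,0,⟨0,[(1,0),(0,0),(5,0)]⟩,⟨1,[(18,1),
  (5,0),(7,0)]⟩⟩,.o ⟨false,1,⟨7,[(10,3),(0,0),(0,0),(11,1),(7,3)]⟩,⟨0,[(15,0)]⟩⟩,.a ⟨true,0,⟨0,[(0,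
  0)]⟩,⟨0,[(16,0)]⟩⟩ ⟨false,1,⟨3,[(11,0),(0,0),(19,1)]⟩,⟨0,[]⟩⟩ ⟨true,0,⟨0,[(2,0),(18,0)]⟩,⟨5,[(0,
  2),(2,1),(5,1),(8,1),(0,0)]⟩⟩,.o ⟨false,0,⟨0,[(6,0)]⟩,⟨0,[(4,0),(26,0)]⟩⟩]⟩) (.Q [0,0,0,0,0,0,-1,
  0,0,0,1] (.p true [0,0,1] [] (⟨0,[(23,0)]⟩,⟨0,[(22,0)]⟩) .k 0 (⟨0,[]⟩,⟨0,[]⟩) .k .k) (.R ⟨0,false,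
  false,false,[1,0,-1],[1,-1],[1,1],(⟨0,[(23,0)]⟩,⟨0,[(24,0)]⟩),(⟨0,[(26,0)]⟩,⟨0,[(27,0)]⟩),⟨0,[(8,
  0)]⟩,.k,.k,.k,.k,.k,.k,⟨false,0,⟨0,[(30,0)]⟩,⟨1,[(31,1),(0,0),(0,0)]⟩⟩,⟨true,0,⟨0,[(20,0)]⟩,⟨0,
  [(0,0)]⟩⟩,⟨false,0,⟨0,[(22,0)]⟩,⟨2,[(4,0),(5,0),(8,0),(0,1),(12,2)]⟩⟩,⟨true,0,⟨2,[(1,0),(2,0),(6,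
  1),(16,0),(2,0)]⟩,⟨0,[(10,0)]⟩⟩,⟨false,0,⟨0,[]⟩,⟨0,[]⟩⟩,⟨false,0,⟨0,[]⟩,⟨0,[]⟩⟩,[.o ⟨false,0,⟨1,
  [(1,0),(0,1),(17,0)]⟩,⟨3,[(12,0),(0,0),(16,3),(2,1)]⟩⟩,.o ⟨false,1,⟨1,[(25,0),(5,1),(1,0)]⟩,⟨0,
  [(30,0)]⟩⟩,.a ⟨true,0,⟨0,[(0,0)]⟩,⟨0,[(7,0)]⟩⟩ ⟨false,0,⟨0,[]⟩,⟨3,[(12,0),(0,0),(19,1)]⟩⟩ ⟨true,0,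
  ⟨0,[(2,0),(17,0)]⟩,⟨0,[(0,0),(29,0)]⟩⟩,.o ⟨false,0,⟨0,[(17,0)]⟩,⟨0,[(20,0),(11,0)]⟩⟩]⟩) (.I [1,0,
  1,1] (.N [0,1] 0 ⟨0,[(0,0)]⟩ ⟨0,[(3,0)]⟩ .k) (.Q [0,0,0,0,0,-1,0,0,0,0,1] (.ed false [1,-1,1] .k)
  (.R ⟨2,true,false,true,[0,1],[1,1,-1],[1,1,1,1],(⟨0,[]⟩,⟨0,[]⟩),(⟨0,[(25,0),(3,0)]⟩,⟨0,[(0,0)]⟩),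
  ⟨0,[]⟩,.k,.k,.k,.k,.k,.k,⟨true,0,⟨0,[(24,0)]⟩,⟨0,[(2,0),(9,0),(17,0)]⟩⟩,⟨false,1,⟨1,[(3,0),(19,0),
  (10,1)]⟩,⟨0,[(9,0)]⟩⟩,⟨false,0,⟨0,[]⟩,⟨3,[(14,0),(0,0),(19,1)]⟩⟩,⟨true,0,⟨0,[(18,0)]⟩,⟨1,[(13,0),
  (2,0),(0,0)]⟩⟩,⟨true,0,⟨0,[(32,0)]⟩,⟨0,[(33,0)]⟩⟩,⟨false,1,⟨1,[(12,1),(14,0),(7,0)]⟩,⟨0,[(1,0),(9,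
  0),(18,0)]⟩⟩,[]⟩) (.Q [0,0,0,0,0,0,-1,0,0,1,1] (.p true [1,-1,1] [] (⟨0,[(26,0),(1,0)]⟩,⟨0,[(0,
  0)]⟩) .k 0 (⟨0,[]⟩,⟨0,[]⟩) .k .k) (.K ⟨0,[1,-1,1],0,0,(⟨0,[(27,0),(1,0)]⟩,⟨0,[(1,0)]⟩),.k,(.r 0
  ⟨0,[(2,1),(22,0)]⟩ ⟨5,[(9,1),(3,7),(1,0),(0,0),(6,7),(12,3)]⟩),.k,.k,.k,[⟨0,[(0,0)]⟩,⟨0,[(3,0)]⟩,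
  ⟨1,[(0,0),(9,0),(2,1)]⟩,⟨1,[(2,1),(0,0),(4,0),(12,1)]⟩]⟩) (.Q [0,-1,1,1,0,0,1,1,1,2,-1,-1] (.p
  false [-1,1,1] [1,0,0,-1] (⟨0,[(11,0)]⟩,⟨0,[(26,0),(2,0)]⟩) .k 2 (⟨0,[(17,0)]⟩,⟨0,[(18,0)]⟩) .k
  (.x 0 ⟨0,[(23,0),(3,0)]⟩ ⟨1,[(4,0),(19,0),(1,1),(8,1)]⟩)) (.Q [0,1,1,0,-1,0,0,0,1,0,0,-1] (.p
  false [0,0,0,1] [] (⟨0,[(19,0)]⟩,⟨0,[(18,0)]⟩) .k 0 (⟨0,[]⟩,⟨0,[]⟩) .k .k) (.K ⟨0,[0,0,0,1],0,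
  (-1),(⟨0,[(20,0)]⟩,⟨0,[(19,0)]⟩),.k,(.r 0 ⟨1,[(0,1),(3,1),(15,1),(16,0),(0,0)]⟩ ⟨5,[(11,1),(3,1),
  (1,3),(0,0),(6,1),(12,0)]⟩),(.x 0 ⟨0,[(32,0)]⟩ ⟨3,[(17,0),(0,0),(11,1),(0,3)]⟩),.k,.k,[⟨0,[(20,
  0)]⟩,⟨0,[(19,0)]⟩,⟨1,[(17,0),(2,1),(16,0),(2,1)]⟩,⟨0,[(0,0)]⟩]⟩) (.Q [0,0,0,0,0,1,0,0,0,-1,0,1]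
  (.p true [0,0,0,1] [1] (⟨0,[(20,0)]⟩,⟨0,[(19,0)]⟩) .k 1 (⟨0,[]⟩,⟨0,[]⟩) .k .k) (.R ⟨0,false,false,
  true,[1,0,0,-1],[0,1],[0,0,0,-1,0,0,0,0,-1],(⟨0,[(20,0)]⟩,⟨0,[(21,0)]⟩),(⟨0,[(33,0)]⟩,⟨0,[(32,
  0)]⟩),⟨0,[(0,0)]⟩,.k,.k,(.x (-1) ⟨3,[(18,0),(0,0),(11,1),(0,3)]⟩ ⟨0,[(33,0)]⟩),(.x (-1) ⟨3,[(18,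
  0),(0,0),(11,1),(0,3)]⟩ ⟨0,[(33,0)]⟩),.k,.k,⟨false,1,⟨1,[(5,3),(12,0),(20,0)]⟩,⟨2,[(2,2),(0,0),(3,
  1),(2,0),(5,0),(4,2),(0,0),(13,2)]⟩⟩,⟨true,0,⟨0,[(20,0)]⟩,⟨4,[(3,0),(7,1),(9,4),(4,0)]⟩⟩,⟨true,0,
  ⟨0,[(37,0)]⟩,⟨0,[(36,0)]⟩⟩,⟨false,0,⟨0,[(2,0),(19,0)]⟩,⟨2,[(1,2),(1,0),(1,1),(5,0),(25,0)]⟩⟩,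
  ⟨false,0,⟨0,[]⟩,⟨0,[]⟩⟩,⟨false,0,⟨0,[]⟩,⟨0,[]⟩⟩,[.o ⟨false,0,⟨0,[(36,0)]⟩,⟨1,[(31,0),(5,1),(1,
  0)]⟩⟩,.o ⟨false,1,⟨5,[(1,1),(0,1),(13,1),(1,0),(0,0),(11,1),(4,1)]⟩,⟨2,[(3,0),(1,1),(5,0),(25,
  0)]⟩⟩,.o ⟨false,1,⟨1,[(21,1),(9,0),(6,0)]⟩,⟨4,[(3,0),(7,1),(8,4),(5,0)]⟩⟩,.a ⟨true,0,⟨0,[(21,0)]⟩,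
  ⟨0,[(20,0)]⟩⟩ ⟨false,1,⟨1,[(5,1),(12,0),(20,0)]⟩,⟨2,[(2,2),(0,0),(3,1),(2,0),(5,0),(4,2),(0,0)]⟩⟩
  ⟨true,0,⟨0,[(20,0),(15,0)]⟩,⟨2,[(3,0),(1,1),(5,0),(9,2),(15,0)]⟩⟩]⟩) (.Q [0,1,-1,0,0,0,0,0,-1,0,0,
  1] (.p true [0,0,0,1] [] (⟨0,[(21,0)]⟩,⟨0,[(20,0)]⟩) .k 0 (⟨0,[]⟩,⟨0,[]⟩) .k .k) (.K ⟨0,[0,0,0,1],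
  0,0,(⟨0,[(22,0)]⟩,⟨0,[(21,0)]⟩),.k,(.r 0 ⟨0,[(3,0),(2,0),(1,0),(2,0),(10,0)]⟩ ⟨5,[(13,1),(3,1),(1,
  3),(0,0),(6,1),(12,0)]⟩),(.x 0 ⟨0,[(34,0)]⟩ ⟨3,[(19,0),(0,0),(11,1),(0,3)]⟩),.k,.k,[⟨0,[(22,0)]⟩,
  ⟨0,[(21,0)]⟩,⟨0,[(0,0)]⟩,⟨0,[(3,0),(7,0),(0,0),(29,0)]⟩]⟩) (.R ⟨1,false,false,true,[1,0,0,-1],[0,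
  1],[1,1,0,0,0,0,0,0,-1],(⟨0,[(21,0)]⟩,⟨0,[(22,0)]⟩),(⟨0,[(34,0)]⟩,⟨0,[(33,0)]⟩),⟨0,[(1,0)]⟩,.k,.k,
  (.x (-1) ⟨3,[(19,0),(0,0),(11,1),(0,3)]⟩ ⟨0,[(34,0)]⟩),(.x (-1) ⟨3,[(19,0),(0,0),(11,1),(0,3)]⟩
  ⟨0,[(34,0)]⟩),(.r (-1) ⟨1,[(6,1),(12,0),(18,1),(0,0)]⟩ ⟨6,[(0,5),(2,0),(0,1),(8,2),(3,3),(4,6),(4,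
  0),(9,2)]⟩),.k,⟨false,1,⟨1,[(6,1),(12,0),(19,0)]⟩,⟨0,[(0,0),(21,0),(14,0)]⟩⟩,⟨true,0,⟨0,[(21,0)]⟩,
  ⟨4,[(4,0),(7,1),(9,4),(4,0)]⟩⟩,⟨false,0,⟨0,[]⟩,⟨3,[(19,0),(0,0),(19,1)]⟩⟩,⟨false,0,⟨1,[(0,0),(2,
  0),(13,0),(24,0)]⟩,⟨2,[(2,2),(1,0),(1,1),(5,0),(25,0)]⟩⟩,⟨true,0,⟨0,[(37,0)]⟩,⟨0,[(38,0)]⟩⟩,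
  ⟨false,0,⟨0,[(0,0),(15,0),(0,0)]⟩,⟨2,[(2,2),(1,0),(1,1),(5,0),(25,3)]⟩⟩,[.o ⟨false,0,⟨0,[(37,0)]⟩,
  ⟨1,[(32,0),(5,1),(1,0)]⟩⟩,.o ⟨false,1,⟨5,[(2,1),(0,1),(13,1),(1,0),(0,0),(11,1),(4,1)]⟩,⟨2,[(4,0),
  (1,1),(5,0),(25,0)]⟩⟩,.o ⟨false,1,⟨1,[(22,1),(9,0),(6,0)]⟩,⟨4,[(4,0),(7,1),(8,4),(5,0)]⟩⟩,.a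
  ⟨true,0,⟨0,[(22,0)]⟩,⟨0,[(21,0)]⟩⟩ ⟨false,1,⟨1,[(19,0),(19,0)]⟩,⟨0,[(0,0),(21,0)]⟩⟩ ⟨true,0,⟨0,
  [(21,0),(15,0)]⟩,⟨2,[(4,0),(1,1),(5,0),(9,2),(15,0)]⟩⟩]⟩)))) (.I [0,0,-1,-1,0,0,0,0,1] (.K ⟨0,[0,
  0,0,1],0,0,(⟨0,[(20,0)]⟩,⟨0,[(19,0)]⟩),.k,(.r 0 ⟨0,[(0,0)]⟩ ⟨5,[(11,1),(3,1),(1,3),(0,0),(6,1),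
  (12,0)]⟩),(.x 0 ⟨0,[(32,0)]⟩ ⟨3,[(17,0),(0,0),(11,1),(0,3)]⟩),.k,.k,[⟨0,[(20,0)]⟩,⟨0,[(19,0)]⟩,⟨0,
  [(1,0),(12,0),(4,0),(0,0)]⟩,⟨5,[(0,5),(9,2),(0,0),(3,0),(3,5),(5,3),(9,2),(4,1)]⟩]⟩) (.Q [0,1,1,0,
  0,0,0,0,1,0,0,-1] (.p false [0,0,0,1] [] (⟨0,[(20,0)]⟩,⟨0,[(19,0)]⟩) .k 0 (⟨0,[]⟩,⟨0,[]⟩) .k .k)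
  (.K ⟨0,[0,0,0,1],0,0,(⟨0,[(21,0)]⟩,⟨0,[(20,0)]⟩),.k,(.x 0 ⟨3,[(11,1),(14,2),(0,0),(4,3)]⟩ ⟨0,[(33,
  0),(4,0)]⟩),(.x 0 ⟨0,[(33,0)]⟩ ⟨3,[(18,0),(0,0),(11,1),(0,3)]⟩),.k,.k,[⟨0,[(21,0)]⟩,⟨0,[(20,0)]⟩,
  ⟨0,[(1,0),(3,0),(15,0),(13,0)]⟩,⟨0,[(0,0)]⟩]⟩) (.Q [0,0,0,0,0,1,0,0,0,-1,0,1] (.p true [0,0,0,1]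
  [1] (⟨0,[(21,0)]⟩,⟨0,[(20,0)]⟩) .k 1 (⟨0,[]⟩,⟨0,[]⟩) .k .k) (.R ⟨0,false,false,true,[1,0,0,-1],[0,
  1],[0,1,0,0,0,0,0,0,-1],(⟨0,[(21,0)]⟩,⟨0,[(22,0)]⟩),(⟨0,[(34,0)]⟩,⟨0,[(33,0)]⟩),⟨0,[(0,0)]⟩,.k,.k,
  (.x (-1) ⟨3,[(19,0),(0,0),(11,1),(0,3)]⟩ ⟨0,[(34,0)]⟩),(.x (-1) ⟨3,[(19,0),(0,0),(11,1),(0,3)]⟩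
  ⟨0,[(34,0)]⟩),.k,.k,⟨false,0,⟨2,[(1,1),(1,0),(0,0),(1,1),(14,2),(7,0),(6,0)]⟩,⟨0,[(2,0),(17,0)]⟩⟩,
  ⟨true,0,⟨0,[(21,0)]⟩,⟨4,[(4,0),(7,1),(9,4),(4,0)]⟩⟩,⟨true,0,⟨0,[(42,0)]⟩,⟨0,[]⟩⟩,⟨false,1,⟨0,[(2,
  0),(17,0),(0,0)]⟩,⟨26,[(1,22),(1,3),(0,6),(1,14),(1,6),(9,1),(16,7)]⟩⟩,⟨false,0,⟨0,[]⟩,⟨0,[]⟩⟩,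
  ⟨false,0,⟨0,[]⟩,⟨0,[]⟩⟩,[.o ⟨false,0,⟨0,[(37,0)]⟩,⟨1,[(32,0),(5,1),(1,0)]⟩⟩,.o ⟨false,1,⟨3,[(19,
  0),(0,0),(16,3),(2,1)]⟩,⟨2,[(4,0),(1,1),(5,0),(25,0)]⟩⟩,.o ⟨false,1,⟨1,[(22,1),(9,0),(6,0)]⟩,⟨4,
  [(4,0),(7,1),(8,4),(5,0)]⟩⟩,.a ⟨true,0,⟨0,[(22,0)]⟩,⟨0,[(21,0)]⟩⟩ ⟨false,0,⟨10,[(1,6),(0,1),(0,1),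
  (0,2),(3,0),(12,8),(7,1),(6,4)]⟩,⟨3,[(2,1),(17,2),(14,1),(4,0)]⟩⟩ ⟨true,0,⟨0,[(21,0),(15,0)]⟩,⟨2,
  [(4,0),(1,1),(5,0),(9,2),(15,0)]⟩⟩]⟩) (.R ⟨1,false,false,true,[1,0,0,-1],[0,1],[0,1,0,-1,0,0,0,0,
  -1],(⟨0,[(21,0)]⟩,⟨0,[(22,0)]⟩),(⟨0,[(34,0)]⟩,⟨0,[(33,0)]⟩),⟨0,[(0,0)]⟩,.k,.k,(.x (-1) ⟨3,[(19,0),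
  (0,0),(11,1),(0,3)]⟩ ⟨0,[(34,0)]⟩),(.x (-1) ⟨3,[(19,0),(0,0),(11,1),(0,3)]⟩ ⟨0,[(34,0)]⟩),(.r 0
  ⟨26,[(1,10),(1,15),(0,0),(1,32),(1,0),(9,7),(2,26),(13,4)]⟩ ⟨3,[(2,1),(10,1),(3,1),(2,2),(6,1),
  (12,0)]⟩),.k,⟨false,0,⟨26,[(1,10),(1,15),(0,0),(1,32),(1,0),(9,7),(2,26),(13,4)]⟩,⟨1,[(7,0),(5,0),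
  (3,0),(2,0),(16,0),(2,0)]⟩⟩,⟨true,0,⟨0,[(21,0)]⟩,⟨4,[(4,0),(7,1),(9,4),(4,0)]⟩⟩,⟨false,0,⟨0,[(38,
  0)]⟩,⟨0,[(37,0),(2,0)]⟩⟩,⟨false,1,⟨0,[(2,0),(17,0),(0,0)]⟩,⟨26,[(1,22),(1,3),(0,6),(1,14),(1,6),
  (9,1),(16,7)]⟩⟩,⟨true,0,⟨0,[(42,0)]⟩,⟨0,[]⟩⟩,⟨false,1,⟨1,[(7,0),(5,0),(3,0),(2,0),(0,1),(15,0),(2,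
  0)]⟩,⟨26,[(1,16),(1,9),(0,3),(1,23),(1,3),(9,4),(16,19)]⟩⟩,[.o ⟨false,0,⟨0,[(37,0)]⟩,⟨1,[(32,0),
  (5,1),(1,0)]⟩⟩,.o ⟨false,1,⟨3,[(19,0),(0,0),(16,3),(2,1)]⟩,⟨2,[(4,0),(1,1),(5,0),(25,0)]⟩⟩,.o
  ⟨false,1,⟨1,[(22,1),(9,0),(6,0)]⟩,⟨4,[(4,0),(7,1),(8,4),(5,0)]⟩⟩,.a ⟨true,0,⟨0,[(22,0)]⟩,⟨0,[(21,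
  0)]⟩⟩ ⟨false,0,⟨26,[(1,10),(1,15),(0,0),(1,5),(1,0),(9,7),(2,26),(13,4)]⟩,⟨3,[(1,1),(2,1),(8,1),
  (3,1),(2,2),(0,1),(13,1),(4,0)]⟩⟩ ⟨true,0,⟨0,[(21,0),(15,0)]⟩,⟨2,[(4,0),(1,1),(5,0),(9,2),(15,
  0)]⟩⟩]⟩)))))))))) (.Q [0,0,-1,0,0,0,1,0,0,2,-1] (.p false [-1,1,1] [1] (⟨0,[(6,0)]⟩,⟨0,[(21,0),(2,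
  0)]⟩) .k 1 (⟨0,[]⟩,⟨0,[]⟩) .k .k) (.R ⟨0,false,false,true,[-1,1,1],[0,1],[1,1,1],(⟨0,[(7,0)]⟩,⟨0,
  [(22,0),(2,0)]⟩),(⟨0,[(26,0)]⟩,⟨0,[(25,0)]⟩),⟨0,[(22,0)]⟩,.k,.k,.k,.k,.k,.k,⟨true,0,⟨0,[(30,0)]⟩,
  ⟨0,[(1,0)]⟩⟩,⟨false,1,⟨0,[(16,0),(14,0)]⟩,⟨0,[(6,0)]⟩⟩,⟨false,0,⟨0,[(1,0),(1,0),(23,0)]⟩,⟨1,[(5,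
  0),(15,0),(9,0),(0,0)]⟩⟩,⟨true,0,⟨0,[(15,0)]⟩,⟨3,[(0,0),(9,1),(9,0)]⟩⟩,⟨false,0,⟨0,[]⟩,⟨0,[]⟩⟩,
  ⟨false,0,⟨0,[]⟩,⟨0,[]⟩⟩,[.o ⟨false,0,⟨0,[(29,0)]⟩,⟨1,[(24,0),(5,1),(1,0)]⟩⟩,.e ⟨false,0,⟨0,[]⟩,⟨3,
  [(11,0),(0,0),(18,1)]⟩⟩ ⟨false,1,⟨5,[(4,1),(0,1),(3,1),(6,1),(14,4),(0,0)]⟩,⟨0,[(3,0),(4,0),(18,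
  0)]⟩⟩,.a ⟨true,0,⟨0,[(0,0)]⟩,⟨0,[(16,0)]⟩⟩ ⟨false,0,⟨1,[(19,0),(0,0)]⟩,⟨1,[(31,0),(0,0)]⟩⟩ ⟨true,
  0,⟨1,[(4,0),(4,0),(11,0),(7,0)]⟩,⟨0,[(3,0),(4,0),(18,0)]⟩⟩,.o ⟨false,0,⟨0,[(6,0)]⟩,⟨0,[(4,0),(26,
  0)]⟩⟩]⟩) (.Q [0,0,0,0,0,0,-1,0,0,0,1] (.p true [0,0,1] [] (⟨0,[(23,0)]⟩,⟨0,[(22,0)]⟩) .k 0 (⟨0,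
  []⟩,⟨0,[]⟩) .k .k) (.R ⟨0,false,false,false,[1,0,-1],[1,-1],[1,1],(⟨0,[(23,0)]⟩,⟨0,[(24,0)]⟩),(⟨0,
  [(26,0)]⟩,⟨0,[(27,0)]⟩),⟨0,[(8,0)]⟩,.k,.k,.k,.k,.k,.k,⟨false,0,⟨0,[(30,0)]⟩,⟨1,[(31,1),(0,0),(0,
  0)]⟩⟩,⟨true,0,⟨0,[(20,0)]⟩,⟨0,[(0,0)]⟩⟩,⟨false,0,⟨0,[(22,0)]⟩,⟨2,[(4,0),(5,0),(8,0),(0,1),(12,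
  2)]⟩⟩,⟨true,0,⟨2,[(1,0),(2,0),(6,1),(16,0),(2,0)]⟩,⟨0,[(10,0)]⟩⟩,⟨false,0,⟨0,[]⟩,⟨0,[]⟩⟩,⟨false,0,
  ⟨0,[]⟩,⟨0,[]⟩⟩,[.o ⟨false,0,⟨0,[(1,0),(2,0),(4,0),(18,0)]⟩,⟨3,[(12,0),(0,0),(16,3),(2,1)]⟩⟩,.o
  ⟨false,1,⟨1,[(25,0),(5,1),(1,0)]⟩,⟨0,[(30,0)]⟩⟩,.a ⟨true,0,⟨0,[(0,0)]⟩,⟨0,[(7,0)]⟩⟩ ⟨false,0,⟨0,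
  []⟩,⟨3,[(12,0),(0,0),(19,1)]⟩⟩ ⟨true,0,⟨1,[(1,0),(2,1),(4,1),(10,0),(7,1)]⟩,⟨0,[(0,0),(29,0)]⟩⟩,
  .o ⟨false,0,⟨0,[(17,0)]⟩,⟨0,[(20,0),(11,0)]⟩⟩]⟩) (.Q [0,1,1,0,0,0,0,0,1,0,0,-1] (.p false [0,0,0,
  1] [] (⟨0,[(15,0)]⟩,⟨0,[(14,0)]⟩) .k 0 (⟨0,[]⟩,⟨0,[]⟩) .k .k) (.Q [0,1,-1,0,0,0,0,0,-1,0,0,1] (.p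
  true [0,0,0,1] [] (⟨0,[(16,0)]⟩,⟨0,[(15,0)]⟩) .k 0 (⟨0,[]⟩,⟨0,[]⟩) .k .k) (.K ⟨0,[0,0,0,1],0,0,
  (⟨0,[(17,0)]⟩,⟨0,[(16,0)]⟩),.k,(.x 0 ⟨3,[(7,1),(14,2),(0,0),(4,3)]⟩ ⟨0,[(29,0),(4,0)]⟩),(.x 0 ⟨0,
  [(29,0)]⟩ ⟨3,[(14,0),(0,0),(11,1),(0,3)]⟩),.k,.k,[⟨0,[(17,0)]⟩,⟨0,[(16,0)]⟩,⟨0,[(0,0)]⟩,⟨0,[(1,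
  0)]⟩]⟩) (.Q [0,1,1,0,-1,0,0,0,1,0,0,-1] (.p false [0,0,0,1] [] (⟨0,[(17,0)]⟩,⟨0,[(16,0)]⟩) .k 0
  (⟨0,[]⟩,⟨0,[]⟩) .k .k) (.K ⟨0,[0,0,0,1],0,(-1),(⟨0,[(18,0)]⟩,⟨0,[(17,0)]⟩),.k,(.r 0 ⟨0,[(1,0),(5,
  0),(10,0),(6,0)]⟩ ⟨5,[(9,1),(3,1),(1,3),(0,0),(6,1),(12,0)]⟩),(.x 0 ⟨0,[(30,0)]⟩ ⟨3,[(15,0),(0,0),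
  (11,1),(0,3)]⟩),.k,.k,[⟨0,[(18,0)]⟩,⟨0,[(17,0)]⟩,⟨1,[(15,0),(2,1),(16,0),(2,1)]⟩,⟨0,[(0,0)]⟩]⟩)
  (.Q [0,0,0,0,0,-1,0,0,0,1,0,-1] (.p false [0,0,0,1] [1] (⟨0,[(18,0)]⟩,⟨0,[(17,0)]⟩) .k 1 (⟨0,[]⟩,
  ⟨0,[]⟩) .k .k) (.R ⟨1,false,false,true,[1,0,0,-1],[0,1],[1,1,0,0,0,0,0,0,-1],(⟨0,[(18,0)]⟩,⟨0,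
  [(19,0)]⟩),(⟨0,[(31,0)]⟩,⟨0,[(30,0)]⟩),⟨0,[(0,0)]⟩,.k,.k,(.x (-1) ⟨3,[(16,0),(0,0),(11,1),(0,3)]⟩
  ⟨0,[(31,0)]⟩),(.x (-1) ⟨3,[(16,0),(0,0),(11,1),(0,3)]⟩ ⟨0,[(31,0)]⟩),(.r (-1) ⟨1,[(8,1),(7,0),(9,
  1),(8,1),(1,0)]⟩ ⟨1,[(2,1),(1,0),(5,0),(3,0),(4,1),(14,0)]⟩),.k,⟨false,1,⟨1,[(8,1),(7,0),(9,1),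
  (10,0)]⟩,⟨0,[(2,0),(16,0),(14,0)]⟩⟩,⟨true,0,⟨0,[(18,0)]⟩,⟨1,[(4,0),(4,0),(9,1)]⟩⟩,⟨false,0,⟨0,[]⟩,
  ⟨3,[(16,0),(0,0),(19,1)]⟩⟩,⟨false,0,⟨3,[(2,2),(0,0),(9,1),(0,1),(3,1),(0,1)]⟩,⟨1,[(1,1),(2,0),(0,
  0),(2,0),(17,0),(5,0)]⟩⟩,⟨true,0,⟨0,[(34,0)]⟩,⟨0,[(35,0)]⟩⟩,⟨false,0,⟨0,[(2,0),(10,0),(0,0)]⟩,⟨2,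
  [(1,2),(3,1),(2,1),(6,0),(16,1),(2,1)]⟩⟩,[.o ⟨false,0,⟨0,[(34,0)]⟩,⟨1,[(29,0),(5,1),(1,0)]⟩⟩,.o
  ⟨false,1,⟨3,[(16,0),(0,0),(16,3),(2,1)]⟩,⟨1,[(4,0),(0,0),(2,0),(17,0),(5,0)]⟩⟩,.o ⟨false,1,⟨1,
  [(19,1),(9,0),(6,0)]⟩,⟨1,[(4,0),(4,0),(8,1)]⟩⟩,.a ⟨true,0,⟨0,[(19,0)]⟩,⟨0,[(18,0)]⟩⟩ ⟨false,1,⟨1,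
  [(16,0),(19,0)]⟩,⟨0,[(2,0),(16,0)]⟩⟩ ⟨true,0,⟨0,[(18,0),(15,0)]⟩,⟨1,[(4,0),(0,0),(2,0),(10,1),(6,
  0),(5,0)]⟩⟩]⟩) (.R ⟨0,false,false,true,[1,0,0,-1],[0,1],[0,1,0,0,0,0,0,0,-1],(⟨0,[(18,0)]⟩,⟨0,
  [(19,0)]⟩),(⟨0,[(31,0)]⟩,⟨0,[(30,0)]⟩),⟨0,[(0,0)]⟩,.k,.k,(.x (-1) ⟨3,[(16,0),(0,0),(11,1),(0,3)]⟩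
  ⟨0,[(31,0)]⟩),(.x (-1) ⟨3,[(16,0),(0,0),(11,1),(0,3)]⟩ ⟨0,[(31,0)]⟩),.k,.k,⟨false,1,⟨1,[(8,1),(7,
  0),(9,1),(10,0)]⟩,⟨0,[(2,0),(16,0),(14,0)]⟩⟩,⟨true,0,⟨0,[(18,0)]⟩,⟨1,[(4,0),(4,0),(9,1)]⟩⟩,⟨true,
  0,⟨0,[(39,0)]⟩,⟨0,[]⟩⟩,⟨false,0,⟨3,[(2,2),(0,0),(9,1),(0,1),(3,1),(0,1)]⟩,⟨1,[(1,1),(2,0),(0,0),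
  (2,0),(17,0),(5,0)]⟩⟩,⟨false,0,⟨0,[]⟩,⟨0,[]⟩⟩,⟨false,0,⟨0,[]⟩,⟨0,[]⟩⟩,[.o ⟨false,0,⟨0,[(34,0)]⟩,
  ⟨1,[(29,0),(5,1),(1,0)]⟩⟩,.o ⟨false,1,⟨3,[(16,0),(0,0),(16,3),(2,1)]⟩,⟨1,[(4,0),(0,0),(2,0),(17,
  0),(5,0)]⟩⟩,.o ⟨false,1,⟨1,[(19,1),(9,0),(6,0)]⟩,⟨1,[(4,0),(4,0),(8,1)]⟩⟩,.a ⟨true,0,⟨0,[(19,0)]⟩,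
  ⟨0,[(18,0)]⟩⟩ ⟨false,1,⟨1,[(16,0),(19,0)]⟩,⟨0,[(2,0),(16,0)]⟩⟩ ⟨true,0,⟨0,[(18,0),(15,0)]⟩,⟨1,[(4,
  0),(0,0),(2,0),(10,1),(6,0),(5,0)]⟩⟩]⟩)))) (.Q [0,0,0,0,0,1,0,0,0,-1,0,1] (.p true [0,0,0,1] [1]
  (⟨0,[(16,0)]⟩,⟨0,[(15,0)]⟩) .k 1 (⟨0,[]⟩,⟨0,[]⟩) .k .k) (.R ⟨0,false,false,true,[1,0,0,-1],[0,1],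
  [0,1,0,0,0,0,0,0,-1],(⟨0,[(16,0)]⟩,⟨0,[(17,0)]⟩),(⟨0,[(29,0)]⟩,⟨0,[(28,0)]⟩),⟨0,[(0,0)]⟩,.k,.k,
  (.x (-1) ⟨3,[(14,0),(0,0),(11,1),(0,3)]⟩ ⟨0,[(29,0)]⟩),(.x (-1) ⟨3,[(14,0),(0,0),(11,1),(0,3)]⟩
  ⟨0,[(29,0)]⟩),.k,.k,⟨false,0,⟨4,[(1,4),(1,2),(2,3),(6,0),(2,4),(3,0),(3,0),(8,0)]⟩,⟨5,[(8,1),(3,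
  1),(1,0),(0,3),(6,1),(12,0)]⟩⟩,⟨true,0,⟨0,[(16,0)]⟩,⟨1,[(2,0),(4,0),(9,1)]⟩⟩,⟨true,0,⟨0,[(37,0)]⟩,
  ⟨0,[]⟩⟩,⟨false,1,⟨5,[(8,1),(3,1),(1,0),(0,3),(0,5),(5,1),(12,0)]⟩,⟨1,[(1,1),(0,0),(0,0),(2,0),(17,
  0),(5,0)]⟩⟩,⟨false,0,⟨0,[]⟩,⟨0,[]⟩⟩,⟨false,0,⟨0,[]⟩,⟨0,[]⟩⟩,[.o ⟨false,0,⟨0,[(32,0)]⟩,⟨1,[(27,0),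
  (5,1),(1,0)]⟩⟩,.o ⟨false,1,⟨3,[(14,0),(0,0),(16,3),(2,1)]⟩,⟨1,[(2,0),(0,0),(2,0),(17,0),(5,0)]⟩⟩,
  .o ⟨false,1,⟨1,[(17,1),(9,0),(6,0)]⟩,⟨1,[(2,0),(4,0),(8,1)]⟩⟩,.a ⟨true,0,⟨0,[(17,0)]⟩,⟨0,[(16,
  0)]⟩⟩ ⟨false,0,⟨4,[(1,4),(0,0),(0,1),(2,0),(9,4),(1,0),(1,1),(11,0)]⟩,⟨1,[(15,0),(6,0),(0,0),(11,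
  0)]⟩⟩ ⟨true,0,⟨0,[(16,0),(15,0)]⟩,⟨1,[(2,0),(0,0),(2,0),(10,1),(6,0),(5,0)]⟩⟩]⟩) (.R ⟨1,false,
  false,true,[1,0,0,-1],[0,1],[0,1,0,-1,0,0,0,0,-1],(⟨0,[(16,0)]⟩,⟨0,[(17,0)]⟩),(⟨0,[(29,0)]⟩,⟨0,
  [(28,0)]⟩),⟨0,[(0,0)]⟩,.k,.k,(.x (-1) ⟨3,[(14,0),(0,0),(11,1),(0,3)]⟩ ⟨0,[(29,0)]⟩),(.x (-1) ⟨3,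
  [(14,0),(0,0),(11,1),(0,3)]⟩ ⟨0,[(29,0)]⟩),(.r 0 ⟨4,[(1,4),(1,2),(2,3),(6,0),(2,4),(3,0),(3,0),(8,
  5)]⟩ ⟨11,[(8,7),(3,7),(1,0),(0,6),(6,7),(12,3)]⟩),.k,⟨false,0,⟨4,[(1,4),(1,2),(2,3),(6,0),(2,4),
  (3,0),(3,0),(8,5)]⟩,⟨1,[(2,0),(5,0),(3,0),(2,0),(16,0),(2,0)]⟩⟩,⟨true,0,⟨0,[(16,0)]⟩,⟨1,[(2,0),(4,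
  0),(9,1)]⟩⟩,⟨false,0,⟨0,[(33,0)]⟩,⟨0,[(32,0),(2,0)]⟩⟩,⟨false,1,⟨5,[(8,1),(3,1),(1,0),(0,3),(0,5),
  (5,1),(12,0)]⟩,⟨1,[(1,1),(0,0),(0,0),(2,0),(17,0),(5,0)]⟩⟩,⟨true,0,⟨0,[(37,0)]⟩,⟨0,[]⟩⟩,⟨false,1,
  ⟨1,[(2,0),(5,0),(3,0),(2,0),(0,1),(15,0),(2,0)]⟩,⟨2,[(1,2),(1,1),(2,1),(6,0),(16,1),(2,1)]⟩⟩,[.o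
  ⟨false,0,⟨0,[(32,0)]⟩,⟨1,[(27,0),(5,1),(1,0)]⟩⟩,.o ⟨false,1,⟨3,[(14,0),(0,0),(16,3),(2,1)]⟩,⟨1,
  [(2,0),(0,0),(2,0),(17,0),(5,0)]⟩⟩,.o ⟨false,1,⟨1,[(17,1),(9,0),(6,0)]⟩,⟨1,[(2,0),(4,0),(8,1)]⟩⟩,
  .a ⟨true,0,⟨0,[(17,0)]⟩,⟨0,[(16,0)]⟩⟩ ⟨false,0,⟨1,[(1,1),(4,0),(0,0),(8,1),(3,0),(12,0)]⟩,⟨1,[(4,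
  1),(10,0),(19,0)]⟩⟩ ⟨true,0,⟨0,[(16,0),(15,0)]⟩,⟨1,[(2,0),(0,0),(2,0),(10,1),(6,0),(5,
  0)]⟩⟩]⟩)))))))

theorem ok19 : chk (cU (-1) true 3) t19 r10 = true := by decide +kernel

noncomputable def t22 : Tre :=
  (.Q [0,0,0,1,0,0,0,0,0,1] (.pp false [-1,1]) (.R ⟨2,true,false,false,[0,1],[1,-1],[0,1],(⟨0,[]⟩,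
  ⟨0,[]⟩),(⟨0,[(21,0)]⟩,⟨0,[(22,0)]⟩),⟨0,[]⟩,.k,.k,.k,(.r (-1) ⟨0,[(0,1),(14,0),(0,0),(3,0)]⟩ ⟨0,
  [(1,0),(15,0)]⟩),.k,.k,⟨false,0,⟨0,[(25,0)]⟩,⟨1,[(26,1),(0,0),(0,0)]⟩⟩,⟨true,0,⟨0,[(12,0),(2,0)]⟩,
  ⟨1,[(0,1),(0,0),(15,0)]⟩⟩,⟨false,0,⟨1,[(1,0),(15,0)]⟩,⟨1,[(0,1),(14,0),(0,0),(3,0),(7,0)]⟩⟩,⟨true,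
  0,⟨1,[(1,1),(4,0),(5,2),(2,0)]⟩,⟨0,[(0,0),(24,0)]⟩⟩,⟨true,0,⟨0,[(24,0)]⟩,⟨1,[(15,0),(0,0)]⟩⟩,
  ⟨false,1,⟨1,[(20,0),(5,1),(1,0)]⟩,⟨0,[(0,0)]⟩⟩,[]⟩) (.Q [0,0,0,0,0,0,-1,0,0,0,1] (.p true [0,0,1]
  [] (⟨0,[(19,0)]⟩,⟨0,[(18,0)]⟩) .k 0 (⟨0,[]⟩,⟨0,[]⟩) .k .k) (.R ⟨0,false,false,false,[1,0,-1],[1,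
  -1],[1,1],(⟨0,[(19,0)]⟩,⟨0,[(20,0)]⟩),(⟨0,[(22,0)]⟩,⟨0,[(23,0)]⟩),⟨0,[(4,0)]⟩,.k,.k,.k,.k,.k,.k,
  ⟨false,0,⟨0,[(26,0)]⟩,⟨1,[(27,1),(0,0),(0,0)]⟩⟩,⟨true,0,⟨0,[(16,0)]⟩,⟨0,[(0,0)]⟩⟩,⟨false,0,⟨0,
  [(18,0)]⟩,⟨11,[(2,3),(3,7),(1,0),(0,0),(6,7),(12,9)]⟩⟩,⟨true,0,⟨1,[(1,0),(5,0),(19,0)]⟩,⟨0,[(6,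
  0)]⟩⟩,⟨false,0,⟨0,[]⟩,⟨0,[]⟩⟩,⟨false,0,⟨0,[]⟩,⟨0,[]⟩⟩,[.o ⟨false,0,⟨0,[(1,0)]⟩,⟨3,[(8,0),(0,0),
  (16,3),(2,1)]⟩⟩,.o ⟨false,1,⟨3,[(1,3),(6,0),(0,0),(19,1)]⟩,⟨0,[(26,0)]⟩⟩,.a ⟨true,0,⟨0,[(0,0)]⟩,
  ⟨0,[(3,0)]⟩⟩ ⟨false,0,⟨0,[]⟩,⟨3,[(8,0),(0,0),(19,1)]⟩⟩ ⟨true,0,⟨7,[(1,0),(0,2),(4,0),(6,0),(1,4),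
  (7,0)]⟩,⟨0,[(0,0),(25,0)]⟩⟩,.o ⟨false,0,⟨0,[(13,0)]⟩,⟨0,[(16,0),(11,0)]⟩⟩]⟩) (.R ⟨0,false,false,
  true,[-1,1,1],[0,1],[1,1,1,1,0,0,0,1],(⟨0,[(4,0)]⟩,⟨0,[(19,0),(2,0)]⟩),(⟨0,[(23,0)]⟩,⟨0,[(22,
  0)]⟩),⟨0,[(19,0)]⟩,.k,.k,.k,.k,.k,.k,⟨true,0,⟨0,[(18,0)]⟩,⟨0,[(0,0),(5,0),(17,0)]⟩⟩,⟨false,1,⟨0,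
  [(13,0),(14,0)]⟩,⟨0,[(3,0)]⟩⟩,⟨false,0,⟨0,[]⟩,⟨3,[(8,0),(0,0),(19,1)]⟩⟩,⟨true,0,⟨0,[(12,0)]⟩,⟨1,
  [(7,0),(2,0),(0,0)]⟩⟩,⟨false,0,⟨0,[]⟩,⟨0,[]⟩⟩,⟨false,0,⟨0,[]⟩,⟨0,[]⟩⟩,[.o ⟨false,0,⟨0,[(26,0)]⟩,
  ⟨3,[(1,3),(6,0),(0,0),(19,1)]⟩⟩,.o ⟨false,1,⟨3,[(8,0),(0,0),(16,3),(2,1)]⟩,⟨0,[(1,0)]⟩⟩,.a ⟨true,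
  0,⟨0,[(2,0),(2,1),(0,0),(17,0)]⟩,⟨0,[(13,0)]⟩⟩ ⟨false,0,⟨0,[(5,0),(7,0)]⟩,⟨5,[(2,3),(3,1),(1,0),
  (0,0),(6,1),(12,3)]⟩⟩ ⟨true,0,⟨0,[(13,0),(12,0)]⟩,⟨3,[(2,1),(0,1),(3,0),(2,0),(0,0)]⟩⟩,.o ⟨false,
  0,⟨0,[(3,0)]⟩,⟨1,[(13,1),(7,0),(6,0)]⟩⟩]⟩)))

theorem ok22 : chk (cU (-1) true 3) t22 r8 = true := by decide +kernel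

noncomputable def t27 : Tre :=
  (.Q [0,0,0,0,0,0,-1,-1,0,0,1] (.p true [0,0,1] [] (⟨0,[(15,0)]⟩,⟨0,[(14,0)]⟩) .k 0 (⟨0,[]⟩,⟨0,
  []⟩) .k .k) (.R ⟨2,true,false,false,[0,1],[0,0,1],[0,1,1],(⟨0,[]⟩,⟨0,[]⟩),(⟨0,[(16,0)]⟩,⟨0,[(15,
  0)]⟩),⟨0,[]⟩,.k,.k,.k,.k,.k,.k,⟨false,0,⟨0,[(0,0),(11,0),(8,0)]⟩,⟨1,[(14,1),(9,0),(0,0)]⟩⟩,⟨true,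
  0,⟨0,[(12,0)]⟩,⟨0,[(0,0),(13,0)]⟩⟩,⟨false,0,⟨0,[(23,0)]⟩,⟨0,[(22,0),(2,0)]⟩⟩,⟨true,0,⟨0,[(1,0),(1,
  0)]⟩,⟨0,[(2,0)]⟩⟩,⟨true,0,⟨0,[(27,0)]⟩,⟨0,[]⟩⟩,⟨false,1,⟨7,[(3,3),(0,0),(0,0),(11,1),(7,3)]⟩,⟨0,
  [(0,0)]⟩⟩,[]⟩) (.Q [0,0,0,0,0,0,1,0,0,1,-1] (.p false [0,0,1] [1] (⟨0,[(16,0)]⟩,⟨0,[(15,0)]⟩) .k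
  1 (⟨0,[]⟩,⟨0,[]⟩) .k .k) (.R ⟨2,true,false,true,[0,1],[1,0,-1],[1,0,1,1],(⟨0,[]⟩,⟨0,[]⟩),(⟨0,[(16,
  0)]⟩,⟨0,[(17,0)]⟩),⟨0,[]⟩,.k,.k,.k,.k,.k,.k,⟨false,1,⟨0,[(15,0),(7,0),(2,0)]⟩,⟨0,[(0,0),(1,0),(19,
  0)]⟩⟩,⟨true,0,⟨0,[(10,0)]⟩,⟨0,[(0,0)]⟩⟩,⟨true,0,⟨0,[]⟩,⟨0,[(28,0)]⟩⟩,⟨false,0,⟨0,[(2,0)]⟩,⟨0,[(3,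
  0),(0,0),(21,0)]⟩⟩,⟨false,1,⟨0,[(23,0),(2,0)]⟩,⟨0,[(24,0)]⟩⟩,⟨true,0,⟨0,[(9,0)]⟩,⟨1,[(4,0),(2,0),
  (0,0)]⟩⟩,[]⟩) (.I [1,-1,1,1,0,0,0,1] (.R ⟨2,true,false,true,[0,1],[1,0,-1],[1,0,1,1],(⟨0,[]⟩,⟨0,
  []⟩),(⟨0,[(17,0)]⟩,⟨0,[(18,0)]⟩),⟨0,[]⟩,.k,.k,.k,.k,.k,.k,⟨true,0,⟨0,[(0,0)]⟩,⟨0,[(3,0),(4,0),(0,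
  0),(4,0),(8,0)]⟩⟩,⟨false,0,⟨0,[(1,0)]⟩,⟨0,[(8,0),(0,0),(4,0),(11,0)]⟩⟩,⟨true,0,⟨0,[]⟩,⟨0,[(29,
  0)]⟩⟩,⟨false,0,⟨0,[(3,0)]⟩,⟨0,[(4,0),(0,0),(21,0)]⟩⟩,⟨false,1,⟨0,[(24,0),(2,0)]⟩,⟨0,[(25,0)]⟩⟩,
  ⟨true,0,⟨0,[(10,0)]⟩,⟨1,[(5,0),(2,0),(0,0)]⟩⟩,[]⟩) (.Q [0,0,0,0,0,1,0,0,0,-1,1] (.ed false [0,1,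
  1] .k) (.Q [0,0,0,0,0,0,1,0,0,2,-1] (.p false [-1,1,1] [1] (⟨0,[(0,0)]⟩,⟨0,[(18,0),(2,0)]⟩) .k 1
  (⟨0,[]⟩,⟨0,[]⟩) .k .k) (.R ⟨0,false,false,false,[-1,1,1],[0,0,1],[0,1,1,0,0,0,0,1],(⟨0,[(1,0)]⟩,
  ⟨0,[(19,0),(2,0)]⟩),(⟨0,[(20,0)]⟩,⟨0,[(19,0)]⟩),⟨0,[(19,0)]⟩,.k,.k,.k,.k,.k,.k,⟨false,0,⟨0,[(31,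
  0)]⟩,⟨1,[(28,0),(0,0)]⟩⟩,⟨true,0,⟨0,[(3,0),(12,0)]⟩,⟨0,[(10,0),(0,0)]⟩⟩,⟨false,0,⟨0,[(27,0)]⟩,⟨0,
  [(26,0),(2,0)]⟩⟩,⟨true,0,⟨0,[(4,0),(0,0)]⟩,⟨2,[(0,0),(5,2),(0,0),(10,0)]⟩⟩,⟨false,0,⟨0,[]⟩,⟨0,
  []⟩⟩,⟨false,0,⟨0,[]⟩,⟨0,[]⟩⟩,[.o ⟨false,0,⟨0,[(4,0)]⟩,⟨3,[(5,1),(0,1),(1,0),(0,0),(11,0),(7,0)]⟩⟩,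
  .o ⟨false,1,⟨7,[(7,3),(0,0),(0,0),(11,1),(7,3)]⟩,⟨0,[(12,0)]⟩⟩,.o ⟨false,1,⟨1,[(0,1),(20,0),(6,
  0)]⟩,⟨0,[(3,1),(12,0)]⟩⟩,.a ⟨true,0,⟨0,[(0,0)]⟩,⟨0,[(3,0)]⟩⟩ ⟨false,0,⟨0,[(18,0)]⟩,⟨1,[(2,0),(3,
  0),(9,0),(12,1)]⟩⟩ ⟨true,0,⟨0,[(3,0),(0,0)]⟩,⟨3,[(0,1),(1,0),(3,0),(8,1),(0,0)]⟩⟩]⟩) (.I [0,-1,1,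
  0,0,0,0,1] (.R ⟨2,true,false,true,[0,1],[1,0,-1],[0,0,1],(⟨0,[]⟩,⟨0,[]⟩),(⟨0,[(20,0)]⟩,⟨0,[(21,
  0)]⟩),⟨0,[]⟩,.k,.k,.k,.k,.k,.k,⟨true,0,⟨0,[(0,0)]⟩,⟨1,[(3,0),(3,0),(9,0)]⟩⟩,⟨false,0,⟨0,[(4,0)]⟩,
  ⟨0,[(3,0),(3,0),(0,0),(21,0)]⟩⟩,⟨true,0,⟨0,[(28,0)]⟩,⟨0,[(27,0)]⟩⟩,⟨false,0,⟨0,[(6,0)]⟩,⟨0,[(7,0),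
  (0,0),(21,0)]⟩⟩,⟨false,1,⟨3,[(9,0),(0,0),(19,1)]⟩,⟨0,[]⟩⟩,⟨true,0,⟨0,[(13,0)]⟩,⟨1,[(8,0),(2,0),(0,
  0)]⟩⟩,[]⟩) (.I [0,1,1,0,-1,0,0,0,-1] (.Q [0,1,1,0,0,0,0,0,1,0,0,-1] (.p false [0,0,0,1] [] (⟨0,
  [(13,0)]⟩,⟨0,[(12,0)]⟩) .k 0 (⟨0,[]⟩,⟨0,[]⟩) .k .k) (.K ⟨0,[0,0,0,1],0,0,(⟨0,[(14,0)]⟩,⟨0,[(13,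
  0)]⟩),.k,(.r (-1) ⟨1,[(12,0),(17,1),(0,0)]⟩ ⟨0,[(1,0),(27,0),(2,0)]⟩),(.x 0 ⟨0,[(26,0)]⟩ ⟨3,[(11,
  0),(0,0),(11,1),(0,3)]⟩),.k,.k,[⟨0,[(14,0)]⟩,⟨0,[(13,0)]⟩,⟨0,[(1,0),(12,0),(16,0)]⟩,⟨0,[(0,
  0)]⟩]⟩) (.Q [0,0,0,0,0,1,0,0,0,-1,0,1] (.p true [0,0,0,1] [1] (⟨0,[(14,0)]⟩,⟨0,[(13,0)]⟩) .k 1
  (⟨0,[]⟩,⟨0,[]⟩) .k .k) (.R ⟨0,false,false,true,[1,0,0,-1],[0,1],[0,1,0,0,0,0,0,0,-1],(⟨0,[(14,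
  0)]⟩,⟨0,[(15,0)]⟩),(⟨0,[(27,0)]⟩,⟨0,[(26,0)]⟩),⟨0,[(0,0)]⟩,.k,.k,(.x (-1) ⟨3,[(12,0),(0,0),(11,1),
  (0,3)]⟩ ⟨0,[(27,0)]⟩),(.x (-1) ⟨3,[(12,0),(0,0),(11,1),(0,3)]⟩ ⟨0,[(27,0)]⟩),.k,.k,⟨false,0,⟨2,
  [(1,2),(2,1),(1,1),(4,0),(2,2),(14,0),(1,0)]⟩,⟨1,[(13,0),(6,0),(0,0),(8,1),(2,0)]⟩⟩,⟨true,0,⟨0,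
  [(14,0)]⟩,⟨2,[(4,0),(10,2),(1,0),(2,1)]⟩⟩,⟨true,0,⟨0,[(35,0)]⟩,⟨0,[]⟩⟩,⟨false,1,⟨1,[(13,0),(0,1),
  (5,0),(0,0),(8,1),(2,0)]⟩,⟨1,[(1,1),(2,0),(1,0),(1,0),(19,0)]⟩⟩,⟨false,0,⟨0,[]⟩,⟨0,[]⟩⟩,⟨false,0,
  ⟨0,[]⟩,⟨0,[]⟩⟩,[.o ⟨false,0,⟨0,[(30,0)]⟩,⟨1,[(25,0),(5,1),(1,0)]⟩⟩,.o ⟨false,1,⟨3,[(12,0),(0,0),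
  (16,3),(2,1)]⟩,⟨1,[(4,0),(1,0),(1,0),(19,0)]⟩⟩,.o ⟨false,1,⟨1,[(15,1),(9,0),(6,0)]⟩,⟨2,[(4,0),(9,
  2),(2,0),(2,1)]⟩⟩,.a ⟨true,0,⟨0,[(15,0)]⟩,⟨0,[(14,0)]⟩⟩ ⟨false,0,⟨13,[(1,7),(0,3),(0,3),(0,3),(3,
  3),(3,0),(1,7),(17,2)]⟩,⟨1,[(13,0),(6,0),(0,0),(11,0)]⟩⟩ ⟨true,0,⟨0,[(14,0),(15,0)]⟩,⟨1,[(4,0),(1,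
  0),(1,0),(6,1),(12,0)]⟩⟩]⟩) (.R ⟨1,true,false,true,[1,0,0,-1],[0,0,1],[0,1,0,-1,0,0,0,0,-1],(⟨0,
  [(14,0)]⟩,⟨0,[(15,0)]⟩),(⟨0,[(24,0)]⟩,⟨0,[(23,0)]⟩),⟨0,[(0,0)]⟩,.k,.k,(.x (-1) ⟨3,[(12,0),(0,0),
  (11,1),(0,3)]⟩ ⟨0,[(27,0)]⟩),.k,(.r 0 ⟨6,[(1,5),(0,0),(1,0),(1,4),(2,1),(4,5),(5,2),(4,0)]⟩ ⟨1,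
  [(11,0),(1,0),(3,0),(3,0),(8,1),(2,0)]⟩),.k,⟨false,0,⟨6,[(1,5),(0,0),(1,0),(1,4),(2,1),(4,5),(5,
  2),(4,0)]⟩,⟨1,[(13,0),(8,1),(7,1),(2,0)]⟩⟩,⟨true,0,⟨0,[(14,0),(5,0)]⟩,⟨0,[(7,0),(7,0)]⟩⟩,⟨false,0,
  ⟨0,[(31,0)]⟩,⟨0,[(30,0),(2,0)]⟩⟩,⟨true,0,⟨0,[(2,0),(5,0),(4,0),(0,0)]⟩,⟨0,[(1,0),(14,0)]⟩⟩,⟨true,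
  0,⟨0,[(35,0)]⟩,⟨0,[]⟩⟩,⟨false,1,⟨1,[(11,0),(1,0),(0,1),(2,0),(2,0),(9,1),(2,0)]⟩,⟨0,[(1,0),(7,
  0)]⟩⟩,[]⟩))) (.Q [0,1,1,0,-1,0,0,0,1,0,0,-1] (.p false [0,0,0,1] [] (⟨0,[(13,0)]⟩,⟨0,[(12,0)]⟩)
  .k 0 (⟨0,[]⟩,⟨0,[]⟩) .k .k) (.I [0,0,-2,-2,0,0,0,1] (.K ⟨0,[0,0,0,1],0,(-1),(⟨0,[(15,0)]⟩,⟨0,[(14,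
  0)]⟩),.k,(.r 0 ⟨3,[(0,1),(0,2),(0,0),(0,1),(11,2),(17,1)]⟩ ⟨1,[(12,0),(7,0),(0,0),(8,1),(2,0)]⟩),
  (.x 0 ⟨0,[(27,0)]⟩ ⟨3,[(12,0),(0,0),(11,1),(0,3)]⟩),.k,.k,[⟨0,[(15,0)]⟩,⟨0,[(14,0)]⟩,⟨1,[(12,0),
  (2,1),(16,0),(2,1)]⟩,⟨0,[(1,0)]⟩]⟩) (.Q [0,0,0,0,0,1,0,0,0,0,-1] (.ed true [1,-1,1] .k) (.K ⟨2,[1,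
  -1,1],0,0,(⟨0,[(25,0),(1,0)]⟩,⟨0,[(0,0)]⟩),.k,(.x 0 ⟨0,[(5,0),(15,1),(3,0),(1,1)]⟩ ⟨0,[(8,0),(15,
  0),(3,1),(4,0)]⟩),.k,.k,.k,[⟨1,[(5,0),(1,0),(1,0),(19,0)]⟩,⟨0,[(11,0),(3,0),(0,0)]⟩,⟨0,[(8,0),(6,
  1),(0,1)]⟩,⟨2,[(5,0),(12,0),(2,4)]⟩]⟩) (.K ⟨0,[0,0,0,1],0,(-1),(⟨0,[(16,0)]⟩,⟨0,[(15,0)]⟩),.k,(.x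
  0 ⟨0,[(18,0),(2,0),(5,0)]⟩ ⟨0,[(28,0),(4,0)]⟩),(.x 0 ⟨0,[(28,0)]⟩ ⟨3,[(13,0),(0,0),(11,1),(0,
  3)]⟩),.k,.k,[⟨0,[(16,0)]⟩,⟨0,[(15,0)]⟩,⟨1,[(13,0),(2,1),(16,0),(2,1)]⟩,⟨0,[(2,0)]⟩]⟩))) (.Q [0,0,
  0,0,0,1,0,0,0,0,-1] (.ed true [1,-1,1] .k) (.I [0,0,-2,-2,0,0,0,1] (.K ⟨2,[1,-1,1],0,0,(⟨0,[(25,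
  0),(1,0)]⟩,⟨0,[(1,0)]⟩),.k,(.r 0 ⟨0,[(0,0)]⟩ ⟨1,[(11,1),(9,2),(0,0),(8,1),(2,1)]⟩),.k,.k,.k,[⟨2,
  [(0,0),(4,0),(4,0),(10,1)]⟩,⟨0,[(11,0),(3,0),(0,0)]⟩,⟨0,[(8,0),(6,1),(0,1)]⟩,⟨2,[(5,0),(12,0),(2,
  4)]⟩]⟩) (.K ⟨2,[1,-1,1],0,0,(⟨0,[(25,0),(1,0)]⟩,⟨0,[(1,0)]⟩),.k,(.x 0 ⟨0,[(5,0),(15,1),(3,0),(1,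
  1)]⟩ ⟨0,[(8,0),(15,0),(3,1),(4,0)]⟩),.k,.k,.k,[⟨1,[(5,0),(1,0),(1,0),(19,0)]⟩,⟨0,[(11,0),(3,0),(0,
  0)]⟩,⟨0,[(8,0),(6,1),(0,1)]⟩,⟨2,[(5,0),(12,0),(2,4)]⟩]⟩)) (.I [0,0,-2,-2,0,0,0,1] (.K ⟨2,[0,-1,1],
  0,0,(⟨0,[(1,0)]⟩,⟨0,[(24,0),(3,0)]⟩),.k,(.r 0 ⟨0,[(0,0)]⟩ ⟨1,[(11,1),(9,2),(0,0),(8,1),(2,1)]⟩),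
  .k,.k,.k,[⟨0,[(32,0)]⟩,⟨0,[(11,0)]⟩,⟨0,[(8,0),(6,0),(0,0)]⟩,⟨1,[(21,2),(0,0)]⟩]⟩) (.K ⟨2,[0,-1,1],
  0,0,(⟨0,[(1,0)]⟩,⟨0,[(24,0),(3,0)]⟩),.k,(.x 0 ⟨2,[(1,2),(3,0),(12,0),(2,4),(5,2)]⟩ ⟨0,[(8,0),(15,
  0),(3,1),(4,0)]⟩),.k,.k,.k,[⟨0,[(32,0)]⟩,⟨0,[(11,0)]⟩,⟨0,[(8,0),(6,0),(0,0)]⟩,⟨1,[(21,2),(0,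
  0)]⟩]⟩))))))) (.I [0,-1,1,0,0,0,0,1] (.R ⟨2,true,false,true,[0,1],[1,0,-1],[0,0,1],(⟨0,[]⟩,⟨0,
  []⟩),(⟨0,[(19,0)]⟩,⟨0,[(20,0)]⟩),⟨0,[]⟩,.k,.k,.k,.k,.k,.k,⟨true,0,⟨0,[(0,0)]⟩,⟨1,[(2,0),(3,0),(9,
  0)]⟩⟩,⟨false,0,⟨0,[(3,0)]⟩,⟨0,[(2,0),(3,0),(0,0),(21,0)]⟩⟩,⟨true,0,⟨0,[(27,0)]⟩,⟨0,[(26,0)]⟩⟩,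
  ⟨false,0,⟨0,[(5,0)]⟩,⟨0,[(6,0),(0,0),(21,0)]⟩⟩,⟨false,1,⟨3,[(8,0),(0,0),(19,1)]⟩,⟨0,[]⟩⟩,⟨true,0,
  ⟨0,[(12,0)]⟩,⟨1,[(7,0),(2,0),(0,0)]⟩⟩,[]⟩) (.Q [0,0,0,0,0,1,0,0,0,0,-1] (.ed true [1,-1,1] .k)
  (.I [0,0,-2,-2,0,0,0,1] (.K ⟨2,[1,-1,1],0,0,(⟨0,[(22,0),(1,0)]⟩,⟨0,[(1,0)]⟩),.k,(.r 0 ⟨0,[(0,0)]⟩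
  ⟨1,[(8,1),(9,2),(0,0),(8,1),(2,1)]⟩),.k,.k,.k,[⟨0,[(6,0),(0,0)]⟩,⟨0,[(8,0),(3,0),(0,0)]⟩,⟨0,[(5,
  0),(6,1),(0,1)]⟩,⟨0,[(5,0),(12,1)]⟩]⟩) (.K ⟨2,[1,-1,1],0,0,(⟨0,[(22,0),(1,0)]⟩,⟨0,[(1,0)]⟩),.k,
  (.x 0 ⟨0,[(0,0),(5,2),(0,1),(14,0),(1,1)]⟩ ⟨0,[(5,0),(15,0),(3,1),(4,0)]⟩),.k,.k,.k,[⟨0,[(6,0),(0,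
  0)]⟩,⟨0,[(8,0),(3,0),(0,0)]⟩,⟨0,[(5,0),(6,1),(0,1)]⟩,⟨0,[(5,0),(12,1)]⟩]⟩)) (.K ⟨2,[0,-1,1],0,0,
  (⟨0,[(0,0)]⟩,⟨0,[(20,0),(3,0)]⟩),.k,(.x 0 ⟨1,[(0,2),(1,0),(11,0),(2,2)]⟩ ⟨0,[(4,0),(15,0),(3,1),
  (4,0)]⟩),.k,.k,.k,[⟨0,[(28,0)]⟩,⟨0,[(7,0)]⟩,⟨0,[(4,0),(6,0),(0,0)]⟩,⟨1,[(17,2),(0,0)]⟩]⟩)))))))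

theorem ok27 : chk (cU (-1) true 3) t27 r1 = true := by decide +kernel

noncomputable def t32 : Tre :=
  (.I [0,1,1,0,0,0,0,-2] (.R ⟨1,true,false,true,[0,0,1],[1,0,-1],[0,1,1,0,0,0,0,-1],(⟨0,[(20,0)]⟩,
  ⟨0,[(19,0)]⟩),(⟨0,[(19,0)]⟩,⟨0,[(20,0)]⟩),⟨0,[(2,0)]⟩,.k,.k,.k,.k,(.r 0 ⟨0,[(5,0),(12,0),(8,0)]⟩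
  ⟨0,[(0,0),(25,0),(2,0)]⟩),.k,⟨true,0,⟨1,[(16,0),(0,0)]⟩,⟨0,[]⟩⟩,⟨false,1,⟨1,[(5,1),(6,1),(4,1),
  (10,0),(0,0)]⟩,⟨0,[(4,1),(5,0),(0,0)]⟩⟩,⟨true,0,⟨0,[(0,0)]⟩,⟨0,[(5,0),(12,0)]⟩⟩,⟨false,1,⟨0,[(12,
  0),(2,0),(13,0)]⟩,⟨5,[(1,3),(1,3),(17,0),(7,2)]⟩⟩,⟨false,1,⟨0,[(0,0),(25,0),(2,0)]⟩,⟨0,[(5,1),(18,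
  0)]⟩⟩,⟨true,1,⟨0,[(12,0),(2,0),(10,0),(2,0)]⟩,⟨0,[(1,0)]⟩⟩,[]⟩) (.I [0,-1,1,0,1,0,0,-2] (.R ⟨1,
  true,false,false,[0,0,1],[1,0,-1],[0,0,1,0,0,0,0,-1],(⟨0,[(21,0)]⟩,⟨0,[(20,0)]⟩),(⟨0,[(20,0)]⟩,⟨0,
  [(21,0)]⟩),⟨0,[(3,0)]⟩,.k,.k,.k,.k,(.r 0 ⟨0,[(1,0),(26,0),(3,0)]⟩ ⟨0,[(0,0),(26,0)]⟩),.k,⟨true,0,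
  ⟨1,[(17,0),(0,0)]⟩,⟨0,[]⟩⟩,⟨false,1,⟨3,[(1,1),(11,3),(4,3),(10,2),(0,0)]⟩,⟨0,[(5,1),(5,0),(0,
  0)]⟩⟩,⟨false,1,⟨0,[(0,0)]⟩,⟨0,[(1,0),(30,0)]⟩⟩,⟨true,1,⟨0,[(13,0),(2,0),(13,0)]⟩,⟨0,[(2,0),(24,
  0)]⟩⟩,⟨true,1,⟨0,[(0,0),(26,0)]⟩,⟨0,[(1,0),(0,0),(10,0),(2,0)]⟩⟩,⟨false,2,⟨0,[(13,0),(2,0),(10,0),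
  (2,1)]⟩,⟨0,[(2,0)]⟩⟩,[]⟩) (.I [0,0,-1,-1,-1,0,0,1,-1] (.R ⟨1,true,false,false,[0,0,1],[0,0,0,1],
  [1,1,0,0,0,0,0,1],(⟨0,[(22,0)]⟩,⟨0,[(21,0)]⟩),(⟨0,[(13,0)]⟩,⟨0,[(12,0)]⟩),⟨0,[(4,0)]⟩,.k,.k,.k,.k,
  (.r 1 ⟨0,[(0,0)]⟩ ⟨3,[(10,0),(0,2),(5,3),(0,3),(9,3),(2,3)]⟩),.k,⟨false,(-1),⟨0,[(0,0),(27,0)]⟩,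
  ⟨1,[(11,0),(5,1),(0,1),(11,0),(0,1)]⟩⟩,⟨true,0,⟨0,[(12,0),(2,0)]⟩,⟨0,[(6,0),(6,0)]⟩⟩,⟨false,0,⟨0,
  []⟩,⟨3,[(10,0),(0,0),(19,1)]⟩⟩,⟨true,1,⟨1,[(11,0),(0,1),(1,1),(3,0),(0,0),(11,0)]⟩,⟨0,[(0,0),(5,
  0),(6,0),(14,0)]⟩⟩,⟨true,0,⟨0,[(28,0)]⟩,⟨0,[(29,0)]⟩⟩,⟨false,2,⟨1,[(11,0),(0,1),(1,1),(3,0),(0,0),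
  (8,1),(2,2)]⟩,⟨0,[(0,0),(5,0),(6,0)]⟩⟩,[]⟩) (.I [0,0,-1,-1,0,0,0,0,1] (.Q [0,1,-1,0,0,0,0,0,-1,0,
  0,1] (.p true [0,0,0,1] [] (⟨0,[(14,0)]⟩,⟨0,[(13,0)]⟩) .k 0 (⟨0,[]⟩,⟨0,[]⟩) .k .k) (.K ⟨0,[0,0,0,
  1],0,0,(⟨0,[(15,0)]⟩,⟨0,[(14,0)]⟩),.k,(.r 0 ⟨0,[(1,0)]⟩ ⟨1,[(12,0),(7,0),(0,0),(8,1),(2,0)]⟩),(.x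
  0 ⟨0,[(27,0)]⟩ ⟨3,[(12,0),(0,0),(11,1),(0,3)]⟩),.k,.k,[⟨0,[(15,0)]⟩,⟨0,[(14,0)]⟩,⟨0,[(0,0)]⟩,⟨1,
  [(1,0),(0,0),(0,0),(10,1),(1,0),(0,0),(2,1)]⟩]⟩) (.I [0,0,-1,-1,0,0,0,1,-1] (.R ⟨1,true,false,
  false,[0,0,1],[0,0,0,1],[1,1,0,0,0,0,0,1],(⟨0,[(25,0)]⟩,⟨0,[(24,0)]⟩),(⟨0,[(16,0)]⟩,⟨0,[(15,0)]⟩),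
  ⟨0,[(7,0)]⟩,.k,.k,.k,.k,(.r 0 ⟨0,[(0,0)]⟩ ⟨0,[(1,0),(2,0),(2,2),(1,2),(6,0),(0,2),(6,2),(3,2),(2,
  0),(2,1),(0,0)]⟩),.k,⟨false,0,⟨1,[(4,0),(8,0),(16,0)]⟩,⟨1,[(1,0),(0,0),(6,1),(6,0),(3,1),(10,0),
  (2,1)]⟩⟩,⟨true,0,⟨0,[(15,0),(2,0)]⟩,⟨0,[(9,0),(6,0)]⟩⟩,⟨false,0,⟨0,[]⟩,⟨3,[(13,0),(0,0),(19,1)]⟩⟩,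
  ⟨true,0,⟨0,[(1,0),(18,0)]⟩,⟨1,[(4,0),(4,1),(3,0),(2,1),(13,0)]⟩⟩,⟨true,0,⟨0,[(31,0)]⟩,⟨0,[(32,
  0)]⟩⟩,⟨false,1,⟨0,[(1,0),(18,0),(10,0),(2,0)]⟩,⟨0,[(0,0),(8,0),(6,0)]⟩⟩,[]⟩) (.K ⟨0,[0,0,0,1],0,
  (-1),(⟨0,[(16,0)]⟩,⟨0,[(15,0)]⟩),.k,(.r 0 ⟨0,[(2,0)]⟩ ⟨3,[(0,0),(2,0),(4,1),(4,2),(4,1)]⟩),(.x 0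
  ⟨0,[(28,0)]⟩ ⟨3,[(13,0),(0,0),(11,1),(0,3)]⟩),.k,.k,[⟨0,[(16,0)]⟩,⟨0,[(15,0)]⟩,⟨1,[(13,0),(2,1),
  (16,0),(2,1)]⟩,⟨0,[(0,0),(3,0),(4,0),(5,0),(1,0),(11,0)]⟩]⟩))) (.Q [0,1,-1,0,0,0,0,0,-1,0,0,1]
  (.p true [0,0,0,1] [] (⟨0,[(14,0)]⟩,⟨0,[(13,0)]⟩) .k 0 (⟨0,[]⟩,⟨0,[]⟩) .k .k) (.K ⟨0,[0,0,0,1],0,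
  0,(⟨0,[(15,0)]⟩,⟨0,[(14,0)]⟩),.k,(.x 0 ⟨0,[(17,0),(2,0),(5,0)]⟩ ⟨0,[(27,0),(4,0)]⟩),(.x 0 ⟨0,[(27,
  0)]⟩ ⟨3,[(12,0),(0,0),(11,1),(0,3)]⟩),.k,.k,[⟨0,[(15,0)]⟩,⟨0,[(14,0)]⟩,⟨0,[(0,0)]⟩,⟨0,[(2,0),(0,
  0),(4,0),(5,0),(1,0),(11,0)]⟩]⟩) (.Q [0,0,0,0,0,-1,0,0,0,1,0,-1] (.p false [0,0,0,1] [1] (⟨0,[(15,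
  0)]⟩,⟨0,[(14,0)]⟩) .k 1 (⟨0,[]⟩,⟨0,[]⟩) .k .k) (.I [0,-1,-1,-1,1,0,0,0,-1] (.R ⟨1,false,false,
  false,[1,0,0,-1],[1,-1],[0,0,0,-1,0,0,0,0,-1],(⟨0,[(16,0)]⟩,⟨0,[(17,0)]⟩),(⟨0,[(28,0)]⟩,⟨0,[(29,
  0)]⟩),⟨0,[(1,0)]⟩,.k,.k,(.x (-1) ⟨3,[(14,0),(0,0),(11,1),(0,3)]⟩ ⟨0,[(29,0)]⟩),(.x (-1) ⟨0,[(29,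
  0),(4,0)]⟩ ⟨0,[(19,0),(2,0),(5,0)]⟩),.k,.k,⟨true,0,⟨4,[(3,2),(3,0),(6,0),(3,0),(2,0),(8,1)]⟩,⟨0,
  [(2,0),(14,0),(13,0)]⟩⟩,⟨false,0,⟨9,[(2,5),(0,1),(3,1),(6,1),(1,3),(1,4),(0,0),(0,0),(1,0)]⟩,⟨0,
  [(17,0),(16,0)]⟩⟩,⟨true,0,⟨0,[(33,0)]⟩,⟨0,[(32,0)]⟩⟩,⟨false,0,⟨0,[(2,0),(30,0)]⟩,⟨0,[(3,0),(13,0),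
  (16,0)]⟩⟩,⟨false,1,⟨3,[(14,0),(0,0),(19,1)]⟩,⟨0,[]⟩⟩,⟨false,0,⟨0,[(2,0)]⟩,⟨1,[(14,0),(2,1),(16,
  0)]⟩⟩,[.o ⟨false,0,⟨0,[(12,0),(5,0)]⟩,⟨7,[(4,3),(1,1),(7,1),(17,3),(1,0),(0,0)]⟩⟩,.o ⟨false,1,⟨5,
  [(0,1),(11,1),(2,0),(2,1),(8,1),(2,1),(4,0)]⟩,⟨0,[(32,0)]⟩⟩,.o ⟨false,1,⟨1,[(17,1),(9,0),(6,0)]⟩,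
  ⟨9,[(2,5),(0,1),(3,1),(6,1),(1,3),(1,4),(0,0),(0,0),(1,0)]⟩⟩,.a ⟨true,0,⟨0,[(17,0)]⟩,⟨0,[(16,
  0)]⟩⟩ ⟨false,1,⟨0,[(0,0)]⟩,⟨0,[(2,0),(14,0),(14,0)]⟩⟩ ⟨true,0,⟨1,[(0,0),(1,0),(4,0),(8,0),(1,1)]⟩,
  ⟨0,[(17,0),(14,0)]⟩⟩]⟩) (.K ⟨0,[0,0,0,1],0,(-1),(⟨0,[(17,0)]⟩,⟨0,[(16,0)]⟩),.k,(.x 0 ⟨0,[(19,0),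
  (2,0),(5,0)]⟩ ⟨0,[(29,0),(4,0)]⟩),(.x 0 ⟨0,[(29,0)]⟩ ⟨3,[(14,0),(0,0),(11,1),(0,3)]⟩),.k,.k,[⟨0,
  [(17,0)]⟩,⟨0,[(16,0)]⟩,⟨1,[(14,0),(2,1),(16,0),(2,1)]⟩,⟨1,[(0,0),(1,0),(4,0),(8,0),(1,1)]⟩]⟩))
  (.R ⟨0,false,false,true,[1,0,0,-1],[1,0,-1],[0,1,0,0,0,0,0,-1],(⟨0,[(15,0)]⟩,⟨0,[(16,0)]⟩),(⟨0,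
  [(24,0)]⟩,⟨0,[(25,0)]⟩),⟨0,[(0,0)]⟩,.k,.k,(.x (-1) ⟨3,[(13,0),(0,0),(11,1),(0,3)]⟩ ⟨0,[(28,0)]⟩),
  .k,.k,.k,⟨false,1,⟨3,[(13,0),(0,0),(18,1)]⟩,⟨0,[]⟩⟩,⟨true,0,⟨0,[(15,0),(2,0)]⟩,⟨0,[(9,0),(6,0)]⟩⟩,
  ⟨true,0,⟨0,[(1,0),(7,0),(6,0),(3,0),(9,0)]⟩,⟨7,[(2,1),(1,2),(0,0),(7,2),(15,1)]⟩⟩,⟨false,0,⟨0,[(1,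
  0),(18,0)]⟩,⟨3,[(5,1),(3,3),(3,1),(2,3),(16,0),(0,0)]⟩⟩,⟨false,0,⟨0,[]⟩,⟨0,[]⟩⟩,⟨false,0,⟨0,[]⟩,
  ⟨0,[]⟩⟩,[.o ⟨false,0,⟨0,[(17,0)]⟩,⟨7,[(12,3),(0,0),(0,0),(11,1),(7,3)]⟩⟩,.o ⟨false,1,⟨1,[(20,1),
  (5,0),(7,0)]⟩,⟨2,[(6,0),(1,0),(17,0)]⟩⟩,.o ⟨false,1,⟨1,[(16,1),(9,0),(6,0)]⟩,⟨9,[(1,5),(0,1),(3,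
  1),(6,1),(1,3),(1,4),(0,0),(0,0),(1,0)]⟩⟩,.a ⟨true,0,⟨0,[(16,0)]⟩,⟨0,[(15,0)]⟩⟩ ⟨false,1,⟨1,[(9,
  1),(10,1),(12,0),(0,0)]⟩,⟨5,[(1,1),(0,1),(2,1),(6,0),(3,1),(1,0),(3,0),(6,1)]⟩⟩ ⟨true,0,⟨0,[(15,
  0),(1,0)]⟩,⟨2,[(6,0),(1,0),(7,2),(9,0)]⟩⟩]⟩)))))))

theorem ok32 : chk (cU (-1) true 3) t32 l19 = true := by decide +kernel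

noncomputable def t33 : Tre :=
  (.Q [0,0,-1,0,0,0,1,0,0,2,-1] (.p false [-1,1,1] [1] (⟨0,[(0,0)]⟩,⟨0,[(19,0),(2,0)]⟩) .k 1 (⟨0,
  []⟩,⟨0,[]⟩) .k .k) (.R ⟨0,false,false,false,[-1,1,1],[0,0,1],[1,1,1,1,0,0,0,1],(⟨0,[(1,0)]⟩,⟨0,
  [(20,0),(2,0)]⟩),(⟨0,[(21,0)]⟩,⟨0,[(20,0)]⟩),⟨0,[(20,0)]⟩,.k,.k,.k,.k,.k,.k,⟨false,0,⟨0,[(27,0)]⟩,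
  ⟨1,[(28,1),(0,0),(0,0)]⟩⟩,⟨true,0,⟨0,[(5,0),(8,0)]⟩,⟨1,[(0,0),(17,0)]⟩⟩,⟨false,0,⟨0,[]⟩,⟨3,[(9,0),
  (0,0),(19,1)]⟩⟩,⟨true,0,⟨0,[(7,0),(5,0)]⟩,⟨1,[(0,0),(17,0),(8,1)]⟩⟩,⟨false,0,⟨0,[]⟩,⟨0,[]⟩⟩,
  ⟨false,0,⟨0,[]⟩,⟨0,[]⟩⟩,[.o ⟨false,0,⟨2,[(5,1),(0,0),(1,0),(5,0)]⟩,⟨7,[(2,3),(6,0),(0,0),(11,1),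
  (5,3)]⟩⟩,.o ⟨false,1,⟨7,[(8,3),(0,0),(0,0),(11,1),(7,3)]⟩,⟨0,[(13,0)]⟩⟩,.a ⟨true,0,⟨0,[(0,0)]⟩,⟨0,
  [(14,0)]⟩⟩ ⟨false,0,⟨0,[(4,0),(9,0)]⟩,⟨0,[(0,0),(1,0),(4,1),(5,0)]⟩⟩ ⟨true,0,⟨2,[(5,1),(0,0),(1,
  0),(5,3)]⟩,⟨0,[(0,0),(12,0)]⟩⟩,.o ⟨false,0,⟨1,[(0,0),(16,0)]⟩,⟨1,[(14,1),(7,0),(6,0)]⟩⟩]⟩) (.Q [0,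
  1,-1,0,0,0,0,0,-1,0,0,1] (.p true [0,0,0,1] [] (⟨0,[(12,0)]⟩,⟨0,[(11,0)]⟩) .k 0 (⟨0,[]⟩,⟨0,[]⟩)
  .k .k) (.Q [0,1,1,0,0,0,0,0,1,0,0,-1] (.p false [0,0,0,1] [] (⟨0,[(13,0)]⟩,⟨0,[(12,0)]⟩) .k 0 (⟨0,
  []⟩,⟨0,[]⟩) .k .k) (.K ⟨0,[0,0,0,1],0,0,(⟨0,[(14,0)]⟩,⟨0,[(13,0)]⟩),.k,(.x 0 ⟨1,[(2,0),(16,1),(0,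
  0),(4,1)]⟩ ⟨0,[(26,0),(4,0)]⟩),(.x 0 ⟨0,[(26,0)]⟩ ⟨3,[(11,0),(0,0),(11,1),(0,3)]⟩),.k,.k,[⟨0,[(14,
  0)]⟩,⟨0,[(13,0)]⟩,⟨0,[(1,0)]⟩,⟨0,[(0,0)]⟩]⟩) (.Q [0,0,0,0,0,1,0,0,0,-1,0,1] (.p true [0,0,0,1]
  [1] (⟨0,[(14,0)]⟩,⟨0,[(13,0)]⟩) .k 1 (⟨0,[]⟩,⟨0,[]⟩) .k .k) (.R ⟨0,false,false,true,[1,0,0,-1],[1,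
  0,-1],[0,0,0,-1,0,0,0,0,-1],(⟨0,[(14,0)]⟩,⟨0,[(15,0)]⟩),(⟨0,[(23,0)]⟩,⟨0,[(24,0)]⟩),⟨0,[(0,0)]⟩,
  .k,.k,(.x (-1) ⟨3,[(12,0),(0,0),(11,1),(0,3)]⟩ ⟨0,[(27,0)]⟩),.k,.k,.k,⟨false,0,⟨3,[(1,2),(0,0),(0,
  1),(5,1),(0,1),(3,3),(16,1)]⟩,⟨5,[(5,1),(1,1),(0,3),(4,2),(5,3),(0,1),(9,1),(1,0)]⟩⟩,⟨true,0,⟨1,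
  [(3,0),(10,1),(6,0)]⟩,⟨0,[(8,0),(6,0)]⟩⟩,⟨true,0,⟨0,[(31,0)]⟩,⟨0,[(30,0)]⟩⟩,⟨false,1,⟨5,[(5,1),(7,
  2),(0,5),(1,1),(3,1),(0,1),(3,0),(2,1)]⟩,⟨4,[(1,4),(1,0),(4,1),(0,0),(1,1)]⟩⟩,⟨false,0,⟨0,[]⟩,⟨0,
  []⟩⟩,⟨false,0,⟨0,[]⟩,⟨0,[]⟩⟩,[.o ⟨false,0,⟨0,[(16,0)]⟩,⟨7,[(11,3),(0,0),(0,0),(11,1),(7,3)]⟩⟩,.o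
  ⟨false,1,⟨7,[(5,3),(6,0),(0,0),(11,1),(5,3)]⟩,⟨4,[(3,0),(4,1),(0,0),(1,1)]⟩⟩,.o ⟨false,1,⟨1,[(15,
  1),(9,0),(6,0)]⟩,⟨1,[(3,0),(10,1),(5,0)]⟩⟩,.a ⟨true,0,⟨0,[(15,0)]⟩,⟨0,[(14,0)]⟩⟩ ⟨false,0,⟨0,[(1,
  0),(8,0),(3,0),(1,0)]⟩,⟨5,[(5,1),(1,3),(5,2),(6,2),(0,2),(3,0)]⟩⟩ ⟨true,0,⟨0,[(14,0),(1,0)]⟩,⟨4,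
  [(3,0),(4,1),(0,0),(1,1),(3,4)]⟩⟩]⟩) (.Q [0,0,1,2,1,0,0,0,1,1,0,-1] (.p false [0,0,0,1] [1] (⟨0,
  [(15,0)]⟩,⟨0,[(14,0)]⟩) .k 1 (⟨0,[]⟩,⟨0,[]⟩) .k .k) (.R ⟨1,false,false,true,[1,0,0,-1],[0,1],[1,1,
  0,0,0,0,0,0,-1],(⟨0,[(15,0)]⟩,⟨0,[(16,0)]⟩),(⟨0,[(28,0)]⟩,⟨0,[(27,0)]⟩),⟨0,[(1,0)]⟩,.k,.k,(.x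
  (-1) ⟨3,[(13,0),(0,0),(11,1),(0,3)]⟩ ⟨0,[(28,0)]⟩),(.x (-1) ⟨3,[(13,0),(0,0),(11,1),(0,3)]⟩ ⟨0,
  [(28,0)]⟩),(.r 0 ⟨0,[(2,0),(8,0),(3,0),(1,0),(12,0),(1,0)]⟩ ⟨1,[(0,1),(3,0),(11,1),(4,0)]⟩),.k,
  ⟨false,0,⟨0,[(2,0),(8,0),(3,0),(1,0),(12,0)]⟩,⟨3,[(0,1),(13,0),(1,1),(4,0),(0,0),(3,0)]⟩⟩,⟨true,0,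
  ⟨0,[(15,0)]⟩,⟨1,[(4,0),(11,1),(4,0)]⟩⟩,⟨false,0,⟨0,[]⟩,⟨3,[(13,0),(0,0),(19,1)]⟩⟩,⟨false,1,⟨11,
  [(0,7),(12,0),(0,2),(0,3),(13,3),(6,3)]⟩,⟨0,[(2,0),(8,0),(5,0)]⟩⟩,⟨true,0,⟨0,[(31,0)]⟩,⟨0,[(32,
  0)]⟩⟩,⟨false,1,⟨0,[(0,0)]⟩,⟨0,[(2,0),(8,0),(5,0),(14,0)]⟩⟩,[.o ⟨false,0,⟨0,[(31,0)]⟩,⟨1,[(26,0),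
  (5,1),(1,0)]⟩⟩,.o ⟨false,1,⟨7,[(0,3),(1,0),(0,0),(9,0),(2,1),(9,1),(6,0)]⟩,⟨0,[(11,0),(5,0)]⟩⟩,.o
  ⟨false,1,⟨1,[(16,1),(9,0),(6,0)]⟩,⟨1,[(4,0),(10,1),(5,0)]⟩⟩,.a ⟨true,0,⟨0,[(16,0)]⟩,⟨0,[(15,0)]⟩⟩
  ⟨false,0,⟨3,[(2,2),(0,0),(0,1),(4,1),(5,3),(14,1)]⟩,⟨1,[(14,0),(6,0),(0,0),(11,0)]⟩⟩ ⟨true,0,⟨0,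
  [(15,0),(15,0)]⟩,⟨0,[(11,0),(4,0),(0,0)]⟩⟩]⟩) (.R ⟨1,true,false,true,[1,0,0,-1],[0,1],[0,0,0,-1,0,
  0,0,0,-1],(⟨0,[(15,0)]⟩,⟨0,[(16,0)]⟩),(⟨0,[(28,0)]⟩,⟨0,[(27,0)]⟩),⟨0,[(1,0)]⟩,.k,.k,(.x (-1) ⟨3,
  [(13,0),(0,0),(11,1),(0,3)]⟩ ⟨0,[(28,0)]⟩),(.x (-1) ⟨3,[(13,0),(0,0),(11,1),(0,3)]⟩ ⟨0,[(28,0)]⟩),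
  (.x 0 ⟨0,[(4,0),(4,0),(17,1)]⟩ ⟨3,[(13,0),(0,0),(13,7),(4,1)]⟩),.k,⟨false,0,⟨1,[(0,1),(14,1),(17,
  0),(0,0)]⟩,⟨5,[(6,1),(1,3),(5,2),(6,2),(0,2),(3,0),(4,5)]⟩⟩,⟨true,0,⟨0,[(15,0)]⟩,⟨1,[(4,0),(11,1),
  (4,0)]⟩⟩,⟨true,0,⟨0,[(32,0)]⟩,⟨0,[(31,0)]⟩⟩,⟨false,1,⟨5,[(6,1),(1,3),(5,2),(0,5),(5,2),(0,2),(3,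
  0)]⟩,⟨3,[(0,1),(1,1),(23,0),(7,0)]⟩⟩,⟨false,1,⟨3,[(13,0),(0,0),(19,1)]⟩,⟨0,[]⟩⟩,⟨true,1,⟨5,[(6,1),
  (1,3),(5,2),(0,5),(5,2),(0,2),(3,0),(4,5)]⟩,⟨0,[(0,0)]⟩⟩,[]⟩)))) (.Q [0,0,-1,-1,0,0,1,1,-1,0,-1,
  1] (.p false [0,0,1] [0,0,0,1] (⟨0,[(22,0)]⟩,⟨0,[(21,0)]⟩) .k 2 (⟨0,[(13,0)]⟩,⟨0,[(12,0)]⟩) .k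
  (.x (-1) ⟨0,[(18,0),(3,0),(7,0)]⟩ ⟨1,[(1,0),(17,0),(1,1)]⟩)) (.R ⟨1,true,false,false,[0,0,1],[0,0,
  0,1],[0,1,0,-1,0,0,0,1],(⟨0,[(23,0)]⟩,⟨0,[(22,0)]⟩),(⟨0,[(14,0)]⟩,⟨0,[(13,0)]⟩),⟨0,[(5,0)]⟩,.k,.k,
  .k,.k,(.x 0 ⟨0,[(5,0),(1,0)]⟩ ⟨1,[(20,1),(1,1),(1,0),(1,1),(4,0)]⟩),.k,⟨false,0,⟨3,[(0,3),(1,0),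
  (5,1),(4,3),(1,1),(4,0),(13,1)]⟩,⟨0,[(1,0),(2,0),(2,1),(0,0),(4,0),(0,1)]⟩⟩,⟨true,0,⟨1,[(2,0),(10,
  1),(6,0)]⟩,⟨0,[(7,0),(6,0)]⟩⟩,⟨false,0,⟨0,[(30,0)]⟩,⟨5,[(4,1),(1,3),(17,0),(7,2)]⟩⟩,⟨true,0,⟨0,
  [(1,0),(16,0)]⟩,⟨0,[(0,0),(28,0)]⟩⟩,⟨true,0,⟨0,[(34,0)]⟩,⟨0,[]⟩⟩,⟨false,1,⟨5,[(1,3),(2,3),(1,1),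
  (5,0),(0,1),(5,0),(0,0),(11,0)]⟩,⟨0,[(0,0)]⟩⟩,[]⟩) (.Q [0,0,0,0,0,-1,0,0,0,1,0,-1] (.p false [0,0,
  0,1] [1] (⟨0,[(14,0)]⟩,⟨0,[(13,0)]⟩) .k 1 (⟨0,[]⟩,⟨0,[]⟩) .k .k) (.I [0,-1,-1,-1,1,0,0,0,-1] (.R
  ⟨1,false,false,true,[1,0,0,-1],[1,0,-1],[0,0,0,-1,0,0,0,0,-1],(⟨0,[(15,0)]⟩,⟨0,[(16,0)]⟩),(⟨0,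
  [(24,0)]⟩,⟨0,[(25,0)]⟩),⟨0,[(1,0)]⟩,.k,.k,(.x (-1) ⟨3,[(13,0),(0,0),(11,1),(0,3)]⟩ ⟨0,[(28,0)]⟩),
  .k,(.r (-1) ⟨1,[(0,1),(9,0),(8,0),(2,0),(13,0)]⟩ ⟨0,[(2,0),(6,0),(6,0)]⟩),.k,⟨false,1,⟨0,[(0,0),
  (22,0)]⟩,⟨0,[(2,0),(6,0),(6,0),(13,0)]⟩⟩,⟨true,0,⟨1,[(4,0),(10,1),(6,0)]⟩,⟨0,[(9,0),(6,0)]⟩⟩,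
  ⟨true,0,⟨0,[(32,0)]⟩,⟨0,[(31,0)]⟩⟩,⟨false,0,⟨0,[(2,0),(29,0)]⟩,⟨1,[(9,1),(0,1),(2,0),(2,1),(17,
  0)]⟩⟩,⟨false,1,⟨3,[(13,0),(0,0),(19,1)]⟩,⟨0,[]⟩⟩,⟨false,0,⟨0,[(2,0)]⟩,⟨1,[(11,1),(1,0),(2,1),(16,
  0)]⟩⟩,[.o ⟨false,0,⟨0,[(17,0)]⟩,⟨7,[(12,3),(0,0),(0,0),(11,1),(7,3)]⟩⟩,.o ⟨false,1,⟨7,[(6,3),(6,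
  0),(0,0),(11,1),(5,3)]⟩,⟨4,[(4,0),(4,1),(0,0),(1,1)]⟩⟩,.o ⟨false,1,⟨1,[(16,1),(9,0),(6,0)]⟩,⟨1,
  [(4,0),(10,1),(5,0)]⟩⟩,.a ⟨true,0,⟨0,[(16,0)]⟩,⟨0,[(15,0)]⟩⟩ ⟨false,1,⟨0,[(0,0)]⟩,⟨0,[(3,0),(12,
  0),(14,0)]⟩⟩ ⟨true,0,⟨0,[(15,0),(1,0)]⟩,⟨4,[(4,0),(4,1),(0,0),(1,1),(3,4)]⟩⟩]⟩) (.Q [0,0,0,-2,-1,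
  0,2,2,0,1,-2] (.p false [0,0,1] [1,0,-1] (⟨0,[(25,0)]⟩,⟨0,[(24,0)]⟩) .k 2 (⟨0,[(24,0)]⟩,⟨0,[(25,
  0)]⟩) .k (.r 0 ⟨0,[(23,1)]⟩ ⟨0,[(9,1),(10,1),(13,0)]⟩)) (.I [0,1,2,1,0,0,0,-2] (.R ⟨1,true,false,
  true,[0,0,1],[1,1,-1],[1,0,0,0,0,0,0,1],(⟨0,[(27,0)]⟩,⟨0,[(26,0)]⟩),(⟨0,[(26,0),(3,0)]⟩,⟨0,[(9,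
  0)]⟩),⟨0,[(9,0)]⟩,.k,.k,.k,(.r 0 ⟨5,[(1,1),(10,7),(11,3),(3,0),(5,1),(0,0)]⟩ ⟨1,[(0,1),(34,0),(0,
  0)]⟩),(.r 0 ⟨0,[(12,1),(21,1)]⟩ ⟨5,[(0,5),(7,1),(1,3),(17,0),(7,2)]⟩),.k,⟨true,0,⟨0,[(12,1),(18,
  0)]⟩,⟨0,[(0,0)]⟩⟩,⟨false,1,⟨0,[(8,0),(3,1),(21,0)]⟩,⟨5,[(0,3),(0,2),(8,1),(0,3),(5,0),(0,0),(16,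
  0),(0,1)]⟩⟩,⟨true,0,⟨0,[]⟩,⟨0,[(38,0)]⟩⟩,⟨false,1,⟨0,[(8,0)]⟩,⟨1,[(1,0),(12,0),(21,0)]⟩⟩,⟨false,1,
  ⟨5,[(8,1),(1,3),(17,0),(7,2)]⟩,⟨0,[(34,0)]⟩⟩,⟨true,1,⟨0,[(8,0),(24,0)]⟩,⟨0,[(1,0)]⟩⟩,[]⟩) (.R ⟨1,
  true,false,false,[0,0,1],[1,1,-1],[1,1,0,0,0,0,0,1],(⟨0,[(27,0)]⟩,⟨0,[(26,0)]⟩),(⟨0,[(26,0),(3,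
  0)]⟩,⟨0,[(9,0)]⟩),⟨0,[(9,0)]⟩,.k,.k,.k,(.r 0 ⟨31,[(0,23),(0,3),(13,0),(0,0),(4,7),(2,15),(3,1),(9,
  15)]⟩ ⟨0,[(8,0),(2,0),(5,0),(0,0),(4,0)]⟩),(.r 0 ⟨0,[(0,0),(33,0),(3,0)]⟩ ⟨1,[(2,1),(5,1),(2,1),
  (3,0),(1,1),(0,1),(4,1),(12,0)]⟩),.k,⟨true,(-1),⟨1,[(0,1),(0,0),(0,1),(12,0),(3,0),(2,0)]⟩,⟨1,[(2,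
  1),(5,1),(2,3),(3,0),(1,1),(0,1),(12,1),(4,0)]⟩⟩,⟨false,1,⟨0,[(0,0),(7,0),(29,0)]⟩,⟨0,[(11,0),(5,
  0),(0,0),(4,0)]⟩⟩,⟨false,0,⟨0,[]⟩,⟨3,[(15,0),(0,0),(19,1)]⟩⟩,⟨true,1,⟨0,[(8,0)]⟩,⟨0,[(1,0),(31,
  0)]⟩⟩,⟨true,0,⟨0,[(33,0)]⟩,⟨0,[(34,0)]⟩⟩,⟨false,2,⟨5,[(8,7),(1,3),(17,0),(7,2)]⟩,⟨0,[(1,0)]⟩⟩,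
  []⟩)) (.R ⟨1,false,false,true,[1,0,0,-1],[0,-1,1],[0,0,0,-1,0,0,0,0,-1],(⟨0,[(16,0)]⟩,⟨0,[(17,
  0)]⟩),(⟨0,[(8,0)]⟩,⟨0,[(25,0),(3,0)]⟩),⟨0,[(2,0)]⟩,.k,.k,(.x (-1) ⟨3,[(14,0),(0,0),(11,1),(0,3)]⟩
  ⟨0,[(29,0)]⟩),(.r (-1) ⟨1,[(0,0),(13,0),(1,0),(0,0),(4,1)]⟩ ⟨1,[(1,0),(2,0),(6,1),(5,0),(15,2),(0,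
  0)]⟩),.k,.k,⟨true,1,⟨1,[(0,0),(9,1),(3,0),(1,0),(0,0),(12,1)]⟩,⟨0,[(1,0),(9,0),(21,0)]⟩⟩,⟨false,0,
  ⟨0,[(16,0),(5,0)]⟩,⟨1,[(7,0),(3,1),(0,0),(4,1),(0,0),(15,0)]⟩⟩,⟨true,0,⟨0,[(33,0)]⟩,⟨0,[(32,0)]⟩⟩,
  ⟨false,(-1),⟨0,[(1,0),(10,0),(3,0),(16,0)]⟩,⟨1,[(0,1),(11,1),(1,0),(2,1),(16,0)]⟩⟩,⟨false,1,⟨3,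
  [(14,0),(0,0),(19,1)]⟩,⟨0,[]⟩⟩,⟨false,(-1),⟨0,[(1,0),(10,0),(3,0)]⟩,⟨1,[(7,1),(4,1),(1,0),(2,1),
  (16,0)]⟩⟩,[.o ⟨false,0,⟨0,[(20,0),(12,0)]⟩,⟨0,[(0,0),(11,0)]⟩⟩,.o ⟨false,0,⟨1,[(12,0),(7,0),(12,
  0)]⟩,⟨7,[(0,3),(13,0),(0,0),(11,1)]⟩⟩,.o ⟨false,1,⟨1,[(17,1),(9,0),(6,0)]⟩,⟨1,[(5,0),(10,1),(5,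
  0)]⟩⟩,.a ⟨true,0,⟨0,[(17,0)]⟩,⟨0,[(16,0)]⟩⟩ ⟨true,1,⟨1,[(14,0),(18,1),(0,0)]⟩,⟨0,[(1,0)]⟩⟩ ⟨false,
  0,⟨1,[(12,0),(3,1),(3,0),(12,0)]⟩,⟨0,[(0,0),(11,0),(4,0)]⟩⟩]⟩))) (.Q [0,1,1,0,-1,0,0,0,1,0,0,-1]
  (.p false [0,0,0,1] [] (⟨0,[(15,0)]⟩,⟨0,[(14,0)]⟩) .k 0 (⟨0,[]⟩,⟨0,[]⟩) .k .k) (.R ⟨0,false,false,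
  true,[1,0,0,-1],[1,0,-1],[1,1,1],(⟨0,[(15,0)]⟩,⟨0,[(16,0)]⟩),(⟨0,[(24,0)]⟩,⟨0,[(25,0)]⟩),⟨0,[(1,
  0)]⟩,.k,.k,(.x (-1) ⟨3,[(13,0),(0,0),(11,1),(0,3)]⟩ ⟨0,[(28,0)]⟩),.k,.k,.k,⟨false,0,⟨0,[(23,0)]⟩,
  ⟨1,[(9,1),(10,1),(12,0),(0,0)]⟩⟩,⟨true,0,⟨1,[(4,0),(10,1),(6,0)]⟩,⟨0,[(9,0),(6,0)]⟩⟩,⟨true,(-1),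
  ⟨0,[(0,0),(15,0)]⟩,⟨1,[(13,0),(19,0)]⟩⟩,⟨false,0,⟨0,[(2,0),(29,0)]⟩,⟨1,[(9,1),(0,1),(2,0),(2,1),
  (17,0)]⟩⟩,⟨false,0,⟨0,[]⟩,⟨0,[]⟩⟩,⟨false,0,⟨0,[]⟩,⟨0,[]⟩⟩,[.o ⟨false,0,⟨0,[(17,0)]⟩,⟨7,[(12,3),(0,
  0),(0,0),(11,1),(7,3)]⟩⟩,.o ⟨false,1,⟨7,[(6,3),(6,0),(0,0),(11,1),(5,3)]⟩,⟨4,[(4,0),(4,1),(0,0),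
  (1,1)]⟩⟩,.o ⟨false,1,⟨1,[(16,1),(9,0),(6,0)]⟩,⟨1,[(0,0),(2,0),(9,0)]⟩⟩,.a ⟨true,0,⟨0,[(16,0)]⟩,⟨0,
  [(15,0)]⟩⟩ ⟨false,0,⟨0,[]⟩,⟨3,[(13,0),(0,0),(19,1)]⟩⟩ ⟨true,0,⟨0,[(15,0),(1,0)]⟩,⟨4,[(4,0),(4,1),
  (0,0),(1,1),(3,4)]⟩⟩]⟩) (.R ⟨0,false,false,true,[1,0,0,-1],[1,0,-1],[0,0,0,-1,0,0,0,0,-1],(⟨0,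
  [(15,0)]⟩,⟨0,[(16,0)]⟩),(⟨0,[(24,0)]⟩,⟨0,[(25,0)]⟩),⟨0,[(1,0)]⟩,.k,.k,(.x (-1) ⟨3,[(13,0),(0,0),
  (11,1),(0,3)]⟩ ⟨0,[(28,0)]⟩),.k,.k,.k,⟨false,1,⟨1,[(10,1),(2,0),(18,1),(1,0)]⟩,⟨0,[(2,0),(6,0),(6,
  0),(13,0)]⟩⟩,⟨true,0,⟨1,[(4,0),(10,1),(6,0)]⟩,⟨0,[(9,0),(6,0)]⟩⟩,⟨true,0,⟨0,[(32,0)]⟩,⟨0,[(31,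
  0)]⟩⟩,⟨false,0,⟨0,[(2,0),(29,0)]⟩,⟨4,[(0,4),(3,0),(4,1),(0,0),(1,1)]⟩⟩,⟨false,0,⟨0,[]⟩,⟨0,[]⟩⟩,
  ⟨false,0,⟨0,[]⟩,⟨0,[]⟩⟩,[.o ⟨false,0,⟨0,[(17,0)]⟩,⟨7,[(12,3),(0,0),(0,0),(11,1),(7,3)]⟩⟩,.o
  ⟨false,1,⟨7,[(6,3),(6,0),(0,0),(11,1),(5,3)]⟩,⟨4,[(4,0),(4,1),(0,0),(1,1)]⟩⟩,.o ⟨false,1,⟨1,[(16,
  1),(9,0),(6,0)]⟩,⟨1,[(4,0),(10,1),(5,0)]⟩⟩,.a ⟨true,0,⟨0,[(16,0)]⟩,⟨0,[(15,0)]⟩⟩ ⟨false,1,⟨0,[(0,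
  0),(10,0),(3,0),(1,0)]⟩,⟨0,[(3,0),(12,0),(14,0)]⟩⟩ ⟨true,0,⟨0,[(15,0),(1,0)]⟩,⟨4,[(4,0),(4,1),(0,
  0),(1,1),(3,4)]⟩⟩]⟩))))))

theorem ok33 : chk (cU (-1) true 3) t33 l20 = true := by decide +kernel

noncomputable def t34 : Tre :=
  (.R ⟨2,true,false,true,[0,1],[0,1,1],[0,0,1],(⟨0,[]⟩,⟨0,[]⟩),(⟨0,[(21,0),(2,0)]⟩,⟨0,[(1,0)]⟩),⟨0,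
  []⟩,.k,.k,.k,.k,.k,.k,⟨false,1,⟨1,[(0,1),(4,1),(23,0),(0,0)]⟩,⟨0,[(19,0),(7,0)]⟩⟩,⟨true,0,⟨0,[(5,
  0)]⟩,⟨0,[(18,0)]⟩⟩,⟨true,0,⟨0,[(28,0)]⟩,⟨0,[(27,0)]⟩⟩,⟨false,0,⟨2,[(5,1),(0,0),(1,0),(5,0)]⟩,⟨11,
  [(0,3),(1,3),(6,0),(0,0),(0,3),(0,3),(17,5)]⟩⟩,⟨false,1,⟨3,[(9,0),(0,0),(19,1)]⟩,⟨0,[]⟩⟩,⟨true,0,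
  ⟨2,[(5,1),(0,0),(1,0),(5,0),(12,2)]⟩,⟨0,[(0,0)]⟩⟩,[]⟩)

theorem ok34 : chk (cU (-1) true 3) t34 l21 = true := by decide +kernel

noncomputable def t35 : Tre :=
  (.I [0,1,2,1,0,0,0,-2] (.Q [0,0,0,-2,-1,0,2,2,0,1,-2] (.p false [0,0,1] [1,0,-1] (⟨0,[(23,0)]⟩,⟨0,
  [(22,0)]⟩) .k 2 (⟨0,[(22,0)]⟩,⟨0,[(23,0)]⟩) .k (.r 0 ⟨0,[(21,1)]⟩ ⟨0,[(7,1),(10,1),(13,0)]⟩)) (.R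
  ⟨1,true,false,true,[0,0,1],[1,1,-1],[1,0,0,0,0,0,0,1],(⟨0,[(24,0)]⟩,⟨0,[(23,0)]⟩),(⟨0,[(23,0),(3,
  0)]⟩,⟨0,[(6,0)]⟩),⟨0,[(6,0)]⟩,.k,.k,.k,(.r 0 ⟨5,[(0,1),(8,7),(11,3),(3,0),(5,1),(0,0)]⟩ ⟨1,[(1,1),
  (30,0),(0,0)]⟩),(.r 0 ⟨0,[(9,1),(21,1)]⟩ ⟨11,[(1,11),(1,3),(1,3),(1,3),(4,0),(0,0),(19,5)]⟩),.k,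
  ⟨true,0,⟨0,[(9,1),(18,0)]⟩,⟨0,[(1,0)]⟩⟩,⟨false,1,⟨0,[(5,0),(3,1),(21,0)]⟩,⟨5,[(0,2),(0,3),(5,1),
  (0,3),(5,0),(0,0),(16,0),(0,1)]⟩⟩,⟨true,0,⟨0,[]⟩,⟨0,[(35,0)]⟩⟩,⟨false,1,⟨0,[(5,0)]⟩,⟨1,[(0,0),(10,
  0),(21,0)]⟩⟩,⟨false,1,⟨11,[(3,3),(1,3),(1,3),(4,0),(0,0),(19,5)]⟩,⟨0,[(31,0)]⟩⟩,⟨true,1,⟨0,[(5,0),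
  (24,0)]⟩,⟨0,[(0,0)]⟩⟩,[]⟩) (.I [1,0,-1,0,0,0,0,1,-1] (.I [1,1,-2,-2,0,0,0,-1] (.Q [0,0,1,-2,0,0,0,
  0,1,0,0,-1] (.p false [0,0,0,1] [] (⟨0,[(17,0)]⟩,⟨0,[(16,0)]⟩) .k 0 (⟨0,[]⟩,⟨0,[]⟩) .k .k) (.K ⟨0,
  [0,0,0,1],0,0,(⟨0,[(18,0)]⟩,⟨0,[(17,0)]⟩),.k,(.x 0 ⟨1,[(7,0),(1,0),(10,0),(2,1),(0,0)]⟩ ⟨0,[(30,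
  0),(4,0)]⟩),(.x 0 ⟨0,[(30,0)]⟩ ⟨3,[(15,0),(0,0),(11,1),(0,3)]⟩),.k,.k,[⟨0,[(18,0)]⟩,⟨0,[(17,0)]⟩,
  ⟨2,[(1,0),(0,2),(1,0),(13,2),(14,0)]⟩,⟨0,[(0,0),(2,0),(1,0)]⟩]⟩) (.Q [0,-1,0,-3,0,0,0,0,0,-1]
  (.pp true [-1,1]) (.R ⟨1,true,false,true,[1,-1],[0,1],[0,1,-1,-2],(⟨0,[(30,0)]⟩,⟨0,[(31,0)]⟩),(⟨0,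
  [(31,0)]⟩,⟨0,[(30,0)]⟩),⟨0,[(8,0),(1,0)]⟩,.k,.k,(.r (-1) ⟨13,[(0,3),(1,7),(12,3),(0,0),(0,0),(7,
  7),(10,9),(0,1)]⟩ ⟨0,[(4,1),(1,1),(25,1)]⟩),(.r (-1) ⟨13,[(0,3),(1,7),(12,3),(0,0),(0,0),(7,7),
  (10,9),(0,1)]⟩ ⟨0,[(4,1),(1,1),(25,1)]⟩),(.r (-1) ⟨2,[(0,0),(1,2),(10,0),(1,0),(9,1),(10,1),(0,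
  0)]⟩ ⟨0,[(4,2),(1,2),(25,2)]⟩),.k,⟨true,0,⟨0,[(2,0),(10,0),(18,0)]⟩,⟨0,[(4,2),(1,2),(25,2)]⟩⟩,
  ⟨false,1,⟨3,[(1,1),(0,1),(10,1),(3,0),(0,3),(0,1),(16,1),(0,0)]⟩,⟨0,[(21,0),(2,0)]⟩⟩,⟨false,0,⟨0,
  [(35,0)]⟩,⟨1,[(4,0),(10,0),(21,0)]⟩⟩,⟨true,0,⟨0,[(4,0),(1,0),(11,0),(0,0)]⟩,⟨2,[(0,1),(19,0),(1,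
  0)]⟩⟩,⟨true,0,⟨0,[(39,0)]⟩,⟨0,[]⟩⟩,⟨false,1,⟨7,[(4,5),(6,11),(4,0),(0,0),(0,1),(0,1)]⟩,⟨0,[(0,
  0)]⟩⟩,[]⟩) (.R ⟨1,true,false,true,[1,0,-1],[0,0,1],[1,1,0,0,0,0,0,-1],(⟨0,[(27,0)]⟩,⟨0,[(28,0)]⟩),
  (⟨0,[(28,0)]⟩,⟨0,[(27,0)]⟩),⟨0,[(8,0)]⟩,.k,.k,.k,.k,(.r (-1) ⟨9,[(2,7),(2,5),(30,2),(0,6)]⟩ ⟨0,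
  [(7,0),(17,0),(0,0)]⟩),.k,⟨false,1,⟨19,[(0,4),(1,15),(1,4),(0,6),(6,9),(23,0),(0,13)]⟩,⟨0,[(26,
  1)]⟩⟩,⟨true,0,⟨0,[(12,1),(5,0),(0,0)]⟩,⟨0,[(0,0),(12,1),(6,1),(11,2)]⟩⟩,⟨false,0,⟨0,[]⟩,⟨3,[(16,
  0),(0,0),(19,1)]⟩⟩,⟨true,(-1),⟨0,[(6,0)]⟩,⟨27,[(2,7),(6,23),(6,0),(0,0),(7,7),(3,1),(2,7)]⟩⟩,
  ⟨true,0,⟨0,[(34,0)]⟩,⟨0,[(35,0)]⟩⟩,⟨false,0,⟨1,[(7,0),(3,0),(3,0)]⟩,⟨1,[(2,0),(1,0),(4,0),(3,0),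
  (18,2)]⟩⟩,[]⟩))) (.I [0,0,1,1,0,0,0,0,-1] (.Q [0,1,1,0,0,0,0,0,1,0,0,-1] (.p false [0,0,0,1] []
  (⟨0,[(18,0)]⟩,⟨0,[(17,0)]⟩) .k 0 (⟨0,[]⟩,⟨0,[]⟩) .k .k) (.K ⟨0,[0,0,0,1],0,0,(⟨0,[(19,0)]⟩,⟨0,
  [(18,0)]⟩),.k,(.r (-1) ⟨1,[(17,0),(17,1),(0,0)]⟩ ⟨0,[(1,0)]⟩),(.x 0 ⟨0,[(31,0)]⟩ ⟨3,[(16,0),(0,0),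
  (11,1),(0,3)]⟩),.k,.k,[⟨0,[(19,0)]⟩,⟨0,[(18,0)]⟩,⟨0,[(3,0),(8,0),(6,0),(3,0)]⟩,⟨0,[(0,0)]⟩]⟩) (.R
  ⟨1,true,false,true,[1,0,-1],[0,0,1],[1,1,0,0,0,0,0,-1],(⟨0,[(27,0)]⟩,⟨0,[(28,0)]⟩),(⟨0,[(28,0)]⟩,
  ⟨0,[(27,0)]⟩),⟨0,[(8,0)]⟩,.k,.k,.k,.k,(.r (-1) ⟨1,[(0,1),(8,0),(2,3),(4,0),(0,1),(1,0),(2,0),(11,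
  2)]⟩ ⟨4,[(2,1),(19,0),(2,0),(0,6),(7,0)]⟩),.k,⟨false,1,⟨1,[(0,1),(8,0),(2,3),(4,0),(0,1),(1,0),(2,
  0),(11,0)]⟩,⟨0,[(26,1)]⟩⟩,⟨true,0,⟨0,[(12,1),(5,0),(0,0)]⟩,⟨0,[(0,1),(1,0),(3,0),(6,0),(3,0),(0,
  1),(1,3),(11,1)]⟩⟩,⟨false,0,⟨0,[]⟩,⟨3,[(16,0),(0,0),(19,1)]⟩⟩,⟨true,(-1),⟨0,[(6,0)]⟩,⟨0,[(9,0),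
  (25,0)]⟩⟩,⟨true,0,⟨0,[(34,0)]⟩,⟨0,[(35,0)]⟩⟩,⟨false,0,⟨1,[(7,0),(3,0),(3,0)]⟩,⟨1,[(0,1),(8,0),(4,
  0),(2,0),(0,1),(1,2),(11,1)]⟩⟩,[]⟩)) (.K ⟨0,[0,0,0,1],0,0,(⟨0,[(18,0)]⟩,⟨0,[(17,0)]⟩),.k,(.x 0 ⟨1,
  [(7,0),(1,0),(10,0),(2,1),(0,0)]⟩ ⟨0,[(30,0),(4,0)]⟩),(.x 0 ⟨0,[(30,0)]⟩ ⟨3,[(15,0),(0,0),(11,1),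
  (0,3)]⟩),.k,.k,[⟨0,[(18,0)]⟩,⟨0,[(17,0)]⟩,⟨0,[(2,0),(8,0),(6,0),(3,0)]⟩,⟨47,[(0,29),(0,5),(2,17),
  (0,21),(10,8),(0,47),(1,13),(0,29),(7,12)]⟩]⟩))) (.I [1,1,-2,-2,0,0,0,-1] (.Q [0,-1,0,-3,0,0,0,0,
  0,-1] (.pp true [-1,1]) (.R ⟨1,true,false,true,[1,-1],[0,1],[0,1,-1,-2],(⟨0,[(29,0)]⟩,⟨0,[(30,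
  0)]⟩),(⟨0,[(30,0)]⟩,⟨0,[(29,0)]⟩),⟨0,[(7,0),(1,0)]⟩,.k,.k,(.r (-1) ⟨13,[(0,3),(0,7),(12,3),(0,0),
  (0,0),(7,7),(10,9),(0,1)]⟩ ⟨0,[(3,1),(1,1),(25,1)]⟩),(.r (-1) ⟨13,[(0,3),(0,7),(12,3),(0,0),(0,0),
  (7,7),(10,9),(0,1)]⟩ ⟨0,[(3,1),(1,1),(25,1)]⟩),(.r (-1) ⟨2,[(0,0),(0,2),(10,0),(1,0),(9,1),(10,1),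
  (0,0)]⟩ ⟨0,[(3,2),(1,2),(25,2)]⟩),.k,⟨true,0,⟨0,[(1,0),(10,0),(18,0)]⟩,⟨0,[(3,2),(1,2),(25,2)]⟩⟩,
  ⟨false,1,⟨1,[(1,1),(1,0),(6,1),(1,1),(4,0),(0,0),(17,0)]⟩,⟨0,[(20,0),(2,0)]⟩⟩,⟨false,0,⟨0,[(34,
  0)]⟩,⟨1,[(3,0),(10,0),(21,0)]⟩⟩,⟨true,0,⟨0,[(3,0),(1,0),(11,0),(0,0)]⟩,⟨2,[(0,1),(18,0),(1,0)]⟩⟩,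
  ⟨true,0,⟨0,[(38,0)]⟩,⟨0,[]⟩⟩,⟨false,1,⟨7,[(3,5),(6,11),(4,0),(0,0),(0,1),(0,1)]⟩,⟨0,[(0,0)]⟩⟩,
  []⟩) (.R ⟨1,true,false,true,[1,0,-1],[0,0,1],[1,1,0,0,0,0,0,-1],(⟨0,[(26,0)]⟩,⟨0,[(27,0)]⟩),(⟨0,
  [(27,0)]⟩,⟨0,[(26,0)]⟩),⟨0,[(7,0)]⟩,.k,.k,.k,.k,(.r (-1) ⟨9,[(1,7),(2,5),(30,2),(0,6)]⟩ ⟨0,[(6,0),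
  (17,0),(0,0)]⟩),.k,⟨false,1,⟨19,[(0,4),(0,15),(1,4),(0,6),(6,9),(23,0),(0,13)]⟩,⟨0,[(25,1)]⟩⟩,
  ⟨true,0,⟨0,[(11,1),(5,0),(0,0)]⟩,⟨0,[(0,0),(11,1),(6,1),(11,2)]⟩⟩,⟨false,0,⟨0,[]⟩,⟨3,[(15,0),(0,
  0),(19,1)]⟩⟩,⟨true,(-1),⟨0,[(5,0)]⟩,⟨27,[(1,7),(6,23),(6,0),(0,0),(7,7),(3,1),(2,7)]⟩⟩,⟨true,0,⟨0,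
  [(33,0)]⟩,⟨0,[(34,0)]⟩⟩,⟨false,0,⟨1,[(6,0),(3,0),(3,0)]⟩,⟨1,[(1,0),(1,0),(4,0),(3,0),(18,2)]⟩⟩,
  []⟩)) (.Q [0,-1,0,-1,1,0,-2,-2,0,-1,2] (.p true [0,0,1] [1,0,-1] (⟨0,[(26,0)]⟩,⟨0,[(25,0)]⟩) .k 2
  (⟨0,[(25,0)]⟩,⟨0,[(26,0)]⟩) .k (.r 0 ⟨0,[(24,1)]⟩ ⟨0,[(10,1),(10,1),(13,0)]⟩)) (.Q [0,0,1,0,0,0,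
  -2,0,0,-1,2] (.p true [0,0,1] [1,0,-1] (⟨0,[(27,0)]⟩,⟨0,[(26,0)]⟩) .k 2 (⟨0,[(26,0)]⟩,⟨0,[(27,
  0)]⟩) .k (.r 0 ⟨0,[(25,1)]⟩ ⟨1,[(0,0),(3,0),(6,1),(5,0),(0,0),(16,0)]⟩)) (.R ⟨1,true,false,false,
  [0,0,1],[1,-1,-1],[1,0,0,0,0,0,0,1],(⟨0,[(28,0)]⟩,⟨0,[(27,0)]⟩),(⟨0,[(8,0)]⟩,⟨0,[(28,0),(2,0)]⟩),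
  ⟨0,[(10,0)]⟩,.k,.k,.k,(.r 0 ⟨2,[(0,1),(1,0),(10,0),(1,1),(18,0)]⟩ ⟨0,[(1,0),(10,1),(5,0),(0,0),
  (13,0)]⟩),.k,.k,⟨false,0,⟨2,[(0,0),(1,0),(10,2),(1,0),(18,0)]⟩,⟨0,[(1,0),(10,1),(5,0),(0,0),(13,
  0)]⟩⟩,⟨true,0,⟨0,[(0,0)]⟩,⟨0,[(12,1),(5,0),(0,0)]⟩⟩,⟨true,0,⟨0,[]⟩,⟨0,[(39,0)]⟩⟩,⟨false,1,⟨0,[(1,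
  0)]⟩,⟨1,[(7,0),(3,0),(3,0)]⟩⟩,⟨false,1,⟨1,[(4,0),(10,0),(21,0)]⟩,⟨0,[(35,0)]⟩⟩,⟨true,1,⟨19,[(1,7),
  (7,7),(6,0),(0,0),(5,7),(5,1)]⟩,⟨0,[(6,0)]⟩⟩,[]⟩) (.Q [0,0,1,0,0,0,-1,-1,1,0,1,-1] (.p true [0,0,
  1] [0,0,0,1] (⟨0,[(28,0)]⟩,⟨0,[(27,0)]⟩) .k 2 (⟨0,[(19,0)]⟩,⟨0,[(18,0)]⟩) .k (.x (-1) ⟨3,[(0,1),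
  (15,0),(0,0),(10,3),(0,0),(6,0)]⟩ ⟨0,[(21,0),(5,0)]⟩)) (.Q [0,0,0,0,0,-1,0,0,0,1,0,-1] (.p false
  [0,0,0,1] [1] (⟨0,[(20,0)]⟩,⟨0,[(19,0)]⟩) .k 1 (⟨0,[]⟩,⟨0,[]⟩) .k .k) (.R ⟨1,false,false,false,[1,
  0,0,-1],[0,1,1],[0,0,0,-1,0,0,0,0,-1],(⟨0,[(20,0)]⟩,⟨0,[(21,0)]⟩),(⟨0,[(30,0),(2,0)]⟩,⟨0,[(10,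
  0)]⟩),⟨0,[(0,0)]⟩,.k,.k,(.x (-1) ⟨3,[(18,0),(0,0),(11,1),(0,3)]⟩ ⟨0,[(33,0)]⟩),(.r (-1) ⟨1,[(2,0),
  (0,0),(14,0),(16,0),(1,0)]⟩ ⟨9,[(1,2),(2,4),(0,0),(2,2),(6,4),(3,2),(1,2),(0,1),(0,0)]⟩),(.r (-1)
  ⟨1,[(2,2),(0,0),(11,3),(2,0),(3,1),(2,1),(8,2)]⟩ ⟨8,[(1,2),(2,7),(3,2),(6,0),(3,2),(1,2),(0,2),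
  (13,1)]⟩),.k,⟨false,1,⟨1,[(2,2),(0,0),(11,3),(2,0),(3,1),(2,1),(8,2)]⟩,⟨7,[(1,0),(2,4),(0,4),(0,
  2),(1,3),(6,7),(3,0),(1,0),(0,0)]⟩⟩,⟨true,0,⟨0,[(14,0),(5,0)]⟩,⟨0,[(21,0),(1,0)]⟩⟩,⟨true,0,⟨0,
  [(37,0)]⟩,⟨0,[(36,0)]⟩⟩,⟨false,0,⟨1,[(1,1),(0,0),(1,0),(8,0),(1,0),(0,0)]⟩,⟨1,[(2,0),(0,0),(11,1),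
  (2,0),(2,1),(0,1),(11,0)]⟩⟩,⟨false,1,⟨3,[(18,0),(0,0),(19,1)]⟩,⟨0,[]⟩⟩,⟨false,0,⟨0,[(1,0),(0,0),
  (1,0),(10,0)]⟩,⟨1,[(2,0),(0,0),(11,1),(2,0),(2,1),(0,1),(11,0),(2,1)]⟩⟩,[.o ⟨false,0,⟨0,[(9,0)]⟩,
  ⟨7,[(3,3),(14,0),(0,0),(11,1),(5,3),(3,3)]⟩⟩,.o ⟨false,1,⟨5,[(6,1),(2,1),(7,3),(13,0),(7,2)]⟩,⟨0,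
  [(22,0),(14,0)]⟩⟩,.o ⟨false,1,⟨1,[(21,1),(9,0),(6,0)]⟩,⟨0,[(14,0),(5,0),(2,0)]⟩⟩,.a ⟨true,0,⟨0,
  [(21,0)]⟩,⟨0,[(20,0)]⟩⟩ ⟨false,1,⟨1,[(2,0),(0,0),(11,1),(2,0),(15,0)]⟩,⟨15,[(1,0),(2,4),(0,12),(0,
  2),(1,3),(6,7),(3,0),(1,0),(0,0)]⟩⟩ ⟨true,0,⟨0,[(9,0),(10,0)]⟩,⟨0,[(21,0),(0,0),(14,0)]⟩⟩]⟩) (.R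
  ⟨0,false,false,true,[1,0,0,-1],[1,0,-1],[0,0,0,-1,0,0,0,0,-1],(⟨0,[(20,0)]⟩,⟨0,[(21,0)]⟩),(⟨0,
  [(29,0)]⟩,⟨0,[(30,0)]⟩),⟨0,[(0,0)]⟩,.k,.k,(.x (-1) ⟨3,[(18,0),(0,0),(11,1),(0,3)]⟩ ⟨0,[(33,0)]⟩),
  .k,.k,.k,⟨false,1,⟨1,[(15,1),(2,0),(18,1),(1,0)]⟩,⟨1,[(1,0),(0,0),(2,0),(0,0),(1,0),(6,0),(5,0),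
  (0,0)]⟩⟩,⟨true,0,⟨0,[(20,0),(2,0)]⟩,⟨0,[(14,0),(6,0)]⟩⟩,⟨true,0,⟨0,[(37,0)]⟩,⟨0,[(36,0)]⟩⟩,⟨false,
  0,⟨0,[(1,0)]⟩,⟨11,[(2,3),(3,1),(2,1),(5,7),(0,5),(1,5),(2,11),(9,0),(7,2)]⟩⟩,⟨false,0,⟨0,[]⟩,⟨0,
  []⟩⟩,⟨false,0,⟨0,[]⟩,⟨0,[]⟩⟩,[.o ⟨false,0,⟨0,[(22,0)]⟩,⟨7,[(17,3),(0,0),(0,0),(11,1),(7,3)]⟩⟩,.o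
  ⟨false,1,⟨19,[(3,3),(7,3),(6,2),(0,2),(5,3),(5,5)]⟩,⟨5,[(8,0),(0,0),(6,0),(0,0),(13,0)]⟩⟩,.o
  ⟨false,1,⟨1,[(21,1),(9,0),(6,0)]⟩,⟨0,[(14,0),(5,0),(2,0)]⟩⟩,.a ⟨true,0,⟨0,[(21,0)]⟩,⟨0,[(20,0)]⟩⟩
  ⟨false,1,⟨1,[(2,0),(0,0),(11,1),(2,0),(15,0)]⟩,⟨15,[(1,0),(2,4),(0,12),(0,2),(1,3),(6,7),(3,0),(1,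
  0),(0,0)]⟩⟩ ⟨true,0,⟨0,[(20,0),(1,0)]⟩,⟨5,[(8,0),(0,0),(6,0),(0,0),(3,5),(9,0)]⟩⟩]⟩)) (.I [0,0,1,
  1,0,0,0,0,-1] (.K ⟨0,[0,0,0,1],0,0,(⟨0,[(21,0)]⟩,⟨0,[(20,0)]⟩),.k,(.r (-1) ⟨1,[(19,0),(17,1),(0,
  0)]⟩ ⟨0,[(0,0)]⟩),(.x 0 ⟨0,[(33,0)]⟩ ⟨3,[(18,0),(0,0),(11,1),(0,3)]⟩),.k,.k,[⟨0,[(21,0)]⟩,⟨0,[(20,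
  0)]⟩,⟨0,[(1,0),(23,0)]⟩,⟨3,[(5,1),(2,1),(10,0),(0,3),(1,1),(0,1),(7,0)]⟩]⟩) (.K ⟨0,[0,0,0,1],0,0,
  (⟨0,[(21,0)]⟩,⟨0,[(20,0)]⟩),.k,(.x 0 ⟨1,[(10,0),(1,0),(10,0),(2,1),(0,0)]⟩ ⟨0,[(33,0),(4,0)]⟩),
  (.x 0 ⟨0,[(33,0)]⟩ ⟨3,[(18,0),(0,0),(11,1),(0,3)]⟩),.k,.k,[⟨0,[(21,0)]⟩,⟨0,[(20,0)]⟩,⟨0,[(1,0),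
  (23,0)]⟩,⟨3,[(5,1),(2,1),(10,0),(0,3),(1,1),(0,1),(7,0)]⟩]⟩)))) (.Q [0,1,0,-2,-1,0,1,1,0,0,-1]
  (.p false [0,0,1] [] (⟨0,[(27,0)]⟩,⟨0,[(26,0)]⟩) .k 0 (⟨0,[]⟩,⟨0,[]⟩) .k .k) (.R ⟨1,true,false,
  false,[0,0,1],[0,1],[1,0,0,0,0,0,0,1],(⟨0,[(28,0)]⟩,⟨0,[(27,0)]⟩),(⟨0,[(31,0)]⟩,⟨0,[(30,0)]⟩),⟨0,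
  [(10,0)]⟩,.k,.k,.k,.k,(.x 0 ⟨3,[(0,0),(1,0),(2,0),(2,1),(1,5),(13,2),(4,0),(2,0)]⟩ ⟨1,[(9,0),(3,
  1),(0,0),(5,0),(6,1),(3,3),(4,0)]⟩),.k,⟨true,0,⟨0,[(13,0),(21,0)]⟩,⟨1,[(1,0),(2,0),(0,0),(26,
  1)]⟩⟩,⟨false,1,⟨1,[(13,1),(9,1),(12,0),(0,0)]⟩,⟨0,[(24,0)]⟩⟩,⟨true,0,⟨0,[]⟩,⟨0,[(39,0)]⟩⟩,⟨false,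
  1,⟨1,[(4,0),(13,0),(0,0),(17,0)]⟩,⟨23,[(0,7),(13,7),(0,3),(0,2),(0,2),(11,1)]⟩⟩,⟨false,1,⟨1,[(4,
  0),(10,0),(21,0)]⟩,⟨0,[(35,0)]⟩⟩,⟨true,1,⟨7,[(4,5),(6,3),(4,0),(0,0),(0,1),(0,1)]⟩,⟨0,[(0,0)]⟩⟩,
  []⟩) (.Q [0,1,1,0,-1,0,0,0,1,0,0,-1] (.p false [0,0,0,1] [] (⟨0,[(19,0)]⟩,⟨0,[(18,0)]⟩) .k 0 (⟨0,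
  []⟩,⟨0,[]⟩) .k .k) (.K ⟨0,[0,0,0,1],0,(-1),(⟨0,[(20,0)]⟩,⟨0,[(19,0)]⟩),.k,(.x 0 ⟨1,[(9,0),(1,0),
  (10,0),(2,1),(0,0)]⟩ ⟨0,[(32,0),(4,0)]⟩),(.x 0 ⟨0,[(32,0)]⟩ ⟨3,[(17,0),(0,0),(11,1),(0,3)]⟩),.k,
  .k,[⟨0,[(20,0)]⟩,⟨0,[(19,0)]⟩,⟨1,[(17,0),(2,1),(16,0),(2,1)]⟩,⟨0,[(0,0)]⟩]⟩) (.I [1,0,0,-1,0,0,0,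
  0,-1] (.Q [0,1,-1,0,0,0,0,0,-1,0,0,1] (.p true [0,0,0,1] [] (⟨0,[(21,0)]⟩,⟨0,[(20,0)]⟩) .k 0 (⟨0,
  []⟩,⟨0,[]⟩) .k .k) (.K ⟨0,[0,0,0,1],0,0,(⟨0,[(22,0)]⟩,⟨0,[(21,0)]⟩),.k,(.r (-1) ⟨1,[(20,0),(17,1),
  (0,0)]⟩ ⟨0,[(1,0),(2,0),(2,0),(27,0)]⟩),(.x 0 ⟨0,[(34,0)]⟩ ⟨3,[(19,0),(0,0),(11,1),(0,3)]⟩),.k,.k,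
  [⟨0,[(22,0)]⟩,⟨0,[(21,0)]⟩,⟨0,[(0,0)]⟩,⟨3,[(6,1),(2,1),(10,0),(0,3),(1,1),(0,1),(7,0)]⟩]⟩) (.R ⟨1,
  true,false,false,[0,0,1],[0,0,0,1],[1,1,0,0,0,0,0,1],(⟨0,[(31,0)]⟩,⟨0,[(30,0)]⟩),(⟨0,[(22,0)]⟩,⟨0,
  [(21,0)]⟩),⟨0,[(13,0)]⟩,.k,.k,.k,.k,(.r 0 ⟨0,[(1,0),(14,0)]⟩ ⟨31,[(3,7),(4,15),(9,3),(0,0),(0,16),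
  (11,1),(7,3)]⟩),.k,⟨false,0,⟨2,[(1,0),(2,0),(11,2),(2,0),(3,0),(2,0)]⟩,⟨1,[(6,1),(32,0),(0,0)]⟩⟩,
  ⟨true,0,⟨0,[(21,0),(2,0)]⟩,⟨0,[(15,0),(6,0)]⟩⟩,⟨false,0,⟨0,[]⟩,⟨3,[(19,0),(0,0),(19,1)]⟩⟩,⟨true,0,
  ⟨0,[(0,0),(25,0)]⟩,⟨0,[(2,0),(6,0),(13,0)]⟩⟩,⟨true,0,⟨0,[(37,0)]⟩,⟨0,[(38,0)]⟩⟩,⟨false,1,⟨14,[(0,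
  10),(2,4),(4,0),(3,3),(6,1),(0,3),(0,3),(6,1)]⟩,⟨0,[(1,0),(13,0),(0,0),(5,0)]⟩⟩,[]⟩)) (.Q [0,0,0,
  0,0,-1,0,0,0,1,0,-1] (.p false [0,0,0,1] [1] (⟨0,[(21,0)]⟩,⟨0,[(20,0)]⟩) .k 1 (⟨0,[]⟩,⟨0,[]⟩) .k
  .k) (.R ⟨1,false,false,true,[1,0,0,-1],[0,1],[1,1,0,0,0,0,0,0,-1],(⟨0,[(21,0)]⟩,⟨0,[(22,0)]⟩),(⟨0,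
  [(34,0)]⟩,⟨0,[(33,0)]⟩),⟨0,[(0,0)]⟩,.k,.k,(.x (-1) ⟨3,[(19,0),(0,0),(11,1),(0,3)]⟩ ⟨0,[(34,0)]⟩),
  (.x (-1) ⟨3,[(19,0),(0,0),(11,1),(0,3)]⟩ ⟨0,[(34,0)]⟩),(.r (-1) ⟨0,[(2,0),(14,0),(3,0),(1,0),(12,
  0),(1,0)]⟩ ⟨33,[(1,19),(2,4),(0,15),(0,3),(1,10),(11,4),(3,4),(3,4)]⟩),.k,⟨false,1,⟨0,[(2,0),(14,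
  0),(3,0),(1,0),(12,0)]⟩,⟨16,[(1,7),(2,1),(0,2),(0,4),(1,0),(11,1),(3,1),(3,1)]⟩⟩,⟨true,0,⟨0,[(21,
  0)]⟩,⟨0,[(15,0),(6,0),(1,0)]⟩⟩,⟨false,0,⟨0,[]⟩,⟨3,[(19,0),(0,0),(19,1)]⟩⟩,⟨false,0,⟨16,[(1,7),(2,
  1),(0,2),(0,4),(1,0),(11,1),(0,16),(2,1),(3,1)]⟩,⟨0,[(2,0),(14,0),(5,0)]⟩⟩,⟨true,0,⟨0,[(37,0)]⟩,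
  ⟨0,[(38,0)]⟩⟩,⟨false,0,⟨5,[(1,5),(3,1),(2,0),(12,5),(15,0)]⟩,⟨0,[(2,0),(14,0),(5,0),(14,0)]⟩⟩,[.o
  ⟨false,0,⟨0,[(37,0)]⟩,⟨1,[(32,0),(5,1),(1,0)]⟩⟩,.o ⟨false,1,⟨3,[(7,1),(10,1),(0,0),(0,0)]⟩,⟨0,
  [(17,0),(5,0)]⟩⟩,.o ⟨false,1,⟨1,[(22,1),(9,0),(6,0)]⟩,⟨0,[(15,0),(5,0),(2,0)]⟩⟩,.a ⟨true,0,⟨0,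
  [(22,0)]⟩,⟨0,[(21,0)]⟩⟩ ⟨false,1,⟨1,[(19,0),(19,0)]⟩,⟨0,[(1,0),(33,0)]⟩⟩ ⟨true,0,⟨0,[(21,0),(15,
  0)]⟩,⟨0,[(17,0),(4,0),(0,0)]⟩⟩]⟩) (.R ⟨0,false,false,true,[1,0,0,-1],[1,0,-1],[0,0,0,-1,0,0,0,0,
  -1],(⟨0,[(21,0)]⟩,⟨0,[(22,0)]⟩),(⟨0,[(30,0)]⟩,⟨0,[(31,0)]⟩),⟨0,[(0,0)]⟩,.k,.k,(.x (-1) ⟨3,[(19,0),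
  (0,0),(11,1),(0,3)]⟩ ⟨0,[(34,0)]⟩),.k,.k,.k,⟨false,1,⟨1,[(16,1),(2,0),(18,1),(1,0)]⟩,⟨0,[(1,0),
  (13,0),(10,0)]⟩⟩,⟨true,0,⟨0,[(21,0),(2,0)]⟩,⟨0,[(15,0),(6,0)]⟩⟩,⟨true,0,⟨0,[(38,0)]⟩,⟨0,[(37,
  0)]⟩⟩,⟨false,0,⟨0,[(1,0),(19,0),(1,0),(11,0)]⟩,⟨4,[(2,4),(1,0),(12,0),(0,0),(13,0)]⟩⟩,⟨false,0,⟨0,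
  []⟩,⟨0,[]⟩⟩,⟨false,0,⟨0,[]⟩,⟨0,[]⟩⟩,[.o ⟨false,0,⟨0,[(23,0)]⟩,⟨7,[(18,3),(0,0),(0,0),(11,1),(7,
  3)]⟩⟩,.o ⟨false,1,⟨7,[(12,3),(6,0),(0,0),(11,1),(5,3)]⟩,⟨4,[(4,0),(12,0),(0,0),(13,0)]⟩⟩,.o
  ⟨false,1,⟨1,[(22,1),(9,0),(6,0)]⟩,⟨0,[(15,0),(5,0),(2,0)]⟩⟩,.a ⟨true,0,⟨0,[(22,0)]⟩,⟨0,[(21,0)]⟩⟩
  ⟨false,1,⟨0,[(2,0),(14,0),(3,0),(1,0)]⟩,⟨16,[(1,7),(2,1),(0,2),(0,4),(1,0),(11,1),(3,1),(3,1)]⟩⟩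
  ⟨true,0,⟨0,[(21,0),(1,0)]⟩,⟨4,[(4,0),(12,0),(0,0),(3,4),(9,0)]⟩⟩]⟩))))))))) (.I [0,-1,2,1,1,0,0,
  -2] (.I [1,1,-2,-2,-1,0,0,2] (.R ⟨1,true,false,false,[0,0,1],[1,1,-1],[0,0,2,1,0,0,0,-1],(⟨0,[(25,
  0)]⟩,⟨0,[(24,0)]⟩),(⟨0,[(24,0),(3,0)]⟩,⟨0,[(7,0)]⟩),⟨0,[(7,0)]⟩,.k,.k,.k,(.r 0 ⟨31,[(0,7),(1,15),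
  (9,3),(0,2),(0,2),(4,7),(2,15),(3,1)]⟩ ⟨0,[(1,0),(28,0)]⟩),(.r 0 ⟨3,[(0,3),(12,0),(0,0),(19,1)]⟩
  ⟨0,[(1,0),(29,0)]⟩),.k,⟨true,0,⟨1,[(21,0),(0,0)]⟩,⟨0,[]⟩⟩,⟨false,1,⟨5,[(0,1),(1,3),(3,5),(6,0),(0,
  0),(16,1)]⟩,⟨1,[(1,0),(1,0),(5,1),(5,0),(0,0),(15,0)]⟩⟩,⟨false,1,⟨0,[(1,0)]⟩,⟨5,[(0,1),(1,3),(10,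
  0),(0,0),(16,1)]⟩⟩,⟨true,1,⟨0,[(6,0)]⟩,⟨0,[(3,0),(28,0)]⟩⟩,⟨true,1,⟨0,[(1,0),(29,0)]⟩,⟨0,[(0,
  0)]⟩⟩,⟨false,2,⟨11,[(4,3),(1,15),(1,3),(4,0),(0,0),(19,5)]⟩,⟨1,[(0,0),(2,0),(5,1),(5,0),(0,0),(12,
  1)]⟩⟩,[]⟩) (.I [0,0,-2,-2] (.R ⟨1,true,false,false,[0,0,1],[1,1,-1],[1,0,1,1,0,0,0,-1],(⟨0,[(26,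
  0)]⟩,⟨0,[(25,0)]⟩),(⟨0,[(25,0),(3,0)]⟩,⟨0,[(8,0)]⟩),⟨0,[(8,0)]⟩,.k,.k,.k,(.r 0 ⟨5,[(0,0),(2,3),
  (16,3),(2,3)]⟩ ⟨0,[(2,0),(28,0)]⟩),(.r 0 ⟨2,[(0,1),(2,1),(16,1),(2,1)]⟩ ⟨0,[(2,0),(29,0)]⟩),.k,
  ⟨true,0,⟨0,[]⟩,⟨1,[(22,0),(0,0)]⟩⟩,⟨false,1,⟨0,[(3,0),(3,0),(29,0)]⟩,⟨1,[(0,0),(1,1),(1,1)]⟩⟩,
  ⟨false,1,⟨1,[(0,0),(0,1)]⟩,⟨5,[(0,0),(2,3),(16,3),(2,3)]⟩⟩,⟨true,1,⟨0,[(7,0)]⟩,⟨0,[(4,0),(28,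
  0)]⟩⟩,⟨true,1,⟨0,[(1,0),(29,0)]⟩,⟨0,[(3,0),(0,0),(13,0),(2,0),(8,0)]⟩⟩,⟨false,2,⟨11,[(5,3),(1,15),
  (1,3),(4,0),(0,0),(19,5)]⟩,⟨1,[(0,0),(3,1),(25,1)]⟩⟩,[]⟩) (.Q [0,-1,0,-1,1,0,-2,-2,0,-1,2] (.p
  true [0,0,1] [1,0,-1] (⟨0,[(26,0)]⟩,⟨0,[(25,0)]⟩) .k 2 (⟨0,[(25,0)]⟩,⟨0,[(26,0)]⟩) .k (.r 0 ⟨0,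
  [(24,1)]⟩ ⟨0,[(10,1),(10,1),(13,0)]⟩)) (.R ⟨1,true,false,true,[1,0,-1],[0,0,1],[0,1,0,-1,0,0,0,
  -1],(⟨0,[(26,0)]⟩,⟨0,[(27,0)]⟩),(⟨0,[(27,0)]⟩,⟨0,[(26,0)]⟩),⟨0,[(7,0)]⟩,.k,.k,.k,.k,(.r (-1) ⟨0,
  [(0,0),(10,1),(5,0),(0,0),(13,0)]⟩ ⟨1,[(1,0),(23,3)]⟩),.k,⟨false,1,⟨0,[(0,0),(10,1),(5,0),(0,0),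
  (13,0)]⟩,⟨1,[(1,0),(2,0),(20,1),(7,0)]⟩⟩,⟨true,0,⟨0,[(11,1),(5,0),(0,0)]⟩,⟨0,[(1,0),(2,0),(14,0),
  (2,0),(8,0)]⟩⟩,⟨false,0,⟨0,[(34,0)]⟩,⟨1,[(1,0),(33,0),(0,0)]⟩⟩,⟨true,(-1),⟨0,[(5,0)]⟩,⟨19,[(0,7),
  (7,7),(6,0),(0,0),(5,7),(5,1)]⟩⟩,⟨true,0,⟨0,[(38,0)]⟩,⟨0,[]⟩⟩,⟨false,0,⟨1,[(6,0),(3,0),(3,0)]⟩,⟨0,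
  [(0,0)]⟩⟩,[]⟩) (.R ⟨1,true,false,false,[0,0,1],[1,1,-1],[1,1,0,0,0,0,0,1],(⟨0,[(27,0)]⟩,⟨0,[(26,
  0)]⟩),(⟨0,[(26,0),(3,0)]⟩,⟨0,[(9,0)]⟩),⟨0,[(9,0)]⟩,.k,.k,.k,(.r 0 ⟨3,[(4,2),(16,1),(2,1),(9,0),(3,
  0)]⟩ ⟨0,[(3,0),(28,0)]⟩),(.r 0 ⟨0,[(4,0),(29,0),(3,0)]⟩ ⟨0,[(3,0),(29,0)]⟩),.k,⟨true,(-1),⟨0,[(0,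
  0),(3,0),(14,0),(2,0),(8,0)]⟩,⟨0,[(3,0)]⟩⟩,⟨false,1,⟨0,[(4,0),(3,0),(29,0)]⟩,⟨1,[(3,0),(1,0),(5,
  1),(5,0),(0,0),(15,0)]⟩⟩,⟨false,0,⟨0,[]⟩,⟨3,[(15,0),(0,0),(19,1)]⟩⟩,⟨true,1,⟨0,[(8,0)]⟩,⟨0,[(5,0),
  (28,0)]⟩⟩,⟨true,0,⟨0,[(33,0)]⟩,⟨0,[(34,0)]⟩⟩,⟨false,2,⟨1,[(1,0),(6,1),(26,0),(0,0)]⟩,⟨0,[(0,0),(3,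
  0),(6,1),(10,1),(8,1)]⟩⟩,[]⟩)))) (.Q [0,0,1,0,0,0,-2,0,0,-1,2] (.p true [0,0,1] [1,0,-1] (⟨0,[(24,
  0)]⟩,⟨0,[(23,0)]⟩) .k 2 (⟨0,[(23,0)]⟩,⟨0,[(24,0)]⟩) .k (.r 0 ⟨0,[(22,1)]⟩ ⟨0,[(8,1),(10,1),(13,
  0)]⟩)) (.R ⟨1,true,false,true,[1,0,-1],[0,0,1],[1,1,0,0,0,0,0,-1],(⟨0,[(24,0)]⟩,⟨0,[(25,0)]⟩),(⟨0,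
  [(25,0)]⟩,⟨0,[(24,0)]⟩),⟨0,[(5,0)]⟩,.k,.k,.k,.k,(.r (-1) ⟨0,[(2,0),(3,0),(2,3),(5,0),(0,0),(3,1),
  (8,0)]⟩ ⟨1,[(0,1),(3,0),(3,0),(3,0)]⟩),.k,⟨false,1,⟨0,[(1,0),(4,1),(2,3),(5,1),(0,1),(12,0)]⟩,⟨2,
  [(0,1),(1,0),(9,1),(18,0)]⟩⟩,⟨true,0,⟨0,[(9,1),(5,0),(0,0)]⟩,⟨0,[(0,0)]⟩⟩,⟨false,0,⟨0,[]⟩,⟨3,[(13,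
  0),(0,0),(19,1)]⟩⟩,⟨true,(-1),⟨0,[(3,0)]⟩,⟨0,[(6,0),(25,0)]⟩⟩,⟨true,0,⟨0,[(31,0)]⟩,⟨0,[(32,0)]⟩⟩,
  ⟨false,0,⟨1,[(4,0),(3,0),(3,0)]⟩,⟨0,[(1,0),(4,1),(2,1),(5,0),(0,0),(12,1)]⟩⟩,[]⟩) (.Q [0,-1,0,1,0,
  0,2,2,0,1,-2] (.p false [0,0,1] [1,0,-1] (⟨0,[(25,0)]⟩,⟨0,[(24,0)]⟩) .k 2 (⟨0,[(24,0)]⟩,⟨0,[(25,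
  0)]⟩) .k (.r 0 ⟨0,[(23,1)]⟩ ⟨9,[(0,7),(5,7),(6,0),(0,0),(5,3),(0,3),(7,3),(2,3)]⟩)) (.R ⟨1,true,
  false,false,[1,0,-1],[0,1,1],[1,0,0,0,0,0,0,-1],(⟨0,[(25,0)]⟩,⟨0,[(26,0)]⟩),(⟨0,[(26,0),(2,0)]⟩,
  ⟨0,[(6,0)]⟩),⟨0,[(6,0)]⟩,.k,.k,.k,(.r (-1) ⟨0,[(1,0),(5,0),(25,1)]⟩ ⟨0,[(5,0),(17,0),(0,0)]⟩),(.r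
  (-1) ⟨1,[(1,2),(0,0),(4,2),(22,0),(2,4)]⟩ ⟨0,[(5,1),(17,1)]⟩),.k,⟨false,1,⟨1,[(1,2),(0,0),(4,2),
  (22,0),(2,2)]⟩,⟨0,[(5,0),(17,0),(0,0)]⟩⟩,⟨true,0,⟨0,[(1,0)]⟩,⟨0,[(19,0),(3,0)]⟩⟩,⟨true,0,⟨0,[]⟩,
  ⟨0,[(37,0)]⟩⟩,⟨false,0,⟨0,[(0,0)]⟩,⟨0,[(7,0),(25,1)]⟩⟩,⟨false,1,⟨7,[(0,3),(6,3),(6,0),(0,0),(19,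
  1)]⟩,⟨0,[(33,0)]⟩⟩,⟨true,0,⟨0,[(0,0),(31,0)]⟩,⟨1,[(1,0),(0,0),(4,0),(10,1),(2,1),(8,2),(2,0)]⟩⟩,
  []⟩) (.Q [0,0,1,0,0,0,-1,-1,1,0,1,-1] (.p true [0,0,1] [0,0,0,1] (⟨0,[(26,0)]⟩,⟨0,[(25,0)]⟩) .k 2
  (⟨0,[(17,0)]⟩,⟨0,[(16,0)]⟩) .k (.x (-1) ⟨3,[(1,1),(12,0),(0,0),(10,3),(0,0),(6,0)]⟩ ⟨0,[(19,0),(5,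
  0)]⟩)) (.Q [0,0,-1,-1,0,0,1,1,-1,0,-1,1] (.p false [0,0,1] [0,0,0,1] (⟨0,[(27,0)]⟩,⟨0,[(26,0)]⟩)
  .k 2 (⟨0,[(18,0)]⟩,⟨0,[(17,0)]⟩) .k (.x (-1) ⟨3,[(2,1),(12,0),(0,0),(10,3),(0,0),(6,0)]⟩ ⟨0,[(20,
  0),(5,0)]⟩)) (.R ⟨1,true,false,false,[0,0,1],[0,0,0,1],[1,1,0,0,0,0,0,1],(⟨0,[(28,0)]⟩,⟨0,[(27,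
  0)]⟩),(⟨0,[(19,0)]⟩,⟨0,[(18,0)]⟩),⟨0,[(10,0)]⟩,.k,.k,.k,.k,(.x 0 ⟨0,[(10,0),(1,0)]⟩ ⟨7,[(4,0),(0,
  0),(3,1),(6,1),(0,1),(7,3),(1,7),(1,2),(1,7)]⟩),.k,⟨false,0,⟨1,[(4,0),(11,0),(17,0)]⟩,⟨14,[(1,6),
  (0,1),(0,4),(1,0),(3,2),(2,6),(4,3),(1,6),(17,7)]⟩⟩,⟨true,0,⟨0,[(18,0),(2,0)]⟩,⟨0,[(12,0),(6,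
  0)]⟩⟩,⟨false,0,⟨0,[]⟩,⟨3,[(16,0),(0,0),(19,1)]⟩⟩,⟨true,0,⟨0,[(1,0)]⟩,⟨0,[(0,0),(33,0)]⟩⟩,⟨true,0,
  ⟨0,[(34,0)]⟩,⟨0,[(35,0)]⟩⟩,⟨false,1,⟨11,[(1,11),(5,3),(1,3),(1,3),(4,0),(0,0),(19,5)]⟩,⟨0,[(0,
  0)]⟩⟩,[]⟩) (.R ⟨1,false,false,true,[1,0,0,-1],[1,0,-1],[0,0,0,-1,0,0,0,0,-1],(⟨0,[(18,0)]⟩,⟨0,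
  [(19,0)]⟩),(⟨0,[(27,0)]⟩,⟨0,[(28,0)]⟩),⟨1,[(0,1),(2,0),(0,0),(3,0),(1,0),(5,0),(15,0)]⟩,.k,.k,(.x
  (-1) ⟨3,[(16,0),(0,0),(11,1),(0,3)]⟩ ⟨0,[(31,0)]⟩),.k,(.x 0 ⟨0,[(10,0),(1,0)]⟩ ⟨7,[(4,0),(0,0),(3,
  1),(6,1),(0,1),(7,3),(1,7),(1,2),(1,7)]⟩),.k,⟨false,1,⟨7,[(5,3),(10,4),(0,0),(17,3),(1,1)]⟩,⟨37,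
  [(0,27),(2,21),(0,2),(1,1),(0,3),(9,4),(1,27),(0,23),(13,8)]⟩⟩,⟨true,0,⟨0,[(18,0),(2,0)]⟩,⟨0,[(12,
  0),(6,0)]⟩⟩,⟨true,0,⟨0,[(35,0)]⟩,⟨0,[(34,0)]⟩⟩,⟨false,0,⟨0,[(1,0)]⟩,⟨5,[(3,1),(1,1),(1,1),(8,2),
  (2,5),(9,0),(7,1)]⟩⟩,⟨false,1,⟨3,[(16,0),(0,0),(19,1)]⟩,⟨0,[]⟩⟩,⟨false,0,⟨0,[(0,0)]⟩,⟨1,[(14,1),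
  (1,0),(2,1),(16,0)]⟩⟩,[.o ⟨false,0,⟨0,[(20,0)]⟩,⟨7,[(15,3),(0,0),(0,0),(11,1),(7,3)]⟩⟩,.o ⟨false,
  1,⟨15,[(2,3),(6,3),(6,2),(0,2),(11,3),(7,1)]⟩,⟨5,[(6,0),(0,0),(6,0),(0,0),(13,0)]⟩⟩,.o ⟨false,1,
  ⟨1,[(19,1),(9,0),(6,0)]⟩,⟨0,[(12,0),(5,0),(2,0)]⟩⟩,.a ⟨true,0,⟨0,[(19,0)]⟩,⟨0,[(18,0)]⟩⟩ ⟨false,1,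
  ⟨5,[(2,1),(0,1),(1,1),(10,2),(18,1),(1,2)]⟩,⟨7,[(0,5),(5,0),(0,2),(6,0),(2,0),(1,5),(1,0),(2,
  0)]⟩⟩ ⟨true,0,⟨0,[(18,0),(1,0)]⟩,⟨5,[(6,0),(0,0),(6,0),(0,0),(3,5),(9,0)]⟩⟩]⟩)) (.Q [0,1,1,0,0,0,
  0,0,1,0,0,-1] (.p false [0,0,0,1] [] (⟨0,[(18,0)]⟩,⟨0,[(17,0)]⟩) .k 0 (⟨0,[]⟩,⟨0,[]⟩) .k .k) (.K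
  ⟨0,[0,0,0,1],0,0,(⟨0,[(19,0)]⟩,⟨0,[(18,0)]⟩),.k,(.x 0 ⟨1,[(8,0),(1,0),(10,0),(2,1),(0,0)]⟩ ⟨0,
  [(31,0),(4,0)]⟩),(.x 0 ⟨0,[(31,0)]⟩ ⟨3,[(16,0),(0,0),(11,1),(0,3)]⟩),.k,.k,[⟨0,[(19,0)]⟩,⟨0,[(18,
  0)]⟩,⟨0,[(1,0),(21,0)]⟩,⟨0,[(0,0)]⟩]⟩) (.Q [0,0,0,0,0,1,0,0,0,-1,0,1] (.p true [0,0,0,1] [1] (⟨0,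
  [(19,0)]⟩,⟨0,[(18,0)]⟩) .k 1 (⟨0,[]⟩,⟨0,[]⟩) .k .k) (.R ⟨0,false,false,true,[1,0,0,-1],[0,1],[0,0,
  0,-1,0,0,0,0,-1],(⟨0,[(19,0)]⟩,⟨0,[(20,0)]⟩),(⟨0,[(32,0)]⟩,⟨0,[(31,0)]⟩),⟨0,[(0,0)]⟩,.k,.k,(.x
  (-1) ⟨3,[(17,0),(0,0),(11,1),(0,3)]⟩ ⟨0,[(32,0)]⟩),(.x (-1) ⟨3,[(17,0),(0,0),(11,1),(0,3)]⟩ ⟨0,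
  [(32,0)]⟩),.k,.k,⟨false,0,⟨4,[(1,4),(1,3),(0,0),(0,0),(0,0),(6,1),(1,3),(3,4),(10,0)]⟩,⟨11,[(8,3),
  (1,3),(1,3),(4,0),(0,6),(6,5),(0,5),(8,11)]⟩⟩,⟨true,0,⟨0,[(19,0)]⟩,⟨1,[(0,1),(8,0),(1,0),(10,0),
  (2,0)]⟩⟩,⟨true,0,⟨0,[(36,0)]⟩,⟨0,[(35,0)]⟩⟩,⟨false,1,⟨11,[(8,3),(1,3),(1,3),(4,0),(0,6),(0,11),(5,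
  5),(0,5)]⟩,⟨0,[(1,0),(13,0),(5,0)]⟩⟩,⟨false,0,⟨0,[]⟩,⟨0,[]⟩⟩,⟨false,0,⟨0,[]⟩,⟨0,[]⟩⟩,[.o ⟨false,0,
  ⟨0,[(35,0)]⟩,⟨5,[(3,1),(11,3),(1,0),(0,0),(11,1),(7,1)]⟩⟩,.o ⟨false,1,⟨2,[(8,0),(1,0),(1,0),(4,0),
  (0,0)]⟩,⟨0,[(15,0),(5,0)]⟩⟩,.o ⟨false,1,⟨1,[(20,1),(9,0),(6,0)]⟩,⟨0,[(13,0),(5,0),(2,0)]⟩⟩,.a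
  ⟨true,0,⟨0,[(20,0)]⟩,⟨0,[(19,0)]⟩⟩ ⟨false,0,⟨0,[(1,0),(13,0),(3,0),(1,0)]⟩,⟨11,[(8,3),(1,3),(1,3),
  (4,0),(0,6),(6,5),(0,5)]⟩⟩ ⟨true,0,⟨0,[(19,0),(15,0)]⟩,⟨0,[(15,0),(4,0),(0,0)]⟩⟩]⟩) (.Q [0,1,1,0,
  0,0,0,0,1,1,0,-1] (.p false [0,0,0,1] [1] (⟨0,[(20,0)]⟩,⟨0,[(19,0)]⟩) .k 1 (⟨0,[]⟩,⟨0,[]⟩) .k .k)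
  (.R ⟨1,true,false,true,[1,0,0,-1],[0,1,1],[1,1,0,0,0,0,0,0,-1],(⟨0,[(20,0)]⟩,⟨0,[(21,0)]⟩),(⟨0,
  [(30,0),(2,0)]⟩,⟨0,[(10,0)]⟩),⟨0,[(1,0)]⟩,.k,.k,(.x (-1) ⟨3,[(18,0),(0,0),(11,1),(0,3)]⟩ ⟨0,[(33,
  0)]⟩),(.r 0 ⟨6,[(2,4),(1,4),(1,0),(7,8),(1,0),(1,0),(1,4)]⟩ ⟨3,[(9,3),(8,0),(0,2),(7,3)]⟩),(.r 0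
  ⟨41,[(2,31),(1,45),(0,27),(0,11),(7,9),(1,25),(1,4),(1,31),(10,6)]⟩ ⟨11,[(9,15),(1,3),(1,3),(4,0),
  (0,6),(6,5),(0,17)]⟩),.k,⟨false,0,⟨5,[(2,5),(1,3),(0,1),(0,0),(0,0),(6,5),(5,5),(1,1),(8,0)]⟩,⟨3,
  [(9,3),(8,0),(0,2),(7,3)]⟩⟩,⟨true,0,⟨0,[(14,0),(5,0)]⟩,⟨0,[(21,0),(1,0)]⟩⟩,⟨false,0,⟨0,[]⟩,⟨3,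
  [(18,0),(0,0),(19,1)]⟩⟩,⟨true,0,⟨0,[(0,0),(8,0)]⟩,⟨8,[(2,6),(0,1),(0,6),(1,0),(9,0),(9,1),(4,
  0)]⟩⟩,⟨true,0,⟨0,[(36,0)]⟩,⟨0,[(37,0)]⟩⟩,⟨false,1,⟨11,[(0,11),(8,15),(1,3),(1,3),(4,0),(0,0),(19,
  5)]⟩,⟨0,[(2,0),(1,0),(11,0)]⟩⟩,[]⟩) (.Q [0,1,-1,-2,-1,0,-1,-1,-1,-1,1,1] (.p true [0,0,1] [1,0,0,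
  -1] (⟨0,[(30,0)]⟩,⟨0,[(29,0)]⟩) .k 2 (⟨0,[(20,0)]⟩,⟨0,[(21,0)]⟩) .k (.r (-1) ⟨3,[(18,0),(0,2),(8,
  3)]⟩ ⟨1,[(0,0),(1,0),(1,0),(15,1),(5,1),(9,0)]⟩)) (.R ⟨1,true,false,false,[1,0,0,-1],[0,1,1],[0,0,
  0,-1,0,0,0,0,-1],(⟨0,[(21,0)]⟩,⟨0,[(22,0)]⟩),(⟨0,[(31,0),(2,0)]⟩,⟨0,[(11,0)]⟩),⟨0,[(2,0)]⟩,.k,.k,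
  (.x (-1) ⟨3,[(19,0),(0,0),(11,1),(0,3)]⟩ ⟨0,[(34,0)]⟩),(.r 0 ⟨17,[(0,3),(0,7),(3,6),(0,8),(12,2),
  (1,11),(10,0),(2,2)]⟩ ⟨3,[(10,3),(8,0),(0,2),(7,3)]⟩),(.r 0 ⟨3,[(0,3),(5,1),(14,3),(10,0),(6,0),
  (0,1)]⟩ ⟨11,[(10,15),(1,3),(1,3),(4,0),(0,6),(6,5),(0,17)]⟩),.k,⟨false,0,⟨3,[(0,3),(5,1),(14,3),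
  (10,0),(6,0),(0,1)]⟩,⟨11,[(10,15),(1,3),(1,3),(4,0),(0,6),(7,11)]⟩⟩,⟨true,0,⟨0,[(15,0),(5,0)]⟩,⟨0,
  [(22,0),(1,0)]⟩⟩,⟨true,0,⟨0,[(38,0)]⟩,⟨0,[(37,0)]⟩⟩,⟨false,1,⟨1,[(10,1),(9,0),(0,1),(5,0),(0,0),
  (11,0)]⟩,⟨29,[(0,17),(2,7),(8,5),(6,1),(2,3),(9,2),(6,1),(0,4)]⟩⟩,⟨false,1,⟨3,[(19,0),(0,0),(19,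
  1)]⟩,⟨0,[]⟩⟩,⟨true,1,⟨11,[(10,15),(1,3),(1,3),(4,0),(0,6),(0,11),(5,5),(0,5)]⟩,⟨0,[(0,0)]⟩⟩,[]⟩)
  (.R ⟨1,true,false,true,[1,0,0,-1],[0,1,1],[1,1,0,0,0,0,0,0,-1],(⟨0,[(21,0)]⟩,⟨0,[(22,0)]⟩),(⟨0,
  [(31,0),(2,0)]⟩,⟨0,[(11,0)]⟩),⟨0,[(2,0)]⟩,.k,.k,(.x (-1) ⟨3,[(19,0),(0,0),(11,1),(0,3)]⟩ ⟨0,[(34,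
  0)]⟩),(.r 0 ⟨41,[(1,25),(3,28),(0,22),(0,1),(1,5),(9,7),(1,25),(13,10)]⟩ ⟨15,[(0,7),(6,1),(11,0),
  (0,4),(1,7),(2,3),(2,11),(3,3),(4,1)]⟩),(.r 0 ⟨9,[(1,2),(1,2),(1,10),(0,7),(0,1),(0,0),(8,5),(1,
  1),(1,5)]⟩ ⟨7,[(0,5),(19,0),(1,5),(1,3),(0,1),(1,0),(0,4),(3,0),(4,3)]⟩),.k,⟨false,0,⟨7,[(1,5),(3,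
  5),(0,5),(0,0),(0,0),(10,0),(1,5)]⟩,⟨15,[(0,7),(6,1),(11,0),(0,4),(1,7),(2,3),(2,11),(3,3),(4,
  1)]⟩⟩,⟨true,0,⟨0,[(15,0),(5,0)]⟩,⟨0,[(22,0),(1,0)]⟩⟩,⟨false,0,⟨0,[]⟩,⟨3,[(19,0),(0,0),(19,1)]⟩⟩,
  ⟨true,0,⟨0,[(0,0),(4,0),(3,0)]⟩,⟨4,[(1,0),(1,1),(0,1),(0,3),(11,0)]⟩⟩,⟨true,0,⟨0,[(37,0)]⟩,⟨0,
  [(38,0)]⟩⟩,⟨false,1,⟨0,[(0,0),(41,0)]⟩,⟨0,[(3,0),(1,0),(11,0)]⟩⟩,[]⟩))))))))))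

theorem ok35 : chk (cU (-1) true 3) t35 l22 = true := by decide +kernel

noncomputable def t38 : Tre :=
  (.Q [0,1,0,-3,-1,0,0,0,0,-1] (.pp true [-1,1]) (.I [0,-1,2,1,0,0,0,1] (.I [1,1,-1,-1,0,0,0,-1]
  (.R ⟨1,true,false,false,[1,-1],[0,0,1],[1,1,-1,-1],(⟨0,[(29,0)]⟩,⟨0,[(30,0)]⟩),(⟨0,[(27,0)]⟩,⟨0,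
  [(26,0)]⟩),⟨0,[(7,0),(1,0)]⟩,.k,.k,(.x 0 ⟨0,[(7,0),(1,0),(10,0),(2,0)]⟩ ⟨0,[(30,1),(4,0)]⟩),.k,
  (.r (-1) ⟨1,[(0,1),(33,1),(0,0),(0,0)]⟩ ⟨0,[(1,0),(31,0)]⟩),.k,⟨true,0,⟨0,[(0,0)]⟩,⟨0,[(1,0)]⟩⟩,
  ⟨false,1,⟨1,[(0,1),(9,1),(24,0),(0,0)]⟩,⟨0,[(20,0)]⟩⟩,⟨false,0,⟨0,[]⟩,⟨3,[(15,0),(0,0),(19,1)]⟩⟩,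
  ⟨true,0,⟨0,[(10,0)]⟩,⟨4,[(2,1),(5,0),(13,2),(5,0)]⟩⟩,⟨true,0,⟨0,[(33,0)]⟩,⟨0,[(34,0)]⟩⟩,⟨false,1,
  ⟨6,[(1,1),(2,0),(1,0),(1,0),(1,7),(24,2),(0,1)]⟩,⟨1,[(2,0),(2,0),(28,0)]⟩⟩,[]⟩) (.R ⟨1,true,false,
  false,[1,-1],[0,0,1],[0,1,-1,-2],(⟨0,[(29,0)]⟩,⟨0,[(30,0)]⟩),(⟨0,[(27,0)]⟩,⟨0,[(26,0)]⟩),⟨0,[(7,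
  0),(1,0)]⟩,.k,.k,(.x 0 ⟨0,[(7,0),(1,0),(10,0),(2,0)]⟩ ⟨0,[(30,1),(4,0)]⟩),.k,(.r (-1) ⟨5,[(2,3),
  (0,0),(0,0),(0,1),(5,3),(5,6),(0,6),(16,6)]⟩ ⟨0,[(1,0),(31,0)]⟩),.k,⟨true,0,⟨2,[(2,1),(2,0),(5,2),
  (5,2),(0,2),(3,0),(9,0),(2,0)]⟩,⟨0,[(0,1),(10,0),(10,0)]⟩⟩,⟨false,1,⟨0,[(11,0),(5,0),(0,0),(16,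
  0)]⟩,⟨0,[(20,0)]⟩⟩,⟨false,0,⟨0,[(34,0)]⟩,⟨6,[(1,1),(2,0),(1,0),(1,0),(1,0),(24,2),(0,1)]⟩⟩,⟨true,
  0,⟨0,[(10,0)]⟩,⟨4,[(2,1),(5,0),(13,2),(5,0)]⟩⟩,⟨true,0,⟨0,[(38,0)]⟩,⟨0,[]⟩⟩,⟨false,1,⟨6,[(1,1),(2,
  0),(1,0),(1,0),(1,7),(24,2),(0,1)]⟩,⟨1,[(2,0),(2,0),(28,0)]⟩⟩,[]⟩)) (.I [0,0,2,1] (.R ⟨2,true,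
  false,false,[0,1],[1,-1],[0,0,1],(⟨0,[]⟩,⟨0,[]⟩),(⟨0,[(29,0)]⟩,⟨0,[(30,0)]⟩),⟨0,[]⟩,.k,.k,.k,(.r
  (-1) ⟨2,[(0,2),(5,0),(1,0),(1,0),(4,0),(0,0)]⟩ ⟨0,[(1,0),(10,0),(18,0)]⟩),.k,.k,⟨true,0,⟨0,[(0,
  0)]⟩,⟨1,[(1,0),(10,0),(18,0)]⟩⟩,⟨false,0,⟨23,[(2,6),(0,1),(0,5),(1,12),(12,0),(0,11),(7,0)]⟩,⟨0,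
  [(17,0),(0,0),(16,0)]⟩⟩,⟨true,0,⟨0,[(34,0)]⟩,⟨0,[(33,0)]⟩⟩,⟨false,0,⟨0,[(3,0)]⟩,⟨5,[(8,3),(1,7),
  (4,0),(0,0),(0,1),(0,1)]⟩⟩,⟨false,1,⟨3,[(15,0),(0,0),(19,1)]⟩,⟨0,[]⟩⟩,⟨true,0,⟨5,[(2,0),(0,1),(2,
  0),(12,0),(8,0)]⟩,⟨0,[(10,0),(11,0)]⟩⟩,[]⟩) (.Q [0,0,0,-2,-1,0,2,2,0,1,-2] (.p false [0,0,1] [1,0,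
  -1] (⟨0,[(27,0)]⟩,⟨0,[(26,0)]⟩) .k 2 (⟨0,[(26,0)]⟩,⟨0,[(27,0)]⟩) .k (.r 0 ⟨0,[(25,1)]⟩ ⟨8,[(1,6),
  (2,4),(10,1),(0,1),(5,0),(0,0),(7,2)]⟩)) (.Q [0,0,-1,1,0,0,0,0,-1,0,0,1] (.p true [0,0,0,1] []
  (⟨0,[(19,0)]⟩,⟨0,[(18,0)]⟩) .k 0 (⟨0,[]⟩,⟨0,[]⟩) .k .k) (.Q [0,-1,1,1,1,0,0,0,1,1,0,-1] (.p false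
  [0,0,0,1] [1] (⟨0,[(20,0)]⟩,⟨0,[(19,0)]⟩) .k 1 (⟨0,[]⟩,⟨0,[]⟩) .k .k) (.R ⟨1,true,false,false,[1,
  -1],[0,0,0,1],[0,0,-1,-2],(⟨0,[(32,0)]⟩,⟨0,[(33,0)]⟩),(⟨0,[(21,0)]⟩,⟨0,[(20,0)]⟩),⟨0,[(10,0),(1,
  0)]⟩,.k,.k,(.r 0 ⟨0,[(3,0),(33,0)]⟩ ⟨15,[(7,7),(1,7),(7,3),(0,2),(0,2),(7,15),(3,1),(4,7)]⟩),(.x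
  (-1) ⟨3,[(18,0),(0,0),(11,1),(0,3)]⟩ ⟨0,[(33,0)]⟩),(.r 0 ⟨2,[(1,0),(1,2),(1,0),(12,0),(1,0),(13,
  0)]⟩ ⟨3,[(7,1),(1,2),(9,1),(4,0),(2,3),(8,0)]⟩),.k,⟨false,0,⟨2,[(1,0),(1,2),(1,0),(12,0),(1,0),
  (13,0)]⟩,⟨7,[(0,0),(0,0),(5,1),(1,5),(1,0),(7,3),(7,3),(8,2)]⟩⟩,⟨true,0,⟨0,[(20,0)]⟩,⟨23,[(5,6),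
  (0,1),(0,5),(1,12),(11,23),(0,0),(0,11),(7,0)]⟩⟩,⟨true,0,⟨0,[(37,0)]⟩,⟨0,[(36,0)]⟩⟩,⟨false,1,⟨0,
  [(0,0)]⟩,⟨27,[(1,21),(3,9),(0,9),(11,2),(2,5),(9,3),(6,2)]⟩⟩,⟨false,1,⟨3,[(18,0),(0,0),(19,1)]⟩,
  ⟨0,[]⟩⟩,⟨true,1,⟨0,[(0,0),(35,0)]⟩,⟨0,[(1,0),(3,0)]⟩⟩,[]⟩) (.R ⟨1,true,false,false,[0,0,1],[1,1,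
  -1],[1,0,1,1,0,0,0,-1],(⟨0,[(30,0)]⟩,⟨0,[(29,0)]⟩),(⟨0,[(29,0),(3,0)]⟩,⟨0,[(12,0)]⟩),⟨0,[(12,0)]⟩,
  .k,.k,.k,(.r 0 ⟨17,[(2,3),(2,1),(0,1),(8,25),(2,2),(0,2),(7,7),(0,1)]⟩ ⟨5,[(4,1),(2,3),(10,0),(0,
  0),(5,1),(0,1)]⟩),(.r 0 ⟨4,[(2,1),(0,0),(1,0),(0,0),(8,5),(11,3),(10,2)]⟩ ⟨0,[(7,0),(33,0)]⟩),.k,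
  ⟨true,0,⟨0,[]⟩,⟨1,[(26,0),(0,0)]⟩⟩,⟨false,1,⟨4,[(5,0),(2,0),(2,2),(3,7),(11,1),(10,1)]⟩,⟨5,[(2,4),
  (1,1),(2,4),(9,0),(18,1),(4,0)]⟩⟩,⟨false,1,⟨4,[(4,1),(2,3),(26,0),(4,0)]⟩,⟨17,[(2,3),(2,1),(0,1),
  (8,25),(2,2),(0,2),(7,7),(0,1)]⟩⟩,⟨true,1,⟨0,[(11,0)]⟩,⟨0,[(2,0),(33,0)]⟩⟩,⟨true,1,⟨27,[(4,7),(2,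
  23),(10,0),(0,0),(16,15),(1,1)]⟩,⟨1,[(0,1),(1,0),(12,1),(3,0),(0,1),(2,0),(3,0)]⟩⟩,⟨false,2,⟨11,
  [(9,3),(1,15),(1,3),(4,0),(0,0),(19,5)]⟩,⟨0,[(2,0)]⟩⟩,[]⟩)) (.I [0,1,-1,-2,-1,0,0,2] (.R ⟨1,true,
  false,false,[0,0,1],[1,1,-1],[1,0,1,1,0,0,0,-1],(⟨0,[(30,0)]⟩,⟨0,[(29,0)]⟩),(⟨0,[(29,0),(3,0)]⟩,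
  ⟨0,[(12,0)]⟩),⟨0,[(12,0)]⟩,.k,.k,.k,(.r 0 ⟨7,[(0,3),(14,3),(2,0),(0,0),(8,3),(10,1)]⟩ ⟨5,[(4,1),
  (2,3),(10,0),(0,0),(5,1),(0,1)]⟩),(.r 0 ⟨1,[(0,1),(37,0),(0,0)]⟩ ⟨0,[(7,0),(33,0)]⟩),.k,⟨true,0,
  ⟨0,[]⟩,⟨1,[(26,0),(0,0)]⟩⟩,⟨false,1,⟨3,[(0,1),(10,3),(3,3),(22,0),(0,0)]⟩,⟨5,[(2,4),(1,1),(2,4),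
  (9,0),(18,1),(4,0)]⟩⟩,⟨false,1,⟨4,[(4,1),(2,3),(26,0),(4,0)]⟩,⟨7,[(0,3),(14,3),(2,0),(0,0),(8,3),
  (10,1)]⟩⟩,⟨true,1,⟨0,[(11,0)]⟩,⟨0,[(2,0),(33,0)]⟩⟩,⟨true,1,⟨27,[(4,7),(2,23),(10,0),(0,0),(16,15),
  (1,1)]⟩,⟨0,[(0,0)]⟩⟩,⟨false,2,⟨11,[(9,3),(1,15),(1,3),(4,0),(0,0),(19,5)]⟩,⟨0,[(2,0)]⟩⟩,[]⟩) (.I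
  [1,0,0,0,0,0,0,0,1] (.I [0,0,0,-1,0,0,0,0,-1] (.Q [0,-1,1,0,0,0,0,0,1,1,0,-1] (.p false [0,0,0,1]
  [1] (⟨0,[(23,0)]⟩,⟨0,[(22,0)]⟩) .k 1 (⟨0,[]⟩,⟨0,[]⟩) .k .k) (.R ⟨2,true,false,true,[0,1],[1,0,0,
  -1],[1,1,1,1],(⟨0,[]⟩,⟨0,[]⟩),(⟨0,[(23,0)]⟩,⟨0,[(24,0)]⟩),⟨0,[]⟩,.k,.k,.k,(.x 0 ⟨0,[(36,0)]⟩ ⟨3,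
  [(21,0),(0,0),(11,1),(0,3)]⟩),.k,.k,⟨true,0,⟨0,[(0,0),(11,0),(11,0),(0,0)]⟩,⟨0,[(1,0)]⟩⟩,⟨false,1,
  ⟨1,[(24,1),(9,0),(6,0)]⟩,⟨0,[(23,0)]⟩⟩,⟨false,0,⟨0,[]⟩,⟨3,[(21,0),(0,0),(19,1)]⟩⟩,⟨true,0,⟨3,[(1,
  1),(4,1),(1,0),(3,2),(8,0),(2,3),(0,2)]⟩,⟨0,[(0,0),(38,0)]⟩⟩,⟨true,0,⟨0,[(39,0)]⟩,⟨0,[(40,0)]⟩⟩,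
  ⟨false,1,⟨9,[(6,4),(2,0),(2,4),(1,1),(6,4),(2,9),(0,0),(8,2)]⟩,⟨0,[(0,0)]⟩⟩,[]⟩) (.K ⟨0,[0,0,0,1],
  0,0,(⟨0,[(24,0)]⟩,⟨0,[(23,0)]⟩),.k,(.r 0 ⟨20,[(2,16),(2,0),(0,10),(0,1),(0,0),(13,1),(7,1),(6,
  2)]⟩ ⟨31,[(10,7),(1,7),(7,3),(0,18),(0,2),(7,15),(3,1),(4,7)]⟩),(.x 0 ⟨0,[(36,0)]⟩ ⟨3,[(21,0),(0,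
  0),(11,1),(0,3)]⟩),.k,.k,[⟨0,[(24,0)]⟩,⟨0,[(23,0)]⟩,⟨0,[(0,0),(22,0),(0,0)]⟩,⟨0,[(4,0),(34,
  0)]⟩]⟩)) (.I [0,1,-1,-2,-1,0,0,0,1] (.Q [0,-1,1,1,0,0,0,0,1,1,0,-1] (.p false [0,0,0,1] [1] (⟨0,
  [(24,0)]⟩,⟨0,[(23,0)]⟩) .k 1 (⟨0,[]⟩,⟨0,[]⟩) .k .k) (.R ⟨1,true,false,false,[1,-1],[0,0,0,1],[0,0,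
  -1,-2],(⟨0,[(36,0)]⟩,⟨0,[(37,0)]⟩),(⟨0,[(25,0)]⟩,⟨0,[(24,0)]⟩),⟨0,[(14,0),(1,0)]⟩,.k,.k,(.r 0 ⟨2,
  [(1,1),(5,1),(14,0),(20,0)]⟩ ⟨15,[(11,7),(1,7),(7,3),(0,2),(0,2),(7,15),(3,1),(4,7)]⟩),(.x (-1)
  ⟨3,[(22,0),(0,0),(11,1),(0,3)]⟩ ⟨0,[(37,0)]⟩),(.r (-1) ⟨1,[(1,1),(20,1),(19,0),(0,0)]⟩ ⟨4,[(0,3),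
  (1,0),(6,0),(1,0),(1,1),(11,3),(1,2),(2,0),(9,3)]⟩),.k,⟨false,1,⟨1,[(1,1),(20,1),(19,0),(0,0)]⟩,
  ⟨0,[(0,0),(12,0),(11,0),(0,0)]⟩⟩,⟨true,0,⟨0,[(24,0)]⟩,⟨18,[(4,0),(4,5),(0,0),(0,3),(1,9),(11,18),
  (1,9),(7,0)]⟩⟩,⟨true,0,⟨0,[(41,0)]⟩,⟨0,[(40,0)]⟩⟩,⟨false,0,⟨0,[(0,0)]⟩,⟨5,[(7,0),(1,0),(0,0),(11,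
  2),(2,5),(9,1),(6,1)]⟩⟩,⟨false,1,⟨3,[(22,0),(0,0),(19,1)]⟩,⟨0,[]⟩⟩,⟨true,0,⟨0,[(0,0),(39,0)]⟩,⟨9,
  [(7,1),(0,1),(0,5),(3,1),(5,1),(2,4),(2,9),(0,1),(8,0)]⟩⟩,[]⟩) (.Q [0,0,-1,-1,0,0,1,1,-1,0,-1,1]
  (.p false [0,0,1] [0,0,0,1] (⟨0,[(34,0)]⟩,⟨0,[(33,0)]⟩) .k 2 (⟨0,[(25,0)]⟩,⟨0,[(24,0)]⟩) .k (.r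
  (-1) ⟨3,[(22,2),(0,0),(8,3)]⟩ ⟨1,[(1,0),(1,0),(0,0)]⟩)) (.R ⟨1,true,false,true,[0,0,1],[0,0,0,1],
  [0,0,0,-1,0,0,0,1],(⟨0,[(35,0)]⟩,⟨0,[(34,0)]⟩),(⟨0,[(26,0)]⟩,⟨0,[(25,0)]⟩),⟨0,[(17,0)]⟩,.k,.k,.k,
  .k,(.r (-1) ⟨35,[(7,7),(2,3),(0,3),(8,19),(2,24),(0,6),(7,15),(10,15)]⟩ ⟨0,[(2,0),(2,0),(8,0),(17,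
  0)]⟩),.k,⟨false,1,⟨17,[(7,3),(0,1),(2,3),(8,9),(2,8),(8,7),(10,5),(0,6)]⟩,⟨11,[(2,6),(0,2),(1,4),
  (6,0),(11,0),(16,10)]⟩⟩,⟨true,0,⟨0,[(25,0),(2,0)]⟩,⟨0,[(19,0),(6,0)]⟩⟩,⟨true,0,⟨0,[(42,0)]⟩,⟨0,
  [(41,0)]⟩⟩,⟨false,0,⟨7,[(2,3),(0,2),(1,0),(0,0),(5,1),(0,0),(11,6),(2,5)]⟩,⟨3,[(0,1),(13,1),(8,0),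
  (2,1),(16,0),(0,1)]⟩⟩,⟨false,1,⟨3,[(23,0),(0,0),(19,1)]⟩,⟨0,[]⟩⟩,⟨true,0,⟨6,[(2,1),(0,3),(2,0),(5,
  1),(12,5),(1,2),(0,2),(3,0),(8,3)]⟩,⟨0,[(0,0)]⟩⟩,[]⟩) (.R ⟨1,true,false,false,[0,0,1],[1,0,0,-1],
  [1,0,0,0,0,0,0,0,-1],(⟨0,[(35,0)]⟩,⟨0,[(34,0)]⟩),(⟨0,[(25,0)]⟩,⟨0,[(26,0)]⟩),⟨0,[(17,0)]⟩,.k,.k,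
  .k,.k,(.r 0 ⟨9,[(2,3),(17,7),(0,1),(2,2),(7,1),(11,0)]⟩ ⟨1,[(12,0),(10,0),(22,0)]⟩),.k,⟨true,0,⟨0,
  []⟩,⟨1,[(31,0),(0,0)]⟩⟩,⟨false,1,⟨11,[(1,1),(6,1),(4,1),(2,3),(3,11),(3,0),(1,9),(9,1),(6,2)]⟩,⟨0,
  [(25,0),(5,0)]⟩⟩,⟨false,1,⟨1,[(5,0),(2,0),(14,0),(15,0)]⟩,⟨0,[(4,0),(28,0)]⟩⟩,⟨true,1,⟨11,[(1,5),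
  (3,1),(2,1),(4,1),(2,3),(3,3),(2,2),(2,5),(17,0)]⟩,⟨0,[(0,0),(6,0),(33,0)]⟩⟩,⟨true,1,⟨13,[(5,5),
  (3,1),(13,6),(17,3),(1,0)]⟩,⟨0,[(2,0),(11,0),(17,0)]⟩⟩,⟨false,2,⟨11,[(1,3),(3,1),(8,3),(1,7),(3,
  3),(2,3),(2,7),(16,2),(0,6)]⟩,⟨0,[(0,0),(6,0)]⟩⟩,[]⟩))) (.R ⟨1,true,false,true,[1,-1],[0,0,0,1],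
  [0,0,-1,-2],(⟨0,[(35,0)]⟩,⟨0,[(36,0)]⟩),(⟨0,[(24,0)]⟩,⟨0,[(23,0)]⟩),⟨0,[(13,0),(1,0)]⟩,.k,.k,(.r
  0 ⟨0,[(6,0),(33,0)]⟩ ⟨4,[(0,1),(9,1),(1,0),(9,0),(4,2),(2,3),(8,0)]⟩),(.x (-1) ⟨3,[(21,0),(0,0),
  (11,1),(0,3)]⟩ ⟨0,[(36,0)]⟩),(.x 0 ⟨18,[(3,0),(4,5),(0,0),(0,3),(1,9),(0,18),(1,18),(10,9),(7,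
  0)]⟩ ⟨3,[(21,0),(0,0),(13,7),(4,1)]⟩),.k,⟨false,1,⟨1,[(6,1),(14,0),(18,1),(1,0)]⟩,⟨1,[(1,1),(27,
  0),(0,0),(8,1)]⟩⟩,⟨true,0,⟨0,[(23,0)]⟩,⟨18,[(3,0),(4,5),(0,0),(0,3),(1,9),(11,18),(1,9),(7,0)]⟩⟩,
  ⟨true,0,⟨0,[(40,0)]⟩,⟨0,[(39,0)]⟩⟩,⟨false,0,⟨1,[(1,1),(21,1),(5,0),(0,0)]⟩,⟨11,[(0,3),(5,7),(2,5),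
  (11,3),(2,11),(9,2),(7,0)]⟩⟩,⟨false,1,⟨3,[(21,0),(0,0),(19,1)]⟩,⟨0,[]⟩⟩,⟨true,0,⟨1,[(1,1),(21,1),
  (5,0),(0,0),(8,1)]⟩,⟨0,[(0,0),(5,0),(1,0),(15,0)]⟩⟩,[]⟩))) (.I [0,0,1,1,0,0,0,0,-1] (.K ⟨0,[0,0,0,
  1],0,0,(⟨0,[(23,0)]⟩,⟨0,[(22,0)]⟩),.k,(.r (-1) ⟨1,[(21,0),(17,1),(0,0)]⟩ ⟨0,[(0,0)]⟩),(.x 0 ⟨0,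
  [(35,0)]⟩ ⟨3,[(20,0),(0,0),(11,1),(0,3)]⟩),.k,.k,[⟨0,[(23,0)]⟩,⟨0,[(22,0)]⟩,⟨0,[(1,0),(21,0),(13,
  0)]⟩,⟨0,[(3,0),(34,0)]⟩]⟩) (.K ⟨0,[0,0,0,1],0,0,(⟨0,[(23,0)]⟩,⟨0,[(22,0)]⟩),.k,(.x 0 ⟨1,[(12,0),
  (1,0),(10,0),(2,1),(0,0)]⟩ ⟨0,[(35,0),(4,0)]⟩),(.x 0 ⟨0,[(35,0)]⟩ ⟨3,[(20,0),(0,0),(11,1),(0,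
  3)]⟩),.k,.k,[⟨0,[(23,0)]⟩,⟨0,[(22,0)]⟩,⟨0,[(1,0),(21,0),(13,0)]⟩,⟨0,[(3,0),(34,0)]⟩]⟩))))) (.Q [0,
  0,1,-1,-1,0,1,1,1,1,-1,-1] (.p false [0,0,1] [1,0,0,-1] (⟨0,[(28,0)]⟩,⟨0,[(27,0)]⟩) .k 2 (⟨0,[(18,
  0)]⟩,⟨0,[(19,0)]⟩) .k (.x 0 ⟨0,[(24,0),(3,0)]⟩ ⟨14,[(3,0),(2,0),(2,2),(3,7),(11,6),(1,14),(1,4),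
  (6,6)]⟩)) (.I [1,1,-1,-1,-1,0,0,1,1] (.R ⟨1,true,false,false,[0,0,1],[1,0,0,-1],[0,0,1,0,0,0,0,0,
  -1],(⟨0,[(30,0)]⟩,⟨0,[(29,0)]⟩),(⟨0,[(20,0)]⟩,⟨0,[(21,0)]⟩),⟨0,[(12,0)]⟩,.k,.k,.k,.k,(.r 0 ⟨5,[(0,
  3),(15,1),(2,0),(7,1),(10,1),(0,0)]⟩ ⟨1,[(7,0),(10,0),(22,0)]⟩),.k,⟨true,0,⟨1,[(26,0),(0,0)]⟩,⟨0,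
  []⟩⟩,⟨false,1,⟨9,[(3,0),(1,0),(2,0),(2,3),(3,9),(5,9),(9,1),(6,3)]⟩,⟨0,[(20,0),(5,0)]⟩⟩,⟨false,1,
  ⟨9,[(4,1),(2,3),(10,4),(15,5),(4,0)]⟩,⟨5,[(0,3),(1,0),(6,0),(3,0),(1,1),(3,0),(19,1)]⟩⟩,⟨true,1,
  ⟨13,[(2,5),(0,6),(2,2),(2,0),(8,6),(2,13),(0,2),(8,0)]⟩,⟨0,[(1,0),(34,0)]⟩⟩,⟨true,1,⟨1,[(7,0),(10,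
  0),(22,0)]⟩,⟨0,[(0,0)]⟩⟩,⟨false,2,⟨13,[(2,7),(0,3),(5,1),(8,6),(2,13),(9,2),(6,2),(0,6)]⟩,⟨0,[(1,
  0)]⟩⟩,[]⟩) (.R ⟨1,true,false,false,[0,0,1],[1,0,0,-1],[0,1,0,-1,0,0,0,1],(⟨0,[(30,0)]⟩,⟨0,[(29,
  0)]⟩),(⟨0,[(20,0)]⟩,⟨0,[(21,0)]⟩),⟨0,[(12,0)]⟩,.k,.k,.k,.k,(.r 0 ⟨5,[(1,1),(1,0),(1,0),(2,0),(6,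
  5),(3,1),(1,1)]⟩ ⟨1,[(7,0),(10,0),(22,0)]⟩),.k,⟨true,(-1),⟨0,[(1,0),(13,0),(5,0),(0,0)]⟩,⟨0,[(0,
  0)]⟩⟩,⟨false,1,⟨9,[(3,0),(1,0),(2,0),(2,3),(3,9),(5,9),(9,1),(6,3)]⟩,⟨0,[(20,0),(5,0)]⟩⟩,⟨false,0,
  ⟨0,[(37,0)]⟩,⟨1,[(2,0),(14,0),(21,0)]⟩⟩,⟨true,1,⟨13,[(2,5),(0,6),(2,2),(2,0),(8,6),(2,13),(0,2),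
  (8,0)]⟩,⟨0,[(1,0),(34,0)]⟩⟩,⟨true,0,⟨0,[(41,0)]⟩,⟨0,[]⟩⟩,⟨false,2,⟨13,[(2,7),(0,3),(5,1),(8,6),(2,
  13),(9,2),(6,2),(0,6)]⟩,⟨0,[(1,0)]⟩⟩,[]⟩)) (.Q [0,1,-1,-2,-1,0,0,0,-1,-1,0,1] (.p true [0,0,0,1]
  [1] (⟨0,[(20,0)]⟩,⟨0,[(19,0)]⟩) .k 1 (⟨0,[]⟩,⟨0,[]⟩) .k .k) (.R ⟨1,true,false,false,[1,-1],[0,0,0,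
  1],[0,0,-1,-2],(⟨0,[(32,0)]⟩,⟨0,[(33,0)]⟩),(⟨0,[(21,0)]⟩,⟨0,[(20,0)]⟩),⟨0,[(10,0),(1,0)]⟩,.k,.k,
  (.r 0 ⟨0,[(3,0),(33,0)]⟩ ⟨3,[(2,0),(4,1),(9,2),(9,3),(3,0),(4,1)]⟩),(.x (-1) ⟨3,[(18,0),(0,0),(11,
  1),(0,3)]⟩ ⟨0,[(33,0)]⟩),(.r 0 ⟨2,[(0,0),(2,2),(14,0),(1,0),(13,0)]⟩ ⟨3,[(7,1),(1,2),(9,1),(4,0),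
  (2,3),(8,0)]⟩),.k,⟨false,0,⟨2,[(0,0),(2,2),(14,0),(1,0),(13,0)]⟩,⟨7,[(2,1),(4,1),(1,4),(3,0),(3,
  0),(1,3),(7,3),(8,1)]⟩⟩,⟨true,0,⟨0,[(20,0)]⟩,⟨29,[(0,1),(4,7),(0,1),(0,7),(1,15),(9,0),(1,27),(1,
  15),(7,0)]⟩⟩,⟨true,0,⟨0,[(37,0)]⟩,⟨0,[(36,0)]⟩⟩,⟨false,1,⟨1,[(2,0),(6,0),(3,0),(5,0),(0,1),(13,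
  1)]⟩,⟨1,[(0,0),(0,0),(14,0)]⟩⟩,⟨false,1,⟨3,[(18,0),(0,0),(19,1)]⟩,⟨0,[]⟩⟩,⟨true,1,⟨7,[(2,1),(4,1),
  (1,4),(3,0),(3,0),(1,3),(0,7),(6,3),(8,1)]⟩,⟨0,[(0,0)]⟩⟩,[]⟩) (.I [0,0,1,0,0,0,0,0,1] (.Q [0,1,-1,
  0,0,0,0,0,-1,0,0,1] (.p true [0,0,0,1] [] (⟨0,[(22,0)]⟩,⟨0,[(21,0)]⟩) .k 0 (⟨0,[]⟩,⟨0,[]⟩) .k .k)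
  (.K ⟨0,[0,0,0,1],0,0,(⟨0,[(23,0)]⟩,⟨0,[(22,0)]⟩),.k,(.r 0 ⟨0,[(1,0),(3,0)]⟩ ⟨43,[(2,4),(0,4),(5,
  10),(1,6),(7,1),(0,21),(5,15),(2,21),(3,0)]⟩),(.x 0 ⟨0,[(35,0)]⟩ ⟨3,[(20,0),(0,0),(11,1),(0,3)]⟩),
  .k,.k,[⟨0,[(23,0)]⟩,⟨0,[(22,0)]⟩,⟨0,[(0,0)]⟩,⟨0,[(2,0),(4,0),(30,0)]⟩]⟩) (.Q [0,0,0,0,0,-1,0,0,0,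
  1,0,-1] (.p false [0,0,0,1] [1] (⟨0,[(23,0)]⟩,⟨0,[(22,0)]⟩) .k 1 (⟨0,[]⟩,⟨0,[]⟩) .k .k) (.R ⟨1,
  true,false,false,[1,0,0,-1],[0,1,1],[1,0,0,0,0,0,0,0,-1],(⟨0,[(23,0)]⟩,⟨0,[(24,0)]⟩),(⟨0,[(33,0),
  (2,0)]⟩,⟨0,[(13,0)]⟩),⟨0,[(0,0)]⟩,.k,.k,(.x (-1) ⟨3,[(21,0),(0,0),(11,1),(0,3)]⟩ ⟨0,[(36,0)]⟩),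
  (.r (-1) ⟨39,[(7,31),(2,3),(10,24),(0,4),(14,15),(4,5)]⟩ ⟨1,[(1,0),(0,0),(9,0),(5,0),(5,0),(5,0),
  (8,0)]⟩),(.r (-1) ⟨1,[(7,1),(13,0),(18,1),(1,0)]⟩ ⟨0,[(1,0),(10,0),(11,0),(5,0),(8,0)]⟩),.k,
  ⟨false,1,⟨1,[(7,1),(13,0),(20,0)]⟩,⟨1,[(1,0),(0,0),(9,0),(5,0),(5,0),(5,0),(8,0)]⟩⟩,⟨true,0,⟨0,
  [(17,0),(5,0)]⟩,⟨0,[(24,0),(1,0)]⟩⟩,⟨true,0,⟨0,[]⟩,⟨0,[(44,0)]⟩⟩,⟨false,0,⟨0,[(1,0),(14,0)]⟩,⟨4,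
  [(4,0),(3,1),(2,1),(9,1),(2,3),(16,1)]⟩⟩,⟨false,1,⟨19,[(3,5),(0,5),(7,1),(7,1),(13,0),(7,6)]⟩,⟨0,
  [(40,0)]⟩⟩,⟨true,0,⟨0,[(1,0),(14,0),(22,0)]⟩,⟨0,[(4,0),(3,0),(14,0),(0,0)]⟩⟩,[]⟩) (.R ⟨0,false,
  false,true,[1,0,0,-1],[0,1],[0,0,0,-1,0,0,0,0,-1],(⟨0,[(23,0)]⟩,⟨0,[(24,0)]⟩),(⟨0,[(36,0)]⟩,⟨0,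
  [(35,0)]⟩),⟨0,[(0,0)]⟩,.k,.k,(.x (-1) ⟨3,[(21,0),(0,0),(11,1),(0,3)]⟩ ⟨0,[(36,0)]⟩),(.x (-1) ⟨3,
  [(21,0),(0,0),(11,1),(0,3)]⟩ ⟨0,[(36,0)]⟩),.k,.k,⟨false,1,⟨1,[(6,1),(14,0),(18,1),(1,0)]⟩,⟨0,[(1,
  0),(22,0),(14,1)]⟩⟩,⟨true,0,⟨0,[(23,0)]⟩,⟨23,[(8,6),(0,1),(0,5),(1,12),(11,23),(0,0),(0,11),(7,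
  0)]⟩⟩,⟨true,0,⟨0,[(40,0)]⟩,⟨0,[(39,0)]⟩⟩,⟨false,0,⟨0,[(1,0),(14,0),(11,0)]⟩,⟨3,[(4,1),(4,1),(9,1),
  (1,0),(2,1),(16,0)]⟩⟩,⟨false,0,⟨0,[]⟩,⟨0,[]⟩⟩,⟨false,0,⟨0,[]⟩,⟨0,[]⟩⟩,[.o ⟨false,0,⟨0,[(39,0)]⟩,
  ⟨3,[(9,1),(11,0),(0,0),(11,0),(7,0)]⟩⟩,.o ⟨false,1,⟨5,[(3,1),(0,1),(16,0),(0,0),(4,1)]⟩,⟨5,[(8,0),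
  (0,1),(2,0),(12,0),(8,0)]⟩⟩,.o ⟨false,1,⟨1,[(24,1),(9,0),(6,0)]⟩,⟨9,[(1,1),(6,2),(1,1),(1,4),(8,
  0),(1,7),(1,0),(0,3)]⟩⟩,.a ⟨true,0,⟨0,[(24,0)]⟩,⟨0,[(23,0)]⟩⟩ ⟨false,1,⟨1,[(6,0),(14,0),(18,0),(1,
  0)]⟩,⟨0,[(1,0),(22,0),(14,0)]⟩⟩ ⟨true,0,⟨0,[(23,0),(15,0)]⟩,⟨5,[(8,0),(0,1),(2,0),(11,5),(0,0),(8,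
  0)]⟩⟩]⟩))) (.K ⟨0,[0,0,0,1],0,0,(⟨0,[(22,0)]⟩,⟨0,[(21,0)]⟩),.k,(.x 0 ⟨1,[(11,0),(1,0),(10,0),(2,
  1),(0,0)]⟩ ⟨0,[(34,0),(4,0)]⟩),(.x 0 ⟨0,[(34,0)]⟩ ⟨3,[(19,0),(0,0),(11,1),(0,3)]⟩),.k,.k,[⟨0,[(22,
  0)]⟩,⟨0,[(21,0)]⟩,⟨0,[(0,0),(21,0),(19,0)]⟩,⟨0,[(1,0),(4,0),(30,0)]⟩]⟩))))))) (.I [0,1,2,2] (.I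
  [0,0,-2,-2] (.I [0,0,2,1] (.R ⟨2,true,false,false,[0,1],[1,-1],[0,0,1],(⟨0,[]⟩,⟨0,[]⟩),(⟨0,[(30,
  0)]⟩,⟨0,[(31,0)]⟩),⟨0,[]⟩,.k,.k,.k,(.r (-1) ⟨3,[(2,3),(13,0),(0,0),(19,1)]⟩ ⟨0,[(1,0)]⟩),.k,.k,
  ⟨true,0,⟨0,[(0,0)]⟩,⟨1,[(1,0)]⟩⟩,⟨false,0,⟨1,[(0,0),(3,0),(2,0),(12,0)]⟩,⟨0,[(18,0),(0,0),(16,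
  0)]⟩⟩,⟨true,0,⟨0,[(35,0)]⟩,⟨0,[(34,0)]⟩⟩,⟨false,0,⟨0,[(4,0)]⟩,⟨5,[(3,3),(11,1),(0,0),(0,0),(5,
  3)]⟩⟩,⟨false,1,⟨3,[(16,0),(0,0),(19,1)]⟩,⟨0,[]⟩⟩,⟨true,0,⟨4,[(4,2),(2,0),(12,1),(1,0)]⟩,⟨0,[(11,
  0),(11,0)]⟩⟩,[]⟩) (.Q [0,1,-1,-2,-1,0,0,0,-1,-1,0,1] (.p true [0,0,0,1] [1] (⟨0,[(19,0)]⟩,⟨0,[(18,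
  0)]⟩) .k 1 (⟨0,[]⟩,⟨0,[]⟩) .k .k) (.R ⟨1,true,false,false,[1,-1],[0,0,0,1],[0,0,-1,-2],(⟨0,[(31,
  0)]⟩,⟨0,[(32,0)]⟩),(⟨0,[(20,0)]⟩,⟨0,[(19,0)]⟩),⟨0,[(9,0),(1,0)]⟩,.k,.k,(.r 0 ⟨0,[(2,0)]⟩ ⟨3,[(3,
  3),(13,0),(0,0),(19,1)]⟩),(.x (-1) ⟨3,[(17,0),(0,0),(11,1),(0,3)]⟩ ⟨0,[(32,0)]⟩),(.r 0 ⟨3,[(0,1),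
  (0,1),(0,0),(14,0),(1,1),(18,0)]⟩ ⟨1,[(3,1),(14,0),(19,0)]⟩),.k,⟨false,0,⟨3,[(0,1),(0,1),(0,0),
  (14,0),(1,1),(18,0)]⟩,⟨17,[(3,6),(0,5),(1,0),(1,1),(9,8),(3,1),(7,1)]⟩⟩,⟨true,0,⟨0,[(19,0)]⟩,⟨0,
  [(13,0),(6,0),(1,0)]⟩⟩,⟨true,0,⟨0,[(36,0)]⟩,⟨0,[(35,0)]⟩⟩,⟨false,1,⟨13,[(4,3),(1,1),(1,3),(9,6),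
  (0,13),(2,3),(10,5),(4,0)]⟩,⟨15,[(0,13),(3,3),(12,0),(2,1),(9,2),(6,0),(0,4)]⟩⟩,⟨false,1,⟨3,[(17,
  0),(0,0),(19,1)]⟩,⟨0,[]⟩⟩,⟨true,1,⟨17,[(3,6),(0,5),(1,0),(1,1),(9,8),(0,17),(2,1),(7,1)]⟩,⟨0,[(0,
  0)]⟩⟩,[]⟩) (.Q [0,1,1,0,-1,0,1,1,1,1,-1,-1] (.p false [0,0,1] [1,0,0,-1] (⟨0,[(29,0)]⟩,⟨0,[(28,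
  0)]⟩) .k 2 (⟨0,[(19,0)]⟩,⟨0,[(20,0)]⟩) .k (.x 0 ⟨0,[(25,0),(3,0)]⟩ ⟨7,[(2,0),(7,1),(3,3),(11,3),
  (1,7),(1,2),(6,2)]⟩)) (.Q [0,0,0,0,0,-1,0,0,0,1,0,-1] (.p false [0,0,0,1] [1] (⟨0,[(21,0)]⟩,⟨0,
  [(20,0)]⟩) .k 1 (⟨0,[]⟩,⟨0,[]⟩) .k .k) (.Q [0,-1,1,1,0,0,0,0,1,1,0,-1] (.p false [0,0,0,1] [1]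
  (⟨0,[(22,0)]⟩,⟨0,[(21,0)]⟩) .k 1 (⟨0,[]⟩,⟨0,[]⟩) .k .k) (.R ⟨1,false,false,true,[1,0,0,-1],[0,1],
  [1,1,0,0,0,0,0,0,-1],(⟨0,[(22,0)]⟩,⟨0,[(23,0)]⟩),(⟨0,[(35,0)]⟩,⟨0,[(34,0)]⟩),⟨0,[(1,0)]⟩,.k,.k,
  (.x (-1) ⟨3,[(20,0),(0,0),(11,1),(0,3)]⟩ ⟨0,[(35,0)]⟩),(.x (-1) ⟨3,[(20,0),(0,0),(11,1),(0,3)]⟩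
  ⟨0,[(35,0)]⟩),(.r (-1) ⟨3,[(5,3),(14,2),(0,0)]⟩ ⟨23,[(0,15),(1,5),(3,2),(2,4),(1,15),(9,0),(1,21),
  (0,11),(0,9)]⟩),.k,⟨false,1,⟨1,[(5,0),(14,0),(19,0)]⟩,⟨32,[(0,18),(1,5),(5,2),(0,1),(1,15),(9,3),
  (1,24),(0,17),(0,3)]⟩⟩,⟨true,0,⟨0,[(22,0)]⟩,⟨0,[(16,0),(6,0),(1,0)]⟩⟩,⟨false,0,⟨0,[]⟩,⟨3,[(20,0),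
  (0,0),(19,1)]⟩⟩,⟨false,0,⟨2,[(0,0),(1,0),(0,0),(23,0)]⟩,⟨5,[(4,2),(2,0),(0,3),(1,0),(0,1),(8,2),
  (2,5),(9,0)]⟩⟩,⟨true,0,⟨0,[(38,0)]⟩,⟨0,[(39,0)]⟩⟩,⟨false,0,⟨0,[(0,0),(37,0)]⟩,⟨1,[(8,1),(11,0),(2,
  1),(16,0)]⟩⟩,[.o ⟨false,0,⟨0,[(38,0)]⟩,⟨3,[(8,1),(11,0),(0,0),(11,0),(7,0)]⟩⟩,.o ⟨false,1,⟨19,[(6,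
  3),(0,3),(12,4),(0,4),(11,1),(6,3)]⟩,⟨4,[(8,2),(2,0),(12,1),(1,0)]⟩⟩,.o ⟨false,1,⟨1,[(23,1),(9,0),
  (6,0)]⟩,⟨0,[(16,0),(5,0),(2,0)]⟩⟩,.a ⟨true,0,⟨0,[(23,0)]⟩,⟨0,[(22,0)]⟩⟩ ⟨false,1,⟨1,[(20,0),(19,
  0)]⟩,⟨32,[(0,25),(1,2),(5,17),(0,0),(1,7),(9,1),(1,28),(0,8),(0,1)]⟩⟩ ⟨true,0,⟨0,[(22,0),(15,0)]⟩,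
  ⟨4,[(8,2),(2,0),(11,4),(0,1),(1,0)]⟩⟩]⟩) (.R ⟨1,false,false,true,[1,0,0,-1],[0,1,1],[0,1,0,-1,0,0,
  0,0,-1],(⟨0,[(22,0)]⟩,⟨0,[(23,0)]⟩),(⟨0,[(32,0),(2,0)]⟩,⟨0,[(12,0)]⟩),⟨0,[(1,0)]⟩,.k,.k,(.x (-1)
  ⟨3,[(20,0),(0,0),(11,1),(0,3)]⟩ ⟨0,[(35,0)]⟩),(.r (-1) ⟨1,[(5,1),(3,0),(10,0),(22,0)]⟩ ⟨5,[(2,3),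
  (4,1),(0,0),(1,0),(0,1),(5,1),(3,0),(1,3),(1,3)]⟩),(.r (-1) ⟨1,[(5,2),(3,0),(10,0),(22,0)]⟩ ⟨18,
  [(2,14),(4,9),(0,1),(0,0),(0,1),(0,9),(9,1),(1,14),(1,20)]⟩),.k,⟨false,1,⟨1,[(5,2),(3,0),(10,0),
  (22,0)]⟩,⟨1,[(2,1),(1,0),(2,0),(2,0),(0,1),(11,1),(1,1)]⟩⟩,⟨true,0,⟨0,[(16,0),(5,0)]⟩,⟨0,[(23,0),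
  (1,0)]⟩⟩,⟨false,0,⟨0,[(39,0)]⟩,⟨11,[(7,3),(12,0),(0,0),(11,1),(7,3)]⟩⟩,⟨false,0,⟨14,[(2,7),(0,6),
  (7,1),(6,0),(0,1),(13,0)]⟩,⟨1,[(0,1),(3,0),(2,0),(2,0),(25,1)]⟩⟩,⟨true,0,⟨0,[(43,0)]⟩,⟨0,[]⟩⟩,
  ⟨false,0,⟨3,[(2,2),(0,0),(3,0),(2,0),(0,2)]⟩,⟨1,[(5,0),(2,0),(1,0),(9,0),(2,1)]⟩⟩,[.o ⟨false,0,⟨1,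
  [(11,0),(14,0),(11,0)]⟩,⟨3,[(8,1),(1,1),(9,0),(0,0)]⟩⟩,.o ⟨false,0,⟨0,[(11,0)]⟩,⟨19,[(8,11),(4,3),
  (6,6),(0,6),(5,11),(5,1)]⟩⟩,.o ⟨false,1,⟨1,[(23,1),(9,0),(6,0)]⟩,⟨0,[(16,0),(5,0),(2,0)]⟩⟩,.a
  ⟨true,0,⟨0,[(23,0)]⟩,⟨0,[(22,0)]⟩⟩ ⟨true,0,⟨0,[(0,0),(21,0)]⟩,⟨0,[(2,0),(7,0),(0,0),(11,0)]⟩⟩
  ⟨false,0,⟨0,[(11,0),(10,0)]⟩,⟨3,[(8,1),(1,1),(9,0),(0,0),(1,3)]⟩⟩]⟩)) (.R ⟨0,false,false,true,[1,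
  0,0,-1],[0,1],[0,0,0,-1,0,0,0,0,-1],(⟨0,[(21,0)]⟩,⟨0,[(22,0)]⟩),(⟨0,[(34,0)]⟩,⟨0,[(33,0)]⟩),⟨0,
  [(0,0)]⟩,.k,.k,(.x (-1) ⟨3,[(19,0),(0,0),(11,1),(0,3)]⟩ ⟨0,[(34,0)]⟩),(.x (-1) ⟨3,[(19,0),(0,0),
  (11,1),(0,3)]⟩ ⟨0,[(34,0)]⟩),.k,.k,⟨false,1,⟨1,[(4,1),(14,0),(20,0)]⟩,⟨0,[(1,0),(8,0),(1,0),(9,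
  0)]⟩⟩,⟨true,0,⟨0,[(21,0)]⟩,⟨1,[(0,1),(4,0),(1,0),(3,0),(1,0)]⟩⟩,⟨true,0,⟨0,[(38,0)]⟩,⟨0,[(37,
  0)]⟩⟩,⟨false,0,⟨4,[(1,3),(0,0),(3,0),(2,1),(11,0),(0,0)]⟩,⟨5,[(3,2),(2,0),(0,3),(1,0),(0,1),(8,2),
  (2,5),(9,0)]⟩⟩,⟨false,0,⟨0,[]⟩,⟨0,[]⟩⟩,⟨false,0,⟨0,[]⟩,⟨0,[]⟩⟩,[.o ⟨false,0,⟨0,[(37,0)]⟩,⟨3,[(7,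
  1),(11,0),(0,0),(11,0),(7,0)]⟩⟩,.o ⟨false,1,⟨19,[(5,3),(0,3),(12,4),(0,4),(11,1),(6,3)]⟩,⟨4,[(7,
  2),(2,0),(12,1),(1,0)]⟩⟩,.o ⟨false,1,⟨1,[(22,1),(9,0),(6,0)]⟩,⟨0,[(15,0),(5,0),(2,0)]⟩⟩,.a ⟨true,
  0,⟨0,[(22,0)]⟩,⟨0,[(21,0)]⟩⟩ ⟨false,1,⟨1,[(4,0),(14,0),(20,0)]⟩,⟨0,[(1,0),(7,0),(0,0),(11,0)]⟩⟩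
  ⟨true,0,⟨0,[(21,0),(15,0)]⟩,⟨4,[(7,2),(2,0),(11,4),(0,1),(1,0)]⟩⟩]⟩)) (.I [0,0,1,1,0,0,0,0,-1]
  (.Q [0,1,1,0,0,0,0,0,1,0,0,-1] (.p false [0,0,0,1] [] (⟨0,[(22,0)]⟩,⟨0,[(21,0)]⟩) .k 0 (⟨0,[]⟩,⟨0,
  []⟩) .k .k) (.K ⟨0,[0,0,0,1],0,0,(⟨0,[(23,0)]⟩,⟨0,[(22,0)]⟩),.k,(.r (-1) ⟨3,[(5,1),(14,0),(0,2)]⟩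
  ⟨0,[(1,0)]⟩),(.x 0 ⟨0,[(35,0)]⟩ ⟨3,[(20,0),(0,0),(11,1),(0,3)]⟩),.k,.k,[⟨0,[(23,0)]⟩,⟨0,[(22,0)]⟩,
  ⟨1,[(1,1),(3,0),(17,1),(13,1)]⟩,⟨0,[(0,0)]⟩]⟩) (.Q [0,0,0,0,0,-1,0,0,0,1,0,-1] (.p false [0,0,0,
  1] [1] (⟨0,[(23,0)]⟩,⟨0,[(22,0)]⟩) .k 1 (⟨0,[]⟩,⟨0,[]⟩) .k .k) (.R ⟨1,false,false,true,[1,0,0,-1],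
  [0,1],[1,1,0,0,0,0,0,0,-1],(⟨0,[(23,0)]⟩,⟨0,[(24,0)]⟩),(⟨0,[(36,0)]⟩,⟨0,[(35,0)]⟩),⟨0,[(0,0)]⟩,.k,
  .k,(.x (-1) ⟨3,[(21,0),(0,0),(11,1),(0,3)]⟩ ⟨0,[(36,0)]⟩),(.x (-1) ⟨3,[(21,0),(0,0),(11,1),(0,
  3)]⟩ ⟨0,[(36,0)]⟩),(.r 0 ⟨1,[(2,1),(3,2)]⟩ ⟨1,[(7,1),(14,0),(19,0)]⟩),.k,⟨false,0,⟨1,[(2,1),(2,1),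
  (0,0)]⟩,⟨7,[(7,3),(13,0),(0,4),(19,1)]⟩⟩,⟨true,0,⟨0,[(23,0)]⟩,⟨0,[(17,0),(6,0),(1,0)]⟩⟩,⟨false,0,
  ⟨0,[]⟩,⟨3,[(21,0),(0,0),(19,1)]⟩⟩,⟨false,1,⟨35,[(4,7),(2,11),(13,6),(0,20),(0,27),(13,3)]⟩,⟨4,[(1,
  4),(7,2),(2,0),(12,1),(1,0)]⟩⟩,⟨true,0,⟨0,[(39,0)]⟩,⟨0,[(40,0)]⟩⟩,⟨false,1,⟨0,[(4,0),(39,0)]⟩,⟨0,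
  [(1,0),(7,0),(34,0)]⟩⟩,[.o ⟨false,0,⟨0,[(39,0)]⟩,⟨3,[(9,1),(11,0),(0,0),(11,0),(7,0)]⟩⟩,.o ⟨false,
  1,⟨19,[(7,3),(0,3),(12,4),(0,4),(11,1),(6,3)]⟩,⟨4,[(9,2),(2,0),(12,1),(1,0)]⟩⟩,.o ⟨false,1,⟨1,
  [(24,1),(9,0),(6,0)]⟩,⟨0,[(17,0),(5,0),(2,0)]⟩⟩,.a ⟨true,0,⟨0,[(24,0)]⟩,⟨0,[(23,0)]⟩⟩ ⟨false,0,⟨0,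
  [(2,0),(2,0)]⟩,⟨15,[(7,3),(13,0),(0,8),(14,7),(4,5)]⟩⟩ ⟨true,0,⟨0,[(23,0),(15,0)]⟩,⟨4,[(9,2),(2,
  0),(11,4),(0,1),(1,0)]⟩⟩]⟩) (.R ⟨0,false,false,true,[1,0,0,-1],[0,1],[0,0,0,-1,0,0,0,0,-1],(⟨0,
  [(23,0)]⟩,⟨0,[(24,0)]⟩),(⟨0,[(36,0)]⟩,⟨0,[(35,0)]⟩),⟨0,[(0,0)]⟩,.k,.k,(.x (-1) ⟨3,[(21,0),(0,0),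
  (11,1),(0,3)]⟩ ⟨0,[(36,0)]⟩),(.x (-1) ⟨3,[(21,0),(0,0),(11,1),(0,3)]⟩ ⟨0,[(36,0)]⟩),.k,.k,⟨false,
  0,⟨1,[(1,0),(0,0),(2,0),(0,0),(2,0),(13,0)]⟩,⟨1,[(7,1),(14,0),(18,0)]⟩⟩,⟨true,0,⟨0,[(23,0)]⟩,⟨0,
  [(17,0),(6,0),(1,0)]⟩⟩,⟨true,0,⟨0,[(40,0)]⟩,⟨0,[(39,0)]⟩⟩,⟨false,1,⟨35,[(4,7),(2,11),(13,6),(0,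
  20),(0,27),(13,3)]⟩,⟨4,[(1,4),(7,2),(2,0),(12,1),(1,0)]⟩⟩,⟨false,0,⟨0,[]⟩,⟨0,[]⟩⟩,⟨false,0,⟨0,[]⟩,
  ⟨0,[]⟩⟩,[.o ⟨false,0,⟨0,[(39,0)]⟩,⟨3,[(9,1),(11,0),(0,0),(11,0),(7,0)]⟩⟩,.o ⟨false,1,⟨19,[(7,3),
  (0,3),(12,4),(0,4),(11,1),(6,3)]⟩,⟨4,[(9,2),(2,0),(12,1),(1,0)]⟩⟩,.o ⟨false,1,⟨1,[(24,1),(9,0),(6,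
  0)]⟩,⟨0,[(17,0),(5,0),(2,0)]⟩⟩,.a ⟨true,0,⟨0,[(24,0)]⟩,⟨0,[(23,0)]⟩⟩ ⟨false,0,⟨1,[(1,0),(0,0),(2,
  0),(3,0),(13,0)]⟩,⟨7,[(7,3),(13,0),(0,4),(19,1)]⟩⟩ ⟨true,0,⟨0,[(23,0),(15,0)]⟩,⟨4,[(9,2),(2,0),
  (11,4),(0,1),(1,0)]⟩⟩]⟩))) (.Q [0,1,-1,0,0,0,0,0,-1,0,0,1] (.p true [0,0,0,1] [] (⟨0,[(22,0)]⟩,⟨0,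
  [(21,0)]⟩) .k 0 (⟨0,[]⟩,⟨0,[]⟩) .k .k) (.K ⟨0,[0,0,0,1],0,0,(⟨0,[(23,0)]⟩,⟨0,[(22,0)]⟩),.k,(.x 0
  ⟨0,[(6,0),(1,0),(25,0)]⟩ ⟨0,[(35,0),(4,0)]⟩),(.x 0 ⟨0,[(35,0)]⟩ ⟨3,[(20,0),(0,0),(11,1),(0,3)]⟩),
  .k,.k,[⟨0,[(23,0)]⟩,⟨0,[(22,0)]⟩,⟨0,[(0,0)]⟩,⟨4,[(1,4),(4,4),(1,2),(2,0),(10,4),(1,1),(1,0)]⟩]⟩)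
  (.Q [0,0,-1,-1,0,0,1,1,-1,0,-1,1] (.p false [0,0,1] [0,0,0,1] (⟨0,[(32,0)]⟩,⟨0,[(31,0)]⟩) .k 2
  (⟨0,[(23,0)]⟩,⟨0,[(22,0)]⟩) .k (.x (-1) ⟨0,[(28,0),(3,0),(7,0)]⟩ ⟨0,[(25,0),(5,0)]⟩)) (.R ⟨1,true,
  false,false,[0,0,1],[0,0,0,1],[0,1,0,-1,0,0,0,1],(⟨0,[(33,0)]⟩,⟨0,[(32,0)]⟩),(⟨0,[(24,0)]⟩,⟨0,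
  [(23,0)]⟩),⟨0,[(15,0)]⟩,.k,.k,.k,.k,(.x 0 ⟨0,[(15,0),(1,0)]⟩ ⟨1,[(30,1),(1,1),(1,0),(1,1),(4,
  0)]⟩),.k,⟨false,0,⟨1,[(0,1),(17,0),(4,1),(1,0),(0,0),(17,0)]⟩,⟨9,[(1,0),(0,9),(0,0),(4,2),(1,4),
  (1,0),(21,0)]⟩⟩,⟨true,0,⟨0,[(23,0),(2,0)]⟩,⟨0,[(17,0),(6,0)]⟩⟩,⟨false,0,⟨0,[(40,0)]⟩,⟨11,[(8,3),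
  (12,0),(0,0),(11,1),(7,3)]⟩⟩,⟨true,0,⟨0,[(1,0),(26,0)]⟩,⟨0,[(0,0),(38,0)]⟩⟩,⟨true,0,⟨0,[(44,0)]⟩,
  ⟨0,[]⟩⟩,⟨false,1,⟨23,[(1,11),(2,7),(9,11),(6,0),(0,2),(0,3),(13,3)]⟩,⟨0,[(0,0)]⟩⟩,[]⟩) (.Q [0,0,0,
  0,0,-1,0,0,0,1,0,-1] (.p false [0,0,0,1] [1] (⟨0,[(24,0)]⟩,⟨0,[(23,0)]⟩) .k 1 (⟨0,[]⟩,⟨0,[]⟩) .k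
  .k) (.R ⟨1,false,false,true,[1,0,0,-1],[1,0,-1],[1,1,0,0,0,0,0,0,-1],(⟨0,[(24,0)]⟩,⟨0,[(25,0)]⟩),
  (⟨0,[(33,0)]⟩,⟨0,[(34,0)]⟩),⟨0,[(0,0)]⟩,.k,.k,(.x (-1) ⟨3,[(22,0),(0,0),(11,1),(0,3)]⟩ ⟨0,[(37,
  0)]⟩),.k,(.r (-1) ⟨3,[(7,1),(14,2),(0,0),(8,3)]⟩ ⟨0,[(1,0),(16,0),(6,0)]⟩),.k,⟨false,1,⟨3,[(19,3),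
  (2,2),(0,0)]⟩,⟨1,[(1,1),(5,0),(10,1),(6,1)]⟩⟩,⟨true,0,⟨0,[(24,0),(2,0)]⟩,⟨0,[(18,0),(6,0)]⟩⟩,
  ⟨false,0,⟨0,[]⟩,⟨3,[(22,0),(0,0),(19,1)]⟩⟩,⟨false,0,⟨0,[(1,0),(39,0)]⟩,⟨0,[(4,0),(16,0)]⟩⟩,⟨true,
  0,⟨0,[(40,0)]⟩,⟨0,[(41,0)]⟩⟩,⟨false,0,⟨0,[(1,0)]⟩,⟨7,[(4,3),(2,1),(12,3),(0,3),(0,2),(0,0),(1,
  3)]⟩⟩,[.o ⟨false,0,⟨0,[(26,0)]⟩,⟨7,[(21,3),(0,0),(0,0),(11,1),(7,3)]⟩⟩,.o ⟨false,1,⟨4,[(10,0),(4,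
  1),(6,0),(0,0),(5,0),(5,0)]⟩,⟨2,[(13,0),(6,0),(7,0)]⟩⟩,.o ⟨false,1,⟨1,[(25,1),(9,0),(6,0)]⟩,⟨0,
  [(18,0),(5,0),(2,0)]⟩⟩,.a ⟨true,0,⟨0,[(25,0)]⟩,⟨0,[(24,0)]⟩⟩ ⟨false,1,⟨1,[(22,0),(19,0)]⟩,⟨0,[(2,
  0),(22,0)]⟩⟩ ⟨true,0,⟨0,[(24,0),(1,0)]⟩,⟨2,[(13,0),(6,0),(4,2),(2,0)]⟩⟩]⟩) (.R ⟨0,false,false,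
  true,[1,0,0,-1],[0,1],[0,0,0,-1,0,0,0,0,-1],(⟨0,[(24,0)]⟩,⟨0,[(25,0)]⟩),(⟨0,[(37,0)]⟩,⟨0,[(36,
  0)]⟩),⟨0,[(0,0)]⟩,.k,.k,(.x (-1) ⟨3,[(22,0),(0,0),(11,1),(0,3)]⟩ ⟨0,[(37,0)]⟩),(.x (-1) ⟨3,[(22,
  0),(0,0),(11,1),(0,3)]⟩ ⟨0,[(37,0)]⟩),.k,.k,⟨false,1,⟨1,[(7,1),(14,0),(20,0)]⟩,⟨1,[(1,0),(1,0),(4,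
  0),(4,0),(11,0),(14,0)]⟩⟩,⟨true,0,⟨0,[(24,0)]⟩,⟨1,[(0,1),(7,0),(1,0),(3,0),(1,0)]⟩⟩,⟨true,0,⟨0,
  [(41,0)]⟩,⟨0,[(40,0)]⟩⟩,⟨false,0,⟨1,[(1,1),(19,0),(2,0),(0,0)]⟩,⟨5,[(4,3),(2,0),(2,1),(10,1),(0,
  0),(2,1),(9,0)]⟩⟩,⟨false,0,⟨0,[]⟩,⟨0,[]⟩⟩,⟨false,0,⟨0,[]⟩,⟨0,[]⟩⟩,[.o ⟨false,0,⟨0,[(40,0)]⟩,⟨3,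
  [(10,1),(11,0),(0,0),(11,0),(7,0)]⟩⟩,.o ⟨false,1,⟨19,[(8,3),(0,3),(12,4),(0,4),(11,1),(6,3)]⟩,⟨4,
  [(10,2),(2,0),(12,1),(1,0)]⟩⟩,.o ⟨false,1,⟨1,[(25,1),(9,0),(6,0)]⟩,⟨0,[(18,0),(5,0),(2,0)]⟩⟩,.a
  ⟨true,0,⟨0,[(25,0)]⟩,⟨0,[(24,0)]⟩⟩ ⟨false,1,⟨1,[(7,0),(14,0),(20,0)]⟩,⟨2,[(1,0),(0,0),(0,0),(4,0),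
  (4,0),(11,1)]⟩⟩ ⟨true,0,⟨0,[(24,0),(15,0)]⟩,⟨4,[(10,2),(2,0),(11,4),(0,1),(1,0)]⟩⟩]⟩)))))))) (.R
  ⟨2,true,false,false,[0,1],[1,-1],[1,0,1,1],(⟨0,[]⟩,⟨0,[]⟩),(⟨0,[(29,0)]⟩,⟨0,[(30,0)]⟩),⟨0,[]⟩,.k,
  .k,.k,(.x (-1) ⟨0,[(30,1),(4,0)]⟩ ⟨0,[(1,0),(1,0),(3,0),(1,0)]⟩),.k,.k,⟨true,0,⟨0,[(0,0)]⟩,⟨0,[(3,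
  0),(13,0),(0,0),(13,0)]⟩⟩,⟨false,0,⟨5,[(0,0),(0,1),(1,3),(2,1),(12,1)]⟩,⟨0,[(17,0),(0,0),(16,
  0)]⟩⟩,⟨true,0,⟨0,[]⟩,⟨0,[(38,0)]⟩⟩,⟨false,0,⟨0,[(3,0)]⟩,⟨5,[(2,3),(11,1),(0,0),(0,0),(5,3)]⟩⟩,
  ⟨false,1,⟨11,[(2,3),(12,0),(0,0),(11,1),(7,3)]⟩,⟨0,[(34,0)]⟩⟩,⟨true,0,⟨4,[(3,2),(2,0),(12,1),(1,
  0)]⟩,⟨0,[(10,0),(11,0)]⟩⟩,[]⟩)) (.I [1,-1,0,-1,0,0,0,0,-1] (.I [1,-1,-2,-1,0,0,0,0,-1] (.Q [0,0,0,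
  0,0,-1,0,0,0,1,0,-1] (.p false [0,0,0,1] [1] (⟨0,[(19,0)]⟩,⟨0,[(18,0)]⟩) .k 1 (⟨0,[]⟩,⟨0,[]⟩) .k
  .k) (.R ⟨1,false,false,true,[1,0,0,-1],[0,1],[1,1,0,0,0,0,0,0,-1],(⟨0,[(19,0)]⟩,⟨0,[(20,0)]⟩),(⟨0,
  [(32,0)]⟩,⟨0,[(31,0)]⟩),⟨0,[(0,0)]⟩,.k,.k,(.x (-1) ⟨3,[(17,0),(0,0),(11,1),(0,3)]⟩ ⟨0,[(32,0)]⟩),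
  (.x (-1) ⟨3,[(17,0),(0,0),(11,1),(0,3)]⟩ ⟨0,[(32,0)]⟩),(.r 0 ⟨1,[(1,0),(0,0),(0,0),(36,2)]⟩ ⟨3,
  [(6,1),(1,2),(9,1),(4,0),(2,3),(8,0)]⟩),.k,⟨false,0,⟨0,[(1,0),(38,0)]⟩,⟨23,[(4,3),(1,5),(9,0),(1,
  11),(3,0),(0,9),(2,10),(3,1)]⟩⟩,⟨true,0,⟨0,[(19,0)]⟩,⟨0,[(13,0),(6,0),(1,0)]⟩⟩,⟨false,0,⟨0,[]⟩,⟨3,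
  [(17,0),(0,0),(19,1)]⟩⟩,⟨false,1,⟨23,[(4,3),(1,5),(9,0),(1,11),(0,23),(2,0),(0,9),(2,10),(3,1)]⟩,
  ⟨0,[(1,0),(11,0),(6,0),(1,0)]⟩⟩,⟨true,0,⟨0,[(35,0)]⟩,⟨0,[(36,0)]⟩⟩,⟨false,1,⟨7,[(4,1),(1,1),(1,2),
  (9,3),(0,7),(2,1),(0,0),(2,1),(8,2)]⟩,⟨9,[(1,4),(0,4),(2,5),(2,1),(11,9),(0,3),(1,1)]⟩⟩,[.o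
  ⟨false,0,⟨0,[(35,0)]⟩,⟨3,[(5,1),(11,0),(0,0),(11,0),(7,0)]⟩⟩,.o ⟨false,1,⟨15,[(4,3),(12,4),(0,4),
  (11,1),(4,3)]⟩,⟨4,[(5,2),(2,0),(12,1),(1,0)]⟩⟩,.o ⟨false,1,⟨1,[(20,1),(9,0),(6,0)]⟩,⟨0,[(13,0),(5,
  0),(2,0)]⟩⟩,.a ⟨true,0,⟨0,[(20,0)]⟩,⟨0,[(19,0)]⟩⟩ ⟨false,0,⟨1,[(1,0),(0,0),(32,1)]⟩,⟨11,[(6,1),(9,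
  1),(1,5),(7,3),(3,0),(2,3),(4,2)]⟩⟩ ⟨true,0,⟨0,[(19,0),(15,0)]⟩,⟨4,[(5,2),(2,0),(11,4),(0,1),(1,
  0)]⟩⟩]⟩) (.R ⟨0,false,false,true,[1,0,0,-1],[0,1],[0,0,0,-1,0,0,0,0,-1],(⟨0,[(19,0)]⟩,⟨0,[(20,
  0)]⟩),(⟨0,[(32,0)]⟩,⟨0,[(31,0)]⟩),⟨0,[(0,0)]⟩,.k,.k,(.x (-1) ⟨3,[(17,0),(0,0),(11,1),(0,3)]⟩ ⟨0,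
  [(32,0)]⟩),(.x (-1) ⟨3,[(17,0),(0,0),(11,1),(0,3)]⟩ ⟨0,[(32,0)]⟩),.k,.k,⟨false,0,⟨1,[(1,0),(0,0),
  (0,0),(36,0)]⟩,⟨15,[(4,2),(1,3),(11,7),(3,0),(0,7),(2,6),(3,0),(4,14)]⟩⟩,⟨true,0,⟨0,[(19,0)]⟩,⟨1,
  [(0,1),(8,0),(1,0),(10,0),(2,0)]⟩⟩,⟨true,0,⟨0,[(36,0)]⟩,⟨0,[(35,0)]⟩⟩,⟨false,1,⟨23,[(4,3),(1,5),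
  (9,0),(1,11),(0,23),(2,0),(0,9),(2,10),(3,1)]⟩,⟨1,[(0,1),(0,1),(7,0),(1,0),(10,0),(2,0)]⟩⟩,⟨false,
  0,⟨0,[]⟩,⟨0,[]⟩⟩,⟨false,0,⟨0,[]⟩,⟨0,[]⟩⟩,[.o ⟨false,0,⟨0,[(35,0)]⟩,⟨3,[(5,1),(11,0),(0,0),(11,0),
  (7,0)]⟩⟩,.o ⟨false,1,⟨15,[(4,3),(12,4),(0,4),(11,1),(4,3)]⟩,⟨4,[(5,2),(2,0),(12,1),(1,0)]⟩⟩,.o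
  ⟨false,1,⟨1,[(20,1),(9,0),(6,0)]⟩,⟨0,[(13,0),(5,0),(2,0)]⟩⟩,.a ⟨true,0,⟨0,[(20,0)]⟩,⟨0,[(19,0)]⟩⟩
  ⟨false,0,⟨0,[(1,0),(7,0),(1,0),(1,0),(8,0),(9,1)]⟩,⟨23,[(4,3),(1,5),(9,0),(1,11),(3,0),(0,9),(2,
  10),(3,1)]⟩⟩ ⟨true,0,⟨0,[(19,0),(15,0)]⟩,⟨4,[(5,2),(2,0),(11,4),(0,1),(1,0)]⟩⟩]⟩)) (.K ⟨0,[0,0,0,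
  1],0,0,(⟨0,[(19,0)]⟩,⟨0,[(18,0)]⟩),.k,(.x 0 ⟨1,[(8,0),(1,0),(10,0),(2,1),(0,0)]⟩ ⟨0,[(31,0),(4,
  0)]⟩),(.x 0 ⟨0,[(31,0)]⟩ ⟨3,[(16,0),(0,0),(11,1),(0,3)]⟩),.k,.k,[⟨0,[(19,0)]⟩,⟨0,[(18,0)]⟩,⟨0,[(1,
  0),(17,0),(13,0),(0,0)]⟩,⟨9,[(0,9),(1,4),(1,2),(2,5),(10,9),(1,6),(1,0)]⟩]⟩)) (.Q [0,1,-1,0,0,0,0,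
  0,-1,0,0,1] (.p true [0,0,0,1] [] (⟨0,[(18,0)]⟩,⟨0,[(17,0)]⟩) .k 0 (⟨0,[]⟩,⟨0,[]⟩) .k .k) (.K ⟨0,
  [0,0,0,1],0,0,(⟨0,[(19,0)]⟩,⟨0,[(18,0)]⟩),.k,(.r 0 ⟨2,[(1,2),(0,1),(29,0),(2,0)]⟩ ⟨23,[(3,3),(1,
  5),(9,0),(0,11),(4,0),(0,9),(2,10),(3,1)]⟩),(.x 0 ⟨0,[(31,0)]⟩ ⟨3,[(16,0),(0,0),(11,1),(0,3)]⟩),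
  .k,.k,[⟨0,[(19,0)]⟩,⟨0,[(18,0)]⟩,⟨0,[(0,0)]⟩,⟨1,[(1,1),(2,0),(13,1),(2,0),(2,0),(14,0)]⟩]⟩) (.I
  [1,1,-1,0,0,0,0,1,-1] (.Q [0,0,-1,-2,0,0,0,0,-1,-1,0,1] (.p true [0,0,0,1] [1] (⟨0,[(20,0)]⟩,⟨0,
  [(19,0)]⟩) .k 1 (⟨0,[]⟩,⟨0,[]⟩) .k .k) (.R ⟨1,true,false,true,[1,-1],[0,0,0,1],[0,0,-1,-2],(⟨0,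
  [(32,0)]⟩,⟨0,[(33,0)]⟩),(⟨0,[(21,0)]⟩,⟨0,[(20,0)]⟩),⟨0,[(10,0),(1,0)]⟩,.k,.k,(.r 0 ⟨0,[(4,0),(36,
  0)]⟩ ⟨11,[(5,3),(1,5),(9,0),(5,0),(0,9),(2,10),(3,1)]⟩),(.x (-1) ⟨3,[(18,0),(0,0),(11,1),(0,3)]⟩
  ⟨0,[(33,0)]⟩),(.x 0 ⟨0,[(10,0),(1,0),(1,0),(8,0)]⟩ ⟨3,[(18,0),(0,0),(13,7),(4,1)]⟩),.k,⟨false,1,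
  ⟨3,[(4,3),(13,2),(0,0)]⟩,⟨0,[(2,0),(18,0),(14,1)]⟩⟩,⟨true,0,⟨0,[(20,0)]⟩,⟨0,[(14,0),(6,0),(1,
  0)]⟩⟩,⟨true,0,⟨0,[(37,0)]⟩,⟨0,[(36,0)]⟩⟩,⟨false,0,⟨0,[(2,0),(10,0),(11,0)]⟩,⟨9,[(0,7),(4,1),(12,
  0),(2,1),(9,1),(6,0),(0,3)]⟩⟩,⟨false,1,⟨3,[(18,0),(0,0),(19,1)]⟩,⟨0,[]⟩⟩,⟨true,0,⟨0,[(2,0),(10,0),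
  (11,0),(10,0)]⟩,⟨0,[(0,0)]⟩⟩,[]⟩) (.Q [0,0,0,0,0,-1,0,0,0,1,0,-1] (.p false [0,0,0,1] [1] (⟨0,
  [(21,0)]⟩,⟨0,[(20,0)]⟩) .k 1 (⟨0,[]⟩,⟨0,[]⟩) .k .k) (.R ⟨1,false,false,true,[1,0,0,-1],[0,1],[1,1,
  0,0,0,0,0,0,-1],(⟨0,[(21,0)]⟩,⟨0,[(22,0)]⟩),(⟨0,[(34,0)]⟩,⟨0,[(33,0)]⟩),⟨0,[(0,0)]⟩,.k,.k,(.x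
  (-1) ⟨3,[(19,0),(0,0),(11,1),(0,3)]⟩ ⟨0,[(34,0)]⟩),(.x (-1) ⟨3,[(19,0),(0,0),(11,1),(0,3)]⟩ ⟨0,
  [(34,0)]⟩),(.r (-1) ⟨3,[(5,3),(13,2),(0,0),(21,3)]⟩ ⟨0,[(1,0),(13,0),(6,0),(1,0)]⟩),.k,⟨false,1,
  ⟨1,[(5,0),(13,0),(19,0),(2,0)]⟩,⟨6,[(1,1),(1,2),(0,1),(5,0),(11,4),(0,0),(0,0),(2,0)]⟩⟩,⟨true,0,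
  ⟨0,[(21,0)]⟩,⟨0,[(15,0),(6,0),(1,0)]⟩⟩,⟨false,0,⟨0,[]⟩,⟨3,[(19,0),(0,0),(19,1)]⟩⟩,⟨false,0,⟨0,[(1,
  0),(36,0)]⟩,⟨3,[(5,1),(1,0),(1,0),(0,1),(8,1),(2,3),(9,0)]⟩⟩,⟨true,0,⟨0,[(37,0)]⟩,⟨0,[(38,0)]⟩⟩,
  ⟨false,0,⟨0,[(1,0)]⟩,⟨7,[(5,3),(1,3),(11,4),(0,0),(1,7),(9,1)]⟩⟩,[.o ⟨false,0,⟨0,[(37,0)]⟩,⟨3,[(7,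
  1),(11,0),(0,0),(11,0),(7,0)]⟩⟩,.o ⟨false,1,⟨15,[(6,3),(12,4),(0,4),(11,1),(4,3)]⟩,⟨4,[(7,2),(2,
  0),(12,1),(1,0)]⟩⟩,.o ⟨false,1,⟨1,[(22,1),(9,0),(6,0)]⟩,⟨0,[(15,0),(5,0),(2,0)]⟩⟩,.a ⟨true,0,⟨0,
  [(22,0)]⟩,⟨0,[(21,0)]⟩⟩ ⟨false,1,⟨1,[(19,0),(19,0)]⟩,⟨0,[(3,0),(18,0)]⟩⟩ ⟨true,0,⟨0,[(21,0),(15,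
  0)]⟩,⟨4,[(7,2),(2,0),(11,4),(0,1),(1,0)]⟩⟩]⟩) (.R ⟨0,false,false,true,[1,0,0,-1],[0,1],[0,0,0,-1,
  0,0,0,0,-1],(⟨0,[(21,0)]⟩,⟨0,[(22,0)]⟩),(⟨0,[(34,0)]⟩,⟨0,[(33,0)]⟩),⟨0,[(0,0)]⟩,.k,.k,(.x (-1) ⟨3,
  [(19,0),(0,0),(11,1),(0,3)]⟩ ⟨0,[(34,0)]⟩),(.x (-1) ⟨3,[(19,0),(0,0),(11,1),(0,3)]⟩ ⟨0,[(34,0)]⟩),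
  .k,.k,⟨false,1,⟨3,[(5,3),(13,2),(0,0)]⟩,⟨3,[(1,1),(2,1),(5,0),(11,1),(0,0),(0,0),(2,0),(9,0)]⟩⟩,
  ⟨true,0,⟨0,[(21,0)]⟩,⟨0,[(15,0),(6,0),(1,0)]⟩⟩,⟨true,0,⟨0,[(38,0)]⟩,⟨0,[(37,0)]⟩⟩,⟨false,0,⟨0,[(1,
  0),(36,0)]⟩,⟨3,[(5,1),(1,0),(1,0),(0,1),(8,1),(2,3),(9,0)]⟩⟩,⟨false,0,⟨0,[]⟩,⟨0,[]⟩⟩,⟨false,0,⟨0,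
  []⟩,⟨0,[]⟩⟩,[.o ⟨false,0,⟨0,[(37,0)]⟩,⟨3,[(7,1),(11,0),(0,0),(11,0),(7,0)]⟩⟩,.o ⟨false,1,⟨15,[(6,
  3),(12,4),(0,4),(11,1),(4,3)]⟩,⟨4,[(7,2),(2,0),(12,1),(1,0)]⟩⟩,.o ⟨false,1,⟨1,[(22,1),(9,0),(6,
  0)]⟩,⟨0,[(15,0),(5,0),(2,0)]⟩⟩,.a ⟨true,0,⟨0,[(22,0)]⟩,⟨0,[(21,0)]⟩⟩ ⟨false,1,⟨7,[(5,3),(13,4),(0,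
  0),(19,1)]⟩,⟨6,[(1,1),(1,2),(0,1),(5,0),(11,4),(0,0),(0,0),(2,0)]⟩⟩ ⟨true,0,⟨0,[(21,0),(15,0)]⟩,
  ⟨4,[(7,2),(2,0),(11,4),(0,1),(1,0)]⟩⟩]⟩))) (.Q [0,0,0,0,0,-1,0,0,0,1,0,-1] (.p false [0,0,0,1]
  [1] (⟨0,[(20,0)]⟩,⟨0,[(19,0)]⟩) .k 1 (⟨0,[]⟩,⟨0,[]⟩) .k .k) (.Q [0,0,1,2,0,0,0,0,1,1,0,-1] (.p
  false [0,0,0,1] [1] (⟨0,[(21,0)]⟩,⟨0,[(20,0)]⟩) .k 1 (⟨0,[]⟩,⟨0,[]⟩) .k .k) (.R ⟨1,false,false,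
  true,[1,0,0,-1],[0,1],[1,1,0,0,0,0,0,0,-1],(⟨0,[(21,0)]⟩,⟨0,[(22,0)]⟩),(⟨0,[(34,0)]⟩,⟨0,[(33,
  0)]⟩),⟨0,[(1,0)]⟩,.k,.k,(.x (-1) ⟨3,[(19,0),(0,0),(11,1),(0,3)]⟩ ⟨0,[(34,0)]⟩),(.x (-1) ⟨3,[(19,
  0),(0,0),(11,1),(0,3)]⟩ ⟨0,[(34,0)]⟩),(.r (-1) ⟨3,[(5,3),(13,2),(0,0),(21,3)]⟩ ⟨2,[(0,1),(1,0),(7,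
  0),(11,1),(1,1),(2,0),(9,0)]⟩),.k,⟨false,1,⟨1,[(5,0),(13,0),(19,0),(2,0)]⟩,⟨7,[(0,1),(1,2),(1,2),
  (5,0),(7,0),(3,1),(1,2)]⟩⟩,⟨true,0,⟨0,[(21,0)]⟩,⟨0,[(15,0),(6,0),(1,0)]⟩⟩,⟨false,0,⟨0,[]⟩,⟨3,[(19,
  0),(0,0),(19,1)]⟩⟩,⟨false,0,⟨0,[(0,0),(37,0)]⟩,⟨3,[(5,1),(1,0),(1,0),(0,1),(8,1),(2,3),(9,0)]⟩⟩,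
  ⟨true,0,⟨0,[(37,0)]⟩,⟨0,[(38,0)]⟩⟩,⟨false,0,⟨0,[(0,0)]⟩,⟨7,[(5,3),(1,3),(11,4),(0,0),(1,7),(9,
  1)]⟩⟩,[.o ⟨false,0,⟨0,[(37,0)]⟩,⟨3,[(7,1),(11,0),(0,0),(11,0),(7,0)]⟩⟩,.o ⟨false,1,⟨15,[(6,3),(12,
  4),(0,4),(11,1),(4,3)]⟩,⟨4,[(7,2),(2,0),(12,1),(1,0)]⟩⟩,.o ⟨false,1,⟨1,[(22,1),(9,0),(6,0)]⟩,⟨0,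
  [(15,0),(5,0),(2,0)]⟩⟩,.a ⟨true,0,⟨0,[(22,0)]⟩,⟨0,[(21,0)]⟩⟩ ⟨false,1,⟨1,[(19,0),(19,0)]⟩,⟨0,[(3,
  0),(18,0)]⟩⟩ ⟨true,0,⟨0,[(21,0),(15,0)]⟩,⟨4,[(7,2),(2,0),(11,4),(0,1),(1,0)]⟩⟩]⟩) (.R ⟨1,true,
  false,true,[1,0,0,-1],[0,1],[0,0,0,-1,0,0,0,0,-1],(⟨0,[(21,0)]⟩,⟨0,[(22,0)]⟩),(⟨0,[(34,0)]⟩,⟨0,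
  [(33,0)]⟩),⟨0,[(1,0)]⟩,.k,.k,(.x (-1) ⟨3,[(19,0),(0,0),(11,1),(0,3)]⟩ ⟨0,[(34,0)]⟩),(.x (-1) ⟨3,
  [(19,0),(0,0),(11,1),(0,3)]⟩ ⟨0,[(34,0)]⟩),(.r (-1) ⟨3,[(5,3),(13,2),(0,0),(21,3)]⟩ ⟨0,[(2,0),(7,
  0),(17,0),(8,0)]⟩),.k,⟨false,1,⟨3,[(5,3),(13,2),(0,0)]⟩,⟨1,[(2,0),(1,0),(5,0),(17,0),(8,1)]⟩⟩,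
  ⟨true,0,⟨0,[(21,0)]⟩,⟨4,[(0,0),(1,0),(7,1),(11,3),(0,0),(0,2),(2,1)]⟩⟩,⟨true,0,⟨0,[(38,0)]⟩,⟨0,
  [(37,0)]⟩⟩,⟨false,0,⟨2,[(2,0),(0,0),(0,0),(9,0),(6,1),(6,0),(8,0)]⟩,⟨9,[(0,7),(5,1),(12,0),(2,1),
  (9,1),(6,0),(0,3)]⟩⟩,⟨false,1,⟨3,[(19,0),(0,0),(19,1)]⟩,⟨0,[]⟩⟩,⟨true,0,⟨2,[(2,0),(0,0),(0,0),(9,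
  0),(6,1),(6,0),(8,3)]⟩,⟨0,[(0,0)]⟩⟩,[]⟩)) (.R ⟨0,false,false,true,[1,0,0,-1],[0,1],[0,0,0,-1,0,0,
  0,0,-1],(⟨0,[(20,0)]⟩,⟨0,[(21,0)]⟩),(⟨0,[(33,0)]⟩,⟨0,[(32,0)]⟩),⟨0,[(0,0)]⟩,.k,.k,(.x (-1) ⟨3,
  [(18,0),(0,0),(11,1),(0,3)]⟩ ⟨0,[(33,0)]⟩),(.x (-1) ⟨3,[(18,0),(0,0),(11,1),(0,3)]⟩ ⟨0,[(33,0)]⟩),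
  .k,.k,⟨false,1,⟨3,[(4,3),(13,2),(0,0)]⟩,⟨1,[(1,0),(1,0),(5,0),(17,0),(8,1)]⟩⟩,⟨true,0,⟨0,[(20,
  0)]⟩,⟨0,[(14,0),(6,0),(1,0)]⟩⟩,⟨true,0,⟨0,[(37,0)]⟩,⟨0,[(36,0)]⟩⟩,⟨false,0,⟨2,[(1,0),(0,0),(0,0),
  (9,0),(6,1),(6,0),(8,0)]⟩,⟨3,[(4,1),(1,0),(1,0),(0,1),(8,1),(2,3),(9,0)]⟩⟩,⟨false,0,⟨0,[]⟩,⟨0,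
  []⟩⟩,⟨false,0,⟨0,[]⟩,⟨0,[]⟩⟩,[.o ⟨false,0,⟨0,[(36,0)]⟩,⟨3,[(6,1),(11,0),(0,0),(11,0),(7,0)]⟩⟩,.o
  ⟨false,1,⟨15,[(5,3),(12,4),(0,4),(11,1),(4,3)]⟩,⟨4,[(6,2),(2,0),(12,1),(1,0)]⟩⟩,.o ⟨false,1,⟨1,
  [(21,1),(9,0),(6,0)]⟩,⟨0,[(14,0),(5,0),(2,0)]⟩⟩,.a ⟨true,0,⟨0,[(21,0)]⟩,⟨0,[(20,0)]⟩⟩ ⟨false,1,⟨7,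
  [(4,3),(13,4),(0,0),(19,1)]⟩,⟨1,[(1,0),(1,0),(5,0),(17,0)]⟩⟩ ⟨true,0,⟨0,[(20,0),(15,0)]⟩,⟨4,[(6,
  2),(2,0),(11,4),(0,1),(1,0)]⟩⟩]⟩)))))))

theorem ok38 : chk (cU (-1) true 3) t38 r24 = true := by decide +kernel

noncomputable def t49 : Tre :=
  (.R ⟨2,true,false,false,[0,1],[0,0,1],[0,0,1],(⟨0,[]⟩,⟨0,[]⟩),(⟨0,[(17,0)]⟩,⟨0,[(16,0)]⟩),⟨0,[]⟩,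
  .k,.k,.k,.k,.k,.k,⟨true,0,⟨0,[(0,0)]⟩,⟨0,[(15,0)]⟩⟩,⟨false,0,⟨0,[(1,0)]⟩,⟨0,[(14,0),(10,0)]⟩⟩,
  ⟨true,0,⟨0,[(24,0)]⟩,⟨0,[(23,0)]⟩⟩,⟨false,0,⟨0,[(3,0)]⟩,⟨0,[(12,0),(10,0),(2,0)]⟩⟩,⟨false,1,⟨3,
  [(5,0),(0,0),(19,1)]⟩,⟨0,[]⟩⟩,⟨true,0,⟨0,[(3,0),(19,0)]⟩,⟨0,[(12,0)]⟩⟩,[]⟩)

theorem ok49 : chk (cU (-1) true 3) t49 l26 = true := by decide +kernel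

noncomputable def t50 : Tre :=
  (.Q [0,0,0,0,0,0,-1,0,0,1,1] (.p true [1,-1,1] [] (⟨0,[(19,0),(1,0)]⟩,⟨0,[(0,0)]⟩) .k 0 (⟨0,[]⟩,
  ⟨0,[]⟩) .k .k) (.R ⟨0,false,false,true,[0,1,-1],[0,1],[0,1,1,1,0,0,0,-1],(⟨0,[(1,0)]⟩,⟨0,[(20,0),
  (1,0)]⟩),(⟨0,[(23,0)]⟩,⟨0,[(22,0)]⟩),⟨0,[(20,0)]⟩,.k,.k,.k,.k,.k,.k,⟨false,1,⟨0,[(5,0),(22,0)]⟩,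
  ⟨0,[(18,0)]⟩⟩,⟨true,0,⟨0,[(4,0)]⟩,⟨0,[(17,0)]⟩⟩,⟨true,0,⟨0,[(31,0)]⟩,⟨0,[]⟩⟩,⟨false,0,⟨2,[(3,0),
  (0,1),(2,0),(5,0)]⟩,⟨0,[(15,0),(13,0)]⟩⟩,⟨false,0,⟨0,[]⟩,⟨0,[]⟩⟩,⟨false,0,⟨0,[]⟩,⟨0,[]⟩⟩,[.o
  ⟨false,0,⟨0,[(26,0)]⟩,⟨1,[(21,0),(5,1),(1,0)]⟩⟩,.o ⟨false,1,⟨3,[(8,0),(0,0),(16,3),(2,1)]⟩,⟨0,[(6,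
  0),(5,0)]⟩⟩,.o ⟨false,1,⟨1,[(0,1),(20,0),(6,0)]⟩,⟨0,[(4,1),(8,0)]⟩⟩,.a ⟨true,0,⟨0,[(0,0)]⟩,⟨0,[(4,
  0)]⟩⟩ ⟨false,1,⟨1,[(5,1),(20,1),(1,0),(0,0)]⟩,⟨0,[(3,0),(20,0)]⟩⟩ ⟨true,0,⟨0,[(4,0),(21,0)]⟩,⟨1,
  [(0,0),(2,0),(8,0),(11,0),(2,0)]⟩⟩]⟩) (.Q [0,0,0,-1,0,0,-1,-1,0,0,1] (.p true [0,0,1] [] (⟨0,[(20,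
  0)]⟩,⟨0,[(19,0)]⟩) .k 0 (⟨0,[]⟩,⟨0,[]⟩) .k .k) (.R ⟨2,true,false,false,[0,1],[1,-1],[0,0,1],(⟨0,
  []⟩,⟨0,[]⟩),(⟨0,[(23,0)]⟩,⟨0,[(24,0)]⟩),⟨0,[]⟩,.k,.k,.k,(.r (-1) ⟨0,[(17,0),(0,0),(8,1),(2,0)]⟩
  ⟨0,[(0,1),(3,1),(0,1)]⟩),.k,.k,⟨true,0,⟨0,[(3,0),(2,0),(7,0)]⟩,⟨0,[(0,0),(3,0),(0,0)]⟩⟩,⟨false,0,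
  ⟨2,[(1,0),(12,1),(2,0)]⟩,⟨0,[(11,0),(0,0),(16,0)]⟩⟩,⟨true,0,⟨0,[(28,0)]⟩,⟨0,[(27,0)]⟩⟩,⟨false,0,
  ⟨0,[(0,0),(0,0),(2,0),(20,0)]⟩,⟨0,[(3,0),(12,0),(10,0),(2,0)]⟩⟩,⟨false,1,⟨3,[(9,0),(0,0),(19,1)]⟩,
  ⟨0,[]⟩⟩,⟨true,0,⟨0,[(7,0),(5,0)]⟩,⟨0,[(3,0),(12,0)]⟩⟩,[]⟩) (.Q [0,1,1,0,-1,0,0,0,1,0,0,-1] (.p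
  false [0,0,0,1] [] (⟨0,[(12,0)]⟩,⟨0,[(11,0)]⟩) .k 0 (⟨0,[]⟩,⟨0,[]⟩) .k .k) (.K ⟨0,[0,0,0,1],0,
  (-1),(⟨0,[(13,0)]⟩,⟨0,[(12,0)]⟩),.k,(.x 0 ⟨0,[(15,0),(2,0),(5,0)]⟩ ⟨0,[(25,0),(4,0)]⟩),(.x 0 ⟨0,
  [(25,0)]⟩ ⟨3,[(10,0),(0,0),(11,1),(0,3)]⟩),.k,.k,[⟨0,[(13,0)]⟩,⟨0,[(12,0)]⟩,⟨1,[(10,0),(2,1),(16,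
  0),(2,1)]⟩,⟨0,[(0,0)]⟩]⟩) (.I [0,1,1,0,-1,0,0,0,-1] (.Q [0,1,1,0,0,0,0,0,1,0,0,-1] (.p false [0,0,
  0,1] [] (⟨0,[(14,0)]⟩,⟨0,[(13,0)]⟩) .k 0 (⟨0,[]⟩,⟨0,[]⟩) .k .k) (.K ⟨0,[0,0,0,1],0,0,(⟨0,[(15,
  0)]⟩,⟨0,[(14,0)]⟩),.k,(.r (-1) ⟨1,[(13,0),(17,1),(0,0)]⟩ ⟨0,[(1,0),(28,0),(2,0)]⟩),(.x 0 ⟨0,[(27,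
  0)]⟩ ⟨3,[(12,0),(0,0),(11,1),(0,3)]⟩),.k,.k,[⟨0,[(15,0)]⟩,⟨0,[(14,0)]⟩,⟨1,[(1,0),(0,0),(12,0),(13,
  1)]⟩,⟨0,[(0,0)]⟩]⟩) (.R ⟨0,false,false,true,[0,1,-1],[0,0,0,1],[1,0,1,0,0,0,0,-1],(⟨0,[(5,0)]⟩,⟨0,
  [(24,0),(1,0)]⟩),(⟨0,[(15,0)]⟩,⟨0,[(14,0)]⟩),⟨0,[(24,0)]⟩,.k,.k,.k,(.r 0 ⟨1,[(0,0),(0,0),(1,0),(5,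
  1),(4,0),(1,0),(13,0),(2,0)]⟩ ⟨3,[(7,3),(4,0),(0,2),(17,3)]⟩),.k,.k,⟨true,0,⟨2,[(0,1),(0,0),(2,0),
  (4,2),(4,1),(2,0),(15,0)]⟩,⟨0,[(1,0),(5,0),(5,0)]⟩⟩,⟨false,0,⟨2,[(4,1),(9,2),(2,0),(2,1)]⟩,⟨3,[(0,
  1),(6,1),(5,0),(1,1),(3,1),(1,1),(10,2)]⟩⟩,⟨true,0,⟨0,[(31,0)]⟩,⟨0,[(30,0)]⟩⟩,⟨false,0,⟨0,[(1,0),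
  (2,0),(2,0),(5,0),(0,0),(13,0)]⟩,⟨0,[(0,0),(18,0),(10,0),(2,0)]⟩⟩,⟨false,0,⟨0,[]⟩,⟨0,[]⟩⟩,⟨false,
  0,⟨0,[]⟩,⟨0,[]⟩⟩,[.a ⟨true,0,⟨0,[(1,0),(11,0),(0,0)]⟩,⟨0,[(0,0)]⟩⟩ ⟨true,0,⟨0,[(9,0)]⟩,⟨0,[(22,
  0)]⟩⟩ ⟨false,0,⟨0,[(1,0),(2,0),(8,0),(0,0)]⟩,⟨0,[(0,0),(20,0),(10,0)]⟩⟩,.o ⟨false,1,⟨1,[(13,0),(0,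
  1),(5,0),(0,0),(3,0)]⟩,⟨7,[(0,6),(0,0),(2,1),(2,1),(7,0),(0,3),(1,1),(6,0)]⟩⟩,.o ⟨false,1,⟨0,[(21,
  0),(10,0)]⟩,⟨2,[(4,1),(12,0),(2,1)]⟩⟩,.o ⟨false,1,⟨3,[(12,0),(0,0),(7,3),(10,1)]⟩,⟨0,[(4,
  0)]⟩⟩]⟩)) (.Q [0,1,-1,0,0,0,0,-1,0,1] (.pp false [-1,1]) (.Q [0,-1,0,-2,0,0,0,0,0,-1] (.pp true
  [-1,1]) (.R ⟨2,true,false,false,[0,1],[1,-1],[0,0,1],(⟨0,[]⟩,⟨0,[]⟩),(⟨0,[(27,0)]⟩,⟨0,[(28,0)]⟩),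
  ⟨0,[]⟩,.k,.k,.k,(.r (-1) ⟨0,[(21,0),(0,0),(8,1),(2,0)]⟩ ⟨0,[(0,0),(0,0),(6,0)]⟩),.k,.k,⟨true,0,⟨0,
  [(4,0),(5,0),(11,0)]⟩,⟨1,[(0,0),(0,0),(6,0)]⟩⟩,⟨false,0,⟨2,[(5,0),(12,1),(2,0)]⟩,⟨3,[(1,1),(1,1),
  (4,1),(5,0),(0,1),(17,0)]⟩⟩,⟨true,0,⟨0,[(32,0)]⟩,⟨0,[(31,0)]⟩⟩,⟨false,0,⟨0,[(0,0)]⟩,⟨1,[(1,0),(5,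
  0),(14,0),(8,2),(2,1)]⟩⟩,⟨false,1,⟨3,[(13,0),(0,0),(19,1)]⟩,⟨0,[]⟩⟩,⟨true,0,⟨13,[(0,6),(4,1),(2,
  0),(8,3),(0,0),(0,2)]⟩,⟨1,[(1,0),(5,0),(14,0),(8,0)]⟩⟩,[]⟩) (.Q [0,0,0,0,0,1,0,0,0,-1,1] (.ed
  false [0,1,1] .k) (.Q [0,0,-1,0,0,0,1,0,0,2,-1] (.p false [-1,1,1] [1] (⟨0,[(0,0)]⟩,⟨0,[(25,0),(2,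
  0)]⟩) .k 1 (⟨0,[]⟩,⟨0,[]⟩) .k .k) (.R ⟨0,false,false,false,[-1,1,1],[0,0,1],[],(⟨0,[(1,0)]⟩,⟨0,
  [(26,0),(2,0)]⟩),(⟨0,[(27,0)]⟩,⟨0,[(26,0)]⟩),⟨0,[(26,0)]⟩,.k,.k,.k,.k,.k,.k,⟨false,1,⟨1,[(3,1),
  (24,0),(7,0)]⟩,⟨0,[(25,0)]⟩⟩,⟨true,0,⟨2,[(7,0),(12,1),(2,0)]⟩,⟨1,[(0,0),(23,0)]⟩⟩,⟨false,1,⟨0,[(3,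
  0),(9,0),(5,0),(16,0)]⟩,⟨0,[(6,0),(17,0)]⟩⟩,⟨true,0,⟨0,[(13,0),(5,0)]⟩,⟨5,[(2,2),(0,1),(10,0),(9,
  1),(13,0)]⟩⟩,⟨false,0,⟨0,[]⟩,⟨0,[]⟩⟩,⟨false,0,⟨0,[]⟩,⟨0,[]⟩⟩,[.o ⟨false,0,⟨2,[(6,0),(6,0),(7,0)]⟩,
  ⟨1,[(22,1),(5,0),(7,0)]⟩⟩,.o ⟨false,1,⟨7,[(14,3),(0,0),(0,0),(11,1),(7,3)]⟩,⟨0,[(19,0)]⟩⟩,.a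
  ⟨true,0,⟨0,[(0,0)]⟩,⟨0,[(20,0)]⟩⟩ ⟨false,1,⟨3,[(15,0),(0,0),(19,1)]⟩,⟨0,[]⟩⟩ ⟨true,0,⟨2,[(6,0),(6,
  0),(6,2),(0,0)]⟩,⟨0,[(3,0)]⟩⟩,.o ⟨false,0,⟨1,[(0,0),(22,0)]⟩,⟨1,[(20,1),(7,0),(6,0)]⟩⟩]⟩) (.I [0,
  0,1,1,0,0,0,0,-1] (.Q [0,1,1,0,0,0,0,0,1,0,0,-1] (.p false [0,0,0,1] [] (⟨0,[(19,0)]⟩,⟨0,[(18,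
  0)]⟩) .k 0 (⟨0,[]⟩,⟨0,[]⟩) .k .k) (.K ⟨0,[0,0,0,1],0,0,(⟨0,[(20,0)]⟩,⟨0,[(19,0)]⟩),.k,(.r (-1) ⟨1,
  [(18,0),(17,1),(0,0)]⟩ ⟨0,[(1,0)]⟩),(.x 0 ⟨0,[(32,0)]⟩ ⟨3,[(17,0),(0,0),(11,1),(0,3)]⟩),.k,.k,[⟨0,
  [(20,0)]⟩,⟨0,[(19,0)]⟩,⟨0,[(1,0),(3,0),(6,0),(2,0),(4,0),(0,0)]⟩,⟨0,[(0,0)]⟩]⟩) (.Q [0,0,0,0,0,1,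
  0,0,0,-1,0,1] (.p true [0,0,0,1] [1] (⟨0,[(20,0)]⟩,⟨0,[(19,0)]⟩) .k 1 (⟨0,[]⟩,⟨0,[]⟩) .k .k) (.R
  ⟨0,false,false,true,[1,0,0,-1],[0,1],[0,1,0,0,0,0,0,0,-1],(⟨0,[(20,0)]⟩,⟨0,[(21,0)]⟩),(⟨0,[(33,
  0)]⟩,⟨0,[(32,0)]⟩),⟨0,[(0,0)]⟩,.k,.k,(.x (-1) ⟨3,[(18,0),(0,0),(11,1),(0,3)]⟩ ⟨0,[(33,0)]⟩),(.x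
  (-1) ⟨3,[(18,0),(0,0),(11,1),(0,3)]⟩ ⟨0,[(33,0)]⟩),.k,.k,⟨false,0,⟨0,[(1,0),(14,0),(3,0),(1,0),
  (12,0)]⟩,⟨0,[(2,0),(16,0)]⟩⟩,⟨true,0,⟨0,[(20,0)]⟩,⟨1,[(3,0),(17,1),(4,0)]⟩⟩,⟨true,0,⟨0,[(41,0)]⟩,
  ⟨0,[]⟩⟩,⟨false,1,⟨0,[(2,0),(16,0),(0,0)]⟩,⟨0,[(1,0),(14,0),(5,0)]⟩⟩,⟨false,0,⟨0,[]⟩,⟨0,[]⟩⟩,
  ⟨false,0,⟨0,[]⟩,⟨0,[]⟩⟩,[.o ⟨false,0,⟨0,[(36,0)]⟩,⟨1,[(31,0),(5,1),(1,0)]⟩⟩,.o ⟨false,1,⟨3,[(5,1),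
  (12,0),(0,0),(11,0),(7,0)]⟩,⟨0,[(16,0),(5,0)]⟩⟩,.o ⟨false,1,⟨1,[(21,1),(9,0),(6,0)]⟩,⟨1,[(3,0),
  (16,1),(5,0)]⟩⟩,.a ⟨true,0,⟨0,[(21,0)]⟩,⟨0,[(20,0)]⟩⟩ ⟨false,0,⟨6,[(1,4),(0,1),(0,0),(6,0),(5,1),
  (3,4),(1,1),(12,4)]⟩,⟨1,[(19,0),(6,0),(0,0),(11,0)]⟩⟩ ⟨true,0,⟨0,[(20,0),(15,0)]⟩,⟨0,[(16,0),(4,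
  0),(0,0)]⟩⟩]⟩) (.R ⟨1,false,false,true,[1,0,0,-1],[0,1],[0,1,0,-1,0,0,0,0,-1],(⟨0,[(20,0)]⟩,⟨0,
  [(21,0)]⟩),(⟨0,[(33,0)]⟩,⟨0,[(32,0)]⟩),⟨0,[(0,0)]⟩,.k,.k,(.x (-1) ⟨3,[(18,0),(0,0),(11,1),(0,3)]⟩
  ⟨0,[(33,0)]⟩),(.x (-1) ⟨3,[(18,0),(0,0),(11,1),(0,3)]⟩ ⟨0,[(33,0)]⟩),(.r 0 ⟨0,[(1,0),(14,0),(3,0),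
  (1,0),(12,0),(1,0)]⟩ ⟨1,[(3,0),(1,1),(13,0),(6,1),(0,0),(11,0)]⟩),.k,⟨false,0,⟨0,[(1,0),(14,0),(3,
  0),(1,0),(12,0),(1,0)]⟩,⟨1,[(3,0),(1,1),(13,0),(6,0),(12,0)]⟩⟩,⟨true,0,⟨0,[(20,0)]⟩,⟨1,[(3,0),(17,
  1),(4,0)]⟩⟩,⟨false,0,⟨0,[(37,0)]⟩,⟨3,[(5,1),(25,0),(7,2)]⟩⟩,⟨false,1,⟨0,[(2,0),(16,0),(0,0)]⟩,⟨0,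
  [(1,0),(14,0),(5,0)]⟩⟩,⟨true,0,⟨0,[(41,0)]⟩,⟨0,[]⟩⟩,⟨false,1,⟨1,[(3,0),(1,1),(13,0),(0,1),(5,0),
  (12,0)]⟩,⟨0,[(1,0),(14,0),(5,0),(14,0)]⟩⟩,[.o ⟨false,0,⟨0,[(36,0)]⟩,⟨1,[(31,0),(5,1),(1,0)]⟩⟩,.o
  ⟨false,1,⟨3,[(5,1),(12,0),(0,0),(11,0),(7,0)]⟩,⟨0,[(16,0),(5,0)]⟩⟩,.o ⟨false,1,⟨1,[(21,1),(9,0),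
  (6,0)]⟩,⟨1,[(3,0),(16,1),(5,0)]⟩⟩,.a ⟨true,0,⟨0,[(21,0)]⟩,⟨0,[(20,0)]⟩⟩ ⟨false,0,⟨2,[(1,1),(0,0),
  (13,1),(3,1),(1,1),(12,1),(1,1)]⟩,⟨2,[(3,0),(1,1),(1,0),(1,0),(5,0),(3,0),(14,1),(4,0)]⟩⟩ ⟨true,0,
  ⟨0,[(20,0),(15,0)]⟩,⟨0,[(16,0),(4,0),(0,0)]⟩⟩]⟩))) (.I [1,0,1,1,0,0,0,0,1] (.Q [0,0,0,0,0,1,0,0,0,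
  -1,0,1] (.p true [0,0,0,1] [1] (⟨0,[(20,0)]⟩,⟨0,[(19,0)]⟩) .k 1 (⟨0,[]⟩,⟨0,[]⟩) .k .k) (.R ⟨0,
  false,false,true,[1,0,0,-1],[0,1],[0,0,0,-1,0,0,0,0,-1],(⟨0,[(20,0)]⟩,⟨0,[(21,0)]⟩),(⟨0,[(33,0)]⟩,
  ⟨0,[(32,0)]⟩),⟨0,[(0,0)]⟩,.k,.k,(.x (-1) ⟨3,[(18,0),(0,0),(11,1),(0,3)]⟩ ⟨0,[(33,0)]⟩),(.x (-1)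
  ⟨3,[(18,0),(0,0),(11,1),(0,3)]⟩ ⟨0,[(33,0)]⟩),.k,.k,⟨false,1,⟨0,[(6,0),(1,0),(1,0),(2,1),(6,0),(1,
  0),(11,1)]⟩,⟨0,[(1,0),(34,0)]⟩⟩,⟨true,0,⟨0,[(20,0)]⟩,⟨1,[(3,0),(17,1),(4,0)]⟩⟩,⟨true,0,⟨0,[(37,
  0)]⟩,⟨0,[(36,0)]⟩⟩,⟨false,0,⟨0,[(1,0),(18,0)]⟩,⟨0,[(8,0),(7,0),(5,0)]⟩⟩,⟨false,0,⟨0,[]⟩,⟨0,[]⟩⟩,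
  ⟨false,0,⟨0,[]⟩,⟨0,[]⟩⟩,[.o ⟨false,0,⟨0,[(36,0)]⟩,⟨1,[(31,0),(5,1),(1,0)]⟩⟩,.o ⟨false,1,⟨3,[(5,1),
  (12,0),(0,0),(11,0),(7,0)]⟩,⟨0,[(16,0),(5,0)]⟩⟩,.o ⟨false,1,⟨1,[(21,1),(9,0),(6,0)]⟩,⟨1,[(3,0),
  (16,1),(5,0)]⟩⟩,.a ⟨true,0,⟨0,[(21,0)]⟩,⟨0,[(20,0)]⟩⟩ ⟨false,1,⟨0,[(8,0),(7,0),(3,0),(1,0)]⟩,⟨0,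
  [(1,0)]⟩⟩ ⟨true,0,⟨0,[(20,0),(15,0)]⟩,⟨0,[(16,0),(4,0),(0,0)]⟩⟩]⟩) (.Q [0,0,1,2,0,0,0,0,1,1,0,-1]
  (.p false [0,0,0,1] [1] (⟨0,[(21,0)]⟩,⟨0,[(20,0)]⟩) .k 1 (⟨0,[]⟩,⟨0,[]⟩) .k .k) (.R ⟨1,false,
  false,true,[1,0,0,-1],[0,1],[0,0,0,-1,0,0,0,0,-1],(⟨0,[(21,0)]⟩,⟨0,[(22,0)]⟩),(⟨0,[(34,0)]⟩,⟨0,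
  [(33,0)]⟩),⟨0,[(1,0)]⟩,.k,.k,(.x (-1) ⟨3,[(19,0),(0,0),(11,1),(0,3)]⟩ ⟨0,[(34,0)]⟩),(.x (-1) ⟨3,
  [(19,0),(0,0),(11,1),(0,3)]⟩ ⟨0,[(34,0)]⟩),(.r (-1) ⟨3,[(7,1),(1,1),(4,1),(2,3),(1,0),(1,1),(1,3),
  (14,3),(0,0)]⟩ ⟨1,[(0,1),(3,0),(17,1),(4,0)]⟩),.k,⟨false,1,⟨1,[(1,1),(3,0),(1,1),(1,1),(1,0),(0,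
  0),(1,2),(2,0),(5,1),(11,2)]⟩,⟨0,[(2,0),(34,0)]⟩⟩,⟨true,0,⟨0,[(21,0)]⟩,⟨1,[(4,0),(17,1),(4,0)]⟩⟩,
  ⟨true,0,⟨0,[(38,0)]⟩,⟨0,[(37,0)]⟩⟩,⟨false,0,⟨4,[(0,3),(2,0),(17,0),(13,1),(6,1)]⟩,⟨0,[(9,0),(7,0),
  (5,0)]⟩⟩,⟨false,1,⟨3,[(19,0),(0,0),(19,1)]⟩,⟨0,[]⟩⟩,⟨false,0,⟨0,[(0,0)]⟩,⟨0,[(9,0),(7,0),(5,0),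
  (14,0)]⟩⟩,[.o ⟨false,0,⟨0,[(37,0)]⟩,⟨1,[(32,0),(5,1),(1,0)]⟩⟩,.o ⟨false,1,⟨3,[(6,1),(12,0),(0,0),
  (11,0),(7,0)]⟩,⟨0,[(17,0),(5,0)]⟩⟩,.o ⟨false,1,⟨1,[(22,1),(9,0),(6,0)]⟩,⟨1,[(4,0),(16,1),(5,0)]⟩⟩,
  .a ⟨true,0,⟨0,[(22,0)]⟩,⟨0,[(21,0)]⟩⟩ ⟨false,1,⟨0,[(9,0),(7,0),(3,0),(1,0)]⟩,⟨0,[(2,0)]⟩⟩ ⟨true,0,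
  ⟨0,[(21,0),(15,0)]⟩,⟨0,[(17,0),(4,0),(0,0)]⟩⟩]⟩) (.K ⟨0,[0,0,0,1],0,0,(⟨0,[(22,0)]⟩,⟨0,[(21,0)]⟩),
  .k,(.x 0 ⟨1,[(4,0),(22,1),(0,0),(4,1)]⟩ ⟨0,[(34,0),(4,0)]⟩),(.x 0 ⟨0,[(34,0)]⟩ ⟨3,[(19,0),(0,0),
  (11,1),(0,3)]⟩),.k,.k,[⟨0,[(22,0)]⟩,⟨0,[(21,0)]⟩,⟨0,[(0,0),(5,0)]⟩,⟨1,[(2,0),(0,0),(0,0),(16,1),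
  (5,0),(14,1)]⟩]⟩))) (.K ⟨0,[0,0,0,1],0,0,(⟨0,[(20,0)]⟩,⟨0,[(19,0)]⟩),.k,(.x 0 ⟨1,[(2,0),(22,1),(0,
  0),(4,1)]⟩ ⟨0,[(32,0),(4,0)]⟩),(.r (-1) ⟨3,[(4,1),(13,1),(6,1),(0,1),(3,0),(7,0)]⟩ ⟨0,[(0,0)]⟩),
  .k,.k,[⟨0,[(20,0)]⟩,⟨0,[(19,0)]⟩,⟨0,[(0,0),(19,0),(14,0)]⟩,⟨1,[(1,1),(0,0),(16,1),(5,1),(0,0),(8,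
  1)]⟩]⟩)))) (.Q [0,0,1,0,0,0,-2,0,0,-1,2] (.p true [0,0,1] [1,0,-1] (⟨0,[(26,0)]⟩,⟨0,[(25,0)]⟩) .k
  2 (⟨0,[(25,0)]⟩,⟨0,[(26,0)]⟩) .k (.r 0 ⟨0,[(24,1)]⟩ ⟨1,[(2,1),(8,1),(15,0),(7,0)]⟩)) (.Q [0,1,0,
  -1,0,0,-2,-2,0,-1,2] (.p true [0,0,1] [1,0,-1] (⟨0,[(27,0)]⟩,⟨0,[(26,0)]⟩) .k 2 (⟨0,[(26,0)]⟩,⟨0,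
  [(27,0)]⟩) .k (.r 0 ⟨2,[(0,1),(9,1),(3,1)]⟩ ⟨1,[(3,1),(8,1),(15,0),(7,0)]⟩)) (.R ⟨1,true,false,
  false,[1,0,-1],[0,0,1],[0,0,0,-1,0,0,0,-1],(⟨0,[(27,0)]⟩,⟨0,[(28,0)]⟩),(⟨0,[(28,0)]⟩,⟨0,[(27,
  0)]⟩),⟨0,[(2,0)]⟩,.k,.k,.k,.k,(.r (-1) ⟨9,[(0,5),(3,11),(7,5),(1,3),(9,1),(4,2),(7,6)]⟩ ⟨1,[(1,1),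
  (5,0),(2,0),(4,0)]⟩),.k,⟨false,1,⟨9,[(0,5),(3,11),(7,5),(1,3),(9,1),(4,2),(7,6)]⟩,⟨5,[(1,3),(5,2),
  (2,2),(0,3),(3,0)]⟩⟩,⟨true,0,⟨1,[(4,0),(5,0),(1,2),(19,0)]⟩,⟨0,[(1,0)]⟩⟩,⟨true,0,⟨0,[(35,0)]⟩,⟨0,
  [(34,0)]⟩⟩,⟨false,0,⟨0,[(10,0),(3,0)]⟩,⟨3,[(0,3),(2,1),(25,0),(7,2)]⟩⟩,⟨false,1,⟨3,[(16,0),(0,0),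
  (19,1)]⟩,⟨0,[]⟩⟩,⟨true,0,⟨1,[(7,0),(2,0),(4,0)]⟩,⟨0,[(0,0)]⟩⟩,[]⟩) (.Q [0,0,0,-2,0,0,-1,-1,0,-1,
  1] (.p true [0,0,1] [1] (⟨0,[(28,0)]⟩,⟨0,[(27,0)]⟩) .k 1 (⟨0,[]⟩,⟨0,[]⟩) .k .k) (.R ⟨1,true,false,
  false,[1,0,-1],[0,1],[0,0,2,1],(⟨0,[(28,0)]⟩,⟨0,[(29,0)]⟩),(⟨0,[(32,0)]⟩,⟨0,[(31,0)]⟩),⟨0,[(3,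
  0)]⟩,.k,.k,.k,.k,(.r (-1) ⟨15,[(0,11),(4,11),(9,7),(1,0),(0,0),(6,3),(11,11),(0,1)]⟩ ⟨2,[(1,1),(0,
  0),(1,1),(9,0),(7,2),(2,0)]⟩),.k,⟨true,0,⟨1,[(25,0),(0,0)]⟩,⟨0,[]⟩⟩,⟨false,1,⟨2,[(5,1),(7,0),(2,
  0),(20,1),(0,0)]⟩,⟨0,[(22,0)]⟩⟩,⟨false,0,⟨0,[(1,0),(0,0),(11,0)]⟩,⟨3,[(0,1),(4,1),(7,1),(23,2),(0,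
  0)]⟩⟩,⟨true,0,⟨0,[(11,0)]⟩,⟨1,[(0,0),(20,0),(18,0)]⟩⟩,⟨true,0,⟨2,[(1,1),(0,0),(1,1),(9,0),(7,2),
  (2,0)]⟩,⟨4,[(0,3),(4,5),(3,1),(2,2),(2,1),(18,0)]⟩⟩,⟨false,1,⟨7,[(1,3),(2,5),(12,0),(0,0),(11,0),
  (7,4)]⟩,⟨0,[(0,0)]⟩⟩,[]⟩) (.Q [0,0,0,0,0,-2,0,0,0,1] (.pp false [-1,1]) (.R ⟨1,true,false,true,[1,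
  -1],[0,1],[0,1,-1,-2],(⟨0,[(32,0)]⟩,⟨0,[(33,0)]⟩),(⟨0,[(33,0)]⟩,⟨0,[(32,0)]⟩),⟨0,[(0,0)]⟩,.k,.k,
  (.r (-1) ⟨0,[(37,1),(0,0)]⟩ ⟨0,[(1,0),(13,0),(7,0)]⟩),(.r (-1) ⟨0,[(37,1),(0,0)]⟩ ⟨0,[(1,0),(13,
  0),(7,0)]⟩),(.r (-1) ⟨1,[(6,1),(6,1),(2,1),(5,1),(14,3),(0,0),(0,0)]⟩ ⟨1,[(1,2),(13,2),(7,2)]⟩),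
  .k,⟨true,0,⟨0,[(6,1),(3,0),(2,2),(8,0),(11,2)]⟩,⟨1,[(1,2),(13,2),(7,2)]⟩⟩,⟨false,1,⟨1,[(6,1),(6,
  1),(24,0),(0,0)]⟩,⟨0,[(23,0),(2,0)]⟩⟩,⟨false,0,⟨0,[(37,0)]⟩,⟨3,[(5,1),(25,0),(7,2)]⟩⟩,⟨true,0,⟨0,
  [(5,0)]⟩,⟨0,[(16,0),(5,0),(14,0)]⟩⟩,⟨true,0,⟨0,[(41,0)]⟩,⟨0,[]⟩⟩,⟨false,1,⟨3,[(5,5),(25,0),(7,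
  2)]⟩,⟨0,[(6,0),(3,0),(2,1),(8,0),(11,2)]⟩⟩,[]⟩) (.I [0,0,1,1,0,0,0,0,-1] (.Q [0,1,1,0,0,0,0,0,1,0,
  0,-1] (.p false [0,0,0,1] [] (⟨0,[(22,0)]⟩,⟨0,[(21,0)]⟩) .k 0 (⟨0,[]⟩,⟨0,[]⟩) .k .k) (.K ⟨0,[0,0,
  0,1],0,0,(⟨0,[(23,0)]⟩,⟨0,[(22,0)]⟩),.k,(.r (-1) ⟨1,[(21,0),(17,1),(0,0)]⟩ ⟨0,[(1,0)]⟩),(.x 0 ⟨0,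
  [(35,0)]⟩ ⟨3,[(20,0),(0,0),(11,1),(0,3)]⟩),.k,.k,[⟨0,[(23,0)]⟩,⟨0,[(22,0)]⟩,⟨0,[(1,0),(6,0),(6,0),
  (2,0),(4,0),(0,0)]⟩,⟨0,[(0,0)]⟩]⟩) (.Q [0,0,0,0,0,1,0,0,0,-1,0,1] (.p true [0,0,0,1] [1] (⟨0,[(23,
  0)]⟩,⟨0,[(22,0)]⟩) .k 1 (⟨0,[]⟩,⟨0,[]⟩) .k .k) (.R ⟨0,false,false,true,[1,0,0,-1],[0,1],[0,1,0,0,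
  0,0,0,0,-1],(⟨0,[(23,0)]⟩,⟨0,[(24,0)]⟩),(⟨0,[(36,0)]⟩,⟨0,[(35,0)]⟩),⟨0,[(0,0)]⟩,.k,.k,(.x (-1) ⟨3,
  [(21,0),(0,0),(11,1),(0,3)]⟩ ⟨0,[(36,0)]⟩),(.x (-1) ⟨3,[(21,0),(0,0),(11,1),(0,3)]⟩ ⟨0,[(36,0)]⟩),
  .k,.k,⟨false,0,⟨0,[(1,0),(17,0),(3,0),(1,0),(12,0)]⟩,⟨0,[(2,0),(19,0)]⟩⟩,⟨true,0,⟨0,[(23,0)]⟩,⟨2,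
  [(13,0),(10,2),(1,1),(2,0)]⟩⟩,⟨true,0,⟨0,[(44,0)]⟩,⟨0,[]⟩⟩,⟨false,1,⟨0,[(2,0),(19,0),(0,0)]⟩,⟨0,
  [(1,0),(17,0),(5,0)]⟩⟩,⟨false,0,⟨0,[]⟩,⟨0,[]⟩⟩,⟨false,0,⟨0,[]⟩,⟨0,[]⟩⟩,[.o ⟨false,0,⟨0,[(39,0)]⟩,
  ⟨1,[(34,0),(5,1),(1,0)]⟩⟩,.o ⟨false,1,⟨3,[(8,1),(12,0),(0,0),(11,0),(7,0)]⟩,⟨0,[(19,0),(5,0)]⟩⟩,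
  .o ⟨false,1,⟨1,[(24,1),(9,0),(6,0)]⟩,⟨2,[(13,0),(9,2),(2,1),(2,0)]⟩⟩,.a ⟨true,0,⟨0,[(24,0)]⟩,⟨0,
  [(23,0)]⟩⟩ ⟨false,0,⟨5,[(1,3),(0,1),(10,0),(2,0),(2,1),(3,3),(1,2),(12,2)]⟩,⟨1,[(22,0),(6,0),(0,
  0),(11,0)]⟩⟩ ⟨true,0,⟨0,[(23,0),(15,0)]⟩,⟨0,[(19,0),(4,0),(0,0)]⟩⟩]⟩) (.R ⟨1,false,false,true,[1,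
  0,0,-1],[0,1],[0,1,0,-1,0,0,0,0,-1],(⟨0,[(23,0)]⟩,⟨0,[(24,0)]⟩),(⟨0,[(36,0)]⟩,⟨0,[(35,0)]⟩),⟨0,
  [(0,0)]⟩,.k,.k,(.x (-1) ⟨3,[(21,0),(0,0),(11,1),(0,3)]⟩ ⟨0,[(36,0)]⟩),(.x (-1) ⟨3,[(21,0),(0,0),
  (11,1),(0,3)]⟩ ⟨0,[(36,0)]⟩),(.r 0 ⟨0,[(1,0),(17,0),(3,0),(1,0),(12,0),(1,0)]⟩ ⟨1,[(2,1),(1,0),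
  (13,0),(3,1),(3,0)]⟩),.k,⟨false,0,⟨0,[(1,0),(17,0),(3,0),(1,0),(12,0),(1,0)]⟩,⟨5,[(4,3),(1,1),(1,
  1),(9,3),(3,2),(11,1),(7,0)]⟩⟩,⟨true,0,⟨0,[(23,0)]⟩,⟨2,[(13,0),(10,2),(1,1),(2,0)]⟩⟩,⟨false,0,⟨0,
  [(40,0)]⟩,⟨3,[(8,1),(25,0),(7,2)]⟩⟩,⟨false,1,⟨0,[(2,0),(19,0),(0,0)]⟩,⟨0,[(1,0),(17,0),(5,0)]⟩⟩,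
  ⟨true,0,⟨0,[(44,0)]⟩,⟨0,[]⟩⟩,⟨false,1,⟨5,[(4,3),(1,1),(1,1),(9,3),(3,2),(0,5),(10,1),(7,0)]⟩,⟨0,
  [(1,0),(17,0),(5,0),(14,0)]⟩⟩,[.o ⟨false,0,⟨0,[(39,0)]⟩,⟨1,[(34,0),(5,1),(1,0)]⟩⟩,.o ⟨false,1,⟨3,
  [(8,1),(12,0),(0,0),(11,0),(7,0)]⟩,⟨0,[(19,0),(5,0)]⟩⟩,.o ⟨false,1,⟨1,[(24,1),(9,0),(6,0)]⟩,⟨2,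
  [(13,0),(9,2),(2,1),(2,0)]⟩⟩,.a ⟨true,0,⟨0,[(24,0)]⟩,⟨0,[(23,0)]⟩⟩ ⟨false,0,⟨2,[(1,1),(0,0),(16,
  1),(3,1),(1,1),(12,1),(1,1)]⟩,⟨1,[(4,0),(13,0),(3,0),(3,0),(15,0)]⟩⟩ ⟨true,0,⟨0,[(23,0),(15,0)]⟩,
  ⟨0,[(19,0),(4,0),(0,0)]⟩⟩]⟩))) (.Q [0,0,0,0,0,1,0,0,0,-1,0,1] (.p true [0,0,0,1] [1] (⟨0,[(22,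
  0)]⟩,⟨0,[(21,0)]⟩) .k 1 (⟨0,[]⟩,⟨0,[]⟩) .k .k) (.R ⟨0,false,false,true,[1,0,0,-1],[0,1],[0,0,0,-1,
  0,0,0,0,-1],(⟨0,[(22,0)]⟩,⟨0,[(23,0)]⟩),(⟨0,[(35,0)]⟩,⟨0,[(34,0)]⟩),⟨0,[(0,0)]⟩,.k,.k,(.x (-1) ⟨3,
  [(20,0),(0,0),(11,1),(0,3)]⟩ ⟨0,[(35,0)]⟩),(.x (-1) ⟨3,[(20,0),(0,0),(11,1),(0,3)]⟩ ⟨0,[(35,0)]⟩),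
  .k,.k,⟨false,1,⟨0,[(8,0),(1,0),(1,0),(2,1),(6,0),(1,0),(11,1)]⟩,⟨5,[(1,5),(1,2),(3,5),(4,1),(4,2),
  (7,6),(2,1)]⟩⟩,⟨true,0,⟨0,[(22,0)]⟩,⟨2,[(12,0),(10,2),(1,1),(2,0)]⟩⟩,⟨true,0,⟨0,[(39,0)]⟩,⟨0,[(38,
  0)]⟩⟩,⟨false,0,⟨0,[(1,0),(1,0),(13,0),(4,0),(2,0)]⟩,⟨0,[(10,0),(7,0),(5,0)]⟩⟩,⟨false,0,⟨0,[]⟩,⟨0,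
  []⟩⟩,⟨false,0,⟨0,[]⟩,⟨0,[]⟩⟩,[.o ⟨false,0,⟨0,[(38,0)]⟩,⟨3,[(1,1),(18,0),(12,1),(2,1),(4,0)]⟩⟩,.o
  ⟨false,1,⟨3,[(7,1),(12,0),(0,0),(11,0),(7,0)]⟩,⟨0,[(18,0),(5,0)]⟩⟩,.o ⟨false,1,⟨1,[(23,1),(9,0),
  (6,0)]⟩,⟨2,[(12,0),(9,2),(2,1),(2,0)]⟩⟩,.a ⟨true,0,⟨0,[(23,0)]⟩,⟨0,[(22,0)]⟩⟩ ⟨false,1,⟨0,[(10,0),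
  (7,0),(3,0),(1,0)]⟩,⟨0,[(1,0),(1,0),(13,0),(7,0)]⟩⟩ ⟨true,0,⟨0,[(22,0),(15,0)]⟩,⟨0,[(18,0),(4,0),
  (0,0)]⟩⟩]⟩) (.Q [0,-1,1,2,0,0,1,1,1,1,-1,-1] (.p false [0,0,1] [1,0,0,-1] (⟨0,[(32,0)]⟩,⟨0,[(31,
  0)]⟩) .k 2 (⟨0,[(22,0)]⟩,⟨0,[(23,0)]⟩) .k (.r 0 ⟨3,[(1,3),(1,1),(1,1),(13,0),(5,0),(2,0)]⟩ ⟨3,[(8,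
  1),(8,1),(2,1),(12,0),(7,0)]⟩)) (.R ⟨1,false,false,true,[1,0,0,-1],[0,1],[0,0,0,-1,0,0,0,0,-1],
  (⟨0,[(23,0)]⟩,⟨0,[(24,0)]⟩),(⟨0,[(36,0)]⟩,⟨0,[(35,0)]⟩),⟨0,[(1,0)]⟩,.k,.k,(.x (-1) ⟨3,[(21,0),(0,
  0),(11,1),(0,3)]⟩ ⟨0,[(36,0)]⟩),(.x (-1) ⟨3,[(21,0),(0,0),(11,1),(0,3)]⟩ ⟨0,[(36,0)]⟩),(.r (-1)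
  ⟨1,[(2,0),(6,0),(1,0),(4,0),(2,1),(1,0),(1,0),(1,1),(14,0)]⟩ ⟨1,[(0,1),(23,1),(0,1),(3,0),(0,
  0)]⟩),.k,⟨false,1,⟨1,[(1,1),(1,0),(5,1),(1,1),(1,0),(2,2),(2,0),(5,1),(11,2)]⟩,⟨2,[(0,1),(1,0),
  (21,1),(0,1),(3,0),(0,0),(8,2)]⟩⟩,⟨true,0,⟨0,[(23,0)]⟩,⟨2,[(13,0),(10,2),(1,1),(2,0)]⟩⟩,⟨true,0,
  ⟨0,[(40,0)]⟩,⟨0,[(39,0)]⟩⟩,⟨false,0,⟨2,[(0,1),(1,0),(20,0),(4,1),(0,0),(0,0)]⟩,⟨0,[(11,0),(7,0),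
  (5,0)]⟩⟩,⟨false,1,⟨3,[(21,0),(0,0),(19,1)]⟩,⟨0,[]⟩⟩,⟨false,0,⟨0,[(0,0),(27,0)]⟩,⟨0,[(11,0),(7,0),
  (5,0),(14,0)]⟩⟩,[.o ⟨false,0,⟨0,[(39,0)]⟩,⟨3,[(2,1),(18,0),(12,1),(2,1),(4,0)]⟩⟩,.o ⟨false,1,⟨3,
  [(8,1),(12,0),(0,0),(11,0),(7,0)]⟩,⟨0,[(19,0),(5,0)]⟩⟩,.o ⟨false,1,⟨1,[(24,1),(9,0),(6,0)]⟩,⟨2,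
  [(13,0),(9,2),(2,1),(2,0)]⟩⟩,.a ⟨true,0,⟨0,[(24,0)]⟩,⟨0,[(23,0)]⟩⟩ ⟨false,1,⟨0,[(11,0),(7,0),(3,
  0),(1,0)]⟩,⟨2,[(0,1),(1,0),(21,1),(0,1),(3,0),(0,0)]⟩⟩ ⟨true,0,⟨0,[(23,0),(15,0)]⟩,⟨0,[(19,0),(4,
  0),(0,0)]⟩⟩]⟩) (.K ⟨0,[0,0,0,1],0,0,(⟨0,[(24,0)]⟩,⟨0,[(23,0)]⟩),.k,(.x 0 ⟨0,[(26,0),(2,0),(5,0)]⟩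
  ⟨0,[(36,0),(4,0)]⟩),(.x 0 ⟨0,[(36,0)]⟩ ⟨3,[(21,0),(0,0),(11,1),(0,3)]⟩),.k,.k,[⟨0,[(24,0)]⟩,⟨0,
  [(23,0)]⟩,⟨0,[(0,0),(3,0)]⟩,⟨0,[(2,0),(20,0),(2,0),(2,0),(9,0)]⟩]⟩))))))) (.Q [0,-1,0,1,0,0,2,2,0,
  1,-2] (.p false [0,0,1] [1,0,-1] (⟨0,[(27,0)]⟩,⟨0,[(26,0)]⟩) .k 2 (⟨0,[(26,0)]⟩,⟨0,[(27,0)]⟩) .k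
  (.r 0 ⟨0,[(25,1)]⟩ ⟨1,[(3,1),(8,1),(15,0),(7,0)]⟩)) (.R ⟨1,true,false,false,[1,0,-1],[0,1,1],[1,0,
  0,0,0,0,0,-1],(⟨0,[(27,0)]⟩,⟨0,[(28,0)]⟩),(⟨0,[(28,0),(2,0)]⟩,⟨0,[(2,0)]⟩),⟨0,[(2,0)]⟩,.k,.k,.k,
  (.r (-1) ⟨3,[(4,5),(3,1),(11,1),(8,0),(2,1),(2,1),(1,2)]⟩ ⟨5,[(0,1),(2,1),(11,0),(5,4),(3,0),(0,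
  5)]⟩),(.r (-1) ⟨0,[(4,1),(9,1),(5,1),(16,0)]⟩ ⟨2,[(0,1),(2,1),(11,0),(5,4),(3,0)]⟩),.k,⟨false,1,
  ⟨0,[(4,1),(3,0),(2,0),(8,0),(11,0),(4,0)]⟩,⟨5,[(0,1),(2,1),(11,0),(5,4),(3,0),(0,5)]⟩⟩,⟨true,0,⟨0,
  [(1,0)]⟩,⟨0,[(21,0),(3,0)]⟩⟩,⟨true,0,⟨0,[]⟩,⟨0,[(39,0)]⟩⟩,⟨false,0,⟨0,[(0,0)]⟩,⟨0,[(20,0),(2,0),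
  (11,0),(1,0)]⟩⟩,⟨false,1,⟨3,[(3,1),(25,0),(7,2)]⟩,⟨0,[(35,0)]⟩⟩,⟨true,0,⟨4,[(0,2),(2,1),(3,2),(14,
  0)]⟩,⟨0,[(4,0),(6,0),(8,1),(11,1)]⟩⟩,[]⟩) (.Q [0,0,0,0,0,-2,0,0,0,1] (.pp false [-1,1]) (.R ⟨1,
  true,false,true,[1,-1],[0,1],[1,1,-1,-1],(⟨0,[(31,0)]⟩,⟨0,[(32,0)]⟩),(⟨0,[(32,0)]⟩,⟨0,[(31,0)]⟩),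
  ⟨0,[(0,0)]⟩,.k,.k,(.r 0 ⟨0,[(1,0),(0,0),(9,1),(20,0)]⟩ ⟨1,[(4,1),(20,1),(0,1),(3,0),(7,0)]⟩),(.r
  0 ⟨0,[(1,0),(0,0),(9,1),(20,0)]⟩ ⟨1,[(4,1),(20,1),(0,1),(3,0),(7,0)]⟩),(.r 0 ⟨1,[(1,2),(0,2),(9,
  5),(20,2)]⟩ ⟨3,[(4,5),(17,3),(2,5),(0,1),(3,0),(7,2)]⟩),.k,⟨true,0,⟨0,[(1,0),(0,0),(9,1),(20,0)]⟩,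
  ⟨0,[(4,0),(3,0),(5,0),(7,0),(10,0)]⟩⟩,⟨false,1,⟨1,[(5,1),(6,1),(24,0),(0,0)]⟩,⟨0,[(22,0),(2,0)]⟩⟩,
  ⟨false,0,⟨0,[]⟩,⟨3,[(17,0),(0,0),(19,1)]⟩⟩,⟨true,0,⟨0,[(4,0)]⟩,⟨15,[(1,12),(7,1),(2,0),(2,18),(6,
  0),(0,5)]⟩⟩,⟨true,0,⟨0,[(35,0)]⟩,⟨0,[(36,0)]⟩⟩,⟨false,1,⟨3,[(4,5),(25,0),(7,2)]⟩,⟨0,[(1,0),(13,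
  1)]⟩⟩,[]⟩) (.Q [0,1,-1,0,0,0,0,0,-1,0,0,1] (.p true [0,0,0,1] [] (⟨0,[(20,0)]⟩,⟨0,[(19,0)]⟩) .k 0
  (⟨0,[]⟩,⟨0,[]⟩) .k .k) (.Q [0,1,1,0,0,0,0,0,1,0,0,-1] (.p false [0,0,0,1] [] (⟨0,[(21,0)]⟩,⟨0,
  [(20,0)]⟩) .k 0 (⟨0,[]⟩,⟨0,[]⟩) .k .k) (.K ⟨0,[0,0,0,1],0,0,(⟨0,[(22,0)]⟩,⟨0,[(21,0)]⟩),.k,(.x 0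
  ⟨0,[(24,0),(2,0),(5,0)]⟩ ⟨0,[(34,0),(4,0)]⟩),(.x 0 ⟨0,[(34,0)]⟩ ⟨3,[(19,0),(0,0),(11,1),(0,3)]⟩),
  .k,.k,[⟨0,[(22,0)]⟩,⟨0,[(21,0)]⟩,⟨0,[(1,0)]⟩,⟨0,[(0,0)]⟩]⟩) (.Q [0,0,0,0,0,-1,0,0,0,1,0,-1] (.p
  false [0,0,0,1] [1] (⟨0,[(22,0)]⟩,⟨0,[(21,0)]⟩) .k 1 (⟨0,[]⟩,⟨0,[]⟩) .k .k) (.R ⟨1,false,false,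
  true,[1,0,0,-1],[0,1],[0,1,0,-1,0,0,0,0,-1],(⟨0,[(22,0)]⟩,⟨0,[(23,0)]⟩),(⟨0,[(35,0)]⟩,⟨0,[(34,
  0)]⟩),⟨0,[(0,0)]⟩,.k,.k,(.x (-1) ⟨3,[(20,0),(0,0),(11,1),(0,3)]⟩ ⟨0,[(35,0)]⟩),(.x (-1) ⟨3,[(20,
  0),(0,0),(11,1),(0,3)]⟩ ⟨0,[(35,0)]⟩),(.r 0 ⟨7,[(1,4),(0,2),(1,5),(7,1),(2,1),(2,9),(3,7),(14,
  5)]⟩ ⟨1,[(7,1),(13,0),(3,1),(2,1),(12,0)]⟩),.k,⟨false,0,⟨7,[(1,4),(0,2),(1,5),(7,1),(2,1),(2,9),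
  (3,7),(14,5)]⟩,⟨7,[(7,5),(3,3),(5,3),(3,3),(3,3),(7,0),(7,2)]⟩⟩,⟨true,0,⟨0,[(22,0)]⟩,⟨2,[(12,0),
  (10,2),(1,1),(2,0)]⟩⟩,⟨false,0,⟨0,[(39,0)]⟩,⟨3,[(7,1),(25,0),(7,2)]⟩⟩,⟨false,1,⟨3,[(7,1),(13,1),
  (0,3),(5,1),(0,1),(3,0),(7,0)]⟩,⟨9,[(1,8),(0,0),(1,3),(7,3),(2,1),(2,5),(6,1)]⟩⟩,⟨true,0,⟨0,[(43,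
  0)]⟩,⟨0,[]⟩⟩,⟨false,1,⟨7,[(7,5),(3,3),(5,3),(3,3),(0,7),(2,3),(7,0),(7,2)]⟩,⟨9,[(1,6),(0,2),(1,6),
  (7,1),(2,0),(2,12),(6,0)]⟩⟩,[.o ⟨false,0,⟨0,[(38,0)]⟩,⟨5,[(4,1),(13,3),(1,0),(0,0),(11,1),(7,
  1)]⟩⟩,.o ⟨false,1,⟨3,[(7,1),(12,0),(0,0),(11,0),(7,0)]⟩,⟨15,[(4,6),(7,5),(2,2),(2,8),(6,2),(0,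
  1)]⟩⟩,.o ⟨false,1,⟨1,[(23,1),(9,0),(6,0)]⟩,⟨2,[(12,0),(9,2),(2,1),(2,0)]⟩⟩,.a ⟨true,0,⟨0,[(23,
  0)]⟩,⟨0,[(22,0)]⟩⟩ ⟨false,0,⟨19,[(0,19),(0,6),(0,12),(0,9),(0,6),(7,1),(2,0),(2,12),(6,0)]⟩,⟨3,
  [(7,1),(1,1),(1,1),(5,1),(3,0),(3,1),(10,1),(4,0)]⟩⟩ ⟨true,0,⟨0,[(22,0),(15,0)]⟩,⟨15,[(4,6),(7,5),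
  (2,2),(2,8),(4,15),(1,2),(0,1)]⟩⟩]⟩) (.R ⟨0,false,false,true,[1,0,0,-1],[0,1],[0,1,0,0,0,0,0,0,
  -1],(⟨0,[(22,0)]⟩,⟨0,[(23,0)]⟩),(⟨0,[(35,0)]⟩,⟨0,[(34,0)]⟩),⟨0,[(0,0)]⟩,.k,.k,(.x (-1) ⟨3,[(20,0),
  (0,0),(11,1),(0,3)]⟩ ⟨0,[(35,0)]⟩),(.x (-1) ⟨3,[(20,0),(0,0),(11,1),(0,3)]⟩ ⟨0,[(35,0)]⟩),.k,.k,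
  ⟨false,0,⟨3,[(1,2),(0,0),(1,1),(7,1),(2,1),(2,1),(3,3),(14,1)]⟩,⟨3,[(7,1),(13,1),(6,1),(0,1),(3,
  0),(7,0)]⟩⟩,⟨true,0,⟨0,[(22,0)]⟩,⟨2,[(12,0),(10,2),(1,1),(2,0)]⟩⟩,⟨true,0,⟨0,[(43,0)]⟩,⟨0,[]⟩⟩,
  ⟨false,1,⟨3,[(7,1),(13,1),(0,3),(5,1),(0,1),(3,0),(7,0)]⟩,⟨9,[(1,8),(0,0),(1,3),(7,3),(2,1),(2,5),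
  (6,1)]⟩⟩,⟨false,0,⟨0,[]⟩,⟨0,[]⟩⟩,⟨false,0,⟨0,[]⟩,⟨0,[]⟩⟩,[.o ⟨false,0,⟨0,[(38,0)]⟩,⟨5,[(4,1),(13,
  3),(1,0),(0,0),(11,1),(7,1)]⟩⟩,.o ⟨false,1,⟨3,[(7,1),(12,0),(0,0),(11,0),(7,0)]⟩,⟨15,[(4,6),(7,5),
  (2,2),(2,8),(6,2),(0,1)]⟩⟩,.o ⟨false,1,⟨1,[(23,1),(9,0),(6,0)]⟩,⟨2,[(12,0),(9,2),(2,1),(2,0)]⟩⟩,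
  .a ⟨true,0,⟨0,[(23,0)]⟩,⟨0,[(22,0)]⟩⟩ ⟨false,0,⟨7,[(1,4),(0,2),(9,3),(2,1),(6,7),(1,1),(0,1)]⟩,⟨1,
  [(21,0),(6,0),(0,0),(11,0)]⟩⟩ ⟨true,0,⟨0,[(22,0),(15,0)]⟩,⟨15,[(4,6),(7,5),(2,2),(2,8),(4,15),(1,
  2),(0,1)]⟩⟩]⟩))) (.Q [0,0,0,0,0,1,0,0,0,-1,0,1] (.p true [0,0,0,1] [1] (⟨0,[(21,0)]⟩,⟨0,[(20,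
  0)]⟩) .k 1 (⟨0,[]⟩,⟨0,[]⟩) .k .k) (.R ⟨0,false,false,true,[1,0,0,-1],[0,1],[0,1,0,0,0,0,0,0,-1],
  (⟨0,[(21,0)]⟩,⟨0,[(22,0)]⟩),(⟨0,[(34,0)]⟩,⟨0,[(33,0)]⟩),⟨0,[(0,0)]⟩,.k,.k,(.x (-1) ⟨3,[(19,0),(0,
  0),(11,1),(0,3)]⟩ ⟨0,[(34,0)]⟩),(.x (-1) ⟨3,[(19,0),(0,0),(11,1),(0,3)]⟩ ⟨0,[(34,0)]⟩),.k,.k,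
  ⟨false,1,⟨15,[(3,7),(0,3),(2,1),(1,1),(4,9),(2,7),(1,6),(1,1),(17,6)]⟩,⟨0,[(1,0),(20,0),(14,0)]⟩⟩,
  ⟨true,0,⟨0,[(21,0)]⟩,⟨2,[(11,0),(10,2),(1,1),(2,0)]⟩⟩,⟨true,0,⟨0,[(42,0)]⟩,⟨0,[]⟩⟩,⟨false,0,⟨5,
  [(1,5),(4,2),(0,1),(10,0),(9,1),(13,0)]⟩,⟨11,[(3,4),(5,9),(1,3),(2,2),(2,6),(1,0),(2,1),(1,0),(7,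
  0)]⟩⟩,⟨false,0,⟨0,[]⟩,⟨0,[]⟩⟩,⟨false,0,⟨0,[]⟩,⟨0,[]⟩⟩,[.o ⟨false,0,⟨0,[(37,0)]⟩,⟨5,[(3,1),(13,3),
  (1,0),(0,0),(11,1),(7,1)]⟩⟩,.o ⟨false,1,⟨3,[(6,1),(12,0),(0,0),(11,0),(7,0)]⟩,⟨15,[(3,6),(7,5),(2,
  2),(2,8),(6,2),(0,1)]⟩⟩,.o ⟨false,1,⟨1,[(22,1),(9,0),(6,0)]⟩,⟨2,[(11,0),(9,2),(2,1),(2,0)]⟩⟩,.a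
  ⟨true,0,⟨0,[(22,0)]⟩,⟨0,[(21,0)]⟩⟩ ⟨false,1,⟨1,[(19,0),(19,0)]⟩,⟨0,[(1,0),(20,0)]⟩⟩ ⟨true,0,⟨0,
  [(21,0),(15,0)]⟩,⟨15,[(3,6),(7,5),(2,2),(2,8),(4,15),(1,2),(0,1)]⟩⟩]⟩) (.R ⟨1,false,false,true,[1,
  0,0,-1],[0,1],[1,1,0,0,0,0,0,0,-1],(⟨0,[(21,0)]⟩,⟨0,[(22,0)]⟩),(⟨0,[(34,0)]⟩,⟨0,[(33,0)]⟩),⟨0,[(0,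
  0)]⟩,.k,.k,(.x (-1) ⟨3,[(19,0),(0,0),(11,1),(0,3)]⟩ ⟨0,[(34,0)]⟩),(.x (-1) ⟨3,[(19,0),(0,0),(11,
  1),(0,3)]⟩ ⟨0,[(34,0)]⟩),(.r (-1) ⟨1,[(3,0),(3,0),(6,0),(2,1),(1,0),(18,0),(0,0)]⟩ ⟨2,[(1,2),(4,
  2),(4,0),(10,2),(1,1),(2,0)]⟩),.k,⟨false,1,⟨15,[(3,7),(0,3),(2,1),(1,1),(4,9),(2,7),(1,6),(1,1),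
  (17,6)]⟩,⟨0,[(1,0),(20,0),(14,0)]⟩⟩,⟨true,0,⟨0,[(21,0)]⟩,⟨2,[(11,0),(10,2),(1,1),(2,0)]⟩⟩,⟨false,
  0,⟨0,[]⟩,⟨3,[(19,0),(0,0),(19,1)]⟩⟩,⟨false,0,⟨5,[(1,5),(4,2),(0,1),(10,0),(9,1),(13,0)]⟩,⟨11,[(3,
  4),(5,9),(1,3),(2,2),(2,6),(1,0),(2,1),(1,0),(7,0)]⟩⟩,⟨true,0,⟨0,[(37,0)]⟩,⟨0,[(38,0)]⟩⟩,⟨false,0,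
  ⟨0,[(1,0),(4,0)]⟩,⟨19,[(3,15),(5,17),(1,1),(2,1),(2,23),(1,0),(2,1),(2,5),(6,0)]⟩⟩,[.o ⟨false,0,
  ⟨0,[(37,0)]⟩,⟨5,[(3,1),(13,3),(1,0),(0,0),(11,1),(7,1)]⟩⟩,.o ⟨false,1,⟨3,[(6,1),(12,0),(0,0),(11,
  0),(7,0)]⟩,⟨15,[(3,6),(7,5),(2,2),(2,8),(6,2),(0,1)]⟩⟩,.o ⟨false,1,⟨1,[(22,1),(9,0),(6,0)]⟩,⟨1,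
  [(0,1),(1,0),(21,0),(2,0)]⟩⟩,.a ⟨true,0,⟨0,[(22,0)]⟩,⟨0,[(21,0)]⟩⟩ ⟨false,1,⟨1,[(19,0),(19,0)]⟩,
  ⟨0,[(1,0),(20,0)]⟩⟩ ⟨true,0,⟨0,[(21,0),(15,0)]⟩,⟨15,[(3,6),(7,5),(2,2),(2,8),(4,15),(1,2),(0,
  1)]⟩⟩]⟩)))))))) (.I [1,0,-1,-1] (.R ⟨2,true,false,false,[0,1],[1,-1],[0,0,1],(⟨0,[]⟩,⟨0,[]⟩),(⟨0,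
  [(27,0)]⟩,⟨0,[(28,0)]⟩),⟨0,[]⟩,.k,.k,.k,(.x (-1) ⟨0,[(28,1),(4,0)]⟩ ⟨2,[(5,1),(12,3),(2,1),(5,
  5)]⟩),.k,.k,⟨true,0,⟨1,[(1,0),(5,0),(2,1),(11,0),(8,0)]⟩,⟨0,[(0,0)]⟩⟩,⟨false,0,⟨2,[(5,0),(12,1),
  (2,0)]⟩,⟨0,[(15,0),(0,0),(16,0)]⟩⟩,⟨true,0,⟨0,[(32,0)]⟩,⟨0,[(31,0)]⟩⟩,⟨false,0,⟨0,[(0,1),(0,0),(8,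
  0)]⟩,⟨0,[(7,0),(12,0),(10,0),(2,0)]⟩⟩,⟨false,1,⟨3,[(13,0),(0,0),(19,1)]⟩,⟨0,[]⟩⟩,⟨true,0,⟨0,[(11,
  0),(5,0)]⟩,⟨0,[(7,0),(12,0)]⟩⟩,[]⟩) (.Q [0,0,-2,0,1,0,0,0,-2,-1,0,2] (.p true [0,0,0,1] [1,0,0,
  -1] (⟨0,[(16,0)]⟩,⟨0,[(15,0)]⟩) .k 2 (⟨0,[(15,0)]⟩,⟨0,[(16,0)]⟩) .k (.x 0 ⟨0,[(21,0),(0,0)]⟩ ⟨0,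
  [(33,0)]⟩)) (.I [0,0,1,1,0,0,0,0,-1] (.Q [0,1,1,0,0,0,0,0,1,0,0,-1] (.p false [0,0,0,1] [] (⟨0,
  [(18,0)]⟩,⟨0,[(17,0)]⟩) .k 0 (⟨0,[]⟩,⟨0,[]⟩) .k .k) (.Q [0,0,-1,0,0,0,1,1,-1,0,-1,1] (.p false [0,
  0,1] [0,0,0,1] (⟨0,[(28,0)]⟩,⟨0,[(27,0)]⟩) .k 2 (⟨0,[(19,0)]⟩,⟨0,[(18,0)]⟩) .k (.r 0 ⟨0,[(1,0),(9,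
  0),(23,0)]⟩ ⟨1,[(13,1),(3,0),(18,0)]⟩)) (.K ⟨0,[0,0,0,1],0,0,(⟨0,[(20,0)]⟩,⟨0,[(19,0)]⟩),.k,(.r
  (-1) ⟨1,[(18,0),(17,1),(0,0)]⟩ ⟨0,[(2,0)]⟩),(.x 0 ⟨0,[(32,0)]⟩ ⟨3,[(17,0),(0,0),(11,1),(0,3)]⟩),
  .k,.k,[⟨0,[(20,0)]⟩,⟨0,[(19,0)]⟩,⟨0,[(0,0),(23,0)]⟩,⟨0,[(1,0)]⟩]⟩) (.Q [0,0,0,0,0,1,0,0,0,-1,0,1]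
  (.p true [0,0,0,1] [1] (⟨0,[(20,0)]⟩,⟨0,[(19,0)]⟩) .k 1 (⟨0,[]⟩,⟨0,[]⟩) .k .k) (.R ⟨0,false,false,
  false,[1,0,0,-1],[1,0,-1],[0,1],(⟨0,[(20,0)]⟩,⟨0,[(21,0)]⟩),(⟨0,[(29,0)]⟩,⟨0,[(30,0)]⟩),⟨0,[(0,
  0)]⟩,.k,.k,(.x (-1) ⟨3,[(18,0),(0,0),(11,1),(0,3)]⟩ ⟨0,[(33,0)]⟩),.k,.k,.k,⟨false,0,⟨0,[(13,0),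
  (27,0)]⟩,⟨1,[(15,1),(22,0),(0,0)]⟩⟩,⟨true,0,⟨0,[(20,0),(2,0)]⟩,⟨0,[(14,0),(6,0)]⟩⟩,⟨false,0,⟨0,
  [(1,0),(11,0),(0,0),(6,0)]⟩,⟨1,[(18,0),(20,0)]⟩⟩,⟨true,0,⟨0,[(1,0)]⟩,⟨0,[(3,0),(12,0),(4,0),(13,
  1)]⟩⟩,⟨false,0,⟨0,[]⟩,⟨0,[]⟩⟩,⟨false,0,⟨0,[]⟩,⟨0,[]⟩⟩,[.o ⟨false,1,⟨7,[(1,7),(2,3),(13,0),(0,0),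
  (11,1)]⟩,⟨8,[(6,0),(3,1),(2,0),(3,2),(6,0)]⟩⟩,.o ⟨false,1,⟨0,[(22,0),(16,0)]⟩,⟨0,[(24,0)]⟩⟩,.o
  ⟨false,1,⟨15,[(4,5),(2,1),(2,1),(2,1),(5,4),(1,3),(0,1),(8,2)]⟩,⟨3,[(2,0),(0,0),(2,0),(3,0),(9,2),
  (1,0),(11,0)]⟩⟩,.a ⟨true,0,⟨0,[(21,0)]⟩,⟨0,[(20,0)]⟩⟩ ⟨true,0,⟨0,[(35,0)]⟩,⟨1,[(26,0),(0,0)]⟩⟩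
  ⟨false,1,⟨0,[(20,0),(1,0),(16,0)]⟩,⟨8,[(6,0),(3,1),(2,0),(3,2),(3,8),(2,0)]⟩⟩]⟩) (.Q [0,1,-1,0,0,
  0,0,0,-1,0,0,1] (.p true [0,0,0,1] [] (⟨0,[(21,0)]⟩,⟨0,[(20,0)]⟩) .k 0 (⟨0,[]⟩,⟨0,[]⟩) .k .k) (.K
  ⟨0,[0,0,0,1],0,0,(⟨0,[(22,0)]⟩,⟨0,[(21,0)]⟩),.k,(.r (-1) ⟨1,[(20,0),(17,1),(0,0)]⟩ ⟨0,[(4,0)]⟩),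
  (.x 0 ⟨0,[(34,0)]⟩ ⟨3,[(19,0),(0,0),(11,1),(0,3)]⟩),.k,.k,[⟨0,[(22,0)]⟩,⟨0,[(21,0)]⟩,⟨0,[(0,0)]⟩,
  ⟨0,[(3,0)]⟩]⟩) (.R ⟨1,false,false,false,[1,0,0,-1],[1,-1],[1,0,0,0,0,0,0,0,-1],(⟨0,[(21,0)]⟩,⟨0,
  [(22,0)]⟩),(⟨0,[(33,0)]⟩,⟨0,[(34,0)]⟩),⟨0,[(1,0)]⟩,.k,.k,(.x (-1) ⟨3,[(19,0),(0,0),(11,1),(0,3)]⟩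
  ⟨0,[(34,0)]⟩),(.r 0 ⟨0,[(4,0)]⟩ ⟨1,[(20,0),(17,1),(0,0)]⟩),.k,.k,⟨true,0,⟨0,[(4,0)]⟩,⟨0,[(2,0),
  (14,0),(4,0),(13,0)]⟩⟩,⟨false,0,⟨3,[(3,0),(0,0),(2,0),(3,0),(9,2),(1,0),(11,0)]⟩,⟨0,[(22,0),(16,
  0)]⟩⟩,⟨true,0,⟨0,[]⟩,⟨0,[(42,0)]⟩⟩,⟨false,0,⟨0,[(2,0),(14,0)]⟩,⟨0,[(9,0),(27,0)]⟩⟩,⟨false,1,⟨0,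
  [(37,0),(2,0)]⟩,⟨0,[(38,0)]⟩⟩,⟨false,0,⟨0,[(0,0)]⟩,⟨7,[(5,1),(3,3),(8,1),(0,0),(0,0),(5,3)]⟩⟩,[.o
  ⟨false,0,⟨0,[(17,0),(5,0)]⟩,⟨3,[(19,0),(0,0),(16,3),(2,1)]⟩⟩,.o ⟨false,1,⟨1,[(32,0),(5,1),(1,0)]⟩,
  ⟨0,[(37,0)]⟩⟩,.o ⟨false,1,⟨15,[(5,5),(2,1),(2,1),(2,1),(5,4),(1,3),(0,1),(8,2)]⟩,⟨3,[(3,0),(0,0),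
  (2,0),(3,0),(9,2),(1,0),(11,0)]⟩⟩,.a ⟨true,0,⟨0,[(22,0)]⟩,⟨0,[(21,0)]⟩⟩ ⟨false,1,⟨0,[(0,0),(4,0),
  (15,0)]⟩,⟨1,[(0,0),(2,0),(18,1)]⟩⟩ ⟨true,0,⟨0,[(17,0),(3,0),(1,0)]⟩,⟨0,[(22,0),(14,0)]⟩⟩]⟩))))
  (.Q [0,0,0,0,0,1,0,0,0,-1,0,1] (.p true [0,0,0,1] [1] (⟨0,[(19,0)]⟩,⟨0,[(18,0)]⟩) .k 1 (⟨0,[]⟩,⟨0,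
  []⟩) .k .k) (.R ⟨0,false,false,true,[1,0,0,-1],[0,1],[0,1,0,0,0,0,0,0,-1],(⟨0,[(19,0)]⟩,⟨0,[(20,
  0)]⟩),(⟨0,[(32,0)]⟩,⟨0,[(31,0)]⟩),⟨0,[(0,0)]⟩,.k,.k,(.x (-1) ⟨3,[(17,0),(0,0),(11,1),(0,3)]⟩ ⟨0,
  [(32,0)]⟩),(.x (-1) ⟨3,[(17,0),(0,0),(11,1),(0,3)]⟩ ⟨0,[(32,0)]⟩),.k,.k,⟨false,0,⟨0,[(1,0),(13,0),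
  (3,0),(1,0),(12,0)]⟩,⟨3,[(4,3),(12,0),(0,2)]⟩⟩,⟨true,0,⟨0,[(19,0)]⟩,⟨2,[(9,0),(10,2),(1,1),(2,
  0)]⟩⟩,⟨true,0,⟨0,[(40,0)]⟩,⟨0,[]⟩⟩,⟨false,1,⟨3,[(4,3),(12,0),(0,2),(0,3)]⟩,⟨0,[(1,0),(13,0),(5,
  0)]⟩⟩,⟨false,0,⟨0,[]⟩,⟨0,[]⟩⟩,⟨false,0,⟨0,[]⟩,⟨0,[]⟩⟩,[.o ⟨false,0,⟨0,[(35,0)]⟩,⟨1,[(30,0),(5,1),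
  (1,0)]⟩⟩,.o ⟨false,1,⟨3,[(17,0),(0,0),(16,3),(2,1)]⟩,⟨0,[(15,0),(5,0)]⟩⟩,.o ⟨false,1,⟨15,[(3,5),
  (2,1),(2,1),(2,1),(5,4),(1,3),(0,1),(8,2)]⟩,⟨2,[(9,0),(9,2),(2,1),(2,0)]⟩⟩,.a ⟨true,0,⟨0,[(20,
  0)]⟩,⟨0,[(19,0)]⟩⟩ ⟨false,0,⟨5,[(1,3),(0,1),(6,0),(2,0),(2,1),(3,3),(1,2),(12,2)]⟩,⟨1,[(18,0),(6,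
  0),(0,0),(11,0)]⟩⟩ ⟨true,0,⟨0,[(19,0),(15,0)]⟩,⟨0,[(15,0),(4,0),(0,0)]⟩⟩]⟩) (.R ⟨1,false,false,
  true,[1,0,0,-1],[0,1],[0,1,0,-1,0,0,0,0,-1],(⟨0,[(19,0)]⟩,⟨0,[(20,0)]⟩),(⟨0,[(32,0)]⟩,⟨0,[(31,
  0)]⟩),⟨0,[(0,0)]⟩,.k,.k,(.x (-1) ⟨3,[(17,0),(0,0),(11,1),(0,3)]⟩ ⟨0,[(32,0)]⟩),(.x (-1) ⟨3,[(17,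
  0),(0,0),(11,1),(0,3)]⟩ ⟨0,[(32,0)]⟩),(.r 0 ⟨0,[(1,0),(13,0),(3,0),(1,0),(12,0),(1,0)]⟩ ⟨3,[(4,7),
  (12,0),(0,2)]⟩),.k,⟨false,0,⟨0,[(1,0),(13,0),(3,0),(1,0),(12,0),(1,0)]⟩,⟨1,[(4,1),(13,0),(16,1),
  (2,0)]⟩⟩,⟨true,0,⟨0,[(19,0)]⟩,⟨2,[(9,0),(10,2),(1,1),(2,0)]⟩⟩,⟨false,0,⟨0,[(36,0)]⟩,⟨0,[(35,0),(2,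
  0)]⟩⟩,⟨false,1,⟨3,[(4,3),(12,0),(0,2),(0,3)]⟩,⟨0,[(1,0),(13,0),(5,0)]⟩⟩,⟨true,0,⟨0,[(40,0)]⟩,⟨0,
  []⟩⟩,⟨false,1,⟨1,[(4,1),(13,0),(0,1),(15,1),(2,0)]⟩,⟨0,[(1,0),(13,0),(5,0),(14,0)]⟩⟩,[.o ⟨false,0,
  ⟨0,[(35,0)]⟩,⟨1,[(30,0),(5,1),(1,0)]⟩⟩,.o ⟨false,1,⟨3,[(17,0),(0,0),(16,3),(2,1)]⟩,⟨0,[(15,0),(5,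
  0)]⟩⟩,.o ⟨false,1,⟨15,[(3,5),(2,1),(2,1),(2,1),(5,4),(1,3),(0,1),(8,2)]⟩,⟨2,[(9,0),(9,2),(2,1),(2,
  0)]⟩⟩,.a ⟨true,0,⟨0,[(20,0)]⟩,⟨0,[(19,0)]⟩⟩ ⟨false,0,⟨2,[(1,1),(0,0),(12,1),(3,1),(1,1),(12,1),(1,
  1)]⟩,⟨1,[(4,1),(13,0),(19,0)]⟩⟩ ⟨true,0,⟨0,[(19,0),(15,0)]⟩,⟨0,[(15,0),(4,0),(0,0)]⟩⟩]⟩))) (.Q [0,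
  0,0,0,0,1,0,0,0,-1,0,1] (.p true [0,0,0,1] [1] (⟨0,[(18,0)]⟩,⟨0,[(17,0)]⟩) .k 1 (⟨0,[]⟩,⟨0,[]⟩)
  .k .k) (.I [1,1,0,0,0,0,0,0,-1] (.R ⟨0,false,false,false,[1,0,0,-1],[1,-1],[],(⟨0,[(19,0)]⟩,⟨0,
  [(20,0)]⟩),(⟨0,[(31,0)]⟩,⟨0,[(32,0)]⟩),⟨0,[(1,0)]⟩,.k,.k,(.x (-1) ⟨3,[(17,0),(0,0),(11,1),(0,3)]⟩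
  ⟨0,[(32,0)]⟩),(.x (-1) ⟨0,[(32,0),(4,0)]⟩ ⟨0,[(22,0),(2,0),(5,0)]⟩),.k,.k,⟨true,0,⟨0,[(4,0)]⟩,⟨0,
  [(36,0)]⟩⟩,⟨false,0,⟨2,[(9,0),(9,2),(2,1),(2,0)]⟩,⟨0,[(20,0),(16,0)]⟩⟩,⟨true,0,⟨0,[(2,0),(1,0)]⟩,
  ⟨0,[(0,0)]⟩⟩,⟨false,0,⟨0,[(2,0),(2,0),(8,0),(4,0)]⟩,⟨0,[(7,0),(27,0)]⟩⟩,⟨false,0,⟨0,[]⟩,⟨0,[]⟩⟩,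
  ⟨false,0,⟨0,[]⟩,⟨0,[]⟩⟩,[.o ⟨false,0,⟨0,[(15,0),(5,0)]⟩,⟨3,[(17,0),(0,0),(16,3),(2,1)]⟩⟩,.o
  ⟨false,1,⟨1,[(30,0),(5,1),(1,0)]⟩,⟨0,[(35,0)]⟩⟩,.o ⟨false,1,⟨7,[(2,0),(0,2),(2,0),(1,0),(9,1),(1,
  1),(0,0),(8,1)]⟩,⟨2,[(9,0),(9,2),(2,1),(2,0)]⟩⟩,.a ⟨true,0,⟨0,[(20,0)]⟩,⟨0,[(19,0)]⟩⟩ ⟨false,1,⟨1,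
  [(37,0),(0,0)]⟩,⟨1,[(25,0),(0,0)]⟩⟩ ⟨true,0,⟨0,[(15,0),(3,0),(1,0)]⟩,⟨0,[(20,0),(14,0)]⟩⟩]⟩) (.R
  ⟨0,false,false,true,[1,0,0,-1],[0,1],[1,0,0,0,0,0,0,0,-1],(⟨0,[(19,0)]⟩,⟨0,[(20,0)]⟩),(⟨0,[(32,
  0)]⟩,⟨0,[(31,0)]⟩),⟨0,[(1,0)]⟩,.k,.k,(.x (-1) ⟨3,[(17,0),(0,0),(11,1),(0,3)]⟩ ⟨0,[(32,0)]⟩),(.x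
  (-1) ⟨3,[(17,0),(0,0),(11,1),(0,3)]⟩ ⟨0,[(32,0)]⟩),.k,.k,⟨false,1,⟨0,[(0,0),(2,0),(11,0),(3,1),(1,
  0)]⟩,⟨1,[(0,1),(24,0),(0,0),(8,1),(4,1)]⟩⟩,⟨true,0,⟨0,[(19,0)]⟩,⟨2,[(9,0),(10,2),(1,1),(2,0)]⟩⟩,
  ⟨true,0,⟨0,[]⟩,⟨0,[(40,0)]⟩⟩,⟨false,0,⟨1,[(0,1),(18,1),(5,0),(0,0),(8,1)]⟩,⟨1,[(3,0),(11,0),(5,0),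
  (14,0),(1,0)]⟩⟩,⟨false,0,⟨0,[]⟩,⟨0,[]⟩⟩,⟨false,0,⟨0,[]⟩,⟨0,[]⟩⟩,[.o ⟨false,0,⟨0,[(35,0)]⟩,⟨1,[(30,
  0),(5,1),(1,0)]⟩⟩,.o ⟨false,1,⟨3,[(17,0),(0,0),(16,3),(2,1)]⟩,⟨0,[(15,0),(5,0)]⟩⟩,.o ⟨false,1,⟨8,
  [(0,0),(1,0),(0,3),(4,0),(9,2),(1,0),(0,0),(8,1)]⟩,⟨2,[(9,0),(9,2),(2,1),(2,0)]⟩⟩,.a ⟨true,0,⟨0,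
  [(20,0)]⟩,⟨0,[(19,0)]⟩⟩ ⟨false,1,⟨4,[(0,0),(2,2),(1,0),(3,0),(9,5),(1,0),(16,1)]⟩,⟨1,[(0,1),(24,
  0),(0,0),(13,1)]⟩⟩ ⟨true,0,⟨0,[(19,0),(15,0)]⟩,⟨0,[(15,0),(4,0),(0,0)]⟩⟩]⟩)) (.Q [0,0,-1,-2,0,0,0,
  0,-1,-1,0,1] (.p true [0,0,0,1] [1] (⟨0,[(19,0)]⟩,⟨0,[(18,0)]⟩) .k 1 (⟨0,[]⟩,⟨0,[]⟩) .k .k) (.R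
  ⟨1,true,false,false,[1,0,0,-1],[0,1],[0,1,0,-1,0,0,0,0,-1],(⟨0,[(19,0)]⟩,⟨0,[(20,0)]⟩),(⟨0,[(32,
  0)]⟩,⟨0,[(31,0)]⟩),⟨0,[(1,0)]⟩,.k,.k,(.x (-1) ⟨3,[(17,0),(0,0),(11,1),(0,3)]⟩ ⟨0,[(32,0)]⟩),(.x
  (-1) ⟨3,[(17,0),(0,0),(11,1),(0,3)]⟩ ⟨0,[(32,0)]⟩),(.r (-1) ⟨3,[(0,3),(16,0),(0,0),(0,3),(17,1)]⟩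
  ⟨0,[(2,0),(1,2)]⟩),.k,⟨false,0,⟨0,[(0,0),(18,0),(14,0)]⟩,⟨0,[(4,1),(1,0)]⟩⟩,⟨true,0,⟨0,[(19,0)]⟩,
  ⟨2,[(9,0),(10,2),(1,1),(2,0)]⟩⟩,⟨false,0,⟨0,[(36,0)]⟩,⟨0,[(35,0),(2,0)]⟩⟩,⟨true,0,⟨0,[(2,0),(1,1),
  (14,0)]⟩,⟨0,[(0,0),(34,0)]⟩⟩,⟨true,0,⟨0,[(40,0)]⟩,⟨0,[]⟩⟩,⟨false,1,⟨0,[(4,1),(1,0),(12,0)]⟩,⟨0,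
  [(0,0)]⟩⟩,[]⟩) (.I [0,-1,-2,-2,1,0,0,0,-1] (.R ⟨1,false,false,true,[1,0,0,-1],[0,1],[0,0,0,-1,0,0,
  0,0,-1],(⟨0,[(20,0)]⟩,⟨0,[(21,0)]⟩),(⟨0,[(33,0)]⟩,⟨0,[(32,0)]⟩),⟨0,[(2,0)]⟩,.k,.k,(.x (-1) ⟨3,
  [(18,0),(0,0),(11,1),(0,3)]⟩ ⟨0,[(33,0)]⟩),(.x (-1) ⟨3,[(18,0),(0,0),(11,1),(0,3)]⟩ ⟨0,[(33,0)]⟩),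
  (.r (-1) ⟨0,[(0,0),(40,0)]⟩ ⟨2,[(1,2),(8,0),(10,2),(1,1),(2,0)]⟩),.k,⟨false,1,⟨0,[(0,0)]⟩,⟨10,[(1,
  9),(1,0),(2,1),(3,1),(10,9),(0,5),(1,3),(11,2)]⟩⟩,⟨true,0,⟨0,[(20,0)]⟩,⟨2,[(10,0),(10,2),(1,1),(2,
  0)]⟩⟩,⟨true,0,⟨0,[(37,0)]⟩,⟨0,[(36,0)]⟩⟩,⟨false,0,⟨4,[(1,3),(1,0),(16,0),(13,1),(6,1)]⟩,⟨27,[(0,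
  4),(2,4),(0,13),(1,1),(3,1),(11,1),(8,3),(2,12),(4,4)]⟩⟩,⟨false,1,⟨3,[(18,0),(0,0),(19,1)]⟩,⟨0,
  []⟩⟩,⟨false,0,⟨0,[(1,0)]⟩,⟨3,[(0,0),(2,0),(0,1),(26,0),(2,2),(2,1)]⟩⟩,[.o ⟨false,0,⟨0,[(36,0)]⟩,
  ⟨7,[(0,1),(18,0),(11,3),(2,3),(4,0)]⟩⟩,.o ⟨false,1,⟨15,[(1,7),(2,3),(13,4),(0,4),(11,1)]⟩,⟨0,[(16,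
  0),(5,0)]⟩⟩,.o ⟨false,1,⟨7,[(3,0),(0,2),(2,0),(1,0),(9,1),(1,1),(0,0),(8,1)]⟩,⟨2,[(10,0),(9,2),(2,
  1),(2,0)]⟩⟩,.a ⟨true,0,⟨0,[(21,0)]⟩,⟨0,[(20,0)]⟩⟩ ⟨false,1,⟨3,[(0,1),(17,0),(20,0)]⟩,⟨8,[(1,5),(1,
  2),(6,1),(10,5),(1,3),(2,1)]⟩⟩ ⟨true,0,⟨0,[(20,0),(15,0)]⟩,⟨0,[(16,0),(4,0),(0,0)]⟩⟩]⟩) (.R ⟨1,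
  false,false,true,[1,0,0,-1],[0,1],[1,1,0,0,0,0,0,0,-1],(⟨0,[(20,0)]⟩,⟨0,[(21,0)]⟩),(⟨0,[(33,0)]⟩,
  ⟨0,[(32,0)]⟩),⟨0,[(2,0)]⟩,.k,.k,(.x (-1) ⟨3,[(18,0),(0,0),(11,1),(0,3)]⟩ ⟨0,[(33,0)]⟩),(.x (-1)
  ⟨3,[(18,0),(0,0),(11,1),(0,3)]⟩ ⟨0,[(33,0)]⟩),(.r (-1) ⟨1,[(4,0),(11,0),(3,1),(1,0),(14,2),(0,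
  0)]⟩ ⟨3,[(0,3),(17,0),(0,0),(19,1)]⟩),.k,⟨false,1,⟨1,[(4,0),(11,0),(3,1),(1,0),(14,0),(0,0)]⟩,⟨3,
  [(0,1),(18,0),(19,0)]⟩⟩,⟨true,0,⟨0,[(20,0)]⟩,⟨2,[(10,0),(10,2),(1,1),(2,0)]⟩⟩,⟨false,0,⟨0,[]⟩,⟨3,
  [(18,0),(0,0),(19,1)]⟩⟩,⟨false,0,⟨4,[(0,0),(0,1),(17,0),(0,2),(13,0)]⟩,⟨1,[(4,0),(11,0),(5,0),(14,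
  0),(1,0)]⟩⟩,⟨true,0,⟨0,[(36,0)]⟩,⟨0,[(37,0)]⟩⟩,⟨false,0,⟨0,[(1,0)]⟩,⟨1,[(4,0),(11,0),(5,0),(14,2),
  (1,0)]⟩⟩,[.o ⟨false,0,⟨0,[(36,0)]⟩,⟨1,[(31,0),(5,1),(1,0)]⟩⟩,.o ⟨false,1,⟨15,[(1,7),(2,3),(13,4),
  (0,4),(11,1)]⟩,⟨0,[(16,0),(5,0)]⟩⟩,.o ⟨false,1,⟨10,[(0,0),(2,1),(0,4),(2,0),(11,2),(1,0),(9,2)]⟩,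
  ⟨2,[(10,0),(9,2),(2,1),(2,0)]⟩⟩,.a ⟨true,0,⟨0,[(21,0)]⟩,⟨0,[(20,0)]⟩⟩ ⟨false,1,⟨1,[(18,0),(19,
  0)]⟩,⟨1,[(0,0),(2,0),(30,0),(4,0)]⟩⟩ ⟨true,0,⟨0,[(20,0),(15,0)]⟩,⟨0,[(16,0),(4,0),(0,0)]⟩⟩]⟩)))))
  (.Q [0,-1,0,-2,0,0,0,0,0,-1] (.pp true [-1,1]) (.R ⟨2,true,false,false,[0,1],[1,-1],[1,0,1,1],(⟨0,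
  []⟩,⟨0,[]⟩),(⟨0,[(29,0)]⟩,⟨0,[(30,0)]⟩),⟨0,[]⟩,.k,.k,.k,(.r 0 ⟨0,[(2,1)]⟩ ⟨0,[(34,1),(0,0)]⟩),.k,
  .k,⟨true,0,⟨0,[(2,1)]⟩,⟨0,[(0,0),(16,0),(0,0),(13,0)]⟩⟩,⟨false,0,⟨2,[(7,0),(12,1),(2,0)]⟩,⟨0,[(17,
  0),(0,0),(16,0)]⟩⟩,⟨true,0,⟨0,[]⟩,⟨0,[(38,0)]⟩⟩,⟨false,0,⟨0,[(0,0)]⟩,⟨0,[(9,0),(12,0),(10,0),(2,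
  0)]⟩⟩,⟨false,1,⟨0,[(33,0),(2,0)]⟩,⟨0,[(34,0)]⟩⟩,⟨true,0,⟨17,[(0,8),(2,0),(3,1),(2,0),(8,5),(1,
  3)]⟩,⟨0,[(9,0),(12,0)]⟩⟩,[]⟩) (.Q [0,0,0,0,0,1,0,0,0,-1,0,1] (.p true [0,0,0,1] [1] (⟨0,[(18,0)]⟩,
  ⟨0,[(17,0)]⟩) .k 1 (⟨0,[]⟩,⟨0,[]⟩) .k .k) (.I [1,-1,-1,0,1,0,0,0,-1] (.R ⟨0,false,false,true,[1,0,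
  0,-1],[1,0,-1],[1,0,0,0,0,0,0,0,-1],(⟨0,[(19,0)]⟩,⟨0,[(20,0)]⟩),(⟨0,[(28,0)]⟩,⟨0,[(29,0)]⟩),⟨0,
  [(1,0)]⟩,.k,.k,(.x (-1) ⟨3,[(17,0),(0,0),(11,1),(0,3)]⟩ ⟨0,[(32,0)]⟩),.k,.k,.k,⟨false,1,⟨0,[(0,0),
  (26,0)]⟩,⟨2,[(3,0),(2,0),(6,2),(6,1),(0,0),(2,1),(9,0)]⟩⟩,⟨true,0,⟨0,[(19,0),(2,0)]⟩,⟨0,[(13,0),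
  (6,0)]⟩⟩,⟨true,0,⟨0,[]⟩,⟨0,[(40,0)]⟩⟩,⟨false,0,⟨1,[(3,0),(17,0),(2,0),(13,0)]⟩,⟨8,[(5,0),(1,8),(1,
  1),(2,0),(3,2),(6,0)]⟩⟩,⟨false,0,⟨0,[]⟩,⟨0,[]⟩⟩,⟨false,0,⟨0,[]⟩,⟨0,[]⟩⟩,[.o ⟨false,0,⟨0,[(21,0)]⟩,
  ⟨7,[(16,3),(0,0),(0,0),(11,1),(7,3)]⟩⟩,.o ⟨false,1,⟨1,[(24,1),(5,0),(7,0)]⟩,⟨8,[(5,0),(3,1),(2,0),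
  (3,2),(6,0)]⟩⟩,.o ⟨false,1,⟨1,[(20,1),(9,0),(6,0)]⟩,⟨4,[(3,1),(1,0),(3,0),(7,1),(1,0),(1,0)]⟩⟩,.a
  ⟨true,0,⟨0,[(20,0)]⟩,⟨0,[(19,0)]⟩⟩ ⟨false,1,⟨0,[(0,0)]⟩,⟨3,[(3,0),(14,0),(1,1),(1,0),(2,0)]⟩⟩
  ⟨true,0,⟨0,[(19,0),(1,0)]⟩,⟨8,[(5,0),(3,1),(2,0),(3,2),(3,8),(2,0)]⟩⟩]⟩) (.R ⟨0,false,false,true,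
  [1,0,0,-1],[0,1],[1,1,2,1],(⟨0,[(19,0)]⟩,⟨0,[(20,0)]⟩),(⟨0,[(32,0)]⟩,⟨0,[(31,0)]⟩),⟨0,[(1,0)]⟩,.k,
  .k,(.x (-1) ⟨3,[(17,0),(0,0),(11,1),(0,3)]⟩ ⟨0,[(32,0)]⟩),(.x (-1) ⟨3,[(17,0),(0,0),(11,1),(0,
  3)]⟩ ⟨0,[(32,0)]⟩),.k,.k,⟨false,0,⟨0,[]⟩,⟨3,[(17,0),(0,0),(18,1)]⟩⟩,⟨true,0,⟨0,[(19,0)]⟩,⟨2,[(9,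
  0),(10,2),(1,1),(2,0)]⟩⟩,⟨true,(-1),⟨0,[(0,0),(3,0)]⟩,⟨0,[(7,0),(7,0),(3,0),(1,0),(12,0)]⟩⟩,
  ⟨false,0,⟨7,[(2,3),(0,3),(13,0),(0,0),(19,1)]⟩,⟨0,[(7,0),(7,0),(5,0)]⟩⟩,⟨false,0,⟨0,[]⟩,⟨0,[]⟩⟩,
  ⟨false,0,⟨0,[]⟩,⟨0,[]⟩⟩,[.o ⟨false,0,⟨0,[(35,0)]⟩,⟨1,[(30,0),(5,1),(1,0)]⟩⟩,.o ⟨false,1,⟨3,[(2,1),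
  (14,0),(0,0),(11,0),(7,0)]⟩,⟨0,[(15,0),(5,0)]⟩⟩,.o ⟨false,1,⟨1,[(20,1),(9,0),(6,0)]⟩,⟨4,[(3,1),(1,
  0),(3,0),(7,1),(1,0),(1,0)]⟩⟩,.a ⟨true,0,⟨0,[(20,0)]⟩,⟨0,[(19,0)]⟩⟩ ⟨false,0,⟨0,[(4,0)]⟩,⟨1,[(36,
  1),(0,0),(0,0)]⟩⟩ ⟨true,0,⟨0,[(19,0),(15,0)]⟩,⟨0,[(15,0),(4,0),(0,0)]⟩⟩]⟩)) (.Q [0,0,-1,-1,0,0,1,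
  1,-1,-1,-1,1] (.p false [1,-1,1] [0,0,0,1] (⟨0,[(28,0),(1,0)]⟩,⟨0,[(9,0)]⟩) .k 2 (⟨0,[(19,0)]⟩,⟨0,
  [(18,0)]⟩) .k (.x (-1) ⟨0,[(24,0),(3,0),(7,0)]⟩ ⟨0,[(21,0),(5,0)]⟩)) (.R ⟨1,true,false,false,[1,0,
  0,-1],[1,0,-1],[1,1,0,0,0,0,0,0,-1],(⟨0,[(19,0)]⟩,⟨0,[(20,0)]⟩),(⟨0,[(28,0)]⟩,⟨0,[(29,0)]⟩),⟨0,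
  [(1,0)]⟩,.k,.k,(.x (-1) ⟨3,[(17,0),(0,0),(11,1),(0,3)]⟩ ⟨0,[(32,0)]⟩),.k,(.x 0 ⟨0,[(9,0),(19,0),
  (1,0)]⟩ ⟨3,[(10,3),(6,0),(0,0),(7,3),(10,1)]⟩),.k,⟨false,0,⟨1,[(0,1),(1,0),(9,0),(6,1),(1,0),(4,
  0)]⟩,⟨1,[(1,6),(1,0),(5,3),(2,1),(7,8),(0,3),(10,6),(5,2)]⟩⟩,⟨true,0,⟨0,[(19,0),(2,0)]⟩,⟨0,[(13,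
  0),(6,0)]⟩⟩,⟨false,0,⟨0,[]⟩,⟨3,[(17,0),(0,0),(19,1)]⟩⟩,⟨true,0,⟨1,[(3,0),(17,0),(2,0),(13,0)]⟩,⟨3,
  [(0,3),(1,1),(13,0),(2,0),(0,0),(3,1)]⟩⟩,⟨true,0,⟨0,[(35,0)]⟩,⟨0,[(36,0)]⟩⟩,⟨false,1,⟨3,[(2,1),(0,
  1),(17,1),(2,1),(5,0),(7,4)]⟩,⟨0,[(0,0),(18,0),(0,0)]⟩⟩,[]⟩) (.R ⟨1,false,false,true,[1,0,0,-1],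
  [0,1],[1,1,0,0,0,0,0,0,-1],(⟨0,[(19,0)]⟩,⟨0,[(20,0)]⟩),(⟨0,[(32,0)]⟩,⟨0,[(31,0)]⟩),⟨0,[(1,0)]⟩,.k,
  .k,(.x (-1) ⟨3,[(17,0),(0,0),(11,1),(0,3)]⟩ ⟨0,[(32,0)]⟩),(.x (-1) ⟨3,[(17,0),(0,0),(11,1),(0,
  3)]⟩ ⟨0,[(32,0)]⟩),(.r (-1) ⟨0,[(7,0),(7,0),(3,0),(1,0),(12,0),(1,0)]⟩ ⟨18,[(0,6),(1,6),(0,2),(0,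
  16),(0,7),(3,7),(8,2),(1,12),(0,0)]⟩),.k,⟨false,1,⟨0,[(7,0),(7,0),(3,0),(1,0),(12,0)]⟩,⟨6,[(0,2),
  (1,0),(0,0),(1,1),(2,1),(0,1),(8,0),(1,4),(0,0)]⟩⟩,⟨true,0,⟨0,[(19,0)]⟩,⟨2,[(9,0),(10,2),(1,1),(2,
  0)]⟩⟩,⟨false,0,⟨0,[]⟩,⟨3,[(17,0),(0,0),(19,1)]⟩⟩,⟨false,0,⟨9,[(0,7),(2,0),(4,1),(7,2),(13,0)]⟩,⟨0,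
  [(7,0),(7,0),(5,0)]⟩⟩,⟨true,0,⟨0,[(35,0)]⟩,⟨0,[(36,0)]⟩⟩,⟨false,0,⟨0,[(0,0),(7,0)]⟩,⟨0,[(7,0),(7,
  0),(5,0),(14,0)]⟩⟩,[.o ⟨false,0,⟨0,[(35,0)]⟩,⟨1,[(30,0),(5,1),(1,0)]⟩⟩,.o ⟨false,1,⟨3,[(2,1),(14,
  0),(0,0),(11,0),(7,0)]⟩,⟨0,[(15,0),(5,0)]⟩⟩,.o ⟨false,1,⟨1,[(20,1),(9,0),(6,0)]⟩,⟨4,[(3,1),(1,0),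
  (3,0),(7,1),(1,0),(1,0)]⟩⟩,.a ⟨true,0,⟨0,[(20,0)]⟩,⟨0,[(19,0)]⟩⟩ ⟨false,1,⟨1,[(17,0),(19,0)]⟩,⟨0,
  [(0,0),(8,0),(2,0),(7,0),(12,0)]⟩⟩ ⟨true,0,⟨0,[(19,0),(15,0)]⟩,⟨0,[(15,0),(4,0),(0,
  0)]⟩⟩]⟩)))))))))))

theorem ok50 : chk (cU (-1) true 3) t50 l28 = true := by decide +kernel

noncomputable def t53 : Tre :=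
  (.R ⟨2,true,false,true,[0,1],[1,0,-1],[1,0,1,1],(⟨0,[]⟩,⟨0,[]⟩),(⟨0,[(17,0)]⟩,⟨0,[(18,0)]⟩),⟨0,
  []⟩,.k,.k,.k,.k,.k,.k,⟨false,1,⟨0,[(16,0),(7,0),(2,0)]⟩,⟨0,[(0,0),(1,0),(5,0),(0,0),(13,0)]⟩⟩,
  ⟨true,0,⟨0,[(11,0)]⟩,⟨0,[(2,0),(5,0),(0,0)]⟩⟩,⟨true,0,⟨0,[]⟩,⟨0,[(29,0)]⟩⟩,⟨false,0,⟨0,[(0,0)]⟩,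
  ⟨1,[(5,0),(2,0),(0,0),(14,1),(2,1)]⟩⟩,⟨false,1,⟨0,[(24,0),(2,0)]⟩,⟨0,[(25,0)]⟩⟩,⟨true,0,⟨0,[(10,
  0)]⟩,⟨1,[(5,0),(2,0),(0,0)]⟩⟩,[]⟩)

theorem ok53 : chk (cU (-1) true 3) t53 r27 = true := by decide +kernel

end Helper11.CT.Tm1_2_m1_1_u
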