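import Pool.Agent.Helper11.CT.T.Tm1_2_m1_1_v_q

set_option autoImplicit false
set_option linter.all false

namespace Helper11.CT.Tm1_2_m1_1_v

open Helper11.CT

noncomputable def t0 : Tre :=
  (.Q [0,0,0,0,0,0,-1,-1,0,0,1] (.p true [0,0,1] [] (⟨0,[(15,0)]⟩,⟨0,[(14,0)]⟩) .k 0 (⟨0,[]⟩,⟨0,
  []⟩) .k .k) (.R ⟨2,true,false,false,[0,1],[0,0,1],[0,1,1],(⟨0,[]⟩,⟨0,[]⟩),(⟨0,[(16,0)]⟩,⟨0,[(15,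
  0)]⟩),⟨0,[]⟩,.k,.k,.k,.k,.k,.k,⟨false,0,⟨0,[(0,0),(11,0),(8,0)]⟩,⟨1,[(14,1),(9,0),(0,0)]⟩⟩,⟨true,
  0,⟨0,[(12,0)]⟩,⟨0,[(0,0),(13,0)]⟩⟩,⟨false,0,⟨0,[(23,0)]⟩,⟨0,[(22,0),(2,0)]⟩⟩,⟨true,0,⟨0,[(1,0),(1,
  0)]⟩,⟨0,[(2,0)]⟩⟩,⟨true,0,⟨0,[(27,0)]⟩,⟨0,[]⟩⟩,⟨false,1,⟨7,[(3,3),(0,0),(0,0),(11,1),(7,3)]⟩,⟨0,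
  [(0,0)]⟩⟩,[]⟩) (.Q [0,0,0,0,0,0,1,0,0,1,-1] (.p false [0,0,1] [1] (⟨0,[(16,0)]⟩,⟨0,[(15,0)]⟩) .k
  1 (⟨0,[]⟩,⟨0,[]⟩) .k .k) (.R ⟨2,true,false,true,[0,1],[1,0,-1],[1,0,1,1],(⟨0,[]⟩,⟨0,[]⟩),(⟨0,[(16,
  0)]⟩,⟨0,[(17,0)]⟩),⟨0,[]⟩,.k,.k,.k,.k,.k,.k,⟨false,1,⟨0,[(15,0),(7,0),(2,0)]⟩,⟨0,[(0,0),(1,0),(19,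
  0)]⟩⟩,⟨true,0,⟨0,[(10,0)]⟩,⟨0,[(0,0)]⟩⟩,⟨true,0,⟨0,[]⟩,⟨0,[(28,0)]⟩⟩,⟨false,0,⟨0,[(2,0)]⟩,⟨0,[(3,
  0),(0,0),(21,0)]⟩⟩,⟨false,1,⟨0,[(23,0),(2,0)]⟩,⟨0,[(24,0)]⟩⟩,⟨true,0,⟨0,[(9,0)]⟩,⟨1,[(4,0),(11,0),
  (0,0)]⟩⟩,[]⟩) (.I [1,-1,1,1,0,0,0,1] (.R ⟨2,true,false,true,[0,1],[1,0,-1],[1,0,1,1],(⟨0,[]⟩,⟨0,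
  []⟩),(⟨0,[(17,0)]⟩,⟨0,[(18,0)]⟩),⟨0,[]⟩,.k,.k,.k,.k,.k,.k,⟨true,0,⟨0,[(0,0)]⟩,⟨0,[(3,0),(10,0),(2,
  0),(0,0),(4,0)]⟩⟩,⟨false,0,⟨0,[(1,0)]⟩,⟨0,[(14,0),(2,0),(0,0),(7,0)]⟩⟩,⟨true,0,⟨0,[]⟩,⟨0,[(29,
  0)]⟩⟩,⟨false,0,⟨0,[(3,0)]⟩,⟨0,[(4,0),(0,0),(21,0)]⟩⟩,⟨false,1,⟨0,[(24,0),(2,0)]⟩,⟨0,[(25,0)]⟩⟩,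
  ⟨true,0,⟨0,[(10,0)]⟩,⟨1,[(5,0),(11,0),(0,0)]⟩⟩,[]⟩) (.I [0,-1,1,0,0,0,0,1] (.R ⟨2,true,false,true,
  [0,1],[1,0,-1],[0,0,1],(⟨0,[]⟩,⟨0,[]⟩),(⟨0,[(18,0)]⟩,⟨0,[(19,0)]⟩),⟨0,[]⟩,.k,.k,.k,.k,.k,.k,⟨true,
  0,⟨0,[(0,0)]⟩,⟨1,[(1,0),(3,0),(9,0)]⟩⟩,⟨false,0,⟨0,[(2,0)]⟩,⟨0,[(1,0),(3,0),(0,0),(21,0)]⟩⟩,⟨true,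
  0,⟨0,[(26,0)]⟩,⟨0,[(25,0)]⟩⟩,⟨false,0,⟨0,[(4,0)]⟩,⟨0,[(5,0),(0,0),(21,0)]⟩⟩,⟨false,1,⟨3,[(7,0),(0,
  0),(19,1)]⟩,⟨0,[]⟩⟩,⟨true,0,⟨0,[(11,0)]⟩,⟨1,[(6,0),(11,0),(0,0)]⟩⟩,[]⟩) (.Q [0,1,0,-1,-1,0,0,0,-1,
  -1,0,1] (.p true [0,0,0,1] [1] (⟨0,[(10,0)]⟩,⟨1,[(9,0),(8,0),(0,0)]⟩) .k 1 (⟨0,[]⟩,⟨0,[]⟩) .k .k)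
  (.R ⟨2,true,false,true,[0,1],[1,0,0,-1],[1,1,1,1],(⟨0,[]⟩,⟨0,[]⟩),(⟨1,[(10,0),(8,0),(0,0)]⟩,⟨0,
  [(11,0)]⟩),⟨0,[]⟩,.k,.k,.k,(.r (-1) ⟨1,[(9,0),(6,0),(0,0),(8,1),(2,0)]⟩ ⟨1,[(0,1),(9,0),(8,0),(0,
  0),(7,0),(0,0)]⟩),.k,.k,⟨false,1,⟨1,[(9,0),(16,1),(2,0)]⟩,⟨1,[(0,1),(9,0),(8,0),(0,0),(7,0),(0,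
  0)]⟩⟩,⟨true,0,⟨0,[(3,0),(7,0),(4,0)]⟩,⟨1,[(10,0),(8,0),(0,0)]⟩⟩,⟨false,0,⟨0,[]⟩,⟨3,[(8,0),(0,0),
  (19,1)]⟩⟩,⟨true,(-1),⟨0,[(0,0)]⟩,⟨1,[(6,1),(0,0),(1,0),(0,0),(18,0)]⟩⟩,⟨true,0,⟨0,[(26,0)]⟩,⟨0,
  [(27,0)]⟩⟩,⟨false,0,⟨0,[(0,0),(25,0),(2,0)]⟩,⟨1,[(9,0),(0,0),(8,0),(0,0),(8,0)]⟩⟩,[]⟩) (.Q [0,0,0,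
  0,0,1,0,0,0,-1,1] (.ed false [0,1,1] .k) (.Q [0,0,0,0,0,0,1,0,0,2,-1] (.p false [-1,1,1] [1] (⟨0,
  [(0,0)]⟩,⟨0,[(20,0),(2,0)]⟩) .k 1 (⟨0,[]⟩,⟨0,[]⟩) .k .k) (.K ⟨0,[2,-1,-1],0,0,(⟨0,[(21,0),(2,0)]⟩,
  ⟨0,[(1,0)]⟩),.k,(.x 0 ⟨0,[(5,2),(12,1),(2,0),(2,1)]⟩ ⟨2,[(0,0),(0,2),(1,1),(5,0),(15,2),(4,1),(0,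
  0)]⟩),.k,.k,.k,[⟨0,[(0,0)]⟩,⟨0,[(5,0)]⟩,⟨2,[(0,1),(7,2),(0,1),(10,1)]⟩,⟨0,[(6,0),(0,0),(6,0)]⟩]⟩)
  (.I [0,0,-1,-1,0,0,0,2] (.Q [0,1,0,-1,-1,0,0,0,1,0,0,-1] (.p false [0,0,0,1] [] (⟨0,[(14,0)]⟩,⟨1,
  [(13,0),(8,0),(0,0)]⟩) .k 0 (⟨0,[]⟩,⟨0,[]⟩) .k .k) (.R ⟨2,true,false,true,[0,1],[0,0,0,1],[1,1,1,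
  1],(⟨0,[]⟩,⟨0,[]⟩),(⟨0,[(15,0)]⟩,⟨1,[(14,0),(8,0),(0,0)]⟩),⟨0,[]⟩,.k,.k,.k,(.r (-1) ⟨1,[(12,0),(7,
  0),(0,0),(8,1),(2,0)]⟩ ⟨1,[(0,1),(14,1),(16,0),(0,0)]⟩),.k,.k,⟨false,1,⟨1,[(12,0),(17,1),(2,0)]⟩,
  ⟨1,[(0,1),(14,1),(16,0),(0,0)]⟩⟩,⟨true,0,⟨1,[(14,0),(2,0),(2,0)]⟩,⟨0,[(15,0)]⟩⟩,⟨false,0,⟨0,[]⟩,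
  ⟨3,[(12,0),(0,0),(19,1)]⟩⟩,⟨true,(-1),⟨0,[(0,0)]⟩,⟨1,[(12,0),(2,1),(14,1),(2,0)]⟩⟩,⟨true,0,⟨0,
  [(30,0)]⟩,⟨0,[(31,0)]⟩⟩,⟨false,0,⟨0,[(0,0),(29,0),(2,0)]⟩,⟨1,[(12,0),(2,1),(17,0)]⟩⟩,[]⟩) (.Q [0,
  0,0,0,0,1,0,0,0,0,-1] (.ed true [1,-1,1] .k) (.I [0,0,-2,-2,0,0,0,1] (.K ⟨2,[1,-1,1],0,0,(⟨0,[(26,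
  0),(1,0)]⟩,⟨0,[(1,0)]⟩),.k,(.r 0 ⟨0,[(0,0)]⟩ ⟨1,[(2,0),(3,0),(5,1),(6,0),(2,2)]⟩),.k,.k,.k,[⟨2,
  [(0,0),(3,0),(6,0),(10,1)]⟩,⟨0,[(12,0),(12,0),(0,0)]⟩,⟨0,[(9,0),(15,1),(0,1)]⟩,⟨2,[(4,0),(14,0),
  (2,4)]⟩]⟩) (.K ⟨2,[1,-1,1],0,0,(⟨0,[(26,0),(1,0)]⟩,⟨0,[(1,0)]⟩),.k,(.x 0 ⟨0,[(4,0),(17,1),(3,0),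
  (1,1)]⟩ ⟨0,[(9,0),(15,0),(3,1),(4,0)]⟩),.k,.k,.k,[⟨0,[(10,0),(0,0)]⟩,⟨0,[(12,0),(12,0),(0,0)]⟩,⟨0,
  [(9,0),(15,1),(0,1)]⟩,⟨2,[(4,0),(14,0),(2,4)]⟩]⟩)) (.I [0,0,-2,-2,0,0,0,1] (.K ⟨2,[0,-1,1],0,0,
  (⟨0,[(1,0)]⟩,⟨0,[(25,0),(3,0)]⟩),.k,(.r 0 ⟨0,[(0,0)]⟩ ⟨1,[(2,0),(3,0),(5,1),(6,0),(2,2)]⟩),.k,.k,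
  .k,[⟨0,[(33,0)]⟩,⟨0,[(12,0)]⟩,⟨0,[(9,0),(15,0),(0,0)]⟩,⟨1,[(22,2),(0,0)]⟩]⟩) (.K ⟨2,[0,-1,1],0,0,
  (⟨0,[(1,0)]⟩,⟨0,[(25,0),(3,0)]⟩),.k,(.x 0 ⟨2,[(1,2),(2,0),(14,0),(2,4),(5,2)]⟩ ⟨0,[(9,0),(15,0),
  (3,1),(4,0)]⟩),.k,.k,.k,[⟨0,[(33,0)]⟩,⟨0,[(12,0)]⟩,⟨0,[(9,0),(15,0),(0,0)]⟩,⟨1,[(22,2),(0,
  0)]⟩]⟩)))) (.Q [0,0,0,0,0,1,0,0,0,0,-1] (.ed true [1,-1,1] .k) (.K ⟨2,[1,-1,1],0,0,(⟨0,[(24,0),(1,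
  0)]⟩,⟨0,[(0,0)]⟩),.k,(.r (-1) ⟨0,[(22,0),(8,1),(0,0)]⟩ ⟨0,[(1,1),(20,2)]⟩),.k,.k,.k,[⟨0,[(8,0),(0,
  0)]⟩,⟨0,[(10,0),(12,0),(0,0)]⟩,⟨0,[(7,0),(15,1),(0,1)]⟩,⟨2,[(2,0),(14,0),(2,4)]⟩]⟩) (.K ⟨2,[0,-1,
  1],0,0,(⟨0,[(0,0)]⟩,⟨0,[(23,0),(3,0)]⟩),.k,(.r (-1) ⟨0,[(22,0),(8,1),(0,0)]⟩ ⟨0,[(1,1),(20,2)]⟩),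
  .k,.k,.k,[⟨0,[(31,0)]⟩,⟨0,[(10,0)]⟩,⟨0,[(7,0),(15,0),(0,0)]⟩,⟨1,[(20,2),(0,0)]⟩]⟩)))) (.Q [0,0,0,
  0,0,1,0,0,0,0,-1] (.ed true [1,-1,1] .k) (.Q [0,0,-1,0,0,0,-1,0,0,1,1] (.p true [1,-1,1] [] (⟨0,
  [(22,0),(1,0)]⟩,⟨0,[(0,0)]⟩) .k 0 (⟨0,[]⟩,⟨0,[]⟩) .k .k) (.R ⟨0,false,false,false,[0,1,-1],[1,0,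
  -1],[0,1],(⟨0,[(1,0)]⟩,⟨0,[(23,0),(1,0)]⟩),(⟨0,[(22,0)]⟩,⟨0,[(23,0)]⟩),⟨0,[(23,0)]⟩,.k,.k,.k,.k,
  .k,.k,⟨false,0,⟨0,[(21,0),(6,0)]⟩,⟨1,[(5,0),(3,0),(9,0),(12,1)]⟩⟩,⟨true,0,⟨0,[(6,0),(12,0)]⟩,⟨0,
  [(0,0),(18,0)]⟩⟩,⟨false,0,⟨0,[(0,0),(6,1),(0,0)]⟩,⟨0,[(9,0),(9,0),(12,0)]⟩⟩,⟨true,0,⟨0,[(7,0),(0,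
  0)]⟩,⟨1,[(0,0),(8,1),(0,0),(8,0)]⟩⟩,⟨false,0,⟨0,[]⟩,⟨0,[]⟩⟩,⟨false,0,⟨0,[]⟩,⟨0,[]⟩⟩,[.o ⟨false,1,
  ⟨3,[(8,1),(0,1),(1,0),(0,0),(11,0),(7,0)]⟩,⟨0,[(7,0)]⟩⟩,.o ⟨false,1,⟨3,[(8,1),(0,1),(14,0),(7,
  2)]⟩,⟨0,[(17,0)]⟩⟩,.a ⟨true,0,⟨0,[(0,0)]⟩,⟨0,[(19,0)]⟩⟩ ⟨true,0,⟨0,[(34,0)]⟩,⟨0,[]⟩⟩ ⟨false,1,⟨3,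
  [(8,1),(0,1),(9,3),(4,0),(7,2)]⟩,⟨0,[(0,0),(6,0)]⟩⟩,.o ⟨false,0,⟨2,[(0,0),(5,0),(13,0)]⟩,⟨1,[(19,
  1),(4,0),(6,0)]⟩⟩]⟩) (.K ⟨2,[1,-1,1],0,0,(⟨0,[(23,0),(1,0)]⟩,⟨0,[(1,0)]⟩),.k,(.x 0 ⟨1,[(0,2),(15,
  0),(6,1),(1,3)]⟩ ⟨0,[(6,0),(15,0),(3,1),(4,0)]⟩),.k,.k,.k,[⟨0,[(7,0),(0,0)]⟩,⟨0,[(9,0),(12,0),(0,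
  0)]⟩,⟨0,[(6,0),(15,1),(0,1)]⟩,⟨1,[(0,0),(15,0),(2,1)]⟩]⟩)) (.I [0,0,-2,-2,0,0,0,1] (.K ⟨2,[0,-1,
  1],0,0,(⟨0,[(1,0)]⟩,⟨0,[(22,0),(3,0)]⟩),.k,(.r 0 ⟨0,[(0,0)]⟩ ⟨1,[(9,1),(9,2),(0,0),(8,1),(2,1)]⟩),
  .k,.k,.k,[⟨0,[(30,0)]⟩,⟨0,[(9,0)]⟩,⟨0,[(6,0),(15,0),(0,0)]⟩,⟨1,[(19,2),(0,0)]⟩]⟩) (.K ⟨2,[0,-1,1],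
  0,0,(⟨0,[(1,0)]⟩,⟨0,[(22,0),(3,0)]⟩),.k,(.x 0 ⟨1,[(1,2),(0,0),(13,0),(2,2)]⟩ ⟨0,[(6,0),(15,0),(3,
  1),(4,0)]⟩),.k,.k,.k,[⟨0,[(30,0)]⟩,⟨0,[(9,0)]⟩,⟨0,[(6,0),(15,0),(0,0)]⟩,⟨1,[(19,2),(0,
  0)]⟩]⟩)))))))))

theorem ok0 : chk (cU (-1) false 3) t0 l1 = true := by decide +kernel

noncomputable def t1 : Tre :=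
  (.K ⟨0,[-1,1,1],0,0,(⟨0,[(3,0)]⟩,⟨0,[(18,0),(2,0)]⟩),.k,.k,(.r 0 ⟨0,[(2,0)]⟩ ⟨1,[(0,1),(10,1),(8,
  0),(5,3),(1,0)]⟩),.k,.k,[⟨1,[(12,1),(2,0),(0,0)]⟩,⟨0,[(0,0)]⟩,⟨0,[(11,0),(14,0)]⟩,⟨0,[(5,0),(0,
  0)]⟩]⟩)

theorem ok1 : chk (cU (-1) false 3) t1 l5 = true := by decide +kernel

noncomputable def t2 : Tre :=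
  (.Q [0,0,0,1,0,0,0,0,0,1] (.pp false [-1,1]) (.K ⟨2,[-1,1,1],0,0,(⟨0,[(5,0)]⟩,⟨0,[(20,0),(2,0)]⟩),
  .k,.k,(.r 0 ⟨0,[(4,0)]⟩ ⟨0,[(1,0)]⟩),.k,.k,[⟨0,[(0,0)]⟩,⟨0,[(13,0),(14,0)]⟩,⟨3,[(2,1),(14,0),(0,
  2)]⟩,⟨0,[(3,0)]⟩]⟩) (.Q [0,0,0,0,0,0,-1,0,0,0,1] (.p true [0,0,1] [] (⟨0,[(21,0)]⟩,⟨0,[(20,0)]⟩)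
  .k 0 (⟨0,[]⟩,⟨0,[]⟩) .k .k) (.R ⟨0,false,false,false,[1,0,-1],[1,-1],[1,1],(⟨0,[(21,0)]⟩,⟨0,[(22,
  0)]⟩),(⟨0,[(24,0)]⟩,⟨0,[(25,0)]⟩),⟨0,[(6,0)]⟩,.k,.k,.k,.k,.k,.k,⟨false,0,⟨0,[(28,0)]⟩,⟨1,[(2,0),
  (17,0),(10,0)]⟩⟩,⟨true,0,⟨0,[(18,0)]⟩,⟨0,[(0,0)]⟩⟩,⟨false,0,⟨0,[(20,0)]⟩,⟨0,[(4,0),(9,0),(16,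
  0)]⟩⟩,⟨true,0,⟨1,[(1,0),(7,0),(19,0)]⟩,⟨0,[(8,0)]⟩⟩,⟨false,0,⟨0,[]⟩,⟨0,[]⟩⟩,⟨false,0,⟨0,[]⟩,⟨0,
  []⟩⟩,[.o ⟨false,0,⟨0,[(1,0)]⟩,⟨3,[(10,0),(0,0),(16,3),(2,1)]⟩⟩,.o ⟨false,1,⟨3,[(2,0),(17,0),(2,1),
  (2,1),(4,0)]⟩,⟨0,[(28,0)]⟩⟩,.a ⟨true,0,⟨0,[(0,0)]⟩,⟨0,[(4,0)]⟩⟩ ⟨false,0,⟨0,[]⟩,⟨3,[(10,0),(0,0),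
  (19,1)]⟩⟩ ⟨true,0,⟨0,[(1,0),(2,0)]⟩,⟨0,[(8,0),(11,0)]⟩⟩,.o ⟨false,0,⟨0,[(15,0)]⟩,⟨1,[(4,1),(18,0),
  (6,0)]⟩⟩]⟩) (.Q [0,0,-1,0,0,0,1,0,0,2,-1] (.p false [-1,1,1] [1] (⟨0,[(6,0)]⟩,⟨0,[(21,0),(2,0)]⟩)
  .k 1 (⟨0,[]⟩,⟨0,[]⟩) .k .k) (.R ⟨0,false,false,true,[-1,1,1],[0,1],[1,1,1,1,0,0,0,1],(⟨0,[(7,0)]⟩,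
  ⟨0,[(22,0),(2,0)]⟩),(⟨0,[(26,0)]⟩,⟨0,[(25,0)]⟩),⟨0,[(22,0)]⟩,.k,.k,.k,.k,.k,.k,⟨true,0,⟨0,[(21,
  0)]⟩,⟨0,[(1,0),(7,0),(17,0)]⟩⟩,⟨false,1,⟨0,[(16,0),(14,0)]⟩,⟨0,[(5,0)]⟩⟩,⟨false,0,⟨0,[]⟩,⟨3,[(11,
  0),(0,0),(19,1)]⟩⟩,⟨true,0,⟨0,[(15,0)]⟩,⟨3,[(0,0),(9,1),(9,0)]⟩⟩,⟨false,0,⟨0,[]⟩,⟨0,[]⟩⟩,⟨false,0,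
  ⟨0,[]⟩,⟨0,[]⟩⟩,[.o ⟨false,0,⟨0,[(29,0)]⟩,⟨3,[(3,0),(17,0),(2,1),(2,1),(4,0)]⟩⟩,.o ⟨false,1,⟨3,
  [(11,0),(0,0),(16,3),(2,1)]⟩,⟨0,[(2,0)]⟩⟩,.a ⟨true,0,⟨0,[(0,0)]⟩,⟨0,[(16,0)]⟩⟩ ⟨false,0,⟨1,[(6,0),
  (14,0)]⟩,⟨0,[(0,0),(1,0),(12,0),(16,0)]⟩⟩ ⟨true,0,⟨1,[(4,0),(4,0),(11,0),(7,0)]⟩,⟨0,[(0,0),(1,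
  0)]⟩⟩,.o ⟨false,0,⟨0,[(5,0)]⟩,⟨0,[(4,0),(26,0)]⟩⟩]⟩) (.Q [0,0,0,0,0,1,0,0,0,0,-1] (.ed true [1,-1,
  1] .k) (.Q [0,0,0,0,0,0,-1,0,0,1,1] (.p true [1,-1,1] [] (⟨0,[(24,0),(1,0)]⟩,⟨0,[(0,0)]⟩) .k 0
  (⟨0,[]⟩,⟨0,[]⟩) .k .k) (.R ⟨0,false,false,false,[0,1,-1],[0,1],[0,1,1],(⟨0,[(1,0)]⟩,⟨0,[(25,0),(1,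
  0)]⟩),(⟨0,[(28,0)]⟩,⟨0,[(27,0)]⟩),⟨0,[(25,0)]⟩,.k,.k,.k,.k,.k,.k,⟨false,0,⟨0,[(30,0),(1,0)]⟩,⟨0,
  [(31,0),(2,0)]⟩⟩,⟨true,0,⟨0,[(3,0)]⟩,⟨0,[(22,0)]⟩⟩,⟨false,0,⟨0,[(23,0),(8,0)]⟩,⟨0,[(3,0),(7,0),
  (22,0)]⟩⟩,⟨true,0,⟨0,[(4,0),(5,0)]⟩,⟨0,[(20,0)]⟩⟩,⟨false,0,⟨0,[]⟩,⟨0,[]⟩⟩,⟨false,0,⟨0,[]⟩,⟨0,[]⟩⟩,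
  [.o ⟨false,1,⟨3,[(13,0),(0,0),(16,3),(2,1)]⟩,⟨0,[(4,0)]⟩⟩,.o ⟨false,1,⟨0,[(31,0),(2,0)]⟩,⟨0,[(4,
  0),(31,0)]⟩⟩,.o ⟨false,1,⟨1,[(0,1),(25,0),(6,0)]⟩,⟨1,[(2,0),(0,1),(17,0)]⟩⟩,.a ⟨true,0,⟨0,[(0,
  0)]⟩,⟨0,[(3,0)]⟩⟩ ⟨true,0,⟨0,[(36,0)]⟩,⟨0,[]⟩⟩ ⟨false,1,⟨0,[(3,0),(27,0),(2,0)]⟩,⟨0,[(0,0),(3,
  0)]⟩⟩]⟩) (.Q [0,-1,0,-1,0,0,0,0,-1,-1,0,1] (.p true [0,0,0,1] [1] (⟨0,[(16,0)]⟩,⟨1,[(15,0),(8,0),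
  (0,0)]⟩) .k 1 (⟨0,[]⟩,⟨0,[]⟩) .k .k) (.R ⟨0,false,false,false,[0,0,0,1],[1,-1],[1,0,0,0,0,0,0,0,
  1],(⟨0,[(17,0)]⟩,⟨1,[(16,0),(8,0),(0,0)]⟩),(⟨0,[(28,0)]⟩,⟨0,[(29,0)]⟩),⟨1,[(2,0),(7,0),(5,0)]⟩,.k,
  .k,(.r (-1) ⟨1,[(6,0),(8,0),(8,0)]⟩ ⟨1,[(0,1),(7,0),(0,0),(2,0),(3,0),(15,0)]⟩),(.r (-1) ⟨5,[(9,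
  1),(2,1),(1,0),(0,3),(6,1),(12,0)]⟩ ⟨1,[(0,1),(15,0),(8,0),(0,0),(4,1)]⟩),.k,.k,⟨false,1,⟨1,[(15,
  0),(16,1),(2,0)]⟩,⟨1,[(0,1),(15,0),(8,0),(0,0),(4,1)]⟩⟩,⟨true,0,⟨4,[(1,0),(5,1),(9,4),(4,0)]⟩,⟨1,
  [(16,0),(8,0),(0,0)]⟩⟩,⟨true,0,⟨0,[]⟩,⟨0,[(37,0)]⟩⟩,⟨false,0,⟨0,[(0,0)]⟩,⟨7,[(11,3),(0,3),(1,0),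
  (0,4),(0,3),(18,1)]⟩⟩,⟨false,0,⟨0,[]⟩,⟨0,[]⟩⟩,⟨false,0,⟨0,[]⟩,⟨0,[]⟩⟩,[.o ⟨false,0,⟨0,[(5,0)]⟩,⟨3,
  [(14,0),(0,0),(16,3),(2,1)]⟩⟩,.o ⟨false,1,⟨3,[(6,0),(17,0),(2,1),(2,1),(4,0)]⟩,⟨0,[(32,0)]⟩⟩,.a
  ⟨true,0,⟨1,[(16,0),(8,0),(0,0)]⟩,⟨0,[(17,0)]⟩⟩ ⟨false,1,⟨1,[(15,0),(19,0)]⟩,⟨1,[(0,1),(11,1),(0,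
  0),(2,0)]⟩⟩ ⟨true,0,⟨0,[(5,0),(11,0)]⟩,⟨1,[(12,1),(0,0),(2,0)]⟩⟩,.o ⟨false,0,⟨7,[(7,1),(8,3),(5,
  2),(0,0)]⟩,⟨1,[(17,1),(9,0),(6,0)]⟩⟩]⟩) (.Q [0,0,0,-1,0,0,0,0,1,0,0,-1] (.p false [0,0,0,1] []
  (⟨0,[(17,0)]⟩,⟨1,[(16,0),(8,0),(0,0)]⟩) .k 0 (⟨0,[]⟩,⟨0,[]⟩) .k .k) (.Q [0,-1,0,-1,0,0,0,0,1,0,0,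
  -1] (.p false [0,0,0,1] [] (⟨0,[(18,0)]⟩,⟨1,[(17,0),(8,0),(0,0)]⟩) .k 0 (⟨0,[]⟩,⟨0,[]⟩) .k .k)
  (.R ⟨0,false,false,false,[0,0,0,1],[1,-1],[0,0,0,-1,0,0,0,0,1],(⟨0,[(19,0)]⟩,⟨1,[(18,0),(8,0),(0,
  0)]⟩),(⟨0,[(30,0)]⟩,⟨0,[(31,0)]⟩),⟨1,[(4,0),(7,0),(5,0)]⟩,.k,.k,(.r 0 ⟨0,[(0,0),(18,0),(13,0)]⟩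
  ⟨5,[(11,1),(2,1),(1,3),(0,0),(6,1),(12,0)]⟩),(.r 0 ⟨7,[(0,5),(1,1),(0,2),(6,0),(0,3),(2,3),(4,
  7)]⟩ ⟨1,[(8,0),(7,0),(9,0)]⟩),.k,.k,⟨false,0,⟨5,[(0,3),(1,1),(0,0),(1,0),(7,0),(0,0),(4,5),(13,
  0)]⟩,⟨1,[(16,0),(19,0)]⟩⟩,⟨true,0,⟨4,[(3,0),(5,1),(9,4),(4,0)]⟩,⟨1,[(18,0),(8,0),(0,0)]⟩⟩,⟨true,0,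
  ⟨0,[(35,0)]⟩,⟨0,[(34,0)]⟩⟩,⟨false,1,⟨1,[(7,1),(8,0),(2,1),(17,0)]⟩,⟨0,[(0,0),(12,0),(0,0)]⟩⟩,
  ⟨false,0,⟨0,[]⟩,⟨0,[]⟩⟩,⟨false,0,⟨0,[]⟩,⟨0,[]⟩⟩,[.o ⟨false,0,⟨0,[(7,0)]⟩,⟨3,[(16,0),(0,0),(16,3),
  (2,1)]⟩⟩,.o ⟨false,1,⟨3,[(8,0),(17,0),(2,1),(2,1),(4,0)]⟩,⟨0,[(34,0)]⟩⟩,.a ⟨true,0,⟨1,[(18,0),(8,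
  0),(0,0)]⟩,⟨0,[(19,0)]⟩⟩ ⟨false,0,⟨0,[(0,0),(18,0)]⟩,⟨1,[(16,0),(17,1),(2,0)]⟩⟩ ⟨true,0,⟨0,[(7,0),
  (11,0)]⟩,⟨1,[(14,1),(0,0),(2,0)]⟩⟩,.o ⟨false,0,⟨7,[(9,1),(8,3),(5,2),(0,0)]⟩,⟨1,[(19,1),(9,0),(6,
  0)]⟩⟩]⟩) (.I [0,0,1,1,0,0,0,0,-1] (.I [1,0,0,0,0,0,0,0,-1] (.R ⟨2,true,false,false,[0,1],[0,0,0,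
  1],[1,1,1,1],(⟨0,[]⟩,⟨0,[]⟩),(⟨0,[(21,0)]⟩,⟨1,[(20,0),(8,0),(0,0)]⟩),⟨0,[]⟩,.k,.k,.k,(.r 0 ⟨0,[(1,
  0)]⟩ ⟨1,[(10,0),(8,0),(8,0)]⟩),.k,.k,⟨false,0,⟨0,[(0,0),(35,0)]⟩,⟨1,[(3,1),(17,1),(16,0),(0,0)]⟩⟩,
  ⟨true,0,⟨7,[(11,1),(8,3),(5,2),(0,0)]⟩,⟨0,[(21,0)]⟩⟩,⟨false,0,⟨0,[]⟩,⟨3,[(18,0),(0,0),(19,1)]⟩⟩,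
  ⟨true,0,⟨0,[(3,0)]⟩,⟨0,[(2,0)]⟩⟩,⟨true,0,⟨0,[(36,0)]⟩,⟨0,[(37,0)]⟩⟩,⟨false,1,⟨3,[(3,1),(0,1),(26,
  0),(7,2)]⟩,⟨0,[(0,0),(20,0)]⟩⟩,[]⟩) (.R ⟨0,false,false,true,[0,0,0,1],[0,1],[0,1,1],(⟨0,[(21,0)]⟩,
  ⟨1,[(20,0),(8,0),(0,0)]⟩),(⟨0,[(33,0)]⟩,⟨0,[(32,0)]⟩),⟨1,[(6,0),(7,0),(5,0)]⟩,.k,.k,(.r (-1) ⟨1,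
  [(10,0),(8,0),(8,0)]⟩ ⟨0,[(1,0)]⟩),(.r (-1) ⟨1,[(10,0),(8,0),(8,0)]⟩ ⟨0,[(1,0)]⟩),.k,.k,⟨true,0,
  ⟨0,[(37,0)]⟩,⟨0,[(0,0),(0,0)]⟩⟩,⟨false,1,⟨0,[(21,0),(16,0)]⟩,⟨7,[(11,1),(8,3),(5,2),(0,0)]⟩⟩,
  ⟨false,0,⟨0,[(1,0),(35,0)]⟩,⟨1,[(0,1),(37,0),(0,0)]⟩⟩,⟨true,0,⟨0,[(2,0)]⟩,⟨0,[(3,0)]⟩⟩,⟨false,0,
  ⟨0,[]⟩,⟨0,[]⟩⟩,⟨false,0,⟨0,[]⟩,⟨0,[]⟩⟩,[.o ⟨false,0,⟨0,[(36,0)]⟩,⟨3,[(10,0),(17,0),(2,1),(2,1),(4,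
  0)]⟩⟩,.o ⟨false,1,⟨3,[(18,0),(0,0),(16,3),(2,1)]⟩,⟨0,[(9,0)]⟩⟩,.a ⟨true,0,⟨1,[(20,0),(8,0),(0,
  0)]⟩,⟨0,[(21,0)]⟩⟩ ⟨false,0,⟨1,[(26,0),(0,0)]⟩,⟨1,[(38,0),(0,0)]⟩⟩ ⟨true,0,⟨0,[(21,0),(14,0)]⟩,⟨1,
  [(9,0),(10,0),(16,0)]⟩⟩,.o ⟨false,0,⟨7,[(11,1),(8,3),(5,2),(0,0)]⟩,⟨1,[(21,1),(9,0),(6,0)]⟩⟩]⟩))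
  (.I [1,-1,2,1] (.R ⟨0,false,false,true,[0,0,0,1],[0,1],[1,1,0,0,0,0,0,0,1],(⟨0,[(21,0)]⟩,⟨1,[(20,
  0),(8,0),(0,0)]⟩),(⟨0,[(33,0)]⟩,⟨0,[(32,0)]⟩),⟨1,[(6,0),(7,0),(5,0)]⟩,.k,.k,(.x 0 ⟨4,[(5,0),(5,1),
  (14,0),(5,4)]⟩ ⟨3,[(18,0),(0,0),(13,3),(4,1)]⟩),(.x 0 ⟨4,[(5,0),(5,1),(14,0),(5,4)]⟩ ⟨3,[(18,0),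
  (0,0),(13,3),(4,1)]⟩),.k,.k,⟨true,0,⟨0,[(1,0)]⟩,⟨9,[(0,4),(1,9),(2,0),(5,1),(8,4),(5,0),(7,4)]⟩⟩,
  ⟨false,1,⟨0,[(21,0),(16,0)]⟩,⟨7,[(11,1),(8,3),(5,2),(0,0)]⟩⟩,⟨false,0,⟨0,[]⟩,⟨3,[(18,0),(0,0),(19,
  1)]⟩⟩,⟨true,0,⟨0,[(2,0)]⟩,⟨0,[(3,0)]⟩⟩,⟨false,0,⟨0,[]⟩,⟨0,[]⟩⟩,⟨false,0,⟨0,[]⟩,⟨0,[]⟩⟩,[.o ⟨false,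
  0,⟨0,[(36,0)]⟩,⟨3,[(10,0),(17,0),(2,1),(2,1),(4,0)]⟩⟩,.o ⟨false,1,⟨3,[(18,0),(0,0),(16,3),(2,1)]⟩,
  ⟨0,[(9,0)]⟩⟩,.a ⟨true,0,⟨1,[(20,0),(8,0),(0,0)]⟩,⟨0,[(21,0)]⟩⟩ ⟨false,0,⟨6,[(0,1),(0,5),(2,0),(0,
  0),(7,0),(2,0),(4,0)]⟩,⟨1,[(18,0),(20,0)]⟩⟩ ⟨true,0,⟨0,[(21,0),(14,0)]⟩,⟨1,[(9,0),(10,0),(16,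
  0)]⟩⟩,.o ⟨false,0,⟨7,[(11,1),(8,3),(5,2),(0,0)]⟩,⟨1,[(21,1),(9,0),(6,0)]⟩⟩]⟩) (.Q [0,0,0,-1,0,0,0,
  0,-1,-1,0,1] (.p true [0,0,0,1] [1] (⟨0,[(21,0)]⟩,⟨1,[(20,0),(8,0),(0,0)]⟩) .k 1 (⟨0,[]⟩,⟨0,[]⟩)
  .k .k) (.I [0,0,2,1,0,0,0,0,-1] (.R ⟨0,false,false,true,[0,0,0,1],[0,1],[0,1,2,1],(⟨0,[(23,0)]⟩,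
  ⟨1,[(22,0),(8,0),(0,0)]⟩),(⟨0,[(35,0)]⟩,⟨0,[(34,0)]⟩),⟨1,[(8,0),(7,0),(5,0)]⟩,.k,.k,(.x 0 ⟨4,[(7,
  0),(5,1),(14,0),(5,4)]⟩ ⟨3,[(20,0),(0,0),(13,3),(4,1)]⟩),(.x 0 ⟨4,[(7,0),(5,1),(14,0),(5,4)]⟩ ⟨3,
  [(20,0),(0,0),(13,3),(4,1)]⟩),.k,.k,⟨true,0,⟨1,[(28,0),(0,0)]⟩,⟨0,[]⟩⟩,⟨false,1,⟨0,[(23,0),(16,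
  0)]⟩,⟨7,[(13,1),(8,3),(5,2),(0,0)]⟩⟩,⟨false,0,⟨0,[(0,0)]⟩,⟨1,[(3,1),(36,0),(0,0)]⟩⟩,⟨true,0,⟨0,
  [(4,0)]⟩,⟨0,[(5,0)]⟩⟩,⟨false,0,⟨0,[]⟩,⟨0,[]⟩⟩,⟨false,0,⟨0,[]⟩,⟨0,[]⟩⟩,[.o ⟨false,0,⟨0,[(38,0)]⟩,
  ⟨3,[(12,0),(17,0),(2,1),(2,1),(4,0)]⟩⟩,.o ⟨false,1,⟨3,[(20,0),(0,0),(16,3),(2,1)]⟩,⟨0,[(11,0)]⟩⟩,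
  .a ⟨true,0,⟨1,[(22,0),(8,0),(0,0)]⟩,⟨0,[(23,0)]⟩⟩ ⟨false,0,⟨1,[(15,0),(2,0),(9,0),(7,0)]⟩,⟨0,[(2,
  0),(38,0)]⟩⟩ ⟨true,0,⟨0,[(23,0),(14,0)]⟩,⟨1,[(11,0),(10,0),(16,0)]⟩⟩,.o ⟨false,0,⟨7,[(13,1),(8,3),
  (5,2),(0,0)]⟩,⟨1,[(23,1),(9,0),(6,0)]⟩⟩]⟩) (.R ⟨0,false,false,true,[0,0,0,1],[0,0,1],[1,0,0,0,0,0,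
  0,0,1],(⟨0,[(23,0)]⟩,⟨1,[(22,0),(8,0),(0,0)]⟩),(⟨0,[(32,0)]⟩,⟨0,[(31,0)]⟩),⟨1,[(8,0),(7,0),(5,
  0)]⟩,.k,.k,(.x 0 ⟨4,[(7,0),(5,1),(14,0),(5,4)]⟩ ⟨3,[(20,0),(0,0),(13,3),(4,1)]⟩),.k,.k,.k,⟨false,
  1,⟨1,[(3,1),(3,0),(6,0),(3,1),(22,1)]⟩,⟨25,[(1,10),(0,3),(1,14),(8,0),(8,12),(3,6),(2,5),(0,
  18)]⟩⟩,⟨true,0,⟨1,[(7,0),(6,0),(8,1)]⟩,⟨3,[(9,0),(12,1),(6,2)]⟩⟩,⟨true,0,⟨0,[]⟩,⟨0,[(43,0)]⟩⟩,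
  ⟨false,0,⟨0,[(1,0),(15,0)]⟩,⟨0,[(5,0),(12,0),(22,0)]⟩⟩,⟨false,0,⟨0,[]⟩,⟨0,[]⟩⟩,⟨false,0,⟨0,[]⟩,⟨0,
  []⟩⟩,[.o ⟨false,0,⟨0,[(26,0)]⟩,⟨0,[(24,0),(16,0)]⟩⟩,.o ⟨false,0,⟨2,[(7,0),(11,0),(10,0)]⟩,⟨11,
  [(12,3),(0,3),(4,7),(1,0),(0,0),(11,1),(7,3)]⟩⟩,.a ⟨true,0,⟨1,[(22,0),(8,0),(0,0)]⟩,⟨0,[(23,0)]⟩⟩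
  ⟨true,0,⟨3,[(0,1),(2,1),(3,0),(6,0),(0,1),(2,1),(17,1)]⟩,⟨1,[(1,0),(2,0),(17,0),(20,0)]⟩⟩ ⟨false,
  0,⟨11,[(0,0),(0,0),(5,1),(1,1),(7,1),(1,4),(3,10)]⟩,⟨1,[(22,0),(1,0),(2,0),(13,1)]⟩⟩,.o ⟨false,0,
  ⟨7,[(13,1),(8,3),(5,2),(0,0)]⟩,⟨1,[(23,1),(9,0),(6,0)]⟩⟩]⟩)) (.R ⟨0,false,false,false,[0,0,0,1],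
  [1,-1],[1,1],(⟨0,[(22,0)]⟩,⟨1,[(21,0),(8,0),(0,0)]⟩),(⟨0,[(33,0)]⟩,⟨0,[(34,0)]⟩),⟨1,[(7,0),(7,0),
  (5,0)]⟩,.k,.k,(.x 0 ⟨4,[(6,0),(5,1),(14,0),(5,4)]⟩ ⟨3,[(19,0),(0,0),(13,3),(4,1)]⟩),(.r 0 ⟨4,[(0,
  4),(5,0),(5,1),(9,4),(4,0)]⟩ ⟨1,[(11,0),(7,0),(9,0)]⟩),.k,.k,⟨false,0,⟨0,[(37,0)]⟩,⟨1,[(11,0),(17,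
  0),(10,0)]⟩⟩,⟨true,0,⟨4,[(6,0),(5,1),(9,4),(4,0)]⟩,⟨1,[(21,0),(8,0),(0,0)]⟩⟩,⟨true,0,⟨1,[(3,1),(6,
  0),(10,0),(16,0)]⟩,⟨9,[(0,4),(1,4),(3,0),(5,1),(9,4),(4,0)]⟩⟩,⟨false,1,⟨1,[(10,1),(8,0),(2,1),(17,
  0)]⟩,⟨0,[(0,0)]⟩⟩,⟨false,0,⟨0,[]⟩,⟨0,[]⟩⟩,⟨false,0,⟨0,[]⟩,⟨0,[]⟩⟩,[.o ⟨false,0,⟨0,[(10,0)]⟩,⟨3,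
  [(19,0),(0,0),(16,3),(2,1)]⟩⟩,.o ⟨false,1,⟨3,[(11,0),(17,0),(2,1),(2,1),(4,0)]⟩,⟨0,[(37,0)]⟩⟩,.a
  ⟨true,0,⟨1,[(21,0),(8,0),(0,0)]⟩,⟨0,[(22,0)]⟩⟩ ⟨false,0,⟨0,[]⟩,⟨3,[(19,0),(0,0),(19,1)]⟩⟩ ⟨true,0,
  ⟨0,[(10,0),(11,0)]⟩,⟨1,[(3,0),(1,0),(15,0)]⟩⟩,.o ⟨false,0,⟨7,[(12,1),(8,3),(5,2),(0,0)]⟩,⟨1,[(22,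
  1),(9,0),(6,0)]⟩⟩]⟩))))) (.R ⟨0,false,false,false,[0,0,0,1],[1,-1],[1,1],(⟨0,[(18,0)]⟩,⟨1,[(17,0),
  (8,0),(0,0)]⟩),(⟨0,[(29,0)]⟩,⟨0,[(30,0)]⟩),⟨1,[(3,0),(7,0),(5,0)]⟩,.k,.k,(.r (-1) ⟨1,[(7,0),(8,0),
  (8,0)]⟩ ⟨7,[(0,7),(7,1),(8,3),(5,2),(0,0)]⟩),(.x (-1) ⟨3,[(15,0),(0,0),(13,3),(4,1)]⟩ ⟨4,[(2,0),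
  (5,1),(14,0),(5,4)]⟩),.k,.k,⟨false,0,⟨0,[(33,0)]⟩,⟨1,[(7,0),(17,0),(10,0)]⟩⟩,⟨true,0,⟨4,[(2,0),(5,
  1),(9,4),(4,0)]⟩,⟨1,[(17,0),(8,0),(0,0)]⟩⟩,⟨false,0,⟨1,[(0,1),(5,0),(10,0),(16,0)]⟩,⟨1,[(16,0),
  (19,0)]⟩⟩,⟨true,0,⟨0,[(0,0),(5,0),(27,0)]⟩,⟨0,[(1,0)]⟩⟩,⟨false,0,⟨0,[]⟩,⟨0,[]⟩⟩,⟨false,0,⟨0,[]⟩,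
  ⟨0,[]⟩⟩,[.o ⟨false,0,⟨0,[(6,0)]⟩,⟨3,[(15,0),(0,0),(16,3),(2,1)]⟩⟩,.o ⟨false,1,⟨3,[(7,0),(17,0),(2,
  1),(2,1),(4,0)]⟩,⟨0,[(33,0)]⟩⟩,.a ⟨true,0,⟨1,[(17,0),(8,0),(0,0)]⟩,⟨0,[(18,0)]⟩⟩ ⟨false,0,⟨0,[]⟩,
  ⟨3,[(15,0),(0,0),(19,1)]⟩⟩ ⟨true,0,⟨0,[(6,0),(11,0)]⟩,⟨1,[(13,1),(0,0),(2,0)]⟩⟩,.o ⟨false,0,⟨7,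
  [(8,1),(8,3),(5,2),(0,0)]⟩,⟨1,[(18,1),(9,0),(6,0)]⟩⟩]⟩)))) (.Q [0,-1,0,-1,0,0,1,1,0,1,-1] (.p
  false [0,0,1] [1] (⟨0,[(24,0)]⟩,⟨0,[(23,0)]⟩) .k 1 (⟨0,[]⟩,⟨0,[]⟩) .k .k) (.R ⟨2,true,false,true,
  [0,1],[1,1,-1],[1,1,1,1],(⟨0,[]⟩,⟨0,[]⟩),(⟨0,[(24,0),(3,0)]⟩,⟨0,[(1,0)]⟩),⟨0,[]⟩,.k,.k,.k,.k,.k,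
  .k,⟨true,0,⟨0,[(23,0)]⟩,⟨0,[(3,0),(7,0),(17,0)]⟩⟩,⟨false,1,⟨1,[(2,0),(19,0),(10,1)]⟩,⟨0,[(7,0)]⟩⟩,
  ⟨false,0,⟨0,[]⟩,⟨3,[(13,0),(0,0),(19,1)]⟩⟩,⟨true,0,⟨0,[(17,0)]⟩,⟨2,[(0,0),(9,0),(1,0),(7,0)]⟩⟩,
  ⟨true,0,⟨0,[(31,0)]⟩,⟨0,[(32,0)]⟩⟩,⟨false,1,⟨1,[(11,1),(14,0),(7,0)]⟩,⟨0,[(0,0)]⟩⟩,[]⟩) (.I [0,0,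
  1,1,0,0,0,0,-1] (.Q [0,0,0,1,0,0,0,0,-1,0,0,1] (.p true [0,0,0,1] [] (⟨0,[(17,0)]⟩,⟨1,[(16,0),(8,
  0),(0,0)]⟩) .k 0 (⟨0,[]⟩,⟨0,[]⟩) .k .k) (.Q [0,1,0,0,0,0,0,0,1,1,0,-1] (.p false [0,0,0,1] [1]
  (⟨0,[(18,0)]⟩,⟨1,[(17,0),(8,0),(0,0)]⟩) .k 1 (⟨0,[]⟩,⟨0,[]⟩) .k .k) (.Q [0,0,0,0,0,1,0,0,0,0,0,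
  -1] (.p false [0,0,0,1] [] (⟨0,[(19,0)]⟩,⟨1,[(18,0),(8,0),(0,0)]⟩) .k 0 (⟨0,[]⟩,⟨0,[]⟩) .k .k)
  (.I [0,-1,1,0,0,0,0,0,-1] (.R ⟨0,false,false,false,[0,0,0,1],[0,1],[0,0,1],(⟨0,[(21,0)]⟩,⟨1,[(20,
  0),(8,0),(0,0)]⟩),(⟨0,[(33,0)]⟩,⟨0,[(32,0)]⟩),⟨0,[(1,0)]⟩,.k,.k,(.r (-1) ⟨1,[(10,0),(8,0),(8,0)]⟩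
  ⟨0,[(4,0)]⟩),(.r (-1) ⟨1,[(10,0),(8,0),(8,0)]⟩ ⟨0,[(4,0)]⟩),.k,.k,⟨true,0,⟨0,[(37,0)]⟩,⟨0,[(5,0),
  (9,0),(18,0)]⟩⟩,⟨false,1,⟨0,[(21,0),(16,0)]⟩,⟨7,[(11,1),(8,3),(5,2),(0,0)]⟩⟩,⟨false,0,⟨0,[(0,0)]⟩,
  ⟨1,[(19,0),(18,0)]⟩⟩,⟨true,0,⟨0,[(3,0)]⟩,⟨0,[(2,0),(6,0)]⟩⟩,⟨false,0,⟨0,[]⟩,⟨0,[]⟩⟩,⟨false,0,⟨0,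
  []⟩,⟨0,[]⟩⟩,[.o ⟨false,1,⟨3,[(18,0),(0,0),(16,3),(2,1)]⟩,⟨0,[(9,0)]⟩⟩,.o ⟨false,1,⟨0,[(36,0),(2,
  0)]⟩,⟨0,[(9,0),(31,0)]⟩⟩,.a ⟨true,0,⟨1,[(20,0),(8,0),(0,0)]⟩,⟨0,[(21,0)]⟩⟩ ⟨true,0,⟨1,[(26,0),(0,
  0)]⟩,⟨0,[(35,0)]⟩⟩ ⟨false,1,⟨1,[(3,1),(15,0),(19,0)]⟩,⟨1,[(9,0),(10,0),(16,0)]⟩⟩,.o ⟨false,0,⟨7,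
  [(11,1),(8,3),(5,2),(0,0)]⟩,⟨1,[(21,1),(9,0),(6,0)]⟩⟩]⟩) (.R ⟨0,false,false,true,[0,0,0,1],[0,0,
  1],[0,0,1],(⟨0,[(21,0)]⟩,⟨1,[(20,0),(8,0),(0,0)]⟩),(⟨0,[(30,0)]⟩,⟨0,[(29,0)]⟩),⟨0,[(1,0)]⟩,.k,.k,
  (.r (-1) ⟨1,[(10,0),(8,0),(8,0)]⟩ ⟨0,[(4,0)]⟩),.k,.k,.k,⟨false,1,⟨3,[(8,1),(1,0),(5,2),(9,0),(7,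
  0),(4,2)]⟩,⟨0,[(28,0),(6,0)]⟩⟩,⟨true,0,⟨0,[(8,0),(12,0)]⟩,⟨3,[(7,0),(12,1),(6,2)]⟩⟩,⟨true,0,⟨0,
  [(4,0),(32,0)]⟩,⟨0,[(0,0)]⟩⟩,⟨false,0,⟨1,[(3,1),(5,0),(7,0),(19,0)]⟩,⟨1,[(0,1),(4,0),(10,0),(3,0),
  (13,1),(4,1)]⟩⟩,⟨false,0,⟨0,[]⟩,⟨0,[]⟩⟩,⟨false,0,⟨0,[]⟩,⟨0,[]⟩⟩,[.o ⟨false,0,⟨0,[(24,0)]⟩,⟨0,[(22,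
  0),(16,0)]⟩⟩,.o ⟨false,0,⟨0,[(9,0),(5,0)]⟩,⟨11,[(10,3),(0,3),(4,7),(1,0),(0,0),(11,1),(7,3)]⟩⟩,.a
  ⟨true,0,⟨1,[(20,0),(8,0),(0,0)]⟩,⟨0,[(21,0)]⟩⟩ ⟨true,0,⟨1,[(26,0),(0,0)]⟩,⟨0,[(35,0)]⟩⟩ ⟨false,0,
  ⟨0,[(9,0),(5,0),(5,0)]⟩,⟨1,[(20,0),(1,0),(2,0),(13,1)]⟩⟩,.o ⟨false,0,⟨7,[(11,1),(8,3),(5,2),(0,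
  0)]⟩,⟨1,[(21,1),(9,0),(6,0)]⟩⟩]⟩)) (.Q [0,0,0,0,0,0,-1,-1,-1,-1,1,1] (.p true [0,0,1] [1,0,0,-1]
  (⟨0,[(29,0)]⟩,⟨0,[(28,0)]⟩) .k 2 (⟨1,[(19,0),(8,0),(0,0)]⟩,⟨0,[(20,0)]⟩) .k (.x 0 ⟨1,[(5,0),(1,0),
  (3,0),(1,0)]⟩ ⟨1,[(26,1),(1,1),(1,0),(6,0)]⟩)) (.K ⟨2,[1,0,0,-1],0,0,(⟨1,[(20,0),(8,0),(0,0)]⟩,⟨0,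
  [(21,0)]⟩),.k,(.x 0 ⟨2,[(1,1),(9,0),(8,0),(5,0),(5,0)]⟩ ⟨3,[(18,0),(0,0),(13,3),(4,1)]⟩),(.r 0 ⟨0,
  [(4,0)]⟩ ⟨1,[(10,0),(8,0),(8,0)]⟩),.k,.k,[⟨0,[(0,0)]⟩,⟨0,[(2,0)]⟩,⟨2,[(2,0),(1,0),(7,0),(7,0),(6,
  0),(6,0)]⟩,⟨1,[(7,0),(13,1),(4,0)]⟩]⟩) (.Q [0,-1,0,0,1,0,-1,-1,1,0,1,-1] (.p true [0,0,1] [0,0,0,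
  1] (⟨0,[(30,0)]⟩,⟨0,[(29,0)]⟩) .k 2 (⟨0,[(21,0)]⟩,⟨1,[(20,0),(8,0),(0,0)]⟩) .k (.r 0 ⟨1,[(3,1),(5,
  0),(10,0),(7,1),(8,0)]⟩ ⟨3,[(8,1),(1,0),(5,2),(2,1),(6,0),(7,0),(4,0)]⟩)) (.R ⟨1,false,false,true,
  [0,0,0,1],[0,0,1],[1,1,0,0,0,0,0,0,1],(⟨0,[(22,0)]⟩,⟨1,[(21,0),(8,0),(0,0)]⟩),(⟨0,[(31,0)]⟩,⟨0,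
  [(30,0)]⟩),⟨0,[(2,0)]⟩,.k,.k,(.r (-1) ⟨1,[(11,0),(8,0),(8,0)]⟩ ⟨0,[(5,0)]⟩),.k,(.r (-1) ⟨3,[(0,1),
  (0,0),(1,0),(2,0),(2,1),(0,0),(0,1),(10,3)]⟩ ⟨0,[(5,0),(23,0)]⟩),.k,⟨false,1,⟨0,[(0,0),(8,0),(12,
  0),(13,0)]⟩,⟨1,[(4,1),(5,0),(10,0),(7,1),(8,0)]⟩⟩,⟨true,0,⟨0,[(9,0),(12,0)]⟩,⟨3,[(8,0),(12,1),(6,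
  2)]⟩⟩,⟨false,0,⟨0,[]⟩,⟨3,[(19,0),(0,0),(19,1)]⟩⟩,⟨false,0,⟨1,[(4,1),(5,0),(7,0),(19,0)]⟩,⟨0,[(0,
  0)]⟩⟩,⟨true,0,⟨0,[(37,0)]⟩,⟨0,[(38,0)]⟩⟩,⟨false,0,⟨0,[(4,0),(5,0),(5,0)]⟩,⟨0,[(0,0),(37,0)]⟩⟩,[.o
  ⟨false,0,⟨0,[(25,0)]⟩,⟨0,[(23,0),(16,0)]⟩⟩,.o ⟨false,0,⟨0,[(10,0),(5,0)]⟩,⟨7,[(0,1),(10,1),(0,1),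
  (4,3),(1,0),(2,1),(9,1),(7,0)]⟩⟩,.a ⟨true,0,⟨1,[(21,0),(8,0),(0,0)]⟩,⟨0,[(22,0)]⟩⟩ ⟨true,0,⟨1,[(1,
  0),(1,0),(2,0),(3,0),(11,1)]⟩,⟨1,[(4,1),(5,0),(10,0),(16,0)]⟩⟩ ⟨false,0,⟨0,[(10,0),(5,0),(5,0)]⟩,
  ⟨1,[(21,0),(1,0),(2,0),(13,1)]⟩⟩,.o ⟨false,0,⟨7,[(12,1),(8,3),(5,2),(0,0)]⟩,⟨1,[(22,1),(9,0),(6,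
  0)]⟩⟩]⟩) (.Q [0,-1,0,0,0,0,0,0,-2,-1,0,2] (.p true [0,0,0,1] [1,0,0,-1] (⟨0,[(22,0)]⟩,⟨1,[(21,0),
  (8,0),(0,0)]⟩) .k 2 (⟨1,[(21,0),(8,0),(0,0)]⟩,⟨0,[(22,0)]⟩) .k .k) (.R ⟨1,false,false,true,[1,0,0,
  -1],[0,0,0,1],[1,1,0,0,0,0,0,0,-1],(⟨1,[(22,0),(8,0),(0,0)]⟩,⟨0,[(23,0)]⟩),(⟨0,[(23,0)]⟩,⟨1,[(22,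
  0),(8,0),(0,0)]⟩),⟨0,[(3,0),(18,0)]⟩,.k,.k,(.x 0 ⟨2,[(3,1),(9,0),(8,0),(5,0),(5,0)]⟩ ⟨3,[(20,0),
  (0,0),(13,3),(4,1)]⟩),.k,(.r 0 ⟨0,[(0,0),(21,0),(14,0),(1,0)]⟩ ⟨5,[(2,1),(4,1),(2,1),(4,1),(2,1),
  (2,4),(1,1),(12,1),(4,0)]⟩),.k,⟨false,0,⟨0,[(0,0),(21,0),(14,0)]⟩,⟨0,[(21,0)]⟩⟩,⟨true,0,⟨0,[(22,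
  0)]⟩,⟨1,[(9,0),(13,3),(4,0)]⟩⟩,⟨false,0,⟨0,[]⟩,⟨3,[(20,0),(0,0),(19,1)]⟩⟩,⟨false,1,⟨0,[(21,0),(0,
  0)]⟩,⟨0,[(0,0)]⟩⟩,⟨true,0,⟨0,[(38,0)]⟩,⟨0,[(39,0)]⟩⟩,⟨false,1,⟨1,[(2,1),(4,0),(10,0),(2,0),(0,0),
  (18,0)]⟩,⟨0,[(0,0),(38,0)]⟩⟩,[.o ⟨false,0,⟨1,[(2,0),(1,0),(2,0),(3,0)]⟩,⟨3,[(0,1),(19,0),(0,0),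
  (11,0),(7,0)]⟩⟩,.o ⟨false,1,⟨7,[(20,0),(0,4),(0,3),(10,1)]⟩,⟨4,[(0,1),(0,0),(22,0),(8,0)]⟩⟩,.a
  ⟨true,0,⟨0,[(23,0)]⟩,⟨1,[(22,0),(8,0),(0,0)]⟩⟩ ⟨false,0,⟨13,[(0,3),(0,1),(18,1),(1,4),(1,0),(2,
  0)]⟩,⟨1,[(21,0),(19,0)]⟩⟩ ⟨true,0,⟨3,[(2,0),(1,2),(2,0),(3,0),(10,1)]⟩,⟨4,[(0,1),(0,0),(21,4),(0,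
  0),(8,0)]⟩⟩,.o ⟨false,0,⟨1,[(9,0),(13,1),(4,0)]⟩,⟨7,[(20,0),(0,0),(0,3),(10,1),(6,3)]⟩⟩]⟩) (.Q [0,
  -1,0,-1,1,0,-1,-1,1,0,1,-1] (.p true [0,0,1] [0,0,0,1] (⟨0,[(32,0)]⟩,⟨0,[(31,0)]⟩) .k 2 (⟨0,[(23,
  0)]⟩,⟨1,[(22,0),(8,0),(0,0)]⟩) .k (.r 0 ⟨3,[(1,1),(3,1),(3,0),(2,0),(9,1),(6,0),(0,2),(10,0)]⟩ ⟨3,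
  [(10,1),(1,0),(5,2),(2,1),(6,0),(7,0),(4,0)]⟩)) (.R ⟨1,true,false,true,[0,0,0,1],[0,0,1],[0,1,0,
  -1,0,0,0,0,1],(⟨0,[(24,0)]⟩,⟨1,[(23,0),(8,0),(0,0)]⟩),(⟨0,[(33,0)]⟩,⟨0,[(32,0)]⟩),⟨0,[(4,0)]⟩,.k,
  .k,(.r (-1) ⟨1,[(13,0),(8,0),(8,0)]⟩ ⟨0,[(7,0)]⟩),.k,(.r (-1) ⟨7,[(0,1),(0,1),(6,1),(2,3),(1,3),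
  (8,0),(1,5),(17,0)]⟩ ⟨0,[(7,0),(23,0)]⟩),.k,⟨false,1,⟨7,[(0,1),(0,1),(6,1),(2,3),(1,3),(8,0),(1,
  5),(17,0)]⟩,⟨1,[(2,0),(3,0),(1,0),(14,0),(7,1),(10,0)]⟩⟩,⟨true,0,⟨0,[(11,0),(12,0)]⟩,⟨3,[(10,0),
  (12,1),(6,2)]⟩⟩,⟨false,0,⟨0,[(40,0)]⟩,⟨0,[(39,0),(2,0)]⟩⟩,⟨true,(-1),⟨0,[(2,0)]⟩,⟨15,[(0,7),(18,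
  7),(1,0),(0,4),(0,3),(10,1)]⟩⟩,⟨true,0,⟨0,[(44,0)]⟩,⟨0,[]⟩⟩,⟨false,0,⟨3,[(2,1),(3,1),(11,1),(15,
  0),(7,0)]⟩,⟨0,[(0,0)]⟩⟩,[]⟩) (.R ⟨1,false,false,true,[0,0,0,1],[0,0,1],[0,1,0,-1,0,0,0,0,1],(⟨0,
  [(24,0)]⟩,⟨1,[(23,0),(8,0),(0,0)]⟩),(⟨0,[(33,0)]⟩,⟨0,[(32,0)]⟩),⟨0,[(4,0)]⟩,.k,.k,(.r (-1) ⟨1,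
  [(13,0),(8,0),(8,0)]⟩ ⟨0,[(7,0)]⟩),.k,(.r (-1) ⟨9,[(1,3),(6,3),(2,3),(1,5),(8,0),(1,7),(12,1),(4,
  2)]⟩ ⟨0,[(7,0),(23,0)]⟩),.k,⟨false,1,⟨9,[(1,3),(6,3),(2,3),(1,5),(8,0),(1,7),(12,1),(4,2)]⟩,⟨7,
  [(0,1),(5,5),(3,1),(12,3),(7,5),(9,0),(0,0)]⟩⟩,⟨true,0,⟨0,[(11,0),(12,0)]⟩,⟨3,[(10,0),(12,1),(6,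
  2)]⟩⟩,⟨false,0,⟨0,[(40,0)]⟩,⟨0,[(39,0),(2,0)]⟩⟩,⟨true,(-1),⟨0,[(2,0)]⟩,⟨3,[(1,0),(11,0),(0,0),(4,
  1),(2,0),(0,0),(4,0),(13,1)]⟩⟩,⟨true,0,⟨0,[(44,0)]⟩,⟨0,[]⟩⟩,⟨true,(-1),⟨0,[(0,0)]⟩,⟨11,[(1,2),(11,
  4),(0,2),(7,2),(0,2),(4,6),(1,1),(6,1),(4,3)]⟩⟩,[.o ⟨false,0,⟨0,[(27,0)]⟩,⟨0,[(25,0),(16,0)]⟩⟩,.o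
  ⟨false,0,⟨7,[(0,1),(2,1),(8,1),(7,1),(13,0),(7,0)]⟩,⟨11,[(13,3),(0,3),(4,7),(1,0),(0,0),(11,1),(7,
  3)]⟩⟩,.a ⟨true,0,⟨1,[(23,0),(8,0),(0,0)]⟩,⟨0,[(24,0)]⟩⟩ ⟨true,0,⟨2,[(1,0),(0,0),(9,0),(9,0),(1,0),
  (3,0),(11,1)]⟩,⟨3,[(0,0),(5,2),(1,0),(3,0),(10,1),(18,0)]⟩⟩ ⟨false,0,⟨5,[(0,1),(11,1),(7,1),(1,0),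
  (1,3),(17,0)]⟩,⟨1,[(23,0),(1,0),(2,0),(13,1)]⟩⟩,.o ⟨false,0,⟨7,[(14,1),(8,3),(5,2),(0,0)]⟩,⟨1,
  [(24,1),(9,0),(6,0)]⟩⟩]⟩)))))) (.Q [0,0,0,0,0,1,0,0,0,0,0,-1] (.p false [0,0,0,1] [] (⟨0,[(19,
  0)]⟩,⟨1,[(18,0),(8,0),(0,0)]⟩) .k 0 (⟨0,[]⟩,⟨0,[]⟩) .k .k) (.R ⟨0,false,false,false,[0,0,0,1],[1,
  -1],[1,0,0,0,0,0,0,0,1],(⟨0,[(20,0)]⟩,⟨1,[(19,0),(8,0),(0,0)]⟩),(⟨0,[(31,0)]⟩,⟨0,[(32,0)]⟩),⟨0,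
  [(0,0)]⟩,.k,.k,(.r (-1) ⟨1,[(9,0),(8,0),(8,0)]⟩ ⟨0,[(3,0)]⟩),(.r (-1) ⟨0,[(3,0),(14,0)]⟩ ⟨1,[(1,
  1),(17,0),(8,0),(0,0),(4,1),(1,1)]⟩),.k,.k,⟨false,1,⟨1,[(18,0),(16,1),(2,0)]⟩,⟨1,[(1,1),(17,0),(8,
  0),(0,0),(4,1),(1,1)]⟩⟩,⟨true,0,⟨1,[(6,0),(13,1),(4,0)]⟩,⟨1,[(19,0),(8,0),(0,0)]⟩⟩,⟨true,0,⟨0,[]⟩,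
  ⟨0,[(40,0)]⟩⟩,⟨false,0,⟨0,[(1,0),(34,0)]⟩,⟨7,[(14,3),(0,3),(1,0),(0,4),(0,3),(18,1)]⟩⟩,⟨false,0,
  ⟨0,[]⟩,⟨0,[]⟩⟩,⟨false,0,⟨0,[]⟩,⟨0,[]⟩⟩,[.o ⟨false,0,⟨0,[(8,0)]⟩,⟨3,[(17,0),(0,0),(16,3),(2,1)]⟩⟩,
  .o ⟨false,1,⟨3,[(9,0),(17,0),(2,1),(2,1),(4,0)]⟩,⟨0,[(35,0)]⟩⟩,.a ⟨true,0,⟨1,[(19,0),(8,0),(0,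
  0)]⟩,⟨0,[(20,0)]⟩⟩ ⟨false,1,⟨1,[(18,0),(19,0)]⟩,⟨2,[(1,0),(0,0),(0,0),(15,0),(14,0),(1,1)]⟩⟩
  ⟨true,0,⟨0,[(8,0),(11,0)]⟩,⟨1,[(15,1),(0,0),(2,0)]⟩⟩,.o ⟨false,0,⟨7,[(10,1),(8,3),(5,2),(0,0)]⟩,
  ⟨1,[(20,1),(9,0),(6,0)]⟩⟩]⟩) (.R ⟨1,false,false,false,[0,0,0,1],[1,-1],[1,0,0,0,0,0,0,0,1],(⟨0,
  [(20,0)]⟩,⟨1,[(19,0),(8,0),(0,0)]⟩),(⟨0,[(31,0)]⟩,⟨0,[(32,0)]⟩),⟨0,[(0,0)]⟩,.k,.k,(.r (-1) ⟨1,[(9,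
  0),(8,0),(8,0)]⟩ ⟨0,[(3,0)]⟩),(.r (-1) ⟨0,[(3,0),(14,0)]⟩ ⟨1,[(1,1),(17,0),(8,0),(0,0),(4,1),(1,
  1)]⟩),.k,.k,⟨false,1,⟨1,[(18,0),(16,1),(2,0)]⟩,⟨1,[(1,1),(17,0),(8,0),(0,0),(4,1),(1,1)]⟩⟩,⟨true,
  0,⟨1,[(6,0),(13,1),(4,0)]⟩,⟨1,[(19,0),(8,0),(0,0)]⟩⟩,⟨true,0,⟨0,[]⟩,⟨0,[(40,0)]⟩⟩,⟨false,0,⟨0,[(1,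
  0),(34,0)]⟩,⟨7,[(14,3),(0,3),(1,0),(0,4),(0,3),(18,1)]⟩⟩,⟨false,1,⟨0,[(35,0),(2,0)]⟩,⟨0,[(36,
  0)]⟩⟩,⟨false,0,⟨0,[(1,0)]⟩,⟨3,[(17,0),(0,2),(0,1),(8,1),(0,1)]⟩⟩,[.o ⟨false,0,⟨0,[(8,0)]⟩,⟨3,[(17,
  0),(0,0),(16,3),(2,1)]⟩⟩,.o ⟨false,1,⟨3,[(9,0),(17,0),(2,1),(2,1),(4,0)]⟩,⟨0,[(35,0)]⟩⟩,.a ⟨true,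
  0,⟨1,[(19,0),(8,0),(0,0)]⟩,⟨0,[(20,0)]⟩⟩ ⟨false,1,⟨1,[(18,0),(19,0)]⟩,⟨2,[(1,0),(0,0),(0,0),(15,
  0),(14,0),(1,1)]⟩⟩ ⟨true,0,⟨0,[(8,0),(11,0)]⟩,⟨1,[(15,1),(0,0),(2,0)]⟩⟩,.o ⟨false,0,⟨7,[(10,1),(8,
  3),(5,2),(0,0)]⟩,⟨1,[(20,1),(9,0),(6,0)]⟩⟩]⟩))) (.Q [0,0,0,0,0,1,0,0,0,0,0,-1] (.p false [0,0,0,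
  1] [] (⟨0,[(18,0)]⟩,⟨1,[(17,0),(8,0),(0,0)]⟩) .k 0 (⟨0,[]⟩,⟨0,[]⟩) .k .k) (.R ⟨0,false,false,true,
  [0,0,0,1],[0,1],[1,1,1,1],(⟨0,[(19,0)]⟩,⟨1,[(18,0),(8,0),(0,0)]⟩),(⟨0,[(31,0)]⟩,⟨0,[(30,0)]⟩),⟨0,
  [(0,0)]⟩,.k,.k,(.r (-1) ⟨1,[(8,0),(8,0),(8,0)]⟩ ⟨0,[(2,0)]⟩),(.r (-1) ⟨1,[(8,0),(8,0),(8,0)]⟩ ⟨0,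
  [(2,0)]⟩),.k,.k,⟨true,0,⟨0,[]⟩,⟨1,[(24,0),(0,0)]⟩⟩,⟨false,1,⟨0,[(19,0),(16,0)]⟩,⟨7,[(9,1),(8,3),
  (5,2),(0,0)]⟩⟩,⟨false,0,⟨0,[(2,0)]⟩,⟨1,[(1,1),(17,1),(16,0),(0,0)]⟩⟩,⟨true,0,⟨0,[(2,0),(16,0),(13,
  0)]⟩,⟨0,[(1,0)]⟩⟩,⟨false,0,⟨0,[]⟩,⟨0,[]⟩⟩,⟨false,0,⟨0,[]⟩,⟨0,[]⟩⟩,[.o ⟨false,0,⟨0,[(34,0)]⟩,⟨3,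
  [(8,0),(17,0),(2,1),(2,1),(4,0)]⟩⟩,.o ⟨false,1,⟨3,[(16,0),(0,0),(16,3),(2,1)]⟩,⟨0,[(7,0)]⟩⟩,.a
  ⟨true,0,⟨1,[(18,0),(8,0),(0,0)]⟩,⟨0,[(19,0)]⟩⟩ ⟨false,0,⟨0,[(3,0),(9,0),(18,0)]⟩,⟨1,[(8,0),(17,0),
  (10,0)]⟩⟩ ⟨true,0,⟨0,[(19,0),(14,0)]⟩,⟨1,[(7,0),(10,0),(16,0)]⟩⟩,.o ⟨false,0,⟨7,[(9,1),(8,3),(5,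
  2),(0,0)]⟩,⟨1,[(19,1),(9,0),(6,0)]⟩⟩]⟩) (.Q [0,0,0,0,0,0,0,0,-1,0,0,1] (.p true [0,0,0,1] [] (⟨0,
  [(19,0)]⟩,⟨1,[(18,0),(8,0),(0,0)]⟩) .k 0 (⟨0,[]⟩,⟨0,[]⟩) .k .k) (.R ⟨2,true,false,false,[0,1],[0,
  0,0,1],[1,1,1,1],(⟨0,[]⟩,⟨0,[]⟩),(⟨0,[(20,0)]⟩,⟨1,[(19,0),(8,0),(0,0)]⟩),⟨0,[]⟩,.k,.k,.k,(.r 0 ⟨0,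
  [(3,0)]⟩ ⟨1,[(9,0),(8,0),(8,0)]⟩),.k,.k,⟨false,0,⟨0,[(3,0),(30,0)]⟩,⟨1,[(2,1),(17,1),(16,0),(0,
  0)]⟩⟩,⟨true,0,⟨7,[(10,1),(8,3),(5,2),(0,0)]⟩,⟨0,[(20,0)]⟩⟩,⟨false,0,⟨0,[]⟩,⟨3,[(17,0),(0,0),(19,
  1)]⟩⟩,⟨true,0,⟨0,[(2,0)]⟩,⟨0,[(0,0),(34,0)]⟩⟩,⟨true,0,⟨0,[(35,0)]⟩,⟨0,[(36,0)]⟩⟩,⟨false,1,⟨7,[(2,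
  3),(1,1),(9,1),(3,1),(0,1),(10,0),(7,4)]⟩,⟨0,[(0,0)]⟩⟩,[]⟩) (.Q [0,-1,0,0,1,0,-1,-1,-1,-1,1,1]
  (.p true [0,0,1] [1,0,0,-1] (⟨0,[(29,0)]⟩,⟨0,[(28,0)]⟩) .k 2 (⟨1,[(19,0),(8,0),(0,0)]⟩,⟨0,[(20,
  0)]⟩) .k (.r 0 ⟨0,[(0,0),(19,0),(6,0)]⟩ ⟨3,[(3,1),(5,1),(5,1),(1,0),(7,1),(12,0)]⟩)) (.R ⟨1,false,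
  false,true,[1,0,0,-1],[0,0,1],[1,1,0,0,0,0,0,0,-1],(⟨1,[(20,0),(8,0),(0,0)]⟩,⟨0,[(21,0)]⟩),(⟨0,
  [(30,0)]⟩,⟨0,[(29,0)]⟩),⟨0,[(2,0),(17,0)]⟩,.k,.k,(.r (-1) ⟨1,[(10,0),(7,0),(9,0)]⟩ ⟨0,[(1,1),(2,
  0),(16,1)]⟩),.k,(.r (-1) ⟨0,[(4,0),(5,0)]⟩ ⟨1,[(1,1),(11,0),(7,1),(6,0)]⟩),.k,⟨false,1,⟨1,[(0,1),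
  (7,0),(3,0),(7,0),(14,1)]⟩,⟨0,[(1,0),(19,0),(6,0)]⟩⟩,⟨true,0,⟨1,[(8,0),(3,0),(7,0)]⟩,⟨1,[(7,0),
  (13,1),(5,0)]⟩⟩,⟨false,0,⟨0,[]⟩,⟨3,[(18,0),(0,0),(19,1)]⟩⟩,⟨false,0,⟨0,[(3,0),(11,0)]⟩,⟨0,[(0,
  0)]⟩⟩,⟨true,0,⟨0,[(36,0)]⟩,⟨0,[(37,0)]⟩⟩,⟨false,0,⟨0,[(1,0),(13,0)]⟩,⟨0,[(0,0),(36,0)]⟩⟩,[.o
  ⟨false,0,⟨0,[(24,0)]⟩,⟨0,[(0,0),(0,0)]⟩⟩,.o ⟨false,0,⟨0,[(9,0),(5,0)]⟩,⟨4,[(0,1),(9,0),(0,0),(4,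
  1),(2,0),(0,0),(10,0)]⟩⟩,.a ⟨true,0,⟨0,[(21,0)]⟩,⟨1,[(20,0),(8,0),(0,0)]⟩⟩ ⟨true,0,⟨0,[(4,0),(30,
  0),(1,0)]⟩,⟨0,[(1,0),(19,0)]⟩⟩ ⟨false,0,⟨1,[(17,0),(2,0)]⟩,⟨0,[(0,0),(0,0),(19,0)]⟩⟩,.o ⟨false,0,
  ⟨1,[(7,0),(13,1),(4,0)]⟩,⟨7,[(18,0),(0,0),(0,3),(10,1),(6,3)]⟩⟩]⟩) (.Q [0,-1,0,1,0,0,1,1,1,2,-1,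
  -1] (.p false [-1,1,1] [1,0,0,-1] (⟨0,[(14,0)]⟩,⟨0,[(29,0),(2,0)]⟩) .k 2 (⟨1,[(20,0),(8,0),(0,
  0)]⟩,⟨0,[(21,0)]⟩) .k (.r 0 ⟨0,[(1,0),(19,0),(6,0)]⟩ ⟨3,[(4,1),(5,1),(5,1),(1,0),(7,1),(12,0)]⟩))
  (.R ⟨1,false,false,true,[0,0,0,1],[2,-1,-1],[1,1,0,0,0,0,0,0,1],(⟨0,[(22,0)]⟩,⟨1,[(21,0),(8,0),(0,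
  0)]⟩),(⟨0,[(30,0),(2,0)]⟩,⟨0,[(15,0)]⟩),⟨0,[(3,0)]⟩,.k,.k,(.r (-1) ⟨1,[(11,0),(8,0),(8,0)]⟩ ⟨0,
  [(5,0)]⟩),(.r 0 ⟨17,[(0,5),(0,3),(6,7),(5,4),(2,1),(2,3),(1,9),(6,4)]⟩ ⟨0,[(5,0),(5,0)]⟩),.k,.k,
  ⟨false,0,⟨2,[(0,1),(0,0),(4,0),(1,1),(13,2),(6,0),(9,0)]⟩,⟨0,[(5,0),(5,0)]⟩⟩,⟨true,0,⟨0,[(8,0),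
  (13,0)]⟩,⟨1,[(13,1),(7,0),(8,0),(0,0)]⟩⟩,⟨false,0,⟨0,[]⟩,⟨3,[(19,0),(0,0),(19,1)]⟩⟩,⟨false,1,⟨1,
  [(10,1),(8,0),(2,1),(0,1),(16,0)]⟩,⟨0,[(0,0)]⟩⟩,⟨true,0,⟨0,[(37,0)]⟩,⟨0,[(38,0)]⟩⟩,⟨false,1,⟨1,
  [(6,1),(3,1),(8,0),(2,1),(17,0)]⟩,⟨0,[(0,0),(37,0)]⟩⟩,[.o ⟨false,0,⟨0,[(10,0),(12,0)]⟩,⟨3,[(16,3),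
  (2,0),(0,0),(19,1)]⟩⟩,.o ⟨false,1,⟨3,[(11,1),(0,1),(10,1),(8,0),(7,0)]⟩,⟨0,[(16,0)]⟩⟩,.a ⟨true,0,
  ⟨1,[(21,0),(8,0),(0,0)]⟩,⟨0,[(22,0)]⟩⟩ ⟨false,0,⟨0,[(2,0),(19,0)]⟩,⟨1,[(19,0),(20,0)]⟩⟩ ⟨true,0,
  ⟨0,[(10,0),(11,0),(0,0)]⟩,⟨1,[(16,1),(4,0),(8,0),(0,0)]⟩⟩,.o ⟨false,0,⟨7,[(12,1),(8,3),(5,2),(0,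
  0)]⟩,⟨1,[(22,1),(9,0),(6,0)]⟩⟩]⟩) (.R ⟨1,true,false,true,[0,0,0,1],[2,-1,-1],[1,1,0,0,0,0,0,0,1],
  (⟨0,[(22,0)]⟩,⟨1,[(21,0),(8,0),(0,0)]⟩),(⟨0,[(30,0),(2,0)]⟩,⟨0,[(15,0)]⟩),⟨0,[(3,0)]⟩,.k,.k,(.r
  (-1) ⟨1,[(11,0),(8,0),(8,0)]⟩ ⟨0,[(5,0)]⟩),(.r 0 ⟨1,[(2,1),(11,0),(7,1),(6,0)]⟩ ⟨0,[(5,0),(5,
  0)]⟩),.k,.k,⟨false,0,⟨0,[(1,0),(4,0),(15,0),(6,0),(10,0)]⟩,⟨0,[(5,0),(5,0)]⟩⟩,⟨true,0,⟨0,[(8,0),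
  (13,0)]⟩,⟨1,[(13,1),(7,0),(8,0),(0,0)]⟩⟩,⟨false,0,⟨0,[]⟩,⟨3,[(19,0),(0,0),(19,1)]⟩⟩,⟨true,0,⟨0,
  [(0,0)]⟩,⟨5,[(1,3),(14,3),(0,1),(2,0),(0,0),(8,2),(0,2),(8,2)]⟩⟩,⟨true,0,⟨0,[(37,0)]⟩,⟨0,[(38,
  0)]⟩⟩,⟨false,1,⟨3,[(0,1),(5,1),(12,0),(2,1),(9,0),(7,1)]⟩,⟨0,[(1,0),(28,0),(0,0),(8,0)]⟩⟩,
  []⟩)))))) (.Q [0,0,0,1,0,0,0,0,1,1,0,-1] (.p false [0,0,0,1] [1] (⟨0,[(17,0)]⟩,⟨1,[(16,0),(8,0),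
  (0,0)]⟩) .k 1 (⟨0,[]⟩,⟨0,[]⟩) .k .k) (.Q [0,1,0,-1,0,0,0,0,-1,-1,0,1] (.p true [0,0,0,1] [1] (⟨0,
  [(18,0)]⟩,⟨1,[(17,0),(8,0),(0,0)]⟩) .k 1 (⟨0,[]⟩,⟨0,[]⟩) .k .k) (.Q [0,0,0,0,0,1,0,0,0,0,0,-1]
  (.p false [0,0,0,1] [] (⟨0,[(19,0)]⟩,⟨1,[(18,0),(8,0),(0,0)]⟩) .k 0 (⟨0,[]⟩,⟨0,[]⟩) .k .k) (.R ⟨0,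
  false,false,true,[0,0,0,1],[1,-1],[1],(⟨0,[(20,0)]⟩,⟨1,[(19,0),(8,0),(0,0)]⟩),(⟨0,[(31,0)]⟩,⟨0,
  [(32,0)]⟩),⟨0,[(0,0)]⟩,.k,.k,(.x 0 ⟨1,[(6,0),(18,0),(5,1)]⟩ ⟨3,[(17,0),(0,0),(13,3),(4,1)]⟩),(.r
  0 ⟨1,[(2,1),(3,0),(13,1),(4,0)]⟩ ⟨1,[(9,0),(7,0),(9,0)]⟩),.k,.k,⟨false,1,⟨0,[(35,0),(2,0)]⟩,⟨0,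
  [(34,0),(1,0)]⟩⟩,⟨true,0,⟨1,[(6,0),(13,1),(4,0)]⟩,⟨1,[(19,0),(8,0),(0,0)]⟩⟩,⟨false,1,⟨1,[(17,0),
  (20,0)]⟩,⟨3,[(2,1),(0,1),(2,0),(13,1),(4,0)]⟩⟩,⟨true,0,⟨0,[(1,0)]⟩,⟨0,[(2,0)]⟩⟩,⟨false,0,⟨0,[]⟩,
  ⟨0,[]⟩⟩,⟨false,0,⟨0,[]⟩,⟨0,[]⟩⟩,[.o ⟨false,0,⟨0,[(8,0),(31,0)]⟩,⟨0,[(35,0),(2,0)]⟩⟩,.o ⟨false,0,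
  ⟨0,[(8,0)]⟩,⟨3,[(17,0),(0,0),(16,3),(2,1)]⟩⟩,.a ⟨true,0,⟨1,[(19,0),(8,0),(0,0)]⟩,⟨0,[(20,0)]⟩⟩
  ⟨true,0,⟨0,[]⟩,⟨0,[(40,0)]⟩⟩ ⟨false,0,⟨0,[(8,0),(11,0)]⟩,⟨1,[(2,1),(14,0),(20,0)]⟩⟩,.o ⟨false,0,
  ⟨7,[(10,1),(8,3),(5,2),(0,0)]⟩,⟨1,[(20,1),(9,0),(6,0)]⟩⟩]⟩) (.I [0,-1,-1,-1,1,0,0,0,-1] (.I [0,0,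
  2,2,0,0,0,-1] (.Q [0,-1,0,0,1,0,0,0,-1,-1,0,1] (.p true [0,0,0,1] [1] (⟨0,[(22,0)]⟩,⟨1,[(21,0),(8,
  0),(0,0)]⟩) .k 1 (⟨0,[]⟩,⟨0,[]⟩) .k .k) (.R ⟨1,false,false,false,[0,0,0,1],[1,-1],[1,1,0,0,0,0,0,
  0,1],(⟨0,[(23,0)]⟩,⟨1,[(22,0),(8,0),(0,0)]⟩),(⟨0,[(34,0)]⟩,⟨0,[(35,0)]⟩),⟨0,[(3,0)]⟩,.k,.k,(.x 0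
  ⟨2,[(3,1),(9,0),(8,0),(5,0),(5,0)]⟩ ⟨3,[(20,0),(0,0),(13,3),(4,1)]⟩),(.r 0 ⟨1,[(1,0),(4,1),(8,
  0)]⟩ ⟨1,[(12,0),(7,0),(9,0)]⟩),.k,.k,⟨false,0,⟨3,[(1,0),(4,3),(8,0),(22,3)]⟩,⟨0,[(2,0)]⟩⟩,⟨true,0,
  ⟨1,[(9,0),(13,1),(4,0)]⟩,⟨1,[(22,0),(8,0),(0,0)]⟩⟩,⟨false,0,⟨0,[]⟩,⟨3,[(20,0),(0,0),(19,1)]⟩⟩,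
  ⟨false,1,⟨16,[(0,11),(1,3),(1,4),(1,1),(14,0),(14,5)]⟩,⟨0,[(5,0)]⟩⟩,⟨true,0,⟨0,[(38,0)]⟩,⟨0,[(39,
  0)]⟩⟩,⟨false,1,⟨0,[(0,0)]⟩,⟨7,[(5,3),(0,3),(7,1),(7,1),(5,0),(0,2)]⟩⟩,[.o ⟨false,0,⟨0,[(11,0)]⟩,
  ⟨3,[(1,0),(13,0),(4,0),(0,0),(18,1)]⟩⟩,.o ⟨false,1,⟨11,[(2,3),(3,1),(14,0),(11,5),(2,5),(4,0)]⟩,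
  ⟨0,[(38,0)]⟩⟩,.a ⟨true,0,⟨1,[(22,0),(8,0),(0,0)]⟩,⟨0,[(23,0)]⟩⟩ ⟨false,0,⟨3,[(1,0),(4,3),(8,0)]⟩,
  ⟨1,[(20,0),(20,0)]⟩⟩ ⟨true,0,⟨0,[(11,0),(11,0)]⟩,⟨1,[(18,1),(0,0),(2,0)]⟩⟩,.o ⟨false,0,⟨7,[(13,1),
  (8,3),(5,2),(0,0)]⟩,⟨1,[(23,1),(9,0),(6,0)]⟩⟩]⟩) (.K ⟨2,[1,0,0,-1],0,1,(⟨1,[(22,0),(8,0),(0,0)]⟩,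
  ⟨0,[(23,0)]⟩),.k,(.r (-1) ⟨1,[(12,0),(7,0),(9,0)]⟩ ⟨1,[(1,0),(4,1),(8,0)]⟩),(.x (-1) ⟨3,[(20,0),
  (0,0),(13,3),(4,1)]⟩ ⟨2,[(3,1),(9,0),(8,0),(5,0),(5,0)]⟩),.k,.k,[⟨0,[(4,0),(13,0),(22,0)]⟩,⟨0,[(0,
  0)]⟩,⟨3,[(14,1),(7,1),(5,0),(0,2)]⟩,⟨1,[(9,0),(13,1),(4,0)]⟩]⟩)) (.R ⟨1,true,false,true,[0,0,1],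
  [0,1],[0,1,2,1],(⟨0,[(31,0)]⟩,⟨0,[(30,0)]⟩),(⟨0,[(34,0)]⟩,⟨0,[(33,0)]⟩),⟨0,[(7,0)]⟩,.k,.k,.k,.k,
  (.x 0 ⟨2,[(2,1),(4,2),(4,0),(8,0),(5,3),(5,0)]⟩ ⟨3,[(0,2),(5,3),(7,0),(15,3),(3,7),(4,1),(0,1)]⟩),
  .k,⟨true,0,⟨1,[(27,0),(0,0)]⟩,⟨0,[]⟩⟩,⟨false,1,⟨3,[(0,2),(13,0),(2,3),(21,1),(0,1)]⟩,⟨0,[(27,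
  0)]⟩⟩,⟨false,0,⟨0,[(6,0),(2,0),(6,0),(0,0),(17,1)]⟩,⟨3,[(0,2),(13,0),(24,1),(0,1)]⟩⟩,⟨true,0,⟨0,
  [(17,0)]⟩,⟨3,[(0,0),(9,0),(7,0),(6,0),(1,0),(7,0)]⟩⟩,⟨true,0,⟨1,[(9,1),(4,0),(2,2),(9,0),(7,0)]⟩,
  ⟨0,[(0,0)]⟩⟩,⟨false,1,⟨0,[(17,0),(19,0),(2,0)]⟩,⟨6,[(0,3),(7,0),(0,4),(6,0),(1,0),(16,6)]⟩⟩,[]⟩))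
  (.Q [0,0,0,0,0,0,-1,-1,1,-1,1,-1] (.p true [-1,1,1] [0,0,0,1] (⟨0,[(14,0)]⟩,⟨0,[(29,0),(2,0)]⟩)
  .k 2 (⟨0,[(21,0)]⟩,⟨1,[(20,0),(8,0),(0,0)]⟩) .k (.x 0 ⟨1,[(6,0),(1,0),(3,0),(1,0)]⟩ ⟨1,[(27,1),(1,
  1),(1,0),(6,0)]⟩)) (.R ⟨1,false,false,true,[1,0,0,-1],[2,-1,-1],[0,0,0,-1,0,0,0,0,-1],(⟨1,[(21,0),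
  (8,0),(0,0)]⟩,⟨0,[(22,0)]⟩),(⟨0,[(30,0),(2,0)]⟩,⟨0,[(15,0)]⟩),⟨0,[(2,0),(18,0)]⟩,.k,.k,(.r (-1)
  ⟨1,[(11,0),(7,0),(9,0)]⟩ ⟨13,[(1,7),(12,1),(2,1),(2,2),(6,1),(12,4)]⟩),(.x (-1) ⟨3,[(13,3),(1,3),
  (3,0),(0,0),(18,1)]⟩ ⟨0,[(8,0),(21,0),(2,0)]⟩),.k,.k,⟨false,1,⟨1,[(19,0),(9,1),(10,0)]⟩,⟨0,[(5,0),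
  (3,0),(7,0)]⟩⟩,⟨true,0,⟨3,[(8,2),(12,1),(6,0)]⟩,⟨0,[(13,0),(8,0)]⟩⟩,⟨true,0,⟨0,[(38,0)]⟩,⟨0,[(37,
  0)]⟩⟩,⟨false,0,⟨0,[(0,0),(37,0)]⟩,⟨1,[(16,1),(2,0),(2,1),(17,0)]⟩⟩,⟨false,1,⟨3,[(19,0),(0,0),(19,
  1)]⟩,⟨0,[]⟩⟩,⟨false,0,⟨0,[(0,0)]⟩,⟨1,[(18,0),(0,0),(2,1),(7,0),(0,0),(8,0)]⟩⟩,[.o ⟨false,0,⟨0,[(0,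
  0),(2,0)]⟩,⟨3,[(16,3),(2,0),(0,0),(19,1)]⟩⟩,.o ⟨false,1,⟨3,[(11,1),(0,1),(10,1),(8,0),(7,0)]⟩,⟨0,
  [(16,0)]⟩⟩,.a ⟨true,0,⟨0,[(22,0)]⟩,⟨1,[(21,0),(8,0),(0,0)]⟩⟩ ⟨false,1,⟨3,[(11,0),(7,1),(9,0),(5,
  1),(4,0)]⟩,⟨1,[(1,1),(37,0),(0,0)]⟩⟩ ⟨true,0,⟨1,[(10,1),(10,0),(1,0),(2,0)]⟩,⟨0,[(16,0),(5,0)]⟩⟩,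
  .o ⟨false,0,⟨1,[(8,0),(13,1),(4,0)]⟩,⟨7,[(19,0),(0,0),(0,3),(10,1),(6,3)]⟩⟩]⟩) (.I [0,-1,1,0,0,0,
  0,-1,1] (.Q [0,0,0,-1,0,0,-1,-1,1,-1,1,-1] (.p true [-1,1,1] [0,0,0,1] (⟨0,[(16,0)]⟩,⟨0,[(31,0),
  (2,0)]⟩) .k 2 (⟨0,[(23,0)]⟩,⟨1,[(22,0),(8,0),(0,0)]⟩) .k (.r (-1) ⟨3,[(20,2),(0,0),(8,3)]⟩ ⟨1,[(0,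
  0),(5,0),(3,0),(7,0)]⟩)) (.R ⟨1,true,false,false,[1,0,0,-1],[2,-1,-1],[0,1,0,-1,0,0,0,0,-1],(⟨1,
  [(23,0),(8,0),(0,0)]⟩,⟨0,[(24,0)]⟩),(⟨0,[(32,0),(2,0)]⟩,⟨0,[(17,0)]⟩),⟨0,[(4,0),(18,0)]⟩,.k,.k,
  (.r (-1) ⟨1,[(13,0),(7,0),(9,0)]⟩ ⟨8,[(1,1),(1,2),(4,0),(7,1),(1,0),(3,1),(19,0)]⟩),(.x (-1) ⟨3,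
  [(15,3),(1,3),(3,0),(0,0),(18,1)]⟩ ⟨0,[(10,0),(21,0),(2,0)]⟩),.k,.k,⟨false,0,⟨1,[(2,0),(2,0),(2,
  0),(14,0),(7,1)]⟩,⟨0,[(1,0),(39,0)]⟩⟩,⟨true,0,⟨3,[(10,2),(12,1),(6,0)]⟩,⟨0,[(15,0),(8,0)]⟩⟩,
  ⟨false,0,⟨0,[(40,0)]⟩,⟨0,[(39,0),(2,0)]⟩⟩,⟨true,0,⟨0,[(0,0)]⟩,⟨0,[(2,0),(36,0)]⟩⟩,⟨true,0,⟨0,[(44,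
  0)]⟩,⟨0,[]⟩⟩,⟨false,1,⟨2,[(0,1),(5,0),(12,0),(14,0),(7,1)]⟩,⟨0,[(2,0)]⟩⟩,[]⟩) (.R ⟨1,false,false,
  false,[1,0,0,-1],[2,-1,-1],[0,1,0,-1,0,0,0,0,-1],(⟨1,[(23,0),(8,0),(0,0)]⟩,⟨0,[(24,0)]⟩),(⟨0,[(32,
  0),(2,0)]⟩,⟨0,[(17,0)]⟩),⟨0,[(4,0),(18,0)]⟩,.k,.k,(.r (-1) ⟨1,[(13,0),(7,0),(9,0)]⟩ ⟨8,[(1,1),(1,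
  2),(4,0),(7,1),(1,0),(3,1),(19,0)]⟩),(.x (-1) ⟨3,[(15,3),(1,3),(3,0),(0,0),(18,1)]⟩ ⟨0,[(10,0),
  (21,0),(2,0)]⟩),.k,.k,⟨false,0,⟨5,[(0,1),(4,3),(2,0),(10,0),(3,2),(7,5)]⟩,⟨0,[(1,0),(39,0)]⟩⟩,
  ⟨true,0,⟨3,[(10,2),(12,1),(6,0)]⟩,⟨0,[(15,0),(8,0)]⟩⟩,⟨false,0,⟨0,[(40,0)]⟩,⟨0,[(39,0),(2,0)]⟩⟩,
  ⟨false,1,⟨11,[(1,3),(5,3),(2,6),(2,3),(8,1),(0,5),(1,3),(4,0),(11,5)]⟩,⟨0,[(0,0)]⟩⟩,⟨true,0,⟨0,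
  [(44,0)]⟩,⟨0,[]⟩⟩,⟨false,1,⟨59,[(1,15),(5,25),(0,37),(1,21),(2,5),(8,8),(0,29),(10,3),(7,40)]⟩,⟨0,
  [(2,0)]⟩⟩,[.o ⟨false,1,⟨3,[(13,1),(0,1),(10,1),(8,0),(7,0)]⟩,⟨0,[(18,0)]⟩⟩,.o ⟨false,1,⟨0,[(12,0),
  (12,0),(16,0)]⟩,⟨0,[(19,0),(0,0)]⟩⟩,.a ⟨true,0,⟨0,[(24,0)]⟩,⟨1,[(23,0),(8,0),(0,0)]⟩⟩ ⟨true,0,⟨3,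
  [(2,0),(2,2),(17,1),(4,0),(11,0)]⟩,⟨1,[(3,1),(37,0),(0,0)]⟩⟩ ⟨false,1,⟨3,[(10,0),(1,0),(0,0),(9,
  1),(1,2),(11,0),(4,2)]⟩,⟨0,[(18,0),(5,0)]⟩⟩,.o ⟨false,0,⟨1,[(10,0),(13,1),(4,0)]⟩,⟨7,[(21,0),(0,
  0),(0,3),(10,1),(6,3)]⟩⟩]⟩)) (.R ⟨1,false,false,true,[1,0,0,-1],[1,1,-1],[1,0,0,0,0,0,0,0,-1],(⟨1,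
  [(22,0),(8,0),(0,0)]⟩,⟨0,[(23,0)]⟩),(⟨0,[(31,0),(3,0)]⟩,⟨0,[(8,0)]⟩),⟨0,[(3,0),(18,0)]⟩,.k,.k,(.r
  (-1) ⟨1,[(12,0),(7,0),(9,0)]⟩ ⟨13,[(2,7),(12,1),(2,1),(2,2),(6,1),(12,4)]⟩),(.r (-1) ⟨1,[(12,0),
  (7,0),(9,2)]⟩ ⟨3,[(2,3),(7,1),(1,0),(5,2),(9,0),(7,0),(4,2)]⟩),(.r (-1) ⟨3,[(0,3),(11,2),(17,2),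
  (5,1),(4,0)]⟩ ⟨0,[(2,0),(15,0),(9,0),(12,0)]⟩),.k,⟨true,1,⟨3,[(0,3),(11,0),(17,0),(5,1),(4,2)]⟩,
  ⟨0,[(2,0),(7,0),(7,0),(17,0)]⟩⟩,⟨false,1,⟨1,[(0,1),(5,1),(0,0),(10,0),(3,0),(18,1)]⟩,⟨0,[(23,0),
  (4,0)]⟩⟩,⟨true,0,⟨0,[]⟩,⟨0,[(43,0)]⟩⟩,⟨true,0,⟨0,[(5,0),(18,0)]⟩,⟨0,[(1,0),(9,0)]⟩⟩,⟨false,1,⟨0,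
  [(38,0),(2,0)]⟩,⟨0,[(39,0)]⟩⟩,⟨true,0,⟨0,[(5,0),(1,0)]⟩,⟨0,[(1,0),(9,0),(27,0)]⟩⟩,[.o ⟨false,0,⟨0,
  [(7,0)]⟩,⟨11,[(12,4),(0,3),(5,7),(0,0),(0,0),(8,0),(5,1),(4,4)]⟩⟩,.o ⟨false,1,⟨1,[(18,1),(14,0),
  (7,0)]⟩,⟨1,[(11,0),(7,0),(19,0)]⟩⟩,.a ⟨true,0,⟨0,[(23,0)]⟩,⟨1,[(22,0),(8,0),(0,0)]⟩⟩ ⟨false,1,⟨1,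
  [(20,0),(20,0)]⟩,⟨5,[(2,1),(3,1),(14,0),(19,0)]⟩⟩ ⟨true,0,⟨1,[(7,0),(10,0),(3,0)]⟩,⟨3,[(4,0),(1,
  0),(4,0),(7,1),(3,2),(12,0)]⟩⟩,.o ⟨false,0,⟨1,[(9,0),(13,1),(4,0)]⟩,⟨7,[(20,0),(0,0),(0,3),(10,1),
  (6,3)]⟩⟩]⟩))))) (.Q [0,0,0,0,0,-1,0,0,0,1,0,-1] (.p false [0,0,0,1] [1] (⟨0,[(19,0)]⟩,⟨1,[(18,0),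
  (8,0),(0,0)]⟩) .k 1 (⟨0,[]⟩,⟨0,[]⟩) .k .k) (.R ⟨1,false,false,false,[1,0,0,-1],[1,-1],[1,0,0,0,0,
  0,0,0,-1],(⟨1,[(19,0),(8,0),(0,0)]⟩,⟨0,[(20,0)]⟩),(⟨0,[(31,0)]⟩,⟨0,[(32,0)]⟩),⟨0,[(0,0)]⟩,.k,.k,
  (.r (-1) ⟨1,[(9,0),(7,0),(9,0)]⟩ ⟨8,[(1,1),(0,3),(0,2),(0,1),(5,1),(1,1),(7,5),(4,3)]⟩),(.r (-1)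
  ⟨5,[(12,1),(2,1),(1,3),(0,0),(6,1),(12,0)]⟩ ⟨0,[(1,0),(3,0),(2,1),(11,0),(7,0),(3,0),(1,0)]⟩),.k,
  .k,⟨false,1,⟨1,[(17,0),(17,1),(2,0)]⟩,⟨0,[(1,0),(3,0),(2,1),(11,0),(7,0),(3,0),(1,0)]⟩⟩,⟨true,0,
  ⟨7,[(10,1),(8,3),(5,2),(0,0)]⟩,⟨0,[(20,0)]⟩⟩,⟨true,0,⟨0,[]⟩,⟨0,[(40,0)]⟩⟩,⟨false,0,⟨4,[(1,2),(1,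
  1),(4,3),(10,0),(13,1)]⟩,⟨1,[(17,0),(2,1),(14,1),(2,0)]⟩⟩,⟨false,1,⟨0,[(35,0),(2,0)]⟩,⟨0,[(36,
  0)]⟩⟩,⟨false,0,⟨0,[(1,0),(6,0)]⟩,⟨3,[(17,2),(0,0),(1,3)]⟩⟩,[.o ⟨false,0,⟨0,[(8,0)]⟩,⟨3,[(17,0),(0,
  0),(16,3),(2,1)]⟩⟩,.o ⟨false,1,⟨3,[(9,0),(17,0),(2,1),(2,1),(4,0)]⟩,⟨0,[(35,0)]⟩⟩,.a ⟨true,0,⟨0,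
  [(20,0)]⟩,⟨1,[(19,0),(8,0),(0,0)]⟩⟩ ⟨false,1,⟨1,[(17,0),(20,0)]⟩,⟨8,[(1,0),(0,1),(0,5),(0,0),(5,
  0),(1,0),(7,2),(4,1)]⟩⟩ ⟨true,0,⟨1,[(8,0),(10,0),(16,0)]⟩,⟨0,[(20,0),(14,0)]⟩⟩,.o ⟨false,0,⟨1,[(6,
  0),(13,1),(4,0)]⟩,⟨7,[(17,0),(0,0),(0,3),(10,1),(6,3)]⟩⟩]⟩) (.R ⟨0,false,false,false,[0,0,0,1],[1,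
  -1],[1,0,0,0,0,0,0,0,1],(⟨0,[(20,0)]⟩,⟨1,[(19,0),(8,0),(0,0)]⟩),(⟨0,[(31,0)]⟩,⟨0,[(32,0)]⟩),⟨0,
  [(0,0),(18,0)]⟩,.k,.k,(.r 0 ⟨0,[(0,0),(0,0),(3,1),(2,1),(19,1),(3,0),(1,0)]⟩ ⟨5,[(12,1),(2,1),(1,
  3),(0,0),(6,1),(12,0)]⟩),(.r 0 ⟨8,[(1,1),(0,3),(0,2),(0,1),(5,1),(1,1),(7,5),(4,3)]⟩ ⟨1,[(9,0),(7,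
  0),(9,0)]⟩),.k,.k,⟨false,0,⟨8,[(1,3),(1,4),(0,3),(1,0),(0,2),(4,1),(1,1),(5,3)]⟩,⟨1,[(9,0),(7,0),
  (9,0)]⟩⟩,⟨true,0,⟨1,[(6,0),(13,1),(4,0)]⟩,⟨1,[(19,0),(8,0),(0,0)]⟩⟩,⟨true,0,⟨0,[]⟩,⟨0,[(40,0)]⟩⟩,
  ⟨false,1,⟨1,[(8,1),(8,0),(2,1),(17,0)]⟩,⟨0,[(2,0)]⟩⟩,⟨false,0,⟨0,[]⟩,⟨0,[]⟩⟩,⟨false,0,⟨0,[]⟩,⟨0,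
  []⟩⟩,[.o ⟨false,0,⟨0,[(8,0)]⟩,⟨3,[(17,0),(0,0),(16,3),(2,1)]⟩⟩,.o ⟨false,1,⟨3,[(9,0),(17,0),(2,1),
  (2,1),(4,0)]⟩,⟨0,[(35,0)]⟩⟩,.a ⟨true,0,⟨1,[(19,0),(8,0),(0,0)]⟩,⟨0,[(20,0)]⟩⟩ ⟨false,0,⟨0,[(1,0),
  (6,0),(11,0)]⟩,⟨3,[(17,2),(0,0)]⟩⟩ ⟨true,0,⟨0,[(8,0),(11,0)]⟩,⟨1,[(15,1),(0,0),(2,0)]⟩⟩,.o ⟨false,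
  0,⟨7,[(10,1),(8,3),(5,2),(0,0)]⟩,⟨1,[(20,1),(9,0),(6,0)]⟩⟩]⟩))) (.R ⟨2,true,false,false,[0,1],[1,
  0,0,-1],[1,1,1,1],(⟨0,[]⟩,⟨0,[]⟩),(⟨1,[(17,0),(8,0),(0,0)]⟩,⟨0,[(18,0)]⟩),⟨0,[]⟩,.k,.k,.k,(.r 0
  ⟨0,[(1,0),(0,1),(9,1),(18,1)]⟩ ⟨1,[(7,0),(7,0),(9,0)]⟩),.k,.k,⟨false,0,⟨2,[(1,2),(0,0),(7,0),(1,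
  0),(0,0),(9,0),(9,0)]⟩,⟨1,[(0,1),(16,0),(8,0),(0,0),(7,0),(0,0)]⟩⟩,⟨true,0,⟨1,[(4,0),(13,1),(4,
  0)]⟩,⟨1,[(17,0),(8,0),(0,0)]⟩⟩,⟨false,0,⟨0,[]⟩,⟨3,[(15,0),(0,0),(19,1)]⟩⟩,⟨true,0,⟨0,[(0,0)]⟩,⟨1,
  [(1,1),(7,0),(0,0),(2,0),(3,0),(15,0)]⟩⟩,⟨true,0,⟨0,[(33,0)]⟩,⟨0,[(34,0)]⟩⟩,⟨false,1,⟨5,[(0,3),(1,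
  1),(9,1),(2,0),(2,1),(9,0),(7,3)]⟩,⟨1,[(1,1),(0,0),(9,1),(0,0),(3,0),(13,1)]⟩⟩,[]⟩))))))))

theorem ok2 : chk (cU (-1) false 3) t2 l6 = true := by decide +kernel

noncomputable def t3 : Tre :=
  (.Q [0,0,0,1,0,0,0,0,0,1] (.pp false [-1,1]) (.R ⟨0,false,false,true,[1,0,-1],[0,1],[],(⟨0,[(21,
  0)]⟩,⟨0,[(22,0)]⟩),(⟨0,[(25,0)]⟩,⟨0,[(24,0)]⟩),⟨0,[(6,0)]⟩,.k,.k,.k,.k,.k,.k,⟨true,1,⟨1,[(29,1),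
  (0,0),(0,0)]⟩,⟨0,[(2,0),(1,0),(9,0),(14,0)]⟩⟩,⟨false,1,⟨0,[(4,0),(25,0)]⟩,⟨0,[(15,0)]⟩⟩,⟨true,0,
  ⟨0,[(20,0)]⟩,⟨0,[(4,0),(9,0)]⟩⟩,⟨false,0,⟨0,[(7,0)]⟩,⟨0,[(14,0),(14,0),(1,0)]⟩⟩,⟨false,0,⟨0,[]⟩,
  ⟨0,[]⟩⟩,⟨false,0,⟨0,[]⟩,⟨0,[]⟩⟩,[.o ⟨false,0,⟨0,[(28,0)]⟩,⟨1,[(23,0),(5,1),(1,0)]⟩⟩,.a ⟨true,0,⟨0,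
  [(0,0)]⟩,⟨0,[(29,0)]⟩⟩ ⟨false,1,⟨1,[(30,0),(0,0)]⟩,⟨0,[(33,0)]⟩⟩ ⟨true,0,⟨0,[(1,0)]⟩,⟨0,[(15,0),
  (13,0)]⟩⟩,.e ⟨false,1,⟨3,[(10,0),(0,0),(19,1)]⟩,⟨0,[]⟩⟩ ⟨false,0,⟨0,[(1,0)]⟩,⟨1,[(15,1),(13,1),(0,
  0),(0,0)]⟩⟩,.o ⟨false,0,⟨0,[(15,0)]⟩,⟨1,[(4,1),(18,0),(6,0)]⟩⟩]⟩) (.I [0,0,0,0,0,0,0,0,-1] (.Q [0,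
  0,0,1,0,0,0,0,-1,0,0,1] (.p true [0,0,0,1] [] (⟨0,[(14,0)]⟩,⟨1,[(13,0),(8,0),(0,0)]⟩) .k 0 (⟨0,
  []⟩,⟨0,[]⟩) .k .k) (.Q [0,0,0,0,0,1,0,0,0,0,0,-1] (.p false [0,0,0,1] [] (⟨0,[(15,0)]⟩,⟨1,[(14,0),
  (8,0),(0,0)]⟩) .k 0 (⟨0,[]⟩,⟨0,[]⟩) .k .k) (.Q [0,1,0,1,0,0,0,0,1,1,0,-1] (.p false [0,0,0,1] [1]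
  (⟨0,[(16,0)]⟩,⟨1,[(15,0),(8,0),(0,0)]⟩) .k 1 (⟨0,[]⟩,⟨0,[]⟩) .k .k) (.R ⟨0,false,false,true,[0,0,
  0,1],[0,1],[],(⟨0,[(17,0)]⟩,⟨1,[(16,0),(8,0),(0,0)]⟩),(⟨0,[(29,0)]⟩,⟨0,[(28,0)]⟩),⟨0,[(1,0)]⟩,.k,
  .k,(.r (-1) ⟨1,[(15,0),(17,1),(0,0)]⟩ ⟨5,[(3,3),(2,1),(5,1),(1,0),(7,1),(12,0)]⟩),(.r (-1) ⟨1,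
  [(15,0),(17,1),(0,0)]⟩ ⟨5,[(3,3),(2,1),(5,1),(1,0),(7,1),(12,0)]⟩),.k,.k,⟨true,1,⟨1,[(33,1),(0,0),
  (0,0)]⟩,⟨0,[(6,0),(1,0),(9,0),(14,0)]⟩⟩,⟨false,1,⟨0,[(17,0),(16,0)]⟩,⟨7,[(7,1),(8,3),(5,2),(0,
  0)]⟩⟩,⟨true,0,⟨0,[(3,0)]⟩,⟨0,[(0,0),(3,0),(12,0)]⟩⟩,⟨false,0,⟨0,[(2,0)]⟩,⟨1,[(4,0),(10,0),(0,0),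
  (16,0),(1,0)]⟩⟩,⟨false,0,⟨0,[]⟩,⟨0,[]⟩⟩,⟨false,0,⟨0,[]⟩,⟨0,[]⟩⟩,[.o ⟨false,0,⟨0,[(32,0)]⟩,⟨1,[(27,
  0),(5,1),(1,0)]⟩⟩,.o ⟨false,1,⟨7,[(5,1),(3,1),(2,1),(1,1),(0,1),(11,0),(6,1),(0,0)]⟩,⟨0,[(4,0)]⟩⟩,
  .a ⟨true,0,⟨1,[(16,0),(8,0),(0,0)]⟩,⟨0,[(17,0)]⟩⟩ ⟨false,1,⟨3,[(14,0),(0,0),(19,1)]⟩,⟨0,[]⟩⟩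
  ⟨true,0,⟨0,[(17,0),(14,0)]⟩,⟨1,[(4,0),(11,0),(16,0)]⟩⟩,.o ⟨false,0,⟨7,[(7,1),(8,3),(5,2),(0,0)]⟩,
  ⟨1,[(17,1),(9,0),(6,0)]⟩⟩]⟩) (.R ⟨0,false,false,true,[0,0,0,1],[0,1],[1,1,1,1],(⟨0,[(17,0)]⟩,⟨1,
  [(16,0),(8,0),(0,0)]⟩),(⟨0,[(29,0)]⟩,⟨0,[(28,0)]⟩),⟨0,[(1,0)]⟩,.k,.k,(.r (-1) ⟨1,[(15,0),(17,1),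
  (0,0)]⟩ ⟨17,[(0,3),(1,3),(3,5),(5,5),(1,4),(1,3),(5,5),(12,0)]⟩),(.r (-1) ⟨1,[(15,0),(17,1),(0,
  0)]⟩ ⟨17,[(0,3),(1,3),(3,5),(5,5),(1,4),(1,3),(5,5),(12,0)]⟩),.k,.k,⟨true,0,⟨0,[]⟩,⟨1,[(22,0),(0,
  0)]⟩⟩,⟨false,1,⟨0,[(17,0),(16,0)]⟩,⟨7,[(7,1),(8,3),(5,2),(0,0)]⟩⟩,⟨true,(-1),⟨1,[(0,1),(5,1),(1,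
  1),(7,0),(1,0),(2,0),(9,1)]⟩,⟨1,[(15,0),(17,1),(0,0)]⟩⟩,⟨false,0,⟨0,[(2,0)]⟩,⟨1,[(4,0),(10,0),(0,
  0),(16,0),(1,0)]⟩⟩,⟨false,0,⟨0,[]⟩,⟨0,[]⟩⟩,⟨false,0,⟨0,[]⟩,⟨0,[]⟩⟩,[.o ⟨false,0,⟨0,[(32,0)]⟩,⟨1,
  [(27,0),(5,1),(1,0)]⟩⟩,.o ⟨false,1,⟨7,[(5,1),(3,1),(2,1),(1,1),(0,1),(11,0),(6,1),(0,0)]⟩,⟨0,[(4,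
  0)]⟩⟩,.a ⟨true,0,⟨1,[(16,0),(8,0),(0,0)]⟩,⟨0,[(17,0)]⟩⟩ ⟨false,0,⟨5,[(6,0),(2,0),(2,1),(9,1),(12,
  0)]⟩,⟨1,[(33,1),(0,0),(0,0)]⟩⟩ ⟨true,0,⟨0,[(17,0),(14,0)]⟩,⟨1,[(4,0),(11,0),(16,0)]⟩⟩,.o ⟨false,0,
  ⟨7,[(7,1),(8,3),(5,2),(0,0)]⟩,⟨1,[(17,1),(9,0),(6,0)]⟩⟩]⟩)) (.Q [0,-1,0,-1,0,0,1,1,0,1,-1] (.p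
  false [0,0,1] [1] (⟨0,[(25,0)]⟩,⟨0,[(24,0)]⟩) .k 1 (⟨0,[]⟩,⟨0,[]⟩) .k .k) (.R ⟨2,true,false,true,
  [0,1],[1,1,-1],[1,1,1,1],(⟨0,[]⟩,⟨0,[]⟩),(⟨0,[(25,0),(3,0)]⟩,⟨0,[(1,1),(8,0),(5,0)]⟩),⟨0,[]⟩,.k,
  .k,.k,.k,.k,.k,⟨true,0,⟨0,[(24,0)]⟩,⟨0,[(5,0),(12,0),(11,0)]⟩⟩,⟨false,1,⟨0,[(19,0),(14,0)]⟩,⟨0,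
  [(8,0)]⟩⟩,⟨false,0,⟨0,[]⟩,⟨3,[(14,0),(0,0),(19,1)]⟩⟩,⟨true,0,⟨0,[(18,0)]⟩,⟨2,[(0,0),(10,0),(1,0),
  (7,0)]⟩⟩,⟨true,0,⟨0,[(32,0)]⟩,⟨0,[(33,0)]⟩⟩,⟨false,1,⟨1,[(12,1),(14,0),(7,0)]⟩,⟨0,[(0,0)]⟩⟩,[]⟩)
  (.I [0,0,-1,-1,0,0,0,0,-1] (.Q [0,0,0,0,0,0,-1,-1,-1,-1,1,1] (.p true [0,0,1] [1,0,0,-1] (⟨0,[(27,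
  0)]⟩,⟨0,[(26,0)]⟩) .k 2 (⟨1,[(17,0),(8,0),(0,0)]⟩,⟨0,[(18,0)]⟩) .k (.r (-1) ⟨3,[(15,0),(0,2),(8,
  3)]⟩ ⟨0,[(0,0),(0,0),(4,0),(24,0)]⟩)) (.R ⟨1,false,false,false,[1,0,0,-1],[0,0,1],[1,1,0,0,0,0,0,
  0,-1],(⟨1,[(18,0),(8,0),(0,0)]⟩,⟨0,[(19,0)]⟩),(⟨0,[(28,0)]⟩,⟨0,[(27,0)]⟩),⟨0,[(3,0),(14,0)]⟩,.k,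
  .k,(.r 0 ⟨0,[(1,0)]⟩ ⟨5,[(11,1),(2,1),(1,0),(0,3),(6,1),(12,0)]⟩),.k,(.r (-1) ⟨1,[(1,1),(8,1),(12,
  1),(5,0),(7,0)]⟩ ⟨1,[(8,0),(8,0),(8,0)]⟩),.k,⟨false,0,⟨0,[(1,0),(5,0),(12,0)]⟩,⟨1,[(17,0),(8,1),
  (10,0)]⟩⟩,⟨true,0,⟨1,[(6,0),(0,0),(2,0),(7,0)]⟩,⟨0,[(19,0),(1,0)]⟩⟩,⟨false,0,⟨0,[]⟩,⟨3,[(16,0),(0,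
  0),(19,1)]⟩⟩,⟨false,1,⟨1,[(15,0),(1,0),(0,0),(18,0)]⟩,⟨0,[(0,0)]⟩⟩,⟨true,0,⟨0,[(34,0)]⟩,⟨0,[(35,
  0)]⟩⟩,⟨false,1,⟨9,[(6,1),(0,3),(0,3),(6,2),(1,4),(0,4),(17,3),(0,4)]⟩,⟨0,[(0,0),(34,0)]⟩⟩,[.o
  ⟨false,0,⟨4,[(6,2),(0,0),(0,0),(6,1),(20,0)]⟩,⟨1,[(23,1),(5,0),(7,0)]⟩⟩,.o ⟨false,1,⟨7,[(15,3),(0,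
  0),(0,0),(11,1),(7,3)]⟩,⟨0,[(20,0)]⟩⟩,.a ⟨true,0,⟨0,[(19,0)]⟩,⟨1,[(18,0),(8,0),(0,0)]⟩⟩ ⟨false,0,
  ⟨0,[(5,0)]⟩,⟨1,[(17,0),(19,0)]⟩⟩ ⟨true,0,⟨1,[(15,0),(2,0)]⟩,⟨0,[(19,0),(0,0)]⟩⟩,.o ⟨false,0,⟨11,
  [(0,1),(5,3),(1,1),(0,1),(7,0),(1,9),(4,3),(4,0)]⟩,⟨7,[(16,0),(0,0),(0,3),(10,1),(6,3)]⟩⟩]⟩) (.R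
  ⟨1,true,false,false,[1,0,0,-1],[0,0,1],[1,1,0,0,0,0,0,0,-1],(⟨1,[(18,0),(8,0),(0,0)]⟩,⟨0,[(19,
  0)]⟩),(⟨0,[(28,0)]⟩,⟨0,[(27,0)]⟩),⟨0,[(3,0),(14,0)]⟩,.k,.k,(.r 0 ⟨0,[(1,0)]⟩ ⟨5,[(11,1),(2,1),(1,
  0),(0,3),(6,1),(12,0)]⟩),.k,(.r (-1) ⟨1,[(1,1),(8,1),(12,1),(5,0),(7,0)]⟩ ⟨1,[(8,0),(8,0),(8,
  0)]⟩),.k,⟨false,0,⟨0,[(1,0),(5,0),(12,0)]⟩,⟨1,[(17,0),(8,1),(10,0)]⟩⟩,⟨true,0,⟨1,[(6,0),(0,0),(2,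
  0),(7,0)]⟩,⟨0,[(19,0),(1,0)]⟩⟩,⟨false,0,⟨0,[]⟩,⟨3,[(16,0),(0,0),(19,1)]⟩⟩,⟨true,0,⟨0,[(0,0)]⟩,⟨5,
  [(1,2),(2,2),(4,0),(9,2),(0,3),(2,1),(0,0)]⟩⟩,⟨true,0,⟨0,[(34,0)]⟩,⟨0,[(35,0)]⟩⟩,⟨false,1,⟨11,[(0,
  7),(6,3),(0,0),(2,2),(5,1),(0,1),(10,0),(6,3),(0,5)]⟩,⟨0,[(1,0),(0,0),(16,0),(12,0)]⟩⟩,[]⟩)) (.Q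
  [0,-1,0,-1,1,0,-1,-1,1,-1,1,-1] (.p true [-1,1,1] [0,0,0,1] (⟨0,[(11,0)]⟩,⟨0,[(26,0),(2,0)]⟩) .k
  2 (⟨0,[(18,0)]⟩,⟨1,[(17,0),(8,0),(0,0)]⟩) .k (.r 0 ⟨0,[(4,0),(20,0)]⟩ ⟨1,[(9,1),(6,0),(2,1),(16,
  0)]⟩)) (.R ⟨1,false,false,true,[0,0,0,1],[-1,1,1],[1,1,0,0,0,0,0,0,1],(⟨0,[(19,0)]⟩,⟨1,[(18,0),(8,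
  0),(0,0)]⟩),(⟨0,[(12,0)]⟩,⟨0,[(27,0),(2,0)]⟩),⟨0,[(3,0)]⟩,.k,.k,(.r (-1) ⟨1,[(17,0),(17,1),(0,
  0)]⟩ ⟨3,[(2,0),(1,1),(3,0),(7,0),(1,0),(5,0),(7,0)]⟩),(.r (-1) ⟨0,[(0,0),(9,0),(8,0),(13,0)]⟩ ⟨1,
  [(8,0),(7,0),(9,0)]⟩),(.r (-2) ⟨3,[(0,1),(9,3),(6,0),(1,1),(3,1),(5,0),(5,5),(0,3)]⟩ ⟨0,[(5,0),(2,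
  0)]⟩),.k,⟨true,1,⟨0,[(0,0),(9,0),(8,0),(13,0)]⟩,⟨0,[(5,0),(2,0),(26,0)]⟩⟩,⟨false,1,⟨0,[(10,0),(8,
  0),(16,0)]⟩,⟨11,[(2,1),(3,5),(1,1),(9,5),(2,9),(14,0),(0,0)]⟩⟩,⟨false,0,⟨0,[]⟩,⟨3,[(16,0),(0,0),
  (19,1)]⟩⟩,⟨false,0,⟨1,[(4,1),(10,0),(11,0),(0,0)]⟩,⟨0,[(0,0)]⟩⟩,⟨true,0,⟨0,[(34,0)]⟩,⟨0,[(35,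
  0)]⟩⟩,⟨false,0,⟨0,[(4,0),(8,0)]⟩,⟨0,[(0,0),(34,0)]⟩⟩,[.o ⟨false,0,⟨0,[(14,0),(0,0)]⟩,⟨0,[(0,0),(3,
  0),(1,0)]⟩⟩,.o ⟨false,0,⟨0,[(13,0)]⟩,⟨3,[(0,1),(5,1),(9,0),(2,1),(0,1),(8,0)]⟩⟩,.a ⟨true,0,⟨1,
  [(18,0),(8,0),(0,0)]⟩,⟨0,[(19,0)]⟩⟩ ⟨true,0,⟨0,[(1,0),(31,0),(1,0)]⟩,⟨0,[(5,0)]⟩⟩ ⟨false,0,⟨0,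
  [(13,0),(5,0)]⟩,⟨0,[(0,0),(4,0)]⟩⟩,.o ⟨false,0,⟨7,[(9,1),(8,3),(5,2),(0,0)]⟩,⟨1,[(19,1),(9,0),(6,
  0)]⟩⟩]⟩) (.Q [0,-1,0,0,0,0,0,0,-2,-1,0,2] (.p true [0,0,0,1] [1,0,0,-1] (⟨0,[(19,0)]⟩,⟨1,[(18,0),
  (8,0),(0,0)]⟩) .k 2 (⟨1,[(18,0),(8,0),(0,0)]⟩,⟨0,[(19,0)]⟩) .k .k) (.R ⟨1,false,false,true,[1,0,0,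
  -1],[0,0,0,1],[1,1,0,0,0,0,0,0,-1],(⟨1,[(19,0),(8,0),(0,0)]⟩,⟨0,[(20,0)]⟩),(⟨0,[(20,0)]⟩,⟨1,[(19,
  0),(8,0),(0,0)]⟩),⟨0,[(4,0),(14,0)]⟩,.k,.k,(.x 0 ⟨2,[(4,1),(5,0),(8,0),(5,0),(5,0)]⟩ ⟨3,[(17,0),
  (0,0),(13,3),(4,1)]⟩),.k,(.r 0 ⟨0,[(0,0),(18,0),(14,0),(1,0)]⟩ ⟨7,[(2,1),(9,1),(2,1),(2,6),(6,1),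
  (12,0)]⟩),.k,⟨false,0,⟨0,[(0,0),(18,0),(14,0)]⟩,⟨0,[(18,0)]⟩⟩,⟨true,0,⟨0,[(19,0)]⟩,⟨16,[(0,0),(1,
  1),(0,0),(3,4),(1,0),(0,3),(9,31),(4,4),(4,0)]⟩⟩,⟨false,0,⟨0,[]⟩,⟨3,[(17,0),(0,0),(19,1)]⟩⟩,
  ⟨false,1,⟨0,[(18,0),(0,0)]⟩,⟨0,[(0,0)]⟩⟩,⟨true,0,⟨0,[(35,0)]⟩,⟨0,[(36,0)]⟩⟩,⟨false,1,⟨1,[(2,1),
  (15,0),(0,1),(17,0)]⟩,⟨0,[(0,0),(35,0)]⟩⟩,[.o ⟨false,0,⟨1,[(2,1),(4,0),(11,0),(14,1),(1,0)]⟩,⟨3,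
  [(0,1),(16,0),(0,0),(11,0),(7,0)]⟩⟩,.o ⟨false,1,⟨7,[(17,0),(0,4),(0,3),(10,1)]⟩,⟨4,[(0,1),(0,0),
  (5,0),(13,0),(8,0)]⟩⟩,.a ⟨true,0,⟨0,[(20,0)]⟩,⟨1,[(19,0),(8,0),(0,0)]⟩⟩ ⟨false,0,⟨0,[(6,0)]⟩,⟨1,
  [(18,0),(19,0)]⟩⟩ ⟨true,0,⟨0,[(2,0),(16,0),(14,0),(1,0)]⟩,⟨4,[(0,1),(0,0),(5,0),(12,4),(0,0),(8,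
  0)]⟩⟩,.o ⟨false,0,⟨16,[(0,0),(1,1),(0,0),(3,4),(1,0),(0,3),(9,14),(4,4),(4,0)]⟩,⟨7,[(17,0),(0,0),
  (0,3),(10,1),(6,3)]⟩⟩]⟩) (.I [0,0,-1,-1,1,0,0,-1,1] (.R ⟨1,false,false,false,[1,0,0,-1],[2,-1,-1],
  [1,0,0,0,0,0,0,0,-1],(⟨1,[(20,0),(8,0),(0,0)]⟩,⟨0,[(21,0)]⟩),(⟨0,[(29,0),(2,0)]⟩,⟨0,[(14,0)]⟩),⟨0,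
  [(5,0),(14,0)]⟩,.k,.k,(.r (-1) ⟨1,[(18,0),(18,1),(0,0)]⟩ ⟨1,[(1,0),(2,0),(0,3),(2,1),(0,0),(0,0),
  (9,0),(12,3),(5,0)]⟩),(.r 0 ⟨1,[(10,0),(7,0),(9,0)]⟩ ⟨0,[(0,0)]⟩),.k,.k,⟨false,0,⟨1,[(7,1),(2,0),
  (17,0),(9,0)]⟩,⟨0,[(0,0)]⟩⟩,⟨true,0,⟨11,[(4,1),(3,5),(1,1),(9,5),(2,9),(14,0),(0,0)]⟩,⟨0,[(12,0),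
  (8,0)]⟩⟩,⟨true,0,⟨0,[]⟩,⟨0,[(41,0)]⟩⟩,⟨true,1,⟨11,[(0,7),(0,1),(6,3),(2,1),(8,3),(1,3),(0,5),(14,
  0),(0,2)]⟩,⟨0,[(2,0)]⟩⟩,⟨false,1,⟨7,[(9,1),(3,1),(2,1),(14,0),(6,1),(0,4)]⟩,⟨0,[(37,0)]⟩⟩,⟨true,1,
  ⟨3,[(1,1),(20,3),(8,0),(7,2)]⟩,⟨0,[(2,0),(34,0)]⟩⟩,[.o ⟨false,1,⟨5,[(0,1),(7,3),(2,1),(6,0),(3,3),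
  (15,0),(0,1)]⟩,⟨0,[(15,0)]⟩⟩,.o ⟨false,1,⟨0,[(8,0),(13,0),(16,0)]⟩,⟨4,[(1,0),(0,1),(12,0),(1,0),
  (0,0),(0,0),(16,1)]⟩⟩,.a ⟨true,0,⟨0,[(21,0)]⟩,⟨1,[(20,0),(8,0),(0,0)]⟩⟩ ⟨true,0,⟨0,[(7,0)]⟩,⟨2,
  [(1,0),(0,0),(5,0),(10,0),(1,0),(0,0)]⟩⟩ ⟨false,1,⟨1,[(8,0),(11,0),(1,1),(14,0),(1,1)]⟩,⟨0,[(15,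
  0),(5,0)]⟩⟩,.o ⟨false,0,⟨17,[(4,1),(3,5),(1,1),(0,3),(9,17),(4,5),(4,0),(7,0)]⟩,⟨11,[(1,1),(16,1),
  (1,3),(10,2),(6,5),(0,0)]⟩⟩]⟩) (.Q [0,0,-2,0,1,0,-1,0,0,-1,1,1] (.p true [0,0,1] [1,0,0,-1] (⟨0,
  [(30,0)]⟩,⟨0,[(29,0)]⟩) .k 2 (⟨1,[(20,0),(8,0),(0,0)]⟩,⟨0,[(21,0)]⟩) .k (.r 0 ⟨1,[(0,1),(0,1),(6,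
  1),(12,3),(16,0),(0,0)]⟩ ⟨1,[(12,1),(5,0),(3,1),(16,0)]⟩)) (.R ⟨1,false,false,false,[0,0,0,1],[1,
  1,-1],[1,1,0,0,0,0,0,0,1],(⟨0,[(22,0)]⟩,⟨1,[(21,0),(8,0),(0,0)]⟩),(⟨0,[(30,0),(3,0)]⟩,⟨0,[(6,1),
  (8,0),(5,0)]⟩),⟨0,[(6,0)]⟩,.k,.k,(.r (-1) ⟨1,[(20,0),(17,1),(0,0)]⟩ ⟨3,[(1,1),(15,1),(1,0),(7,1),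
  (12,0)]⟩),(.r (-1) ⟨11,[(0,7),(1,3),(15,3),(0,0),(0,2),(8,3),(5,3),(2,7)]⟩ ⟨0,[(5,0),(2,0),(1,0),
  (24,0)]⟩),(.r (-1) ⟨0,[(0,0),(1,0),(0,0),(5,0),(28,1),(1,0)]⟩ ⟨2,[(1,0),(3,1),(1,1),(2,0),(6,1),
  (3,0),(5,2),(7,1),(4,0)]⟩),.k,⟨true,0,⟨0,[(0,0),(1,0),(0,0),(5,0),(25,0)]⟩,⟨3,[(1,0),(3,4),(2,2),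
  (1,4),(24,6),(4,0)]⟩⟩,⟨false,1,⟨0,[(0,0)]⟩,⟨3,[(13,1),(7,1),(5,2),(0,0)]⟩⟩,⟨false,0,⟨0,[]⟩,⟨3,
  [(19,0),(0,0),(19,1)]⟩⟩,⟨false,1,⟨0,[(7,0),(15,0),(16,0)]⟩,⟨0,[(2,0),(0,0),(5,0),(28,0),(1,0)]⟩⟩,
  ⟨true,0,⟨0,[(37,0)]⟩,⟨0,[(38,0)]⟩⟩,⟨false,1,⟨0,[(5,0),(1,0),(32,0)]⟩,⟨0,[(2,0),(0,0),(5,0),(28,1),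
  (1,0)]⟩⟩,[.o ⟨false,1,⟨1,[(17,1),(14,0),(7,0)]⟩,⟨1,[(9,0),(8,0),(19,0)]⟩⟩,.o ⟨false,1,⟨0,[(5,0),
  (34,0)]⟩,⟨0,[(25,0),(12,0)]⟩⟩,.a ⟨true,0,⟨1,[(21,0),(8,0),(0,0)]⟩,⟨0,[(22,0)]⟩⟩ ⟨true,0,⟨2,[(2,0),
  (0,0),(5,0),(10,0),(1,0),(0,0)]⟩,⟨0,[(8,0)]⟩⟩ ⟨false,1,⟨0,[(5,0),(16,0),(17,0)]⟩,⟨1,[(18,0),(2,0),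
  (16,1)]⟩⟩,.o ⟨false,0,⟨7,[(12,1),(8,3),(5,2),(0,0)]⟩,⟨0,[(0,0),(26,0)]⟩⟩]⟩) (.I [0,0,-1,-2,1,0,0,
  -1,1] (.R ⟨1,false,false,false,[0,0,0,1],[-1,1,1],[0,0,0,-1,0,0,0,0,1],(⟨0,[(23,0)]⟩,⟨1,[(22,0),
  (8,0),(0,0)]⟩),(⟨0,[(16,0)]⟩,⟨0,[(31,0),(2,0)]⟩),⟨0,[(7,0)]⟩,.k,.k,(.r (-1) ⟨3,[(0,1),(20,0),(8,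
  1),(9,0)]⟩ ⟨7,[(1,1),(4,1),(1,1),(3,1),(7,2),(20,0)]⟩),(.x 0 ⟨19,[(2,3),(0,1),(2,3),(0,19),(2,7),
  (2,1),(8,7),(2,13),(5,19),(8,0),(0,2)]⟩ ⟨3,[(14,3),(1,3),(3,0),(0,0),(18,1)]⟩),(.r (-2) ⟨3,[(0,3),
  (19,0),(0,0),(18,1)]⟩ ⟨15,[(1,1),(0,7),(3,1),(1,1),(3,9),(7,2),(20,0)]⟩),.k,⟨true,1,⟨0,[(0,0)]⟩,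
  ⟨15,[(1,1),(0,7),(3,1),(1,1),(3,9),(7,2),(20,0)]⟩⟩,⟨false,1,⟨0,[(14,0),(8,0),(16,0)]⟩,⟨19,[(2,3),
  (0,1),(2,3),(3,7),(2,1),(8,7),(2,13),(14,0),(0,2)]⟩⟩,⟨true,0,⟨0,[(39,0)]⟩,⟨0,[(38,0)]⟩⟩,⟨false,0,
  ⟨0,[(4,0),(36,0)]⟩,⟨19,[(0,7),(2,5),(6,3),(2,5),(8,3),(1,11),(0,1),(14,2),(0,8)]⟩⟩,⟨false,1,⟨3,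
  [(20,0),(0,0),(19,1)]⟩,⟨0,[]⟩⟩,⟨false,0,⟨1,[(2,1),(8,1),(11,1),(16,0),(0,0)]⟩,⟨19,[(0,15),(2,1),
  (6,7),(2,1),(8,7),(1,3),(0,13),(14,0),(0,2)]⟩⟩,[.o ⟨false,0,⟨0,[(17,0)]⟩,⟨7,[(0,1),(9,3),(2,1),(6,
  0),(3,5),(8,0),(6,0),(0,2)]⟩⟩,.o ⟨false,1,⟨3,[(17,3),(2,0),(0,0),(19,1)]⟩,⟨0,[(10,0),(13,0)]⟩⟩,.a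
  ⟨true,0,⟨1,[(22,0),(8,0),(0,0)]⟩,⟨0,[(23,0)]⟩⟩ ⟨false,1,⟨2,[(0,0),(20,0),(8,0),(5,0),(4,0)]⟩,⟨5,
  [(2,1),(3,1),(2,3),(1,1),(28,0),(0,0)]⟩⟩ ⟨true,0,⟨0,[(17,0),(5,0)]⟩,⟨1,[(10,0),(11,0),(1,1),(14,
  0)]⟩⟩,.o ⟨false,0,⟨15,[(1,3),(1,1),(9,3),(6,1),(1,3),(10,0),(7,0)]⟩,⟨1,[(23,1),(9,0),(6,0)]⟩⟩]⟩)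
  (.Q [0,0,-2,0,1,0,-1,0,0,0,1] (.p true [0,0,1] [] (⟨0,[(32,0)]⟩,⟨0,[(31,0)]⟩) .k 0 (⟨0,[]⟩,⟨0,
  []⟩) .k .k) (.K ⟨0,[1,1,-1],1,0,(⟨0,[(32,0),(3,0)]⟩,⟨0,[(8,1),(8,0),(5,0)]⟩),.k,.k,(.r 0 ⟨1,[(2,
  0),(3,0),(0,0),(1,0),(9,0),(9,0),(12,0)]⟩ ⟨1,[(0,1),(10,0),(8,0),(19,2)]⟩),.k,.k,[⟨0,[(2,0),(21,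
  0)]⟩,⟨0,[(0,0)]⟩,⟨0,[(20,0),(7,0),(11,0)]⟩,⟨0,[(7,0)]⟩]⟩) (.K ⟨2,[0,-1,1],(-1),0,(⟨0,[(8,1),(8,0),
  (5,0)]⟩,⟨0,[(32,0),(3,0)]⟩),.k,(.r (-1) ⟨0,[(31,0),(8,1),(0,0)]⟩ ⟨12,[(0,7),(6,3),(4,3),(3,2),(2,
  11),(9,3),(12,7)]⟩),.k,.k,.k,[⟨0,[(40,0)]⟩,⟨0,[(19,0)]⟩,⟨3,[(21,0),(0,0),(7,3),(10,1)]⟩,⟨0,[(0,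
  0)]⟩]⟩)))))))))) (.R ⟨2,true,false,false,[0,1],[0,0,0,1],[1,1,1,1],(⟨0,[]⟩,⟨0,[]⟩),(⟨0,[(15,0)]⟩,
  ⟨1,[(14,0),(8,0),(0,0)]⟩),⟨0,[]⟩,.k,.k,.k,(.r 0 ⟨5,[(1,3),(2,1),(5,1),(1,0),(7,1),(12,0)]⟩ ⟨1,
  [(13,0),(17,1),(0,0)]⟩),.k,.k,⟨false,0,⟨0,[(1,0),(28,0)]⟩,⟨1,[(0,1),(14,1),(16,0),(0,0)]⟩⟩,⟨true,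
  0,⟨7,[(5,1),(8,3),(5,2),(0,0)]⟩,⟨0,[(15,0)]⟩⟩,⟨false,0,⟨0,[]⟩,⟨3,[(12,0),(0,0),(19,1)]⟩⟩,⟨true,0,
  ⟨0,[(0,0)]⟩,⟨0,[(1,0),(13,0),(14,0)]⟩⟩,⟨true,0,⟨0,[(30,0)]⟩,⟨0,[(31,0)]⟩⟩,⟨false,1,⟨15,[(0,7),(2,
  1),(0,1),(5,1),(2,3),(0,3),(10,2),(6,1),(0,8)]⟩,⟨0,[(1,0),(13,0)]⟩⟩,[]⟩)) (.Q [0,-1,0,1,1,0,0,0,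
  -1,0,0,1] (.p true [0,0,0,1] [] (⟨0,[(14,0)]⟩,⟨1,[(13,0),(8,0),(0,0)]⟩) .k 0 (⟨0,[]⟩,⟨0,[]⟩) .k
  .k) (.Q [0,0,0,0,0,1,0,0,0,0,0,-1] (.p false [0,0,0,1] [] (⟨0,[(15,0)]⟩,⟨1,[(14,0),(8,0),(0,0)]⟩)
  .k 0 (⟨0,[]⟩,⟨0,[]⟩) .k .k) (.I [1,1,1,1,-1,0,0,0,1] (.R ⟨0,false,false,false,[0,0,0,1],[1,-1],[0,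
  0,-1,-1],(⟨0,[(17,0)]⟩,⟨1,[(16,0),(8,0),(0,0)]⟩),(⟨0,[(28,0)]⟩,⟨0,[(29,0)]⟩),⟨0,[(1,0)]⟩,.k,.k,
  (.x 0 ⟨11,[(4,3),(1,1),(0,1),(10,1),(3,3),(4,0),(0,11),(6,0)]⟩ ⟨3,[(14,0),(0,0),(13,3),(4,1)]⟩),
  (.r 0 ⟨13,[(0,7),(8,1),(2,1),(2,2),(6,1),(12,4)]⟩ ⟨1,[(14,0),(18,1),(0,0)]⟩),.k,.k,⟨false,1,⟨3,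
  [(14,0),(0,0),(18,1)]⟩,⟨0,[]⟩⟩,⟨true,0,⟨3,[(0,0),(1,0),(1,1),(2,0),(9,2),(4,0)]⟩,⟨1,[(16,0),(8,0),
  (0,0)]⟩⟩,⟨true,1,⟨1,[(14,0),(18,1),(0,0)]⟩,⟨0,[(0,0)]⟩⟩,⟨false,1,⟨0,[(2,0),(1,0),(28,0)]⟩,⟨1,[(0,
  1),(15,0),(8,0),(0,0),(7,0),(0,0)]⟩⟩,⟨false,0,⟨0,[]⟩,⟨0,[]⟩⟩,⟨false,0,⟨0,[]⟩,⟨0,[]⟩⟩,[.o ⟨false,0,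
  ⟨0,[(4,0)]⟩,⟨15,[(2,7),(11,0),(0,4),(0,3),(10,1),(4,7)]⟩⟩,.o ⟨false,1,⟨1,[(27,0),(5,1),(1,0)]⟩,⟨0,
  [(32,0)]⟩⟩,.a ⟨true,0,⟨1,[(16,0),(8,0),(0,0)]⟩,⟨0,[(17,0)]⟩⟩ ⟨false,1,⟨1,[(33,1),(0,0),(0,0)]⟩,⟨5,
  [(6,0),(2,0),(2,1),(9,1),(12,0)]⟩⟩ ⟨true,0,⟨0,[(4,0),(12,0)]⟩,⟨1,[(12,1),(0,0),(2,0)]⟩⟩,.o ⟨false,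
  0,⟨7,[(7,1),(8,3),(5,2),(0,0)]⟩,⟨1,[(17,1),(9,0),(6,0)]⟩⟩]⟩) (.R ⟨0,false,false,true,[0,0,0,1],[0,
  1],[],(⟨0,[(17,0)]⟩,⟨1,[(16,0),(8,0),(0,0)]⟩),(⟨0,[(29,0)]⟩,⟨0,[(28,0)]⟩),⟨0,[(1,0)]⟩,.k,.k,(.r
  (-1) ⟨1,[(15,0),(17,1),(0,0)]⟩ ⟨0,[(0,0),(5,0),(1,0),(9,0)]⟩),(.r (-1) ⟨1,[(15,0),(17,1),(0,0)]⟩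
  ⟨0,[(0,0),(5,0),(1,0),(9,0)]⟩),.k,.k,⟨true,1,⟨0,[(0,0),(2,0)]⟩,⟨0,[(6,0),(1,0),(9,0),(14,0)]⟩⟩,
  ⟨false,1,⟨0,[(17,0),(16,0)]⟩,⟨7,[(7,1),(8,3),(5,2),(0,0)]⟩⟩,⟨false,1,⟨1,[(14,0),(20,0)]⟩,⟨0,[(3,
  0)]⟩⟩,⟨true,0,⟨0,[(0,0),(5,0),(1,0),(8,0),(0,0),(12,0)]⟩,⟨1,[(3,1),(0,0),(11,0),(16,0)]⟩⟩,⟨false,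
  0,⟨0,[]⟩,⟨0,[]⟩⟩,⟨false,0,⟨0,[]⟩,⟨0,[]⟩⟩,[.o ⟨false,0,⟨0,[(32,0)]⟩,⟨5,[(0,1),(3,1),(10,0),(11,1),
  (2,1),(4,0)]⟩⟩,.o ⟨false,1,⟨15,[(2,7),(11,0),(0,4),(0,3),(10,1),(4,7)]⟩,⟨0,[(4,0)]⟩⟩,.a ⟨true,0,
  ⟨1,[(16,0),(8,0),(0,0)]⟩,⟨0,[(17,0)]⟩⟩ ⟨false,1,⟨3,[(14,0),(0,0),(19,1)]⟩,⟨0,[]⟩⟩ ⟨true,0,⟨0,[(17,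
  0),(14,0)]⟩,⟨1,[(4,0),(11,0),(16,0)]⟩⟩,.o ⟨false,0,⟨7,[(7,1),(8,3),(5,2),(0,0)]⟩,⟨1,[(17,1),(9,0),
  (6,0)]⟩⟩]⟩)) (.Q [0,-1,0,-1,0,0,1,1,0,1,-1] (.p false [0,0,1] [1] (⟨0,[(25,0)]⟩,⟨0,[(24,0)]⟩) .k
  1 (⟨0,[]⟩,⟨0,[]⟩) .k .k) (.R ⟨2,true,false,true,[0,1],[1,1,-1],[1,1,1,1],(⟨0,[]⟩,⟨0,[]⟩),(⟨0,[(25,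
  0),(3,0)]⟩,⟨0,[(1,1),(8,0),(5,0)]⟩),⟨0,[]⟩,.k,.k,.k,.k,.k,.k,⟨true,0,⟨0,[(24,0)]⟩,⟨0,[(5,0),(12,
  0),(11,0)]⟩⟩,⟨false,1,⟨0,[(19,0),(14,0)]⟩,⟨0,[(8,0)]⟩⟩,⟨false,0,⟨0,[]⟩,⟨3,[(14,0),(0,0),(19,1)]⟩⟩,
  ⟨true,0,⟨0,[(18,0)]⟩,⟨2,[(0,0),(10,0),(1,0),(7,0)]⟩⟩,⟨true,0,⟨0,[(32,0)]⟩,⟨0,[(33,0)]⟩⟩,⟨false,1,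
  ⟨1,[(12,1),(14,0),(7,0)]⟩,⟨0,[(0,0)]⟩⟩,[]⟩) (.Q [0,-1,0,0,1,0,-1,-1,-1,-2,1,1] (.p true [-1,1,1]
  [1,0,0,-1] (⟨0,[(10,0)]⟩,⟨0,[(25,0),(2,0)]⟩) .k 2 (⟨1,[(16,0),(8,0),(0,0)]⟩,⟨0,[(17,0)]⟩) .k (.r
  0 ⟨0,[(3,0),(20,0)]⟩ ⟨1,[(8,1),(5,0),(3,1),(16,0)]⟩)) (.R ⟨1,false,false,false,[0,0,0,1],[2,-1,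
  -1],[1,0,0,0,0,0,0,0,1],(⟨0,[(18,0)]⟩,⟨1,[(17,0),(8,0),(0,0)]⟩),(⟨0,[(26,0),(2,0)]⟩,⟨0,[(11,0)]⟩),
  ⟨0,[(2,0)]⟩,.k,.k,(.r (-1) ⟨1,[(16,0),(17,1),(0,0)]⟩ ⟨1,[(0,1),(6,1),(1,1),(7,0),(8,0),(0,0),(4,
  1),(1,1)]⟩),(.r 0 ⟨1,[(7,0),(8,0),(8,0)]⟩ ⟨1,[(0,1),(8,1),(7,0),(8,0),(0,0),(4,1),(1,1)]⟩),.k,.k,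
  ⟨false,0,⟨1,[(4,1),(2,0),(17,0),(9,0)]⟩,⟨1,[(0,1),(8,1),(7,0),(8,0),(0,0),(4,1),(1,1)]⟩⟩,⟨true,0,
  ⟨3,[(0,0),(0,0),(2,0),(0,2),(1,0),(10,2),(1,1),(4,0)]⟩,⟨1,[(9,1),(7,0),(8,0),(0,0)]⟩⟩,⟨true,0,⟨0,
  []⟩,⟨0,[(38,0)]⟩⟩,⟨false,1,⟨0,[(0,0),(33,0)]⟩,⟨1,[(4,1),(7,1),(4,0),(8,0),(0,0)]⟩⟩,⟨false,1,⟨27,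
  [(1,5),(1,3),(2,5),(3,5),(5,1),(0,1),(10,0),(6,5),(0,14)]⟩,⟨0,[(34,0)]⟩⟩,⟨false,1,⟨0,[(0,0)]⟩,⟨1,
  [(4,1),(9,0),(2,0),(8,1),(0,1)]⟩⟩,[.o ⟨false,1,⟨3,[(0,1),(4,0),(10,0),(0,0),(1,1),(8,0),(5,2)]⟩,
  ⟨0,[(12,0)]⟩⟩,.o ⟨false,1,⟨0,[(5,0),(13,0),(16,0)]⟩,⟨0,[(13,0),(0,0)]⟩⟩,.a ⟨true,0,⟨1,[(17,0),(8,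
  0),(0,0)]⟩,⟨0,[(18,0)]⟩⟩ ⟨true,0,⟨0,[(4,0)]⟩,⟨1,[(0,1),(6,1),(1,1),(7,0),(8,0),(0,0),(4,3),(1,
  3)]⟩⟩ ⟨false,1,⟨0,[(0,0),(3,0),(29,0)]⟩,⟨1,[(12,1),(4,0),(8,0),(0,0)]⟩⟩,.o ⟨false,0,⟨7,[(8,1),(8,
  3),(5,2),(0,0)]⟩,⟨1,[(18,1),(9,0),(6,0)]⟩⟩]⟩) (.Q [0,0,0,1,0,0,1,1,-1,1,-1,1] (.p false [-1,1,1]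
  [0,0,0,1] (⟨0,[(11,0)]⟩,⟨0,[(26,0),(2,0)]⟩) .k 2 (⟨0,[(18,0)]⟩,⟨1,[(17,0),(8,0),(0,0)]⟩) .k (.x 0
  ⟨0,[(5,0),(0,0),(20,0)]⟩ ⟨1,[(24,1),(1,1),(1,0),(6,0)]⟩)) (.Q [0,-1,0,0,1,0,0,0,-2,-1,0,2] (.p
  true [0,0,0,1] [1,0,0,-1] (⟨0,[(19,0)]⟩,⟨1,[(18,0),(8,0),(0,0)]⟩) .k 2 (⟨1,[(18,0),(8,0),(0,0)]⟩,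
  ⟨0,[(19,0)]⟩) .k .k) (.R ⟨1,false,false,true,[1,0,0,-1],[0,0,0,1],[1,1,0,0,0,0,0,0,-1],(⟨1,[(19,
  0),(8,0),(0,0)]⟩,⟨0,[(20,0)]⟩),(⟨0,[(20,0)]⟩,⟨1,[(19,0),(8,0),(0,0)]⟩),⟨0,[(4,0),(14,0)]⟩,.k,.k,
  (.r (-1) ⟨1,[(17,0),(18,1),(0,0)]⟩ ⟨5,[(6,3),(2,1),(5,1),(2,0),(6,1),(12,0)]⟩),.k,(.r (-1) ⟨0,[(0,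
  0),(18,0),(14,0),(1,0)]⟩ ⟨5,[(6,9),(2,1),(5,1),(2,0),(6,1),(12,0)]⟩),.k,⟨false,1,⟨0,[(0,0),(18,0),
  (14,0)]⟩,⟨0,[(2,1),(0,1),(0,1),(2,1),(24,1),(5,1)]⟩⟩,⟨true,0,⟨0,[(19,0)]⟩,⟨17,[(3,1),(3,5),(1,1),
  (0,3),(9,35),(4,5),(4,0),(7,0)]⟩⟩,⟨false,0,⟨0,[]⟩,⟨3,[(17,0),(0,0),(19,1)]⟩⟩,⟨false,0,⟨0,[(6,1),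
  (12,0)]⟩,⟨0,[(0,0)]⟩⟩,⟨true,0,⟨0,[(35,0)]⟩,⟨0,[(36,0)]⟩⟩,⟨false,0,⟨0,[(2,1),(0,1),(3,0),(30,1)]⟩,
  ⟨0,[(0,0),(35,0)]⟩⟩,[.o ⟨false,0,⟨7,[(2,3),(3,1),(11,0),(0,1),(1,3),(8,2)]⟩,⟨3,[(0,1),(29,0),(7,
  0)]⟩⟩,.o ⟨false,0,⟨0,[(2,0),(0,0),(3,0),(30,0)]⟩,⟨7,[(0,3),(16,0),(0,0),(11,1),(9,3)]⟩⟩,.a ⟨true,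
  0,⟨0,[(20,0)]⟩,⟨1,[(19,0),(8,0),(0,0)]⟩⟩ ⟨true,0,⟨1,[(0,0),(0,0),(0,0),(4,0),(11,0),(1,1)]⟩,⟨0,
  [(2,0),(0,0),(0,0),(2,0),(24,0),(5,0)]⟩⟩ ⟨false,0,⟨0,[(6,0),(12,0)]⟩,⟨3,[(0,1),(19,3),(9,0),(7,
  0)]⟩⟩,.o ⟨false,0,⟨17,[(3,1),(3,5),(1,1),(0,3),(9,17),(4,5),(4,0),(7,0)]⟩,⟨7,[(17,0),(0,0),(0,3),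
  (10,1),(6,3)]⟩⟩]⟩) (.I [1,1,-1,0,0,0,0,-1,1] (.R ⟨1,false,false,true,[1,0,0,-1],[2,-1,-1],[0,0,0,
  -1,0,0,0,0,-1],(⟨1,[(20,0),(8,0),(0,0)]⟩,⟨0,[(21,0)]⟩),(⟨0,[(29,0),(2,0)]⟩,⟨0,[(14,0)]⟩),⟨0,[(5,
  0),(14,0)]⟩,.k,.k,(.r (-1) ⟨1,[(18,0),(18,1),(0,0)]⟩ ⟨5,[(0,1),(9,2),(5,0),(2,1),(6,0),(7,0),(4,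
  0)]⟩),(.r 0 ⟨1,[(10,0),(7,0),(9,0)]⟩ ⟨3,[(0,3),(17,0),(0,0),(17,3),(1,1)]⟩),.k,.k,⟨false,1,⟨1,
  [(18,0),(9,1),(10,0)]⟩,⟨0,[(0,0)]⟩⟩,⟨true,0,⟨11,[(4,1),(3,5),(1,1),(9,5),(2,9),(14,0),(0,0)]⟩,⟨0,
  [(12,0),(8,0)]⟩⟩,⟨true,0,⟨0,[(37,0)]⟩,⟨0,[(36,0)]⟩⟩,⟨true,0,⟨5,[(1,1),(6,2),(10,0),(0,0),(1,5),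
  (14,2),(1,0)]⟩,⟨0,[(2,0)]⟩⟩,⟨false,1,⟨3,[(18,0),(0,0),(19,1)]⟩,⟨0,[]⟩⟩,⟨true,0,⟨3,[(1,1),(20,3),
  (8,0),(7,0)]⟩,⟨0,[(2,0),(34,0)]⟩⟩,[.o ⟨false,0,⟨0,[(8,0),(13,0)]⟩,⟨3,[(6,1),(8,1),(1,0),(1,0),(0,
  0),(18,0)]⟩⟩,.o ⟨false,1,⟨1,[(22,1),(8,0),(5,1),(1,0)]⟩,⟨0,[(15,0)]⟩⟩,.a ⟨true,0,⟨0,[(21,0)]⟩,⟨1,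
  [(20,0),(8,0),(0,0)]⟩⟩ ⟨false,1,⟨1,[(18,0),(18,1),(1,0)]⟩,⟨3,[(0,1),(6,1),(2,1),(27,0),(0,0)]⟩⟩
  ⟨true,0,⟨1,[(8,0),(11,0),(1,1),(14,0)]⟩,⟨0,[(15,0),(5,0)]⟩⟩,.o ⟨false,0,⟨17,[(4,1),(3,5),(1,1),(0,
  3),(9,17),(4,5),(4,0),(7,0)]⟩,⟨7,[(18,0),(0,0),(0,3),(10,1),(6,3)]⟩⟩]⟩) (.Q [0,0,-2,0,1,0,-1,0,0,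
  0,1,-1] (.p true [0,0,1] [0,0,0,1] (⟨0,[(30,0)]⟩,⟨0,[(29,0)]⟩) .k 2 (⟨0,[(21,0)]⟩,⟨1,[(20,0),(8,
  0),(0,0)]⟩) .k (.r 0 ⟨0,[(0,0),(34,0)]⟩ ⟨1,[(12,1),(6,0),(2,1),(16,0)]⟩)) (.R ⟨1,false,false,true,
  [1,0,0,-1],[1,1,-1],[0,0,0,-1,0,0,0,0,-1],(⟨1,[(21,0),(8,0),(0,0)]⟩,⟨0,[(22,0)]⟩),(⟨0,[(30,0),(3,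
  0)]⟩,⟨0,[(6,1),(8,0),(5,0)]⟩),⟨0,[(6,0),(14,0)]⟩,.k,.k,(.r (-1) ⟨1,[(19,0),(18,1),(0,0)]⟩ ⟨5,[(8,
  3),(2,1),(5,1),(2,0),(6,1),(12,0)]⟩),(.r (-1) ⟨1,[(19,0),(9,1),(8,1),(0,0)]⟩ ⟨0,[(5,0),(2,0),(1,
  0),(24,0)]⟩),(.r (-1) ⟨0,[(0,0),(2,0),(5,0),(28,1)]⟩ ⟨2,[(5,1),(2,2),(1,1),(0,0),(5,1),(9,1),(7,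
  1),(4,0)]⟩),.k,⟨true,1,⟨0,[(1,0),(36,1),(0,0)]⟩,⟨1,[(2,0),(2,1),(3,0),(0,2),(0,0),(10,1),(0,0),
  (11,1)]⟩⟩,⟨false,1,⟨0,[(0,0)]⟩,⟨0,[(22,0),(4,0)]⟩⟩,⟨true,0,⟨0,[(38,0)]⟩,⟨0,[(37,0)]⟩⟩,⟨true,0,⟨5,
  [(2,1),(2,2),(11,2),(2,0),(0,0),(18,0)]⟩,⟨0,[(3,0),(5,0),(28,0)]⟩⟩,⟨false,1,⟨3,[(19,0),(0,0),(19,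
  1)]⟩,⟨0,[]⟩⟩,⟨true,0,⟨9,[(0,1),(1,3),(2,7),(4,3),(0,1),(5,3),(2,0),(19,2)]⟩,⟨0,[(3,0),(5,0),(28,
  1)]⟩⟩,[.o ⟨false,0,⟨0,[(5,0)]⟩,⟨7,[(18,3),(0,0),(0,0),(11,1),(5,7),(1,3)]⟩⟩,.o ⟨false,1,⟨1,[(17,
  1),(14,0),(7,0)]⟩,⟨1,[(9,0),(8,0),(19,0)]⟩⟩,.a ⟨true,0,⟨0,[(22,0)]⟩,⟨1,[(21,0),(8,0),(0,0)]⟩⟩
  ⟨false,1,⟨1,[(19,0),(18,1),(1,0)]⟩,⟨2,[(2,0),(2,0),(2,0),(0,0),(0,0),(0,0),(10,1),(16,0),(0,0)]⟩⟩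
  ⟨true,0,⟨1,[(5,0),(11,0),(3,0)]⟩,⟨1,[(9,0),(8,0),(3,1),(15,0)]⟩⟩,.o ⟨false,0,⟨17,[(5,1),(3,5),(1,
  1),(0,3),(9,17),(4,5),(4,0),(7,0)]⟩,⟨7,[(19,0),(0,0),(0,3),(10,1),(6,3)]⟩⟩]⟩) (.Q [0,0,-2,0,1,0,
  -1,0,0,0,1] (.p true [0,0,1] [] (⟨0,[(31,0)]⟩,⟨0,[(30,0)]⟩) .k 0 (⟨0,[]⟩,⟨0,[]⟩) .k .k) (.K ⟨0,[1,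
  1,-1],1,0,(⟨0,[(31,0),(3,0)]⟩,⟨0,[(7,1),(8,0),(5,0)]⟩),.k,.k,(.r 0 ⟨10,[(1,3),(4,3),(4,1),(0,2),
  (5,9),(3,1),(5,7),(12,6)]⟩ ⟨1,[(0,1),(9,0),(8,0),(19,2)]⟩),.k,.k,[⟨1,[(1,1),(20,0),(8,0),(0,0)]⟩,
  ⟨0,[(0,0)]⟩,⟨11,[(5,3),(13,3),(0,2),(0,0),(1,3),(15,11),(3,7)]⟩,⟨0,[(6,0)]⟩]⟩) (.K ⟨2,[0,-1,1],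
  (-1),0,(⟨0,[(7,1),(8,0),(5,0)]⟩,⟨0,[(31,0),(3,0)]⟩),.k,(.r (-1) ⟨0,[(30,0),(8,1),(0,0)]⟩ ⟨12,[(0,
  7),(5,3),(4,3),(3,2),(2,11),(9,3),(12,7)]⟩),.k,.k,.k,[⟨0,[(39,0)]⟩,⟨0,[(18,0)]⟩,⟨3,[(20,0),(0,0),
  (7,3),(10,1)]⟩,⟨0,[(0,0)]⟩]⟩))))) (.R ⟨1,false,false,false,[0,0,0,1],[-1,1,1],[1,1,0,0,0,0,0,0,1],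
  (⟨0,[(19,0)]⟩,⟨1,[(18,0),(8,0),(0,0)]⟩),(⟨0,[(12,0)]⟩,⟨0,[(27,0),(2,0)]⟩),⟨0,[(3,0)]⟩,.k,.k,(.x 0
  ⟨2,[(3,1),(5,0),(8,0),(5,0),(5,0)]⟩ ⟨3,[(16,0),(0,0),(13,3),(4,1)]⟩),(.r (-1) ⟨9,[(0,7),(3,1),(5,
  9),(6,1),(1,5),(3,1),(5,0),(5,3),(0,4)]⟩ ⟨1,[(8,0),(7,0),(9,0)]⟩),(.r (-1) ⟨0,[(0,0),(9,0),(8,0),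
  (15,0),(0,0)]⟩ ⟨1,[(8,0),(2,0),(4,0)]⟩),.k,⟨true,0,⟨0,[(0,0),(9,0),(8,0),(13,0)]⟩,⟨3,[(8,2),(7,1),
  (9,0),(5,1),(4,0)]⟩⟩,⟨false,1,⟨0,[(10,0),(8,0),(16,0)]⟩,⟨11,[(2,1),(3,5),(1,1),(9,5),(2,9),(14,0),
  (0,0)]⟩⟩,⟨false,0,⟨0,[]⟩,⟨3,[(16,0),(0,0),(19,1)]⟩⟩,⟨false,1,⟨2,[(1,0),(2,3),(10,0),(19,0)]⟩,⟨0,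
  [(0,0)]⟩⟩,⟨true,0,⟨0,[(34,0)]⟩,⟨0,[(35,0)]⟩⟩,⟨false,1,⟨0,[(4,0),(8,0)]⟩,⟨0,[(0,0),(34,0)]⟩⟩,[.o
  ⟨false,0,⟨0,[(13,0)]⟩,⟨1,[(0,1),(15,0),(2,1),(9,0)]⟩⟩,.o ⟨false,1,⟨3,[(4,1),(8,1),(1,0),(1,0),(0,
  0),(18,0)]⟩,⟨0,[(6,0),(13,0)]⟩⟩,.a ⟨true,0,⟨1,[(18,0),(8,0),(0,0)]⟩,⟨0,[(19,0)]⟩⟩ ⟨false,0,⟨0,[(5,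
  0)]⟩,⟨1,[(16,0),(20,0)]⟩⟩ ⟨true,0,⟨0,[(13,0),(5,0)]⟩,⟨1,[(6,0),(11,0),(1,1),(14,0)]⟩⟩,.o ⟨false,0,
  ⟨7,[(9,1),(8,3),(5,2),(0,0)]⟩,⟨1,[(19,1),(9,0),(6,0)]⟩⟩]⟩))))) (.R ⟨2,true,false,true,[0,1],[0,0,
  0,1],[1,1,1,1],(⟨0,[]⟩,⟨0,[]⟩),(⟨0,[(15,0)]⟩,⟨1,[(14,0),(8,0),(0,0)]⟩),⟨0,[]⟩,.k,.k,.k,(.r (-1)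
  ⟨5,[(7,1),(2,1),(1,3),(0,0),(6,1),(12,0)]⟩ ⟨1,[(0,1),(14,1),(16,0),(0,0)]⟩),.k,.k,⟨false,1,⟨7,[(3,
  1),(3,1),(2,1),(1,3),(12,0),(6,1),(0,0)]⟩,⟨1,[(0,1),(14,1),(16,0),(0,0)]⟩⟩,⟨true,0,⟨7,[(5,1),(8,
  3),(5,2),(0,0)]⟩,⟨0,[(15,0)]⟩⟩,⟨false,0,⟨0,[]⟩,⟨3,[(12,0),(0,0),(19,1)]⟩⟩,⟨true,(-1),⟨0,[(0,0)]⟩,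
  ⟨7,[(3,1),(3,1),(2,1),(1,3),(2,7),(9,0),(6,1),(0,0)]⟩⟩,⟨true,0,⟨0,[(30,0)]⟩,⟨0,[(31,0)]⟩⟩,⟨false,
  0,⟨15,[(0,7),(0,7),(1,1),(0,1),(5,1),(3,3),(10,2),(6,1),(0,4)]⟩,⟨1,[(12,0),(2,1),(17,0)]⟩⟩,[]⟩))))

theorem ok3 : chk (cU (-1) false 3) t3 l7 = true := by decide +kernel

noncomputable def t4 : Tre :=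
  (.Q [0,0,0,0,0,0,-1,0,0,0,1] (.p true [0,0,1] [] (⟨0,[(21,0)]⟩,⟨0,[(20,0)]⟩) .k 0 (⟨0,[]⟩,⟨0,[]⟩)
  .k .k) (.R ⟨0,false,false,false,[1,0,-1],[0,1],[0,1],(⟨0,[(21,0)]⟩,⟨0,[(22,0)]⟩),(⟨0,[(25,0)]⟩,⟨0,
  [(24,0)]⟩),⟨0,[(6,0)]⟩,.k,.k,.k,.k,.k,.k,⟨true,0,⟨0,[(27,0),(1,0)]⟩,⟨1,[(2,0),(5,0),(9,0),(7,0),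
  (4,0)]⟩⟩,⟨false,1,⟨0,[(4,0),(25,0)]⟩,⟨0,[(15,0)]⟩⟩,⟨false,0,⟨0,[(20,0)]⟩,⟨0,[(4,0),(9,0),(16,
  0)]⟩⟩,⟨true,0,⟨0,[(7,0)]⟩,⟨0,[(14,0),(14,0)]⟩⟩,⟨false,0,⟨0,[]⟩,⟨0,[]⟩⟩,⟨false,0,⟨0,[]⟩,⟨0,[]⟩⟩,
  [.e ⟨false,0,⟨0,[(27,0)]⟩,⟨3,[(10,0),(0,0),(19,1)]⟩⟩ ⟨false,1,⟨1,[(4,1),(23,1),(1,0),(0,0)]⟩,⟨0,
  [(1,0)]⟩⟩,.o ⟨false,1,⟨0,[(28,0),(2,0)]⟩,⟨0,[(1,0),(16,0),(8,0)]⟩⟩,.a ⟨true,0,⟨0,[(0,0)]⟩,⟨0,[(4,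
  0)]⟩⟩ ⟨true,0,⟨0,[(33,0)]⟩,⟨0,[]⟩⟩ ⟨false,1,⟨0,[(4,0),(23,0),(2,0)]⟩,⟨0,[(1,0)]⟩⟩,.o ⟨false,0,⟨0,
  [(15,0)]⟩,⟨1,[(4,1),(18,0),(6,0)]⟩⟩]⟩) (.Q [0,0,0,0,0,1,0,0,0,0,-1] (.ed true [1,-1,1] .k) (.Q [0,
  0,0,0,0,0,-1,0,0,1,1] (.p true [1,-1,1] [] (⟨0,[(23,0),(1,0)]⟩,⟨0,[(0,0)]⟩) .k 0 (⟨0,[]⟩,⟨0,[]⟩)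
  .k .k) (.K ⟨0,[1,-1,1],0,0,(⟨0,[(24,0),(1,0)]⟩,⟨0,[(1,0)]⟩),.k,(.r (-1) ⟨3,[(0,0),(2,2),(7,1),(19,
  4),(0,3)]⟩ ⟨1,[(2,1),(1,0),(5,2),(9,0),(7,0),(4,0)]⟩),.k,.k,.k,[⟨0,[(0,0)]⟩,⟨0,[(2,0)]⟩,⟨1,[(0,0),
  (5,0),(3,1)]⟩,⟨0,[(2,0),(0,0),(14,0)]⟩]⟩) (.I [1,1,1,1,-1,0,0,0,-1] (.R ⟨0,false,false,true,[0,0,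
  0,1],[0,1],[1,1,1,1],(⟨0,[(16,0)]⟩,⟨1,[(15,0),(8,0),(0,0)]⟩),(⟨0,[(28,0)]⟩,⟨0,[(27,0)]⟩),⟨1,[(2,
  0),(6,0),(5,0)]⟩,.k,.k,(.r (-1) ⟨1,[(14,0),(17,1),(0,0)]⟩ ⟨13,[(0,7),(7,1),(2,1),(1,2),(7,1),(12,
  4)]⟩),(.r (-1) ⟨1,[(14,0),(17,1),(0,0)]⟩ ⟨13,[(0,7),(7,1),(2,1),(1,2),(7,1),(12,4)]⟩),.k,.k,⟨true,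
  0,⟨0,[]⟩,⟨1,[(21,0),(0,0)]⟩⟩,⟨false,1,⟨0,[(16,0),(16,0)]⟩,⟨7,[(6,1),(8,3),(5,2),(0,0)]⟩⟩,⟨true,
  (-1),⟨0,[(0,0)]⟩,⟨1,[(14,0),(17,1),(0,0)]⟩⟩,⟨false,0,⟨1,[(0,1),(15,1),(16,0),(0,0)]⟩,⟨3,[(1,0),(2,
  0),(9,1),(0,1),(16,2),(1,1)]⟩⟩,⟨false,0,⟨0,[]⟩,⟨0,[]⟩⟩,⟨false,0,⟨0,[]⟩,⟨0,[]⟩⟩,[.o ⟨false,0,⟨0,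
  [(31,0)]⟩,⟨1,[(26,0),(5,1),(1,0)]⟩⟩,.o ⟨false,1,⟨3,[(13,0),(0,0),(16,3),(2,1)]⟩,⟨1,[(1,0),(2,0),
  (27,0)]⟩⟩,.a ⟨true,0,⟨1,[(15,0),(8,0),(0,0)]⟩,⟨0,[(16,0)]⟩⟩ ⟨false,0,⟨5,[(5,0),(2,0),(2,1),(9,1),
  (12,0)]⟩,⟨1,[(32,1),(0,0),(0,0)]⟩⟩ ⟨true,0,⟨0,[(16,0),(14,0)]⟩,⟨3,[(1,0),(2,0),(10,1),(16,2)]⟩⟩,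
  .o ⟨false,0,⟨7,[(6,1),(8,3),(5,2),(0,0)]⟩,⟨1,[(16,1),(9,0),(6,0)]⟩⟩]⟩) (.I [0,-1,-1,-1,1,0,0,0,
  -1] (.Q [0,0,0,-1,0,0,0,0,1,0,0,-1] (.p false [0,0,0,1] [] (⟨0,[(17,0)]⟩,⟨1,[(16,0),(8,0),(0,
  0)]⟩) .k 0 (⟨0,[]⟩,⟨0,[]⟩) .k .k) (.R ⟨0,false,false,true,[0,0,0,1],[0,1],[1,1,1,1],(⟨0,[(18,0)]⟩,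
  ⟨1,[(17,0),(8,0),(0,0)]⟩),(⟨0,[(30,0)]⟩,⟨0,[(29,0)]⟩),⟨1,[(4,0),(6,0),(5,0)]⟩,.k,.k,(.r (-1) ⟨0,
  [(2,0),(35,0)]⟩ ⟨1,[(1,1),(1,0),(3,1),(1,0),(12,1)]⟩),(.r (-1) ⟨0,[(2,0),(35,0)]⟩ ⟨1,[(1,1),(1,0),
  (3,1),(1,0),(12,1)]⟩),.k,.k,⟨true,0,⟨0,[]⟩,⟨1,[(23,0),(0,0)]⟩⟩,⟨false,1,⟨0,[(18,0),(16,0)]⟩,⟨7,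
  [(8,1),(8,3),(5,2),(0,0)]⟩⟩,⟨false,0,⟨1,[(1,1),(1,0),(3,1),(1,0),(12,1)]⟩,⟨0,[(2,0)]⟩⟩,⟨true,0,⟨1,
  [(1,1),(1,0),(3,1),(1,0),(8,1),(3,1),(9,1)]⟩,⟨0,[(0,0)]⟩⟩,⟨false,0,⟨0,[]⟩,⟨0,[]⟩⟩,⟨false,0,⟨0,[]⟩,
  ⟨0,[]⟩⟩,[.o ⟨false,0,⟨0,[(33,0)]⟩,⟨3,[(1,0),(0,0),(25,1),(2,1)]⟩⟩,.o ⟨false,1,⟨3,[(15,0),(0,0),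
  (16,3),(2,1)]⟩,⟨1,[(3,0),(2,0),(27,0)]⟩⟩,.a ⟨true,0,⟨1,[(17,0),(8,0),(0,0)]⟩,⟨0,[(18,0)]⟩⟩ ⟨false,
  0,⟨5,[(7,0),(2,0),(2,1),(9,1),(12,0)]⟩,⟨1,[(1,0),(0,0)]⟩⟩ ⟨true,0,⟨0,[(18,0),(14,0)]⟩,⟨3,[(3,0),
  (2,0),(10,1),(16,2)]⟩⟩,.o ⟨false,0,⟨7,[(8,1),(8,3),(5,2),(0,0)]⟩,⟨1,[(18,1),(9,0),(6,0)]⟩⟩]⟩) (.R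
  ⟨0,false,false,false,[0,0,0,1],[0,1],[0,1],(⟨0,[(18,0)]⟩,⟨1,[(17,0),(8,0),(0,0)]⟩),(⟨0,[(30,0)]⟩,
  ⟨0,[(29,0)]⟩),⟨1,[(4,0),(6,0),(5,0)]⟩,.k,.k,(.r (-1) ⟨0,[(2,0),(35,0)]⟩ ⟨9,[(0,3),(2,1),(3,2),(5,
  2),(1,2),(1,1),(5,0),(7,2)]⟩),(.r (-1) ⟨0,[(2,0),(35,0)]⟩ ⟨9,[(0,3),(2,1),(3,2),(5,2),(1,2),(1,1),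
  (5,0),(7,2)]⟩),.k,.k,⟨true,0,⟨0,[(32,0),(1,0)]⟩,⟨1,[(7,0),(5,0),(9,0),(7,0),(4,0)]⟩⟩,⟨false,1,⟨0,
  [(18,0),(16,0)]⟩,⟨7,[(8,1),(8,3),(5,2),(0,0)]⟩⟩,⟨false,0,⟨3,[(0,3),(2,0),(2,0),(10,1),(16,2)]⟩,⟨1,
  [(16,0),(19,0)]⟩⟩,⟨true,0,⟨0,[(0,0)]⟩,⟨3,[(2,3),(0,0),(3,3),(1,2),(7,1),(1,3),(12,3),(1,7)]⟩⟩,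
  ⟨false,0,⟨0,[]⟩,⟨0,[]⟩⟩,⟨false,0,⟨0,[]⟩,⟨0,[]⟩⟩,[.o ⟨false,1,⟨3,[(15,0),(0,0),(16,3),(2,1)]⟩,⟨1,
  [(3,0),(2,0),(27,0)]⟩⟩,.o ⟨false,1,⟨0,[(33,0),(2,0)]⟩,⟨3,[(3,0),(2,0),(12,1),(1,1),(12,2)]⟩⟩,.a
  ⟨true,0,⟨1,[(17,0),(8,0),(0,0)]⟩,⟨0,[(18,0)]⟩⟩ ⟨true,0,⟨0,[(38,0)]⟩,⟨0,[]⟩⟩ ⟨false,1,⟨1,[(0,1),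
  (15,0),(19,0)]⟩,⟨3,[(3,0),(2,0),(10,1),(16,2)]⟩⟩,.o ⟨false,0,⟨7,[(8,1),(8,3),(5,2),(0,0)]⟩,⟨1,
  [(18,1),(9,0),(6,0)]⟩⟩]⟩)) (.R ⟨0,false,false,false,[0,0,0,1],[1,-1],[0,0,-1,-1],(⟨0,[(17,0)]⟩,⟨1,
  [(16,0),(8,0),(0,0)]⟩),(⟨0,[(28,0)]⟩,⟨0,[(29,0)]⟩),⟨1,[(3,0),(6,0),(5,0)]⟩,.k,.k,(.x 0 ⟨4,[(2,0),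
  (4,1),(14,0),(5,4)]⟩ ⟨3,[(14,0),(0,0),(13,3),(4,1)]⟩),(.r 0 ⟨13,[(0,7),(8,1),(2,1),(2,2),(6,1),
  (12,4)]⟩ ⟨1,[(14,0),(18,1),(0,0)]⟩),.k,.k,⟨false,1,⟨3,[(14,0),(0,0),(18,1)]⟩,⟨0,[]⟩⟩,⟨true,0,⟨4,
  [(2,0),(4,1),(9,4),(4,0)]⟩,⟨1,[(16,0),(8,0),(0,0)]⟩⟩,⟨true,1,⟨1,[(14,0),(18,1),(0,0)]⟩,⟨0,[(0,
  0)]⟩⟩,⟨false,1,⟨1,[(2,0),(2,0),(8,0),(2,1),(15,0),(1,0)]⟩,⟨1,[(0,1),(15,0),(8,0),(0,0),(7,0),(0,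
  0)]⟩⟩,⟨false,0,⟨0,[]⟩,⟨0,[]⟩⟩,⟨false,0,⟨0,[]⟩,⟨0,[]⟩⟩,[.o ⟨false,0,⟨1,[(2,0),(2,0),(27,0)]⟩,⟨3,
  [(14,0),(0,0),(16,3),(2,1)]⟩⟩,.o ⟨false,1,⟨9,[(1,3),(0,1),(2,1),(8,1),(12,2),(2,3),(4,0)]⟩,⟨0,
  [(32,0)]⟩⟩,.a ⟨true,0,⟨1,[(16,0),(8,0),(0,0)]⟩,⟨0,[(17,0)]⟩⟩ ⟨false,1,⟨1,[(33,1),(0,0),(0,0)]⟩,⟨5,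
  [(6,0),(2,0),(2,1),(9,1),(12,0)]⟩⟩ ⟨true,0,⟨1,[(2,0),(2,0),(11,1),(15,0)]⟩,⟨1,[(12,1),(0,0),(2,
  0)]⟩⟩,.o ⟨false,0,⟨7,[(7,1),(8,3),(5,2),(0,0)]⟩,⟨1,[(17,1),(9,0),(6,0)]⟩⟩]⟩)))) (.Q [0,-1,0,-2,0,
  0,1,1,0,0,-1] (.p false [0,0,1] [] (⟨0,[(23,0)]⟩,⟨0,[(22,0)]⟩) .k 0 (⟨0,[]⟩,⟨0,[]⟩) .k .k) (.Q [0,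
  0,-2,0,1,0,-1,0,0,0,1] (.p true [0,0,1] [] (⟨0,[(24,0)]⟩,⟨0,[(23,0)]⟩) .k 0 (⟨0,[]⟩,⟨0,[]⟩) .k
  .k) (.I [0,0,-1,-2,0,0,0,1] (.R ⟨1,true,false,true,[0,0,1],[0,1],[0,1,0,-1,0,0,0,1],(⟨0,[(26,0)]⟩,
  ⟨0,[(25,0)]⟩),(⟨0,[(29,0)]⟩,⟨0,[(28,0)]⟩),⟨0,[(3,0)]⟩,.k,.k,.k,.k,(.r (-1) ⟨3,[(0,3),(13,0),(0,0),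
  (18,1)]⟩ ⟨1,[(4,1),(1,0),(5,2),(9,0),(7,0),(4,0)]⟩),.k,⟨true,0,⟨0,[(0,0)]⟩,⟨1,[(4,1),(1,0),(5,2),
  (9,0),(7,0),(4,0)]⟩⟩,⟨false,1,⟨0,[(1,0)]⟩,⟨0,[(22,0)]⟩⟩,⟨false,0,⟨0,[(33,0)]⟩,⟨0,[(32,0),(2,0)]⟩⟩,
  ⟨true,0,⟨0,[(12,0)]⟩,⟨1,[(2,0),(17,0)]⟩⟩,⟨true,0,⟨0,[(37,0)]⟩,⟨0,[]⟩⟩,⟨false,1,⟨0,[(12,0),(19,0),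
  (2,0)]⟩,⟨0,[(2,0)]⟩⟩,[]⟩) (.Q [0,0,2,0,-1,0,1,0,0,1,-1] (.p false [0,0,1] [1] (⟨0,[(26,0)]⟩,⟨0,
  [(25,0)]⟩) .k 1 (⟨0,[]⟩,⟨0,[]⟩) .k .k) (.K ⟨0,[1,1,-1],1,0,(⟨0,[(26,0),(3,0)]⟩,⟨0,[(4,0)]⟩),.k,.k,
  (.r 0 ⟨6,[(0,1),(0,6),(6,0),(6,0),(0,0),(7,0)]⟩ ⟨0,[(2,0),(0,0),(34,0)]⟩),.k,.k,[⟨0,[(0,0)]⟩,⟨0,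
  [(2,0)]⟩,⟨1,[(3,0),(10,1),(7,2)]⟩,⟨0,[(1,0),(4,0),(25,0)]⟩]⟩) (.I [0,0,1,1,0,0,0,0,-1] (.Q [0,0,0,
  1,0,0,0,0,-1,0,0,1] (.p true [0,0,0,1] [] (⟨0,[(19,0)]⟩,⟨1,[(18,0),(8,0),(0,0)]⟩) .k 0 (⟨0,[]⟩,⟨0,
  []⟩) .k .k) (.Q [0,0,0,0,0,1,0,0,0,0,0,-1] (.p false [0,0,0,1] [] (⟨0,[(20,0)]⟩,⟨1,[(19,0),(8,0),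
  (0,0)]⟩) .k 0 (⟨0,[]⟩,⟨0,[]⟩) .k .k) (.Q [0,1,0,1,-1,0,1,1,-1,1,-1,1] (.p false [-1,1,1] [0,0,0,
  1] (⟨0,[(14,0)]⟩,⟨0,[(29,0),(2,0)]⟩) .k 2 (⟨0,[(21,0)]⟩,⟨1,[(20,0),(8,0),(0,0)]⟩) .k (.r 0 ⟨5,[(1,
  3),(4,1),(2,1),(0,0),(7,0),(1,1),(7,2),(6,1)]⟩ ⟨1,[(12,1),(6,0),(2,1),(16,0)]⟩)) (.R ⟨0,false,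
  false,true,[0,0,0,1],[0,1],[1,1,1,1],(⟨0,[(22,0)]⟩,⟨1,[(21,0),(8,0),(0,0)]⟩),(⟨0,[(34,0)]⟩,⟨0,
  [(33,0)]⟩),⟨0,[(1,0)]⟩,.k,.k,(.r (-1) ⟨1,[(7,0),(12,0),(5,0),(12,0)]⟩ ⟨0,[(3,0)]⟩),(.r (-1) ⟨1,
  [(7,0),(12,0),(5,0),(12,0)]⟩ ⟨0,[(3,0)]⟩),.k,.k,⟨true,0,⟨0,[]⟩,⟨1,[(27,0),(0,0)]⟩⟩,⟨false,1,⟨0,
  [(22,0),(16,0)]⟩,⟨7,[(12,1),(8,3),(5,2),(0,0)]⟩⟩,⟨true,(-1),⟨1,[(0,1),(4,1),(1,0),(2,1),(10,0),(1,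
  0)]⟩,⟨1,[(7,0),(12,0),(5,0),(12,0)]⟩⟩,⟨false,0,⟨0,[(2,0)]⟩,⟨1,[(7,0),(12,0),(0,0),(1,0),(16,0)]⟩⟩,
  ⟨false,0,⟨0,[]⟩,⟨0,[]⟩⟩,⟨false,0,⟨0,[]⟩,⟨0,[]⟩⟩,[.o ⟨false,0,⟨0,[(37,0)]⟩,⟨1,[(7,0),(18,0),(5,0),
  (7,0)]⟩⟩,.o ⟨false,1,⟨15,[(5,3),(8,3),(4,4),(0,4),(18,5)]⟩,⟨0,[(9,0),(0,0)]⟩⟩,.a ⟨true,0,⟨1,[(21,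
  0),(8,0),(0,0)]⟩,⟨0,[(22,0)]⟩⟩ ⟨false,0,⟨7,[(5,1),(8,1),(12,0),(0,0)]⟩,⟨1,[(7,0),(18,0),(12,0),(0,
  0)]⟩⟩ ⟨true,0,⟨0,[(22,0),(14,0)]⟩,⟨1,[(7,0),(13,0),(1,0)]⟩⟩,.o ⟨false,0,⟨7,[(12,1),(8,3),(5,2),(0,
  0)]⟩,⟨1,[(22,1),(9,0),(6,0)]⟩⟩]⟩) (.R ⟨0,false,false,false,[0,0,0,1],[0,1],[0,1],(⟨0,[(22,0)]⟩,⟨1,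
  [(21,0),(8,0),(0,0)]⟩),(⟨0,[(34,0)]⟩,⟨0,[(33,0)]⟩),⟨0,[(1,0)]⟩,.k,.k,(.r (-1) ⟨1,[(7,0),(12,0),(5,
  0),(12,0)]⟩ ⟨0,[(3,0)]⟩),(.r (-1) ⟨1,[(7,0),(12,0),(5,0),(12,0)]⟩ ⟨0,[(3,0)]⟩),.k,.k,⟨true,0,⟨1,
  [(7,0),(18,0),(9,1)]⟩,⟨6,[(5,2),(5,0),(2,1),(20,4),(4,0)]⟩⟩,⟨false,1,⟨0,[(22,0),(16,0)]⟩,⟨7,[(12,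
  1),(8,3),(5,2),(0,0)]⟩⟩,⟨false,0,⟨1,[(2,1),(4,0),(13,0),(1,0)]⟩,⟨1,[(20,0),(19,0)]⟩⟩,⟨true,0,⟨0,
  [(2,0)]⟩,⟨0,[(0,0),(6,0),(3,0),(1,0),(12,0),(9,1)]⟩⟩,⟨false,0,⟨0,[]⟩,⟨0,[]⟩⟩,⟨false,0,⟨0,[]⟩,⟨0,
  []⟩⟩,[.o ⟨false,1,⟨15,[(5,3),(8,3),(4,4),(0,4),(18,5)]⟩,⟨0,[(9,0),(0,0)]⟩⟩,.o ⟨false,1,⟨15,[(5,3),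
  (8,3),(4,0),(0,0),(18,5),(0,7)]⟩,⟨1,[(7,0),(15,1),(1,0)]⟩⟩,.a ⟨true,0,⟨1,[(21,0),(8,0),(0,0)]⟩,⟨0,
  [(22,0)]⟩⟩ ⟨true,0,⟨0,[(42,0)]⟩,⟨0,[]⟩⟩ ⟨false,1,⟨1,[(2,1),(17,0),(19,0)]⟩,⟨1,[(7,0),(13,0),(1,
  0)]⟩⟩,.o ⟨false,0,⟨7,[(12,1),(8,3),(5,2),(0,0)]⟩,⟨1,[(22,1),(9,0),(6,0)]⟩⟩]⟩)) (.I [1,1,-1,-1,0,0,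
  0,1,1] (.R ⟨1,false,false,false,[0,0,0,1],[1,1,-1],[1,1,0,0,0,0,0,0,1],(⟨0,[(22,0)]⟩,⟨1,[(21,0),
  (8,0),(0,0)]⟩),(⟨0,[(30,0),(3,0)]⟩,⟨0,[(8,0)]⟩),⟨0,[(1,0)]⟩,.k,.k,(.r (-1) ⟨1,[(7,0),(12,0),(5,0),
  (12,0)]⟩ ⟨0,[(3,0)]⟩),(.r (-1) ⟨3,[(0,3),(18,0),(0,0),(19,1)]⟩ ⟨5,[(2,5),(2,1),(3,2),(3,0),(7,2),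
  (1,3),(11,3)]⟩),(.r (-1) ⟨3,[(0,1),(5,1),(0,2),(12,0),(5,0),(12,0)]⟩ ⟨2,[(3,2),(1,1),(7,0),(9,0),
  (11,0)]⟩),.k,⟨true,0,⟨0,[(0,0)]⟩,⟨1,[(2,1),(2,1),(1,0),(13,0),(1,0),(11,1)]⟩⟩,⟨false,1,⟨0,[(4,0),
  (17,0)]⟩,⟨3,[(13,1),(7,1),(5,2),(0,0)]⟩⟩,⟨false,0,⟨0,[]⟩,⟨3,[(19,0),(0,0),(19,1)]⟩⟩,⟨false,1,⟨0,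
  [(2,0),(20,0),(16,0)]⟩,⟨1,[(0,1),(4,1),(1,1),(13,0),(8,0),(0,0)]⟩⟩,⟨true,0,⟨0,[(37,0)]⟩,⟨0,[(38,
  0)]⟩⟩,⟨false,1,⟨2,[(2,2),(1,0),(0,1),(4,0),(12,0),(16,1)]⟩,⟨1,[(0,1),(8,0),(3,0),(7,0),(13,1)]⟩⟩,
  [.o ⟨false,1,⟨1,[(17,1),(14,0),(7,0)]⟩,⟨1,[(7,0),(17,0)]⟩⟩,.o ⟨false,1,⟨2,[(4,0),(0,1),(4,0),(12,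
  0),(16,1)]⟩,⟨1,[(7,0),(17,0),(16,1)]⟩⟩,.a ⟨true,0,⟨1,[(21,0),(8,0),(0,0)]⟩,⟨0,[(22,0)]⟩⟩ ⟨true,0,
  ⟨2,[(0,2),(4,1),(7,0),(9,0),(11,0)]⟩,⟨1,[(2,1),(4,0),(13,0),(1,0)]⟩⟩ ⟨false,1,⟨2,[(4,0),(0,1),(4,
  0),(11,2),(0,0),(16,1)]⟩,⟨1,[(7,0),(10,0),(2,0),(4,0)]⟩⟩,.o ⟨false,0,⟨7,[(12,1),(8,3),(5,2),(0,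
  0)]⟩,⟨1,[(22,1),(9,0),(6,0)]⟩⟩]⟩) (.R ⟨1,false,false,false,[1,0,0,-1],[0,0,1],[1,1,0,0,0,0,0,0,
  -1],(⟨1,[(21,0),(8,0),(0,0)]⟩,⟨0,[(22,0)]⟩),(⟨0,[(31,0)]⟩,⟨0,[(30,0)]⟩),⟨0,[(1,0),(19,0)]⟩,.k,.k,
  (.x 0 ⟨2,[(1,1),(10,0),(8,0),(5,0),(5,0)]⟩ ⟨3,[(19,0),(0,0),(13,3),(4,1)]⟩),.k,(.r (-1) ⟨3,[(0,1),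
  (6,2),(5,1),(5,0),(3,1),(2,2),(12,2)]⟩ ⟨1,[(11,0),(8,0),(8,0)]⟩),.k,⟨false,0,⟨1,[(0,1),(6,0),(18,
  0),(9,3)]⟩,⟨1,[(20,0),(8,1),(10,0)]⟩⟩,⟨true,0,⟨1,[(9,0),(3,0),(7,0)]⟩,⟨20,[(4,0),(5,5),(0,1),(0,
  6),(4,1),(4,20),(5,4),(11,0)]⟩⟩,⟨false,0,⟨0,[]⟩,⟨3,[(19,0),(0,0),(19,1)]⟩⟩,⟨false,1,⟨1,[(18,0),(1,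
  0),(0,0),(18,0)]⟩,⟨0,[(0,0),(9,0),(11,0),(13,0)]⟩⟩,⟨true,0,⟨0,[(37,0)]⟩,⟨0,[(38,0)]⟩⟩,⟨false,1,⟨9,
  [(4,1),(4,3),(1,1),(4,5),(1,0),(1,4),(0,4),(18,4)]⟩,⟨1,[(0,1),(6,0),(2,1),(11,1),(3,0),(9,1)]⟩⟩,
  [.o ⟨false,0,⟨9,[(4,0),(2,1),(1,2),(1,1),(6,2),(13,0),(3,1)]⟩,⟨1,[(26,1),(5,0),(7,0)]⟩⟩,.o ⟨false,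
  1,⟨7,[(18,3),(0,0),(0,0),(11,1),(7,3)]⟩,⟨0,[(23,0)]⟩⟩,.a ⟨true,0,⟨0,[(22,0)]⟩,⟨1,[(21,0),(8,0),(0,
  0)]⟩⟩ ⟨false,0,⟨1,[(2,1),(4,0),(13,0),(1,0)]⟩,⟨1,[(20,0),(19,0)]⟩⟩ ⟨true,0,⟨1,[(18,0),(2,0)]⟩,⟨0,
  [(22,0),(0,0)]⟩⟩,.o ⟨false,0,⟨1,[(9,0),(2,0),(9,1)]⟩,⟨7,[(19,0),(0,0),(0,3),(10,1),(6,3)]⟩⟩]⟩)))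
  (.Q [0,0,0,0,0,1,0,0,0,0,0,-1] (.p false [0,0,0,1] [] (⟨0,[(20,0)]⟩,⟨1,[(19,0),(8,0),(0,0)]⟩) .k
  0 (⟨0,[]⟩,⟨0,[]⟩) .k .k) (.R ⟨0,false,false,false,[0,0,0,1],[0,1],[1,0,1,1],(⟨0,[(21,0)]⟩,⟨1,[(20,
  0),(8,0),(0,0)]⟩),(⟨0,[(33,0)]⟩,⟨0,[(32,0)]⟩),⟨0,[(0,0)]⟩,.k,.k,(.r (-1) ⟨1,[(6,0),(12,0),(5,0),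
  (12,0)]⟩ ⟨0,[(2,0)]⟩),(.r (-1) ⟨1,[(6,0),(12,0),(5,0),(12,0)]⟩ ⟨0,[(2,0)]⟩),.k,.k,⟨true,0,⟨0,[]⟩,
  ⟨1,[(26,0),(0,0)]⟩⟩,⟨false,1,⟨0,[(21,0),(16,0)]⟩,⟨7,[(11,1),(8,3),(5,2),(0,0)]⟩⟩,⟨true,0,⟨0,[(2,
  0)]⟩,⟨0,[(1,0),(19,0),(13,0)]⟩⟩,⟨false,1,⟨1,[(2,1),(18,1),(16,0),(0,0)]⟩,⟨0,[(1,0)]⟩⟩,⟨false,0,⟨0,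
  []⟩,⟨0,[]⟩⟩,⟨false,0,⟨0,[]⟩,⟨0,[]⟩⟩,[.o ⟨false,1,⟨15,[(4,3),(8,3),(4,4),(0,4),(18,5)]⟩,⟨0,[(8,0),
  (0,0)]⟩⟩,.o ⟨false,1,⟨15,[(4,3),(8,3),(4,0),(0,0),(18,5),(0,7)]⟩,⟨1,[(6,0),(15,1),(1,0)]⟩⟩,.a
  ⟨true,0,⟨1,[(20,0),(8,0),(0,0)]⟩,⟨0,[(21,0)]⟩⟩ ⟨true,0,⟨7,[(4,1),(8,1),(12,0),(0,0)]⟩,⟨1,[(6,0),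
  (18,0),(9,1)]⟩⟩ ⟨false,1,⟨15,[(4,3),(8,3),(4,0),(0,0),(1,15),(16,5),(0,7)]⟩,⟨1,[(6,0),(13,0),(1,
  0)]⟩⟩,.o ⟨false,0,⟨7,[(11,1),(8,3),(5,2),(0,0)]⟩,⟨1,[(21,1),(9,0),(6,0)]⟩⟩]⟩) (.Q [0,1,0,0,0,0,-1,
  -1,-1,-2,1,1] (.p true [-1,1,1] [1,0,0,-1] (⟨0,[(14,0)]⟩,⟨0,[(29,0),(2,0)]⟩) .k 2 (⟨1,[(20,0),(8,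
  0),(0,0)]⟩,⟨0,[(21,0)]⟩) .k (.r 0 ⟨3,[(1,3),(1,0),(1,0),(4,1),(6,0),(3,3)]⟩ ⟨1,[(12,1),(5,0),(3,
  1),(16,0)]⟩)) (.R ⟨1,false,false,true,[0,0,0,1],[2,-1,-1],[0,1,0,-1,0,0,0,0,1],(⟨0,[(22,0)]⟩,⟨1,
  [(21,0),(8,0),(0,0)]⟩),(⟨0,[(30,0),(2,0)]⟩,⟨0,[(15,0)]⟩),⟨0,[(1,0)]⟩,.k,.k,(.r (-1) ⟨1,[(7,0),(12,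
  0),(5,0),(12,0)]⟩ ⟨0,[(3,0)]⟩),(.r 0 ⟨1,[(11,0),(8,0),(8,0)]⟩ ⟨1,[(0,1),(5,0),(0,0),(5,2),(7,0),
  (4,0),(13,0)]⟩),.k,.k,⟨false,0,⟨3,[(2,3),(1,0),(1,0),(4,1),(6,0),(3,3)]⟩,⟨1,[(0,1),(5,0),(6,2),(7,
  0),(18,0)]⟩⟩,⟨true,0,⟨13,[(0,10),(1,4),(1,0),(2,2),(2,4),(0,7),(8,2),(1,7),(17,3)]⟩,⟨1,[(13,1),(7,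
  0),(8,0),(0,0)]⟩⟩,⟨false,0,⟨0,[(38,0)]⟩,⟨15,[(5,3),(8,3),(4,0),(0,0),(18,5),(0,7)]⟩⟩,⟨true,0,⟨1,
  [(0,1),(6,0),(18,0)]⟩,⟨0,[(2,0),(3,0),(4,0),(1,1)]⟩⟩,⟨true,0,⟨0,[(42,0)]⟩,⟨0,[]⟩⟩,⟨true,0,⟨0,[(0,
  0)]⟩,⟨0,[(2,0),(13,0),(13,0),(0,0)]⟩⟩,[.o ⟨false,0,⟨0,[(0,0),(1,0)]⟩,⟨3,[(16,3),(2,0),(0,0),(19,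
  1)]⟩⟩,.o ⟨false,1,⟨3,[(0,3),(1,3),(16,0),(0,0),(19,1)]⟩,⟨0,[(16,0)]⟩⟩,.a ⟨true,0,⟨1,[(21,0),(8,0),
  (0,0)]⟩,⟨0,[(22,0)]⟩⟩ ⟨false,0,⟨0,[(2,0),(19,0)]⟩,⟨1,[(3,1),(35,0),(0,0)]⟩⟩ ⟨true,0,⟨0,[(0,0),(1,
  0),(19,0)]⟩,⟨1,[(16,1),(4,0),(8,0),(0,0)]⟩⟩,.o ⟨false,0,⟨7,[(12,1),(8,3),(5,2),(0,0)]⟩,⟨1,[(22,1),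
  (9,0),(6,0)]⟩⟩]⟩) (.I [0,1,-1,-1,0,0,0,-1,1] (.R ⟨1,false,false,false,[0,0,0,1],[1,1,-1],[1,0,0,0,
  0,0,0,0,1],(⟨0,[(23,0)]⟩,⟨1,[(22,0),(8,0),(0,0)]⟩),(⟨0,[(31,0),(3,0)]⟩,⟨0,[(9,0)]⟩),⟨0,[(2,0)]⟩,
  .k,.k,(.r (-1) ⟨5,[(0,1),(6,1),(0,1),(11,0),(0,2)]⟩ ⟨0,[(4,0)]⟩),(.r 0 ⟨1,[(0,0),(0,0),(3,0),(2,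
  0),(2,0),(0,0),(10,0),(13,0)]⟩ ⟨13,[(0,1),(5,9),(13,10),(0,2),(5,1),(0,1),(7,3)]⟩),(.r (-1) ⟨13,
  [(0,6),(0,0),(5,10),(0,5),(2,8),(7,6),(1,2),(1,0),(5,0)]⟩ ⟨2,[(4,2),(1,1),(7,0),(9,0),(11,0)]⟩),
  .k,⟨true,0,⟨1,[(0,0),(0,0),(3,0),(2,0),(2,0),(0,0),(10,0),(13,0)]⟩,⟨2,[(4,2),(1,0),(7,1),(9,1),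
  (11,1)]⟩⟩,⟨false,1,⟨0,[(5,0),(17,0)]⟩,⟨3,[(14,1),(7,1),(5,2),(0,0)]⟩⟩,⟨true,0,⟨0,[]⟩,⟨0,[(43,
  0)]⟩⟩,⟨true,1,⟨5,[(5,1),(0,3),(4,1),(8,2),(2,5),(0,1),(16,0)]⟩,⟨1,[(0,1),(7,1),(3,1),(9,0),(8,0),
  (0,0),(4,1)]⟩⟩,⟨false,1,⟨15,[(6,3),(8,3),(4,0),(0,0),(18,5),(0,7)]⟩,⟨0,[(39,0)]⟩⟩,⟨true,1,⟨2,[(4,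
  0),(0,1),(0,2),(4,0),(8,0),(2,2)]⟩,⟨1,[(0,1),(7,2),(3,1),(9,0),(4,0),(3,0),(0,0),(4,1)]⟩⟩,[.o
  ⟨false,1,⟨1,[(18,1),(14,0),(7,0)]⟩,⟨1,[(8,0),(17,0)]⟩⟩,.o ⟨false,1,⟨2,[(5,0),(0,1),(4,0),(12,0),
  (16,1)]⟩,⟨1,[(8,0),(17,0),(16,1)]⟩⟩,.a ⟨true,0,⟨1,[(22,0),(8,0),(0,0)]⟩,⟨0,[(23,0)]⟩⟩ ⟨true,0,⟨28,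
  [(0,19),(0,2),(3,3),(2,2),(2,1),(0,13),(8,2),(1,2),(17,6)]⟩,⟨1,[(4,1),(3,0),(18,0),(9,1)]⟩⟩
  ⟨false,1,⟨2,[(5,0),(0,1),(4,0),(11,2),(0,0),(16,1)]⟩,⟨1,[(8,0),(10,0),(2,0),(4,0)]⟩⟩,.o ⟨false,0,
  ⟨7,[(13,1),(8,3),(5,2),(0,0)]⟩,⟨1,[(23,1),(9,0),(6,0)]⟩⟩]⟩) (.R ⟨1,false,false,true,[0,0,0,1],[1,
  1,-1],[0,1,0,-1,0,0,0,0,1],(⟨0,[(23,0)]⟩,⟨1,[(22,0),(8,0),(0,0)]⟩),(⟨0,[(31,0),(3,0)]⟩,⟨0,[(9,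
  0)]⟩),⟨0,[(2,0)]⟩,.k,.k,(.r (-1) ⟨1,[(8,0),(12,0),(5,0),(12,0)]⟩ ⟨0,[(4,0)]⟩),(.x 0 ⟨0,[(9,0),(18,
  0)]⟩ ⟨3,[(7,2),(5,0),(17,3),(1,0),(1,3)]⟩),(.r (-1) ⟨4,[(1,0),(5,2),(0,3),(2,1),(9,1),(1,0),(13,
  3),(5,0)]⟩ ⟨2,[(4,2),(1,1),(7,0),(9,0),(11,0)]⟩),.k,⟨true,0,⟨0,[(1,0),(8,0),(0,1),(11,0),(13,0)]⟩,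
  ⟨2,[(4,2),(1,1),(7,0),(9,0),(11,0)]⟩⟩,⟨false,1,⟨0,[(5,0),(17,0)]⟩,⟨3,[(14,1),(7,1),(5,2),(0,0)]⟩⟩,
  ⟨false,0,⟨0,[(39,0)]⟩,⟨15,[(6,3),(8,3),(4,0),(0,0),(18,5),(0,7)]⟩⟩,⟨false,1,⟨6,[(0,0),(4,1),(0,2),
  (13,2),(2,6),(0,4),(16,1)]⟩,⟨0,[(1,0),(8,0),(0,0)]⟩⟩,⟨true,0,⟨0,[(43,0)]⟩,⟨0,[]⟩⟩,⟨false,1,⟨13,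
  [(0,3),(4,7),(0,11),(13,4),(2,13),(0,5),(16,0)]⟩,⟨3,[(1,1),(1,1),(4,2),(18,0)]⟩⟩,[.o ⟨false,0,⟨0,
  [(6,0),(4,0),(25,0)]⟩,⟨15,[(8,7),(10,3),(0,4),(0,4),(11,1),(7,3)]⟩⟩,.o ⟨false,1,⟨1,[(18,1),(14,0),
  (7,0)]⟩,⟨1,[(8,0),(17,0)]⟩⟩,.a ⟨true,0,⟨1,[(22,0),(8,0),(0,0)]⟩,⟨0,[(23,0)]⟩⟩ ⟨false,0,⟨0,[(3,0),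
  (19,0)]⟩,⟨2,[(0,0),(5,0),(13,0),(19,0),(0,0)]⟩⟩ ⟨true,0,⟨0,[(6,0),(4,0),(11,0),(13,0)]⟩,⟨1,[(8,0),
  (10,0),(2,0),(4,0)]⟩⟩,.o ⟨false,0,⟨7,[(13,1),(8,3),(5,2),(0,0)]⟩,⟨1,[(23,1),(9,0),(6,0)]⟩⟩]⟩)))))
  (.Q [0,1,0,0,0,0,0,0,-1,0,0,1] (.p true [0,0,0,1] [] (⟨0,[(19,0)]⟩,⟨1,[(18,0),(8,0),(0,0)]⟩) .k 0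
  (⟨0,[]⟩,⟨0,[]⟩) .k .k) (.K ⟨2,[0,0,0,1],0,0,(⟨0,[(20,0)]⟩,⟨1,[(19,0),(8,0),(0,0)]⟩),.k,(.x 0 ⟨1,
  [(7,0),(2,0),(20,1)]⟩ ⟨3,[(17,0),(0,0),(13,3),(4,1)]⟩),(.r 0 ⟨20,[(1,4),(1,5),(5,7),(8,7),(5,1),
  (0,1),(7,1)]⟩ ⟨1,[(5,0),(11,0),(6,0),(12,0)]⟩),.k,.k,[⟨1,[(1,1),(1,1),(4,1),(10,0),(8,0),(0,0)]⟩,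
  ⟨0,[(0,0)]⟩,⟨1,[(20,1),(4,0),(0,0)]⟩,⟨7,[(10,1),(8,3),(5,2),(0,0)]⟩]⟩) (.Q [0,1,0,-1,0,0,0,0,-1,
  -1,0,1] (.p true [0,0,0,1] [1] (⟨0,[(20,0)]⟩,⟨1,[(19,0),(8,0),(0,0)]⟩) .k 1 (⟨0,[]⟩,⟨0,[]⟩) .k
  .k) (.R ⟨2,true,false,true,[0,1],[1,0,0,-1],[0,1,1],(⟨0,[]⟩,⟨0,[]⟩),(⟨1,[(20,0),(8,0),(0,0)]⟩,⟨0,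
  [(21,0)]⟩),⟨0,[]⟩,.k,.k,.k,(.r 0 ⟨20,[(2,4),(1,5),(5,7),(8,7),(5,1),(0,1),(7,1)]⟩ ⟨1,[(6,0),(11,
  0),(6,0),(12,0)]⟩),.k,.k,⟨false,0,⟨20,[(2,12),(1,2),(5,3),(8,3),(5,0),(0,0),(7,0)]⟩,⟨1,[(18,0),
  (19,0)]⟩⟩,⟨true,0,⟨1,[(8,0),(2,0),(9,1)]⟩,⟨1,[(20,0),(8,0),(0,0)]⟩⟩,⟨false,0,⟨0,[(37,0)]⟩,⟨15,[(4,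
  3),(8,3),(4,0),(0,0),(18,5),(0,7)]⟩⟩,⟨true,0,⟨0,[(0,0)]⟩,⟨8,[(1,4),(0,1),(7,0),(1,0),(2,3),(0,4),
  (2,0),(0,1),(8,1),(0,1)]⟩⟩,⟨true,0,⟨0,[(41,0)]⟩,⟨0,[]⟩⟩,⟨false,1,⟨1,[(18,0),(2,1),(9,0)]⟩,⟨0,[(1,
  0),(27,0),(0,0)]⟩⟩,[]⟩) (.Q [0,0,0,0,0,-1,0,0,0,1,0,-1] (.p false [0,0,0,1] [1] (⟨0,[(21,0)]⟩,⟨1,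
  [(20,0),(8,0),(0,0)]⟩) .k 1 (⟨0,[]⟩,⟨0,[]⟩) .k .k) (.R ⟨1,false,false,false,[1,0,0,-1],[1,-1],[1,
  0,0,0,0,0,0,0,-1],(⟨1,[(21,0),(8,0),(0,0)]⟩,⟨0,[(22,0)]⟩),(⟨0,[(33,0)]⟩,⟨0,[(34,0)]⟩),⟨0,[(0,0)]⟩,
  .k,.k,(.r (-1) ⟨1,[(7,0),(11,0),(6,0),(12,0)]⟩ ⟨20,[(3,4),(1,5),(5,7),(8,7),(5,1),(0,1),(7,1)]⟩),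
  (.r (-1) ⟨7,[(5,1),(8,1),(4,5),(0,1),(6,0),(0,0)]⟩ ⟨0,[(1,0),(3,1),(1,1),(0,0),(1,1),(11,0),(7,0),
  (3,0),(1,2)]⟩),.k,.k,⟨false,1,⟨15,[(5,3),(8,3),(4,8),(0,0),(18,5)]⟩,⟨0,[(1,0),(3,1),(1,1),(0,0),
  (1,1),(11,0),(7,0),(3,0),(1,2)]⟩⟩,⟨true,0,⟨7,[(12,1),(8,3),(5,2),(0,0)]⟩,⟨0,[(22,0)]⟩⟩,⟨true,0,⟨0,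
  []⟩,⟨0,[(42,0)]⟩⟩,⟨false,0,⟨5,[(2,3),(0,1),(3,0),(13,0),(1,0),(11,1)]⟩,⟨15,[(5,3),(8,3),(4,8),(0,
  0),(1,15),(16,5)]⟩⟩,⟨false,1,⟨15,[(5,3),(8,3),(4,0),(0,0),(18,5),(0,7)]⟩,⟨0,[(38,0)]⟩⟩,⟨false,0,
  ⟨0,[(2,0)]⟩,⟨3,[(19,2),(0,0),(1,3)]⟩⟩,[.o ⟨false,0,⟨0,[(9,0),(0,0)]⟩,⟨15,[(5,3),(8,3),(4,4),(0,4),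
  (18,5)]⟩⟩,.o ⟨false,1,⟨1,[(7,0),(18,0),(5,0),(7,0)]⟩,⟨0,[(37,0)]⟩⟩,.a ⟨true,0,⟨0,[(22,0)]⟩,⟨1,
  [(21,0),(8,0),(0,0)]⟩⟩ ⟨false,1,⟨1,[(19,0),(20,0)]⟩,⟨20,[(3,12),(1,2),(5,3),(8,3),(5,0),(0,0),(7,
  0)]⟩⟩ ⟨true,0,⟨1,[(7,0),(13,0),(1,0)]⟩,⟨0,[(22,0),(14,0)]⟩⟩,.o ⟨false,0,⟨1,[(9,0),(2,0),(9,1)]⟩,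
  ⟨7,[(19,0),(0,0),(0,3),(10,1),(6,3)]⟩⟩]⟩) (.R ⟨0,false,false,true,[1,0,0,-1],[0,1],[0,1,0,0,0,0,0,
  0,-1],(⟨1,[(21,0),(8,0),(0,0)]⟩,⟨0,[(22,0)]⟩),(⟨0,[(34,0)]⟩,⟨0,[(33,0)]⟩),⟨0,[(0,0)]⟩,.k,.k,(.r
  (-1) ⟨1,[(7,0),(11,0),(6,0),(12,0)]⟩ ⟨20,[(3,4),(1,5),(5,7),(8,7),(5,1),(0,1),(7,1)]⟩),(.r (-1)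
  ⟨1,[(7,0),(11,0),(6,0),(12,0)]⟩ ⟨20,[(3,4),(1,5),(5,7),(8,7),(5,1),(0,1),(7,1)]⟩),.k,.k,⟨true,1,
  ⟨1,[(7,0),(11,0),(6,0),(12,0)]⟩,⟨2,[(3,2),(1,0),(5,2),(1,1),(9,1),(11,1)]⟩⟩,⟨false,1,⟨1,[(6,0),(6,
  0),(7,0),(17,0)]⟩,⟨1,[(9,0),(2,0),(9,1)]⟩⟩,⟨true,0,⟨0,[(42,0)]⟩,⟨0,[]⟩⟩,⟨false,0,⟨0,[(1,0),(40,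
  0)]⟩,⟨1,[(9,1),(0,1),(8,0),(2,1),(17,0)]⟩⟩,⟨false,0,⟨0,[]⟩,⟨0,[]⟩⟩,⟨false,0,⟨0,[]⟩,⟨0,[]⟩⟩,[.o
  ⟨false,0,⟨0,[(37,0)]⟩,⟨1,[(7,0),(18,0),(5,0),(7,0)]⟩⟩,.o ⟨false,1,⟨15,[(5,3),(8,3),(4,4),(0,4),
  (18,5)]⟩,⟨0,[(9,0),(0,0)]⟩⟩,.a ⟨true,0,⟨0,[(22,0)]⟩,⟨1,[(21,0),(8,0),(0,0)]⟩⟩ ⟨false,1,⟨3,[(19,2),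
  (0,0)]⟩,⟨0,[(2,0),(19,0)]⟩⟩ ⟨true,0,⟨1,[(17,1),(0,0),(2,0)]⟩,⟨0,[(9,0),(0,0),(11,0)]⟩⟩,.o ⟨false,
  0,⟨1,[(9,0),(2,0),(9,1)]⟩,⟨7,[(19,0),(0,0),(0,3),(10,1),(6,3)]⟩⟩]⟩))))))) (.K ⟨2,[0,-1,1],(-1),0,
  (⟨0,[(2,0)]⟩,⟨0,[(24,0),(3,0)]⟩),.k,(.r (-1) ⟨0,[(1,0),(20,0),(7,0),(2,0)]⟩ ⟨2,[(0,0),(2,0),(1,0),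
  (5,3),(9,1),(12,1)]⟩),.k,.k,.k,[⟨0,[(32,0)]⟩,⟨0,[(11,0)]⟩,⟨3,[(13,0),(0,0),(7,3),(10,1)]⟩,⟨0,[(0,
  0)]⟩]⟩)) (.I [0,-1,-1,-1,1,0,0,0,-1] (.Q [0,0,-2,0,1,0,-1,0,0,-1,1,1] (.p true [0,0,1] [1,0,0,-1]
  (⟨0,[(25,0)]⟩,⟨0,[(24,0)]⟩) .k 2 (⟨1,[(15,0),(8,0),(0,0)]⟩,⟨0,[(16,0)]⟩) .k (.x 0 ⟨1,[(2,0),(0,0),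
  (3,0),(1,0)]⟩ ⟨1,[(22,1),(1,1),(1,0),(6,0)]⟩)) (.Q [0,0,0,0,0,1,0,0,0,0,0,-1] (.p false [0,0,0,1]
  [] (⟨0,[(17,0)]⟩,⟨1,[(16,0),(8,0),(0,0)]⟩) .k 0 (⟨0,[]⟩,⟨0,[]⟩) .k .k) (.I [0,1,1,0,-1,0,0,0,-1]
  (.I [0,-1,1,0,0,0,0,-1,-1] (.R ⟨0,false,false,true,[0,0,0,1],[0,1],[1,1,1,1],(⟨0,[(20,0)]⟩,⟨1,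
  [(19,0),(8,0),(0,0)]⟩),(⟨0,[(32,0)]⟩,⟨0,[(31,0)]⟩),⟨0,[(2,0)]⟩,.k,.k,(.r (-1) ⟨1,[(18,0),(17,1),
  (0,0)]⟩ ⟨25,[(0,4),(0,0),(3,3),(1,1),(1,8),(7,9),(7,1)]⟩),(.r (-1) ⟨1,[(18,0),(17,1),(0,0)]⟩ ⟨25,
  [(0,4),(0,0),(3,3),(1,1),(1,8),(7,9),(7,1)]⟩),.k,.k,⟨true,0,⟨0,[]⟩,⟨1,[(25,0),(0,0)]⟩⟩,⟨false,1,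
  ⟨0,[(3,0),(7,0)]⟩,⟨7,[(10,1),(8,3),(5,2),(0,0)]⟩⟩,⟨true,(-1),⟨1,[(0,0),(0,0),(7,0),(24,1)]⟩,⟨1,
  [(18,0),(17,1),(0,0)]⟩⟩,⟨false,0,⟨3,[(0,2),(0,0),(1,1),(5,0),(4,1),(5,1),(13,1)]⟩,⟨1,[(7,0),(0,0),
  (9,0),(0,0),(16,0),(1,0)]⟩⟩,⟨false,0,⟨0,[]⟩,⟨0,[]⟩⟩,⟨false,0,⟨0,[]⟩,⟨0,[]⟩⟩,[.o ⟨false,0,⟨0,[(35,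
  0)]⟩,⟨1,[(30,0),(5,1),(1,0)]⟩⟩,.o ⟨false,1,⟨5,[(5,1),(8,1),(2,1),(0,1),(11,0),(7,0)]⟩,⟨0,[(7,0),
  (0,0)]⟩⟩,.a ⟨true,0,⟨1,[(19,0),(8,0),(0,0)]⟩,⟨0,[(20,0)]⟩⟩ ⟨false,0,⟨11,[(0,1),(4,1),(3,0),(2,2),
  (5,0),(6,1)]⟩,⟨1,[(36,1),(0,0),(0,0)]⟩⟩ ⟨true,0,⟨0,[(20,0),(14,0)]⟩,⟨1,[(7,0),(0,0),(10,0),(16,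
  0)]⟩⟩,.o ⟨false,0,⟨7,[(10,1),(8,3),(5,2),(0,0)]⟩,⟨0,[(3,0),(21,0)]⟩⟩]⟩) (.R ⟨0,false,false,false,
  [0,0,0,1],[1,1,-1],[0,1,0,0,0,0,0,0,1],(⟨0,[(20,0)]⟩,⟨1,[(19,0),(8,0),(0,0)]⟩),(⟨0,[(28,0),(3,
  0)]⟩,⟨0,[(6,0)]⟩),⟨0,[(2,0)]⟩,.k,.k,(.r (-1) ⟨1,[(18,0),(17,1),(0,0)]⟩ ⟨15,[(1,5),(3,3),(1,1),(1,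
  3),(7,4),(7,1),(12,4)]⟩),(.r (-1) ⟨6,[(0,4),(3,3),(3,0),(7,0),(1,2),(7,0),(6,0),(2,0)]⟩ ⟨1,[(1,1),
  (3,0),(1,0),(3,0),(9,0),(16,1)]⟩),.k,.k,⟨true,0,⟨0,[(0,0),(35,0)]⟩,⟨0,[(1,0),(3,0),(1,0),(25,0),
  (4,0)]⟩⟩,⟨false,1,⟨0,[(3,0)]⟩,⟨3,[(11,1),(7,1),(5,2),(0,0)]⟩⟩,⟨true,0,⟨0,[(40,0)]⟩,⟨0,[]⟩⟩,⟨false,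
  1,⟨1,[(1,1),(1,0),(1,0),(1,0),(12,0),(0,0),(16,2)]⟩,⟨1,[(0,1),(6,0),(3,0),(7,0),(13,1)]⟩⟩,⟨false,
  0,⟨0,[]⟩,⟨0,[]⟩⟩,⟨false,0,⟨0,[]⟩,⟨0,[]⟩⟩,[.o ⟨false,1,⟨1,[(15,1),(14,0),(7,0)]⟩,⟨1,[(7,0),(0,0),
  (7,0),(19,0)]⟩⟩,.o ⟨false,1,⟨0,[(5,0),(1,0),(0,0),(29,0)]⟩,⟨0,[(23,0),(12,0)]⟩⟩,.a ⟨true,0,⟨1,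
  [(19,0),(8,0),(0,0)]⟩,⟨0,[(20,0)]⟩⟩ ⟨true,0,⟨1,[(0,1),(4,0),(1,0),(3,0),(9,0),(11,1)]⟩,⟨1,[(1,1),
  (35,0),(0,0)]⟩⟩ ⟨false,1,⟨0,[(5,0),(1,0),(0,0),(11,0),(17,0)]⟩,⟨1,[(16,0),(2,0),(16,1)]⟩⟩,.o
  ⟨false,0,⟨7,[(10,1),(8,3),(5,2),(0,0)]⟩,⟨0,[(3,0),(21,0)]⟩⟩]⟩)) (.Q [0,0,0,-1,0,0,0,0,1,0,0,-1]
  (.p false [0,0,0,1] [] (⟨0,[(19,0)]⟩,⟨1,[(18,0),(8,0),(0,0)]⟩) .k 0 (⟨0,[]⟩,⟨0,[]⟩) .k .k) (.R ⟨0,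
  false,false,false,[0,0,0,1],[0,1],[1,0,1,1],(⟨0,[(20,0)]⟩,⟨1,[(19,0),(8,0),(0,0)]⟩),(⟨0,[(32,0)]⟩,
  ⟨0,[(31,0)]⟩),⟨0,[(2,0)]⟩,.k,.k,(.r (-1) ⟨1,[(18,0),(17,1),(0,0)]⟩ ⟨0,[(4,0),(4,0),(1,0),(9,0)]⟩),
  (.r (-1) ⟨1,[(18,0),(17,1),(0,0)]⟩ ⟨0,[(4,0),(4,0),(1,0),(9,0)]⟩),.k,.k,⟨true,0,⟨0,[]⟩,⟨1,[(25,0),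
  (0,0)]⟩⟩,⟨false,1,⟨0,[(3,0),(7,0)]⟩,⟨7,[(10,1),(8,3),(5,2),(0,0)]⟩⟩,⟨true,0,⟨0,[(4,0),(4,0),(1,0),
  (9,0)]⟩,⟨0,[(0,0),(19,0),(13,0)]⟩⟩,⟨false,1,⟨21,[(3,1),(0,7),(0,7),(1,7),(1,5),(4,1),(2,6),(2,19),
  (17,10)]⟩,⟨0,[(0,0)]⟩⟩,⟨false,0,⟨0,[]⟩,⟨0,[]⟩⟩,⟨false,0,⟨0,[]⟩,⟨0,[]⟩⟩,[.o ⟨false,1,⟨5,[(5,1),(8,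
  1),(2,1),(0,1),(11,0),(7,0)]⟩,⟨0,[(7,0),(0,0)]⟩⟩,.o ⟨false,1,⟨11,[(5,3),(8,3),(2,0),(0,0),(11,1),
  (7,7)]⟩,⟨1,[(7,0),(0,0),(12,0),(1,0),(12,0)]⟩⟩,.a ⟨true,0,⟨1,[(19,0),(8,0),(0,0)]⟩,⟨0,[(20,0)]⟩⟩
  ⟨true,0,⟨13,[(5,3),(3,0),(2,2),(12,3),(7,1),(4,0)]⟩,⟨0,[(34,0),(1,0)]⟩⟩ ⟨false,1,⟨11,[(5,3),(8,3),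
  (2,0),(0,0),(1,11),(9,1),(7,7)]⟩,⟨1,[(7,0),(0,0),(10,0),(16,0)]⟩⟩,.o ⟨false,0,⟨7,[(10,1),(8,3),(5,
  2),(0,0)]⟩,⟨0,[(3,0),(21,0)]⟩⟩]⟩) (.R ⟨0,false,false,false,[0,0,0,1],[0,1],[0,1],(⟨0,[(20,0)]⟩,⟨1,
  [(19,0),(8,0),(0,0)]⟩),(⟨0,[(32,0)]⟩,⟨0,[(31,0)]⟩),⟨0,[(2,0)]⟩,.k,.k,(.r (-1) ⟨1,[(18,0),(17,1),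
  (0,0)]⟩ ⟨13,[(0,9),(4,0),(3,1),(0,1),(6,1),(1,4),(1,0),(3,3),(7,1)]⟩),(.r (-1) ⟨1,[(18,0),(17,1),
  (0,0)]⟩ ⟨13,[(0,9),(4,0),(3,1),(0,1),(6,1),(1,4),(1,0),(3,3),(7,1)]⟩),.k,.k,⟨true,0,⟨0,[(34,0),(1,
  0)]⟩,⟨13,[(5,5),(3,4),(2,0),(12,5),(7,9),(4,4)]⟩⟩,⟨false,1,⟨0,[(3,0),(7,0)]⟩,⟨7,[(10,1),(8,3),(5,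
  2),(0,0)]⟩⟩,⟨false,0,⟨1,[(0,1),(6,0),(0,0),(10,0),(16,0)]⟩,⟨1,[(18,0),(19,0)]⟩⟩,⟨true,0,⟨0,[(0,
  0)]⟩,⟨1,[(1,1),(5,0),(1,1),(1,0),(7,0),(1,1),(12,1),(1,5)]⟩⟩,⟨false,0,⟨0,[]⟩,⟨0,[]⟩⟩,⟨false,0,⟨0,
  []⟩,⟨0,[]⟩⟩,[.o ⟨false,1,⟨5,[(5,1),(8,1),(2,1),(0,1),(11,0),(7,0)]⟩,⟨0,[(7,0),(0,0)]⟩⟩,.o ⟨false,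
  1,⟨11,[(5,3),(8,3),(2,0),(0,0),(11,1),(7,7)]⟩,⟨1,[(7,0),(0,0),(12,0),(1,0),(12,0)]⟩⟩,.a ⟨true,0,
  ⟨1,[(19,0),(8,0),(0,0)]⟩,⟨0,[(20,0)]⟩⟩ ⟨true,0,⟨0,[(40,0)]⟩,⟨0,[]⟩⟩ ⟨false,1,⟨1,[(0,1),(17,0),(19,
  0)]⟩,⟨1,[(7,0),(0,0),(10,0),(16,0)]⟩⟩,.o ⟨false,0,⟨7,[(10,1),(8,3),(5,2),(0,0)]⟩,⟨0,[(3,0),(21,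
  0)]⟩⟩]⟩))) (.Q [0,0,0,-1,0,0,-1,-1,-1,-2,1,1] (.p true [-1,1,1] [1,0,0,-1] (⟨0,[(11,0)]⟩,⟨0,[(26,
  0),(2,0)]⟩) .k 2 (⟨1,[(17,0),(8,0),(0,0)]⟩,⟨0,[(18,0)]⟩) .k (.x 0 ⟨1,[(4,0),(0,0),(3,0),(1,0)]⟩
  ⟨25,[(1,11),(6,9),(6,6),(0,6),(0,5),(6,3),(1,25)]⟩)) (.R ⟨1,false,false,false,[1,0,0,-1],[-1,1,1],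
  [1,1,0,0,0,0,0,0,-1],(⟨1,[(18,0),(8,0),(0,0)]⟩,⟨0,[(19,0)]⟩),(⟨0,[(12,0)]⟩,⟨0,[(27,0),(2,0)]⟩),⟨0,
  [(1,0),(16,0)]⟩,.k,.k,(.x 0 ⟨1,[(6,0),(2,0),(20,1)]⟩ ⟨3,[(16,0),(0,0),(13,3),(4,1)]⟩),(.r (-1) ⟨0,
  [(3,0),(6,0),(9,0)]⟩ ⟨1,[(8,0),(8,0),(8,0)]⟩),(.r (-1) ⟨1,[(0,1),(9,1),(7,0),(8,0),(0,0),(6,1),(0,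
  1)]⟩ ⟨1,[(8,0),(2,0),(5,0)]⟩),.k,⟨true,0,⟨1,[(0,1),(9,1),(7,0),(8,0),(0,0),(4,1)]⟩,⟨3,[(8,2),(8,
  1),(8,0),(5,1),(4,0)]⟩⟩,⟨false,1,⟨1,[(10,1),(7,0),(8,0),(0,0),(7,1)]⟩,⟨7,[(0,5),(1,0),(4,1),(0,3),
  (0,0),(5,0),(1,2),(1,0)]⟩⟩,⟨false,0,⟨0,[]⟩,⟨3,[(16,0),(0,0),(19,1)]⟩⟩,⟨false,1,⟨1,[(13,1),(3,0),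
  (0,0),(8,0),(0,0),(8,0)]⟩,⟨0,[(0,0)]⟩⟩,⟨true,0,⟨0,[(34,0)]⟩,⟨0,[(35,0)]⟩⟩,⟨false,1,⟨1,[(8,1),(1,
  1),(6,0),(0,0),(8,0),(0,0),(7,1),(0,0)]⟩,⟨0,[(0,0),(34,0)]⟩⟩,[.o ⟨false,0,⟨0,[(13,0)]⟩,⟨7,[(0,3),
  (2,1),(13,2),(0,1),(1,3),(8,2),(2,1)]⟩⟩,.o ⟨false,1,⟨3,[(13,3),(2,0),(0,0),(19,1)]⟩,⟨0,[(6,0),(0,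
  0),(12,0)]⟩⟩,.a ⟨true,0,⟨0,[(19,0)]⟩,⟨1,[(18,0),(8,0),(0,0)]⟩⟩ ⟨false,0,⟨3,[(0,1),(2,1),(4,1),(1,
  1),(7,0),(8,0),(0,0),(4,1)]⟩,⟨1,[(17,0),(19,0)]⟩⟩ ⟨true,0,⟨1,[(13,1),(4,0),(8,0),(0,0)]⟩,⟨0,[(6,
  0),(0,0),(11,0),(0,0)]⟩⟩,.o ⟨false,0,⟨1,[(6,0),(2,0),(9,1)]⟩,⟨7,[(16,0),(0,0),(0,3),(10,1),(6,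
  3)]⟩⟩]⟩) (.I [0,0,0,0,0,0,0,0,-1] (.Q [0,-1,0,2,1,0,-1,-1,-1,-1,1,1] (.p true [0,0,1] [1,0,0,-1]
  (⟨0,[(29,0)]⟩,⟨0,[(28,0)]⟩) .k 2 (⟨1,[(19,0),(8,0),(0,0)]⟩,⟨0,[(20,0)]⟩) .k (.x 0 ⟨1,[(6,0),(0,0),
  (3,0),(1,0)]⟩ ⟨25,[(3,11),(6,9),(6,6),(0,6),(0,5),(6,3),(1,25)]⟩)) (.I [0,-1,2,1,0,0,0,-1,-1] (.R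
  ⟨1,false,false,false,[0,0,0,1],[1,1,-1],[1,1,0,0,0,0,0,0,1],(⟨0,[(22,0)]⟩,⟨1,[(21,0),(8,0),(0,
  0)]⟩),(⟨0,[(30,0),(3,0)]⟩,⟨0,[(8,0)]⟩),⟨0,[(4,0)]⟩,.k,.k,(.r (-1) ⟨1,[(20,0),(17,1),(0,0)]⟩ ⟨3,
  [(0,0),(1,0),(8,0),(7,0),(17,0)]⟩),(.r (-1) ⟨13,[(3,3),(1,5),(0,1),(3,7),(7,4),(1,5),(0,0),(16,7),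
  (3,1)]⟩ ⟨3,[(0,1),(1,1),(4,0),(1,0),(3,0),(9,0)]⟩),(.r (-1) ⟨0,[(3,0),(1,0),(3,0),(0,0),(27,1)]⟩
  ⟨0,[(0,0),(36,0)]⟩),.k,⟨true,0,⟨0,[(3,0),(5,0),(0,1),(11,0),(13,0)]⟩,⟨0,[(0,0)]⟩⟩,⟨false,1,⟨0,[(5,
  0)]⟩,⟨3,[(13,1),(7,1),(5,2),(0,0)]⟩⟩,⟨false,0,⟨0,[]⟩,⟨3,[(19,0),(0,0),(19,1)]⟩⟩,⟨false,1,⟨3,[(1,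
  2),(4,0),(15,0),(0,0),(11,0)]⟩,⟨0,[(3,0),(5,0),(0,0),(27,0)]⟩⟩,⟨true,0,⟨0,[(37,0)]⟩,⟨0,[(38,0)]⟩⟩,
  ⟨false,1,⟨0,[(1,0)]⟩,⟨0,[(3,0),(5,0),(0,0),(27,1)]⟩⟩,[.o ⟨false,1,⟨3,[(1,1),(18,0),(0,0),(1,0),(2,
  0),(5,0)]⟩,⟨1,[(9,0),(0,0),(7,0),(19,0)]⟩⟩,.o ⟨false,1,⟨0,[(7,0),(1,0),(0,0),(29,0)]⟩,⟨0,[(25,0),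
  (12,0)]⟩⟩,.a ⟨true,0,⟨1,[(21,0),(8,0),(0,0)]⟩,⟨0,[(22,0)]⟩⟩ ⟨true,0,⟨0,[(3,0),(5,0),(0,0),(11,0),
  (0,0)]⟩,⟨0,[(2,0)]⟩⟩ ⟨false,1,⟨0,[(7,0),(1,0),(0,0),(11,0),(17,0)]⟩,⟨1,[(18,0),(2,0),(16,1)]⟩⟩,.o
  ⟨false,0,⟨7,[(12,1),(8,3),(5,2),(0,0)]⟩,⟨0,[(5,0),(21,0)]⟩⟩]⟩) (.R ⟨1,false,false,false,[0,0,0,1],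
  [1,0,-1],[0,0,0,-1,0,0,0,0,1],(⟨0,[(22,0)]⟩,⟨1,[(21,0),(8,0),(0,0)]⟩),(⟨0,[(30,0)]⟩,⟨0,[(31,0)]⟩),
  ⟨0,[(4,0)]⟩,.k,.k,(.r (-1) ⟨1,[(20,0),(17,1),(0,0)]⟩ ⟨30,[(1,1),(0,14),(4,6),(3,8),(1,0),(5,6),(1,
  0),(5,7),(7,4)]⟩),.k,(.r (-1) ⟨9,[(0,4),(5,4),(5,0),(5,1),(1,4),(7,2),(0,0)]⟩ ⟨0,[(2,0),(4,0),(1,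
  0),(25,0)]⟩),.k,⟨true,0,⟨38,[(0,24),(10,6),(0,0),(5,1),(1,6),(4,2),(2,5),(6,27)]⟩,⟨0,[(2,0),(4,0),
  (1,0),(25,0)]⟩⟩,⟨false,1,⟨6,[(5,4),(6,0),(6,0),(0,0),(1,1),(5,0)]⟩,⟨1,[(9,0),(3,0),(7,0)]⟩⟩,⟨true,
  0,⟨0,[(38,0)]⟩,⟨0,[(37,0)]⟩⟩,⟨false,1,⟨1,[(1,0),(4,0),(15,0),(0,0),(11,0)]⟩,⟨15,[(0,5),(2,7),(5,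
  8),(1,1),(0,0),(7,0),(0,3),(10,0),(2,5)]⟩⟩,⟨false,1,⟨3,[(19,0),(0,0),(19,1)]⟩,⟨0,[]⟩⟩,⟨false,1,⟨3,
  [(1,2),(4,0),(15,0),(0,0),(11,0)]⟩,⟨2,[(0,1),(2,0),(17,0),(5,1),(7,1)]⟩⟩,[.o ⟨false,1,⟨1,[(26,1),
  (5,0),(7,0)]⟩,⟨12,[(0,1),(5,1),(2,6),(0,1),(0,2),(6,3),(13,0)]⟩⟩,.o ⟨false,1,⟨0,[(23,0),(16,0)]⟩,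
  ⟨0,[(25,0)]⟩⟩,.a ⟨true,0,⟨1,[(21,0),(8,0),(0,0)]⟩,⟨0,[(22,0)]⟩⟩ ⟨true,0,⟨0,[(0,0),(6,0),(1,0),(25,
  1)]⟩,⟨0,[(2,0),(34,0)]⟩⟩ ⟨false,1,⟨0,[(22,0),(0,0),(16,0)]⟩,⟨1,[(18,0),(2,0)]⟩⟩,.o ⟨false,0,⟨7,
  [(12,1),(8,3),(5,2),(0,0)]⟩,⟨0,[(5,0),(21,0)]⟩⟩]⟩)) (.R ⟨2,true,false,false,[0,1],[0,0,0,1],[1,1,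
  1,1],(⟨0,[]⟩,⟨0,[]⟩),(⟨0,[(21,0)]⟩,⟨1,[(20,0),(8,0),(0,0)]⟩),⟨0,[]⟩,.k,.k,.k,(.r 0 ⟨13,[(1,7),(4,
  3),(3,3),(7,2),(7,3),(7,1),(4,0)]⟩ ⟨1,[(19,0),(17,1),(0,0)]⟩),.k,.k,⟨false,0,⟨0,[(1,0),(34,0)]⟩,
  ⟨1,[(0,1),(3,0),(1,0),(1,0),(12,0),(0,0),(16,2)]⟩⟩,⟨true,0,⟨7,[(11,1),(8,3),(5,2),(0,0)]⟩,⟨0,[(21,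
  0)]⟩⟩,⟨false,0,⟨0,[]⟩,⟨3,[(18,0),(0,0),(19,1)]⟩⟩,⟨true,0,⟨0,[(0,0),(5,0),(1,0),(0,0),(29,0)]⟩,⟨0,
  [(1,0),(19,0),(14,0)]⟩⟩,⟨true,0,⟨0,[(36,0)]⟩,⟨0,[(37,0)]⟩⟩,⟨false,1,⟨15,[(0,1),(3,1),(1,3),(1,11),
  (0,7),(0,1),(8,6),(0,7),(18,10)]⟩,⟨0,[(1,0),(19,0)]⟩⟩,[]⟩)) (.Q [0,0,0,1,0,0,0,0,1,1,0,-1] (.p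
  false [0,0,0,1] [1] (⟨0,[(20,0)]⟩,⟨1,[(19,0),(8,0),(0,0)]⟩) .k 1 (⟨0,[]⟩,⟨0,[]⟩) .k .k) (.R ⟨1,
  false,false,false,[0,0,0,1],[1,-1],[1,1,0,0,0,0,0,0,1],(⟨0,[(21,0)]⟩,⟨1,[(20,0),(8,0),(0,0)]⟩),
  (⟨0,[(32,0)]⟩,⟨0,[(33,0)]⟩),⟨0,[(3,0)]⟩,.k,.k,(.r (-1) ⟨1,[(19,0),(17,1),(0,0)]⟩ ⟨0,[(5,0),(4,0),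
  (1,0),(9,0)]⟩),(.r 0 ⟨13,[(1,7),(4,3),(3,3),(8,2),(6,3),(7,1),(4,0)]⟩ ⟨0,[(5,0),(35,0)]⟩),.k,.k,
  ⟨false,0,⟨0,[(1,0),(34,0)]⟩,⟨0,[(5,0)]⟩⟩,⟨true,0,⟨1,[(8,0),(2,0),(9,1)]⟩,⟨1,[(20,0),(8,0),(0,
  0)]⟩⟩,⟨false,0,⟨0,[]⟩,⟨3,[(18,0),(0,0),(19,1)]⟩⟩,⟨false,1,⟨1,[(5,1),(2,0),(2,0),(9,1)]⟩,⟨0,[(0,
  0)]⟩⟩,⟨true,0,⟨0,[(36,0)]⟩,⟨0,[(37,0)]⟩⟩,⟨false,1,⟨3,[(5,3),(2,1),(1,1),(10,3),(0,1),(8,0),(7,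
  0)]⟩,⟨0,[(0,0),(36,0)]⟩⟩,[.o ⟨false,0,⟨0,[(8,0),(0,0)]⟩,⟨5,[(6,1),(8,1),(2,1),(0,1),(11,0),(7,
  0)]⟩⟩,.o ⟨false,1,⟨1,[(1,0),(3,0),(25,0),(2,0)]⟩,⟨0,[(36,0)]⟩⟩,.a ⟨true,0,⟨1,[(20,0),(8,0),(0,
  0)]⟩,⟨0,[(21,0)]⟩⟩ ⟨false,0,⟨0,[(1,0)]⟩,⟨1,[(18,0),(20,0)]⟩⟩ ⟨true,0,⟨0,[(8,0),(0,0),(11,0)]⟩,⟨1,
  [(16,1),(0,0),(2,0)]⟩⟩,.o ⟨false,0,⟨7,[(11,1),(8,3),(5,2),(0,0)]⟩,⟨0,[(4,0),(21,0)]⟩⟩]⟩) (.R ⟨2,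
  true,false,false,[0,1],[1,0,0,-1],[1,1,1,1],(⟨0,[]⟩,⟨0,[]⟩),(⟨1,[(20,0),(8,0),(0,0)]⟩,⟨0,[(21,
  0)]⟩),⟨0,[]⟩,.k,.k,.k,(.r 0 ⟨13,[(1,7),(4,3),(3,3),(8,2),(6,3),(7,1),(4,0)]⟩ ⟨0,[(5,0),(35,0)]⟩),
  .k,.k,⟨false,0,⟨0,[(1,0),(34,0)]⟩,⟨0,[(5,0)]⟩⟩,⟨true,0,⟨1,[(8,0),(2,0),(9,1)]⟩,⟨1,[(20,0),(8,0),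
  (0,0)]⟩⟩,⟨false,0,⟨0,[]⟩,⟨3,[(18,0),(0,0),(19,1)]⟩⟩,⟨true,0,⟨0,[(0,0)]⟩,⟨0,[(2,0),(19,0)]⟩⟩,⟨true,
  0,⟨0,[(36,0)]⟩,⟨0,[(37,0)]⟩⟩,⟨false,1,⟨7,[(0,5),(5,1),(8,1),(2,0),(2,1),(9,1),(7,4)]⟩,⟨1,[(1,1),
  (18,0),(8,0),(0,0)]⟩⟩,[]⟩))))) (.Q [0,0,-2,0,1,0,-1,0,0,0,1] (.p true [0,0,1] [] (⟨0,[(26,0)]⟩,⟨0,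
  [(25,0)]⟩) .k 0 (⟨0,[]⟩,⟨0,[]⟩) .k .k) (.K ⟨0,[1,1,-1],1,0,(⟨0,[(26,0),(3,0)]⟩,⟨0,[(4,0)]⟩),.k,.k,
  (.r 0 ⟨3,[(1,1),(1,3),(1,0),(2,0),(9,1),(4,1),(12,1)]⟩ ⟨1,[(0,0),(5,0),(7,0),(19,2),(0,0)]⟩),.k,
  .k,[⟨0,[(1,0),(16,0)]⟩,⟨0,[(0,0)]⟩,⟨0,[(14,0),(7,0),(11,0)]⟩,⟨0,[(3,0),(1,0),(0,0)]⟩]⟩) (.K ⟨2,[0,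
  -1,1],(-1),0,(⟨0,[(4,0)]⟩,⟨0,[(26,0),(3,0)]⟩),.k,(.r (-1) ⟨0,[(25,0),(8,1),(0,0)]⟩ ⟨10,[(0,3),(2,
  11),(6,0),(12,7),(7,3),(4,3)]⟩),.k,.k,.k,[⟨0,[(34,0)]⟩,⟨0,[(13,0)]⟩,⟨3,[(15,0),(0,0),(7,3),(10,
  1)]⟩,⟨0,[(0,0)]⟩]⟩))) (.I [0,0,1,1,0,0,0,0,-1] (.Q [0,0,0,0,0,1,0,0,0,0,0,-1] (.p false [0,0,0,1]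
  [] (⟨0,[(17,0)]⟩,⟨1,[(16,0),(8,0),(0,0)]⟩) .k 0 (⟨0,[]⟩,⟨0,[]⟩) .k .k) (.R ⟨0,false,false,false,
  [0,0,0,1],[0,1],[0,1],(⟨0,[(18,0)]⟩,⟨1,[(17,0),(8,0),(0,0)]⟩),(⟨0,[(30,0)]⟩,⟨0,[(29,0)]⟩),⟨0,[(0,
  0)]⟩,.k,.k,(.r (-1) ⟨1,[(16,0),(17,1),(0,0)]⟩ ⟨0,[(1,0)]⟩),(.r (-1) ⟨1,[(16,0),(17,1),(0,0)]⟩ ⟨0,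
  [(1,0)]⟩),.k,.k,⟨true,0,⟨0,[(32,0),(1,0)]⟩,⟨13,[(3,5),(3,4),(2,0),(12,5),(7,9),(4,4)]⟩⟩,⟨false,1,
  ⟨0,[(18,0),(16,0)]⟩,⟨7,[(8,1),(8,3),(5,2),(0,0)]⟩⟩,⟨true,0,⟨0,[(1,0),(30,0),(1,0)]⟩,⟨1,[(2,1),(31,
  1),(0,0),(0,0)]⟩⟩,⟨false,1,⟨1,[(1,1),(16,1),(16,0),(0,0)]⟩,⟨1,[(2,1),(2,0),(0,0),(10,0),(16,2),(0,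
  0),(0,0)]⟩⟩,⟨false,0,⟨0,[]⟩,⟨0,[]⟩⟩,⟨false,0,⟨0,[]⟩,⟨0,[]⟩⟩,[.o ⟨false,1,⟨5,[(3,1),(8,1),(2,1),(0,
  1),(11,0),(7,0)]⟩,⟨0,[(5,0),(0,0)]⟩⟩,.o ⟨false,1,⟨11,[(3,3),(8,3),(2,0),(0,0),(11,1),(7,7)]⟩,⟨1,
  [(5,0),(0,0),(12,0),(1,0),(12,0)]⟩⟩,.a ⟨true,0,⟨1,[(17,0),(8,0),(0,0)]⟩,⟨0,[(18,0)]⟩⟩ ⟨true,0,⟨0,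
  [(38,0)]⟩,⟨0,[]⟩⟩ ⟨false,1,⟨11,[(3,3),(8,3),(2,0),(0,0),(1,11),(9,1),(7,7)]⟩,⟨1,[(5,0),(0,0),(10,
  0),(16,0)]⟩⟩,.o ⟨false,0,⟨7,[(8,1),(8,3),(5,2),(0,0)]⟩,⟨1,[(18,1),(9,0),(6,0)]⟩⟩]⟩) (.Q [0,-1,0,0,
  1,0,0,0,-2,-1,0,2] (.p true [0,0,0,1] [1,0,0,-1] (⟨0,[(18,0)]⟩,⟨1,[(17,0),(8,0),(0,0)]⟩) .k 2 (⟨1,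
  [(17,0),(8,0),(0,0)]⟩,⟨0,[(18,0)]⟩) .k .k) (.R ⟨1,false,false,true,[1,0,0,-1],[0,0,0,1],[0,1,0,-1,
  0,0,0,0,-1],(⟨1,[(18,0),(8,0),(0,0)]⟩,⟨0,[(19,0)]⟩),(⟨0,[(19,0)]⟩,⟨1,[(18,0),(8,0),(0,0)]⟩),⟨0,
  [(1,0),(16,0)]⟩,.k,.k,(.r (-1) ⟨1,[(16,0),(18,1),(0,0)]⟩ ⟨21,[(3,7),(0,3),(3,3),(8,6),(6,3),(7,1),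
  (4,4)]⟩),.k,(.r (-1) ⟨0,[(0,0),(17,0),(14,0),(1,0)]⟩ ⟨1,[(3,1),(13,0),(19,0)]⟩),.k,⟨false,1,⟨0,
  [(0,0),(17,0),(14,0),(1,0)]⟩,⟨0,[(3,1),(31,0),(0,0),(0,0)]⟩⟩,⟨true,0,⟨0,[(18,0)]⟩,⟨1,[(6,0),(2,0),
  (9,3)]⟩⟩,⟨false,0,⟨0,[(35,0)]⟩,⟨11,[(4,3),(8,3),(2,0),(0,0),(11,1),(7,7)]⟩⟩,⟨false,0,⟨0,[(3,1),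
  (14,0),(16,1),(0,0),(0,0)]⟩,⟨0,[(0,0)]⟩⟩,⟨true,0,⟨0,[(39,0)]⟩,⟨0,[]⟩⟩,⟨false,0,⟨0,[(3,1),(14,0),
  (16,0),(0,0),(0,0)]⟩,⟨0,[(0,0),(34,0)]⟩⟩,[.o ⟨false,0,⟨5,[(3,1),(2,1),(0,1),(9,1),(0,2),(1,0),(1,
  0),(10,1)]⟩,⟨3,[(0,1),(28,0),(7,0)]⟩⟩,.o ⟨false,0,⟨1,[(3,1),(2,0),(0,0),(10,0),(16,0),(0,0),(0,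
  0)]⟩,⟨7,[(0,3),(15,0),(0,0),(11,1),(9,3)]⟩⟩,.a ⟨true,0,⟨0,[(19,0)]⟩,⟨1,[(18,0),(8,0),(0,0)]⟩⟩
  ⟨true,0,⟨0,[(2,0),(30,0),(1,1)]⟩,⟨1,[(3,1),(32,0),(0,0)]⟩⟩ ⟨false,0,⟨1,[(3,1),(14,1),(16,1),(0,0),
  (0,0)]⟩,⟨3,[(0,1),(18,3),(9,0),(7,0)]⟩⟩,.o ⟨false,0,⟨1,[(6,0),(2,0),(9,1)]⟩,⟨7,[(16,0),(0,0),(0,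
  3),(10,1),(6,3)]⟩⟩]⟩) (.Q [0,0,0,-1,0,0,-1,-1,1,-1,1,-1] (.p true [-1,1,1] [0,0,0,1] (⟨0,[(12,
  0)]⟩,⟨0,[(27,0),(2,0)]⟩) .k 2 (⟨0,[(19,0)]⟩,⟨1,[(18,0),(8,0),(0,0)]⟩) .k (.x 0 ⟨1,[(5,0),(0,0),(3,
  0),(1,0)]⟩ ⟨1,[(25,1),(1,1),(1,0),(6,0)]⟩)) (.R ⟨1,false,false,false,[0,0,0,1],[-1,1,1],[1,1,0,0,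
  0,0,0,0,1],(⟨0,[(20,0)]⟩,⟨1,[(19,0),(8,0),(0,0)]⟩),(⟨0,[(13,0)]⟩,⟨0,[(28,0),(2,0)]⟩),⟨0,[(2,0)]⟩,
  .k,.k,(.r (-1) ⟨1,[(18,0),(17,1),(0,0)]⟩ ⟨0,[(3,0)]⟩),(.r (-1) ⟨3,[(0,3),(10,3),(5,0),(0,0),(1,3),
  (16,1)]⟩ ⟨1,[(9,0),(7,0),(9,0)]⟩),(.r (-1) ⟨0,[(0,0),(10,0),(8,0),(15,0),(0,0)]⟩ ⟨1,[(9,0),(2,0),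
  (4,0)]⟩),.k,⟨true,0,⟨0,[(0,0),(10,0),(8,0),(13,0)]⟩,⟨3,[(9,2),(7,1),(9,0),(5,1),(4,0)]⟩⟩,⟨false,1,
  ⟨0,[(11,0),(8,0),(16,0)]⟩,⟨21,[(0,1),(2,1),(1,1),(2,11),(0,3),(0,5),(8,9),(10,2),(7,0)]⟩⟩,⟨false,
  0,⟨0,[]⟩,⟨3,[(17,0),(0,0),(19,1)]⟩⟩,⟨false,1,⟨1,[(14,1),(2,0),(2,1),(17,0)]⟩,⟨0,[(0,0)]⟩⟩,⟨true,0,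
  ⟨0,[(35,0)]⟩,⟨0,[(36,0)]⟩⟩,⟨false,1,⟨1,[(3,1),(10,1),(5,1),(16,0),(0,0)]⟩,⟨0,[(0,0),(35,0)]⟩⟩,[.o
  ⟨false,0,⟨0,[(14,0)]⟩,⟨1,[(0,1),(16,0),(2,1),(9,0)]⟩⟩,.o ⟨false,1,⟨3,[(14,3),(2,0),(0,0),(19,1)]⟩,
  ⟨0,[(7,0),(0,0),(12,0)]⟩⟩,.a ⟨true,0,⟨1,[(19,0),(8,0),(0,0)]⟩,⟨0,[(20,0)]⟩⟩ ⟨false,0,⟨13,[(0,3),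
  (0,1),(2,3),(11,1),(1,0),(1,7),(16,1),(0,2)]⟩,⟨1,[(17,0),(20,0)]⟩⟩ ⟨true,0,⟨0,[(14,0),(5,0)]⟩,⟨1,
  [(7,0),(0,0),(10,0),(1,1),(14,0)]⟩⟩,.o ⟨false,0,⟨7,[(10,1),(8,3),(5,2),(0,0)]⟩,⟨1,[(20,1),(9,0),
  (6,0)]⟩⟩]⟩) (.I [0,-1,-1,-1,1,0,0,-1,1] (.R ⟨1,false,false,false,[1,0,0,-1],[2,-1,-1],[1,1,0,0,0,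
  0,0,0,-1],(⟨1,[(20,0),(8,0),(0,0)]⟩,⟨0,[(21,0)]⟩),(⟨0,[(29,0),(2,0)]⟩,⟨0,[(14,0)]⟩),⟨0,[(3,0),(16,
  0)]⟩,.k,.k,(.r (-1) ⟨1,[(18,0),(18,1),(0,0)]⟩ ⟨21,[(5,7),(0,3),(3,3),(8,6),(6,3),(7,1),(4,4)]⟩),
  (.r 0 ⟨1,[(10,0),(7,0),(9,0)]⟩ ⟨0,[(0,0),(40,0)]⟩),.k,.k,⟨false,0,⟨1,[(10,0),(7,0),(9,0),(6,1)]⟩,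
  ⟨0,[(0,0)]⟩⟩,⟨true,0,⟨7,[(9,3),(0,1),(0,1),(8,3),(1,1),(8,0),(7,0)]⟩,⟨0,[(12,0),(8,0)]⟩⟩,⟨false,0,
  ⟨0,[]⟩,⟨3,[(18,0),(0,0),(19,1)]⟩⟩,⟨false,1,⟨11,[(0,7),(1,1),(6,3),(1,3),(8,3),(1,3),(8,0),(7,4)]⟩,
  ⟨0,[(1,0)]⟩⟩,⟨true,0,⟨0,[(36,0)]⟩,⟨0,[(37,0)]⟩⟩,⟨false,1,⟨3,[(2,1),(19,3),(8,0),(7,4)]⟩,⟨0,[(1,0),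
  (35,0)]⟩⟩,[.o ⟨false,1,⟨5,[(0,1),(8,1),(8,0),(3,3),(8,2),(2,1)]⟩,⟨0,[(15,0)]⟩⟩,.o ⟨false,1,⟨0,[(8,
  0),(0,0),(12,0),(16,0)]⟩,⟨5,[(1,3),(0,0),(16,0),(0,0),(3,1),(11,1),(4,0)]⟩⟩,.a ⟨true,0,⟨0,[(21,
  0)]⟩,⟨1,[(20,0),(8,0),(0,0)]⟩⟩ ⟨true,0,⟨0,[(4,0),(30,0),(1,0)]⟩,⟨1,[(0,0),(4,0),(22,0)]⟩⟩ ⟨false,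
  1,⟨11,[(0,1),(7,5),(0,7),(8,0),(1,5),(1,9),(11,1),(4,8)]⟩,⟨0,[(15,0),(5,0)]⟩⟩,.o ⟨false,0,⟨1,[(8,
  0),(2,0),(9,1)]⟩,⟨7,[(18,0),(0,0),(0,3),(10,1),(6,3)]⟩⟩]⟩) (.Q [0,0,-2,0,1,0,-1,0,0,-1,1,1] (.p
  true [0,0,1] [1,0,0,-1] (⟨0,[(30,0)]⟩,⟨0,[(29,0)]⟩) .k 2 (⟨1,[(20,0),(8,0),(0,0)]⟩,⟨0,[(21,0)]⟩)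
  .k (.r 0 ⟨9,[(2,1),(2,3),(3,3),(7,1),(1,0),(1,3),(6,5),(9,1),(0,2)]⟩ ⟨1,[(12,1),(5,0),(3,1),(16,
  0)]⟩)) (.R ⟨1,false,false,false,[1,0,0,-1],[1,1,-1],[1,1,0,0,0,0,0,0,-1],(⟨1,[(21,0),(8,0),(0,
  0)]⟩,⟨0,[(22,0)]⟩),(⟨0,[(30,0),(3,0)]⟩,⟨0,[(8,0)]⟩),⟨0,[(4,0),(16,0)]⟩,.k,.k,(.r (-1) ⟨1,[(19,0),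
  (18,1),(0,0)]⟩ ⟨21,[(6,7),(0,3),(3,3),(8,6),(6,3),(7,1),(4,4)]⟩),(.r (-1) ⟨3,[(0,1),(17,0),(0,1),
  (1,0),(7,1),(8,3)]⟩ ⟨0,[(6,0),(6,0),(9,0),(16,0)]⟩),(.r (-1) ⟨1,[(2,1),(6,0),(0,2),(10,0),(16,2),
  (0,1)]⟩ ⟨0,[(6,0),(10,0),(9,0),(12,0)]⟩),.k,⟨true,0,⟨0,[(1,0),(36,1),(0,0)]⟩,⟨1,[(6,1),(0,0),(1,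
  0),(3,0),(9,0),(11,1),(4,1)]⟩⟩,⟨false,1,⟨0,[(0,0),(20,0)]⟩,⟨0,[(22,0),(4,0)]⟩⟩,⟨false,0,⟨0,[]⟩,⟨3,
  [(19,0),(0,0),(19,1)]⟩⟩,⟨false,1,⟨5,[(3,1),(3,2),(12,0),(0,0),(1,2),(16,6)]⟩,⟨0,[(2,0),(6,0),(0,
  0),(27,0)]⟩⟩,⟨true,0,⟨0,[(37,0)]⟩,⟨0,[(38,0)]⟩⟩,⟨false,1,⟨3,[(3,1),(3,3),(24,0),(7,4)]⟩,⟨0,[(2,0),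
  (6,0),(0,0),(27,1)]⟩⟩,[.o ⟨false,1,⟨1,[(17,1),(14,0),(7,0)]⟩,⟨1,[(9,0),(0,0),(7,0),(19,0)]⟩⟩,.o
  ⟨false,1,⟨0,[(7,0),(1,0),(0,0),(29,0)]⟩,⟨0,[(25,0),(12,0)]⟩⟩,.a ⟨true,0,⟨0,[(22,0)]⟩,⟨1,[(21,0),
  (8,0),(0,0)]⟩⟩ ⟨true,0,⟨2,[(1,0),(11,0),(5,0),(3,0),(12,0),(1,0)]⟩,⟨7,[(0,1),(2,1),(2,1),(2,1),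
  (10,0),(1,1),(12,1),(4,0)]⟩⟩ ⟨false,1,⟨1,[(7,0),(13,0),(1,0),(16,1)]⟩,⟨1,[(9,0),(0,0),(7,0),(3,1),
  (15,0)]⟩⟩,.o ⟨false,0,⟨1,[(9,0),(2,0),(9,1)]⟩,⟨7,[(19,0),(0,0),(0,3),(10,1),(6,3)]⟩⟩]⟩) (.Q [0,0,
  -2,0,1,0,-1,0,0,0,1] (.p true [0,0,1] [] (⟨0,[(31,0)]⟩,⟨0,[(30,0)]⟩) .k 0 (⟨0,[]⟩,⟨0,[]⟩) .k .k)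
  (.K ⟨0,[1,1,-1],1,0,(⟨0,[(31,0),(3,0)]⟩,⟨0,[(9,0)]⟩),.k,.k,(.r 0 ⟨3,[(1,1),(6,3),(1,0),(2,0),(9,
  1),(4,1),(12,1)]⟩ ⟨1,[(0,0),(10,0),(7,0),(19,2),(0,0)]⟩),.k,.k,[⟨0,[(1,0),(21,0)]⟩,⟨0,[(0,0)]⟩,⟨0,
  [(19,0),(7,0),(11,0)]⟩,⟨0,[(8,0),(1,0),(0,0)]⟩]⟩) (.K ⟨2,[0,-1,1],(-1),0,(⟨0,[(9,0)]⟩,⟨0,[(31,0),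
  (3,0)]⟩),.k,(.r (-1) ⟨0,[(30,0),(8,1),(0,0)]⟩ ⟨10,[(0,3),(7,11),(6,0),(12,7),(7,3),(4,3)]⟩),.k,.k,
  .k,[⟨0,[(39,0)]⟩,⟨0,[(18,0)]⟩,⟨3,[(20,0),(0,0),(7,3),(10,1)]⟩,⟨0,[(0,0)]⟩]⟩))))))) (.Q [0,0,0,0,0,
  1,0,0,0,0,0,-1] (.p false [0,0,0,1] [] (⟨0,[(17,0)]⟩,⟨1,[(16,0),(8,0),(0,0)]⟩) .k 0 (⟨0,[]⟩,⟨0,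
  []⟩) .k .k) (.R ⟨0,false,false,false,[0,0,0,1],[1,-1],[0,0,-1,-1],(⟨0,[(18,0)]⟩,⟨1,[(17,0),(8,0),
  (0,0)]⟩),(⟨0,[(29,0)]⟩,⟨0,[(30,0)]⟩),⟨0,[(0,0)]⟩,.k,.k,(.x 0 ⟨1,[(5,0),(2,0),(20,1)]⟩ ⟨3,[(15,0),
  (0,0),(13,3),(4,1)]⟩),(.r 0 ⟨21,[(2,7),(0,3),(3,3),(8,6),(6,3),(7,1),(4,4)]⟩ ⟨0,[(1,0),(13,0)]⟩),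
  .k,.k,⟨false,1,⟨3,[(15,0),(0,0),(18,1)]⟩,⟨0,[]⟩⟩,⟨true,0,⟨1,[(5,0),(2,0),(9,1)]⟩,⟨1,[(17,0),(8,0),
  (0,0)]⟩⟩,⟨true,1,⟨0,[(1,0),(13,0)]⟩,⟨0,[(2,0)]⟩⟩,⟨false,1,⟨1,[(5,1),(0,1),(8,0),(2,1),(17,0)]⟩,
  ⟨17,[(1,7),(0,7),(0,5),(8,5),(3,0),(0,8),(8,2),(0,2),(8,6)]⟩⟩,⟨false,0,⟨0,[]⟩,⟨0,[]⟩⟩,⟨false,0,⟨0,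
  []⟩,⟨0,[]⟩⟩,[.o ⟨false,0,⟨0,[(5,0),(0,0)]⟩,⟨5,[(3,1),(8,1),(2,1),(0,1),(11,0),(7,0)]⟩⟩,.o ⟨false,
  1,⟨3,[(1,1),(13,0),(12,1),(2,1),(4,0)]⟩,⟨0,[(33,0)]⟩⟩,.a ⟨true,0,⟨1,[(17,0),(8,0),(0,0)]⟩,⟨0,[(18,
  0)]⟩⟩ ⟨false,1,⟨1,[(1,1),(13,0),(20,0)]⟩,⟨13,[(3,3),(3,0),(2,2),(12,3),(7,1),(4,0)]⟩⟩ ⟨true,0,⟨0,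
  [(5,0),(0,0),(11,0)]⟩,⟨1,[(13,1),(0,0),(2,0)]⟩⟩,.o ⟨false,0,⟨7,[(8,1),(8,3),(5,2),(0,0)]⟩,⟨1,[(18,
  1),(9,0),(6,0)]⟩⟩]⟩) (.Q [0,-1,0,-2,0,0,0,0,1,0,0,-1] (.p false [0,0,0,1] [] (⟨0,[(18,0)]⟩,⟨1,
  [(17,0),(8,0),(0,0)]⟩) .k 0 (⟨0,[]⟩,⟨0,[]⟩) .k .k) (.R ⟨1,false,false,false,[0,0,0,1],[0,0,1],[1,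
  1,0,0,0,0,0,0,1],(⟨0,[(19,0)]⟩,⟨1,[(18,0),(8,0),(0,0)]⟩),(⟨0,[(28,0)]⟩,⟨0,[(27,0)]⟩),⟨0,[(1,0)]⟩,
  .k,.k,(.x 0 ⟨1,[(6,0),(2,0),(20,1)]⟩ ⟨3,[(16,0),(0,0),(13,3),(4,1)]⟩),.k,(.r (-1) ⟨1,[(2,1),(7,1),
  (12,1),(5,0),(7,0)]⟩ ⟨1,[(8,0),(7,0),(9,0)]⟩),.k,⟨false,0,⟨1,[(2,1),(1,0),(1,0),(3,0),(9,0)]⟩,⟨1,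
  [(16,0),(9,1),(10,0)]⟩⟩,⟨true,0,⟨0,[(6,0),(12,0)]⟩,⟨39,[(4,1),(2,7),(0,0),(0,5),(1,0),(6,19),(6,
  23),(11,0)]⟩⟩,⟨false,0,⟨0,[]⟩,⟨3,[(16,0),(0,0),(19,1)]⟩⟩,⟨false,1,⟨9,[(6,5),(0,3),(0,1),(6,3),(0,
  4),(2,9),(16,1),(0,4)]⟩,⟨0,[(0,0),(3,0)]⟩⟩,⟨true,0,⟨0,[(34,0)]⟩,⟨0,[(35,0)]⟩⟩,⟨false,1,⟨9,[(6,7),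
  (0,1),(0,5),(6,1),(0,4),(2,9),(16,5),(0,4)]⟩,⟨0,[(0,0),(13,0)]⟩⟩,[.o ⟨false,0,⟨4,[(6,2),(0,1),(0,
  0),(6,1),(20,0)]⟩,⟨1,[(23,1),(5,0),(7,0)]⟩⟩,.o ⟨false,1,⟨7,[(15,3),(0,0),(0,0),(11,1),(7,3)]⟩,⟨0,
  [(20,0)]⟩⟩,.a ⟨true,0,⟨1,[(18,0),(8,0),(0,0)]⟩,⟨0,[(19,0)]⟩⟩ ⟨false,0,⟨5,[(2,1),(0,1),(13,0),(19,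
  0)]⟩,⟨1,[(16,0),(20,0)]⟩⟩ ⟨true,0,⟨4,[(6,2),(0,1),(0,0),(6,1),(3,4),(16,0)]⟩,⟨1,[(18,0),(1,0),(2,
  0)]⟩⟩,.o ⟨false,0,⟨7,[(9,1),(8,3),(5,2),(0,0)]⟩,⟨1,[(19,1),(9,0),(6,0)]⟩⟩]⟩) (.R ⟨1,false,false,
  true,[0,0,0,1],[0,1],[1,1,0,0,0,0,0,0,1],(⟨0,[(19,0)]⟩,⟨1,[(18,0),(8,0),(0,0)]⟩),(⟨0,[(31,0)]⟩,⟨0,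
  [(30,0)]⟩),⟨0,[(1,0)]⟩,.k,.k,(.x 0 ⟨1,[(6,0),(2,0),(20,1)]⟩ ⟨3,[(16,0),(0,0),(13,3),(4,1)]⟩),(.x
  0 ⟨1,[(6,0),(2,0),(20,1)]⟩ ⟨3,[(16,0),(0,0),(13,3),(4,1)]⟩),(.r (-1) ⟨3,[(2,7),(13,2),(0,0)]⟩ ⟨9,
  [(4,5),(1,1),(1,5),(7,4),(7,3),(7,3),(4,0)]⟩),.k,⟨true,0,⟨0,[(2,0)]⟩,⟨1,[(8,0),(5,0),(1,0),(7,0),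
  (7,0)]⟩⟩,⟨false,1,⟨0,[(19,0),(16,0)]⟩,⟨7,[(9,1),(8,3),(5,2),(0,0)]⟩⟩,⟨false,0,⟨0,[]⟩,⟨3,[(16,0),
  (0,0),(19,1)]⟩⟩,⟨true,0,⟨0,[(0,0),(34,0)]⟩,⟨19,[(2,16),(0,0),(5,4),(7,0),(0,9),(5,4),(7,0),(2,
  2)]⟩⟩,⟨true,0,⟨0,[(34,0)]⟩,⟨0,[(35,0)]⟩⟩,⟨true,0,⟨0,[(0,0)]⟩,⟨19,[(2,16),(0,0),(5,4),(7,0),(0,9),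
  (5,4),(7,0),(2,22)]⟩⟩,[.o ⟨false,0,⟨0,[(34,0)]⟩,⟨3,[(2,1),(13,0),(12,1),(2,1),(4,0)]⟩⟩,.o ⟨false,
  1,⟨5,[(4,1),(8,1),(2,1),(0,1),(11,0),(7,0)]⟩,⟨0,[(6,0),(0,0)]⟩⟩,.a ⟨true,0,⟨1,[(18,0),(8,0),(0,
  0)]⟩,⟨0,[(19,0)]⟩⟩ ⟨false,0,⟨5,[(2,1),(0,1),(13,0),(19,0)]⟩,⟨1,[(16,0),(20,0)]⟩⟩ ⟨true,0,⟨6,[(0,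
  2),(2,0),(13,0),(1,3),(13,0),(5,1)]⟩,⟨1,[(6,0),(0,0),(10,0),(16,0)]⟩⟩,.o ⟨false,0,⟨7,[(9,1),(8,3),
  (5,2),(0,0)]⟩,⟨1,[(19,1),(9,0),(6,0)]⟩⟩]⟩))))))))

theorem ok4 : chk (cU (-1) false 3) t4 r7 = true := by decide +kernel

noncomputable def t8 : Tre :=
  (.I [0,-1,1,1,0,0,0,1] (.Q [0,0,0,-1,0,0,1,1,0,0,-1] (.p false [0,0,1] [] (⟨0,[(19,0)]⟩,⟨0,[(18,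
  0)]⟩) .k 0 (⟨0,[]⟩,⟨0,[]⟩) .k .k) (.Q [0,-1,0,1,0,0,1,1,0,2,-1] (.p false [-1,1,1] [1] (⟨0,[(4,
  0)]⟩,⟨0,[(19,0),(2,0)]⟩) .k 1 (⟨0,[]⟩,⟨0,[]⟩) .k .k) (.I [1,0,-1,0,0,0,0,1] (.R ⟨0,false,false,
  false,[1,0,-1],[1,-1],[1,0,0,-1],(⟨0,[(21,0)]⟩,⟨0,[(22,0)]⟩),(⟨0,[(24,0)]⟩,⟨0,[(25,0)]⟩),⟨0,[(6,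
  0)]⟩,.k,.k,.k,.k,.k,.k,⟨false,0,⟨0,[]⟩,⟨3,[(10,0),(0,0),(18,1)]⟩⟩,⟨true,0,⟨0,[(18,0)]⟩,⟨2,[(0,0),
  (0,0),(2,1),(12,1),(8,0)]⟩⟩,⟨false,0,⟨0,[(0,0),(25,0)]⟩,⟨1,[(8,1),(9,1),(11,0),(0,0)]⟩⟩,⟨true,0,
  ⟨0,[(2,0)]⟩,⟨0,[(8,0)]⟩⟩,⟨false,0,⟨0,[]⟩,⟨0,[]⟩⟩,⟨false,0,⟨0,[]⟩,⟨0,[]⟩⟩,[.a ⟨true,0,⟨0,[(29,0)]⟩,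
  ⟨1,[(1,0),(6,0)]⟩⟩ ⟨true,0,⟨0,[(29,0)]⟩,⟨1,[(3,0),(4,0),(9,0)]⟩⟩ ⟨false,1,⟨0,[(18,0),(10,0),(0,
  0)]⟩,⟨1,[(1,0),(2,1),(3,0)]⟩⟩,.o ⟨false,1,⟨1,[(23,0),(5,1),(1,0)]⟩,⟨0,[(28,0)]⟩⟩,.o ⟨false,0,⟨0,
  [(4,0)]⟩,⟨3,[(10,0),(0,0),(6,3),(11,1)]⟩⟩,.o ⟨false,0,⟨0,[(15,0)]⟩,⟨0,[(18,0),(11,0)]⟩⟩]⟩) (.R ⟨0,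
  false,false,false,[1,0,-1],[1,-1],[0,0,1],(⟨0,[(21,0)]⟩,⟨0,[(22,0)]⟩),(⟨0,[(24,0)]⟩,⟨0,[(25,0)]⟩),
  ⟨0,[(6,0)]⟩,.k,.k,.k,.k,.k,.k,⟨false,0,⟨1,[(3,0),(4,0),(9,0)]⟩,⟨0,[(29,0),(0,0)]⟩⟩,⟨true,0,⟨0,
  [(18,0)]⟩,⟨1,[(1,0),(2,1),(12,0),(11,0)]⟩⟩,⟨false,0,⟨1,[(3,0),(16,0),(5,0)]⟩,⟨0,[(0,0),(29,0)]⟩⟩,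
  ⟨true,0,⟨0,[(2,0)]⟩,⟨0,[(8,0)]⟩⟩,⟨false,0,⟨0,[]⟩,⟨0,[]⟩⟩,⟨false,0,⟨0,[]⟩,⟨0,[]⟩⟩,[.a ⟨true,0,⟨0,
  [(29,0)]⟩,⟨1,[(1,0),(6,0)]⟩⟩ ⟨true,0,⟨1,[(18,0),(0,0)]⟩,⟨0,[]⟩⟩ ⟨false,1,⟨0,[(18,0),(10,0),(0,
  0)]⟩,⟨1,[(1,0),(2,1),(3,0)]⟩⟩,.o ⟨false,1,⟨1,[(23,0),(5,1),(1,0)]⟩,⟨0,[(28,0)]⟩⟩,.o ⟨false,0,⟨0,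
  [(4,0)]⟩,⟨3,[(10,0),(0,0),(6,3),(11,1)]⟩⟩,.o ⟨false,0,⟨0,[(15,0)]⟩,⟨0,[(18,0),(11,0)]⟩⟩]⟩)) (.Q
  [0,0,0,0,0,0,1,0,0,2,-1] (.p false [-1,1,1] [1] (⟨0,[(5,0)]⟩,⟨0,[(20,0),(2,0)]⟩) .k 1 (⟨0,[]⟩,⟨0,
  []⟩) .k .k) (.Q [0,0,0,1,0,0,0,0,0,1] (.pp false [-1,1]) (.I [0,0,-1,0,1,0,0,-1] (.R ⟨0,false,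
  false,false,[1,0,-1],[1,-1],[0,0,1],(⟨0,[(23,0)]⟩,⟨0,[(24,0)]⟩),(⟨0,[(26,0)]⟩,⟨0,[(27,0)]⟩),⟨0,
  [(8,0)]⟩,.k,.k,.k,.k,.k,.k,⟨false,0,⟨1,[(5,0),(4,0),(9,0)]⟩,⟨0,[(31,0),(0,0)]⟩⟩,⟨true,0,⟨0,[(20,
  0)]⟩,⟨0,[(6,0),(16,0),(0,0)]⟩⟩,⟨false,0,⟨1,[(5,0),(16,0),(5,0)]⟩,⟨0,[(0,0)]⟩⟩,⟨true,0,⟨0,[(4,0)]⟩,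
  ⟨0,[(10,0)]⟩⟩,⟨false,0,⟨0,[]⟩,⟨0,[]⟩⟩,⟨false,0,⟨0,[]⟩,⟨0,[]⟩⟩,[.a ⟨true,0,⟨0,[(31,0)]⟩,⟨0,[(1,
  0)]⟩⟩ ⟨true,0,⟨1,[(20,0),(0,0)]⟩,⟨0,[]⟩⟩ ⟨false,1,⟨0,[(0,0),(3,0)]⟩,⟨0,[(1,0),(4,0)]⟩⟩,.o ⟨false,
  1,⟨1,[(25,0),(5,1),(1,0)]⟩,⟨0,[(30,0)]⟩⟩,.o ⟨false,0,⟨0,[(6,0)]⟩,⟨15,[(0,7),(10,3),(0,2),(0,2),(6,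
  7),(4,1)]⟩⟩,.o ⟨false,0,⟨0,[(17,0)]⟩,⟨0,[(20,0),(11,0)]⟩⟩]⟩) (.R ⟨0,false,false,false,[1,0,-1],[1,
  -1],[0,0,0,0,0,0,0,-1],(⟨0,[(23,0)]⟩,⟨0,[(24,0)]⟩),(⟨0,[(26,0)]⟩,⟨0,[(27,0)]⟩),⟨0,[(8,0)]⟩,.k,.k,
  .k,.k,.k,.k,⟨false,1,⟨1,[(10,1),(9,1),(11,0),(0,0)]⟩,⟨0,[(0,0),(30,0),(0,0)]⟩⟩,⟨true,0,⟨0,[(20,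
  0)]⟩,⟨0,[(6,0),(16,0),(0,0)]⟩⟩,⟨false,1,⟨3,[(12,0),(0,0),(19,1)]⟩,⟨0,[]⟩⟩,⟨true,0,⟨0,[(4,0)]⟩,⟨0,
  [(10,0)]⟩⟩,⟨false,0,⟨0,[]⟩,⟨0,[]⟩⟩,⟨false,0,⟨0,[]⟩,⟨0,[]⟩⟩,[.a ⟨true,0,⟨0,[(31,0)]⟩,⟨0,[(1,0)]⟩⟩
  ⟨true,1,⟨7,[(2,3),(0,3),(6,3),(1,0),(0,0),(6,3),(11,1),(0,3)]⟩,⟨0,[(0,0)]⟩⟩ ⟨false,1,⟨0,[(20,0),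
  (10,0),(0,0)]⟩,⟨0,[(1,0),(4,0)]⟩⟩,.o ⟨false,1,⟨1,[(25,0),(5,1),(1,0)]⟩,⟨0,[(30,0)]⟩⟩,.o ⟨false,0,
  ⟨0,[(6,0)]⟩,⟨3,[(12,0),(0,0),(6,3),(11,1)]⟩⟩,.o ⟨false,0,⟨0,[(17,0)]⟩,⟨0,[(20,0),(11,0)]⟩⟩]⟩))
  (.R ⟨0,false,false,true,[-1,1,1],[0,1],[0,0,1],(⟨0,[(7,0)]⟩,⟨0,[(22,0),(2,0)]⟩),(⟨0,[(26,0)]⟩,⟨0,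
  [(25,0)]⟩),⟨0,[(22,0)]⟩,.k,.k,.k,.k,.k,.k,⟨false,1,⟨1,[(30,1),(0,0),(0,0)]⟩,⟨0,[(29,0)]⟩⟩,⟨true,0,
  ⟨0,[(5,0)]⟩,⟨3,[(1,1),(17,2),(0,0)]⟩⟩,⟨false,1,⟨0,[(1,0),(0,0),(29,0)]⟩,⟨0,[(4,0),(23,0)]⟩⟩,⟨true,
  0,⟨0,[(15,0)]⟩,⟨2,[(1,0),(8,0),(10,0)]⟩⟩,⟨false,0,⟨0,[]⟩,⟨0,[]⟩⟩,⟨false,0,⟨0,[]⟩,⟨0,[]⟩⟩,[.o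
  ⟨false,0,⟨0,[(29,0)]⟩,⟨1,[(24,0),(5,1),(1,0)]⟩⟩,.o ⟨false,1,⟨3,[(11,0),(0,0),(16,3),(2,1)]⟩,⟨0,
  [(0,0)]⟩⟩,.o ⟨false,1,⟨7,[(1,3),(9,0),(0,0),(6,3),(11,5)]⟩,⟨0,[(2,0),(1,0)]⟩⟩,.a ⟨true,0,⟨0,[(1,
  0)]⟩,⟨0,[(5,0)]⟩⟩ ⟨false,1,⟨3,[(11,0),(0,0),(19,1)]⟩,⟨0,[]⟩⟩ ⟨true,0,⟨0,[(5,0),(23,0)]⟩,⟨0,[(0,0),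
  (0,0)]⟩⟩]⟩)) (.Q [0,0,0,0,0,0,1,1,0,0,-1] (.p false [0,0,1] [] (⟨0,[(22,0)]⟩,⟨0,[(21,0)]⟩) .k 0
  (⟨0,[]⟩,⟨0,[]⟩) .k .k) (.Q [0,0,0,0,0,1,0,0,0,0,-1] (.ed true [1,-1,1] .k) (.Q [0,0,-1,-1,0,0,-1,
  0,0,0,1] (.p true [0,0,1] [] (⟨0,[(24,0)]⟩,⟨0,[(23,0)]⟩) .k 0 (⟨0,[]⟩,⟨0,[]⟩) .k .k) (.Q [0,0,-1,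
  0,0,0,-1,0,0,1,1] (.p true [1,-1,1] [] (⟨0,[(25,0),(1,0)]⟩,⟨0,[(1,0)]⟩) .k 0 (⟨0,[]⟩,⟨0,[]⟩) .k
  .k) (.I [1,-1,0,-1,0,0,0,1] (.R ⟨0,false,false,false,[0,1,-1],[0,1],[1,0,1],(⟨0,[(3,0)]⟩,⟨0,[(27,
  0),(1,0)]⟩),(⟨0,[(30,0)]⟩,⟨0,[(29,0)]⟩),⟨0,[(27,0)]⟩,.k,.k,.k,.k,.k,.k,⟨true,0,⟨0,[(34,0)]⟩,⟨1,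
  [(8,0),(4,0),(9,0)]⟩⟩,⟨false,1,⟨0,[(23,0),(11,0)]⟩,⟨2,[(1,0),(7,0),(14,0)]⟩⟩,⟨false,0,⟨0,[(0,0)]⟩,
  ⟨1,[(13,1),(9,1),(11,0),(0,0)]⟩⟩,⟨true,0,⟨0,[(4,0)]⟩,⟨0,[(22,0)]⟩⟩,⟨false,0,⟨0,[]⟩,⟨0,[]⟩⟩,⟨false,
  0,⟨0,[]⟩,⟨0,[]⟩⟩,[.e ⟨false,0,⟨0,[]⟩,⟨3,[(15,0),(0,0),(18,1)]⟩⟩ ⟨false,1,⟨1,[(23,1),(9,1),(1,0),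
  (0,0)]⟩,⟨0,[(2,0)]⟩⟩,.o ⟨false,1,⟨0,[(33,0),(2,0)]⟩,⟨1,[(6,0),(14,0),(12,0)]⟩⟩,.a ⟨true,0,⟨0,[(1,
  0)]⟩,⟨0,[(23,0)]⟩⟩ ⟨true,0,⟨1,[(23,0),(0,0)]⟩,⟨0,[(32,0)]⟩⟩ ⟨false,1,⟨0,[(23,0),(9,0),(2,0)]⟩,⟨0,
  [(2,0)]⟩⟩,.o ⟨false,0,⟨2,[(1,0),(7,0),(14,0)]⟩,⟨1,[(23,1),(4,0),(6,0)]⟩⟩]⟩) (.R ⟨0,false,false,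
  false,[0,1,-1],[0,1],[0,1],(⟨0,[(3,0)]⟩,⟨0,[(27,0),(1,0)]⟩),(⟨0,[(30,0)]⟩,⟨0,[(29,0)]⟩),⟨0,[(27,
  0)]⟩,.k,.k,.k,.k,.k,.k,⟨true,0,⟨0,[(32,0),(1,0)]⟩,⟨0,[(0,0),(7,0),(22,0)]⟩⟩,⟨false,1,⟨0,[(23,0),
  (11,0)]⟩,⟨2,[(1,0),(7,0),(14,0)]⟩⟩,⟨false,0,⟨0,[(2,0),(1,0)]⟩,⟨0,[(13,0),(9,0),(12,0)]⟩⟩,⟨true,0,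
  ⟨0,[(4,0)]⟩,⟨0,[(22,0)]⟩⟩,⟨false,0,⟨0,[]⟩,⟨0,[]⟩⟩,⟨false,0,⟨0,[]⟩,⟨0,[]⟩⟩,[.e ⟨false,0,⟨0,[(32,
  0)]⟩,⟨3,[(15,0),(0,0),(19,1)]⟩⟩ ⟨false,1,⟨7,[(0,3),(11,3),(2,0),(0,0),(6,3),(4,1),(6,1),(0,1)]⟩,
  ⟨0,[(2,0)]⟩⟩,.o ⟨false,1,⟨2,[(0,0),(9,0),(24,0),(0,1)]⟩,⟨1,[(6,0),(14,0),(12,0)]⟩⟩,.a ⟨true,0,⟨0,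
  [(1,0)]⟩,⟨0,[(23,0)]⟩⟩ ⟨true,0,⟨0,[(38,0)]⟩,⟨0,[]⟩⟩ ⟨false,1,⟨13,[(0,5),(9,1),(1,3),(2,0),(0,0),
  (6,9),(4,1),(7,9)]⟩,⟨0,[(2,0)]⟩⟩,.o ⟨false,0,⟨2,[(1,0),(7,0),(14,0)]⟩,⟨1,[(23,1),(4,0),(6,
  0)]⟩⟩]⟩)) (.K ⟨2,[1,-1,1],0,0,(⟨0,[(26,0),(1,0)]⟩,⟨0,[(2,0)]⟩),.k,(.x 0 ⟨1,[(0,2),(18,0),(6,1),(1,
  3)]⟩ ⟨3,[(1,1),(0,3),(4,0),(4,0),(10,0),(5,3),(4,3)]⟩),.k,.k,.k,[⟨0,[(0,0),(0,0)]⟩,⟨0,[(12,0),(12,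
  0),(0,0)]⟩,⟨3,[(1,1),(5,0),(4,0),(10,0),(1,3),(0,3)]⟩,⟨1,[(0,1),(21,0),(0,0)]⟩]⟩)) (.Q [0,0,0,1,0,
  0,0,0,0,1] (.pp false [-1,1]) (.I [1,0,-1,-1,0,0,0,1] (.R ⟨0,false,false,true,[0,0,1],[0,1],[0,1,
  2,1],(⟨0,[(27,0)]⟩,⟨0,[(26,0)]⟩),(⟨0,[(30,0)]⟩,⟨0,[(29,0)]⟩),⟨0,[(3,0)]⟩,.k,.k,.k,.k,.k,.k,⟨true,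
  0,⟨1,[(23,0),(0,0)]⟩,⟨0,[]⟩⟩,⟨false,1,⟨1,[(0,1),(12,1),(21,0),(0,0)]⟩,⟨0,[(23,0)]⟩⟩,⟨false,0,⟨0,
  [(2,0),(10,0),(17,0)]⟩,⟨1,[(0,1),(34,0),(0,0)]⟩⟩,⟨true,0,⟨0,[(13,0)]⟩,⟨0,[(7,0)]⟩⟩,⟨false,0,⟨0,
  []⟩,⟨0,[]⟩⟩,⟨false,0,⟨0,[]⟩,⟨0,[]⟩⟩,[.o ⟨false,0,⟨0,[(33,0)]⟩,⟨1,[(28,0),(5,1),(1,0)]⟩⟩,.a ⟨true,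
  0,⟨0,[(1,0)]⟩,⟨0,[(34,0)]⟩⟩ ⟨false,0,⟨5,[(2,1),(5,0),(1,0),(2,1),(17,0)]⟩,⟨0,[(34,0),(0,0)]⟩⟩
  ⟨true,0,⟨0,[(1,0),(7,0)]⟩,⟨0,[(23,0),(10,0)]⟩⟩,.o ⟨false,1,⟨3,[(15,0),(0,0),(6,3),(11,1)]⟩,⟨0,[(9,
  0)]⟩⟩,.o ⟨false,0,⟨0,[(23,0)]⟩,⟨3,[(9,1),(14,1),(3,0),(6,2)]⟩⟩]⟩) (.R ⟨0,false,false,true,[0,0,1],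
  [0,1],[1,1,1],(⟨0,[(27,0)]⟩,⟨0,[(26,0)]⟩),(⟨0,[(30,0)]⟩,⟨0,[(29,0)]⟩),⟨0,[(3,0)]⟩,.k,.k,.k,.k,.k,
  .k,⟨true,0,⟨0,[(34,0)]⟩,⟨2,[(0,0),(9,0)]⟩⟩,⟨false,1,⟨0,[(1,0),(7,0),(24,0),(0,0)]⟩,⟨0,[(23,0)]⟩⟩,
  ⟨false,0,⟨0,[(0,0),(33,0)]⟩,⟨1,[(25,1),(9,0),(0,0)]⟩⟩,⟨true,0,⟨0,[(13,0)]⟩,⟨0,[(7,0)]⟩⟩,⟨false,0,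
  ⟨0,[]⟩,⟨0,[]⟩⟩,⟨false,0,⟨0,[]⟩,⟨0,[]⟩⟩,[.o ⟨false,0,⟨0,[(33,0)]⟩,⟨1,[(28,0),(5,1),(1,0)]⟩⟩,.a
  ⟨true,0,⟨0,[(1,0)]⟩,⟨0,[(34,0)]⟩⟩ ⟨false,0,⟨0,[]⟩,⟨3,[(15,0),(0,0),(18,1)]⟩⟩ ⟨true,0,⟨0,[(1,0),(7,
  0)]⟩,⟨0,[(23,0),(10,0)]⟩⟩,.o ⟨false,1,⟨3,[(15,0),(0,0),(6,3),(11,1)]⟩,⟨0,[(9,0)]⟩⟩,.o ⟨false,0,⟨0,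
  [(23,0)]⟩,⟨3,[(9,1),(14,1),(3,0),(6,2)]⟩⟩]⟩)) (.K ⟨2,[1,-1,1],0,0,(⟨0,[(26,0),(1,0)]⟩,⟨0,[(2,
  0)]⟩),.k,(.x 0 ⟨0,[(4,0),(17,1),(3,0),(1,1)]⟩ ⟨0,[(8,0),(16,0),(3,1),(4,0)]⟩),.k,.k,.k,[⟨0,[(0,
  0)]⟩,⟨0,[(12,0),(12,0),(0,0)]⟩,⟨0,[(8,0),(16,1),(0,1)]⟩,⟨5,[(4,1),(0,0),(3,0),(12,8),(7,0)]⟩]⟩)))
  (.K ⟨2,[0,-1,1],0,0,(⟨0,[(0,0)]⟩,⟨0,[(23,0),(3,0)]⟩),.k,(.x 0 ⟨5,[(0,5),(1,1),(0,0),(3,0),(12,8),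
  (5,5),(1,0)]⟩ ⟨0,[(6,0),(16,0),(3,1),(4,0)]⟩),.k,.k,.k,[⟨0,[(31,0)]⟩,⟨0,[(10,0)]⟩,⟨0,[(6,0),(16,
  0),(0,0)]⟩,⟨1,[(20,2),(0,0)]⟩]⟩)) (.R ⟨2,true,false,false,[0,1],[0,0,1],[0,1,1],(⟨0,[]⟩,⟨0,[]⟩),
  (⟨0,[(23,0)]⟩,⟨0,[(22,0)]⟩),⟨0,[]⟩,.k,.k,.k,.k,.k,.k,⟨false,0,⟨0,[(0,0),(18,0),(8,0)]⟩,⟨1,[(21,1),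
  (9,0),(0,0)]⟩⟩,⟨true,0,⟨0,[(19,0)]⟩,⟨0,[(0,0),(20,0)]⟩⟩,⟨false,0,⟨0,[(30,0)]⟩,⟨0,[(29,0),(2,0)]⟩⟩,
  ⟨true,0,⟨0,[(3,0)]⟩,⟨0,[(9,0)]⟩⟩,⟨true,0,⟨0,[(34,0)]⟩,⟨0,[]⟩⟩,⟨false,1,⟨7,[(10,3),(0,0),(0,0),(11,
  1),(7,3)]⟩,⟨0,[(0,0)]⟩⟩,[]⟩)))) (.R ⟨0,false,false,false,[1,0,-1],[1,-1],[1,0,0,-1],(⟨0,[(19,0)]⟩,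
  ⟨0,[(20,0)]⟩),(⟨0,[(22,0)]⟩,⟨0,[(23,0)]⟩),⟨0,[(4,0)]⟩,.k,.k,.k,.k,.k,.k,⟨false,0,⟨0,[]⟩,⟨3,[(8,0),
  (0,0),(18,1)]⟩⟩,⟨true,0,⟨0,[(16,0)]⟩,⟨0,[(2,0),(16,0),(0,0)]⟩⟩,⟨true,0,⟨0,[(18,0),(8,0)]⟩,⟨0,[(0,
  0),(15,0),(8,0)]⟩⟩,⟨false,1,⟨7,[(7,3),(0,0),(0,0),(11,1),(5,7),(1,3)]⟩,⟨0,[(0,0)]⟩⟩,⟨false,0,⟨0,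
  []⟩,⟨0,[]⟩⟩,⟨false,0,⟨0,[]⟩,⟨0,[]⟩⟩,[.a ⟨true,0,⟨0,[(27,0)]⟩,⟨1,[(0,0),(4,0),(13,0),(0,0)]⟩⟩
  ⟨true,0,⟨0,[(27,0)]⟩,⟨2,[(0,0),(2,0),(12,0)]⟩⟩ ⟨false,1,⟨0,[(16,0),(10,0),(0,0)]⟩,⟨0,[(0,0),(17,
  0)]⟩⟩,.o ⟨false,1,⟨1,[(21,0),(5,1),(1,0)]⟩,⟨0,[(26,0)]⟩⟩,.o ⟨false,0,⟨0,[(2,0)]⟩,⟨3,[(8,0),(0,0),
  (6,3),(11,1)]⟩⟩,.o ⟨false,0,⟨0,[(13,0)]⟩,⟨0,[(16,0),(11,0)]⟩⟩]⟩)) (.Q [0,0,0,0,0,0,1,0,0,2,-1]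
  (.p false [-1,1,1] [1] (⟨0,[(3,0)]⟩,⟨0,[(18,0),(2,0)]⟩) .k 1 (⟨0,[]⟩,⟨0,[]⟩) .k .k) (.K ⟨0,[2,-1,
  -1],0,0,(⟨0,[(19,0),(2,0)]⟩,⟨0,[(4,0)]⟩),.k,(.r (-1) ⟨1,[(1,1),(25,1),(0,0),(0,0)]⟩ ⟨0,[(3,0)]⟩),
  .k,.k,.k,[⟨0,[(0,0)]⟩,⟨0,[(2,0)]⟩,⟨2,[(0,1),(5,2),(0,1),(10,1)]⟩,⟨0,[(1,0),(0,1),(13,0)]⟩]⟩) (.Q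
  [0,0,0,0,0,-2,0,0,0,2,-1] (.p false [-1,1,1] [1] (⟨0,[(4,0)]⟩,⟨0,[(19,0),(2,0)]⟩) .k 1 (⟨0,[]⟩,⟨0,
  []⟩) .k .k) (.R ⟨1,true,true,false,[2,-1,-1],[],[1,1,-1,-1,0,0,0,-1],(⟨1,[(0,0),(19,1),(0,0)]⟩,⟨0,
  [(5,0)]⟩),(⟨0,[]⟩,⟨0,[]⟩),⟨0,[(0,0)]⟩,.k,.k,(.r (-1) ⟨1,[(2,1),(25,1),(0,0),(0,0)]⟩ ⟨0,[(4,0)]⟩),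
  .k,(.r (-1) ⟨1,[(2,1),(25,1),(0,0),(0,0)]⟩ ⟨0,[(4,0)]⟩),.k,⟨true,0,⟨0,[(2,0)]⟩,⟨0,[(1,0),(4,1),(0,
  0),(17,1)]⟩⟩,⟨false,1,⟨1,[(2,1),(3,1),(13,1),(0,1),(7,0),(0,0)]⟩,⟨2,[(1,1),(12,1),(2,0)]⟩⟩,⟨false,
  0,⟨0,[]⟩,⟨3,[(9,0),(0,0),(19,1)]⟩⟩,⟨true,0,⟨0,[(6,0),(13,0),(0,0)]⟩,⟨8,[(1,5),(0,4),(10,5),(1,1),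
  (1,0),(7,3)]⟩⟩,⟨true,0,⟨0,[(27,0)]⟩,⟨0,[(28,0)]⟩⟩,⟨false,1,⟨7,[(6,11),(0,3),(1,0),(0,0),(9,3),(0,
  3),(8,5)]⟩,⟨0,[(1,0),(0,0),(22,0)]⟩⟩,[]⟩) (.Q [0,-1,0,-1,0,0,0,0,-1,-1,0,1] (.p true [0,0,0,1]
  [1] (⟨0,[(12,0)]⟩,⟨1,[(11,0),(8,0),(0,0)]⟩) .k 1 (⟨0,[]⟩,⟨0,[]⟩) .k .k) (.R ⟨0,false,false,false,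
  [0,0,0,1],[1,-1],[1,0,0,0,0,0,0,0,1],(⟨0,[(13,0)]⟩,⟨1,[(12,0),(8,0),(0,0)]⟩),(⟨0,[(24,0)]⟩,⟨0,
  [(25,0)]⟩),⟨1,[(1,0),(10,0),(8,0)]⟩,.k,.k,(.r (-1) ⟨1,[(11,0),(17,1),(0,0)]⟩ ⟨5,[(0,5),(4,1),(1,
  1),(0,5),(0,0),(2,2),(5,1)]⟩),(.r (-1) ⟨5,[(5,1),(2,1),(1,0),(0,3),(6,1),(12,0)]⟩ ⟨1,[(0,1),(11,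
  0),(8,0),(0,0),(4,1)]⟩),.k,.k,⟨false,1,⟨1,[(11,0),(16,1),(2,0)]⟩,⟨1,[(0,1),(11,0),(8,0),(0,0),(4,
  1)]⟩⟩,⟨true,0,⟨2,[(2,0),(10,2),(1,0),(2,1)]⟩,⟨1,[(12,0),(8,0),(0,0)]⟩⟩,⟨true,0,⟨0,[]⟩,⟨0,[(33,
  0)]⟩⟩,⟨false,0,⟨0,[(0,0)]⟩,⟨7,[(7,3),(0,3),(1,0),(0,4),(0,3),(18,1)]⟩⟩,⟨false,0,⟨0,[]⟩,⟨0,[]⟩⟩,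
  ⟨false,0,⟨0,[]⟩,⟨0,[]⟩⟩,[.o ⟨false,0,⟨0,[(2,0),(0,0),(3,0),(18,0)]⟩,⟨3,[(10,0),(0,0),(16,3),(2,
  1)]⟩⟩,.o ⟨false,1,⟨1,[(23,0),(5,1),(1,0)]⟩,⟨0,[(28,0)]⟩⟩,.a ⟨true,0,⟨1,[(12,0),(8,0),(0,0)]⟩,⟨0,
  [(13,0)]⟩⟩ ⟨false,1,⟨1,[(11,0),(19,0)]⟩,⟨1,[(0,1),(7,1),(0,0),(2,0)]⟩⟩ ⟨true,0,⟨0,[(2,0),(0,0),(3,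
  0),(5,0),(12,0)]⟩,⟨1,[(8,1),(0,0),(2,0)]⟩⟩,.o ⟨false,0,⟨1,[(12,0),(2,0),(2,0)]⟩,⟨1,[(13,1),(9,0),
  (6,0)]⟩⟩]⟩) (.Q [0,-1,0,0,0,0,1,1,1,1,-1,-1] (.p false [0,0,1] [1,0,0,-1] (⟨0,[(22,0)]⟩,⟨0,[(21,
  0)]⟩) .k 2 (⟨1,[(12,0),(8,0),(0,0)]⟩,⟨0,[(13,0)]⟩) .k (.x (-1) ⟨3,[(10,0),(0,0),(6,3),(3,3),(7,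
  1)]⟩ ⟨0,[(4,0),(16,0)]⟩)) (.R ⟨0,false,false,true,[0,0,0,1],[1,0,-1],[0,1,0,0,0,0,0,0,1],(⟨0,[(14,
  0)]⟩,⟨1,[(13,0),(8,0),(0,0)]⟩),(⟨0,[(22,0)]⟩,⟨0,[(23,0)]⟩),⟨1,[(2,0),(10,0),(8,0)]⟩,.k,.k,(.r 0
  ⟨0,[(0,0),(3,0),(0,0),(8,0)]⟩ ⟨5,[(6,1),(2,1),(1,3),(0,0),(6,1),(12,0)]⟩),.k,.k,.k,⟨false,0,⟨0,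
  [(0,0),(4,0),(8,0),(13,0)]⟩,⟨1,[(4,0),(4,0),(1,0),(7,0),(12,0)]⟩⟩,⟨true,0,⟨0,[(5,0),(8,0)]⟩,⟨1,
  [(13,0),(5,1),(2,0),(0,0)]⟩⟩,⟨true,0,⟨0,[(34,0)]⟩,⟨0,[]⟩⟩,⟨false,1,⟨1,[(11,0),(2,1),(0,1),(16,
  0)]⟩,⟨0,[(0,0)]⟩⟩,⟨false,0,⟨0,[]⟩,⟨0,[]⟩⟩,⟨false,0,⟨0,[]⟩,⟨0,[]⟩⟩,[.o ⟨false,0,⟨0,[(15,0)]⟩,⟨7,
  [(10,3),(0,0),(0,0),(11,1),(7,3)]⟩⟩,.o ⟨false,1,⟨1,[(18,1),(5,0),(7,0)]⟩,⟨0,[(3,0),(0,0),(3,1),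
  (18,0)]⟩⟩,.a ⟨true,0,⟨1,[(13,0),(8,0),(0,0)]⟩,⟨0,[(14,0)]⟩⟩ ⟨false,0,⟨0,[(0,0),(13,0),(0,0)]⟩,⟨1,
  [(11,0),(20,0)]⟩⟩ ⟨true,0,⟨0,[(14,0),(0,0)]⟩,⟨1,[(10,0),(2,0)]⟩⟩,.o ⟨false,0,⟨1,[(13,0),(2,0),(2,
  0)]⟩,⟨1,[(14,1),(9,0),(6,0)]⟩⟩]⟩) (.Q [0,0,0,0,0,1,0,0,0,0,-1] (.ed true [1,-1,1] .k) (.K ⟨2,[1,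
  -1,1],0,0,(⟨0,[(24,0),(1,0)]⟩,⟨0,[(0,0)]⟩),.k,(.x 0 ⟨0,[(4,0),(15,1),(3,0),(1,1)]⟩ ⟨0,[(6,0),(16,
  0),(3,1),(4,0)]⟩),.k,.k,.k,[⟨0,[(4,0),(0,0),(3,0),(18,0)]⟩,⟨0,[(10,0),(12,0),(0,0)]⟩,⟨0,[(6,0),
  (16,1),(0,1)]⟩,⟨2,[(4,0),(12,0),(2,4)]⟩]⟩) (.I [1,0,0,0,0,0,0,0,-1] (.Q [0,-1,0,-1,0,0,1,1,0,1,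
  -1] (.p false [0,0,1] [1] (⟨0,[(25,0)]⟩,⟨0,[(24,0)]⟩) .k 1 (⟨0,[]⟩,⟨0,[]⟩) .k .k) (.R ⟨2,true,
  false,true,[0,1],[1,1,-1],[0,1,1],(⟨0,[]⟩,⟨0,[]⟩),(⟨0,[(25,0),(3,0)]⟩,⟨0,[(2,0)]⟩),⟨0,[]⟩,.k,.k,
  .k,.k,.k,.k,⟨false,0,⟨0,[(0,0),(7,0),(22,0)]⟩,⟨1,[(12,1),(9,1),(11,0),(0,0)]⟩⟩,⟨true,0,⟨0,[(8,
  0)]⟩,⟨0,[(0,0),(11,0),(9,0)]⟩⟩,⟨false,0,⟨0,[(33,0)]⟩,⟨0,[(32,0),(2,0)]⟩⟩,⟨true,0,⟨0,[(18,0)]⟩,⟨2,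
  [(0,0),(10,0),(1,0),(7,0)]⟩⟩,⟨true,0,⟨0,[(37,0)]⟩,⟨0,[]⟩⟩,⟨false,1,⟨1,[(12,1),(14,0),(7,0)]⟩,⟨0,
  [(0,0)]⟩⟩,[]⟩) (.R ⟨0,false,false,false,[0,0,0,1],[-1,1,1],[1,1],(⟨0,[(17,0)]⟩,⟨1,[(16,0),(8,0),
  (0,0)]⟩),(⟨0,[(10,0)]⟩,⟨0,[(25,0),(2,0)]⟩),⟨1,[(5,0),(10,0),(8,0)]⟩,.k,.k,(.r (-1) ⟨1,[(15,0),(17,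
  1),(0,0)]⟩ ⟨0,[(0,0),(0,0),(9,0),(18,0)]⟩),(.r (-1) ⟨1,[(7,1),(7,0),(19,0)]⟩ ⟨1,[(1,1),(7,0),(14,
  0)]⟩),.k,.k,⟨true,0,⟨0,[(7,0)]⟩,⟨0,[(6,0),(4,1),(0,0),(17,1)]⟩⟩,⟨false,1,⟨1,[(7,1),(3,1),(5,1),
  (16,0),(0,0)]⟩,⟨5,[(6,1),(9,2),(2,4),(2,0)]⟩⟩,⟨false,0,⟨0,[(1,0)]⟩,⟨1,[(15,0),(19,0)]⟩⟩,⟨true,0,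
  ⟨0,[(1,0),(9,0),(5,0)]⟩,⟨0,[(4,0),(1,0),(0,0),(22,0)]⟩⟩,⟨false,0,⟨0,[]⟩,⟨0,[]⟩⟩,⟨false,0,⟨0,[]⟩,
  ⟨0,[]⟩⟩,[.o ⟨false,0,⟨0,[(11,0)]⟩,⟨2,[(7,1),(0,0),(9,0),(4,0),(3,1),(2,0),(4,0)]⟩⟩,.o ⟨false,1,⟨3,
  [(11,3),(2,0),(0,0),(19,1)]⟩,⟨8,[(6,5),(0,4),(10,5),(1,1),(1,0),(7,3)]⟩⟩,.a ⟨true,0,⟨1,[(16,0),(8,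
  0),(0,0)]⟩,⟨0,[(17,0)]⟩⟩ ⟨false,0,⟨0,[]⟩,⟨3,[(14,0),(0,0),(19,1)]⟩⟩ ⟨true,0,⟨0,[(11,0),(5,0)]⟩,⟨5,
  [(6,1),(0,3),(8,2),(1,2),(0,1),(0,0),(9,1)]⟩⟩,.o ⟨false,0,⟨1,[(16,0),(2,0),(2,0)]⟩,⟨1,[(17,1),(9,
  0),(6,0)]⟩⟩]⟩)) (.K ⟨2,[0,-1,1],0,0,(⟨0,[(1,0)]⟩,⟨0,[(24,0),(3,0)]⟩),.k,(.x 0 ⟨2,[(1,2),(3,0),(12,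
  0),(2,4),(5,2)]⟩ ⟨0,[(7,0),(16,0),(3,1),(4,0)]⟩),.k,.k,.k,[⟨0,[(32,0)]⟩,⟨0,[(11,0)]⟩,⟨0,[(7,0),
  (16,0),(0,0)]⟩,⟨1,[(21,2),(0,0)]⟩]⟩))))))))

theorem ok8 : chk (cU (-1) false 3) t8 r4 = true := by decide +kernel

noncomputable def t10 : Tre :=
  (.Q [0,0,-1,0,0,0,0,0,0,1] (.pp false [-1,1]) (.Q [0,-1,0,-1,1,0,-1,-1,0,-2,1] (.p true [-1,1,1]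
  [1] (⟨0,[(2,0)]⟩,⟨0,[(17,0),(2,0)]⟩) .k 1 (⟨0,[]⟩,⟨0,[]⟩) .k .k) (.R ⟨2,false,false,true,[0,1],
  [-1,1,1],[0,0,1],(⟨0,[]⟩,⟨0,[]⟩),(⟨0,[(3,0)]⟩,⟨0,[(18,0),(2,0)]⟩),⟨0,[]⟩,.k,.k,.k,.k,.k,.k,⟨false,
  1,⟨5,[(2,3),(2,1),(1,0),(0,0),(6,1),(12,3)]⟩,⟨0,[(17,0),(7,0)]⟩⟩,⟨true,0,⟨0,[(1,0),(13,0)]⟩,⟨0,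
  [(12,0)]⟩⟩,⟨true,0,⟨0,[(26,0)]⟩,⟨0,[(25,0)]⟩⟩,⟨false,0,⟨3,[(1,1),(4,1),(8,0),(0,0)]⟩,⟨1,[(0,0),(4,
  0),(22,0)]⟩⟩,⟨false,1,⟨3,[(7,0),(0,0),(19,1)]⟩,⟨0,[]⟩⟩,⟨false,0,⟨0,[(4,0)]⟩,⟨11,[(0,5),(1,1),(4,
  0),(0,0),(5,3),(1,1),(6,1),(4,3)]⟩⟩,[.o ⟨false,0,⟨0,[(5,0),(0,0)]⟩,⟨0,[(0,0)]⟩⟩,.o ⟨false,0,⟨0,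
  [(4,0)]⟩,⟨0,[(0,0),(29,0)]⟩⟩,.a ⟨true,0,⟨0,[(1,0)]⟩,⟨1,[(15,0),(0,0)]⟩⟩ ⟨true,0,⟨1,[(15,0),(0,
  0)]⟩,⟨0,[(24,0)]⟩⟩ ⟨false,0,⟨1,[(4,1),(10,0),(0,0)]⟩,⟨0,[(0,0),(0,0)]⟩⟩,.e ⟨false,1,⟨3,[(7,0),(0,
  0),(19,1)]⟩,⟨0,[]⟩⟩ ⟨false,0,⟨0,[(4,0)]⟩,⟨11,[(0,5),(1,1),(4,0),(0,0),(5,3),(1,1),(6,1),(4,
  3)]⟩⟩]⟩) (.R ⟨2,true,false,true,[0,1],[1,-1],[0,0,1],(⟨0,[]⟩,⟨0,[]⟩),(⟨0,[(21,0)]⟩,⟨0,[(22,0)]⟩),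
  ⟨0,[]⟩,.k,.k,.k,(.r (-1) ⟨0,[(15,0),(0,0),(8,1),(2,0)]⟩ ⟨0,[(2,0),(14,0)]⟩),.k,.k,⟨false,1,⟨1,
  [(15,0),(0,0),(8,1),(2,1)]⟩,⟨1,[(2,0),(14,0),(6,1)]⟩⟩,⟨true,0,⟨0,[(12,0),(2,0)]⟩,⟨0,[(1,0)]⟩⟩,
  ⟨true,0,⟨0,[(26,0)]⟩,⟨0,[(25,0)]⟩⟩,⟨false,0,⟨1,[(2,1),(3,0),(5,2),(2,0)]⟩,⟨0,[(4,0),(0,0),(22,
  0)]⟩⟩,⟨false,1,⟨3,[(7,0),(0,0),(19,1)]⟩,⟨0,[]⟩⟩,⟨true,0,⟨3,[(2,1),(8,0),(0,2),(0,2),(1,0)]⟩,⟨1,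
  [(0,0),(4,0),(22,0)]⟩⟩,[]⟩)) (.R ⟨0,false,false,true,[-1,1,1],[0,0,1],[1,0,1,0,0,0,0,1],(⟨0,[(2,
  0)]⟩,⟨0,[(17,0),(2,0)]⟩),(⟨0,[(18,0)]⟩,⟨0,[(17,0)]⟩),⟨0,[(17,0)]⟩,.k,.k,.k,.k,.k,.k,⟨false,1,⟨3,
  [(6,0),(0,0),(19,1)]⟩,⟨0,[(23,0)]⟩⟩,⟨true,0,⟨0,[(0,0)]⟩,⟨0,[(17,0),(0,0)]⟩⟩,⟨true,0,⟨0,[(25,0)]⟩,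
  ⟨0,[(24,0)]⟩⟩,⟨false,0,⟨1,[(0,1),(0,0),(14,0)]⟩,⟨7,[(3,3),(0,3),(1,0),(0,0),(9,3),(0,3),(8,5)]⟩⟩,
  ⟨false,0,⟨0,[]⟩,⟨0,[]⟩⟩,⟨false,0,⟨0,[]⟩,⟨0,[]⟩⟩,[.o ⟨false,0,⟨0,[(12,0)]⟩,⟨0,[(10,0),(16,0)]⟩⟩,.o
  ⟨false,0,⟨1,[(0,1),(0,0),(1,1),(12,0)]⟩,⟨1,[(13,1),(5,0),(7,0)]⟩⟩,.a ⟨true,0,⟨0,[(1,0),(1,1),(0,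
  0),(17,0)]⟩,⟨0,[(11,0)]⟩⟩ ⟨true,0,⟨1,[(5,0),(5,0),(3,0)]⟩,⟨0,[(0,0),(0,0),(1,0),(0,0)]⟩⟩ ⟨false,0,
  ⟨0,[(0,0),(15,0)]⟩,⟨23,[(1,15),(1,11),(0,19),(1,0),(0,0),(6,7),(2,11),(0,11),(8,21)]⟩⟩,.o ⟨false,
  0,⟨1,[(1,0),(1,1),(0,0),(9,0),(7,0)]⟩,⟨1,[(11,1),(7,0),(6,0)]⟩⟩]⟩))

theorem ok10 : chk (cU (-1) false 3) t10 r3 = true := by decide +kernel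

noncomputable def t12 : Tre :=
  (.I [0,0,-2,-2,1,0,0,-1] (.K ⟨0,[1,-1,-1],0,0,(⟨0,[(4,0)]⟩,⟨0,[(20,0),(2,0)]⟩),.k,(.r (-1) ⟨0,[(0,
  0)]⟩ ⟨0,[(1,0),(3,1),(7,0),(2,0)]⟩),.k,.k,.k,[⟨0,[(2,0)]⟩,⟨1,[(1,0),(16,0),(0,0),(0,0)]⟩,⟨0,[(6,
  0),(0,0)]⟩,⟨0,[(12,0),(14,0)]⟩]⟩) (.Q [0,0,0,0,0,1,0,0,0,0,-1] (.ed true [1,-1,1] .k) (.R ⟨0,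
  false,false,false,[0,0,1],[1,0,-1],[0,1],(⟨0,[(21,0)]⟩,⟨0,[(20,0)]⟩),(⟨0,[(20,0)]⟩,⟨0,[(21,0)]⟩),
  ⟨0,[(0,0)]⟩,.k,.k,.k,.k,.k,.k,⟨false,0,⟨0,[(19,0),(6,0)]⟩,⟨0,[(3,0),(9,0),(16,0)]⟩⟩,⟨true,0,⟨0,
  [(2,0),(16,0)]⟩,⟨0,[(3,0),(13,0)]⟩⟩,⟨true,0,⟨0,[(3,0),(9,0)]⟩,⟨0,[(19,0)]⟩⟩,⟨false,1,⟨0,[(2,0),(0,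
  0),(9,0),(16,0)]⟩,⟨0,[(8,0)]⟩⟩,⟨false,0,⟨0,[]⟩,⟨0,[]⟩⟩,⟨false,0,⟨0,[]⟩,⟨0,[]⟩⟩,[.a ⟨true,0,⟨0,[(2,
  0),(0,0)]⟩,⟨1,[(8,0),(11,0),(0,0)]⟩⟩ ⟨false,0,⟨0,[(26,0)]⟩,⟨3,[(9,0),(0,0),(19,1)]⟩⟩ ⟨true,0,⟨0,
  [(2,0)]⟩,⟨3,[(3,1),(4,1),(8,2),(0,0)]⟩⟩,.o ⟨false,1,⟨0,[(13,0),(16,0)]⟩,⟨0,[(15,0)]⟩⟩,.e ⟨true,0,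
  ⟨0,[(32,0)]⟩,⟨0,[]⟩⟩ ⟨true,0,⟨0,[(2,0)]⟩,⟨0,[(3,0),(11,0)]⟩⟩,.o ⟨false,0,⟨0,[(17,0)]⟩,⟨2,[(2,0),
  (15,0),(0,0),(2,0),(6,1)]⟩⟩]⟩) (.K ⟨0,[0,-1,1],0,0,(⟨0,[(0,0)]⟩,⟨0,[(20,0),(3,0)]⟩),.k,(.r (-1)
  ⟨0,[(19,0),(8,1),(0,0)]⟩ ⟨0,[(1,0),(1,1),(9,1),(16,0)]⟩),.k,.k,.k,[⟨1,[(2,0),(16,0),(0,0),(0,0)]⟩,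
  ⟨0,[(3,0)]⟩,⟨0,[(7,0)]⟩,⟨0,[(15,0),(12,0)]⟩]⟩)))

theorem ok12 : chk (cU (-1) false 3) t12 l10 = true := by decide +kernel

noncomputable def t13 : Tre :=
  (.Q [0,0,0,0,0,0,-1,0,0,0,1] (.p true [0,0,1] [] (⟨0,[(22,0)]⟩,⟨0,[(21,0)]⟩) .k 0 (⟨0,[]⟩,⟨0,[]⟩)
  .k .k) (.K ⟨0,[1,-1,-1],0,0,(⟨0,[(7,0)]⟩,⟨0,[(23,0),(2,0)]⟩),.k,(.r (-1) ⟨0,[(1,0),(28,0)]⟩ ⟨0,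
  [(3,0)]⟩),.k,.k,.k,[⟨0,[(5,0)]⟩,⟨0,[(0,0)]⟩,⟨0,[(9,0),(0,0)]⟩,⟨0,[(15,0),(14,0)]⟩]⟩) (.Q [0,0,0,
  -1,0,0,-1,-1,0,0,1] (.p true [0,0,1] [] (⟨0,[(23,0)]⟩,⟨0,[(22,0)]⟩) .k 0 (⟨0,[]⟩,⟨0,[]⟩) .k .k)
  (.R ⟨2,true,false,false,[0,1],[0,1,1],[0,1,1],(⟨0,[]⟩,⟨0,[]⟩),(⟨0,[(24,0),(2,0)]⟩,⟨0,[(8,0)]⟩),⟨0,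
  []⟩,.k,.k,.k,.k,.k,.k,⟨false,0,⟨0,[(0,0),(0,0),(27,0)]⟩,⟨1,[(4,0),(17,0),(9,0),(0,0)]⟩⟩,⟨true,0,
  ⟨0,[(1,0)]⟩,⟨0,[(21,0)]⟩⟩,⟨false,0,⟨0,[(31,0)]⟩,⟨5,[(3,1),(6,3),(14,0),(7,4)]⟩⟩,⟨true,0,⟨0,[(1,0),
  (20,0)]⟩,⟨0,[(19,0)]⟩⟩,⟨true,0,⟨0,[(35,0)]⟩,⟨0,[]⟩⟩,⟨false,1,⟨2,[(3,1),(6,0),(14,0),(7,1)]⟩,⟨0,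
  [(0,0)]⟩⟩,[]⟩) (.Q [0,0,0,-2,0,0,0,0,0,-1] (.pp true [-1,1]) (.Q [0,0,0,1,0,0,0,0,0,1] (.pp false
  [-1,1]) (.R ⟨2,false,false,false,[0,1],[1,-1],[],(⟨0,[]⟩,⟨0,[]⟩),(⟨0,[(28,0)]⟩,⟨0,[(29,0)]⟩),⟨0,
  []⟩,.k,.k,.k,(.r 0 ⟨0,[(2,1),(9,1),(17,1)]⟩ ⟨0,[(33,1),(0,0)]⟩),.k,.k,⟨true,0,⟨0,[(2,0),(9,0),(17,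
  0)]⟩,⟨0,[(33,0)]⟩⟩,⟨false,0,⟨0,[(3,0),(15,0)]⟩,⟨0,[(0,0),(32,0),(0,0)]⟩⟩,⟨false,1,⟨1,[(33,1),(0,
  0),(0,0)]⟩,⟨0,[(2,0),(9,0),(17,0)]⟩⟩,⟨true,0,⟨0,[(1,0)]⟩,⟨1,[(0,0),(4,0),(6,1)]⟩⟩,⟨false,1,⟨1,
  [(34,0),(0,0)]⟩,⟨1,[(22,0),(0,0)]⟩⟩,⟨false,1,⟨7,[(1,3),(12,0),(0,0),(11,1),(7,3)]⟩,⟨0,[(0,0)]⟩⟩,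
  [.a ⟨true,0,⟨0,[(33,0)]⟩,⟨0,[(0,0)]⟩⟩ ⟨false,1,⟨3,[(14,0),(0,0),(18,1)]⟩,⟨0,[]⟩⟩ ⟨true,0,⟨1,[(1,
  0),(17,0),(2,0)]⟩,⟨0,[(0,0)]⟩⟩,.o ⟨false,1,⟨7,[(1,3),(12,0),(0,0),(11,1),(7,3)]⟩,⟨0,[(32,0)]⟩⟩,.o
  ⟨false,1,⟨3,[(14,0),(0,0),(18,1)]⟩,⟨0,[(3,0),(15,0)]⟩⟩,.e ⟨false,1,⟨1,[(34,0),(0,0)]⟩,⟨1,[(22,0),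
  (0,0)]⟩⟩ ⟨false,1,⟨7,[(1,3),(12,0),(0,0),(11,1),(7,3)]⟩,⟨0,[(0,0)]⟩⟩]⟩) (.Q [0,0,0,0,0,-1,0,0,0,0,
  1] (.ed false [1,-1,1] .k) (.Q [0,-1,0,-1,0,0,1,1,0,1,-1] (.p false [0,0,1] [1] (⟨0,[(27,0)]⟩,⟨0,
  [(26,0)]⟩) .k 1 (⟨0,[]⟩,⟨0,[]⟩) .k .k) (.R ⟨2,true,false,true,[0,1],[1,1,-1],[1,1,1,1],(⟨0,[]⟩,⟨0,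
  []⟩),(⟨0,[(27,0),(3,0)]⟩,⟨0,[(1,0)]⟩),⟨0,[]⟩,.k,.k,.k,.k,.k,.k,⟨true,0,⟨0,[(26,0)]⟩,⟨0,[(5,0),(8,
  0),(17,0)]⟩⟩,⟨false,1,⟨0,[(21,0),(14,0)]⟩,⟨0,[(10,0)]⟩⟩,⟨false,0,⟨0,[]⟩,⟨3,[(16,0),(0,0),(19,
  1)]⟩⟩,⟨true,0,⟨0,[(20,0)]⟩,⟨2,[(0,0),(12,0),(1,0),(7,0)]⟩⟩,⟨true,0,⟨0,[(34,0)]⟩,⟨0,[(35,0)]⟩⟩,
  ⟨false,1,⟨1,[(14,1),(14,0),(7,0)]⟩,⟨0,[(0,0)]⟩⟩,[]⟩) (.I [0,-1,0,-1,0,0,0,0,-1] (.R ⟨1,false,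
  false,false,[1,0,0,-1],[1,-1],[0,0,0,-1,0,0,0,0,-1],(⟨1,[(19,0),(8,0),(0,0)]⟩,⟨0,[(20,0)]⟩),(⟨0,
  [(31,0)]⟩,⟨0,[(32,0)]⟩),⟨1,[(2,0),(10,0),(5,0)]⟩,.k,.k,(.r 0 ⟨0,[(0,0),(33,0)]⟩ ⟨5,[(9,1),(5,1),
  (1,0),(0,3),(6,1),(12,0)]⟩),(.r 0 ⟨2,[(0,2),(4,0),(3,0),(5,1),(9,0),(9,0)]⟩ ⟨1,[(18,0),(17,1),(0,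
  0)]⟩),.k,.k,⟨false,0,⟨0,[(0,0),(34,0)]⟩,⟨1,[(18,0),(18,0)]⟩⟩,⟨true,0,⟨1,[(19,0),(2,0),(2,0)]⟩,⟨0,
  [(20,0)]⟩⟩,⟨true,0,⟨0,[(36,0)]⟩,⟨0,[(35,0)]⟩⟩,⟨false,1,⟨1,[(4,0),(13,0),(0,0),(18,0)]⟩,⟨0,[(0,0),
  (4,0),(9,0),(4,0)]⟩⟩,⟨false,1,⟨3,[(17,0),(0,0),(19,1)]⟩,⟨0,[]⟩⟩,⟨false,1,⟨0,[(12,0)]⟩,⟨0,[(0,0),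
  (19,0),(14,0)]⟩⟩,[.o ⟨false,0,⟨0,[(3,0)]⟩,⟨11,[(8,3),(6,7),(1,2),(0,2),(11,1),(7,3)]⟩⟩,.o ⟨false,
  1,⟨7,[(4,3),(12,0),(0,0),(11,1),(7,3)]⟩,⟨0,[(35,0)]⟩⟩,.a ⟨true,0,⟨0,[(20,0)]⟩,⟨1,[(19,0),(8,0),(0,
  0)]⟩⟩ ⟨false,0,⟨0,[(0,0)]⟩,⟨5,[(8,1),(6,3),(2,2),(11,0),(7,1)]⟩⟩ ⟨true,0,⟨1,[(4,0),(14,0)]⟩,⟨0,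
  [(20,0),(14,0)]⟩⟩,.o ⟨false,0,⟨4,[(1,1),(1,2),(1,0),(3,0),(10,4),(4,0),(7,1)]⟩,⟨7,[(17,0),(0,0),
  (0,3),(10,1),(6,3)]⟩⟩]⟩) (.Q [0,-1,0,0,0,0,0,0,-2,-1,0,2] (.p true [0,0,0,1] [1,0,0,-1] (⟨0,[(20,
  0)]⟩,⟨1,[(19,0),(8,0),(0,0)]⟩) .k 2 (⟨1,[(19,0),(8,0),(0,0)]⟩,⟨0,[(20,0)]⟩) .k .k) (.R ⟨1,false,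
  false,true,[1,0,0,-1],[0,0,0,1],[1,1,0,0,0,0,0,0,-1],(⟨1,[(20,0),(8,0),(0,0)]⟩,⟨0,[(21,0)]⟩),(⟨0,
  [(21,0)]⟩,⟨1,[(20,0),(8,0),(0,0)]⟩),⟨1,[(3,0),(10,0),(5,0)]⟩,.k,.k,(.x 0 ⟨1,[(3,0),(10,0),(8,0),
  (2,0)]⟩ ⟨3,[(18,0),(0,0),(13,3),(4,1)]⟩),.k,(.r 0 ⟨0,[(0,0),(19,0),(14,0),(1,0)]⟩ ⟨3,[(1,1),(8,0),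
  (5,0),(2,2),(6,0),(7,0),(4,0)]⟩),.k,⟨false,0,⟨0,[(0,0),(19,0),(14,0)]⟩,⟨0,[(19,0)]⟩⟩,⟨true,0,⟨0,
  [(20,0)]⟩,⟨2,[(0,0),(0,1),(2,0),(16,3),(1,0),(2,0),(7,0)]⟩⟩,⟨false,0,⟨0,[]⟩,⟨3,[(18,0),(0,0),(19,
  1)]⟩⟩,⟨false,1,⟨0,[(19,0),(0,0)]⟩,⟨0,[(0,0)]⟩⟩,⟨true,0,⟨0,[(36,0)]⟩,⟨0,[(37,0)]⟩⟩,⟨false,1,⟨1,[(1,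
  1),(17,0),(0,1),(18,0)]⟩,⟨0,[(0,0),(36,0)]⟩⟩,[.o ⟨false,0,⟨1,[(1,1),(3,0),(14,0)]⟩,⟨3,[(0,1),(17,
  0),(0,0),(11,0),(7,0)]⟩⟩,.o ⟨false,1,⟨7,[(18,0),(0,4),(0,3),(10,1)]⟩,⟨3,[(0,1),(1,0),(1,0),(19,
  0)]⟩⟩,.a ⟨true,0,⟨0,[(21,0)]⟩,⟨1,[(20,0),(8,0),(0,0)]⟩⟩ ⟨false,0,⟨1,[(0,0),(19,0),(20,0)]⟩,⟨1,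
  [(19,0),(19,0)]⟩⟩ ⟨true,0,⟨0,[(1,0),(18,0),(16,0)]⟩,⟨5,[(0,3),(0,1),(3,0),(15,3),(0,0),(1,0)]⟩⟩,
  .o ⟨false,0,⟨2,[(0,0),(0,1),(2,0),(16,0),(1,0),(2,0),(7,0)]⟩,⟨7,[(18,0),(0,0),(0,3),(10,1),(6,
  3)]⟩⟩]⟩) (.Q [0,0,0,0,0,0,-1,-1,1,0,1,-1] (.p true [0,0,1] [0,0,0,1] (⟨0,[(30,0)]⟩,⟨0,[(29,0)]⟩)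
  .k 2 (⟨0,[(21,0)]⟩,⟨1,[(20,0),(8,0),(0,0)]⟩) .k (.x 0 ⟨0,[(7,0),(22,0)]⟩ ⟨1,[(27,1),(1,1),(1,0),
  (6,0)]⟩)) (.R ⟨1,false,false,true,[1,0,0,-1],[1,-1,-1],[0,0,0,-1,0,0,0,0,-1],(⟨1,[(21,0),(8,0),(0,
  0)]⟩,⟨0,[(22,0)]⟩),(⟨0,[(15,0)]⟩,⟨0,[(31,0),(2,0)]⟩),⟨1,[(4,0),(10,0),(5,0)]⟩,.k,.k,(.r (-1) ⟨1,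
  [(19,0),(18,1),(0,0)]⟩ ⟨3,[(0,2),(1,0),(4,1),(3,0),(10,2),(4,0),(7,0)]⟩),(.x (-1) ⟨5,[(9,1),(2,3),
  (4,1),(13,5),(0,1),(1,5),(4,0),(0,0)]⟩ ⟨0,[(15,0),(8,0)]⟩),.k,.k,⟨false,1,⟨1,[(19,0),(9,1),(10,
  0)]⟩,⟨0,[(0,0),(7,0),(13,0),(13,0)]⟩⟩,⟨true,0,⟨1,[(21,0),(2,0),(3,0)]⟩,⟨0,[(8,0),(13,0)]⟩⟩,⟨true,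
  0,⟨0,[(38,0)]⟩,⟨0,[(37,0)]⟩⟩,⟨false,0,⟨0,[(0,0),(37,0)]⟩,⟨1,[(7,1),(11,0),(2,1),(17,0)]⟩⟩,⟨false,
  1,⟨3,[(19,0),(0,0),(19,1)]⟩,⟨0,[]⟩⟩,⟨false,0,⟨0,[(0,0)]⟩,⟨5,[(5,1),(1,1),(10,1),(0,2),(2,5),(17,
  2)]⟩⟩,[.o ⟨false,0,⟨1,[(6,0),(16,0),(2,0)]⟩,⟨2,[(10,1),(6,0),(14,0),(7,1)]⟩⟩,.o ⟨false,1,⟨1,[(9,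
  0),(16,0),(1,0),(3,0),(2,0)]⟩,⟨0,[(7,0)]⟩⟩,.a ⟨true,0,⟨0,[(22,0)]⟩,⟨1,[(21,0),(8,0),(0,0)]⟩⟩
  ⟨false,1,⟨1,[(19,0),(18,1),(1,0)]⟩,⟨0,[(0,0),(6,0),(14,0)]⟩⟩ ⟨true,0,⟨1,[(6,0),(14,0),(4,1)]⟩,⟨0,
  [(7,0),(14,0)]⟩⟩,.o ⟨false,0,⟨4,[(3,1),(1,2),(1,0),(3,0),(10,4),(4,0),(7,1)]⟩,⟨17,[(1,1),(12,1),
  (4,2),(1,5),(10,3),(6,8)]⟩⟩]⟩) (.Q [0,0,2,0,-1,0,1,0,0,0,-1] (.p false [0,0,1] [] (⟨0,[(31,0)]⟩,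
  ⟨0,[(30,0)]⟩) .k 0 (⟨0,[]⟩,⟨0,[]⟩) .k .k) (.K ⟨2,[0,-1,1],(-1),0,(⟨0,[(5,0)]⟩,⟨0,[(31,0),(3,0)]⟩),
  .k,(.r (-1) ⟨0,[(30,0),(8,1),(0,0)]⟩ ⟨10,[(0,7),(7,3),(3,0),(5,15),(9,3),(12,7)]⟩),.k,.k,.k,[⟨0,
  [(39,0)]⟩,⟨0,[(18,0)]⟩,⟨3,[(20,0),(0,0),(7,3),(10,1)]⟩,⟨0,[(0,0)]⟩]⟩) (.I [0,0,0,0,0,0,0,0,1] (.Q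
  [0,-1,0,0,1,0,-1,-1,-1,-1,1,1] (.p true [0,0,1] [1,0,0,-1] (⟨0,[(33,0)]⟩,⟨0,[(32,0)]⟩) .k 2 (⟨1,
  [(23,0),(8,0),(0,0)]⟩,⟨0,[(24,0)]⟩) .k (.r 0 ⟨0,[(0,0),(30,0)]⟩ ⟨5,[(10,1),(0,1),(7,3),(1,2),(7,
  1),(7,1),(4,0)]⟩)) (.R ⟨1,false,false,true,[1,0,0,-1],[0,0,1],[1,1,0,0,0,0,0,0,-1],(⟨1,[(24,0),(8,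
  0),(0,0)]⟩,⟨0,[(25,0)]⟩),(⟨0,[(34,0)]⟩,⟨0,[(33,0)]⟩),⟨1,[(7,0),(10,0),(5,0)]⟩,.k,.k,(.r (-1) ⟨7,
  [(2,1),(6,0),(2,1),(8,0),(0,3),(18,3)]⟩ ⟨0,[(1,0),(8,0),(9,0),(17,0)]⟩),.k,(.r (-1) ⟨3,[(0,1),(2,
  1),(5,0),(2,1),(3,1),(7,1),(1,0),(2,0)]⟩ ⟨1,[(1,1),(12,0),(17,0)]⟩),.k,⟨false,1,⟨1,[(0,0),(2,0),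
  (7,0),(0,0),(7,0),(3,0)]⟩,⟨0,[(1,0),(30,0)]⟩⟩,⟨true,0,⟨1,[(11,0),(4,0),(7,0)]⟩,⟨0,[(25,0),(1,
  0)]⟩⟩,⟨false,0,⟨0,[]⟩,⟨3,[(22,0),(0,0),(19,1)]⟩⟩,⟨false,0,⟨1,[(1,1),(19,0),(2,0)]⟩,⟨0,[(0,0)]⟩⟩,
  ⟨true,0,⟨0,[(40,0)]⟩,⟨0,[(41,0)]⟩⟩,⟨false,0,⟨1,[(1,1),(8,0),(8,0),(4,0)]⟩,⟨0,[(0,0),(40,0)]⟩⟩,[.o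
  ⟨false,0,⟨0,[(28,0)]⟩,⟨0,[(26,0),(16,0)]⟩⟩,.o ⟨false,0,⟨2,[(8,0),(1,0),(10,0)]⟩,⟨2,[(0,1),(3,0),
  (24,0),(5,0)]⟩⟩,.a ⟨true,0,⟨0,[(25,0)]⟩,⟨1,[(24,0),(8,0),(0,0)]⟩⟩ ⟨true,0,⟨1,[(3,1),(20,0),(1,0),
  (2,0)]⟩,⟨0,[(1,0)]⟩⟩ ⟨false,0,⟨1,[(21,0),(2,0)]⟩,⟨0,[(0,0),(0,0)]⟩⟩,.o ⟨false,0,⟨4,[(6,1),(1,2),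
  (1,0),(3,0),(10,4),(4,0),(7,1)]⟩,⟨17,[(4,1),(12,1),(4,2),(1,5),(10,3),(6,8)]⟩⟩]⟩) (.Q [0,-1,0,-1,
  1,0,-1,-1,-1,-1,1,1] (.p true [0,0,1] [1,0,0,-1] (⟨0,[(34,0)]⟩,⟨0,[(33,0)]⟩) .k 2 (⟨1,[(24,0),(8,
  0),(0,0)]⟩,⟨0,[(25,0)]⟩) .k (.r 0 ⟨0,[(1,0),(30,0)]⟩ ⟨5,[(11,1),(0,1),(7,3),(1,2),(7,1),(7,1),(4,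
  0)]⟩)) (.R ⟨1,true,false,true,[1,0,-1],[0,0,0,1],[0,1,0,-1,0,0,0,-1],(⟨0,[(34,0)]⟩,⟨0,[(35,0)]⟩),
  (⟨0,[(26,0)]⟩,⟨1,[(25,0),(8,0),(0,0)]⟩),⟨0,[(19,0)]⟩,.k,.k,.k,.k,(.r (-1) ⟨1,[(0,0),(3,0),(8,0),
  (3,0),(7,0),(1,0)]⟩ ⟨1,[(2,1),(12,0),(17,0)]⟩),.k,⟨false,1,⟨1,[(0,0),(3,0),(8,0),(3,0),(7,0),(1,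
  0)]⟩,⟨0,[(1,0),(5,0),(18,0),(6,0),(10,0)]⟩⟩,⟨true,0,⟨1,[(12,0),(4,0),(7,0)]⟩,⟨0,[(26,0),(1,0)]⟩⟩,
  ⟨false,0,⟨0,[(42,0)]⟩,⟨5,[(14,1),(6,3),(14,0),(7,4)]⟩⟩,⟨true,(-1),⟨0,[(1,0)]⟩,⟨3,[(0,1),(20,1),(1,
  0),(2,1),(9,0)]⟩⟩,⟨true,0,⟨0,[(46,0)]⟩,⟨0,[]⟩⟩,⟨false,0,⟨3,[(1,1),(3,0),(5,1),(8,0),(0,0),(22,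
  1)]⟩,⟨0,[(0,0)]⟩⟩,[]⟩) (.R ⟨1,false,false,true,[1,0,0,-1],[0,0,1],[0,1,0,-1,0,0,0,0,-1],(⟨1,[(25,
  0),(8,0),(0,0)]⟩,⟨0,[(26,0)]⟩),(⟨0,[(35,0)]⟩,⟨0,[(34,0)]⟩),⟨1,[(8,0),(10,0),(5,0)]⟩,.k,.k,(.r
  (-1) ⟨7,[(3,1),(6,0),(2,1),(8,0),(0,3),(18,3)]⟩ ⟨3,[(0,0),(1,2),(4,0),(7,0),(5,0),(4,0),(4,0),(7,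
  0),(4,0)]⟩),.k,(.r (-1) ⟨1,[(4,1),(2,0),(5,1),(7,0),(3,0),(13,1)]⟩ ⟨1,[(2,1),(12,0),(17,0)]⟩),.k,
  ⟨false,1,⟨1,[(4,1),(2,0),(5,1),(7,0),(3,0),(13,1)]⟩,⟨2,[(0,1),(1,0),(0,0),(7,0),(14,1),(1,1),(15,
  0)]⟩⟩,⟨true,0,⟨1,[(12,0),(4,0),(7,0)]⟩,⟨0,[(26,0),(1,0)]⟩⟩,⟨false,0,⟨0,[(42,0)]⟩,⟨5,[(14,1),(6,3),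
  (14,0),(7,4)]⟩⟩,⟨true,(-1),⟨0,[(1,0)]⟩,⟨1,[(23,0),(2,1),(0,1),(16,0)]⟩⟩,⟨true,0,⟨0,[(46,0)]⟩,⟨0,
  []⟩⟩,⟨true,(-1),⟨0,[(0,0)]⟩,⟨3,[(10,0),(2,0),(9,1),(2,3),(0,2),(4,0),(6,0),(4,0)]⟩⟩,[.o ⟨false,0,
  ⟨0,[(29,0)]⟩,⟨0,[(27,0),(16,0)]⟩⟩,.o ⟨false,0,⟨2,[(9,0),(1,0),(10,0)]⟩,⟨1,[(30,1),(5,0),(7,0)]⟩⟩,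
  .a ⟨true,0,⟨0,[(26,0)]⟩,⟨1,[(25,0),(8,0),(0,0)]⟩⟩ ⟨true,0,⟨1,[(4,1),(5,0),(14,0),(4,1)]⟩,⟨1,[(0,
  0),(1,0),(4,0),(18,0),(17,0)]⟩⟩ ⟨false,0,⟨1,[(22,0),(2,0)]⟩,⟨0,[(26,0),(0,0),(16,0)]⟩⟩,.o ⟨false,
  0,⟨4,[(7,1),(1,2),(1,0),(3,0),(10,4),(4,0),(7,1)]⟩,⟨17,[(5,1),(12,1),(4,2),(1,5),(10,3),(6,
  8)]⟩⟩]⟩))) (.Q [0,-1,0,0,1,0,-1,-1,1,0,1,-1] (.p true [0,0,1] [0,0,0,1] (⟨0,[(33,0)]⟩,⟨0,[(32,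
  0)]⟩) .k 2 (⟨0,[(24,0)]⟩,⟨1,[(23,0),(8,0),(0,0)]⟩) .k (.r 0 ⟨0,[(0,0),(30,0)]⟩ ⟨5,[(10,1),(0,1),
  (7,3),(2,2),(6,1),(7,1),(4,0)]⟩)) (.R ⟨1,false,false,false,[1,0,0,-1],[1,-1,-1],[0,0,0,-1,0,0,0,0,
  -1],(⟨1,[(24,0),(8,0),(0,0)]⟩,⟨0,[(25,0)]⟩),(⟨0,[(18,0)]⟩,⟨0,[(34,0),(2,0)]⟩),⟨1,[(7,0),(10,0),(5,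
  0)]⟩,.k,.k,(.x 0 ⟨1,[(7,0),(10,0),(8,0),(2,0)]⟩ ⟨3,[(22,0),(0,0),(13,3),(4,1)]⟩),(.r 0 ⟨1,[(1,1),
  (12,0),(17,0)]⟩ ⟨8,[(0,0),(3,1),(6,2),(0,5),(10,1),(1,4),(0,1),(11,2)]⟩),.k,.k,⟨false,0,⟨0,[(1,0),
  (30,0)]⟩,⟨1,[(0,0),(4,0),(5,0),(0,0),(12,0)]⟩⟩,⟨true,0,⟨1,[(24,0),(2,0),(3,0)]⟩,⟨0,[(11,0),(13,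
  0)]⟩⟩,⟨true,0,⟨0,[(41,0)]⟩,⟨0,[(40,0)]⟩⟩,⟨false,1,⟨0,[(0,0),(40,0)]⟩,⟨0,[(1,0),(8,0),(14,0)]⟩⟩,
  ⟨false,1,⟨3,[(22,0),(0,0),(19,1)]⟩,⟨0,[]⟩⟩,⟨false,1,⟨0,[(0,0)]⟩,⟨0,[(3,0)]⟩⟩,[.o ⟨false,1,⟨3,[(0,
  1),(8,1),(12,0),(2,1),(3,1),(5,0)]⟩,⟨0,[(10,0)]⟩⟩,.o ⟨false,1,⟨3,[(9,0),(2,0),(13,2),(4,0),(6,0),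
  (4,2)]⟩,⟨1,[(10,0),(17,0),(11,0)]⟩⟩,.a ⟨true,0,⟨0,[(25,0)]⟩,⟨1,[(24,0),(8,0),(0,0)]⟩⟩ ⟨true,0,⟨0,
  [(1,0),(39,0)]⟩,⟨0,[(5,0)]⟩⟩ ⟨false,1,⟨29,[(0,19),(0,15),(0,3),(6,4),(2,3),(9,1),(1,4),(4,5),(8,
  15)]⟩,⟨0,[(10,0),(14,0)]⟩⟩,.o ⟨false,0,⟨4,[(6,1),(1,2),(1,0),(3,0),(10,4),(4,0),(7,1)]⟩,⟨17,[(4,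
  1),(12,1),(4,2),(1,5),(10,3),(6,8)]⟩⟩]⟩) (.Q [0,-1,0,-1,1,0,-1,-1,1,0,1,-1] (.p true [0,0,1] [0,0,
  0,1] (⟨0,[(34,0)]⟩,⟨0,[(33,0)]⟩) .k 2 (⟨0,[(25,0)]⟩,⟨1,[(24,0),(8,0),(0,0)]⟩) .k (.r 0 ⟨0,[(1,0),
  (30,0)]⟩ ⟨5,[(11,1),(0,1),(7,3),(2,2),(6,1),(7,1),(4,0)]⟩)) (.R ⟨1,true,false,true,[1,0,-1],[1,0,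
  0,-1],[0,1,0,-1,0,0,0,-1],(⟨0,[(34,0)]⟩,⟨0,[(35,0)]⟩),(⟨1,[(25,0),(8,0),(0,0)]⟩,⟨0,[(26,0)]⟩),⟨0,
  [(19,0)]⟩,.k,.k,.k,.k,(.r (-1) ⟨11,[(0,3),(4,1),(4,0),(1,4),(0,5),(3,0),(6,1),(1,7),(0,1)]⟩ ⟨1,
  [(2,1),(12,0),(17,0)]⟩),.k,⟨false,1,⟨11,[(0,3),(4,1),(4,0),(1,4),(0,5),(3,0),(6,1),(1,7),(0,1)]⟩,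
  ⟨1,[(1,1),(5,0),(13,0),(3,0),(7,1),(10,1)]⟩⟩,⟨true,0,⟨0,[(12,0),(13,0)]⟩,⟨1,[(25,0),(2,0),(3,
  0)]⟩⟩,⟨false,0,⟨0,[(42,0)]⟩,⟨5,[(14,1),(6,3),(14,0),(7,4)]⟩⟩,⟨true,(-1),⟨0,[(1,0)]⟩,⟨23,[(0,11),
  (4,3),(12,3),(2,11),(1,2),(0,2),(11,1)]⟩⟩,⟨true,0,⟨0,[(46,0)]⟩,⟨0,[]⟩⟩,⟨false,0,⟨1,[(1,0),(2,0),
  (6,0),(9,0),(22,0)]⟩,⟨0,[(0,0)]⟩⟩,[]⟩) (.R ⟨1,false,false,false,[1,0,0,-1],[1,-1,-1],[1,0,0,0,0,0,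
  0,0,-1],(⟨1,[(25,0),(8,0),(0,0)]⟩,⟨0,[(26,0)]⟩),(⟨0,[(19,0)]⟩,⟨0,[(35,0),(2,0)]⟩),⟨1,[(8,0),(10,
  0),(5,0)]⟩,.k,.k,(.r (-1) ⟨7,[(3,1),(6,0),(2,1),(8,0),(0,3),(18,3)]⟩ ⟨0,[(0,0),(4,0),(1,0),(18,0),
  (12,0),(4,0)]⟩),(.r 0 ⟨1,[(2,1),(12,0),(17,0)]⟩ ⟨3,[(5,0),(1,0),(4,0),(0,2),(10,0),(1,1),(12,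
  1)]⟩),.k,.k,⟨false,0,⟨5,[(0,3),(1,1),(0,1),(11,0),(9,1),(2,1),(4,0),(10,1)]⟩,⟨3,[(5,0),(1,0),(4,
  0),(0,2),(10,0),(1,1),(12,1)]⟩⟩,⟨true,0,⟨1,[(25,0),(2,0),(3,0)]⟩,⟨0,[(12,0),(13,0)]⟩⟩,⟨true,0,⟨0,
  []⟩,⟨0,[(46,0)]⟩⟩,⟨true,1,⟨19,[(5,3),(4,3),(2,5),(4,11),(4,0),(0,0),(5,13),(1,5),(6,5)]⟩,⟨0,[(0,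
  0)]⟩⟩,⟨false,1,⟨5,[(14,1),(6,3),(14,0),(7,4)]⟩,⟨0,[(42,0)]⟩⟩,⟨true,1,⟨0,[(18,0),(11,0)]⟩,⟨0,[(1,
  0)]⟩⟩,[.o ⟨false,1,⟨1,[(13,0),(16,0),(1,0),(3,0),(2,0)]⟩,⟨0,[(11,0)]⟩⟩,.o ⟨false,1,⟨3,[(10,0),(2,
  0),(13,2),(4,0),(6,0),(4,2)]⟩,⟨1,[(11,0),(17,0),(11,0)]⟩⟩,.a ⟨true,0,⟨0,[(26,0)]⟩,⟨1,[(25,0),(8,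
  0),(0,0)]⟩⟩ ⟨true,0,⟨0,[(2,0)]⟩,⟨4,[(1,0),(3,0),(0,1),(3,0),(13,0),(1,0),(3,0)]⟩⟩ ⟨false,1,⟨1,
  [(13,0),(11,0),(1,0),(4,0),(6,0),(4,0)]⟩,⟨0,[(11,0),(14,0)]⟩⟩,.o ⟨false,0,⟨4,[(7,1),(1,2),(1,0),
  (3,0),(10,4),(4,0),(7,1)]⟩,⟨17,[(5,1),(12,1),(4,2),(1,5),(10,3),(6,8)]⟩⟩]⟩))))))))) (.Q [0,0,0,0,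
  0,0,-1,0,0,1,1] (.p true [1,-1,1] [] (⟨0,[(27,0),(1,0)]⟩,⟨0,[(0,0)]⟩) .k 0 (⟨0,[]⟩,⟨0,[]⟩) .k .k)
  (.R ⟨0,false,false,false,[0,1,-1],[0,1],[0,1,1],(⟨0,[(1,0)]⟩,⟨0,[(28,0),(1,0)]⟩),(⟨0,[(31,0)]⟩,⟨0,
  [(30,0)]⟩),⟨0,[(28,0)]⟩,.k,.k,.k,.k,.k,.k,⟨false,0,⟨0,[(33,0),(1,0)]⟩,⟨5,[(7,1),(6,3),(14,0),(7,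
  4)]⟩⟩,⟨true,0,⟨0,[(5,0)]⟩,⟨0,[(25,0)]⟩⟩,⟨false,0,⟨5,[(0,1),(2,2),(11,0),(10,3)]⟩,⟨0,[(5,0),(8,0),
  (22,0)]⟩⟩,⟨true,0,⟨2,[(2,0),(1,0),(10,0)]⟩,⟨0,[(23,0)]⟩⟩,⟨false,0,⟨0,[]⟩,⟨0,[]⟩⟩,⟨false,0,⟨0,[]⟩,
  ⟨0,[]⟩⟩,[.o ⟨false,1,⟨11,[(7,3),(6,7),(1,2),(0,2),(11,1),(7,3)]⟩,⟨0,[(2,0)]⟩⟩,.o ⟨false,1,⟨5,[(7,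
  1),(6,3),(14,0),(7,4)]⟩,⟨1,[(3,0),(16,0),(1,0)]⟩⟩,.o ⟨false,1,⟨1,[(0,1),(28,0),(6,0)]⟩,⟨0,[(5,1),
  (15,0)]⟩⟩,.a ⟨true,0,⟨0,[(0,0)]⟩,⟨0,[(5,0)]⟩⟩ ⟨true,0,⟨0,[(39,0)]⟩,⟨0,[]⟩⟩ ⟨false,1,⟨5,[(4,1),(0,
  3),(3,1),(4,3),(14,0),(7,4)]⟩,⟨0,[(0,0),(1,0)]⟩⟩]⟩) (.I [1,1,-1,0,0,0,0,-1,-1] (.Q [0,-1,0,-1,0,0,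
  0,0,-1,-1,0,1] (.p true [0,0,0,1] [1] (⟨0,[(20,0)]⟩,⟨1,[(19,0),(8,0),(0,0)]⟩) .k 1 (⟨0,[]⟩,⟨0,
  []⟩) .k .k) (.Q [0,0,0,0,0,1,0,0,0,0,0,-1] (.p false [0,0,0,1] [] (⟨0,[(21,0)]⟩,⟨1,[(20,0),(8,0),
  (0,0)]⟩) .k 0 (⟨0,[]⟩,⟨0,[]⟩) .k .k) (.R ⟨0,false,false,false,[0,0,0,1],[1,-1],[1,0,0,0,0,0,0,0,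
  1],(⟨0,[(22,0)]⟩,⟨1,[(21,0),(8,0),(0,0)]⟩),(⟨0,[(33,0)]⟩,⟨0,[(34,0)]⟩),⟨0,[(0,0)]⟩,.k,.k,(.r (-1)
  ⟨1,[(20,0),(17,1),(0,0)]⟩ ⟨2,[(1,1),(0,0),(8,1),(1,0),(3,0),(3,0)]⟩),(.r (-1) ⟨5,[(11,1),(5,1),(1,
  0),(0,3),(6,1),(12,0)]⟩ ⟨1,[(1,1),(19,0),(8,0),(0,0),(4,1)]⟩),.k,.k,⟨false,1,⟨5,[(10,1),(6,3),(2,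
  2),(11,0),(7,1)]⟩,⟨1,[(1,1),(19,0),(8,0),(0,0),(4,1)]⟩⟩,⟨true,0,⟨2,[(3,0),(18,2),(1,1),(2,0)]⟩,⟨1,
  [(21,0),(8,0),(0,0)]⟩⟩,⟨true,0,⟨0,[]⟩,⟨0,[(42,0)]⟩⟩,⟨false,0,⟨0,[(1,0)]⟩,⟨7,[(16,3),(0,3),(1,0),
  (0,4),(0,3),(18,1)]⟩⟩,⟨false,0,⟨0,[]⟩,⟨0,[]⟩⟩,⟨false,0,⟨0,[]⟩,⟨0,[]⟩⟩,[.o ⟨false,0,⟨0,[(5,0)]⟩,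
  ⟨11,[(10,3),(6,7),(1,2),(0,2),(11,1),(7,3)]⟩⟩,.o ⟨false,1,⟨7,[(6,3),(12,0),(0,0),(11,1),(7,3)]⟩,
  ⟨0,[(37,0)]⟩⟩,.a ⟨true,0,⟨1,[(21,0),(8,0),(0,0)]⟩,⟨0,[(22,0)]⟩⟩ ⟨false,1,⟨1,[(20,0),(19,0)]⟩,⟨7,
  [(1,3),(0,3),(8,0),(4,1),(4,1),(6,1),(0,0)]⟩⟩ ⟨true,0,⟨0,[(5,0),(16,0)]⟩,⟨1,[(17,1),(0,0),(2,
  0)]⟩⟩,.o ⟨false,0,⟨1,[(21,0),(2,0),(2,0)]⟩,⟨1,[(22,1),(9,0),(6,0)]⟩⟩]⟩) (.R ⟨1,false,false,false,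
  [1,0,0,-1],[1,-1],[0,0,0,-1,0,0,0,0,-1],(⟨1,[(21,0),(8,0),(0,0)]⟩,⟨0,[(22,0)]⟩),(⟨0,[(33,0)]⟩,⟨0,
  [(34,0)]⟩),⟨0,[(0,0),(20,0)]⟩,.k,.k,(.r 0 ⟨1,[(1,1),(19,0),(8,0),(0,0),(4,1)]⟩ ⟨5,[(11,1),(5,1),
  (1,0),(0,3),(6,1),(12,0)]⟩),(.r 0 ⟨2,[(1,1),(0,0),(8,1),(1,0),(3,0),(3,0)]⟩ ⟨1,[(20,0),(17,1),(0,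
  0)]⟩),.k,.k,⟨false,0,⟨7,[(1,3),(0,3),(8,0),(4,1),(4,1),(6,1),(0,0)]⟩,⟨1,[(20,0),(18,0)]⟩⟩,⟨true,0,
  ⟨1,[(21,0),(2,0),(2,0)]⟩,⟨0,[(22,0)]⟩⟩,⟨true,0,⟨0,[(38,0)]⟩,⟨0,[(37,0)]⟩⟩,⟨false,1,⟨1,[(6,0),(13,
  0),(0,0),(18,0)]⟩,⟨0,[(1,0),(14,0),(0,0)]⟩⟩,⟨false,1,⟨3,[(19,0),(0,0),(19,1)]⟩,⟨0,[]⟩⟩,⟨false,1,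
  ⟨0,[(14,0)]⟩,⟨1,[(1,0),(0,0),(13,0),(5,0),(5,0)]⟩⟩,[.o ⟨false,0,⟨0,[(5,0)]⟩,⟨11,[(10,3),(6,7),(1,
  2),(0,2),(11,1),(7,3)]⟩⟩,.o ⟨false,1,⟨7,[(6,3),(12,0),(0,0),(11,1),(7,3)]⟩,⟨0,[(37,0)]⟩⟩,.a ⟨true,
  0,⟨0,[(22,0)]⟩,⟨1,[(21,0),(8,0),(0,0)]⟩⟩ ⟨false,0,⟨1,[(1,1),(19,0),(8,0),(0,0)]⟩,⟨5,[(10,1),(6,3),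
  (2,2),(11,0),(7,1)]⟩⟩ ⟨true,0,⟨1,[(6,0),(14,0)]⟩,⟨0,[(22,0),(14,0)]⟩⟩,.o ⟨false,0,⟨2,[(3,0),(18,
  2),(1,1),(2,0)]⟩,⟨7,[(19,0),(0,0),(0,3),(10,1),(6,3)]⟩⟩]⟩)) (.Q [0,0,0,0,0,0,1,1,1,1,-1,-1] (.p
  false [0,0,1] [1,0,0,-1] (⟨0,[(30,0)]⟩,⟨0,[(29,0)]⟩) .k 2 (⟨1,[(20,0),(8,0),(0,0)]⟩,⟨0,[(21,0)]⟩)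
  .k (.x 0 ⟨1,[(2,0),(9,0),(17,1)]⟩ ⟨1,[(27,1),(1,1),(1,0),(6,0)]⟩)) (.Q [0,0,0,-1,0,0,-1,-1,-1,-1,
  1,1] (.p true [0,0,1] [1,0,0,-1] (⟨0,[(31,0)]⟩,⟨0,[(30,0)]⟩) .k 2 (⟨1,[(21,0),(8,0),(0,0)]⟩,⟨0,
  [(22,0)]⟩) .k (.x 0 ⟨1,[(3,0),(9,0),(17,1)]⟩ ⟨1,[(28,1),(1,1),(1,0),(6,0)]⟩)) (.R ⟨1,true,false,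
  false,[1,0,-1],[0,0,0,1],[1,1,0,0,0,0,0,-1],(⟨0,[(31,0)]⟩,⟨0,[(32,0)]⟩),(⟨0,[(23,0)]⟩,⟨1,[(22,0),
  (8,0),(0,0)]⟩),⟨0,[(16,0)]⟩,.k,.k,.k,.k,(.x 0 ⟨0,[(16,0),(8,0)]⟩ ⟨3,[(3,1),(9,1),(7,0),(10,3),(0,
  0),(1,3),(4,0),(0,0)]⟩),.k,⟨false,0,⟨0,[(3,0)]⟩,⟨1,[(21,0),(8,1),(10,0)]⟩⟩,⟨true,0,⟨3,[(4,0),(9,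
  2),(7,1)]⟩,⟨0,[(23,0),(1,0)]⟩⟩,⟨false,0,⟨0,[]⟩,⟨3,[(20,0),(0,0),(19,1)]⟩⟩,⟨true,0,⟨0,[(1,0)]⟩,⟨0,
  [(0,0),(37,0)]⟩⟩,⟨true,0,⟨0,[(38,0)]⟩,⟨0,[(39,0)]⟩⟩,⟨false,1,⟨1,[(2,0),(8,0),(3,0),(25,0)]⟩,⟨0,
  [(0,0)]⟩⟩,[]⟩) (.Q [0,0,0,0,0,-1,0,0,0,1,0,-1] (.p false [0,0,0,1] [1] (⟨0,[(23,0)]⟩,⟨1,[(22,0),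
  (8,0),(0,0)]⟩) .k 1 (⟨0,[]⟩,⟨0,[]⟩) .k .k) (.R ⟨1,false,false,false,[1,0,0,-1],[0,0,1],[0,1,0,-1,
  0,0,0,0,-1],(⟨1,[(23,0),(8,0),(0,0)]⟩,⟨0,[(24,0)]⟩),(⟨0,[(33,0)]⟩,⟨0,[(32,0)]⟩),⟨0,[(0,0)]⟩,.k,.k,
  (.x 0 ⟨2,[(5,0),(20,1),(2,0),(5,2)]⟩ ⟨3,[(21,0),(0,0),(13,3),(4,1)]⟩),.k,(.r (-1) ⟨7,[(4,1),(6,4),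
  (9,2),(6,0),(0,0),(7,2)]⟩ ⟨0,[(1,0),(22,0),(1,0)]⟩),.k,⟨false,0,⟨0,[(4,0),(35,0)]⟩,⟨1,[(1,1),(22,
  1),(1,1),(14,0),(0,0)]⟩⟩,⟨true,0,⟨3,[(5,0),(9,2),(7,1)]⟩,⟨0,[(24,0),(1,0)]⟩⟩,⟨false,0,⟨0,[(40,
  0)]⟩,⟨5,[(12,1),(6,3),(14,0),(7,4)]⟩⟩,⟨true,0,⟨0,[(2,0)]⟩,⟨0,[(4,0),(19,0),(1,0)]⟩⟩,⟨true,0,⟨0,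
  [(44,0)]⟩,⟨0,[]⟩⟩,⟨true,0,⟨0,[(1,0)]⟩,⟨1,[(4,1),(3,0),(15,1),(1,0),(3,0)]⟩⟩,[.o ⟨false,0,⟨2,[(7,
  0),(1,0),(10,0)]⟩,⟨1,[(28,1),(5,0),(7,0)]⟩⟩,.o ⟨false,1,⟨7,[(20,3),(0,0),(0,0),(11,1),(7,3)]⟩,⟨0,
  [(25,0)]⟩⟩,.a ⟨true,0,⟨0,[(24,0)]⟩,⟨1,[(23,0),(8,0),(0,0)]⟩⟩ ⟨false,0,⟨0,[(4,0),(26,0),(5,0)]⟩,⟨0,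
  [(1,0),(22,0),(0,0),(16,0)]⟩⟩ ⟨true,0,⟨1,[(20,0),(2,0)]⟩,⟨0,[(24,0),(0,0)]⟩⟩,.o ⟨false,0,⟨2,[(5,
  0),(18,2),(1,1),(2,0)]⟩,⟨7,[(21,0),(0,0),(0,3),(10,1),(6,3)]⟩⟩]⟩) (.R ⟨0,false,false,false,[1,0,0,
  -1],[0,0,1],[0,1,0,-1,0,0,0,0,-1],(⟨1,[(23,0),(8,0),(0,0)]⟩,⟨0,[(24,0)]⟩),(⟨0,[(33,0)]⟩,⟨0,[(32,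
  0)]⟩),⟨0,[(0,0)]⟩,.k,.k,(.x 0 ⟨2,[(5,0),(20,1),(2,0),(5,2)]⟩ ⟨3,[(21,0),(0,0),(13,3),(4,1)]⟩),.k,
  .k,.k,⟨false,0,⟨0,[(4,0),(35,0)]⟩,⟨1,[(1,1),(22,1),(1,1),(14,0),(0,0)]⟩⟩,⟨true,0,⟨3,[(5,0),(9,2),
  (7,1)]⟩,⟨0,[(24,0),(1,0)]⟩⟩,⟨false,0,⟨0,[(40,0)]⟩,⟨5,[(12,1),(6,3),(14,0),(7,4)]⟩⟩,⟨true,0,⟨0,[(2,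
  0)]⟩,⟨0,[(4,0),(19,0),(1,0)]⟩⟩,⟨false,0,⟨0,[]⟩,⟨0,[]⟩⟩,⟨false,0,⟨0,[]⟩,⟨0,[]⟩⟩,[.o ⟨false,0,⟨2,
  [(7,0),(1,0),(10,0)]⟩,⟨1,[(28,1),(5,0),(7,0)]⟩⟩,.o ⟨false,1,⟨7,[(20,3),(0,0),(0,0),(11,1),(7,3)]⟩,
  ⟨0,[(25,0)]⟩⟩,.a ⟨true,0,⟨0,[(24,0)]⟩,⟨1,[(23,0),(8,0),(0,0)]⟩⟩ ⟨false,0,⟨0,[(4,0),(26,0),(5,0)]⟩,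
  ⟨0,[(1,0),(22,0),(0,0),(16,0)]⟩⟩ ⟨true,0,⟨1,[(20,0),(2,0)]⟩,⟨0,[(24,0),(0,0)]⟩⟩,.o ⟨false,0,⟨2,
  [(5,0),(18,2),(1,1),(2,0)]⟩,⟨7,[(21,0),(0,0),(0,3),(10,1),(6,3)]⟩⟩]⟩))) (.K ⟨2,[1,0,0,-1],0,0,(⟨1,
  [(21,0),(8,0),(0,0)]⟩,⟨0,[(22,0)]⟩),.k,(.x 0 ⟨2,[(3,0),(20,1),(2,0),(5,2)]⟩ ⟨3,[(19,0),(0,0),(13,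
  3),(4,1)]⟩),(.r 0 ⟨1,[(0,1),(10,0),(0,0),(8,0)]⟩ ⟨1,[(20,0),(17,1),(0,0)]⟩),.k,.k,[⟨0,[(0,0)]⟩,⟨0,
  [(1,0),(36,0)]⟩,⟨3,[(13,1),(7,1),(5,0),(0,2)]⟩,⟨2,[(3,0),(18,2),(1,1),(2,0)]⟩]⟩))) (.I [0,-1,0,-1,
  0,0,0,0,1] (.Q [0,0,0,0,0,1,0,0,0,0,0,-1] (.p false [0,0,0,1] [] (⟨0,[(21,0)]⟩,⟨1,[(20,0),(8,0),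
  (0,0)]⟩) .k 0 (⟨0,[]⟩,⟨0,[]⟩) .k .k) (.R ⟨0,false,false,false,[0,0,0,1],[1,-1],[0,0,0,-1,0,0,0,0,
  1],(⟨0,[(22,0)]⟩,⟨1,[(21,0),(8,0),(0,0)]⟩),(⟨0,[(33,0)]⟩,⟨0,[(34,0)]⟩),⟨0,[(0,0)]⟩,.k,.k,(.r 0 ⟨0,
  [(1,0),(34,0)]⟩ ⟨5,[(11,1),(5,1),(1,3),(0,0),(6,1),(12,0)]⟩),(.r 0 ⟨1,[(1,0),(0,0),(4,0),(9,1),(9,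
  0)]⟩ ⟨1,[(19,0),(18,1),(0,0)]⟩),.k,.k,⟨false,0,⟨0,[(1,0),(35,0)]⟩,⟨1,[(19,0),(19,0)]⟩⟩,⟨true,0,⟨2,
  [(3,0),(18,2),(1,1),(2,0)]⟩,⟨1,[(21,0),(8,0),(0,0)]⟩⟩,⟨true,0,⟨0,[(38,0)]⟩,⟨0,[(37,0)]⟩⟩,⟨false,1,
  ⟨1,[(5,1),(13,0),(2,1),(17,0)]⟩,⟨1,[(1,1),(5,0),(8,0),(0,1),(3,0)]⟩⟩,⟨false,0,⟨0,[]⟩,⟨0,[]⟩⟩,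
  ⟨false,0,⟨0,[]⟩,⟨0,[]⟩⟩,[.o ⟨false,0,⟨0,[(5,0)]⟩,⟨11,[(10,3),(6,7),(1,2),(0,2),(11,1),(7,3)]⟩⟩,.o
  ⟨false,1,⟨7,[(6,3),(12,0),(0,0),(11,1),(7,3)]⟩,⟨0,[(37,0)]⟩⟩,.a ⟨true,0,⟨1,[(21,0),(8,0),(0,0)]⟩,
  ⟨0,[(22,0)]⟩⟩ ⟨false,0,⟨0,[(1,0)]⟩,⟨5,[(10,1),(6,3),(1,2),(12,0),(7,1)]⟩⟩ ⟨true,0,⟨0,[(5,0),(16,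
  0)]⟩,⟨1,[(17,1),(0,0),(2,0)]⟩⟩,.o ⟨false,0,⟨1,[(21,0),(2,0),(2,0)]⟩,⟨1,[(22,1),(9,0),(6,0)]⟩⟩]⟩)
  (.Q [0,0,0,0,0,0,-1,-1,1,0,1,-1] (.p true [0,0,1] [0,0,0,1] (⟨0,[(31,0)]⟩,⟨0,[(30,0)]⟩) .k 2 (⟨0,
  [(22,0)]⟩,⟨1,[(21,0),(8,0),(0,0)]⟩) .k (.r (-1) ⟨3,[(19,2),(0,0),(8,3)]⟩ ⟨1,[(1,1),(1,0),(9,0),(3,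
  1)]⟩)) (.R ⟨1,false,false,false,[0,0,0,1],[0,0,1],[1,1,0,0,0,0,0,0,1],(⟨0,[(23,0)]⟩,⟨1,[(22,0),(8,
  0),(0,0)]⟩),(⟨0,[(32,0)]⟩,⟨0,[(31,0)]⟩),⟨0,[(1,0)]⟩,.k,.k,(.r 0 ⟨0,[(2,0),(34,0)]⟩ ⟨5,[(12,1),(5,
  1),(1,3),(0,0),(6,1),(12,0)]⟩),.k,(.x 0 ⟨0,[(16,0),(8,0)]⟩ ⟨5,[(10,1),(2,3),(4,1),(13,5),(0,1),(1,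
  5),(4,0),(0,0)]⟩),.k,⟨false,0,⟨1,[(2,1),(1,0),(9,0),(3,1),(18,1)]⟩,⟨1,[(20,0),(9,1),(10,0)]⟩⟩,
  ⟨true,0,⟨1,[(4,0),(9,0),(8,1)]⟩,⟨1,[(22,0),(2,0),(3,0)]⟩⟩,⟨false,0,⟨0,[]⟩,⟨3,[(20,0),(0,0),(19,
  1)]⟩⟩,⟨false,1,⟨5,[(6,1),(1,1),(10,1),(0,2),(2,5),(17,2)]⟩,⟨0,[(0,0)]⟩⟩,⟨true,0,⟨0,[(38,0)]⟩,⟨0,
  [(39,0)]⟩⟩,⟨false,1,⟨1,[(8,1),(11,0),(2,1),(17,0)]⟩,⟨0,[(0,0),(38,0)]⟩⟩,[.o ⟨false,0,⟨2,[(6,0),(1,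
  0),(10,0)]⟩,⟨1,[(27,1),(5,0),(7,0)]⟩⟩,.o ⟨false,1,⟨7,[(19,3),(0,0),(0,0),(11,1),(7,3)]⟩,⟨0,[(24,
  0)]⟩⟩,.a ⟨true,0,⟨1,[(22,0),(8,0),(0,0)]⟩,⟨0,[(23,0)]⟩⟩ ⟨false,0,⟨0,[(2,0),(35,0)]⟩,⟨1,[(20,0),
  (20,0)]⟩⟩ ⟨true,0,⟨2,[(6,0),(1,0),(10,0),(3,2)]⟩,⟨1,[(22,0),(1,0),(2,0)]⟩⟩,.o ⟨false,0,⟨1,[(22,0),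
  (2,0),(2,0)]⟩,⟨1,[(23,1),(9,0),(6,0)]⟩⟩]⟩) (.R ⟨1,true,false,false,[1,0,-1],[1,0,0,-1],[1,1,0,0,0,
  0,0,-1],(⟨0,[(31,0)]⟩,⟨0,[(32,0)]⟩),(⟨1,[(22,0),(8,0),(0,0)]⟩,⟨0,[(23,0)]⟩),⟨0,[(16,0)]⟩,.k,.k,.k,
  .k,(.x 0 ⟨0,[(16,0),(8,0)]⟩ ⟨5,[(10,1),(2,3),(4,1),(13,5),(0,1),(1,5),(4,0),(0,0)]⟩),.k,⟨false,0,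
  ⟨1,[(2,1),(1,0),(9,0),(3,1),(18,1)]⟩,⟨1,[(20,0),(9,1),(10,0)]⟩⟩,⟨true,0,⟨1,[(4,0),(9,0),(8,1)]⟩,
  ⟨1,[(22,0),(2,0),(3,0)]⟩⟩,⟨false,0,⟨0,[]⟩,⟨3,[(20,0),(0,0),(19,1)]⟩⟩,⟨true,0,⟨0,[(0,0)]⟩,⟨1,[(2,
  1),(15,0),(3,0),(1,0),(13,0),(4,0)]⟩⟩,⟨true,0,⟨0,[(38,0)]⟩,⟨0,[(39,0)]⟩⟩,⟨false,1,⟨1,[(8,1),(11,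
  0),(2,1),(17,0)]⟩,⟨1,[(2,1),(19,0),(1,0),(2,0)]⟩⟩,[]⟩))) (.I [0,1,-1,-1,0,0,0,-1,1] (.Q [0,0,0,0,
  0,1,0,0,0,0,0,-1] (.p false [0,0,0,1] [] (⟨0,[(22,0)]⟩,⟨1,[(21,0),(8,0),(0,0)]⟩) .k 0 (⟨0,[]⟩,⟨0,
  []⟩) .k .k) (.Q [0,0,0,0,0,0,1,1,-1,0,-1,1] (.p false [0,0,1] [0,0,0,1] (⟨0,[(32,0)]⟩,⟨0,[(31,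
  0)]⟩) .k 2 (⟨0,[(23,0)]⟩,⟨1,[(22,0),(8,0),(0,0)]⟩) .k (.x 0 ⟨1,[(4,0),(9,0),(17,1)]⟩ ⟨1,[(29,1),
  (1,1),(1,0),(6,0)]⟩)) (.R ⟨0,false,false,false,[0,0,0,1],[0,0,1],[0,1,0,-1,0,0,0,0,1],(⟨0,[(24,
  0)]⟩,⟨1,[(23,0),(8,0),(0,0)]⟩),(⟨0,[(33,0)]⟩,⟨0,[(32,0)]⟩),⟨0,[(1,0)]⟩,.k,.k,(.x 0 ⟨2,[(5,0),(20,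
  1),(2,0),(5,2)]⟩ ⟨3,[(21,0),(0,0),(13,3),(4,1)]⟩),.k,.k,.k,⟨false,0,⟨0,[(2,0)]⟩,⟨0,[(3,0),(27,0),
  (10,0)]⟩⟩,⟨true,0,⟨1,[(5,0),(9,0),(8,1)]⟩,⟨1,[(23,0),(2,0),(3,0)]⟩⟩,⟨false,0,⟨0,[(40,0)]⟩,⟨5,[(12,
  1),(6,3),(14,0),(7,4)]⟩⟩,⟨true,0,⟨0,[(0,0)]⟩,⟨1,[(2,0),(1,0),(14,0),(3,0),(1,0)]⟩⟩,⟨false,0,⟨0,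
  []⟩,⟨0,[]⟩⟩,⟨false,0,⟨0,[]⟩,⟨0,[]⟩⟩,[.o ⟨false,0,⟨2,[(7,0),(1,0),(10,0)]⟩,⟨1,[(28,1),(5,0),(7,
  0)]⟩⟩,.o ⟨false,1,⟨7,[(20,3),(0,0),(0,0),(11,1),(7,3)]⟩,⟨0,[(25,0)]⟩⟩,.a ⟨true,0,⟨1,[(23,0),(8,0),
  (0,0)]⟩,⟨0,[(24,0)]⟩⟩ ⟨false,0,⟨1,[(2,0),(1,0),(35,0)]⟩,⟨0,[(3,0),(38,0)]⟩⟩ ⟨true,0,⟨2,[(7,0),(1,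
  0),(10,0),(3,2)]⟩,⟨1,[(23,0),(1,0),(2,0)]⟩⟩,.o ⟨false,0,⟨1,[(23,0),(2,0),(2,0)]⟩,⟨1,[(24,1),(9,0),
  (6,0)]⟩⟩]⟩) (.I [0,0,-1,-1,0,0,0,0,1] (.K ⟨2,[0,0,0,1],0,0,(⟨0,[(25,0)]⟩,⟨1,[(24,0),(8,0),(0,
  0)]⟩),.k,(.r 0 ⟨0,[(0,0)]⟩ ⟨5,[(14,1),(5,1),(1,3),(0,0),(6,1),(12,0)]⟩),(.r 0 ⟨8,[(1,6),(1,0),(1,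
  0),(4,3),(3,2),(10,6),(4,2)]⟩ ⟨0,[(0,0),(21,0)]⟩),.k,.k,[⟨0,[(1,0)]⟩,⟨0,[(4,0),(20,0),(15,0)]⟩,⟨1,
  [(25,1),(4,0),(0,0)]⟩,⟨1,[(24,0),(2,0),(2,0)]⟩]⟩) (.K ⟨2,[0,0,0,1],0,0,(⟨0,[(25,0)]⟩,⟨1,[(24,0),
  (8,0),(0,0)]⟩),.k,(.x 0 ⟨2,[(6,0),(20,1),(2,0),(5,2)]⟩ ⟨3,[(22,0),(0,0),(13,3),(4,1)]⟩),(.r 0 ⟨8,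
  [(1,6),(1,0),(1,0),(4,3),(3,2),(10,6),(4,2)]⟩ ⟨1,[(22,0),(18,1),(0,0)]⟩),.k,.k,[⟨0,[(1,0)]⟩,⟨0,
  [(4,0),(20,0),(15,0)]⟩,⟨1,[(25,1),(4,0),(0,0)]⟩,⟨1,[(24,0),(2,0),(2,0)]⟩]⟩))) (.I [0,0,-1,-1,0,0,
  0,0,1] (.R ⟨1,false,false,false,[1,0,0,-1],[1,-1],[1,0,0,0,0,0,0,0,-1],(⟨1,[(23,0),(8,0),(0,0)]⟩,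
  ⟨0,[(24,0)]⟩),(⟨0,[(35,0)]⟩,⟨0,[(36,0)]⟩),⟨0,[(1,0),(21,0)]⟩,.k,.k,(.r (-1) ⟨1,[(21,0),(18,1),(0,
  0)]⟩ ⟨1,[(4,1),(0,0),(9,0),(3,1)]⟩),(.r (-1) ⟨5,[(13,1),(5,1),(1,3),(0,0),(6,1),(12,0)]⟩ ⟨0,[(0,
  0)]⟩),.k,.k,⟨false,1,⟨5,[(12,1),(6,3),(1,2),(12,0),(7,1)]⟩,⟨0,[(0,0)]⟩⟩,⟨true,0,⟨1,[(23,0),(2,0),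
  (2,0)]⟩,⟨0,[(24,0)]⟩⟩,⟨true,0,⟨0,[]⟩,⟨0,[(44,0)]⟩⟩,⟨true,0,⟨1,[(2,0),(1,0),(2,0),(15,0)]⟩,⟨0,[(3,
  0),(20,0)]⟩⟩,⟨false,1,⟨5,[(12,1),(6,3),(14,0),(7,4)]⟩,⟨0,[(40,0)]⟩⟩,⟨true,0,⟨1,[(0,0),(3,0),(0,0),
  (13,0),(3,0)]⟩,⟨0,[(3,0),(20,0),(15,0)]⟩⟩,[.o ⟨false,0,⟨0,[(7,0)]⟩,⟨11,[(12,3),(6,7),(1,2),(0,2),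
  (11,1),(7,3)]⟩⟩,.o ⟨false,1,⟨7,[(8,3),(12,0),(0,0),(11,1),(7,3)]⟩,⟨0,[(39,0)]⟩⟩,.a ⟨true,0,⟨0,
  [(24,0)]⟩,⟨1,[(23,0),(8,0),(0,0)]⟩⟩ ⟨false,1,⟨1,[(21,0),(20,0)]⟩,⟨3,[(0,1),(3,1),(0,0),(9,0),(3,
  1)]⟩⟩ ⟨true,0,⟨1,[(8,0),(14,0)]⟩,⟨0,[(24,0),(14,0)]⟩⟩,.o ⟨false,0,⟨2,[(5,0),(18,2),(1,1),(2,0)]⟩,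
  ⟨7,[(21,0),(0,0),(0,3),(10,1),(6,3)]⟩⟩]⟩) (.Q [0,0,0,1,0,0,1,1,-1,0,-1,1] (.p false [0,0,1] [0,0,
  0,1] (⟨0,[(33,0)]⟩,⟨0,[(32,0)]⟩) .k 2 (⟨0,[(24,0)]⟩,⟨1,[(23,0),(8,0),(0,0)]⟩) .k (.x 0 ⟨1,[(5,0),
  (9,0),(17,1)]⟩ ⟨1,[(30,1),(1,1),(1,0),(6,0)]⟩)) (.R ⟨1,false,false,false,[0,0,0,1],[0,0,1],[0,1,0,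
  -1,0,0,0,0,1],(⟨0,[(25,0)]⟩,⟨1,[(24,0),(8,0),(0,0)]⟩),(⟨0,[(34,0)]⟩,⟨0,[(33,0)]⟩),⟨0,[(2,0)]⟩,.k,
  .k,(.x 0 ⟨2,[(6,0),(20,1),(2,0),(5,2)]⟩ ⟨3,[(22,0),(0,0),(13,3),(4,1)]⟩),.k,(.r (-1) ⟨5,[(3,1),(8,
  2),(10,1),(5,0),(0,0),(7,0),(4,0)]⟩ ⟨0,[(1,0),(30,0)]⟩),.k,⟨false,0,⟨0,[(3,0)]⟩,⟨0,[(4,0),(27,0),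
  (10,0)]⟩⟩,⟨true,0,⟨1,[(6,0),(9,0),(8,1)]⟩,⟨1,[(24,0),(2,0),(3,0)]⟩⟩,⟨false,0,⟨0,[(41,0)]⟩,⟨5,[(13,
  1),(6,3),(14,0),(7,4)]⟩⟩,⟨true,0,⟨0,[(0,0),(40,0)]⟩,⟨1,[(3,0),(1,0),(14,0),(3,0),(1,0)]⟩⟩,⟨true,0,
  ⟨0,[(45,0)]⟩,⟨0,[]⟩⟩,⟨true,0,⟨0,[(0,0)]⟩,⟨1,[(3,1),(20,0),(2,0),(3,0)]⟩⟩,[.o ⟨false,0,⟨2,[(8,0),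
  (1,0),(10,0)]⟩,⟨1,[(29,1),(5,0),(7,0)]⟩⟩,.o ⟨false,1,⟨7,[(21,3),(0,0),(0,0),(11,1),(7,3)]⟩,⟨0,
  [(26,0)]⟩⟩,.a ⟨true,0,⟨1,[(24,0),(8,0),(0,0)]⟩,⟨0,[(25,0)]⟩⟩ ⟨false,0,⟨1,[(3,0),(1,0),(35,0)]⟩,⟨0,
  [(4,0),(38,0)]⟩⟩ ⟨true,0,⟨2,[(8,0),(1,0),(10,0),(3,2)]⟩,⟨1,[(24,0),(1,0),(2,0)]⟩⟩,.o ⟨false,0,⟨1,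
  [(24,0),(2,0),(2,0)]⟩,⟨1,[(25,1),(9,0),(6,0)]⟩⟩]⟩) (.Q [0,0,0,0,0,0,1,1,-1,0,-1,1] (.p false [0,0,
  1] [0,0,0,1] (⟨0,[(34,0)]⟩,⟨0,[(33,0)]⟩) .k 2 (⟨0,[(25,0)]⟩,⟨1,[(24,0),(8,0),(0,0)]⟩) .k (.x 0 ⟨1,
  [(6,0),(9,0),(17,1)]⟩ ⟨1,[(31,1),(1,1),(1,0),(6,0)]⟩)) (.R ⟨1,true,false,false,[1,0,-1],[1,0,0,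
  -1],[0,1,0,-1,0,0,0,-1],(⟨0,[(34,0)]⟩,⟨0,[(35,0)]⟩),(⟨1,[(25,0),(8,0),(0,0)]⟩,⟨0,[(26,0)]⟩),⟨0,
  [(19,0)]⟩,.k,.k,.k,.k,(.r (-1) ⟨5,[(4,1),(8,2),(10,1),(5,0),(0,0),(7,0),(4,0)]⟩ ⟨0,[(2,0),(30,
  0)]⟩),.k,⟨false,0,⟨0,[(4,0)]⟩,⟨0,[(5,0),(27,0),(10,0)]⟩⟩,⟨true,0,⟨1,[(7,0),(9,0),(8,1)]⟩,⟨1,[(25,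
  0),(2,0),(3,0)]⟩⟩,⟨false,0,⟨0,[(42,0)]⟩,⟨5,[(14,1),(6,3),(14,0),(7,4)]⟩⟩,⟨true,0,⟨0,[(0,0)]⟩,⟨0,
  [(1,0),(39,0)]⟩⟩,⟨true,0,⟨0,[(46,0)]⟩,⟨0,[]⟩⟩,⟨false,1,⟨1,[(11,1),(11,0),(2,1),(17,0)]⟩,⟨0,[(1,
  0)]⟩⟩,[]⟩) (.K ⟨2,[0,0,0,1],0,0,(⟨0,[(26,0)]⟩,⟨1,[(25,0),(8,0),(0,0)]⟩),.k,(.x 0 ⟨2,[(7,0),(20,1),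
  (2,0),(5,2)]⟩ ⟨3,[(23,0),(0,0),(13,3),(4,1)]⟩),(.r 0 ⟨1,[(0,0),(5,0),(4,0),(9,0),(4,0),(4,0)]⟩ ⟨1,
  [(23,0),(18,1),(0,0)]⟩),.k,.k,[⟨0,[(0,0)]⟩,⟨0,[(5,0),(20,0),(15,0)]⟩,⟨1,[(26,1),(4,0),(0,0)]⟩,⟨1,
  [(25,0),(2,0),(2,0)]⟩]⟩))))) (.I [1,1,-1,-1,0,0,0,-1] (.Q [0,0,0,0,0,1,0,0,0,0,0,-1] (.p false [0,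
  0,0,1] [] (⟨0,[(23,0)]⟩,⟨1,[(22,0),(8,0),(0,0)]⟩) .k 0 (⟨0,[]⟩,⟨0,[]⟩) .k .k) (.R ⟨0,false,false,
  false,[0,0,0,1],[1,-1],[1,1],(⟨0,[(24,0)]⟩,⟨1,[(23,0),(8,0),(0,0)]⟩),(⟨0,[(35,0)]⟩,⟨0,[(36,0)]⟩),
  ⟨0,[(0,0)]⟩,.k,.k,(.r (-1) ⟨1,[(22,0),(17,1),(0,0)]⟩ ⟨1,[(1,0),(0,1),(16,0),(9,0)]⟩),(.r 0 ⟨1,[(4,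
  1),(0,0),(9,0),(3,1)]⟩ ⟨1,[(21,0),(18,1),(0,0)]⟩),.k,.k,⟨false,0,⟨0,[(39,0)]⟩,⟨1,[(40,1),(0,0),(0,
  0)]⟩⟩,⟨true,0,⟨2,[(5,0),(18,2),(1,1),(2,0)]⟩,⟨1,[(23,0),(8,0),(0,0)]⟩⟩,⟨false,0,⟨0,[(1,0),(0,0)]⟩,
  ⟨1,[(22,0),(19,0)]⟩⟩,⟨true,0,⟨0,[(1,0),(0,0),(4,0),(16,0)]⟩,⟨1,[(1,0),(2,1),(4,0),(5,0),(3,1),(3,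
  0),(14,0)]⟩⟩,⟨false,0,⟨0,[]⟩,⟨0,[]⟩⟩,⟨false,0,⟨0,[]⟩,⟨0,[]⟩⟩,[.o ⟨false,0,⟨0,[(7,0)]⟩,⟨11,[(12,3),
  (6,7),(1,2),(0,2),(11,1),(7,3)]⟩⟩,.o ⟨false,1,⟨7,[(8,3),(12,0),(0,0),(11,1),(7,3)]⟩,⟨0,[(39,0)]⟩⟩,
  .a ⟨true,0,⟨1,[(23,0),(8,0),(0,0)]⟩,⟨0,[(24,0)]⟩⟩ ⟨false,0,⟨0,[]⟩,⟨3,[(21,0),(0,0),(19,1)]⟩⟩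
  ⟨true,0,⟨0,[(7,0),(16,0)]⟩,⟨1,[(19,1),(0,0),(2,0)]⟩⟩,.o ⟨false,0,⟨1,[(23,0),(2,0),(2,0)]⟩,⟨1,[(24,
  1),(9,0),(6,0)]⟩⟩]⟩) (.I [1,-1,-1,0,1,0,0,0,1] (.Q [0,-1,0,0,1,0,-1,-1,1,0,1,-1] (.p true [0,0,1]
  [0,0,0,1] (⟨0,[(34,0)]⟩,⟨0,[(33,0)]⟩) .k 2 (⟨0,[(25,0)]⟩,⟨1,[(24,0),(8,0),(0,0)]⟩) .k (.r 0 ⟨0,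
  [(3,0),(35,0),(1,0)]⟩ ⟨1,[(2,0),(17,0),(2,0),(6,0),(12,0)]⟩)) (.R ⟨1,false,false,false,[1,0,0,-1],
  [1,-1,-1],[1,0,0,0,0,0,0,0,-1],(⟨1,[(25,0),(8,0),(0,0)]⟩,⟨0,[(26,0)]⟩),(⟨0,[(19,0)]⟩,⟨0,[(35,0),
  (2,0)]⟩),⟨0,[(2,0),(22,0)]⟩,.k,.k,(.r (-1) ⟨1,[(23,0),(18,1),(0,0)]⟩ ⟨1,[(6,1),(0,0),(9,0),(3,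
  1)]⟩),(.r 0 ⟨2,[(4,1),(0,0),(23,0),(2,0)]⟩ ⟨5,[(0,0),(0,0),(1,2),(9,1),(10,1),(1,0),(4,0),(7,
  0)]⟩),.k,.k,⟨false,0,⟨0,[(4,0),(35,0)]⟩,⟨5,[(0,0),(0,0),(1,2),(9,1),(10,1),(1,0),(4,0),(7,0)]⟩⟩,
  ⟨true,0,⟨1,[(25,0),(2,0),(3,0)]⟩,⟨1,[(7,0),(9,0),(8,1)]⟩⟩,⟨true,0,⟨0,[]⟩,⟨0,[(46,0)]⟩⟩,⟨false,1,
  ⟨0,[(0,0),(41,0)]⟩,⟨0,[(3,0),(0,0),(6,0),(14,0)]⟩⟩,⟨false,1,⟨5,[(14,1),(6,3),(14,0),(7,4)]⟩,⟨0,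
  [(42,0)]⟩⟩,⟨false,1,⟨0,[(0,0)]⟩,⟨7,[(3,5),(0,7),(2,1),(2,0),(11,2),(3,7),(13,1)]⟩⟩,[.o ⟨false,1,
  ⟨1,[(13,0),(16,0),(1,0),(3,0),(2,0)]⟩,⟨0,[(11,0)]⟩⟩,.o ⟨false,1,⟨3,[(10,0),(2,0),(13,2),(4,0),(6,
  0),(4,2)]⟩,⟨1,[(11,0),(17,0),(11,0)]⟩⟩,.a ⟨true,0,⟨0,[(26,0)]⟩,⟨1,[(25,0),(8,0),(0,0)]⟩⟩ ⟨true,0,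
  ⟨0,[(3,0),(0,0)]⟩,⟨0,[(3,0),(2,0),(34,0)]⟩⟩ ⟨false,1,⟨1,[(13,0),(11,0),(1,0),(4,0),(6,0),(4,0)]⟩,
  ⟨0,[(11,0),(14,0)]⟩⟩,.o ⟨false,0,⟨2,[(7,0),(18,2),(1,1),(2,0)]⟩,⟨7,[(23,0),(0,0),(0,3),(10,1),(6,
  3)]⟩⟩]⟩) (.R ⟨1,true,false,true,[1,0,-1],[1,0,0,-1],[0,1,0,-1,0,0,0,-1],(⟨0,[(34,0)]⟩,⟨0,[(35,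
  0)]⟩),(⟨1,[(25,0),(8,0),(0,0)]⟩,⟨0,[(26,0)]⟩),⟨0,[(19,0)]⟩,.k,.k,.k,.k,(.r (-1) ⟨1,[(3,1),(20,0),
  (19,0)]⟩ ⟨2,[(4,1),(0,0),(23,0),(2,0)]⟩),.k,⟨false,1,⟨1,[(3,1),(20,0),(19,0)]⟩,⟨0,[(4,0),(35,
  0)]⟩⟩,⟨true,0,⟨1,[(7,0),(9,0),(8,1)]⟩,⟨1,[(25,0),(2,0),(3,0)]⟩⟩,⟨false,0,⟨0,[(42,0)]⟩,⟨5,[(14,1),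
  (6,3),(14,0),(7,4)]⟩⟩,⟨true,(-1),⟨0,[(0,0)]⟩,⟨0,[(18,0),(11,0)]⟩⟩,⟨true,0,⟨0,[(46,0)]⟩,⟨0,[]⟩⟩,
  ⟨false,0,⟨1,[(0,0),(4,0),(5,0),(14,0),(17,0)]⟩,⟨1,[(1,1),(23,0),(1,0),(2,0),(8,1)]⟩⟩,[]⟩)) (.Q [0,
  0,0,-1,0,0,0,0,1,0,0,-1] (.p false [0,0,0,1] [] (⟨0,[(25,0)]⟩,⟨1,[(24,0),(8,0),(0,0)]⟩) .k 0 (⟨0,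
  []⟩,⟨0,[]⟩) .k .k) (.R ⟨2,true,false,false,[0,1],[0,0,0,1],[1,1,1,1],(⟨0,[]⟩,⟨0,[]⟩),(⟨0,[(26,
  0)]⟩,⟨1,[(25,0),(8,0),(0,0)]⟩),⟨0,[]⟩,.k,.k,.k,(.r 0 ⟨7,[(1,1),(2,3),(2,0),(9,0),(3,3),(1,0),(7,
  1),(12,0)]⟩ ⟨1,[(24,0),(17,1),(0,0)]⟩),.k,.k,⟨false,0,⟨0,[(5,0)]⟩,⟨0,[(6,0),(6,0)]⟩⟩,⟨true,0,⟨1,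
  [(25,0),(2,0),(2,0)]⟩,⟨0,[(26,0)]⟩⟩,⟨false,0,⟨0,[]⟩,⟨3,[(23,0),(0,0),(19,1)]⟩⟩,⟨true,0,⟨0,[(0,
  0)]⟩,⟨0,[(5,0),(20,0)]⟩⟩,⟨true,0,⟨0,[(41,0)]⟩,⟨0,[(42,0)]⟩⟩,⟨false,1,⟨0,[(18,0)]⟩,⟨1,[(1,0),(2,0),
  (8,0),(12,1)]⟩⟩,[]⟩) (.R ⟨1,true,false,true,[0,0,0,1],[0,1],[0,1,1],(⟨0,[(26,0)]⟩,⟨1,[(25,0),(8,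
  0),(0,0)]⟩),(⟨0,[(38,0)]⟩,⟨0,[(37,0)]⟩),⟨0,[(2,0)]⟩,.k,.k,(.r (-1) ⟨1,[(24,0),(17,1),(0,0)]⟩ ⟨27,
  [(0,3),(0,5),(2,11),(2,1),(13,11),(1,2),(1,1),(5,9),(12,2)]⟩),(.r (-1) ⟨1,[(24,0),(17,1),(0,0)]⟩
  ⟨27,[(0,3),(0,5),(2,11),(2,1),(13,11),(1,2),(1,1),(5,9),(12,2)]⟩),(.r (-1) ⟨0,[(6,0),(6,0),(26,0),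
  (1,0)]⟩ ⟨0,[(4,0),(16,0),(9,0)]⟩),.k,⟨true,0,⟨0,[(42,0)]⟩,⟨5,[(4,1),(1,1),(0,0),(9,0),(3,3),(9,
  1)]⟩⟩,⟨false,1,⟨0,[(26,0),(16,0)]⟩,⟨1,[(25,0),(2,0),(2,0)]⟩⟩,⟨true,(-1),⟨0,[(1,0)]⟩,⟨1,[(24,0),
  (18,0)]⟩⟩,⟨false,0,⟨0,[(0,0)]⟩,⟨1,[(10,0),(13,0),(0,0),(18,0)]⟩⟩,⟨false,0,⟨27,[(0,3),(0,5),(2,11),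
  (2,1),(13,11),(1,2),(1,1),(5,9),(12,2)]⟩,⟨0,[(6,0),(6,0)]⟩⟩,⟨true,0,⟨0,[(0,0),(40,0)]⟩,⟨1,[(3,1),
  (2,1),(3,0),(14,0)]⟩⟩,[]⟩)))) (.I [1,1,-1,0,0,0,0,0,1] (.Q [0,0,0,0,0,1,0,0,0,0,0,-1] (.p false
  [0,0,0,1] [] (⟨0,[(24,0)]⟩,⟨1,[(23,0),(8,0),(0,0)]⟩) .k 0 (⟨0,[]⟩,⟨0,[]⟩) .k .k) (.R ⟨0,false,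
  false,false,[0,0,0,1],[0,1,1],[1,0,1,1,0,0,0,1],(⟨0,[(25,0)]⟩,⟨1,[(24,0),(8,0),(0,0)]⟩),(⟨0,[(34,
  0),(2,0)]⟩,⟨0,[(18,0)]⟩),⟨0,[(0,0)]⟩,.k,.k,(.r (-1) ⟨1,[(23,0),(17,1),(0,0)]⟩ ⟨3,[(3,1),(0,1),(1,
  0),(9,0),(3,1),(17,1)]⟩),(.r (-1) ⟨5,[(1,1),(4,0),(5,3),(3,0),(3,1),(2,1),(14,3)]⟩ ⟨2,[(3,1),(0,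
  0),(23,0),(2,0)]⟩),.k,.k,⟨true,0,⟨0,[]⟩,⟨1,[(30,0),(0,0)]⟩⟩,⟨false,1,⟨0,[(10,0),(1,0),(12,0)]⟩,⟨1,
  [(24,0),(2,0),(3,0)]⟩⟩,⟨false,0,⟨0,[(3,0)]⟩,⟨5,[(1,1),(4,0),(5,3),(3,0),(3,1),(2,1),(14,3)]⟩⟩,
  ⟨true,0,⟨1,[(3,1),(2,0),(9,0),(8,1),(13,1)]⟩,⟨1,[(1,1),(22,0),(1,0),(2,0),(8,1)]⟩⟩,⟨false,0,⟨0,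
  []⟩,⟨0,[]⟩⟩,⟨false,0,⟨0,[]⟩,⟨0,[]⟩⟩,[.o ⟨false,0,⟨0,[(10,0)]⟩,⟨1,[(12,0),(16,0),(1,0),(3,0),(2,
  0)]⟩⟩,.o ⟨false,1,⟨2,[(13,1),(6,0),(14,0),(7,1)]⟩,⟨1,[(9,0),(16,0),(2,0)]⟩⟩,.a ⟨true,0,⟨1,[(24,0),
  (8,0),(0,0)]⟩,⟨0,[(25,0)]⟩⟩ ⟨false,0,⟨0,[(2,0)]⟩,⟨7,[(12,5),(9,0),(0,0),(5,1),(0,1),(7,1)]⟩⟩
  ⟨true,0,⟨0,[(10,0),(14,0)]⟩,⟨1,[(9,0),(14,0),(4,1)]⟩⟩,.o ⟨false,0,⟨1,[(24,0),(2,0),(2,0)]⟩,⟨1,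
  [(25,1),(9,0),(6,0)]⟩⟩]⟩) (.Q [0,0,0,-1,0,0,0,0,-1,-1,0,1] (.p true [0,0,0,1] [1] (⟨0,[(25,0)]⟩,
  ⟨1,[(24,0),(8,0),(0,0)]⟩) .k 1 (⟨0,[]⟩,⟨0,[]⟩) .k .k) (.I [0,0,0,-1,0,0,0,0,1] (.R ⟨1,false,false,
  false,[0,0,0,1],[1,-1,-1],[0,0,0,-1,0,0,0,0,1],(⟨0,[(27,0)]⟩,⟨1,[(26,0),(8,0),(0,0)]⟩),(⟨0,[(20,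
  0)]⟩,⟨0,[(36,0),(2,0)]⟩),⟨0,[(2,0)]⟩,.k,.k,(.r (-1) ⟨3,[(0,3),(23,0),(0,0),(18,1)]⟩ ⟨11,[(1,3),(3,
  7),(2,0),(9,2),(3,7),(3,1),(5,3)]⟩),(.r 0 ⟨1,[(3,0),(3,0),(8,0)]⟩ ⟨11,[(1,3),(6,0),(5,7),(3,2),(3,
  3),(1,3),(1,1),(13,3)]⟩),.k,.k,⟨false,0,⟨1,[(3,0),(3,0),(26,0)]⟩,⟨11,[(1,3),(3,3),(2,2),(5,7),(3,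
  4),(3,7),(1,1),(1,1),(18,1)]⟩⟩,⟨true,0,⟨0,[(27,0),(1,0)]⟩,⟨3,[(8,0),(9,2),(7,1)]⟩⟩,⟨true,0,⟨0,
  [(43,0)]⟩,⟨0,[(42,0)]⟩⟩,⟨false,1,⟨0,[(1,0),(29,0),(13,0)]⟩,⟨3,[(3,3),(0,3),(3,0),(9,2),(7,1)]⟩⟩,
  ⟨false,1,⟨3,[(24,0),(0,0),(19,1)]⟩,⟨0,[]⟩⟩,⟨false,1,⟨0,[(1,0),(20,0),(22,0)]⟩,⟨1,[(3,0),(3,0),(9,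
  0),(8,0)]⟩⟩,[.o ⟨false,1,⟨1,[(14,0),(16,0),(1,0),(3,0),(2,0)]⟩,⟨0,[(12,0)]⟩⟩,.o ⟨false,1,⟨3,[(11,
  0),(2,0),(13,2),(4,0),(6,0),(4,2)]⟩,⟨1,[(12,0),(17,0),(11,0)]⟩⟩,.a ⟨true,0,⟨1,[(26,0),(8,0),(0,
  0)]⟩,⟨0,[(27,0)]⟩⟩ ⟨true,0,⟨0,[(0,0)]⟩,⟨0,[(6,0)]⟩⟩ ⟨false,1,⟨3,[(11,0),(2,0),(12,3),(0,2),(4,0),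
  (6,0),(4,2)]⟩,⟨1,[(12,0),(8,0),(4,0)]⟩⟩,.o ⟨false,0,⟨1,[(26,0),(2,0),(2,0)]⟩,⟨1,[(27,1),(9,0),(6,
  0)]⟩⟩]⟩) (.R ⟨1,true,false,false,[0,0,0,1],[0,1],[0,1,0,-1,0,0,0,0,1],(⟨0,[(27,0)]⟩,⟨1,[(26,0),(8,
  0),(0,0)]⟩),(⟨0,[(39,0)]⟩,⟨0,[(38,0)]⟩),⟨0,[(2,0)]⟩,.k,.k,(.r (-1) ⟨1,[(25,0),(17,1),(0,0)]⟩ ⟨1,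
  [(0,1),(31,0),(0,0)]⟩),(.r (-1) ⟨1,[(25,0),(17,1),(0,0)]⟩ ⟨1,[(0,1),(31,0),(0,0)]⟩),(.r (-1) ⟨1,
  [(3,0),(3,0),(6,0),(28,2),(0,0)]⟩ ⟨0,[(5,0),(16,0),(9,0)]⟩),.k,⟨true,0,⟨0,[(3,0),(39,1)]⟩,⟨1,[(0,
  1),(3,1),(3,0),(9,0),(3,1),(17,1)]⟩⟩,⟨false,1,⟨0,[(27,0),(16,0)]⟩,⟨1,[(26,0),(2,0),(2,0)]⟩⟩,
  ⟨false,0,⟨0,[(43,0)]⟩,⟨5,[(15,1),(6,3),(14,0),(7,4)]⟩⟩,⟨true,0,⟨0,[(0,0),(26,0)]⟩,⟨5,[(3,3),(3,1),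
  (3,2),(14,2),(4,1),(0,1),(14,1)]⟩⟩,⟨true,0,⟨0,[(47,0)]⟩,⟨0,[]⟩⟩,⟨false,1,⟨5,[(0,3),(11,3),(9,3),
  (1,0),(2,5),(17,4)]⟩,⟨1,[(3,1),(7,0),(14,0),(13,1)]⟩⟩,[]⟩)) (.R ⟨1,false,false,false,[0,0,0,1],[1,
  -1],[1,1,0,0,0,0,0,0,1],(⟨0,[(26,0)]⟩,⟨1,[(25,0),(8,0),(0,0)]⟩),(⟨0,[(37,0)]⟩,⟨0,[(38,0)]⟩),⟨0,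
  [(1,0)]⟩,.k,.k,(.r (-1) ⟨1,[(24,0),(17,1),(0,0)]⟩ ⟨3,[(4,1),(0,1),(1,0),(9,0),(3,1),(17,1)]⟩),(.r
  0 ⟨2,[(0,0),(5,1),(0,0),(13,1),(4,0),(4,0)]⟩ ⟨1,[(23,0),(18,1),(0,0)]⟩),.k,.k,⟨false,0,⟨11,[(0,1),
  (1,8),(3,0),(0,1),(7,2),(5,3),(4,1),(4,1)]⟩,⟨0,[(4,0),(8,0),(28,0)]⟩⟩,⟨true,0,⟨2,[(7,0),(18,2),(1,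
  1),(2,0)]⟩,⟨1,[(25,0),(8,0),(0,0)]⟩⟩,⟨false,0,⟨0,[]⟩,⟨3,[(23,0),(0,0),(19,1)]⟩⟩,⟨false,1,⟨1,[(9,
  1),(13,0),(2,1),(17,0)]⟩,⟨0,[(0,0)]⟩⟩,⟨true,0,⟨0,[(41,0)]⟩,⟨0,[(42,0)]⟩⟩,⟨false,1,⟨7,[(4,3),(2,1),
  (1,1),(3,1),(9,1),(2,7),(0,1),(8,0),(7,2)]⟩,⟨0,[(0,0),(41,0)]⟩⟩,[.o ⟨false,0,⟨0,[(9,0)]⟩,⟨11,[(14,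
  3),(6,7),(1,2),(0,2),(11,1),(7,3)]⟩⟩,.o ⟨false,1,⟨7,[(10,3),(12,0),(0,0),(11,1),(7,3)]⟩,⟨0,[(41,
  0)]⟩⟩,.a ⟨true,0,⟨1,[(25,0),(8,0),(0,0)]⟩,⟨0,[(26,0)]⟩⟩ ⟨false,0,⟨0,[(0,0),(8,0),(16,0)]⟩,⟨1,[(23,
  0),(20,0)]⟩⟩ ⟨true,0,⟨0,[(9,0),(16,0)]⟩,⟨1,[(21,1),(0,0),(2,0)]⟩⟩,.o ⟨false,0,⟨1,[(25,0),(2,0),(2,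
  0)]⟩,⟨1,[(26,1),(9,0),(6,0)]⟩⟩]⟩))) (.Q [0,0,0,0,0,1,0,0,0,0,0,-1] (.p false [0,0,0,1] [] (⟨0,
  [(24,0)]⟩,⟨1,[(23,0),(8,0),(0,0)]⟩) .k 0 (⟨0,[]⟩,⟨0,[]⟩) .k .k) (.R ⟨0,false,false,false,[0,0,0,
  1],[1,-1],[1,1],(⟨0,[(25,0)]⟩,⟨1,[(24,0),(8,0),(0,0)]⟩),(⟨0,[(36,0)]⟩,⟨0,[(37,0)]⟩),⟨0,[(0,0)]⟩,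
  .k,.k,(.r (-1) ⟨1,[(23,0),(17,1),(0,0)]⟩ ⟨2,[(1,0),(1,0),(0,0),(15,0),(9,0)]⟩),(.r 0 ⟨1,[(5,1),(0,
  0),(9,0),(3,1)]⟩ ⟨1,[(22,0),(18,1),(0,0)]⟩),.k,.k,⟨false,0,⟨0,[(40,0)]⟩,⟨1,[(41,1),(0,0),(0,0)]⟩⟩,
  ⟨true,0,⟨2,[(6,0),(18,2),(1,1),(2,0)]⟩,⟨1,[(24,0),(8,0),(0,0)]⟩⟩,⟨false,0,⟨0,[(1,0),(37,0)]⟩,⟨1,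
  [(23,0),(19,0)]⟩⟩,⟨true,0,⟨0,[(1,0),(6,0),(16,0),(13,0)]⟩,⟨3,[(5,3),(0,0),(9,2),(3,3),(3,1),(14,
  3)]⟩⟩,⟨false,0,⟨0,[]⟩,⟨0,[]⟩⟩,⟨false,0,⟨0,[]⟩,⟨0,[]⟩⟩,[.o ⟨false,0,⟨0,[(8,0)]⟩,⟨11,[(13,3),(6,7),
  (1,2),(0,2),(11,1),(7,3)]⟩⟩,.o ⟨false,1,⟨7,[(9,3),(12,0),(0,0),(11,1),(7,3)]⟩,⟨0,[(40,0)]⟩⟩,.a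
  ⟨true,0,⟨1,[(24,0),(8,0),(0,0)]⟩,⟨0,[(25,0)]⟩⟩ ⟨false,0,⟨0,[]⟩,⟨3,[(22,0),(0,0),(19,1)]⟩⟩ ⟨true,0,
  ⟨0,[(8,0),(16,0)]⟩,⟨1,[(20,1),(0,0),(2,0)]⟩⟩,.o ⟨false,0,⟨1,[(24,0),(2,0),(2,0)]⟩,⟨1,[(25,1),(9,
  0),(6,0)]⟩⟩]⟩) (.Q [0,0,0,1,0,0,0,0,-1,0,0,1] (.p true [0,0,0,1] [] (⟨0,[(25,0)]⟩,⟨1,[(24,0),(8,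
  0),(0,0)]⟩) .k 0 (⟨0,[]⟩,⟨0,[]⟩) .k .k) (.R ⟨1,false,false,false,[1,0,0,-1],[1,-1],[1,1,0,0,0,0,0,
  0,-1],(⟨1,[(25,0),(8,0),(0,0)]⟩,⟨0,[(26,0)]⟩),(⟨0,[(37,0)]⟩,⟨0,[(38,0)]⟩),⟨0,[(1,0),(23,0)]⟩,.k,
  .k,(.r (-1) ⟨1,[(23,0),(18,1),(0,0)]⟩ ⟨1,[(6,1),(0,0),(9,0),(3,1)]⟩),(.r 0 ⟨2,[(2,0),(1,0),(0,0),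
  (15,0),(9,0)]⟩ ⟨1,[(24,0),(17,1),(0,0)]⟩),.k,.k,⟨false,0,⟨0,[(5,0)]⟩,⟨0,[(6,0),(6,0)]⟩⟩,⟨true,0,
  ⟨1,[(25,0),(2,0),(2,0)]⟩,⟨0,[(26,0)]⟩⟩,⟨false,0,⟨0,[]⟩,⟨3,[(23,0),(0,0),(19,1)]⟩⟩,⟨false,1,⟨1,
  [(10,0),(13,0),(0,0),(18,0)]⟩,⟨0,[(0,0)]⟩⟩,⟨true,0,⟨0,[(41,0)]⟩,⟨0,[(42,0)]⟩⟩,⟨false,1,⟨0,[(18,
  0)]⟩,⟨0,[(0,0),(41,0)]⟩⟩,[.o ⟨false,0,⟨0,[(9,0)]⟩,⟨11,[(14,3),(6,7),(1,2),(0,2),(11,1),(7,3)]⟩⟩,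
  .o ⟨false,1,⟨7,[(10,3),(12,0),(0,0),(11,1),(7,3)]⟩,⟨0,[(41,0)]⟩⟩,.a ⟨true,0,⟨0,[(26,0)]⟩,⟨1,[(25,
  0),(8,0),(0,0)]⟩⟩ ⟨false,0,⟨0,[(2,0),(37,0)]⟩,⟨1,[(24,0),(19,0)]⟩⟩ ⟨true,0,⟨1,[(10,0),(14,0)]⟩,⟨0,
  [(26,0),(14,0)]⟩⟩,.o ⟨false,0,⟨2,[(7,0),(18,2),(1,1),(2,0)]⟩,⟨7,[(23,0),(0,0),(0,3),(10,1),(6,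
  3)]⟩⟩]⟩) (.R ⟨2,true,false,false,[0,1],[0,0,0,1],[1,1,1,1],(⟨0,[]⟩,⟨0,[]⟩),(⟨0,[(26,0)]⟩,⟨1,[(25,
  0),(8,0),(0,0)]⟩),⟨0,[]⟩,.k,.k,.k,(.r 0 ⟨2,[(2,0),(1,0),(0,0),(15,0),(9,0)]⟩ ⟨1,[(24,0),(17,1),(0,
  0)]⟩),.k,.k,⟨false,0,⟨0,[(5,0)]⟩,⟨0,[(6,0),(6,0)]⟩⟩,⟨true,0,⟨1,[(25,0),(2,0),(2,0)]⟩,⟨0,[(26,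
  0)]⟩⟩,⟨false,0,⟨0,[]⟩,⟨3,[(23,0),(0,0),(19,1)]⟩⟩,⟨true,0,⟨0,[(0,0)]⟩,⟨0,[(5,0),(20,0)]⟩⟩,⟨true,0,
  ⟨0,[(41,0)]⟩,⟨0,[(42,0)]⟩⟩,⟨false,1,⟨0,[(18,0)]⟩,⟨0,[(2,0),(23,0),(13,0)]⟩⟩,[]⟩))))))))))) (.R ⟨1,
  false,false,false,[1,0,-1],[1,-1],[1,0,0,0,0,0,0,-1],(⟨0,[(24,0)]⟩,⟨0,[(25,0)]⟩),(⟨0,[(27,0)]⟩,⟨0,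
  [(28,0)]⟩),⟨0,[(9,0)]⟩,.k,.k,.k,.k,.k,.k,⟨true,0,⟨0,[(0,0),(1,0),(14,0),(11,0)]⟩,⟨0,[(23,0),(8,
  0)]⟩⟩,⟨false,0,⟨0,[(2,0)]⟩,⟨0,[(22,0),(10,0)]⟩⟩,⟨true,0,⟨0,[]⟩,⟨0,[(36,0)]⟩⟩,⟨true,0,⟨0,[(1,0),
  (30,1)]⟩,⟨0,[(11,0)]⟩⟩,⟨false,1,⟨7,[(0,3),(12,0),(0,0),(11,1),(7,3)]⟩,⟨0,[(32,0)]⟩⟩,⟨true,0,⟨0,
  [(1,0),(30,0)]⟩,⟨0,[(20,0)]⟩⟩,[.a ⟨true,0,⟨0,[(32,0)]⟩,⟨1,[(0,0),(23,0),(0,0)]⟩⟩ ⟨false,1,⟨23,[(0,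
  3),(2,15),(7,7),(1,0),(0,0),(6,7),(4,1),(7,3)]⟩,⟨0,[(23,0)]⟩⟩ ⟨true,0,⟨0,[(2,0),(29,0)]⟩,⟨1,[(0,
  0),(17,0),(3,0)]⟩⟩,.o ⟨false,1,⟨1,[(26,0),(5,1),(1,0)]⟩,⟨0,[(31,0)]⟩⟩,.o ⟨false,1,⟨1,[(22,1),(3,
  0),(6,0)]⟩,⟨0,[(2,0)]⟩⟩,.o ⟨false,0,⟨0,[(18,0)]⟩,⟨15,[(0,3),(2,7),(2,7),(6,0),(0,0),(11,
  5)]⟩⟩]⟩))))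

theorem ok13 : chk (cU (-1) false 3) t13 l13 = true := by decide +kernel

noncomputable def t14 : Tre :=
  (.Q [0,0,0,0,0,0,-1,0,0,0,1] (.p true [0,0,1] [] (⟨0,[(23,0)]⟩,⟨0,[(22,0)]⟩) .k 0 (⟨0,[]⟩,⟨0,[]⟩)
  .k .k) (.K ⟨0,[1,-1,-1],0,0,(⟨0,[(8,0)]⟩,⟨0,[(24,0),(2,0)]⟩),.k,(.r (-1) ⟨0,[(1,0)]⟩ ⟨0,[(4,0)]⟩),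
  .k,.k,.k,[⟨0,[(6,0)]⟩,⟨0,[(0,0)]⟩,⟨0,[(10,0),(0,0)]⟩,⟨0,[(16,0),(14,0)]⟩]⟩) (.Q [0,0,0,1,0,0,0,0,
  0,1] (.pp false [-1,1]) (.R ⟨1,false,false,true,[1,0,-1],[0,1],[1,1,0,0,0,0,0,-1],(⟨0,[(24,0)]⟩,
  ⟨0,[(25,0)]⟩),(⟨0,[(28,0)]⟩,⟨0,[(27,0)]⟩),⟨0,[(9,0)]⟩,.k,.k,.k,.k,(.r (-1) ⟨0,[(2,0)]⟩ ⟨0,[(5,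
  0)]⟩),.k,⟨true,1,⟨11,[(2,7),(8,3),(1,0),(0,0),(6,3),(12,1)]⟩,⟨0,[(3,0)]⟩⟩,⟨false,1,⟨0,[(7,0),(25,
  0)]⟩,⟨0,[(18,0)]⟩⟩,⟨false,0,⟨0,[]⟩,⟨3,[(13,0),(0,0),(19,1)]⟩⟩,⟨false,0,⟨0,[(10,0)]⟩,⟨2,[(2,0),(14,
  1),(0,0),(10,0),(4,1)]⟩⟩,⟨true,0,⟨0,[(31,0)]⟩,⟨0,[(32,0)]⟩⟩,⟨false,0,⟨0,[(0,0),(0,0),(1,0),(29,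
  0)]⟩,⟨2,[(2,1),(14,0),(0,1),(10,1),(4,0)]⟩⟩,[.o ⟨false,0,⟨0,[(31,0)]⟩,⟨3,[(2,0),(20,0),(2,1),(2,
  1),(4,0)]⟩⟩,.a ⟨true,0,⟨0,[(0,0)]⟩,⟨0,[(32,0)]⟩⟩ ⟨false,1,⟨11,[(1,7),(0,3),(8,7),(1,0),(0,0),(18,
  1),(0,3)]⟩,⟨0,[(23,0)]⟩⟩ ⟨true,0,⟨0,[(0,0),(0,0)]⟩,⟨0,[(18,0),(13,0)]⟩⟩,.o ⟨false,1,⟨1,[(22,1),(3,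
  0),(6,0)]⟩,⟨0,[(1,0)]⟩⟩,.o ⟨false,0,⟨0,[(18,0)]⟩,⟨3,[(1,3),(11,0),(0,0),(18,1)]⟩⟩]⟩) (.Q [0,0,0,0,
  0,1,0,0,0,0,-1] (.ed true [1,-1,1] .k) (.Q [0,0,0,0,0,0,-1,0,0,1,1] (.p true [1,-1,1] [] (⟨0,[(26,
  0),(1,0)]⟩,⟨0,[(0,0)]⟩) .k 0 (⟨0,[]⟩,⟨0,[]⟩) .k .k) (.K ⟨0,[1,-1,1],0,0,(⟨0,[(27,0),(1,0)]⟩,⟨0,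
  [(1,0)]⟩),.k,(.r (-1) ⟨0,[(4,0),(20,1)]⟩ ⟨2,[(3,3),(1,1),(7,4),(9,0),(7,0),(4,1)]⟩),.k,.k,.k,[⟨0,
  [(0,0)]⟩,⟨0,[(3,0)]⟩,⟨1,[(0,0),(8,0),(3,1)]⟩,⟨0,[(2,0),(18,0)]⟩]⟩) (.Q [0,0,0,1,0,0,0,0,-1,0,0,1]
  (.p true [0,0,0,1] [] (⟨0,[(18,0)]⟩,⟨1,[(17,0),(8,0),(0,0)]⟩) .k 0 (⟨0,[]⟩,⟨0,[]⟩) .k .k) (.Q [0,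
  1,0,0,-1,0,1,1,-1,0,-1,1] (.p false [0,0,1] [0,0,0,1] (⟨0,[(28,0)]⟩,⟨0,[(27,0)]⟩) .k 2 (⟨0,[(19,
  0)]⟩,⟨1,[(18,0),(8,0),(0,0)]⟩) .k (.r 0 ⟨1,[(0,1),(2,0),(14,0),(7,1),(8,0)]⟩ ⟨3,[(4,1),(0,0),(8,
  2),(2,1),(6,0),(7,0),(4,0)]⟩)) (.Q [0,0,0,0,0,1,0,0,0,0,0,-1] (.p false [0,0,0,1] [] (⟨0,[(20,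
  0)]⟩,⟨1,[(19,0),(8,0),(0,0)]⟩) .k 0 (⟨0,[]⟩,⟨0,[]⟩) .k .k) (.R ⟨0,false,false,true,[0,0,0,1],[0,0,
  1],[0,1],(⟨0,[(21,0)]⟩,⟨1,[(20,0),(8,0),(0,0)]⟩),(⟨0,[(30,0)]⟩,⟨0,[(29,0)]⟩),⟨0,[(0,0)]⟩,.k,.k,
  (.r (-1) ⟨1,[(7,0),(11,0),(8,0)]⟩ ⟨33,[(2,15),(0,7),(4,11),(7,11),(1,8),(1,7),(5,3),(7,5),(4,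
  2)]⟩),.k,.k,.k,⟨false,1,⟨11,[(6,7),(0,3),(8,7),(1,0),(0,0),(18,1),(0,3)]⟩,⟨0,[(28,0)]⟩⟩,⟨true,0,
  ⟨0,[(6,0),(14,0)]⟩,⟨1,[(20,0),(2,0),(3,0)]⟩⟩,⟨false,0,⟨5,[(1,0),(0,4),(2,1),(1,0),(12,2),(2,0),
  (10,0)]⟩,⟨1,[(19,0),(19,0)]⟩⟩,⟨true,(-1),⟨0,[(1,0)]⟩,⟨0,[(13,0),(11,0)]⟩⟩,⟨false,0,⟨0,[]⟩,⟨0,[]⟩⟩,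
  ⟨false,0,⟨0,[]⟩,⟨0,[]⟩⟩,[.o ⟨false,0,⟨0,[(24,0)]⟩,⟨0,[(22,0),(16,0)]⟩⟩,.o ⟨false,0,⟨1,[(5,0),(3,
  0)]⟩,⟨1,[(25,1),(5,0),(7,0)]⟩⟩,.a ⟨true,0,⟨1,[(20,0),(8,0),(0,0)]⟩,⟨0,[(21,0)]⟩⟩ ⟨true,0,⟨0,[(41,
  0)]⟩,⟨0,[]⟩⟩ ⟨false,0,⟨1,[(1,1),(17,0),(19,0)]⟩,⟨1,[(20,0),(1,0),(2,0),(13,1)]⟩⟩,.o ⟨false,0,⟨1,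
  [(20,0),(2,0),(2,0)]⟩,⟨1,[(21,1),(9,0),(6,0)]⟩⟩]⟩) (.Q [0,0,0,0,0,0,-1,-1,-1,-1,1,1] (.p true [0,
  0,1] [1,0,0,-1] (⟨0,[(30,0)]⟩,⟨0,[(29,0)]⟩) .k 2 (⟨1,[(20,0),(8,0),(0,0)]⟩,⟨0,[(21,0)]⟩) .k (.x 0
  ⟨0,[(6,0),(23,0)]⟩ ⟨1,[(27,1),(1,1),(1,0),(6,0)]⟩)) (.R ⟨1,false,false,true,[0,0,0,1],[1,-1,-1],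
  [1,0,0,0,0,0,0,0,1],(⟨0,[(22,0)]⟩,⟨1,[(21,0),(8,0),(0,0)]⟩),(⟨0,[(15,0)]⟩,⟨0,[(31,0),(2,0)]⟩),⟨0,
  [(1,0)]⟩,.k,.k,(.r (-1) ⟨1,[(8,0),(11,0),(8,0)]⟩ ⟨25,[(0,8),(2,10),(0,0),(4,2),(1,5),(7,2),(1,9),
  (5,7)]⟩),(.r 0 ⟨1,[(9,1),(10,0),(18,0)]⟩ ⟨13,[(0,3),(6,1),(0,7),(4,1),(3,1),(1,4),(1,1),(5,1),(12,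
  0)]⟩),.k,.k,⟨false,1,⟨1,[(9,1),(10,0),(18,1),(0,0)]⟩,⟨1,[(0,0),(1,0),(4,0),(0,0),(12,0),(4,0)]⟩⟩,
  ⟨true,0,⟨0,[(22,0),(1,0)]⟩,⟨1,[(7,0),(5,0),(7,0)]⟩⟩,⟨true,0,⟨0,[]⟩,⟨0,[(42,0)]⟩⟩,⟨false,0,⟨0,[(0,
  0),(37,0)]⟩,⟨0,[(14,0),(1,0)]⟩⟩,⟨false,1,⟨5,[(10,1),(6,3),(14,0),(7,4)]⟩,⟨0,[(38,0)]⟩⟩,⟨false,0,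
  ⟨0,[(0,0)]⟩,⟨1,[(18,0),(1,0),(0,0),(18,0)]⟩⟩,[.o ⟨false,0,⟨0,[(23,0),(14,0)]⟩,⟨2,[(10,1),(6,0),
  (14,0),(7,1)]⟩⟩,.o ⟨false,1,⟨5,[(8,1),(17,3),(1,1),(3,2),(2,1),(4,0)]⟩,⟨1,[(4,0),(4,0),(6,0),(22,
  0)]⟩⟩,.a ⟨true,0,⟨1,[(21,0),(8,0),(0,0)]⟩,⟨0,[(22,0)]⟩⟩ ⟨false,1,⟨1,[(20,0),(19,0)]⟩,⟨5,[(0,1),(1,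
  1),(16,0),(1,1),(18,0)]⟩⟩ ⟨true,0,⟨0,[(22,0),(0,0),(14,0)]⟩,⟨3,[(4,0),(4,0),(6,2),(4,1),(17,0)]⟩⟩,
  .o ⟨false,0,⟨1,[(21,0),(2,0),(2,0)]⟩,⟨1,[(22,1),(9,0),(6,0)]⟩⟩]⟩) (.Q [0,-1,0,0,0,0,0,0,-2,-1,0,
  2] (.p true [0,0,0,1] [1,0,0,-1] (⟨0,[(22,0)]⟩,⟨1,[(21,0),(8,0),(0,0)]⟩) .k 2 (⟨1,[(21,0),(8,0),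
  (0,0)]⟩,⟨0,[(22,0)]⟩) .k .k) (.R ⟨1,false,false,true,[1,0,0,-1],[0,0,0,1],[1,1,0,0,0,0,0,0,-1],
  (⟨1,[(22,0),(8,0),(0,0)]⟩,⟨0,[(23,0)]⟩),(⟨0,[(23,0)]⟩,⟨1,[(22,0),(8,0),(0,0)]⟩),⟨0,[(2,0),(19,
  0)]⟩,.k,.k,(.x 0 ⟨2,[(5,0),(19,1),(2,0),(5,2)]⟩ ⟨3,[(20,0),(0,0),(13,3),(4,1)]⟩),.k,(.r 0 ⟨0,[(0,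
  0),(21,0),(14,0),(1,0)]⟩ ⟨4,[(8,0),(1,0),(1,0),(5,1),(2,4),(6,0),(12,0)]⟩),.k,⟨false,0,⟨0,[(0,0),
  (21,0),(14,0)]⟩,⟨0,[(21,0)]⟩⟩,⟨true,0,⟨0,[(22,0)]⟩,⟨2,[(5,0),(17,5),(1,1),(2,0)]⟩⟩,⟨false,0,⟨0,
  []⟩,⟨3,[(20,0),(0,0),(19,1)]⟩⟩,⟨false,1,⟨0,[(21,0),(0,0)]⟩,⟨0,[(0,0)]⟩⟩,⟨true,0,⟨0,[(38,0)]⟩,⟨0,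
  [(39,0)]⟩⟩,⟨false,1,⟨0,[(1,0),(13,0),(2,0)]⟩,⟨0,[(0,0),(38,0)]⟩⟩,[.o ⟨false,0,⟨0,[(1,0),(22,0)]⟩,
  ⟨3,[(0,1),(19,0),(0,0),(11,0),(7,0)]⟩⟩,.o ⟨false,1,⟨7,[(20,0),(0,4),(0,3),(10,1)]⟩,⟨4,[(0,1),(2,
  0),(20,0),(8,0)]⟩⟩,.a ⟨true,0,⟨0,[(23,0)]⟩,⟨1,[(22,0),(8,0),(0,0)]⟩⟩ ⟨false,0,⟨13,[(0,3),(2,1),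
  (16,1),(1,4),(1,0),(2,0)]⟩,⟨1,[(21,0),(19,0)]⟩⟩ ⟨true,0,⟨1,[(1,1),(20,0),(1,0),(2,0)]⟩,⟨4,[(0,1),
  (2,0),(19,4),(0,0),(8,0)]⟩⟩,.o ⟨false,0,⟨2,[(5,0),(17,2),(1,1),(2,0)]⟩,⟨7,[(20,0),(0,0),(0,3),(10,
  1),(6,3)]⟩⟩]⟩) (.Q [0,-1,0,-1,1,0,-1,-1,1,0,1,-1] (.p true [0,0,1] [0,0,0,1] (⟨0,[(32,0)]⟩,⟨0,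
  [(31,0)]⟩) .k 2 (⟨0,[(23,0)]⟩,⟨1,[(22,0),(8,0),(0,0)]⟩) .k (.r 0 ⟨3,[(3,1),(0,1),(4,0),(12,1),(2,
  1),(4,2),(10,0)]⟩ ⟨3,[(8,1),(0,0),(8,2),(2,1),(6,0),(7,0),(4,0)]⟩)) (.R ⟨1,true,false,true,[1,0,
  -1],[1,0,0,-1],[0,1,0,-1,0,0,0,-1],(⟨0,[(32,0)]⟩,⟨0,[(33,0)]⟩),(⟨1,[(23,0),(8,0),(0,0)]⟩,⟨0,[(24,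
  0)]⟩),⟨0,[(17,0)]⟩,.k,.k,.k,.k,(.r (-1) ⟨7,[(0,1),(0,1),(4,1),(2,1),(0,3),(8,1),(2,0),(1,5),(17,
  0)]⟩ ⟨9,[(5,3),(5,3),(1,0),(7,2),(1,1),(7,4),(2,0)]⟩),.k,⟨false,1,⟨7,[(0,1),(0,1),(4,1),(2,1),(0,
  3),(8,1),(2,0),(1,5),(17,0)]⟩,⟨3,[(4,1),(0,1),(5,1),(11,1),(2,1),(14,2),(0,0)]⟩⟩,⟨true,0,⟨0,[(9,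
  0),(14,0)]⟩,⟨1,[(23,0),(2,0),(3,0)]⟩⟩,⟨false,0,⟨0,[(40,0)]⟩,⟨5,[(12,1),(6,3),(14,0),(7,4)]⟩⟩,
  ⟨true,(-1),⟨0,[(4,0)]⟩,⟨23,[(0,11),(0,3),(14,3),(2,11),(1,2),(0,2),(11,1)]⟩⟩,⟨true,0,⟨0,[(44,0)]⟩,
  ⟨0,[]⟩⟩,⟨false,0,⟨5,[(4,1),(0,3),(6,1),(21,0),(7,0)]⟩,⟨0,[(0,0)]⟩⟩,[]⟩) (.R ⟨1,false,false,true,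
  [0,0,0,1],[0,0,1],[0,1,0,-1,0,0,0,0,1],(⟨0,[(24,0)]⟩,⟨1,[(23,0),(8,0),(0,0)]⟩),(⟨0,[(33,0)]⟩,⟨0,
  [(32,0)]⟩),⟨0,[(3,0)]⟩,.k,.k,(.r (-1) ⟨1,[(10,0),(11,0),(8,0)]⟩ ⟨33,[(5,15),(0,7),(4,11),(7,11),
  (1,8),(1,7),(5,3),(7,5),(4,2)]⟩),.k,(.r (-1) ⟨9,[(1,3),(4,3),(3,5),(8,3),(2,0),(1,7),(12,1),(4,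
  2)]⟩ ⟨9,[(0,1),(4,1),(5,1),(1,1),(7,2),(1,1),(2,1),(4,3),(10,0)]⟩),.k,⟨false,1,⟨9,[(1,3),(4,3),(3,
  5),(8,3),(2,0),(1,7),(12,1),(4,2)]⟩,⟨3,[(0,1),(4,1),(17,1),(2,1),(4,1),(9,0),(0,0)]⟩⟩,⟨true,0,⟨0,
  [(9,0),(14,0)]⟩,⟨1,[(23,0),(2,0),(3,0)]⟩⟩,⟨false,0,⟨0,[(40,0)]⟩,⟨5,[(12,1),(6,3),(14,0),(7,4)]⟩⟩,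
  ⟨true,(-1),⟨0,[(4,0)]⟩,⟨0,[(16,0),(11,0)]⟩⟩,⟨true,0,⟨0,[(44,0)]⟩,⟨0,[]⟩⟩,⟨true,(-1),⟨0,[(0,0)]⟩,
  ⟨8,[(1,1),(8,2),(5,4),(11,5),(1,2),(3,0),(2,2)]⟩⟩,[.o ⟨false,0,⟨0,[(27,0)]⟩,⟨0,[(25,0),(16,0)]⟩⟩,
  .o ⟨false,0,⟨1,[(8,0),(3,0)]⟩,⟨1,[(28,1),(5,0),(7,0)]⟩⟩,.a ⟨true,0,⟨1,[(23,0),(8,0),(0,0)]⟩,⟨0,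
  [(24,0)]⟩⟩ ⟨true,0,⟨2,[(1,0),(2,0),(17,0),(1,0),(0,0),(14,2)]⟩,⟨1,[(0,0),(4,0),(17,0),(1,0),(16,
  0)]⟩⟩ ⟨false,0,⟨1,[(4,1),(17,0),(19,0)]⟩,⟨1,[(23,0),(1,0),(2,0),(13,1)]⟩⟩,.o ⟨false,0,⟨1,[(23,0),
  (2,0),(2,0)]⟩,⟨1,[(24,1),(9,0),(6,0)]⟩⟩]⟩))))) (.Q [0,0,0,0,0,1,0,0,0,0,0,-1] (.p false [0,0,0,1]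
  [] (⟨0,[(20,0)]⟩,⟨1,[(19,0),(8,0),(0,0)]⟩) .k 0 (⟨0,[]⟩,⟨0,[]⟩) .k .k) (.R ⟨0,false,false,true,[0,
  0,0,1],[0,1],[],(⟨0,[(21,0)]⟩,⟨1,[(20,0),(8,0),(0,0)]⟩),(⟨0,[(33,0)]⟩,⟨0,[(32,0)]⟩),⟨0,[(0,0)]⟩,
  .k,.k,(.r (-1) ⟨1,[(7,0),(11,0),(8,0)]⟩ ⟨33,[(2,15),(0,7),(4,11),(7,11),(1,8),(1,7),(5,3),(7,5),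
  (4,2)]⟩),(.r (-1) ⟨1,[(7,0),(11,0),(8,0)]⟩ ⟨33,[(2,15),(0,7),(4,11),(7,11),(1,8),(1,7),(5,3),(7,
  5),(4,2)]⟩),.k,.k,⟨true,1,⟨1,[(7,0),(20,0),(10,0)]⟩,⟨0,[(6,0),(1,0),(16,0)]⟩⟩,⟨false,1,⟨0,[(21,0),
  (16,0)]⟩,⟨1,[(20,0),(2,0),(2,0)]⟩⟩,⟨true,0,⟨1,[(2,1),(2,0),(14,0),(16,0)]⟩,⟨0,[(1,0),(4,0),(1,0),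
  (12,0),(13,1),(1,0)]⟩⟩,⟨false,0,⟨0,[(2,0)]⟩,⟨4,[(5,0),(1,0),(5,2),(5,0),(0,0),(7,0),(5,1)]⟩⟩,
  ⟨false,0,⟨0,[]⟩,⟨0,[]⟩⟩,⟨false,0,⟨0,[]⟩,⟨0,[]⟩⟩,[.o ⟨false,0,⟨0,[(36,0)]⟩,⟨3,[(7,0),(20,0),(2,1),
  (2,1),(4,0)]⟩⟩,.o ⟨false,1,⟨11,[(9,3),(6,7),(1,2),(0,2),(11,1),(7,3)]⟩,⟨0,[(5,0)]⟩⟩,.a ⟨true,0,⟨1,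
  [(20,0),(8,0),(0,0)]⟩,⟨0,[(21,0)]⟩⟩ ⟨false,1,⟨3,[(18,0),(0,0),(19,1)]⟩,⟨0,[]⟩⟩ ⟨true,0,⟨0,[(21,0),
  (14,0)]⟩,⟨1,[(5,0),(14,0),(16,0)]⟩⟩,.o ⟨false,0,⟨1,[(20,0),(2,0),(2,0)]⟩,⟨1,[(21,1),(9,0),(6,
  0)]⟩⟩]⟩) (.R ⟨1,false,false,true,[0,0,0,1],[0,0,1],[1,1,0,0,0,0,0,0,1],(⟨0,[(21,0)]⟩,⟨1,[(20,0),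
  (8,0),(0,0)]⟩),(⟨0,[(30,0)]⟩,⟨0,[(29,0)]⟩),⟨0,[(0,0)]⟩,.k,.k,(.r (-1) ⟨1,[(7,0),(11,0),(8,0)]⟩
  ⟨33,[(2,15),(0,7),(4,11),(7,11),(1,8),(1,7),(5,3),(7,5),(4,2)]⟩),.k,(.r (-1) ⟨0,[(1,0),(4,0),(14,
  0),(13,0),(1,0)]⟩ ⟨9,[(2,3),(5,3),(1,0),(7,2),(1,1),(7,4),(2,0)]⟩),.k,⟨false,1,⟨0,[(1,0),(4,0),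
  (14,0),(13,0)]⟩,⟨1,[(2,1),(2,0),(14,0),(7,1),(8,0)]⟩⟩,⟨true,0,⟨0,[(6,0),(14,0)]⟩,⟨1,[(20,0),(2,0),
  (3,0)]⟩⟩,⟨false,0,⟨0,[]⟩,⟨3,[(18,0),(0,0),(19,1)]⟩⟩,⟨false,0,⟨1,[(2,1),(2,0),(11,0),(19,0)]⟩,⟨0,
  [(1,0)]⟩⟩,⟨true,0,⟨0,[(36,0)]⟩,⟨0,[(37,0)]⟩⟩,⟨false,0,⟨1,[(2,1),(2,0),(3,0)]⟩,⟨0,[(1,0),(35,0)]⟩⟩,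
  [.o ⟨false,0,⟨0,[(24,0)]⟩,⟨0,[(22,0),(16,0)]⟩⟩,.o ⟨false,0,⟨1,[(5,0),(3,0)]⟩,⟨3,[(1,1),(16,0),(2,
  1),(0,1),(8,0)]⟩⟩,.a ⟨true,0,⟨1,[(20,0),(8,0),(0,0)]⟩,⟨0,[(21,0)]⟩⟩ ⟨true,0,⟨0,[(1,0),(4,0),(1,0),
  (12,0),(13,1),(1,0)]⟩,⟨1,[(2,1),(2,0),(14,0),(16,0)]⟩⟩ ⟨false,0,⟨1,[(5,0),(3,0),(11,1)]⟩,⟨1,[(20,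
  0),(1,0),(2,0),(13,1)]⟩⟩,.o ⟨false,0,⟨1,[(20,0),(2,0),(2,0)]⟩,⟨1,[(21,1),(9,0),(6,0)]⟩⟩]⟩))) (.I
  [0,0,-1,-1,0,0,0,0,1] (.Q [0,0,0,0,0,1,0,0,0,0,0,-1] (.p false [0,0,0,1] [] (⟨0,[(20,0)]⟩,⟨1,[(19,
  0),(8,0),(0,0)]⟩) .k 0 (⟨0,[]⟩,⟨0,[]⟩) .k .k) (.R ⟨0,false,false,false,[0,0,0,1],[1,-1],[0,0,-1,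
  -1],(⟨0,[(21,0)]⟩,⟨1,[(20,0),(8,0),(0,0)]⟩),(⟨0,[(32,0)]⟩,⟨0,[(33,0)]⟩),⟨0,[(0,0)]⟩,.k,.k,(.r 0
  ⟨0,[(1,0)]⟩ ⟨5,[(10,1),(5,1),(1,3),(0,0),(6,1),(12,0)]⟩),(.r 0 ⟨2,[(1,0),(4,1),(1,1),(7,1),(2,0),
  (19,0)]⟩ ⟨1,[(7,0),(10,0),(9,0)]⟩),.k,.k,⟨false,1,⟨3,[(18,0),(0,0),(18,1)]⟩,⟨0,[]⟩⟩,⟨true,0,⟨2,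
  [(3,0),(17,2),(1,1),(2,0)]⟩,⟨1,[(20,0),(8,0),(0,0)]⟩⟩,⟨true,1,⟨1,[(7,0),(10,0),(9,0)]⟩,⟨0,[(1,0),
  (4,0),(1,0),(7,0)]⟩⟩,⟨false,1,⟨1,[(5,1),(12,0),(2,1),(17,0)]⟩,⟨1,[(1,1),(4,0),(1,0),(6,0),(0,1),
  (3,0),(18,0)]⟩⟩,⟨false,0,⟨0,[]⟩,⟨0,[]⟩⟩,⟨false,0,⟨0,[]⟩,⟨0,[]⟩⟩,[.o ⟨false,0,⟨0,[(5,0)]⟩,⟨11,[(9,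
  3),(6,7),(1,2),(0,2),(11,1),(7,3)]⟩⟩,.o ⟨false,1,⟨3,[(7,0),(20,0),(2,1),(2,1),(4,0)]⟩,⟨0,[(36,
  0)]⟩⟩,.a ⟨true,0,⟨1,[(20,0),(8,0),(0,0)]⟩,⟨0,[(21,0)]⟩⟩ ⟨false,1,⟨1,[(7,0),(20,0),(10,0)]⟩,⟨4,[(6,
  0),(1,0),(1,0),(5,1),(9,0),(12,0)]⟩⟩ ⟨true,0,⟨0,[(5,0),(15,0)]⟩,⟨1,[(16,1),(0,0),(2,0)]⟩⟩,.o
  ⟨false,0,⟨1,[(20,0),(2,0),(2,0)]⟩,⟨1,[(21,1),(9,0),(6,0)]⟩⟩]⟩) (.Q [0,1,0,1,0,0,0,0,-1,0,0,1] (.p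
  true [0,0,0,1] [] (⟨0,[(21,0)]⟩,⟨1,[(20,0),(8,0),(0,0)]⟩) .k 0 (⟨0,[]⟩,⟨0,[]⟩) .k .k) (.R ⟨1,
  false,false,false,[1,0,0,-1],[1,-1],[1,0,0,0,0,0,0,0,-1],(⟨1,[(21,0),(8,0),(0,0)]⟩,⟨0,[(22,0)]⟩),
  (⟨0,[(33,0)]⟩,⟨0,[(34,0)]⟩),⟨0,[(1,0),(19,0)]⟩,.k,.k,(.r (-1) ⟨1,[(8,0),(10,0),(9,0)]⟩ ⟨2,[(2,0),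
  (4,1),(1,1),(7,1),(2,0),(19,0)]⟩),(.r (-1) ⟨5,[(11,1),(5,1),(1,3),(0,0),(6,1),(12,0)]⟩ ⟨0,[(2,
  0)]⟩),.k,.k,⟨false,1,⟨5,[(10,1),(6,3),(1,2),(12,0),(7,1)]⟩,⟨0,[(2,0)]⟩⟩,⟨true,0,⟨1,[(21,0),(2,0),
  (2,0)]⟩,⟨0,[(22,0)]⟩⟩,⟨true,0,⟨0,[]⟩,⟨0,[(42,0)]⟩⟩,⟨true,0,⟨0,[(3,0)]⟩,⟨0,[(0,0)]⟩⟩,⟨false,1,⟨5,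
  [(10,1),(6,3),(14,0),(7,4)]⟩,⟨0,[(38,0)]⟩⟩,⟨true,0,⟨2,[(2,1),(1,0),(4,0),(4,0),(2,0),(3,0)]⟩,⟨0,
  [(0,0),(37,0)]⟩⟩,[.o ⟨false,0,⟨0,[(6,0)]⟩,⟨11,[(10,3),(6,7),(1,2),(0,2),(11,1),(7,3)]⟩⟩,.o ⟨false,
  1,⟨3,[(8,0),(20,0),(2,1),(2,1),(4,0)]⟩,⟨0,[(37,0)]⟩⟩,.a ⟨true,0,⟨0,[(22,0)]⟩,⟨1,[(21,0),(8,0),(0,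
  0)]⟩⟩ ⟨false,1,⟨1,[(19,0),(20,0)]⟩,⟨5,[(2,3),(4,1),(1,1),(7,1),(2,0),(19,0)]⟩⟩ ⟨true,0,⟨1,[(6,0),
  (14,0),(16,0)]⟩,⟨0,[(22,0),(14,0)]⟩⟩,.o ⟨false,0,⟨2,[(4,0),(17,2),(1,1),(2,0)]⟩,⟨7,[(19,0),(0,0),
  (0,3),(10,1),(6,3)]⟩⟩]⟩) (.R ⟨1,false,false,true,[0,0,0,1],[0,1],[1,1,0,0,0,0,0,0,1],(⟨0,[(22,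
  0)]⟩,⟨1,[(21,0),(8,0),(0,0)]⟩),(⟨0,[(34,0)]⟩,⟨0,[(33,0)]⟩),⟨0,[(1,0)]⟩,.k,.k,(.r 0 ⟨0,[(2,0)]⟩ ⟨5,
  [(11,1),(5,1),(1,3),(0,0),(6,1),(12,0)]⟩),(.r 0 ⟨0,[(2,0)]⟩ ⟨5,[(11,1),(5,1),(1,3),(0,0),(6,1),
  (12,0)]⟩),(.r (-1) ⟨3,[(2,1),(5,2),(11,0),(8,2)]⟩ ⟨1,[(7,1),(1,1),(7,1),(1,0),(20,0)]⟩),.k,⟨true,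
  0,⟨0,[(2,0)]⟩,⟨5,[(7,1),(1,3),(7,3),(1,2),(7,1),(7,1),(4,0)]⟩⟩,⟨false,1,⟨0,[(22,0),(16,0)]⟩,⟨1,
  [(21,0),(2,0),(2,0)]⟩⟩,⟨false,0,⟨0,[]⟩,⟨3,[(19,0),(0,0),(19,1)]⟩⟩,⟨false,1,⟨5,[(10,1),(6,3),(1,2),
  (2,5),(9,0),(7,1)]⟩,⟨0,[(0,0)]⟩⟩,⟨true,0,⟨0,[(37,0)]⟩,⟨0,[(38,0)]⟩⟩,⟨false,1,⟨1,[(4,0),(4,0),(6,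
  0),(0,1),(1,0),(2,1),(16,0),(0,0)]⟩,⟨0,[(0,0),(37,0)]⟩⟩,[.o ⟨false,0,⟨0,[(37,0)]⟩,⟨3,[(8,0),(20,
  0),(2,1),(2,1),(4,0)]⟩⟩,.o ⟨false,1,⟨11,[(10,3),(6,7),(1,2),(0,2),(11,1),(7,3)]⟩,⟨0,[(6,0)]⟩⟩,.a
  ⟨true,0,⟨1,[(21,0),(8,0),(0,0)]⟩,⟨0,[(22,0)]⟩⟩ ⟨false,0,⟨5,[(2,3),(4,1),(1,1),(7,1),(2,0),(19,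
  0)]⟩,⟨1,[(19,0),(20,0)]⟩⟩ ⟨true,0,⟨0,[(22,0),(14,0)]⟩,⟨1,[(6,0),(14,0),(16,0)]⟩⟩,.o ⟨false,0,⟨1,
  [(21,0),(2,0),(2,0)]⟩,⟨1,[(22,1),(9,0),(6,0)]⟩⟩]⟩))) (.I [0,0,0,0,0,0,0,0,1] (.I [0,0,1,1,0,0,0,0,
  -1] (.Q [0,0,0,0,0,1,0,0,0,0,0,-1] (.p false [0,0,0,1] [] (⟨0,[(22,0)]⟩,⟨1,[(21,0),(8,0),(0,0)]⟩)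
  .k 0 (⟨0,[]⟩,⟨0,[]⟩) .k .k) (.R ⟨0,false,false,true,[0,0,0,1],[0,1],[1,1,1,1],(⟨0,[(23,0)]⟩,⟨1,
  [(22,0),(8,0),(0,0)]⟩),(⟨0,[(35,0)]⟩,⟨0,[(34,0)]⟩),⟨0,[(0,0)]⟩,.k,.k,(.r (-1) ⟨1,[(9,0),(11,0),(8,
  0)]⟩ ⟨0,[(1,0)]⟩),(.r (-1) ⟨1,[(9,0),(11,0),(8,0)]⟩ ⟨0,[(1,0)]⟩),.k,.k,⟨true,0,⟨0,[]⟩,⟨1,[(28,0),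
  (0,0)]⟩⟩,⟨false,1,⟨0,[(23,0),(16,0)]⟩,⟨1,[(22,0),(2,0),(2,0)]⟩⟩,⟨false,0,⟨0,[(3,0)]⟩,⟨1,[(2,1),(6,
  0),(20,0),(10,0)]⟩⟩,⟨true,0,⟨0,[(3,0),(19,0),(13,0)]⟩,⟨0,[(4,0)]⟩⟩,⟨false,0,⟨0,[]⟩,⟨0,[]⟩⟩,⟨false,
  0,⟨0,[]⟩,⟨0,[]⟩⟩,[.o ⟨false,0,⟨0,[(38,0)]⟩,⟨3,[(9,0),(20,0),(2,1),(2,1),(4,0)]⟩⟩,.o ⟨false,1,⟨11,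
  [(11,3),(6,7),(1,2),(0,2),(11,1),(7,3)]⟩,⟨0,[(7,0)]⟩⟩,.a ⟨true,0,⟨1,[(22,0),(8,0),(0,0)]⟩,⟨0,[(23,
  0)]⟩⟩ ⟨false,0,⟨4,[(8,0),(1,0),(1,0),(5,1),(9,0),(12,0)]⟩,⟨1,[(9,0),(20,0),(10,0)]⟩⟩ ⟨true,0,⟨0,
  [(23,0),(14,0)]⟩,⟨1,[(7,0),(14,0),(16,0)]⟩⟩,.o ⟨false,0,⟨1,[(22,0),(2,0),(2,0)]⟩,⟨1,[(23,1),(9,0),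
  (6,0)]⟩⟩]⟩) (.Q [0,-1,0,0,1,0,-1,-1,-1,-1,1,1] (.p true [0,0,1] [1,0,0,-1] (⟨0,[(32,0)]⟩,⟨0,[(31,
  0)]⟩) .k 2 (⟨1,[(22,0),(8,0),(0,0)]⟩,⟨0,[(23,0)]⟩) .k (.r 0 ⟨0,[(2,0),(27,0)]⟩ ⟨3,[(3,1),(5,1),(8,
  1),(1,0),(7,1),(12,0)]⟩)) (.R ⟨1,false,false,false,[0,0,0,1],[1,-1,-1],[1,0,0,0,0,0,0,0,1],(⟨0,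
  [(24,0)]⟩,⟨1,[(23,0),(8,0),(0,0)]⟩),(⟨0,[(17,0)]⟩,⟨0,[(33,0),(2,0)]⟩),⟨0,[(1,0)]⟩,.k,.k,(.r (-1)
  ⟨1,[(10,0),(11,0),(8,0)]⟩ ⟨0,[(2,0)]⟩),(.r 0 ⟨1,[(11,1),(10,0),(18,0)]⟩ ⟨0,[(4,0),(5,0)]⟩),.k,.k,
  ⟨false,0,⟨0,[(3,0),(7,0),(29,0)]⟩,⟨0,[(4,0),(5,0)]⟩⟩,⟨true,0,⟨0,[(24,0),(1,0)]⟩,⟨1,[(9,0),(5,0),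
  (7,0)]⟩⟩,⟨true,0,⟨0,[]⟩,⟨0,[(44,0)]⟩⟩,⟨false,1,⟨0,[(0,0),(39,0)]⟩,⟨3,[(3,3),(2,0),(4,0),(6,2),(4,
  1),(17,0)]⟩⟩,⟨false,1,⟨5,[(12,1),(6,3),(14,0),(7,4)]⟩,⟨0,[(40,0)]⟩⟩,⟨false,1,⟨0,[(0,0)]⟩,⟨0,[(5,
  0),(12,0)]⟩⟩,[.o ⟨false,1,⟨8,[(0,0),(9,2),(5,0),(11,4),(1,2),(3,3),(2,2)]⟩,⟨1,[(6,0),(4,0),(6,0),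
  (22,0)]⟩⟩,.o ⟨false,1,⟨0,[(0,0),(4,0)]⟩,⟨8,[(6,0),(4,0),(0,2),(14,1),(6,0),(3,1),(0,4)]⟩⟩,.a
  ⟨true,0,⟨1,[(23,0),(8,0),(0,0)]⟩,⟨0,[(24,0)]⟩⟩ ⟨true,0,⟨0,[(3,0)]⟩,⟨0,[(4,0),(33,0),(1,0)]⟩⟩
  ⟨false,1,⟨2,[(0,1),(2,1),(6,0),(13,0),(1,0),(10,0)]⟩,⟨3,[(6,0),(4,0),(6,2),(4,1),(17,0)]⟩⟩,.o
  ⟨false,0,⟨1,[(23,0),(2,0),(2,0)]⟩,⟨1,[(24,1),(9,0),(6,0)]⟩⟩]⟩) (.Q [0,1,0,1,-1,0,1,1,1,1,-1,-1]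
  (.p false [0,0,1] [1,0,0,-1] (⟨0,[(33,0)]⟩,⟨0,[(32,0)]⟩) .k 2 (⟨1,[(23,0),(8,0),(0,0)]⟩,⟨0,[(24,
  0)]⟩) .k (.r 0 ⟨0,[(3,0),(27,0)]⟩ ⟨3,[(4,1),(5,1),(8,1),(1,0),(7,1),(12,0)]⟩)) (.R ⟨1,false,false,
  false,[0,0,0,1],[1,-1,-1],[1,0,0,0,0,0,0,0,1],(⟨0,[(25,0)]⟩,⟨1,[(24,0),(8,0),(0,0)]⟩),(⟨0,[(18,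
  0)]⟩,⟨0,[(34,0),(2,0)]⟩),⟨0,[(2,0)]⟩,.k,.k,(.r (-1) ⟨1,[(11,0),(11,0),(8,0)]⟩ ⟨0,[(3,0)]⟩),(.r 0
  ⟨1,[(12,1),(10,0),(18,0)]⟩ ⟨0,[(5,0),(5,0)]⟩),.k,.k,⟨false,0,⟨0,[(4,0),(7,0),(29,0)]⟩,⟨0,[(5,0),
  (5,0)]⟩⟩,⟨true,0,⟨0,[(25,0),(1,0)]⟩,⟨1,[(10,0),(5,0),(7,0)]⟩⟩,⟨true,0,⟨0,[]⟩,⟨0,[(45,0)]⟩⟩,⟨true,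
  1,⟨5,[(11,1),(10,2),(2,5),(0,3),(0,1),(10,1),(4,0)]⟩,⟨0,[(0,0)]⟩⟩,⟨false,1,⟨5,[(13,1),(6,3),(14,
  0),(7,4)]⟩,⟨0,[(41,0)]⟩⟩,⟨true,1,⟨1,[(22,0),(2,1),(0,1),(16,0)]⟩,⟨0,[(1,0)]⟩⟩,[.o ⟨false,1,⟨5,
  [(11,1),(17,3),(1,1),(3,2),(2,1),(4,0)]⟩,⟨1,[(7,0),(4,0),(6,0),(22,0)]⟩⟩,.o ⟨false,1,⟨2,[(11,0),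
  (14,1),(0,0),(10,0),(4,1)]⟩,⟨8,[(7,0),(4,0),(0,2),(14,1),(6,0),(3,1),(0,4)]⟩⟩,.a ⟨true,0,⟨1,[(24,
  0),(8,0),(0,0)]⟩,⟨0,[(25,0)]⟩⟩ ⟨true,0,⟨0,[(4,0)]⟩,⟨0,[(5,0),(33,0),(1,0)]⟩⟩ ⟨false,1,⟨2,[(11,0),
  (13,2),(0,1),(0,0),(10,0),(4,1)]⟩,⟨5,[(0,1),(4,1),(7,1),(10,1),(17,0),(0,0)]⟩⟩,.o ⟨false,0,⟨1,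
  [(24,0),(2,0),(2,0)]⟩,⟨1,[(25,1),(9,0),(6,0)]⟩⟩]⟩) (.R ⟨1,true,false,true,[1,0,-1],[0,0,0,1],[0,1,
  0,-1,0,0,0,-1],(⟨0,[(33,0)]⟩,⟨0,[(34,0)]⟩),(⟨0,[(25,0)]⟩,⟨1,[(24,0),(8,0),(0,0)]⟩),⟨0,[(18,0)]⟩,
  .k,.k,.k,.k,(.r (-1) ⟨0,[(5,0),(5,0)]⟩ ⟨1,[(12,1),(10,0),(18,0)]⟩),.k,⟨false,1,⟨0,[(5,0),(5,0)]⟩,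
  ⟨0,[(4,0),(7,0),(29,0)]⟩⟩,⟨true,0,⟨1,[(10,0),(5,0),(7,0)]⟩,⟨0,[(25,0),(1,0)]⟩⟩,⟨false,0,⟨0,[(41,
  0)]⟩,⟨5,[(13,1),(6,3),(14,0),(7,4)]⟩⟩,⟨true,(-1),⟨0,[(1,0)]⟩,⟨0,[(0,0),(39,0)]⟩⟩,⟨true,0,⟨0,[(45,
  0)]⟩,⟨0,[]⟩⟩,⟨false,0,⟨5,[(1,4),(5,0),(6,0),(2,0),(1,1),(0,1),(21,0),(0,2)]⟩,⟨0,[(0,0)]⟩⟩,[]⟩))))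
  (.Q [0,0,0,0,0,1,0,0,0,0,0,-1] (.p false [0,0,0,1] [] (⟨0,[(22,0)]⟩,⟨1,[(21,0),(8,0),(0,0)]⟩) .k
  0 (⟨0,[]⟩,⟨0,[]⟩) .k .k) (.R ⟨0,false,false,true,[0,0,0,1],[0,1],[1,1,0,0,0,0,0,0,1],(⟨0,[(23,
  0)]⟩,⟨1,[(22,0),(8,0),(0,0)]⟩),(⟨0,[(35,0)]⟩,⟨0,[(34,0)]⟩),⟨0,[(0,0)]⟩,.k,.k,(.x 0 ⟨2,[(5,0),(19,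
  1),(2,0),(5,2)]⟩ ⟨3,[(20,0),(0,0),(13,3),(4,1)]⟩),(.x 0 ⟨2,[(5,0),(19,1),(2,0),(5,2)]⟩ ⟨3,[(20,0),
  (0,0),(13,3),(4,1)]⟩),.k,.k,⟨true,0,⟨0,[(1,0)]⟩,⟨1,[(3,1),(24,0),(0,0)]⟩⟩,⟨false,1,⟨0,[(23,0),(16,
  0)]⟩,⟨1,[(22,0),(2,0),(2,0)]⟩⟩,⟨false,0,⟨0,[]⟩,⟨3,[(20,0),(0,0),(19,1)]⟩⟩,⟨true,0,⟨0,[(3,0),(19,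
  0),(13,0)]⟩,⟨0,[(4,0)]⟩⟩,⟨false,0,⟨0,[]⟩,⟨0,[]⟩⟩,⟨false,0,⟨0,[]⟩,⟨0,[]⟩⟩,[.o ⟨false,0,⟨0,[(38,
  0)]⟩,⟨3,[(9,0),(20,0),(2,1),(2,1),(4,0)]⟩⟩,.o ⟨false,1,⟨11,[(11,3),(6,7),(1,2),(0,2),(11,1),(7,
  3)]⟩,⟨0,[(7,0)]⟩⟩,.a ⟨true,0,⟨1,[(22,0),(8,0),(0,0)]⟩,⟨0,[(23,0)]⟩⟩ ⟨false,0,⟨0,[(2,0)]⟩,⟨1,[(20,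
  0),(20,0)]⟩⟩ ⟨true,0,⟨0,[(23,0),(14,0)]⟩,⟨1,[(7,0),(14,0),(16,0)]⟩⟩,.o ⟨false,0,⟨1,[(22,0),(2,0),
  (2,0)]⟩,⟨1,[(23,1),(9,0),(6,0)]⟩⟩]⟩) (.Q [0,-1,0,-2,0,0,0,0,1,0,0,-1] (.p false [0,0,0,1] [] (⟨0,
  [(23,0)]⟩,⟨1,[(22,0),(8,0),(0,0)]⟩) .k 0 (⟨0,[]⟩,⟨0,[]⟩) .k .k) (.R ⟨1,true,false,true,[0,0,0,1],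
  [0,1],[1,1,0,0,0,0,0,0,1],(⟨0,[(24,0)]⟩,⟨1,[(23,0),(8,0),(0,0)]⟩),(⟨0,[(36,0)]⟩,⟨0,[(35,0)]⟩),⟨0,
  [(1,0)]⟩,.k,.k,(.x 0 ⟨2,[(6,0),(19,1),(2,0),(5,2)]⟩ ⟨3,[(21,0),(0,0),(13,3),(4,1)]⟩),(.x 0 ⟨2,[(6,
  0),(19,1),(2,0),(5,2)]⟩ ⟨3,[(21,0),(0,0),(13,3),(4,1)]⟩),(.r (-1) ⟨3,[(2,1),(7,2),(11,0),(8,2)]⟩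
  ⟨4,[(4,4),(4,0),(1,0),(1,0),(5,1),(9,0),(12,0)]⟩),.k,⟨true,0,⟨0,[(2,0)]⟩,⟨1,[(4,1),(24,0),(0,
  0)]⟩⟩,⟨false,1,⟨0,[(24,0),(16,0)]⟩,⟨1,[(23,0),(2,0),(2,0)]⟩⟩,⟨false,0,⟨0,[]⟩,⟨3,[(21,0),(0,0),(19,
  1)]⟩⟩,⟨true,0,⟨0,[(4,0),(19,0),(13,0)]⟩,⟨0,[(5,0)]⟩⟩,⟨true,0,⟨0,[(39,0)]⟩,⟨0,[(40,0)]⟩⟩,⟨false,1,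
  ⟨5,[(4,5),(7,1),(6,3),(4,5),(9,0),(6,2),(0,1)]⟩,⟨0,[(0,0)]⟩⟩,[]⟩) (.R ⟨1,false,false,true,[0,0,0,
  1],[0,1],[1,1,0,0,0,0,0,0,1],(⟨0,[(24,0)]⟩,⟨1,[(23,0),(8,0),(0,0)]⟩),(⟨0,[(36,0)]⟩,⟨0,[(35,0)]⟩),
  ⟨0,[(1,0)]⟩,.k,.k,(.x 0 ⟨2,[(6,0),(19,1),(2,0),(5,2)]⟩ ⟨3,[(21,0),(0,0),(13,3),(4,1)]⟩),(.x 0 ⟨2,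
  [(6,0),(19,1),(2,0),(5,2)]⟩ ⟨3,[(21,0),(0,0),(13,3),(4,1)]⟩),(.r (-1) ⟨3,[(2,1),(7,2),(11,0),(8,
  2)]⟩ ⟨4,[(4,4),(4,0),(1,0),(1,0),(5,1),(9,0),(12,0)]⟩),.k,⟨true,0,⟨0,[(2,0)]⟩,⟨1,[(4,1),(24,0),(0,
  0)]⟩⟩,⟨false,1,⟨0,[(24,0),(16,0)]⟩,⟨1,[(23,0),(2,0),(2,0)]⟩⟩,⟨false,0,⟨0,[]⟩,⟨3,[(21,0),(0,0),(19,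
  1)]⟩⟩,⟨true,0,⟨0,[(0,0),(39,0)]⟩,⟨0,[(5,0)]⟩⟩,⟨true,0,⟨0,[(39,0)]⟩,⟨0,[(40,0)]⟩⟩,⟨true,0,⟨0,[(0,
  0)]⟩,⟨0,[(5,0),(34,0)]⟩⟩,[.o ⟨false,0,⟨0,[(39,0)]⟩,⟨3,[(10,0),(20,0),(2,1),(2,1),(4,0)]⟩⟩,.o
  ⟨false,1,⟨3,[(0,1),(15,1),(4,0),(0,0)]⟩,⟨0,[(8,0)]⟩⟩,.a ⟨true,0,⟨1,[(23,0),(8,0),(0,0)]⟩,⟨0,[(24,
  0)]⟩⟩ ⟨false,0,⟨0,[(3,0)]⟩,⟨1,[(21,0),(20,0)]⟩⟩ ⟨true,0,⟨0,[(24,0),(14,0)]⟩,⟨1,[(8,0),(14,0),(16,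
  0)]⟩⟩,.o ⟨false,0,⟨1,[(23,0),(2,0),(2,0)]⟩,⟨1,[(24,1),(9,0),(6,0)]⟩⟩]⟩)))) (.R ⟨2,true,false,
  false,[0,1],[0,0,0,1],[1,1,1,1],(⟨0,[]⟩,⟨0,[]⟩),(⟨0,[(21,0)]⟩,⟨1,[(20,0),(8,0),(0,0)]⟩),⟨0,[]⟩,.k,
  .k,.k,(.r 0 ⟨0,[(0,0),(2,0),(3,0),(0,1),(5,0),(1,0),(13,0),(2,0),(1,0),(3,0)]⟩ ⟨1,[(7,0),(11,0),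
  (8,0)]⟩),.k,.k,⟨false,0,⟨0,[(0,0),(35,0)]⟩,⟨1,[(2,1),(18,1),(16,0),(0,0)]⟩⟩,⟨true,0,⟨1,[(20,0),(2,
  0),(2,0)]⟩,⟨0,[(21,0)]⟩⟩,⟨false,0,⟨0,[]⟩,⟨3,[(18,0),(0,0),(19,1)]⟩⟩,⟨true,0,⟨0,[(2,0)]⟩,⟨0,[(0,0),
  (20,0),(14,0)]⟩⟩,⟨true,0,⟨0,[(36,0)]⟩,⟨0,[(37,0)]⟩⟩,⟨false,1,⟨0,[(13,0)]⟩,⟨0,[(0,0),(20,0)]⟩⟩,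
  []⟩))))) (.Q [0,-1,0,-1,0,0,1,1,0,1,-1] (.p false [0,0,1] [1] (⟨0,[(26,0)]⟩,⟨0,[(25,0)]⟩) .k 1
  (⟨0,[]⟩,⟨0,[]⟩) .k .k) (.R ⟨2,true,false,true,[0,1],[1,1,-1],[1,1,1,1],(⟨0,[]⟩,⟨0,[]⟩),(⟨0,[(26,
  0),(3,0)]⟩,⟨0,[(1,0)]⟩),⟨0,[]⟩,.k,.k,.k,.k,.k,.k,⟨true,0,⟨0,[(25,0)]⟩,⟨0,[(3,0),(9,0),(17,0)]⟩⟩,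
  ⟨false,1,⟨0,[(20,0),(14,0)]⟩,⟨0,[(9,0)]⟩⟩,⟨false,0,⟨0,[]⟩,⟨3,[(15,0),(0,0),(19,1)]⟩⟩,⟨true,0,⟨0,
  [(19,0)]⟩,⟨2,[(0,0),(11,0),(1,0),(7,0)]⟩⟩,⟨true,0,⟨0,[(33,0)]⟩,⟨0,[(34,0)]⟩⟩,⟨false,1,⟨1,[(13,1),
  (14,0),(7,0)]⟩,⟨0,[(0,0)]⟩⟩,[]⟩) (.Q [0,0,0,-1,0,0,-1,-1,-1,-1,1,1] (.p true [0,0,1] [1,0,0,-1]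
  (⟨0,[(27,0)]⟩,⟨0,[(26,0)]⟩) .k 2 (⟨1,[(17,0),(8,0),(0,0)]⟩,⟨0,[(18,0)]⟩) .k (.x 0 ⟨0,[(3,0),(23,
  0)]⟩ ⟨1,[(24,1),(1,1),(1,0),(6,0)]⟩)) (.Q [0,0,0,0,0,0,-1,-1,-1,-1,1,1] (.p true [0,0,1] [1,0,0,
  -1] (⟨0,[(28,0)]⟩,⟨0,[(27,0)]⟩) .k 2 (⟨1,[(18,0),(8,0),(0,0)]⟩,⟨0,[(19,0)]⟩) .k (.x 0 ⟨0,[(4,0),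
  (23,0)]⟩ ⟨1,[(25,1),(1,1),(1,0),(6,0)]⟩)) (.R ⟨1,false,false,false,[1,0,0,-1],[0,0,1],[1,1,0,0,0,
  0,0,0,-1],(⟨1,[(19,0),(8,0),(0,0)]⟩,⟨0,[(20,0)]⟩),(⟨0,[(29,0)]⟩,⟨0,[(28,0)]⟩),⟨1,[(3,0),(9,0),(5,
  0)]⟩,.k,.k,(.x 0 ⟨1,[(3,0),(9,0),(8,0),(2,0)]⟩ ⟨3,[(17,0),(0,0),(13,3),(4,1)]⟩),.k,(.r (-1) ⟨13,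
  [(0,3),(4,1),(0,7),(4,1),(3,1),(1,4),(1,1),(5,1),(12,0)]⟩ ⟨1,[(7,1),(10,0),(18,0)]⟩),.k,⟨false,0,
  ⟨1,[(0,1),(4,0),(5,0),(7,0),(14,1)]⟩,⟨1,[(18,0),(8,1),(10,0)]⟩⟩,⟨true,0,⟨1,[(5,0),(5,0),(7,0)]⟩,
  ⟨0,[(20,0),(1,0)]⟩⟩,⟨false,0,⟨0,[]⟩,⟨3,[(17,0),(0,0),(19,1)]⟩⟩,⟨false,1,⟨1,[(16,0),(1,0),(0,0),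
  (18,0)]⟩,⟨0,[(0,0)]⟩⟩,⟨true,0,⟨0,[(35,0)]⟩,⟨0,[(36,0)]⟩⟩,⟨false,1,⟨0,[(12,0),(1,0)]⟩,⟨0,[(1,0)]⟩⟩,
  [.o ⟨false,0,⟨1,[(4,0),(3,0)]⟩,⟨1,[(24,1),(5,0),(7,0)]⟩⟩,.o ⟨false,1,⟨7,[(16,3),(0,0),(0,0),(11,
  1),(7,3)]⟩,⟨0,[(21,0)]⟩⟩,.a ⟨true,0,⟨0,[(20,0)]⟩,⟨1,[(19,0),(8,0),(0,0)]⟩⟩ ⟨false,0,⟨1,[(0,1),(15,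
  0),(2,0)]⟩,⟨1,[(18,0),(19,0)]⟩⟩ ⟨true,0,⟨1,[(16,0),(2,0)]⟩,⟨0,[(20,0),(0,0)]⟩⟩,.o ⟨false,0,⟨5,[(0,
  1),(3,1),(2,1),(10,0),(1,3),(4,1),(4,0)]⟩,⟨7,[(17,0),(0,0),(0,3),(10,1),(6,3)]⟩⟩]⟩) (.R ⟨1,true,
  false,false,[1,0,-1],[0,0,0,1],[0,1,0,-1,0,0,0,-1],(⟨0,[(28,0)]⟩,⟨0,[(29,0)]⟩),(⟨0,[(20,0)]⟩,⟨1,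
  [(19,0),(8,0),(0,0)]⟩),⟨0,[(13,0)]⟩,.k,.k,.k,.k,(.r (-1) ⟨7,[(1,1),(3,2),(0,3),(4,0),(3,1),(1,2),
  (1,0),(18,0)]⟩ ⟨1,[(7,1),(10,0),(18,0)]⟩),.k,⟨false,0,⟨1,[(1,1),(3,0),(5,0),(7,0),(14,1)]⟩,⟨1,[(7,
  1),(10,0),(18,1),(0,0)]⟩⟩,⟨true,0,⟨1,[(5,0),(5,0),(7,0)]⟩,⟨0,[(20,0),(1,0)]⟩⟩,⟨false,0,⟨0,[(36,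
  0)]⟩,⟨5,[(8,1),(6,3),(14,0),(7,4)]⟩⟩,⟨true,0,⟨0,[(0,0)]⟩,⟨0,[(1,0),(33,0)]⟩⟩,⟨true,0,⟨0,[(40,0)]⟩,
  ⟨0,[]⟩⟩,⟨false,1,⟨0,[(12,0),(1,0)]⟩,⟨0,[(1,0)]⟩⟩,[]⟩)) (.Q [0,0,0,0,0,0,-1,-1,1,0,1,-1] (.p true
  [0,0,1] [0,0,0,1] (⟨0,[(28,0)]⟩,⟨0,[(27,0)]⟩) .k 2 (⟨0,[(19,0)]⟩,⟨1,[(18,0),(8,0),(0,0)]⟩) .k (.x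
  0 ⟨0,[(4,0),(23,0)]⟩ ⟨1,[(25,1),(1,1),(1,0),(6,0)]⟩)) (.R ⟨1,false,false,true,[1,0,0,-1],[1,-1,
  -1],[1,0,0,0,0,0,0,0,-1],(⟨1,[(19,0),(8,0),(0,0)]⟩,⟨0,[(20,0)]⟩),(⟨0,[(13,0)]⟩,⟨0,[(29,0),(2,
  0)]⟩),⟨1,[(3,0),(9,0),(5,0)]⟩,.k,.k,(.r (-1) ⟨1,[(6,0),(10,0),(9,0)]⟩ ⟨15,[(0,7),(0,1),(0,1),(2,
  7),(1,3),(1,3),(8,2),(1,9),(17,0)]⟩),(.r 0 ⟨1,[(7,1),(9,0),(19,0)]⟩ ⟨13,[(0,3),(4,3),(0,7),(8,1),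
  (2,4),(1,3),(4,1),(12,0)]⟩),.k,.k,⟨false,1,⟨1,[(7,1),(9,0),(19,1),(0,0)]⟩,⟨0,[(0,0),(4,0),(14,0),
  (13,0),(1,0)]⟩⟩,⟨true,0,⟨1,[(19,0),(2,0),(3,0)]⟩,⟨0,[(5,0),(14,0)]⟩⟩,⟨true,0,⟨0,[]⟩,⟨0,[(40,0)]⟩⟩,
  ⟨false,0,⟨0,[(0,0),(35,0)]⟩,⟨1,[(5,1),(1,1),(9,0),(2,1),(16,1),(0,0)]⟩⟩,⟨false,1,⟨5,[(8,1),(6,3),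
  (14,0),(7,4)]⟩,⟨0,[(36,0)]⟩⟩,⟨false,0,⟨0,[(0,0)]⟩,⟨1,[(4,0),(3,0),(8,0),(2,1),(17,0)]⟩⟩,[.o
  ⟨false,0,⟨0,[(21,0),(14,0)]⟩,⟨2,[(8,1),(6,0),(14,0),(7,1)]⟩⟩,.o ⟨false,1,⟨5,[(6,1),(17,3),(1,1),
  (3,2),(2,1),(4,0)]⟩,⟨0,[(5,0),(1,0),(29,0)]⟩⟩,.a ⟨true,0,⟨0,[(20,0)]⟩,⟨1,[(19,0),(8,0),(0,0)]⟩⟩
  ⟨false,1,⟨1,[(17,0),(20,0)]⟩,⟨1,[(0,0),(0,0),(2,0),(15,1)]⟩⟩ ⟨true,0,⟨1,[(19,0),(1,0),(2,0),(11,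
  1)]⟩,⟨0,[(5,0),(1,0),(12,0),(16,0)]⟩⟩,.o ⟨false,0,⟨3,[(2,0),(1,0),(2,0),(12,3),(4,0),(4,0),(2,
  0)]⟩,⟨7,[(17,0),(0,0),(0,3),(10,1),(6,3)]⟩⟩]⟩) (.I [0,-1,-1,-1,1,0,0,-1,-1] (.R ⟨1,false,false,
  true,[1,0,0,-1],[0,0,1],[0,0,0,-1,0,0,0,0,-1],(⟨1,[(20,0),(8,0),(0,0)]⟩,⟨0,[(21,0)]⟩),(⟨0,[(30,
  0)]⟩,⟨0,[(29,0)]⟩),⟨1,[(4,0),(9,0),(5,0)]⟩,.k,.k,(.r (-1) ⟨1,[(7,0),(10,0),(9,0)]⟩ ⟨0,[(2,0),(0,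
  0),(17,0),(12,0)]⟩),.k,(.r (-1) ⟨2,[(0,0),(5,0),(0,0),(10,0),(6,0)]⟩ ⟨1,[(8,1),(10,0),(18,0)]⟩),
  .k,⟨false,1,⟨0,[(0,0)]⟩,⟨2,[(2,0),(0,0),(4,0),(10,0),(1,0),(6,1),(6,1)]⟩⟩,⟨true,0,⟨1,[(6,0),(5,0),
  (7,0)]⟩,⟨0,[(21,0),(1,0)]⟩⟩,⟨true,0,⟨0,[(37,0)]⟩,⟨0,[(36,0)]⟩⟩,⟨false,0,⟨0,[(2,0),(34,0)]⟩,⟨2,[(0,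
  2),(2,1),(4,0),(12,2),(1,0),(4,0),(10,0)]⟩⟩,⟨false,1,⟨3,[(18,0),(0,0),(19,1)]⟩,⟨0,[]⟩⟩,⟨false,0,
  ⟨0,[(2,0)]⟩,⟨0,[(0,0),(20,0),(1,0)]⟩⟩,[.o ⟨false,0,⟨0,[(24,0)]⟩,⟨0,[(22,0),(16,0)]⟩⟩,.o ⟨false,0,
  ⟨1,[(5,0),(3,0)]⟩,⟨5,[(0,1),(15,1),(2,0),(2,1),(4,1),(3,1),(7,0)]⟩⟩,.a ⟨true,0,⟨0,[(21,0)]⟩,⟨1,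
  [(20,0),(8,0),(0,0)]⟩⟩ ⟨true,0,⟨0,[(0,0),(7,0),(26,0),(1,0)]⟩,⟨0,[(2,0),(18,0),(0,0)]⟩⟩ ⟨false,0,
  ⟨1,[(17,0),(2,0)]⟩,⟨0,[(21,0),(0,0),(16,0)]⟩⟩,.o ⟨false,0,⟨3,[(3,0),(1,0),(2,0),(12,3),(4,0),(4,
  0),(2,0)]⟩,⟨7,[(18,0),(0,0),(0,3),(10,1),(6,3)]⟩⟩]⟩) (.Q [0,0,0,-1,0,0,-1,-1,1,0,1,-1] (.p true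
  [0,0,1] [0,0,0,1] (⟨0,[(30,0)]⟩,⟨0,[(29,0)]⟩) .k 2 (⟨0,[(21,0)]⟩,⟨1,[(20,0),(8,0),(0,0)]⟩) .k (.x
  0 ⟨0,[(6,0),(23,0)]⟩ ⟨1,[(27,1),(1,1),(1,0),(6,0)]⟩)) (.R ⟨1,true,false,false,[1,0,-1],[1,0,0,-1],
  [0,1,0,-1,0,0,0,-1],(⟨0,[(30,0)]⟩,⟨0,[(31,0)]⟩),(⟨1,[(21,0),(8,0),(0,0)]⟩,⟨0,[(22,0)]⟩),⟨0,[(15,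
  0)]⟩,.k,.k,.k,.k,(.r (-1) ⟨7,[(0,1),(6,3),(0,3),(8,1),(2,2),(1,1),(17,0)]⟩ ⟨1,[(9,1),(9,0),(19,
  0)]⟩),.k,⟨false,0,⟨0,[(0,0),(6,0),(14,0),(13,0)]⟩,⟨1,[(9,1),(9,0),(19,1),(0,0)]⟩⟩,⟨true,0,⟨0,[(7,
  0),(14,0)]⟩,⟨1,[(21,0),(2,0),(3,0)]⟩⟩,⟨false,0,⟨0,[(38,0)]⟩,⟨5,[(10,1),(6,3),(14,0),(7,4)]⟩⟩,
  ⟨true,0,⟨0,[(2,0)]⟩,⟨0,[(0,0),(36,0)]⟩⟩,⟨true,0,⟨0,[(42,0)]⟩,⟨0,[]⟩⟩,⟨false,1,⟨5,[(2,5),(7,1),(6,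
  3),(14,0),(7,4)]⟩,⟨0,[(0,0)]⟩⟩,[]⟩) (.I [1,1,1,1,-1,0,0,1,-1] (.Q [0,0,0,0,0,1,0,0,0,0,0,-1] (.p
  false [0,0,0,1] [] (⟨0,[(23,0)]⟩,⟨1,[(22,0),(8,0),(0,0)]⟩) .k 0 (⟨0,[]⟩,⟨0,[]⟩) .k .k) (.R ⟨0,
  false,false,true,[0,0,0,1],[0,1,1],[1,1,1,1,0,0,0,1],(⟨0,[(24,0)]⟩,⟨1,[(23,0),(8,0),(0,0)]⟩),(⟨0,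
  [(33,0),(2,0)]⟩,⟨0,[(17,0)]⟩),⟨0,[(0,0)]⟩,.k,.k,(.r (-1) ⟨1,[(10,0),(11,0),(8,0)]⟩ ⟨5,[(1,3),(7,
  3),(9,3),(1,0),(15,1),(4,2)]⟩),(.r (-1) ⟨5,[(3,3),(5,3),(0,5),(8,3),(2,0),(14,1),(4,2)]⟩ ⟨3,[(1,
  1),(11,0),(7,0),(9,0),(10,0)]⟩),.k,.k,⟨true,0,⟨0,[]⟩,⟨1,[(29,0),(0,0)]⟩⟩,⟨false,1,⟨0,[(9,0),(14,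
  0),(16,0)]⟩,⟨1,[(23,0),(2,0),(3,0)]⟩⟩,⟨true,(-1),⟨0,[(1,0)]⟩,⟨5,[(3,3),(5,3),(0,5),(8,3),(2,0),
  (14,1),(4,2)]⟩⟩,⟨false,0,⟨0,[(2,0)]⟩,⟨1,[(3,1),(2,0),(3,1),(8,0),(3,0),(13,1),(4,1)]⟩⟩,⟨false,0,
  ⟨0,[]⟩,⟨0,[]⟩⟩,⟨false,0,⟨0,[]⟩,⟨0,[]⟩⟩,[.o ⟨false,0,⟨1,[(6,0),(5,0),(14,0)]⟩,⟨2,[(10,0),(14,1),(0,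
  0),(10,0),(4,1)]⟩⟩,.o ⟨false,0,⟨1,[(1,0),(1,0),(5,1),(31,0),(0,0)]⟩,⟨5,[(10,1),(17,3),(1,1),(3,2),
  (2,1),(4,0)]⟩⟩,.a ⟨true,0,⟨1,[(23,0),(8,0),(0,0)]⟩,⟨0,[(24,0)]⟩⟩ ⟨true,(-1),⟨1,[(1,0),(1,0)]⟩,⟨11,
  [(10,7),(8,3),(1,0),(0,0),(6,3),(12,1)]⟩⟩ ⟨false,0,⟨3,[(2,1),(0,1),(5,1),(14,1),(16,0),(0,0)]⟩,⟨5,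
  [(10,1),(12,2),(1,2),(2,0),(1,1),(6,1),(4,3)]⟩⟩,.o ⟨false,0,⟨1,[(23,0),(2,0),(2,0)]⟩,⟨1,[(24,1),
  (9,0),(6,0)]⟩⟩]⟩) (.I [0,0,-2,-2,1,0,0,-1,1] (.Q [0,0,0,-2,0,0,0,0,-1,-1,0,1] (.p true [0,0,0,1]
  [1] (⟨0,[(25,0)]⟩,⟨1,[(24,0),(8,0),(0,0)]⟩) .k 1 (⟨0,[]⟩,⟨0,[]⟩) .k .k) (.Q [0,-1,0,0,1,0,-1,-1,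
  -1,-1,1,1] (.p true [0,0,1] [1,0,0,-1] (⟨0,[(35,0)]⟩,⟨0,[(34,0)]⟩) .k 2 (⟨1,[(25,0),(8,0),(0,0)]⟩,
  ⟨0,[(26,0)]⟩) .k (.r 0 ⟨2,[(1,0),(3,1),(27,1),(10,0)]⟩ ⟨3,[(11,1),(0,0),(8,2),(1,1),(7,0),(7,0),
  (4,0)]⟩)) (.R ⟨1,false,false,false,[0,0,0,1],[1,-1,-1],[0,0,0,-1,0,0,0,0,1],(⟨0,[(27,0)]⟩,⟨1,[(26,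
  0),(8,0),(0,0)]⟩),(⟨0,[(20,0)]⟩,⟨0,[(36,0),(2,0)]⟩),⟨0,[(3,0)]⟩,.k,.k,(.r (-1) ⟨7,[(2,3),(21,0),
  (0,2),(8,3)]⟩ ⟨7,[(0,3),(3,1),(0,1),(6,0),(1,1),(3,0),(3,1),(3,2),(5,1)]⟩),(.r 0 ⟨3,[(6,1),(9,0),
  (8,0),(8,0),(10,0)]⟩ ⟨8,[(0,2),(0,0),(2,0),(7,2),(0,4),(4,1),(3,1),(1,1),(1,1)]⟩),.k,.k,⟨false,0,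
  ⟨2,[(2,0),(3,1),(27,1),(10,0)]⟩,⟨1,[(0,0),(4,0),(6,0),(0,0),(8,0),(3,0)]⟩⟩,⟨true,0,⟨0,[(27,0),(1,
  0)]⟩,⟨1,[(12,0),(5,0),(7,0)]⟩⟩,⟨true,0,⟨0,[(43,0)]⟩,⟨0,[(42,0)]⟩⟩,⟨false,1,⟨4,[(0,3),(0,0),(11,0),
  (19,0),(6,0)]⟩,⟨0,[(8,0)]⟩⟩,⟨false,1,⟨3,[(24,0),(0,0),(19,1)]⟩,⟨0,[]⟩⟩,⟨false,1,⟨0,[(0,0)]⟩,⟨3,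
  [(2,0),(3,0),(1,1),(14,0),(2,0),(13,0)]⟩⟩,[.o ⟨false,1,⟨17,[(0,1),(1,5),(16,1),(4,2),(3,5),(2,3),
  (1,5),(3,4),(2,5)]⟩,⟨1,[(4,0),(1,0),(5,1),(31,0),(0,0)]⟩⟩,.o ⟨false,1,⟨6,[(0,1),(1,1),(8,0),(14,
  0),(1,2),(0,1),(10,1),(4,2)]⟩,⟨1,[(9,0),(5,0),(14,0)]⟩⟩,.a ⟨true,0,⟨1,[(26,0),(8,0),(0,0)]⟩,⟨0,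
  [(27,0)]⟩⟩ ⟨true,0,⟨1,[(2,0),(3,0),(33,0)]⟩,⟨7,[(4,1),(0,1),(3,0),(2,1),(9,2),(1,1),(1,0),(14,
  1)]⟩⟩ ⟨false,1,⟨1,[(0,1),(1,0),(3,0),(33,0)]⟩,⟨1,[(5,0),(2,0),(17,0)]⟩⟩,.o ⟨false,0,⟨1,[(26,0),(2,
  0),(2,0)]⟩,⟨1,[(27,1),(9,0),(6,0)]⟩⟩]⟩) (.R ⟨1,true,false,true,[1,0,-1],[0,0,0,1],[1,1,0,0,0,0,0,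
  -1],(⟨0,[(35,0)]⟩,⟨0,[(36,0)]⟩),(⟨0,[(27,0)]⟩,⟨1,[(26,0),(8,0),(0,0)]⟩),⟨0,[(20,0)]⟩,.k,.k,.k,.k,
  (.r (-1) ⟨7,[(1,3),(3,1),(6,2),(0,3),(4,0),(3,5),(1,0),(1,2),(18,2)]⟩ ⟨3,[(6,1),(9,0),(8,0),(8,0),
  (10,0)]⟩),.k,⟨false,1,⟨0,[(4,0),(7,0),(0,0),(8,0),(22,0)]⟩,⟨2,[(2,0),(3,1),(27,1),(10,0)]⟩⟩,⟨true,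
  0,⟨1,[(12,0),(5,0),(7,0)]⟩,⟨0,[(27,0),(1,0)]⟩⟩,⟨false,0,⟨0,[]⟩,⟨3,[(24,0),(0,0),(19,1)]⟩⟩,⟨true,
  (-1),⟨0,[(0,0)]⟩,⟨3,[(1,1),(20,3),(1,0),(2,1),(9,0),(7,1)]⟩⟩,⟨true,0,⟨0,[(42,0)]⟩,⟨0,[(43,0)]⟩⟩,
  ⟨false,0,⟨0,[(8,0)]⟩,⟨0,[(1,0),(20,0),(22,0)]⟩⟩,[]⟩)) (.R ⟨1,false,false,false,[0,0,0,1],[1,-1],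
  [1,1,0,0,0,0,0,0,1],(⟨0,[(26,0)]⟩,⟨1,[(25,0),(8,0),(0,0)]⟩),(⟨0,[(37,0)]⟩,⟨0,[(38,0)]⟩),⟨0,[(2,
  0)]⟩,.k,.k,(.r (-1) ⟨7,[(1,3),(21,0),(0,2),(8,3)]⟩ ⟨5,[(3,3),(7,3),(9,3),(1,0),(15,1),(4,2)]⟩),
  (.r 0 ⟨5,[(0,1),(4,1),(2,1),(15,0),(1,1),(4,1),(7,1),(4,0)]⟩ ⟨1,[(12,0),(10,0),(9,0)]⟩),.k,.k,
  ⟨false,0,⟨5,[(0,0),(0,0),(3,1),(2,0),(2,0),(12,0),(1,0),(14,2)]⟩,⟨0,[(3,0),(8,0),(31,0)]⟩⟩,⟨true,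
  0,⟨3,[(8,0),(1,0),(2,0),(12,3),(4,0),(4,0),(2,0)]⟩,⟨1,[(25,0),(8,0),(0,0)]⟩⟩,⟨false,0,⟨0,[]⟩,⟨3,
  [(23,0),(0,0),(19,1)]⟩⟩,⟨false,1,⟨1,[(10,1),(12,0),(2,1),(17,0)]⟩,⟨5,[(0,3),(0,0),(3,0),(19,0),(8,
  0),(0,0),(3,0)]⟩⟩,⟨true,0,⟨0,[(41,0)]⟩,⟨0,[(42,0)]⟩⟩,⟨false,1,⟨0,[(6,0),(20,0),(16,0)]⟩,⟨2,[(0,0),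
  (0,0),(3,0),(19,0),(8,0),(0,0),(3,0)]⟩⟩,[.o ⟨false,0,⟨0,[(10,0)]⟩,⟨7,[(0,1),(3,1),(16,1),(1,2),(0,
  2),(11,0),(7,0)]⟩⟩,.o ⟨false,1,⟨3,[(12,0),(20,0),(2,1),(2,1),(4,0)]⟩,⟨0,[(41,0)]⟩⟩,.a ⟨true,0,⟨1,
  [(25,0),(8,0),(0,0)]⟩,⟨0,[(26,0)]⟩⟩ ⟨false,0,⟨3,[(0,1),(0,0),(3,0),(4,1),(15,1),(12,0)]⟩,⟨1,[(23,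
  0),(20,0)]⟩⟩ ⟨true,0,⟨0,[(10,0),(15,0)]⟩,⟨1,[(21,1),(0,0),(2,0)]⟩⟩,.o ⟨false,0,⟨1,[(25,0),(2,0),
  (2,0)]⟩,⟨1,[(26,1),(9,0),(6,0)]⟩⟩]⟩)) (.R ⟨1,false,false,false,[0,0,0,1],[0,1,1],[1,0,0,0,0,0,0,0,
  1],(⟨0,[(25,0)]⟩,⟨1,[(24,0),(8,0),(0,0)]⟩),(⟨0,[(34,0),(2,0)]⟩,⟨0,[(18,0)]⟩),⟨0,[(1,0)]⟩,.k,.k,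
  (.r (-1) ⟨1,[(11,0),(11,0),(8,0)]⟩ ⟨9,[(0,3),(9,3),(9,3),(1,2),(15,1),(4,0)]⟩),(.r (-1) ⟨5,[(4,3),
  (5,3),(0,5),(8,3),(2,0),(14,1),(4,2)]⟩ ⟨5,[(0,1),(13,0),(7,1),(9,2)]⟩),(.x 0 ⟨1,[(8,0),(9,2),(8,
  2),(2,0)]⟩ ⟨0,[(10,0),(23,0),(2,1),(4,0)]⟩),.k,⟨true,1,⟨5,[(4,3),(5,3),(0,5),(8,3),(2,0),(14,1),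
  (4,2)]⟩,⟨0,[(0,0),(0,1),(7,0),(14,0),(12,1)]⟩⟩,⟨false,1,⟨0,[(10,0),(14,0),(16,0)]⟩,⟨1,[(24,0),(2,
  0),(3,0)]⟩⟩,⟨true,0,⟨0,[]⟩,⟨0,[(45,0)]⟩⟩,⟨true,0,⟨0,[(3,0)]⟩,⟨1,[(4,1),(2,0),(3,1),(8,0),(3,0),
  (13,1)]⟩⟩,⟨false,1,⟨5,[(13,1),(6,3),(14,0),(7,4)]⟩,⟨0,[(41,0)]⟩⟩,⟨true,0,⟨0,[(0,0),(9,0),(14,0),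
  (16,0)]⟩,⟨1,[(4,1),(6,1),(12,0),(1,0),(2,0),(8,1)]⟩⟩,[.o ⟨false,0,⟨7,[(0,1),(2,1),(0,1),(1,1),(2,
  1),(0,3),(31,2),(0,0)]⟩,⟨5,[(11,1),(17,3),(1,1),(3,2),(2,1),(4,0)]⟩⟩,.o ⟨false,1,⟨2,[(13,1),(6,0),
  (14,0),(7,1)]⟩,⟨0,[(26,0),(14,0)]⟩⟩,.a ⟨true,0,⟨1,[(24,0),(8,0),(0,0)]⟩,⟨0,[(25,0)]⟩⟩ ⟨false,1,⟨1,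
  [(23,0),(19,0)]⟩,⟨0,[(0,0),(10,0)]⟩⟩ ⟨true,0,⟨3,[(3,1),(0,1),(5,1),(14,1),(16,0),(0,0)]⟩,⟨1,[(24,
  0),(1,0),(2,0),(11,1)]⟩⟩,.o ⟨false,0,⟨1,[(24,0),(2,0),(2,0)]⟩,⟨1,[(25,1),(9,0),(6,0)]⟩⟩]⟩))) (.R
  ⟨1,false,false,false,[1,0,0,-1],[1,-1,-1],[1,1,0,0,0,0,0,0,-1],(⟨1,[(22,0),(8,0),(0,0)]⟩,⟨0,[(23,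
  0)]⟩),(⟨0,[(16,0)]⟩,⟨0,[(32,0),(2,0)]⟩),⟨1,[(6,0),(9,0),(5,0)]⟩,.k,.k,(.r (-1) ⟨1,[(9,0),(10,0),
  (9,0)]⟩ ⟨2,[(0,1),(1,0),(5,0),(1,0),(1,0),(5,0)]⟩),(.r 0 ⟨1,[(10,1),(9,0),(19,0)]⟩ ⟨2,[(0,0),(7,
  0),(0,0),(11,0),(5,0)]⟩),.k,.k,⟨false,0,⟨5,[(1,1),(3,0),(4,1),(7,0),(1,1),(1,0),(7,3),(6,3)]⟩,⟨0,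
  [(0,0)]⟩⟩,⟨true,0,⟨1,[(22,0),(2,0),(3,0)]⟩,⟨0,[(8,0),(14,0)]⟩⟩,⟨false,0,⟨0,[]⟩,⟨3,[(20,0),(0,0),
  (19,1)]⟩⟩,⟨false,1,⟨1,[(0,1),(21,0),(2,0),(3,0)]⟩,⟨0,[(1,0)]⟩⟩,⟨true,0,⟨0,[(38,0)]⟩,⟨0,[(39,0)]⟩⟩,
  ⟨false,1,⟨3,[(0,2),(1,0),(15,1),(3,1),(2,1),(15,1)]⟩,⟨0,[(3,0)]⟩⟩,[.o ⟨false,1,⟨7,[(0,1),(8,1),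
  (10,0),(3,1),(2,1),(1,3),(3,2),(2,1)]⟩,⟨0,[(8,0),(1,0),(29,0)]⟩⟩,.o ⟨false,1,⟨2,[(9,0),(14,1),(0,
  0),(10,0),(4,1)]⟩,⟨1,[(5,0),(5,0),(14,0)]⟩⟩,.a ⟨true,0,⟨0,[(23,0)]⟩,⟨1,[(22,0),(8,0),(0,0)]⟩⟩
  ⟨true,0,⟨1,[(3,1),(18,0),(1,0),(2,0)]⟩,⟨1,[(0,0),(1,0)]⟩⟩ ⟨false,1,⟨5,[(9,1),(12,2),(1,2),(2,0),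
  (1,1),(6,1),(4,3)]⟩,⟨1,[(0,0),(0,1),(0,0)]⟩⟩,.o ⟨false,0,⟨3,[(5,0),(1,0),(2,0),(12,3),(4,0),(4,0),
  (2,0)]⟩,⟨7,[(20,0),(0,0),(0,3),(10,1),(6,3)]⟩⟩]⟩))))))))))

theorem ok14 : chk (cU (-1) false 3) t14 l14 = true := by decide +kernel

noncomputable def t15 : Tre :=
  (.I [0,0,-2,0,1,2,1] (.Q [0,0,0,0,0,0,-1,0,0,0,1] (.p true [0,0,1] [] (⟨0,[(24,0)]⟩,⟨0,[(23,0)]⟩)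
  .k 0 (⟨0,[]⟩,⟨0,[]⟩) .k .k) (.K ⟨0,[1,-1,-1],0,0,(⟨0,[(9,0)]⟩,⟨0,[(25,0),(2,0)]⟩),.k,(.x 0 ⟨1,[(3,
  0),(5,1),(7,0),(0,0),(7,0),(0,1),(1,0)]⟩ ⟨0,[(1,0)]⟩),.k,.k,.k,[⟨0,[(7,0)]⟩,⟨0,[(0,0)]⟩,⟨0,[(11,
  0),(0,0)]⟩,⟨0,[(17,0),(14,0)]⟩]⟩) (.Q [0,0,0,1,0,0,0,0,0,1] (.pp false [-1,1]) (.R ⟨1,false,false,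
  true,[1,0,-1],[0,1],[1,1,0,0,0,0,0,-1],(⟨0,[(25,0)]⟩,⟨0,[(26,0)]⟩),(⟨0,[(29,0)]⟩,⟨0,[(28,0)]⟩),⟨0,
  [(10,0)]⟩,.k,.k,.k,.k,(.x 0 ⟨1,[(4,0),(5,1),(7,0),(0,0),(7,0),(0,1),(1,0)]⟩ ⟨0,[(2,0)]⟩),.k,⟨true,
  1,⟨1,[(8,1),(9,1),(14,1),(0,0),(0,0)]⟩,⟨0,[(4,0)]⟩⟩,⟨false,1,⟨0,[(8,0),(25,0)]⟩,⟨0,[(19,0)]⟩⟩,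
  ⟨false,0,⟨0,[]⟩,⟨3,[(14,0),(0,0),(19,1)]⟩⟩,⟨false,0,⟨0,[(11,0)]⟩,⟨0,[(18,0),(14,0),(1,0)]⟩⟩,⟨true,
  0,⟨0,[(32,0)]⟩,⟨0,[(33,0)]⟩⟩,⟨false,0,⟨3,[(0,2),(0,1),(1,1),(1,0),(28,1)]⟩,⟨0,[(18,0),(14,1),(1,
  0)]⟩⟩,[.o ⟨false,0,⟨0,[(32,0)]⟩,⟨1,[(27,0),(5,1),(1,0)]⟩⟩,.a ⟨true,0,⟨0,[(0,0)]⟩,⟨0,[(33,0)]⟩⟩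
  ⟨false,1,⟨1,[(8,1),(9,1),(15,0),(0,0)]⟩,⟨0,[(24,0)]⟩⟩ ⟨true,0,⟨0,[(0,0),(0,0)]⟩,⟨0,[(19,0),(13,
  0)]⟩⟩,.o ⟨false,1,⟨1,[(23,1),(3,0),(6,0)]⟩,⟨0,[(1,0)]⟩⟩,.o ⟨false,0,⟨0,[(19,0)]⟩,⟨1,[(8,1),(18,0),
  (6,0)]⟩⟩]⟩) (.Q [0,0,0,0,0,1,0,0,0,0,-1] (.ed true [1,-1,1] .k) (.Q [0,0,0,0,0,0,-1,0,0,1,1] (.p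
  true [1,-1,1] [] (⟨0,[(27,0),(1,0)]⟩,⟨0,[(0,0)]⟩) .k 0 (⟨0,[]⟩,⟨0,[]⟩) .k .k) (.K ⟨0,[1,-1,1],0,0,
  (⟨0,[(28,0),(1,0)]⟩,⟨0,[(1,0)]⟩),.k,(.r (-1) ⟨0,[(26,0),(8,1),(0,0)]⟩ ⟨1,[(3,1),(1,0),(8,2),(9,0),
  (7,0),(4,0)]⟩),.k,.k,.k,[⟨0,[(0,0)]⟩,⟨0,[(3,0)]⟩,⟨1,[(0,0),(9,0),(3,1)]⟩,⟨0,[(2,0),(19,0)]⟩]⟩)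
  (.I [0,0,-1,-1,0,0,0,0,1] (.Q [0,0,0,0,0,1,0,0,0,0,0,-1] (.p false [0,0,0,1] [] (⟨0,[(20,0)]⟩,⟨1,
  [(19,0),(8,0),(0,0)]⟩) .k 0 (⟨0,[]⟩,⟨0,[]⟩) .k .k) (.R ⟨0,false,false,false,[0,0,0,1],[1,-1],[0,0,
  -1,-1],(⟨0,[(21,0)]⟩,⟨1,[(20,0),(8,0),(0,0)]⟩),(⟨0,[(32,0)]⟩,⟨0,[(33,0)]⟩),⟨0,[(0,0)]⟩,.k,.k,(.r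
  0 ⟨0,[(1,0)]⟩ ⟨5,[(10,1),(5,1),(1,3),(0,0),(6,1),(12,0)]⟩),(.r 0 ⟨3,[(1,1),(5,1),(8,1),(2,0),(6,
  1),(12,0)]⟩ ⟨0,[(1,0),(16,0)]⟩),.k,.k,⟨false,1,⟨3,[(18,0),(0,0),(18,1)]⟩,⟨0,[]⟩⟩,⟨true,0,⟨2,[(2,
  0),(18,2),(1,1),(2,0)]⟩,⟨1,[(20,0),(8,0),(0,0)]⟩⟩,⟨true,1,⟨0,[(1,0),(16,0)]⟩,⟨1,[(1,1),(0,0),(5,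
  1),(3,0),(3,1)]⟩⟩,⟨false,1,⟨1,[(4,1),(13,0),(2,1),(17,0)]⟩,⟨13,[(1,11),(0,0),(4,5),(4,4),(0,1),(1,
  3),(0,9),(3,5),(18,3)]⟩⟩,⟨false,0,⟨0,[]⟩,⟨0,[]⟩⟩,⟨false,0,⟨0,[]⟩,⟨0,[]⟩⟩,[.o ⟨false,0,⟨0,[(4,0)]⟩,
  ⟨11,[(9,3),(6,7),(1,2),(0,2),(11,1),(7,3)]⟩⟩,.o ⟨false,1,⟨3,[(1,1),(16,0),(12,1),(2,1),(4,0)]⟩,⟨0,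
  [(36,0)]⟩⟩,.a ⟨true,0,⟨1,[(20,0),(8,0),(0,0)]⟩,⟨0,[(21,0)]⟩⟩ ⟨false,1,⟨1,[(1,1),(16,0),(20,0)]⟩,
  ⟨5,[(7,0),(2,0),(5,1),(9,1),(12,0)]⟩⟩ ⟨true,0,⟨0,[(4,0),(16,0)]⟩,⟨1,[(16,1),(0,0),(2,0)]⟩⟩,.o
  ⟨false,0,⟨1,[(20,0),(2,0),(2,0)]⟩,⟨1,[(21,1),(9,0),(6,0)]⟩⟩]⟩) (.Q [0,0,0,-1,0,0,-1,-1,1,0,1,-1]
  (.p true [0,0,1] [0,0,0,1] (⟨0,[(30,0)]⟩,⟨0,[(29,0)]⟩) .k 2 (⟨0,[(21,0)]⟩,⟨1,[(20,0),(8,0),(0,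
  0)]⟩) .k (.x 0 ⟨1,[(2,0),(9,0),(17,1)]⟩ ⟨1,[(27,1),(1,1),(1,0),(6,0)]⟩)) (.R ⟨1,false,false,false,
  [0,0,0,1],[0,1,1],[1,1,0,0,0,0,0,0,1],(⟨0,[(22,0)]⟩,⟨1,[(21,0),(8,0),(0,0)]⟩),(⟨0,[(31,0),(2,0)]⟩,
  ⟨0,[(15,0)]⟩),⟨0,[(1,0)]⟩,.k,.k,(.r 0 ⟨0,[(2,0)]⟩ ⟨5,[(11,1),(5,1),(1,3),(0,0),(6,1),(12,0)]⟩),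
  (.r (-1) ⟨2,[(0,2),(0,1),(5,1),(7,1),(6,0),(4,0),(4,0)]⟩ ⟨1,[(8,0),(10,0),(9,0)]⟩),(.x 0 ⟨2,[(3,
  0),(11,2),(8,4),(2,0),(5,2)]⟩ ⟨0,[(7,0)]⟩),.k,⟨true,0,⟨0,[(2,0),(10,0),(9,0)]⟩,⟨1,[(9,1),(9,0),
  (20,0)]⟩⟩,⟨false,1,⟨1,[(1,0),(1,0),(3,0),(7,0),(6,0),(16,0)]⟩,⟨1,[(21,0),(2,0),(3,0)]⟩⟩,⟨false,0,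
  ⟨0,[]⟩,⟨3,[(19,0),(0,0),(19,1)]⟩⟩,⟨false,1,⟨5,[(3,1),(4,1),(1,1),(8,2),(2,5),(16,1),(0,2)]⟩,⟨0,
  [(0,0)]⟩⟩,⟨true,0,⟨0,[(37,0)]⟩,⟨0,[(38,0)]⟩⟩,⟨false,1,⟨1,[(1,0),(1,0),(3,0),(0,1),(6,0),(3,0),(2,
  0),(16,0),(0,0)]⟩,⟨0,[(0,0),(37,0)]⟩⟩,[.o ⟨false,0,⟨2,[(3,0),(4,0),(1,0),(28,0)]⟩,⟨1,[(0,1),(18,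
  0),(2,1),(9,0)]⟩⟩,.o ⟨false,1,⟨2,[(10,1),(6,0),(14,0),(7,1)]⟩,⟨0,[(5,0),(20,0)]⟩⟩,.a ⟨true,0,⟨1,
  [(21,0),(8,0),(0,0)]⟩,⟨0,[(22,0)]⟩⟩ ⟨false,0,⟨15,[(0,1),(1,7),(0,1),(4,3),(4,1),(3,1),(2,2),(1,1),
  (17,0)]⟩,⟨1,[(19,0),(20,0)]⟩⟩ ⟨true,0,⟨2,[(3,0),(4,0),(1,0),(11,2),(16,0)]⟩,⟨1,[(5,0),(15,0),(4,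
  1),(11,0)]⟩⟩,.o ⟨false,0,⟨1,[(21,0),(2,0),(2,0)]⟩,⟨1,[(22,1),(9,0),(6,0)]⟩⟩]⟩) (.R ⟨1,true,false,
  false,[0,0,0,1],[0,1,1],[1,1,0,0,0,0,0,0,1],(⟨0,[(22,0)]⟩,⟨1,[(21,0),(8,0),(0,0)]⟩),(⟨0,[(31,0),
  (2,0)]⟩,⟨0,[(15,0)]⟩),⟨0,[(1,0)]⟩,.k,.k,(.r 0 ⟨0,[(2,0)]⟩ ⟨5,[(11,1),(5,1),(1,3),(0,0),(6,1),(12,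
  0)]⟩),(.r (-1) ⟨1,[(2,1),(10,1),(12,1),(5,0),(7,0)]⟩ ⟨1,[(8,0),(10,0),(9,0)]⟩),(.x 0 ⟨2,[(3,0),
  (11,2),(8,4),(2,0),(5,2)]⟩ ⟨0,[(7,0)]⟩),.k,⟨true,0,⟨0,[(2,0),(10,0),(9,0)]⟩,⟨1,[(9,1),(9,0),(20,
  0)]⟩⟩,⟨false,1,⟨1,[(1,0),(1,0),(3,0),(7,0),(6,0),(16,0)]⟩,⟨1,[(21,0),(2,0),(3,0)]⟩⟩,⟨false,0,⟨0,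
  []⟩,⟨3,[(19,0),(0,0),(19,1)]⟩⟩,⟨true,0,⟨0,[(0,0)]⟩,⟨5,[(2,3),(2,1),(3,0),(10,0),(0,2),(1,0),(2,5),
  (0,0),(7,0)]⟩⟩,⟨true,0,⟨0,[(37,0)]⟩,⟨0,[(38,0)]⟩⟩,⟨false,1,⟨5,[(0,5),(9,1),(6,3),(14,0),(7,4)]⟩,
  ⟨1,[(2,1),(18,0),(1,0),(2,0),(8,1)]⟩⟩,[]⟩))) (.Q [0,0,0,1,0,0,0,0,-1,0,0,1] (.p true [0,0,0,1] []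
  (⟨0,[(20,0)]⟩,⟨1,[(19,0),(8,0),(0,0)]⟩) .k 0 (⟨0,[]⟩,⟨0,[]⟩) .k .k) (.I [0,-1,2,1,0,0,0,-1] (.I
  [1,1,0,0,0,0,0,0,1] (.Q [0,0,0,0,0,1,0,0,0,0,0,-1] (.p false [0,0,0,1] [] (⟨0,[(23,0)]⟩,⟨1,[(22,
  0),(8,0),(0,0)]⟩) .k 0 (⟨0,[]⟩,⟨0,[]⟩) .k .k) (.R ⟨0,false,false,true,[0,0,0,1],[0,1],[],(⟨0,[(24,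
  0)]⟩,⟨1,[(23,0),(8,0),(0,0)]⟩),(⟨0,[(36,0)]⟩,⟨0,[(35,0)]⟩),⟨0,[(0,0)]⟩,.k,.k,(.r (-1) ⟨1,[(22,0),
  (17,1),(0,0)]⟩ ⟨1,[(2,1),(0,1),(3,5),(2,1),(6,4),(5,0),(9,4),(2,4),(1,5),(3,1)]⟩),(.r (-1) ⟨1,
  [(22,0),(17,1),(0,0)]⟩ ⟨1,[(2,1),(0,1),(3,5),(2,1),(6,4),(5,0),(9,4),(2,4),(1,5),(3,1)]⟩),.k,.k,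
  ⟨true,1,⟨1,[(40,1),(0,0),(0,0)]⟩,⟨0,[(11,0),(3,0),(9,0)]⟩⟩,⟨false,1,⟨0,[(24,0),(16,0)]⟩,⟨1,[(23,
  0),(2,0),(2,0)]⟩⟩,⟨true,0,⟨1,[(3,1),(3,0),(15,0),(16,0)]⟩,⟨0,[(1,0)]⟩⟩,⟨false,0,⟨0,[(3,0)]⟩,⟨0,
  [(16,0),(23,0)]⟩⟩,⟨false,0,⟨0,[]⟩,⟨0,[]⟩⟩,⟨false,0,⟨0,[]⟩,⟨0,[]⟩⟩,[.o ⟨false,0,⟨0,[(39,0)]⟩,⟨1,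
  [(34,0),(5,1),(1,0)]⟩⟩,.o ⟨false,1,⟨3,[(2,0),(10,0),(7,0),(0,0),(16,0),(1,1)]⟩,⟨0,[(7,0)]⟩⟩,.a
  ⟨true,0,⟨1,[(23,0),(8,0),(0,0)]⟩,⟨0,[(24,0)]⟩⟩ ⟨false,1,⟨3,[(21,0),(0,0),(19,1)]⟩,⟨0,[]⟩⟩ ⟨true,0,
  ⟨0,[(24,0),(14,0)]⟩,⟨1,[(7,0),(15,0),(16,0)]⟩⟩,.o ⟨false,0,⟨1,[(23,0),(2,0),(2,0)]⟩,⟨1,[(24,1),(9,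
  0),(6,0)]⟩⟩]⟩) (.I [1,0,1,1,-1,0,0,0,-2] (.Q [0,1,0,1,-1,0,0,0,-2,-1,0,2] (.p true [0,0,0,1] [1,0,
  0,-1] (⟨0,[(25,0)]⟩,⟨1,[(24,0),(8,0),(0,0)]⟩) .k 2 (⟨1,[(24,0),(8,0),(0,0)]⟩,⟨0,[(25,0)]⟩) .k .k)
  (.R ⟨1,false,false,true,[0,0,0,1],[1,0,0,-1],[1,1,0,0,0,0,0,0,1],(⟨0,[(26,0)]⟩,⟨1,[(25,0),(8,0),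
  (0,0)]⟩),(⟨1,[(25,0),(8,0),(0,0)]⟩,⟨0,[(26,0)]⟩),⟨0,[(2,0)]⟩,.k,.k,(.r (-1) ⟨1,[(24,0),(17,1),(0,
  0)]⟩ ⟨15,[(1,3),(2,2),(10,2),(7,3),(17,2)]⟩),.k,(.x 0 ⟨8,[(4,0),(4,2),(3,1),(13,0),(0,0),(2,1),(4,
  1),(0,8)]⟩ ⟨5,[(8,1),(2,1),(11,0),(0,0),(7,1),(10,1)]⟩),.k,⟨true,1,⟨0,[(24,0)]⟩,⟨0,[(1,0),(40,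
  0)]⟩⟩,⟨false,1,⟨1,[(26,3),(9,0),(6,0)]⟩,⟨0,[(25,0)]⟩⟩,⟨false,0,⟨0,[]⟩,⟨3,[(23,0),(0,0),(19,1)]⟩⟩,
  ⟨true,(-1),⟨0,[(0,0),(41,0)]⟩,⟨0,[(24,0),(0,0)]⟩⟩,⟨true,0,⟨0,[(41,0)]⟩,⟨0,[(42,0)]⟩⟩,⟨true,(-1),
  ⟨0,[(0,0)]⟩,⟨0,[(24,0),(0,0),(16,0)]⟩⟩,[.o ⟨false,0,⟨5,[(0,1),(8,1),(13,0),(2,1),(9,0),(9,3)]⟩,⟨0,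
  [(18,0)]⟩⟩,.o ⟨false,0,⟨9,[(0,3),(8,3),(13,0),(2,1),(9,0),(7,1)]⟩,⟨7,[(23,0),(0,4),(0,3),(10,
  1)]⟩⟩,.a ⟨true,0,⟨1,[(25,0),(8,0),(0,0)]⟩,⟨0,[(26,0)]⟩⟩ ⟨true,0,⟨0,[(3,0)]⟩,⟨5,[(1,1),(21,0),(18,
  1),(0,0)]⟩⟩ ⟨false,0,⟨9,[(0,3),(8,3),(13,0),(2,11),(9,0),(7,1)]⟩,⟨1,[(24,0),(0,1),(18,0)]⟩⟩,.o
  ⟨false,0,⟨1,[(25,0),(2,0),(2,0)]⟩,⟨1,[(26,1),(9,0),(6,0)]⟩⟩]⟩) (.R ⟨1,true,false,true,[0,0,0,1],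
  [1,0,0,-1],[1,1,0,0,0,0,0,0,1],(⟨0,[(26,0)]⟩,⟨1,[(25,0),(8,0),(0,0)]⟩),(⟨1,[(25,0),(8,0),(0,0)]⟩,
  ⟨0,[(26,0)]⟩),⟨0,[(2,0)]⟩,.k,.k,(.r (-1) ⟨1,[(24,0),(17,1),(0,0)]⟩ ⟨15,[(1,3),(2,2),(10,2),(7,3),
  (17,2)]⟩),.k,(.x 0 ⟨8,[(4,0),(4,2),(3,1),(13,0),(0,0),(2,1),(4,1),(0,8)]⟩ ⟨5,[(8,1),(2,1),(11,0),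
  (0,0),(7,1),(10,1)]⟩),.k,⟨true,1,⟨0,[(24,0)]⟩,⟨0,[(1,0),(40,0)]⟩⟩,⟨false,1,⟨1,[(26,3),(9,0),(6,
  0)]⟩,⟨0,[(25,0)]⟩⟩,⟨false,0,⟨0,[]⟩,⟨3,[(23,0),(0,0),(19,1)]⟩⟩,⟨true,(-1),⟨0,[(1,0),(7,0),(16,1),
  (13,0)]⟩,⟨0,[(0,0),(40,0)]⟩⟩,⟨true,0,⟨0,[(41,0)]⟩,⟨0,[(42,0)]⟩⟩,⟨false,0,⟨0,[(5,1),(3,0)]⟩,⟨0,[(0,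
  0)]⟩⟩,[]⟩)) (.Q [0,0,-2,0,1,0,-1,0,0,0,1,1] (.p true [1,-1,1] [1,0,0,-1] (⟨0,[(34,0),(1,0)]⟩,⟨0,
  [(7,0)]⟩) .k 2 (⟨1,[(24,0),(8,0),(0,0)]⟩,⟨0,[(25,0)]⟩) .k (.x 0 ⟨1,[(6,0),(9,0),(17,1)]⟩ ⟨1,[(31,
  1),(1,1),(1,0),(6,0)]⟩)) (.I [0,-1,-1,-2,1,0,0,0,1] (.R ⟨1,false,false,false,[0,0,0,1],[0,1,-1],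
  [1,1,0,0,0,0,0,0,1],(⟨0,[(27,0)]⟩,⟨1,[(26,0),(8,0),(0,0)]⟩),(⟨0,[(9,0)]⟩,⟨0,[(36,0),(1,0)]⟩),⟨0,
  [(3,0)]⟩,.k,.k,(.r (-1) ⟨4,[(0,0),(1,2),(21,0),(16,0)]⟩ ⟨0,[(3,4),(1,0),(0,0),(3,2),(2,0),(12,2),
  (12,4),(1,2),(3,0)]⟩),(.r (-1) ⟨19,[(0,5),(0,3),(0,7),(21,0),(1,1),(3,5),(2,1),(0,13),(2,0)]⟩ ⟨1,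
  [(5,0),(0,1),(3,0),(7,0),(7,0),(1,0)]⟩),(.r (-1) ⟨0,[(0,0),(33,0),(6,0)]⟩ ⟨3,[(5,1),(1,3),(0,0),
  (9,0),(3,1)]⟩),.k,⟨true,0,⟨0,[(0,0),(13,0),(26,1)]⟩,⟨5,[(5,4),(0,5),(3,2),(7,0),(7,2),(1,0),(11,
  1)]⟩⟩,⟨false,1,⟨0,[(1,0)]⟩,⟨29,[(5,0),(2,6),(1,2),(3,1),(11,14),(1,0),(3,23),(4,1)]⟩⟩,⟨false,0,⟨0,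
  []⟩,⟨3,[(24,0),(0,0),(19,1)]⟩⟩,⟨false,1,⟨0,[(6,0),(24,0),(13,0)]⟩,⟨3,[(0,3),(7,2),(5,3),(3,0),(7,
  1),(14,3)]⟩⟩,⟨true,0,⟨0,[(42,0)]⟩,⟨0,[(43,0)]⟩⟩,⟨false,1,⟨0,[(6,0),(15,0),(22,0)]⟩,⟨3,[(0,3),(7,
  0),(1,3),(3,3),(3,2),(7,1),(14,3)]⟩⟩,[.o ⟨false,1,⟨3,[(22,3),(1,0),(0,0),(19,1)]⟩,⟨1,[(10,2),(4,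
  0)]⟩⟩,.o ⟨false,1,⟨0,[(22,0),(22,0)]⟩,⟨0,[(10,0),(19,0)]⟩⟩,.a ⟨true,0,⟨1,[(26,0),(8,0),(0,0)]⟩,⟨0,
  [(27,0)]⟩⟩ ⟨true,0,⟨0,[(4,0)]⟩,⟨1,[(6,1),(3,0),(15,0),(16,0)]⟩⟩ ⟨false,1,⟨0,[(1,0),(3,0)]⟩,⟨1,
  [(10,1),(12,0),(2,0)]⟩⟩,.o ⟨false,0,⟨1,[(26,0),(2,0),(2,0)]⟩,⟨5,[(1,1),(1,0),(4,0),(3,0),(7,0),(6,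
  2),(9,2)]⟩⟩]⟩) (.Q [0,0,0,-1,0,0,-1,-1,-1,-1,1,1] (.p true [0,0,1] [1,0,0,-1] (⟨0,[(36,0)]⟩,⟨0,
  [(35,0)]⟩) .k 2 (⟨1,[(26,0),(8,0),(0,0)]⟩,⟨0,[(27,0)]⟩) .k (.x 0 ⟨1,[(8,0),(9,0),(17,1)]⟩ ⟨23,[(1,
  7),(22,0),(0,0),(0,3),(6,15),(1,23),(1,13)]⟩)) (.R ⟨1,false,false,false,[1,0,0,-1],[0,1,1],[1,1,0,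
  0,0,0,0,0,-1],(⟨1,[(27,0),(8,0),(0,0)]⟩,⟨0,[(28,0)]⟩),(⟨0,[(37,0),(2,0)]⟩,⟨0,[(21,0)]⟩),⟨0,[(4,0),
  (22,0)]⟩,.k,.k,(.r (-1) ⟨1,[(25,0),(18,1),(0,0)]⟩ ⟨2,[(1,0),(1,1),(2,0),(7,0)]⟩),(.r (-1) ⟨51,[(0,
  43),(2,11),(2,3),(2,10),(9,36),(5,15),(1,21),(1,3),(15,23)]⟩ ⟨3,[(3,1),(10,1),(2,0),(17,0)]⟩),(.x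
  0 ⟨8,[(6,0),(4,2),(3,1),(5,8),(7,0),(0,9),(2,1),(4,1),(0,8)]⟩ ⟨0,[(13,0)]⟩),.k,⟨true,0,⟨3,[(0,3),
  (8,0),(9,2),(7,1),(14,3)]⟩,⟨1,[(15,1),(10,0),(19,0)]⟩⟩,⟨false,1,⟨3,[(9,0),(9,2),(7,1),(17,3)]⟩,⟨0,
  [(28,0),(1,0)]⟩⟩,⟨false,0,⟨0,[]⟩,⟨3,[(25,0),(0,0),(19,1)]⟩⟩,⟨false,1,⟨0,[(20,0),(1,0)]⟩,⟨0,[(0,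
  0)]⟩⟩,⟨true,0,⟨0,[(43,0)]⟩,⟨0,[(44,0)]⟩⟩,⟨false,1,⟨4,[(3,1),(2,1),(2,0),(4,2),(5,0),(1,3),(4,1),
  (17,3),(0,0)]⟩,⟨0,[(0,0),(43,0)]⟩⟩,[.o ⟨false,0,⟨2,[(9,0),(4,0),(1,0),(28,0)]⟩,⟨2,[(0,0),(2,0),
  (16,0),(4,0),(3,1),(11,0)]⟩⟩,.o ⟨false,1,⟨11,[(6,1),(9,5),(0,1),(20,2),(6,3),(0,4)]⟩,⟨0,[(11,0),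
  (20,0)]⟩⟩,.a ⟨true,0,⟨0,[(28,0)]⟩,⟨1,[(27,0),(8,0),(0,0)]⟩⟩ ⟨false,0,⟨5,[(0,1),(6,3),(3,1),(12,0),
  (2,2)]⟩,⟨1,[(26,0),(19,0)]⟩⟩ ⟨true,0,⟨5,[(9,0),(4,0),(1,0),(5,2),(4,2),(17,0)]⟩,⟨0,[(0,0),(4,
  0)]⟩⟩,.o ⟨false,0,⟨4,[(0,1),(8,0),(5,1),(10,0),(1,2),(4,0),(4,0)]⟩,⟨7,[(25,0),(0,0),(0,3),(10,1),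
  (6,3)]⟩⟩]⟩) (.R ⟨1,false,false,true,[0,0,0,1],[0,1,-1],[1,0,0,0,0,0,0,0,1],(⟨0,[(28,0)]⟩,⟨1,[(27,
  0),(8,0),(0,0)]⟩),(⟨0,[(10,0)]⟩,⟨0,[(37,0),(1,0)]⟩),⟨0,[(4,0)]⟩,.k,.k,(.r (-1) ⟨5,[(3,3),(21,0),
  (18,1),(0,0)]⟩ ⟨4,[(1,0),(4,0),(7,0),(10,1)]⟩),(.r (-1) ⟨11,[(2,1),(0,7),(7,1),(12,0),(0,1),(1,0),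
  (7,9),(8,1)]⟩ ⟨1,[(6,0),(0,1),(3,0),(7,0),(7,0),(1,0)]⟩),(.r (-1) ⟨0,[(0,0),(1,0),(8,0),(32,1)]⟩
  ⟨11,[(1,3),(4,9),(2,0),(8,0),(4,2),(1,3),(17,2)]⟩),.k,⟨true,1,⟨0,[(0,0),(1,0),(8,0),(29,0)]⟩,⟨0,
  [(1,0),(17,0),(9,0),(11,0)]⟩⟩,⟨false,1,⟨0,[(2,0)]⟩,⟨29,[(6,0),(2,6),(1,2),(3,1),(11,14),(1,0),(3,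
  23),(4,1)]⟩⟩,⟨true,0,⟨0,[]⟩,⟨0,[(48,0)]⟩⟩,⟨true,0,⟨0,[(7,0),(24,0)]⟩,⟨0,[(0,0),(10,0),(32,0)]⟩⟩,
  ⟨false,1,⟨2,[(6,0),(10,0),(27,1),(0,0)]⟩,⟨0,[(44,0)]⟩⟩,⟨true,0,⟨0,[(7,0),(15,0)]⟩,⟨0,[(0,0),(10,
  0),(32,1)]⟩⟩,[.o ⟨false,0,⟨0,[(23,0)]⟩,⟨19,[(3,1),(7,15),(12,9),(0,1),(12,6),(2,1),(4,8)]⟩⟩,.o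
  ⟨false,1,⟨3,[(23,3),(1,0),(0,0),(19,1)]⟩,⟨1,[(11,2),(4,0)]⟩⟩,.a ⟨true,0,⟨1,[(27,0),(8,0),(0,0)]⟩,
  ⟨0,[(28,0)]⟩⟩ ⟨false,1,⟨1,[(26,0),(19,0)]⟩,⟨1,[(7,1),(3,0),(15,0),(16,0)]⟩⟩ ⟨true,0,⟨0,[(23,0),(4,
  0)]⟩,⟨1,[(11,1),(12,0),(2,0)]⟩⟩,.o ⟨false,0,⟨1,[(27,0),(2,0),(2,0)]⟩,⟨5,[(2,1),(1,0),(4,0),(3,0),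
  (7,0),(6,2),(9,2)]⟩⟩]⟩))) (.Q [0,0,2,0,-1,0,1,0,0,-1,-1] (.p false [1,-1,1] [] (⟨0,[(35,0),(1,
  0)]⟩,⟨0,[(8,0)]⟩) .k 0 (⟨0,[]⟩,⟨0,[]⟩) .k .k) (.K ⟨2,[1,-1,1],(-1),0,(⟨0,[(36,0),(1,0)]⟩,⟨0,[(9,
  0)]⟩),.k,(.r (-1) ⟨0,[(34,0),(8,1),(0,0)]⟩ ⟨0,[(5,0),(36,0)]⟩),.k,.k,.k,[⟨0,[(10,0)]⟩,⟨0,[(22,0),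
  (12,0),(0,0)]⟩,⟨5,[(12,1),(11,0),(0,0),(7,7),(1,1),(2,3),(5,1)]⟩,⟨0,[(0,0)]⟩]⟩) (.K ⟨0,[0,1,-1],1,
  0,(⟨0,[(9,0)]⟩,⟨0,[(36,0),(1,0)]⟩),.k,.k,(.r 0 ⟨0,[(5,0),(36,0)]⟩ ⟨1,[(0,1),(9,2),(12,0),(19,
  0)]⟩),.k,.k,[⟨0,[(1,0),(25,0)]⟩,⟨0,[(0,0)]⟩,⟨0,[(30,0),(12,0)]⟩,⟨0,[(22,0)]⟩]⟩))))) (.Q [0,0,0,0,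
  0,1,0,0,0,0,0,-1] (.p false [0,0,0,1] [] (⟨0,[(23,0)]⟩,⟨1,[(22,0),(8,0),(0,0)]⟩) .k 0 (⟨0,[]⟩,⟨0,
  []⟩) .k .k) (.R ⟨0,false,false,true,[0,0,0,1],[0,1],[1,1,1,1],(⟨0,[(24,0)]⟩,⟨1,[(23,0),(8,0),(0,
  0)]⟩),(⟨0,[(36,0)]⟩,⟨0,[(35,0)]⟩),⟨0,[(0,0)]⟩,.k,.k,(.r (-1) ⟨1,[(22,0),(17,1),(0,0)]⟩ ⟨0,[(1,4),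
  (0,1),(4,4),(2,1),(6,4),(4,1),(10,4),(2,4),(1,6)]⟩),(.r (-1) ⟨1,[(22,0),(17,1),(0,0)]⟩ ⟨0,[(1,4),
  (0,1),(4,4),(2,1),(6,4),(4,1),(10,4),(2,4),(1,6)]⟩),.k,.k,⟨true,0,⟨0,[]⟩,⟨1,[(29,0),(0,0)]⟩⟩,
  ⟨false,1,⟨0,[(24,0),(16,0)]⟩,⟨1,[(23,0),(2,0),(2,0)]⟩⟩,⟨true,(-1),⟨0,[(1,0),(9,0),(3,0),(9,0),(12,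
  0)]⟩,⟨1,[(22,0),(17,1),(0,0)]⟩⟩,⟨false,0,⟨0,[(3,0)]⟩,⟨0,[(16,0),(23,0)]⟩⟩,⟨false,0,⟨0,[]⟩,⟨0,[]⟩⟩,
  ⟨false,0,⟨0,[]⟩,⟨0,[]⟩⟩,[.o ⟨false,0,⟨0,[(39,0)]⟩,⟨1,[(34,0),(5,1),(1,0)]⟩⟩,.o ⟨false,1,⟨3,[(2,0),
  (10,0),(7,0),(0,0),(16,0),(1,1)]⟩,⟨0,[(7,0)]⟩⟩,.a ⟨true,0,⟨1,[(23,0),(8,0),(0,0)]⟩,⟨0,[(24,0)]⟩⟩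
  ⟨false,0,⟨3,[(2,0),(10,0),(25,0)]⟩,⟨1,[(40,1),(0,0),(0,0)]⟩⟩ ⟨true,0,⟨0,[(24,0),(14,0)]⟩,⟨1,[(7,
  0),(15,0),(16,0)]⟩⟩,.o ⟨false,0,⟨1,[(23,0),(2,0),(2,0)]⟩,⟨1,[(24,1),(9,0),(6,0)]⟩⟩]⟩) (.R ⟨1,
  false,false,true,[0,0,0,1],[0,1],[1,1,0,0,0,0,0,0,1],(⟨0,[(24,0)]⟩,⟨1,[(23,0),(8,0),(0,0)]⟩),(⟨0,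
  [(36,0)]⟩,⟨0,[(35,0)]⟩),⟨0,[(0,0)]⟩,.k,.k,(.r (-1) ⟨1,[(22,0),(17,1),(0,0)]⟩ ⟨0,[(0,9),(0,4),(0,
  1),(4,4),(2,1),(11,1),(0,4),(12,9),(1,6)]⟩),(.r (-1) ⟨1,[(22,0),(17,1),(0,0)]⟩ ⟨0,[(0,9),(0,4),(0,
  1),(4,4),(2,1),(11,1),(0,4),(12,9),(1,6)]⟩),(.r (-2) ⟨3,[(21,0),(0,2),(17,7),(0,3)]⟩ ⟨1,[(1,1),(3,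
  0),(5,1),(3,0),(3,1)]⟩),.k,⟨true,1,⟨1,[(22,0),(17,1),(0,0)]⟩,⟨0,[(1,0),(9,0),(3,0),(9,0)]⟩⟩,
  ⟨false,1,⟨0,[(24,0),(16,0)]⟩,⟨1,[(23,0),(2,0),(2,0)]⟩⟩,⟨false,0,⟨0,[]⟩,⟨3,[(21,0),(0,0),(19,1)]⟩⟩,
  ⟨false,0,⟨0,[(3,0)]⟩,⟨0,[(16,0),(23,0)]⟩⟩,⟨true,0,⟨0,[(39,0)]⟩,⟨0,[(40,0)]⟩⟩,⟨false,0,⟨3,[(0,0),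
  (0,1),(1,1),(1,0),(3,0),(0,1),(6,0),(1,1),(4,0),(16,0)]⟩,⟨0,[(16,0),(23,1)]⟩⟩,[.o ⟨false,0,⟨0,
  [(39,0)]⟩,⟨1,[(34,0),(5,1),(1,0)]⟩⟩,.o ⟨false,1,⟨3,[(2,0),(10,0),(7,0),(0,0),(16,0),(1,1)]⟩,⟨0,
  [(7,0)]⟩⟩,.a ⟨true,0,⟨1,[(23,0),(8,0),(0,0)]⟩,⟨0,[(24,0)]⟩⟩ ⟨false,1,⟨3,[(21,0),(0,2)]⟩,⟨0,[(1,
  0)]⟩⟩ ⟨true,0,⟨0,[(24,0),(14,0)]⟩,⟨1,[(7,0),(15,0),(16,0)]⟩⟩,.o ⟨false,0,⟨1,[(23,0),(2,0),(2,0)]⟩,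
  ⟨1,[(24,1),(9,0),(6,0)]⟩⟩]⟩))) (.I [1,0,1,1,-1,0,0,1,-1] (.Q [0,0,0,0,0,1,0,0,0,0,0,-1] (.p false
  [0,0,0,1] [] (⟨0,[(23,0)]⟩,⟨1,[(22,0),(8,0),(0,0)]⟩) .k 0 (⟨0,[]⟩,⟨0,[]⟩) .k .k) (.R ⟨0,false,
  false,true,[0,0,0,1],[0,1],[1,1,1,1],(⟨0,[(24,0)]⟩,⟨1,[(23,0),(8,0),(0,0)]⟩),(⟨0,[(36,0)]⟩,⟨0,
  [(35,0)]⟩),⟨0,[(0,0)]⟩,.k,.k,(.r (-1) ⟨1,[(22,0),(17,1),(0,0)]⟩ ⟨0,[(1,0),(3,1),(1,3),(2,0),(6,5),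
  (1,1),(13,5),(2,5),(1,1),(3,1)]⟩),(.r (-1) ⟨1,[(22,0),(17,1),(0,0)]⟩ ⟨0,[(1,0),(3,1),(1,3),(2,0),
  (6,5),(1,1),(13,5),(2,5),(1,1),(3,1)]⟩),.k,.k,⟨true,0,⟨0,[]⟩,⟨1,[(29,0),(0,0)]⟩⟩,⟨false,1,⟨0,[(24,
  0),(16,0)]⟩,⟨1,[(23,0),(2,0),(2,0)]⟩⟩,⟨true,(-1),⟨0,[(1,0),(13,0),(9,0)]⟩,⟨1,[(22,0),(17,1),(0,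
  0)]⟩⟩,⟨false,0,⟨0,[(3,0)]⟩,⟨0,[(16,0),(23,0)]⟩⟩,⟨false,0,⟨0,[]⟩,⟨0,[]⟩⟩,⟨false,0,⟨0,[]⟩,⟨0,[]⟩⟩,
  [.o ⟨false,0,⟨0,[(39,0)]⟩,⟨1,[(34,0),(5,1),(1,0)]⟩⟩,.o ⟨false,1,⟨11,[(12,3),(6,7),(1,2),(0,2),(11,
  1),(7,3)]⟩,⟨0,[(7,0)]⟩⟩,.a ⟨true,0,⟨1,[(23,0),(8,0),(0,0)]⟩,⟨0,[(24,0)]⟩⟩ ⟨false,0,⟨5,[(10,0),(2,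
  0),(5,1),(9,1),(12,0)]⟩,⟨1,[(40,1),(0,0),(0,0)]⟩⟩ ⟨true,0,⟨0,[(24,0),(14,0)]⟩,⟨1,[(7,0),(15,0),
  (16,0)]⟩⟩,.o ⟨false,0,⟨1,[(23,0),(2,0),(2,0)]⟩,⟨1,[(24,1),(9,0),(6,0)]⟩⟩]⟩) (.I [0,0,-1,-1,0,0,0,
  0,-1] (.I [0,-1,0,-1,0,0,0,0,-1] (.R ⟨1,false,false,false,[1,0,0,-1],[1,-1],[0,0,0,-1,0,0,0,0,-1],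
  (⟨1,[(25,0),(8,0),(0,0)]⟩,⟨0,[(26,0)]⟩),(⟨0,[(37,0)]⟩,⟨0,[(38,0)]⟩),⟨0,[(2,0),(22,0)]⟩,.k,.k,(.r
  0 ⟨0,[(1,0)]⟩ ⟨0,[(6,0),(17,0)]⟩),(.r 0 ⟨1,[(0,1),(1,29),(1,2),(2,6),(1,7),(2,3),(8,6),(3,14),(12,
  29),(5,3)]⟩ ⟨0,[(1,0),(22,0)]⟩),.k,.k,⟨false,0,⟨1,[(1,0),(4,0)]⟩,⟨1,[(24,0),(18,0)]⟩⟩,⟨true,0,⟨1,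
  [(25,0),(2,0),(2,0)]⟩,⟨0,[(26,0)]⟩⟩,⟨true,0,⟨0,[(42,0)]⟩,⟨0,[(41,0)]⟩⟩,⟨false,1,⟨0,[(18,0),(23,
  0)]⟩,⟨0,[(5,0)]⟩⟩,⟨false,1,⟨3,[(23,0),(0,0),(19,1)]⟩,⟨0,[]⟩⟩,⟨false,1,⟨0,[(18,0)]⟩,⟨1,[(1,0),(4,
  0),(19,1)]⟩⟩,[.o ⟨false,0,⟨0,[(9,0)]⟩,⟨11,[(14,3),(6,7),(1,2),(0,2),(11,1),(7,3)]⟩⟩,.o ⟨false,1,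
  ⟨3,[(1,1),(22,0),(11,1),(2,1),(4,0)]⟩,⟨0,[(41,0)]⟩⟩,.a ⟨true,0,⟨0,[(26,0)]⟩,⟨1,[(25,0),(8,0),(0,
  0)]⟩⟩ ⟨false,0,⟨0,[(0,0)]⟩,⟨5,[(14,1),(6,3),(2,2),(11,0),(7,1)]⟩⟩ ⟨true,0,⟨1,[(9,0),(15,0),(16,
  0)]⟩,⟨0,[(26,0),(14,0)]⟩⟩,.o ⟨false,0,⟨2,[(7,0),(18,2),(1,1),(2,0)]⟩,⟨7,[(23,0),(0,0),(0,3),(10,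
  1),(6,3)]⟩⟩]⟩) (.R ⟨1,false,false,false,[0,0,0,1],[1,-1],[0,0,-1,-1],(⟨0,[(26,0)]⟩,⟨1,[(25,0),(8,
  0),(0,0)]⟩),(⟨0,[(37,0)]⟩,⟨0,[(38,0)]⟩),⟨0,[(2,0)]⟩,.k,.k,(.r (-1) ⟨0,[(1,0),(22,0)]⟩ ⟨0,[(1,0),
  (0,13),(1,0),(2,2),(1,3),(2,1),(8,2),(3,6),(12,13),(5,1)]⟩),(.r (-1) ⟨0,[(6,0),(17,0)]⟩ ⟨0,[(1,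
  0)]⟩),.k,.k,⟨false,1,⟨3,[(23,0),(0,0),(18,1)]⟩,⟨0,[]⟩⟩,⟨true,0,⟨2,[(7,0),(18,2),(1,1),(2,0)]⟩,⟨1,
  [(25,0),(8,0),(0,0)]⟩⟩,⟨true,0,⟨0,[(1,0)]⟩,⟨8,[(0,4),(12,1),(1,0),(8,1),(5,2),(0,2),(14,0)]⟩⟩,
  ⟨true,0,⟨7,[(1,2),(1,0),(1,1),(3,6),(13,0),(2,5),(0,0),(3,0),(7,0)]⟩,⟨1,[(0,1),(24,0),(8,0),(0,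
  0)]⟩⟩,⟨false,1,⟨1,[(1,0),(4,0),(36,0),(0,0)]⟩,⟨0,[(0,0),(38,0)]⟩⟩,⟨true,0,⟨0,[(5,0),(3,0)]⟩,⟨5,
  [(0,5),(3,1),(12,1),(7,2),(4,1),(3,0),(0,0),(3,3)]⟩⟩,[.o ⟨false,0,⟨0,[(9,0)]⟩,⟨11,[(14,3),(6,7),
  (1,2),(0,2),(11,1),(7,3)]⟩⟩,.o ⟨false,1,⟨3,[(1,1),(22,0),(11,1),(2,1),(4,0)]⟩,⟨0,[(41,0)]⟩⟩,.a
  ⟨true,0,⟨1,[(25,0),(8,0),(0,0)]⟩,⟨0,[(26,0)]⟩⟩ ⟨false,1,⟨1,[(1,1),(22,0),(19,0)]⟩,⟨5,[(12,0),(2,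
  0),(5,1),(9,1),(12,0)]⟩⟩ ⟨true,0,⟨0,[(9,0),(16,0)]⟩,⟨1,[(21,1),(0,0),(2,0)]⟩⟩,.o ⟨false,0,⟨1,[(25,
  0),(2,0),(2,0)]⟩,⟨1,[(26,1),(9,0),(6,0)]⟩⟩]⟩)) (.R ⟨1,false,false,true,[0,0,0,1],[0,1,-1],[1,0,0,
  0,0,0,0,0,1],(⟨0,[(25,0)]⟩,⟨1,[(24,0),(8,0),(0,0)]⟩),(⟨0,[(7,0)]⟩,⟨0,[(34,0),(1,0)]⟩),⟨0,[(1,0)]⟩,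
  .k,.k,(.r (-1) ⟨1,[(23,0),(17,1),(0,0)]⟩ ⟨0,[(1,13),(0,0),(0,0),(2,2),(1,3),(2,0),(8,2),(3,6),(12,
  13),(5,1)]⟩),(.r (-1) ⟨31,[(3,23),(17,3),(0,2),(0,18),(7,7),(3,1),(2,7),(4,7)]⟩ ⟨3,[(4,3),(1,2),
  (9,0),(3,3),(3,1),(13,3)]⟩),(.r (-1) ⟨1,[(3,1),(19,0),(17,1),(1,0)]⟩ ⟨5,[(2,0),(2,4),(0,3),(4,0),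
  (4,3),(3,7),(17,3),(4,1)]⟩),.k,⟨true,1,⟨3,[(0,1),(2,3),(19,0),(14,1),(4,2)]⟩,⟨1,[(2,1),(3,0),(9,
  2),(3,1),(5,1),(11,1)]⟩⟩,⟨false,1,⟨0,[(3,0),(16,0),(4,0),(17,0)]⟩,⟨5,[(6,1),(17,2),(2,0),(2,4)]⟩⟩,
  ⟨true,0,⟨0,[]⟩,⟨0,[(45,0)]⟩⟩,⟨true,0,⟨0,[(4,0),(24,0)]⟩,⟨3,[(0,3),(2,3),(2,2),(9,0),(7,1),(13,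
  3)]⟩⟩,⟨false,1,⟨5,[(13,1),(6,3),(14,0),(7,4)]⟩,⟨0,[(41,0)]⟩⟩,⟨true,0,⟨0,[(4,0),(15,0)]⟩,⟨3,[(0,3),
  (2,3),(2,0),(1,3),(7,2),(7,1),(13,3)]⟩⟩,[.o ⟨false,0,⟨0,[(20,0)]⟩,⟨7,[(3,1),(4,1),(6,1),(5,1),(13,
  4),(2,3),(4,2)]⟩⟩,.o ⟨false,1,⟨3,[(20,3),(1,0),(0,0),(19,1)]⟩,⟨1,[(8,2),(4,0)]⟩⟩,.a ⟨true,0,⟨1,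
  [(24,0),(8,0),(0,0)]⟩,⟨0,[(25,0)]⟩⟩ ⟨false,1,⟨1,[(23,0),(19,0)]⟩,⟨1,[(4,1),(3,0),(15,0),(16,0)]⟩⟩
  ⟨true,0,⟨0,[(20,0),(4,0)]⟩,⟨1,[(8,1),(12,0),(2,0)]⟩⟩,.o ⟨false,0,⟨1,[(24,0),(2,0),(2,0)]⟩,⟨1,[(25,
  1),(9,0),(6,0)]⟩⟩]⟩))) (.Q [0,0,0,0,0,1,0,0,0,0,0,-1] (.p false [0,0,0,1] [] (⟨0,[(23,0)]⟩,⟨1,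
  [(22,0),(8,0),(0,0)]⟩) .k 0 (⟨0,[]⟩,⟨0,[]⟩) .k .k) (.R ⟨0,false,false,true,[0,0,0,1],[0,1],[],(⟨0,
  [(24,0)]⟩,⟨1,[(23,0),(8,0),(0,0)]⟩),(⟨0,[(36,0)]⟩,⟨0,[(35,0)]⟩),⟨0,[(0,0)]⟩,.k,.k,(.r (-1) ⟨9,[(1,
  3),(0,3),(18,0),(0,3),(14,1),(4,0)]⟩ ⟨1,[(3,1),(1,1),(1,5),(2,1),(6,6),(1,1),(3,0),(9,6),(2,6),(1,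
  1),(3,1)]⟩),(.r (-1) ⟨9,[(1,3),(0,3),(18,0),(0,3),(14,1),(4,0)]⟩ ⟨1,[(3,1),(1,1),(1,5),(2,1),(6,
  6),(1,1),(3,0),(9,6),(2,6),(1,1),(3,1)]⟩),.k,.k,⟨true,1,⟨1,[(40,1),(0,0),(0,0)]⟩,⟨0,[(11,0),(3,0),
  (9,0)]⟩⟩,⟨false,1,⟨0,[(24,0),(16,0)]⟩,⟨1,[(23,0),(2,0),(2,0)]⟩⟩,⟨true,0,⟨1,[(3,1),(3,0),(15,0),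
  (16,0)]⟩,⟨0,[(1,0),(9,0),(26,0)]⟩⟩,⟨false,0,⟨0,[(3,0)]⟩,⟨9,[(1,1),(0,1),(13,5),(5,0),(0,1),(10,0),
  (2,5)]⟩⟩,⟨false,0,⟨0,[]⟩,⟨0,[]⟩⟩,⟨false,0,⟨0,[]⟩,⟨0,[]⟩⟩,[.o ⟨false,0,⟨0,[(39,0)]⟩,⟨11,[(1,1),(0,
  1),(4,1),(13,0),(12,4),(2,5),(4,3)]⟩⟩,.o ⟨false,1,⟨11,[(12,3),(6,7),(1,2),(0,2),(11,1),(7,3)]⟩,⟨0,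
  [(7,0)]⟩⟩,.a ⟨true,0,⟨1,[(23,0),(8,0),(0,0)]⟩,⟨0,[(24,0)]⟩⟩ ⟨false,1,⟨3,[(21,0),(0,0),(19,1)]⟩,⟨0,
  []⟩⟩ ⟨true,0,⟨0,[(24,0),(14,0)]⟩,⟨1,[(7,0),(15,0),(16,0)]⟩⟩,.o ⟨false,0,⟨1,[(23,0),(2,0),(2,0)]⟩,
  ⟨1,[(24,1),(9,0),(6,0)]⟩⟩]⟩) (.Q [0,-1,0,1,0,0,1,1,-1,0,-1,1] (.p false [0,0,1] [0,0,0,1] (⟨0,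
  [(33,0)]⟩,⟨0,[(32,0)]⟩) .k 2 (⟨0,[(24,0)]⟩,⟨1,[(23,0),(8,0),(0,0)]⟩) .k (.r 0 ⟨25,[(2,13),(0,11),
  (3,5),(3,11),(9,6),(1,5),(13,3),(4,4)]⟩ ⟨3,[(1,1),(17,1),(2,0),(6,1),(12,0)]⟩)) (.R ⟨1,false,
  false,false,[0,0,0,1],[0,0,1],[0,0,0,-1,0,0,0,0,1],(⟨0,[(25,0)]⟩,⟨1,[(24,0),(8,0),(0,0)]⟩),(⟨0,
  [(34,0)]⟩,⟨0,[(33,0)]⟩),⟨0,[(1,0)]⟩,.k,.k,(.r (-1) ⟨9,[(2,3),(0,3),(18,0),(0,3),(14,1),(4,0)]⟩ ⟨1,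
  [(0,1),(0,19),(1,0),(2,2),(1,7),(2,1),(8,4),(3,10),(12,19),(5,1)]⟩),.k,(.r (-1) ⟨0,[(2,0)]⟩ ⟨1,
  [(11,0),(10,0),(9,0)]⟩),.k,⟨false,1,⟨0,[(2,0)]⟩,⟨13,[(0,7),(2,5),(7,3),(8,3),(1,2),(1,3),(2,3),
  (15,0)]⟩⟩,⟨true,0,⟨1,[(6,0),(9,0),(8,1)]⟩,⟨1,[(24,0),(2,0),(3,0)]⟩⟩,⟨true,0,⟨0,[(41,0)]⟩,⟨0,[(40,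
  0)]⟩⟩,⟨false,0,⟨0,[(0,0),(40,0)]⟩,⟨0,[(17,0),(11,0)]⟩⟩,⟨false,1,⟨3,[(22,0),(0,0),(19,1)]⟩,⟨0,[]⟩⟩,
  ⟨false,0,⟨0,[(0,0)]⟩,⟨1,[(2,1),(21,0),(2,0),(3,0)]⟩⟩,[.o ⟨false,0,⟨1,[(8,0),(4,0)]⟩,⟨7,[(2,1),(17,
  1),(1,0),(3,3),(4,1),(3,1),(7,2)]⟩⟩,.o ⟨false,1,⟨7,[(21,3),(0,0),(0,0),(11,1),(7,3)]⟩,⟨0,[(26,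
  0)]⟩⟩,.a ⟨true,0,⟨1,[(24,0),(8,0),(0,0)]⟩,⟨0,[(25,0)]⟩⟩ ⟨false,1,⟨19,[(2,3),(0,3),(18,0),(0,8),
  (14,11),(4,5)]⟩,⟨1,[(0,0),(3,0),(19,0),(1,0)]⟩⟩ ⟨true,0,⟨21,[(0,1),(2,1),(2,3),(1,1),(3,1),(8,7),
  (1,0),(1,19),(9,0)]⟩,⟨1,[(24,0),(1,0),(2,0)]⟩⟩,.o ⟨false,0,⟨1,[(24,0),(2,0),(2,0)]⟩,⟨1,[(25,1),(9,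
  0),(6,0)]⟩⟩]⟩) (.R ⟨1,false,false,false,[0,0,0,1],[0,1,1],[1,0,0,0,0,0,0,0,1],(⟨0,[(25,0)]⟩,⟨1,
  [(24,0),(8,0),(0,0)]⟩),(⟨0,[(34,0),(2,0)]⟩,⟨0,[(18,0)]⟩),⟨0,[(1,0)]⟩,.k,.k,(.r (-1) ⟨9,[(2,3),(0,
  3),(18,0),(0,3),(14,1),(4,0)]⟩ ⟨1,[(1,15),(1,0),(0,1),(1,2),(1,5),(2,1),(8,2),(3,8),(12,15),(5,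
  1)]⟩),(.r (-1) ⟨0,[(2,0)]⟩ ⟨1,[(11,0),(10,0),(9,0)]⟩),(.x 0 ⟨2,[(6,0),(11,2),(8,4),(2,0),(5,2)]⟩
  ⟨0,[(10,0)]⟩),.k,⟨true,1,⟨0,[(2,0)]⟩,⟨1,[(4,1),(3,0),(3,1),(11,0),(16,0)]⟩⟩,⟨false,1,⟨1,[(1,0),(4,
  0),(3,0),(7,0),(6,0),(16,0)]⟩,⟨1,[(24,0),(2,0),(3,0)]⟩⟩,⟨true,0,⟨0,[]⟩,⟨0,[(45,0)]⟩⟩,⟨true,0,⟨1,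
  [(4,1),(3,0),(4,0)]⟩,⟨0,[(0,0)]⟩⟩,⟨false,1,⟨5,[(13,1),(6,3),(14,0),(7,4)]⟩,⟨0,[(41,0)]⟩⟩,⟨true,0,
  ⟨2,[(4,2),(1,0),(4,0),(1,0),(28,0)]⟩,⟨0,[(0,0),(40,0)]⟩⟩,[.o ⟨false,0,⟨2,[(6,0),(4,0),(1,0),(28,
  0)]⟩,⟨3,[(2,1),(5,1),(13,0),(3,1),(4,1),(11,0)]⟩⟩,.o ⟨false,1,⟨2,[(13,1),(6,0),(14,0),(7,1)]⟩,⟨0,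
  [(8,0),(20,0)]⟩⟩,.a ⟨true,0,⟨1,[(24,0),(8,0),(0,0)]⟩,⟨0,[(25,0)]⟩⟩ ⟨false,1,⟨1,[(23,0),(19,0)]⟩,
  ⟨1,[(4,1),(3,0),(15,0),(16,0)]⟩⟩ ⟨true,0,⟨2,[(6,0),(4,0),(1,0),(11,2),(16,0)]⟩,⟨1,[(8,0),(15,0),
  (4,1),(11,0)]⟩⟩,.o ⟨false,0,⟨1,[(24,0),(2,0),(2,0)]⟩,⟨1,[(25,1),(9,0),(6,0)]⟩⟩]⟩))))) (.Q [0,0,0,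
  0,0,1,0,0,0,0,0,-1] (.p false [0,0,0,1] [] (⟨0,[(21,0)]⟩,⟨1,[(20,0),(8,0),(0,0)]⟩) .k 0 (⟨0,[]⟩,
  ⟨0,[]⟩) .k .k) (.R ⟨0,false,false,true,[0,0,0,1],[0,1],[1,1,1,1],(⟨0,[(22,0)]⟩,⟨1,[(21,0),(8,0),
  (0,0)]⟩),(⟨0,[(34,0)]⟩,⟨0,[(33,0)]⟩),⟨0,[(0,0)]⟩,.k,.k,(.x 0 ⟨2,[(3,0),(20,1),(2,0),(5,2)]⟩ ⟨5,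
  [(4,1),(2,1),(11,0),(0,0),(7,1),(10,1)]⟩),(.x 0 ⟨2,[(3,0),(20,1),(2,0),(5,2)]⟩ ⟨5,[(4,1),(2,1),
  (11,0),(0,0),(7,1),(10,1)]⟩),.k,.k,⟨true,0,⟨0,[]⟩,⟨1,[(27,0),(0,0)]⟩⟩,⟨false,1,⟨0,[(22,0),(16,
  0)]⟩,⟨1,[(21,0),(2,0),(2,0)]⟩⟩,⟨false,0,⟨0,[(2,0)]⟩,⟨1,[(1,1),(20,1),(16,0),(0,0)]⟩⟩,⟨true,0,⟨0,
  [(2,0),(19,0),(13,0)]⟩,⟨0,[(1,0)]⟩⟩,⟨false,0,⟨0,[]⟩,⟨0,[]⟩⟩,⟨false,0,⟨0,[]⟩,⟨0,[]⟩⟩,[.o ⟨false,0,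
  ⟨0,[(37,0)]⟩,⟨1,[(32,0),(5,1),(1,0)]⟩⟩,.o ⟨false,1,⟨11,[(10,3),(6,7),(1,2),(0,2),(11,1),(7,3)]⟩,
  ⟨0,[(5,0)]⟩⟩,.a ⟨true,0,⟨1,[(21,0),(8,0),(0,0)]⟩,⟨0,[(22,0)]⟩⟩ ⟨false,0,⟨5,[(8,0),(2,0),(5,1),(9,
  1),(12,0)]⟩,⟨1,[(38,1),(0,0),(0,0)]⟩⟩ ⟨true,0,⟨0,[(22,0),(14,0)]⟩,⟨1,[(5,0),(15,0),(16,0)]⟩⟩,.o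
  ⟨false,0,⟨1,[(21,0),(2,0),(2,0)]⟩,⟨1,[(22,1),(9,0),(6,0)]⟩⟩]⟩) (.Q [0,-1,0,0,1,0,-1,-1,-1,-1,1,1]
  (.p true [0,0,1] [1,0,0,-1] (⟨0,[(31,0)]⟩,⟨0,[(30,0)]⟩) .k 2 (⟨1,[(21,0),(8,0),(0,0)]⟩,⟨0,[(22,
  0)]⟩) .k (.r 0 ⟨1,[(1,1),(6,0),(13,1),(6,0),(9,0)]⟩ ⟨1,[(13,1),(5,0),(3,1),(16,0)]⟩)) (.R ⟨1,
  false,false,false,[0,0,0,1],[1,-1,-1],[0,0,0,-1,0,0,0,0,1],(⟨0,[(23,0)]⟩,⟨1,[(22,0),(8,0),(0,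
  0)]⟩),(⟨0,[(16,0)]⟩,⟨0,[(32,0),(2,0)]⟩),⟨0,[(1,0)]⟩,.k,.k,(.r (-1) ⟨1,[(21,0),(17,1),(0,0)]⟩ ⟨0,
  [(0,0),(0,4),(2,0),(1,0),(2,0),(12,2),(12,4),(1,0)]⟩),(.r 0 ⟨1,[(9,0),(11,0),(8,0)]⟩ ⟨1,[(0,1),(5,
  0),(7,1),(7,0),(14,1),(1,0)]⟩),.k,.k,⟨false,0,⟨1,[(2,1),(6,0),(13,1),(6,0),(9,0)]⟩,⟨3,[(0,3),(3,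
  0),(9,2),(7,1),(14,3)]⟩⟩,⟨true,0,⟨0,[(23,0),(1,0)]⟩,⟨3,[(4,0),(9,2),(7,1)]⟩⟩,⟨true,0,⟨0,[(39,0)]⟩,
  ⟨0,[(38,0)]⟩⟩,⟨false,1,⟨0,[(0,0),(38,0)]⟩,⟨0,[(2,0),(6,0),(4,0),(25,0)]⟩⟩,⟨false,1,⟨3,[(20,0),(0,
  0),(19,1)]⟩,⟨0,[]⟩⟩,⟨false,1,⟨0,[(0,0)]⟩,⟨0,[(2,0),(14,0)]⟩⟩,[.o ⟨false,1,⟨7,[(0,3),(1,3),(17,0),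
  (0,0),(5,3),(5,1),(5,3)]⟩,⟨2,[(4,0),(4,0),(1,0),(28,0)]⟩⟩,.o ⟨false,1,⟨0,[(0,0),(1,0)]⟩,⟨9,[(4,0),
  (4,0),(1,2),(14,2),(6,0),(3,1),(0,4)]⟩⟩,.a ⟨true,0,⟨1,[(22,0),(8,0),(0,0)]⟩,⟨0,[(23,0)]⟩⟩ ⟨true,0,
  ⟨0,[(2,0),(20,0)]⟩,⟨0,[(3,0),(33,0)]⟩⟩ ⟨false,1,⟨0,[(0,0),(1,0),(20,0)]⟩,⟨5,[(4,0),(4,0),(1,0),(5,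
  2),(4,2),(17,0)]⟩⟩,.o ⟨false,0,⟨1,[(22,0),(2,0),(2,0)]⟩,⟨1,[(23,1),(9,0),(6,0)]⟩⟩]⟩) (.Q [0,-1,0,
  0,1,0,0,0,-2,-1,0,2] (.p true [0,0,0,1] [1,0,0,-1] (⟨0,[(23,0)]⟩,⟨1,[(22,0),(8,0),(0,0)]⟩) .k 2
  (⟨1,[(22,0),(8,0),(0,0)]⟩,⟨0,[(23,0)]⟩) .k .k) (.R ⟨1,false,false,true,[1,0,0,-1],[0,0,0,1],[1,1,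
  0,0,0,0,0,0,-1],(⟨1,[(23,0),(8,0),(0,0)]⟩,⟨0,[(24,0)]⟩),(⟨0,[(24,0)]⟩,⟨1,[(23,0),(8,0),(0,0)]⟩),
  ⟨0,[(2,0),(20,0)]⟩,.k,.k,(.r (-1) ⟨1,[(21,0),(18,1),(0,0)]⟩ ⟨2,[(1,0),(3,0),(4,0),(8,1),(2,0),(1,
  0),(12,0),(4,0)]⟩),.k,(.r (-1) ⟨0,[(0,0),(22,0),(14,0),(1,0)]⟩ ⟨3,[(1,1),(1,3),(1,1),(4,1),(8,3),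
  (2,0),(1,5),(17,2)]⟩),.k,⟨false,1,⟨0,[(0,0),(22,0),(14,0)]⟩,⟨0,[(1,1),(22,1),(0,1),(16,1)]⟩⟩,
  ⟨true,0,⟨0,[(23,0)]⟩,⟨2,[(5,0),(18,5),(1,1),(2,0)]⟩⟩,⟨false,0,⟨0,[]⟩,⟨3,[(21,0),(0,0),(19,1)]⟩⟩,
  ⟨false,0,⟨0,[(1,0),(1,0),(15,0),(22,0)]⟩,⟨0,[(0,0)]⟩⟩,⟨true,0,⟨0,[(39,0)]⟩,⟨0,[(40,0)]⟩⟩,⟨false,0,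
  ⟨0,[(1,1),(17,0),(5,0),(16,1)]⟩,⟨0,[(0,0),(39,0)]⟩⟩,[.o ⟨false,0,⟨9,[(1,3),(20,2),(0,2),(1,4),(1,
  0),(6,0)]⟩,⟨3,[(0,1),(33,0),(7,0)]⟩⟩,.o ⟨false,0,⟨0,[(1,0),(23,0),(16,0)]⟩,⟨7,[(0,3),(20,0),(0,0),
  (11,1),(9,3)]⟩⟩,.a ⟨true,0,⟨0,[(24,0)]⟩,⟨1,[(23,0),(8,0),(0,0)]⟩⟩ ⟨true,0,⟨0,[(4,0),(33,0),(1,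
  0)]⟩,⟨0,[(1,0),(22,0),(0,0),(16,0)]⟩⟩ ⟨false,0,⟨1,[(1,0),(1,0),(15,0),(3,0),(18,0)]⟩,⟨3,[(0,1),
  (23,3),(9,0),(7,0)]⟩⟩,.o ⟨false,0,⟨2,[(5,0),(18,2),(1,1),(2,0)]⟩,⟨7,[(21,0),(0,0),(0,3),(10,1),(6,
  3)]⟩⟩]⟩) (.Q [0,0,0,-1,0,0,-1,-1,1,0,1,-1] (.p true [0,0,1] [0,0,0,1] (⟨0,[(33,0)]⟩,⟨0,[(32,0)]⟩)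
  .k 2 (⟨0,[(24,0)]⟩,⟨1,[(23,0),(8,0),(0,0)]⟩) .k (.x 0 ⟨1,[(5,0),(9,0),(17,1)]⟩ ⟨1,[(30,1),(1,1),
  (1,0),(6,0)]⟩)) (.R ⟨1,false,false,false,[0,0,0,1],[0,1,1],[1,1,0,0,0,0,0,0,1],(⟨0,[(25,0)]⟩,⟨1,
  [(24,0),(8,0),(0,0)]⟩),(⟨0,[(34,0),(2,0)]⟩,⟨0,[(18,0)]⟩),⟨0,[(3,0)]⟩,.k,.k,(.x 0 ⟨2,[(6,0),(20,1),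
  (2,0),(5,2)]⟩ ⟨5,[(7,1),(2,1),(11,0),(0,0),(7,1),(10,1)]⟩),(.r (-1) ⟨2,[(0,2),(2,1),(6,1),(7,1),
  (6,0),(4,0),(4,0)]⟩ ⟨1,[(11,0),(10,0),(9,0)]⟩),(.x 0 ⟨2,[(6,0),(11,2),(8,4),(2,0),(5,2)]⟩ ⟨0,[(10,
  0)]⟩),.k,⟨true,0,⟨1,[(0,1),(5,0),(9,0),(8,1),(13,1)]⟩,⟨1,[(12,1),(9,0),(20,0)]⟩⟩,⟨false,1,⟨1,[(3,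
  0),(2,0),(3,0),(7,0),(6,0),(16,0)]⟩,⟨1,[(24,0),(2,0),(3,0)]⟩⟩,⟨false,0,⟨0,[]⟩,⟨3,[(22,0),(0,0),
  (19,1)]⟩⟩,⟨false,1,⟨5,[(6,1),(4,1),(1,1),(8,2),(2,5),(16,1),(0,2)]⟩,⟨0,[(0,0)]⟩⟩,⟨true,0,⟨0,[(40,
  0)]⟩,⟨0,[(41,0)]⟩⟩,⟨false,1,⟨5,[(5,5),(0,1),(4,1),(1,1),(11,5),(16,4),(0,2)]⟩,⟨0,[(0,0),(40,0)]⟩⟩,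
  [.o ⟨false,0,⟨2,[(6,0),(4,0),(1,0),(28,0)]⟩,⟨1,[(0,1),(21,0),(2,1),(9,0)]⟩⟩,.o ⟨false,1,⟨2,[(13,
  1),(6,0),(14,0),(7,1)]⟩,⟨0,[(8,0),(20,0)]⟩⟩,.a ⟨true,0,⟨1,[(24,0),(8,0),(0,0)]⟩,⟨0,[(25,0)]⟩⟩
  ⟨false,0,⟨3,[(1,1),(23,3),(9,0),(7,0)]⟩,⟨1,[(22,0),(20,0)]⟩⟩ ⟨true,0,⟨2,[(6,0),(4,0),(1,0),(11,2),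
  (16,0)]⟩,⟨1,[(8,0),(15,0),(4,1),(11,0)]⟩⟩,.o ⟨false,0,⟨1,[(24,0),(2,0),(2,0)]⟩,⟨1,[(25,1),(9,0),
  (6,0)]⟩⟩]⟩) (.I [0,1,-1,-1,0,0,0,-1,1] (.R ⟨1,false,false,false,[0,0,0,1],[0,0,1],[0,1,0,-1,0,0,0,
  0,1],(⟨0,[(26,0)]⟩,⟨1,[(25,0),(8,0),(0,0)]⟩),(⟨0,[(35,0)]⟩,⟨0,[(34,0)]⟩),⟨0,[(4,0)]⟩,.k,.k,(.x 0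
  ⟨2,[(7,0),(20,1),(2,0),(5,2)]⟩ ⟨5,[(8,1),(2,1),(11,0),(0,0),(7,1),(10,1)]⟩),.k,(.r (-1) ⟨3,[(0,3),
  (22,0),(0,0),(19,1)]⟩ ⟨1,[(12,0),(10,0),(9,0)]⟩),.k,⟨false,0,⟨0,[(0,0)]⟩,⟨1,[(12,0),(10,0),(9,0),
  (9,0),(0,0)]⟩⟩,⟨true,0,⟨1,[(7,0),(9,0),(8,1)]⟩,⟨1,[(25,0),(2,0),(3,0)]⟩⟩,⟨false,0,⟨0,[(42,0)]⟩,⟨5,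
  [(14,1),(6,3),(14,0),(7,4)]⟩⟩,⟨true,0,⟨0,[(1,0),(40,0)]⟩,⟨2,[(2,0),(15,0),(8,0),(2,1)]⟩⟩,⟨true,0,
  ⟨0,[(46,0)]⟩,⟨0,[]⟩⟩,⟨true,0,⟨0,[(1,0)]⟩,⟨0,[(5,0),(24,0)]⟩⟩,[.o ⟨false,0,⟨1,[(9,0),(4,0)]⟩,⟨1,
  [(30,1),(5,0),(7,0)]⟩⟩,.o ⟨false,1,⟨7,[(22,3),(0,0),(0,0),(11,1),(7,3)]⟩,⟨0,[(27,0)]⟩⟩,.a ⟨true,0,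
  ⟨1,[(25,0),(8,0),(0,0)]⟩,⟨0,[(26,0)]⟩⟩ ⟨false,0,⟨0,[(5,0),(20,0)]⟩,⟨1,[(6,1),(36,0),(0,0)]⟩⟩
  ⟨true,0,⟨1,[(9,0),(4,0),(11,1)]⟩,⟨1,[(25,0),(1,0),(2,0)]⟩⟩,.o ⟨false,0,⟨1,[(25,0),(2,0),(2,0)]⟩,
  ⟨1,[(26,1),(9,0),(6,0)]⟩⟩]⟩) (.Q [0,0,-2,0,1,0,-1,0,0,1,1,-1] (.p true [1,-1,1] [0,0,0,1] (⟨0,
  [(35,0),(1,0)]⟩,⟨0,[(8,0)]⟩) .k 2 (⟨0,[(26,0)]⟩,⟨1,[(25,0),(8,0),(0,0)]⟩) .k (.r 0 ⟨0,[(0,0),(39,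
  0),(1,0)]⟩ ⟨1,[(17,1),(6,0),(2,1),(16,0)]⟩)) (.R ⟨1,false,false,true,[1,0,0,-1],[0,1,-1],[1,0,0,0,
  0,0,0,0,-1],(⟨1,[(26,0),(8,0),(0,0)]⟩,⟨0,[(27,0)]⟩),(⟨0,[(9,0)]⟩,⟨0,[(36,0),(1,0)]⟩),⟨0,[(5,0),
  (20,0)]⟩,.k,.k,(.r (-1) ⟨1,[(24,0),(18,1),(0,0)]⟩ ⟨21,[(3,3),(4,3),(4,7),(8,7),(2,6),(1,7),(4,3),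
  (7,1),(4,4)]⟩),(.r (-1) ⟨3,[(0,1),(9,2),(12,0),(0,1),(2,1),(6,1),(8,0)]⟩ ⟨7,[(3,3),(4,4),(4,0),(4,
  0),(3,8),(4,7),(4,2),(7,2),(4,4)]⟩),(.r (-1) ⟨0,[(0,0),(1,0),(7,0),(32,1)]⟩ ⟨21,[(3,9),(4,9),(4,
  8),(8,30),(2,0),(1,19),(4,20),(7,4),(4,17)]⟩),.k,⟨true,1,⟨0,[(0,0),(1,0),(7,0),(29,0)]⟩,⟨1,[(3,0),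
  (4,1),(5,0),(3,0),(3,2),(4,1),(12,1)]⟩⟩,⟨false,1,⟨0,[(0,0)]⟩,⟨2,[(8,1),(18,2),(1,0),(2,1)]⟩⟩,
  ⟨true,0,⟨0,[]⟩,⟨0,[(47,0)]⟩⟩,⟨true,0,⟨13,[(0,1),(2,5),(14,5),(3,13),(2,0),(7,3),(11,2)]⟩,⟨0,[(2,
  0),(7,0),(32,0)]⟩⟩,⟨false,1,⟨5,[(15,1),(6,3),(14,0),(7,4)]⟩,⟨0,[(43,0)]⟩⟩,⟨true,0,⟨1,[(3,0),(17,
  0),(0,2),(22,0)]⟩,⟨0,[(2,0),(7,0),(32,1)]⟩⟩,[.o ⟨false,0,⟨0,[(22,0)]⟩,⟨1,[(10,0),(12,0),(13,0),(5,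
  0),(1,0)]⟩⟩,.o ⟨false,1,⟨3,[(22,3),(1,0),(0,0),(19,1)]⟩,⟨1,[(10,2),(4,0)]⟩⟩,.a ⟨true,0,⟨0,[(27,
  0)]⟩,⟨1,[(26,0),(8,0),(0,0)]⟩⟩ ⟨false,1,⟨1,[(24,0),(20,0)]⟩,⟨3,[(3,1),(23,3),(9,0),(7,0)]⟩⟩ ⟨true,
  0,⟨1,[(22,1),(3,0),(8,0),(0,0)]⟩,⟨1,[(10,2),(4,0),(11,1)]⟩⟩,.o ⟨false,0,⟨2,[(8,0),(18,2),(1,1),(2,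
  0)]⟩,⟨7,[(24,0),(0,0),(0,3),(10,1),(6,3)]⟩⟩]⟩) (.Q [0,0,-2,0,1,0,-1,0,0,1,1] (.p true [1,-1,1] []
  (⟨0,[(36,0),(1,0)]⟩,⟨0,[(9,0)]⟩) .k 0 (⟨0,[]⟩,⟨0,[]⟩) .k .k) (.K ⟨0,[0,1,-1],1,0,(⟨0,[(10,0)]⟩,⟨0,
  [(37,0),(1,0)]⟩),.k,.k,(.r 0 ⟨12,[(1,3),(2,1),(3,3),(0,0),(4,2),(4,2),(3,15),(9,7),(12,8)]⟩ ⟨1,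
  [(0,1),(10,2),(12,0),(19,0)]⟩),.k,.k,[⟨1,[(1,1),(25,0),(8,0),(0,0)]⟩,⟨0,[(0,0)]⟩,⟨0,[(31,0),(12,
  0)]⟩,⟨0,[(23,0)]⟩]⟩) (.K ⟨2,[1,-1,1],(-1),0,(⟨0,[(37,0),(1,0)]⟩,⟨0,[(10,0)]⟩),.k,(.r (-1) ⟨0,[(35,
  0),(8,1),(0,0)]⟩ ⟨2,[(0,0),(13,0),(4,0),(3,3),(9,1),(12,1)]⟩),.k,.k,.k,[⟨0,[(11,0)]⟩,⟨0,[(23,0),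
  (12,0),(0,0)]⟩,⟨5,[(13,1),(11,0),(0,0),(7,7),(1,1),(2,3),(5,1)]⟩,⟨0,[(0,0)]⟩]⟩))))))))))) (.Q [0,
  -1,0,-1,0,0,1,1,0,1,-1] (.p false [0,0,1] [1] (⟨0,[(27,0)]⟩,⟨0,[(26,0)]⟩) .k 1 (⟨0,[]⟩,⟨0,[]⟩) .k
  .k) (.R ⟨2,true,false,true,[0,1],[1,1,-1],[1,1,1,1],(⟨0,[]⟩,⟨0,[]⟩),(⟨0,[(27,0),(3,0)]⟩,⟨0,[(1,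
  0)]⟩),⟨0,[]⟩,.k,.k,.k,.k,.k,.k,⟨true,0,⟨0,[(26,0)]⟩,⟨0,[(3,0),(10,0),(17,0)]⟩⟩,⟨false,1,⟨0,[(21,
  0),(14,0)]⟩,⟨0,[(10,0)]⟩⟩,⟨false,0,⟨0,[]⟩,⟨3,[(16,0),(0,0),(19,1)]⟩⟩,⟨true,0,⟨0,[(20,0)]⟩,⟨2,[(0,
  0),(12,0),(1,0),(7,0)]⟩⟩,⟨true,0,⟨0,[(34,0)]⟩,⟨0,[(35,0)]⟩⟩,⟨false,1,⟨1,[(14,1),(14,0),(7,0)]⟩,⟨0,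
  [(0,0)]⟩⟩,[]⟩) (.Q [0,0,0,-1,0,0,-1,-1,-1,-1,1,1] (.p true [0,0,1] [1,0,0,-1] (⟨0,[(28,0)]⟩,⟨0,
  [(27,0)]⟩) .k 2 (⟨1,[(18,0),(8,0),(0,0)]⟩,⟨0,[(19,0)]⟩) .k (.x 0 ⟨0,[(3,0),(24,0)]⟩ ⟨1,[(25,1),(1,
  1),(1,0),(6,0)]⟩)) (.R ⟨1,false,false,false,[1,0,0,-1],[0,1,1],[1,1,0,0,0,0,0,0,-1],(⟨1,[(19,0),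
  (8,0),(0,0)]⟩,⟨0,[(20,0)]⟩),(⟨0,[(29,0),(2,0)]⟩,⟨0,[(13,0)]⟩),⟨1,[(2,0),(10,0),(5,0)]⟩,.k,.k,(.x
  0 ⟨1,[(2,0),(10,0),(8,0),(2,0)]⟩ ⟨3,[(5,1),(20,1),(1,1),(1,0),(6,0)]⟩),(.r (-1) ⟨7,[(0,7),(10,7),
  (5,0),(0,0),(0,3),(10,1),(6,3)]⟩ ⟨1,[(6,0),(11,0),(8,0)]⟩),(.x 0 ⟨1,[(2,0),(10,2),(8,2),(2,0)]⟩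
  ⟨0,[(5,0)]⟩),.k,⟨true,0,⟨1,[(0,1),(3,0),(6,0),(7,0),(14,1)]⟩,⟨1,[(7,1),(10,0),(19,0)]⟩⟩,⟨false,1,
  ⟨1,[(4,0),(6,0),(7,0),(17,1)]⟩,⟨0,[(20,0),(1,0)]⟩⟩,⟨false,0,⟨0,[]⟩,⟨3,[(17,0),(0,0),(19,1)]⟩⟩,
  ⟨false,1,⟨0,[(12,0),(1,0)]⟩,⟨0,[(0,0)]⟩⟩,⟨true,0,⟨0,[(35,0)]⟩,⟨0,[(36,0)]⟩⟩,⟨false,1,⟨0,[(6,0),(4,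
  0),(0,0),(24,0)]⟩,⟨0,[(0,0),(35,0)]⟩⟩,[.o ⟨false,0,⟨3,[(3,0),(0,1),(1,1),(1,0),(28,1)]⟩,⟨7,[(0,7),
  (16,0),(0,4),(0,3),(10,1)]⟩⟩,.o ⟨false,1,⟨2,[(8,1),(6,0),(14,0),(7,1)]⟩,⟨0,[(3,0),(20,0)]⟩⟩,.a
  ⟨true,0,⟨0,[(20,0)]⟩,⟨1,[(19,0),(8,0),(0,0)]⟩⟩ ⟨false,0,⟨3,[(0,3),(3,0),(1,0),(1,0),(5,0),(4,1),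
  (17,0)]⟩,⟨1,[(18,0),(19,0)]⟩⟩ ⟨true,0,⟨3,[(4,0),(1,0),(1,0),(5,0),(4,1),(17,0)]⟩,⟨0,[(3,0),(16,0),
  (3,0)]⟩⟩,.o ⟨false,0,⟨5,[(0,1),(2,1),(2,1),(11,0),(1,3),(4,1),(4,0)]⟩,⟨7,[(17,0),(0,0),(0,3),(10,
  1),(6,3)]⟩⟩]⟩) (.Q [0,0,0,0,0,0,-1,-1,1,0,1,-1] (.p true [0,0,1] [0,0,0,1] (⟨0,[(29,0)]⟩,⟨0,[(28,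
  0)]⟩) .k 2 (⟨0,[(20,0)]⟩,⟨1,[(19,0),(8,0),(0,0)]⟩) .k (.x 0 ⟨0,[(4,0),(24,0)]⟩ ⟨1,[(26,1),(1,1),
  (1,0),(6,0)]⟩)) (.R ⟨1,false,false,true,[1,0,0,-1],[1,-1,-1],[1,0,0,0,0,0,0,0,-1],(⟨1,[(20,0),(8,
  0),(0,0)]⟩,⟨0,[(21,0)]⟩),(⟨0,[(14,0)]⟩,⟨0,[(30,0),(2,0)]⟩),⟨1,[(3,0),(10,0),(5,0)]⟩,.k,.k,(.r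
  (-1) ⟨1,[(18,0),(18,1),(0,0)]⟩ ⟨13,[(0,3),(4,3),(1,5),(8,1),(2,4),(1,3),(4,1),(12,0)]⟩),(.r 0 ⟨1,
  [(7,0),(10,0),(9,0)]⟩ ⟨3,[(0,1),(3,3),(7,3),(6,0),(1,1),(3,1),(12,1),(0,0)]⟩),.k,.k,⟨false,1,⟨1,
  [(7,0),(10,0),(9,0),(9,0),(0,0)]⟩,⟨0,[(0,0),(3,0),(7,0),(8,0),(13,0)]⟩⟩,⟨true,0,⟨1,[(20,0),(2,0),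
  (3,0)]⟩,⟨0,[(5,0),(15,0)]⟩⟩,⟨true,0,⟨0,[]⟩,⟨0,[(41,0)]⟩⟩,⟨false,0,⟨0,[(0,0),(36,0)]⟩,⟨3,[(4,0),(0,
  1),(1,1),(1,0),(8,1),(2,3),(16,1),(0,1)]⟩⟩,⟨false,1,⟨5,[(9,1),(6,3),(14,0),(7,4)]⟩,⟨0,[(37,0)]⟩⟩,
  ⟨false,0,⟨0,[(0,0)]⟩,⟨1,[(4,0),(4,0),(8,0),(2,1),(17,0)]⟩⟩,[.o ⟨false,0,⟨0,[(4,0),(20,0)]⟩,⟨2,[(9,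
  1),(6,0),(14,0),(7,1)]⟩⟩,.o ⟨false,1,⟨1,[(25,1),(5,0),(5,1),(1,0)]⟩,⟨3,[(4,0),(0,1),(1,1),(1,0),
  (28,1)]⟩⟩,.a ⟨true,0,⟨0,[(21,0)]⟩,⟨1,[(20,0),(8,0),(0,0)]⟩⟩ ⟨false,1,⟨1,[(18,0),(20,0)]⟩,⟨1,[(0,
  0),(0,0),(2,0),(16,1)]⟩⟩ ⟨true,0,⟨1,[(4,0),(15,0),(4,1),(11,0)]⟩,⟨3,[(4,0),(0,1),(1,1),(1,0),(11,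
  3),(16,1)]⟩⟩,.o ⟨false,0,⟨3,[(4,0),(2,0),(13,3),(0,0),(3,0),(4,0),(2,0)]⟩,⟨7,[(18,0),(0,0),(0,3),
  (10,1),(6,3)]⟩⟩]⟩) (.I [0,-1,-1,-1,1,0,0,-1,-1] (.R ⟨1,false,false,true,[1,0,0,-1],[0,0,1],[0,0,0,
  -1,0,0,0,0,-1],(⟨1,[(21,0),(8,0),(0,0)]⟩,⟨0,[(22,0)]⟩),(⟨0,[(31,0)]⟩,⟨0,[(30,0)]⟩),⟨1,[(4,0),(10,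
  0),(5,0)]⟩,.k,.k,(.r (-1) ⟨1,[(19,0),(18,1),(0,0)]⟩ ⟨0,[(2,0),(0,0),(18,0),(12,0)]⟩),.k,(.r (-1)
  ⟨0,[(0,0),(41,0)]⟩ ⟨1,[(8,0),(11,0),(8,0)]⟩),.k,⟨false,1,⟨0,[(0,0)]⟩,⟨1,[(8,0),(11,0),(8,0),(6,
  1)]⟩⟩,⟨true,0,⟨1,[(6,0),(6,0),(7,0)]⟩,⟨0,[(22,0),(1,0)]⟩⟩,⟨true,0,⟨0,[(38,0)]⟩,⟨0,[(37,0)]⟩⟩,
  ⟨false,0,⟨0,[(2,0),(35,0)]⟩,⟨5,[(0,5),(2,1),(4,1),(13,5),(1,3),(14,0),(0,0)]⟩⟩,⟨false,1,⟨3,[(19,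
  0),(0,0),(19,1)]⟩,⟨0,[]⟩⟩,⟨false,0,⟨0,[(2,0)]⟩,⟨0,[(0,0),(21,0),(1,0)]⟩⟩,[.o ⟨false,0,⟨0,[(25,
  0)]⟩,⟨0,[(23,0),(16,0)]⟩⟩,.o ⟨false,0,⟨1,[(5,0),(4,0)]⟩,⟨5,[(0,1),(16,1),(2,0),(2,1),(4,1),(3,1),
  (7,0)]⟩⟩,.a ⟨true,0,⟨0,[(22,0)]⟩,⟨1,[(21,0),(8,0),(0,0)]⟩⟩ ⟨true,0,⟨0,[(0,0),(8,0),(26,0),(1,0)]⟩,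
  ⟨0,[(2,0),(19,0),(0,0)]⟩⟩ ⟨false,0,⟨1,[(18,0),(2,0)]⟩,⟨0,[(22,0),(0,0),(16,0)]⟩⟩,.o ⟨false,0,⟨3,
  [(5,0),(2,0),(13,3),(0,0),(3,0),(4,0),(2,0)]⟩,⟨7,[(19,0),(0,0),(0,3),(10,1),(6,3)]⟩⟩]⟩) (.Q [0,0,
  -2,0,1,0,-1,0,0,0,1] (.p true [0,0,1] [] (⟨0,[(31,0)]⟩,⟨0,[(30,0)]⟩) .k 0 (⟨0,[]⟩,⟨0,[]⟩) .k .k)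
  (.Q [0,0,2,0,-1,0,1,0,0,1,-1] (.p false [0,0,1] [1] (⟨0,[(32,0)]⟩,⟨0,[(31,0)]⟩) .k 1 (⟨0,[]⟩,⟨0,
  []⟩) .k .k) (.K ⟨0,[1,1,-1],1,0,(⟨0,[(32,0),(3,0)]⟩,⟨0,[(6,0)]⟩),.k,.k,(.r 0 ⟨2,[(0,0),(4,0),(2,
  0),(1,0),(8,2),(9,1),(12,1)]⟩ ⟨1,[(1,1),(5,0),(12,0),(19,2)]⟩),.k,.k,[⟨0,[(0,0)]⟩,⟨0,[(1,0)]⟩,⟨0,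
  [(20,0),(7,0),(11,0)]⟩,⟨0,[(5,0)]⟩]⟩) (.I [0,-1,-1,-1,1,0,0,0,-1] (.Q [0,0,0,0,0,1,0,0,0,0,0,-1]
  (.p false [0,0,0,1] [] (⟨0,[(25,0)]⟩,⟨1,[(24,0),(8,0),(0,0)]⟩) .k 0 (⟨0,[]⟩,⟨0,[]⟩) .k .k) (.R ⟨0,
  false,false,false,[0,0,0,1],[1,-1,-1],[0,0,-1,-1,0,0,0,-1],(⟨0,[(26,0)]⟩,⟨1,[(25,0),(8,0),(0,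
  0)]⟩),(⟨0,[(19,0)]⟩,⟨0,[(35,0),(2,0)]⟩),⟨0,[(0,0)]⟩,.k,.k,(.r (-1) ⟨1,[(24,0),(17,1),(0,0)]⟩ ⟨3,
  [(1,1),(3,1),(1,0),(2,1),(1,1),(8,2),(3,0),(13,1)]⟩),(.r 0 ⟨3,[(4,1),(10,0),(8,0),(8,0),(10,0)]⟩
  ⟨0,[(1,0),(15,0),(9,0)]⟩),.k,.k,⟨false,1,⟨3,[(23,0),(0,0),(18,1)]⟩,⟨0,[]⟩⟩,⟨true,0,⟨0,[(26,0),(1,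
  0)]⟩,⟨1,[(10,0),(6,0),(7,0)]⟩⟩,⟨true,1,⟨0,[(1,0),(15,0),(9,0)]⟩,⟨0,[(4,0)]⟩⟩,⟨false,1,⟨0,[(1,0),
  (5,0),(18,0),(12,0)]⟩,⟨0,[(6,0)]⟩⟩,⟨false,0,⟨0,[]⟩,⟨0,[]⟩⟩,⟨false,0,⟨0,[]⟩,⟨0,[]⟩⟩,[.o ⟨false,1,
  ⟨3,[(1,1),(22,0),(2,1),(2,1),(5,0),(2,1)]⟩,⟨2,[(2,0),(7,1),(1,0),(1,0)]⟩⟩,.o ⟨false,1,⟨0,[(9,0),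
  (20,0),(13,0)]⟩,⟨1,[(7,0),(6,0),(14,0)]⟩⟩,.a ⟨true,0,⟨1,[(25,0),(8,0),(0,0)]⟩,⟨0,[(26,0)]⟩⟩ ⟨true,
  1,⟨1,[(9,1),(7,1),(12,1),(12,0),(0,0)]⟩,⟨0,[(13,0),(26,0)]⟩⟩ ⟨false,1,⟨0,[(9,0),(16,0),(3,0),(13,
  0)]⟩,⟨3,[(10,0),(1,0),(1,0),(5,0),(4,1),(17,0)]⟩⟩,.o ⟨false,0,⟨1,[(25,0),(2,0),(2,0)]⟩,⟨1,[(26,1),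
  (9,0),(6,0)]⟩⟩]⟩) (.I [0,0,0,0,0,0,0,0,-1] (.Q [0,1,0,-1,0,0,-1,-1,1,0,1,-1] (.p true [0,0,1] [0,
  0,0,1] (⟨0,[(36,0)]⟩,⟨0,[(35,0)]⟩) .k 2 (⟨0,[(27,0)]⟩,⟨1,[(26,0),(8,0),(0,0)]⟩) .k (.r 0 ⟨0,[(0,
  0),(33,0)]⟩ ⟨1,[(18,1),(6,0),(2,1),(16,0)]⟩)) (.R ⟨1,false,false,false,[0,0,0,1],[0,1,1],[1,0,0,0,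
  0,0,0,0,1],(⟨0,[(28,0)]⟩,⟨1,[(27,0),(8,0),(0,0)]⟩),(⟨0,[(37,0),(2,0)]⟩,⟨0,[(21,0)]⟩),⟨0,[(2,0)]⟩,
  .k,.k,(.r (-1) ⟨1,[(26,0),(17,1),(0,0)]⟩ ⟨5,[(1,3),(12,1),(8,1),(1,0),(7,1),(12,0)]⟩),(.r (-1) ⟨1,
  [(0,1),(11,1),(15,1),(16,0),(0,0)]⟩ ⟨1,[(14,0),(10,0),(9,0)]⟩),(.x 0 ⟨1,[(10,0),(10,2),(8,2),(2,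
  0)]⟩ ⟨0,[(13,0)]⟩),.k,⟨true,1,⟨1,[(0,1),(11,1),(15,1),(16,0),(0,0)]⟩,⟨0,[(1,0),(13,0)]⟩⟩,⟨false,1,
  ⟨0,[(12,0),(15,0),(16,0)]⟩,⟨1,[(27,0),(2,0),(3,0)]⟩⟩,⟨true,0,⟨0,[]⟩,⟨0,[(48,0)]⟩⟩,⟨true,0,⟨1,[(1,
  0),(5,0),(4,0),(1,0),(13,0),(16,0)]⟩,⟨0,[(0,0)]⟩⟩,⟨false,1,⟨5,[(16,1),(6,3),(14,0),(7,4)]⟩,⟨0,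
  [(44,0)]⟩⟩,⟨true,0,⟨0,[(1,0),(10,0),(1,0),(13,0),(16,0)]⟩,⟨0,[(0,0),(43,0)]⟩⟩,[.o ⟨false,0,⟨2,[(4,
  0),(7,1),(1,0),(1,0)]⟩,⟨3,[(3,1),(22,0),(2,1),(2,1),(5,0),(2,1)]⟩⟩,.o ⟨false,1,⟨2,[(16,1),(6,0),
  (14,0),(7,1)]⟩,⟨0,[(11,0),(20,0)]⟩⟩,.a ⟨true,0,⟨1,[(27,0),(8,0),(0,0)]⟩,⟨0,[(28,0)]⟩⟩ ⟨false,1,⟨1,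
  [(26,0),(19,0)]⟩,⟨0,[(1,0)]⟩⟩ ⟨true,0,⟨2,[(4,0),(7,1),(1,0),(1,0),(11,2)]⟩,⟨0,[(0,0),(0,0)]⟩⟩,.o
  ⟨false,0,⟨1,[(27,0),(2,0),(2,0)]⟩,⟨1,[(28,1),(9,0),(6,0)]⟩⟩]⟩) (.R ⟨1,false,false,false,[0,0,0,1],
  [1,1,-1],[1,1,0,0,0,0,0,0,1],(⟨0,[(28,0)]⟩,⟨1,[(27,0),(8,0),(0,0)]⟩),(⟨0,[(36,0),(3,0)]⟩,⟨0,[(10,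
  0)]⟩),⟨0,[(2,0)]⟩,.k,.k,(.r (-1) ⟨1,[(26,0),(17,1),(0,0)]⟩ ⟨5,[(1,3),(12,1),(8,1),(1,0),(7,1),(12,
  0)]⟩),(.r (-1) ⟨3,[(4,0),(0,0),(18,0),(1,1),(8,1),(8,3)]⟩ ⟨3,[(0,1),(0,1),(7,0),(2,3),(10,4),(3,
  0),(13,3)]⟩),(.r (-1) ⟨0,[(4,0),(3,0),(19,0),(15,2)]⟩ ⟨1,[(1,1),(10,1),(1,0),(8,2),(9,0),(7,0),(4,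
  0)]⟩),.k,⟨true,0,⟨0,[(6,0),(37,1),(0,0)]⟩,⟨1,[(0,1),(8,0),(2,1),(10,2),(3,0),(13,3)]⟩⟩,⟨false,1,
  ⟨0,[(4,0),(23,0)]⟩,⟨3,[(19,1),(7,1),(5,2),(0,0)]⟩⟩,⟨false,0,⟨0,[]⟩,⟨3,[(25,0),(0,0),(19,1)]⟩⟩,
  ⟨false,1,⟨0,[(1,0),(7,0),(18,0),(17,0)]⟩,⟨0,[(8,0),(35,1)]⟩⟩,⟨true,0,⟨0,[(43,0)]⟩,⟨0,[(44,0)]⟩⟩,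
  ⟨false,1,⟨1,[(0,0),(0,0),(7,1),(13,0),(4,0),(17,1)]⟩,⟨0,[(8,0),(35,2)]⟩⟩,[.o ⟨false,1,⟨1,[(23,1),
  (14,0),(7,0)]⟩,⟨1,[(11,0),(12,0),(19,0)]⟩⟩,.o ⟨false,1,⟨0,[(9,0),(36,0)]⟩,⟨0,[(31,0),(12,0)]⟩⟩,.a
  ⟨true,0,⟨1,[(27,0),(8,0),(0,0)]⟩,⟨0,[(28,0)]⟩⟩ ⟨true,0,⟨2,[(6,0),(4,0),(7,0),(6,0),(5,0),(9,0)]⟩,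
  ⟨0,[(1,0)]⟩⟩ ⟨false,1,⟨0,[(9,0),(18,0),(17,0)]⟩,⟨1,[(24,0),(2,0),(16,1)]⟩⟩,.o ⟨false,0,⟨1,[(27,0),
  (2,0),(2,0)]⟩,⟨1,[(28,1),(9,0),(6,0)]⟩⟩]⟩)) (.Q [0,0,0,1,0,0,0,0,1,1,0,-1] (.p false [0,0,0,1]
  [1] (⟨0,[(27,0)]⟩,⟨1,[(26,0),(8,0),(0,0)]⟩) .k 1 (⟨0,[]⟩,⟨0,[]⟩) .k .k) (.R ⟨1,false,false,false,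
  [0,0,0,1],[1,-1],[1,1,0,0,0,0,0,0,1],(⟨0,[(28,0)]⟩,⟨1,[(27,0),(8,0),(0,0)]⟩),(⟨0,[(39,0)]⟩,⟨0,
  [(40,0)]⟩),⟨0,[(2,0)]⟩,.k,.k,(.r (-1) ⟨1,[(26,0),(17,1),(0,0)]⟩ ⟨3,[(3,1),(3,1),(1,0),(2,1),(1,1),
  (8,2),(3,0),(13,1)]⟩),(.r 0 ⟨5,[(1,3),(12,1),(8,1),(2,0),(6,1),(12,0)]⟩ ⟨0,[(3,0),(44,0)]⟩),.k,.k,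
  ⟨false,0,⟨0,[(1,0),(41,0)]⟩,⟨0,[(3,0)]⟩⟩,⟨true,0,⟨3,[(11,0),(2,0),(13,3),(0,0),(3,0),(4,0),(2,
  0)]⟩,⟨1,[(27,0),(8,0),(0,0)]⟩⟩,⟨false,0,⟨0,[]⟩,⟨3,[(25,0),(0,0),(19,1)]⟩⟩,⟨false,1,⟨2,[(3,1),(3,
  0),(1,0),(18,1),(9,0),(2,1)]⟩,⟨0,[(0,0)]⟩⟩,⟨true,0,⟨0,[(43,0)]⟩,⟨0,[(44,0)]⟩⟩,⟨false,1,⟨5,[(3,1),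
  (3,3),(1,3),(18,1),(9,0),(2,1),(4,2)]⟩,⟨0,[(0,0),(43,0)]⟩⟩,[.o ⟨false,0,⟨0,[(11,0)]⟩,⟨11,[(16,3),
  (6,7),(1,2),(0,2),(11,1),(7,3)]⟩⟩,.o ⟨false,1,⟨5,[(3,1),(7,1),(14,0),(11,1),(2,1),(4,0)]⟩,⟨0,[(43,
  0)]⟩⟩,.a ⟨true,0,⟨1,[(27,0),(8,0),(0,0)]⟩,⟨0,[(28,0)]⟩⟩ ⟨false,0,⟨0,[(1,0)]⟩,⟨1,[(25,0),(20,0)]⟩⟩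
  ⟨true,0,⟨0,[(11,0),(16,0)]⟩,⟨1,[(23,1),(0,0),(2,0)]⟩⟩,.o ⟨false,0,⟨1,[(27,0),(2,0),(2,0)]⟩,⟨1,
  [(28,1),(9,0),(6,0)]⟩⟩]⟩) (.R ⟨2,true,false,false,[0,1],[1,0,0,-1],[1,1,1,1],(⟨0,[]⟩,⟨0,[]⟩),(⟨1,
  [(27,0),(8,0),(0,0)]⟩,⟨0,[(28,0)]⟩),⟨0,[]⟩,.k,.k,.k,(.r 0 ⟨5,[(1,3),(12,1),(8,1),(2,0),(6,1),(12,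
  0)]⟩ ⟨0,[(3,0),(44,0)]⟩),.k,.k,⟨false,0,⟨0,[(1,0),(41,0)]⟩,⟨0,[(3,0)]⟩⟩,⟨true,0,⟨3,[(11,0),(2,0),
  (13,3),(0,0),(3,0),(4,0),(2,0)]⟩,⟨1,[(27,0),(8,0),(0,0)]⟩⟩,⟨false,0,⟨0,[]⟩,⟨3,[(25,0),(0,0),(19,
  1)]⟩⟩,⟨true,0,⟨0,[(0,0)]⟩,⟨0,[(8,0),(23,0)]⟩⟩,⟨true,0,⟨0,[(43,0)]⟩,⟨0,[(44,0)]⟩⟩,⟨false,1,⟨5,[(0,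
  1),(6,1),(1,1),(15,0),(2,1),(9,0),(7,3)]⟩,⟨1,[(1,1),(25,0),(8,0),(0,0)]⟩⟩,[]⟩)))) (.R ⟨1,false,
  false,true,[1,0,0,-1],[1,1,-1],[1,0,0,0,0,0,0,0,-1],(⟨1,[(24,0),(8,0),(0,0)]⟩,⟨0,[(25,0)]⟩),(⟨0,
  [(33,0),(3,0)]⟩,⟨0,[(7,0)]⟩),⟨1,[(7,0),(10,0),(5,0)]⟩,.k,.k,(.r (-1) ⟨1,[(22,0),(18,1),(0,0)]⟩
  ⟨13,[(0,7),(13,1),(5,1),(2,2),(6,1),(12,4)]⟩),(.r (-1) ⟨3,[(1,0),(0,0),(18,0),(0,1),(9,1),(8,3)]⟩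
  ⟨0,[(0,0),(15,0),(9,0),(16,0)]⟩),(.r (-1) ⟨1,[(1,0),(0,0),(1,1),(19,0),(16,3)]⟩ ⟨0,[(0,0),(19,0),
  (9,0),(12,0)]⟩),.k,⟨true,1,⟨1,[(1,0),(0,0),(1,1),(19,0),(13,1)]⟩,⟨0,[(0,0),(8,0),(10,0),(17,0)]⟩⟩,
  ⟨false,1,⟨1,[(1,0),(0,0),(21,0)]⟩,⟨0,[(25,0),(4,0)]⟩⟩,⟨true,0,⟨0,[]⟩,⟨0,[(45,0)]⟩⟩,⟨true,0,⟨1,[(0,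
  1),(23,0),(1,0),(2,0),(12,0),(0,0)]⟩,⟨0,[(4,0),(36,0)]⟩⟩,⟨false,1,⟨5,[(13,1),(6,3),(14,0),(7,4)]⟩,
  ⟨0,[(41,0)]⟩⟩,⟨true,0,⟨1,[(0,1),(5,0),(13,0),(3,0),(17,0),(0,0)]⟩,⟨0,[(4,0),(36,1)]⟩⟩,[.o ⟨false,
  0,⟨0,[(6,0)]⟩,⟨7,[(21,3),(0,0),(0,0),(11,1),(5,7),(1,3)]⟩⟩,.o ⟨false,1,⟨1,[(20,1),(14,0),(7,0)]⟩,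
  ⟨1,[(8,0),(12,0),(19,0)]⟩⟩,.a ⟨true,0,⟨0,[(25,0)]⟩,⟨1,[(24,0),(8,0),(0,0)]⟩⟩ ⟨false,1,⟨1,[(22,0),
  (20,0)]⟩,⟨1,[(0,1),(40,1),(0,0),(0,0)]⟩⟩ ⟨true,0,⟨1,[(6,0),(13,0),(3,0)]⟩,⟨1,[(8,0),(12,0),(3,1),
  (15,0)]⟩⟩,.o ⟨false,0,⟨3,[(8,0),(2,0),(13,3),(0,0),(3,0),(4,0),(2,0)]⟩,⟨7,[(22,0),(0,0),(0,3),(10,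
  1),(6,3)]⟩⟩]⟩))) (.K ⟨2,[0,-1,1],(-1),0,(⟨0,[(5,0)]⟩,⟨0,[(31,0),(3,0)]⟩),.k,(.r (-1) ⟨0,[(30,0),
  (8,1),(0,0)]⟩ ⟨2,[(0,0),(6,0),(1,0),(8,3),(9,1),(12,1)]⟩),.k,.k,.k,[⟨0,[(39,0)]⟩,⟨0,[(18,0)]⟩,⟨3,
  [(20,0),(0,0),(7,3),(10,1)]⟩,⟨0,[(0,0)]⟩]⟩))))))))) (.I [0,0,2,2,-1,0,0,1] (.K ⟨0,[1,-1,-1],0,0,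
  (⟨0,[(9,0)]⟩,⟨0,[(25,0),(2,0)]⟩),.k,(.r (-2) ⟨1,[(7,1),(12,1),(5,0),(5,3),(0,1),(0,0)]⟩ ⟨0,[(0,
  0)]⟩),.k,.k,.k,[⟨0,[(7,0)]⟩,⟨0,[(1,0),(23,0),(2,1),(4,0)]⟩,⟨0,[(11,0),(0,0)]⟩,⟨0,[(17,0),(14,
  0)]⟩]⟩) (.I [0,0,2,0,-1,-2,-1] (.K ⟨0,[1,-1,-1],0,0,(⟨0,[(10,0)]⟩,⟨0,[(26,0),(2,0)]⟩),.k,(.x 1 ⟨0,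
  [(0,0)]⟩ ⟨3,[(8,3),(5,0),(0,0),(10,3),(0,1),(1,7),(4,3)]⟩),.k,.k,.k,[⟨0,[(8,0)]⟩,⟨0,[(2,0),(23,0),
  (2,1),(4,0)]⟩,⟨0,[(12,0),(0,0)]⟩,⟨0,[(18,0),(14,0)]⟩]⟩) (.Q [0,0,0,0,0,1,0,0,0,0,-1] (.ed true [1,
  -1,1] .k) (.Q [0,0,0,1,0,0,1,0,0,1,-1] (.p false [0,0,1] [1] (⟨0,[(27,0)]⟩,⟨0,[(26,0)]⟩) .k 1 (⟨0,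
  []⟩,⟨0,[]⟩) .k .k) (.R ⟨0,false,false,false,[0,0,1],[1,-1],[0,1],(⟨0,[(28,0)]⟩,⟨0,[(27,0)]⟩),(⟨0,
  [(30,0)]⟩,⟨0,[(31,0)]⟩),⟨0,[(1,0)]⟩,.k,.k,.k,.k,.k,.k,⟨false,0,⟨0,[(34,0)]⟩,⟨1,[(3,0),(22,0),(10,
  0)]⟩⟩,⟨true,0,⟨0,[(21,0)]⟩,⟨0,[(10,0)]⟩⟩,⟨true,0,⟨0,[(10,0),(9,0)]⟩,⟨0,[(26,0)]⟩⟩,⟨false,1,⟨2,[(3,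
  0),(16,1),(0,0),(10,0),(4,1)]⟩,⟨0,[(13,0)]⟩⟩,⟨false,0,⟨0,[]⟩,⟨0,[]⟩⟩,⟨false,0,⟨0,[]⟩,⟨0,[]⟩⟩,[.e
  ⟨false,0,⟨0,[(33,0)]⟩,⟨3,[(16,0),(0,0),(19,1)]⟩⟩ ⟨false,1,⟨1,[(3,0),(17,1),(4,0),(9,0)]⟩,⟨0,[(0,
  0)]⟩⟩,.o ⟨false,1,⟨3,[(3,0),(22,0),(2,1),(2,1),(4,0)]⟩,⟨0,[(34,0)]⟩⟩,.a ⟨true,0,⟨0,[(10,0)]⟩,⟨0,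
  [(4,0),(23,0),(2,1),(4,0)]⟩⟩ ⟨true,0,⟨0,[(39,0)]⟩,⟨0,[]⟩⟩ ⟨false,1,⟨1,[(3,0),(17,1),(4,0),(10,
  0)]⟩,⟨0,[(0,0)]⟩⟩,.o ⟨false,0,⟨0,[(24,0)]⟩,⟨0,[(21,0),(14,0)]⟩⟩]⟩) (.Q [0,0,0,1,0,0,0,0,0,1] (.pp
  false [-1,1]) (.R ⟨0,false,false,false,[0,0,1],[1,-1],[0,1],(⟨0,[(29,0)]⟩,⟨0,[(28,0)]⟩),(⟨0,[(31,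
  0)]⟩,⟨0,[(32,0)]⟩),⟨0,[(2,0)]⟩,.k,.k,.k,.k,.k,.k,⟨false,0,⟨0,[(35,0)]⟩,⟨1,[(4,0),(22,0),(10,0)]⟩⟩,
  ⟨true,0,⟨0,[(22,0)]⟩,⟨0,[(11,0)]⟩⟩,⟨true,0,⟨0,[(11,0),(9,0)]⟩,⟨0,[(27,0)]⟩⟩,⟨false,1,⟨15,[(1,1),
  (2,3),(16,11),(4,1),(3,0),(2,5),(4,10)]⟩,⟨0,[(14,0)]⟩⟩,⟨false,0,⟨0,[]⟩,⟨0,[]⟩⟩,⟨false,0,⟨0,[]⟩,⟨0,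
  []⟩⟩,[.a ⟨true,0,⟨0,[(36,0)]⟩,⟨0,[(0,0)]⟩⟩ ⟨false,0,⟨0,[(34,0)]⟩,⟨3,[(17,0),(0,0),(19,1)]⟩⟩ ⟨true,
  0,⟨0,[(1,0)]⟩,⟨0,[(0,0),(24,0)]⟩⟩,.o ⟨false,1,⟨39,[(1,7),(2,7),(11,3),(0,0),(0,0),(11,17),(2,15),
  (4,11)]⟩,⟨0,[(35,0)]⟩⟩,.e ⟨true,0,⟨0,[(40,0)]⟩,⟨0,[]⟩⟩ ⟨true,0,⟨0,[(1,0)]⟩,⟨0,[(10,0),(4,0)]⟩⟩,.o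
  ⟨false,0,⟨0,[(25,0)]⟩,⟨0,[(22,0),(14,0)]⟩⟩]⟩) (.K ⟨2,[1,-1,1],0,0,(⟨0,[(29,0),(1,0)]⟩,⟨0,[(2,
  0)]⟩),.k,(.r (-1) ⟨0,[(4,0),(22,1)]⟩ ⟨0,[(6,0),(4,1),(9,1),(16,0)]⟩),.k,.k,.k,[⟨0,[(0,0)]⟩,⟨0,
  [(15,0),(12,0),(0,0)]⟩,⟨0,[(5,0),(22,0),(0,1),(2,1),(4,0)]⟩,⟨3,[(0,0),(5,0),(14,0),(3,4),(4,0),(2,
  0)]⟩]⟩))) (.K ⟨0,[0,-1,1],0,0,(⟨0,[(0,0)]⟩,⟨0,[(26,0),(3,0)]⟩),.k,(.r (-1) ⟨0,[(2,0),(22,1)]⟩ ⟨0,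
  [(4,0),(4,1),(9,1),(16,0)]⟩),.k,.k,.k,[⟨0,[(3,0),(23,0),(2,1),(4,0)]⟩,⟨0,[(9,0)]⟩,⟨0,[(13,0)]⟩,⟨0,
  [(21,0),(12,0)]⟩]⟩)))))

theorem ok15 : chk (cU (-1) false 3) t15 r14 = true := by decide +kernel

noncomputable def t18 : Tre :=
  (.K ⟨0,[1,-1,-1],0,0,(⟨0,[(5,0)]⟩,⟨0,[(21,0),(2,0)]⟩),.k,(.r (-1) ⟨0,[(0,0),(1,0),(25,0),(0,0)]⟩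
  ⟨0,[(1,0)]⟩),.k,.k,.k,[⟨0,[(3,0)]⟩,⟨0,[(0,0),(5,0),(12,0)]⟩,⟨0,[(7,0),(0,0)]⟩,⟨0,[(0,0),(14,
  0)]⟩]⟩)

theorem ok18 : chk (cU (-1) false 3) t18 r12 = true := by decide +kernel

noncomputable def t20 : Tre :=
  (.Q [0,0,0,0,0,0,1,1,0,0,-1] (.p false [0,0,1] [] (⟨0,[(20,0)]⟩,⟨0,[(19,0)]⟩) .k 0 (⟨0,[]⟩,⟨0,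
  []⟩) .k .k) (.Q [0,0,0,0,0,0,-1,0,0,0,1] (.p true [0,0,1] [] (⟨0,[(21,0)]⟩,⟨0,[(20,0)]⟩) .k 0 (⟨0,
  []⟩,⟨0,[]⟩) .k .k) (.Q [0,0,-1,0,0,0,0,0,0,1] (.pp false [-1,1]) (.R ⟨2,false,false,false,[0,1],
  [0,0,1],[0,1,1],(⟨0,[]⟩,⟨0,[]⟩),(⟨0,[(23,0)]⟩,⟨0,[(22,0)]⟩),⟨0,[]⟩,.k,.k,.k,.k,.k,.k,⟨false,0,⟨2,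
  [(3,0),(5,1),(9,1),(14,0)]⟩,⟨1,[(21,1),(9,0),(0,0)]⟩⟩,⟨true,0,⟨0,[(19,0)]⟩,⟨0,[(1,0)]⟩⟩,⟨false,0,
  ⟨0,[(30,0)]⟩,⟨0,[(29,0),(2,0)]⟩⟩,⟨true,0,⟨0,[(2,0),(27,0)]⟩,⟨0,[(9,0)]⟩⟩,⟨true,0,⟨0,[(34,0)]⟩,⟨0,
  []⟩⟩,⟨true,0,⟨0,[(2,0)]⟩,⟨0,[(18,0)]⟩⟩,[.o ⟨false,0,⟨0,[(2,0)]⟩,⟨1,[(18,1),(5,0),(7,0)]⟩⟩,.o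
  ⟨false,1,⟨7,[(10,3),(0,0),(0,0),(11,1),(7,3)]⟩,⟨0,[(15,0)]⟩⟩,.a ⟨true,0,⟨0,[(0,0)]⟩,⟨1,[(19,0),(0,
  0)]⟩⟩ ⟨false,0,⟨1,[(19,0),(0,0)]⟩,⟨1,[(31,0),(0,0)]⟩⟩ ⟨true,0,⟨1,[(10,0),(5,0),(2,0)]⟩,⟨2,[(1,0),
  (1,0),(5,1),(18,0)]⟩⟩,.e ⟨true,0,⟨0,[(34,0)]⟩,⟨0,[]⟩⟩ ⟨true,0,⟨0,[(2,0)]⟩,⟨0,[(18,0)]⟩⟩]⟩) (.K ⟨0,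
  [1,-1,-1],0,0,(⟨0,[(7,0)]⟩,⟨0,[(23,0),(2,0)]⟩),.k,(.x 0 ⟨0,[(0,0),(6,0),(8,0),(8,0)]⟩ ⟨1,[(3,1),
  (4,1),(14,1),(0,0),(1,3),(2,1),(2,0)]⟩),.k,.k,.k,[⟨0,[(5,0)]⟩,⟨0,[(1,0)]⟩,⟨0,[(9,0),(0,0)]⟩,⟨0,
  [(15,0),(14,0)]⟩]⟩)) (.R ⟨2,true,false,false,[0,1],[0,1,1],[0,1,1],(⟨0,[]⟩,⟨0,[]⟩),(⟨0,[(22,0),(2,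
  0)]⟩,⟨0,[(6,0)]⟩),⟨0,[]⟩,.k,.k,.k,.k,.k,.k,⟨false,0,⟨2,[(2,1),(5,0),(9,0),(14,1)]⟩,⟨0,[(20,0),(7,
  0),(2,0)]⟩⟩,⟨true,0,⟨0,[(0,0)]⟩,⟨0,[(19,0)]⟩⟩,⟨false,0,⟨0,[(29,0)]⟩,⟨0,[(28,0),(2,0)]⟩⟩,⟨true,0,
  ⟨0,[(1,0)]⟩,⟨0,[(17,0)]⟩⟩,⟨true,0,⟨0,[(33,0)]⟩,⟨0,[]⟩⟩,⟨false,1,⟨1,[(7,1),(15,0),(7,0)]⟩,⟨1,[(2,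
  0),(5,0),(10,0),(6,0)]⟩⟩,[]⟩)) (.R ⟨2,true,false,false,[0,1],[0,0,1],[0,1,1],(⟨0,[]⟩,⟨0,[]⟩),(⟨0,
  [(21,0)]⟩,⟨0,[(20,0)]⟩),⟨0,[]⟩,.k,.k,.k,.k,.k,.k,⟨false,0,⟨2,[(1,0),(5,1),(9,1),(14,0)]⟩,⟨1,[(19,
  1),(9,0),(0,0)]⟩⟩,⟨true,0,⟨0,[(17,0)]⟩,⟨0,[(0,0),(18,0)]⟩⟩,⟨false,0,⟨0,[(28,0)]⟩,⟨0,[(27,0),(2,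
  0)]⟩⟩,⟨true,0,⟨3,[(1,1),(6,2),(5,2),(2,0)]⟩,⟨0,[(7,0)]⟩⟩,⟨true,0,⟨0,[(32,0)]⟩,⟨0,[]⟩⟩,⟨false,1,⟨7,
  [(8,3),(0,0),(0,0),(11,1),(7,3)]⟩,⟨0,[(0,0)]⟩⟩,[]⟩))

theorem ok20 : chk (cU (-1) false 3) t20 r11 = true := by decide +kernel

noncomputable def t23 : Tre :=
  (.Q [0,0,0,-1,0,0,1,1,0,0,-1] (.p false [0,0,1] [] (⟨0,[(18,0)]⟩,⟨0,[(17,0)]⟩) .k 0 (⟨0,[]⟩,⟨0,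
  []⟩) .k .k) (.Q [0,0,0,0,0,0,1,1,0,0,-1] (.p false [0,0,1] [] (⟨0,[(19,0)]⟩,⟨0,[(18,0)]⟩) .k 0
  (⟨0,[]⟩,⟨0,[]⟩) .k .k) (.I [0,-1,1,1,0,0,0,1] (.Q [0,0,0,-1,0,0,-1,-1,0,0,1] (.p true [0,0,1] []
  (⟨0,[(21,0)]⟩,⟨0,[(20,0)]⟩) .k 0 (⟨0,[]⟩,⟨0,[]⟩) .k .k) (.R ⟨2,true,false,false,[0,1],[0,1,1],[0,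
  1,1],(⟨0,[]⟩,⟨0,[]⟩),(⟨0,[(22,0),(2,0)]⟩,⟨0,[(6,0)]⟩),⟨0,[]⟩,.k,.k,.k,.k,.k,.k,⟨true,0,⟨0,[(0,0),
  (17,0),(8,0)]⟩,⟨0,[(1,0)]⟩⟩,⟨false,1,⟨0,[(18,0),(11,0)]⟩,⟨0,[(4,0),(16,0),(0,0)]⟩⟩,⟨false,0,⟨0,
  [(29,0)]⟩,⟨0,[(28,0),(2,0)]⟩⟩,⟨true,0,⟨0,[(2,0)]⟩,⟨0,[(17,0)]⟩⟩,⟨true,0,⟨0,[(33,0)]⟩,⟨0,[]⟩⟩,
  ⟨false,1,⟨1,[(7,1),(15,0),(7,0)]⟩,⟨0,[(0,0)]⟩⟩,[]⟩) (.I [0,0,-1,-1,0,0,0,1] (.Q [0,0,0,0,0,-1,0,0,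
  0,0,1] (.ed false [1,-1,1] .k) (.Q [0,-1,0,-1,0,0,1,1,0,1,-1] (.p false [0,0,1] [1] (⟨0,[(24,0)]⟩,
  ⟨0,[(23,0)]⟩) .k 1 (⟨0,[]⟩,⟨0,[]⟩) .k .k) (.R ⟨2,true,false,true,[0,1],[1,1,-1],[0,1,1],(⟨0,[]⟩,
  ⟨0,[]⟩),(⟨0,[(24,0),(3,0)]⟩,⟨0,[(1,0)]⟩),⟨0,[]⟩,.k,.k,.k,.k,.k,.k,⟨false,0,⟨0,[(2,0)]⟩,⟨1,[(11,1),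
  (9,1),(11,0),(0,0)]⟩⟩,⟨true,0,⟨0,[(7,0)]⟩,⟨0,[(0,0),(10,0),(9,0)]⟩⟩,⟨false,0,⟨0,[(32,0)]⟩,⟨0,[(31,
  0),(2,0)]⟩⟩,⟨true,0,⟨0,[(17,0)]⟩,⟨2,[(0,0),(9,0),(1,0),(7,0)]⟩⟩,⟨true,0,⟨0,[(36,0)]⟩,⟨0,[]⟩⟩,
  ⟨false,1,⟨1,[(11,1),(14,0),(7,0)]⟩,⟨0,[(0,0)]⟩⟩,[]⟩) (.K ⟨2,[0,-1,1],0,0,(⟨0,[(1,0)]⟩,⟨0,[(24,0),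
  (3,0)]⟩),.k,(.x 0 ⟨1,[(1,2),(7,0),(8,0),(2,2)]⟩ ⟨0,[(7,0),(16,0),(3,1),(4,0)]⟩),.k,.k,.k,[⟨0,[(32,
  0)]⟩,⟨0,[(11,0)]⟩,⟨0,[(7,0),(16,0),(0,0)]⟩,⟨1,[(21,2),(0,0)]⟩]⟩)) (.Q [0,-1,0,-1,0,0,2,2,0,0,-2]
  (.p false [0,0,1] [0,1,-1] (⟨0,[(24,0)]⟩,⟨0,[(23,0)]⟩) .k 2 (⟨0,[(0,0)]⟩,⟨0,[(24,0),(1,0)]⟩) .k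
  (.x (-1) ⟨0,[(20,1),(3,1),(7,0)]⟩ ⟨0,[(6,1),(16,1)]⟩)) (.Q [0,0,-1,0,0,0,-1,0,0,1,1] (.p true [1,
  -1,1] [] (⟨0,[(25,0),(1,0)]⟩,⟨0,[(1,0)]⟩) .k 0 (⟨0,[]⟩,⟨0,[]⟩) .k .k) (.Q [0,0,0,1,0,0,0,0,0,1]
  (.pp false [-1,1]) (.R ⟨0,false,false,false,[0,1,-1],[1,0,-1],[0,1,1,1,0,0,0,-1],(⟨0,[(3,0)]⟩,⟨0,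
  [(27,0),(1,0)]⟩),(⟨0,[(26,0)]⟩,⟨0,[(27,0)]⟩),⟨0,[(27,0)]⟩,.k,.k,.k,.k,.k,.k,⟨false,0,⟨0,[(33,0)]⟩,
  ⟨1,[(34,1),(0,0),(0,0)]⟩⟩,⟨true,0,⟨0,[(9,0),(13,0)]⟩,⟨0,[(1,0),(21,0)]⟩⟩,⟨true,0,⟨0,[(38,0)]⟩,⟨0,
  []⟩⟩,⟨false,1,⟨1,[(28,0),(5,1),(1,0)]⟩,⟨0,[(0,0)]⟩⟩,⟨false,0,⟨0,[]⟩,⟨0,[]⟩⟩,⟨false,0,⟨0,[]⟩,⟨0,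
  []⟩⟩,[.o ⟨false,1,⟨1,[(22,1),(5,0),(7,0)]⟩,⟨0,[(7,0)]⟩⟩,.o ⟨false,1,⟨0,[(19,0),(16,0)]⟩,⟨0,[(21,
  0)]⟩⟩,.a ⟨true,0,⟨0,[(1,0)]⟩,⟨0,[(23,0)]⟩⟩ ⟨true,0,⟨0,[(13,0),(9,0)]⟩,⟨0,[(4,0)]⟩⟩ ⟨false,1,⟨0,
  [(19,0),(3,0),(12,0)]⟩,⟨3,[(1,2),(2,0),(0,0),(8,0)]⟩⟩,.o ⟨false,0,⟨2,[(1,0),(7,0),(14,0)]⟩,⟨1,
  [(23,1),(4,0),(6,0)]⟩⟩]⟩) (.R ⟨0,false,false,false,[0,1,-1],[0,1],[0,0,1],(⟨0,[(3,0)]⟩,⟨0,[(27,0),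
  (1,0)]⟩),(⟨0,[(30,0)]⟩,⟨0,[(29,0)]⟩),⟨0,[(27,0)]⟩,.k,.k,.k,.k,.k,.k,⟨true,0,⟨0,[(34,0)]⟩,⟨1,[(6,
  0),(6,0),(9,0)]⟩⟩,⟨false,1,⟨0,[(23,0),(11,0)]⟩,⟨2,[(1,0),(7,0),(14,0)]⟩⟩,⟨false,0,⟨1,[(1,0),(0,0),
  (6,0),(21,0)]⟩,⟨1,[(13,1),(9,1),(11,0),(0,0)]⟩⟩,⟨true,0,⟨0,[(7,0)]⟩,⟨0,[(22,0)]⟩⟩,⟨false,0,⟨0,[]⟩,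
  ⟨0,[]⟩⟩,⟨false,0,⟨0,[]⟩,⟨0,[]⟩⟩,[.o ⟨false,1,⟨3,[(15,0),(0,0),(16,3),(2,1)]⟩,⟨0,[(0,0)]⟩⟩,.o
  ⟨false,1,⟨0,[(33,0),(2,0)]⟩,⟨0,[(8,0),(10,0)]⟩⟩,.a ⟨true,0,⟨0,[(1,0)]⟩,⟨0,[(23,0)]⟩⟩ ⟨true,0,⟨1,
  [(23,0),(0,0)]⟩,⟨0,[(32,0)]⟩⟩ ⟨false,1,⟨0,[(23,0),(9,0),(2,0)]⟩,⟨0,[(0,0),(0,0)]⟩⟩,.o ⟨false,0,⟨2,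
  [(1,0),(7,0),(14,0)]⟩,⟨1,[(23,1),(4,0),(6,0)]⟩⟩]⟩)) (.Q [0,0,0,-1,0,0,0,0,0,-1] (.pp true [-1,1])
  (.K ⟨2,[1,-1,1],0,0,(⟨0,[(27,0),(1,0)]⟩,⟨0,[(3,0)]⟩),.k,(.x 0 ⟨1,[(1,2),(18,0),(6,1),(1,3)]⟩ ⟨1,
  [(3,1),(0,1),(8,1),(16,1),(4,0),(0,0)]⟩),.k,.k,.k,[⟨0,[(0,0)]⟩,⟨0,[(13,0),(12,0),(0,0)]⟩,⟨0,[(9,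
  0),(16,1),(0,1)]⟩,⟨1,[(1,1),(21,0),(0,0)]⟩]⟩) (.R ⟨0,false,false,true,[0,0,1],[0,1],[0,1,2,1],(⟨0,
  [(27,0)]⟩,⟨0,[(26,0)]⟩),(⟨0,[(30,0)]⟩,⟨0,[(29,0)]⟩),⟨0,[(3,0)]⟩,.k,.k,.k,.k,.k,.k,⟨true,0,⟨1,[(23,
  0),(0,0)]⟩,⟨0,[]⟩⟩,⟨false,1,⟨1,[(4,1),(8,1),(21,0),(0,0)]⟩,⟨0,[(23,0)]⟩⟩,⟨false,0,⟨0,[(0,0),(0,0),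
  (11,0),(17,0)]⟩,⟨1,[(4,1),(30,0),(0,0)]⟩⟩,⟨true,0,⟨0,[(13,0)]⟩,⟨0,[(8,0)]⟩⟩,⟨false,0,⟨0,[]⟩,⟨0,
  []⟩⟩,⟨false,0,⟨0,[]⟩,⟨0,[]⟩⟩,[.o ⟨false,0,⟨0,[(33,0)]⟩,⟨1,[(28,0),(5,1),(1,0)]⟩⟩,.a ⟨true,0,⟨0,
  [(0,0)]⟩,⟨0,[(34,0)]⟩⟩ ⟨false,0,⟨1,[(6,0),(6,0),(9,0)]⟩,⟨0,[(34,0),(0,0)]⟩⟩ ⟨true,0,⟨0,[(0,0),(8,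
  0)]⟩,⟨0,[(23,0),(10,0)]⟩⟩,.o ⟨false,1,⟨3,[(15,0),(0,0),(6,3),(11,1)]⟩,⟨0,[(9,0)]⟩⟩,.o ⟨false,0,⟨0,
  [(23,0)]⟩,⟨3,[(9,1),(14,1),(3,0),(6,2)]⟩⟩]⟩))) (.Q [0,0,0,1,0,0,0,0,0,1] (.pp false [-1,1]) (.R
  ⟨0,false,false,true,[0,0,1],[0,1],[0,1,2,1],(⟨0,[(26,0)]⟩,⟨0,[(25,0)]⟩),(⟨0,[(29,0)]⟩,⟨0,[(28,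
  0)]⟩),⟨0,[(2,0)]⟩,.k,.k,.k,.k,.k,.k,⟨true,0,⟨1,[(22,0),(0,0)]⟩,⟨0,[]⟩⟩,⟨false,1,⟨9,[(1,3),(1,5),
  (1,1),(17,1),(10,8),(0,0)]⟩,⟨0,[(22,0)]⟩⟩,⟨false,0,⟨0,[(1,0),(2,0),(17,0),(7,0)]⟩,⟨1,[(3,1),(30,
  0),(0,0)]⟩⟩,⟨true,0,⟨0,[(12,0)]⟩,⟨0,[(7,0)]⟩⟩,⟨false,0,⟨0,[]⟩,⟨0,[]⟩⟩,⟨false,0,⟨0,[]⟩,⟨0,[]⟩⟩,[.o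
  ⟨false,0,⟨0,[(32,0)]⟩,⟨1,[(27,0),(5,1),(1,0)]⟩⟩,.a ⟨true,0,⟨0,[(0,0)]⟩,⟨0,[(33,0)]⟩⟩ ⟨false,0,⟨1,
  [(5,0),(6,0),(9,0)]⟩,⟨0,[(33,0),(0,0)]⟩⟩ ⟨true,0,⟨0,[(0,0),(7,0)]⟩,⟨0,[(22,0),(10,0)]⟩⟩,.o ⟨false,
  1,⟨3,[(14,0),(0,0),(6,3),(11,1)]⟩,⟨0,[(8,0)]⟩⟩,.o ⟨false,0,⟨0,[(22,0)]⟩,⟨3,[(8,1),(14,1),(3,0),(6,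
  2)]⟩⟩]⟩) (.K ⟨2,[1,-1,1],0,0,(⟨0,[(26,0),(1,0)]⟩,⟨0,[(2,0)]⟩),.k,(.x 0 ⟨0,[(0,1),(0,0),(2,1),(17,
  0),(3,0),(1,1),(1,0)]⟩ ⟨9,[(1,3),(0,9),(0,5),(1,1),(17,1),(5,9),(4,8),(0,0)]⟩),.k,.k,.k,[⟨0,[(0,
  0)]⟩,⟨1,[(1,1),(11,0),(11,0),(0,0)]⟩,⟨6,[(1,2),(1,3),(1,1),(17,0),(1,6),(0,6),(3,0)]⟩,⟨0,[(8,0),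
  (13,1)]⟩]⟩)))) (.Q [0,0,0,1,0,0,0,0,0,1] (.pp false [-1,1]) (.R ⟨1,false,false,false,[1,0,-1],[1,
  -1],[1,1,0,0,0,0,0,-1],(⟨0,[(23,0)]⟩,⟨0,[(24,0)]⟩),(⟨0,[(26,0)]⟩,⟨0,[(27,0)]⟩),⟨0,[(8,0)]⟩,.k,.k,
  .k,.k,.k,.k,⟨false,0,⟨0,[(1,0),(27,0)]⟩,⟨1,[(22,1),(8,1),(0,0),(0,0)]⟩⟩,⟨true,0,⟨0,[(20,0)]⟩,⟨0,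
  [(0,0),(5,0),(24,0)]⟩⟩,⟨false,0,⟨0,[]⟩,⟨3,[(12,0),(0,0),(19,1)]⟩⟩,⟨true,0,⟨0,[(5,0)]⟩,⟨0,[(10,
  0)]⟩⟩,⟨true,0,⟨0,[(30,0)]⟩,⟨0,[(31,0)]⟩⟩,⟨true,0,⟨0,[(4,0)]⟩,⟨0,[(19,0)]⟩⟩,[.a ⟨true,0,⟨0,[(31,
  0)]⟩,⟨0,[(0,0)]⟩⟩ ⟨true,0,⟨0,[(1,0),(27,0),(1,0)]⟩,⟨1,[(3,0),(18,0),(5,0)]⟩⟩ ⟨false,1,⟨0,[(20,0),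
  (10,0),(0,0)]⟩,⟨0,[(0,0),(5,0)]⟩⟩,.o ⟨false,1,⟨1,[(25,0),(5,1),(1,0)]⟩,⟨0,[(30,0)]⟩⟩,.o ⟨false,0,
  ⟨0,[(6,0)]⟩,⟨3,[(12,0),(0,0),(6,3),(11,1)]⟩⟩,.o ⟨false,0,⟨0,[(17,0)]⟩,⟨0,[(20,0),(11,0)]⟩⟩]⟩) (.Q
  [0,0,0,0,0,1,0,0,0,0,-1] (.ed true [1,-1,1] .k) (.K ⟨2,[1,-1,1],0,0,(⟨0,[(25,0),(1,0)]⟩,⟨0,[(0,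
  0)]⟩),.k,(.r (-1) ⟨0,[(23,0),(8,1),(0,0)]⟩ ⟨5,[(2,7),(1,1),(16,0),(0,0),(8,1)]⟩),.k,.k,.k,[⟨0,[(1,
  0)]⟩,⟨0,[(11,0),(12,0),(0,0)]⟩,⟨0,[(7,0),(16,1),(0,1)]⟩,⟨3,[(1,1),(0,0),(0,0),(14,1),(2,4)]⟩]⟩)
  (.K ⟨2,[0,-1,1],0,0,(⟨0,[(0,0)]⟩,⟨0,[(24,0),(3,0)]⟩),.k,(.r (-1) ⟨0,[(23,0),(8,1),(0,0)]⟩ ⟨5,[(2,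
  7),(1,1),(16,0),(0,0),(8,1)]⟩),.k,.k,.k,[⟨0,[(32,0)]⟩,⟨0,[(11,0)]⟩,⟨0,[(7,0),(16,0),(0,0)]⟩,⟨1,
  [(21,2),(0,0)]⟩]⟩))))) (.I [1,-1,1,1,0,0,0,1] (.R ⟨1,true,false,false,[1,0,-1],[0,1],[1,1,0,0,0,0,
  0,-1],(⟨0,[(21,0)]⟩,⟨0,[(22,0)]⟩),(⟨0,[(25,0)]⟩,⟨0,[(24,0)]⟩),⟨0,[(6,0)]⟩,.k,.k,.k,.k,(.r (-1) ⟨1,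
  [(1,1),(27,1),(0,0),(0,0)]⟩ ⟨1,[(0,1),(17,0),(0,0),(8,1)]⟩),.k,⟨true,0,⟨0,[(1,0)]⟩,⟨1,[(0,1),(17,
  0),(0,0)]⟩⟩,⟨false,1,⟨1,[(1,1),(5,1),(22,0),(0,0)]⟩,⟨0,[(15,0)]⟩⟩,⟨false,0,⟨0,[]⟩,⟨3,[(10,0),(0,
  0),(19,1)]⟩⟩,⟨true,0,⟨0,[(7,0)]⟩,⟨0,[(14,0),(14,0)]⟩⟩,⟨true,0,⟨0,[(28,0)]⟩,⟨0,[(29,0)]⟩⟩,⟨false,1,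
  ⟨0,[(7,0),(20,0),(2,0)]⟩,⟨0,[(1,0),(2,0),(21,0)]⟩⟩,[]⟩) (.Q [0,0,0,-1,0,0,-1,-1,0,0,1] (.p true
  [0,0,1] [] (⟨0,[(22,0)]⟩,⟨0,[(21,0)]⟩) .k 0 (⟨0,[]⟩,⟨0,[]⟩) .k .k) (.R ⟨2,true,false,false,[0,1],
  [0,1,1],[0,0,2,1,0,0,0,1],(⟨0,[]⟩,⟨0,[]⟩),(⟨0,[(23,0),(2,0)]⟩,⟨0,[(7,0)]⟩),⟨0,[]⟩,.k,.k,.k,.k,.k,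
  .k,⟨true,0,⟨1,[(19,0),(0,0)]⟩,⟨0,[]⟩⟩,⟨false,1,⟨0,[(19,0),(11,0)]⟩,⟨0,[(5,0),(16,0),(0,0)]⟩⟩,
  ⟨false,0,⟨0,[(5,0),(2,0),(18,0)]⟩,⟨1,[(2,0),(6,0),(9,0),(11,0),(0,0)]⟩⟩,⟨true,0,⟨0,[(3,0)]⟩,⟨0,
  [(18,0)]⟩⟩,⟨true,0,⟨0,[(8,0),(7,0)]⟩,⟨0,[(2,0)]⟩⟩,⟨false,1,⟨1,[(8,1),(15,0),(7,0)]⟩,⟨0,[(0,0)]⟩⟩,
  []⟩) (.R ⟨1,true,false,false,[1,0,-1],[0,1],[0,0,1],(⟨0,[(22,0)]⟩,⟨0,[(23,0)]⟩),(⟨0,[(26,0)]⟩,⟨0,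
  [(25,0)]⟩),⟨0,[(7,0)]⟩,.k,.k,.k,.k,(.r (-1) ⟨1,[(2,1),(27,1),(0,0),(0,0)]⟩ ⟨0,[(0,1),(8,0),(10,0),
  (6,0)]⟩),.k,⟨true,0,⟨0,[(30,0)]⟩,⟨0,[(0,0),(8,0),(17,0)]⟩⟩,⟨false,1,⟨1,[(2,1),(5,1),(22,0),(0,
  0)]⟩,⟨0,[(16,0)]⟩⟩,⟨false,0,⟨0,[(5,0),(2,0),(18,0)]⟩,⟨1,[(2,0),(6,0),(9,0),(11,0),(0,0)]⟩⟩,⟨true,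
  0,⟨0,[(8,0)]⟩,⟨0,[(15,0),(14,0)]⟩⟩,⟨true,0,⟨0,[(0,0),(19,0)]⟩,⟨0,[(2,0)]⟩⟩,⟨false,1,⟨0,[(8,0),(20,
  0),(2,0)]⟩,⟨0,[(2,0),(2,0),(21,0)]⟩⟩,[]⟩)))) (.R ⟨2,true,false,false,[0,1],[0,0,1],[0,1,1],(⟨0,
  []⟩,⟨0,[]⟩),(⟨0,[(20,0)]⟩,⟨0,[(19,0)]⟩),⟨0,[]⟩,.k,.k,.k,.k,.k,.k,⟨false,0,⟨0,[(0,0),(15,0),(8,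
  0)]⟩,⟨1,[(18,1),(9,0),(0,0)]⟩⟩,⟨true,0,⟨0,[(16,0)]⟩,⟨0,[(0,0),(17,0)]⟩⟩,⟨false,0,⟨0,[(27,0)]⟩,⟨0,
  [(26,0),(2,0)]⟩⟩,⟨true,0,⟨0,[(1,0)]⟩,⟨0,[(6,0)]⟩⟩,⟨true,0,⟨0,[(31,0)]⟩,⟨0,[]⟩⟩,⟨false,1,⟨7,[(7,3),
  (0,0),(0,0),(11,1),(7,3)]⟩,⟨0,[(0,0)]⟩⟩,[]⟩)) (.R ⟨1,false,false,false,[1,0,-1],[1,-1],[1,1,0,0,0,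
  0,0,-1],(⟨0,[(18,0)]⟩,⟨0,[(19,0)]⟩),(⟨0,[(21,0)]⟩,⟨0,[(22,0)]⟩),⟨0,[(3,0)]⟩,.k,.k,.k,.k,.k,.k,
  ⟨false,0,⟨0,[(0,0),(14,0),(8,0)]⟩,⟨1,[(17,1),(8,1),(0,0),(0,0)]⟩⟩,⟨true,0,⟨0,[(15,0)]⟩,⟨0,[(1,0),
  (16,0),(0,0)]⟩⟩,⟨false,0,⟨0,[]⟩,⟨3,[(7,0),(0,0),(19,1)]⟩⟩,⟨false,1,⟨7,[(6,3),(0,0),(0,0),(11,1),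
  (5,7),(1,3)]⟩,⟨0,[(0,0)]⟩⟩,⟨true,0,⟨0,[(25,0)]⟩,⟨0,[(26,0)]⟩⟩,⟨false,1,⟨7,[(6,3),(0,0),(0,0),(11,
  1),(7,3)]⟩,⟨0,[(0,0),(25,0)]⟩⟩,[.a ⟨true,0,⟨0,[(26,0)]⟩,⟨1,[(0,0),(3,0),(13,0),(0,0)]⟩⟩ ⟨true,0,
  ⟨0,[(0,0),(14,0),(8,0),(1,0)]⟩,⟨0,[(1,0),(2,0),(18,0)]⟩⟩ ⟨false,1,⟨0,[(15,0),(10,0),(0,0)]⟩,⟨0,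
  [(0,0),(16,0)]⟩⟩,.o ⟨false,1,⟨1,[(20,0),(5,1),(1,0)]⟩,⟨0,[(25,0)]⟩⟩,.o ⟨false,0,⟨0,[(1,0)]⟩,⟨3,
  [(7,0),(0,0),(6,3),(11,1)]⟩⟩,.o ⟨false,0,⟨0,[(12,0)]⟩,⟨0,[(15,0),(11,0)]⟩⟩]⟩))

theorem ok23 : chk (cU (-1) false 3) t23 r9 = true := by decide +kernel

noncomputable def t25 : Tre :=
  (.I [0,0,-1,-1,0,0,0,0,-1] (.K ⟨1,[0,0,0,1],0,1,(⟨0,[(9,0)]⟩,⟨1,[(8,0),(8,0),(0,0)]⟩),.k,(.r (-1)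
  ⟨0,[(0,0),(6,0)]⟩ ⟨1,[(1,1),(6,0),(2,0),(2,0),(9,1),(2,1)]⟩),(.r (-1) ⟨1,[(7,0),(6,0),(0,0),(8,1),
  (2,0)]⟩ ⟨0,[(0,0)]⟩),.k,.k,[⟨1,[(9,1),(4,0),(0,0)]⟩,⟨1,[(8,0),(2,0),(2,0)]⟩,⟨0,[(1,0)]⟩,⟨1,[(7,0),
  (0,0),(8,0),(0,0),(8,0)]⟩]⟩) (.Q [0,-1,0,-1,1,0,0,0,1,0,0,-1] (.p false [0,0,0,1] [] (⟨0,[(9,0)]⟩,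
  ⟨1,[(8,0),(8,0),(0,0)]⟩) .k 0 (⟨0,[]⟩,⟨0,[]⟩) .k .k) (.R ⟨2,true,false,false,[0,1],[0,0,0,1],[1,0,
  1,1],(⟨0,[]⟩,⟨0,[]⟩),(⟨0,[(10,0)]⟩,⟨1,[(9,0),(8,0),(0,0)]⟩),⟨0,[]⟩,.k,.k,.k,(.r 0 ⟨1,[(2,1),(6,0),
  (2,0),(2,0),(9,1),(2,1)]⟩ ⟨1,[(8,0),(17,1),(0,0)]⟩),.k,.k,⟨false,0,⟨1,[(1,1),(0,3),(6,1),(10,0),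
  (6,0),(0,1)]⟩,⟨1,[(8,0),(17,1),(0,0)]⟩⟩,⟨true,0,⟨1,[(9,0),(2,0),(2,0)]⟩,⟨0,[(10,0)]⟩⟩,⟨true,0,⟨0,
  []⟩,⟨0,[(30,0)]⟩⟩,⟨false,1,⟨0,[(0,0)]⟩,⟨0,[(2,0),(22,0),(2,0)]⟩⟩,⟨false,1,⟨0,[(25,0),(2,0)]⟩,⟨0,
  [(26,0)]⟩⟩,⟨true,1,⟨7,[(7,0),(0,4),(0,3),(10,1)]⟩,⟨0,[(2,0)]⟩⟩,[]⟩) (.I [0,0,1,0,0,-1] (.K ⟨1,[0,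
  0,0,1],0,1,(⟨0,[(11,0)]⟩,⟨1,[(10,0),(8,0),(0,0)]⟩),.k,(.x 0 ⟨0,[(0,0)]⟩ ⟨3,[(8,0),(0,0),(13,3),(4,
  1)]⟩),(.x (-1) ⟨3,[(8,0),(0,0),(13,3),(4,1)]⟩ ⟨0,[(0,0)]⟩),.k,.k,[⟨1,[(11,1),(4,0),(0,0)]⟩,⟨1,
  [(10,0),(2,0),(2,0)]⟩,⟨0,[(3,0)]⟩,⟨1,[(9,0),(0,0),(8,0),(0,0),(8,0)]⟩]⟩) (.Q [0,0,0,0,0,0,-2,0,0,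
  -1,2] (.p true [0,0,1] [1,0,-1] (⟨0,[(20,0)]⟩,⟨0,[(19,0)]⟩) .k 2 (⟨0,[(19,0)]⟩,⟨0,[(20,0)]⟩) .k
  (.r 0 ⟨0,[(18,1)]⟩ ⟨0,[(0,1),(11,1),(3,1),(5,1),(6,0)]⟩)) (.K ⟨0,[0,1,1],1,0,(⟨0,[(21,0),(2,0)]⟩,
  ⟨0,[(5,0)]⟩),.k,.k,(.x (-1) ⟨3,[(1,7),(7,0),(0,0),(6,3),(3,3),(7,1)]⟩ ⟨1,[(0,0),(2,1),(0,1),(0,1),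
  (5,0),(10,1),(0,1),(1,1)]⟩),.k,.k,[⟨1,[(0,0),(2,1),(0,1),(6,0),(13,1)]⟩,⟨0,[(1,0),(15,0),(5,0),(5,
  0)]⟩,⟨0,[(16,0),(11,0)]⟩,⟨5,[(2,1),(0,1),(4,2),(2,0),(10,1),(3,1),(0,1)]⟩]⟩) (.R ⟨0,false,false,
  false,[0,0,1],[1,-1],[0,1],(⟨0,[(21,0)]⟩,⟨0,[(20,0)]⟩),(⟨0,[(23,0)]⟩,⟨0,[(24,0)]⟩),⟨0,[(1,1),(3,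
  0),(8,0),(2,0)]⟩,.k,.k,.k,.k,.k,.k,⟨false,0,⟨0,[(27,0)]⟩,⟨1,[(28,1),(0,0),(0,0)]⟩⟩,⟨true,0,⟨0,
  [(14,0)]⟩,⟨1,[(0,0),(19,0),(0,0)]⟩⟩,⟨true,0,⟨1,[(0,0),(12,0),(2,0)]⟩,⟨0,[(19,0)]⟩⟩,⟨false,1,⟨0,
  [(13,0),(14,0),(1,0)]⟩,⟨0,[(6,0)]⟩⟩,⟨false,0,⟨0,[]⟩,⟨0,[]⟩⟩,⟨false,0,⟨0,[]⟩,⟨0,[]⟩⟩,[.e ⟨false,0,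
  ⟨0,[(26,0)]⟩,⟨3,[(9,0),(0,0),(19,1)]⟩⟩ ⟨false,1,⟨0,[(14,0),(13,0),(0,0)]⟩,⟨11,[(0,5),(0,1),(0,3),
  (0,3),(2,1),(0,1),(3,1),(11,1),(5,0),(0,2)]⟩⟩,.o ⟨false,1,⟨1,[(22,0),(5,1),(1,0)]⟩,⟨0,[(27,0)]⟩⟩,
  .a ⟨true,0,⟨1,[(0,0),(19,0),(0,0)]⟩,⟨0,[(1,0),(12,0),(8,0)]⟩⟩ ⟨true,0,⟨0,[(32,0)]⟩,⟨0,[]⟩⟩ ⟨false,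
  1,⟨1,[(14,1),(13,1),(0,0),(0,0)]⟩,⟨11,[(0,5),(0,1),(0,3),(0,3),(2,1),(0,1),(3,1),(11,1),(5,0),(0,
  2)]⟩⟩,.o ⟨false,0,⟨0,[(17,0)]⟩,⟨0,[(14,0),(14,0)]⟩⟩]⟩)))))

theorem ok25 : chk (cU (-1) false 3) t25 r8 = true := by decide +kernel

noncomputable def t29 : Tre :=
  (.Q [0,0,0,0,0,0,-1,0,0,0,1] (.p true [0,0,1] [] (⟨0,[(15,0)]⟩,⟨0,[(14,0)]⟩) .k 0 (⟨0,[]⟩,⟨0,[]⟩)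
  .k .k) (.R ⟨2,true,false,false,[0,1],[0,0,1],[0,0,1],(⟨0,[]⟩,⟨0,[]⟩),(⟨0,[(16,0)]⟩,⟨0,[(15,0)]⟩),
  ⟨0,[]⟩,.k,.k,.k,.k,.k,.k,⟨false,1,⟨1,[(11,1),(0,1),(11,0),(0,0)]⟩,⟨0,[(1,0),(20,0)]⟩⟩,⟨true,0,⟨0,
  [(12,0)]⟩,⟨0,[(0,0)]⟩⟩,⟨true,0,⟨0,[(23,0)]⟩,⟨0,[(22,0)]⟩⟩,⟨false,0,⟨0,[(2,0)]⟩,⟨0,[(11,0),(10,0),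
  (2,0)]⟩⟩,⟨false,1,⟨3,[(4,0),(0,0),(19,1)]⟩,⟨0,[]⟩⟩,⟨true,0,⟨0,[(2,0),(19,0)]⟩,⟨0,[(11,0)]⟩⟩,[]⟩)
  (.Q [0,0,0,-1,0,0,-1,-1,0,-1,1] (.p true [0,0,1] [1] (⟨0,[(16,0)]⟩,⟨0,[(15,0)]⟩) .k 1 (⟨0,[]⟩,⟨0,
  []⟩) .k .k) (.R ⟨2,true,false,true,[0,1],[1,0,-1],[1,0,1,1],(⟨0,[]⟩,⟨0,[]⟩),(⟨0,[(16,0)]⟩,⟨0,[(17,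
  0)]⟩),⟨0,[]⟩,.k,.k,.k,.k,.k,.k,⟨false,1,⟨0,[(15,0),(7,0),(2,0)]⟩,⟨0,[(1,1),(0,0),(9,1)]⟩⟩,⟨true,0,
  ⟨0,[(10,0)]⟩,⟨0,[(1,0),(14,0),(0,0)]⟩⟩,⟨true,0,⟨0,[]⟩,⟨0,[(28,0)]⟩⟩,⟨false,0,⟨0,[(0,0)]⟩,⟨1,[(4,
  0),(11,0),(0,0),(5,1),(2,1)]⟩⟩,⟨false,1,⟨0,[(23,0),(2,0)]⟩,⟨0,[(24,0)]⟩⟩,⟨true,0,⟨0,[(9,0)]⟩,⟨1,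
  [(4,0),(11,0),(0,0)]⟩⟩,[]⟩) (.I [0,0,2,1] (.R ⟨2,true,false,false,[0,1],[1,-1],[0,0,1],(⟨0,[]⟩,⟨0,
  []⟩),(⟨0,[(20,0)]⟩,⟨0,[(21,0)]⟩),⟨0,[]⟩,.k,.k,.k,(.r (-1) ⟨3,[(0,3),(5,0),(0,0),(16,3),(2,1)]⟩ ⟨0,
  [(2,1),(0,1),(9,1)]⟩),.k,.k,⟨true,0,⟨0,[(0,0)]⟩,⟨0,[(2,0),(0,0),(9,0)]⟩⟩,⟨false,0,⟨0,[(2,0),(8,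
  0)]⟩,⟨0,[(17,0),(0,0),(7,0)]⟩⟩,⟨true,0,⟨0,[(25,0)]⟩,⟨0,[(24,0)]⟩⟩,⟨false,0,⟨0,[(2,0),(0,0),(6,0),
  (11,0)]⟩,⟨0,[(1,0),(11,0),(10,0),(2,0)]⟩⟩,⟨false,1,⟨3,[(6,0),(0,0),(19,1)]⟩,⟨0,[]⟩⟩,⟨true,0,⟨0,
  [(4,0),(5,0)]⟩,⟨0,[(1,0),(11,0)]⟩⟩,[]⟩) (.Q [0,0,0,0,0,1,0,0,0,0,-1] (.ed true [1,-1,1] .k) (.Q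
  [0,0,0,0,0,0,-1,0,0,1,1] (.p true [1,-1,1] [] (⟨0,[(19,0),(1,0)]⟩,⟨0,[(0,0)]⟩) .k 0 (⟨0,[]⟩,⟨0,
  []⟩) .k .k) (.R ⟨0,false,false,false,[0,1,-1],[0,1],[1,0,1],(⟨0,[(1,0)]⟩,⟨0,[(20,0),(1,0)]⟩),(⟨0,
  [(23,0)]⟩,⟨0,[(22,0)]⟩),⟨0,[(20,0)]⟩,.k,.k,.k,.k,.k,.k,⟨false,0,⟨1,[(2,0),(24,0)]⟩,⟨3,[(8,0),(0,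
  0),(16,3),(2,1)]⟩⟩,⟨true,0,⟨0,[(4,0)]⟩,⟨0,[(17,0)]⟩⟩,⟨false,0,⟨1,[(5,0),(0,0),(10,0)]⟩,⟨0,[(4,0),
  (10,0),(10,0),(2,0)]⟩⟩,⟨true,0,⟨0,[(6,0),(19,0)]⟩,⟨0,[(15,0)]⟩⟩,⟨false,0,⟨0,[]⟩,⟨0,[]⟩⟩,⟨false,0,
  ⟨0,[]⟩,⟨0,[]⟩⟩,[.o ⟨false,1,⟨3,[(8,0),(0,0),(16,3),(2,1)]⟩,⟨0,[(6,0),(5,0)]⟩⟩,.o ⟨false,1,⟨0,[(26,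
  0),(2,0)]⟩,⟨1,[(6,0),(5,1),(1,0),(12,0)]⟩⟩,.o ⟨false,1,⟨1,[(0,1),(20,0),(6,0)]⟩,⟨0,[(4,1),(8,
  0)]⟩⟩,.a ⟨true,0,⟨0,[(0,0)]⟩,⟨0,[(4,0)]⟩⟩ ⟨true,0,⟨0,[]⟩,⟨0,[(31,0)]⟩⟩ ⟨false,1,⟨0,[(4,0),(21,0),
  (2,0)]⟩,⟨1,[(2,0),(14,1),(9,0)]⟩⟩]⟩) (.Q [0,1,0,-1,-1,0,0,0,-1,-1,0,1] (.p true [0,0,0,1] [1] (⟨0,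
  [(11,0)]⟩,⟨1,[(10,0),(8,0),(0,0)]⟩) .k 1 (⟨0,[]⟩,⟨0,[]⟩) .k .k) (.R ⟨2,true,false,true,[0,1],[1,0,
  0,-1],[1,1,1,1],(⟨0,[]⟩,⟨0,[]⟩),(⟨1,[(11,0),(8,0),(0,0)]⟩,⟨0,[(12,0)]⟩),⟨0,[]⟩,.k,.k,.k,(.r (-1)
  ⟨1,[(10,0),(6,0),(0,0),(8,1),(2,0)]⟩ ⟨3,[(0,1),(2,1),(5,0),(1,0),(8,0),(0,0),(8,0)]⟩),.k,.k,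
  ⟨false,1,⟨1,[(10,0),(16,1),(2,0)]⟩,⟨3,[(0,1),(2,1),(5,0),(1,0),(8,0),(0,0),(8,0)]⟩⟩,⟨true,0,⟨2,
  [(1,0),(10,2),(1,1),(2,0)]⟩,⟨1,[(11,0),(8,0),(0,0)]⟩⟩,⟨false,0,⟨0,[]⟩,⟨3,[(9,0),(0,0),(19,1)]⟩⟩,
  ⟨true,(-1),⟨0,[(0,0)]⟩,⟨1,[(4,0),(5,0),(0,0),(4,0),(10,0),(2,0)]⟩⟩,⟨true,0,⟨0,[(27,0)]⟩,⟨0,[(28,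
  0)]⟩⟩,⟨false,0,⟨0,[(0,0),(26,0),(2,0)]⟩,⟨1,[(10,0),(0,0),(8,0),(0,0),(8,0)]⟩⟩,[]⟩) (.Q [0,1,0,-1,
  -1,0,0,0,1,0,0,-1] (.p false [0,0,0,1] [] (⟨0,[(12,0)]⟩,⟨1,[(11,0),(8,0),(0,0)]⟩) .k 0 (⟨0,[]⟩,⟨0,
  []⟩) .k .k) (.R ⟨2,true,false,true,[0,1],[0,0,0,1],[1,1,1,1],(⟨0,[]⟩,⟨0,[]⟩),(⟨0,[(13,0)]⟩,⟨1,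
  [(12,0),(8,0),(0,0)]⟩),⟨0,[]⟩,.k,.k,.k,(.r (-1) ⟨1,[(10,0),(7,0),(0,0),(8,1),(2,0)]⟩ ⟨3,[(0,1),(3,
  1),(6,0),(1,1),(17,0)]⟩),.k,.k,⟨false,1,⟨1,[(10,0),(17,1),(2,0)]⟩,⟨3,[(0,1),(3,1),(6,0),(1,1),(17,
  0)]⟩⟩,⟨true,0,⟨1,[(12,0),(2,0),(2,0)]⟩,⟨0,[(13,0)]⟩⟩,⟨false,0,⟨0,[]⟩,⟨3,[(10,0),(0,0),(19,1)]⟩⟩,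
  ⟨true,(-1),⟨0,[(0,0)]⟩,⟨1,[(10,0),(2,1),(14,1),(2,0)]⟩⟩,⟨true,0,⟨0,[(28,0)]⟩,⟨0,[(29,0)]⟩⟩,⟨false,
  0,⟨0,[(0,0),(27,0),(2,0)]⟩,⟨1,[(10,0),(2,1),(17,0)]⟩⟩,[]⟩) (.I [0,0,-1,-1,0,0,0,0,1] (.Q [0,0,0,0,
  0,0,0,0,-1,0,0,1] (.p true [0,0,0,1] [] (⟨0,[(14,0)]⟩,⟨1,[(13,0),(8,0),(0,0)]⟩) .k 0 (⟨0,[]⟩,⟨0,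
  []⟩) .k .k) (.R ⟨2,true,false,true,[0,1],[0,0,0,1],[0,0,1],(⟨0,[]⟩,⟨0,[]⟩),(⟨0,[(15,0)]⟩,⟨1,[(14,
  0),(8,0),(0,0)]⟩),⟨0,[]⟩,.k,.k,.k,(.r (-1) ⟨3,[(2,0),(0,0),(8,1),(4,0),(2,1),(0,0),(8,1)]⟩ ⟨0,[(1,
  0)]⟩),.k,.k,⟨false,1,⟨1,[(12,0),(20,0)]⟩,⟨0,[(1,0),(28,0)]⟩⟩,⟨true,0,⟨1,[(14,0),(2,0),(2,0)]⟩,⟨0,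
  [(15,0)]⟩⟩,⟨true,0,⟨0,[(31,0)]⟩,⟨0,[(30,0)]⟩⟩,⟨false,0,⟨1,[(1,1),(12,0),(2,0),(2,0)]⟩,⟨0,[(2,
  0)]⟩⟩,⟨false,1,⟨3,[(12,0),(0,0),(19,1)]⟩,⟨0,[]⟩⟩,⟨true,0,⟨1,[(1,1),(12,0),(2,0),(2,0),(9,1)]⟩,⟨0,
  [(0,0)]⟩⟩,[]⟩) (.I [0,0,-1,-1,0,0,0,0,-1] (.R ⟨2,true,false,true,[0,1],[1,0,0,-1],[0,0,1],(⟨0,[]⟩,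
  ⟨0,[]⟩),(⟨1,[(15,0),(8,0),(0,0)]⟩,⟨0,[(16,0)]⟩),⟨0,[]⟩,.k,.k,.k,(.r (-1) ⟨3,[(3,0),(0,0),(9,1),(3,
  0),(2,1),(0,0),(8,1)]⟩ ⟨0,[(0,0)]⟩),.k,.k,⟨false,1,⟨1,[(14,0),(19,0)]⟩,⟨0,[(0,0),(30,0)]⟩⟩,⟨true,
  0,⟨2,[(5,0),(10,2),(1,1),(2,0)]⟩,⟨1,[(15,0),(8,0),(0,0)]⟩⟩,⟨true,0,⟨0,[(32,0)]⟩,⟨0,[(31,0)]⟩⟩,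
  ⟨false,0,⟨2,[(0,2),(4,0),(10,2),(1,1),(2,0)]⟩,⟨0,[(4,0)]⟩⟩,⟨false,1,⟨3,[(13,0),(0,0),(19,1)]⟩,⟨0,
  []⟩⟩,⟨true,0,⟨2,[(0,2),(4,0),(10,2),(1,1),(2,0),(9,2)]⟩,⟨0,[(1,0),(22,0),(0,0)]⟩⟩,[]⟩) (.Q [0,1,0,
  0,0,0,0,0,-1,0,0,1] (.p true [0,0,0,1] [] (⟨0,[(16,0)]⟩,⟨1,[(15,0),(8,0),(0,0)]⟩) .k 0 (⟨0,[]⟩,⟨0,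
  []⟩) .k .k) (.I [1,1,-1,0,0,0,0,0,-1] (.Q [0,-1,0,-1,0,0,0,0,1,0,0,-1] (.p false [0,0,0,1] [] (⟨0,
  [(18,0)]⟩,⟨1,[(17,0),(8,0),(0,0)]⟩) .k 0 (⟨0,[]⟩,⟨0,[]⟩) .k .k) (.R ⟨2,true,false,false,[0,1],[0,
  0,0,1],[1,0,1,1],(⟨0,[]⟩,⟨0,[]⟩),(⟨0,[(19,0)]⟩,⟨1,[(18,0),(8,0),(0,0)]⟩),⟨0,[]⟩,.k,.k,.k,(.r (-1)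
  ⟨0,[(3,0),(12,0)]⟩ ⟨0,[(5,0)]⟩),.k,.k,⟨false,1,⟨7,[(6,2),(0,0),(8,2),(1,0),(10,0),(4,3)]⟩,⟨0,[(5,
  0)]⟩⟩,⟨true,0,⟨1,[(18,0),(2,0),(2,0)]⟩,⟨0,[(19,0)]⟩⟩,⟨true,0,⟨0,[]⟩,⟨0,[(39,0)]⟩⟩,⟨false,0,⟨0,[(0,
  0)]⟩,⟨5,[(2,1),(3,3),(9,0),(0,0),(16,1)]⟩⟩,⟨false,1,⟨0,[(34,0),(2,0)]⟩,⟨0,[(35,0)]⟩⟩,⟨true,0,⟨0,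
  [(4,0)]⟩,⟨0,[(2,0)]⟩⟩,[]⟩) (.R ⟨2,true,false,true,[0,1],[1,0,0,-1],[0,0,1],(⟨0,[]⟩,⟨0,[]⟩),(⟨1,
  [(18,0),(8,0),(0,0)]⟩,⟨0,[(19,0)]⟩),⟨0,[]⟩,.k,.k,.k,(.x (-1) ⟨3,[(16,0),(0,0),(13,3),(4,1)]⟩ ⟨2,
  [(8,0),(12,1),(2,0),(5,2)]⟩),.k,.k,⟨false,1,⟨1,[(17,0),(19,0)]⟩,⟨0,[(1,0)]⟩⟩,⟨true,0,⟨2,[(8,0),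
  (10,2),(1,1),(2,0)]⟩,⟨1,[(18,0),(8,0),(0,0)]⟩⟩,⟨true,0,⟨0,[(35,0)]⟩,⟨0,[(34,0)]⟩⟩,⟨false,0,⟨3,[(0,
  2),(1,0),(5,1),(1,0),(2,1),(6,1),(11,3)]⟩,⟨0,[(7,0)]⟩⟩,⟨false,1,⟨3,[(16,0),(0,0),(19,1)]⟩,⟨0,[]⟩⟩,
  ⟨true,0,⟨3,[(0,0),(1,2),(5,1),(4,0),(6,0),(0,0)]⟩,⟨1,[(3,0),(1,0),(12,0),(8,0),(0,0)]⟩⟩,[]⟩)) (.R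
  ⟨2,true,false,false,[0,1],[0,0,0,1],[1,0,1,1],(⟨0,[]⟩,⟨0,[]⟩),(⟨0,[(18,0)]⟩,⟨1,[(17,0),(8,0),(0,
  0)]⟩),⟨0,[]⟩,.k,.k,.k,(.r (-1) ⟨0,[(2,0),(12,0)]⟩ ⟨0,[(4,0)]⟩),.k,.k,⟨false,1,⟨7,[(5,2),(0,0),(8,
  2),(1,0),(10,0),(4,3)]⟩,⟨0,[(4,0)]⟩⟩,⟨true,0,⟨1,[(17,0),(2,0),(2,0)]⟩,⟨0,[(18,0)]⟩⟩,⟨true,0,⟨0,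
  []⟩,⟨0,[(38,0)]⟩⟩,⟨false,0,⟨6,[(0,3),(2,2),(3,0),(1,2),(2,0),(4,1),(1,0),(11,2)]⟩,⟨5,[(1,1),(3,3),
  (9,0),(0,0),(16,1)]⟩⟩,⟨false,1,⟨0,[(33,0),(2,0)]⟩,⟨0,[(34,0)]⟩⟩,⟨true,0,⟨0,[(3,0)]⟩,⟨0,[(1,0)]⟩⟩,
  []⟩)) (.Q [0,0,0,0,0,1,0,0,0,0,0,-1] (.p false [0,0,0,1] [] (⟨0,[(17,0)]⟩,⟨1,[(16,0),(8,0),(0,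
  0)]⟩) .k 0 (⟨0,[]⟩,⟨0,[]⟩) .k .k) (.R ⟨0,false,false,false,[0,0,0,1],[1,-1],[1,0,0,0,0,0,0,0,1],
  (⟨0,[(18,0)]⟩,⟨1,[(17,0),(8,0),(0,0)]⟩),(⟨0,[(29,0)]⟩,⟨0,[(30,0)]⟩),⟨0,[(0,0)]⟩,.k,.k,(.r 0 ⟨0,
  [(4,0)]⟩ ⟨0,[(2,0),(12,0)]⟩),(.r 0 ⟨0,[(1,0),(5,0),(10,0),(1,0),(8,1),(0,1),(2,0)]⟩ ⟨3,[(9,1),(5,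
  2),(0,0),(17,1)]⟩),.k,.k,⟨false,0,⟨0,[(1,0),(16,0),(14,0)]⟩,⟨3,[(9,1),(5,2),(0,0),(17,1)]⟩⟩,⟨true,
  0,⟨2,[(7,0),(10,2),(1,1),(2,0)]⟩,⟨1,[(17,0),(8,0),(0,0)]⟩⟩,⟨true,0,⟨0,[]⟩,⟨0,[(38,0)]⟩⟩,⟨false,1,
  ⟨17,[(5,3),(1,1),(1,5),(2,1),(2,6),(2,13),(0,1),(8,6),(2,13)]⟩,⟨0,[(1,0),(8,0),(11,0)]⟩⟩,⟨false,0,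
  ⟨0,[]⟩,⟨0,[]⟩⟩,⟨false,0,⟨0,[]⟩,⟨0,[]⟩⟩,[.o ⟨false,0,⟨0,[(13,0),(5,0)]⟩,⟨15,[(5,3),(0,3),(8,2),(0,
  2),(11,1),(4,7)]⟩⟩,.o ⟨false,1,⟨5,[(9,1),(5,0),(0,0),(11,2),(2,3),(4,0)]⟩,⟨0,[(33,0)]⟩⟩,.a ⟨true,
  0,⟨1,[(17,0),(8,0),(0,0)]⟩,⟨0,[(18,0)]⟩⟩ ⟨false,0,⟨0,[(1,0),(16,0)]⟩,⟨3,[(15,2),(0,0)]⟩⟩ ⟨true,0,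
  ⟨0,[(13,0),(4,0),(0,0)]⟩,⟨1,[(10,0),(6,0),(4,0),(10,0)]⟩⟩,.o ⟨false,0,⟨1,[(17,0),(2,0),(2,0)]⟩,⟨1,
  [(18,1),(9,0),(6,0)]⟩⟩]⟩) (.R ⟨1,false,false,false,[0,0,0,1],[1,-1],[1,0,0,0,0,0,0,0,1],(⟨0,[(18,
  0)]⟩,⟨1,[(17,0),(8,0),(0,0)]⟩),(⟨0,[(29,0)]⟩,⟨0,[(30,0)]⟩),⟨0,[(0,0)]⟩,.k,.k,(.r 0 ⟨0,[(4,0)]⟩ ⟨0,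
  [(2,0),(12,0)]⟩),(.r 0 ⟨0,[(0,4),(0,0),(5,0),(9,1),(2,0),(9,4),(2,0)]⟩ ⟨3,[(9,1),(5,2),(0,0),(17,
  1)]⟩),.k,.k,⟨false,0,⟨0,[(1,0),(16,0),(14,0)]⟩,⟨3,[(9,1),(5,2),(0,0),(17,1)]⟩⟩,⟨true,0,⟨2,[(7,0),
  (10,2),(1,1),(2,0)]⟩,⟨1,[(17,0),(8,0),(0,0)]⟩⟩,⟨true,0,⟨0,[]⟩,⟨0,[(38,0)]⟩⟩,⟨false,1,⟨17,[(5,3),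
  (1,1),(1,5),(2,1),(2,6),(2,13),(0,1),(8,6),(2,13)]⟩,⟨0,[(1,0),(8,0),(11,0)]⟩⟩,⟨false,1,⟨6,[(1,1),
  (3,3),(0,1),(21,0),(4,0)]⟩,⟨0,[(34,0)]⟩⟩,⟨false,1,⟨5,[(5,3),(1,1),(4,1),(2,0),(2,1),(0,1),(8,0),
  (2,1)]⟩,⟨1,[(2,0),(1,0),(12,0),(8,0),(0,0)]⟩⟩,[.o ⟨false,0,⟨0,[(13,0),(5,0)]⟩,⟨15,[(5,3),(0,3),(8,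
  2),(0,2),(11,1),(4,7)]⟩⟩,.o ⟨false,1,⟨5,[(9,1),(5,0),(0,0),(11,2),(2,3),(4,0)]⟩,⟨0,[(33,0)]⟩⟩,.a
  ⟨true,0,⟨1,[(17,0),(8,0),(0,0)]⟩,⟨0,[(18,0)]⟩⟩ ⟨false,0,⟨0,[(1,0),(16,0)]⟩,⟨3,[(15,2),(0,0)]⟩⟩
  ⟨true,0,⟨0,[(13,0),(4,0),(0,0)]⟩,⟨1,[(10,0),(6,0),(4,0),(10,0)]⟩⟩,.o ⟨false,0,⟨1,[(17,0),(2,0),(2,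
  0)]⟩,⟨1,[(18,1),(9,0),(6,0)]⟩⟩]⟩))))) (.Q [0,0,0,0,0,1,0,0,0,0,0,-1] (.p false [0,0,0,1] [] (⟨0,
  [(14,0)]⟩,⟨1,[(13,0),(8,0),(0,0)]⟩) .k 0 (⟨0,[]⟩,⟨0,[]⟩) .k .k) (.R ⟨0,false,false,false,[0,0,0,
  1],[0,0,1],[1,0,0,0,0,0,0,0,1],(⟨0,[(15,0)]⟩,⟨1,[(14,0),(8,0),(0,0)]⟩),(⟨0,[(24,0)]⟩,⟨0,[(23,
  0)]⟩),⟨0,[(0,0)]⟩,.k,.k,(.x 0 ⟨2,[(4,0),(12,1),(2,0),(5,2)]⟩ ⟨3,[(12,0),(0,0),(13,3),(4,1)]⟩),.k,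
  .k,.k,⟨false,1,⟨3,[(3,1),(2,1),(1,3),(4,0),(1,1),(0,1),(2,1),(13,0)]⟩,⟨0,[(1,0),(7,0),(25,0)]⟩⟩,
  ⟨true,0,⟨0,[(8,0),(6,0)]⟩,⟨1,[(14,0),(2,0),(3,0)]⟩⟩,⟨true,0,⟨0,[]⟩,⟨0,[(35,0)]⟩⟩,⟨false,0,⟨0,[(1,
  0),(6,0),(0,0),(5,0)]⟩,⟨1,[(13,0),(0,0),(1,0),(2,0),(13,0)]⟩⟩,⟨false,0,⟨0,[]⟩,⟨0,[]⟩⟩,⟨false,0,⟨0,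
  []⟩,⟨0,[]⟩⟩,[.o ⟨false,0,⟨2,[(4,0),(6,0),(10,0)]⟩,⟨1,[(19,1),(5,0),(7,0)]⟩⟩,.o ⟨false,1,⟨7,[(11,
  3),(0,0),(0,0),(11,1),(7,3)]⟩,⟨0,[(16,0)]⟩⟩,.a ⟨true,0,⟨1,[(14,0),(8,0),(0,0)]⟩,⟨0,[(15,0)]⟩⟩
  ⟨false,1,⟨1,[(13,0),(19,0)]⟩,⟨1,[(1,1),(4,0),(24,0)]⟩⟩ ⟨true,0,⟨2,[(4,0),(6,0),(3,2),(6,0)]⟩,⟨1,
  [(14,0),(1,0),(2,0)]⟩⟩,.o ⟨false,0,⟨1,[(14,0),(2,0),(2,0)]⟩,⟨1,[(15,1),(9,0),(6,0)]⟩⟩]⟩) (.I [1,1,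
  0,0,0,0,0,0,1] (.R ⟨1,false,false,true,[0,0,0,1],[1,-1],[1,1,0,0,0,0,0,0,1],(⟨0,[(16,0)]⟩,⟨1,[(15,
  0),(8,0),(0,0)]⟩),(⟨0,[(27,0)]⟩,⟨0,[(28,0)]⟩),⟨0,[(1,0)]⟩,.k,.k,(.x 0 ⟨2,[(5,0),(12,1),(2,0),(5,
  2)]⟩ ⟨3,[(13,0),(0,0),(13,3),(4,1)]⟩),(.r (-1) ⟨0,[(2,0),(11,0)]⟩ ⟨0,[(2,0),(4,0),(24,0)]⟩),.k,.k,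
  ⟨false,1,⟨3,[(4,1),(9,0),(1,1),(9,0),(4,1)]⟩,⟨0,[(2,0),(4,0),(24,0)]⟩⟩,⟨true,0,⟨2,[(5,0),(10,2),
  (1,1),(2,0)]⟩,⟨1,[(15,0),(8,0),(0,0)]⟩⟩,⟨false,0,⟨0,[]⟩,⟨3,[(13,0),(0,0),(19,1)]⟩⟩,⟨false,0,⟨1,
  [(2,1),(4,0),(3,1),(4,1),(0,1),(14,0)]⟩,⟨0,[(4,0)]⟩⟩,⟨true,0,⟨0,[(31,0)]⟩,⟨0,[(32,0)]⟩⟩,⟨false,0,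
  ⟨2,[(2,2),(2,0),(1,0),(2,0),(0,0),(4,2),(0,1)]⟩,⟨0,[(4,0),(27,0)]⟩⟩,[.o ⟨false,0,⟨1,[(11,0),(5,1),
  (1,0),(12,0)]⟩,⟨0,[(31,0),(2,0)]⟩⟩,.o ⟨false,0,⟨0,[(11,0),(5,0)]⟩,⟨15,[(3,3),(0,3),(8,2),(0,2),
  (11,1),(4,7)]⟩⟩,.a ⟨true,0,⟨1,[(15,0),(8,0),(0,0)]⟩,⟨0,[(16,0)]⟩⟩ ⟨true,0,⟨0,[(0,0)]⟩,⟨1,[(2,1),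
  (4,0),(24,0)]⟩⟩ ⟨false,0,⟨0,[(11,0),(4,0),(0,0)]⟩,⟨1,[(3,0),(0,0),(10,0)]⟩⟩,.o ⟨false,0,⟨1,[(15,
  0),(2,0),(2,0)]⟩,⟨1,[(16,1),(9,0),(6,0)]⟩⟩]⟩) (.R ⟨1,false,false,false,[1,0,0,-1],[1,-1],[1,0,0,0,
  0,0,0,0,-1],(⟨1,[(15,0),(8,0),(0,0)]⟩,⟨0,[(16,0)]⟩),(⟨0,[(27,0)]⟩,⟨0,[(28,0)]⟩),⟨0,[(1,0),(13,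
  0)]⟩,.k,.k,(.r 0 ⟨1,[(0,1),(6,0),(24,0),(3,1)]⟩ ⟨0,[(2,0),(11,0)]⟩),(.r 0 ⟨0,[(0,0),(0,3),(3,0),
  (9,1),(2,0),(9,3),(2,0)]⟩ ⟨3,[(7,1),(5,0),(0,2),(17,1)]⟩),.k,.k,⟨false,0,⟨0,[(0,0),(30,0)]⟩,⟨3,
  [(7,1),(5,0),(0,2),(17,1)]⟩⟩,⟨true,0,⟨1,[(15,0),(2,0),(2,0)]⟩,⟨0,[(16,0)]⟩⟩,⟨true,0,⟨0,[]⟩,⟨0,
  [(36,0)]⟩⟩,⟨false,1,⟨23,[(7,7),(5,0),(0,12),(0,11),(10,5),(2,15),(4,3)]⟩,⟨0,[(0,0),(15,0),(14,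
  0)]⟩⟩,⟨false,1,⟨0,[(31,0),(2,0)]⟩,⟨0,[(32,0)]⟩⟩,⟨false,1,⟨6,[(4,0),(0,1),(4,0),(3,2),(0,2),(1,0),
  (0,0),(15,2)]⟩,⟨0,[(0,0),(15,0),(19,0)]⟩⟩,[.o ⟨false,0,⟨0,[(11,0),(5,0)]⟩,⟨15,[(3,3),(0,3),(8,2),
  (0,2),(11,1),(4,7)]⟩⟩,.o ⟨false,1,⟨5,[(7,1),(5,0),(0,0),(11,2),(2,3),(4,0)]⟩,⟨0,[(31,0)]⟩⟩,.a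
  ⟨true,0,⟨0,[(16,0)]⟩,⟨1,[(15,0),(8,0),(0,0)]⟩⟩ ⟨false,0,⟨0,[(0,0)]⟩,⟨3,[(13,0),(0,2)]⟩⟩ ⟨true,0,
  ⟨1,[(11,0),(3,0),(1,0),(14,0)]⟩,⟨0,[(16,0),(14,0)]⟩⟩,.o ⟨false,0,⟨2,[(5,0),(10,2),(1,1),(2,0)]⟩,
  ⟨7,[(13,0),(0,0),(0,3),(10,1),(6,3)]⟩⟩]⟩))))))) (.Q [0,0,0,0,0,1,0,0,0,-1,1] (.ed false [0,1,1]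
  .k) (.Q [0,0,-1,0,0,0,1,0,0,2,-1] (.p false [-1,1,1] [1] (⟨0,[(0,0)]⟩,⟨0,[(19,0),(2,0)]⟩) .k 1
  (⟨0,[]⟩,⟨0,[]⟩) .k .k) (.R ⟨0,false,false,false,[-1,1,1],[0,0,1],[],(⟨0,[(1,0)]⟩,⟨0,[(20,0),(2,
  0)]⟩),(⟨0,[(21,0)]⟩,⟨0,[(20,0)]⟩),⟨0,[(20,0)]⟩,.k,.k,.k,.k,.k,.k,⟨false,1,⟨1,[(0,1),(12,1),(8,0),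
  (7,0)]⟩,⟨0,[(19,0)]⟩⟩,⟨true,0,⟨0,[(5,0),(8,0)]⟩,⟨1,[(0,0),(17,0)]⟩⟩,⟨false,1,⟨3,[(0,2),(2,1),(9,
  3),(3,0),(4,0),(2,1),(4,2)]⟩,⟨0,[(4,0),(9,0)]⟩⟩,⟨true,0,⟨0,[(7,0),(5,0)]⟩,⟨1,[(0,0),(17,0),(8,
  1)]⟩⟩,⟨false,0,⟨0,[]⟩,⟨0,[]⟩⟩,⟨false,0,⟨0,[]⟩,⟨0,[]⟩⟩,[.o ⟨false,0,⟨0,[(7,0),(19,0)]⟩,⟨1,[(16,1),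
  (5,0),(7,0)]⟩⟩,.o ⟨false,1,⟨7,[(8,3),(0,0),(0,0),(11,1),(7,3)]⟩,⟨0,[(13,0)]⟩⟩,.a ⟨true,0,⟨0,[(0,
  0)]⟩,⟨0,[(14,0)]⟩⟩ ⟨false,1,⟨3,[(9,0),(0,0),(19,1)]⟩,⟨0,[]⟩⟩ ⟨true,0,⟨0,[(7,0),(6,0),(12,0)]⟩,⟨0,
  [(0,0),(12,0)]⟩⟩,.o ⟨false,0,⟨1,[(0,0),(16,0)]⟩,⟨1,[(14,1),(7,0),(6,0)]⟩⟩]⟩) (.Q [0,1,0,-1,-1,0,0,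
  0,1,0,0,-1] (.p false [0,0,0,1] [] (⟨0,[(12,0)]⟩,⟨1,[(11,0),(8,0),(0,0)]⟩) .k 0 (⟨0,[]⟩,⟨0,[]⟩)
  .k .k) (.R ⟨2,true,false,true,[0,1],[0,0,0,1],[1,1,1,1],(⟨0,[]⟩,⟨0,[]⟩),(⟨0,[(13,0)]⟩,⟨1,[(12,0),
  (8,0),(0,0)]⟩),⟨0,[]⟩,.k,.k,.k,(.r (-1) ⟨1,[(10,0),(7,0),(0,0),(8,1),(2,0)]⟩ ⟨3,[(0,1),(3,1),(6,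
  0),(1,1),(17,0)]⟩),.k,.k,⟨false,1,⟨1,[(10,0),(17,1),(2,0)]⟩,⟨3,[(0,1),(3,1),(6,0),(1,1),(17,0)]⟩⟩,
  ⟨true,0,⟨3,[(1,0),(10,1),(5,1),(0,0)]⟩,⟨0,[(13,0)]⟩⟩,⟨false,0,⟨0,[]⟩,⟨3,[(10,0),(0,0),(19,1)]⟩⟩,
  ⟨true,(-1),⟨0,[(0,0)]⟩,⟨1,[(10,0),(2,1),(14,1),(2,0)]⟩⟩,⟨true,0,⟨0,[(28,0)]⟩,⟨0,[(29,0)]⟩⟩,⟨false,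
  0,⟨0,[(0,0),(27,0),(2,0)]⟩,⟨1,[(10,0),(2,1),(17,0)]⟩⟩,[]⟩) (.Q [0,1,0,-1,-1,0,0,0,-1,-1,0,1] (.p
  true [0,0,0,1] [1] (⟨0,[(13,0)]⟩,⟨1,[(12,0),(8,0),(0,0)]⟩) .k 1 (⟨0,[]⟩,⟨0,[]⟩) .k .k) (.R ⟨2,
  true,false,true,[0,1],[1,0,0,-1],[1,1,1,1],(⟨0,[]⟩,⟨0,[]⟩),(⟨1,[(13,0),(8,0),(0,0)]⟩,⟨0,[(14,
  0)]⟩),⟨0,[]⟩,.k,.k,.k,(.r (-1) ⟨1,[(12,0),(6,0),(0,0),(8,1),(2,0)]⟩ ⟨9,[(0,3),(0,1),(3,5),(5,1),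
  (1,2),(8,0),(0,0),(3,1)]⟩),.k,.k,⟨false,1,⟨1,[(12,0),(16,1),(2,0)]⟩,⟨9,[(0,3),(0,1),(3,5),(5,1),
  (1,2),(8,0),(0,0),(3,1)]⟩⟩,⟨true,0,⟨1,[(2,0),(11,1),(4,0)]⟩,⟨1,[(13,0),(8,0),(0,0)]⟩⟩,⟨false,0,⟨0,
  []⟩,⟨3,[(11,0),(0,0),(19,1)]⟩⟩,⟨true,(-1),⟨0,[(0,0)]⟩,⟨1,[(6,0),(5,0),(0,0),(4,0),(10,0),(2,0)]⟩⟩,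
  ⟨true,0,⟨0,[(29,0)]⟩,⟨0,[(30,0)]⟩⟩,⟨false,0,⟨0,[(0,0),(28,0),(2,0)]⟩,⟨1,[(12,0),(0,0),(8,0),(0,0),
  (8,0)]⟩⟩,[]⟩) (.I [0,0,-1,-1,0,0,0,0,1] (.Q [0,0,0,0,0,0,0,0,-1,0,0,1] (.p true [0,0,0,1] [] (⟨0,
  [(15,0)]⟩,⟨1,[(14,0),(8,0),(0,0)]⟩) .k 0 (⟨0,[]⟩,⟨0,[]⟩) .k .k) (.R ⟨2,true,false,true,[0,1],[0,0,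
  0,1],[0,0,1],(⟨0,[]⟩,⟨0,[]⟩),(⟨0,[(16,0)]⟩,⟨1,[(15,0),(8,0),(0,0)]⟩),⟨0,[]⟩,.k,.k,.k,(.r (-1) ⟨7,
  [(2,1),(0,1),(0,0),(8,3),(7,3),(0,2),(8,3)]⟩ ⟨0,[(1,0)]⟩),.k,.k,⟨false,1,⟨1,[(13,0),(20,0)]⟩,⟨0,
  [(1,0),(29,0)]⟩⟩,⟨true,0,⟨3,[(4,0),(10,1),(5,1),(0,0)]⟩,⟨0,[(16,0)]⟩⟩,⟨true,0,⟨0,[(32,0)]⟩,⟨0,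
  [(31,0)]⟩⟩,⟨false,0,⟨3,[(1,3),(2,0),(10,1),(5,1),(0,0)]⟩,⟨0,[(3,0)]⟩⟩,⟨false,1,⟨3,[(13,0),(0,0),
  (19,1)]⟩,⟨0,[]⟩⟩,⟨true,0,⟨3,[(1,3),(2,0),(10,1),(5,1),(0,0),(8,3)]⟩,⟨0,[(0,0)]⟩⟩,[]⟩) (.Q [0,0,0,
  -1,0,0,0,0,-1,-1,0,1] (.p true [0,0,0,1] [1] (⟨0,[(16,0)]⟩,⟨1,[(15,0),(8,0),(0,0)]⟩) .k 1 (⟨0,[]⟩,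
  ⟨0,[]⟩) .k .k) (.R ⟨2,true,false,true,[0,1],[1,0,0,-1],[1,0,1,1],(⟨0,[]⟩,⟨0,[]⟩),(⟨1,[(16,0),(8,
  0),(0,0)]⟩,⟨0,[(17,0)]⟩),⟨0,[]⟩,.k,.k,.k,(.x (-1) ⟨3,[(14,0),(0,0),(13,3),(4,1)]⟩ ⟨1,[(5,0),(16,
  0),(5,1)]⟩),.k,.k,⟨false,1,⟨0,[(1,0),(15,0),(14,0),(2,0)]⟩,⟨5,[(0,5),(7,1),(0,1),(3,0),(2,2),(4,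
  3),(9,1)]⟩⟩,⟨true,0,⟨1,[(5,0),(11,1),(4,0)]⟩,⟨1,[(16,0),(8,0),(0,0)]⟩⟩,⟨true,0,⟨0,[]⟩,⟨0,[(37,
  0)]⟩⟩,⟨false,0,⟨0,[(0,0)]⟩,⟨0,[(3,0)]⟩⟩,⟨false,1,⟨0,[(32,0),(2,0)]⟩,⟨0,[(33,0)]⟩⟩,⟨true,0,⟨0,[(0,
  0),(31,0)]⟩,⟨0,[(1,0),(23,0),(0,0)]⟩⟩,[]⟩) (.Q [0,0,0,0,0,1,0,0,0,0,0,-1] (.p false [0,0,0,1] []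
  (⟨0,[(17,0)]⟩,⟨1,[(16,0),(8,0),(0,0)]⟩) .k 0 (⟨0,[]⟩,⟨0,[]⟩) .k .k) (.R ⟨0,false,false,false,[0,0,
  0,1],[1,-1],[0,1,0,0,0,0,0,0,1],(⟨0,[(18,0)]⟩,⟨1,[(17,0),(8,0),(0,0)]⟩),(⟨0,[(29,0)]⟩,⟨0,[(30,
  0)]⟩),⟨0,[(0,0)]⟩,.k,.k,(.r 0 ⟨0,[(3,0)]⟩ ⟨7,[(4,1),(0,1),(0,0),(8,3),(7,3),(0,2),(8,3)]⟩),(.r 0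
  ⟨1,[(1,1),(4,0),(11,1),(4,0)]⟩ ⟨0,[(3,0),(11,0)]⟩),.k,.k,⟨false,0,⟨3,[(1,1),(1,1),(2,0),(11,1),(4,
  0),(9,3)]⟩,⟨7,[(3,1),(5,3),(5,4),(15,1),(4,2)]⟩⟩,⟨true,0,⟨1,[(6,0),(11,1),(4,0)]⟩,⟨1,[(17,0),(8,
  0),(0,0)]⟩⟩,⟨true,0,⟨0,[(38,0)]⟩,⟨0,[]⟩⟩,⟨false,1,⟨17,[(5,3),(0,1),(2,7),(1,1),(3,6),(2,13),(9,6),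
  (2,13)]⟩,⟨0,[(1,0)]⟩⟩,⟨false,0,⟨0,[]⟩,⟨0,[]⟩⟩,⟨false,0,⟨0,[]⟩,⟨0,[]⟩⟩,[.o ⟨false,0,⟨0,[(13,0),(5,
  0)]⟩,⟨15,[(4,3),(0,3),(9,2),(0,2),(11,1),(4,7)]⟩⟩,.o ⟨false,1,⟨3,[(3,1),(11,0),(12,1),(2,1),(4,
  0)]⟩,⟨0,[(33,0)]⟩⟩,.a ⟨true,0,⟨1,[(17,0),(8,0),(0,0)]⟩,⟨0,[(18,0)]⟩⟩ ⟨false,0,⟨3,[(1,1),(1,1),(2,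
  0),(11,1),(4,0)]⟩,⟨1,[(15,0),(20,0)]⟩⟩ ⟨true,0,⟨0,[(13,0),(4,0),(0,0)]⟩,⟨1,[(10,0),(6,0),(4,0),
  (10,0)]⟩⟩,.o ⟨false,0,⟨3,[(6,0),(10,1),(5,1),(0,0)]⟩,⟨1,[(18,1),(9,0),(6,0)]⟩⟩]⟩) (.R ⟨1,false,
  false,false,[0,0,0,1],[1,-1],[1,1,0,0,0,0,0,0,1],(⟨0,[(18,0)]⟩,⟨1,[(17,0),(8,0),(0,0)]⟩),(⟨0,[(29,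
  0)]⟩,⟨0,[(30,0)]⟩),⟨0,[(0,0)]⟩,.k,.k,(.r 0 ⟨0,[(3,0)]⟩ ⟨7,[(4,1),(0,1),(0,0),(8,3),(7,3),(0,2),(8,
  3)]⟩),(.r 0 ⟨1,[(1,1),(4,0),(11,1),(4,0)]⟩ ⟨0,[(3,0),(11,0)]⟩),.k,.k,⟨false,0,⟨3,[(1,1),(1,1),(2,
  0),(11,1),(4,0),(9,3)]⟩,⟨7,[(3,1),(5,3),(5,4),(15,1),(4,2)]⟩⟩,⟨true,0,⟨1,[(6,0),(11,1),(4,0)]⟩,⟨1,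
  [(17,0),(8,0),(0,0)]⟩⟩,⟨false,0,⟨0,[]⟩,⟨3,[(15,0),(0,0),(19,1)]⟩⟩,⟨false,1,⟨17,[(5,3),(0,1),(2,7),
  (1,1),(3,6),(2,13),(9,6),(2,13)]⟩,⟨0,[(1,0)]⟩⟩,⟨true,0,⟨0,[(33,0)]⟩,⟨0,[(34,0)]⟩⟩,⟨false,1,⟨5,[(5,
  3),(0,1),(2,1),(1,1),(3,0),(2,1),(9,0),(2,1)]⟩,⟨5,[(1,3),(1,1),(10,0),(2,0),(4,1),(8,1)]⟩⟩,[.o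
  ⟨false,0,⟨0,[(13,0),(5,0)]⟩,⟨15,[(4,3),(0,3),(9,2),(0,2),(11,1),(4,7)]⟩⟩,.o ⟨false,1,⟨3,[(3,1),
  (11,0),(12,1),(2,1),(4,0)]⟩,⟨0,[(33,0)]⟩⟩,.a ⟨true,0,⟨1,[(17,0),(8,0),(0,0)]⟩,⟨0,[(18,0)]⟩⟩
  ⟨false,0,⟨3,[(1,1),(1,1),(2,0),(11,1),(4,0)]⟩,⟨1,[(15,0),(20,0)]⟩⟩ ⟨true,0,⟨0,[(13,0),(4,0),(0,
  0)]⟩,⟨1,[(10,0),(6,0),(4,0),(10,0)]⟩⟩,.o ⟨false,0,⟨3,[(6,0),(10,1),(5,1),(0,0)]⟩,⟨1,[(18,1),(9,0),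
  (6,0)]⟩⟩]⟩)))) (.Q [0,0,0,0,0,1,0,0,0,0,0,-1] (.p false [0,0,0,1] [] (⟨0,[(15,0)]⟩,⟨1,[(14,0),(8,
  0),(0,0)]⟩) .k 0 (⟨0,[]⟩,⟨0,[]⟩) .k .k) (.R ⟨0,false,false,false,[0,0,0,1],[0,0,1],[1,0,0,0,0,0,0,
  0,1],(⟨0,[(16,0)]⟩,⟨1,[(15,0),(8,0),(0,0)]⟩),(⟨0,[(25,0)]⟩,⟨0,[(24,0)]⟩),⟨0,[(0,0)]⟩,.k,.k,(.x 0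
  ⟨1,[(4,0),(16,0),(5,1)]⟩ ⟨3,[(13,0),(0,0),(13,3),(4,1)]⟩),.k,.k,.k,⟨false,1,⟨3,[(2,1),(4,1),(1,3),
  (4,0),(1,1),(0,1),(2,1),(13,0)]⟩,⟨0,[(1,0),(8,0),(25,0)]⟩⟩,⟨true,0,⟨0,[(9,0),(6,0)]⟩,⟨3,[(4,0),
  (10,1),(6,2)]⟩⟩,⟨true,0,⟨0,[]⟩,⟨0,[(36,0)]⟩⟩,⟨false,0,⟨0,[(1,0),(7,0),(0,0),(5,0)]⟩,⟨1,[(14,0),(0,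
  0),(1,0),(2,0),(13,0)]⟩⟩,⟨false,0,⟨0,[]⟩,⟨0,[]⟩⟩,⟨false,0,⟨0,[]⟩,⟨0,[]⟩⟩,[.o ⟨false,0,⟨6,[(4,1),
  (2,0),(0,0),(0,1),(2,2)]⟩,⟨1,[(20,1),(5,0),(7,0)]⟩⟩,.o ⟨false,1,⟨7,[(12,3),(0,0),(0,0),(11,1),(7,
  3)]⟩,⟨0,[(17,0)]⟩⟩,.a ⟨true,0,⟨1,[(15,0),(8,0),(0,0)]⟩,⟨0,[(16,0)]⟩⟩ ⟨false,1,⟨1,[(14,0),(19,0)]⟩,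
  ⟨1,[(1,1),(5,0),(24,0)]⟩⟩ ⟨true,0,⟨6,[(4,1),(2,0),(0,0),(0,1),(2,2),(3,6)]⟩,⟨1,[(15,0),(1,0),(2,
  0)]⟩⟩,.o ⟨false,0,⟨3,[(4,0),(10,1),(5,1),(0,0)]⟩,⟨1,[(16,1),(9,0),(6,0)]⟩⟩]⟩) (.I [1,1,0,0,0,0,0,
  0,1] (.R ⟨1,false,false,true,[0,0,0,1],[1,-1],[1,1,0,0,0,0,0,0,1],(⟨0,[(17,0)]⟩,⟨1,[(16,0),(8,0),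
  (0,0)]⟩),(⟨0,[(28,0)]⟩,⟨0,[(29,0)]⟩),⟨0,[(1,0)]⟩,.k,.k,(.x 0 ⟨1,[(5,0),(16,0),(5,1)]⟩ ⟨3,[(14,0),
  (0,0),(13,3),(4,1)]⟩),(.r (-1) ⟨0,[(2,0),(12,0)]⟩ ⟨0,[(2,0),(5,0),(24,0)]⟩),.k,.k,⟨false,1,⟨3,[(3,
  1),(11,0),(1,1),(9,0),(4,1)]⟩,⟨0,[(2,0),(5,0),(24,0)]⟩⟩,⟨true,0,⟨1,[(5,0),(11,1),(4,0)]⟩,⟨1,[(16,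
  0),(8,0),(0,0)]⟩⟩,⟨false,0,⟨0,[]⟩,⟨3,[(14,0),(0,0),(19,1)]⟩⟩,⟨false,0,⟨1,[(2,1),(5,0),(3,1),(4,1),
  (0,1),(14,0)]⟩,⟨0,[(3,0)]⟩⟩,⟨true,0,⟨0,[(32,0)]⟩,⟨0,[(33,0)]⟩⟩,⟨false,0,⟨1,[(2,1),(2,0),(2,1),(8,
  1),(4,0)]⟩,⟨0,[(3,0),(29,0)]⟩⟩,[.o ⟨false,0,⟨1,[(12,0),(5,1),(1,0),(12,0)]⟩,⟨0,[(32,0),(2,0)]⟩⟩,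
  .o ⟨false,0,⟨0,[(12,0),(5,0)]⟩,⟨15,[(3,3),(0,3),(9,2),(0,2),(11,1),(4,7)]⟩⟩,.a ⟨true,0,⟨1,[(16,0),
  (8,0),(0,0)]⟩,⟨0,[(17,0)]⟩⟩ ⟨true,0,⟨0,[(0,0)]⟩,⟨1,[(2,1),(5,0),(24,0)]⟩⟩ ⟨false,0,⟨0,[(12,0),(4,
  0),(0,0)]⟩,⟨1,[(3,0),(0,0),(11,0)]⟩⟩,.o ⟨false,0,⟨3,[(5,0),(10,1),(5,1),(0,0)]⟩,⟨1,[(17,1),(9,0),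
  (6,0)]⟩⟩]⟩) (.R ⟨1,false,false,false,[1,0,0,-1],[1,-1],[1,0,0,0,0,0,0,0,-1],(⟨1,[(16,0),(8,0),(0,
  0)]⟩,⟨0,[(17,0)]⟩),(⟨0,[(28,0)]⟩,⟨0,[(29,0)]⟩),⟨0,[(1,0),(14,0)]⟩,.k,.k,(.r 0 ⟨1,[(0,1),(7,0),(24,
  0),(3,1)]⟩ ⟨0,[(2,0),(12,0)]⟩),(.r 0 ⟨0,[(0,0),(0,3),(3,0),(4,0),(5,1),(12,3),(2,0)]⟩ ⟨3,[(8,1),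
  (5,0),(0,2),(17,1)]⟩),.k,.k,⟨false,0,⟨0,[(0,0),(31,0)]⟩,⟨3,[(8,1),(5,0),(0,2),(17,1)]⟩⟩,⟨true,0,
  ⟨3,[(5,0),(10,1),(5,1),(0,0)]⟩,⟨0,[(17,0)]⟩⟩,⟨true,0,⟨0,[]⟩,⟨0,[(37,0)]⟩⟩,⟨false,1,⟨23,[(8,7),(5,
  0),(0,12),(0,11),(10,5),(2,15),(4,3)]⟩,⟨0,[(0,0),(16,0),(14,0)]⟩⟩,⟨false,1,⟨0,[(32,0),(2,0)]⟩,⟨0,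
  [(33,0)]⟩⟩,⟨false,1,⟨6,[(3,0),(1,1),(2,0),(1,1),(4,2),(0,2),(18,2)]⟩,⟨0,[(0,0),(16,0),(19,0)]⟩⟩,
  [.o ⟨false,0,⟨0,[(12,0),(5,0)]⟩,⟨15,[(3,3),(0,3),(9,2),(0,2),(11,1),(4,7)]⟩⟩,.o ⟨false,1,⟨5,[(8,
  1),(5,0),(0,0),(11,2),(2,3),(4,0)]⟩,⟨0,[(32,0)]⟩⟩,.a ⟨true,0,⟨0,[(17,0)]⟩,⟨1,[(16,0),(8,0),(0,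
  0)]⟩⟩ ⟨false,0,⟨0,[(0,0)]⟩,⟨3,[(14,0),(0,2)]⟩⟩ ⟨true,0,⟨1,[(12,0),(3,0),(1,0),(14,0)]⟩,⟨0,[(17,0),
  (14,0)]⟩⟩,.o ⟨false,0,⟨1,[(5,0),(11,1),(4,0)]⟩,⟨7,[(14,0),(0,0),(0,3),(10,1),(6,3)]⟩⟩]⟩)))))))
  (.Q [0,0,0,-1,0,0,-1,-1,0,0,1] (.p true [0,0,1] [] (⟨0,[(20,0)]⟩,⟨0,[(19,0)]⟩) .k 0 (⟨0,[]⟩,⟨0,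
  []⟩) .k .k) (.R ⟨2,true,false,false,[0,1],[0,1,1],[0,1,1],(⟨0,[]⟩,⟨0,[]⟩),(⟨0,[(21,0),(2,0)]⟩,⟨0,
  [(1,0)]⟩),⟨0,[]⟩,.k,.k,.k,.k,.k,.k,⟨false,0,⟨1,[(0,0),(2,0),(1,1),(10,0),(15,0)]⟩,⟨0,[(19,0),(7,
  0),(2,0)]⟩⟩,⟨true,0,⟨0,[(5,0)]⟩,⟨0,[(18,0)]⟩⟩,⟨false,0,⟨0,[(28,0)]⟩,⟨0,[(27,0),(2,0)]⟩⟩,⟨true,0,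
  ⟨0,[(7,0),(19,0)]⟩,⟨0,[(16,0)]⟩⟩,⟨true,0,⟨0,[(32,0)]⟩,⟨0,[]⟩⟩,⟨false,1,⟨1,[(4,1),(17,0),(7,0)]⟩,
  ⟨0,[(0,0)]⟩⟩,[]⟩) (.Q [0,0,0,0,0,0,-1,-1,-1,-1,1,1] (.p true [0,0,1] [1,0,0,-1] (⟨0,[(21,0)]⟩,⟨0,
  [(20,0)]⟩) .k 2 (⟨1,[(11,0),(8,0),(0,0)]⟩,⟨0,[(12,0)]⟩) .k (.x 0 ⟨0,[(5,0),(15,0)]⟩ ⟨1,[(18,1),(1,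
  1),(1,0),(6,0)]⟩)) (.R ⟨1,false,false,false,[1,0,0,-1],[0,0,1],[0,0,0,-1,0,0,0,0,-1],(⟨1,[(12,0),
  (8,0),(0,0)]⟩,⟨0,[(13,0)]⟩),(⟨0,[(22,0)]⟩,⟨0,[(21,0)]⟩),⟨1,[(2,0),(0,0),(8,0)]⟩,.k,.k,(.r 0 ⟨1,
  [(0,1),(3,0),(4,0),(2,0),(16,0)]⟩ ⟨1,[(11,0),(6,0),(0,0),(8,1),(2,0)]⟩),.k,(.r 0 ⟨1,[(0,1),(3,1),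
  (7,0),(5,1),(2,0),(0,0)]⟩ ⟨3,[(1,3),(8,0),(0,2),(7,3)]⟩),.k,⟨false,0,⟨1,[(0,1),(3,1),(7,0),(5,1),
  (2,0),(0,0)]⟩,⟨1,[(1,1),(9,0),(7,1),(10,0)]⟩⟩,⟨true,0,⟨1,[(6,1),(5,0),(8,0),(0,0)]⟩,⟨0,[(13,0),(1,
  0)]⟩⟩,⟨true,0,⟨0,[(29,0)]⟩,⟨0,[(28,0)]⟩⟩,⟨false,1,⟨1,[(9,0),(1,0),(0,0),(18,0)]⟩,⟨0,[(0,0)]⟩⟩,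
  ⟨false,1,⟨3,[(10,0),(0,0),(19,1)]⟩,⟨0,[]⟩⟩,⟨false,1,⟨1,[(1,0),(3,0),(5,0),(0,0),(18,0)]⟩,⟨0,[(0,
  0),(28,0)]⟩⟩,[.o ⟨false,0,⟨2,[(1,0),(6,0),(7,0)]⟩,⟨1,[(17,1),(5,0),(7,0)]⟩⟩,.o ⟨false,1,⟨7,[(9,3),
  (0,0),(0,0),(11,1),(7,3)]⟩,⟨0,[(14,0)]⟩⟩,.a ⟨true,0,⟨0,[(13,0)]⟩,⟨1,[(12,0),(8,0),(0,0)]⟩⟩ ⟨false,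
  0,⟨5,[(0,5),(3,1),(0,1),(2,1),(0,0),(2,2),(13,3)]⟩,⟨1,[(11,0),(16,1),(2,0)]⟩⟩ ⟨true,0,⟨1,[(9,0),
  (2,0)]⟩,⟨0,[(13,0),(0,0)]⟩⟩,.o ⟨false,0,⟨0,[(6,0),(6,0),(1,0)]⟩,⟨7,[(10,0),(0,0),(0,3),(10,1),(6,
  3)]⟩⟩]⟩) (.Q [0,-1,0,-1,0,0,0,0,-1,-1,0,1] (.p true [0,0,0,1] [1] (⟨0,[(13,0)]⟩,⟨1,[(12,0),(8,0),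
  (0,0)]⟩) .k 1 (⟨0,[]⟩,⟨0,[]⟩) .k .k) (.R ⟨2,true,false,false,[0,1],[1,0,0,-1],[1,0,1,1],(⟨0,[]⟩,
  ⟨0,[]⟩),(⟨1,[(13,0),(8,0),(0,0)]⟩,⟨0,[(14,0)]⟩),⟨0,[]⟩,.k,.k,.k,(.r (-1) ⟨1,[(12,0),(6,0),(0,0),
  (8,1),(2,0)]⟩ ⟨5,[(0,5),(4,1),(0,1),(3,0),(2,2),(4,3),(9,1)]⟩),.k,.k,⟨false,1,⟨1,[(12,0),(16,1),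
  (2,0)]⟩,⟨5,[(0,5),(4,1),(0,1),(3,0),(2,2),(4,3),(9,1)]⟩⟩,⟨true,0,⟨0,[(7,0),(6,0),(1,0)]⟩,⟨1,[(13,
  0),(8,0),(0,0)]⟩⟩,⟨true,0,⟨0,[]⟩,⟨0,[(34,0)]⟩⟩,⟨false,0,⟨0,[(0,0)]⟩,⟨1,[(6,0),(5,0),(0,0),(4,0),
  (10,0),(2,0)]⟩⟩,⟨false,1,⟨0,[(29,0),(2,0)]⟩,⟨0,[(30,0)]⟩⟩,⟨true,0,⟨0,[(0,0),(28,0)]⟩,⟨0,[(1,0),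
  (16,0)]⟩⟩,[]⟩) (.Q [0,-1,0,1,0,0,1,1,1,1,-1,-1] (.p false [0,0,1] [1,0,0,-1] (⟨0,[(23,0)]⟩,⟨0,
  [(22,0)]⟩) .k 2 (⟨1,[(13,0),(8,0),(0,0)]⟩,⟨0,[(14,0)]⟩) .k (.r 0 ⟨0,[(0,0),(6,0),(0,0),(5,0),(1,
  0)]⟩ ⟨1,[(7,1),(3,0),(6,1),(13,0)]⟩)) (.R ⟨1,false,false,false,[1,0,0,-1],[0,0,1],[0,0,0,-1,0,0,0,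
  0,-1],(⟨1,[(14,0),(8,0),(0,0)]⟩,⟨0,[(15,0)]⟩),(⟨0,[(24,0)]⟩,⟨0,[(23,0)]⟩),⟨1,[(4,0),(0,0),(8,0)]⟩,
  .k,.k,(.r (-1) ⟨3,[(6,1),(5,2),(0,0),(17,1)]⟩ ⟨1,[(0,1),(14,1),(0,1),(3,0),(0,0)]⟩),.k,(.r (-1)
  ⟨1,[(6,1),(5,0),(6,1),(0,1),(12,0)]⟩ ⟨2,[(0,1),(0,0),(13,2),(1,2),(0,0)]⟩),.k,⟨false,1,⟨1,[(6,1),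
  (5,0),(6,1),(0,1),(12,0)]⟩,⟨1,[(0,0),(0,0),(1,0),(5,0),(5,1),(0,0),(0,0)]⟩⟩,⟨true,0,⟨1,[(8,1),(5,
  0),(8,0),(0,0)]⟩,⟨0,[(15,0),(1,0)]⟩⟩,⟨true,0,⟨0,[(31,0)]⟩,⟨0,[(30,0)]⟩⟩,⟨false,0,⟨4,[(0,2),(1,1),
  (3,0),(21,1)]⟩,⟨1,[(12,0),(2,1),(0,1),(16,0)]⟩⟩,⟨false,1,⟨3,[(12,0),(0,0),(19,1)]⟩,⟨0,[]⟩⟩,⟨false,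
  0,⟨0,[(0,0)]⟩,⟨5,[(6,1),(5,2),(2,5),(0,1),(2,3),(5,1),(2,3),(4,0)]⟩⟩,[.o ⟨false,0,⟨2,[(3,0),(6,0),
  (7,0)]⟩,⟨1,[(19,1),(5,0),(7,0)]⟩⟩,.o ⟨false,1,⟨7,[(11,3),(0,0),(0,0),(11,1),(7,3)]⟩,⟨0,[(16,0)]⟩⟩,
  .a ⟨true,0,⟨0,[(15,0)]⟩,⟨1,[(14,0),(8,0),(0,0)]⟩⟩ ⟨false,1,⟨5,[(6,1),(5,3),(0,0),(14,3),(4,0)]⟩,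
  ⟨0,[(0,0),(14,0),(0,0)]⟩⟩ ⟨true,0,⟨1,[(11,0),(2,0)]⟩,⟨0,[(15,0),(0,0)]⟩⟩,.o ⟨false,0,⟨0,[(8,0),(6,
  0),(1,0)]⟩,⟨7,[(12,0),(0,0),(0,3),(10,1),(6,3)]⟩⟩]⟩) (.Q [0,0,0,0,0,0,0,0,-1,0,0,1] (.p true [0,0,
  0,1] [] (⟨0,[(15,0)]⟩,⟨1,[(14,0),(8,0),(0,0)]⟩) .k 0 (⟨0,[]⟩,⟨0,[]⟩) .k .k) (.R ⟨2,true,false,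
  false,[0,1],[0,0,0,1],[0,1,1],(⟨0,[]⟩,⟨0,[]⟩),(⟨0,[(16,0)]⟩,⟨1,[(15,0),(8,0),(0,0)]⟩),⟨0,[]⟩,.k,
  .k,.k,(.x (-1) ⟨3,[(13,0),(0,0),(13,3),(4,1)]⟩ ⟨1,[(5,0),(0,0),(11,0),(2,0)]⟩),.k,.k,⟨false,0,⟨3,
  [(0,1),(0,1),(2,0),(10,1),(3,0),(11,0)]⟩,⟨0,[(2,0),(6,0),(0,0),(5,0),(0,0),(16,0)]⟩⟩,⟨true,0,⟨1,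
  [(15,0),(2,0),(2,0)]⟩,⟨0,[(16,0)]⟩⟩,⟨false,0,⟨0,[(32,0)]⟩,⟨0,[(31,0),(2,0)]⟩⟩,⟨true,0,⟨0,[(2,0),
  (6,0),(0,0),(6,0),(11,0)]⟩,⟨0,[(0,0),(30,0)]⟩⟩,⟨true,0,⟨0,[(36,0)]⟩,⟨0,[]⟩⟩,⟨false,1,⟨0,[(3,0),
  (13,0),(16,0)]⟩,⟨0,[(0,0)]⟩⟩,[]⟩) (.Q [0,-1,0,-1,0,0,0,0,1,0,0,-1] (.p false [0,0,0,1] [] (⟨0,
  [(16,0)]⟩,⟨1,[(15,0),(8,0),(0,0)]⟩) .k 0 (⟨0,[]⟩,⟨0,[]⟩) .k .k) (.R ⟨2,true,false,false,[0,1],[0,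
  0,0,1],[1,0,1,1],(⟨0,[]⟩,⟨0,[]⟩),(⟨0,[(17,0)]⟩,⟨1,[(16,0),(8,0),(0,0)]⟩),⟨0,[]⟩,.k,.k,.k,(.r (-1)
  ⟨1,[(14,0),(7,0),(0,0),(8,1),(2,0)]⟩ ⟨3,[(0,2),(2,0),(4,1),(8,3),(0,0),(1,0)]⟩),.k,.k,⟨false,1,⟨1,
  [(14,0),(17,1),(2,0)]⟩,⟨3,[(0,2),(2,0),(4,1),(8,3),(0,0),(1,0)]⟩⟩,⟨true,0,⟨1,[(16,0),(2,0),(2,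
  0)]⟩,⟨0,[(17,0)]⟩⟩,⟨true,0,⟨0,[]⟩,⟨0,[(37,0)]⟩⟩,⟨false,0,⟨0,[(0,0)]⟩,⟨1,[(14,0),(2,1),(14,1),(2,
  0)]⟩⟩,⟨false,1,⟨0,[(32,0),(2,0)]⟩,⟨0,[(33,0)]⟩⟩,⟨true,0,⟨0,[(1,0)]⟩,⟨0,[(2,0),(6,0)]⟩⟩,[]⟩) (.R
  ⟨2,true,false,false,[0,1],[1,0,0,-1],[0,1,1],(⟨0,[]⟩,⟨0,[]⟩),(⟨1,[(16,0),(8,0),(0,0)]⟩,⟨0,[(17,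
  0)]⟩),⟨0,[]⟩,.k,.k,.k,(.x (-1) ⟨3,[(14,0),(0,0),(13,3),(4,1)]⟩ ⟨1,[(6,0),(0,0),(11,0),(2,0)]⟩),.k,
  .k,⟨false,0,⟨0,[(1,0),(15,0),(19,0)]⟩,⟨5,[(0,3),(7,1),(1,1),(0,1),(2,0),(1,1),(1,1),(16,4)]⟩⟩,
  ⟨true,0,⟨0,[(10,0),(6,0),(1,0)]⟩,⟨1,[(16,0),(8,0),(0,0)]⟩⟩,⟨false,0,⟨0,[(33,0)]⟩,⟨0,[(32,0),(2,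
  0)]⟩⟩,⟨true,0,⟨0,[(0,0),(9,0),(0,0),(6,0),(11,0)]⟩,⟨0,[(3,0)]⟩⟩,⟨true,0,⟨0,[(37,0)]⟩,⟨0,[]⟩⟩,
  ⟨false,1,⟨0,[(2,0),(2,0),(29,0)]⟩,⟨0,[(1,0),(23,0),(0,0)]⟩⟩,[]⟩))))))))))))

theorem ok29 : chk (cU (-1) false 3) t29 l15 = true := by decide +kernel

noncomputable def t30 : Tre :=
  (.Q [0,0,0,0,0,0,-1,0,0,0,1] (.p true [0,0,1] [] (⟨0,[(15,0)]⟩,⟨0,[(14,0)]⟩) .k 0 (⟨0,[]⟩,⟨0,[]⟩)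
  .k .k) (.R ⟨2,true,false,false,[0,1],[0,0,1],[1,0,1,1],(⟨0,[]⟩,⟨0,[]⟩),(⟨0,[(16,0)]⟩,⟨0,[(15,
  0)]⟩),⟨0,[]⟩,.k,.k,.k,.k,.k,.k,⟨false,1,⟨1,[(1,1),(22,0),(0,0)]⟩,⟨0,[(0,0),(1,0),(18,0)]⟩⟩,⟨true,
  0,⟨0,[(12,0)]⟩,⟨0,[(0,0)]⟩⟩,⟨true,0,⟨0,[]⟩,⟨0,[(27,0)]⟩⟩,⟨false,0,⟨0,[(2,0)]⟩,⟨0,[(11,0),(10,0),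
  (2,0)]⟩⟩,⟨false,1,⟨0,[(22,0),(2,0)]⟩,⟨0,[(23,0)]⟩⟩,⟨true,0,⟨0,[(2,0),(19,0)]⟩,⟨0,[(11,0)]⟩⟩,[]⟩)
  (.I [0,0,1,0,0,0,0,-1] (.R ⟨2,true,false,false,[0,1],[0,0,1],[0,0,1],(⟨0,[]⟩,⟨0,[]⟩),(⟨0,[(17,
  0)]⟩,⟨0,[(16,0)]⟩),⟨0,[]⟩,.k,.k,.k,.k,.k,.k,⟨true,0,⟨0,[(0,0)]⟩,⟨0,[(15,0)]⟩⟩,⟨false,0,⟨0,[(1,
  0)]⟩,⟨0,[(14,0),(10,0)]⟩⟩,⟨true,0,⟨0,[(24,0)]⟩,⟨0,[(23,0)]⟩⟩,⟨false,0,⟨0,[(3,0)]⟩,⟨0,[(12,0),(10,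
  0),(2,0)]⟩⟩,⟨false,1,⟨3,[(5,0),(0,0),(19,1)]⟩,⟨0,[]⟩⟩,⟨true,0,⟨0,[(3,0),(19,0)]⟩,⟨0,[(12,0)]⟩⟩,
  []⟩) (.Q [0,0,0,1,0,0,1,1,0,1,-1] (.p false [0,0,1] [1] (⟨0,[(17,0)]⟩,⟨0,[(16,0)]⟩) .k 1 (⟨0,[]⟩,
  ⟨0,[]⟩) .k .k) (.Q [0,0,0,0,0,1,0,0,0,0,-1] (.ed true [1,-1,1] .k) (.Q [0,0,0,0,0,0,-1,0,0,1,1]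
  (.p true [1,-1,1] [] (⟨0,[(19,0),(1,0)]⟩,⟨0,[(0,0)]⟩) .k 0 (⟨0,[]⟩,⟨0,[]⟩) .k .k) (.R ⟨0,false,
  false,true,[0,1,-1],[0,1],[0,1,1,1,0,0,0,-1],(⟨0,[(1,0)]⟩,⟨0,[(20,0),(1,0)]⟩),(⟨0,[(23,0)]⟩,⟨0,
  [(22,0)]⟩),⟨0,[(20,0)]⟩,.k,.k,.k,.k,.k,.k,⟨false,1,⟨1,[(4,1),(10,1),(12,0),(0,0)]⟩,⟨0,[(18,0)]⟩⟩,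
  ⟨true,0,⟨0,[(4,0)]⟩,⟨0,[(17,0)]⟩⟩,⟨true,0,⟨0,[(31,0)]⟩,⟨0,[]⟩⟩,⟨false,0,⟨2,[(3,0),(0,1),(2,0),(5,
  0)]⟩,⟨0,[(15,0),(13,0)]⟩⟩,⟨false,0,⟨0,[]⟩,⟨0,[]⟩⟩,⟨false,0,⟨0,[]⟩,⟨0,[]⟩⟩,[.o ⟨false,0,⟨0,[(26,
  0)]⟩,⟨1,[(21,0),(5,1),(1,0)]⟩⟩,.o ⟨false,1,⟨3,[(8,0),(0,0),(16,3),(2,1)]⟩,⟨0,[(6,0),(5,0)]⟩⟩,.o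
  ⟨false,1,⟨1,[(0,1),(20,0),(6,0)]⟩,⟨0,[(4,1),(8,0)]⟩⟩,.a ⟨true,0,⟨0,[(0,0)]⟩,⟨0,[(4,0)]⟩⟩ ⟨false,1,
  ⟨1,[(5,1),(22,0),(0,0)]⟩,⟨0,[(3,0),(20,0)]⟩⟩ ⟨true,0,⟨0,[(4,0),(21,0)]⟩,⟨1,[(0,0),(2,0),(8,0),(11,
  0),(2,0)]⟩⟩]⟩) (.I [1,-1,0,0,0,0,0,0,1] (.Q [0,0,0,-1,-1,0,1,1,1,0,-1,-1] (.p false [1,-1,1] [1,0,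
  0,-1] (⟨0,[(21,0),(1,0)]⟩,⟨0,[(2,0)]⟩) .k 2 (⟨1,[(11,0),(8,0),(0,0)]⟩,⟨0,[(12,0)]⟩) .k (.r 0 ⟨1,
  [(0,1),(3,0),(10,0),(2,0),(13,0)]⟩ ⟨1,[(5,1),(3,0),(6,1),(13,0)]⟩)) (.R ⟨2,true,false,true,[0,1],
  [0,0,0,1],[1,1,1,1],(⟨0,[]⟩,⟨0,[]⟩),(⟨0,[(13,0)]⟩,⟨1,[(12,0),(8,0),(0,0)]⟩),⟨0,[]⟩,.k,.k,.k,(.r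
  (-1) ⟨3,[(4,1),(2,1),(2,1),(8,1),(3,0),(7,0)]⟩ ⟨0,[(1,0),(25,0),(1,0)]⟩),.k,.k,⟨false,1,⟨1,[(10,
  0),(17,1),(2,0)]⟩,⟨0,[(1,0),(25,0),(1,0)]⟩⟩,⟨true,0,⟨1,[(12,0),(2,0),(2,0)]⟩,⟨0,[(13,0)]⟩⟩,⟨false,
  0,⟨0,[]⟩,⟨3,[(10,0),(0,0),(19,1)]⟩⟩,⟨true,(-1),⟨0,[(0,0),(16,0)]⟩,⟨1,[(10,0),(2,1),(14,1),(2,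
  0)]⟩⟩,⟨true,0,⟨0,[(28,0)]⟩,⟨0,[(29,0)]⟩⟩,⟨false,0,⟨12,[(0,2),(0,5),(9,1),(0,4),(1,2),(8,0),(4,
  2)]⟩,⟨1,[(10,0),(2,1),(17,0)]⟩⟩,[]⟩) (.Q [0,0,0,0,0,1,0,0,0,0,0,-1] (.p false [0,0,0,1] [] (⟨0,
  [(13,0)]⟩,⟨1,[(12,0),(8,0),(0,0)]⟩) .k 0 (⟨0,[]⟩,⟨0,[]⟩) .k .k) (.R ⟨0,false,false,false,[0,0,0,
  1],[1,-1],[1,0,0,0,0,0,0,0,1],(⟨0,[(14,0)]⟩,⟨1,[(13,0),(8,0),(0,0)]⟩),(⟨0,[(25,0)]⟩,⟨0,[(26,0)]⟩),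
  ⟨0,[(0,0)]⟩,.k,.k,(.r 0 ⟨0,[(2,0),(25,0),(1,0)]⟩ ⟨3,[(5,1),(2,1),(2,1),(8,1),(3,0),(7,0)]⟩),(.r 0
  ⟨3,[(2,3),(5,1),(1,0),(5,0),(3,0),(8,1)]⟩ ⟨1,[(11,0),(18,1),(0,0)]⟩),.k,.k,⟨false,0,⟨0,[(2,0),(26,
  0)]⟩,⟨1,[(11,0),(18,1),(0,0)]⟩⟩,⟨true,0,⟨2,[(3,0),(10,2),(1,1),(2,0)]⟩,⟨1,[(13,0),(8,0),(0,0)]⟩⟩,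
  ⟨true,0,⟨0,[]⟩,⟨0,[(34,0)]⟩⟩,⟨false,1,⟨1,[(9,1),(1,0),(2,1),(0,1),(16,0)]⟩,⟨1,[(2,1),(2,0),(7,0),
  (4,0),(10,0)]⟩⟩,⟨false,0,⟨0,[]⟩,⟨0,[]⟩⟩,⟨false,0,⟨0,[]⟩,⟨0,[]⟩⟩,[.o ⟨false,0,⟨0,[(9,0),(5,0)]⟩,⟨9,
  [(1,3),(3,3),(6,1),(0,1),(10,2),(4,1),(2,0)]⟩⟩,.o ⟨false,1,⟨1,[(24,0),(5,1),(1,0)]⟩,⟨0,[(29,0)]⟩⟩,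
  .a ⟨true,0,⟨1,[(13,0),(8,0),(0,0)]⟩,⟨0,[(14,0)]⟩⟩ ⟨false,0,⟨0,[(2,0)]⟩,⟨3,[(11,2),(0,0)]⟩⟩ ⟨true,
  0,⟨0,[(9,0),(4,0),(0,0)]⟩,⟨1,[(5,0),(7,0),(4,0),(10,0)]⟩⟩,.o ⟨false,0,⟨1,[(13,0),(2,0),(2,0)]⟩,⟨1,
  [(14,1),(9,0),(6,0)]⟩⟩]⟩) (.R ⟨1,false,false,false,[0,0,0,1],[1,-1],[1,0,0,0,0,0,0,0,1],(⟨0,[(14,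
  0)]⟩,⟨1,[(13,0),(8,0),(0,0)]⟩),(⟨0,[(25,0)]⟩,⟨0,[(26,0)]⟩),⟨0,[(0,0)]⟩,.k,.k,(.r 0 ⟨0,[(2,0),(25,
  0),(1,0)]⟩ ⟨3,[(5,1),(2,1),(2,1),(8,1),(3,0),(7,0)]⟩),(.r 0 ⟨3,[(2,3),(5,1),(1,0),(5,0),(3,0),(8,
  1)]⟩ ⟨1,[(11,0),(18,1),(0,0)]⟩),.k,.k,⟨false,0,⟨0,[(2,0),(26,0)]⟩,⟨1,[(11,0),(18,1),(0,0)]⟩⟩,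
  ⟨true,0,⟨2,[(3,0),(10,2),(1,1),(2,0)]⟩,⟨1,[(13,0),(8,0),(0,0)]⟩⟩,⟨true,0,⟨0,[]⟩,⟨0,[(34,0)]⟩⟩,
  ⟨false,1,⟨1,[(9,1),(1,0),(2,1),(0,1),(16,0)]⟩,⟨1,[(2,1),(2,0),(7,0),(4,0),(10,0)]⟩⟩,⟨false,1,⟨0,
  [(29,0),(2,0)]⟩,⟨0,[(30,0)]⟩⟩,⟨false,1,⟨0,[(1,0),(1,0),(2,0),(20,0)]⟩,⟨1,[(2,1),(7,0),(2,0),(4,
  1)]⟩⟩,[.o ⟨false,0,⟨0,[(9,0),(5,0)]⟩,⟨9,[(1,3),(3,3),(6,1),(0,1),(10,2),(4,1),(2,0)]⟩⟩,.o ⟨false,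
  1,⟨1,[(24,0),(5,1),(1,0)]⟩,⟨0,[(29,0)]⟩⟩,.a ⟨true,0,⟨1,[(13,0),(8,0),(0,0)]⟩,⟨0,[(14,0)]⟩⟩ ⟨false,
  0,⟨0,[(2,0)]⟩,⟨3,[(11,2),(0,0)]⟩⟩ ⟨true,0,⟨0,[(9,0),(4,0),(0,0)]⟩,⟨1,[(5,0),(7,0),(4,0),(10,0)]⟩⟩,
  .o ⟨false,0,⟨1,[(13,0),(2,0),(2,0)]⟩,⟨1,[(14,1),(9,0),(6,0)]⟩⟩]⟩))) (.I [0,1,0,1,0,0,0,0,-1] (.Q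
  [0,1,0,-1,-1,0,0,0,-1,-1,0,1] (.p true [0,0,0,1] [1] (⟨0,[(13,0)]⟩,⟨1,[(12,0),(8,0),(0,0)]⟩) .k 1
  (⟨0,[]⟩,⟨0,[]⟩) .k .k) (.R ⟨2,true,false,true,[0,1],[1,0,0,-1],[1,1,1,1],(⟨0,[]⟩,⟨0,[]⟩),(⟨1,[(13,
  0),(8,0),(0,0)]⟩,⟨0,[(14,0)]⟩),⟨0,[]⟩,.k,.k,.k,(.r (-1) ⟨3,[(5,1),(2,1),(3,1),(7,1),(3,0),(7,0)]⟩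
  ⟨1,[(0,1),(12,0),(8,0),(0,0),(7,0),(0,0)]⟩),.k,.k,⟨false,1,⟨1,[(12,0),(16,1),(2,0)]⟩,⟨1,[(0,1),
  (12,0),(8,0),(0,0),(7,0),(0,0)]⟩⟩,⟨true,0,⟨2,[(3,0),(10,2),(1,1),(2,0)]⟩,⟨1,[(13,0),(8,0),(0,
  0)]⟩⟩,⟨false,0,⟨0,[]⟩,⟨3,[(11,0),(0,0),(19,1)]⟩⟩,⟨true,(-1),⟨0,[(0,0)]⟩,⟨1,[(5,0),(6,0),(0,0),(4,
  0),(10,0),(2,0)]⟩⟩,⟨true,0,⟨0,[(29,0)]⟩,⟨0,[(30,0)]⟩⟩,⟨false,0,⟨0,[(0,0),(28,0),(2,0)]⟩,⟨1,[(12,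
  0),(0,0),(8,0),(0,0),(8,0)]⟩⟩,[]⟩) (.Q [0,-1,0,0,0,0,1,1,-1,0,-1,1] (.p false [0,0,1] [0,0,0,1]
  (⟨0,[(23,0)]⟩,⟨0,[(22,0)]⟩) .k 2 (⟨0,[(14,0)]⟩,⟨1,[(13,0),(8,0),(0,0)]⟩) .k (.r 0 ⟨0,[(1,0),(4,0),
  (20,0)]⟩ ⟨1,[(7,1),(4,0),(5,1),(13,0)]⟩)) (.Q [0,0,0,-1,0,0,0,0,1,0,0,-1] (.p false [0,0,0,1] []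
  (⟨0,[(15,0)]⟩,⟨1,[(14,0),(8,0),(0,0)]⟩) .k 0 (⟨0,[]⟩,⟨0,[]⟩) .k .k) (.R ⟨2,true,false,false,[0,1],
  [0,0,0,1],[1,1,1,1],(⟨0,[]⟩,⟨0,[]⟩),(⟨0,[(16,0)]⟩,⟨1,[(15,0),(8,0),(0,0)]⟩),⟨0,[]⟩,.k,.k,.k,(.x
  (-1) ⟨3,[(13,0),(0,0),(13,3),(4,1)]⟩ ⟨2,[(5,0),(12,1),(2,0),(5,2)]⟩),.k,.k,⟨false,0,⟨0,[(3,0)]⟩,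
  ⟨1,[(0,1),(15,1),(16,0),(0,0)]⟩⟩,⟨true,0,⟨1,[(15,0),(2,0),(2,0)]⟩,⟨0,[(16,0)]⟩⟩,⟨false,0,⟨0,[]⟩,
  ⟨3,[(13,0),(0,0),(19,1)]⟩⟩,⟨true,0,⟨0,[(0,0)]⟩,⟨0,[(3,0),(12,0)]⟩⟩,⟨true,0,⟨0,[(31,0)]⟩,⟨0,[(32,
  0)]⟩⟩,⟨false,1,⟨3,[(0,1),(1,1),(23,0),(7,0)]⟩,⟨0,[(1,0),(18,0)]⟩⟩,[]⟩) (.Q [0,-1,0,-2,0,0,0,0,0,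
  -1] (.pp true [-1,1]) (.I [1,0,0,1,0,0,0,0,-1] (.I [1,-1,0,0,0,0,0,0,-1] (.Q [0,0,0,0,0,1,0,0,0,0,
  0,-1] (.p false [0,0,0,1] [] (⟨0,[(19,0)]⟩,⟨1,[(18,0),(8,0),(0,0)]⟩) .k 0 (⟨0,[]⟩,⟨0,[]⟩) .k .k)
  (.R ⟨0,false,false,false,[0,0,0,1],[0,0,1],[0,1,0,0,0,0,0,0,1],(⟨0,[(20,0)]⟩,⟨1,[(19,0),(8,0),(0,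
  0)]⟩),(⟨0,[(29,0)]⟩,⟨0,[(28,0)]⟩),⟨0,[(0,0)]⟩,.k,.k,(.r (-1) ⟨1,[(18,0),(17,1),(0,0)]⟩ ⟨1,[(2,1),
  (22,0),(0,0)]⟩),.k,.k,.k,⟨false,1,⟨1,[(13,1),(4,0),(5,1),(12,0)]⟩,⟨0,[(1,0),(25,0)]⟩⟩,⟨true,0,⟨0,
  [(13,0),(6,0)]⟩,⟨1,[(19,0),(2,0),(3,0)]⟩⟩,⟨true,0,⟨0,[(40,0)]⟩,⟨0,[]⟩⟩,⟨false,0,⟨0,[(5,0)]⟩,⟨5,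
  [(3,1),(2,3),(11,0),(0,0),(1,0),(2,4),(5,0)]⟩⟩,⟨false,0,⟨0,[]⟩,⟨0,[]⟩⟩,⟨false,0,⟨0,[]⟩,⟨0,[]⟩⟩,
  [.o ⟨false,0,⟨6,[(9,1),(2,0),(3,2),(5,0)]⟩,⟨1,[(24,1),(5,0),(7,0)]⟩⟩,.o ⟨false,1,⟨7,[(16,3),(0,0),
  (0,0),(11,1),(7,3)]⟩,⟨0,[(21,0)]⟩⟩,.a ⟨true,0,⟨1,[(19,0),(8,0),(0,0)]⟩,⟨0,[(20,0)]⟩⟩ ⟨false,1,⟨3,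
  [(17,0),(0,2)]⟩,⟨0,[(1,0)]⟩⟩ ⟨true,0,⟨6,[(9,1),(2,0),(3,2),(3,6),(1,0)]⟩,⟨1,[(19,0),(1,0),(2,
  0)]⟩⟩,.o ⟨false,0,⟨1,[(19,0),(2,0),(2,0)]⟩,⟨1,[(20,1),(9,0),(6,0)]⟩⟩]⟩) (.R ⟨1,false,false,false,
  [1,0,0,-1],[1,-1],[1,0,0,0,0,0,0,0,-1],(⟨1,[(19,0),(8,0),(0,0)]⟩,⟨0,[(20,0)]⟩),(⟨0,[(31,0)]⟩,⟨0,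
  [(32,0)]⟩),⟨0,[(0,0),(18,0)]⟩,.k,.k,(.r 0 ⟨0,[(1,0),(32,0),(1,0)]⟩ ⟨3,[(4,0),(1,0),(4,0),(2,0),(3,
  1),(6,0),(0,1),(3,0)]⟩),(.r 0 ⟨1,[(2,1),(22,0),(0,0)]⟩ ⟨1,[(18,0),(17,1),(0,0)]⟩),.k,.k,⟨false,0,
  ⟨0,[(2,0)]⟩,⟨1,[(18,0),(17,1),(0,0)]⟩⟩,⟨true,0,⟨1,[(19,0),(2,0),(2,0)]⟩,⟨0,[(20,0)]⟩⟩,⟨true,0,⟨0,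
  []⟩,⟨0,[(40,0)]⟩⟩,⟨false,1,⟨7,[(3,3),(13,0),(0,4),(0,3),(18,1)]⟩,⟨0,[(4,0)]⟩⟩,⟨false,1,⟨3,[(4,1),
  (1,1),(23,0),(7,0)]⟩,⟨0,[(36,0)]⟩⟩,⟨false,1,⟨19,[(3,6),(2,13),(2,1),(2,0),(5,2),(0,2),(1,0),(0,0),
  (7,2)]⟩,⟨1,[(1,0),(6,0),(11,1)]⟩⟩,[.o ⟨false,0,⟨13,[(3,6),(5,1),(2,0),(8,3),(0,0),(0,2)]⟩,⟨11,[(4,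
  3),(1,3),(10,2),(0,2),(11,1),(4,3)]⟩⟩,.o ⟨false,1,⟨3,[(3,1),(13,0),(0,0),(11,0),(7,0)]⟩,⟨0,[(35,
  0)]⟩⟩,.a ⟨true,0,⟨0,[(20,0)]⟩,⟨1,[(19,0),(8,0),(0,0)]⟩⟩ ⟨false,0,⟨0,[(1,0)]⟩,⟨3,[(17,0),(0,2)]⟩⟩
  ⟨true,0,⟨1,[(3,0),(15,0),(20,0)]⟩,⟨0,[(20,0),(14,0)]⟩⟩,.o ⟨false,0,⟨2,[(9,0),(10,2),(1,1),(2,0)]⟩,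
  ⟨7,[(17,0),(0,0),(0,3),(10,1),(6,3)]⟩⟩]⟩)) (.R ⟨2,true,false,false,[0,1],[1,0,0,-1],[1,0,1,1],(⟨0,
  []⟩,⟨0,[]⟩),(⟨1,[(18,0),(8,0),(0,0)]⟩,⟨0,[(19,0)]⟩),⟨0,[]⟩,.k,.k,.k,(.r (-1) ⟨3,[(3,0),(1,0),(4,
  0),(2,0),(3,1),(6,0),(0,1),(3,0)]⟩ ⟨1,[(2,1),(0,1),(14,0),(8,0),(0,0),(4,1)]⟩),.k,.k,⟨false,1,⟨5,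
  [(3,1),(1,1),(11,2),(11,0),(4,1)]⟩,⟨1,[(2,1),(0,1),(14,0),(8,0),(0,0),(4,1)]⟩⟩,⟨true,0,⟨2,[(8,0),
  (10,2),(1,1),(2,0)]⟩,⟨1,[(18,0),(8,0),(0,0)]⟩⟩,⟨true,0,⟨0,[]⟩,⟨0,[(39,0)]⟩⟩,⟨false,0,⟨0,[(2,0),(0,
  0)]⟩,⟨0,[(5,0),(33,0)]⟩⟩,⟨false,1,⟨3,[(3,1),(1,1),(23,0),(7,0)]⟩,⟨0,[(35,0)]⟩⟩,⟨true,0,⟨0,[(4,0),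
  (15,0)]⟩,⟨1,[(0,1),(17,0),(8,0),(0,0)]⟩⟩,[]⟩)) (.R ⟨2,true,false,false,[0,1],[1,0,0,-1],[1,0,1,1],
  (⟨0,[]⟩,⟨0,[]⟩),(⟨1,[(17,0),(8,0),(0,0)]⟩,⟨0,[(18,0)]⟩),⟨0,[]⟩,.k,.k,.k,(.r (-1) ⟨3,[(2,0),(1,0),
  (4,0),(2,0),(3,1),(6,0),(0,1),(3,0)]⟩ ⟨1,[(1,1),(0,1),(14,0),(8,0),(0,0),(4,1)]⟩),.k,.k,⟨false,1,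
  ⟨5,[(2,1),(1,1),(11,2),(11,0),(4,1)]⟩,⟨1,[(1,1),(0,1),(14,0),(8,0),(0,0),(4,1)]⟩⟩,⟨true,0,⟨2,[(7,
  0),(10,2),(1,1),(2,0)]⟩,⟨1,[(17,0),(8,0),(0,0)]⟩⟩,⟨true,0,⟨0,[]⟩,⟨0,[(38,0)]⟩⟩,⟨false,0,⟨0,[(1,0),
  (0,0)]⟩,⟨0,[(4,0),(33,0)]⟩⟩,⟨false,1,⟨3,[(2,1),(1,1),(23,0),(7,0)]⟩,⟨0,[(34,0)]⟩⟩,⟨true,0,⟨0,[(3,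
  0),(15,0)]⟩,⟨1,[(0,1),(8,0),(7,0),(4,0),(10,0)]⟩⟩,[]⟩)) (.I [1,0,-1,0,1,0,0,-1,1] (.Q [0,0,0,0,0,
  1,0,0,0,0,0,-1] (.p false [0,0,0,1] [] (⟨0,[(18,0)]⟩,⟨1,[(17,0),(8,0),(0,0)]⟩) .k 0 (⟨0,[]⟩,⟨0,
  []⟩) .k .k) (.R ⟨0,false,false,false,[0,0,0,1],[0,0,1],[1,0,0,0,0,0,0,0,1],(⟨0,[(19,0)]⟩,⟨1,[(18,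
  0),(8,0),(0,0)]⟩),(⟨0,[(28,0)]⟩,⟨0,[(27,0)]⟩),⟨0,[(0,0)]⟩,.k,.k,(.r (-1) ⟨1,[(17,0),(17,1),(0,
  0)]⟩ ⟨1,[(3,1),(14,0),(2,0),(2,0)]⟩),.k,.k,.k,⟨false,1,⟨0,[(1,0)]⟩,⟨3,[(4,1),(2,1),(3,1),(6,0),(2,
  0),(3,0)]⟩⟩,⟨true,0,⟨0,[(12,0),(6,0)]⟩,⟨1,[(18,0),(2,0),(3,0)]⟩⟩,⟨true,0,⟨0,[]⟩,⟨0,[(39,0)]⟩⟩,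
  ⟨false,0,⟨0,[(4,0)]⟩,⟨1,[(17,0),(0,0),(1,0),(2,0),(13,0)]⟩⟩,⟨false,0,⟨0,[]⟩,⟨0,[]⟩⟩,⟨false,0,⟨0,
  []⟩,⟨0,[]⟩⟩,[.o ⟨false,0,⟨6,[(8,1),(2,0),(3,2),(5,0)]⟩,⟨1,[(23,1),(5,0),(7,0)]⟩⟩,.o ⟨false,1,⟨7,
  [(15,3),(0,0),(0,0),(11,1),(7,3)]⟩,⟨0,[(20,0)]⟩⟩,.a ⟨true,0,⟨1,[(18,0),(8,0),(0,0)]⟩,⟨0,[(19,
  0)]⟩⟩ ⟨false,1,⟨1,[(17,0),(19,0)]⟩,⟨1,[(4,1),(13,0),(1,0),(2,0)]⟩⟩ ⟨true,0,⟨6,[(8,1),(2,0),(3,2),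
  (3,6),(1,0)]⟩,⟨1,[(18,0),(1,0),(2,0)]⟩⟩,.o ⟨false,0,⟨1,[(18,0),(2,0),(2,0)]⟩,⟨1,[(19,1),(9,0),(6,
  0)]⟩⟩]⟩) (.Q [0,-1,0,1,0,0,1,1,-1,0,-1,1] (.p false [0,0,1] [0,0,0,1] (⟨0,[(28,0)]⟩,⟨0,[(27,0)]⟩)
  .k 2 (⟨0,[(19,0)]⟩,⟨1,[(18,0),(8,0),(0,0)]⟩) .k (.r 0 ⟨3,[(4,1),(2,1),(3,1),(6,0),(2,0),(3,0)]⟩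
  ⟨11,[(1,7),(11,3),(2,0),(0,2),(14,3)]⟩)) (.R ⟨1,false,false,false,[0,0,0,1],[0,0,1],[1,0,0,0,0,0,
  0,0,1],(⟨0,[(20,0)]⟩,⟨1,[(19,0),(8,0),(0,0)]⟩),(⟨0,[(29,0)]⟩,⟨0,[(28,0)]⟩),⟨0,[(1,0)]⟩,.k,.k,(.r
  (-1) ⟨1,[(18,0),(17,1),(0,0)]⟩ ⟨2,[(0,0),(3,0),(2,0),(6,0),(4,0),(2,0),(10,0)]⟩),.k,(.r (-1) ⟨0,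
  [(2,0),(33,0)]⟩ ⟨3,[(0,1),(6,1),(8,0),(2,0),(2,1),(3,1)]⟩),.k,⟨false,1,⟨0,[(2,0)]⟩,⟨3,[(5,1),(2,
  1),(3,1),(6,0),(2,0),(3,0)]⟩⟩,⟨true,0,⟨0,[(13,0),(6,0)]⟩,⟨1,[(19,0),(2,0),(3,0)]⟩⟩,⟨true,0,⟨0,[]⟩,
  ⟨0,[(40,0)]⟩⟩,⟨false,0,⟨0,[(5,0)]⟩,⟨1,[(18,0),(0,0),(1,0),(2,0),(13,0)]⟩⟩,⟨false,1,⟨3,[(3,1),(26,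
  0),(7,2)]⟩,⟨0,[(36,0)]⟩⟩,⟨false,0,⟨0,[(0,0)]⟩,⟨1,[(18,0),(0,0),(1,0),(2,0),(11,1),(1,0)]⟩⟩,[.o
  ⟨false,0,⟨6,[(9,1),(2,0),(3,2),(5,0)]⟩,⟨1,[(24,1),(5,0),(7,0)]⟩⟩,.o ⟨false,1,⟨7,[(16,3),(0,0),(0,
  0),(11,1),(7,3)]⟩,⟨0,[(21,0)]⟩⟩,.a ⟨true,0,⟨1,[(19,0),(8,0),(0,0)]⟩,⟨0,[(20,0)]⟩⟩ ⟨false,1,⟨1,
  [(18,0),(19,0)]⟩,⟨1,[(5,1),(13,0),(1,0),(2,0)]⟩⟩ ⟨true,0,⟨6,[(9,1),(2,0),(3,2),(3,6),(1,0)]⟩,⟨1,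
  [(19,0),(1,0),(2,0)]⟩⟩,.o ⟨false,0,⟨1,[(19,0),(2,0),(2,0)]⟩,⟨1,[(20,1),(9,0),(6,0)]⟩⟩]⟩) (.R ⟨1,
  true,false,false,[1,0,-1],[1,0,0,-1],[1,0,0,0,0,0,0,-1],(⟨0,[(28,0)]⟩,⟨0,[(29,0)]⟩),(⟨1,[(19,0),
  (8,0),(0,0)]⟩,⟨0,[(20,0)]⟩),⟨0,[(1,1),(8,0),(8,0)]⟩,.k,.k,.k,.k,(.r (-1) ⟨0,[(2,0),(33,0)]⟩ ⟨3,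
  [(5,1),(1,1),(3,1),(7,0),(2,2),(3,0)]⟩),.k,⟨false,1,⟨0,[(2,0)]⟩,⟨3,[(5,1),(2,1),(3,1),(6,0),(2,0),
  (3,0)]⟩⟩,⟨true,0,⟨0,[(13,0),(6,0)]⟩,⟨1,[(19,0),(2,0),(3,0)]⟩⟩,⟨true,0,⟨0,[]⟩,⟨0,[(40,0)]⟩⟩,⟨false,
  0,⟨0,[(5,0)]⟩,⟨3,[(0,1),(5,1),(17,1),(5,0),(7,0)]⟩⟩,⟨false,1,⟨3,[(3,1),(26,0),(7,2)]⟩,⟨0,[(36,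
  0)]⟩⟩,⟨true,0,⟨0,[(5,0),(29,0)]⟩,⟨0,[(0,0)]⟩⟩,[]⟩))) (.Q [0,0,0,0,0,1,0,0,0,0,0,-1] (.p false [0,
  0,0,1] [] (⟨0,[(18,0)]⟩,⟨1,[(17,0),(8,0),(0,0)]⟩) .k 0 (⟨0,[]⟩,⟨0,[]⟩) .k .k) (.R ⟨0,false,false,
  true,[0,0,0,1],[0,1],[0,1,1],(⟨0,[(19,0)]⟩,⟨1,[(18,0),(8,0),(0,0)]⟩),(⟨0,[(31,0)]⟩,⟨0,[(30,0)]⟩),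
  ⟨0,[(0,0)]⟩,.k,.k,(.r (-1) ⟨1,[(17,0),(17,1),(0,0)]⟩ ⟨1,[(1,0),(4,0),(6,0),(23,0)]⟩),(.r (-1) ⟨1,
  [(17,0),(17,1),(0,0)]⟩ ⟨1,[(1,0),(4,0),(6,0),(23,0)]⟩),.k,.k,⟨true,0,⟨0,[(35,0)]⟩,⟨2,[(1,1),(3,1),
  (2,0),(4,0),(5,1),(0,0)]⟩⟩,⟨false,1,⟨0,[(19,0),(16,0)]⟩,⟨1,[(18,0),(2,0),(2,0)]⟩⟩,⟨true,(-1),⟨0,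
  [(1,0),(10,0),(10,0)]⟩,⟨1,[(17,0),(18,0)]⟩⟩,⟨false,0,⟨0,[(3,0)]⟩,⟨1,[(14,0),(2,0),(0,0),(1,0),(14,
  0),(1,0)]⟩⟩,⟨false,0,⟨0,[]⟩,⟨0,[]⟩⟩,⟨false,0,⟨0,[]⟩,⟨0,[]⟩⟩,[.o ⟨false,0,⟨0,[(34,0)]⟩,⟨1,[(29,0),
  (5,1),(1,0)]⟩⟩,.o ⟨false,1,⟨3,[(2,1),(13,0),(0,0),(11,0),(7,0)]⟩,⟨0,[(14,0),(5,0)]⟩⟩,.a ⟨true,0,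
  ⟨1,[(18,0),(8,0),(0,0)]⟩,⟨0,[(19,0)]⟩⟩ ⟨false,0,⟨1,[(24,0),(0,0)]⟩,⟨1,[(36,0),(0,0)]⟩⟩ ⟨true,0,⟨0,
  [(19,0),(14,0)]⟩,⟨1,[(14,0),(3,0),(1,0),(14,0)]⟩⟩,.o ⟨false,0,⟨1,[(18,0),(2,0),(2,0)]⟩,⟨1,[(19,1),
  (9,0),(6,0)]⟩⟩]⟩) (.Q [0,1,0,-2,-1,0,0,0,-1,-1,0,1] (.p true [0,0,0,1] [1] (⟨0,[(19,0)]⟩,⟨1,[(18,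
  0),(8,0),(0,0)]⟩) .k 1 (⟨0,[]⟩,⟨0,[]⟩) .k .k) (.I [0,0,-1,-1,0,0,0,0,-1] (.R ⟨1,false,false,false,
  [1,0,0,-1],[0,1],[1,0,1,1],(⟨1,[(20,0),(8,0),(0,0)]⟩,⟨0,[(21,0)]⟩),(⟨0,[(33,0)]⟩,⟨0,[(32,0)]⟩),⟨0,
  [(2,0),(17,0)]⟩,.k,.k,(.r 0 ⟨0,[(0,0)]⟩ ⟨3,[(4,1),(14,1),(6,1),(0,1),(3,0),(7,0)]⟩),(.r 0 ⟨0,[(0,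
  0)]⟩ ⟨3,[(4,1),(14,1),(6,1),(0,1),(3,0),(7,0)]⟩),(.x 0 ⟨2,[(10,1),(12,3),(2,1),(5,5)]⟩ ⟨0,[(33,1),
  (4,0)]⟩),.k,⟨true,0,⟨0,[]⟩,⟨1,[(26,0),(0,0)]⟩⟩,⟨false,1,⟨1,[(20,0),(8,0),(0,0),(7,1)]⟩,⟨2,[(10,0),
  (10,2),(1,1),(2,0)]⟩⟩,⟨false,1,⟨2,[(7,2),(2,0),(10,2),(1,1),(2,0)]⟩,⟨0,[(0,0)]⟩⟩,⟨false,1,⟨0,[(7,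
  0)]⟩,⟨9,[(1,5),(3,1),(12,0),(2,1),(9,1),(7,2)]⟩⟩,⟨false,1,⟨0,[(3,0),(3,1),(2,0),(10,1),(0,0)]⟩,⟨0,
  [(0,0),(36,0)]⟩⟩,⟨true,1,⟨0,[(7,0),(28,0)]⟩,⟨0,[(1,0)]⟩⟩,[.o ⟨false,1,⟨3,[(4,1),(13,0),(0,0),(11,
  0),(7,0)]⟩,⟨0,[(16,0),(5,0)]⟩⟩,.o ⟨false,1,⟨3,[(4,1),(26,0),(7,2)]⟩,⟨3,[(1,1),(17,0),(0,0),(1,0),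
  (1,0),(6,0)]⟩⟩,.a ⟨true,0,⟨0,[(21,0)]⟩,⟨1,[(20,0),(8,0),(0,0)]⟩⟩ ⟨true,0,⟨2,[(3,1),(3,1),(2,0),(4,
  0),(5,1),(0,0)]⟩,⟨0,[(35,0),(1,0)]⟩⟩ ⟨false,1,⟨5,[(4,1),(2,1),(10,0),(1,1),(18,2)]⟩,⟨5,[(1,1),(8,
  1),(2,1),(5,0),(1,3),(0,1),(11,1),(4,0)]⟩⟩,.o ⟨false,0,⟨2,[(10,0),(10,2),(1,1),(2,0)]⟩,⟨7,[(18,0),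
  (0,0),(0,3),(10,1),(6,3)]⟩⟩]⟩) (.R ⟨1,true,false,false,[1,0,0,-1],[0,1],[1,0,1,1],(⟨1,[(20,0),(8,
  0),(0,0)]⟩,⟨0,[(21,0)]⟩),(⟨0,[(33,0)]⟩,⟨0,[(32,0)]⟩),⟨0,[(2,0),(17,0)]⟩,.k,.k,(.x 0 ⟨2,[(10,0),
  (12,1),(2,0),(5,2)]⟩ ⟨3,[(18,0),(0,0),(13,3),(4,1)]⟩),(.x 0 ⟨2,[(10,0),(12,1),(2,0),(5,2)]⟩ ⟨3,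
  [(18,0),(0,0),(13,3),(4,1)]⟩),(.x 0 ⟨2,[(10,1),(12,3),(2,1),(5,5)]⟩ ⟨0,[(33,1),(4,0)]⟩),.k,⟨true,
  0,⟨0,[]⟩,⟨1,[(26,0),(0,0)]⟩⟩,⟨false,1,⟨1,[(20,0),(8,0),(0,0),(7,1)]⟩,⟨2,[(10,0),(10,2),(1,1),(2,
  0)]⟩⟩,⟨true,0,⟨0,[(0,0)]⟩,⟨3,[(1,1),(7,1),(10,0),(8,0),(0,0),(7,1)]⟩⟩,⟨false,1,⟨0,[(7,0)]⟩,⟨9,[(1,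
  5),(3,1),(12,0),(2,1),(9,1),(7,2)]⟩⟩,⟨false,1,⟨3,[(0,3),(3,1),(26,0),(7,2)]⟩,⟨1,[(1,1),(18,0),(8,
  0),(0,0),(7,0),(0,0)]⟩⟩,⟨true,1,⟨0,[(7,0),(28,0)]⟩,⟨0,[(1,0)]⟩⟩,[]⟩)) (.I [0,-1,0,-1,0,0,0,0,-1]
  (.R ⟨1,false,false,false,[1,0,0,-1],[1,-1],[0,0,0,-1,0,0,0,0,-1],(⟨1,[(20,0),(8,0),(0,0)]⟩,⟨0,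
  [(21,0)]⟩),(⟨0,[(32,0)]⟩,⟨0,[(33,0)]⟩),⟨0,[(2,0),(17,0)]⟩,.k,.k,(.r 0 ⟨0,[(0,0),(34,0)]⟩ ⟨19,[(1,
  3),(2,3),(0,3),(12,0),(0,10),(6,9),(0,9),(3,3)]⟩),(.r 0 ⟨7,[(0,1),(0,1),(1,3),(1,1),(9,3),(2,0),
  (12,0)]⟩ ⟨1,[(19,0),(17,1),(0,0)]⟩),.k,.k,⟨false,0,⟨1,[(0,0),(7,0)]⟩,⟨1,[(19,0),(18,0)]⟩⟩,⟨true,0,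
  ⟨1,[(20,0),(2,0),(2,0)]⟩,⟨0,[(21,0)]⟩⟩,⟨true,0,⟨0,[(37,0)]⟩,⟨0,[(36,0)]⟩⟩,⟨false,1,⟨1,[(16,0),(2,
  0),(0,0),(1,0),(14,0),(1,0)]⟩,⟨0,[(5,0)]⟩⟩,⟨false,1,⟨3,[(18,0),(0,0),(19,1)]⟩,⟨0,[]⟩⟩,⟨false,1,⟨2,
  [(1,0),(14,1),(2,0),(0,0),(1,1),(16,0)]⟩,⟨2,[(0,0),(4,0),(3,0),(11,1)]⟩⟩,[.o ⟨false,0,⟨0,[(16,0),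
  (5,0)]⟩,⟨9,[(1,1),(2,1),(0,1),(12,2),(0,2),(11,1)]⟩⟩,.o ⟨false,1,⟨1,[(31,0),(5,1),(1,0)]⟩,⟨0,[(36,
  0)]⟩⟩,.a ⟨true,0,⟨0,[(21,0)]⟩,⟨1,[(20,0),(8,0),(0,0)]⟩⟩ ⟨false,0,⟨0,[(0,0)]⟩,⟨19,[(1,3),(2,3),(0,
  3),(12,0),(0,10),(11,3)]⟩⟩ ⟨true,0,⟨1,[(16,0),(3,0),(1,0),(14,0)]⟩,⟨0,[(21,0),(14,0)]⟩⟩,.o ⟨false,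
  0,⟨2,[(10,0),(10,2),(1,1),(2,0)]⟩,⟨7,[(18,0),(0,0),(0,3),(10,1),(6,3)]⟩⟩]⟩) (.Q [0,1,0,-1,-1,0,1,
  1,0,-1,-1,1] (.p false [1,-1,1] [0,0,0,1] (⟨0,[(30,0),(1,0)]⟩,⟨0,[(11,0)]⟩) .k 2 (⟨0,[(21,0)]⟩,⟨1,
  [(20,0),(8,0),(0,0)]⟩) .k (.r 0 ⟨2,[(3,0),(9,0),(4,0),(9,0)]⟩ ⟨1,[(14,1),(4,0),(5,1),(13,0)]⟩))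
  (.I [1,1,1,1,0,0,0,-1,1] (.R ⟨1,false,false,false,[0,0,0,1],[1,-1,1],[1,1,0,0,0,0,0,0,1],(⟨0,[(23,
  0)]⟩,⟨1,[(22,0),(8,0),(0,0)]⟩),(⟨0,[(32,0),(1,0)]⟩,⟨0,[(13,0)]⟩),⟨0,[(4,0)]⟩,.k,.k,(.r (-1) ⟨1,
  [(21,0),(17,1),(0,0)]⟩ ⟨27,[(3,1),(1,13),(1,9),(9,13),(2,2),(1,3),(10,2),(7,5)]⟩),(.r (-1) ⟨1,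
  [(17,1),(3,0),(19,0)]⟩ ⟨0,[(5,0),(33,0),(0,0)]⟩),.k,.k,⟨true,0,⟨0,[(0,0)]⟩,⟨1,[(5,1),(33,1),(0,0),
  (0,0)]⟩⟩,⟨false,0,⟨0,[(12,0),(10,0)]⟩,⟨1,[(22,0),(6,1),(1,0),(0,0),(7,1)]⟩⟩,⟨false,0,⟨0,[]⟩,⟨3,
  [(20,0),(0,0),(19,1)]⟩⟩,⟨false,0,⟨0,[(8,0),(9,0),(5,0)]⟩,⟨0,[(9,0),(17,0)]⟩⟩,⟨true,0,⟨0,[(38,0)]⟩,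
  ⟨0,[(39,0)]⟩⟩,⟨false,0,⟨3,[(1,0),(3,0),(1,0),(0,1),(3,1),(2,0),(8,0),(16,1)]⟩,⟨0,[(9,0),(17,0),
  (11,0)]⟩⟩,[.o ⟨false,0,⟨9,[(1,3),(16,4),(3,1),(3,0),(6,3),(5,0)]⟩,⟨11,[(3,3),(3,3),(12,0),(0,0),
  (5,11),(5,1),(7,3)]⟩⟩,.o ⟨false,0,⟨0,[(12,0),(2,0),(20,0)]⟩,⟨9,[(3,1),(2,1),(0,1),(12,2),(0,2),(5,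
  9),(5,1)]⟩⟩,.a ⟨true,0,⟨1,[(22,0),(8,0),(0,0)]⟩,⟨0,[(23,0)]⟩⟩ ⟨true,0,⟨5,[(1,1),(0,1),(18,1),(0,
  0),(4,1),(3,0),(0,0)]⟩,⟨1,[(8,1),(13,0),(1,0),(2,0)]⟩⟩ ⟨false,0,⟨0,[(1,0),(39,0)]⟩,⟨5,[(6,1),(2,
  1),(10,0),(1,1),(4,5),(13,2)]⟩⟩,.o ⟨false,0,⟨1,[(22,0),(2,0),(2,0)]⟩,⟨1,[(23,1),(9,0),(6,0)]⟩⟩]⟩)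
  (.R ⟨1,false,false,false,[0,0,0,1],[1,-1,1],[1,0,-1,-1,0,0,0,1],(⟨0,[(23,0)]⟩,⟨1,[(22,0),(8,0),(0,
  0)]⟩),(⟨0,[(32,0),(1,0)]⟩,⟨0,[(13,0)]⟩),⟨0,[(4,0)]⟩,.k,.k,(.r (-1) ⟨1,[(21,0),(17,1),(0,0)]⟩ ⟨27,
  [(3,1),(1,13),(1,9),(9,13),(2,2),(1,3),(10,2),(7,5)]⟩),(.r (-1) ⟨1,[(17,1),(3,0),(19,0)]⟩ ⟨0,[(0,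
  0),(42,0)]⟩),.k,.k,⟨true,0,⟨0,[]⟩,⟨1,[(28,0),(0,0)]⟩⟩,⟨false,0,⟨0,[(12,0),(10,0)]⟩,⟨1,[(22,0),(6,
  1),(1,0),(0,0),(7,1)]⟩⟩,⟨false,0,⟨0,[(0,0)]⟩,⟨1,[(17,1),(3,0),(19,0)]⟩⟩,⟨false,0,⟨7,[(0,1),(0,1),
  (6,5),(3,1),(11,1),(8,0),(2,1),(2,1),(1,0)]⟩,⟨0,[(9,0),(17,0)]⟩⟩,⟨true,0,⟨1,[(0,0),(9,0),(4,0)]⟩,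
  ⟨0,[(2,0),(13,0),(10,0),(8,0)]⟩⟩,⟨false,0,⟨6,[(0,0),(0,1),(3,0),(1,2),(0,1),(3,3),(2,0),(9,0),(15,
  2)]⟩,⟨0,[(9,0),(17,0),(11,0)]⟩⟩,[.o ⟨false,0,⟨9,[(1,3),(16,4),(3,1),(3,0),(6,3),(5,0)]⟩,⟨11,[(3,
  3),(3,3),(12,0),(0,0),(5,11),(5,1),(7,3)]⟩⟩,.o ⟨false,0,⟨0,[(12,0),(2,0),(20,0)]⟩,⟨9,[(3,1),(2,1),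
  (0,1),(12,2),(0,2),(5,9),(5,1)]⟩⟩,.a ⟨true,0,⟨1,[(22,0),(8,0),(0,0)]⟩,⟨0,[(23,0)]⟩⟩ ⟨true,0,⟨0,
  [(15,0),(23,0)]⟩,⟨0,[(17,0)]⟩⟩ ⟨false,0,⟨0,[(1,0),(39,0)]⟩,⟨5,[(6,1),(2,1),(10,0),(1,1),(4,5),(13,
  2)]⟩⟩,.o ⟨false,0,⟨1,[(22,0),(2,0),(2,0)]⟩,⟨1,[(23,1),(9,0),(6,0)]⟩⟩]⟩)) (.R ⟨1,false,false,false,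
  [0,0,0,1],[1,-1,1],[0,1,0,-1,0,0,0,0,1],(⟨0,[(22,0)]⟩,⟨1,[(21,0),(8,0),(0,0)]⟩),(⟨0,[(31,0),(1,
  0)]⟩,⟨0,[(12,0)]⟩),⟨0,[(3,0)]⟩,.k,.k,(.r (-1) ⟨1,[(20,0),(17,1),(0,0)]⟩ ⟨25,[(0,5),(1,1),(1,13),
  (1,7),(4,1),(4,7),(2,2),(7,3),(4,2)]⟩),(.r (-1) ⟨1,[(16,1),(3,0),(19,0)]⟩ ⟨0,[(4,0),(33,0),(0,
  0)]⟩),.k,.k,⟨true,0,⟨0,[(1,0),(13,0),(10,0),(8,0)]⟩,⟨1,[(4,1),(34,0),(0,0)]⟩⟩,⟨false,0,⟨0,[(11,0),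
  (10,0)]⟩,⟨3,[(0,1),(13,1),(3,0),(2,0),(4,1),(1,1),(9,1),(0,1)]⟩⟩,⟨false,0,⟨0,[(38,0)]⟩,⟨11,[(2,3),
  (3,3),(12,0),(0,0),(11,1),(7,3)]⟩⟩,⟨false,0,⟨0,[(7,0),(9,0),(5,0)]⟩,⟨0,[(8,0),(17,0)]⟩⟩,⟨true,0,
  ⟨0,[(42,0)]⟩,⟨0,[]⟩⟩,⟨false,0,⟨2,[(4,0),(2,1),(3,1),(2,0),(7,0),(0,0),(16,0)]⟩,⟨3,[(0,1),(19,1),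
  (0,0),(4,1),(3,0),(0,0),(6,1)]⟩⟩,[.o ⟨false,0,⟨6,[(11,1),(2,0),(2,6),(5,3),(0,0),(0,2)]⟩,⟨3,[(0,
  1),(5,1),(13,0),(5,1),(5,0)]⟩⟩,.o ⟨false,0,⟨0,[(11,0),(2,0),(20,0)]⟩,⟨11,[(0,1),(4,3),(0,1),(12,
  2),(0,3),(5,9),(5,2)]⟩⟩,.a ⟨true,0,⟨1,[(21,0),(8,0),(0,0)]⟩,⟨0,[(22,0)]⟩⟩ ⟨true,0,⟨0,[(1,0),(36,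
  1)]⟩,⟨5,[(0,0),(3,0),(1,4),(4,1),(2,0),(6,1),(1,0)]⟩⟩ ⟨false,0,⟨0,[(11,0),(2,0),(7,0),(12,0)]⟩,⟨4,
  [(0,2),(4,0),(13,0),(0,0),(0,0),(4,1)]⟩⟩,.o ⟨false,0,⟨1,[(21,0),(2,0),(2,0)]⟩,⟨1,[(22,1),(9,0),(6,
  0)]⟩⟩]⟩)))))))) (.Q [0,0,0,0,0,1,0,0,0,0,0,-1] (.p false [0,0,0,1] [] (⟨0,[(15,0)]⟩,⟨1,[(14,0),(8,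
  0),(0,0)]⟩) .k 0 (⟨0,[]⟩,⟨0,[]⟩) .k .k) (.R ⟨0,false,false,false,[0,0,0,1],[0,0,1],[0,1,1],(⟨0,
  [(16,0)]⟩,⟨1,[(15,0),(8,0),(0,0)]⟩),(⟨0,[(25,0)]⟩,⟨0,[(24,0)]⟩),⟨0,[(0,0)]⟩,.k,.k,(.x 0 ⟨2,[(5,0),
  (12,1),(2,0),(5,2)]⟩ ⟨3,[(13,0),(0,0),(13,3),(4,1)]⟩),.k,.k,.k,⟨false,0,⟨0,[(9,0),(10,0)]⟩,⟨3,[(8,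
  3),(4,0),(0,0),(19,1)]⟩⟩,⟨true,0,⟨0,[(9,0),(6,0)]⟩,⟨1,[(15,0),(2,0),(3,0)]⟩⟩,⟨false,0,⟨0,[(3,0),
  (25,0)]⟩,⟨0,[(1,0),(6,0),(0,0),(6,0),(17,0)]⟩⟩,⟨true,0,⟨0,[(3,0),(7,0),(4,0)]⟩,⟨0,[(1,0)]⟩⟩,
  ⟨false,0,⟨0,[]⟩,⟨0,[]⟩⟩,⟨false,0,⟨0,[]⟩,⟨0,[]⟩⟩,[.o ⟨false,0,⟨6,[(5,1),(2,0),(3,2),(5,0)]⟩,⟨1,
  [(20,1),(5,0),(7,0)]⟩⟩,.o ⟨false,1,⟨7,[(12,3),(0,0),(0,0),(11,1),(7,3)]⟩,⟨0,[(17,0)]⟩⟩,.a ⟨true,0,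
  ⟨1,[(15,0),(8,0),(0,0)]⟩,⟨0,[(16,0)]⟩⟩ ⟨false,0,⟨1,[(21,0),(0,0)]⟩,⟨1,[(33,0),(0,0)]⟩⟩ ⟨true,0,⟨6,
  [(5,1),(2,0),(3,2),(3,6),(1,0)]⟩,⟨1,[(15,0),(1,0),(2,0)]⟩⟩,.o ⟨false,0,⟨1,[(15,0),(2,0),(2,0)]⟩,
  ⟨1,[(16,1),(9,0),(6,0)]⟩⟩]⟩) (.Q [0,0,0,-1,0,0,-1,-1,0,0,1] (.p true [0,0,1] [] (⟨0,[(25,0)]⟩,⟨0,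
  [(24,0)]⟩) .k 0 (⟨0,[]⟩,⟨0,[]⟩) .k .k) (.R ⟨2,true,false,false,[0,1],[0,1,1],[0,1,1],(⟨0,[]⟩,⟨0,
  []⟩),(⟨0,[(26,0),(2,0)]⟩,⟨0,[(1,1),(5,0),(8,0)]⟩),⟨0,[]⟩,.k,.k,.k,.k,.k,.k,⟨false,0,⟨0,[(0,0),(9,
  0),(20,0)]⟩,⟨3,[(8,1),(0,1),(13,1),(3,0),(4,1),(2,2)]⟩⟩,⟨true,0,⟨0,[(10,0)]⟩,⟨0,[(23,0)]⟩⟩,⟨false,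
  0,⟨0,[(33,0)]⟩,⟨0,[(32,0),(2,0)]⟩⟩,⟨true,0,⟨6,[(6,1),(2,0),(3,2),(5,0)]⟩,⟨0,[(21,0)]⟩⟩,⟨true,0,⟨0,
  [(37,0)]⟩,⟨0,[]⟩⟩,⟨false,1,⟨1,[(8,1),(18,0),(7,0)]⟩,⟨0,[(0,0)]⟩⟩,[]⟩) (.Q [0,0,0,-1,0,0,-1,-1,1,0,
  1,-1] (.p true [0,0,1] [0,0,0,1] (⟨0,[(26,0)]⟩,⟨0,[(25,0)]⟩) .k 2 (⟨0,[(17,0)]⟩,⟨1,[(16,0),(8,0),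
  (0,0)]⟩) .k (.r 0 ⟨0,[(4,0),(4,0),(20,0)]⟩ ⟨1,[(10,1),(4,0),(5,1),(13,0)]⟩)) (.R ⟨1,true,false,
  false,[1,0,-1],[1,0,0,-1],[0,1,0,-1,0,0,0,-1],(⟨0,[(26,0)]⟩,⟨0,[(27,0)]⟩),(⟨1,[(17,0),(8,0),(0,
  0)]⟩,⟨0,[(18,0)]⟩),⟨0,[(2,1),(5,0),(8,0)]⟩,.k,.k,.k,.k,(.x 0 ⟨0,[(2,1),(5,0),(8,0),(2,0)]⟩ ⟨0,
  [(23,0),(3,0),(2,0),(4,0)]⟩),.k,⟨false,0,⟨0,[(0,0),(10,0),(6,0),(13,0)]⟩,⟨3,[(1,1),(3,1),(4,1),(4,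
  0),(8,1),(11,2)]⟩⟩,⟨true,0,⟨0,[(11,0),(6,0)]⟩,⟨1,[(17,0),(2,0),(3,0)]⟩⟩,⟨false,0,⟨0,[(34,0)]⟩,⟨0,
  [(33,0),(2,0)]⟩⟩,⟨true,0,⟨0,[(5,0),(7,0),(4,0)]⟩,⟨0,[(3,0)]⟩⟩,⟨true,0,⟨0,[(38,0)]⟩,⟨0,[]⟩⟩,⟨false,
  1,⟨1,[(1,1),(13,0),(2,1),(17,0)]⟩,⟨0,[(0,0)]⟩⟩,[]⟩) (.I [0,-1,-1,-1,1,0,0,-1,1] (.R ⟨1,false,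
  false,true,[0,0,0,1],[0,0,1],[0,0,0,-1,0,0,0,0,1],(⟨0,[(19,0)]⟩,⟨1,[(18,0),(8,0),(0,0)]⟩),(⟨0,
  [(28,0)]⟩,⟨0,[(27,0)]⟩),⟨0,[(3,0)]⟩,.k,.k,(.x 0 ⟨2,[(8,0),(12,1),(2,0),(5,2)]⟩ ⟨3,[(16,0),(0,0),
  (13,3),(4,1)]⟩),.k,(.r (-1) ⟨0,[(0,0),(38,0)]⟩ ⟨1,[(1,1),(16,0),(2,0),(3,0)]⟩),.k,⟨false,1,⟨0,[(0,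
  0)]⟩,⟨0,[(6,0),(19,0)]⟩⟩,⟨true,0,⟨0,[(12,0),(6,0)]⟩,⟨1,[(18,0),(2,0),(3,0)]⟩⟩,⟨true,0,⟨0,[(35,
  0)]⟩,⟨0,[(34,0)]⟩⟩,⟨false,0,⟨1,[(1,0),(5,0),(6,0),(4,0)]⟩,⟨0,[(4,0),(32,0)]⟩⟩,⟨false,1,⟨3,[(16,0),
  (0,0),(19,1)]⟩,⟨0,[]⟩⟩,⟨false,0,⟨0,[(1,0)]⟩,⟨1,[(0,1),(17,0),(2,0),(3,0)]⟩⟩,[.o ⟨false,0,⟨0,[(22,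
  0)]⟩,⟨0,[(20,0),(16,0)]⟩⟩,.o ⟨false,0,⟨2,[(2,0),(11,0),(7,0)]⟩,⟨1,[(23,1),(5,0),(7,0)]⟩⟩,.a ⟨true,
  0,⟨1,[(18,0),(8,0),(0,0)]⟩,⟨0,[(19,0)]⟩⟩ ⟨true,0,⟨0,[(4,0),(9,0),(4,0)]⟩,⟨0,[(6,0)]⟩⟩ ⟨false,0,⟨2,
  [(2,0),(11,0),(4,2),(2,0)]⟩,⟨1,[(18,0),(1,0),(2,0),(13,1)]⟩⟩,.o ⟨false,0,⟨1,[(18,0),(2,0),(2,0)]⟩,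
  ⟨1,[(19,1),(9,0),(6,0)]⟩⟩]⟩) (.Q [0,-1,0,0,1,0,-1,-1,-1,-1,1,1] (.p true [0,0,1] [1,0,0,-1] (⟨0,
  [(28,0)]⟩,⟨0,[(27,0)]⟩) .k 2 (⟨1,[(18,0),(8,0),(0,0)]⟩,⟨0,[(19,0)]⟩) .k (.r 0 ⟨0,[(2,0),(1,0),(6,
  0),(7,0),(12,0)]⟩ ⟨1,[(12,1),(3,0),(6,1),(13,0)]⟩)) (.I [1,0,0,0,0,0,0,0,-1] (.R ⟨2,true,false,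
  false,[0,1],[0,0,0,1],[0,1,1],(⟨0,[]⟩,⟨0,[]⟩),(⟨0,[(21,0)]⟩,⟨1,[(20,0),(8,0),(0,0)]⟩),⟨0,[]⟩,.k,
  .k,.k,(.r 0 ⟨1,[(0,0),(1,0),(12,0),(23,0)]⟩ ⟨1,[(19,0),(17,1),(0,0)]⟩),.k,.k,⟨false,0,⟨0,[(9,0)]⟩,
  ⟨0,[(6,0),(6,0),(0,0),(6,0),(17,0)]⟩⟩,⟨true,0,⟨1,[(20,0),(2,0),(2,0)]⟩,⟨0,[(21,0)]⟩⟩,⟨false,0,⟨0,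
  [(37,0)]⟩,⟨1,[(1,0),(2,0),(2,0)]⟩⟩,⟨true,0,⟨0,[(6,0),(9,0)]⟩,⟨0,[(8,0),(12,0)]⟩⟩,⟨true,0,⟨0,[(41,
  0)]⟩,⟨0,[]⟩⟩,⟨false,1,⟨3,[(6,1),(0,1),(8,1),(14,0),(7,0)]⟩,⟨0,[(0,0),(20,0)]⟩⟩,[]⟩) (.R ⟨1,false,
  false,false,[0,0,0,1],[1,-1,-1],[1,0,0,0,0,0,0,0,1],(⟨0,[(21,0)]⟩,⟨1,[(20,0),(8,0),(0,0)]⟩),(⟨0,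
  [(5,1),(5,0),(8,0)]⟩,⟨0,[(30,0),(2,0)]⟩),⟨0,[(5,0)]⟩,.k,.k,(.r (-1) ⟨1,[(19,0),(17,1),(0,0)]⟩ ⟨5,
  [(1,1),(0,3),(11,1),(0,1),(4,0),(8,0),(0,0),(8,1)]⟩),(.r 0 ⟨0,[(0,0),(3,0),(22,0)]⟩ ⟨1,[(1,1),(12,
  1),(5,0),(8,0),(0,0),(4,1),(1,1)]⟩),.k,.k,⟨false,0,⟨3,[(0,5),(0,0),(0,1),(1,0),(2,0),(5,1)]⟩,⟨1,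
  [(1,1),(12,1),(5,0),(8,0),(0,0),(4,1),(1,1)]⟩⟩,⟨true,0,⟨0,[(21,0),(1,0)]⟩,⟨1,[(14,1),(5,0),(8,0),
  (0,0)]⟩⟩,⟨true,0,⟨0,[]⟩,⟨0,[(41,0)]⟩⟩,⟨false,1,⟨0,[(1,0),(35,0)]⟩,⟨1,[(0,1),(3,0),(7,0),(7,0)]⟩⟩,
  ⟨false,1,⟨1,[(1,0),(2,0),(2,0)]⟩,⟨0,[(37,0)]⟩⟩,⟨false,1,⟨0,[(1,0)]⟩,⟨1,[(0,1),(16,0),(2,0)]⟩⟩,[.o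
  ⟨false,1,⟨7,[(1,3),(4,3),(11,0),(0,0),(11,1),(5,7)]⟩,⟨0,[(4,0)]⟩⟩,.o ⟨false,1,⟨0,[(1,0),(4,0),(9,
  0)]⟩,⟨1,[(4,0),(19,0),(11,0)]⟩⟩,.a ⟨true,0,⟨1,[(20,0),(8,0),(0,0)]⟩,⟨0,[(21,0)]⟩⟩ ⟨true,0,⟨0,[(0,
  0)]⟩,⟨0,[(9,0)]⟩⟩ ⟨false,1,⟨0,[(0,0),(0,0),(35,0)]⟩,⟨1,[(4,0),(7,0),(7,0)]⟩⟩,.o ⟨false,0,⟨1,[(20,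
  0),(2,0),(2,0)]⟩,⟨1,[(21,1),(9,0),(6,0)]⟩⟩]⟩)) (.I [0,0,1,1,0,0,0,0,-2] (.R ⟨1,false,false,false,
  [0,0,0,1],[1,0,0,-1],[1,0,0,0,0,0,0,0,1],(⟨0,[(21,0)]⟩,⟨1,[(20,0),(8,0),(0,0)]⟩),(⟨1,[(20,0),(8,
  0),(0,0)]⟩,⟨0,[(21,0)]⟩),⟨0,[(5,0)]⟩,.k,.k,(.r (-1) ⟨1,[(19,0),(17,1),(0,0)]⟩ ⟨2,[(0,0),(1,0),(12,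
  0),(23,0)]⟩),.k,(.r (-1) ⟨1,[(6,1),(9,1),(2,0),(1,1),(16,0)]⟩ ⟨0,[(0,0)]⟩),.k,⟨true,0,⟨0,[(1,1),
  (19,1),(0,1),(16,1)]⟩,⟨0,[(0,0),(36,0)]⟩⟩,⟨false,1,⟨1,[(21,3),(9,0),(6,0)]⟩,⟨0,[(20,0)]⟩⟩,⟨true,0,
  ⟨0,[]⟩,⟨0,[(41,0)]⟩⟩,⟨false,1,⟨1,[(0,1),(15,1),(4,3),(0,1),(15,0),(0,0)]⟩,⟨0,[(1,0),(4,0),(32,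
  0)]⟩⟩,⟨false,1,⟨0,[(36,0),(2,0)]⟩,⟨0,[(37,0)]⟩⟩,⟨false,1,⟨3,[(0,3),(9,1),(2,1),(7,7),(0,1),(15,0),
  (0,2)]⟩,⟨0,[(1,0),(4,0),(30,0),(1,0)]⟩⟩,[.o ⟨false,1,⟨1,[(18,0),(2,1),(9,0)]⟩,⟨0,[(1,0),(20,0),
  (16,0)]⟩⟩,.o ⟨false,1,⟨3,[(0,1),(15,1),(4,3),(0,1),(8,0),(6,0),(0,1)]⟩,⟨9,[(1,2),(4,4),(12,0),(0,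
  0),(3,1),(6,1)]⟩⟩,.a ⟨true,0,⟨1,[(20,0),(8,0),(0,0)]⟩,⟨0,[(21,0)]⟩⟩ ⟨true,0,⟨0,[(1,0),(19,0),(0,
  0),(16,0)]⟩,⟨0,[(9,0)]⟩⟩ ⟨false,1,⟨3,[(0,1),(15,1),(4,7),(0,1),(8,0),(6,0),(0,1)]⟩,⟨1,[(1,0),(4,
  0),(13,0),(18,0)]⟩⟩,.o ⟨false,0,⟨1,[(20,0),(2,0),(2,0)]⟩,⟨1,[(21,1),(9,0),(6,0)]⟩⟩]⟩) (.R ⟨1,
  false,false,false,[1,0,0,-1],[1,-1,1],[1,1,0,0,0,0,0,0,-1],(⟨1,[(20,0),(8,0),(0,0)]⟩,⟨0,[(21,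
  0)]⟩),(⟨0,[(30,0),(1,0)]⟩,⟨0,[(11,0)]⟩),⟨0,[(5,0),(14,0)]⟩,.k,.k,(.r (-1) ⟨1,[(18,0),(18,1),(0,
  0)]⟩ ⟨0,[(0,0),(1,0),(12,0),(23,0)]⟩),(.r (-1) ⟨1,[(15,1),(2,0),(20,0)]⟩ ⟨1,[(0,0),(12,0),(14,0),
  (8,0)]⟩),.k,.k,⟨true,0,⟨0,[(2,0),(11,1),(10,1),(13,0)]⟩,⟨2,[(0,1),(1,0),(10,0),(2,0),(10,0),(6,0),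
  (4,0)]⟩⟩,⟨false,0,⟨1,[(10,0),(3,0),(5,0)]⟩,⟨0,[(21,0),(5,0),(10,0)]⟩⟩,⟨false,0,⟨0,[]⟩,⟨3,[(18,0),
  (0,0),(19,1)]⟩⟩,⟨false,0,⟨2,[(0,0),(0,0),(8,0),(5,1),(3,0),(2,0),(15,0)]⟩,⟨0,[(8,0),(12,0),(3,0),
  (13,0)]⟩⟩,⟨true,0,⟨0,[(36,0)]⟩,⟨0,[(37,0)]⟩⟩,⟨false,0,⟨2,[(0,1),(0,0),(0,1),(7,1),(9,0),(18,2)]⟩,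
  ⟨1,[(18,0),(2,1),(3,1),(13,0)]⟩⟩,[.o ⟨false,0,⟨16,[(0,0),(1,1),(7,2),(2,0),(2,17),(5,9),(1,5),(6,
  1)]⟩,⟨0,[(25,0),(10,0),(2,0)]⟩⟩,.o ⟨false,0,⟨0,[(10,0),(2,0),(20,0)]⟩,⟨3,[(7,1),(10,0),(2,1),(3,
  3),(5,0),(4,1)]⟩⟩,.a ⟨true,0,⟨0,[(21,0)]⟩,⟨1,[(20,0),(8,0),(0,0)]⟩⟩ ⟨true,0,⟨0,[(9,0)]⟩,⟨2,[(0,1),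
  (1,0),(12,0),(23,0)]⟩⟩ ⟨false,0,⟨1,[(10,0),(2,0),(2,0),(3,0),(13,0)]⟩,⟨0,[(21,0),(3,0),(10,0),(2,
  0)]⟩⟩,.o ⟨false,0,⟨2,[(10,0),(10,2),(1,1),(2,0)]⟩,⟨7,[(18,0),(0,0),(0,3),(10,1),(6,
  3)]⟩⟩]⟩))))))))) (.Q [0,-1,0,-1,0,0,0,0,1,0,0,-1] (.p false [0,0,0,1] [] (⟨0,[(13,0)]⟩,⟨1,[(12,0),
  (8,0),(0,0)]⟩) .k 0 (⟨0,[]⟩,⟨0,[]⟩) .k .k) (.R ⟨2,true,false,false,[0,1],[0,0,0,1],[1,0,1,1],(⟨0,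
  []⟩,⟨0,[]⟩),(⟨0,[(14,0)]⟩,⟨1,[(13,0),(8,0),(0,0)]⟩),⟨0,[]⟩,.k,.k,.k,(.r (-1) ⟨3,[(5,1),(2,1),(2,
  1),(8,1),(3,0),(7,0)]⟩ ⟨0,[(1,0),(26,0)]⟩),.k,.k,⟨false,1,⟨1,[(11,0),(17,1),(2,0)]⟩,⟨0,[(1,0),(26,
  0)]⟩⟩,⟨true,0,⟨1,[(13,0),(2,0),(2,0)]⟩,⟨0,[(14,0)]⟩⟩,⟨true,0,⟨0,[]⟩,⟨0,[(34,0)]⟩⟩,⟨false,0,⟨0,[(0,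
  0)]⟩,⟨1,[(11,0),(2,1),(14,1),(2,0)]⟩⟩,⟨false,1,⟨0,[(29,0),(2,0)]⟩,⟨0,[(30,0)]⟩⟩,⟨true,0,⟨0,[(0,0),
  (28,0)]⟩,⟨0,[(2,0),(11,0)]⟩⟩,[]⟩) (.Q [0,0,0,0,0,1,0,0,0,0,0,-1] (.p false [0,0,0,1] [] (⟨0,[(14,
  0)]⟩,⟨1,[(13,0),(8,0),(0,0)]⟩) .k 0 (⟨0,[]⟩,⟨0,[]⟩) .k .k) (.R ⟨0,false,false,true,[0,0,0,1],[0,0,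
  1],[0,1],(⟨0,[(15,0)]⟩,⟨1,[(14,0),(8,0),(0,0)]⟩),(⟨0,[(24,0)]⟩,⟨0,[(23,0)]⟩),⟨0,[(0,0)]⟩,.k,.k,
  (.r 0 ⟨0,[(2,0),(26,0)]⟩ ⟨3,[(6,1),(2,1),(2,1),(8,1),(3,0),(7,0)]⟩),.k,.k,.k,⟨false,1,⟨1,[(8,1),
  (10,1),(12,0),(0,0)]⟩,⟨0,[(22,0)]⟩⟩,⟨true,0,⟨0,[(8,0),(6,0)]⟩,⟨1,[(14,0),(2,0),(3,0)]⟩⟩,⟨true,0,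
  ⟨0,[(3,0)]⟩,⟨0,[(2,0),(27,0)]⟩⟩,⟨false,0,⟨0,[(1,0),(8,0)]⟩,⟨1,[(2,1),(11,0),(1,0),(2,0),(10,1),(2,
  1)]⟩⟩,⟨false,0,⟨0,[]⟩,⟨0,[]⟩⟩,⟨false,0,⟨0,[]⟩,⟨0,[]⟩⟩,[.o ⟨false,0,⟨0,[(18,0)]⟩,⟨0,[(16,0),(16,
  0)]⟩⟩,.o ⟨false,0,⟨6,[(4,1),(2,0),(3,2),(5,0)]⟩,⟨1,[(19,1),(5,0),(7,0)]⟩⟩,.a ⟨true,0,⟨1,[(14,0),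
  (8,0),(0,0)]⟩,⟨0,[(15,0)]⟩⟩ ⟨true,0,⟨0,[(35,0)]⟩,⟨0,[]⟩⟩ ⟨false,0,⟨6,[(4,1),(2,0),(3,2),(3,6),(1,
  0)]⟩,⟨1,[(14,0),(1,0),(2,0),(13,1)]⟩⟩,.o ⟨false,0,⟨1,[(14,0),(2,0),(2,0)]⟩,⟨1,[(15,1),(9,0),(6,
  0)]⟩⟩]⟩) (.R ⟨1,true,false,false,[1,0,-1],[1,0,0,-1],[0,1,0,-1,0,0,0,-1],(⟨0,[(23,0)]⟩,⟨0,[(24,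
  0)]⟩),(⟨1,[(14,0),(8,0),(0,0)]⟩,⟨0,[(15,0)]⟩),⟨0,[(0,1),(4,0),(8,0)]⟩,.k,.k,.k,.k,(.x 0 ⟨0,[(0,1),
  (4,0),(8,0),(2,0)]⟩ ⟨0,[(20,0),(3,0),(2,0),(4,0)]⟩),.k,⟨false,0,⟨0,[(2,0),(5,0),(10,0),(9,0)]⟩,
  ⟨13,[(1,7),(2,1),(1,5),(0,7),(4,2),(1,3),(2,7),(15,10)]⟩⟩,⟨true,0,⟨0,[(8,0),(6,0)]⟩,⟨1,[(14,0),(2,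
  0),(3,0)]⟩⟩,⟨false,0,⟨0,[(31,0)]⟩,⟨0,[(30,0),(2,0)]⟩⟩,⟨true,0,⟨0,[(1,0),(8,0)]⟩,⟨1,[(2,1),(11,0),
  (1,0),(2,0),(10,1)]⟩⟩,⟨true,0,⟨0,[(35,0)]⟩,⟨0,[]⟩⟩,⟨false,1,⟨3,[(1,3),(4,1),(3,1),(14,0),(7,2)]⟩,
  ⟨1,[(2,1),(11,0),(1,0),(2,0)]⟩⟩,[]⟩)))))) (.Q [0,0,0,-2,-1,0,1,1,0,0,-1] (.p false [0,0,1] [] (⟨0,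
  [(19,0)]⟩,⟨0,[(18,0)]⟩) .k 0 (⟨0,[]⟩,⟨0,[]⟩) .k .k) (.R ⟨1,true,false,true,[0,0,1],[0,1],[1,1,1,
  1],(⟨0,[(20,0)]⟩,⟨0,[(19,0)]⟩),(⟨0,[(23,0)]⟩,⟨0,[(22,0)]⟩),⟨0,[(1,0)]⟩,.k,.k,.k,.k,(.r 0 ⟨1,[(0,
  1),(2,1),(11,1),(12,0),(0,0)]⟩ ⟨3,[(2,1),(2,5),(11,1),(3,0),(7,2)]⟩),.k,⟨true,0,⟨0,[]⟩,⟨1,[(16,0),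
  (0,0)]⟩⟩,⟨false,1,⟨1,[(3,1),(11,1),(12,0),(0,0)]⟩,⟨0,[(16,0)]⟩⟩,⟨true,0,⟨0,[(5,0)]⟩,⟨0,[(3,0),(23,
  0)]⟩⟩,⟨false,1,⟨0,[(15,0),(10,0),(2,0)]⟩,⟨0,[(6,0)]⟩⟩,⟨false,1,⟨0,[(5,0),(20,0),(2,0)]⟩,⟨0,[(0,0),
  (2,0),(11,0),(13,0)]⟩⟩,⟨true,1,⟨0,[(15,0),(10,1),(2,0)]⟩,⟨0,[(0,0)]⟩⟩,[]⟩) (.Q [0,1,0,-1,-1,0,0,0,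
  -1,-1,0,1] (.p true [0,0,0,1] [1] (⟨0,[(11,0)]⟩,⟨1,[(10,0),(8,0),(0,0)]⟩) .k 1 (⟨0,[]⟩,⟨0,[]⟩) .k
  .k) (.R ⟨2,true,false,true,[0,1],[1,0,0,-1],[1,1,1,1],(⟨0,[]⟩,⟨0,[]⟩),(⟨1,[(11,0),(8,0),(0,0)]⟩,
  ⟨0,[(12,0)]⟩),⟨0,[]⟩,.k,.k,.k,(.r (-1) ⟨3,[(1,1),(6,0),(1,1),(3,0),(2,1),(0,0)]⟩ ⟨1,[(0,1),(10,0),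
  (8,0),(0,0),(7,0),(0,0)]⟩),.k,.k,⟨false,1,⟨5,[(1,1),(1,1),(6,2),(11,0)]⟩,⟨1,[(0,1),(10,0),(8,0),
  (0,0),(7,0),(0,0)]⟩⟩,⟨true,0,⟨0,[(5,0),(6,0),(1,0)]⟩,⟨1,[(11,0),(8,0),(0,0)]⟩⟩,⟨false,0,⟨0,[]⟩,⟨3,
  [(9,0),(0,0),(19,1)]⟩⟩,⟨true,(-1),⟨0,[(0,0)]⟩,⟨11,[(1,3),(1,3),(5,0),(0,6),(0,5),(8,1),(0,1)]⟩⟩,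
  ⟨true,0,⟨0,[(27,0)]⟩,⟨0,[(28,0)]⟩⟩,⟨false,0,⟨5,[(0,5),(0,1),(1,1),(18,0),(7,2)]⟩,⟨1,[(10,0),(0,0),
  (8,0),(0,0),(8,0)]⟩⟩,[]⟩) (.I [1,0,0,0,0,0,0,0,-1] (.Q [0,0,0,1,0,0,0,0,-1,0,0,1] (.p true [0,0,0,
  1] [] (⟨0,[(13,0)]⟩,⟨1,[(12,0),(8,0),(0,0)]⟩) .k 0 (⟨0,[]⟩,⟨0,[]⟩) .k .k) (.Q [0,0,0,0,0,-1,0,0,0,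
  1,0,-1] (.p false [0,0,0,1] [1] (⟨0,[(14,0)]⟩,⟨1,[(13,0),(8,0),(0,0)]⟩) .k 1 (⟨0,[]⟩,⟨0,[]⟩) .k
  .k) (.I [0,-1,0,-1,0,0,0,0,-1] (.R ⟨1,false,false,false,[1,0,0,-1],[1,-1],[0,0,0,-1,0,0,0,0,-1],
  (⟨1,[(15,0),(8,0),(0,0)]⟩,⟨0,[(16,0)]⟩),(⟨0,[(27,0)]⟩,⟨0,[(28,0)]⟩),⟨0,[(1,0)]⟩,.k,.k,(.r 0 ⟨0,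
  [(0,0),(29,0)]⟩ ⟨3,[(5,1),(6,0),(1,1),(3,0),(2,1),(0,0)]⟩),(.r 0 ⟨1,[(2,1),(12,0),(2,0),(2,0)]⟩
  ⟨1,[(14,0),(17,1),(0,0)]⟩),.k,.k,⟨false,0,⟨1,[(0,0),(0,0),(0,0),(5,0),(0,0),(7,0),(10,0),(6,0)]⟩,
  ⟨1,[(14,0),(18,0)]⟩⟩,⟨true,0,⟨1,[(15,0),(2,0),(2,0)]⟩,⟨0,[(16,0)]⟩⟩,⟨true,0,⟨0,[(32,0)]⟩,⟨0,[(31,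
  0)]⟩⟩,⟨false,1,⟨1,[(11,0),(2,0),(0,0),(1,0),(14,0),(1,0)]⟩,⟨0,[(2,0)]⟩⟩,⟨false,1,⟨3,[(13,0),(0,0),
  (19,1)]⟩,⟨0,[]⟩⟩,⟨false,1,⟨0,[(4,0),(6,0),(5,0)]⟩,⟨1,[(0,0),(1,0),(13,0),(19,0)]⟩⟩,[.o ⟨false,0,
  ⟨0,[(11,0),(5,0)]⟩,⟨15,[(5,7),(6,3),(0,2),(0,2),(11,1)]⟩⟩,.o ⟨false,1,⟨1,[(26,0),(5,1),(1,0)]⟩,⟨0,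
  [(31,0)]⟩⟩,.a ⟨true,0,⟨0,[(16,0)]⟩,⟨1,[(15,0),(8,0),(0,0)]⟩⟩ ⟨false,0,⟨0,[(0,0)]⟩,⟨5,[(5,1),(1,1),
  (6,2),(11,0)]⟩⟩ ⟨true,0,⟨1,[(11,0),(3,0),(1,0),(14,0)]⟩,⟨0,[(16,0),(14,0)]⟩⟩,.o ⟨false,0,⟨0,[(9,
  0),(6,0),(1,0)]⟩,⟨7,[(13,0),(0,0),(0,3),(10,1),(6,3)]⟩⟩]⟩) (.I [0,0,-1,-1,0,0,0,0,-1] (.R ⟨1,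
  false,false,false,[1,0,0,-1],[0,-1,1],[0,0,0,-1,0,0,0,0,-1],(⟨1,[(16,0),(8,0),(0,0)]⟩,⟨0,[(17,
  0)]⟩),(⟨0,[(7,0)]⟩,⟨0,[(25,0),(3,0)]⟩),⟨0,[(2,0)]⟩,.k,.k,(.r 0 ⟨0,[(0,0)]⟩ ⟨3,[(6,1),(6,0),(1,1),
  (3,0),(2,1),(0,0)]⟩),(.x (-1) ⟨0,[(19,0),(5,0),(3,0),(4,0)]⟩ ⟨0,[(7,0),(14,0)]⟩),.k,.k,⟨true,0,⟨1,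
  [(3,1),(6,1),(5,0),(1,0),(2,0),(8,1)]⟩,⟨0,[(1,0),(7,0),(20,0)]⟩⟩,⟨false,0,⟨1,[(10,1),(5,0),(8,0),
  (0,0)]⟩,⟨0,[(17,0),(1,0),(14,0)]⟩⟩,⟨true,0,⟨0,[(33,0)]⟩,⟨0,[(32,0)]⟩⟩,⟨true,0,⟨1,[(1,1),(10,1),(3,
  0),(8,0),(0,0),(6,1)]⟩,⟨0,[(3,0),(14,0)]⟩⟩,⟨false,1,⟨3,[(14,0),(0,0),(19,1)]⟩,⟨0,[]⟩⟩,⟨true,0,⟨1,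
  [(1,1),(10,1),(3,0),(8,0),(0,0)]⟩,⟨3,[(0,1),(2,1),(13,1),(0,3),(3,0),(0,0)]⟩⟩,[.o ⟨false,0,⟨1,
  [(12,0),(7,0),(12,0)]⟩,⟨3,[(6,1),(11,1),(8,0),(7,0)]⟩⟩,.o ⟨false,0,⟨0,[(12,0)]⟩,⟨1,[(6,0),(14,0),
  (5,0),(9,0)]⟩⟩,.a ⟨true,0,⟨0,[(17,0)]⟩,⟨1,[(16,0),(8,0),(0,0)]⟩⟩ ⟨true,0,⟨1,[(0,1),(21,0),(0,0)]⟩,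
  ⟨0,[(1,0)]⟩⟩ ⟨false,0,⟨1,[(12,1),(3,0),(8,0),(0,0)]⟩,⟨3,[(6,1),(10,3),(0,1),(8,0),(7,0)]⟩⟩,.o
  ⟨false,0,⟨0,[(10,0),(6,0),(1,0)]⟩,⟨7,[(14,0),(0,0),(0,3),(10,1),(6,3)]⟩⟩]⟩) (.R ⟨1,false,false,
  false,[1,0,0,-1],[0,-1,1],[0,0,0,-1,0,0,0,0,-1],(⟨1,[(16,0),(8,0),(0,0)]⟩,⟨0,[(17,0)]⟩),(⟨0,[(7,
  0)]⟩,⟨0,[(25,0),(3,0)]⟩),⟨0,[(2,0)]⟩,.k,.k,(.x 0 ⟨0,[(10,0),(8,0),(8,0)]⟩ ⟨3,[(14,0),(0,0),(13,3),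
  (4,1)]⟩),(.x (-1) ⟨0,[(19,0),(5,0),(3,0),(4,0)]⟩ ⟨0,[(7,0),(14,0)]⟩),.k,.k,⟨true,0,⟨1,[(3,1),(6,
  1),(5,0),(1,0),(2,0),(8,1)]⟩,⟨0,[(0,0),(8,0),(23,0)]⟩⟩,⟨false,0,⟨1,[(10,1),(5,0),(8,0),(0,0)]⟩,⟨0,
  [(17,0),(1,0),(14,0)]⟩⟩,⟨true,0,⟨0,[(33,0)]⟩,⟨0,[(32,0)]⟩⟩,⟨true,0,⟨1,[(1,1),(10,1),(3,0),(8,0),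
  (0,0),(6,1)]⟩,⟨0,[(3,0),(14,0)]⟩⟩,⟨false,1,⟨3,[(14,0),(0,0),(19,1)]⟩,⟨0,[]⟩⟩,⟨true,0,⟨1,[(1,1),
  (10,1),(3,0),(8,0),(0,0)]⟩,⟨0,[(4,0),(12,0),(0,0)]⟩⟩,[.o ⟨false,0,⟨1,[(12,0),(7,0),(12,0)]⟩,⟨3,
  [(6,1),(11,1),(8,0),(7,0)]⟩⟩,.o ⟨false,0,⟨0,[(12,0)]⟩,⟨1,[(6,0),(14,0),(5,0),(9,0)]⟩⟩,.a ⟨true,0,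
  ⟨0,[(17,0)]⟩,⟨1,[(16,0),(8,0),(0,0)]⟩⟩ ⟨true,0,⟨0,[(4,0),(28,0)]⟩,⟨0,[(1,0)]⟩⟩ ⟨false,0,⟨1,[(12,
  1),(3,0),(8,0),(0,0)]⟩,⟨3,[(6,1),(10,3),(0,1),(8,0),(7,0)]⟩⟩,.o ⟨false,0,⟨0,[(10,0),(6,0),(1,0)]⟩,
  ⟨7,[(14,0),(0,0),(0,3),(10,1),(6,3)]⟩⟩]⟩))) (.Q [0,-1,0,-1,0,0,0,0,-1,-1,0,1] (.p true [0,0,0,1]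
  [1] (⟨0,[(15,0)]⟩,⟨1,[(14,0),(8,0),(0,0)]⟩) .k 1 (⟨0,[]⟩,⟨0,[]⟩) .k .k) (.R ⟨0,false,false,false,
  [1,0,0,-1],[1,-1],[1,0,0,-1,0,0,0,0,-1],(⟨1,[(15,0),(8,0),(0,0)]⟩,⟨0,[(16,0)]⟩),(⟨0,[(27,0)]⟩,⟨0,
  [(28,0)]⟩),⟨0,[(1,0)]⟩,.k,.k,(.r 0 ⟨1,[(0,1),(14,0),(8,0),(0,0),(4,1)]⟩ ⟨3,[(5,1),(6,0),(1,1),(3,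
  0),(2,1),(0,0)]⟩),(.r 0 ⟨1,[(2,1),(12,0),(2,0),(2,0)]⟩ ⟨1,[(14,0),(17,1),(0,0)]⟩),.k,.k,⟨false,0,
  ⟨0,[(3,0)]⟩,⟨1,[(14,0),(18,0)]⟩⟩,⟨true,0,⟨1,[(15,0),(2,0),(2,0)]⟩,⟨0,[(16,0)]⟩⟩,⟨true,0,⟨0,[(32,
  0)]⟩,⟨0,[(31,0)]⟩⟩,⟨false,1,⟨1,[(11,0),(2,0),(0,0),(1,0),(14,0),(1,0)]⟩,⟨0,[(2,0)]⟩⟩,⟨false,0,⟨0,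
  []⟩,⟨0,[]⟩⟩,⟨false,0,⟨0,[]⟩,⟨0,[]⟩⟩,[.o ⟨false,0,⟨0,[(11,0),(5,0)]⟩,⟨15,[(5,7),(6,3),(0,2),(0,2),
  (11,1)]⟩⟩,.o ⟨false,1,⟨1,[(26,0),(5,1),(1,0)]⟩,⟨0,[(31,0)]⟩⟩,.a ⟨true,0,⟨0,[(16,0)]⟩,⟨1,[(15,0),
  (8,0),(0,0)]⟩⟩ ⟨false,0,⟨1,[(0,1),(14,0),(8,0),(0,0)]⟩,⟨5,[(5,1),(1,1),(6,2),(11,0)]⟩⟩ ⟨true,0,⟨1,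
  [(11,0),(3,0),(1,0),(14,0)]⟩,⟨0,[(16,0),(14,0)]⟩⟩,.o ⟨false,0,⟨0,[(9,0),(6,0),(1,0)]⟩,⟨7,[(13,0),
  (0,0),(0,3),(10,1),(6,3)]⟩⟩]⟩) (.R ⟨0,false,false,false,[1,0,0,-1],[0,0,1],[],(⟨1,[(15,0),(8,0),
  (0,0)]⟩,⟨0,[(16,0)]⟩),(⟨0,[(25,0)]⟩,⟨0,[(24,0)]⟩),⟨0,[(1,0)]⟩,.k,.k,(.x 0 ⟨0,[(9,0),(8,0),(8,0)]⟩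
  ⟨3,[(13,0),(0,0),(13,3),(4,1)]⟩),.k,.k,.k,⟨false,1,⟨1,[(9,1),(10,1),(12,0),(0,0)]⟩,⟨0,[(23,0)]⟩⟩,
  ⟨true,0,⟨1,[(9,1),(5,0),(8,0),(0,0)]⟩,⟨0,[(16,0),(1,0)]⟩⟩,⟨false,1,⟨1,[(14,0),(19,0)]⟩,⟨0,[(3,
  0)]⟩⟩,⟨true,0,⟨0,[(0,0),(10,0)]⟩,⟨0,[(3,0),(12,0),(0,0)]⟩⟩,⟨false,0,⟨0,[]⟩,⟨0,[]⟩⟩,⟨false,0,⟨0,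
  []⟩,⟨0,[]⟩⟩,[.o ⟨false,0,⟨2,[(8,0),(0,1),(2,0),(5,0)]⟩,⟨1,[(20,1),(5,0),(7,0)]⟩⟩,.o ⟨false,1,⟨7,
  [(12,3),(0,0),(0,0),(11,1),(7,3)]⟩,⟨0,[(17,0)]⟩⟩,.a ⟨true,0,⟨0,[(16,0)]⟩,⟨1,[(15,0),(8,0),(0,
  0)]⟩⟩ ⟨false,1,⟨3,[(13,0),(0,0),(19,1)]⟩,⟨0,[]⟩⟩ ⟨true,0,⟨1,[(12,0),(2,0)]⟩,⟨0,[(16,0),(0,0)]⟩⟩,
  .o ⟨false,0,⟨0,[(9,0),(6,0),(1,0)]⟩,⟨7,[(13,0),(0,0),(0,3),(10,1),(6,3)]⟩⟩]⟩))) (.R ⟨2,true,false,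
  false,[0,1],[0,0,0,1],[1,1,1,1],(⟨0,[]⟩,⟨0,[]⟩),(⟨0,[(14,0)]⟩,⟨1,[(13,0),(8,0),(0,0)]⟩),⟨0,[]⟩,.k,
  .k,.k,(.x (-1) ⟨3,[(11,0),(0,0),(13,3),(4,1)]⟩ ⟨0,[(7,0),(8,0),(8,0)]⟩),.k,.k,⟨false,0,⟨0,[(1,0),
  (27,0)]⟩,⟨1,[(0,1),(13,1),(16,0),(0,0)]⟩⟩,⟨true,0,⟨1,[(13,0),(2,0),(2,0)]⟩,⟨0,[(14,0)]⟩⟩,⟨false,0,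
  ⟨0,[]⟩,⟨3,[(11,0),(0,0),(19,1)]⟩⟩,⟨true,0,⟨0,[(0,0)]⟩,⟨0,[(1,0),(12,0),(14,0)]⟩⟩,⟨true,0,⟨0,[(29,
  0)]⟩,⟨0,[(30,0)]⟩⟩,⟨false,1,⟨3,[(0,1),(1,1),(21,0),(7,0)]⟩,⟨0,[(1,0),(12,0)]⟩⟩,[]⟩)) (.Q [0,1,0,
  -1,-1,0,0,0,1,0,0,-1] (.p false [0,0,0,1] [] (⟨0,[(13,0)]⟩,⟨1,[(12,0),(8,0),(0,0)]⟩) .k 0 (⟨0,[]⟩,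
  ⟨0,[]⟩) .k .k) (.R ⟨2,true,false,true,[0,1],[0,0,0,1],[1,1,1,1],(⟨0,[]⟩,⟨0,[]⟩),(⟨0,[(14,0)]⟩,⟨1,
  [(13,0),(8,0),(0,0)]⟩),⟨0,[]⟩,.k,.k,.k,(.r (-1) ⟨3,[(3,1),(6,0),(0,1),(4,0),(2,1),(0,0)]⟩ ⟨1,[(0,
  1),(13,1),(16,0),(0,0)]⟩),.k,.k,⟨false,1,⟨5,[(3,1),(1,1),(5,2),(12,0)]⟩,⟨1,[(0,1),(13,1),(16,0),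
  (0,0)]⟩⟩,⟨true,0,⟨1,[(13,0),(2,0),(2,0)]⟩,⟨0,[(14,0)]⟩⟩,⟨false,0,⟨0,[]⟩,⟨3,[(11,0),(0,0),(19,
  1)]⟩⟩,⟨true,(-1),⟨0,[(0,0)]⟩,⟨5,[(3,1),(1,1),(5,2),(2,5),(9,0)]⟩⟩,⟨true,0,⟨0,[(29,0)]⟩,⟨0,[(30,
  0)]⟩⟩,⟨false,0,⟨5,[(0,5),(2,1),(1,1),(18,0),(7,2)]⟩,⟨1,[(11,0),(2,1),(17,0)]⟩⟩,[]⟩) (.I [0,0,-1,
  -1,0,0,0,0,-1] (.R ⟨2,true,false,true,[0,1],[1,0,0,-1],[0,0,1],(⟨0,[]⟩,⟨0,[]⟩),(⟨1,[(14,0),(8,0),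
  (0,0)]⟩,⟨0,[(15,0)]⟩),⟨0,[]⟩,.k,.k,.k,(.r (-1) ⟨3,[(4,1),(6,0),(1,1),(3,0),(2,1),(0,0)]⟩ ⟨0,[(0,
  0)]⟩),.k,.k,⟨false,1,⟨1,[(13,0),(19,0)]⟩,⟨0,[(0,0),(29,0)]⟩⟩,⟨true,0,⟨0,[(8,0),(6,0),(1,0)]⟩,⟨1,
  [(14,0),(8,0),(0,0)]⟩⟩,⟨true,0,⟨0,[(31,0)]⟩,⟨0,[(30,0)]⟩⟩,⟨false,0,⟨0,[(0,0),(7,0),(6,0),(1,0)]⟩,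
  ⟨0,[(3,0)]⟩⟩,⟨false,1,⟨3,[(12,0),(0,0),(19,1)]⟩,⟨0,[]⟩⟩,⟨true,0,⟨0,[(0,0),(7,0),(6,0),(1,0),(12,
  0)]⟩,⟨1,[(2,1),(11,0),(8,0),(0,0)]⟩⟩,[]⟩) (.Q [0,-1,0,0,0,0,0,0,1,0,0,-1] (.p false [0,0,0,1] []
  (⟨0,[(15,0)]⟩,⟨1,[(14,0),(8,0),(0,0)]⟩) .k 0 (⟨0,[]⟩,⟨0,[]⟩) .k .k) (.Q [0,0,0,0,0,1,0,0,0,0,0,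
  -1] (.p false [0,0,0,1] [] (⟨0,[(16,0)]⟩,⟨1,[(15,0),(8,0),(0,0)]⟩) .k 0 (⟨0,[]⟩,⟨0,[]⟩) .k .k)
  (.R ⟨0,false,false,false,[0,0,0,1],[0,0,1],[0,1,0,0,0,0,0,0,1],(⟨0,[(17,0)]⟩,⟨1,[(16,0),(8,0),(0,
  0)]⟩),(⟨0,[(26,0)]⟩,⟨0,[(25,0)]⟩),⟨0,[(0,0)]⟩,.k,.k,(.r 0 ⟨0,[(1,0),(15,0),(13,0),(1,0)]⟩ ⟨0,[(2,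
  0),(11,0)]⟩),.k,.k,.k,⟨false,0,⟨0,[(1,0),(8,0),(6,0),(3,0),(9,0)]⟩,⟨1,[(14,0),(9,1),(10,0)]⟩⟩,
  ⟨true,0,⟨0,[(10,0),(6,0)]⟩,⟨1,[(16,0),(2,0),(3,0)]⟩⟩,⟨true,0,⟨0,[(37,0)]⟩,⟨0,[]⟩⟩,⟨false,1,⟨15,
  [(3,7),(8,7),(0,3),(0,4),(0,0),(1,7),(9,1)]⟩,⟨0,[(1,0),(19,0)]⟩⟩,⟨false,0,⟨0,[]⟩,⟨0,[]⟩⟩,⟨false,0,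
  ⟨0,[]⟩,⟨0,[]⟩⟩,[.o ⟨false,0,⟨2,[(9,0),(0,1),(2,0),(5,0)]⟩,⟨1,[(21,1),(5,0),(7,0)]⟩⟩,.o ⟨false,1,
  ⟨7,[(13,3),(0,0),(0,0),(11,1),(7,3)]⟩,⟨0,[(18,0)]⟩⟩,.a ⟨true,0,⟨1,[(16,0),(8,0),(0,0)]⟩,⟨0,[(17,
  0)]⟩⟩ ⟨false,0,⟨0,[(4,0)]⟩,⟨1,[(14,0),(20,0)]⟩⟩ ⟨true,0,⟨2,[(9,0),(0,1),(2,0),(3,2),(1,0)]⟩,⟨1,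
  [(16,0),(1,0),(2,0)]⟩⟩,.o ⟨false,0,⟨1,[(16,0),(2,0),(2,0)]⟩,⟨1,[(17,1),(9,0),(6,0)]⟩⟩]⟩) (.R ⟨1,
  false,false,false,[1,0,0,-1],[1,-1],[1,0,0,0,0,0,0,0,-1],(⟨1,[(16,0),(8,0),(0,0)]⟩,⟨0,[(17,0)]⟩),
  (⟨0,[(28,0)]⟩,⟨0,[(29,0)]⟩),⟨0,[(0,0),(15,0)]⟩,.k,.k,(.r (-1) ⟨1,[(14,0),(18,1),(0,0)]⟩ ⟨0,[(0,2),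
  (0,0),(8,0),(5,0),(2,0),(9,2),(2,0)]⟩),(.r (-1) ⟨0,[(2,0),(11,0)]⟩ ⟨0,[(1,0),(15,0),(13,0),(1,
  0)]⟩),.k,.k,⟨false,1,⟨5,[(6,1),(1,1),(5,2),(12,0)]⟩,⟨0,[(1,0),(15,0),(13,0),(1,0)]⟩⟩,⟨true,0,⟨1,
  [(16,0),(2,0),(2,0)]⟩,⟨0,[(17,0)]⟩⟩,⟨true,0,⟨0,[]⟩,⟨0,[(37,0)]⟩⟩,⟨false,0,⟨0,[(1,0),(31,0)]⟩,⟨0,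
  [(3,0),(33,0)]⟩⟩,⟨false,1,⟨5,[(6,1),(1,1),(18,0),(7,2)]⟩,⟨0,[(33,0)]⟩⟩,⟨false,0,⟨0,[(1,0)]⟩,⟨3,
  [(14,2),(0,0),(1,3)]⟩⟩,[.o ⟨false,0,⟨0,[(12,0),(5,0)]⟩,⟨15,[(6,7),(6,3),(0,2),(0,2),(11,1)]⟩⟩,.o
  ⟨false,1,⟨1,[(27,0),(5,1),(1,0)]⟩,⟨0,[(32,0)]⟩⟩,.a ⟨true,0,⟨0,[(17,0)]⟩,⟨1,[(16,0),(8,0),(0,0)]⟩⟩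
  ⟨false,1,⟨1,[(14,0),(20,0)]⟩,⟨0,[(4,0)]⟩⟩ ⟨true,0,⟨1,[(12,0),(3,0),(1,0),(14,0)]⟩,⟨0,[(17,0),(14,
  0)]⟩⟩,.o ⟨false,0,⟨0,[(10,0),(6,0),(1,0)]⟩,⟨7,[(14,0),(0,0),(0,3),(10,1),(6,3)]⟩⟩]⟩)) (.Q [0,-1,0,
  -1,0,0,0,0,1,0,0,-1] (.p false [0,0,0,1] [] (⟨0,[(16,0)]⟩,⟨1,[(15,0),(8,0),(0,0)]⟩) .k 0 (⟨0,[]⟩,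
  ⟨0,[]⟩) .k .k) (.R ⟨2,true,false,false,[0,1],[0,0,0,1],[1,0,1,1],(⟨0,[]⟩,⟨0,[]⟩),(⟨0,[(17,0)]⟩,⟨1,
  [(16,0),(8,0),(0,0)]⟩),⟨0,[]⟩,.k,.k,.k,(.r (-1) ⟨0,[(2,0),(11,0)]⟩ ⟨0,[(0,0),(16,0),(13,0)]⟩),.k,
  .k,⟨false,1,⟨5,[(6,1),(1,1),(5,2),(12,0)]⟩,⟨0,[(0,0),(16,0),(13,0)]⟩⟩,⟨true,0,⟨1,[(16,0),(2,0),(2,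
  0)]⟩,⟨0,[(17,0)]⟩⟩,⟨true,0,⟨0,[]⟩,⟨0,[(37,0)]⟩⟩,⟨false,0,⟨0,[(0,0)]⟩,⟨9,[(1,3),(1,5),(2,1),(7,0),
  (0,0),(4,1)]⟩⟩,⟨false,1,⟨5,[(6,1),(1,1),(18,0),(7,2)]⟩,⟨0,[(33,0)]⟩⟩,⟨true,0,⟨0,[(0,0),(31,0)]⟩,
  ⟨0,[(1,0)]⟩⟩,[]⟩) (.Q [0,0,0,-1,0,0,0,0,-1,-1,0,1] (.p true [0,0,0,1] [1] (⟨0,[(17,0)]⟩,⟨1,[(16,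
  0),(8,0),(0,0)]⟩) .k 1 (⟨0,[]⟩,⟨0,[]⟩) .k .k) (.R ⟨2,true,false,true,[0,1],[1,0,0,-1],[1,0,1,1],
  (⟨0,[]⟩,⟨0,[]⟩),(⟨1,[(17,0),(8,0),(0,0)]⟩,⟨0,[(18,0)]⟩),⟨0,[]⟩,.k,.k,.k,(.x (-1) ⟨3,[(15,0),(0,0),
  (13,3),(4,1)]⟩ ⟨0,[(11,0),(8,0),(8,0)]⟩),.k,.k,⟨false,1,⟨1,[(3,1),(31,0),(0,0)]⟩,⟨1,[(0,1),(16,0),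
  (8,0),(0,0),(4,1)]⟩⟩,⟨true,0,⟨0,[(0,0),(2,0)]⟩,⟨1,[(17,0),(8,0),(0,0)]⟩⟩,⟨true,0,⟨0,[]⟩,⟨0,[(38,
  0)]⟩⟩,⟨false,0,⟨0,[(0,0)]⟩,⟨0,[(6,0)]⟩⟩,⟨false,1,⟨5,[(7,1),(1,1),(18,0),(7,2)]⟩,⟨0,[(34,0)]⟩⟩,
  ⟨true,0,⟨0,[(0,0),(32,0)]⟩,⟨1,[(5,1),(11,0),(8,0),(0,0)]⟩⟩,[]⟩) (.Q [0,0,0,0,0,1,0,0,0,0,0,-1]
  (.p false [0,0,0,1] [] (⟨0,[(18,0)]⟩,⟨1,[(17,0),(8,0),(0,0)]⟩) .k 0 (⟨0,[]⟩,⟨0,[]⟩) .k .k) (.R ⟨0,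
  false,false,false,[0,0,0,1],[1,-1],[1,1],(⟨0,[(19,0)]⟩,⟨1,[(18,0),(8,0),(0,0)]⟩),(⟨0,[(30,0)]⟩,⟨0,
  [(31,0)]⟩),⟨0,[(0,0)]⟩,.k,.k,(.x 0 ⟨0,[(12,0),(8,0),(8,0)]⟩ ⟨3,[(16,0),(0,0),(13,3),(4,1)]⟩),(.r
  0 ⟨0,[(1,0),(10,0),(6,0),(1,0)]⟩ ⟨1,[(16,0),(18,1),(0,0)]⟩),.k,.k,⟨false,0,⟨0,[(34,0)]⟩,⟨1,[(35,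
  1),(0,0),(0,0)]⟩⟩,⟨true,0,⟨0,[(12,0),(6,0),(1,0)]⟩,⟨1,[(18,0),(8,0),(0,0)]⟩⟩,⟨true,0,⟨1,[(2,0),(0,
  0),(10,0),(3,0),(1,0)]⟩,⟨0,[(6,0)]⟩⟩,⟨false,1,⟨1,[(14,1),(1,0),(2,1),(0,1),(16,0)]⟩,⟨0,[(1,0)]⟩⟩,
  ⟨false,0,⟨0,[]⟩,⟨0,[]⟩⟩,⟨false,0,⟨0,[]⟩,⟨0,[]⟩⟩,[.o ⟨false,0,⟨0,[(14,0),(5,0)]⟩,⟨15,[(8,7),(6,3),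
  (0,2),(0,2),(11,1)]⟩⟩,.o ⟨false,1,⟨1,[(29,0),(5,1),(1,0)]⟩,⟨0,[(34,0)]⟩⟩,.a ⟨true,0,⟨1,[(18,0),(8,
  0),(0,0)]⟩,⟨0,[(19,0)]⟩⟩ ⟨false,0,⟨0,[]⟩,⟨3,[(16,0),(0,0),(19,1)]⟩⟩ ⟨true,0,⟨0,[(14,0),(4,0),(0,
  0)]⟩,⟨1,[(1,0),(0,0),(15,0),(20,0)]⟩⟩,.o ⟨false,0,⟨1,[(18,0),(2,0),(2,0)]⟩,⟨1,[(19,1),(9,0),(6,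
  0)]⟩⟩]⟩) (.Q [0,0,0,-2,0,0,0,0,-1,-1,0,1] (.p true [0,0,0,1] [1] (⟨0,[(19,0)]⟩,⟨1,[(18,0),(8,0),
  (0,0)]⟩) .k 1 (⟨0,[]⟩,⟨0,[]⟩) .k .k) (.I [1,-1,-1,-1,0,0,0,1,1] (.R ⟨1,false,false,false,[1,0,0,
  -1],[1,-1],[1,0,0,0,0,0,0,0,-1],(⟨1,[(20,0),(8,0),(0,0)]⟩,⟨0,[(21,0)]⟩),(⟨0,[(32,0)]⟩,⟨0,[(33,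
  0)]⟩),⟨0,[(2,0),(17,0)]⟩,.k,.k,(.r (-1) ⟨1,[(18,0),(18,1),(0,0)]⟩ ⟨0,[(2,0),(0,0),(10,0),(8,0),(9,
  0)]⟩),(.r (-1) ⟨0,[(6,0),(11,0)]⟩ ⟨0,[(0,0),(13,0),(10,0)]⟩),.k,.k,⟨false,1,⟨5,[(10,1),(1,1),(5,
  2),(12,0)]⟩,⟨0,[(0,0),(13,0),(10,0)]⟩⟩,⟨true,0,⟨1,[(20,0),(2,0),(2,0)]⟩,⟨0,[(21,0)]⟩⟩,⟨true,0,⟨0,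
  []⟩,⟨0,[(41,0)]⟩⟩,⟨true,0,⟨1,[(0,0),(7,0),(11,0),(1,0),(3,0),(10,0)]⟩,⟨0,[(4,0)]⟩⟩,⟨false,1,⟨5,
  [(10,1),(1,1),(18,0),(7,2)]⟩,⟨0,[(37,0)]⟩⟩,⟨true,0,⟨1,[(0,0),(5,0),(7,0),(5,0),(1,0)]⟩,⟨0,[(5,
  0)]⟩⟩,[.o ⟨false,0,⟨0,[(16,0),(5,0)]⟩,⟨15,[(10,7),(6,3),(0,2),(0,2),(11,1)]⟩⟩,.o ⟨false,1,⟨27,[(0,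
  1),(0,11),(12,1),(4,4),(0,5),(1,1),(8,9),(2,1),(4,12)]⟩,⟨0,[(36,0)]⟩⟩,.a ⟨true,0,⟨0,[(21,0)]⟩,⟨1,
  [(20,0),(8,0),(0,0)]⟩⟩ ⟨false,1,⟨1,[(18,0),(20,0)]⟩,⟨0,[(8,0)]⟩⟩ ⟨true,0,⟨1,[(16,0),(3,0),(1,0),
  (14,0)]⟩,⟨0,[(21,0),(14,0)]⟩⟩,.o ⟨false,0,⟨0,[(14,0),(6,0),(1,0)]⟩,⟨7,[(18,0),(0,0),(0,3),(10,1),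
  (6,3)]⟩⟩]⟩) (.R ⟨1,false,false,false,[1,0,0,-1],[0,-1,1],[1,1,0,0,0,0,0,0,-1],(⟨1,[(20,0),(8,0),
  (0,0)]⟩,⟨0,[(21,0)]⟩),(⟨0,[(11,0)]⟩,⟨0,[(29,0),(3,0)]⟩),⟨0,[(2,0),(17,0)]⟩,.k,.k,(.r (-1) ⟨1,[(18,
  0),(18,1),(0,0)]⟩ ⟨0,[(2,0),(0,0),(10,0),(8,0),(9,0)]⟩),(.r (-1) ⟨3,[(0,3),(17,0),(0,0),(19,1)]⟩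
  ⟨0,[(8,0),(4,0),(23,0)]⟩),.k,.k,⟨true,0,⟨0,[(0,0)]⟩,⟨0,[(8,0),(4,0),(20,0)]⟩⟩,⟨false,0,⟨1,[(14,1),
  (5,0),(8,0),(0,0)]⟩,⟨0,[(21,0),(1,0),(14,0)]⟩⟩,⟨false,0,⟨0,[]⟩,⟨3,[(18,0),(0,0),(19,1)]⟩⟩,⟨false,
  0,⟨0,[(3,0),(12,0),(20,0)]⟩,⟨0,[(7,0),(14,0)]⟩⟩,⟨true,0,⟨0,[(36,0)]⟩,⟨0,[(37,0)]⟩⟩,⟨false,0,⟨0,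
  [(3,0),(12,0)]⟩,⟨0,[(1,0),(8,0)]⟩⟩,[.o ⟨false,0,⟨1,[(16,0),(7,0),(12,0)]⟩,⟨3,[(10,1),(11,1),(8,0),
  (7,0)]⟩⟩,.o ⟨false,0,⟨0,[(16,0)]⟩,⟨1,[(10,0),(14,0),(5,0),(9,0)]⟩⟩,.a ⟨true,0,⟨0,[(21,0)]⟩,⟨1,
  [(20,0),(8,0),(0,0)]⟩⟩ ⟨true,0,⟨5,[(1,1),(2,3),(15,2),(1,0),(1,0)]⟩,⟨0,[(8,0)]⟩⟩ ⟨false,0,⟨1,[(16,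
  1),(3,0),(8,0),(0,0)]⟩,⟨3,[(10,1),(10,3),(0,1),(8,0),(7,0)]⟩⟩,.o ⟨false,0,⟨0,[(14,0),(6,0),(1,
  0)]⟩,⟨7,[(18,0),(0,0),(0,3),(10,1),(6,3)]⟩⟩]⟩)) (.R ⟨1,false,false,false,[1,0,0,-1],[0,-1,1],[0,1,
  0,-1,0,0,0,0,-1],(⟨1,[(19,0),(8,0),(0,0)]⟩,⟨0,[(20,0)]⟩),(⟨0,[(10,0)]⟩,⟨0,[(28,0),(3,0)]⟩),⟨0,[(1,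
  0),(17,0)]⟩,.k,.k,(.r (-1) ⟨1,[(17,0),(18,1),(0,0)]⟩ ⟨0,[(0,1),(0,2),(1,0),(11,2),(3,0),(1,2),(10,
  2),(0,0)]⟩),(.r (-1) ⟨1,[(14,1),(2,0),(20,0)]⟩ ⟨0,[(7,0),(4,0),(23,0)]⟩),.k,.k,⟨true,0,⟨1,[(3,1),
  (9,1),(5,0),(1,0),(2,0),(8,1)]⟩,⟨0,[(0,0),(11,0),(2,0),(4,0),(0,0),(11,0)]⟩⟩,⟨false,0,⟨1,[(13,1),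
  (5,0),(8,0),(0,0)]⟩,⟨0,[(20,0),(1,0),(14,0)]⟩⟩,⟨false,0,⟨0,[(36,0)]⟩,⟨4,[(0,0),(5,1),(1,0),(21,0),
  (7,0)]⟩⟩,⟨false,0,⟨0,[(2,0),(12,0),(20,0)]⟩,⟨0,[(6,0),(14,0)]⟩⟩,⟨true,0,⟨0,[(40,0)]⟩,⟨0,[]⟩⟩,
  ⟨false,0,⟨0,[(2,0),(12,0)]⟩,⟨1,[(17,0),(2,1),(0,1),(16,0)]⟩⟩,[.o ⟨false,0,⟨1,[(15,0),(7,0),(12,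
  0)]⟩,⟨3,[(9,1),(11,1),(8,0),(7,0)]⟩⟩,.o ⟨false,0,⟨0,[(15,0)]⟩,⟨1,[(9,0),(14,0),(5,0),(9,0)]⟩⟩,.a
  ⟨true,0,⟨0,[(20,0)]⟩,⟨1,[(19,0),(8,0),(0,0)]⟩⟩ ⟨true,0,⟨1,[(4,1),(10,0),(3,0),(1,0),(14,0)]⟩,⟨0,
  [(0,0),(14,0),(4,0),(0,0)]⟩⟩ ⟨false,0,⟨1,[(15,1),(3,0),(8,0),(0,0)]⟩,⟨3,[(9,1),(10,3),(0,1),(8,0),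
  (7,0)]⟩⟩,.o ⟨false,0,⟨0,[(13,0),(6,0),(1,0)]⟩,⟨7,[(17,0),(0,0),(0,3),(10,1),(6,
  3)]⟩⟩]⟩)))))))))))) (.R ⟨2,true,false,true,[0,1],[1,0,-1],[1,0,1,1],(⟨0,[]⟩,⟨0,[]⟩),(⟨0,[(17,0)]⟩,
  ⟨0,[(18,0)]⟩),⟨0,[]⟩,.k,.k,.k,.k,.k,.k,⟨false,1,⟨0,[(16,0),(7,0),(2,0)]⟩,⟨0,[(0,0),(1,0),(14,0),
  (0,0),(4,0)]⟩⟩,⟨true,0,⟨0,[(11,0)]⟩,⟨0,[(2,0),(14,0),(0,0)]⟩⟩,⟨true,0,⟨0,[]⟩,⟨0,[(29,0)]⟩⟩,⟨false,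
  0,⟨0,[(0,0)]⟩,⟨1,[(5,0),(11,0),(0,0),(5,1),(2,1)]⟩⟩,⟨false,1,⟨0,[(24,0),(2,0)]⟩,⟨0,[(25,0)]⟩⟩,
  ⟨true,0,⟨0,[(10,0)]⟩,⟨1,[(5,0),(11,0),(0,0)]⟩⟩,[]⟩))))

theorem ok30 : chk (cU (-1) false 3) t30 r15 = true := by decide +kernel

end Helper11.CT.Tm1_2_m1_1_v
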